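import Pool.Agent.Lib_MP_fa6e45.CY6_1d

/-!
MP_fa6e45_co, stage 7: certificates (generated by a program).
-/

namespace Pool.Agent.Lib_MP_fa6e45

noncomputable def cU6_2_n6_0 : List XN :=
  [.old (.lp [(nat_lit 316),(nat_lit 440),(nat_lit 238),(nat_lit 354),(nat_lit 280),(nat_lit 290)] [k62,k62,k0,k0,k101,
    k101,k43,k43,k94,k66,k75,k75] k0 [[k0,k0,k0,k0,k0,k0,k120],[k0,k0,k0,k44,k0,k0,k0,k0,k0,k0,k0,k38],[k44,k0,k0,k0,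
    k0,k78,k0,k0,k128],[k0,k0,k0,k0,k0,k46,k0,k0,k44],[k0,k0,k46,k78],[k0,k0,k0,k0,k0,k0,k122,k34],[k0,k0,k0,k0,k34,
    k0,k0,k0,k0,k24],[k0,k120,k0,k0,k122],[k0,k0,k0,k0,k0,k0,k0,k24,k0,k0,k76],[k0,k0,k44,k128],[k38],[k0,k0,k0,k0,k0,
    k0,k0,k0,k0,k76]] (nat_lit 960) k6
    [[(k8,(nat_lit 208)),(k4,(nat_lit 277)),(k11,(nat_lit 303)),(k7,(nat_lit 335)),(k0,(nat_lit 354)),(k3,
    (nat_lit 378))],[(k9,k192),(k10,(nat_lit 303)),(k5,(nat_lit 321)),(k6,(nat_lit 335)),(k1,(nat_lit 354)),(k2,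
    (nat_lit 378))],[(k10,(nat_lit 327)),(k5,(nat_lit 339)),(k9,(nat_lit 374)),(k1,(nat_lit 378)),(k2,(nat_lit 396)),
    (k6,(nat_lit 517))],[(k11,(nat_lit 237)),(k4,(nat_lit 261)),(k0,(nat_lit 378)),(k8,(nat_lit 390)),(k3,
    (nat_lit 396)),(k7,(nat_lit 443))],[(k4,k192),(k11,(nat_lit 220)),(k0,(nat_lit 321)),(k3,(nat_lit 339)),(k8,
    (nat_lit 373)),(k7,(nat_lit 374))],[(k5,k192),(k2,(nat_lit 261)),(k10,(nat_lit 264)),(k1,(nat_lit 277)),(k9,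
    (nat_lit 307)),(k6,(nat_lit 418))],[(k9,(nat_lit 209)),(k6,(nat_lit 320)),(k10,(nat_lit 322)),(k1,(nat_lit 335)),
    (k5,(nat_lit 374)),(k2,(nat_lit 443))],[(k8,(nat_lit 279)),(k7,(nat_lit 320)),(k11,(nat_lit 322)),(k0,
    (nat_lit 335)),(k4,(nat_lit 418)),(k3,(nat_lit 517))],[(k0,k192),(k7,(nat_lit 209)),(k8,(nat_lit 280)),(k4,
    (nat_lit 307)),(k11,(nat_lit 323)),(k3,(nat_lit 374))],[(k1,(nat_lit 208)),(k10,(nat_lit 271)),(k6,(nat_lit 279)),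
    (k9,(nat_lit 280)),(k5,(nat_lit 373)),(k2,(nat_lit 390))],[(k5,(nat_lit 220)),(k2,(nat_lit 237)),(k1,
    (nat_lit 303)),(k6,(nat_lit 322)),(k9,(nat_lit 323)),(k10,(nat_lit 366))],[(k4,(nat_lit 264)),(k8,(nat_lit 271)),
    (k0,(nat_lit 303)),(k7,(nat_lit 322)),(k3,(nat_lit 327)),(k11,(nat_lit 366))]]
    [] k0
    [[k2,k0,k0,k0,k0,k0],[k2,k0,k1,k0,k0,k0],[k2,k0,k0,k0,k1,k0],[k1,k1,k0,k0,k0,k0],[k1,k1,k0,k0,k0,k1],[k1,k0,k1,k0,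
    k0,k0],[k1,k0,k2,k0,k0,k0],[k1,k0,k1,k0,k1,k0],[k1,k0,k1,k0,k0,k1],[k1,k0,k0,k1,k0,k0],[k1,k0,k0,k1,k1,k0],[k1,k0,
    k0,k0,k1,k0],[k2,k0,k0,k0,k2,k0],[k1,k0,k0,k1,k2,k0],[k1,k0,k0,k0,k2,k0],[k1,k0,k0,k0,k1,k1],[k1,k0,k0,k0,k0,k1],
    [k0,k2,k0,k0,k0,k0],[k0,k1,k1,k0,k0,k0],[k0,k1,k2,k0,k0,k0],[k0,k1,k1,k0,k0,k1],[k0,k1,k0,k0,k1,k0],[k0,k1,k0,k0,
    k1,k1],[k0,k1,k0,k0,k0,k1],[k0,k1,k0,k0,k0,k2],[k0,k0,k2,k0,k0,k0],[k0,k0,k3,k0,k0,k0],[k0,k0,k4,k0,k0,k0],[k0,k0,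
    k3,k0,k0,k1],[k0,k0,k2,k0,k1,k0],[k0,k0,k2,k0,k0,k1],[k0,k0,k1,k1,k0,k0],[k0,k0,k1,k0,k1,k0],[k0,k0,k1,k0,k0,k1],
    [k0,k0,k1,k0,k1,k1],[k0,k0,k1,k0,k0,k2],[k0,k0,k0,k2,k0,k0],[k0,k0,k0,k2,k1,k0],[k0,k0,k0,k1,k1,k0],[k0,k0,k0,k1,
    k2,k0],[k0,k0,k0,k1,k1,k1],[k0,k0,k0,k1,k0,k1],[k0,k0,k0,k0,k2,k0],[k0,k0,k0,k0,k3,k0],[k0,k0,k0,k0,k2,k1],[k0,k0,
    k0,k0,k1,k1],[k0,k0,k0,k0,k0,k2]]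
    [.contra [z1],.contra [y1,z1,y1,z1,z1],.contra [y1,z1,y1,z1,z1],.contra [z1,y1,y1],.ref k1 k3 [(z1,[y1,z0,z0,z0,
    z1])],.contra [y1,z1,z0,z2],.contra [y1,z1,z0,z2],.contra [y2,z1,y1,z0,z2],.contra [z1,y1,z0,y1],.contra [y1,z1,
    z0,z2],.contra [y1,z0,z1,y1,z1],.contra [y1,z0,z0,y1,z1],.contra [y1,z0,z0,y2,z2],.ref k1 k0 [(z2,[z1,y1])],
    .ref k178 k3 [(z1,[z1,z0,z1,z1,y1])],.contra [y1,z0,y1,z0,z1],.contra [y1,z0,y1,z0,z1],.contra [z1],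
    .ref k178 k10 [(z1,[z1])],.ref (nat_lit 252) k8 [(z1,[z1,z0,z2,z0,y2]),(z1,[z0,z0,y1,z0,z1])],.contra [z1,z0,z1,
    y1],.contra [y1,z0,z0,y1,z1],.contra [z1,z1,z0,z2,y1],.ref k1 k0 [(z1,[y1,y1,z0,y1,z1])],.ref k178 k3 [(z1,[y1,y1,
    z0,y1,z1])],.contra [z1],.ref (nat_lit 217) k10 [(z1,[z1]),(z1,[z0,z0,z1])],.ref (nat_lit 333) k3 [(z2,[z1,y2,y2,
    y6,z2]),(z2,[y1,z0,z0,z4]),(z2,[y1,z2,z0,z4]),(z1,[z0,z0,z1])],.ref (nat_lit 252) k8 [(z1,[z1,z0,z3,y1,y2]),(z1,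
    [z0,z0,y1,z0,z1])],.contra [y1,z1,y1,z1,z1],.ref k178 k10 [(z1,[z1,z0,z1,y1])],.contra [y2,z1,z1,z2],.contra [y2,
    z1,y1,z0,z2],.contra [y1,z0,z0,z1],.contra [y1,z0,y1,z0,z1],.ref k1 k0 [(z1,[y1,y1,y1,z0,z1])],.contra [y1,z0,z2],
    .ref k1 k0 [(z2,[z1,y1,y1,y1,z1])],.ref k178 k3 [(z1,[z1])],.ref (nat_lit 332) k2 [(z1,[z1,z3,z2,z2,y2]),(z1,[y1,
    y2,y1,y2,z2]),(z1,[y1,y2,y2,y1,z2]),(z1,[z1,z2,z2,z2,y2])],.ref k1 k0 [(z1,[z1])],.contra [y1,z0,z0,z1],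
    .contra [z1],.ref k1 k3 [(z2,[z1,z1,z1,z3,y1])],.ref k1 k3 [(z1,[z1,z1,z1,z2,y1])],.contra [y2,y1,y1,y2,z2],
    .contra [z1]]),
    .geo true z2 k5 [(y3,z4),(z3,y2),(z3,y2),(z4,y2),(z1,z0),(z0,z2)] [(z1,[z1]),(z1,[z0,z1]),(z1,[z0,z0,z1]),(z1,[z0,z0,
    z0,z2]),(z1,[y1,y1,y1,y2,z2]),(z1,
    [])] (Int.ofNat (nat_lit 786432)) (Int.ofNat (nat_lit 1572864)) (.s (.s (.l k1) (.l k1)) (.s (.l k1) (.l k1))) [],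
    .old (.lp [(nat_lit 334),(nat_lit 216),(nat_lit 362),(nat_lit 372),(nat_lit 252),(nat_lit 382)] [k24,k24,k83,k83,k10,
    k10,k5,k5,k65,k65,k0,k0] k0 [[k0,k0,k156,k20],[k0,k0,k0,k0,k0,k0,k38,k0,k0,k0,k0,k96],[k0,k20],[k0,k156,k0,k0,k0,
    k0,k0,k0,k180],[k0,k0,k0,k0,k0,k0,k0,k0,k0,k0,k146,k58],[],[k0,k0,k0,k0,k0,k0,k0,k0,k0,k26],[k38,k0,k0,k0,k0,k0,
    k0,k0,k0,k60],[k0,k0,k0,k0,k0,k0,k60,k26,k0,k0,k10],[k0,k0,k180,k0,k0,k0,k0,k0,k0,k0,k148],[k96,k0,k0,k0,k0,k58],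
    [k0,k0,k0,k0,k0,k146,k0,k0,k148,k10]] (nat_lit 960) k6
    [[(k4,(nat_lit 202)),(k11,(nat_lit 210)),(k3,(nat_lit 275)),(k8,(nat_lit 283)),(k7,(nat_lit 411)),(k0,
    (nat_lit 430))],[(k5,k192),(k2,(nat_lit 255)),(k9,(nat_lit 293)),(k10,(nat_lit 358)),(k6,(nat_lit 391)),(k1,
    (nat_lit 430))],[(k9,k196),(k10,(nat_lit 203)),(k1,(nat_lit 275)),(k6,(nat_lit 294)),(k5,(nat_lit 309)),(k2,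
    (nat_lit 372))],[(k0,(nat_lit 255)),(k4,(nat_lit 289)),(k7,(nat_lit 294)),(k11,(nat_lit 299)),(k3,(nat_lit 372)),
    (k8,(nat_lit 414))],[(k0,k192),(k11,k192),(k8,(nat_lit 307)),(k3,(nat_lit 309)),(k4,(nat_lit 362)),(k7,
    (nat_lit 367))],[(k1,(nat_lit 202)),(k2,(nat_lit 289)),(k9,(nat_lit 307)),(k10,(nat_lit 314)),(k5,(nat_lit 362)),
    (k6,(nat_lit 367))],[(k2,(nat_lit 294)),(k9,(nat_lit 312)),(k5,(nat_lit 367)),(k6,(nat_lit 372)),(k1,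
    (nat_lit 411)),(k10,(nat_lit 523))],[(k8,(nat_lit 286)),(k3,(nat_lit 294)),(k4,(nat_lit 367)),(k7,(nat_lit 372)),
    (k0,(nat_lit 391)),(k11,(nat_lit 437))],[(k8,k192),(k3,k196),(k0,(nat_lit 293)),(k4,(nat_lit 307)),(k7,
    (nat_lit 312)),(k11,(nat_lit 343))],[(k9,k192),(k1,(nat_lit 283)),(k6,(nat_lit 286)),(k5,(nat_lit 307)),(k2,
    (nat_lit 414)),(k10,(nat_lit 465))],[(k5,k192),(k1,(nat_lit 210)),(k2,(nat_lit 299)),(k9,(nat_lit 343)),(k10,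
    (nat_lit 392)),(k6,(nat_lit 437))],[(k3,(nat_lit 203)),(k4,(nat_lit 314)),(k0,(nat_lit 358)),(k11,(nat_lit 392)),
    (k8,(nat_lit 465)),(k7,(nat_lit 523))]]
    [] k0
    [[k2,k0,k0,k0,k0,k0],[k2,k0,k1,k0,k0,k0],[k1,k1,k0,k0,k0,k0],[k2,k1,k1,k0,k0,k0],[k1,k2,k0,k0,k0,k0],[k1,k1,k1,k0,
    k0,k0],[k1,k1,k0,k0,k0,k1],[k1,k0,k1,k0,k0,k0],[k2,k0,k2,k0,k0,k0],[k1,k0,k2,k0,k0,k0],[k1,k0,k1,k0,k1,k0],[k1,k0,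
    k1,k0,k0,k1],[k1,k1,k1,k0,k0,k1],[k1,k0,k2,k0,k0,k1],[k1,k0,k0,k1,k0,k0],[k1,k0,k0,k0,k1,k0],[k1,k1,k0,k0,k1,k0],
    [k1,k0,k0,k0,k2,k0],[k1,k1,k0,k0,k2,k0],[k1,k0,k0,k0,k0,k1],[k0,k2,k0,k0,k0,k0],[k0,k2,k0,k0,k0,k1],[k0,k1,k1,k0,
    k0,k0],[k0,k1,k1,k0,k0,k1],[k0,k1,k0,k1,k0,k0],[k0,k1,k1,k1,k0,k0],[k0,k1,k0,k0,k1,k0],[k0,k1,k1,k0,k1,k0],[k0,k1,
    k0,k1,k1,k0],[k0,k1,k0,k0,k2,k0],[k0,k1,k0,k0,k0,k1],[k0,k1,k0,k1,k0,k1],[k0,k1,k0,k0,k0,k2],[k0,k0,k2,k0,k0,k0],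
    [k0,k0,k2,k0,k0,k1],[k0,k0,k1,k1,k0,k0],[k0,k0,k1,k0,k1,k0],[k0,k0,k1,k0,k2,k0],[k0,k0,k1,k0,k0,k1],[k0,k0,k1,k0,
    k0,k2],[k0,k0,k0,k2,k0,k0],[k0,k0,k0,k1,k1,k0],[k0,k0,k0,k1,k2,k0],[k0,k0,k0,k0,k2,k0],[k0,k0,k0,k0,k3,k0],[k0,k0,
    k0,k0,k4,k0],[k0,k0,k0,k0,k1,k1],[k0,k0,k0,k0,k0,k2]]
    [.contra [z1],.ref k178 k2 [(z1,[z1,y1,z0,y1])],.contra [y1,z0,z0,y1,z1],.contra [y1,z0,y1,y1,z2],.contra [y1,z1,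
    z2],.contra [y1,z1,z1,z1],.contra [y1,y1,y1,y2,z2],.contra [y1,z0,y1,z0,z1],.contra [y1,z0,y2,z0,z2],.contra [y1,
    z1,z0,z2],.contra [y1,z1,z1,z1],.contra [y1,y1,y2,y1,z2],.ref k178 k3 [(z1,[y1,z0,z0,z0,z1])],.ref k178 k3 [(z1,
    [y1,z0,y1,z1,z1])],.contra [y1,z0,z0,y1,z1],.contra [y1,z1,z2],.contra [y1,z1,z2],.ref (nat_lit 296) k3 [(z1,[z1,
    y1,y1,y1]),(z1,[z0,y1,y1,y1,z1])],.ref k27 k0 [(z1,[z0,z0,z0,z1]),(z1,[z1,y1,y2,y1,z1])],.ref k178 k2 [(z1,[z1])],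
    .contra [z1],.ref k27 k0 [(z1,[z0,z0,z0,z1]),(z1,[y1,z0,z1,y1,z1])],.contra [z1,z0,z1,y1],.ref k27 k0 [(z1,[z0,z0,
    z0,z1]),(z1,[y1,z0,z0,z0,z1])],.contra [y1,z0,z0,y1,z1],.ref k1 k2 [(z1,[y1,z0,z0,z0,z1])],.contra [y1,z1,z2],
    .contra [y1,z1,z1,z1],.contra [z1,y1,y2,y1,z1],.ref k178 k3 [(z1,[z1,y1,y2,y1,z1])],.contra [y1,z0,z1],
    .contra [z1,z1,z1,z1,y1],.ref k178 k3 [(z1,[y1,y1,z0,y1,z1])],.contra [z1,z0,z2,y2],.ref k27 k0 [(z1,[z0,z0,z0,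
    z1]),(z1,[y1,z0,y1,z1,z1])],.contra [y1,z0,y1,z0,z1],.contra [y1,z1,z1,z1],.ref k178 k3 [(z1,[z1,y1,y1,y2,z1])],
    .contra [y1,z0,z0,z1],.ref k178 k3 [(z1,[y1,y1,y1,z0,z1])],.contra [z1],.ref k178 k3 [(z1,[z1])],
    .ref (nat_lit 252) k4 [(z1,[z1,y2,y2,y2]),(z1,[z0,z1,z1,z1])],.contra [z1],.ref (nat_lit 217) k3 [(z1,[z1]),(z1,
    [z0,y1,y1,y1,z1])],.ref (nat_lit 335) k2 [(z2,[z1,z4]),(z2,[y1,z0,z4]),(z2,[y1,z0,z0,z4]),(z1,[z0,y1,y1,y1,z1])],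
    .contra [y1,z0,z1],.contra [y1,y2,y2,y2,z2]]),
    .geo true z2 k4 [(y1,z2),(z3,y2),(z4,y2),(z1,z0),(z0,z2),(z1,z0)] [(z1,[z1]),(z1,[z0,z1]),(z1,[z0,z0,z2]),(z1,[z0,z0,
    z0,z1]),(z1,[]),(z1,[y1,y1,y2,y1,
    z2])] (Int.ofNat (nat_lit 524288)) (Int.ofNat (nat_lit 1572864)) (.s (.s (.l k1) (.l k1)) (.s (.l k1) (.l k1))) [],
    .geo true z2 k5 [(y1,z2),(z3,y2),(z1,z0),(z1,z2),(z4,y4),(z0,z2)] [(z1,[z1]),(z1,[z0,z1]),(z1,[z0,z0,z1]),(z1,[z0,z0,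
    z0,z1]),(z1,[y1,y1,y1,y1,z2]),(z1,
    [])] (Int.ofNat (nat_lit 524288)) (Int.ofNat (nat_lit 1048576)) (.s (.l k1) (.s (.l k1) (.l k2))) [⟨z1,z1,[[k0,
    k2],[k1,k4],[k3,k5]],.bnd k4⟩],
    .geo true z6 k4 [(z3,z0),(z5,z0),(z5,y6),(z4,z0),(z0,z6),(z7,z0)] [(z1,[z3]),(z1,[z0,z1]),(z1,[z0,z0,z1]),(z1,[z0,z0,
    z0,z2]),(z1,[]),(z1,[y3,y1,y1,y2,z6])] z0 (Int.ofNat (nat_lit 873814)) (.s (.l k1) (.l k1)) [],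
    .old (.lp [(nat_lit 980584),(nat_lit 1073780),(nat_lit 1677528),(nat_lit 1177106),(nat_lit 1857842),
    (nat_lit 1004896)] [(nat_lit 603749),(nat_lit 273509),(nat_lit 392031),(nat_lit 392031),(nat_lit 90157),
    (nat_lit 90157),(nat_lit 340368),(nat_lit 340368),k0,k0,(nat_lit 426473),(nat_lit 426473)] k0 [[k0,k0,
    (nat_lit 222860),k0,k0,k0,k0,(nat_lit 103326)],[k0,k0,k0,k0,k0,k0,k0,k0,k0,k0,(nat_lit 93196)],[k0,k0,k0,k0,k0,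
    (nat_lit 158028),k0,k0,(nat_lit 149924)],[k0,(nat_lit 222860),k0,k0,k0,(nat_lit 342394)],[k0,k0,(nat_lit 342394),
    (nat_lit 158028),k0,k0,k0,k0,k0,k0,k0,(nat_lit 127638)],[k0,k0,k0,k0,k0,k0,(nat_lit 149924),(nat_lit 204626)],[k0,
    (nat_lit 103326),k0,k0,(nat_lit 204626)],[k0,k0,k0,k0,(nat_lit 149924),k0,k0,k0,(nat_lit 32416)],[k0,k0,k0,k0,k0,
    k0,k0,k0,k0,k0,(nat_lit 806348)],[k0,k0,k0,(nat_lit 149924),k0,k0,(nat_lit 32416)],[k0,k0,k0,k0,k0,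
    (nat_lit 127638)],[(nat_lit 93196),k0,k0,k0,k0,k0,k0,k0,k0,(nat_lit 806348)]] (nat_lit 3889920) k6
    [[(k8,(nat_lit 777985)),(k0,(nat_lit 980584)),(k3,(nat_lit 1099106)),(k11,(nat_lit 1157860)),(k7,
    (nat_lit 1371603)),(k4,(nat_lit 1494176))],[(k6,(nat_lit 810399)),(k2,(nat_lit 862062)),(k10,(nat_lit 920816)),
    (k5,(nat_lit 941076)),(k1,(nat_lit 980584)),(k9,(nat_lit 1254093))],[(k10,(nat_lit 1039338)),(k1,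
    (nat_lit 1099106)),(k6,(nat_lit 1125443)),(k2,(nat_lit 1296640)),(k5,(nat_lit 1375654)),(k9,(nat_lit 1569137))],
    [(k0,(nat_lit 862062)),(k11,(nat_lit 889414)),(k4,(nat_lit 1217626)),(k3,(nat_lit 1296640)),(k8,
    (nat_lit 1465811)),(k7,(nat_lit 1467837))],[(k0,(nat_lit 941076)),(k4,(nat_lit 1335134)),(k11,(nat_lit 1341212)),
    (k3,(nat_lit 1375654)),(k7,(nat_lit 1585345)),(k8,(nat_lit 1917609))],[(k10,(nat_lit 1213574)),(k2,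
    (nat_lit 1217626)),(k5,(nat_lit 1335134)),(k1,(nat_lit 1494176)),(k6,(nat_lit 1577241)),(k9,(nat_lit 1972311))],
    [(k6,(nat_lit 972480)),(k10,(nat_lit 1091001)),(k9,(nat_lit 1367550)),(k1,(nat_lit 1371603)),(k2,
    (nat_lit 1467837)),(k5,(nat_lit 1585345))],[(k0,(nat_lit 810399)),(k7,(nat_lit 972480)),(k11,(nat_lit 1091001)),
    (k3,(nat_lit 1125443)),(k8,(nat_lit 1549890)),(k4,(nat_lit 1577241))],[(k0,(nat_lit 1254093)),(k7,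
    (nat_lit 1367550)),(k11,(nat_lit 1398953)),(k3,(nat_lit 1569137)),(k8,(nat_lit 1857842)),(k4,(nat_lit 1972311))],
    [(k1,(nat_lit 777985)),(k10,(nat_lit 1431369)),(k2,(nat_lit 1465811)),(k6,(nat_lit 1549890)),(k9,
    (nat_lit 1857842)),(k5,(nat_lit 1917609))],[(k2,(nat_lit 889414)),(k6,(nat_lit 1091001)),(k1,(nat_lit 1157860)),
    (k5,(nat_lit 1341212)),(k9,(nat_lit 1398953)),(k10,(nat_lit 1811244))],[(k0,(nat_lit 920816)),(k3,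
    (nat_lit 1039338)),(k7,(nat_lit 1091001)),(k4,(nat_lit 1213574)),(k8,(nat_lit 1431369)),(k11,(nat_lit 1811244))]]
    [] k0
    [[k2,k0,k0,k0,k0,k0],[k3,k0,k0,k0,k0,k0],[k2,k1,k0,k0,k0,k0],[k2,k0,k1,k0,k0,k0],[k2,k0,k0,k1,k0,k0],[k2,k0,k0,k0,
    k1,k0],[k2,k0,k0,k0,k0,k1],[k1,k1,k0,k0,k0,k0],[k1,k2,k0,k0,k0,k0],[k1,k1,k1,k0,k0,k0],[k1,k1,k0,k1,k0,k0],[k1,k1,
    k0,k0,k1,k0],[k1,k1,k0,k0,k0,k1],[k1,k0,k1,k0,k0,k0],[k1,k0,k2,k0,k0,k0],[k1,k0,k1,k0,k0,k1],[k1,k0,k0,k1,k0,k0],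
    [k1,k0,k0,k2,k0,k0],[k1,k0,k0,k1,k0,k1],[k1,k0,k0,k0,k1,k0],[k1,k0,k1,k0,k1,k0],[k1,k0,k0,k1,k1,k0],[k1,k0,k0,k0,
    k1,k1],[k1,k0,k0,k0,k0,k1],[k0,k2,k0,k0,k0,k0],[k0,k2,k0,k0,k0,k1],[k0,k1,k1,k0,k0,k0],[k0,k1,k1,k0,k0,k1],[k0,k1,
    k0,k1,k0,k0],[k0,k1,k0,k2,k0,k0],[k0,k1,k0,k1,k0,k1],[k0,k1,k0,k0,k1,k0],[k0,k1,k0,k0,k0,k1],[k0,k2,k0,k0,k0,k2],
    [k0,k1,k0,k0,k0,k2],[k0,k0,k2,k0,k0,k0],[k0,k0,k1,k1,k0,k0],[k0,k0,k1,k0,k0,k1],[k0,k0,k0,k2,k0,k0],[k0,k0,k0,k3,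
    k0,k0],[k0,k0,k0,k2,k0,k1],[k0,k0,k0,k1,k1,k0],[k0,k0,k0,k1,k0,k1],[k0,k0,k0,k0,k2,k0],[k0,k0,k0,k0,k1,k1],[k0,k0,
    k0,k0,k0,k2]]
    [.contra [z1],.ref (nat_lit 339) k5 [(z1,[z0,y1,y2,y2,z2]),(z1,[y2,z3,z0,z6]),(z1,[y2,z3,z6]),(z1,[z1])],
    .ref (nat_lit 334) k6 [(z1,[y1,z0,z1,y1]),(z1,[z0,z0,z0,z1]),(z1,[z0,z0,y1,z0,z1])],.contra [y1,z1,z0,z2],
    .ref (nat_lit 328) k10 [(z1,[y1,z0,y1,z0,z1]),(z1,[z0,z0,z0,y1,z1])],.contra [y1,z1,z0,z3],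
    .ref (nat_lit 338) k8 [(z1,[y2,z1,z2]),(z1,[z0,z1,z0,z2]),(z1,[z0,y1,y2,y2,z2]),(z1,[z0,y1])],.contra [y1,z0,z0,
    y1,z1],.ref (nat_lit 331) k10 [(z1,[z0,z0,y1,z1]),(z1,[y1,z0,z0,y1,z1]),(z1,[z0,z0,z1])],.ref k1 k0 [(z1,[y1,z0,
    z0,z0,z1])],.contra [y1,z0,z0,y1,z1],.ref (nat_lit 336) k11 [(z1,[z1,z0,z1,y1,y1]),(z1,[z0,z0,y1,z0,z1]),(z1,[y1,
    z0,z0,z0,z1])],.contra [z1,y1,y2,y1,z1],.contra [z1,y1,y1,y2,z1],.contra [y1,z1,z0,z2],.ref (nat_lit 337) k2 [(z1,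
    [z0,z1]),(z1,[y2,z1,z2,z2]),(z1,[z0,z0,z0,z1]),(z1,[z0,y1,y2,y2,z2])],.contra [y1,z0,y1,z0,z1],.contra [z1,z1,z2,
    z2,y2],.contra [y1,z0,z0,y1,z1],.ref (nat_lit 328) k10 [(z1,[y1,z0,z0,z1]),(z1,[z0,z0,z0,y1,z1])],.contra [z1,z0,
    z0,y1],.contra [y1,z0,y1,z1,z1],.ref k1 k2 [(z1,[z1])],.contra [y3,z2,z3,z1],.contra [z1],.ref k178 k10 [(z1,[z1,
    z0,y1,z1])],.ref k178 k10 [(z1,[z1])],.contra [z1,z0,y1,z1],.contra [y1,z0,z0,y1,z1],.contra [z1,z1,z2,z2,y2],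
    .contra [y1,z0,z0,y1,z1],.contra [y1,z0,z1],.contra [y3,z2,z3,z1],.contra [z1,z0,y2,z2],.ref k0 k0 [(z1,[z1,z0,y1,
    z1])],.contra [z1],.contra [y1,z0,y1,z0,z1],.ref k0 k0 [(z1,[z1])],.contra [z1],.contra [z1,z1,z2,z2,y2],
    .contra [z1,z1,z2,z2,y2],.contra [z1,z1,z1,z1,y1],.contra [y1,z0,z0,y1,z1],.contra [y1,z0,z0,z2],.contra [y1,z0,
    z1],.contra [z1]]),
    .old (.lp [(nat_lit 15540),(nat_lit 7420),(nat_lit 14840),(nat_lit 11200),(nat_lit 8750),(nat_lit 9380)] [k0,k0,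
    (nat_lit 4060),(nat_lit 4060),(nat_lit 350),(nat_lit 350),(nat_lit 2170),(nat_lit 2170),(nat_lit 3395),
    (nat_lit 3395),(nat_lit 3080),(nat_lit 3080)] k0 [[k0,k0,k0,(nat_lit 3220),k0,k0,(nat_lit 2660),k0,k0,k0,
    (nat_lit 3360)],[k0,k0,k0,(nat_lit 700),k0,k0,k0,k0,k0,k0,(nat_lit 700)],[(nat_lit 700),(nat_lit 3220),k0,k0,k0,
    k0,k0,k0,k0,(nat_lit 630)],[k0,k0,k0,k0,(nat_lit 2592),(nat_lit 1120)],[k0,k0,(nat_lit 1120)],[k0,k0,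
    (nat_lit 2592),k0,k0,k0,k0,k0,k0,k0,k0,(nat_lit 2520)],[k0,k0,k0,k0,k0,k0,k0,k0,(nat_lit 3220),(nat_lit 630)],[k0,
    (nat_lit 2660)],[k0,k0,k0,(nat_lit 630),k0,k0,k0,(nat_lit 630)],[k0,k0,k0,k0,k0,k0,k0,(nat_lit 3220)],[k0,k0,k0,
    k0,(nat_lit 2520)],[(nat_lit 700),(nat_lit 3360)]] (nat_lit 33600) k6
    [[(k3,(nat_lit 10780)),(k8,(nat_lit 12145)),(k0,(nat_lit 12180)),(k11,(nat_lit 12460)),(k7,(nat_lit 13370)),(k4,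
    (nat_lit 17710))],[(k2,(nat_lit 8260)),(k9,(nat_lit 9485)),(k1,(nat_lit 12180)),(k10,(nat_lit 13160)),(k6,
    (nat_lit 13370)),(k5,(nat_lit 15890))],[(k2,(nat_lit 6720)),(k9,(nat_lit 8085)),(k1,(nat_lit 10780)),(k10,
    (nat_lit 11760)),(k6,(nat_lit 11970)),(k5,(nat_lit 14350))],[(k3,(nat_lit 6720)),(k8,(nat_lit 7455)),(k0,
    (nat_lit 8260)),(k11,(nat_lit 8400)),(k7,(nat_lit 10430)),(k4,(nat_lit 13722))],[(k7,(nat_lit 10428)),(k8,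
    (nat_lit 11795)),(k11,(nat_lit 12740)),(k4,(nat_lit 13720)),(k3,(nat_lit 14350)),(k0,(nat_lit 15890))],[(k9,
    (nat_lit 11795)),(k10,(nat_lit 12110)),(k6,(nat_lit 13020)),(k5,(nat_lit 13720)),(k2,(nat_lit 13722)),(k1,
    (nat_lit 17710))],[(k10,(nat_lit 7770)),(k9,(nat_lit 9975)),(k5,(nat_lit 10428)),(k2,(nat_lit 10430)),(k6,
    (nat_lit 11200)),(k1,(nat_lit 13370))],[(k11,(nat_lit 7070)),(k8,(nat_lit 9345)),(k7,(nat_lit 11200)),(k3,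
    (nat_lit 11970)),(k4,(nat_lit 13020)),(k0,(nat_lit 13370))],[(k3,(nat_lit 8085)),(k0,(nat_lit 9485)),(k11,
    (nat_lit 9695)),(k7,(nat_lit 9975)),(k4,(nat_lit 11795)),(k8,(nat_lit 11970))],[(k2,(nat_lit 7455)),(k10,
    (nat_lit 9065)),(k6,(nat_lit 9345)),(k5,(nat_lit 11795)),(k9,(nat_lit 11970)),(k1,(nat_lit 12145))],[(k6,
    (nat_lit 7070)),(k2,(nat_lit 8400)),(k10,(nat_lit 9380)),(k9,(nat_lit 9695)),(k1,(nat_lit 12460)),(k5,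
    (nat_lit 12740))],[(k7,(nat_lit 7770)),(k8,(nat_lit 9065)),(k11,(nat_lit 9380)),(k3,(nat_lit 11760)),(k4,
    (nat_lit 12110)),(k0,(nat_lit 13160))]]
    [] k0
    [[k2,k0,k0,k0,k0,k0],[k2,k1,k0,k0,k0,k0],[k1,k1,k0,k0,k0,k0],[k1,k2,k0,k0,k0,k0],[k1,k3,k0,k0,k0,k0],[k1,k1,k0,k0,
    k1,k0],[k1,k1,k0,k0,k0,k1],[k1,k0,k0,k1,k0,k0],[k1,k0,k0,k1,k1,k0],[k1,k0,k0,k0,k1,k0],[k1,k0,k0,k0,k0,k1],[k1,k0,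
    k0,k0,k1,k1],[k0,k2,k0,k0,k0,k0],[k0,k3,k0,k0,k0,k0],[k0,k4,k0,k0,k0,k0],[k0,k3,k0,k0,k1,k0],[k0,k2,k0,k1,k0,k0],
    [k0,k2,k0,k0,k1,k0],[k0,k2,k0,k0,k1,k1],[k0,k2,k0,k0,k0,k1],[k0,k1,k1,k0,k0,k0],[k0,k1,k0,k1,k0,k0],[k0,k1,k0,k1,
    k1,k0],[k0,k1,k0,k1,k0,k1],[k0,k1,k0,k0,k1,k0],[k0,k2,k0,k0,k2,k0],[k0,k1,k0,k0,k2,k0],[k0,k1,k0,k0,k1,k1],[k0,k1,
    k0,k0,k0,k1],[k0,k1,k0,k0,k0,k2],[k0,k0,k2,k0,k0,k0],[k0,k0,k1,k1,k0,k0],[k0,k0,k1,k1,k1,k0],[k0,k0,k1,k1,k0,k1],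
    [k0,k0,k1,k0,k1,k0],[k0,k0,k1,k0,k0,k1],[k0,k0,k0,k2,k0,k0],[k0,k0,k0,k2,k1,k0],[k0,k0,k0,k2,k0,k1],[k0,k0,k0,k1,
    k1,k0],[k0,k0,k0,k1,k2,k0],[k0,k0,k0,k1,k1,k1],[k0,k0,k0,k1,k0,k1],[k0,k0,k0,k2,k0,k2],[k0,k0,k0,k1,k0,k2],[k0,k0,
    k0,k0,k2,k0],[k0,k0,k0,k0,k2,k1],[k0,k0,k0,k0,k1,k1],[k0,k0,k0,k0,k1,k2],[k0,k0,k0,k0,k0,k2],[k0,k0,k0,k0,k0,k3]]
    [.contra [z1],.ref k178 k4 [(z1,[y1,z1,z0,z0,z1])],.contra [y1,z0,z0,y1,z1],.ref k1 k3 [(z1,[y1,z0,z1,z0,z1])],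
    .ref (nat_lit 331) k1 [(z1,[z0,z1,z1,z2,y1]),(z1,[z1,z0,y1,z1,y1]),(z1,[z0,z0,y1,y1,z1])],.contra [z1,z1,y1],
    .ref k1 k3 [(z1,[y1,z0,z0,z0,z1])],.contra [y1,z0,z0,y1,z1],.ref k27 k0 [(z1,[z0,z0,z0,z1]),(z1,[z1])],
    .ref (nat_lit 328) k3 [(z1,[z1,y1,z0,y1]),(z1,[y1,z0,z0,z0,z1])],.contra [y1,z0,y1,y1,z1],.contra [z1,z1],
    .contra [z1],.ref (nat_lit 217) k8 [(z1,[z1]),(z1,[z0,z1,z0,z1])],.ref (nat_lit 340) k9 [(z2,[y1,y4,z4]),(z1,[z0,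
    z0,y1,y1,z1]),(z1,[z0,z1,z0,z1])],.ref k1 k3 [(z1,[y1,y1,z2,z0,z1])],.contra [y1,y1,z1,y1,z1],.contra [y1,y1,z1,
    y1,z1],.ref k1 k3 [(z1,[y1,y1,z1,z0,z1])],.ref (nat_lit 217) k8 [(z1,[z1,z0,z1]),(z1,[z0,z1,z0,z1])],.contra [y1,
    z0,z1,z1],.contra [y1,z0,z0,y1,z1],.contra [y1,y1,z1,y1,z1],.contra [y1,y1,z0,y1,z1],.contra [y1,z0,z1,z1],
    .contra [z1,z2,y2],.ref (nat_lit 328) k3 [(z1,[z1,z0,y1,y1]),(z1,[y1,y1,z1,z0,z1])],.contra [y1,y1,z0,y1,z1],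
    .contra [z1,z0,z1],.ref (nat_lit 217) k8 [(z1,[z1,z0,z2]),(z1,[z0,z1,z0,z1])],.contra [y1,z2,z0,z2],
    .ref k178 k4 [(z1,[z1])],.ref k1 k3 [(z1,[z1])],.contra [y1,z1,y1,z0,z1],.contra [y1,z0,z1,z1],.contra [y1,z0,z0,
    z1],.contra [z1],.ref (nat_lit 331) k1 [(z1,[z0,z1,z1,z2,y1]),(z1,[y1,y1,z0,y1,z1]),(z1,[z0,z0,y1,y1,z1])],
    .ref k178 k4 [(z1,[z1,z1,z1,z2,y1])],.contra [y1,y1,z1,y1,z1],.ref (nat_lit 334) k0 [(z1,[y1,y1,y1,y2,z1]),(z1,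
    [z0,z1,z0,z1]),(z1,[z0,z0,z1,z1])],.contra [y1,y1,z0,y1,z1],.contra [y1,z0,y1,y1,z1],.contra [y1,z0,y2,y2,z2],
    .contra [y1,y1,y1,y1,z1],.contra [z1],.ref (nat_lit 328) k3 [(z1,[z1,z0,z0,y1]),(z1,[y1,y1,z0,z0,z1])],
    .contra [y1,z0,z0,z1],.contra [y1,y1,y1,y1,z1],.contra [z1,z0,z2],.ref (nat_lit 217) k8 [(z1,[z1,z0,z3]),(z1,[z0,
    z1,z0,z1])]]),
    .old (.lp [(nat_lit 5938),(nat_lit 4732),(nat_lit 6756),(nat_lit 5300),(nat_lit 4162),(nat_lit 5684)] [(nat_lit 409),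
    (nat_lit 409),(nat_lit 1012),(nat_lit 1012),k0,k0,(nat_lit 728),(nat_lit 728),(nat_lit 1297),(nat_lit 1297),
    (nat_lit 536),(nat_lit 536)] k0 [[k0,k0,k0,k0,k0,k0,k0,(nat_lit 806),k0,k0,k50,(nat_lit 1488)],[k0,k0,
    (nat_lit 852),(nat_lit 1422)],[(nat_lit 1422),k0,k0,k0,k0,(nat_lit 808)],[(nat_lit 852)],[k0,k0,k0,(nat_lit 808),
    k0,k0,(nat_lit 988)],[k0,k0,k0,k0,k0,k0,(nat_lit 784),k0,k0,k0,k0,(nat_lit 2204)],[k0,(nat_lit 806),k0,k0,k0,k0,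
    k0,k0,(nat_lit 2228)],[k0,k0,k0,k0,(nat_lit 784),(nat_lit 988),k0,k0,(nat_lit 1354)],[k0,k0,k0,k0,k0,k0,k0,k0,k0,
    k0,k170,(nat_lit 332)],[k0,k0,k0,k0,k0,k0,(nat_lit 1354),(nat_lit 2228)],[k0,(nat_lit 1488),k0,k0,(nat_lit 2204),
    k0,k0,k0,k0,(nat_lit 332)],[k0,k50,k0,k0,k0,k0,k0,k0,k0,k170]] (nat_lit 16320) k6
    [[(k8,(nat_lit 4880)),(k7,(nat_lit 5619)),(k0,(nat_lit 5888)),(k11,(nat_lit 6143)),(k3,(nat_lit 6823)),(k4,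
    (nat_lit 8551))],[(k10,(nat_lit 4323)),(k6,(nat_lit 4813)),(k9,(nat_lit 5050)),(k1,(nat_lit 5888)),(k2,
    (nat_lit 6187)),(k5,(nat_lit 7769))],[(k2,(nat_lit 3310)),(k5,(nat_lit 4892)),(k6,(nat_lit 5016)),(k9,
    (nat_lit 5253)),(k10,(nat_lit 5258)),(k1,(nat_lit 6823))],[(k3,(nat_lit 3310)),(k8,(nat_lit 4447)),(k4,
    (nat_lit 4936)),(k7,(nat_lit 5016)),(k11,(nat_lit 5208)),(k0,(nat_lit 6187))],[(k3,(nat_lit 4892)),(k8,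
    (nat_lit 5459)),(k11,(nat_lit 6220)),(k4,(nat_lit 6756)),(k7,(nat_lit 6836)),(k0,(nat_lit 7769))],[(k9,
    (nat_lit 4471)),(k2,(nat_lit 4936)),(k10,(nat_lit 6220)),(k5,(nat_lit 6756)),(k6,(nat_lit 6812)),(k1,
    (nat_lit 8551))],[(k10,(nat_lit 3288)),(k9,(nat_lit 3947)),(k2,(nat_lit 5016)),(k1,(nat_lit 5619)),(k6,
    (nat_lit 6288)),(k5,(nat_lit 6836))],[(k11,(nat_lit 3264)),(k0,(nat_lit 4813)),(k3,(nat_lit 5016)),(k8,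
    (nat_lit 6085)),(k7,(nat_lit 6288)),(k4,(nat_lit 6812))],[(k11,(nat_lit 3569)),(k7,(nat_lit 3947)),(k4,
    (nat_lit 4471)),(k0,(nat_lit 5050)),(k3,(nat_lit 5253)),(k8,(nat_lit 6390))],[(k2,(nat_lit 4447)),(k10,
    (nat_lit 4591)),(k1,(nat_lit 4880)),(k5,(nat_lit 5459)),(k6,(nat_lit 6085)),(k9,(nat_lit 6390))],[(k6,
    (nat_lit 3264)),(k9,(nat_lit 3569)),(k2,(nat_lit 5208)),(k10,(nat_lit 5854)),(k1,(nat_lit 6143)),(k5,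
    (nat_lit 6220))],[(k7,(nat_lit 3288)),(k0,(nat_lit 4323)),(k8,(nat_lit 4591)),(k3,(nat_lit 5258)),(k11,
    (nat_lit 5854)),(k4,(nat_lit 6220))]]
    [] k0
    [[k2,k0,k0,k0,k0,k0],[k2,k0,k0,k0,k1,k0],[k1,k1,k0,k0,k0,k0],[k1,k0,k0,k1,k0,k0],[k1,k0,k0,k1,k0,k1],[k1,k0,k0,k0,
    k1,k0],[k1,k0,k0,k1,k1,k0],[k1,k0,k0,k0,k1,k1],[k1,k0,k0,k0,k0,k1],[k0,k2,k0,k0,k0,k0],[k0,k3,k0,k0,k0,k0],[k0,k4,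
    k0,k0,k0,k0],[k0,k2,k1,k0,k0,k0],[k0,k2,k0,k1,k0,k0],[k0,k2,k0,k0,k1,k0],[k0,k2,k0,k0,k0,k1],[k0,k1,k1,k0,k0,k0],
    [k0,k1,k1,k0,k1,k0],[k0,k1,k0,k1,k0,k0],[k0,k1,k0,k1,k1,k0],[k0,k1,k0,k1,k0,k1],[k0,k1,k0,k0,k1,k0],[k0,k1,k0,k0,
    k2,k0],[k0,k1,k0,k0,k1,k1],[k0,k1,k0,k0,k0,k1],[k0,k0,k2,k0,k0,k0],[k0,k0,k1,k1,k0,k0],[k0,k0,k1,k0,k1,k0],[k0,k0,
    k1,k1,k1,k0],[k0,k0,k1,k0,k1,k1],[k0,k0,k1,k0,k0,k1],[k0,k0,k0,k2,k0,k0],[k0,k0,k0,k2,k0,k1],[k0,k0,k0,k1,k1,k0],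
    [k0,k0,k0,k1,k1,k1],[k0,k0,k0,k1,k0,k1],[k0,k0,k0,k2,k0,k2],[k0,k0,k0,k1,k1,k2],[k0,k0,k0,k1,k0,k2],[k0,k0,k0,k0,
    k2,k0],[k0,k0,k0,k0,k2,k1],[k0,k0,k0,k0,k1,k1],[k0,k0,k0,k0,k1,k2],[k0,k0,k0,k0,k0,k2]]
    [.contra [z1],.ref k178 k10 [(z1,[y1,z1,z0,z1])],.contra [y1,z1,z1],.ref k0 k2 [(z1,[z1])],.contra [z1,z1],
    .contra [y1,z1,z1],.ref (nat_lit 341) k1 [(z1,[y1,z0,y1,z1]),(z1,[y1,z1,z1]),(z1,[z1])],.ref k1 k2 [(z1,[z1])],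
    .ref k178 k2 [(z1,[z1])],.contra [z1],.ref (nat_lit 217) k8 [(z1,[z1]),(z1,[z0,z0,y1,z1])],
    .ref (nat_lit 340) k3 [(z2,[y1,z4,z8,y4]),(z1,[z0,y1,y1,z1]),(z1,[z0,z0,y1,z1])],.ref (nat_lit 252) k1 [(z1,[z1,
    z0,y2]),(z1,[z0,z0,z1])],.ref (nat_lit 296) k8 [(z1,[z1,z0,y1]),(z1,[z0,z0,y1,z1])],.ref k178 k10 [(z1,[z1,y1,y2,
    z1])],.ref (nat_lit 296) k11 [(z1,[z1,z0,y1]),(z1,[z0,z0,y1,z1])],.ref k178 k10 [(z1,[z1])],.contra [y1,z1,z0,z1],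
    .contra [y1,z0,z1],.contra [y1,z0,z1],.contra [y1,z0,z1],.contra [y1,z1,z1],.ref (nat_lit 328) k2 [(z1,[y1,z1,
    z1]),(z1,[z0,z0,z1])],.contra [y1,z0,z1],.contra [y1,z0,z1],.contra [y1,z0,y2,z2],.contra [y1,y1,y1,z1],
    .ref (nat_lit 328) k2 [(z1,[y1,z0,y1,z1]),(z1,[z0,z0,z1])],.ref k1 k3 [(z1,[z1])],.ref (nat_lit 336) k6 [(z1,[z1,
    y1,z0,y1]),(z1,[z0,z1,z1]),(z1,[y1,z0,z0,z1])],.contra [y1,y1,y1,z1],.contra [z1],.ref k0 k2 [(z1,[z1,z1])],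
    .contra [y1,z0,z1],.contra [y1,z0,z1],.contra [y1,y1,y1,z1],.contra [z1,z2],.ref k1 k2 [(z1,[z1,z1])],
    .ref k178 k2 [(z1,[z1,z1])],.contra [z1],.ref (nat_lit 334) k5 [(z1,[y1,y1]),(z1,[z0,z0,y1,z1]),(z1,[z0,z1,z1])],
    .contra [y1,z0,z1],.ref (nat_lit 331) k2 [(z1,[z0,z1]),(z1,[y1,z0,z1]),(z1,[z0,y1,y1,z1])],.contra [z1]]),
    .geo true z2 k5 [(y2,z4),(z2,y2),(z3,y2),(z4,y2),(z1,z0),(z0,z2)] [(z1,[z2]),(z1,[z0,z2]),(z1,[z0,z0,z1]),(z1,[z0,z0,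
    z0,z2]),(z1,[y2,y2,y1,y2,z2]),(z1,
    [])] (Int.ofNat (nat_lit 524288)) (Int.ofNat (nat_lit 1048576)) (.s (.l k1) (.l k1)) [],
    .geo true z1 k5 [(y2,z4),(y2,z3),(z4,y4),(z2,y2),(z2,y2),(z0,z1)] [(z1,[z1]),(z1,[z0,z1]),(z1,[z0,z0,z1]),(z1,[z0,z0,
    z0,z1]),(z1,[y1,y1,y1,y1,z1]),(z1,
    [])] (Int.ofNat (nat_lit 699050)) (Int.ofNat (nat_lit 1048576)) (.s (.s (.s (.l k1) (.l k1)) (.l k1)) (.s (.l k1) (.l k2))) [⟨z1,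
    z1,[[k0,k2],[k1,k4],[k3,k5]],.bnd k0⟩],
    .old (.lp [(nat_lit 478),(nat_lit 260),(nat_lit 448),(nat_lit 457),(nat_lit 272),(nat_lit 480)] [k76,k60,k177,k177,
    k83,k83,k157,k0,k171,k171,k67,k67] k0 [[k0,k0,k140,k0,k0,k0,k0,k0,k0,k0,k60,k176],[k0,k0,k5,k0,k0,k0,k26],[k0,k0,
    k0,k0,k197],[k5,k140,k0,k0,k97],[k0,k0,k0,k0,k0,k0,k0,k14,k0,k0,(nat_lit 231)],[k0,k0,k97,k197],[k0,k0,k0,k0,k0,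
    k14],[k26,k0,k0,k0,k0,k0,k0,k0,k0,k32],[k0,k0,k0,k0,k0,k0,k32],[k0,k0,k0,k0,k0,k0,k0,k0,k0,k0,k0,k32],[k0,k176,k0,
    k0,k0,k0,k0,k0,k32],[k0,k60,k0,k0,k0,(nat_lit 231)]] (nat_lit 1200) k6
    [[(k4,(nat_lit 240)),(k8,(nat_lit 415)),(k0,(nat_lit 418)),(k11,(nat_lit 487)),(k3,(nat_lit 553)),(k7,
    (nat_lit 554))],[(k10,(nat_lit 295)),(k5,(nat_lit 315)),(k2,(nat_lit 366)),(k9,(nat_lit 367)),(k6,(nat_lit 407)),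
    (k1,(nat_lit 418))],[(k9,(nat_lit 240)),(k6,(nat_lit 280)),(k5,(nat_lit 349)),(k2,(nat_lit 400)),(k10,
    (nat_lit 430)),(k1,(nat_lit 553))],[(k7,(nat_lit 240)),(k8,(nat_lit 266)),(k0,(nat_lit 366)),(k11,(nat_lit 370)),
    (k3,(nat_lit 400)),(k4,(nat_lit 451))],[(k0,(nat_lit 315)),(k3,(nat_lit 349)),(k8,(nat_lit 360)),(k7,
    (nat_lit 434)),(k11,(nat_lit 464)),(k4,(nat_lit 645))],[(k1,(nat_lit 240)),(k6,(nat_lit 360)),(k9,(nat_lit 360)),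
    (k2,(nat_lit 451)),(k10,(nat_lit 464)),(k5,(nat_lit 645))],[(k2,(nat_lit 240)),(k5,(nat_lit 434)),(k6,
    (nat_lit 457)),(k9,(nat_lit 457)),(k1,(nat_lit 554)),(k10,(nat_lit 778))],[(k3,(nat_lit 280)),(k8,(nat_lit 286)),
    (k4,(nat_lit 360)),(k0,(nat_lit 407)),(k11,(nat_lit 422)),(k7,(nat_lit 457))],[(k3,(nat_lit 240)),(k8,
    (nat_lit 240)),(k4,(nat_lit 360)),(k0,(nat_lit 367)),(k11,(nat_lit 376)),(k7,(nat_lit 457))],[(k9,(nat_lit 240)),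
    (k2,(nat_lit 266)),(k6,(nat_lit 286)),(k5,(nat_lit 360)),(k10,(nat_lit 376)),(k1,(nat_lit 415))],[(k2,
    (nat_lit 370)),(k9,(nat_lit 376)),(k6,(nat_lit 422)),(k10,(nat_lit 448)),(k5,(nat_lit 464)),(k1,(nat_lit 487))],
    [(k0,(nat_lit 295)),(k8,(nat_lit 376)),(k3,(nat_lit 430)),(k11,(nat_lit 448)),(k4,(nat_lit 464)),(k7,
    (nat_lit 778))]]
    [] k0
    [[k2,k0,k0,k0,k0,k0],[k2,k0,k1,k0,k0,k0],[k1,k1,k0,k0,k0,k0],[k1,k1,k0,k0,k1,k0],[k1,k0,k1,k0,k0,k0],[k2,k0,k2,k0,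
    k0,k0],[k1,k1,k1,k0,k0,k0],[k1,k0,k1,k1,k0,k0],[k1,k0,k1,k0,k1,k0],[k1,k0,k1,k0,k0,k1],[k1,k0,k0,k1,k0,k0],[k1,k0,
    k0,k0,k1,k0],[k1,k0,k0,k0,k2,k0],[k1,k0,k0,k0,k1,k1],[k1,k0,k0,k0,k0,k1],[k0,k2,k0,k0,k0,k0],[k0,k2,k0,k1,k0,k0],
    [k0,k2,k0,k0,k1,k0],[k0,k2,k0,k1,k1,k0],[k0,k2,k0,k0,k2,k0],[k0,k1,k1,k0,k0,k0],[k0,k1,k1,k1,k0,k0],[k0,k1,k1,k0,
    k1,k0],[k0,k1,k1,k0,k0,k1],[k0,k1,k0,k1,k0,k0],[k0,k2,k0,k2,k0,k0],[k0,k1,k0,k2,k0,k0],[k0,k1,k0,k1,k1,k0],[k0,k1,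
    k0,k0,k1,k0],[k0,k1,k0,k0,k2,k0],[k0,k1,k0,k1,k2,k0],[k0,k1,k0,k0,k3,k0],[k0,k1,k0,k0,k1,k1],[k0,k1,k0,k0,k0,k1],
    [k0,k1,k0,k1,k0,k1],[k0,k0,k1,k1,k0,k0],[k0,k0,k1,k1,k1,k0],[k0,k0,k1,k0,k1,k0],[k0,k0,k1,k0,k2,k0],[k0,k0,k1,k0,
    k0,k1],[k0,k0,k0,k2,k0,k0],[k0,k0,k0,k1,k1,k0],[k0,k0,k0,k1,k2,k0],[k0,k0,k0,k0,k2,k0],[k0,k0,k0,k0,k3,k0],[k0,k0,
    k0,k0,k4,k0],[k0,k0,k0,k0,k2,k1],[k0,k0,k0,k0,k1,k1],[k0,k0,k0,k0,k0,k2]]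
    [.contra [z1],.ref k1 k2 [(z1,[z1,y1,z0,y1])],.contra [y1,z0,z0,y1,z1],.contra [y1,z1,z1,z1],.contra [y1,z1,z0,
    z2],.contra [y1,z2,z0,z4],.contra [y1,z1,z1,z1],.contra [z1,z0,z1,z0,y1],.contra [y1,z1,z1,z1],.ref k178 k4 [(z1,
    [y1,z0,y1,z1,z1])],.contra [y1,z0,z0,y1,z1],.contra [y1,z1,z1,z1],.contra [y1,z1,z2],.ref k1 k2 [(z1,[z1])],
    .ref k178 k2 [(z1,[z1])],.contra [z1],.ref (nat_lit 344) k4 [(z1,[y1,y2,z0,y6,z2]),(z1,[y1,y1,z1,y4,z1]),(z1,[z1,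
    z1,y1,z5,y1]),(z1,[z0,z1,z0,z2])],.contra [y1,z1,z2],.ref k1 k2 [(z1,[y1,z0,z1,y1,z1])],.contra [z1,z0,y2,z2],
    .contra [y1,z1,z1,z1],.ref k1 k2 [(z1,[y1,z0,z0,z0,z1])],.contra [z1,z0,y1,z1],.ref k27 k0 [(z1,[z0,z0,z0,z1]),
    (z1,[y1,z0,z0,z0,z1])],.contra [z1,z1,z0,z3,y1],.contra [y1,z0,z0,y2,z2],.ref k178 k2 [(z1,[y1,y1,y1,y2,z2])],
    .ref k178 k4 [(z1,[z1,z0,y1,z1])],.contra [y1,z1,z1,z1],.contra [y1,z1,z2],.contra [z1,y1,y2,y1,z1],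
    .ref k178 k3 [(z1,[z1,y1,y2,y1,z1])],.contra [y1,z0,z1],.contra [y1,z0,z1],.contra [z1,z1,z1,z1,y1],
    .ref k178 k4 [(z1,[z1])],.contra [z1,y1,y1,y2,z1],.contra [y1,z1,z1,z1],.ref k178 k3 [(z1,[z1,y1,y1,y2,z1])],
    .contra [y1,z0,z0,z1],.contra [z1],.ref k178 k3 [(z1,[z1])],.ref (nat_lit 252) k4 [(z1,[z1,y2,y2,y2]),(z1,[z0,z1,
    z1,z1])],.contra [z1],.ref (nat_lit 217) k3 [(z1,[z1]),(z1,[z0,y1,y1,y1,z1])],.ref (nat_lit 343) k2 [(z2,[z1,z2]),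
    (z2,[y1,z0,z2]),(z2,[y1,z0,z0,z4]),(z1,[z0,y1,y1,y1,z1])],.contra [y1,z0,z1],.contra [y1,z0,z0,z1],.contra [y1,y2,
    y2,y2,z2]])]

noncomputable def cU6_2_n6_1 : List XN :=
  [.old (.lp [(nat_lit 564),(nat_lit 602),(nat_lit 602),(nat_lit 678),(nat_lit 640),(nat_lit 750)] [k140,k46,k74,k74,k74,
    k74,k36,k36,k55,k55,k0,k0] k0 [[k0,k0,k152,k0,k0,k0,k0,k0,k0,k0,k0,k42],[k0,k0,k0,k0,k0,k0,k148,k0,k0,k0,k0,k182],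
    [k0,k0,k0,k0,k114],[k0,k152,k0,k0,k0,k0,k0,k0,k72],[k0,k0,k0,k0,k0,k0,k0,k0,k0,k0,(nat_lit 246),k76],[k0,k0,k0,
    k114,k0,k0,k0,k38],[k0,k0,k0,k0,k38,k0,k0,k0,k0,k38],[k148,k0,k0,k0,k0,k0,k0,k0,k0,(nat_lit 246)],[k0,k0,k0,k0,k0,
    k0,(nat_lit 246),k38],[k0,k0,k72,k0,k0,k0,k0,k0,k0,k0,k98],[k182,k42,k0,k0,k0,k76],[k0,k0,k0,k0,k0,(nat_lit 246),
    k0,k0,k98]] (nat_lit 1920) k6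
    [[(k4,(nat_lit 384)),(k11,(nat_lit 606)),(k8,(nat_lit 649)),(k3,(nat_lit 672)),(k7,(nat_lit 744)),(k0,
    (nat_lit 746))],[(k5,(nat_lit 384)),(k2,(nat_lit 536)),(k9,(nat_lit 555)),(k10,(nat_lit 568)),(k6,(nat_lit 722)),
    (k1,(nat_lit 746))],[(k9,(nat_lit 473)),(k10,(nat_lit 494)),(k5,(nat_lit 602)),(k6,(nat_lit 640)),(k1,
    (nat_lit 672)),(k2,(nat_lit 754))],[(k7,(nat_lit 526)),(k0,(nat_lit 536)),(k4,(nat_lit 602)),(k11,(nat_lit 676)),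
    (k8,(nat_lit 693)),(k3,(nat_lit 754))],[(k0,(nat_lit 384)),(k3,(nat_lit 602)),(k11,(nat_lit 604)),(k8,
    (nat_lit 621)),(k7,(nat_lit 640)),(k4,(nat_lit 716))],[(k1,(nat_lit 384)),(k10,(nat_lit 600)),(k2,(nat_lit 602)),
    (k6,(nat_lit 640)),(k9,(nat_lit 659)),(k5,(nat_lit 716))],[(k2,(nat_lit 526)),(k5,(nat_lit 640)),(k6,
    (nat_lit 640)),(k9,(nat_lit 659)),(k1,(nat_lit 744)),(k10,(nat_lit 960))],[(k8,(nat_lit 621)),(k3,(nat_lit 640)),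
    (k4,(nat_lit 640)),(k7,(nat_lit 640)),(k0,(nat_lit 722)),(k11,(nat_lit 960))],[(k8,(nat_lit 394)),(k3,
    (nat_lit 473)),(k0,(nat_lit 555)),(k4,(nat_lit 659)),(k7,(nat_lit 659)),(k11,(nat_lit 733))],[(k9,(nat_lit 394)),
    (k5,(nat_lit 621)),(k6,(nat_lit 621)),(k1,(nat_lit 649)),(k2,(nat_lit 693)),(k10,(nat_lit 793))],[(k5,
    (nat_lit 604)),(k1,(nat_lit 606)),(k2,(nat_lit 676)),(k9,(nat_lit 733)),(k10,(nat_lit 750)),(k6,(nat_lit 960))],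
    [(k3,(nat_lit 494)),(k0,(nat_lit 568)),(k4,(nat_lit 600)),(k11,(nat_lit 750)),(k8,(nat_lit 793)),(k7,
    (nat_lit 960))]]
    [] k0
    [[k2,k0,k0,k0,k0,k0],[k2,k0,k1,k0,k0,k0],[k1,k1,k0,k0,k0,k0],[k1,k1,k1,k0,k0,k0],[k1,k1,k0,k0,k0,k1],[k1,k0,k1,k0,
    k0,k0],[k2,k0,k2,k0,k0,k0],[k1,k0,k2,k0,k0,k0],[k1,k0,k1,k1,k0,k0],[k1,k0,k1,k0,k1,k0],[k1,k0,k1,k0,k0,k1],[k1,k0,
    k0,k1,k0,k0],[k1,k0,k0,k0,k1,k0],[k1,k1,k0,k0,k1,k0],[k1,k0,k0,k0,k2,k0],[k1,k0,k0,k0,k0,k1],[k0,k2,k0,k0,k0,k0],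
    [k0,k1,k1,k0,k0,k0],[k0,k1,k1,k1,k0,k0],[k0,k1,k1,k0,k0,k1],[k0,k1,k0,k1,k0,k0],[k0,k1,k0,k2,k0,k0],[k0,k1,k0,k0,
    k1,k0],[k0,k1,k1,k0,k1,k0],[k0,k1,k0,k1,k1,k0],[k0,k1,k0,k0,k2,k0],[k0,k1,k0,k0,k0,k1],[k0,k0,k2,k0,k0,k0],[k0,k0,
    k1,k1,k0,k0],[k0,k0,k1,k0,k1,k0],[k0,k0,k1,k0,k2,k0],[k0,k0,k1,k0,k0,k1],[k0,k0,k0,k2,k0,k0],[k0,k0,k0,k1,k1,k0],
    [k0,k0,k0,k1,k2,k0],[k0,k0,k0,k0,k2,k0],[k0,k0,k0,k0,k3,k0],[k0,k0,k0,k0,k4,k0],[k0,k0,k0,k0,k1,k1],[k0,k0,k0,k0,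
    k0,k2]]
    [.contra [z1],.ref k27 k0 [(z1,[z0,z0,z0,z1]),(z1,[z1,y2,y1,y2,z1])],.contra [y2,z3,z2,z2],.contra [y2,z3,z2,z2],
    .contra [y1,y1,y1,y2,z2],.contra [y2,z3,z2,z2],.ref (nat_lit 328) k4 [(z1,[z1,y3,y2,y3,z1]),(z1,[z0,z1,z1,z1])],
    .contra [z1,y3,y2,y4,z2],.ref (nat_lit 342) k6 [(z1,[y1,y1,y1,y1,z1]),(z1,[z0,z1,z1,z1])],.contra [y1,z1,z1,z1],
    .contra [z2,y1,z0,y2],.contra [y1,z0,z0,y1,z1],.contra [y1,z1,z1,z1],.contra [y1,z1,z1,z1],.contra [z1,z1],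
    .ref k178 k2 [(z1,[z1])],.contra [z1],.contra [y2,z3,z2,z2],.ref k1 k2 [(z1,[y1,z0,z0,z0,z1])],.ref k27 k0 [(z1,
    [z0,z0,z0,z1]),(z1,[y1,z0,z0,z0,z1])],.contra [y1,z0,z0,y1,z1],.ref k178 k2 [(z1,[y1,y1,y1,y2,z2])],.contra [y1,
    z1,z1,z1],.contra [y1,z1,z1,z1],.contra [y2,y1,z0,y2,z2],.contra [y2,z1,z2,z2],.ref (nat_lit 328) k4 [(z1,[y1,y1,
    y1,y1,z1]),(z1,[z0,z1,z1,z1])],.contra [z1],.ref k178 k4 [(z1,[z1])],.contra [y1,z1,z1,z1],.contra [y2,z1,z2,z2],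
    .contra [y2,z1,z0,z2],.contra [z1],.contra [y2,y1,z0,y2,z2],.contra [y1,y1,z0,y1,z1],.contra [z1],.contra [y1,z0,
    z1,z1],.contra [z1,z2],.contra [y1,z0,z0,z1],.contra [y1,y2,y2,y2,z2]]),
    .old (.lp [(nat_lit 320),(nat_lit 318),(nat_lit 324),(nat_lit 320),(nat_lit 318),(nat_lit 318)] [k111,k111,k112,k112,
    k109,k109,(nat_lit 222),k0,k112,k112,k112,k112] k0 [[k0,k0,k0,k0,k0,k0,k2],[k0,k0,k0,k78,k0,k0,k0,k0,k0,k0,k0,k2],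
    [k78],[k0,k0,k0,k0,k2,k4],[k0,k0,k4,k0,k0,k0,k0,k2],[k0,k0,k2,k0,k0,k0,k0,k0,k0,k0,k0,(nat_lit 238)],[k0,k0,k0,k0,
    k0,k2,k0,k0,k14],[k0,k2],[k0,k0,k0,k0,k0,k0,k0,k0,k0,k0,k8],[k0,k0,k0,k0,k0,k0,k0,k14],[k2,k0,k0,k0,
    (nat_lit 238)],[k0,k0,k0,k0,k0,k0,k0,k0,k0,k8]] (nat_lit 960) k6
    [[(k8,(nat_lit 311)),(k3,(nat_lit 319)),(k11,(nat_lit 319)),(k0,(nat_lit 322)),(k7,(nat_lit 431)),(k4,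
    (nat_lit 560))],[(k6,(nat_lit 209)),(k9,(nat_lit 317)),(k2,(nat_lit 319)),(k10,(nat_lit 319)),(k1,(nat_lit 322)),
    (k5,(nat_lit 400))],[(k6,(nat_lit 210)),(k2,(nat_lit 240)),(k10,(nat_lit 316)),(k9,(nat_lit 318)),(k1,
    (nat_lit 319)),(k5,(nat_lit 321))],[(k3,(nat_lit 240)),(k8,(nat_lit 318)),(k11,(nat_lit 318)),(k0,(nat_lit 319)),
    (k4,(nat_lit 323)),(k7,(nat_lit 434))],[(k4,(nat_lit 320)),(k3,(nat_lit 321)),(k8,(nat_lit 321)),(k11,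
    (nat_lit 321)),(k0,(nat_lit 400)),(k7,(nat_lit 431))],[(k6,(nat_lit 209)),(k5,(nat_lit 320)),(k9,(nat_lit 321)),
    (k10,(nat_lit 321)),(k2,(nat_lit 323)),(k1,(nat_lit 560))],[(k10,k192),(k6,(nat_lit 320)),(k1,(nat_lit 431)),(k5,
    (nat_lit 431)),(k9,(nat_lit 432)),(k2,(nat_lit 434))],[(k11,k194),(k8,(nat_lit 208)),(k0,(nat_lit 209)),(k4,
    (nat_lit 209)),(k3,(nat_lit 210)),(k7,(nat_lit 320))],[(k0,(nat_lit 317)),(k3,(nat_lit 318)),(k11,(nat_lit 318)),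
    (k4,(nat_lit 321)),(k8,(nat_lit 332)),(k7,(nat_lit 432))],[(k6,(nat_lit 208)),(k1,(nat_lit 311)),(k2,
    (nat_lit 318)),(k10,(nat_lit 318)),(k5,(nat_lit 321)),(k9,(nat_lit 332))],[(k6,k194),(k2,(nat_lit 318)),(k9,
    (nat_lit 318)),(k1,(nat_lit 319)),(k5,(nat_lit 321)),(k10,(nat_lit 326))],[(k7,k192),(k3,(nat_lit 316)),(k8,
    (nat_lit 318)),(k0,(nat_lit 319)),(k4,(nat_lit 321)),(k11,(nat_lit 326))]]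
    [] k0
    [[k2,k0,k0,k0,k0,k0],[k2,k0,k0,k0,k1,k0],[k1,k1,k0,k0,k0,k0],[k1,k2,k0,k0,k0,k0],[k1,k1,k0,k0,k1,k0],[k1,k1,k0,k0,
    k0,k1],[k1,k0,k0,k1,k0,k0],[k1,k0,k0,k1,k1,k0],[k1,k0,k0,k1,k0,k1],[k1,k0,k0,k0,k1,k0],[k1,k0,k0,k0,k1,k1],[k1,k0,
    k0,k0,k0,k1],[k0,k2,k0,k0,k0,k0],[k0,k3,k0,k0,k0,k0],[k0,k2,k1,k0,k0,k0],[k0,k2,k0,k1,k0,k0],[k0,k2,k0,k0,k1,k0],
    [k0,k2,k0,k0,k0,k1],[k0,k1,k1,k0,k0,k0],[k0,k1,k0,k1,k0,k0],[k0,k1,k0,k1,k0,k1],[k0,k1,k0,k0,k1,k0],[k0,k1,k0,k0,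
    k1,k1],[k0,k1,k0,k0,k0,k1],[k0,k0,k2,k0,k0,k0],[k0,k0,k1,k1,k0,k0],[k0,k0,k1,k1,k0,k1],[k0,k0,k1,k0,k1,k0],[k0,k0,
    k1,k0,k0,k1],[k0,k0,k0,k2,k0,k0],[k0,k0,k0,k2,k0,k1],[k0,k0,k0,k1,k1,k0],[k0,k0,k0,k1,k1,k1],[k0,k0,k0,k1,k0,k1],
    [k0,k0,k0,k2,k0,k2],[k0,k0,k0,k1,k0,k2],[k0,k0,k0,k0,k2,k0],[k0,k0,k0,k0,k1,k1],[k0,k0,k0,k0,k0,k2]]
    [.contra [z1],.ref (nat_lit 252) k1 [(z1,[y1,z1,y1,z1]),(z1,[z0,z0,z1])],.contra [y1,z1,z2],.contra [y1,z1,z2],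
    .contra [y1,z1,z2],.ref k1 k3 [(z1,[y1,z0,z0,z1])],.ref k0 k2 [(z1,[z1])],.ref (nat_lit 346) k4 [(z1,[z1,y1,y2]),
    (z1,[z0,z1,z3,y1]),(z1,[y1,z0,z0,z1])],.ref (nat_lit 342) k1 [(z1,[y1,z0,y1,z1]),(z1,[z0,z0,z1])],.contra [y1,z1,
    z2],.ref k1 k2 [(z1,[z1])],.ref k178 k2 [(z1,[z1])],.contra [z1],.ref (nat_lit 217) k8 [(z1,[z1]),(z1,[z0,z0,y1,
    z1])],.ref (nat_lit 252) k1 [(z1,[z1,z0,y2]),(z1,[z0,z0,z1])],.ref (nat_lit 296) k8 [(z1,[z1,z0,y1]),(z1,[z0,z0,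
    y1,z1])],.contra [y1,z1,z2],.ref (nat_lit 296) k11 [(z1,[z1,z0,y1]),(z1,[z0,z0,y1,z1])],.ref k178 k10 [(z1,[z1])],
    .contra [y1,z0,z1],.contra [y1,z0,z1],.contra [y1,z1,z2],.contra [y1,z0,z1],.contra [y1,z0,z1],.contra [y1,z0,y2,
    z2],.ref k178 k4 [(z1,[z1])],.contra [z1,z1,z2,y1],.ref (nat_lit 328) k2 [(z1,[y1,z0,y1,z1]),(z1,[z0,z0,z1])],
    .ref k0 k0 [(z1,[z1])],.contra [z1],.ref (nat_lit 345) k6 [(z1,[y1,y2,y2]),(z1,[z0,z1,z2]),(z1,[z1,z1,z1])],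
    .contra [y1,z0,z1],.contra [y1,z0,z1],.contra [y1,z0,z1],.ref (nat_lit 328) k2 [(z1,[z1,z1]),(z1,[z0,z0,z1])],
    .ref k1 k3 [(z1,[y1,y1,y1,z1])],.contra [z1],.contra [y1,z0,z1],.contra [z1]]),
    .geo true z5 k4 [(y2,z5),(z4,z0),(z10,y10),(z2,z0),(z0,z5),(z6,z0)] [(z1,[z1]),(z1,[z0,z1]),(z1,[z0,z0,z5]),(z1,[z0,
    z0,z0,z1]),(z1,[]),(z1,[y1,y1,y5,y1,
    z5])] (Int.ofNat (nat_lit 419430)) (Int.ofNat (nat_lit 1048576)) (.s (.s (.l k1) (.l k2)) (.l k1)) [⟨z3,z5,[[k0,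
    k3],[k1,k5],[k2,k4]],.child (.ref k0 k0 [(z5,[y2,y1,y1,z0,y1,z5])])⟩],
    .old (.lp [(nat_lit 558),(nat_lit 600),(nat_lit 1056),(nat_lit 530),(nat_lit 510),(nat_lit 982)] [(nat_lit 399),
    (nat_lit 399),(nat_lit 378),(nat_lit 378),(nat_lit 259),k41,(nat_lit 413),(nat_lit 413),(nat_lit 423),
    (nat_lit 423),(nat_lit 374),k0] k0 [[k0,k0,(nat_lit 492),k66],[k0,k0,k0,k0,k0,k0,k10,k46],[k0,k66,k0,k0,k20,k0,k0,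
    k0,(nat_lit 554)],[k0,(nat_lit 492),k0,k0,(nat_lit 398)],[k0,k0,k0,k0,k0,k0,k0,k112,k0,k0,k78,k50],[k0,k0,
    (nat_lit 398),k20],[k46,k0,k0,k0,k0,k112],[k10],[k0,k0,k0,k0,k0,k0,k0,k0,k0,k0,k110,k66],[k0,k0,k0,(nat_lit 554)],
    [k0,k0,k0,k0,k0,k50,k0,k0,k0,k66],[k0,k0,k0,k0,k0,k78,k0,k0,k0,k110]] (nat_lit 2120) k6
    [[(k8,(nat_lit 424)),(k0,(nat_lit 558)),(k3,(nat_lit 579)),(k7,(nat_lit 594)),(k4,(nat_lit 620)),(k11,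
    (nat_lit 1023))],[(k5,(nat_lit 424)),(k2,(nat_lit 513)),(k6,(nat_lit 554)),(k1,(nat_lit 558)),(k9,(nat_lit 580)),
    (k10,(nat_lit 583))],[(k6,(nat_lit 519)),(k9,(nat_lit 545)),(k1,(nat_lit 579)),(k10,(nat_lit 604)),(k5,
    (nat_lit 1003)),(k2,(nat_lit 1092))],[(k11,(nat_lit 424)),(k0,(nat_lit 513)),(k7,(nat_lit 545)),(k8,
    (nat_lit 555)),(k3,(nat_lit 1092)),(k4,(nat_lit 1117))],[(k0,(nat_lit 424)),(k7,(nat_lit 504)),(k3,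
    (nat_lit 1003)),(k4,(nat_lit 1076)),(k11,(nat_lit 1315)),(k8,(nat_lit 1446))],[(k6,(nat_lit 572)),(k1,
    (nat_lit 620)),(k10,(nat_lit 673)),(k9,(nat_lit 674)),(k5,(nat_lit 1076)),(k2,(nat_lit 1117))],[(k5,
    (nat_lit 504)),(k6,(nat_lit 530)),(k2,(nat_lit 545)),(k1,(nat_lit 594)),(k9,(nat_lit 632)),(k10,(nat_lit 647))],
    [(k3,(nat_lit 519)),(k8,(nat_lit 520)),(k7,(nat_lit 530)),(k0,(nat_lit 554)),(k4,(nat_lit 572)),(k11,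
    (nat_lit 943))],[(k8,(nat_lit 510)),(k3,(nat_lit 545)),(k0,(nat_lit 580)),(k7,(nat_lit 632)),(k4,(nat_lit 674)),
    (k11,(nat_lit 933))],[(k1,(nat_lit 424)),(k10,(nat_lit 493)),(k9,(nat_lit 510)),(k6,(nat_lit 520)),(k2,
    (nat_lit 555)),(k5,(nat_lit 1446))],[(k2,(nat_lit 424)),(k9,(nat_lit 933)),(k6,(nat_lit 943)),(k1,(nat_lit 1023)),
    (k10,(nat_lit 1092)),(k5,(nat_lit 1315))],[(k8,(nat_lit 493)),(k0,(nat_lit 583)),(k3,(nat_lit 604)),(k7,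
    (nat_lit 647)),(k4,(nat_lit 673)),(k11,(nat_lit 1092))]]
    [] k0
    [[k2,k0,k0,k0,k0,k0],[k3,k0,k0,k0,k0,k0],[k2,k1,k0,k0,k0,k0],[k2,k0,k1,k0,k0,k0],[k2,k0,k0,k1,k0,k0],[k2,k0,k0,k0,
    k1,k0],[k2,k1,k0,k0,k1,k0],[k2,k0,k1,k0,k1,k0],[k2,k0,k0,k0,k2,k0],[k1,k1,k0,k0,k0,k0],[k1,k1,k0,k1,k0,k0],[k1,k1,
    k0,k0,k1,k0],[k1,k1,k0,k0,k0,k1],[k1,k1,k1,k0,k0,k1],[k1,k1,k0,k0,k1,k1],[k1,k0,k1,k0,k0,k0],[k2,k0,k2,k0,k0,k0],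
    [k1,k0,k1,k1,k0,k0],[k1,k0,k0,k1,k0,k0],[k1,k0,k0,k2,k0,k0],[k1,k0,k0,k1,k1,k0],[k1,k0,k0,k0,k1,k0],[k1,k1,k0,k1,
    k1,k0],[k1,k1,k0,k0,k2,k0],[k1,k0,k1,k0,k1,k0],[k1,k0,k1,k1,k1,k0],[k1,k0,k0,k0,k2,k0],[k1,k0,k1,k0,k2,k0],[k1,k0,
    k0,k0,k3,k0],[k1,k0,k0,k0,k1,k1],[k1,k0,k0,k0,k0,k1],[k0,k1,k1,k0,k0,k1],[k0,k1,k0,k1,k0,k0],[k0,k2,k0,k1,k0,k1],
    [k0,k1,k0,k2,k0,k0],[k0,k1,k0,k1,k1,k0],[k0,k1,k0,k1,k1,k1],[k0,k1,k0,k1,k0,k1],[k0,k1,k0,k0,k1,k0],[k0,k1,k0,k0,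
    k2,k0],[k0,k1,k0,k0,k2,k1],[k0,k1,k0,k0,k1,k1],[k0,k1,k0,k0,k0,k1],[k0,k2,k0,k0,k0,k2],[k0,k0,k1,k1,k0,k0],[k0,k0,
    k1,k2,k0,k0],[k0,k0,k1,k1,k1,k0],[k0,k0,k1,k0,k0,k1],[k0,k0,k0,k2,k0,k0],[k0,k0,k0,k3,k0,k0],[k0,k0,k0,k2,k1,k0],
    [k0,k0,k0,k1,k1,k0],[k0,k0,k0,k1,k2,k0],[k0,k0,k0,k1,k1,k1],[k0,k0,k0,k1,k0,k1],[k0,k0,k0,k0,k2,k0],[k0,k0,k0,k0,
    k3,k0],[k0,k0,k0,k0,k4,k0],[k0,k0,k0,k0,k2,k1],[k0,k0,k0,k0,k1,k1]]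
    [.contra [z1],.ref (nat_lit 296) k0 [(z2,[z1,y1,z2,z0,y2]),(z2,[z1,y1])],.contra [y1,z0,y1,y2,z2],
    .ref (nat_lit 296) k0 [(z1,[z1,y1,z1,y1,y1]),(z1,[z1,y1,z0,y1])],.contra [y1,z0,y1,y2,z2],
    .ref (nat_lit 348) k5 [(z1,[y2,y1,y5,y5,z5]),(z1,[y1,z2,z0,z5]),(z1,[z0,z0,z1]),(z1,[z2,z1])],
    .ref (nat_lit 252) k10 [(z1,[y1,z0,y1,z1]),(z1,[z0,z0,z0,y1,z1])],.contra [y1,z2,z0,z5],.contra [y1,z2,z0,z6],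
    .contra [y1,z0,y1,y2,z2],.contra [y1,z0,y1,y2,z2],.ref (nat_lit 252) k9 [(z1,[y1,y1,y1]),(z1,[z0,z0,z0,y1,z1])],
    .contra [y1,z0,z0,y1,z1],.contra [z2,y1,y1,y2],.contra [z2,z1,y1],.contra [y1,z1,z0,z2],.contra [y1,z2,z0,z4],
    .contra [y2,z1,y1,z0,z2],.contra [y2,z1,y1,z0,z2],.contra [y1,z0,y1,y2,z2],.ref k178 k0 [(z1,[z1,z0,z1,z1,y1])],
    .ref (nat_lit 296) k0 [(z1,[z1,z0,z1,z0,y1]),(z1,[z1])],.contra [z2,z1,z1,z2,y2],.contra [y1,y1,y1,y2,z2],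
    .contra [y1,z1,z0,z3],.contra [z1,z0,z0,y1],.contra [y1,z1,z0,z4],.contra [z1,z1],.contra [z1,z2,z0,z1],
    .ref k1 k2 [(z1,[z1])],.contra [y1,z0,z0,y1,z1],.ref k178 k0 [(z1,[y1,z0,z1,z1])],.contra [y1,z0,y1,y2,z2],
    .ref k178 k0 [(z2,[y1,y1,z1,y1,z1])],.contra [z1,z2,z1,z6,y2],.ref k178 k0 [(z1,[y1,y1,z0,y1,z1])],.contra [z1,z1,
    z0,z2,y1],.contra [z1,z1,z0,z3,y1],.ref k0 k3 [(z1,[z1])],.contra [z1,z1],.contra [z2,z3,y1,z2],.contra [z2,z1,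
    y1],.contra [y1,z0,z0,y1,z1],.contra [y1,z0,z2],.contra [y2,z1,y1,z0,z2],.ref (nat_lit 252) k10 [(z1,[z1,z0,z0,z2,
    y2]),(z1,[z0,z0,z0,y1,z1])],.contra [z1,z0,z0,y1],.contra [y2,z1,z1,z2],.contra [z1],.ref (nat_lit 217) k4 [(z1,
    [z1]),(z1,[z0,z0,z0,z1])],.ref (nat_lit 252) k9 [(z1,[z1,z0,z0,z2,y2]),(z1,[z0,z0,z0,y1,z1])],.contra [y2,y1,y1,
    y2,z2],.contra [z1,z1],.ref k0 k3 [(z1,[y1,y1,z0,y1,z1])],.contra [y1,z0,z0,y1,z1],.contra [y1,z0,z0,z2],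
    .contra [z1,z2,z0,z1],.contra [z1,z3,z0,z2],.contra [z1,z1,y1,y1,z1],.ref k178 k0 [(z1,[z1])]]),
    .geo true z5 k4 [(y2,z5),(z6,z0),(z10,y10),(z2,z0),(z0,z5),(z4,z0)] [(z1,[z1]),(z1,[z0,z1]),(z1,[z0,z0,z5]),(z1,[z0,
    z0,z0,z1]),(z1,[]),(z1,[y1,y1,y5,y1,
    z5])] (Int.ofNat (nat_lit 419430)) (Int.ofNat (nat_lit 1048576)) (.s (.s (.l k1) (.l k1)) (.s (.l k1) (.l k1))) [],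
    .old (.lp [(nat_lit 1252),(nat_lit 1598),(nat_lit 1630),(nat_lit 1228),(nat_lit 918),(nat_lit 1050)] [(nat_lit 318),
    (nat_lit 316),k0,(nat_lit 288),k128,k128,(nat_lit 329),(nat_lit 329),(nat_lit 258),(nat_lit 710),(nat_lit 768),
    k68] k0 [[k0,k0,(nat_lit 672),k0,k0,k0,k28,k0,k0,k0,k0,k32],[k0,k0,(nat_lit 616),k0,k0,k0,k0,k0,k0,k0,k0,k28],[k0,
    k0,k0,k0,k0,k0,k0,k0,(nat_lit 1050)],[(nat_lit 616),(nat_lit 672),k0,k0,k0,k0,k0,k0,k68],[k0,k0,k0,k0,k0,k0,k0,k0,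
    k0,k0,k0,k80],[k0,k0,k0,k0,k0,k0,k0,(nat_lit 242)],[k0,k0,k0,k0,(nat_lit 242),k0,k0,k0,k0,(nat_lit 278)],[k0,k28,
    k0,k0,k0,k0,k0,k0,k0,k12],[k0,k0,k0,k0,k0,k0,k12,(nat_lit 278),k0,k0,(nat_lit 544)],[k0,k0,k68,(nat_lit 1050)],
    [k28,k32,k0,k0,k0,k80],[k0,k0,k0,k0,k0,k0,k0,k0,k0,(nat_lit 544)]] (nat_lit 3840) k6
    [[(k8,(nat_lit 768)),(k0,(nat_lit 1280)),(k3,(nat_lit 1314)),(k7,(nat_lit 1321)),(k4,(nat_lit 1442)),(k11,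
    (nat_lit 1502))],[(k5,(nat_lit 768)),(k10,(nat_lit 768)),(k9,(nat_lit 830)),(k6,(nat_lit 1239)),(k1,
    (nat_lit 1280)),(k2,(nat_lit 2184))],[(k10,(nat_lit 802)),(k5,(nat_lit 854)),(k9,(nat_lit 888)),(k6,
    (nat_lit 1297)),(k1,(nat_lit 1314)),(k2,(nat_lit 2270))],[(k11,(nat_lit 768)),(k7,(nat_lit 1557)),(k8,
    (nat_lit 1696)),(k4,(nat_lit 1758)),(k0,(nat_lit 2184)),(k3,(nat_lit 2270))],[(k0,(nat_lit 768)),(k3,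
    (nat_lit 854)),(k7,(nat_lit 1429)),(k11,(nat_lit 1622)),(k4,(nat_lit 1630)),(k8,(nat_lit 2550))],[(k10,
    (nat_lit 910)),(k9,(nat_lit 1290)),(k6,(nat_lit 1429)),(k1,(nat_lit 1442)),(k5,(nat_lit 1630)),(k2,
    (nat_lit 1758))],[(k10,(nat_lit 789)),(k9,(nat_lit 847)),(k6,(nat_lit 986)),(k1,(nat_lit 1321)),(k5,
    (nat_lit 1429)),(k2,(nat_lit 1557))],[(k7,(nat_lit 986)),(k8,(nat_lit 1021)),(k0,(nat_lit 1239)),(k3,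
    (nat_lit 1297)),(k4,(nat_lit 1429)),(k11,(nat_lit 1501))],[(k0,(nat_lit 830)),(k7,(nat_lit 847)),(k3,
    (nat_lit 888)),(k8,(nat_lit 906)),(k4,(nat_lit 1290)),(k11,(nat_lit 1386))],[(k1,(nat_lit 768)),(k10,
    (nat_lit 860)),(k9,(nat_lit 906)),(k6,(nat_lit 1021)),(k2,(nat_lit 1696)),(k5,(nat_lit 2550))],[(k2,
    (nat_lit 768)),(k9,(nat_lit 1386)),(k6,(nat_lit 1501)),(k1,(nat_lit 1502)),(k10,(nat_lit 1594)),(k5,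
    (nat_lit 1622))],[(k0,(nat_lit 768)),(k7,(nat_lit 789)),(k3,(nat_lit 802)),(k8,(nat_lit 860)),(k4,(nat_lit 910)),
    (k11,(nat_lit 1594))]]
    [] k0
    [[k2,k0,k0,k0,k0,k0],[k2,k0,k1,k0,k0,k0],[k2,k0,k0,k0,k1,k0],[k2,k0,k0,k0,k2,k0],[k2,k0,k0,k0,k0,k1],[k1,k1,k0,k0,
    k0,k0],[k1,k1,k0,k0,k0,k1],[k1,k1,k1,k0,k0,k1],[k1,k1,k0,k0,k1,k1],[k1,k0,k1,k0,k0,k0],[k2,k0,k1,k0,k1,k0],[k1,k0,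
    k1,k0,k0,k1],[k1,k0,k0,k1,k0,k0],[k1,k0,k1,k1,k0,k0],[k1,k0,k0,k2,k0,k0],[k1,k0,k0,k1,k1,k0],[k1,k0,k0,k1,k0,k1],
    [k1,k0,k0,k0,k1,k0],[k1,k0,k1,k0,k1,k0],[k1,k0,k1,k1,k1,k0],[k1,k0,k0,k1,k2,k0],[k1,k0,k0,k0,k2,k0],[k1,k0,k1,k0,
    k2,k0],[k1,k0,k0,k0,k3,k0],[k1,k0,k0,k0,k2,k1],[k1,k0,k0,k0,k1,k1],[k1,k0,k1,k0,k1,k1],[k1,k0,k0,k0,k0,k1],[k0,k1,
    k1,k0,k0,k0],[k0,k1,k1,k0,k1,k1],[k0,k1,k1,k0,k0,k1],[k0,k1,k0,k1,k0,k0],[k0,k1,k0,k1,k1,k1],[k0,k1,k0,k1,k0,k1],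
    [k0,k1,k0,k0,k1,k0],[k0,k1,k0,k1,k1,k0],[k0,k1,k0,k0,k2,k0],[k0,k1,k0,k0,k2,k1],[k0,k1,k0,k0,k1,k1],[k0,k1,k0,k0,
    k0,k1],[k0,k2,k0,k0,k0,k2],[k0,k1,k0,k0,k1,k2],[k0,k1,k0,k0,k0,k2],[k0,k0,k2,k0,k0,k0],[k0,k0,k1,k1,k0,k0],[k0,k0,
    k1,k1,k1,k0],[k0,k0,k1,k0,k0,k1],[k0,k0,k1,k0,k1,k1],[k0,k0,k0,k2,k0,k0],[k0,k0,k0,k3,k0,k0],[k0,k0,k0,k2,k1,k0],
    [k0,k0,k0,k2,k2,k0],[k0,k0,k0,k2,k0,k1],[k0,k0,k0,k1,k1,k0],[k0,k0,k0,k1,k2,k0],[k0,k0,k0,k1,k3,k0],[k0,k0,k0,k1,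
    k1,k1],[k0,k0,k0,k1,k0,k1],[k0,k0,k0,k0,k2,k0],[k0,k0,k0,k0,k3,k0],[k0,k0,k0,k0,k4,k0],[k0,k0,k0,k0,k2,k1],[k0,k0,
    k0,k0,k1,k1],[k0,k0,k0,k0,k0,k2]]
    [.contra [z1],.ref (nat_lit 328) k10 [(z1,[y1,z1,z0,z2]),(z1,[z0,z0,z0,y1,z1])],.ref (nat_lit 350) k4 [(z1,[y2,y1,
    y5,y5,z5]),(z1,[z1,y2]),(z1,[z0,z0,z1]),(z1,[z2,z1])],.contra [y1,z2,z0,z6],.contra [y1,z0,y1,y2,z2],.contra [y1,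
    z0,z0,y1,z1],.contra [y1,z0,z0,y1,z1],.contra [z2,y1,y1,y2],.contra [z2,z1,y1],.contra [y1,z1,z0,z2],.contra [y1,
    z2,z0,z5],.ref k178 k0 [(z1,[z1,y1,z0,y1])],.contra [y2,z1,y1,z0,z2],.contra [y2,z1,y1,z0,z2],.contra [y1,z0,y1,
    y2,z2],.ref k0 k3 [(z1,[z1,z0,z1,z1,y1])],.contra [y1,z0,z0,y1,z1],.ref (nat_lit 328) k10 [(z1,[y1,z0,z0,z1]),(z1,
    [z0,z0,z0,y1,z1])],.contra [y1,z1,z0,z3],.contra [z1,z0,z1,z0,y1],.contra [z1,z1,z1,z1,y1],.contra [y1,z1,z0,z4],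
    .contra [z1,z1],.contra [z1,z2,z0,z1],.contra [y1,y1,y1,y2,z2],.ref k1 k2 [(z1,[z1])],.contra [z1,z0,z0,y1],
    .contra [y1,z0,z0,y1,z1],.contra [y2,z1,z1,z2],.contra [z2,z1,y1],.ref k0 k3 [(z1,[y1,z0,z1,z1])],.contra [y1,z0,
    z0,y1,z1],.contra [z1,z1,z0,z2,y1],.contra [z1,z1,z0,z3,y1],.ref k0 k3 [(z1,[z1])],.ref k178 k0 [(z1,[y1,y1,z0,y1,
    z1])],.contra [z1,z1],.contra [z2,z3,y1,z2],.contra [z2,z1,y1],.contra [y1,z0,z1],.contra [y1,z0,z2],.contra [z2,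
    z1,y1],.ref (nat_lit 349) k2 [(z1,[z0,z1]),(z1,[z1]),(z1,[z0,z0,z0,z1])],.contra [z1],.contra [y2,z1,y1,z0,z2],
    .contra [z1,z0,z0,y1],.ref k0 k0 [(z1,[z1])],.contra [y1,z0,z1,z1],.contra [z1],.ref (nat_lit 217) k4 [(z1,[z1]),
    (z1,[z0,z0,z0,z1])],.ref k1 k2 [(z1,[y1,y1,y1,y2,z2])],.contra [z1,z1,z1,z1,y1],.contra [z1,z2,z1,z6,y2],
    .contra [y2,y1,y1,y2,z2],.contra [z1,z1,z1,z1,y1],.contra [z1,z2,z1,z2,y1],.ref k0 k3 [(z1,[y1,y1,z0,y1,z1])],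
    .contra [y1,z0,z0,y1,z1],.contra [y1,z0,z0,z2],.contra [z1,z2,z0,z1],.contra [z1,z3,z0,z2],.contra [z1,z1],
    .ref k178 k0 [(z1,[z1])],.contra [z1]]),
    .old (.lp [(nat_lit 1396),(nat_lit 1942),(nat_lit 1986),(nat_lit 1482),(nat_lit 1856),(nat_lit 1876)] [(nat_lit 488),
    (nat_lit 488),k0,(nat_lit 430),k193,k193,(nat_lit 445),(nat_lit 445),(nat_lit 258),(nat_lit 258),(nat_lit 358),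
    k138] k0 [[k0,k0,k0,k0,k0,k0,k0,k0,k0,k0,k0,k88],[k0,k0,(nat_lit 458)],[k0,k0,k0,k0,k0,k132,k0,k0,(nat_lit 1178)],
    [(nat_lit 458),k0,k0,k0,k0,k0,k0,k0,(nat_lit 458)],[k0,k0,k0,k132,k0,k0,k0,k0,k0,k0,k44],[k0,k0,k0,k0,k0,k0,
    (nat_lit 458),(nat_lit 260)],[k0,k0,k0,k0,(nat_lit 260)],[k0,k0,k0,k0,(nat_lit 458),k0,k0,k0,k0,(nat_lit 656)],
    [k0,k0,k0,k0,k0,k0,(nat_lit 656),k0,k0,k0,(nat_lit 372),(nat_lit 700)],[k0,k0,(nat_lit 458),(nat_lit 1178)],[k0,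
    k88,k0,k0,k0,k0,k0,k0,k0,(nat_lit 700)],[k0,k0,k0,k0,k0,k44,k0,k0,k0,(nat_lit 372)]] (nat_lit 5280) k6
    [[(k8,(nat_lit 1254)),(k0,(nat_lit 1396)),(k7,(nat_lit 1439)),(k3,(nat_lit 1542)),(k4,(nat_lit 1647)),(k11,
    (nat_lit 2446))],[(k1,(nat_lit 1396)),(k10,(nat_lit 1438)),(k6,(nat_lit 1439)),(k9,(nat_lit 1626)),(k5,
    (nat_lit 1691)),(k2,(nat_lit 2342))],[(k5,(nat_lit 1291)),(k6,(nat_lit 1497)),(k1,(nat_lit 1542)),(k10,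
    (nat_lit 1584)),(k9,(nat_lit 1684)),(k2,(nat_lit 1942))],[(k11,(nat_lit 1056)),(k7,(nat_lit 1927)),(k3,
    (nat_lit 1942)),(k4,(nat_lit 2047)),(k0,(nat_lit 2342)),(k8,(nat_lit 2572))],[(k3,(nat_lit 1291)),(k11,
    (nat_lit 1583)),(k0,(nat_lit 1691)),(k7,(nat_lit 1866)),(k4,(nat_lit 1986)),(k8,(nat_lit 3099))],[(k1,
    (nat_lit 1647)),(k10,(nat_lit 1821)),(k5,(nat_lit 1986)),(k2,(nat_lit 2047)),(k9,(nat_lit 2181)),(k6,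
    (nat_lit 2192))],[(k9,(nat_lit 1211)),(k6,(nat_lit 1222)),(k1,(nat_lit 1439)),(k10,(nat_lit 1613)),(k5,
    (nat_lit 1866)),(k2,(nat_lit 1927))],[(k7,(nat_lit 1222)),(k0,(nat_lit 1439)),(k3,(nat_lit 1497)),(k8,
    (nat_lit 1669)),(k4,(nat_lit 2192)),(k11,(nat_lit 2445))],[(k8,(nat_lit 1200)),(k7,(nat_lit 1211)),(k0,
    (nat_lit 1626)),(k3,(nat_lit 1684)),(k11,(nat_lit 1976)),(k4,(nat_lit 2181))],[(k10,(nat_lit 1056)),(k9,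
    (nat_lit 1200)),(k1,(nat_lit 1254)),(k6,(nat_lit 1669)),(k2,(nat_lit 2572)),(k5,(nat_lit 3099))],[(k2,
    (nat_lit 1056)),(k5,(nat_lit 1583)),(k9,(nat_lit 1976)),(k10,(nat_lit 2248)),(k6,(nat_lit 2445)),(k1,
    (nat_lit 2446))],[(k8,(nat_lit 1056)),(k0,(nat_lit 1438)),(k3,(nat_lit 1584)),(k7,(nat_lit 1613)),(k4,
    (nat_lit 1821)),(k11,(nat_lit 2248))]]
    [] k0
    [[k2,k0,k0,k0,k0,k0],[k3,k0,k0,k0,k0,k0],[k2,k0,k1,k0,k0,k0],[k2,k0,k0,k1,k0,k0],[k2,k0,k0,k0,k1,k0],[k1,k1,k0,k0,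
    k0,k0],[k1,k1,k0,k1,k0,k0],[k1,k1,k0,k0,k0,k1],[k1,k0,k1,k0,k0,k0],[k1,k0,k1,k1,k0,k0],[k1,k0,k1,k0,k0,k1],[k1,k0,
    k0,k1,k0,k0],[k1,k0,k0,k2,k0,k0],[k1,k0,k0,k1,k1,k0],[k1,k0,k0,k0,k1,k0],[k1,k0,k1,k0,k1,k0],[k1,k0,k0,k2,k1,k0],
    [k1,k0,k0,k0,k2,k0],[k1,k0,k0,k1,k2,k0],[k1,k0,k0,k0,k1,k1],[k1,k0,k0,k0,k0,k1],[k0,k2,k0,k0,k0,k0],[k0,k2,k0,k0,
    k0,k1],[k0,k1,k1,k0,k0,k0],[k0,k1,k1,k0,k0,k1],[k0,k1,k0,k1,k0,k0],[k0,k1,k0,k2,k0,k0],[k0,k1,k0,k1,k1,k1],[k0,k1,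
    k0,k1,k0,k1],[k0,k1,k0,k0,k1,k0],[k0,k1,k0,k0,k2,k1],[k0,k1,k0,k0,k1,k1],[k0,k1,k0,k0,k0,k1],[k0,k1,k0,k0,k0,k2],
    [k0,k0,k2,k0,k0,k0],[k0,k0,k1,k1,k0,k0],[k0,k0,k1,k0,k0,k1],[k0,k0,k1,k0,k1,k1],[k0,k0,k0,k2,k0,k0],[k0,k0,k0,k3,
    k0,k0],[k0,k0,k0,k4,k0,k0],[k0,k0,k0,k2,k1,k0],[k0,k0,k0,k1,k1,k0],[k0,k0,k0,k1,k2,k0],[k0,k0,k0,k1,k1,k1],[k0,k0,
    k0,k1,k0,k1],[k0,k0,k0,k0,k2,k0],[k0,k0,k0,k0,k3,k0],[k0,k0,k0,k0,k4,k0],[k0,k0,k0,k0,k2,k1],[k0,k0,k0,k0,k1,k1],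
    [k0,k0,k0,k0,k0,k2]]
    [.contra [z1],.ref (nat_lit 252) k9 [(z2,[y1,y1,y4]),(z1,[z0,z0,z0,y1,z1])],.ref (nat_lit 252) k9 [(z1,[y1,z0,y2,
    z1]),(z1,[z0,z0,z0,y1,z1])],.contra [z1,z0,z1,z1,y1],.ref (nat_lit 252) k10 [(z1,[y1,z0,y2,z1]),(z1,[z0,z0,z0,y1,
    z1])],.contra [y1,z0,z0,y1,z1],.contra [z1,z0,z1,z1,y1],.contra [z1,z0,y1],.contra [y1,z1,z0,z2],.contra [z1,z0,
    z1,z1,y1],.ref k178 k0 [(z1,[z1,y1,z0,y1])],.contra [y2,z1,y2,z0,z2],.contra [z1,z1,z2,z4,y2],.contra [y1,z0,y1,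
    z0,z1],.ref (nat_lit 252) k9 [(z1,[y1,y1,y2]),(z1,[z0,z0,z0,y1,z1])],.contra [y1,z1,z0,z3],.contra [z1,z1,z2,z3,
    y2],.contra [y1,z1,z0,z4],.contra [z2,z3,z2,z4,y2],.ref k1 k2 [(z1,[z1])],.contra [y1,z0,z0,y1,z1],.contra [z1],
    .contra [z1,z0,y1],.contra [y2,z1,z2,z2],.contra [z1,z0,y1],.contra [y1,z0,z0,y1,z1],.ref (nat_lit 296) k5 [(z1,
    [z1,z0,z0,z1,y1]),(z1,[z0,z0,z0,z1])],.contra [z1,z1,z0,z2,y1],.contra [z1,z1,z0,z3,y1],.ref k0 k3 [(z1,[z1])],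
    .contra [z2,z3,y2,z2],.contra [y1,z0,z1,z1],.contra [y2,z1,z2,z2],.contra [z1,z0,y1],.contra [z1],.contra [z1,z1,
    z1,z3,y1],.contra [y2,z1,z2,z2],.contra [y1,z0,z1,z1],.contra [z1,z2,z2,z6,y2],.ref (nat_lit 217) k4 [(z1,[z1]),
    (z1,[z0,z0,z0,z1])],.ref k5 k0 [(z1,[z0,z0,z1]),(z2,[y1,z0,y4,y4,z4]),(z1,[z0,z0,z0,z1])],
    .ref (nat_lit 252) k9 [(z1,[z1,z0,z0,z2,y2]),(z1,[z0,z0,z0,y1,z1])],.contra [z1,z1,z1,z2,y1],.contra [z2,z3,z2,z4,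
    y2],.ref k0 k3 [(z1,[y1,y1,z0,y1,z1])],.contra [y1,z0,z0,y1,z1],.contra [y1,z0,z0,z2],.contra [z1,z2,z0,z1],
    .contra [z1,z3,z0,z2],.contra [z1,z1],.ref k178 k0 [(z1,[z1])],.contra [z1]]),
    .old (.lp [(nat_lit 320),(nat_lit 322),(nat_lit 322),(nat_lit 318),(nat_lit 316),(nat_lit 320)] [k125,k125,k124,k124,
    k124,k124,k126,k126,k127,k127,(nat_lit 250),k0] k0 [[],[k0,k0,k2,k0,k0,k0,k0,k0,k0,k0,k0,k4],[k0,k0,k0,k0,k0,k4,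
    k0,k0,(nat_lit 254)],[k2,k0,k0,k0,k0,k0,k0,k0,k2],[k0,k0,k0,k4,k0,k0,k0,k0,k0,k0,k4],[k0,k0,k0,k0,k0,k0,k66,k68],
    [k0,k0,k0,k0,k68,k0,k0,k0,k0,k76],[k0,k0,k0,k0,k66,k0,k0,k0,k0,k68],[k0,k0,k0,k0,k0,k0,k68,k76],[k0,k0,k2,
    (nat_lit 254)],[k4],[k0,k0,k0,k0,k0,k4]] (nat_lit 960) k6
    [[(k4,(nat_lit 317)),(k8,(nat_lit 318)),(k7,(nat_lit 319)),(k3,(nat_lit 321)),(k0,(nat_lit 324)),(k11,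
    (nat_lit 445))],[(k10,k195),(k9,(nat_lit 318)),(k6,(nat_lit 319)),(k5,(nat_lit 321)),(k2,(nat_lit 323)),(k1,
    (nat_lit 324))],[(k10,k192),(k9,(nat_lit 319)),(k5,(nat_lit 320)),(k6,(nat_lit 320)),(k1,(nat_lit 321)),(k2,
    (nat_lit 322))],[(k11,k192),(k4,(nat_lit 318)),(k7,(nat_lit 320)),(k8,(nat_lit 321)),(k3,(nat_lit 322)),(k0,
    (nat_lit 323))],[(k3,(nat_lit 320)),(k0,(nat_lit 321)),(k4,(nat_lit 322)),(k7,(nat_lit 324)),(k11,(nat_lit 444)),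
    (k8,(nat_lit 573))],[(k10,k196),(k1,(nat_lit 317)),(k2,(nat_lit 318)),(k5,(nat_lit 322)),(k6,(nat_lit 386)),(k9,
    (nat_lit 387))],[(k10,k198),(k6,(nat_lit 250)),(k9,(nat_lit 251)),(k1,(nat_lit 319)),(k2,(nat_lit 320)),(k5,
    (nat_lit 324))],[(k8,(nat_lit 241)),(k7,(nat_lit 250)),(k0,(nat_lit 319)),(k3,(nat_lit 320)),(k4,(nat_lit 386)),
    (k11,(nat_lit 512))],[(k8,(nat_lit 248)),(k7,(nat_lit 251)),(k0,(nat_lit 318)),(k3,(nat_lit 319)),(k4,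
    (nat_lit 387)),(k11,(nat_lit 519))],[(k10,k193),(k6,(nat_lit 241)),(k9,(nat_lit 248)),(k1,(nat_lit 318)),(k2,
    (nat_lit 321)),(k5,(nat_lit 573))],[(k2,k192),(k10,(nat_lit 320)),(k5,(nat_lit 444)),(k1,(nat_lit 445)),(k6,
    (nat_lit 512)),(k9,(nat_lit 519))],[(k3,k192),(k8,k193),(k0,k195),(k4,k196),(k7,k198),(k11,(nat_lit 320))]]
    [] k0
    [[k2,k0,k0,k0,k0,k0],[k1,k1,k0,k0,k0,k0],[k1,k1,k0,k0,k0,k1],[k1,k0,k1,k0,k0,k0],[k1,k0,k1,k0,k0,k1],[k1,k0,k0,k1,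
    k0,k0],[k1,k0,k0,k2,k0,k0],[k1,k0,k0,k1,k1,k0],[k1,k0,k0,k0,k1,k0],[k1,k0,k0,k0,k2,k0],[k1,k0,k0,k0,k0,k1],[k1,k0,
    k0,k0,k1,k1],[k0,k2,k0,k0,k0,k0],[k0,k2,k0,k0,k0,k1],[k0,k1,k1,k0,k0,k0],[k0,k1,k1,k0,k0,k1],[k0,k1,k0,k1,k0,k0],
    [k0,k1,k0,k2,k0,k0],[k0,k1,k0,k1,k1,k0],[k0,k1,k0,k1,k1,k1],[k0,k1,k0,k1,k0,k1],[k0,k1,k0,k0,k1,k0],[k0,k1,k0,k0,
    k2,k0],[k0,k1,k0,k0,k2,k1],[k0,k1,k0,k0,k1,k1],[k0,k1,k0,k0,k0,k1],[k0,k2,k0,k0,k0,k2],[k0,k1,k0,k0,k0,k2],[k0,k0,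
    k2,k0,k0,k0],[k0,k0,k1,k1,k0,k0],[k0,k0,k1,k1,k1,k0],[k0,k0,k1,k0,k0,k1],[k0,k0,k0,k2,k0,k0],[k0,k0,k0,k3,k0,k0],
    [k0,k0,k0,k2,k1,k0],[k0,k0,k0,k1,k1,k0],[k0,k0,k0,k1,k2,k0],[k0,k0,k0,k1,k1,k1],[k0,k0,k0,k1,k0,k1],[k0,k0,k0,k0,
    k2,k0],[k0,k0,k0,k0,k3,k0],[k0,k0,k0,k0,k1,k1],[k0,k0,k0,k0,k0,k2]]
    [.contra [z1],.contra [y1,z1,z1],.contra [y1,z1,z1],.contra [y1,y1,y2,z2],.ref k178 k0 [(z1,[z1,z0,z1,y1])],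
    .contra [y1,z1,z1],.ref k178 k3 [(z2,[z1,y1])],.ref (nat_lit 342) k9 [(z1,[z1,y1,y1]),(z1,[z0,z1,z1])],
    .ref (nat_lit 328) k10 [(z1,[y1,y1,y1,z1]),(z1,[z0,z1,z1])],.contra [y1,y3,y4,z4],.contra [y1,z1,z1],
    .ref k1 k2 [(z1,[z1])],.contra [z1],.ref (nat_lit 351) k2 [(z1,[z0,z1]),(z1,[z1]),(z1,[z0,y1,y1,z1])],
    .ref k178 k10 [(z1,[z1])],.ref (nat_lit 342) k9 [(z1,[y1,y1,y1,z1]),(z1,[z0,z1,z1])],.contra [y1,z1,z1],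
    .ref (nat_lit 296) k5 [(z1,[z1,y1,y1]),(z1,[z0,y1,y1,z1])],.ref k178 k0 [(z1,[y1,z0,z1])],.contra [z1,y1,y2,z1],
    .contra [z1,y2,y3,z2],.ref k0 k3 [(z1,[z1])],.contra [z1,z1],.contra [z1,z1],.ref k178 k3 [(z1,[y1,z0,z1])],
    .contra [y1,z1,z1],.ref (nat_lit 352) k2 [(z1,[z0,z1]),(z2,[z1]),(z1,[z0,y1,y1,z1])],.ref (nat_lit 349) k2 [(z1,
    [z0,z1]),(z1,[z1]),(z1,[z0,y1,y1,z1])],.contra [z1],.ref k178 k4 [(z1,[z1])],.contra [z1,z1,z1,y1],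
    .ref k0 k0 [(z1,[z1])],.contra [z1],.ref (nat_lit 217) k4 [(z1,[z1]),(z1,[z0,y1,y1,z1])],
    .ref (nat_lit 252) k9 [(z1,[z1,y2,y2]),(z1,[z0,z1,z1])],.ref k178 k3 [(z1,[z1])],.contra [z1,z1],.ref k0 k3 [(z1,
    [y1,z0,z1])],.contra [y1,z1,z1],.contra [y1,y2,y2,z2],.contra [z1,z1,y1,z1],.ref k178 k0 [(z1,[z1])],
    .contra [z1]]),
    .old (.lp [(nat_lit 310),(nat_lit 332),(nat_lit 318),(nat_lit 318),(nat_lit 230),(nat_lit 410)] [k72,k72,k61,k61,k136,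
    k0,k68,k68,k112,k112,k22,k22] k0 [[k0,k0,k0,k0,k0,k0,k0,k0,k0,k0,k68,k2],[k0,k0,k0,k8],[k8,k0,k0,k0,k2,k10],[k0,
    k0,k0,k0,k0,k0,k0,k0,k74,k150],[k0,k0,k0,k10,k0,k0,k14,k6],[k0,k0,k0,k2,k0,k0,k0,k0,k0,k0,k0,k10],[k0,k0,k0,k0,k0,
    k6,k0,k0,k172],[k0,k0,k0,k0,k0,k14,k0,k0,k82],[k0,k0,k150,k0,k0,k0,k0,k0,k0,k0,k4],[k0,k0,k74,k0,k0,k0,k82,k172],
    [k0,k2,k0,k0,k10],[k0,k68,k0,k0,k0,k0,k0,k0,k0,k4]] (nat_lit 960) k6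
    [[(k0,(nat_lit 242)),(k4,(nat_lit 256)),(k8,(nat_lit 266)),(k7,(nat_lit 314)),(k3,(nat_lit 323)),(k11,
    (nat_lit 360))],[(k1,(nat_lit 242)),(k9,(nat_lit 270)),(k6,(nat_lit 314)),(k2,(nat_lit 321)),(k10,(nat_lit 358)),
    (k5,(nat_lit 390))],[(k9,(nat_lit 281)),(k1,(nat_lit 323)),(k2,(nat_lit 324)),(k6,(nat_lit 325)),(k5,
    (nat_lit 393)),(k10,(nat_lit 439))],[(k4,(nat_lit 247)),(k0,(nat_lit 321)),(k7,(nat_lit 323)),(k3,(nat_lit 324)),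
    (k8,(nat_lit 355)),(k11,(nat_lit 521))],[(k8,k192),(k4,(nat_lit 320)),(k11,(nat_lit 358)),(k0,(nat_lit 390)),(k3,
    (nat_lit 393)),(k7,(nat_lit 396))],[(k9,k192),(k6,(nat_lit 244)),(k2,(nat_lit 247)),(k1,(nat_lit 256)),(k10,
    (nat_lit 296)),(k5,(nat_lit 320))],[(k9,(nat_lit 280)),(k1,(nat_lit 314)),(k2,(nat_lit 323)),(k6,(nat_lit 332)),
    (k10,(nat_lit 354)),(k5,(nat_lit 396))],[(k11,k192),(k4,(nat_lit 244)),(k0,(nat_lit 314)),(k3,(nat_lit 325)),(k7,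
    (nat_lit 332)),(k8,(nat_lit 356))],[(k4,k192),(k11,(nat_lit 238)),(k0,(nat_lit 270)),(k7,(nat_lit 280)),(k3,
    (nat_lit 281)),(k8,(nat_lit 402))],[(k5,k192),(k1,(nat_lit 266)),(k10,(nat_lit 320)),(k2,(nat_lit 355)),(k6,
    (nat_lit 356)),(k9,(nat_lit 402))],[(k6,k192),(k9,(nat_lit 238)),(k5,(nat_lit 358)),(k1,(nat_lit 360)),(k10,
    (nat_lit 414)),(k2,(nat_lit 521))],[(k4,(nat_lit 296)),(k8,(nat_lit 320)),(k7,(nat_lit 354)),(k0,(nat_lit 358)),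
    (k11,(nat_lit 414)),(k3,(nat_lit 439))]]
    [] k0
    [[k2,k0,k0,k0,k0,k0],[k3,k0,k0,k0,k0,k0],[k2,k1,k0,k0,k0,k0],[k2,k0,k1,k0,k0,k0],[k2,k0,k0,k1,k0,k0],[k2,k0,k0,k0,
    k1,k0],[k1,k1,k0,k0,k0,k0],[k1,k1,k0,k0,k1,k0],[k1,k0,k1,k0,k0,k0],[k1,k0,k1,k0,k1,k0],[k1,k0,k0,k1,k0,k0],[k1,k0,
    k1,k1,k0,k0],[k1,k0,k0,k1,k1,k0],[k1,k0,k0,k1,k0,k1],[k1,k0,k0,k0,k1,k0],[k1,k0,k1,k0,k2,k0],[k1,k0,k0,k0,k2,k0],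
    [k1,k0,k0,k0,k1,k1],[k1,k0,k0,k0,k0,k1],[k0,k2,k0,k0,k0,k0],[k0,k1,k1,k0,k0,k0],[k0,k1,k1,k0,k1,k0],[k0,k1,k0,k1,
    k0,k0],[k0,k1,k0,k0,k1,k0],[k0,k1,k0,k1,k0,k1],[k0,k0,k2,k0,k0,k0],[k0,k0,k2,k0,k1,k0],[k0,k0,k1,k1,k0,k0],[k0,k0,
    k1,k1,k1,k0],[k0,k0,k1,k1,k0,k1],[k0,k0,k1,k0,k1,k0],[k0,k0,k2,k0,k2,k0],[k0,k0,k1,k0,k2,k0],[k0,k0,k1,k0,k1,k1],
    [k0,k0,k1,k0,k2,k1],[k0,k0,k1,k0,k0,k1],[k0,k0,k0,k2,k0,k0],[k0,k0,k0,k2,k0,k1],[k0,k0,k0,k1,k1,k0],[k0,k0,k0,k1,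
    k1,k1],[k0,k0,k0,k1,k0,k1],[k0,k0,k0,k0,k2,k0],[k0,k0,k0,k0,k1,k1],[k0,k0,k0,k0,k0,k2]]
    [.contra [z1],.ref k27 k3 [(z1,[z0,y1,z0,y1,z1]),(z2,[y1,z1,y2,z0,z2])],.ref (nat_lit 252) k11 [(z1,[z1,z0,z2,z0,
    y2]),(z1,[z0,z0,y1,z0,z1])],.ref k178 k8 [(z1,[z1,y1,z1,y1])],.ref k27 k3 [(z1,[z0,y1,z0,y1,z1]),(z1,[y1,z0,y2,y1,
    z2])],.ref (nat_lit 296) k7 [(z1,[z1,z0,z1,z0,y1]),(z1,[z0,z0,z1])],.ref k178 k8 [(z1,[z1])],.ref k27 k3 [(z1,[z0,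
    y1,z0,y1,z1]),(z1,[y1,z0,z0,z0,z1])],.contra [y1,z0,y1,z0,z1],.contra [y1,z0,y1,z0,z1],.contra [y1,y1,y2,y2,z2],
    .contra [y1,z0,y1,z0,z1],.contra [y1,z0,y1,z0,z1],.contra [z1,z0,z1,z1,y1],.contra [y1,z0,y1,z0,z1],.contra [y1,
    z1,z0,z2],.contra [y1,z1,z0,z2],.ref k1 k2 [(z1,[z1])],.contra [y1,z1,z0,z1],.contra [z1],.contra [y1,z0,z1,z1],
    .contra [y1,z0,z1,z1],.contra [y1,y1,z0,y1,z1],.contra [y1,y1,z0,y1,z1],.contra [z1,z0,y1],.contra [z1],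
    .contra [y1,z1,z0,z2],.contra [y1,z0,y1,z0,z1],.contra [z1,y1,y1,y2,z1],.ref k27 k3 [(z1,[z0,y1,z0,y1,z1]),(z1,
    [z1])],.contra [y1,z0,y1,z0,z1],.contra [z1,y2,y2,y4,z2],.contra [y1,z0,z1,z1],.ref (nat_lit 328) k4 [(z1,[z1,y1,
    y2,y2,z1]),(z1,[y1,z1,z1,z2])],.contra [y1,z0,z2,z1],.contra [z1,y2,y2,y3,z2],.contra [z1],.ref k178 k8 [(z1,[y1,
    y1,y1,y2,z2])],.contra [y1,y1,z0,y1,z1],.contra [y1,y1,z1,y1,z1],.ref (nat_lit 328) k4 [(z1,[z1,z0,y1]),(z1,[y1,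
    z0,z0,z0,z1])],.contra [z1],.ref k178 k0 [(z1,[z1])],.contra [y1,z0,z2]]),
    .old (.lp [(nat_lit 640),(nat_lit 704),(nat_lit 622),(nat_lit 640),(nat_lit 600),(nat_lit 630)] [k178,k178,k146,k146,
    k187,k187,k178,k178,(nat_lit 396),k0,k183,k183] k0 [[k0,k0,k0,k64,k0,k0,(nat_lit 434)],[k0,k0,k0,k44],[k44,k64],
    [k0,k0,k0,k0,k50,k142],[k0,k0,k142,k0,k0,k0,k70,k2],[k0,k0,k50,k0,k0,k0,k0,k0,k0,k0,k0,k134],[k0,k0,k0,k0,k0,k2,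
    k0,k0,k110,k32],[k0,(nat_lit 434),k0,k0,k0,k70],[k0,k0,k0,k0,k0,k0,k0,k32,k0,k0,k38,k10],[k0,k0,k0,k0,k0,k0,k0,
    k110],[k0,k0,k0,k0,k134,k0,k0,k0,k0,k10],[k0,k0,k0,k0,k0,k0,k0,k0,k0,k38]] (nat_lit 1920) k6
    [[(k8,(nat_lit 384)),(k0,(nat_lit 640)),(k7,(nat_lit 640)),(k11,(nat_lit 645)),(k3,(nat_lit 672)),(k4,
    (nat_lit 765))],[(k9,(nat_lit 384)),(k2,(nat_lit 608)),(k10,(nat_lit 635)),(k1,(nat_lit 640)),(k6,(nat_lit 640)),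
    (k5,(nat_lit 675))],[(k2,(nat_lit 660)),(k10,(nat_lit 667)),(k1,(nat_lit 672)),(k5,(nat_lit 727)),(k9,
    (nat_lit 850)),(k6,(nat_lit 1106))],[(k8,(nat_lit 454)),(k0,(nat_lit 608)),(k3,(nat_lit 660)),(k11,(nat_lit 667)),
    (k4,(nat_lit 713)),(k7,(nat_lit 814))],[(k8,(nat_lit 413)),(k4,(nat_lit 480)),(k7,(nat_lit 581)),(k11,
    (nat_lit 626)),(k0,(nat_lit 675)),(k3,(nat_lit 727))],[(k5,(nat_lit 480)),(k10,(nat_lit 626)),(k6,(nat_lit 629)),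
    (k2,(nat_lit 713)),(k9,(nat_lit 739)),(k1,(nat_lit 765))],[(k10,(nat_lit 501)),(k5,(nat_lit 581)),(k1,
    (nat_lit 640)),(k6,(nat_lit 710)),(k2,(nat_lit 814)),(k9,(nat_lit 820))],[(k8,(nat_lit 390)),(k11,(nat_lit 525)),
    (k4,(nat_lit 629)),(k0,(nat_lit 640)),(k7,(nat_lit 710)),(k3,(nat_lit 1106))],[(k0,(nat_lit 384)),(k8,
    (nat_lit 710)),(k4,(nat_lit 739)),(k7,(nat_lit 820)),(k11,(nat_lit 845)),(k3,(nat_lit 850))],[(k1,(nat_lit 384)),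
    (k6,(nat_lit 390)),(k10,(nat_lit 407)),(k5,(nat_lit 413)),(k2,(nat_lit 454)),(k9,(nat_lit 710))],[(k6,
    (nat_lit 525)),(k5,(nat_lit 626)),(k1,(nat_lit 645)),(k2,(nat_lit 667)),(k10,(nat_lit 668)),(k9,(nat_lit 845))],
    [(k8,(nat_lit 407)),(k7,(nat_lit 501)),(k4,(nat_lit 626)),(k0,(nat_lit 635)),(k3,(nat_lit 667)),(k11,
    (nat_lit 668))]]
    [] k0
    [[k2,k0,k0,k0,k0,k0],[k2,k0,k0,k0,k1,k0],[k1,k1,k0,k0,k0,k0],[k1,k1,k0,k0,k1,k0],[k1,k0,k1,k0,k0,k0],[k1,k0,k1,k0,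
    k1,k0],[k1,k0,k0,k1,k0,k0],[k1,k0,k0,k1,k1,k0],[k1,k0,k0,k1,k0,k1],[k1,k0,k0,k0,k1,k0],[k2,k0,k0,k0,k2,k0],[k1,k0,
    k0,k0,k2,k0],[k1,k0,k0,k0,k1,k1],[k1,k0,k0,k0,k0,k1],[k0,k2,k0,k0,k0,k0],[k0,k1,k1,k0,k0,k0],[k0,k1,k0,k0,k1,k0],
    [k0,k1,k0,k0,k0,k1],[k0,k0,k2,k0,k0,k0],[k0,k0,k3,k0,k0,k0],[k0,k0,k2,k1,k0,k0],[k0,k0,k2,k0,k1,k0],[k0,k0,k2,k0,
    k0,k1],[k0,k0,k1,k1,k0,k0],[k0,k0,k1,k1,k1,k0],[k0,k0,k1,k1,k0,k1],[k0,k0,k1,k0,k1,k0],[k0,k0,k1,k0,k2,k0],[k0,k0,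
    k1,k0,k1,k1],[k0,k0,k1,k0,k0,k1],[k0,k0,k0,k2,k0,k0],[k0,k0,k0,k2,k0,k1],[k0,k0,k0,k1,k1,k0],[k0,k0,k0,k1,k1,k1],
    [k0,k0,k0,k1,k0,k1],[k0,k0,k0,k1,k0,k2],[k0,k0,k0,k0,k2,k0],[k0,k0,k0,k0,k1,k1],[k0,k0,k0,k0,k0,k2]]
    [.contra [z1],.contra [y1,z1,y1,z1],.ref k178 k8 [(z1,[z1])],.ref (nat_lit 328) k0 [(z1,[z1,y1,y1]),(z1,[y1,z1,z0,
    z1])],.contra [y1,z1,y1,z1],.contra [y1,z1,y1,z1],.ref k0 k2 [(z1,[z1])],.ref (nat_lit 328) k8 [(z1,[y1,z1,z1]),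
    (z1,[z0,z0,y1,z1])],.ref (nat_lit 354) k10 [(z1,[y2,y1,z1,z1]),(z1,[z0,z0,z1]),(z1,[z1,z1,y1])],.contra [y2,z1,z0,
    z1],.contra [z1,y2],.contra [y1,z1,y1,z1],.contra [z1,y1],.contra [y1,z0,y1,z1],.contra [z1],.ref k178 k10 [(z1,
    [z1])],.ref k0 k3 [(z1,[z1])],.ref (nat_lit 328) k0 [(z1,[z1,z0,y1]),(z1,[y1,z0,z0,z1])],.contra [z1],
    .ref (nat_lit 217) k10 [(z1,[z1]),(z1,[z0,z0,z1])],.ref (nat_lit 252) k5 [(z1,[z1,z0,z2,y2]),(z1,[z0,z0,y1,z1])],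
    .ref (nat_lit 296) k10 [(z1,[z1,z0,z1,y1]),(z1,[z0,z0,z1])],.ref (nat_lit 217) k10 [(z1,[z2,z1,z1,y1]),(z1,[z0,z0,
    z1])],.ref k178 k4 [(z1,[z1])],.ref k1 k3 [(z1,[z1])],.ref (nat_lit 328) k0 [(z1,[y1,y1,y1,z1]),(z1,[z1,z1])],
    .contra [y1,z1,y1,z1],.contra [y1,z1,y1,z1],.contra [y1,z0,y1,z1],.contra [y1,z0,y1,z1],.contra [y1,z0,z2],
    .ref (nat_lit 353) k6 [(z1,[z1,z0,y2]),(z1,[y1,z0,z1,z1])],.ref k178 k3 [(z1,[z1])],.ref k1 k0 [(z1,[z1])],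
    .ref (nat_lit 328) k8 [(z1,[y1,z0,z1]),(z1,[z0,z0,y1,z1])],.ref k178 k10 [(z1,[y1,y1,z0,z1])],.contra [z1],
    .contra [y1,z0,y1,z1],.contra [z1]]),
    .geo true z3 k4 [(z0,z6),(z2,y3),(z6,y6),(z2,z0),(z0,z3),(z2,z0)] [(z1,[z3]),(z1,[z0,z1]),(z1,[z0,z0,z3]),(z1,[z0,z0,
    z0,z1]),(z1,[]),(z1,[y3,y1,y3,y1,
    z3])] z0 (Int.ofNat (nat_lit 699051)) (.s (.s (.s (.l k2) (.l k1)) (.l k1)) (.s (.s (.l k1) (.s (.l k1) (.l k1))) (.s (.l k1) (.l k1)))) [⟨z0,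
    z1,[[k0,k5],[k1,k2],[k3,k4]],.bnd k0⟩],
    .old (.lp [(nat_lit 376),(nat_lit 252),(nat_lit 418),(nat_lit 290),(nat_lit 298),(nat_lit 284)] [k118,k0,k121,k121,
    k38,k38,k148,k56,k98,k98,k92,k118] k0 [[k0,k0,k0,k44,k0,k0,k0,k36],[k0,k0,k0,k12,k0,k0,k0,k10],[k12,k44,k0,k0,k0,
    k0,k0,k0,k38],[k0,k0,k0,k0,k6,k98],[k0,k0,k98,k0,k0,k0,k40,k42],[k0,k0,k6,k0,k0,k0,k0,k0,k0,k0,k0,k154],[k10,k36,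
    k0,k0,k0,k42],[k0,k0,k0,k0,k0,k40,k0,k0,k0,k52],[k0,k0,k0,k0,k0,k0,k52,k0,k0,k0,(nat_lit 204)],[k0,k0,k0,k38],[k0,
    k0,k0,k0,k154],[k0,k0,k0,k0,k0,k0,k0,k0,k0,(nat_lit 204)]] (nat_lit 960) k6
    [[(k8,k192),(k3,(nat_lit 373)),(k0,(nat_lit 376)),(k11,(nat_lit 376)),(k7,(nat_lit 438)),(k4,(nat_lit 610))],[(k6,
    k192),(k2,(nat_lit 211)),(k10,(nat_lit 284)),(k9,(nat_lit 288)),(k5,(nat_lit 350)),(k1,(nat_lit 376))],[(k6,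
    (nat_lit 215)),(k2,(nat_lit 240)),(k10,(nat_lit 281)),(k9,(nat_lit 311)),(k1,(nat_lit 373)),(k5,(nat_lit 379))],
    [(k0,(nat_lit 211)),(k11,(nat_lit 217)),(k3,(nat_lit 240)),(k8,(nat_lit 275)),(k4,(nat_lit 341)),(k7,
    (nat_lit 415))],[(k4,(nat_lit 320)),(k11,(nat_lit 338)),(k0,(nat_lit 350)),(k3,(nat_lit 379)),(k7,(nat_lit 394)),
    (k8,(nat_lit 396))],[(k6,(nat_lit 266)),(k9,(nat_lit 318)),(k5,(nat_lit 320)),(k2,(nat_lit 341)),(k10,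
    (nat_lit 364)),(k1,(nat_lit 610))],[(k10,k192),(k6,(nat_lit 330)),(k9,(nat_lit 382)),(k5,(nat_lit 394)),(k2,
    (nat_lit 415)),(k1,(nat_lit 438))],[(k0,k192),(k3,(nat_lit 215)),(k8,(nat_lit 248)),(k4,(nat_lit 266)),(k11,
    (nat_lit 280)),(k7,(nat_lit 330))],[(k8,(nat_lit 246)),(k11,(nat_lit 278)),(k0,(nat_lit 288)),(k3,(nat_lit 311)),
    (k4,(nat_lit 318)),(k7,(nat_lit 382))],[(k1,k192),(k9,(nat_lit 246)),(k6,(nat_lit 248)),(k2,(nat_lit 275)),(k10,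
    (nat_lit 304)),(k5,(nat_lit 396))],[(k2,(nat_lit 217)),(k9,(nat_lit 278)),(k6,(nat_lit 280)),(k5,(nat_lit 338)),
    (k1,(nat_lit 376)),(k10,(nat_lit 488))],[(k7,k192),(k3,(nat_lit 281)),(k0,(nat_lit 284)),(k8,(nat_lit 304)),(k4,
    (nat_lit 364)),(k11,(nat_lit 488))]]
    [] k0
    [[k2,k0,k0,k0,k0,k0],[k2,k0,k0,k0,k1,k0],[k1,k1,k0,k0,k0,k0],[k1,k2,k0,k0,k0,k0],[k1,k1,k0,k0,k1,k0],[k1,k1,k0,k0,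
    k0,k1],[k1,k0,k0,k1,k0,k0],[k1,k1,k0,k1,k0,k0],[k1,k0,k0,k0,k1,k0],[k1,k2,k0,k0,k1,k0],[k1,k0,k1,k0,k1,k0],[k1,k0,
    k0,k1,k1,k0],[k1,k0,k0,k0,k2,k0],[k1,k0,k0,k0,k1,k1],[k1,k0,k0,k1,k1,k1],[k1,k0,k0,k0,k0,k1],[k1,k0,k0,k1,k0,k1],
    [k0,k2,k0,k0,k0,k0],[k0,k3,k0,k0,k0,k0],[k0,k2,k0,k1,k0,k0],[k0,k2,k0,k1,k0,k1],[k0,k2,k0,k0,k1,k0],[k0,k2,k0,k0,
    k0,k1],[k0,k1,k1,k0,k0,k0],[k0,k1,k0,k1,k0,k0],[k0,k1,k1,k1,k0,k0],[k0,k1,k0,k2,k0,k1],[k0,k1,k0,k1,k1,k0],[k0,k1,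
    k0,k1,k0,k1],[k0,k1,k0,k0,k1,k0],[k0,k1,k0,k0,k2,k0],[k0,k1,k0,k0,k1,k1],[k0,k1,k0,k0,k0,k1],[k0,k0,k2,k0,k0,k0],
    [k0,k0,k1,k1,k0,k0],[k0,k0,k1,k0,k1,k0],[k0,k0,k1,k0,k0,k1],[k0,k0,k1,k1,k0,k1],[k0,k0,k0,k2,k0,k0],[k0,k0,k0,k2,
    k0,k1],[k0,k0,k0,k1,k1,k0],[k0,k0,k0,k1,k2,k0],[k0,k0,k0,k1,k0,k1],[k0,k0,k0,k2,k0,k2],[k0,k0,k0,k1,k1,k1],[k0,k0,
    k0,k0,k2,k0],[k0,k0,k0,k0,k3,k0],[k0,k0,k0,k0,k2,k1],[k0,k0,k0,k0,k1,k1]]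
    [.contra [z1],.ref (nat_lit 353) k3 [(z1,[z1,y2,z0,y2]),(z1,[y1,z1,z0,z1,z1])],.contra [y1,z0,z1,y1,z1],
    .contra [z1,y1,y2],.ref k178 k2 [(z1,[z1,z0,y1])],.ref k1 k3 [(z1,[y1,z0,z0,z0,z1])],.contra [y1,z0,z1,y1,z1],
    .contra [y1,z0,z1,y1,z1],.ref (nat_lit 296) k6 [(z1,[z1,y1,y1,y1]),(z1,[z1])],.ref k1 k3 [(z1,[y1,z0,z1,z0,z1])],
    .contra [z2,y1,z0,y2],.ref (nat_lit 347) k1 [(z1,[y1,z2,z1,z2,y1]),(z1,[z0,y1,z0,y1,z1])],.contra [z1,z1],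
    .ref k1 k2 [(z1,[z1])],.ref k178 k10 [(z1,[y1,z0,z0,z0,z1])],.ref k178 k2 [(z1,[z1])],.ref k0 k0 [(z1,[y1,z0,y1,
    z0,z1])],.contra [z1],.ref (nat_lit 217) k8 [(z1,[z1]),(z1,[z0,z1,z0,z1])],.contra [y1,z0,z1,y1,z1],
    .ref k0 k0 [(z1,[z1,z1,y1,z2,y1])],.contra [y2,y1,z2,y2,z2],.ref (nat_lit 296) k11 [(z1,[z1,z1,z0,z1,y1]),(z1,[z0,
    z1,z0,z1])],.ref k178 k10 [(z1,[z1])],.contra [y1,z0,z1,y1,z1],.ref k1 k2 [(z1,[y1,z0,z0,z0,z1])],.ref k1 k3 [(z1,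
    [z1,z1,z0,z2,y1])],.contra [y2,y1,z2,y2,z2],.contra [y2,y1,z0,y2,z2],.contra [y2,z0,z1,z0,z1],.contra [y1,y1,z1,
    y1,z1],.contra [z1,z0,y1],.contra [y2,y1,z0,y2,z2],.contra [y1,z2,z0,z2],.ref k178 k4 [(z1,[z1])],.contra [y2,z1,
    z0,z2],.ref k0 k0 [(z1,[z1])],.ref k178 k2 [(z1,[y1,z0,y1,z0,z1])],.contra [z1],.ref (nat_lit 356) k2 [(z1,[z0,
    z1]),(z1,[y1,y2,z1,y2,z2]),(z1,[z0,z0,z0,z1]),(z1,[z2,z1,z1,z1,y1])],.contra [y2,y1,z2,y2,z2],.contra [y1,y1,z1,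
    y1,z1],.contra [y2,y1,z0,y2,z2],.contra [y1,y2,y2,y2,z2],.contra [y1,y1,z0,y1,z1],.contra [z1],
    .ref (nat_lit 296) k6 [(z1,[z1,z0,y1,y1]),(z1,[z1,z1])],.ref k178 k2 [(z1,[z1,z1])],.contra [y1,y1,z0,y1,z1]])]

noncomputable def cU6_2_n6_2 : List XN :=
  [.geo true z1 k5 [(y2,z6),(z0,z2),(z2,y4),(z2,y2),(z2,y3),(z0,z1)] [(z1,[z1]),(z1,[z0,z1]),(z1,[z0,z0,z1]),(z1,[z0,z0,
    z0,z1]),(z1,[y1,y1,y1,y1,z1]),(z1,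
    [])] (Int.ofNat (nat_lit 349525)) (Int.ofNat (nat_lit 524288)) (.s (.l k1) (.s (.s (.l k1) (.l k1)) (.l k1))) [],
    .geo true z1 k5 [(y2,z6),(y2,z4),(z4,y6),(z2,y2),(z2,y3),(z0,z1)] [(z1,[z1]),(z1,[z0,z1]),(z1,[z0,z0,z1]),(z1,[z0,z0,
    z0,z1]),(z1,[y1,y1,y1,y1,z1]),(z1,
    [])] (Int.ofNat (nat_lit 524288)) (Int.ofNat (nat_lit 699051)) (.s (.s (.s (.l k1) (.l k1)) (.s (.l k1) (.l k1))) (.s (.l k1) (.l k2))) [⟨z2,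
    z3,[[k0,k5],[k1,k2],[k3,k4]],.bnd k0⟩],
    .geo true z1 k5 [(z0,z4),(z1,y1),(z1,y2),(z0,z2),(z2,y4),(z0,z1)] [(z1,[z1]),(z1,[z0,z1]),(z1,[z0,z0,z1]),(z1,[z0,z0,
    z0,z1]),(z1,[y1,y1,y1,y1,z1]),(z1,
    [])] z0 (Int.ofNat (nat_lit 524288)) (.s (.s (.l k1) (.s (.l k1) (.l k1))) (.s (.s (.l k1) (.l k1)) (.s (.l k1) (.s (.l k1) (.l k2))))) [⟨z1,
    z2,[[k0,k5],[k1,k2],[k3,k4]],.bnd k0⟩],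
    .geo true z1 k5 [(y2,z4),(z2,y2),(y4,z8),(z2,y3),(z6,y8),(z0,z1)] [(z1,[z1]),(z1,[z0,z1]),(z1,[z0,z0,z1]),(z1,[z0,z0,
    z0,z1]),(z1,[y1,y1,y1,y1,z1]),(z1,
    [])] (Int.ofNat (nat_lit 524288)) (Int.ofNat (nat_lit 699051)) (.s (.s (.l k2) (.l k1)) (.s (.l k3) (.l k1))) [⟨z1,
    z2,[[k0,k2],[k1,k5],[k3,k4]],.bnd k0⟩,⟨z3,z5,[[k0,k4],[k1,k3],[k2,k5]],.child (.ref k0 k3 [(z1,[y2,y1,z0,y1,y1,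
    z1])])⟩],
    .old (.lp [(nat_lit 664),(nat_lit 592),(nat_lit 682),(nat_lit 884),(nat_lit 402),(nat_lit 604)] [(nat_lit 208),
    (nat_lit 208),k30,(nat_lit 458),k199,k199,k196,k0,(nat_lit 339),(nat_lit 339),(nat_lit 238),
    (nat_lit 238)] k0 [[k0,k0,k0,k0,k0,k0,k0,(nat_lit 220)],[k0,k0,k0,k112],[k112,k0,k0,k0,k0,k0,k0,k0,(nat_lit 428)],
    [],[k0,k0,k0,k0,k0,k0,k0,(nat_lit 226)],[k0,k0,k0,k0,k0,k0,k0,k0,k0,k0,k0,(nat_lit 458)],[k0,(nat_lit 220),k0,k0,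
    k0,(nat_lit 226)],[k0,k0,k0,k0,k0,k0,k0,k0,k104],[k0,k0,k0,k0,k0,k0,k0,k0,k0,k0,k36,k12],[k0,k0,k0,(nat_lit 428),
    k0,k0,k104],[k0,k0,k0,k0,(nat_lit 458),k0,k0,k0,k0,k12],[k0,k0,k0,k0,k0,k0,k0,k0,k0,k36]] (nat_lit 1920) k6
    [[(k3,(nat_lit 414)),(k8,(nat_lit 497)),(k11,(nat_lit 646)),(k0,(nat_lit 664)),(k7,(nat_lit 872)),(k4,
    (nat_lit 1131))],[(k6,(nat_lit 456)),(k9,(nat_lit 533)),(k10,(nat_lit 634)),(k1,(nat_lit 664)),(k5,(nat_lit 785)),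
    (k2,(nat_lit 842))],[(k10,(nat_lit 384)),(k1,(nat_lit 414)),(k5,(nat_lit 423)),(k6,(nat_lit 426)),(k2,
    (nat_lit 480)),(k9,(nat_lit 503))],[(k11,(nat_lit 384)),(k3,(nat_lit 480)),(k8,(nat_lit 711)),(k0,(nat_lit 842)),
    (k4,(nat_lit 851)),(k7,(nat_lit 1050))],[(k3,(nat_lit 423)),(k11,(nat_lit 643)),(k4,(nat_lit 682)),(k0,
    (nat_lit 785)),(k7,(nat_lit 881)),(k8,(nat_lit 970))],[(k6,(nat_lit 459)),(k9,(nat_lit 542)),(k10,(nat_lit 643)),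
    (k5,(nat_lit 682)),(k2,(nat_lit 851)),(k1,(nat_lit 1131))],[(k10,(nat_lit 384)),(k1,(nat_lit 872)),(k5,
    (nat_lit 881)),(k6,(nat_lit 884)),(k9,(nat_lit 967)),(k2,(nat_lit 1050))],[(k3,(nat_lit 426)),(k0,(nat_lit 456)),
    (k4,(nat_lit 459)),(k11,(nat_lit 646)),(k8,(nat_lit 649)),(k7,(nat_lit 884))],[(k11,(nat_lit 399)),(k8,
    (nat_lit 402)),(k3,(nat_lit 503)),(k0,(nat_lit 533)),(k4,(nat_lit 542)),(k7,(nat_lit 967))],[(k9,(nat_lit 402)),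
    (k10,(nat_lit 491)),(k1,(nat_lit 497)),(k6,(nat_lit 649)),(k2,(nat_lit 711)),(k5,(nat_lit 970))],[(k2,
    (nat_lit 384)),(k9,(nat_lit 399)),(k10,(nat_lit 640)),(k5,(nat_lit 643)),(k1,(nat_lit 646)),(k6,(nat_lit 646))],
    [(k3,(nat_lit 384)),(k7,(nat_lit 384)),(k8,(nat_lit 491)),(k0,(nat_lit 634)),(k11,(nat_lit 640)),(k4,
    (nat_lit 643))]]
    [[k0,k3,k3,k11],[k0,k4],[k1,k5],[k1,k10,k2,k2],[k4,k8,k8],[k5,k9,k9],[k6,k6,k10],[k6,k10,k6],[k7,k7,k11],[k7,k11,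
    k7]] k2
    [[k2,k0,k0,k0,k0,k0],[k2,k0,k0,k0,k1,k0],[k1,k1,k0,k0,k0,k0],[k1,k2,k0,k0,k0,k0],[k1,k1,k0,k0,k1,k0],[k1,k1,k0,k0,
    k0,k1],[k1,k1,k0,k1,k0,k1],[k1,k1,k0,k0,k1,k1],[k1,k0,k0,k1,k0,k0],[k1,k0,k0,k0,k1,k0],[k1,k0,k1,k0,k1,k0],[k1,k0,
    k0,k0,k2,k0],[k1,k0,k0,k0,k3,k0],[k1,k0,k0,k0,k1,k1],[k1,k0,k0,k1,k1,k1],[k1,k0,k0,k0,k0,k1],[k1,k0,k0,k1,k0,k1],
    [k0,k2,k0,k0,k0,k0],[k0,k3,k0,k0,k0,k0],[k0,k3,k0,k0,k0,k1],[k0,k2,k1,k0,k0,k0],[k0,k2,k0,k1,k0,k1],[k0,k2,k0,k0,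
    k1,k0],[k0,k2,k0,k0,k1,k1],[k0,k2,k0,k0,k0,k1],[k0,k2,k0,k0,k0,k2],[k0,k1,k1,k0,k0,k0],[k0,k1,k1,k1,k0,k1],[k0,k1,
    k1,k0,k1,k0],[k0,k1,k1,k0,k1,k1],[k0,k1,k1,k0,k0,k1],[k0,k1,k0,k1,k0,k0],[k0,k1,k0,k1,k0,k1],[k0,k1,k0,k1,k0,k2],
    [k0,k1,k0,k0,k1,k0],[k0,k1,k0,k0,k2,k0],[k0,k1,k0,k0,k2,k1],[k0,k1,k0,k0,k1,k1],[k0,k1,k0,k0,k0,k1],[k0,k1,k0,k0,
    k1,k2],[k0,k1,k0,k0,k0,k2],[k0,k0,k2,k0,k0,k0],[k0,k0,k1,k1,k0,k0],[k0,k0,k1,k0,k1,k0],[k0,k0,k1,k0,k0,k1],[k0,k0,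
    k1,k1,k0,k1],[k0,k0,k1,k0,k1,k1],[k0,k0,k0,k2,k0,k0],[k0,k0,k0,k1,k1,k0],[k0,k0,k0,k1,k0,k1],[k0,k0,k0,k1,k1,k1],
    [k0,k0,k0,k1,k2,k1],[k0,k0,k0,k1,k0,k2],[k0,k0,k0,k0,k2,k0],[k0,k0,k0,k0,k3,k0],[k0,k0,k0,k0,k4,k0],[k0,k0,k0,k0,
    k3,k1],[k0,k0,k0,k0,k2,k1],[k0,k0,k0,k0,k1,k1],[k0,k0,k0,k0,k2,k2],[k0,k0,k0,k0,k1,k2],[k0,k0,k0,k0,k0,k2]]
    [.contra [z1],.ref (nat_lit 353) k3 [(z1,[z1,y2,z0,y2]),(z1,[y1,z1,z0,z1,z1])],.contra [y1,z1,z1],.contra [z1,y3,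
    y2,y2,z2],.ref k0 k2 [(z1,[z1,y1,y1,y1,z1])],.contra [y1,z1,z1],.contra [z2,z1,z0,z2,y2],.ref k178 k4 [(z1,[y1,z0,
    z0,z0,z1])],.ref k0 k2 [(z1,[z1])],.ref (nat_lit 328) k3 [(z1,[z1,y1,z0,y1]),(z1,[y1,z0,z0,z0,z1])],.contra [z2,
    y1,z0,y2],.contra [z1,z1],.ref (nat_lit 353) k3 [(z1,[z1,y1,z0,y2]),(z1,[y1,z0,z0,z1,z1])],.ref k1 k2 [(z1,[z1])],
    .ref k178 k10 [(z1,[y1,z0,z0,z0,z1])],.contra [y1,z1,z1],.ref k178 k4 [(z1,[y1,y1,y1,y1,z2])],.contra [z1],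
    .ref (nat_lit 217) k8 [(z1,[z1]),(z1,[z0,z1,z0,z1])],.ref k178 k10 [(z1,[z1,z0,y1,z1])],.ref k178 k4 [(z2,[z1,y2,
    y2,y1,z2])],.ref k178 k4 [(z1,[z1,z0,y1,z1])],.contra [y1,z0,z1],.contra [y2,z1,z2],.contra [y1,z1,z1],
    .ref k0 k0 [(z1,[z1,z0,y1,z1])],.ref k178 k10 [(z1,[z1])],.ref (nat_lit 328) k3 [(z1,[y1,y1,z0,y1,z1]),(z1,[z1])],
    .ref k178 k4 [(z1,[z1,y1,y1,y1,z1])],.ref k0 k2 [(z1,[y1,z0,z0,z0,z1])],.ref (nat_lit 358) k0 [(z1,[z2,z0,y1,y2]),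
    (z1,[z0,z1]),(z1,[y1,z0,z1,z1]),(z1,[z0,z0,z0,z1])],.contra [y1,y1,z0,y1,z1],.contra [y2,y1,z0,y2,z2],
    .ref (nat_lit 347) k2 [(z1,[y1,z2,z1,z1,y1]),(z1,[z0,y1,z0,y1,z1])],.contra [y2,z0,z1,z1],.contra [y1,z0,z1],
    .contra [y1,z0,z1],.contra [y2,z1,z2],.contra [y1,z1,z1],.ref (nat_lit 357) k2 [(z1,[z0,z1]),(z1,[y1,z0,z1]),(z1,
    [z0,z0,z0,z1])],.ref (nat_lit 359) k1 [(z1,[z2,z6,z2,z7,y6]),(z1,[z1,z4,z2,z4,y4]),(z1,[y2,y5,y2,y6,z6]),(z1,[z0,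
    y2,y1,y2,z2])],.contra [y1,z2,z0,z2],.ref k178 k4 [(z1,[z1])],.contra [y2,z1,z0,z2],.ref k0 k0 [(z1,[z1])],
    .ref k0 k2 [(z1,[y1,y1,y1,y1,z2])],.ref (nat_lit 347) k2 [(z1,[y1,z3,z1,z3,y2]),(z1,[z0,y1,z0,y1,z1])],
    .contra [z1],.contra [y1,y1,z0,y1,z1],.contra [y2,y1,z0,y2,z2],.contra [y1,y1,z0,y1,z1],.ref k178 k4 [(z1,[y1,y2,
    y1,y1,z2])],.ref (nat_lit 357) k2 [(z1,[z0,z1]),(z1,[y1,y1,z0,y1,z1]),(z1,[z0,z0,z0,z1])],.contra [z1],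
    .ref (nat_lit 328) k3 [(z1,[z1,z0,z0,y1]),(z1,[y1,y1,z0,z0,z1])],.contra [z1,z2],.ref k1 k2 [(z1,[z1,z1])],
    .contra [y1,z0,z1],.contra [y2,z1,z2],.ref (nat_lit 360) k10 [(z1,[z1,z0,y2,z1]),(z2,[y1,y2,z0,y2,z2]),(z2,[y1,z0,
    z2]),(z1,[z1,z0,y1])],.ref (nat_lit 361) k3 [(z1,[z1,z4,z2,z4,y4]),(z1,[z0,y2,y1,y2,z2]),(z1,[z2,z9,z4,z8,y8]),
    (z1,[y1,y3,y1,y3,z3])],.contra [z1]]),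
    .old (.lp [k90,k72,k98,k75,k72,k72] [k8,k8,k17,k17,k4,k4,k31,k0,k17,k17,k17,k17] k0 [[k0,k0,k0,k9,k0,k0,k14,k3],[k0,
    k0,k0,k11,k0,k0,k0,k0,k0,k0,k0,k2],[k11,k9],[k0,k0,k0,k0,k0,k18,k0,k0,k0,k2],[k0,k0,k18,k0,k0,k0,k5,k13],[k0,k0,
    k0,k0,k0,k0,k0,k0,k0,k0,k0,k41],[k0,k3,k0,k0,k0,k13,k0,k0,k10],[k0,k14,k0,k0,k0,k5],[k0,k0,k2],[k0,k0,k0,k0,k0,k0,
    k0,k10,k0,k0,k14],[k2,k0,k0,k0,k41],[k0,k0,k0,k0,k0,k0,k0,k0,k14]] (nat_lit 240) k6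
    [[(k11,k67),(k3,k81),(k8,k81),(k0,k92),(k7,k98),(k4,k135)],[(k6,k64),(k9,k67),(k2,k72),(k10,k81),(k1,k92),(k5,
    k105)],[(k2,k61),(k10,k70),(k6,k72),(k9,k75),(k1,k81),(k5,k94)],[(k3,k61),(k0,k72),(k8,k72),(k11,k74),(k4,k85),
    (k7,k107)],[(k4,k80),(k8,k83),(k11,k85),(k3,k94),(k7,k102),(k0,k105)],[(k6,k58),(k5,k80),(k9,k80),(k2,k85),(k10,
    k85),(k1,k135)],[(k10,k48),(k6,k80),(k1,k98),(k5,k102),(k9,k102),(k2,k107)],[(k11,k48),(k4,k58),(k8,k58),(k0,k64),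
    (k3,k72),(k7,k80)],[(k0,k67),(k11,k72),(k3,k75),(k4,k80),(k8,k82),(k7,k102)],[(k6,k58),(k2,k72),(k1,k81),(k9,k82),
    (k5,k83),(k10,k86)],[(k6,k48),(k1,k67),(k9,k72),(k10,k72),(k2,k74),(k5,k85)],[(k7,k48),(k3,k70),(k11,k72),(k0,
    k81),(k4,k85),(k8,k86)]]
    [] k0
    [[k2,k0,k0,k0,k0,k0],[k1,k1,k0,k0,k0,k0],[k1,k2,k0,k0,k0,k0],[k1,k1,k0,k0,k1,k0],[k1,k1,k0,k0,k0,k1],[k1,k0,k0,k1,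
    k0,k0],[k1,k0,k0,k1,k1,k0],[k1,k0,k0,k1,k0,k1],[k1,k0,k0,k0,k1,k0],[k1,k0,k0,k0,k2,k0],[k1,k0,k0,k0,k1,k1],[k1,k0,
    k0,k0,k0,k1],[k1,k0,k0,k0,k0,k2],[k0,k2,k0,k0,k0,k0],[k0,k3,k0,k0,k0,k0],[k0,k2,k0,k0,k1,k0],[k0,k2,k0,k0,k0,k1],
    [k0,k1,k1,k0,k0,k0],[k0,k1,k0,k1,k0,k0],[k0,k1,k0,k1,k0,k1],[k0,k1,k0,k0,k1,k0],[k0,k1,k0,k0,k2,k0],[k0,k1,k0,k0,
    k1,k1],[k0,k1,k0,k0,k0,k1],[k0,k1,k0,k0,k0,k2],[k0,k0,k2,k0,k0,k0],[k0,k0,k1,k1,k0,k0],[k0,k0,k1,k1,k0,k1],[k0,k0,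
    k1,k0,k1,k0],[k0,k0,k1,k0,k0,k1],[k0,k0,k0,k2,k0,k0],[k0,k0,k0,k2,k0,k1],[k0,k0,k0,k1,k1,k0],[k0,k0,k0,k1,k1,k1],
    [k0,k0,k0,k1,k0,k1],[k0,k0,k0,k2,k0,k2],[k0,k0,k0,k1,k0,k2],[k0,k0,k0,k0,k2,k0],[k0,k0,k0,k0,k1,k1],[k0,k0,k0,k0,
    k1,k2],[k0,k0,k0,k0,k0,k2],[k0,k0,k0,k0,k0,k3]]
    [.contra [z1],.contra [y1,z1,z1],.ref (nat_lit 252) k2 [(z1,[z1,z2,z0,z2,y2]),(z1,[z0,y1,z0,y1,z1])],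
    .ref k1 k3 [(z1,[y1,y1,y1,y1,z2])],.ref k1 k3 [(z1,[y1,z0,z0,z0,z1])],.contra [y1,z1,z1],.ref k27 k0 [(z1,[z0,y1,
    y1,z0,z1]),(z1,[z1])],.ref k27 k0 [(z1,[z0,y1,y1,z0,z1]),(z1,[z1,y1,y1,y1,z1])],.ref k178 k2 [(z1,[z1,z1,z1,z1,
    y1])],.contra [z1,z3,z2,z2,y2],.contra [z1,z2,z1,z1,y1],.ref k178 k2 [(z1,[z1])],.contra [z1,z1],.contra [z1],
    .ref (nat_lit 217) k8 [(z1,[z1]),(z1,[z0,z1,z0,z1])],.ref (nat_lit 296) k11 [(z1,[z1,z2,z1,z2,y2]),(z1,[z0,z1,z0,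
    z1])],.ref (nat_lit 296) k11 [(z1,[z1,z1,z0,z1,y1]),(z1,[z0,z1,z0,z1])],.ref k178 k10 [(z1,[z1])],.contra [y1,z1,
    z1],.contra [y2,z1,z2],.contra [y2,y1,z0,y2,z2],.contra [y1,y2,y1,y2,z2],.contra [y1,y1,z0,y1,z1],.contra [y2,z1,
    z2],.contra [y1,z0,z1],.contra [y1,z2,z0,z2],.ref k178 k4 [(z1,[z1])],.ref k1 k3 [(z1,[z1,y1,y1,y1,z1])],
    .contra [y2,y1,y2,z0,z2],.contra [y2,z1,z0,z2],.contra [z1],.ref (nat_lit 347) k2 [(z1,[y1,z2,z1,z1,y1]),(z1,[z0,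
    y1,z0,y1,z1])],.contra [y2,y1,z0,y2,z2],.contra [y1,y1,z0,y1,z1],.contra [y2,z1,z2],.ref (nat_lit 252) k2 [(z1,
    [y1,z3,z2,z2,y2]),(z1,[z0,y1,z0,y1,z1])],.contra [y1,z0,z1],.contra [z1],.contra [z1,y1,y1,y1,z1],
    .ref k178 k2 [(z1,[z1,z2,z1,z1,y1])],.contra [z1,y2,y2,y2,z2],.ref k178 k2 [(z1,[z1,z1])]]),
    .old (.lp [(nat_lit 324),(nat_lit 318),(nat_lit 320),(nat_lit 318),(nat_lit 318),(nat_lit 320)] [k108,k108,k111,k111,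
    k110,k110,(nat_lit 222),k0,k111,k111,k110,k110] k0 [[k0,k0,k0,k0,k0,k0,k0,k0,k0,k0,k4,k2],[k0,k0,k0,k78],[k78,k0,
    k0,k0,k2],[k0,k0,k0,k0,k0,k0,k0,k0,k0,k2],[k0,k0,k0,k0,k0,k0,k8],[k0,k0,k0,k2,k0,k0,k0,k0,k0,k0,k0,(nat_lit 238)],
    [k0,k0,k0,k0,k0,k0,k0,k0,k14],[k0,k0,k0,k0,k0,k8],[k0,k0,k2],[k0,k0,k0,k0,k0,k0,k0,k14,k0,k0,k2],[k0,k2,k0,k0,
    (nat_lit 238)],[k0,k4,k0,k0,k0,k0,k0,k0,k2]] (nat_lit 960) k6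
    [[(k0,(nat_lit 320)),(k11,(nat_lit 320)),(k8,(nat_lit 321)),(k3,(nat_lit 323)),(k7,(nat_lit 432)),(k4,
    (nat_lit 560))],[(k6,(nat_lit 210)),(k1,(nat_lit 320)),(k10,(nat_lit 320)),(k2,(nat_lit 321)),(k9,(nat_lit 321)),
    (k5,(nat_lit 400))],[(k6,(nat_lit 207)),(k2,(nat_lit 240)),(k9,(nat_lit 318)),(k5,(nat_lit 319)),(k1,
    (nat_lit 323)),(k10,(nat_lit 323))],[(k3,(nat_lit 240)),(k8,(nat_lit 318)),(k4,(nat_lit 319)),(k0,(nat_lit 321)),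
    (k11,(nat_lit 321)),(k7,(nat_lit 427))],[(k8,(nat_lit 317)),(k3,(nat_lit 319)),(k11,(nat_lit 320)),(k4,
    (nat_lit 322)),(k0,(nat_lit 400)),(k7,(nat_lit 430))],[(k6,(nat_lit 208)),(k9,(nat_lit 311)),(k2,(nat_lit 319)),
    (k10,(nat_lit 320)),(k5,(nat_lit 322)),(k1,(nat_lit 560))],[(k10,k192),(k6,(nat_lit 326)),(k2,(nat_lit 427)),(k9,
    (nat_lit 429)),(k5,(nat_lit 430)),(k1,(nat_lit 432))],[(k11,k194),(k3,(nat_lit 207)),(k8,(nat_lit 207)),(k4,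
    (nat_lit 208)),(k0,(nat_lit 210)),(k7,(nat_lit 326))],[(k4,(nat_lit 311)),(k3,(nat_lit 318)),(k11,(nat_lit 319)),
    (k0,(nat_lit 321)),(k8,(nat_lit 332)),(k7,(nat_lit 429))],[(k6,(nat_lit 207)),(k5,(nat_lit 317)),(k2,
    (nat_lit 318)),(k1,(nat_lit 321)),(k10,(nat_lit 321)),(k9,(nat_lit 332))],[(k6,k194),(k9,(nat_lit 319)),(k1,
    (nat_lit 320)),(k5,(nat_lit 320)),(k10,(nat_lit 320)),(k2,(nat_lit 321))],[(k7,k192),(k0,(nat_lit 320)),(k4,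
    (nat_lit 320)),(k11,(nat_lit 320)),(k8,(nat_lit 321)),(k3,(nat_lit 323))]]
    [] k0
    [[k2,k0,k0,k0,k0,k0],[k1,k1,k0,k0,k0,k0],[k1,k2,k0,k0,k0,k0],[k1,k0,k0,k1,k0,k0],[k1,k0,k0,k1,k0,k1],[k1,k0,k0,k0,
    k1,k0],[k1,k0,k0,k0,k0,k1],[k0,k2,k0,k0,k0,k0],[k0,k3,k0,k0,k0,k0],[k0,k2,k1,k0,k0,k0],[k0,k2,k0,k1,k0,k0],[k0,k2,
    k0,k0,k1,k0],[k0,k2,k0,k0,k0,k1],[k0,k1,k1,k0,k0,k0],[k0,k1,k1,k1,k0,k0],[k0,k1,k1,k0,k1,k0],[k0,k1,k0,k1,k0,k0],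
    [k0,k1,k0,k1,k1,k0],[k0,k1,k0,k1,k0,k1],[k0,k1,k0,k0,k1,k0],[k0,k1,k0,k0,k0,k1],[k0,k0,k2,k0,k0,k0],[k0,k0,k2,k0,
    k1,k0],[k0,k0,k1,k1,k0,k0],[k0,k0,k1,k1,k1,k0],[k0,k0,k1,k1,k0,k1],[k0,k0,k1,k0,k1,k0],[k0,k0,k1,k0,k1,k1],[k0,k0,
    k1,k0,k0,k1],[k0,k0,k0,k2,k0,k0],[k0,k0,k0,k2,k0,k1],[k0,k0,k0,k1,k1,k0],[k0,k0,k0,k1,k1,k1],[k0,k0,k0,k1,k0,k1],
    [k0,k0,k0,k2,k0,k2],[k0,k0,k0,k1,k0,k2],[k0,k0,k0,k0,k2,k0],[k0,k0,k0,k0,k1,k1],[k0,k0,k0,k0,k0,k2]]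
    [.contra [z1],.ref k178 k8 [(z1,[z1])],.ref (nat_lit 252) k2 [(z1,[z1,z0,y2]),(z1,[z0,z0,z1])],.ref k0 k2 [(z1,
    [z1])],.ref (nat_lit 252) k1 [(z1,[y2,z1,y1,z1]),(z1,[z0,z0,z1])],.ref (nat_lit 328) k3 [(z1,[z1,z0,z1,y1]),(z1,
    [y1,z0,z0,z1])],.ref k178 k2 [(z1,[z1])],.contra [z1],.ref (nat_lit 217) k8 [(z1,[z1]),(z1,[z0,z0,y1,z1])],
    .ref (nat_lit 252) k1 [(z1,[z1,z0,y2]),(z1,[z0,z0,z1])],.ref (nat_lit 296) k8 [(z1,[z1,z0,y1]),(z1,[z0,z0,y1,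
    z1])],.ref (nat_lit 301) k10 [(z1,[z0,z0,y1,z1]),(z1,[y1,z0,z1])],.ref (nat_lit 296) k11 [(z1,[z1,z0,y1]),(z1,[z0,
    z0,y1,z1])],.ref k178 k10 [(z1,[z1])],.ref k1 k2 [(z1,[y1,z0,z0,z1])],.ref (nat_lit 252) k1 [(z1,[z2,z1,y1,y1]),
    (z1,[z0,z0,z1])],.contra [y1,z0,z1],.contra [y1,z0,z1],.contra [y2,z1,z2],.contra [y1,z0,z1],.contra [y2,z1,z2],
    .contra [y1,z0,y2,z2],.ref (nat_lit 328) k3 [(z1,[y1,y1,y1,z1]),(z1,[z1,z1,z2,y1])],.ref k178 k4 [(z1,[z1])],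
    .ref k1 k3 [(z1,[z1])],.ref (nat_lit 342) k2 [(z1,[y1,z0,y1,z1]),(z1,[z0,z0,z1])],.contra [y2,y1,y2,z2],
    .ref (nat_lit 363) k2 [(z1,[y2,y1,y2,z2]),(z1,[z1,z1,z2,y1]),(z1,[z2,z1,z1,y1])],.ref k0 k0 [(z1,[z1])],
    .contra [z1],.ref (nat_lit 362) k2 [(z1,[z0,z1]),(z1,[y1,z0,z2]),(z1,[z0,y1,y1,z1])],.contra [y1,z0,z1],
    .contra [y1,z0,z1],.contra [y2,z1,z2],.ref (nat_lit 252) k2 [(z1,[y1,z1]),(z1,[z0,z0,z1])],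
    .ref (nat_lit 357) k2 [(z1,[z0,z1]),(z1,[y1,z0,z1]),(z1,[z0,y1,y1,z1])],.contra [z1],.contra [y1,z0,z1],
    .contra [z1]]),
    .old (.lp [(nat_lit 85542),(nat_lit 100068),(nat_lit 85542),(nat_lit 85542),(nat_lit 72630),
    (nat_lit 86618)] [(nat_lit 25018),(nat_lit 25018),(nat_lit 17755),(nat_lit 17755),(nat_lit 29322),(nat_lit 20714),
    (nat_lit 25018),(nat_lit 25018),(nat_lit 7264),(nat_lit 55684),(nat_lit 48960),k0] k0 [[k0,k0,(nat_lit 38198),k0,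
    k0,k0,k0,(nat_lit 17754)],[k0,k0,(nat_lit 33894),k0,k0,k0,k0,k0,k0,k0,k0,(nat_lit 538)],[k0,k0,k0,k0,
    (nat_lit 20982),k0,k0,k0,(nat_lit 66174)],[(nat_lit 33894),(nat_lit 38198)],[k0,k0,k0,k0,k0,k0,k0,k0,k0,k0,
    (nat_lit 538),(nat_lit 1614)],[k0,k0,k0,(nat_lit 20982),k0,k0,k0,(nat_lit 33894)],[k0,(nat_lit 17754),k0,k0,
    (nat_lit 33894)],[k0,k0,k0,k0,k0,k0,k0,k0,(nat_lit 3228),(nat_lit 2152)],[k0,k0,k0,k0,k0,k0,(nat_lit 2152),k0,k0,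
    k0,(nat_lit 51648)],[k0,k0,k0,(nat_lit 66174),k0,k0,(nat_lit 3228)],[(nat_lit 538),k0,k0,k0,k0,(nat_lit 1614)],
    [k0,k0,k0,k0,k0,(nat_lit 538),k0,k0,k0,(nat_lit 51648)]] (nat_lit 258240) k6
    [[(k8,(nat_lit 51648)),(k4,(nat_lit 80700)),(k0,(nat_lit 86080)),(k7,(nat_lit 87156)),(k3,(nat_lit 92805)),(k11,
    (nat_lit 110560))],[(k5,(nat_lit 51648)),(k9,(nat_lit 54876)),(k10,(nat_lit 61600)),(k6,(nat_lit 67788)),(k1,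
    (nat_lit 86080)),(k2,(nat_lit 126699))],[(k5,(nat_lit 63215)),(k10,(nat_lit 68325)),(k9,(nat_lit 79893)),(k1,
    (nat_lit 92805)),(k6,(nat_lit 92805)),(k2,(nat_lit 138266))],[(k11,(nat_lit 51649)),(k7,(nat_lit 71823)),(k4,
    (nat_lit 88501)),(k8,(nat_lit 110559)),(k0,(nat_lit 126699)),(k3,(nat_lit 138266))],[(k0,(nat_lit 51648)),(k3,
    (nat_lit 63215)),(k7,(nat_lit 89846)),(k4,(nat_lit 106524)),(k11,(nat_lit 114864)),(k8,(nat_lit 173774))],[(k10,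
    (nat_lit 55682)),(k1,(nat_lit 80700)),(k6,(nat_lit 81238)),(k9,(nat_lit 84466)),(k2,(nat_lit 88501)),(k5,
    (nat_lit 106524))],[(k6,(nat_lit 51648)),(k9,(nat_lit 54876)),(k10,(nat_lit 62138)),(k2,(nat_lit 71823)),(k1,
    (nat_lit 87156)),(k5,(nat_lit 89846))],[(k7,(nat_lit 51648)),(k0,(nat_lit 67788)),(k4,(nat_lit 81238)),(k3,
    (nat_lit 92805)),(k8,(nat_lit 106524)),(k11,(nat_lit 112712))],[(k0,(nat_lit 54876)),(k7,(nat_lit 54876)),(k8,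
    (nat_lit 70478)),(k11,(nat_lit 76666)),(k3,(nat_lit 79893)),(k4,(nat_lit 84466))],[(k1,(nat_lit 51648)),(k9,
    (nat_lit 70478)),(k10,(nat_lit 79354)),(k6,(nat_lit 106524)),(k2,(nat_lit 110559)),(k5,(nat_lit 173774))],[(k2,
    (nat_lit 51649)),(k9,(nat_lit 76666)),(k1,(nat_lit 110560)),(k6,(nat_lit 112712)),(k5,(nat_lit 114864)),(k10,
    (nat_lit 138266))],[(k4,(nat_lit 55682)),(k0,(nat_lit 61600)),(k7,(nat_lit 62138)),(k3,(nat_lit 68325)),(k8,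
    (nat_lit 79354)),(k11,(nat_lit 138266))]]
    [] k0
    [[k2,k0,k0,k0,k0,k0],[k2,k0,k1,k0,k0,k0],[k2,k0,k0,k1,k0,k0],[k2,k0,k0,k0,k1,k0],[k1,k1,k0,k0,k0,k0],[k1,k1,k1,k0,
    k0,k0],[k1,k1,k0,k1,k0,k0],[k1,k1,k0,k0,k0,k1],[k1,k1,k1,k0,k0,k1],[k1,k0,k1,k0,k0,k0],[k2,k0,k1,k0,k1,k0],[k1,k0,
    k2,k0,k0,k0],[k1,k0,k1,k1,k0,k0],[k1,k0,k1,k0,k0,k1],[k1,k0,k0,k1,k0,k0],[k1,k0,k0,k2,k0,k0],[k1,k0,k0,k1,k1,k0],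
    [k1,k0,k0,k0,k1,k0],[k2,k0,k0,k0,k2,k0],[k1,k1,k0,k0,k1,k1],[k1,k0,k1,k0,k1,k0],[k1,k0,k1,k1,k1,k0],[k1,k0,k0,k2,
    k1,k0],[k1,k0,k0,k0,k2,k0],[k1,k0,k0,k1,k2,k0],[k1,k0,k0,k0,k3,k0],[k1,k0,k0,k0,k1,k1],[k1,k0,k1,k0,k1,k1],[k1,k0,
    k0,k0,k0,k1],[k1,k0,k0,k1,k0,k1],[k0,k1,k1,k0,k0,k0],[k0,k1,k1,k1,k0,k0],[k0,k1,k1,k0,k0,k1],[k0,k1,k0,k1,k0,k0],
    [k0,k1,k0,k2,k0,k0],[k0,k1,k0,k1,k0,k1],[k0,k1,k0,k0,k1,k0],[k0,k1,k0,k0,k1,k1],[k0,k1,k0,k0,k0,k1],[k0,k2,k0,k0,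
    k0,k2],[k0,k0,k2,k0,k0,k0],[k0,k0,k1,k1,k0,k0],[k0,k0,k1,k2,k0,k0],[k0,k0,k1,k0,k0,k1],[k0,k0,k0,k2,k0,k0],[k0,k0,
    k0,k3,k0,k0],[k0,k0,k0,k4,k0,k0],[k0,k0,k0,k2,k1,k0],[k0,k0,k0,k2,k0,k1],[k0,k0,k0,k1,k1,k0],[k0,k0,k0,k1,k2,k0],
    [k0,k0,k0,k1,k1,k1],[k0,k0,k0,k1,k0,k1],[k0,k0,k0,k0,k2,k0],[k0,k0,k0,k0,k3,k0],[k0,k0,k0,k0,k2,k1],[k0,k0,k0,k0,
    k1,k1]]
    [.contra [z1],.contra [z1,z0,z1,y1],.ref (nat_lit 355) k8 [(z1,[y1,z1,z1]),(z1,[z0,y1,y1,z1])],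
    .ref (nat_lit 364) k10 [(z1,[y1,y1,y1,z1]),(z1,[z0,z1,z1])],.contra [y1,z1,z1],.contra [z1,z0,z1,y1],.contra [y1,
    z1,z1],.contra [y1,z1,z1],.ref k178 k3 [(z1,[y1,z0,z0,z1])],.contra [y1,z0,y2,z2],.contra [y1,y1,y3,z3],
    .contra [z1,z0,z1,y1],.contra [z1,z0,z1,y1],.contra [z1,z0,z1,y1],.contra [y1,z1,z1],.ref (nat_lit 301) k3 [(z1,
    [z0,y1,y1,z1]),(z1,[y1,z1,z1])],.ref (nat_lit 342) k9 [(z1,[z1,y1,y1]),(z1,[z0,z1,z1])],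
    .ref (nat_lit 328) k10 [(z1,[y1,y1,y1,z1]),(z1,[z0,z1,z1])],.contra [y1,y2,y4,z4],.ref k178 k4 [(z1,[y1,z0,z0,
    z1])],.contra [y1,y1,y2,z2],.contra [z1,z1,z1,y1],.ref (nat_lit 347) k9 [(z1,[z1,y2,y2]),(z1,[z0,z1,z1])],
    .contra [y1,y2,y3,z3],.contra [z1,z2],.contra [z1,z3,y1,z1],.ref k1 k2 [(z1,[z1])],.contra [z1,z1,z1,y1],
    .contra [y1,z1,z1],.contra [y1,z1,z1],.ref k178 k10 [(z1,[z1])],.ref k1 k2 [(z1,[y1,z0,z0,z1])],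
    .ref (nat_lit 342) k9 [(z1,[y1,y1,y1,z1]),(z1,[z0,z1,z1])],.contra [y1,z1,z1],.ref (nat_lit 296) k5 [(z1,[z1,y1,
    y1]),(z1,[z0,y1,y1,z1])],.contra [z1,y1,y2,z1],.ref k0 k3 [(z1,[z1])],.contra [y1,z0,z1],.contra [y1,z1,z1],
    .ref k178 k3 [(z2,[y1,z0,z2])],.contra [z1],.ref k178 k4 [(z1,[z1])],.ref (nat_lit 252) k10 [(z1,[z1,y2,y2]),(z1,
    [z0,z1,z1])],.ref k0 k0 [(z1,[z1])],.contra [z1],.ref (nat_lit 217) k4 [(z1,[z1]),(z1,[z0,y1,y1,z1])],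
    .ref (nat_lit 347) k10 [(z2,[z1,y4,y6,z2]),(z1,[z0,z1,z1])],.ref (nat_lit 252) k9 [(z1,[z1,y2,y2]),(z1,[z0,z1,
    z1])],.ref (nat_lit 296) k4 [(z1,[z1,y1,y1]),(z1,[z0,y1,y1,z1])],.ref k178 k3 [(z1,[z1])],.contra [z1,z2],
    .contra [y1,z0,z1],.contra [y1,z1,z1],.contra [y1,y2,y2,z2],.contra [z1,z3,y1,z1],.contra [z1,z2],
    .ref k178 k0 [(z1,[z1])]]),
    .old (.lp [(nat_lit 462),(nat_lit 772),(nat_lit 502),(nat_lit 640),(nat_lit 612),(nat_lit 848)] [(nat_lit 249),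
    (nat_lit 249),k94,k94,(nat_lit 278),k180,k160,k160,k174,k174,k112,k0] k0 [[k0,k0,k0,k0,k0,k0,k2,k0,k0,k0,k78],[k0,
    k0,k0,k0,k0,k0,k150,k0,k0,k0,k74],[k0,k0,k0,k0,k30,k0,k0,k0,k0,k82],[k0,k0,k0,k0,k114,k0,k0,k0,k0,(nat_lit 222)],
    [k0,k0,k0,k0,k0,k0,k0,k0,k0,k0,k0,k44],[k0,k0,k114,k30],[k0,k0,k0,k0,k0,k0,k0,k0,(nat_lit 416)],[k150,k2,k0,k0,k0,
    k0,k0,k0,k76],[k0,k0,(nat_lit 222),k82,k0,k0,k0,k0,k0,k0,k0,k152],[k0,k0,k0,k0,k0,k0,k76,(nat_lit 416)],[k0,k0,k0,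
    k0,k0,k44,k0,k0,k0,k152],[k74,k78]] (nat_lit 1920) k6
    [[(k0,(nat_lit 384)),(k4,(nat_lit 433)),(k8,(nat_lit 537)),(k3,(nat_lit 543)),(k7,(nat_lit 595)),(k11,
    (nat_lit 863))],[(k1,(nat_lit 384)),(k5,(nat_lit 531)),(k9,(nat_lit 535)),(k2,(nat_lit 617)),(k10,(nat_lit 673)),
    (k6,(nat_lit 701))],[(k9,(nat_lit 542)),(k1,(nat_lit 543)),(k5,(nat_lit 686)),(k6,(nat_lit 708)),(k2,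
    (nat_lit 772)),(k10,(nat_lit 832))],[(k8,(nat_lit 610)),(k0,(nat_lit 617)),(k7,(nat_lit 676)),(k4,(nat_lit 702)),
    (k3,(nat_lit 772)),(k11,(nat_lit 1088))],[(k8,(nat_lit 384)),(k7,(nat_lit 506)),(k0,(nat_lit 531)),(k4,
    (nat_lit 532)),(k3,(nat_lit 686)),(k11,(nat_lit 862))],[(k1,(nat_lit 433)),(k9,(nat_lit 508)),(k6,(nat_lit 522)),
    (k10,(nat_lit 526)),(k5,(nat_lit 532)),(k2,(nat_lit 702))],[(k5,(nat_lit 506)),(k1,(nat_lit 595)),(k9,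
    (nat_lit 626)),(k6,(nat_lit 640)),(k2,(nat_lit 676)),(k10,(nat_lit 688))],[(k11,(nat_lit 384)),(k4,(nat_lit 522)),
    (k7,(nat_lit 640)),(k0,(nat_lit 701)),(k8,(nat_lit 702)),(k3,(nat_lit 708))],[(k4,(nat_lit 508)),(k0,
    (nat_lit 535)),(k3,(nat_lit 542)),(k7,(nat_lit 626)),(k11,(nat_lit 710)),(k8,(nat_lit 1028))],[(k5,(nat_lit 384)),
    (k10,(nat_lit 522)),(k1,(nat_lit 537)),(k2,(nat_lit 610)),(k6,(nat_lit 702)),(k9,(nat_lit 1028))],[(k6,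
    (nat_lit 384)),(k9,(nat_lit 710)),(k10,(nat_lit 848)),(k5,(nat_lit 862)),(k1,(nat_lit 863)),(k2,(nat_lit 1088))],
    [(k8,(nat_lit 522)),(k4,(nat_lit 526)),(k0,(nat_lit 673)),(k7,(nat_lit 688)),(k3,(nat_lit 832)),(k11,
    (nat_lit 848))]]
    [] k0
    [[k2,k0,k0,k0,k0,k0],[k3,k0,k0,k0,k0,k0],[k4,k0,k0,k0,k0,k0],[k3,k0,k1,k0,k0,k0],[k3,k0,k0,k0,k1,k0],[k2,k1,k0,k0,
    k0,k0],[k2,k0,k1,k0,k0,k0],[k2,k0,k2,k0,k0,k0],[k2,k0,k1,k0,k1,k0],[k2,k0,k0,k1,k0,k0],[k2,k0,k0,k0,k1,k0],[k1,k1,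
    k0,k0,k0,k0],[k1,k1,k1,k0,k0,k0],[k1,k1,k0,k0,k1,k0],[k1,k0,k1,k0,k0,k0],[k1,k0,k2,k0,k0,k0],[k1,k0,k2,k0,k1,k0],
    [k1,k0,k1,k1,k0,k0],[k1,k0,k1,k0,k1,k0],[k1,k0,k0,k1,k0,k0],[k1,k0,k0,k1,k1,k0],[k1,k0,k0,k1,k0,k1],[k1,k0,k0,k0,
    k1,k0],[k1,k0,k0,k0,k0,k1],[k0,k2,k0,k0,k0,k0],[k0,k1,k1,k0,k0,k0],[k0,k1,k1,k1,k0,k0],[k0,k1,k1,k0,k1,k0],[k0,k1,
    k0,k1,k0,k0],[k0,k1,k0,k0,k1,k0],[k0,k1,k0,k1,k0,k1],[k0,k0,k2,k0,k0,k0],[k0,k0,k3,k0,k0,k0],[k0,k0,k2,k1,k0,k0],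
    [k0,k0,k2,k0,k1,k0],[k0,k0,k1,k1,k0,k0],[k0,k0,k1,k2,k0,k0],[k0,k0,k1,k1,k1,k0],[k0,k0,k1,k1,k0,k1],[k0,k0,k1,k0,
    k1,k0],[k0,k0,k2,k0,k2,k0],[k0,k0,k1,k0,k1,k1],[k0,k0,k1,k0,k0,k1],[k0,k0,k0,k2,k0,k0],[k0,k0,k0,k2,k0,k1],[k0,k0,
    k0,k1,k1,k0],[k0,k0,k0,k1,k1,k1],[k0,k0,k0,k1,k0,k1],[k0,k0,k0,k0,k1,k1],[k0,k0,k0,k0,k0,k2]]
    [.contra [z1],.contra [y1,z2,z0,z3],.contra [y1,z2,z0,z3],.contra [y1,z2,z0,z3],.contra [z1,y1],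
    .ref (nat_lit 252) k11 [(z1,[z1,z0,z2,z0,y2]),(z1,[z0,z0,y1,z0,z1])],.contra [z1,y2,y4,y5,z4],.contra [y1,z2,z0,
    z3],.contra [y1,z1,z0,z2],.contra [y1,z1,y1,z1,z1],.contra [y1,z1,z0,z2],.ref k178 k8 [(z1,[z1])],.ref k1 k0 [(z1,
    [y1,z0,z0,z0,z1])],.ref (nat_lit 347) k11 [(z1,[z1,z0,z1,y1,y1]),(z1,[z0,z0,y1,z0,z1])],.contra [y1,z2,z0,z3],
    .contra [y1,z2,z0,z3],.contra [y1,z1,z0,z2],.contra [y1,z1,y1,z1,z1],.contra [z1,y1,y2,y3,z2],.contra [y1,z1,y1,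
    z1,z1],.contra [z1,z0,z1,z1,y1],.ref k178 k0 [(z1,[z1,z0,z1,z1,y1])],.contra [y1,z1,z0,z2],.ref k178 k2 [(z1,
    [z1])],.contra [z1],.ref k178 k10 [(z1,[z1])],.ref k1 k2 [(z1,[y1,z0,z0,z0,z1])],.ref k178 k0 [(z1,[y1,z0,z1,
    z1])],.ref (nat_lit 328) k0 [(z1,[y1,z0,z1]),(z1,[z0,z0,y1,z0,z1])],.ref k0 k3 [(z1,[z1])],.contra [y1,y1,y2,y3,
    z3],.contra [z1],.contra [y1,z2,z0,z3],.contra [y1,z1,y1,z1,z1],.contra [y1,z1,z0,z2],.contra [y1,z1,y1,z1,z1],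
    .contra [y1,z0,y2,y1,z2],.contra [y1,z0,y1,z0,z1],.ref (nat_lit 347) k11 [(z1,[y1,z0,z1,y1]),(z1,[z0,z0,y1,z0,
    z1])],.contra [y1,z1,z0,z2],.contra [y1,z0,z0,z2],.ref k0 k3 [(z1,[y1,z0,z1,z1])],.ref k0 k0 [(z1,[z1])],
    .contra [z1],.ref (nat_lit 328) k0 [(z1,[z1,z1,z3,z3,y3]),(z1,[z0,z0,y1,z0,z1])],.contra [y1,z0,y1,z0,z1],
    .ref k1 k0 [(z1,[z1])],.ref (nat_lit 296) k9 [(z1,[z1,z0,z0,z1,y1]),(z1,[z1])],.ref k178 k0 [(z1,[z1])],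
    .contra [y1,z0,z2]])]

/-- the nodes with numbers from 334 -/
noncomputable def cU6_2_n6 : List XN :=
  cU6_2_n6_0 ++ (cU6_2_n6_1 ++ cU6_2_n6_2)

theorem cU6_2_k6 : allI (chkX 6 cU6_2_w ttU6 cU6_2_s (blkF [] cU6_2_D)) cU6_2_n6 334 = true := by
  decide +kernel

end Pool.Agent.Lib_MP_fa6e45
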