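import Pool.Agent.Lib_MP_fa6e45.CY6_1d

/-!
MP_fa6e45_co, stage 7: certificates (generated by a program).
-/

namespace Pool.Agent.Lib_MP_fa6e45

noncomputable def cU6_2_n7_0 : List XN :=
  [.old (.lp [(nat_lit 496),(nat_lit 448),(nat_lit 487),(nat_lit 496),(nat_lit 564),(nat_lit 386)] [(nat_lit 306),k0,
    k177,k177,k155,k160,k153,k153,k119,k119,(nat_lit 208),(nat_lit 208)] k0 [[k0,k0,k48],[],[k0,k0,k0,k0,k0,k0,k0,k0,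
    k18,k196],[k0,k48,k0,k0,k24,k6],[k0,k0,k6,k0,k0,k0,k0,k0,k0,k0,(nat_lit 359)],[k0,k0,k24,k0,k0,k0,k0,k6],[k0,k0,
    k0,k0,k6],[k0,k0,k0,k0,k0,k0,k0,k0,k15,k199],[k0,k0,k0,k196,k0,k0,k199,k0,k0,k0,k0,k187],[k0,k0,k0,k18,k0,k0,k15,
    k0,k0,k0,k0,k15],[k0,k0,k0,k0,k0,k0,k0,k0,k15,k187],[k0,k0,k0,k0,k0,(nat_lit 359)]] (nat_lit 1440) k6
    [[(k4,(nat_lit 288)),(k0,(nat_lit 496)),(k3,(nat_lit 625)),(k7,(nat_lit 649)),(k8,(nat_lit 698)),(k11,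
    (nat_lit 781))],[(k5,(nat_lit 288)),(k10,(nat_lit 288)),(k2,(nat_lit 319)),(k6,(nat_lit 343)),(k9,(nat_lit 377)),
    (k1,(nat_lit 496))],[(k10,(nat_lit 417)),(k5,(nat_lit 465)),(k6,(nat_lit 472)),(k2,(nat_lit 496)),(k9,
    (nat_lit 506)),(k1,(nat_lit 625))],[(k8,(nat_lit 310)),(k0,(nat_lit 319)),(k11,(nat_lit 399)),(k7,(nat_lit 478)),
    (k4,(nat_lit 494)),(k3,(nat_lit 496))],[(k0,(nat_lit 288)),(k3,(nat_lit 465)),(k7,(nat_lit 465)),(k4,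
    (nat_lit 481)),(k8,(nat_lit 541)),(k11,(nat_lit 630))],[(k1,(nat_lit 288)),(k10,(nat_lit 439)),(k5,(nat_lit 481)),
    (k2,(nat_lit 494)),(k6,(nat_lit 494)),(k9,(nat_lit 534))],[(k5,(nat_lit 465)),(k2,(nat_lit 478)),(k6,
    (nat_lit 490)),(k9,(nat_lit 530)),(k1,(nat_lit 649)),(k10,(nat_lit 800))],[(k0,(nat_lit 343)),(k3,(nat_lit 472)),
    (k7,(nat_lit 490)),(k4,(nat_lit 494)),(k8,(nat_lit 545)),(k11,(nat_lit 640))],[(k8,(nat_lit 365)),(k0,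
    (nat_lit 377)),(k11,(nat_lit 460)),(k3,(nat_lit 506)),(k7,(nat_lit 530)),(k4,(nat_lit 534))],[(k10,(nat_lit 288)),
    (k2,(nat_lit 310)),(k9,(nat_lit 365)),(k5,(nat_lit 541)),(k6,(nat_lit 545)),(k1,(nat_lit 698))],[(k10,
    (nat_lit 371)),(k2,(nat_lit 399)),(k9,(nat_lit 460)),(k5,(nat_lit 630)),(k6,(nat_lit 640)),(k1,(nat_lit 781))],
    [(k0,(nat_lit 288)),(k8,(nat_lit 288)),(k11,(nat_lit 371)),(k3,(nat_lit 417)),(k4,(nat_lit 439)),(k7,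
    (nat_lit 800))]]
    [] k0
    [[k2,k0,k0,k0,k0,k0],[k2,k0,k1,k0,k0,k0],[k1,k1,k0,k0,k0,k0],[k1,k1,k1,k0,k0,k0],[k1,k1,k0,k0,k1,k0],[k1,k1,k0,k0,
    k0,k1],[k1,k0,k1,k0,k0,k0],[k2,k0,k2,k0,k0,k0],[k1,k0,k2,k0,k0,k0],[k1,k0,k1,k1,k0,k0],[k1,k0,k1,k0,k1,k0],[k1,k0,
    k1,k0,k0,k1],[k1,k0,k0,k1,k0,k0],[k1,k0,k0,k0,k1,k0],[k1,k0,k0,k0,k0,k1],[k0,k2,k0,k0,k0,k0],[k0,k2,k0,k0,k1,k0],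
    [k0,k2,k0,k0,k0,k1],[k0,k1,k1,k0,k0,k0],[k0,k1,k1,k1,k0,k0],[k0,k1,k1,k0,k1,k0],[k0,k1,k1,k0,k0,k1],[k0,k1,k0,k1,
    k0,k0],[k0,k1,k0,k1,k1,k0],[k0,k1,k0,k0,k1,k0],[k0,k1,k0,k0,k2,k0],[k0,k1,k0,k0,k1,k1],[k0,k1,k0,k0,k0,k1],[k0,k1,
    k0,k0,k0,k2],[k0,k0,k2,k0,k0,k0],[k0,k0,k1,k1,k0,k0],[k0,k0,k1,k0,k1,k0],[k0,k0,k1,k0,k0,k1],[k0,k0,k0,k2,k0,k0],
    [k0,k0,k0,k1,k1,k0],[k0,k0,k0,k0,k2,k0],[k0,k0,k0,k0,k3,k0],[k0,k0,k0,k0,k2,k1],[k0,k0,k0,k0,k1,k1],[k0,k0,k0,k0,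
    k1,k2],[k0,k0,k0,k0,k0,k2],[k0,k0,k0,k0,k0,k3]]
    [.contra [z1],.ref (nat_lit 366) k9 [(z1,[y3,z1,z0,z3]),(z3,[z0,y1,y1,y3,z3]),(z1,[z1])],.contra [y1,z0,z0,y1,z1],
    .contra [y3,z1,z1,z3],.contra [y3,z1,z1,z3],.contra [y3,y1,y1,y6,z6],.contra [y3,z1,z1,z3],.ref k6 k2 [(z2,[z1]),
    (z1,[z0,z0,z1]),(z3,[z0,y1,y1,y3,z3])],.ref (nat_lit 347) k6 [(z3,[y3,y1,y1]),(z3,[z0,z1,z1,z3])],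
    .ref (nat_lit 342) k6 [(z3,[y3,y1,y1,y3,z3]),(z3,[z0,z1,z1,z3])],.contra [z3,y1,z2,y3],.ref (nat_lit 342) k4 [(z3,
    [y3,y1,y1,y3,z3]),(z3,[z0,z1,z1,z3])],.contra [z1,z0,z1,z1,y1],.contra [y3,z1,z1,z3],.ref k178 k2 [(z1,[z1])],
    .contra [z1],.ref k27 k0 [(z1,[z0,z0,z0,z1]),(z1,[z1,z0,y1,y1,z1])],.contra [z3,z1,y2],.contra [y3,z1,z1,z3],
    .ref k1 k2 [(z1,[y1,z0,z0,z0,z1])],.contra [y3,z1,z1,z3],.ref k27 k0 [(z1,[z0,z0,z0,z1]),(z1,[y1,z0,z0,z0,z1])],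
    .contra [y1,z0,z0,y1,z1],.ref (nat_lit 342) k4 [(z3,[z3,y1,y1,y3]),(z3,[z0,z1,z1,z3])],.contra [y3,z1,z1,z3],
    .ref k27 k0 [(z1,[z0,z0,z0,z1]),(z2,[z1,z0,y1,y2,z2])],.ref (nat_lit 342) k6 [(z3,[z3,y1,y1,y3]),(z3,[z0,z1,z1,
    z3])],.ref k178 k2 [(z3,[z6,z1,y2])],.contra [z3,z2,y1],.contra [z1],.ref k178 k4 [(z1,[z1])],.contra [y3,z1,z1,
    z3],.contra [y1,z0,z0,z1],.contra [z1],.ref k178 k3 [(z1,[z1])],.contra [z1],.ref k27 k0 [(z1,[z0,z0,z0,z1]),(z3,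
    [z1,z0,y1,y3,z3])],.ref (nat_lit 252) k6 [(z3,[z3,y2,y2,y6]),(z3,[z0,z1,z1,z3])],.contra [y1,z0,z0,z1],
    .ref k178 k4 [(z3,[y3,y1,y1,z0,z3])],.contra [y3,y2,y2,y6,z6],.contra [z1,z1]]),
    .old (.lp [(nat_lit 318),(nat_lit 320),(nat_lit 324),(nat_lit 318),(nat_lit 320),(nat_lit 318)] [(nat_lit 242),k0,k14,
    (nat_lit 226),k118,k118,k121,k121,k120,k120,k126,k116] k0 [[k0,k0,k0,k0,k0,k0,k2],[k0,k0,k2,k0,k0,k0,k0,k0,k0,k0,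
    k0,k6],[k0,k0,k0,k0,k0,k2,k0,k0,(nat_lit 238)],[k2,k0,k0,k0,k0,k4],[k0,k0,k4,k2],[k0,k0,k0,k0,k0,k0,k0,k78],[k0,
    k0,k0,k0,k78,k0,k0,k0,k2],[k0,k2],[k0,k0,k0,k0,k0,k0,k0,k0,k0,k0,(nat_lit 248)],[k0,k0,k0,(nat_lit 238),k0,k0,k0,
    k2],[k6],[k0,k0,k0,k0,k0,k0,k0,k0,k0,(nat_lit 248)]] (nat_lit 960) k6
    [[(k8,k192),(k0,(nat_lit 324)),(k3,(nat_lit 334)),(k7,(nat_lit 439)),(k4,(nat_lit 442)),(k11,(nat_lit 444))],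
    [(k10,k192),(k9,k196),(k6,k197),(k5,(nat_lit 200)),(k2,(nat_lit 306)),(k1,(nat_lit 324))],[(k10,(nat_lit 202)),
    (k5,(nat_lit 214)),(k9,(nat_lit 214)),(k6,(nat_lit 215)),(k2,(nat_lit 320)),(k1,(nat_lit 334))],[(k11,k192),(k0,
    (nat_lit 306)),(k3,(nat_lit 320)),(k4,(nat_lit 426)),(k8,(nat_lit 426)),(k7,(nat_lit 429))],[(k0,(nat_lit 200)),
    (k3,(nat_lit 214)),(k4,(nat_lit 320)),(k7,(nat_lit 323)),(k11,(nat_lit 326)),(k8,(nat_lit 560))],[(k10,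
    (nat_lit 316)),(k5,(nat_lit 320)),(k6,(nat_lit 321)),(k9,(nat_lit 400)),(k2,(nat_lit 426)),(k1,(nat_lit 442))],
    [(k6,(nat_lit 240)),(k10,(nat_lit 313)),(k9,(nat_lit 319)),(k5,(nat_lit 323)),(k2,(nat_lit 429)),(k1,
    (nat_lit 439))],[(k0,k197),(k3,(nat_lit 215)),(k7,(nat_lit 240)),(k8,(nat_lit 319)),(k4,(nat_lit 321)),(k11,
    (nat_lit 321))],[(k0,k196),(k3,(nat_lit 214)),(k7,(nat_lit 319)),(k8,(nat_lit 322)),(k11,(nat_lit 324)),(k4,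
    (nat_lit 400))],[(k1,k192),(k10,(nat_lit 314)),(k6,(nat_lit 319)),(k9,(nat_lit 322)),(k2,(nat_lit 426)),(k5,
    (nat_lit 560))],[(k2,k192),(k6,(nat_lit 321)),(k9,(nat_lit 324)),(k5,(nat_lit 326)),(k1,(nat_lit 444)),(k10,
    (nat_lit 566))],[(k0,k192),(k3,(nat_lit 202)),(k7,(nat_lit 313)),(k8,(nat_lit 314)),(k4,(nat_lit 316)),(k11,
    (nat_lit 566))]]
    [] k0
    [[k2,k0,k0,k0,k0,k0],[k2,k0,k0,k0,k1,k0],[k1,k1,k0,k0,k0,k0],[k1,k1,k0,k0,k1,k0],[k1,k1,k0,k0,k0,k1],[k1,k0,k1,k0,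
    k0,k0],[k1,k0,k0,k1,k0,k0],[k1,k0,k0,k2,k0,k0],[k1,k0,k0,k1,k1,k0],[k1,k0,k0,k1,k0,k1],[k1,k0,k0,k0,k1,k0],[k2,k0,
    k0,k0,k2,k0],[k1,k1,k0,k0,k1,k1],[k1,k0,k1,k0,k1,k0],[k1,k0,k0,k2,k1,k0],[k1,k0,k0,k0,k2,k0],[k1,k0,k0,k0,k1,k1],
    [k1,k0,k0,k0,k0,k1],[k0,k2,k0,k0,k0,k0],[k0,k2,k0,k0,k0,k1],[k0,k1,k1,k0,k0,k0],[k0,k1,k1,k0,k0,k1],[k0,k1,k0,k1,
    k0,k0],[k0,k1,k0,k2,k0,k0],[k0,k1,k0,k1,k0,k1],[k0,k1,k0,k0,k1,k0],[k0,k1,k0,k0,k1,k1],[k0,k1,k0,k0,k0,k1],[k0,k2,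
    k0,k0,k0,k2],[k0,k0,k2,k0,k0,k0],[k0,k0,k1,k1,k0,k0],[k0,k0,k1,k2,k0,k0],[k0,k0,k1,k0,k0,k1],[k0,k0,k0,k2,k0,k0],
    [k0,k0,k0,k3,k0,k0],[k0,k0,k0,k2,k1,k0],[k0,k0,k0,k2,k0,k1],[k0,k0,k0,k1,k1,k0],[k0,k0,k0,k1,k1,k1],[k0,k0,k0,k1,
    k0,k1],[k0,k0,k0,k0,k2,k0],[k0,k0,k0,k0,k1,k1]]
    [.contra [z1],.ref (nat_lit 328) k2 [(z1,[y1,z1]),(z3,[z3,y2,z1])],.contra [y3,z1,z1],.ref (nat_lit 367) k11 [(z1,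
    [z3,z0,z1,y3]),(z1,[z0,z1]),(z1,[y1,z0,z0,z1])],.contra [y3,z1,z1],.ref (nat_lit 328) k2 [(z3,[z3,z1,z1,y3]),(z1,
    [y1,z0,z0,z1])],.contra [y3,z1,z1],.ref (nat_lit 217) k4 [(z2,[z3,y1]),(z3,[z0,y1,y1,z3])],
    .ref (nat_lit 342) k9 [(z3,[z3,y1,y1]),(z3,[z0,z1,z1])],.contra [y3,z1,z1],.ref (nat_lit 328) k10 [(z3,[y3,y1,y1,
    z3]),(z3,[z0,z1,z1])],.ref (nat_lit 365) k7 [(z6,[z3,z2,z2,y6]),(z2,[y1,z0,z0,z2])],.ref k178 k4 [(z1,[y1,z0,z0,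
    z1])],.contra [y3,z2,y1,z3],.ref (nat_lit 347) k9 [(z3,[z3,y2,y2]),(z3,[z0,z1,z1])],.ref (nat_lit 328) k2 [(z2,
    [y1,z1]),(z6,[z3,y1,z2])],.ref k1 k2 [(z1,[z1])],.contra [y3,z1,z1],.contra [z1],.ref (nat_lit 366) k4 [(z1,[y3,
    z0,z1]),(z3,[z0,y1,y1,z3]),(z1,[z1])],.ref k178 k10 [(z1,[z1])],.ref (nat_lit 342) k9 [(z3,[y3,y1,y1,z3]),(z3,[z0,
    z1,z1])],.contra [y3,z1,z1],.ref (nat_lit 296) k5 [(z3,[z3,y1,y1]),(z3,[z0,y1,y1,z3])],.contra [z3,z2,y1],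
    .ref k0 k3 [(z1,[z1])],.ref (nat_lit 342) k10 [(z3,[y3,y1,y1,z3]),(z3,[z0,z1,z1])],.contra [y3,z1,z1],
    .ref k6 k0 [(z2,[z1]),(z1,[z0,z1]),(z3,[z0,y1,y1,z3])],.contra [z1],.ref k178 k4 [(z1,[z1])],
    .ref (nat_lit 252) k10 [(z3,[z3,y2,y2]),(z3,[z0,z1,z1])],.ref k0 k0 [(z1,[z1])],.contra [z1],
    .ref (nat_lit 217) k4 [(z1,[z1]),(z3,[z0,y1,y1,z3])],.ref (nat_lit 252) k9 [(z3,[z3,y2,y2]),(z3,[z0,z1,z1])],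
    .ref (nat_lit 296) k4 [(z3,[z3,y1,y1]),(z3,[z0,y1,y1,z3])],.ref k178 k3 [(z1,[z1])],.ref k1 k0 [(z1,[z1])],
    .contra [y3,z1,z1],.contra [y3,y2,y2,z6],.ref k178 k0 [(z1,[z1])]]),
    .old (.lp [(nat_lit 2906),(nat_lit 2840),(nat_lit 2906),(nat_lit 2879),(nat_lit 2846),(nat_lit 2894)] [(nat_lit 2054),
    k0,(nat_lit 1060),(nat_lit 1060),(nat_lit 1027),(nat_lit 1027),(nat_lit 1115),(nat_lit 966),(nat_lit 1057),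
    (nat_lit 1057),k118,(nat_lit 1948)] k0 [[k0,k0,k0,k0,k0,k0,k45,k63,k0,k0,k0,k66],[k0,k0,k0,(nat_lit 680)],
    [(nat_lit 680)],[k0,k0,k0,k0,k0,k12],[k0,k0,k12,k0,k0,k0,k6,k30],[k0,k0,k0,k0,k0,k0,k0,k0,k0,k0,k0,
    (nat_lit 2148)],[k0,k63,k0,k0,k0,k30,k0,k0,k54],[k0,k45,k0,k0,k0,k6],[k0,k0,k0,k0,k0,k0,k0,k0,k0,k0,
    (nat_lit 2175)],[k0,k0,k0,k0,k0,k0,k0,k54],[k0,k66,k0,k0,(nat_lit 2148)],[k0,k0,k0,k0,k0,k0,k0,k0,k0,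
    (nat_lit 2175)]] (nat_lit 8640) k6
    [[(k8,(nat_lit 1728)),(k0,(nat_lit 2906)),(k11,(nat_lit 3012)),(k3,(nat_lit 3966)),(k7,(nat_lit 3994)),(k4,
    (nat_lit 6081))],[(k6,(nat_lit 1728)),(k9,(nat_lit 1804)),(k2,(nat_lit 1846)),(k5,(nat_lit 2559)),(k10,
    (nat_lit 2722)),(k1,(nat_lit 2906))],[(k2,(nat_lit 2160)),(k6,(nat_lit 2830)),(k5,(nat_lit 2873)),(k9,
    (nat_lit 2906)),(k10,(nat_lit 3782)),(k1,(nat_lit 3966))],[(k0,(nat_lit 1846)),(k11,(nat_lit 1952)),(k3,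
    (nat_lit 2160)),(k8,(nat_lit 2843)),(k4,(nat_lit 2873)),(k7,(nat_lit 2946))],[(k11,(nat_lit 1985)),(k0,
    (nat_lit 2559)),(k3,(nat_lit 2873)),(k8,(nat_lit 2876)),(k4,(nat_lit 2894)),(k7,(nat_lit 2967))],[(k6,
    (nat_lit 2788)),(k9,(nat_lit 2870)),(k2,(nat_lit 2873)),(k5,(nat_lit 2894)),(k10,(nat_lit 3815)),(k1,
    (nat_lit 6081))],[(k10,(nat_lit 1728)),(k6,(nat_lit 2885)),(k2,(nat_lit 2946)),(k5,(nat_lit 2967)),(k9,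
    (nat_lit 2967)),(k1,(nat_lit 3994))],[(k0,(nat_lit 1728)),(k11,(nat_lit 1843)),(k4,(nat_lit 2788)),(k8,
    (nat_lit 2788)),(k3,(nat_lit 2830)),(k7,(nat_lit 2885))],[(k0,(nat_lit 1804)),(k11,(nat_lit 1955)),(k4,
    (nat_lit 2870)),(k8,(nat_lit 2900)),(k3,(nat_lit 2906)),(k7,(nat_lit 2967))],[(k1,(nat_lit 1728)),(k6,
    (nat_lit 2788)),(k2,(nat_lit 2843)),(k5,(nat_lit 2876)),(k9,(nat_lit 2900)),(k10,(nat_lit 3785))],[(k6,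
    (nat_lit 1843)),(k2,(nat_lit 1952)),(k9,(nat_lit 1955)),(k5,(nat_lit 1985)),(k1,(nat_lit 3012)),(k10,
    (nat_lit 5069))],[(k7,(nat_lit 1728)),(k0,(nat_lit 2722)),(k3,(nat_lit 3782)),(k8,(nat_lit 3785)),(k4,
    (nat_lit 3815)),(k11,(nat_lit 5069))]]
    [] k0
    [[k2,k0,k0,k0,k0,k0],[k2,k0,k0,k1,k0,k0],[k2,k0,k0,k0,k1,k0],[k1,k1,k0,k0,k0,k0],[k1,k2,k0,k0,k0,k0],[k1,k1,k0,k0,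
    k1,k0],[k1,k0,k0,k1,k0,k0],[k1,k0,k0,k2,k0,k0],[k1,k0,k0,k1,k1,k0],[k1,k0,k0,k1,k0,k1],[k1,k0,k0,k0,k1,k0],[k2,k0,
    k0,k0,k2,k0],[k1,k0,k1,k0,k1,k0],[k1,k0,k0,k0,k2,k0],[k1,k0,k0,k0,k1,k1],[k1,k0,k0,k1,k1,k1],[k1,k0,k0,k0,k0,k1],
    [k0,k2,k0,k0,k0,k0],[k0,k3,k0,k0,k0,k0],[k0,k2,k1,k0,k0,k0],[k0,k2,k0,k1,k0,k0],[k0,k2,k0,k0,k1,k0],[k0,k2,k0,k0,
    k0,k1],[k0,k1,k1,k0,k0,k0],[k0,k1,k1,k1,k0,k0],[k0,k1,k1,k0,k1,k0],[k0,k1,k0,k1,k0,k0],[k0,k1,k0,k1,k0,k1],[k0,k1,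
    k0,k0,k1,k0],[k0,k1,k0,k0,k0,k1],[k0,k1,k0,k0,k1,k1],[k0,k0,k2,k0,k0,k0],[k0,k0,k1,k1,k0,k0],[k0,k0,k1,k1,k1,k0],
    [k0,k0,k1,k1,k0,k1],[k0,k0,k1,k0,k1,k0],[k0,k0,k1,k0,k0,k1],[k0,k0,k0,k2,k0,k0],[k0,k0,k0,k2,k0,k1],[k0,k0,k0,k1,
    k1,k0],[k0,k0,k0,k1,k1,k1],[k0,k0,k0,k1,k0,k1],[k0,k0,k0,k2,k0,k2],[k0,k0,k0,k0,k2,k0],[k0,k0,k0,k0,k1,k1]]
    [.contra [z1],.contra [y1,z0,y1,y2,z2],.ref (nat_lit 353) k3 [(z1,[z1,y2,z0,y2]),(z1,[y1,z1,z0,z1,z1])],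
    .contra [y1,z0,z0,y1,z1],.contra [z1,z0,y1],.ref (nat_lit 342) k2 [(z1,[z1,z1,z0,z1,y1]),(z1,[z0,y1,z0,y1,z1])],
    .contra [z1,z0,z1,z1,y1],.contra [y1,z0,y1,y2,z2],.ref k27 k0 [(z1,[z0,z0,z0,z1]),(z1,[z1])],
    .ref (nat_lit 342) k1 [(z1,[y1,z1,z0,z1]),(z1,[z0,y1,z0,y1,z1])],.ref (nat_lit 328) k3 [(z1,[z1,y1,z0,y1]),(z1,
    [y1,z0,z0,z0,z1])],.ref (nat_lit 347) k2 [(z2,[z1,z4,z2,z4,y4]),(z1,[z0,y1,z0,y1,z1])],.contra [z1,y1,z0,y1],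
    .ref (nat_lit 364) k1 [(z1,[y1,z1,z0,z1]),(z1,[z0,y1,z0,y1,z1])],.contra [z1,z1],.contra [y1,y1,y1,y2,z2],
    .ref k178 k2 [(z1,[z1])],.contra [z1],.contra [z1,z0,y1],.contra [y1,z1,z1,z1],.contra [z1,z0,y1],.contra [z1,z0,
    y1],.contra [z1,z0,y1],.contra [z1,y1,y1,y2,z1],.contra [y1,z1,z0,z0,z1],.ref (nat_lit 342) k1 [(z1,[z1,z1,z0,z1,
    y1]),(z1,[z0,y1,z0,y1,z1])],.contra [y1,z0,z0,y1,z1],.contra [y1,y1,z0,y1,z1],.contra [y1,y1,z0,y1,z1],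
    .contra [y1,y1,z0,y1,z1],.contra [y1,y1,z0,y1,z1],.contra [y1,z2,z0,z2],.ref k178 k4 [(z1,[z1])],.ref k1 k3 [(z1,
    [z1])],.ref (nat_lit 342) k2 [(z1,[y1,z1,z0,z1]),(z1,[z0,y1,z0,y1,z1])],.contra [y1,z0,z0,z1],.contra [y1,z0,z0,
    z1],.contra [z1],.ref (nat_lit 347) k2 [(z1,[y1,z1]),(z1,[z0,y1,z0,y1,z1])],.contra [y1,y1,z0,y1,z1],.contra [z1,
    z1,z1,z1,y1],.contra [y1,y1,z0,y1,z1],.ref k27 k0 [(z1,[z0,z0,z0,z1]),(z2,[y1,y2,y2,y4,z4])],.contra [z1],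
    .contra [y1,z0,z0,z1]]),
    .old (.lp [(nat_lit 1452),(nat_lit 1010),(nat_lit 1550),(nat_lit 1306),(nat_lit 960),(nat_lit 1394)] [k49,k49,
    (nat_lit 270),(nat_lit 270),k0,k0,k168,k76,(nat_lit 295),(nat_lit 295),k14,k142] k0 [[k0,k0,k0,k0,k0,k0,k54,k142,
    k0,k0,k0,(nat_lit 344)],[k0,k0,k170,k146],[k146,k0,k0,k0,k14,k114],[k170,k0,k0,k0,k0,k0,k0,k0,k0,k56],[k0,k0,k0,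
    k114,k0,k0,k178,(nat_lit 614)],[k0,k0,k0,k14,k0,k0,k0,k0,k0,k0,k0,(nat_lit 692)],[k0,k142,k0,k0,k0,(nat_lit 614)],
    [k0,k54,k0,k0,k0,k178],[k0,k0,k56,k0,k0,k0,k0,k0,k0,k0,(nat_lit 438)],[k0,k0,k0,k0,k0,k0,k0,k0,k0,k0,k114],[k0,
    (nat_lit 344),k0,k0,(nat_lit 692)],[k0,k0,k0,k0,k0,k0,k0,k0,k114,(nat_lit 438)]] (nat_lit 3840) k6
    [[(k8,(nat_lit 768)),(k11,(nat_lit 1245)),(k7,(nat_lit 1425)),(k0,(nat_lit 1452)),(k3,(nat_lit 1575)),(k4,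
    (nat_lit 2193))],[(k10,(nat_lit 1143)),(k9,(nat_lit 1152)),(k6,(nat_lit 1191)),(k2,(nat_lit 1401)),(k1,
    (nat_lit 1452)),(k5,(nat_lit 1647))],[(k2,(nat_lit 864)),(k5,(nat_lit 1110)),(k9,(nat_lit 1127)),(k6,
    (nat_lit 1166)),(k10,(nat_lit 1266)),(k1,(nat_lit 1575))],[(k3,(nat_lit 864)),(k8,(nat_lit 985)),(k4,
    (nat_lit 1166)),(k7,(nat_lit 1190)),(k11,(nat_lit 1194)),(k0,(nat_lit 1401))],[(k3,(nat_lit 1110)),(k8,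
    (nat_lit 1199)),(k11,(nat_lit 1408)),(k4,(nat_lit 1564)),(k7,(nat_lit 1588)),(k0,(nat_lit 1647))],[(k6,
    (nat_lit 768)),(k9,(nat_lit 1077)),(k2,(nat_lit 1166)),(k10,(nat_lit 1536)),(k5,(nat_lit 1564)),(k1,
    (nat_lit 2193))],[(k10,(nat_lit 768)),(k2,(nat_lit 1190)),(k1,(nat_lit 1425)),(k6,(nat_lit 1484)),(k5,
    (nat_lit 1588)),(k9,(nat_lit 1793))],[(k4,(nat_lit 768)),(k8,(nat_lit 1087)),(k3,(nat_lit 1166)),(k0,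
    (nat_lit 1191)),(k11,(nat_lit 1240)),(k7,(nat_lit 1484))],[(k8,(nat_lit 960)),(k4,(nat_lit 1077)),(k11,
    (nat_lit 1113)),(k3,(nat_lit 1127)),(k0,(nat_lit 1152)),(k7,(nat_lit 1793))],[(k1,(nat_lit 768)),(k9,
    (nat_lit 960)),(k2,(nat_lit 985)),(k6,(nat_lit 1087)),(k5,(nat_lit 1199)),(k10,(nat_lit 1355))],[(k9,
    (nat_lit 1113)),(k2,(nat_lit 1194)),(k6,(nat_lit 1240)),(k1,(nat_lit 1245)),(k5,(nat_lit 1408)),(k10,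
    (nat_lit 1832))],[(k7,(nat_lit 768)),(k0,(nat_lit 1143)),(k3,(nat_lit 1266)),(k8,(nat_lit 1355)),(k4,
    (nat_lit 1536)),(k11,(nat_lit 1832))]]
    [] k0
    [[k2,k0,k0,k0,k0,k0],[k2,k0,k0,k0,k1,k0],[k1,k1,k0,k0,k0,k0],[k1,k1,k0,k0,k1,k0],[k1,k0,k0,k1,k0,k0],[k1,k0,k0,k1,
    k1,k0],[k1,k0,k0,k1,k0,k1],[k1,k0,k0,k0,k1,k0],[k1,k0,k1,k0,k1,k0],[k1,k0,k0,k0,k2,k0],[k1,k0,k0,k0,k1,k1],[k1,k0,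
    k0,k0,k0,k1],[k0,k2,k0,k0,k0,k0],[k0,k3,k0,k0,k0,k0],[k0,k4,k0,k0,k0,k0],[k0,k2,k1,k0,k0,k0],[k0,k2,k0,k1,k0,k0],
    [k0,k2,k0,k0,k1,k0],[k0,k2,k0,k0,k0,k1],[k0,k1,k1,k0,k0,k0],[k0,k1,k1,k1,k0,k0],[k0,k1,k1,k0,k1,k0],[k0,k1,k0,k1,
    k0,k0],[k0,k1,k0,k1,k0,k1],[k0,k1,k0,k0,k1,k0],[k0,k1,k0,k1,k1,k0],[k0,k1,k0,k0,k2,k0],[k0,k1,k0,k0,k1,k1],[k0,k1,
    k0,k0,k0,k1],[k0,k0,k2,k0,k0,k0],[k0,k0,k1,k1,k0,k0],[k0,k0,k1,k1,k1,k0],[k0,k0,k1,k0,k1,k0],[k0,k0,k1,k0,k2,k0],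
    [k0,k0,k1,k0,k0,k1],[k0,k0,k1,k1,k0,k1],[k0,k0,k0,k2,k0,k0],[k0,k0,k0,k2,k0,k1],[k0,k0,k0,k1,k1,k0],[k0,k0,k0,k1,
    k0,k1],[k0,k0,k0,k1,k1,k1],[k0,k0,k0,k0,k2,k0],[k0,k0,k0,k0,k3,k0],[k0,k0,k0,k0,k2,k1],[k0,k0,k0,k0,k1,k1],[k0,k0,
    k0,k0,k0,k2]]
    [.contra [z1],.ref (nat_lit 353) k3 [(z1,[z1,z0,z2,y2]),(z1,[y1,z0,y1,z2])],.contra [y1,z1,z1],
    .ref (nat_lit 342) k2 [(z1,[z1,z0,y1]),(z1,[z0,z0,z1])],.contra [y1,z1,z1],.ref k27 k0 [(z1,[z0,y1,y1,z1]),(z1,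
    [z1])],.ref (nat_lit 342) k1 [(z1,[y1,z0,y1,z1]),(z1,[z0,z0,z1])],.ref (nat_lit 328) k3 [(z1,[z1,z0,z1,y1]),(z1,
    [y1,z0,z0,z1])],.contra [z1,z0,z1,y1],.ref (nat_lit 364) k1 [(z1,[y1,z0,y1,z1]),(z1,[z0,z0,z1])],.contra [z1,z1],
    .ref k178 k2 [(z1,[z1])],.contra [z1],.ref (nat_lit 217) k8 [(z1,[z1]),(z1,[z0,z0,y1,z1])],
    .ref (nat_lit 369) k2 [(z1,[z0,z1]),(z2,[z1]),(z1,[z0,y1,y1,z1])],.ref (nat_lit 252) k1 [(z1,[z1,z0,y2]),(z1,[z0,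
    z0,z1])],.ref k178 k10 [(z1,[z1,y1,y2,z1])],.ref (nat_lit 301) k10 [(z1,[z0,z0,y1,z1]),(z1,[y1,z0,z1])],
    .ref (nat_lit 296) k11 [(z1,[z1,z0,y1]),(z1,[z0,z0,y1,z1])],.ref k178 k10 [(z1,[z1])],.contra [y1,z1,z0,z1],
    .ref (nat_lit 342) k1 [(z1,[z1,z0,y1]),(z1,[z0,z0,z1])],.contra [y1,z1,z1],.contra [y1,z0,z1],.contra [y1,z0,z1],
    .contra [y1,z0,z1],.ref (nat_lit 355) k0 [(z1,[y1,z0,z1]),(z1,[z0,z0,y1,z1])],.contra [y1,z0,z1],.contra [y1,z0,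
    z1],.contra [y1,z0,y2,z2],.ref k178 k4 [(z1,[z1])],.ref k1 k3 [(z1,[z1])],.contra [y1,y1,y1,z1],
    .ref (nat_lit 364) k2 [(z1,[y1,z0,y1,z1]),(z1,[z0,z0,z1])],.contra [y1,y1,y1,z1],.ref (nat_lit 342) k2 [(z1,[y1,
    z0,y1,z1]),(z1,[z0,z0,z1])],.contra [z1],.ref (nat_lit 347) k2 [(z1,[y1,z1]),(z1,[z0,z0,z1])],.contra [y1,z0,z1],
    .contra [y1,z0,z1],.contra [y1,z0,z1],.contra [z1],.ref (nat_lit 368) k3 [(z1,[z1]),(z1,[y1,z0,z3])],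
    .ref (nat_lit 328) k3 [(z1,[z1,z1,z1,y1]),(z1,[y1,y1,z0,z1])],.contra [y1,y1,y1,z1],.contra [z1]]),
    .old (.lp [k126,k173,k186,k120,k186,k168] [k46,k46,k0,k45,k20,k12,k49,k49,k16,k16,k36,k14] k0 [[k0,k0,k64,k0,k0,k0,k0,
    k0,k0,k0,k10],[k0,k0,k65,k0,k0,k0,k1],[k0,k0,k0,k0,k48,k48,k0,k0,k108],[k65,k64],[k0,k0,k0,k48,k0,k0,k0,k0,k0,k0,
    k0,k1],[k0,k0,k0,k48,k0,k0,k6],[k0,k0,k0,k0,k0,k0,k0,k0,k8,k14],[k1,k0,k0,k0,k6],[k0,k0,k0,k0,k0,k0,k0,k14,k0,k0,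
    k14,k70],[k0,k0,k0,k108,k0,k0,k0,k8],[k0,k0,k0,k0,k0,k1,k0,k0,k0,k70],[k0,k10,k0,k0,k0,k0,k0,k0,k0,
    k14]] (nat_lit 480) k6
    [[(k0,k116),(k7,k124),(k3,k127),(k8,k142),(k4,k152),(k11,(nat_lit 228))],[(k5,k96),(k1,k116),(k6,k124),(k10,k136),
    (k9,k156),(k2,(nat_lit 237))],[(k5,k96),(k6,k124),(k1,k127),(k10,k147),(k9,k156),(k2,(nat_lit 237))],[(k11,k96),
    (k7,k121),(k4,k150),(k8,(nat_lit 202)),(k0,(nat_lit 237)),(k3,(nat_lit 237))],[(k0,k96),(k3,k96),(k11,k192),(k7,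
    (nat_lit 205)),(k4,(nat_lit 234)),(k8,(nat_lit 298))],[(k2,k150),(k1,k152),(k6,k155),(k10,k161),(k9,k182),(k5,
    (nat_lit 234))],[(k6,k120),(k2,k121),(k1,k124),(k10,k133),(k9,k147),(k5,(nat_lit 205))],[(k7,k120),(k0,k124),(k3,
    k124),(k8,k139),(k11,k147),(k4,k155)],[(k7,k147),(k0,k156),(k3,k156),(k4,k182),(k8,k194),(k11,(nat_lit 202))],
    [(k10,k96),(k6,k139),(k1,k142),(k9,k194),(k2,(nat_lit 202)),(k5,(nat_lit 298))],[(k2,k96),(k6,k147),(k10,k182),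
    (k5,k192),(k9,(nat_lit 202)),(k1,(nat_lit 228))],[(k8,k96),(k7,k133),(k0,k136),(k3,k147),(k4,k161),(k11,k182)]]
    [] k0
    [[k2,k0,k0,k0,k0,k0],[k3,k0,k0,k0,k0,k0],[k4,k0,k0,k0,k0,k0],[k2,k1,k0,k0,k0,k1],[k2,k0,k1,k0,k0,k0],[k2,k0,k0,k1,
    k0,k0],[k2,k0,k0,k0,k1,k0],[k1,k1,k0,k0,k0,k0],[k1,k1,k1,k0,k0,k0],[k1,k1,k0,k1,k0,k0],[k1,k1,k0,k0,k0,k1],[k1,k1,
    k0,k0,k1,k1],[k1,k0,k1,k0,k0,k0],[k1,k0,k0,k1,k0,k0],[k1,k0,k1,k1,k0,k0],[k1,k0,k0,k2,k0,k0],[k1,k0,k0,k1,k1,k0],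
    [k1,k0,k0,k1,k0,k1],[k1,k0,k0,k0,k1,k0],[k1,k0,k1,k0,k1,k0],[k1,k0,k0,k0,k0,k1],[k0,k2,k0,k0,k0,k0],[k0,k1,k1,k0,
    k0,k0],[k0,k1,k1,k1,k0,k0],[k0,k1,k1,k0,k1,k1],[k0,k1,k1,k0,k0,k1],[k0,k1,k0,k1,k0,k0],[k0,k1,k0,k2,k0,k0],[k0,k1,
    k0,k2,k0,k1],[k0,k1,k0,k1,k1,k0],[k0,k1,k0,k1,k1,k1],[k0,k1,k0,k1,k0,k1],[k0,k1,k0,k0,k1,k0],[k0,k1,k0,k0,k1,k1],
    [k0,k1,k0,k0,k0,k1],[k0,k1,k0,k0,k0,k2],[k0,k0,k2,k0,k0,k0],[k0,k0,k1,k1,k0,k0],[k0,k0,k1,k0,k0,k1],[k0,k0,k1,k0,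
    k1,k1],[k0,k0,k0,k2,k0,k0],[k0,k0,k0,k3,k0,k0],[k0,k0,k0,k2,k1,k0],[k0,k0,k0,k2,k0,k1],[k0,k0,k0,k1,k1,k0],[k0,k0,
    k0,k1,k1,k1],[k0,k0,k0,k1,k0,k1],[k0,k0,k0,k1,k0,k2],[k0,k0,k0,k0,k2,k0],[k0,k0,k0,k0,k1,k1],[k0,k0,k0,k0,k0,k2]]
    [.contra [z1],.ref (nat_lit 368) k2 [(z1,[z1]),(z1,[y1,z3,z3])],.contra [y1,z4,z2],.contra [z1,y2,y1],
    .ref k0 k3 [(z1,[y1,z1,z0,z1])],.ref (nat_lit 355) k8 [(z1,[y1,z1,z1]),(z1,[z0,y1,y1,z1])],.ref k178 k10 [(z1,[y1,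
    z1,z0,z1])],.contra [y1,z2,z1],.ref k1 k0 [(z1,[y1,z0,z0,z1])],.contra [y1,z1,z1],.contra [y1,z1,z1],
    .ref k178 k4 [(z1,[y1,z0,z0,z1])],.ref (nat_lit 328) k2 [(z1,[z1,z1,z1,y1]),(z1,[y1,z0,z0,z1])],.contra [y1,z1,
    z1],.ref (nat_lit 342) k10 [(z1,[z1,y1,y1]),(z1,[z0,z1,z1])],.ref (nat_lit 301) k3 [(z1,[z0,y1,y1,z1]),(z1,[y1,z1,
    z1])],.ref (nat_lit 342) k9 [(z1,[z1,y1,y1]),(z1,[z0,z1,z1])],.contra [z1,z1],.ref k1 k0 [(z1,[z1,y1])],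
    .contra [z1,z1,z1,y1],.contra [y1,z1,z1],.contra [z1],.ref k178 k10 [(z1,[z1])],.ref k1 k2 [(z1,[y1,z0,z0,z1])],
    .contra [z1,z1,z1,y1],.ref (nat_lit 342) k9 [(z1,[y1,y1,y1,z1]),(z1,[z0,z1,z1])],.contra [y1,z1,z1],.contra [y1,
    z0,z1],.contra [y1,z0,z1],.ref (nat_lit 370) k9 [(z1,[z1,y1,y1]),(z1,[z0,z1,z1])],.ref (nat_lit 328) k2 [(z1,[y1,
    z1,z1]),(z1,[z1])],.contra [y1,z1,z1],.ref k0 k3 [(z1,[z1])],.ref (nat_lit 342) k10 [(z1,[y1,y1,y1,z1]),(z1,[z0,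
    z1,z1])],.contra [y1,z1,z1],.contra [y1,z0,z1],.contra [z1],.ref k178 k4 [(z1,[z1])],.ref k0 k0 [(z1,[z1])],
    .contra [z1,z1,z1,y1],.contra [z1],.ref (nat_lit 217) k4 [(z1,[z1]),(z1,[z0,y1,y1,z1])],
    .ref (nat_lit 252) k9 [(z1,[z1,y2,y2]),(z1,[z0,z1,z1])],.contra [y1,z0,z1],.ref k178 k3 [(z1,[z1])],
    .ref k1 k0 [(z1,[z1])],.contra [y1,z1,z1],.contra [y1,z0,z1],.contra [y1,y2,y2,z2],.ref k178 k0 [(z1,[z1])],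
    .contra [z1]]),
    .old (.lp [k42,k45,k34,k45,k41,k32] [k9,k9,k14,k1,k13,k13,k0,k15,k18,k1,k14,k14] k0 [[k0,k0,k0,k11,k0,k0,k26],[k0,k0,
    k0,k0,k0,k0,k0,k0,k0,k0,k0,k21],[k0,k11],[k0,k0,k0,k0,k0,k4],[k0,k0,k4,k0,k0,k0,k0,k0,k0,k0,k1],[k0,k0,k0,k0,k0,
    k0,k0,k0,k0,k0,k1],[k0,k0,k0,k0,k0,k0,k0,k0,k22],[k0,k26],[k0,k0,k0,k0,k0,k0,k0,k0,k0,k0,k0,k1],[k0,k0,k0,k0,k0,
    k0,k0,k22],[k21,k0,k0,k0,k0,k0,k0,k0,k0,k1],[k0,k0,k0,k0,k1,k1]] k120 k6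
    [[(k8,k33),(k7,k35),(k4,k37),(k11,k38),(k3,k50),(k0,k63)],[(k9,k24),(k2,k26),(k10,k37),(k5,k38),(k6,k51),(k1,
    k63)],[(k10,k24),(k2,k45),(k1,k50),(k5,k57),(k9,k58),(k6,k85)],[(k0,k26),(k8,k28),(k11,k32),(k4,k33),(k7,k35),(k3,
    k45)],[(k8,k29),(k4,k30),(k7,k32),(k11,k33),(k0,k38),(k3,k57)],[(k5,k30),(k2,k33),(k10,k34),(k1,k37),(k9,k46),(k6,
    k47)],[(k5,k32),(k10,k32),(k1,k35),(k2,k35),(k9,k44),(k6,k45)],[(k11,k24),(k8,k42),(k7,k45),(k4,k47),(k0,k51),(k3,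
    k85)],[(k0,k24),(k7,k44),(k11,k45),(k4,k46),(k3,k58),(k8,k63)],[(k10,k27),(k2,k28),(k5,k29),(k1,k33),(k6,k42),(k9,
    k63)],[(k6,k24),(k2,k32),(k10,k32),(k5,k33),(k1,k38),(k9,k45)],[(k3,k24),(k8,k27),(k7,k32),(k11,k32),(k4,k34),(k0,
    k37)]]
    [] k0
    [[k1,k1,k0,k0,k0,k0],[k1,k1,k0,k0,k1,k0],[k1,k1,k0,k0,k0,k1],[k1,k0,k1,k0,k0,k0],[k1,k0,k2,k0,k0,k0],[k1,k0,k1,k0,
    k1,k0],[k1,k0,k1,k0,k0,k1],[k1,k0,k0,k1,k0,k0],[k1,k0,k0,k1,k1,k0],[k1,k0,k0,k1,k0,k1],[k1,k1,k0,k1,k0,k1],[k1,k0,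
    k0,k1,k1,k1],[k1,k0,k0,k0,k1,k0],[k2,k0,k0,k0,k2,k0],[k1,k0,k0,k0,k1,k1],[k1,k0,k0,k0,k0,k1],[k1,k1,k0,k0,k1,k1],
    [k1,k0,k0,k0,k0,k2],[k0,k2,k0,k0,k0,k0],[k0,k2,k0,k0,k0,k1],[k0,k1,k1,k0,k0,k0],[k0,k1,k0,k0,k1,k0],[k0,k1,k0,k0,
    k1,k1],[k0,k1,k0,k0,k0,k1],[k0,k2,k0,k0,k0,k2],[k0,k1,k1,k0,k0,k1],[k0,k1,k0,k1,k0,k1],[k0,k1,k1,k1,k0,k1],[k0,k1,
    k0,k1,k0,k2],[k0,k1,k0,k0,k0,k2],[k0,k0,k2,k0,k0,k0],[k0,k0,k3,k0,k0,k0],[k0,k0,k2,k1,k0,k0],[k0,k0,k2,k0,k1,k0],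
    [k0,k0,k2,k0,k0,k1],[k0,k0,k1,k1,k0,k0],[k0,k0,k1,k1,k0,k1],[k0,k0,k1,k0,k1,k0],[k0,k0,k1,k0,k1,k1],[k0,k0,k1,k0,
    k0,k1],[k0,k0,k1,k0,k0,k2],[k0,k0,k0,k2,k0,k0],[k0,k0,k0,k2,k0,k1],[k0,k0,k0,k1,k1,k0],[k0,k0,k0,k1,k1,k1],[k0,k0,
    k0,k1,k0,k1],[k0,k0,k0,k2,k0,k2],[k0,k0,k0,k1,k0,k2],[k0,k0,k0,k0,k1,k1],[k0,k0,k0,k0,k1,k2],[k0,k0,k0,k0,k0,k2],
    [k0,k0,k0,k0,k0,k3]]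
    [.ref k178 k8 [(z1,[z1])],.ref k0 k2 [(z1,[y1,z1,z1])],.ref k1 k3 [(z1,[y1,z0,z0,z1])],.contra [y1,z0,y1,z1],
    .ref (nat_lit 296) k1 [(z1,[z1,z0,z1,y1]),(z1,[z0,z0,z1])],.contra [y1,z0,y1,z1],.contra [z1,z1,z1,y1],
    .ref k0 k2 [(z1,[z1])],.ref k178 k8 [(z1,[y1,z1,z1])],.ref (nat_lit 370) k8 [(z1,[y1,z0,z1]),(z1,[z0,z0,y1,z1])],
    .contra [z1,z0,y1],.ref k178 k10 [(z1,[y1,z0,z0,z1])],.contra [y1,z1],.contra [y1,z2],.contra [y1,z0,y1,z1],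
    .contra [y1,z0,y1,z1],.ref k178 k4 [(z1,[y1,z0,z0,z1])],.ref (nat_lit 371) k0 [(z1,[z1,z0,z1,y1]),(z1,[y1,z0,y2,
    z2])],.contra [z1],.ref (nat_lit 353) k0 [(z1,[z1,z0,y2]),(z1,[y1,z0,z1,z1])],.ref k178 k10 [(z1,[z1])],
    .ref k0 k3 [(z1,[z1])],.ref (nat_lit 347) k5 [(z1,[y1,y1,z1]),(z1,[z0,z0,y1,z1])],.ref (nat_lit 296) k7 [(z1,[z1,
    z1,z0,y1]),(z1,[z1])],.ref (nat_lit 365) k0 [(z2,[z1,z0,y2]),(z2,[y1,z0,z0,z2])],.ref k178 k8 [(z1,[z1,z1,z1,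
    y1])],.contra [z1,z0,y1],.contra [z1,z1,z0,y1],.contra [z1,z0,y1],.ref (nat_lit 364) k5 [(z1,[y1,z0,z1]),(z1,[z0,
    z0,y1,z1])],.contra [z1],.ref (nat_lit 217) k10 [(z1,[z1]),(z1,[z0,z0,z1])],.ref (nat_lit 252) k5 [(z1,[z1,z0,z2,
    y2]),(z1,[z0,z0,y1,z1])],.contra [y1,y1,y2,z2],.contra [y1,y1,y2,z2],.ref k178 k4 [(z1,[z1])],.ref k0 k2 [(z1,[z1,
    z1,z1,y1])],.contra [y1,z0,y1,z1],.contra [y1,z0,y1,z1],.contra [y1,z0,y1,z1],.contra [y1,y1,y2,z2],.contra [y1,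
    z0,z2],.ref (nat_lit 353) k6 [(z1,[z1,z0,y2]),(z1,[y1,z0,z1,z1])],.ref k178 k3 [(z1,[z1])],.ref k1 k0 [(z1,[z1])],
    .ref (nat_lit 328) k8 [(z1,[y1,z0,z1]),(z1,[z0,z0,y1,z1])],.ref (nat_lit 365) k6 [(z2,[z1,z0,y2]),(z2,[y1,z0,z0,
    z2])],.ref (nat_lit 364) k8 [(z1,[y1,z0,z1]),(z1,[z0,z0,y1,z1])],.contra [y1,z0,y1,z1],.contra [y1,y1,y2,z2],
    .contra [z1],.ref (nat_lit 368) k0 [(z1,[z1]),(z1,[y1,z0,y3,z3])]]),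
    .old (.lp [(nat_lit 1102),(nat_lit 960),(nat_lit 972),(nat_lit 1182),(nat_lit 1046),(nat_lit 492)] [k40,k40,k111,k111,
    k105,k105,k0,k0,k68,k68,(nat_lit 345),(nat_lit 345)] k0 [[k0,k0,k0,k0,k0,k0,(nat_lit 480)],[k0,k0,k0,k0,k0,k0,k98,
    k0,k0,k0,k104],[k0,k0,k0,k0,k0,k12,k0,k0,k12],[k0,k0,k0,k0,k0,(nat_lit 258),k0,k0,k12],[k0,k0,(nat_lit 258),k12],
    [k0,k0,k0,k0,k0,k0,k0,k136,k0,k0,k0,k92],[k0,k0,k0,k0,k136,k0,k0,k0,k0,(nat_lit 394)],[k98,(nat_lit 480)],[k0,k0,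
    k0,k0,k0,k0,k0,(nat_lit 394),k0,k0,(nat_lit 228),k98],[k0,k0,k12,k12],[k0,k0,k0,k0,k92,k0,k0,k0,k0,k98],[k104,k0,
    k0,k0,k0,k0,k0,k0,k0,(nat_lit 228)]] (nat_lit 2880) k6
    [[(k8,(nat_lit 846)),(k11,(nat_lit 895)),(k3,(nat_lit 927)),(k0,(nat_lit 1102)),(k4,(nat_lit 1129)),(k7,
    (nat_lit 1142))],[(k9,(nat_lit 594)),(k10,(nat_lit 901)),(k2,(nat_lit 1031)),(k5,(nat_lit 1037)),(k1,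
    (nat_lit 1102)),(k6,(nat_lit 1240))],[(k10,(nat_lit 726)),(k9,(nat_lit 905)),(k1,(nat_lit 927)),(k2,
    (nat_lit 960)),(k5,(nat_lit 966)),(k6,(nat_lit 1551))],[(k11,(nat_lit 714)),(k4,(nat_lit 954)),(k3,(nat_lit 960)),
    (k8,(nat_lit 1015)),(k0,(nat_lit 1031)),(k7,(nat_lit 1329))],[(k4,(nat_lit 714)),(k11,(nat_lit 720)),(k3,
    (nat_lit 966)),(k8,(nat_lit 1021)),(k0,(nat_lit 1037)),(k7,(nat_lit 1089))],[(k5,(nat_lit 714)),(k10,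
    (nat_lit 732)),(k2,(nat_lit 954)),(k6,(nat_lit 1077)),(k1,(nat_lit 1129)),(k9,(nat_lit 1145))],[(k10,
    (nat_lit 745)),(k6,(nat_lit 1046)),(k5,(nat_lit 1089)),(k9,(nat_lit 1114)),(k1,(nat_lit 1142)),(k2,
    (nat_lit 1329))],[(k8,(nat_lit 720)),(k11,(nat_lit 837)),(k7,(nat_lit 1046)),(k4,(nat_lit 1077)),(k0,
    (nat_lit 1240)),(k3,(nat_lit 1551))],[(k0,(nat_lit 594)),(k3,(nat_lit 905)),(k8,(nat_lit 1046)),(k7,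
    (nat_lit 1114)),(k4,(nat_lit 1145)),(k11,(nat_lit 1163))],[(k10,(nat_lit 671)),(k6,(nat_lit 720)),(k1,
    (nat_lit 846)),(k2,(nat_lit 1015)),(k5,(nat_lit 1021)),(k9,(nat_lit 1046))],[(k2,(nat_lit 714)),(k5,
    (nat_lit 720)),(k10,(nat_lit 720)),(k6,(nat_lit 837)),(k1,(nat_lit 895)),(k9,(nat_lit 1163))],[(k8,(nat_lit 671)),
    (k11,(nat_lit 720)),(k3,(nat_lit 726)),(k4,(nat_lit 732)),(k7,(nat_lit 745)),(k0,(nat_lit 901))]]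
    [] k0
    [[k2,k0,k0,k0,k0,k0],[k2,k0,k0,k0,k1,k0],[k1,k1,k0,k0,k0,k0],[k1,k1,k0,k0,k1,k0],[k1,k1,k0,k0,k0,k1],[k1,k0,k1,k0,
    k0,k0],[k1,k0,k1,k0,k1,k0],[k1,k0,k1,k0,k0,k1],[k1,k0,k0,k1,k0,k0],[k1,k0,k0,k1,k1,k0],[k1,k0,k0,k0,k1,k0],[k1,k0,
    k0,k0,k2,k0],[k1,k0,k0,k0,k0,k1],[k1,k0,k0,k0,k1,k1],[k1,k0,k0,k0,k0,k2],[k0,k2,k0,k0,k0,k0],[k0,k2,k0,k0,k0,k1],
    [k0,k1,k1,k0,k0,k0],[k0,k1,k2,k0,k0,k0],[k0,k1,k1,k0,k0,k1],[k0,k1,k0,k0,k1,k0],[k0,k1,k0,k0,k1,k1],[k0,k1,k0,k0,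
    k0,k1],[k0,k1,k0,k0,k0,k2],[k0,k0,k2,k0,k0,k0],[k0,k0,k3,k0,k0,k0],[k0,k0,k4,k0,k0,k0],[k0,k0,k2,k0,k0,k1],[k0,k0,
    k1,k1,k0,k0],[k0,k0,k1,k1,k0,k1],[k0,k0,k1,k0,k1,k0],[k0,k0,k1,k0,k0,k1],[k0,k0,k1,k0,k1,k1],[k0,k0,k1,k0,k0,k2],
    [k0,k0,k0,k2,k0,k0],[k0,k0,k0,k2,k0,k1],[k0,k0,k0,k1,k1,k0],[k0,k0,k0,k1,k1,k1],[k0,k0,k0,k1,k0,k1],[k0,k0,k0,k1,
    k0,k2],[k0,k0,k0,k0,k2,k0],[k0,k0,k0,k0,k1,k1],[k0,k0,k0,k0,k1,k2],[k0,k0,k0,k0,k0,k2],[k0,k0,k0,k0,k0,k3]]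
    [.contra [z1],.contra [z1,y1],.ref k178 k8 [(z1,[z1])],.contra [z1,y1],.ref k1 k3 [(z1,[y1,z0,z0,z1])],
    .contra [y1,z0,y1,z1],.contra [z1,y1],.contra [z1,z1,z1,y1],.ref k0 k2 [(z1,[z1])],.contra [y1,z1,z1],.contra [y2,
    z2,z1],.contra [z1,y1],.contra [y1,z0,y1,z1],.contra [z1,y1],.ref (nat_lit 371) k0 [(z1,[z1,z0,z1,y1]),(z1,[y1,z0,
    y2,z2])],.contra [z1],.ref (nat_lit 353) k0 [(z1,[z1,z0,y2]),(z1,[y1,z0,z1,z1])],.ref k178 k10 [(z1,[z1])],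
    .ref (nat_lit 252) k8 [(z1,[z1,z0,z2,y2]),(z1,[z0,z0,y1,z1])],.contra [z1,z1,z1,y1],.ref k0 k3 [(z1,[z1])],
    .ref (nat_lit 370) k5 [(z1,[y1,z0,z1]),(z1,[z0,z0,y1,z1])],.ref (nat_lit 328) k0 [(z1,[z1,z0,y1]),(z1,[y1,z0,z0,
    z1])],.ref (nat_lit 252) k5 [(z1,[y1,y2,z1]),(z1,[z0,z0,y1,z1])],.contra [z1],.ref (nat_lit 217) k10 [(z1,[z1]),
    (z1,[z0,z0,z1])],.ref k5 k3 [(z1,[z0,z1]),(z2,[y1,y4,y4,z4]),(z1,[z0,z0,z1])],.contra [z1,z1,z1,y1],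
    .ref k178 k4 [(z1,[z1])],.contra [y1,y1,z0,z1],.contra [y1,z0,y1,z1],.contra [y2,y2,y1,z2],.contra [z1,z1,z1,y1],
    .contra [z1,z1,z1,y1],.contra [y1,z0,z2],.ref (nat_lit 353) k6 [(z1,[z1,z0,y2]),(z1,[y1,z0,z1,z1])],
    .ref k178 k3 [(z1,[z1])],.ref k1 k0 [(z1,[z1])],.ref (nat_lit 328) k8 [(z1,[y1,z0,z1]),(z1,[z0,z0,y1,z1])],
    .ref (nat_lit 252) k8 [(z1,[y1,y2,z1]),(z1,[z0,z0,y1,z1])],.contra [z1],.contra [y1,z0,y1,z1],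
    .ref (nat_lit 371) k6 [(z1,[z1,z0,z1,y1]),(z1,[y1,z0,y2,z2])],.contra [z1],.ref (nat_lit 368) k0 [(z1,[z1]),(z1,
    [y1,z0,y3,z3])]]),
    .old (.lp [(nat_lit 318),(nat_lit 318),(nat_lit 320),(nat_lit 324),(nat_lit 318),(nat_lit 320)] [(nat_lit 222),k0,
    k111,k111,k110,k110,k108,k108,k111,k111,k110,k110] k0 [[k0,k0,k14],[k0,k0,k0,k0,k0,k0,k0,k0,k0,k0,k0,k8],[k0,k0,
    k0,k0,k0,k0,k0,k0,k2],[k0,k14,k0,k0,k2],[k0,k0,k0,k0,k0,k0,k0,k2,k0,k0,(nat_lit 238)],[k0,k0,k2,k0,k0,k0,k0,k4],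
    [k0,k0,k0,k0,k4,k2],[k0,k0,k0,k0,k0,k0,k0,k0,k0,k78],[k0,k0,k0,k0,k0,k0,k78,k0,k0,k0,k2],[k0,k0,k0,k2],[k8],[k0,
    k0,k0,k0,k0,(nat_lit 238),k0,k0,k0,k2]] (nat_lit 960) k6
    [[(k4,k192),(k0,(nat_lit 326)),(k8,(nat_lit 427)),(k3,(nat_lit 429)),(k11,(nat_lit 430)),(k7,(nat_lit 432))],[(k5,
    k194),(k2,(nat_lit 207)),(k9,(nat_lit 207)),(k10,(nat_lit 208)),(k6,(nat_lit 210)),(k1,(nat_lit 326))],[(k10,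
    (nat_lit 311)),(k9,(nat_lit 318)),(k5,(nat_lit 319)),(k6,(nat_lit 321)),(k2,(nat_lit 332)),(k1,(nat_lit 429))],
    [(k0,(nat_lit 207)),(k11,(nat_lit 317)),(k8,(nat_lit 318)),(k4,(nat_lit 321)),(k7,(nat_lit 321)),(k3,
    (nat_lit 332))],[(k0,k194),(k3,(nat_lit 319)),(k4,(nat_lit 320)),(k7,(nat_lit 320)),(k11,(nat_lit 320)),(k8,
    (nat_lit 321))],[(k1,k192),(k5,(nat_lit 320)),(k6,(nat_lit 320)),(k10,(nat_lit 320)),(k2,(nat_lit 321)),(k9,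
    (nat_lit 323))],[(k5,(nat_lit 320)),(k6,(nat_lit 320)),(k2,(nat_lit 321)),(k9,(nat_lit 323)),(k1,(nat_lit 432)),
    (k10,(nat_lit 560))],[(k0,(nat_lit 210)),(k4,(nat_lit 320)),(k7,(nat_lit 320)),(k3,(nat_lit 321)),(k8,
    (nat_lit 321)),(k11,(nat_lit 400))],[(k0,(nat_lit 207)),(k8,(nat_lit 240)),(k3,(nat_lit 318)),(k11,(nat_lit 319)),
    (k4,(nat_lit 323)),(k7,(nat_lit 323))],[(k9,(nat_lit 240)),(k2,(nat_lit 318)),(k10,(nat_lit 319)),(k5,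
    (nat_lit 321)),(k6,(nat_lit 321)),(k1,(nat_lit 427))],[(k2,(nat_lit 317)),(k9,(nat_lit 319)),(k5,(nat_lit 320)),
    (k10,(nat_lit 322)),(k6,(nat_lit 400)),(k1,(nat_lit 430))],[(k0,(nat_lit 208)),(k3,(nat_lit 311)),(k8,
    (nat_lit 319)),(k4,(nat_lit 320)),(k11,(nat_lit 322)),(k7,(nat_lit 560))]]
    [] k0
    [[k2,k0,k0,k0,k0,k0],[k2,k0,k1,k0,k0,k0],[k1,k1,k0,k0,k0,k0],[k1,k1,k1,k0,k0,k0],[k1,k1,k0,k0,k1,k0],[k1,k1,k0,k0,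
    k0,k1],[k1,k0,k1,k0,k0,k0],[k2,k0,k2,k0,k0,k0],[k1,k0,k2,k0,k0,k0],[k1,k0,k1,k1,k0,k0],[k1,k0,k1,k0,k1,k0],[k1,k0,
    k1,k0,k0,k1],[k1,k0,k0,k1,k0,k0],[k1,k0,k0,k0,k1,k0],[k1,k0,k0,k0,k2,k0],[k1,k0,k0,k0,k1,k1],[k1,k0,k0,k0,k0,k1],
    [k0,k2,k0,k0,k0,k0],[k0,k1,k1,k0,k0,k0],[k0,k1,k1,k0,k0,k1],[k0,k1,k0,k1,k0,k0],[k0,k1,k0,k0,k1,k0],[k0,k1,k0,k0,
    k2,k0],[k0,k1,k0,k0,k1,k1],[k0,k1,k0,k0,k0,k1],[k0,k1,k0,k0,k0,k2],[k0,k0,k2,k0,k0,k0],[k0,k0,k1,k1,k0,k0],[k0,k0,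
    k1,k0,k1,k0],[k0,k0,k1,k0,k2,k0],[k0,k0,k1,k0,k0,k1],[k0,k0,k0,k2,k0,k0],[k0,k0,k0,k1,k1,k0],[k0,k0,k0,k1,k2,k0],
    [k0,k0,k0,k0,k2,k0],[k0,k0,k0,k0,k3,k0],[k0,k0,k0,k0,k2,k1],[k0,k0,k0,k0,k1,k1],[k0,k0,k0,k0,k0,k2]]
    [.contra [z1],.ref (nat_lit 372) k7 [(z1,[z1]),(z1,[z0,y1,y1,z1])],.contra [y1,z2,z1],.contra [y1,z1,z1],
    .contra [y1,z1,z1],.ref k0 k2 [(z1,[y1,z1,z0,z1])],.contra [y1,z1,z1],.ref (nat_lit 373) k10 [(z2,[z1]),(z1,[z0,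
    y1,y1,z1])],.ref (nat_lit 372) k10 [(z1,[z1]),(z1,[z0,y1,y1,z1])],.ref (nat_lit 342) k6 [(z1,[y1,y1,y1,z1]),(z1,
    [z0,z1,z1])],.contra [z1,z1],.ref (nat_lit 342) k4 [(z1,[y1,y1,y1,z1]),(z1,[z0,z1,z1])],.ref k0 k2 [(z1,[z1])],
    .contra [y1,z1,z1],.ref (nat_lit 296) k3 [(z1,[z1,y1,y1]),(z1,[z0,y1,y1,z1])],.ref k1 k2 [(z1,[z1])],
    .ref k178 k2 [(z1,[z1])],.contra [z1],.contra [y1,z1,z1],.ref (nat_lit 370) k4 [(z1,[y1,y1,y1,z1]),(z1,[z0,z1,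
    z1])],.ref (nat_lit 328) k8 [(z1,[z1,z1,z1,y1]),(z1,[y1,z0,z0,z1])],.contra [y1,z1,z1],.contra [y1,z0,z1],
    .ref (nat_lit 342) k6 [(z1,[z1,y1,y1]),(z1,[z0,z1,z1])],.ref (nat_lit 252) k11 [(z1,[z2,z2,z1,y2]),(z1,[y1,z0,z0,
    z1])],.ref k0 k2 [(z2,[y1,z0,y1,z2])],.contra [z1],.ref k178 k4 [(z1,[z1])],.contra [y1,z1,z1],.contra [y1,z0,z1],
    .ref k0 k0 [(z1,[z1])],.contra [z1],.ref k178 k3 [(z1,[z1])],.ref (nat_lit 252) k4 [(z1,[z1,y2,y2]),(z1,[z0,z1,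
    z1])],.contra [z1],.ref (nat_lit 217) k3 [(z1,[z1]),(z1,[z0,y1,y1,z1])],.ref (nat_lit 252) k6 [(z1,[z1,y2,y2]),
    (z1,[z0,z1,z1])],.ref k178 k0 [(z1,[z1])],.contra [y1,y2,y2,z2]]),
    .old (.lp [(nat_lit 2218),(nat_lit 1574),(nat_lit 1064),(nat_lit 1924),(nat_lit 1164),(nat_lit 1646)] [k172,k172,
    (nat_lit 494),(nat_lit 494),(nat_lit 749),(nat_lit 749),(nat_lit 638),k0,(nat_lit 699),(nat_lit 699),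
    (nat_lit 458),(nat_lit 458)] k0 [[k0,k0,k0,k0,k0,k0,k0,k0,k0,k0,(nat_lit 516)],[k0,k0,k0,(nat_lit 374),k0,k0,
    k156],[(nat_lit 374)],[k0,k0,k0,k0,k0,k102,k0,k0,k0,k10],[k0,k0,k102,k0,k0,k0,k0,k112],[k0,k0,k0,k0,k0,k0,k0,k0,
    k0,k0,(nat_lit 506),(nat_lit 1144)],[k0,k0,k0,k0,k0,k112,k0,k0,(nat_lit 436)],[k156],[k0,k0,k10],[k0,k0,k0,k0,k0,
    k0,k0,(nat_lit 436)],[k0,k0,k0,k0,(nat_lit 1144)],[k0,(nat_lit 516),k0,k0,(nat_lit 506)]] (nat_lit 4800) k6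
    [[(k8,(nat_lit 1691)),(k0,(nat_lit 1702)),(k7,(nat_lit 1884)),(k3,(nat_lit 1896)),(k11,(nat_lit 1932)),(k4,
    (nat_lit 2785))],[(k9,(nat_lit 1691)),(k1,(nat_lit 1702)),(k2,(nat_lit 1896)),(k6,(nat_lit 1908)),(k10,
    (nat_lit 1932)),(k5,(nat_lit 2015))],[(k2,(nat_lit 1200)),(k9,(nat_lit 1213)),(k5,(nat_lit 1319)),(k6,
    (nat_lit 1430)),(k1,(nat_lit 1896)),(k10,(nat_lit 2126))],[(k3,(nat_lit 1200)),(k4,(nat_lit 1319)),(k8,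
    (nat_lit 1369)),(k11,(nat_lit 1620)),(k0,(nat_lit 1896)),(k7,(nat_lit 2170))],[(k4,(nat_lit 962)),(k8,
    (nat_lit 1104)),(k3,(nat_lit 1319)),(k11,(nat_lit 1355)),(k7,(nat_lit 1813)),(k0,(nat_lit 2015))],[(k5,
    (nat_lit 962)),(k6,(nat_lit 1063)),(k9,(nat_lit 1114)),(k2,(nat_lit 1319)),(k10,(nat_lit 1861)),(k1,
    (nat_lit 2785))],[(k10,(nat_lit 960)),(k5,(nat_lit 1813)),(k1,(nat_lit 1884)),(k6,(nat_lit 1924)),(k9,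
    (nat_lit 1975)),(k2,(nat_lit 2170))],[(k11,(nat_lit 1030)),(k4,(nat_lit 1063)),(k8,(nat_lit 1225)),(k3,
    (nat_lit 1430)),(k0,(nat_lit 1908)),(k7,(nat_lit 1924))],[(k4,(nat_lit 1114)),(k3,(nat_lit 1213)),(k11,
    (nat_lit 1405)),(k8,(nat_lit 1600)),(k0,(nat_lit 1691)),(k7,(nat_lit 1975))],[(k5,(nat_lit 1104)),(k6,
    (nat_lit 1225)),(k2,(nat_lit 1369)),(k10,(nat_lit 1405)),(k9,(nat_lit 1600)),(k1,(nat_lit 1691))],[(k6,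
    (nat_lit 1030)),(k5,(nat_lit 1355)),(k9,(nat_lit 1405)),(k2,(nat_lit 1620)),(k10,(nat_lit 1646)),(k1,
    (nat_lit 1932))],[(k7,(nat_lit 960)),(k8,(nat_lit 1405)),(k11,(nat_lit 1646)),(k4,(nat_lit 1861)),(k0,
    (nat_lit 1932)),(k3,(nat_lit 2126))]]
    [] k0
    [[k2,k0,k0,k0,k0,k0],[k1,k1,k0,k0,k0,k0],[k1,k0,k0,k1,k0,k0],[k1,k0,k0,k0,k1,k0],[k1,k0,k0,k0,k0,k1],[k0,k2,k0,k0,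
    k0,k0],[k0,k3,k0,k0,k0,k0],[k0,k2,k1,k0,k0,k0],[k0,k2,k0,k0,k1,k0],[k0,k1,k1,k0,k0,k0],[k0,k1,k2,k0,k0,k0],[k0,k1,
    k3,k0,k0,k0],[k0,k1,k2,k0,k1,k0],[k0,k1,k1,k1,k0,k0],[k0,k1,k1,k0,k1,k0],[k0,k1,k0,k1,k0,k0],[k0,k1,k0,k1,k1,k0],
    [k0,k1,k0,k1,k0,k1],[k0,k1,k0,k0,k1,k0],[k0,k1,k0,k0,k2,k0],[k0,k1,k0,k0,k1,k1],[k0,k1,k0,k0,k0,k1],[k0,k0,k2,k0,
    k0,k0],[k0,k0,k3,k0,k0,k0],[k0,k0,k4,k0,k0,k0],[k0,k0,k3,k0,k1,k0],[k0,k0,k2,k1,k0,k0],[k0,k0,k2,k0,k1,k0],[k0,k0,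
    k2,k0,k2,k0],[k0,k0,k2,k0,k0,k1],[k0,k0,k2,k1,k0,k1],[k0,k0,k1,k1,k0,k0],[k0,k0,k1,k1,k1,k0],[k0,k0,k1,k1,k0,k1],
    [k0,k0,k1,k0,k1,k0],[k0,k0,k1,k0,k2,k0],[k0,k0,k1,k0,k1,k1],[k0,k0,k1,k1,k1,k1],[k0,k0,k1,k0,k0,k1],[k0,k0,k0,k2,
    k0,k0],[k0,k0,k0,k2,k0,k1],[k0,k0,k0,k1,k1,k0],[k0,k0,k0,k1,k1,k1],[k0,k0,k0,k1,k0,k1],[k0,k0,k0,k2,k0,k2],[k0,k0,
    k0,k1,k0,k2],[k0,k0,k0,k0,k2,k0],[k0,k0,k0,k0,k2,k1],[k0,k0,k0,k0,k1,k1],[k0,k0,k0,k0,k1,k2],[k0,k0,k0,k0,k0,k2]]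
    [.contra [z1],.ref k178 k8 [(z1,[z1])],.ref k0 k2 [(z1,[z1])],.ref (nat_lit 328) k3 [(z1,[z1,z0,z1,y1]),(z1,[y1,
    z0,z0,z1])],.ref k178 k2 [(z1,[z1])],.contra [z1],.ref k178 k10 [(z3,[z1,y1,y3,z3])],.ref (nat_lit 252) k1 [(z1,
    [z1,z0,y2]),(z1,[z0,z0,z1])],.ref (nat_lit 301) k10 [(z1,[z0,z0,y1,z1]),(z1,[y1,z0,z1])],.ref k178 k10 [(z1,
    [z1])],.contra [z1,z1,z2,y2],.contra [z1,z2,z3,y3],.contra [z1,z1,z2,y2],.ref k1 k2 [(z1,[y1,z0,z0,z1])],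
    .ref (nat_lit 342) k1 [(z1,[z1,z0,y1]),(z1,[z0,z0,z1])],.contra [y1,z0,z1],.contra [y1,z0,z1],.contra [y1,z0,z1],
    .contra [y1,z0,z1],.ref (nat_lit 355) k0 [(z1,[y1,z0,z1]),(z1,[z0,z0,y1,z1])],.contra [y1,z0,z1],.contra [y1,z0,
    z1],.contra [y1,z0,y2,z2],.contra [y1,z1,y3,z3],.contra [y1,z2,y4,z4],.contra [z1,z2,z3,y3],.contra [z1,z1,z2,y2],
    .contra [z1,z1,z2,y2],.contra [z1,z1,z2,y2],.contra [z1,z1,z2,y2],.contra [z1,z1,z2,y2],.ref k178 k4 [(z1,[z1])],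
    .ref k1 k3 [(z1,[z1])],.ref (nat_lit 342) k2 [(z1,[y1,z0,y1,z1]),(z1,[z0,z0,z1])],.ref (nat_lit 328) k2 [(z1,[y1,
    z0,y1,z1]),(z1,[z0,z0,z1])],.ref (nat_lit 364) k2 [(z1,[y1,z0,y1,z1]),(z1,[z0,z0,z1])],.ref (nat_lit 370) k2 [(z1,
    [y1,z0,y1,z1]),(z1,[z0,z0,z1])],.ref k178 k8 [(z1,[y1,z0,z0,z1])],.ref k0 k0 [(z1,[z1])],.contra [z1],
    .ref (nat_lit 372) k5 [(z1,[z1]),(z1,[z0,z0,y1,z1])],.contra [y1,z0,z1],.contra [y1,z0,z1],.contra [y1,z0,z1],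
    .ref (nat_lit 373) k0 [(z2,[z1]),(z1,[z0,z0,y1,z1])],.ref (nat_lit 372) k0 [(z1,[z1]),(z1,[z0,z0,y1,z1])],
    .contra [z1],.ref (nat_lit 371) k3 [(z1,[z1,z0,y1]),(z1,[y1,z0,z2])],.contra [y1,z0,z1],
    .ref (nat_lit 374) k6 [(z1,[z1,z0,y1]),(z1,[y1,z0,z2])],.contra [z1]]),
    .old (.lp [(nat_lit 68854),(nat_lit 55360),(nat_lit 48786),(nat_lit 49824),(nat_lit 67124),
    (nat_lit 41866)] [(nat_lit 8477),(nat_lit 8477),(nat_lit 25604),(nat_lit 4844),(nat_lit 11071),(nat_lit 25951),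
    (nat_lit 17992),(nat_lit 17992),(nat_lit 18684),k0,(nat_lit 21971),(nat_lit 21971)] k0 [[k0,k0,k0,k0,k0,k0,k0,
    (nat_lit 1384),k0,k0,(nat_lit 20068)],[k0,k0,k0,k0,k0,k0,k0,(nat_lit 29756),k0,k0,(nat_lit 6920)],[k0,k0,k0,k0,
    (nat_lit 692),k0,k0,k0,k0,(nat_lit 8304)],[k0,k0,k0,k0,k0,k0,k0,k0,k0,(nat_lit 7266)],[k0,k0,k0,k0,k0,k0,
    (nat_lit 41520)],[k0,k0,k0,(nat_lit 692),k0,k0,(nat_lit 17992)],[(nat_lit 29756),(nat_lit 1384)],[k0,k0,k0,k0,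
    (nat_lit 17992),(nat_lit 41520)],[k0,k0,(nat_lit 7266),(nat_lit 8304),k0,k0,k0,k0,k0,k0,k0,(nat_lit 6920)],[k0,k0,
    k0,k0,k0,k0,k0,k0,k0,k0,k0,(nat_lit 346)],[k0,k0,k0,k0,k0,k0,k0,k0,(nat_lit 346),(nat_lit 6920)],[(nat_lit 6920),
    (nat_lit 20068)]] (nat_lit 166080) k6
    [[(k0,(nat_lit 48786)),(k8,(nat_lit 58993)),(k7,(nat_lit 59339)),(k11,(nat_lit 62280)),(k3,(nat_lit 65567)),(k4,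
    (nat_lit 66260))],[(k1,(nat_lit 48786)),(k5,(nat_lit 51380)),(k2,(nat_lit 51727)),(k6,(nat_lit 57955)),(k10,
    (nat_lit 62280)),(k9,(nat_lit 107087))],[(k6,(nat_lit 33216)),(k5,(nat_lit 55013)),(k2,(nat_lit 55360)),(k1,
    (nat_lit 65567)),(k10,(nat_lit 79061)),(k9,(nat_lit 82348))],[(k8,(nat_lit 33216)),(k7,(nat_lit 41520)),(k11,
    (nat_lit 45499)),(k4,(nat_lit 49133)),(k0,(nat_lit 51727)),(k3,(nat_lit 55360))],[(k8,(nat_lit 33907)),(k7,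
    (nat_lit 41865)),(k11,(nat_lit 46190)),(k4,(nat_lit 49478)),(k0,(nat_lit 51380)),(k3,(nat_lit 55013))],[(k9,
    (nat_lit 33217)),(k2,(nat_lit 49133)),(k5,(nat_lit 49478)),(k10,(nat_lit 52766)),(k1,(nat_lit 66260)),(k6,
    (nat_lit 74737))],[(k2,(nat_lit 41520)),(k5,(nat_lit 41865)),(k10,(nat_lit 45845)),(k9,(nat_lit 49824)),(k1,
    (nat_lit 59339)),(k6,(nat_lit 91344))],[(k3,(nat_lit 33216)),(k11,(nat_lit 45845)),(k8,(nat_lit 49132)),(k0,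
    (nat_lit 57955)),(k4,(nat_lit 74737)),(k7,(nat_lit 91344))],[(k4,(nat_lit 33217)),(k7,(nat_lit 49824)),(k11,
    (nat_lit 63837)),(k8,(nat_lit 67124)),(k3,(nat_lit 82348)),(k0,(nat_lit 107087))],[(k2,(nat_lit 33216)),(k5,
    (nat_lit 33907)),(k10,(nat_lit 38233)),(k6,(nat_lit 49132)),(k1,(nat_lit 58993)),(k9,(nat_lit 67124))],[(k10,
    (nat_lit 41520)),(k2,(nat_lit 45499)),(k6,(nat_lit 45845)),(k5,(nat_lit 46190)),(k1,(nat_lit 62280)),(k9,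
    (nat_lit 63837))],[(k8,(nat_lit 38233)),(k11,(nat_lit 41520)),(k7,(nat_lit 45845)),(k4,(nat_lit 52766)),(k0,
    (nat_lit 62280)),(k3,(nat_lit 79061))]]
    [] k0
    [[k2,k0,k0,k0,k0,k0],[k3,k0,k0,k0,k0,k0],[k1,k1,k0,k0,k0,k0],[k1,k1,k0,k1,k0,k0],[k1,k0,k1,k0,k0,k0],[k1,k0,k0,k1,
    k0,k0],[k1,k0,k1,k0,k1,k0],[k1,k0,k0,k0,k0,k1],[k0,k2,k0,k0,k0,k0],[k0,k2,k1,k0,k0,k0],[k0,k2,k0,k1,k0,k0],[k0,k1,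
    k1,k0,k0,k0],[k0,k1,k2,k0,k0,k0],[k0,k1,k1,k0,k1,k0],[k0,k1,k1,k0,k0,k1],[k0,k1,k0,k1,k0,k0],[k0,k2,k0,k2,k0,k0],
    [k0,k1,k1,k1,k0,k0],[k0,k1,k1,k1,k1,k0],[k0,k1,k0,k1,k1,k0],[k0,k1,k0,k1,k0,k1],[k0,k1,k0,k0,k1,k0],[k0,k1,k0,k0,
    k0,k1],[k0,k0,k2,k0,k0,k0],[k0,k0,k3,k0,k0,k0],[k0,k0,k2,k0,k1,k0],[k0,k0,k2,k0,k0,k1],[k0,k0,k1,k1,k0,k0],[k0,k0,
    k1,k1,k1,k0],[k0,k0,k1,k1,k0,k1],[k0,k0,k1,k1,k1,k1],[k0,k0,k1,k0,k1,k0],[k0,k0,k2,k0,k2,k0],[k0,k0,k1,k0,k2,k0],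
    [k0,k0,k1,k0,k1,k1],[k0,k0,k1,k0,k0,k1],[k0,k0,k1,k0,k0,k2],[k0,k0,k1,k0,k1,k2],[k0,k0,k0,k1,k1,k0],[k0,k0,k0,k1,
    k1,k1],[k0,k0,k0,k1,k0,k1],[k0,k0,k0,k1,k0,k2],[k0,k0,k0,k0,k2,k0],[k0,k0,k0,k0,k1,k1],[k0,k0,k0,k0,k1,k2],[k0,k0,
    k0,k0,k0,k2],[k0,k0,k0,k0,k0,k3]]
    [.contra [z1],.ref (nat_lit 375) k7 [(z1,[z1]),(z1,[z0,y1,z1])],.ref k178 k8 [(z1,[z1])],
    .ref (nat_lit 342) k3 [(z1,[y1,z1]),(z1,[z0,y1,z1])],.ref (nat_lit 328) k3 [(z1,[y1,z1]),(z1,[z0,y1,z1])],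
    .ref k0 k2 [(z1,[z1])],.contra [z1,y1],.ref k178 k2 [(z1,[z1])],.contra [z1],.ref (nat_lit 374) k8 [(z1,[z1,z1,
    y1]),(z1,[y1,y2,z2])],.ref (nat_lit 372) k11 [(z1,[z1]),(z1,[z0,z1])],.contra [y1,y1,z1],
    .ref (nat_lit 371) k1 [(z1,[z1,z1,y1]),(z1,[y1,y2,z2])],.ref (nat_lit 370) k7 [(z1,[y1,z1]),(z1,[z0,y1,z1])],
    .contra [y1,y1,z1],.contra [y1,y1,z1],.ref (nat_lit 373) k4 [(z2,[z1]),(z1,[z0,z1])],.contra [y1,y1,z1],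
    .ref k178 k2 [(z1,[y1,z0,z1])],.ref (nat_lit 342) k7 [(z1,[y1,z1]),(z1,[z0,y1,z1])],.contra [y1,y1,z1],
    .ref k0 k3 [(z1,[z1])],.contra [y1,y1,z1],.contra [z1],.ref (nat_lit 368) k10 [(z1,[z1]),(z1,[y1,y3,z3])],
    .ref (nat_lit 364) k7 [(z1,[y1,z1]),(z1,[z0,y1,z1])],.ref (nat_lit 355) k4 [(z1,[y1,y1,z1]),(z1,[z0,z1])],
    .contra [y1,y1,z1],.ref k1 k3 [(z1,[z1])],.contra [y1,y1,z1],.ref k178 k8 [(z1,[y1,z0,z1])],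
    .ref (nat_lit 328) k10 [(z1,[z1,y1]),(z1,[y1,z0,z1])],.ref (nat_lit 365) k10 [(z2,[z1,y2]),(z2,[y1,z0,z2])],
    .ref (nat_lit 353) k10 [(z1,[z1,y2]),(z1,[y1,z1,z1])],.ref (nat_lit 342) k3 [(z1,[z1,z1,y1]),(z1,[z0,y1,z1])],
    .contra [y1,y1,z1],.ref (nat_lit 301) k2 [(z1,[z0,z1]),(z1,[y1,y1,z1])],.ref (nat_lit 347) k3 [(z1,[z1,z2,y2]),
    (z1,[z0,y1,z1])],.ref k178 k3 [(z1,[z1])],.ref k1 k0 [(z1,[z1])],.contra [y1,y1,z1],.ref (nat_lit 296) k6 [(z1,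
    [z1,z1,y1]),(z1,[z0,z1])],.contra [y1,z2],.ref k178 k0 [(z1,[z1])],.ref (nat_lit 252) k3 [(z1,[z1,z2,y2]),(z1,[z0,
    y1,z1])],.contra [z1],.ref (nat_lit 217) k0 [(z1,[z1]),(z1,[z0,z1])]]),
    .geo true z3 k4 [(y2,z6),(z4,y3),(z6,y6),(z2,z0),(z0,z3),(z2,z0)] [(z1,[z1]),(z1,[z0,z1]),(z1,[z0,z0,z3]),(z1,[z0,z0,
    z0,z1]),(z1,[]),(z1,[y1,y1,y3,y1,
    z3])] (Int.ofNat (nat_lit 349525)) (Int.ofNat (nat_lit 1048576)) (.s (.s (.l k1) (.s (.l k1) (.l k2))) (.s (.s (.l k2) (.l k1)) (.l k1))) [⟨z2,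
    z3,[[k0,k3],[k1,k4],[k2,k5]],.child (.ref k1 k2 [(z3,[z3,z0,y1,y3,y1,z3])])⟩],
    .old (.lp [k160,k160,k160,k148,k158,k172] [k6,k6,k6,k6,k6,k6,k12,k12,k7,k7,k0,k0] k0 [[k0,k0,k0,k20,k0,k0,k2,k18],[k0,
    k0,k0,k20],[k20,k20],[k0,k0,k0,k0,k0,k0,k0,k0,k4,k8],[k0,k0,k0,k0,k0,k0,k22,k16,k0,k0,k20],[],[k0,k18,k0,k0,k0,
    k16],[k0,k2,k0,k0,k0,k22],[k0,k0,k8,k0,k0,k0,k0,k0,k0,k0,k0,k8],[k0,k0,k4,k0,k0,k0,k0,k0,k0,k0,k0,k6],[k0,k0,k0,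
    k0,k0,k0,k0,k0,k6,k8],[k0,k0,k0,k0,k0,k20]] (nat_lit 480) k5
    [[(k4,k140),(k7,k154),(k0,k160),(k3,k160),(k8,k165),(k11,k174)],[(k6,k136),(k2,k140),(k9,k157),(k1,k160),(k10,
    k166),(k5,k180)],[(k2,k140),(k6,k156),(k1,k160),(k10,k166),(k9,k177),(k5,k180)],[(k0,k140),(k3,k140),(k7,k154),
    (k4,k160),(k8,k163),(k11,k174)],[(k8,k151),(k7,k154),(k4,k160),(k11,k162),(k0,k180),(k3,k180)],[(k9,k137),(k6,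
    k138),(k1,k140),(k2,k160),(k5,k160),(k10,k166)],[(k1,k154),(k2,k154),(k5,k154),(k9,k169),(k6,k170),(k10,k180)],
    [(k0,k136),(k4,k138),(k8,k153),(k3,k156),(k11,k160),(k7,k170)],[(k4,k137),(k0,k157),(k8,k158),(k11,k165),(k7,
    k169),(k3,k177)],[(k5,k151),(k6,k153),(k10,k157),(k9,k158),(k2,k163),(k1,k165)],[(k6,k160),(k5,k162),(k9,k165),
    (k10,k166),(k1,k174),(k2,k174)],[(k8,k157),(k0,k166),(k3,k166),(k4,k166),(k11,k166),(k7,k180)]]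
    [] k0
    [[k2,k0,k0,k0,k0,k0],[k2,k1,k0,k0,k0,k0],[k2,k0,k0,k1,k0,k0],[k1,k1,k0,k0,k0,k0],[k1,k2,k0,k0,k0,k0],[k1,k1,k0,k1,
    k0,k0],[k1,k0,k1,k0,k0,k0],[k1,k1,k1,k0,k0,k0],[k1,k0,k1,k1,k0,k0],[k1,k0,k1,k0,k1,k0],[k1,k0,k1,k0,k0,k1],[k1,k0,
    k0,k1,k0,k0],[k1,k0,k0,k2,k0,k0],[k1,k0,k0,k1,k1,k0],[k1,k0,k0,k0,k1,k0],[k1,k0,k0,k0,k0,k1],[k0,k2,k0,k0,k0,k0],
    [k0,k3,k0,k0,k0,k0],[k0,k2,k0,k1,k0,k0],[k0,k1,k1,k0,k0,k0],[k0,k1,k1,k1,k0,k0],[k0,k1,k0,k1,k0,k0],[k0,k1,k0,k0,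
    k1,k0],[k0,k1,k0,k0,k0,k1],[k0,k0,k2,k0,k0,k0],[k0,k0,k2,k1,k0,k0],[k0,k0,k2,k0,k1,k0],[k0,k0,k1,k1,k0,k0],[k0,k0,
    k1,k2,k0,k0],[k0,k0,k1,k1,k1,k0],[k0,k0,k1,k0,k1,k0],[k0,k0,k1,k0,k2,k0],[k0,k0,k1,k0,k0,k1],[k0,k0,k1,k0,k1,k1],
    [k0,k0,k0,k2,k0,k0],[k0,k0,k0,k1,k1,k0],[k0,k0,k0,k1,k0,k1],[k0,k0,k0,k0,k2,k0],[k0,k0,k0,k0,k3,k0],[k0,k0,k0,k0,
    k1,k1],[k0,k0,k0,k0,k0,k2]]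
    [.contra [z1],.ref k1 k0 [(z3,[y3,z1,z0,y1,z3])],.ref k27 k2 [(z3,[z0,z0,y1,y1,z3]),(z3,[y3,z1,z0,y1,z3])],
    .contra [y3,z1,z1],.ref k1 k0 [(z6,[y3,y1,z0,y2,z6])],.ref k1 k2 [(z3,[y3,z1,z0,y1,z3])],.contra [z3,z1,z0,y1],
    .ref k1 k0 [(z1,[y1,z0,z0,z0,z1])],.ref k27 k2 [(z3,[z0,z0,y1,y1,z3]),(z1,[y1,z0,z0,z0,z1])],.ref k1 k0 [(z3,[z3,
    y2,y1,y2,z3])],.ref k27 k2 [(z3,[z0,z0,y1,y1,z3]),(z3,[z3,y1,z1,y1])],.contra [y3,z0,y1,y1,z3],.ref k27 k2 [(z3,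
    [z0,z0,y1,y1,z3]),(z6,[y3,y1,z0,y2,z6])],.ref k1 k3 [(z3,[z3,y1,z0,z1])],.contra [y3,z1,z1],.contra [y3,z0,y1,y1,
    z3],.contra [z1],.ref k1 k0 [(z3,[y1,y1,z0,y1,z3])],.ref (nat_lit 377) k6 [(z1,[y3,y1,y1,y1,z3]),(z1,[z0,z0,z1]),
    (z1,[z1]),(z1,[z0,z0,z0,z1])],.contra [y3,z0,z1,z1],.ref k1 k2 [(z1,[y1,z0,z0,z0,z1])],.ref (nat_lit 376) k4 [(z1,
    [z1])],.contra [z3,z2,y1],.ref (nat_lit 376) k8 [(z1,[z1])],.contra [z3,z2,z0,y2],.ref k27 k2 [(z3,[z0,z0,y1,y1,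
    z3]),(z3,[y3,y1,z0,z1,z3])],.ref k1 k0 [(z3,[z3,y1,y1,y3,z3])],.contra [y3,y1,y1,z0,z3],.ref k27 k2 [(z3,[z0,z0,
    y1,y1,z3]),(z6,[y3,y2,z0,y1,z6])],.ref k1 k3 [(z1,[z1])],.contra [y3,z0,z1,z1],.ref k1 k0 [(z6,[z3,y2,y2,y3,z6])],
    .contra [y3,y1,y1,z0,z3],.ref k1 k2 [(z3,[z3,z1,z0,y1])],.contra [z1],.ref k178 k3 [(z1,[z1])],.contra [z3,z3,z1,
    z1,y3],.contra [z1],.ref k1 k0 [(z3,[z1,y1,y1,y1,z3])],.ref k178 k0 [(z1,[z1])],.contra [z1]])]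

noncomputable def cU6_2_n7_1 : List XN :=
  [.old (.lp [(nat_lit 324),(nat_lit 302),(nat_lit 310),(nat_lit 306),(nat_lit 332),(nat_lit 344)] [k10,k10,k21,k21,k17,
    k17,k19,k19,k6,k6,k0,k0] k0 [[k0,k0,k22,k0,k0,k0,k0,k44],[k0,k0,k10,k0,k0,k0,k0,k6],[k0,k0,k0,k0,k64,k0,k0,k0,k0,
    k4],[k10,k22],[k0,k0,k0,k0,k0,k0,k14,k30,k0,k0,k22],[k0,k0,k0,k64,k0,k0,k0,k0,k0,k0,k14],[k6,k44,k0,k0,k0,k30],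
    [k0,k0,k0,k0,k0,k14,k0,k0,k40],[k0,k0,k0,k4,k0,k0,k0,k0,k0,k0,k0,k8],[k0,k0,k0,k0,k0,k0,k40,k0,k0,k0,k0,k12],[k0,
    k0,k0,k0,k0,k0,k0,k0,k12,k8],[k0,k0,k0,k0,k14,k22]] (nat_lit 960) k5
    [[(k4,(nat_lit 295)),(k7,(nat_lit 301)),(k3,(nat_lit 313)),(k0,(nat_lit 324)),(k8,(nat_lit 340)),(k11,
    (nat_lit 342))],[(k6,(nat_lit 271)),(k5,(nat_lit 295)),(k2,(nat_lit 323)),(k1,(nat_lit 324)),(k9,(nat_lit 334)),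
    (k10,(nat_lit 334))],[(k5,(nat_lit 296)),(k6,(nat_lit 298)),(k1,(nat_lit 313)),(k10,(nat_lit 323)),(k2,
    (nat_lit 324)),(k9,(nat_lit 361))],[(k7,(nat_lit 240)),(k4,(nat_lit 306)),(k8,(nat_lit 313)),(k0,(nat_lit 323)),
    (k11,(nat_lit 323)),(k3,(nat_lit 324))],[(k0,(nat_lit 295)),(k3,(nat_lit 296)),(k7,(nat_lit 308)),(k8,
    (nat_lit 321)),(k11,(nat_lit 331)),(k4,(nat_lit 374))],[(k6,(nat_lit 278)),(k1,(nat_lit 295)),(k2,(nat_lit 306)),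
    (k9,(nat_lit 307)),(k10,(nat_lit 341)),(k5,(nat_lit 374))],[(k2,(nat_lit 240)),(k1,(nat_lit 301)),(k5,
    (nat_lit 308)),(k6,(nat_lit 320)),(k10,(nat_lit 347)),(k9,(nat_lit 349))],[(k0,(nat_lit 271)),(k4,(nat_lit 278)),
    (k3,(nat_lit 298)),(k7,(nat_lit 320)),(k11,(nat_lit 325)),(k8,(nat_lit 359))],[(k11,(nat_lit 298)),(k4,
    (nat_lit 307)),(k8,(nat_lit 332)),(k0,(nat_lit 334)),(k7,(nat_lit 349)),(k3,(nat_lit 361))],[(k2,(nat_lit 313)),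
    (k5,(nat_lit 321)),(k10,(nat_lit 330)),(k9,(nat_lit 332)),(k1,(nat_lit 340)),(k6,(nat_lit 359))],[(k9,
    (nat_lit 298)),(k2,(nat_lit 323)),(k6,(nat_lit 325)),(k5,(nat_lit 331)),(k10,(nat_lit 332)),(k1,(nat_lit 342))],
    [(k3,(nat_lit 323)),(k8,(nat_lit 330)),(k11,(nat_lit 332)),(k0,(nat_lit 334)),(k4,(nat_lit 341)),(k7,
    (nat_lit 347))]]
    [] k0
    [[k2,k0,k0,k0,k0,k0],[k2,k0,k1,k0,k0,k0],[k2,k0,k0,k1,k0,k0],[k1,k1,k0,k0,k0,k0],[k1,k1,k1,k0,k0,k0],[k1,k1,k0,k1,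
    k0,k0],[k1,k0,k1,k0,k0,k0],[k1,k0,k1,k1,k0,k0],[k1,k0,k1,k0,k1,k0],[k1,k0,k0,k1,k0,k0],[k1,k0,k0,k2,k0,k0],[k1,k0,
    k0,k0,k1,k0],[k1,k0,k0,k0,k0,k1],[k0,k2,k0,k0,k0,k0],[k0,k2,k1,k0,k0,k0],[k0,k2,k0,k1,k0,k0],[k0,k1,k1,k0,k0,k0],
    [k0,k1,k1,k1,k0,k0],[k0,k1,k1,k0,k1,k0],[k0,k1,k0,k1,k0,k0],[k0,k1,k0,k2,k0,k0],[k0,k1,k0,k0,k1,k0],[k0,k1,k0,k0,
    k0,k1],[k0,k1,k0,k1,k0,k1],[k0,k1,k0,k0,k1,k1],[k0,k0,k2,k0,k0,k0],[k0,k0,k1,k1,k0,k0],[k0,k0,k1,k2,k0,k0],[k0,k0,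
    k1,k0,k1,k0],[k0,k0,k1,k1,k1,k0],[k0,k0,k1,k0,k0,k1],[k0,k0,k1,k1,k0,k1],[k0,k0,k0,k2,k0,k0],[k0,k0,k0,k1,k1,k0],
    [k0,k0,k0,k1,k0,k1],[k0,k0,k0,k0,k2,k0],[k0,k0,k0,k0,k1,k1],[k0,k0,k0,k0,k0,k2]]
    [.contra [z1],.ref k1 k0 [(z1,[y1,z1,y1,z0,z1])],.ref k1 k0 [(z1,[y2,z1,y3,y3,z3])],.contra [z1,z1,y1],
    .ref k1 k0 [(z1,[y1,z0,z0,z0,z1])],.ref k1 k0 [(z1,[y2,y1,y1,y3,z3])],.contra [y1,z1,z0,z1],.ref k1 k2 [(z1,[y1,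
    z1,y1,z0,z1])],.ref k1 k0 [(z1,[y2,z1,y1,z1,z1])],.contra [y1,z0,y1,y1,z1],.ref k1 k3 [(z1,[z1,z0,z1,z2,y1])],
    .contra [y1,z0,y1,y1,z1],.contra [z1,y1],.contra [z1,z2,y2],.ref k1 k0 [(z1,[y1,y1,z1,z0,z1])],.ref k1 k0 [(z1,
    [y2,y3,z1,y3,z3])],.contra [y1,z0,z1,z1],.ref k1 k2 [(z1,[y1,z0,z0,z0,z1])],.ref k1 k0 [(z1,[y2,y1,z1,z1,z1])],
    .contra [y1,y1,z0,y1,z1],.ref k1 k3 [(z1,[z1,z1,z0,z2,y1])],.contra [y1,y1,z0,y1,z1],.contra [z1,z0,y1],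
    .ref k1 k0 [(z1,[z2,z1,y1,z1,y1])],.ref k1 k2 [(z1,[z1,z1,y1])],.contra [z1],.ref k178 k4 [(z1,[z1])],
    .ref k1 k3 [(z2,[z1,z0,z0,z1])],.contra [y1,z0,z0,z1],.ref k1 k3 [(z1,[z1])],.contra [y1,z1,z0,z1],
    .ref k27 k3 [(z1,[z0,y1,z0,y1,z1]),(z1,[z1])],.contra [z1],.contra [y1,z0,y1,y1,z1],.ref (nat_lit 376) k0 [(z1,
    [z1])],.contra [z1],.ref k178 k0 [(z1,[z1])],.contra [z1]]),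
    .old (.lp [(nat_lit 338),(nat_lit 320),(nat_lit 318),(nat_lit 314),(nat_lit 308),(nat_lit 320)] [k0,k0,k9,k9,k10,k10,
    k12,k12,k15,k15,k9,k9] k0 [[k0,k0,k34,k6],[k0,k0,k0,k0,k0,k0,k0,k30],[k0,k6,k0,k0,k0,k38,k0,k0,k0,k36],[k0,k34,k0,
    k0,k0,k8],[k0,k0,k8,k38,k0,k0,k34],[k0,k0,k0,k0,k0,k0,k0,k0,k0,k0,k30,k28],[k30,k0,k0,k0,k0,k0,k0,k0,k60],[k0,k0,
    k0,k0,k0,k34],[k0,k0,k0,k36],[k0,k0,k0,k0,k0,k0,k0,k60,k0,k0,k12],[k0,k0,k0,k0,k28],[k0,k0,k0,k0,k30,k0,k0,k0,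
    k12]] (nat_lit 960) k5
    [[(k7,(nat_lit 296)),(k11,(nat_lit 317)),(k8,(nat_lit 323)),(k3,(nat_lit 329)),(k0,(nat_lit 338)),(k4,
    (nat_lit 356))],[(k5,(nat_lit 294)),(k2,(nat_lit 323)),(k6,(nat_lit 326)),(k10,(nat_lit 329)),(k1,(nat_lit 338)),
    (k9,(nat_lit 353))],[(k6,(nat_lit 287)),(k9,(nat_lit 314)),(k10,(nat_lit 320)),(k5,(nat_lit 325)),(k1,
    (nat_lit 329)),(k2,(nat_lit 354))],[(k8,(nat_lit 278)),(k4,(nat_lit 281)),(k11,(nat_lit 320)),(k0,(nat_lit 323)),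
    (k7,(nat_lit 325)),(k3,(nat_lit 354))],[(k0,(nat_lit 294)),(k4,(nat_lit 310)),(k8,(nat_lit 313)),(k3,
    (nat_lit 325)),(k7,(nat_lit 354)),(k11,(nat_lit 355))],[(k9,(nat_lit 279)),(k2,(nat_lit 281)),(k5,(nat_lit 310)),
    (k6,(nat_lit 316)),(k10,(nat_lit 349)),(k1,(nat_lit 356))],[(k10,(nat_lit 289)),(k1,(nat_lit 296)),(k9,
    (nat_lit 311)),(k2,(nat_lit 325)),(k6,(nat_lit 348)),(k5,(nat_lit 354))],[(k11,(nat_lit 257)),(k3,(nat_lit 287)),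
    (k8,(nat_lit 311)),(k4,(nat_lit 316)),(k0,(nat_lit 326)),(k7,(nat_lit 348))],[(k4,(nat_lit 279)),(k7,
    (nat_lit 311)),(k3,(nat_lit 314)),(k11,(nat_lit 314)),(k0,(nat_lit 353)),(k8,(nat_lit 368))],[(k2,(nat_lit 278)),
    (k6,(nat_lit 311)),(k5,(nat_lit 313)),(k1,(nat_lit 323)),(k10,(nat_lit 326)),(k9,(nat_lit 368))],[(k6,
    (nat_lit 257)),(k9,(nat_lit 314)),(k1,(nat_lit 317)),(k2,(nat_lit 320)),(k10,(nat_lit 320)),(k5,(nat_lit 355))],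
    [(k7,(nat_lit 289)),(k3,(nat_lit 320)),(k11,(nat_lit 320)),(k8,(nat_lit 326)),(k0,(nat_lit 329)),(k4,
    (nat_lit 349))]]
    [] k0
    [[k2,k0,k0,k0,k0,k0],[k1,k1,k0,k0,k0,k0],[k1,k1,k1,k0,k0,k0],[k1,k0,k1,k0,k0,k0],[k1,k0,k0,k1,k0,k0],[k1,k1,k0,k1,
    k0,k0],[k1,k0,k1,k1,k0,k0],[k1,k0,k0,k1,k0,k1],[k1,k0,k0,k0,k1,k0],[k1,k0,k1,k0,k1,k0],[k1,k0,k0,k0,k0,k1],[k0,k2,
    k0,k0,k0,k0],[k0,k2,k0,k0,k1,k0],[k0,k1,k1,k0,k0,k0],[k0,k1,k2,k0,k0,k0],[k0,k1,k1,k0,k1,k0],[k0,k1,k0,k1,k0,k0],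
    [k0,k1,k1,k1,k0,k0],[k0,k1,k0,k1,k1,k0],[k0,k1,k0,k1,k0,k1],[k0,k1,k0,k0,k1,k0],[k0,k1,k0,k0,k0,k1],[k0,k1,k1,k0,
    k0,k1],[k0,k1,k0,k0,k1,k1],[k0,k0,k2,k0,k0,k0],[k0,k0,k3,k0,k0,k0],[k0,k0,k2,k0,k1,k0],[k0,k0,k1,k1,k0,k0],[k0,k0,
    k1,k1,k1,k0],[k0,k0,k1,k0,k1,k0],[k0,k0,k1,k0,k0,k1],[k0,k0,k0,k2,k0,k0],[k0,k0,k0,k2,k0,k1],[k0,k0,k0,k1,k1,k0],
    [k0,k0,k0,k1,k1,k1],[k0,k0,k0,k1,k0,k1],[k0,k0,k0,k1,k0,k2],[k0,k0,k0,k0,k2,k0],[k0,k0,k0,k0,k1,k1],[k0,k0,k0,k0,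
    k0,k2]]
    [.contra [z1],.contra [z1,y1,y1],.ref k1 k0 [(z1,[y1,z0,z0,z0,z1])],.contra [y1,z1,z0,z2],.ref k0 k2 [(z1,[z1])],
    .ref k27 k3 [(z1,[y1,z0,z1,y1,z1]),(z1,[z0,z0,z0,z1])],.ref k1 k2 [(z1,[z1,y1,y1,y2,z1])],
    .ref (nat_lit 378) k2 [(z1,[z2,z1]),(z1,[y2,y1,z0,y3,z3]),(z1,[y1,z1,z0,z3])],.contra [z1,z0,z1,z1,y1],
    .ref k1 k0 [(z1,[z1,y1,z0,y1])],.ref k178 k2 [(z1,[z1])],.contra [z1],.ref k1 k2 [(z2,[y1,y1,y1,y3,z3])],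
    .ref k178 k10 [(z1,[z1])],.ref k1 k2 [(z2,[y1,z0,y1,z0,z2])],.ref (nat_lit 378) k2 [(z1,[y2,z1,z0,z0,z2]),(z1,[z2,
    y1,z0,y3,z1]),(z1,[z1,z1,z0,z3,y1])],.contra [y1,z0,z1],.ref k1 k2 [(z1,[y1,z0,z0,z0,z1])],.ref k27 k3 [(z1,[z1]),
    (z1,[z0,z0,z0,z1])],.ref k1 k0 [(z1,[y1,y1,z0,y1,z1])],.contra [z1,z1,z0,z3,y1],.ref (nat_lit 376) k8 [(z1,[z1])],
    .ref (nat_lit 378) k8 [(z1,[z2,z0,z1,y2]),(z1,[z1,z0,y1,z2]),(z1,[y1,z0,z1,z1])],.ref k1 k2 [(z1,[y1,y1,y1,y2,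
    z2])],.contra [z1],.ref (nat_lit 378) k2 [(z1,[y2,z3,z0,z6]),(z1,[z2,y3,z0,y9,z3]),(z1,[z1])],.ref k27 k3 [(z2,
    [z1,y1,z1,y3,z1]),(z1,[z0,z0,z0,z1])],.contra [y2,z1,z1,z2],.ref k1 k3 [(z1,[z1])],.ref (nat_lit 376) k3 [(z1,
    [z1])],.contra [y1,z0,z0,z1],.contra [z1],.ref k1 k2 [(z1,[z1,z0,y1,y1,z1])],.ref k178 k3 [(z1,[z1])],
    .ref k1 k0 [(z1,[z1])],.contra [y1,z0,z0,z1],.ref k27 k3 [(z1,[y1,y1,z0,y1,z1]),(z1,[z0,z0,z0,z1])],.contra [z1],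
    .contra [y2,y1,y1,y2,z2],.contra [z1]]),
    .geo true z4 k5 [(y4,z10),(z4,y2),(z2,z1),(z8,y8),(z6,y5),(z0,z4)] [(z1,[z2]),(z1,[z0,z2]),(z1,[z0,z0,z1]),(z1,[z0,z0,
    z0,z4]),(z1,[y2,y2,y1,y4,z4]),(z1,
    [])] (Int.ofNat (nat_lit 419430)) (Int.ofNat (nat_lit 1048576)) (.s (.s (.l k1) (.l k2)) (.s (.l k1) (.l k1))) [⟨z2,
    z3,[[k0,k3],[k1,k4],[k2,k5]],.child (.ref k1 k2 [(z4,[z3,z0,y2,y1,y4,z4])])⟩],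
    .old (.lp [k84,k84,k80,k66,k80,k84] [k5,k5,k5,k5,k0,k14,k14,k14,k7,k7,k5,k5] k0 [[k0,k0,k4,k0,k0,k0,k2],[k0,k0,k0,k0,
    k0,k0,k6,k0,k0,k0,k6],[],[k0,k4,k0,k0,k2],[k0,k0,k0,k0,k0,k0,k0,k20,k0,k0,k0,k4],[k0,k0,k2],[k0,k0,k0,k0,k0,k20,
    k0,k0,k4],[k6,k2,k0,k0,k0,k0,k0,k0,k8],[],[k0,k0,k0,k0,k0,k0,k8,k4],[k0,k0,k0,k0,k0,k4],[k6]] (nat_lit 240) k5
    [[(k3,k78),(k7,k79),(k8,k82),(k0,k84),(k11,k84),(k4,k89)],[(k5,k71),(k9,k80),(k6,k81),(k1,k84),(k2,k84),(k10,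
    k90)],[(k5,k75),(k9,k76),(k6,k77),(k1,k78),(k10,k84),(k2,k88)],[(k7,k75),(k8,k82),(k0,k84),(k11,k84),(k3,k88),(k4,
    k91)],[(k7,k64),(k0,k71),(k8,k73),(k3,k75),(k11,k75),(k4,k80)],[(k6,k60),(k5,k80),(k10,k85),(k9,k87),(k1,k89),(k2,
    k91)],[(k5,k64),(k6,k66),(k2,k75),(k10,k75),(k1,k79),(k9,k93)],[(k4,k60),(k7,k66),(k11,k71),(k3,k77),(k0,k81),(k8,
    k81)],[(k11,k74),(k3,k76),(k0,k80),(k8,k84),(k4,k87),(k7,k93)],[(k5,k73),(k6,k81),(k1,k82),(k2,k82),(k10,k82),(k9,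
    k84)],[(k6,k71),(k9,k74),(k5,k75),(k1,k84),(k2,k84),(k10,k84)],[(k7,k75),(k8,k82),(k3,k84),(k11,k84),(k4,k85),(k0,
    k90)]]
    [] k0
    [[k2,k0,k0,k0,k0,k0],[k1,k1,k0,k0,k0,k0],[k1,k1,k0,k1,k0,k0],[k1,k0,k1,k0,k0,k0],[k1,k0,k1,k1,k0,k0],[k1,k0,k0,k1,
    k0,k0],[k1,k0,k0,k2,k0,k0],[k1,k0,k0,k0,k1,k0],[k1,k0,k0,k0,k0,k1],[k0,k2,k0,k0,k0,k0],[k0,k1,k1,k0,k0,k0],[k0,k1,
    k1,k1,k0,k0],[k0,k1,k0,k1,k0,k0],[k0,k1,k0,k2,k0,k0],[k0,k1,k0,k1,k0,k1],[k0,k1,k0,k0,k1,k0],[k0,k1,k0,k1,k1,k0],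
    [k0,k1,k0,k0,k0,k1],[k0,k0,k2,k0,k0,k0],[k0,k0,k2,k1,k0,k0],[k0,k0,k1,k1,k0,k0],[k0,k0,k1,k2,k0,k0],[k0,k0,k1,k1,
    k1,k0],[k0,k0,k1,k1,k0,k1],[k0,k0,k1,k0,k1,k0],[k0,k0,k1,k0,k1,k1],[k0,k0,k1,k0,k0,k1],[k0,k0,k0,k2,k0,k0],[k0,k0,
    k0,k3,k0,k0],[k0,k0,k0,k2,k0,k1],[k0,k0,k0,k1,k1,k0],[k0,k0,k0,k1,k0,k1],[k0,k0,k0,k1,k1,k1],[k0,k0,k0,k1,k0,k2],
    [k0,k0,k0,k0,k2,k0],[k0,k0,k0,k0,k1,k1],[k0,k0,k0,k0,k0,k2]]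
    [.contra [z1],.ref k178 k8 [(z1,[z1])],.ref k1 k0 [(z1,[y3,y1,y1,y4,z4])],.ref (nat_lit 376) k10 [(z1,[z1])],
    .ref (nat_lit 378) k10 [(z1,[z2,z0,z2,z3,y2]),(z1,[z1,z0,y2,y3,z2]),(z1,[y1,z0,y1,z0,z1])],.contra [y1,z0,y1,y1,
    z1],.ref k1 k3 [(z1,[z1,z0,z1,z2,y1])],.contra [z1,y1,z2],.contra [y2,z1,y1,z0,z1],.contra [z1],.contra [y1,z0,z1,
    z1],.ref k1 k2 [(z1,[y1,z0,z0,z0,z1])],.contra [y1,y1,z1,y1,z1],.ref (nat_lit 378) k8 [(z1,[y1,y2,z2,y2,z2]),(z1,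
    [z1,z2,z1,z5,y2]),(z1,[z2,z1,y1,z1,y1])],.ref k1 k0 [(z2,[z3,z1,y2,z1,y1])],.contra [y2,y1,z1,z0,z1],
    .ref k1 k0 [(z1,[z3,z2,y1,z2,y2])],.contra [z1,z0,y1],.contra [z1],.ref k1 k2 [(z2,[y1,z1,y1,z1,z1])],
    .ref k178 k4 [(z1,[z1])],.ref k1 k3 [(z2,[z1,z0,z0,z1])],.ref k1 k3 [(z1,[z1])],.ref (nat_lit 378) k8 [(z1,[y1,y1,
    z2,z0,z1]),(z1,[z1,z1,z1,z3,y1]),(z1,[z2,y1,y1,y3,z1])],.contra [y1,z0,z0,z1],.ref k1 k0 [(z1,[z3,y1,y1,y4,z1])],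
    .contra [y1,z0,z1,z1],.contra [z1],.ref (nat_lit 378) k8 [(z2,[y1,y3,z3,y3,z3]),(z2,[z1,z3,z3,z9,y3]),(z1,[z1])],
    .ref (nat_lit 381) k1 [(z1,[y2,z1,z1,z3,y1]),(z1,[z0,y1,z1,y1,z1]),(z1,[y2,z1,y3,y3,z3]),(z1,[z1])],.contra [y1,
    z0,y1,y1,z1],.ref (nat_lit 376) k0 [(z1,[z1])],.ref k1 k0 [(z1,[z1])],.ref k1 k0 [(z4,[z3,y1,y1,y1,z1])],
    .contra [z1],.ref k178 k0 [(z1,[z1])],.contra [z1]]),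
    .old (.lp [k76,k80,k76,k82,k84,k80] [k4,k4,k2,k2,k4,k4,k1,k1,k0,k0,k2,k2] k0 [[k0,k0,k10,k2,k0,k0,k0,k2],[k0,k0,k0,k0,
    k0,k0,k0,k0,k0,k0,k0,k10],[k0,k2,k0,k0,k6],[k0,k10,k0,k0,k0,k0,k0,k0,k6],[k0,k0,k0,k0,k0,k0,k2,k0,k0,k0,k8],[k0,
    k0,k0,k6],[k0,k2],[k0,k0,k0,k0,k0,k2,k0,k0,k0,k2],[k0,k0,k0,k0,k0,k0,k2,k0,k0,k0,k0,k4],[k0,k0,k6],[k10,k0,k0,k0,
    k0,k0,k0,k0,k0,k4],[k0,k0,k0,k0,k0,k8]] (nat_lit 240) k5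
    [[(k4,k68),(k3,k78),(k7,k79),(k8,k80),(k11,k82),(k0,k86)],[(k5,k66),(k2,k76),(k6,k77),(k10,k78),(k9,k80),(k1,
    k86)],[(k10,k70),(k1,k78),(k5,k80),(k6,k81),(k9,k84),(k2,k90)],[(k7,k75),(k0,k76),(k4,k78),(k11,k80),(k8,k88),(k3,
    k90)],[(k0,k66),(k11,k72),(k7,k79),(k3,k80),(k8,k80),(k4,k82)],[(k1,k68),(k2,k78),(k9,k78),(k10,k78),(k6,k79),(k5,
    k82)],[(k2,k75),(k1,k79),(k5,k79),(k9,k83),(k6,k84),(k10,k89)],[(k0,k77),(k4,k79),(k3,k81),(k8,k83),(k11,k83),(k7,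
    k84)],[(k4,k78),(k0,k80),(k8,k82),(k11,k82),(k7,k83),(k3,k84)],[(k10,k78),(k1,k80),(k5,k80),(k9,k82),(k6,k83),(k2,
    k88)],[(k5,k72),(k2,k80),(k10,k80),(k1,k82),(k9,k82),(k6,k83)],[(k3,k70),(k0,k78),(k4,k78),(k8,k78),(k11,k80),(k7,
    k89)]]
    [] k0
    [[k2,k0,k0,k0,k0,k0],[k2,k0,k1,k0,k0,k0],[k1,k1,k0,k0,k0,k0],[k1,k1,k1,k0,k0,k0],[k1,k1,k0,k1,k0,k0],[k1,k1,k0,k0,
    k0,k1],[k1,k0,k1,k0,k0,k0],[k1,k0,k2,k0,k0,k0],[k1,k0,k1,k1,k0,k0],[k1,k0,k1,k0,k1,k0],[k1,k0,k1,k0,k0,k1],[k1,k0,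
    k0,k1,k0,k0],[k1,k0,k0,k0,k1,k0],[k1,k0,k0,k0,k0,k1],[k0,k2,k0,k0,k0,k0],[k0,k1,k1,k0,k0,k0],[k0,k1,k1,k1,k0,k0],
    [k0,k1,k1,k0,k0,k1],[k0,k1,k0,k1,k0,k0],[k0,k1,k0,k0,k1,k0],[k0,k1,k0,k0,k0,k1],[k0,k1,k0,k1,k0,k1],[k0,k1,k0,k0,
    k0,k2],[k0,k0,k2,k0,k0,k0],[k0,k0,k2,k0,k0,k1],[k0,k0,k1,k1,k0,k0],[k0,k0,k1,k0,k1,k0],[k0,k0,k1,k0,k0,k1],[k0,k0,
    k1,k0,k1,k1],[k0,k0,k1,k0,k0,k2],[k0,k0,k0,k2,k0,k0],[k0,k0,k0,k1,k1,k0],[k0,k0,k0,k1,k0,k1],[k0,k0,k0,k0,k2,k0],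
    [k0,k0,k0,k0,k1,k1],[k0,k0,k0,k0,k0,k2]]
    [.contra [z1],.ref (nat_lit 382) k0 [(z1,[y1,z1,y1,z1]),(z1,[z0,z1]),(z1,[z0,z0,z1])],.contra [y1,z1,z1],
    .ref k1 k0 [(z1,[y1,z0,z0,z1])],.ref k27 k3 [(z1,[y1,z1,z2]),(z1,[z0,y1,y1,z1])],.ref k1 k3 [(z1,[y1,z0,z0,z1])],
    .ref (nat_lit 376) k10 [(z1,[z1])],.ref (nat_lit 380) k2 [(z1,[z1,z2,z2,y2]),(z1,[z0,z0,z1]),(z1,[z0,y1,y1,z1])],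
    .ref (nat_lit 379) k0 [(z1,[y1,z0,y1,z1]),(z1,[z0,z1]),(z1,[z0,z0,z1])],.ref k2 k2 [(z1,[z1])],.ref k27 k3 [(z1,
    [y1,z0,z0,z1]),(z1,[z0,y1,y1,z1])],.ref k0 k2 [(z1,[z1])],.contra [z1,y1],.ref k178 k2 [(z1,[z1])],.contra [z1],
    .ref k178 k10 [(z1,[z1])],.ref k1 k2 [(z1,[y1,z0,z0,z1])],.ref (nat_lit 378) k8 [(z1,[z2,z2,z3,y2]),(z1,[z1,y2,y3,
    z2]),(z1,[y1,y1,z0,z1])],.contra [y1,z0,z1],.contra [y1,z1,z1],.ref (nat_lit 376) k8 [(z1,[z1])],.ref k2 k2 [(z1,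
    [y1,z0,z0,z1])],.ref k2 k2 [(z2,[y1,z0,y1,z2])],.contra [z1],.ref k1 k2 [(z1,[y1,y1,y2,z2])],.contra [y1,y1,y1,
    z1],.ref (nat_lit 376) k3 [(z1,[z1])],.contra [y1,y1,y1,z1],.ref k27 k3 [(z1,[z1,z1,z2,y1]),(z1,[z0,y1,y1,z1])],
    .ref k2 k2 [(z1,[y1,y1,y2,z2])],.contra [z1],.ref k178 k3 [(z1,[z1])],.contra [y1,y1,y1,z1],.contra [z1],
    .ref k178 k0 [(z1,[z1])],.contra [z1]]),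
    .old (.lp [k150,k166,k162,k162,k158,k158] [k8,k8,k0,k0,k2,k2,k2,k2,k4,k4,k4,k4] k0 [[k0,k0,k10,k0,k0,k0,k0,k18],[k0,
    k0,k0,k0,k0,k0,k0,k0,k0,k0,k0,k14],[k0,k0,k0,k0,k22,k24],[k0,k10,k0,k0,k0,k0,k0,k0,k10],[k0,k0,k0,k24,k0,k0,k24],
    [k0,k0,k0,k22,k0,k0,k16],[k0,k18,k0,k0,k0,k0,k0,k0,k26,k2],[k0,k0,k0,k0,k16,k24],[k0,k0,k0,k0,k0,k0,k0,k2,k0,k0,
    k12,k8],[k0,k0,k10,k0,k0,k0,k0,k26],[k14,k0,k0,k0,k0,k0,k0,k0,k0,k8],[k0,k0,k0,k0,k0,k0,k0,k0,k0,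
    k12]] (nat_lit 480) k5
    [[(k8,k142),(k4,k156),(k7,k156),(k3,k158),(k11,k162),(k0,k164)],[(k6,k138),(k5,k146),(k9,k154),(k10,k154),(k2,
    k158),(k1,k164)],[(k10,k148),(k1,k158),(k5,k164),(k6,k164),(k2,k176),(k9,k180)],[(k4,k140),(k7,k142),(k0,k158),
    (k11,k162),(k8,k172),(k3,k176)],[(k0,k146),(k11,k150),(k8,k160),(k3,k164),(k4,k184),(k7,k186)],[(k9,k136),(k2,
    k140),(k1,k156),(k10,k160),(k6,k178),(k5,k184)],[(k2,k142),(k9,k144),(k1,k156),(k10,k160),(k5,k186),(k6,k186)],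
    [(k11,k134),(k0,k138),(k8,k158),(k3,k164),(k4,k178),(k7,k186)],[(k4,k136),(k7,k144),(k0,k154),(k11,k160),(k3,
    k180),(k8,k184)],[(k1,k142),(k10,k150),(k6,k158),(k5,k160),(k2,k172),(k9,k184)],[(k6,k134),(k5,k150),(k9,k160),
    (k1,k162),(k2,k162),(k10,k170)],[(k3,k148),(k8,k150),(k0,k154),(k4,k160),(k7,k160),(k11,k170)]]
    [] k0
    [[k2,k0,k0,k0,k0,k0],[k2,k0,k1,k0,k0,k0],[k2,k0,k0,k1,k0,k0],[k2,k0,k0,k0,k1,k0],[k1,k1,k0,k0,k0,k0],[k1,k1,k1,k0,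
    k0,k0],[k1,k1,k0,k1,k0,k0],[k1,k1,k0,k0,k0,k1],[k1,k0,k1,k0,k0,k0],[k1,k0,k1,k0,k1,k0],[k1,k0,k1,k0,k0,k1],[k1,k0,
    k0,k1,k0,k0],[k1,k0,k0,k1,k1,k0],[k1,k0,k0,k1,k0,k1],[k1,k0,k0,k0,k1,k0],[k1,k0,k0,k0,k1,k1],[k1,k0,k0,k0,k0,k1],
    [k0,k2,k0,k0,k0,k0],[k0,k1,k1,k0,k0,k0],[k0,k1,k1,k0,k1,k0],[k0,k1,k0,k1,k0,k0],[k0,k1,k0,k0,k1,k0],[k0,k1,k0,k0,
    k0,k1],[k0,k1,k1,k0,k0,k1],[k0,k1,k0,k1,k0,k1],[k0,k0,k2,k0,k0,k0],[k0,k0,k1,k1,k0,k0],[k0,k0,k1,k0,k1,k0],[k0,k0,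
    k1,k0,k0,k1],[k0,k0,k1,k0,k1,k1],[k0,k0,k0,k2,k0,k0],[k0,k0,k0,k1,k1,k0],[k0,k0,k0,k1,k1,k1],[k0,k0,k0,k1,k0,k1],
    [k0,k0,k0,k1,k0,k2],[k0,k0,k0,k0,k2,k0],[k0,k0,k0,k0,k1,k1],[k0,k0,k0,k0,k0,k2]]
    [.contra [z1],.ref k27 k3 [(z1,[y1,z1,z0,z1]),(z1,[z0,y1,y1,z1])],.ref k27 k2 [(z1,[z1,y1]),(z1,[z0,z0,z1])],
    .ref k1 k2 [(z1,[z1,y1])],.contra [y1,z1,z1],.ref k1 k0 [(z1,[y1,z0,z0,z1])],.ref k2 k2 [(z1,[y1,z1,z0,z1])],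
    .ref k1 k3 [(z1,[y1,z0,z0,z1])],.contra [y1,z0,y1,z1],.ref k2 k2 [(z1,[z1])],.ref k27 k3 [(z1,[y1,z0,z0,z1]),(z1,
    [z0,y1,y1,z1])],.contra [y1,z0,y1,z1],.ref k1 k0 [(z1,[z1,y1])],.ref k27 k2 [(z1,[z1]),(z1,[z0,z0,z1])],
    .contra [y1,z1,z1],.ref k1 k2 [(z1,[z1])],.contra [z1,z1],.contra [z1],.ref k178 k10 [(z1,[z1])],.ref k27 k2 [(z1,
    [y1,z0,z0,z1]),(z1,[z0,z0,z1])],.ref (nat_lit 376) k4 [(z1,[z1])],.contra [y1,z1,z1],.contra [y1,z0,z1],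
    .ref k1 k0 [(z1,[y1,y1,z0,z1])],.ref k2 k2 [(z1,[y1,z0,z0,z1])],.contra [z1],.contra [y1,z0,y1,z1],
    .ref (nat_lit 376) k3 [(z1,[z1])],.contra [y1,y1,y1,z1],.ref k2 k2 [(z1,[z1,z1])],.contra [z1],.ref k178 k3 [(z1,
    [z1])],.ref k1 k0 [(z1,[z1])],.contra [y1,y1,y1,z1],.ref k27 k2 [(z1,[z1,z1]),(z1,[z0,z0,z1])],.contra [z1],
    .contra [y1,z0,z1],.contra [z1,z2]]),
    .old (.tor k23 false k4 [(z1,[z0,z1]),(z1,[y1,y1,y2,z2]),(z1,[z1,z0,z1]),(z1,[z0,z0,z1])]),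
    .old (.lp [k152,k162,k166,k168,k146,k164] [k8,k8,k3,k3,k1,k1,k0,k0,k11,k11,k2,k2] k0 [[k0,k0,k2,k0,k0,k0,k4],[k0,k0,
    k2,k0,k0,k0,k0,k0,k0,k0,k0,k14],[k0,k0,k0,k0,k0,k0,k0,k0,k20],[k2,k2],[k0,k0,k0,k0,k0,k0,k0,k4,k0,k0,k2],[k0,k0,
    k0,k0,k0,k0,k0,k8],[k0,k0,k0,k0,k8,k4],[k0,k4,k0,k0,k0,k0,k0,k0,k16],[k0,k0,k0,k0,k0,k0,k0,k0,k0,k0,k24],[k0,k0,
    k0,k20,k0,k0,k16],[k14],[k0,k0,k0,k0,k0,k2,k0,k0,k0,k24]] (nat_lit 480) k5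
    [[(k8,k125),(k3,k157),(k4,k157),(k11,k158),(k7,k160),(k0,k166)],[(k9,k145),(k5,k157),(k10,k158),(k2,k159),(k6,
    k160),(k1,k166)],[(k10,k149),(k9,k154),(k1,k157),(k5,k162),(k2,k164),(k6,k169)],[(k11,k143),(k8,k154),(k0,k159),
    (k3,k164),(k4,k164),(k7,k165)],[(k0,k157),(k3,k162),(k11,k165),(k4,k166),(k7,k167),(k8,k176)],[(k1,k157),(k6,
    k163),(k2,k164),(k9,k164),(k10,k165),(k5,k166)],[(k1,k160),(k6,k160),(k9,k161),(k2,k165),(k5,k167),(k10,k168)],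
    [(k0,k160),(k7,k160),(k4,k163),(k11,k166),(k3,k169),(k8,k173)],[(k11,k139),(k0,k145),(k8,k146),(k3,k154),(k7,
    k161),(k4,k164)],[(k1,k125),(k9,k146),(k2,k154),(k10,k155),(k6,k173),(k5,k176)],[(k9,k139),(k2,k143),(k1,k158),
    (k5,k165),(k6,k166),(k10,k188)],[(k3,k149),(k8,k155),(k0,k158),(k4,k165),(k7,k168),(k11,k188)]]
    [] k0
    [[k2,k0,k0,k0,k0,k0],[k2,k0,k0,k0,k1,k0],[k1,k1,k0,k0,k0,k0],[k1,k1,k1,k0,k0,k0],[k1,k1,k0,k0,k1,k0],[k1,k1,k0,k0,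
    k0,k1],[k1,k0,k1,k0,k0,k0],[k1,k0,k1,k0,k1,k0],[k1,k0,k0,k1,k0,k0],[k1,k0,k0,k1,k1,k0],[k1,k0,k0,k0,k1,k0],[k1,k0,
    k0,k0,k2,k0],[k1,k0,k0,k0,k1,k1],[k1,k0,k0,k0,k0,k1],[k0,k2,k0,k0,k0,k0],[k0,k2,k0,k0,k1,k0],[k0,k2,k0,k0,k0,k1],
    [k0,k1,k1,k0,k0,k0],[k0,k1,k1,k0,k0,k1],[k0,k1,k0,k1,k0,k0],[k0,k1,k0,k0,k1,k0],[k0,k1,k0,k0,k2,k0],[k0,k1,k0,k0,
    k1,k1],[k0,k1,k0,k0,k0,k1],[k0,k0,k2,k0,k0,k0],[k0,k0,k1,k1,k0,k0],[k0,k0,k1,k0,k1,k0],[k0,k0,k1,k0,k0,k1],[k0,k0,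
    k0,k2,k0,k0],[k0,k0,k0,k1,k1,k0],[k0,k0,k0,k1,k0,k1],[k0,k0,k0,k0,k2,k0],[k0,k0,k0,k0,k3,k0],[k0,k0,k0,k0,k2,k1],
    [k0,k0,k0,k0,k1,k1],[k0,k0,k0,k0,k0,k2]]
    [.contra [z1],.ref (nat_lit 383) k4 [(z1,[y1,z0,z1]),(z1,[z1])],.contra [y1,z1,z1],.ref k1 k0 [(z1,[y1,z0,z0,
    z1])],.ref k27 k3 [(z1,[z0,z0,z1]),(z1,[y1,z0,z0,z1])],.ref k1 k3 [(z1,[y1,z0,z0,z1])],.contra [y1,z0,y1,z1],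
    .ref k2 k2 [(z1,[z1])],.contra [y1,z1,z1],.ref k27 k0 [(z1,[z0,y1,y1,z1]),(z1,[z1])],.contra [z1,z1],
    .ref (nat_lit 383) k4 [(z1,[y1,y1,z1]),(z1,[z1,z1])],.ref k1 k2 [(z1,[z1])],.contra [y1,z0,y1,z1],.contra [z1],
    .ref (nat_lit 385) k2 [(z1,[z0,z1]),(z1,[z1]),(z1,[z0,y1,y1,z1])],.ref (nat_lit 383) k3 [(z1,[y1,y1,y1,z1]),(z1,
    [z1])],.ref k178 k10 [(z1,[z1])],.ref k27 k0 [(z1,[z0,y1,y1,z1]),(z1,[y1,z0,z0,z1])],.contra [y1,z1,z1],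
    .contra [y1,z0,z1],.ref k27 k3 [(z1,[z0,z0,z1]),(z1,[y1,y1,z0,z1])],.ref k1 k3 [(z1,[y1,y1,z0,z1])],
    .ref (nat_lit 376) k8 [(z1,[z1])],.contra [z1],.ref k178 k4 [(z1,[z1])],.contra [y1,y1,y1,z1],.contra [y1,z0,y1,
    z1],.contra [z1],.contra [y1,z0,z1],.ref (nat_lit 376) k0 [(z1,[z1])],.contra [z1,z2],.ref (nat_lit 383) k4 [(z1,
    [y1,y2,z1]),(z1,[z1,z2])],.ref k1 k2 [(z1,[z1,z1])],.contra [y1,y1,y1,z1],.contra [z1]]),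
    .old (.lp [k82,k76,k90,k70,k78,k82] [k4,k4,k9,k5,k0,k0,k10,k10,k6,k6,k4,k4] k0 [[k0,k0,k26,k0,k0,k0,k0,k0,k0,k0,k0,
    k20],[k0,k0,k24,k0,k0,k0,k0,k0,k0,k0,k0,k18],[k0,k0,k0,k0,k8,k0,k0,k0,k2,k6],[k24,k26],[k0,k0,k0,k0,k0,k0,k10],
    [k0,k0,k0,k8,k0,k0,k0,k0,k0,k0,k12],[k0,k0,k0,k0,k0,k0,k0,k0,k14],[k0,k0,k0,k0,k0,k10,k0,k0,k12],[k0,k0,k0,k6,k0,
    k0,k0,k0,k0,k0,k20],[k0,k0,k0,k2,k0,k0,k12,k14],[k18,k20],[k0,k0,k0,k0,k12,k0,k0,k0,k0,k20]] (nat_lit 240) k5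
    [[(k8,k60),(k7,k64),(k11,k82),(k4,k86),(k0,k100),(k3,k101)],[(k5,k60),(k10,k62),(k6,k76),(k9,k80),(k1,k100),(k2,
    k101)],[(k5,k61),(k10,k63),(k6,k75),(k9,k79),(k1,k101),(k2,k102)],[(k7,k63),(k8,k69),(k11,k75),(k4,k81),(k0,k101),
    (k3,k102)],[(k0,k60),(k3,k61),(k7,k80),(k8,k86),(k11,k92),(k4,k98)],[(k9,k74),(k6,k80),(k2,k81),(k1,k86),(k5,k98),
    (k10,k98)],[(k2,k63),(k1,k64),(k9,k74),(k10,k76),(k5,k80),(k6,k80)],[(k11,k62),(k3,k75),(k0,k76),(k4,k80),(k7,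
    k80),(k8,k86)],[(k11,k68),(k4,k74),(k7,k74),(k3,k79),(k0,k80),(k8,k92)],[(k1,k60),(k2,k69),(k10,k80),(k5,k86),(k6,
    k86),(k9,k92)],[(k6,k62),(k9,k68),(k2,k75),(k1,k82),(k5,k92),(k10,k102)],[(k0,k62),(k3,k63),(k7,k76),(k8,k80),(k4,
    k98),(k11,k102)]]
    [] k0
    [[k2,k0,k0,k0,k0,k0],[k1,k1,k0,k0,k0,k0],[k1,k1,k0,k0,k0,k1],[k1,k0,k1,k0,k0,k0],[k1,k0,k0,k1,k0,k0],[k1,k0,k1,k1,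
    k0,k0],[k1,k0,k0,k2,k0,k0],[k1,k0,k0,k1,k1,k0],[k1,k0,k0,k1,k0,k1],[k1,k0,k0,k0,k1,k0],[k1,k0,k1,k0,k1,k0],[k1,k0,
    k0,k0,k2,k0],[k1,k0,k0,k0,k1,k1],[k1,k0,k0,k0,k0,k1],[k0,k2,k0,k0,k0,k0],[k0,k1,k1,k0,k0,k0],[k0,k1,k1,k1,k0,k0],
    [k0,k1,k1,k0,k1,k0],[k0,k1,k1,k0,k0,k1],[k0,k1,k0,k1,k0,k0],[k0,k1,k0,k2,k0,k0],[k0,k1,k0,k1,k1,k0],[k0,k1,k0,k1,
    k0,k1],[k0,k1,k0,k0,k1,k0],[k0,k1,k0,k0,k1,k1],[k0,k1,k0,k0,k0,k1],[k0,k0,k2,k0,k0,k0],[k0,k0,k1,k1,k0,k0],[k0,k0,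
    k1,k0,k1,k0],[k0,k0,k1,k0,k0,k1],[k0,k0,k0,k2,k0,k0],[k0,k0,k0,k2,k0,k1],[k0,k0,k0,k1,k1,k0],[k0,k0,k0,k1,k1,k1],
    [k0,k0,k0,k1,k0,k1],[k0,k0,k0,k0,k2,k0],[k0,k0,k0,k0,k1,k1],[k0,k0,k0,k0,k0,k2]]
    [.contra [z1],.contra [y1,z1,z1],.ref k1 k3 [(z1,[y1,z0,z0,z1])],.contra [y1,y1,y2,z2],.ref k0 k2 [(z1,[z1])],
    .ref (nat_lit 384) k2 [(z1,[z1,z1,z1,y1]),(z1,[y1,z0,z0,z1])],.ref (nat_lit 384) k2 [(z2,[z1,z1]),(z2,[y1,z1,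
    z2])],.ref (nat_lit 386) k4 [(z1,[z1,y1,y1]),(z1,[z0,z1,z1])],.ref (nat_lit 383) k0 [(z1,[z1,z1,z2,y2]),(z1,[z0,
    y1,y2,z2])],.contra [y1,z1,z1],.ref k1 k0 [(z1,[z1,z0,z1,y1])],.ref k1 k0 [(z2,[z1,y1])],.ref k1 k2 [(z1,[z1])],
    .ref k178 k2 [(z1,[z1])],.contra [z1],.ref k178 k10 [(z1,[z1])],.ref k1 k2 [(z1,[y1,z0,z0,z1])],
    .ref (nat_lit 383) k0 [(z1,[y1,z1,z2,y1]),(z1,[z0,y1,y2,z2])],.ref (nat_lit 386) k4 [(z1,[y1,y1,y1,z1]),(z1,[z0,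
    z1,z1])],.ref (nat_lit 376) k4 [(z1,[z1])],.ref (nat_lit 383) k2 [(z1,[y1,z1,z1]),(z1,[z1])],.ref k27 k3 [(z1,
    [z1]),(z1,[z0,y1,y1,z1])],.ref k1 k0 [(z1,[y1,z0,z1])],.contra [z1,y2,y3,z2],.ref (nat_lit 384) k2 [(z1,[y1,z1,
    z1]),(z1,[z1])],.ref (nat_lit 376) k8 [(z1,[z1])],.contra [z1],.contra [y1,y1,y1,z1],.ref (nat_lit 376) k3 [(z1,
    [z1])],.contra [y1,y1,y1,z1],.contra [z1],.ref (nat_lit 384) k2 [(z1,[z1,z1]),(z1,[y1,z0,z1])],.ref k178 k3 [(z1,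
    [z1])],.ref k1 k0 [(z1,[z1])],.contra [y1,y1,y1,z1],.contra [z1],.ref k178 k0 [(z1,[z1])],.contra [z1]]),
    .old (.lp [k114,k114,k122,k124,k122,k118] [k20,k20,k22,k18,k32,k0,k15,k15,k16,k16,k18,k18] k0 [[k0,k0,k44,k2],[k0,k0,
    k0,k0,k0,k0,k0,k0,k0,k0,k8,k28],[k0,k2,k0,k0,k0,k0,k0,k0,k2],[k0,k44],[k0,k0,k0,k0,k0,k0,k0,k2,k0,k0,k4],[],[k0,
    k0,k0,k0,k0,k2,k0,k0,k4],[],[k0,k0,k0,k0,k0,k0,k0,k0,k0,k0,k2],[k0,k0,k0,k2,k0,k0,k0,k4],[k28],[k8,k0,k0,k0,k0,k4,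
    k0,k0,k0,k2]] (nat_lit 360) k5
    [[(k4,k98),(k3,k108),(k8,k116),(k11,k116),(k7,k119),(k0,k142)],[(k5,k90),(k2,k110),(k9,k118),(k6,k119),(k10,k124),
    (k1,k142)],[(k10,k90),(k1,k108),(k9,k120),(k6,k121),(k5,k138),(k2,k158)],[(k4,k100),(k0,k110),(k11,k112),(k8,
    k116),(k7,k117),(k3,k158)],[(k0,k90),(k4,k122),(k11,k136),(k3,k138),(k7,k139),(k8,k140)],[(k1,k98),(k2,k100),(k10,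
    k104),(k6,k105),(k9,k106),(k5,k122)],[(k2,k117),(k1,k119),(k6,k124),(k9,k125),(k10,k125),(k5,k139)],[(k4,k105),
    (k11,k117),(k0,k119),(k3,k121),(k8,k123),(k7,k124)],[(k4,k106),(k0,k118),(k3,k120),(k11,k120),(k7,k125),(k8,
    k126)],[(k1,k116),(k2,k116),(k10,k120),(k6,k123),(k9,k126),(k5,k140)],[(k2,k112),(k1,k116),(k6,k117),(k9,k120),
    (k10,k120),(k5,k136)],[(k3,k90),(k4,k104),(k8,k120),(k11,k120),(k0,k124),(k7,k125)]]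
    [] k0
    [[k2,k0,k0,k0,k0,k0],[k2,k0,k1,k0,k0,k0],[k1,k1,k0,k0,k0,k0],[k1,k1,k1,k0,k0,k0],[k1,k1,k0,k1,k0,k0],[k1,k1,k0,k0,
    k1,k0],[k1,k1,k0,k0,k0,k1],[k1,k0,k1,k0,k0,k0],[k1,k0,k2,k0,k0,k0],[k1,k0,k1,k1,k0,k0],[k1,k0,k1,k0,k1,k0],[k1,k0,
    k1,k0,k0,k1],[k1,k0,k0,k1,k0,k0],[k1,k0,k0,k0,k1,k0],[k1,k0,k0,k0,k0,k1],[k1,k0,k0,k0,k1,k1],[k0,k2,k0,k0,k0,k0],
    [k0,k1,k1,k0,k0,k0],[k0,k1,k1,k0,k0,k1],[k0,k1,k0,k1,k0,k0],[k0,k1,k0,k1,k0,k1],[k0,k1,k0,k0,k1,k0],[k0,k1,k0,k0,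
    k1,k1],[k0,k1,k0,k0,k0,k1],[k0,k1,k0,k0,k0,k2],[k0,k0,k2,k0,k0,k0],[k0,k0,k1,k1,k0,k0],[k0,k0,k1,k0,k1,k0],[k0,k0,
    k1,k0,k0,k1],[k0,k0,k0,k2,k0,k0],[k0,k0,k0,k1,k1,k0],[k0,k0,k0,k1,k0,k1],[k0,k0,k0,k0,k2,k0],[k0,k0,k0,k0,k1,k1],
    [k0,k0,k0,k0,k0,k2]]
    [.contra [z1],.ref (nat_lit 387) k1 [(z1,[z1,y2]),(z1,[y1,z1,z1])],.ref k178 k8 [(z1,[z1])],.ref k1 k0 [(z1,[y1,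
    z0,z1])],.ref (nat_lit 386) k8 [(z1,[z1,y1]),(z1,[y1,z0,z1])],.ref (nat_lit 386) k10 [(z1,[y1,y1,z1]),(z1,[z0,
    z1])],.ref k1 k3 [(z1,[y1,z0,z1])],.ref (nat_lit 376) k10 [(z1,[z1])],.ref (nat_lit 383) k0 [(z1,[y1,z1]),(z1,
    [z1])],.ref k27 k2 [(z1,[z0,z1]),(z1,[y1,z0,z1])],.ref k2 k2 [(z1,[z1])],.ref (nat_lit 384) k4 [(z1,[y1,z1]),(z1,
    [z0,y1,z1])],.contra [y1,z1],.ref (nat_lit 376) k2 [(z1,[z1])],.contra [y1,z1],.ref k1 k2 [(z1,[z1])],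
    .contra [z1],.contra [y1,y1,z1],.ref (nat_lit 384) k0 [(z1,[z1,z1,y1]),(z1,[y1,z0,z1])],
    .ref (nat_lit 376) k4 [(z1,[z1])],.ref k2 k2 [(z1,[y1,z0,z1])],.contra [y1,y1,z1],.ref k27 k2 [(z1,[z0,z1]),(z1,
    [z1])],.ref (nat_lit 376) k8 [(z1,[z1])],.ref (nat_lit 383) k1 [(z1,[y1,y1,z1]),(z1,[z1])],.contra [z1],
    .ref k178 k4 [(z1,[z1])],.contra [y1,y1,z1],.ref k0 k0 [(z1,[z1])],.contra [z1],.ref k178 k3 [(z1,[z1])],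
    .contra [y1,z1],.contra [z1],.ref k178 k0 [(z1,[z1])],.contra [z1]]),
    .old (.lp [k138,k168,k174,k168,k146,k164] [k18,k18,k3,k3,k0,k0,k3,k3,k14,k14,k5,k5] k0 [[k0,k0,k18,k2,k0,k0,k8],[k0,
    k0,k0,k0,k0,k0,k20,k0,k0,k0,k0,k38],[k0,k2,k0,k0,k14],[k0,k18,k0,k0,k12],[k0,k0,k0,k0,k0,k0,k0,k18,k0,k0,k2],[k0,
    k0,k12,k14],[k0,k0,k0,k0,k0,k18,k0,k0,k14],[k20,k8,k0,k0,k0,k0,k0,k0,k4],[k0,k0,k0,k0,k0,k0,k0,k0,k0,k0,k22,k2],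
    [k0,k0,k0,k0,k0,k0,k4,k14],[k38,k0,k0,k0,k0,k0,k0,k0,k0,k2],[k0,k0,k0,k0,k0,k2,k0,k0,k0,k22]] (nat_lit 480) k5
    [[(k8,k120),(k3,k153),(k7,k153),(k11,k153),(k4,k154),(k0,k176)],[(k9,k134),(k5,k138),(k2,k151),(k10,k151),(k6,
    k173),(k1,k176)],[(k10,k128),(k9,k137),(k1,k153),(k5,k173),(k6,k176),(k2,k186)],[(k0,k151),(k7,k154),(k8,k157),
    (k11,k166),(k4,k183),(k3,k186)],[(k0,k138),(k7,k159),(k8,k160),(k11,k169),(k3,k173),(k4,k188)],[(k6,k153),(k1,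
    k154),(k9,k160),(k10,k169),(k2,k183),(k5,k188)],[(k1,k153),(k2,k154),(k5,k159),(k6,k168),(k10,k168),(k9,k175)],
    [(k11,k152),(k4,k153),(k8,k161),(k7,k168),(k0,k173),(k3,k176)],[(k0,k134),(k3,k137),(k11,k151),(k4,k160),(k8,
    k160),(k7,k175)],[(k1,k120),(k10,k153),(k2,k157),(k5,k160),(k9,k160),(k6,k161)],[(k9,k151),(k6,k152),(k1,k153),
    (k2,k166),(k5,k169),(k10,k186)],[(k3,k128),(k0,k151),(k8,k153),(k7,k168),(k4,k169),(k11,k186)]]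
    [] k0
    [[k2,k0,k0,k0,k0,k0],[k2,k0,k1,k0,k0,k0],[k2,k0,k0,k0,k1,k0],[k1,k1,k0,k0,k0,k0],[k1,k1,k1,k0,k0,k0],[k1,k1,k0,k0,
    k1,k0],[k1,k1,k0,k0,k0,k1],[k1,k0,k1,k0,k0,k0],[k1,k0,k1,k0,k1,k0],[k1,k0,k1,k0,k0,k1],[k1,k0,k0,k1,k0,k0],[k1,k0,
    k1,k1,k0,k0],[k1,k0,k0,k1,k1,k0],[k1,k0,k0,k1,k0,k1],[k1,k0,k0,k0,k1,k0],[k1,k0,k0,k0,k2,k0],[k1,k0,k0,k0,k1,k1],
    [k1,k0,k0,k0,k0,k1],[k0,k2,k0,k0,k0,k0],[k0,k1,k1,k0,k0,k0],[k0,k1,k0,k1,k0,k0],[k0,k1,k0,k0,k1,k0],[k0,k1,k0,k1,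
    k1,k0],[k0,k1,k0,k0,k2,k0],[k0,k1,k0,k0,k1,k1],[k0,k1,k0,k0,k0,k1],[k0,k1,k0,k1,k0,k1],[k0,k0,k2,k0,k0,k0],[k0,k0,
    k1,k1,k0,k0],[k0,k0,k1,k0,k1,k0],[k0,k0,k1,k0,k0,k1],[k0,k0,k0,k2,k0,k0],[k0,k0,k0,k1,k1,k0],[k0,k0,k0,k1,k0,k1],
    [k0,k0,k0,k0,k2,k0],[k0,k0,k0,k0,k2,k1],[k0,k0,k0,k0,k1,k1],[k0,k0,k0,k0,k0,k2]]
    [.contra [z1],.ref k2 k2 [(z2,[z1,y1,y1,z1])],.ref k2 k2 [(z3,[z1,y2,y3,z3])],.ref k178 k8 [(z1,[z1])],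
    .ref k1 k0 [(z1,[y1,z0,z0,z1])],.ref (nat_lit 388) k8 [(z1,[z1])],.ref k1 k3 [(z1,[y1,z0,z0,z1])],.contra [z1,z0,
    z1,y1],.ref k2 k2 [(z1,[z1])],.ref (nat_lit 388) k3 [(z1,[y1,z0,z0,z1])],.ref k0 k2 [(z1,[z1])],
    .ref (nat_lit 388) k4 [(z1,[z1])],.ref (nat_lit 388) k10 [(z1,[y1,z0,z0,z1])],.ref (nat_lit 388) k2 [(z1,[z1])],
    .ref (nat_lit 376) k2 [(z1,[z1])],.ref k2 k2 [(z2,[z1,y1,y2,z2])],.ref k1 k2 [(z1,[z1])],.ref k178 k2 [(z1,[z1])],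
    .contra [z1],.ref k178 k10 [(z1,[z1])],.ref (nat_lit 376) k4 [(z1,[z1])],.ref k0 k3 [(z1,[z1])],
    .ref (nat_lit 388) k3 [(z1,[z1])],.ref k1 k0 [(z1,[y1,z0,z1])],.ref (nat_lit 388) k4 [(z1,[y1,z0,z0,z1])],
    .ref (nat_lit 376) k8 [(z1,[z1])],.ref k2 k2 [(z1,[y1,z0,z0,z1])],.contra [z1],.ref k178 k4 [(z1,[z1])],
    .contra [y2,y2,y3,z3],.ref k0 k0 [(z1,[z1])],.contra [z1],.ref k178 k3 [(z1,[z1])],.ref (nat_lit 376) k0 [(z1,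
    [z1])],.contra [z1],.ref (nat_lit 388) k3 [(z1,[y1,z0,z1])],.ref k178 k0 [(z1,[z1])],.contra [z1]]),
    .old (.lp [k78,k80,k76,k82,k80,k82] [k2,k2,k1,k1,k3,k3,k0,k0,k1,k1,k0,k0] k0 [[k0,k0,k6,k2,k0,k0,k0,k2],[k0,k0,k0,k0,
    k0,k0,k0,k2,k0,k0,k0,k14],[k0,k2,k0,k0,k6],[k0,k6,k0,k0,k0,k0,k0,k0,k0,k12],[k0,k0,k0,k0,k0,k0,k4],[k0,k0,k0,k6,
    k0,k0,k0,k0,k0,k0,k2],[k2,k2],[k0,k0,k0,k0,k0,k4,k0,k0,k2],[k0,k0,k12],[k0,k0,k0,k0,k0,k0,k2,k0,k0,k0,k0,k2],[k14,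
    k0,k0,k0,k0,k0,k0,k0,k2],[k0,k0,k0,k0,k2]] (nat_lit 240) k5
    [[(k4,k77),(k7,k78),(k3,k79),(k11,k80),(k8,k81),(k0,k92)],[(k5,k71),(k2,k77),(k6,k78),(k10,k80),(k9,k81),(k1,
    k92)],[(k10,k67),(k1,k79),(k6,k79),(k5,k80),(k9,k82),(k2,k86)],[(k7,k75),(k0,k77),(k4,k78),(k8,k80),(k3,k86),(k11,
    k93)],[(k8,k66),(k0,k71),(k7,k79),(k11,k79),(k3,k80),(k4,k82)],[(k9,k74),(k1,k77),(k2,k78),(k6,k79),(k10,k81),(k5,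
    k82)],[(k2,k75),(k1,k78),(k5,k79),(k9,k81),(k10,k82),(k6,k86)],[(k0,k78),(k3,k79),(k4,k79),(k11,k82),(k8,k83),(k7,
    k86)],[(k4,k74),(k11,k79),(k8,k80),(k0,k81),(k7,k81),(k3,k82)],[(k5,k66),(k2,k80),(k9,k80),(k1,k81),(k10,k81),(k6,
    k83)],[(k5,k79),(k9,k79),(k1,k80),(k10,k80),(k6,k82),(k2,k93)],[(k3,k67),(k0,k80),(k11,k80),(k4,k81),(k8,k81),(k7,
    k82)]]
    [] k0
    [[k2,k0,k0,k0,k0,k0],[k1,k1,k0,k0,k0,k0],[k1,k1,k1,k0,k0,k0],[k1,k1,k0,k1,k0,k0],[k1,k0,k1,k0,k0,k0],[k1,k0,k2,k0,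
    k0,k0],[k1,k0,k1,k1,k0,k0],[k1,k0,k1,k0,k1,k0],[k1,k0,k1,k0,k0,k1],[k1,k0,k0,k1,k0,k0],[k1,k0,k0,k0,k1,k0],[k1,k0,
    k0,k0,k0,k1],[k1,k1,k0,k0,k0,k1],[k0,k2,k0,k0,k0,k0],[k0,k1,k1,k0,k0,k0],[k0,k1,k1,k1,k0,k0],[k0,k1,k1,k0,k1,k0],
    [k0,k1,k0,k1,k0,k0],[k0,k1,k0,k0,k1,k0],[k0,k1,k0,k0,k0,k1],[k0,k1,k1,k0,k0,k1],[k0,k1,k0,k1,k0,k1],[k0,k1,k0,k0,
    k1,k1],[k0,k0,k2,k0,k0,k0],[k0,k0,k2,k0,k1,k0],[k0,k0,k1,k1,k0,k0],[k0,k0,k1,k1,k1,k0],[k0,k0,k1,k0,k1,k0],[k0,k0,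
    k1,k0,k2,k0],[k0,k0,k1,k0,k1,k1],[k0,k0,k1,k0,k0,k1],[k0,k0,k0,k2,k0,k0],[k0,k0,k0,k1,k1,k0],[k0,k0,k0,k1,k0,k1],
    [k0,k0,k0,k0,k2,k0],[k0,k0,k0,k0,k1,k1],[k0,k0,k0,k0,k0,k2]]
    [.contra [z1],.ref k178 k8 [(z1,[z1])],.ref k1 k0 [(z1,[y1,z0,z1])],.ref (nat_lit 388) k0 [(z1,[y1,z0,z1])],
    .ref (nat_lit 376) k10 [(z1,[z1])],.ref (nat_lit 389) k3 [(z1,[y2,z1]),(z1,[z1,y1,z1])],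
    .ref (nat_lit 388) k4 [(z1,[z1])],.ref k2 k2 [(z1,[z1])],.ref (nat_lit 388) k3 [(z1,[y1,z0,z1])],.ref k0 k2 [(z1,
    [z1])],.contra [y1,z1],.ref k178 k2 [(z1,[z1])],.ref k1 k3 [(z1,[y1,z0,z1])],.contra [z1],.ref k178 k10 [(z1,
    [z1])],.ref k1 k2 [(z1,[y1,z0,z1])],.ref (nat_lit 388) k2 [(z1,[y1,z0,z1])],.ref (nat_lit 376) k4 [(z1,[z1])],
    .ref k0 k3 [(z1,[z1])],.ref (nat_lit 376) k8 [(z1,[z1])],.ref (nat_lit 388) k10 [(z1,[z1])],.ref k2 k2 [(z1,[y1,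
    z0,z1])],.ref (nat_lit 388) k4 [(z1,[y1,z0,z1])],.contra [z1],.ref k2 k2 [(z2,[z1,z1])],.ref k178 k4 [(z1,[z1])],
    .ref k1 k3 [(z1,[z1])],.ref (nat_lit 376) k3 [(z1,[z1])],.ref (nat_lit 389) k10 [(z1,[z1,y2]),(z1,[y1,z1,z1])],
    .ref (nat_lit 388) k0 [(z1,[z1])],.ref k0 k0 [(z1,[z1])],.contra [z1],.ref k178 k3 [(z1,[z1])],
    .ref (nat_lit 376) k0 [(z1,[z1])],.contra [z1],.ref k178 k0 [(z1,[z1])],.contra [z1]])]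

noncomputable def cU6_2_n7_2 : List XN :=
  [.old (.lp [k122,k124,k122,k114,k114,k118] [k14,k14,k13,k13,k14,k14,k18,k18,k18,k18,k32,k0] k0 [[],[k0,k0,k2,k0,k0,k0,
    k0,k0,k0,k0,k0,k4],[],[k2,k0,k0,k0,k0,k0,k0,k0,k0,k4],[k0,k0,k0,k0,k0,k0,k28],[k0,k0,k0,k0,k0,k0,k2,k0,k0,k0,k0,
    k2],[k0,k0,k0,k0,k0,k0,k0,k0,k42,k8],[k0,k0,k0,k0,k2,k28],[k0,k0,k4,k0,k0,k0,k0,k8,k0,k0,k2],[k0,k0,k0,k0,k0,k0,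
    k0,k42],[k4,k0,k0,k0,k2],[k0,k0,k0,k0,k0,k0,k0,k0,k0,k2]] (nat_lit 360) k5
    [[(k8,k116),(k7,k118),(k3,k123),(k4,k124),(k0,k126),(k11,k136)],[(k10,k104),(k6,k118),(k9,k118),(k5,k122),(k2,
    k125),(k1,k126)],[(k10,k101),(k6,k119),(k9,k119),(k5,k121),(k1,k123),(k2,k124)],[(k7,k119),(k8,k119),(k4,k123),
    (k3,k124),(k0,k125),(k11,k141)],[(k8,k114),(k7,k118),(k3,k121),(k0,k122),(k4,k122),(k11,k136)],[(k9,k90),(k10,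
    k104),(k6,k120),(k5,k122),(k2,k123),(k1,k124)],[(k10,k98),(k9,k112),(k1,k118),(k5,k118),(k2,k119),(k6,k142)],
    [(k11,k90),(k8,k106),(k0,k118),(k3,k119),(k4,k120),(k7,k142)],[(k4,k90),(k7,k112),(k0,k118),(k3,k119),(k11,k140),
    (k8,k156)],[(k10,k100),(k6,k106),(k5,k114),(k1,k116),(k2,k119),(k9,k156)],[(k6,k90),(k10,k120),(k1,k136),(k5,
    k136),(k9,k140),(k2,k141)],[(k7,k98),(k8,k100),(k3,k101),(k0,k104),(k4,k104),(k11,k120)]]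
    [] k0
    [[k2,k0,k0,k0,k0,k0],[k1,k1,k0,k0,k0,k0],[k1,k0,k1,k0,k0,k0],[k1,k0,k1,k0,k1,k0],[k1,k0,k0,k1,k0,k0],[k1,k0,k0,k1,
    k1,k0],[k1,k0,k0,k1,k0,k1],[k1,k0,k0,k0,k1,k0],[k1,k0,k0,k0,k0,k1],[k1,k0,k0,k0,k1,k1],[k0,k2,k0,k0,k0,k0],[k0,k1,
    k1,k0,k0,k0],[k0,k1,k1,k0,k1,k0],[k0,k1,k0,k1,k0,k0],[k0,k1,k0,k1,k1,k0],[k0,k1,k0,k1,k0,k1],[k0,k1,k0,k0,k1,k0],
    [k0,k1,k0,k0,k0,k1],[k0,k0,k2,k0,k0,k0],[k0,k0,k2,k0,k1,k0],[k0,k0,k1,k1,k0,k0],[k0,k0,k1,k1,k1,k0],[k0,k0,k1,k1,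
    k0,k1],[k0,k0,k1,k0,k1,k0],[k0,k0,k1,k0,k1,k1],[k0,k0,k1,k0,k0,k1],[k0,k0,k0,k2,k0,k0],[k0,k0,k0,k2,k0,k1],[k0,k0,
    k0,k1,k1,k0],[k0,k0,k0,k1,k1,k1],[k0,k0,k0,k1,k0,k1],[k0,k0,k0,k1,k0,k2],[k0,k0,k0,k0,k2,k0],[k0,k0,k0,k0,k1,k1],
    [k0,k0,k0,k0,k0,k2]]
    [.contra [z1],.ref k178 k8 [(z1,[z1])],.ref (nat_lit 376) k10 [(z1,[z1])],.ref k2 k2 [(z1,[z1])],.contra [y1,z1],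
    .ref (nat_lit 388) k10 [(z1,[y1,z0,z1])],.ref (nat_lit 388) k2 [(z1,[z1])],.ref (nat_lit 376) k2 [(z1,[z1])],
    .ref k178 k2 [(z1,[z1])],.ref k1 k2 [(z1,[z1])],.contra [z1],.ref k178 k10 [(z1,[z1])],.ref (nat_lit 388) k2 [(z1,
    [y1,z0,z1])],.ref (nat_lit 376) k4 [(z1,[z1])],.ref (nat_lit 388) k3 [(z1,[z1])],.ref k2 k2 [(z1,[y1,z0,z1])],
    .ref k0 k3 [(z1,[z1])],.ref (nat_lit 376) k8 [(z1,[z1])],.contra [z1],.ref (nat_lit 390) k1 [(z1,[z1])],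
    .ref k178 k4 [(z1,[z1])],.ref k1 k3 [(z1,[z1])],.ref (nat_lit 388) k8 [(z1,[y1,z0,z1])],
    .ref (nat_lit 376) k3 [(z1,[z1])],.ref (nat_lit 388) k0 [(z1,[z1])],.ref k0 k0 [(z1,[z1])],.contra [z1],
    .ref (nat_lit 390) k5 [(z1,[z1])],.ref k178 k3 [(z1,[z1])],.ref k1 k0 [(z1,[z1])],.ref (nat_lit 376) k0 [(z1,
    [z1])],.ref (nat_lit 388) k2 [(z2,[z1,z1])],.contra [z1],.ref k178 k0 [(z1,[z1])],.contra [z1]]),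
    .old (.lp [k170,k158,k142,k166,k154,k166] [k0,k0,k6,k6,k14,k14,k2,k2,k8,k8,k2,k2] k0 [[k0,k0,k38,k0,k0,k0,k0,k0,k0,k0,
    k8,k16],[k0,k0,k0,k0,k0,k0,k8,k2],[k0,k0,k0,k0,k38,k0,k0,k0,k0,k6],[k0,k38,k0,k0,k0,k0,k0,k0,k0,k10],[k0,k0,k0,k0,
    k0,k0,k30],[k0,k0,k0,k38,k0,k0,k0,k0,k0,k0,k12],[k2,k0,k0,k0,k0,k0,k0,k0,k6],[k8,k0,k0,k0,k0,k30],[k0,k0,k10,k6],
    [k0,k0,k0,k0,k0,k0,k0,k6,k0,k0,k0,k6],[k0,k16,k0,k0,k0,k0,k0,k0,k6],[k0,k8,k0,k0,k12]] (nat_lit 480) k5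
    [[(k4,k156),(k7,k156),(k0,k162),(k8,k168),(k11,k168),(k3,k180)],[(k5,k118),(k10,k152),(k1,k162),(k2,k164),(k9,
    k164),(k6,k176)],[(k9,k148),(k5,k150),(k6,k160),(k10,k170),(k1,k180),(k2,k196)],[(k7,k124),(k4,k150),(k8,k150),
    (k0,k164),(k11,k172),(k3,k196)],[(k0,k118),(k8,k138),(k3,k150),(k7,k154),(k11,k160),(k4,k180)],[(k9,k118),(k2,
    k150),(k6,k154),(k1,k156),(k10,k166),(k5,k180)],[(k2,k124),(k5,k154),(k1,k156),(k9,k160),(k10,k166),(k6,k196)],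
    [(k4,k154),(k3,k160),(k8,k160),(k11,k160),(k0,k176),(k7,k196)],[(k4,k118),(k3,k148),(k7,k160),(k8,k160),(k11,
    k160),(k0,k164)],[(k5,k138),(k2,k150),(k6,k160),(k9,k160),(k10,k160),(k1,k168)],[(k5,k160),(k6,k160),(k9,k160),
    (k10,k160),(k1,k168),(k2,k172)],[(k0,k152),(k8,k160),(k11,k160),(k4,k166),(k7,k166),(k3,k170)]]
    [] k0
    [[k2,k0,k0,k0,k0,k0],[k2,k0,k1,k0,k0,k0],[k1,k1,k0,k0,k0,k0],[k1,k1,k1,k0,k0,k0],[k1,k0,k1,k0,k0,k0],[k1,k0,k2,k0,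
    k0,k0],[k1,k0,k1,k0,k1,k0],[k1,k0,k1,k0,k0,k1],[k1,k0,k0,k1,k0,k0],[k1,k0,k1,k1,k0,k0],[k1,k0,k0,k1,k0,k1],[k1,k0,
    k0,k0,k1,k0],[k1,k0,k0,k0,k0,k1],[k0,k2,k0,k0,k0,k0],[k0,k1,k1,k0,k0,k0],[k0,k1,k1,k1,k0,k0],[k0,k1,k1,k0,k1,k0],
    [k0,k1,k0,k1,k0,k0],[k0,k1,k0,k1,k1,k0],[k0,k1,k0,k0,k1,k0],[k0,k1,k0,k0,k2,k0],[k0,k1,k0,k0,k0,k1],[k0,k1,k0,k1,
    k0,k1],[k0,k0,k2,k0,k0,k0],[k0,k0,k2,k0,k1,k0],[k0,k0,k1,k1,k0,k0],[k0,k0,k1,k1,k1,k0],[k0,k0,k1,k0,k1,k0],[k0,k0,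
    k1,k0,k2,k0],[k0,k0,k1,k0,k1,k1],[k0,k0,k1,k0,k0,k1],[k0,k0,k0,k2,k0,k0],[k0,k0,k0,k1,k1,k0],[k0,k0,k0,k1,k0,k1],
    [k0,k0,k0,k0,k2,k0],[k0,k0,k0,k0,k1,k1],[k0,k0,k0,k0,k0,k2]]
    [.contra [z1],.ref (nat_lit 390) k7 [(z1,[z1])],.ref k178 k8 [(z1,[z1])],.ref k1 k0 [(z1,[y1,z1])],
    .ref (nat_lit 376) k10 [(z1,[z1])],.ref (nat_lit 390) k10 [(z1,[z1])],.ref k2 k2 [(z1,[z1])],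
    .ref (nat_lit 388) k3 [(z1,[y1,z1])],.ref k0 k2 [(z1,[z1])],.ref (nat_lit 388) k4 [(z1,[z1])],
    .ref (nat_lit 388) k2 [(z1,[z1])],.ref (nat_lit 376) k2 [(z1,[z1])],.ref k178 k2 [(z1,[z1])],.contra [z1],
    .ref k178 k10 [(z1,[z1])],.ref k1 k2 [(z1,[y1,z1])],.ref (nat_lit 388) k2 [(z1,[y1,z1])],
    .ref (nat_lit 376) k4 [(z1,[z1])],.ref (nat_lit 388) k3 [(z1,[z1])],.ref k0 k3 [(z1,[z1])],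
    .ref (nat_lit 391) k3 [(z1,[z1])],.ref (nat_lit 376) k8 [(z1,[z1])],.ref k2 k2 [(z1,[y1,z1])],.contra [z1],
    .ref (nat_lit 390) k1 [(z1,[z1])],.ref k178 k4 [(z1,[z1])],.ref k1 k3 [(z1,[z1])],.ref (nat_lit 376) k3 [(z1,
    [z1])],.ref (nat_lit 390) k3 [(z1,[z1])],.ref (nat_lit 388) k0 [(z1,[z1])],.ref k0 k0 [(z1,[z1])],.contra [z1],
    .ref k178 k3 [(z1,[z1])],.ref (nat_lit 376) k0 [(z1,[z1])],.contra [z1],.ref k178 k0 [(z1,[z1])],.contra [z1]])]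

/-- the nodes with numbers from 367 -/
noncomputable def cU6_2_n7 : List XN :=
  cU6_2_n7_0 ++ (cU6_2_n7_1 ++ cU6_2_n7_2)

theorem cU6_2_k7 : allI (chkX 6 cU6_2_w ttU6 cU6_2_s (blkF [] cU6_2_D)) cU6_2_n7 367 = true := by
  decide +kernel

end Pool.Agent.Lib_MP_fa6e45
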