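import Pool.Agent.Lib_MP_fa6e45.CXA
import Pool.Agent.Lib_MP_fa6e45.CY6_1_0
import Pool.Agent.Lib_MP_fa6e45.CY6_1_1
import Pool.Agent.Lib_MP_fa6e45.CY6_1_2
import Pool.Agent.Lib_MP_fa6e45.CY6_1_3
import Pool.Agent.Lib_MP_fa6e45.CY6_1_4
import Pool.Agent.Lib_MP_fa6e45.CY6_1_5
import Pool.Agent.Lib_MP_fa6e45.CY6_1_6
import Pool.Agent.Lib_MP_fa6e45.CY6_1_7

/-!
MP_fa6e45_co, stage 7: certificates (generated by a program).
-/

namespace Pool.Agent.Lib_MP_fa6e45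

/-- the certificate -/
noncomputable def cU6_2 : CertX :=
  ⟨cU6_2_w, cU6_2_s, cU6_2_D,
    cU6_2_n0 ++ (cU6_2_n1 ++ (cU6_2_n2 ++ (cU6_2_n3 ++ (cU6_2_n4 ++ (cU6_2_n5 ++ (cU6_2_n6 ++ cU6_2_n7))))))⟩

theorem cU6_2_ok : chkE 6 ttU6 cU6_2 = true := by
  refine chkE_of (by decide +kernel) (by decide +kernel) ?_
  refine allI_appX (k := 84) cU6_2_k0 (by decide +kernel) ?_
  refine allI_appX (k := 137) cU6_2_k1 (by decide +kernel) ?_
  refine allI_appX (k := 176) cU6_2_k2 (by decide +kernel) ?_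
  refine allI_appX (k := 242) cU6_2_k3 (by decide +kernel) ?_
  refine allI_appX (k := 295) cU6_2_k4 (by decide +kernel) ?_
  refine allI_appX (k := 334) cU6_2_k5 (by decide +kernel) ?_
  refine allI_appX (k := 367) cU6_2_k6 (by decide +kernel) ?_
  exact cU6_2_k7

/-- the certificates of this file -/
noncomputable def lU6_1 : List CertX := [cU6_2]

theorem gU6_1 : allF (chkE 6 ttU6) lU6_1 = true := by
  unfold lU6_1
  change (bif chkE 6 ttU6 cU6_2 then true else false) = true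
  rw [cU6_2_ok]
  rfl

end Pool.Agent.Lib_MP_fa6e45
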