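import Pool.Agent.Lib_MP_fa6e45.CXT
import Pool.Agent.Lib_MP_fa6e45.HK

/-!
MP_fa6e45_co, stage 7: certificates (generated by a program).
-/

namespace Pool.Agent.Lib_MP_fa6e45

/-- classes `0 0 0 0 1 1`, types `C0 C0 C0 C0 B0 B1` -/
noncomputable def cU6_92 : CertX :=
  ⟨[k4,k4,k4,k4,k24,k25],[(false,k0,[k0,k1,k2,k3,k4,k5]),(true,k4,[k4,k3,k2,k1,k0,k5])],[[[([z1,z0,z0,z1,z1,z1],z2)],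
    [([z1,z0,z0,z0,z1,z1],z2)],[([z3,z0,z0,z0,z3,z0],z2),([z0,z1,z0,z1,z0,z0],z2),([z0,z0,z3,z0,z0,z0],z2)],[([z1,z0,
    z0,z0,z1,z0],z1),([z0,z1,z0,z1,z0,z0],z2),([z0,z0,z3,z0,z0,z0],z1)],[([z6,z0,z0,y3,z6,z0],z2),([z0,z1,z0,z1,z0,
    z0],z2),([z0,z0,z2,z1,z0,z0],z2)],[([z1,z0,z0,y1,z1,z0],z0),([z0,z1,z0,z1,z0,z0],z2),([z0,z0,z3,z3,z0,z0],z4)],
    [([z3,z0,z3,z0,z3,z0],z4),([z0,z1,z0,z1,z0,z0],z2)],[([z1,z0,z0,z0,z1,z0],z2),([z0,z3,z0,z3,z0,z0],z2),([z0,z0,z3,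
    z0,z0,z0],z2)],[([z1,z0,z0,z0,z1,z0],z2),([z0,z1,z0,z1,z0,z0],z1),([z0,z0,z3,z0,z0,z0],z1)],[([z1,z0,z0,z0,z1,z0],
    z2),([z0,z6,z0,z3,z0,z0],z2),([z0,z0,z2,z1,z0,z0],z2)],[([z1,z0,z0,z0,z1,z0],z2),([z0,z2,z0,z1,z0,z0],z2),([z0,z0,
    z6,z3,z0,z0],z2)],[([z1,z0,z0,z0,z1,z0],z2),([z0,z3,z3,z3,z0,z0],z4)]],[[([z1,z0,z1,z0,z1,z0],z2),([z0,z3,z0,z0,
    z0,z0],z2),([z0,z0,z0,z3,z0,z0],z2)],[([z3,z0,z0,y3,z3,z0],z2),([z0,z3,z0,z3,z0,z0],z4),([z0,z0,z3,z3,z0,z0],z4)],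
    [([z1,z0,z1,z0,z1,z0],z2),([z0,z3,z0,z3,z0,z0],z4)],[([z3,z3,z3,z3,z3,z0],z10)],[([z1,z0,z0,z0,z1,z2],z2),([z0,z1,
    z0,z0,z0,y2],z0),([z0,z0,z1,z0,z0,y1],z0)],[([z1,z0,z0,z0,z1,z0],z1),([z0,z1,z0,z1,z0,z0],z2),([z0,z0,z2,z0,z0,
    z0],z1)],[([z1,z0,z0,z0,z1,z2],z2),([z0,z1,z0,z1,z0,z0],z2)],[([z1,z0,z0,z0,z1,z0],z1),([z0,z1,z0,z1,z0,z0],z2),
    ([z0,z0,z3,z0,z0,z0],z2)],[([z1,z0,z0,z0,z1,z0],z1),([z0,z1,z0,z1,z0,z0],z2)],[([z1,z0,z1,z0,z1,z1],z2)],[([z1,z0,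
    z0,z0,z1,z0],z2),([z0,z1,z0,z1,z0,z0],z1),([z0,z0,z2,z0,z0,z0],z1)],[([z1,z0,z0,z0,z1,z0],z2),([z0,z6,z0,z6,z0,
    z0],z5),([z0,z0,z3,z0,z0,z0],z2)]],[[([z1,z0,z0,z0,z1,z0],z2),([z0,z2,z2,z2,z0,z0],z3)],[([z1,z0,z0,z0,z1,z0],z2),
    ([z0,z1,z0,z1,z0,z0],z1),([z0,z0,z3,z0,z0,z0],z2)],[([z1,z0,z0,z0,z1,z0],z2),([z0,z3,z0,z3,z0,z3],z4)],[([z1,z0,
    z0,z0,z1,z0],z2)],[]]],
    [.old (.leafM k1 [k0,k3,k4,k5] [] [(k1,k2,z1,[y1,z1]),(k2,k1,z1,[y1,z1])]),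
    .old (.leafM k4 [k4,k5,k0,k1,k2,k3] [(z1,[y1,z1])] []),
    .old (.leafM k10 [k0,k2,k4,k5] [(z1,[z0,z0,z1]),(z1,[y1,y3,y1,z3]),(z1,[z1])] [(k1,k3,z1,[z0,z1]),(k3,k1,z1,[z0,z1])]),
    .old (.leafM k11 [k4,k5,k0,k2] [(z1,[y3,y3,y1,z3]),(z1,[z0,z0,z1]),(z1,[z1])] [(k1,k3,z1,[z0,z1]),(k3,k1,z1,[z0,z1])]),
    .old (.lp [(nat_lit 248),(nat_lit 360),k182,(nat_lit 356),k48,(nat_lit 240)] [k56,k56,k0,k0,k89,k89,k2,k2,k156,k156,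
    k60,k60] k0 [[k0,k0,k0,k0,k0,k0,k4],[k0,k0,k0,k0,k0,k68],[],[],[k68],[k0,k0,k0,k0,k0,k0,k0,k60],[k0,k0,k0,k0,k60],
    [k0,k4]] (nat_lit 720) k6
    [[(k8,k148),(k11,(nat_lit 244))],[(k9,k144),(k5,(nat_lit 215)),(k3,(nat_lit 304)),(k7,(nat_lit 370))],[(k4,
    (nat_lit 203)),(k0,(nat_lit 304)),(k2,(nat_lit 360)),(k6,(nat_lit 362))],[(k9,(nat_lit 204)),(k5,(nat_lit 271)),
    (k7,(nat_lit 358)),(k3,(nat_lit 360))],[(k4,k182),(k0,(nat_lit 215)),(k6,(nat_lit 269)),(k2,(nat_lit 271))],[(k9,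
    k175),(k5,k182),(k3,(nat_lit 203)),(k7,(nat_lit 269))],[(k4,(nat_lit 269)),(k6,(nat_lit 296)),(k2,(nat_lit 358)),
    (k0,(nat_lit 370))],[(k9,(nat_lit 202)),(k5,(nat_lit 269)),(k7,(nat_lit 296)),(k3,(nat_lit 362))],[(k0,k144),(k4,
    k175),(k6,(nat_lit 202)),(k2,(nat_lit 204))],[(k10,k144),(k1,k148)],[(k10,(nat_lit 240)),(k1,(nat_lit 244))],[(k8,
    k144),(k11,(nat_lit 240))]]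
    [] k0
    [[k1,k0,k0,k0,k1,k0],[k2,k0,k0,k0,k2,k0],[k1,k1,k0,k0,k1,k0],[k1,k0,k1,k0,k1,k0],[k1,k0,k0,k0,k1,k1],[k0,k1,k1,k0,
    k0,k0],[k0,k1,k2,k0,k0,k0],[k0,k0,k2,k0,k0,k0],[k0,k0,k3,k0,k0,k0],[k0,k0,k1,k1,k0,k0],[k0,k0,k0,k2,k0,k0],[k0,k0,
    k0,k0,k0,k2]]
    [.contra [y6,z1,z0,z5],.ref k3 k0 [(z2,[z1]),(z1,[z0,z0,z1]),(z2,[y3,z1,z0,z3])],.ref k0 k0 [(z2,[y6,z1,z4,y1,
    z2])],.contra [z2,y1,y4,y3,z4],.contra [y2,z0,y1,y1,z2],.ref k0 k0 [(z1,[y1,z0,z0,z0,z1])],.contra [z1,z0,z1,y1],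
    .contra [z1],.ref k0 k0 [(z1,[y1,z0,y1,z1,z1])],.contra [y2,z0,z1,z1],.contra [y1,z0,z2],.contra [z1]]),
    .old (.lp [(nat_lit 15640),(nat_lit 28152),(nat_lit 12240),(nat_lit 18768),(nat_lit 3128),
    (nat_lit 15640)] [(nat_lit 6256),(nat_lit 6256),k0,k0,(nat_lit 7956),(nat_lit 7956),(nat_lit 4692),(nat_lit 4692),
    (nat_lit 12512),(nat_lit 12512),(nat_lit 6256),(nat_lit 6256)] k0 [[],[k0,k0,k0,(nat_lit 1955)],[(nat_lit 1955)],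
    [],[],[k0,k0,k0,k0,k0,k0,k0,(nat_lit 2760)],[k0,k0,k0,k0,(nat_lit 2760)]] (nat_lit 46920) k6
    [[(k8,(nat_lit 9384)),(k11,(nat_lit 15640))],[(k9,(nat_lit 9384)),(k5,(nat_lit 15895)),(k7,(nat_lit 17204)),(k3,
    (nat_lit 21896))],[(k4,(nat_lit 20196)),(k0,(nat_lit 21896)),(k6,(nat_lit 23460)),(k2,(nat_lit 26197))],[(k9,
    (nat_lit 15640)),(k5,(nat_lit 20196)),(k7,(nat_lit 23460)),(k3,(nat_lit 26197))],[(k4,(nat_lit 12240)),(k6,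
    (nat_lit 15504)),(k0,(nat_lit 15895)),(k2,(nat_lit 20196))],[(k9,(nat_lit 10444)),(k5,(nat_lit 12240)),(k7,
    (nat_lit 15504)),(k3,(nat_lit 20196))],[(k4,(nat_lit 15504)),(k6,(nat_lit 16008)),(k0,(nat_lit 17204)),(k2,
    (nat_lit 23460))],[(k9,(nat_lit 10948)),(k5,(nat_lit 15504)),(k7,(nat_lit 16008)),(k3,(nat_lit 23460))],[(k0,
    (nat_lit 9384)),(k4,(nat_lit 10444)),(k6,(nat_lit 10948)),(k2,(nat_lit 15640))],[(k1,(nat_lit 9384)),(k10,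
    (nat_lit 9384))],[(k1,(nat_lit 15640)),(k10,(nat_lit 15640))],[(k8,(nat_lit 9384)),(k11,(nat_lit 15640))]]
    [] k0
    [[k1,k0,k0,k0,k1,k0],[k2,k0,k0,k0,k2,k0],[k1,k0,k1,k0,k1,k0],[k1,k0,k0,k1,k1,k0],[k1,k0,k0,k0,k1,k1],[k0,k1,k1,k0,
    k0,k0],[k0,k0,k2,k0,k0,k0],[k0,k0,k3,k0,k0,k0],[k0,k0,k2,k1,k0,k0],[k0,k0,k1,k1,k0,k0],[k0,k0,k0,k2,k0,k0],[k0,k0,
    k0,k0,k0,k2]]
    [.contra [y1,z1,z1],.contra [y1,z2,z2],.contra [z1,y3,y2,y1,z2],.contra [y1,z1,z2],.contra [y1,z0,y1,z0,z1],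
    .ref k0 k0 [(z1,[y1,z0,z0,z0,z1])],.contra [z1],.ref k0 k0 [(z3,[y2,z0,y3,z1,z3])],.ref k0 k0 [(z1,[y2,z0,y1,z1,
    z1])],.contra [z1,y2,y2,y1,z2],.contra [y1,z0,z2],.contra [z1]]),
    .old (.lp [(nat_lit 15640),(nat_lit 28152),(nat_lit 12240),(nat_lit 18768),(nat_lit 3128),
    (nat_lit 15640)] [(nat_lit 6256),(nat_lit 6256),k0,k0,(nat_lit 7956),(nat_lit 7956),(nat_lit 4692),(nat_lit 4692),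
    (nat_lit 12512),(nat_lit 12512),(nat_lit 6256),(nat_lit 6256)] k0 [[],[k0,k0,k0,(nat_lit 1955)],[(nat_lit 1955)],
    [],[],[k0,k0,k0,k0,k0,k0,k0,(nat_lit 2760)],[k0,k0,k0,k0,(nat_lit 2760)]] (nat_lit 46920) k6
    [[(k8,(nat_lit 9384)),(k11,(nat_lit 15640))],[(k9,(nat_lit 9384)),(k5,(nat_lit 15895)),(k7,(nat_lit 17204)),(k3,
    (nat_lit 21896))],[(k4,(nat_lit 20196)),(k0,(nat_lit 21896)),(k6,(nat_lit 23460)),(k2,(nat_lit 26197))],[(k9,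
    (nat_lit 15640)),(k5,(nat_lit 20196)),(k7,(nat_lit 23460)),(k3,(nat_lit 26197))],[(k4,(nat_lit 12240)),(k6,
    (nat_lit 15504)),(k0,(nat_lit 15895)),(k2,(nat_lit 20196))],[(k9,(nat_lit 10444)),(k5,(nat_lit 12240)),(k7,
    (nat_lit 15504)),(k3,(nat_lit 20196))],[(k4,(nat_lit 15504)),(k6,(nat_lit 16008)),(k0,(nat_lit 17204)),(k2,
    (nat_lit 23460))],[(k9,(nat_lit 10948)),(k5,(nat_lit 15504)),(k7,(nat_lit 16008)),(k3,(nat_lit 23460))],[(k0,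
    (nat_lit 9384)),(k4,(nat_lit 10444)),(k6,(nat_lit 10948)),(k2,(nat_lit 15640))],[(k1,(nat_lit 9384)),(k10,
    (nat_lit 9384))],[(k1,(nat_lit 15640)),(k10,(nat_lit 15640))],[(k8,(nat_lit 9384)),(k11,(nat_lit 15640))]]
    [] k0
    [[k1,k0,k0,k0,k1,k0],[k2,k0,k0,k0,k2,k0],[k1,k0,k1,k0,k1,k0],[k1,k0,k0,k1,k1,k0],[k1,k0,k0,k0,k1,k1],[k0,k1,k1,k0,
    k0,k0],[k0,k0,k2,k0,k0,k0],[k0,k0,k3,k0,k0,k0],[k0,k0,k2,k1,k0,k0],[k0,k0,k1,k1,k0,k0],[k0,k0,k0,k2,k0,k0],[k0,k0,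
    k0,k0,k0,k2]]
    [.contra [y3,z1,z1],.ref k3 k0 [(z2,[z1]),(z1,[z0,z0,z1]),(z2,[y3,z2])],.contra [z1,y1,y2,z2],.ref k5 k1 [(z1,[z1,
    z0,y1]),(z1,[z0,z0,z1]),(z1,[y3,z1,z3])],.contra [y1,z0,y1,z1],.ref k0 k0 [(z1,[y1,z0,z0,z1])],.contra [z1],
    .ref k2 k0 [(z1,[y1,z1]),(z1,[z0,z0,z1]),(z1,[z1])],.ref k4 k0 [(z1,[y3,z2]),(z1,[z0,z0,z1]),(z1,[z1])],
    .ref k0 k1 [(z1,[y1,z0,z0,z1])],.contra [y1,z0,z2],.contra [z1]]),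
    .old (.leafM k10 [k1,k2,k3,k5] [(z1,[z0,z0,z1]),(z1,[y3,y1,y1,z3]),(z1,[z0,z1])] [(k4,k0,z1,[z1]),(k0,k4,z1,[z1])]),
    .old (.leafM k11 [k3,k5,k1,k2] [(z1,[y3,y3,y1,z3]),(z1,[z0,z0,z1]),(z1,[z0,z1])] [(k4,k0,z1,[z1]),(k0,k4,z1,[z1])]),
    .old (.lp [k42,k116,k62,k82,k96,k80] [k74,k74,k74,k0,k64,k64,k40,k68,k60,k34,k55,k55] k0 [[k0,k0,k4],[k0,k0,k0,k0,k0,
    k0,k0,k102],[k0,k0,k0,k0,k0,k0,k34],[k0,k4],[],[],[k102],[k0,k0,k0,k34]] (nat_lit 240) k6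
    [[(k8,k56),(k11,k61)],[(k5,k48),(k7,k48),(k3,k116),(k9,k184)],[(k6,k48),(k0,k116),(k2,k120),(k4,k126)],[(k7,k48),
    (k9,k48),(k5,k52),(k3,k120)],[(k0,k48),(k2,k52),(k4,k62),(k6,k120)],[(k7,k58),(k5,k62),(k9,k92),(k3,k126)],[(k0,
    k48),(k2,k48),(k4,k58),(k6,k82)],[(k3,k48),(k7,k82),(k9,k116),(k5,k120)],[(k2,k48),(k4,k92),(k6,k116),(k0,k184)],
    [(k1,k56),(k10,k75)],[(k1,k61),(k10,k80)],[(k8,k75),(k11,k80)]]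
    [] k0
    [[k1,k1,k0,k0,k1,k0],[k1,k1,k0,k1,k1,k0],[k1,k0,k1,k0,k1,k0],[k1,k0,k0,k1,k1,k0],[k0,k2,k0,k1,k0,k0],[k0,k1,k1,k0,
    k0,k0],[k0,k1,k0,k1,k0,k0],[k0,k2,k0,k2,k0,k0],[k0,k1,k1,k1,k0,k0],[k0,k1,k2,k1,k0,k0],[k0,k1,k0,k2,k0,k0],[k0,k0,
    k2,k0,k0,k0],[k0,k0,k3,k0,k0,k0],[k0,k0,k1,k1,k0,k0],[k0,k0,k0,k2,k0,k0],[k0,k0,k0,k0,k0,k2]]
    [.contra [z1,y1],.contra [z1,y1],.contra [z1,y1],.contra [y1,z1,z0,z1],.contra [z1,y4,y1,y2,z4],.contra [y2,z0,z1,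
    z1],.contra [y6,z0,z1,z5],.contra [y2,z0,z1,z1],.contra [z2,y4,y1,y3,z4],.contra [z1,z0,z0,y1],.contra [y2,z0,z1,
    z1],.contra [z1],.contra [z2,z0,z1,y3],.contra [y1,z0,z0,z1],.contra [z1],.contra [z1]]),
    .old (.lp [k24,k65,k24,k53,k33,k40] [k41,k41,k41,k0,k41,k41,k19,k34,k39,k34,k33,k33] k0 [[k0,k0,k0,k0,k7],[k0,k0,k0,
    k0,k0,k0,k0,k63],[],[],[k0,k0,k0,k0,k0,k0,k7],[k0,k7],[k63],[k0,k0,k0,k0,k0,k7]] k120 k6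
    [[(k8,k26),(k11,k32)],[(k5,k24),(k7,k24),(k3,k65),(k9,k94)],[(k6,k24),(k0,k65),(k2,k65),(k4,k72)],[(k5,k24),(k7,
    k31),(k9,k31),(k3,k65)],[(k0,k24),(k2,k24),(k4,k24),(k6,k46)],[(k5,k24),(k9,k24),(k7,k31),(k3,k72)],[(k0,k24),(k2,
    k31),(k4,k31),(k6,k60)],[(k3,k24),(k5,k46),(k9,k53),(k7,k60)],[(k4,k24),(k2,k31),(k6,k53),(k0,k94)],[(k1,k26),
    (k10,k34)],[(k1,k32),(k10,k40)],[(k8,k34),(k11,k40)]]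
    [] k0
    [[k1,k1,k0,k1,k1,k0],[k1,k0,k1,k0,k1,k0],[k1,k0,k2,k0,k1,k0],[k1,k0,k0,k1,k1,k0],[k1,k0,k1,k0,k1,k1],[k0,k1,k1,k0,
    k0,k0],[k0,k1,k0,k1,k0,k0],[k0,k2,k0,k2,k0,k0],[k0,k1,k1,k1,k0,k0],[k0,k1,k2,k1,k0,k0],[k0,k1,k0,k2,k0,k0],[k0,k0,
    k2,k0,k0,k0],[k0,k0,k3,k0,k0,k0],[k0,k0,k4,k0,k0,k0],[k0,k0,k2,k1,k0,k0],[k0,k0,k1,k1,k0,k0],[k0,k0,k0,k0,k0,k2]]
    [.contra [z1,y1],.contra [z1,y1],.contra [z1,y1],.contra [y1,z1,z1],.contra [z1,z0,z1,z0,y1],.contra [y2,z0,z1,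
    z1],.contra [y1,z0,z1],.contra [y1,z0,z2],.contra [z2,y4,y3,y1,z4],.contra [y2,z0,z1,z1],.contra [y2,z0,z1,z1],
    .contra [z1],.contra [y1,z0,z0,z1],.contra [y1,z0,z0,z1],.contra [z1,y4,y2,y1,z4],.contra [y6,z0,z5,z1],
    .contra [z1]]),
    .old (.lp [(nat_lit 8080),(nat_lit 12120),(nat_lit 6060),(nat_lit 9090),(nat_lit 4848),
    (nat_lit 8080)] [(nat_lit 5656),(nat_lit 5656),(nat_lit 7272),k0,(nat_lit 6666),(nat_lit 6666),(nat_lit 3231),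
    (nat_lit 7071),(nat_lit 7272),(nat_lit 7272),(nat_lit 5656),(nat_lit 5656)] k0 [[k0,k0,(nat_lit 2222)],[k0,k0,k0,
    k0,k0,k0,k0,(nat_lit 11312)],[],[k0,(nat_lit 2222)],[],[],[(nat_lit 11312)]] (nat_lit 24240) k6
    [[(k8,(nat_lit 6464)),(k11,(nat_lit 8080))],[(k5,(nat_lit 4848)),(k7,(nat_lit 6665)),(k3,(nat_lit 13736)),(k9,
    (nat_lit 17776))],[(k6,(nat_lit 4849)),(k4,(nat_lit 12726)),(k0,(nat_lit 13736)),(k2,(nat_lit 14342))],[(k9,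
    (nat_lit 4848)),(k7,(nat_lit 5049)),(k5,(nat_lit 5454)),(k3,(nat_lit 14342))],[(k0,(nat_lit 4848)),(k2,
    (nat_lit 5454)),(k4,(nat_lit 6060)),(k6,(nat_lit 9495))],[(k9,(nat_lit 5454)),(k7,(nat_lit 5655)),(k5,
    (nat_lit 6060)),(k3,(nat_lit 12726))],[(k2,(nat_lit 5049)),(k4,(nat_lit 5655)),(k0,(nat_lit 6665)),(k6,
    (nat_lit 9090))],[(k3,(nat_lit 4849)),(k9,(nat_lit 8889)),(k7,(nat_lit 9090)),(k5,(nat_lit 9495))],[(k2,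
    (nat_lit 4848)),(k4,(nat_lit 5454)),(k6,(nat_lit 8889)),(k0,(nat_lit 17776))],[(k1,(nat_lit 6464)),(k10,
    (nat_lit 6464))],[(k1,(nat_lit 8080)),(k10,(nat_lit 8080))],[(k8,(nat_lit 6464)),(k11,(nat_lit 8080))]]
    [] k0
    [[k1,k1,k0,k1,k1,k0],[k1,k0,k1,k0,k1,k0],[k1,k0,k2,k0,k1,k0],[k1,k0,k0,k1,k1,k0],[k0,k1,k1,k0,k0,k0],[k0,k1,k0,k1,
    k0,k0],[k0,k2,k0,k2,k0,k0],[k0,k1,k1,k1,k0,k0],[k0,k1,k2,k1,k0,k0],[k0,k1,k0,k2,k0,k0],[k0,k0,k2,k0,k0,k0],[k0,k0,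
    k3,k0,k0,k0],[k0,k0,k2,k1,k0,k0],[k0,k0,k1,k1,k0,k0],[k0,k0,k0,k2,k0,k0],[k0,k0,k0,k0,k0,k2]]
    [.contra [z1,y1],.contra [z1,y1],.contra [z1,y1],.contra [z1,y1],.contra [y2,z0,z1],.contra [y2,z0,z1],
    .ref k8 k0 [(z1,[z0,z1]),(z2,[z1]),(z2,[y3,z0,z2])],.contra [z1,y2,y1,z2],.ref k7 k0 [(z1,[z0,z1]),(z1,[y3,z0,
    z2]),(z1,[z3,z0,y1])],.ref k10 k1 [(z1,[z0,z1]),(z1,[z1]),(z1,[y3,z0,z2])],.contra [z1],.ref k7 k0 [(z1,[z0,z1]),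
    (z1,[y1,z0,z1]),(z1,[z1])],.ref k9 k0 [(z1,[z0,z1]),(z1,[y3,z0,z2]),(z1,[z1])],.contra [y2,z0,z1],.contra [z1],
    .contra [z1]]),
    .old (.leafM k2 [k0,k1,k2,k3,k4,k5] [(z1,[z0,z1]),(z1,[z0,z0,z1]),(z1,[y3,y1,y1,z3])] []),
    .old (.lp [k56,k40,k42,k36,k24,k40] [k0,k0,k8,k8,k7,k7,k10,k10,k16,k16,k8,k8] k0 [[k0,k0,k4],[k0,k0,k0,k0,k0,k4],[],
    [k0,k4],[k4],[k0,k0,k0,k0,k0,k0,k0,k2],[k0,k0,k0,k0,k2]] k120 k5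
    [[(k8,k40),(k11,k48)],[(k9,k40),(k5,k45),(k3,k48),(k7,k50)],[(k4,k37),(k6,k38),(k2,k44),(k0,k48)],[(k9,k32),(k7,
    k38),(k5,k41),(k3,k44)],[(k6,k39),(k2,k41),(k4,k42),(k0,k45)],[(k9,k35),(k3,k37),(k7,k39),(k5,k42)],[(k6,k34),(k2,
    k38),(k4,k39),(k0,k50)],[(k9,k30),(k7,k34),(k3,k38),(k5,k39)],[(k6,k30),(k2,k32),(k4,k35),(k0,k40)],[(k10,k32),
    (k1,k40)],[(k10,k40),(k1,k48)],[(k8,k32),(k11,k40)]]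
    [] k0
    [[k1,k0,k0,k0,k1,k0],[k0,k2,k0,k0,k0,k0],[k0,k1,k1,k0,k0,k0],[k0,k1,k1,k1,k0,k0],[k0,k1,k0,k1,k0,k0],[k0,k1,k0,k2,
    k0,k0],[k0,k0,k2,k0,k0,k0],[k0,k0,k1,k1,k0,k0],[k0,k0,k1,k2,k0,k0],[k0,k0,k0,k2,k0,k0],[k0,k0,k0,k3,k0,k0],[k0,k0,
    k0,k0,k0,k2]]
    [.contra [y3,z1,z1],.contra [z1],.contra [z3,z0,z1,y1],.ref k1 k0 [(z1,[y1,z0,z0,z0,z1])],.contra [z3,y2,y3,y2,
    z6],.ref k1 k0 [(z3,[z3,z0,y2,y1,z3])],.contra [z3,z0,z2,y2],.contra [z3,y2,y2,y3,z6],.ref k1 k0 [(z3,[z3,z0,y1,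
    y2,z3])],.contra [z1],.ref k1 k0 [(z3,[z1,z0,y1,y1,z3])],.contra [z1]]),
    .old (.lp [(nat_lit 1200),(nat_lit 966),(nat_lit 966),(nat_lit 966),(nat_lit 460),(nat_lit 920)] [k0,k0,k117,k117,
    k117,k117,k117,k117,(nat_lit 370),(nat_lit 370),k140,k140] k0 [[],[k0,k0,k0,k138],[k138],[k0,k0,k0,k0,k0,k0,k0,
    k138],[],[],[k0,k0,k138]] (nat_lit 2760) k5
    [[(k8,(nat_lit 830)),(k11,(nat_lit 1060))],[(k9,(nat_lit 830)),(k3,(nat_lit 1083)),(k7,(nat_lit 1083)),(k5,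
    (nat_lit 1221))],[(k2,(nat_lit 828)),(k4,(nat_lit 966)),(k6,(nat_lit 966)),(k0,(nat_lit 1083))],[(k3,
    (nat_lit 828)),(k9,(nat_lit 851)),(k5,(nat_lit 966)),(k7,(nat_lit 966))],[(k6,(nat_lit 828)),(k2,(nat_lit 966)),
    (k4,(nat_lit 966)),(k0,(nat_lit 1221))],[(k9,(nat_lit 713)),(k3,(nat_lit 966)),(k5,(nat_lit 966)),(k7,
    (nat_lit 966))],[(k2,(nat_lit 966)),(k4,(nat_lit 966)),(k6,(nat_lit 966)),(k0,(nat_lit 1083))],[(k9,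
    (nat_lit 713)),(k5,(nat_lit 828)),(k3,(nat_lit 966)),(k7,(nat_lit 966))],[(k4,(nat_lit 713)),(k6,(nat_lit 713)),
    (k0,(nat_lit 830)),(k2,(nat_lit 851))],[(k10,(nat_lit 690)),(k1,(nat_lit 830))],[(k10,(nat_lit 920)),(k1,
    (nat_lit 1060))],[(k8,(nat_lit 690)),(k11,(nat_lit 920))]]
    [] k0
    [[k1,k0,k0,k0,k1,k0],[k1,k0,k0,k1,k1,k0],[k1,k0,k0,k0,k1,k1],[k0,k2,k0,k0,k0,k0],[k0,k3,k0,k0,k0,k0],[k0,k1,k1,k0,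
    k0,k0],[k0,k1,k0,k1,k0,k0],[k0,k0,k2,k0,k0,k0],[k0,k0,k1,k1,k0,k0],[k0,k0,k0,k2,k0,k0],[k0,k0,k0,k0,k0,k2]]
    [.contra [y1,z1],.ref k13 k1 [(z1,[z3,z0,y1]),(z1,[z0,z0,z1]),(z1,[y3,z3,z1])],.ref k1 k0 [(z1,[z1])],
    .contra [z1],.ref k12 k0 [(z1,[z0,z1]),(z1,[z1]),(z1,[y1,z0,z1])],.ref k0 k0 [(z1,[y1,z0,z0,z1])],.contra [z1,y2,
    y1,z2],.contra [z1],.ref k0 k1 [(z1,[y1,z0,z0,z1])],.contra [z1],.contra [z1]]),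
    .old (.lp [k26,k44,k34,k44,k50,k40] [k16,k16,k7,k7,k12,k12,k7,k7,k8,k0,k9,k9] k0 [[],[k0,k0,k0,k0,k0,k0,k0,k4],[k0,k0,
    k0,k0,k8],[],[k0,k0,k0,k0,k0,k0,k16],[k0,k0,k0,k8],[k4],[k0,k0,k0,k0,k0,k16]] k120 k5
    [[(k11,k33),(k8,k34)],[(k5,k30),(k3,k35),(k7,k35),(k9,k46)],[(k0,k35),(k4,k39),(k6,k40),(k2,k44)],[(k7,k36),(k5,
    k39),(k3,k44),(k9,k51)],[(k0,k30),(k2,k39),(k6,k39),(k4,k42)],[(k9,k30),(k3,k39),(k7,k39),(k5,k42)],[(k0,k35),(k2,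
    k36),(k4,k39),(k6,k60)],[(k5,k39),(k3,k40),(k9,k51),(k7,k60)],[(k4,k30),(k0,k46),(k2,k51),(k6,k51)],[(k1,k34),
    (k10,k41)],[(k1,k33),(k10,k40)],[(k11,k40),(k8,k41)]]
    [] k0
    [[k1,k0,k0,k0,k1,k0],[k1,k0,k1,k0,k1,k0],[k0,k2,k0,k0,k0,k0],[k0,k1,k1,k0,k0,k0],[k0,k1,k1,k1,k0,k0],[k0,k1,k0,k1,
    k0,k0],[k0,k0,k2,k0,k0,k0],[k0,k0,k1,k1,k0,k0],[k0,k0,k0,k0,k0,k2]]
    [.ref k11 k0 [(z1,[z1]),(z1,[y3,z1])],.ref k14 k0 [(z1,[z1]),(z1,[y3,z1])],.contra [z1],.ref k0 k0 [(z1,[y1,z0,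
    z1])],.ref k1 k0 [(z1,[y1,z0,z1])],.ref k6 k0 [(z1,[y3,z1]),(z1,[z1])],.contra [z1],.ref k0 k1 [(z1,[y1,z0,z1])],
    .contra [z1]]),
    .old (.tor k30 false k0 [(z1,[y1,y1,z1,z1]),(z1,[y1,z0,y1,z1]),(z1,[z1]),(z1,[z1,z1])]),
    .old (.leafM k12 [k0,k2,k4,k5] [(z1,[z0,z0,z1]),(z1,[y2,y2,y1,z2]),(z1,[z1])] [(k1,k3,z1,[z0,z1]),(k3,k1,z1,[z0,z1])]),
    .old (.lp [(nat_lit 15640),(nat_lit 28152),(nat_lit 12240),(nat_lit 18768),(nat_lit 3128),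
    (nat_lit 15640)] [(nat_lit 6256),(nat_lit 6256),k0,k0,(nat_lit 7956),(nat_lit 7956),(nat_lit 4692),(nat_lit 4692),
    (nat_lit 12512),(nat_lit 12512),(nat_lit 6256),(nat_lit 6256)] k0 [[],[k0,k0,k0,(nat_lit 1955)],[(nat_lit 1955)],
    [],[],[k0,k0,k0,k0,k0,k0,k0,(nat_lit 2760)],[k0,k0,k0,k0,(nat_lit 2760)]] (nat_lit 46920) k6
    [[(k8,(nat_lit 9384)),(k11,(nat_lit 15640))],[(k9,(nat_lit 9384)),(k5,(nat_lit 15895)),(k7,(nat_lit 17204)),(k3,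
    (nat_lit 21896))],[(k4,(nat_lit 20196)),(k0,(nat_lit 21896)),(k6,(nat_lit 23460)),(k2,(nat_lit 26197))],[(k9,
    (nat_lit 15640)),(k5,(nat_lit 20196)),(k7,(nat_lit 23460)),(k3,(nat_lit 26197))],[(k4,(nat_lit 12240)),(k6,
    (nat_lit 15504)),(k0,(nat_lit 15895)),(k2,(nat_lit 20196))],[(k9,(nat_lit 10444)),(k5,(nat_lit 12240)),(k7,
    (nat_lit 15504)),(k3,(nat_lit 20196))],[(k4,(nat_lit 15504)),(k6,(nat_lit 16008)),(k0,(nat_lit 17204)),(k2,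
    (nat_lit 23460))],[(k9,(nat_lit 10948)),(k5,(nat_lit 15504)),(k7,(nat_lit 16008)),(k3,(nat_lit 23460))],[(k0,
    (nat_lit 9384)),(k4,(nat_lit 10444)),(k6,(nat_lit 10948)),(k2,(nat_lit 15640))],[(k1,(nat_lit 9384)),(k10,
    (nat_lit 9384))],[(k1,(nat_lit 15640)),(k10,(nat_lit 15640))],[(k8,(nat_lit 9384)),(k11,(nat_lit 15640))]]
    [] k0
    [[k1,k0,k0,k0,k1,k0],[k2,k0,k0,k0,k2,k0],[k1,k0,k1,k0,k1,k0],[k1,k0,k0,k1,k1,k0],[k1,k0,k0,k0,k1,k1],[k0,k1,k1,k0,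
    k0,k0],[k0,k0,k2,k0,k0,k0],[k0,k0,k3,k0,k0,k0],[k0,k0,k2,k1,k0,k0],[k0,k0,k1,k1,k0,k0],[k0,k0,k0,k2,k0,k0],[k0,k0,
    k0,k0,k0,k2]]
    [.contra [y1,y1,y2,z2],.ref k17 k0 [(z2,[z1]),(z1,[z0,z0,z1]),(z2,[y1,y2,y4,z4])],.contra [y1,y1,y2,z2],
    .ref k16 k1 [(z1,[z0,z1]),(z1,[z1,y1]),(z1,[z0,y1,y1,z1])],.contra [y1,z0,y1,z1],.ref k0 k0 [(z1,[y1,z0,z0,z1])],
    .contra [z1],.ref k15 k0 [(z1,[y1,y3,y3,z6])],.ref k16 k0 [(z1,[z0,z1]),(z1,[y1,y2,y1,z2]),(z1,[z0,y1,y1,z1])],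
    .ref k0 k1 [(z1,[y1,z0,z0,z1])],.contra [y1,z0,z2],.contra [z1,y2,y2,z2]]),
    .old (.leafM k11 [k0,k2,k4,k5] [(z1,[z0,z0,z1]),(z1,[y3,y3,y1,z3]),(z1,[z1])] [(k1,k3,z1,[z0,z1]),(k3,k1,z1,[z0,z1])]),
    .old (.lp [k58,k80,k134,k90,k48,k60] [k38,k38,k27,k27,k0,k0,k22,k22,k43,k43,k37,k37] k0 [[k0,k0,k0,k0,k26],[k0,k0,k0,
    k0,k0,k0,k0,k14],[k0,k0,k0,k0,k0,k0,k16],[k0,k0,k0,k0,k0,k84],[k0,k0,k84],[k0,k26],[k14],[k0,k0,k0,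
    k16]] (nat_lit 240) k6
    [[(k8,k53),(k11,k59)],[(k7,k48),(k9,k67),(k3,k69),(k5,k96)],[(k0,k69),(k6,k71),(k2,k80),(k4,k133)],[(k9,k48),(k3,
    k80),(k5,k107),(k7,k169)],[(k4,k50),(k0,k96),(k2,k107),(k6,k128)],[(k5,k50),(k9,k91),(k7,k112),(k3,k133)],[(k0,
    k48),(k6,k90),(k4,k112),(k2,k169)],[(k9,k69),(k3,k71),(k7,k90),(k5,k128)],[(k2,k48),(k0,k67),(k6,k69),(k4,k91)],
    [(k1,k53),(k10,k54)],[(k1,k59),(k10,k60)],[(k8,k54),(k11,k60)]]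
    [] k0
    [[k1,k0,k0,k0,k1,k0],[k1,k1,k0,k0,k1,k0],[k1,k1,k0,k1,k1,k0],[k1,k0,k0,k1,k1,k0],[k1,k0,k0,k0,k1,k1],[k1,k1,k0,k0,
    k1,k1],[k1,k0,k0,k1,k1,k1],[k0,k2,k0,k0,k0,k0],[k0,k0,k2,k0,k0,k0],[k0,k0,k3,k0,k0,k0],[k0,k0,k4,k0,k0,k0],[k0,k0,
    k0,k2,k0,k0],[k0,k0,k0,k0,k0,k2],[k0,k0,k0,k0,k0,k3]]
    [.contra [y2,z2,z1],.contra [z1,y1],.contra [z2,y2,y1],.contra [y1,z1,z1],.contra [z1,y1],.ref k0 k1 [(z1,[z1])],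
    .ref k0 k0 [(z1,[z1])],.contra [z1],.contra [z1],.ref k19 k0 [(z1,[z0,z1]),(z1,[z0,z0,z1]),(z1,[z1])],
    .ref k18 k0 [(z2,[y1,y2,y4,z4]),(z1,[z0,z0,z1])],.contra [y1,z0,z2],.contra [z1],.ref k15 k0 [(z1,[y1,z0,z0,
    z3])]]),
    .old (.lp [k64,k120,k80,k118,k36,k60] [k28,k28,k0,k0,k20,k20,k1,k1,k42,k42,k30,k30] k0 [[k0,k0,k0,k0,k0,k0,k2],[k0,k0,
    k0,k0,k0,k22],[],[k0,k0,k0,k0,k0,k0,k0,k20],[k22],[],[k0,k0,k20],[k0,k2]] (nat_lit 240) k6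
    [[(k8,k50),(k11,k62)],[(k9,k48),(k5,k72),(k3,k92),(k7,k113)],[(k4,k78),(k0,k92),(k2,k120),(k6,k121)],[(k9,k98),
    (k5,k100),(k7,k119),(k3,k120)],[(k0,k72),(k6,k79),(k4,k80),(k2,k100)],[(k9,k58),(k3,k78),(k5,k80),(k7,k99)],[(k4,
    k99),(k0,k113),(k6,k118),(k2,k119)],[(k9,k77),(k5,k79),(k7,k118),(k3,k121)],[(k0,k48),(k4,k58),(k6,k77),(k2,k98)],
    [(k10,k48),(k1,k50)],[(k10,k60),(k1,k62)],[(k8,k48),(k11,k60)]]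
    [] k0
    [[k1,k0,k0,k0,k1,k0],[k2,k0,k0,k0,k2,k0],[k1,k0,k1,k0,k1,k0],[k1,k0,k0,k0,k1,k1],[k1,k0,k0,k0,k1,k2],[k0,k1,k1,k0,
    k0,k0],[k0,k0,k2,k0,k0,k0],[k0,k0,k1,k1,k0,k0],[k0,k0,k0,k2,k0,k0],[k0,k0,k0,k0,k0,k2],[k0,k0,k0,k0,k0,k3]]
    [.contra [y1,z1],.ref k20 k0 [(z2,[z1]),(z1,[z0,y1,z1])],.contra [y1,z1],.contra [y1,z1],.ref k18 k0 [(z1,[z1]),
    (z1,[z0,y1,z1])],.ref k0 k0 [(z1,[y1,z0,z1])],.contra [z1],.ref k0 k1 [(z1,[y1,z0,z1])],.contra [y1,y2,z2],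
    .contra [z1],.ref k15 k0 [(z1,[y1,z0,z3])]]),
    .old (.leafM k12 [k1,k2,k3,k5] [(z1,[z0,z0,z1]),(z1,[y2,y2,y1,z2]),(z1,[z0,z1])] [(k4,k0,z1,[z1]),(k0,k4,z1,[z1])]),
    .old (.lp [k82,k96,k62,k96,k82,k60] [k35,k35,k56,k0,k45,k45,k28,k28,k35,k35,k46,k46] k0 [[k0,k0,k24],[k0,k0,k0,k0,k0,
    k0,k0,k76],[k0,k0,k0,k0,k20],[k0,k24],[k0,k0,k0,k0,k0,k0,k24],[k0,k0,k0,k20],[k76],[k0,k0,k0,k0,k0,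
    k24]] (nat_lit 240) k6
    [[(k11,k71),(k8,k82)],[(k5,k48),(k7,k89),(k3,k117),(k9,k158)],[(k6,k48),(k4,k107),(k0,k117),(k2,k120)],[(k7,k48),
    (k5,k51),(k9,k61),(k3,k120)],[(k0,k48),(k2,k51),(k6,k79),(k4,k82)],[(k9,k48),(k7,k79),(k5,k82),(k3,k107)],[(k2,
    k48),(k4,k79),(k0,k89),(k6,k120)],[(k3,k48),(k5,k79),(k9,k89),(k7,k120)],[(k4,k48),(k2,k61),(k6,k89),(k0,k158)],
    [(k10,k71),(k1,k82)],[(k10,k60),(k1,k71)],[(k11,k60),(k8,k71)]]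
    [] k0
    [[k1,k0,k1,k0,k1,k0],[k1,k0,k1,k0,k1,k1],[k0,k2,k0,k1,k0,k0],[k0,k1,k1,k0,k0,k0],[k0,k1,k1,k1,k0,k0],[k0,k1,k0,k1,
    k0,k0],[k0,k2,k0,k2,k0,k0],[k0,k1,k0,k2,k0,k0],[k0,k0,k2,k0,k0,k0],[k0,k0,k1,k1,k0,k0],[k0,k0,k0,k0,k0,k2],[k0,k0,
    k0,k0,k0,k3]]
    [.contra [y1,z1,z0,z1],.contra [y6,z0,y1,z7,z6],.contra [y6,z0,z2,z1],.contra [y12,z0,z2,z7],.contra [z6,z0,y1,
    z1],.contra [z6,z0,y1,z7],.contra [z3,z0,y1,z1],.contra [y6,z0,z2,z1],.contra [z1],.contra [y12,z0,z2,z7],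
    .contra [z3,z6,z1,z5,y6],.contra [z2,z6,z1,z3,y6]]),
    .old (.lp [k32,k56,k32,k56,k32,k30] [k32,k32,k40,k0,k32,k32,k15,k25,k32,k32,k33,k33] k0 [[k0,k0,k8],[k0,k0,k0,k0,k0,
    k0,k0,k56],[],[k0,k8],[k0,k0,k0,k0,k0,k0,k8],[],[k56],[k0,k0,k0,k0,k0,k8]] k120 k6
    [[(k11,k31),(k8,k32)],[(k5,k24),(k7,k39),(k3,k64),(k9,k88)],[(k6,k25),(k0,k64),(k2,k64),(k4,k64)],[(k5,k24),(k9,
    k24),(k7,k31),(k3,k64)],[(k0,k24),(k2,k24),(k4,k32),(k6,k49)],[(k9,k24),(k5,k32),(k7,k39),(k3,k64)],[(k2,k31),(k0,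
    k39),(k4,k39),(k6,k64)],[(k3,k25),(k5,k49),(k9,k49),(k7,k64)],[(k2,k24),(k4,k24),(k6,k49),(k0,k88)],[(k10,k31),
    (k1,k32)],[(k10,k30),(k1,k31)],[(k11,k30),(k8,k31)]]
    [] k0
    [[k1,k0,k1,k0,k1,k0],[k1,k0,k2,k0,k1,k0],[k1,k0,k1,k0,k1,k1],[k0,k1,k1,k0,k0,k0],[k0,k1,k0,k1,k0,k0],[k0,k2,k0,k2,
    k0,k0],[k0,k1,k1,k1,k0,k0],[k0,k0,k2,k0,k0,k0],[k0,k0,k3,k0,k0,k0],[k0,k0,k1,k1,k0,k0],[k0,k0,k0,k0,k0,k2],[k0,k0,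
    k0,k0,k0,k3]]
    [.contra [z1,y1],.contra [z1,y1],.contra [z3,z0,z2,y3],.contra [y3,z0,z2],.contra [y3,z0,z2],.ref k22 k0 [(z1,[z0,
    z1]),(z2,[z1]),(z1,[y1,z0,z1])],.contra [z1,y1,y1,z1],.contra [z1],.ref k23 k0 [(z1,[z0,z1]),(z1,[y2,z0,z3]),(z1,
    [z1])],.contra [y3,z0,z2],.contra [z1],.contra [z1,z2,z1,y2]]),
    .old (.leafM k11 [k1,k2,k3,k5] [(z1,[z0,z0,z1]),(z1,[y3,y3,y1,z3]),(z1,[z0,z1])] [(k4,k0,z1,[z1]),(k0,k4,z1,[z1])]),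
    .old (.lp [k34,k66,k14,k66,k34,k24] [k26,k26,k20,k0,k36,k36,k10,k10,k26,k26,k31,k31] k0 [[],[k0,k0,k0,k0,k0,k0,k0,
    k52],[k0,k0,k0,k0,k26],[],[],[k0,k0,k0,k26],[k52]] k120 k6
    [[(k11,k29),(k8,k34)],[(k5,k24),(k7,k50),(k3,k60),(k9,k86)],[(k6,k24),(k4,k50),(k0,k60),(k2,k66)],[(k5,k30),(k7,
    k30),(k9,k40),(k3,k66)],[(k0,k24),(k2,k30),(k4,k40),(k6,k40)],[(k9,k24),(k5,k40),(k7,k40),(k3,k50)],[(k2,k30),(k4,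
    k40),(k0,k50),(k6,k66)],[(k3,k24),(k5,k40),(k9,k50),(k7,k66)],[(k4,k24),(k2,k40),(k6,k50),(k0,k86)],[(k10,k29),
    (k1,k34)],[(k10,k24),(k1,k29)],[(k11,k24),(k8,k29)]]
    [] k0
    [[k1,k0,k1,k0,k1,k0],[k1,k0,k1,k0,k1,k1],[k0,k1,k1,k0,k0,k0],[k0,k1,k0,k1,k0,k0],[k0,k2,k0,k2,k0,k0],[k0,k1,k1,k1,
    k0,k0],[k0,k0,k2,k0,k0,k0],[k0,k0,k1,k1,k0,k0],[k0,k0,k0,k0,k0,k2],[k0,k0,k0,k0,k0,k3],[k0,k0,k0,k0,k0,k4]]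
    [.contra [y1,y2,y1,z3],.contra [z1,y1],.contra [y1,y1,z0,z1],.contra [y1,y1,z0,z1],.ref k25 k0 [(z1,[z0,z1]),(z2,
    [z1]),(z1,[z0,y3,y1,z3])],.contra [y1,y1,z0,z1],.contra [z1],.contra [y1,y1,z0,z1],.contra [z1],.ref k15 k0 [(z1,
    [y1,z0,z0,z3])],.ref k24 k0 [(z1,[z0,z1]),(z2,[y1,y4,z0,z4])]]),
    .old (.lp [k66,k116,k62,k116,k62,k48] [k66,k66,k82,k0,k68,k68,k38,k44,k68,k68,k75,k75] k0 [[k0,k0,k4],[k0,k0,k0,k0,k0,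
    k0,k0,k112],[],[k0,k4],[k0,k0,k0,k0,k0,k0,k4],[],[k112],[k0,k0,k0,k0,k0,k4]] (nat_lit 240) k6
    [[(k11,k57),(k8,k64)],[(k5,k60),(k7,k88),(k3,k132),(k9,k176)],[(k6,k48),(k2,k120),(k4,k130),(k0,k132)],[(k5,k48),
    (k9,k48),(k7,k72),(k3,k120)],[(k2,k48),(k0,k60),(k4,k62),(k6,k92)],[(k9,k58),(k5,k62),(k7,k86),(k3,k130)],[(k2,
    k72),(k4,k86),(k0,k88),(k6,k120)],[(k3,k48),(k5,k92),(k9,k92),(k7,k120)],[(k2,k48),(k4,k58),(k6,k92),(k0,k176)],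
    [(k10,k55),(k1,k64)],[(k10,k48),(k1,k57)],[(k11,k48),(k8,k55)]]
    [] k0
    [[k1,k0,k1,k0,k1,k0],[k1,k0,k1,k0,k1,k1],[k0,k1,k1,k0,k0,k0],[k0,k1,k0,k1,k0,k0],[k0,k1,k1,k1,k0,k0],[k0,k0,k2,k0,
    k0,k0],[k0,k0,k3,k0,k0,k0],[k0,k0,k1,k1,k0,k0],[k0,k0,k0,k0,k0,k2],[k0,k0,k0,k0,k0,k3],[k0,k0,k0,k0,k0,k4]]
    [.contra [z1,y1],.contra [z1,y1],.contra [y1,y1,z1],.contra [y1,y1,z1],.contra [y1,y1,z1],.contra [z1],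
    .ref k26 k0 [(z1,[z0,z1]),(z1,[y1,y3,z3])],.contra [y1,y1,z1],.contra [z1],.ref k15 k0 [(z1,[y1,z0,z3])],
    .ref k24 k0 [(z1,[z0,z1]),(z2,[y1,y4,z4])]]),
    .old (.lp [k58,k40,k40,k40,k26,k34] [k0,k0,k9,k9,k9,k9,k9,k9,k16,k16,k12,k12] k0 [[k0,k0,k2],[k0,k0,k0,k0,k0,k0,k0,
    k2],[],[k0,k2],[k0,k0,k0,k0,k0,k0,k2],[],[k2],[k0,k0,k0,k0,k0,k2]] k120 k5
    [[(k8,k42),(k11,k46)],[(k9,k44),(k5,k47),(k3,k49),(k7,k49)],[(k6,k38),(k4,k40),(k2,k42),(k0,k49)],[(k9,k33),(k5,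
    k40),(k7,k40),(k3,k42)],[(k2,k40),(k4,k40),(k6,k40),(k0,k47)],[(k9,k31),(k3,k40),(k5,k40),(k7,k40)],[(k2,k40),(k4,
    k40),(k6,k42),(k0,k49)],[(k9,k33),(k3,k38),(k5,k40),(k7,k42)],[(k4,k31),(k2,k33),(k6,k33),(k0,k44)],[(k10,k30),
    (k1,k42)],[(k10,k34),(k1,k46)],[(k8,k30),(k11,k34)]]
    [] k0
    [[k1,k0,k0,k0,k1,k0],[k0,k2,k0,k0,k0,k0],[k0,k1,k1,k0,k0,k0],[k0,k1,k0,k1,k0,k0],[k0,k1,k1,k1,k0,k0],[k0,k0,k2,k0,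
    k0,k0],[k0,k0,k1,k1,k0,k0],[k0,k0,k0,k2,k0,k0],[k0,k0,k0,k0,k0,k2],[k0,k0,k0,k0,k0,k3]]
    [.ref k27 k0 [(z1,[z1])],.contra [z1],.ref k0 k0 [(z1,[y1,z1])],.ref k21 k0 [(z1,[y1,z1])],.ref k1 k0 [(z1,[y1,
    z1])],.contra [z1],.ref k0 k1 [(z1,[y1,z1])],.contra [z1],.contra [z1],.ref k15 k0 [(z1,[y1,z3])]])]⟩

/-- classes `0 0 0 0 1 1`, types `C0 C0 C0 C0 C0 C0` -/
noncomputable def cU6_93 : CertX :=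
  ⟨[k4,k4,k4,k4,k20,k20],[(false,k0,[k0,k1,k2,k3,k4,k5]),(true,k4,[k4,k3,k2,k1,k0,k5])],[[[([z1,z0,z0,z1,z1,z1],z2)],
    [([z1,z0,z0,z0,z1,z1],z2)],[([z3,z0,z0,z0,z3,z0],z2),([z0,z1,z0,z1,z0,z0],z2),([z0,z0,z3,z0,z0,z0],z2)],[([z1,z0,
    z0,z0,z1,z0],z1),([z0,z1,z0,z1,z0,z0],z2),([z0,z0,z3,z0,z0,z0],z1)],[([z6,z0,z0,y3,z6,z0],z2),([z0,z1,z0,z1,z0,
    z0],z2),([z0,z0,z2,z1,z0,z0],z2)],[([z1,z0,z0,y1,z1,z0],z0),([z0,z1,z0,z1,z0,z0],z2),([z0,z0,z3,z3,z0,z0],z4)],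
    [([z3,z0,z3,z0,z3,z0],z4),([z0,z1,z0,z1,z0,z0],z2)],[([z1,z0,z0,z0,z1,z2],z2),([z0,z1,z0,z0,z0,y2],z0),([z0,z0,z1,
    z0,z0,y1],z0)],[([z1,z0,z0,z0,z1,z0],z1),([z0,z1,z0,z1,z0,z0],z2),([z0,z0,z2,z0,z0,z0],z1)],[([z1,z0,z0,z0,z1,z2],
    z2),([z0,z1,z0,z1,z0,z0],z2)],[([z1,z0,z0,z0,z1,z0],z1),([z0,z1,z0,z1,z0,z0],z2),([z0,z0,z3,z0,z0,z0],z2)],[([z1,
    z0,z0,z0,z1,z0],z1),([z0,z1,z0,z1,z0,z0],z2)]],[[([z1,z0,z1,z0,z1,z1],z2)],[([z1,z0,z0,z0,z1,z0],z2),([z0,z3,z0,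
    z3,z0,z0],z2),([z0,z0,z3,z0,z0,z0],z2)],[([z1,z0,z0,z0,z1,z0],z2),([z0,z1,z0,z1,z0,z0],z1),([z0,z0,z3,z0,z0,z0],
    z1)],[([z1,z0,z0,z0,z1,z0],z2),([z0,z6,z0,z3,z0,z0],z2),([z0,z0,z2,z1,z0,z0],z2)],[([z1,z0,z0,z0,z1,z0],z2),([z0,
    z2,z0,z1,z0,z0],z2),([z0,z0,z6,z3,z0,z0],z2)],[([z1,z0,z0,z0,z1,z0],z2),([z0,z3,z3,z3,z0,z0],z4)],[([z1,z0,z0,z0,
    z1,z0],z2),([z0,z3,z0,z0,z0,z0],z2),([z0,z0,z3,z0,z0,z3],z2)],[([z1,z0,z0,z0,z1,z0],z2),([z0,z2,z0,z1,z0,z0],z2)],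
    [([z1,z0,z0,z0,z1,z0],z2),([z0,z1,z0,z1,z0,z0],z1),([z0,z0,z2,z0,z0,z0],z1)],[([z1,z0,z0,z0,z1,z0],z2),([z0,z1,z0,
    z1,z0,z0],z1),([z0,z0,z3,z0,z0,z0],z2)],[([z1,z0,z0,z0,z1,z0],z2),([z0,z1,z0,z1,z0,z0],z1)],[([z1,z0,z0,z0,z1,z0],
    z2)]],[[([z1,z0,z1,z0,z1,z0],z2),([z0,z3,z0,z0,z0,z0],z2),([z0,z0,z0,z3,z0,z0],z2)],[([z3,z0,z0,y3,z3,z0],z2),
    ([z0,z3,z0,z3,z0,z0],z4),([z0,z0,z3,z3,z0,z0],z4)],[([z1,z0,z1,z0,z1,z0],z2),([z0,z3,z0,z3,z0,z0],z4)],[([z1,z0,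
    z1,z0,z1,z0],z2)],[]]],
    [.old (.leafM k0 [k0,k3,k4,k5] [] [(k1,k2,z1,[y1,z1]),(k2,k1,z1,[y1,z1])]),
    .old (.leafM k0 [k0,k1,k2,k3,k4,k5] [(z1,[y1,z1])] []),
    .old (.leafM k10 [k0,k2,k4,k5] [(z1,[z0,z0,z1]),(z1,[y1,y3,y1,z3]),(z1,[z1])] [(k1,k3,z1,[z0,z1]),(k3,k1,z1,[z0,z1])]),
    .old (.leafM k11 [k4,k5,k0,k2] [(z1,[y3,y3,y1,z3]),(z1,[z0,z0,z1]),(z1,[z1])] [(k1,k3,z1,[z0,z1]),(k3,k1,z1,[z0,z1])]),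
    .old (.lp [(nat_lit 10120),(nat_lit 12144),(nat_lit 7920),(nat_lit 18216),(nat_lit 2024),
    (nat_lit 10120)] [(nat_lit 4048),(nat_lit 4048),(nat_lit 3036),(nat_lit 3036),(nat_lit 5148),(nat_lit 5148),k0,k0,
    (nat_lit 8096),(nat_lit 8096),(nat_lit 4048),(nat_lit 4048)] k0 [[],[k0,k0,k0,(nat_lit 1380)],[(nat_lit 1380)],[],
    [],[k0,k0,k0,k0,k0,k0,k0,(nat_lit 1265)],[k0,k0,k0,k0,(nat_lit 1265)]] (nat_lit 30360) k6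
    [[(k8,(nat_lit 6072)),(k10,(nat_lit 10120))],[(k9,(nat_lit 6072)),(k5,(nat_lit 10400)),(k3,(nat_lit 11132)),(k7,
    (nat_lit 14168))],[(k4,(nat_lit 10032)),(k2,(nat_lit 10764)),(k0,(nat_lit 11132)),(k6,(nat_lit 15180))],[(k9,
    (nat_lit 7084)),(k5,(nat_lit 10032)),(k3,(nat_lit 10764)),(k7,(nat_lit 15180))],[(k4,(nat_lit 7920)),(k2,
    (nat_lit 10032)),(k0,(nat_lit 10400)),(k6,(nat_lit 13068))],[(k9,(nat_lit 6237)),(k5,(nat_lit 7920)),(k3,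
    (nat_lit 10032)),(k7,(nat_lit 13068))],[(k4,(nat_lit 13068)),(k0,(nat_lit 14168)),(k2,(nat_lit 15180)),(k6,
    (nat_lit 16951))],[(k9,(nat_lit 10120)),(k5,(nat_lit 13068)),(k3,(nat_lit 15180)),(k7,(nat_lit 16951))],[(k0,
    (nat_lit 6072)),(k4,(nat_lit 6237)),(k2,(nat_lit 7084)),(k6,(nat_lit 10120))],[(k1,(nat_lit 6072)),(k11,
    (nat_lit 6072))],[(k8,(nat_lit 6072)),(k10,(nat_lit 10120))],[(k1,(nat_lit 10120)),(k11,(nat_lit 10120))]]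
    [] k0
    [[k1,k0,k0,k0,k1,k0],[k2,k0,k0,k0,k2,k0],[k1,k1,k0,k0,k1,k0],[k1,k0,k1,k0,k1,k0],[k1,k0,k0,k0,k1,k1],[k0,k2,k0,k0,
    k0,k0],[k0,k1,k1,k0,k0,k0],[k0,k1,k2,k0,k0,k0],[k0,k0,k2,k0,k0,k0],[k0,k0,k3,k0,k0,k0],[k0,k0,k1,k1,k0,k0],[k0,k0,
    k0,k0,k0,k2]]
    [.contra [y6,z1,z0,z5],.ref k3 k0 [(z2,[z1]),(z1,[z0,z0,z1]),(z2,[y3,z1,z0,z3])],.ref k0 k0 [(z2,[y6,z1,z4,y1,
    z2])],.contra [z2,y1,y4,y3,z4],.contra [y2,z0,y1,y1,z2],.contra [z1],.ref k0 k0 [(z1,[y1,z0,z0,z0,z1])],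
    .contra [z1,z0,z1,y1],.contra [z1],.ref k0 k0 [(z1,[y1,z0,y1,z1,z1])],.contra [y2,z0,z1,z1],.contra [z1]]),
    .old (.lp [k168,(nat_lit 286),k120,k190,k32,k160] [k59,k59,k0,k0,k83,k83,k48,k48,k127,k127,k63,k63] k0 [[k0,k0,k0,k0,
    k0,k0,k4],[k0,k0,k0,k140],[k140],[],[],[k0,k0,k0,k0,k0,k0,k0,k20],[k0,k0,k0,k0,k20],[k0,k4]] (nat_lit 480) k6
    [[(k8,k100),(k10,k164)],[(k9,k96),(k7,k179),(k3,(nat_lit 227)),(k5,(nat_lit 284))],[(k2,k146),(k4,(nat_lit 203)),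
    (k0,(nat_lit 227)),(k6,(nat_lit 242))],[(k3,k146),(k9,k159),(k5,(nat_lit 203)),(k7,(nat_lit 238))],[(k4,k120),(k6,
    k155),(k2,(nat_lit 203)),(k0,(nat_lit 284))],[(k9,k96),(k5,k120),(k7,k155),(k3,(nat_lit 203))],[(k4,k155),(k6,
    k170),(k0,k179),(k2,(nat_lit 238))],[(k9,k111),(k5,k155),(k7,k170),(k3,(nat_lit 242))],[(k0,k96),(k4,k96),(k6,
    k111),(k2,k159)],[(k11,k96),(k1,k100)],[(k8,k96),(k10,k160)],[(k11,k160),(k1,k164)]]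
    [] k0
    [[k1,k0,k0,k0,k1,k0],[k2,k0,k0,k0,k2,k0],[k1,k0,k0,k1,k1,k0],[k1,k0,k0,k0,k1,k1],[k0,k2,k0,k0,k0,k0],[k0,k3,k0,k0,
    k0,k0],[k0,k1,k1,k0,k0,k0],[k0,k0,k2,k0,k0,k0],[k0,k0,k3,k0,k0,k0],[k0,k0,k2,k1,k0,k0],[k0,k0,k1,k1,k0,k0],[k0,k0,
    k0,k2,k0,k0],[k0,k0,k0,k0,k0,k2]]
    [.contra [y1,z1,z1],.contra [y1,z2,z2],.contra [y1,z1,z2],.contra [y1,z0,y1,z0,z1],.contra [z1],.contra [z1,z0,y3,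
    z1],.ref k0 k0 [(z1,[y1,z0,z0,z0,z1])],.contra [z1],.ref k0 k0 [(z3,[y2,z0,y3,z1,z3])],.ref k0 k0 [(z1,[y2,z0,y1,
    z1,z1])],.contra [z1,y2,y2,y1,z2],.contra [y1,z0,z2],.contra [z1]]),
    .old (.lp [(nat_lit 10120),(nat_lit 12144),(nat_lit 7920),(nat_lit 18216),(nat_lit 2024),
    (nat_lit 10120)] [(nat_lit 4048),(nat_lit 4048),(nat_lit 3036),(nat_lit 3036),(nat_lit 5148),(nat_lit 5148),k0,k0,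
    (nat_lit 8096),(nat_lit 8096),(nat_lit 4048),(nat_lit 4048)] k0 [[],[k0,k0,k0,(nat_lit 1380)],[(nat_lit 1380)],[],
    [],[k0,k0,k0,k0,k0,k0,k0,(nat_lit 1265)],[k0,k0,k0,k0,(nat_lit 1265)]] (nat_lit 30360) k6
    [[(k8,(nat_lit 6072)),(k10,(nat_lit 10120))],[(k9,(nat_lit 6072)),(k5,(nat_lit 10400)),(k3,(nat_lit 11132)),(k7,
    (nat_lit 14168))],[(k4,(nat_lit 10032)),(k2,(nat_lit 10764)),(k0,(nat_lit 11132)),(k6,(nat_lit 15180))],[(k9,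
    (nat_lit 7084)),(k5,(nat_lit 10032)),(k3,(nat_lit 10764)),(k7,(nat_lit 15180))],[(k4,(nat_lit 7920)),(k2,
    (nat_lit 10032)),(k0,(nat_lit 10400)),(k6,(nat_lit 13068))],[(k9,(nat_lit 6237)),(k5,(nat_lit 7920)),(k3,
    (nat_lit 10032)),(k7,(nat_lit 13068))],[(k4,(nat_lit 13068)),(k0,(nat_lit 14168)),(k2,(nat_lit 15180)),(k6,
    (nat_lit 16951))],[(k9,(nat_lit 10120)),(k5,(nat_lit 13068)),(k3,(nat_lit 15180)),(k7,(nat_lit 16951))],[(k0,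
    (nat_lit 6072)),(k4,(nat_lit 6237)),(k2,(nat_lit 7084)),(k6,(nat_lit 10120))],[(k1,(nat_lit 6072)),(k11,
    (nat_lit 6072))],[(k8,(nat_lit 6072)),(k10,(nat_lit 10120))],[(k1,(nat_lit 10120)),(k11,(nat_lit 10120))]]
    [] k0
    [[k1,k0,k0,k0,k1,k0],[k2,k0,k0,k0,k2,k0],[k1,k1,k0,k0,k1,k0],[k1,k0,k1,k0,k1,k0],[k1,k0,k0,k0,k1,k1],[k0,k2,k0,k0,
    k0,k0],[k0,k1,k1,k0,k0,k0],[k0,k1,k2,k0,k0,k0],[k0,k0,k2,k0,k0,k0],[k0,k0,k3,k0,k0,k0],[k0,k0,k1,k1,k0,k0],[k0,k0,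
    k0,k0,k0,k2]]
    [.contra [y3,z1,z1],.ref k3 k0 [(z2,[z1]),(z1,[z0,z0,z1]),(z2,[y3,z2])],.ref k5 k0 [(z1,[z1,z0,y1]),(z1,[z0,z0,
    z1]),(z1,[y3,z1,z3])],.contra [z1,y1,y2,z2],.contra [y1,z0,y1,z1],.contra [z1],.ref k0 k0 [(z1,[y1,z0,z0,z1])],
    .ref k4 k1 [(z1,[y3,z2]),(z1,[z0,z0,z1]),(z1,[z1])],.contra [z1],.ref k2 k0 [(z1,[y1,z1]),(z1,[z0,z0,z1]),(z1,
    [z1])],.ref k0 k1 [(z1,[y1,z0,z0,z1])],.contra [z1]]),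
    .old (.tor k8 false k0 [(z1,[y1,y1,z1,z1]),(z1,[y1,z0,y1,z1]),(z1,[z1]),(z1,[z1,z1])]),
    .old (.leafM k12 [k0,k2,k4,k5] [(z1,[z0,z0,z1]),(z1,[y2,y2,y1,z2]),(z1,[z1])] [(k1,k3,z1,[z0,z1]),(k3,k1,z1,[z0,z1])]),
    .old (.lp [(nat_lit 10120),(nat_lit 12144),(nat_lit 7920),(nat_lit 18216),(nat_lit 2024),
    (nat_lit 10120)] [(nat_lit 4048),(nat_lit 4048),(nat_lit 3036),(nat_lit 3036),(nat_lit 5148),(nat_lit 5148),k0,k0,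
    (nat_lit 8096),(nat_lit 8096),(nat_lit 4048),(nat_lit 4048)] k0 [[],[k0,k0,k0,(nat_lit 1380)],[(nat_lit 1380)],[],
    [],[k0,k0,k0,k0,k0,k0,k0,(nat_lit 1265)],[k0,k0,k0,k0,(nat_lit 1265)]] (nat_lit 30360) k6
    [[(k8,(nat_lit 6072)),(k10,(nat_lit 10120))],[(k9,(nat_lit 6072)),(k5,(nat_lit 10400)),(k3,(nat_lit 11132)),(k7,
    (nat_lit 14168))],[(k4,(nat_lit 10032)),(k2,(nat_lit 10764)),(k0,(nat_lit 11132)),(k6,(nat_lit 15180))],[(k9,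
    (nat_lit 7084)),(k5,(nat_lit 10032)),(k3,(nat_lit 10764)),(k7,(nat_lit 15180))],[(k4,(nat_lit 7920)),(k2,
    (nat_lit 10032)),(k0,(nat_lit 10400)),(k6,(nat_lit 13068))],[(k9,(nat_lit 6237)),(k5,(nat_lit 7920)),(k3,
    (nat_lit 10032)),(k7,(nat_lit 13068))],[(k4,(nat_lit 13068)),(k0,(nat_lit 14168)),(k2,(nat_lit 15180)),(k6,
    (nat_lit 16951))],[(k9,(nat_lit 10120)),(k5,(nat_lit 13068)),(k3,(nat_lit 15180)),(k7,(nat_lit 16951))],[(k0,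
    (nat_lit 6072)),(k4,(nat_lit 6237)),(k2,(nat_lit 7084)),(k6,(nat_lit 10120))],[(k1,(nat_lit 6072)),(k11,
    (nat_lit 6072))],[(k8,(nat_lit 6072)),(k10,(nat_lit 10120))],[(k1,(nat_lit 10120)),(k11,(nat_lit 10120))]]
    [] k0
    [[k1,k0,k0,k0,k1,k0],[k2,k0,k0,k0,k2,k0],[k1,k1,k0,k0,k1,k0],[k1,k0,k1,k0,k1,k0],[k1,k0,k0,k0,k1,k1],[k0,k2,k0,k0,
    k0,k0],[k0,k1,k1,k0,k0,k0],[k0,k1,k2,k0,k0,k0],[k0,k0,k2,k0,k0,k0],[k0,k0,k3,k0,k0,k0],[k0,k0,k1,k1,k0,k0],[k0,k0,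
    k0,k0,k0,k2]]
    [.contra [y1,y1,y2,z2],.ref k8 k0 [(z2,[z1]),(z1,[z0,z0,z1]),(z2,[y1,y2,y4,z4])],.ref k7 k0 [(z1,[z0,z1]),(z1,[z1,
    y1]),(z1,[z0,y1,y1,z1])],.contra [y1,y1,y2,z2],.contra [y1,z0,y1,z1],.contra [z1],.ref k0 k0 [(z1,[y1,z0,z0,z1])],
    .ref k7 k1 [(z1,[z0,z1]),(z1,[y1,y2,y1,z2]),(z1,[z0,y1,y1,z1])],.contra [z1],.ref k6 k0 [(z1,[y1,y3,y6,z6]),(z1,
    [z0,z0,z1])],.ref k0 k1 [(z1,[y1,z0,z0,z1])],.contra [z1,y2,y2,z2]]),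
    .old (.leafM k11 [k0,k2,k4,k5] [(z1,[z0,z0,z1]),(z1,[y3,y3,y1,z3]),(z1,[z1])] [(k1,k3,z1,[z0,z1]),(k3,k1,z1,[z0,z1])]),
    .old (.lp [k84,k100,k110,k80,k36,k60] [k13,k13,k5,k5,k0,k0,k15,k15,k37,k37,k25,k25] k0 [[k0,k0,k0,k0,k30],[k0,k0,k0,
    k10],[k10],[k0,k0,k0,k0,k0,k60],[k0,k0,k60],[k0,k30]] (nat_lit 240) k6
    [[(k8,k60),(k10,k72)],[(k7,k52),(k9,k60),(k3,k92),(k5,k107)],[(k2,k90),(k6,k90),(k0,k92),(k4,k135)],[(k9,k68),(k3,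
    k90),(k5,k105),(k7,k150)],[(k4,k50),(k6,k95),(k2,k105),(k0,k107)],[(k5,k50),(k9,k73),(k7,k95),(k3,k135)],[(k0,
    k52),(k6,k80),(k4,k95),(k2,k150)],[(k9,k58),(k7,k80),(k3,k90),(k5,k95)],[(k6,k58),(k0,k60),(k2,k68),(k4,k73)],
    [(k11,k48),(k1,k60)],[(k8,k48),(k10,k60)],[(k11,k60),(k1,k72)]]
    [] k0
    [[k1,k0,k0,k0,k1,k0],[k1,k1,k0,k0,k1,k0],[k1,k0,k0,k1,k1,k0],[k1,k0,k0,k0,k1,k1],[k1,k0,k0,k1,k1,k1],[k0,k2,k0,k0,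
    k0,k0],[k0,k0,k2,k0,k0,k0],[k0,k0,k3,k0,k0,k0],[k0,k0,k4,k0,k0,k0],[k0,k0,k1,k1,k0,k0],[k0,k0,k0,k2,k0,k0],[k0,k0,
    k0,k0,k0,k2],[k0,k0,k0,k0,k0,k3]]
    [.contra [y2,z2,z1],.contra [z1,y1],.contra [y1,z1,z1],.contra [z1,y1],.ref k0 k0 [(z1,[z1])],.contra [z1],
    .contra [z1],.ref k10 k0 [(z1,[z0,z1]),(z1,[z0,z0,z1]),(z1,[z1])],.ref k9 k0 [(z2,[y1,y2,y4,z4]),(z1,[z0,z0,z1])],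
    .ref k0 k1 [(z1,[y1,z0,z0,z1])],.contra [y1,z0,z2],.contra [z1],.ref k6 k0 [(z1,[y1,z0,y3,z3]),(z1,[z0,z0,z1])]]),
    .old (.lp [k64,k98,k80,k98,k78,k60] [k28,k28,k11,k11,k20,k20,k11,k11,k42,k0,k30,k30] k0 [[k0,k0,k0,k0,k0,k0,k44],[k0,
    k0,k0,k18],[k18],[],[],[],[],[k0,k44]] (nat_lit 240) k6
    [[(k8,k50),(k10,k62)],[(k9,k48),(k3,k81),(k7,k81),(k5,k90)],[(k2,k80),(k0,k81),(k4,k89),(k6,k142)],[(k3,k80),(k5,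
    k89),(k7,k98),(k9,k109)],[(k4,k80),(k2,k89),(k6,k89),(k0,k90)],[(k5,k80),(k3,k89),(k7,k89),(k9,k100)],[(k0,k81),
    (k4,k89),(k2,k98),(k6,k98)],[(k5,k89),(k7,k98),(k9,k109),(k3,k142)],[(k0,k48),(k4,k100),(k2,k109),(k6,k109)],
    [(k11,k48),(k1,k50)],[(k8,k48),(k10,k60)],[(k11,k60),(k1,k62)]]
    [] k0
    [[k1,k0,k0,k0,k1,k0],[k2,k0,k0,k0,k2,k0],[k1,k0,k0,k0,k1,k1],[k1,k0,k0,k0,k1,k2],[k0,k2,k0,k0,k0,k0],[k0,k1,k1,k0,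
    k0,k0],[k0,k0,k2,k0,k0,k0],[k0,k0,k1,k1,k0,k0],[k0,k0,k0,k2,k0,k0],[k0,k0,k0,k0,k0,k2],[k0,k0,k0,k0,k0,k3]]
    [.contra [y1,z1],.ref k11 k0 [(z2,[z1]),(z1,[z0,y1,z1])],.contra [y1,z1],.ref k9 k0 [(z1,[z1]),(z1,[z0,y1,z1])],
    .contra [z1],.ref k0 k0 [(z1,[y1,z0,z1])],.contra [z1],.ref k0 k1 [(z1,[y1,z0,z1])],.contra [y1,y2,z2],
    .contra [z1],.ref k6 k0 [(z1,[y1,z3]),(z1,[z0,y1,z1])]]),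
    .old (.leafM k10 [k1,k2,k3,k5] [(z1,[z0,z0,z1]),(z1,[y3,y1,y1,z3]),(z1,[z0,z1])] [(k4,k0,z1,[z1]),(k0,k4,z1,[z1])]),
    .old (.leafM k11 [k3,k5,k1,k2] [(z1,[y3,y3,y1,z3]),(z1,[z0,z0,z1]),(z1,[z0,z1])] [(k4,k0,z1,[z1]),(k0,k4,z1,[z1])]),
    .old (.lp [k99,k82,k62,k116,k39,k80] [k34,k37,k68,k20,k54,k54,k0,k54,k77,k54,k45,k45] k0 [[k0,k0,k0,k0,k34],[k0,k0,k0,
    k0,k0,k0,k0,k102],[],[],[k0,k0,k0,k0,k0,k0,k4],[k0,k34],[k102],[k0,k0,k0,k0,k0,k4]] (nat_lit 240) k6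
    [[(k8,k56),(k10,k88)],[(k7,k48),(k5,k82),(k3,k116),(k9,k184)],[(k6,k48),(k2,k82),(k0,k116),(k4,k130)],[(k5,k48),
    (k7,k48),(k9,k48),(k3,k82)],[(k2,k48),(k4,k62),(k0,k82),(k6,k116)],[(k9,k58),(k5,k62),(k7,k62),(k3,k130)],[(k0,
    k48),(k2,k48),(k4,k62),(k6,k120)],[(k3,k48),(k5,k116),(k9,k116),(k7,k120)],[(k2,k48),(k4,k58),(k6,k116),(k0,
    k184)],[(k11,k48),(k1,k56)],[(k8,k48),(k10,k80)],[(k11,k80),(k1,k88)]]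
    [] k0
    [[k1,k1,k0,k0,k1,k0],[k1,k1,k0,k1,k1,k0],[k1,k0,k1,k0,k1,k0],[k1,k0,k0,k1,k1,k0],[k0,k2,k0,k0,k0,k0],[k0,k2,k0,k1,
    k0,k0],[k0,k1,k1,k0,k0,k0],[k0,k1,k0,k1,k0,k0],[k0,k2,k0,k2,k0,k0],[k0,k1,k1,k1,k0,k0],[k0,k1,k2,k1,k0,k0],[k0,k1,
    k0,k2,k0,k0],[k0,k0,k2,k0,k0,k0],[k0,k0,k3,k0,k0,k0],[k0,k0,k1,k1,k0,k0],[k0,k0,k0,k0,k0,k2]]
    [.contra [z1,y1],.contra [z1,y1],.contra [z1,y1],.contra [y1,z1,z0,z1],.contra [z1],.contra [z1,y4,y1,y2,z4],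
    .contra [y2,z0,z1,z1],.contra [y6,z0,z1,z5],.contra [y2,z0,z1,z1],.contra [z2,y4,y1,y3,z4],.contra [z1,z0,z0,y1],
    .contra [y2,z0,z1,z1],.contra [z1],.contra [z2,z0,z1,y3],.contra [y1,z0,z0,z1],.contra [z1]]),
    .old (.lp [k70,k41,k30,k45,k13,k40] [k0,k8,k24,k13,k24,k24,k4,k29,k35,k30,k19,k19] k0 [[k0,k0,k30],[k0,k0,k0,k0,k0,k0,
    k0,k37],[],[k0,k30],[],[],[k37]] k120 k6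
    [[(k8,k35),(k10,k51)],[(k5,k24),(k7,k49),(k3,k65),(k9,k85)],[(k6,k24),(k4,k41),(k0,k65),(k2,k71)],[(k9,k24),(k7,
    k25),(k5,k30),(k3,k71)],[(k0,k24),(k2,k30),(k4,k30),(k6,k50)],[(k9,k24),(k7,k25),(k5,k30),(k3,k41)],[(k2,k25),(k4,
    k25),(k6,k45),(k0,k49)],[(k3,k24),(k9,k44),(k7,k45),(k5,k50)],[(k2,k24),(k4,k24),(k6,k44),(k0,k85)],[(k11,k24),
    (k1,k35)],[(k8,k24),(k10,k40)],[(k11,k40),(k1,k51)]]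
    [] k0
    [[k1,k0,k1,k0,k1,k0],[k1,k0,k2,k0,k1,k0],[k0,k1,k1,k0,k0,k0],[k0,k1,k2,k0,k0,k0],[k0,k1,k1,k1,k0,k0],[k0,k1,k0,k1,
    k0,k0],[k0,k2,k0,k2,k0,k0],[k0,k1,k2,k1,k0,k0],[k0,k1,k0,k2,k0,k0],[k0,k0,k2,k0,k0,k0],[k0,k0,k3,k0,k0,k0],[k0,k0,
    k2,k1,k0,k0],[k0,k0,k1,k1,k0,k0],[k0,k0,k0,k2,k0,k0],[k0,k0,k0,k0,k0,k2]]
    [.contra [z1,y1],.contra [z1,y1],.contra [y2,z0,z1,z1],.contra [y2,z0,z1,z1],.contra [z2,y4,y3,y1,z4],.contra [y1,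
    z0,z1],.contra [y1,z0,z2],.contra [y2,z0,z1,z1],.contra [y2,z0,z1,z1],.contra [z1],.contra [y1,z0,z0,z1],
    .contra [z1,y4,y2,y1,z4],.contra [y6,z0,z5,z1],.contra [z1],.contra [z1]]),
    .old (.lp [k24,k45,k30,k60,k40,k40] [k32,k32,k35,k8,k29,k29,k0,k28,k24,k24,k24,k24] k0 [[],[k0,k0,k0,k0,k0,k0,k0,k56],
    [],[],[k0,k0,k0,k0,k0,k0,k11],[],[k56],[k0,k0,k0,k0,k0,k11]] k120 k6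
    [[(k8,k32),(k10,k32)],[(k5,k27),(k7,k28),(k3,k48),(k9,k88)],[(k6,k24),(k2,k45),(k0,k48),(k4,k51)],[(k5,k24),(k7,
    k25),(k9,k29),(k3,k45)],[(k2,k24),(k0,k27),(k4,k30),(k6,k59)],[(k9,k24),(k5,k30),(k7,k31),(k3,k51)],[(k2,k25),(k0,
    k28),(k4,k31),(k6,k71)],[(k3,k24),(k5,k59),(k9,k64),(k7,k71)],[(k4,k24),(k2,k29),(k6,k64),(k0,k88)],[(k1,k32),
    (k11,k40)],[(k8,k40),(k10,k40)],[(k1,k32),(k11,k40)]]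
    [] k0
    [[k1,k1,k0,k0,k1,k0],[k1,k1,k0,k1,k1,k0],[k1,k0,k1,k0,k1,k0],[k1,k0,k2,k0,k1,k0],[k0,k2,k0,k0,k0,k0],[k0,k2,k0,k1,
    k0,k0],[k0,k1,k1,k0,k0,k0],[k0,k1,k2,k0,k0,k0],[k0,k1,k0,k1,k0,k0],[k0,k2,k0,k2,k0,k0],[k0,k1,k1,k1,k0,k0],[k0,k1,
    k2,k1,k0,k0],[k0,k0,k2,k0,k0,k0],[k0,k0,k3,k0,k0,k0],[k0,k0,k1,k1,k0,k0],[k0,k0,k0,k0,k0,k2]]
    [.contra [z1,y1],.contra [z1,y1],.contra [z1,y1],.contra [z1,y1],.contra [z1],.ref k16 k0 [(z1,[z0,z1]),(z1,[z1]),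
    (z1,[y3,z0,z2])],.contra [y2,z0,z1],.ref k15 k1 [(z1,[z0,z1]),(z1,[y3,z0,z2]),(z1,[z1])],.contra [y2,z0,z1],
    .ref k14 k0 [(z1,[z0,z1]),(z2,[z1]),(z2,[y3,z0,z2])],.contra [z1,y2,y1,z2],.ref k13 k0 [(z1,[z0,z1]),(z1,[y3,z0,
    z2]),(z1,[z3,z0,y1])],.contra [z1],.ref k13 k0 [(z1,[z0,z1]),(z1,[y1,z0,z1]),(z1,[z1])],.contra [y2,z0,z1],
    .contra [z1]]),
    .old (.lp [k32,k56,k32,k56,k32,k30] [k32,k32,k40,k0,k32,k32,k15,k25,k32,k32,k33,k33] k0 [[k0,k0,k8],[k0,k0,k0,k0,k0,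
    k0,k0,k56],[],[k0,k8],[k0,k0,k0,k0,k0,k0,k8],[],[k56],[k0,k0,k0,k0,k0,k8]] k120 k6
    [[(k10,k31),(k8,k32)],[(k5,k24),(k7,k39),(k3,k64),(k9,k88)],[(k6,k25),(k0,k64),(k2,k64),(k4,k64)],[(k5,k24),(k9,
    k24),(k7,k31),(k3,k64)],[(k0,k24),(k2,k24),(k4,k32),(k6,k49)],[(k9,k24),(k5,k32),(k7,k39),(k3,k64)],[(k2,k31),(k0,
    k39),(k4,k39),(k6,k64)],[(k3,k25),(k5,k49),(k9,k49),(k7,k64)],[(k2,k24),(k4,k24),(k6,k49),(k0,k88)],[(k11,k31),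
    (k1,k32)],[(k10,k30),(k8,k31)],[(k11,k30),(k1,k31)]]
    [] k0
    [[k1,k0,k1,k0,k1,k0],[k1,k0,k2,k0,k1,k0],[k1,k0,k1,k0,k1,k1],[k0,k1,k1,k0,k0,k0],[k0,k1,k0,k1,k0,k0],[k0,k2,k0,k2,
    k0,k0],[k0,k1,k1,k1,k0,k0],[k0,k0,k2,k0,k0,k0],[k0,k0,k3,k0,k0,k0],[k0,k0,k1,k1,k0,k0],[k0,k0,k0,k0,k0,k2],[k0,k0,
    k0,k0,k0,k3]]
    [.contra [z1,y1],.contra [z1,y1],.contra [y3,z3,z2,z1],.contra [y3,z0,z2,z1],.contra [z3,z3,z2,z1,y3],.contra [y3,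
    y6,z2,y2,z6],.contra [y1,y1,z0,z0,z1],.contra [z1],.contra [y1,z0,z0,z1],.contra [y1,y1,z0,z0,z1],.contra [z1],
    .contra [y1,z0,z0,z1]]),
    .old (.lp [k140,k80,k80,k80,k38,k60] [k0,k0,k41,k19,k30,k30,k11,k49,k51,k51,k40,k40] k0 [[k0,k0,k62],[k0,k0,k0,k0,k0,
    k0,k0,k62],[],[k0,k62],[],[],[k62]] (nat_lit 240) k6
    [[(k8,k89),(k10,k100)],[(k5,k48),(k7,k91),(k3,k121),(k9,k151)],[(k6,k48),(k4,k91),(k0,k121),(k2,k142)],[(k9,k48),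
    (k7,k50),(k5,k69),(k3,k142)],[(k0,k48),(k2,k69),(k4,k80),(k6,k99)],[(k9,k59),(k7,k61),(k5,k80),(k3,k91)],[(k2,
    k50),(k4,k61),(k6,k80),(k0,k91)],[(k3,k48),(k9,k78),(k7,k80),(k5,k99)],[(k2,k48),(k4,k59),(k6,k78),(k0,k151)],
    [(k11,k49),(k1,k89)],[(k8,k49),(k10,k60)],[(k11,k60),(k1,k100)]]
    [] k0
    [[k1,k0,k1,k0,k1,k0],[k0,k1,k1,k0,k0,k0],[k0,k1,k0,k1,k0,k0],[k0,k2,k0,k2,k0,k0],[k0,k1,k1,k1,k0,k0],[k0,k1,k0,k2,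
    k0,k0],[k0,k0,k2,k0,k0,k0],[k0,k0,k1,k1,k0,k0],[k0,k0,k0,k2,k0,k0],[k0,k0,k0,k0,k0,k2],[k0,k0,k0,k0,k0,k3]]
    [.contra [z1,y1],.contra [y1,y1,z0,z1],.contra [y1,z0,z1],.contra [y1,z0,z2],.contra [y1,y1,z0,z1],
    .ref k18 k0 [(z1,[z0,z1]),(z1,[y1,z0,z2]),(z1,[y1,y3,y1,z3])],.contra [z1],.contra [y1,y1,z0,z1],.contra [z1],
    .contra [z1],.ref k17 k0 [(z1,[z0,z1]),(z1,[y1,y3,z0,z3])]]),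
    .old (.leafM k12 [k1,k2,k3,k5] [(z1,[z0,z0,z1]),(z1,[y2,y2,y1,z2]),(z1,[z0,z1])] [(k4,k0,z1,[z1]),(k0,k4,z1,[z1])]),
    .old (.leafM k11 [k1,k2,k3,k5] [(z1,[z0,z0,z1]),(z1,[y3,y3,y1,z3]),(z1,[z0,z1])] [(k4,k0,z1,[z1]),(k0,k4,z1,[z1])]),
    .old (.lp [k111,k111,k62,k80,k67,k48] [k0,k39,k34,k5,k44,k44,k35,k35,k51,k32,k51,k51] k0 [[k0,k0,k0,k0,k67],[k0,k0,k0,
    k0,k0,k0,k0,k62],[k0,k0,k0,k0,k0,k0,k36],[],[],[k0,k67],[k62],[k0,k0,k0,k36]] (nat_lit 240) k6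
    [[(k8,k60),(k10,k60)],[(k7,k48),(k5,k106),(k3,k145),(k9,k180)],[(k6,k48),(k2,k111),(k0,k145),(k4,k168)],[(k9,k48),
    (k5,k72),(k7,k81),(k3,k111)],[(k4,k62),(k2,k72),(k0,k106),(k6,k107)],[(k5,k62),(k7,k71),(k9,k74),(k3,k168)],[(k0,
    k48),(k4,k71),(k6,k80),(k2,k81)],[(k3,k48),(k7,k80),(k9,k83),(k5,k107)],[(k2,k48),(k4,k74),(k6,k83),(k0,k180)],
    [(k11,k48),(k1,k60)],[(k8,k48),(k10,k48)],[(k11,k48),(k1,k60)]]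
    [] k0
    [[k1,k1,k0,k1,k1,k0],[k1,k0,k0,k1,k1,k0],[k1,k0,k0,k1,k1,k1],[k0,k2,k0,k0,k0,k0],[k0,k1,k0,k1,k0,k0],[k0,k1,k1,k1,
    k0,k0],[k0,k1,k0,k2,k0,k0],[k0,k0,k2,k0,k0,k0],[k0,k0,k3,k0,k0,k0],[k0,k0,k1,k1,k0,k0],[k0,k0,k0,k2,k0,k0],[k0,k0,
    k0,k0,k0,k2],[k0,k0,k0,k0,k0,k3],[k0,k0,k0,k0,k0,k4]]
    [.contra [z1,y1],.contra [y1,z1,z1],.contra [z1,y1],.contra [z1],.contra [y1,z0,z2],.contra [z1,z0,y1],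
    .contra [z1,z0,y1],.contra [z1],.ref k21 k0 [(z1,[z0,z1]),(z1,[z0,z0,z1]),(z1,[z1])],.contra [y1,y1,z0,z1],
    .contra [z1],.contra [z1],.ref k17 k0 [(z1,[z0,z1]),(z1,[y1,y3,z0,z3])],.ref k20 k0 [(z1,[z0,z1]),(z1,[z0,z0,z1]),
    (z2,[y1,y4,y4,z4])]]),
    .old (.lp [(nat_lit 75166),(nat_lit 205320),(nat_lit 115640),(nat_lit 115640),(nat_lit 92512),
    (nat_lit 86730)] [(nat_lit 153277),(nat_lit 153277),(nat_lit 176400),k0,(nat_lit 133040),(nat_lit 133040),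
    (nat_lit 133040),(nat_lit 133040),(nat_lit 153277),(nat_lit 135931),(nat_lit 147495),(nat_lit 147495)] k0 [[k0,k0,
    k0,k0,(nat_lit 26019)],[k0,k0,k0,k0,k0,k0,k0,(nat_lit 179242)],[],[],[],[k0,(nat_lit 26019)],
    [(nat_lit 179242)]] (nat_lit 346920) k6
    [[(k8,(nat_lit 75166)),(k10,(nat_lit 80948))],[(k7,(nat_lit 69384)),(k5,(nat_lit 95403)),(k3,(nat_lit 228443)),
    (k9,(nat_lit 271754))],[(k6,(nat_lit 69438)),(k2,(nat_lit 205320)),(k0,(nat_lit 228443)),(k4,(nat_lit 274699))],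
    [(k9,(nat_lit 69389)),(k5,(nat_lit 72280)),(k7,(nat_lit 72280)),(k3,(nat_lit 205320))],[(k2,(nat_lit 72280)),(k0,
    (nat_lit 95403)),(k4,(nat_lit 115640)),(k6,(nat_lit 115640))],[(k9,(nat_lit 112749)),(k5,(nat_lit 115640)),(k7,
    (nat_lit 115640)),(k3,(nat_lit 274699))],[(k0,(nat_lit 69384)),(k2,(nat_lit 72280)),(k4,(nat_lit 115640)),(k6,
    (nat_lit 115640))],[(k3,(nat_lit 69438)),(k9,(nat_lit 112749)),(k5,(nat_lit 115640)),(k7,(nat_lit 115640))],[(k2,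
    (nat_lit 69389)),(k4,(nat_lit 112749)),(k6,(nat_lit 112749)),(k0,(nat_lit 271754))],[(k1,(nat_lit 75166)),(k11,
    (nat_lit 80948))],[(k8,(nat_lit 80948)),(k10,(nat_lit 86730))],[(k1,(nat_lit 80948)),(k11,(nat_lit 86730))]]
    [] k0
    [[k1,k1,k0,k1,k1,k0],[k1,k0,k1,k0,k1,k0],[k1,k0,k0,k1,k1,k0],[k1,k0,k0,k1,k1,k1],[k0,k1,k0,k1,k0,k0],[k0,k2,k0,k2,
    k0,k0],[k0,k1,k1,k1,k0,k0],[k0,k1,k0,k2,k0,k0],[k0,k0,k2,k0,k0,k0],[k0,k0,k1,k1,k0,k0],[k0,k0,k0,k2,k0,k0],[k0,k0,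
    k0,k0,k0,k2],[k0,k0,k0,k0,k0,k3]]
    [.contra [z1,y1],.contra [z1,y1],.contra [z1,y1],.contra [z1,y1],.contra [y1,y1,z1],.ref k22 k0 [(z1,[z0,z1]),(z2,
    [z1])],.contra [y1,y1,z1],.ref k19 k1 [(z1,[z0,z1]),(z1,[z1])],.contra [z1],.contra [y1,y1,z1],.contra [z1],
    .contra [z1],.ref k17 k0 [(z1,[z0,z1]),(z1,[y1,y3,z3])]]),
    .old (.leafM k2 [k0,k1,k2,k3,k4,k5] [(z1,[z0,z1]),(z1,[z0,z0,z1]),(z1,[y3,y1,y1,z3])] []),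
    .old (.lp [(nat_lit 1200),(nat_lit 966),(nat_lit 966),(nat_lit 966),(nat_lit 460),(nat_lit 920)] [k0,k0,k117,k117,
    k117,k117,k117,k117,(nat_lit 370),(nat_lit 370),k140,k140] k0 [[],[k0,k0,k0,k138],[k138],[k0,k0,k0,k0,k0,k0,k0,
    k138],[],[],[k0,k0,k138]] (nat_lit 2760) k5
    [[(k8,(nat_lit 830)),(k10,(nat_lit 1060))],[(k9,(nat_lit 830)),(k3,(nat_lit 1083)),(k7,(nat_lit 1083)),(k5,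
    (nat_lit 1221))],[(k2,(nat_lit 828)),(k4,(nat_lit 966)),(k6,(nat_lit 966)),(k0,(nat_lit 1083))],[(k3,
    (nat_lit 828)),(k9,(nat_lit 851)),(k5,(nat_lit 966)),(k7,(nat_lit 966))],[(k6,(nat_lit 828)),(k2,(nat_lit 966)),
    (k4,(nat_lit 966)),(k0,(nat_lit 1221))],[(k9,(nat_lit 713)),(k3,(nat_lit 966)),(k5,(nat_lit 966)),(k7,
    (nat_lit 966))],[(k2,(nat_lit 966)),(k4,(nat_lit 966)),(k6,(nat_lit 966)),(k0,(nat_lit 1083))],[(k9,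
    (nat_lit 713)),(k5,(nat_lit 828)),(k3,(nat_lit 966)),(k7,(nat_lit 966))],[(k4,(nat_lit 713)),(k6,(nat_lit 713)),
    (k0,(nat_lit 830)),(k2,(nat_lit 851))],[(k11,(nat_lit 690)),(k1,(nat_lit 830))],[(k8,(nat_lit 690)),(k10,
    (nat_lit 920))],[(k11,(nat_lit 920)),(k1,(nat_lit 1060))]]
    [] k0
    [[k1,k0,k0,k0,k1,k0],[k1,k0,k0,k1,k1,k0],[k1,k0,k0,k0,k1,k1],[k0,k2,k0,k0,k0,k0],[k0,k3,k0,k0,k0,k0],[k0,k1,k1,k0,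
    k0,k0],[k0,k1,k0,k1,k0,k0],[k0,k0,k2,k0,k0,k0],[k0,k0,k1,k1,k0,k0],[k0,k0,k0,k2,k0,k0],[k0,k0,k0,k0,k0,k2]]
    [.contra [y3,z1,z1],.ref k1 k0 [(z6,[z3,y1,y2,y2,z6])],.ref k1 k0 [(z1,[z1])],.contra [z1],.ref k1 k0 [(z3,[y1,z0,
    z0,y1,z3])],.contra [z3,z0,z1,y1],.contra [z3,y2,y3,y2,z6],.contra [z3,z0,z2,y2],.contra [z3,y2,y2,y3,z6],
    .contra [z1],.contra [z1]]),
    .old (.lp [(nat_lit 1200),(nat_lit 966),(nat_lit 966),(nat_lit 966),(nat_lit 460),(nat_lit 920)] [k0,k0,k117,k117,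
    k117,k117,k117,k117,(nat_lit 370),(nat_lit 370),k140,k140] k0 [[],[k0,k0,k0,k0,k0,k138],[],[],[k138],[k0,k0,k0,k0,
    k0,k0,k0,k138],[k0,k0,k0,k0,k138]] (nat_lit 2760) k5
    [[(k8,(nat_lit 830)),(k10,(nat_lit 1060))],[(k9,(nat_lit 830)),(k3,(nat_lit 1083)),(k5,(nat_lit 1083)),(k7,
    (nat_lit 1221))],[(k4,(nat_lit 828)),(k2,(nat_lit 966)),(k6,(nat_lit 966)),(k0,(nat_lit 1083))],[(k9,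
    (nat_lit 713)),(k3,(nat_lit 966)),(k5,(nat_lit 966)),(k7,(nat_lit 966))],[(k2,(nat_lit 966)),(k4,(nat_lit 966)),
    (k6,(nat_lit 966)),(k0,(nat_lit 1083))],[(k3,(nat_lit 828)),(k9,(nat_lit 851)),(k5,(nat_lit 966)),(k7,
    (nat_lit 966))],[(k6,(nat_lit 828)),(k2,(nat_lit 966)),(k4,(nat_lit 966)),(k0,(nat_lit 1221))],[(k9,
    (nat_lit 713)),(k7,(nat_lit 828)),(k3,(nat_lit 966)),(k5,(nat_lit 966))],[(k2,(nat_lit 713)),(k6,(nat_lit 713)),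
    (k0,(nat_lit 830)),(k4,(nat_lit 851))],[(k11,(nat_lit 690)),(k1,(nat_lit 830))],[(k8,(nat_lit 690)),(k10,
    (nat_lit 920))],[(k11,(nat_lit 920)),(k1,(nat_lit 1060))]]
    [] k0
    [[k1,k0,k0,k0,k1,k0],[k1,k1,k0,k0,k1,k0],[k1,k0,k0,k0,k1,k1],[k0,k2,k0,k0,k0,k0],[k0,k1,k1,k0,k0,k0],[k0,k1,k0,k1,
    k0,k0],[k0,k0,k2,k0,k0,k0],[k0,k0,k1,k1,k0,k0],[k0,k0,k0,k2,k0,k0],[k0,k0,k0,k3,k0,k0],[k0,k0,k0,k0,k0,k2]]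
    [.contra [y1,z1],.ref k25 k0 [(z1,[z3,z0,y1]),(z1,[z0,z0,z1]),(z1,[y3,z3,z1])],.ref k1 k0 [(z1,[z1])],
    .contra [z1],.ref k0 k0 [(z1,[y1,z0,z0,z1])],.contra [z1,y2,y1,z2],.contra [z1],.ref k0 k1 [(z1,[y1,z0,z0,z1])],
    .contra [z1],.ref k24 k0 [(z1,[z0,z1]),(z1,[y1,z0,z1]),(z1,[z1])],.contra [z1]]),
    .old (.lp [k10,k8,k8,k8,k6,k6] [k0,k0,k1,k1,k1,k1,k1,k1,k2,k2,k2,k2] k0 [] k24 k5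
    [[(k8,k8),(k10,k8)],[(k9,k8),(k3,k9),(k5,k9),(k7,k9)],[(k2,k8),(k4,k8),(k6,k8),(k0,k9)],[(k9,k7),(k3,k8),(k5,k8),
    (k7,k8)],[(k2,k8),(k4,k8),(k6,k8),(k0,k9)],[(k9,k7),(k3,k8),(k5,k8),(k7,k8)],[(k2,k8),(k4,k8),(k6,k8),(k0,k9)],
    [(k9,k7),(k3,k8),(k5,k8),(k7,k8)],[(k2,k7),(k4,k7),(k6,k7),(k0,k8)],[(k11,k6),(k1,k8)],[(k8,k6),(k10,k6)],[(k11,
    k6),(k1,k8)]]
    [] k0
    [[k1,k0,k0,k0,k1,k0],[k1,k0,k0,k0,k1,k1],[k0,k2,k0,k0,k0,k0],[k0,k1,k1,k0,k0,k0],[k0,k1,k0,k1,k0,k0],[k0,k0,k2,k0,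
    k0,k0],[k0,k0,k1,k1,k0,k0],[k0,k0,k0,k2,k0,k0],[k0,k0,k0,k0,k0,k2],[k0,k0,k0,k0,k0,k3]]
    [.contra [y1,z1],.ref k1 k0 [(z1,[z1])],.contra [z1],.ref k0 k0 [(z1,[y1,z0,z1])],.contra [y1,y1,z1],.contra [z1],
    .ref k0 k1 [(z1,[y1,z0,z1])],.contra [z1],.contra [z1],.ref k26 k0 [(z1,[z0,z1]),(z1,[y1,y3,z3])]]),
    .old (.lp [k26,k44,k34,k44,k50,k40] [k16,k16,k7,k7,k12,k12,k7,k7,k8,k0,k9,k9] k0 [[],[k0,k0,k0,k0,k0,k0,k0,k4],[k0,k0,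
    k0,k0,k8],[],[k0,k0,k0,k0,k0,k0,k16],[k0,k0,k0,k8],[k4],[k0,k0,k0,k0,k0,k16]] k120 k5
    [[(k10,k33),(k8,k34)],[(k5,k30),(k3,k35),(k7,k35),(k9,k46)],[(k0,k35),(k4,k39),(k6,k40),(k2,k44)],[(k7,k36),(k5,
    k39),(k3,k44),(k9,k51)],[(k0,k30),(k2,k39),(k6,k39),(k4,k42)],[(k9,k30),(k3,k39),(k7,k39),(k5,k42)],[(k0,k35),(k2,
    k36),(k4,k39),(k6,k60)],[(k5,k39),(k3,k40),(k9,k51),(k7,k60)],[(k4,k30),(k0,k46),(k2,k51),(k6,k51)],[(k1,k34),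
    (k11,k41)],[(k10,k40),(k8,k41)],[(k1,k33),(k11,k40)]]
    [] k0
    [[k1,k0,k0,k0,k1,k0],[k1,k0,k1,k0,k1,k0],[k0,k2,k0,k0,k0,k0],[k0,k1,k1,k0,k0,k0],[k0,k1,k1,k1,k0,k0],[k0,k1,k0,k1,
    k0,k0],[k0,k0,k2,k0,k0,k0],[k0,k0,k1,k1,k0,k0],[k0,k0,k0,k0,k0,k2]]
    [.ref k23 k0 [(z1,[z1])],.ref k27 k0 [(z1,[z1])],.contra [z1],.ref k0 k0 [(z1,[y1,z1])],.ref k1 k0 [(z1,[y1,z1])],
    .ref k12 k0 [(z1,[y1,z1])],.contra [z1],.ref k0 k1 [(z1,[y1,z1])],.contra [z1]])]⟩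

/-- classes `0 0 0 0 1 1`, types `C0 C0 C0 C0 C0 C2` -/
noncomputable def cU6_94 : CertX :=
  ⟨[k4,k4,k4,k4,k20,k22],[(false,k0,[k0,k1,k2,k3,k4,k5]),(true,k4,[k4,k3,k2,k1,k0,k5])],[[[([z1,z0,z0,z1,z1,z1],z2)],
    [([z1,z0,z0,z0,z1,z1],z2)],[]]],
    [.old (.leafM k0 [k0,k3,k4,k5] [] [(k1,k2,z1,[y1,z1]),(k2,k1,z1,[y1,z1])]),
    .old (.leafM k0 [k0,k1,k2,k3,k4,k5] [(z1,[y1,z1])] []),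
    .old (.lp [(nat_lit 924),(nat_lit 2310),(nat_lit 1680),(nat_lit 2310),(nat_lit 924),(nat_lit 924)] [(nat_lit 693),
    (nat_lit 693),k0,k0,(nat_lit 315),(nat_lit 315),k0,k0,(nat_lit 693),(nat_lit 693),(nat_lit 693),
    (nat_lit 693)] k0 [[k0,k0,k0,k0,(nat_lit 660)],[k0,k0,k0,(nat_lit 385)],[(nat_lit 385)],[],[],[k0,
    (nat_lit 660)]] (nat_lit 4620) k6
    [[(k10,(nat_lit 924)),(k11,(nat_lit 924))],[(k9,(nat_lit 924)),(k7,(nat_lit 957)),(k3,(nat_lit 1617)),(k5,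
    (nat_lit 1687))],[(k0,(nat_lit 1617)),(k2,(nat_lit 1925)),(k6,(nat_lit 2310)),(k4,(nat_lit 2655))],[(k9,
    (nat_lit 1617)),(k3,(nat_lit 1925)),(k5,(nat_lit 1995)),(k7,(nat_lit 2310))],[(k4,(nat_lit 1680)),(k0,
    (nat_lit 1687)),(k2,(nat_lit 1995)),(k6,(nat_lit 1995))],[(k9,(nat_lit 1302)),(k5,(nat_lit 1680)),(k7,
    (nat_lit 1995)),(k3,(nat_lit 2655))],[(k0,(nat_lit 957)),(k4,(nat_lit 1995)),(k2,(nat_lit 2310)),(k6,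
    (nat_lit 2310))],[(k9,(nat_lit 1617)),(k5,(nat_lit 1995)),(k3,(nat_lit 2310)),(k7,(nat_lit 2310))],[(k0,
    (nat_lit 924)),(k4,(nat_lit 1302)),(k2,(nat_lit 1617)),(k6,(nat_lit 1617))],[(k10,(nat_lit 924)),(k11,
    (nat_lit 924))],[(k1,(nat_lit 924)),(k8,(nat_lit 924))],[(k1,(nat_lit 924)),(k8,(nat_lit 924))]]
    [] k0
    [[k1,k0,k0,k0,k1,k1],[k1,k0,k0,k1,k1,k1],[k0,k2,k0,k0,k0,k0],[k0,k0,k2,k0,k0,k0],[k0,k0,k1,k1,k0,k0]]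
    [.ref k1 k0 [(z1,[z1])],.ref k0 k0 [(z1,[z1])],.contra [z1],.contra [z1],.ref k0 k1 [(z1,[y1,z1])]])]⟩

/-- classes `0 0 0 0 1 1`, types `C0 C0 C0 C0 N0 N1` -/
noncomputable def cU6_95 : CertX :=
  ⟨[k4,k4,k4,k4,k28,k29],[(false,k0,[k0,k1,k2,k3,k4,k5]),(true,k4,[k4,k3,k2,k1,k0,k5])],[[[([z1,z0,z1,z0,z1,z0],z2),
    ([z0,z3,z0,z0,z0,z0],z2),([z0,z0,z0,z3,z0,z0],z2)],[([z3,z0,z0,z3,z3,z0],z4),([z0,z1,z0,y1,z0,z0],z0),([z0,z0,z1,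
    z1,z0,z0],z2)],[([z3,z0,z0,z0,z3,z0],z2),([z0,z1,z0,z1,z0,z0],z2),([z0,z0,z3,z0,z0,z0],z2)],[([z1,z0,z0,z0,z1,z0],
    z1),([z0,z1,z0,z1,z0,z0],z2),([z0,z0,z3,z0,z0,z0],z1)],[([z3,z0,z0,y3,z3,z0],y2),([z0,z1,z0,z1,z0,z0],z2),([z0,z0,
    z1,z1,z0,z0],z2)],[([z3,z0,z0,z3,z3,z0],z4),([z0,z3,z0,z0,z0,z0],z2),([z0,z0,z3,z0,z0,z0],z4)],[([z3,z0,z0,z3,z3,
    z0],z4),([z0,z3,z0,y3,z0,z0],z2),([z0,z0,z3,z3,z0,z0],z4)],[([z3,z0,z0,z3,z3,z0],z4),([z0,z1,z1,z0,z0,z0],z2)],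
    [([z1,z0,z0,y1,z1,z0],z0),([z0,z1,z0,z1,z0,z0],z2),([z0,z0,z3,z3,z0,z0],z4)],[([z3,z0,z3,z0,z3,z0],z4),([z0,z1,z0,
    z1,z0,z0],z2)],[([z1,z0,z0,z0,z1,z0],z2),([z0,z3,z0,z3,z0,z0],z2),([z0,z0,z3,z0,z0,z0],z2)],[([z1,z0,z0,z0,z1,z0],
    z2),([z0,z1,z0,z1,z0,z0],z1),([z0,z0,z3,z0,z0,z0],z1)]],[[([z1,z0,z0,z0,z1,z0],z2),([z0,z6,z0,z3,z0,z0],z2),([z0,
    z0,z2,z1,z0,z0],z2)],[([z1,z0,z0,z0,z1,z0],z2),([z0,z2,z0,z1,z0,z0],z2),([z0,z0,z6,z3,z0,z0],z2)],[([z1,z0,z0,z0,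
    z1,z0],z2),([z0,z3,z3,z3,z0,z0],z4)],[([z3,z0,z0,y3,z3,z0],z2),([z0,z3,z0,z3,z0,z0],z4),([z0,z0,z3,z3,z0,z0],z4)],
    [([z1,z0,z1,z0,z1,z0],z2),([z0,z3,z0,z3,z0,z0],z4)],[([z1,z0,z0,z1,z1,z0],z2),([z0,z1,z0,y1,z0,z0],z0),([z0,z0,z3,
    z3,z0,z0],z4)],[([z1,z0,z0,z1,z1,z0],z2),([z0,z3,z3,z0,z0,z0],z4)],[([z3,z3,z3,z3,z3,z0],z10)],[([z1,z0,z0,z1,z1,
    z0],z2),([z0,z1,z0,y1,z0,z1],z0)],[([z1,z0,z0,z0,z1,z0],z1),([z0,z1,z0,z1,z0,z0],z2),([z0,z0,z3,z0,z0,z0],z2)],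
    [([z1,z0,z0,z0,z1,z0],z1),([z0,z1,z0,z1,z0,z0],z2),([z0,z0,z2,z0,z0,z0],z1)],[([z1,z0,z0,z0,z1,z0],z1),([z0,z1,z0,
    z0,z0,y1],z1),([z0,z0,z1,z0,z0,z1],z1)]],[[([z1,z0,z0,z0,z1,z0],z1),([z0,z2,z0,z0,z0,z0],z1),([z0,z0,z2,z0,z0,z0],
    z3),([z0,z0,z0,z2,z0,z0],z1)],[([z1,z0,z0,z0,z1,z0],z1),([z0,z1,z0,z0,z0,z1],z1),([z0,z0,z1,z0,z0,y1],z1)],[([z1,
    z0,z0,z0,z1,z0],z1),([z0,z1,z0,z0,z0,z1],z1)],[([z1,z0,z0,z1,z1,z1],z2)],[([z1,z0,z0,z0,z1,z0],z1),([z0,z1,z0,z1,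
    z0,z0],z2)],[([z1,z0,z1,z0,z1,z1],z2)],[([z1,z0,z0,z0,z1,z0],z2),([z0,z1,z0,z1,z0,z0],z1),([z0,z0,z2,z0,z0,z0],
    z1)],[([z1,z0,z0,z0,z1,z0],z2),([z0,z2,z0,z1,z0,z0],z2),([z0,z0,z2,z1,z0,z0],z1)],[([z1,z0,z0,z0,z1,z0],z2),([z0,
    z2,z2,z2,z0,z0],z3)],[([z1,z0,z0,z0,z1,z0],z2),([z0,z1,z0,z1,z0,z0],z1),([z0,z0,z3,z0,z0,z0],z2)],[([z1,z0,z0,z0,
    z1,z0],z2),([z0,z1,z0,z1,z0,z0],z1)],[([z1,z0,z0,z0,z1,z0],z2)]],[[]]],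
    [.old (.leafM k2 [k0,k1,k2,k3,k4,k5] [(z1,[z0,z1]),(z1,[z0,z0,z1]),(z1,[y3,y1,y1,z3])] []),
    .old (.lp [(nat_lit 5858),(nat_lit 10504),(nat_lit 12120),(nat_lit 11716),k0,(nat_lit 8080)] [(nat_lit 5051),
    (nat_lit 1211),(nat_lit 808),(nat_lit 808),k0,k0,(nat_lit 202),(nat_lit 202),(nat_lit 6060),(nat_lit 6060),
    (nat_lit 2020),(nat_lit 2020)] k0 [[k0,k0,(nat_lit 1616),k0,(nat_lit 1616)],[k0,k0,k0,k0,k0,k0,k0,(nat_lit 6262)],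
    [k0,k0,k0,k0,k0,k0,(nat_lit 404)],[k0,(nat_lit 1616)],[k0,k0,k0,k0,k0,k0,(nat_lit 404)],[k0,(nat_lit 1616)],
    [(nat_lit 6262)],[k0,k0,k0,(nat_lit 404),k0,(nat_lit 404)]] (nat_lit 24240) k6
    [[(k8,(nat_lit 4849))],[(k7,(nat_lit 5251)),(k5,(nat_lit 5453)),(k3,(nat_lit 6261)),(k9,(nat_lit 7271))],[(k6,
    (nat_lit 4848)),(k0,(nat_lit 6261)),(k2,(nat_lit 12120)),(k4,(nat_lit 12928))],[(k9,(nat_lit 4848)),(k7,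
    (nat_lit 11110)),(k5,(nat_lit 11312)),(k3,(nat_lit 12120))],[(k0,(nat_lit 5453)),(k2,(nat_lit 11312)),(k4,
    (nat_lit 12120)),(k6,(nat_lit 12322))],[(k9,(nat_lit 5656)),(k7,(nat_lit 11918)),(k5,(nat_lit 12120)),(k3,
    (nat_lit 12928))],[(k0,(nat_lit 5251)),(k2,(nat_lit 11110)),(k4,(nat_lit 11918)),(k6,(nat_lit 12120))],[(k3,
    (nat_lit 4848)),(k9,(nat_lit 5858)),(k7,(nat_lit 12120)),(k5,(nat_lit 12322))],[(k2,(nat_lit 4848)),(k4,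
    (nat_lit 5656)),(k6,(nat_lit 5858)),(k0,(nat_lit 7271))],[(k1,(nat_lit 4849))],[(k10,(nat_lit 8080))],[(k11,
    (nat_lit 8080))]]
    [] k0
    [[k1,k0,k0,k0,k1,k0],[k1,k1,k0,k0,k1,k0],[k1,k1,k0,k1,k1,k0],[k1,k0,k1,k0,k1,k0],[k1,k0,k0,k1,k1,k0],[k0,k1,k0,k1,
    k0,k0],[k0,k0,k0,k0,k0,k2]]
    [.contra [y3,z1,z4,z1],.contra [z1,y1,y3,y2,z2],.ref k0 k0 [(z1,[y2,z1,z2,z1]),(z1,[z3,y1]),(z1,[z3,y1,y3])],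
    .ref k0 k0 [(z1,[z1]),(z2,[y3,z1,z6,z3]),(z2,[y3,z1,z0,z3])],.contra [z1,y1,y2,y2,z2],.contra [z1,z0,z1],
    .contra [z1]]),
    .old (.leafM k10 [k0,k2,k4,k5] [(z1,[z0,z0,z1]),(z1,[y1,y3,y1,z3]),(z1,[z1])] [(k1,k3,z1,[z0,z1]),(k3,k1,z1,[z0,z1])]),
    .old (.leafM k11 [k4,k5,k0,k2] [(z1,[y3,y3,y1,z3]),(z1,[z0,z0,z1]),(z1,[z1])] [(k1,k3,z1,[z0,z1]),(k3,k1,z1,[z0,z1])]),
    .old (.lp [k42,k82,k82,k138,k54,k80] [k48,k48,k28,k28,k28,k28,k0,k0,k42,k42,k29,k29] k0 [[k0,k0,k0,k0,k14],[],[k0,k0,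
    k0,k0,k0,k0,k20],[k0,k0,k0,k0,k0,k20],[k0,k0,k20],[k0,k14],[],[k0,k0,k0,k20]] (nat_lit 240) k6
    [[(k8,k48)],[(k9,k48),(k3,k62),(k5,k62),(k7,k76)],[(k0,k62),(k2,k82),(k4,k96),(k6,k110)],[(k9,k48),(k3,k82),(k5,
    k82),(k7,k130)],[(k0,k62),(k4,k62),(k2,k82),(k6,k130)],[(k5,k62),(k9,k68),(k3,k96),(k7,k110)],[(k0,k76),(k4,k110),
    (k2,k130),(k6,k138)],[(k9,k96),(k3,k110),(k5,k130),(k7,k138)],[(k0,k48),(k2,k48),(k4,k68),(k6,k96)],[(k1,k48)],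
    [(k10,k80)],[(k11,k80)]]
    [] k0
    [[k1,k0,k0,k0,k1,k0],[k2,k0,k0,k0,k2,k0],[k1,k1,k0,k0,k1,k0],[k1,k0,k1,k0,k1,k0],[k1,k0,k0,k1,k1,k0],[k0,k2,k0,k0,
    k0,k0],[k0,k1,k1,k0,k0,k0],[k0,k0,k2,k0,k0,k0],[k0,k0,k3,k0,k0,k0],[k0,k0,k0,k0,k0,k2]]
    [.contra [y3,z1,z4],.ref k3 k0 [(z2,[z1]),(z1,[z0,z0,z1]),(z2,[y3,z2,z0,z6])],.contra [z1,y1,y3,y2,z2],
    .contra [z1,y1,y2,y3,z2],.ref k2 k0 [(z2,[z3,z1]),(z1,[z0,z0,z1]),(z2,[y3,z1,z0,z6])],.contra [z1],.contra [z1,z0,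
    z1,y1],.contra [z1,z0,z2,y2],.ref k2 k0 [(z1,[y1,z1,z0,z3]),(z1,[z0,z0,z1]),(z1,[z1])],.contra [z1]]),
    .old (.lp [k30,k60,k60,k24,k24,k40] [k15,k15,k0,k0,k0,k0,k18,k18,k18,k18,k10,k10] k0 [[],[k0,k0,k0,k0,k0,k0,k0,k6],[],
    [],[k0,k0,k0,k0,k0,k0,k18],[],[k6],[k0,k0,k0,k0,k0,k18]] k120 k6
    [[(k8,k27)],[(k7,k27),(k9,k33),(k3,k45),(k5,k45)],[(k6,k36),(k0,k45),(k2,k60),(k4,k60)],[(k7,k42),(k9,k42),(k3,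
    k60),(k5,k60)],[(k6,k42),(k0,k45),(k2,k60),(k4,k60)],[(k9,k24),(k7,k42),(k3,k60),(k5,k60)],[(k0,k27),(k2,k42),(k4,
    k42),(k6,k42)],[(k9,k24),(k3,k36),(k5,k42),(k7,k42)],[(k4,k24),(k6,k24),(k0,k33),(k2,k42)],[(k1,k27)],[(k10,k40)],
    [(k11,k40)]]
    [] k0
    [[k1,k0,k0,k0,k1,k0],[k1,k1,k0,k0,k1,k0],[k1,k0,k1,k0,k1,k0],[k1,k0,k0,k1,k1,k0],[k0,k1,k0,k1,k0,k0],[k0,k0,k1,k1,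
    k0,k0],[k0,k0,k0,k2,k0,k0],[k0,k0,k0,k0,k0,k2]]
    [.contra [y3,z1,z1],.contra [y3,z1,z1],.ref k0 k0 [(z1,[z1]),(z1,[z0,z0,z1]),(z1,[y3,z1,z0,z1])],.contra [z3,y1,
    z2],.contra [y3,z1,z1],.ref k0 k0 [(z3,[y3,z1,z0,z2]),(z1,[z0,z0,z1]),(z1,[z3,z0,z0,y1])],.contra [z1],
    .contra [z3,z2,z4,z2,y6]]),
    .old (.lp [k30,k60,k60,k24,k24,k40] [k15,k15,k0,k0,k0,k0,k18,k18,k18,k18,k10,k10] k0 [[],[k0,k0,k0,k24],[k24],[k0,k0,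
    k0,k0,k0,k0,k0,k6],[k0,k0,k0,k0,k0,k0,k18],[],[k0,k0,k6],[k0,k0,k0,k0,k0,k18]] k120 k6
    [[(k8,k27)],[(k7,k27),(k9,k27),(k3,k45),(k5,k69)],[(k2,k36),(k6,k42),(k0,k45),(k4,k60)],[(k3,k36),(k7,k42),(k9,
    k48),(k5,k60)],[(k6,k36),(k2,k60),(k4,k60),(k0,k69)],[(k9,k24),(k7,k42),(k3,k60),(k5,k60)],[(k0,k27),(k2,k42),(k4,
    k42),(k6,k42)],[(k9,k24),(k5,k36),(k3,k42),(k7,k42)],[(k4,k24),(k6,k24),(k0,k27),(k2,k48)],[(k1,k27)],[(k10,k40)],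
    [(k11,k40)]]
    [] k0
    [[k1,k0,k0,k0,k1,k0],[k2,k0,k0,k0,k2,k0],[k1,k0,k1,k1,k1,k0],[k1,k0,k0,k1,k1,k0],[k0,k2,k0,k0,k0,k0],[k0,k3,k0,k0,
    k0,k0],[k0,k1,k0,k1,k0,k0],[k0,k0,k1,k1,k0,k0],[k0,k0,k0,k2,k0,k0],[k0,k0,k0,k0,k0,k2]]
    [.contra [y3,z1,z1],.contra [y3,z2,z2],.ref k2 k0 [(z1,[z3,z0,z0,y1]),(z3,[y6,z2,z1,z2]),(z1,[z3,y1])],
    .contra [z3,y3,y2,y2,z6],.contra [z1],.contra [z1,z0,y1],.ref k2 k0 [(z2,[y3,z2,z1]),(z1,[z1]),(z2,[y3,z0,z1,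
    z2])],.contra [z3,y2,y2,y3,z6],.contra [z1],.contra [z1]]),
    .old (.lp [k54,k42,k54,k42,k6,k40] [k0,k0,k6,k6,k0,k0,k6,k6,k24,k24,k7,k7] k0 [[k0,k0,k0,k0,k24],[k0,k0,k0,k6],[k6],
    [],[],[k0,k24]] k120 k6
    [[(k8,k30)],[(k7,k24),(k9,k30),(k3,k48),(k5,k60)],[(k2,k36),(k6,k42),(k0,k48),(k4,k72)],[(k9,k24),(k3,k36),(k7,
    k42),(k5,k48)],[(k2,k48),(k6,k48),(k4,k54),(k0,k60)],[(k9,k30),(k7,k48),(k5,k54),(k3,k72)],[(k0,k24),(k2,k42),(k6,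
    k42),(k4,k48)],[(k9,k24),(k3,k42),(k7,k42),(k5,k48)],[(k2,k24),(k6,k24),(k0,k30),(k4,k30)],[(k1,k30)],[(k10,k40)],
    [(k11,k40)]]
    [] k0
    [[k1,k0,k0,k0,k1,k0],[k1,k1,k0,k0,k1,k0],[k1,k0,k0,k1,k1,k0],[k0,k2,k0,k0,k0,k0],[k0,k3,k0,k0,k0,k0],[k0,k1,k0,k1,
    k0,k0],[k0,k0,k2,k0,k0,k0],[k0,k0,k1,k1,k0,k0],[k0,k0,k0,k2,k0,k0],[k0,k0,k0,k0,k0,k2]]
    [.contra [y3,z1,z1],.ref k6 k0 [(z1,[z0,z1]),(z1,[z3,y1]),(z1,[y3,z1,z3])],.contra [z1,y1,y2,z2],.contra [z1],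
    .ref k5 k0 [(z1,[z0,z1]),(z1,[z1]),(z1,[y1,z0,z3])],.ref k4 k1 [(z1,[y3,z1]),(z1,[z1]),(z1,[z0,z0,z1])],
    .contra [y1,z0,z2],.ref k1 k0 [(z1,[z0,z1]),(z1,[y1,z0,z1]),(z1,[z1])],.contra [z1],.contra [z1]]),
    .old (.lp [k96,k140,k60,k98,k4,k80] [k22,k22,k0,k0,k40,k40,k21,k21,k68,k68,k30,k30] k0 [[k0,k0,k0,k0,k0,k0,k2],[k0,k0,
    k0,k64],[k64],[],[],[k0,k0,k0,k0,k0,k0,k0,k16],[k0,k0,k0,k0,k16],[k0,k2]] (nat_lit 240) k6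
    [[(k8,k50)],[(k9,k48),(k7,k97),(k3,k118),(k5,k142)],[(k2,k76),(k4,k100),(k0,k118),(k6,k121)],[(k9,k72),(k3,k76),
    (k5,k100),(k7,k119)],[(k4,k60),(k6,k79),(k2,k100),(k0,k142)],[(k9,k48),(k5,k60),(k7,k79),(k3,k100)],[(k4,k79),(k6,
    k82),(k0,k97),(k2,k119)],[(k9,k51),(k5,k79),(k7,k82),(k3,k121)],[(k0,k48),(k4,k48),(k6,k51),(k2,k72)],[(k1,k50)],
    [(k10,k80)],[(k11,k80)]]
    [] k0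
    [[k1,k0,k0,k0,k1,k0],[k2,k0,k0,k0,k2,k0],[k1,k0,k0,k1,k1,k0],[k0,k2,k0,k0,k0,k0],[k0,k3,k0,k0,k0,k0],[k0,k1,k1,k0,
    k0,k0],[k0,k0,k2,k0,k0,k0],[k0,k0,k3,k0,k0,k0],[k0,k0,k2,k1,k0,k0],[k0,k0,k1,k1,k0,k0],[k0,k0,k0,k2,k0,k0],[k0,k0,
    k0,k0,k0,k2]]
    [.contra [y1,z1,z1],.contra [y1,z2,z2],.contra [y1,z1,z2],.contra [z1],.contra [z1,z0,y3,z1],.ref k7 k0 [(z1,[y3,
    z3,z3,z1]),(z1,[z1])],.contra [z1],.ref k7 k0 [(z1,[y2,z3,z0,z2]),(z3,[z2,z0,z3,y1])],.ref k7 k0 [(z1,[y6,z3,z0,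
    z4]),(z1,[z2,z0,z1,y1])],.contra [z1,y2,y2,y1,z2],.contra [y1,z0,z2],.contra [z1]]),
    .old (.lp [k62,k82,k120,k120,k14,k80] [k44,k24,k24,k24,k5,k5,k10,k0,k58,k58,k25,k25] k0 [[k0,k0,k0,k0,k38],[k0,k0,k0,
    k0,k0,k0,k0,k20],[],[k0,k0,k0,k0,k0,k58],[k0,k0,k58],[k0,k38],[k20]] (nat_lit 240) k6
    [[(k8,k48)],[(k7,k48),(k9,k48),(k3,k62),(k5,k81)],[(k0,k62),(k6,k76),(k2,k82),(k4,k139)],[(k9,k48),(k3,k82),(k5,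
    k101),(k7,k164)],[(k4,k62),(k0,k81),(k2,k101),(k6,k115)],[(k5,k62),(k9,k67),(k7,k125),(k3,k139)],[(k0,k48),(k6,
    k120),(k4,k125),(k2,k164)],[(k9,k62),(k3,k76),(k5,k115),(k7,k120)],[(k0,k48),(k2,k48),(k6,k62),(k4,k67)],[(k1,
    k48)],[(k10,k80)],[(k11,k80)]]
    [] k0
    [[k1,k0,k0,k0,k1,k0],[k2,k0,k0,k0,k2,k0],[k1,k1,k0,k0,k1,k0],[k1,k1,k0,k1,k1,k0],[k1,k0,k1,k0,k1,k0],[k1,k0,k0,k1,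
    k1,k0],[k0,k2,k0,k0,k0,k0],[k0,k0,k2,k0,k0,k0],[k0,k0,k3,k0,k0,k0],[k0,k0,k0,k0,k0,k2]]
    [.contra [y3,z1,z1],.ref k3 k0 [(z2,[z1]),(z1,[z0,z0,z1]),(z2,[y3,z2])],.ref k8 k0 [(z1,[z1,z0,y1]),(z1,[z0,z0,
    z1]),(z1,[y3,z1,z3])],.contra [z1,z0,y1],.contra [z1,y1,y2,z2],.ref k8 k1 [(z1,[z1,z0,y1]),(z1,[z0,z0,z1]),(z1,
    [y3,z1,z3])],.contra [z1],.contra [z1],.ref k2 k0 [(z1,[y1,z1]),(z1,[z0,z0,z1]),(z1,[z1])],.contra [z1]]),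
    .old (.leafM k10 [k1,k2,k3,k5] [(z1,[z0,z0,z1]),(z1,[y3,y1,y1,z3]),(z1,[z0,z1])] [(k4,k0,z1,[z1]),(k0,k4,z1,[z1])]),
    .old (.leafM k11 [k3,k5,k1,k2] [(z1,[y3,y3,y1,z3]),(z1,[z0,z0,z1]),(z1,[z0,z1])] [(k4,k0,z1,[z1]),(k0,k4,z1,[z1])]),
    .old (.lp [k102,k82,k62,k116,k36,k80] [k34,k34,k68,k20,k54,k54,k0,k54,k80,k54,k45,k45] k0 [[k0,k0,k0,k0,k34],[k0,k0,
    k0,k0,k0,k0,k0,k102],[],[],[k0,k0,k0,k0,k0,k0,k4],[k0,k34],[k102],[k0,k0,k0,k0,k0,k4]] (nat_lit 240) k6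
    [[(k8,k56)],[(k7,k48),(k5,k82),(k3,k116),(k9,k184)],[(k6,k48),(k2,k82),(k0,k116),(k4,k130)],[(k5,k48),(k7,k48),
    (k9,k48),(k3,k82)],[(k2,k48),(k4,k62),(k0,k82),(k6,k116)],[(k9,k58),(k5,k62),(k7,k62),(k3,k130)],[(k0,k48),(k2,
    k48),(k4,k62),(k6,k120)],[(k3,k48),(k5,k116),(k9,k116),(k7,k120)],[(k2,k48),(k4,k58),(k6,k116),(k0,k184)],[(k1,
    k56)],[(k10,k80)],[(k11,k80)]]
    [] k0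
    [[k1,k1,k0,k0,k1,k0],[k1,k1,k0,k1,k1,k0],[k1,k0,k1,k0,k1,k0],[k1,k0,k0,k1,k1,k0],[k0,k2,k0,k0,k0,k0],[k0,k2,k0,k1,
    k0,k0],[k0,k1,k1,k0,k0,k0],[k0,k1,k0,k1,k0,k0],[k0,k2,k0,k2,k0,k0],[k0,k1,k1,k1,k0,k0],[k0,k1,k2,k1,k0,k0],[k0,k1,
    k0,k2,k0,k0],[k0,k0,k2,k0,k0,k0],[k0,k0,k3,k0,k0,k0],[k0,k0,k1,k1,k0,k0],[k0,k0,k0,k0,k0,k2]]
    [.contra [z1,y1],.contra [z1,y1],.contra [z1,y1],.contra [y1,z1,z0,z1],.contra [z1],.contra [z1,y4,y1,y2,z4],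
    .contra [y2,z0,z1,z1],.contra [y6,z0,z1,z5],.contra [y2,z0,z1,z1],.contra [z2,y4,y1,y3,z4],.contra [z1,z0,z0,y1],
    .contra [y2,z0,z1,z1],.contra [z1],.contra [z2,z0,z1,y3],.contra [y1,z0,z0,z1],.contra [z1]]),
    .old (.lp [k78,k41,k30,k45,k5,k40] [k0,k0,k24,k13,k24,k24,k4,k29,k43,k30,k19,k19] k0 [[k0,k0,k30],[k0,k0,k0,k0,k0,k0,
    k0,k37],[],[k0,k30],[],[],[k37]] k120 k6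
    [[(k8,k35)],[(k5,k24),(k7,k49),(k3,k65),(k9,k85)],[(k6,k24),(k4,k41),(k0,k65),(k2,k71)],[(k9,k24),(k7,k25),(k5,
    k30),(k3,k71)],[(k0,k24),(k2,k30),(k4,k30),(k6,k50)],[(k9,k24),(k7,k25),(k5,k30),(k3,k41)],[(k2,k25),(k4,k25),(k6,
    k45),(k0,k49)],[(k3,k24),(k9,k44),(k7,k45),(k5,k50)],[(k2,k24),(k4,k24),(k6,k44),(k0,k85)],[(k1,k35)],[(k10,k40)],
    [(k11,k40)]]
    [] k0
    [[k1,k0,k1,k0,k1,k0],[k1,k0,k2,k0,k1,k0],[k0,k1,k1,k0,k0,k0],[k0,k1,k2,k0,k0,k0],[k0,k1,k1,k1,k0,k0],[k0,k1,k0,k1,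
    k0,k0],[k0,k2,k0,k2,k0,k0],[k0,k1,k2,k1,k0,k0],[k0,k1,k0,k2,k0,k0],[k0,k0,k2,k0,k0,k0],[k0,k0,k3,k0,k0,k0],[k0,k0,
    k2,k1,k0,k0],[k0,k0,k1,k1,k0,k0],[k0,k0,k0,k2,k0,k0],[k0,k0,k0,k0,k0,k2]]
    [.contra [z1,y1],.contra [z1,y1],.contra [y2,z0,z1,z1],.contra [y2,z0,z1,z1],.contra [z2,y4,y3,y1,z4],.contra [y1,
    z0,z1],.contra [y1,z0,z2],.contra [y2,z0,z1,z1],.contra [y2,z0,z1,z1],.contra [z1],.contra [y1,z0,z0,z1],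
    .contra [z1,y4,y2,y1,z4],.contra [y6,z0,z5,z1],.contra [z1],.contra [z1]]),
    .old (.lp [k24,k45,k30,k60,k40,k40] [k32,k32,k35,k8,k29,k29,k0,k28,k24,k24,k24,k24] k0 [[],[k0,k0,k0,k0,k0,k0,k0,k56],
    [],[],[k0,k0,k0,k0,k0,k0,k11],[],[k56],[k0,k0,k0,k0,k0,k11]] k120 k6
    [[(k8,k32)],[(k5,k27),(k7,k28),(k3,k48),(k9,k88)],[(k6,k24),(k2,k45),(k0,k48),(k4,k51)],[(k5,k24),(k7,k25),(k9,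
    k29),(k3,k45)],[(k2,k24),(k0,k27),(k4,k30),(k6,k59)],[(k9,k24),(k5,k30),(k7,k31),(k3,k51)],[(k2,k25),(k0,k28),(k4,
    k31),(k6,k71)],[(k3,k24),(k5,k59),(k9,k64),(k7,k71)],[(k4,k24),(k2,k29),(k6,k64),(k0,k88)],[(k1,k32)],[(k10,k40)],
    [(k11,k40)]]
    [] k0
    [[k1,k1,k0,k0,k1,k0],[k1,k1,k0,k1,k1,k0],[k1,k0,k1,k0,k1,k0],[k1,k0,k2,k0,k1,k0],[k0,k2,k0,k0,k0,k0],[k0,k2,k0,k1,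
    k0,k0],[k0,k1,k1,k0,k0,k0],[k0,k1,k2,k0,k0,k0],[k0,k1,k0,k1,k0,k0],[k0,k2,k0,k2,k0,k0],[k0,k1,k1,k1,k0,k0],[k0,k1,
    k2,k1,k0,k0],[k0,k0,k2,k0,k0,k0],[k0,k0,k3,k0,k0,k0],[k0,k0,k1,k1,k0,k0],[k0,k0,k0,k0,k0,k2]]
    [.contra [z1,y1],.contra [z1,y1],.contra [z1,y1],.contra [z1,y1],.contra [z1],.ref k13 k0 [(z1,[z0,z1]),(z1,[z1]),
    (z1,[y3,z0,z2])],.contra [y2,z0,z1],.ref k12 k1 [(z1,[z0,z1]),(z1,[y3,z0,z2]),(z1,[z1])],.contra [y2,z0,z1],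
    .ref k11 k0 [(z1,[z0,z1]),(z2,[z1]),(z2,[y3,z0,z2])],.contra [z1,y2,y1,z2],.ref k10 k0 [(z1,[z0,z1]),(z1,[y3,z0,
    z2]),(z1,[z3,z0,y1])],.contra [z1],.ref k10 k0 [(z1,[z0,z1]),(z1,[y1,z0,z1]),(z1,[z1])],.contra [y2,z0,z1],
    .contra [z1]]),
    .old (.lp [k54,k42,k42,k36,k24,k40] [k0,k0,k6,k6,k6,k6,k9,k9,k15,k15,k7,k7] k0 [[k0,k0,k0,k0,k0,k0,k6],[k0,k0,k0,k0,
    k0,k6],[],[],[k6],[],[],[k0,k6]] k120 k5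
    [[(k8,k39)],[(k9,k33),(k3,k48),(k5,k48),(k7,k51)],[(k4,k36),(k2,k42),(k6,k45),(k0,k48)],[(k9,k33),(k7,k39),(k3,
    k42),(k5,k42)],[(k6,k39),(k2,k42),(k4,k42),(k0,k48)],[(k9,k33),(k3,k36),(k7,k39),(k5,k42)],[(k6,k36),(k2,k39),(k4,
    k39),(k0,k51)],[(k9,k30),(k7,k36),(k5,k39),(k3,k45)],[(k6,k30),(k0,k33),(k2,k33),(k4,k33)],[(k1,k39)],[(k10,k40)],
    [(k11,k40)]]
    [] k0
    [[k1,k0,k0,k0,k1,k0],[k0,k2,k0,k0,k0,k0],[k0,k1,k1,k0,k0,k0],[k0,k1,k1,k1,k0,k0],[k0,k1,k0,k1,k0,k0],[k0,k0,k2,k0,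
    k0,k0],[k0,k0,k1,k1,k0,k0],[k0,k0,k1,k2,k0,k0],[k0,k0,k0,k2,k0,k0],[k0,k0,k0,k3,k0,k0],[k0,k0,k0,k0,k0,k2]]
    [.contra [y3,z1,z1],.contra [z1],.contra [z3,z0,z1,y1],.ref k0 k0 [(z3,[z0,z1,z0,z1]),(z1,[z3,z0,z0,y1]),(z1,[y3,
    z0,z1,z1])],.contra [z3,y2,y3,y2,z6],.contra [z3,z0,z2,y2],.contra [z3,y2,y2,y3,z6],.ref k0 k0 [(z3,[z0,z1,z0,
    z1]),(z1,[y3,z0,z1,z1]),(z1,[z3,z0,z0,y1])],.contra [z1],.ref k0 k0 [(z3,[z0,z1,z0,z1]),(z1,[y1,z0,z1]),(z1,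
    [z1])],.contra [z1]]),
    .old (.lp [k30,k24,k60,k60,k24,k40] [k15,k15,k18,k18,k0,k0,k0,k0,k18,k18,k10,k10] k0 [[k0,k0,k18],[k0,k0,k0,k0,k0,k6],
    [],[k0,k18],[k6],[k0,k0,k0,k0,k0,k0,k0,k24],[k0,k0,k0,k0,k24]] k120 k6
    [[(k8,k27)],[(k3,k27),(k5,k27),(k9,k27),(k7,k51)],[(k0,k27),(k4,k36),(k2,k42),(k6,k42)],[(k9,k24),(k3,k42),(k5,
    k42),(k7,k42)],[(k0,k27),(k2,k42),(k4,k60),(k6,k60)],[(k3,k36),(k5,k60),(k7,k60),(k9,k66)],[(k6,k36),(k2,k42),(k0,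
    k51),(k4,k60)],[(k7,k36),(k3,k42),(k9,k42),(k5,k60)],[(k2,k24),(k0,k27),(k6,k42),(k4,k66)],[(k1,k27)],[(k10,k40)],
    [(k11,k40)]]
    [] k0
    [[k1,k0,k0,k0,k1,k0],[k2,k0,k0,k0,k2,k0],[k1,k1,k0,k0,k1,k0],[k1,k1,k1,k0,k1,k0],[k0,k2,k0,k0,k0,k0],[k0,k1,k1,k0,
    k0,k0],[k0,k1,k0,k1,k0,k0],[k0,k0,k0,k2,k0,k0],[k0,k0,k0,k3,k0,k0],[k0,k0,k0,k0,k0,k2]]
    [.contra [y1,z1],.contra [y1,z2],.ref k15 k0 [(z1,[z3,z0,y1]),(z1,[z0,z0,z1]),(z1,[y3,z3,z1])],.contra [z1,y1],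
    .contra [z1],.ref k7 k0 [(z1,[y3,z3,z1]),(z1,[z1])],.contra [z1,y2,y1,z2],.contra [z1],.ref k0 k0 [(z1,[z0,z1]),
    (z1,[y1,z0,z1]),(z1,[z1])],.contra [z1]]),
    .old (.lp [k18,k30,k18,k21,k12,k20] [k6,k6,k0,k0,k6,k6,k6,k3,k9,k9,k5,k5] k0 [[],[k0,k0,k0,k0,k0,k9],[k0,k0,k0,k0,
    k12],[],[k9],[k0,k0,k0,k12]] k60 k5
    [[(k8,k15)],[(k9,k15),(k5,k18),(k3,k24),(k7,k30)],[(k4,k15),(k0,k24),(k6,k24),(k2,k30)],[(k7,k15),(k9,k21),(k5,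
    k24),(k3,k30)],[(k0,k18),(k6,k18),(k2,k24),(k4,k30)],[(k3,k15),(k9,k15),(k7,k21),(k5,k30)],[(k2,k15),(k4,k21),(k6,
    k21),(k0,k30)],[(k9,k15),(k5,k18),(k7,k21),(k3,k24)],[(k0,k15),(k4,k15),(k6,k15),(k2,k21)],[(k1,k15)],[(k10,k20)],
    [(k11,k20)]]
    [] k0
    [[k1,k0,k0,k0,k1,k0],[k1,k0,k1,k0,k1,k0],[k0,k1,k1,k0,k0,k0],[k0,k1,k1,k1,k0,k0],[k0,k1,k0,k1,k0,k0],[k0,k0,k1,k1,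
    k0,k0],[k0,k0,k0,k2,k0,k0],[k0,k0,k0,k0,k0,k2]]
    [.contra [y1,z1,z1],.ref k16 k0 [(z1,[z1]),(z1,[y3,z3,z3,z1])],.contra [z1,y2,y3,y1,z2],.ref k16 k0 [(z1,[y2,z1,
    z2,z1]),(z1,[z6,z0,y3,y2])],.contra [z1,z0,z1],.contra [z1,y2,y2,y1,z2],.contra [z1,z0,z2],.contra [z1]]),
    .old (.lp [k36,k36,k42,k60,k24,k40] [k12,k12,k12,k12,k9,k9,k0,k0,k18,k18,k10,k10] k0 [[k0,k0,k6],[],[k0,k0,k0,k0,k18],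
    [k0,k6],[],[k0,k0,k0,k18]] k120 k5
    [[(k8,k30)],[(k9,k30),(k5,k33),(k3,k36),(k7,k48)],[(k0,k36),(k4,k39),(k2,k42),(k6,k48)],[(k7,k30),(k9,k30),(k5,
    k39),(k3,k42)],[(k0,k33),(k2,k39),(k6,k51),(k4,k60)],[(k9,k33),(k3,k39),(k7,k51),(k5,k60)],[(k2,k30),(k0,k48),(k4,
    k51),(k6,k60)],[(k9,k42),(k3,k48),(k5,k51),(k7,k60)],[(k0,k30),(k2,k30),(k4,k33),(k6,k42)],[(k1,k30)],[(k10,k40)],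
    [(k11,k40)]]
    [] k0
    [[k1,k0,k0,k0,k1,k0],[k1,k1,k0,k0,k1,k0],[k1,k0,k1,k0,k1,k0],[k0,k2,k0,k0,k0,k0],[k0,k1,k1,k0,k0,k0],[k0,k1,k0,k1,
    k0,k0],[k0,k0,k1,k1,k0,k0],[k0,k0,k0,k0,k0,k2]]
    [.contra [y1,z1],.ref k17 k0 [(z1,[z0,z1]),(z1,[z1,y1]),(z1,[y3,z3,z1])],.ref k16 k0 [(z1,[z1]),(z1,[y3,z3,z1])],
    .contra [z1],.contra [z1,y2,y1,z2],.ref k9 k0 [(z1,[y3,z3,z1]),(z1,[z1])],.ref k7 k1 [(z1,[y3,z3,z1]),(z1,[z1])],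
    .contra [z1]]),
    .old (.lp [k36,k36,k42,k60,k24,k40] [k12,k12,k12,k12,k9,k9,k0,k0,k18,k18,k10,k10] k0 [[k0,k0,k6],[],[k0,k0,k0,k0,k18],
    [k0,k6],[],[k0,k0,k0,k18]] k120 k5
    [[(k8,k30)],[(k9,k30),(k5,k33),(k3,k36),(k7,k48)],[(k0,k36),(k4,k39),(k2,k42),(k6,k48)],[(k7,k30),(k9,k30),(k5,
    k39),(k3,k42)],[(k0,k33),(k2,k39),(k6,k51),(k4,k60)],[(k9,k33),(k3,k39),(k7,k51),(k5,k60)],[(k2,k30),(k0,k48),(k4,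
    k51),(k6,k60)],[(k9,k42),(k3,k48),(k5,k51),(k7,k60)],[(k0,k30),(k2,k30),(k4,k33),(k6,k42)],[(k1,k30)],[(k10,k40)],
    [(k11,k40)]]
    [] k0
    [[k1,k0,k0,k0,k1,k0],[k1,k1,k0,k0,k1,k0],[k1,k0,k1,k0,k1,k0],[k0,k2,k0,k0,k0,k0],[k0,k1,k1,k0,k0,k0],[k0,k1,k0,k1,
    k0,k0],[k0,k0,k1,k1,k0,k0],[k0,k0,k0,k0,k0,k2]]
    [.ref k14 k0 [(z1,[z1]),(z1,[y3,z1])],.ref k18 k1 [(z1,[z1]),(z1,[y3,z1])],.ref k16 k0 [(z1,[z1]),(z1,[y3,z1])],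
    .contra [z1],.ref k7 k0 [(z1,[y3,z1]),(z1,[z1])],.ref k9 k0 [(z1,[y3,z1]),(z1,[z1])],.ref k7 k1 [(z1,[y3,z1]),(z1,
    [z1])],.contra [z1]]),
    .old (.lp [k164,k160,k162,(nat_lit 318),k32,k120] [k77,k77,k79,k79,k78,k78,k0,k0,k143,k143,k99,k99] k0 [[k0,k0,k0,k0,
    k0,k0,k2],[],[],[],[],[k0,k0,k0,k0,k0,k0,k0,k122],[k0,k0,k0,k0,k122],[k0,k2]] (nat_lit 480) k6
    [[(k8,k98)],[(k9,k96),(k3,k162),(k5,k163),(k7,(nat_lit 241))],[(k2,k160),(k4,k161),(k0,k162),(k6,(nat_lit 241))],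
    [(k9,k96),(k3,k160),(k5,k161),(k7,(nat_lit 239))],[(k2,k161),(k4,k162),(k0,k163),(k6,(nat_lit 240))],[(k3,k161),
    (k5,k162),(k9,(nat_lit 219)),(k7,(nat_lit 240))],[(k6,k196),(k2,(nat_lit 239)),(k4,(nat_lit 240)),(k0,
    (nat_lit 241))],[(k9,k175),(k7,k196),(k5,(nat_lit 240)),(k3,(nat_lit 241))],[(k0,k96),(k2,k96),(k6,k175),(k4,
    (nat_lit 219))],[(k1,k98)],[(k10,k120)],[(k11,k120)]]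
    [] k0
    [[k1,k0,k0,k0,k1,k0],[k2,k0,k0,k0,k2,k0],[k1,k1,k0,k0,k1,k0],[k0,k2,k0,k0,k0,k0],[k0,k1,k1,k0,k0,k0],[k0,k0,k2,k0,
    k0,k0],[k0,k0,k0,k2,k0,k0],[k0,k0,k0,k0,k0,k2],[k0,k0,k0,k0,k0,k3]]
    [.contra [y1,z1],.contra [z1,y4,y2,z2],.contra [y1,z1,z1],.contra [z1],.contra [y1,y1,z0,z1],.contra [z1],
    .contra [y1,y2,y2,z2],.contra [z1],.ref k19 k0 [(z1,[y1,z0,z0,z3])]]),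
    .old (.leafM k11 [k0,k2,k4,k5] [(z1,[z0,z0,z1]),(z1,[y3,y3,y1,z3]),(z1,[z1])] [(k1,k3,z1,[z0,z1]),(k3,k1,z1,[z0,z1])]),
    .old (.leafM k12 [k0,k2,k4,k5] [(z1,[z0,z0,z1]),(z1,[y2,y2,y1,z2]),(z1,[z1])] [(k1,k3,z1,[z0,z1]),(k3,k1,z1,[z0,z1])]),
    .old (.lp [(nat_lit 2400),(nat_lit 2300),(nat_lit 2530),(nat_lit 1840),(nat_lit 368),(nat_lit 1380)] [k65,k65,k115,
    k115,k0,k0,(nat_lit 345),(nat_lit 345),(nat_lit 1081),(nat_lit 1081),(nat_lit 575),(nat_lit 575)] k0 [[k0,k0,k0,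
    k0,(nat_lit 690)],[k0,k0,k0,(nat_lit 230)],[(nat_lit 230)],[k0,k0,k0,k0,k0,(nat_lit 1380)],[k0,k0,(nat_lit 1380)],
    [k0,(nat_lit 690)]] (nat_lit 5520) k6
    [[(k8,(nat_lit 1384))],[(k9,(nat_lit 1384)),(k7,(nat_lit 1430)),(k3,(nat_lit 2350)),(k5,(nat_lit 2695))],[(k2,
    (nat_lit 2070)),(k6,(nat_lit 2070)),(k0,(nat_lit 2350)),(k4,(nat_lit 3105))],[(k9,(nat_lit 1334)),(k3,
    (nat_lit 2070)),(k5,(nat_lit 2415)),(k7,(nat_lit 3450))],[(k4,(nat_lit 1150)),(k6,(nat_lit 2185)),(k2,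
    (nat_lit 2415)),(k0,(nat_lit 2695))],[(k5,(nat_lit 1150)),(k9,(nat_lit 1449)),(k7,(nat_lit 2185)),(k3,
    (nat_lit 3105))],[(k0,(nat_lit 1430)),(k6,(nat_lit 1840)),(k4,(nat_lit 2185)),(k2,(nat_lit 3450))],[(k9,
    (nat_lit 1104)),(k7,(nat_lit 1840)),(k3,(nat_lit 2070)),(k5,(nat_lit 2185))],[(k6,(nat_lit 1104)),(k2,
    (nat_lit 1334)),(k0,(nat_lit 1384)),(k4,(nat_lit 1449))],[(k1,(nat_lit 1384))],[(k10,(nat_lit 1380))],[(k11,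
    (nat_lit 1380))]]
    [] k0
    [[k1,k0,k0,k0,k1,k0],[k1,k1,k0,k0,k1,k0],[k1,k0,k0,k1,k1,k0],[k0,k2,k0,k0,k0,k0],[k0,k0,k2,k0,k0,k0],[k0,k0,k3,k0,
    k0,k0],[k0,k0,k4,k0,k0,k0],[k0,k0,k1,k1,k0,k0],[k0,k0,k0,k2,k0,k0],[k0,k0,k0,k0,k0,k2],[k0,k0,k0,k0,k0,k3]]
    [.contra [y2,z2,z1,z1],.contra [z1,y1],.contra [y1,z0,z0,y1,z1],.contra [z1],.contra [y1,z0,z2,z2],
    .ref k21 k0 [(z1,[z0,z1]),(z1,[z0,y1,z0,y1,z1]),(z1,[z1])],.ref k22 k0 [(z1,[z0,z1]),(z1,[z0,y1,z0,y1,z1]),(z2,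
    [z1])],.contra [y1,y1,z1,z0,z1],.contra [y1,y2,z0,y2,z2],.contra [z1],.ref k19 k0 [(z1,[y1,z0,z0,z0,z3])]]),
    .old (.tor k31 false k0 [(z1,[y4,y2,y2,y2,z4]),(z2,[z0,z0,z1,z1]),(z2,[z0,z1,z1]),(z2,[z2,z1,z0,z1]),(z1,[z2])]),
    .old (.lp [(nat_lit 5858),(nat_lit 10504),(nat_lit 12120),(nat_lit 11716),k0,(nat_lit 8080)] [(nat_lit 5051),
    (nat_lit 1211),(nat_lit 808),(nat_lit 808),k0,k0,(nat_lit 202),(nat_lit 202),(nat_lit 6060),(nat_lit 6060),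
    (nat_lit 2020),(nat_lit 2020)] k0 [[k0,k0,(nat_lit 1616),k0,(nat_lit 1616)],[k0,k0,k0,k0,k0,k0,k0,(nat_lit 6262)],
    [k0,k0,k0,k0,k0,k0,(nat_lit 404)],[k0,(nat_lit 1616)],[k0,k0,k0,k0,k0,k0,(nat_lit 404)],[k0,(nat_lit 1616)],
    [(nat_lit 6262)],[k0,k0,k0,(nat_lit 404),k0,(nat_lit 404)]] (nat_lit 24240) k6
    [[(k8,(nat_lit 4849))],[(k7,(nat_lit 5251)),(k5,(nat_lit 5453)),(k3,(nat_lit 6261)),(k9,(nat_lit 7271))],[(k6,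
    (nat_lit 4848)),(k0,(nat_lit 6261)),(k2,(nat_lit 12120)),(k4,(nat_lit 12928))],[(k9,(nat_lit 4848)),(k7,
    (nat_lit 11110)),(k5,(nat_lit 11312)),(k3,(nat_lit 12120))],[(k0,(nat_lit 5453)),(k2,(nat_lit 11312)),(k4,
    (nat_lit 12120)),(k6,(nat_lit 12322))],[(k9,(nat_lit 5656)),(k7,(nat_lit 11918)),(k5,(nat_lit 12120)),(k3,
    (nat_lit 12928))],[(k0,(nat_lit 5251)),(k2,(nat_lit 11110)),(k4,(nat_lit 11918)),(k6,(nat_lit 12120))],[(k3,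
    (nat_lit 4848)),(k9,(nat_lit 5858)),(k7,(nat_lit 12120)),(k5,(nat_lit 12322))],[(k2,(nat_lit 4848)),(k4,
    (nat_lit 5656)),(k6,(nat_lit 5858)),(k0,(nat_lit 7271))],[(k1,(nat_lit 4849))],[(k10,(nat_lit 8080))],[(k11,
    (nat_lit 8080))]]
    [] k0
    [[k1,k0,k0,k0,k1,k0],[k1,k1,k0,k0,k1,k0],[k1,k1,k0,k1,k1,k0],[k1,k0,k1,k0,k1,k0],[k1,k0,k0,k1,k1,k0],[k0,k1,k0,k1,
    k0,k0],[k0,k0,k0,k0,k0,k2]]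
    [.contra [y2,z2,z1,z1],.contra [z1,y1],.ref k24 k0 [(z1,[z0,z1]),(z1,[z1,z0,z2,z1,y1]),(z1,[y1,z0,z0,z1,z1]),(z1,
    [z1,y2,y2,y1,z1])],.contra [y1,z1,z1,z1],.contra [z1,z0,z2,z1,y1],.contra [z1,z1,z2,z1,y1],.contra [z1]]),
    .old (.lp [k30,k24,k60,k60,k24,k40] [k15,k15,k18,k18,k0,k0,k0,k0,k18,k18,k10,k10] k0 [[k0,k0,k18],[k0,k0,k0,k0,k0,k0,
    k0,k6],[],[k0,k18],[],[],[k6]] k120 k6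
    [[(k8,k27)],[(k3,k27),(k5,k27),(k9,k33),(k7,k45)],[(k0,k27),(k6,k36),(k2,k42),(k4,k42)],[(k9,k24),(k3,k42),(k5,
    k42),(k7,k42)],[(k0,k27),(k2,k42),(k4,k60),(k6,k60)],[(k3,k42),(k9,k42),(k5,k60),(k7,k60)],[(k2,k42),(k0,k45),(k4,
    k60),(k6,k60)],[(k3,k36),(k9,k42),(k5,k60),(k7,k60)],[(k2,k24),(k0,k33),(k4,k42),(k6,k42)],[(k1,k27)],[(k10,k40)],
    [(k11,k40)]]
    [] k0
    [[k1,k0,k0,k0,k1,k0],[k1,k1,k0,k0,k1,k0],[k1,k0,k1,k0,k1,k0],[k1,k0,k0,k1,k1,k0],[k0,k2,k0,k0,k0,k0],[k0,k1,k1,k0,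
    k0,k0],[k0,k1,k0,k1,k0,k0],[k0,k0,k0,k0,k0,k2]]
    [.contra [y2,z1,y1,z1],.contra [z1,y1],.contra [z1,y1],.contra [y1,z0,y1,z1],.contra [z1],.ref k25 k0 [(z1,[z0,
    z1]),(z1,[z0,z0,z1]),(z1,[z1,z0,y1])],.ref k23 k1 [(z1,[z0,z1]),(z1,[z1,z0,y1]),(z1,[y1,y1,z0,z1])],.contra [z1]]),
    .old (.lp [k82,k82,k144,k96,k14,k60] [k31,k31,k31,k31,k0,k0,k24,k24,k65,k65,k42,k42] k0 [[k0,k0,k0,k0,k14],[],[],[k0,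
    k0,k0,k0,k0,k62],[k0,k0,k62],[k0,k14]] (nat_lit 240) k6
    [[(k8,k48)],[(k9,k48),(k7,k75),(k3,k82),(k5,k113)],[(k0,k82),(k2,k82),(k6,k89),(k4,k127)],[(k9,k48),(k3,k82),(k5,
    k113),(k7,k151)],[(k4,k82),(k0,k113),(k2,k113),(k6,k120)],[(k9,k79),(k5,k82),(k7,k120),(k3,k127)],[(k0,k75),(k6,
    k96),(k4,k120),(k2,k151)],[(k9,k55),(k3,k89),(k7,k96),(k5,k120)],[(k0,k48),(k2,k48),(k6,k55),(k4,k79)],[(k1,k48)],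
    [(k10,k60)],[(k11,k60)]]
    [] k0
    [[k1,k0,k0,k0,k1,k0],[k2,k0,k0,k0,k2,k0],[k1,k1,k0,k0,k1,k0],[k1,k0,k0,k1,k1,k0],[k0,k2,k0,k0,k0,k0],[k0,k0,k2,k0,
    k0,k0],[k0,k0,k0,k2,k0,k0],[k0,k0,k0,k0,k0,k2],[k0,k0,k0,k0,k0,k3]]
    [.contra [y1,z1],.ref k26 k1 [(z2,[z1]),(z2,[y1,z2])],.ref k20 k1 [(z1,[z1]),(z1,[y1,z1])],.contra [y1,z1],
    .contra [z1],.contra [y1,y2,z2],.contra [z1],.contra [z1],.ref k19 k0 [(z1,[y1,z0,z3])]]),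
    .old (.lp [k58,k80,k134,k90,k48,k60] [k38,k38,k27,k27,k0,k0,k22,k22,k43,k43,k37,k37] k0 [[k0,k0,k0,k0,k26],[k0,k0,k0,
    k0,k0,k0,k0,k14],[k0,k0,k0,k0,k0,k0,k16],[k0,k0,k0,k0,k0,k84],[k0,k0,k84],[k0,k26],[k14],[k0,k0,k0,
    k16]] (nat_lit 240) k6
    [[(k8,k53)],[(k7,k48),(k9,k67),(k3,k69),(k5,k96)],[(k0,k69),(k6,k71),(k2,k80),(k4,k133)],[(k9,k48),(k3,k80),(k5,
    k107),(k7,k169)],[(k4,k50),(k0,k96),(k2,k107),(k6,k128)],[(k5,k50),(k9,k91),(k7,k112),(k3,k133)],[(k0,k48),(k6,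
    k90),(k4,k112),(k2,k169)],[(k9,k69),(k3,k71),(k7,k90),(k5,k128)],[(k2,k48),(k0,k67),(k6,k69),(k4,k91)],[(k1,k53)],
    [(k10,k60)],[(k11,k60)]]
    [] k0
    [[k1,k0,k0,k0,k1,k0],[k1,k1,k0,k0,k1,k0],[k1,k1,k0,k1,k1,k0],[k1,k0,k0,k1,k1,k0],[k0,k2,k0,k0,k0,k0],[k0,k0,k2,k0,
    k0,k0],[k0,k0,k3,k0,k0,k0],[k0,k0,k4,k0,k0,k0],[k0,k0,k0,k2,k0,k0],[k0,k0,k0,k0,k0,k2],[k0,k0,k0,k0,k0,k3]]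
    [.contra [y2,z2,z1],.contra [z1,y1],.contra [z2,y2,y1],.contra [y1,z1,z1],.contra [z1],.contra [z1],
    .ref k21 k0 [(z1,[z0,z1]),(z1,[z0,z0,z1]),(z1,[z1])],.ref k22 k0 [(z1,[z0,z1]),(z1,[z0,z0,z1]),(z2,[z1])],
    .contra [y1,z0,z2],.contra [z1],.ref k19 k0 [(z1,[y1,z0,z0,z3])]]),
    .old (.lp [k142,k98,k80,k98,k0,k60] [k0,k0,k22,k22,k31,k31,k22,k22,k92,k50,k41,k41] k0 [[k0,k0,k0,k0,k0,k0,k44],[k0,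
    k0,k0,k18],[k18],[],[],[],[],[k0,k44]] (nat_lit 240) k6
    [[(k8,k50)],[(k9,k48),(k3,k120),(k7,k120),(k5,k129)],[(k2,k80),(k4,k89),(k0,k120),(k6,k142)],[(k9,k70),(k3,k80),
    (k5,k89),(k7,k98)],[(k4,k80),(k2,k89),(k6,k89),(k0,k129)],[(k9,k61),(k5,k80),(k3,k89),(k7,k89)],[(k4,k89),(k2,
    k98),(k6,k98),(k0,k120)],[(k9,k70),(k5,k89),(k7,k98),(k3,k142)],[(k0,k48),(k4,k61),(k2,k70),(k6,k70)],[(k1,k50)],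
    [(k10,k60)],[(k11,k60)]]
    [] k0
    [[k1,k0,k0,k0,k1,k0],[k2,k0,k0,k0,k2,k0],[k0,k2,k0,k0,k0,k0],[k0,k1,k1,k0,k0,k0],[k0,k0,k2,k0,k0,k0],[k0,k0,k1,k1,
    k0,k0],[k0,k0,k0,k2,k0,k0],[k0,k0,k0,k0,k0,k2],[k0,k0,k0,k0,k0,k3]]
    [.contra [y1,z1],.ref k28 k0 [(z2,[z1]),(z1,[z0,y1,z1])],.contra [z1],.ref k27 k0 [(z1,[y1,z0,z1])],.contra [z1],
    .ref k27 k1 [(z1,[y1,z0,z1])],.contra [y1,y2,z2],.contra [z1],.ref k19 k0 [(z1,[y1,z0,z3])]]),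
    .old (.leafM k12 [k1,k2,k3,k5] [(z1,[z0,z0,z1]),(z1,[y2,y2,y1,z2]),(z1,[z0,z1])] [(k4,k0,z1,[z1]),(k0,k4,z1,[z1])]),
    .old (.lp [k118,k78,k54,k116,k52,k60] [k19,k19,k40,k38,k51,k51,k0,k40,k52,k52,k48,k48] k0 [[k0,k0,k38],[k0,k0,k0,k0,
    k0,k0,k0,k70],[k0,k0,k0,k0,k0,k0,k16],[k0,k38],[],[],[k70],[k0,k0,k0,k16]] (nat_lit 240) k6
    [[(k8,k85)],[(k5,k48),(k7,k97),(k3,k99),(k9,k155)],[(k6,k48),(k4,k67),(k0,k99),(k2,k116)],[(k9,k48),(k5,k65),(k7,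
    k76),(k3,k116)],[(k0,k48),(k4,k54),(k2,k65),(k6,k121)],[(k9,k53),(k5,k54),(k7,k65),(k3,k67)],[(k4,k65),(k2,k76),
    (k0,k97),(k6,k116)],[(k3,k48),(k9,k104),(k7,k116),(k5,k121)],[(k2,k48),(k4,k53),(k6,k104),(k0,k155)],[(k1,k85)],
    [(k10,k60)],[(k11,k60)]]
    [] k0
    [[k1,k1,k0,k0,k1,k0],[k1,k0,k1,k0,k1,k0],[k0,k2,k0,k0,k0,k0],[k0,k1,k1,k0,k0,k0],[k0,k1,k2,k0,k0,k0],[k0,k1,k0,k1,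
    k0,k0],[k0,k1,k1,k1,k0,k0],[k0,k1,k2,k1,k0,k0],[k0,k0,k2,k0,k0,k0],[k0,k0,k3,k0,k0,k0],[k0,k0,k4,k0,k0,k0],[k0,k0,
    k1,k1,k0,k0],[k0,k0,k0,k2,k0,k0],[k0,k0,k0,k0,k0,k2],[k0,k0,k0,k0,k0,k3]]
    [.contra [z1,y1],.contra [y2,z2,z0,z1],.contra [z1],.contra [y2,z0,z1,z2],.contra [z1,z0,z1,y1],.contra [y1,z0,
    z1],.contra [z1,y1,y1,y1,z1],.contra [z1,z0,z0,y1],.contra [z1],.contra [y1,z0,z0,z2],.contra [z1,z0,z2,y2],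
    .contra [y4,z0,z3,z2],.contra [z1],.contra [z1],.contra [z1,z2,z1,z1,y2]]),
    .old (.lp [k38,k80,k80,k80,k140,k60] [k51,k51,k60,k0,k30,k30,k30,k30,k0,k0,k40,k40] k0 [[],[k0,k0,k0,k0,k0,k0,k0,k62],
    [],[],[k0,k0,k0,k0,k0,k0,k62],[],[k62],[k0,k0,k0,k0,k0,k62]] (nat_lit 240) k6
    [[(k8,k89)],[(k5,k59),(k7,k59),(k3,k89),(k9,k151)],[(k6,k48),(k2,k80),(k0,k89),(k4,k110)],[(k5,k50),(k7,k50),(k3,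
    k80),(k9,k80)],[(k2,k50),(k0,k59),(k4,k80),(k6,k80)],[(k9,k48),(k5,k80),(k7,k80),(k3,k110)],[(k2,k50),(k0,k59),
    (k4,k80),(k6,k142)],[(k3,k48),(k5,k80),(k9,k110),(k7,k142)],[(k4,k48),(k2,k80),(k6,k110),(k0,k151)],[(k1,k89)],
    [(k10,k60)],[(k11,k60)]]
    [] k0
    [[k1,k0,k1,k0,k1,k0],[k0,k2,k0,k0,k0,k0],[k0,k2,k0,k1,k0,k0],[k0,k1,k1,k0,k0,k0],[k0,k1,k0,k1,k0,k0],[k0,k2,k0,k2,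
    k0,k0],[k0,k1,k1,k1,k0,k0],[k0,k0,k2,k0,k0,k0],[k0,k0,k1,k1,k0,k0],[k0,k0,k0,k0,k0,k2],[k0,k0,k0,k0,k0,k3]]
    [.contra [z1,y1],.contra [z1],.ref k31 k0 [(z1,[z0,z1]),(z1,[z1]),(z1,[y1,z0,z1])],.contra [y3,z0,z2],.contra [y3,
    z0,z2],.ref k30 k0 [(z1,[z0,z1]),(z2,[z1]),(z1,[y1,z0,z1])],.contra [z1,y1,y1,z1],.contra [z1],.contra [y3,z0,z2],
    .contra [z1],.contra [z1,z2,z1,y2]]),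
    .old (.leafM k11 [k1,k2,k3,k5] [(z1,[z0,z0,z1]),(z1,[y3,y3,y1,z3]),(z1,[z0,z1])] [(k4,k0,z1,[z1]),(k0,k4,z1,[z1])]),
    .old (.lp [k66,k116,k62,k116,k62,k48] [k66,k66,k82,k0,k68,k68,k38,k44,k68,k68,k75,k75] k0 [[k0,k0,k4],[k0,k0,k0,k0,k0,
    k0,k0,k112],[],[k0,k4],[k0,k0,k0,k0,k0,k0,k4],[],[k112],[k0,k0,k0,k0,k0,k4]] (nat_lit 240) k6
    [[(k8,k64)],[(k5,k60),(k7,k88),(k3,k132),(k9,k176)],[(k6,k48),(k2,k120),(k4,k130),(k0,k132)],[(k5,k48),(k9,k48),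
    (k7,k72),(k3,k120)],[(k2,k48),(k0,k60),(k4,k62),(k6,k92)],[(k9,k58),(k5,k62),(k7,k86),(k3,k130)],[(k2,k72),(k4,
    k86),(k0,k88),(k6,k120)],[(k3,k48),(k5,k92),(k9,k92),(k7,k120)],[(k2,k48),(k4,k58),(k6,k92),(k0,k176)],[(k1,k64)],
    [(k10,k48)],[(k11,k48)]]
    [] k0
    [[k1,k0,k1,k0,k1,k0],[k0,k1,k1,k0,k0,k0],[k0,k1,k0,k1,k0,k0],[k0,k1,k1,k1,k0,k0],[k0,k0,k2,k0,k0,k0],[k0,k0,k3,k0,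
    k0,k0],[k0,k0,k1,k1,k0,k0],[k0,k0,k0,k0,k0,k2],[k0,k0,k0,k0,k0,k3],[k0,k0,k0,k0,k0,k4]]
    [.contra [y1,z0,y1,z1],.contra [y1,y1,z0,z1],.contra [y1,z0,z2],.contra [z1,z0,y1],.contra [z1],.ref k33 k0 [(z1,
    [z0,z1]),(z1,[z0,z0,z1]),(z1,[z1])],.contra [y1,y1,z0,z1],.contra [z1],.ref k19 k0 [(z1,[y1,z0,z0,z3])],
    .ref k32 k0 [(z1,[z0,z1]),(z2,[y1,y4,z0,z4])]]),
    .old (.lp [k110,k152,k120,k195,k68,k72] [k123,k123,k102,k102,k118,k118,k0,k161,k151,k137,k142,k142] k0 [[k0,k0,k43],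
    [k0,k0,k0,k0,k0,k0,k0,k182],[k0,k0,k0,k0,k0,k0,k45],[k0,k43],[],[],[k182],[k0,k0,k0,k45]] (nat_lit 360) k6
    [[(k8,k82)],[(k5,k72),(k7,k72),(k3,k131),(k9,(nat_lit 278))],[(k6,k72),(k0,k131),(k4,k136),(k2,k195)],[(k9,k72),
    (k7,k93),(k5,k136),(k3,k195)],[(k0,k72),(k4,k120),(k2,k136),(k6,(nat_lit 283))],[(k7,k77),(k9,k101),(k5,k120),(k3,
    k136)],[(k0,k72),(k4,k77),(k2,k93),(k6,k195)],[(k3,k72),(k7,k195),(k9,(nat_lit 219)),(k5,(nat_lit 283))],[(k2,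
    k72),(k4,k101),(k6,(nat_lit 219)),(k0,(nat_lit 278))],[(k1,k82)],[(k10,k72)],[(k11,k72)]]
    [] k0
    [[k1,k1,k0,k0,k1,k0],[k1,k1,k0,k1,k1,k0],[k1,k0,k1,k0,k1,k0],[k0,k1,k1,k0,k0,k0],[k0,k1,k0,k1,k0,k0],[k0,k2,k0,k2,
    k0,k0],[k0,k1,k1,k1,k0,k0],[k0,k0,k2,k0,k0,k0],[k0,k0,k0,k0,k0,k2],[k0,k0,k0,k0,k0,k3],[k0,k0,k0,k0,k0,k4]]
    [.contra [z1,y1],.contra [z1,y1],.contra [z1,y1],.contra [y1,y1,z1],.contra [y1,y1,z1],.ref k34 k0 [(z1,[z0,z1]),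
    (z2,[z1])],.contra [y1,y1,z1],.contra [z1],.contra [z1],.ref k19 k0 [(z1,[y1,z0,z3])],.ref k32 k0 [(z1,[z0,z1]),
    (z2,[y1,y4,z4])]]),
    .old (.lp [k12,k8,k8,k8,k4,k6] [k0,k0,k2,k2,k2,k2,k2,k2,k4,k4,k3,k3] k0 [] k24 k5
    [[(k8,k8)],[(k9,k8),(k3,k10),(k5,k10),(k7,k10)],[(k2,k8),(k4,k8),(k6,k8),(k0,k10)],[(k9,k6),(k3,k8),(k5,k8),(k7,
    k8)],[(k2,k8),(k4,k8),(k6,k8),(k0,k10)],[(k9,k6),(k3,k8),(k5,k8),(k7,k8)],[(k2,k8),(k4,k8),(k6,k8),(k0,k10)],[(k9,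
    k6),(k3,k8),(k5,k8),(k7,k8)],[(k2,k6),(k4,k6),(k6,k6),(k0,k8)],[(k1,k8)],[(k10,k6)],[(k11,k6)]]
    [] k0
    [[k1,k0,k0,k0,k1,k0],[k0,k2,k0,k0,k0,k0],[k0,k1,k1,k0,k0,k0],[k0,k1,k0,k1,k0,k0],[k0,k0,k2,k0,k0,k0],[k0,k0,k1,k1,
    k0,k0],[k0,k0,k0,k2,k0,k0],[k0,k0,k0,k0,k0,k2],[k0,k0,k0,k0,k0,k3]]
    [.ref k35 k0 [(z1,[z1])],.contra [z1],.ref k27 k0 [(z1,[y1,z1])],.ref k29 k0 [(z1,[y1,z1])],.contra [z1],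
    .ref k27 k1 [(z1,[y1,z1])],.contra [z1],.contra [z1],.ref k19 k0 [(z1,[y1,z3])]])]⟩

/-- classes `0 0 0 0 1 1`, types `C0 C0 C0 C0 N0 N2` -/
noncomputable def cU6_96 : CertX :=
  ⟨[k4,k4,k4,k4,k28,k30],[(false,k0,[k0,k1,k2,k3,k4,k5]),(true,k4,[k4,k3,k2,k1,k0,k5])],[[[([z1,z0,z0,z1,z1,z1],z2)],
    [([z1,z0,z0,z0,z1,z1],z2)],[]]],
    [.old (.leafM k1 [k0,k3,k4,k5] [] [(k1,k2,z1,[y1,z1]),(k2,k1,z1,[y1,z1])]),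
    .old (.leafM k4 [k4,k5,k0,k1,k2,k3] [(z1,[y1,z1])] []),
    .old (.lp [(nat_lit 8904),(nat_lit 22260),(nat_lit 15960),(nat_lit 22260),(nat_lit 8904),
    (nat_lit 8904)] [(nat_lit 6678),(nat_lit 6678),k0,k0,(nat_lit 3150),(nat_lit 3150),k0,k0,(nat_lit 6678),
    (nat_lit 6678),(nat_lit 6678),(nat_lit 6678)] k0 [[k0,k0,k0,k0,(nat_lit 6360)],[k0,k0,k0,(nat_lit 1855)],
    [(nat_lit 1855)],[],[],[k0,(nat_lit 6360)]] (nat_lit 44520) k6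
    [[(k11,(nat_lit 8904))],[(k9,(nat_lit 8904)),(k7,(nat_lit 9222)),(k5,(nat_lit 14287)),(k3,(nat_lit 15582))],[(k0,
    (nat_lit 15582)),(k2,(nat_lit 20405)),(k6,(nat_lit 22260)),(k4,(nat_lit 25470))],[(k9,(nat_lit 15582)),(k5,
    (nat_lit 19110)),(k3,(nat_lit 20405)),(k7,(nat_lit 22260))],[(k0,(nat_lit 14287)),(k4,(nat_lit 15960)),(k2,
    (nat_lit 19110)),(k6,(nat_lit 19110))],[(k9,(nat_lit 12432)),(k5,(nat_lit 15960)),(k7,(nat_lit 19110)),(k3,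
    (nat_lit 25470))],[(k0,(nat_lit 9222)),(k4,(nat_lit 19110)),(k2,(nat_lit 22260)),(k6,(nat_lit 22260))],[(k9,
    (nat_lit 15582)),(k5,(nat_lit 19110)),(k3,(nat_lit 22260)),(k7,(nat_lit 22260))],[(k0,(nat_lit 8904)),(k4,
    (nat_lit 12432)),(k2,(nat_lit 15582)),(k6,(nat_lit 15582))],[(k10,(nat_lit 8904))],[(k1,(nat_lit 8904))],[(k8,
    (nat_lit 8904))]]
    [] k0
    [[k1,k0,k0,k0,k1,k1],[k1,k0,k0,k1,k1,k1],[k0,k2,k0,k0,k0,k0],[k0,k0,k2,k0,k0,k0],[k0,k0,k1,k1,k0,k0]]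
    [.ref k1 k0 [(z1,[z1])],.ref k0 k0 [(z1,[z1])],.contra [z1],.contra [z1],.ref k0 k1 [(z1,[y1,z1])]])]⟩

/-- the certificates of this file -/
noncomputable def lU6_10 : List CertX :=
  [cU6_92, cU6_93, cU6_94, cU6_95, cU6_96]

theorem gU6_10 : allF (chkE 6 ttU6) lU6_10 = true := by
  decide +kernel

end Pool.Agent.Lib_MP_fa6e45
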