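import Pool.Agent.Lib_MP_fa6e45.CXT
import Pool.Agent.Lib_MP_fa6e45.HK

/-!
MP_fa6e45_co, stage 7: certificates (generated by a program).
-/

namespace Pool.Agent.Lib_MP_fa6e45

/-- classes `0 0 0 0 1 1`, types `C0 C0 C0 C0 S0 S0` -/
noncomputable def cU6_97 : CertX :=
  ⟨[k4,k4,k4,k4,k16,k16],[(false,k0,[k0,k1,k2,k3,k4,k5]),(true,k4,[k4,k3,k2,k1,k0,k5])],[[[([z1,z0,z0,z1,z1,z1],z2)],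
    [([z1,z0,z0,z0,z1,z1],z2)],[([z3,z0,z0,z0,z3,z0],z2),([z0,z1,z0,z1,z0,z0],z2),([z0,z0,z3,z0,z0,z0],z2)],[([z1,z0,
    z0,z0,z1,z0],z1),([z0,z1,z0,z1,z0,z0],z2),([z0,z0,z3,z0,z0,z0],z1)],[([z6,z0,z0,y3,z6,z0],z2),([z0,z1,z0,z1,z0,
    z0],z2),([z0,z0,z2,z1,z0,z0],z2)],[([z1,z0,z0,y1,z1,z0],z0),([z0,z1,z0,z1,z0,z0],z2),([z0,z0,z3,z3,z0,z0],z4)],
    [([z3,z0,z3,z0,z3,z0],z4),([z0,z1,z0,z1,z0,z0],z2)],[([z1,z0,z0,z0,z1,z0],z2),([z0,z3,z0,z3,z0,z0],z2),([z0,z0,z3,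
    z0,z0,z0],z2)],[([z1,z0,z0,z0,z1,z0],z2),([z0,z1,z0,z1,z0,z0],z1),([z0,z0,z3,z0,z0,z0],z1)],[([z1,z0,z0,z0,z1,z0],
    z2),([z0,z6,z0,z3,z0,z0],z2),([z0,z0,z2,z1,z0,z0],z2)],[([z1,z0,z0,z0,z1,z0],z2),([z0,z2,z0,z1,z0,z0],z2),([z0,z0,
    z6,z3,z0,z0],z2)],[([z1,z0,z0,z0,z1,z0],z2),([z0,z3,z3,z3,z0,z0],z4)]],[[([z1,z0,z1,z0,z1,z0],z2),([z0,z3,z0,z0,
    z0,z0],z2),([z0,z0,z0,z3,z0,z0],z2)],[([z3,z0,z0,y3,z3,z0],z2),([z0,z3,z0,z3,z0,z0],z4),([z0,z0,z3,z3,z0,z0],z4)],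
    [([z1,z0,z1,z0,z1,z0],z2),([z0,z3,z0,z3,z0,z0],z4)],[([z3,z3,z3,z3,z3,z0],z10)],[([z1,z0,z0,z0,z1,z0],z1),([z0,z1,
    z0,z1,z0,z0],z2),([z0,z0,z2,z0,z0,z0],z1)],[([z1,z0,z0,z0,z1,z2],z2),([z0,z1,z0,z0,z0,y2],z0),([z0,z0,z1,z0,z0,
    y1],z0)],[([z1,z0,z0,z0,z1,z2],z2),([z0,z1,z0,z1,z0,z0],z2)],[([z1,z0,z0,z0,z1,z0],z1),([z0,z1,z0,z1,z0,z0],z2),
    ([z0,z0,z3,z0,z0,z0],z2)],[([z1,z0,z0,z0,z1,z0],z1),([z0,z1,z0,z1,z0,z0],z2)],[([z1,z0,z1,z0,z1,z1],z2)],[([z1,z0,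
    z0,z0,z1,z0],z2),([z0,z3,z0,z0,z0,z0],z2),([z0,z0,z3,z0,z0,z3],z2)],[([z1,z0,z0,z0,z1,z0],z2),([z0,z2,z0,z1,z0,
    z0],z2)]],[[([z1,z0,z0,z0,z1,z0],z2),([z0,z1,z0,z1,z0,z0],z1),([z0,z0,z2,z0,z0,z0],z1)],[([z1,z0,z0,z0,z1,z0],z2),
    ([z0,z1,z0,z1,z0,z0],z1),([z0,z0,z3,z0,z0,z0],z2)],[([z1,z0,z0,z0,z1,z0],z2),([z0,z1,z0,z1,z0,z0],z1)],[([z1,z0,
    z0,z0,z1,z0],z2)],[]]],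
    [.old (.leafM k0 [k0,k3,k4,k5] [] [(k1,k2,z1,[y1,z1]),(k2,k1,z1,[y1,z1])]),
    .old (.leafM k0 [k0,k1,k2,k3,k4,k5] [(z1,[y1,z1])] []),
    .old (.leafM k10 [k0,k2,k4,k5] [(z1,[z0,z0,z1]),(z1,[y1,y3,y1,z3]),(z1,[z1])] [(k1,k3,z1,[z0,z1]),(k3,k1,z1,[z0,z1])]),
    .old (.leafM k11 [k4,k5,k0,k2] [(z1,[y3,y3,y1,z3]),(z1,[z0,z0,z1]),(z1,[z1])] [(k1,k3,z1,[z0,z1]),(k3,k1,z1,[z0,z1])]),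
    .old (.lp [(nat_lit 276),(nat_lit 552),(nat_lit 360),(nat_lit 828),(nat_lit 276),(nat_lit 460)] [(nat_lit 276),
    (nat_lit 276),k138,k138,(nat_lit 234),(nat_lit 234),k0,k0,(nat_lit 276),(nat_lit 276),k184,k184] k0 [[],[],[],[],
    [],[k0,k0,k0,k0,k0,k0,k0,k115],[k0,k0,k0,k0,k115]] (nat_lit 1380) k6
    [[(k1,(nat_lit 276)),(k8,(nat_lit 276)),(k10,(nat_lit 368)),(k11,(nat_lit 368))],[(k9,(nat_lit 276)),(k5,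
    (nat_lit 318)),(k3,(nat_lit 414)),(k7,(nat_lit 552))],[(k0,(nat_lit 414)),(k4,(nat_lit 456)),(k2,(nat_lit 552)),
    (k6,(nat_lit 690))],[(k9,(nat_lit 414)),(k5,(nat_lit 456)),(k3,(nat_lit 552)),(k7,(nat_lit 690))],[(k0,
    (nat_lit 318)),(k4,(nat_lit 360)),(k2,(nat_lit 456)),(k6,(nat_lit 594))],[(k5,(nat_lit 360)),(k9,(nat_lit 433)),
    (k3,(nat_lit 456)),(k7,(nat_lit 594))],[(k0,(nat_lit 552)),(k4,(nat_lit 594)),(k2,(nat_lit 690)),(k6,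
    (nat_lit 713))],[(k9,(nat_lit 552)),(k5,(nat_lit 594)),(k3,(nat_lit 690)),(k7,(nat_lit 713))],[(k0,(nat_lit 276)),
    (k2,(nat_lit 414)),(k4,(nat_lit 433)),(k6,(nat_lit 552))],[(k1,(nat_lit 276)),(k8,(nat_lit 276)),(k10,
    (nat_lit 368)),(k11,(nat_lit 368))],[(k1,(nat_lit 368)),(k8,(nat_lit 368)),(k10,(nat_lit 460)),(k11,
    (nat_lit 460))],[(k1,(nat_lit 368)),(k8,(nat_lit 368)),(k10,(nat_lit 460)),(k11,(nat_lit 460))]]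
    [] k0
    [[k2,k0,k0,k0,k2,k0],[k1,k0,k0,k0,k1,k0],[k1,k1,k0,k0,k1,k0],[k1,k0,k1,k0,k1,k0],[k1,k0,k0,k0,k1,k1],[k0,k2,k0,k0,
    k0,k0],[k0,k1,k1,k0,k0,k0],[k0,k1,k2,k0,k0,k0],[k0,k0,k2,k0,k0,k0],[k0,k0,k3,k0,k0,k0],[k0,k0,k1,k1,k0,k0],[k0,k0,
    k0,k0,k0,k2]]
    [.ref k3 k0 [(z2,[z1]),(z1,[z0,z0,z1]),(z2,[y3,z1,z0,z3])],.contra [y6,z1,z0,z5],.ref k0 k0 [(z2,[y6,z1,z4,y1,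
    z2])],.contra [z2,y1,y4,y3,z4],.contra [y2,z0,y1,y1,z2],.contra [z1],.ref k0 k0 [(z1,[y1,z0,z0,z0,z1])],
    .contra [z1,z0,z1,y1],.contra [z1],.ref k0 k0 [(z1,[y1,z0,y1,z1,z1])],.contra [y2,z0,z1,z1],.contra [z1]]),
    .old (.lp [k152,(nat_lit 356),k182,(nat_lit 360),k144,(nat_lit 240)] [k104,k104,k2,k2,k89,k89,k0,k0,k108,k108,k60,
    k60] k0 [[k0,k0,k0,k0,k0,k0,k4],[k0,k0,k0,k60],[k60],[k0,k0,k0,k0,k0,k0,k0,k68],[],[],[k0,k0,k68],[k0,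
    k4]] (nat_lit 720) k6
    [[(k8,k148),(k1,k152),(k10,k196),(k11,k196)],[(k9,k144),(k5,(nat_lit 227)),(k3,(nat_lit 254)),(k7,(nat_lit 256))],
    [(k0,(nat_lit 254)),(k4,(nat_lit 269)),(k2,(nat_lit 296)),(k6,(nat_lit 362))],[(k5,(nat_lit 269)),(k3,
    (nat_lit 296)),(k9,(nat_lit 318)),(k7,(nat_lit 358))],[(k4,k182),(k6,(nat_lit 203)),(k0,(nat_lit 227)),(k2,
    (nat_lit 269))],[(k9,k163),(k5,k182),(k3,(nat_lit 269)),(k7,(nat_lit 271))],[(k0,(nat_lit 256)),(k4,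
    (nat_lit 271)),(k2,(nat_lit 358)),(k6,(nat_lit 360))],[(k5,(nat_lit 203)),(k9,(nat_lit 252)),(k7,(nat_lit 360)),
    (k3,(nat_lit 362))],[(k0,k144),(k4,k163),(k6,(nat_lit 252)),(k2,(nat_lit 318))],[(k8,k144),(k1,k148),(k10,k192),
    (k11,k192)],[(k8,k192),(k1,k196),(k10,(nat_lit 240)),(k11,(nat_lit 240))],[(k8,k192),(k1,k196),(k10,
    (nat_lit 240)),(k11,(nat_lit 240))]]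
    [] k0
    [[k2,k0,k0,k0,k2,k0],[k1,k0,k0,k0,k1,k0],[k1,k0,k1,k0,k1,k0],[k1,k0,k0,k1,k1,k0],[k1,k0,k0,k0,k1,k1],[k0,k2,k0,k0,
    k0,k0],[k0,k1,k1,k0,k0,k0],[k0,k0,k2,k0,k0,k0],[k0,k0,k3,k0,k0,k0],[k0,k0,k2,k1,k0,k0],[k0,k0,k1,k1,k0,k0],[k0,k0,
    k0,k0,k0,k2]]
    [.contra [y1,z2,z2],.contra [y1,z1,z1],.contra [z1,y3,y2,y1,z2],.contra [y1,z1,z2],.contra [y1,z0,y1,z0,z1],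
    .contra [z1],.ref k0 k0 [(z1,[y1,z0,z0,z0,z1])],.contra [z1],.ref k0 k0 [(z3,[y2,z0,y3,z1,z3])],.ref k0 k0 [(z1,
    [y2,z0,y1,z1,z1])],.contra [z1,y2,y2,y1,z2],.contra [z1]]),
    .old (.lp [(nat_lit 276),(nat_lit 552),(nat_lit 360),(nat_lit 828),(nat_lit 276),(nat_lit 460)] [(nat_lit 276),
    (nat_lit 276),k138,k138,(nat_lit 234),(nat_lit 234),k0,k0,(nat_lit 276),(nat_lit 276),k184,k184] k0 [[],[],[],[],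
    [],[k0,k0,k0,k0,k0,k0,k0,k115],[k0,k0,k0,k0,k115]] (nat_lit 1380) k6
    [[(k1,(nat_lit 276)),(k8,(nat_lit 276)),(k10,(nat_lit 368)),(k11,(nat_lit 368))],[(k9,(nat_lit 276)),(k5,
    (nat_lit 318)),(k3,(nat_lit 414)),(k7,(nat_lit 552))],[(k0,(nat_lit 414)),(k4,(nat_lit 456)),(k2,(nat_lit 552)),
    (k6,(nat_lit 690))],[(k9,(nat_lit 414)),(k5,(nat_lit 456)),(k3,(nat_lit 552)),(k7,(nat_lit 690))],[(k0,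
    (nat_lit 318)),(k4,(nat_lit 360)),(k2,(nat_lit 456)),(k6,(nat_lit 594))],[(k5,(nat_lit 360)),(k9,(nat_lit 433)),
    (k3,(nat_lit 456)),(k7,(nat_lit 594))],[(k0,(nat_lit 552)),(k4,(nat_lit 594)),(k2,(nat_lit 690)),(k6,
    (nat_lit 713))],[(k9,(nat_lit 552)),(k5,(nat_lit 594)),(k3,(nat_lit 690)),(k7,(nat_lit 713))],[(k0,(nat_lit 276)),
    (k2,(nat_lit 414)),(k4,(nat_lit 433)),(k6,(nat_lit 552))],[(k1,(nat_lit 276)),(k8,(nat_lit 276)),(k10,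
    (nat_lit 368)),(k11,(nat_lit 368))],[(k1,(nat_lit 368)),(k8,(nat_lit 368)),(k10,(nat_lit 460)),(k11,
    (nat_lit 460))],[(k1,(nat_lit 368)),(k8,(nat_lit 368)),(k10,(nat_lit 460)),(k11,(nat_lit 460))]]
    [] k0
    [[k2,k0,k0,k0,k2,k0],[k1,k0,k0,k0,k1,k0],[k1,k1,k0,k0,k1,k0],[k1,k0,k1,k0,k1,k0],[k1,k0,k0,k0,k1,k1],[k0,k2,k0,k0,
    k0,k0],[k0,k1,k1,k0,k0,k0],[k0,k1,k2,k0,k0,k0],[k0,k0,k2,k0,k0,k0],[k0,k0,k3,k0,k0,k0],[k0,k0,k1,k1,k0,k0],[k0,k0,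
    k0,k0,k0,k2]]
    [.ref k3 k0 [(z2,[z1]),(z1,[z0,z0,z1]),(z2,[y3,z2])],.contra [y3,z1,z1],.ref k5 k0 [(z1,[z1,z0,y1]),(z1,[z0,z0,
    z1]),(z1,[y3,z1,z3])],.contra [z1,y1,y2,z2],.contra [y1,z0,y1,z1],.contra [z1],.ref k0 k0 [(z1,[y1,z0,z0,z1])],
    .ref k4 k1 [(z1,[y3,z2]),(z1,[z0,z0,z1]),(z1,[z1])],.contra [z1],.ref k2 k0 [(z1,[y1,z1]),(z1,[z0,z0,z1]),(z1,
    [z1])],.ref k0 k1 [(z1,[y1,z0,z0,z1])],.contra [z1]]),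
    .old (.leafM k10 [k1,k2,k3,k5] [(z1,[z0,z0,z1]),(z1,[y3,y1,y1,z3]),(z1,[z0,z1])] [(k4,k0,z1,[z1]),(k0,k4,z1,[z1])]),
    .old (.leafM k11 [k3,k5,k1,k2] [(z1,[y3,y3,y1,z3]),(z1,[z0,z0,z1]),(z1,[z0,z1])] [(k4,k0,z1,[z1]),(k0,k4,z1,[z1])]),
    .old (.lp [k83,k82,k62,k116,k55,k80] [k34,k53,k68,k20,k54,k54,k0,k54,k61,k54,k45,k45] k0 [[k0,k0,k0,k0,k34],[k0,k0,k0,
    k0,k0,k0,k0,k102],[],[],[k0,k0,k0,k0,k0,k0,k4],[k0,k34],[k102],[k0,k0,k0,k0,k0,k4]] (nat_lit 240) k6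
    [[(k8,k56),(k1,k64),(k10,k72),(k11,k72)],[(k7,k48),(k5,k82),(k3,k116),(k9,k184)],[(k6,k48),(k2,k82),(k0,k116),(k4,
    k130)],[(k5,k48),(k7,k48),(k9,k48),(k3,k82)],[(k2,k48),(k4,k62),(k0,k82),(k6,k116)],[(k9,k58),(k5,k62),(k7,k62),
    (k3,k130)],[(k0,k48),(k2,k48),(k4,k62),(k6,k120)],[(k3,k48),(k5,k116),(k9,k116),(k7,k120)],[(k2,k48),(k4,k58),(k6,
    k116),(k0,k184)],[(k8,k48),(k1,k56),(k10,k64),(k11,k64)],[(k8,k64),(k1,k72),(k10,k80),(k11,k80)],[(k8,k64),(k1,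
    k72),(k10,k80),(k11,k80)]]
    [] k0
    [[k1,k1,k0,k0,k1,k0],[k1,k1,k0,k1,k1,k0],[k1,k0,k1,k0,k1,k0],[k1,k0,k0,k1,k1,k0],[k0,k2,k0,k0,k0,k0],[k0,k2,k0,k1,
    k0,k0],[k0,k1,k1,k0,k0,k0],[k0,k1,k0,k1,k0,k0],[k0,k2,k0,k2,k0,k0],[k0,k1,k1,k1,k0,k0],[k0,k1,k2,k1,k0,k0],[k0,k1,
    k0,k2,k0,k0],[k0,k0,k2,k0,k0,k0],[k0,k0,k3,k0,k0,k0],[k0,k0,k1,k1,k0,k0],[k0,k0,k0,k0,k0,k2]]
    [.contra [z1,y1],.contra [z1,y1],.contra [z1,y1],.contra [y1,z1,z0,z1],.contra [z1],.contra [z1,y4,y1,y2,z4],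
    .contra [y2,z0,z1,z1],.contra [y6,z0,z1,z5],.contra [y2,z0,z1,z1],.contra [z2,y4,y1,y3,z4],.contra [z1,z0,z0,y1],
    .contra [y2,z0,z1,z1],.contra [z1],.contra [z2,z0,z1,y3],.contra [y1,z0,z0,z1],.contra [z1]]),
    .old (.lp [k119,k94,k48,k89,k48,k80] [k0,k25,k34,k16,k48,k48,k7,k48,k48,k48,k32,k32] k0 [[k0,k0,k48],[k0,k0,k0,k0,k0,
    k0,k0,k73],[k0,k0,k0,k0,k12,k0,k14],[k0,k48],[],[k0,k0,k0,k12],[k73],[k0,k0,k0,k14]] (nat_lit 240) k6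
    [[(k8,k71),(k10,k87),(k11,k87),(k1,k94)],[(k5,k48),(k7,k96),(k3,k128),(k9,k169)],[(k6,k48),(k4,k80),(k0,k128),(k2,
    k142)],[(k9,k48),(k7,k50),(k5,k62),(k3,k142)],[(k0,k48),(k4,k60),(k2,k62),(k6,k103)],[(k7,k48),(k9,k48),(k5,k60),
    (k3,k80)],[(k4,k48),(k2,k50),(k6,k89),(k0,k96)],[(k3,k48),(k7,k89),(k9,k89),(k5,k103)],[(k2,k48),(k4,k48),(k6,
    k89),(k0,k169)],[(k8,k48),(k10,k64),(k11,k64),(k1,k71)],[(k8,k64),(k10,k80),(k11,k80),(k1,k87)],[(k8,k64),(k10,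
    k80),(k11,k80),(k1,k87)]]
    [] k0
    [[k1,k0,k1,k0,k1,k0],[k1,k0,k2,k0,k1,k0],[k0,k1,k1,k0,k0,k0],[k0,k1,k2,k0,k0,k0],[k0,k1,k1,k1,k0,k0],[k0,k1,k0,k1,
    k0,k0],[k0,k2,k0,k2,k0,k0],[k0,k1,k2,k1,k0,k0],[k0,k1,k0,k2,k0,k0],[k0,k0,k2,k0,k0,k0],[k0,k0,k3,k0,k0,k0],[k0,k0,
    k2,k1,k0,k0],[k0,k0,k1,k1,k0,k0],[k0,k0,k0,k2,k0,k0],[k0,k0,k0,k0,k0,k2]]
    [.contra [z1,y1],.contra [z1,y1],.contra [y2,z0,z1,z1],.contra [y2,z0,z1,z1],.contra [z2,y4,y3,y1,z4],.contra [y1,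
    z0,z1],.contra [y1,z0,z2],.contra [y2,z0,z1,z1],.contra [y2,z0,z1,z1],.contra [z1],.contra [y1,z0,z0,z1],
    .contra [z1,y4,y2,y1,z4],.contra [y6,z0,z5,z1],.contra [z1],.contra [z1]]),
    .old (.lp [k24,k45,k30,k60,k40,k40] [k32,k32,k35,k8,k29,k29,k0,k28,k24,k24,k24,k24] k0 [[],[k0,k0,k0,k0,k0,k0,k0,k56],
    [],[],[k0,k0,k0,k0,k0,k0,k11],[],[k56],[k0,k0,k0,k0,k0,k11]] k120 k6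
    [[(k1,k24),(k8,k32),(k10,k32),(k11,k32)],[(k5,k27),(k7,k28),(k3,k48),(k9,k88)],[(k6,k24),(k2,k45),(k0,k48),(k4,
    k51)],[(k5,k24),(k7,k25),(k9,k29),(k3,k45)],[(k2,k24),(k0,k27),(k4,k30),(k6,k59)],[(k9,k24),(k5,k30),(k7,k31),(k3,
    k51)],[(k2,k25),(k0,k28),(k4,k31),(k6,k71)],[(k3,k24),(k5,k59),(k9,k64),(k7,k71)],[(k4,k24),(k2,k29),(k6,k64),(k0,
    k88)],[(k1,k32),(k8,k40),(k10,k40),(k11,k40)],[(k1,k32),(k8,k40),(k10,k40),(k11,k40)],[(k1,k32),(k8,k40),(k10,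
    k40),(k11,k40)]]
    [] k0
    [[k1,k1,k0,k0,k1,k0],[k1,k1,k0,k1,k1,k0],[k1,k0,k1,k0,k1,k0],[k1,k0,k2,k0,k1,k0],[k0,k2,k0,k0,k0,k0],[k0,k2,k0,k1,
    k0,k0],[k0,k1,k1,k0,k0,k0],[k0,k1,k2,k0,k0,k0],[k0,k1,k0,k1,k0,k0],[k0,k2,k0,k2,k0,k0],[k0,k1,k1,k1,k0,k0],[k0,k1,
    k2,k1,k0,k0],[k0,k0,k2,k0,k0,k0],[k0,k0,k3,k0,k0,k0],[k0,k0,k1,k1,k0,k0],[k0,k0,k0,k0,k0,k2]]
    [.contra [z1,y1],.contra [z1,y1],.contra [z1,y1],.contra [z1,y1],.contra [z1],.ref k10 k0 [(z1,[z0,z1]),(z1,[z1]),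
    (z1,[y3,z0,z2])],.contra [y2,z0,z1],.ref k9 k1 [(z1,[z0,z1]),(z1,[y3,z0,z2]),(z1,[z1])],.contra [y2,z0,z1],
    .ref k8 k0 [(z1,[z0,z1]),(z2,[z1]),(z2,[y3,z0,z2])],.contra [z1,y2,y1,z2],.ref k7 k0 [(z1,[z0,z1]),(z1,[y3,z0,
    z2]),(z1,[z3,z0,y1])],.contra [z1],.ref k7 k0 [(z1,[z0,z1]),(z1,[y1,z0,z1]),(z1,[z1])],.contra [y2,z0,z1],
    .contra [z1]]),
    .old (.leafM k2 [k0,k1,k2,k3,k4,k5] [(z1,[z0,z1]),(z1,[z0,z0,z1]),(z1,[y3,y1,y1,z3])] []),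
    .old (.lp [k42,k42,k42,k42,k30,k40] [k0,k0,k0,k0,k0,k0,k0,k0,k6,k6,k1,k1] k0 [[],[k0,k0,k0,k6],[k6],[k0,k0,k0,k0,k0,
    k0,k0,k6],[],[],[k0,k0,k6]] k120 k5
    [[(k8,k36),(k10,k41),(k11,k41),(k1,k42)],[(k9,k36),(k3,k42),(k7,k42),(k5,k48)],[(k2,k36),(k0,k42),(k4,k42),(k6,
    k42)],[(k3,k36),(k5,k42),(k7,k42),(k9,k42)],[(k6,k36),(k2,k42),(k4,k42),(k0,k48)],[(k9,k36),(k3,k42),(k5,k42),(k7,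
    k42)],[(k0,k42),(k2,k42),(k4,k42),(k6,k42)],[(k5,k36),(k9,k36),(k3,k42),(k7,k42)],[(k0,k36),(k4,k36),(k6,k36),(k2,
    k42)],[(k8,k30),(k10,k35),(k11,k35),(k1,k36)],[(k8,k35),(k10,k40),(k11,k40),(k1,k41)],[(k8,k35),(k10,k40),(k11,
    k40),(k1,k41)]]
    [] k0
    [[k1,k0,k0,k0,k1,k0],[k1,k0,k0,k1,k1,k0],[k1,k0,k0,k0,k1,k1],[k0,k2,k0,k0,k0,k0],[k0,k3,k0,k0,k0,k0],[k0,k1,k1,k0,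
    k0,k0],[k0,k1,k0,k1,k0,k0],[k0,k0,k2,k0,k0,k0],[k0,k0,k1,k1,k0,k0],[k0,k0,k0,k2,k0,k0],[k0,k0,k0,k0,k0,k2]]
    [.contra [y3,z1,z1],.ref k1 k0 [(z6,[z3,y1,y2,y2,z6])],.ref k1 k0 [(z1,[z1])],.contra [z1],.ref k1 k0 [(z3,[y1,z0,
    z0,y1,z3])],.contra [z3,z0,z1,y1],.contra [z3,y2,y3,y2,z6],.contra [z3,z0,z2,y2],.contra [z3,y2,y2,y3,z6],
    .contra [z1],.contra [z1]]),
    .old (.lp [k42,k42,k42,k42,k30,k40] [k0,k0,k0,k0,k0,k0,k0,k0,k6,k6,k1,k1] k0 [[],[k0,k0,k0,k0,k0,k6],[],[],[k6],[k0,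
    k0,k0,k0,k0,k0,k0,k6],[k0,k0,k0,k0,k6]] k120 k5
    [[(k8,k36),(k10,k41),(k11,k41),(k1,k42)],[(k9,k36),(k3,k42),(k5,k42),(k7,k48)],[(k4,k36),(k0,k42),(k2,k42),(k6,
    k42)],[(k9,k36),(k3,k42),(k5,k42),(k7,k42)],[(k0,k42),(k2,k42),(k4,k42),(k6,k42)],[(k3,k36),(k5,k42),(k7,k42),(k9,
    k42)],[(k6,k36),(k2,k42),(k4,k42),(k0,k48)],[(k7,k36),(k9,k36),(k3,k42),(k5,k42)],[(k0,k36),(k2,k36),(k6,k36),(k4,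
    k42)],[(k8,k30),(k10,k35),(k11,k35),(k1,k36)],[(k8,k35),(k10,k40),(k11,k40),(k1,k41)],[(k8,k35),(k10,k40),(k11,
    k40),(k1,k41)]]
    [] k0
    [[k1,k0,k0,k0,k1,k0],[k1,k1,k0,k0,k1,k0],[k1,k0,k0,k0,k1,k1],[k0,k2,k0,k0,k0,k0],[k0,k1,k1,k0,k0,k0],[k0,k1,k0,k1,
    k0,k0],[k0,k0,k2,k0,k0,k0],[k0,k0,k1,k1,k0,k0],[k0,k0,k0,k2,k0,k0],[k0,k0,k0,k3,k0,k0],[k0,k0,k0,k0,k0,k2]]
    [.contra [y1,z1],.ref k13 k0 [(z1,[z3,z0,y1]),(z1,[z0,z0,z1]),(z1,[y3,z3,z1])],.ref k1 k0 [(z1,[z1])],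
    .contra [z1],.ref k0 k0 [(z1,[y1,z0,z0,z1])],.contra [z1,y2,y1,z2],.contra [z1],.ref k0 k1 [(z1,[y1,z0,z0,z1])],
    .contra [z1],.ref k12 k0 [(z1,[z0,z1]),(z1,[y1,z0,z1]),(z1,[z1])],.contra [z1]]),
    .old (.lp [k30,k40,k38,k40,k50,k40] [k16,k16,k11,k11,k12,k12,k11,k11,k12,k0,k11,k11] k0 [[k0,k0,k4],[],[k0,k0,k0,k0,
    k4],[k0,k4],[k0,k0,k0,k0,k0,k0,k20],[k0,k0,k0,k4],[],[k0,k0,k0,k0,k0,k20]] k120 k5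
    [[(k1,k30),(k8,k34),(k10,k35),(k11,k35)],[(k5,k30),(k3,k35),(k7,k35),(k9,k46)],[(k0,k35),(k4,k39),(k6,k40),(k2,
    k44)],[(k7,k36),(k5,k39),(k3,k44),(k9,k51)],[(k0,k30),(k2,k39),(k6,k39),(k4,k42)],[(k9,k30),(k3,k39),(k7,k39),(k5,
    k42)],[(k0,k35),(k2,k36),(k4,k39),(k6,k60)],[(k5,k39),(k3,k40),(k9,k51),(k7,k60)],[(k4,k30),(k0,k46),(k2,k51),(k6,
    k51)],[(k1,k34),(k8,k38),(k10,k39),(k11,k39)],[(k1,k35),(k8,k39),(k10,k40),(k11,k40)],[(k1,k35),(k8,k39),(k10,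
    k40),(k11,k40)]]
    [] k0
    [[k1,k0,k0,k0,k1,k0],[k1,k0,k1,k0,k1,k0],[k0,k2,k0,k0,k0,k0],[k0,k1,k1,k0,k0,k0],[k0,k1,k1,k1,k0,k0],[k0,k1,k0,k1,
    k0,k0],[k0,k0,k2,k0,k0,k0],[k0,k0,k1,k1,k0,k0],[k0,k0,k0,k0,k0,k2]]
    [.ref k11 k0 [(z1,[z1]),(z1,[y3,z1])],.ref k14 k0 [(z1,[z1]),(z1,[y3,z1])],.contra [z1],.ref k0 k0 [(z1,[y1,z0,
    z1])],.ref k1 k0 [(z1,[y1,z0,z1])],.ref k6 k0 [(z1,[y3,z1]),(z1,[z1])],.contra [z1],.ref k0 k1 [(z1,[y1,z0,z1])],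
    .contra [z1]]),
    .old (.leafM k9 [k0,k2,k4,k5] [(z1,[z0,z0,z1]),(z1,[y2,y2,y1,z2]),(z1,[z1])] [(k1,k3,z1,[z0,z1]),(k3,k1,z1,[z0,z1])]),
    .old (.tor k8 false k0 [(z1,[y1,y1,z1,z1]),(z1,[y1,z0,y1,z1]),(z1,[z1]),(z1,[z1,z1])]),
    .old (.lp [k48,k82,k76,k138,k66,k60] [k45,k45,k28,k28,k31,k31,k0,k0,k36,k36,k39,k39] k0 [[],[k0,k0,k0,k0,k0,k0,k0,k6],
    [k0,k0,k0,k0,k0,k0,k26],[k0,k0,k0,k0,k0,k26],[k0,k0,k26],[],[k6],[k0,k0,k0,k26]] (nat_lit 240) k6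
    [[(k1,k48),(k10,k54),(k11,k54),(k8,k57)],[(k5,k62),(k9,k63),(k3,k65),(k7,k93)],[(k0,k65),(k4,k79),(k2,k82),(k6,
    k104)],[(k9,k48),(k5,k79),(k3,k82),(k7,k136)],[(k4,k50),(k0,k62),(k2,k79),(k6,k133)],[(k5,k50),(k9,k71),(k3,k79),
    (k7,k107)],[(k0,k93),(k4,k107),(k2,k136),(k6,k138)],[(k9,k102),(k3,k104),(k5,k133),(k7,k138)],[(k2,k48),(k0,k63),
    (k4,k71),(k6,k102)],[(k1,k57),(k10,k63),(k11,k63),(k8,k66)],[(k1,k54),(k10,k60),(k11,k60),(k8,k63)],[(k1,k54),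
    (k10,k60),(k11,k60),(k8,k63)]]
    [] k0
    [[k1,k0,k0,k0,k1,k0],[k1,k1,k0,k0,k1,k0],[k1,k0,k1,k0,k1,k0],[k1,k0,k0,k0,k1,k1],[k1,k1,k0,k0,k1,k1],[k0,k2,k0,k0,
    k0,k0],[k0,k1,k1,k0,k0,k0],[k0,k1,k2,k0,k0,k0],[k0,k0,k2,k0,k0,k0],[k0,k0,k3,k0,k0,k0],[k0,k0,k4,k0,k0,k0],[k0,k0,
    k0,k0,k0,k2],[k0,k0,k0,k0,k0,k3]]
    [.contra [y1,y1,y2,z2],.ref k17 k0 [(z1,[z0,z1]),(z1,[z1,y1]),(z1,[z0,y1,y1,z1])],.contra [y1,y1,y2,z2],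
    .contra [y1,z0,y1,z1],.ref k0 k1 [(z1,[z1])],.contra [z1],.ref k0 k0 [(z1,[y1,z0,z0,z1])],.ref k17 k1 [(z1,[z0,
    z1]),(z1,[y1,y2,y1,z2]),(z1,[z0,y1,y1,z1])],.contra [z1],.ref k15 k0 [(z1,[y1,y3,y3,z6])],.ref k16 k0 [(z2,[y1,y2,
    y4,z4]),(z1,[z0,z0,z1]),(z2,[z1])],.contra [z1,y2,y2,z2],.ref k15 k0 [(z1,[y1,z0,z0,z3])]]),
    .old (.leafM k8 [k0,k2,k4,k5] [(z1,[z0,z0,z1]),(z1,[y3,y3,y1,z3]),(z1,[z1])] [(k1,k3,z1,[z0,z1]),(k3,k1,z1,[z0,z1])]),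
    .old (.lp [k24,k50,k52,k60,k19,k30] [k18,k18,k5,k5,k4,k4,k0,k0,k18,k23,k15,k15] k0 [[k0,k0,k0,k0,k18],[k0,k0,k0,k0,k0,
    k0,k0,k17],[k0,k0,k0,k0,k0,k0,k8],[k0,k0,k0,k0,k0,k27],[k0,k0,k27],[k0,k18],[k17],[k0,k0,k0,k8]] k120 k6
    [[(k1,k24),(k8,k24),(k10,k27),(k11,k27)],[(k7,k24),(k9,k36),(k3,k37),(k5,k38)],[(k0,k37),(k6,k38),(k2,k50),(k4,
    k69)],[(k9,k24),(k3,k50),(k5,k51),(k7,k82)],[(k4,k25),(k0,k38),(k2,k51),(k6,k64)],[(k5,k25),(k9,k33),(k7,k56),(k3,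
    k69)],[(k0,k24),(k4,k56),(k6,k60),(k2,k82)],[(k9,k37),(k3,k38),(k7,k60),(k5,k64)],[(k2,k24),(k4,k33),(k0,k36),(k6,
    k37)],[(k1,k24),(k8,k24),(k10,k27),(k11,k27)],[(k1,k27),(k8,k27),(k10,k30),(k11,k30)],[(k1,k27),(k8,k27),(k10,
    k30),(k11,k30)]]
    [] k0
    [[k1,k0,k0,k0,k1,k0],[k1,k1,k0,k0,k1,k0],[k1,k1,k0,k1,k1,k0],[k1,k0,k1,k0,k1,k0],[k1,k0,k0,k1,k1,k0],[k1,k0,k0,k0,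
    k1,k1],[k1,k1,k0,k0,k1,k1],[k1,k0,k0,k1,k1,k1],[k0,k2,k0,k0,k0,k0],[k0,k0,k2,k0,k0,k0],[k0,k0,k3,k0,k0,k0],[k0,k0,
    k4,k0,k0,k0],[k0,k0,k0,k0,k0,k2],[k0,k0,k0,k0,k0,k3]]
    [.contra [y2,z2,z1],.contra [z1,y1],.contra [z2,y2,y1],.contra [z1,y1],.contra [y1,z1,z1],.contra [z1,y1],
    .ref k0 k1 [(z1,[z1])],.ref k0 k0 [(z1,[z1])],.contra [z1],.contra [z1],.ref k19 k0 [(z1,[z0,z1]),(z1,[z0,z0,z1]),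
    (z1,[z1])],.ref k18 k0 [(z2,[y1,y2,y4,z4]),(z1,[z0,z0,z1])],.contra [z1],.ref k15 k0 [(z1,[y1,z0,z0,z3])]]),
    .old (.lp [k52,k98,k80,k98,k90,k60] [k40,k40,k17,k17,k26,k26,k17,k17,k42,k0,k36,k36] k0 [[k0,k0,k0,k0,k0,k0,k44],[],
    [],[],[],[k0,k0,k0,k0,k0,k0,k0,k18],[k0,k0,k0,k0,k18],[k0,k44]] (nat_lit 240) k6
    [[(k8,k50),(k1,k52),(k10,k56),(k11,k56)],[(k9,k48),(k5,k66),(k3,k75),(k7,k75)],[(k0,k75),(k4,k89),(k2,k98),(k6,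
    k142)],[(k5,k89),(k3,k98),(k7,k98),(k9,k115)],[(k0,k66),(k4,k80),(k2,k89),(k6,k89)],[(k5,k80),(k3,k89),(k7,k89),
    (k9,k124)],[(k0,k75),(k6,k80),(k4,k89),(k2,k98)],[(k7,k80),(k5,k89),(k9,k115),(k3,k142)],[(k0,k48),(k2,k115),(k6,
    k115),(k4,k124)],[(k8,k48),(k1,k50),(k10,k54),(k11,k54)],[(k8,k54),(k1,k56),(k10,k60),(k11,k60)],[(k8,k54),(k1,
    k56),(k10,k60),(k11,k60)]]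
    [] k0
    [[k2,k0,k0,k0,k2,k0],[k1,k0,k0,k0,k1,k0],[k1,k0,k0,k0,k1,k1],[k1,k0,k0,k0,k1,k2],[k0,k2,k0,k0,k0,k0],[k0,k1,k1,k0,
    k0,k0],[k0,k0,k2,k0,k0,k0],[k0,k0,k1,k1,k0,k0],[k0,k0,k0,k2,k0,k0],[k0,k0,k0,k0,k0,k2],[k0,k0,k0,k0,k0,k3]]
    [.ref k20 k0 [(z2,[z1]),(z1,[z0,y1,z1])],.contra [y1,z1],.contra [y1,z1],.ref k18 k0 [(z1,[z1]),(z1,[z0,y1,z1])],
    .contra [z1],.ref k0 k0 [(z1,[y1,z0,z1])],.contra [z1],.ref k0 k1 [(z1,[y1,z0,z1])],.contra [y1,y2,z2],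
    .contra [z1],.ref k15 k0 [(z1,[y1,z0,z3])]]),
    .old (.lp [k32,k56,k32,k56,k32,k30] [k32,k32,k40,k0,k32,k32,k15,k25,k32,k32,k33,k33] k0 [[k0,k0,k8],[k0,k0,k0,k0,k0,
    k0,k0,k56],[],[k0,k8],[k0,k0,k0,k0,k0,k0,k8],[],[k56],[k0,k0,k0,k0,k0,k8]] k120 k6
    [[(k10,k31),(k11,k31),(k1,k32),(k8,k32)],[(k5,k24),(k7,k39),(k3,k64),(k9,k88)],[(k6,k25),(k0,k64),(k2,k64),(k4,
    k64)],[(k5,k24),(k9,k24),(k7,k31),(k3,k64)],[(k0,k24),(k2,k24),(k4,k32),(k6,k49)],[(k9,k24),(k5,k32),(k7,k39),(k3,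
    k64)],[(k2,k31),(k0,k39),(k4,k39),(k6,k64)],[(k3,k25),(k5,k49),(k9,k49),(k7,k64)],[(k2,k24),(k4,k24),(k6,k49),(k0,
    k88)],[(k10,k31),(k11,k31),(k1,k32),(k8,k32)],[(k10,k30),(k11,k30),(k1,k31),(k8,k31)],[(k10,k30),(k11,k30),(k1,
    k31),(k8,k31)]]
    [] k0
    [[k1,k0,k1,k0,k1,k0],[k1,k0,k2,k0,k1,k0],[k1,k0,k1,k0,k1,k1],[k0,k1,k1,k0,k0,k0],[k0,k1,k0,k1,k0,k0],[k0,k2,k0,k2,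
    k0,k0],[k0,k1,k1,k1,k0,k0],[k0,k0,k2,k0,k0,k0],[k0,k0,k3,k0,k0,k0],[k0,k0,k1,k1,k0,k0],[k0,k0,k0,k0,k0,k2],[k0,k0,
    k0,k0,k0,k3]]
    [.contra [z1,y1],.contra [z1,y1],.contra [y3,z3,z2,z1],.contra [y3,z0,z2,z1],.contra [z3,z3,z2,z1,y3],.contra [y3,
    y6,z2,y2,z6],.contra [y1,y1,z0,z0,z1],.contra [z1],.contra [y1,z0,z0,z1],.contra [y1,y1,z0,z0,z1],.contra [z1],
    .contra [y1,z0,z0,z1]]),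
    .old (.lp [(nat_lit 14140),(nat_lit 8080),(nat_lit 8080),(nat_lit 7070),(nat_lit 4848),(nat_lit 6060)] [k0,k0,
    (nat_lit 3636),(nat_lit 2424),(nat_lit 3030),(nat_lit 3030),(nat_lit 1615),(nat_lit 5455),(nat_lit 4646),
    (nat_lit 4646),(nat_lit 4040),(nat_lit 4040)] k0 [[k0,k0,(nat_lit 6262)],[k0,k0,k0,k0,k0,k0,k0,(nat_lit 5252)],
    [k0,k0,k0,k0,k0,k0,(nat_lit 1010)],[k0,(nat_lit 6262)],[k0,k0,k0,k0,k0,k0,(nat_lit 1010)],[],[(nat_lit 5252)],[k0,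
    k0,k0,(nat_lit 1010),k0,(nat_lit 1010)]] (nat_lit 24240) k6
    [[(k8,(nat_lit 9494)),(k10,(nat_lit 10100)),(k11,(nat_lit 10100)),(k1,(nat_lit 14140))],[(k5,(nat_lit 4848)),(k7,
    (nat_lit 8685)),(k3,(nat_lit 11716)),(k9,(nat_lit 14746))],[(k6,(nat_lit 4849)),(k4,(nat_lit 8686)),(k0,
    (nat_lit 11716)),(k2,(nat_lit 14342))],[(k9,(nat_lit 4848)),(k7,(nat_lit 5049)),(k5,(nat_lit 7474)),(k3,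
    (nat_lit 14342))],[(k0,(nat_lit 4848)),(k2,(nat_lit 7474)),(k4,(nat_lit 8080)),(k6,(nat_lit 10505))],[(k9,
    (nat_lit 5454)),(k7,(nat_lit 5655)),(k5,(nat_lit 8080)),(k3,(nat_lit 8686))],[(k2,(nat_lit 5049)),(k4,
    (nat_lit 5655)),(k6,(nat_lit 8080)),(k0,(nat_lit 8685))],[(k3,(nat_lit 4849)),(k9,(nat_lit 7879)),(k7,
    (nat_lit 8080)),(k5,(nat_lit 10505))],[(k2,(nat_lit 4848)),(k4,(nat_lit 5454)),(k6,(nat_lit 7879)),(k0,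
    (nat_lit 14746))],[(k8,(nat_lit 4848)),(k10,(nat_lit 5454)),(k11,(nat_lit 5454)),(k1,(nat_lit 9494))],[(k8,
    (nat_lit 5454)),(k10,(nat_lit 6060)),(k11,(nat_lit 6060)),(k1,(nat_lit 10100))],[(k8,(nat_lit 5454)),(k10,
    (nat_lit 6060)),(k11,(nat_lit 6060)),(k1,(nat_lit 10100))]]
    [] k0
    [[k1,k0,k1,k0,k1,k0],[k0,k1,k1,k0,k0,k0],[k0,k1,k0,k1,k0,k0],[k0,k2,k0,k2,k0,k0],[k0,k1,k1,k1,k0,k0],[k0,k1,k0,k2,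
    k0,k0],[k0,k0,k2,k0,k0,k0],[k0,k0,k1,k1,k0,k0],[k0,k0,k0,k2,k0,k0],[k0,k0,k0,k0,k0,k2],[k0,k0,k0,k0,k0,k3]]
    [.contra [z1,y1],.contra [y1,y1,z0,z1],.contra [y1,z0,z1],.contra [y1,z0,z2],.contra [y1,y1,z0,z1],
    .ref k22 k0 [(z1,[z0,z1]),(z1,[y1,z0,z2]),(z1,[y1,y3,y1,z3])],.contra [z1],.contra [y1,y1,z0,z1],.contra [z1],
    .contra [z1],.ref k15 k0 [(z1,[y1,z0,z0,z3])]]),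
    .old (.leafM k12 [k1,k2,k3,k5] [(z1,[z0,z0,z1]),(z1,[y2,y2,y1,z2]),(z1,[z0,z1])] [(k4,k0,z1,[z1]),(k0,k4,z1,[z1])]),
    .old (.leafM k11 [k1,k2,k3,k5] [(z1,[z0,z0,z1]),(z1,[y3,y3,y1,z3]),(z1,[z0,z1])] [(k4,k0,z1,[z1]),(k0,k4,z1,[z1])]),
    .old (.lp [(nat_lit 1380),(nat_lit 1980),(nat_lit 1080),(nat_lit 1980),(nat_lit 966),(nat_lit 828)] [(nat_lit 944),
    (nat_lit 944),(nat_lit 1288),k0,(nat_lit 1094),(nat_lit 1094),(nat_lit 644),(nat_lit 644),(nat_lit 1151),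
    (nat_lit 1151),(nat_lit 1220),(nat_lit 1220)] k0 [[],[k0,k0,k0,k0,k0,k0,k0,(nat_lit 1794)],[],[],[k0,k0,k0,k0,k0,
    k0,k92],[],[(nat_lit 1794)],[k0,k0,k0,k0,k0,k92]] (nat_lit 4140) k6
    [[(k10,(nat_lit 1104)),(k11,(nat_lit 1104)),(k8,(nat_lit 1173)),(k1,(nat_lit 1380))],[(k5,(nat_lit 1230)),(k7,
    (nat_lit 1680)),(k3,(nat_lit 2324)),(k9,(nat_lit 2967))],[(k6,(nat_lit 830)),(k2,(nat_lit 1980)),(k4,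
    (nat_lit 2174)),(k0,(nat_lit 2324))],[(k9,(nat_lit 829)),(k5,(nat_lit 886)),(k7,(nat_lit 1336)),(k3,
    (nat_lit 1980))],[(k2,(nat_lit 886)),(k4,(nat_lit 1080)),(k0,(nat_lit 1230)),(k6,(nat_lit 1530))],[(k9,
    (nat_lit 931)),(k5,(nat_lit 1080)),(k7,(nat_lit 1530)),(k3,(nat_lit 2174))],[(k2,(nat_lit 1336)),(k4,
    (nat_lit 1530)),(k0,(nat_lit 1680)),(k6,(nat_lit 2072))],[(k3,(nat_lit 830)),(k9,(nat_lit 1473)),(k5,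
    (nat_lit 1530)),(k7,(nat_lit 2072))],[(k2,(nat_lit 829)),(k4,(nat_lit 931)),(k6,(nat_lit 1473)),(k0,
    (nat_lit 2967))],[(k10,(nat_lit 897)),(k11,(nat_lit 897)),(k8,(nat_lit 966)),(k1,(nat_lit 1173))],[(k10,
    (nat_lit 828)),(k11,(nat_lit 828)),(k8,(nat_lit 897)),(k1,(nat_lit 1104))],[(k10,(nat_lit 828)),(k11,
    (nat_lit 828)),(k8,(nat_lit 897)),(k1,(nat_lit 1104))]]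
    [] k0
    [[k1,k0,k1,k0,k1,k0],[k0,k2,k0,k0,k0,k0],[k0,k1,k1,k0,k0,k0],[k0,k1,k0,k1,k0,k0],[k0,k1,k1,k1,k0,k0],[k0,k0,k2,k0,
    k0,k0],[k0,k0,k3,k0,k0,k0],[k0,k0,k1,k1,k0,k0],[k0,k0,k0,k0,k0,k2],[k0,k0,k0,k0,k0,k3],[k0,k0,k0,k0,k0,k4]]
    [.contra [y1,z0,y1,z1],.contra [z1],.contra [y1,y1,z0,z1],.contra [y1,z0,z2],.contra [z1,z0,y1],.contra [z1],
    .ref k25 k0 [(z1,[z0,z1]),(z1,[z0,z0,z1]),(z1,[z1])],.contra [y1,y1,z0,z1],.contra [z1],.ref k15 k0 [(z1,[y1,z0,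
    z0,z3])],.ref k24 k0 [(z1,[z0,z1]),(z1,[z0,z0,z1]),(z2,[y1,y4,y4,z4])]]),
    .old (.lp [k43,k60,k20,k60,k26,k30] [k20,k27,k30,k0,k35,k35,k15,k15,k33,k31,k30,k30] k0 [[k0,k0,k11],[k0,k0,k0,k0,k0,
    k0,k0,k51],[k0,k0,k0,k0,k20],[k0,k11],[],[k0,k0,k0,k20],[k51]] k120 k6
    [[(k8,k30),(k10,k33),(k11,k33),(k1,k36)],[(k5,k24),(k7,k55),(k3,k70),(k9,k90)],[(k6,k24),(k4,k55),(k0,k70),(k2,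
    k71)],[(k5,k25),(k7,k25),(k9,k29),(k3,k71)],[(k0,k24),(k2,k25),(k4,k40),(k6,k40)],[(k9,k24),(k5,k40),(k7,k40),(k3,
    k55)],[(k2,k25),(k4,k40),(k0,k55),(k6,k60)],[(k3,k24),(k5,k40),(k9,k44),(k7,k60)],[(k4,k24),(k2,k29),(k6,k44),(k0,
    k90)],[(k8,k24),(k10,k27),(k11,k27),(k1,k30)],[(k8,k27),(k10,k30),(k11,k30),(k1,k33)],[(k8,k27),(k10,k30),(k11,
    k30),(k1,k33)]]
    [] k0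
    [[k1,k0,k1,k0,k1,k0],[k1,k0,k2,k0,k1,k0],[k1,k0,k1,k0,k1,k1],[k0,k1,k1,k0,k0,k0],[k0,k1,k0,k1,k0,k0],[k0,k2,k0,k2,
    k0,k0],[k0,k1,k1,k1,k0,k0],[k0,k1,k0,k2,k0,k0],[k0,k0,k2,k0,k0,k0],[k0,k0,k1,k1,k0,k0],[k0,k0,k0,k0,k0,k2],[k0,k0,
    k0,k0,k0,k3]]
    [.contra [z1,y1],.contra [z1,y1],.contra [z1,y1],.contra [y1,y1,z1],.contra [y1,y1,z1],.ref k26 k0 [(z1,[z0,z1]),
    (z2,[z1])],.contra [y1,y1,z1],.ref k23 k1 [(z1,[z0,z1]),(z1,[z1])],.contra [z1],.contra [y1,y1,z1],.contra [z1],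
    .ref k15 k0 [(z1,[y1,z0,z3])]]),
    .old (.lp [k10,k8,k8,k8,k6,k6] [k0,k0,k1,k1,k1,k1,k1,k1,k2,k2,k2,k2] k0 [] k24 k5
    [[(k8,k8),(k10,k8),(k11,k8),(k1,k10)],[(k9,k8),(k3,k9),(k5,k9),(k7,k9)],[(k2,k8),(k4,k8),(k6,k8),(k0,k9)],[(k9,
    k7),(k3,k8),(k5,k8),(k7,k8)],[(k2,k8),(k4,k8),(k6,k8),(k0,k9)],[(k9,k7),(k3,k8),(k5,k8),(k7,k8)],[(k2,k8),(k4,k8),
    (k6,k8),(k0,k9)],[(k9,k7),(k3,k8),(k5,k8),(k7,k8)],[(k2,k7),(k4,k7),(k6,k7),(k0,k8)],[(k8,k6),(k10,k6),(k11,k6),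
    (k1,k8)],[(k8,k6),(k10,k6),(k11,k6),(k1,k8)],[(k8,k6),(k10,k6),(k11,k6),(k1,k8)]]
    [] k0
    [[k1,k0,k0,k0,k1,k0],[k1,k0,k0,k0,k1,k1],[k0,k2,k0,k0,k0,k0],[k0,k1,k1,k0,k0,k0],[k0,k1,k0,k1,k0,k0],[k0,k0,k2,k0,
    k0,k0],[k0,k0,k1,k1,k0,k0],[k0,k0,k0,k2,k0,k0],[k0,k0,k0,k0,k0,k2],[k0,k0,k0,k0,k0,k3]]
    [.ref k27 k0 [(z1,[z1])],.ref k1 k0 [(z1,[z1])],.contra [z1],.ref k0 k0 [(z1,[y1,z1])],.ref k21 k0 [(z1,[y1,z1])],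
    .contra [z1],.ref k0 k1 [(z1,[y1,z1])],.contra [z1],.contra [z1],.ref k15 k0 [(z1,[y1,z3])]])]⟩

/-- classes `0 0 0 0 1 1`, types `C0 C0 C0 C2 B0 B1` -/
noncomputable def cU6_98 : CertX :=
  ⟨[k4,k4,k4,k6,k24,k25],[(false,k0,[k0,k1,k2,k3,k4,k5])],[[[([z1,z0,z0,z1,z1,z1],z2)],[]]],
    [.old (.leafM k1 [k0,k3,k4,k5] [] [(k1,k2,z1,[y1,z1]),(k2,k1,z1,[y1,z1])]),
    .old (.lp [k22,k20,k19,k28,k10,k20] [k5,k5,k6,k6,k11,k2,k4,k0,k11,k11,k6,k6] k0 [[k0,k0,k10],[],[k0,k0,k0,k0,k11],[k0,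
    k10],[],[k0,k0,k0,k11]] k60 k5
    [[(k8,k16),(k11,k21)],[(k5,k15),(k3,k21),(k6,k23),(k7,k27)],[(k4,k15),(k9,k15),(k0,k21),(k2,k30)],[(k7,k15),(k6,
    k22),(k5,k24),(k3,k30)],[(k0,k15),(k9,k19),(k2,k24),(k4,k30)],[(k3,k15),(k6,k17),(k7,k21),(k5,k30)],[(k2,k15),(k4,
    k21),(k9,k21),(k0,k27)],[(k4,k17),(k9,k17),(k2,k22),(k0,k23)],[(k3,k15),(k6,k17),(k5,k19),(k7,k21)],[(k10,k15),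
    (k1,k16)],[(k10,k20),(k1,k21)],[(k8,k15),(k11,k20)]]
    [] k0
    [[k0,k1,k1,k0,k0,k0],[k0,k0,k0,k0,k0,k2]]
    [.ref k0 k0 [(z1,[y1,z1])],.contra [z1]])]⟩

/-- classes `0 0 0 0 1 1`, types `C0 C0 C0 C2 C0 C0` -/
noncomputable def cU6_99 : CertX :=
  ⟨[k4,k4,k4,k6,k20,k20],[(false,k0,[k0,k1,k2,k3,k4,k5])],[[[([z1,z0,z0,z1,z1,z1],z2)],[]]],
    [.old (.leafM k0 [k0,k3,k4,k5] [] [(k1,k2,z1,[y1,z1]),(k2,k1,z1,[y1,z1])]),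
    .old (.lp [(nat_lit 816),(nat_lit 680),(nat_lit 646),(nat_lit 884),(nat_lit 340),(nat_lit 680)] [k136,k136,
    (nat_lit 204),(nat_lit 204),(nat_lit 341),k101,(nat_lit 204),k0,(nat_lit 374),(nat_lit 374),(nat_lit 204),
    (nat_lit 204)] k0 [[k0,k0,(nat_lit 340)],[],[k0,k0,k0,k0,(nat_lit 374)],[k0,(nat_lit 340)],[],[k0,k0,k0,
    (nat_lit 374)]] (nat_lit 2040) k5
    [[(k8,(nat_lit 578)),(k10,(nat_lit 748))],[(k5,(nat_lit 511)),(k3,(nat_lit 748)),(k6,(nat_lit 748)),(k7,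
    (nat_lit 952))],[(k9,(nat_lit 510)),(k4,(nat_lit 543)),(k0,(nat_lit 748)),(k2,(nat_lit 1020))],[(k7,
    (nat_lit 510)),(k6,(nat_lit 680)),(k5,(nat_lit 783)),(k3,(nat_lit 1020))],[(k0,(nat_lit 511)),(k9,(nat_lit 613)),
    (k2,(nat_lit 783)),(k4,(nat_lit 1020))],[(k3,(nat_lit 543)),(k6,(nat_lit 543)),(k7,(nat_lit 747)),(k5,
    (nat_lit 1020))],[(k2,(nat_lit 510)),(k9,(nat_lit 714)),(k4,(nat_lit 747)),(k0,(nat_lit 952))],[(k9,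
    (nat_lit 510)),(k4,(nat_lit 543)),(k2,(nat_lit 680)),(k0,(nat_lit 748))],[(k3,(nat_lit 510)),(k6,(nat_lit 510)),
    (k5,(nat_lit 613)),(k7,(nat_lit 714))],[(k11,(nat_lit 510)),(k1,(nat_lit 578))],[(k8,(nat_lit 510)),(k10,
    (nat_lit 680))],[(k11,(nat_lit 680)),(k1,(nat_lit 748))]]
    [] k0
    [[k0,k1,k1,k0,k0,k0],[k0,k0,k0,k0,k0,k2]]
    [.ref k0 k0 [(z1,[y1,z1])],.contra [z1]])]⟩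

/-- classes `0 0 0 0 1 1`, types `C0 C0 C0 C2 C0 C2` -/
noncomputable def cU6_100 : CertX :=
  ⟨[k4,k4,k4,k6,k20,k22],[(false,k0,[k0,k1,k2,k3,k4,k5])],[[[([z1,z0,z0,z1,z1,z1],z2)],[]]],
    [.old (.leafM k0 [k0,k3,k4,k5] [] [(k1,k2,z1,[y1,z1]),(k2,k1,z1,[y1,z1])]),
    .old (.lp [k4,k4,k6,k2,k4,k2] [k1,k1,k1,k1,k0,k0,k2,k2,k1,k1,k2,k2] k0 [[k0,k0,k2],[],[],[k0,k2]] k12 k5
    [[(k10,k3),(k11,k3)],[(k5,k3),(k6,k3),(k7,k3),(k3,k4)],[(k0,k4),(k9,k4),(k4,k5),(k2,k6)],[(k6,k3),(k7,k3),(k5,k5),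
    (k3,k6)],[(k0,k3),(k2,k5),(k9,k5),(k4,k6)],[(k6,k4),(k7,k4),(k3,k5),(k5,k6)],[(k0,k3),(k2,k3),(k9,k3),(k4,k4)],
    [(k0,k3),(k2,k3),(k9,k3),(k4,k4)],[(k6,k3),(k7,k3),(k3,k4),(k5,k5)],[(k10,k3),(k11,k3)],[(k1,k3),(k8,k3)],[(k1,
    k3),(k8,k3)]]
    [] k0
    [[k0,k1,k1,k0,k0,k0]]
    [.ref k0 k0 [(z1,[y1,z1])]])]⟩

/-- classes `0 0 0 0 1 1`, types `C0 C0 C0 C2 N0 N1` -/
noncomputable def cU6_101 : CertX :=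
  ⟨[k4,k4,k4,k6,k28,k29],[(false,k0,[k0,k1,k2,k3,k4,k5])],[[[([z1,z0,z0,z1,z1,z1],z2)],[]]],
    [.old (.lp [k12,k30,k30,k12,k12,k20] [k9,k9,k0,k0,k0,k0,k9,k9,k9,k9,k5,k5] k0 [] k60 k6
    [[(k8,k12)],[(k6,k12),(k7,k12),(k3,k21),(k5,k21)],[(k0,k21),(k9,k21),(k2,k30),(k4,k30)],[(k6,k21),(k7,k21),(k3,
    k30),(k5,k30)],[(k0,k21),(k9,k21),(k2,k30),(k4,k30)],[(k6,k21),(k7,k21),(k3,k30),(k5,k30)],[(k0,k12),(k9,k12),(k2,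
    k21),(k4,k21)],[(k0,k12),(k9,k12),(k2,k21),(k4,k21)],[(k6,k12),(k7,k12),(k3,k21),(k5,k21)],[(k1,k12)],[(k10,k20)],
    [(k11,k20)]]
    [] k0
    [[k1,k0,k0,k1,k1,k0],[k0,k0,k0,k0,k0,k2]]
    [.contra [y1,z1],.contra [z1]]),
    .old (.lp [(nat_lit 4770),(nat_lit 4770),(nat_lit 3498),(nat_lit 6360),(nat_lit 1590),(nat_lit 4240)] [(nat_lit 1275),
    (nat_lit 1275),(nat_lit 1275),(nat_lit 1275),(nat_lit 2547),(nat_lit 1275),(nat_lit 960),k0,(nat_lit 2865),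
    (nat_lit 2865),(nat_lit 1540),(nat_lit 1540)] k0 [[k0,k0,(nat_lit 1590)],[],[k0,k0,k0,k0,(nat_lit 2862)],[k0,
    (nat_lit 1590)],[],[k0,k0,k0,(nat_lit 2862)]] (nat_lit 12720) k5
    [[(k8,(nat_lit 3180))],[(k5,(nat_lit 3180)),(k3,(nat_lit 4770)),(k6,(nat_lit 5085)),(k7,(nat_lit 6045))],[(k9,
    (nat_lit 3180)),(k4,(nat_lit 3498)),(k0,(nat_lit 4770)),(k2,(nat_lit 6360))],[(k7,(nat_lit 3183)),(k5,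
    (nat_lit 4770)),(k6,(nat_lit 5085)),(k3,(nat_lit 6360))],[(k0,(nat_lit 3180)),(k9,(nat_lit 3180)),(k2,
    (nat_lit 4770)),(k4,(nat_lit 6360))],[(k3,(nat_lit 3498)),(k6,(nat_lit 3813)),(k7,(nat_lit 4773)),(k5,
    (nat_lit 6360))],[(k2,(nat_lit 3183)),(k9,(nat_lit 4455)),(k4,(nat_lit 4773)),(k0,(nat_lit 6045))],[(k9,
    (nat_lit 3495)),(k4,(nat_lit 3813)),(k0,(nat_lit 5085)),(k2,(nat_lit 5085))],[(k3,(nat_lit 3180)),(k5,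
    (nat_lit 3180)),(k6,(nat_lit 3495)),(k7,(nat_lit 4455))],[(k1,(nat_lit 3180))],[(k10,(nat_lit 4240))],[(k11,
    (nat_lit 4240))]]
    [] k0
    [[k0,k1,k1,k0,k0,k0],[k0,k0,k0,k0,k0,k2]]
    [.ref k0 k0 [(z1,[y1,z1])],.contra [z1]])]⟩

/-- classes `0 0 0 0 1 1`, types `C0 C0 C0 C2 N0 N2` -/
noncomputable def cU6_102 : CertX :=
  ⟨[k4,k4,k4,k6,k28,k30],[(false,k0,[k0,k1,k2,k3,k4,k5])],[[[([z1,z0,z0,z1,z1,z1],z2)],[]]],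
    [.old (.leafM k1 [k0,k3,k4,k5] [] [(k1,k2,z1,[y1,z1]),(k2,k1,z1,[y1,z1])]),
    .old (.lp [k4,k4,k6,k2,k4,k2] [k1,k1,k1,k1,k0,k0,k2,k2,k1,k1,k2,k2] k0 [[k0,k0,k2],[],[],[k0,k2]] k12 k5
    [[(k11,k3)],[(k5,k3),(k6,k3),(k7,k3),(k3,k4)],[(k0,k4),(k9,k4),(k4,k5),(k2,k6)],[(k6,k3),(k7,k3),(k5,k5),(k3,k6)],
    [(k0,k3),(k2,k5),(k9,k5),(k4,k6)],[(k6,k4),(k7,k4),(k3,k5),(k5,k6)],[(k0,k3),(k2,k3),(k9,k3),(k4,k4)],[(k0,k3),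
    (k2,k3),(k9,k3),(k4,k4)],[(k6,k3),(k7,k3),(k3,k4),(k5,k5)],[(k10,k3)],[(k1,k3)],[(k8,k3)]]
    [] k0
    [[k0,k1,k1,k0,k0,k0]]
    [.ref k0 k0 [(z1,[y1,z1])]])]⟩

/-- classes `0 0 0 0 1 1`, types `C0 C0 C0 C2 S0 S0` -/
noncomputable def cU6_103 : CertX :=
  ⟨[k4,k4,k4,k6,k16,k16],[(false,k0,[k0,k1,k2,k3,k4,k5])],[[[([z1,z0,z0,z1,z1,z1],z2)],[]]],
    [.old (.leafM k0 [k0,k3,k4,k5] [] [(k1,k2,z1,[y1,z1]),(k2,k1,z1,[y1,z1])]),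
    .old (.lp [k18,k30,k9,k24,k18,k20] [k6,k6,k0,k0,k12,k9,k3,k3,k6,k6,k5,k5] k0 [[],[],[k0,k0,k0,k0,k12],[],[],[k0,k0,k0,
    k12]] k60 k5
    [[(k1,k18),(k8,k18),(k10,k19),(k11,k19)],[(k5,k15),(k6,k21),(k7,k21),(k3,k24)],[(k4,k18),(k0,k24),(k9,k24),(k2,
    k30)],[(k7,k15),(k5,k21),(k6,k27),(k3,k30)],[(k0,k15),(k9,k15),(k2,k21),(k4,k21)],[(k6,k15),(k7,k15),(k3,k18),(k5,
    k21)],[(k2,k15),(k4,k15),(k0,k21),(k9,k21)],[(k4,k15),(k0,k21),(k9,k21),(k2,k27)],[(k5,k15),(k6,k21),(k7,k21),(k3,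
    k24)],[(k1,k18),(k8,k18),(k10,k19),(k11,k19)],[(k1,k19),(k8,k19),(k10,k20),(k11,k20)],[(k1,k19),(k8,k19),(k10,
    k20),(k11,k20)]]
    [] k0
    [[k0,k1,k1,k0,k0,k0],[k0,k0,k2,k0,k0,k0],[k0,k0,k0,k0,k0,k2]]
    [.ref k0 k0 [(z1,[y1,z1])],.contra [z1],.contra [z1]])]⟩

/-- classes `0 0 0 0 1 1`, types `C0 C0 C2 C0 B0 B1` -/
noncomputable def cU6_104 : CertX :=
  ⟨[k4,k4,k6,k4,k24,k25],[(false,k0,[k0,k1,k2,k3,k4,k5])],[[[([z1,z1,z0,z0,z1,z1],z2)],[([z1,z0,z0,z0,z1,z1],z2)],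
    []]],
    [.old (.leafM k1 [k0,k1,k4,k5] [] [(k2,k3,z1,[y1,z1]),(k3,k2,z1,[y1,z1])]),
    .old (.leafM k4 [k4,k5,k0,k1,k2,k3] [(z1,[y1,z1])] []),
    .old (.lp [(nat_lit 21840),(nat_lit 11970),(nat_lit 1330),(nat_lit 15200),(nat_lit 2128),(nat_lit 10640)] [k0,k0,
    (nat_lit 4935),(nat_lit 4935),(nat_lit 10255),(nat_lit 10255),(nat_lit 1990),(nat_lit 4650),(nat_lit 9856),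
    (nat_lit 9856),(nat_lit 5600),(nat_lit 5600)] k0 [[k0,k0,(nat_lit 3990)],[k0,k0,k0,k0,k0,k0,k0,(nat_lit 7980)],[],
    [k0,(nat_lit 3990)],[],[],[(nat_lit 7980)]] (nat_lit 31920) k6
    [[(k8,(nat_lit 11984)),(k11,(nat_lit 16240))],[(k5,(nat_lit 7595)),(k4,(nat_lit 11585)),(k3,(nat_lit 16905)),(k9,
    (nat_lit 19964))],[(k6,(nat_lit 6935)),(k7,(nat_lit 12255)),(k2,(nat_lit 15960)),(k0,(nat_lit 16905))],[(k4,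
    (nat_lit 6650)),(k5,(nat_lit 6650)),(k9,(nat_lit 7049)),(k3,(nat_lit 15960))],[(k2,(nat_lit 6650)),(k7,
    (nat_lit 6935)),(k0,(nat_lit 7595)),(k6,(nat_lit 9595))],[(k2,(nat_lit 6650)),(k7,(nat_lit 6935)),(k6,
    (nat_lit 9595)),(k0,(nat_lit 11585))],[(k4,(nat_lit 6935)),(k5,(nat_lit 6935)),(k9,(nat_lit 7334)),(k3,
    (nat_lit 12255))],[(k3,(nat_lit 6935)),(k4,(nat_lit 9595)),(k5,(nat_lit 9595)),(k9,(nat_lit 9994))],[(k2,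
    (nat_lit 7049)),(k7,(nat_lit 7334)),(k6,(nat_lit 9994)),(k0,(nat_lit 19964))],[(k10,(nat_lit 6384)),(k1,
    (nat_lit 11984))],[(k10,(nat_lit 10640)),(k1,(nat_lit 16240))],[(k8,(nat_lit 6384)),(k11,(nat_lit 10640))]]
    [] k0
    [[k0,k1,k1,k1,k0,k0],[k0,k0,k1,k1,k0,k0],[k0,k0,k0,k0,k0,k2]]
    [.ref k1 k0 [(z1,[y1,z1])],.ref k0 k0 [(z1,[y1,z1])],.contra [z1]])]⟩

/-- classes `0 0 0 0 1 1`, types `C0 C0 C2 C0 C0 C0` -/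
noncomputable def cU6_105 : CertX :=
  ⟨[k4,k4,k6,k4,k20,k20],[(false,k0,[k0,k1,k2,k3,k4,k5])],[[[([z1,z1,z0,z0,z1,z1],z2)],[([z1,z0,z0,z0,z1,z1],z2)],
    []]],
    [.old (.leafM k0 [k0,k1,k4,k5] [] [(k2,k3,z1,[y1,z1]),(k3,k2,z1,[y1,z1])]),
    .old (.leafM k0 [k0,k1,k2,k3,k4,k5] [(z1,[y1,z1])] []),
    .old (.lp [(nat_lit 21840),(nat_lit 11970),(nat_lit 1330),(nat_lit 15200),(nat_lit 2128),(nat_lit 10640)] [k0,k0,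
    (nat_lit 4935),(nat_lit 4935),(nat_lit 10255),(nat_lit 10255),(nat_lit 1990),(nat_lit 4650),(nat_lit 9856),
    (nat_lit 9856),(nat_lit 5600),(nat_lit 5600)] k0 [[k0,k0,(nat_lit 3990)],[k0,k0,k0,k0,k0,k0,k0,(nat_lit 7980)],[],
    [k0,(nat_lit 3990)],[],[],[(nat_lit 7980)]] (nat_lit 31920) k6
    [[(k8,(nat_lit 11984)),(k10,(nat_lit 16240))],[(k5,(nat_lit 7595)),(k4,(nat_lit 11585)),(k3,(nat_lit 16905)),(k9,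
    (nat_lit 19964))],[(k6,(nat_lit 6935)),(k7,(nat_lit 12255)),(k2,(nat_lit 15960)),(k0,(nat_lit 16905))],[(k4,
    (nat_lit 6650)),(k5,(nat_lit 6650)),(k9,(nat_lit 7049)),(k3,(nat_lit 15960))],[(k2,(nat_lit 6650)),(k7,
    (nat_lit 6935)),(k0,(nat_lit 7595)),(k6,(nat_lit 9595))],[(k2,(nat_lit 6650)),(k7,(nat_lit 6935)),(k6,
    (nat_lit 9595)),(k0,(nat_lit 11585))],[(k4,(nat_lit 6935)),(k5,(nat_lit 6935)),(k9,(nat_lit 7334)),(k3,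
    (nat_lit 12255))],[(k3,(nat_lit 6935)),(k4,(nat_lit 9595)),(k5,(nat_lit 9595)),(k9,(nat_lit 9994))],[(k2,
    (nat_lit 7049)),(k7,(nat_lit 7334)),(k6,(nat_lit 9994)),(k0,(nat_lit 19964))],[(k11,(nat_lit 6384)),(k1,
    (nat_lit 11984))],[(k8,(nat_lit 6384)),(k10,(nat_lit 10640))],[(k11,(nat_lit 10640)),(k1,(nat_lit 16240))]]
    [] k0
    [[k0,k1,k1,k1,k0,k0],[k0,k0,k1,k1,k0,k0],[k0,k0,k0,k0,k0,k2]]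
    [.ref k1 k0 [(z1,[y1,z1])],.ref k0 k0 [(z1,[y1,z1])],.contra [z1]])]⟩

/-- classes `0 0 0 0 1 1`, types `C0 C0 C2 C0 C0 C2` -/
noncomputable def cU6_106 : CertX :=
  ⟨[k4,k4,k6,k4,k20,k22],[(false,k0,[k0,k1,k2,k3,k4,k5])],[[[([z1,z1,z0,z0,z1,z1],z2)],[([z1,z0,z0,z0,z1,z1],z2)],
    []]],
    [.old (.leafM k0 [k0,k1,k4,k5] [] [(k2,k3,z1,[y1,z1]),(k3,k2,z1,[y1,z1])]),
    .old (.leafM k0 [k0,k1,k2,k3,k4,k5] [(z1,[y1,z1])] []),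
    .old (.lp [k2,k4,k2,k2,k2,k2] [k1,k1,k0,k0,k1,k1,k1,k1,k1,k1,k1,k1] k0 [] k8 k5
    [[(k10,k2),(k11,k2)],[(k4,k2),(k5,k2),(k9,k2),(k3,k3)],[(k0,k3),(k6,k3),(k7,k3),(k2,k4)],[(k4,k3),(k5,k3),(k9,k3),
    (k3,k4)],[(k0,k2),(k6,k2),(k7,k2),(k2,k3)],[(k0,k2),(k6,k2),(k7,k2),(k2,k3)],[(k4,k2),(k5,k2),(k9,k2),(k3,k3)],
    [(k4,k2),(k5,k2),(k9,k2),(k3,k3)],[(k0,k2),(k6,k2),(k7,k2),(k2,k3)],[(k10,k2),(k11,k2)],[(k1,k2),(k8,k2)],[(k1,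
    k2),(k8,k2)]]
    [] k0
    [[k1,k0,k0,k0,k1,k1],[k0,k0,k1,k1,k0,k0]]
    [.ref k1 k0 [(z1,[z1])],.ref k0 k0 [(z1,[y1,z1])]])]⟩

/-- classes `0 0 0 0 1 1`, types `C0 C0 C2 C0 N0 N1` -/
noncomputable def cU6_107 : CertX :=
  ⟨[k4,k4,k6,k4,k28,k29],[(false,k0,[k0,k1,k2,k3,k4,k5])],[[[([z1,z1,z0,z0,z1,z1],z2)],[([z1,z0,z0,z0,z1,z0],z2)],
    []]],
    [.old (.lp [(nat_lit 13800),(nat_lit 13800),(nat_lit 37950),(nat_lit 22770),(nat_lit 10560),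
    (nat_lit 20240)] [(nat_lit 15111),(nat_lit 15111),(nat_lit 15111),(nat_lit 15111),(nat_lit 6072),k0,
    (nat_lit 10626),(nat_lit 10626),(nat_lit 16731),(nat_lit 16731),(nat_lit 11891),(nat_lit 11891)] k0 [[k0,k0,
    (nat_lit 16560)],[k0,k0,k0,k0,k0,k0,k0,(nat_lit 6072)],[],[k0,(nat_lit 16560)],[],[],
    [(nat_lit 6072)]] (nat_lit 60720) k6
    [[(k8,(nat_lit 12180))],[(k5,(nat_lit 12351)),(k3,(nat_lit 13800)),(k9,(nat_lit 18252)),(k4,(nat_lit 22839))],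
    [(k6,(nat_lit 12213)),(k0,(nat_lit 13800)),(k7,(nat_lit 18285)),(k2,(nat_lit 30360))],[(k9,(nat_lit 12180)),(k4,
    (nat_lit 22839)),(k5,(nat_lit 28911)),(k3,(nat_lit 30360))],[(k0,(nat_lit 12351)),(k2,(nat_lit 28911)),(k6,
    (nat_lit 33396)),(k7,(nat_lit 33396))],[(k0,(nat_lit 22839)),(k2,(nat_lit 22839)),(k6,(nat_lit 27324)),(k7,
    (nat_lit 27324))],[(k9,(nat_lit 16665)),(k3,(nat_lit 18285)),(k4,(nat_lit 27324)),(k5,(nat_lit 33396))],[(k3,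
    (nat_lit 12213)),(k9,(nat_lit 16665)),(k4,(nat_lit 27324)),(k5,(nat_lit 33396))],[(k2,(nat_lit 12180)),(k6,
    (nat_lit 16665)),(k7,(nat_lit 16665)),(k0,(nat_lit 18252))],[(k1,(nat_lit 12180))],[(k10,(nat_lit 20240))],[(k11,
    (nat_lit 20240))]]
    [] k0
    [[k1,k0,k0,k0,k1,k0],[k1,k1,k0,k0,k1,k0],[k0,k0,k0,k0,k0,k2]]
    [.contra [y1,z1],.contra [y1,z1],.contra [z1]]),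
    .old (.lp [(nat_lit 2688),(nat_lit 1386),k154,(nat_lit 1760),k154,(nat_lit 1232)] [k0,k0,(nat_lit 651),(nat_lit 651),
    (nat_lit 1267),(nat_lit 1267),(nat_lit 310),(nat_lit 618),(nat_lit 1267),(nat_lit 1267),(nat_lit 728),
    (nat_lit 728)] k0 [[k0,k0,(nat_lit 462)],[k0,k0,k0,k0,k0,k0,k0,(nat_lit 924)],[],[k0,(nat_lit 462)],[],[],
    [(nat_lit 924)]] (nat_lit 3696) k6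
    [[(k8,(nat_lit 1421))],[(k5,(nat_lit 959)),(k4,(nat_lit 1421)),(k3,(nat_lit 2037)),(k9,(nat_lit 2345))],[(k6,
    (nat_lit 803)),(k7,(nat_lit 1419)),(k2,(nat_lit 1848)),(k0,(nat_lit 2037))],[(k4,(nat_lit 770)),(k5,
    (nat_lit 770)),(k9,(nat_lit 770)),(k3,(nat_lit 1848))],[(k2,(nat_lit 770)),(k7,(nat_lit 803)),(k0,(nat_lit 959)),
    (k6,(nat_lit 1111))],[(k2,(nat_lit 770)),(k7,(nat_lit 803)),(k6,(nat_lit 1111)),(k0,(nat_lit 1421))],[(k4,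
    (nat_lit 803)),(k5,(nat_lit 803)),(k9,(nat_lit 803)),(k3,(nat_lit 1419))],[(k3,(nat_lit 803)),(k4,(nat_lit 1111)),
    (k5,(nat_lit 1111)),(k9,(nat_lit 1111))],[(k2,(nat_lit 770)),(k7,(nat_lit 803)),(k6,(nat_lit 1111)),(k0,
    (nat_lit 2345))],[(k1,(nat_lit 1421))],[(k10,(nat_lit 1232))],[(k11,(nat_lit 1232))]]
    [] k0
    [[k0,k1,k1,k1,k0,k0],[k0,k0,k1,k1,k0,k0],[k0,k0,k0,k0,k0,k2]]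
    [.contra [y1,y1,z1],.contra [y1,y1,z1],.contra [z1]]),
    .old (.lp [k6,k6,k0,k6,k0,k4] [k0,k0,k0,k0,k3,k3,k0,k0,k3,k3,k1,k1] k0 [] k12 k5
    [[(k8,k3)],[(k4,k3),(k5,k3),(k9,k3),(k3,k6)],[(k0,k6),(k2,k6),(k6,k6),(k7,k6)],[(k4,k3),(k5,k3),(k9,k3),(k3,k6)],
    [(k0,k3),(k2,k3),(k6,k3),(k7,k3)],[(k0,k3),(k2,k3),(k6,k3),(k7,k3)],[(k4,k3),(k5,k3),(k9,k3),(k3,k6)],[(k4,k3),
    (k5,k3),(k9,k3),(k3,k6)],[(k0,k3),(k2,k3),(k6,k3),(k7,k3)],[(k1,k3)],[(k10,k4)],[(k11,k4)]]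
    [] k0
    [[k1,k0,k0,k0,k1,k0],[k0,k0,k1,k1,k0,k0],[k0,k0,k0,k0,k0,k2]]
    [.ref k1 k0 [(z1,[z1])],.ref k0 k0 [(z1,[y1,z1])],.contra [z1]])]⟩

/-- classes `0 0 0 0 1 1`, types `C0 C0 C2 C0 N0 N2` -/
noncomputable def cU6_108 : CertX :=
  ⟨[k4,k4,k6,k4,k28,k30],[(false,k0,[k0,k1,k2,k3,k4,k5])],[[[([z1,z1,z0,z0,z1,z1],z2)],[([z1,z0,z0,z0,z1,z1],z2)],
    []]],
    [.old (.leafM k1 [k0,k1,k4,k5] [] [(k2,k3,z1,[y1,z1]),(k3,k2,z1,[y1,z1])]),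
    .old (.leafM k4 [k4,k5,k0,k1,k2,k3] [(z1,[y1,z1])] []),
    .old (.lp [k2,k4,k2,k2,k2,k2] [k1,k1,k0,k0,k1,k1,k1,k1,k1,k1,k1,k1] k0 [] k8 k5
    [[(k11,k2)],[(k4,k2),(k5,k2),(k9,k2),(k3,k3)],[(k0,k3),(k6,k3),(k7,k3),(k2,k4)],[(k4,k3),(k5,k3),(k9,k3),(k3,k4)],
    [(k0,k2),(k6,k2),(k7,k2),(k2,k3)],[(k0,k2),(k6,k2),(k7,k2),(k2,k3)],[(k4,k2),(k5,k2),(k9,k2),(k3,k3)],[(k4,k2),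
    (k5,k2),(k9,k2),(k3,k3)],[(k0,k2),(k6,k2),(k7,k2),(k2,k3)],[(k10,k2)],[(k1,k2)],[(k8,k2)]]
    [] k0
    [[k1,k0,k0,k0,k1,k1],[k0,k0,k1,k1,k0,k0]]
    [.ref k1 k0 [(z1,[z1])],.ref k0 k0 [(z1,[y1,z1])]])]⟩

/-- classes `0 0 0 0 1 1`, types `C0 C0 C2 C0 S0 S0` -/
noncomputable def cU6_109 : CertX :=
  ⟨[k4,k4,k6,k4,k16,k16],[(false,k0,[k0,k1,k2,k3,k4,k5])],[[[([z1,z1,z0,z0,z1,z1],z2)],[([z1,z0,z0,z0,z1,z1],z2)],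
    []]],
    [.old (.leafM k0 [k0,k1,k4,k5] [] [(k2,k3,z1,[y1,z1]),(k3,k2,z1,[y1,z1])]),
    .old (.leafM k0 [k0,k1,k2,k3,k4,k5] [(z1,[y1,z1])] []),
    .old (.lp [k126,k84,k12,k108,k66,k80] [k0,k0,k21,k21,k57,k57,k9,k9,k30,k30,k23,k23] k0 [[],[k0,k0,k0,k0,k0,k0,k0,k48],
    [],[],[],[],[k48]] (nat_lit 240) k6
    [[(k8,k96),(k10,k103),(k11,k103),(k1,k126)],[(k4,k69),(k5,k69),(k3,k105),(k9,k144)],[(k6,k48),(k2,k84),(k7,k96),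
    (k0,k105)],[(k4,k48),(k5,k48),(k9,k75),(k3,k84)],[(k2,k48),(k6,k60),(k7,k60),(k0,k69)],[(k2,k48),(k6,k60),(k7,
    k60),(k0,k69)],[(k4,k60),(k5,k60),(k9,k87),(k3,k96)],[(k3,k48),(k4,k60),(k5,k60),(k9,k87)],[(k2,k75),(k6,k87),(k7,
    k87),(k0,k144)],[(k8,k66),(k10,k73),(k11,k73),(k1,k96)],[(k8,k73),(k10,k80),(k11,k80),(k1,k103)],[(k8,k73),(k10,
    k80),(k11,k80),(k1,k103)]]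
    [] k0
    [[k0,k2,k0,k0,k0,k0],[k0,k1,k1,k1,k0,k0],[k0,k0,k1,k1,k0,k0],[k0,k0,k0,k0,k0,k2]]
    [.contra [z1],.ref k1 k0 [(z1,[y1,z1])],.ref k0 k0 [(z1,[y1,z1])],.contra [z1]])]⟩

/-- classes `0 0 0 0 1 1`, types `C0 C0 C2 C2 B0 B1` -/
noncomputable def cU6_110 : CertX :=
  ⟨[k4,k4,k6,k6,k24,k25],[(false,k0,[k0,k1,k2,k3,k4,k5])],[[[([z1,z0,z1,z0,z1,z1],z2)],[([z1,z0,z1,z0,z1,z0],z2),([z0,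
    z3,z0,z0,z0,z0],z2),([z0,z0,z0,z3,z0,z0],z2)],[([z1,z0,z1,z0,z1,z0],z2),([z0,z3,z0,z3,z0,z0],z4)],[([z3,z3,z3,z3,
    z3,z0],z10)],[]]],
    [.old (.leafM k3 [k0,k2,k4,k5] [] [(k1,k3,z1,[y1,z1]),(k3,k1,z1,[y1,z1])]),
    .old (.leafM k2 [k0,k1,k2,k3,k4,k5] [(z1,[z0,z1]),(z1,[z0,z0,z1]),(z1,[y3,y1,y1,z3])] []),
    .old (.lp [k24,k18,k12,k12,k12,k16] [k0,k0,k3,k3,k6,k6,k6,k6,k6,k6,k4,k4] k0 [] k48 k5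
    [[(k8,k18),(k11,k20)],[(k4,k18),(k5,k18),(k6,k18),(k3,k21)],[(k7,k15),(k9,k15),(k2,k18),(k0,k21)],[(k4,k15),(k5,
    k15),(k6,k15),(k3,k18)],[(k7,k12),(k9,k12),(k2,k15),(k0,k18)],[(k7,k12),(k9,k12),(k2,k15),(k0,k18)],[(k4,k12),(k5,
    k12),(k6,k12),(k3,k15)],[(k7,k12),(k9,k12),(k2,k15),(k0,k18)],[(k4,k12),(k5,k12),(k6,k12),(k3,k15)],[(k10,k14),
    (k1,k18)],[(k10,k16),(k1,k20)],[(k8,k14),(k11,k16)]]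
    [] k0
    [[k0,k2,k0,k0,k0,k0],[k0,k1,k0,k1,k0,k0],[k0,k1,k0,k2,k0,k0],[k0,k0,k0,k2,k0,k0],[k0,k0,k0,k3,k0,k0],[k0,k0,k0,k0,
    k0,k2]]
    [.contra [z1],.contra [z1,y2,y1,z2],.ref k1 k0 [(z1,[z0,z1]),(z1,[y3,z0,z2]),(z1,[z3,z0,y1])],.contra [z1],
    .ref k1 k0 [(z1,[z0,z1]),(z1,[y1,z0,z1]),(z1,[z1])],.contra [z1]]),
    .old (.lp [k6,k8,k6,k8,k6,k12] [k3,k3,k2,k2,k3,k3,k2,k2,k3,k3,k0,k0] k0 [] k24 k5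
    [[(k8,k6),(k11,k9)],[(k4,k6),(k5,k6),(k3,k7),(k6,k7)],[(k0,k7),(k9,k7),(k2,k8),(k7,k8)],[(k4,k7),(k5,k7),(k3,k8),
    (k6,k8)],[(k0,k6),(k9,k6),(k2,k7),(k7,k7)],[(k0,k6),(k9,k6),(k2,k7),(k7,k7)],[(k4,k7),(k5,k7),(k3,k8),(k6,k8)],
    [(k0,k7),(k9,k7),(k2,k8),(k7,k8)],[(k4,k6),(k5,k6),(k3,k7),(k6,k7)],[(k1,k6),(k10,k9)],[(k1,k9),(k10,k12)],[(k8,
    k9),(k11,k12)]]
    [] k0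
    [[k1,k0,k1,k0,k1,k0],[k0,k2,k0,k0,k0,k0],[k0,k1,k0,k1,k0,k0],[k0,k0,k0,k2,k0,k0]]
    [.ref k2 k0 [(z1,[z1]),(z1,[y3,z1])],.contra [z1],.ref k0 k0 [(z1,[y1,z0,z1])],.contra [z1]]),
    .old (.lp [k12,k8,k4,k8,k8,k6] [k0,k0,k2,k2,k4,k4,k2,k2,k2,k2,k3,k3] k0 [] k24 k5
    [[(k11,k9),(k8,k10)],[(k4,k8),(k5,k8),(k3,k10),(k6,k10)],[(k2,k8),(k7,k8),(k9,k8),(k0,k10)],[(k4,k6),(k5,k6),(k3,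
    k8),(k6,k8)],[(k2,k6),(k7,k6),(k9,k6),(k0,k8)],[(k2,k6),(k7,k6),(k9,k6),(k0,k8)],[(k4,k6),(k5,k6),(k3,k8),(k6,
    k8)],[(k2,k8),(k7,k8),(k9,k8),(k0,k10)],[(k4,k6),(k5,k6),(k3,k8),(k6,k8)],[(k10,k7),(k1,k10)],[(k10,k6),(k1,k9)],
    [(k11,k6),(k8,k7)]]
    [] k0
    [[k0,k2,k0,k0,k0,k0],[k0,k1,k0,k1,k0,k0],[k0,k0,k0,k2,k0,k0],[k0,k0,k0,k0,k0,k2],[k0,k0,k0,k0,k0,k3]]
    [.contra [z1],.ref k0 k0 [(z1,[y1,z1])],.contra [z1],.contra [z1],.ref k3 k0 [(z1,[y1,z3])]])]⟩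

/-- classes `0 0 0 0 1 1`, types `C0 C0 C2 C2 C0 C0` -/
noncomputable def cU6_111 : CertX :=
  ⟨[k4,k4,k6,k6,k20,k20],[(false,k0,[k0,k1,k2,k3,k4,k5])],[[[([z1,z0,z1,z0,z1,z1],z2)],[([z1,z0,z1,z0,z1,z0],z2),([z0,
    z3,z0,z0,z0,z0],z2),([z0,z0,z0,z3,z0,z0],z2)],[([z1,z0,z1,z0,z1,z0],z2),([z0,z3,z0,z3,z0,z0],z4)],[([z3,z3,z3,z3,
    z3,z0],z10)],[]]],
    [.old (.leafM k1 [k4,k5,k0,k2] [] [(k1,k3,z1,[y1,z1]),(k3,k1,z1,[y1,z1])]),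
    .old (.leafM k2 [k0,k1,k2,k3,k4,k5] [(z1,[z0,z1]),(z1,[z0,z0,z1]),(z1,[y3,y1,y1,z3])] []),
    .old (.lp [k24,k18,k12,k12,k12,k16] [k0,k0,k3,k3,k6,k6,k6,k6,k6,k6,k4,k4] k0 [] k48 k5
    [[(k8,k18),(k10,k20)],[(k4,k18),(k5,k18),(k6,k18),(k3,k21)],[(k7,k15),(k9,k15),(k2,k18),(k0,k21)],[(k4,k15),(k5,
    k15),(k6,k15),(k3,k18)],[(k7,k12),(k9,k12),(k2,k15),(k0,k18)],[(k7,k12),(k9,k12),(k2,k15),(k0,k18)],[(k4,k12),(k5,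
    k12),(k6,k12),(k3,k15)],[(k7,k12),(k9,k12),(k2,k15),(k0,k18)],[(k4,k12),(k5,k12),(k6,k12),(k3,k15)],[(k11,k14),
    (k1,k18)],[(k8,k14),(k10,k16)],[(k11,k16),(k1,k20)]]
    [] k0
    [[k0,k2,k0,k0,k0,k0],[k0,k1,k0,k1,k0,k0],[k0,k1,k0,k2,k0,k0],[k0,k0,k0,k2,k0,k0],[k0,k0,k0,k3,k0,k0],[k0,k0,k0,k0,
    k0,k2]]
    [.contra [z1],.contra [z1,y2,y1,z2],.ref k1 k0 [(z1,[z0,z1]),(z1,[y3,z0,z2]),(z1,[z3,z0,y1])],.contra [z1],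
    .ref k1 k0 [(z1,[z0,z1]),(z1,[y1,z0,z1]),(z1,[z1])],.contra [z1]]),
    .old (.lp [k6,k8,k6,k12,k6,k8] [k3,k3,k2,k2,k3,k3,k0,k0,k3,k3,k2,k2] k0 [] k24 k5
    [[(k8,k6),(k10,k7)],[(k4,k6),(k5,k6),(k3,k7),(k6,k9)],[(k0,k7),(k9,k7),(k2,k8),(k7,k10)],[(k4,k7),(k5,k7),(k3,k8),
    (k6,k10)],[(k0,k6),(k9,k6),(k2,k7),(k7,k9)],[(k0,k6),(k9,k6),(k2,k7),(k7,k9)],[(k4,k9),(k5,k9),(k3,k10),(k6,k12)],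
    [(k0,k9),(k9,k9),(k2,k10),(k7,k12)],[(k4,k6),(k5,k6),(k3,k7),(k6,k9)],[(k1,k6),(k11,k7)],[(k8,k7),(k10,k8)],[(k1,
    k7),(k11,k8)]]
    [] k0
    [[k1,k0,k1,k0,k1,k0],[k0,k2,k0,k0,k0,k0],[k0,k1,k0,k1,k0,k0],[k0,k0,k0,k0,k0,k2]]
    [.ref k2 k0 [(z1,[z1]),(z1,[y3,z1])],.contra [z1],.ref k0 k0 [(z1,[y1,z0,z1])],.contra [z1]]),
    .old (.lp [k12,k8,k4,k8,k8,k6] [k0,k0,k2,k2,k4,k4,k2,k2,k2,k2,k3,k3] k0 [] k24 k5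
    [[(k10,k9),(k8,k10)],[(k4,k8),(k5,k8),(k3,k10),(k6,k10)],[(k2,k8),(k7,k8),(k9,k8),(k0,k10)],[(k4,k6),(k5,k6),(k3,
    k8),(k6,k8)],[(k2,k6),(k7,k6),(k9,k6),(k0,k8)],[(k2,k6),(k7,k6),(k9,k6),(k0,k8)],[(k4,k6),(k5,k6),(k3,k8),(k6,
    k8)],[(k2,k8),(k7,k8),(k9,k8),(k0,k10)],[(k4,k6),(k5,k6),(k3,k8),(k6,k8)],[(k11,k7),(k1,k10)],[(k10,k6),(k8,k7)],
    [(k11,k6),(k1,k9)]]
    [] k0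
    [[k0,k2,k0,k0,k0,k0],[k0,k1,k0,k1,k0,k0],[k0,k0,k0,k2,k0,k0],[k0,k0,k0,k0,k0,k2],[k0,k0,k0,k0,k0,k3]]
    [.contra [z1],.ref k0 k0 [(z1,[y1,z1])],.contra [z1],.contra [z1],.ref k3 k0 [(z1,[y1,z3])]])]⟩

/-- classes `0 0 0 0 1 1`, types `C0 C0 C2 C2 C0 C2` -/
noncomputable def cU6_112 : CertX :=
  ⟨[k4,k4,k6,k6,k20,k22],[(false,k0,[k0,k1,k2,k3,k4,k5])],[[[([z1,z0,z1,z0,z1,z1],z2)],[]]],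
    [.old (.leafM k1 [k4,k5,k0,k2] [] [(k1,k3,z1,[y1,z1]),(k3,k1,z1,[y1,z1])]),
    .old (.lp [k4,k4,k2,k6,k4,k2] [k1,k1,k1,k1,k2,k2,k0,k0,k1,k1,k2,k2] k0 [] k12 k5
    [[(k10,k3),(k11,k3)],[(k4,k3),(k5,k3),(k3,k4),(k6,k5)],[(k0,k4),(k2,k4),(k9,k4),(k7,k5)],[(k4,k3),(k5,k3),(k3,k4),
    (k6,k5)],[(k0,k3),(k2,k3),(k9,k3),(k7,k4)],[(k0,k3),(k2,k3),(k9,k3),(k7,k4)],[(k4,k4),(k5,k4),(k3,k5),(k6,k6)],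
    [(k0,k5),(k2,k5),(k9,k5),(k7,k6)],[(k4,k3),(k5,k3),(k3,k4),(k6,k5)],[(k10,k3),(k11,k3)],[(k1,k3),(k8,k3)],[(k1,
    k3),(k8,k3)]]
    [] k0
    [[k0,k2,k0,k0,k0,k0],[k0,k1,k0,k1,k0,k0]]
    [.contra [z1],.ref k0 k0 [(z1,[y1,z1])]])]⟩

/-- classes `0 0 0 0 1 1`, types `C0 C0 C2 C2 N0 N1` -/
noncomputable def cU6_113 : CertX :=
  ⟨[k4,k4,k6,k6,k28,k29],[(false,k0,[k0,k1,k2,k3,k4,k5])],[[[([z1,z0,z1,z0,z1,z0],z2),([z0,z3,z0,z0,z0,z0],z2),([z0,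
    z0,z0,z3,z0,z0],z2)],[([z1,z0,z1,z0,z1,z0],z2),([z0,z3,z0,z3,z0,z0],z4)],[([z1,z0,z1,z0,z1,z0],z2)],[]]],
    [.old (.leafM k2 [k0,k1,k2,k3,k4,k5] [(z1,[z0,z1]),(z1,[z0,z0,z1]),(z1,[y3,y1,y1,z3])] []),
    .old (.lp [k24,k18,k12,k12,k12,k16] [k0,k0,k3,k3,k6,k6,k6,k6,k6,k6,k4,k4] k0 [] k48 k5
    [[(k8,k18)],[(k4,k18),(k5,k18),(k6,k18),(k3,k21)],[(k7,k15),(k9,k15),(k2,k18),(k0,k21)],[(k4,k15),(k5,k15),(k6,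
    k15),(k3,k18)],[(k7,k12),(k9,k12),(k2,k15),(k0,k18)],[(k7,k12),(k9,k12),(k2,k15),(k0,k18)],[(k4,k12),(k5,k12),(k6,
    k12),(k3,k15)],[(k7,k12),(k9,k12),(k2,k15),(k0,k18)],[(k4,k12),(k5,k12),(k6,k12),(k3,k15)],[(k1,k18)],[(k10,k16)],
    [(k11,k16)]]
    [] k0
    [[k0,k2,k0,k0,k0,k0],[k0,k1,k0,k1,k0,k0],[k0,k1,k0,k2,k0,k0],[k0,k0,k0,k2,k0,k0],[k0,k0,k0,k3,k0,k0],[k0,k0,k0,k0,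
    k0,k2]]
    [.contra [z1],.contra [z1,y2,y1,z2],.ref k0 k0 [(z1,[z0,z1]),(z1,[y3,z0,z2]),(z1,[z3,z0,y1])],.contra [z1],
    .ref k0 k0 [(z1,[z0,z1]),(z1,[y1,z0,z1]),(z1,[z1])],.contra [z1]]),
    .old (.lp [k12,k8,k4,k8,k8,k6] [k0,k0,k2,k2,k4,k4,k2,k2,k2,k2,k3,k3] k0 [] k24 k5
    [[(k8,k10)],[(k4,k8),(k5,k8),(k3,k10),(k6,k10)],[(k2,k8),(k7,k8),(k9,k8),(k0,k10)],[(k4,k6),(k5,k6),(k3,k8),(k6,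
    k8)],[(k2,k6),(k7,k6),(k9,k6),(k0,k8)],[(k2,k6),(k7,k6),(k9,k6),(k0,k8)],[(k4,k6),(k5,k6),(k3,k8),(k6,k8)],[(k2,
    k8),(k7,k8),(k9,k8),(k0,k10)],[(k4,k6),(k5,k6),(k3,k8),(k6,k8)],[(k1,k10)],[(k10,k6)],[(k11,k6)]]
    [] k0
    [[k0,k2,k0,k0,k0,k0],[k0,k1,k0,k1,k0,k0],[k0,k0,k0,k2,k0,k0],[k0,k0,k0,k0,k0,k2],[k0,k0,k0,k0,k0,k3]]
    [.contra [z1],.contra [y1,y1,z1],.contra [z1],.contra [z1],.ref k1 k0 [(z1,[z0,z1]),(z1,[y1,y3,z3])]]),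
    .old (.lp [k12,k30,k12,k30,k12,k20] [k9,k9,k0,k0,k9,k9,k0,k0,k9,k9,k5,k5] k0 [] k60 k6
    [[(k8,k12)],[(k4,k12),(k5,k12),(k3,k21),(k6,k21)],[(k0,k21),(k9,k21),(k2,k30),(k7,k30)],[(k4,k21),(k5,k21),(k3,
    k30),(k6,k30)],[(k0,k12),(k9,k12),(k2,k21),(k7,k21)],[(k0,k12),(k9,k12),(k2,k21),(k7,k21)],[(k4,k21),(k5,k21),(k3,
    k30),(k6,k30)],[(k0,k21),(k9,k21),(k2,k30),(k7,k30)],[(k4,k12),(k5,k12),(k3,k21),(k6,k21)],[(k1,k12)],[(k10,k20)],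
    [(k11,k20)]]
    [] k0
    [[k1,k0,k1,k0,k1,k0],[k0,k0,k0,k0,k0,k2]]
    [.ref k2 k0 [(z1,[z1])],.contra [z1]])]⟩

/-- classes `0 0 0 0 1 1`, types `C0 C0 C2 C2 N0 N2` -/
noncomputable def cU6_114 : CertX :=
  ⟨[k4,k4,k6,k6,k28,k30],[(false,k0,[k0,k1,k2,k3,k4,k5])],[[[([z1,z0,z1,z0,z1,z1],z2)],[]]],
    [.old (.leafM k3 [k0,k2,k4,k5] [] [(k1,k3,z1,[y1,z1]),(k3,k1,z1,[y1,z1])]),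
    .old (.lp [k4,k4,k2,k6,k4,k2] [k1,k1,k1,k1,k2,k2,k0,k0,k1,k1,k2,k2] k0 [] k12 k5
    [[(k11,k3)],[(k4,k3),(k5,k3),(k3,k4),(k6,k5)],[(k0,k4),(k2,k4),(k9,k4),(k7,k5)],[(k4,k3),(k5,k3),(k3,k4),(k6,k5)],
    [(k0,k3),(k2,k3),(k9,k3),(k7,k4)],[(k0,k3),(k2,k3),(k9,k3),(k7,k4)],[(k4,k4),(k5,k4),(k3,k5),(k6,k6)],[(k0,k5),
    (k2,k5),(k9,k5),(k7,k6)],[(k4,k3),(k5,k3),(k3,k4),(k6,k5)],[(k10,k3)],[(k1,k3)],[(k8,k3)]]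
    [] k0
    [[k0,k2,k0,k0,k0,k0],[k0,k1,k0,k1,k0,k0]]
    [.contra [z1],.ref k0 k0 [(z1,[y1,z1])]])]⟩

/-- classes `0 0 0 0 1 1`, types `C0 C0 C2 C2 S0 S0` -/
noncomputable def cU6_115 : CertX :=
  ⟨[k4,k4,k6,k6,k16,k16],[(false,k0,[k0,k1,k2,k3,k4,k5])],[[[([z1,z0,z1,z0,z1,z1],z2)],[([z1,z0,z1,z0,z1,z0],z2),([z0,
    z3,z0,z0,z0,z0],z2),([z0,z0,z0,z3,z0,z0],z2)],[([z1,z0,z1,z0,z1,z0],z2),([z0,z3,z0,z3,z0,z0],z4)],[([z1,z0,z1,z0,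
    z1,z0],z2)],[]]],
    [.old (.leafM k1 [k4,k5,k0,k2] [] [(k1,k3,z1,[y1,z1]),(k3,k1,z1,[y1,z1])]),
    .old (.leafM k2 [k0,k1,k2,k3,k4,k5] [(z1,[z0,z1]),(z1,[z0,z0,z1]),(z1,[y3,y1,y1,z3])] []),
    .old (.lp [k18,k18,k12,k12,k18,k16] [k0,k0,k0,k0,k3,k3,k3,k3,k0,k0,k1,k1] k0 [] k48 k5
    [[(k10,k17),(k11,k17),(k1,k18),(k8,k18)],[(k4,k15),(k5,k15),(k6,k15),(k3,k18)],[(k7,k15),(k0,k18),(k2,k18),(k9,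
    k18)],[(k4,k15),(k5,k15),(k6,k15),(k3,k18)],[(k7,k12),(k0,k15),(k2,k15),(k9,k15)],[(k7,k12),(k0,k15),(k2,k15),(k9,
    k15)],[(k4,k12),(k5,k12),(k6,k12),(k3,k15)],[(k7,k12),(k0,k15),(k2,k15),(k9,k15)],[(k4,k15),(k5,k15),(k6,k15),(k3,
    k18)],[(k10,k17),(k11,k17),(k1,k18),(k8,k18)],[(k10,k16),(k11,k16),(k1,k17),(k8,k17)],[(k10,k16),(k11,k16),(k1,
    k17),(k8,k17)]]
    [] k0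
    [[k0,k2,k0,k0,k0,k0],[k0,k1,k0,k1,k0,k0],[k0,k1,k0,k2,k0,k0],[k0,k0,k0,k2,k0,k0],[k0,k0,k0,k3,k0,k0],[k0,k0,k0,k0,
    k0,k2]]
    [.contra [z1],.contra [z1,y2,y1,z2],.ref k1 k0 [(z1,[z0,z1]),(z1,[y3,z0,z2]),(z1,[z3,z0,y1])],.contra [z1],
    .ref k1 k0 [(z1,[z0,z1]),(z1,[y1,z0,z1]),(z1,[z1])],.contra [z1]]),
    .old (.lp [k10,k8,k4,k8,k10,k6] [k0,k0,k1,k1,k3,k3,k1,k1,k0,k0,k2,k2] k0 [] k24 k5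
    [[(k10,k8),(k11,k8),(k1,k10),(k8,k10)],[(k4,k7),(k5,k7),(k3,k9),(k6,k9)],[(k2,k8),(k7,k8),(k0,k9),(k9,k9)],[(k4,
    k6),(k5,k6),(k3,k8),(k6,k8)],[(k2,k6),(k7,k6),(k0,k7),(k9,k7)],[(k2,k6),(k7,k6),(k0,k7),(k9,k7)],[(k4,k6),(k5,k6),
    (k3,k8),(k6,k8)],[(k2,k8),(k7,k8),(k0,k9),(k9,k9)],[(k4,k7),(k5,k7),(k3,k9),(k6,k9)],[(k10,k8),(k11,k8),(k1,k10),
    (k8,k10)],[(k10,k6),(k11,k6),(k1,k8),(k8,k8)],[(k10,k6),(k11,k6),(k1,k8),(k8,k8)]]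
    [] k0
    [[k0,k2,k0,k0,k0,k0],[k0,k1,k0,k1,k0,k0],[k0,k0,k0,k2,k0,k0],[k0,k0,k0,k0,k0,k2],[k0,k0,k0,k0,k0,k3]]
    [.contra [z1],.contra [y1,y1,z1],.contra [z1],.contra [z1],.ref k2 k0 [(z1,[z0,z1]),(z1,[y1,y3,z3])]]),
    .old (.lp [k20,k16,k8,k16,k20,k14] [k0,k0,k2,k2,k6,k6,k2,k2,k0,k0,k3,k3] k0 [[],[],[],[],[],[],[],[],[k0,k0,k0,k0,k0,
    k0,k0,k0,k0,k0,k6],[],[],[k0,k0,k0,k0,k0,k0,k0,k0,k0,k6]] k48 k5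
    [[(k8,k14),(k10,k17),(k11,k17),(k1,k20)],[(k4,k14),(k5,k14),(k3,k18),(k6,k18)],[(k2,k16),(k7,k16),(k0,k18),(k9,
    k18)],[(k4,k12),(k5,k12),(k3,k16),(k6,k16)],[(k2,k12),(k7,k12),(k0,k14),(k9,k14)],[(k2,k12),(k7,k12),(k0,k14),(k9,
    k14)],[(k4,k12),(k5,k12),(k3,k16),(k6,k16)],[(k2,k16),(k7,k16),(k0,k18),(k9,k18)],[(k4,k14),(k5,k14),(k3,k18),(k6,
    k18)],[(k1,k14),(k10,k17),(k11,k17),(k8,k20)],[(k11,k14),(k1,k17),(k8,k17),(k10,k20)],[(k10,k14),(k1,k17),(k8,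
    k17),(k11,k20)]]
    [] k0
    [[k1,k0,k1,k0,k1,k0],[k0,k2,k0,k0,k0,k0],[k0,k1,k0,k1,k0,k0],[k0,k0,k0,k2,k0,k0],[k0,k0,k0,k0,k0,k2]]
    [.ref k3 k0 [(z1,[z1])],.contra [z1],.ref k0 k0 [(z1,[y1,z1])],.contra [z1],.contra [z1]])]⟩

/-- classes `0 0 0 0 1 1`, types `C0 C2 C0 C2 B0 B1` -/
noncomputable def cU6_116 : CertX :=
  ⟨[k4,k6,k4,k6,k24,k25],[(false,k0,[k0,k1,k2,k3,k4,k5]),(true,k4,[k4,k3,k2,k1,k0,k5])],[[[([z1,z0,z0,z1,z1,z1],z2)],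
    []]],
    [.old (.leafM k1 [k0,k3,k4,k5] [] [(k1,k2,z1,[y1,z1]),(k2,k1,z1,[y1,z1])]),
    .old (.lp [k6,k4,k2,k4,k2,k4] [k0,k0,k1,k1,k2,k2,k1,k1,k2,k2,k1,k1] k0 [] k12 k5
    [[(k8,k4),(k11,k5)],[(k2,k5),(k3,k5),(k6,k5),(k7,k5)],[(k4,k3),(k5,k3),(k9,k3),(k0,k5)],[(k4,k3),(k5,k3),(k9,k3),
    (k0,k5)],[(k2,k3),(k3,k3),(k6,k3),(k7,k3)],[(k2,k3),(k3,k3),(k6,k3),(k7,k3)],[(k4,k3),(k5,k3),(k9,k3),(k0,k5)],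
    [(k4,k3),(k5,k3),(k9,k3),(k0,k5)],[(k2,k3),(k3,k3),(k6,k3),(k7,k3)],[(k10,k3),(k1,k4)],[(k10,k4),(k1,k5)],[(k8,
    k3),(k11,k4)]]
    [] k0
    [[k0,k1,k1,k0,k0,k0],[k0,k0,k1,k1,k0,k0],[k0,k0,k0,k0,k0,k2]]
    [.ref k0 k0 [(z1,[y1,z1])],.ref k0 k1 [(z1,[y1,z1])],.contra [z1]])]⟩

/-- classes `0 0 0 0 1 1`, types `C0 C2 C0 C2 C0 C0` -/
noncomputable def cU6_117 : CertX :=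
  ⟨[k4,k6,k4,k6,k20,k20],[(false,k0,[k0,k1,k2,k3,k4,k5]),(true,k4,[k4,k3,k2,k1,k0,k5])],[[[([z1,z0,z0,z1,z1,z1],z2)],
    []]],
    [.old (.leafM k0 [k0,k3,k4,k5] [] [(k1,k2,z1,[y1,z1]),(k2,k1,z1,[y1,z1])]),
    .old (.lp [k4,k6,k0,k6,k2,k4] [k1,k1,k0,k0,k3,k3,k0,k0,k2,k2,k1,k1] k0 [] k12 k5
    [[(k8,k3),(k10,k4)],[(k2,k5),(k3,k5),(k6,k5),(k7,k5)],[(k4,k3),(k5,k3),(k9,k4),(k0,k5)],[(k4,k3),(k5,k3),(k9,k4),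
    (k0,k5)],[(k2,k3),(k3,k3),(k6,k3),(k7,k3)],[(k2,k3),(k3,k3),(k6,k3),(k7,k3)],[(k4,k3),(k5,k3),(k9,k4),(k0,k5)],
    [(k4,k3),(k5,k3),(k9,k4),(k0,k5)],[(k2,k4),(k3,k4),(k6,k4),(k7,k4)],[(k1,k3),(k11,k3)],[(k8,k3),(k10,k4)],[(k1,
    k4),(k11,k4)]]
    [] k0
    [[k0,k1,k1,k0,k0,k0],[k0,k0,k1,k1,k0,k0],[k0,k0,k0,k0,k0,k2]]
    [.ref k0 k0 [(z1,[y1,z1])],.ref k0 k1 [(z1,[y1,z1])],.contra [z1]])]⟩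

/-- classes `0 0 0 0 1 1`, types `C0 C2 C0 C2 C0 C2` -/
noncomputable def cU6_118 : CertX :=
  ⟨[k4,k6,k4,k6,k20,k22],[(false,k0,[k0,k1,k2,k3,k4,k5]),(true,k4,[k4,k3,k2,k1,k0,k5])],[[[([z1,z0,z0,z1,z1,z1],z2)],
    []]],
    [.old (.leafM k0 [k0,k3,k4,k5] [] [(k1,k2,z1,[y1,z1]),(k2,k1,z1,[y1,z1])]),
    .old (.lp [k0,k2,k0,k2,k0,k2] [k1,k1,k0,k0,k1,k1,k0,k0,k1,k1,k0,k0] k0 [] k4 k5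
    [[(k10,k1),(k11,k1)],[(k2,k1),(k3,k1),(k6,k1),(k7,k1)],[(k0,k1),(k4,k1),(k5,k1),(k9,k1)],[(k0,k1),(k4,k1),(k5,k1),
    (k9,k1)],[(k2,k1),(k3,k1),(k6,k1),(k7,k1)],[(k2,k1),(k3,k1),(k6,k1),(k7,k1)],[(k0,k1),(k4,k1),(k5,k1),(k9,k1)],
    [(k0,k1),(k4,k1),(k5,k1),(k9,k1)],[(k2,k1),(k3,k1),(k6,k1),(k7,k1)],[(k10,k1),(k11,k1)],[(k1,k1),(k8,k1)],[(k1,
    k1),(k8,k1)]]
    [] k0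
    [[k0,k1,k1,k0,k0,k0],[k0,k0,k1,k1,k0,k0]]
    [.ref k0 k0 [(z1,[y1,z1])],.ref k0 k1 [(z1,[y1,z1])]])]⟩

/-- classes `0 0 0 0 1 1`, types `C0 C2 C0 C2 N0 N1` -/
noncomputable def cU6_119 : CertX :=
  ⟨[k4,k6,k4,k6,k28,k29],[(true,k4,[k4,k3,k2,k1,k0,k5]),(false,k0,[k0,k1,k2,k3,k4,k5])],[[[([z1,z0,z0,z1,z1,z0],z2),
    ([z0,z1,z0,y1,z0,z1],z0)],[([z1,z0,z0,z1,z1,z1],z2)],[]]],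
    [.old (.lp [k12,k12,k18,k42,k12,k20] [k15,k15,k15,k15,k12,k12,k0,k0,k15,k15,k11,k11] k0 [] k60 k6
    [[(k8,k12)],[(k2,k12),(k3,k12),(k6,k27),(k7,k27)],[(k0,k12),(k9,k12),(k4,k15),(k5,k15)],[(k0,k12),(k9,k12),(k4,
    k15),(k5,k15)],[(k2,k15),(k3,k15),(k6,k30),(k7,k30)],[(k2,k15),(k3,k15),(k6,k30),(k7,k30)],[(k0,k27),(k9,k27),(k4,
    k30),(k5,k30)],[(k0,k27),(k9,k27),(k4,k30),(k5,k30)],[(k2,k12),(k3,k12),(k6,k27),(k7,k27)],[(k1,k12)],[(k10,k20)],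
    [(k11,k20)]]
    [] k0
    [[k1,k1,k0,k0,k1,k0],[k0,k1,k1,k0,k0,k0],[k0,k0,k0,k0,k0,k2]]
    [.contra [y1,z1,z1],.contra [y1,y1,z0,z1],.contra [z1]]),
    .old (.lp [k6,k6,k24,k6,k6,k10] [k9,k9,k9,k9,k0,k0,k9,k9,k9,k9,k7,k7] k0 [] k30 k6
    [[(k8,k6)],[(k2,k6),(k3,k6),(k6,k6),(k7,k6)],[(k0,k6),(k9,k6),(k4,k15),(k5,k15)],[(k0,k6),(k9,k6),(k4,k15),(k5,
    k15)],[(k2,k15),(k3,k15),(k6,k15),(k7,k15)],[(k2,k15),(k3,k15),(k6,k15),(k7,k15)],[(k0,k6),(k9,k6),(k4,k15),(k5,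
    k15)],[(k0,k6),(k9,k6),(k4,k15),(k5,k15)],[(k2,k6),(k3,k6),(k6,k6),(k7,k6)],[(k1,k6)],[(k10,k10)],[(k11,k10)]]
    [] k0
    [[k1,k1,k0,k0,k1,k0],[k1,k0,k0,k1,k1,k0],[k0,k0,k0,k0,k0,k2]]
    [.ref k0 k0 [(z1,[z1]),(z1,[y1,z1])],.contra [y1,z1],.contra [z1]]),
    .old (.lp [k6,k6,k0,k6,k0,k4] [k0,k0,k0,k0,k3,k3,k0,k0,k3,k3,k1,k1] k0 [] k12 k5
    [[(k8,k3)],[(k2,k6),(k3,k6),(k6,k6),(k7,k6)],[(k4,k3),(k5,k3),(k9,k3),(k0,k6)],[(k4,k3),(k5,k3),(k9,k3),(k0,k6)],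
    [(k2,k3),(k3,k3),(k6,k3),(k7,k3)],[(k2,k3),(k3,k3),(k6,k3),(k7,k3)],[(k4,k3),(k5,k3),(k9,k3),(k0,k6)],[(k4,k3),
    (k5,k3),(k9,k3),(k0,k6)],[(k2,k3),(k3,k3),(k6,k3),(k7,k3)],[(k1,k3)],[(k10,k4)],[(k11,k4)]]
    [] k0
    [[k0,k1,k1,k0,k0,k0],[k0,k0,k1,k1,k0,k0],[k0,k0,k0,k0,k0,k2]]
    [.ref k1 k1 [(z1,[y1,z1])],.ref k1 k0 [(z1,[y1,z1])],.contra [z1]])]⟩

/-- classes `0 0 0 0 1 1`, types `C0 C2 C0 C2 N0 N2` -/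
noncomputable def cU6_120 : CertX :=
  ⟨[k4,k6,k4,k6,k28,k30],[(false,k0,[k0,k1,k2,k3,k4,k5]),(true,k4,[k4,k3,k2,k1,k0,k5])],[[[([z1,z0,z0,z1,z1,z1],z2)],
    []]],
    [.old (.leafM k1 [k0,k3,k4,k5] [] [(k1,k2,z1,[y1,z1]),(k2,k1,z1,[y1,z1])]),
    .old (.lp [k0,k2,k0,k2,k0,k2] [k1,k1,k0,k0,k1,k1,k0,k0,k1,k1,k0,k0] k0 [] k4 k5
    [[(k11,k1)],[(k2,k1),(k3,k1),(k6,k1),(k7,k1)],[(k0,k1),(k4,k1),(k5,k1),(k9,k1)],[(k0,k1),(k4,k1),(k5,k1),(k9,k1)],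
    [(k2,k1),(k3,k1),(k6,k1),(k7,k1)],[(k2,k1),(k3,k1),(k6,k1),(k7,k1)],[(k0,k1),(k4,k1),(k5,k1),(k9,k1)],[(k0,k1),
    (k4,k1),(k5,k1),(k9,k1)],[(k2,k1),(k3,k1),(k6,k1),(k7,k1)],[(k10,k1)],[(k1,k1)],[(k8,k1)]]
    [] k0
    [[k0,k1,k1,k0,k0,k0],[k0,k0,k1,k1,k0,k0]]
    [.ref k0 k0 [(z1,[y1,z1])],.ref k0 k1 [(z1,[y1,z1])]])]⟩

/-- classes `0 0 0 0 1 1`, types `C0 C2 C0 C2 S0 S0` -/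
noncomputable def cU6_121 : CertX :=
  ⟨[k4,k6,k4,k6,k16,k16],[(false,k0,[k0,k1,k2,k3,k4,k5]),(true,k4,[k4,k3,k2,k1,k0,k5])],[[[([z1,z0,z0,z1,z1,z1],z2)],
    []]],
    [.old (.leafM k0 [k0,k3,k4,k5] [] [(k1,k2,z1,[y1,z1]),(k2,k1,z1,[y1,z1])]),
    .old (.lp [k6,k12,k0,k12,k6,k8] [k3,k3,k0,k0,k6,k6,k0,k0,k3,k3,k2,k2] k0 [] k24 k5
    [[(k1,k6),(k8,k6),(k10,k7),(k11,k7)],[(k2,k9),(k3,k9),(k6,k9),(k7,k9)],[(k4,k6),(k5,k6),(k0,k9),(k9,k9)],[(k4,k6),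
    (k5,k6),(k0,k9),(k9,k9)],[(k2,k6),(k3,k6),(k6,k6),(k7,k6)],[(k2,k6),(k3,k6),(k6,k6),(k7,k6)],[(k4,k6),(k5,k6),(k0,
    k9),(k9,k9)],[(k4,k6),(k5,k6),(k0,k9),(k9,k9)],[(k2,k9),(k3,k9),(k6,k9),(k7,k9)],[(k1,k6),(k8,k6),(k10,k7),(k11,
    k7)],[(k1,k7),(k8,k7),(k10,k8),(k11,k8)],[(k1,k7),(k8,k7),(k10,k8),(k11,k8)]]
    [] k0
    [[k0,k1,k1,k0,k0,k0],[k0,k0,k1,k1,k0,k0],[k0,k0,k0,k0,k0,k2]]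
    [.ref k0 k0 [(z1,[y1,z1])],.ref k0 k1 [(z1,[y1,z1])],.contra [z1]])]⟩

/-- classes `0 0 0 0 1 1`, types `C0 C2 C2 C0 B0 B1` -/
noncomputable def cU6_122 : CertX :=
  ⟨[k4,k6,k6,k4,k24,k25],[(false,k0,[k0,k1,k2,k3,k4,k5])],[[[([z1,z0,z1,z0,z1,z1],z2)],[([z1,z0,z0,z0,z1,z1],z2)],
    [([z1,z0,z0,z0,z1,z0],z2),([z0,z3,z0,z3,z0,z0],z2),([z0,z0,z3,z0,z0,z0],z2)],[([z1,z0,z0,z0,z1,z0],z2),([z0,z1,z0,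
    z1,z0,z0],z1),([z0,z0,z3,z0,z0,z0],z1)],[([z1,z0,z0,z0,z1,z0],z2),([z0,z3,z3,z3,z0,z0],z4)],[([z1,z0,z0,z0,z1,z0],
    z2),([z0,z1,z0,z1,z0,z0],z1),([z0,z0,z2,z0,z0,z0],z1)],[([z1,z0,z0,z0,z1,z0],z2),([z0,z1,z0,z1,z0,z0],z1),([z0,z0,
    z3,z0,z0,z0],z2)],[([z1,z0,z0,z0,z1,z0],z2),([z0,z1,z0,z1,z0,z0],z1)],[([z1,z0,z0,z0,z1,z0],z2)],[]]],
    [.old (.leafM k3 [k0,k2,k4,k5] [] [(k1,k3,z1,[y1,z1]),(k3,k1,z1,[y1,z1])]),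
    .old (.leafM k4 [k4,k5,k0,k1,k2,k3] [(z1,[y1,z1])] []),
    .old (.leafM k10 [k1,k2,k3,k5] [(z1,[z0,z0,z1]),(z1,[y3,y1,y1,z3]),(z1,[z0,z1])] [(k4,k0,z1,[z1]),(k0,k4,z1,[z1])]),
    .old (.leafM k11 [k3,k5,k1,k2] [(z1,[y3,y3,y1,z3]),(z1,[z0,z0,z1]),(z1,[z0,z1])] [(k4,k0,z1,[z1]),(k0,k4,z1,[z1])]),
    .old (.lp [k102,k18,k30,k30,k18,k40] [k0,k0,k42,k42,k36,k36,k36,k36,k42,k42,k31,k31] k0 [] k120 k6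
    [[(k8,k60),(k11,k71)],[(k2,k60),(k3,k60),(k9,k60),(k4,k66)],[(k5,k24),(k6,k24),(k7,k24),(k0,k60)],[(k5,k24),(k6,
    k24),(k7,k24),(k0,k60)],[(k2,k24),(k3,k24),(k9,k24),(k4,k30)],[(k5,k30),(k6,k30),(k7,k30),(k0,k66)],[(k2,k24),(k3,
    k24),(k9,k24),(k4,k30)],[(k2,k24),(k3,k24),(k9,k24),(k4,k30)],[(k5,k24),(k6,k24),(k7,k24),(k0,k60)],[(k10,k29),
    (k1,k60)],[(k10,k40),(k1,k71)],[(k8,k29),(k11,k40)]]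
    [] k0
    [[k0,k1,k2,k1,k0,k0],[k0,k1,k1,k1,k0,k0],[k0,k1,k0,k1,k0,k0],[k0,k2,k0,k2,k0,k0],[k0,k0,k2,k0,k0,k0],[k0,k0,k3,k0,
    k0,k0],[k0,k0,k0,k0,k0,k2]]
    [.ref k2 k0 [(z1,[z0,z1]),(z1,[y3,z0,z2]),(z1,[z3,z0,y1])],.contra [z1,y2,y1,z2],.contra [y2,z0,z1],
    .ref k3 k0 [(z1,[z0,z1]),(z2,[z1]),(z2,[y3,z0,z2])],.contra [z1],.ref k2 k0 [(z1,[z0,z1]),(z1,[y1,z0,z1]),(z1,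
    [z1])],.contra [z1]]),
    .old (.leafM k12 [k1,k2,k3,k5] [(z1,[z0,z0,z1]),(z1,[y2,y2,y1,z2]),(z1,[z0,z1])] [(k4,k0,z1,[z1]),(k0,k4,z1,[z1])]),
    .old (.leafM k11 [k1,k2,k3,k5] [(z1,[z0,z0,z1]),(z1,[y3,y3,y1,z3]),(z1,[z0,z1])] [(k4,k0,z1,[z1]),(k0,k4,z1,[z1])]),
    .old (.lp [k32,k6,k10,k14,k8,k8] [k0,k0,k13,k13,k11,k11,k9,k9,k12,k12,k12,k12] k0 [] k40 k6
    [[(k8,k20),(k11,k20)],[(k2,k19),(k3,k19),(k9,k20),(k4,k21)],[(k5,k8),(k6,k10),(k7,k10),(k0,k19)],[(k5,k8),(k6,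
    k10),(k7,k10),(k0,k19)],[(k2,k8),(k3,k8),(k9,k9),(k4,k10)],[(k5,k10),(k6,k12),(k7,k12),(k0,k21)],[(k2,k10),(k3,
    k10),(k9,k11),(k4,k12)],[(k2,k10),(k3,k10),(k9,k11),(k4,k12)],[(k5,k9),(k6,k11),(k7,k11),(k0,k20)],[(k10,k8),(k1,
    k20)],[(k10,k8),(k1,k20)],[(k8,k8),(k11,k8)]]
    [] k0
    [[k0,k1,k1,k1,k0,k0],[k0,k1,k0,k1,k0,k0],[k0,k0,k2,k0,k0,k0],[k0,k0,k3,k0,k0,k0],[k0,k0,k0,k0,k0,k2],[k0,k0,k0,k0,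
    k0,k3],[k0,k0,k0,k0,k0,k4]]
    [.contra [z1,z0,y1],.contra [y1,z0,z2],.contra [z1],.ref k6 k0 [(z1,[z0,z1]),(z1,[z0,z0,z1]),(z1,[z1])],
    .contra [z1],.ref k4 k0 [(z1,[z0,z1]),(z1,[y1,y3,z0,z3])],.ref k5 k0 [(z1,[z0,z1]),(z1,[z0,z0,z1]),(z2,[y1,y4,y4,
    z4])]]),
    .old (.lp [k102,k8,k40,k40,k18,k30] [k0,k0,k47,k47,k31,k31,k31,k31,k42,k42,k36,k36] k0 [] k120 k6
    [[(k8,k60),(k11,k66)],[(k2,k55),(k3,k55),(k9,k60),(k4,k71)],[(k5,k24),(k6,k24),(k7,k24),(k0,k55)],[(k5,k24),(k6,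
    k24),(k7,k24),(k0,k55)],[(k2,k24),(k3,k24),(k9,k29),(k4,k40)],[(k5,k40),(k6,k40),(k7,k40),(k0,k71)],[(k2,k24),(k3,
    k24),(k9,k29),(k4,k40)],[(k2,k24),(k3,k24),(k9,k29),(k4,k40)],[(k5,k29),(k6,k29),(k7,k29),(k0,k60)],[(k10,k24),
    (k1,k60)],[(k10,k30),(k1,k66)],[(k8,k24),(k11,k30)]]
    [] k0
    [[k0,k1,k1,k1,k0,k0],[k0,k1,k0,k1,k0,k0],[k0,k2,k0,k2,k0,k0],[k0,k0,k2,k0,k0,k0],[k0,k0,k0,k0,k0,k2],[k0,k0,k0,k0,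
    k0,k3]]
    [.contra [y1,y1,z1],.contra [y1,y1,z1],.ref k7 k0 [(z1,[z0,z1]),(z2,[z1])],.contra [z1],.contra [z1],
    .ref k4 k0 [(z1,[z0,z1]),(z1,[y1,y3,z3])]]),
    .old (.lp [k4,k2,k6,k4,k2,k4] [k1,k1,k2,k2,k0,k0,k1,k1,k2,k2,k1,k1] k0 [] k12 k5
    [[(k8,k3),(k11,k4)],[(k2,k3),(k3,k3),(k9,k3),(k4,k5)],[(k0,k3),(k6,k3),(k7,k3),(k5,k4)],[(k0,k3),(k6,k3),(k7,k3),
    (k5,k4)],[(k2,k4),(k3,k4),(k9,k4),(k4,k6)],[(k0,k5),(k6,k5),(k7,k5),(k5,k6)],[(k2,k3),(k3,k3),(k9,k3),(k4,k5)],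
    [(k2,k3),(k3,k3),(k9,k3),(k4,k5)],[(k0,k3),(k6,k3),(k7,k3),(k5,k4)],[(k1,k3),(k10,k3)],[(k1,k4),(k10,k4)],[(k8,
    k3),(k11,k4)]]
    [] k0
    [[k1,k0,k0,k0,k1,k0],[k1,k0,k0,k0,k1,k1],[k0,k1,k0,k1,k0,k0],[k0,k0,k0,k0,k0,k2]]
    [.ref k8 k0 [(z1,[z1])],.ref k1 k0 [(z1,[z1])],.ref k0 k0 [(z1,[y1,z1])],.contra [z1]])]⟩

/-- classes `0 0 0 0 1 1`, types `C0 C2 C2 C0 C0 C0` -/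
noncomputable def cU6_123 : CertX :=
  ⟨[k4,k6,k6,k4,k20,k20],[(false,k0,[k0,k1,k2,k3,k4,k5])],[[[([z1,z0,z1,z0,z1,z1],z2)],[([z1,z0,z0,z0,z1,z1],z2)],
    [([z1,z0,z0,z0,z1,z0],z2),([z0,z3,z0,z3,z0,z0],z2),([z0,z0,z3,z0,z0,z0],z2)],[([z1,z0,z0,z0,z1,z0],z2),([z0,z1,z0,
    z1,z0,z0],z1),([z0,z0,z3,z0,z0,z0],z1)],[([z1,z0,z0,z0,z1,z0],z2),([z0,z3,z3,z3,z0,z0],z4)],[([z1,z0,z0,z0,z1,z0],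
    z2),([z0,z1,z0,z1,z0,z0],z1),([z0,z0,z2,z0,z0,z0],z1)],[([z1,z0,z0,z0,z1,z0],z2),([z0,z1,z0,z1,z0,z0],z1),([z0,z0,
    z3,z0,z0,z0],z2)],[([z1,z0,z0,z0,z1,z0],z2),([z0,z1,z0,z1,z0,z0],z1)],[([z1,z0,z0,z0,z1,z0],z2)],[]]],
    [.old (.leafM k1 [k4,k5,k0,k2] [] [(k1,k3,z1,[y1,z1]),(k3,k1,z1,[y1,z1])]),
    .old (.leafM k0 [k0,k1,k2,k3,k4,k5] [(z1,[y1,z1])] []),
    .old (.leafM k10 [k1,k2,k3,k5] [(z1,[z0,z0,z1]),(z1,[y3,y1,y1,z3]),(z1,[z0,z1])] [(k4,k0,z1,[z1]),(k0,k4,z1,[z1])]),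
    .old (.leafM k11 [k3,k5,k1,k2] [(z1,[y3,y3,y1,z3]),(z1,[z0,z0,z1]),(z1,[z0,z1])] [(k4,k0,z1,[z1]),(k0,k4,z1,[z1])]),
    .old (.lp [k102,k18,k30,k30,k18,k40] [k0,k0,k42,k42,k36,k36,k36,k36,k42,k42,k31,k31] k0 [] k120 k6
    [[(k8,k60),(k10,k71)],[(k2,k60),(k3,k60),(k9,k60),(k4,k66)],[(k5,k24),(k6,k24),(k7,k24),(k0,k60)],[(k5,k24),(k6,
    k24),(k7,k24),(k0,k60)],[(k2,k24),(k3,k24),(k9,k24),(k4,k30)],[(k5,k30),(k6,k30),(k7,k30),(k0,k66)],[(k2,k24),(k3,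
    k24),(k9,k24),(k4,k30)],[(k2,k24),(k3,k24),(k9,k24),(k4,k30)],[(k5,k24),(k6,k24),(k7,k24),(k0,k60)],[(k11,k29),
    (k1,k60)],[(k8,k29),(k10,k40)],[(k11,k40),(k1,k71)]]
    [] k0
    [[k0,k1,k2,k1,k0,k0],[k0,k1,k1,k1,k0,k0],[k0,k1,k0,k1,k0,k0],[k0,k2,k0,k2,k0,k0],[k0,k0,k2,k0,k0,k0],[k0,k0,k3,k0,
    k0,k0],[k0,k0,k0,k0,k0,k2]]
    [.ref k2 k0 [(z1,[z0,z1]),(z1,[y3,z0,z2]),(z1,[z3,z0,y1])],.contra [z1,y2,y1,z2],.contra [y2,z0,z1],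
    .ref k3 k0 [(z1,[z0,z1]),(z2,[z1]),(z2,[y3,z0,z2])],.contra [z1],.ref k2 k0 [(z1,[z0,z1]),(z1,[y1,z0,z1]),(z1,
    [z1])],.contra [z1]]),
    .old (.leafM k12 [k1,k2,k3,k5] [(z1,[z0,z0,z1]),(z1,[y2,y2,y1,z2]),(z1,[z0,z1])] [(k4,k0,z1,[z1]),(k0,k4,z1,[z1])]),
    .old (.leafM k11 [k1,k2,k3,k5] [(z1,[z0,z0,z1]),(z1,[y3,y3,y1,z3]),(z1,[z0,z1])] [(k4,k0,z1,[z1]),(k0,k4,z1,[z1])]),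
    .old (.lp [k32,k12,k10,k8,k8,k8] [k0,k0,k10,k10,k11,k11,k12,k12,k12,k12,k12,k12] k0 [] k40 k6
    [[(k8,k20),(k10,k20)],[(k9,k20),(k4,k21),(k2,k22),(k3,k22)],[(k6,k10),(k7,k10),(k5,k11),(k0,k22)],[(k6,k10),(k7,
    k10),(k5,k11),(k0,k22)],[(k9,k9),(k4,k10),(k2,k11),(k3,k11)],[(k6,k9),(k7,k9),(k5,k10),(k0,k21)],[(k9,k8),(k4,k9),
    (k2,k10),(k3,k10)],[(k9,k8),(k4,k9),(k2,k10),(k3,k10)],[(k6,k8),(k7,k8),(k5,k9),(k0,k20)],[(k11,k8),(k1,k20)],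
    [(k8,k8),(k10,k8)],[(k11,k8),(k1,k20)]]
    [] k0
    [[k0,k1,k1,k1,k0,k0],[k0,k1,k0,k1,k0,k0],[k0,k0,k2,k0,k0,k0],[k0,k0,k3,k0,k0,k0],[k0,k0,k0,k0,k0,k2],[k0,k0,k0,k0,
    k0,k3],[k0,k0,k0,k0,k0,k4]]
    [.contra [z1,z0,y1],.contra [y1,z0,z2],.contra [z1],.ref k6 k0 [(z1,[z0,z1]),(z1,[z0,z0,z1]),(z1,[z1])],
    .contra [z1],.ref k4 k0 [(z1,[z0,z1]),(z1,[y1,y3,z0,z3])],.ref k5 k0 [(z1,[z0,z1]),(z1,[z0,z0,z1]),(z2,[y1,y4,y4,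
    z4])]]),
    .old (.lp [k102,k18,k40,k30,k18,k30] [k0,k0,k42,k42,k31,k31,k36,k36,k42,k42,k36,k36] k0 [] k120 k6
    [[(k8,k60),(k10,k66)],[(k2,k60),(k3,k60),(k9,k60),(k4,k71)],[(k6,k24),(k7,k24),(k5,k29),(k0,k60)],[(k6,k24),(k7,
    k24),(k5,k29),(k0,k60)],[(k2,k29),(k3,k29),(k9,k29),(k4,k40)],[(k6,k35),(k7,k35),(k5,k40),(k0,k71)],[(k2,k24),(k3,
    k24),(k9,k24),(k4,k35)],[(k2,k24),(k3,k24),(k9,k24),(k4,k35)],[(k6,k24),(k7,k24),(k5,k29),(k0,k60)],[(k11,k24),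
    (k1,k60)],[(k8,k24),(k10,k30)],[(k11,k30),(k1,k66)]]
    [] k0
    [[k0,k1,k1,k1,k0,k0],[k0,k1,k0,k1,k0,k0],[k0,k2,k0,k2,k0,k0],[k0,k0,k2,k0,k0,k0],[k0,k0,k0,k0,k0,k2],[k0,k0,k0,k0,
    k0,k3]]
    [.contra [y1,y1,z1],.contra [y1,y1,z1],.ref k7 k0 [(z1,[z0,z1]),(z2,[z1])],.contra [z1],.contra [z1],
    .ref k4 k0 [(z1,[z0,z1]),(z1,[y1,y3,z3])]]),
    .old (.lp [k4,k2,k6,k4,k2,k4] [k1,k1,k2,k2,k0,k0,k1,k1,k2,k2,k1,k1] k0 [] k12 k5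
    [[(k8,k3),(k10,k4)],[(k2,k3),(k3,k3),(k9,k3),(k4,k5)],[(k0,k3),(k6,k3),(k7,k3),(k5,k4)],[(k0,k3),(k6,k3),(k7,k3),
    (k5,k4)],[(k2,k4),(k3,k4),(k9,k4),(k4,k6)],[(k0,k5),(k6,k5),(k7,k5),(k5,k6)],[(k2,k3),(k3,k3),(k9,k3),(k4,k5)],
    [(k2,k3),(k3,k3),(k9,k3),(k4,k5)],[(k0,k3),(k6,k3),(k7,k3),(k5,k4)],[(k1,k3),(k11,k3)],[(k8,k3),(k10,k4)],[(k1,
    k4),(k11,k4)]]
    [] k0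
    [[k1,k0,k0,k0,k1,k0],[k1,k0,k0,k0,k1,k1],[k0,k1,k0,k1,k0,k0],[k0,k0,k0,k0,k0,k2]]
    [.ref k8 k0 [(z1,[z1])],.ref k1 k0 [(z1,[z1])],.ref k0 k0 [(z1,[y1,z1])],.contra [z1]])]⟩

/-- classes `0 0 0 0 1 1`, types `C0 C2 C2 C0 C0 C2` -/
noncomputable def cU6_124 : CertX :=
  ⟨[k4,k6,k6,k4,k20,k22],[(false,k0,[k0,k1,k2,k3,k4,k5])],[[[([z1,z0,z1,z0,z1,z1],z2)],[([z1,z0,z0,z0,z1,z1],z2)],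
    []]],
    [.old (.leafM k1 [k4,k5,k0,k2] [] [(k1,k3,z1,[y1,z1]),(k3,k1,z1,[y1,z1])]),
    .old (.leafM k0 [k0,k1,k2,k3,k4,k5] [(z1,[y1,z1])] []),
    .old (.lp [k2,k2,k4,k2,k2,k2] [k1,k1,k1,k1,k0,k0,k1,k1,k1,k1,k1,k1] k0 [] k8 k5
    [[(k10,k2),(k11,k2)],[(k2,k2),(k3,k2),(k9,k2),(k4,k3)],[(k0,k2),(k6,k2),(k7,k2),(k5,k3)],[(k0,k2),(k6,k2),(k7,k2),
    (k5,k3)],[(k2,k3),(k3,k3),(k9,k3),(k4,k4)],[(k0,k3),(k6,k3),(k7,k3),(k5,k4)],[(k2,k2),(k3,k2),(k9,k2),(k4,k3)],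
    [(k2,k2),(k3,k2),(k9,k2),(k4,k3)],[(k0,k2),(k6,k2),(k7,k2),(k5,k3)],[(k10,k2),(k11,k2)],[(k1,k2),(k8,k2)],[(k1,
    k2),(k8,k2)]]
    [] k0
    [[k1,k0,k0,k0,k1,k1],[k0,k1,k0,k1,k0,k0]]
    [.ref k1 k0 [(z1,[z1])],.ref k0 k0 [(z1,[y1,z1])]])]⟩

/-- classes `0 0 0 0 1 1`, types `C0 C2 C2 C0 N0 N1` -/
noncomputable def cU6_125 : CertX :=
  ⟨[k4,k6,k6,k4,k28,k29],[(false,k0,[k0,k1,k2,k3,k4,k5])],[[[([z3,z0,z0,z0,z3,z0],z2),([z0,z1,z0,z1,z0,z0],z2),([z0,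
    z0,z3,z0,z0,z0],z2)],[([z1,z0,z0,z0,z1,z0],z1),([z0,z1,z0,z1,z0,z0],z2),([z0,z0,z3,z0,z0,z0],z1)],[([z3,z0,z3,z0,
    z3,z0],z4),([z0,z1,z0,z1,z0,z0],z2)],[([z1,z0,z0,z0,z1,z0],z1),([z0,z1,z0,z1,z0,z0],z2),([z0,z0,z2,z0,z0,z0],z1)],
    [([z1,z0,z0,z0,z1,z0],z1),([z0,z1,z0,z1,z0,z0],z2),([z0,z0,z3,z0,z0,z0],z2)],[([z1,z0,z0,z0,z1,z0],z1),([z0,z1,z0,
    z1,z0,z0],z2)],[([z1,z0,z1,z0,z1,z1],z2)],[([z1,z0,z0,z0,z1,z0],z2),([z0,z3,z0,z3,z0,z0],z2),([z0,z0,z3,z0,z0,z0],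
    z2)],[([z1,z0,z0,z0,z1,z0],z2),([z0,z1,z0,z1,z0,z0],z1),([z0,z0,z3,z0,z0,z0],z1)],[([z1,z0,z0,z0,z1,z0],z2),([z0,
    z3,z3,z3,z0,z0],z4)],[([z1,z0,z0,z0,z1,z0],z2),([z0,z1,z0,z1,z0,z0],z1),([z0,z0,z2,z0,z0,z0],z1)],[([z1,z0,z0,z0,
    z1,z0],z2),([z0,z1,z0,z1,z0,z0],z1),([z0,z0,z3,z0,z0,z0],z2)]],[[([z1,z0,z0,z0,z1,z0],z2),([z0,z1,z0,z1,z0,z0],
    z1)],[([z1,z0,z0,z0,z1,z0],z2)],[]]],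
    [.old (.leafM k10 [k0,k2,k4,k5] [(z1,[z0,z0,z1]),(z1,[y1,y3,y1,z3]),(z1,[z1])] [(k1,k3,z1,[z0,z1]),(k3,k1,z1,[z0,z1])]),
    .old (.leafM k11 [k4,k5,k0,k2] [(z1,[y3,y3,y1,z3]),(z1,[z0,z0,z1]),(z1,[z1])] [(k1,k3,z1,[z0,z1]),(k3,k1,z1,[z0,z1])]),
    .old (.lp [k30,k90,k30,k30,k18,k40] [k30,k30,k0,k0,k30,k30,k30,k30,k36,k36,k25,k25] k0 [] k120 k6
    [[(k8,k24)],[(k9,k24),(k4,k30),(k2,k60),(k3,k60)],[(k0,k60),(k5,k60),(k6,k60),(k7,k60)],[(k0,k60),(k5,k60),(k6,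
    k60),(k7,k60)],[(k9,k24),(k4,k30),(k2,k60),(k3,k60)],[(k0,k30),(k5,k30),(k6,k30),(k7,k30)],[(k9,k24),(k4,k30),(k2,
    k60),(k3,k60)],[(k9,k24),(k4,k30),(k2,k60),(k3,k60)],[(k0,k24),(k5,k24),(k6,k24),(k7,k24)],[(k1,k24)],[(k10,k40)],
    [(k11,k40)]]
    [] k0
    [[k1,k0,k0,k0,k1,k0],[k2,k0,k0,k0,k2,k0],[k1,k0,k1,k0,k1,k0],[k1,k0,k2,k0,k1,k0],[k0,k0,k2,k0,k0,k0],[k0,k0,k3,k0,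
    k0,k0],[k0,k0,k0,k0,k0,k2]]
    [.contra [y3,z1,z1],.ref k1 k0 [(z2,[z1]),(z1,[z0,z0,z1]),(z2,[y3,z2])],.contra [z1,y1,y2,z2],.ref k0 k0 [(z1,[y3,
    z2]),(z1,[z0,z0,z1]),(z1,[z3,y1])],.contra [z1],.ref k0 k0 [(z1,[y1,z1]),(z1,[z0,z0,z1]),(z1,[z1])],.contra [z1]]),
    .old (.leafM k12 [k0,k2,k4,k5] [(z1,[z0,z0,z1]),(z1,[y2,y2,y1,z2]),(z1,[z1])] [(k1,k3,z1,[z0,z1]),(k3,k1,z1,[z0,z1])]),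
    .old (.leafM k11 [k0,k2,k4,k5] [(z1,[z0,z0,z1]),(z1,[y3,y3,y1,z3]),(z1,[z1])] [(k1,k3,z1,[z0,z1]),(k3,k1,z1,[z0,z1])]),
    .old (.lp [k14,k30,k10,k10,k6,k8] [k8,k8,k0,k0,k10,k10,k10,k10,k12,k12,k11,k11] k0 [] k40 k6
    [[(k8,k10)],[(k9,k10),(k4,k12),(k2,k22),(k3,k22)],[(k5,k20),(k6,k20),(k7,k20),(k0,k22)],[(k5,k20),(k6,k20),(k7,
    k20),(k0,k22)],[(k9,k8),(k4,k10),(k2,k20),(k3,k20)],[(k5,k10),(k6,k10),(k7,k10),(k0,k12)],[(k9,k8),(k4,k10),(k2,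
    k20),(k3,k20)],[(k9,k8),(k4,k10),(k2,k20),(k3,k20)],[(k5,k8),(k6,k8),(k7,k8),(k0,k10)],[(k1,k10)],[(k10,k8)],
    [(k11,k8)]]
    [] k0
    [[k1,k0,k0,k0,k1,k0],[k1,k0,k1,k0,k1,k0],[k0,k0,k2,k0,k0,k0],[k0,k0,k3,k0,k0,k0],[k0,k0,k0,k0,k0,k2],[k0,k0,k0,k0,
    k0,k3],[k0,k0,k0,k0,k0,k4]]
    [.contra [y2,z2,z1],.contra [z1,y1],.contra [z1],.ref k4 k0 [(z1,[z0,z1]),(z1,[z0,z0,z1]),(z1,[z1])],.contra [z1],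
    .ref k2 k0 [(z1,[y1,z0,y3,z3]),(z1,[z0,z0,z1])],.ref k3 k0 [(z1,[z0,z1]),(z1,[z0,z0,z1]),(z2,[y1,y4,y4,z4])]]),
    .old (.lp [k40,k80,k40,k40,k8,k30] [k20,k20,k0,k0,k20,k20,k20,k20,k36,k36,k25,k25] k0 [] k120 k6
    [[(k8,k24)],[(k9,k24),(k4,k40),(k2,k60),(k3,k60)],[(k0,k60),(k5,k60),(k6,k60),(k7,k60)],[(k0,k60),(k5,k60),(k6,
    k60),(k7,k60)],[(k9,k24),(k4,k40),(k2,k60),(k3,k60)],[(k0,k40),(k5,k40),(k6,k40),(k7,k40)],[(k9,k24),(k4,k40),(k2,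
    k60),(k3,k60)],[(k9,k24),(k4,k40),(k2,k60),(k3,k60)],[(k0,k24),(k5,k24),(k6,k24),(k7,k24)],[(k1,k24)],[(k10,k30)],
    [(k11,k30)]]
    [] k0
    [[k1,k0,k0,k0,k1,k0],[k2,k0,k0,k0,k2,k0],[k1,k0,k1,k0,k1,k0],[k0,k0,k2,k0,k0,k0],[k0,k0,k0,k0,k0,k2],[k0,k0,k0,k0,
    k0,k3]]
    [.contra [y1,z1],.ref k5 k0 [(z2,[z1]),(z1,[z0,y1,z1])],.contra [y1,z1],.contra [z1],.contra [z1],.ref k2 k0 [(z1,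
    [y1,z3]),(z1,[z0,y1,z1])]]),
    .old (.leafM k10 [k1,k2,k3,k5] [(z1,[z0,z0,z1]),(z1,[y3,y1,y1,z3]),(z1,[z0,z1])] [(k4,k0,z1,[z1]),(k0,k4,z1,[z1])]),
    .old (.leafM k11 [k3,k5,k1,k2] [(z1,[y3,y3,y1,z3]),(z1,[z0,z0,z1]),(z1,[z0,z1])] [(k4,k0,z1,[z1]),(k0,k4,z1,[z1])]),
    .old (.lp [k102,k18,k30,k30,k18,k40] [k0,k0,k42,k42,k36,k36,k36,k36,k42,k42,k31,k31] k0 [] k120 k6
    [[(k8,k60)],[(k2,k60),(k3,k60),(k9,k60),(k4,k66)],[(k5,k24),(k6,k24),(k7,k24),(k0,k60)],[(k5,k24),(k6,k24),(k7,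
    k24),(k0,k60)],[(k2,k24),(k3,k24),(k9,k24),(k4,k30)],[(k5,k30),(k6,k30),(k7,k30),(k0,k66)],[(k2,k24),(k3,k24),(k9,
    k24),(k4,k30)],[(k2,k24),(k3,k24),(k9,k24),(k4,k30)],[(k5,k24),(k6,k24),(k7,k24),(k0,k60)],[(k1,k60)],[(k10,k40)],
    [(k11,k40)]]
    [] k0
    [[k0,k1,k2,k1,k0,k0],[k0,k1,k1,k1,k0,k0],[k0,k1,k0,k1,k0,k0],[k0,k2,k0,k2,k0,k0],[k0,k0,k2,k0,k0,k0],[k0,k0,k3,k0,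
    k0,k0],[k0,k0,k0,k0,k0,k2]]
    [.ref k7 k0 [(z1,[z0,z1]),(z1,[y3,z0,z2]),(z1,[z3,z0,y1])],.contra [z1,y2,y1,z2],.contra [y2,z0,z1],
    .ref k8 k0 [(z1,[z0,z1]),(z2,[z1]),(z2,[y3,z0,z2])],.contra [z1],.ref k7 k0 [(z1,[z0,z1]),(z1,[y1,z0,z1]),(z1,
    [z1])],.contra [z1]]),
    .old (.leafM k12 [k1,k2,k3,k5] [(z1,[z0,z0,z1]),(z1,[y2,y2,y1,z2]),(z1,[z0,z1])] [(k4,k0,z1,[z1]),(k0,k4,z1,[z1])]),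
    .old (.leafM k11 [k1,k2,k3,k5] [(z1,[z0,z0,z1]),(z1,[y3,y3,y1,z3]),(z1,[z0,z1])] [(k4,k0,z1,[z1]),(k0,k4,z1,[z1])]),
    .old (.lp [k34,k10,k10,k10,k6,k8] [k0,k0,k12,k12,k12,k12,k12,k12,k14,k14,k13,k13] k0 [] k40 k6
    [[(k8,k20)],[(k9,k20),(k2,k22),(k3,k22),(k4,k22)],[(k5,k10),(k6,k10),(k7,k10),(k0,k22)],[(k5,k10),(k6,k10),(k7,
    k10),(k0,k22)],[(k9,k8),(k2,k10),(k3,k10),(k4,k10)],[(k5,k10),(k6,k10),(k7,k10),(k0,k22)],[(k9,k8),(k2,k10),(k3,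
    k10),(k4,k10)],[(k9,k8),(k2,k10),(k3,k10),(k4,k10)],[(k5,k8),(k6,k8),(k7,k8),(k0,k20)],[(k1,k20)],[(k10,k8)],
    [(k11,k8)]]
    [] k0
    [[k0,k1,k1,k1,k0,k0],[k0,k1,k0,k1,k0,k0],[k0,k0,k2,k0,k0,k0],[k0,k0,k3,k0,k0,k0],[k0,k0,k0,k0,k0,k2],[k0,k0,k0,k0,
    k0,k3],[k0,k0,k0,k0,k0,k4]]
    [.contra [z1,z0,y1],.contra [y1,z0,z2],.contra [z1],.ref k11 k0 [(z1,[z0,z1]),(z1,[z0,z0,z1]),(z1,[z1])],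
    .contra [z1],.ref k9 k0 [(z1,[z0,z1]),(z1,[y1,y3,z0,z3])],.ref k10 k0 [(z1,[z0,z1]),(z1,[z0,z0,z1]),(z2,[y1,y4,y4,
    z4])]]),
    .old (.lp [k112,k8,k40,k40,k8,k30] [k0,k0,k52,k52,k36,k36,k36,k36,k52,k52,k41,k41] k0 [] k120 k6
    [[(k8,k60)],[(k2,k60),(k3,k60),(k9,k60),(k4,k76)],[(k5,k24),(k6,k24),(k7,k24),(k0,k60)],[(k5,k24),(k6,k24),(k7,
    k24),(k0,k60)],[(k2,k24),(k3,k24),(k9,k24),(k4,k40)],[(k5,k40),(k6,k40),(k7,k40),(k0,k76)],[(k2,k24),(k3,k24),(k9,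
    k24),(k4,k40)],[(k2,k24),(k3,k24),(k9,k24),(k4,k40)],[(k5,k24),(k6,k24),(k7,k24),(k0,k60)],[(k1,k60)],[(k10,k30)],
    [(k11,k30)]]
    [] k0
    [[k0,k1,k1,k1,k0,k0],[k0,k1,k0,k1,k0,k0],[k0,k2,k0,k2,k0,k0],[k0,k0,k2,k0,k0,k0],[k0,k0,k0,k0,k0,k2],[k0,k0,k0,k0,
    k0,k3]]
    [.contra [y1,y1,z1],.contra [y1,y1,z1],.ref k12 k0 [(z1,[z0,z1]),(z2,[z1])],.contra [z1],.contra [z1],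
    .ref k9 k0 [(z1,[z0,z1]),(z1,[y1,y3,z3])]]),
    .old (.lp [k6,k0,k6,k6,k0,k4] [k0,k0,k3,k3,k0,k0,k0,k0,k3,k3,k1,k1] k0 [] k12 k5
    [[(k8,k3)],[(k2,k3),(k3,k3),(k9,k3),(k4,k6)],[(k0,k3),(k5,k3),(k6,k3),(k7,k3)],[(k0,k3),(k5,k3),(k6,k3),(k7,k3)],
    [(k2,k3),(k3,k3),(k9,k3),(k4,k6)],[(k0,k6),(k5,k6),(k6,k6),(k7,k6)],[(k2,k3),(k3,k3),(k9,k3),(k4,k6)],[(k2,k3),
    (k3,k3),(k9,k3),(k4,k6)],[(k0,k3),(k5,k3),(k6,k3),(k7,k3)],[(k1,k3)],[(k10,k4)],[(k11,k4)]]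
    [] k0
    [[k1,k0,k0,k0,k1,k0],[k0,k1,k0,k1,k0,k0],[k0,k0,k0,k0,k0,k2]]
    [.ref k13 k0 [(z1,[z1])],.ref k6 k0 [(z1,[y1,z1])],.contra [z1]])]⟩

/-- classes `0 0 0 0 1 1`, types `C0 C2 C2 C0 N0 N2` -/
noncomputable def cU6_126 : CertX :=
  ⟨[k4,k6,k6,k4,k28,k30],[(false,k0,[k0,k1,k2,k3,k4,k5])],[[[([z1,z0,z1,z0,z1,z1],z2)],[([z1,z0,z0,z0,z1,z1],z2)],
    []]],
    [.old (.leafM k3 [k0,k2,k4,k5] [] [(k1,k3,z1,[y1,z1]),(k3,k1,z1,[y1,z1])]),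
    .old (.leafM k4 [k4,k5,k0,k1,k2,k3] [(z1,[y1,z1])] []),
    .old (.lp [k2,k2,k4,k2,k2,k2] [k1,k1,k1,k1,k0,k0,k1,k1,k1,k1,k1,k1] k0 [] k8 k5
    [[(k11,k2)],[(k2,k2),(k3,k2),(k9,k2),(k4,k3)],[(k0,k2),(k6,k2),(k7,k2),(k5,k3)],[(k0,k2),(k6,k2),(k7,k2),(k5,k3)],
    [(k2,k3),(k3,k3),(k9,k3),(k4,k4)],[(k0,k3),(k6,k3),(k7,k3),(k5,k4)],[(k2,k2),(k3,k2),(k9,k2),(k4,k3)],[(k2,k2),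
    (k3,k2),(k9,k2),(k4,k3)],[(k0,k2),(k6,k2),(k7,k2),(k5,k3)],[(k10,k2)],[(k1,k2)],[(k8,k2)]]
    [] k0
    [[k1,k0,k0,k0,k1,k1],[k0,k1,k0,k1,k0,k0]]
    [.ref k1 k0 [(z1,[z1])],.ref k0 k0 [(z1,[y1,z1])]])]⟩

/-- classes `0 0 0 0 1 1`, types `C0 C2 C2 C0 S0 S0` -/
noncomputable def cU6_127 : CertX :=
  ⟨[k4,k6,k6,k4,k16,k16],[(false,k0,[k0,k1,k2,k3,k4,k5])],[[[([z1,z0,z1,z0,z1,z1],z2)],[([z1,z0,z0,z0,z1,z1],z2)],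
    [([z1,z0,z0,z0,z1,z0],z2),([z0,z3,z0,z3,z0,z0],z2),([z0,z0,z3,z0,z0,z0],z2)],[([z1,z0,z0,z0,z1,z0],z2),([z0,z1,z0,
    z1,z0,z0],z1),([z0,z0,z3,z0,z0,z0],z1)],[([z1,z0,z0,z0,z1,z0],z2),([z0,z3,z3,z3,z0,z0],z4)],[([z1,z0,z0,z0,z1,z0],
    z2),([z0,z1,z0,z1,z0,z0],z1),([z0,z0,z2,z0,z0,z0],z1)],[([z1,z0,z0,z0,z1,z0],z2),([z0,z1,z0,z1,z0,z0],z1),([z0,z0,
    z3,z0,z0,z0],z2)],[([z1,z0,z0,z0,z1,z0],z2),([z0,z1,z0,z1,z0,z0],z1)],[([z1,z0,z0,z0,z1,z0],z2)],[]]],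
    [.old (.leafM k1 [k4,k5,k0,k2] [] [(k1,k3,z1,[y1,z1]),(k3,k1,z1,[y1,z1])]),
    .old (.leafM k0 [k0,k1,k2,k3,k4,k5] [(z1,[y1,z1])] []),
    .old (.leafM k10 [k1,k2,k3,k5] [(z1,[z0,z0,z1]),(z1,[y3,y1,y1,z3]),(z1,[z0,z1])] [(k4,k0,z1,[z1]),(k0,k4,z1,[z1])]),
    .old (.leafM k11 [k3,k5,k1,k2] [(z1,[y3,y3,y1,z3]),(z1,[z0,z0,z1]),(z1,[z0,z1])] [(k4,k0,z1,[z1]),(k0,k4,z1,[z1])]),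
    .old (.lp [k150,k36,k60,k60,k90,k80] [k0,k0,k57,k57,k45,k45,k45,k45,k30,k30,k35,k35] k0 [] (nat_lit 240) k6
    [[(k10,k115),(k11,k115),(k8,k120),(k1,k150)],[(k2,k93),(k3,k93),(k4,k105),(k9,k120)],[(k5,k48),(k6,k48),(k7,k48),
    (k0,k93)],[(k5,k48),(k6,k48),(k7,k48),(k0,k93)],[(k2,k48),(k3,k48),(k4,k60),(k9,k75)],[(k5,k60),(k6,k60),(k7,k60),
    (k0,k105)],[(k2,k48),(k3,k48),(k4,k60),(k9,k75)],[(k2,k48),(k3,k48),(k4,k60),(k9,k75)],[(k5,k75),(k6,k75),(k7,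
    k75),(k0,k120)],[(k10,k85),(k11,k85),(k8,k90),(k1,k120)],[(k10,k80),(k11,k80),(k8,k85),(k1,k115)],[(k10,k80),(k11,
    k80),(k8,k85),(k1,k115)]]
    [] k0
    [[k0,k1,k2,k1,k0,k0],[k0,k1,k1,k1,k0,k0],[k0,k1,k0,k1,k0,k0],[k0,k2,k0,k2,k0,k0],[k0,k0,k2,k0,k0,k0],[k0,k0,k3,k0,
    k0,k0],[k0,k0,k0,k0,k0,k2]]
    [.ref k2 k0 [(z1,[z0,z1]),(z1,[y3,z0,z2]),(z1,[z3,z0,y1])],.contra [z1,y2,y1,z2],.contra [y2,z0,z1],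
    .ref k3 k0 [(z1,[z0,z1]),(z2,[z1]),(z2,[y3,z0,z2])],.contra [z1],.ref k2 k0 [(z1,[z0,z1]),(z1,[y1,z0,z1]),(z1,
    [z1])],.contra [z1]]),
    .old (.leafM k12 [k1,k2,k3,k5] [(z1,[z0,z0,z1]),(z1,[y2,y2,y1,z2]),(z1,[z0,z1])] [(k4,k0,z1,[z1]),(k0,k4,z1,[z1])]),
    .old (.leafM k11 [k1,k2,k3,k5] [(z1,[z0,z0,z1]),(z1,[y3,y3,y1,z3]),(z1,[z0,z1])] [(k4,k0,z1,[z1]),(k0,k4,z1,[z1])]),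
    .old (.lp [k54,k12,k20,k28,k26,k16] [k0,k0,k21,k21,k17,k17,k13,k13,k14,k14,k19,k19] k0 [] k80 k6
    [[(k10,k35),(k11,k35),(k8,k40),(k1,k54)],[(k2,k33),(k3,k33),(k4,k37),(k9,k40)],[(k5,k16),(k6,k20),(k7,k20),(k0,
    k33)],[(k5,k16),(k6,k20),(k7,k20),(k0,k33)],[(k2,k16),(k3,k16),(k4,k20),(k9,k23)],[(k5,k20),(k6,k24),(k7,k24),(k0,
    k37)],[(k2,k20),(k3,k20),(k4,k24),(k9,k27)],[(k2,k20),(k3,k20),(k4,k24),(k9,k27)],[(k5,k23),(k6,k27),(k7,k27),(k0,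
    k40)],[(k10,k21),(k11,k21),(k8,k26),(k1,k40)],[(k10,k16),(k11,k16),(k8,k21),(k1,k35)],[(k10,k16),(k11,k16),(k8,
    k21),(k1,k35)]]
    [] k0
    [[k0,k1,k1,k1,k0,k0],[k0,k1,k0,k1,k0,k0],[k0,k0,k2,k0,k0,k0],[k0,k0,k3,k0,k0,k0],[k0,k0,k0,k0,k0,k2],[k0,k0,k0,k0,
    k0,k3],[k0,k0,k0,k0,k0,k4]]
    [.contra [z1,z0,y1],.contra [y1,z0,z2],.contra [z1],.ref k6 k0 [(z1,[z0,z1]),(z1,[z0,z0,z1]),(z1,[z1])],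
    .contra [z1],.ref k4 k0 [(z1,[z0,z1]),(z1,[y1,y3,z0,z3])],.ref k5 k0 [(z1,[z0,z1]),(z1,[z0,z0,z1]),(z2,[y1,y4,y4,
    z4])]]),
    .old (.lp [k80,k8,k40,k40,k40,k30] [k0,k0,k36,k36,k20,k20,k20,k20,k20,k20,k25,k25] k0 [] k120 k6
    [[(k10,k55),(k11,k55),(k8,k60),(k1,k80)],[(k2,k44),(k3,k44),(k4,k60),(k9,k60)],[(k5,k24),(k6,k24),(k7,k24),(k0,
    k44)],[(k5,k24),(k6,k24),(k7,k24),(k0,k44)],[(k2,k24),(k3,k24),(k4,k40),(k9,k40)],[(k5,k40),(k6,k40),(k7,k40),(k0,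
    k60)],[(k2,k24),(k3,k24),(k4,k40),(k9,k40)],[(k2,k24),(k3,k24),(k4,k40),(k9,k40)],[(k5,k40),(k6,k40),(k7,k40),(k0,
    k60)],[(k10,k35),(k11,k35),(k8,k40),(k1,k60)],[(k10,k30),(k11,k30),(k8,k35),(k1,k55)],[(k10,k30),(k11,k30),(k8,
    k35),(k1,k55)]]
    [] k0
    [[k0,k1,k1,k1,k0,k0],[k0,k1,k0,k1,k0,k0],[k0,k2,k0,k2,k0,k0],[k0,k0,k2,k0,k0,k0],[k0,k0,k0,k0,k0,k2],[k0,k0,k0,k0,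
    k0,k3]]
    [.contra [y1,y1,z1],.contra [y1,y1,z1],.ref k7 k0 [(z1,[z0,z1]),(z2,[z1])],.contra [z1],.contra [z1],
    .ref k4 k0 [(z1,[z0,z1]),(z1,[y1,y3,z3])]]),
    .old (.lp [k10,k4,k8,k8,k8,k8] [k0,k0,k3,k3,k1,k1,k1,k1,k1,k1,k1,k1] k0 [] k24 k5
    [[(k8,k9),(k10,k9),(k11,k9),(k1,k10)],[(k2,k7),(k3,k7),(k4,k9),(k9,k9)],[(k5,k6),(k6,k6),(k7,k6),(k0,k7)],[(k5,
    k6),(k6,k6),(k7,k6),(k0,k7)],[(k2,k6),(k3,k6),(k4,k8),(k9,k8)],[(k5,k8),(k6,k8),(k7,k8),(k0,k9)],[(k2,k6),(k3,k6),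
    (k4,k8),(k9,k8)],[(k2,k6),(k3,k6),(k4,k8),(k9,k8)],[(k5,k8),(k6,k8),(k7,k8),(k0,k9)],[(k8,k8),(k10,k8),(k11,k8),
    (k1,k9)],[(k8,k8),(k10,k8),(k11,k8),(k1,k9)],[(k8,k8),(k10,k8),(k11,k8),(k1,k9)]]
    [] k0
    [[k1,k0,k0,k0,k1,k0],[k0,k1,k1,k1,k0,k0],[k0,k1,k0,k1,k0,k0],[k0,k0,k2,k0,k0,k0],[k0,k0,k0,k0,k0,k2]]
    [.ref k8 k0 [(z1,[z1])],.ref k1 k0 [(z1,[y1,z1])],.ref k0 k0 [(z1,[y1,z1])],.contra [z1],.contra [z1]])]⟩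

/-- classes `0 0 0 0 1 1`, types `N0 N0 N1 N1 B0 B1` -/
noncomputable def cU6_128 : CertX :=
  ⟨[k12,k12,k13,k13,k24,k25],[(false,k0,[k0,k1,k2,k3,k4,k5])],[[[([z3,z0,z0,z0,z3,z0],z2),([z0,z1,z0,z1,z0,z0],z2),
    ([z0,z0,z3,z0,z0,z0],z2)],[([z1,z0,z0,z0,z1,z0],z1),([z0,z1,z0,z1,z0,z0],z2),([z0,z0,z3,z0,z0,z0],z2)],[([z3,z0,
    z0,z0,z3,z3],z4),([z0,z1,z0,z1,z0,z0],z2)],[([z1,z0,z0,z0,z1,z0],z1),([z0,z1,z0,z1,z0,z0],z2),([z0,z0,z3,z0,z0,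
    z0],z1)],[([z1,z0,z0,z0,z1,z0],z1),([z0,z1,z0,z1,z0,z0],z2),([z0,z0,z2,z0,z0,z0],z1)],[([z1,z0,z0,z0,z1,z0],z1),
    ([z0,z1,z0,z1,z0,z0],z2)],[([z1,z0,z1,z0,z1,z1],z2)],[([z1,z0,z0,z0,z1,z0],z2),([z0,z3,z0,z3,z0,z0],z2),([z0,z0,
    z3,z0,z0,z0],z2)],[([z1,z0,z0,z0,z1,z0],z2),([z0,z1,z0,z1,z0,z0],z1),([z0,z0,z3,z0,z0,z0],z2)],[([z1,z0,z0,z0,z1,
    z0],z2),([z0,z3,z0,z3,z0,z3],z4)],[([z1,z0,z0,z0,z1,z0],z2),([z0,z1,z0,z1,z0,z0],z1),([z0,z0,z3,z0,z0,z0],z1)],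
    [([z1,z0,z0,z0,z1,z0],z2),([z0,z1,z0,z1,z0,z0],z1),([z0,z0,z2,z0,z0,z0],z1)]],[[([z1,z0,z0,z0,z1,z0],z2),([z0,z1,
    z0,z1,z0,z0],z1)],[([z1,z0,z0,z0,z1,z0],z2)],[]]],
    [.old (.leafM k10 [k0,k2,k4,k5] [(z1,[z0,z0,z1]),(z1,[y1,y3,y1,z3]),(z1,[z1])] [(k1,k3,z1,[z0,z1]),(k3,k1,z1,[z0,z1])]),
    .old (.leafM k11 [k0,k2,k4,k5] [(z1,[z0,z0,z1]),(z1,[y3,y3,y1,z3]),(z1,[z1])] [(k1,k3,z1,[z0,z1]),(k3,k1,z1,[z0,z1])]),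
    .old (.lp [k30,k102,k40,k18,k18,k30] [k36,k36,k0,k0,k31,k31,k42,k42,k42,k42,k36,k36] k0 [] k120 k6
    [[(k8,k24),(k11,k30)],[(k7,k24),(k9,k24)],[(k6,k60),(k4,k71)],[(k7,k60),(k9,k60)],[(k6,k29),(k4,k40)],[(k5,k40),
    (k3,k71)],[(k0,k24),(k2,k60)],[(k5,k29),(k3,k60)],[(k0,k24),(k2,k60)],[(k1,k24),(k10,k24)],[(k1,k30),(k10,k30)],
    [(k8,k24),(k11,k30)]]
    [] k0
    [[k1,k0,k0,k0,k1,k0],[k2,k0,k0,k0,k2,k0],[k1,k0,k0,k0,k1,k1],[k1,k0,k0,k0,k1,k2],[k0,k0,k2,k0,k0,k0],[k0,k0,k0,k0,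
    k0,k2],[k0,k0,k0,k0,k0,k3]]
    [.contra [y1,z0,y1,z1],.ref k1 k0 [(z2,[z1]),(z1,[z0,z0,z1]),(z1,[z0,y1,y3,z3])],.contra [z1,y1,y2,z2],
    .ref k0 k0 [(z1,[y3,z2]),(z1,[z0,z0,z1]),(z1,[z0,y1,y3,z3])],.contra [z1],.contra [z1],.ref k0 k0 [(z1,[y1,z1]),
    (z1,[z0,z0,z1]),(z1,[z0,y1,y3,z3])]]),
    .old (.leafM k11 [k4,k5,k0,k2] [(z1,[y3,y3,y1,z3]),(z1,[z0,z0,z1]),(z1,[z1])] [(k1,k3,z1,[z0,z1]),(k3,k1,z1,[z0,z1])]),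
    .old (.leafM k12 [k0,k2,k4,k5] [(z1,[z0,z0,z1]),(z1,[y2,y2,y1,z2]),(z1,[z1])] [(k1,k3,z1,[z0,z1]),(k3,k1,z1,[z0,z1])]),
    .old (.lp [k14,k32,k8,k8,k6,k10] [k9,k9,k0,k0,k12,k12,k12,k12,k13,k13,k11,k11] k0 [] k40 k6
    [[(k8,k10),(k11,k12)],[(k9,k10),(k7,k11)],[(k4,k20),(k6,k20)],[(k9,k19),(k7,k20)],[(k4,k8),(k6,k8)],[(k5,k8),(k3,
    k20)],[(k0,k11),(k2,k20)],[(k5,k8),(k3,k20)],[(k0,k10),(k2,k19)],[(k10,k8),(k1,k10)],[(k10,k10),(k1,k12)],[(k8,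
    k8),(k11,k10)]]
    [] k0
    [[k1,k0,k0,k0,k1,k0],[k1,k0,k0,k0,k1,k1],[k0,k0,k2,k0,k0,k0],[k0,k0,k3,k0,k0,k0],[k0,k0,k4,k0,k0,k0],[k0,k0,k0,k0,
    k0,k2],[k0,k0,k0,k0,k0,k3]]
    [.contra [y2,z2,z1],.contra [z1,y1],.contra [z1],.ref k2 k0 [(z1,[y1,z0,y3,z3]),(z1,[z0,z0,z1])],.ref k4 k0 [(z1,
    [z0,z1]),(z1,[z0,z0,z1]),(z2,[z1])],.contra [z1],.ref k3 k0 [(z1,[z0,z1]),(z1,[z0,z0,z1]),(z1,[y1,y3,y3,z3])]]),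
    .old (.lp [k40,k102,k30,k18,k8,k40] [k31,k31,k0,k0,k36,k36,k42,k42,k47,k47,k31,k31] k0 [] k120 k6
    [[(k8,k24),(k11,k40)],[(k9,k24),(k7,k29)],[(k6,k60),(k4,k66)],[(k9,k55),(k7,k60)],[(k6,k24),(k4,k30)],[(k5,k30),
    (k3,k66)],[(k0,k29),(k2,k60)],[(k5,k24),(k3,k60)],[(k0,k24),(k2,k55)],[(k1,k24),(k10,k24)],[(k1,k40),(k10,k40)],
    [(k8,k24),(k11,k40)]]
    [] k0
    [[k1,k0,k0,k0,k1,k0],[k2,k0,k0,k0,k2,k0],[k1,k0,k0,k0,k1,k1],[k0,k0,k2,k0,k0,k0],[k0,k0,k3,k0,k0,k0],[k0,k0,k0,k0,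
    k0,k2]]
    [.contra [y1,z1],.ref k5 k0 [(z2,[z1]),(z1,[z0,y1,z1])],.contra [y1,z1],.contra [z1],.ref k2 k0 [(z1,[y1,z3]),(z1,
    [z0,y1,z1])],.contra [z1]]),
    .old (.leafM k10 [k1,k2,k3,k5] [(z1,[z0,z0,z1]),(z1,[y3,y1,y1,z3]),(z1,[z0,z1])] [(k4,k0,z1,[z1]),(k0,k4,z1,[z1])]),
    .old (.leafM k11 [k1,k2,k3,k5] [(z1,[z0,z0,z1]),(z1,[y3,y3,y1,z3]),(z1,[z0,z1])] [(k4,k0,z1,[z1]),(k0,k4,z1,[z1])]),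
    .old (.lp [(nat_lit 14586),(nat_lit 7020),(nat_lit 5720),k0,(nat_lit 2574),(nat_lit 4290)] [k0,k0,(nat_lit 3783),
    (nat_lit 3783),(nat_lit 4433),(nat_lit 4433),(nat_lit 7293),(nat_lit 7293),(nat_lit 6006),(nat_lit 6006),
    (nat_lit 5148),(nat_lit 5148)] k0 [[k0,k0,k0,k0,(nat_lit 3120)],[],[k0,k0,k0,k0,k0,k0,(nat_lit 1320)],[],[],[k0,
    (nat_lit 3120)],[],[k0,k0,k0,(nat_lit 1320)]] (nat_lit 17160) k6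
    [[(k8,(nat_lit 8580)),(k11,(nat_lit 9438))],[(k7,(nat_lit 4173)),(k9,(nat_lit 8580))],[(k6,(nat_lit 3510)),(k4,
    (nat_lit 9490))],[(k9,(nat_lit 3477)),(k7,(nat_lit 3510))],[(k6,(nat_lit 4180)),(k4,(nat_lit 5720))],[(k5,
    (nat_lit 5720)),(k3,(nat_lit 9490))],[(k2,(nat_lit 3510)),(k0,(nat_lit 4173))],[(k3,(nat_lit 3510)),(k5,
    (nat_lit 4180))],[(k2,(nat_lit 3477)),(k0,(nat_lit 8580))],[(k10,(nat_lit 3432)),(k1,(nat_lit 8580))],[(k10,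
    (nat_lit 4290)),(k1,(nat_lit 9438))],[(k8,(nat_lit 3432)),(k11,(nat_lit 4290))]]
    [] k0
    [[k0,k1,k0,k1,k0,k0],[k0,k2,k0,k2,k0,k0],[k0,k0,k2,k0,k0,k0],[k0,k0,k0,k0,k0,k2],[k0,k0,k0,k0,k0,k3]]
    [.contra [y1,y1,z0,z1],.ref k8 k0 [(z1,[z0,z1]),(z2,[z1]),(z1,[z0,y3,y1,z3])],.contra [z1],.contra [z1],
    .ref k7 k0 [(z1,[z0,z1]),(z1,[y1,z0,z1]),(z1,[z0,y3,y1,z3])]]),
    .old (.leafM k11 [k3,k5,k1,k2] [(z1,[y3,y3,y1,z3]),(z1,[z0,z0,z1]),(z1,[z0,z1])] [(k4,k0,z1,[z1]),(k0,k4,z1,[z1])]),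
    .old (.leafM k12 [k1,k2,k3,k5] [(z1,[z0,z0,z1]),(z1,[y2,y2,y1,z2]),(z1,[z0,z1])] [(k4,k0,z1,[z1]),(k0,k4,z1,[z1])]),
    .old (.lp [(nat_lit 1399008),(nat_lit 889200),(nat_lit 437190),k0,(nat_lit 349752),(nat_lit 349752)] [k0,k0,
    (nat_lit 254904),(nat_lit 254904),(nat_lit 480909),(nat_lit 480909),(nat_lit 699504),(nat_lit 699504),
    (nat_lit 524628),(nat_lit 524628),(nat_lit 524628),(nat_lit 524628)] k0 [[k0,k0,k0,k0,(nat_lit 153400)],[],[k0,k0,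
    k0,k0,k0,k0,(nat_lit 269040)],[],[],[k0,(nat_lit 153400)],[],[k0,k0,k0,(nat_lit 269040)]] (nat_lit 1748760) k6
    [[(k8,(nat_lit 874380)),(k11,(nat_lit 874380))],[(k7,(nat_lit 546104)),(k9,(nat_lit 874380))],[(k6,
    (nat_lit 444600)),(k4,(nat_lit 816595))],[(k9,(nat_lit 350436)),(k7,(nat_lit 444600))],[(k4,(nat_lit 437190)),(k6,
    (nat_lit 487635))],[(k5,(nat_lit 437190)),(k3,(nat_lit 816595))],[(k2,(nat_lit 444600)),(k0,(nat_lit 546104))],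
    [(k3,(nat_lit 444600)),(k5,(nat_lit 487635))],[(k2,(nat_lit 350436)),(k0,(nat_lit 874380))],[(k10,
    (nat_lit 349752)),(k1,(nat_lit 874380))],[(k10,(nat_lit 349752)),(k1,(nat_lit 874380))],[(k8,(nat_lit 349752)),
    (k11,(nat_lit 349752))]]
    [] k0
    [[k0,k1,k0,k1,k0,k0],[k0,k0,k2,k0,k0,k0],[k0,k0,k3,k0,k0,k0],[k0,k0,k0,k0,k0,k2],[k0,k0,k0,k0,k0,k3],[k0,k0,k0,k0,
    k0,k4]]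
    [.contra [y1,z0,z2],.contra [z1],.ref k9 k0 [(z1,[z0,z1]),(z1,[y1,y3,z0,z3])],.contra [z1],.ref k10 k0 [(z1,[z0,
    z1]),(z1,[z0,z0,z1]),(z1,[y1,y3,y3,z3])],.ref k11 k0 [(z1,[z0,z1]),(z1,[z0,z0,z1]),(z2,[y1,y4,y4,z4])]]),
    .old (.lp [k104,k50,k30,k0,k15,k40] [k0,k0,k27,k27,k37,k37,k52,k52,k48,k41,k32,k32] k0 [[k0,k0,k0,k0,k28],[k0,k0,k0,
    k0,k0,k0,k0,k1],[k0,k0,k0,k0,k0,k0,k12],[],[],[k0,k28],[k1],[k0,k0,k0,k12]] k120 k6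
    [[(k8,k56),(k11,k72)],[(k7,k24),(k9,k64)],[(k6,k24),(k4,k68)],[(k9,k24),(k7,k25)],[(k6,k27),(k4,k30)],[(k5,k30),
    (k3,k68)],[(k0,k24),(k2,k25)],[(k3,k24),(k5,k27)],[(k2,k24),(k0,k64)],[(k10,k24),(k1,k56)],[(k10,k40),(k1,k72)],
    [(k8,k24),(k11,k40)]]
    [] k0
    [[k0,k1,k0,k1,k0,k0],[k0,k2,k0,k2,k0,k0],[k0,k0,k2,k0,k0,k0],[k0,k0,k3,k0,k0,k0],[k0,k0,k0,k0,k0,k2]]
    [.contra [y1,y1,z1],.ref k12 k0 [(z1,[z0,z1]),(z2,[z1])],.contra [z1],.ref k9 k0 [(z1,[z0,z1]),(z1,[y1,y3,z3])],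
    .contra [z1]]),
    .old (.lp [k22,k26,k18,k2,k2,k24] [k2,k2,k0,k0,k4,k4,k12,k12,k12,k12,k1,k1] k0 [[],[],[k0,k0,k0,k0,k0,k0,k2],[],[],[],
    [],[k0,k0,k0,k2]] k48 k5
    [[(k8,k12),(k11,k23)],[(k7,k12),(k9,k12)],[(k6,k14),(k4,k22)],[(k9,k12),(k7,k14)],[(k6,k12),(k4,k18)],[(k5,k18),
    (k3,k22)],[(k0,k12),(k2,k14)],[(k5,k12),(k3,k14)],[(k0,k12),(k2,k12)],[(k1,k12),(k10,k13)],[(k1,k23),(k10,k24)],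
    [(k8,k13),(k11,k24)]]
    [] k0
    [[k1,k0,k0,k0,k1,k0],[k0,k1,k0,k1,k0,k0],[k0,k0,k2,k0,k0,k0]]
    [.ref k13 k0 [(z1,[z1])],.ref k6 k0 [(z1,[y1,z1])],.contra [z1]])]⟩

/-- classes `0 0 0 0 1 1`, types `N0 N0 N1 N1 C0 C0` -/
noncomputable def cU6_129 : CertX :=
  ⟨[k12,k12,k13,k13,k20,k20],[(false,k0,[k0,k1,k2,k3,k4,k5])],[[[([z3,z0,z0,z0,z3,z0],z2),([z0,z1,z0,z1,z0,z0],z2),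
    ([z0,z0,z3,z0,z0,z0],z2)],[([z1,z0,z0,z0,z1,z0],z1),([z0,z1,z0,z1,z0,z0],z2),([z0,z0,z3,z0,z0,z0],z2)],[([z3,z0,
    z0,z0,z3,z3],z4),([z0,z1,z0,z1,z0,z0],z2)],[([z1,z0,z0,z0,z1,z0],z1),([z0,z1,z0,z1,z0,z0],z2),([z0,z0,z3,z0,z0,
    z0],z1)],[([z1,z0,z0,z0,z1,z0],z1),([z0,z1,z0,z1,z0,z0],z2),([z0,z0,z2,z0,z0,z0],z1)],[([z1,z0,z0,z0,z1,z0],z1),
    ([z0,z1,z0,z1,z0,z0],z2)],[([z1,z0,z1,z0,z1,z1],z2)],[([z1,z0,z0,z0,z1,z0],z2),([z0,z3,z0,z3,z0,z0],z2),([z0,z0,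
    z3,z0,z0,z0],z2)],[([z1,z0,z0,z0,z1,z0],z2),([z0,z1,z0,z1,z0,z0],z1),([z0,z0,z3,z0,z0,z0],z1)],[([z1,z0,z0,z0,z1,
    z0],z2),([z0,z3,z3,z3,z0,z0],z4)],[([z1,z0,z0,z0,z1,z0],z2),([z0,z1,z0,z1,z0,z0],z1),([z0,z0,z2,z0,z0,z0],z1)],
    [([z1,z0,z0,z0,z1,z0],z2),([z0,z1,z0,z1,z0,z0],z1),([z0,z0,z3,z0,z0,z0],z2)]],[[([z1,z0,z0,z0,z1,z0],z2),([z0,z1,
    z0,z1,z0,z0],z1)],[([z1,z0,z0,z0,z1,z0],z2)],[]]],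
    [.old (.leafM k10 [k0,k2,k4,k5] [(z1,[z0,z0,z1]),(z1,[y1,y3,y1,z3]),(z1,[z1])] [(k1,k3,z1,[z0,z1]),(k3,k1,z1,[z0,z1])]),
    .old (.leafM k11 [k0,k2,k4,k5] [(z1,[z0,z0,z1]),(z1,[y3,y3,y1,z3]),(z1,[z1])] [(k1,k3,z1,[z0,z1]),(k3,k1,z1,[z0,z1])]),
    .old (.lp [k30,k102,k40,k18,k18,k30] [k36,k36,k0,k0,k31,k31,k42,k42,k42,k42,k36,k36] k0 [] k120 k6
    [[(k8,k24),(k10,k30)],[(k7,k24),(k9,k24)],[(k6,k60),(k4,k71)],[(k7,k60),(k9,k60)],[(k6,k29),(k4,k40)],[(k5,k40),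
    (k3,k71)],[(k0,k24),(k2,k60)],[(k5,k29),(k3,k60)],[(k0,k24),(k2,k60)],[(k1,k24),(k11,k24)],[(k8,k24),(k10,k30)],
    [(k1,k30),(k11,k30)]]
    [] k0
    [[k1,k0,k0,k0,k1,k0],[k2,k0,k0,k0,k2,k0],[k1,k0,k0,k0,k1,k1],[k1,k0,k0,k0,k1,k2],[k0,k0,k2,k0,k0,k0],[k0,k0,k0,k0,
    k0,k2],[k0,k0,k0,k0,k0,k3]]
    [.contra [y1,z0,y1,z1],.ref k1 k0 [(z2,[z1]),(z1,[z0,z0,z1]),(z1,[z0,y1,y3,z3])],.contra [z1,y1,y2,z2],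
    .ref k0 k0 [(z1,[y3,z2]),(z1,[z0,z0,z1]),(z1,[z0,y1,y3,z3])],.contra [z1],.contra [z1],.ref k0 k0 [(z1,[y1,z1]),
    (z1,[z0,z0,z1]),(z1,[z0,y1,y3,z3])]]),
    .old (.leafM k11 [k4,k5,k0,k2] [(z1,[y3,y3,y1,z3]),(z1,[z0,z0,z1]),(z1,[z1])] [(k1,k3,z1,[z0,z1]),(k3,k1,z1,[z0,z1])]),
    .old (.leafM k12 [k0,k2,k4,k5] [(z1,[z0,z0,z1]),(z1,[y2,y2,y1,z2]),(z1,[z1])] [(k1,k3,z1,[z0,z1]),(k3,k1,z1,[z0,z1])]),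
    .old (.lp [k14,k32,k8,k8,k6,k10] [k9,k9,k0,k0,k12,k12,k12,k12,k13,k13,k11,k11] k0 [] k40 k6
    [[(k8,k10),(k10,k12)],[(k9,k10),(k7,k11)],[(k4,k20),(k6,k20)],[(k9,k19),(k7,k20)],[(k4,k8),(k6,k8)],[(k5,k8),(k3,
    k20)],[(k0,k11),(k2,k20)],[(k5,k8),(k3,k20)],[(k0,k10),(k2,k19)],[(k11,k8),(k1,k10)],[(k8,k8),(k10,k10)],[(k11,
    k10),(k1,k12)]]
    [] k0
    [[k1,k0,k0,k0,k1,k0],[k1,k0,k0,k0,k1,k1],[k0,k0,k2,k0,k0,k0],[k0,k0,k3,k0,k0,k0],[k0,k0,k4,k0,k0,k0],[k0,k0,k0,k0,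
    k0,k2],[k0,k0,k0,k0,k0,k3]]
    [.contra [y2,z2,z1],.contra [z1,y1],.contra [z1],.ref k2 k0 [(z1,[y1,z0,y3,z3]),(z1,[z0,z0,z1])],.ref k4 k0 [(z1,
    [z0,z1]),(z1,[z0,z0,z1]),(z2,[z1])],.contra [z1],.ref k3 k0 [(z1,[z0,z1]),(z1,[z0,z0,z1]),(z1,[y1,y3,y3,z3])]]),
    .old (.lp [k40,k102,k30,k18,k8,k40] [k31,k31,k0,k0,k36,k36,k42,k42,k47,k47,k31,k31] k0 [] k120 k6
    [[(k8,k24),(k10,k40)],[(k9,k24),(k7,k29)],[(k6,k60),(k4,k66)],[(k9,k55),(k7,k60)],[(k6,k24),(k4,k30)],[(k5,k30),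
    (k3,k66)],[(k0,k29),(k2,k60)],[(k5,k24),(k3,k60)],[(k0,k24),(k2,k55)],[(k1,k24),(k11,k24)],[(k8,k24),(k10,k40)],
    [(k1,k40),(k11,k40)]]
    [] k0
    [[k1,k0,k0,k0,k1,k0],[k2,k0,k0,k0,k2,k0],[k1,k0,k0,k0,k1,k1],[k0,k0,k2,k0,k0,k0],[k0,k0,k3,k0,k0,k0],[k0,k0,k0,k0,
    k0,k2]]
    [.contra [y1,z1],.ref k5 k0 [(z2,[z1]),(z1,[z0,y1,z1])],.contra [y1,z1],.contra [z1],.ref k2 k0 [(z1,[y1,z3]),(z1,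
    [z0,y1,z1])],.contra [z1]]),
    .old (.leafM k10 [k1,k2,k3,k5] [(z1,[z0,z0,z1]),(z1,[y3,y1,y1,z3]),(z1,[z0,z1])] [(k4,k0,z1,[z1]),(k0,k4,z1,[z1])]),
    .old (.leafM k11 [k3,k5,k1,k2] [(z1,[y3,y3,y1,z3]),(z1,[z0,z0,z1]),(z1,[z0,z1])] [(k4,k0,z1,[z1]),(k0,k4,z1,[z1])]),
    .old (.lp [k104,k50,k30,k0,k15,k40] [k0,k0,k27,k27,k37,k37,k52,k52,k48,k41,k32,k32] k0 [[k0,k0,k0,k0,k28],[k0,k0,k0,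
    k0,k0,k0,k0,k1],[k0,k0,k0,k0,k0,k0,k12],[],[],[k0,k28],[k1],[k0,k0,k0,k12]] k120 k6
    [[(k8,k56),(k10,k72)],[(k7,k24),(k9,k64)],[(k6,k24),(k4,k68)],[(k9,k24),(k7,k25)],[(k6,k27),(k4,k30)],[(k5,k30),
    (k3,k68)],[(k0,k24),(k2,k25)],[(k3,k24),(k5,k27)],[(k2,k24),(k0,k64)],[(k11,k24),(k1,k56)],[(k8,k24),(k10,k40)],
    [(k11,k40),(k1,k72)]]
    [] k0
    [[k0,k1,k0,k1,k0,k0],[k0,k2,k0,k2,k0,k0],[k0,k0,k2,k0,k0,k0],[k0,k0,k3,k0,k0,k0],[k0,k0,k0,k0,k0,k2]]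
    [.contra [y2,z0,z1],.ref k8 k0 [(z1,[z0,z1]),(z2,[z1]),(z2,[y3,z0,z2])],.contra [z1],.ref k7 k0 [(z1,[z0,z1]),(z1,
    [y1,z0,z1]),(z1,[z1])],.contra [z1]]),
    .old (.leafM k12 [k1,k2,k3,k5] [(z1,[z0,z0,z1]),(z1,[y2,y2,y1,z2]),(z1,[z0,z1])] [(k4,k0,z1,[z1]),(k0,k4,z1,[z1])]),
    .old (.leafM k11 [k1,k2,k3,k5] [(z1,[z0,z0,z1]),(z1,[y3,y3,y1,z3]),(z1,[z0,z1])] [(k4,k0,z1,[z1]),(k0,k4,z1,[z1])]),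
    .old (.lp [(nat_lit 1399008),(nat_lit 889200),(nat_lit 437190),k0,(nat_lit 349752),(nat_lit 349752)] [k0,k0,
    (nat_lit 254904),(nat_lit 254904),(nat_lit 480909),(nat_lit 480909),(nat_lit 699504),(nat_lit 699504),
    (nat_lit 524628),(nat_lit 524628),(nat_lit 524628),(nat_lit 524628)] k0 [[k0,k0,k0,k0,(nat_lit 153400)],[],[k0,k0,
    k0,k0,k0,k0,(nat_lit 269040)],[],[],[k0,(nat_lit 153400)],[],[k0,k0,k0,(nat_lit 269040)]] (nat_lit 1748760) k6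
    [[(k8,(nat_lit 874380)),(k10,(nat_lit 874380))],[(k7,(nat_lit 546104)),(k9,(nat_lit 874380))],[(k6,
    (nat_lit 444600)),(k4,(nat_lit 816595))],[(k9,(nat_lit 350436)),(k7,(nat_lit 444600))],[(k4,(nat_lit 437190)),(k6,
    (nat_lit 487635))],[(k5,(nat_lit 437190)),(k3,(nat_lit 816595))],[(k2,(nat_lit 444600)),(k0,(nat_lit 546104))],
    [(k3,(nat_lit 444600)),(k5,(nat_lit 487635))],[(k2,(nat_lit 350436)),(k0,(nat_lit 874380))],[(k11,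
    (nat_lit 349752)),(k1,(nat_lit 874380))],[(k8,(nat_lit 349752)),(k10,(nat_lit 349752))],[(k11,(nat_lit 349752)),
    (k1,(nat_lit 874380))]]
    [] k0
    [[k0,k1,k0,k1,k0,k0],[k0,k0,k2,k0,k0,k0],[k0,k0,k3,k0,k0,k0],[k0,k0,k0,k0,k0,k2],[k0,k0,k0,k0,k0,k3],[k0,k0,k0,k0,
    k0,k4]]
    [.contra [y1,z0,z2],.contra [z1],.ref k11 k0 [(z1,[z0,z1]),(z1,[z0,z0,z1]),(z1,[z1])],.contra [z1],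
    .ref k9 k0 [(z1,[z0,z1]),(z1,[y1,y3,z0,z3])],.ref k10 k0 [(z1,[z0,z1]),(z1,[z0,z0,z1]),(z2,[y1,y4,y4,z4])]]),
    .old (.lp [(nat_lit 14586),(nat_lit 7020),(nat_lit 5720),k0,(nat_lit 2574),(nat_lit 4290)] [k0,k0,(nat_lit 3783),
    (nat_lit 3783),(nat_lit 4433),(nat_lit 4433),(nat_lit 7293),(nat_lit 7293),(nat_lit 6006),(nat_lit 6006),
    (nat_lit 5148),(nat_lit 5148)] k0 [[k0,k0,k0,k0,(nat_lit 3120)],[],[k0,k0,k0,k0,k0,k0,(nat_lit 1320)],[],[],[k0,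
    (nat_lit 3120)],[],[k0,k0,k0,(nat_lit 1320)]] (nat_lit 17160) k6
    [[(k8,(nat_lit 8580)),(k10,(nat_lit 9438))],[(k7,(nat_lit 4173)),(k9,(nat_lit 8580))],[(k6,(nat_lit 3510)),(k4,
    (nat_lit 9490))],[(k9,(nat_lit 3477)),(k7,(nat_lit 3510))],[(k6,(nat_lit 4180)),(k4,(nat_lit 5720))],[(k5,
    (nat_lit 5720)),(k3,(nat_lit 9490))],[(k2,(nat_lit 3510)),(k0,(nat_lit 4173))],[(k3,(nat_lit 3510)),(k5,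
    (nat_lit 4180))],[(k2,(nat_lit 3477)),(k0,(nat_lit 8580))],[(k11,(nat_lit 3432)),(k1,(nat_lit 8580))],[(k8,
    (nat_lit 3432)),(k10,(nat_lit 4290))],[(k11,(nat_lit 4290)),(k1,(nat_lit 9438))]]
    [] k0
    [[k0,k1,k0,k1,k0,k0],[k0,k2,k0,k2,k0,k0],[k0,k0,k2,k0,k0,k0],[k0,k0,k0,k0,k0,k2],[k0,k0,k0,k0,k0,k3]]
    [.contra [y1,y1,z1],.ref k12 k0 [(z1,[z0,z1]),(z2,[z1])],.contra [z1],.contra [z1],.ref k9 k0 [(z1,[z0,z1]),(z1,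
    [y1,y3,z3])]]),
    .old (.lp [k22,k26,k18,k2,k2,k24] [k2,k2,k0,k0,k4,k4,k12,k12,k12,k12,k1,k1] k0 [[],[],[k0,k0,k0,k0,k0,k0,k2],[],[],[],
    [],[k0,k0,k0,k2]] k48 k5
    [[(k8,k12),(k10,k23)],[(k7,k12),(k9,k12)],[(k6,k14),(k4,k22)],[(k9,k12),(k7,k14)],[(k6,k12),(k4,k18)],[(k5,k18),
    (k3,k22)],[(k0,k12),(k2,k14)],[(k5,k12),(k3,k14)],[(k0,k12),(k2,k12)],[(k1,k12),(k11,k13)],[(k8,k13),(k10,k24)],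
    [(k1,k23),(k11,k24)]]
    [] k0
    [[k1,k0,k0,k0,k1,k0],[k0,k1,k0,k1,k0,k0],[k0,k0,k2,k0,k0,k0]]
    [.ref k13 k0 [(z1,[z1])],.ref k6 k0 [(z1,[y1,z1])],.contra [z1]])]⟩

/-- classes `0 0 0 0 1 1`, types `N0 N0 N1 N1 C0 C2` -/
noncomputable def cU6_130 : CertX :=
  ⟨[k12,k12,k13,k13,k20,k22],[(false,k0,[k0,k1,k2,k3,k4,k5])],[[[([z1,z0,z1,z0,z1,z1],z2)],[]]],
    [.old (.lp [k6,k24,k10,k6,k6,k6] [k9,k9,k0,k0,k7,k7,k9,k9,k9,k9,k9,k9] k0 [] k30 k6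
    [[(k10,k6),(k11,k6)],[(k7,k6),(k9,k6)],[(k6,k15),(k4,k17)],[(k7,k15),(k9,k15)],[(k6,k8),(k4,k10)],[(k5,k10),(k3,
    k17)],[(k0,k6),(k2,k15)],[(k5,k8),(k3,k15)],[(k0,k6),(k2,k15)],[(k10,k6),(k11,k6)],[(k1,k6),(k8,k6)],[(k1,k6),(k8,
    k6)]]
    [] k0
    [[k1,k0,k0,k0,k1,k1],[k0,k0,k2,k0,k0,k0]]
    [.contra [y1,z1],.contra [z1]]),
    .old (.lp [k12,k14,k8,k0,k2,k10] [k1,k1,k0,k0,k3,k3,k7,k7,k6,k6,k2,k2] k0 [[],[],[k0,k0,k0,k0,k0,k0,k2],[],[],[],[],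
    [k0,k0,k0,k2]] k24 k5
    [[(k10,k11),(k11,k11)],[(k7,k6),(k9,k7)],[(k6,k7),(k4,k11)],[(k9,k6),(k7,k7)],[(k6,k6),(k4,k8)],[(k5,k8),(k3,
    k11)],[(k0,k6),(k2,k7)],[(k5,k6),(k3,k7)],[(k2,k6),(k0,k7)],[(k10,k6),(k11,k6)],[(k8,k6),(k1,k11)],[(k8,k6),(k1,
    k11)]]
    [] k0
    [[k0,k1,k0,k1,k0,k0],[k0,k0,k2,k0,k0,k0]]
    [.ref k0 k0 [(z1,[y1,z1])],.contra [z1]])]⟩

/-- classes `0 0 0 0 1 1`, types `N0 N0 N1 N1 N0 N1` -/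
noncomputable def cU6_131 : CertX :=
  ⟨[k12,k12,k13,k13,k28,k29],[(false,k0,[k0,k1,k2,k3,k4,k5])],[[[([z3,z0,z0,z0,z3,z0],z2),([z0,z1,z0,z1,z0,z0],z2),
    ([z0,z0,z3,z0,z0,z0],z2)],[([z1,z0,z0,z0,z1,z0],z1),([z0,z1,z0,z1,z0,z0],z2),([z0,z0,z3,z0,z0,z0],z2)],[([z3,z0,
    z0,z0,z3,z3],z4),([z0,z1,z0,z1,z0,z0],z2)],[([z1,z0,z0,z0,z1,z0],z1),([z0,z1,z0,z1,z0,z0],z2),([z0,z0,z3,z0,z0,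
    z0],z1)],[([z1,z0,z0,z0,z1,z0],z1),([z0,z1,z0,z1,z0,z0],z2),([z0,z0,z2,z0,z0,z0],z1)],[([z1,z0,z0,z0,z1,z0],z1),
    ([z0,z1,z0,z1,z0,z0],z2)],[([z1,z0,z1,z0,z1,z1],z2)],[([z1,z0,z0,z0,z1,z0],z2),([z0,z3,z0,z3,z0,z0],z2),([z0,z0,
    z3,z0,z0,z0],z2)],[([z1,z0,z0,z0,z1,z0],z2),([z0,z1,z0,z1,z0,z0],z1),([z0,z0,z3,z0,z0,z0],z1)],[([z1,z0,z0,z0,z1,
    z0],z2),([z0,z3,z3,z3,z0,z0],z4)],[([z1,z0,z0,z0,z1,z0],z2),([z0,z1,z0,z1,z0,z0],z1),([z0,z0,z2,z0,z0,z0],z1)],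
    [([z1,z0,z0,z0,z1,z0],z2),([z0,z1,z0,z1,z0,z0],z1),([z0,z0,z3,z0,z0,z0],z2)]],[[([z1,z0,z0,z0,z1,z0],z2),([z0,z1,
    z0,z1,z0,z0],z1)],[([z1,z0,z0,z0,z1,z0],z2)],[]]],
    [.old (.leafM k10 [k0,k2,k4,k5] [(z1,[z0,z0,z1]),(z1,[y1,y3,y1,z3]),(z1,[z1])] [(k1,k3,z1,[z0,z1]),(k3,k1,z1,[z0,z1])]),
    .old (.leafM k11 [k0,k2,k4,k5] [(z1,[z0,z0,z1]),(z1,[y3,y3,y1,z3]),(z1,[z1])] [(k1,k3,z1,[z0,z1]),(k3,k1,z1,[z0,z1])]),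
    .old (.lp [k48,k110,k40,k10,k0,k30] [k31,k31,k0,k0,k35,k35,k50,k50,k55,k55,k40,k40] k0 [] k120 k6
    [[(k8,k24)],[(k9,k24),(k7,k29)],[(k6,k60),(k4,k75)],[(k9,k55),(k7,k60)],[(k6,k25),(k4,k40)],[(k5,k40),(k3,k75)],
    [(k0,k29),(k2,k60)],[(k5,k25),(k3,k60)],[(k0,k24),(k2,k55)],[(k1,k24)],[(k10,k30)],[(k11,k30)]]
    [] k0
    [[k1,k0,k0,k0,k1,k0],[k2,k0,k0,k0,k2,k0],[k0,k0,k2,k0,k0,k0],[k0,k0,k0,k0,k0,k2],[k0,k0,k0,k0,k0,k3]]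
    [.contra [y1,z0,y1,z1],.ref k1 k0 [(z2,[z1]),(z1,[z0,z0,z1]),(z1,[z0,y1,y3,z3])],.contra [z1],.contra [z1],
    .ref k0 k0 [(z1,[y1,z1]),(z1,[z0,z0,z1]),(z1,[z0,y1,y3,z3])]]),
    .old (.leafM k11 [k4,k5,k0,k2] [(z1,[y3,y3,y1,z3]),(z1,[z0,z0,z1]),(z1,[z1])] [(k1,k3,z1,[z0,z1]),(k3,k1,z1,[z0,z1])]),
    .old (.leafM k12 [k0,k2,k4,k5] [(z1,[z0,z0,z1]),(z1,[y2,y2,y1,z2]),(z1,[z1])] [(k1,k3,z1,[z0,z1]),(k3,k1,z1,[z0,z1])]),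
    .old (.lp [k20,k34,k10,k6,k0,k8] [k7,k7,k0,k0,k12,k12,k14,k14,k17,k17,k13,k13] k0 [] k40 k6
    [[(k8,k10)],[(k9,k10),(k7,k13)],[(k6,k20),(k4,k22)],[(k9,k17),(k7,k20)],[(k6,k8),(k4,k10)],[(k5,k10),(k3,k22)],
    [(k0,k13),(k2,k20)],[(k5,k8),(k3,k20)],[(k0,k10),(k2,k17)],[(k1,k10)],[(k10,k8)],[(k11,k8)]]
    [] k0
    [[k1,k0,k0,k0,k1,k0],[k0,k0,k2,k0,k0,k0],[k0,k0,k3,k0,k0,k0],[k0,k0,k0,k0,k0,k2],[k0,k0,k0,k0,k0,k3],[k0,k0,k0,k0,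
    k0,k4]]
    [.contra [y2,z2,z1],.contra [z1],.ref k2 k0 [(z1,[y1,z0,y3,z3]),(z1,[z0,z0,z1])],.contra [z1],.ref k3 k0 [(z1,[z0,
    z1]),(z1,[z0,z0,z1]),(z1,[y1,y3,y3,z3])],.ref k4 k0 [(z1,[z0,z1]),(z1,[z0,z0,z1]),(z2,[y1,y4,y4,z4])]]),
    .old (.lp [k48,k102,k30,k18,k0,k40] [k27,k27,k0,k0,k36,k36,k42,k42,k51,k51,k31,k31] k0 [] k120 k6
    [[(k8,k24)],[(k9,k24),(k7,k33)],[(k6,k60),(k4,k66)],[(k9,k51),(k7,k60)],[(k6,k24),(k4,k30)],[(k5,k30),(k3,k66)],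
    [(k0,k33),(k2,k60)],[(k5,k24),(k3,k60)],[(k0,k24),(k2,k51)],[(k1,k24)],[(k10,k40)],[(k11,k40)]]
    [] k0
    [[k1,k0,k0,k0,k1,k0],[k2,k0,k0,k0,k2,k0],[k0,k0,k2,k0,k0,k0],[k0,k0,k3,k0,k0,k0],[k0,k0,k0,k0,k0,k2]]
    [.contra [y1,z1],.ref k5 k0 [(z2,[z1]),(z1,[z0,y1,z1])],.contra [z1],.ref k2 k0 [(z1,[y1,z3]),(z1,[z0,y1,z1])],
    .contra [z1]]),
    .old (.leafM k10 [k1,k2,k3,k5] [(z1,[z0,z0,z1]),(z1,[y3,y1,y1,z3]),(z1,[z0,z1])] [(k4,k0,z1,[z1]),(k0,k4,z1,[z1])]),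
    .old (.leafM k11 [k3,k5,k1,k2] [(z1,[y3,y3,y1,z3]),(z1,[z0,z0,z1]),(z1,[z0,z1])] [(k4,k0,z1,[z1]),(k0,k4,z1,[z1])]),
    .old (.lp [k110,k50,k30,k0,k9,k40] [k0,k0,k30,k30,k40,k40,k55,k55,k54,k47,k35,k35] k0 [[k0,k0,k0,k0,k31],[k0,k0,k0,k0,
    k0,k0,k0,k1],[k0,k0,k0,k0,k0,k0,k9],[],[],[k0,k31],[k1],[k0,k0,k0,k9]] k120 k6
    [[(k8,k56)],[(k7,k24),(k9,k64)],[(k6,k24),(k4,k71)],[(k9,k24),(k7,k25)],[(k6,k24),(k4,k30)],[(k5,k30),(k3,k71)],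
    [(k0,k24),(k2,k25)],[(k3,k24),(k5,k24)],[(k2,k24),(k0,k64)],[(k1,k56)],[(k10,k40)],[(k11,k40)]]
    [] k0
    [[k0,k1,k0,k1,k0,k0],[k0,k2,k0,k2,k0,k0],[k0,k0,k2,k0,k0,k0],[k0,k0,k3,k0,k0,k0],[k0,k0,k0,k0,k0,k2]]
    [.contra [y2,z0,z1],.ref k8 k0 [(z1,[z0,z1]),(z2,[z1]),(z2,[y3,z0,z2])],.contra [z1],.ref k7 k0 [(z1,[z0,z1]),(z1,
    [y1,z0,z1]),(z1,[z1])],.contra [z1]]),
    .old (.leafM k12 [k1,k2,k3,k5] [(z1,[z0,z0,z1]),(z1,[y2,y2,y1,z2]),(z1,[z0,z1])] [(k4,k0,z1,[z1]),(k0,k4,z1,[z1])]),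
    .old (.leafM k11 [k1,k2,k3,k5] [(z1,[z0,z0,z1]),(z1,[y3,y3,y1,z3]),(z1,[z0,z1])] [(k4,k0,z1,[z1]),(k0,k4,z1,[z1])]),
    .old (.lp [(nat_lit 13570),(nat_lit 7200),(nat_lit 3540),k0,(nat_lit 590),(nat_lit 2832)] [k0,k0,(nat_lit 3185),
    (nat_lit 3185),(nat_lit 5015),(nat_lit 5015),(nat_lit 6785),(nat_lit 6785),(nat_lit 6490),(nat_lit 6490),
    (nat_lit 5369),(nat_lit 5369)] k0 [[k0,k0,k0,k0,(nat_lit 2360)],[],[k0,k0,k0,k0,k0,k0,(nat_lit 1062)],[],[],[k0,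
    (nat_lit 2360)],[],[k0,k0,k0,(nat_lit 1062)]] (nat_lit 14160) k6
    [[(k8,(nat_lit 7080))],[(k7,(nat_lit 4425)),(k9,(nat_lit 7080))],[(k6,(nat_lit 3600)),(k4,(nat_lit 7730))],[(k9,
    (nat_lit 2833)),(k7,(nat_lit 3600))],[(k6,(nat_lit 2832)),(k4,(nat_lit 3540))],[(k5,(nat_lit 3540)),(k3,
    (nat_lit 7730))],[(k2,(nat_lit 3600)),(k0,(nat_lit 4425))],[(k5,(nat_lit 2832)),(k3,(nat_lit 3600))],[(k2,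
    (nat_lit 2833)),(k0,(nat_lit 7080))],[(k1,(nat_lit 7080))],[(k10,(nat_lit 2832))],[(k11,(nat_lit 2832))]]
    [] k0
    [[k0,k1,k0,k1,k0,k0],[k0,k0,k2,k0,k0,k0],[k0,k0,k3,k0,k0,k0],[k0,k0,k0,k0,k0,k2],[k0,k0,k0,k0,k0,k3],[k0,k0,k0,k0,
    k0,k4]]
    [.contra [y1,z0,z2],.contra [z1],.ref k11 k0 [(z1,[z0,z1]),(z1,[z0,z0,z1]),(z1,[z1])],.contra [z1],
    .ref k9 k0 [(z1,[z0,z1]),(z1,[y1,y3,z0,z3])],.ref k10 k0 [(z1,[z0,z1]),(z1,[z0,z0,z1]),(z2,[y1,y4,y4,z4])]]),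
    .old (.lp [(nat_lit 226),k98,k80,k0,k14,k60] [k0,k0,k64,k64,k73,k73,k113,k113,k106,k106,k83,k83] k0 [[k0,k0,k0,k0,
    k54],[],[k0,k0,k0,k0,k0,k0,k8],[],[],[k0,k54],[],[k0,k0,k0,k8]] (nat_lit 240) k6
    [[(k8,k120)],[(k7,k59),(k9,k120)],[(k6,k49),(k4,k143)],[(k9,k48),(k7,k49)],[(k6,k48),(k4,k80)],[(k5,k80),(k3,
    k143)],[(k2,k49),(k0,k59)],[(k5,k48),(k3,k49)],[(k2,k48),(k0,k120)],[(k1,k120)],[(k10,k60)],[(k11,k60)]]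
    [] k0
    [[k0,k1,k0,k1,k0,k0],[k0,k2,k0,k2,k0,k0],[k0,k0,k2,k0,k0,k0],[k0,k0,k0,k0,k0,k2],[k0,k0,k0,k0,k0,k3]]
    [.contra [y1,y1,z1],.ref k12 k0 [(z1,[z0,z1]),(z2,[z1])],.contra [z1],.contra [z1],.ref k9 k0 [(z1,[z0,z1]),(z1,
    [y1,y3,z3])]]),
    .old (.lp [k6,k6,k6,k0,k0,k4] [k0,k0,k0,k0,k0,k0,k3,k3,k3,k3,k1,k1] k0 [] k12 k5
    [[(k8,k3)],[(k7,k3),(k9,k3)],[(k6,k3),(k4,k6)],[(k7,k3),(k9,k3)],[(k6,k3),(k4,k6)],[(k3,k6),(k5,k6)],[(k0,k3),(k2,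
    k3)],[(k3,k3),(k5,k3)],[(k0,k3),(k2,k3)],[(k1,k3)],[(k10,k4)],[(k11,k4)]]
    [] k0
    [[k1,k0,k0,k0,k1,k0],[k0,k1,k0,k1,k0,k0],[k0,k0,k0,k0,k0,k2]]
    [.ref k13 k0 [(z1,[z1])],.ref k6 k0 [(z1,[y1,z1])],.contra [z1]])]⟩

/-- classes `0 0 0 0 1 1`, types `N0 N0 N1 N1 N0 N2` -/
noncomputable def cU6_132 : CertX :=
  ⟨[k12,k12,k13,k13,k28,k30],[(false,k0,[k0,k1,k2,k3,k4,k5])],[[[([z1,z0,z1,z0,z1,z1],z2)],[]]],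
    [.old (.lp [k6,k24,k10,k6,k6,k6] [k9,k9,k0,k0,k7,k7,k9,k9,k9,k9,k9,k9] k0 [] k30 k6
    [[(k11,k6)],[(k7,k6),(k9,k6)],[(k6,k15),(k4,k17)],[(k7,k15),(k9,k15)],[(k6,k8),(k4,k10)],[(k5,k10),(k3,k17)],[(k0,
    k6),(k2,k15)],[(k5,k8),(k3,k15)],[(k0,k6),(k2,k15)],[(k10,k6)],[(k1,k6)],[(k8,k6)]]
    [] k0
    [[k1,k0,k0,k0,k1,k1],[k0,k0,k2,k0,k0,k0]]
    [.contra [y1,z1],.contra [z1]]),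
    .old (.lp [k12,k14,k8,k0,k2,k10] [k1,k1,k0,k0,k3,k3,k7,k7,k6,k6,k2,k2] k0 [[],[],[k0,k0,k0,k0,k0,k0,k2],[],[],[],[],
    [k0,k0,k0,k2]] k24 k5
    [[(k11,k11)],[(k7,k6),(k9,k7)],[(k6,k7),(k4,k11)],[(k9,k6),(k7,k7)],[(k6,k6),(k4,k8)],[(k5,k8),(k3,k11)],[(k0,k6),
    (k2,k7)],[(k5,k6),(k3,k7)],[(k2,k6),(k0,k7)],[(k10,k6)],[(k1,k11)],[(k8,k6)]]
    [] k0
    [[k0,k1,k0,k1,k0,k0],[k0,k0,k2,k0,k0,k0]]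
    [.ref k0 k0 [(z1,[y1,z1])],.contra [z1]])]⟩

/-- the certificates of this file -/
noncomputable def lU6_11 : List CertX :=
  [cU6_97, cU6_98, cU6_99, cU6_100, cU6_101, cU6_102, cU6_103, cU6_104, cU6_105, cU6_106, cU6_107, cU6_108,
      cU6_109, cU6_110, cU6_111, cU6_112, cU6_113, cU6_114, cU6_115, cU6_116, cU6_117, cU6_118, cU6_119,
      cU6_120, cU6_121, cU6_122, cU6_123, cU6_124, cU6_125, cU6_126, cU6_127, cU6_128, cU6_129, cU6_130,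
      cU6_131, cU6_132]

theorem gU6_11 : allF (chkE 6 ttU6) lU6_11 = true := by
  decide +kernel

end Pool.Agent.Lib_MP_fa6e45
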