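import Pool.Agent.Lib_MP_fa6e45.CXT
import Pool.Agent.Lib_MP_fa6e45.HK

/-!
MP_fa6e45_co, stage 7: certificates (generated by a program).
-/

namespace Pool.Agent.Lib_MP_fa6e45

/-- classes `0 0 0 0 1 1`, types `N0 N0 N1 N1 S0 S0` -/
noncomputable def cU6_133 : CertX :=
  ⟨[k12,k12,k13,k13,k16,k16],[(false,k0,[k0,k1,k2,k3,k4,k5])],[[[([z3,z0,z0,z0,z3,z0],z2),([z0,z1,z0,z1,z0,z0],z2),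
    ([z0,z0,z3,z0,z0,z0],z2)],[([z1,z0,z0,z0,z1,z0],z1),([z0,z1,z0,z1,z0,z0],z2),([z0,z0,z3,z0,z0,z0],z2)],[([z3,z0,
    z0,z0,z3,z3],z4),([z0,z1,z0,z1,z0,z0],z2)],[([z1,z0,z0,z0,z1,z0],z1),([z0,z1,z0,z1,z0,z0],z2),([z0,z0,z3,z0,z0,
    z0],z1)],[([z1,z0,z0,z0,z1,z0],z1),([z0,z1,z0,z1,z0,z0],z2),([z0,z0,z2,z0,z0,z0],z1)],[([z1,z0,z0,z0,z1,z0],z1),
    ([z0,z1,z0,z1,z0,z0],z2)],[([z1,z0,z1,z0,z1,z1],z2)],[([z1,z0,z0,z0,z1,z0],z2),([z0,z3,z0,z3,z0,z0],z2),([z0,z0,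
    z3,z0,z0,z0],z2)],[([z1,z0,z0,z0,z1,z0],z2),([z0,z1,z0,z1,z0,z0],z1),([z0,z0,z3,z0,z0,z0],z1)],[([z1,z0,z0,z0,z1,
    z0],z2),([z0,z3,z3,z3,z0,z0],z4)],[([z1,z0,z0,z0,z1,z0],z2),([z0,z1,z0,z1,z0,z0],z1),([z0,z0,z3,z0,z0,z0],z2)],
    [([z1,z0,z0,z0,z1,z0],z2),([z0,z1,z0,z1,z0,z0],z1),([z0,z0,z2,z0,z0,z0],z1)]],[[([z1,z0,z0,z0,z1,z0],z2),([z0,z1,
    z0,z1,z0,z0],z1)],[([z1,z0,z0,z0,z1,z0],z2)],[]]],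
    [.old (.leafM k10 [k0,k2,k4,k5] [(z1,[z0,z0,z1]),(z1,[y1,y3,y1,z3]),(z1,[z1])] [(k1,k3,z1,[z0,z1]),(k3,k1,z1,[z0,z1])]),
    .old (.leafM k8 [k0,k2,k4,k5] [(z1,[z0,z0,z1]),(z1,[y3,y3,y1,z3]),(z1,[z1])] [(k1,k3,z1,[z0,z1]),(k3,k1,z1,[z0,z1])]),
    .old (.lp [k24,k24,k40,k96,k24,k30] [k36,k36,k36,k36,k28,k28,k0,k0,k36,k36,k33,k33] k0 [] k120 k6
    [[(k1,k24),(k8,k24),(k10,k27),(k11,k27)],[(k9,k24),(k7,k60)],[(k4,k32),(k6,k60)],[(k9,k24),(k7,k60)],[(k4,k40),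
    (k6,k68)],[(k3,k32),(k5,k40)],[(k0,k60),(k2,k60)],[(k3,k60),(k5,k68)],[(k0,k24),(k2,k24)],[(k1,k24),(k8,k24),(k10,
    k27),(k11,k27)],[(k1,k27),(k8,k27),(k10,k30),(k11,k30)],[(k1,k27),(k8,k27),(k10,k30),(k11,k30)]]
    [] k0
    [[k2,k0,k0,k0,k2,k0],[k1,k0,k0,k0,k1,k0],[k1,k0,k0,k0,k1,k1],[k1,k0,k0,k0,k1,k2],[k0,k0,k2,k0,k0,k0],[k0,k0,k0,k0,
    k0,k2],[k0,k0,k0,k0,k0,k3]]
    [.ref k1 k0 [(z2,[z1]),(z1,[z0,z0,z1]),(z1,[z0,y1,y3,z3])],.contra [y1,z0,y1,z1],.contra [z1,y1,y2,z2],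
    .ref k0 k0 [(z1,[y3,z2]),(z1,[z0,z0,z1]),(z1,[z0,y1,y3,z3])],.contra [z1],.contra [z1],.ref k0 k0 [(z1,[y1,z1]),
    (z1,[z0,z0,z1]),(z1,[z0,y1,y3,z3])]]),
    .old (.leafM k11 [k4,k5,k0,k2] [(z1,[y3,y3,y1,z3]),(z1,[z0,z0,z1]),(z1,[z1])] [(k1,k3,z1,[z0,z1]),(k3,k1,z1,[z0,z1])]),
    .old (.leafM k9 [k0,k2,k4,k5] [(z1,[z0,z0,z1]),(z1,[y2,y2,y1,z2]),(z1,[z1])] [(k1,k3,z1,[z0,z1]),(k3,k1,z1,[z0,z1])]),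
    .old (.lp [k12,k8,k8,k32,k8,k10] [k10,k10,k12,k12,k12,k12,k0,k0,k12,k12,k11,k11] k0 [] k40 k6
    [[(k8,k10),(k10,k11),(k11,k11),(k1,k12)],[(k9,k10),(k7,k22)],[(k4,k8),(k6,k20)],[(k9,k8),(k7,k20)],[(k4,k8),(k6,
    k20)],[(k3,k8),(k5,k8)],[(k2,k20),(k0,k22)],[(k3,k20),(k5,k20)],[(k2,k8),(k0,k10)],[(k8,k8),(k10,k9),(k11,k9),(k1,
    k10)],[(k8,k9),(k10,k10),(k11,k10),(k1,k11)],[(k8,k9),(k10,k10),(k11,k10),(k1,k11)]]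
    [] k0
    [[k1,k0,k0,k0,k1,k0],[k1,k0,k0,k0,k1,k1],[k0,k0,k2,k0,k0,k0],[k0,k0,k3,k0,k0,k0],[k0,k0,k4,k0,k0,k0],[k0,k0,k0,k0,
    k0,k2],[k0,k0,k0,k0,k0,k3]]
    [.contra [y2,z2,z1],.contra [z1,y1],.contra [z1],.ref k2 k0 [(z1,[y1,z0,y3,z3]),(z1,[z0,z0,z1])],.ref k4 k0 [(z1,
    [z0,z1]),(z1,[z0,z0,z1]),(z2,[z1])],.contra [z1],.ref k3 k0 [(z1,[z0,z1]),(z1,[z0,z0,z1]),(z1,[y1,y3,y3,z3])]]),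
    .old (.lp [k24,k24,k30,k96,k24,k40] [k36,k36,k36,k36,k33,k33,k0,k0,k36,k36,k28,k28] k0 [] k120 k6
    [[(k1,k24),(k8,k24),(k10,k32),(k11,k32)],[(k9,k24),(k7,k60)],[(k4,k27),(k6,k60)],[(k9,k24),(k7,k60)],[(k4,k30),
    (k6,k63)],[(k3,k27),(k5,k30)],[(k0,k60),(k2,k60)],[(k3,k60),(k5,k63)],[(k0,k24),(k2,k24)],[(k1,k24),(k8,k24),(k10,
    k32),(k11,k32)],[(k1,k32),(k8,k32),(k10,k40),(k11,k40)],[(k1,k32),(k8,k32),(k10,k40),(k11,k40)]]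
    [] k0
    [[k2,k0,k0,k0,k2,k0],[k1,k0,k0,k0,k1,k0],[k1,k0,k0,k0,k1,k1],[k0,k0,k2,k0,k0,k0],[k0,k0,k3,k0,k0,k0],[k0,k0,k0,k0,
    k0,k2]]
    [.ref k5 k0 [(z2,[z1]),(z1,[z0,y1,z1])],.contra [y1,z1],.contra [y1,z1],.contra [z1],.ref k2 k0 [(z1,[y1,z3]),(z1,
    [z0,y1,z1])],.contra [z1]]),
    .old (.leafM k10 [k1,k2,k3,k5] [(z1,[z0,z0,z1]),(z1,[y3,y1,y1,z3]),(z1,[z0,z1])] [(k4,k0,z1,[z1]),(k0,k4,z1,[z1])]),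
    .old (.leafM k11 [k3,k5,k1,k2] [(z1,[y3,y3,y1,z3]),(z1,[z0,z0,z1]),(z1,[z0,z1])] [(k4,k0,z1,[z1]),(k0,k4,z1,[z1])]),
    .old (.lp [k78,k0,k30,k50,k41,k40] [k0,k0,k39,k39,k24,k24,k14,k14,k22,k15,k19,k19] k0 [[k0,k0,k0,k0,k40],[k0,k0,k0,k0,
    k0,k0,k0,k1],[],[],[],[k0,k40],[k1]] k120 k6
    [[(k8,k56),(k10,k59),(k11,k59),(k1,k78)],[(k7,k24),(k9,k64)],[(k6,k24),(k4,k55)],[(k9,k24),(k7,k25)],[(k4,k30),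
    (k6,k40)],[(k5,k30),(k3,k55)],[(k0,k24),(k2,k25)],[(k3,k24),(k5,k40)],[(k2,k24),(k0,k64)],[(k8,k34),(k10,k37),
    (k11,k37),(k1,k56)],[(k8,k37),(k10,k40),(k11,k40),(k1,k59)],[(k8,k37),(k10,k40),(k11,k40),(k1,k59)]]
    [] k0
    [[k0,k1,k0,k1,k0,k0],[k0,k2,k0,k2,k0,k0],[k0,k0,k2,k0,k0,k0],[k0,k0,k3,k0,k0,k0],[k0,k0,k0,k0,k0,k2]]
    [.contra [y2,z0,z1],.ref k8 k0 [(z1,[z0,z1]),(z2,[z1]),(z2,[y3,z0,z2])],.contra [z1],.ref k7 k0 [(z1,[z0,z1]),(z1,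
    [y1,z0,z1]),(z1,[z1])],.contra [z1]]),
    .old (.leafM k11 [k1,k2,k3,k5] [(z1,[z0,z0,z1]),(z1,[y3,y3,y1,z3]),(z1,[z0,z1])] [(k4,k0,z1,[z1]),(k0,k4,z1,[z1])]),
    .old (.leafM k12 [k1,k2,k3,k5] [(z1,[z0,z0,z1]),(z1,[y2,y2,y1,z2]),(z1,[z0,z1])] [(k4,k0,z1,[z1]),(k0,k4,z1,[z1])]),
    .old (.lp [(nat_lit 4248),k0,(nat_lit 1416),(nat_lit 3600),(nat_lit 2832),(nat_lit 1770)] [k0,k0,(nat_lit 2124),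
    (nat_lit 2124),(nat_lit 1416),(nat_lit 1416),(nat_lit 324),(nat_lit 324),(nat_lit 708),(nat_lit 708),
    (nat_lit 1239),(nat_lit 1239)] k0 [[k0,k0,k0,k0,(nat_lit 2065)],[],[],[],[],[k0,(nat_lit 2065)]] (nat_lit 7080) k6
    [[(k10,(nat_lit 3009)),(k11,(nat_lit 3009)),(k8,(nat_lit 3540)),(k1,(nat_lit 4248))],[(k7,(nat_lit 1859)),(k9,
    (nat_lit 3540))],[(k6,(nat_lit 1800)),(k4,(nat_lit 2773))],[(k9,(nat_lit 1416)),(k7,(nat_lit 1800))],[(k4,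
    (nat_lit 1416)),(k6,(nat_lit 2508))],[(k5,(nat_lit 1416)),(k3,(nat_lit 2773))],[(k2,(nat_lit 1800)),(k0,
    (nat_lit 1859))],[(k3,(nat_lit 1800)),(k5,(nat_lit 2508))],[(k2,(nat_lit 1416)),(k0,(nat_lit 3540))],[(k10,
    (nat_lit 2301)),(k11,(nat_lit 2301)),(k8,(nat_lit 2832)),(k1,(nat_lit 3540))],[(k10,(nat_lit 1770)),(k11,
    (nat_lit 1770)),(k8,(nat_lit 2301)),(k1,(nat_lit 3009))],[(k10,(nat_lit 1770)),(k11,(nat_lit 1770)),(k8,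
    (nat_lit 2301)),(k1,(nat_lit 3009))]]
    [] k0
    [[k0,k1,k0,k1,k0,k0],[k0,k0,k2,k0,k0,k0],[k0,k0,k3,k0,k0,k0],[k0,k0,k4,k0,k0,k0],[k0,k0,k0,k0,k0,k2],[k0,k0,k0,k0,
    k0,k3]]
    [.contra [y1,z0,z2],.contra [z1],.ref k10 k0 [(z1,[z0,z1]),(z1,[z0,z0,z1]),(z1,[z1])],.ref k11 k0 [(z1,[z0,z1]),
    (z1,[z0,z0,z1]),(z2,[z1])],.contra [z1],.ref k9 k0 [(z1,[z0,z1]),(z1,[y1,y3,z0,z3])]]),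
    .old (.lp [(nat_lit 18216),k0,(nat_lit 10120),(nat_lit 12420),(nat_lit 12144),(nat_lit 7590)] [k0,k0,(nat_lit 9108),
    (nat_lit 9108),(nat_lit 4048),(nat_lit 4048),(nat_lit 2898),(nat_lit 2898),(nat_lit 3036),(nat_lit 3036),
    (nat_lit 5313),(nat_lit 5313)] k0 [[k0,k0,k0,k0,(nat_lit 7920)],[],[],[],[],[k0,
    (nat_lit 7920)]] (nat_lit 30360) k6
    [[(k10,(nat_lit 12903)),(k11,(nat_lit 12903)),(k8,(nat_lit 15180)),(k1,(nat_lit 18216))],[(k7,(nat_lit 7398)),(k9,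
    (nat_lit 15180))],[(k6,(nat_lit 6210)),(k4,(nat_lit 12980))],[(k9,(nat_lit 6072)),(k7,(nat_lit 6210))],[(k4,
    (nat_lit 10120)),(k6,(nat_lit 11270))],[(k5,(nat_lit 10120)),(k3,(nat_lit 12980))],[(k2,(nat_lit 6210)),(k0,
    (nat_lit 7398))],[(k3,(nat_lit 6210)),(k5,(nat_lit 11270))],[(k2,(nat_lit 6072)),(k0,(nat_lit 15180))],[(k10,
    (nat_lit 9867)),(k11,(nat_lit 9867)),(k8,(nat_lit 12144)),(k1,(nat_lit 15180))],[(k10,(nat_lit 7590)),(k11,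
    (nat_lit 7590)),(k8,(nat_lit 9867)),(k1,(nat_lit 12903))],[(k10,(nat_lit 7590)),(k11,(nat_lit 7590)),(k8,
    (nat_lit 9867)),(k1,(nat_lit 12903))]]
    [] k0
    [[k0,k1,k0,k1,k0,k0],[k0,k2,k0,k2,k0,k0],[k0,k0,k2,k0,k0,k0],[k0,k0,k0,k0,k0,k2],[k0,k0,k0,k0,k0,k3]]
    [.contra [y1,y1,z1],.ref k12 k0 [(z1,[z0,z1]),(z2,[z1])],.contra [z1],.contra [z1],.ref k9 k0 [(z1,[z0,z1]),(z1,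
    [y1,y3,z3])]]),
    .old (.lp [k12,k12,k16,k18,k12,k24] [k6,k6,k6,k6,k4,k4,k3,k3,k6,k6,k0,k0] k0 [[k0,k0,k0,k0,k2],[],[],[],[],[k0,
    k2]] k48 k5
    [[(k1,k12),(k8,k12),(k10,k18),(k11,k18)],[(k9,k12),(k7,k13)],[(k6,k15),(k4,k16)],[(k9,k12),(k7,k15)],[(k4,k16),
    (k6,k17)],[(k3,k16),(k5,k16)],[(k0,k13),(k2,k15)],[(k3,k15),(k5,k17)],[(k0,k12),(k2,k12)],[(k1,k12),(k8,k12),(k10,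
    k18),(k11,k18)],[(k1,k18),(k8,k18),(k10,k24),(k11,k24)],[(k1,k18),(k8,k18),(k10,k24),(k11,k24)]]
    [] k0
    [[k1,k0,k0,k0,k1,k0],[k0,k1,k0,k1,k0,k0],[k0,k0,k2,k0,k0,k0]]
    [.ref k13 k0 [(z1,[z1])],.ref k6 k0 [(z1,[y1,z1])],.contra [z1]])]⟩

/-- classes `0 0 0 0 1 1`, types `N0 N0 N1 N2 B0 B1` -/
noncomputable def cU6_134 : CertX :=
  ⟨[k12,k12,k13,k14,k24,k25],[],[[[]]],
    [.old (.lp [k4,k4,k6,k2,k2,k4] [k1,k1,k1,k1,k0,k0,k2,k2,k2,k2,k1,k1] k0 [] k12 k5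
    [[(k8,k3),(k11,k4)],[(k6,k3),(k7,k3)],[(k9,k3),(k4,k5)],[(k6,k3),(k7,k3)],[(k9,k4),(k4,k6)],[(k3,k5),(k5,k6)],
    [(k0,k3),(k2,k3)],[(k0,k3),(k2,k3)],[(k3,k3),(k5,k4)],[(k1,k3),(k10,k3)],[(k1,k4),(k10,k4)],[(k8,k3),(k11,k4)]]
    [] k0
    [[k0,k0,k0,k0,k0,k2]]
    [.contra [z1]])]⟩

/-- classes `0 0 0 0 1 1`, types `N0 N0 N1 N2 C0 C0` -/
noncomputable def cU6_135 : CertX :=
  ⟨[k12,k12,k13,k14,k20,k20],[],[[[]]],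
    [.old (.lp [k4,k4,k4,k2,k2,k6] [k1,k1,k1,k1,k1,k1,k2,k2,k2,k2,k0,k0] k0 [] k12 k5
    [[(k8,k3),(k10,k5)],[(k6,k3),(k7,k3)],[(k9,k3),(k4,k4)],[(k6,k3),(k7,k3)],[(k9,k3),(k4,k4)],[(k3,k4),(k5,k4)],
    [(k0,k3),(k2,k3)],[(k0,k3),(k2,k3)],[(k3,k3),(k5,k3)],[(k1,k3),(k11,k4)],[(k8,k4),(k10,k6)],[(k1,k5),(k11,k6)]]
    [] k0
    [[k0,k0,k2,k0,k0,k0]]
    [.contra [z1]])]⟩

/-- classes `0 0 0 0 1 1`, types `N0 N0 N1 N2 C0 C2` -/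
noncomputable def cU6_136 : CertX :=
  ⟨[k12,k12,k13,k14,k20,k22],[],[[[]]],
    [.old (.lp [k2,k2,k4,k2,k2,k2] [k1,k1,k1,k1,k0,k0,k1,k1,k1,k1,k1,k1] k0 [] k8 k5
    [[(k10,k2),(k11,k2)],[(k6,k2),(k7,k2)],[(k9,k2),(k4,k3)],[(k6,k2),(k7,k2)],[(k9,k3),(k4,k4)],[(k3,k3),(k5,k4)],
    [(k0,k2),(k2,k2)],[(k0,k2),(k2,k2)],[(k3,k2),(k5,k3)],[(k10,k2),(k11,k2)],[(k1,k2),(k8,k2)],[(k1,k2),(k8,k2)]]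
    [] k0
    []
    [])]⟩

/-- classes `0 0 0 0 1 1`, types `N0 N0 N1 N2 N0 N1` -/
noncomputable def cU6_137 : CertX :=
  ⟨[k12,k12,k13,k14,k28,k29],[],[[[]]],
    [.old (.lp [k4,k4,k4,k2,k2,k6] [k1,k1,k1,k1,k1,k1,k2,k2,k2,k2,k0,k0] k0 [] k12 k5
    [[(k8,k3)],[(k6,k3),(k7,k3)],[(k9,k3),(k4,k4)],[(k6,k3),(k7,k3)],[(k9,k3),(k4,k4)],[(k3,k4),(k5,k4)],[(k0,k3),(k2,
    k3)],[(k0,k3),(k2,k3)],[(k3,k3),(k5,k3)],[(k1,k3)],[(k10,k6)],[(k11,k6)]]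
    [] k0
    [[k0,k0,k2,k0,k0,k0]]
    [.contra [z1]])]⟩

/-- classes `0 0 0 0 1 1`, types `N0 N0 N1 N2 N0 N2` -/
noncomputable def cU6_138 : CertX :=
  ⟨[k12,k12,k13,k14,k28,k30],[],[[[]]],
    [.old (.lp [k2,k2,k4,k2,k2,k2] [k1,k1,k1,k1,k0,k0,k1,k1,k1,k1,k1,k1] k0 [] k8 k5
    [[(k11,k2)],[(k6,k2),(k7,k2)],[(k9,k2),(k4,k3)],[(k6,k2),(k7,k2)],[(k9,k3),(k4,k4)],[(k3,k3),(k5,k4)],[(k0,k2),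
    (k2,k2)],[(k0,k2),(k2,k2)],[(k3,k2),(k5,k3)],[(k10,k2)],[(k1,k2)],[(k8,k2)]]
    [] k0
    []
    [])]⟩

/-- classes `0 0 0 0 1 1`, types `N0 N0 N1 N2 S0 S0` -/
noncomputable def cU6_139 : CertX :=
  ⟨[k12,k12,k13,k14,k16,k16],[],[[[]]],
    [.old (.lp [k8,k2,k12,k10,k6,k8] [k2,k2,k5,k5,k0,k0,k1,k1,k3,k3,k2,k2] k0 [[k0,k0,k0,k0,k0,k0,k0,k2],[],[],[],[],[],
    [k0,k2]] k24 k5
    [[(k8,k7),(k1,k8),(k10,k8),(k11,k8)],[(k6,k7),(k7,k9)],[(k9,k6),(k4,k7)],[(k6,k6),(k7,k6)],[(k9,k9),(k4,k12)],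
    [(k3,k7),(k5,k12)],[(k2,k6),(k0,k9)],[(k2,k6),(k0,k7)],[(k3,k6),(k5,k9)],[(k8,k6),(k1,k7),(k10,k7),(k11,k7)],[(k8,
    k7),(k1,k8),(k10,k8),(k11,k8)],[(k8,k7),(k1,k8),(k10,k8),(k11,k8)]]
    [] k0
    [[k0,k0,k0,k0,k0,k2]]
    [.contra [z1]])]⟩

/-- classes `0 0 0 0 1 1`, types `N0 N0 N2 N1 B0 B1` -/
noncomputable def cU6_140 : CertX :=
  ⟨[k12,k12,k14,k13,k24,k25],[(false,k0,[k0,k1,k2,k3,k4,k5])],[[[([z1,z0,z0,z0,z1,z1],z2)],[]]],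
    [.old (.leafM k6 [k1,k2,k3,k4,k5,k0] [(z1,[z1])] []),
    .old (.lp [k24,k6,k6,k6,k6,k10] [k0,k0,k9,k9,k9,k9,k9,k9,k9,k9,k7,k7] k0 [] k30 k6
    [[(k8,k15),(k11,k17)],[(k4,k15),(k9,k15)],[(k6,k6),(k7,k6)],[(k4,k6),(k9,k6)],[(k6,k6),(k7,k6)],[(k2,k6),(k0,
    k15)],[(k3,k6),(k5,k6)],[(k3,k6),(k5,k6)],[(k2,k6),(k0,k15)],[(k10,k8),(k1,k15)],[(k10,k10),(k1,k17)],[(k8,k8),
    (k11,k10)]]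
    [] k0
    [[k0,k1,k1,k1,k0,k0],[k0,k0,k0,k0,k0,k2]]
    [.ref k0 k0 [(z1,[y1,z1])],.contra [z1]])]⟩

/-- classes `0 0 0 0 1 1`, types `N0 N0 N2 N1 C0 C0` -/
noncomputable def cU6_141 : CertX :=
  ⟨[k12,k12,k14,k13,k20,k20],[(false,k0,[k0,k1,k2,k3,k4,k5])],[[[([z1,z0,z0,z0,z1,z1],z2)],[]]],
    [.old (.leafM k4 [k1,k2,k3,k4,k5,k0] [(z1,[z1])] []),
    .old (.lp [k24,k6,k6,k6,k6,k10] [k0,k0,k9,k9,k9,k9,k9,k9,k9,k9,k7,k7] k0 [] k30 k6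
    [[(k8,k15),(k10,k17)],[(k4,k15),(k9,k15)],[(k6,k6),(k7,k6)],[(k4,k6),(k9,k6)],[(k6,k6),(k7,k6)],[(k2,k6),(k0,
    k15)],[(k3,k6),(k5,k6)],[(k3,k6),(k5,k6)],[(k2,k6),(k0,k15)],[(k11,k8),(k1,k15)],[(k8,k8),(k10,k10)],[(k11,k10),
    (k1,k17)]]
    [] k0
    [[k0,k1,k1,k1,k0,k0],[k0,k0,k0,k0,k0,k2]]
    [.ref k0 k0 [(z1,[y1,z1])],.contra [z1]])]⟩

/-- classes `0 0 0 0 1 1`, types `N0 N0 N2 N1 C0 C2` -/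
noncomputable def cU6_142 : CertX :=
  ⟨[k12,k12,k14,k13,k20,k22],[(false,k0,[k0,k1,k2,k3,k4,k5])],[[[([z1,z0,z0,z0,z1,z1],z2)],[]]],
    [.old (.leafM k4 [k1,k2,k3,k4,k5,k0] [(z1,[z1])] []),
    .old (.lp [k2,k4,k4,k0,k2,k2] [k1,k1,k0,k0,k0,k0,k2,k2,k1,k1,k1,k1] k0 [] k8 k5
    [[(k10,k2),(k11,k2)],[(k9,k2),(k4,k3)],[(k6,k2),(k7,k2)],[(k9,k3),(k4,k4)],[(k6,k2),(k7,k2)],[(k0,k3),(k2,k4)],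
    [(k3,k2),(k5,k2)],[(k3,k2),(k5,k2)],[(k0,k2),(k2,k3)],[(k10,k2),(k11,k2)],[(k1,k2),(k8,k2)],[(k1,k2),(k8,k2)]]
    [] k0
    [[k1,k0,k0,k0,k1,k1]]
    [.ref k0 k0 [(z1,[z1])]])]⟩

/-- classes `0 0 0 0 1 1`, types `N0 N0 N2 N1 N0 N1` -/
noncomputable def cU6_143 : CertX :=
  ⟨[k12,k12,k14,k13,k28,k29],[(false,k0,[k0,k1,k2,k3,k4,k5])],[[[([z1,z0,z0,z0,z1,z0],z2)],[]]],
    [.old (.lp [k24,k6,k6,k6,k6,k10] [k0,k0,k9,k9,k9,k9,k9,k9,k9,k9,k7,k7] k0 [] k30 k6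
    [[(k8,k15)],[(k4,k15),(k9,k15)],[(k6,k6),(k7,k6)],[(k4,k6),(k9,k6)],[(k6,k6),(k7,k6)],[(k2,k6),(k0,k15)],[(k3,k6),
    (k5,k6)],[(k3,k6),(k5,k6)],[(k2,k6),(k0,k15)],[(k1,k15)],[(k10,k10)],[(k11,k10)]]
    [] k0
    [[k0,k1,k1,k1,k0,k0],[k0,k0,k0,k0,k0,k2]]
    [.contra [y1,y1,z1],.contra [z1]]),
    .old (.lp [k6,k6,k6,k0,k0,k4] [k0,k0,k0,k0,k0,k0,k3,k3,k3,k3,k1,k1] k0 [] k12 k5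
    [[(k8,k3)],[(k9,k3),(k4,k6)],[(k6,k3),(k7,k3)],[(k9,k3),(k4,k6)],[(k6,k3),(k7,k3)],[(k0,k6),(k2,k6)],[(k3,k3),(k5,
    k3)],[(k3,k3),(k5,k3)],[(k0,k3),(k2,k3)],[(k1,k3)],[(k10,k4)],[(k11,k4)]]
    [] k0
    [[k1,k0,k0,k0,k1,k0],[k0,k0,k0,k0,k0,k2]]
    [.ref k0 k0 [(z1,[z1])],.contra [z1]])]⟩

/-- classes `0 0 0 0 1 1`, types `N0 N0 N2 N1 N0 N2` -/
noncomputable def cU6_144 : CertX :=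
  ⟨[k12,k12,k14,k13,k28,k30],[(false,k0,[k0,k1,k2,k3,k4,k5])],[[[([z1,z0,z0,z0,z1,z1],z2)],[]]],
    [.old (.leafM k6 [k1,k2,k3,k4,k5,k0] [(z1,[z1])] []),
    .old (.lp [k2,k4,k4,k0,k2,k2] [k1,k1,k0,k0,k0,k0,k2,k2,k1,k1,k1,k1] k0 [] k8 k5
    [[(k11,k2)],[(k9,k2),(k4,k3)],[(k6,k2),(k7,k2)],[(k9,k3),(k4,k4)],[(k6,k2),(k7,k2)],[(k0,k3),(k2,k4)],[(k3,k2),
    (k5,k2)],[(k3,k2),(k5,k2)],[(k0,k2),(k2,k3)],[(k10,k2)],[(k1,k2)],[(k8,k2)]]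
    [] k0
    [[k1,k0,k0,k0,k1,k1]]
    [.ref k0 k0 [(z1,[z1])]])]⟩

/-- classes `0 0 0 0 1 1`, types `N0 N0 N2 N1 S0 S0` -/
noncomputable def cU6_145 : CertX :=
  ⟨[k12,k12,k14,k13,k16,k16],[(false,k0,[k0,k1,k2,k3,k4,k5])],[[[([z1,z0,z0,z0,z1,z1],z2)],[]]],
    [.old (.leafM k4 [k1,k2,k3,k4,k5,k0] [(z1,[z1])] []),
    .old (.lp [k24,k6,k6,k6,k6,k10] [k0,k0,k9,k9,k9,k9,k9,k9,k9,k9,k7,k7] k0 [] k30 k6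
    [[(k8,k15),(k10,k17),(k11,k17),(k1,k24)],[(k4,k15),(k9,k15)],[(k6,k6),(k7,k6)],[(k4,k6),(k9,k6)],[(k6,k6),(k7,
    k6)],[(k2,k6),(k0,k15)],[(k3,k6),(k5,k6)],[(k3,k6),(k5,k6)],[(k2,k6),(k0,k15)],[(k8,k6),(k10,k8),(k11,k8),(k1,
    k15)],[(k8,k8),(k10,k10),(k11,k10),(k1,k17)],[(k8,k8),(k10,k10),(k11,k10),(k1,k17)]]
    [] k0
    [[k0,k1,k1,k1,k0,k0],[k0,k0,k0,k0,k0,k2]]
    [.ref k0 k0 [(z1,[y1,z1])],.contra [z1]])]⟩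

/-- classes `0 0 0 0 1 1`, types `N0 N0 N2 N2 B0 B1` -/
noncomputable def cU6_146 : CertX :=
  ⟨[k12,k12,k14,k14,k24,k25],[(false,k0,[k0,k1,k2,k3,k4,k5])],[[[([z1,z0,z1,z0,z1,z1],z2)],[]]],
    [.old (.leafM k3 [k0,k2,k4,k5] [] [(k1,k3,z1,[y1,z1]),(k3,k1,z1,[y1,z1])]),
    .old (.lp [k10,k10,k10,k2,k4,k8] [k0,k0,k0,k0,k0,k0,k4,k4,k3,k3,k1,k1] k0 [] k24 k5
    [[(k8,k7),(k11,k9)],[(k6,k6),(k4,k10)],[(k7,k6),(k9,k7)],[(k6,k6),(k4,k10)],[(k7,k6),(k9,k7)],[(k0,k10),(k2,k10)],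
    [(k3,k6),(k5,k6)],[(k0,k6),(k2,k6)],[(k3,k7),(k5,k7)],[(k10,k6),(k1,k7)],[(k10,k8),(k1,k9)],[(k8,k6),(k11,k8)]]
    [] k0
    [[k0,k1,k0,k1,k0,k0],[k0,k0,k0,k0,k0,k2]]
    [.ref k0 k0 [(z1,[y1,z1])],.contra [z1]])]⟩

/-- classes `0 0 0 0 1 1`, types `N0 N0 N2 N2 C0 C0` -/
noncomputable def cU6_147 : CertX :=
  ⟨[k12,k12,k14,k14,k20,k20],[(false,k0,[k0,k1,k2,k3,k4,k5])],[[[([z1,z0,z1,z0,z1,z1],z2)],[]]],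
    [.old (.leafM k1 [k4,k5,k0,k2] [] [(k1,k3,z1,[y1,z1]),(k3,k1,z1,[y1,z1])]),
    .old (.lp [k10,k10,k10,k2,k4,k8] [k0,k0,k0,k0,k0,k0,k4,k4,k3,k3,k1,k1] k0 [] k24 k5
    [[(k8,k7),(k10,k9)],[(k6,k6),(k4,k10)],[(k7,k6),(k9,k7)],[(k6,k6),(k4,k10)],[(k7,k6),(k9,k7)],[(k0,k10),(k2,k10)],
    [(k3,k6),(k5,k6)],[(k0,k6),(k2,k6)],[(k3,k7),(k5,k7)],[(k11,k6),(k1,k7)],[(k8,k6),(k10,k8)],[(k11,k8),(k1,k9)]]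
    [] k0
    [[k0,k1,k0,k1,k0,k0],[k0,k0,k0,k0,k0,k2]]
    [.ref k0 k0 [(z1,[y1,z1])],.contra [z1]])]⟩

/-- classes `0 0 0 0 1 1`, types `N0 N0 N2 N2 C0 C2` -/
noncomputable def cU6_148 : CertX :=
  ⟨[k12,k12,k14,k14,k20,k22],[(false,k0,[k0,k1,k2,k3,k4,k5])],[[[([z1,z0,z1,z0,z1,z1],z2)],[]]],
    [.old (.leafM k1 [k4,k5,k0,k2] [] [(k1,k3,z1,[y1,z1]),(k3,k1,z1,[y1,z1])]),
    .old (.lp [k2,k2,k2,k2,k2,k2] [k0,k0,k0,k0,k0,k0,k0,k0,k0,k0,k0,k0] k0 [] k8 k5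
    [[(k10,k2),(k11,k2)],[(k4,k2),(k6,k2)],[(k7,k2),(k9,k2)],[(k4,k2),(k6,k2)],[(k7,k2),(k9,k2)],[(k0,k2),(k2,k2)],
    [(k3,k2),(k5,k2)],[(k0,k2),(k2,k2)],[(k3,k2),(k5,k2)],[(k10,k2),(k11,k2)],[(k1,k2),(k8,k2)],[(k1,k2),(k8,k2)]]
    [] k0
    [[k0,k1,k0,k1,k0,k0]]
    [.ref k0 k0 [(z1,[y1,z1])]])]⟩

/-- classes `0 0 0 0 1 1`, types `N0 N0 N2 N2 N0 N1` -/
noncomputable def cU6_149 : CertX :=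
  ⟨[k12,k12,k14,k14,k28,k29],[(false,k0,[k0,k1,k2,k3,k4,k5])],[[[([z1,z0,z1,z0,z1,z1],z2)],[]]],
    [.old (.lp [k6,k24,k6,k6,k6,k10] [k9,k9,k0,k0,k9,k9,k9,k9,k9,k9,k7,k7] k0 [] k30 k6
    [[(k8,k6)],[(k4,k6),(k6,k6)],[(k7,k15),(k9,k15)],[(k4,k15),(k6,k15)],[(k7,k6),(k9,k6)],[(k0,k6),(k2,k15)],[(k5,
    k6),(k3,k15)],[(k0,k6),(k2,k15)],[(k5,k6),(k3,k15)],[(k1,k6)],[(k10,k10)],[(k11,k10)]]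
    [] k0
    [[k1,k0,k1,k0,k1,k0],[k0,k0,k0,k0,k0,k2]]
    [.contra [y1,z1],.contra [z1]]),
    .old (.lp [k6,k6,k6,k0,k0,k4] [k0,k0,k0,k0,k0,k0,k3,k3,k3,k3,k1,k1] k0 [] k12 k5
    [[(k8,k3)],[(k6,k3),(k4,k6)],[(k7,k3),(k9,k3)],[(k6,k3),(k4,k6)],[(k7,k3),(k9,k3)],[(k0,k6),(k2,k6)],[(k3,k3),(k5,
    k3)],[(k0,k3),(k2,k3)],[(k3,k3),(k5,k3)],[(k1,k3)],[(k10,k4)],[(k11,k4)]]
    [] k0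
    [[k0,k1,k0,k1,k0,k0],[k0,k0,k0,k0,k0,k2]]
    [.ref k0 k0 [(z1,[y1,z1])],.contra [z1]])]⟩

/-- classes `0 0 0 0 1 1`, types `N0 N0 N2 N2 N0 N2` -/
noncomputable def cU6_150 : CertX :=
  ⟨[k12,k12,k14,k14,k28,k30],[(false,k0,[k0,k1,k2,k3,k4,k5])],[[[([z1,z0,z1,z0,z1,z1],z2)],[]]],
    [.old (.leafM k3 [k0,k2,k4,k5] [] [(k1,k3,z1,[y1,z1]),(k3,k1,z1,[y1,z1])]),
    .old (.lp [k2,k2,k2,k2,k2,k2] [k0,k0,k0,k0,k0,k0,k0,k0,k0,k0,k0,k0] k0 [] k8 k5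
    [[(k11,k2)],[(k4,k2),(k6,k2)],[(k7,k2),(k9,k2)],[(k4,k2),(k6,k2)],[(k7,k2),(k9,k2)],[(k0,k2),(k2,k2)],[(k3,k2),
    (k5,k2)],[(k0,k2),(k2,k2)],[(k3,k2),(k5,k2)],[(k10,k2)],[(k1,k2)],[(k8,k2)]]
    [] k0
    [[k0,k1,k0,k1,k0,k0]]
    [.ref k0 k0 [(z1,[y1,z1])]])]⟩

/-- classes `0 0 0 0 1 1`, types `N0 N0 N2 N2 S0 S0` -/
noncomputable def cU6_151 : CertX :=
  ⟨[k12,k12,k14,k14,k16,k16],[(false,k0,[k0,k1,k2,k3,k4,k5])],[[[([z1,z0,z1,z0,z1,z1],z2)],[]]],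
    [.old (.leafM k1 [k4,k5,k0,k2] [] [(k1,k3,z1,[y1,z1]),(k3,k1,z1,[y1,z1])]),
    .old (.lp [k12,k6,k6,k6,k6,k8] [k0,k0,k3,k3,k3,k3,k3,k3,k3,k3,k2,k2] k0 [] k24 k5
    [[(k8,k9),(k10,k10),(k11,k10),(k1,k12)],[(k4,k9),(k6,k9)],[(k7,k6),(k9,k6)],[(k4,k6),(k6,k6)],[(k7,k6),(k9,k6)],
    [(k2,k6),(k0,k9)],[(k3,k6),(k5,k6)],[(k2,k6),(k0,k9)],[(k3,k6),(k5,k6)],[(k8,k6),(k10,k7),(k11,k7),(k1,k9)],[(k8,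
    k7),(k10,k8),(k11,k8),(k1,k10)],[(k8,k7),(k10,k8),(k11,k8),(k1,k10)]]
    [] k0
    [[k0,k1,k0,k1,k0,k0],[k0,k0,k0,k0,k0,k2]]
    [.ref k0 k0 [(z1,[y1,z1])],.contra [z1]])]⟩

/-- classes `0 0 0 0 1 1`, types `N0 N1 N0 N1 B0 B1` -/
noncomputable def cU6_152 : CertX :=
  ⟨[k12,k13,k12,k13,k24,k25],[(false,k0,[k0,k1,k2,k3,k4,k5])],[[[([z3,z0,z0,z0,z3,z0],z2),([z0,z1,z0,z1,z0,z0],z2),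
    ([z0,z0,z3,z0,z0,z0],z2)],[([z1,z0,z0,z0,z1,z0],z1),([z0,z1,z0,z1,z0,z0],z2),([z0,z0,z3,z0,z0,z0],z2)],[([z3,z0,
    z0,z0,z3,z3],z4),([z0,z1,z0,z1,z0,z0],z2)],[([z1,z0,z0,z0,z1,z0],z1),([z0,z1,z0,z1,z0,z0],z2),([z0,z0,z3,z0,z0,
    z0],z1)],[([z1,z0,z0,z0,z1,z0],z1),([z0,z1,z0,z1,z0,z0],z2),([z0,z0,z2,z0,z0,z0],z1)],[([z1,z0,z0,z0,z1,z0],z1),
    ([z0,z1,z0,z1,z0,z0],z2)],[([z1,z0,z1,z0,z1,z1],z2)],[([z1,z0,z0,z0,z1,z0],z2),([z0,z3,z0,z3,z0,z0],z2),([z0,z0,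
    z3,z0,z0,z0],z2)],[([z1,z0,z0,z0,z1,z0],z2),([z0,z1,z0,z1,z0,z0],z1),([z0,z0,z3,z0,z0,z0],z2)],[([z1,z0,z0,z0,z1,
    z0],z2),([z0,z6,z0,z6,z0,z0],z5),([z0,z0,z3,z0,z0,z0],z2)],[([z1,z0,z0,z0,z1,z0],z2),([z0,z3,z0,z3,z0,z3],z4)],
    [([z1,z0,z0,z0,z1,z0],z2),([z0,z3,z0,z0,z0,z0],z2),([z0,z0,z3,z0,z0,z3],z2)]],[[([z1,z0,z0,z0,z1,z0],z2),([z0,z2,
    z0,z1,z0,z0],z2)],[([z1,z0,z0,z0,z1,z0],z2),([z0,z1,z0,z1,z0,z0],z1),([z0,z0,z3,z0,z0,z0],z1)],[([z1,z0,z0,z0,z1,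
    z0],z2),([z0,z1,z0,z1,z0,z0],z1),([z0,z0,z2,z0,z0,z0],z1)],[([z1,z0,z0,z0,z1,z0],z2),([z0,z1,z0,z1,z0,z0],z1)],
    [([z1,z0,z0,z0,z1,z0],z2)],[([z1,z0,z1,z0,z1,z0],z2),([z0,z3,z0,z0,z0,z0],z2),([z0,z0,z0,z3,z0,z0],z2)],[([z1,z0,
    z1,z0,z1,z0],z2),([z0,z3,z0,z3,z0,z0],z4)],[([z1,z0,z1,z0,z1,z0],z2)],[]]],
    [.old (.leafM k10 [k0,k2,k4,k5] [(z1,[z0,z0,z1]),(z1,[y1,y3,y1,z3]),(z1,[z1])] [(k1,k3,z1,[z0,z1]),(k3,k1,z1,[z0,z1])]),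
    .old (.leafM k11 [k0,k2,k4,k5] [(z1,[z0,z0,z1]),(z1,[y3,y3,y1,z3]),(z1,[z1])] [(k1,k3,z1,[z0,z1]),(k3,k1,z1,[z0,z1])]),
    .old (.lp [k64,k158,k80,k80,k36,k60] [k47,k47,k0,k0,k39,k39,k39,k39,k61,k61,k49,k49] k0 [[k0,k0,k0,k0,k0,k0,k2],[],[],
    [],[],[],[],[k0,k2]] (nat_lit 240) k6
    [[(k8,k50),(k11,k62)],[(k9,k48),(k5,k72)],[(k6,k121),(k2,k158)],[(k7,k119),(k3,k158)],[(k0,k72),(k4,k80)],[(k9,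
    k58),(k5,k80)],[(k6,k80),(k2,k119)],[(k7,k80),(k3,k121)],[(k0,k48),(k4,k58)],[(k10,k48),(k1,k50)],[(k10,k60),(k1,
    k62)],[(k8,k48),(k11,k60)]]
    [] k0
    [[k1,k0,k0,k0,k1,k0],[k2,k0,k0,k0,k2,k0],[k1,k0,k1,k0,k1,k0],[k1,k0,k0,k0,k1,k1],[k1,k0,k0,k0,k1,k2],[k0,k0,k2,k0,
    k0,k0],[k0,k0,k0,k2,k0,k0],[k0,k0,k0,k0,k0,k2],[k0,k0,k0,k0,k0,k3]]
    [.contra [y1,z0,y1,z1],.ref k1 k0 [(z2,[z1]),(z1,[z0,z0,z1]),(z1,[z0,y1,y3,z3])],.contra [y1,z0,y1,z1],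
    .contra [z1,y1,y2,z2],.ref k0 k0 [(z1,[y3,z2]),(z1,[z0,z0,z1]),(z1,[z0,y1,y3,z3])],.contra [z1],.contra [y1,z0,
    z2],.contra [z1],.ref k0 k0 [(z1,[y1,z1]),(z1,[z0,z0,z1]),(z1,[z0,y1,y3,z3])]]),
    .old (.leafM k11 [k4,k5,k0,k2] [(z1,[y3,y3,y1,z3]),(z1,[z0,z0,z1]),(z1,[z1])] [(k1,k3,z1,[z0,z1]),(k3,k1,z1,[z0,z1])]),
    .old (.leafM k12 [k0,k2,k4,k5] [(z1,[z0,z0,z1]),(z1,[y2,y2,y1,z2]),(z1,[z1])] [(k1,k3,z1,[z0,z1]),(k3,k1,z1,[z0,z1])]),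
    .old (.lp [k48,k70,k24,k40,k24,k30] [k11,k11,k0,k0,k23,k23,k15,k15,k23,k23,k20,k20] k0 [[k0,k0,k0,k0,k0,k0,k10],[],[],
    [],[],[],[],[k0,k10]] k120 k6
    [[(k8,k36),(k11,k39)],[(k9,k26),(k5,k36)],[(k6,k65),(k2,k70)],[(k7,k55),(k3,k70)],[(k4,k24),(k0,k36)],[(k5,k24),
    (k9,k24)],[(k6,k40),(k2,k55)],[(k7,k40),(k3,k65)],[(k4,k24),(k0,k26)],[(k10,k27),(k1,k36)],[(k10,k30),(k1,k39)],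
    [(k8,k27),(k11,k30)]]
    [] k0
    [[k1,k0,k0,k0,k1,k0],[k1,k0,k1,k0,k1,k0],[k1,k0,k0,k0,k1,k1],[k0,k0,k2,k0,k0,k0],[k0,k0,k3,k0,k0,k0],[k0,k0,k4,k0,
    k0,k0],[k0,k0,k0,k2,k0,k0],[k0,k0,k0,k0,k0,k2],[k0,k0,k0,k0,k0,k3]]
    [.contra [y2,z2,z1],.contra [z1,y1],.contra [z1,y1],.contra [z1],.ref k2 k0 [(z1,[y1,z0,y3,z3]),(z1,[z0,z0,z1])],
    .ref k4 k0 [(z1,[z0,z1]),(z1,[z0,z0,z1]),(z2,[z1])],.contra [y1,z0,z2],.contra [z1],.ref k3 k0 [(z1,[z0,z1]),(z1,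
    [z0,z0,z1]),(z1,[y1,y3,y3,z3])]]),
    .old (.lp [(nat_lit 1960),(nat_lit 3480),(nat_lit 1960),(nat_lit 1960),(nat_lit 392),(nat_lit 1960)] [(nat_lit 760),
    (nat_lit 760),k0,k0,(nat_lit 760),(nat_lit 760),(nat_lit 760),(nat_lit 760),(nat_lit 1544),(nat_lit 1544),
    (nat_lit 760),(nat_lit 760)] k0 [[],[k0,k0,k0,k98],[k98],[k0,k0,k0,k0,k0,(nat_lit 441)],[k0,k0,
    (nat_lit 441)]] (nat_lit 5880) k6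
    [[(k8,(nat_lit 1176)),(k11,(nat_lit 1960))],[(k9,(nat_lit 1176)),(k5,(nat_lit 2058))],[(k6,(nat_lit 2720)),(k2,
    (nat_lit 3382))],[(k7,(nat_lit 3161)),(k3,(nat_lit 3382))],[(k4,(nat_lit 1519)),(k0,(nat_lit 2058))],[(k9,
    (nat_lit 1176)),(k5,(nat_lit 1519))],[(k6,(nat_lit 1960)),(k2,(nat_lit 3161))],[(k7,(nat_lit 1960)),(k3,
    (nat_lit 2720))],[(k0,(nat_lit 1176)),(k4,(nat_lit 1176))],[(k1,(nat_lit 1176)),(k10,(nat_lit 1176))],[(k1,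
    (nat_lit 1960)),(k10,(nat_lit 1960))],[(k8,(nat_lit 1176)),(k11,(nat_lit 1960))]]
    [] k0
    [[k1,k0,k0,k0,k1,k0],[k2,k0,k0,k0,k2,k0],[k1,k0,k1,k0,k1,k0],[k1,k0,k0,k0,k1,k1],[k0,k0,k2,k0,k0,k0],[k0,k0,k3,k0,
    k0,k0],[k0,k0,k0,k2,k0,k0],[k0,k0,k0,k0,k0,k2]]
    [.contra [y1,z1],.ref k5 k0 [(z2,[z1]),(z1,[z0,y1,z1])],.contra [y1,z1],.contra [y1,z1],.contra [z1],
    .ref k2 k0 [(z1,[y1,z3]),(z1,[z0,y1,z1])],.contra [y1,y2,z2],.contra [z1]]),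
    .old (.leafM k10 [k1,k2,k3,k5] [(z1,[z0,z0,z1]),(z1,[y3,y1,y1,z3]),(z1,[z0,z1])] [(k4,k0,z1,[z1]),(k0,k4,z1,[z1])]),
    .old (.leafM k11 [k1,k2,k3,k5] [(z1,[z0,z0,z1]),(z1,[y3,y3,y1,z3]),(z1,[z0,z1])] [(k4,k0,z1,[z1]),(k0,k4,z1,[z1])]),
    .old (.lp [k183,(nat_lit 242),k0,(nat_lit 286),k135,k122] [k45,k58,k22,k22,k143,k143,k0,k0,k106,k45,k82,k82] k2 [[],
    [k0,k0,k0,k0,k0,k0,k0,k166],[k0,k0,k0,k0,k162],[],[],[k0,k0,k0,k162],[k166]] (nat_lit 480) k6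
    [[(k8,k120),(k11,k144)],[(k5,k96),(k9,(nat_lit 360))],[(k6,k96),(k2,(nat_lit 240))],[(k7,k100),(k3,
    (nat_lit 240))],[(k0,k96),(k4,k160)],[(k9,k96),(k5,k160)],[(k2,k100),(k6,(nat_lit 284))],[(k3,k96),(k7,
    (nat_lit 284))],[(k4,k96),(k0,(nat_lit 360))],[(k10,k96),(k1,k120)],[(k10,k120),(k1,k144)],[(k8,k96),(k11,k120)]]
    [] k0
    [[k1,k0,k1,k0,k1,k0],[k1,k0,k2,k0,k1,k0],[k1,k0,k1,k0,k1,k1],[k0,k2,k0,k1,k0,k0],[k0,k1,k0,k1,k0,k0],[k0,k2,k0,k2,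
    k0,k0],[k0,k0,k2,k0,k0,k0],[k0,k0,k0,k0,k0,k2],[k0,k0,k0,k0,k0,k3]]
    [.contra [y1,z1,z0,z1],.contra [y1,z1,z0,z2],.contra [y6,z0,y1,z7,z6],.contra [y6,z0,z2,z1],.contra [z6,z0,y1,z7],
    .contra [z3,z0,y1,z1],.contra [z1],.contra [z3,z6,z1,z5,y6],.contra [z2,z6,z1,z3,y6]]),
    .old (.lp [(nat_lit 11760),(nat_lit 17556),(nat_lit 1330),(nat_lit 17556),(nat_lit 9120),
    (nat_lit 6384)] [(nat_lit 2898),(nat_lit 2898),k0,k0,(nat_lit 8113),(nat_lit 8113),k0,k0,(nat_lit 5548),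
    (nat_lit 2888),(nat_lit 5586),(nat_lit 5586)] k0 [[],[k0,k0,k0,k0,k0,k0,k0,(nat_lit 11172)],[k0,k0,k0,k0,
    (nat_lit 9576)],[],[],[k0,k0,k0,(nat_lit 9576)],[(nat_lit 11172)]] (nat_lit 31920) k6
    [[(k11,(nat_lit 9072)),(k8,(nat_lit 9110))],[(k5,(nat_lit 6545)),(k9,(nat_lit 22942))],[(k6,(nat_lit 6384)),(k2,
    (nat_lit 17556))],[(k7,(nat_lit 7980)),(k3,(nat_lit 17556))],[(k0,(nat_lit 6545)),(k4,(nat_lit 10906))],[(k9,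
    (nat_lit 6555)),(k5,(nat_lit 10906))],[(k2,(nat_lit 7980)),(k6,(nat_lit 17556))],[(k3,(nat_lit 6384)),(k7,
    (nat_lit 17556))],[(k4,(nat_lit 6555)),(k0,(nat_lit 22942))],[(k10,(nat_lit 6422)),(k1,(nat_lit 9110))],[(k10,
    (nat_lit 6384)),(k1,(nat_lit 9072))],[(k11,(nat_lit 6384)),(k8,(nat_lit 6422))]]
    [] k0
    [[k1,k0,k1,k0,k1,k0],[k1,k0,k1,k0,k1,k1],[k0,k1,k0,k1,k0,k0],[k0,k2,k0,k2,k0,k0],[k0,k0,k2,k0,k0,k0],[k0,k0,k0,k0,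
    k0,k2],[k0,k0,k0,k0,k0,k3],[k0,k0,k0,k0,k0,k4]]
    [.contra [y1,y2,y1,z3],.contra [z1,y1],.contra [y1,y1,z0,z1],.ref k8 k0 [(z1,[z0,z1]),(z2,[z1]),(z1,[z0,y3,y1,
    z3])],.contra [z1],.contra [z1],.ref k7 k0 [(z1,[z0,z1]),(z1,[y1,z0,z1]),(z1,[z0,y3,y1,z3])],.ref k9 k0 [(z1,[z0,
    z1]),(z2,[y3,z0,z4]),(z1,[z0,y3,y1,z3])]]),
    .old (.lp [k96,k138,k0,k138,k78,k68] [k13,k29,k0,k0,k69,k69,k0,k0,k47,k13,k35,k35] k8 [[],[k0,k0,k0,k0,k0,k0,k0,k82],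
    [k0,k0,k0,k0,k68],[],[],[k0,k0,k0,k68],[k82]] (nat_lit 240) k6
    [[(k8,k54),(k11,k66)],[(k5,k48),(k9,k186)],[(k6,k48),(k2,k130)],[(k7,k62),(k3,k130)],[(k0,k48),(k4,k60)],[(k9,
    k48),(k5,k60)],[(k2,k62),(k6,k130)],[(k3,k48),(k7,k130)],[(k4,k48),(k0,k186)],[(k10,k48),(k1,k54)],[(k10,k60),(k1,
    k66)],[(k8,k48),(k11,k60)]]
    [] k0
    [[k1,k0,k1,k0,k1,k0],[k1,k0,k2,k0,k1,k0],[k1,k0,k1,k0,k1,k1],[k0,k1,k0,k1,k0,k0],[k0,k2,k0,k2,k0,k0],[k0,k0,k2,k0,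
    k0,k0],[k0,k0,k3,k0,k0,k0],[k0,k0,k0,k0,k0,k2],[k0,k0,k0,k0,k0,k3]]
    [.contra [z1,y1],.contra [z1,y1],.contra [y3,z3,z2,z1],.contra [z3,z3,z2,z1,y3],.contra [y3,y6,z2,y2,z6],
    .contra [z1],.contra [y1,z0,z0,z1],.contra [z1],.contra [y1,z0,z0,z1]]),
    .old (.lp [(nat_lit 24892),(nat_lit 36322),k0,(nat_lit 20574),(nat_lit 20574),(nat_lit 20574)] [(nat_lit 5715),
    (nat_lit 5715),k0,k0,(nat_lit 18161),(nat_lit 18161),(nat_lit 7874),(nat_lit 7874),(nat_lit 10034),(nat_lit 5714),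
    (nat_lit 7874),(nat_lit 7874)] (nat_lit 254) [[],[k0,k0,k0,k0,k0,k0,k0,(nat_lit 16002)],[k0,k0,k0,k0,
    (nat_lit 15494)],[],[],[k0,k0,k0,(nat_lit 15494)],[(nat_lit 16002)]] (nat_lit 60960) k6
    [[(k8,(nat_lit 20319)),(k11,(nat_lit 22479))],[(k5,(nat_lit 12192)),(k9,(nat_lit 40641))],[(k6,(nat_lit 12192)),
    (k2,(nat_lit 36068))],[(k7,(nat_lit 12700)),(k3,(nat_lit 36068))],[(k0,(nat_lit 12192)),(k4,(nat_lit 15240))],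
    [(k9,(nat_lit 12193)),(k5,(nat_lit 15240))],[(k2,(nat_lit 12700)),(k6,(nat_lit 20320))],[(k3,(nat_lit 12192)),(k7,
    (nat_lit 20320))],[(k4,(nat_lit 12193)),(k0,(nat_lit 40641))],[(k10,(nat_lit 18160)),(k1,(nat_lit 20319))],[(k10,
    (nat_lit 20320)),(k1,(nat_lit 22479))],[(k8,(nat_lit 18160)),(k11,(nat_lit 20320))]]
    [] k0
    [[k1,k0,k1,k0,k1,k0],[k1,k0,k2,k0,k1,k0],[k0,k1,k0,k1,k0,k0],[k0,k2,k0,k2,k0,k0],[k0,k1,k0,k2,k0,k0],[k0,k0,k2,k0,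
    k0,k0],[k0,k0,k3,k0,k0,k0],[k0,k0,k0,k2,k0,k0],[k0,k0,k0,k0,k0,k2]]
    [.contra [z1,y1],.contra [z1,y1],.contra [y1,z0,z1],.contra [y1,z0,z2],.ref k11 k0 [(z1,[z0,z1]),(z1,[y1,z0,z2]),
    (z1,[y1,y3,y1,z3])],.contra [z1],.ref k10 k0 [(z1,[z0,z1]),(z1,[y1,y3,z0,z3])],.contra [z1],.contra [z1]]),
    .old (.leafM k11 [k3,k5,k1,k2] [(z1,[y3,y3,y1,z3]),(z1,[z0,z0,z1]),(z1,[z0,z1])] [(k4,k0,z1,[z1]),(k0,k4,z1,[z1])]),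
    .old (.leafM k12 [k1,k2,k3,k5] [(z1,[z0,z0,z1]),(z1,[y2,y2,y1,z2]),(z1,[z0,z1])] [(k4,k0,z1,[z1]),(k0,k4,z1,[z1])]),
    .old (.lp [k152,k66,k52,k110,k48,k48] [k0,k0,k43,k43,k50,k50,k21,k21,k52,k52,k52,k52] k0 [[k0,k0,k54],[k0,k0,k0,k0,k0,
    k0,k0,k40],[k0,k0,k0,k0,k8],[k0,k54],[k0,k0,k0,k0,k0,k0,k2],[k0,k0,k0,k8],[k40],[k0,k0,k0,k0,k0,
    k2]] (nat_lit 240) k6
    [[(k8,k100),(k11,k100)],[(k5,k48),(k9,k140)],[(k6,k48),(k2,k120)],[(k7,k80),(k3,k120)],[(k0,k48),(k4,k60)],[(k9,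
    k48),(k5,k60)],[(k2,k80),(k6,k112)],[(k3,k48),(k7,k112)],[(k4,k48),(k0,k140)],[(k10,k48),(k1,k100)],[(k10,k48),
    (k1,k100)],[(k8,k48),(k11,k48)]]
    [] k0
    [[k1,k0,k1,k0,k1,k0],[k0,k1,k0,k1,k0,k0],[k0,k0,k2,k0,k0,k0],[k0,k0,k3,k0,k0,k0],[k0,k0,k0,k2,k0,k0],[k0,k0,k0,k0,
    k0,k2],[k0,k0,k0,k0,k0,k3],[k0,k0,k0,k0,k0,k4]]
    [.contra [y1,z0,y1,z1],.contra [y1,z0,z2],.contra [z1],.ref k10 k0 [(z1,[z0,z1]),(z1,[y1,y3,z0,z3])],.contra [z1],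
    .contra [z1],.ref k13 k0 [(z1,[z0,z1]),(z1,[z0,z0,z1]),(z1,[y1,y3,y3,z3])],.ref k14 k0 [(z1,[z0,z1]),(z1,[z0,z0,
    z1]),(z2,[y1,y4,y4,z4])]]),
    .old (.lp [(nat_lit 24892),(nat_lit 20574),k0,(nat_lit 36322),(nat_lit 20574),(nat_lit 20574)] [(nat_lit 5715),
    (nat_lit 5715),(nat_lit 7874),(nat_lit 7874),(nat_lit 18161),(nat_lit 18161),k0,k0,(nat_lit 10034),(nat_lit 5714),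
    (nat_lit 7874),(nat_lit 7874)] (nat_lit 254) [[],[k0,k0,k0,k0,k0,k0,k0,(nat_lit 16002)],[k0,k0,k0,k0,
    (nat_lit 15494)],[],[],[k0,k0,k0,(nat_lit 15494)],[(nat_lit 16002)]] (nat_lit 60960) k6
    [[(k8,(nat_lit 20319)),(k11,(nat_lit 22479))],[(k5,(nat_lit 12192)),(k9,(nat_lit 40641))],[(k6,(nat_lit 12192)),
    (k2,(nat_lit 20320))],[(k7,(nat_lit 12700)),(k3,(nat_lit 20320))],[(k0,(nat_lit 12192)),(k4,(nat_lit 15240))],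
    [(k9,(nat_lit 12193)),(k5,(nat_lit 15240))],[(k2,(nat_lit 12700)),(k6,(nat_lit 36068))],[(k3,(nat_lit 12192)),(k7,
    (nat_lit 36068))],[(k4,(nat_lit 12193)),(k0,(nat_lit 40641))],[(k10,(nat_lit 18160)),(k1,(nat_lit 20319))],[(k10,
    (nat_lit 20320)),(k1,(nat_lit 22479))],[(k8,(nat_lit 18160)),(k11,(nat_lit 20320))]]
    [] k0
    [[k1,k0,k1,k0,k1,k0],[k1,k0,k2,k0,k1,k0],[k0,k2,k0,k0,k0,k0],[k0,k2,k0,k1,k0,k0],[k0,k1,k0,k1,k0,k0],[k0,k2,k0,k2,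
    k0,k0],[k0,k0,k2,k0,k0,k0],[k0,k0,k3,k0,k0,k0],[k0,k0,k0,k0,k0,k2]]
    [.contra [z1,y1],.contra [z1,y1],.contra [z1],.ref k12 k0 [(z1,[z0,z1]),(z1,[z1])],.contra [y1,y1,z1],
    .ref k15 k0 [(z1,[z0,z1]),(z2,[z1])],.contra [z1],.ref k10 k0 [(z1,[z0,z1]),(z1,[y1,y3,z3])],.contra [z1]]),
    .old (.leafM k2 [k0,k1,k2,k3,k4,k5] [(z1,[z0,z1]),(z1,[z0,z0,z1]),(z1,[y3,y1,y1,z3])] []),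
    .old (.lp [k24,k18,k16,k12,k8,k16] [k0,k0,k3,k3,k4,k4,k6,k6,k8,k8,k4,k4] k0 [] k48 k5
    [[(k8,k16),(k11,k20)],[(k9,k16),(k5,k20)],[(k6,k15),(k2,k18)],[(k7,k15),(k3,k18)],[(k4,k16),(k0,k20)],[(k9,k12),
    (k5,k16)],[(k6,k12),(k2,k15)],[(k7,k12),(k3,k15)],[(k4,k12),(k0,k16)],[(k10,k12),(k1,k16)],[(k10,k16),(k1,k20)],
    [(k8,k12),(k11,k16)]]
    [] k0
    [[k1,k0,k0,k0,k1,k0],[k0,k2,k0,k0,k0,k0],[k0,k1,k0,k1,k0,k0],[k0,k1,k0,k2,k0,k0],[k0,k0,k2,k0,k0,k0],[k0,k0,k0,k2,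
    k0,k0],[k0,k0,k0,k3,k0,k0],[k0,k0,k0,k0,k0,k2]]
    [.contra [y1,z1],.contra [z1],.contra [z1,y2,y1,z2],.ref k17 k0 [(z1,[z0,z1]),(z1,[y3,z0,z2]),(z1,[z3,z0,y1])],
    .contra [z1],.contra [z1],.ref k17 k0 [(z1,[z0,z1]),(z1,[y1,z0,z1]),(z1,[z1])],.contra [z1]]),
    .old (.lp [(nat_lit 3588),(nat_lit 2496),(nat_lit 2392),(nat_lit 2208),(nat_lit 1794),(nat_lit 1794)] [k0,k0,
    (nat_lit 546),(nat_lit 546),(nat_lit 598),(nat_lit 598),(nat_lit 690),(nat_lit 690),(nat_lit 897),(nat_lit 897),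
    (nat_lit 897),(nat_lit 897)] k0 [[],[],[],[],[k0,k0,k0,k0,k0,k0,(nat_lit 299)],[],[],[k0,k0,k0,k0,k0,
    (nat_lit 299)]] (nat_lit 7176) k5
    [[(k8,(nat_lit 2691)),(k11,(nat_lit 2691))],[(k9,(nat_lit 2691)),(k5,(nat_lit 2990))],[(k6,(nat_lit 2352)),(k2,
    (nat_lit 2496))],[(k7,(nat_lit 2352)),(k3,(nat_lit 2496))],[(k4,(nat_lit 2392)),(k0,(nat_lit 2990))],[(k9,
    (nat_lit 1794)),(k5,(nat_lit 2392))],[(k2,(nat_lit 2352)),(k6,(nat_lit 2507))],[(k3,(nat_lit 2352)),(k7,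
    (nat_lit 2507))],[(k4,(nat_lit 1794)),(k0,(nat_lit 2691))],[(k10,(nat_lit 1794)),(k1,(nat_lit 2691))],[(k10,
    (nat_lit 1794)),(k1,(nat_lit 2691))],[(k8,(nat_lit 1794)),(k11,(nat_lit 1794))]]
    [] k0
    [[k1,k0,k0,k0,k1,k0],[k0,k2,k0,k0,k0,k0],[k0,k1,k0,k1,k0,k0],[k0,k0,k2,k0,k0,k0],[k0,k0,k0,k2,k0,k0],[k0,k0,k0,k0,
    k0,k2],[k0,k0,k0,k0,k0,k3]]
    [.contra [y1,z1],.contra [z1],.contra [y1,y1,z1],.contra [z1],.contra [z1],.contra [z1],.ref k18 k0 [(z1,[z0,z1]),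
    (z1,[y1,y3,z3])]]),
    .old (.lp [(nat_lit 22800),(nat_lit 19320),(nat_lit 17480),(nat_lit 18354),(nat_lit 8740),(nat_lit 17480)] [k0,k0,
    (nat_lit 1740),(nat_lit 1740),(nat_lit 2660),(nat_lit 2660),(nat_lit 2223),(nat_lit 2223),(nat_lit 7030),
    (nat_lit 7030),(nat_lit 2660),(nat_lit 2660)] k0 [[k0,k0,(nat_lit 6992)],[k0,k0,k0,k0,k0,k0,k0,(nat_lit 3496)],[],
    [k0,(nat_lit 6992)],[],[],[(nat_lit 3496)]] (nat_lit 52440) k5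
    [[(k8,(nat_lit 15770)),(k11,(nat_lit 20140))],[(k5,(nat_lit 13148)),(k9,(nat_lit 19266))],[(k6,(nat_lit 15341)),
    (k2,(nat_lit 26312))],[(k7,(nat_lit 18837)),(k3,(nat_lit 26312))],[(k0,(nat_lit 13148)),(k4,(nat_lit 17480))],
    [(k9,(nat_lit 13110)),(k5,(nat_lit 17480))],[(k6,(nat_lit 18354)),(k2,(nat_lit 18837))],[(k3,(nat_lit 15341)),(k7,
    (nat_lit 18354))],[(k4,(nat_lit 13110)),(k0,(nat_lit 19266))],[(k10,(nat_lit 13110)),(k1,(nat_lit 15770))],[(k10,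
    (nat_lit 17480)),(k1,(nat_lit 20140))],[(k8,(nat_lit 13110)),(k11,(nat_lit 17480))]]
    [] k0
    [[k1,k0,k0,k0,k1,k0],[k1,k0,k1,k0,k1,k0],[k0,k1,k0,k1,k0,k0],[k0,k0,k2,k0,k0,k0],[k0,k0,k0,k2,k0,k0],[k0,k0,k0,k0,
    k0,k2]]
    [.ref k16 k0 [(z1,[z1])],.ref k19 k0 [(z1,[z1])],.ref k6 k0 [(z1,[y1,z1])],.contra [z1],.contra [z1],
    .contra [z1]])]⟩

/-- classes `0 0 0 0 1 1`, types `N0 N1 N0 N1 C0 C0` -/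
noncomputable def cU6_153 : CertX :=
  ⟨[k12,k13,k12,k13,k20,k20],[(false,k0,[k0,k1,k2,k3,k4,k5])],[[[([z3,z0,z0,z0,z3,z0],z2),([z0,z1,z0,z1,z0,z0],z2),
    ([z0,z0,z3,z0,z0,z0],z2)],[([z1,z0,z0,z0,z1,z0],z1),([z0,z1,z0,z1,z0,z0],z2),([z0,z0,z3,z0,z0,z0],z1)],[([z3,z0,
    z3,z0,z3,z0],z4),([z0,z1,z0,z1,z0,z0],z2)],[([z1,z0,z0,z0,z1,z0],z2),([z0,z3,z0,z3,z0,z0],z2),([z0,z0,z3,z0,z0,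
    z0],z2)],[([z1,z0,z0,z0,z1,z0],z2),([z0,z1,z0,z1,z0,z0],z1),([z0,z0,z3,z0,z0,z0],z1)],[([z1,z0,z0,z0,z1,z0],z2),
    ([z0,z2,z0,z1,z0,z0],z2),([z0,z0,z6,z3,z0,z0],z2)],[([z1,z0,z0,z0,z1,z0],z2),([z0,z3,z3,z3,z0,z0],z4)],[([z1,z0,
    z1,z0,z1,z0],z2),([z0,z3,z0,z0,z0,z0],z2),([z0,z0,z0,z3,z0,z0],z2)],[([z1,z0,z1,z0,z1,z0],z2),([z0,z3,z0,z3,z0,
    z0],z4)],[([z3,z3,z3,z3,z3,z0],z10)],[([z1,z0,z0,z0,z1,z0],z1),([z0,z1,z0,z1,z0,z0],z2),([z0,z0,z3,z0,z0,z0],z2)],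
    [([z3,z0,z0,z0,z3,z3],z4),([z0,z1,z0,z1,z0,z0],z2)]],[[([z1,z0,z0,z0,z1,z0],z1),([z0,z1,z0,z1,z0,z0],z2),([z0,z0,
    z2,z0,z0,z0],z1)],[([z1,z0,z0,z0,z1,z0],z1),([z0,z1,z0,z1,z0,z0],z2)],[([z1,z0,z1,z0,z1,z1],z2)],[([z1,z0,z0,z0,
    z1,z0],z2),([z0,z1,z0,z1,z0,z0],z1),([z0,z0,z3,z0,z0,z0],z2)],[([z1,z0,z0,z0,z1,z0],z2),([z0,z3,z0,z0,z0,y3],z2),
    ([z0,z0,z3,z0,z0,z0],z2)],[([z1,z0,z0,z0,z1,z0],z2),([z0,z3,z0,z3,z0,z3],z4)],[([z1,z0,z0,z0,z1,z0],z2),([z0,z1,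
    z0,z1,z0,z0],z1),([z0,z0,z2,z0,z0,z0],z1)],[([z1,z0,z0,z0,z1,z0],z2),([z0,z1,z0,z1,z0,z0],z1)],[([z1,z0,z0,z0,z1,
    z0],z2)],[]]],
    [.old (.leafM k10 [k0,k2,k4,k5] [(z1,[z0,z0,z1]),(z1,[y1,y3,y1,z3]),(z1,[z1])] [(k1,k3,z1,[z0,z1]),(k3,k1,z1,[z0,z1])]),
    .old (.leafM k11 [k4,k5,k0,k2] [(z1,[y3,y3,y1,z3]),(z1,[z0,z0,z1]),(z1,[z1])] [(k1,k3,z1,[z0,z1]),(k3,k1,z1,[z0,z1])]),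
    .old (.lp [(nat_lit 920),(nat_lit 1150),(nat_lit 960),(nat_lit 1380),k184,(nat_lit 920)] [(nat_lit 230),(nat_lit 230),
    k115,k115,(nat_lit 210),(nat_lit 210),k0,k0,(nat_lit 598),(nat_lit 598),(nat_lit 230),(nat_lit 230)] k0 [[],[],[],
    [k0,k0,k0,k0,k0,(nat_lit 230)],[k0,k0,(nat_lit 230)]] (nat_lit 2760) k6
    [[(k8,(nat_lit 552)),(k10,(nat_lit 920))],[(k9,(nat_lit 552)),(k5,(nat_lit 940))],[(k2,(nat_lit 1150)),(k6,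
    (nat_lit 1265))],[(k3,(nat_lit 1150)),(k7,(nat_lit 1495))],[(k4,(nat_lit 730)),(k0,(nat_lit 940))],[(k9,
    (nat_lit 572)),(k5,(nat_lit 730))],[(k6,(nat_lit 1380)),(k2,(nat_lit 1495))],[(k3,(nat_lit 1265)),(k7,
    (nat_lit 1380))],[(k0,(nat_lit 552)),(k4,(nat_lit 572))],[(k1,(nat_lit 552)),(k11,(nat_lit 552))],[(k8,
    (nat_lit 552)),(k10,(nat_lit 920))],[(k1,(nat_lit 920)),(k11,(nat_lit 920))]]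
    [] k0
    [[k1,k0,k0,k0,k1,k0],[k2,k0,k0,k0,k2,k0],[k1,k0,k1,k0,k1,k0],[k1,k0,k0,k0,k1,k1],[k0,k2,k0,k0,k0,k0],[k0,k0,k2,k0,
    k0,k0],[k0,k0,k3,k0,k0,k0],[k0,k0,k0,k0,k0,k2]]
    [.contra [y3,z1,z1],.ref k1 k0 [(z2,[z1]),(z1,[z0,z0,z1]),(z2,[y3,z2])],.contra [z1,y1,y2,z2],.contra [y1,z0,y1,
    z1],.contra [z1],.contra [z1],.ref k0 k0 [(z1,[y1,z1]),(z1,[z0,z0,z1]),(z1,[z1])],.contra [z1]]),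
    .old (.leafM k10 [k1,k2,k3,k5] [(z1,[z0,z0,z1]),(z1,[y3,y1,y1,z3]),(z1,[z0,z1])] [(k4,k0,z1,[z1]),(k0,k4,z1,[z1])]),
    .old (.leafM k11 [k3,k5,k1,k2] [(z1,[y3,y3,y1,z3]),(z1,[z0,z0,z1]),(z1,[z0,z1])] [(k4,k0,z1,[z1]),(k0,k4,z1,[z1])]),
    .old (.lp [(nat_lit 24892),(nat_lit 36322),k0,(nat_lit 20574),(nat_lit 20574),(nat_lit 20574)] [(nat_lit 5715),
    (nat_lit 5715),k0,k0,(nat_lit 18161),(nat_lit 18161),(nat_lit 7874),(nat_lit 7874),(nat_lit 10034),(nat_lit 5714),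
    (nat_lit 7874),(nat_lit 7874)] (nat_lit 254) [[],[k0,k0,k0,k0,k0,k0,k0,(nat_lit 16002)],[k0,k0,k0,k0,
    (nat_lit 15494)],[],[],[k0,k0,k0,(nat_lit 15494)],[(nat_lit 16002)]] (nat_lit 60960) k6
    [[(k8,(nat_lit 20319)),(k10,(nat_lit 22479))],[(k5,(nat_lit 12192)),(k9,(nat_lit 40641))],[(k6,(nat_lit 12192)),
    (k2,(nat_lit 36068))],[(k7,(nat_lit 12700)),(k3,(nat_lit 36068))],[(k0,(nat_lit 12192)),(k4,(nat_lit 15240))],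
    [(k9,(nat_lit 12193)),(k5,(nat_lit 15240))],[(k2,(nat_lit 12700)),(k6,(nat_lit 20320))],[(k3,(nat_lit 12192)),(k7,
    (nat_lit 20320))],[(k4,(nat_lit 12193)),(k0,(nat_lit 40641))],[(k11,(nat_lit 18160)),(k1,(nat_lit 20319))],[(k8,
    (nat_lit 18160)),(k10,(nat_lit 20320))],[(k11,(nat_lit 20320)),(k1,(nat_lit 22479))]]
    [] k0
    [[k1,k0,k1,k0,k1,k0],[k1,k0,k2,k0,k1,k0],[k0,k1,k0,k1,k0,k0],[k0,k2,k0,k2,k0,k0],[k0,k1,k0,k2,k0,k0],[k0,k0,k2,k0,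
    k0,k0],[k0,k0,k3,k0,k0,k0],[k0,k0,k0,k2,k0,k0],[k0,k0,k0,k0,k0,k2]]
    [.contra [z1,y1],.contra [z1,y1],.contra [y1,z0,z1],.contra [y1,z0,z2],.contra [y2,z0,z1,z1],.contra [z1],
    .contra [y1,z0,z0,z1],.contra [z1],.contra [z1]]),
    .old (.lp [(nat_lit 24892),(nat_lit 20574),k0,(nat_lit 36322),(nat_lit 20574),(nat_lit 20574)] [(nat_lit 5715),
    (nat_lit 5715),(nat_lit 7874),(nat_lit 7874),(nat_lit 18161),(nat_lit 18161),k0,k0,(nat_lit 10034),(nat_lit 5714),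
    (nat_lit 7874),(nat_lit 7874)] (nat_lit 254) [[],[k0,k0,k0,k0,k0,k0,k0,(nat_lit 16002)],[k0,k0,k0,k0,
    (nat_lit 15494)],[],[],[k0,k0,k0,(nat_lit 15494)],[(nat_lit 16002)]] (nat_lit 60960) k6
    [[(k8,(nat_lit 20319)),(k10,(nat_lit 22479))],[(k5,(nat_lit 12192)),(k9,(nat_lit 40641))],[(k6,(nat_lit 12192)),
    (k2,(nat_lit 20320))],[(k7,(nat_lit 12700)),(k3,(nat_lit 20320))],[(k0,(nat_lit 12192)),(k4,(nat_lit 15240))],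
    [(k9,(nat_lit 12193)),(k5,(nat_lit 15240))],[(k2,(nat_lit 12700)),(k6,(nat_lit 36068))],[(k3,(nat_lit 12192)),(k7,
    (nat_lit 36068))],[(k4,(nat_lit 12193)),(k0,(nat_lit 40641))],[(k11,(nat_lit 18160)),(k1,(nat_lit 20319))],[(k8,
    (nat_lit 18160)),(k10,(nat_lit 20320))],[(k11,(nat_lit 20320)),(k1,(nat_lit 22479))]]
    [] k0
    [[k1,k0,k1,k0,k1,k0],[k1,k0,k2,k0,k1,k0],[k0,k2,k0,k0,k0,k0],[k0,k2,k0,k1,k0,k0],[k0,k1,k0,k1,k0,k0],[k0,k2,k0,k2,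
    k0,k0],[k0,k0,k2,k0,k0,k0],[k0,k0,k3,k0,k0,k0],[k0,k0,k0,k0,k0,k2]]
    [.contra [z1,y1],.contra [z1,y1],.contra [z1],.ref k5 k0 [(z1,[z0,z1]),(z1,[z1]),(z1,[y3,z0,z2])],.contra [y2,z0,
    z1],.ref k4 k0 [(z1,[z0,z1]),(z2,[z1]),(z2,[y3,z0,z2])],.contra [z1],.ref k3 k0 [(z1,[z0,z1]),(z1,[y1,z0,z1]),(z1,
    [z1])],.contra [z1]]),
    .old (.leafM k2 [k0,k1,k2,k3,k4,k5] [(z1,[z0,z1]),(z1,[z0,z0,z1]),(z1,[y3,y1,y1,z3])] []),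
    .old (.lp [k24,k18,k16,k12,k8,k16] [k0,k0,k3,k3,k4,k4,k6,k6,k8,k8,k4,k4] k0 [] k48 k5
    [[(k8,k16),(k10,k20)],[(k9,k16),(k5,k20)],[(k6,k15),(k2,k18)],[(k7,k15),(k3,k18)],[(k4,k16),(k0,k20)],[(k9,k12),
    (k5,k16)],[(k6,k12),(k2,k15)],[(k7,k12),(k3,k15)],[(k4,k12),(k0,k16)],[(k11,k12),(k1,k16)],[(k8,k12),(k10,k16)],
    [(k11,k16),(k1,k20)]]
    [] k0
    [[k1,k0,k0,k0,k1,k0],[k0,k2,k0,k0,k0,k0],[k0,k1,k0,k1,k0,k0],[k0,k1,k0,k2,k0,k0],[k0,k0,k2,k0,k0,k0],[k0,k0,k0,k2,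
    k0,k0],[k0,k0,k0,k3,k0,k0],[k0,k0,k0,k0,k0,k2]]
    [.contra [y1,z1],.contra [z1],.contra [z1,y2,y1,z2],.ref k7 k0 [(z1,[z0,z1]),(z1,[y3,z0,z2]),(z1,[z3,z0,y1])],
    .contra [z1],.contra [z1],.ref k7 k0 [(z1,[z0,z1]),(z1,[y1,z0,z1]),(z1,[z1])],.contra [z1]]),
    .old (.lp [(nat_lit 22800),(nat_lit 19320),(nat_lit 17480),(nat_lit 18354),(nat_lit 8740),(nat_lit 17480)] [k0,k0,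
    (nat_lit 1740),(nat_lit 1740),(nat_lit 2660),(nat_lit 2660),(nat_lit 2223),(nat_lit 2223),(nat_lit 7030),
    (nat_lit 7030),(nat_lit 2660),(nat_lit 2660)] k0 [[k0,k0,(nat_lit 6992)],[k0,k0,k0,k0,k0,k0,k0,(nat_lit 3496)],[],
    [k0,(nat_lit 6992)],[],[],[(nat_lit 3496)]] (nat_lit 52440) k5
    [[(k8,(nat_lit 15770)),(k10,(nat_lit 20140))],[(k5,(nat_lit 13148)),(k9,(nat_lit 19266))],[(k6,(nat_lit 15341)),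
    (k2,(nat_lit 26312))],[(k7,(nat_lit 18837)),(k3,(nat_lit 26312))],[(k0,(nat_lit 13148)),(k4,(nat_lit 17480))],
    [(k9,(nat_lit 13110)),(k5,(nat_lit 17480))],[(k6,(nat_lit 18354)),(k2,(nat_lit 18837))],[(k3,(nat_lit 15341)),(k7,
    (nat_lit 18354))],[(k4,(nat_lit 13110)),(k0,(nat_lit 19266))],[(k11,(nat_lit 13110)),(k1,(nat_lit 15770))],[(k8,
    (nat_lit 13110)),(k10,(nat_lit 17480))],[(k11,(nat_lit 17480)),(k1,(nat_lit 20140))]]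
    [] k0
    [[k1,k0,k0,k0,k1,k0],[k1,k0,k1,k0,k1,k0],[k0,k1,k0,k1,k0,k0],[k0,k0,k2,k0,k0,k0],[k0,k0,k0,k2,k0,k0],[k0,k0,k0,k0,
    k0,k2]]
    [.ref k6 k0 [(z1,[z1]),(z1,[y3,z1])],.ref k8 k0 [(z1,[z1]),(z1,[y3,z1])],.ref k2 k0 [(z1,[y3,z1]),(z1,[z1])],
    .contra [z1],.contra [z1],.contra [z1]]),
    .old (.leafM k11 [k0,k2,k4,k5] [(z1,[z0,z0,z1]),(z1,[y3,y3,y1,z3]),(z1,[z1])] [(k1,k3,z1,[z0,z1]),(k3,k1,z1,[z0,z1])]),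
    .old (.lp [k64,k98,k140,k80,k36,k60] [k38,k38,k21,k21,k0,k0,k30,k30,k52,k52,k40,k40] k0 [[k0,k0,k0,k0,k0,k0,k2],[],[],
    [k0,k0,k0,k0,k0,k60],[k0,k0,k60],[],[],[k0,k2]] (nat_lit 240) k6
    [[(k8,k50),(k10,k62)],[(k9,k48),(k5,k102)],[(k6,k91),(k2,k98)],[(k3,k98),(k7,k149)],[(k4,k80),(k0,k102)],[(k5,
    k80),(k9,k88)],[(k6,k80),(k2,k149)],[(k7,k80),(k3,k91)],[(k0,k48),(k4,k88)],[(k11,k48),(k1,k50)],[(k8,k48),(k10,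
    k60)],[(k11,k60),(k1,k62)]]
    [] k0
    [[k1,k0,k0,k0,k1,k0],[k2,k0,k0,k0,k2,k0],[k1,k0,k0,k0,k1,k1],[k1,k0,k0,k0,k1,k2],[k0,k2,k0,k0,k0,k0],[k0,k0,k2,k0,
    k0,k0],[k0,k0,k0,k2,k0,k0],[k0,k0,k0,k0,k0,k2],[k0,k0,k0,k0,k0,k3]]
    [.contra [y1,z0,y1,z1],.ref k10 k0 [(z2,[z1]),(z1,[z0,z0,z1]),(z1,[z0,y1,y3,z3])],.contra [z1,y1,y2,z2],
    .ref k9 k0 [(z1,[y3,z1,z0,z3])],.contra [z1],.contra [z1],.contra [y1,z0,z2],.contra [z1],.ref k9 k0 [(z1,[y1,z0,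
    z0,z3])]]),
    .old (.leafM k12 [k0,k2,k4,k5] [(z1,[z0,z0,z1]),(z1,[y2,y2,y1,z2]),(z1,[z1])] [(k1,k3,z1,[z0,z1]),(k3,k1,z1,[z0,z1])]),
    .old (.lp [k48,k70,k24,k40,k24,k30] [k11,k11,k0,k0,k23,k23,k15,k15,k23,k23,k20,k20] k0 [[k0,k0,k0,k0,k0,k0,k10],[],[],
    [],[],[],[],[k0,k10]] k120 k6
    [[(k8,k36),(k10,k39)],[(k9,k26),(k5,k36)],[(k6,k65),(k2,k70)],[(k7,k55),(k3,k70)],[(k4,k24),(k0,k36)],[(k5,k24),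
    (k9,k24)],[(k6,k40),(k2,k55)],[(k7,k40),(k3,k65)],[(k4,k24),(k0,k26)],[(k11,k27),(k1,k36)],[(k8,k27),(k10,k30)],
    [(k11,k30),(k1,k39)]]
    [] k0
    [[k1,k0,k0,k0,k1,k0],[k1,k0,k1,k0,k1,k0],[k1,k0,k0,k0,k1,k1],[k0,k0,k2,k0,k0,k0],[k0,k0,k3,k0,k0,k0],[k0,k0,k4,k0,
    k0,k0],[k0,k0,k0,k2,k0,k0],[k0,k0,k0,k0,k0,k2],[k0,k0,k0,k0,k0,k3]]
    [.contra [y2,z2,z1],.contra [z1,y1],.contra [z1,y1],.contra [z1],.ref k11 k0 [(z1,[y1,z0,y3,z3]),(z1,[z0,z0,z1])],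
    .ref k12 k0 [(z1,[z0,z1]),(z1,[z0,z0,z1]),(z2,[z1])],.contra [y1,z0,z2],.contra [z1],.ref k9 k0 [(z1,[y1,z0,z0,
    z3])]]),
    .old (.lp [(nat_lit 920),(nat_lit 1150),(nat_lit 960),(nat_lit 1380),k184,(nat_lit 920)] [(nat_lit 230),(nat_lit 230),
    k115,k115,(nat_lit 210),(nat_lit 210),k0,k0,(nat_lit 598),(nat_lit 598),(nat_lit 230),(nat_lit 230)] k0 [[],[],[],
    [k0,k0,k0,k0,k0,(nat_lit 230)],[k0,k0,(nat_lit 230)]] (nat_lit 2760) k6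
    [[(k8,(nat_lit 552)),(k10,(nat_lit 920))],[(k9,(nat_lit 552)),(k5,(nat_lit 940))],[(k2,(nat_lit 1150)),(k6,
    (nat_lit 1265))],[(k3,(nat_lit 1150)),(k7,(nat_lit 1495))],[(k4,(nat_lit 730)),(k0,(nat_lit 940))],[(k9,
    (nat_lit 572)),(k5,(nat_lit 730))],[(k6,(nat_lit 1380)),(k2,(nat_lit 1495))],[(k3,(nat_lit 1265)),(k7,
    (nat_lit 1380))],[(k0,(nat_lit 552)),(k4,(nat_lit 572))],[(k1,(nat_lit 552)),(k11,(nat_lit 552))],[(k8,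
    (nat_lit 552)),(k10,(nat_lit 920))],[(k1,(nat_lit 920)),(k11,(nat_lit 920))]]
    [] k0
    [[k1,k0,k0,k0,k1,k0],[k2,k0,k0,k0,k2,k0],[k1,k0,k1,k0,k1,k0],[k1,k0,k0,k0,k1,k1],[k0,k2,k0,k0,k0,k0],[k0,k0,k2,k0,
    k0,k0],[k0,k0,k3,k0,k0,k0],[k0,k0,k0,k0,k0,k2]]
    [.contra [y1,z1],.ref k13 k0 [(z2,[z1]),(z1,[z0,y1,z1])],.contra [y1,z1],.contra [y1,z1],.contra [z1],
    .contra [z1],.ref k11 k0 [(z1,[y1,z3]),(z1,[z0,y1,z1])],.contra [z1]]),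
    .old (.leafM k11 [k1,k2,k3,k5] [(z1,[z0,z0,z1]),(z1,[y3,y3,y1,z3]),(z1,[z0,z1])] [(k4,k0,z1,[z1]),(k0,k4,z1,[z1])]),
    .old (.lp [k183,(nat_lit 286),k0,(nat_lit 242),k135,k122] [k45,k58,k0,k0,k143,k143,k22,k22,k106,k45,k82,k82] k2 [[],
    [k0,k0,k0,k0,k0,k0,k0,k166],[k0,k0,k0,k0,k162],[],[],[k0,k0,k0,k162],[k166]] (nat_lit 480) k6
    [[(k8,k120),(k10,k144)],[(k5,k96),(k9,(nat_lit 360))],[(k6,k96),(k2,(nat_lit 284))],[(k7,k100),(k3,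
    (nat_lit 284))],[(k0,k96),(k4,k160)],[(k9,k96),(k5,k160)],[(k2,k100),(k6,(nat_lit 240))],[(k3,k96),(k7,
    (nat_lit 240))],[(k4,k96),(k0,(nat_lit 360))],[(k11,k96),(k1,k120)],[(k8,k96),(k10,k120)],[(k11,k120),(k1,k144)]]
    [] k0
    [[k1,k0,k1,k0,k1,k0],[k1,k0,k2,k0,k1,k0],[k1,k0,k1,k0,k1,k1],[k0,k1,k0,k1,k0,k0],[k0,k2,k0,k2,k0,k0],[k0,k1,k0,k2,
    k0,k0],[k0,k0,k2,k0,k0,k0],[k0,k0,k0,k0,k0,k2],[k0,k0,k0,k0,k0,k3]]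
    [.contra [y1,z1,z0,z1],.contra [y1,z1,z0,z2],.contra [z3,y3,z1,y1],.contra [y3,y3,z1,y1,z3],.contra [y3,y6,z2,y2,
    z6],.contra [y3,y6,y1,y2,z6],.contra [z1],.contra [z1],.contra [y2,y3,y1,z0,z3]]),
    .old (.lp [k183,(nat_lit 242),k0,(nat_lit 286),k135,k122] [k45,k58,k22,k22,k143,k143,k0,k0,k106,k45,k82,k82] k2 [[],
    [k0,k0,k0,k0,k0,k0,k0,k166],[k0,k0,k0,k0,k162],[],[],[k0,k0,k0,k162],[k166]] (nat_lit 480) k6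
    [[(k8,k120),(k10,k144)],[(k5,k96),(k9,(nat_lit 360))],[(k6,k96),(k2,(nat_lit 240))],[(k7,k100),(k3,
    (nat_lit 240))],[(k0,k96),(k4,k160)],[(k9,k96),(k5,k160)],[(k2,k100),(k6,(nat_lit 284))],[(k3,k96),(k7,
    (nat_lit 284))],[(k4,k96),(k0,(nat_lit 360))],[(k11,k96),(k1,k120)],[(k8,k96),(k10,k120)],[(k11,k120),(k1,k144)]]
    [] k0
    [[k1,k0,k1,k0,k1,k0],[k1,k0,k2,k0,k1,k0],[k1,k0,k1,k0,k1,k1],[k0,k2,k0,k1,k0,k0],[k0,k1,k0,k1,k0,k0],[k0,k2,k0,k2,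
    k0,k0],[k0,k0,k2,k0,k0,k0],[k0,k0,k0,k0,k0,k2],[k0,k0,k0,k0,k0,k3]]
    [.contra [y1,y2,y1,z3],.contra [y1,y5,y2,z6],.contra [z1,y1],.ref k16 k0 [(z1,[z0,z1]),(z1,[z3,z0,y1]),(z1,[z0,y3,
    y1,z3])],.contra [y1,y1,z0,z1],.ref k15 k0 [(z1,[z0,z1]),(z2,[z1]),(z1,[z0,y3,y1,z3])],.contra [z1],.contra [z1],
    .ref k9 k0 [(z1,[y1,z0,z0,z3])]]),
    .old (.leafM k12 [k1,k2,k3,k5] [(z1,[z0,z0,z1]),(z1,[y2,y2,y1,z2]),(z1,[z0,z1])] [(k4,k0,z1,[z1]),(k0,k4,z1,[z1])]),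
    .old (.lp [(nat_lit 384),k56,k120,(nat_lit 206),k96,k96] [k0,k0,k164,k164,k132,k132,k89,k89,k144,k144,k144,
    k144] k0 [[k0,k0,k104],[],[],[k0,k104],[k0,k0,k0,k0,k0,k0,k12],[],[],[k0,k0,k0,k0,k0,k12]] (nat_lit 480) k6
    [[(k8,(nat_lit 240)),(k10,(nat_lit 240))],[(k5,k148),(k9,(nat_lit 240))],[(k6,k131),(k2,k160)],[(k7,k131),(k3,
    k160)],[(k4,k120),(k0,k148)],[(k9,k96),(k5,k120)],[(k2,k131),(k6,(nat_lit 218))],[(k3,k131),(k7,(nat_lit 218))],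
    [(k4,k96),(k0,(nat_lit 240))],[(k11,k96),(k1,(nat_lit 240))],[(k8,k96),(k10,k96)],[(k11,k96),(k1,(nat_lit 240))]]
    [] k0
    [[k0,k2,k0,k0,k0,k0],[k0,k2,k0,k1,k0,k0],[k0,k1,k0,k1,k0,k0],[k0,k0,k2,k0,k0,k0],[k0,k0,k3,k0,k0,k0],[k0,k0,k0,k2,
    k0,k0],[k0,k0,k0,k0,k0,k2],[k0,k0,k0,k0,k0,k3],[k0,k0,k0,k0,k0,k4]]
    [.contra [z1],.contra [z1,z0,y1],.contra [y1,z0,z2],.contra [z1],.ref k17 k0 [(z1,[z0,z1]),(z1,[y1,y3,z0,z3])],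
    .contra [z1],.contra [z1],.ref k9 k0 [(z1,[y1,z0,z0,z3])],.ref k18 k0 [(z1,[z0,z1]),(z1,[z0,z0,z1]),(z2,[y1,y4,y4,
    z4])]]),
    .old (.lp [k96,k138,k0,k138,k78,k68] [k13,k29,k0,k0,k69,k69,k0,k0,k47,k13,k35,k35] k8 [[],[k0,k0,k0,k0,k0,k0,k0,k82],
    [k0,k0,k0,k0,k68],[],[],[k0,k0,k0,k68],[k82]] (nat_lit 240) k6
    [[(k8,k54),(k10,k66)],[(k5,k48),(k9,k186)],[(k6,k48),(k2,k130)],[(k7,k62),(k3,k130)],[(k0,k48),(k4,k60)],[(k9,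
    k48),(k5,k60)],[(k2,k62),(k6,k130)],[(k3,k48),(k7,k130)],[(k4,k48),(k0,k186)],[(k11,k48),(k1,k54)],[(k8,k48),(k10,
    k60)],[(k11,k60),(k1,k66)]]
    [] k0
    [[k1,k0,k1,k0,k1,k0],[k1,k0,k2,k0,k1,k0],[k1,k0,k1,k0,k1,k1],[k0,k1,k0,k1,k0,k0],[k0,k2,k0,k2,k0,k0],[k0,k0,k2,k0,
    k0,k0],[k0,k0,k3,k0,k0,k0],[k0,k0,k0,k0,k0,k2],[k0,k0,k0,k0,k0,k3]]
    [.contra [z1,y1],.contra [z1,y1],.contra [z1,y1],.contra [y1,y1,z1],.ref k19 k0 [(z1,[z0,z1]),(z2,[z1])],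
    .contra [z1],.ref k17 k0 [(z1,[z0,z1]),(z1,[y1,y3,z3])],.contra [z1],.ref k9 k0 [(z1,[y1,z0,z3])]]),
    .old (.lp [k120,k78,k80,k78,k52,k68] [k0,k0,k21,k21,k20,k20,k21,k21,k34,k34,k26,k26] k0 [[k0,k0,k6],[],[],[k0,k6],[k0,
    k0,k0,k0,k0,k0,k6],[],[],[k0,k0,k0,k0,k0,k6]] (nat_lit 240) k5
    [[(k8,k86),(k10,k94)],[(k9,k86),(k5,k94)],[(k6,k78),(k2,k84)],[(k7,k78),(k3,k84)],[(k4,k80),(k0,k94)],[(k9,k60),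
    (k5,k80)],[(k2,k78),(k6,k84)],[(k3,k78),(k7,k84)],[(k4,k60),(k0,k86)],[(k11,k60),(k1,k86)],[(k8,k60),(k10,k68)],
    [(k11,k68),(k1,k94)]]
    [] k0
    [[k1,k0,k0,k0,k1,k0],[k0,k2,k0,k0,k0,k0],[k0,k1,k0,k1,k0,k0],[k0,k0,k2,k0,k0,k0],[k0,k0,k0,k2,k0,k0],[k0,k0,k0,k0,
    k0,k2],[k0,k0,k0,k0,k0,k3]]
    [.ref k20 k0 [(z1,[z1])],.contra [z1],.ref k14 k0 [(z1,[y1,z1])],.contra [z1],.contra [z1],.contra [z1],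
    .ref k9 k0 [(z1,[y1,z3])]])]⟩

/-- classes `0 0 0 0 1 1`, types `N0 N1 N0 N1 C0 C2` -/
noncomputable def cU6_154 : CertX :=
  ⟨[k12,k13,k12,k13,k20,k22],[(false,k0,[k0,k1,k2,k3,k4,k5])],[[[([z1,z0,z1,z0,z1,z1],z2)],[]]],
    [.old (.lp [k64,k150,k80,k80,k52,k44] [k43,k43,k0,k0,k35,k35,k35,k35,k49,k49,k53,k53] k0 [[k0,k0,k0,k0,k0,k0,k10],[],
    [],[],[],[],[],[k0,k10]] (nat_lit 240) k6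
    [[(k10,k54),(k11,k54)],[(k9,k48),(k5,k72)],[(k6,k125),(k2,k150)],[(k7,k115),(k3,k150)],[(k0,k72),(k4,k80)],[(k9,
    k66),(k5,k80)],[(k6,k80),(k2,k115)],[(k7,k80),(k3,k125)],[(k0,k48),(k4,k66)],[(k10,k48),(k11,k48)],[(k8,k48),(k1,
    k54)],[(k8,k48),(k1,k54)]]
    [] k0
    [[k1,k0,k0,k0,k1,k1],[k0,k0,k2,k0,k0,k0],[k0,k0,k0,k2,k0,k0]]
    [.contra [y1,z1],.contra [z1],.contra [y1,y2,z2]]),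
    .old (.lp [k24,k16,k16,k14,k16,k8] [k0,k0,k4,k4,k4,k4,k5,k5,k4,k4,k8,k8] k0 [[k0,k0,k8],[],[],[k0,k8],[k0,k0,k0,k0,k0,
    k0,k4],[],[],[k0,k0,k0,k0,k0,k4]] k48 k5
    [[(k10,k16),(k11,k16)],[(k5,k12),(k9,k20)],[(k6,k15),(k2,k24)],[(k7,k15),(k3,k24)],[(k0,k12),(k4,k16)],[(k9,k12),
    (k5,k16)],[(k2,k15),(k6,k18)],[(k3,k15),(k7,k18)],[(k4,k12),(k0,k20)],[(k10,k12),(k11,k12)],[(k8,k12),(k1,k16)],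
    [(k8,k12),(k1,k16)]]
    [] k0
    [[k0,k1,k0,k1,k0,k0],[k0,k0,k2,k0,k0,k0],[k0,k0,k0,k2,k0,k0]]
    [.ref k0 k0 [(z1,[y1,z1])],.contra [z1],.contra [z1]])]⟩

/-- classes `0 0 0 0 1 1`, types `N0 N1 N0 N1 N0 N1` -/
noncomputable def cU6_155 : CertX :=
  ⟨[k12,k13,k12,k13,k28,k29],[(false,k0,[k0,k1,k2,k3,k4,k5]),(true,k4,[k4,k3,k2,k1,k0,k5])],[[[([z1,z0,z1,z0,z1,z0],
    z2),([z0,z3,z0,z0,z0,z0],z2),([z0,z0,z0,z3,z0,z0],z2)],[([z1,z0,z0,z0,z1,z0],z2),([z0,z3,z0,z0,z0,z0],z2),([z0,z0,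
    z3,z0,z0,z3],z2)],[([z3,z0,z3,z0,z3,z3],z8),([z0,z3,z0,z0,z0,z0],z2)],[([z3,z0,z0,z0,z3,z0],z2),([z0,z1,z0,z1,z0,
    z0],z2),([z0,z0,z3,z0,z0,z0],z2)],[([z1,z0,z0,z0,z1,z0],z1),([z0,z1,z0,z1,z0,z0],z2),([z0,z0,z3,z0,z0,z0],z1)],
    [([z3,z0,z3,z0,z3,z0],z4),([z0,z3,z0,z0,z0,z0],z2),([z0,z0,z0,z3,z0,z0],z4)],[([z1,z0,z0,z0,z1,z0],z1),([z0,z1,z0,
    z1,z0,z0],z2),([z0,z0,z2,z0,z0,z0],z1)],[([z1,z0,z0,z0,z1,z0],z1),([z0,z1,z0,z1,z0,z0],z2),([z0,z0,z3,z0,z0,z0],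
    z2)],[([z1,z0,z0,z0,z1,z0],z1),([z0,z3,z0,z0,z0,z0],z2),([z0,z0,z1,z0,z0,z1],z1)],[([z1,z0,z1,z0,z1,z1],z2),([z0,
    z3,z0,z0,z0,z0],z2)],[([z1,z0,z0,z0,z1,z0],z2),([z0,z1,z0,z1,z0,z0],z1),([z0,z0,z3,z0,z0,z0],z1)],[([z1,z0,z0,z0,
    z1,z0],z2),([z0,z3,z0,z0,z0,z0],z2),([z0,z0,z3,z3,z0,z0],z2)]],[[([z1,z0,z0,z0,z1,z0],z2),([z0,z1,z0,z1,z0,z0],
    z1),([z0,z0,z2,z0,z0,z0],z1)],[([z1,z0,z0,z0,z1,z0],z2),([z0,z1,z0,z1,z0,z0],z1),([z0,z0,z3,z0,z0,z0],z2)],[([z1,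
    z0,z0,z0,z1,z0],z2),([z0,z3,z0,z0,z0,z0],z1),([z0,z0,z1,z0,z0,z1],z1)],[([z1,z0,z0,z0,z1,z0],z2),([z0,z3,z0,z0,z0,
    z0],z2)],[([z3,z0,z3,z3,z3,z3],z10)],[([z3,z0,z3,z0,z3,z0],z4),([z0,z1,z0,z1,z0,z0],z2)],[([z1,z0,z0,z0,z1,z0],
    z1),([z0,z1,z0,z1,z0,z0],z2)],[([z1,z0,z1,z0,z1,z1],z2)],[([z1,z0,z0,z0,z1,z0],z2),([z0,z3,z0,z3,z0,z0],z2),([z0,
    z0,z3,z0,z0,z0],z2)],[([z1,z0,z0,z0,z1,z0],z2),([z0,z2,z0,z1,z0,z0],z2),([z0,z0,z6,z3,z0,z0],z2)],[([z1,z0,z0,z0,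
    z1,z0],z2),([z0,z3,z3,z3,z0,z0],z4)],[([z1,z0,z0,z0,z1,z0],z2),([z0,z3,z0,z0,z0,y3],z2),([z0,z0,z3,z0,z0,z0],
    z2)]],[[([z1,z0,z0,z0,z1,z0],z2),([z0,z3,z0,z3,z0,z3],z4)],[([z1,z0,z0,z0,z1,z0],z2),([z0,z1,z0,z1,z0,z0],z1)],
    [([z1,z0,z0,z0,z1,z0],z2)],[]]],
    [.old (.leafM k2 [k0,k1,k2,k3,k4,k5] [(z1,[z0,z1]),(z1,[z0,z0,z1]),(z1,[y3,y1,y1,z3])] []),
    .old (.lp [k112,k138,k0,k138,k62,k68] [k13,k13,k0,k0,k69,k69,k0,k0,k63,k13,k35,k35] k8 [[],[k0,k0,k0,k0,k0,k0,k0,k82],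
    [k0,k0,k0,k0,k68],[],[],[k0,k0,k0,k68],[k82]] (nat_lit 240) k6
    [[(k8,k54)],[(k5,k48),(k9,k186)],[(k6,k48),(k2,k130)],[(k7,k62),(k3,k130)],[(k0,k48),(k4,k60)],[(k9,k48),(k5,
    k60)],[(k2,k62),(k6,k130)],[(k3,k48),(k7,k130)],[(k4,k48),(k0,k186)],[(k1,k54)],[(k10,k60)],[(k11,k60)]]
    [] k0
    [[k1,k0,k1,k0,k1,k0],[k1,k0,k2,k0,k1,k0],[k0,k1,k0,k1,k0,k0],[k0,k2,k0,k2,k0,k0],[k0,k0,k2,k0,k0,k0],[k0,k0,k3,k0,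
    k0,k0],[k0,k0,k0,k0,k0,k2],[k0,k0,k0,k0,k0,k3]]
    [.contra [z1,y1],.contra [z1,y1],.contra [z3,z3,z2,z1,y3],.contra [y3,y6,z2,y2,z6],.contra [z1],.contra [y1,z0,z0,
    z1],.contra [z1],.contra [y1,z0,z0,z1]]),
    .old (.lp [k12,k8,k12,k8,k0,k6] [k0,k0,k2,k2,k0,k0,k2,k2,k6,k6,k3,k3] k0 [] k24 k5
    [[(k8,k6)],[(k9,k6),(k5,k12)],[(k2,k8),(k6,k8)],[(k3,k8),(k7,k8)],[(k0,k12),(k4,k12)],[(k9,k6),(k5,k12)],[(k2,k8),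
    (k6,k8)],[(k3,k8),(k7,k8)],[(k0,k6),(k4,k6)],[(k1,k6)],[(k10,k6)],[(k11,k6)]]
    [] k0
    [[k1,k0,k0,k0,k1,k0],[k0,k2,k0,k0,k0,k0],[k0,k1,k0,k1,k0,k0],[k0,k0,k0,k2,k0,k0],[k0,k0,k0,k0,k0,k2],[k0,k0,k0,k0,
    k0,k3]]
    [.ref k1 k0 [(z1,[z1]),(z1,[z0,z0,z1]),(z1,[y3,z1])],.contra [z1],.contra [z3,z1,z2,y3],.contra [z3,z2,z4,y6],
    .contra [z1],.ref k0 k0 [(z3,[y1,z1]),(z1,[z0,z0,z1]),(z1,[z0,y1,y1,z3])]]),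
    .old (.leafM k10 [k0,k2,k4,k5] [(z1,[z0,z0,z1]),(z1,[y1,y3,y1,z3]),(z1,[z1])] [(k1,k3,z1,[z0,z1]),(k3,k1,z1,[z0,z1])]),
    .old (.leafM k11 [k4,k5,k0,k2] [(z1,[y3,y3,y1,z3]),(z1,[z0,z0,z1]),(z1,[z1])] [(k1,k3,z1,[z0,z1]),(k3,k1,z1,[z0,z1])]),
    .old (.lp [k100,k98,k140,k60,k0,k80] [k20,k20,k21,k21,k0,k0,k40,k40,k70,k70,k30,k30] k0 [[k0,k0,k0,k0,k0,k0,k2],[],[],
    [k0,k0,k0,k0,k0,k80],[k0,k0,k80],[],[],[k0,k2]] (nat_lit 240) k6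
    [[(k8,k50)],[(k9,k48),(k5,k120)],[(k6,k81),(k2,k98)],[(k3,k98),(k7,k159)],[(k4,k60),(k0,k120)],[(k5,k60),(k9,
    k70)],[(k6,k60),(k2,k159)],[(k7,k60),(k3,k81)],[(k0,k48),(k4,k70)],[(k1,k50)],[(k10,k80)],[(k11,k80)]]
    [] k0
    [[k1,k0,k0,k0,k1,k0],[k2,k0,k0,k0,k2,k0],[k0,k2,k0,k0,k0,k0],[k0,k0,k2,k0,k0,k0],[k0,k0,k3,k0,k0,k0],[k0,k0,k0,k2,
    k0,k0],[k0,k0,k0,k3,k0,k0],[k0,k0,k0,k0,k0,k2]]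
    [.contra [y3,z1,z1],.ref k4 k0 [(z2,[z1]),(z3,[z0,z0,z1,z1]),(z2,[y3,z2])],.contra [z1],.contra [z1],
    .ref k3 k0 [(z1,[y1,z1]),(z3,[z0,z0,z1,z1]),(z1,[z1])],.contra [y3,z0,z2,z2],.contra [y1,z0,z2,z1],.contra [z3,z2,
    z4,z2,y6]]),
    .old (.leafM k12 [k0,k2,k4,k5] [(z1,[z0,z0,z1]),(z1,[y2,y2,y1,z2]),(z1,[z1])] [(k1,k3,z1,[z0,z1]),(k3,k1,z1,[z0,z1])]),
    .old (.leafM k11 [k0,k2,k4,k5] [(z1,[z0,z0,z1]),(z1,[y3,y3,y1,z3]),(z1,[z1])] [(k1,k3,z1,[z0,z1]),(k3,k1,z1,[z0,z1])]),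
    .old (.lp [k144,k102,k92,k80,k4,k48] [k0,k0,k21,k21,k26,k26,k32,k32,k70,k70,k48,k48] k0 [[k0,k0,k0,k0,k0,k0,k26],[],
    [],[k0,k0,k0,k0,k0,k32],[k0,k0,k32],[],[],[k0,k26]] (nat_lit 240) k6
    [[(k8,k74)],[(k9,k48),(k5,k118)],[(k2,k102),(k6,k117)],[(k3,k102),(k7,k123)],[(k4,k60),(k0,k118)],[(k9,k48),(k5,
    k60)],[(k6,k80),(k2,k123)],[(k7,k80),(k3,k117)],[(k0,k48),(k4,k48)],[(k1,k74)],[(k10,k48)],[(k11,k48)]]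
    [] k0
    [[k1,k0,k0,k0,k1,k0],[k0,k2,k0,k0,k0,k0],[k0,k0,k2,k0,k0,k0],[k0,k0,k3,k0,k0,k0],[k0,k0,k0,k2,k0,k0],[k0,k0,k0,k0,
    k0,k2],[k0,k0,k0,k0,k0,k3],[k0,k0,k0,k0,k0,k4]]
    [.contra [z1,y1,z1],.contra [z1],.contra [z1],.ref k7 k0 [(z1,[z0,z1]),(z1,[z0,y1,z0,y1,z1]),(z1,[z1])],
    .contra [y1,y2,z0,y2,z2],.contra [z1],.ref k4 k0 [(z1,[z0,z1]),(z1,[z0,y1,z0,y1,z1]),(z1,[y1,z0,z0,z3])],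
    .ref k6 k0 [(z1,[z0,z1]),(z1,[z0,y1,z0,y1,z1]),(z2,[y1,z0,z0,z4])]]),
    .old (.lp [k100,k130,k140,k48,k0,k60] [k20,k20,k5,k5,k0,k0,k46,k46,k70,k70,k40,k40] k0 [[k0,k0,k0,k0,k0,k0,k2],[],[],
    [k0,k0,k0,k0,k0,k60],[k0,k0,k60],[],[],[k0,k2]] (nat_lit 240) k6
    [[(k8,k50)],[(k9,k48),(k5,k120)],[(k6,k91),(k2,k130)],[(k3,k130),(k7,k149)],[(k4,k80),(k0,k120)],[(k9,k70),(k5,
    k80)],[(k6,k48),(k2,k149)],[(k7,k48),(k3,k91)],[(k0,k48),(k4,k70)],[(k1,k50)],[(k10,k60)],[(k11,k60)]]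
    [] k0
    [[k1,k0,k0,k0,k1,k0],[k2,k0,k0,k0,k2,k0],[k0,k0,k2,k0,k0,k0],[k0,k0,k0,k2,k0,k0],[k0,k0,k0,k3,k0,k0],[k0,k0,k0,k4,
    k0,k0],[k0,k0,k0,k0,k0,k2],[k0,k0,k0,k0,k0,k3]]
    [.contra [y1,z1],.ref k8 k0 [(z2,[z1]),(z1,[z0,z0,z1]),(z2,[y1,z2])],.contra [z1],.contra [y1,y2,z0,z2],
    .contra [y1,y3,z1,z3],.contra [y1,y4,z2,z4],.contra [z1],.ref k5 k0 [(z1,[y1,z3]),(z1,[z0,z0,z1]),(z1,[z0,y3,y1,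
    z3])]]),
    .old (.leafM k11 [k3,k5,k1,k2] [(z1,[y3,y3,y1,z3]),(z1,[z0,z0,z1]),(z1,[z0,z1])] [(k4,k0,z1,[z1]),(k0,k4,z1,[z1])]),
    .old (.lp [(nat_lit 408),k54,k120,k142,k72,k160] [k0,k0,k177,k177,k144,k144,k133,k133,k168,k168,k124,k124] k0 [[k0,k0,
    k106],[],[],[k0,k106]] (nat_lit 480) k6
    [[(k8,(nat_lit 240))],[(k5,k158),(k9,(nat_lit 240))],[(k6,k98),(k2,k160)],[(k7,k98),(k3,k160)],[(k4,k120),(k0,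
    k158)],[(k9,k96),(k5,k120)],[(k2,k98),(k6,k142)],[(k3,k98),(k7,k142)],[(k4,k96),(k0,(nat_lit 240))],[(k1,
    (nat_lit 240))],[(k10,k160)],[(k11,k160)]]
    [] k0
    [[k0,k2,k0,k0,k0,k0],[k0,k2,k0,k1,k0,k0],[k0,k1,k0,k1,k0,k0],[k0,k2,k0,k2,k0,k0],[k0,k1,k0,k2,k0,k0],[k0,k0,k2,k0,
    k0,k0],[k0,k0,k3,k0,k0,k0],[k0,k0,k0,k2,k0,k0],[k0,k0,k0,k3,k0,k0],[k0,k0,k0,k0,k0,k2]]
    [.contra [z1],.contra [y3,z0,z2,z1],.contra [y3,z0,z2,z1],.ref k10 k0 [(z1,[z0,z1]),(z2,[z1]),(z2,[y3,z0,z2,z2])],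
    .contra [y3,z0,z1,z2],.contra [z1],.contra [y1,z0,z0,z1],.contra [z1],.contra [y1,z0,z0,z1],.contra [z3,z6,z4,z2,
    y6]]),
    .old (.leafM k12 [k1,k2,k3,k5] [(z1,[z0,z0,z1]),(z1,[y2,y2,y1,z2]),(z1,[z0,z1])] [(k4,k0,z1,[z1]),(k0,k4,z1,[z1])]),
    .old (.leafM k11 [k1,k2,k3,k5] [(z1,[z0,z0,z1]),(z1,[y3,y3,y1,z3]),(z1,[z0,z1])] [(k4,k0,z1,[z1]),(k0,k4,z1,[z1])]),
    .old (.lp [(nat_lit 204),k2,k60,k120,k36,k48] [k0,k0,k101,k101,k72,k72,k42,k42,k84,k84,k78,k78] k0 [[k0,k0,k58],[],[],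
    [k0,k58]] (nat_lit 240) k6
    [[(k8,k120)],[(k5,k74),(k9,k120)],[(k2,k60),(k6,k61)],[(k3,k60),(k7,k61)],[(k4,k60),(k0,k74)],[(k9,k48),(k5,k60)],
    [(k2,k61),(k6,k120)],[(k3,k61),(k7,k120)],[(k4,k48),(k0,k120)],[(k1,k120)],[(k10,k48)],[(k11,k48)]]
    [] k0
    [[k0,k2,k0,k0,k0,k0],[k0,k3,k0,k0,k0,k0],[k0,k2,k0,k1,k0,k0],[k0,k1,k0,k1,k0,k0],[k0,k0,k2,k0,k0,k0],[k0,k0,k3,k0,
    k0,k0],[k0,k0,k0,k0,k0,k2],[k0,k0,k0,k0,k0,k3],[k0,k0,k0,k0,k0,k4]]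
    [.contra [z1],.contra [z2,z0,y1],.contra [z1,z1,z0,z1,y1],.contra [z2,z2,z1,z2,y2],.contra [z1],.ref k13 k0 [(z1,
    [z0,z1]),(z1,[z0,y1,z0,y1,z1]),(z1,[z1])],.contra [z1],.ref k10 k0 [(z1,[z0,z1]),(z1,[z0,y1,z0,y1,z1]),(z1,[y1,z0,
    z0,z3])],.ref k12 k0 [(z1,[z0,z1]),(z1,[z0,y1,z0,y1,z1]),(z2,[y1,z0,z0,z4])]]),
    .old (.lp [(nat_lit 6860),(nat_lit 8470),k0,(nat_lit 10010),(nat_lit 4270),(nat_lit 4270)] [(nat_lit 1575),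
    (nat_lit 1575),(nat_lit 770),(nat_lit 770),(nat_lit 5005),(nat_lit 5005),k0,k0,(nat_lit 4166),(nat_lit 1574),
    (nat_lit 2870),(nat_lit 2870)] k70 [[],[k0,k0,k0,k0,k0,k0,k0,(nat_lit 5810)],[k0,k0,k0,k0,(nat_lit 5670)],[],[],
    [k0,k0,k0,(nat_lit 5670)],[(nat_lit 5810)]] (nat_lit 16800) k6
    [[(k8,(nat_lit 4199))],[(k5,(nat_lit 3360)),(k9,(nat_lit 12601))],[(k6,(nat_lit 3360)),(k2,(nat_lit 8400))],[(k7,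
    (nat_lit 3500)),(k3,(nat_lit 8400))],[(k0,(nat_lit 3360)),(k4,(nat_lit 5600))],[(k9,(nat_lit 3361)),(k5,
    (nat_lit 5600))],[(k2,(nat_lit 3500)),(k6,(nat_lit 9940))],[(k3,(nat_lit 3360)),(k7,(nat_lit 9940))],[(k4,
    (nat_lit 3361)),(k0,(nat_lit 12601))],[(k1,(nat_lit 4199))],[(k10,(nat_lit 4200))],[(k11,(nat_lit 4200))]]
    [] k0
    [[k1,k0,k1,k0,k1,k0],[k1,k0,k2,k0,k1,k0],[k0,k2,k0,k1,k0,k0],[k0,k1,k0,k1,k0,k0],[k0,k2,k0,k2,k0,k0],[k0,k0,k2,k0,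
    k0,k0],[k0,k0,k0,k0,k0,k2],[k0,k0,k0,k0,k0,k3]]
    [.contra [z1,y1],.contra [z1,y1],.ref k2 k0 [(z1,[y3,z0,z1,z3]),(z1,[z0,z0,z1])],.contra [y1,y1,z0,z1],
    .ref k14 k1 [(z1,[z0,z1]),(z2,[z3,z0,y2]),(z2,[y1,y2,z0,z2])],.contra [z1],.contra [z1],.ref k11 k0 [(z1,[z0,z1]),
    (z1,[z0,z0,z1]),(z1,[y1,y3,y1,z3])]]),
    .old (.lp [k24,k16,k16,k14,k8,k16] [k0,k0,k4,k4,k4,k4,k5,k5,k8,k8,k4,k4] k0 [[k0,k0,k0,k0,k0,k0,k4],[],[],[],[],[],[],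
    [k0,k4]] k48 k5
    [[(k8,k16)],[(k9,k12),(k5,k20)],[(k2,k16),(k6,k19)],[(k7,k15),(k3,k16)],[(k4,k16),(k0,k20)],[(k9,k12),(k5,k16)],
    [(k6,k14),(k2,k15)],[(k7,k14),(k3,k19)],[(k0,k12),(k4,k12)],[(k1,k16)],[(k10,k16)],[(k11,k16)]]
    [] k0
    [[k1,k0,k0,k0,k1,k0],[k0,k2,k0,k0,k0,k0],[k0,k1,k0,k1,k0,k0],[k0,k0,k2,k0,k0,k0],[k0,k0,k0,k2,k0,k0],[k0,k0,k0,k3,
    k0,k0],[k0,k0,k0,k0,k0,k2]]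
    [.ref k15 k0 [(z1,[z1]),(z1,[z0,y1,z3])],.contra [z1],.ref k9 k0 [(z1,[y1,z0,z1]),(z1,[z0,y1,z3])],.contra [z1],
    .contra [z1],.ref k2 k0 [(z1,[y1,z1]),(z1,[z0,y1,z3])],.contra [z1]]),
    .old (.lp [k82,k100,k82,k120,k14,k80] [k19,k19,k10,k10,k19,k19,k0,k0,k53,k53,k20,k20] k0 [[],[],[],[k0,k0,k0,k0,k0,
    k20],[k0,k0,k20]] (nat_lit 240) k6
    [[(k8,k48)],[(k9,k48),(k5,k82)],[(k2,k100),(k6,k110)],[(k3,k100),(k7,k130)],[(k4,k62),(k0,k82)],[(k9,k48),(k5,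
    k62)],[(k6,k120),(k2,k130)],[(k3,k110),(k7,k120)],[(k0,k48),(k4,k48)],[(k1,k48)],[(k10,k80)],[(k11,k80)]]
    [] k0
    [[k1,k0,k0,k0,k1,k0],[k2,k0,k0,k0,k2,k0],[k1,k0,k1,k0,k1,k0],[k0,k2,k0,k0,k0,k0],[k0,k0,k2,k0,k0,k0],[k0,k0,k3,k0,
    k0,k0],[k0,k0,k0,k0,k0,k2]]
    [.contra [y3,z1,z1],.ref k4 k0 [(z2,[z1]),(z1,[z0,z0,z1]),(z2,[y3,z2])],.contra [z1,y1,y2,z2],.contra [z1],
    .contra [z1],.ref k3 k0 [(z1,[y1,z1]),(z1,[z0,z0,z1]),(z1,[z1])],.contra [z1]]),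
    .old (.lp [k144,k102,k92,k80,k4,k48] [k0,k0,k21,k21,k26,k26,k32,k32,k70,k70,k48,k48] k0 [[k0,k0,k0,k0,k0,k0,k26],[],
    [],[k0,k0,k0,k0,k0,k32],[k0,k0,k32],[],[],[k0,k26]] (nat_lit 240) k6
    [[(k8,k74)],[(k9,k48),(k5,k118)],[(k2,k102),(k6,k117)],[(k3,k102),(k7,k123)],[(k4,k60),(k0,k118)],[(k9,k48),(k5,
    k60)],[(k6,k80),(k2,k123)],[(k7,k80),(k3,k117)],[(k0,k48),(k4,k48)],[(k1,k74)],[(k10,k48)],[(k11,k48)]]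
    [] k0
    [[k1,k0,k0,k0,k1,k0],[k0,k2,k0,k0,k0,k0],[k0,k0,k2,k0,k0,k0],[k0,k0,k3,k0,k0,k0],[k0,k0,k0,k2,k0,k0],[k0,k0,k0,k0,
    k0,k2],[k0,k0,k0,k0,k0,k3],[k0,k0,k0,k0,k0,k4]]
    [.contra [y2,z2,z1],.contra [z1],.contra [z1],.ref k7 k0 [(z1,[z0,z1]),(z1,[z0,z0,z1]),(z1,[z1])],.contra [y1,z0,
    z2],.contra [z1],.ref k17 k0 [(z1,[y1,z0,y3,z3]),(z1,[z0,z0,z1])],.ref k6 k0 [(z1,[z0,z1]),(z1,[z0,z0,z1]),(z2,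
    [y1,y4,y4,z4])]]),
    .old (.lp [k100,k98,k140,k80,k0,k60] [k20,k20,k21,k21,k0,k0,k30,k30,k70,k70,k40,k40] k0 [[k0,k0,k0,k0,k0,k0,k2],[],[],
    [k0,k0,k0,k0,k0,k60],[k0,k0,k60],[],[],[k0,k2]] (nat_lit 240) k6
    [[(k8,k50)],[(k9,k48),(k5,k120)],[(k6,k91),(k2,k98)],[(k3,k98),(k7,k149)],[(k4,k80),(k0,k120)],[(k9,k70),(k5,
    k80)],[(k6,k80),(k2,k149)],[(k7,k80),(k3,k91)],[(k0,k48),(k4,k70)],[(k1,k50)],[(k10,k60)],[(k11,k60)]]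
    [] k0
    [[k1,k0,k0,k0,k1,k0],[k2,k0,k0,k0,k2,k0],[k0,k2,k0,k0,k0,k0],[k0,k0,k2,k0,k0,k0],[k0,k0,k0,k2,k0,k0],[k0,k0,k0,k0,
    k0,k2],[k0,k0,k0,k0,k0,k3]]
    [.contra [y1,z1],.ref k18 k0 [(z2,[z1]),(z1,[z0,y1,z1])],.contra [z1],.contra [z1],.contra [y1,y2,z2],
    .contra [z1],.ref k17 k0 [(z1,[y1,z3]),(z1,[z0,y1,z1])]]),
    .old (.leafM k10 [k1,k2,k3,k5] [(z1,[z0,z0,z1]),(z1,[y3,y1,y1,z3]),(z1,[z0,z1])] [(k4,k0,z1,[z1]),(k0,k4,z1,[z1])]),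
    .old (.lp [(nat_lit 24892),(nat_lit 36322),k0,(nat_lit 20574),(nat_lit 20574),(nat_lit 20574)] [(nat_lit 5715),
    (nat_lit 5715),k0,k0,(nat_lit 18161),(nat_lit 18161),(nat_lit 7874),(nat_lit 7874),(nat_lit 10034),(nat_lit 5714),
    (nat_lit 7874),(nat_lit 7874)] (nat_lit 254) [[],[k0,k0,k0,k0,k0,k0,k0,(nat_lit 16002)],[k0,k0,k0,k0,
    (nat_lit 15494)],[],[],[k0,k0,k0,(nat_lit 15494)],[(nat_lit 16002)]] (nat_lit 60960) k6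
    [[(k8,(nat_lit 20319))],[(k5,(nat_lit 12192)),(k9,(nat_lit 40641))],[(k6,(nat_lit 12192)),(k2,(nat_lit 36068))],
    [(k7,(nat_lit 12700)),(k3,(nat_lit 36068))],[(k0,(nat_lit 12192)),(k4,(nat_lit 15240))],[(k9,(nat_lit 12193)),(k5,
    (nat_lit 15240))],[(k2,(nat_lit 12700)),(k6,(nat_lit 20320))],[(k3,(nat_lit 12192)),(k7,(nat_lit 20320))],[(k4,
    (nat_lit 12193)),(k0,(nat_lit 40641))],[(k1,(nat_lit 20319))],[(k10,(nat_lit 20320))],[(k11,(nat_lit 20320))]]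
    [] k0
    [[k1,k0,k1,k0,k1,k0],[k1,k0,k2,k0,k1,k0],[k0,k1,k0,k1,k0,k0],[k0,k2,k0,k2,k0,k0],[k0,k1,k0,k2,k0,k0],[k0,k0,k2,k0,
    k0,k0],[k0,k0,k3,k0,k0,k0],[k0,k0,k0,k2,k0,k0],[k0,k0,k0,k0,k0,k2]]
    [.contra [z1,y1],.contra [z1,y1],.contra [y1,z0,z1],.contra [y1,z0,z2],.contra [y2,z0,z1,z1],.contra [z1],
    .contra [y1,z0,z0,z1],.contra [z1],.contra [z1]]),
    .old (.lp [(nat_lit 24892),(nat_lit 20574),k0,(nat_lit 36322),(nat_lit 20574),(nat_lit 20574)] [(nat_lit 5715),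
    (nat_lit 5715),(nat_lit 7874),(nat_lit 7874),(nat_lit 18161),(nat_lit 18161),k0,k0,(nat_lit 10034),(nat_lit 5714),
    (nat_lit 7874),(nat_lit 7874)] (nat_lit 254) [[],[k0,k0,k0,k0,k0,k0,k0,(nat_lit 16002)],[k0,k0,k0,k0,
    (nat_lit 15494)],[],[],[k0,k0,k0,(nat_lit 15494)],[(nat_lit 16002)]] (nat_lit 60960) k6
    [[(k8,(nat_lit 20319))],[(k5,(nat_lit 12192)),(k9,(nat_lit 40641))],[(k6,(nat_lit 12192)),(k2,(nat_lit 20320))],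
    [(k7,(nat_lit 12700)),(k3,(nat_lit 20320))],[(k0,(nat_lit 12192)),(k4,(nat_lit 15240))],[(k9,(nat_lit 12193)),(k5,
    (nat_lit 15240))],[(k2,(nat_lit 12700)),(k6,(nat_lit 36068))],[(k3,(nat_lit 12192)),(k7,(nat_lit 36068))],[(k4,
    (nat_lit 12193)),(k0,(nat_lit 40641))],[(k1,(nat_lit 20319))],[(k10,(nat_lit 20320))],[(k11,(nat_lit 20320))]]
    [] k0
    [[k1,k0,k1,k0,k1,k0],[k1,k0,k2,k0,k1,k0],[k0,k2,k0,k0,k0,k0],[k0,k2,k0,k1,k0,k0],[k0,k1,k0,k1,k0,k0],[k0,k2,k0,k2,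
    k0,k0],[k0,k0,k2,k0,k0,k0],[k0,k0,k3,k0,k0,k0],[k0,k0,k0,k0,k0,k2]]
    [.contra [z1,y1],.contra [z1,y1],.contra [z1],.ref k21 k0 [(z1,[z0,z1]),(z1,[z1]),(z1,[y3,z0,z2])],.contra [y2,z0,
    z1],.ref k10 k0 [(z1,[z0,z1]),(z2,[z1]),(z2,[y3,z0,z2])],.contra [z1],.ref k20 k0 [(z1,[z0,z1]),(z1,[y1,z0,z1]),
    (z1,[z1])],.contra [z1]]),
    .old (.lp [(nat_lit 6342960),(nat_lit 9283534),k0,(nat_lit 7845240),(nat_lit 3922620),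
    (nat_lit 3922620)] [(nat_lit 1470287),(nat_lit 1470287),k0,k0,(nat_lit 4641767),(nat_lit 4641767),
    (nat_lit 719147),(nat_lit 719147),(nat_lit 3887417),(nat_lit 1473497),(nat_lit 2680457),(nat_lit 2680457)] k0 [[],
    [k0,k0,k0,k0,k0,k0,k0,(nat_lit 5425680)],[k0,k0,k0,k0,(nat_lit 5295537)],[],[],[k0,k0,k0,(nat_lit 5295537)],
    [(nat_lit 5425680)]] (nat_lit 15690480) k6
    [[(k8,(nat_lit 3925830))],[(k5,(nat_lit 3171480)),(k9,(nat_lit 11765430))],[(k6,(nat_lit 3138707)),(k2,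
    (nat_lit 9283534))],[(k7,(nat_lit 3268850)),(k3,(nat_lit 9283534))],[(k0,(nat_lit 3171480)),(k4,
    (nat_lit 5295537))],[(k9,(nat_lit 3168270)),(k5,(nat_lit 5295537))],[(k2,(nat_lit 3268850)),(k6,
    (nat_lit 7845240))],[(k3,(nat_lit 3138707)),(k7,(nat_lit 7845240))],[(k4,(nat_lit 3168270)),(k0,
    (nat_lit 11765430))],[(k1,(nat_lit 3925830))],[(k10,(nat_lit 3922620))],[(k11,(nat_lit 3922620))]]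
    [] k0
    [[k1,k0,k1,k0,k1,k0],[k1,k0,k2,k0,k1,k0],[k0,k1,k0,k1,k0,k0],[k0,k2,k0,k2,k0,k0],[k0,k1,k0,k2,k0,k0],[k0,k0,k2,k0,
    k0,k0],[k0,k0,k0,k0,k0,k2],[k0,k0,k0,k0,k0,k3]]
    [.contra [y1,z1,z0,z1],.contra [y1,z1,z0,z2],.contra [y3,y3,z1,y1,z3],.contra [y3,y6,z2,y2,z6],.contra [y3,y6,y1,
    y2,z6],.contra [z1],.contra [z1],.contra [y2,y3,y1,z0,z3]]),
    .old (.lp [(nat_lit 6342960),(nat_lit 7845240),k0,(nat_lit 9283534),(nat_lit 3922620),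
    (nat_lit 3922620)] [(nat_lit 1470287),(nat_lit 1470287),(nat_lit 719147),(nat_lit 719147),(nat_lit 4641767),
    (nat_lit 4641767),k0,k0,(nat_lit 3887417),(nat_lit 1473497),(nat_lit 2680457),(nat_lit 2680457)] k0 [[],[k0,k0,k0,
    k0,k0,k0,k0,(nat_lit 5425680)],[k0,k0,k0,k0,(nat_lit 5295537)],[],[],[k0,k0,k0,(nat_lit 5295537)],
    [(nat_lit 5425680)]] (nat_lit 15690480) k6
    [[(k8,(nat_lit 3925830))],[(k5,(nat_lit 3171480)),(k9,(nat_lit 11765430))],[(k6,(nat_lit 3138707)),(k2,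
    (nat_lit 7845240))],[(k7,(nat_lit 3268850)),(k3,(nat_lit 7845240))],[(k0,(nat_lit 3171480)),(k4,
    (nat_lit 5295537))],[(k9,(nat_lit 3168270)),(k5,(nat_lit 5295537))],[(k2,(nat_lit 3268850)),(k6,
    (nat_lit 9283534))],[(k3,(nat_lit 3138707)),(k7,(nat_lit 9283534))],[(k4,(nat_lit 3168270)),(k0,
    (nat_lit 11765430))],[(k1,(nat_lit 3925830))],[(k10,(nat_lit 3922620))],[(k11,(nat_lit 3922620))]]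
    [] k0
    [[k1,k0,k1,k0,k1,k0],[k1,k0,k2,k0,k1,k0],[k0,k2,k0,k1,k0,k0],[k0,k1,k0,k1,k0,k0],[k0,k2,k0,k2,k0,k0],[k0,k0,k2,k0,
    k0,k0],[k0,k0,k0,k0,k0,k2],[k0,k0,k0,k0,k0,k3]]
    [.contra [y1,y2,y1,z3],.contra [y1,y5,y2,z6],.ref k23 k0 [(z1,[z0,z1]),(z1,[z3,z0,y1]),(z1,[z0,y3,y1,z3])],
    .contra [y1,y1,z0,z1],.ref k13 k0 [(z1,[z0,z1]),(z2,[z1]),(z1,[z0,y3,y1,z3])],.contra [z1],.contra [z1],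
    .ref k22 k0 [(z1,[z0,z1]),(z1,[y1,y3,z0,z3])]]),
    .old (.lp [(nat_lit 2244),(nat_lit 242),(nat_lit 660),(nat_lit 1200),(nat_lit 396),(nat_lit 528)] [k0,k0,
    (nat_lit 1001),(nat_lit 1001),(nat_lit 792),(nat_lit 792),(nat_lit 522),(nat_lit 522),(nat_lit 924),(nat_lit 924),
    (nat_lit 858),(nat_lit 858)] k0 [[k0,k0,(nat_lit 638)],[],[],[k0,(nat_lit 638)]] (nat_lit 2640) k6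
    [[(k8,(nat_lit 1320))],[(k5,(nat_lit 814)),(k9,(nat_lit 1320))],[(k6,(nat_lit 721)),(k2,(nat_lit 880))],[(k7,
    (nat_lit 721)),(k3,(nat_lit 880))],[(k4,(nat_lit 660)),(k0,(nat_lit 814))],[(k9,(nat_lit 528)),(k5,
    (nat_lit 660))],[(k2,(nat_lit 721)),(k6,(nat_lit 1200))],[(k3,(nat_lit 721)),(k7,(nat_lit 1200))],[(k4,
    (nat_lit 528)),(k0,(nat_lit 1320))],[(k1,(nat_lit 1320))],[(k10,(nat_lit 528))],[(k11,(nat_lit 528))]]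
    [] k0
    [[k0,k2,k0,k0,k0,k0],[k0,k2,k0,k1,k0,k0],[k0,k1,k0,k1,k0,k0],[k0,k0,k2,k0,k0,k0],[k0,k0,k3,k0,k0,k0],[k0,k0,k0,k2,
    k0,k0],[k0,k0,k0,k0,k0,k2],[k0,k0,k0,k0,k0,k3],[k0,k0,k0,k0,k0,k4]]
    [.contra [z1],.contra [z1,z0,y1],.contra [y1,z0,z2],.contra [z1],.ref k24 k0 [(z1,[z0,z1]),(z1,[y1,y3,z0,z3])],
    .contra [z1],.contra [z1],.ref k22 k0 [(z1,[z0,z1]),(z1,[y1,y3,z0,z3])],.ref k12 k0 [(z1,[z0,z1]),(z1,[z0,z0,z1]),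
    (z2,[y1,y4,y4,z4])]]),
    .old (.lp [k112,k138,k0,k138,k62,k68] [k13,k13,k0,k0,k69,k69,k0,k0,k63,k13,k35,k35] k8 [[],[k0,k0,k0,k0,k0,k0,k0,k82],
    [k0,k0,k0,k0,k68],[],[],[k0,k0,k0,k68],[k82]] (nat_lit 240) k6
    [[(k8,k54)],[(k5,k48),(k9,k186)],[(k6,k48),(k2,k130)],[(k7,k62),(k3,k130)],[(k0,k48),(k4,k60)],[(k9,k48),(k5,
    k60)],[(k2,k62),(k6,k130)],[(k3,k48),(k7,k130)],[(k4,k48),(k0,k186)],[(k1,k54)],[(k10,k60)],[(k11,k60)]]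
    [] k0
    [[k1,k0,k1,k0,k1,k0],[k1,k0,k2,k0,k1,k0],[k0,k1,k0,k1,k0,k0],[k0,k2,k0,k2,k0,k0],[k0,k0,k2,k0,k0,k0],[k0,k0,k3,k0,
    k0,k0],[k0,k0,k0,k0,k0,k2],[k0,k0,k0,k0,k0,k3]]
    [.contra [z1,y1],.contra [z1,y1],.contra [y1,y1,z1],.ref k25 k0 [(z1,[z0,z1]),(z2,[z1])],.contra [z1],
    .ref k24 k0 [(z1,[z0,z1]),(z1,[y1,y3,z3])],.contra [z1],.ref k22 k0 [(z1,[z0,z1]),(z1,[y1,y3,z3])]]),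
    .old (.lp [k24,k16,k16,k14,k8,k16] [k0,k0,k4,k4,k4,k4,k5,k5,k8,k8,k4,k4] k0 [[k0,k0,k0,k0,k0,k0,k4],[],[],[],[],[],[],
    [k0,k4]] k48 k5
    [[(k8,k16)],[(k9,k12),(k5,k20)],[(k2,k16),(k6,k19)],[(k7,k15),(k3,k16)],[(k4,k16),(k0,k20)],[(k9,k12),(k5,k16)],
    [(k6,k14),(k2,k15)],[(k7,k14),(k3,k19)],[(k0,k12),(k4,k12)],[(k1,k16)],[(k10,k16)],[(k11,k16)]]
    [] k0
    [[k1,k0,k0,k0,k1,k0],[k0,k2,k0,k0,k0,k0],[k0,k1,k0,k1,k0,k0],[k0,k0,k2,k0,k0,k0],[k0,k0,k0,k2,k0,k0],[k0,k0,k0,k3,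
    k0,k0],[k0,k0,k0,k0,k0,k2]]
    [.ref k26 k0 [(z1,[z1])],.contra [z1],.ref k19 k0 [(z1,[y1,z1])],.contra [z1],.contra [z1],.ref k16 k1 [(z1,[y1,
    z3])],.contra [z1]])]⟩

/-- classes `0 0 0 0 1 1`, types `N0 N1 N0 N1 N0 N2` -/
noncomputable def cU6_156 : CertX :=
  ⟨[k12,k13,k12,k13,k28,k30],[(false,k0,[k0,k1,k2,k3,k4,k5])],[[[([z1,z0,z1,z0,z1,z1],z2)],[]]],
    [.old (.lp [k64,k150,k80,k80,k52,k44] [k43,k43,k0,k0,k35,k35,k35,k35,k49,k49,k53,k53] k0 [[k0,k0,k0,k0,k0,k0,k10],[],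
    [],[],[],[],[],[k0,k10]] (nat_lit 240) k6
    [[(k11,k54)],[(k9,k48),(k5,k72)],[(k6,k125),(k2,k150)],[(k7,k115),(k3,k150)],[(k0,k72),(k4,k80)],[(k9,k66),(k5,
    k80)],[(k6,k80),(k2,k115)],[(k7,k80),(k3,k125)],[(k0,k48),(k4,k66)],[(k10,k48)],[(k1,k54)],[(k8,k48)]]
    [] k0
    [[k1,k0,k0,k0,k1,k1],[k0,k0,k2,k0,k0,k0],[k0,k0,k0,k2,k0,k0]]
    [.contra [y1,z1],.contra [z1],.contra [y1,y2,z2]]),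
    .old (.lp [k24,k16,k16,k14,k16,k8] [k0,k0,k4,k4,k4,k4,k5,k5,k4,k4,k8,k8] k0 [[k0,k0,k8],[],[],[k0,k8],[k0,k0,k0,k0,k0,
    k0,k4],[],[],[k0,k0,k0,k0,k0,k4]] k48 k5
    [[(k11,k16)],[(k5,k12),(k9,k20)],[(k6,k15),(k2,k24)],[(k7,k15),(k3,k24)],[(k0,k12),(k4,k16)],[(k9,k12),(k5,k16)],
    [(k2,k15),(k6,k18)],[(k3,k15),(k7,k18)],[(k4,k12),(k0,k20)],[(k10,k12)],[(k1,k16)],[(k8,k12)]]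
    [] k0
    [[k0,k1,k0,k1,k0,k0],[k0,k0,k2,k0,k0,k0],[k0,k0,k0,k2,k0,k0]]
    [.ref k0 k0 [(z1,[y1,z1])],.contra [z1],.contra [z1]])]⟩

/-- classes `0 0 0 0 1 1`, types `N0 N1 N0 N1 S0 S0` -/
noncomputable def cU6_157 : CertX :=
  ⟨[k12,k13,k12,k13,k16,k16],[(false,k0,[k0,k1,k2,k3,k4,k5])],[[[([z3,z0,z0,z0,z3,z0],z2),([z0,z1,z0,z1,z0,z0],z2),
    ([z0,z0,z3,z0,z0,z0],z2)],[([z1,z0,z0,z0,z1,z0],z1),([z0,z1,z0,z1,z0,z0],z2),([z0,z0,z3,z0,z0,z0],z2)],[([z3,z0,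
    z0,z0,z3,z3],z4),([z0,z1,z0,z1,z0,z0],z2)],[([z1,z0,z0,z0,z1,z0],z1),([z0,z1,z0,z1,z0,z0],z2),([z0,z0,z3,z0,z0,
    z0],z1)],[([z1,z0,z0,z0,z1,z0],z1),([z0,z1,z0,z1,z0,z0],z2),([z0,z0,z2,z0,z0,z0],z1)],[([z1,z0,z0,z0,z1,z0],z1),
    ([z0,z1,z0,z1,z0,z0],z2)],[([z1,z0,z1,z0,z1,z1],z2)],[([z1,z0,z0,z0,z1,z0],z2),([z0,z3,z0,z3,z0,z0],z2),([z0,z0,
    z3,z0,z0,z0],z2)],[([z1,z0,z0,z0,z1,z0],z2),([z0,z1,z0,z1,z0,z0],z1),([z0,z0,z3,z0,z0,z0],z1)],[([z1,z0,z0,z0,z1,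
    z0],z2),([z0,z2,z0,z1,z0,z0],z2),([z0,z0,z6,z3,z0,z0],z2)],[([z1,z0,z0,z0,z1,z0],z2),([z0,z3,z3,z3,z0,z0],z4)],
    [([z1,z0,z0,z0,z1,z0],z2),([z0,z3,z0,z0,z0,z0],z2),([z0,z0,z3,z0,z0,z3],z2)]],[[([z1,z0,z0,z0,z1,z0],z2),([z0,z2,
    z0,z1,z0,z0],z2)],[([z1,z0,z0,z0,z1,z0],z2),([z0,z1,z0,z1,z0,z0],z1),([z0,z0,z3,z0,z0,z0],z2)],[([z1,z0,z0,z0,z1,
    z0],z2),([z0,z1,z0,z1,z0,z0],z1),([z0,z0,z2,z0,z0,z0],z1)],[([z1,z0,z0,z0,z1,z0],z2),([z0,z1,z0,z1,z0,z0],z1)],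
    [([z1,z0,z0,z0,z1,z0],z2)],[([z1,z0,z1,z0,z1,z0],z2),([z0,z3,z0,z0,z0,z0],z2),([z0,z0,z0,z3,z0,z0],z2)],[([z1,z0,
    z1,z0,z1,z0],z2),([z0,z3,z0,z3,z0,z0],z4)],[([z1,z0,z1,z0,z1,z0],z2)],[]]],
    [.old (.leafM k10 [k0,k2,k4,k5] [(z1,[z0,z0,z1]),(z1,[y1,y3,y1,z3]),(z1,[z1])] [(k1,k3,z1,[z0,z1]),(k3,k1,z1,[z0,z1])]),
    .old (.leafM k8 [k0,k2,k4,k5] [(z1,[z0,z0,z1]),(z1,[y3,y3,y1,z3]),(z1,[z1])] [(k1,k3,z1,[z0,z1]),(k3,k1,z1,[z0,z1])]),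
    .old (.lp [k52,k80,k80,k158,k48,k60] [k53,k53,k39,k39,k39,k39,k0,k0,k55,k55,k49,k49] k0 [[k0,k0,k0,k0,k0,k0,k2],[],[],
    [],[],[],[],[k0,k2]] (nat_lit 240) k6
    [[(k8,k50),(k1,k52),(k10,k56),(k11,k56)],[(k9,k48),(k5,k66)],[(k2,k80),(k6,k121)],[(k3,k80),(k7,k119)],[(k0,k66),
    (k4,k80)],[(k9,k64),(k5,k80)],[(k2,k119),(k6,k158)],[(k3,k121),(k7,k158)],[(k0,k48),(k4,k64)],[(k8,k48),(k1,k50),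
    (k10,k54),(k11,k54)],[(k8,k54),(k1,k56),(k10,k60),(k11,k60)],[(k8,k54),(k1,k56),(k10,k60),(k11,k60)]]
    [] k0
    [[k2,k0,k0,k0,k2,k0],[k1,k0,k0,k0,k1,k0],[k1,k0,k1,k0,k1,k0],[k1,k0,k0,k0,k1,k1],[k1,k0,k0,k0,k1,k2],[k0,k2,k0,k0,
    k0,k0],[k0,k0,k2,k0,k0,k0],[k0,k0,k0,k0,k0,k2],[k0,k0,k0,k0,k0,k3]]
    [.ref k1 k0 [(z2,[z1]),(z1,[z0,z0,z1]),(z1,[z0,y1,y3,z3])],.contra [y1,z0,y1,z1],.contra [y1,z0,y1,z1],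
    .contra [z1,y1,y2,z2],.ref k0 k0 [(z1,[y3,z2]),(z1,[z0,z0,z1]),(z1,[z0,y1,y3,z3])],.contra [z1],.contra [z1],
    .contra [z1],.ref k0 k0 [(z1,[y1,z1]),(z1,[z0,z0,z1]),(z1,[z0,y1,y3,z3])]]),
    .old (.leafM k11 [k4,k5,k0,k2] [(z1,[y3,y3,y1,z3]),(z1,[z0,z0,z1]),(z1,[z1])] [(k1,k3,z1,[z0,z1]),(k3,k1,z1,[z0,z1])]),
    .old (.leafM k9 [k0,k2,k4,k5] [(z1,[z0,z0,z1]),(z1,[y2,y2,y1,z2]),(z1,[z1])] [(k1,k3,z1,[z0,z1]),(k3,k1,z1,[z0,z1])]),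
    .old (.lp [(nat_lit 1200),(nat_lit 1040),(nat_lit 650),(nat_lit 1820),(nat_lit 624),(nat_lit 780)] [(nat_lit 310),
    (nat_lit 310),(nat_lit 390),(nat_lit 390),(nat_lit 585),(nat_lit 585),k0,k0,(nat_lit 598),(nat_lit 598),
    (nat_lit 520),(nat_lit 520)] k0 [[k0,k0,k0,k0,k0,k0,(nat_lit 260)],[],[],[],[],[],[],[k0,
    (nat_lit 260)]] (nat_lit 3120) k6
    [[(k8,(nat_lit 912)),(k10,(nat_lit 990)),(k11,(nat_lit 990)),(k1,(nat_lit 1200))],[(k9,(nat_lit 652)),(k5,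
    (nat_lit 925))],[(k2,(nat_lit 1040)),(k6,(nat_lit 1690))],[(k3,(nat_lit 1040)),(k7,(nat_lit 1430))],[(k4,
    (nat_lit 650)),(k0,(nat_lit 925))],[(k9,(nat_lit 637)),(k5,(nat_lit 650))],[(k2,(nat_lit 1430)),(k6,
    (nat_lit 1820))],[(k3,(nat_lit 1690)),(k7,(nat_lit 1820))],[(k4,(nat_lit 637)),(k0,(nat_lit 652))],[(k8,
    (nat_lit 624)),(k10,(nat_lit 702)),(k11,(nat_lit 702)),(k1,(nat_lit 912))],[(k8,(nat_lit 702)),(k10,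
    (nat_lit 780)),(k11,(nat_lit 780)),(k1,(nat_lit 990))],[(k8,(nat_lit 702)),(k10,(nat_lit 780)),(k11,
    (nat_lit 780)),(k1,(nat_lit 990))]]
    [] k0
    [[k1,k0,k0,k0,k1,k0],[k1,k0,k1,k0,k1,k0],[k1,k0,k0,k0,k1,k1],[k0,k2,k0,k0,k0,k0],[k0,k0,k2,k0,k0,k0],[k0,k0,k3,k0,
    k0,k0],[k0,k0,k4,k0,k0,k0],[k0,k0,k0,k0,k0,k2],[k0,k0,k0,k0,k0,k3]]
    [.contra [y2,z2,z1],.contra [z1,y1],.contra [z1,y1],.contra [z1],.contra [z1],.ref k2 k0 [(z1,[y1,z0,y3,z3]),(z1,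
    [z0,z0,z1])],.ref k4 k0 [(z1,[z0,z1]),(z1,[z0,z0,z1]),(z2,[z1])],.contra [z1],.ref k3 k0 [(z1,[z0,z1]),(z1,[z0,z0,
    z1]),(z1,[y1,y3,y3,z3])]]),
    .old (.lp [(nat_lit 552),(nat_lit 1380),(nat_lit 960),(nat_lit 1150),(nat_lit 552),(nat_lit 920)] [(nat_lit 414),
    (nat_lit 414),k0,k0,(nat_lit 210),(nat_lit 210),k115,k115,(nat_lit 414),(nat_lit 414),(nat_lit 230),
    (nat_lit 230)] k0 [[],[],[],[k0,k0,k0,k0,k0,(nat_lit 230)],[k0,k0,(nat_lit 230)]] (nat_lit 2760) k6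
    [[(k1,(nat_lit 552)),(k8,(nat_lit 552)),(k10,(nat_lit 736)),(k11,(nat_lit 736))],[(k9,(nat_lit 552)),(k5,
    (nat_lit 756))],[(k6,(nat_lit 1265)),(k2,(nat_lit 1380))],[(k3,(nat_lit 1380)),(k7,(nat_lit 1495))],[(k4,
    (nat_lit 730)),(k0,(nat_lit 756))],[(k5,(nat_lit 730)),(k9,(nat_lit 756))],[(k6,(nat_lit 1150)),(k2,
    (nat_lit 1495))],[(k7,(nat_lit 1150)),(k3,(nat_lit 1265))],[(k0,(nat_lit 552)),(k4,(nat_lit 756))],[(k1,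
    (nat_lit 552)),(k8,(nat_lit 552)),(k10,(nat_lit 736)),(k11,(nat_lit 736))],[(k1,(nat_lit 736)),(k8,(nat_lit 736)),
    (k10,(nat_lit 920)),(k11,(nat_lit 920))],[(k1,(nat_lit 736)),(k8,(nat_lit 736)),(k10,(nat_lit 920)),(k11,
    (nat_lit 920))]]
    [] k0
    [[k2,k0,k0,k0,k2,k0],[k1,k0,k0,k0,k1,k0],[k1,k0,k1,k0,k1,k0],[k1,k0,k0,k0,k1,k1],[k0,k0,k2,k0,k0,k0],[k0,k0,k3,k0,
    k0,k0],[k0,k0,k0,k2,k0,k0],[k0,k0,k0,k0,k0,k2]]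
    [.ref k5 k0 [(z2,[z1]),(z1,[z0,y1,z1])],.contra [y1,z1],.contra [y1,z1],.contra [y1,z1],.contra [z1],
    .ref k2 k0 [(z1,[y1,z3]),(z1,[z0,y1,z1])],.contra [y1,y2,z2],.contra [z1]]),
    .old (.leafM k10 [k1,k2,k3,k5] [(z1,[z0,z0,z1]),(z1,[y3,y1,y1,z3]),(z1,[z0,z1])] [(k4,k0,z1,[z1]),(k0,k4,z1,[z1])]),
    .old (.leafM k11 [k3,k5,k1,k2] [(z1,[y3,y3,y1,z3]),(z1,[z0,z0,z1]),(z1,[z0,z1])] [(k4,k0,z1,[z1]),(k0,k4,z1,[z1])]),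
    .old (.lp [(nat_lit 22460),(nat_lit 33060),k0,(nat_lit 30780),(nat_lit 21546),(nat_lit 21660)] [(nat_lit 2165),
    (nat_lit 8435),k0,k0,(nat_lit 16530),(nat_lit 16530),(nat_lit 1140),(nat_lit 1140),(nat_lit 9348),(nat_lit 2166),
    (nat_lit 5700),(nat_lit 5700)] (nat_lit 3420) [[],[k0,k0,k0,k0,k0,k0,k0,(nat_lit 17556)],[k0,k0,k0,k0,
    (nat_lit 14364)],[],[],[k0,k0,k0,(nat_lit 14364)],[(nat_lit 17556)]] (nat_lit 54720) k6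
    [[(k8,(nat_lit 11857)),(k1,(nat_lit 12770)),(k10,(nat_lit 15505)),(k11,(nat_lit 15505))],[(k5,(nat_lit 10945)),
    (k9,(nat_lit 42865))],[(k6,(nat_lit 10944)),(k2,(nat_lit 29640))],[(k7,(nat_lit 14136)),(k3,(nat_lit 29640))],
    [(k4,(nat_lit 10944)),(k0,(nat_lit 10945))],[(k5,(nat_lit 10944)),(k9,(nat_lit 10944))],[(k2,(nat_lit 14136)),(k6,
    (nat_lit 27360))],[(k3,(nat_lit 10944)),(k7,(nat_lit 27360))],[(k4,(nat_lit 10944)),(k0,(nat_lit 42865))],[(k8,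
    (nat_lit 10944)),(k1,(nat_lit 11857)),(k10,(nat_lit 14592)),(k11,(nat_lit 14592))],[(k8,(nat_lit 14592)),(k1,
    (nat_lit 15505)),(k10,(nat_lit 18240)),(k11,(nat_lit 18240))],[(k8,(nat_lit 14592)),(k1,(nat_lit 15505)),(k10,
    (nat_lit 18240)),(k11,(nat_lit 18240))]]
    [] k0
    [[k1,k0,k1,k0,k1,k0],[k1,k0,k2,k0,k1,k0],[k1,k0,k1,k0,k1,k1],[k0,k1,k0,k1,k0,k0],[k0,k2,k0,k2,k0,k0],[k0,k1,k0,k2,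
    k0,k0],[k0,k0,k2,k0,k0,k0],[k0,k0,k3,k0,k0,k0],[k0,k0,k4,k0,k0,k0],[k0,k0,k0,k0,k0,k2]]
    [.contra [z1,y1],.contra [z1,y1],.contra [z1,z0,z1,z0,y1],.contra [y1,z0,z1],.contra [y1,z0,z2],.contra [y2,z0,z1,
    z1],.contra [z1],.contra [y1,z0,z0,z1],.contra [y1,z0,z0,z1],.contra [z1]]),
    .old (.lp [(nat_lit 24892),(nat_lit 20574),k0,(nat_lit 36322),(nat_lit 20574),(nat_lit 20574)] [(nat_lit 5715),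
    (nat_lit 5715),(nat_lit 7874),(nat_lit 7874),(nat_lit 18161),(nat_lit 18161),k0,k0,(nat_lit 10034),(nat_lit 5714),
    (nat_lit 7874),(nat_lit 7874)] (nat_lit 254) [[],[k0,k0,k0,k0,k0,k0,k0,(nat_lit 16002)],[k0,k0,k0,k0,
    (nat_lit 15494)],[],[],[k0,k0,k0,(nat_lit 15494)],[(nat_lit 16002)]] (nat_lit 60960) k6
    [[(k8,(nat_lit 20319)),(k10,(nat_lit 22479)),(k11,(nat_lit 22479)),(k1,(nat_lit 24638))],[(k5,(nat_lit 12192)),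
    (k9,(nat_lit 40641))],[(k6,(nat_lit 12192)),(k2,(nat_lit 20320))],[(k7,(nat_lit 12700)),(k3,(nat_lit 20320))],
    [(k0,(nat_lit 12192)),(k4,(nat_lit 15240))],[(k9,(nat_lit 12193)),(k5,(nat_lit 15240))],[(k2,(nat_lit 12700)),(k6,
    (nat_lit 36068))],[(k3,(nat_lit 12192)),(k7,(nat_lit 36068))],[(k4,(nat_lit 12193)),(k0,(nat_lit 40641))],[(k8,
    (nat_lit 16000)),(k10,(nat_lit 18160)),(k11,(nat_lit 18160)),(k1,(nat_lit 20319))],[(k8,(nat_lit 18160)),(k10,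
    (nat_lit 20320)),(k11,(nat_lit 20320)),(k1,(nat_lit 22479))],[(k8,(nat_lit 18160)),(k10,(nat_lit 20320)),(k11,
    (nat_lit 20320)),(k1,(nat_lit 22479))]]
    [] k0
    [[k1,k0,k1,k0,k1,k0],[k1,k0,k2,k0,k1,k0],[k0,k2,k0,k0,k0,k0],[k0,k2,k0,k1,k0,k0],[k0,k1,k0,k1,k0,k0],[k0,k2,k0,k2,
    k0,k0],[k0,k0,k2,k0,k0,k0],[k0,k0,k3,k0,k0,k0],[k0,k0,k0,k0,k0,k2]]
    [.contra [z1,y1],.contra [z1,y1],.contra [z1],.ref k9 k0 [(z1,[z0,z1]),(z1,[z1]),(z1,[y3,z0,z2])],.contra [y2,z0,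
    z1],.ref k8 k0 [(z1,[z0,z1]),(z2,[z1]),(z2,[y3,z0,z2])],.contra [z1],.ref k7 k0 [(z1,[z0,z1]),(z1,[y1,z0,z1]),(z1,
    [z1])],.contra [z1]]),
    .old (.lp [(nat_lit 9810),(nat_lit 15042),k0,(nat_lit 15042),(nat_lit 9156),(nat_lit 7412)] [(nat_lit 1416),
    (nat_lit 3816),k0,k0,(nat_lit 7521),(nat_lit 7521),k0,k0,(nat_lit 4469),(nat_lit 1417),(nat_lit 3815),
    (nat_lit 3815)] (nat_lit 872) [[],[k0,k0,k0,k0,k0,k0,k0,(nat_lit 8938)],[k0,k0,k0,k0,(nat_lit 7412)],[],[],[k0,k0,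
    k0,(nat_lit 7412)],[(nat_lit 8938)]] (nat_lit 26160) k6
    [[(k8,(nat_lit 5885)),(k1,(nat_lit 6538)),(k10,(nat_lit 6539)),(k11,(nat_lit 6539))],[(k5,(nat_lit 5233)),(k9,
    (nat_lit 20275))],[(k6,(nat_lit 5232)),(k2,(nat_lit 14170))],[(k7,(nat_lit 6758)),(k3,(nat_lit 14170))],[(k0,
    (nat_lit 5233)),(k4,(nat_lit 6540))],[(k9,(nat_lit 5232)),(k5,(nat_lit 6540))],[(k2,(nat_lit 6758)),(k6,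
    (nat_lit 14170))],[(k3,(nat_lit 5232)),(k7,(nat_lit 14170))],[(k4,(nat_lit 5232)),(k0,(nat_lit 20275))],[(k8,
    (nat_lit 5232)),(k1,(nat_lit 5885)),(k10,(nat_lit 5886)),(k11,(nat_lit 5886))],[(k8,(nat_lit 5886)),(k1,
    (nat_lit 6539)),(k10,(nat_lit 6540)),(k11,(nat_lit 6540))],[(k8,(nat_lit 5886)),(k1,(nat_lit 6539)),(k10,
    (nat_lit 6540)),(k11,(nat_lit 6540))]]
    [] k0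
    [[k1,k0,k1,k0,k1,k0],[k1,k0,k2,k0,k1,k0],[k1,k0,k1,k0,k1,k1],[k0,k1,k0,k1,k0,k0],[k0,k2,k0,k2,k0,k0],[k0,k0,k2,k0,
    k0,k0],[k0,k0,k3,k0,k0,k0],[k0,k0,k0,k0,k0,k2],[k0,k0,k0,k0,k0,k3]]
    [.contra [z1,y1],.contra [z1,y1],.contra [y3,z3,z2,z1],.contra [z3,z3,z2,z1,y3],.contra [y3,y6,z2,y2,z6],
    .contra [z1],.contra [y1,z0,z0,z1],.contra [z1],.contra [y1,z0,z0,z1]]),
    .old (.lp [k171,(nat_lit 286),k0,(nat_lit 242),k147,k122] [k45,k70,k0,k0,k143,k143,k22,k22,k94,k45,k82,k82] k2 [[],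
    [k0,k0,k0,k0,k0,k0,k0,k166],[k0,k0,k0,k0,k162],[],[],[k0,k0,k0,k162],[k166]] (nat_lit 480) k6
    [[(k8,k120),(k10,k132),(k11,k132),(k1,k144)],[(k5,k96),(k9,(nat_lit 360))],[(k6,k96),(k2,(nat_lit 284))],[(k7,
    k100),(k3,(nat_lit 284))],[(k0,k96),(k4,k160)],[(k9,k96),(k5,k160)],[(k2,k100),(k6,(nat_lit 240))],[(k3,k96),(k7,
    (nat_lit 240))],[(k4,k96),(k0,(nat_lit 360))],[(k8,k96),(k10,k108),(k11,k108),(k1,k120)],[(k8,k108),(k10,k120),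
    (k11,k120),(k1,k132)],[(k8,k108),(k10,k120),(k11,k120),(k1,k132)]]
    [] k0
    [[k1,k0,k1,k0,k1,k0],[k1,k0,k2,k0,k1,k0],[k1,k0,k1,k0,k1,k1],[k0,k1,k0,k1,k0,k0],[k0,k2,k0,k2,k0,k0],[k0,k1,k0,k2,
    k0,k0],[k0,k0,k2,k0,k0,k0],[k0,k0,k0,k0,k0,k2],[k0,k0,k0,k0,k0,k3]]
    [.contra [z1,y1],.contra [z1,y1],.contra [z1,z0,z1,y1],.contra [y1,z0,z1],.contra [y1,z0,z2],.ref k11 k0 [(z1,[z0,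
    z1]),(z1,[y1,z0,z2]),(z1,[y1,y3,y1,z3])],.contra [z1],.contra [z1],.ref k10 k0 [(z1,[z0,z1]),(z1,[y1,y3,z0,z3])]]),
    .old (.leafM k11 [k1,k2,k3,k5] [(z1,[z0,z0,z1]),(z1,[y3,y3,y1,z3]),(z1,[z0,z1])] [(k4,k0,z1,[z1]),(k0,k4,z1,[z1])]),
    .old (.leafM k12 [k1,k2,k3,k5] [(z1,[z0,z0,z1]),(z1,[y2,y2,y1,z2]),(z1,[z0,z1])] [(k4,k0,z1,[z1]),(k0,k4,z1,[z1])]),
    .old (.lp [k94,k120,k2,k120,k74,k60] [k13,k13,k0,k0,k59,k59,k0,k0,k33,k13,k30,k30] k0 [[],[k0,k0,k0,k0,k0,k0,k0,k72],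
    [k0,k0,k0,k0,k46],[],[],[k0,k0,k0,k46],[k72]] (nat_lit 240) k6
    [[(k8,k74),(k10,k77),(k11,k77),(k1,k94)],[(k5,k48),(k9,k166)],[(k6,k48),(k2,k120)],[(k7,k74),(k3,k120)],[(k0,k48),
    (k4,k48)],[(k5,k48),(k9,k48)],[(k2,k74),(k6,k120)],[(k3,k48),(k7,k120)],[(k4,k48),(k0,k166)],[(k8,k54),(k10,k57),
    (k11,k57),(k1,k74)],[(k8,k57),(k10,k60),(k11,k60),(k1,k77)],[(k8,k57),(k10,k60),(k11,k60),(k1,k77)]]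
    [] k0
    [[k1,k0,k1,k0,k1,k0],[k1,k0,k2,k0,k1,k0],[k1,k0,k1,k0,k1,k1],[k0,k1,k0,k1,k0,k0],[k0,k0,k2,k0,k0,k0],[k0,k0,k3,k0,
    k0,k0],[k0,k0,k4,k0,k0,k0],[k0,k0,k0,k0,k0,k2],[k0,k0,k0,k0,k0,k3]]
    [.contra [y1,z0,y1,z1],.contra [y1,y1,y2,z2],.contra [z1,z0,z2,y1],.contra [y1,z0,z2],.contra [z1],
    .ref k13 k0 [(z1,[z0,z1]),(z1,[z0,z0,z1]),(z1,[z1])],.ref k14 k0 [(z1,[z0,z1]),(z1,[z0,z0,z1]),(z2,[z1])],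
    .contra [z1],.ref k10 k0 [(z1,[z0,z1]),(z1,[y1,y3,z0,z3])]]),
    .old (.lp [k171,(nat_lit 242),k0,(nat_lit 286),k147,k122] [k45,k70,k22,k22,k143,k143,k0,k0,k94,k45,k82,k82] k2 [[],
    [k0,k0,k0,k0,k0,k0,k0,k166],[k0,k0,k0,k0,k162],[],[],[k0,k0,k0,k162],[k166]] (nat_lit 480) k6
    [[(k8,k120),(k10,k132),(k11,k132),(k1,k144)],[(k5,k96),(k9,(nat_lit 360))],[(k6,k96),(k2,(nat_lit 240))],[(k7,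
    k100),(k3,(nat_lit 240))],[(k0,k96),(k4,k160)],[(k9,k96),(k5,k160)],[(k2,k100),(k6,(nat_lit 284))],[(k3,k96),(k7,
    (nat_lit 284))],[(k4,k96),(k0,(nat_lit 360))],[(k8,k96),(k10,k108),(k11,k108),(k1,k120)],[(k8,k108),(k10,k120),
    (k11,k120),(k1,k132)],[(k8,k108),(k10,k120),(k11,k120),(k1,k132)]]
    [] k0
    [[k1,k0,k1,k0,k1,k0],[k1,k0,k2,k0,k1,k0],[k1,k0,k1,k0,k1,k1],[k0,k2,k0,k1,k0,k0],[k0,k1,k0,k1,k0,k0],[k0,k2,k0,k2,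
    k0,k0],[k0,k0,k2,k0,k0,k0],[k0,k0,k0,k0,k0,k2],[k0,k0,k0,k0,k0,k3]]
    [.contra [z1,y1],.contra [z1,y1],.contra [z1,y1],.ref k12 k0 [(z1,[z0,z1]),(z1,[z1])],.contra [y1,y1,z1],
    .ref k15 k0 [(z1,[z0,z1]),(z2,[z1])],.contra [z1],.contra [z1],.ref k10 k0 [(z1,[z0,z1]),(z1,[y1,y3,z3])]]),
    .old (.leafM k2 [k0,k1,k2,k3,k4,k5] [(z1,[z0,z1]),(z1,[z0,z0,z1]),(z1,[y3,y1,y1,z3])] []),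
    .old (.lp [k20,k12,k16,k18,k12,k16] [k0,k0,k4,k4,k2,k2,k1,k1,k4,k4,k2,k2] k0 [] k48 k5
    [[(k8,k16),(k10,k18),(k11,k18),(k1,k20)],[(k9,k16),(k5,k18)],[(k2,k12),(k6,k15)],[(k3,k12),(k7,k15)],[(k4,k16),
    (k0,k18)],[(k9,k14),(k5,k16)],[(k2,k15),(k6,k18)],[(k3,k15),(k7,k18)],[(k4,k14),(k0,k16)],[(k8,k12),(k10,k14),
    (k11,k14),(k1,k16)],[(k8,k14),(k10,k16),(k11,k16),(k1,k18)],[(k8,k14),(k10,k16),(k11,k16),(k1,k18)]]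
    [] k0
    [[k1,k0,k0,k0,k1,k0],[k0,k2,k0,k0,k0,k0],[k0,k3,k0,k0,k0,k0],[k0,k2,k0,k1,k0,k0],[k0,k1,k0,k1,k0,k0],[k0,k0,k2,k0,
    k0,k0],[k0,k0,k0,k2,k0,k0],[k0,k0,k0,k0,k0,k2]]
    [.contra [y1,z1],.contra [z1],.ref k17 k0 [(z1,[z0,z1]),(z1,[z1]),(z1,[y1,z0,z1])],.ref k17 k0 [(z1,[z0,z1]),(z1,
    [z3,z0,y1]),(z1,[y3,z0,z2])],.contra [z1,y2,y1,z2],.contra [z1],.contra [z1],.contra [z1]]),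
    .old (.lp [(nat_lit 392),(nat_lit 252),(nat_lit 280),(nat_lit 294),(nat_lit 210),(nat_lit 240)] [k0,k0,k70,k70,k56,
    k56,k49,k49,k91,k91,k76,k76] k0 [[k0,k0,k42],[],[],[k0,k42]] (nat_lit 840) k5
    [[(k8,(nat_lit 301)),(k10,(nat_lit 316)),(k11,(nat_lit 316)),(k1,(nat_lit 392))],[(k5,(nat_lit 294)),(k9,
    (nat_lit 301))],[(k6,(nat_lit 273)),(k2,(nat_lit 294))],[(k7,(nat_lit 273)),(k3,(nat_lit 294))],[(k4,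
    (nat_lit 280)),(k0,(nat_lit 294))],[(k9,(nat_lit 245)),(k5,(nat_lit 280))],[(k2,(nat_lit 273)),(k6,
    (nat_lit 294))],[(k3,(nat_lit 273)),(k7,(nat_lit 294))],[(k4,(nat_lit 245)),(k0,(nat_lit 301))],[(k8,
    (nat_lit 210)),(k10,(nat_lit 225)),(k11,(nat_lit 225)),(k1,(nat_lit 301))],[(k8,(nat_lit 225)),(k10,
    (nat_lit 240)),(k11,(nat_lit 240)),(k1,(nat_lit 316))],[(k8,(nat_lit 225)),(k10,(nat_lit 240)),(k11,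
    (nat_lit 240)),(k1,(nat_lit 316))]]
    [] k0
    [[k1,k0,k0,k0,k1,k0],[k0,k2,k0,k0,k0,k0],[k0,k1,k0,k1,k0,k0],[k0,k0,k2,k0,k0,k0],[k0,k0,k0,k2,k0,k0],[k0,k0,k0,k0,
    k0,k2],[k0,k0,k0,k0,k0,k3]]
    [.contra [y1,z1],.contra [z1],.contra [y1,y1,z1],.contra [z1],.contra [z1],.contra [z1],.ref k18 k0 [(z1,[z0,z1]),
    (z1,[y1,y3,z3])]]),
    .old (.lp [(nat_lit 1794),(nat_lit 2208),(nat_lit 2392),(nat_lit 2496),(nat_lit 1794),(nat_lit 3588)] [(nat_lit 897),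
    (nat_lit 897),(nat_lit 690),(nat_lit 690),(nat_lit 598),(nat_lit 598),(nat_lit 546),(nat_lit 546),(nat_lit 897),
    (nat_lit 897),k0,k0] k0 [[k0,k0,(nat_lit 299)],[],[],[k0,(nat_lit 299)]] (nat_lit 7176) k5
    [[(k1,(nat_lit 1794)),(k8,(nat_lit 1794)),(k10,(nat_lit 2691)),(k11,(nat_lit 2691))],[(k5,(nat_lit 1794)),(k9,
    (nat_lit 1794))],[(k6,(nat_lit 2352)),(k2,(nat_lit 2507))],[(k7,(nat_lit 2352)),(k3,(nat_lit 2507))],[(k0,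
    (nat_lit 1794)),(k4,(nat_lit 2392))],[(k9,(nat_lit 2093)),(k5,(nat_lit 2392))],[(k2,(nat_lit 2352)),(k6,
    (nat_lit 2496))],[(k3,(nat_lit 2352)),(k7,(nat_lit 2496))],[(k0,(nat_lit 1794)),(k4,(nat_lit 2093))],[(k1,
    (nat_lit 1794)),(k8,(nat_lit 1794)),(k10,(nat_lit 2691)),(k11,(nat_lit 2691))],[(k1,(nat_lit 2691)),(k8,
    (nat_lit 2691)),(k10,(nat_lit 3588)),(k11,(nat_lit 3588))],[(k1,(nat_lit 2691)),(k8,(nat_lit 2691)),(k10,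
    (nat_lit 3588)),(k11,(nat_lit 3588))]]
    [] k0
    [[k1,k0,k0,k0,k1,k0],[k1,k0,k1,k0,k1,k0],[k0,k2,k0,k0,k0,k0],[k0,k1,k0,k1,k0,k0],[k0,k0,k2,k0,k0,k0],[k0,k0,k0,k2,
    k0,k0]]
    [.ref k16 k0 [(z1,[z1])],.ref k19 k0 [(z1,[z1])],.contra [z1],.ref k6 k0 [(z1,[y1,z1])],.contra [z1],
    .contra [z1]])]⟩

/-- classes `0 0 0 0 1 1`, types `N0 N1 N0 N2 B0 B1` -/
noncomputable def cU6_158 : CertX :=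
  ⟨[k12,k13,k12,k14,k24,k25],[],[[[]]],
    [.old (.lp [k50,k40,k52,k36,k20,k40] [k1,k1,k6,k6,k0,k0,k8,k8,k16,k16,k6,k6] k0 [[k0,k0,k20],[],[k0,k0,k0,k0,k8],[k0,
    k20],[k0,k0,k0,k0,k0,k0,k0,k14],[k0,k0,k0,k8],[k0,k0,k0,k0,k0,k14]] k120 k5
    [[(k8,k35),(k11,k45)],[(k5,k31),(k6,k43)],[(k9,k30),(k2,k60)],[(k7,k30),(k3,k60)],[(k0,k31),(k4,k60)],[(k6,k30),
    (k5,k60)],[(k2,k30),(k9,k42)],[(k4,k30),(k0,k43)],[(k3,k30),(k7,k42)],[(k10,k30),(k1,k35)],[(k10,k40),(k1,k45)],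
    [(k8,k30),(k11,k40)]]
    [] k0
    [[k0,k0,k0,k0,k0,k2]]
    [.contra [z1]])]⟩

/-- classes `0 0 0 0 1 1`, types `N0 N1 N0 N2 C0 C0` -/
noncomputable def cU6_159 : CertX :=
  ⟨[k12,k13,k12,k14,k20,k20],[],[[[]]],
    [.old (.lp [k46,k40,k54,k38,k20,k40] [k4,k4,k7,k7,k0,k0,k8,k8,k17,k17,k7,k7] k0 [[k0,k0,k20],[],[k0,k0,k0,k0,k6],[k0,
    k20],[k0,k0,k0,k0,k0,k0,k0,k16],[k0,k0,k0,k6],[k0,k0,k0,k0,k0,k16]] k120 k5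
    [[(k8,k33),(k10,k43)],[(k5,k30),(k6,k42)],[(k9,k30),(k2,k60)],[(k7,k33),(k3,k60)],[(k0,k30),(k4,k60)],[(k6,k30),
    (k5,k60)],[(k2,k33),(k9,k45)],[(k4,k30),(k0,k42)],[(k3,k30),(k7,k45)],[(k11,k30),(k1,k33)],[(k8,k30),(k10,k40)],
    [(k11,k40),(k1,k43)]]
    [] k0
    [[k0,k0,k0,k0,k0,k2]]
    [.contra [z1]])]⟩

/-- classes `0 0 0 0 1 1`, types `N0 N1 N0 N2 C0 C2` -/
noncomputable def cU6_160 : CertX :=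
  ⟨[k12,k13,k12,k14,k20,k22],[],[[[]]],
    [.old (.lp [k2,k12,k10,k8,k2,k10] [k5,k5,k0,k0,k1,k1,k2,k2,k5,k5,k1,k1] k0 [[],[k0,k0,k0,k0,k0,k0,k1],[k0,k0,k0,k0,k2],
    [],[k0,k0,k0,k0,k0,k0,k0,k1],[k0,k0,k0,k2],[k0,k0,k0,k0,k0,k1],[k1]] k24 k5
    [[(k10,k6),(k11,k6)],[(k5,k6),(k6,k6)],[(k9,k6),(k2,k12)],[(k7,k8),(k3,k12)],[(k0,k6),(k4,k12)],[(k6,k8),(k5,
    k12)],[(k9,k6),(k2,k8)],[(k0,k6),(k4,k8)],[(k3,k6),(k7,k6)],[(k10,k6),(k11,k6)],[(k1,k6),(k8,k6)],[(k1,k6),(k8,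
    k6)]]
    [] k0
    []
    [])]⟩

/-- classes `0 0 0 0 1 1`, types `N0 N1 N0 N2 N0 N1` -/
noncomputable def cU6_161 : CertX :=
  ⟨[k12,k13,k12,k14,k28,k29],[],[[[]]],
    [.old (.lp [k42,k42,k54,k42,k18,k40] [k6,k6,k6,k6,k0,k0,k6,k6,k18,k18,k7,k7] k0 [[k0,k0,k18],[],[k0,k0,k0,k0,k6],[k0,
    k18],[k0,k0,k0,k0,k0,k0,k0,k18],[k0,k0,k0,k6],[k0,k0,k0,k0,k0,k18]] k120 k5
    [[(k8,k30)],[(k5,k30),(k6,k42)],[(k9,k30),(k2,k60)],[(k7,k36),(k3,k60)],[(k0,k30),(k4,k60)],[(k6,k30),(k5,k60)],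
    [(k2,k36),(k9,k48)],[(k4,k30),(k0,k42)],[(k3,k30),(k7,k48)],[(k1,k30)],[(k10,k40)],[(k11,k40)]]
    [] k0
    [[k0,k0,k0,k0,k0,k2]]
    [.contra [z1]])]⟩

/-- classes `0 0 0 0 1 1`, types `N0 N1 N0 N2 N0 N2` -/
noncomputable def cU6_162 : CertX :=
  ⟨[k12,k13,k12,k14,k28,k30],[],[[[]]],
    [.old (.lp [k2,k12,k10,k8,k2,k10] [k5,k5,k0,k0,k1,k1,k2,k2,k5,k5,k1,k1] k0 [[],[k0,k0,k0,k0,k0,k0,k1],[k0,k0,k0,k0,k2],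
    [],[k0,k0,k0,k0,k0,k0,k0,k1],[k0,k0,k0,k2],[k0,k0,k0,k0,k0,k1],[k1]] k24 k5
    [[(k11,k6)],[(k5,k6),(k6,k6)],[(k9,k6),(k2,k12)],[(k7,k8),(k3,k12)],[(k0,k6),(k4,k12)],[(k6,k8),(k5,k12)],[(k9,
    k6),(k2,k8)],[(k0,k6),(k4,k8)],[(k3,k6),(k7,k6)],[(k10,k6)],[(k1,k6)],[(k8,k6)]]
    [] k0
    []
    [])]⟩

/-- classes `0 0 0 0 1 1`, types `N0 N1 N0 N2 S0 S0` -/
noncomputable def cU6_163 : CertX :=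
  ⟨[k12,k13,k12,k14,k16,k16],[],[[[]]],
    [.old (.lp [k42,k42,k54,k30,k30,k40] [k6,k6,k6,k6,k0,k0,k12,k12,k12,k12,k7,k7] k0 [[k0,k0,k18],[k0,k0,k0,k0,k0,k0,k6],
    [k0,k0,k0,k0,k6],[k0,k18],[k0,k0,k0,k0,k0,k0,k0,k12],[k0,k0,k0,k6],[k0,k0,k0,k0,k0,k12],[k6]] k120 k5
    [[(k8,k36),(k10,k41),(k11,k41),(k1,k42)],[(k5,k30),(k6,k42)],[(k9,k30),(k2,k60)],[(k7,k30),(k3,k60)],[(k0,k30),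
    (k4,k60)],[(k6,k30),(k5,k60)],[(k2,k30),(k9,k42)],[(k4,k30),(k0,k42)],[(k3,k30),(k7,k42)],[(k8,k30),(k10,k35),
    (k11,k35),(k1,k36)],[(k8,k35),(k10,k40),(k11,k40),(k1,k41)],[(k8,k35),(k10,k40),(k11,k40),(k1,k41)]]
    [] k0
    [[k0,k0,k0,k0,k0,k2]]
    [.contra [z1]])]⟩

/-- classes `0 0 0 0 1 1`, types `N0 N1 N1 N0 B0 B1` -/
noncomputable def cU6_164 : CertX :=
  ⟨[k12,k13,k13,k12,k24,k25],[(false,k0,[k0,k1,k2,k3,k4,k5])],[[[([z1,z0,z1,z0,z1,z0],z2),([z0,z3,z0,z0,z0,z0],z2),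
    ([z0,z0,z0,z3,z0,z0],z2)],[([z1,z0,z1,z0,z1,z0],z2),([z0,z3,z0,z3,z0,z0],z4)],[([z3,z3,z3,z3,z3,z0],z10)],[]]],
    [.old (.leafM k2 [k0,k1,k2,k3,k4,k5] [(z1,[z0,z1]),(z1,[z0,z0,z1]),(z1,[y3,y1,y1,z3])] []),
    .old (.lp [k12,k8,k6,k6,k6,k8] [k0,k0,k2,k2,k3,k3,k3,k3,k3,k3,k2,k2] k0 [] k24 k5
    [[(k8,k9),(k11,k10)],[(k5,k9),(k7,k9)],[(k4,k7),(k2,k8)],[(k9,k7),(k3,k8)],[(k6,k6),(k0,k9)],[(k9,k6),(k3,k7)],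
    [(k6,k6),(k0,k9)],[(k5,k6),(k7,k6)],[(k4,k6),(k2,k7)],[(k10,k7),(k1,k9)],[(k10,k8),(k1,k10)],[(k8,k7),(k11,k8)]]
    [] k0
    [[k0,k2,k0,k0,k0,k0],[k0,k0,k0,k2,k0,k0],[k0,k0,k0,k3,k0,k0],[k0,k0,k0,k0,k0,k2]]
    [.contra [z1],.contra [z1],.ref k0 k0 [(z1,[z0,z1]),(z1,[y1,z0,z1]),(z1,[z1])],.contra [z1]]),
    .old (.lp [k6,k8,k6,k12,k6,k8] [k3,k3,k2,k2,k3,k3,k0,k0,k3,k3,k2,k2] k0 [] k24 k5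
    [[(k8,k6),(k11,k7)],[(k5,k6),(k7,k9)],[(k4,k7),(k2,k8)],[(k9,k7),(k3,k8)],[(k0,k6),(k6,k9)],[(k9,k6),(k3,k7)],
    [(k0,k9),(k6,k12)],[(k5,k9),(k7,k12)],[(k4,k6),(k2,k7)],[(k1,k6),(k10,k7)],[(k1,k7),(k10,k8)],[(k8,k7),(k11,k8)]]
    [] k0
    [[k1,k0,k1,k0,k1,k0],[k0,k2,k0,k0,k0,k0],[k0,k0,k0,k0,k0,k2]]
    [.ref k1 k0 [(z1,[z1]),(z1,[y3,z1])],.contra [z1],.contra [z1]]),
    .old (.lp [k12,k8,k4,k8,k8,k6] [k0,k0,k2,k2,k4,k4,k2,k2,k2,k2,k3,k3] k0 [] k24 k5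
    [[(k11,k9),(k8,k10)],[(k5,k8),(k7,k10)],[(k4,k6),(k2,k8)],[(k3,k8),(k9,k8)],[(k6,k6),(k0,k8)],[(k3,k6),(k9,k6)],
    [(k6,k8),(k0,k10)],[(k5,k6),(k7,k8)],[(k4,k6),(k2,k8)],[(k10,k7),(k1,k10)],[(k10,k6),(k1,k9)],[(k11,k6),(k8,k7)]]
    [] k0
    [[k0,k2,k0,k0,k0,k0],[k0,k0,k0,k2,k0,k0],[k0,k0,k0,k0,k0,k2],[k0,k0,k0,k0,k0,k3]]
    [.contra [z1],.contra [z1],.contra [z1],.ref k2 k0 [(z1,[y1,z3])]])]⟩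

/-- classes `0 0 0 0 1 1`, types `N0 N1 N1 N0 C0 C0` -/
noncomputable def cU6_165 : CertX :=
  ⟨[k12,k13,k13,k12,k20,k20],[(false,k0,[k0,k1,k2,k3,k4,k5])],[[[([z1,z0,z1,z0,z1,z0],z2),([z0,z3,z0,z0,z0,z0],z2),
    ([z0,z0,z0,z3,z0,z0],z2)],[([z1,z0,z1,z0,z1,z0],z2),([z0,z3,z0,z3,z0,z0],z4)],[([z1,z0,z1,z0,z1,z0],z2)],[]]],
    [.old (.leafM k2 [k0,k1,k2,k3,k4,k5] [(z1,[z0,z1]),(z1,[z0,z0,z1]),(z1,[y3,y1,y1,z3])] []),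
    .old (.lp [k8,k8,k12,k6,k4,k8] [k2,k2,k2,k2,k0,k0,k3,k3,k4,k4,k2,k2] k0 [] k24 k5
    [[(k8,k6),(k10,k8)],[(k7,k7),(k5,k10)],[(k2,k8),(k4,k10)],[(k9,k6),(k3,k8)],[(k6,k9),(k0,k10)],[(k9,k8),(k3,k10)],
    [(k6,k6),(k0,k7)],[(k7,k6),(k5,k9)],[(k2,k6),(k4,k8)],[(k1,k6),(k11,k6)],[(k8,k6),(k10,k8)],[(k1,k8),(k11,k8)]]
    [] k0
    [[k0,k2,k0,k0,k0,k0],[k0,k0,k0,k2,k0,k0],[k0,k0,k0,k3,k0,k0],[k0,k0,k0,k0,k0,k2]]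
    [.contra [z1],.contra [z1],.ref k0 k0 [(z1,[z0,z1]),(z1,[y1,z0,z1]),(z1,[z1])],.contra [z1]]),
    .old (.lp [k6,k8,k12,k8,k6,k6] [k3,k3,k2,k2,k0,k0,k2,k2,k3,k3,k3,k3] k0 [] k24 k5
    [[(k8,k6),(k10,k6)],[(k7,k7),(k5,k9)],[(k2,k8),(k4,k10)],[(k9,k7),(k3,k8)],[(k0,k9),(k6,k10)],[(k9,k9),(k3,k10)],
    [(k0,k7),(k6,k8)],[(k7,k8),(k5,k10)],[(k2,k7),(k4,k9)],[(k1,k6),(k11,k6)],[(k8,k6),(k10,k6)],[(k1,k6),(k11,k6)]]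
    [] k0
    [[k0,k2,k0,k0,k0,k0],[k0,k0,k0,k2,k0,k0],[k0,k0,k0,k0,k0,k2],[k0,k0,k0,k0,k0,k3]]
    [.contra [z1],.contra [z1],.contra [z1],.ref k1 k0 [(z1,[z0,z1]),(z1,[y1,y3,z3])]]),
    .old (.lp [k6,k12,k6,k8,k6,k8] [k3,k3,k0,k0,k3,k3,k2,k2,k3,k3,k2,k2] k0 [] k24 k5
    [[(k8,k6),(k10,k7)],[(k5,k6),(k7,k7)],[(k4,k9),(k2,k12)],[(k9,k9),(k3,k12)],[(k0,k6),(k6,k7)],[(k9,k6),(k3,k9)],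
    [(k0,k7),(k6,k8)],[(k5,k7),(k7,k8)],[(k4,k6),(k2,k9)],[(k1,k6),(k11,k7)],[(k8,k7),(k10,k8)],[(k1,k7),(k11,k8)]]
    [] k0
    [[k1,k0,k1,k0,k1,k0],[k0,k0,k0,k2,k0,k0],[k0,k0,k0,k0,k0,k2]]
    [.ref k2 k0 [(z1,[z1])],.contra [z1],.contra [z1]])]⟩

/-- classes `0 0 0 0 1 1`, types `N0 N1 N1 N0 C0 C2` -/
noncomputable def cU6_166 : CertX :=
  ⟨[k12,k13,k13,k12,k20,k22],[],[[[]]],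
    [.old (.lp [k2,k6,k4,k4,k2,k4] [k2,k2,k0,k0,k1,k1,k1,k1,k2,k2,k1,k1] k0 [] k12 k5
    [[(k10,k3),(k11,k3)],[(k5,k3),(k7,k3)],[(k4,k5),(k2,k6)],[(k9,k4),(k3,k6)],[(k0,k3),(k6,k4)],[(k9,k3),(k3,k5)],
    [(k0,k3),(k6,k4)],[(k5,k4),(k7,k4)],[(k4,k3),(k2,k4)],[(k10,k3),(k11,k3)],[(k1,k3),(k8,k3)],[(k1,k3),(k8,k3)]]
    [] k0
    [[k0,k0,k0,k2,k0,k0]]
    [.contra [z1]])]⟩

/-- classes `0 0 0 0 1 1`, types `N0 N1 N1 N0 N0 N1` -/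
noncomputable def cU6_167 : CertX :=
  ⟨[k12,k13,k13,k12,k28,k29],[(false,k0,[k0,k1,k2,k3,k4,k5])],[[[([z1,z0,z1,z0,z1,z0],z2),([z0,z3,z0,z0,z0,z0],z2),
    ([z0,z0,z0,z3,z0,z0],z2)],[([z1,z0,z1,z0,z1,z0],z2),([z0,z3,z0,z3,z0,z0],z4)],[([z1,z0,z1,z0,z1,z0],z2)],[]]],
    [.old (.leafM k2 [k0,k1,k2,k3,k4,k5] [(z1,[z0,z1]),(z1,[z0,z0,z1]),(z1,[y3,y1,y1,z3])] []),
    .old (.lp [k8,k8,k12,k6,k4,k8] [k2,k2,k2,k2,k0,k0,k3,k3,k4,k4,k2,k2] k0 [] k24 k5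
    [[(k8,k6)],[(k7,k7),(k5,k10)],[(k2,k8),(k4,k10)],[(k9,k6),(k3,k8)],[(k6,k9),(k0,k10)],[(k9,k8),(k3,k10)],[(k6,k6),
    (k0,k7)],[(k7,k6),(k5,k9)],[(k2,k6),(k4,k8)],[(k1,k6)],[(k10,k8)],[(k11,k8)]]
    [] k0
    [[k0,k2,k0,k0,k0,k0],[k0,k0,k0,k2,k0,k0],[k0,k0,k0,k3,k0,k0],[k0,k0,k0,k0,k0,k2]]
    [.contra [z1],.contra [z1],.ref k0 k0 [(z1,[z0,z1]),(z1,[y1,z0,z1]),(z1,[z1])],.contra [z1]]),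
    .old (.lp [k8,k8,k12,k8,k4,k6] [k2,k2,k2,k2,k0,k0,k2,k2,k4,k4,k3,k3] k0 [] k24 k5
    [[(k8,k6)],[(k7,k8),(k5,k10)],[(k2,k8),(k4,k10)],[(k9,k6),(k3,k8)],[(k0,k10),(k6,k10)],[(k9,k8),(k3,k10)],[(k0,
    k8),(k6,k8)],[(k7,k8),(k5,k10)],[(k2,k6),(k4,k8)],[(k1,k6)],[(k10,k6)],[(k11,k6)]]
    [] k0
    [[k0,k2,k0,k0,k0,k0],[k0,k0,k0,k2,k0,k0],[k0,k0,k0,k0,k0,k2],[k0,k0,k0,k0,k0,k3]]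
    [.contra [z1],.contra [z1],.contra [z1],.ref k1 k0 [(z1,[z0,z1]),(z1,[y1,y3,z3])]]),
    .old (.lp [k6,k12,k6,k8,k6,k8] [k3,k3,k0,k0,k3,k3,k2,k2,k3,k3,k2,k2] k0 [] k24 k5
    [[(k8,k6)],[(k5,k6),(k7,k7)],[(k4,k9),(k2,k12)],[(k9,k9),(k3,k12)],[(k0,k6),(k6,k7)],[(k9,k6),(k3,k9)],[(k0,k7),
    (k6,k8)],[(k5,k7),(k7,k8)],[(k4,k6),(k2,k9)],[(k1,k6)],[(k10,k8)],[(k11,k8)]]
    [] k0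
    [[k1,k0,k1,k0,k1,k0],[k0,k0,k0,k2,k0,k0],[k0,k0,k0,k0,k0,k2]]
    [.ref k2 k0 [(z1,[z1])],.contra [z1],.contra [z1]])]⟩

/-- classes `0 0 0 0 1 1`, types `N0 N1 N1 N0 N0 N2` -/
noncomputable def cU6_168 : CertX :=
  ⟨[k12,k13,k13,k12,k28,k30],[],[[[]]],
    [.old (.lp [k2,k6,k4,k4,k2,k4] [k2,k2,k0,k0,k1,k1,k1,k1,k2,k2,k1,k1] k0 [] k12 k5
    [[(k11,k3)],[(k5,k3),(k7,k3)],[(k4,k5),(k2,k6)],[(k9,k4),(k3,k6)],[(k0,k3),(k6,k4)],[(k9,k3),(k3,k5)],[(k0,k3),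
    (k6,k4)],[(k5,k4),(k7,k4)],[(k4,k3),(k2,k4)],[(k10,k3)],[(k1,k3)],[(k8,k3)]]
    [] k0
    [[k0,k0,k0,k2,k0,k0]]
    [.contra [z1]])]⟩

/-- classes `0 0 0 0 1 1`, types `N0 N1 N1 N0 S0 S0` -/
noncomputable def cU6_169 : CertX :=
  ⟨[k12,k13,k13,k12,k16,k16],[(false,k0,[k0,k1,k2,k3,k4,k5])],[[[([z1,z0,z1,z0,z1,z0],z2),([z0,z3,z0,z0,z0,z0],z2),
    ([z0,z0,z0,z3,z0,z0],z2)],[([z1,z0,z1,z0,z1,z0],z2),([z0,z3,z0,z0,z0,z0],z2)],[([z1,z0,z1,z0,z1,z0],z2)],[]]],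
    [.old (.leafM k2 [k0,k1,k2,k3,k4,k5] [(z1,[z0,z1]),(z1,[z0,z0,z1]),(z1,[y3,y1,y1,z3])] []),
    .old (.lp [k12,k8,k4,k8,k8,k6] [k0,k0,k2,k2,k4,k4,k2,k2,k2,k2,k3,k3] k0 [] k24 k5
    [[(k10,k9),(k11,k9),(k8,k10),(k1,k12)],[(k5,k8),(k7,k10)],[(k4,k6),(k2,k8)],[(k3,k8),(k9,k8)],[(k6,k6),(k0,k8)],
    [(k3,k6),(k9,k6)],[(k6,k8),(k0,k10)],[(k5,k6),(k7,k8)],[(k4,k6),(k2,k8)],[(k10,k7),(k11,k7),(k8,k8),(k1,k10)],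
    [(k10,k6),(k11,k6),(k8,k7),(k1,k9)],[(k10,k6),(k11,k6),(k8,k7),(k1,k9)]]
    [] k0
    [[k0,k2,k0,k0,k0,k0],[k0,k0,k0,k2,k0,k0],[k0,k0,k0,k0,k0,k2],[k0,k0,k0,k0,k0,k3]]
    [.contra [z1],.contra [z1],.contra [z1],.ref k0 k0 [(z1,[z0,z1]),(z1,[z0,z0,z1]),(z1,[y1,y3,y1,z3])]]),
    .old (.lp [k12,k6,k6,k8,k6,k8] [k0,k0,k3,k3,k3,k3,k2,k2,k3,k3,k2,k2] k0 [] k24 k5
    [[(k8,k9),(k10,k10),(k11,k10),(k1,k12)],[(k5,k9),(k7,k10)],[(k2,k6),(k4,k6)],[(k3,k6),(k9,k6)],[(k6,k7),(k0,k9)],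
    [(k3,k6),(k9,k6)],[(k6,k8),(k0,k10)],[(k5,k7),(k7,k8)],[(k2,k6),(k4,k6)],[(k8,k6),(k10,k7),(k11,k7),(k1,k9)],[(k8,
    k7),(k10,k8),(k11,k8),(k1,k10)],[(k8,k7),(k10,k8),(k11,k8),(k1,k10)]]
    [] k0
    [[k0,k2,k0,k0,k0,k0],[k0,k3,k0,k0,k0,k0],[k0,k0,k0,k2,k0,k0],[k0,k0,k0,k0,k0,k2]]
    [.contra [z1],.ref k1 k0 [(z1,[z0,z1]),(z1,[z1])],.contra [z1],.contra [z1]]),
    .old (.lp [k6,k8,k6,k8,k6,k12] [k3,k3,k2,k2,k3,k3,k2,k2,k3,k3,k0,k0] k0 [] k24 k5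
    [[(k1,k6),(k8,k6),(k10,k9),(k11,k9)],[(k5,k6),(k7,k7)],[(k4,k7),(k2,k8)],[(k9,k7),(k3,k8)],[(k0,k6),(k6,k7)],[(k9,
    k6),(k3,k7)],[(k0,k7),(k6,k8)],[(k5,k7),(k7,k8)],[(k4,k6),(k2,k7)],[(k1,k6),(k8,k6),(k10,k9),(k11,k9)],[(k1,k9),
    (k8,k9),(k10,k12),(k11,k12)],[(k1,k9),(k8,k9),(k10,k12),(k11,k12)]]
    [] k0
    [[k1,k0,k1,k0,k1,k0],[k0,k2,k0,k0,k0,k0],[k0,k0,k0,k2,k0,k0]]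
    [.ref k2 k0 [(z1,[z1])],.contra [z1],.contra [z1]])]⟩

/-- classes `0 0 0 0 1 1`, types `N0 N1 N1 N3 B0 B1` -/
noncomputable def cU6_170 : CertX :=
  ⟨[k12,k13,k13,k15,k24,k25],[],[[[]]],
    [.old (.lp [k6,k12,k6,k6,k6,k8] [k3,k3,k0,k0,k3,k3,k3,k3,k3,k3,k2,k2] k0 [] k24 k5
    [[(k8,k6),(k11,k7)],[(k5,k6),(k7,k6)],[(k4,k9),(k2,k12)],[(k6,k9),(k3,k12)],[(k0,k6),(k9,k6)],[(k6,k6),(k3,k9)],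
    [(k0,k6),(k9,k6)],[(k4,k6),(k2,k9)],[(k5,k6),(k7,k6)],[(k1,k6),(k10,k7)],[(k1,k7),(k10,k8)],[(k8,k7),(k11,k8)]]
    [] k0
    [[k0,k0,k0,k0,k0,k2]]
    [.contra [z1]])]⟩

/-- classes `0 0 0 0 1 1`, types `N0 N1 N1 N3 C0 C0` -/
noncomputable def cU6_171 : CertX :=
  ⟨[k12,k13,k13,k15,k20,k20],[],[[[]]],
    [.old (.lp [k6,k12,k6,k6,k6,k8] [k3,k3,k0,k0,k3,k3,k3,k3,k3,k3,k2,k2] k0 [] k24 k5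
    [[(k8,k6),(k10,k7)],[(k5,k6),(k7,k6)],[(k4,k9),(k2,k12)],[(k6,k9),(k3,k12)],[(k0,k6),(k9,k6)],[(k6,k6),(k3,k9)],
    [(k0,k6),(k9,k6)],[(k4,k6),(k2,k9)],[(k5,k6),(k7,k6)],[(k1,k6),(k11,k7)],[(k8,k7),(k10,k8)],[(k1,k7),(k11,k8)]]
    [] k0
    [[k0,k0,k0,k0,k0,k2]]
    [.contra [z1]])]⟩

/-- classes `0 0 0 0 1 1`, types `N0 N1 N1 N3 C0 C2` -/
noncomputable def cU6_172 : CertX :=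
  ⟨[k12,k13,k13,k15,k20,k22],[],[[[]]],
    [.old (.lp [k2,k4,k2,k2,k2,k2] [k1,k1,k0,k0,k1,k1,k1,k1,k1,k1,k1,k1] k0 [] k8 k5
    [[(k10,k2),(k11,k2)],[(k5,k2),(k7,k2)],[(k4,k3),(k2,k4)],[(k6,k3),(k3,k4)],[(k0,k2),(k9,k2)],[(k6,k2),(k3,k3)],
    [(k0,k2),(k9,k2)],[(k4,k2),(k2,k3)],[(k5,k2),(k7,k2)],[(k10,k2),(k11,k2)],[(k1,k2),(k8,k2)],[(k1,k2),(k8,k2)]]
    [] k0
    []
    [])]⟩

/-- classes `0 0 0 0 1 1`, types `N0 N1 N1 N3 N0 N1` -/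
noncomputable def cU6_173 : CertX :=
  ⟨[k12,k13,k13,k15,k28,k29],[],[[[]]],
    [.old (.lp [k6,k12,k6,k6,k6,k8] [k3,k3,k0,k0,k3,k3,k3,k3,k3,k3,k2,k2] k0 [] k24 k5
    [[(k8,k6)],[(k5,k6),(k7,k6)],[(k4,k9),(k2,k12)],[(k6,k9),(k3,k12)],[(k0,k6),(k9,k6)],[(k6,k6),(k3,k9)],[(k0,k6),
    (k9,k6)],[(k4,k6),(k2,k9)],[(k5,k6),(k7,k6)],[(k1,k6)],[(k10,k8)],[(k11,k8)]]
    [] k0
    [[k0,k0,k0,k0,k0,k2]]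
    [.contra [z1]])]⟩

/-- classes `0 0 0 0 1 1`, types `N0 N1 N1 N3 N0 N2` -/
noncomputable def cU6_174 : CertX :=
  ⟨[k12,k13,k13,k15,k28,k30],[],[[[]]],
    [.old (.lp [k2,k4,k2,k2,k2,k2] [k1,k1,k0,k0,k1,k1,k1,k1,k1,k1,k1,k1] k0 [] k8 k5
    [[(k11,k2)],[(k5,k2),(k7,k2)],[(k4,k3),(k2,k4)],[(k6,k3),(k3,k4)],[(k0,k2),(k9,k2)],[(k6,k2),(k3,k3)],[(k0,k2),
    (k9,k2)],[(k4,k2),(k2,k3)],[(k5,k2),(k7,k2)],[(k10,k2)],[(k1,k2)],[(k8,k2)]]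
    [] k0
    []
    [])]⟩

/-- classes `0 0 0 0 1 1`, types `N0 N1 N1 N3 S0 S0` -/
noncomputable def cU6_175 : CertX :=
  ⟨[k12,k13,k13,k15,k16,k16],[],[[[]]],
    [.old (.lp [k6,k8,k6,k6,k6,k12] [k3,k3,k2,k2,k3,k3,k3,k3,k3,k3,k0,k0] k0 [] k24 k5
    [[(k1,k6),(k8,k6),(k10,k9),(k11,k9)],[(k5,k6),(k7,k6)],[(k4,k7),(k2,k8)],[(k6,k7),(k3,k8)],[(k0,k6),(k9,k6)],[(k6,
    k6),(k3,k7)],[(k0,k6),(k9,k6)],[(k4,k6),(k2,k7)],[(k5,k6),(k7,k6)],[(k1,k6),(k8,k6),(k10,k9),(k11,k9)],[(k1,k9),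
    (k8,k9),(k10,k12),(k11,k12)],[(k1,k9),(k8,k9),(k10,k12),(k11,k12)]]
    [] k0
    [[k0,k2,k0,k0,k0,k0]]
    [.contra [z1]])]⟩

/-- classes `0 0 0 0 1 1`, types `N0 N1 N2 N0 B0 B1` -/
noncomputable def cU6_176 : CertX :=
  ⟨[k12,k13,k14,k12,k24,k25],[],[[[]]],
    [.old (.lp [k4,k6,k2,k4,k2,k4] [k1,k1,k0,k0,k2,k2,k1,k1,k2,k2,k1,k1] k0 [] k12 k5
    [[(k8,k3),(k11,k4)],[(k4,k3),(k5,k3)],[(k7,k5),(k2,k6)],[(k9,k4),(k3,k6)],[(k0,k3),(k6,k3)],[(k0,k3),(k6,k3)],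
    [(k9,k3),(k3,k5)],[(k4,k3),(k5,k3)],[(k7,k3),(k2,k4)],[(k1,k3),(k10,k3)],[(k1,k4),(k10,k4)],[(k8,k3),(k11,k4)]]
    [] k0
    [[k0,k0,k0,k0,k0,k2]]
    [.contra [z1]])]⟩

/-- classes `0 0 0 0 1 1`, types `N0 N1 N2 N0 C0 C0` -/
noncomputable def cU6_177 : CertX :=
  ⟨[k12,k13,k14,k12,k20,k20],[],[[[]]],
    [.old (.lp [k4,k6,k2,k4,k2,k4] [k1,k1,k0,k0,k2,k2,k1,k1,k2,k2,k1,k1] k0 [] k12 k5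
    [[(k8,k3),(k10,k4)],[(k4,k3),(k5,k3)],[(k7,k5),(k2,k6)],[(k9,k4),(k3,k6)],[(k0,k3),(k6,k3)],[(k0,k3),(k6,k3)],
    [(k9,k3),(k3,k5)],[(k4,k3),(k5,k3)],[(k7,k3),(k2,k4)],[(k1,k3),(k11,k3)],[(k8,k3),(k10,k4)],[(k1,k4),(k11,k4)]]
    [] k0
    [[k0,k0,k0,k0,k0,k2]]
    [.contra [z1]])]⟩

/-- classes `0 0 0 0 1 1`, types `N0 N1 N2 N0 C0 C2` -/
noncomputable def cU6_178 : CertX :=
  ⟨[k12,k13,k14,k12,k20,k22],[],[[[]]],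
    [.old (.lp [k2,k4,k2,k2,k2,k2] [k1,k1,k0,k0,k1,k1,k1,k1,k1,k1,k1,k1] k0 [] k8 k5
    [[(k10,k2),(k11,k2)],[(k4,k2),(k5,k2)],[(k7,k3),(k2,k4)],[(k9,k3),(k3,k4)],[(k0,k2),(k6,k2)],[(k0,k2),(k6,k2)],
    [(k9,k2),(k3,k3)],[(k4,k2),(k5,k2)],[(k7,k2),(k2,k3)],[(k10,k2),(k11,k2)],[(k1,k2),(k8,k2)],[(k1,k2),(k8,k2)]]
    [] k0
    []
    [])]⟩

/-- classes `0 0 0 0 1 1`, types `N0 N1 N2 N0 N0 N1` -/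
noncomputable def cU6_179 : CertX :=
  ⟨[k12,k13,k14,k12,k28,k29],[],[[[]]],
    [.old (.lp [k6,k6,k0,k6,k0,k4] [k0,k0,k0,k0,k3,k3,k0,k0,k3,k3,k1,k1] k0 [] k12 k5
    [[(k8,k3)],[(k4,k3),(k5,k3)],[(k2,k6),(k7,k6)],[(k9,k3),(k3,k6)],[(k0,k3),(k6,k3)],[(k0,k3),(k6,k3)],[(k9,k3),(k3,
    k6)],[(k4,k3),(k5,k3)],[(k2,k3),(k7,k3)],[(k1,k3)],[(k10,k4)],[(k11,k4)]]
    [] k0
    [[k0,k0,k0,k0,k0,k2]]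
    [.contra [z1]])]⟩

/-- classes `0 0 0 0 1 1`, types `N0 N1 N2 N0 N0 N2` -/
noncomputable def cU6_180 : CertX :=
  ⟨[k12,k13,k14,k12,k28,k30],[],[[[]]],
    [.old (.lp [k2,k4,k2,k2,k2,k2] [k1,k1,k0,k0,k1,k1,k1,k1,k1,k1,k1,k1] k0 [] k8 k5
    [[(k11,k2)],[(k4,k2),(k5,k2)],[(k7,k3),(k2,k4)],[(k9,k3),(k3,k4)],[(k0,k2),(k6,k2)],[(k0,k2),(k6,k2)],[(k9,k2),
    (k3,k3)],[(k4,k2),(k5,k2)],[(k7,k2),(k2,k3)],[(k10,k2)],[(k1,k2)],[(k8,k2)]]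
    [] k0
    []
    [])]⟩

/-- classes `0 0 0 0 1 1`, types `N0 N1 N2 N0 S0 S0` -/
noncomputable def cU6_181 : CertX :=
  ⟨[k12,k13,k14,k12,k16,k16],[],[[[]]],
    [.old (.lp [k18,k16,k12,k12,k12,k24] [k3,k3,k4,k4,k6,k6,k6,k6,k6,k6,k0,k0] k0 [] k48 k5
    [[(k8,k15),(k1,k18),(k10,k21),(k11,k21)],[(k4,k15),(k5,k15)],[(k7,k14),(k2,k16)],[(k9,k14),(k3,k16)],[(k6,k12),
    (k0,k15)],[(k6,k12),(k0,k15)],[(k9,k12),(k3,k14)],[(k4,k12),(k5,k12)],[(k7,k12),(k2,k14)],[(k8,k12),(k1,k15),(k10,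
    k18),(k11,k18)],[(k8,k18),(k1,k21),(k10,k24),(k11,k24)],[(k8,k18),(k1,k21),(k10,k24),(k11,k24)]]
    [] k0
    [[k0,k2,k0,k0,k0,k0]]
    [.contra [z1]])]⟩

/-- classes `0 0 0 0 1 1`, types `N0 N1 N2 N3 B0 B1` -/
noncomputable def cU6_182 : CertX :=
  ⟨[k12,k13,k14,k15,k24,k25],[(false,k0,[k0,k1,k2,k3,k4,k5])],[[[([z1,z0,z1,z0,z1,z1],z2)],[([z1,z0,z1,z0,z1,z0],z2),
    ([z0,z3,z0,z0,z0,z0],z2),([z0,z0,z0,z3,z0,z0],z2)],[([z1,z0,z1,z0,z1,z0],z2),([z0,z3,z0,z3,z0,z0],z4)],[([z3,z3,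
    z3,z3,z3,z0],z10)],[]]],
    [.old (.leafM k3 [k0,k2,k4,k5] [] [(k1,k3,z1,[y1,z1]),(k3,k1,z1,[y1,z1])]),
    .old (.leafM k2 [k0,k1,k2,k3,k4,k5] [(z1,[z0,z1]),(z1,[z0,z0,z1]),(z1,[y3,y1,y1,z3])] []),
    .old (.lp [k24,k18,k0,k12,k24,k16] [k0,k0,k3,k3,k12,k12,k6,k6,k0,k0,k4,k4] k0 [] k48 k5
    [[(k11,k20),(k8,k24)],[(k4,k12),(k5,k12)],[(k7,k15),(k2,k18)],[(k6,k15),(k3,k18)],[(k0,k12),(k9,k12)],[(k0,k12),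
    (k9,k12)],[(k6,k12),(k3,k15)],[(k7,k12),(k2,k15)],[(k4,k12),(k5,k12)],[(k10,k20),(k1,k24)],[(k10,k16),(k1,k20)],
    [(k11,k16),(k8,k20)]]
    [] k0
    [[k0,k2,k0,k0,k0,k0],[k0,k1,k0,k1,k0,k0],[k0,k1,k0,k2,k0,k0],[k0,k0,k0,k2,k0,k0],[k0,k0,k0,k3,k0,k0],[k0,k0,k0,k0,
    k0,k2]]
    [.contra [z1],.contra [z1,y2,y1,z2],.ref k1 k0 [(z1,[z0,z1]),(z1,[y3,z0,z2]),(z1,[z3,z0,y1])],.contra [z1],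
    .ref k1 k0 [(z1,[z0,z1]),(z1,[y1,z0,z1]),(z1,[z1])],.contra [z1]]),
    .old (.lp [k6,k12,k6,k8,k6,k8] [k3,k3,k0,k0,k3,k3,k2,k2,k3,k3,k2,k2] k0 [] k24 k5
    [[(k8,k6),(k11,k7)],[(k4,k6),(k5,k6)],[(k7,k10),(k2,k12)],[(k6,k10),(k3,k12)],[(k0,k6),(k9,k6)],[(k0,k6),(k9,k6)],
    [(k6,k8),(k3,k10)],[(k7,k8),(k2,k10)],[(k4,k6),(k5,k6)],[(k1,k6),(k10,k7)],[(k1,k7),(k10,k8)],[(k8,k7),(k11,k8)]]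
    [] k0
    [[k1,k0,k1,k0,k1,k0],[k0,k1,k0,k1,k0,k0],[k0,k0,k0,k2,k0,k0],[k0,k0,k0,k0,k0,k2]]
    [.ref k2 k0 [(z1,[z1]),(z1,[y3,z1])],.ref k0 k0 [(z1,[y1,z0,z1])],.contra [z1],.contra [z1]]),
    .old (.lp [k12,k8,k0,k8,k12,k6] [k0,k0,k2,k2,k6,k6,k2,k2,k0,k0,k3,k3] k0 [] k24 k5
    [[(k11,k9),(k8,k12)],[(k4,k6),(k5,k6)],[(k2,k8),(k7,k8)],[(k3,k8),(k6,k8)],[(k0,k6),(k9,k6)],[(k0,k6),(k9,k6)],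
    [(k3,k8),(k6,k8)],[(k2,k8),(k7,k8)],[(k4,k6),(k5,k6)],[(k10,k9),(k1,k12)],[(k10,k6),(k1,k9)],[(k11,k6),(k8,k9)]]
    [] k0
    [[k0,k2,k0,k0,k0,k0],[k0,k1,k0,k1,k0,k0],[k0,k0,k0,k2,k0,k0],[k0,k0,k0,k0,k0,k2],[k0,k0,k0,k0,k0,k3]]
    [.contra [z1],.ref k0 k0 [(z1,[y1,z1])],.contra [z1],.contra [z1],.ref k3 k0 [(z1,[y1,z3])]])]⟩

/-- classes `0 0 0 0 1 1`, types `N0 N1 N2 N3 C0 C0` -/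
noncomputable def cU6_183 : CertX :=
  ⟨[k12,k13,k14,k15,k20,k20],[(false,k0,[k0,k1,k2,k3,k4,k5])],[[[([z1,z0,z1,z0,z1,z1],z2)],[([z1,z0,z1,z0,z1,z0],z2),
    ([z0,z3,z0,z0,z0,z0],z2),([z0,z0,z0,z3,z0,z0],z2)],[([z1,z0,z1,z0,z1,z0],z2),([z0,z3,z0,z3,z0,z0],z4)],[([z3,z3,
    z3,z3,z3,z0],z10)],[]]],
    [.old (.leafM k1 [k4,k5,k0,k2] [] [(k1,k3,z1,[y1,z1]),(k3,k1,z1,[y1,z1])]),
    .old (.leafM k2 [k0,k1,k2,k3,k4,k5] [(z1,[z0,z1]),(z1,[z0,z0,z1]),(z1,[y3,y1,y1,z3])] []),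
    .old (.lp [k16,k12,k24,k18,k8,k16] [k4,k4,k6,k6,k0,k0,k3,k3,k8,k8,k4,k4] k0 [] k48 k5
    [[(k8,k12),(k10,k16)],[(k4,k20),(k5,k20)],[(k2,k12),(k7,k15)],[(k3,k12),(k6,k15)],[(k9,k16),(k0,k20)],[(k9,k16),
    (k0,k20)],[(k3,k15),(k6,k18)],[(k2,k15),(k7,k18)],[(k4,k16),(k5,k16)],[(k1,k12),(k11,k12)],[(k8,k12),(k10,k16)],
    [(k1,k16),(k11,k16)]]
    [] k0
    [[k0,k2,k0,k0,k0,k0],[k0,k3,k0,k0,k0,k0],[k0,k2,k0,k1,k0,k0],[k0,k1,k0,k1,k0,k0],[k0,k0,k0,k2,k0,k0],[k0,k0,k0,k0,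
    k0,k2]]
    [.contra [z1],.ref k1 k0 [(z1,[z0,z1]),(z1,[z1]),(z1,[y1,z0,z1])],.ref k1 k0 [(z1,[z0,z1]),(z1,[z3,z0,y1]),(z1,
    [y3,z0,z2])],.contra [z1,y2,y1,z2],.contra [z1],.contra [z1]]),
    .old (.lp [k6,k8,k6,k12,k6,k8] [k3,k3,k2,k2,k3,k3,k0,k0,k3,k3,k2,k2] k0 [] k24 k5
    [[(k8,k6),(k10,k7)],[(k4,k6),(k5,k6)],[(k2,k8),(k7,k10)],[(k3,k8),(k6,k10)],[(k0,k6),(k9,k6)],[(k0,k6),(k9,k6)],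
    [(k3,k10),(k6,k12)],[(k2,k10),(k7,k12)],[(k4,k6),(k5,k6)],[(k1,k6),(k11,k7)],[(k8,k7),(k10,k8)],[(k1,k7),(k11,
    k8)]]
    [] k0
    [[k1,k0,k1,k0,k1,k0],[k0,k2,k0,k0,k0,k0],[k0,k1,k0,k1,k0,k0],[k0,k0,k0,k0,k0,k2]]
    [.ref k2 k0 [(z1,[z1]),(z1,[y3,z1])],.contra [z1],.ref k0 k0 [(z1,[y1,z0,z1])],.contra [z1]]),
    .old (.lp [k6,k8,k12,k8,k6,k6] [k3,k3,k2,k2,k0,k0,k2,k2,k3,k3,k3,k3] k0 [] k24 k5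
    [[(k8,k6),(k10,k6)],[(k4,k9),(k5,k9)],[(k2,k8),(k7,k8)],[(k3,k8),(k6,k8)],[(k0,k9),(k9,k9)],[(k0,k9),(k9,k9)],
    [(k3,k8),(k6,k8)],[(k2,k8),(k7,k8)],[(k4,k9),(k5,k9)],[(k1,k6),(k11,k6)],[(k8,k6),(k10,k6)],[(k1,k6),(k11,k6)]]
    [] k0
    [[k0,k2,k0,k0,k0,k0],[k0,k1,k0,k1,k0,k0],[k0,k0,k0,k2,k0,k0],[k0,k0,k0,k0,k0,k2],[k0,k0,k0,k0,k0,k3]]
    [.contra [z1],.ref k0 k0 [(z1,[y1,z1])],.contra [z1],.contra [z1],.ref k3 k0 [(z1,[y1,z3])]])]⟩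

/-- classes `0 0 0 0 1 1`, types `N0 N1 N2 N3 C0 C2` -/
noncomputable def cU6_184 : CertX :=
  ⟨[k12,k13,k14,k15,k20,k22],[(false,k0,[k0,k1,k2,k3,k4,k5])],[[[([z1,z0,z1,z0,z1,z1],z2)],[]]],
    [.old (.leafM k1 [k4,k5,k0,k2] [] [(k1,k3,z1,[y1,z1]),(k3,k1,z1,[y1,z1])]),
    .old (.lp [k0,k6,k6,k4,k0,k6] [k3,k3,k0,k0,k0,k0,k1,k1,k3,k3,k0,k0] k0 [] k12 k5
    [[(k10,k3),(k11,k3)],[(k4,k3),(k5,k3)],[(k7,k5),(k2,k6)],[(k6,k5),(k3,k6)],[(k0,k3),(k9,k3)],[(k0,k3),(k9,k3)],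
    [(k6,k4),(k3,k5)],[(k7,k4),(k2,k5)],[(k4,k3),(k5,k3)],[(k10,k3),(k11,k3)],[(k1,k3),(k8,k3)],[(k1,k3),(k8,k3)]]
    [] k0
    [[k0,k1,k0,k1,k0,k0],[k0,k0,k0,k2,k0,k0]]
    [.ref k0 k0 [(z1,[y1,z1])],.contra [z1]])]⟩

/-- classes `0 0 0 0 1 1`, types `N0 N1 N2 N3 N0 N1` -/
noncomputable def cU6_185 : CertX :=
  ⟨[k12,k13,k14,k15,k28,k29],[(false,k0,[k0,k1,k2,k3,k4,k5])],[[[([z1,z0,z1,z0,z1,z0],z2),([z0,z3,z0,z0,z0,z0],z2),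
    ([z0,z0,z0,z3,z0,z0],z2)],[([z1,z0,z1,z0,z1,z0],z2),([z0,z3,z0,z3,z0,z0],z4)],[([z1,z0,z1,z0,z1,z0],z2)],[]]],
    [.old (.leafM k2 [k0,k1,k2,k3,k4,k5] [(z1,[z0,z1]),(z1,[z0,z0,z1]),(z1,[y3,y1,y1,z3])] []),
    .old (.lp [k24,k12,k24,k18,k0,k16] [k0,k0,k6,k6,k0,k0,k3,k3,k12,k12,k4,k4] k0 [] k48 k5
    [[(k8,k12)],[(k4,k24),(k5,k24)],[(k2,k12),(k7,k15)],[(k3,k12),(k6,k15)],[(k9,k12),(k0,k24)],[(k9,k12),(k0,k24)],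
    [(k3,k15),(k6,k18)],[(k2,k15),(k7,k18)],[(k4,k12),(k5,k12)],[(k1,k12)],[(k10,k16)],[(k11,k16)]]
    [] k0
    [[k0,k2,k0,k0,k0,k0],[k0,k3,k0,k0,k0,k0],[k0,k2,k0,k1,k0,k0],[k0,k1,k0,k1,k0,k0],[k0,k0,k0,k2,k0,k0],[k0,k0,k0,k0,
    k0,k2]]
    [.contra [z1],.ref k0 k0 [(z1,[z0,z1]),(z1,[z1]),(z1,[y1,z0,z1])],.ref k0 k0 [(z1,[z0,z1]),(z1,[z3,z0,y1]),(z1,
    [y3,z0,z2])],.contra [z1,y2,y1,z2],.contra [z1],.contra [z1]]),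
    .old (.lp [k12,k8,k12,k8,k0,k6] [k0,k0,k2,k2,k0,k0,k2,k2,k6,k6,k3,k3] k0 [] k24 k5
    [[(k8,k6)],[(k4,k12),(k5,k12)],[(k2,k8),(k7,k8)],[(k3,k8),(k6,k8)],[(k9,k6),(k0,k12)],[(k9,k6),(k0,k12)],[(k3,k8),
    (k6,k8)],[(k2,k8),(k7,k8)],[(k4,k6),(k5,k6)],[(k1,k6)],[(k10,k6)],[(k11,k6)]]
    [] k0
    [[k0,k2,k0,k0,k0,k0],[k0,k1,k0,k1,k0,k0],[k0,k0,k0,k2,k0,k0],[k0,k0,k0,k0,k0,k2],[k0,k0,k0,k0,k0,k3]]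
    [.contra [z1],.contra [y1,y1,z1],.contra [z1],.contra [z1],.ref k1 k0 [(z1,[z0,z1]),(z1,[y1,y3,z3])]]),
    .old (.lp [k12,k30,k12,k30,k12,k20] [k9,k9,k0,k0,k9,k9,k0,k0,k9,k9,k5,k5] k0 [] k60 k6
    [[(k8,k12)],[(k4,k12),(k5,k12)],[(k2,k30),(k7,k30)],[(k3,k30),(k6,k30)],[(k0,k12),(k9,k12)],[(k0,k12),(k9,k12)],
    [(k3,k30),(k6,k30)],[(k2,k30),(k7,k30)],[(k4,k12),(k5,k12)],[(k1,k12)],[(k10,k20)],[(k11,k20)]]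
    [] k0
    [[k1,k0,k1,k0,k1,k0],[k0,k0,k0,k0,k0,k2]]
    [.ref k2 k0 [(z1,[z1])],.contra [z1]])]⟩

/-- the certificates of this file -/
noncomputable def lU6_12 : List CertX :=
  [cU6_133, cU6_134, cU6_135, cU6_136, cU6_137, cU6_138, cU6_139, cU6_140, cU6_141, cU6_142, cU6_143, cU6_144,
      cU6_145, cU6_146, cU6_147, cU6_148, cU6_149, cU6_150, cU6_151, cU6_152, cU6_153, cU6_154, cU6_155,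
      cU6_156, cU6_157, cU6_158, cU6_159, cU6_160, cU6_161, cU6_162, cU6_163, cU6_164, cU6_165, cU6_166,
      cU6_167, cU6_168, cU6_169, cU6_170, cU6_171, cU6_172, cU6_173, cU6_174, cU6_175, cU6_176, cU6_177,
      cU6_178, cU6_179, cU6_180, cU6_181, cU6_182, cU6_183, cU6_184, cU6_185]

theorem gU6_12 : allF (chkE 6 ttU6) lU6_12 = true := by
  decide +kernel

end Pool.Agent.Lib_MP_fa6e45
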