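import Pool.Agent.Lib_MP_fa6e45.CXT
import Pool.Agent.Lib_MP_fa6e45.HK

/-!
MP_fa6e45_co, stage 7: certificates (generated by a program).
-/

namespace Pool.Agent.Lib_MP_fa6e45

/-- classes `0 0 0 0 1 1`, types `N0 N1 N2 N3 N0 N2` -/
noncomputable def cU6_186 : CertX :=
  ⟨[k12,k13,k14,k15,k28,k30],[(false,k0,[k0,k1,k2,k3,k4,k5])],[[[([z1,z0,z1,z0,z1,z1],z2)],[]]],
    [.old (.leafM k3 [k0,k2,k4,k5] [] [(k1,k3,z1,[y1,z1]),(k3,k1,z1,[y1,z1])]),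
    .old (.lp [k0,k6,k6,k4,k0,k6] [k3,k3,k0,k0,k0,k0,k1,k1,k3,k3,k0,k0] k0 [] k12 k5
    [[(k11,k3)],[(k4,k3),(k5,k3)],[(k7,k5),(k2,k6)],[(k6,k5),(k3,k6)],[(k0,k3),(k9,k3)],[(k0,k3),(k9,k3)],[(k6,k4),
    (k3,k5)],[(k7,k4),(k2,k5)],[(k4,k3),(k5,k3)],[(k10,k3)],[(k1,k3)],[(k8,k3)]]
    [] k0
    [[k0,k1,k0,k1,k0,k0],[k0,k0,k0,k2,k0,k0]]
    [.ref k0 k0 [(z1,[y1,z1])],.contra [z1]])]⟩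

/-- classes `0 0 0 0 1 1`, types `N0 N1 N2 N3 S0 S0` -/
noncomputable def cU6_187 : CertX :=
  ⟨[k12,k13,k14,k15,k16,k16],[(false,k0,[k0,k1,k2,k3,k4,k5])],[[[([z1,z0,z1,z0,z1,z1],z2)],[([z1,z0,z1,z0,z1,z0],z2),
    ([z0,z3,z0,z0,z0,z0],z2),([z0,z0,z0,z3,z0,z0],z2)],[([z1,z0,z1,z0,z1,z0],z2),([z0,z3,z0,z3,z0,z0],z4)],[([z3,z3,
    z3,z3,z3,z0],z10)],[]]],
    [.old (.leafM k1 [k4,k5,k0,k2] [] [(k1,k3,z1,[y1,z1]),(k3,k1,z1,[y1,z1])]),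
    .old (.leafM k2 [k0,k1,k2,k3,k4,k5] [(z1,[z0,z1]),(z1,[z0,z0,z1]),(z1,[y3,y1,y1,z3])] []),
    .old (.lp [k24,k18,k0,k12,k24,k16] [k0,k0,k3,k3,k12,k12,k6,k6,k0,k0,k4,k4] k0 [] k48 k5
    [[(k10,k20),(k11,k20),(k1,k24),(k8,k24)],[(k4,k12),(k5,k12)],[(k7,k15),(k2,k18)],[(k6,k15),(k3,k18)],[(k0,k12),
    (k9,k12)],[(k0,k12),(k9,k12)],[(k6,k12),(k3,k15)],[(k7,k12),(k2,k15)],[(k4,k12),(k5,k12)],[(k10,k20),(k11,k20),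
    (k1,k24),(k8,k24)],[(k10,k16),(k11,k16),(k1,k20),(k8,k20)],[(k10,k16),(k11,k16),(k1,k20),(k8,k20)]]
    [] k0
    [[k0,k2,k0,k0,k0,k0],[k0,k1,k0,k1,k0,k0],[k0,k1,k0,k2,k0,k0],[k0,k0,k0,k2,k0,k0],[k0,k0,k0,k3,k0,k0],[k0,k0,k0,k0,
    k0,k2]]
    [.contra [z1],.contra [z1,y2,y1,z2],.ref k1 k0 [(z1,[z0,z1]),(z1,[y3,z0,z2]),(z1,[z3,z0,y1])],.contra [z1],
    .ref k1 k0 [(z1,[z0,z1]),(z1,[y1,z0,z1]),(z1,[z1])],.contra [z1]]),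
    .old (.lp [k24,k16,k0,k16,k24,k14] [k0,k0,k4,k4,k12,k12,k4,k4,k0,k0,k5,k5] k0 [[],[],[],[],[],[],[],[],[k0,k0,k0,k0,
    k0,k0,k0,k0,k0,k0,k6],[],[],[k0,k0,k0,k0,k0,k0,k0,k0,k0,k6]] k48 k5
    [[(k8,k18),(k10,k19),(k11,k19),(k1,k24)],[(k4,k12),(k5,k12)],[(k2,k16),(k7,k16)],[(k3,k16),(k6,k16)],[(k0,k12),
    (k9,k12)],[(k0,k12),(k9,k12)],[(k3,k16),(k6,k16)],[(k2,k16),(k7,k16)],[(k4,k12),(k5,k12)],[(k1,k18),(k10,k19),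
    (k11,k19),(k8,k24)],[(k11,k14),(k1,k19),(k8,k19),(k10,k20)],[(k10,k14),(k1,k19),(k8,k19),(k11,k20)]]
    [] k0
    [[k1,k0,k1,k0,k1,k0],[k0,k2,k0,k0,k0,k0],[k0,k1,k0,k1,k0,k0],[k0,k0,k0,k2,k0,k0],[k0,k0,k0,k0,k0,k2]]
    [.ref k2 k0 [(z1,[z1]),(z1,[y3,z1])],.contra [z1],.ref k0 k0 [(z1,[y1,z0,z1])],.contra [z1],.contra [z1]]),
    .old (.lp [k12,k8,k0,k8,k12,k6] [k0,k0,k2,k2,k6,k6,k2,k2,k0,k0,k3,k3] k0 [] k24 k5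
    [[(k10,k9),(k11,k9),(k1,k12),(k8,k12)],[(k4,k6),(k5,k6)],[(k2,k8),(k7,k8)],[(k3,k8),(k6,k8)],[(k0,k6),(k9,k6)],
    [(k0,k6),(k9,k6)],[(k3,k8),(k6,k8)],[(k2,k8),(k7,k8)],[(k4,k6),(k5,k6)],[(k10,k9),(k11,k9),(k1,k12),(k8,k12)],
    [(k10,k6),(k11,k6),(k1,k9),(k8,k9)],[(k10,k6),(k11,k6),(k1,k9),(k8,k9)]]
    [] k0
    [[k0,k2,k0,k0,k0,k0],[k0,k1,k0,k1,k0,k0],[k0,k0,k0,k2,k0,k0],[k0,k0,k0,k0,k0,k2],[k0,k0,k0,k0,k0,k3]]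
    [.contra [z1],.ref k0 k0 [(z1,[y1,z1])],.contra [z1],.contra [z1],.ref k3 k0 [(z1,[y1,z3])]])]⟩

/-- classes `0 0 0 0 1 1`, types `N0 N1 N3 N1 B0 B1` -/
noncomputable def cU6_188 : CertX :=
  ⟨[k12,k13,k15,k13,k24,k25],[(false,k0,[k0,k1,k2,k3,k4,k5])],[[[([z1,z0,z0,z0,z1,z1],z2)],[([z1,z0,z0,z0,z1,z0],z2)],
    []]],
    [.old (.leafM k6 [k1,k2,k3,k4,k5,k0] [(z1,[z1])] []),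
    .old (.lp [k174,k66,k30,k78,k42,k80] [k0,k0,k54,k54,k72,k72,k48,k48,k66,k66,k47,k47] k0 [[k0,k0,k54],[k0,k0,k0,k0,k0,
    k0,k0,k24],[],[k0,k54],[],[k0,k0,k0,k0,k0,k0,k12],[k24],[k0,k0,k0,k0,k12]] (nat_lit 240) k6
    [[(k8,k108),(k11,k127)],[(k5,k48),(k9,k132)],[(k6,k48),(k2,k120)],[(k4,k48),(k3,k120)],[(k0,k48),(k7,k54)],[(k2,
    k48),(k6,k66)],[(k9,k48),(k5,k54)],[(k3,k48),(k4,k66)],[(k7,k48),(k0,k132)],[(k10,k61),(k1,k108)],[(k10,k80),(k1,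
    k127)],[(k8,k61),(k11,k80)]]
    [] k0
    [[k0,k1,k1,k1,k0,k0],[k0,k0,k1,k1,k0,k0],[k0,k0,k0,k0,k0,k2]]
    [.contra [y1,y1,z1],.contra [y1,y1,z1],.contra [z1]]),
    .old (.lp [k104,k38,k100,k114,k40,k80] [k5,k5,k38,k38,k7,k7,k0,k0,k37,k37,k17,k17] k0 [[k0,k0,k42],[k0,k0,k0,k0,k0,k0,
    k0,k16],[k0,k0,k0,k0,k0,k9],[k0,k42],[k0,k0,k0,k9],[k0,k0,k0,k0,k0,k0,k17],[k16],[k0,k0,k0,k0,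
    k17]] (nat_lit 240) k5
    [[(k8,k72),(k11,k92)],[(k5,k60),(k9,k88)],[(k6,k60),(k2,k80)],[(k4,k60),(k3,k80)],[(k0,k60),(k7,k116)],[(k2,k60),
    (k6,k124)],[(k9,k60),(k5,k116)],[(k3,k60),(k4,k124)],[(k7,k60),(k0,k88)],[(k10,k60),(k1,k72)],[(k10,k80),(k1,
    k92)],[(k8,k60),(k11,k80)]]
    [] k0
    [[k1,k0,k0,k0,k1,k0],[k0,k2,k0,k0,k0,k0],[k0,k1,k1,k1,k0,k0],[k0,k0,k0,k0,k0,k2]]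
    [.ref k1 k0 [(z1,[z1])],.contra [z1],.ref k0 k0 [(z1,[y1,z1])],.contra [z1]])]⟩

/-- classes `0 0 0 0 1 1`, types `N0 N1 N3 N1 C0 C0` -/
noncomputable def cU6_189 : CertX :=
  ⟨[k12,k13,k15,k13,k20,k20],[(false,k0,[k0,k1,k2,k3,k4,k5])],[[[([z1,z0,z0,z0,z1,z1],z2)],[([z1,z0,z0,z0,z1,z0],z2)],
    []]],
    [.old (.leafM k4 [k1,k2,k3,k4,k5,k0] [(z1,[z1])] []),
    .old (.lp [k174,k66,k30,k78,k42,k80] [k0,k0,k54,k54,k72,k72,k48,k48,k66,k66,k47,k47] k0 [[k0,k0,k54],[k0,k0,k0,k0,k0,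
    k0,k0,k24],[],[k0,k54],[],[k0,k0,k0,k0,k0,k0,k12],[k24],[k0,k0,k0,k0,k12]] (nat_lit 240) k6
    [[(k8,k108),(k10,k127)],[(k5,k48),(k9,k132)],[(k6,k48),(k2,k120)],[(k4,k48),(k3,k120)],[(k0,k48),(k7,k54)],[(k2,
    k48),(k6,k66)],[(k9,k48),(k5,k54)],[(k3,k48),(k4,k66)],[(k7,k48),(k0,k132)],[(k11,k61),(k1,k108)],[(k8,k61),(k10,
    k80)],[(k11,k80),(k1,k127)]]
    [] k0
    [[k0,k1,k1,k1,k0,k0],[k0,k0,k1,k1,k0,k0],[k0,k0,k0,k0,k0,k2]]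
    [.contra [y1,y1,z1],.contra [y1,y1,z1],.contra [z1]]),
    .old (.lp [k104,k38,k100,k114,k40,k80] [k5,k5,k38,k38,k7,k7,k0,k0,k37,k37,k17,k17] k0 [[k0,k0,k42],[k0,k0,k0,k0,k0,k0,
    k0,k16],[k0,k0,k0,k0,k0,k9],[k0,k42],[k0,k0,k0,k9],[k0,k0,k0,k0,k0,k0,k17],[k16],[k0,k0,k0,k0,
    k17]] (nat_lit 240) k5
    [[(k8,k72),(k10,k92)],[(k5,k60),(k9,k88)],[(k6,k60),(k2,k80)],[(k4,k60),(k3,k80)],[(k0,k60),(k7,k116)],[(k2,k60),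
    (k6,k124)],[(k9,k60),(k5,k116)],[(k3,k60),(k4,k124)],[(k7,k60),(k0,k88)],[(k11,k60),(k1,k72)],[(k8,k60),(k10,
    k80)],[(k11,k80),(k1,k92)]]
    [] k0
    [[k1,k0,k0,k0,k1,k0],[k0,k2,k0,k0,k0,k0],[k0,k1,k1,k1,k0,k0],[k0,k0,k0,k0,k0,k2]]
    [.ref k1 k0 [(z1,[z1])],.contra [z1],.ref k0 k0 [(z1,[y1,z1])],.contra [z1]])]⟩

/-- classes `0 0 0 0 1 1`, types `N0 N1 N3 N1 C0 C2` -/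
noncomputable def cU6_190 : CertX :=
  ⟨[k12,k13,k15,k13,k20,k22],[(false,k0,[k0,k1,k2,k3,k4,k5])],[[[([z1,z0,z0,z0,z1,z1],z2)],[]]],
    [.old (.leafM k4 [k1,k2,k3,k4,k5,k0] [(z1,[z1])] []),
    .old (.lp [k48,k10,k44,k38,k32,k16] [k0,k0,k19,k19,k2,k2,k5,k5,k8,k8,k16,k16] k0 [[k0,k0,k22],[],[k0,k0,k0,k0,k0,k3],
    [k0,k22],[k0,k0,k0,k3],[k0,k0,k0,k0,k0,k0,k11],[],[k0,k0,k0,k0,k11]] k96 k5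
    [[(k10,k32),(k11,k32)],[(k5,k24),(k9,k40)],[(k6,k24),(k2,k32)],[(k4,k24),(k3,k32)],[(k0,k24),(k7,k44)],[(k2,k24),
    (k6,k52)],[(k9,k24),(k5,k44)],[(k3,k24),(k4,k52)],[(k7,k24),(k0,k40)],[(k10,k24),(k11,k24)],[(k8,k24),(k1,k32)],
    [(k8,k24),(k1,k32)]]
    [] k0
    [[k0,k2,k0,k0,k0,k0],[k0,k1,k1,k1,k0,k0]]
    [.contra [z1],.ref k0 k0 [(z1,[y1,z1])]])]⟩

/-- classes `0 0 0 0 1 1`, types `N0 N1 N3 N1 N0 N1` -/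
noncomputable def cU6_191 : CertX :=
  ⟨[k12,k13,k15,k13,k28,k29],[(false,k0,[k0,k1,k2,k3,k4,k5])],[[[([z1,z0,z0,z0,z1,z0],z2)],[]]],
    [.old (.lp [k174,k66,k30,k78,k42,k80] [k0,k0,k54,k54,k72,k72,k48,k48,k66,k66,k47,k47] k0 [[k0,k0,k54],[k0,k0,k0,k0,k0,
    k0,k0,k24],[],[k0,k54],[],[k0,k0,k0,k0,k0,k0,k12],[k24],[k0,k0,k0,k0,k12]] (nat_lit 240) k6
    [[(k8,k108)],[(k5,k48),(k9,k132)],[(k6,k48),(k2,k120)],[(k4,k48),(k3,k120)],[(k0,k48),(k7,k54)],[(k2,k48),(k6,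
    k66)],[(k9,k48),(k5,k54)],[(k3,k48),(k4,k66)],[(k7,k48),(k0,k132)],[(k1,k108)],[(k10,k80)],[(k11,k80)]]
    [] k0
    [[k0,k1,k1,k1,k0,k0],[k0,k0,k1,k1,k0,k0],[k0,k0,k0,k0,k0,k2]]
    [.contra [y1,y1,z1],.contra [y1,y1,z1],.contra [z1]]),
    .old (.lp [k6,k54,k78,k6,k54,k40] [k36,k36,k12,k12,k0,k0,k36,k36,k12,k12,k19,k19] k0 [[k0,k0,k6],[],[k0,k0,k0,k0,k0,
    k36],[k0,k6],[k0,k0,k0,k36]] k120 k5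
    [[(k8,k30)],[(k9,k30),(k5,k36)],[(k6,k30),(k2,k60)],[(k4,k30),(k3,k60)],[(k0,k36),(k7,k78)],[(k2,k30),(k6,k42)],
    [(k9,k30),(k5,k78)],[(k3,k30),(k4,k42)],[(k0,k30),(k7,k30)],[(k1,k30)],[(k10,k40)],[(k11,k40)]]
    [] k0
    [[k1,k0,k0,k0,k1,k0],[k0,k0,k0,k0,k0,k2]]
    [.ref k0 k0 [(z1,[z1])],.contra [z1]])]⟩

/-- classes `0 0 0 0 1 1`, types `N0 N1 N3 N1 N0 N2` -/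
noncomputable def cU6_192 : CertX :=
  ⟨[k12,k13,k15,k13,k28,k30],[(false,k0,[k0,k1,k2,k3,k4,k5])],[[[([z1,z0,z0,z0,z1,z1],z2)],[]]],
    [.old (.leafM k6 [k1,k2,k3,k4,k5,k0] [(z1,[z1])] []),
    .old (.lp [k48,k10,k44,k38,k32,k16] [k0,k0,k19,k19,k2,k2,k5,k5,k8,k8,k16,k16] k0 [[k0,k0,k22],[],[k0,k0,k0,k0,k0,k3],
    [k0,k22],[k0,k0,k0,k3],[k0,k0,k0,k0,k0,k0,k11],[],[k0,k0,k0,k0,k11]] k96 k5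
    [[(k11,k32)],[(k5,k24),(k9,k40)],[(k6,k24),(k2,k32)],[(k4,k24),(k3,k32)],[(k0,k24),(k7,k44)],[(k2,k24),(k6,k52)],
    [(k9,k24),(k5,k44)],[(k3,k24),(k4,k52)],[(k7,k24),(k0,k40)],[(k10,k24)],[(k1,k32)],[(k8,k24)]]
    [] k0
    [[k0,k2,k0,k0,k0,k0],[k0,k1,k1,k1,k0,k0]]
    [.contra [z1],.ref k0 k0 [(z1,[y1,z1])]])]⟩

/-- classes `0 0 0 0 1 1`, types `N0 N1 N3 N1 S0 S0` -/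
noncomputable def cU6_193 : CertX :=
  ⟨[k12,k13,k15,k13,k16,k16],[(false,k0,[k0,k1,k2,k3,k4,k5])],[[[([z1,z0,z0,z0,z1,z1],z2)],[([z1,z0,z0,z0,z1,z0],z2)],
    []]],
    [.old (.leafM k4 [k1,k2,k3,k4,k5,k0] [(z1,[z1])] []),
    .old (.lp [(nat_lit 336),k138,k60,k150,k96,k160] [k0,k0,k99,k99,k138,k138,k93,k93,k120,k120,k88,k88] k0 [[k0,k0,k102],
    [k0,k0,k0,k0,k0,k0,k0,k48],[k0,k0,k0,k0,k0,k3],[k0,k102],[k0,k0,k0,k3],[k0,k0,k0,k0,k0,k0,k27],[k48],[k0,k0,k0,k0,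
    k27]] (nat_lit 480) k6
    [[(k8,(nat_lit 216)),(k10,(nat_lit 248)),(k11,(nat_lit 248)),(k1,(nat_lit 336))],[(k5,k96),(k9,(nat_lit 264))],
    [(k6,k96),(k2,(nat_lit 240))],[(k4,k96),(k3,(nat_lit 240))],[(k0,k96),(k7,k108)],[(k2,k96),(k6,k132)],[(k9,k96),
    (k5,k108)],[(k3,k96),(k4,k132)],[(k7,k96),(k0,(nat_lit 264))],[(k8,k96),(k10,k128),(k11,k128),(k1,(nat_lit 216))],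
    [(k8,k128),(k10,k160),(k11,k160),(k1,(nat_lit 248))],[(k8,k128),(k10,k160),(k11,k160),(k1,(nat_lit 248))]]
    [] k0
    [[k0,k1,k1,k1,k0,k0],[k0,k0,k1,k1,k0,k0],[k0,k0,k0,k0,k0,k2]]
    [.contra [y1,y1,z1],.contra [y1,y1,z1],.contra [z1]]),
    .old (.lp [k30,k42,k66,k30,k30,k40] [k18,k18,k12,k12,k0,k0,k18,k18,k18,k18,k13,k13] k0 [[k0,k0,k18],[],[k0,k0,k0,k0,
    k0,k24],[k0,k18],[k0,k0,k0,k24]] k120 k5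
    [[(k1,k30),(k8,k30),(k10,k35),(k11,k35)],[(k5,k30),(k9,k30)],[(k6,k36),(k2,k60)],[(k4,k30),(k3,k60)],[(k0,k30),
    (k7,k72)],[(k2,k30),(k6,k48)],[(k9,k30),(k5,k72)],[(k3,k36),(k4,k48)],[(k0,k30),(k7,k30)],[(k1,k30),(k8,k30),(k10,
    k35),(k11,k35)],[(k1,k35),(k8,k35),(k10,k40),(k11,k40)],[(k1,k35),(k8,k35),(k10,k40),(k11,k40)]]
    [] k0
    [[k1,k0,k0,k0,k1,k0],[k1,k0,k0,k0,k1,k1],[k0,k0,k0,k0,k0,k2]]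
    [.ref k1 k0 [(z1,[z1])],.ref k0 k0 [(z1,[z1])],.contra [z1]])]⟩

/-- classes `0 0 0 0 1 1`, types `N0 N1 N3 N2 B0 B1` -/
noncomputable def cU6_194 : CertX :=
  ⟨[k12,k13,k15,k14,k24,k25],[(false,k0,[k0,k1,k2,k3,k4,k5]),(true,k4,[k4,k3,k2,k1,k0,k5])],[[[([z1,z0,z1,z0,z1,z0],
    z2),([z0,z3,z0,z0,z0,z0],z2),([z0,z0,z0,z3,z0,z0],z2)],[([z1,z0,z1,z0,z1,z0],z2),([z0,z3,z0,z0,z0,z0],z2)],[([z1,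
    z0,z1,z0,z1,z0],z2)],[]]],
    [.old (.leafM k2 [k0,k1,k2,k3,k4,k5] [(z1,[z0,z1]),(z1,[z0,z0,z1]),(z1,[y3,y1,y1,z3])] []),
    .old (.lp [k12,k8,k6,k6,k6,k8] [k0,k0,k2,k2,k3,k3,k3,k3,k3,k3,k2,k2] k0 [] k24 k5
    [[(k8,k9),(k11,k10)],[(k5,k9),(k6,k9)],[(k9,k7),(k2,k8)],[(k4,k7),(k3,k8)],[(k7,k6),(k0,k9)],[(k9,k6),(k2,k7)],
    [(k5,k6),(k6,k6)],[(k7,k6),(k0,k9)],[(k4,k6),(k3,k7)],[(k10,k7),(k1,k9)],[(k10,k8),(k1,k10)],[(k8,k7),(k11,k8)]]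
    [] k0
    [[k0,k2,k0,k0,k0,k0],[k0,k0,k0,k2,k0,k0],[k0,k0,k0,k3,k0,k0],[k0,k0,k0,k0,k0,k2]]
    [.contra [z1],.contra [z1],.ref k0 k0 [(z1,[z0,z1]),(z1,[z0,z0,z1]),(z1,[z1])],.contra [z1]]),
    .old (.lp [k12,k8,k6,k6,k6,k8] [k0,k0,k2,k2,k3,k3,k3,k3,k3,k3,k2,k2] k0 [] k24 k5
    [[(k8,k9),(k11,k10)],[(k5,k9),(k6,k9)],[(k9,k7),(k2,k8)],[(k4,k7),(k3,k8)],[(k7,k6),(k0,k9)],[(k9,k6),(k2,k7)],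
    [(k5,k6),(k6,k6)],[(k7,k6),(k0,k9)],[(k4,k6),(k3,k7)],[(k10,k7),(k1,k9)],[(k10,k8),(k1,k10)],[(k8,k7),(k11,k8)]]
    [] k0
    [[k0,k2,k0,k0,k0,k0],[k0,k0,k0,k2,k0,k0],[k0,k0,k0,k3,k0,k0],[k0,k0,k0,k0,k0,k2]]
    [.contra [z1],.contra [z1],.ref k1 k1 [(z1,[z0,z1]),(z1,[z1])],.contra [z1]]),
    .old (.lp [k6,k8,k6,k12,k6,k8] [k3,k3,k2,k2,k3,k3,k0,k0,k3,k3,k2,k2] k0 [] k24 k5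
    [[(k8,k6),(k11,k7)],[(k5,k6),(k6,k9)],[(k9,k7),(k2,k8)],[(k4,k7),(k3,k8)],[(k0,k6),(k7,k9)],[(k9,k6),(k2,k7)],
    [(k5,k9),(k6,k12)],[(k0,k9),(k7,k12)],[(k4,k6),(k3,k7)],[(k1,k6),(k10,k7)],[(k1,k7),(k10,k8)],[(k8,k7),(k11,k8)]]
    [] k0
    [[k1,k0,k1,k0,k1,k0],[k0,k2,k0,k0,k0,k0],[k0,k0,k0,k0,k0,k2]]
    [.ref k2 k0 [(z1,[z1])],.contra [z1],.contra [z1]])]⟩

/-- classes `0 0 0 0 1 1`, types `N0 N1 N3 N2 C0 C0` -/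
noncomputable def cU6_195 : CertX :=
  ⟨[k12,k13,k15,k14,k20,k20],[(false,k0,[k0,k1,k2,k3,k4,k5])],[[[([z1,z0,z1,z0,z1,z0],z2),([z0,z3,z0,z0,z0,z0],z2),
    ([z0,z0,z0,z3,z0,z0],z2)],[([z1,z0,z1,z0,z1,z0],z2),([z0,z3,z0,z0,z0,z0],z2)],[([z1,z0,z1,z0,z1,z0],z2)],[]]],
    [.old (.leafM k2 [k0,k1,k2,k3,k4,k5] [(z1,[z0,z1]),(z1,[z0,z0,z1]),(z1,[y3,y1,y1,z3])] []),
    .old (.lp [k8,k8,k12,k6,k4,k8] [k2,k2,k2,k2,k0,k0,k3,k3,k4,k4,k2,k2] k0 [] k24 k5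
    [[(k8,k6),(k10,k8)],[(k6,k7),(k5,k10)],[(k9,k6),(k2,k8)],[(k3,k8),(k4,k10)],[(k7,k9),(k0,k10)],[(k9,k8),(k2,k10)],
    [(k6,k6),(k5,k9)],[(k7,k6),(k0,k7)],[(k3,k6),(k4,k8)],[(k1,k6),(k11,k6)],[(k8,k6),(k10,k8)],[(k1,k8),(k11,k8)]]
    [] k0
    [[k0,k2,k0,k0,k0,k0],[k0,k0,k0,k2,k0,k0],[k0,k0,k0,k3,k0,k0],[k0,k0,k0,k0,k0,k2]]
    [.contra [z1],.contra [z1],.ref k0 k0 [(z1,[z0,z1]),(z1,[z0,z0,z1]),(z1,[z1])],.contra [z1]]),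
    .old (.lp [k6,k6,k12,k8,k6,k8] [k3,k3,k3,k3,k0,k0,k2,k2,k3,k3,k2,k2] k0 [] k24 k5
    [[(k8,k6),(k10,k7)],[(k6,k7),(k5,k9)],[(k2,k6),(k9,k6)],[(k3,k6),(k4,k9)],[(k0,k9),(k7,k10)],[(k2,k9),(k9,k9)],
    [(k6,k8),(k5,k10)],[(k0,k7),(k7,k8)],[(k3,k6),(k4,k9)],[(k1,k6),(k11,k7)],[(k8,k7),(k10,k8)],[(k1,k7),(k11,k8)]]
    [] k0
    [[k0,k2,k0,k0,k0,k0],[k0,k3,k0,k0,k0,k0],[k0,k0,k0,k2,k0,k0],[k0,k0,k0,k0,k0,k2]]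
    [.contra [z1],.ref k1 k0 [(z1,[z0,z1]),(z1,[z1])],.contra [z1],.contra [z1]]),
    .old (.lp [k6,k12,k6,k8,k6,k8] [k3,k3,k0,k0,k3,k3,k2,k2,k3,k3,k2,k2] k0 [] k24 k5
    [[(k8,k6),(k10,k7)],[(k5,k6),(k6,k7)],[(k9,k9),(k2,k12)],[(k4,k9),(k3,k12)],[(k0,k6),(k7,k7)],[(k9,k6),(k2,k9)],
    [(k5,k7),(k6,k8)],[(k0,k7),(k7,k8)],[(k4,k6),(k3,k9)],[(k1,k6),(k11,k7)],[(k8,k7),(k10,k8)],[(k1,k7),(k11,k8)]]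
    [] k0
    [[k1,k0,k1,k0,k1,k0],[k0,k0,k0,k2,k0,k0],[k0,k0,k0,k0,k0,k2]]
    [.ref k2 k0 [(z1,[z1])],.contra [z1],.contra [z1]])]⟩

/-- classes `0 0 0 0 1 1`, types `N0 N1 N3 N2 C0 C2` -/
noncomputable def cU6_196 : CertX :=
  ⟨[k12,k13,k15,k14,k20,k22],[],[[[]]],
    [.old (.lp [k2,k6,k4,k4,k2,k4] [k2,k2,k0,k0,k1,k1,k1,k1,k2,k2,k1,k1] k0 [] k12 k5
    [[(k10,k3),(k11,k3)],[(k5,k3),(k6,k3)],[(k9,k4),(k2,k6)],[(k4,k5),(k3,k6)],[(k0,k3),(k7,k4)],[(k9,k3),(k2,k5)],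
    [(k5,k4),(k6,k4)],[(k0,k3),(k7,k4)],[(k4,k3),(k3,k4)],[(k10,k3),(k11,k3)],[(k1,k3),(k8,k3)],[(k1,k3),(k8,k3)]]
    [] k0
    [[k0,k0,k0,k2,k0,k0]]
    [.contra [z1]])]⟩

/-- classes `0 0 0 0 1 1`, types `N0 N1 N3 N2 N0 N1` -/
noncomputable def cU6_197 : CertX :=
  ⟨[k12,k13,k15,k14,k28,k29],[(false,k0,[k0,k1,k2,k3,k4,k5])],[[[([z1,z0,z1,z0,z1,z0],z2),([z0,z3,z0,z0,z0,z0],z2),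
    ([z0,z0,z0,z3,z0,z0],z2)],[([z1,z0,z1,z0,z1,z0],z2),([z0,z3,z0,z0,z0,z0],z2)],[([z1,z0,z1,z0,z1,z0],z2)],[]]],
    [.old (.leafM k2 [k0,k1,k2,k3,k4,k5] [(z1,[z0,z1]),(z1,[z0,z0,z1]),(z1,[y3,y1,y1,z3])] []),
    .old (.lp [k8,k8,k12,k6,k4,k8] [k2,k2,k2,k2,k0,k0,k3,k3,k4,k4,k2,k2] k0 [] k24 k5
    [[(k8,k6)],[(k6,k7),(k5,k10)],[(k9,k6),(k2,k8)],[(k3,k8),(k4,k10)],[(k7,k9),(k0,k10)],[(k9,k8),(k2,k10)],[(k6,k6),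
    (k5,k9)],[(k7,k6),(k0,k7)],[(k3,k6),(k4,k8)],[(k1,k6)],[(k10,k8)],[(k11,k8)]]
    [] k0
    [[k0,k2,k0,k0,k0,k0],[k0,k0,k0,k2,k0,k0],[k0,k0,k0,k3,k0,k0],[k0,k0,k0,k0,k0,k2]]
    [.contra [z1],.contra [z1],.ref k0 k0 [(z1,[z0,z1]),(z1,[z0,z0,z1]),(z1,[z1])],.contra [z1]]),
    .old (.lp [k6,k6,k12,k8,k6,k8] [k3,k3,k3,k3,k0,k0,k2,k2,k3,k3,k2,k2] k0 [] k24 k5
    [[(k8,k6)],[(k6,k7),(k5,k9)],[(k2,k6),(k9,k6)],[(k3,k6),(k4,k9)],[(k0,k9),(k7,k10)],[(k2,k9),(k9,k9)],[(k6,k8),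
    (k5,k10)],[(k0,k7),(k7,k8)],[(k3,k6),(k4,k9)],[(k1,k6)],[(k10,k8)],[(k11,k8)]]
    [] k0
    [[k0,k2,k0,k0,k0,k0],[k0,k3,k0,k0,k0,k0],[k0,k0,k0,k2,k0,k0],[k0,k0,k0,k0,k0,k2]]
    [.contra [z1],.ref k1 k0 [(z1,[z0,z1]),(z1,[z1])],.contra [z1],.contra [z1]]),
    .old (.lp [k6,k12,k6,k8,k6,k8] [k3,k3,k0,k0,k3,k3,k2,k2,k3,k3,k2,k2] k0 [] k24 k5
    [[(k8,k6)],[(k5,k6),(k6,k7)],[(k9,k9),(k2,k12)],[(k4,k9),(k3,k12)],[(k0,k6),(k7,k7)],[(k9,k6),(k2,k9)],[(k5,k7),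
    (k6,k8)],[(k0,k7),(k7,k8)],[(k4,k6),(k3,k9)],[(k1,k6)],[(k10,k8)],[(k11,k8)]]
    [] k0
    [[k1,k0,k1,k0,k1,k0],[k0,k0,k0,k2,k0,k0],[k0,k0,k0,k0,k0,k2]]
    [.ref k2 k0 [(z1,[z1])],.contra [z1],.contra [z1]])]⟩

/-- classes `0 0 0 0 1 1`, types `N0 N1 N3 N2 N0 N2` -/
noncomputable def cU6_198 : CertX :=
  ⟨[k12,k13,k15,k14,k28,k30],[],[[[]]],
    [.old (.lp [k2,k6,k4,k4,k2,k4] [k2,k2,k0,k0,k1,k1,k1,k1,k2,k2,k1,k1] k0 [] k12 k5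
    [[(k11,k3)],[(k5,k3),(k6,k3)],[(k9,k4),(k2,k6)],[(k4,k5),(k3,k6)],[(k0,k3),(k7,k4)],[(k9,k3),(k2,k5)],[(k5,k4),
    (k6,k4)],[(k0,k3),(k7,k4)],[(k4,k3),(k3,k4)],[(k10,k3)],[(k1,k3)],[(k8,k3)]]
    [] k0
    [[k0,k0,k0,k2,k0,k0]]
    [.contra [z1]])]⟩

/-- classes `0 0 0 0 1 1`, types `N0 N1 N3 N2 S0 S0` -/
noncomputable def cU6_199 : CertX :=
  ⟨[k12,k13,k15,k14,k16,k16],[(false,k0,[k0,k1,k2,k3,k4,k5]),(true,k4,[k4,k3,k2,k1,k0,k5])],[[[([z1,z0,z1,z0,z1,z0],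
    z2),([z0,z3,z0,z0,z0,z0],z2),([z0,z0,z0,z3,z0,z0],z2)],[([z3,z0,z3,z0,z3,z3],z8),([z0,z3,z0,z0,z0,z0],z2)],[([z3,
    z0,z3,z3,z3,z3],z10)],[]]],
    [.old (.leafM k2 [k0,k1,k2,k3,k4,k5] [(z1,[z0,z1]),(z1,[z0,z0,z1]),(z1,[y3,y1,y1,z3])] []),
    .old (.lp [k12,k8,k4,k8,k8,k6] [k0,k0,k2,k2,k4,k4,k2,k2,k2,k2,k3,k3] k0 [] k24 k5
    [[(k10,k9),(k11,k9),(k8,k10),(k1,k12)],[(k5,k8),(k6,k10)],[(k2,k8),(k9,k8)],[(k4,k6),(k3,k8)],[(k7,k6),(k0,k8)],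
    [(k2,k6),(k9,k6)],[(k5,k6),(k6,k8)],[(k7,k8),(k0,k10)],[(k4,k6),(k3,k8)],[(k10,k7),(k11,k7),(k8,k8),(k1,k10)],
    [(k10,k6),(k11,k6),(k8,k7),(k1,k9)],[(k10,k6),(k11,k6),(k8,k7),(k1,k9)]]
    [] k0
    [[k0,k2,k0,k0,k0,k0],[k0,k0,k0,k2,k0,k0],[k0,k0,k0,k0,k0,k2],[k0,k0,k0,k0,k0,k3]]
    [.contra [z1],.contra [z3,z2,z4,y6],.contra [z1],.ref k0 k0 [(z3,[y1,z1]),(z1,[z0,z0,z1]),(z1,[z0,y1,y1,z3])]]),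
    .old (.lp [k12,k8,k6,k6,k6,k8] [k0,k0,k2,k2,k3,k3,k3,k3,k3,k3,k2,k2] k0 [] k24 k5
    [[(k8,k9),(k10,k10),(k11,k10),(k1,k12)],[(k5,k9),(k6,k9)],[(k9,k7),(k2,k8)],[(k4,k7),(k3,k8)],[(k7,k6),(k0,k9)],
    [(k9,k6),(k2,k7)],[(k5,k6),(k6,k6)],[(k7,k6),(k0,k9)],[(k4,k6),(k3,k7)],[(k8,k6),(k10,k7),(k11,k7),(k1,k9)],[(k8,
    k7),(k10,k8),(k11,k8),(k1,k10)],[(k8,k7),(k10,k8),(k11,k8),(k1,k10)]]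
    [] k0
    [[k0,k2,k0,k0,k0,k0],[k0,k0,k0,k2,k0,k0],[k0,k0,k0,k3,k0,k0],[k0,k0,k0,k0,k0,k2]]
    [.contra [z1],.contra [z1],.ref k1 k0 [(z1,[y1,z1]),(z1,[z0,y1,z3])],.contra [z1]]),
    .old (.lp [k12,k8,k6,k6,k6,k8] [k0,k0,k2,k2,k3,k3,k3,k3,k3,k3,k2,k2] k0 [] k24 k5
    [[(k8,k9),(k10,k10),(k11,k10),(k1,k12)],[(k5,k9),(k6,k9)],[(k9,k7),(k2,k8)],[(k4,k7),(k3,k8)],[(k7,k6),(k0,k9)],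
    [(k9,k6),(k2,k7)],[(k5,k6),(k6,k6)],[(k7,k6),(k0,k9)],[(k4,k6),(k3,k7)],[(k8,k6),(k10,k7),(k11,k7),(k1,k9)],[(k8,
    k7),(k10,k8),(k11,k8),(k1,k10)],[(k8,k7),(k10,k8),(k11,k8),(k1,k10)]]
    [] k0
    [[k0,k2,k0,k0,k0,k0],[k0,k0,k0,k2,k0,k0],[k0,k0,k0,k3,k0,k0],[k0,k0,k0,k0,k0,k2]]
    [.contra [z1],.contra [z1],.ref k2 k1 [(z1,[y1,z3])],.contra [z1]])]⟩

/-- classes `0 0 0 0 1 1`, types `N0 N2 N0 N2 B0 B1` -/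
noncomputable def cU6_200 : CertX :=
  ⟨[k12,k14,k12,k14,k24,k25],[(false,k0,[k0,k1,k2,k3,k4,k5]),(true,k4,[k4,k3,k2,k1,k0,k5])],[[[([z1,z0,z0,z1,z1,z1],
    z2),([z0,z1,z0,y1,z0,z0],z0)],[([z1,z0,z0,z1,z1,z1],z2)],[([z1,z0,z0,z1,z1,z0],z2)],[]]],
    [.old (.tor k3 false k0 [(z1,[y1,y1,z1]),(z1,[y1,z0,z1]),(z1,[z1]),(z1,[z1,z1])]),
    .old (.lp [k30,k78,k30,k30,k30,k40] [k24,k24,k0,k0,k24,k24,k24,k24,k24,k24,k19,k19] k0 [[k0,k0,k0,k12],[],[k0,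
    k12]] k120 k5
    [[(k8,k30),(k11,k35)],[(k6,k30),(k2,k42)],[(k9,k54),(k5,k66)],[(k0,k42),(k4,k54)],[(k7,k30),(k3,k66)],[(k6,k30),
    (k2,k54)],[(k5,k30),(k9,k30)],[(k0,k30),(k4,k30)],[(k7,k30),(k3,k54)],[(k1,k30),(k10,k35)],[(k1,k35),(k10,k40)],
    [(k8,k35),(k11,k40)]]
    [] k0
    [[k1,k0,k0,k1,k1,k0],[k0,k0,k1,k1,k0,k0],[k0,k0,k0,k0,k0,k2]]
    [.contra [y1,z1],.ref k0 k0 [(z1,[z0,z1]),(z1,[y1,y1,z1])],.contra [z1]]),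
    .old (.lp [k6,k4,k2,k4,k2,k4] [k0,k0,k1,k1,k2,k2,k1,k1,k2,k2,k1,k1] k0 [] k12 k5
    [[(k8,k4),(k11,k5)],[(k2,k5),(k6,k5)],[(k5,k3),(k9,k3)],[(k4,k3),(k0,k5)],[(k3,k3),(k7,k3)],[(k2,k3),(k6,k3)],
    [(k5,k3),(k9,k3)],[(k4,k3),(k0,k5)],[(k3,k3),(k7,k3)],[(k10,k3),(k1,k4)],[(k10,k4),(k1,k5)],[(k8,k3),(k11,k4)]]
    [] k0
    [[k0,k1,k1,k0,k0,k0],[k0,k0,k1,k1,k0,k0],[k0,k0,k0,k0,k0,k2]]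
    [.contra [y1,y1,z1],.ref k1 k1 [(z1,[y1,z0,z1])],.contra [z1]]),
    .old (.lp [k94,k142,k40,k80,k40,k80] [k24,k24,k0,k0,k51,k51,k31,k31,k51,k51,k31,k31] k0 [[k0,k0,k0,k58],[k0,k0,k0,k0,
    k0,k0,k26],[k0,k58],[],[],[],[],[k26]] (nat_lit 240) k5
    [[(k8,k67),(k11,k87)],[(k2,k60),(k6,k113)],[(k9,k65),(k5,k149)],[(k0,k60),(k4,k91)],[(k7,k60),(k3,k149)],[(k6,
    k60),(k2,k91)],[(k5,k60),(k9,k60)],[(k4,k60),(k0,k113)],[(k7,k60),(k3,k65)],[(k10,k60),(k1,k67)],[(k10,k80),(k1,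
    k87)],[(k8,k60),(k11,k80)]]
    [] k0
    [[k1,k1,k0,k0,k1,k0],[k0,k0,k1,k1,k0,k0],[k0,k0,k0,k0,k0,k2]]
    [.ref k2 k1 [(z1,[z1])],.ref k1 k1 [(z1,[y1,z1])],.contra [z1]])]⟩

/-- classes `0 0 0 0 1 1`, types `N0 N2 N0 N2 C0 C0` -/
noncomputable def cU6_201 : CertX :=
  ⟨[k12,k14,k12,k14,k20,k20],[(false,k0,[k0,k1,k2,k3,k4,k5]),(true,k4,[k4,k3,k2,k1,k0,k5])],[[[([z1,z0,z0,z1,z1,z1],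
    z2),([z0,z1,z0,y1,z0,z0],z0)],[([z1,z0,z0,z1,z1,z1],z2)],[([z1,z0,z0,z1,z1,z0],z2)],[]]],
    [.old (.tor k7 false k0 [(z1,[y1,y1,z1]),(z1,[y1,z0,z1]),(z1,[z1]),(z1,[z1,z1])]),
    .old (.lp [k36,k66,k48,k24,k24,k40] [k15,k15,k0,k0,k9,k9,k21,k21,k21,k21,k13,k13] k0 [[k0,k0,k0,k6],[],[k0,k6],[],[k0,
    k0,k0,k0,k0,k0,k0,k6],[],[k0,k0,k0,k0,k0,k6]] k120 k5
    [[(k8,k30),(k10,k38)],[(k6,k30),(k2,k45)],[(k9,k45),(k5,k63)],[(k0,k45),(k4,k57)],[(k7,k36),(k3,k63)],[(k6,k30),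
    (k2,k57)],[(k9,k30),(k5,k36)],[(k0,k30),(k4,k30)],[(k7,k30),(k3,k45)],[(k1,k30),(k11,k32)],[(k8,k32),(k10,k40)],
    [(k1,k38),(k11,k40)]]
    [] k0
    [[k1,k0,k0,k1,k1,k0],[k0,k0,k1,k1,k0,k0],[k0,k0,k0,k0,k0,k2]]
    [.contra [y1,z1],.ref k0 k0 [(z1,[z0,z1]),(z1,[y1,y1,z1])],.contra [z1]]),
    .old (.lp [k4,k6,k0,k6,k2,k4] [k1,k1,k0,k0,k3,k3,k0,k0,k2,k2,k1,k1] k0 [] k12 k5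
    [[(k8,k3),(k10,k4)],[(k2,k5),(k6,k5)],[(k5,k3),(k9,k4)],[(k4,k3),(k0,k5)],[(k3,k3),(k7,k3)],[(k2,k3),(k6,k3)],
    [(k5,k3),(k9,k4)],[(k4,k3),(k0,k5)],[(k3,k4),(k7,k4)],[(k1,k3),(k11,k3)],[(k8,k3),(k10,k4)],[(k1,k4),(k11,k4)]]
    [] k0
    [[k0,k1,k1,k0,k0,k0],[k0,k0,k1,k1,k0,k0],[k0,k0,k0,k0,k0,k2]]
    [.contra [y1,y1,z1],.ref k1 k1 [(z1,[y1,z0,z1])],.contra [z1]]),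
    .old (.lp [k36,k66,k48,k24,k24,k40] [k15,k15,k0,k0,k9,k9,k21,k21,k21,k21,k13,k13] k0 [[k0,k0,k0,k6],[],[k0,k6],[],[k0,
    k0,k0,k0,k0,k0,k0,k6],[],[k0,k0,k0,k0,k0,k6]] k120 k5
    [[(k8,k30),(k10,k38)],[(k6,k30),(k2,k45)],[(k9,k45),(k5,k63)],[(k0,k45),(k4,k57)],[(k7,k36),(k3,k63)],[(k6,k30),
    (k2,k57)],[(k9,k30),(k5,k36)],[(k0,k30),(k4,k30)],[(k7,k30),(k3,k45)],[(k1,k30),(k11,k32)],[(k8,k32),(k10,k40)],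
    [(k1,k38),(k11,k40)]]
    [] k0
    [[k1,k0,k0,k1,k1,k0],[k0,k0,k1,k1,k0,k0],[k0,k0,k0,k0,k0,k2]]
    [.ref k2 k0 [(z1,[z1])],.ref k1 k1 [(z1,[y1,z1])],.contra [z1]])]⟩

/-- classes `0 0 0 0 1 1`, types `N0 N2 N0 N2 C0 C2` -/
noncomputable def cU6_202 : CertX :=
  ⟨[k12,k14,k12,k14,k20,k22],[(false,k0,[k0,k1,k2,k3,k4,k5])],[[[([z1,z0,z0,z1,z1,z1],z2),([z0,z1,z0,y1,z0,z0],z0)],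
    [([z1,z0,z0,z1,z1,z1],z2)],[]]],
    [.old (.tor k3 false k0 [(z1,[y1,y1,z1]),(z1,[y1,z0,z1]),(z1,[z1]),(z1,[z1,z1])]),
    .old (.lp [k0,k10,k0,k6,k0,k6] [k5,k5,k0,k0,k5,k5,k2,k2,k5,k5,k2,k2] k0 [[k0,k0,k0,k2],[],[k0,k2]] k12 k5
    [[(k10,k3),(k11,k3)],[(k2,k3),(k6,k3)],[(k9,k5),(k5,k7)],[(k0,k3),(k4,k5)],[(k7,k3),(k3,k7)],[(k6,k3),(k2,k5)],
    [(k5,k3),(k9,k3)],[(k0,k3),(k4,k3)],[(k7,k3),(k3,k5)],[(k10,k3),(k11,k3)],[(k1,k3),(k8,k3)],[(k1,k3),(k8,k3)]]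
    [] k0
    [[k0,k0,k1,k1,k0,k0]]
    [.ref k0 k0 [(z1,[z0,z1]),(z1,[y1,y1,z1])]]),
    .old (.lp [k0,k6,k4,k6,k0,k6] [k3,k3,k0,k0,k1,k1,k0,k0,k3,k3,k0,k0] k0 [[],[],[k0,k0,k0,k0,k0,k2],[],[k0,k0,k0,
    k2]] k12 k5
    [[(k10,k3),(k11,k3)],[(k2,k3),(k6,k3)],[(k9,k3),(k5,k5)],[(k0,k3),(k4,k3)],[(k3,k5),(k7,k7)],[(k2,k3),(k6,k5)],
    [(k9,k3),(k5,k7)],[(k0,k3),(k4,k5)],[(k3,k3),(k7,k3)],[(k10,k3),(k11,k3)],[(k1,k3),(k8,k3)],[(k1,k3),(k8,k3)]]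
    [] k0
    [[k0,k1,k1,k0,k0,k0]]
    [.ref k1 k0 [(z1,[y1,z1])]])]⟩

/-- classes `0 0 0 0 1 1`, types `N0 N2 N0 N2 N0 N1` -/
noncomputable def cU6_203 : CertX :=
  ⟨[k12,k14,k12,k14,k28,k29],[(false,k0,[k0,k1,k2,k3,k4,k5]),(true,k4,[k4,k3,k2,k1,k0,k5])],[[[([z1,z0,z0,z1,z1,z1],
    z2),([z0,z1,z0,y1,z0,z0],z0)],[([z1,z0,z0,z1,z1,z1],z2)],[([z1,z0,z0,z1,z1,z0],z2)],[]]],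
    [.old (.lp [k6,k6,k24,k6,k6,k10] [k9,k9,k9,k9,k0,k0,k9,k9,k9,k9,k7,k7] k0 [] k30 k6
    [[(k8,k6)],[(k2,k6),(k6,k6)],[(k9,k6),(k5,k15)],[(k0,k6),(k4,k15)],[(k3,k15),(k7,k15)],[(k2,k15),(k6,k15)],[(k9,
    k6),(k5,k15)],[(k0,k6),(k4,k15)],[(k3,k6),(k7,k6)],[(k1,k6)],[(k10,k10)],[(k11,k10)]]
    [] k0
    [[k1,k1,k0,k0,k1,k0],[k1,k0,k0,k1,k1,k0],[k0,k0,k0,k0,k0,k2]]
    [.contra [y1,z1,z1],.contra [y1,z1],.contra [z1]]),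
    .old (.lp [k36,k66,k48,k24,k24,k40] [k15,k15,k0,k0,k9,k9,k21,k21,k21,k21,k13,k13] k0 [[k0,k0,k0,k6],[],[k0,k6],[],[k0,
    k0,k0,k0,k0,k0,k0,k6],[],[k0,k0,k0,k0,k0,k6]] k120 k5
    [[(k8,k30)],[(k6,k30),(k2,k45)],[(k9,k45),(k5,k63)],[(k0,k45),(k4,k57)],[(k7,k36),(k3,k63)],[(k6,k30),(k2,k57)],
    [(k9,k30),(k5,k36)],[(k0,k30),(k4,k30)],[(k7,k30),(k3,k45)],[(k1,k30)],[(k10,k40)],[(k11,k40)]]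
    [] k0
    [[k1,k0,k0,k1,k1,k0],[k0,k0,k1,k1,k0,k0],[k0,k0,k0,k0,k0,k2]]
    [.contra [y1,z1],.ref k0 k0 [(z1,[z0,z1]),(z1,[y1,y1,z1])],.contra [z1]]),
    .old (.lp [k6,k6,k0,k6,k0,k4] [k0,k0,k0,k0,k3,k3,k0,k0,k3,k3,k1,k1] k0 [] k12 k5
    [[(k8,k3)],[(k2,k6),(k6,k6)],[(k5,k3),(k9,k3)],[(k4,k3),(k0,k6)],[(k3,k3),(k7,k3)],[(k2,k3),(k6,k3)],[(k5,k3),(k9,
    k3)],[(k4,k3),(k0,k6)],[(k3,k3),(k7,k3)],[(k1,k3)],[(k10,k4)],[(k11,k4)]]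
    [] k0
    [[k0,k1,k1,k0,k0,k0],[k0,k0,k1,k1,k0,k0],[k0,k0,k0,k0,k0,k2]]
    [.contra [y1,y1,z1],.ref k1 k1 [(z1,[y1,z0,z1])],.contra [z1]]),
    .old (.lp [k36,k66,k48,k24,k24,k40] [k15,k15,k0,k0,k9,k9,k21,k21,k21,k21,k13,k13] k0 [[k0,k0,k0,k6],[],[k0,k6],[],[k0,
    k0,k0,k0,k0,k0,k0,k6],[],[k0,k0,k0,k0,k0,k6]] k120 k5
    [[(k8,k30)],[(k6,k30),(k2,k45)],[(k9,k45),(k5,k63)],[(k0,k45),(k4,k57)],[(k7,k36),(k3,k63)],[(k6,k30),(k2,k57)],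
    [(k9,k30),(k5,k36)],[(k0,k30),(k4,k30)],[(k7,k30),(k3,k45)],[(k1,k30)],[(k10,k40)],[(k11,k40)]]
    [] k0
    [[k1,k0,k0,k1,k1,k0],[k0,k0,k1,k1,k0,k0],[k0,k0,k0,k0,k0,k2]]
    [.ref k2 k0 [(z1,[z1])],.ref k1 k1 [(z1,[y1,z1])],.contra [z1]])]⟩

/-- classes `0 0 0 0 1 1`, types `N0 N2 N0 N2 N0 N2` -/
noncomputable def cU6_204 : CertX :=
  ⟨[k12,k14,k12,k14,k28,k30],[(false,k0,[k0,k1,k2,k3,k4,k5])],[[[([z1,z0,z0,z1,z1,z1],z2),([z0,z1,z0,y1,z0,z0],z0)],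
    [([z1,z0,z0,z1,z1,z1],z2)],[]]],
    [.old (.tor k3 false k0 [(z1,[y1,y1,z1]),(z1,[y1,z0,z1]),(z1,[z1]),(z1,[z1,z1])]),
    .old (.lp [k0,k10,k0,k6,k0,k6] [k5,k5,k0,k0,k5,k5,k2,k2,k5,k5,k2,k2] k0 [[k0,k0,k0,k2],[],[k0,k2]] k12 k5
    [[(k11,k3)],[(k2,k3),(k6,k3)],[(k9,k5),(k5,k7)],[(k0,k3),(k4,k5)],[(k7,k3),(k3,k7)],[(k6,k3),(k2,k5)],[(k5,k3),
    (k9,k3)],[(k0,k3),(k4,k3)],[(k7,k3),(k3,k5)],[(k10,k3)],[(k1,k3)],[(k8,k3)]]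
    [] k0
    [[k0,k0,k1,k1,k0,k0]]
    [.ref k0 k0 [(z1,[z0,z1]),(z1,[y1,y1,z1])]]),
    .old (.lp [k0,k6,k4,k6,k0,k6] [k3,k3,k0,k0,k1,k1,k0,k0,k3,k3,k0,k0] k0 [[],[],[k0,k0,k0,k0,k0,k2],[],[k0,k0,k0,
    k2]] k12 k5
    [[(k11,k3)],[(k2,k3),(k6,k3)],[(k9,k3),(k5,k5)],[(k0,k3),(k4,k3)],[(k3,k5),(k7,k7)],[(k2,k3),(k6,k5)],[(k9,k3),
    (k5,k7)],[(k0,k3),(k4,k5)],[(k3,k3),(k7,k3)],[(k10,k3)],[(k1,k3)],[(k8,k3)]]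
    [] k0
    [[k0,k1,k1,k0,k0,k0]]
    [.ref k1 k0 [(z1,[y1,z1])]])]⟩

/-- classes `0 0 0 0 1 1`, types `N0 N2 N0 N2 S0 S0` -/
noncomputable def cU6_205 : CertX :=
  ⟨[k12,k14,k12,k14,k16,k16],[(false,k0,[k0,k1,k2,k3,k4,k5]),(true,k4,[k4,k3,k2,k1,k0,k5])],[[[([z1,z0,z0,z1,z1,z1],
    z2),([z0,z1,z0,y1,z0,z0],z0)],[([z1,z0,z0,z1,z1,z1],z2)],[([z1,z0,z0,z1,z1,z0],z2)],[]]],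
    [.old (.tor k3 false k0 [(z1,[y1,y1,z1]),(z1,[y1,z0,z1]),(z1,[z1]),(z1,[z1,z1])]),
    .old (.lp [k30,k72,k36,k30,k30,k40] [k21,k21,k0,k0,k18,k18,k21,k21,k21,k21,k16,k16] k0 [[k0,k0,k0,k12],[],[k0,
    k12]] k120 k5
    [[(k1,k30),(k8,k30),(k10,k35),(k11,k35)],[(k6,k30),(k2,k39)],[(k9,k51),(k5,k66)],[(k0,k39),(k4,k54)],[(k7,k33),
    (k3,k66)],[(k6,k33),(k2,k54)],[(k9,k30),(k5,k33)],[(k0,k30),(k4,k33)],[(k7,k30),(k3,k51)],[(k1,k30),(k8,k30),(k10,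
    k35),(k11,k35)],[(k1,k35),(k8,k35),(k10,k40),(k11,k40)],[(k1,k35),(k8,k35),(k10,k40),(k11,k40)]]
    [] k0
    [[k1,k0,k0,k1,k1,k0],[k0,k0,k1,k1,k0,k0],[k0,k0,k0,k0,k0,k2]]
    [.contra [y1,z1],.ref k0 k0 [(z1,[z0,z1]),(z1,[y1,y1,z1])],.contra [z1]]),
    .old (.lp [k12,k6,k6,k6,k6,k8] [k0,k0,k3,k3,k3,k3,k3,k3,k3,k3,k2,k2] k0 [] k24 k5
    [[(k8,k9),(k10,k10),(k11,k10),(k1,k12)],[(k2,k9),(k6,k9)],[(k5,k6),(k9,k6)],[(k4,k6),(k0,k9)],[(k3,k6),(k7,k6)],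
    [(k2,k6),(k6,k6)],[(k5,k6),(k9,k6)],[(k4,k6),(k0,k9)],[(k3,k6),(k7,k6)],[(k8,k6),(k10,k7),(k11,k7),(k1,k9)],[(k8,
    k7),(k10,k8),(k11,k8),(k1,k10)],[(k8,k7),(k10,k8),(k11,k8),(k1,k10)]]
    [] k0
    [[k0,k1,k1,k0,k0,k0],[k0,k0,k1,k1,k0,k0],[k0,k0,k0,k0,k0,k2]]
    [.contra [y1,y1,z1],.ref k1 k1 [(z1,[y1,z0,z1])],.contra [z1]]),
    .old (.lp [k30,k26,k50,k62,k30,k40] [k16,k16,k18,k18,k6,k6,k0,k0,k16,k16,k11,k11] k0 [[k0,k0,k0,k0,k0,k0,k0,k2],[k0,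
    k0,k2],[k0,k0,k0,k0,k0,k8],[k2],[k0,k0,k0,k8],[],[k0,k2]] k120 k5
    [[(k1,k30),(k8,k30),(k10,k35),(k11,k35)],[(k2,k30),(k6,k44)],[(k9,k30),(k5,k36)],[(k0,k30),(k4,k30)],[(k3,k36),
    (k7,k64)],[(k2,k30),(k6,k56)],[(k9,k46),(k5,k64)],[(k0,k44),(k4,k56)],[(k3,k30),(k7,k46)],[(k1,k30),(k8,k30),(k10,
    k35),(k11,k35)],[(k1,k35),(k8,k35),(k10,k40),(k11,k40)],[(k1,k35),(k8,k35),(k10,k40),(k11,k40)]]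
    [] k0
    [[k1,k1,k0,k0,k1,k0],[k0,k1,k1,k0,k0,k0],[k0,k0,k0,k0,k0,k2]]
    [.ref k2 k1 [(z1,[z1])],.ref k1 k0 [(z1,[y1,z1])],.contra [z1]])]⟩

/-- classes `0 0 0 0 1 1`, types `N0 N2 N1 N3 B0 B1` -/
noncomputable def cU6_206 : CertX :=
  ⟨[k12,k14,k13,k15,k24,k25],[],[[[]]],
    [.old (.lp [k2,k2,k2,k2,k2,k4] [k1,k1,k1,k1,k1,k1,k1,k1,k1,k1,k0,k0] k0 [] k8 k5
    [[(k8,k2),(k11,k3)],[(k2,k2),(k7,k2)],[(k4,k2),(k5,k2)],[(k0,k2),(k9,k2)],[(k3,k2),(k6,k2)],[(k3,k2),(k6,k2)],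
    [(k0,k2),(k9,k2)],[(k4,k2),(k5,k2)],[(k2,k2),(k7,k2)],[(k1,k2),(k10,k3)],[(k1,k3),(k10,k4)],[(k8,k3),(k11,k4)]]
    [] k0
    []
    [])]⟩

/-- classes `0 0 0 0 1 1`, types `N0 N2 N1 N3 C0 C0` -/
noncomputable def cU6_207 : CertX :=
  ⟨[k12,k14,k13,k15,k20,k20],[],[[[]]],
    [.old (.lp [k2,k2,k2,k2,k2,k4] [k1,k1,k1,k1,k1,k1,k1,k1,k1,k1,k0,k0] k0 [] k8 k5
    [[(k8,k2),(k10,k3)],[(k2,k2),(k7,k2)],[(k4,k2),(k5,k2)],[(k0,k2),(k9,k2)],[(k3,k2),(k6,k2)],[(k3,k2),(k6,k2)],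
    [(k0,k2),(k9,k2)],[(k4,k2),(k5,k2)],[(k2,k2),(k7,k2)],[(k1,k2),(k11,k3)],[(k8,k3),(k10,k4)],[(k1,k3),(k11,k4)]]
    [] k0
    []
    [])]⟩

/-- classes `0 0 0 0 1 1`, types `N0 N2 N1 N3 C0 C2` -/
noncomputable def cU6_208 : CertX :=
  ⟨[k12,k14,k13,k15,k20,k22],[],[[[]]],
    [.old (.lp [k0,k2,k0,k2,k0,k2] [k1,k1,k0,k0,k1,k1,k0,k0,k1,k1,k0,k0] k0 [] k4 k5
    [[(k10,k1),(k11,k1)],[(k2,k1),(k7,k1)],[(k4,k1),(k5,k1)],[(k0,k1),(k9,k1)],[(k3,k1),(k6,k1)],[(k3,k1),(k6,k1)],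
    [(k0,k1),(k9,k1)],[(k4,k1),(k5,k1)],[(k2,k1),(k7,k1)],[(k10,k1),(k11,k1)],[(k1,k1),(k8,k1)],[(k1,k1),(k8,k1)]]
    [] k0
    []
    [])]⟩

/-- classes `0 0 0 0 1 1`, types `N0 N2 N1 N3 N0 N1` -/
noncomputable def cU6_209 : CertX :=
  ⟨[k12,k14,k13,k15,k28,k29],[],[[[]]],
    [.old (.lp [k2,k2,k2,k2,k2,k4] [k1,k1,k1,k1,k1,k1,k1,k1,k1,k1,k0,k0] k0 [] k8 k5
    [[(k8,k2)],[(k2,k2),(k7,k2)],[(k4,k2),(k5,k2)],[(k0,k2),(k9,k2)],[(k3,k2),(k6,k2)],[(k3,k2),(k6,k2)],[(k0,k2),(k9,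
    k2)],[(k4,k2),(k5,k2)],[(k2,k2),(k7,k2)],[(k1,k2)],[(k10,k4)],[(k11,k4)]]
    [] k0
    []
    [])]⟩

/-- classes `0 0 0 0 1 1`, types `N0 N2 N1 N3 N0 N2` -/
noncomputable def cU6_210 : CertX :=
  ⟨[k12,k14,k13,k15,k28,k30],[],[[[]]],
    [.old (.lp [k0,k2,k0,k2,k0,k2] [k1,k1,k0,k0,k1,k1,k0,k0,k1,k1,k0,k0] k0 [] k4 k5
    [[(k11,k1)],[(k2,k1),(k7,k1)],[(k4,k1),(k5,k1)],[(k0,k1),(k9,k1)],[(k3,k1),(k6,k1)],[(k3,k1),(k6,k1)],[(k0,k1),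
    (k9,k1)],[(k4,k1),(k5,k1)],[(k2,k1),(k7,k1)],[(k10,k1)],[(k1,k1)],[(k8,k1)]]
    [] k0
    []
    [])]⟩

/-- classes `0 0 0 0 1 1`, types `N0 N2 N1 N3 S0 S0` -/
noncomputable def cU6_211 : CertX :=
  ⟨[k12,k14,k13,k15,k16,k16],[],[[[]]],
    [.old (.lp [k2,k2,k2,k2,k2,k4] [k1,k1,k1,k1,k1,k1,k1,k1,k1,k1,k0,k0] k0 [] k8 k5
    [[(k1,k2),(k8,k2),(k10,k3),(k11,k3)],[(k2,k2),(k7,k2)],[(k4,k2),(k5,k2)],[(k0,k2),(k9,k2)],[(k3,k2),(k6,k2)],[(k3,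
    k2),(k6,k2)],[(k0,k2),(k9,k2)],[(k4,k2),(k5,k2)],[(k2,k2),(k7,k2)],[(k1,k2),(k8,k2),(k10,k3),(k11,k3)],[(k1,k3),
    (k8,k3),(k10,k4),(k11,k4)],[(k1,k3),(k8,k3),(k10,k4),(k11,k4)]]
    [] k0
    []
    [])]⟩

/-- classes `0 0 0 0 1 1`, types `N0 N2 N2 N0 B0 B1` -/
noncomputable def cU6_212 : CertX :=
  ⟨[k12,k14,k14,k12,k24,k25],[(false,k0,[k0,k1,k2,k3,k4,k5])],[[[([z1,z0,z1,z0,z1,z1],z2)],[]]],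
    [.old (.leafM k3 [k0,k2,k4,k5] [] [(k1,k3,z1,[y1,z1]),(k3,k1,z1,[y1,z1])]),
    .old (.lp [k12,k6,k6,k6,k6,k8] [k0,k0,k3,k3,k3,k3,k3,k3,k3,k3,k2,k2] k0 [] k24 k5
    [[(k8,k9),(k11,k10)],[(k2,k9),(k4,k9)],[(k5,k6),(k7,k6)],[(k6,k6),(k0,k9)],[(k3,k6),(k9,k6)],[(k6,k6),(k0,k9)],
    [(k3,k6),(k9,k6)],[(k2,k6),(k4,k6)],[(k5,k6),(k7,k6)],[(k10,k7),(k1,k9)],[(k10,k8),(k1,k10)],[(k8,k7),(k11,k8)]]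
    [] k0
    [[k0,k1,k0,k1,k0,k0],[k0,k0,k0,k0,k0,k2]]
    [.ref k0 k0 [(z1,[y1,z1])],.contra [z1]])]⟩

/-- classes `0 0 0 0 1 1`, types `N0 N2 N2 N0 C0 C0` -/
noncomputable def cU6_213 : CertX :=
  ⟨[k12,k14,k14,k12,k20,k20],[(false,k0,[k0,k1,k2,k3,k4,k5])],[[[([z1,z0,z1,z0,z1,z1],z2)],[]]],
    [.old (.leafM k1 [k4,k5,k0,k2] [] [(k1,k3,z1,[y1,z1]),(k3,k1,z1,[y1,z1])]),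
    .old (.lp [k4,k10,k10,k2,k10,k8] [k3,k3,k0,k0,k0,k0,k4,k4,k0,k0,k1,k1] k0 [] k24 k5
    [[(k10,k6),(k8,k7)],[(k2,k7),(k4,k7)],[(k7,k6),(k5,k10)],[(k6,k6),(k0,k7)],[(k3,k10),(k9,k10)],[(k6,k6),(k0,k7)],
    [(k3,k6),(k9,k6)],[(k2,k6),(k4,k6)],[(k7,k6),(k5,k10)],[(k1,k7),(k11,k9)],[(k10,k8),(k8,k9)],[(k1,k6),(k11,k8)]]
    [] k0
    [[k0,k1,k0,k1,k0,k0],[k0,k0,k0,k0,k0,k2]]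
    [.ref k0 k0 [(z1,[y1,z1])],.contra [z1]])]⟩

/-- classes `0 0 0 0 1 1`, types `N0 N2 N2 N0 C0 C2` -/
noncomputable def cU6_214 : CertX :=
  ⟨[k12,k14,k14,k12,k20,k22],[(false,k0,[k0,k1,k2,k3,k4,k5])],[[[([z1,z0,z1,z0,z1,z1],z2)],[]]],
    [.old (.leafM k1 [k4,k5,k0,k2] [] [(k1,k3,z1,[y1,z1]),(k3,k1,z1,[y1,z1])]),
    .old (.lp [k2,k2,k2,k2,k2,k2] [k0,k0,k0,k0,k0,k0,k0,k0,k0,k0,k0,k0] k0 [] k8 k5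
    [[(k10,k2),(k11,k2)],[(k2,k2),(k4,k2)],[(k5,k2),(k7,k2)],[(k0,k2),(k6,k2)],[(k3,k2),(k9,k2)],[(k0,k2),(k6,k2)],
    [(k3,k2),(k9,k2)],[(k2,k2),(k4,k2)],[(k5,k2),(k7,k2)],[(k10,k2),(k11,k2)],[(k1,k2),(k8,k2)],[(k1,k2),(k8,k2)]]
    [] k0
    [[k0,k1,k0,k1,k0,k0]]
    [.ref k0 k0 [(z1,[y1,z1])]])]⟩

/-- classes `0 0 0 0 1 1`, types `N0 N2 N2 N0 N0 N1` -/
noncomputable def cU6_215 : CertX :=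
  ⟨[k12,k14,k14,k12,k28,k29],[(false,k0,[k0,k1,k2,k3,k4,k5])],[[[([z1,z0,z1,z0,z1,z1],z2)],[]]],
    [.old (.lp [k6,k24,k6,k6,k6,k10] [k9,k9,k0,k0,k9,k9,k9,k9,k9,k9,k7,k7] k0 [] k30 k6
    [[(k8,k6)],[(k4,k6),(k2,k15)],[(k5,k15),(k7,k15)],[(k0,k15),(k6,k15)],[(k9,k6),(k3,k15)],[(k0,k6),(k6,k6)],[(k9,
    k6),(k3,k15)],[(k4,k6),(k2,k15)],[(k5,k6),(k7,k6)],[(k1,k6)],[(k10,k10)],[(k11,k10)]]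
    [] k0
    [[k1,k0,k1,k0,k1,k0],[k0,k0,k0,k0,k0,k2]]
    [.contra [y1,z1],.contra [z1]]),
    .old (.lp [k0,k6,k6,k0,k6,k4] [k3,k3,k0,k0,k0,k0,k3,k3,k0,k0,k1,k1] k0 [] k12 k5
    [[(k8,k3)],[(k2,k3),(k4,k3)],[(k7,k3),(k5,k6)],[(k0,k3),(k6,k3)],[(k3,k6),(k9,k6)],[(k0,k3),(k6,k3)],[(k3,k3),(k9,
    k3)],[(k2,k3),(k4,k3)],[(k7,k3),(k5,k6)],[(k1,k3)],[(k10,k4)],[(k11,k4)]]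
    [] k0
    [[k0,k1,k0,k1,k0,k0],[k0,k0,k0,k0,k0,k2]]
    [.ref k0 k0 [(z1,[y1,z1])],.contra [z1]])]⟩

/-- classes `0 0 0 0 1 1`, types `N0 N2 N2 N0 N0 N2` -/
noncomputable def cU6_216 : CertX :=
  ⟨[k12,k14,k14,k12,k28,k30],[(false,k0,[k0,k1,k2,k3,k4,k5])],[[[([z1,z0,z1,z0,z1,z1],z2)],[]]],
    [.old (.leafM k3 [k0,k2,k4,k5] [] [(k1,k3,z1,[y1,z1]),(k3,k1,z1,[y1,z1])]),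
    .old (.lp [k2,k2,k2,k2,k2,k2] [k0,k0,k0,k0,k0,k0,k0,k0,k0,k0,k0,k0] k0 [] k8 k5
    [[(k11,k2)],[(k2,k2),(k4,k2)],[(k5,k2),(k7,k2)],[(k0,k2),(k6,k2)],[(k3,k2),(k9,k2)],[(k0,k2),(k6,k2)],[(k3,k2),
    (k9,k2)],[(k2,k2),(k4,k2)],[(k5,k2),(k7,k2)],[(k10,k2)],[(k1,k2)],[(k8,k2)]]
    [] k0
    [[k0,k1,k0,k1,k0,k0]]
    [.ref k0 k0 [(z1,[y1,z1])]])]⟩

/-- classes `0 0 0 0 1 1`, types `N0 N2 N2 N0 S0 S0` -/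
noncomputable def cU6_217 : CertX :=
  ⟨[k12,k14,k14,k12,k16,k16],[(false,k0,[k0,k1,k2,k3,k4,k5])],[[[([z1,z0,z1,z0,z1,z1],z2)],[]]],
    [.old (.leafM k1 [k4,k5,k0,k2] [] [(k1,k3,z1,[y1,z1]),(k3,k1,z1,[y1,z1])]),
    .old (.lp [k18,k6,k18,k18,k12,k16] [k0,k0,k6,k6,k0,k0,k0,k0,k3,k3,k1,k1] k0 [] k48 k5
    [[(k8,k15),(k10,k17),(k11,k17),(k1,k18)],[(k2,k12),(k4,k18)],[(k5,k12),(k7,k12)],[(k0,k12),(k6,k12)],[(k3,k12),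
    (k9,k15)],[(k0,k18),(k6,k18)],[(k3,k12),(k9,k15)],[(k2,k12),(k4,k18)],[(k5,k15),(k7,k15)],[(k8,k12),(k10,k14),
    (k11,k14),(k1,k15)],[(k8,k14),(k10,k16),(k11,k16),(k1,k17)],[(k8,k14),(k10,k16),(k11,k16),(k1,k17)]]
    [] k0
    [[k0,k1,k0,k1,k0,k0],[k0,k0,k0,k0,k0,k2]]
    [.ref k0 k0 [(z1,[y1,z1])],.contra [z1]])]⟩

/-- classes `0 0 0 0 1 1`, types `N0 N2 N3 N1 B0 B1` -/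
noncomputable def cU6_218 : CertX :=
  ⟨[k12,k14,k15,k13,k24,k25],[(false,k0,[k0,k1,k2,k3,k4,k5])],[[[([z3,z0,z0,z0,z3,z0],z2),([z0,z1,z0,z1,z0,z0],z2),
    ([z0,z0,z3,z0,z0,z0],z2)],[([z1,z0,z0,z0,z1,z0],z1),([z0,z1,z0,z1,z0,z0],z2),([z0,z0,z3,z0,z0,z0],z2)],[([z3,z0,
    z0,z0,z3,z3],z4),([z0,z1,z0,z1,z0,z0],z2)],[([z1,z0,z0,z0,z1,z0],z1),([z0,z1,z0,z1,z0,z0],z2),([z0,z0,z3,z0,z0,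
    z0],z1)],[([z1,z0,z0,z0,z1,z0],z1),([z0,z1,z0,z1,z0,z0],z2),([z0,z0,z2,z0,z0,z0],z1)],[([z1,z0,z0,z0,z1,z0],z1),
    ([z0,z1,z0,z1,z0,z0],z2)],[([z1,z0,z1,z0,z1,z1],z2)],[([z1,z0,z0,z0,z1,z0],z2),([z0,z3,z0,z3,z0,z0],z2),([z0,z0,
    z3,z0,z0,z0],z2)],[([z1,z0,z0,z0,z1,z0],z2),([z0,z1,z0,z1,z0,z0],z1),([z0,z0,z3,z0,z0,z0],z1)],[([z1,z0,z0,z0,z1,
    z0],z2),([z0,z3,z3,z3,z0,z0],z4)],[([z1,z0,z0,z0,z1,z0],z2),([z0,z1,z0,z1,z0,z0],z1),([z0,z0,z3,z0,z0,z0],z2)],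
    [([z1,z0,z0,z0,z1,z0],z2),([z0,z1,z0,z1,z0,z0],z1),([z0,z0,z2,z0,z0,z0],z1)]],[[([z1,z0,z0,z0,z1,z0],z2),([z0,z1,
    z0,z1,z0,z0],z1)],[([z1,z0,z0,z0,z1,z0],z2)],[]]],
    [.old (.leafM k10 [k0,k2,k4,k5] [(z1,[z0,z0,z1]),(z1,[y1,y3,y1,z3]),(z1,[z1])] [(k1,k3,z1,[z0,z1]),(k3,k1,z1,[z0,z1])]),
    .old (.leafM k11 [k0,k2,k4,k5] [(z1,[z0,z0,z1]),(z1,[y3,y3,y1,z3]),(z1,[z1])] [(k1,k3,z1,[z0,z1]),(k3,k1,z1,[z0,z1])]),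
    .old (.lp [k18,k102,k40,k18,k30,k30] [k42,k42,k0,k0,k31,k31,k42,k42,k36,k36,k36,k36] k0 [] k120 k6
    [[(k8,k24),(k11,k24)],[(k9,k24),(k2,k60)],[(k6,k60),(k5,k71)],[(k0,k60),(k7,k60)],[(k4,k40),(k3,k71)],[(k6,k29),
    (k5,k40)],[(k9,k24),(k2,k60)],[(k4,k29),(k3,k60)],[(k0,k24),(k7,k24)],[(k1,k24),(k10,k30)],[(k1,k24),(k10,k30)],
    [(k8,k30),(k11,k30)]]
    [] k0
    [[k1,k0,k0,k0,k1,k0],[k2,k0,k0,k0,k2,k0],[k1,k0,k0,k0,k1,k1],[k1,k0,k0,k0,k1,k2],[k0,k0,k2,k0,k0,k0],[k0,k0,k0,k0,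
    k0,k2],[k0,k0,k0,k0,k0,k3]]
    [.contra [y1,z0,y1,z1],.ref k1 k0 [(z2,[z1]),(z1,[z0,z0,z1]),(z1,[z0,y1,y3,z3])],.contra [z1,y1,y2,z2],
    .ref k0 k0 [(z1,[y3,z2]),(z1,[z0,z0,z1]),(z1,[z0,y1,y3,z3])],.contra [z1],.contra [z1],.ref k0 k0 [(z1,[y1,z1]),
    (z1,[z0,z0,z1]),(z1,[z0,y1,y3,z3])]]),
    .old (.leafM k11 [k4,k5,k0,k2] [(z1,[y3,y3,y1,z3]),(z1,[z0,z0,z1]),(z1,[z1])] [(k1,k3,z1,[z0,z1]),(k3,k1,z1,[z0,z1])]),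
    .old (.leafM k12 [k0,k2,k4,k5] [(z1,[z0,z0,z1]),(z1,[y2,y2,y1,z2]),(z1,[z1])] [(k1,k3,z1,[z0,z1]),(k3,k1,z1,[z0,z1])]),
    .old (.lp [k12,k32,k8,k8,k8,k10] [k10,k10,k0,k0,k12,k12,k12,k12,k12,k12,k11,k11] k0 [] k40 k6
    [[(k8,k10),(k11,k11)],[(k9,k10),(k2,k22)],[(k5,k20),(k6,k20)],[(k7,k20),(k0,k22)],[(k4,k8),(k3,k20)],[(k5,k8),(k6,
    k8)],[(k9,k8),(k2,k20)],[(k4,k8),(k3,k20)],[(k7,k8),(k0,k10)],[(k10,k9),(k1,k10)],[(k10,k10),(k1,k11)],[(k8,k9),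
    (k11,k10)]]
    [] k0
    [[k1,k0,k0,k0,k1,k0],[k1,k0,k0,k0,k1,k1],[k0,k0,k2,k0,k0,k0],[k0,k0,k3,k0,k0,k0],[k0,k0,k4,k0,k0,k0],[k0,k0,k0,k0,
    k0,k2],[k0,k0,k0,k0,k0,k3]]
    [.contra [y2,z2,z1],.contra [z1,y1],.contra [z1],.ref k2 k0 [(z1,[y1,z0,y3,z3]),(z1,[z0,z0,z1])],.ref k4 k0 [(z1,
    [z0,z1]),(z1,[z0,z0,z1]),(z2,[z1])],.contra [z1],.ref k3 k0 [(z1,[z0,z1]),(z1,[z0,z0,z1]),(z1,[y1,y3,y3,z3])]]),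
    .old (.lp [k18,k102,k30,k18,k30,k40] [k42,k42,k0,k0,k36,k36,k42,k42,k36,k36,k31,k31] k0 [] k120 k6
    [[(k8,k24),(k11,k29)],[(k9,k24),(k2,k60)],[(k6,k60),(k5,k66)],[(k0,k60),(k7,k60)],[(k4,k30),(k3,k66)],[(k6,k24),
    (k5,k30)],[(k9,k24),(k2,k60)],[(k4,k24),(k3,k60)],[(k0,k24),(k7,k24)],[(k1,k24),(k10,k35)],[(k1,k29),(k10,k40)],
    [(k8,k35),(k11,k40)]]
    [] k0
    [[k1,k0,k0,k0,k1,k0],[k2,k0,k0,k0,k2,k0],[k1,k0,k0,k0,k1,k1],[k0,k0,k2,k0,k0,k0],[k0,k0,k3,k0,k0,k0],[k0,k0,k0,k0,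
    k0,k2]]
    [.contra [y1,z1],.ref k5 k0 [(z2,[z1]),(z1,[z0,y1,z1])],.contra [y1,z1],.contra [z1],.ref k2 k0 [(z1,[y1,z3]),(z1,
    [z0,y1,z1])],.contra [z1]]),
    .old (.leafM k10 [k1,k2,k3,k5] [(z1,[z0,z0,z1]),(z1,[y3,y1,y1,z3]),(z1,[z0,z1])] [(k4,k0,z1,[z1]),(k0,k4,z1,[z1])]),
    .old (.leafM k11 [k3,k5,k1,k2] [(z1,[y3,y3,y1,z3]),(z1,[z0,z0,z1]),(z1,[z0,z1])] [(k4,k0,z1,[z1]),(k0,k4,z1,[z1])]),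
    .old (.lp [k96,k32,k30,k18,k23,k40] [k0,k0,k32,k32,k33,k33,k39,k39,k40,k33,k28,k28] k0 [[k0,k0,k0,k40],[k0,k0,k0,k0,
    k0,k0,k0,k1],[k0,k40],[],[],[],[k1]] k120 k6
    [[(k8,k56),(k11,k68)],[(k2,k24),(k9,k64)],[(k6,k24),(k5,k71)],[(k0,k24),(k7,k25)],[(k4,k30),(k3,k71)],[(k6,k24),
    (k5,k30)],[(k9,k24),(k2,k25)],[(k3,k24),(k4,k24)],[(k7,k24),(k0,k64)],[(k10,k28),(k1,k56)],[(k10,k40),(k1,k68)],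
    [(k8,k28),(k11,k40)]]
    [] k0
    [[k0,k1,k0,k1,k0,k0],[k0,k2,k0,k2,k0,k0],[k0,k0,k2,k0,k0,k0],[k0,k0,k3,k0,k0,k0],[k0,k0,k0,k0,k0,k2]]
    [.contra [y2,z0,z1],.ref k8 k0 [(z1,[z0,z1]),(z2,[z1]),(z2,[y3,z0,z2])],.contra [z1],.ref k7 k0 [(z1,[z0,z1]),(z1,
    [y1,z0,z1]),(z1,[z1])],.contra [z1]]),
    .old (.leafM k11 [k1,k2,k3,k5] [(z1,[z0,z0,z1]),(z1,[y3,y3,y1,z3]),(z1,[z0,z1])] [(k4,k0,z1,[z1]),(k0,k4,z1,[z1])]),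
    .old (.leafM k12 [k1,k2,k3,k5] [(z1,[z0,z0,z1]),(z1,[y2,y2,y1,z2]),(z1,[z0,z1])] [(k4,k0,z1,[z1]),(k0,k4,z1,[z1])]),
    .old (.lp [k192,k74,k48,k48,k48,k60] [k0,k0,k59,k59,k72,k72,k72,k72,k72,k72,k66,k66] k0 [[k0,k0,k0,k70],[],[k0,
    k70]] (nat_lit 240) k6
    [[(k8,k120),(k11,k126)],[(k2,k63),(k9,k120)],[(k6,k61),(k5,k131)],[(k7,k61),(k0,k63)],[(k4,k48),(k3,k131)],[(k5,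
    k48),(k6,k48)],[(k9,k48),(k2,k61)],[(k4,k48),(k3,k61)],[(k7,k48),(k0,k120)],[(k10,k54),(k1,k120)],[(k10,k60),(k1,
    k126)],[(k8,k54),(k11,k60)]]
    [] k0
    [[k0,k1,k0,k1,k0,k0],[k0,k0,k2,k0,k0,k0],[k0,k0,k3,k0,k0,k0],[k0,k0,k4,k0,k0,k0],[k0,k0,k0,k0,k0,k2],[k0,k0,k0,k0,
    k0,k3]]
    [.contra [y1,z0,z2],.contra [z1],.ref k10 k0 [(z1,[z0,z1]),(z1,[z0,z0,z1]),(z1,[z1])],.ref k11 k0 [(z1,[z0,z1]),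
    (z1,[z0,z0,z1]),(z2,[z1])],.contra [z1],.ref k9 k0 [(z1,[z0,z1]),(z1,[y1,y3,z0,z3])]]),
    .old (.lp [(nat_lit 1840),(nat_lit 960),(nat_lit 920),k184,(nat_lit 920),(nat_lit 690)] [k0,k0,(nat_lit 440),
    (nat_lit 440),(nat_lit 460),(nat_lit 460),(nat_lit 828),(nat_lit 828),(nat_lit 460),(nat_lit 460),(nat_lit 575),
    (nat_lit 575)] k0 [[k0,k0,k0,(nat_lit 720)],[],[k0,(nat_lit 720)]] (nat_lit 2760) k6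
    [[(k11,(nat_lit 1265)),(k8,(nat_lit 1380))],[(k2,(nat_lit 680)),(k9,(nat_lit 1380))],[(k6,(nat_lit 572)),(k5,
    (nat_lit 1660))],[(k7,(nat_lit 572)),(k0,(nat_lit 680))],[(k4,(nat_lit 920)),(k3,(nat_lit 1660))],[(k6,
    (nat_lit 552)),(k5,(nat_lit 920))],[(k9,(nat_lit 552)),(k2,(nat_lit 572))],[(k4,(nat_lit 552)),(k3,
    (nat_lit 572))],[(k7,(nat_lit 552)),(k0,(nat_lit 1380))],[(k10,(nat_lit 805)),(k1,(nat_lit 1380))],[(k10,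
    (nat_lit 690)),(k1,(nat_lit 1265))],[(k11,(nat_lit 690)),(k8,(nat_lit 805))]]
    [] k0
    [[k0,k1,k0,k1,k0,k0],[k0,k2,k0,k2,k0,k0],[k0,k0,k2,k0,k0,k0],[k0,k0,k0,k0,k0,k2],[k0,k0,k0,k0,k0,k3]]
    [.contra [y1,y1,z1],.ref k12 k0 [(z1,[z0,z1]),(z2,[z1])],.contra [z1],.contra [z1],.ref k9 k0 [(z1,[z0,z1]),(z1,
    [y1,y3,z3])]]),
    .old (.lp [k8,k22,k16,k8,k16,k24] [k8,k8,k1,k1,k4,k4,k8,k8,k4,k4,k0,k0] k0 [[k0,k0,k0,k2],[],[k0,k2]] k48 k5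
    [[(k8,k12),(k11,k16)],[(k9,k12),(k2,k13)],[(k6,k15),(k5,k21)],[(k0,k13),(k7,k15)],[(k4,k16),(k3,k21)],[(k6,k12),
    (k5,k16)],[(k9,k12),(k2,k15)],[(k4,k12),(k3,k15)],[(k0,k12),(k7,k12)],[(k1,k12),(k10,k20)],[(k1,k16),(k10,k24)],
    [(k8,k20),(k11,k24)]]
    [] k0
    [[k1,k0,k0,k0,k1,k0],[k0,k1,k0,k1,k0,k0],[k0,k0,k2,k0,k0,k0]]
    [.ref k13 k0 [(z1,[z1])],.ref k6 k0 [(z1,[y1,z1])],.contra [z1]])]⟩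

/-- classes `0 0 0 0 1 1`, types `N0 N2 N3 N1 C0 C0` -/
noncomputable def cU6_219 : CertX :=
  ⟨[k12,k14,k15,k13,k20,k20],[(false,k0,[k0,k1,k2,k3,k4,k5])],[[[([z3,z0,z0,z0,z3,z0],z2),([z0,z1,z0,z1,z0,z0],z2),
    ([z0,z0,z3,z0,z0,z0],z2)],[([z1,z0,z0,z0,z1,z0],z1),([z0,z1,z0,z1,z0,z0],z2),([z0,z0,z3,z0,z0,z0],z2)],[([z3,z0,
    z0,z0,z3,z3],z4),([z0,z1,z0,z1,z0,z0],z2)],[([z1,z0,z0,z0,z1,z0],z1),([z0,z1,z0,z1,z0,z0],z2),([z0,z0,z3,z0,z0,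
    z0],z1)],[([z1,z0,z0,z0,z1,z0],z1),([z0,z1,z0,z1,z0,z0],z2),([z0,z0,z2,z0,z0,z0],z1)],[([z1,z0,z0,z0,z1,z0],z1),
    ([z0,z1,z0,z1,z0,z0],z2)],[([z1,z0,z1,z0,z1,z1],z2)],[([z1,z0,z0,z0,z1,z0],z2),([z0,z3,z0,z3,z0,z0],z2),([z0,z0,
    z3,z0,z0,z0],z2)],[([z1,z0,z0,z0,z1,z0],z2),([z0,z1,z0,z1,z0,z0],z1),([z0,z0,z3,z0,z0,z0],z2)],[([z1,z0,z0,z0,z1,
    z0],z2),([z0,z3,z0,z3,z0,z3],z4)],[([z1,z0,z0,z0,z1,z0],z2),([z0,z1,z0,z1,z0,z0],z1),([z0,z0,z3,z0,z0,z0],z1)],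
    [([z1,z0,z0,z0,z1,z0],z2),([z0,z1,z0,z1,z0,z0],z1),([z0,z0,z2,z0,z0,z0],z1)]],[[([z1,z0,z0,z0,z1,z0],z2),([z0,z1,
    z0,z1,z0,z0],z1)],[([z1,z0,z0,z0,z1,z0],z2)],[]]],
    [.old (.leafM k10 [k0,k2,k4,k5] [(z1,[z0,z0,z1]),(z1,[y1,y3,y1,z3]),(z1,[z1])] [(k1,k3,z1,[z0,z1]),(k3,k1,z1,[z0,z1])]),
    .old (.leafM k11 [k0,k2,k4,k5] [(z1,[z0,z0,z1]),(z1,[y3,y3,y1,z3]),(z1,[z1])] [(k1,k3,z1,[z0,z1]),(k3,k1,z1,[z0,z1])]),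
    .old (.lp [k18,k102,k40,k18,k30,k30] [k42,k42,k0,k0,k31,k31,k42,k42,k36,k36,k36,k36] k0 [] k120 k6
    [[(k8,k24),(k10,k24)],[(k9,k24),(k2,k60)],[(k6,k60),(k5,k71)],[(k0,k60),(k7,k60)],[(k4,k40),(k3,k71)],[(k6,k29),
    (k5,k40)],[(k9,k24),(k2,k60)],[(k4,k29),(k3,k60)],[(k0,k24),(k7,k24)],[(k1,k24),(k11,k30)],[(k8,k30),(k10,k30)],
    [(k1,k24),(k11,k30)]]
    [] k0
    [[k1,k0,k0,k0,k1,k0],[k2,k0,k0,k0,k2,k0],[k1,k0,k0,k0,k1,k1],[k1,k0,k0,k0,k1,k2],[k0,k0,k2,k0,k0,k0],[k0,k0,k0,k0,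
    k0,k2],[k0,k0,k0,k0,k0,k3]]
    [.contra [y1,z0,y1,z1],.ref k1 k0 [(z2,[z1]),(z1,[z0,z0,z1]),(z1,[z0,y1,y3,z3])],.contra [z1,y1,y2,z2],
    .ref k0 k0 [(z1,[y3,z2]),(z1,[z0,z0,z1]),(z1,[z0,y1,y3,z3])],.contra [z1],.contra [z1],.ref k0 k0 [(z1,[y1,z1]),
    (z1,[z0,z0,z1]),(z1,[z0,y1,y3,z3])]]),
    .old (.leafM k11 [k4,k5,k0,k2] [(z1,[y3,y3,y1,z3]),(z1,[z0,z0,z1]),(z1,[z1])] [(k1,k3,z1,[z0,z1]),(k3,k1,z1,[z0,z1])]),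
    .old (.leafM k12 [k0,k2,k4,k5] [(z1,[z0,z0,z1]),(z1,[y2,y2,y1,z2]),(z1,[z1])] [(k1,k3,z1,[z0,z1]),(k3,k1,z1,[z0,z1])]),
    .old (.lp [k12,k32,k8,k8,k8,k10] [k10,k10,k0,k0,k12,k12,k12,k12,k12,k12,k11,k11] k0 [] k40 k6
    [[(k8,k10),(k10,k11)],[(k9,k10),(k2,k22)],[(k5,k20),(k6,k20)],[(k7,k20),(k0,k22)],[(k4,k8),(k3,k20)],[(k5,k8),(k6,
    k8)],[(k9,k8),(k2,k20)],[(k4,k8),(k3,k20)],[(k7,k8),(k0,k10)],[(k11,k9),(k1,k10)],[(k8,k9),(k10,k10)],[(k11,k10),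
    (k1,k11)]]
    [] k0
    [[k1,k0,k0,k0,k1,k0],[k1,k0,k0,k0,k1,k1],[k0,k0,k2,k0,k0,k0],[k0,k0,k3,k0,k0,k0],[k0,k0,k4,k0,k0,k0],[k0,k0,k0,k0,
    k0,k2],[k0,k0,k0,k0,k0,k3]]
    [.contra [y2,z2,z1],.contra [z1,y1],.contra [z1],.ref k2 k0 [(z1,[y1,z0,y3,z3]),(z1,[z0,z0,z1])],.ref k4 k0 [(z1,
    [z0,z1]),(z1,[z0,z0,z1]),(z2,[z1])],.contra [z1],.ref k3 k0 [(z1,[z0,z1]),(z1,[z0,z0,z1]),(z1,[y1,y3,y3,z3])]]),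
    .old (.lp [k18,k102,k30,k18,k30,k40] [k42,k42,k0,k0,k36,k36,k42,k42,k36,k36,k31,k31] k0 [] k120 k6
    [[(k8,k24),(k10,k29)],[(k9,k24),(k2,k60)],[(k6,k60),(k5,k66)],[(k0,k60),(k7,k60)],[(k4,k30),(k3,k66)],[(k6,k24),
    (k5,k30)],[(k9,k24),(k2,k60)],[(k4,k24),(k3,k60)],[(k0,k24),(k7,k24)],[(k1,k24),(k11,k35)],[(k8,k35),(k10,k40)],
    [(k1,k29),(k11,k40)]]
    [] k0
    [[k1,k0,k0,k0,k1,k0],[k2,k0,k0,k0,k2,k0],[k1,k0,k0,k0,k1,k1],[k0,k0,k2,k0,k0,k0],[k0,k0,k3,k0,k0,k0],[k0,k0,k0,k0,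
    k0,k2]]
    [.contra [y1,z1],.ref k5 k0 [(z2,[z1]),(z1,[z0,y1,z1])],.contra [y1,z1],.contra [z1],.ref k2 k0 [(z1,[y1,z3]),(z1,
    [z0,y1,z1])],.contra [z1]]),
    .old (.leafM k10 [k1,k2,k3,k5] [(z1,[z0,z0,z1]),(z1,[y3,y1,y1,z3]),(z1,[z0,z1])] [(k4,k0,z1,[z1]),(k0,k4,z1,[z1])]),
    .old (.leafM k11 [k1,k2,k3,k5] [(z1,[z0,z0,z1]),(z1,[y3,y3,y1,z3]),(z1,[z0,z1])] [(k4,k0,z1,[z1]),(k0,k4,z1,[z1])]),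
    .old (.lp [(nat_lit 1840),(nat_lit 960),(nat_lit 920),k184,(nat_lit 920),(nat_lit 690)] [k0,k0,(nat_lit 440),
    (nat_lit 440),(nat_lit 460),(nat_lit 460),(nat_lit 828),(nat_lit 828),(nat_lit 460),(nat_lit 460),(nat_lit 575),
    (nat_lit 575)] k0 [[k0,k0,k0,(nat_lit 720)],[],[k0,(nat_lit 720)]] (nat_lit 2760) k6
    [[(k10,(nat_lit 1265)),(k8,(nat_lit 1380))],[(k2,(nat_lit 680)),(k9,(nat_lit 1380))],[(k6,(nat_lit 572)),(k5,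
    (nat_lit 1660))],[(k7,(nat_lit 572)),(k0,(nat_lit 680))],[(k4,(nat_lit 920)),(k3,(nat_lit 1660))],[(k6,
    (nat_lit 552)),(k5,(nat_lit 920))],[(k9,(nat_lit 552)),(k2,(nat_lit 572))],[(k4,(nat_lit 552)),(k3,
    (nat_lit 572))],[(k7,(nat_lit 552)),(k0,(nat_lit 1380))],[(k11,(nat_lit 805)),(k1,(nat_lit 1380))],[(k10,
    (nat_lit 690)),(k8,(nat_lit 805))],[(k11,(nat_lit 690)),(k1,(nat_lit 1265))]]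
    [] k0
    [[k0,k1,k0,k1,k0,k0],[k0,k2,k0,k2,k0,k0],[k0,k0,k2,k0,k0,k0],[k0,k0,k0,k0,k0,k2],[k0,k0,k0,k0,k0,k3]]
    [.contra [y1,y1,z0,z1],.ref k8 k0 [(z1,[z0,z1]),(z2,[z1]),(z1,[z0,y3,y1,z3])],.contra [z1],.contra [z1],
    .ref k7 k0 [(z1,[z0,z1]),(z1,[y1,z0,z1]),(z1,[z0,y3,y1,z3])]]),
    .old (.leafM k11 [k3,k5,k1,k2] [(z1,[y3,y3,y1,z3]),(z1,[z0,z0,z1]),(z1,[z0,z1])] [(k4,k0,z1,[z1]),(k0,k4,z1,[z1])]),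
    .old (.leafM k12 [k1,k2,k3,k5] [(z1,[z0,z0,z1]),(z1,[y2,y2,y1,z2]),(z1,[z0,z1])] [(k4,k0,z1,[z1]),(k0,k4,z1,[z1])]),
    .old (.lp [k192,k74,k48,k48,k48,k60] [k0,k0,k59,k59,k72,k72,k72,k72,k72,k72,k66,k66] k0 [[k0,k0,k0,k70],[],[k0,
    k70]] (nat_lit 240) k6
    [[(k8,k120),(k10,k126)],[(k2,k63),(k9,k120)],[(k6,k61),(k5,k131)],[(k7,k61),(k0,k63)],[(k4,k48),(k3,k131)],[(k5,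
    k48),(k6,k48)],[(k9,k48),(k2,k61)],[(k4,k48),(k3,k61)],[(k7,k48),(k0,k120)],[(k11,k54),(k1,k120)],[(k8,k54),(k10,
    k60)],[(k11,k60),(k1,k126)]]
    [] k0
    [[k0,k1,k0,k1,k0,k0],[k0,k0,k2,k0,k0,k0],[k0,k0,k3,k0,k0,k0],[k0,k0,k4,k0,k0,k0],[k0,k0,k0,k0,k0,k2],[k0,k0,k0,k0,
    k0,k3]]
    [.contra [y1,z0,z2],.contra [z1],.ref k9 k0 [(z1,[z0,z1]),(z1,[y1,y3,z0,z3])],.ref k11 k0 [(z1,[z0,z1]),(z1,[z0,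
    z0,z1]),(z2,[z1])],.contra [z1],.ref k10 k0 [(z1,[z0,z1]),(z1,[z0,z0,z1]),(z1,[y1,y3,y3,z3])]]),
    .old (.lp [k96,k32,k30,k18,k23,k40] [k0,k0,k32,k32,k33,k33,k39,k39,k40,k33,k28,k28] k0 [[k0,k0,k0,k40],[k0,k0,k0,k0,
    k0,k0,k0,k1],[k0,k40],[],[],[],[k1]] k120 k6
    [[(k8,k56),(k10,k68)],[(k2,k24),(k9,k64)],[(k6,k24),(k5,k71)],[(k0,k24),(k7,k25)],[(k4,k30),(k3,k71)],[(k6,k24),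
    (k5,k30)],[(k9,k24),(k2,k25)],[(k3,k24),(k4,k24)],[(k7,k24),(k0,k64)],[(k11,k28),(k1,k56)],[(k8,k28),(k10,k40)],
    [(k11,k40),(k1,k68)]]
    [] k0
    [[k0,k1,k0,k1,k0,k0],[k0,k2,k0,k2,k0,k0],[k0,k0,k2,k0,k0,k0],[k0,k0,k3,k0,k0,k0],[k0,k0,k0,k0,k0,k2]]
    [.contra [y1,y1,z1],.ref k12 k0 [(z1,[z0,z1]),(z2,[z1])],.contra [z1],.ref k9 k0 [(z1,[z0,z1]),(z1,[y1,y3,z3])],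
    .contra [z1]]),
    .old (.lp [k8,k22,k16,k8,k16,k24] [k8,k8,k1,k1,k4,k4,k8,k8,k4,k4,k0,k0] k0 [[k0,k0,k0,k2],[],[k0,k2]] k48 k5
    [[(k8,k12),(k10,k16)],[(k9,k12),(k2,k13)],[(k6,k15),(k5,k21)],[(k0,k13),(k7,k15)],[(k4,k16),(k3,k21)],[(k6,k12),
    (k5,k16)],[(k9,k12),(k2,k15)],[(k4,k12),(k3,k15)],[(k0,k12),(k7,k12)],[(k1,k12),(k11,k20)],[(k8,k20),(k10,k24)],
    [(k1,k16),(k11,k24)]]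
    [] k0
    [[k1,k0,k0,k0,k1,k0],[k0,k1,k0,k1,k0,k0],[k0,k0,k2,k0,k0,k0]]
    [.ref k13 k0 [(z1,[z1])],.ref k6 k0 [(z1,[y1,z1])],.contra [z1]])]⟩

/-- classes `0 0 0 0 1 1`, types `N0 N2 N3 N1 C0 C2` -/
noncomputable def cU6_220 : CertX :=
  ⟨[k12,k14,k15,k13,k20,k22],[(false,k0,[k0,k1,k2,k3,k4,k5])],[[[([z1,z0,z1,z0,z1,z1],z2)],[]]],
    [.old (.lp [k6,k24,k10,k6,k6,k6] [k9,k9,k0,k0,k7,k7,k9,k9,k9,k9,k9,k9] k0 [] k30 k6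
    [[(k10,k6),(k11,k6)],[(k9,k6),(k2,k15)],[(k6,k15),(k5,k17)],[(k0,k15),(k7,k15)],[(k4,k10),(k3,k17)],[(k6,k8),(k5,
    k10)],[(k9,k6),(k2,k15)],[(k4,k8),(k3,k15)],[(k0,k6),(k7,k6)],[(k10,k6),(k11,k6)],[(k1,k6),(k8,k6)],[(k1,k6),(k8,
    k6)]]
    [] k0
    [[k1,k0,k0,k0,k1,k1],[k0,k0,k2,k0,k0,k0]]
    [.contra [y1,z1],.contra [z1]]),
    .old (.lp [k6,k10,k8,k4,k8,k10] [k2,k2,k0,k0,k1,k1,k3,k3,k1,k1,k0,k0] k0 [[k0,k0,k0,k2],[],[k0,k2]] k24 k5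
    [[(k10,k8),(k11,k8)],[(k2,k6),(k9,k7)],[(k6,k7),(k5,k11)],[(k0,k6),(k7,k7)],[(k4,k8),(k3,k11)],[(k6,k6),(k5,k8)],
    [(k9,k6),(k2,k7)],[(k4,k6),(k3,k7)],[(k7,k6),(k0,k7)],[(k10,k9),(k11,k9)],[(k1,k8),(k8,k9)],[(k1,k8),(k8,k9)]]
    [] k0
    [[k0,k1,k0,k1,k0,k0],[k0,k0,k2,k0,k0,k0]]
    [.ref k0 k0 [(z1,[y1,z1])],.contra [z1]])]⟩

/-- classes `0 0 0 0 1 1`, types `N0 N2 N3 N1 N0 N1` -/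
noncomputable def cU6_221 : CertX :=
  ⟨[k12,k14,k15,k13,k28,k29],[(false,k0,[k0,k1,k2,k3,k4,k5])],[[[([z3,z0,z0,z0,z3,z0],z2),([z0,z1,z0,z1,z0,z0],z2),
    ([z0,z0,z3,z0,z0,z0],z2)],[([z1,z0,z0,z0,z1,z0],z1),([z0,z1,z0,z1,z0,z0],z2),([z0,z0,z3,z0,z0,z0],z1)],[([z3,z0,
    z3,z0,z3,z0],z4),([z0,z1,z0,z1,z0,z0],z2)],[([z1,z0,z0,z0,z1,z0],z1),([z0,z1,z0,z1,z0,z0],z2),([z0,z0,z3,z0,z0,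
    z0],z2)],[([z1,z0,z0,z0,z1,z0],z1),([z0,z1,z0,z1,z0,z0],z2),([z0,z0,z2,z0,z0,z0],z1)],[([z1,z0,z0,z0,z1,z0],z1),
    ([z0,z1,z0,z1,z0,z0],z2)],[([z1,z0,z1,z0,z1,z1],z2)],[([z1,z0,z0,z0,z1,z0],z2),([z0,z3,z0,z3,z0,z0],z2),([z0,z0,
    z3,z0,z0,z0],z2)],[([z1,z0,z0,z0,z1,z0],z2),([z0,z1,z0,z1,z0,z0],z1),([z0,z0,z3,z0,z0,z0],z2)],[([z1,z0,z0,z0,z1,
    z0],z2),([z0,z3,z0,z3,z0,z3],z4)],[([z1,z0,z0,z0,z1,z0],z2),([z0,z1,z0,z1,z0,z0],z1),([z0,z0,z3,z0,z0,z0],z1)],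
    [([z1,z0,z0,z0,z1,z0],z2),([z0,z1,z0,z1,z0,z0],z1),([z0,z0,z2,z0,z0,z0],z1)]],[[([z1,z0,z0,z0,z1,z0],z2),([z0,z1,
    z0,z1,z0,z0],z1)],[([z1,z0,z0,z0,z1,z0],z2)],[]]],
    [.old (.leafM k10 [k0,k2,k4,k5] [(z1,[z0,z0,z1]),(z1,[y1,y3,y1,z3]),(z1,[z1])] [(k1,k3,z1,[z0,z1]),(k3,k1,z1,[z0,z1])]),
    .old (.leafM k11 [k4,k5,k0,k2] [(z1,[y3,y3,y1,z3]),(z1,[z0,z0,z1]),(z1,[z1])] [(k1,k3,z1,[z0,z1]),(k3,k1,z1,[z0,z1])]),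
    .old (.lp [k18,k102,k30,k18,k30,k40] [k42,k42,k0,k0,k36,k36,k42,k42,k36,k36,k31,k31] k0 [] k120 k6
    [[(k8,k24)],[(k9,k24),(k2,k60)],[(k6,k60),(k5,k66)],[(k0,k60),(k7,k60)],[(k4,k30),(k3,k66)],[(k6,k24),(k5,k30)],
    [(k9,k24),(k2,k60)],[(k4,k24),(k3,k60)],[(k0,k24),(k7,k24)],[(k1,k24)],[(k10,k40)],[(k11,k40)]]
    [] k0
    [[k1,k0,k0,k0,k1,k0],[k2,k0,k0,k0,k2,k0],[k0,k0,k2,k0,k0,k0],[k0,k0,k3,k0,k0,k0],[k0,k0,k0,k0,k0,k2]]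
    [.contra [y3,z1,z1],.ref k1 k0 [(z2,[z1]),(z1,[z0,z0,z1]),(z2,[y3,z2])],.contra [z1],.ref k0 k0 [(z1,[y1,z1]),(z1,
    [z0,z0,z1]),(z1,[z1])],.contra [z1]]),
    .old (.leafM k11 [k0,k2,k4,k5] [(z1,[z0,z0,z1]),(z1,[y3,y3,y1,z3]),(z1,[z1])] [(k1,k3,z1,[z0,z1]),(k3,k1,z1,[z0,z1])]),
    .old (.leafM k12 [k0,k2,k4,k5] [(z1,[z0,z0,z1]),(z1,[y2,y2,y1,z2]),(z1,[z1])] [(k1,k3,z1,[z0,z1]),(k3,k1,z1,[z0,z1])]),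
    .old (.lp [k12,k32,k8,k8,k8,k10] [k10,k10,k0,k0,k12,k12,k12,k12,k12,k12,k11,k11] k0 [] k40 k6
    [[(k8,k10)],[(k9,k10),(k2,k22)],[(k5,k20),(k6,k20)],[(k7,k20),(k0,k22)],[(k4,k8),(k3,k20)],[(k5,k8),(k6,k8)],[(k9,
    k8),(k2,k20)],[(k4,k8),(k3,k20)],[(k7,k8),(k0,k10)],[(k1,k10)],[(k10,k10)],[(k11,k10)]]
    [] k0
    [[k1,k0,k0,k0,k1,k0],[k0,k0,k2,k0,k0,k0],[k0,k0,k3,k0,k0,k0],[k0,k0,k4,k0,k0,k0],[k0,k0,k0,k0,k0,k2],[k0,k0,k0,k0,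
    k0,k3]]
    [.contra [y2,z2,z1],.contra [z1],.ref k3 k0 [(z1,[z0,z1]),(z1,[z0,z0,z1]),(z1,[z1])],.ref k4 k0 [(z1,[z0,z1]),(z1,
    [z0,z0,z1]),(z2,[z1])],.contra [z1],.ref k2 k0 [(z1,[y1,z0,y3,z3]),(z1,[z0,z0,z1])]]),
    .old (.lp [k8,k112,k40,k8,k40,k30] [k52,k52,k0,k0,k36,k36,k52,k52,k36,k36,k41,k41] k0 [] k120 k6
    [[(k8,k24)],[(k9,k24),(k2,k60)],[(k6,k60),(k5,k76)],[(k0,k60),(k7,k60)],[(k4,k40),(k3,k76)],[(k6,k24),(k5,k40)],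
    [(k9,k24),(k2,k60)],[(k4,k24),(k3,k60)],[(k0,k24),(k7,k24)],[(k1,k24)],[(k10,k30)],[(k11,k30)]]
    [] k0
    [[k1,k0,k0,k0,k1,k0],[k2,k0,k0,k0,k2,k0],[k0,k0,k2,k0,k0,k0],[k0,k0,k0,k0,k0,k2],[k0,k0,k0,k0,k0,k3]]
    [.contra [y1,z1],.ref k5 k0 [(z2,[z1]),(z1,[z0,y1,z1])],.contra [z1],.contra [z1],.ref k2 k0 [(z1,[y1,z3]),(z1,
    [z0,y1,z1])]]),
    .old (.leafM k10 [k1,k2,k3,k5] [(z1,[z0,z0,z1]),(z1,[y3,y1,y1,z3]),(z1,[z0,z1])] [(k4,k0,z1,[z1]),(k0,k4,z1,[z1])]),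
    .old (.leafM k11 [k1,k2,k3,k5] [(z1,[z0,z0,z1]),(z1,[y3,y3,y1,z3]),(z1,[z0,z1])] [(k4,k0,z1,[z1]),(k0,k4,z1,[z1])]),
    .old (.lp [(nat_lit 1840),(nat_lit 960),(nat_lit 920),k184,(nat_lit 920),(nat_lit 690)] [k0,k0,(nat_lit 440),
    (nat_lit 440),(nat_lit 460),(nat_lit 460),(nat_lit 828),(nat_lit 828),(nat_lit 460),(nat_lit 460),(nat_lit 575),
    (nat_lit 575)] k0 [[k0,k0,k0,(nat_lit 720)],[],[k0,(nat_lit 720)]] (nat_lit 2760) k6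
    [[(k8,(nat_lit 1380))],[(k2,(nat_lit 680)),(k9,(nat_lit 1380))],[(k6,(nat_lit 572)),(k5,(nat_lit 1660))],[(k7,
    (nat_lit 572)),(k0,(nat_lit 680))],[(k4,(nat_lit 920)),(k3,(nat_lit 1660))],[(k6,(nat_lit 552)),(k5,
    (nat_lit 920))],[(k9,(nat_lit 552)),(k2,(nat_lit 572))],[(k4,(nat_lit 552)),(k3,(nat_lit 572))],[(k7,
    (nat_lit 552)),(k0,(nat_lit 1380))],[(k1,(nat_lit 1380))],[(k10,(nat_lit 690))],[(k11,(nat_lit 690))]]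
    [] k0
    [[k0,k1,k0,k1,k0,k0],[k0,k2,k0,k2,k0,k0],[k0,k0,k2,k0,k0,k0],[k0,k0,k0,k0,k0,k2],[k0,k0,k0,k0,k0,k3]]
    [.contra [y1,y1,z0,z1],.ref k8 k0 [(z1,[z0,z1]),(z2,[z1]),(z1,[z0,y3,y1,z3])],.contra [z1],.contra [z1],
    .ref k7 k0 [(z1,[z0,z1]),(z1,[y1,z0,z1]),(z1,[z0,y3,y1,z3])]]),
    .old (.leafM k11 [k3,k5,k1,k2] [(z1,[y3,y3,y1,z3]),(z1,[z0,z0,z1]),(z1,[z0,z1])] [(k4,k0,z1,[z1]),(k0,k4,z1,[z1])]),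
    .old (.leafM k12 [k1,k2,k3,k5] [(z1,[z0,z0,z1]),(z1,[y2,y2,y1,z2]),(z1,[z0,z1])] [(k4,k0,z1,[z1]),(k0,k4,z1,[z1])]),
    .old (.lp [k192,k74,k48,k48,k48,k60] [k0,k0,k59,k59,k72,k72,k72,k72,k72,k72,k66,k66] k0 [[k0,k0,k0,k70],[],[k0,
    k70]] (nat_lit 240) k6
    [[(k8,k120)],[(k2,k63),(k9,k120)],[(k6,k61),(k5,k131)],[(k7,k61),(k0,k63)],[(k4,k48),(k3,k131)],[(k5,k48),(k6,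
    k48)],[(k9,k48),(k2,k61)],[(k4,k48),(k3,k61)],[(k7,k48),(k0,k120)],[(k1,k120)],[(k10,k60)],[(k11,k60)]]
    [] k0
    [[k0,k1,k0,k1,k0,k0],[k0,k0,k2,k0,k0,k0],[k0,k0,k3,k0,k0,k0],[k0,k0,k4,k0,k0,k0],[k0,k0,k0,k0,k0,k2],[k0,k0,k0,k0,
    k0,k3]]
    [.contra [y1,z0,z2],.contra [z1],.ref k9 k0 [(z1,[z0,z1]),(z1,[y1,y3,z0,z3])],.ref k11 k0 [(z1,[z0,z1]),(z1,[z0,
    z0,z1]),(z2,[z1])],.contra [z1],.ref k10 k0 [(z1,[z0,z1]),(z1,[z0,z0,z1]),(z1,[y1,y3,y3,z3])]]),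
    .old (.lp [k96,k32,k30,k18,k23,k40] [k0,k0,k32,k32,k33,k33,k39,k39,k40,k33,k28,k28] k0 [[k0,k0,k0,k40],[k0,k0,k0,k0,
    k0,k0,k0,k1],[k0,k40],[],[],[],[k1]] k120 k6
    [[(k8,k56)],[(k2,k24),(k9,k64)],[(k6,k24),(k5,k71)],[(k0,k24),(k7,k25)],[(k4,k30),(k3,k71)],[(k6,k24),(k5,k30)],
    [(k9,k24),(k2,k25)],[(k3,k24),(k4,k24)],[(k7,k24),(k0,k64)],[(k1,k56)],[(k10,k40)],[(k11,k40)]]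
    [] k0
    [[k0,k1,k0,k1,k0,k0],[k0,k2,k0,k2,k0,k0],[k0,k0,k2,k0,k0,k0],[k0,k0,k3,k0,k0,k0],[k0,k0,k0,k0,k0,k2]]
    [.contra [y1,y1,z1],.ref k12 k0 [(z1,[z0,z1]),(z2,[z1])],.contra [z1],.ref k9 k0 [(z1,[z0,z1]),(z1,[y1,y3,z3])],
    .contra [z1]]),
    .old (.lp [k8,k22,k16,k8,k16,k24] [k8,k8,k1,k1,k4,k4,k8,k8,k4,k4,k0,k0] k0 [[k0,k0,k0,k2],[],[k0,k2]] k48 k5
    [[(k8,k12)],[(k9,k12),(k2,k13)],[(k6,k15),(k5,k21)],[(k0,k13),(k7,k15)],[(k4,k16),(k3,k21)],[(k6,k12),(k5,k16)],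
    [(k9,k12),(k2,k15)],[(k4,k12),(k3,k15)],[(k0,k12),(k7,k12)],[(k1,k12)],[(k10,k24)],[(k11,k24)]]
    [] k0
    [[k1,k0,k0,k0,k1,k0],[k0,k1,k0,k1,k0,k0],[k0,k0,k2,k0,k0,k0]]
    [.ref k13 k0 [(z1,[z1])],.ref k6 k0 [(z1,[y1,z1])],.contra [z1]])]⟩

/-- classes `0 0 0 0 1 1`, types `N0 N2 N3 N1 N0 N2` -/
noncomputable def cU6_222 : CertX :=
  ⟨[k12,k14,k15,k13,k28,k30],[(false,k0,[k0,k1,k2,k3,k4,k5])],[[[([z1,z0,z1,z0,z1,z1],z2)],[]]],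
    [.old (.lp [k6,k24,k10,k6,k6,k6] [k9,k9,k0,k0,k7,k7,k9,k9,k9,k9,k9,k9] k0 [] k30 k6
    [[(k11,k6)],[(k9,k6),(k2,k15)],[(k6,k15),(k5,k17)],[(k0,k15),(k7,k15)],[(k4,k10),(k3,k17)],[(k6,k8),(k5,k10)],
    [(k9,k6),(k2,k15)],[(k4,k8),(k3,k15)],[(k0,k6),(k7,k6)],[(k10,k6)],[(k1,k6)],[(k8,k6)]]
    [] k0
    [[k1,k0,k0,k0,k1,k1],[k0,k0,k2,k0,k0,k0]]
    [.contra [y1,z1],.contra [z1]]),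
    .old (.lp [k6,k10,k8,k4,k8,k10] [k2,k2,k0,k0,k1,k1,k3,k3,k1,k1,k0,k0] k0 [[k0,k0,k0,k2],[],[k0,k2]] k24 k5
    [[(k11,k8)],[(k2,k6),(k9,k7)],[(k6,k7),(k5,k11)],[(k0,k6),(k7,k7)],[(k4,k8),(k3,k11)],[(k6,k6),(k5,k8)],[(k9,k6),
    (k2,k7)],[(k4,k6),(k3,k7)],[(k7,k6),(k0,k7)],[(k10,k9)],[(k1,k8)],[(k8,k9)]]
    [] k0
    [[k0,k1,k0,k1,k0,k0],[k0,k0,k2,k0,k0,k0]]
    [.ref k0 k0 [(z1,[y1,z1])],.contra [z1]])]⟩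

/-- classes `0 0 0 0 1 1`, types `N0 N2 N3 N1 S0 S0` -/
noncomputable def cU6_223 : CertX :=
  ⟨[k12,k14,k15,k13,k16,k16],[(false,k0,[k0,k1,k2,k3,k4,k5])],[[[([z3,z0,z0,z0,z3,z0],z2),([z0,z1,z0,z1,z0,z0],z2),
    ([z0,z0,z3,z0,z0,z0],z2)],[([z1,z0,z0,z0,z1,z0],z1),([z0,z1,z0,z1,z0,z0],z2),([z0,z0,z3,z0,z0,z0],z2)],[([z3,z0,
    z0,z0,z3,z3],z4),([z0,z1,z0,z1,z0,z0],z2)],[([z1,z0,z0,z0,z1,z0],z1),([z0,z1,z0,z1,z0,z0],z2),([z0,z0,z3,z0,z0,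
    z0],z1)],[([z1,z0,z0,z0,z1,z0],z1),([z0,z1,z0,z1,z0,z0],z2),([z0,z0,z2,z0,z0,z0],z1)],[([z1,z0,z0,z0,z1,z0],z1),
    ([z0,z1,z0,z1,z0,z0],z2)],[([z1,z0,z1,z0,z1,z1],z2)],[([z1,z0,z0,z0,z1,z0],z2),([z0,z3,z0,z3,z0,z0],z2),([z0,z0,
    z3,z0,z0,z0],z2)],[([z1,z0,z0,z0,z1,z0],z2),([z0,z1,z0,z1,z0,z0],z1),([z0,z0,z3,z0,z0,z0],z1)],[([z1,z0,z0,z0,z1,
    z0],z2),([z0,z3,z3,z3,z0,z0],z4)],[([z1,z0,z0,z0,z1,z0],z2),([z0,z1,z0,z1,z0,z0],z1),([z0,z0,z3,z0,z0,z0],z2)],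
    [([z1,z0,z0,z0,z1,z0],z2),([z0,z1,z0,z1,z0,z0],z1),([z0,z0,z2,z0,z0,z0],z1)]],[[([z1,z0,z0,z0,z1,z0],z2),([z0,z1,
    z0,z1,z0,z0],z1)],[([z1,z0,z0,z0,z1,z0],z2)],[]]],
    [.old (.leafM k10 [k0,k2,k4,k5] [(z1,[z0,z0,z1]),(z1,[y1,y3,y1,z3]),(z1,[z1])] [(k1,k3,z1,[z0,z1]),(k3,k1,z1,[z0,z1])]),
    .old (.leafM k8 [k0,k2,k4,k5] [(z1,[z0,z0,z1]),(z1,[y3,y3,y1,z3]),(z1,[z1])] [(k1,k3,z1,[z0,z1]),(k3,k1,z1,[z0,z1])]),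
    .old (.lp [k24,k24,k40,k96,k24,k30] [k36,k36,k36,k36,k28,k28,k0,k0,k36,k36,k33,k33] k0 [] k120 k6
    [[(k1,k24),(k8,k24),(k10,k27),(k11,k27)],[(k2,k24),(k9,k24)],[(k5,k32),(k6,k60)],[(k0,k24),(k7,k60)],[(k3,k32),
    (k4,k40)],[(k5,k40),(k6,k68)],[(k2,k60),(k9,k60)],[(k3,k60),(k4,k68)],[(k0,k24),(k7,k60)],[(k1,k24),(k8,k24),(k10,
    k27),(k11,k27)],[(k1,k27),(k8,k27),(k10,k30),(k11,k30)],[(k1,k27),(k8,k27),(k10,k30),(k11,k30)]]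
    [] k0
    [[k2,k0,k0,k0,k2,k0],[k1,k0,k0,k0,k1,k0],[k1,k0,k0,k0,k1,k1],[k1,k0,k0,k0,k1,k2],[k0,k0,k2,k0,k0,k0],[k0,k0,k0,k0,
    k0,k2],[k0,k0,k0,k0,k0,k3]]
    [.ref k1 k0 [(z2,[z1]),(z1,[z0,z0,z1]),(z1,[z0,y1,y3,z3])],.contra [y1,z0,y1,z1],.contra [z1,y1,y2,z2],
    .ref k0 k0 [(z1,[y3,z2]),(z1,[z0,z0,z1]),(z1,[z0,y1,y3,z3])],.contra [z1],.contra [z1],.ref k0 k0 [(z1,[y1,z1]),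
    (z1,[z0,z0,z1]),(z1,[z0,y1,y3,z3])]]),
    .old (.leafM k11 [k4,k5,k0,k2] [(z1,[y3,y3,y1,z3]),(z1,[z0,z0,z1]),(z1,[z1])] [(k1,k3,z1,[z0,z1]),(k3,k1,z1,[z0,z1])]),
    .old (.leafM k9 [k0,k2,k4,k5] [(z1,[z0,z0,z1]),(z1,[y2,y2,y1,z2]),(z1,[z1])] [(k1,k3,z1,[z0,z1]),(k3,k1,z1,[z0,z1])]),
    .old (.lp [k12,k8,k8,k32,k8,k10] [k10,k10,k12,k12,k12,k12,k0,k0,k12,k12,k11,k11] k0 [] k40 k6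
    [[(k8,k10),(k10,k11),(k11,k11),(k1,k12)],[(k2,k10),(k9,k10)],[(k5,k8),(k6,k20)],[(k0,k10),(k7,k20)],[(k3,k8),(k4,
    k8)],[(k5,k8),(k6,k20)],[(k2,k20),(k9,k20)],[(k3,k20),(k4,k20)],[(k0,k10),(k7,k20)],[(k8,k8),(k10,k9),(k11,k9),
    (k1,k10)],[(k8,k9),(k10,k10),(k11,k10),(k1,k11)],[(k8,k9),(k10,k10),(k11,k10),(k1,k11)]]
    [] k0
    [[k1,k0,k0,k0,k1,k0],[k1,k0,k0,k0,k1,k1],[k0,k0,k2,k0,k0,k0],[k0,k0,k3,k0,k0,k0],[k0,k0,k4,k0,k0,k0],[k0,k0,k0,k0,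
    k0,k2],[k0,k0,k0,k0,k0,k3]]
    [.contra [y2,z2,z1],.contra [z1,y1],.contra [z1],.ref k2 k0 [(z1,[y1,z0,y3,z3]),(z1,[z0,z0,z1])],.ref k4 k0 [(z1,
    [z0,z1]),(z1,[z0,z0,z1]),(z2,[z1])],.contra [z1],.ref k3 k0 [(z1,[z0,z1]),(z1,[z0,z0,z1]),(z1,[y1,y3,y3,z3])]]),
    .old (.lp [k24,k24,k30,k96,k24,k40] [k36,k36,k36,k36,k33,k33,k0,k0,k36,k36,k28,k28] k0 [] k120 k6
    [[(k1,k24),(k8,k24),(k10,k32),(k11,k32)],[(k2,k24),(k9,k24)],[(k5,k27),(k6,k60)],[(k0,k24),(k7,k60)],[(k3,k27),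
    (k4,k30)],[(k5,k30),(k6,k63)],[(k2,k60),(k9,k60)],[(k3,k60),(k4,k63)],[(k0,k24),(k7,k60)],[(k1,k24),(k8,k24),(k10,
    k32),(k11,k32)],[(k1,k32),(k8,k32),(k10,k40),(k11,k40)],[(k1,k32),(k8,k32),(k10,k40),(k11,k40)]]
    [] k0
    [[k2,k0,k0,k0,k2,k0],[k1,k0,k0,k0,k1,k0],[k1,k0,k0,k0,k1,k1],[k0,k0,k2,k0,k0,k0],[k0,k0,k3,k0,k0,k0],[k0,k0,k0,k0,
    k0,k2]]
    [.ref k5 k0 [(z2,[z1]),(z1,[z0,y1,z1])],.contra [y1,z1],.contra [y1,z1],.contra [z1],.ref k2 k0 [(z1,[y1,z3]),(z1,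
    [z0,y1,z1])],.contra [z1]]),
    .old (.leafM k10 [k1,k2,k3,k5] [(z1,[z0,z0,z1]),(z1,[y3,y1,y1,z3]),(z1,[z0,z1])] [(k4,k0,z1,[z1]),(k0,k4,z1,[z1])]),
    .old (.leafM k11 [k3,k5,k1,k2] [(z1,[y3,y3,y1,z3]),(z1,[z0,z0,z1]),(z1,[z0,z1])] [(k4,k0,z1,[z1]),(k0,k4,z1,[z1])]),
    .old (.lp [k92,k32,k30,k18,k27,k40] [k0,k4,k32,k32,k33,k33,k39,k39,k36,k33,k28,k28] k0 [[k0,k0,k0,k40],[k0,k0,k0,k0,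
    k0,k0,k0,k1],[k0,k40],[],[],[],[k1]] k120 k6
    [[(k8,k56),(k10,k64),(k11,k64),(k1,k88)],[(k2,k24),(k9,k64)],[(k6,k24),(k5,k71)],[(k0,k24),(k7,k25)],[(k4,k30),
    (k3,k71)],[(k6,k24),(k5,k30)],[(k9,k24),(k2,k25)],[(k3,k24),(k4,k24)],[(k7,k24),(k0,k64)],[(k8,k24),(k10,k32),
    (k11,k32),(k1,k56)],[(k8,k32),(k10,k40),(k11,k40),(k1,k64)],[(k8,k32),(k10,k40),(k11,k40),(k1,k64)]]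
    [] k0
    [[k0,k1,k0,k1,k0,k0],[k0,k2,k0,k2,k0,k0],[k0,k0,k2,k0,k0,k0],[k0,k0,k3,k0,k0,k0],[k0,k0,k0,k0,k0,k2]]
    [.contra [y2,z0,z1],.ref k8 k0 [(z1,[z0,z1]),(z2,[z1]),(z2,[y3,z0,z2])],.contra [z1],.ref k7 k0 [(z1,[z0,z1]),(z1,
    [y1,z0,z1]),(z1,[z1])],.contra [z1]]),
    .old (.leafM k11 [k1,k2,k3,k5] [(z1,[z0,z0,z1]),(z1,[y3,y3,y1,z3]),(z1,[z0,z1])] [(k4,k0,z1,[z1]),(k0,k4,z1,[z1])]),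
    .old (.leafM k12 [k1,k2,k3,k5] [(z1,[z0,z0,z1]),(z1,[y2,y2,y1,z2]),(z1,[z0,z1])] [(k4,k0,z1,[z1]),(k0,k4,z1,[z1])]),
    .old (.lp [(nat_lit 7392),(nat_lit 1680),(nat_lit 1848),(nat_lit 3080),(nat_lit 1848),(nat_lit 2310)] [k0,k0,
    (nat_lit 2856),(nat_lit 2856),(nat_lit 2772),(nat_lit 2772),(nat_lit 2156),(nat_lit 2156),(nat_lit 2772),
    (nat_lit 2772),(nat_lit 2541),(nat_lit 2541)] k0 [[k0,k0,k0,(nat_lit 2640)],[],[k0,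
    (nat_lit 2640)]] (nat_lit 9240) k6
    [[(k8,(nat_lit 4620)),(k10,(nat_lit 4851)),(k11,(nat_lit 4851)),(k1,(nat_lit 7392))],[(k2,(nat_lit 1896)),(k9,
    (nat_lit 4620))],[(k6,(nat_lit 2380)),(k5,(nat_lit 4404))],[(k0,(nat_lit 1896)),(k7,(nat_lit 2380))],[(k4,
    (nat_lit 1848)),(k3,(nat_lit 4404))],[(k5,(nat_lit 1848)),(k6,(nat_lit 2464))],[(k2,(nat_lit 2380)),(k9,
    (nat_lit 2464))],[(k3,(nat_lit 2380)),(k4,(nat_lit 2464))],[(k7,(nat_lit 2464)),(k0,(nat_lit 4620))],[(k8,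
    (nat_lit 1848)),(k10,(nat_lit 2079)),(k11,(nat_lit 2079)),(k1,(nat_lit 4620))],[(k8,(nat_lit 2079)),(k10,
    (nat_lit 2310)),(k11,(nat_lit 2310)),(k1,(nat_lit 4851))],[(k8,(nat_lit 2079)),(k10,(nat_lit 2310)),(k11,
    (nat_lit 2310)),(k1,(nat_lit 4851))]]
    [] k0
    [[k0,k1,k0,k1,k0,k0],[k0,k0,k2,k0,k0,k0],[k0,k0,k3,k0,k0,k0],[k0,k0,k4,k0,k0,k0],[k0,k0,k0,k0,k0,k2],[k0,k0,k0,k0,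
    k0,k3]]
    [.contra [y1,z0,z2],.contra [z1],.ref k10 k0 [(z1,[z0,z1]),(z1,[z0,z0,z1]),(z1,[z1])],.ref k11 k0 [(z1,[z0,z1]),
    (z1,[z0,z0,z1]),(z2,[z1])],.contra [z1],.ref k9 k0 [(z1,[z0,z1]),(z1,[y1,y3,z0,z3])]]),
    .old (.lp [k192,k28,k80,k70,k48,k60] [k0,k0,k82,k82,k56,k56,k61,k61,k72,k72,k66,k66] k0 [[k0,k0,k0,k62],[],[k0,
    k62]] (nat_lit 240) k6
    [[(k8,k120),(k10,k126),(k11,k126),(k1,k192)],[(k2,k48),(k9,k120)],[(k6,k49),(k5,k116)],[(k0,k48),(k7,k49)],[(k4,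
    k80),(k3,k116)],[(k6,k75),(k5,k80)],[(k2,k49),(k9,k59)],[(k3,k49),(k4,k75)],[(k7,k59),(k0,k120)],[(k8,k48),(k10,
    k54),(k11,k54),(k1,k120)],[(k8,k54),(k10,k60),(k11,k60),(k1,k126)],[(k8,k54),(k10,k60),(k11,k60),(k1,k126)]]
    [] k0
    [[k0,k1,k0,k1,k0,k0],[k0,k2,k0,k2,k0,k0],[k0,k0,k2,k0,k0,k0],[k0,k0,k0,k0,k0,k2],[k0,k0,k0,k0,k0,k3]]
    [.contra [y1,y1,z1],.ref k12 k0 [(z1,[z0,z1]),(z2,[z1])],.contra [z1],.contra [z1],.ref k9 k0 [(z1,[z0,z1]),(z1,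
    [y1,y3,z3])]]),
    .old (.lp [k12,k16,k16,k14,k12,k24] [k6,k6,k4,k4,k4,k4,k5,k5,k6,k6,k0,k0] k0 [[k0,k0,k0,k2],[],[k0,k2]] k48 k5
    [[(k1,k12),(k8,k12),(k10,k18),(k11,k18)],[(k2,k12),(k9,k12)],[(k6,k15),(k5,k18)],[(k0,k12),(k7,k15)],[(k4,k16),
    (k3,k18)],[(k6,k15),(k5,k16)],[(k9,k13),(k2,k15)],[(k3,k15),(k4,k15)],[(k0,k12),(k7,k13)],[(k1,k12),(k8,k12),(k10,
    k18),(k11,k18)],[(k1,k18),(k8,k18),(k10,k24),(k11,k24)],[(k1,k18),(k8,k18),(k10,k24),(k11,k24)]]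
    [] k0
    [[k1,k0,k0,k0,k1,k0],[k0,k1,k0,k1,k0,k0],[k0,k0,k2,k0,k0,k0]]
    [.ref k13 k0 [(z1,[z1])],.ref k6 k0 [(z1,[y1,z1])],.contra [z1]])]⟩

/-- classes `0 0 0 0 1 1`, types `N0 N3 N1 N2 B0 B1` -/
noncomputable def cU6_224 : CertX :=
  ⟨[k12,k15,k13,k14,k24,k25],[],[[[]]],
    [.old (.lp [k2,k2,k2,k2,k2,k4] [k1,k1,k1,k1,k1,k1,k1,k1,k1,k1,k0,k0] k0 [] k8 k5
    [[(k8,k2),(k11,k3)],[(k6,k2),(k7,k2)],[(k4,k2),(k9,k2)],[(k4,k2),(k9,k2)],[(k6,k2),(k7,k2)],[(k2,k2),(k3,k2)],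
    [(k0,k2),(k5,k2)],[(k0,k2),(k5,k2)],[(k2,k2),(k3,k2)],[(k1,k2),(k10,k3)],[(k1,k3),(k10,k4)],[(k8,k3),(k11,k4)]]
    [] k0
    []
    [])]⟩

/-- classes `0 0 0 0 1 1`, types `N0 N3 N1 N2 C0 C0` -/
noncomputable def cU6_225 : CertX :=
  ⟨[k12,k15,k13,k14,k20,k20],[],[[[]]],
    [.old (.lp [k2,k2,k2,k2,k2,k4] [k1,k1,k1,k1,k1,k1,k1,k1,k1,k1,k0,k0] k0 [] k8 k5
    [[(k8,k2),(k10,k3)],[(k6,k2),(k7,k2)],[(k4,k2),(k9,k2)],[(k4,k2),(k9,k2)],[(k6,k2),(k7,k2)],[(k2,k2),(k3,k2)],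
    [(k0,k2),(k5,k2)],[(k0,k2),(k5,k2)],[(k2,k2),(k3,k2)],[(k1,k2),(k11,k3)],[(k8,k3),(k10,k4)],[(k1,k3),(k11,k4)]]
    [] k0
    []
    [])]⟩

/-- classes `0 0 0 0 1 1`, types `N0 N3 N1 N2 C0 C2` -/
noncomputable def cU6_226 : CertX :=
  ⟨[k12,k15,k13,k14,k20,k22],[],[[[]]],
    [.old (.lp [k0,k2,k0,k2,k0,k2] [k1,k1,k0,k0,k1,k1,k0,k0,k1,k1,k0,k0] k0 [] k4 k5
    [[(k10,k1),(k11,k1)],[(k6,k1),(k7,k1)],[(k4,k1),(k9,k1)],[(k4,k1),(k9,k1)],[(k6,k1),(k7,k1)],[(k2,k1),(k3,k1)],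
    [(k0,k1),(k5,k1)],[(k0,k1),(k5,k1)],[(k2,k1),(k3,k1)],[(k10,k1),(k11,k1)],[(k1,k1),(k8,k1)],[(k1,k1),(k8,k1)]]
    [] k0
    []
    [])]⟩

/-- classes `0 0 0 0 1 1`, types `N0 N3 N1 N2 N0 N1` -/
noncomputable def cU6_227 : CertX :=
  ⟨[k12,k15,k13,k14,k28,k29],[],[[[]]],
    [.old (.lp [k2,k2,k2,k2,k2,k4] [k1,k1,k1,k1,k1,k1,k1,k1,k1,k1,k0,k0] k0 [] k8 k5
    [[(k8,k2)],[(k6,k2),(k7,k2)],[(k4,k2),(k9,k2)],[(k4,k2),(k9,k2)],[(k6,k2),(k7,k2)],[(k2,k2),(k3,k2)],[(k0,k2),(k5,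
    k2)],[(k0,k2),(k5,k2)],[(k2,k2),(k3,k2)],[(k1,k2)],[(k10,k4)],[(k11,k4)]]
    [] k0
    []
    [])]⟩

/-- classes `0 0 0 0 1 1`, types `N0 N3 N1 N2 N0 N2` -/
noncomputable def cU6_228 : CertX :=
  ⟨[k12,k15,k13,k14,k28,k30],[],[[[]]],
    [.old (.lp [k0,k2,k0,k2,k0,k2] [k1,k1,k0,k0,k1,k1,k0,k0,k1,k1,k0,k0] k0 [] k4 k5
    [[(k11,k1)],[(k6,k1),(k7,k1)],[(k4,k1),(k9,k1)],[(k4,k1),(k9,k1)],[(k6,k1),(k7,k1)],[(k2,k1),(k3,k1)],[(k0,k1),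
    (k5,k1)],[(k0,k1),(k5,k1)],[(k2,k1),(k3,k1)],[(k10,k1)],[(k1,k1)],[(k8,k1)]]
    [] k0
    []
    [])]⟩

/-- classes `0 0 0 0 1 1`, types `N0 N3 N1 N2 S0 S0` -/
noncomputable def cU6_229 : CertX :=
  ⟨[k12,k15,k13,k14,k16,k16],[],[[[]]],
    [.old (.lp [k6,k12,k0,k12,k6,k8] [k3,k3,k0,k0,k6,k6,k0,k0,k3,k3,k2,k2] k0 [] k24 k5
    [[(k1,k6),(k8,k6),(k10,k7),(k11,k7)],[(k6,k9),(k7,k9)],[(k4,k6),(k9,k9)],[(k4,k6),(k9,k9)],[(k6,k6),(k7,k6)],[(k2,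
    k6),(k3,k6)],[(k5,k6),(k0,k9)],[(k5,k6),(k0,k9)],[(k2,k9),(k3,k9)],[(k1,k6),(k8,k6),(k10,k7),(k11,k7)],[(k1,k7),
    (k8,k7),(k10,k8),(k11,k8)],[(k1,k7),(k8,k7),(k10,k8),(k11,k8)]]
    [] k0
    [[k0,k0,k0,k0,k0,k2]]
    [.contra [z1]])]⟩

/-- classes `0 0 0 0 1 1`, types `N0 N3 N2 N1 B0 B1` -/
noncomputable def cU6_230 : CertX :=
  ⟨[k12,k15,k14,k13,k24,k25],[(false,k0,[k0,k1,k2,k3,k4,k5])],[[[([z1,z0,z1,z0,z1,z1],z2)],[([z1,z0,z0,z0,z1,z0],z2),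
    ([z0,z3,z0,z3,z0,z0],z2),([z0,z0,z3,z0,z0,z0],z2)],[([z1,z0,z0,z0,z1,z0],z2),([z0,z1,z0,z1,z0,z0],z1),([z0,z0,z3,
    z0,z0,z0],z1)],[([z1,z0,z0,z0,z1,z0],z2),([z0,z3,z3,z3,z0,z0],z4)],[([z1,z0,z0,z0,z1,z0],z2),([z0,z1,z0,z1,z0,z0],
    z1),([z0,z0,z3,z0,z0,z0],z2)],[([z1,z0,z0,z0,z1,z0],z2),([z0,z1,z0,z1,z0,z0],z1),([z0,z0,z2,z0,z0,z0],z1)],[([z1,
    z0,z0,z0,z1,z0],z2),([z0,z1,z0,z1,z0,z0],z1)],[([z1,z0,z0,z0,z1,z0],z2)],[]]],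
    [.old (.leafM k3 [k0,k2,k4,k5] [] [(k1,k3,z1,[y1,z1]),(k3,k1,z1,[y1,z1])]),
    .old (.leafM k10 [k1,k2,k3,k5] [(z1,[z0,z0,z1]),(z1,[y3,y1,y1,z3]),(z1,[z0,z1])] [(k4,k0,z1,[z1]),(k0,k4,z1,[z1])]),
    .old (.leafM k11 [k3,k5,k1,k2] [(z1,[y3,y3,y1,z3]),(z1,[z0,z0,z1]),(z1,[z0,z1])] [(k4,k0,z1,[z1]),(k0,k4,z1,[z1])]),
    .old (.lp [k102,k48,k30,k0,k18,k40] [k0,k0,k27,k27,k36,k36,k51,k51,k42,k42,k31,k31] k0 [] k120 k6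
    [[(k8,k60),(k11,k71)],[(k9,k60),(k4,k66)],[(k6,k24),(k7,k24)],[(k6,k24),(k7,k24)],[(k9,k24),(k4,k30)],[(k5,k30),
    (k0,k66)],[(k2,k24),(k3,k24)],[(k2,k24),(k3,k24)],[(k5,k24),(k0,k60)],[(k10,k29),(k1,k60)],[(k10,k40),(k1,k71)],
    [(k8,k29),(k11,k40)]]
    [] k0
    [[k0,k1,k0,k1,k0,k0],[k0,k2,k0,k2,k0,k0],[k0,k0,k2,k0,k0,k0],[k0,k0,k3,k0,k0,k0],[k0,k0,k0,k0,k0,k2]]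
    [.contra [y2,z0,z1],.ref k2 k0 [(z1,[z0,z1]),(z2,[z1]),(z2,[y3,z0,z2])],.contra [z1],.ref k1 k0 [(z1,[z0,z1]),(z1,
    [y1,z0,z1]),(z1,[z1])],.contra [z1]]),
    .old (.leafM k11 [k1,k2,k3,k5] [(z1,[z0,z0,z1]),(z1,[y3,y3,y1,z3]),(z1,[z0,z1])] [(k4,k0,z1,[z1]),(k0,k4,z1,[z1])]),
    .old (.leafM k12 [k1,k2,k3,k5] [(z1,[z0,z0,z1]),(z1,[y2,y2,y1,z2]),(z1,[z0,z1])] [(k4,k0,z1,[z1]),(k0,k4,z1,[z1])]),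
    .old (.lp [k32,k20,k8,k0,k8,k10] [k0,k0,k6,k6,k12,k12,k16,k16,k12,k12,k11,k11] k0 [] k40 k6
    [[(k8,k20),(k11,k21)],[(k4,k20),(k9,k20)],[(k6,k10),(k7,k10)],[(k6,k10),(k7,k10)],[(k4,k8),(k9,k8)],[(k5,k8),(k0,
    k20)],[(k2,k10),(k3,k10)],[(k2,k10),(k3,k10)],[(k5,k8),(k0,k20)],[(k10,k9),(k1,k20)],[(k10,k10),(k1,k21)],[(k8,
    k9),(k11,k10)]]
    [] k0
    [[k0,k1,k0,k1,k0,k0],[k0,k0,k2,k0,k0,k0],[k0,k0,k3,k0,k0,k0],[k0,k0,k4,k0,k0,k0],[k0,k0,k0,k0,k0,k2],[k0,k0,k0,k0,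
    k0,k3]]
    [.contra [y1,z0,z2],.contra [z1],.ref k4 k0 [(z1,[z0,z1]),(z1,[z0,z0,z1]),(z1,[z1])],.ref k5 k0 [(z1,[z0,z1]),(z1,
    [z0,z0,z1]),(z2,[z1])],.contra [z1],.ref k3 k0 [(z1,[z0,z1]),(z1,[y1,y3,z0,z3])]]),
    .old (.lp [k102,k48,k40,k0,k18,k30] [k0,k0,k27,k27,k31,k31,k51,k51,k42,k42,k36,k36] k0 [] k120 k6
    [[(k8,k60),(k11,k66)],[(k9,k60),(k4,k71)],[(k6,k24),(k7,k24)],[(k6,k24),(k7,k24)],[(k9,k29),(k4,k40)],[(k5,k40),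
    (k0,k71)],[(k2,k24),(k3,k24)],[(k2,k24),(k3,k24)],[(k5,k29),(k0,k60)],[(k10,k24),(k1,k60)],[(k10,k30),(k1,k66)],
    [(k8,k24),(k11,k30)]]
    [] k0
    [[k0,k1,k0,k1,k0,k0],[k0,k2,k0,k2,k0,k0],[k0,k0,k2,k0,k0,k0],[k0,k0,k0,k0,k0,k2],[k0,k0,k0,k0,k0,k3]]
    [.contra [y1,y1,z1],.ref k6 k0 [(z1,[z0,z1]),(z2,[z1])],.contra [z1],.contra [z1],.ref k3 k0 [(z1,[z0,z1]),(z1,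
    [y1,y3,z3])]]),
    .old (.lp [k6,k6,k4,k0,k2,k4] [k0,k0,k0,k0,k1,k1,k3,k3,k2,k2,k1,k1] k0 [] k12 k5
    [[(k8,k4),(k11,k5)],[(k9,k4),(k4,k5)],[(k6,k3),(k7,k3)],[(k6,k3),(k7,k3)],[(k9,k3),(k4,k4)],[(k5,k4),(k0,k5)],
    [(k2,k3),(k3,k3)],[(k2,k3),(k3,k3)],[(k5,k3),(k0,k4)],[(k10,k3),(k1,k4)],[(k10,k4),(k1,k5)],[(k8,k3),(k11,k4)]]
    [] k0
    [[k1,k0,k0,k0,k1,k0],[k0,k1,k0,k1,k0,k0],[k0,k0,k2,k0,k0,k0],[k0,k0,k0,k0,k0,k2]]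
    [.ref k7 k0 [(z1,[z1])],.ref k0 k0 [(z1,[y1,z1])],.contra [z1],.contra [z1]])]⟩

/-- classes `0 0 0 0 1 1`, types `N0 N3 N2 N1 C0 C0` -/
noncomputable def cU6_231 : CertX :=
  ⟨[k12,k15,k14,k13,k20,k20],[(false,k0,[k0,k1,k2,k3,k4,k5])],[[[([z1,z0,z1,z0,z1,z1],z2)],[([z1,z0,z0,z0,z1,z0],z2),
    ([z0,z3,z0,z3,z0,z0],z2),([z0,z0,z3,z0,z0,z0],z2)],[([z1,z0,z0,z0,z1,z0],z2),([z0,z1,z0,z1,z0,z0],z1),([z0,z0,z3,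
    z0,z0,z0],z1)],[([z1,z0,z0,z0,z1,z0],z2),([z0,z3,z3,z3,z0,z0],z4)],[([z1,z0,z0,z0,z1,z0],z2),([z0,z1,z0,z1,z0,z0],
    z1),([z0,z0,z3,z0,z0,z0],z2)],[([z1,z0,z0,z0,z1,z0],z2),([z0,z1,z0,z1,z0,z0],z1),([z0,z0,z2,z0,z0,z0],z1)],[([z1,
    z0,z0,z0,z1,z0],z2),([z0,z1,z0,z1,z0,z0],z1)],[([z1,z0,z0,z0,z1,z0],z2)],[]]],
    [.old (.leafM k1 [k4,k5,k0,k2] [] [(k1,k3,z1,[y1,z1]),(k3,k1,z1,[y1,z1])]),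
    .old (.leafM k10 [k1,k2,k3,k5] [(z1,[z0,z0,z1]),(z1,[y3,y1,y1,z3]),(z1,[z0,z1])] [(k4,k0,z1,[z1]),(k0,k4,z1,[z1])]),
    .old (.leafM k11 [k3,k5,k1,k2] [(z1,[y3,y3,y1,z3]),(z1,[z0,z0,z1]),(z1,[z0,z1])] [(k4,k0,z1,[z1]),(k0,k4,z1,[z1])]),
    .old (.lp [k102,k48,k30,k0,k18,k40] [k0,k0,k27,k27,k36,k36,k51,k51,k42,k42,k31,k31] k0 [] k120 k6
    [[(k8,k60),(k10,k71)],[(k9,k60),(k4,k66)],[(k6,k24),(k7,k24)],[(k6,k24),(k7,k24)],[(k9,k24),(k4,k30)],[(k5,k30),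
    (k0,k66)],[(k2,k24),(k3,k24)],[(k2,k24),(k3,k24)],[(k5,k24),(k0,k60)],[(k11,k29),(k1,k60)],[(k8,k29),(k10,k40)],
    [(k11,k40),(k1,k71)]]
    [] k0
    [[k0,k1,k0,k1,k0,k0],[k0,k2,k0,k2,k0,k0],[k0,k0,k2,k0,k0,k0],[k0,k0,k3,k0,k0,k0],[k0,k0,k0,k0,k0,k2]]
    [.contra [y2,z0,z1],.ref k2 k0 [(z1,[z0,z1]),(z2,[z1]),(z2,[y3,z0,z2])],.contra [z1],.ref k1 k0 [(z1,[z0,z1]),(z1,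
    [y1,z0,z1]),(z1,[z1])],.contra [z1]]),
    .old (.leafM k11 [k1,k2,k3,k5] [(z1,[z0,z0,z1]),(z1,[y3,y3,y1,z3]),(z1,[z0,z1])] [(k4,k0,z1,[z1]),(k0,k4,z1,[z1])]),
    .old (.leafM k12 [k1,k2,k3,k5] [(z1,[z0,z0,z1]),(z1,[y2,y2,y1,z2]),(z1,[z0,z1])] [(k4,k0,z1,[z1]),(k0,k4,z1,[z1])]),
    .old (.lp [k32,k20,k8,k0,k8,k10] [k0,k0,k6,k6,k12,k12,k16,k16,k12,k12,k11,k11] k0 [] k40 k6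
    [[(k8,k20),(k10,k21)],[(k4,k20),(k9,k20)],[(k6,k10),(k7,k10)],[(k6,k10),(k7,k10)],[(k4,k8),(k9,k8)],[(k5,k8),(k0,
    k20)],[(k2,k10),(k3,k10)],[(k2,k10),(k3,k10)],[(k5,k8),(k0,k20)],[(k11,k9),(k1,k20)],[(k8,k9),(k10,k10)],[(k11,
    k10),(k1,k21)]]
    [] k0
    [[k0,k1,k0,k1,k0,k0],[k0,k0,k2,k0,k0,k0],[k0,k0,k3,k0,k0,k0],[k0,k0,k4,k0,k0,k0],[k0,k0,k0,k0,k0,k2],[k0,k0,k0,k0,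
    k0,k3]]
    [.contra [y1,z0,z2],.contra [z1],.ref k4 k0 [(z1,[z0,z1]),(z1,[z0,z0,z1]),(z1,[z1])],.ref k5 k0 [(z1,[z0,z1]),(z1,
    [z0,z0,z1]),(z2,[z1])],.contra [z1],.ref k3 k0 [(z1,[z0,z1]),(z1,[y1,y3,z0,z3])]]),
    .old (.lp [k102,k48,k40,k0,k18,k30] [k0,k0,k27,k27,k31,k31,k51,k51,k42,k42,k36,k36] k0 [] k120 k6
    [[(k8,k60),(k10,k66)],[(k9,k60),(k4,k71)],[(k6,k24),(k7,k24)],[(k6,k24),(k7,k24)],[(k9,k29),(k4,k40)],[(k5,k40),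
    (k0,k71)],[(k2,k24),(k3,k24)],[(k2,k24),(k3,k24)],[(k5,k29),(k0,k60)],[(k11,k24),(k1,k60)],[(k8,k24),(k10,k30)],
    [(k11,k30),(k1,k66)]]
    [] k0
    [[k0,k1,k0,k1,k0,k0],[k0,k2,k0,k2,k0,k0],[k0,k0,k2,k0,k0,k0],[k0,k0,k0,k0,k0,k2],[k0,k0,k0,k0,k0,k3]]
    [.contra [y1,y1,z1],.ref k6 k0 [(z1,[z0,z1]),(z2,[z1])],.contra [z1],.contra [z1],.ref k3 k0 [(z1,[z0,z1]),(z1,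
    [y1,y3,z3])]]),
    .old (.lp [k6,k6,k4,k0,k2,k4] [k0,k0,k0,k0,k1,k1,k3,k3,k2,k2,k1,k1] k0 [] k12 k5
    [[(k8,k4),(k10,k5)],[(k9,k4),(k4,k5)],[(k6,k3),(k7,k3)],[(k6,k3),(k7,k3)],[(k9,k3),(k4,k4)],[(k5,k4),(k0,k5)],
    [(k2,k3),(k3,k3)],[(k2,k3),(k3,k3)],[(k5,k3),(k0,k4)],[(k11,k3),(k1,k4)],[(k8,k3),(k10,k4)],[(k11,k4),(k1,k5)]]
    [] k0
    [[k1,k0,k0,k0,k1,k0],[k0,k1,k0,k1,k0,k0],[k0,k0,k2,k0,k0,k0],[k0,k0,k0,k0,k0,k2]]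
    [.ref k7 k0 [(z1,[z1])],.ref k0 k0 [(z1,[y1,z1])],.contra [z1],.contra [z1]])]⟩

/-- classes `0 0 0 0 1 1`, types `N0 N3 N2 N1 C0 C2` -/
noncomputable def cU6_232 : CertX :=
  ⟨[k12,k15,k14,k13,k20,k22],[(false,k0,[k0,k1,k2,k3,k4,k5])],[[[([z1,z0,z1,z0,z1,z1],z2)],[]]],
    [.old (.leafM k1 [k4,k5,k0,k2] [] [(k1,k3,z1,[y1,z1]),(k3,k1,z1,[y1,z1])]),
    .old (.lp [k4,k6,k4,k0,k2,k6] [k1,k1,k0,k0,k1,k1,k3,k3,k2,k2,k0,k0] k0 [] k12 k5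
    [[(k10,k5),(k11,k5)],[(k9,k3),(k4,k4)],[(k6,k3),(k7,k3)],[(k6,k3),(k7,k3)],[(k9,k3),(k4,k4)],[(k0,k4),(k5,k4)],
    [(k2,k3),(k3,k3)],[(k2,k3),(k3,k3)],[(k0,k3),(k5,k3)],[(k10,k4),(k11,k4)],[(k8,k4),(k1,k5)],[(k8,k4),(k1,k5)]]
    [] k0
    [[k0,k1,k0,k1,k0,k0],[k0,k0,k2,k0,k0,k0]]
    [.ref k0 k0 [(z1,[y1,z1])],.contra [z1]])]⟩

/-- classes `0 0 0 0 1 1`, types `N0 N3 N2 N1 N0 N1` -/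
noncomputable def cU6_233 : CertX :=
  ⟨[k12,k15,k14,k13,k28,k29],[(false,k0,[k0,k1,k2,k3,k4,k5])],[[[([z3,z0,z0,z0,z3,z0],z2),([z0,z1,z0,z1,z0,z0],z2),
    ([z0,z0,z3,z0,z0,z0],z2)],[([z1,z0,z0,z0,z1,z0],z1),([z0,z1,z0,z1,z0,z0],z2),([z0,z0,z3,z0,z0,z0],z1)],[([z3,z0,
    z3,z0,z3,z0],z4),([z0,z1,z0,z1,z0,z0],z2)],[([z1,z0,z0,z0,z1,z0],z1),([z0,z1,z0,z1,z0,z0],z2),([z0,z0,z2,z0,z0,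
    z0],z1)],[([z1,z0,z0,z0,z1,z0],z1),([z0,z1,z0,z1,z0,z0],z2),([z0,z0,z3,z0,z0,z0],z2)],[([z1,z0,z0,z0,z1,z0],z1),
    ([z0,z1,z0,z1,z0,z0],z2)],[([z1,z0,z1,z0,z1,z1],z2)],[([z1,z0,z0,z0,z1,z0],z2),([z0,z3,z0,z3,z0,z0],z2),([z0,z0,
    z3,z0,z0,z0],z2)],[([z1,z0,z0,z0,z1,z0],z2),([z0,z1,z0,z1,z0,z0],z1),([z0,z0,z3,z0,z0,z0],z2)],[([z1,z0,z0,z0,z1,
    z0],z2),([z0,z3,z0,z3,z0,z3],z4)],[([z1,z0,z0,z0,z1,z0],z2),([z0,z1,z0,z1,z0,z0],z1),([z0,z0,z3,z0,z0,z0],z1)],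
    [([z1,z0,z0,z0,z1,z0],z2),([z0,z1,z0,z1,z0,z0],z1),([z0,z0,z2,z0,z0,z0],z1)]],[[([z1,z0,z0,z0,z1,z0],z2),([z0,z1,
    z0,z1,z0,z0],z1)],[([z1,z0,z0,z0,z1,z0],z2)],[]]],
    [.old (.leafM k10 [k0,k2,k4,k5] [(z1,[z0,z0,z1]),(z1,[y1,y3,y1,z3]),(z1,[z1])] [(k1,k3,z1,[z0,z1]),(k3,k1,z1,[z0,z1])]),
    .old (.leafM k11 [k4,k5,k0,k2] [(z1,[y3,y3,y1,z3]),(z1,[z0,z0,z1]),(z1,[z1])] [(k1,k3,z1,[z0,z1]),(k3,k1,z1,[z0,z1])]),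
    .old (.lp [k30,k120,k30,k0,k18,k40] [k45,k45,k0,k0,k45,k45,k60,k60,k51,k51,k40,k40] k0 [] k120 k6
    [[(k8,k24)],[(k9,k24),(k4,k30)],[(k6,k60),(k7,k60)],[(k6,k60),(k7,k60)],[(k9,k24),(k4,k30)],[(k0,k30),(k5,k30)],
    [(k2,k60),(k3,k60)],[(k2,k60),(k3,k60)],[(k0,k24),(k5,k24)],[(k1,k24)],[(k10,k40)],[(k11,k40)]]
    [] k0
    [[k1,k0,k0,k0,k1,k0],[k2,k0,k0,k0,k2,k0],[k1,k0,k1,k0,k1,k0],[k1,k0,k2,k0,k1,k0],[k0,k0,k2,k0,k0,k0],[k0,k0,k3,k0,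
    k0,k0],[k0,k0,k0,k0,k0,k2]]
    [.contra [y3,z1,z1],.ref k1 k0 [(z2,[z1]),(z1,[z0,z0,z1]),(z2,[y3,z2])],.contra [z1,y1,y2,z2],.ref k0 k0 [(z1,[y3,
    z2]),(z1,[z0,z0,z1]),(z1,[z3,y1])],.contra [z1],.ref k0 k0 [(z1,[y1,z1]),(z1,[z0,z0,z1]),(z1,[z1])],.contra [z1]]),
    .old (.leafM k12 [k0,k2,k4,k5] [(z1,[z0,z0,z1]),(z1,[y2,y2,y1,z2]),(z1,[z1])] [(k1,k3,z1,[z0,z1]),(k3,k1,z1,[z0,z1])]),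
    .old (.leafM k11 [k0,k2,k4,k5] [(z1,[z0,z0,z1]),(z1,[y3,y3,y1,z3]),(z1,[z1])] [(k1,k3,z1,[z0,z1]),(k3,k1,z1,[z0,z1])]),
    .old (.lp [k14,k40,k10,k0,k6,k8] [k13,k13,k0,k0,k15,k15,k20,k20,k17,k17,k16,k16] k0 [] k40 k6
    [[(k8,k10)],[(k9,k10),(k4,k12)],[(k6,k20),(k7,k20)],[(k6,k20),(k7,k20)],[(k9,k8),(k4,k10)],[(k5,k10),(k0,k12)],
    [(k2,k20),(k3,k20)],[(k2,k20),(k3,k20)],[(k5,k8),(k0,k10)],[(k1,k10)],[(k10,k8)],[(k11,k8)]]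
    [] k0
    [[k1,k0,k0,k0,k1,k0],[k1,k0,k1,k0,k1,k0],[k0,k0,k2,k0,k0,k0],[k0,k0,k3,k0,k0,k0],[k0,k0,k0,k0,k0,k2],[k0,k0,k0,k0,
    k0,k3],[k0,k0,k0,k0,k0,k4]]
    [.contra [y2,z2,z1],.contra [z1,y1],.contra [z1],.ref k4 k0 [(z1,[z0,z1]),(z1,[z0,z0,z1]),(z1,[z1])],.contra [z1],
    .ref k2 k0 [(z1,[y1,z0,y3,z3]),(z1,[z0,z0,z1])],.ref k3 k0 [(z1,[z0,z1]),(z1,[z0,z0,z1]),(z2,[y1,y4,y4,z4])]]),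
    .old (.lp [k40,k120,k40,k0,k8,k30] [k40,k40,k0,k0,k40,k40,k60,k60,k56,k56,k45,k45] k0 [] k120 k6
    [[(k8,k24)],[(k9,k24),(k4,k40)],[(k6,k60),(k7,k60)],[(k6,k60),(k7,k60)],[(k9,k24),(k4,k40)],[(k0,k40),(k5,k40)],
    [(k2,k60),(k3,k60)],[(k2,k60),(k3,k60)],[(k0,k24),(k5,k24)],[(k1,k24)],[(k10,k30)],[(k11,k30)]]
    [] k0
    [[k1,k0,k0,k0,k1,k0],[k2,k0,k0,k0,k2,k0],[k1,k0,k1,k0,k1,k0],[k0,k0,k2,k0,k0,k0],[k0,k0,k0,k0,k0,k2],[k0,k0,k0,k0,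
    k0,k3]]
    [.contra [y1,z1],.ref k5 k0 [(z2,[z1]),(z1,[z0,y1,z1])],.contra [y1,z1],.contra [z1],.contra [z1],.ref k2 k0 [(z1,
    [y1,z3]),(z1,[z0,y1,z1])]]),
    .old (.leafM k10 [k1,k2,k3,k5] [(z1,[z0,z0,z1]),(z1,[y3,y1,y1,z3]),(z1,[z0,z1])] [(k4,k0,z1,[z1]),(k0,k4,z1,[z1])]),
    .old (.leafM k11 [k1,k2,k3,k5] [(z1,[z0,z0,z1]),(z1,[y3,y3,y1,z3]),(z1,[z0,z1])] [(k4,k0,z1,[z1]),(k0,k4,z1,[z1])]),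
    .old (.lp [k110,k48,k40,k0,k10,k30] [k0,k0,k31,k31,k35,k35,k55,k55,k50,k50,k40,k40] k0 [] k120 k6
    [[(k8,k60)],[(k9,k60),(k4,k75)],[(k6,k24),(k7,k24)],[(k6,k24),(k7,k24)],[(k9,k25),(k4,k40)],[(k5,k40),(k0,k75)],
    [(k2,k24),(k3,k24)],[(k2,k24),(k3,k24)],[(k5,k25),(k0,k60)],[(k1,k60)],[(k10,k30)],[(k11,k30)]]
    [] k0
    [[k0,k1,k0,k1,k0,k0],[k0,k2,k0,k2,k0,k0],[k0,k0,k2,k0,k0,k0],[k0,k0,k0,k0,k0,k2],[k0,k0,k0,k0,k0,k3]]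
    [.contra [y1,y1,z0,z1],.ref k8 k0 [(z1,[z0,z1]),(z2,[z1]),(z1,[z0,y3,y1,z3])],.contra [z1],.contra [z1],
    .ref k7 k0 [(z1,[z0,z1]),(z1,[y1,z0,z1]),(z1,[z0,y3,y1,z3])]]),
    .old (.leafM k11 [k3,k5,k1,k2] [(z1,[y3,y3,y1,z3]),(z1,[z0,z0,z1]),(z1,[z0,z1])] [(k4,k0,z1,[z1]),(k0,k4,z1,[z1])]),
    .old (.leafM k12 [k1,k2,k3,k5] [(z1,[z0,z0,z1]),(z1,[y2,y2,y1,z2]),(z1,[z0,z1])] [(k4,k0,z1,[z1]),(k0,k4,z1,[z1])]),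
    .old (.lp [k32,k20,k8,k0,k8,k10] [k0,k0,k6,k6,k12,k12,k16,k16,k12,k12,k11,k11] k0 [] k40 k6
    [[(k8,k20)],[(k4,k20),(k9,k20)],[(k6,k10),(k7,k10)],[(k6,k10),(k7,k10)],[(k4,k8),(k9,k8)],[(k5,k8),(k0,k20)],[(k2,
    k10),(k3,k10)],[(k2,k10),(k3,k10)],[(k5,k8),(k0,k20)],[(k1,k20)],[(k10,k10)],[(k11,k10)]]
    [] k0
    [[k0,k1,k0,k1,k0,k0],[k0,k0,k2,k0,k0,k0],[k0,k0,k3,k0,k0,k0],[k0,k0,k4,k0,k0,k0],[k0,k0,k0,k0,k0,k2],[k0,k0,k0,k0,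
    k0,k3]]
    [.contra [y1,z0,z2],.contra [z1],.ref k9 k0 [(z1,[z0,z1]),(z1,[y1,y3,z0,z3])],.ref k11 k0 [(z1,[z0,z1]),(z1,[z0,
    z0,z1]),(z2,[z1])],.contra [z1],.ref k10 k0 [(z1,[z0,z1]),(z1,[z0,z0,z1]),(z1,[y1,y3,y3,z3])]]),
    .old (.lp [k102,k48,k30,k0,k18,k40] [k0,k0,k27,k27,k36,k36,k51,k51,k42,k42,k31,k31] k0 [] k120 k6
    [[(k8,k60)],[(k9,k60),(k4,k66)],[(k6,k24),(k7,k24)],[(k6,k24),(k7,k24)],[(k9,k24),(k4,k30)],[(k5,k30),(k0,k66)],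
    [(k2,k24),(k3,k24)],[(k2,k24),(k3,k24)],[(k5,k24),(k0,k60)],[(k1,k60)],[(k10,k40)],[(k11,k40)]]
    [] k0
    [[k0,k1,k0,k1,k0,k0],[k0,k2,k0,k2,k0,k0],[k0,k0,k2,k0,k0,k0],[k0,k0,k3,k0,k0,k0],[k0,k0,k0,k0,k0,k2]]
    [.contra [y1,y1,z1],.ref k12 k0 [(z1,[z0,z1]),(z2,[z1])],.contra [z1],.ref k9 k0 [(z1,[z0,z1]),(z1,[y1,y3,z3])],
    .contra [z1]]),
    .old (.lp [k6,k6,k6,k0,k0,k4] [k0,k0,k0,k0,k0,k0,k3,k3,k3,k3,k1,k1] k0 [] k12 k5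
    [[(k8,k3)],[(k9,k3),(k4,k6)],[(k6,k3),(k7,k3)],[(k6,k3),(k7,k3)],[(k9,k3),(k4,k6)],[(k0,k6),(k5,k6)],[(k2,k3),(k3,
    k3)],[(k2,k3),(k3,k3)],[(k0,k3),(k5,k3)],[(k1,k3)],[(k10,k4)],[(k11,k4)]]
    [] k0
    [[k1,k0,k0,k0,k1,k0],[k0,k1,k0,k1,k0,k0],[k0,k0,k0,k0,k0,k2]]
    [.ref k13 k0 [(z1,[z1])],.ref k6 k0 [(z1,[y1,z1])],.contra [z1]])]⟩

/-- classes `0 0 0 0 1 1`, types `N0 N3 N2 N1 N0 N2` -/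
noncomputable def cU6_234 : CertX :=
  ⟨[k12,k15,k14,k13,k28,k30],[(false,k0,[k0,k1,k2,k3,k4,k5])],[[[([z1,z0,z1,z0,z1,z1],z2)],[]]],
    [.old (.leafM k3 [k0,k2,k4,k5] [] [(k1,k3,z1,[y1,z1]),(k3,k1,z1,[y1,z1])]),
    .old (.lp [k4,k6,k4,k0,k2,k6] [k1,k1,k0,k0,k1,k1,k3,k3,k2,k2,k0,k0] k0 [] k12 k5
    [[(k11,k5)],[(k9,k3),(k4,k4)],[(k6,k3),(k7,k3)],[(k6,k3),(k7,k3)],[(k9,k3),(k4,k4)],[(k0,k4),(k5,k4)],[(k2,k3),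
    (k3,k3)],[(k2,k3),(k3,k3)],[(k0,k3),(k5,k3)],[(k10,k4)],[(k1,k5)],[(k8,k4)]]
    [] k0
    [[k0,k1,k0,k1,k0,k0],[k0,k0,k2,k0,k0,k0]]
    [.ref k0 k0 [(z1,[y1,z1])],.contra [z1]])]⟩

/-- classes `0 0 0 0 1 1`, types `N0 N3 N2 N1 S0 S0` -/
noncomputable def cU6_235 : CertX :=
  ⟨[k12,k15,k14,k13,k16,k16],[(false,k0,[k0,k1,k2,k3,k4,k5])],[[[([z1,z0,z1,z0,z1,z1],z2)],[([z1,z0,z0,z0,z1,z0],z2),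
    ([z0,z3,z0,z3,z0,z0],z2),([z0,z0,z3,z0,z0,z0],z2)],[([z1,z0,z0,z0,z1,z0],z2),([z0,z1,z0,z1,z0,z0],z1),([z0,z0,z3,
    z0,z0,z0],z1)],[([z1,z0,z0,z0,z1,z0],z2),([z0,z3,z3,z3,z0,z0],z4)],[([z1,z0,z0,z0,z1,z0],z2),([z0,z1,z0,z1,z0,z0],
    z1),([z0,z0,z3,z0,z0,z0],z2)],[([z1,z0,z0,z0,z1,z0],z2),([z0,z1,z0,z1,z0,z0],z1),([z0,z0,z2,z0,z0,z0],z1)],[([z1,
    z0,z0,z0,z1,z0],z2),([z0,z1,z0,z1,z0,z0],z1)],[([z1,z0,z0,z0,z1,z0],z2)],[]]],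
    [.old (.leafM k1 [k4,k5,k0,k2] [] [(k1,k3,z1,[y1,z1]),(k3,k1,z1,[y1,z1])]),
    .old (.leafM k10 [k1,k2,k3,k5] [(z1,[z0,z0,z1]),(z1,[y3,y1,y1,z3]),(z1,[z0,z1])] [(k4,k0,z1,[z1]),(k0,k4,z1,[z1])]),
    .old (.leafM k11 [k3,k5,k1,k2] [(z1,[y3,y3,y1,z3]),(z1,[z0,z0,z1]),(z1,[z0,z1])] [(k4,k0,z1,[z1]),(k0,k4,z1,[z1])]),
    .old (.lp [k96,k0,k30,k48,k24,k40] [k0,k0,k48,k48,k33,k33,k24,k24,k36,k36,k28,k28] k0 [] k120 k6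
    [[(k8,k60),(k10,k68),(k11,k68),(k1,k96)],[(k9,k60),(k4,k63)],[(k6,k24),(k7,k24)],[(k6,k24),(k7,k24)],[(k9,k27),
    (k4,k30)],[(k5,k30),(k0,k63)],[(k2,k24),(k3,k24)],[(k2,k24),(k3,k24)],[(k5,k27),(k0,k60)],[(k8,k24),(k10,k32),
    (k11,k32),(k1,k60)],[(k8,k32),(k10,k40),(k11,k40),(k1,k68)],[(k8,k32),(k10,k40),(k11,k40),(k1,k68)]]
    [] k0
    [[k0,k1,k0,k1,k0,k0],[k0,k2,k0,k2,k0,k0],[k0,k0,k2,k0,k0,k0],[k0,k0,k3,k0,k0,k0],[k0,k0,k0,k0,k0,k2]]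
    [.contra [y2,z0,z1],.ref k2 k0 [(z1,[z0,z1]),(z2,[z1]),(z2,[y3,z0,z2])],.contra [z1],.ref k1 k0 [(z1,[z0,z1]),(z1,
    [y1,z0,z1]),(z1,[z1])],.contra [z1]]),
    .old (.leafM k11 [k1,k2,k3,k5] [(z1,[z0,z0,z1]),(z1,[y3,y3,y1,z3]),(z1,[z0,z1])] [(k4,k0,z1,[z1]),(k0,k4,z1,[z1])]),
    .old (.leafM k12 [k1,k2,k3,k5] [(z1,[z0,z0,z1]),(z1,[y2,y2,y1,z2]),(z1,[z0,z1])] [(k4,k0,z1,[z1]),(k0,k4,z1,[z1])]),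
    .old (.lp [k32,k0,k8,k20,k8,k10] [k0,k0,k16,k16,k12,k12,k6,k6,k12,k12,k11,k11] k0 [] k40 k6
    [[(k8,k20),(k10,k21),(k11,k21),(k1,k32)],[(k4,k20),(k9,k20)],[(k6,k10),(k7,k10)],[(k6,k10),(k7,k10)],[(k4,k8),(k9,
    k8)],[(k5,k8),(k0,k20)],[(k2,k10),(k3,k10)],[(k2,k10),(k3,k10)],[(k5,k8),(k0,k20)],[(k8,k8),(k10,k9),(k11,k9),(k1,
    k20)],[(k8,k9),(k10,k10),(k11,k10),(k1,k21)],[(k8,k9),(k10,k10),(k11,k10),(k1,k21)]]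
    [] k0
    [[k0,k1,k0,k1,k0,k0],[k0,k0,k2,k0,k0,k0],[k0,k0,k3,k0,k0,k0],[k0,k0,k4,k0,k0,k0],[k0,k0,k0,k0,k0,k2],[k0,k0,k0,k0,
    k0,k3]]
    [.contra [y1,z0,z2],.contra [z1],.ref k4 k0 [(z1,[z0,z1]),(z1,[z0,z0,z1]),(z1,[z1])],.ref k5 k0 [(z1,[z0,z1]),(z1,
    [z0,z0,z1]),(z2,[z1])],.contra [z1],.ref k3 k0 [(z1,[z0,z1]),(z1,[y1,y3,z0,z3])]]),
    .old (.lp [k96,k0,k40,k48,k24,k30] [k0,k0,k48,k48,k28,k28,k24,k24,k36,k36,k33,k33] k0 [] k120 k6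
    [[(k8,k60),(k10,k63),(k11,k63),(k1,k96)],[(k9,k60),(k4,k68)],[(k6,k24),(k7,k24)],[(k6,k24),(k7,k24)],[(k9,k32),
    (k4,k40)],[(k5,k40),(k0,k68)],[(k2,k24),(k3,k24)],[(k2,k24),(k3,k24)],[(k5,k32),(k0,k60)],[(k8,k24),(k10,k27),
    (k11,k27),(k1,k60)],[(k8,k27),(k10,k30),(k11,k30),(k1,k63)],[(k8,k27),(k10,k30),(k11,k30),(k1,k63)]]
    [] k0
    [[k0,k1,k0,k1,k0,k0],[k0,k2,k0,k2,k0,k0],[k0,k0,k2,k0,k0,k0],[k0,k0,k0,k0,k0,k2],[k0,k0,k0,k0,k0,k3]]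
    [.contra [y1,y1,z1],.ref k6 k0 [(z1,[z0,z1]),(z2,[z1])],.contra [z1],.contra [z1],.ref k3 k0 [(z1,[z0,z1]),(z1,
    [y1,y3,z3])]]),
    .old (.lp [k10,k0,k8,k12,k6,k8] [k1,k1,k6,k6,k2,k2,k0,k0,k3,k3,k2,k2] k0 [] k24 k5
    [[(k8,k8),(k10,k9),(k11,k9),(k1,k10)],[(k9,k8),(k4,k9)],[(k6,k6),(k7,k6)],[(k6,k6),(k7,k6)],[(k9,k7),(k4,k8)],
    [(k5,k8),(k0,k9)],[(k2,k6),(k3,k6)],[(k2,k6),(k3,k6)],[(k5,k7),(k0,k8)],[(k8,k6),(k10,k7),(k11,k7),(k1,k8)],[(k8,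
    k7),(k10,k8),(k11,k8),(k1,k9)],[(k8,k7),(k10,k8),(k11,k8),(k1,k9)]]
    [] k0
    [[k1,k0,k0,k0,k1,k0],[k0,k1,k0,k1,k0,k0],[k0,k0,k2,k0,k0,k0],[k0,k0,k0,k0,k0,k2]]
    [.ref k7 k0 [(z1,[z1])],.ref k0 k0 [(z1,[y1,z1])],.contra [z1],.contra [z1]])]⟩

/-- classes `0 0 0 0 1 1`, types `S0 S0 S0 S0 B0 B1` -/
noncomputable def cU6_236 : CertX :=
  ⟨[k0,k0,k0,k0,k24,k25],[(false,k0,[k0,k1,k2,k3,k4,k5]),(true,k4,[k4,k3,k2,k1,k0,k5])],[[[([z1,z0,z0,z1,z1,z1],z2)],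
    [([z1,z0,z1,z0,z1,z1],z2)],[([z1,z0,z0,z0,z1,z1],z2)],[([z1,z0,z0,z0,z1,z0],z2),([z0,z3,z0,z3,z0,z0],z2),([z0,z0,
    z3,z0,z0,z0],z2)],[([z1,z0,z0,z0,z1,z0],z2),([z0,z1,z0,z1,z0,z0],z1),([z0,z0,z3,z0,z0,z0],z1)],[([z1,z0,z0,z0,z1,
    z0],z2),([z0,z6,z0,z3,z0,z0],z2),([z0,z0,z2,z1,z0,z0],z2)],[([z1,z0,z0,z0,z1,z0],z2),([z0,z2,z0,z1,z0,z0],z2),
    ([z0,z0,z6,z3,z0,z0],z2)],[([z1,z0,z0,z0,z1,z0],z2),([z0,z3,z3,z3,z0,z0],z4)],[([z3,z0,z0,y3,z3,z0],z2),([z0,z3,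
    z0,z3,z0,z0],z4),([z0,z0,z3,z3,z0,z0],z4)],[([z1,z0,z0,z1,z1,z0],z2),([z0,z1,z0,y1,z0,z0],z0),([z0,z0,z3,z3,z0,
    z0],z4)],[([z1,z0,z0,z1,z1,z0],z2),([z0,z3,z3,z0,z0,z0],z4)],[([z1,z0,z1,z0,z1,z0],z2),([z0,z3,z0,z0,z0,z0],z2),
    ([z0,z0,z0,z3,z0,z0],z2)]],[[([z1,z0,z1,z0,z1,z0],z2),([z0,z3,z0,z3,z0,z0],z4)],[([z3,z3,z3,z3,z3,z0],z10)],[([z1,
    z0,z0,z0,z1,z0],z2),([z0,z1,z0,z1,z0,z0],z1),([z0,z0,z2,z0,z0,z0],z1)],[([z1,z0,z0,z0,z1,z0],z2),([z0,z6,z0,z6,z0,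
    z0],z5),([z0,z0,z3,z0,z0,z0],z2)],[([z1,z0,z0,z0,z1,z0],z2),([z0,z2,z2,z2,z0,z0],z3)],[([z1,z0,z0,z0,z1,z0],z2),
    ([z0,z1,z0,z1,z0,z0],z1),([z0,z0,z3,z0,z0,z0],z2)],[([z1,z0,z0,z0,z1,z0],z2),([z0,z3,z0,z3,z0,z3],z4)],[([z1,z0,
    z0,z0,z1,z0],z2)],[]]],
    [.old (.leafM k1 [k0,k3,k4,k5] [] [(k1,k2,z1,[y1,z1]),(k2,k1,z1,[y1,z1])]),
    .old (.leafM k3 [k0,k2,k4,k5] [] [(k1,k3,z1,[y1,z1]),(k3,k1,z1,[y1,z1])]),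
    .old (.leafM k4 [k4,k5,k0,k1,k2,k3] [(z1,[y1,z1])] []),
    .old (.leafM k10 [k1,k2,k3,k5] [(z1,[z0,z0,z1]),(z1,[y3,y1,y1,z3]),(z1,[z0,z1])] [(k4,k0,z1,[z1]),(k0,k4,z1,[z1])]),
    .old (.leafM k8 [k3,k5,k1,k2] [(z1,[y3,y3,y1,z3]),(z1,[z0,z0,z1]),(z1,[z0,z1])] [(k4,k0,z1,[z1]),(k0,k4,z1,[z1])]),
    .old (.lp [k88,k96,k62,k120,k32,k80] [k52,k52,k72,k24,k65,k65,k0,k72,k88,k72,k56,k56] k0 [[k0,k0,k0,k20,k20],[k0,k0,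
    k0,k0,k0,k0,k0,k120],[k0,k20],[],[],[k0,k20],[k120]] (nat_lit 240) k6
    [[(k8,k52),(k11,k84)],[(k2,k48),(k7,k48),(k4,k75),(k5,k75),(k0,k88),(k3,k116),(k6,k140),(k9,k188)],[(k6,k48),(k2,
    k96),(k7,k96),(k9,k96),(k0,k116),(k4,k123),(k5,k123),(k3,k144)],[(k0,k48),(k2,k48),(k7,k48),(k9,k48),(k4,k55),(k5,
    k55),(k3,k96),(k6,k120)],[(k2,k55),(k7,k55),(k9,k55),(k4,k62),(k5,k62),(k0,k75),(k3,k123),(k6,k127)],[(k2,k55),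
    (k7,k55),(k9,k55),(k4,k62),(k5,k62),(k0,k75),(k3,k123),(k6,k127)],[(k0,k48),(k2,k48),(k7,k48),(k9,k48),(k4,k55),
    (k5,k55),(k3,k96),(k6,k120)],[(k3,k48),(k2,k120),(k7,k120),(k9,k120),(k4,k127),(k5,k127),(k0,k140),(k6,k192)],
    [(k2,k48),(k7,k48),(k9,k48),(k4,k55),(k5,k55),(k3,k96),(k6,k120),(k0,k188)],[(k10,k48),(k1,k52)],[(k10,k80),(k1,
    k84)],[(k8,k48),(k11,k80)]]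
    [] k0
    [[k1,k1,k0,k0,k1,k0],[k1,k1,k0,k1,k1,k0],[k1,k0,k1,k0,k1,k0],[k1,k0,k0,k1,k1,k0],[k0,k2,k0,k0,k0,k0],[k0,k2,k0,k1,
    k0,k0],[k0,k1,k1,k0,k0,k0],[k0,k1,k0,k1,k0,k0],[k0,k2,k0,k2,k0,k0],[k0,k1,k1,k1,k0,k0],[k0,k1,k2,k1,k0,k0],[k0,k1,
    k0,k2,k0,k0],[k0,k0,k2,k0,k0,k0],[k0,k0,k3,k0,k0,k0],[k0,k0,k1,k1,k0,k0],[k0,k0,k0,k0,k0,k2]]
    [.contra [z1,y1],.contra [z1,y1],.contra [z1,y1],.contra [y1,z1,z0,z1],.contra [z1],.contra [z1,y4,y1,y2,z4],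
    .contra [y2,z0,z1,z1],.contra [y6,z0,z1,z5],.contra [y2,z0,z1,z1],.contra [z2,y4,y1,y3,z4],.contra [z1,z0,z0,y1],
    .contra [y2,z0,z1,z1],.contra [z1],.contra [z2,z0,z1,y3],.contra [y1,z0,z0,z1],.contra [z1]]),
    .old (.lp [k88,k115,k43,k115,k37,k80] [k42,k42,k57,k0,k62,k67,k9,k48,k78,k57,k46,k46] k0 [[k0,k0,k15,k0,k0,k20],[k0,
    k0,k0,k0,k0,k0,k0,k115],[k0,k0,k0,k10,k5],[k0,k15],[k0,k20,k0,k0,k0,k0,k5],[k0,k0,k0,k5],[k115],[k0,k0,k0,k0,k0,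
    k5,k10]] (nat_lit 240) k6
    [[(k8,k52),(k11,k84)],[(k4,k48),(k5,k48),(k2,k73),(k7,k82),(k0,k88),(k6,k121),(k3,k130),(k9,k188)],[(k6,k48),(k5,
    k105),(k4,k110),(k9,k115),(k0,k130),(k2,k130),(k7,k144),(k3,k172)],[(k2,k48),(k5,k48),(k4,k53),(k9,k58),(k7,k62),
    (k0,k73),(k6,k106),(k3,k130)],[(k0,k48),(k2,k48),(k4,k48),(k5,k48),(k9,k48),(k7,k57),(k6,k96),(k3,k105)],[(k0,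
    k48),(k4,k48),(k5,k48),(k9,k48),(k2,k53),(k7,k62),(k6,k101),(k3,k110)],[(k5,k57),(k2,k62),(k4,k62),(k9,k67),(k7,
    k76),(k0,k82),(k6,k120),(k3,k144)],[(k3,k48),(k5,k96),(k4,k101),(k2,k106),(k9,k106),(k7,k120),(k0,k121),(k6,
    k164)],[(k4,k48),(k5,k48),(k9,k48),(k2,k58),(k7,k67),(k6,k106),(k3,k115),(k0,k188)],[(k10,k48),(k1,k52)],[(k10,
    k80),(k1,k84)],[(k8,k48),(k11,k80)]]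
    [] k0
    [[k1,k0,k1,k0,k1,k0],[k1,k0,k2,k0,k1,k0],[k1,k0,k1,k0,k1,k1],[k0,k2,k0,k0,k0,k0],[k0,k1,k1,k0,k0,k0],[k0,k1,k2,k0,
    k0,k0],[k0,k1,k0,k1,k0,k0],[k0,k2,k0,k2,k0,k0],[k0,k1,k1,k1,k0,k0],[k0,k1,k2,k1,k0,k0],[k0,k1,k0,k2,k0,k0],[k0,k0,
    k2,k0,k0,k0],[k0,k0,k3,k0,k0,k0],[k0,k0,k4,k0,k0,k0],[k0,k0,k2,k1,k0,k0],[k0,k0,k1,k1,k0,k0],[k0,k0,k0,k0,k0,k2]]
    [.contra [z1,y1],.contra [z1,y1],.contra [z1,z0,z1,z0,y1],.contra [z1],.contra [y2,z0,z1,z1],.contra [y2,z0,z1,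
    z1],.contra [y1,z0,z1],.contra [y1,z0,z2],.contra [z2,y4,y3,y1,z4],.contra [y2,z0,z1,z1],.contra [y2,z0,z1,z1],
    .contra [z1],.contra [y1,z0,z0,z1],.contra [y1,z0,z0,z1],.contra [z1,y4,y2,y1,z4],.contra [y6,z0,z5,z1],
    .contra [z1]]),
    .old (.lp [k28,k45,k30,k64,k32,k40] [k37,k37,k39,k18,k36,k36,k0,k38,k35,k35,k31,k31] k0 [[],[k0,k0,k0,k0,k0,k0,k0,
    k60],[],[k0,k0,k0,k0,k0,k0,k7],[k0,k0,k0,k0,k0,k0,k7],[],[k60],[k0,k0,k7,k0,k0,k7]] k120 k6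
    [[(k8,k30),(k11,k34)],[(k2,k26),(k7,k27),(k0,k28),(k4,k29),(k5,k29),(k3,k47),(k6,k65),(k9,k90)],[(k6,k24),(k2,
    k45),(k7,k46),(k0,k47),(k4,k48),(k5,k48),(k9,k49),(k3,k66)],[(k2,k24),(k7,k25),(k0,k26),(k4,k27),(k5,k27),(k9,
    k28),(k3,k45),(k6,k70)],[(k9,k24),(k2,k27),(k7,k28),(k0,k29),(k4,k30),(k5,k30),(k3,k48),(k6,k66)],[(k9,k24),(k2,
    k27),(k7,k28),(k0,k29),(k4,k30),(k5,k30),(k3,k48),(k6,k66)],[(k2,k25),(k7,k26),(k0,k27),(k4,k28),(k5,k28),(k9,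
    k29),(k3,k46),(k6,k71)],[(k3,k24),(k0,k65),(k4,k66),(k5,k66),(k9,k67),(k2,k70),(k7,k71),(k6,k102)],[(k4,k24),(k5,
    k24),(k2,k28),(k7,k29),(k9,k32),(k3,k49),(k6,k67),(k0,k90)],[(k1,k30),(k10,k36)],[(k1,k34),(k10,k40)],[(k8,k36),
    (k11,k40)]]
    [] k0
    [[k1,k1,k0,k0,k1,k0],[k1,k1,k0,k1,k1,k0],[k1,k0,k1,k0,k1,k0],[k1,k0,k2,k0,k1,k0],[k0,k2,k0,k0,k0,k0],[k0,k2,k0,k1,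
    k0,k0],[k0,k1,k1,k0,k0,k0],[k0,k1,k2,k0,k0,k0],[k0,k1,k0,k1,k0,k0],[k0,k2,k0,k2,k0,k0],[k0,k1,k1,k1,k0,k0],[k0,k1,
    k2,k1,k0,k0],[k0,k0,k2,k0,k0,k0],[k0,k0,k3,k0,k0,k0],[k0,k0,k1,k1,k0,k0],[k0,k0,k0,k0,k0,k2]]
    [.contra [z1,y1],.contra [z1,y1],.contra [z1,y1],.contra [z1,y1],.contra [z1],.ref k6 k0 [(z1,[z0,z1]),(z1,[z1]),
    (z1,[y3,z0,z2])],.contra [y2,z0,z1],.ref k5 k1 [(z1,[z0,z1]),(z1,[y3,z0,z2]),(z1,[z1])],.contra [y2,z0,z1],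
    .ref k4 k0 [(z1,[z0,z1]),(z2,[z1]),(z2,[y3,z0,z2])],.contra [z1,y2,y1,z2],.ref k3 k0 [(z1,[z0,z1]),(z1,[y3,z0,
    z2]),(z1,[z3,z0,y1])],.contra [z1],.ref k3 k0 [(z1,[z0,z1]),(z1,[y1,z0,z1]),(z1,[z1])],.contra [y2,z0,z1],
    .contra [z1]]),
    .old (.lp [k30,k38,k60,k41,k30,k40] [k15,k15,k11,k11,k0,k0,k8,k11,k15,k15,k10,k10] k0 [[k0,k0,k0,k0,k3,k0,k0,k7],[k0,
    k0,k15],[],[k15,k0,k0,k0,k3,k0,k0,k22],[],[k0,k3,k3],[k0,k7,k22]] k120 k5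
    [[(k8,k30),(k11,k35)],[(k0,k30),(k6,k30),(k9,k30),(k7,k31),(k3,k34),(k4,k45),(k5,k45),(k2,k49)],[(k0,k34),(k5,
    k34),(k2,k38),(k3,k38),(k7,k38),(k6,k41),(k9,k41),(k4,k52)],[(k2,k38),(k3,k38),(k7,k38),(k6,k41),(k0,k49),(k5,
    k49),(k4,k52),(k9,k56)],[(k6,k30),(k3,k34),(k0,k45),(k9,k45),(k7,k46),(k2,k49),(k4,k60),(k5,k60)],[(k0,k45),(k9,
    k45),(k7,k49),(k2,k52),(k3,k52),(k6,k52),(k4,k60),(k5,k60)],[(k0,k31),(k9,k34),(k2,k38),(k3,k38),(k7,k38),(k6,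
    k41),(k5,k46),(k4,k49)],[(k0,k30),(k5,k30),(k9,k37),(k2,k41),(k3,k41),(k7,k41),(k6,k44),(k4,k52)],[(k0,k30),(k9,
    k30),(k7,k34),(k6,k37),(k3,k41),(k4,k45),(k5,k45),(k2,k56)],[(k1,k30),(k10,k35)],[(k1,k35),(k10,k40)],[(k8,k35),
    (k11,k40)]]
    [] k0
    [[k1,k0,k0,k0,k1,k0],[k1,k0,k0,k1,k1,k0],[k1,k0,k0,k0,k1,k1],[k0,k2,k0,k0,k0,k0],[k0,k3,k0,k0,k0,k0],[k0,k2,k0,k1,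
    k0,k0],[k0,k1,k1,k0,k0,k0],[k0,k1,k0,k1,k0,k0],[k0,k0,k1,k1,k0,k0],[k0,k0,k0,k2,k0,k0],[k0,k0,k0,k0,k0,k2]]
    [.contra [y3,z1,z1],.ref k2 k0 [(z6,[z3,y1,y2,y2,z6])],.ref k2 k0 [(z1,[z1])],.contra [z1],.ref k2 k0 [(z3,[y1,z0,
    z0,y1,z3])],.ref k2 k0 [(z3,[y3,z0,z1,y1,z3])],.contra [z3,z0,z1,y1],.contra [z3,y2,y3,y2,z6],.contra [z3,y2,y2,
    y3,z6],.contra [z1],.contra [z1]]),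
    .old (.lp [k60,k82,k76,k88,k92,k80] [k32,k32,k21,k21,k24,k24,k18,k18,k32,k0,k22,k22] k0 [[k0,k0,k8,k0,k0,k0,k0,k6],
    [k0,k0,k0,k0,k0,k0,k0,k8],[k0,k0,k0,k0,k12],[k0,k8,k0,k0,k0,k0,k0,k6],[k0,k0,k0,k0,k0,k0,k32,k6],[k0,k0,k0,k12],
    [k8,k6,k6,k0,k0,k6],[k0,k0,k0,k0,k0,k32,k64]] (nat_lit 240) k5
    [[(k8,k60),(k11,k70)],[(k0,k60),(k5,k60),(k4,k68),(k6,k68),(k2,k71),(k3,k71),(k7,k74),(k9,k100)],[(k0,k71),(k6,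
    k77),(k4,k79),(k5,k79),(k3,k82),(k7,k85),(k2,k90),(k9,k109)],[(k0,k71),(k7,k73),(k4,k79),(k5,k79),(k2,k82),(k6,
    k85),(k3,k90),(k9,k109)],[(k0,k60),(k5,k76),(k6,k76),(k2,k79),(k3,k79),(k7,k82),(k4,k88),(k9,k100)],[(k0,k68),(k9,
    k68),(k4,k76),(k6,k76),(k2,k79),(k3,k79),(k7,k82),(k5,k88)],[(k2,k73),(k0,k74),(k4,k82),(k5,k82),(k3,k85),(k7,
    k88),(k9,k112),(k6,k120)],[(k0,k68),(k4,k76),(k5,k76),(k3,k77),(k2,k85),(k9,k106),(k7,k120),(k6,k152)],[(k9,k60),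
    (k4,k68),(k0,k100),(k5,k100),(k6,k106),(k2,k109),(k3,k109),(k7,k112)],[(k1,k60),(k10,k70)],[(k1,k70),(k10,k80)],
    [(k8,k70),(k11,k80)]]
    [] k0
    [[k1,k0,k0,k0,k1,k0],[k1,k0,k1,k0,k1,k0],[k0,k2,k0,k0,k0,k0],[k0,k1,k1,k0,k0,k0],[k0,k1,k2,k0,k0,k0],[k0,k1,k1,k1,
    k0,k0],[k0,k1,k0,k1,k0,k0],[k0,k0,k2,k0,k0,k0],[k0,k0,k2,k1,k0,k0],[k0,k0,k1,k1,k0,k0],[k0,k0,k0,k0,k0,k2]]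
    [.contra [y1,z1,z1],.ref k2 k0 [(z2,[z1,y1,y2,y1,z2])],.contra [z1],.contra [z1,y2,y3,y1,z2],.ref k2 k0 [(z1,[z1,
    z0,y2,y1,z1])],.ref k2 k0 [(z1,[y1,z0,z0,z0,z1])],.contra [z1,z0,z1],.contra [z1],.ref k2 k0 [(z1,[z1,z0,y1,y1,
    z1])],.contra [z1,y2,y2,y1,z2],.contra [z1]]),
    .old (.lp [k144,k150,k150,(nat_lit 240),k96,k160] [k48,k48,k45,k45,k45,k45,k0,k0,k72,k72,k40,k40] k0 [[k0,k0,k30,k30],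
    [],[k0,k30,k0,k0,k30],[k0,k30,k0,k0,k30],[],[k0,k0,k30,k30]] (nat_lit 480) k6
    [[(k8,k120),(k11,k152)],[(k2,k117),(k5,k117),(k9,k120),(k0,k144),(k3,k147),(k4,k147),(k6,k192),(k7,k192)],[(k9,
    k123),(k0,k147),(k3,k150),(k4,k150),(k2,k180),(k5,k180),(k6,k195),(k7,k195)],[(k0,k117),(k9,k123),(k2,k150),(k5,
    k150),(k7,k165),(k3,k180),(k4,k180),(k6,k195)],[(k0,k117),(k9,k123),(k2,k150),(k5,k150),(k7,k165),(k3,k180),(k4,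
    k180),(k6,k195)],[(k9,k123),(k0,k147),(k3,k150),(k4,k150),(k2,k180),(k5,k180),(k6,k195),(k7,k195)],[(k2,k165),(k5,
    k165),(k9,k168),(k0,k192),(k3,k195),(k4,k195),(k6,(nat_lit 240)),(k7,(nat_lit 240))],[(k9,k168),(k0,k192),(k2,
    k195),(k3,k195),(k4,k195),(k5,k195),(k6,(nat_lit 240)),(k7,(nat_lit 240))],[(k9,k96),(k0,k120),(k2,k123),(k3,
    k123),(k4,k123),(k5,k123),(k6,k168),(k7,k168)],[(k1,k120),(k10,k128)],[(k1,k152),(k10,k160)],[(k8,k128),(k11,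
    k160)]]
    [] k0
    [[k1,k0,k0,k0,k1,k0],[k1,k1,k0,k0,k1,k0],[k1,k0,k1,k0,k1,k0],[k1,k0,k0,k0,k1,k1],[k0,k2,k0,k0,k0,k0],[k0,k1,k1,k0,
    k0,k0],[k0,k1,k0,k1,k0,k0],[k0,k0,k2,k0,k0,k0],[k0,k0,k1,k1,k0,k0],[k0,k0,k0,k0,k0,k2]]
    [.contra [y1,z1],.ref k9 k0 [(z1,[z0,z1]),(z1,[z1,y1]),(z1,[y3,z3,z1])],.ref k8 k1 [(z1,[z3,z0,y1]),(z1,[y3,z3,
    z1]),(z1,[z0,z0,z1])],.ref k2 k0 [(z1,[z1])],.contra [z1],.contra [z1,y2,y1,z2],.ref k1 k0 [(z1,[y1,z0,z0,z1])],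
    .contra [z1],.ref k0 k1 [(z1,[y1,z0,z0,z1])],.contra [z1]]),
    .old (.leafM k2 [k0,k1,k2,k3,k4,k5] [(z1,[z0,z1]),(z1,[z0,z0,z1]),(z1,[y3,y1,y1,z3])] []),
    .old (.lp [k30,k38,k60,k41,k30,k40] [k15,k15,k11,k11,k0,k0,k8,k11,k15,k15,k10,k10] k0 [[k0,k0,k0,k0,k3,k0,k0,k7],[k0,
    k0,k15],[],[k15,k0,k0,k0,k3,k0,k0,k22],[],[k0,k3,k3],[k0,k7,k22]] k120 k5
    [[(k8,k30),(k11,k35)],[(k0,k30),(k6,k30),(k9,k30),(k7,k31),(k3,k34),(k4,k45),(k5,k45),(k2,k49)],[(k0,k34),(k5,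
    k34),(k2,k38),(k3,k38),(k7,k38),(k6,k41),(k9,k41),(k4,k52)],[(k2,k38),(k3,k38),(k7,k38),(k6,k41),(k0,k49),(k5,
    k49),(k4,k52),(k9,k56)],[(k6,k30),(k3,k34),(k0,k45),(k9,k45),(k7,k46),(k2,k49),(k4,k60),(k5,k60)],[(k0,k45),(k9,
    k45),(k7,k49),(k2,k52),(k3,k52),(k6,k52),(k4,k60),(k5,k60)],[(k0,k31),(k9,k34),(k2,k38),(k3,k38),(k7,k38),(k6,
    k41),(k5,k46),(k4,k49)],[(k0,k30),(k5,k30),(k9,k37),(k2,k41),(k3,k41),(k7,k41),(k6,k44),(k4,k52)],[(k0,k30),(k9,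
    k30),(k7,k34),(k6,k37),(k3,k41),(k4,k45),(k5,k45),(k2,k56)],[(k1,k30),(k10,k35)],[(k1,k35),(k10,k40)],[(k8,k35),
    (k11,k40)]]
    [] k0
    [[k1,k0,k0,k0,k1,k0],[k1,k0,k0,k1,k1,k0],[k1,k0,k0,k0,k1,k1],[k0,k2,k0,k0,k0,k0],[k0,k3,k0,k0,k0,k0],[k0,k2,k0,k1,
    k0,k0],[k0,k1,k1,k0,k0,k0],[k0,k1,k0,k1,k0,k0],[k0,k0,k1,k1,k0,k0],[k0,k0,k0,k2,k0,k0],[k0,k0,k0,k0,k0,k2]]
    [.contra [y1,z1],.ref k10 k0 [(z1,[z1]),(z1,[y3,z3,z1])],.ref k2 k0 [(z1,[z1])],.contra [z1],.ref k11 k0 [(z1,[z0,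
    z1]),(z1,[z1]),(z1,[y1,z0,z1])],.ref k11 k0 [(z1,[z0,z1]),(z1,[z3,z0,y1]),(z1,[y3,z0,z2])],.ref k0 k0 [(z1,[y1,z0,
    z0,z1])],.contra [z1,y2,y1,z2],.ref k0 k1 [(z1,[y1,z0,z0,z1])],.contra [z1],.contra [z1]]),
    .old (.lp [k60,k84,k114,k78,k60,k80] [k27,k27,k15,k15,k0,k0,k18,k18,k27,k27,k17,k17] k0 [[k0,k0,k0,k0,k6,k6,k0,k9],
    [k0,k0,k27],[k0,k0,k0,k12,k6],[k27,k0,k0,k0,k0,k0,k0,k36],[k0,k6,k0,k0,k0,k0,k6],[k0,k6,k0,k6,k0,k0,k6],[k0,k9,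
    k36],[k0,k0,k0,k0,k6,k6]] (nat_lit 240) k5
    [[(k8,k60),(k11,k70)],[(k0,k60),(k6,k60),(k9,k60),(k7,k63),(k3,k72),(k4,k81),(k5,k87),(k2,k99)],[(k0,k72),(k5,
    k72),(k6,k81),(k9,k81),(k2,k84),(k3,k84),(k7,k87),(k4,k105)],[(k2,k72),(k7,k75),(k6,k81),(k3,k84),(k0,k99),(k4,
    k99),(k5,k99),(k9,k108)],[(k6,k60),(k3,k72),(k0,k87),(k9,k87),(k7,k96),(k2,k99),(k4,k120),(k5,k126)],[(k0,k81),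
    (k9,k81),(k7,k96),(k2,k99),(k6,k102),(k3,k105),(k4,k114),(k5,k120)],[(k0,k63),(k9,k63),(k2,k75),(k7,k78),(k6,k84),
    (k3,k87),(k4,k96),(k5,k96)],[(k0,k60),(k5,k60),(k9,k69),(k6,k78),(k2,k81),(k3,k81),(k7,k84),(k4,k102)],[(k0,k60),
    (k9,k60),(k7,k63),(k6,k69),(k3,k81),(k4,k81),(k5,k87),(k2,k108)],[(k1,k60),(k10,k70)],[(k1,k70),(k10,k80)],[(k8,
    k70),(k11,k80)]]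
    [] k0
    [[k1,k0,k0,k0,k1,k0],[k1,k0,k1,k0,k1,k0],[k1,k0,k0,k1,k1,k0],[k1,k0,k0,k0,k1,k1],[k0,k2,k0,k0,k0,k0],[k0,k1,k1,k0,
    k0,k0],[k0,k1,k0,k1,k0,k0],[k0,k0,k1,k1,k0,k0],[k0,k0,k0,k2,k0,k0],[k0,k0,k0,k0,k0,k2]]
    [.ref k7 k0 [(z1,[z1]),(z1,[y3,z1])],.ref k12 k0 [(z1,[z1]),(z1,[y3,z1])],.ref k10 k0 [(z1,[z1]),(z1,[y3,z1])],
    .ref k2 k0 [(z1,[z1])],.contra [z1],.ref k0 k0 [(z1,[y1,z0,z1])],.ref k1 k0 [(z1,[y1,z0,z1])],.ref k0 k1 [(z1,[y1,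
    z0,z1])],.contra [z1],.contra [z1]]),
    .old (.leafM k9 [k3,k5,k1,k2] [(z1,[y2,y2,y1,z2]),(z1,[z0,z0,z1]),(z1,[z0,z1])] [(k4,k0,z1,[z1]),(k0,k4,z1,[z1])]),
    .old (.lp [k74,k80,k80,k116,k68,k60] [k53,k53,k66,k34,k50,k50,k0,k64,k56,k56,k60,k60] k0 [[k0,k0,k0,k0,k0,k0,k0,k18],
    [k0,k0,k0,k0,k0,k0,k0,k98],[],[k0,k0,k0,k0,k0,k0,k26,k18],[k0,k0,k0,k0,k0,k0,k26],[],[k98,k18,k18],[k0,k0,k26,k0,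
    k0,k26,k8]] (nat_lit 240) k6
    [[(k11,k67),(k8,k71)],[(k2,k61),(k7,k63),(k0,k74),(k4,k77),(k5,k77),(k3,k93),(k6,k109),(k9,k169)],[(k6,k48),(k2,
    k80),(k7,k82),(k0,k93),(k4,k96),(k5,k96),(k9,k108),(k3,k112)],[(k2,k48),(k7,k50),(k0,k61),(k4,k64),(k5,k64),(k9,
    k76),(k3,k80),(k6,k140)],[(k9,k48),(k2,k64),(k7,k66),(k0,k77),(k4,k80),(k5,k80),(k3,k96),(k6,k112)],[(k9,k48),(k2,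
    k64),(k7,k66),(k0,k77),(k4,k80),(k5,k80),(k3,k96),(k6,k130)],[(k2,k50),(k7,k52),(k9,k60),(k0,k63),(k4,k66),(k5,
    k66),(k3,k82),(k6,k142)],[(k3,k48),(k0,k109),(k5,k112),(k9,k124),(k4,k130),(k2,k140),(k7,k142),(k6,k188)],[(k4,
    k48),(k5,k48),(k7,k60),(k9,k60),(k2,k76),(k3,k108),(k6,k124),(k0,k169)],[(k10,k64),(k1,k71)],[(k10,k60),(k1,k67)],
    [(k11,k60),(k8,k64)]]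
    [] k0
    [[k1,k0,k1,k0,k1,k0],[k0,k2,k0,k0,k0,k0],[k0,k2,k0,k1,k0,k0],[k0,k1,k1,k0,k0,k0],[k0,k1,k0,k1,k0,k0],[k0,k2,k0,k2,
    k0,k0],[k0,k1,k1,k1,k0,k0],[k0,k0,k2,k0,k0,k0],[k0,k0,k1,k1,k0,k0],[k0,k0,k0,k0,k0,k2],[k0,k0,k0,k0,k0,k3]]
    [.contra [y1,z1,z0,z1],.contra [z1],.contra [y6,z0,z2,z1],.contra [y12,z0,z2,z7],.contra [z6,z0,y1,z7],
    .contra [z3,z0,y1,z1],.contra [z6,z0,y1,z1],.contra [z1],.contra [y12,z0,z2,z7],.contra [z3,z6,z1,z5,y6],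
    .contra [z2,z6,z1,z3,y6]]),
    .old (.lp [k32,k56,k32,k56,k32,k30] [k28,k28,k32,k0,k28,k28,k8,k24,k28,k28,k29,k29] k0 [[k0,k0,k8,k0,k0,k8],[k0,k0,k0,
    k0,k0,k0,k0,k56],[],[k0,k8,k0,k0,k0,k0,k8],[k0,k8,k0,k0,k0,k0,k8],[],[k56],[k0,k0,k8,k0,k0,k8,k8]] k120 k6
    [[(k11,k31),(k8,k32)],[(k4,k24),(k5,k24),(k2,k28),(k0,k32),(k7,k36),(k6,k52),(k3,k60),(k9,k88)],[(k6,k24),(k0,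
    k60),(k4,k60),(k5,k60),(k9,k60),(k2,k64),(k7,k72),(k3,k88)],[(k2,k24),(k0,k28),(k4,k28),(k5,k28),(k9,k28),(k7,
    k32),(k6,k56),(k3,k64)],[(k0,k24),(k9,k24),(k2,k28),(k4,k32),(k5,k32),(k7,k36),(k6,k52),(k3,k60)],[(k0,k24),(k9,
    k24),(k2,k28),(k4,k32),(k5,k32),(k7,k36),(k6,k52),(k3,k60)],[(k2,k32),(k0,k36),(k4,k36),(k5,k36),(k9,k36),(k7,
    k40),(k6,k64),(k3,k72)],[(k3,k24),(k0,k52),(k4,k52),(k5,k52),(k9,k52),(k2,k56),(k7,k64),(k6,k80)],[(k4,k24),(k5,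
    k24),(k9,k24),(k2,k28),(k7,k36),(k6,k52),(k3,k60),(k0,k88)],[(k10,k31),(k1,k32)],[(k10,k30),(k1,k31)],[(k11,k30),
    (k8,k31)]]
    [] k0
    [[k1,k0,k1,k0,k1,k0],[k1,k0,k2,k0,k1,k0],[k1,k0,k1,k0,k1,k1],[k0,k2,k0,k0,k0,k0],[k0,k1,k1,k0,k0,k0],[k0,k1,k0,k1,
    k0,k0],[k0,k2,k0,k2,k0,k0],[k0,k1,k1,k1,k0,k0],[k0,k0,k2,k0,k0,k0],[k0,k0,k3,k0,k0,k0],[k0,k0,k1,k1,k0,k0],[k0,k0,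
    k0,k0,k0,k2],[k0,k0,k0,k0,k0,k3]]
    [.contra [z1,y1],.contra [z1,y1],.contra [z3,z0,z2,y3],.contra [z1],.contra [y3,z0,z2],.contra [y3,z0,z2],
    .ref k14 k0 [(z1,[z0,z1]),(z2,[z1]),(z1,[y1,z0,z1])],.contra [z1,y1,y1,z1],.contra [z1],.ref k15 k0 [(z1,[z0,z1]),
    (z1,[y2,z0,z3]),(z1,[z1])],.contra [y3,z0,z2],.contra [z1],.contra [z1,z2,z1,y2]]),
    .old (.leafM k11 [k1,k2,k3,k5] [(z1,[z0,z0,z1]),(z1,[y3,y3,y1,z3]),(z1,[z0,z1])] [(k4,k0,z1,[z1]),(k0,k4,z1,[z1])]),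
    .old (.lp [k18,k30,k17,k30,k12,k12] [k12,k12,k12,k0,k12,k13,k0,k12,k15,k15,k15,k15] k0 [[k0,k0,k3,k0,k0,k6],[k0,k0,k0,
    k0,k0,k0,k0,k30],[k0,k0,k0,k6,k3],[k0,k3],[k0,k6,k0,k0,k0,k0,k3],[k0,k0,k0,k3],[k30],[k0,k0,k0,k0,k0,k3]] k60 k6
    [[(k8,k15),(k11,k15)],[(k4,k12),(k5,k14),(k0,k18),(k2,k18),(k7,k18),(k3,k30),(k6,k30),(k9,k45)],[(k6,k12),(k9,
    k27),(k5,k29),(k0,k30),(k4,k30),(k2,k33),(k7,k36),(k3,k42)],[(k2,k12),(k7,k15),(k9,k15),(k5,k17),(k0,k18),(k4,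
    k18),(k6,k30),(k3,k33)],[(k0,k14),(k9,k14),(k2,k17),(k7,k17),(k4,k20),(k5,k22),(k3,k29),(k6,k29)],[(k0,k12),(k9,
    k12),(k2,k18),(k4,k18),(k7,k18),(k5,k20),(k3,k30),(k6,k30)],[(k2,k15),(k9,k15),(k5,k17),(k0,k18),(k4,k18),(k7,
    k18),(k6,k33),(k3,k36)],[(k3,k12),(k9,k27),(k5,k29),(k0,k30),(k2,k30),(k4,k30),(k7,k33),(k6,k42)],[(k4,k12),(k9,
    k12),(k5,k14),(k2,k15),(k7,k15),(k3,k27),(k6,k27),(k0,k45)],[(k10,k12),(k1,k15)],[(k10,k12),(k1,k15)],[(k8,k12),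
    (k11,k12)]]
    [] k0
    [[k1,k0,k1,k0,k1,k0],[k1,k0,k1,k0,k1,k1],[k0,k2,k0,k0,k0,k0],[k0,k1,k1,k0,k0,k0],[k0,k1,k0,k1,k0,k0],[k0,k2,k0,k2,
    k0,k0],[k0,k1,k1,k1,k0,k0],[k0,k0,k2,k0,k0,k0],[k0,k0,k1,k1,k0,k0],[k0,k0,k0,k0,k0,k2],[k0,k0,k0,k0,k0,k3],[k0,k0,
    k0,k0,k0,k4]]
    [.contra [y1,y2,y1,z3],.contra [z1,y1],.contra [z1],.contra [y1,y1,z0,z1],.contra [y1,y1,z0,z1],.ref k17 k0 [(z1,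
    [z0,z1]),(z2,[z1]),(z1,[z0,y3,y1,z3])],.contra [y1,y1,z0,z1],.contra [z1],.contra [y1,y1,z0,z1],.contra [z1],
    .ref k13 k0 [(z1,[y1,z0,z0,z3])],.ref k16 k0 [(z1,[z0,z1]),(z2,[y1,y4,z0,z4])]]),
    .old (.lp [(nat_lit 252),(nat_lit 420),(nat_lit 210),(nat_lit 420),k168,k168] [(nat_lit 204),(nat_lit 204),
    (nat_lit 240),k0,(nat_lit 225),(nat_lit 225),k50,k190,(nat_lit 246),(nat_lit 246),(nat_lit 246),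
    (nat_lit 246)] k0 [[],[k0,k0,k0,k0,k0,k0,k0,(nat_lit 420)],[],[],[],[],[(nat_lit 420)]] (nat_lit 840) k6
    [[(k8,(nat_lit 210)),(k11,(nat_lit 210))],[(k2,(nat_lit 216)),(k4,(nat_lit 231)),(k5,(nat_lit 231)),(k0,
    (nat_lit 252)),(k7,(nat_lit 266)),(k6,(nat_lit 406)),(k3,(nat_lit 456)),(k9,(nat_lit 630))],[(k6,k190),(k9,
    (nat_lit 414)),(k2,(nat_lit 420)),(k4,(nat_lit 435)),(k5,(nat_lit 435)),(k0,(nat_lit 456)),(k7,(nat_lit 470)),(k3,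
    (nat_lit 660))],[(k9,k174),(k2,k180),(k4,k195),(k5,k195),(k0,(nat_lit 216)),(k7,(nat_lit 230)),(k6,(nat_lit 370)),
    (k3,(nat_lit 420))],[(k9,k189),(k2,k195),(k4,(nat_lit 210)),(k5,(nat_lit 210)),(k0,(nat_lit 231)),(k7,
    (nat_lit 245)),(k6,(nat_lit 385)),(k3,(nat_lit 435))],[(k9,k189),(k2,k195),(k4,(nat_lit 210)),(k5,(nat_lit 210)),
    (k0,(nat_lit 231)),(k7,(nat_lit 245)),(k6,(nat_lit 385)),(k3,(nat_lit 435))],[(k9,(nat_lit 224)),(k2,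
    (nat_lit 230)),(k4,(nat_lit 245)),(k5,(nat_lit 245)),(k0,(nat_lit 266)),(k7,(nat_lit 280)),(k6,(nat_lit 420)),(k3,
    (nat_lit 470))],[(k3,k190),(k9,(nat_lit 364)),(k2,(nat_lit 370)),(k4,(nat_lit 385)),(k5,(nat_lit 385)),(k0,
    (nat_lit 406)),(k7,(nat_lit 420)),(k6,(nat_lit 560))],[(k9,k168),(k2,k174),(k4,k189),(k5,k189),(k7,(nat_lit 224)),
    (k6,(nat_lit 364)),(k3,(nat_lit 414)),(k0,(nat_lit 630))],[(k10,k168),(k1,(nat_lit 210))],[(k10,k168),(k1,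
    (nat_lit 210))],[(k8,k168),(k11,k168)]]
    [] k0
    [[k1,k0,k1,k0,k1,k0],[k1,k0,k1,k0,k1,k1],[k0,k1,k1,k0,k0,k0],[k0,k1,k0,k1,k0,k0],[k0,k1,k1,k1,k0,k0],[k0,k0,k2,k0,
    k0,k0],[k0,k0,k3,k0,k0,k0],[k0,k0,k1,k1,k0,k0],[k0,k0,k0,k0,k0,k2],[k0,k0,k0,k0,k0,k3],[k0,k0,k0,k0,k0,k4]]
    [.contra [z1,y1],.contra [z1,y1],.contra [y1,y1,z1],.contra [y1,y1,z1],.contra [y1,y1,z1],.contra [z1],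
    .ref k18 k0 [(z1,[z0,z1]),(z1,[y1,y3,z3])],.contra [y1,y1,z1],.contra [z1],.ref k13 k0 [(z1,[y1,z0,z3])],
    .ref k16 k0 [(z1,[z0,z1]),(z2,[y1,y4,z4])]]),
    .old (.lp [k54,k42,k40,k42,k30,k30] [k0,k0,k6,k6,k7,k7,k6,k6,k12,k12,k12,k12] k0 [[],[k0,k0,k0,k0,k0,k0,k0,k6],[],[],
    [],[],[k6]] k120 k5
    [[(k8,k42),(k11,k42)],[(k4,k47),(k5,k47),(k2,k48),(k3,k48),(k6,k48),(k7,k48),(k9,k48),(k0,k54)],[(k6,k36),(k9,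
    k36),(k4,k41),(k5,k41),(k2,k42),(k3,k42),(k7,k42),(k0,k48)],[(k9,k36),(k4,k41),(k5,k41),(k2,k42),(k3,k42),(k6,
    k42),(k7,k42),(k0,k48)],[(k9,k35),(k4,k40),(k5,k40),(k2,k41),(k3,k41),(k6,k41),(k7,k41),(k0,k47)],[(k9,k35),(k4,
    k40),(k5,k40),(k2,k41),(k3,k41),(k6,k41),(k7,k41),(k0,k47)],[(k9,k36),(k4,k41),(k5,k41),(k2,k42),(k3,k42),(k6,
    k42),(k7,k42),(k0,k48)],[(k3,k36),(k9,k36),(k4,k41),(k5,k41),(k2,k42),(k6,k42),(k7,k42),(k0,k48)],[(k9,k30),(k4,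
    k35),(k5,k35),(k2,k36),(k3,k36),(k6,k36),(k7,k36),(k0,k48)],[(k10,k30),(k1,k42)],[(k10,k30),(k1,k42)],[(k8,k30),
    (k11,k30)]]
    [] k0
    [[k1,k0,k0,k0,k1,k0],[k0,k2,k0,k0,k0,k0],[k0,k1,k1,k0,k0,k0],[k0,k1,k0,k1,k0,k0],[k0,k1,k1,k1,k0,k0],[k0,k0,k2,k0,
    k0,k0],[k0,k0,k1,k1,k0,k0],[k0,k0,k0,k2,k0,k0],[k0,k0,k0,k0,k0,k2],[k0,k0,k0,k0,k0,k3]]
    [.ref k19 k0 [(z1,[z1])],.contra [z1],.ref k0 k0 [(z1,[y1,z1])],.ref k1 k0 [(z1,[y1,z1])],.ref k2 k0 [(z1,[y1,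
    z1])],.contra [z1],.ref k0 k1 [(z1,[y1,z1])],.contra [z1],.contra [z1],.ref k13 k0 [(z1,[y1,z3])]])]⟩

/-- the certificates of this file -/
noncomputable def lU6_13 : List CertX :=
  [cU6_186, cU6_187, cU6_188, cU6_189, cU6_190, cU6_191, cU6_192, cU6_193, cU6_194, cU6_195, cU6_196, cU6_197,
      cU6_198, cU6_199, cU6_200, cU6_201, cU6_202, cU6_203, cU6_204, cU6_205, cU6_206, cU6_207, cU6_208,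
      cU6_209, cU6_210, cU6_211, cU6_212, cU6_213, cU6_214, cU6_215, cU6_216, cU6_217, cU6_218, cU6_219,
      cU6_220, cU6_221, cU6_222, cU6_223, cU6_224, cU6_225, cU6_226, cU6_227, cU6_228, cU6_229, cU6_230,
      cU6_231, cU6_232, cU6_233, cU6_234, cU6_235, cU6_236]

theorem gU6_13 : allF (chkE 6 ttU6) lU6_13 = true := by
  decide +kernel

end Pool.Agent.Lib_MP_fa6e45
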