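import Pool.Agent.Lib_MP_fa6e45.CXT
import Pool.Agent.Lib_MP_fa6e45.HK

/-!
MP_fa6e45_co, stage 7: certificates (generated by a program).
-/

namespace Pool.Agent.Lib_MP_fa6e45

/-- classes `0 0 0 0 1 1`, types `S0 S0 S0 S0 C0 C0` -/
noncomputable def cU6_237 : CertX :=
  ⟨[k0,k0,k0,k0,k20,k20],[(false,k0,[k0,k1,k2,k3,k4,k5]),(true,k4,[k4,k3,k2,k1,k0,k5])],[[[([z1,z0,z0,z1,z1,z1],z2)],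
    [([z1,z0,z1,z0,z1,z1],z2)],[([z1,z0,z0,z0,z1,z1],z2)],[([z1,z0,z0,z0,z1,z0],z2),([z0,z3,z0,z3,z0,z0],z2),([z0,z0,
    z3,z0,z0,z0],z2)],[([z1,z0,z0,z0,z1,z0],z2),([z0,z1,z0,z1,z0,z0],z1),([z0,z0,z3,z0,z0,z0],z1)],[([z1,z0,z0,z0,z1,
    z0],z2),([z0,z6,z0,z3,z0,z0],z2),([z0,z0,z2,z1,z0,z0],z2)],[([z1,z0,z0,z0,z1,z0],z2),([z0,z2,z0,z1,z0,z0],z2),
    ([z0,z0,z6,z3,z0,z0],z2)],[([z1,z0,z0,z0,z1,z0],z2),([z0,z3,z3,z3,z0,z0],z4)],[([z3,z0,z0,y3,z3,z0],z2),([z0,z3,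
    z0,z3,z0,z0],z4),([z0,z0,z3,z3,z0,z0],z4)],[([z1,z0,z0,z1,z1,z0],z2),([z0,z1,z0,y1,z0,z0],z0),([z0,z0,z3,z3,z0,
    z0],z4)],[([z1,z0,z0,z1,z1,z0],z2),([z0,z3,z3,z0,z0,z0],z4)],[([z1,z0,z1,z0,z1,z0],z2),([z0,z3,z0,z0,z0,z0],z2),
    ([z0,z0,z0,z3,z0,z0],z2)]],[[([z1,z0,z1,z0,z1,z0],z2),([z0,z3,z0,z3,z0,z0],z4)],[([z3,z3,z3,z3,z3,z0],z10)],[([z1,
    z0,z0,z0,z1,z0],z2),([z0,z1,z0,z1,z0,z0],z1),([z0,z0,z2,z0,z0,z0],z1)],[([z1,z0,z0,z0,z1,z0],z2),([z0,z6,z0,z6,z0,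
    z0],z5),([z0,z0,z3,z0,z0,z0],z2)],[([z1,z0,z0,z0,z1,z0],z2),([z0,z2,z2,z2,z0,z0],z3)],[([z1,z0,z0,z0,z1,z0],z2),
    ([z0,z1,z0,z1,z0,z0],z1),([z0,z0,z3,z0,z0,z0],z2)],[([z1,z0,z0,z0,z1,z0],z2),([z0,z3,z0,z3,z0,z3],z4)],[([z1,z0,
    z0,z0,z1,z0],z2)],[]]],
    [.old (.leafM k0 [k0,k3,k4,k5] [] [(k1,k2,z1,[y1,z1]),(k2,k1,z1,[y1,z1])]),
    .old (.leafM k1 [k4,k5,k0,k2] [] [(k1,k3,z1,[y1,z1]),(k3,k1,z1,[y1,z1])]),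
    .old (.leafM k0 [k0,k1,k2,k3,k4,k5] [(z1,[y1,z1])] []),
    .old (.leafM k10 [k1,k2,k3,k5] [(z1,[z0,z0,z1]),(z1,[y3,y1,y1,z3]),(z1,[z0,z1])] [(k4,k0,z1,[z1]),(k0,k4,z1,[z1])]),
    .old (.leafM k8 [k3,k5,k1,k2] [(z1,[y3,y3,y1,z3]),(z1,[z0,z0,z1]),(z1,[z0,z1])] [(k4,k0,z1,[z1]),(k0,k4,z1,[z1])]),
    .old (.lp [(nat_lit 552),(nat_lit 1380),(nat_lit 720),(nat_lit 1104),(nat_lit 828),(nat_lit 920)] [(nat_lit 828),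
    (nat_lit 828),(nat_lit 828),k0,(nat_lit 744),(nat_lit 744),(nat_lit 276),(nat_lit 828),(nat_lit 805),
    (nat_lit 575),(nat_lit 644),(nat_lit 644)] k0 [[],[k0,k0,k0,k0,k0,k0,k0,(nat_lit 1380)],[k0,k0,k0,k0,k0,k0,
    (nat_lit 230)],[],[],[k0,k0,k0,k0,k0,k0,(nat_lit 230)],[(nat_lit 1380)],[k0,k0,k0,(nat_lit 230),
    (nat_lit 230)]] (nat_lit 2760) k6
    [[(k8,(nat_lit 575)),(k10,(nat_lit 736))],[(k0,(nat_lit 552)),(k2,(nat_lit 552)),(k7,(nat_lit 552)),(k4,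
    (nat_lit 636)),(k5,(nat_lit 636)),(k6,(nat_lit 1104)),(k3,(nat_lit 1380)),(k9,(nat_lit 2185))],[(k6,
    (nat_lit 552)),(k0,(nat_lit 1380)),(k2,(nat_lit 1380)),(k7,(nat_lit 1380)),(k4,(nat_lit 1464)),(k5,
    (nat_lit 1464)),(k9,(nat_lit 1633)),(k3,(nat_lit 2208))],[(k0,(nat_lit 552)),(k2,(nat_lit 552)),(k7,
    (nat_lit 552)),(k9,(nat_lit 575)),(k4,(nat_lit 636)),(k5,(nat_lit 636)),(k6,(nat_lit 1104)),(k3,(nat_lit 1380))],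
    [(k0,(nat_lit 636)),(k2,(nat_lit 636)),(k7,(nat_lit 636)),(k4,(nat_lit 720)),(k5,(nat_lit 720)),(k9,
    (nat_lit 889)),(k6,(nat_lit 1418)),(k3,(nat_lit 1464))],[(k0,(nat_lit 636)),(k2,(nat_lit 636)),(k7,(nat_lit 636)),
    (k4,(nat_lit 720)),(k5,(nat_lit 720)),(k9,(nat_lit 889)),(k6,(nat_lit 1418)),(k3,(nat_lit 1464))],[(k0,
    (nat_lit 552)),(k2,(nat_lit 552)),(k7,(nat_lit 552)),(k9,(nat_lit 575)),(k4,(nat_lit 636)),(k5,(nat_lit 636)),(k6,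
    (nat_lit 1104)),(k3,(nat_lit 1380))],[(k3,(nat_lit 552)),(k0,(nat_lit 1104)),(k2,(nat_lit 1104)),(k7,
    (nat_lit 1104)),(k9,(nat_lit 1357)),(k4,(nat_lit 1418)),(k5,(nat_lit 1418)),(k6,(nat_lit 1656))],[(k2,
    (nat_lit 575)),(k7,(nat_lit 575)),(k4,(nat_lit 889)),(k5,(nat_lit 889)),(k9,(nat_lit 1058)),(k6,(nat_lit 1357)),
    (k3,(nat_lit 1633)),(k0,(nat_lit 2185))],[(k1,(nat_lit 575)),(k11,(nat_lit 759))],[(k8,(nat_lit 759)),(k10,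
    (nat_lit 920))],[(k1,(nat_lit 736)),(k11,(nat_lit 920))]]
    [] k0
    [[k1,k1,k0,k0,k1,k0],[k1,k1,k0,k1,k1,k0],[k1,k0,k1,k0,k1,k0],[k1,k0,k0,k1,k1,k0],[k0,k2,k0,k1,k0,k0],[k0,k1,k1,k0,
    k0,k0],[k0,k1,k0,k1,k0,k0],[k0,k2,k0,k2,k0,k0],[k0,k1,k1,k1,k0,k0],[k0,k1,k2,k1,k0,k0],[k0,k1,k0,k2,k0,k0],[k0,k0,
    k2,k0,k0,k0],[k0,k0,k3,k0,k0,k0],[k0,k0,k1,k1,k0,k0],[k0,k0,k0,k2,k0,k0],[k0,k0,k0,k0,k0,k2]]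
    [.contra [z1,y1],.contra [z1,y1],.contra [z1,y1],.contra [y1,z1,z0,z1],.contra [z1,y4,y1,y2,z4],.contra [y2,z0,z1,
    z1],.contra [y6,z0,z1,z5],.contra [y2,z0,z1,z1],.contra [z2,y4,y1,y3,z4],.contra [z1,z0,z0,y1],.contra [y2,z0,z1,
    z1],.contra [z1],.contra [z2,z0,z1,y3],.contra [y1,z0,z0,z1],.contra [z1],.contra [z1]]),
    .old (.lp [k82,k120,k60,k76,k60,k80] [k55,k55,k72,k0,k66,k66,k46,k70,k66,k66,k56,k56] k0 [[k0,k0,k22,k0,k0,k22],[k0,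
    k0,k0,k0,k0,k0,k0,k98],[],[k0,k22],[k0,k22,k0,k0,k0,k0,k12],[],[k98],[k0,k0,k0,k0,k0,k12]] (nat_lit 240) k6
    [[(k8,k71),(k10,k81)],[(k4,k49),(k5,k49),(k2,k65),(k7,k67),(k0,k82),(k6,k91),(k3,k137),(k9,k169)],[(k6,k48),(k4,
    k126),(k5,k126),(k9,k126),(k0,k137),(k2,k142),(k7,k144),(k3,k192)],[(k2,k48),(k7,k50),(k4,k54),(k5,k54),(k9,k54),
    (k0,k65),(k6,k74),(k3,k142)],[(k0,k49),(k2,k54),(k7,k56),(k4,k60),(k5,k60),(k9,k60),(k6,k80),(k3,k126)],[(k9,k48),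
    (k0,k49),(k2,k54),(k7,k56),(k4,k60),(k5,k60),(k6,k80),(k3,k126)],[(k2,k50),(k7,k52),(k4,k56),(k5,k56),(k9,k56),
    (k0,k67),(k6,k88),(k3,k144)],[(k3,k48),(k2,k74),(k4,k80),(k5,k80),(k9,k80),(k7,k88),(k0,k91),(k6,k100)],[(k4,k48),
    (k2,k54),(k7,k56),(k5,k60),(k9,k60),(k6,k80),(k3,k126),(k0,k169)],[(k11,k70),(k1,k71)],[(k8,k70),(k10,k80)],[(k11,
    k80),(k1,k81)]]
    [] k0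
    [[k1,k0,k1,k0,k1,k0],[k1,k0,k2,k0,k1,k0],[k1,k0,k0,k1,k1,k0],[k0,k1,k1,k0,k0,k0],[k0,k1,k0,k1,k0,k0],[k0,k2,k0,k2,
    k0,k0],[k0,k1,k1,k1,k0,k0],[k0,k1,k2,k1,k0,k0],[k0,k1,k1,k2,k0,k0],[k0,k1,k0,k2,k0,k0],[k0,k0,k2,k0,k0,k0],[k0,k0,
    k3,k0,k0,k0],[k0,k0,k2,k1,k0,k0],[k0,k0,k1,k1,k0,k0],[k0,k0,k1,k2,k0,k0],[k0,k0,k0,k2,k0,k0],[k0,k0,k0,k0,k0,k2]]
    [.contra [z1,y1],.contra [z1,y1],.contra [y1,z1,z1],.contra [y2,z0,z1,z1],.contra [y1,z0,z1],.contra [y1,z0,z2],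
    .contra [z2,y4,y3,y1,z4],.contra [y2,z0,z1,z1],.contra [y2,z0,z1,z1],.contra [y2,z0,z1,z1],.contra [z1],
    .contra [y1,z0,z0,z1],.contra [z1,y4,y2,y1,z4],.contra [y6,z0,z5,z1],.contra [y2,z0,z1,z1],.contra [z1],
    .contra [z1]]),
    .old (.lp [(nat_lit 7272),(nat_lit 12928),(nat_lit 6060),(nat_lit 9090),(nat_lit 4848),
    (nat_lit 8080)] [(nat_lit 6868),(nat_lit 6868),(nat_lit 8080),k0,(nat_lit 7474),(nat_lit 7474),(nat_lit 4039),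
    (nat_lit 7879),(nat_lit 8080),(nat_lit 8080),(nat_lit 6464),(nat_lit 6464)] k0 [[k0,k0,(nat_lit 1414),k0,k0,
    (nat_lit 1414)],[k0,k0,k0,k0,k0,k0,k0,(nat_lit 12120)],[],[k0,(nat_lit 1414)],[k0,(nat_lit 1414)],[],
    [(nat_lit 12120)]] (nat_lit 24240) k6
    [[(k8,(nat_lit 6060)),(k10,(nat_lit 7676))],[(k4,(nat_lit 5252)),(k5,(nat_lit 5252)),(k2,(nat_lit 6060)),(k7,
    (nat_lit 6261)),(k0,(nat_lit 7272)),(k6,(nat_lit 10101)),(k3,(nat_lit 14140)),(k9,(nat_lit 18180))],[(k6,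
    (nat_lit 4849)),(k9,(nat_lit 12928)),(k4,(nat_lit 13534)),(k5,(nat_lit 13534)),(k0,(nat_lit 14140)),(k2,
    (nat_lit 14342)),(k7,(nat_lit 14543)),(k3,(nat_lit 21008))],[(k2,(nat_lit 4848)),(k9,(nat_lit 4848)),(k7,
    (nat_lit 5049)),(k4,(nat_lit 5454)),(k5,(nat_lit 5454)),(k0,(nat_lit 6060)),(k6,(nat_lit 8889)),(k3,
    (nat_lit 14342))],[(k0,(nat_lit 5252)),(k2,(nat_lit 5454)),(k9,(nat_lit 5454)),(k7,(nat_lit 5655)),(k4,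
    (nat_lit 6060)),(k5,(nat_lit 6060)),(k6,(nat_lit 9495)),(k3,(nat_lit 13534))],[(k0,(nat_lit 5252)),(k2,
    (nat_lit 5454)),(k9,(nat_lit 5454)),(k7,(nat_lit 5655)),(k4,(nat_lit 6060)),(k5,(nat_lit 6060)),(k6,
    (nat_lit 9495)),(k3,(nat_lit 13534))],[(k2,(nat_lit 5049)),(k9,(nat_lit 5049)),(k7,(nat_lit 5250)),(k4,
    (nat_lit 5655)),(k5,(nat_lit 5655)),(k0,(nat_lit 6261)),(k6,(nat_lit 9090)),(k3,(nat_lit 14543))],[(k3,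
    (nat_lit 4849)),(k2,(nat_lit 8889)),(k9,(nat_lit 8889)),(k7,(nat_lit 9090)),(k4,(nat_lit 9495)),(k5,
    (nat_lit 9495)),(k0,(nat_lit 10101)),(k6,(nat_lit 12930))],[(k2,(nat_lit 4848)),(k9,(nat_lit 4848)),(k7,
    (nat_lit 5049)),(k4,(nat_lit 5454)),(k5,(nat_lit 5454)),(k6,(nat_lit 8889)),(k3,(nat_lit 12928)),(k0,
    (nat_lit 18180))],[(k1,(nat_lit 6060)),(k11,(nat_lit 6464))],[(k8,(nat_lit 6464)),(k10,(nat_lit 8080))],[(k1,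
    (nat_lit 7676)),(k11,(nat_lit 8080))]]
    [] k0
    [[k1,k1,k0,k1,k1,k0],[k1,k0,k1,k0,k1,k0],[k1,k0,k2,k0,k1,k0],[k1,k0,k0,k1,k1,k0],[k0,k1,k1,k0,k0,k0],[k0,k1,k0,k1,
    k0,k0],[k0,k2,k0,k2,k0,k0],[k0,k1,k1,k1,k0,k0],[k0,k1,k2,k1,k0,k0],[k0,k1,k0,k2,k0,k0],[k0,k0,k2,k0,k0,k0],[k0,k0,
    k3,k0,k0,k0],[k0,k0,k2,k1,k0,k0],[k0,k0,k1,k1,k0,k0],[k0,k0,k0,k2,k0,k0],[k0,k0,k0,k0,k0,k2]]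
    [.contra [z1,y1],.contra [z1,y1],.contra [z1,y1],.contra [z1,y1],.contra [y2,z0,z1],.contra [y2,z0,z1],
    .ref k4 k0 [(z1,[z0,z1]),(z2,[z1]),(z2,[y3,z0,z2])],.contra [z1,y2,y1,z2],.ref k3 k0 [(z1,[z0,z1]),(z1,[y3,z0,
    z2]),(z1,[z3,z0,y1])],.ref k6 k1 [(z1,[z0,z1]),(z1,[z1]),(z1,[y3,z0,z2])],.contra [z1],.ref k3 k0 [(z1,[z0,z1]),
    (z1,[y1,z0,z1]),(z1,[z1])],.ref k5 k0 [(z1,[z0,z1]),(z1,[y3,z0,z2]),(z1,[z1])],.contra [y2,z0,z1],.contra [z1],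
    .contra [z1]]),
    .old (.lp [k66,k90,k120,k60,k60,k80] [k27,k27,k15,k15,k0,k0,k30,k30,k30,k30,k20,k20] k0 [[k0,k0,k0,k0,k0,k0,k0,k3],
    [k0,k0,k21],[],[k21,k0,k0,k0,k0,k0,k0,k24],[],[],[k0,k3,k24]] (nat_lit 240) k5
    [[(k8,k63),(k10,k73)],[(k6,k60),(k7,k63),(k9,k63),(k0,k66),(k3,k78),(k4,k93),(k5,k93),(k2,k99)],[(k6,k75),(k7,
    k75),(k0,k78),(k9,k78),(k5,k84),(k2,k90),(k3,k90),(k4,k105)],[(k6,k75),(k7,k75),(k2,k90),(k3,k90),(k0,k99),(k9,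
    k99),(k4,k105),(k5,k105)],[(k6,k66),(k3,k84),(k7,k90),(k9,k90),(k0,k93),(k2,k105),(k4,k120),(k5,k120)],[(k6,k90),
    (k7,k90),(k9,k90),(k0,k93),(k2,k105),(k3,k105),(k4,k120),(k5,k120)],[(k6,k60),(k7,k60),(k9,k60),(k0,k63),(k2,k75),
    (k3,k75),(k4,k90),(k5,k90)],[(k0,k60),(k6,k60),(k7,k60),(k9,k60),(k5,k66),(k2,k75),(k3,k75),(k4,k90)],[(k6,k60),
    (k7,k60),(k9,k60),(k0,k63),(k3,k78),(k4,k90),(k5,k90),(k2,k99)],[(k1,k63),(k11,k70)],[(k8,k70),(k10,k80)],[(k1,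
    k73),(k11,k80)]]
    [] k0
    [[k1,k0,k0,k0,k1,k0],[k1,k0,k0,k1,k1,k0],[k1,k0,k0,k0,k1,k1],[k0,k2,k0,k0,k0,k0],[k0,k1,k1,k0,k0,k0],[k0,k1,k0,k1,
    k0,k0],[k0,k1,k0,k2,k0,k0],[k0,k0,k1,k1,k0,k0],[k0,k0,k1,k2,k0,k0],[k0,k0,k0,k2,k0,k0],[k0,k0,k0,k3,k0,k0],[k0,k0,
    k0,k0,k0,k2]]
    [.contra [y3,z1,z1],.ref k2 k0 [(z6,[z3,y1,y2,y2,z6])],.ref k2 k0 [(z1,[z1])],.contra [z1],.contra [z3,z0,z1,y1],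
    .contra [z3,y2,y3,y2,z6],.ref k2 k0 [(z3,[z3,z0,y2,y1,z3])],.contra [z3,y2,y2,y3,z6],.ref k2 k0 [(z3,[z3,z0,y1,y2,
    z3])],.contra [z1],.ref k2 k0 [(z3,[z1,z0,y1,y1,z3])],.contra [z1]]),
    .old (.lp [k53,k42,k38,k42,k23,k40] [k0,k13,k12,k12,k14,k14,k12,k12,k23,k20,k13,k13] k0 [[k0,k36,k18,k0,k0,k2],[k0,k0,
    k6,k0,k0,k2,k4,k4],[k0,k0,k0,k0,k4,k2],[k6,k18,k0,k0,k0,k0,k0,k2],[k2,k2,k0,k2,k0,k0,k2],[k0,k0,k0,k4,k2,k0,k2],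
    [k4,k0,k2,k0,k0,k0,k0,k4],[k4,k0,k0,k0,k2,k2]] k120 k5
    [[(k8,k30),(k10,k40)],[(k0,k30),(k5,k34),(k4,k50),(k9,k50),(k3,k54),(k7,k56),(k6,k58),(k2,k60)],[(k9,k30),(k5,
    k34),(k4,k38),(k6,k38),(k7,k44),(k0,k54),(k2,k60),(k3,k78)],[(k9,k36),(k4,k38),(k7,k38),(k5,k40),(k2,k42),(k6,
    k42),(k0,k60),(k3,k60)],[(k9,k32),(k0,k34),(k3,k34),(k5,k38),(k6,k38),(k2,k40),(k4,k42),(k7,k42)],[(k9,k30),(k2,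
    k38),(k3,k38),(k4,k40),(k7,k40),(k5,k42),(k6,k42),(k0,k50)],[(k9,k32),(k2,k38),(k4,k40),(k7,k40),(k5,k42),(k3,
    k44),(k6,k44),(k0,k56)],[(k9,k34),(k3,k38),(k5,k38),(k6,k38),(k2,k42),(k4,k42),(k7,k44),(k0,k58)],[(k3,k30),(k4,
    k30),(k9,k30),(k5,k32),(k7,k32),(k6,k34),(k2,k36),(k0,k50)],[(k1,k30),(k11,k30)],[(k8,k30),(k10,k40)],[(k1,k40),
    (k11,k40)]]
    [] k0
    [[k1,k0,k0,k0,k1,k0],[k1,k0,k1,k0,k1,k0],[k0,k1,k1,k0,k0,k0],[k0,k2,k1,k0,k0,k0],[k0,k1,k2,k0,k0,k0],[k0,k1,k1,k1,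
    k0,k0],[k0,k1,k0,k1,k0,k0],[k0,k0,k2,k0,k0,k0],[k0,k0,k1,k1,k0,k0],[k0,k0,k0,k2,k0,k0],[k0,k0,k0,k0,k0,k2]]
    [.contra [y1,z1,z1],.ref k2 k0 [(z2,[z1,y1,y2,y1,z2])],.contra [z1,y2,y3,y1,z2],.ref k2 k0 [(z1,[y1,z0,z1,z0,
    z1])],.ref k2 k0 [(z1,[z1,z0,y2,y1,z1])],.ref k2 k0 [(z1,[y1,z0,z0,z0,z1])],.contra [z1,z0,z1],.contra [z1],
    .contra [z1,y2,y2,y1,z2],.contra [z1,z0,z2],.contra [z1]]),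
    .old (.lp [k60,k78,k114,k84,k60,k80] [k27,k27,k18,k18,k0,k0,k15,k15,k27,k27,k17,k17] k0 [[k0,k0,k6,k6],[k0,k0,k0,k0,
    k0,k36],[k0,k6,k0,k0,k6,k0,k6],[k0,k6,k0,k0,k0,k0,k6],[k36,k0,k0,k0,k0,k0,k0,k36],[k0,k0,k0,k6,k12],[k0,k0,k0,k0,
    k0,k36],[k0,k0,k6,k6]] (nat_lit 240) k5
    [[(k8,k60),(k10,k70)],[(k0,k60),(k9,k60),(k2,k63),(k3,k69),(k6,k72),(k5,k81),(k4,k87),(k7,k108)],[(k4,k60),(k0,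
    k69),(k9,k69),(k3,k78),(k6,k81),(k7,k81),(k2,k84),(k5,k102)],[(k0,k63),(k9,k63),(k7,k75),(k2,k78),(k3,k84),(k6,
    k87),(k4,k96),(k5,k96)],[(k0,k81),(k9,k81),(k2,k96),(k7,k99),(k3,k102),(k6,k105),(k5,k114),(k4,k120)],[(k3,k60),
    (k6,k63),(k0,k87),(k9,k87),(k2,k96),(k7,k99),(k5,k120),(k4,k126)],[(k7,k72),(k2,k75),(k3,k81),(k6,k84),(k4,k99),
    (k5,k99),(k0,k108),(k9,k108)],[(k4,k63),(k0,k72),(k9,k72),(k3,k81),(k6,k84),(k7,k84),(k2,k87),(k5,k105)],[(k0,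
    k60),(k9,k60),(k2,k63),(k3,k69),(k6,k72),(k5,k81),(k4,k87),(k7,k108)],[(k1,k60),(k11,k70)],[(k8,k70),(k10,k80)],
    [(k1,k70),(k11,k80)]]
    [] k0
    [[k1,k0,k0,k0,k1,k0],[k1,k1,k0,k0,k1,k0],[k1,k0,k1,k0,k1,k0],[k1,k0,k0,k0,k1,k1],[k0,k2,k0,k0,k0,k0],[k0,k1,k1,k0,
    k0,k0],[k0,k1,k0,k1,k0,k0],[k0,k0,k1,k1,k0,k0],[k0,k0,k0,k2,k0,k0],[k0,k0,k0,k0,k0,k2]]
    [.contra [y1,z1],.ref k9 k0 [(z1,[z0,z1]),(z1,[z1,y1]),(z1,[y3,z3,z1])],.ref k8 k1 [(z1,[z3,z0,y1]),(z1,[y3,z3,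
    z1]),(z1,[z0,z0,z1])],.ref k2 k0 [(z1,[z1])],.contra [z1],.contra [z1,y2,y1,z2],.ref k1 k0 [(z1,[y1,z0,z0,z1])],
    .ref k0 k1 [(z1,[y1,z0,z0,z1])],.contra [z1],.contra [z1]]),
    .old (.leafM k2 [k0,k1,k2,k3,k4,k5] [(z1,[z0,z1]),(z1,[z0,z0,z1]),(z1,[y3,y1,y1,z3])] []),
    .old (.lp [k30,k41,k60,k38,k30,k40] [k15,k15,k11,k8,k0,k0,k11,k11,k15,k15,k10,k10] k0 [[],[k0,k0,k0,k0,k0,k22,k3],[k0,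
    k0,k0,k0,k0,k3,k3],[],[k22,k0,k0,k3,k0,k0,k0,k19],[],[k0,k0,k0,k0,k0,k19],[k3,k0,k0,k3]] k120 k5
    [[(k8,k30),(k10,k35)],[(k0,k30),(k9,k30),(k2,k34),(k3,k37),(k6,k37),(k4,k45),(k5,k45),(k7,k56)],[(k4,k30),(k9,
    k34),(k0,k37),(k2,k41),(k6,k41),(k7,k41),(k3,k44),(k5,k52)],[(k9,k31),(k0,k34),(k2,k38),(k6,k38),(k7,k38),(k3,
    k41),(k4,k46),(k5,k49)],[(k0,k45),(k9,k45),(k2,k49),(k3,k52),(k6,k52),(k7,k52),(k4,k60),(k5,k60)],[(k3,k30),(k6,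
    k30),(k0,k45),(k9,k45),(k2,k46),(k7,k49),(k4,k60),(k5,k60)],[(k2,k38),(k6,k38),(k7,k38),(k3,k41),(k4,k49),(k5,
    k52),(k9,k53),(k0,k56)],[(k4,k30),(k9,k34),(k0,k37),(k2,k38),(k6,k38),(k7,k38),(k3,k41),(k5,k52)],[(k0,k30),(k9,
    k30),(k2,k31),(k3,k34),(k6,k34),(k4,k45),(k5,k45),(k7,k53)],[(k1,k30),(k11,k35)],[(k8,k35),(k10,k40)],[(k1,k35),
    (k11,k40)]]
    [] k0
    [[k1,k0,k0,k0,k1,k0],[k1,k1,k0,k0,k1,k0],[k1,k0,k0,k0,k1,k1],[k0,k2,k0,k0,k0,k0],[k0,k1,k1,k0,k0,k0],[k0,k1,k0,k1,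
    k0,k0],[k0,k1,k0,k2,k0,k0],[k0,k0,k1,k1,k0,k0],[k0,k0,k0,k2,k0,k0],[k0,k0,k0,k3,k0,k0],[k0,k0,k0,k0,k0,k2]]
    [.contra [y1,z1],.ref k10 k1 [(z1,[z1]),(z1,[y3,z3,z1])],.ref k2 k0 [(z1,[z1])],.contra [z1],.ref k0 k0 [(z1,[y1,
    z0,z0,z1])],.contra [z1,y2,y1,z2],.ref k11 k0 [(z1,[z0,z1]),(z1,[y3,z0,z2]),(z1,[z3,z0,y1])],.ref k0 k1 [(z1,[y1,
    z0,z0,z1])],.contra [z1],.ref k11 k0 [(z1,[z0,z1]),(z1,[y1,z0,z1]),(z1,[z1])],.contra [z1]]),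
    .old (.lp [k60,k120,k78,k78,k60,k80] [k30,k30,k0,k0,k21,k21,k21,k21,k30,k30,k20,k20] k0 [[],[],[k0,k0,k0,k0,k6,k6],[],
    [k0,k0,k0,k6,k0,k0,k6],[k0,k0,k0,k6,k0,k0,k6],[],[k0,k0,k0,k0,k6,k6]] (nat_lit 240) k5
    [[(k8,k60),(k10,k70)],[(k0,k60),(k9,k60),(k4,k69),(k5,k69),(k6,k69),(k7,k69),(k2,k90),(k3,k90)],[(k0,k90),(k9,
    k90),(k4,k99),(k5,k99),(k6,k99),(k7,k99),(k2,k120),(k3,k120)],[(k0,k90),(k9,k90),(k4,k93),(k7,k93),(k5,k99),(k6,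
    k99),(k2,k120),(k3,k120)],[(k0,k69),(k9,k69),(k5,k78),(k6,k78),(k4,k84),(k7,k84),(k2,k99),(k3,k99)],[(k9,k63),(k0,
    k69),(k4,k78),(k7,k78),(k5,k84),(k6,k84),(k2,k93),(k3,k99)],[(k9,k63),(k0,k69),(k4,k78),(k7,k78),(k5,k84),(k6,
    k84),(k2,k93),(k3,k99)],[(k0,k69),(k9,k69),(k5,k78),(k6,k78),(k4,k84),(k7,k84),(k2,k99),(k3,k99)],[(k0,k60),(k9,
    k60),(k4,k63),(k7,k63),(k5,k69),(k6,k69),(k2,k90),(k3,k90)],[(k1,k60),(k11,k70)],[(k8,k70),(k10,k80)],[(k1,k70),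
    (k11,k80)]]
    [] k0
    [[k1,k0,k0,k0,k1,k0],[k1,k0,k1,k0,k1,k0],[k1,k0,k0,k1,k1,k0],[k1,k0,k0,k0,k1,k1],[k0,k1,k1,k0,k0,k0],[k0,k1,k0,k1,
    k0,k0],[k0,k0,k2,k0,k0,k0],[k0,k0,k1,k1,k0,k0],[k0,k0,k0,k2,k0,k0],[k0,k0,k0,k0,k0,k2]]
    [.ref k7 k0 [(z1,[z1]),(z1,[y3,z1])],.ref k12 k0 [(z1,[z1]),(z1,[y3,z1])],.ref k10 k0 [(z1,[z1]),(z1,[y3,z1])],
    .ref k2 k0 [(z1,[z1])],.ref k0 k0 [(z1,[y1,z0,z1])],.ref k1 k0 [(z1,[y1,z0,z1])],.contra [z1],.ref k0 k1 [(z1,[y1,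
    z0,z1])],.contra [z1],.contra [z1]]),
    .old (.leafM k9 [k3,k5,k1,k2] [(z1,[y2,y2,y1,z2]),(z1,[z0,z0,z1]),(z1,[z0,z1])] [(k4,k0,z1,[z1]),(k0,k4,z1,[z1])]),
    .old (.lp [k76,k120,k58,k120,k44,k60] [k48,k58,k48,k14,k62,k62,k0,k62,k73,k65,k61,k61] k0 [[k0,k38],[k0,k0,k0,k0,k0,
    k0,k0,k120],[k0,k0,k0,k38,k24],[],[],[k0,k0,k0,k24,k4],[k120],[k0,k0,k0,k0,k0,k0,k4]] (nat_lit 240) k6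
    [[(k8,k51),(k10,k63)],[(k0,k48),(k4,k72),(k5,k72),(k7,k72),(k2,k86),(k3,k120),(k6,k134),(k9,k189)],[(k6,k48),(k9,
    k103),(k4,k106),(k5,k106),(k7,k106),(k0,k120),(k2,k120),(k3,k192)],[(k2,k48),(k7,k48),(k9,k69),(k4,k72),(k5,k72),
    (k0,k86),(k3,k120),(k6,k134)],[(k9,k55),(k7,k58),(k0,k72),(k2,k72),(k4,k82),(k5,k96),(k3,k106),(k6,k120)],[(k9,
    k55),(k7,k58),(k4,k62),(k0,k72),(k2,k72),(k5,k82),(k3,k106),(k6,k120)],[(k2,k48),(k7,k54),(k9,k55),(k4,k58),(k5,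
    k58),(k0,k72),(k3,k106),(k6,k120)],[(k3,k48),(k9,k117),(k4,k120),(k5,k120),(k7,k120),(k0,k134),(k2,k134),(k6,
    k186)],[(k9,k48),(k4,k55),(k5,k55),(k7,k55),(k2,k69),(k3,k103),(k6,k117),(k0,k189)],[(k11,k48),(k1,k51)],[(k8,
    k48),(k10,k60)],[(k11,k60),(k1,k63)]]
    [] k0
    [[k1,k0,k1,k0,k1,k0],[k2,k0,k0,k0,k2,k0],[k1,k0,k1,k0,k1,k1],[k0,k2,k0,k1,k0,k0],[k0,k1,k1,k0,k0,k0],[k0,k1,k0,k1,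
    k0,k0],[k0,k2,k0,k2,k0,k0],[k0,k1,k1,k1,k0,k0],[k0,k1,k0,k2,k0,k0],[k0,k0,k2,k0,k0,k0],[k0,k0,k1,k1,k0,k0],[k0,k0,
    k0,k0,k0,k2],[k0,k0,k0,k0,k0,k3]]
    [.contra [y1,z1,z0,z1],.contra [y1,z2,z0,z2],.contra [y6,z0,y1,z7,z6],.contra [y6,z0,z2,z1],.contra [y12,z0,z2,
    z7],.contra [z6,z0,y1,z7],.contra [z3,z0,y1,z1],.contra [z6,z0,y1,z1],.contra [y6,z0,z2,z1],.contra [z1],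
    .contra [y12,z0,z2,z7],.contra [z3,z6,z1,z5,y6],.contra [z2,z6,z1,z3,y6]]),
    .old (.lp [k32,k64,k24,k64,k24,k30] [k32,k32,k32,k0,k36,k36,k8,k24,k36,k36,k33,k33] k0 [[],[k0,k0,k0,k0,k0,k0,k0,k64],
    [k0,k0,k0,k8,k8],[],[],[k0,k0,k0,k8,k8],[k64]] k120 k6
    [[(k8,k28),(k10,k31)],[(k4,k28),(k5,k28),(k0,k32),(k2,k32),(k7,k40),(k6,k56),(k3,k64),(k9,k92)],[(k6,k24),(k4,
    k60),(k5,k60),(k9,k60),(k0,k64),(k2,k64),(k7,k72),(k3,k96)],[(k2,k24),(k4,k28),(k5,k28),(k9,k28),(k0,k32),(k7,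
    k32),(k6,k56),(k3,k64)],[(k9,k24),(k0,k28),(k2,k28),(k4,k32),(k5,k32),(k7,k36),(k6,k52),(k3,k60)],[(k9,k24),(k0,
    k28),(k2,k28),(k4,k32),(k5,k32),(k7,k36),(k6,k52),(k3,k60)],[(k2,k32),(k4,k36),(k5,k36),(k9,k36),(k0,k40),(k7,
    k40),(k6,k64),(k3,k72)],[(k3,k24),(k4,k52),(k5,k52),(k9,k52),(k0,k56),(k2,k56),(k7,k64),(k6,k80)],[(k4,k24),(k5,
    k24),(k9,k24),(k2,k28),(k7,k36),(k6,k52),(k3,k60),(k0,k92)],[(k11,k27),(k1,k28)],[(k8,k27),(k10,k30)],[(k11,k30),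
    (k1,k31)]]
    [] k0
    [[k1,k0,k1,k0,k1,k0],[k1,k0,k2,k0,k1,k0],[k2,k0,k0,k0,k2,k0],[k1,k0,k1,k0,k1,k1],[k0,k1,k1,k0,k0,k0],[k0,k1,k0,k1,
    k0,k0],[k0,k2,k0,k2,k0,k0],[k0,k1,k1,k1,k0,k0],[k0,k0,k2,k0,k0,k0],[k0,k0,k3,k0,k0,k0],[k0,k0,k1,k1,k0,k0],[k0,k0,
    k0,k0,k0,k2],[k0,k0,k0,k0,k0,k3]]
    [.contra [z1,y1],.contra [z1,y1],.contra [y1,y2,y2,z4],.contra [z3,z0,z2,y3],.contra [y3,z0,z2],.contra [y3,z0,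
    z2],.ref k14 k0 [(z1,[z0,z1]),(z2,[z1]),(z1,[y1,z0,z1])],.contra [z1,y1,y1,z1],.contra [z1],.ref k15 k0 [(z1,[z0,
    z1]),(z1,[y2,z0,z3]),(z1,[z1])],.contra [y3,z0,z2],.contra [z1],.contra [z1,z2,z1,y2]]),
    .old (.leafM k11 [k1,k2,k3,k5] [(z1,[z0,z0,z1]),(z1,[y3,y3,y1,z3]),(z1,[z0,z1])] [(k4,k0,z1,[z1]),(k0,k4,z1,[z1])]),
    .old (.lp [(nat_lit 2210),(nat_lit 4862),(nat_lit 2080),(nat_lit 4862),(nat_lit 1768),(nat_lit 1768)] [(nat_lit 2431),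
    (nat_lit 2431),(nat_lit 2210),k0,(nat_lit 2496),(nat_lit 2496),(nat_lit 425),(nat_lit 1785),(nat_lit 2652),
    (nat_lit 2652),(nat_lit 2652),(nat_lit 2652)] k0 [[],[k0,k0,k0,k0,k0,k0,k0,(nat_lit 4862)],[k0,k0,k0,
    (nat_lit 884),(nat_lit 884)],[],[],[k0,k0,k0,(nat_lit 884),(nat_lit 884)],[(nat_lit 4862)]] (nat_lit 8840) k6
    [[(k8,(nat_lit 1989)),(k10,(nat_lit 1989))],[(k4,(nat_lit 2145)),(k5,(nat_lit 2145)),(k0,(nat_lit 2210)),(k2,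
    (nat_lit 2431)),(k7,(nat_lit 2856)),(k6,(nat_lit 4216)),(k3,(nat_lit 4641)),(k9,(nat_lit 6851))],[(k6,
    (nat_lit 1785)),(k9,(nat_lit 4420)),(k4,(nat_lit 4576)),(k5,(nat_lit 4576)),(k0,(nat_lit 4641)),(k2,
    (nat_lit 4862)),(k7,(nat_lit 5287)),(k3,(nat_lit 7072))],[(k2,(nat_lit 1768)),(k7,(nat_lit 2193)),(k9,
    (nat_lit 2210)),(k4,(nat_lit 2366)),(k5,(nat_lit 2366)),(k0,(nat_lit 2431)),(k6,(nat_lit 4437)),(k3,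
    (nat_lit 4862))],[(k9,(nat_lit 1924)),(k0,(nat_lit 2145)),(k2,(nat_lit 2366)),(k7,(nat_lit 2791)),(k4,
    (nat_lit 2964)),(k5,(nat_lit 2964)),(k6,(nat_lit 4151)),(k3,(nat_lit 4576))],[(k9,(nat_lit 1924)),(k0,
    (nat_lit 2145)),(k2,(nat_lit 2366)),(k7,(nat_lit 2791)),(k4,(nat_lit 2964)),(k5,(nat_lit 2964)),(k6,
    (nat_lit 4151)),(k3,(nat_lit 4576))],[(k2,(nat_lit 2193)),(k7,(nat_lit 2618)),(k9,(nat_lit 2635)),(k4,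
    (nat_lit 2791)),(k5,(nat_lit 2791)),(k0,(nat_lit 2856)),(k6,(nat_lit 4862)),(k3,(nat_lit 5287))],[(k3,
    (nat_lit 1785)),(k9,(nat_lit 3995)),(k4,(nat_lit 4151)),(k5,(nat_lit 4151)),(k0,(nat_lit 4216)),(k2,
    (nat_lit 4437)),(k7,(nat_lit 4862)),(k6,(nat_lit 6222))],[(k9,(nat_lit 1768)),(k4,(nat_lit 1924)),(k5,
    (nat_lit 1924)),(k2,(nat_lit 2210)),(k7,(nat_lit 2635)),(k6,(nat_lit 3995)),(k3,(nat_lit 4420)),(k0,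
    (nat_lit 6851))],[(k11,(nat_lit 1768)),(k1,(nat_lit 1989))],[(k8,(nat_lit 1768)),(k10,(nat_lit 1768))],[(k11,
    (nat_lit 1768)),(k1,(nat_lit 1989))]]
    [] k0
    [[k1,k0,k1,k0,k1,k0],[k2,k0,k0,k0,k2,k0],[k1,k0,k1,k0,k1,k1],[k0,k1,k1,k0,k0,k0],[k0,k1,k0,k1,k0,k0],[k0,k2,k0,k2,
    k0,k0],[k0,k1,k1,k1,k0,k0],[k0,k0,k2,k0,k0,k0],[k0,k0,k1,k1,k0,k0],[k0,k0,k0,k0,k0,k2],[k0,k0,k0,k0,k0,k3],[k0,k0,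
    k0,k0,k0,k4]]
    [.contra [y1,y2,y1,z3],.contra [y1,y4,y2,z6],.contra [z1,y1],.contra [y1,y1,z0,z1],.contra [y1,y1,z0,z1],
    .ref k17 k0 [(z1,[z0,z1]),(z2,[z1]),(z1,[z0,y3,y1,z3])],.contra [y1,y1,z0,z1],.contra [z1],.contra [y1,y1,z0,z1],
    .contra [z1],.ref k13 k0 [(z1,[y1,z0,z0,z3])],.ref k16 k0 [(z1,[z0,z1]),(z2,[y1,y4,z0,z4])]]),
    .old (.lp [k74,k120,k60,k120,k48,k48] [k59,k59,k72,k0,k66,k66,k26,k46,k72,k72,k72,k72] k0 [[],[k0,k0,k0,k0,k0,k0,k0,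
    k118],[],[],[],[],[k118]] (nat_lit 240) k6
    [[(k8,k61),(k10,k61)],[(k2,k61),(k4,k67),(k5,k67),(k0,k74),(k7,k87),(k6,k107),(k3,k133),(k9,k179)],[(k6,k48),(k2,
    k120),(k9,k120),(k4,k126),(k5,k126),(k0,k133),(k7,k146),(k3,k192)],[(k2,k48),(k9,k48),(k4,k54),(k5,k54),(k0,k61),
    (k7,k74),(k6,k94),(k3,k120)],[(k2,k54),(k9,k54),(k4,k60),(k5,k60),(k0,k67),(k7,k80),(k6,k100),(k3,k126)],[(k2,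
    k54),(k9,k54),(k4,k60),(k5,k60),(k0,k67),(k7,k80),(k6,k100),(k3,k126)],[(k2,k74),(k9,k74),(k4,k80),(k5,k80),(k0,
    k87),(k7,k100),(k6,k120),(k3,k146)],[(k3,k48),(k2,k94),(k9,k94),(k4,k100),(k5,k100),(k0,k107),(k7,k120),(k6,
    k140)],[(k2,k48),(k9,k48),(k4,k54),(k5,k54),(k7,k74),(k6,k94),(k3,k120),(k0,k179)],[(k11,k48),(k1,k61)],[(k8,k48),
    (k10,k48)],[(k11,k48),(k1,k61)]]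
    [] k0
    [[k1,k0,k1,k0,k1,k0],[k1,k0,k1,k0,k1,k1],[k0,k1,k1,k0,k0,k0],[k0,k1,k0,k1,k0,k0],[k0,k1,k1,k1,k0,k0],[k0,k0,k2,k0,
    k0,k0],[k0,k0,k3,k0,k0,k0],[k0,k0,k1,k1,k0,k0],[k0,k0,k0,k0,k0,k2],[k0,k0,k0,k0,k0,k3],[k0,k0,k0,k0,k0,k4]]
    [.contra [z1,y1],.contra [z1,y1],.contra [y1,y1,z1],.contra [y1,y1,z1],.contra [y1,y1,z1],.contra [z1],
    .ref k18 k0 [(z1,[z0,z1]),(z1,[y1,y3,z3])],.contra [y1,y1,z1],.contra [z1],.ref k13 k0 [(z1,[y1,z0,z3])],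
    .ref k16 k0 [(z1,[z0,z1]),(z2,[y1,y4,z4])]]),
    .old (.lp [k10,k8,k8,k8,k6,k6] [k0,k0,k1,k1,k1,k1,k1,k1,k2,k2,k2,k2] k0 [] k24 k5
    [[(k8,k8),(k10,k8)],[(k9,k8),(k2,k9),(k3,k9),(k4,k9),(k5,k9),(k6,k9),(k7,k9),(k0,k10)],[(k9,k7),(k2,k8),(k3,k8),
    (k4,k8),(k5,k8),(k6,k8),(k7,k8),(k0,k9)],[(k9,k7),(k2,k8),(k3,k8),(k4,k8),(k5,k8),(k6,k8),(k7,k8),(k0,k9)],[(k9,
    k7),(k2,k8),(k3,k8),(k4,k8),(k5,k8),(k6,k8),(k7,k8),(k0,k9)],[(k9,k7),(k2,k8),(k3,k8),(k4,k8),(k5,k8),(k6,k8),(k7,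
    k8),(k0,k9)],[(k9,k7),(k2,k8),(k3,k8),(k4,k8),(k5,k8),(k6,k8),(k7,k8),(k0,k9)],[(k9,k7),(k2,k8),(k3,k8),(k4,k8),
    (k5,k8),(k6,k8),(k7,k8),(k0,k9)],[(k9,k6),(k2,k7),(k3,k7),(k4,k7),(k5,k7),(k6,k7),(k7,k7),(k0,k8)],[(k11,k6),(k1,
    k8)],[(k8,k6),(k10,k6)],[(k11,k6),(k1,k8)]]
    [] k0
    [[k1,k0,k0,k0,k1,k0],[k1,k0,k0,k0,k1,k1],[k0,k2,k0,k0,k0,k0],[k0,k1,k1,k0,k0,k0],[k0,k1,k0,k1,k0,k0],[k0,k0,k2,k0,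
    k0,k0],[k0,k0,k1,k1,k0,k0],[k0,k0,k0,k2,k0,k0],[k0,k0,k0,k0,k0,k2],[k0,k0,k0,k0,k0,k3]]
    [.ref k19 k0 [(z1,[z1])],.ref k2 k0 [(z1,[z1])],.contra [z1],.ref k0 k0 [(z1,[y1,z1])],.ref k1 k0 [(z1,[y1,z1])],
    .contra [z1],.ref k0 k1 [(z1,[y1,z1])],.contra [z1],.contra [z1],.ref k13 k0 [(z1,[y1,z3])]])]⟩

/-- classes `0 0 0 0 1 1`, types `S0 S0 S0 S0 C0 C2` -/
noncomputable def cU6_238 : CertX :=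
  ⟨[k0,k0,k0,k0,k20,k22],[(false,k0,[k0,k1,k2,k3,k4,k5]),(true,k4,[k4,k3,k2,k1,k0,k5])],[[[([z1,z0,z0,z1,z1,z1],z2)],
    [([z1,z0,z1,z0,z1,z1],z2)],[([z1,z0,z0,z0,z1,z1],z2)],[([z2,z0,z0,z0,z0,z1],z2)],[]]],
    [.old (.leafM k0 [k0,k3,k4,k5] [] [(k1,k2,z1,[y1,z1]),(k2,k1,z1,[y1,z1])]),
    .old (.leafM k1 [k4,k5,k0,k2] [] [(k1,k3,z1,[y1,z1]),(k3,k1,z1,[y1,z1])]),
    .old (.leafM k0 [k0,k1,k2,k3,k4,k5] [(z1,[y1,z1])] []),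
    .old (.lp [k34,k28,k48,k30,k20,k28] [k7,k7,k10,k10,k0,k0,k9,k9,k14,k14,k10,k10] k0 [[k0,k0,k12,k0,k0,k12],[],[],[k0,
    k12,k0,k0,k0,k0,k10],[k0,k12,k0,k0,k0,k0,k10],[],[k0,k0,k0,k0,k0,k0,k0,k4],[k0,k0,k10,k0,k0,k10]] k96 k5
    [[(k10,k31),(k11,k31)],[(k9,k27),(k4,k29),(k5,k29),(k2,k31),(k3,k31),(k6,k32),(k7,k32),(k0,k34)],[(k9,k24),(k3,
    k28),(k6,k29),(k0,k31),(k4,k38),(k5,k38),(k2,k40),(k7,k41)],[(k9,k24),(k2,k28),(k7,k29),(k0,k31),(k4,k38),(k5,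
    k38),(k6,k39),(k3,k40)],[(k9,k24),(k0,k29),(k2,k38),(k3,k38),(k6,k39),(k7,k39),(k4,k48),(k5,k48)],[(k9,k24),(k0,
    k29),(k2,k38),(k3,k38),(k6,k39),(k7,k39),(k4,k48),(k5,k48)],[(k9,k25),(k2,k29),(k7,k30),(k0,k32),(k4,k39),(k5,
    k39),(k6,k40),(k3,k41)],[(k9,k25),(k6,k26),(k3,k29),(k0,k32),(k2,k39),(k4,k39),(k5,k39),(k7,k40)],[(k2,k24),(k3,
    k24),(k4,k24),(k5,k24),(k9,k24),(k6,k25),(k7,k25),(k0,k27)],[(k10,k24),(k11,k24)],[(k8,k24),(k1,k31)],[(k8,k24),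
    (k1,k31)]]
    [] k0
    [[k1,k0,k0,k0,k1,k1],[k0,k2,k0,k0,k0,k0],[k0,k1,k1,k0,k0,k0],[k0,k1,k0,k1,k0,k0],[k0,k0,k1,k1,k0,k0],[k0,k0,k0,k2,
    k0,k0],[k0,k0,k0,k0,k2,k1]]
    [.ref k2 k0 [(z1,[z1])],.contra [z1],.ref k0 k0 [(z1,[y1,z0,z1])],.ref k1 k0 [(z1,[y1,z0,z1])],.ref k0 k1 [(z1,
    [y1,z0,z1])],.contra [z1],.ref k2 k0 [(z2,[z1,z1])]]),
    .old (.lp [k12,k14,k24,k16,k16,k12] [k6,k6,k5,k5,k0,k0,k4,k4,k4,k4,k6,k6] k0 [[k0,k0,k6,k0,k0,k6],[],[],[k0,k6,k0,k0,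
    k0,k0,k4],[k0,k6,k0,k0,k0,k0,k4],[],[k0,k0,k0,k0,k0,k0,k0,k4],[k0,k0,k4,k0,k0,k4]] k48 k5
    [[(k10,k12),(k11,k12)],[(k0,k12),(k4,k12),(k5,k12),(k2,k13),(k3,k13),(k6,k14),(k7,k14),(k9,k14)],[(k0,k13),(k3,
    k14),(k6,k15),(k9,k15),(k4,k19),(k5,k19),(k2,k20),(k7,k21)],[(k0,k13),(k2,k14),(k7,k15),(k9,k15),(k4,k19),(k5,
    k19),(k6,k19),(k3,k20)],[(k0,k12),(k9,k16),(k2,k19),(k3,k19),(k6,k20),(k7,k20),(k4,k24),(k5,k24)],[(k0,k12),(k9,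
    k16),(k2,k19),(k3,k19),(k6,k20),(k7,k20),(k4,k24),(k5,k24)],[(k0,k14),(k2,k15),(k7,k16),(k9,k16),(k4,k20),(k5,
    k20),(k6,k20),(k3,k21)],[(k6,k12),(k0,k14),(k3,k15),(k9,k16),(k2,k19),(k4,k20),(k5,k20),(k7,k20)],[(k0,k14),(k2,
    k15),(k3,k15),(k4,k16),(k5,k16),(k6,k16),(k7,k16),(k9,k20)],[(k10,k14),(k11,k14)],[(k1,k12),(k8,k14)],[(k1,k12),
    (k8,k14)]]
    [] k0
    [[k2,k0,k0,k0,k0,k1],[k1,k0,k0,k0,k1,k1],[k0,k2,k0,k0,k0,k0],[k0,k1,k1,k0,k0,k0],[k0,k1,k0,k1,k0,k0],[k0,k0,k1,k1,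
    k0,k0],[k0,k0,k0,k2,k0,k0]]
    [.ref k3 k0 [(z1,[z1])],.ref k2 k0 [(z1,[z1])],.contra [z1],.ref k0 k0 [(z1,[y1,z1])],.ref k1 k0 [(z1,[y1,z1])],
    .ref k0 k1 [(z1,[y1,z1])],.contra [z1]])]⟩

/-- classes `0 0 0 0 1 1`, types `S0 S0 S0 S0 N0 N1` -/
noncomputable def cU6_239 : CertX :=
  ⟨[k0,k0,k0,k0,k28,k29],[(false,k0,[k0,k1,k2,k3,k4,k5]),(true,k4,[k4,k3,k2,k1,k0,k5])],[[[([z1,z0,z1,z0,z1,z0],z2),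
    ([z0,z3,z0,z0,z0,z0],z2),([z0,z0,z0,z3,z0,z0],z2)],[([z3,z0,z0,z3,z3,z0],z4),([z0,z1,z0,y1,z0,z0],z0),([z0,z0,z1,
    z1,z0,z0],z2)],[([z3,z0,z0,z0,z3,z0],z2),([z0,z1,z0,z1,z0,z0],z2),([z0,z0,z3,z0,z0,z0],z2)],[([z1,z0,z0,z0,z1,z0],
    z1),([z0,z1,z0,z1,z0,z0],z2),([z0,z0,z3,z0,z0,z0],z1)],[([z3,z0,z0,y3,z3,z0],y2),([z0,z1,z0,z1,z0,z0],z2),([z0,z0,
    z1,z1,z0,z0],z2)],[([z1,z0,z0,y1,z1,z0],z0),([z0,z3,z0,z3,z0,z0],z4),([z0,z0,z1,z1,z0,z0],z2)],[([z3,z0,z0,z3,z3,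
    z0],z4),([z0,z3,z0,y3,z0,z0],z2),([z0,z0,z3,z3,z0,z0],z4)],[([z3,z0,z0,z3,z3,z0],z4),([z0,z1,z1,z0,z0,z0],z2)],
    [([z1,z0,z0,y1,z1,z0],z0),([z0,z1,z0,z1,z0,z0],z2),([z0,z0,z3,z3,z0,z0],z4)],[([z3,z0,z3,z0,z3,z0],z4),([z0,z1,z0,
    z1,z0,z0],z2)],[([z1,z0,z0,z0,z1,z0],z2),([z0,z3,z0,z3,z0,z0],z2),([z0,z0,z3,z0,z0,z0],z2)],[([z1,z0,z0,z0,z1,z0],
    z2),([z0,z1,z0,z1,z0,z0],z1),([z0,z0,z3,z0,z0,z0],z1)]],[[([z1,z0,z0,z0,z1,z0],z2),([z0,z6,z0,z3,z0,z0],z2),([z0,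
    z0,z2,z1,z0,z0],z2)],[([z1,z0,z0,z0,z1,z0],z2),([z0,z2,z0,z1,z0,z0],z2),([z0,z0,z6,z3,z0,z0],z2)],[([z1,z0,z0,z0,
    z1,z0],z2),([z0,z3,z3,z3,z0,z0],z4)],[([z3,z0,z0,y3,z3,z0],z2),([z0,z3,z0,z3,z0,z0],z4),([z0,z0,z3,z3,z0,z0],z4)],
    [([z1,z0,z0,z1,z1,z0],z2),([z0,z1,z0,y1,z0,z0],z0),([z0,z0,z3,z3,z0,z0],z4)],[([z1,z0,z0,z1,z1,z0],z2),([z0,z3,z3,
    z0,z0,z0],z4)],[([z1,z0,z1,z0,z1,z0],z2),([z0,z3,z0,z3,z0,z0],z4)],[([z3,z3,z3,z3,z3,z0],z10)],[([z1,z0,z0,z0,z1,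
    z0],z1),([z0,z2,z0,z0,z0,z0],z1),([z0,z0,z2,z0,z0,z0],z3),([z0,z0,z0,z2,z0,z0],z1)],[([z1,z0,z0,z0,z1,z0],z1),
    ([z0,z1,z0,z0,z0,z1],z1),([z0,z0,z1,z0,z0,y1],z1)],[([z1,z0,z0,z1,z1,z1],z2),([z0,z1,z0,y1,z0,z0],z0)],[([z1,z0,
    z0,z0,z1,z0],z1),([z0,z1,z0,z1,z0,z0],z2),([z0,z0,z2,z0,z0,z0],z1)]],[[([z1,z0,z0,z0,z1,z0],z1),([z0,z1,z0,z1,z0,
    z0],z2),([z0,z0,z3,z0,z0,z0],z2)],[([z1,z0,z0,z0,z1,z0],z1),([z0,z1,z0,z0,z0,y1],z1),([z0,z0,z1,z0,z0,z1],z1)],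
    [([z1,z0,z0,y1,z1,z1],z0),([z0,z1,z0,z1,z0,z0],z2)],[([z1,z0,z0,z1,z1,z1],z2)],[([z1,z0,z0,z0,z1,z0],z1),([z0,z1,
    z0,z1,z0,z0],z2)],[([z1,z0,z1,z0,z1,z1],z2)],[([z1,z0,z0,z0,z1,z0],z2),([z0,z1,z0,z1,z0,z0],z1),([z0,z0,z2,z0,z0,
    z0],z1)],[([z1,z0,z0,z0,z1,z0],z2),([z0,z6,z0,z6,z0,z0],z5),([z0,z0,z3,z0,z0,z0],z2)],[([z1,z0,z0,z0,z1,z0],z2),
    ([z0,z2,z2,z2,z0,z0],z3)],[([z1,z0,z0,z0,z1,z0],z2),([z0,z1,z0,z1,z0,z0],z1),([z0,z0,z3,z0,z0,z0],z2)],[([z1,z0,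
    z0,z0,z1,z0],z2),([z0,z3,z0,z3,z0,z3],z4)],[([z1,z0,z0,z0,z1,z0],z2)]],[[]]],
    [.old (.leafM k2 [k0,k1,k2,k3,k4,k5] [(z1,[z0,z1]),(z1,[z0,z0,z1]),(z1,[y3,y1,y1,z3])] []),
    .old (.lp [k102,(nat_lit 314),(nat_lit 338),(nat_lit 254),k186,(nat_lit 240)] [k128,k128,k0,k44,k10,k10,k86,k18,k86,
    k86,k59,k59] k0 [[k0,k0,k46,k86,k68],[k102,k0,k0,k0,k0,k0,k0,k72],[k0,k86,k0,k0,k0,k18,k128],[k0,k46,k194],[k0,k0,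
    k0,k18],[k0,k68,k0,k0,k0,k0,k110],[k72,k0,k0,k0,k0,k0,k0,k42],[k0,k0,k0,k128,k110]] (nat_lit 720) k6
    [[(k8,k144)],[(k2,k144),(k6,k144),(k7,k144),(k5,k174),(k3,k186),(k0,(nat_lit 204)),(k9,(nat_lit 216)),(k4,
    (nat_lit 220))],[(k6,k156),(k3,k168),(k0,k186),(k9,(nat_lit 228)),(k7,(nat_lit 296)),(k2,(nat_lit 360)),(k4,
    (nat_lit 372)),(k5,(nat_lit 390))],[(k0,k144),(k9,k144),(k6,(nat_lit 272)),(k4,(nat_lit 330)),(k7,(nat_lit 340)),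
    (k5,(nat_lit 348)),(k3,(nat_lit 360)),(k2,(nat_lit 552))],[(k5,k144),(k0,k174),(k9,(nat_lit 262)),(k4,
    (nat_lit 338)),(k2,(nat_lit 348)),(k7,(nat_lit 348)),(k3,(nat_lit 390)),(k6,(nat_lit 390))],[(k0,(nat_lit 220)),
    (k9,(nat_lit 262)),(k2,(nat_lit 330)),(k7,(nat_lit 330)),(k4,(nat_lit 338)),(k5,(nat_lit 338)),(k3,(nat_lit 372)),
    (k6,(nat_lit 372))],[(k0,k144),(k9,k144),(k6,(nat_lit 254)),(k3,(nat_lit 296)),(k7,(nat_lit 322)),(k4,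
    (nat_lit 330)),(k2,(nat_lit 340)),(k5,(nat_lit 348))],[(k0,k144),(k6,k144),(k3,k156),(k9,k186),(k7,(nat_lit 254)),
    (k2,(nat_lit 272)),(k4,(nat_lit 372)),(k5,(nat_lit 390))],[(k2,k144),(k7,k144),(k6,k186),(k0,(nat_lit 216)),(k3,
    (nat_lit 228)),(k9,(nat_lit 228)),(k4,(nat_lit 262)),(k5,(nat_lit 262))],[(k1,k144)],[(k10,(nat_lit 240))],[(k11,
    (nat_lit 240))]]
    [] k0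
    [[k1,k0,k0,k0,k1,k0],[k1,k1,k0,k0,k1,k0],[k1,k2,k0,k0,k1,k0],[k1,k1,k0,k1,k1,k0],[k1,k0,k1,k0,k1,k0],[k1,k0,k0,k1,
    k1,k0],[k1,k0,k0,k2,k1,k0],[k0,k1,k0,k1,k0,k0],[k0,k0,k2,k0,k0,k0],[k0,k0,k0,k2,k0,k0],[k0,k0,k0,k0,k0,k2]]
    [.contra [y3,z1,z4,z1],.contra [z1,y1,y3,y2,z2],.ref k0 k0 [(z1,[y2,z1,z4,z1]),(z1,[z3,y1,y3]),(z1,[z3,y1,y6])],
    .ref k0 k0 [(z1,[y2,z1,z2,z1]),(z1,[z3,y1]),(z1,[z3,y1,y3])],.ref k0 k0 [(z1,[z1]),(z2,[y3,z1,z6,z3]),(z2,[y3,z1,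
    z0,z3])],.contra [z1,y1,y2,y2,z2],.ref k0 k0 [(z1,[y2,z1,z0,z1]),(z1,[z3,y1,z3]),(z1,[z3,y1])],.contra [z1,z0,z1],
    .contra [y1,z0,z2,z2],.contra [z1,z0,z2],.contra [z1]]),
    .old (.leafM k10 [k0,k2,k4,k5] [(z1,[z0,z0,z1]),(z1,[y1,y3,y1,z3]),(z1,[z1])] [(k1,k3,z1,[z0,z1]),(k3,k1,z1,[z0,z1])]),
    .old (.leafM k11 [k4,k5,k0,k2] [(z1,[y3,y3,y1,z3]),(z1,[z0,z0,z1]),(z1,[z1])] [(k1,k3,z1,[z0,z1]),(k3,k1,z1,[z0,z1])]),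
    .old (.lp [k48,k120,k62,k120,k48,k80] [k58,k58,k0,k44,k51,k51,k22,k22,k58,k58,k42,k42] k0 [[k0,k0,k0,k20,k20],[],[k0,
    k20,k0,k0,k0,k24,k58],[],[k0,k0,k0,k24],[k0,k20,k0,k0,k0,k0,k34],[],[k0,k0,k0,k58,k34]] (nat_lit 240) k6
    [[(k8,k48)],[(k0,k48),(k9,k48),(k4,k55),(k5,k55),(k3,k62),(k7,k64),(k6,k84),(k2,k86)],[(k0,k62),(k9,k62),(k3,k76),
    (k4,k89),(k5,k89),(k6,k98),(k7,k98),(k2,k120)],[(k9,k48),(k0,k86),(k4,k89),(k5,k113),(k3,k120),(k6,k142),(k7,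
    k142),(k2,k164)],[(k0,k55),(k9,k55),(k4,k62),(k5,k62),(k3,k89),(k2,k113),(k7,k115),(k6,k149)],[(k0,k55),(k9,k55),
    (k4,k62),(k5,k62),(k2,k89),(k3,k89),(k7,k91),(k6,k125)],[(k9,k50),(k0,k64),(k4,k91),(k3,k98),(k5,k115),(k6,k120),
    (k7,k120),(k2,k142)],[(k0,k84),(k9,k84),(k3,k98),(k6,k120),(k7,k120),(k4,k125),(k2,k142),(k5,k149)],[(k0,k48),(k2,
    k48),(k9,k48),(k7,k50),(k4,k55),(k5,k55),(k3,k62),(k6,k84)],[(k1,k48)],[(k10,k80)],[(k11,k80)]]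
    [] k0
    [[k1,k0,k0,k0,k1,k0],[k2,k0,k0,k0,k2,k0],[k1,k1,k0,k0,k1,k0],[k1,k0,k1,k0,k1,k0],[k1,k0,k2,k0,k1,k0],[k1,k0,k0,k1,
    k1,k0],[k0,k1,k1,k0,k0,k0],[k0,k0,k2,k0,k0,k0],[k0,k0,k3,k0,k0,k0],[k0,k0,k0,k0,k0,k2]]
    [.contra [y3,z1,z4],.ref k3 k0 [(z2,[z1]),(z1,[z0,z0,z1]),(z2,[y3,z2,z0,z6])],.contra [z1,y1,y3,y2,z2],
    .contra [z1,y1,y2,y3,z2],.ref k2 k0 [(z1,[y3,z2,z0,z6]),(z1,[z0,z0,z1]),(z1,[z3,y1,z0,y3])],.ref k2 k0 [(z2,[z3,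
    z1]),(z1,[z0,z0,z1]),(z2,[y3,z1,z0,z6])],.contra [z1,z0,z1,y1],.contra [z1,z0,z2,y2],.ref k2 k0 [(z1,[y1,z1,z0,
    z3]),(z1,[z0,z0,z1]),(z1,[z1])],.contra [z1]]),
    .old (.lp [k12,k21,k30,k18,k18,k20] [k9,k9,k2,k7,k0,k0,k6,k6,k9,k3,k5,k5] k0 [[],[k0,k0,k0,k0,k0,k3,k3],[k0,k0,k0,k0,
    k0,k12,k12],[],[k3,k0,k0,k12],[],[],[k3,k0,k0,k12]] k60 k6
    [[(k8,k12)],[(k0,k12),(k3,k14),(k6,k18),(k7,k18),(k9,k18),(k2,k19),(k4,k21),(k5,k21)],[(k0,k14),(k3,k16),(k6,k17),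
    (k7,k17),(k9,k17),(k4,k20),(k2,k21),(k5,k23)],[(k9,k13),(k4,k16),(k0,k19),(k3,k21),(k6,k22),(k7,k22),(k2,k26),(k5,
    k28)],[(k0,k21),(k3,k23),(k9,k27),(k2,k28),(k4,k30),(k5,k30),(k6,k36),(k7,k36)],[(k2,k16),(k3,k20),(k0,k21),(k6,
    k24),(k7,k24),(k9,k27),(k4,k30),(k5,k30)],[(k3,k17),(k0,k18),(k6,k18),(k7,k18),(k9,k21),(k2,k22),(k4,k24),(k5,
    k36)],[(k3,k17),(k0,k18),(k6,k18),(k7,k18),(k9,k21),(k2,k22),(k4,k24),(k5,k36)],[(k2,k13),(k3,k17),(k0,k18),(k6,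
    k21),(k7,k21),(k9,k24),(k4,k27),(k5,k27)],[(k1,k12)],[(k10,k20)],[(k11,k20)]]
    [] k0
    [[k1,k0,k0,k0,k1,k0],[k1,k1,k0,k0,k1,k0],[k1,k0,k0,k1,k1,k0],[k0,k2,k0,k0,k0,k0],[k0,k1,k1,k0,k0,k0],[k0,k1,k0,k1,
    k0,k0],[k0,k1,k0,k2,k0,k0],[k0,k0,k0,k2,k0,k0],[k0,k0,k0,k3,k0,k0],[k0,k0,k0,k0,k0,k2]]
    [.contra [y1,z1,z0,z1],.contra [z1,y3,y1,y2,z2],.contra [y1,z1,z0,z2],.contra [z1],.ref k0 k0 [(z1,[z0,z1,z0,z1]),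
    (z2,[z3,z0,z1,y3]),(z2,[y3,z0,z1,z3])],.contra [z1,y2,y1,y2,z2],.ref k0 k0 [(z1,[z0,z1,z0,z1]),(z1,[y3,z0,z2]),
    (z1,[z3,z0,y1])],.contra [y1,z0,z0,z2],.ref k0 k0 [(z1,[z0,z1,z0,z1]),(z1,[y1,z0,z1]),(z1,[z1])],.contra [z1]]),
    .old (.lp [k36,k66,k40,k38,k18,k40] [k15,k15,k0,k0,k13,k13,k15,k13,k27,k21,k13,k13] k0 [[k0,k0,k0,k0,k14],[k12,k0,k0,
    k0,k0,k0,k0,k6],[],[k0,k0,k0,k0,k14],[k0,k0,k0,k0,k0,k0,k6,k4],[k0,k14,k14],[k6,k0,k0,k0,k0,k4],[k0,k0,k0,k0,k0,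
    k6]] k120 k6
    [[(k8,k24)],[(k7,k24),(k6,k36),(k9,k36),(k4,k38),(k5,k38),(k0,k48),(k2,k51),(k3,k51)],[(k6,k45),(k9,k45),(k0,k51),
    (k5,k53),(k7,k53),(k3,k54),(k2,k66),(k4,k67)],[(k9,k45),(k0,k51),(k6,k51),(k5,k53),(k7,k53),(k2,k66),(k3,k66),(k4,
    k67)],[(k7,k26),(k9,k32),(k0,k38),(k6,k38),(k4,k40),(k5,k40),(k2,k53),(k3,k53)],[(k9,k26),(k6,k34),(k0,k38),(k4,
    k40),(k5,k40),(k7,k40),(k2,k67),(k3,k67)],[(k0,k24),(k5,k26),(k9,k36),(k4,k40),(k7,k40),(k6,k44),(k2,k53),(k3,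
    k53)],[(k9,k30),(k4,k34),(k0,k36),(k6,k36),(k5,k38),(k7,k44),(k3,k45),(k2,k51)],[(k9,k24),(k4,k26),(k6,k30),(k5,
    k32),(k0,k36),(k7,k36),(k2,k45),(k3,k45)],[(k1,k24)],[(k10,k40)],[(k11,k40)]]
    [] k0
    [[k1,k0,k0,k0,k1,k0],[k1,k0,k1,k0,k1,k0],[k1,k0,k1,k1,k1,k0],[k1,k0,k0,k1,k1,k0],[k0,k1,k0,k1,k0,k0],[k0,k0,k2,k0,
    k0,k0],[k0,k0,k2,k1,k0,k0],[k0,k0,k1,k1,k0,k0],[k0,k0,k1,k2,k0,k0],[k0,k0,k0,k2,k0,k0],[k0,k0,k0,k0,k0,k2]]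
    [.contra [y3,z1,z1],.contra [y3,z1,z2,z1],.ref k2 k0 [(z1,[z3,z0,z0,y1]),(z3,[y6,z2,z1,z2]),(z1,[z3,y1])],
    .contra [z3,y3,y2,y2,z6],.ref k2 k0 [(z2,[y3,z2,z1]),(z1,[z1]),(z2,[y3,z0,z1,z2])],.contra [y3,z0,z2,z2],
    .ref k2 k0 [(z1,[z3,z1,z0,y2]),(z3,[y6,z0,z1,z4]),(z1,[z3,z0,z0,y1])],.contra [z3,y2,y2,y3,z6],.ref k2 k0 [(z1,
    [y3,z1,z0,z1]),(z3,[z6,z0,z1,y2]),(z1,[y3,z0,z0,z2])],.contra [z1],.contra [z1]]),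
    .old (.lp [k42,k42,k60,k39,k15,k40] [k9,k9,k9,k9,k0,k0,k12,k9,k27,k18,k10,k10] k0 [[k0,k0,k0,k18,k18],[k6,k0,k0,k0,k0,
    k0,k0,k3],[k0,k18],[k0,k0,k0,k0,k0,k0,k3,k3],[k0,k0,k0,k0,k0,k0,k3,k3],[k0,k18],[k3,k0,k3,k0,k0,k3],[k0,k0,k3,k0,
    k0,k3]] k120 k6
    [[(k8,k24)],[(k2,k24),(k7,k24),(k9,k36),(k6,k39),(k3,k42),(k0,k48),(k4,k51),(k5,k51)],[(k9,k33),(k3,k36),(k6,k36),
    (k0,k42),(k2,k42),(k7,k42),(k4,k69),(k5,k69)],[(k0,k24),(k9,k36),(k2,k42),(k3,k42),(k6,k42),(k7,k42),(k4,k51),(k5,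
    k51)],[(k9,k39),(k6,k45),(k0,k51),(k2,k51),(k7,k51),(k4,k60),(k5,k60),(k3,k69)],[(k9,k39),(k6,k45),(k0,k51),(k2,
    k51),(k7,k51),(k4,k60),(k5,k60),(k3,k69)],[(k0,k24),(k9,k36),(k2,k42),(k3,k42),(k6,k42),(k7,k42),(k4,k51),(k5,
    k51)],[(k9,k30),(k3,k36),(k6,k36),(k0,k39),(k2,k42),(k7,k42),(k4,k45),(k5,k45)],[(k9,k24),(k6,k30),(k3,k33),(k0,
    k36),(k2,k36),(k7,k36),(k4,k39),(k5,k39)],[(k1,k24)],[(k10,k40)],[(k11,k40)]]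
    [] k0
    [[k1,k0,k0,k0,k1,k0],[k1,k1,k0,k0,k1,k0],[k1,k0,k1,k0,k1,k0],[k1,k0,k0,k1,k1,k0],[k0,k2,k0,k0,k0,k0],[k0,k1,k0,k1,
    k0,k0],[k0,k0,k1,k1,k0,k0],[k0,k0,k0,k2,k0,k0],[k0,k0,k0,k0,k0,k2]]
    [.contra [y3,z1,z1],.ref k6 k0 [(z1,[z0,z1]),(z1,[z3,y1]),(z1,[y3,z1,z3])],.ref k5 k1 [(z1,[z1,z0,y1]),(z1,[y3,z1,
    z3]),(z1,[z0,z0,z1])],.contra [z1,y1,y2,z2],.contra [z1],.ref k4 k1 [(z1,[y3,z1]),(z1,[z1]),(z1,[z0,z0,z1])],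
    .ref k1 k0 [(z1,[z0,z1]),(z1,[y1,z0,z1]),(z1,[z1])],.contra [z1],.contra [z1]]),
    .old (.lp [k50,k120,k60,k120,k48,k80] [k35,k35,k0,k0,k30,k30,k0,k0,k36,k36,k20,k20] k0 [[k0,k0,k0,k0,k0,k0,k0,k22],[],
    [],[k0,k0,k0,k0,k0,k0,k0,k22],[],[],[k0,k22,k22]] (nat_lit 240) k6
    [[(k8,k49)],[(k9,k49),(k0,k50),(k4,k55),(k5,k55),(k6,k63),(k2,k85),(k3,k85),(k7,k85)],[(k0,k85),(k4,k90),(k5,k90),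
    (k9,k106),(k2,k120),(k3,k120),(k6,k120),(k7,k120)],[(k0,k85),(k4,k90),(k5,k90),(k9,k106),(k2,k120),(k3,k120),(k6,
    k120),(k7,k120)],[(k9,k54),(k0,k55),(k4,k60),(k5,k60),(k6,k68),(k2,k90),(k3,k90),(k7,k90)],[(k9,k54),(k0,k55),(k4,
    k60),(k5,k60),(k2,k90),(k3,k90),(k6,k90),(k7,k90)],[(k9,k84),(k0,k85),(k4,k90),(k5,k90),(k2,k120),(k3,k120),(k6,
    k120),(k7,k120)],[(k0,k63),(k5,k68),(k9,k84),(k4,k90),(k2,k120),(k3,k120),(k6,k120),(k7,k120)],[(k9,k48),(k0,k49),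
    (k4,k54),(k5,k54),(k6,k84),(k7,k84),(k2,k106),(k3,k106)],[(k1,k49)],[(k10,k80)],[(k11,k80)]]
    [] k0
    [[k1,k0,k0,k0,k1,k0],[k2,k0,k0,k0,k2,k0],[k1,k0,k1,k0,k1,k0],[k1,k0,k2,k0,k1,k0],[k1,k0,k0,k1,k1,k0],[k0,k1,k1,k0,
    k0,k0],[k0,k0,k2,k0,k0,k0],[k0,k0,k3,k0,k0,k0],[k0,k0,k2,k1,k0,k0],[k0,k0,k1,k1,k0,k0],[k0,k0,k0,k0,k0,k2]]
    [.contra [y1,z1,z1],.contra [y1,z2,z2],.contra [z1,y3,y2,y1,z2],.ref k7 k0 [(z1,[y6,z9,z0,z4]),(z1,[z2,y2,z1,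
    y1])],.contra [y1,z1,z2],.ref k7 k0 [(z1,[y3,z3,z3,z1]),(z1,[z1])],.contra [z1],.ref k7 k0 [(z1,[y2,z3,z0,z2]),
    (z3,[z2,z0,z3,y1])],.ref k7 k0 [(z1,[y6,z3,z0,z4]),(z1,[z2,z0,z1,y1])],.contra [z1,y2,y2,y1,z2],.contra [z1]]),
    .old (.lp [k48,k120,k62,k120,k48,k80] [k58,k58,k0,k44,k51,k51,k22,k22,k58,k58,k42,k42] k0 [[k0,k0,k0,k20,k20],[],[k0,
    k20,k0,k0,k0,k24,k58],[],[k0,k0,k0,k24],[k0,k20,k0,k0,k0,k0,k34],[],[k0,k0,k0,k58,k34]] (nat_lit 240) k6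
    [[(k8,k48)],[(k0,k48),(k9,k48),(k4,k55),(k5,k55),(k3,k62),(k7,k64),(k6,k84),(k2,k86)],[(k0,k62),(k9,k62),(k3,k76),
    (k4,k89),(k5,k89),(k6,k98),(k7,k98),(k2,k120)],[(k9,k48),(k0,k86),(k4,k89),(k5,k113),(k3,k120),(k6,k142),(k7,
    k142),(k2,k164)],[(k0,k55),(k9,k55),(k4,k62),(k5,k62),(k3,k89),(k2,k113),(k7,k115),(k6,k149)],[(k0,k55),(k9,k55),
    (k4,k62),(k5,k62),(k2,k89),(k3,k89),(k7,k91),(k6,k125)],[(k9,k50),(k0,k64),(k4,k91),(k3,k98),(k5,k115),(k6,k120),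
    (k7,k120),(k2,k142)],[(k0,k84),(k9,k84),(k3,k98),(k6,k120),(k7,k120),(k4,k125),(k2,k142),(k5,k149)],[(k0,k48),(k2,
    k48),(k9,k48),(k7,k50),(k4,k55),(k5,k55),(k3,k62),(k6,k84)],[(k1,k48)],[(k10,k80)],[(k11,k80)]]
    [] k0
    [[k1,k0,k0,k0,k1,k0],[k2,k0,k0,k0,k2,k0],[k1,k1,k0,k0,k1,k0],[k1,k0,k1,k0,k1,k0],[k1,k0,k2,k0,k1,k0],[k1,k0,k0,k1,
    k1,k0],[k0,k1,k1,k0,k0,k0],[k0,k0,k2,k0,k0,k0],[k0,k0,k3,k0,k0,k0],[k0,k0,k0,k0,k0,k2]]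
    [.contra [y3,z1,z1],.ref k3 k0 [(z2,[z1]),(z1,[z0,z0,z1]),(z2,[y3,z2])],.ref k8 k0 [(z1,[z1,z0,y1]),(z1,[z0,z0,
    z1]),(z1,[y3,z1,z3])],.contra [z1,y1,y2,z2],.ref k2 k0 [(z1,[y3,z2]),(z1,[z0,z0,z1]),(z1,[z3,y1])],
    .ref k8 k1 [(z1,[z1,z0,y1]),(z1,[z0,z0,z1]),(z1,[y3,z1,z3])],.ref k7 k0 [(z1,[y3,z1,z3]),(z1,[z1])],.contra [z1],
    .ref k2 k0 [(z1,[y1,z1]),(z1,[z0,z0,z1]),(z1,[z1])],.contra [z1]]),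
    .old (.leafM k10 [k1,k2,k3,k5] [(z1,[z0,z0,z1]),(z1,[y3,y1,y1,z3]),(z1,[z0,z1])] [(k4,k0,z1,[z1]),(k0,k4,z1,[z1])]),
    .old (.leafM k8 [k3,k5,k1,k2] [(z1,[y3,y3,y1,z3]),(z1,[z0,z0,z1]),(z1,[z0,z1])] [(k4,k0,z1,[z1]),(k0,k4,z1,[z1])]),
    .old (.lp [(nat_lit 552),(nat_lit 1380),(nat_lit 720),(nat_lit 1104),(nat_lit 828),(nat_lit 920)] [(nat_lit 828),
    (nat_lit 828),(nat_lit 828),k0,(nat_lit 744),(nat_lit 744),(nat_lit 276),(nat_lit 828),(nat_lit 805),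
    (nat_lit 575),(nat_lit 644),(nat_lit 644)] k0 [[],[k0,k0,k0,k0,k0,k0,k0,(nat_lit 1380)],[k0,k0,k0,k0,k0,k0,
    (nat_lit 230)],[],[],[k0,k0,k0,k0,k0,k0,(nat_lit 230)],[(nat_lit 1380)],[k0,k0,k0,(nat_lit 230),
    (nat_lit 230)]] (nat_lit 2760) k6
    [[(k8,(nat_lit 575))],[(k0,(nat_lit 552)),(k2,(nat_lit 552)),(k7,(nat_lit 552)),(k4,(nat_lit 636)),(k5,
    (nat_lit 636)),(k6,(nat_lit 1104)),(k3,(nat_lit 1380)),(k9,(nat_lit 2185))],[(k6,(nat_lit 552)),(k0,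
    (nat_lit 1380)),(k2,(nat_lit 1380)),(k7,(nat_lit 1380)),(k4,(nat_lit 1464)),(k5,(nat_lit 1464)),(k9,
    (nat_lit 1633)),(k3,(nat_lit 2208))],[(k0,(nat_lit 552)),(k2,(nat_lit 552)),(k7,(nat_lit 552)),(k9,(nat_lit 575)),
    (k4,(nat_lit 636)),(k5,(nat_lit 636)),(k6,(nat_lit 1104)),(k3,(nat_lit 1380))],[(k0,(nat_lit 636)),(k2,
    (nat_lit 636)),(k7,(nat_lit 636)),(k4,(nat_lit 720)),(k5,(nat_lit 720)),(k9,(nat_lit 889)),(k6,(nat_lit 1418)),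
    (k3,(nat_lit 1464))],[(k0,(nat_lit 636)),(k2,(nat_lit 636)),(k7,(nat_lit 636)),(k4,(nat_lit 720)),(k5,
    (nat_lit 720)),(k9,(nat_lit 889)),(k6,(nat_lit 1418)),(k3,(nat_lit 1464))],[(k0,(nat_lit 552)),(k2,(nat_lit 552)),
    (k7,(nat_lit 552)),(k9,(nat_lit 575)),(k4,(nat_lit 636)),(k5,(nat_lit 636)),(k6,(nat_lit 1104)),(k3,
    (nat_lit 1380))],[(k3,(nat_lit 552)),(k0,(nat_lit 1104)),(k2,(nat_lit 1104)),(k7,(nat_lit 1104)),(k9,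
    (nat_lit 1357)),(k4,(nat_lit 1418)),(k5,(nat_lit 1418)),(k6,(nat_lit 1656))],[(k2,(nat_lit 575)),(k7,
    (nat_lit 575)),(k4,(nat_lit 889)),(k5,(nat_lit 889)),(k9,(nat_lit 1058)),(k6,(nat_lit 1357)),(k3,(nat_lit 1633)),
    (k0,(nat_lit 2185))],[(k1,(nat_lit 575))],[(k10,(nat_lit 920))],[(k11,(nat_lit 920))]]
    [] k0
    [[k1,k1,k0,k0,k1,k0],[k1,k1,k0,k1,k1,k0],[k1,k0,k1,k0,k1,k0],[k1,k0,k0,k1,k1,k0],[k0,k2,k0,k1,k0,k0],[k0,k1,k1,k0,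
    k0,k0],[k0,k1,k0,k1,k0,k0],[k0,k2,k0,k2,k0,k0],[k0,k1,k1,k1,k0,k0],[k0,k1,k2,k1,k0,k0],[k0,k1,k0,k2,k0,k0],[k0,k0,
    k2,k0,k0,k0],[k0,k0,k3,k0,k0,k0],[k0,k0,k1,k1,k0,k0],[k0,k0,k0,k2,k0,k0],[k0,k0,k0,k0,k0,k2]]
    [.contra [z1,y1],.contra [z1,y1],.contra [z1,y1],.contra [y1,z1,z0,z1],.contra [z1,y4,y1,y2,z4],.contra [y2,z0,z1,
    z1],.contra [y6,z0,z1,z5],.contra [y2,z0,z1,z1],.contra [z2,y4,y1,y3,z4],.contra [z1,z0,z0,y1],.contra [y2,z0,z1,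
    z1],.contra [z1],.contra [z2,z0,z1,y3],.contra [y1,z0,z0,z1],.contra [z1],.contra [z1]]),
    .old (.lp [k82,k120,k60,k76,k60,k80] [k55,k55,k72,k0,k66,k66,k46,k70,k66,k66,k56,k56] k0 [[k0,k0,k22,k0,k0,k22],[k0,
    k0,k0,k0,k0,k0,k0,k98],[],[k0,k22],[k0,k22,k0,k0,k0,k0,k12],[],[k98],[k0,k0,k0,k0,k0,k12]] (nat_lit 240) k6
    [[(k8,k71)],[(k4,k49),(k5,k49),(k2,k65),(k7,k67),(k0,k82),(k6,k91),(k3,k137),(k9,k169)],[(k6,k48),(k4,k126),(k5,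
    k126),(k9,k126),(k0,k137),(k2,k142),(k7,k144),(k3,k192)],[(k2,k48),(k7,k50),(k4,k54),(k5,k54),(k9,k54),(k0,k65),
    (k6,k74),(k3,k142)],[(k0,k49),(k2,k54),(k7,k56),(k4,k60),(k5,k60),(k9,k60),(k6,k80),(k3,k126)],[(k9,k48),(k0,k49),
    (k2,k54),(k7,k56),(k4,k60),(k5,k60),(k6,k80),(k3,k126)],[(k2,k50),(k7,k52),(k4,k56),(k5,k56),(k9,k56),(k0,k67),
    (k6,k88),(k3,k144)],[(k3,k48),(k2,k74),(k4,k80),(k5,k80),(k9,k80),(k7,k88),(k0,k91),(k6,k100)],[(k4,k48),(k2,k54),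
    (k7,k56),(k5,k60),(k9,k60),(k6,k80),(k3,k126),(k0,k169)],[(k1,k71)],[(k10,k80)],[(k11,k80)]]
    [] k0
    [[k1,k0,k1,k0,k1,k0],[k1,k0,k2,k0,k1,k0],[k1,k0,k0,k1,k1,k0],[k0,k1,k1,k0,k0,k0],[k0,k1,k0,k1,k0,k0],[k0,k2,k0,k2,
    k0,k0],[k0,k1,k1,k1,k0,k0],[k0,k1,k2,k1,k0,k0],[k0,k1,k1,k2,k0,k0],[k0,k1,k0,k2,k0,k0],[k0,k0,k2,k0,k0,k0],[k0,k0,
    k3,k0,k0,k0],[k0,k0,k2,k1,k0,k0],[k0,k0,k1,k1,k0,k0],[k0,k0,k1,k2,k0,k0],[k0,k0,k0,k2,k0,k0],[k0,k0,k0,k0,k0,k2]]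
    [.contra [z1,y1],.contra [z1,y1],.contra [y1,z1,z1],.contra [y2,z0,z1,z1],.contra [y1,z0,z1],.contra [y1,z0,z2],
    .contra [z2,y4,y3,y1,z4],.contra [y2,z0,z1,z1],.contra [y2,z0,z1,z1],.contra [y2,z0,z1,z1],.contra [z1],
    .contra [y1,z0,z0,z1],.contra [z1,y4,y2,y1,z4],.contra [y6,z0,z5,z1],.contra [y2,z0,z1,z1],.contra [z1],
    .contra [z1]]),
    .old (.lp [(nat_lit 7272),(nat_lit 12928),(nat_lit 6060),(nat_lit 9090),(nat_lit 4848),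
    (nat_lit 8080)] [(nat_lit 6868),(nat_lit 6868),(nat_lit 8080),k0,(nat_lit 7474),(nat_lit 7474),(nat_lit 4039),
    (nat_lit 7879),(nat_lit 8080),(nat_lit 8080),(nat_lit 6464),(nat_lit 6464)] k0 [[k0,k0,(nat_lit 1414),k0,k0,
    (nat_lit 1414)],[k0,k0,k0,k0,k0,k0,k0,(nat_lit 12120)],[],[k0,(nat_lit 1414)],[k0,(nat_lit 1414)],[],
    [(nat_lit 12120)]] (nat_lit 24240) k6
    [[(k8,(nat_lit 6060))],[(k4,(nat_lit 5252)),(k5,(nat_lit 5252)),(k2,(nat_lit 6060)),(k7,(nat_lit 6261)),(k0,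
    (nat_lit 7272)),(k6,(nat_lit 10101)),(k3,(nat_lit 14140)),(k9,(nat_lit 18180))],[(k6,(nat_lit 4849)),(k9,
    (nat_lit 12928)),(k4,(nat_lit 13534)),(k5,(nat_lit 13534)),(k0,(nat_lit 14140)),(k2,(nat_lit 14342)),(k7,
    (nat_lit 14543)),(k3,(nat_lit 21008))],[(k2,(nat_lit 4848)),(k9,(nat_lit 4848)),(k7,(nat_lit 5049)),(k4,
    (nat_lit 5454)),(k5,(nat_lit 5454)),(k0,(nat_lit 6060)),(k6,(nat_lit 8889)),(k3,(nat_lit 14342))],[(k0,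
    (nat_lit 5252)),(k2,(nat_lit 5454)),(k9,(nat_lit 5454)),(k7,(nat_lit 5655)),(k4,(nat_lit 6060)),(k5,
    (nat_lit 6060)),(k6,(nat_lit 9495)),(k3,(nat_lit 13534))],[(k0,(nat_lit 5252)),(k2,(nat_lit 5454)),(k9,
    (nat_lit 5454)),(k7,(nat_lit 5655)),(k4,(nat_lit 6060)),(k5,(nat_lit 6060)),(k6,(nat_lit 9495)),(k3,
    (nat_lit 13534))],[(k2,(nat_lit 5049)),(k9,(nat_lit 5049)),(k7,(nat_lit 5250)),(k4,(nat_lit 5655)),(k5,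
    (nat_lit 5655)),(k0,(nat_lit 6261)),(k6,(nat_lit 9090)),(k3,(nat_lit 14543))],[(k3,(nat_lit 4849)),(k2,
    (nat_lit 8889)),(k9,(nat_lit 8889)),(k7,(nat_lit 9090)),(k4,(nat_lit 9495)),(k5,(nat_lit 9495)),(k0,
    (nat_lit 10101)),(k6,(nat_lit 12930))],[(k2,(nat_lit 4848)),(k9,(nat_lit 4848)),(k7,(nat_lit 5049)),(k4,
    (nat_lit 5454)),(k5,(nat_lit 5454)),(k6,(nat_lit 8889)),(k3,(nat_lit 12928)),(k0,(nat_lit 18180))],[(k1,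
    (nat_lit 6060))],[(k10,(nat_lit 8080))],[(k11,(nat_lit 8080))]]
    [] k0
    [[k1,k1,k0,k1,k1,k0],[k1,k0,k1,k0,k1,k0],[k1,k0,k2,k0,k1,k0],[k1,k0,k0,k1,k1,k0],[k0,k1,k1,k0,k0,k0],[k0,k1,k0,k1,
    k0,k0],[k0,k2,k0,k2,k0,k0],[k0,k1,k1,k1,k0,k0],[k0,k1,k2,k1,k0,k0],[k0,k1,k0,k2,k0,k0],[k0,k0,k2,k0,k0,k0],[k0,k0,
    k3,k0,k0,k0],[k0,k0,k2,k1,k0,k0],[k0,k0,k1,k1,k0,k0],[k0,k0,k0,k2,k0,k0],[k0,k0,k0,k0,k0,k2]]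
    [.contra [z1,y1],.contra [z1,y1],.contra [z1,y1],.contra [z1,y1],.contra [y2,z0,z1],.contra [y2,z0,z1],
    .ref k11 k0 [(z1,[z0,z1]),(z2,[z1]),(z2,[y3,z0,z2])],.contra [z1,y2,y1,z2],.ref k10 k0 [(z1,[z0,z1]),(z1,[y3,z0,
    z2]),(z1,[z3,z0,y1])],.ref k13 k1 [(z1,[z0,z1]),(z1,[z1]),(z1,[y3,z0,z2])],.contra [z1],.ref k10 k0 [(z1,[z0,z1]),
    (z1,[y1,z0,z1]),(z1,[z1])],.ref k12 k0 [(z1,[z0,z1]),(z1,[y3,z0,z2]),(z1,[z1])],.contra [y2,z0,z1],.contra [z1],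
    .contra [z1]]),
    .old (.lp [k66,k90,k120,k60,k60,k80] [k27,k27,k15,k15,k0,k0,k30,k30,k30,k30,k20,k20] k0 [[k0,k0,k0,k0,k0,k0,k0,k3],
    [k0,k0,k21],[],[k21,k0,k0,k0,k0,k0,k0,k24],[],[],[k0,k3,k24]] (nat_lit 240) k5
    [[(k8,k63)],[(k6,k60),(k7,k63),(k9,k63),(k0,k66),(k3,k78),(k4,k93),(k5,k93),(k2,k99)],[(k6,k75),(k7,k75),(k0,k78),
    (k9,k78),(k5,k84),(k2,k90),(k3,k90),(k4,k105)],[(k6,k75),(k7,k75),(k2,k90),(k3,k90),(k0,k99),(k9,k99),(k4,k105),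
    (k5,k105)],[(k6,k66),(k3,k84),(k7,k90),(k9,k90),(k0,k93),(k2,k105),(k4,k120),(k5,k120)],[(k6,k90),(k7,k90),(k9,
    k90),(k0,k93),(k2,k105),(k3,k105),(k4,k120),(k5,k120)],[(k6,k60),(k7,k60),(k9,k60),(k0,k63),(k2,k75),(k3,k75),(k4,
    k90),(k5,k90)],[(k0,k60),(k6,k60),(k7,k60),(k9,k60),(k5,k66),(k2,k75),(k3,k75),(k4,k90)],[(k6,k60),(k7,k60),(k9,
    k60),(k0,k63),(k3,k78),(k4,k90),(k5,k90),(k2,k99)],[(k1,k63)],[(k10,k80)],[(k11,k80)]]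
    [] k0
    [[k1,k0,k0,k0,k1,k0],[k1,k0,k0,k1,k1,k0],[k0,k2,k0,k0,k0,k0],[k0,k1,k1,k0,k0,k0],[k0,k1,k0,k1,k0,k0],[k0,k1,k0,k2,
    k0,k0],[k0,k0,k1,k1,k0,k0],[k0,k0,k1,k2,k0,k0],[k0,k0,k0,k2,k0,k0],[k0,k0,k0,k3,k0,k0],[k0,k0,k0,k0,k0,k2]]
    [.contra [y3,z1,z1],.ref k0 k0 [(z3,[z0,z1,z0,z1]),(z2,[y3,z1,z2]),(z2,[z3,y1])],.contra [z1],.contra [z3,z0,z1,
    y1],.contra [z3,y2,y3,y2,z6],.ref k0 k0 [(z3,[z0,z1,z0,z1]),(z1,[y3,z0,z2]),(z1,[z3,z0,y1])],.contra [z3,y2,y2,y3,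
    z6],.ref k0 k0 [(z3,[z0,z1,z0,z1]),(z1,[y3,z0,z1,z1]),(z1,[z3,z0,z0,y1])],.contra [z1],.ref k0 k0 [(z3,[z0,z1,z0,
    z1]),(z1,[y1,z0,z1]),(z1,[z1])],.contra [z1]]),
    .old (.lp [k30,k60,k30,k48,k30,k40] [k15,k15,k0,k0,k15,k15,k6,k6,k15,k15,k10,k10] k0 [[],[k0,k0,k6,k0,k0,k12,k6],[],
    [k6],[k12,k0,k0,k0,k0,k0,k0,k6],[],[k0,k0,k0,k0,k0,k6],[k6]] k120 k5
    [[(k8,k30)],[(k0,k30),(k4,k30),(k5,k30),(k9,k30),(k3,k45),(k6,k45),(k2,k51),(k7,k51)],[(k4,k33),(k5,k39),(k9,k39),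
    (k0,k45),(k6,k54),(k7,k54),(k2,k60),(k3,k60)],[(k4,k45),(k5,k45),(k9,k45),(k0,k51),(k6,k54),(k7,k54),(k2,k60),(k3,
    k60)],[(k0,k30),(k4,k30),(k5,k30),(k9,k30),(k3,k39),(k6,k39),(k7,k39),(k2,k45)],[(k0,k30),(k4,k30),(k5,k30),(k9,
    k30),(k3,k33),(k6,k33),(k7,k39),(k2,k45)],[(k4,k39),(k5,k39),(k9,k45),(k6,k48),(k7,k48),(k0,k51),(k2,k54),(k3,
    k54)],[(k4,k33),(k5,k39),(k9,k39),(k0,k45),(k6,k48),(k7,k48),(k2,k54),(k3,k54)],[(k0,k30),(k4,k30),(k5,k30),(k9,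
    k30),(k3,k39),(k6,k39),(k2,k45),(k7,k45)],[(k1,k30)],[(k10,k40)],[(k11,k40)]]
    [] k0
    [[k1,k0,k0,k0,k1,k0],[k1,k0,k1,k0,k1,k0],[k0,k1,k1,k0,k0,k0],[k0,k1,k2,k0,k0,k0],[k0,k1,k0,k1,k0,k0],[k0,k0,k2,k0,
    k0,k0],[k0,k0,k3,k0,k0,k0],[k0,k0,k2,k1,k0,k0],[k0,k0,k1,k1,k0,k0],[k0,k0,k0,k2,k0,k0],[k0,k0,k0,k0,k0,k2]]
    [.contra [y1,z1,z1],.ref k0 k0 [(z1,[z1]),(z2,[y3,z3,z6,z1]),(z2,[y3,z3,z0,z1])],.contra [z1,y2,y3,y1,z2],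
    .ref k0 k0 [(z1,[z2,z1,y2,y1]),(z1,[y3,z0,z6,z2]),(z1,[y3,z0,z3,z2])],.contra [z1,z0,z1],.contra [z1],
    .ref k0 k0 [(z3,[z2,z3,z0,y1]),(z1,[y1,z0,z3,z1]),(z1,[y1,z0,z0,z1])],.ref k0 k0 [(z1,[z2,z1,z0,y1]),(z1,[y3,z0,
    z3,z2]),(z1,[y3,z0,z0,z2])],.contra [z1,y2,y2,y1,z2],.contra [z1,z0,z2],.contra [z1]]),
    .old (.lp [k60,k78,k114,k84,k60,k80] [k27,k27,k18,k18,k0,k0,k15,k15,k27,k27,k17,k17] k0 [[k0,k0,k6,k6],[k0,k0,k0,k0,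
    k0,k36],[k0,k6,k0,k0,k6,k0,k6],[k0,k6,k0,k0,k0,k0,k6],[k36,k0,k0,k0,k0,k0,k0,k36],[k0,k0,k0,k6,k12],[k0,k0,k0,k0,
    k0,k36],[k0,k0,k6,k6]] (nat_lit 240) k5
    [[(k8,k60)],[(k0,k60),(k9,k60),(k2,k63),(k3,k69),(k6,k72),(k5,k81),(k4,k87),(k7,k108)],[(k4,k60),(k0,k69),(k9,
    k69),(k3,k78),(k6,k81),(k7,k81),(k2,k84),(k5,k102)],[(k0,k63),(k9,k63),(k7,k75),(k2,k78),(k3,k84),(k6,k87),(k4,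
    k96),(k5,k96)],[(k0,k81),(k9,k81),(k2,k96),(k7,k99),(k3,k102),(k6,k105),(k5,k114),(k4,k120)],[(k3,k60),(k6,k63),
    (k0,k87),(k9,k87),(k2,k96),(k7,k99),(k5,k120),(k4,k126)],[(k7,k72),(k2,k75),(k3,k81),(k6,k84),(k4,k99),(k5,k99),
    (k0,k108),(k9,k108)],[(k4,k63),(k0,k72),(k9,k72),(k3,k81),(k6,k84),(k7,k84),(k2,k87),(k5,k105)],[(k0,k60),(k9,
    k60),(k2,k63),(k3,k69),(k6,k72),(k5,k81),(k4,k87),(k7,k108)],[(k1,k60)],[(k10,k80)],[(k11,k80)]]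
    [] k0
    [[k1,k0,k0,k0,k1,k0],[k1,k1,k0,k0,k1,k0],[k1,k0,k1,k0,k1,k0],[k0,k2,k0,k0,k0,k0],[k0,k1,k1,k0,k0,k0],[k0,k1,k0,k1,
    k0,k0],[k0,k0,k1,k1,k0,k0],[k0,k0,k0,k2,k0,k0],[k0,k0,k0,k0,k0,k2]]
    [.contra [y1,z1],.ref k16 k0 [(z1,[z0,z1]),(z1,[z1,y1]),(z1,[y3,z3,z1])],.ref k15 k1 [(z1,[z3,z0,y1]),(z1,[y3,z3,
    z1]),(z1,[z0,z0,z1])],.contra [z1],.contra [z1,y2,y1,z2],.ref k9 k0 [(z1,[y3,z3,z1]),(z1,[z1])],.ref k7 k1 [(z1,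
    [y3,z3,z1]),(z1,[z1])],.contra [z1],.contra [z1]]),
    .old (.lp [k30,k41,k60,k38,k30,k40] [k15,k15,k11,k8,k0,k0,k11,k11,k15,k15,k10,k10] k0 [[],[k0,k0,k0,k0,k0,k22,k3],[k0,
    k0,k0,k0,k0,k3,k3],[],[k22,k0,k0,k3,k0,k0,k0,k19],[],[k0,k0,k0,k0,k0,k19],[k3,k0,k0,k3]] k120 k5
    [[(k8,k30)],[(k0,k30),(k9,k30),(k2,k34),(k3,k37),(k6,k37),(k4,k45),(k5,k45),(k7,k56)],[(k4,k30),(k9,k34),(k0,k37),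
    (k2,k41),(k6,k41),(k7,k41),(k3,k44),(k5,k52)],[(k9,k31),(k0,k34),(k2,k38),(k6,k38),(k7,k38),(k3,k41),(k4,k46),(k5,
    k49)],[(k0,k45),(k9,k45),(k2,k49),(k3,k52),(k6,k52),(k7,k52),(k4,k60),(k5,k60)],[(k3,k30),(k6,k30),(k0,k45),(k9,
    k45),(k2,k46),(k7,k49),(k4,k60),(k5,k60)],[(k2,k38),(k6,k38),(k7,k38),(k3,k41),(k4,k49),(k5,k52),(k9,k53),(k0,
    k56)],[(k4,k30),(k9,k34),(k0,k37),(k2,k38),(k6,k38),(k7,k38),(k3,k41),(k5,k52)],[(k0,k30),(k9,k30),(k2,k31),(k3,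
    k34),(k6,k34),(k4,k45),(k5,k45),(k7,k53)],[(k1,k30)],[(k10,k40)],[(k11,k40)]]
    [] k0
    [[k1,k0,k0,k0,k1,k0],[k1,k1,k0,k0,k1,k0],[k0,k2,k0,k0,k0,k0],[k0,k1,k1,k0,k0,k0],[k0,k1,k0,k1,k0,k0],[k0,k1,k0,k2,
    k0,k0],[k0,k0,k1,k1,k0,k0],[k0,k0,k0,k2,k0,k0],[k0,k0,k0,k3,k0,k0],[k0,k0,k0,k0,k0,k2]]
    [.contra [y1,z1],.ref k17 k1 [(z1,[z1]),(z1,[y3,z3,z1])],.contra [z1],.ref k7 k0 [(z1,[y3,z3,z1]),(z1,[z1])],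
    .contra [z1,y2,y1,z2],.ref k0 k0 [(z1,[z0,z1]),(z1,[y3,z0,z2]),(z1,[z3,z0,y1])],.ref k7 k1 [(z1,[y3,z3,z1]),(z1,
    [z1])],.contra [z1],.ref k0 k0 [(z1,[z0,z1]),(z1,[y1,z0,z1]),(z1,[z1])],.contra [z1]]),
    .old (.lp [k60,k120,k78,k78,k60,k80] [k30,k30,k0,k0,k21,k21,k21,k21,k30,k30,k20,k20] k0 [[],[],[k0,k0,k0,k0,k6,k6],[],
    [k0,k0,k0,k6,k0,k0,k6],[k0,k0,k0,k6,k0,k0,k6],[],[k0,k0,k0,k0,k6,k6]] (nat_lit 240) k5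
    [[(k8,k60)],[(k0,k60),(k9,k60),(k4,k69),(k5,k69),(k6,k69),(k7,k69),(k2,k90),(k3,k90)],[(k0,k90),(k9,k90),(k4,k99),
    (k5,k99),(k6,k99),(k7,k99),(k2,k120),(k3,k120)],[(k0,k90),(k9,k90),(k4,k93),(k7,k93),(k5,k99),(k6,k99),(k2,k120),
    (k3,k120)],[(k0,k69),(k9,k69),(k5,k78),(k6,k78),(k4,k84),(k7,k84),(k2,k99),(k3,k99)],[(k9,k63),(k0,k69),(k4,k78),
    (k7,k78),(k5,k84),(k6,k84),(k2,k93),(k3,k99)],[(k9,k63),(k0,k69),(k4,k78),(k7,k78),(k5,k84),(k6,k84),(k2,k93),(k3,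
    k99)],[(k0,k69),(k9,k69),(k5,k78),(k6,k78),(k4,k84),(k7,k84),(k2,k99),(k3,k99)],[(k0,k60),(k9,k60),(k4,k63),(k7,
    k63),(k5,k69),(k6,k69),(k2,k90),(k3,k90)],[(k1,k60)],[(k10,k80)],[(k11,k80)]]
    [] k0
    [[k1,k0,k0,k0,k1,k0],[k1,k0,k1,k0,k1,k0],[k1,k0,k0,k1,k1,k0],[k0,k1,k1,k0,k0,k0],[k0,k1,k0,k1,k0,k0],[k0,k0,k2,k0,
    k0,k0],[k0,k0,k1,k1,k0,k0],[k0,k0,k0,k2,k0,k0],[k0,k0,k0,k0,k0,k2]]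
    [.ref k14 k0 [(z1,[z1]),(z1,[y3,z1])],.ref k18 k0 [(z1,[z1]),(z1,[y3,z1])],.ref k17 k0 [(z1,[z1]),(z1,[y3,z1])],
    .ref k7 k0 [(z1,[y3,z1]),(z1,[z1])],.ref k9 k0 [(z1,[y3,z1]),(z1,[z1])],.contra [z1],.ref k7 k1 [(z1,[y3,z1]),(z1,
    [z1])],.contra [z1],.contra [z1]]),
    .old (.tor k31 false k0 [(z1,[y4,y2,y2,y2,z4]),(z2,[z0,z0,z1,z1]),(z2,[z0,z1,z1]),(z2,[z2,z1,z0,z1]),(z1,[z2])]),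
    .old (.lp [k72,k120,k62,k124,k44,k48] [k34,k34,k0,k20,k39,k39,k16,k0,k58,k38,k46,k46] k0 [[k0,k0,k0,k58,k58],[k0,k0,
    k0,k0,k0,k0,k0,k4],[k0,k58,k0,k0,k0,k0,k54],[],[],[k0,k58,k0,k0,k0,k0,k54],[k4,k0,k0,k0,k0,k0,k0,k8],[k0,k0,k0,
    k54,k54]] (nat_lit 240) k6
    [[(k8,k48)],[(k2,k48),(k7,k48),(k4,k67),(k5,k67),(k0,k72),(k9,k72),(k3,k86),(k6,k90)],[(k9,k82),(k0,k86),(k3,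
    k100),(k6,k100),(k2,k120),(k7,k120),(k4,k139),(k5,k139)],[(k0,k48),(k9,k48),(k4,k101),(k5,k101),(k3,k120),(k6,
    k124),(k2,k140),(k7,k140)],[(k4,k62),(k5,k62),(k9,k63),(k0,k67),(k2,k101),(k7,k101),(k3,k139),(k6,k139)],[(k4,
    k62),(k5,k62),(k9,k63),(k0,k67),(k2,k101),(k7,k101),(k3,k139),(k6,k139)],[(k0,k48),(k9,k48),(k4,k101),(k5,k101),
    (k3,k120),(k6,k124),(k2,k140),(k7,k140)],[(k9,k86),(k0,k90),(k3,k100),(k6,k100),(k2,k124),(k7,k124),(k4,k139),(k5,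
    k139)],[(k2,k48),(k7,k48),(k4,k63),(k5,k63),(k0,k72),(k9,k72),(k3,k82),(k6,k86)],[(k1,k48)],[(k10,k48)],[(k11,
    k48)]]
    [] k0
    [[k1,k0,k0,k0,k1,k0],[k1,k1,k0,k0,k1,k0],[k1,k0,k1,k0,k1,k0],[k1,k0,k0,k1,k1,k0],[k0,k0,k2,k0,k0,k0],[k0,k0,k3,k0,
    k0,k0],[k0,k0,k0,k0,k0,k2],[k0,k0,k0,k0,k0,k3],[k0,k0,k0,k0,k0,k4]]
    [.contra [y2,z2,z1,z1],.contra [z1,y1],.contra [y1,z1,z1,z1],.contra [z1,z0,z2,z1,y1],.contra [y1,z0,z2,z2],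
    .contra [z1,z1,z0,y3],.contra [z1],.ref k19 k0 [(z1,[y1,z0,z0,z0,z3])],.ref k20 k0 [(z1,[z0,z1]),(z2,[y1,z0,z4]),
    (z2,[z1,z0,z0,z4]),(z2,[y1,y4,y4,y4,z4])]]),
    .old (.lp [k48,k80,k154,k80,k48,k60] [k53,k53,k37,k37,k0,k0,k37,k37,k53,k53,k47,k47] k0 [[k0,k0,k0,k6,k6],[],[k0,k6,
    k0,k0,k0,k0,k6],[],[],[k0,k6,k0,k0,k0,k0,k6],[],[k0,k0,k0,k6,k6]] (nat_lit 240) k6
    [[(k8,k48)],[(k0,k48),(k9,k48),(k2,k58),(k7,k58),(k3,k64),(k6,k64),(k4,k101),(k5,k101)],[(k0,k64),(k9,k64),(k2,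
    k80),(k3,k80),(k6,k80),(k7,k80),(k4,k123),(k5,k123)],[(k0,k58),(k9,k58),(k2,k80),(k3,k80),(k6,k80),(k7,k80),(k4,
    k117),(k5,k117)],[(k0,k101),(k9,k101),(k2,k117),(k7,k117),(k3,k123),(k6,k123),(k4,k154),(k5,k154)],[(k0,k101),(k9,
    k101),(k2,k117),(k7,k117),(k3,k123),(k6,k123),(k4,k154),(k5,k154)],[(k0,k58),(k9,k58),(k2,k80),(k3,k80),(k6,k80),
    (k7,k80),(k4,k117),(k5,k117)],[(k0,k64),(k9,k64),(k2,k80),(k3,k80),(k6,k80),(k7,k80),(k4,k123),(k5,k123)],[(k0,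
    k48),(k9,k48),(k2,k58),(k7,k58),(k3,k64),(k6,k64),(k4,k101),(k5,k101)],[(k1,k48)],[(k10,k60)],[(k11,k60)]]
    [] k0
    [[k1,k0,k0,k0,k1,k0],[k2,k0,k0,k0,k2,k0],[k1,k1,k0,k0,k1,k0],[k1,k0,k0,k1,k1,k0],[k0,k2,k0,k0,k0,k0],[k0,k1,k0,k1,
    k0,k0],[k0,k0,k0,k2,k0,k0],[k0,k0,k0,k0,k0,k2],[k0,k0,k0,k0,k0,k3]]
    [.contra [y1,z1,z1],.ref k21 k0 [(z2,[z1]),(z2,[y1,z2,z2]),(z2,[z1,y4,y2,z2])],.contra [y1,z1,z1],.contra [y1,z1],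
    .contra [z1],.contra [z1,z0,z1],.contra [z1,z0,z2],.contra [z1],.ref k19 k0 [(z1,[y1,z0,z0,z3])]]),
    .old (.leafM k12 [k0,k2,k4,k5] [(z1,[z0,z0,z1]),(z1,[y2,y2,y1,z2]),(z1,[z1])] [(k1,k3,z1,[z0,z1]),(k3,k1,z1,[z0,z1])]),
    .old (.leafM k11 [k0,k2,k4,k5] [(z1,[z0,z0,z1]),(z1,[y3,y3,y1,z3]),(z1,[z1])] [(k1,k3,z1,[z0,z1]),(k3,k1,z1,[z0,z1])]),
    .old (.lp [k84,k124,k62,k120,k32,k48] [k20,k20,k0,k0,k31,k31,k2,k2,k54,k38,k38,k38] k0 [[k0,k0,k0,k50,k54,k0,k0,k50],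
    [k8,k0,k0,k0,k0,k0,k0,k4],[k0,k50],[k0,k0,k0,k0,k4],[],[k0,k54,k4],[k4,k50]] (nat_lit 240) k6
    [[(k8,k50)],[(k7,k48),(k6,k52),(k2,k54),(k9,k70),(k4,k73),(k5,k73),(k0,k92),(k3,k104)],[(k0,k104),(k3,k116),(k6,
    k118),(k7,k122),(k2,k124),(k9,k136),(k5,k143),(k4,k147)],[(k0,k54),(k9,k86),(k5,k93),(k4,k97),(k6,k122),(k7,k122),
    (k2,k124),(k3,k124)],[(k9,k55),(k4,k62),(k5,k62),(k0,k73),(k7,k87),(k6,k91),(k2,k93),(k3,k143)],[(k9,k55),(k4,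
    k62),(k5,k62),(k0,k73),(k6,k91),(k7,k91),(k2,k97),(k3,k147)],[(k0,k48),(k9,k84),(k5,k87),(k4,k91),(k6,k120),(k7,
    k120),(k2,k122),(k3,k122)],[(k0,k52),(k9,k84),(k4,k91),(k5,k91),(k3,k118),(k6,k120),(k7,k120),(k2,k122)],[(k9,
    k48),(k4,k55),(k5,k55),(k0,k70),(k6,k84),(k7,k84),(k2,k86),(k3,k136)],[(k1,k50)],[(k10,k48)],[(k11,k48)]]
    [] k0
    [[k1,k0,k0,k0,k1,k0],[k1,k0,k1,k0,k1,k0],[k1,k0,k0,k1,k1,k0],[k0,k0,k2,k0,k0,k0],[k0,k0,k3,k0,k0,k0],[k0,k0,k1,k1,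
    k0,k0],[k0,k0,k0,k0,k0,k2],[k0,k0,k0,k0,k0,k3],[k0,k0,k0,k0,k0,k4]]
    [.contra [y2,z2,z1,z1],.contra [y1,z1,z1,z1],.contra [y1,z0,z0,y1,z1],.contra [y1,z0,z2,z2],.ref k24 k0 [(z1,[z0,
    z1]),(z1,[z0,y1,z0,y1,z1]),(z1,[z1])],.contra [y1,y1,z1,z0,z1],.contra [z1],.ref k19 k0 [(z1,[y1,z0,z0,z0,z3])],
    .ref k23 k0 [(z1,[z0,z1]),(z1,[z0,y1,z0,y1,z1]),(z2,[y1,z0,z0,z4])]]),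
    .old (.lp [k24,k40,k40,k80,k24,k30] [k28,k28,k20,k20,k20,k20,k0,k0,k28,k28,k25,k25] k0 [] k120 k6
    [[(k8,k24)],[(k0,k24),(k9,k24),(k2,k32),(k3,k32),(k4,k32),(k5,k32),(k6,k52),(k7,k52)],[(k0,k32),(k9,k32),(k2,k40),
    (k3,k40),(k4,k40),(k5,k40),(k6,k60),(k7,k60)],[(k0,k32),(k9,k32),(k2,k40),(k3,k40),(k4,k40),(k5,k40),(k6,k60),(k7,
    k60)],[(k0,k32),(k9,k32),(k2,k40),(k3,k40),(k4,k40),(k5,k40),(k6,k60),(k7,k60)],[(k0,k32),(k9,k32),(k2,k40),(k3,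
    k40),(k4,k40),(k5,k40),(k6,k60),(k7,k60)],[(k0,k52),(k9,k52),(k2,k60),(k3,k60),(k4,k60),(k5,k60),(k6,k80),(k7,
    k80)],[(k0,k52),(k9,k52),(k2,k60),(k3,k60),(k4,k60),(k5,k60),(k6,k80),(k7,k80)],[(k0,k24),(k9,k24),(k2,k32),(k3,
    k32),(k4,k32),(k5,k32),(k6,k52),(k7,k52)],[(k1,k24)],[(k10,k30)],[(k11,k30)]]
    [] k0
    [[k1,k0,k0,k0,k1,k0],[k2,k0,k0,k0,k2,k0],[k1,k1,k0,k0,k1,k0],[k1,k0,k1,k0,k1,k0],[k0,k2,k0,k0,k0,k0],[k0,k1,k1,k0,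
    k0,k0],[k0,k0,k2,k0,k0,k0],[k0,k0,k0,k0,k0,k2],[k0,k0,k0,k0,k0,k3]]
    [.contra [y1,z1,z1],.ref k25 k1 [(z2,[z1]),(z2,[z1,y2]),(z2,[y1,z0,y2,z2])],.contra [y1,z1,z1],.contra [y1,z0,y1,
    z1],.contra [z1],.contra [z1,z1,z2,y1],.contra [z1,z2,z4,y2],.contra [z1],.ref k19 k0 [(z1,[y1,z0,z0,z3])]]),
    .old (.lp [k76,k90,k120,k80,k44,k60] [k22,k22,k15,k15,k0,k0,k20,k20,k42,k34,k30,k30] k0 [[k0,k0,k0,k0,k30,k0,k0,k30],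
    [],[],[k0,k0,k0,k0,k30,k0,k0,k30],[],[k0,k30,k30],[k0,k30,k30]] (nat_lit 240) k6
    [[(k8,k56)],[(k6,k48),(k7,k48),(k9,k64),(k0,k76),(k2,k83),(k3,k83),(k4,k98),(k5,k98)],[(k0,k83),(k6,k85),(k7,k85),
    (k2,k90),(k3,k90),(k9,k101),(k5,k105),(k4,k135)],[(k0,k83),(k6,k85),(k7,k85),(k2,k90),(k3,k90),(k9,k101),(k5,
    k105),(k4,k135)],[(k6,k70),(k7,k70),(k9,k86),(k0,k98),(k2,k105),(k3,k105),(k4,k120),(k5,k120)],[(k9,k86),(k0,k98),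
    (k6,k100),(k7,k100),(k4,k120),(k5,k120),(k2,k135),(k3,k135)],[(k0,k48),(k9,k66),(k5,k70),(k6,k80),(k7,k80),(k2,
    k85),(k3,k85),(k4,k100)],[(k0,k48),(k9,k66),(k5,k70),(k6,k80),(k7,k80),(k2,k85),(k3,k85),(k4,k100)],[(k9,k52),(k0,
    k64),(k6,k66),(k7,k66),(k4,k86),(k5,k86),(k2,k101),(k3,k101)],[(k1,k56)],[(k10,k60)],[(k11,k60)]]
    [] k0
    [[k1,k0,k0,k0,k1,k0],[k1,k0,k0,k1,k1,k0],[k0,k2,k0,k0,k0,k0],[k0,k1,k0,k1,k0,k0],[k0,k0,k1,k1,k0,k0],[k0,k0,k0,k2,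
    k0,k0],[k0,k0,k0,k0,k0,k2],[k0,k0,k0,k0,k0,k3]]
    [.contra [y1,z1],.contra [y1,z1],.contra [z1],.ref k26 k1 [(z1,[y1,z1]),(z1,[z1])],.ref k22 k0 [(z1,[z0,z1]),(z1,
    [y1,y1,z1])],.contra [z1],.contra [z1],.ref k19 k0 [(z1,[y1,z0,z3])]]),
    .old (.lp [k72,k120,k62,k124,k44,k48] [k34,k34,k0,k20,k39,k39,k16,k0,k58,k38,k46,k46] k0 [[k0,k0,k0,k58,k58],[k0,k0,
    k0,k0,k0,k0,k0,k4],[k0,k58,k0,k0,k0,k0,k54],[],[],[k0,k58,k0,k0,k0,k0,k54],[k4,k0,k0,k0,k0,k0,k0,k8],[k0,k0,k0,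
    k54,k54]] (nat_lit 240) k6
    [[(k8,k48)],[(k2,k48),(k7,k48),(k4,k67),(k5,k67),(k0,k72),(k9,k72),(k3,k86),(k6,k90)],[(k9,k82),(k0,k86),(k3,
    k100),(k6,k100),(k2,k120),(k7,k120),(k4,k139),(k5,k139)],[(k0,k48),(k9,k48),(k4,k101),(k5,k101),(k3,k120),(k6,
    k124),(k2,k140),(k7,k140)],[(k4,k62),(k5,k62),(k9,k63),(k0,k67),(k2,k101),(k7,k101),(k3,k139),(k6,k139)],[(k4,
    k62),(k5,k62),(k9,k63),(k0,k67),(k2,k101),(k7,k101),(k3,k139),(k6,k139)],[(k0,k48),(k9,k48),(k4,k101),(k5,k101),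
    (k3,k120),(k6,k124),(k2,k140),(k7,k140)],[(k9,k86),(k0,k90),(k3,k100),(k6,k100),(k2,k124),(k7,k124),(k4,k139),(k5,
    k139)],[(k2,k48),(k7,k48),(k4,k63),(k5,k63),(k0,k72),(k9,k72),(k3,k82),(k6,k86)],[(k1,k48)],[(k10,k48)],[(k11,
    k48)]]
    [] k0
    [[k1,k0,k0,k0,k1,k0],[k1,k1,k0,k0,k1,k0],[k1,k0,k1,k0,k1,k0],[k1,k0,k0,k1,k1,k0],[k0,k0,k2,k0,k0,k0],[k0,k0,k3,k0,
    k0,k0],[k0,k0,k0,k0,k0,k2],[k0,k0,k0,k0,k0,k3],[k0,k0,k0,k0,k0,k4]]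
    [.contra [y2,z2,z1],.contra [z1,y1],.contra [z1,y1],.contra [y1,z1,z1],.contra [z1],.ref k24 k0 [(z1,[z0,z1]),(z1,
    [z0,z0,z1]),(z1,[z1])],.contra [z1],.ref k19 k0 [(z1,[y1,z0,z0,z3])],.ref k23 k0 [(z1,[z0,z1]),(z1,[z0,z0,z1]),
    (z2,[y1,y4,y4,z4])]]),
    .old (.lp [k50,k120,k80,k120,k48,k60] [k35,k35,k0,k0,k20,k20,k0,k0,k36,k36,k30,k30] k0 [[],[k0,k0,k22,k0,k0,k22],[],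
    [k22,k0,k0,k0,k0,k0,k0,k22],[k22,k0,k0,k0,k0,k0,k0,k22],[],[k0,k0,k22,k0,k0,k22]] (nat_lit 240) k6
    [[(k8,k49)],[(k9,k49),(k0,k50),(k4,k65),(k5,k65),(k3,k85),(k6,k85),(k2,k107),(k7,k107)],[(k4,k78),(k5,k78),(k9,
    k84),(k0,k85),(k2,k120),(k3,k120),(k6,k120),(k7,k120)],[(k4,k100),(k5,k100),(k9,k106),(k0,k107),(k2,k120),(k3,
    k120),(k6,k120),(k7,k120)],[(k9,k64),(k0,k65),(k3,k78),(k6,k78),(k4,k80),(k5,k80),(k2,k100),(k7,k100)],[(k9,k64),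
    (k0,k65),(k3,k78),(k6,k78),(k4,k80),(k5,k80),(k2,k100),(k7,k100)],[(k4,k100),(k5,k100),(k9,k106),(k0,k107),(k2,
    k120),(k3,k120),(k6,k120),(k7,k120)],[(k4,k78),(k5,k78),(k9,k84),(k0,k85),(k2,k120),(k3,k120),(k6,k120),(k7,
    k120)],[(k9,k48),(k0,k49),(k4,k64),(k5,k64),(k3,k84),(k6,k84),(k2,k106),(k7,k106)],[(k1,k49)],[(k10,k60)],[(k11,
    k60)]]
    [] k0
    [[k1,k0,k0,k0,k1,k0],[k2,k0,k0,k0,k2,k0],[k1,k0,k1,k0,k1,k0],[k0,k1,k1,k0,k0,k0],[k0,k0,k2,k0,k0,k0],[k0,k0,k1,k1,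
    k0,k0],[k0,k0,k0,k0,k0,k2],[k0,k0,k0,k0,k0,k3]]
    [.contra [y1,z1],.ref k28 k0 [(z2,[z1]),(z1,[z0,y1,z1])],.contra [y1,z1],.ref k27 k0 [(z1,[y1,z0,z1])],
    .contra [z1],.ref k27 k1 [(z1,[y1,z0,z1])],.contra [z1],.ref k19 k0 [(z1,[y1,z0,z3])]]),
    .old (.leafM k9 [k3,k5,k1,k2] [(z1,[y2,y2,y1,z2]),(z1,[z0,z0,z1]),(z1,[z0,z1])] [(k4,k0,z1,[z1]),(k0,k4,z1,[z1])]),
    .old (.lp [k86,k120,k58,k120,k34,k60] [k48,k48,k48,k14,k62,k62,k0,k62,k83,k65,k61,k61] k0 [[k0,k38],[k0,k0,k0,k0,k0,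
    k0,k0,k120],[k0,k0,k0,k38,k24],[],[],[k0,k0,k0,k24,k4],[k120],[k0,k0,k0,k0,k0,k0,k4]] (nat_lit 240) k6
    [[(k8,k51)],[(k0,k48),(k4,k72),(k5,k72),(k7,k72),(k2,k86),(k3,k120),(k6,k134),(k9,k189)],[(k6,k48),(k9,k103),(k4,
    k106),(k5,k106),(k7,k106),(k0,k120),(k2,k120),(k3,k192)],[(k2,k48),(k7,k48),(k9,k69),(k4,k72),(k5,k72),(k0,k86),
    (k3,k120),(k6,k134)],[(k9,k55),(k7,k58),(k0,k72),(k2,k72),(k4,k82),(k5,k96),(k3,k106),(k6,k120)],[(k9,k55),(k7,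
    k58),(k4,k62),(k0,k72),(k2,k72),(k5,k82),(k3,k106),(k6,k120)],[(k2,k48),(k7,k54),(k9,k55),(k4,k58),(k5,k58),(k0,
    k72),(k3,k106),(k6,k120)],[(k3,k48),(k9,k117),(k4,k120),(k5,k120),(k7,k120),(k0,k134),(k2,k134),(k6,k186)],[(k9,
    k48),(k4,k55),(k5,k55),(k7,k55),(k2,k69),(k3,k103),(k6,k117),(k0,k189)],[(k1,k51)],[(k10,k60)],[(k11,k60)]]
    [] k0
    [[k1,k0,k1,k0,k1,k0],[k2,k0,k0,k0,k2,k0],[k0,k2,k0,k1,k0,k0],[k0,k1,k1,k0,k0,k0],[k0,k1,k0,k1,k0,k0],[k0,k2,k0,k2,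
    k0,k0],[k0,k1,k1,k1,k0,k0],[k0,k1,k0,k2,k0,k0],[k0,k0,k2,k0,k0,k0],[k0,k0,k1,k1,k0,k0],[k0,k0,k0,k0,k0,k2],[k0,k0,
    k0,k0,k0,k3]]
    [.contra [y1,z1,z0,z1],.contra [y1,z2,z0,z2],.contra [y6,z0,z2,z1],.contra [y12,z0,z2,z7],.contra [z6,z0,y1,z7],
    .contra [z3,z0,y1,z1],.contra [z6,z0,y1,z1],.contra [y6,z0,z2,z1],.contra [z1],.contra [y12,z0,z2,z7],.contra [z3,
    z6,z1,z5,y6],.contra [z2,z6,z1,z3,y6]]),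
    .old (.lp [k32,k64,k24,k64,k24,k30] [k32,k32,k32,k0,k36,k36,k8,k24,k36,k36,k33,k33] k0 [[],[k0,k0,k0,k0,k0,k0,k0,k64],
    [k0,k0,k0,k8,k8],[],[],[k0,k0,k0,k8,k8],[k64]] k120 k6
    [[(k8,k28)],[(k4,k28),(k5,k28),(k0,k32),(k2,k32),(k7,k40),(k6,k56),(k3,k64),(k9,k92)],[(k6,k24),(k4,k60),(k5,k60),
    (k9,k60),(k0,k64),(k2,k64),(k7,k72),(k3,k96)],[(k2,k24),(k4,k28),(k5,k28),(k9,k28),(k0,k32),(k7,k32),(k6,k56),(k3,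
    k64)],[(k9,k24),(k0,k28),(k2,k28),(k4,k32),(k5,k32),(k7,k36),(k6,k52),(k3,k60)],[(k9,k24),(k0,k28),(k2,k28),(k4,
    k32),(k5,k32),(k7,k36),(k6,k52),(k3,k60)],[(k2,k32),(k4,k36),(k5,k36),(k9,k36),(k0,k40),(k7,k40),(k6,k64),(k3,
    k72)],[(k3,k24),(k4,k52),(k5,k52),(k9,k52),(k0,k56),(k2,k56),(k7,k64),(k6,k80)],[(k4,k24),(k5,k24),(k9,k24),(k2,
    k28),(k7,k36),(k6,k52),(k3,k60),(k0,k92)],[(k1,k28)],[(k10,k30)],[(k11,k30)]]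
    [] k0
    [[k1,k0,k1,k0,k1,k0],[k1,k0,k2,k0,k1,k0],[k2,k0,k0,k0,k2,k0],[k0,k1,k1,k0,k0,k0],[k0,k1,k0,k1,k0,k0],[k0,k2,k0,k2,
    k0,k0],[k0,k1,k1,k1,k0,k0],[k0,k0,k2,k0,k0,k0],[k0,k0,k3,k0,k0,k0],[k0,k0,k1,k1,k0,k0],[k0,k0,k0,k0,k0,k2],[k0,k0,
    k0,k0,k0,k3]]
    [.contra [z1,y1],.contra [z1,y1],.contra [y1,y2,y2,z4],.contra [y3,z0,z2],.contra [y3,z0,z2],.ref k30 k0 [(z1,[z0,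
    z1]),(z2,[z1]),(z1,[y1,z0,z1])],.contra [z1,y1,y1,z1],.contra [z1],.ref k31 k0 [(z1,[z0,z1]),(z1,[y2,z0,z3]),(z1,
    [z1])],.contra [y3,z0,z2],.contra [z1],.contra [z1,z2,z1,y2]]),
    .old (.leafM k11 [k1,k2,k3,k5] [(z1,[z0,z0,z1]),(z1,[y3,y3,y1,z3]),(z1,[z0,z1])] [(k4,k0,z1,[z1]),(k0,k4,z1,[z1])]),
    .old (.lp [(nat_lit 2210),(nat_lit 4862),(nat_lit 2080),(nat_lit 4862),(nat_lit 1768),(nat_lit 1768)] [(nat_lit 2431),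
    (nat_lit 2431),(nat_lit 2210),k0,(nat_lit 2496),(nat_lit 2496),(nat_lit 425),(nat_lit 1785),(nat_lit 2652),
    (nat_lit 2652),(nat_lit 2652),(nat_lit 2652)] k0 [[],[k0,k0,k0,k0,k0,k0,k0,(nat_lit 4862)],[k0,k0,k0,
    (nat_lit 884),(nat_lit 884)],[],[],[k0,k0,k0,(nat_lit 884),(nat_lit 884)],[(nat_lit 4862)]] (nat_lit 8840) k6
    [[(k8,(nat_lit 1989))],[(k4,(nat_lit 2145)),(k5,(nat_lit 2145)),(k0,(nat_lit 2210)),(k2,(nat_lit 2431)),(k7,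
    (nat_lit 2856)),(k6,(nat_lit 4216)),(k3,(nat_lit 4641)),(k9,(nat_lit 6851))],[(k6,(nat_lit 1785)),(k9,
    (nat_lit 4420)),(k4,(nat_lit 4576)),(k5,(nat_lit 4576)),(k0,(nat_lit 4641)),(k2,(nat_lit 4862)),(k7,
    (nat_lit 5287)),(k3,(nat_lit 7072))],[(k2,(nat_lit 1768)),(k7,(nat_lit 2193)),(k9,(nat_lit 2210)),(k4,
    (nat_lit 2366)),(k5,(nat_lit 2366)),(k0,(nat_lit 2431)),(k6,(nat_lit 4437)),(k3,(nat_lit 4862))],[(k9,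
    (nat_lit 1924)),(k0,(nat_lit 2145)),(k2,(nat_lit 2366)),(k7,(nat_lit 2791)),(k4,(nat_lit 2964)),(k5,
    (nat_lit 2964)),(k6,(nat_lit 4151)),(k3,(nat_lit 4576))],[(k9,(nat_lit 1924)),(k0,(nat_lit 2145)),(k2,
    (nat_lit 2366)),(k7,(nat_lit 2791)),(k4,(nat_lit 2964)),(k5,(nat_lit 2964)),(k6,(nat_lit 4151)),(k3,
    (nat_lit 4576))],[(k2,(nat_lit 2193)),(k7,(nat_lit 2618)),(k9,(nat_lit 2635)),(k4,(nat_lit 2791)),(k5,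
    (nat_lit 2791)),(k0,(nat_lit 2856)),(k6,(nat_lit 4862)),(k3,(nat_lit 5287))],[(k3,(nat_lit 1785)),(k9,
    (nat_lit 3995)),(k4,(nat_lit 4151)),(k5,(nat_lit 4151)),(k0,(nat_lit 4216)),(k2,(nat_lit 4437)),(k7,
    (nat_lit 4862)),(k6,(nat_lit 6222))],[(k9,(nat_lit 1768)),(k4,(nat_lit 1924)),(k5,(nat_lit 1924)),(k2,
    (nat_lit 2210)),(k7,(nat_lit 2635)),(k6,(nat_lit 3995)),(k3,(nat_lit 4420)),(k0,(nat_lit 6851))],[(k1,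
    (nat_lit 1989))],[(k10,(nat_lit 1768))],[(k11,(nat_lit 1768))]]
    [] k0
    [[k1,k0,k1,k0,k1,k0],[k2,k0,k0,k0,k2,k0],[k0,k1,k1,k0,k0,k0],[k0,k1,k0,k1,k0,k0],[k0,k2,k0,k2,k0,k0],[k0,k1,k1,k1,
    k0,k0],[k0,k0,k2,k0,k0,k0],[k0,k0,k1,k1,k0,k0],[k0,k0,k0,k0,k0,k2],[k0,k0,k0,k0,k0,k3],[k0,k0,k0,k0,k0,k4]]
    [.contra [y1,y2,y1,z3],.contra [y1,y4,y2,z6],.contra [y1,y1,z0,z1],.contra [y1,y1,z0,z1],.ref k33 k0 [(z1,[z0,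
    z1]),(z2,[z1]),(z1,[z0,y3,y1,z3])],.contra [y1,y1,z0,z1],.contra [z1],.contra [y1,y1,z0,z1],.contra [z1],
    .ref k19 k0 [(z1,[y1,z0,z0,z3])],.ref k32 k0 [(z1,[z0,z1]),(z2,[y1,y4,z0,z4])]]),
    .old (.lp [(nat_lit 252),(nat_lit 420),(nat_lit 210),(nat_lit 420),k168,k168] [(nat_lit 204),(nat_lit 204),
    (nat_lit 240),k0,(nat_lit 225),(nat_lit 225),k50,k190,(nat_lit 246),(nat_lit 246),(nat_lit 246),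
    (nat_lit 246)] k0 [[],[k0,k0,k0,k0,k0,k0,k0,(nat_lit 420)],[],[],[],[],[(nat_lit 420)]] (nat_lit 840) k6
    [[(k8,(nat_lit 210))],[(k2,(nat_lit 216)),(k4,(nat_lit 231)),(k5,(nat_lit 231)),(k0,(nat_lit 252)),(k7,
    (nat_lit 266)),(k6,(nat_lit 406)),(k3,(nat_lit 456)),(k9,(nat_lit 630))],[(k6,k190),(k9,(nat_lit 414)),(k2,
    (nat_lit 420)),(k4,(nat_lit 435)),(k5,(nat_lit 435)),(k0,(nat_lit 456)),(k7,(nat_lit 470)),(k3,(nat_lit 660))],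
    [(k9,k174),(k2,k180),(k4,k195),(k5,k195),(k0,(nat_lit 216)),(k7,(nat_lit 230)),(k6,(nat_lit 370)),(k3,
    (nat_lit 420))],[(k9,k189),(k2,k195),(k4,(nat_lit 210)),(k5,(nat_lit 210)),(k0,(nat_lit 231)),(k7,(nat_lit 245)),
    (k6,(nat_lit 385)),(k3,(nat_lit 435))],[(k9,k189),(k2,k195),(k4,(nat_lit 210)),(k5,(nat_lit 210)),(k0,
    (nat_lit 231)),(k7,(nat_lit 245)),(k6,(nat_lit 385)),(k3,(nat_lit 435))],[(k9,(nat_lit 224)),(k2,(nat_lit 230)),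
    (k4,(nat_lit 245)),(k5,(nat_lit 245)),(k0,(nat_lit 266)),(k7,(nat_lit 280)),(k6,(nat_lit 420)),(k3,
    (nat_lit 470))],[(k3,k190),(k9,(nat_lit 364)),(k2,(nat_lit 370)),(k4,(nat_lit 385)),(k5,(nat_lit 385)),(k0,
    (nat_lit 406)),(k7,(nat_lit 420)),(k6,(nat_lit 560))],[(k9,k168),(k2,k174),(k4,k189),(k5,k189),(k7,(nat_lit 224)),
    (k6,(nat_lit 364)),(k3,(nat_lit 414)),(k0,(nat_lit 630))],[(k1,(nat_lit 210))],[(k10,k168)],[(k11,k168)]]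
    [] k0
    [[k1,k0,k1,k0,k1,k0],[k0,k1,k1,k0,k0,k0],[k0,k1,k0,k1,k0,k0],[k0,k1,k1,k1,k0,k0],[k0,k0,k2,k0,k0,k0],[k0,k0,k3,k0,
    k0,k0],[k0,k0,k1,k1,k0,k0],[k0,k0,k0,k0,k0,k2],[k0,k0,k0,k0,k0,k3],[k0,k0,k0,k0,k0,k4]]
    [.contra [z1,y1],.contra [y1,y1,z1],.contra [y1,y1,z1],.contra [y1,y1,z1],.contra [z1],.ref k34 k0 [(z1,[z0,z1]),
    (z1,[y1,y3,z3])],.contra [y1,y1,z1],.contra [z1],.ref k19 k0 [(z1,[y1,z0,z3])],.ref k32 k0 [(z1,[z0,z1]),(z2,[y1,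
    y4,z4])]]),
    .old (.lp [k10,k8,k8,k8,k6,k6] [k0,k0,k1,k1,k1,k1,k1,k1,k2,k2,k2,k2] k0 [] k24 k5
    [[(k8,k8)],[(k9,k8),(k2,k9),(k3,k9),(k4,k9),(k5,k9),(k6,k9),(k7,k9),(k0,k10)],[(k9,k7),(k2,k8),(k3,k8),(k4,k8),
    (k5,k8),(k6,k8),(k7,k8),(k0,k9)],[(k9,k7),(k2,k8),(k3,k8),(k4,k8),(k5,k8),(k6,k8),(k7,k8),(k0,k9)],[(k9,k7),(k2,
    k8),(k3,k8),(k4,k8),(k5,k8),(k6,k8),(k7,k8),(k0,k9)],[(k9,k7),(k2,k8),(k3,k8),(k4,k8),(k5,k8),(k6,k8),(k7,k8),(k0,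
    k9)],[(k9,k7),(k2,k8),(k3,k8),(k4,k8),(k5,k8),(k6,k8),(k7,k8),(k0,k9)],[(k9,k7),(k2,k8),(k3,k8),(k4,k8),(k5,k8),
    (k6,k8),(k7,k8),(k0,k9)],[(k9,k6),(k2,k7),(k3,k7),(k4,k7),(k5,k7),(k6,k7),(k7,k7),(k0,k8)],[(k1,k8)],[(k10,k6)],
    [(k11,k6)]]
    [] k0
    [[k1,k0,k0,k0,k1,k0],[k0,k2,k0,k0,k0,k0],[k0,k1,k1,k0,k0,k0],[k0,k1,k0,k1,k0,k0],[k0,k0,k2,k0,k0,k0],[k0,k0,k1,k1,
    k0,k0],[k0,k0,k0,k2,k0,k0],[k0,k0,k0,k0,k0,k2],[k0,k0,k0,k0,k0,k3]]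
    [.ref k35 k0 [(z1,[z1])],.contra [z1],.ref k27 k0 [(z1,[y1,z1])],.ref k29 k0 [(z1,[y1,z1])],.contra [z1],
    .ref k27 k1 [(z1,[y1,z1])],.contra [z1],.contra [z1],.ref k19 k0 [(z1,[y1,z3])]])]⟩

/-- classes `0 0 0 0 1 1`, types `S0 S0 S0 S0 N0 N2` -/
noncomputable def cU6_240 : CertX :=
  ⟨[k0,k0,k0,k0,k28,k30],[(false,k0,[k0,k1,k2,k3,k4,k5]),(true,k4,[k4,k3,k2,k1,k0,k5])],[[[([z1,z0,z0,z1,z1,z1],z2)],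
    [([z1,z0,z1,z0,z1,z1],z2)],[([z1,z0,z0,z0,z1,z1],z2)],[]]],
    [.old (.leafM k1 [k0,k3,k4,k5] [] [(k1,k2,z1,[y1,z1]),(k2,k1,z1,[y1,z1])]),
    .old (.leafM k3 [k0,k2,k4,k5] [] [(k1,k3,z1,[y1,z1]),(k3,k1,z1,[y1,z1])]),
    .old (.leafM k4 [k4,k5,k0,k1,k2,k3] [(z1,[y1,z1])] []),
    .old (.lp [k6,k8,k12,k8,k6,k6] [k3,k3,k2,k2,k0,k0,k2,k2,k3,k3,k3,k3] k0 [] k24 k5
    [[(k11,k6)],[(k0,k6),(k9,k6),(k2,k7),(k3,k7),(k6,k7),(k7,k7),(k4,k9),(k5,k9)],[(k0,k7),(k9,k7),(k2,k8),(k3,k8),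
    (k6,k8),(k7,k8),(k4,k10),(k5,k10)],[(k0,k7),(k9,k7),(k2,k8),(k3,k8),(k6,k8),(k7,k8),(k4,k10),(k5,k10)],[(k0,k9),
    (k9,k9),(k2,k10),(k3,k10),(k6,k10),(k7,k10),(k4,k12),(k5,k12)],[(k0,k9),(k9,k9),(k2,k10),(k3,k10),(k6,k10),(k7,
    k10),(k4,k12),(k5,k12)],[(k0,k7),(k9,k7),(k2,k8),(k3,k8),(k6,k8),(k7,k8),(k4,k10),(k5,k10)],[(k0,k7),(k9,k7),(k2,
    k8),(k3,k8),(k6,k8),(k7,k8),(k4,k10),(k5,k10)],[(k0,k6),(k9,k6),(k2,k7),(k3,k7),(k6,k7),(k7,k7),(k4,k9),(k5,k9)],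
    [(k10,k6)],[(k1,k6)],[(k8,k6)]]
    [] k0
    [[k1,k0,k0,k0,k1,k1],[k0,k2,k0,k0,k0,k0],[k0,k1,k1,k0,k0,k0],[k0,k1,k0,k1,k0,k0],[k0,k0,k1,k1,k0,k0],[k0,k0,k0,k2,
    k0,k0]]
    [.ref k2 k0 [(z1,[z1])],.contra [z1],.ref k0 k0 [(z1,[y1,z1])],.ref k1 k0 [(z1,[y1,z1])],.ref k0 k1 [(z1,[y1,
    z1])],.contra [z1]])]⟩

/-- classes `0 0 0 0 1 2`, types `B0 B0 B1 B1 C0 C0` -/
noncomputable def cU6_241 : CertX :=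
  ⟨[k8,k8,k9,k9,k20,k36],[(false,k0,[k0,k1,k2,k3,k4,k5])],[[[([z1,z0,z1,z0,z1,z1],z2)],[([z1,z0,z0,z0,z1,z1],z2)],
    []]],
    [.old (.leafM k1 [k4,k5,k0,k2] [] [(k1,k3,z1,[y1,z1]),(k3,k1,z1,[y1,z1])]),
    .old (.leafM k4 [k1,k2,k3,k4,k5,k0] [(z1,[z1])] []),
    .old (.lp [k2,k2,k4,k2,k2,k2] [k1,k1,k1,k1,k0,k0,k1,k1,k1,k1,k1,k1] k0 [] k8 k5
    [[(k10,k2)],[(k6,k2),(k7,k2),(k9,k2),(k4,k3)],[(k6,k2),(k7,k2),(k9,k2),(k4,k3)],[(k6,k2),(k7,k2),(k9,k2),(k4,k3)],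
    [(k6,k3),(k7,k3),(k9,k3),(k4,k4)],[(k0,k3),(k2,k3),(k3,k3),(k5,k4)],[(k0,k2),(k2,k2),(k3,k2),(k5,k3)],[(k0,k2),
    (k2,k2),(k3,k2),(k5,k3)],[(k0,k2),(k2,k2),(k3,k2),(k5,k3)],[(k11,k2)],[(k8,k2)],[(k1,k2)]]
    [] k0
    [[k1,k0,k0,k0,k1,k1],[k0,k1,k0,k1,k0,k0]]
    [.ref k1 k0 [(z1,[z1])],.ref k0 k0 [(z1,[y1,z1])]])]⟩

/-- classes `0 0 0 0 1 2`, types `B0 B0 B1 B1 C0 S0` -/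
noncomputable def cU6_242 : CertX :=
  ⟨[k8,k8,k9,k9,k20,k32],[(false,k0,[k0,k1,k2,k3,k4,k5])],[[[([z1,z0,z1,z0,z1,z1],z2)],[([z1,z0,z0,z0,z1,z1],z2)],
    []]],
    [.old (.leafM k1 [k4,k5,k0,k2] [] [(k1,k3,z1,[y1,z1]),(k3,k1,z1,[y1,z1])]),
    .old (.leafM k4 [k1,k2,k3,k4,k5,k0] [(z1,[z1])] []),
    .old (.lp [k6,k4,k8,k4,k4,k4] [k1,k1,k2,k2,k0,k0,k2,k2,k2,k2,k2,k2] k0 [] k16 k5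
    [[(k10,k5),(k1,k6)],[(k6,k5),(k7,k5),(k9,k5),(k4,k7)],[(k6,k4),(k7,k4),(k9,k4),(k4,k6)],[(k6,k4),(k7,k4),(k9,k4),
    (k4,k6)],[(k6,k6),(k7,k6),(k9,k6),(k4,k8)],[(k2,k6),(k3,k6),(k0,k7),(k5,k8)],[(k2,k4),(k3,k4),(k0,k5),(k5,k6)],
    [(k2,k4),(k3,k4),(k0,k5),(k5,k6)],[(k2,k4),(k3,k4),(k0,k5),(k5,k6)],[(k11,k4)],[(k8,k4)],[(k10,k4),(k1,k5)]]
    [] k0
    [[k1,k0,k0,k0,k1,k1],[k0,k1,k0,k1,k0,k0]]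
    [.ref k1 k0 [(z1,[z1])],.ref k0 k0 [(z1,[y1,z1])]])]⟩

/-- classes `0 0 0 0 1 2`, types `B0 B0 B1 B1 S0 S0` -/
noncomputable def cU6_243 : CertX :=
  ⟨[k8,k8,k9,k9,k16,k32],[(false,k0,[k0,k1,k2,k3,k4,k5])],[[[([z1,z0,z1,z0,z1,z1],z2)],[([z1,z0,z0,z0,z1,z1],z2)],
    []]],
    [.old (.leafM k1 [k4,k5,k0,k2] [] [(k1,k3,z1,[y1,z1]),(k3,k1,z1,[y1,z1])]),
    .old (.leafM k4 [k1,k2,k3,k4,k5,k0] [(z1,[z1])] []),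
    .old (.lp [k10,k12,k8,k4,k6,k6] [k1,k1,k0,k0,k2,k2,k4,k4,k3,k3,k3,k3] k0 [] k24 k5
    [[(k10,k8),(k1,k10)],[(k6,k7),(k7,k7),(k9,k8),(k4,k9)],[(k6,k8),(k7,k8),(k9,k9),(k4,k10)],[(k6,k8),(k7,k8),(k9,
    k9),(k4,k10)],[(k6,k6),(k7,k6),(k9,k7),(k4,k8)],[(k5,k8),(k0,k9),(k2,k10),(k3,k10)],[(k5,k6),(k0,k7),(k2,k8),(k3,
    k8)],[(k5,k6),(k0,k7),(k2,k8),(k3,k8)],[(k5,k7),(k0,k8),(k2,k9),(k3,k9)],[(k8,k6),(k11,k6)],[(k8,k6),(k11,k6)],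
    [(k10,k6),(k1,k8)]]
    [] k0
    [[k1,k0,k0,k0,k1,k1],[k0,k1,k0,k1,k0,k0],[k0,k0,k2,k0,k0,k0],[k0,k0,k0,k0,k0,k2]]
    [.ref k1 k0 [(z1,[z1])],.ref k0 k0 [(z1,[y1,z1])],.contra [z1],.contra [z1]])]⟩

/-- classes `0 0 0 0 1 2`, types `B0 B1 B0 B1 C0 C0` -/
noncomputable def cU6_244 : CertX :=
  ⟨[k8,k9,k8,k9,k20,k36],[(false,k0,[k0,k1,k2,k3,k4,k5])],[[[([z1,z0,z0,z0,z1,z1],z2)],[([z1,z0,z0,z1,z1,z1],z2),([z0,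
    z1,z0,y1,z0,z0],z0)],[([z1,z0,z0,z1,z1,z1],z2)],[]]],
    [.old (.leafM k4 [k1,k2,k3,k4,k5,k0] [(z1,[z1])] []),
    .old (.tor k7 false k0 [(z1,[y1,y1,z1]),(z1,[y1,z0,z1]),(z1,[z1]),(z1,[z1,z1])]),
    .old (.lp [k42,k110,k102,k120,k42,k54] [k39,k39,k5,k5,k9,k9,k0,k0,k39,k39,k33,k33] k0 [[k0,k0,k0,k28],[k0,k0,k0,k0,k0,
    k0,k0,k6],[k0,k28],[k0,k0,k0,k0,k0,k16],[k0,k0,k16],[k0,k0,k0,k0,k0,k0,k18],[k6],[k0,k0,k0,k0,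
    k18]] (nat_lit 240) k6
    [[(k10,k48)],[(k2,k48),(k9,k48),(k5,k72),(k6,k81)],[(k9,k76),(k6,k109),(k2,k110),(k5,k134)],[(k0,k48),(k4,k106),
    (k3,k110),(k7,k131)],[(k0,k72),(k4,k86),(k7,k111),(k3,k134)],[(k9,k72),(k5,k86),(k2,k106),(k6,k129)],[(k9,k63),
    (k5,k111),(k6,k120),(k2,k131)],[(k0,k81),(k3,k109),(k7,k120),(k4,k129)],[(k0,k48),(k7,k63),(k4,k72),(k3,k76)],
    [(k11,k48)],[(k8,k48)],[(k1,k48)]]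
    [] k0
    [[k1,k0,k0,k0,k1,k1],[k1,k1,k0,k0,k1,k1],[k0,k2,k0,k0,k0,k0],[k0,k0,k2,k0,k0,k0]]
    [.contra [y1,z1],.ref k1 k0 [(z1,[z0,z1]),(z1,[z1,y1])],.contra [z1],.contra [y1,y2,z2]]),
    .old (.lp [(nat_lit 7200),(nat_lit 9760),(nat_lit 10370),(nat_lit 18300),(nat_lit 6954),
    (nat_lit 4758)] [(nat_lit 5550),(nat_lit 5550),(nat_lit 4270),(nat_lit 4270),(nat_lit 3965),(nat_lit 3965),k0,k0,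
    (nat_lit 5673),(nat_lit 5673),(nat_lit 6771),(nat_lit 6771)] k0 [[k0,k0,k0,k0,k0,k0,(nat_lit 1220),(nat_lit 610)],
    [],[k0,k0,k0,k0,k0,(nat_lit 610)],[],[k0,k0,k0,(nat_lit 610)],[],[k0,(nat_lit 610)],[k0,
    (nat_lit 1220)]] (nat_lit 29280) k6
    [[(k10,(nat_lit 5979))],[(k9,(nat_lit 5857)),(k2,(nat_lit 8480)),(k5,(nat_lit 8785)),(k6,(nat_lit 12140))],[(k9,
    (nat_lit 8967)),(k2,(nat_lit 9760)),(k5,(nat_lit 10065)),(k6,(nat_lit 15250))],[(k0,(nat_lit 8480)),(k4,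
    (nat_lit 9455)),(k3,(nat_lit 9760)),(k7,(nat_lit 14030))],[(k0,(nat_lit 8785)),(k3,(nat_lit 10065)),(k4,
    (nat_lit 10370)),(k7,(nat_lit 14945))],[(k9,(nat_lit 8662)),(k2,(nat_lit 9455)),(k5,(nat_lit 10370)),(k6,
    (nat_lit 14335))],[(k9,(nat_lit 12627)),(k2,(nat_lit 14030)),(k5,(nat_lit 14945)),(k6,(nat_lit 18300))],[(k0,
    (nat_lit 12140)),(k4,(nat_lit 14335)),(k3,(nat_lit 15250)),(k7,(nat_lit 18300))],[(k0,(nat_lit 5857)),(k4,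
    (nat_lit 8662)),(k3,(nat_lit 8967)),(k7,(nat_lit 12627))],[(k11,(nat_lit 5856))],[(k8,(nat_lit 5856))],[(k1,
    (nat_lit 5979))]]
    [] k0
    [[k1,k0,k0,k0,k1,k1],[k0,k2,k0,k0,k0,k0],[k0,k1,k1,k0,k0,k0],[k0,k0,k2,k0,k0,k0]]
    [.ref k0 k0 [(z1,[z1])],.contra [z1],.ref k2 k0 [(z1,[y1,z1])],.contra [z1]])]⟩

/-- classes `0 0 0 0 1 2`, types `B0 B1 B0 B1 C0 S0` -/
noncomputable def cU6_245 : CertX :=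
  ⟨[k8,k9,k8,k9,k20,k32],[(false,k0,[k0,k1,k2,k3,k4,k5])],[[[([z1,z0,z0,z0,z1,z1],z2)],[([z1,z0,z0,z1,z1,z1],z2),([z0,
    z1,z0,y1,z0,z0],z0)],[([z1,z0,z0,z1,z1,z1],z2)],[]]],
    [.old (.leafM k4 [k1,k2,k3,k4,k5,k0] [(z1,[z1])] []),
    .old (.tor k7 false k0 [(z1,[y1,y1,z1]),(z1,[y1,z0,z1]),(z1,[z1]),(z1,[z1,z1])]),
    .old (.lp [k96,(nat_lit 220),k198,(nat_lit 240),k84,k102] [k72,k72,k10,k10,k21,k21,k0,k0,k78,k78,k72,k66] k0 [[k0,k0,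
    k0,k62],[k0,k0,k0,k0,k0,k0,k0,k6],[k0,k62],[k0,k0,k0,k0,k0,k26],[k0,k0,k26],[k0,k0,k0,k0,k0,k0,k42],[k6],[k0,k0,
    k0,k0,k42]] (nat_lit 480) k6
    [[(k1,k96),(k10,k96)],[(k2,k96),(k9,k96),(k5,k147),(k6,k168)],[(k9,k152),(k2,(nat_lit 220)),(k6,(nat_lit 224)),
    (k5,(nat_lit 271))],[(k0,k96),(k4,(nat_lit 209)),(k3,(nat_lit 220)),(k7,(nat_lit 256))],[(k0,k147),(k4,k172),(k7,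
    (nat_lit 219)),(k3,(nat_lit 271))],[(k9,k141),(k5,k172),(k2,(nat_lit 209)),(k6,(nat_lit 261))],[(k9,k120),(k5,
    (nat_lit 219)),(k6,(nat_lit 240)),(k2,(nat_lit 256))],[(k0,k168),(k3,(nat_lit 224)),(k7,(nat_lit 240)),(k4,
    (nat_lit 261))],[(k0,k96),(k7,k120),(k4,k141),(k3,k152)],[(k11,k96)],[(k8,k96)],[(k1,k96),(k10,k96)]]
    [] k0
    [[k1,k0,k0,k0,k1,k1],[k1,k1,k0,k0,k1,k1],[k0,k2,k0,k0,k0,k0],[k0,k0,k2,k0,k0,k0]]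
    [.contra [y1,z1],.ref k1 k0 [(z1,[z0,z1]),(z1,[z1,y1])],.contra [z1],.contra [y1,y2,z2]]),
    .old (.lp [k96,(nat_lit 220),k198,(nat_lit 234),k96,k96] [k69,k69,k7,k7,k18,k18,k0,k0,k69,k69,k69,k69] k0 [[k0,k0,k0,
    k62,k0,k0,k0,k34],[],[k0,k62],[k0,k0,k0,k0,k0,k26],[k0,k0,k26,k0,k0,k0,k6],[k0,k0,k0,k0,k0,k0,k48],[k0,k34],[k0,
    k0,k0,k0,k48,k6]] (nat_lit 480) k6
    [[(k1,k96),(k10,k96)],[(k2,k96),(k9,k96),(k6,k131),(k5,k147)],[(k9,k192),(k2,(nat_lit 220)),(k6,(nat_lit 227)),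
    (k5,(nat_lit 271))],[(k0,k96),(k4,(nat_lit 209)),(k3,(nat_lit 220)),(k7,(nat_lit 253))],[(k0,k147),(k4,k172),(k7,
    (nat_lit 216)),(k3,(nat_lit 271))],[(k9,k141),(k5,k172),(k2,(nat_lit 209)),(k6,(nat_lit 264))],[(k9,k117),(k5,
    (nat_lit 216)),(k6,(nat_lit 240)),(k2,(nat_lit 253))],[(k0,k131),(k3,(nat_lit 227)),(k7,(nat_lit 240)),(k4,
    (nat_lit 264))],[(k0,k96),(k7,k117),(k4,k141),(k3,k192)],[(k11,k96)],[(k8,k96)],[(k1,k96),(k10,k96)]]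
    [] k0
    [[k1,k0,k0,k0,k1,k1],[k1,k0,k0,k1,k1,k1],[k0,k2,k0,k0,k0,k0],[k0,k0,k2,k0,k0,k0]]
    [.ref k0 k0 [(z1,[z1])],.ref k2 k0 [(z1,[z1])],.contra [z1],.contra [z1]])]⟩

/-- classes `0 0 0 0 1 2`, types `B0 B1 B0 B1 S0 S0` -/
noncomputable def cU6_246 : CertX :=
  ⟨[k8,k9,k8,k9,k16,k32],[(false,k0,[k0,k1,k2,k3,k4,k5]),(true,k4,[k4,k3,k2,k1,k0,k5])],[[[([z1,z0,z0,z0,z1,z1],z2)],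
    [([z1,z0,z0,z1,z1,z1],z2),([z0,z1,z0,y1,z0,z0],z0)],[([z1,z0,z0,z0,z1,z0],z1),([z0,z1,z0,z1,z0,z0],z2),([z0,z0,z2,
    z0,z0,z0],z1)],[([z1,z0,z0,z0,z1,z0],z1),([z0,z1,z0,z1,z0,z0],z2),([z0,z0,z3,z0,z0,z0],z2)],[([z1,z0,z0,z0,z1,z0],
    z1),([z0,z1,z0,z0,z0,y1],z1),([z0,z0,z1,z0,z0,z1],z1)],[([z1,z0,z0,y1,z1,z1],z0),([z0,z1,z0,z1,z0,z0],z2)],[([z1,
    z0,z0,z1,z1,z1],z2)],[([z1,z0,z0,z0,z1,z0],z1),([z0,z1,z0,z1,z0,z0],z2)],[([z1,z0,z1,z0,z1,z1],z2)],[]]],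
    [.old (.leafM k4 [k1,k2,k3,k4,k5,k0] [(z1,[z1])] []),
    .old (.tor k7 false k0 [(z1,[y1,y1,z1]),(z1,[y1,z0,z1]),(z1,[z1]),(z1,[z1,z1])]),
    .old (.leafM k9 [k0,k2,k4,k5] [(z1,[z0,z0,z1]),(z1,[y2,y2,y1,z2]),(z1,[z1])] [(k1,k3,z1,[z0,z1]),(k3,k1,z1,[z0,z1])]),
    .old (.leafM k8 [k0,k2,k4,k5] [(z1,[z0,z0,z1]),(z1,[y3,y3,y1,z3]),(z1,[z1])] [(k1,k3,z1,[z0,z1]),(k3,k1,z1,[z0,z1])]),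
    .old (.lp [k72,k120,k68,k114,k48,k48] [k24,k24,k0,k0,k26,k26,k3,k3,k36,k36,k36,k36] k0 [[k0,k0,k0,k48],[k0,k0,k0,k10],
    [k10,k48],[k0,k0,k0,k0,k4,k6],[k0,k0,k6,k0,k0,k0,k6],[k0,k0,k4],[],[k0,k0,k0,k0,k0,k6]] (nat_lit 240) k6
    [[(k10,k60),(k1,k72)],[(k2,k48),(k9,k60),(k5,k80),(k6,k93)],[(k9,k84),(k2,k110),(k6,k117),(k5,k142)],[(k0,k48),
    (k4,k98),(k3,k110),(k7,k123)],[(k4,k62),(k0,k80),(k7,k87),(k3,k142)],[(k9,k52),(k5,k62),(k6,k91),(k2,k98)],[(k9,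
    k81),(k5,k87),(k6,k120),(k2,k123)],[(k4,k91),(k0,k93),(k3,k117),(k7,k120)],[(k4,k52),(k0,k60),(k7,k81),(k3,k84)],
    [(k8,k48),(k11,k48)],[(k8,k48),(k11,k48)],[(k10,k48),(k1,k60)]]
    [] k0
    [[k1,k0,k0,k0,k1,k1],[k0,k2,k0,k0,k0,k0],[k0,k0,k2,k0,k0,k0],[k0,k0,k3,k0,k0,k0],[k0,k0,k1,k1,k0,k0],[k0,k0,k0,k0,
    k0,k2],[k0,k0,k0,k0,k0,k4]]
    [.contra [z1,y1],.contra [z1],.contra [y1,z0,z2,z2],.ref k3 k0 [(z1,[z0,z1]),(z1,[z0,y1,z0,y1,z1]),(z1,[z1])],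
    .contra [y1,y1,z1,z0,z1],.contra [z1],.ref k2 k0 [(z1,[z0,z1]),(z1,[z0,y1,z0,y1,z1]),(z2,[y1,z0,z0,z4])]]),
    .old (.lp [k90,(nat_lit 240),k174,(nat_lit 236),k96,k120] [k78,k72,k0,k0,k33,k33,k2,k2,k72,k72,k60,k60] k0 [[k0,k0,k0,
    k66],[k0,k0,k0,k0,k0,k0,k0,k6],[k0,k66],[k0,k0,k0,k0,k0,k10],[k0,k0,k10],[k0,k0,k0,k0,k0,k0,k70],[k6],[k0,k0,k0,
    k0,k70]] (nat_lit 480) k6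
    [[(k1,k96),(k10,k108)],[(k2,k96),(k9,k96),(k5,k129),(k6,k160)],[(k9,k168),(k6,(nat_lit 232)),(k2,(nat_lit 240)),
    (k5,(nat_lit 273))],[(k0,k96),(k4,(nat_lit 207)),(k3,(nat_lit 240)),(k7,(nat_lit 248))],[(k0,k129),(k4,k164),(k7,
    (nat_lit 205)),(k3,(nat_lit 273))],[(k9,k135),(k5,k164),(k2,(nat_lit 207)),(k6,(nat_lit 275))],[(k9,k96),(k5,
    (nat_lit 205)),(k6,(nat_lit 236)),(k2,(nat_lit 248))],[(k0,k160),(k3,(nat_lit 232)),(k7,(nat_lit 236)),(k4,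
    (nat_lit 275))],[(k0,k96),(k7,k96),(k4,k135),(k3,k168)],[(k8,k96),(k11,k108)],[(k8,k108),(k11,k120)],[(k1,k108),
    (k10,k120)]]
    [] k0
    [[k2,k0,k0,k0,k2,k0],[k1,k0,k0,k0,k1,k1],[k1,k0,k0,k1,k1,k1],[k0,k0,k2,k0,k0,k0],[k0,k0,k0,k2,k0,k0],[k0,k0,k0,k0,
    k0,k2]]
    [.ref k4 k1 [(z2,[z1]),(z2,[z1,y2]),(z2,[y1,z0,y2,z2])],.contra [y1,z1,z1],.contra [y1,z1,z2],.contra [z1,z2,z4,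
    y2],.contra [y1,z0,z2],.contra [z1]]),
    .old (.lp [k6,k12,k10,k6,k6,k6] [k3,k3,k0,k0,k1,k1,k3,k3,k3,k3,k3,k3] k0 [[k0,k0,k0,k2],[],[k0,k2,k0,k0,k2],[],[k0,k0,
    k0,k0,k0,k0,k2],[k0,k0,k0,k2],[],[k0,k0,k0,k0,k0,k2]] k24 k5
    [[(k1,k6),(k10,k6)],[(k6,k6),(k9,k6),(k2,k7),(k5,k8)],[(k6,k9),(k9,k9),(k2,k12),(k5,k13)],[(k0,k7),(k7,k7),(k4,
    k11),(k3,k12)],[(k0,k8),(k7,k8),(k4,k12),(k3,k13)],[(k9,k6),(k6,k8),(k2,k11),(k5,k12)],[(k9,k6),(k2,k7),(k5,k8),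
    (k6,k8)],[(k0,k6),(k4,k8),(k7,k8),(k3,k9)],[(k0,k6),(k4,k6),(k7,k6),(k3,k9)],[(k8,k6),(k11,k6)],[(k8,k6),(k11,
    k6)],[(k1,k6),(k10,k6)]]
    [] k0
    [[k1,k0,k0,k0,k1,k1],[k0,k1,k0,k1,k0,k0],[k0,k0,k1,k1,k0,k0],[k0,k0,k0,k2,k0,k0],[k0,k0,k0,k0,k0,k2]]
    [.contra [y1,z1],.ref k5 k1 [(z1,[y1,z1]),(z1,[z1])],.ref k1 k0 [(z1,[z0,z1]),(z1,[y1,y1,z1])],.contra [z1],
    .contra [z1]]),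
    .old (.lp [k72,k120,k68,k114,k48,k48] [k24,k24,k0,k0,k26,k26,k3,k3,k36,k36,k36,k36] k0 [[k0,k0,k0,k48],[k0,k0,k0,k10],
    [k10,k48],[k0,k0,k0,k0,k4,k6],[k0,k0,k6,k0,k0,k0,k6],[k0,k0,k4],[],[k0,k0,k0,k0,k0,k6]] (nat_lit 240) k6
    [[(k10,k60),(k1,k72)],[(k2,k48),(k9,k60),(k5,k80),(k6,k93)],[(k9,k84),(k2,k110),(k6,k117),(k5,k142)],[(k0,k48),
    (k4,k98),(k3,k110),(k7,k123)],[(k4,k62),(k0,k80),(k7,k87),(k3,k142)],[(k9,k52),(k5,k62),(k6,k91),(k2,k98)],[(k9,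
    k81),(k5,k87),(k6,k120),(k2,k123)],[(k4,k91),(k0,k93),(k3,k117),(k7,k120)],[(k4,k52),(k0,k60),(k7,k81),(k3,k84)],
    [(k8,k48),(k11,k48)],[(k8,k48),(k11,k48)],[(k10,k48),(k1,k60)]]
    [] k0
    [[k1,k0,k0,k0,k1,k1],[k0,k2,k0,k0,k0,k0],[k0,k0,k2,k0,k0,k0],[k0,k0,k3,k0,k0,k0],[k0,k0,k1,k1,k0,k0],[k0,k0,k0,k0,
    k0,k2],[k0,k0,k0,k0,k0,k4]]
    [.contra [z1,y1],.contra [z1],.contra [z1],.ref k3 k0 [(z1,[z0,z1]),(z1,[z0,z0,z1]),(z1,[z1])],.ref k6 k1 [(z1,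
    [y1,z0,z0,z1])],.contra [z1],.ref k2 k0 [(z1,[z0,z1]),(z1,[z0,z0,z1]),(z2,[y1,y4,y4,z4])]]),
    .old (.lp [k48,k120,k84,k118,k48,k60] [k36,k36,k0,k0,k18,k18,k1,k1,k36,k36,k30,k30] k0 [[],[],[k0,k0,k0,k0,k0,k38],
    [k0,k0,k0,k0,k0,k2],[k0,k0,k2,k38]] (nat_lit 240) k6
    [[(k1,k48),(k10,k54)],[(k9,k48),(k5,k66),(k6,k83),(k2,k84)],[(k9,k84),(k5,k102),(k6,k119),(k2,k120)],[(k4,k64),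
    (k0,k84),(k3,k120),(k7,k121)],[(k0,k66),(k4,k82),(k3,k102),(k7,k139)],[(k2,k64),(k9,k66),(k5,k82),(k6,k101)],[(k9,
    k83),(k6,k118),(k2,k121),(k5,k139)],[(k0,k83),(k4,k101),(k7,k118),(k3,k119)],[(k0,k48),(k4,k66),(k7,k83),(k3,
    k84)],[(k8,k48),(k11,k54)],[(k8,k54),(k11,k60)],[(k1,k54),(k10,k60)]]
    [] k0
    [[k2,k0,k0,k0,k2,k0],[k1,k0,k0,k0,k1,k1],[k0,k1,k1,k0,k0,k0],[k0,k0,k2,k0,k0,k0],[k0,k0,k0,k2,k0,k0],[k0,k0,k0,k0,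
    k0,k2]]
    [.ref k7 k0 [(z2,[z1]),(z1,[z0,y1,z1])],.contra [y1,z1],.ref k6 k0 [(z1,[y1,z0,z1])],.contra [z1],.contra [y1,y2,
    z2],.contra [z1]]),
    .old (.lp [k6,k12,k10,k6,k6,k6] [k3,k3,k0,k0,k1,k1,k3,k3,k3,k3,k3,k3] k0 [[k0,k0,k0,k2],[],[k0,k2,k0,k0,k2],[],[k0,k0,
    k0,k0,k0,k0,k2],[k0,k0,k0,k2],[],[k0,k0,k0,k0,k0,k2]] k24 k5
    [[(k1,k6),(k10,k6)],[(k6,k6),(k9,k6),(k2,k7),(k5,k8)],[(k6,k9),(k9,k9),(k2,k12),(k5,k13)],[(k0,k7),(k7,k7),(k4,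
    k11),(k3,k12)],[(k0,k8),(k7,k8),(k4,k12),(k3,k13)],[(k9,k6),(k6,k8),(k2,k11),(k5,k12)],[(k9,k6),(k2,k7),(k5,k8),
    (k6,k8)],[(k0,k6),(k4,k8),(k7,k8),(k3,k9)],[(k0,k6),(k4,k6),(k7,k6),(k3,k9)],[(k8,k6),(k11,k6)],[(k8,k6),(k11,
    k6)],[(k1,k6),(k10,k6)]]
    [] k0
    [[k1,k0,k0,k0,k1,k1],[k0,k1,k0,k1,k0,k0],[k0,k0,k1,k1,k0,k0],[k0,k0,k0,k2,k0,k0],[k0,k0,k0,k0,k0,k2]]
    [.ref k0 k0 [(z1,[z1])],.ref k8 k0 [(z1,[y1,z1])],.ref k6 k1 [(z1,[y1,z1])],.contra [z1],.contra [z1]])]⟩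

/-- classes `0 0 0 0 1 2`, types `B0 B1 B1 B0 C0 C0` -/
noncomputable def cU6_247 : CertX :=
  ⟨[k8,k9,k9,k8,k20,k36],[(false,k0,[k0,k1,k2,k3,k4,k5])],[[[([z1,z0,z1,z0,z1,z1],z2)],[]]],
    [.old (.leafM k1 [k4,k5,k0,k2] [] [(k1,k3,z1,[y1,z1]),(k3,k1,z1,[y1,z1])]),
    .old (.lp [k2,k6,k4,k4,k2,k4] [k2,k2,k0,k0,k1,k1,k1,k1,k2,k2,k1,k1] k0 [] k12 k5
    [[(k10,k3)],[(k4,k3),(k5,k3),(k7,k3),(k2,k4)],[(k4,k5),(k5,k5),(k7,k5),(k2,k6)],[(k0,k4),(k9,k4),(k6,k5),(k3,k6)],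
    [(k0,k3),(k9,k3),(k6,k4),(k3,k5)],[(k0,k3),(k9,k3),(k6,k4),(k3,k5)],[(k0,k3),(k9,k3),(k6,k4),(k3,k5)],[(k4,k4),
    (k5,k4),(k7,k4),(k2,k5)],[(k4,k3),(k5,k3),(k7,k3),(k2,k4)],[(k11,k3)],[(k8,k3)],[(k1,k3)]]
    [] k0
    [[k0,k1,k0,k1,k0,k0],[k0,k0,k0,k2,k0,k0]]
    [.ref k0 k0 [(z1,[y1,z1])],.contra [z1]])]⟩

/-- classes `0 0 0 0 1 2`, types `B0 B1 B1 B0 C0 S0` -/
noncomputable def cU6_248 : CertX :=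
  ⟨[k8,k9,k9,k8,k20,k32],[(false,k0,[k0,k1,k2,k3,k4,k5])],[[[([z1,z0,z1,z0,z1,z1],z2)],[]]],
    [.old (.leafM k1 [k4,k5,k0,k2] [] [(k1,k3,z1,[y1,z1]),(k3,k1,z1,[y1,z1])]),
    .old (.lp [k10,k10,k6,k8,k6,k6] [k0,k0,k0,k0,k2,k2,k1,k1,k2,k2,k2,k2] k0 [[k0,k0,k2],[],[],[k0,k2]] k24 k5
    [[(k10,k8),(k1,k10)],[(k5,k6),(k4,k8),(k7,k9),(k2,k10)],[(k4,k8),(k5,k8),(k7,k9),(k2,k12)],[(k9,k8),(k6,k9),(k0,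
    k10),(k3,k12)],[(k0,k6),(k9,k6),(k6,k7),(k3,k8)],[(k9,k6),(k6,k7),(k0,k8),(k3,k8)],[(k9,k7),(k6,k8),(k0,k9),(k3,
    k9)],[(k4,k7),(k5,k7),(k7,k8),(k2,k9)],[(k4,k6),(k5,k6),(k7,k7),(k2,k8)],[(k11,k6)],[(k8,k6)],[(k10,k6),(k1,k8)]]
    [] k0
    [[k0,k1,k0,k1,k0,k0],[k0,k0,k0,k2,k0,k0]]
    [.ref k0 k0 [(z1,[y1,z1])],.contra [z1]])]⟩

/-- classes `0 0 0 0 1 2`, types `B0 B1 B1 B0 S0 S0` -/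
noncomputable def cU6_249 : CertX :=
  ⟨[k8,k9,k9,k8,k16,k32],[(false,k0,[k0,k1,k2,k3,k4,k5])],[[[([z1,z0,z1,z0,z1,z1],z2)],[]]],
    [.old (.leafM k1 [k4,k5,k0,k2] [] [(k1,k3,z1,[y1,z1]),(k3,k1,z1,[y1,z1])]),
    .old (.lp [k10,k8,k4,k8,k10,k6] [k0,k0,k1,k1,k3,k3,k1,k1,k0,k0,k2,k2] k0 [] k24 k5
    [[(k10,k8),(k1,k10)],[(k4,k7),(k5,k7),(k2,k9),(k7,k9)],[(k4,k6),(k5,k6),(k2,k8),(k7,k8)],[(k3,k8),(k6,k8),(k0,k9),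
    (k9,k9)],[(k3,k6),(k6,k6),(k0,k7),(k9,k7)],[(k3,k6),(k6,k6),(k0,k7),(k9,k7)],[(k3,k8),(k6,k8),(k0,k9),(k9,k9)],
    [(k4,k6),(k5,k6),(k2,k8),(k7,k8)],[(k4,k7),(k5,k7),(k2,k9),(k7,k9)],[(k11,k8),(k8,k10)],[(k11,k6),(k8,k8)],[(k10,
    k6),(k1,k8)]]
    [] k0
    [[k0,k2,k0,k0,k0,k0],[k0,k1,k0,k1,k0,k0],[k0,k0,k0,k2,k0,k0],[k0,k0,k0,k0,k0,k2]]
    [.contra [z1],.ref k0 k0 [(z1,[y1,z1])],.contra [z1],.contra [z1]])]⟩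

/-- classes `0 0 0 0 1 2`, types `C0 C0 C0 C0 C0 C0` -/
noncomputable def cU6_250 : CertX :=
  ⟨[k4,k4,k4,k4,k20,k36],[(false,k0,[k0,k1,k2,k3,k4,k5]),(true,k4,[k4,k3,k2,k1,k0,k5])],[[[([z1,z0,z0,z0,z1,z1],z2)],
    [([z1,z0,z0,z1,z1,z1],z2)],[]]],
    [.old (.leafM k0 [k0,k1,k2,k3,k4,k5] [(z1,[y1,z1])] []),
    .old (.leafM k0 [k0,k3,k4,k5] [] [(k1,k2,z1,[y1,z1]),(k2,k1,z1,[y1,z1])]),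
    .old (.lp [(nat_lit 31464),(nat_lit 82080),(nat_lit 62928),(nat_lit 69920),(nat_lit 31464),
    (nat_lit 31464)] [(nat_lit 25308),(nat_lit 25308),k0,k0,(nat_lit 9576),(nat_lit 9576),(nat_lit 6080),
    (nat_lit 6080),(nat_lit 25308),(nat_lit 25308),(nat_lit 25308),(nat_lit 25308)] k0 [[k0,k0,k0,k0,(nat_lit 13110)],
    [],[k0,k0,k0,k0,k0,k0,(nat_lit 24840)],[k0,k0,k0,k0,k0,(nat_lit 6555)],[k0,k0,(nat_lit 6555)],[k0,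
    (nat_lit 13110)],[],[k0,k0,k0,(nat_lit 24840)]] (nat_lit 157320) k6
    [[(k10,(nat_lit 31464))],[(k9,(nat_lit 31464)),(k7,(nat_lit 37582)),(k5,(nat_lit 47196)),(k3,(nat_lit 56772))],
    [(k0,(nat_lit 56772)),(k6,(nat_lit 76000)),(k2,(nat_lit 82080)),(k4,(nat_lit 85614))],[(k9,(nat_lit 31932)),(k5,
    (nat_lit 72504)),(k3,(nat_lit 82080)),(k7,(nat_lit 82555))],[(k0,(nat_lit 47196)),(k4,(nat_lit 56373)),(k2,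
    (nat_lit 72504)),(k6,(nat_lit 91264))],[(k9,(nat_lit 47196)),(k5,(nat_lit 56373)),(k7,(nat_lit 66424)),(k3,
    (nat_lit 85614))],[(k0,(nat_lit 37582)),(k4,(nat_lit 66424)),(k6,(nat_lit 69920)),(k2,(nat_lit 82555))],[(k9,
    (nat_lit 50692)),(k7,(nat_lit 69920)),(k3,(nat_lit 76000)),(k5,(nat_lit 91264))],[(k0,(nat_lit 31464)),(k2,
    (nat_lit 31932)),(k4,(nat_lit 47196)),(k6,(nat_lit 50692))],[(k11,(nat_lit 31464))],[(k8,(nat_lit 31464))],[(k1,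
    (nat_lit 31464))]]
    [] k0
    [[k1,k0,k0,k0,k1,k1],[k1,k1,k0,k0,k1,k1],[k1,k0,k0,k1,k1,k1],[k0,k0,k2,k0,k0,k0],[k0,k0,k0,k2,k0,k0]]
    [.ref k0 k0 [(z1,[z1])],.ref k1 k1 [(z1,[z1])],.ref k1 k0 [(z1,[z1])],.contra [z1],.contra [z1]])]⟩

/-- classes `0 0 0 0 1 2`, types `C0 C0 C0 C0 C0 S0` -/
noncomputable def cU6_251 : CertX :=
  ⟨[k4,k4,k4,k4,k20,k32],[(false,k0,[k0,k1,k2,k3,k4,k5])],[[[([z1,z1,z0,z0,z1,z1],z2)],[([z1,z0,z0,z0,z1,z1],z2)],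
    [([z1,z0,z0,z1,z1,z1],z2)],[]]],
    [.old (.leafM k0 [k0,k1,k4,k5] [] [(k2,k3,z1,[y1,z1]),(k3,k2,z1,[y1,z1])]),
    .old (.leafM k0 [k0,k1,k2,k3,k4,k5] [(z1,[y1,z1])] []),
    .old (.leafM k0 [k0,k3,k4,k5] [] [(k1,k2,z1,[y1,z1]),(k2,k1,z1,[y1,z1])]),
    .old (.lp [(nat_lit 8904),(nat_lit 22260),(nat_lit 15960),(nat_lit 22260),(nat_lit 8904),
    (nat_lit 8904)] [(nat_lit 6678),(nat_lit 6678),k0,k0,(nat_lit 3150),(nat_lit 3150),k0,k0,(nat_lit 6678),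
    (nat_lit 6678),(nat_lit 6678),(nat_lit 6678)] k0 [[k0,k0,k0,k0,(nat_lit 6360)],[k0,k0,k0,(nat_lit 1855)],
    [(nat_lit 1855)],[],[],[k0,(nat_lit 6360)]] (nat_lit 44520) k6
    [[(k1,(nat_lit 8904)),(k10,(nat_lit 8904))],[(k9,(nat_lit 8904)),(k7,(nat_lit 9222)),(k5,(nat_lit 14287)),(k3,
    (nat_lit 15582))],[(k0,(nat_lit 15582)),(k2,(nat_lit 20405)),(k6,(nat_lit 22260)),(k4,(nat_lit 25470))],[(k9,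
    (nat_lit 15582)),(k5,(nat_lit 19110)),(k3,(nat_lit 20405)),(k7,(nat_lit 22260))],[(k0,(nat_lit 14287)),(k4,
    (nat_lit 15960)),(k2,(nat_lit 19110)),(k6,(nat_lit 19110))],[(k9,(nat_lit 12432)),(k5,(nat_lit 15960)),(k7,
    (nat_lit 19110)),(k3,(nat_lit 25470))],[(k0,(nat_lit 9222)),(k4,(nat_lit 19110)),(k2,(nat_lit 22260)),(k6,
    (nat_lit 22260))],[(k9,(nat_lit 15582)),(k5,(nat_lit 19110)),(k3,(nat_lit 22260)),(k7,(nat_lit 22260))],[(k0,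
    (nat_lit 8904)),(k4,(nat_lit 12432)),(k2,(nat_lit 15582)),(k6,(nat_lit 15582))],[(k11,(nat_lit 8904))],[(k8,
    (nat_lit 8904))],[(k1,(nat_lit 8904)),(k10,(nat_lit 8904))]]
    [] k0
    [[k1,k0,k0,k0,k1,k1],[k1,k0,k0,k1,k1,k1],[k0,k2,k0,k0,k0,k0],[k0,k0,k2,k0,k0,k0],[k0,k0,k1,k1,k0,k0]]
    [.ref k1 k0 [(z1,[z1])],.ref k2 k0 [(z1,[z1])],.contra [z1],.contra [z1],.ref k0 k0 [(z1,[y1,z1])]])]⟩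

/-- classes `0 0 0 0 1 2`, types `C0 C0 C0 C0 S0 S0` -/
noncomputable def cU6_252 : CertX :=
  ⟨[k4,k4,k4,k4,k16,k32],[(false,k0,[k0,k1,k2,k3,k4,k5]),(true,k4,[k4,k3,k2,k1,k0,k5])],[[[([z1,z0,z0,z1,z1,z1],z2)],
    [([z1,z0,z0,z0,z1,z1],z2)],[([z1,z0,z0,z0,z1,z0],z1),([z0,z1,z0,z1,z0,z0],z2),([z0,z0,z2,z0,z0,z0],z1)],[([z1,z0,
    z0,z0,z1,z0],z1),([z0,z1,z0,z1,z0,z0],z2),([z0,z0,z3,z0,z0,z0],z2)],[([z1,z0,z0,z0,z1,z0],z1),([z0,z1,z0,z1,z0,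
    z0],z2)],[([z1,z0,z1,z0,z1,z1],z2)],[]]],
    [.old (.leafM k0 [k0,k3,k4,k5] [] [(k1,k2,z1,[y1,z1]),(k2,k1,z1,[y1,z1])]),
    .old (.leafM k0 [k0,k1,k2,k3,k4,k5] [(z1,[y1,z1])] []),
    .old (.leafM k9 [k0,k2,k4,k5] [(z1,[z0,z0,z1]),(z1,[y2,y2,y1,z2]),(z1,[z1])] [(k1,k3,z1,[z0,z1]),(k3,k1,z1,[z0,z1])]),
    .old (.leafM k8 [k0,k2,k4,k5] [(z1,[z0,z0,z1]),(z1,[y3,y3,y1,z3]),(z1,[z1])] [(k1,k3,z1,[z0,z1]),(k3,k1,z1,[z0,z1])]),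
    .old (.lp [k76,k120,k62,k116,k48,k48] [k22,k22,k0,k0,k29,k29,k2,k2,k36,k36,k36,k36] k0 [[k0,k0,k0,k0,k0,k0,k4],[],[],
    [],[],[k0,k0,k0,k0,k0,k0,k0,k6],[k0,k0,k0,k0,k6],[k0,k4]] (nat_lit 240) k6
    [[(k10,k62),(k1,k76)],[(k9,k58),(k5,k69),(k7,k96),(k3,k98)],[(k4,k91),(k0,k98),(k2,k120),(k6,k122)],[(k9,k84),(k5,
    k91),(k7,k118),(k3,k120)],[(k4,k62),(k0,k69),(k6,k89),(k2,k91)],[(k9,k61),(k5,k62),(k7,k89),(k3,k91)],[(k4,k89),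
    (k0,k96),(k6,k110),(k2,k118)],[(k9,k82),(k5,k89),(k7,k110),(k3,k122)],[(k0,k58),(k4,k61),(k6,k82),(k2,k84)],[(k8,
    k48),(k11,k48)],[(k8,k48),(k11,k48)],[(k10,k48),(k1,k62)]]
    [] k0
    [[k1,k0,k0,k0,k1,k1],[k0,k1,k1,k0,k0,k0],[k0,k0,k2,k0,k0,k0],[k0,k0,k3,k0,k0,k0],[k0,k0,k1,k1,k0,k0],[k0,k0,k0,k2,
    k0,k0],[k0,k0,k0,k0,k0,k2],[k0,k0,k0,k0,k0,k4]]
    [.contra [z1,y1],.ref k0 k0 [(z1,[y1,z0,z0,z1])],.contra [z1],.ref k3 k0 [(z1,[z0,z1]),(z1,[z0,z0,z1]),(z1,[z1])],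
    .ref k0 k1 [(z1,[y1,z0,z0,z1])],.contra [y1,z0,z2],.contra [z1],.ref k2 k0 [(z1,[z0,z1]),(z1,[z0,z0,z1]),(z2,[y1,
    y4,y4,z4])]]),
    .old (.lp [k52,k120,k80,k118,k48,k60] [k34,k34,k0,k0,k20,k20,k1,k1,k36,k36,k30,k30] k0 [[k0,k0,k0,k0,k0,k0,k2],[],[],
    [],[],[],[],[k0,k2]] (nat_lit 240) k6
    [[(k1,k52),(k10,k56)],[(k9,k48),(k5,k66),(k7,k85),(k3,k86)],[(k0,k86),(k4,k100),(k2,k120),(k6,k121)],[(k9,k84),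
    (k5,k100),(k7,k119),(k3,k120)],[(k0,k66),(k4,k80),(k6,k99),(k2,k100)],[(k9,k64),(k5,k80),(k7,k99),(k3,k100)],[(k0,
    k85),(k4,k99),(k6,k118),(k2,k119)],[(k9,k83),(k5,k99),(k7,k118),(k3,k121)],[(k0,k48),(k4,k64),(k6,k83),(k2,k84)],
    [(k8,k48),(k11,k54)],[(k8,k54),(k11,k60)],[(k1,k56),(k10,k60)]]
    [] k0
    [[k2,k0,k0,k0,k2,k0],[k1,k0,k0,k0,k1,k1],[k0,k1,k1,k0,k0,k0],[k0,k0,k2,k0,k0,k0],[k0,k0,k1,k1,k0,k0],[k0,k0,k0,k2,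
    k0,k0],[k0,k0,k0,k0,k0,k2]]
    [.ref k4 k0 [(z2,[z1]),(z1,[z0,y1,z1])],.contra [y1,z1],.ref k0 k0 [(z1,[y1,z0,z1])],.contra [z1],.ref k0 k1 [(z1,
    [y1,z0,z1])],.contra [y1,y2,z2],.contra [z1]]),
    .old (.lp [k20,k18,k16,k16,k12,k12] [k0,k0,k1,k1,k2,k2,k2,k2,k4,k4,k4,k4] k0 [[k0,k0,k6],[k0,k0,k0,k0,k0,k0,k0,k4],[],
    [k0,k6],[k0,k0,k0,k0,k0,k0,k2],[],[k4],[k0,k0,k0,k0,k0,k2]] k48 k5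
    [[(k10,k16),(k1,k20)],[(k5,k12),(k7,k18),(k3,k19),(k9,k20)],[(k6,k13),(k4,k17),(k0,k19),(k2,k24)],[(k9,k15),(k5,
    k17),(k7,k17),(k3,k24)],[(k0,k12),(k4,k16),(k6,k16),(k2,k17)],[(k9,k12),(k5,k16),(k7,k16),(k3,k17)],[(k4,k16),(k2,
    k17),(k0,k18),(k6,k18)],[(k3,k13),(k9,k14),(k5,k16),(k7,k18)],[(k4,k12),(k6,k14),(k2,k15),(k0,k20)],[(k8,k12),
    (k11,k12)],[(k8,k12),(k11,k12)],[(k10,k12),(k1,k16)]]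
    [] k0
    [[k0,k1,k1,k0,k0,k0],[k0,k1,k0,k1,k0,k0],[k0,k1,k1,k1,k0,k0],[k0,k0,k2,k0,k0,k0],[k0,k0,k1,k1,k0,k0],[k0,k0,k0,k2,
    k0,k0],[k0,k0,k0,k0,k0,k2]]
    [.ref k0 k0 [(z1,[y1,z1])],.ref k5 k0 [(z1,[y1,z1])],.ref k1 k0 [(z1,[y1,z1])],.contra [z1],.ref k0 k1 [(z1,[y1,
    z1])],.contra [z1],.contra [z1]])]⟩

/-- classes `0 0 0 0 1 2`, types `C0 C0 C0 C2 C0 C0` -/
noncomputable def cU6_253 : CertX :=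
  ⟨[k4,k4,k4,k6,k20,k36],[(false,k0,[k0,k1,k2,k3,k4,k5])],[[[([z1,z0,z0,z1,z1,z1],z2)],[]]],
    [.old (.leafM k0 [k0,k3,k4,k5] [] [(k1,k2,z1,[y1,z1]),(k2,k1,z1,[y1,z1])]),
    .old (.lp [k4,k4,k6,k2,k4,k2] [k1,k1,k1,k1,k0,k0,k2,k2,k1,k1,k2,k2] k0 [[k0,k0,k2],[],[],[k0,k2]] k12 k5
    [[(k10,k3)],[(k5,k3),(k6,k3),(k7,k3),(k3,k4)],[(k0,k4),(k9,k4),(k4,k5),(k2,k6)],[(k6,k3),(k7,k3),(k5,k5),(k3,k6)],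
    [(k0,k3),(k2,k5),(k9,k5),(k4,k6)],[(k6,k4),(k7,k4),(k3,k5),(k5,k6)],[(k0,k3),(k2,k3),(k9,k3),(k4,k4)],[(k0,k3),
    (k2,k3),(k9,k3),(k4,k4)],[(k6,k3),(k7,k3),(k3,k4),(k5,k5)],[(k11,k3)],[(k8,k3)],[(k1,k3)]]
    [] k0
    [[k0,k1,k1,k0,k0,k0]]
    [.ref k0 k0 [(z1,[y1,z1])]])]⟩

/-- classes `0 0 0 0 1 2`, types `C0 C0 C0 C2 C0 S0` -/
noncomputable def cU6_254 : CertX :=
  ⟨[k4,k4,k4,k6,k20,k32],[(false,k0,[k0,k1,k2,k3,k4,k5])],[[[([z1,z0,z0,z1,z1,z1],z2)],[]]],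
    [.old (.leafM k0 [k0,k3,k4,k5] [] [(k1,k2,z1,[y1,z1]),(k2,k1,z1,[y1,z1])]),
    .old (.lp [k18,k16,k22,k12,k12,k12] [k2,k2,k3,k3,k0,k0,k5,k5,k5,k5,k5,k5] k0 [[k0,k0,k8],[],[k0,k0,k0,k0,k2],[k0,k8],
    [],[k0,k0,k0,k2]] k48 k5
    [[(k10,k15),(k1,k18)],[(k5,k12),(k6,k15),(k7,k15),(k3,k17)],[(k9,k14),(k0,k17),(k4,k19),(k2,k24)],[(k7,k12),(k6,
    k14),(k5,k19),(k3,k24)],[(k0,k12),(k9,k17),(k2,k19),(k4,k24)],[(k6,k17),(k7,k17),(k3,k19),(k5,k24)],[(k2,k12),(k9,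
    k12),(k0,k15),(k4,k17)],[(k9,k12),(k2,k14),(k0,k15),(k4,k17)],[(k6,k12),(k7,k12),(k3,k14),(k5,k17)],[(k11,k12)],
    [(k8,k12)],[(k10,k12),(k1,k15)]]
    [] k0
    [[k0,k1,k1,k0,k0,k0]]
    [.ref k0 k0 [(z1,[y1,z1])]])]⟩

/-- classes `0 0 0 0 1 2`, types `C0 C0 C0 C2 S0 C0` -/
noncomputable def cU6_255 : CertX :=
  ⟨[k4,k4,k4,k6,k16,k36],[(false,k0,[k0,k1,k2,k3,k4,k5])],[[[([z1,z0,z0,z1,z1,z1],z2)],[]]],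
    [.old (.leafM k0 [k0,k3,k4,k5] [] [(k1,k2,z1,[y1,z1]),(k2,k1,z1,[y1,z1])]),
    .old (.lp [k6,k10,k10,k6,k8,k6] [k2,k2,k0,k0,k0,k0,k2,k2,k1,k1,k2,k2] k0 [[k0,k0,k2],[],[k0,k0,k0,k0,k2],[k0,k2],[k0,
    k0,k0,k0,k0,k0,k0,k2],[k0,k0,k0,k2],[k0,k0,k0,k0,k0,k2]] k24 k5
    [[(k10,k6)],[(k5,k6),(k6,k6),(k7,k6),(k3,k8)],[(k0,k8),(k9,k9),(k4,k10),(k2,k12)],[(k7,k6),(k6,k8),(k5,k10),(k3,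
    k12)],[(k0,k6),(k9,k9),(k2,k10),(k4,k12)],[(k6,k6),(k7,k8),(k3,k10),(k5,k12)],[(k0,k6),(k2,k6),(k4,k8),(k9,k9)],
    [(k0,k6),(k4,k6),(k9,k7),(k2,k8)],[(k6,k7),(k3,k9),(k5,k9),(k7,k9)],[(k11,k7),(k8,k8)],[(k11,k6),(k8,k7)],[(k1,
    k6)]]
    [] k0
    [[k0,k1,k1,k0,k0,k0]]
    [.ref k0 k0 [(z1,[y1,z1])]])]⟩

/-- classes `0 0 0 0 1 2`, types `C0 C0 C0 C2 S0 S0` -/
noncomputable def cU6_256 : CertX :=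
  ⟨[k4,k4,k4,k6,k16,k32],[(false,k0,[k0,k1,k2,k3,k4,k5])],[[[([z1,z0,z0,z1,z1,z1],z2)],[]]],
    [.old (.leafM k0 [k0,k3,k4,k5] [] [(k1,k2,z1,[y1,z1]),(k2,k1,z1,[y1,z1])]),
    .old (.lp [k20,k24,k26,k32,k18,k18] [k10,k10,k8,k8,k14,k0,k4,k4,k11,k11,k11,k11] k0 [[k0,k0,k12],[],[k0,k0,k0,k0,k10],
    [k0,k12],[k0,k0,k0,k0,k0,k0,k0,k4],[k0,k0,k0,k10],[k0,k0,k0,k0,k0,k4]] k72 k5
    [[(k10,k19),(k1,k20)],[(k5,k18),(k3,k22),(k6,k26),(k7,k26)],[(k4,k18),(k9,k21),(k0,k22),(k2,k36)],[(k7,k18),(k6,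
    k28),(k5,k32),(k3,k36)],[(k0,k18),(k9,k29),(k2,k32),(k4,k36)],[(k3,k18),(k6,k18),(k7,k22),(k5,k36)],[(k2,k18),(k4,
    k22),(k0,k26),(k9,k29)],[(k4,k18),(k9,k25),(k0,k26),(k2,k28)],[(k3,k21),(k6,k25),(k5,k29),(k7,k29)],[(k8,k18),
    (k11,k18)],[(k8,k18),(k11,k18)],[(k10,k18),(k1,k19)]]
    [] k0
    [[k0,k1,k1,k0,k0,k0],[k0,k0,k0,k0,k0,k2]]
    [.ref k0 k0 [(z1,[y1,z1])],.contra [z1]])]⟩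

/-- classes `0 0 0 0 1 2`, types `C0 C0 C2 C0 C0 C0` -/
noncomputable def cU6_257 : CertX :=
  ⟨[k4,k4,k6,k4,k20,k36],[(false,k0,[k0,k1,k2,k3,k4,k5])],[[[([z1,z1,z0,z0,z1,z1],z2)],[([z1,z0,z0,z0,z1,z1],z2)],
    []]],
    [.old (.leafM k0 [k0,k1,k4,k5] [] [(k2,k3,z1,[y1,z1]),(k3,k2,z1,[y1,z1])]),
    .old (.leafM k0 [k0,k1,k2,k3,k4,k5] [(z1,[y1,z1])] []),
    .old (.lp [k6,k4,k4,k2,k4,k2] [k0,k0,k1,k1,k1,k1,k2,k2,k1,k1,k2,k2] k0 [[k0,k0,k2],[],[],[k0,k2]] k12 k5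
    [[(k10,k4)],[(k5,k3),(k3,k5),(k4,k5),(k9,k5)],[(k6,k3),(k7,k3),(k0,k5),(k2,k6)],[(k4,k4),(k5,k4),(k9,k4),(k3,k6)],
    [(k0,k3),(k6,k3),(k7,k3),(k2,k4)],[(k6,k3),(k7,k3),(k2,k4),(k0,k5)],[(k3,k3),(k4,k3),(k5,k3),(k9,k3)],[(k3,k3),
    (k4,k3),(k5,k3),(k9,k3)],[(k6,k3),(k7,k3),(k2,k4),(k0,k5)],[(k11,k3)],[(k8,k3)],[(k1,k4)]]
    [] k0
    [[k0,k1,k1,k1,k0,k0],[k0,k0,k1,k1,k0,k0]]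
    [.ref k1 k0 [(z1,[y1,z1])],.ref k0 k0 [(z1,[y1,z1])]])]⟩

/-- classes `0 0 0 0 1 2`, types `C0 C0 C2 C0 C0 S0` -/
noncomputable def cU6_258 : CertX :=
  ⟨[k4,k4,k6,k4,k20,k32],[(false,k0,[k0,k1,k2,k3,k4,k5])],[[[([z1,z1,z0,z0,z1,z1],z2)],[([z1,z0,z0,z0,z1,z1],z2)],
    []]],
    [.old (.leafM k0 [k0,k1,k4,k5] [] [(k2,k3,z1,[y1,z1]),(k3,k2,z1,[y1,z1])]),
    .old (.leafM k0 [k0,k1,k2,k3,k4,k5] [(z1,[y1,z1])] []),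
    .old (.lp [k6,k8,k4,k4,k4,k4] [k1,k1,k0,k0,k2,k2,k2,k2,k2,k2,k2,k2] k0 [] k16 k5
    [[(k10,k5),(k1,k6)],[(k4,k5),(k5,k5),(k9,k5),(k3,k7)],[(k6,k6),(k7,k6),(k0,k7),(k2,k8)],[(k4,k6),(k5,k6),(k9,k6),
    (k3,k8)],[(k6,k4),(k7,k4),(k0,k5),(k2,k6)],[(k6,k4),(k7,k4),(k0,k5),(k2,k6)],[(k4,k4),(k5,k4),(k9,k4),(k3,k6)],
    [(k4,k4),(k5,k4),(k9,k4),(k3,k6)],[(k6,k4),(k7,k4),(k0,k5),(k2,k6)],[(k11,k4)],[(k8,k4)],[(k10,k4),(k1,k5)]]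
    [] k0
    [[k1,k0,k0,k0,k1,k1],[k0,k0,k1,k1,k0,k0]]
    [.ref k1 k0 [(z1,[z1])],.ref k0 k0 [(z1,[y1,z1])]])]⟩

/-- classes `0 0 0 0 1 2`, types `C0 C0 C2 C0 S0 C0` -/
noncomputable def cU6_259 : CertX :=
  ⟨[k4,k4,k6,k4,k16,k36],[(false,k0,[k0,k1,k2,k3,k4,k5])],[[[([z1,z1,z0,z0,z1,z1],z2)],[([z1,z0,z0,z0,z1,z1],z2)],
    []]],
    [.old (.leafM k0 [k0,k1,k4,k5] [] [(k2,k3,z1,[y1,z1]),(k3,k2,z1,[y1,z1])]),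
    .old (.leafM k0 [k0,k1,k2,k3,k4,k5] [(z1,[y1,z1])] []),
    .old (.lp [k4,k8,k4,k4,k6,k4] [k2,k2,k0,k0,k2,k2,k2,k2,k1,k1,k2,k2] k0 [] k16 k5
    [[(k10,k4)],[(k4,k4),(k5,k4),(k9,k5),(k3,k6)],[(k0,k6),(k6,k6),(k7,k6),(k2,k8)],[(k4,k6),(k5,k6),(k9,k7),(k3,k8)],
    [(k0,k4),(k6,k4),(k7,k4),(k2,k6)],[(k0,k4),(k6,k4),(k7,k4),(k2,k6)],[(k4,k4),(k5,k4),(k9,k5),(k3,k6)],[(k4,k4),
    (k5,k4),(k9,k5),(k3,k6)],[(k0,k5),(k6,k5),(k7,k5),(k2,k7)],[(k11,k5),(k8,k6)],[(k11,k4),(k8,k5)],[(k1,k4)]]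
    [] k0
    [[k1,k0,k0,k0,k1,k1],[k0,k0,k1,k1,k0,k0]]
    [.ref k1 k0 [(z1,[z1])],.ref k0 k0 [(z1,[y1,z1])]])]⟩

/-- classes `0 0 0 0 1 2`, types `C0 C0 C2 C0 S0 S0` -/
noncomputable def cU6_260 : CertX :=
  ⟨[k4,k4,k6,k4,k16,k32],[(false,k0,[k0,k1,k2,k3,k4,k5])],[[[([z1,z1,z0,z0,z1,z1],z2)],[([z1,z0,z0,z0,z1,z1],z2)],
    []]],
    [.old (.leafM k0 [k0,k1,k4,k5] [] [(k2,k3,z1,[y1,z1]),(k3,k2,z1,[y1,z1])]),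
    .old (.leafM k0 [k0,k1,k2,k3,k4,k5] [(z1,[y1,z1])] []),
    .old (.lp [k18,k20,k12,k12,k18,k12] [k0,k4,k1,k1,k5,k5,k5,k5,k2,k2,k5,k5] k0 [[k0,k0,k4],[k0,k0,k0,k0,k4],[],[k0,k4],
    [],[k4]] k48 k5
    [[(k10,k13),(k1,k14)],[(k5,k13),(k9,k20),(k3,k21),(k4,k21)],[(k7,k12),(k6,k16),(k0,k21),(k2,k24)],[(k4,k16),(k5,
    k16),(k9,k19),(k3,k24)],[(k6,k12),(k7,k12),(k0,k13),(k2,k16)],[(k6,k12),(k7,k12),(k2,k16),(k0,k21)],[(k3,k12),(k4,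
    k12),(k5,k12),(k9,k15)],[(k4,k12),(k5,k12),(k9,k15),(k3,k16)],[(k6,k15),(k7,k15),(k2,k19),(k0,k20)],[(k11,k15),
    (k8,k18)],[(k11,k12),(k8,k15)],[(k10,k12),(k1,k13)]]
    [] k0
    [[k0,k1,k1,k1,k0,k0],[k0,k0,k1,k1,k0,k0],[k0,k0,k0,k0,k0,k2]]
    [.ref k1 k0 [(z1,[y1,z1])],.ref k0 k0 [(z1,[y1,z1])],.contra [z1]])]⟩

/-- classes `0 0 0 0 1 2`, types `C0 C0 C2 C2 C0 C0` -/
noncomputable def cU6_261 : CertX :=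
  ⟨[k4,k4,k6,k6,k20,k36],[(false,k0,[k0,k1,k2,k3,k4,k5])],[[[([z1,z0,z1,z0,z1,z1],z2)],[]]],
    [.old (.leafM k1 [k4,k5,k0,k2] [] [(k1,k3,z1,[y1,z1]),(k3,k1,z1,[y1,z1])]),
    .old (.lp [k4,k4,k2,k6,k4,k2] [k1,k1,k1,k1,k2,k2,k0,k0,k1,k1,k2,k2] k0 [] k12 k5
    [[(k10,k3)],[(k4,k3),(k5,k3),(k3,k4),(k6,k5)],[(k0,k4),(k2,k4),(k9,k4),(k7,k5)],[(k4,k3),(k5,k3),(k3,k4),(k6,k5)],
    [(k0,k3),(k2,k3),(k9,k3),(k7,k4)],[(k0,k3),(k2,k3),(k9,k3),(k7,k4)],[(k4,k4),(k5,k4),(k3,k5),(k6,k6)],[(k0,k5),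
    (k2,k5),(k9,k5),(k7,k6)],[(k4,k3),(k5,k3),(k3,k4),(k6,k5)],[(k11,k3)],[(k8,k3)],[(k1,k3)]]
    [] k0
    [[k0,k2,k0,k0,k0,k0],[k0,k1,k0,k1,k0,k0]]
    [.contra [z1],.ref k0 k0 [(z1,[y1,z1])]])]⟩

/-- classes `0 0 0 0 1 2`, types `C0 C0 C2 C2 C0 S0` -/
noncomputable def cU6_262 : CertX :=
  ⟨[k4,k4,k6,k6,k20,k32],[(false,k0,[k0,k1,k2,k3,k4,k5])],[[[([z1,z0,z1,z0,z1,z1],z2)],[]]],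
    [.old (.leafM k1 [k4,k5,k0,k2] [] [(k1,k3,z1,[y1,z1]),(k3,k1,z1,[y1,z1])]),
    .old (.lp [k10,k10,k6,k8,k6,k6] [k0,k0,k0,k0,k2,k2,k1,k1,k2,k2,k2,k2] k0 [[k0,k0,k2],[],[],[k0,k2]] k24 k5
    [[(k10,k8),(k1,k10)],[(k5,k6),(k4,k8),(k6,k9),(k3,k10)],[(k9,k8),(k7,k9),(k0,k10),(k2,k12)],[(k4,k8),(k5,k8),(k6,
    k9),(k3,k12)],[(k0,k6),(k9,k6),(k7,k7),(k2,k8)],[(k9,k6),(k7,k7),(k0,k8),(k2,k8)],[(k4,k7),(k5,k7),(k6,k8),(k3,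
    k9)],[(k9,k7),(k7,k8),(k0,k9),(k2,k9)],[(k4,k6),(k5,k6),(k6,k7),(k3,k8)],[(k11,k6)],[(k8,k6)],[(k10,k6),(k1,k8)]]
    [] k0
    [[k0,k1,k0,k1,k0,k0],[k0,k0,k0,k2,k0,k0]]
    [.ref k0 k0 [(z1,[y1,z1])],.contra [z1]])]⟩

/-- classes `0 0 0 0 1 2`, types `C0 C0 C2 C2 S0 S0` -/
noncomputable def cU6_263 : CertX :=
  ⟨[k4,k4,k6,k6,k16,k32],[(false,k0,[k0,k1,k2,k3,k4,k5])],[[[([z1,z0,z1,z0,z1,z1],z2)],[]]],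
    [.old (.leafM k1 [k4,k5,k0,k2] [] [(k1,k3,z1,[y1,z1]),(k3,k1,z1,[y1,z1])]),
    .old (.lp [k10,k8,k4,k8,k10,k6] [k0,k0,k1,k1,k3,k3,k1,k1,k0,k0,k2,k2] k0 [] k24 k5
    [[(k10,k8),(k1,k10)],[(k4,k7),(k5,k7),(k3,k9),(k6,k9)],[(k2,k8),(k7,k8),(k0,k9),(k9,k9)],[(k4,k6),(k5,k6),(k3,k8),
    (k6,k8)],[(k2,k6),(k7,k6),(k0,k7),(k9,k7)],[(k2,k6),(k7,k6),(k0,k7),(k9,k7)],[(k4,k6),(k5,k6),(k3,k8),(k6,k8)],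
    [(k2,k8),(k7,k8),(k0,k9),(k9,k9)],[(k4,k7),(k5,k7),(k3,k9),(k6,k9)],[(k11,k8),(k8,k10)],[(k11,k6),(k8,k8)],[(k10,
    k6),(k1,k8)]]
    [] k0
    [[k0,k2,k0,k0,k0,k0],[k0,k1,k0,k1,k0,k0],[k0,k0,k0,k2,k0,k0],[k0,k0,k0,k0,k0,k2]]
    [.contra [z1],.ref k0 k0 [(z1,[y1,z1])],.contra [z1],.contra [z1]])]⟩

/-- classes `0 0 0 0 1 2`, types `C0 C2 C0 C2 C0 C0` -/
noncomputable def cU6_264 : CertX :=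
  ⟨[k4,k6,k4,k6,k20,k36],[(false,k0,[k0,k1,k2,k3,k4,k5]),(true,k4,[k4,k3,k2,k1,k0,k5])],[[[([z1,z0,z0,z1,z1,z1],z2)],
    []]],
    [.old (.leafM k0 [k0,k3,k4,k5] [] [(k1,k2,z1,[y1,z1]),(k2,k1,z1,[y1,z1])]),
    .old (.lp [k0,k2,k0,k2,k0,k2] [k1,k1,k0,k0,k1,k1,k0,k0,k1,k1,k0,k0] k0 [] k4 k5
    [[(k10,k1)],[(k2,k1),(k3,k1),(k6,k1),(k7,k1)],[(k0,k1),(k4,k1),(k5,k1),(k9,k1)],[(k0,k1),(k4,k1),(k5,k1),(k9,k1)],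
    [(k2,k1),(k3,k1),(k6,k1),(k7,k1)],[(k2,k1),(k3,k1),(k6,k1),(k7,k1)],[(k0,k1),(k4,k1),(k5,k1),(k9,k1)],[(k0,k1),
    (k4,k1),(k5,k1),(k9,k1)],[(k2,k1),(k3,k1),(k6,k1),(k7,k1)],[(k11,k1)],[(k8,k1)],[(k1,k1)]]
    [] k0
    [[k0,k1,k1,k0,k0,k0],[k0,k0,k1,k1,k0,k0]]
    [.ref k0 k0 [(z1,[y1,z1])],.ref k0 k1 [(z1,[y1,z1])]])]⟩

/-- classes `0 0 0 0 1 2`, types `C0 C2 C0 C2 C0 S0` -/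
noncomputable def cU6_265 : CertX :=
  ⟨[k4,k6,k4,k6,k20,k32],[(false,k0,[k0,k1,k2,k3,k4,k5])],[[[([z1,z1,z0,z0,z1,z1],z2)],[([z1,z0,z0,z1,z1,z1],z2)],
    []]],
    [.old (.leafM k0 [k0,k1,k4,k5] [] [(k2,k3,z1,[y1,z1]),(k3,k2,z1,[y1,z1])]),
    .old (.leafM k0 [k0,k3,k4,k5] [] [(k1,k2,z1,[y1,z1]),(k2,k1,z1,[y1,z1])]),
    .old (.lp [k6,k4,k4,k4,k4,k4] [k0,k0,k1,k1,k1,k1,k1,k1,k1,k1,k1,k1] k0 [] k16 k5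
    [[(k10,k5),(k1,k6)],[(k2,k5),(k3,k5),(k6,k5),(k7,k5)],[(k4,k4),(k5,k4),(k9,k4),(k0,k5)],[(k4,k4),(k5,k4),(k9,k4),
    (k0,k5)],[(k2,k4),(k3,k4),(k6,k4),(k7,k4)],[(k2,k4),(k3,k4),(k6,k4),(k7,k4)],[(k4,k4),(k5,k4),(k9,k4),(k0,k5)],
    [(k4,k4),(k5,k4),(k9,k4),(k0,k5)],[(k2,k4),(k3,k4),(k6,k4),(k7,k4)],[(k11,k4)],[(k8,k4)],[(k10,k4),(k1,k5)]]
    [] k0
    [[k0,k1,k1,k0,k0,k0],[k0,k0,k1,k1,k0,k0]]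
    [.ref k1 k0 [(z1,[y1,z1])],.ref k0 k0 [(z1,[y1,z1])]])]⟩

/-- classes `0 0 0 0 1 2`, types `C0 C2 C0 C2 S0 S0` -/
noncomputable def cU6_266 : CertX :=
  ⟨[k4,k6,k4,k6,k16,k32],[(false,k0,[k0,k1,k2,k3,k4,k5]),(true,k4,[k4,k3,k2,k1,k0,k5])],[[[([z1,z0,z0,z1,z1,z1],z2)],
    []]],
    [.old (.leafM k0 [k0,k3,k4,k5] [] [(k1,k2,z1,[y1,z1]),(k2,k1,z1,[y1,z1])]),
    .old (.lp [k2,k4,k0,k4,k2,k2] [k1,k1,k0,k0,k2,k2,k0,k0,k1,k1,k1,k1] k0 [] k8 k5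
    [[(k1,k2),(k10,k2)],[(k2,k3),(k3,k3),(k6,k3),(k7,k3)],[(k4,k2),(k5,k2),(k0,k3),(k9,k3)],[(k4,k2),(k5,k2),(k0,k3),
    (k9,k3)],[(k2,k2),(k3,k2),(k6,k2),(k7,k2)],[(k2,k2),(k3,k2),(k6,k2),(k7,k2)],[(k4,k2),(k5,k2),(k0,k3),(k9,k3)],
    [(k4,k2),(k5,k2),(k0,k3),(k9,k3)],[(k2,k3),(k3,k3),(k6,k3),(k7,k3)],[(k8,k2),(k11,k2)],[(k8,k2),(k11,k2)],[(k1,
    k2),(k10,k2)]]
    [] k0
    [[k0,k1,k1,k0,k0,k0],[k0,k0,k1,k1,k0,k0],[k0,k0,k0,k0,k0,k2]]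
    [.ref k0 k0 [(z1,[y1,z1])],.ref k0 k1 [(z1,[y1,z1])],.contra [z1]])]⟩

/-- classes `0 0 0 0 1 2`, types `C0 C2 C2 C0 C0 C0` -/
noncomputable def cU6_267 : CertX :=
  ⟨[k4,k6,k6,k4,k20,k36],[(false,k0,[k0,k1,k2,k3,k4,k5])],[[[([z1,z0,z1,z0,z1,z1],z2)],[([z1,z0,z0,z0,z1,z1],z2)],
    []]],
    [.old (.leafM k1 [k4,k5,k0,k2] [] [(k1,k3,z1,[y1,z1]),(k3,k1,z1,[y1,z1])]),
    .old (.leafM k0 [k0,k1,k2,k3,k4,k5] [(z1,[y1,z1])] []),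
    .old (.lp [k2,k2,k4,k2,k2,k2] [k1,k1,k1,k1,k0,k0,k1,k1,k1,k1,k1,k1] k0 [] k8 k5
    [[(k10,k2)],[(k2,k2),(k3,k2),(k9,k2),(k4,k3)],[(k0,k2),(k6,k2),(k7,k2),(k5,k3)],[(k0,k2),(k6,k2),(k7,k2),(k5,k3)],
    [(k2,k3),(k3,k3),(k9,k3),(k4,k4)],[(k0,k3),(k6,k3),(k7,k3),(k5,k4)],[(k2,k2),(k3,k2),(k9,k2),(k4,k3)],[(k2,k2),
    (k3,k2),(k9,k2),(k4,k3)],[(k0,k2),(k6,k2),(k7,k2),(k5,k3)],[(k11,k2)],[(k8,k2)],[(k1,k2)]]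
    [] k0
    [[k1,k0,k0,k0,k1,k1],[k0,k1,k0,k1,k0,k0]]
    [.ref k1 k0 [(z1,[z1])],.ref k0 k0 [(z1,[y1,z1])]])]⟩

/-- classes `0 0 0 0 1 2`, types `C0 C2 C2 C0 C0 S0` -/
noncomputable def cU6_268 : CertX :=
  ⟨[k4,k6,k6,k4,k20,k32],[(false,k0,[k0,k1,k2,k3,k4,k5])],[[[([z1,z0,z1,z0,z1,z1],z2)],[([z1,z0,z0,z0,z1,z1],z2)],
    []]],
    [.old (.leafM k1 [k4,k5,k0,k2] [] [(k1,k3,z1,[y1,z1]),(k3,k1,z1,[y1,z1])]),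
    .old (.leafM k0 [k0,k1,k2,k3,k4,k5] [(z1,[y1,z1])] []),
    .old (.lp [k6,k4,k8,k4,k4,k4] [k1,k1,k2,k2,k0,k0,k2,k2,k2,k2,k2,k2] k0 [] k16 k5
    [[(k10,k5),(k1,k6)],[(k2,k5),(k3,k5),(k9,k5),(k4,k7)],[(k6,k4),(k7,k4),(k0,k5),(k5,k6)],[(k6,k4),(k7,k4),(k0,k5),
    (k5,k6)],[(k2,k6),(k3,k6),(k9,k6),(k4,k8)],[(k6,k6),(k7,k6),(k0,k7),(k5,k8)],[(k2,k4),(k3,k4),(k9,k4),(k4,k6)],
    [(k2,k4),(k3,k4),(k9,k4),(k4,k6)],[(k6,k4),(k7,k4),(k0,k5),(k5,k6)],[(k11,k4)],[(k8,k4)],[(k10,k4),(k1,k5)]]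
    [] k0
    [[k1,k0,k0,k0,k1,k1],[k0,k1,k0,k1,k0,k0]]
    [.ref k1 k0 [(z1,[z1])],.ref k0 k0 [(z1,[y1,z1])]])]⟩

/-- classes `0 0 0 0 1 2`, types `C0 C2 C2 C0 S0 S0` -/
noncomputable def cU6_269 : CertX :=
  ⟨[k4,k6,k6,k4,k16,k32],[(false,k0,[k0,k1,k2,k3,k4,k5])],[[[([z1,z0,z1,z0,z1,z1],z2)],[([z1,z0,z0,z0,z1,z1],z2)],
    []]],
    [.old (.leafM k1 [k4,k5,k0,k2] [] [(k1,k3,z1,[y1,z1]),(k3,k1,z1,[y1,z1])]),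
    .old (.leafM k0 [k0,k1,k2,k3,k4,k5] [(z1,[y1,z1])] []),
    .old (.lp [k10,k4,k8,k12,k6,k6] [k1,k1,k4,k4,k2,k2,k0,k0,k3,k3,k3,k3] k0 [] k24 k5
    [[(k10,k8),(k1,k10)],[(k2,k7),(k3,k7),(k9,k8),(k4,k9)],[(k5,k6),(k0,k7),(k6,k8),(k7,k8)],[(k5,k6),(k0,k7),(k6,k8),
    (k7,k8)],[(k2,k6),(k3,k6),(k9,k7),(k4,k8)],[(k5,k8),(k0,k9),(k6,k10),(k7,k10)],[(k2,k8),(k3,k8),(k9,k9),(k4,k10)],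
    [(k2,k8),(k3,k8),(k9,k9),(k4,k10)],[(k5,k7),(k0,k8),(k6,k9),(k7,k9)],[(k8,k6),(k11,k6)],[(k8,k6),(k11,k6)],[(k10,
    k6),(k1,k8)]]
    [] k0
    [[k1,k0,k0,k0,k1,k1],[k0,k1,k0,k1,k0,k0],[k0,k0,k2,k0,k0,k0],[k0,k0,k0,k0,k0,k2]]
    [.ref k1 k0 [(z1,[z1])],.ref k0 k0 [(z1,[y1,z1])],.contra [z1],.contra [z1]])]⟩

/-- classes `0 0 0 0 1 2`, types `N0 N0 N1 N1 C0 C0` -/
noncomputable def cU6_270 : CertX :=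
  ⟨[k12,k12,k13,k13,k20,k36],[(false,k0,[k0,k1,k2,k3,k4,k5])],[[[([z1,z0,z1,z0,z1,z1],z2)],[]]],
    [.old (.lp [k6,k6,k10,k24,k6,k6] [k9,k9,k9,k9,k7,k7,k0,k0,k9,k9,k9,k9] k0 [] k30 k6
    [[(k10,k6)],[(k9,k6),(k7,k15)],[(k4,k8),(k6,k15)],[(k9,k6),(k7,k15)],[(k4,k10),(k6,k17)],[(k3,k8),(k5,k10)],[(k0,
    k15),(k2,k15)],[(k3,k15),(k5,k17)],[(k0,k6),(k2,k6)],[(k11,k6)],[(k8,k6)],[(k1,k6)]]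
    [] k0
    [[k1,k0,k0,k0,k1,k1],[k0,k0,k2,k0,k0,k0]]
    [.contra [y1,z1],.contra [z1]]),
    .old (.lp [k12,k0,k8,k14,k12,k0] [k1,k1,k7,k7,k3,k3,k0,k0,k1,k1,k7,k7] k0 [[k0,k0,k0,k0,k2],[],[],[],[],[k0,
    k2]] k24 k5
    [[(k10,k6)],[(k7,k11),(k9,k12)],[(k4,k6),(k6,k7)],[(k9,k6),(k7,k7)],[(k4,k8),(k6,k11)],[(k3,k6),(k5,k8)],[(k2,k7),
    (k0,k11)],[(k3,k7),(k5,k11)],[(k2,k6),(k0,k12)],[(k11,k6)],[(k8,k6)],[(k1,k6)]]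
    [] k0
    [[k0,k1,k0,k1,k0,k0],[k0,k0,k2,k0,k0,k0]]
    [.ref k0 k0 [(z1,[y1,z1])],.contra [z1]])]⟩

/-- classes `0 0 0 0 1 2`, types `N0 N0 N1 N1 C0 S0` -/
noncomputable def cU6_271 : CertX :=
  ⟨[k12,k12,k13,k13,k20,k32],[(false,k0,[k0,k1,k2,k3,k4,k5])],[[[([z1,z0,z1,z0,z1,z1],z2)],[]]],
    [.old (.lp [k6,k24,k10,k6,k6,k6] [k9,k9,k0,k0,k7,k7,k9,k9,k9,k9,k9,k9] k0 [] k30 k6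
    [[(k1,k6),(k10,k6)],[(k7,k6),(k9,k6)],[(k6,k15),(k4,k17)],[(k7,k15),(k9,k15)],[(k6,k8),(k4,k10)],[(k5,k10),(k3,
    k17)],[(k0,k6),(k2,k15)],[(k5,k8),(k3,k15)],[(k0,k6),(k2,k15)],[(k11,k6)],[(k8,k6)],[(k1,k6),(k10,k6)]]
    [] k0
    [[k1,k0,k0,k0,k1,k1],[k0,k0,k2,k0,k0,k0]]
    [.contra [y1,z1],.contra [z1]]),
    .old (.lp [k12,k14,k8,k0,k2,k10] [k1,k1,k0,k0,k3,k3,k7,k7,k6,k6,k2,k2] k0 [[],[],[k0,k0,k0,k0,k0,k0,k2],[],[],[],[],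
    [k0,k0,k0,k2]] k24 k5
    [[(k10,k11),(k1,k12)],[(k7,k6),(k9,k7)],[(k6,k7),(k4,k11)],[(k9,k6),(k7,k7)],[(k6,k6),(k4,k8)],[(k5,k8),(k3,k11)],
    [(k0,k6),(k2,k7)],[(k5,k6),(k3,k7)],[(k2,k6),(k0,k7)],[(k11,k6)],[(k8,k6)],[(k10,k10),(k1,k11)]]
    [] k0
    [[k0,k1,k0,k1,k0,k0],[k0,k0,k2,k0,k0,k0]]
    [.ref k0 k0 [(z1,[y1,z1])],.contra [z1]])]⟩

/-- the certificates of this file -/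
noncomputable def lU6_14 : List CertX :=
  [cU6_237, cU6_238, cU6_239, cU6_240, cU6_241, cU6_242, cU6_243, cU6_244, cU6_245, cU6_246, cU6_247, cU6_248,
      cU6_249, cU6_250, cU6_251, cU6_252, cU6_253, cU6_254, cU6_255, cU6_256, cU6_257, cU6_258, cU6_259,
      cU6_260, cU6_261, cU6_262, cU6_263, cU6_264, cU6_265, cU6_266, cU6_267, cU6_268, cU6_269, cU6_270,
      cU6_271]

theorem gU6_14 : allF (chkE 6 ttU6) lU6_14 = true := by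
  decide +kernel

end Pool.Agent.Lib_MP_fa6e45
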