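import Pool.Agent.Lib_MP_fa6e45.CXT
import Pool.Agent.Lib_MP_fa6e45.HK

/-!
MP_fa6e45_co, stage 7: certificates (generated by a program).
-/

namespace Pool.Agent.Lib_MP_fa6e45

/-- classes `0 0 0 0 1 2`, types `N0 N0 N1 N1 S0 S0` -/
noncomputable def cU6_272 : CertX :=
  ⟨[k12,k12,k13,k13,k16,k32],[(false,k0,[k0,k1,k2,k3,k4,k5])],[[[([z1,z0,z0,z0,z1,z0],z1),([z0,z1,z0,z1,z0,z0],z2),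
    ([z0,z0,z3,z0,z0,z0],z2)],[([z1,z0,z0,z0,z1,z0],z1),([z0,z1,z0,z1,z0,z0],z2),([z0,z0,z2,z0,z0,z0],z1)],[([z1,z0,
    z0,z0,z1,z0],z1),([z0,z1,z0,z1,z0,z0],z2)],[([z1,z0,z1,z0,z1,z1],z2)],[]]],
    [.old (.leafM k8 [k0,k2,k4,k5] [(z1,[z0,z0,z1]),(z1,[y3,y3,y1,z3]),(z1,[z1])] [(k1,k3,z1,[z0,z1]),(k3,k1,z1,[z0,z1])]),
    .old (.leafM k9 [k0,k2,k4,k5] [(z1,[z0,z0,z1]),(z1,[y2,y2,y1,z2]),(z1,[z1])] [(k1,k3,z1,[z0,z1]),(k3,k1,z1,[z0,z1])]),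
    .old (.lp [k12,k32,k8,k8,k8,k10] [k10,k10,k0,k0,k12,k12,k12,k12,k12,k12,k11,k11] k0 [] k40 k6
    [[(k10,k11),(k1,k12)],[(k7,k10),(k9,k10)],[(k4,k20),(k6,k20)],[(k7,k20),(k9,k20)],[(k4,k8),(k6,k8)],[(k5,k8),(k3,
    k20)],[(k0,k10),(k2,k20)],[(k5,k8),(k3,k20)],[(k0,k10),(k2,k20)],[(k8,k8),(k11,k9)],[(k8,k9),(k11,k10)],[(k10,
    k10),(k1,k11)]]
    [] k0
    [[k1,k0,k0,k0,k1,k1],[k0,k0,k2,k0,k0,k0],[k0,k0,k3,k0,k0,k0],[k0,k0,k4,k0,k0,k0],[k0,k0,k0,k0,k0,k2]]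
    [.contra [z1,y1],.contra [z1],.ref k0 k0 [(z1,[z0,z1]),(z1,[z0,z0,z1]),(z1,[z1])],.ref k1 k0 [(z1,[z0,z1]),(z1,
    [z0,z0,z1]),(z2,[z1])],.contra [z1]]),
    .old (.lp [k24,k96,k40,k24,k24,k30] [k36,k36,k0,k0,k28,k28,k36,k36,k36,k36,k33,k33] k0 [] k120 k6
    [[(k1,k24),(k10,k27)],[(k7,k24),(k9,k24)],[(k6,k60),(k4,k68)],[(k7,k60),(k9,k60)],[(k6,k32),(k4,k40)],[(k5,k40),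
    (k3,k68)],[(k0,k24),(k2,k60)],[(k5,k32),(k3,k60)],[(k0,k24),(k2,k60)],[(k8,k24),(k11,k27)],[(k8,k27),(k11,k30)],
    [(k1,k27),(k10,k30)]]
    [] k0
    [[k2,k0,k0,k0,k2,k0],[k1,k0,k0,k0,k1,k1],[k0,k0,k2,k0,k0,k0],[k0,k0,k0,k0,k0,k2]]
    [.ref k2 k0 [(z2,[z1]),(z1,[z0,y1,z1])],.contra [y1,z1],.contra [z1],.contra [z1]]),
    .old (.lp [k12,k18,k16,k12,k12,k24] [k6,k6,k3,k3,k4,k4,k6,k6,k6,k6,k0,k0] k0 [[],[],[k0,k0,k0,k0,k0,k0,k2],[],[],[],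
    [],[k0,k0,k0,k2]] k48 k5
    [[(k1,k12),(k10,k18)],[(k7,k12),(k9,k12)],[(k6,k15),(k4,k17)],[(k9,k13),(k7,k15)],[(k4,k16),(k6,k16)],[(k5,k16),
    (k3,k17)],[(k0,k12),(k2,k15)],[(k3,k15),(k5,k16)],[(k0,k12),(k2,k13)],[(k8,k12),(k11,k18)],[(k8,k18),(k11,k24)],
    [(k1,k18),(k10,k24)]]
    [] k0
    [[k0,k1,k0,k1,k0,k0],[k0,k0,k2,k0,k0,k0]]
    [.ref k3 k0 [(z1,[y1,z1])],.contra [z1]])]⟩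

/-- classes `0 0 0 0 1 2`, types `N0 N0 N1 N2 C0 C0` -/
noncomputable def cU6_273 : CertX :=
  ⟨[k12,k12,k13,k14,k20,k36],[],[[[]]],
    [.old (.lp [k2,k2,k4,k2,k2,k2] [k1,k1,k1,k1,k0,k0,k1,k1,k1,k1,k1,k1] k0 [] k8 k5
    [[(k10,k2)],[(k6,k2),(k7,k2)],[(k9,k2),(k4,k3)],[(k6,k2),(k7,k2)],[(k9,k3),(k4,k4)],[(k3,k3),(k5,k4)],[(k0,k2),
    (k2,k2)],[(k0,k2),(k2,k2)],[(k3,k2),(k5,k3)],[(k11,k2)],[(k8,k2)],[(k1,k2)]]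
    [] k0
    []
    [])]⟩

/-- classes `0 0 0 0 1 2`, types `N0 N0 N1 N2 C0 S0` -/
noncomputable def cU6_274 : CertX :=
  ⟨[k12,k12,k13,k14,k20,k32],[],[[[]]],
    [.old (.lp [k8,k2,k12,k10,k6,k6] [k2,k2,k5,k5,k0,k0,k1,k1,k3,k3,k3,k3] k0 [[k0,k0,k0,k0,k0,k0,k0,k2],[],[],[],[],[],
    [k0,k2]] k24 k5
    [[(k10,k7),(k1,k8)],[(k6,k7),(k7,k9)],[(k9,k6),(k4,k7)],[(k6,k6),(k7,k6)],[(k9,k9),(k4,k12)],[(k3,k7),(k5,k12)],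
    [(k2,k6),(k0,k9)],[(k2,k6),(k0,k7)],[(k3,k6),(k5,k9)],[(k11,k6)],[(k8,k6)],[(k10,k6),(k1,k7)]]
    [] k0
    []
    [])]⟩

/-- classes `0 0 0 0 1 2`, types `N0 N0 N1 N2 S0 C0` -/
noncomputable def cU6_275 : CertX :=
  ⟨[k12,k12,k13,k14,k16,k36],[],[[[]]],
    [.old (.lp [k2,k2,k4,k2,k2,k2] [k1,k1,k1,k1,k0,k0,k1,k1,k1,k1,k1,k1] k0 [] k8 k5
    [[(k10,k2)],[(k6,k2),(k7,k2)],[(k9,k2),(k4,k3)],[(k6,k2),(k7,k2)],[(k9,k3),(k4,k4)],[(k3,k3),(k5,k4)],[(k0,k2),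
    (k2,k2)],[(k0,k2),(k2,k2)],[(k3,k2),(k5,k3)],[(k8,k2),(k11,k2)],[(k8,k2),(k11,k2)],[(k1,k2)]]
    [] k0
    []
    [])]⟩

/-- classes `0 0 0 0 1 2`, types `N0 N0 N1 N2 S0 S0` -/
noncomputable def cU6_276 : CertX :=
  ⟨[k12,k12,k13,k14,k16,k32],[],[[[]]],
    [.old (.lp [k8,k2,k12,k10,k6,k6] [k2,k2,k5,k5,k0,k0,k1,k1,k3,k3,k3,k3] k0 [[k0,k0,k0,k0,k0,k0,k0,k2],[],[],[],[],[],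
    [k0,k2]] k24 k5
    [[(k10,k7),(k1,k8)],[(k6,k7),(k7,k9)],[(k9,k6),(k4,k7)],[(k6,k6),(k7,k6)],[(k9,k9),(k4,k12)],[(k3,k7),(k5,k12)],
    [(k2,k6),(k0,k9)],[(k2,k6),(k0,k7)],[(k3,k6),(k5,k9)],[(k8,k6),(k11,k6)],[(k8,k6),(k11,k6)],[(k10,k6),(k1,k7)]]
    [] k0
    [[k0,k0,k0,k0,k0,k2]]
    [.contra [z1]])]⟩

/-- classes `0 0 0 0 1 2`, types `N0 N0 N2 N1 C0 C0` -/
noncomputable def cU6_277 : CertX :=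
  ⟨[k12,k12,k14,k13,k20,k36],[(false,k0,[k0,k1,k2,k3,k4,k5])],[[[([z1,z0,z0,z0,z1,z1],z2)],[]]],
    [.old (.leafM k4 [k1,k2,k3,k4,k5,k0] [(z1,[z1])] []),
    .old (.lp [k2,k2,k2,k4,k2,k2] [k1,k1,k1,k1,k1,k1,k0,k0,k1,k1,k1,k1] k0 [] k8 k5
    [[(k10,k2)],[(k4,k2),(k9,k2)],[(k6,k3),(k7,k3)],[(k4,k2),(k9,k2)],[(k6,k3),(k7,k3)],[(k0,k2),(k2,k2)],[(k3,k3),
    (k5,k3)],[(k3,k3),(k5,k3)],[(k0,k2),(k2,k2)],[(k11,k2)],[(k8,k2)],[(k1,k2)]]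
    [] k0
    [[k1,k0,k0,k0,k1,k1]]
    [.ref k0 k0 [(z1,[z1])]])]⟩

/-- classes `0 0 0 0 1 2`, types `N0 N0 N2 N1 C0 S0` -/
noncomputable def cU6_278 : CertX :=
  ⟨[k12,k12,k14,k13,k20,k32],[(false,k0,[k0,k1,k2,k3,k4,k5])],[[[([z1,z0,z0,z0,z1,z1],z2)],[]]],
    [.old (.leafM k4 [k1,k2,k3,k4,k5,k0] [(z1,[z1])] []),
    .old (.lp [k2,k4,k4,k0,k2,k2] [k1,k1,k0,k0,k0,k0,k2,k2,k1,k1,k1,k1] k0 [] k8 k5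
    [[(k1,k2),(k10,k2)],[(k9,k2),(k4,k3)],[(k6,k2),(k7,k2)],[(k9,k3),(k4,k4)],[(k6,k2),(k7,k2)],[(k0,k3),(k2,k4)],
    [(k3,k2),(k5,k2)],[(k3,k2),(k5,k2)],[(k0,k2),(k2,k3)],[(k11,k2)],[(k8,k2)],[(k1,k2),(k10,k2)]]
    [] k0
    [[k1,k0,k0,k0,k1,k1]]
    [.ref k0 k0 [(z1,[z1])]])]⟩

/-- classes `0 0 0 0 1 2`, types `N0 N0 N2 N1 S0 C0` -/
noncomputable def cU6_279 : CertX :=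
  ⟨[k12,k12,k14,k13,k16,k36],[(false,k0,[k0,k1,k2,k3,k4,k5])],[[[([z1,z0,z0,z0,z1,z1],z2)],[]]],
    [.old (.leafM k4 [k1,k2,k3,k4,k5,k0] [(z1,[z1])] []),
    .old (.lp [k2,k4,k4,k0,k2,k2] [k1,k1,k0,k0,k0,k0,k2,k2,k1,k1,k1,k1] k0 [] k8 k5
    [[(k10,k2)],[(k9,k2),(k4,k3)],[(k6,k2),(k7,k2)],[(k9,k3),(k4,k4)],[(k6,k2),(k7,k2)],[(k0,k3),(k2,k4)],[(k3,k2),
    (k5,k2)],[(k3,k2),(k5,k2)],[(k0,k2),(k2,k3)],[(k8,k2),(k11,k2)],[(k8,k2),(k11,k2)],[(k1,k2)]]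
    [] k0
    [[k1,k0,k0,k0,k1,k1]]
    [.ref k0 k0 [(z1,[z1])]])]⟩

/-- classes `0 0 0 0 1 2`, types `N0 N0 N2 N1 S0 S0` -/
noncomputable def cU6_280 : CertX :=
  ⟨[k12,k12,k14,k13,k16,k32],[(false,k0,[k0,k1,k2,k3,k4,k5])],[[[([z1,z0,z0,z0,z1,z1],z2)],[]]],
    [.old (.leafM k4 [k1,k2,k3,k4,k5,k0] [(z1,[z1])] []),
    .old (.lp [k2,k2,k2,k2,k2,k4] [k1,k1,k1,k1,k1,k1,k1,k1,k1,k1,k0,k0] k0 [] k8 k5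
    [[(k1,k2),(k10,k3)],[(k4,k2),(k9,k2)],[(k6,k2),(k7,k2)],[(k4,k2),(k9,k2)],[(k6,k2),(k7,k2)],[(k0,k2),(k2,k2)],
    [(k3,k2),(k5,k2)],[(k3,k2),(k5,k2)],[(k0,k2),(k2,k2)],[(k8,k2),(k11,k3)],[(k8,k3),(k11,k4)],[(k1,k3),(k10,k4)]]
    [] k0
    [[k0,k1,k1,k1,k0,k0]]
    [.ref k0 k0 [(z1,[y1,z1])]])]⟩

/-- classes `0 0 0 0 1 2`, types `N0 N0 N2 N2 C0 C0` -/
noncomputable def cU6_281 : CertX :=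
  ⟨[k12,k12,k14,k14,k20,k36],[(false,k0,[k0,k1,k2,k3,k4,k5])],[[[([z1,z0,z1,z0,z1,z1],z2)],[]]],
    [.old (.leafM k1 [k4,k5,k0,k2] [] [(k1,k3,z1,[y1,z1]),(k3,k1,z1,[y1,z1])]),
    .old (.lp [k2,k2,k2,k2,k2,k2] [k0,k0,k0,k0,k0,k0,k0,k0,k0,k0,k0,k0] k0 [] k8 k5
    [[(k10,k2)],[(k4,k2),(k6,k2)],[(k7,k2),(k9,k2)],[(k4,k2),(k6,k2)],[(k7,k2),(k9,k2)],[(k0,k2),(k2,k2)],[(k3,k2),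
    (k5,k2)],[(k0,k2),(k2,k2)],[(k3,k2),(k5,k2)],[(k11,k2)],[(k8,k2)],[(k1,k2)]]
    [] k0
    [[k0,k1,k0,k1,k0,k0]]
    [.ref k0 k0 [(z1,[y1,z1])]])]⟩

/-- classes `0 0 0 0 1 2`, types `N0 N0 N2 N2 C0 S0` -/
noncomputable def cU6_282 : CertX :=
  ⟨[k12,k12,k14,k14,k20,k32],[(false,k0,[k0,k1,k2,k3,k4,k5])],[[[([z1,z0,z1,z0,z1,z1],z2)],[]]],
    [.old (.leafM k1 [k4,k5,k0,k2] [] [(k1,k3,z1,[y1,z1]),(k3,k1,z1,[y1,z1])]),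
    .old (.lp [k2,k2,k2,k2,k2,k2] [k0,k0,k0,k0,k0,k0,k0,k0,k0,k0,k0,k0] k0 [] k8 k5
    [[(k1,k2),(k10,k2)],[(k4,k2),(k6,k2)],[(k7,k2),(k9,k2)],[(k4,k2),(k6,k2)],[(k7,k2),(k9,k2)],[(k0,k2),(k2,k2)],
    [(k3,k2),(k5,k2)],[(k0,k2),(k2,k2)],[(k3,k2),(k5,k2)],[(k11,k2)],[(k8,k2)],[(k1,k2),(k10,k2)]]
    [] k0
    [[k0,k1,k0,k1,k0,k0]]
    [.ref k0 k0 [(z1,[y1,z1])]])]⟩

/-- classes `0 0 0 0 1 2`, types `N0 N0 N2 N2 S0 S0` -/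
noncomputable def cU6_283 : CertX :=
  ⟨[k12,k12,k14,k14,k16,k32],[(false,k0,[k0,k1,k2,k3,k4,k5])],[[[([z1,z0,z1,z0,z1,z1],z2)],[]]],
    [.old (.leafM k1 [k4,k5,k0,k2] [] [(k1,k3,z1,[y1,z1]),(k3,k1,z1,[y1,z1])]),
    .old (.lp [k2,k2,k2,k2,k2,k4] [k1,k1,k1,k1,k1,k1,k1,k1,k1,k1,k0,k0] k0 [] k8 k5
    [[(k1,k2),(k10,k3)],[(k4,k2),(k6,k2)],[(k7,k2),(k9,k2)],[(k4,k2),(k6,k2)],[(k7,k2),(k9,k2)],[(k0,k2),(k2,k2)],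
    [(k3,k2),(k5,k2)],[(k0,k2),(k2,k2)],[(k3,k2),(k5,k2)],[(k8,k2),(k11,k3)],[(k8,k3),(k11,k4)],[(k1,k3),(k10,k4)]]
    [] k0
    [[k0,k1,k0,k1,k0,k0]]
    [.ref k0 k0 [(z1,[y1,z1])]])]⟩

/-- classes `0 0 0 0 1 2`, types `N0 N1 N0 N1 C0 C0` -/
noncomputable def cU6_284 : CertX :=
  ⟨[k12,k13,k12,k13,k20,k36],[(false,k0,[k0,k1,k2,k3,k4,k5])],[[[([z1,z0,z1,z0,z1,z1],z2)],[]]],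
    [.old (.lp [k58,k120,k86,k110,k58,k38] [k31,k31,k0,k0,k17,k17,k5,k5,k31,k31,k41,k41] k0 [[k0,k0,k0,k0,k0,k0,k10],[],[],
    [],[],[],[],[k0,k10]] (nat_lit 240) k6
    [[(k10,k48)],[(k9,k48),(k5,k72)],[(k2,k120),(k6,k125)],[(k7,k115),(k3,k120)],[(k0,k72),(k4,k86)],[(k9,k72),(k5,
    k86)],[(k6,k110),(k2,k115)],[(k7,k110),(k3,k125)],[(k0,k48),(k4,k72)],[(k11,k48)],[(k8,k48)],[(k1,k48)]]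
    [] k0
    [[k1,k0,k0,k0,k1,k1],[k0,k0,k2,k0,k0,k0],[k0,k0,k0,k2,k0,k0]]
    [.contra [y1,z1],.contra [z1],.contra [y1,y2,z2]]),
    .old (.lp [k24,k16,k16,k14,k24,k0] [k0,k0,k4,k4,k4,k4,k5,k5,k0,k0,k12,k12] k0 [[k0,k0,k8],[],[],[k0,k8],[k0,k0,k0,k0,
    k0,k0,k4],[],[],[k0,k0,k0,k0,k0,k4]] k48 k5
    [[(k10,k12)],[(k5,k12),(k9,k24)],[(k6,k15),(k2,k24)],[(k7,k15),(k3,k24)],[(k0,k12),(k4,k16)],[(k5,k16),(k9,k16)],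
    [(k2,k15),(k6,k18)],[(k3,k15),(k7,k18)],[(k4,k16),(k0,k24)],[(k11,k12)],[(k8,k12)],[(k1,k12)]]
    [] k0
    [[k0,k1,k0,k1,k0,k0],[k0,k0,k2,k0,k0,k0],[k0,k0,k0,k2,k0,k0]]
    [.ref k0 k0 [(z1,[y1,z1])],.contra [z1],.contra [z1]])]⟩

/-- classes `0 0 0 0 1 2`, types `N0 N1 N0 N1 C0 S0` -/
noncomputable def cU6_285 : CertX :=
  ⟨[k12,k13,k12,k13,k20,k32],[(false,k0,[k0,k1,k2,k3,k4,k5])],[[[([z1,z0,z1,z0,z1,z1],z2)],[]]],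
    [.old (.lp [k60,k150,k84,k80,k48,k48] [k45,k45,k0,k0,k33,k33,k35,k35,k51,k51,k51,k51] k0 [[k0,k0,k0,k0,k0,k0,k6],[],[],
    [k0,k0,k0,k0,k0,k4],[k0,k0,k4],[],[],[k0,k6]] (nat_lit 240) k6
    [[(k10,k54),(k1,k60)],[(k9,k48),(k5,k72)],[(k6,k121),(k2,k150)],[(k7,k119),(k3,k150)],[(k0,k72),(k4,k80)],[(k9,
    k66),(k5,k80)],[(k6,k80),(k2,k119)],[(k7,k80),(k3,k121)],[(k0,k48),(k4,k66)],[(k11,k48)],[(k8,k48)],[(k10,k48),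
    (k1,k54)]]
    [] k0
    [[k1,k0,k0,k0,k1,k1],[k0,k0,k2,k0,k0,k0],[k0,k0,k0,k2,k0,k0]]
    [.contra [y1,z1],.contra [z1],.contra [y1,y2,z2]]),
    .old (.lp [k20,k18,k16,k16,k12,k12] [k0,k0,k1,k1,k2,k2,k2,k2,k4,k4,k4,k4] k0 [[k0,k0,k6],[k0,k0,k0,k0,k0,k0,k0,k4],[],
    [k0,k6],[k0,k0,k0,k0,k0,k0,k2],[],[k4],[k0,k0,k0,k0,k0,k2]] k48 k5
    [[(k10,k16),(k1,k20)],[(k5,k12),(k9,k20)],[(k6,k13),(k2,k24)],[(k7,k17),(k3,k24)],[(k0,k12),(k4,k16)],[(k9,k12),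
    (k5,k16)],[(k2,k17),(k6,k18)],[(k3,k13),(k7,k18)],[(k4,k12),(k0,k20)],[(k11,k12)],[(k8,k12)],[(k10,k12),(k1,k16)]]
    [] k0
    [[k0,k1,k0,k1,k0,k0],[k0,k0,k2,k0,k0,k0],[k0,k0,k0,k2,k0,k0]]
    [.ref k0 k0 [(z1,[y1,z1])],.contra [z1],.contra [z1]])]⟩

/-- classes `0 0 0 0 1 2`, types `N0 N1 N0 N1 S0 S0` -/
noncomputable def cU6_286 : CertX :=
  ⟨[k12,k13,k12,k13,k16,k32],[(false,k0,[k0,k1,k2,k3,k4,k5])],[[[([z1,z0,z0,z0,z1,z0],z1),([z0,z1,z0,z1,z0,z0],z2),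
    ([z0,z0,z3,z0,z0,z0],z2)],[([z1,z0,z0,z0,z1,z0],z1),([z0,z1,z0,z1,z0,z0],z2),([z0,z0,z2,z0,z0,z0],z1)],[([z1,z0,
    z0,z0,z1,z0],z1),([z0,z1,z0,z1,z0,z0],z2)],[([z1,z0,z1,z0,z1,z1],z2)],[]]],
    [.old (.leafM k8 [k0,k2,k4,k5] [(z1,[z0,z0,z1]),(z1,[y3,y3,y1,z3]),(z1,[z1])] [(k1,k3,z1,[z0,z1]),(k3,k1,z1,[z0,z1])]),
    .old (.leafM k9 [k0,k2,k4,k5] [(z1,[z0,z0,z1]),(z1,[y2,y2,y1,z2]),(z1,[z1])] [(k1,k3,z1,[z0,z1]),(k3,k1,z1,[z0,z1])]),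
    .old (.lp [k84,k150,k48,k80,k48,k60] [k33,k33,k0,k0,k51,k51,k35,k35,k51,k51,k45,k45] k0 [[k0,k0,k0,k0,k0,k0,k10],[],
    [],[],[],[],[],[k0,k10]] (nat_lit 240) k6
    [[(k10,k72),(k1,k84)],[(k9,k56),(k5,k66)],[(k6,k125),(k2,k150)],[(k7,k115),(k3,k150)],[(k4,k48),(k0,k66)],[(k5,
    k48),(k9,k48)],[(k6,k80),(k2,k115)],[(k7,k80),(k3,k125)],[(k4,k48),(k0,k56)],[(k8,k48),(k11,k54)],[(k8,k54),(k11,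
    k60)],[(k10,k60),(k1,k72)]]
    [] k0
    [[k1,k0,k0,k0,k1,k1],[k0,k0,k2,k0,k0,k0],[k0,k0,k3,k0,k0,k0],[k0,k0,k4,k0,k0,k0],[k0,k0,k0,k2,k0,k0],[k0,k0,k0,k0,
    k0,k2]]
    [.contra [z1,y1],.contra [z1],.ref k0 k0 [(z1,[z0,z1]),(z1,[z0,z0,z1]),(z1,[z1])],.ref k1 k0 [(z1,[z0,z1]),(z1,
    [z0,z0,z1]),(z2,[z1])],.contra [y1,z0,z2],.contra [z1]]),
    .old (.lp [k52,k158,k80,k80,k48,k60] [k53,k53,k0,k0,k39,k39,k39,k39,k55,k55,k49,k49] k0 [[k0,k0,k0,k0,k0,k0,k2],[],[],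
    [],[],[],[],[k0,k2]] (nat_lit 240) k6
    [[(k1,k52),(k10,k56)],[(k9,k48),(k5,k66)],[(k6,k121),(k2,k158)],[(k7,k119),(k3,k158)],[(k0,k66),(k4,k80)],[(k9,
    k64),(k5,k80)],[(k6,k80),(k2,k119)],[(k7,k80),(k3,k121)],[(k0,k48),(k4,k64)],[(k8,k48),(k11,k54)],[(k8,k54),(k11,
    k60)],[(k1,k56),(k10,k60)]]
    [] k0
    [[k2,k0,k0,k0,k2,k0],[k1,k0,k0,k0,k1,k1],[k0,k0,k2,k0,k0,k0],[k0,k0,k0,k2,k0,k0],[k0,k0,k0,k0,k0,k2]]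
    [.ref k2 k0 [(z2,[z1]),(z1,[z0,y1,z1])],.contra [y1,z1],.contra [z1],.contra [y1,y2,z2],.contra [z1]]),
    .old (.lp [k20,k18,k16,k16,k12,k12] [k0,k0,k1,k1,k2,k2,k2,k2,k4,k4,k4,k4] k0 [[k0,k0,k6],[k0,k0,k0,k0,k0,k0,k0,k4],[],
    [k0,k6],[k0,k0,k0,k0,k0,k0,k2],[],[k4],[k0,k0,k0,k0,k0,k2]] k48 k5
    [[(k10,k16),(k1,k20)],[(k5,k12),(k9,k20)],[(k6,k13),(k2,k24)],[(k7,k17),(k3,k24)],[(k0,k12),(k4,k16)],[(k9,k12),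
    (k5,k16)],[(k2,k17),(k6,k18)],[(k3,k13),(k7,k18)],[(k4,k12),(k0,k20)],[(k8,k12),(k11,k12)],[(k8,k12),(k11,k12)],
    [(k10,k12),(k1,k16)]]
    [] k0
    [[k0,k1,k0,k1,k0,k0],[k0,k0,k2,k0,k0,k0],[k0,k0,k0,k2,k0,k0],[k0,k0,k0,k0,k0,k2]]
    [.ref k3 k0 [(z1,[y1,z1])],.contra [z1],.contra [z1],.contra [z1]])]⟩

/-- classes `0 0 0 0 1 2`, types `N0 N1 N0 N2 C0 C0` -/
noncomputable def cU6_287 : CertX :=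
  ⟨[k12,k13,k12,k14,k20,k36],[],[[[]]],
    [.old (.lp [k4,k4,k6,k2,k4,k2] [k1,k1,k1,k1,k0,k0,k2,k2,k1,k1,k2,k2] k0 [[k0,k0,k2],[],[],[k0,k2]] k12 k5
    [[(k10,k3)],[(k5,k3),(k6,k3)],[(k9,k4),(k2,k6)],[(k7,k3),(k3,k6)],[(k0,k3),(k4,k6)],[(k6,k4),(k5,k6)],[(k2,k3),
    (k9,k3)],[(k0,k3),(k4,k4)],[(k7,k3),(k3,k4)],[(k11,k3)],[(k8,k3)],[(k1,k3)]]
    [] k0
    []
    [])]⟩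

/-- classes `0 0 0 0 1 2`, types `N0 N1 N0 N2 C0 S0` -/
noncomputable def cU6_288 : CertX :=
  ⟨[k12,k13,k12,k14,k20,k32],[],[[[]]],
    [.old (.lp [k12,k18,k24,k10,k12,k12] [k6,k6,k3,k3,k0,k0,k7,k7,k6,k6,k6,k6] k0 [[k0,k0,k6],[k0,k0,k0,k0,k0,k0,k1],[],
    [k0,k6],[k0,k0,k0,k0,k0,k0,k0,k1],[],[k0,k0,k0,k0,k0,k1],[k1]] k48 k5
    [[(k1,k12),(k10,k12)],[(k5,k12),(k6,k12)],[(k9,k14),(k2,k24)],[(k7,k14),(k3,k24)],[(k0,k12),(k4,k24)],[(k6,k16),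
    (k5,k24)],[(k9,k12),(k2,k14)],[(k0,k12),(k4,k16)],[(k7,k12),(k3,k14)],[(k11,k12)],[(k8,k12)],[(k1,k12),(k10,k12)]]
    [] k0
    []
    [])]⟩

/-- classes `0 0 0 0 1 2`, types `N0 N1 N0 N2 S0 C0` -/
noncomputable def cU6_289 : CertX :=
  ⟨[k12,k13,k12,k14,k16,k36],[],[[[]]],
    [.old (.lp [k12,k18,k24,k10,k12,k12] [k6,k6,k3,k3,k0,k0,k7,k7,k6,k6,k6,k6] k0 [[k0,k0,k6],[k0,k0,k0,k0,k0,k0,k1],[],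
    [k0,k6],[k0,k0,k0,k0,k0,k0,k0,k1],[],[k0,k0,k0,k0,k0,k1],[k1]] k48 k5
    [[(k10,k12)],[(k5,k12),(k6,k12)],[(k9,k14),(k2,k24)],[(k7,k14),(k3,k24)],[(k0,k12),(k4,k24)],[(k6,k16),(k5,k24)],
    [(k9,k12),(k2,k14)],[(k0,k12),(k4,k16)],[(k7,k12),(k3,k14)],[(k8,k12),(k11,k12)],[(k8,k12),(k11,k12)],[(k1,k12)]]
    [] k0
    []
    [])]⟩

/-- classes `0 0 0 0 1 2`, types `N0 N1 N0 N2 S0 S0` -/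
noncomputable def cU6_290 : CertX :=
  ⟨[k12,k13,k12,k14,k16,k32],[],[[[]]],
    [.old (.lp [k6,k10,k10,k6,k6,k6] [k2,k2,k0,k0,k0,k0,k2,k2,k2,k2,k2,k2] k0 [[k0,k0,k2],[],[k0,k0,k0,k0,k2],[k0,k2],[],
    [k0,k0,k0,k2]] k24 k5
    [[(k1,k6),(k10,k6)],[(k5,k6),(k6,k6)],[(k9,k8),(k2,k12)],[(k7,k6),(k3,k12)],[(k0,k6),(k4,k12)],[(k6,k8),(k5,k12)],
    [(k2,k6),(k9,k6)],[(k0,k6),(k4,k8)],[(k7,k6),(k3,k8)],[(k8,k6),(k11,k6)],[(k8,k6),(k11,k6)],[(k1,k6),(k10,k6)]]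
    [] k0
    [[k0,k0,k0,k0,k0,k2]]
    [.contra [z1]])]⟩

/-- classes `0 0 0 0 1 2`, types `N0 N1 N1 N0 C0 C0` -/
noncomputable def cU6_291 : CertX :=
  ⟨[k12,k13,k13,k12,k20,k36],[],[[[]]],
    [.old (.lp [k2,k6,k4,k4,k2,k4] [k2,k2,k0,k0,k1,k1,k1,k1,k2,k2,k1,k1] k0 [] k12 k5
    [[(k10,k3)],[(k5,k3),(k7,k3)],[(k4,k5),(k2,k6)],[(k9,k4),(k3,k6)],[(k0,k3),(k6,k4)],[(k9,k3),(k3,k5)],[(k0,k3),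
    (k6,k4)],[(k5,k4),(k7,k4)],[(k4,k3),(k2,k4)],[(k11,k3)],[(k8,k3)],[(k1,k3)]]
    [] k0
    [[k0,k0,k0,k2,k0,k0]]
    [.contra [z1]])]⟩

/-- classes `0 0 0 0 1 2`, types `N0 N1 N1 N0 C0 S0` -/
noncomputable def cU6_292 : CertX :=
  ⟨[k12,k13,k13,k12,k20,k32],[],[[[]]],
    [.old (.lp [k6,k12,k6,k8,k6,k6] [k3,k3,k0,k0,k3,k3,k2,k2,k3,k3,k3,k3] k0 [] k24 k5
    [[(k1,k6),(k10,k6)],[(k5,k6),(k7,k7)],[(k4,k9),(k2,k12)],[(k9,k9),(k3,k12)],[(k0,k6),(k6,k7)],[(k9,k6),(k3,k9)],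
    [(k0,k7),(k6,k8)],[(k5,k7),(k7,k8)],[(k4,k6),(k2,k9)],[(k11,k6)],[(k8,k6)],[(k1,k6),(k10,k6)]]
    [] k0
    [[k0,k0,k0,k2,k0,k0]]
    [.contra [z1]])]⟩

/-- classes `0 0 0 0 1 2`, types `N0 N1 N1 N0 S0 S0` -/
noncomputable def cU6_293 : CertX :=
  ⟨[k12,k13,k13,k12,k16,k32],[],[[[]]],
    [.old (.lp [k6,k8,k6,k12,k6,k6] [k3,k3,k2,k2,k3,k3,k0,k0,k3,k3,k3,k3] k0 [] k24 k5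
    [[(k1,k6),(k10,k6)],[(k5,k6),(k7,k9)],[(k4,k7),(k2,k8)],[(k9,k7),(k3,k8)],[(k0,k6),(k6,k9)],[(k9,k6),(k3,k7)],
    [(k0,k9),(k6,k12)],[(k5,k9),(k7,k12)],[(k4,k6),(k2,k7)],[(k8,k6),(k11,k6)],[(k8,k6),(k11,k6)],[(k1,k6),(k10,k6)]]
    [] k0
    [[k0,k2,k0,k0,k0,k0],[k0,k0,k0,k0,k0,k2]]
    [.contra [z1],.contra [z1]])]⟩

/-- classes `0 0 0 0 1 2`, types `N0 N1 N1 N3 C0 C0` -/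
noncomputable def cU6_294 : CertX :=
  ⟨[k12,k13,k13,k15,k20,k36],[],[[[]]],
    [.old (.lp [k2,k4,k2,k2,k2,k2] [k1,k1,k0,k0,k1,k1,k1,k1,k1,k1,k1,k1] k0 [] k8 k5
    [[(k10,k2)],[(k5,k2),(k7,k2)],[(k4,k3),(k2,k4)],[(k6,k3),(k3,k4)],[(k0,k2),(k9,k2)],[(k6,k2),(k3,k3)],[(k0,k2),
    (k9,k2)],[(k4,k2),(k2,k3)],[(k5,k2),(k7,k2)],[(k11,k2)],[(k8,k2)],[(k1,k2)]]
    [] k0
    []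
    [])]⟩

/-- classes `0 0 0 0 1 2`, types `N0 N1 N1 N3 C0 S0` -/
noncomputable def cU6_295 : CertX :=
  ⟨[k12,k13,k13,k15,k20,k32],[],[[[]]],
    [.old (.lp [k2,k4,k2,k2,k2,k2] [k1,k1,k0,k0,k1,k1,k1,k1,k1,k1,k1,k1] k0 [] k8 k5
    [[(k1,k2),(k10,k2)],[(k5,k2),(k7,k2)],[(k4,k3),(k2,k4)],[(k6,k3),(k3,k4)],[(k0,k2),(k9,k2)],[(k6,k2),(k3,k3)],
    [(k0,k2),(k9,k2)],[(k4,k2),(k2,k3)],[(k5,k2),(k7,k2)],[(k11,k2)],[(k8,k2)],[(k1,k2),(k10,k2)]]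
    [] k0
    []
    [])]⟩

/-- classes `0 0 0 0 1 2`, types `N0 N1 N1 N3 S0 C0` -/
noncomputable def cU6_296 : CertX :=
  ⟨[k12,k13,k13,k15,k16,k36],[],[[[]]],
    [.old (.lp [k2,k4,k2,k2,k2,k2] [k1,k1,k0,k0,k1,k1,k1,k1,k1,k1,k1,k1] k0 [] k8 k5
    [[(k10,k2)],[(k5,k2),(k7,k2)],[(k4,k3),(k2,k4)],[(k6,k3),(k3,k4)],[(k0,k2),(k9,k2)],[(k6,k2),(k3,k3)],[(k0,k2),
    (k9,k2)],[(k4,k2),(k2,k3)],[(k5,k2),(k7,k2)],[(k8,k2),(k11,k2)],[(k8,k2),(k11,k2)],[(k1,k2)]]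
    [] k0
    []
    [])]⟩

/-- classes `0 0 0 0 1 2`, types `N0 N1 N1 N3 S0 S0` -/
noncomputable def cU6_297 : CertX :=
  ⟨[k12,k13,k13,k15,k16,k32],[],[[[]]],
    [.old (.lp [k2,k4,k2,k2,k2,k2] [k1,k1,k0,k0,k1,k1,k1,k1,k1,k1,k1,k1] k0 [] k8 k5
    [[(k1,k2),(k10,k2)],[(k5,k2),(k7,k2)],[(k4,k3),(k2,k4)],[(k6,k3),(k3,k4)],[(k0,k2),(k9,k2)],[(k6,k2),(k3,k3)],
    [(k0,k2),(k9,k2)],[(k4,k2),(k2,k3)],[(k5,k2),(k7,k2)],[(k8,k2),(k11,k2)],[(k8,k2),(k11,k2)],[(k1,k2),(k10,k2)]]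
    [] k0
    [[k0,k0,k0,k0,k0,k2]]
    [.contra [z1]])]⟩

/-- classes `0 0 0 0 1 2`, types `N0 N1 N2 N0 C0 C0` -/
noncomputable def cU6_298 : CertX :=
  ⟨[k12,k13,k14,k12,k20,k36],[],[[[]]],
    [.old (.lp [k2,k4,k2,k2,k2,k2] [k1,k1,k0,k0,k1,k1,k1,k1,k1,k1,k1,k1] k0 [] k8 k5
    [[(k10,k2)],[(k4,k2),(k5,k2)],[(k7,k3),(k2,k4)],[(k9,k3),(k3,k4)],[(k0,k2),(k6,k2)],[(k0,k2),(k6,k2)],[(k9,k2),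
    (k3,k3)],[(k4,k2),(k5,k2)],[(k7,k2),(k2,k3)],[(k11,k2)],[(k8,k2)],[(k1,k2)]]
    [] k0
    []
    [])]⟩

/-- classes `0 0 0 0 1 2`, types `N0 N1 N2 N0 C0 S0` -/
noncomputable def cU6_299 : CertX :=
  ⟨[k12,k13,k14,k12,k20,k32],[],[[[]]],
    [.old (.lp [k10,k10,k6,k6,k6,k6] [k0,k0,k0,k0,k2,k2,k2,k2,k2,k2,k2,k2] k0 [[k0,k0,k2],[],[],[k0,k2]] k24 k5
    [[(k10,k8),(k1,k10)],[(k5,k6),(k4,k8)],[(k7,k8),(k2,k12)],[(k9,k8),(k3,k12)],[(k0,k6),(k6,k6)],[(k6,k6),(k0,k8)],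
    [(k9,k6),(k3,k8)],[(k4,k6),(k5,k6)],[(k7,k6),(k2,k8)],[(k11,k6)],[(k8,k6)],[(k10,k6),(k1,k8)]]
    [] k0
    []
    [])]⟩

/-- classes `0 0 0 0 1 2`, types `N0 N1 N2 N0 S0 C0` -/
noncomputable def cU6_300 : CertX :=
  ⟨[k12,k13,k14,k12,k16,k36],[],[[[]]],
    [.old (.lp [k2,k4,k2,k2,k2,k2] [k1,k1,k0,k0,k1,k1,k1,k1,k1,k1,k1,k1] k0 [] k8 k5
    [[(k10,k2)],[(k4,k2),(k5,k2)],[(k7,k3),(k2,k4)],[(k9,k3),(k3,k4)],[(k0,k2),(k6,k2)],[(k0,k2),(k6,k2)],[(k9,k2),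
    (k3,k3)],[(k4,k2),(k5,k2)],[(k7,k2),(k2,k3)],[(k8,k2),(k11,k2)],[(k8,k2),(k11,k2)],[(k1,k2)]]
    [] k0
    []
    [])]⟩

/-- classes `0 0 0 0 1 2`, types `N0 N1 N2 N0 S0 S0` -/
noncomputable def cU6_301 : CertX :=
  ⟨[k12,k13,k14,k12,k16,k32],[],[[[]]],
    [.old (.lp [k10,k10,k6,k6,k6,k6] [k0,k0,k0,k0,k2,k2,k2,k2,k2,k2,k2,k2] k0 [[k0,k0,k2],[],[],[k0,k2]] k24 k5
    [[(k10,k8),(k1,k10)],[(k5,k6),(k4,k8)],[(k7,k8),(k2,k12)],[(k9,k8),(k3,k12)],[(k0,k6),(k6,k6)],[(k6,k6),(k0,k8)],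
    [(k9,k6),(k3,k8)],[(k4,k6),(k5,k6)],[(k7,k6),(k2,k8)],[(k8,k6),(k11,k6)],[(k8,k6),(k11,k6)],[(k10,k6),(k1,k8)]]
    [] k0
    [[k0,k0,k0,k0,k0,k2]]
    [.contra [z1]])]⟩

/-- classes `0 0 0 0 1 2`, types `N0 N1 N2 N3 C0 C0` -/
noncomputable def cU6_302 : CertX :=
  ⟨[k12,k13,k14,k15,k20,k36],[(false,k0,[k0,k1,k2,k3,k4,k5])],[[[([z1,z0,z1,z0,z1,z1],z2)],[]]],
    [.old (.leafM k1 [k4,k5,k0,k2] [] [(k1,k3,z1,[y1,z1]),(k3,k1,z1,[y1,z1])]),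
    .old (.lp [k0,k6,k6,k4,k0,k6] [k3,k3,k0,k0,k0,k0,k1,k1,k3,k3,k0,k0] k0 [] k12 k5
    [[(k10,k3)],[(k4,k3),(k5,k3)],[(k7,k5),(k2,k6)],[(k6,k5),(k3,k6)],[(k0,k3),(k9,k3)],[(k0,k3),(k9,k3)],[(k6,k4),
    (k3,k5)],[(k7,k4),(k2,k5)],[(k4,k3),(k5,k3)],[(k11,k3)],[(k8,k3)],[(k1,k3)]]
    [] k0
    [[k0,k1,k0,k1,k0,k0],[k0,k0,k0,k2,k0,k0]]
    [.ref k0 k0 [(z1,[y1,z1])],.contra [z1]])]⟩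

/-- classes `0 0 0 0 1 2`, types `N0 N1 N2 N3 C0 S0` -/
noncomputable def cU6_303 : CertX :=
  ⟨[k12,k13,k14,k15,k20,k32],[(false,k0,[k0,k1,k2,k3,k4,k5])],[[[([z1,z0,z1,z0,z1,z1],z2)],[]]],
    [.old (.leafM k1 [k4,k5,k0,k2] [] [(k1,k3,z1,[y1,z1]),(k3,k1,z1,[y1,z1])]),
    .old (.lp [k10,k10,k6,k8,k6,k6] [k0,k0,k0,k0,k2,k2,k1,k1,k2,k2,k2,k2] k0 [[k0,k0,k2],[],[],[k0,k2]] k24 k5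
    [[(k10,k8),(k1,k10)],[(k5,k6),(k4,k8)],[(k7,k9),(k2,k12)],[(k6,k9),(k3,k12)],[(k0,k6),(k9,k6)],[(k9,k6),(k0,k8)],
    [(k6,k8),(k3,k9)],[(k7,k8),(k2,k9)],[(k4,k6),(k5,k6)],[(k11,k6)],[(k8,k6)],[(k10,k6),(k1,k8)]]
    [] k0
    [[k0,k1,k0,k1,k0,k0],[k0,k0,k0,k2,k0,k0]]
    [.ref k0 k0 [(z1,[y1,z1])],.contra [z1]])]⟩

/-- classes `0 0 0 0 1 2`, types `N0 N1 N2 N3 S0 S0` -/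
noncomputable def cU6_304 : CertX :=
  ⟨[k12,k13,k14,k15,k16,k32],[(false,k0,[k0,k1,k2,k3,k4,k5])],[[[([z1,z0,z1,z0,z1,z1],z2)],[]]],
    [.old (.leafM k1 [k4,k5,k0,k2] [] [(k1,k3,z1,[y1,z1]),(k3,k1,z1,[y1,z1])]),
    .old (.lp [k12,k8,k0,k8,k12,k6] [k0,k0,k2,k2,k6,k6,k2,k2,k0,k0,k3,k3] k0 [] k24 k5
    [[(k10,k9),(k1,k12)],[(k4,k6),(k5,k6)],[(k2,k8),(k7,k8)],[(k3,k8),(k6,k8)],[(k0,k6),(k9,k6)],[(k0,k6),(k9,k6)],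
    [(k3,k8),(k6,k8)],[(k2,k8),(k7,k8)],[(k4,k6),(k5,k6)],[(k11,k9),(k8,k12)],[(k11,k6),(k8,k9)],[(k10,k6),(k1,k9)]]
    [] k0
    [[k0,k2,k0,k0,k0,k0],[k0,k1,k0,k1,k0,k0],[k0,k0,k0,k2,k0,k0],[k0,k0,k0,k0,k0,k2]]
    [.contra [z1],.ref k0 k0 [(z1,[y1,z1])],.contra [z1],.contra [z1]])]⟩

/-- classes `0 0 0 0 1 2`, types `N0 N1 N3 N1 C0 C0` -/
noncomputable def cU6_305 : CertX :=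
  ⟨[k12,k13,k15,k13,k20,k36],[(false,k0,[k0,k1,k2,k3,k4,k5])],[[[([z1,z0,z0,z0,z1,z1],z2)],[]]],
    [.old (.leafM k4 [k1,k2,k3,k4,k5,k0] [(z1,[z1])] []),
    .old (.lp [k6,k8,k14,k6,k6,k6] [k4,k4,k3,k3,k0,k0,k4,k4,k4,k4,k4,k4] k0 [[k0,k0,k4],[],[k0,k0,k0,k0,k0,k4],[k0,k4],
    [k0,k0,k0,k4]] k24 k5
    [[(k10,k6)],[(k5,k6),(k9,k6)],[(k6,k7),(k2,k12)],[(k4,k7),(k3,k12)],[(k0,k6),(k7,k14)],[(k2,k7),(k6,k10)],[(k9,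
    k6),(k5,k14)],[(k3,k7),(k4,k10)],[(k0,k6),(k7,k6)],[(k11,k6)],[(k8,k6)],[(k1,k6)]]
    [] k0
    [[k1,k0,k0,k0,k1,k1]]
    [.ref k0 k0 [(z1,[z1])]])]⟩

/-- classes `0 0 0 0 1 2`, types `N0 N1 N3 N1 C0 S0` -/
noncomputable def cU6_306 : CertX :=
  ⟨[k12,k13,k15,k13,k20,k32],[(false,k0,[k0,k1,k2,k3,k4,k5])],[[[([z1,z0,z0,z0,z1,z1],z2)],[]]],
    [.old (.leafM k4 [k1,k2,k3,k4,k5,k0] [(z1,[z1])] []),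
    .old (.lp [k40,k18,k36,k46,k24,k24] [k3,k3,k14,k14,k5,k5,k0,k0,k11,k11,k11,k11] k0 [[k0,k0,k14],[k0,k0,k0,k0,k0,k0,k0,
    k8],[k0,k0,k0,k0,k0,k3],[k0,k14],[k0,k0,k0,k3],[k0,k0,k0,k0,k0,k0,k11],[k8],[k0,k0,k0,k0,k11]] k96 k5
    [[(k10,k32),(k1,k40)],[(k5,k24),(k9,k40)],[(k6,k24),(k2,k32)],[(k4,k24),(k3,k32)],[(k0,k24),(k7,k44)],[(k2,k24),
    (k6,k52)],[(k9,k24),(k5,k44)],[(k3,k24),(k4,k52)],[(k7,k24),(k0,k40)],[(k11,k24)],[(k8,k24)],[(k10,k24),(k1,k32)]]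
    [] k0
    [[k0,k2,k0,k0,k0,k0],[k0,k1,k1,k1,k0,k0]]
    [.contra [z1],.ref k0 k0 [(z1,[y1,z1])]])]⟩

/-- classes `0 0 0 0 1 2`, types `N0 N1 N3 N1 S0 C0` -/
noncomputable def cU6_307 : CertX :=
  ⟨[k12,k13,k15,k13,k16,k36],[(false,k0,[k0,k1,k2,k3,k4,k5])],[[[([z1,z0,z0,z0,z1,z1],z2)],[]]],
    [.old (.leafM k4 [k1,k2,k3,k4,k5,k0] [(z1,[z1])] []),
    .old (.lp [k40,k18,k36,k46,k24,k24] [k3,k3,k14,k14,k5,k5,k0,k0,k11,k11,k11,k11] k0 [[k0,k0,k14],[k0,k0,k0,k0,k0,k0,k0,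
    k8],[k0,k0,k0,k0,k0,k3],[k0,k14],[k0,k0,k0,k3],[k0,k0,k0,k0,k0,k0,k11],[k8],[k0,k0,k0,k0,k11]] k96 k5
    [[(k10,k32)],[(k5,k24),(k9,k40)],[(k6,k24),(k2,k32)],[(k4,k24),(k3,k32)],[(k0,k24),(k7,k44)],[(k2,k24),(k6,k52)],
    [(k9,k24),(k5,k44)],[(k3,k24),(k4,k52)],[(k7,k24),(k0,k40)],[(k8,k24),(k11,k24)],[(k8,k24),(k11,k24)],[(k1,k32)]]
    [] k0
    [[k0,k2,k0,k0,k0,k0],[k0,k1,k1,k1,k0,k0]]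
    [.contra [z1],.ref k0 k0 [(z1,[y1,z1])]])]⟩

/-- classes `0 0 0 0 1 2`, types `N0 N1 N3 N1 S0 S0` -/
noncomputable def cU6_308 : CertX :=
  ⟨[k12,k13,k15,k13,k16,k32],[(false,k0,[k0,k1,k2,k3,k4,k5])],[[[([z1,z0,z0,z0,z1,z1],z2)],[]]],
    [.old (.leafM k4 [k1,k2,k3,k4,k5,k0] [(z1,[z1])] []),
    .old (.lp [k40,k18,k36,k46,k24,k24] [k3,k3,k14,k14,k5,k5,k0,k0,k11,k11,k11,k11] k0 [[k0,k0,k14],[k0,k0,k0,k0,k0,k0,k0,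
    k8],[k0,k0,k0,k0,k0,k3],[k0,k14],[k0,k0,k0,k3],[k0,k0,k0,k0,k0,k0,k11],[k8],[k0,k0,k0,k0,k11]] k96 k5
    [[(k10,k32),(k1,k40)],[(k5,k24),(k9,k40)],[(k6,k24),(k2,k32)],[(k4,k24),(k3,k32)],[(k0,k24),(k7,k44)],[(k2,k24),
    (k6,k52)],[(k9,k24),(k5,k44)],[(k3,k24),(k4,k52)],[(k7,k24),(k0,k40)],[(k8,k24),(k11,k24)],[(k8,k24),(k11,k24)],
    [(k10,k24),(k1,k32)]]
    [] k0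
    [[k0,k2,k0,k0,k0,k0],[k0,k1,k1,k1,k0,k0],[k0,k0,k0,k0,k0,k2]]
    [.contra [z1],.ref k0 k0 [(z1,[y1,z1])],.contra [z1]])]⟩

/-- classes `0 0 0 0 1 2`, types `N0 N1 N3 N2 C0 C0` -/
noncomputable def cU6_309 : CertX :=
  ⟨[k12,k13,k15,k14,k20,k36],[],[[[]]],
    [.old (.lp [k2,k6,k4,k4,k2,k4] [k2,k2,k0,k0,k1,k1,k1,k1,k2,k2,k1,k1] k0 [] k12 k5
    [[(k10,k3)],[(k5,k3),(k6,k3)],[(k9,k4),(k2,k6)],[(k4,k5),(k3,k6)],[(k0,k3),(k7,k4)],[(k9,k3),(k2,k5)],[(k5,k4),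
    (k6,k4)],[(k0,k3),(k7,k4)],[(k4,k3),(k3,k4)],[(k11,k3)],[(k8,k3)],[(k1,k3)]]
    [] k0
    [[k0,k0,k0,k2,k0,k0]]
    [.contra [z1]])]⟩

/-- classes `0 0 0 0 1 2`, types `N0 N1 N3 N2 C0 S0` -/
noncomputable def cU6_310 : CertX :=
  ⟨[k12,k13,k15,k14,k20,k32],[],[[[]]],
    [.old (.lp [k6,k12,k6,k8,k6,k6] [k3,k3,k0,k0,k3,k3,k2,k2,k3,k3,k3,k3] k0 [] k24 k5
    [[(k1,k6),(k10,k6)],[(k5,k6),(k6,k7)],[(k9,k9),(k2,k12)],[(k4,k9),(k3,k12)],[(k0,k6),(k7,k7)],[(k9,k6),(k2,k9)],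
    [(k5,k7),(k6,k8)],[(k0,k7),(k7,k8)],[(k4,k6),(k3,k9)],[(k11,k6)],[(k8,k6)],[(k1,k6),(k10,k6)]]
    [] k0
    [[k0,k0,k0,k2,k0,k0]]
    [.contra [z1]])]⟩

/-- classes `0 0 0 0 1 2`, types `N0 N1 N3 N2 S0 S0` -/
noncomputable def cU6_311 : CertX :=
  ⟨[k12,k13,k15,k14,k16,k32],[],[[[]]],
    [.old (.lp [k6,k8,k6,k12,k6,k6] [k3,k3,k2,k2,k3,k3,k0,k0,k3,k3,k3,k3] k0 [] k24 k5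
    [[(k1,k6),(k10,k6)],[(k5,k6),(k6,k9)],[(k9,k7),(k2,k8)],[(k4,k7),(k3,k8)],[(k0,k6),(k7,k9)],[(k9,k6),(k2,k7)],
    [(k5,k9),(k6,k12)],[(k0,k9),(k7,k12)],[(k4,k6),(k3,k7)],[(k8,k6),(k11,k6)],[(k8,k6),(k11,k6)],[(k1,k6),(k10,k6)]]
    [] k0
    [[k0,k2,k0,k0,k0,k0],[k0,k0,k0,k0,k0,k2]]
    [.contra [z1],.contra [z1]])]⟩

/-- classes `0 0 0 0 1 2`, types `N0 N2 N0 N2 C0 C0` -/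
noncomputable def cU6_312 : CertX :=
  ⟨[k12,k14,k12,k14,k20,k36],[(false,k0,[k0,k1,k2,k3,k4,k5]),(true,k4,[k4,k3,k2,k1,k0,k5])],[[[([z1,z0,z0,z1,z1,z1],
    z2),([z0,z1,z0,y1,z0,z0],z0)],[([z1,z0,z0,z1,z1,z1],z2)],[]]],
    [.old (.tor k7 false k0 [(z1,[y1,y1,z1]),(z1,[y1,z0,z1]),(z1,[z1]),(z1,[z1,z1])]),
    .old (.lp [k0,k10,k0,k6,k0,k6] [k5,k5,k0,k0,k5,k5,k2,k2,k5,k5,k2,k2] k0 [[k0,k0,k0,k2],[],[k0,k2]] k12 k5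
    [[(k10,k3)],[(k2,k3),(k6,k3)],[(k9,k5),(k5,k7)],[(k0,k3),(k4,k5)],[(k7,k3),(k3,k7)],[(k6,k3),(k2,k5)],[(k5,k3),
    (k9,k3)],[(k0,k3),(k4,k3)],[(k7,k3),(k3,k5)],[(k11,k3)],[(k8,k3)],[(k1,k3)]]
    [] k0
    [[k0,k0,k1,k1,k0,k0]]
    [.ref k0 k0 [(z1,[z0,z1]),(z1,[y1,y1,z1])]]),
    .old (.lp [k0,k10,k0,k6,k0,k6] [k5,k5,k0,k0,k5,k5,k2,k2,k5,k5,k2,k2] k0 [[k0,k0,k0,k2],[],[k0,k2]] k12 k5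
    [[(k10,k3)],[(k2,k3),(k6,k3)],[(k9,k5),(k5,k7)],[(k0,k3),(k4,k5)],[(k7,k3),(k3,k7)],[(k6,k3),(k2,k5)],[(k5,k3),
    (k9,k3)],[(k0,k3),(k4,k3)],[(k7,k3),(k3,k5)],[(k11,k3)],[(k8,k3)],[(k1,k3)]]
    [] k0
    [[k0,k0,k1,k1,k0,k0]]
    [.ref k1 k1 [(z1,[y1,z1])]])]⟩

/-- classes `0 0 0 0 1 2`, types `N0 N2 N0 N2 C0 S0` -/
noncomputable def cU6_313 : CertX :=
  ⟨[k12,k14,k12,k14,k20,k32],[(false,k0,[k0,k1,k2,k3,k4,k5])],[[[([z1,z0,z0,z1,z1,z1],z2),([z0,z1,z0,y1,z0,z0],z0)],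
    [([z1,z0,z0,z1,z1,z1],z2)],[]]],
    [.old (.tor k7 false k0 [(z1,[y1,y1,z1]),(z1,[y1,z0,z1]),(z1,[z1]),(z1,[z1,z1])]),
    .old (.lp [k6,k14,k6,k6,k6,k6] [k4,k4,k0,k0,k4,k4,k4,k4,k4,k4,k4,k4] k0 [[k0,k0,k0,k4],[],[k0,k4]] k24 k5
    [[(k1,k6),(k10,k6)],[(k2,k6),(k6,k6)],[(k9,k10),(k5,k14)],[(k0,k6),(k4,k10)],[(k7,k6),(k3,k14)],[(k6,k6),(k2,
    k10)],[(k5,k6),(k9,k6)],[(k0,k6),(k4,k6)],[(k7,k6),(k3,k10)],[(k11,k6)],[(k8,k6)],[(k1,k6),(k10,k6)]]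
    [] k0
    [[k0,k0,k1,k1,k0,k0]]
    [.ref k0 k0 [(z1,[z0,z1]),(z1,[y1,y1,z1])]]),
    .old (.lp [k6,k6,k14,k6,k6,k6] [k4,k4,k4,k4,k0,k0,k4,k4,k4,k4,k4,k4] k0 [[],[],[k0,k0,k0,k0,k0,k4],[],[k0,k0,k0,
    k4]] k24 k5
    [[(k1,k6),(k10,k6)],[(k2,k6),(k6,k6)],[(k9,k6),(k5,k10)],[(k0,k6),(k4,k6)],[(k3,k10),(k7,k14)],[(k2,k6),(k6,k10)],
    [(k9,k6),(k5,k14)],[(k0,k6),(k4,k10)],[(k3,k6),(k7,k6)],[(k11,k6)],[(k8,k6)],[(k1,k6),(k10,k6)]]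
    [] k0
    [[k0,k1,k1,k0,k0,k0]]
    [.ref k1 k0 [(z1,[y1,z1])]])]⟩

/-- classes `0 0 0 0 1 2`, types `N0 N2 N0 N2 S0 S0` -/
noncomputable def cU6_314 : CertX :=
  ⟨[k12,k14,k12,k14,k16,k32],[(false,k0,[k0,k1,k2,k3,k4,k5]),(true,k4,[k4,k3,k2,k1,k0,k5])],[[[([z1,z0,z0,z1,z1,z1],
    z2),([z0,z1,z0,y1,z0,z0],z0)],[([z1,z0,z0,z1,z1,z1],z2)],[]]],
    [.old (.tor k7 false k0 [(z1,[y1,y1,z1]),(z1,[y1,z0,z1]),(z1,[z1]),(z1,[z1,z1])]),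
    .old (.lp [k6,k14,k6,k6,k6,k6] [k4,k4,k0,k0,k4,k4,k4,k4,k4,k4,k4,k4] k0 [[k0,k0,k0,k4],[],[k0,k4]] k24 k5
    [[(k1,k6),(k10,k6)],[(k2,k6),(k6,k6)],[(k9,k10),(k5,k14)],[(k0,k6),(k4,k10)],[(k7,k6),(k3,k14)],[(k6,k6),(k2,
    k10)],[(k5,k6),(k9,k6)],[(k0,k6),(k4,k6)],[(k7,k6),(k3,k10)],[(k8,k6),(k11,k6)],[(k8,k6),(k11,k6)],[(k1,k6),(k10,
    k6)]]
    [] k0
    [[k0,k0,k1,k1,k0,k0],[k0,k0,k0,k0,k0,k2]]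
    [.ref k0 k0 [(z1,[z0,z1]),(z1,[y1,y1,z1])],.contra [z1]]),
    .old (.lp [k6,k14,k6,k6,k6,k6] [k4,k4,k0,k0,k4,k4,k4,k4,k4,k4,k4,k4] k0 [[k0,k0,k0,k4],[],[k0,k4]] k24 k5
    [[(k1,k6),(k10,k6)],[(k2,k6),(k6,k6)],[(k9,k10),(k5,k14)],[(k0,k6),(k4,k10)],[(k7,k6),(k3,k14)],[(k6,k6),(k2,
    k10)],[(k5,k6),(k9,k6)],[(k0,k6),(k4,k6)],[(k7,k6),(k3,k10)],[(k8,k6),(k11,k6)],[(k8,k6),(k11,k6)],[(k1,k6),(k10,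
    k6)]]
    [] k0
    [[k0,k0,k1,k1,k0,k0],[k0,k0,k0,k0,k0,k2]]
    [.ref k1 k1 [(z1,[y1,z1])],.contra [z1]])]⟩

/-- classes `0 0 0 0 1 2`, types `N0 N2 N1 N3 C0 C0` -/
noncomputable def cU6_315 : CertX :=
  ⟨[k12,k14,k13,k15,k20,k36],[],[[[]]],
    [.old (.lp [k0,k2,k0,k2,k0,k2] [k1,k1,k0,k0,k1,k1,k0,k0,k1,k1,k0,k0] k0 [] k4 k5
    [[(k10,k1)],[(k2,k1),(k7,k1)],[(k4,k1),(k5,k1)],[(k0,k1),(k9,k1)],[(k3,k1),(k6,k1)],[(k3,k1),(k6,k1)],[(k0,k1),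
    (k9,k1)],[(k4,k1),(k5,k1)],[(k2,k1),(k7,k1)],[(k11,k1)],[(k8,k1)],[(k1,k1)]]
    [] k0
    []
    [])]⟩

/-- classes `0 0 0 0 1 2`, types `N0 N2 N1 N3 C0 S0` -/
noncomputable def cU6_316 : CertX :=
  ⟨[k12,k14,k13,k15,k20,k32],[],[[[]]],
    [.old (.lp [k2,k2,k2,k2,k2,k2] [k0,k0,k0,k0,k0,k0,k0,k0,k0,k0,k0,k0] k0 [] k8 k5
    [[(k1,k2),(k10,k2)],[(k2,k2),(k7,k2)],[(k4,k2),(k5,k2)],[(k0,k2),(k9,k2)],[(k3,k2),(k6,k2)],[(k3,k2),(k6,k2)],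
    [(k0,k2),(k9,k2)],[(k4,k2),(k5,k2)],[(k2,k2),(k7,k2)],[(k11,k2)],[(k8,k2)],[(k1,k2),(k10,k2)]]
    [] k0
    []
    [])]⟩

/-- classes `0 0 0 0 1 2`, types `N0 N2 N1 N3 S0 S0` -/
noncomputable def cU6_317 : CertX :=
  ⟨[k12,k14,k13,k15,k16,k32],[],[[[]]],
    [.old (.lp [k2,k2,k2,k2,k2,k4] [k1,k1,k1,k1,k1,k1,k1,k1,k1,k1,k0,k0] k0 [] k8 k5
    [[(k1,k2),(k10,k3)],[(k2,k2),(k7,k2)],[(k4,k2),(k5,k2)],[(k0,k2),(k9,k2)],[(k3,k2),(k6,k2)],[(k3,k2),(k6,k2)],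
    [(k0,k2),(k9,k2)],[(k4,k2),(k5,k2)],[(k2,k2),(k7,k2)],[(k8,k2),(k11,k3)],[(k8,k3),(k11,k4)],[(k1,k3),(k10,k4)]]
    [] k0
    []
    [])]⟩

/-- classes `0 0 0 0 1 2`, types `N0 N2 N2 N0 C0 C0` -/
noncomputable def cU6_318 : CertX :=
  ⟨[k12,k14,k14,k12,k20,k36],[(false,k0,[k0,k1,k2,k3,k4,k5])],[[[([z1,z0,z1,z0,z1,z1],z2)],[]]],
    [.old (.leafM k1 [k4,k5,k0,k2] [] [(k1,k3,z1,[y1,z1]),(k3,k1,z1,[y1,z1])]),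
    .old (.lp [k2,k2,k2,k2,k2,k2] [k0,k0,k0,k0,k0,k0,k0,k0,k0,k0,k0,k0] k0 [] k8 k5
    [[(k10,k2)],[(k2,k2),(k4,k2)],[(k5,k2),(k7,k2)],[(k0,k2),(k6,k2)],[(k3,k2),(k9,k2)],[(k0,k2),(k6,k2)],[(k3,k2),
    (k9,k2)],[(k2,k2),(k4,k2)],[(k5,k2),(k7,k2)],[(k11,k2)],[(k8,k2)],[(k1,k2)]]
    [] k0
    [[k0,k1,k0,k1,k0,k0]]
    [.ref k0 k0 [(z1,[y1,z1])]])]⟩

/-- classes `0 0 0 0 1 2`, types `N0 N2 N2 N0 C0 S0` -/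
noncomputable def cU6_319 : CertX :=
  ⟨[k12,k14,k14,k12,k20,k32],[(false,k0,[k0,k1,k2,k3,k4,k5])],[[[([z1,z0,z1,z0,z1,z1],z2)],[]]],
    [.old (.leafM k1 [k4,k5,k0,k2] [] [(k1,k3,z1,[y1,z1]),(k3,k1,z1,[y1,z1])]),
    .old (.lp [k2,k2,k2,k2,k2,k2] [k0,k0,k0,k0,k0,k0,k0,k0,k0,k0,k0,k0] k0 [] k8 k5
    [[(k1,k2),(k10,k2)],[(k2,k2),(k4,k2)],[(k5,k2),(k7,k2)],[(k0,k2),(k6,k2)],[(k3,k2),(k9,k2)],[(k0,k2),(k6,k2)],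
    [(k3,k2),(k9,k2)],[(k2,k2),(k4,k2)],[(k5,k2),(k7,k2)],[(k11,k2)],[(k8,k2)],[(k1,k2),(k10,k2)]]
    [] k0
    [[k0,k1,k0,k1,k0,k0]]
    [.ref k0 k0 [(z1,[y1,z1])]])]⟩

/-- classes `0 0 0 0 1 2`, types `N0 N2 N2 N0 S0 S0` -/
noncomputable def cU6_320 : CertX :=
  ⟨[k12,k14,k14,k12,k16,k32],[(false,k0,[k0,k1,k2,k3,k4,k5])],[[[([z1,z0,z1,z0,z1,z1],z2)],[]]],
    [.old (.leafM k1 [k4,k5,k0,k2] [] [(k1,k3,z1,[y1,z1]),(k3,k1,z1,[y1,z1])]),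
    .old (.lp [k2,k2,k2,k2,k2,k4] [k1,k1,k1,k1,k1,k1,k1,k1,k1,k1,k0,k0] k0 [] k8 k5
    [[(k1,k2),(k10,k3)],[(k2,k2),(k4,k2)],[(k5,k2),(k7,k2)],[(k0,k2),(k6,k2)],[(k3,k2),(k9,k2)],[(k0,k2),(k6,k2)],
    [(k3,k2),(k9,k2)],[(k2,k2),(k4,k2)],[(k5,k2),(k7,k2)],[(k8,k2),(k11,k3)],[(k8,k3),(k11,k4)],[(k1,k3),(k10,k4)]]
    [] k0
    [[k0,k1,k0,k1,k0,k0]]
    [.ref k0 k0 [(z1,[y1,z1])]])]⟩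

/-- classes `0 0 0 0 1 2`, types `N0 N2 N3 N1 C0 C0` -/
noncomputable def cU6_321 : CertX :=
  ⟨[k12,k14,k15,k13,k20,k36],[(false,k0,[k0,k1,k2,k3,k4,k5])],[[[([z1,z0,z1,z0,z1,z1],z2)],[]]],
    [.old (.lp [k6,k6,k10,k24,k6,k6] [k9,k9,k9,k9,k7,k7,k0,k0,k9,k9,k9,k9] k0 [] k30 k6
    [[(k10,k6)],[(k2,k6),(k9,k6)],[(k5,k8),(k6,k15)],[(k0,k6),(k7,k15)],[(k3,k8),(k4,k10)],[(k5,k10),(k6,k17)],[(k2,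
    k15),(k9,k15)],[(k3,k15),(k4,k17)],[(k0,k6),(k7,k15)],[(k11,k6)],[(k8,k6)],[(k1,k6)]]
    [] k0
    [[k1,k0,k0,k0,k1,k1],[k0,k0,k2,k0,k0,k0]]
    [.contra [y1,z1],.contra [z1]]),
    .old (.lp [k12,k4,k8,k10,k12,k0] [k0,k0,k4,k4,k2,k2,k1,k1,k0,k0,k6,k6] k0 [[k0,k0,k0,k2],[],[k0,k2]] k24 k5
    [[(k10,k6)],[(k2,k6),(k9,k12)],[(k6,k7),(k5,k8)],[(k0,k6),(k7,k7)],[(k3,k8),(k4,k8)],[(k5,k8),(k6,k9)],[(k2,k7),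
    (k9,k11)],[(k3,k7),(k4,k9)],[(k7,k11),(k0,k12)],[(k11,k6)],[(k8,k6)],[(k1,k6)]]
    [] k0
    [[k0,k1,k0,k1,k0,k0],[k0,k0,k2,k0,k0,k0]]
    [.ref k0 k0 [(z1,[y1,z1])],.contra [z1]])]⟩

/-- classes `0 0 0 0 1 2`, types `N0 N2 N3 N1 C0 S0` -/
noncomputable def cU6_322 : CertX :=
  ⟨[k12,k14,k15,k13,k20,k32],[(false,k0,[k0,k1,k2,k3,k4,k5])],[[[([z1,z0,z1,z0,z1,z1],z2)],[]]],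
    [.old (.lp [k6,k24,k10,k6,k6,k6] [k9,k9,k0,k0,k7,k7,k9,k9,k9,k9,k9,k9] k0 [] k30 k6
    [[(k1,k6),(k10,k6)],[(k9,k6),(k2,k15)],[(k6,k15),(k5,k17)],[(k0,k15),(k7,k15)],[(k4,k10),(k3,k17)],[(k6,k8),(k5,
    k10)],[(k9,k6),(k2,k15)],[(k4,k8),(k3,k15)],[(k0,k6),(k7,k6)],[(k11,k6)],[(k8,k6)],[(k1,k6),(k10,k6)]]
    [] k0
    [[k1,k0,k0,k0,k1,k1],[k0,k0,k2,k0,k0,k0]]
    [.contra [y1,z1],.contra [z1]]),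
    .old (.lp [k6,k10,k8,k4,k8,k10] [k2,k2,k0,k0,k1,k1,k3,k3,k1,k1,k0,k0] k0 [[k0,k0,k0,k2],[],[k0,k2]] k24 k5
    [[(k1,k6),(k10,k8)],[(k2,k6),(k9,k7)],[(k6,k7),(k5,k11)],[(k0,k6),(k7,k7)],[(k4,k8),(k3,k11)],[(k6,k6),(k5,k8)],
    [(k9,k6),(k2,k7)],[(k4,k6),(k3,k7)],[(k7,k6),(k0,k7)],[(k11,k9)],[(k8,k9)],[(k1,k8),(k10,k10)]]
    [] k0
    [[k0,k1,k0,k1,k0,k0],[k0,k0,k2,k0,k0,k0]]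
    [.ref k0 k0 [(z1,[y1,z1])],.contra [z1]])]⟩

/-- classes `0 0 0 0 1 2`, types `N0 N2 N3 N1 S0 S0` -/
noncomputable def cU6_323 : CertX :=
  ⟨[k12,k14,k15,k13,k16,k32],[(false,k0,[k0,k1,k2,k3,k4,k5])],[[[([z1,z0,z0,z0,z1,z0],z1),([z0,z1,z0,z1,z0,z0],z2),
    ([z0,z0,z3,z0,z0,z0],z2)],[([z1,z0,z0,z0,z1,z0],z1),([z0,z1,z0,z1,z0,z0],z2),([z0,z0,z2,z0,z0,z0],z1)],[([z1,z0,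
    z0,z0,z1,z0],z1),([z0,z1,z0,z1,z0,z0],z2)],[([z1,z0,z1,z0,z1,z1],z2)],[]]],
    [.old (.leafM k8 [k0,k2,k4,k5] [(z1,[z0,z0,z1]),(z1,[y3,y3,y1,z3]),(z1,[z1])] [(k1,k3,z1,[z0,z1]),(k3,k1,z1,[z0,z1])]),
    .old (.leafM k9 [k0,k2,k4,k5] [(z1,[z0,z0,z1]),(z1,[y2,y2,y1,z2]),(z1,[z1])] [(k1,k3,z1,[z0,z1]),(k3,k1,z1,[z0,z1])]),
    .old (.lp [k12,k32,k8,k8,k8,k10] [k10,k10,k0,k0,k12,k12,k12,k12,k12,k12,k11,k11] k0 [] k40 k6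
    [[(k10,k11),(k1,k12)],[(k9,k10),(k2,k22)],[(k5,k20),(k6,k20)],[(k7,k20),(k0,k22)],[(k4,k8),(k3,k20)],[(k5,k8),(k6,
    k8)],[(k9,k8),(k2,k20)],[(k4,k8),(k3,k20)],[(k7,k8),(k0,k10)],[(k8,k8),(k11,k9)],[(k8,k9),(k11,k10)],[(k10,k10),
    (k1,k11)]]
    [] k0
    [[k1,k0,k0,k0,k1,k1],[k0,k0,k2,k0,k0,k0],[k0,k0,k3,k0,k0,k0],[k0,k0,k4,k0,k0,k0],[k0,k0,k0,k0,k0,k2]]
    [.contra [z1,y1],.contra [z1],.ref k0 k0 [(z1,[z0,z1]),(z1,[z0,z0,z1]),(z1,[z1])],.ref k1 k0 [(z1,[z0,z1]),(z1,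
    [z0,z0,z1]),(z2,[z1])],.contra [z1]]),
    .old (.lp [k24,k96,k40,k24,k24,k30] [k36,k36,k0,k0,k28,k28,k36,k36,k36,k36,k33,k33] k0 [] k120 k6
    [[(k1,k24),(k10,k27)],[(k9,k24),(k2,k60)],[(k6,k60),(k5,k68)],[(k0,k60),(k7,k60)],[(k4,k40),(k3,k68)],[(k6,k32),
    (k5,k40)],[(k9,k24),(k2,k60)],[(k4,k32),(k3,k60)],[(k0,k24),(k7,k24)],[(k8,k24),(k11,k27)],[(k8,k27),(k11,k30)],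
    [(k1,k27),(k10,k30)]]
    [] k0
    [[k2,k0,k0,k0,k2,k0],[k1,k0,k0,k0,k1,k1],[k0,k0,k2,k0,k0,k0],[k0,k0,k0,k0,k0,k2]]
    [.ref k2 k0 [(z2,[z1]),(z1,[z0,y1,z1])],.contra [y1,z1],.contra [z1],.contra [z1]]),
    .old (.lp [k12,k18,k16,k12,k12,k24] [k6,k6,k3,k3,k4,k4,k6,k6,k6,k6,k0,k0] k0 [[k0,k0,k0,k2],[],[k0,k2]] k48 k5
    [[(k1,k12),(k10,k18)],[(k9,k12),(k2,k13)],[(k6,k15),(k5,k19)],[(k0,k13),(k7,k15)],[(k4,k16),(k3,k19)],[(k6,k14),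
    (k5,k16)],[(k9,k12),(k2,k15)],[(k4,k14),(k3,k15)],[(k0,k12),(k7,k12)],[(k8,k12),(k11,k18)],[(k8,k18),(k11,k24)],
    [(k1,k18),(k10,k24)]]
    [] k0
    [[k0,k1,k0,k1,k0,k0],[k0,k0,k2,k0,k0,k0]]
    [.ref k3 k0 [(z1,[y1,z1])],.contra [z1]])]⟩

/-- classes `0 0 0 0 1 2`, types `N0 N3 N1 N2 C0 C0` -/
noncomputable def cU6_324 : CertX :=
  ⟨[k12,k15,k13,k14,k20,k36],[],[[[]]],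
    [.old (.lp [k0,k2,k0,k2,k0,k2] [k1,k1,k0,k0,k1,k1,k0,k0,k1,k1,k0,k0] k0 [] k4 k5
    [[(k10,k1)],[(k6,k1),(k7,k1)],[(k4,k1),(k9,k1)],[(k4,k1),(k9,k1)],[(k6,k1),(k7,k1)],[(k2,k1),(k3,k1)],[(k0,k1),
    (k5,k1)],[(k0,k1),(k5,k1)],[(k2,k1),(k3,k1)],[(k11,k1)],[(k8,k1)],[(k1,k1)]]
    [] k0
    []
    [])]⟩

/-- classes `0 0 0 0 1 2`, types `N0 N3 N1 N2 C0 S0` -/
noncomputable def cU6_325 : CertX :=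
  ⟨[k12,k15,k13,k14,k20,k32],[],[[[]]],
    [.old (.lp [k6,k4,k4,k4,k4,k4] [k0,k0,k1,k1,k1,k1,k1,k1,k1,k1,k1,k1] k0 [] k16 k5
    [[(k10,k5),(k1,k6)],[(k6,k5),(k7,k5)],[(k4,k4),(k9,k4)],[(k4,k4),(k9,k4)],[(k6,k4),(k7,k4)],[(k2,k4),(k3,k4)],
    [(k5,k4),(k0,k5)],[(k5,k4),(k0,k5)],[(k2,k4),(k3,k4)],[(k11,k4)],[(k8,k4)],[(k10,k4),(k1,k5)]]
    [] k0
    []
    [])]⟩

/-- classes `0 0 0 0 1 2`, types `N0 N3 N1 N2 S0 S0` -/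
noncomputable def cU6_326 : CertX :=
  ⟨[k12,k15,k13,k14,k16,k32],[],[[[]]],
    [.old (.lp [k2,k4,k0,k4,k2,k2] [k1,k1,k0,k0,k2,k2,k0,k0,k1,k1,k1,k1] k0 [] k8 k5
    [[(k1,k2),(k10,k2)],[(k6,k3),(k7,k3)],[(k4,k2),(k9,k3)],[(k4,k2),(k9,k3)],[(k6,k2),(k7,k2)],[(k2,k2),(k3,k2)],
    [(k5,k2),(k0,k3)],[(k5,k2),(k0,k3)],[(k2,k3),(k3,k3)],[(k8,k2),(k11,k2)],[(k8,k2),(k11,k2)],[(k1,k2),(k10,k2)]]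
    [] k0
    [[k0,k0,k0,k0,k0,k2]]
    [.contra [z1]])]⟩

/-- classes `0 0 0 0 1 2`, types `N0 N3 N2 N1 C0 C0` -/
noncomputable def cU6_327 : CertX :=
  ⟨[k12,k15,k14,k13,k20,k36],[(false,k0,[k0,k1,k2,k3,k4,k5])],[[[([z1,z0,z1,z0,z1,z1],z2)],[]]],
    [.old (.leafM k1 [k4,k5,k0,k2] [] [(k1,k3,z1,[y1,z1]),(k3,k1,z1,[y1,z1])]),
    .old (.lp [k6,k0,k4,k6,k6,k0] [k0,k0,k3,k3,k1,k1,k0,k0,k0,k0,k3,k3] k0 [] k12 k5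
    [[(k10,k3)],[(k4,k5),(k9,k6)],[(k6,k3),(k7,k3)],[(k6,k3),(k7,k3)],[(k4,k4),(k9,k5)],[(k5,k4),(k0,k5)],[(k2,k3),
    (k3,k3)],[(k2,k3),(k3,k3)],[(k5,k5),(k0,k6)],[(k11,k3)],[(k8,k3)],[(k1,k3)]]
    [] k0
    [[k0,k1,k0,k1,k0,k0],[k0,k0,k2,k0,k0,k0]]
    [.ref k0 k0 [(z1,[y1,z1])],.contra [z1]])]⟩

/-- classes `0 0 0 0 1 2`, types `N0 N3 N2 N1 C0 S0` -/
noncomputable def cU6_328 : CertX :=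
  ⟨[k12,k15,k14,k13,k20,k32],[(false,k0,[k0,k1,k2,k3,k4,k5])],[[[([z1,z0,z1,z0,z1,z1],z2)],[]]],
    [.old (.leafM k1 [k4,k5,k0,k2] [] [(k1,k3,z1,[y1,z1]),(k3,k1,z1,[y1,z1])]),
    .old (.lp [k4,k6,k4,k0,k2,k6] [k1,k1,k0,k0,k1,k1,k3,k3,k2,k2,k0,k0] k0 [] k12 k5
    [[(k1,k4),(k10,k5)],[(k9,k3),(k4,k4)],[(k6,k3),(k7,k3)],[(k6,k3),(k7,k3)],[(k9,k3),(k4,k4)],[(k0,k4),(k5,k4)],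
    [(k2,k3),(k3,k3)],[(k2,k3),(k3,k3)],[(k0,k3),(k5,k3)],[(k11,k4)],[(k8,k4)],[(k1,k5),(k10,k6)]]
    [] k0
    [[k0,k1,k0,k1,k0,k0],[k0,k0,k2,k0,k0,k0]]
    [.ref k0 k0 [(z1,[y1,z1])],.contra [z1]])]⟩

/-- classes `0 0 0 0 1 2`, types `N0 N3 N2 N1 S0 S0` -/
noncomputable def cU6_329 : CertX :=
  ⟨[k12,k15,k14,k13,k16,k32],[(false,k0,[k0,k1,k2,k3,k4,k5])],[[[([z1,z0,z1,z0,z1,z1],z2)],[]]],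
    [.old (.leafM k1 [k4,k5,k0,k2] [] [(k1,k3,z1,[y1,z1]),(k3,k1,z1,[y1,z1])]),
    .old (.lp [k6,k12,k8,k0,k6,k12] [k3,k3,k0,k0,k2,k2,k6,k6,k3,k3,k0,k0] k0 [] k24 k5
    [[(k1,k6),(k10,k9)],[(k9,k6),(k4,k7)],[(k6,k6),(k7,k6)],[(k6,k6),(k7,k6)],[(k9,k7),(k4,k8)],[(k0,k7),(k5,k8)],
    [(k2,k6),(k3,k6)],[(k2,k6),(k3,k6)],[(k0,k6),(k5,k7)],[(k8,k6),(k11,k9)],[(k8,k9),(k11,k12)],[(k1,k9),(k10,k12)]]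
    [] k0
    [[k0,k1,k0,k1,k0,k0],[k0,k0,k2,k0,k0,k0]]
    [.ref k0 k0 [(z1,[y1,z1])],.contra [z1]])]⟩

/-- classes `0 0 0 0 1 2`, types `S0 S0 S0 S0 C0 C0` -/
noncomputable def cU6_330 : CertX :=
  ⟨[k0,k0,k0,k0,k20,k36],[(false,k0,[k0,k1,k2,k3,k4,k5]),(true,k4,[k4,k3,k2,k1,k0,k5])],[[[([z1,z0,z0,z1,z1,z1],z2)],
    [([z1,z0,z1,z0,z1,z1],z2)],[([z1,z0,z0,z0,z1,z1],z2)],[]]],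
    [.old (.leafM k0 [k0,k3,k4,k5] [] [(k1,k2,z1,[y1,z1]),(k2,k1,z1,[y1,z1])]),
    .old (.leafM k1 [k4,k5,k0,k2] [] [(k1,k3,z1,[y1,z1]),(k3,k1,z1,[y1,z1])]),
    .old (.leafM k0 [k0,k1,k2,k3,k4,k5] [(z1,[y1,z1])] []),
    .old (.lp [k6,k8,k12,k8,k6,k6] [k3,k3,k2,k2,k0,k0,k2,k2,k3,k3,k3,k3] k0 [] k24 k5
    [[(k10,k6)],[(k0,k6),(k9,k6),(k2,k7),(k3,k7),(k6,k7),(k7,k7),(k4,k9),(k5,k9)],[(k0,k7),(k9,k7),(k2,k8),(k3,k8),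
    (k6,k8),(k7,k8),(k4,k10),(k5,k10)],[(k0,k7),(k9,k7),(k2,k8),(k3,k8),(k6,k8),(k7,k8),(k4,k10),(k5,k10)],[(k0,k9),
    (k9,k9),(k2,k10),(k3,k10),(k6,k10),(k7,k10),(k4,k12),(k5,k12)],[(k0,k9),(k9,k9),(k2,k10),(k3,k10),(k6,k10),(k7,
    k10),(k4,k12),(k5,k12)],[(k0,k7),(k9,k7),(k2,k8),(k3,k8),(k6,k8),(k7,k8),(k4,k10),(k5,k10)],[(k0,k7),(k9,k7),(k2,
    k8),(k3,k8),(k6,k8),(k7,k8),(k4,k10),(k5,k10)],[(k0,k6),(k9,k6),(k2,k7),(k3,k7),(k6,k7),(k7,k7),(k4,k9),(k5,k9)],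
    [(k11,k6)],[(k8,k6)],[(k1,k6)]]
    [] k0
    [[k1,k0,k0,k0,k1,k1],[k0,k2,k0,k0,k0,k0],[k0,k1,k1,k0,k0,k0],[k0,k1,k0,k1,k0,k0],[k0,k0,k1,k1,k0,k0],[k0,k0,k0,k2,
    k0,k0]]
    [.ref k2 k0 [(z1,[z1])],.contra [z1],.ref k0 k0 [(z1,[y1,z1])],.ref k1 k0 [(z1,[y1,z1])],.ref k0 k1 [(z1,[y1,
    z1])],.contra [z1]])]⟩

/-- classes `0 0 0 0 1 2`, types `S0 S0 S0 S0 C0 S0` -/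
noncomputable def cU6_331 : CertX :=
  ⟨[k0,k0,k0,k0,k20,k32],[(false,k0,[k0,k1,k2,k3,k4,k5])],[[[([z1,z1,z0,z0,z1,z1],z2)],[([z1,z0,z1,z0,z1,z1],z2)],
    [([z1,z0,z0,z1,z1,z1],z2)],[([z1,z0,z0,z0,z1,z1],z2)],[]]],
    [.old (.leafM k0 [k0,k1,k4,k5] [] [(k2,k3,z1,[y1,z1]),(k3,k2,z1,[y1,z1])]),
    .old (.leafM k1 [k4,k5,k0,k2] [] [(k1,k3,z1,[y1,z1]),(k3,k1,z1,[y1,z1])]),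
    .old (.leafM k0 [k0,k3,k4,k5] [] [(k1,k2,z1,[y1,z1]),(k2,k1,z1,[y1,z1])]),
    .old (.leafM k0 [k0,k1,k2,k3,k4,k5] [(z1,[y1,z1])] []),
    .old (.lp [k14,k16,k24,k16,k12,k12] [k5,k5,k4,k4,k0,k0,k4,k4,k6,k6,k6,k6] k0 [[],[k0,k0,k4,k0,k0,k4],[],[k4],
    [k4]] k48 k5
    [[(k10,k13),(k1,k14)],[(k9,k13),(k0,k14),(k3,k15),(k6,k15),(k2,k19),(k4,k19),(k5,k19),(k7,k19)],[(k9,k14),(k0,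
    k15),(k2,k16),(k3,k16),(k4,k16),(k5,k16),(k6,k16),(k7,k16)],[(k9,k14),(k2,k16),(k3,k16),(k6,k16),(k7,k16),(k0,
    k19),(k4,k20),(k5,k20)],[(k3,k16),(k9,k18),(k0,k19),(k2,k20),(k6,k20),(k7,k20),(k4,k24),(k5,k24)],[(k3,k16),(k9,
    k18),(k0,k19),(k2,k20),(k6,k20),(k7,k20),(k4,k24),(k5,k24)],[(k9,k14),(k2,k16),(k3,k16),(k6,k16),(k7,k16),(k0,
    k19),(k4,k20),(k5,k20)],[(k9,k14),(k0,k15),(k2,k16),(k3,k16),(k6,k16),(k7,k16),(k4,k20),(k5,k20)],[(k9,k12),(k0,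
    k13),(k2,k14),(k3,k14),(k6,k14),(k7,k14),(k4,k18),(k5,k18)],[(k11,k12)],[(k8,k12)],[(k10,k12),(k1,k13)]]
    [] k0
    [[k2,k0,k0,k0,k0,k0],[k1,k0,k0,k0,k1,k1],[k0,k2,k0,k0,k0,k0],[k0,k1,k1,k0,k0,k0],[k0,k1,k0,k1,k0,k0],[k0,k0,k1,k1,
    k0,k0],[k0,k0,k0,k2,k0,k0]]
    [.contra [z1],.ref k3 k0 [(z1,[z1])],.contra [z1],.ref k2 k0 [(z1,[y1,z1])],.ref k1 k0 [(z1,[y1,z1])],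
    .ref k0 k0 [(z1,[y1,z1])],.contra [z1]])]⟩

/-- classes `0 0 0 1 0 1`, types `B0 B0 B1 B0 B1 B1` -/
noncomputable def cU6_332 : CertX :=
  ⟨[k8,k8,k9,k24,k9,k25],[(false,k0,[k0,k1,k2,k3,k4,k5])],[[[([z1,z0,z0,z0,z1,z0],z2)],[([z1,z0,z0,z1,z0,z0],z2)],
    [([z1,z0,z1,z0,z1,z0],z2)],[]]],
    [.old (.leafM k3 [k1,k2,k3,k5] [] [(k4,k0,z1,[z1]),(k0,k4,z1,[z1])]),
    .old (.leafM k5 [k1,k2,k4,k5] [] [(k3,k0,z1,[z1]),(k0,k3,z1,[z1])]),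
    .old (.leafM k5 [k0,k1,k2,k3,k4,k5] [(z1,[y1,z1]),(z1,[z1])] []),
    .old (.lp [k14,k24,k16,k14,k14,k10] [k5,k5,k0,k0,k4,k4,k5,k5,k5,k5,k7,k7] k0 [[],[],[k0,k0,k0,k0,k0,k4],[],[k0,k0,k0,
    k4]] k48 k5
    [[(k6,k14),(k9,k14)],[(k11,k12),(k7,k14),(k8,k14),(k4,k15)],[(k11,k17),(k7,k19),(k8,k19),(k4,k20)],[(k4,k16),(k11,
    k17),(k7,k19),(k8,k19)],[(k11,k13),(k8,k15),(k4,k16),(k7,k19)],[(k0,k15),(k2,k16),(k5,k16),(k3,k20)],[(k0,k14),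
    (k2,k19),(k3,k19),(k5,k19)],[(k10,k12),(k1,k14)],[(k10,k12),(k1,k14)],[(k0,k14),(k5,k15),(k2,k19),(k3,k19)],[(k0,
    k12),(k5,k13),(k2,k17),(k3,k17)],[(k6,k12),(k9,k12)]]
    [] k0
    [[k1,k0,k0,k1,k0,k0],[k1,k0,k0,k0,k1,k0],[k1,k0,k1,k0,k1,k0],[k0,k0,k2,k0,k0,k0]]
    [.ref k1 k0 [(z1,[z1])],.ref k0 k0 [(z1,[z1])],.ref k2 k0 [(z1,[z1])],.contra [z1]])]⟩

/-- classes `0 0 0 1 0 1`, types `B0 B0 B1 C0 B1 C0` -/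
noncomputable def cU6_333 : CertX :=
  ⟨[k8,k8,k9,k20,k9,k20],[(false,k0,[k0,k1,k2,k3,k4,k5])],[[[([z1,z0,z0,z0,z0,z1],z2)],[([z1,z0,z0,z1,z0,z0],z2)],
    [([z1,z0,z1,z0,z0,z1],z2)],[]]],
    [.old (.leafM k1 [k3,k4,k1,k2] [] [(k5,k0,z1,[z1]),(k0,k5,z1,[z1])]),
    .old (.leafM k5 [k1,k2,k4,k5] [] [(k3,k0,z1,[z1]),(k0,k3,z1,[z1])]),
    .old (.leafM k3 [k0,k1,k2,k3,k4,k5] [(z1,[y1,z1])] []),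
    .old (.lp [k6,k12,k20,k18,k18,k18] [k7,k7,k4,k4,k0,k0,k1,k1,k1,k1,k1,k1] k0 [[],[],[k0,k0,k0,k0,k0,k4],[],[k0,k0,k0,
    k4]] k48 k5
    [[(k6,k12),(k10,k12)],[(k7,k12),(k8,k12),(k11,k12),(k4,k13)],[(k7,k15),(k8,k15),(k11,k15),(k4,k16)],[(k4,k12),(k7,
    k15),(k8,k15),(k11,k15)],[(k8,k19),(k11,k19),(k4,k20),(k7,k23)],[(k2,k12),(k0,k13),(k3,k16),(k5,k20)],[(k0,k12),
    (k2,k15),(k3,k15),(k5,k23)],[(k1,k12),(k9,k18)],[(k6,k18),(k10,k18)],[(k0,k12),(k2,k15),(k3,k15),(k5,k19)],[(k0,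
    k12),(k2,k15),(k3,k15),(k5,k19)],[(k1,k12),(k9,k18)]]
    [] k0
    [[k1,k0,k0,k1,k0,k0],[k1,k0,k0,k0,k0,k1],[k1,k0,k1,k0,k0,k1],[k0,k0,k2,k0,k0,k0]]
    [.ref k1 k0 [(z1,[z1])],.ref k0 k0 [(z1,[z1])],.ref k2 k0 [(z1,[z1])],.contra [z1]])]⟩

/-- classes `0 0 0 1 0 1`, types `B0 B0 B1 C0 B1 C2` -/
noncomputable def cU6_334 : CertX :=
  ⟨[k8,k8,k9,k20,k9,k22],[(false,k0,[k0,k1,k2,k3,k4,k5])],[[[([z1,z0,z1,z0,z1,z0],z2)],[([z1,z0,z0,z0,z0,z1],z2)],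
    [([z1,z0,z0,z0,z1,z0],z2)],[([z1,z0,z1,z0,z0,z1],z2)],[]]],
    [.old (.leafM k5 [k0,k1,k2,k3,k4,k5] [(z1,[y1,z1]),(z1,[z1])] []),
    .old (.leafM k1 [k3,k4,k1,k2] [] [(k5,k0,z1,[z1]),(k0,k5,z1,[z1])]),
    .old (.leafM k3 [k1,k2,k3,k5] [] [(k4,k0,z1,[z1]),(k0,k4,z1,[z1])]),
    .old (.leafM k3 [k0,k1,k2,k3,k4,k5] [(z1,[y1,z1])] []),
    .old (.lp [k2,k2,k4,k4,k6,k4] [k2,k2,k2,k2,k1,k1,k1,k1,k0,k0,k1,k1] k0 [] k12 k5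
    [[(k10,k3),(k9,k4)],[(k4,k3),(k7,k3),(k11,k3),(k8,k4)],[(k4,k3),(k7,k3),(k11,k3),(k8,k4)],[(k4,k3),(k7,k3),(k11,
    k3),(k8,k4)],[(k4,k4),(k7,k4),(k11,k4),(k8,k5)],[(k0,k3),(k2,k3),(k3,k3),(k5,k4)],[(k0,k3),(k2,k3),(k3,k3),(k5,
    k4)],[(k10,k4),(k9,k5)],[(k1,k4),(k6,k5)],[(k0,k4),(k2,k4),(k3,k4),(k5,k5)],[(k0,k3),(k2,k3),(k3,k3),(k5,k4)],
    [(k1,k3),(k6,k4)]]
    [] k0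
    [[k1,k0,k0,k0,k1,k0],[k1,k0,k0,k0,k0,k1],[k1,k0,k1,k0,k0,k1],[k0,k1,k0,k1,k0,k1],[k0,k0,k2,k0,k0,k0]]
    [.ref k2 k0 [(z1,[z1])],.ref k1 k0 [(z1,[z1])],.ref k3 k0 [(z1,[z1])],.ref k0 k0 [(z1,[y1,z1])],.contra [z1]])]⟩

/-- classes `0 0 0 1 0 1`, types `B0 B0 B1 N0 B1 N1` -/
noncomputable def cU6_335 : CertX :=
  ⟨[k8,k8,k9,k28,k9,k29],[(false,k0,[k0,k1,k2,k3,k4,k5])],[[[([z1,z0,z0,z1,z0,z0],z2)],[]]],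
    [.old (.leafM k5 [k1,k2,k4,k5] [] [(k3,k0,z1,[z1]),(k0,k3,z1,[z1])]),
    .old (.lp [k6,k10,k10,k6,k6,k6] [k2,k2,k0,k0,k0,k0,k2,k2,k2,k2,k2,k2] k0 [[],[],[k0,k0,k0,k0,k2,k2],[k0,k0,k0,k0,k0,
    k0,k0,k0,k2,k2],[k0,k0,k0,k2],[k0,k0,k0,k2],[],[],[k0,k0,k2],[k0,k0,k2]] k24 k5
    [[(k6,k6)],[(k7,k6),(k8,k6),(k11,k6),(k4,k8)],[(k7,k8),(k8,k8),(k11,k8),(k4,k10)],[(k7,k6),(k4,k8),(k8,k10),(k11,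
    k10)],[(k8,k6),(k11,k6),(k7,k10),(k4,k12)],[(k0,k8),(k2,k8),(k3,k10),(k5,k12)],[(k0,k6),(k2,k6),(k3,k8),(k5,k10)],
    [(k1,k6)],[(k10,k6)],[(k0,k6),(k5,k6),(k3,k8),(k2,k10)],[(k0,k6),(k5,k6),(k3,k8),(k2,k10)],[(k9,k6)]]
    [] k0
    [[k1,k0,k0,k1,k0,k0]]
    [.ref k0 k0 [(z1,[z1])]])]⟩

/-- classes `0 0 0 1 0 1`, types `B0 B0 B1 N0 B1 N2` -/
noncomputable def cU6_336 : CertX :=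
  ⟨[k8,k8,k9,k28,k9,k30],[(false,k0,[k0,k1,k2,k3,k4,k5])],[[[([z1,z0,z0,z0,z1,z0],z2)],[([z1,z0,z1,z0,z1,z0],z2)],
    []]],
    [.old (.leafM k3 [k1,k2,k3,k5] [] [(k4,k0,z1,[z1]),(k0,k4,z1,[z1])]),
    .old (.leafM k5 [k0,k1,k2,k3,k4,k5] [(z1,[y1,z1]),(z1,[z1])] []),
    .old (.lp [k2,k2,k4,k4,k4,k6] [k2,k2,k2,k2,k1,k1,k1,k1,k1,k1,k0,k0] k0 [] k12 k5
    [[(k9,k3)],[(k4,k3),(k7,k3),(k8,k3),(k11,k4)],[(k4,k3),(k7,k3),(k8,k3),(k11,k4)],[(k4,k3),(k7,k3),(k8,k3),(k11,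
    k4)],[(k4,k4),(k7,k4),(k8,k4),(k11,k5)],[(k0,k3),(k2,k3),(k3,k3),(k5,k4)],[(k0,k3),(k2,k3),(k3,k3),(k5,k4)],[(k10,
    k5)],[(k1,k3)],[(k0,k3),(k2,k3),(k3,k3),(k5,k4)],[(k0,k4),(k2,k4),(k3,k4),(k5,k5)],[(k6,k5)]]
    [] k0
    [[k1,k0,k0,k0,k1,k0],[k1,k0,k1,k0,k1,k0],[k0,k0,k2,k0,k0,k0]]
    [.ref k0 k0 [(z1,[z1])],.ref k1 k0 [(z1,[z1])],.contra [z1]])]⟩

/-- classes `0 0 0 1 0 1`, types `B0 B0 B1 S0 B1 S0` -/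
noncomputable def cU6_337 : CertX :=
  ⟨[k8,k8,k9,k16,k9,k16],[(false,k0,[k0,k1,k2,k3,k4,k5])],[[[([z1,z0,z1,z0,z0,z1],z2)],[([z1,z0,z0,z0,z0,z1],z2)],
    [([z1,z0,z0,z0,z1,z0],z2)],[([z1,z0,z0,z1,z0,z0],z2)],[([z1,z0,z1,z0,z1,z0],z2)],[]]],
    [.old (.leafM k3 [k0,k1,k2,k3,k4,k5] [(z1,[y1,z1])] []),
    .old (.leafM k1 [k3,k4,k1,k2] [] [(k5,k0,z1,[z1]),(k0,k5,z1,[z1])]),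
    .old (.leafM k3 [k1,k2,k3,k5] [] [(k4,k0,z1,[z1]),(k0,k4,z1,[z1])]),
    .old (.leafM k5 [k1,k2,k4,k5] [] [(k3,k0,z1,[z1]),(k0,k3,z1,[z1])]),
    .old (.leafM k5 [k0,k1,k2,k3,k4,k5] [(z1,[y1,z1]),(z1,[z1])] []),
    .old (.lp [k16,k22,k16,k14,k12,k14] [k3,k3,k0,k0,k3,k3,k4,k4,k5,k5,k4,k4] k0 [[k0,k0,k0,k0,k0,k0,k0,k0,k2],[k0,k0,k0,
    k0,k2],[],[],[],[k2],[],[],[],[k0,k2]] k48 k5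
    [[(k9,k14),(k6,k15),(k10,k15),(k1,k16)],[(k11,k13),(k8,k14),(k7,k15),(k4,k18)],[(k7,k16),(k11,k18),(k4,k19),(k8,
    k19)],[(k8,k17),(k7,k18),(k11,k18),(k4,k19)],[(k8,k14),(k7,k15),(k11,k15),(k4,k16)],[(k5,k16),(k0,k18),(k2,k19),
    (k3,k19)],[(k0,k15),(k5,k15),(k3,k16),(k2,k18)],[(k9,k13),(k6,k14),(k10,k14),(k1,k15)],[(k9,k12),(k6,k13),(k10,
    k13),(k1,k14)],[(k0,k14),(k5,k14),(k2,k17),(k3,k19)],[(k0,k13),(k5,k15),(k2,k18),(k3,k18)],[(k9,k13),(k6,k14),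
    (k10,k14),(k1,k15)]]
    [] k0
    [[k1,k0,k0,k1,k0,k0],[k1,k0,k0,k0,k1,k0],[k1,k0,k1,k0,k1,k0],[k1,k0,k0,k0,k0,k1],[k0,k1,k0,k1,k1,k0],[k0,k0,k2,k0,
    k0,k0]]
    [.ref k3 k0 [(z1,[z1])],.ref k2 k0 [(z1,[z1])],.ref k4 k0 [(z1,[z1])],.ref k1 k0 [(z1,[z1])],.ref k0 k0 [(z1,[y1,
    z1])],.contra [z1]])]⟩

/-- classes `0 0 0 1 0 1`, types `B0 B1 B0 B0 B1 B1` -/
noncomputable def cU6_338 : CertX :=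
  ⟨[k8,k9,k8,k24,k9,k25],[(false,k0,[k0,k1,k2,k3,k4,k5]),(true,k3,[k3,k2,k1,k0,k5,k4])],[[[([z1,z0,z0,z0,z1,z0],z2)],
    [([z1,z0,z0,z1,z1,z1],z2),([z0,z1,z0,y1,z0,y1],z0)],[([z1,z1,z0,z0,z1,z0],z2)],[]]],
    [.old (.leafM k3 [k1,k2,k3,k5] [] [(k4,k0,z1,[z1]),(k0,k4,z1,[z1])]),
    .old (.tor k1 false k4 [(z1,[z1,z1]),(z1,[z1]),(z1,[y1,z0,z1]),(z1,[y1,y1,z1])]),
    .old (.lp [k40,k42,k44,k44,k36,k24] [k2,k2,k1,k1,k0,k0,k0,k0,k4,k4,k10,k10] k0 [[k0,k0,k0,k0,k0,k0,k0,k0,k2,k8],[],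
    [k0,k0,k0,k0,k0,k8],[k0,k0,k0,k0,k0,k2],[k0,k0,k2,k8],[],[],[],[k0,k8],[k0,k2]] k120 k5
    [[(k9,k38),(k6,k42)],[(k8,k30),(k11,k30),(k2,k41),(k5,k42)],[(k8,k41),(k11,k41),(k2,k42),(k5,k43)],[(k4,k35),(k0,
    k41),(k3,k42),(k7,k45)],[(k0,k42),(k4,k42),(k3,k43),(k7,k52)],[(k11,k34),(k2,k35),(k8,k40),(k5,k42)],[(k11,k34),
    (k8,k40),(k2,k45),(k5,k52)],[(k10,k34),(k1,k42)],[(k10,k30),(k1,k38)],[(k0,k30),(k4,k40),(k7,k40),(k3,k41)],[(k0,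
    k30),(k4,k34),(k7,k34),(k3,k41)],[(k9,k30),(k6,k34)]]
    [] k0
    [[k1,k0,k0,k0,k1,k0],[k0,k2,k0,k0,k0,k0],[k0,k1,k1,k0,k0,k0],[k0,k0,k2,k0,k0,k0],[k0,k0,k0,k1,k0,k1]]
    [.contra [y1,z1],.contra [z1],.ref k1 k0 [(z1,[y1,z0,z1]),(z1,[z1,z1,y1])],.contra [z1],.contra [y1,y1,z1]]),
    .old (.lp [k6,k12,k10,k6,k6,k6] [k3,k3,k0,k0,k1,k1,k3,k3,k3,k3,k3,k3] k0 [[],[k0,k0,k0,k2],[k2],[k0,k0,k0,k0,k2],[],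
    [k0,k0,k2]] k24 k5
    [[(k6,k6),(k9,k6)],[(k8,k6),(k11,k6),(k2,k9),(k5,k10)],[(k8,k9),(k11,k9),(k2,k10),(k5,k11)],[(k0,k9),(k7,k9),(k3,
    k10),(k4,k13)],[(k7,k6),(k0,k10),(k4,k10),(k3,k11)],[(k8,k8),(k11,k8),(k5,k10),(k2,k13)],[(k5,k6),(k8,k6),(k11,
    k6),(k2,k9)],[(k1,k6),(k10,k6)],[(k1,k6),(k10,k6)],[(k0,k6),(k7,k6),(k4,k8),(k3,k9)],[(k0,k6),(k7,k6),(k4,k8),(k3,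
    k9)],[(k6,k6),(k9,k6)]]
    [] k0
    [[k1,k0,k0,k0,k1,k0],[k0,k2,k0,k0,k0,k0],[k0,k0,k2,k0,k0,k0],[k0,k0,k1,k1,k0,k1],[k0,k0,k0,k1,k0,k1]]
    [.ref k0 k0 [(z1,[z1])],.contra [z1],.contra [z1],.ref k2 k0 [(z1,[y1,z1])],.ref k0 k1 [(z1,[z1])]])]⟩

/-- classes `0 0 0 1 0 1`, types `B0 B1 B0 C0 B1 C0` -/
noncomputable def cU6_339 : CertX :=
  ⟨[k8,k9,k8,k20,k9,k20],[(false,k0,[k0,k1,k2,k3,k4,k5]),(true,k3,[k3,k2,k1,k0,k5,k4])],[[[([z1,z0,z0,z0,z0,z1],z2)],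
    [([z1,z0,z0,z1,z1,z1],z2),([z0,z1,z0,y1,y1,z0],z0)],[([z1,z1,z0,z0,z0,z1],z2)],[]]],
    [.old (.leafM k1 [k3,k4,k1,k2] [] [(k5,k0,z1,[z1]),(k0,k5,z1,[z1])]),
    .old (.tor k9 false k0 [(z1,[y1,y1,z1]),(z1,[y1,z0,z1]),(z1,[z1]),(z1,[z1,z1])]),
    .old (.lp [k54,k88,k88,k66,k66,k98] [k22,k22,k5,k5,k5,k5,k16,k16,k16,k16,k0,k0] k0 [[k0,k0,k0,k0,k0,k0,k0,k0,k16],[],
    [k0,k0,k0,k0,k0,k20],[k0,k0,k0,k0,k0,k4],[k0,k0,k4,k20],[],[],[],[],[k0,k16]] (nat_lit 240) k5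
    [[(k6,k60),(k10,k76)],[(k8,k60),(k11,k60),(k2,k71),(k5,k71)],[(k2,k88),(k5,k88),(k8,k93),(k11,k93)],[(k4,k68),(k0,
    k71),(k7,k81),(k3,k88)],[(k0,k71),(k4,k84),(k3,k88),(k7,k97)],[(k2,k68),(k8,k77),(k5,k84),(k11,k93)],[(k8,k66),
    (k2,k81),(k11,k82),(k5,k97)],[(k1,k60),(k9,k66)],[(k6,k66),(k10,k82)],[(k0,k60),(k7,k66),(k4,k77),(k3,k93)],[(k0,
    k60),(k7,k82),(k3,k93),(k4,k93)],[(k1,k76),(k9,k82)]]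
    [] k0
    [[k1,k0,k0,k0,k0,k1],[k0,k2,k0,k0,k0,k0],[k0,k1,k1,k0,k0,k0],[k0,k0,k2,k0,k0,k0],[k0,k0,k0,k1,k1,k0]]
    [.contra [y1,z1],.contra [z1],.ref k1 k0 [(z1,[y1,z0,z1]),(z1,[z1,z1,y1])],.contra [z1],.contra [y1,y1,z1]]),
    .old (.lp [k6,k12,k10,k6,k6,k6] [k3,k3,k0,k0,k1,k1,k3,k3,k3,k3,k3,k3] k0 [[],[k0,k0,k0,k2],[k2],[k0,k0,k0,k0,k2],[],
    [k0,k0,k2]] k24 k5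
    [[(k6,k6),(k10,k6)],[(k8,k6),(k11,k6),(k2,k9),(k5,k10)],[(k8,k9),(k11,k9),(k2,k10),(k5,k11)],[(k0,k9),(k7,k9),(k3,
    k10),(k4,k13)],[(k7,k6),(k0,k10),(k4,k10),(k3,k11)],[(k8,k8),(k11,k8),(k5,k10),(k2,k13)],[(k5,k6),(k8,k6),(k11,
    k6),(k2,k9)],[(k1,k6),(k9,k6)],[(k6,k6),(k10,k6)],[(k0,k6),(k7,k6),(k4,k8),(k3,k9)],[(k0,k6),(k7,k6),(k4,k8),(k3,
    k9)],[(k1,k6),(k9,k6)]]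
    [] k0
    [[k1,k0,k0,k0,k0,k1],[k0,k2,k0,k0,k0,k0],[k0,k0,k2,k0,k0,k0],[k0,k0,k1,k1,k1,k0],[k0,k0,k0,k1,k1,k0]]
    [.ref k0 k0 [(z1,[z1])],.contra [z1],.contra [z1],.ref k2 k0 [(z1,[y1,z1])],.ref k0 k1 [(z1,[z1])]])]⟩

/-- classes `0 0 0 1 0 1`, types `B0 B1 B0 C0 B1 C2` -/
noncomputable def cU6_340 : CertX :=
  ⟨[k8,k9,k8,k20,k9,k22],[(false,k0,[k0,k1,k2,k3,k4,k5]),(true,k3,[k3,k2,k1,k0,k5,k4])],[[[([z1,z0,z0,z0,z1,z0],z2)],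
    [([z1,z0,z0,z0,z0,z1],z2)],[([z1,z0,z0,z1,z1,z1],z2),([z0,z1,z0,y1,z0,y1],z0)],[([z1,z0,z0,z1,z1,z1],z2),([z0,z1,
    z0,y1,y1,z0],z0)],[([z1,z0,z0,z1,z1,z1],z2)],[]]],
    [.old (.leafM k3 [k1,k2,k3,k5] [] [(k4,k0,z1,[z1]),(k0,k4,z1,[z1])]),
    .old (.leafM k1 [k3,k4,k1,k2] [] [(k5,k0,z1,[z1]),(k0,k5,z1,[z1])]),
    .old (.tor k1 false k4 [(z1,[z1,z1]),(z1,[z1]),(z1,[y1,z0,z1]),(z1,[y1,y1,z1])]),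
    .old (.tor k9 false k0 [(z1,[y1,y1,z1]),(z1,[y1,z0,z1]),(z1,[z1]),(z1,[z1,z1])]),
    .old (.lp [k6,k12,k10,k6,k6,k6] [k3,k3,k0,k0,k1,k1,k3,k3,k3,k3,k3,k3] k0 [[],[k0,k0,k0,k2],[k2],[k0,k0,k0,k0,k2],[],
    [k0,k0,k2]] k24 k5
    [[(k9,k6),(k10,k6)],[(k8,k6),(k11,k6),(k2,k9),(k5,k10)],[(k8,k9),(k11,k9),(k2,k10),(k5,k11)],[(k0,k9),(k7,k9),(k3,
    k10),(k4,k13)],[(k7,k6),(k0,k10),(k4,k10),(k3,k11)],[(k8,k8),(k11,k8),(k5,k10),(k2,k13)],[(k5,k6),(k8,k6),(k11,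
    k6),(k2,k9)],[(k9,k6),(k10,k6)],[(k1,k6),(k6,k6)],[(k0,k6),(k7,k6),(k4,k8),(k3,k9)],[(k0,k6),(k7,k6),(k4,k8),(k3,
    k9)],[(k1,k6),(k6,k6)]]
    [] k0
    [[k1,k0,k0,k0,k1,k0],[k1,k0,k0,k0,k0,k1],[k0,k2,k0,k0,k0,k0],[k0,k0,k2,k0,k0,k0],[k0,k0,k1,k1,k1,k0],[k0,k0,k1,k1,
    k0,k1],[k0,k0,k0,k1,k1,k0],[k0,k0,k0,k1,k0,k1]]
    [.contra [y1,z1],.contra [y1,z1],.contra [z1],.contra [y1,y2,z2],.ref k3 k0 [(z1,[z0,z1]),(z1,[y1,y1,z1])],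
    .ref k2 k0 [(z1,[z0,z1]),(z1,[y1,y1,z1])],.contra [y1,z1],.contra [y1,z1]]),
    .old (.lp [k132,(nat_lit 264),(nat_lit 308),k108,(nat_lit 352),(nat_lit 352)] [k110,k110,k44,k44,k22,k22,k122,k122,k0,
    k0,k0,k0] k0 [[k0,k0,k0,k0,k0,k0,k0,k0,k44,k44],[],[k0,k0,k0,k0,k0,k33],[k0,k0,k0,k0,k0,k33],[k0,k0,k33,k33],[],
    [],[],[k0,k44],[k0,k44]] (nat_lit 792) k5
    [[(k9,(nat_lit 242)),(k10,(nat_lit 242))],[(k2,k198),(k8,k198),(k11,k198),(k5,(nat_lit 220))],[(k2,(nat_lit 264)),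
    (k5,(nat_lit 286)),(k8,(nat_lit 352)),(k11,(nat_lit 352))],[(k0,k198),(k7,(nat_lit 219)),(k4,(nat_lit 253)),(k3,
    (nat_lit 264))],[(k0,(nat_lit 220)),(k7,(nat_lit 241)),(k4,(nat_lit 275)),(k3,(nat_lit 286))],[(k2,(nat_lit 253)),
    (k5,(nat_lit 275)),(k8,(nat_lit 330)),(k11,(nat_lit 330))],[(k2,(nat_lit 219)),(k8,(nat_lit 230)),(k11,
    (nat_lit 230)),(k5,(nat_lit 241))],[(k9,(nat_lit 230)),(k10,(nat_lit 230))],[(k6,(nat_lit 230)),(k1,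
    (nat_lit 242))],[(k0,k198),(k7,(nat_lit 230)),(k4,(nat_lit 330)),(k3,(nat_lit 352))],[(k0,k198),(k7,
    (nat_lit 230)),(k4,(nat_lit 330)),(k3,(nat_lit 352))],[(k6,(nat_lit 230)),(k1,(nat_lit 242))]]
    [] k0
    [[k1,k0,k0,k0,k1,k0],[k1,k0,k0,k0,k0,k1],[k0,k2,k0,k0,k0,k0],[k0,k1,k1,k0,k0,k0],[k0,k0,k2,k0,k0,k0],[k0,k0,k0,k1,
    k1,k0],[k0,k0,k0,k1,k0,k1]]
    [.ref k0 k0 [(z1,[z1])],.ref k1 k0 [(z1,[z1])],.contra [z1],.ref k4 k0 [(z1,[y1,z1])],.contra [z1],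
    .ref k1 k1 [(z1,[z1])],.ref k0 k1 [(z1,[z1])]])]⟩

/-- classes `0 0 0 1 0 1`, types `B0 B1 B0 N0 B1 N1` -/
noncomputable def cU6_341 : CertX :=
  ⟨[k8,k9,k8,k28,k9,k29],[],[[[]]],
    [.old (.lp [k6,k10,k10,k6,k6,k6] [k2,k2,k0,k0,k0,k0,k2,k2,k2,k2,k2,k2] k0 [[k0,k0,k2,k2],[],[k0,k2,k0,k0,k2],[k0,k2,k0,
    k0,k2],[],[k0,k0,k2,k2]] k24 k5
    [[(k6,k6)],[(k2,k6),(k5,k6),(k8,k6),(k11,k6)],[(k8,k8),(k11,k8),(k2,k12),(k5,k12)],[(k0,k6),(k7,k6),(k3,k12),(k4,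
    k12)],[(k0,k6),(k7,k6),(k3,k12),(k4,k12)],[(k8,k8),(k11,k8),(k2,k12),(k5,k12)],[(k2,k6),(k5,k6),(k8,k6),(k11,k6)],
    [(k1,k6)],[(k10,k6)],[(k0,k6),(k7,k6),(k3,k8),(k4,k8)],[(k0,k6),(k7,k6),(k3,k8),(k4,k8)],[(k9,k6)]]
    [] k0
    []
    [])]⟩

/-- classes `0 0 0 1 0 1`, types `B0 B1 B0 N0 B1 N2` -/
noncomputable def cU6_342 : CertX :=
  ⟨[k8,k9,k8,k28,k9,k30],[(false,k0,[k0,k1,k2,k3,k4,k5]),(true,k3,[k3,k2,k1,k0,k5,k4])],[[[([z1,z0,z0,z0,z1,z0],z2)],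
    [([z1,z0,z0,z1,z1,z1],z2),([z0,z1,z0,y1,z0,y1],z0)],[([z1,z0,z0,z1,z1,z1],z2)],[]]],
    [.old (.leafM k3 [k1,k2,k3,k5] [] [(k4,k0,z1,[z1]),(k0,k4,z1,[z1])]),
    .old (.tor k1 false k4 [(z1,[z1,z1]),(z1,[z1]),(z1,[y1,z0,z1]),(z1,[y1,y1,z1])]),
    .old (.lp [k6,k12,k10,k6,k6,k6] [k3,k3,k0,k0,k1,k1,k3,k3,k3,k3,k3,k3] k0 [[],[k0,k0,k0,k2],[k2],[k0,k0,k0,k0,k2],[],
    [k0,k0,k2]] k24 k5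
    [[(k9,k6)],[(k8,k6),(k11,k6),(k2,k9),(k5,k10)],[(k8,k9),(k11,k9),(k2,k10),(k5,k11)],[(k0,k9),(k7,k9),(k3,k10),(k4,
    k13)],[(k7,k6),(k0,k10),(k4,k10),(k3,k11)],[(k8,k8),(k11,k8),(k5,k10),(k2,k13)],[(k5,k6),(k8,k6),(k11,k6),(k2,
    k9)],[(k10,k6)],[(k1,k6)],[(k0,k6),(k7,k6),(k4,k8),(k3,k9)],[(k0,k6),(k7,k6),(k4,k8),(k3,k9)],[(k6,k6)]]
    [] k0
    [[k1,k0,k0,k0,k1,k0],[k0,k2,k0,k0,k0,k0],[k0,k0,k2,k0,k0,k0],[k0,k0,k1,k1,k0,k1],[k0,k0,k0,k1,k0,k1]]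
    [.contra [y1,z1],.contra [z1],.contra [y1,y2,z2],.ref k1 k0 [(z1,[z0,z1]),(z1,[y1,y1,z1])],.contra [y1,z1]]),
    .old (.lp [k16,k44,k44,k12,k60,k54] [k22,k22,k8,k8,k8,k8,k24,k24,k0,k0,k3,k3] k0 [[k0,k0,k0,k0,k0,k0,k0,k0,k0,k8],[],
    [k0,k0,k0,k0,k0,k10],[k0,k0,k0,k0,k0,k2],[k0,k0,k2,k10],[],[],[],[k0,k8]] k120 k5
    [[(k9,k38)],[(k2,k30),(k5,k30),(k8,k30),(k11,k35)],[(k2,k44),(k5,k44),(k8,k52),(k11,k57)],[(k0,k30),(k7,k30),(k4,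
    k34),(k3,k44)],[(k0,k30),(k7,k38),(k4,k42),(k3,k44)],[(k2,k34),(k5,k42),(k11,k49),(k8,k52)],[(k2,k30),(k11,k33),
    (k8,k36),(k5,k38)],[(k10,k33)],[(k1,k38)],[(k0,k30),(k7,k36),(k3,k52),(k4,k52)],[(k7,k33),(k0,k35),(k4,k49),(k3,
    k57)],[(k6,k33)]]
    [] k0
    [[k1,k0,k0,k0,k1,k0],[k0,k2,k0,k0,k0,k0],[k0,k1,k1,k0,k0,k0],[k0,k0,k2,k0,k0,k0],[k0,k0,k0,k1,k0,k1]]
    [.ref k0 k0 [(z1,[z1])],.contra [z1],.ref k2 k0 [(z1,[y1,z1])],.contra [z1],.ref k0 k1 [(z1,[z1])]])]⟩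

/-- classes `0 0 0 1 0 1`, types `B0 B1 B0 S0 B1 S0` -/
noncomputable def cU6_343 : CertX :=
  ⟨[k8,k9,k8,k16,k9,k16],[(false,k0,[k0,k1,k2,k3,k4,k5]),(true,k3,[k3,k2,k1,k0,k5,k4])],[[[([z1,z0,z0,z0,z1,z0],z2)],
    [([z1,z0,z0,z0,z0,z1],z2)],[([z1,z0,z0,z1,z1,z1],z2),([z0,z1,z0,y1,z0,y1],z0)],[([z1,z0,z0,z1,z1,z1],z2),([z0,z1,
    z0,y1,y1,z0],z0)],[([z1,z0,z0,z1,z1,z1],z2)],[]]],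
    [.old (.leafM k3 [k1,k2,k3,k5] [] [(k4,k0,z1,[z1]),(k0,k4,z1,[z1])]),
    .old (.leafM k1 [k3,k4,k1,k2] [] [(k5,k0,z1,[z1]),(k0,k5,z1,[z1])]),
    .old (.tor k1 false k4 [(z1,[z1,z1]),(z1,[z1]),(z1,[y1,z0,z1]),(z1,[y1,y1,z1])]),
    .old (.tor k9 false k0 [(z1,[y1,y1,z1]),(z1,[y1,z0,z1]),(z1,[z1]),(z1,[z1,z1])]),
    .old (.lp [k6,k12,k10,k6,k6,k6] [k3,k3,k0,k0,k1,k1,k3,k3,k3,k3,k3,k3] k0 [[],[k0,k0,k0,k2],[k2],[k0,k0,k0,k0,k2],[],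
    [k0,k0,k2]] k24 k5
    [[(k1,k6),(k6,k6),(k9,k6),(k10,k6)],[(k8,k6),(k11,k6),(k2,k9),(k5,k10)],[(k8,k9),(k11,k9),(k2,k10),(k5,k11)],[(k0,
    k9),(k7,k9),(k3,k10),(k4,k13)],[(k7,k6),(k0,k10),(k4,k10),(k3,k11)],[(k8,k8),(k11,k8),(k5,k10),(k2,k13)],[(k5,k6),
    (k8,k6),(k11,k6),(k2,k9)],[(k1,k6),(k6,k6),(k9,k6),(k10,k6)],[(k1,k6),(k6,k6),(k9,k6),(k10,k6)],[(k0,k6),(k7,k6),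
    (k4,k8),(k3,k9)],[(k0,k6),(k7,k6),(k4,k8),(k3,k9)],[(k1,k6),(k6,k6),(k9,k6),(k10,k6)]]
    [] k0
    [[k1,k0,k0,k0,k1,k0],[k1,k0,k0,k0,k0,k1],[k0,k2,k0,k0,k0,k0],[k0,k0,k2,k0,k0,k0],[k0,k0,k1,k1,k1,k0],[k0,k0,k1,k1,
    k0,k1],[k0,k0,k0,k1,k1,k0],[k0,k0,k0,k1,k0,k1]]
    [.contra [y1,z1],.contra [y1,z1],.contra [z1],.contra [y1,y2,z2],.ref k3 k0 [(z1,[z0,z1]),(z1,[y1,y1,z1])],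
    .ref k2 k0 [(z1,[z0,z1]),(z1,[y1,y1,z1])],.contra [y1,z1],.contra [y1,z1]]),
    .old (.lp [(nat_lit 288),(nat_lit 264),(nat_lit 308),(nat_lit 264),k198,k198] [k10,k10,k22,k22,k0,k0,k22,k22,k55,k55,
    k55,k55] k0 [[k0,k0,k0,k0,k0,k0,k0,k0,k44,k44],[],[k0,k0,k0,k0,k0,k33],[k0,k0,k0,k0,k0,k33],[k0,k0,k33,k33],[],[],
    [],[k0,k44],[k0,k44]] (nat_lit 792) k5
    [[(k9,(nat_lit 243)),(k10,(nat_lit 243)),(k6,(nat_lit 276)),(k1,(nat_lit 288))],[(k8,k199),(k11,k199),(k2,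
    (nat_lit 276)),(k5,(nat_lit 298))],[(k2,(nat_lit 264)),(k8,(nat_lit 275)),(k11,(nat_lit 275)),(k5,(nat_lit 286))],
    [(k4,(nat_lit 253)),(k3,(nat_lit 264)),(k0,(nat_lit 276)),(k7,(nat_lit 297))],[(k4,(nat_lit 275)),(k3,
    (nat_lit 286)),(k0,(nat_lit 298)),(k7,(nat_lit 319))],[(k2,(nat_lit 253)),(k8,(nat_lit 253)),(k11,(nat_lit 253)),
    (k5,(nat_lit 275))],[(k8,(nat_lit 231)),(k11,(nat_lit 231)),(k2,(nat_lit 297)),(k5,(nat_lit 319))],[(k9,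
    (nat_lit 231)),(k10,(nat_lit 231)),(k6,(nat_lit 264)),(k1,(nat_lit 276))],[(k9,k198),(k10,k198),(k6,
    (nat_lit 231)),(k1,(nat_lit 243))],[(k0,k199),(k7,(nat_lit 231)),(k4,(nat_lit 253)),(k3,(nat_lit 275))],[(k0,
    k199),(k7,(nat_lit 231)),(k4,(nat_lit 253)),(k3,(nat_lit 275))],[(k9,k198),(k10,k198),(k6,(nat_lit 231)),(k1,
    (nat_lit 243))]]
    [] k0
    [[k1,k0,k0,k0,k1,k0],[k1,k0,k0,k0,k0,k1],[k0,k2,k0,k0,k0,k0],[k0,k1,k1,k0,k0,k0],[k0,k0,k2,k0,k0,k0],[k0,k0,k0,k1,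
    k1,k0],[k0,k0,k0,k1,k0,k1]]
    [.ref k0 k0 [(z1,[z1])],.ref k1 k0 [(z1,[z1])],.contra [z1],.ref k4 k0 [(z1,[y1,z1])],.contra [z1],
    .ref k1 k1 [(z1,[z1])],.ref k0 k1 [(z1,[z1])]])]⟩

/-- classes `0 0 0 1 0 1`, types `C0 C0 C0 B0 C0 B1` -/
noncomputable def cU6_344 : CertX :=
  ⟨[k4,k4,k4,k24,k4,k25],[(false,k0,[k0,k1,k2,k3,k4,k5])],[[[([z1,z1,z1,z1,z0,z0],z2)],[([z1,z0,z0,z1,z1,z1],z2)],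
    [([z1,z0,z0,z1,z0,z0],z2)],[]]],
    [.old (.leafM k0 [k0,k1,k2,k3] [] [(k4,k5,z1,[y1,z1]),(k5,k4,z1,[y1,z1])]),
    .old (.leafM k2 [k0,k3,k4,k5] [] [(k1,k2,z1,[y1,z1]),(k2,k1,z1,[y1,z1])]),
    .old (.leafM k5 [k1,k2,k4,k5] [] [(k3,k0,z1,[z1]),(k0,k3,z1,[z1])]),
    .old (.lp [k14,k16,k20,k14,k10,k18] [k3,k3,k2,k2,k0,k0,k3,k3,k5,k5,k1,k1] k0 [[k0,k0,k0,k0,k0,k0,k0,k0,k4],[],[],[k0,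
    k0,k0,k0,k0,k4],[k0,k0,k4],[],[],[],[],[k0,k4]] k48 k5
    [[(k9,k12),(k6,k14)],[(k11,k12),(k7,k14),(k3,k15),(k5,k17)],[(k0,k15),(k2,k16),(k8,k17),(k4,k18)],[(k3,k16),(k11,
    k17),(k5,k18),(k7,k19)],[(k8,k15),(k4,k16),(k0,k17),(k2,k18)],[(k5,k16),(k7,k17),(k3,k18),(k11,k19)],[(k8,k12),
    (k0,k14),(k4,k17),(k2,k19)],[(k1,k14),(k10,k16)],[(k1,k12),(k10,k14)],[(k7,k12),(k11,k14),(k5,k15),(k3,k17)],[(k0,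
    k12),(k8,k14),(k2,k17),(k4,k19)],[(k9,k14),(k6,k16)]]
    [] k0
    [[k1,k0,k0,k1,k0,k0],[k0,k2,k0,k0,k0,k0],[k0,k1,k1,k0,k0,k0],[k0,k0,k2,k0,k0,k0],[k0,k0,k0,k0,k1,k1]]
    [.ref k2 k0 [(z1,[z1])],.contra [z1],.ref k1 k0 [(z1,[y1,z1])],.contra [z1],.ref k0 k0 [(z1,[y1,z1])]])]⟩

/-- classes `0 0 0 1 0 1`, types `C0 C0 C0 B0 C2 B1` -/
noncomputable def cU6_345 : CertX :=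
  ⟨[k4,k4,k4,k24,k6,k25],[(false,k0,[k0,k1,k2,k3,k4,k5]),(true,k3,[k3,k2,k1,k0,k5,k4])],[[[([z1,z1,z1,z1,z0,z0],z2)],
    [([z1,z0,z0,z0,z1,z0],z2)],[([z1,z1,z0,z0,z1,z0],z2)],[([z1,z0,z0,z1,z1,z1],z2)],[([z1,z0,z0,z1,z0,z0],z2)],[]]],
    [.old (.leafM k0 [k0,k1,k2,k3] [] [(k4,k5,z1,[y1,z1]),(k5,k4,z1,[y1,z1])]),
    .old (.leafM k1 [k1,k2,k3,k5] [] [(k4,k0,z1,[z1]),(k0,k4,z1,[z1])]),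
    .old (.leafM k3 [k3,k4,k5,k0,k1,k2] [(z1,[z1])] []),
    .old (.leafM k2 [k0,k3,k4,k5] [] [(k1,k2,z1,[y1,z1]),(k2,k1,z1,[y1,z1])]),
    .old (.leafM k6 [k2,k4,k5,k1] [] [(k3,k0,z1,[z1]),(k0,k3,z1,[z1])]),
    .old (.lp [k24,k16,k16,k8,k8,k22] [k0,k0,k4,k4,k4,k4,k8,k8,k8,k8,k1,k1] k0 [[k0,k0,k0,k0,k0,k0,k0,k0,k0,k2],[],[],[],
    [],[k0,k0,k0,k0,k0,k0,k0,k0,k2],[],[],[k0,k2],[k0,k0,k0,k0,k2]] k48 k5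
    [[(k6,k16),(k9,k16)],[(k8,k14),(k7,k16),(k3,k20),(k5,k20)],[(k2,k16),(k4,k16),(k0,k20),(k11,k21)],[(k7,k12),(k8,
    k12),(k3,k16),(k5,k16)],[(k2,k16),(k4,k16),(k11,k19),(k0,k20)],[(k7,k12),(k8,k14),(k3,k16),(k5,k16)],[(k2,k12),
    (k4,k12),(k11,k13),(k0,k16)],[(k10,k15),(k1,k16)],[(k10,k15),(k1,k16)],[(k2,k12),(k0,k14),(k4,k14),(k11,k15)],
    [(k7,k13),(k8,k15),(k5,k19),(k3,k21)],[(k6,k15),(k9,k15)]]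
    [] k0
    [[k1,k0,k0,k1,k0,k0],[k1,k0,k0,k0,k1,k0],[k0,k2,k0,k0,k0,k0],[k0,k1,k1,k0,k0,k0],[k0,k0,k2,k0,k0,k0],[k0,k0,k1,k1,
    k0,k1],[k0,k0,k0,k1,k0,k1],[k0,k0,k0,k0,k1,k1]]
    [.ref k4 k0 [(z1,[z1])],.ref k1 k0 [(z1,[z1])],.contra [z1],.ref k3 k0 [(z1,[y1,z1])],.contra [z1],
    .ref k2 k0 [(z1,[y1,z1])],.ref k1 k1 [(z1,[z1])],.ref k0 k0 [(z1,[y1,z1])]])]⟩

/-- classes `0 0 0 1 0 1`, types `C0 C0 C0 C0 C0 C0` -/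
noncomputable def cU6_346 : CertX :=
  ⟨[k4,k4,k4,k20,k4,k20],[(false,k0,[k0,k1,k2,k3,k4,k5]),(true,k3,[k3,k2,k1,k0,k5,k4])],[[[([z1,z1,z1,z1,z0,z0],z2)],
    [([z1,z0,z0,z0,z0,z1],z2)],[([z1,z0,z0,z1,z1,z1],z2)],[([z1,z0,z0,z1,z0,z0],z2)],[([z1,z1,z0,z0,z0,z1],z2)],[]]],
    [.old (.leafM k0 [k0,k1,k2,k3] [] [(k4,k5,z1,[y1,z1]),(k5,k4,z1,[y1,z1])]),
    .old (.leafM k0 [k1,k2,k3,k4] [] [(k5,k0,z1,[z1]),(k0,k5,z1,[z1])]),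
    .old (.leafM k0 [k0,k3,k4,k5] [] [(k1,k2,z1,[y1,z1]),(k2,k1,z1,[y1,z1])]),
    .old (.leafM k5 [k1,k2,k4,k5] [] [(k3,k0,z1,[z1]),(k0,k3,z1,[z1])]),
    .old (.leafM k0 [k1,k2,k3,k4,k5,k0] [(z1,[y1,z1])] []),
    .old (.lp [k22,k16,k16,k10,k22,k8] [k0,k0,k3,k3,k3,k3,k6,k6,k0,k0,k7,k7] k0 [[k0,k0,k0,k0,k0,k0,k0,k0,k2],[],[],[],[],
    [k0,k0,k0,k0,k0,k0,k0,k0,k0,k2],[],[],[k0,k0,k0,k0,k2],[k0,k2]] k48 k5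
    [[(k10,k15),(k6,k16)],[(k11,k13),(k7,k16),(k3,k19),(k5,k19)],[(k2,k16),(k4,k16),(k0,k19),(k8,k21)],[(k11,k12),(k7,
    k13),(k3,k16),(k5,k16)],[(k2,k16),(k4,k16),(k0,k19),(k8,k19)],[(k7,k13),(k11,k14),(k3,k16),(k5,k16)],[(k2,k13),
    (k4,k13),(k8,k14),(k0,k16)],[(k1,k16),(k9,k16)],[(k10,k15),(k6,k16)],[(k7,k14),(k11,k15),(k5,k19),(k3,k21)],[(k2,
    k12),(k0,k13),(k4,k14),(k8,k15)],[(k1,k15),(k9,k15)]]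
    [] k0
    [[k1,k0,k0,k1,k0,k0],[k1,k0,k0,k0,k0,k1],[k1,k1,k0,k0,k0,k1],[k0,k2,k0,k0,k0,k0],[k0,k1,k1,k0,k0,k0],[k0,k0,k2,k0,
    k0,k0],[k0,k0,k0,k1,k1,k0],[k0,k0,k0,k0,k1,k1]]
    [.ref k3 k0 [(z1,[z1])],.ref k1 k0 [(z1,[z1])],.ref k4 k0 [(z1,[z1])],.contra [z1],.ref k2 k0 [(z1,[y1,z1])],
    .contra [z1],.ref k1 k1 [(z1,[z1])],.ref k0 k0 [(z1,[y1,z1])]])]⟩

/-- classes `0 0 0 1 0 1`, types `C0 C0 C0 C0 C0 C2` -/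
noncomputable def cU6_347 : CertX :=
  ⟨[k4,k4,k4,k20,k4,k22],[(false,k0,[k0,k1,k2,k3,k4,k5]),(true,k3,[k3,k2,k1,k0,k5,k4])],[[[([z1,z0,z0,z0,z0,z1],z2)],
    [([z1,z1,z0,z0,z0,z1],z2)],[([z1,z0,z0,z1,z1,z1],z2)],[]]],
    [.old (.leafM k0 [k1,k2,k3,k4] [] [(k5,k0,z1,[z1]),(k0,k5,z1,[z1])]),
    .old (.leafM k0 [k1,k2,k3,k4,k5,k0] [(z1,[y1,z1])] []),
    .old (.leafM k0 [k0,k3,k4,k5] [] [(k1,k2,z1,[y1,z1]),(k2,k1,z1,[y1,z1])]),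
    .old (.lp [k22,k16,k16,k14,k14,k10] [k0,k0,k3,k3,k3,k3,k4,k4,k4,k4,k6,k6] k0 [[k0,k0,k0,k0,k0,k0,k0,k0,k4],[],[],[],
    [],[],[],[],[],[k0,k4]] k48 k5
    [[(k10,k16),(k9,k18)],[(k11,k12),(k7,k18),(k3,k19),(k5,k19)],[(k2,k16),(k4,k16),(k0,k19),(k8,k19)],[(k11,k13),(k7,
    k15),(k3,k16),(k5,k16)],[(k8,k15),(k2,k16),(k4,k16),(k0,k19)],[(k11,k13),(k7,k15),(k3,k16),(k5,k16)],[(k8,k14),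
    (k2,k15),(k4,k15),(k0,k18)],[(k10,k12),(k9,k14)],[(k6,k14),(k1,k18)],[(k11,k12),(k7,k14),(k5,k15),(k3,k19)],[(k0,
    k12),(k8,k12),(k2,k13),(k4,k13)],[(k6,k12),(k1,k16)]]
    [] k0
    [[k1,k0,k0,k0,k0,k1],[k0,k2,k0,k0,k0,k0],[k0,k1,k1,k0,k0,k0],[k0,k0,k2,k0,k0,k0],[k0,k0,k1,k1,k1,k0],[k0,k0,k0,k1,
    k1,k0]]
    [.ref k0 k0 [(z1,[z1])],.contra [z1],.ref k2 k0 [(z1,[y1,z1])],.contra [z1],.ref k1 k0 [(z1,[y1,z1])],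
    .ref k0 k1 [(z1,[z1])]])]⟩

/-- classes `0 0 0 1 0 1`, types `C0 C0 C0 C0 C2 C0` -/
noncomputable def cU6_348 : CertX :=
  ⟨[k4,k4,k4,k20,k6,k20],[(false,k0,[k0,k1,k2,k3,k4,k5])],[[[([z1,z1,z1,z1,z0,z0],z2)],[([z1,z0,z0,z1,z1,z1],z2)],
    [([z1,z0,z0,z1,z0,z0],z2)],[]]],
    [.old (.leafM k0 [k0,k1,k2,k3] [] [(k4,k5,z1,[y1,z1]),(k5,k4,z1,[y1,z1])]),
    .old (.leafM k0 [k0,k3,k4,k5] [] [(k1,k2,z1,[y1,z1]),(k2,k1,z1,[y1,z1])]),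
    .old (.leafM k6 [k2,k4,k5,k1] [] [(k3,k0,z1,[z1]),(k0,k3,z1,[z1])]),
    .old (.lp [k18,k16,k20,k10,k14,k14] [k1,k1,k2,k2,k0,k0,k5,k5,k3,k3,k3,k3] k0 [[k0,k0,k0,k0,k0,k0,k0,k0,k0,k4],[],[],
    [k0,k0,k0,k0,k0,k4],[k0,k0,k4],[],[],[],[k0,k4]] k48 k5
    [[(k6,k14),(k10,k16)],[(k8,k12),(k7,k14),(k3,k17),(k5,k19)],[(k2,k16),(k0,k17),(k4,k18),(k11,k19)],[(k8,k15),(k3,
    k16),(k7,k17),(k5,k18)],[(k4,k16),(k11,k17),(k2,k18),(k0,k19)],[(k7,k15),(k5,k16),(k8,k17),(k3,k18)],[(k11,k12),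
    (k0,k14),(k4,k15),(k2,k17)],[(k9,k12),(k1,k14)],[(k6,k12),(k10,k14)],[(k0,k12),(k11,k14),(k2,k15),(k4,k17)],[(k7,
    k12),(k8,k14),(k5,k17),(k3,k19)],[(k9,k14),(k1,k16)]]
    [] k0
    [[k1,k0,k0,k1,k0,k0],[k0,k2,k0,k0,k0,k0],[k0,k1,k1,k0,k0,k0],[k0,k0,k2,k0,k0,k0],[k0,k0,k0,k0,k1,k1]]
    [.ref k2 k0 [(z1,[z1])],.contra [z1],.ref k1 k0 [(z1,[y1,z1])],.contra [z1],.ref k0 k0 [(z1,[y1,z1])]])]⟩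

/-- classes `0 0 0 1 0 1`, types `C0 C0 C0 C0 C2 C2` -/
noncomputable def cU6_349 : CertX :=
  ⟨[k4,k4,k4,k20,k6,k22],[(false,k0,[k0,k1,k2,k3,k4,k5]),(true,k3,[k3,k2,k1,k0,k5,k4])],[[[([z1,z0,z0,z0,z1,z0],z2)],
    [([z1,z0,z0,z1,z1,z1],z2)],[([z1,z1,z0,z0,z1,z0],z2)],[]]],
    [.old (.leafM k1 [k1,k2,k3,k5] [] [(k4,k0,z1,[z1]),(k0,k4,z1,[z1])]),
    .old (.leafM k0 [k0,k3,k4,k5] [] [(k1,k2,z1,[y1,z1]),(k2,k1,z1,[y1,z1])]),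
    .old (.leafM k3 [k3,k4,k5,k0,k1,k2] [(z1,[z1])] []),
    .old (.lp [k192,k160,k180,k150,k90,k150] [k0,k0,k16,k16,k6,k6,k21,k21,k51,k51,k21,k21] k0 [[k0,k0,k0,k0,k0,k0,k0,k0,
    k0,k20],[],[],[],[],[k0,k0,k0,k0,k0,k0,k0,k0,k20],[],[],[k0,k20],[k0,k0,k0,k0,k20]] (nat_lit 480) k5
    [[(k9,k141),(k10,k171)],[(k8,k121),(k7,k171),(k3,k176),(k5,k186)],[(k2,k160),(k4,k170),(k11,k175),(k0,k176)],[(k8,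
    k125),(k7,k155),(k3,k160),(k5,k170)],[(k11,k165),(k2,k170),(k4,k180),(k0,k186)],[(k8,k155),(k7,k165),(k3,k170),
    (k5,k180)],[(k11,k130),(k2,k155),(k4,k165),(k0,k171)],[(k9,k120),(k10,k150)],[(k6,k120),(k1,k141)],[(k11,k120),
    (k0,k121),(k2,k125),(k4,k155)],[(k8,k120),(k7,k130),(k5,k165),(k3,k175)],[(k6,k150),(k1,k171)]]
    [] k0
    [[k1,k0,k0,k0,k1,k0],[k1,k1,k0,k0,k1,k0],[k0,k2,k0,k0,k0,k0],[k0,k1,k1,k0,k0,k0],[k0,k0,k2,k0,k0,k0],[k0,k0,k0,k1,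
    k0,k1]]
    [.ref k0 k0 [(z1,[z1])],.ref k2 k0 [(z1,[z1])],.contra [z1],.ref k1 k0 [(z1,[y1,z1])],.contra [z1],
    .ref k0 k1 [(z1,[z1])]])]⟩

/-- classes `0 0 0 1 0 1`, types `C0 C0 C0 N0 C0 N1` -/
noncomputable def cU6_350 : CertX :=
  ⟨[k4,k4,k4,k28,k4,k29],[(false,k0,[k0,k1,k2,k3,k4,k5])],[[[([z1,z1,z1,z1,z0,z0],z2)],[([z1,z0,z0,z1,z0,z0],z2)],
    [([z1,z0,z0,z1,z0,z0],z1),([z0,z1,z1,z0,z0,z0],z2)],[([z1,z0,z0,z1,z1,z1],z2)],[]]],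
    [.old (.leafM k0 [k0,k1,k2,k3] [] [(k4,k5,z1,[y1,z1]),(k5,k4,z1,[y1,z1])]),
    .old (.leafM k5 [k1,k2,k4,k5] [] [(k3,k0,z1,[z1]),(k0,k3,z1,[z1])]),
    .old (.leafM k4 [k3,k4,k5,k0] [(z1,[y1,y1,z1])] [(k1,k2,z1,[z0,z1]),(k2,k1,z1,[z0,z1])]),
    .old (.lp [(nat_lit 690),(nat_lit 690),(nat_lit 690),k0,(nat_lit 750),k0] [k30,k30,k30,k30,k30,k30,(nat_lit 379),
    (nat_lit 371),k0,k0,(nat_lit 375),(nat_lit 375)] k0 [[k0,k0,k0,k0,k60],[k0,k0,k0,k60],[k60],[k0,k0,k0,k0,k0,k60],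
    [k0,k0,k60],[k0,k60]] (nat_lit 1440) k6
    [[(k6,(nat_lit 341))],[(k7,(nat_lit 289)),(k11,(nat_lit 345)),(k3,(nat_lit 690)),(k5,(nat_lit 750))],[(k2,
    (nat_lit 630)),(k0,(nat_lit 690)),(k8,(nat_lit 720)),(k4,(nat_lit 750))],[(k11,(nat_lit 345)),(k7,(nat_lit 409)),
    (k3,(nat_lit 630)),(k5,(nat_lit 690))],[(k4,(nat_lit 630)),(k2,(nat_lit 690)),(k8,(nat_lit 720)),(k0,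
    (nat_lit 750))],[(k11,(nat_lit 345)),(k7,(nat_lit 349)),(k5,(nat_lit 630)),(k3,(nat_lit 750))],[(k0,
    (nat_lit 289)),(k4,(nat_lit 349)),(k8,(nat_lit 379)),(k2,(nat_lit 409))],[(k1,(nat_lit 341))],[(k10,
    (nat_lit 375))],[(k11,(nat_lit 375)),(k7,(nat_lit 379)),(k3,(nat_lit 720)),(k5,(nat_lit 720))],[(k0,
    (nat_lit 345)),(k2,(nat_lit 345)),(k4,(nat_lit 345)),(k8,(nat_lit 375))],[(k9,(nat_lit 375))]]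
    [] k0
    [[k1,k0,k0,k1,k0,k0],[k2,k0,k0,k2,k0,k0],[k0,k2,k0,k0,k0,k0],[k0,k0,k2,k0,k0,k0],[k0,k0,k0,k0,k1,k1]]
    [.contra [y1,z1],.ref k2 k0 [(z2,[z1]),(z1,[z0,y1,z1])],.contra [z1],.contra [y1,y2,z2],.contra [y1,z1]]),
    .old (.lp [k12,k8,k10,k2,k10,k4] [k0,k0,k2,k2,k1,k1,k5,k5,k1,k1,k4,k4] k0 [[k0,k0,k0,k0,k0,k0,k0,k0,k2],[],[],[k0,k0,
    k0,k0,k0,k2],[k0,k0,k2],[],[],[],[],[k0,k2]] k24 k5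
    [[(k6,k7)],[(k11,k6),(k7,k7),(k3,k10),(k5,k11)],[(k2,k8),(k4,k9),(k0,k10),(k8,k11)],[(k11,k6),(k7,k7),(k3,k8),(k5,
    k9)],[(k4,k8),(k2,k9),(k8,k10),(k0,k11)],[(k7,k6),(k11,k7),(k5,k8),(k3,k9)],[(k4,k6),(k8,k6),(k0,k7),(k2,k7)],
    [(k1,k7)],[(k10,k7)],[(k7,k6),(k11,k7),(k5,k10),(k3,k11)],[(k0,k6),(k2,k6),(k4,k7),(k8,k7)],[(k9,k7)]]
    [] k0
    [[k1,k0,k0,k1,k0,k0],[k0,k2,k0,k0,k0,k0],[k0,k1,k1,k0,k0,k0],[k0,k0,k2,k0,k0,k0],[k0,k0,k0,k0,k1,k1]]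
    [.ref k1 k0 [(z1,[z1])],.contra [z1],.ref k3 k0 [(z1,[y1,z1])],.contra [z1],.ref k0 k0 [(z1,[y1,z1])]])]⟩

/-- classes `0 0 0 1 0 1`, types `C0 C0 C0 N0 C0 N2` -/
noncomputable def cU6_351 : CertX :=
  ⟨[k4,k4,k4,k28,k4,k30],[(false,k0,[k0,k1,k2,k3,k4,k5])],[[[([z1,z0,z0,z1,z1,z1],z2)],[]]],
    [.old (.leafM k2 [k0,k3,k4,k5] [] [(k1,k2,z1,[y1,z1]),(k2,k1,z1,[y1,z1])]),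
    .old (.lp [k6,k10,k10,k6,k6,k6] [k2,k2,k0,k0,k0,k0,k2,k2,k2,k2,k2,k2] k0 [[k0,k0,k2],[],[k0,k0,k0,k0,k2],[k0,k2],[],
    [k0,k0,k0,k2]] k24 k5
    [[(k9,k6)],[(k5,k6),(k7,k6),(k11,k6),(k3,k8)],[(k0,k8),(k8,k8),(k4,k10),(k2,k12)],[(k7,k6),(k11,k8),(k5,k10),(k3,
    k12)],[(k0,k6),(k8,k8),(k2,k10),(k4,k12)],[(k7,k8),(k11,k8),(k3,k10),(k5,k12)],[(k0,k6),(k2,k6),(k8,k6),(k4,k8)],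
    [(k10,k6)],[(k1,k6)],[(k7,k6),(k11,k6),(k3,k8),(k5,k8)],[(k0,k6),(k8,k6),(k2,k8),(k4,k8)],[(k6,k6)]]
    [] k0
    [[k0,k1,k1,k0,k0,k0]]
    [.ref k0 k0 [(z1,[y1,z1])]])]⟩

/-- classes `0 0 0 1 0 1`, types `C0 C0 C0 N0 C2 N1` -/
noncomputable def cU6_352 : CertX :=
  ⟨[k4,k4,k4,k28,k6,k29],[(false,k0,[k0,k1,k2,k3,k4,k5])],[[[([z1,z1,z1,z1,z0,z0],z2)],[([z1,z0,z0,z1,z0,z0],z2)],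
    [([z1,z0,z0,z1,z0,z0],z1),([z0,z1,z1,z0,z0,z0],z2)],[([z1,z0,z0,z1,z1,z1],z2)],[]]],
    [.old (.leafM k0 [k0,k1,k2,k3] [] [(k4,k5,z1,[y1,z1]),(k5,k4,z1,[y1,z1])]),
    .old (.leafM k6 [k2,k4,k5,k1] [] [(k3,k0,z1,[z1]),(k0,k3,z1,[z1])]),
    .old (.leafM k4 [k3,k4,k5,k0] [(z1,[y1,y1,z1])] [(k1,k2,z1,[z0,z1]),(k2,k1,z1,[z0,z1])]),
    .old (.lp [(nat_lit 690),(nat_lit 690),(nat_lit 690),k0,k180,(nat_lit 570)] [k0,k0,k0,k0,k0,k0,(nat_lit 349),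
    (nat_lit 341),(nat_lit 255),(nat_lit 255),k60,k60] k0 [[k0,k0,k0,k0,k60],[k0,k0,k0,k60],[k60],[k0,k0,k0,k0,k0,
    k60],[k0,k0,k60],[k0,k60]] (nat_lit 1440) k6
    [[(k6,(nat_lit 341))],[(k7,(nat_lit 289)),(k8,(nat_lit 435)),(k3,(nat_lit 690)),(k5,(nat_lit 750))],[(k2,
    (nat_lit 630)),(k11,(nat_lit 630)),(k0,(nat_lit 690)),(k4,(nat_lit 750))],[(k7,(nat_lit 409)),(k8,(nat_lit 435)),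
    (k3,(nat_lit 630)),(k5,(nat_lit 690))],[(k4,(nat_lit 630)),(k11,(nat_lit 630)),(k2,(nat_lit 690)),(k0,
    (nat_lit 750))],[(k7,(nat_lit 349)),(k8,(nat_lit 435)),(k5,(nat_lit 630)),(k3,(nat_lit 750))],[(k0,(nat_lit 289)),
    (k11,(nat_lit 289)),(k4,(nat_lit 349)),(k2,(nat_lit 409))],[(k1,(nat_lit 341))],[(k10,(nat_lit 375))],[(k11,
    (nat_lit 375)),(k0,(nat_lit 435)),(k2,(nat_lit 435)),(k4,(nat_lit 435))],[(k7,(nat_lit 289)),(k8,(nat_lit 375)),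
    (k3,(nat_lit 630)),(k5,(nat_lit 630))],[(k9,(nat_lit 375))]]
    [] k0
    [[k1,k0,k0,k1,k0,k0],[k2,k0,k0,k2,k0,k0],[k0,k2,k0,k0,k0,k0],[k0,k0,k2,k0,k0,k0],[k0,k0,k0,k0,k1,k1]]
    [.contra [y1,z1],.ref k2 k0 [(z2,[z1]),(z1,[z0,y1,z1])],.contra [z1],.contra [y1,y2,z2],.contra [y1,z1]]),
    .old (.lp [k12,k8,k10,k2,k4,k10] [k0,k0,k2,k2,k1,k1,k5,k5,k4,k4,k1,k1] k0 [[k0,k0,k0,k0,k0,k0,k0,k0,k0,k2],[],[],[k0,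
    k0,k0,k0,k0,k2],[k0,k0,k2],[],[],[],[k0,k2]] k24 k5
    [[(k6,k7)],[(k8,k6),(k7,k7),(k3,k10),(k5,k11)],[(k2,k8),(k4,k9),(k0,k10),(k11,k11)],[(k8,k6),(k7,k7),(k3,k8),(k5,
    k9)],[(k4,k8),(k2,k9),(k11,k10),(k0,k11)],[(k7,k6),(k8,k7),(k5,k8),(k3,k9)],[(k4,k6),(k11,k6),(k0,k7),(k2,k7)],
    [(k1,k7)],[(k10,k7)],[(k0,k6),(k2,k6),(k4,k7),(k11,k7)],[(k7,k6),(k8,k7),(k5,k10),(k3,k11)],[(k9,k7)]]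
    [] k0
    [[k1,k0,k0,k1,k0,k0],[k0,k2,k0,k0,k0,k0],[k0,k1,k1,k0,k0,k0],[k0,k0,k2,k0,k0,k0],[k0,k0,k0,k0,k1,k1]]
    [.ref k1 k0 [(z1,[z1])],.contra [z1],.ref k3 k0 [(z1,[y1,z1])],.contra [z1],.ref k0 k0 [(z1,[y1,z1])]])]⟩

/-- classes `0 0 0 1 0 1`, types `C0 C0 C0 N0 C2 N2` -/
noncomputable def cU6_353 : CertX :=
  ⟨[k4,k4,k4,k28,k6,k30],[(false,k0,[k0,k1,k2,k3,k4,k5]),(true,k3,[k3,k2,k1,k0,k5,k4])],[[[([z1,z0,z0,z0,z1,z0],z2)],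
    [([z1,z0,z0,z1,z1,z1],z2)],[([z1,z1,z0,z0,z1,z0],z2)],[]]],
    [.old (.leafM k1 [k1,k2,k3,k5] [] [(k4,k0,z1,[z1]),(k0,k4,z1,[z1])]),
    .old (.leafM k2 [k0,k3,k4,k5] [] [(k1,k2,z1,[y1,z1]),(k2,k1,z1,[y1,z1])]),
    .old (.leafM k3 [k3,k4,k5,k0,k1,k2] [(z1,[z1])] []),
    .old (.lp [k20,k16,k18,k8,k8,k22] [k1,k1,k3,k3,k2,k2,k7,k7,k7,k7,k0,k0] k0 [[k0,k0,k0,k0,k0,k0,k0,k0,k0,k2],[],[],[],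
    [],[k0,k0,k0,k0,k0,k0,k0,k0,k2],[],[],[k0,k2],[k0,k0,k0,k0,k2]] k48 k5
    [[(k9,k14)],[(k8,k12),(k7,k14),(k3,k18),(k5,k19)],[(k2,k16),(k4,k17),(k0,k18),(k11,k21)],[(k7,k12),(k8,k12),(k3,
    k16),(k5,k17)],[(k2,k17),(k4,k18),(k0,k19),(k11,k20)],[(k7,k13),(k8,k15),(k3,k17),(k5,k18)],[(k2,k12),(k4,k13),
    (k11,k13),(k0,k14)],[(k10,k15)],[(k1,k14)],[(k0,k12),(k2,k12),(k4,k15),(k11,k15)],[(k7,k13),(k8,k15),(k5,k20),(k3,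
    k21)],[(k6,k15)]]
    [] k0
    [[k1,k0,k0,k0,k1,k0],[k1,k1,k0,k0,k1,k0],[k0,k2,k0,k0,k0,k0],[k0,k1,k1,k0,k0,k0],[k0,k0,k2,k0,k0,k0],[k0,k0,k0,k1,
    k0,k1]]
    [.ref k0 k0 [(z1,[z1])],.ref k2 k0 [(z1,[z1])],.contra [z1],.ref k1 k0 [(z1,[y1,z1])],.contra [z1],
    .ref k0 k1 [(z1,[z1])]])]⟩

/-- classes `0 0 0 1 0 1`, types `C0 C0 C0 S0 C0 S0` -/
noncomputable def cU6_354 : CertX :=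
  ⟨[k4,k4,k4,k16,k4,k16],[(false,k0,[k0,k1,k2,k3,k4,k5]),(true,k3,[k3,k2,k1,k0,k5,k4])],[[[([z1,z1,z1,z1,z0,z0],z2)],
    [([z1,z0,z0,z0,z0,z1],z2)],[([z1,z0,z0,z1,z1,z1],z2)],[([z1,z0,z0,z1,z0,z0],z2)],[([z1,z1,z0,z0,z0,z1],z2)],[]]],
    [.old (.leafM k0 [k0,k1,k2,k3] [] [(k4,k5,z1,[y1,z1]),(k5,k4,z1,[y1,z1])]),
    .old (.leafM k0 [k1,k2,k3,k4] [] [(k5,k0,z1,[z1]),(k0,k5,z1,[z1])]),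
    .old (.leafM k0 [k0,k3,k4,k5] [] [(k1,k2,z1,[y1,z1]),(k2,k1,z1,[y1,z1])]),
    .old (.leafM k5 [k1,k2,k4,k5] [] [(k3,k0,z1,[z1]),(k0,k3,z1,[z1])]),
    .old (.leafM k0 [k1,k2,k3,k4,k5,k0] [(z1,[y1,z1])] []),
    .old (.lp [k18,k16,k16,k14,k18,k12] [k0,k0,k1,k1,k1,k1,k2,k2,k0,k0,k3,k3] k0 [[k0,k0,k0,k0,k0,k0,k0,k0,k2],[],[],[],
    [],[k0,k0,k0,k0,k0,k0,k0,k0,k0,k2],[],[],[k0,k0,k0,k0,k2],[k0,k2]] k48 k5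
    [[(k10,k15),(k6,k16),(k1,k18),(k9,k18)],[(k11,k13),(k7,k16),(k3,k17),(k5,k17)],[(k2,k16),(k4,k16),(k0,k17),(k8,
    k19)],[(k11,k14),(k7,k15),(k3,k16),(k5,k16)],[(k2,k16),(k4,k16),(k0,k17),(k8,k17)],[(k7,k15),(k3,k16),(k5,k16),
    (k11,k16)],[(k8,k14),(k2,k15),(k4,k15),(k0,k16)],[(k10,k13),(k6,k14),(k1,k16),(k9,k16)],[(k10,k15),(k6,k16),(k1,
    k18),(k9,k18)],[(k7,k14),(k11,k15),(k5,k17),(k3,k19)],[(k0,k13),(k2,k14),(k8,k15),(k4,k16)],[(k10,k12),(k6,k13),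
    (k1,k15),(k9,k15)]]
    [] k0
    [[k1,k0,k0,k1,k0,k0],[k1,k0,k0,k0,k0,k1],[k1,k1,k0,k0,k0,k1],[k0,k2,k0,k0,k0,k0],[k0,k1,k1,k0,k0,k0],[k0,k0,k2,k0,
    k0,k0],[k0,k0,k0,k1,k1,k0],[k0,k0,k0,k0,k1,k1]]
    [.ref k3 k0 [(z1,[z1])],.ref k1 k0 [(z1,[z1])],.ref k4 k0 [(z1,[z1])],.contra [z1],.ref k2 k0 [(z1,[y1,z1])],
    .contra [z1],.ref k1 k1 [(z1,[z1])],.ref k0 k0 [(z1,[y1,z1])]])]⟩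

/-- classes `0 0 0 1 0 1`, types `C0 C0 C0 S0 C2 S0` -/
noncomputable def cU6_355 : CertX :=
  ⟨[k4,k4,k4,k16,k6,k16],[(false,k0,[k0,k1,k2,k3,k4,k5]),(true,k3,[k3,k2,k1,k0,k5,k4])],[[[([z1,z1,z1,z1,z0,z0],z2)],
    [([z1,z0,z0,z0,z1,z0],z2)],[([z1,z0,z0,z1,z1,z1],z2)],[([z1,z0,z0,z1,z0,z0],z2)],[([z1,z1,z0,z0,z1,z0],z2)],[]]],
    [.old (.leafM k0 [k0,k1,k2,k3] [] [(k4,k5,z1,[y1,z1]),(k5,k4,z1,[y1,z1])]),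
    .old (.leafM k1 [k1,k2,k3,k5] [] [(k4,k0,z1,[z1]),(k0,k4,z1,[z1])]),
    .old (.leafM k0 [k0,k3,k4,k5] [] [(k1,k2,z1,[y1,z1]),(k2,k1,z1,[y1,z1])]),
    .old (.leafM k6 [k2,k4,k5,k1] [] [(k3,k0,z1,[z1]),(k0,k3,z1,[z1])]),
    .old (.leafM k3 [k3,k4,k5,k0,k1,k2] [(z1,[z1])] []),
    .old (.lp [k12,k16,k16,k20,k18,k12] [k4,k4,k2,k2,k2,k2,k0,k0,k1,k1,k4,k4] k0 [[k0,k0,k0,k0,k0,k0,k0,k0,k0,k2],[],[],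
    [],[],[k0,k0,k0,k0,k0,k0,k0,k0,k2],[],[],[k0,k2],[k0,k0,k0,k0,k2]] k48 k5
    [[(k1,k12),(k10,k12),(k9,k15),(k6,k16)],[(k8,k13),(k3,k14),(k5,k14),(k7,k16)],[(k0,k14),(k2,k16),(k4,k16),(k11,
    k16)],[(k3,k16),(k5,k16),(k8,k17),(k7,k18)],[(k0,k14),(k11,k14),(k2,k16),(k4,k16)],[(k3,k16),(k5,k16),(k7,k18),
    (k8,k19)],[(k11,k14),(k0,k16),(k2,k18),(k4,k18)],[(k1,k16),(k10,k16),(k9,k19),(k6,k20)],[(k1,k15),(k10,k15),(k9,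
    k18),(k6,k19)],[(k0,k13),(k11,k15),(k2,k17),(k4,k19)],[(k5,k14),(k7,k14),(k8,k15),(k3,k16)],[(k1,k12),(k10,k12),
    (k9,k15),(k6,k16)]]
    [] k0
    [[k1,k0,k0,k1,k0,k0],[k1,k0,k0,k0,k1,k0],[k1,k1,k0,k0,k1,k0],[k0,k2,k0,k0,k0,k0],[k0,k1,k1,k0,k0,k0],[k0,k0,k2,k0,
    k0,k0],[k0,k0,k0,k1,k0,k1],[k0,k0,k0,k0,k1,k1]]
    [.ref k3 k0 [(z1,[z1])],.ref k1 k0 [(z1,[z1])],.ref k4 k0 [(z1,[z1])],.contra [z1],.ref k2 k0 [(z1,[y1,z1])],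
    .contra [z1],.ref k1 k1 [(z1,[z1])],.ref k0 k0 [(z1,[y1,z1])]])]⟩

/-- classes `0 0 0 1 0 1`, types `C0 C0 C2 B0 C0 B1` -/
noncomputable def cU6_356 : CertX :=
  ⟨[k4,k4,k6,k24,k4,k25],[(false,k0,[k0,k1,k2,k3,k4,k5])],[[[([z1,z1,z1,z1,z0,z0],z2)],[([z1,z1,z1,z0,z1,z0],z2)],
    [([z1,z0,z1,z0,z1,z0],z2)],[]]],
    [.old (.leafM k0 [k0,k1,k2,k3] [] [(k4,k5,z1,[y1,z1]),(k5,k4,z1,[y1,z1])]),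
    .old (.leafM k1 [k0,k1,k2,k4] [] [(k3,k5,z1,[y1,z1]),(k5,k3,z1,[y1,z1])]),
    .old (.leafM k5 [k0,k1,k2,k3,k4,k5] [(z1,[y1,z1]),(z1,[z1])] []),
    .old (.lp [k12,k8,k8,k4,k4,k10] [k0,k0,k2,k2,k2,k2,k4,k4,k4,k4,k1,k1] k0 [[k0,k0,k0,k0,k0,k0,k0,k0,k2],[],[],[],[],[],
    [],[],[],[k0,k2]] k24 k5
    [[(k6,k8),(k9,k8)],[(k11,k9),(k3,k10),(k4,k10),(k5,k10)],[(k7,k6),(k2,k8),(k8,k8),(k0,k10)],[(k3,k8),(k4,k8),(k5,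
    k8),(k11,k9)],[(k7,k6),(k8,k6),(k2,k8),(k0,k10)],[(k7,k6),(k8,k6),(k2,k8),(k0,k10)],[(k3,k6),(k4,k6),(k5,k6),(k11,
    k7)],[(k10,k7),(k1,k8)],[(k10,k7),(k1,k8)],[(k4,k6),(k5,k6),(k11,k7),(k3,k8)],[(k7,k7),(k8,k7),(k0,k9),(k2,k9)],
    [(k6,k7),(k9,k7)]]
    [] k0
    [[k0,k2,k0,k0,k0,k0],[k0,k1,k0,k1,k0,k1],[k0,k0,k0,k1,k0,k1],[k0,k0,k0,k0,k1,k1]]
    [.contra [z1],.ref k2 k0 [(z1,[y1,z1])],.ref k1 k0 [(z1,[y1,z1])],.ref k0 k0 [(z1,[y1,z1])]])]⟩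

/-- classes `0 0 0 1 0 1`, types `C0 C0 C2 B0 C2 B1` -/
noncomputable def cU6_357 : CertX :=
  ⟨[k4,k4,k6,k24,k6,k25],[(false,k0,[k0,k1,k2,k3,k4,k5])],[[[([z1,z1,z1,z1,z0,z0],z2)],[([z1,z1,z0,z0,z1,z0],z2)],
    [([z1,z0,z0,z0,z1,z0],z2)],[]]],
    [.old (.leafM k0 [k0,k1,k2,k3] [] [(k4,k5,z1,[y1,z1]),(k5,k4,z1,[y1,z1])]),
    .old (.leafM k3 [k3,k4,k5,k0,k1,k2] [(z1,[z1])] []),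
    .old (.leafM k1 [k1,k2,k3,k5] [] [(k4,k0,z1,[z1]),(k0,k4,z1,[z1])]),
    .old (.lp [k12,k8,k4,k8,k4,k10] [k0,k0,k2,k2,k4,k4,k2,k2,k4,k4,k1,k1] k0 [[k0,k0,k0,k0,k0,k0,k0,k0,k0,k2],[],[],[],[],
    [],[],[],[k0,k2]] k24 k5
    [[(k9,k8),(k6,k10)],[(k8,k6),(k4,k8),(k5,k8),(k3,k10)],[(k2,k8),(k7,k8),(k0,k10),(k11,k11)],[(k4,k6),(k5,k6),(k8,
    k6),(k3,k8)],[(k2,k6),(k7,k6),(k11,k7),(k0,k8)],[(k2,k6),(k7,k6),(k11,k7),(k0,k8)],[(k4,k6),(k5,k6),(k8,k6),(k3,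
    k8)],[(k10,k9),(k1,k10)],[(k10,k7),(k1,k8)],[(k0,k6),(k2,k6),(k7,k6),(k11,k7)],[(k4,k7),(k5,k7),(k8,k7),(k3,k11)],
    [(k9,k7),(k6,k9)]]
    [] k0
    [[k1,k0,k0,k0,k1,k0],[k0,k2,k0,k0,k0,k0],[k0,k0,k1,k1,k0,k1],[k0,k0,k0,k0,k1,k1]]
    [.ref k2 k0 [(z1,[z1])],.contra [z1],.ref k1 k0 [(z1,[y1,z1])],.ref k0 k0 [(z1,[y1,z1])]])]⟩

/-- classes `0 0 0 1 0 1`, types `C0 C0 C2 C0 C0 C0` -/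
noncomputable def cU6_358 : CertX :=
  ⟨[k4,k4,k6,k20,k4,k20],[(false,k0,[k0,k1,k2,k3,k4,k5])],[[[([z1,z1,z1,z1,z0,z0],z2)],[([z1,z1,z0,z0,z0,z1],z2)],
    [([z1,z0,z0,z0,z0,z1],z2)],[]]],
    [.old (.leafM k0 [k0,k1,k2,k3] [] [(k4,k5,z1,[y1,z1]),(k5,k4,z1,[y1,z1])]),
    .old (.leafM k0 [k1,k2,k3,k4,k5,k0] [(z1,[y1,z1])] []),
    .old (.leafM k0 [k1,k2,k3,k4] [] [(k5,k0,z1,[z1]),(k0,k5,z1,[z1])]),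
    .old (.lp [k24,k18,k6,k18,k18,k8] [k0,k0,k3,k3,k9,k9,k3,k3,k3,k3,k8,k8] k0 [[k0,k0,k0,k0,k0,k0,k0,k0,k4],[],[],[],[],
    [],[],[],[],[k0,k4]] k48 k5
    [[(k10,k16),(k6,k21)],[(k11,k12),(k4,k15),(k5,k15),(k3,k21)],[(k2,k18),(k7,k18),(k0,k21),(k8,k22)],[(k4,k12),(k5,
    k12),(k11,k13),(k3,k18)],[(k2,k12),(k7,k12),(k8,k12),(k0,k15)],[(k2,k12),(k7,k12),(k8,k12),(k0,k15)],[(k4,k12),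
    (k5,k12),(k11,k13),(k3,k18)],[(k9,k18),(k1,k21)],[(k10,k13),(k6,k18)],[(k4,k12),(k5,k12),(k11,k13),(k3,k22)],[(k0,
    k12),(k2,k13),(k7,k13),(k8,k13)],[(k9,k13),(k1,k16)]]
    [] k0
    [[k1,k0,k0,k0,k0,k1],[k0,k2,k0,k0,k0,k0],[k0,k0,k1,k1,k1,k0],[k0,k0,k0,k0,k1,k1]]
    [.ref k2 k0 [(z1,[z1])],.contra [z1],.ref k1 k0 [(z1,[y1,z1])],.ref k0 k0 [(z1,[y1,z1])]])]⟩

/-- classes `0 0 0 1 0 1`, types `C0 C0 C2 C0 C0 C2` -/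
noncomputable def cU6_359 : CertX :=
  ⟨[k4,k4,k6,k20,k4,k22],[(false,k0,[k0,k1,k2,k3,k4,k5])],[[[([z1,z1,z1,z0,z1,z0],z2)],[([z1,z1,z0,z0,z0,z1],z2)],
    [([z1,z0,z1,z0,z1,z0],z2)],[([z1,z0,z0,z0,z0,z1],z2)],[]]],
    [.old (.leafM k1 [k0,k1,k2,k4] [] [(k3,k5,z1,[y1,z1]),(k5,k3,z1,[y1,z1])]),
    .old (.leafM k0 [k1,k2,k3,k4,k5,k0] [(z1,[y1,z1])] []),
    .old (.leafM k5 [k0,k1,k2,k3,k4,k5] [(z1,[y1,z1]),(z1,[z1])] []),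
    .old (.leafM k0 [k1,k2,k3,k4] [] [(k5,k0,z1,[z1]),(k0,k5,z1,[z1])]),
    .old (.lp [k6,k4,k2,k4,k4,k2] [k0,k0,k1,k1,k2,k2,k1,k1,k1,k1,k2,k2] k0 [] k12 k5
    [[(k10,k4),(k9,k5)],[(k4,k4),(k5,k4),(k11,k4),(k3,k5)],[(k2,k4),(k7,k4),(k8,k4),(k0,k5)],[(k4,k3),(k5,k3),(k11,
    k3),(k3,k4)],[(k2,k3),(k7,k3),(k8,k3),(k0,k4)],[(k2,k3),(k7,k3),(k8,k3),(k0,k4)],[(k4,k3),(k5,k3),(k11,k3),(k3,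
    k4)],[(k10,k3),(k9,k4)],[(k6,k4),(k1,k5)],[(k4,k3),(k5,k3),(k11,k3),(k3,k4)],[(k2,k3),(k7,k3),(k8,k3),(k0,k4)],
    [(k6,k3),(k1,k4)]]
    [] k0
    [[k1,k0,k0,k0,k0,k1],[k0,k2,k0,k0,k0,k0],[k0,k1,k0,k1,k0,k1],[k0,k0,k1,k1,k1,k0],[k0,k0,k0,k1,k0,k1]]
    [.ref k3 k0 [(z1,[z1])],.contra [z1],.ref k2 k0 [(z1,[y1,z1])],.ref k1 k0 [(z1,[y1,z1])],.ref k0 k0 [(z1,[y1,
    z1])]])]⟩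

/-- classes `0 0 0 1 0 1`, types `C0 C0 C2 C0 C2 C0` -/
noncomputable def cU6_360 : CertX :=
  ⟨[k4,k4,k6,k20,k6,k20],[(false,k0,[k0,k1,k2,k3,k4,k5])],[[[([z1,z1,z1,z1,z0,z0],z2)],[([z1,z1,z1,z0,z0,z1],z2)],
    [([z1,z0,z1,z0,z0,z1],z2)],[]]],
    [.old (.leafM k0 [k0,k1,k2,k3] [] [(k4,k5,z1,[y1,z1]),(k5,k4,z1,[y1,z1])]),
    .old (.leafM k0 [k0,k1,k2,k5] [] [(k3,k4,z1,[y1,z1]),(k4,k3,z1,[y1,z1])]),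
    .old (.leafM k3 [k0,k1,k2,k3,k4,k5] [(z1,[y1,z1])] []),
    .old (.lp [k24,k18,k6,k18,k8,k18] [k0,k0,k3,k3,k9,k9,k3,k3,k8,k8,k3,k3] k0 [[k0,k0,k0,k0,k0,k0,k0,k0,k0,k4],[],[],[],
    [],[],[],[],[k0,k4]] k48 k5
    [[(k6,k21),(k10,k21)],[(k8,k12),(k4,k15),(k5,k15),(k3,k21)],[(k2,k18),(k7,k18),(k0,k21),(k11,k22)],[(k4,k12),(k5,
    k12),(k8,k13),(k3,k18)],[(k2,k12),(k7,k12),(k11,k12),(k0,k15)],[(k2,k12),(k7,k12),(k11,k12),(k0,k15)],[(k4,k12),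
    (k5,k12),(k8,k13),(k3,k18)],[(k9,k13),(k1,k21)],[(k6,k13),(k10,k13)],[(k0,k12),(k2,k13),(k7,k13),(k11,k13)],[(k4,
    k12),(k5,k12),(k8,k13),(k3,k22)],[(k9,k13),(k1,k21)]]
    [] k0
    [[k0,k2,k0,k0,k0,k0],[k0,k1,k0,k1,k1,k0],[k0,k0,k0,k1,k1,k0],[k0,k0,k0,k0,k1,k1]]
    [.contra [z1],.ref k2 k0 [(z1,[y1,z1])],.ref k1 k0 [(z1,[y1,z1])],.ref k0 k0 [(z1,[y1,z1])]])]⟩

/-- classes `0 0 0 1 0 1`, types `C0 C0 C2 C0 C2 C2` -/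
noncomputable def cU6_361 : CertX :=
  ⟨[k4,k4,k6,k20,k6,k22],[(false,k0,[k0,k1,k2,k3,k4,k5])],[[[([z1,z1,z1,z0,z0,z1],z2)],[([z1,z1,z0,z0,z1,z0],z2)],
    [([z1,z0,z1,z0,z0,z1],z2)],[([z1,z0,z0,z0,z1,z0],z2)],[]]],
    [.old (.leafM k0 [k0,k1,k2,k5] [] [(k3,k4,z1,[y1,z1]),(k4,k3,z1,[y1,z1])]),
    .old (.leafM k3 [k3,k4,k5,k0,k1,k2] [(z1,[z1])] []),
    .old (.leafM k3 [k0,k1,k2,k3,k4,k5] [(z1,[y1,z1])] []),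
    .old (.leafM k1 [k1,k2,k3,k5] [] [(k4,k0,z1,[z1]),(k0,k4,z1,[z1])]),
    .old (.lp [k6,k4,k2,k4,k2,k4] [k0,k0,k1,k1,k2,k2,k1,k1,k2,k2,k1,k1] k0 [] k12 k5
    [[(k9,k4),(k10,k5)],[(k4,k4),(k5,k4),(k8,k4),(k3,k5)],[(k2,k4),(k7,k4),(k11,k4),(k0,k5)],[(k4,k3),(k5,k3),(k8,k3),
    (k3,k4)],[(k2,k3),(k7,k3),(k11,k3),(k0,k4)],[(k2,k3),(k7,k3),(k11,k3),(k0,k4)],[(k4,k3),(k5,k3),(k8,k3),(k3,k4)],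
    [(k9,k3),(k10,k4)],[(k6,k3),(k1,k4)],[(k2,k3),(k7,k3),(k11,k3),(k0,k4)],[(k4,k3),(k5,k3),(k8,k3),(k3,k4)],[(k6,
    k4),(k1,k5)]]
    [] k0
    [[k1,k0,k0,k0,k1,k0],[k0,k2,k0,k0,k0,k0],[k0,k1,k0,k1,k1,k0],[k0,k0,k1,k1,k0,k1],[k0,k0,k0,k1,k1,k0]]
    [.ref k3 k0 [(z1,[z1])],.contra [z1],.ref k2 k0 [(z1,[y1,z1])],.ref k1 k0 [(z1,[y1,z1])],.ref k0 k0 [(z1,[y1,
    z1])]])]⟩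

/-- classes `0 0 0 1 0 1`, types `C0 C0 C2 N0 C0 N1` -/
noncomputable def cU6_362 : CertX :=
  ⟨[k4,k4,k6,k28,k4,k29],[(false,k0,[k0,k1,k2,k3,k4,k5])],[[[([z1,z1,z1,z1,z0,z0],z2)],[]]],
    [.old (.leafM k0 [k0,k1,k2,k3] [] [(k4,k5,z1,[y1,z1]),(k5,k4,z1,[y1,z1])]),
    .old (.lp [k24,k18,k6,k18,k18,k8] [k0,k0,k3,k3,k9,k9,k3,k3,k3,k3,k8,k8] k0 [[k0,k0,k0,k0,k0,k0,k0,k0,k4],[],[],[],[],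
    [],[],[],[],[k0,k4]] k48 k5
    [[(k6,k21)],[(k11,k12),(k4,k15),(k5,k15),(k3,k21)],[(k2,k18),(k7,k18),(k0,k21),(k8,k22)],[(k4,k12),(k5,k12),(k11,
    k13),(k3,k18)],[(k2,k12),(k7,k12),(k8,k12),(k0,k15)],[(k2,k12),(k7,k12),(k8,k12),(k0,k15)],[(k4,k12),(k5,k12),
    (k11,k13),(k3,k18)],[(k1,k21)],[(k10,k13)],[(k4,k12),(k5,k12),(k11,k13),(k3,k22)],[(k0,k12),(k2,k13),(k7,k13),(k8,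
    k13)],[(k9,k13)]]
    [] k0
    [[k0,k2,k0,k0,k0,k0],[k0,k0,k0,k0,k1,k1]]
    [.contra [z1],.ref k0 k0 [(z1,[y1,z1])]])]⟩

/-- classes `0 0 0 1 0 1`, types `C0 C0 C2 N0 C0 N2` -/
noncomputable def cU6_363 : CertX :=
  ⟨[k4,k4,k6,k28,k4,k30],[(false,k0,[k0,k1,k2,k3,k4,k5])],[[[([z1,z1,z1,z0,z1,z0],z2)],[([z1,z0,z1,z0,z1,z0],z2)],
    []]],
    [.old (.leafM k1 [k0,k1,k2,k4] [] [(k3,k5,z1,[y1,z1]),(k5,k3,z1,[y1,z1])]),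
    .old (.leafM k5 [k0,k1,k2,k3,k4,k5] [(z1,[y1,z1]),(z1,[z1])] []),
    .old (.lp [k6,k4,k2,k4,k4,k2] [k0,k0,k1,k1,k2,k2,k1,k1,k1,k1,k2,k2] k0 [] k12 k5
    [[(k9,k5)],[(k4,k4),(k5,k4),(k11,k4),(k3,k5)],[(k2,k4),(k7,k4),(k8,k4),(k0,k5)],[(k4,k3),(k5,k3),(k11,k3),(k3,
    k4)],[(k2,k3),(k7,k3),(k8,k3),(k0,k4)],[(k2,k3),(k7,k3),(k8,k3),(k0,k4)],[(k4,k3),(k5,k3),(k11,k3),(k3,k4)],[(k10,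
    k3)],[(k1,k5)],[(k4,k3),(k5,k3),(k11,k3),(k3,k4)],[(k2,k3),(k7,k3),(k8,k3),(k0,k4)],[(k6,k3)]]
    [] k0
    [[k0,k2,k0,k0,k0,k0],[k0,k1,k0,k1,k0,k1],[k0,k0,k0,k1,k0,k1]]
    [.contra [z1],.ref k1 k0 [(z1,[y1,z1])],.ref k0 k0 [(z1,[y1,z1])]])]⟩

/-- classes `0 0 0 1 0 1`, types `C0 C0 C2 N0 C2 N1` -/
noncomputable def cU6_364 : CertX :=
  ⟨[k4,k4,k6,k28,k6,k29],[(false,k0,[k0,k1,k2,k3,k4,k5])],[[[([z1,z1,z1,z1,z0,z0],z2)],[]]],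
    [.old (.leafM k0 [k0,k1,k2,k3] [] [(k4,k5,z1,[y1,z1]),(k5,k4,z1,[y1,z1])]),
    .old (.lp [k24,k18,k6,k18,k8,k18] [k0,k0,k3,k3,k9,k9,k3,k3,k8,k8,k3,k3] k0 [[k0,k0,k0,k0,k0,k0,k0,k0,k0,k4],[],[],[],
    [],[],[],[],[k0,k4]] k48 k5
    [[(k6,k21)],[(k8,k12),(k4,k15),(k5,k15),(k3,k21)],[(k2,k18),(k7,k18),(k0,k21),(k11,k22)],[(k4,k12),(k5,k12),(k8,
    k13),(k3,k18)],[(k2,k12),(k7,k12),(k11,k12),(k0,k15)],[(k2,k12),(k7,k12),(k11,k12),(k0,k15)],[(k4,k12),(k5,k12),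
    (k8,k13),(k3,k18)],[(k1,k21)],[(k10,k13)],[(k0,k12),(k2,k13),(k7,k13),(k11,k13)],[(k4,k12),(k5,k12),(k8,k13),(k3,
    k22)],[(k9,k13)]]
    [] k0
    [[k0,k2,k0,k0,k0,k0],[k0,k0,k0,k0,k1,k1]]
    [.contra [z1],.ref k0 k0 [(z1,[y1,z1])]])]⟩

/-- classes `0 0 0 1 0 1`, types `C0 C0 C2 N0 C2 N2` -/
noncomputable def cU6_365 : CertX :=
  ⟨[k4,k4,k6,k28,k6,k30],[(false,k0,[k0,k1,k2,k3,k4,k5])],[[[([z1,z1,z0,z0,z1,z0],z2)],[([z1,z0,z0,z0,z1,z0],z2)],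
    []]],
    [.old (.leafM k3 [k3,k4,k5,k0,k1,k2] [(z1,[z1])] []),
    .old (.leafM k1 [k1,k2,k3,k5] [] [(k4,k0,z1,[z1]),(k0,k4,z1,[z1])]),
    .old (.lp [k2,k4,k2,k2,k2,k2] [k1,k1,k0,k0,k1,k1,k1,k1,k1,k1,k1,k1] k0 [] k8 k5
    [[(k9,k2)],[(k4,k2),(k5,k2),(k8,k2),(k3,k3)],[(k0,k3),(k7,k3),(k11,k3),(k2,k4)],[(k4,k3),(k5,k3),(k8,k3),(k3,k4)],
    [(k0,k2),(k7,k2),(k11,k2),(k2,k3)],[(k0,k2),(k7,k2),(k11,k2),(k2,k3)],[(k4,k2),(k5,k2),(k8,k2),(k3,k3)],[(k10,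
    k2)],[(k1,k2)],[(k0,k2),(k7,k2),(k11,k2),(k2,k3)],[(k4,k2),(k5,k2),(k8,k2),(k3,k3)],[(k6,k2)]]
    [] k0
    [[k1,k0,k0,k0,k1,k0],[k0,k0,k1,k1,k0,k1]]
    [.ref k1 k0 [(z1,[z1])],.ref k0 k0 [(z1,[y1,z1])]])]⟩

/-- classes `0 0 0 1 0 1`, types `C0 C0 C2 S0 C0 S0` -/
noncomputable def cU6_366 : CertX :=
  ⟨[k4,k4,k6,k16,k4,k16],[(false,k0,[k0,k1,k2,k3,k4,k5])],[[[([z1,z1,z1,z1,z0,z0],z2)],[([z1,z1,z1,z0,z1,z0],z2)],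
    [([z1,z0,z1,z0,z1,z0],z2)],[([z1,z0,z0,z0,z0,z1],z2)],[([z1,z1,z0,z0,z0,z1],z2)],[]]],
    [.old (.leafM k0 [k0,k1,k2,k3] [] [(k4,k5,z1,[y1,z1]),(k5,k4,z1,[y1,z1])]),
    .old (.leafM k1 [k0,k1,k2,k4] [] [(k3,k5,z1,[y1,z1]),(k5,k3,z1,[y1,z1])]),
    .old (.leafM k5 [k0,k1,k2,k3,k4,k5] [(z1,[y1,z1]),(z1,[z1])] []),
    .old (.leafM k0 [k1,k2,k3,k4] [] [(k5,k0,z1,[z1]),(k0,k5,z1,[z1])]),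
    .old (.leafM k0 [k1,k2,k3,k4,k5,k0] [(z1,[y1,z1])] []),
    .old (.lp [k18,k16,k12,k18,k18,k12] [k0,k0,k1,k1,k3,k3,k0,k0,k0,k0,k3,k3] k0 [[k0,k0,k0,k0,k0,k0,k0,k0,k2],[],[],[],
    [],[],[],[],[],[k0,k2]] k48 k5
    [[(k10,k15),(k1,k18),(k6,k18),(k9,k18)],[(k11,k13),(k4,k15),(k5,k15),(k3,k17)],[(k2,k16),(k0,k17),(k7,k17),(k8,
    k19)],[(k4,k14),(k5,k14),(k11,k14),(k3,k16)],[(k2,k14),(k0,k15),(k7,k15),(k8,k15)],[(k2,k14),(k0,k15),(k7,k15),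
    (k8,k15)],[(k4,k15),(k5,k15),(k11,k15),(k3,k17)],[(k10,k15),(k1,k18),(k6,k18),(k9,k18)],[(k10,k15),(k1,k18),(k6,
    k18),(k9,k18)],[(k4,k15),(k5,k15),(k11,k15),(k3,k19)],[(k0,k13),(k2,k14),(k7,k15),(k8,k15)],[(k10,k12),(k1,k15),
    (k6,k15),(k9,k15)]]
    [] k0
    [[k1,k0,k0,k0,k0,k1],[k1,k1,k0,k0,k0,k1],[k0,k2,k0,k0,k0,k0],[k0,k1,k0,k1,k0,k1],[k0,k0,k0,k1,k0,k1],[k0,k0,k0,k0,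
    k1,k1]]
    [.ref k3 k0 [(z1,[z1])],.ref k4 k0 [(z1,[z1])],.contra [z1],.ref k2 k0 [(z1,[y1,z1])],.ref k1 k0 [(z1,[y1,z1])],
    .ref k0 k0 [(z1,[y1,z1])]])]⟩

/-- classes `0 0 0 1 0 1`, types `C0 C0 C2 S0 C2 S0` -/
noncomputable def cU6_367 : CertX :=
  ⟨[k4,k4,k6,k16,k6,k16],[(false,k0,[k0,k1,k2,k3,k4,k5])],[[[([z1,z1,z1,z1,z0,z0],z2)],[([z1,z1,z1,z0,z0,z1],z2)],
    [([z1,z0,z1,z0,z0,z1],z2)],[([z1,z0,z0,z0,z1,z0],z2)],[([z1,z1,z0,z0,z1,z0],z2)],[]]],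
    [.old (.leafM k0 [k0,k1,k2,k3] [] [(k4,k5,z1,[y1,z1]),(k5,k4,z1,[y1,z1])]),
    .old (.leafM k0 [k0,k1,k2,k5] [] [(k3,k4,z1,[y1,z1]),(k4,k3,z1,[y1,z1])]),
    .old (.leafM k3 [k0,k1,k2,k3,k4,k5] [(z1,[y1,z1])] []),
    .old (.leafM k1 [k1,k2,k3,k5] [] [(k4,k0,z1,[z1]),(k0,k4,z1,[z1])]),
    .old (.leafM k3 [k3,k4,k5,k0,k1,k2] [(z1,[z1])] []),
    .old (.lp [k18,k16,k12,k18,k12,k18] [k0,k0,k1,k1,k3,k3,k0,k0,k3,k3,k0,k0] k0 [[k0,k0,k0,k0,k0,k0,k0,k0,k0,k2],[],[],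
    [],[],[],[],[],[k0,k2]] k48 k5
    [[(k9,k15),(k1,k18),(k6,k18),(k10,k18)],[(k8,k13),(k4,k15),(k5,k15),(k3,k17)],[(k2,k16),(k0,k17),(k7,k17),(k11,
    k19)],[(k4,k14),(k5,k14),(k8,k14),(k3,k16)],[(k2,k14),(k0,k15),(k7,k15),(k11,k15)],[(k2,k14),(k0,k15),(k7,k15),
    (k11,k15)],[(k4,k15),(k5,k15),(k8,k15),(k3,k17)],[(k9,k15),(k1,k18),(k6,k18),(k10,k18)],[(k9,k12),(k1,k15),(k6,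
    k15),(k10,k15)],[(k0,k13),(k2,k14),(k7,k15),(k11,k15)],[(k4,k15),(k5,k15),(k8,k15),(k3,k19)],[(k9,k15),(k1,k18),
    (k6,k18),(k10,k18)]]
    [] k0
    [[k1,k0,k0,k0,k1,k0],[k1,k1,k0,k0,k1,k0],[k0,k2,k0,k0,k0,k0],[k0,k1,k0,k1,k1,k0],[k0,k0,k0,k1,k1,k0],[k0,k0,k0,k0,
    k1,k1]]
    [.ref k3 k0 [(z1,[z1])],.ref k4 k0 [(z1,[z1])],.contra [z1],.ref k2 k0 [(z1,[y1,z1])],.ref k1 k0 [(z1,[y1,z1])],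
    .ref k0 k0 [(z1,[y1,z1])]])]⟩

/-- classes `0 0 0 1 0 1`, types `C0 C2 C0 B0 C0 B1` -/
noncomputable def cU6_368 : CertX :=
  ⟨[k4,k6,k4,k24,k4,k25],[(false,k0,[k0,k1,k2,k3,k4,k5])],[[[([z1,z1,z1,z1,z0,z0],z2)],[([z1,z1,z0,z0,z1,z0],z2)],
    [([z1,z0,z0,z1,z1,z1],z2)],[([z1,z0,z0,z1,z0,z0],z2)],[]]],
    [.old (.leafM k0 [k0,k1,k2,k3] [] [(k4,k5,z1,[y1,z1]),(k5,k4,z1,[y1,z1])]),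
    .old (.leafM k3 [k3,k4,k5,k0,k1,k2] [(z1,[z1])] []),
    .old (.leafM k2 [k0,k3,k4,k5] [] [(k1,k2,z1,[y1,z1]),(k2,k1,z1,[y1,z1])]),
    .old (.leafM k6 [k2,k4,k5,k1] [] [(k3,k0,z1,[z1]),(k0,k3,z1,[z1])]),
    .old (.lp [k4,k2,k2,k2,k2,k2] [k0,k0,k1,k1,k1,k1,k1,k1,k1,k1,k1,k1] k0 [] k8 k5
    [[(k6,k3),(k9,k3)],[(k2,k3),(k3,k3),(k7,k3),(k11,k3)],[(k4,k2),(k5,k2),(k8,k2),(k0,k3)],[(k4,k2),(k5,k2),(k8,k2),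
    (k0,k3)],[(k2,k2),(k3,k2),(k7,k2),(k11,k2)],[(k2,k2),(k3,k2),(k7,k2),(k11,k2)],[(k4,k2),(k5,k2),(k8,k2),(k0,k3)],
    [(k10,k2),(k1,k3)],[(k10,k2),(k1,k3)],[(k2,k2),(k3,k2),(k7,k2),(k11,k2)],[(k4,k2),(k5,k2),(k8,k2),(k0,k3)],[(k6,
    k2),(k9,k2)]]
    [] k0
    [[k1,k0,k0,k1,k0,k0],[k0,k1,k1,k0,k0,k0],[k0,k0,k1,k1,k0,k1],[k0,k0,k0,k0,k1,k1]]
    [.ref k3 k0 [(z1,[z1])],.ref k2 k0 [(z1,[y1,z1])],.ref k1 k0 [(z1,[y1,z1])],.ref k0 k0 [(z1,[y1,z1])]])]⟩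

/-- classes `0 0 0 1 0 1`, types `C0 C2 C0 B0 C2 B1` -/
noncomputable def cU6_369 : CertX :=
  ⟨[k4,k6,k4,k24,k6,k25],[(false,k0,[k0,k1,k2,k3,k4,k5]),(true,k3,[k3,k2,k1,k0,k5,k4])],[[[([z1,z1,z1,z1,z0,z0],z2)],
    [([z1,z0,z0,z0,z1,z0],z2)],[([z1,z0,z0,z1,z1,z1],z2)],[([z1,z0,z0,z1,z0,z0],z2)],[]]],
    [.old (.leafM k0 [k0,k1,k2,k3] [] [(k4,k5,z1,[y1,z1]),(k5,k4,z1,[y1,z1])]),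
    .old (.leafM k1 [k1,k2,k3,k5] [] [(k4,k0,z1,[z1]),(k0,k4,z1,[z1])]),
    .old (.leafM k2 [k0,k3,k4,k5] [] [(k1,k2,z1,[y1,z1]),(k2,k1,z1,[y1,z1])]),
    .old (.leafM k5 [k1,k2,k4,k5] [] [(k3,k0,z1,[z1]),(k0,k3,z1,[z1])]),
    .old (.lp [k2,k0,k2,k0,k0,k2] [k0,k0,k1,k1,k0,k0,k1,k1,k1,k1,k0,k0] k0 [] k4 k5
    [[(k6,k1),(k9,k1)],[(k2,k1),(k3,k1),(k7,k1),(k8,k1)],[(k0,k1),(k4,k1),(k5,k1),(k11,k1)],[(k0,k1),(k4,k1),(k5,k1),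
    (k11,k1)],[(k2,k1),(k3,k1),(k7,k1),(k8,k1)],[(k2,k1),(k3,k1),(k7,k1),(k8,k1)],[(k0,k1),(k4,k1),(k5,k1),(k11,k1)],
    [(k1,k1),(k10,k1)],[(k1,k1),(k10,k1)],[(k0,k1),(k4,k1),(k5,k1),(k11,k1)],[(k2,k1),(k3,k1),(k7,k1),(k8,k1)],[(k6,
    k1),(k9,k1)]]
    [] k0
    [[k1,k0,k0,k1,k0,k0],[k1,k0,k0,k0,k1,k0],[k0,k1,k1,k0,k0,k0],[k0,k0,k0,k1,k0,k1],[k0,k0,k0,k0,k1,k1]]
    [.ref k3 k0 [(z1,[z1])],.ref k1 k0 [(z1,[z1])],.ref k2 k0 [(z1,[y1,z1])],.ref k1 k1 [(z1,[z1])],.ref k0 k0 [(z1,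
    [y1,z1])]])]⟩

/-- classes `0 0 0 1 0 1`, types `C0 C2 C0 C0 C0 C0` -/
noncomputable def cU6_370 : CertX :=
  ⟨[k4,k6,k4,k20,k4,k20],[(false,k0,[k0,k1,k2,k3,k4,k5]),(true,k3,[k3,k2,k1,k0,k5,k4])],[[[([z1,z1,z1,z1,z0,z0],z2)],
    [([z1,z0,z0,z0,z0,z1],z2)],[([z1,z0,z0,z1,z1,z1],z2)],[([z1,z0,z0,z1,z0,z0],z2)],[]]],
    [.old (.leafM k0 [k0,k1,k2,k3] [] [(k4,k5,z1,[y1,z1]),(k5,k4,z1,[y1,z1])]),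
    .old (.leafM k0 [k1,k2,k3,k4] [] [(k5,k0,z1,[z1]),(k0,k5,z1,[z1])]),
    .old (.leafM k0 [k0,k3,k4,k5] [] [(k1,k2,z1,[y1,z1]),(k2,k1,z1,[y1,z1])]),
    .old (.leafM k6 [k2,k4,k5,k1] [] [(k3,k0,z1,[z1]),(k0,k3,z1,[z1])]),
    .old (.lp [k0,k2,k0,k2,k0,k2] [k1,k1,k0,k0,k1,k1,k0,k0,k1,k1,k0,k0] k0 [] k4 k5
    [[(k6,k1),(k10,k1)],[(k2,k1),(k3,k1),(k7,k1),(k11,k1)],[(k0,k1),(k4,k1),(k5,k1),(k8,k1)],[(k0,k1),(k4,k1),(k5,k1),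
    (k8,k1)],[(k2,k1),(k3,k1),(k7,k1),(k11,k1)],[(k2,k1),(k3,k1),(k7,k1),(k11,k1)],[(k0,k1),(k4,k1),(k5,k1),(k8,k1)],
    [(k1,k1),(k9,k1)],[(k6,k1),(k10,k1)],[(k2,k1),(k3,k1),(k7,k1),(k11,k1)],[(k0,k1),(k4,k1),(k5,k1),(k8,k1)],[(k1,
    k1),(k9,k1)]]
    [] k0
    [[k1,k0,k0,k1,k0,k0],[k1,k0,k0,k0,k0,k1],[k0,k1,k1,k0,k0,k0],[k0,k0,k0,k1,k1,k0],[k0,k0,k0,k0,k1,k1]]
    [.ref k3 k0 [(z1,[z1])],.ref k1 k0 [(z1,[z1])],.ref k2 k0 [(z1,[y1,z1])],.ref k1 k1 [(z1,[z1])],.ref k0 k0 [(z1,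
    [y1,z1])]])]⟩

/-- classes `0 0 0 1 0 1`, types `C0 C2 C0 C0 C0 C2` -/
noncomputable def cU6_371 : CertX :=
  ⟨[k4,k6,k4,k20,k4,k22],[(false,k0,[k0,k1,k2,k3,k4,k5]),(true,k3,[k3,k2,k1,k0,k5,k4])],[[[([z1,z0,z0,z0,z0,z1],z2)],
    [([z1,z1,z0,z0,z1,z0],z2)],[([z1,z0,z0,z1,z1,z1],z2)],[]]],
    [.old (.leafM k0 [k1,k2,k3,k4] [] [(k5,k0,z1,[z1]),(k0,k5,z1,[z1])]),
    .old (.leafM k3 [k3,k4,k5,k0,k1,k2] [(z1,[z1])] []),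
    .old (.leafM k0 [k0,k3,k4,k5] [] [(k1,k2,z1,[y1,z1]),(k2,k1,z1,[y1,z1])]),
    .old (.lp [k4,k2,k2,k2,k2,k2] [k0,k0,k1,k1,k1,k1,k1,k1,k1,k1,k1,k1] k0 [] k8 k5
    [[(k9,k3),(k10,k3)],[(k2,k3),(k3,k3),(k7,k3),(k11,k3)],[(k4,k2),(k5,k2),(k8,k2),(k0,k3)],[(k4,k2),(k5,k2),(k8,k2),
    (k0,k3)],[(k2,k2),(k3,k2),(k7,k2),(k11,k2)],[(k2,k2),(k3,k2),(k7,k2),(k11,k2)],[(k4,k2),(k5,k2),(k8,k2),(k0,k3)],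
    [(k9,k2),(k10,k2)],[(k6,k2),(k1,k3)],[(k2,k2),(k3,k2),(k7,k2),(k11,k2)],[(k4,k2),(k5,k2),(k8,k2),(k0,k3)],[(k6,
    k2),(k1,k3)]]
    [] k0
    [[k1,k0,k0,k0,k0,k1],[k0,k1,k1,k0,k0,k0],[k0,k0,k1,k1,k0,k1],[k0,k0,k0,k1,k1,k0]]
    [.ref k0 k0 [(z1,[z1])],.ref k2 k0 [(z1,[y1,z1])],.ref k1 k0 [(z1,[y1,z1])],.ref k0 k1 [(z1,[z1])]])]⟩

/-- classes `0 0 0 1 0 1`, types `C0 C2 C0 C0 C2 C0` -/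
noncomputable def cU6_372 : CertX :=
  ⟨[k4,k6,k4,k20,k6,k20],[(false,k0,[k0,k1,k2,k3,k4,k5])],[[[([z1,z1,z1,z1,z0,z0],z2)],[([z1,z0,z0,z1,z1,z1],z2)],
    [([z1,z0,z0,z1,z0,z0],z2)],[([z1,z1,z0,z0,z0,z1],z2)],[]]],
    [.old (.leafM k0 [k0,k1,k2,k3] [] [(k4,k5,z1,[y1,z1]),(k5,k4,z1,[y1,z1])]),
    .old (.leafM k0 [k0,k3,k4,k5] [] [(k1,k2,z1,[y1,z1]),(k2,k1,z1,[y1,z1])]),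
    .old (.leafM k5 [k1,k2,k4,k5] [] [(k3,k0,z1,[z1]),(k0,k3,z1,[z1])]),
    .old (.leafM k0 [k1,k2,k3,k4,k5,k0] [(z1,[y1,z1])] []),
    .old (.lp [k2,k2,k2,k2,k4,k2] [k1,k1,k1,k1,k1,k1,k1,k1,k0,k0,k1,k1] k0 [] k8 k5
    [[(k6,k2),(k10,k2)],[(k2,k2),(k3,k2),(k7,k2),(k8,k3)],[(k0,k2),(k4,k2),(k5,k2),(k11,k2)],[(k0,k2),(k4,k2),(k5,k2),
    (k11,k2)],[(k2,k2),(k3,k2),(k7,k2),(k8,k3)],[(k2,k2),(k3,k2),(k7,k2),(k8,k3)],[(k0,k2),(k4,k2),(k5,k2),(k11,k2)],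
    [(k1,k2),(k9,k3)],[(k6,k3),(k10,k3)],[(k0,k3),(k4,k3),(k5,k3),(k11,k3)],[(k2,k2),(k3,k2),(k7,k2),(k8,k3)],[(k1,
    k2),(k9,k3)]]
    [] k0
    [[k1,k0,k0,k1,k0,k0],[k1,k1,k0,k0,k0,k1],[k0,k1,k1,k0,k0,k0],[k0,k0,k0,k0,k1,k1]]
    [.ref k2 k0 [(z1,[z1])],.ref k3 k0 [(z1,[z1])],.ref k1 k0 [(z1,[y1,z1])],.ref k0 k0 [(z1,[y1,z1])]])]⟩

/-- classes `0 0 0 1 0 1`, types `C0 C2 C0 C0 C2 C2` -/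
noncomputable def cU6_373 : CertX :=
  ⟨[k4,k6,k4,k20,k6,k22],[(false,k0,[k0,k1,k2,k3,k4,k5]),(true,k3,[k3,k2,k1,k0,k5,k4])],[[[([z1,z0,z0,z0,z1,z0],z2)],
    [([z1,z1,z0,z0,z0,z1],z2)],[([z1,z0,z0,z1,z1,z1],z2)],[]]],
    [.old (.leafM k1 [k1,k2,k3,k5] [] [(k4,k0,z1,[z1]),(k0,k4,z1,[z1])]),
    .old (.leafM k0 [k1,k2,k3,k4,k5,k0] [(z1,[y1,z1])] []),
    .old (.leafM k0 [k0,k3,k4,k5] [] [(k1,k2,z1,[y1,z1]),(k2,k1,z1,[y1,z1])]),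
    .old (.lp [k4,k2,k2,k2,k2,k2] [k0,k0,k1,k1,k1,k1,k1,k1,k1,k1,k1,k1] k0 [] k8 k5
    [[(k9,k3),(k10,k3)],[(k2,k3),(k3,k3),(k7,k3),(k8,k3)],[(k4,k2),(k5,k2),(k11,k2),(k0,k3)],[(k4,k2),(k5,k2),(k11,
    k2),(k0,k3)],[(k2,k2),(k3,k2),(k7,k2),(k8,k2)],[(k2,k2),(k3,k2),(k7,k2),(k8,k2)],[(k4,k2),(k5,k2),(k11,k2),(k0,
    k3)],[(k9,k2),(k10,k2)],[(k6,k2),(k1,k3)],[(k4,k2),(k5,k2),(k11,k2),(k0,k3)],[(k2,k2),(k3,k2),(k7,k2),(k8,k2)],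
    [(k6,k2),(k1,k3)]]
    [] k0
    [[k1,k0,k0,k0,k1,k0],[k0,k1,k1,k0,k0,k0],[k0,k0,k1,k1,k1,k0],[k0,k0,k0,k1,k0,k1]]
    [.ref k0 k0 [(z1,[z1])],.ref k2 k0 [(z1,[y1,z1])],.ref k1 k0 [(z1,[y1,z1])],.ref k0 k1 [(z1,[z1])]])]⟩

/-- classes `0 0 0 1 0 1`, types `C0 C2 C0 N0 C0 N1` -/
noncomputable def cU6_374 : CertX :=
  ⟨[k4,k6,k4,k28,k4,k29],[(false,k0,[k0,k1,k2,k3,k4,k5])],[[[([z1,z1,z1,z1,z0,z0],z2)],[([z1,z0,z0,z1,z0,z0],z2)],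
    [([z1,z0,z0,z1,z0,z0],z1),([z0,z1,z1,z0,z0,z0],z2)],[([z1,z0,z0,z1,z1,z1],z2)],[]]],
    [.old (.leafM k0 [k0,k1,k2,k3] [] [(k4,k5,z1,[y1,z1]),(k5,k4,z1,[y1,z1])]),
    .old (.leafM k6 [k2,k4,k5,k1] [] [(k3,k0,z1,[z1]),(k0,k3,z1,[z1])]),
    .old (.leafM k4 [k3,k4,k5,k0] [(z1,[y1,y1,z1])] [(k1,k2,z1,[z0,z1]),(k2,k1,z1,[z0,z1])]),
    .old (.lp [(nat_lit 2040),(nat_lit 5950),(nat_lit 1190),(nat_lit 1680),k0,(nat_lit 2856)] [(nat_lit 1955),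
    (nat_lit 1955),k0,k0,(nat_lit 2380),(nat_lit 2380),(nat_lit 2135),(nat_lit 2135),(nat_lit 2975),(nat_lit 2975),
    (nat_lit 1547),(nat_lit 1547)] k0 [[],[],[],[],[k0,k0,k0,k0,k0,k0,k0,k0,(nat_lit 595)],[],[],[],[],[k0,k0,k0,k0,
    k0,(nat_lit 595)]] (nat_lit 7140) k6
    [[(k6,(nat_lit 1860))],[(k7,(nat_lit 1860)),(k11,(nat_lit 2448)),(k2,(nat_lit 3995)),(k3,(nat_lit 3995))],[(k8,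
    (nat_lit 2975)),(k4,(nat_lit 3570)),(k5,(nat_lit 3570)),(k0,(nat_lit 3995))],[(k8,(nat_lit 2975)),(k4,
    (nat_lit 3570)),(k5,(nat_lit 3570)),(k0,(nat_lit 3995))],[(k7,(nat_lit 1435)),(k11,(nat_lit 2023)),(k2,
    (nat_lit 3570)),(k3,(nat_lit 3570))],[(k11,(nat_lit 1428)),(k7,(nat_lit 1435)),(k2,(nat_lit 3570)),(k3,
    (nat_lit 3570))],[(k4,(nat_lit 1435)),(k5,(nat_lit 1435)),(k8,(nat_lit 1435)),(k0,(nat_lit 1860))],[(k1,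
    (nat_lit 1860))],[(k10,(nat_lit 1428))],[(k11,(nat_lit 1428)),(k7,(nat_lit 1435)),(k2,(nat_lit 2975)),(k3,
    (nat_lit 2975))],[(k4,(nat_lit 1428)),(k8,(nat_lit 1428)),(k5,(nat_lit 2023)),(k0,(nat_lit 2448))],[(k9,
    (nat_lit 1428))]]
    [] k0
    [[k1,k0,k0,k1,k0,k0],[k0,k0,k0,k0,k1,k1],[k0,k0,k0,k0,k2,k2]]
    [.contra [y1,z1],.contra [y1,z1],.ref k2 k0 [(z2,[y1,z2]),(z1,[z0,y1,z1])]]),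
    .old (.lp [k0,k2,k0,k2,k0,k2] [k1,k1,k0,k0,k1,k1,k0,k0,k1,k1,k0,k0] k0 [] k4 k5
    [[(k6,k1)],[(k2,k1),(k3,k1),(k7,k1),(k11,k1)],[(k0,k1),(k4,k1),(k5,k1),(k8,k1)],[(k0,k1),(k4,k1),(k5,k1),(k8,k1)],
    [(k2,k1),(k3,k1),(k7,k1),(k11,k1)],[(k2,k1),(k3,k1),(k7,k1),(k11,k1)],[(k0,k1),(k4,k1),(k5,k1),(k8,k1)],[(k1,k1)],
    [(k10,k1)],[(k2,k1),(k3,k1),(k7,k1),(k11,k1)],[(k0,k1),(k4,k1),(k5,k1),(k8,k1)],[(k9,k1)]]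
    [] k0
    [[k1,k0,k0,k1,k0,k0],[k0,k1,k1,k0,k0,k0],[k0,k0,k0,k0,k1,k1]]
    [.ref k1 k0 [(z1,[z1])],.ref k3 k0 [(z1,[y1,z1])],.ref k0 k0 [(z1,[y1,z1])]])]⟩

/-- classes `0 0 0 1 0 1`, types `C0 C2 C0 N0 C0 N2` -/
noncomputable def cU6_375 : CertX :=
  ⟨[k4,k6,k4,k28,k4,k30],[(false,k0,[k0,k1,k2,k3,k4,k5])],[[[([z1,z1,z0,z0,z1,z0],z2)],[([z1,z0,z0,z1,z1,z1],z2)],
    []]],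
    [.old (.leafM k3 [k3,k4,k5,k0,k1,k2] [(z1,[z1])] []),
    .old (.leafM k2 [k0,k3,k4,k5] [] [(k1,k2,z1,[y1,z1]),(k2,k1,z1,[y1,z1])]),
    .old (.lp [k4,k2,k2,k2,k2,k2] [k0,k0,k1,k1,k1,k1,k1,k1,k1,k1,k1,k1] k0 [] k8 k5
    [[(k9,k3)],[(k2,k3),(k3,k3),(k7,k3),(k11,k3)],[(k4,k2),(k5,k2),(k8,k2),(k0,k3)],[(k4,k2),(k5,k2),(k8,k2),(k0,k3)],
    [(k2,k2),(k3,k2),(k7,k2),(k11,k2)],[(k2,k2),(k3,k2),(k7,k2),(k11,k2)],[(k4,k2),(k5,k2),(k8,k2),(k0,k3)],[(k10,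
    k2)],[(k1,k3)],[(k2,k2),(k3,k2),(k7,k2),(k11,k2)],[(k4,k2),(k5,k2),(k8,k2),(k0,k3)],[(k6,k2)]]
    [] k0
    [[k0,k1,k1,k0,k0,k0],[k0,k0,k1,k1,k0,k1]]
    [.ref k1 k0 [(z1,[y1,z1])],.ref k0 k0 [(z1,[y1,z1])]])]⟩

/-- classes `0 0 0 1 0 1`, types `C0 C2 C0 N0 C2 N1` -/
noncomputable def cU6_376 : CertX :=
  ⟨[k4,k6,k4,k28,k6,k29],[(false,k0,[k0,k1,k2,k3,k4,k5])],[[[([z1,z1,z1,z1,z0,z0],z2)],[([z1,z0,z0,z1,z0,z0],z2)],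
    [([z1,z0,z0,z1,z0,z0],z1),([z0,z1,z1,z0,z0,z0],z2)],[([z1,z0,z0,z1,z1,z1],z2)],[]]],
    [.old (.leafM k0 [k0,k1,k2,k3] [] [(k4,k5,z1,[y1,z1]),(k5,k4,z1,[y1,z1])]),
    .old (.leafM k5 [k1,k2,k4,k5] [] [(k3,k0,z1,[z1]),(k0,k3,z1,[z1])]),
    .old (.leafM k4 [k3,k4,k5,k0] [(z1,[y1,y1,z1])] [(k1,k2,z1,[z0,z1]),(k2,k1,z1,[z0,z1])]),
    .old (.lp [k2,k22,k2,k8,k12,k0] [k10,k10,k0,k0,k10,k10,k7,k7,k5,k5,k11,k11] k0 [[],[],[],[],[k0,k0,k0,k0,k0,k0,k0,k0,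
    k0,k2],[],[],[],[k0,k0,k0,k0,k0,k2]] k24 k6
    [[(k6,k5)],[(k7,k5),(k8,k7),(k2,k12),(k3,k12)],[(k11,k11),(k0,k12),(k4,k12),(k5,k12)],[(k11,k11),(k0,k12),(k4,
    k12),(k5,k12)],[(k7,k5),(k8,k7),(k2,k12),(k3,k12)],[(k7,k5),(k8,k5),(k2,k12),(k3,k12)],[(k0,k5),(k4,k5),(k5,k5),
    (k11,k6)],[(k1,k5)],[(k10,k6)],[(k4,k5),(k11,k6),(k0,k7),(k5,k7)],[(k7,k6),(k8,k6),(k2,k11),(k3,k11)],[(k9,k6)]]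
    [] k0
    [[k1,k0,k0,k1,k0,k0],[k2,k0,k0,k2,k0,k0],[k0,k0,k0,k0,k1,k1]]
    [.contra [y1,z1],.ref k2 k0 [(z2,[z1]),(z1,[z0,y1,z1])],.contra [y1,z1]]),
    .old (.lp [k0,k2,k0,k2,k2,k0] [k1,k1,k0,k0,k1,k1,k0,k0,k0,k0,k1,k1] k0 [] k4 k5
    [[(k6,k1)],[(k2,k1),(k3,k1),(k7,k1),(k8,k1)],[(k0,k1),(k4,k1),(k5,k1),(k11,k1)],[(k0,k1),(k4,k1),(k5,k1),(k11,
    k1)],[(k2,k1),(k3,k1),(k7,k1),(k8,k1)],[(k2,k1),(k3,k1),(k7,k1),(k8,k1)],[(k0,k1),(k4,k1),(k5,k1),(k11,k1)],[(k1,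
    k1)],[(k10,k1)],[(k0,k1),(k4,k1),(k5,k1),(k11,k1)],[(k2,k1),(k3,k1),(k7,k1),(k8,k1)],[(k9,k1)]]
    [] k0
    [[k1,k0,k0,k1,k0,k0],[k0,k1,k1,k0,k0,k0],[k0,k0,k0,k0,k1,k1]]
    [.ref k1 k0 [(z1,[z1])],.ref k3 k0 [(z1,[y1,z1])],.ref k0 k0 [(z1,[y1,z1])]])]⟩

/-- classes `0 0 0 1 0 1`, types `C0 C2 C0 N0 C2 N2` -/
noncomputable def cU6_377 : CertX :=
  ⟨[k4,k6,k4,k28,k6,k30],[(false,k0,[k0,k1,k2,k3,k4,k5]),(true,k3,[k3,k2,k1,k0,k5,k4])],[[[([z1,z0,z0,z0,z1,z0],z2)],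
    [([z1,z0,z0,z1,z1,z1],z2)],[]]],
    [.old (.leafM k1 [k1,k2,k3,k5] [] [(k4,k0,z1,[z1]),(k0,k4,z1,[z1])]),
    .old (.leafM k2 [k0,k3,k4,k5] [] [(k1,k2,z1,[y1,z1]),(k2,k1,z1,[y1,z1])]),
    .old (.lp [k0,k2,k0,k2,k2,k0] [k1,k1,k0,k0,k1,k1,k0,k0,k0,k0,k1,k1] k0 [] k4 k5
    [[(k9,k1)],[(k2,k1),(k3,k1),(k7,k1),(k8,k1)],[(k0,k1),(k4,k1),(k5,k1),(k11,k1)],[(k0,k1),(k4,k1),(k5,k1),(k11,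
    k1)],[(k2,k1),(k3,k1),(k7,k1),(k8,k1)],[(k2,k1),(k3,k1),(k7,k1),(k8,k1)],[(k0,k1),(k4,k1),(k5,k1),(k11,k1)],[(k10,
    k1)],[(k1,k1)],[(k0,k1),(k4,k1),(k5,k1),(k11,k1)],[(k2,k1),(k3,k1),(k7,k1),(k8,k1)],[(k6,k1)]]
    [] k0
    [[k1,k0,k0,k0,k1,k0],[k0,k1,k1,k0,k0,k0],[k0,k0,k0,k1,k0,k1]]
    [.ref k0 k0 [(z1,[z1])],.ref k1 k0 [(z1,[y1,z1])],.ref k0 k1 [(z1,[z1])]])]⟩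

/-- classes `0 0 0 1 0 1`, types `C0 C2 C0 S0 C0 S0` -/
noncomputable def cU6_378 : CertX :=
  ⟨[k4,k6,k4,k16,k4,k16],[(false,k0,[k0,k1,k2,k3,k4,k5]),(true,k3,[k3,k2,k1,k0,k5,k4])],[[[([z1,z1,z1,z1,z0,z0],z2)],
    [([z1,z0,z0,z0,z0,z1],z2)],[([z1,z0,z0,z1,z1,z1],z2)],[([z1,z0,z0,z1,z0,z0],z2)],[([z1,z1,z0,z0,z1,z0],z2)],[]]],
    [.old (.leafM k0 [k0,k1,k2,k3] [] [(k4,k5,z1,[y1,z1]),(k5,k4,z1,[y1,z1])]),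
    .old (.leafM k0 [k1,k2,k3,k4] [] [(k5,k0,z1,[z1]),(k0,k5,z1,[z1])]),
    .old (.leafM k0 [k0,k3,k4,k5] [] [(k1,k2,z1,[y1,z1]),(k2,k1,z1,[y1,z1])]),
    .old (.leafM k6 [k2,k4,k5,k1] [] [(k3,k0,z1,[z1]),(k0,k3,z1,[z1])]),
    .old (.leafM k3 [k3,k4,k5,k0,k1,k2] [(z1,[z1])] []),
    .old (.lp [k6,k8,k12,k6,k8,k6] [k3,k3,k2,k2,k0,k0,k3,k3,k2,k2,k3,k3] k0 [[],[k0,k0,k4],[],[k4]] k24 k5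
    [[(k1,k6),(k6,k6),(k10,k6),(k9,k7)],[(k7,k6),(k11,k6),(k3,k7),(k2,k11)],[(k5,k6),(k0,k7),(k8,k8),(k4,k10)],[(k8,
    k8),(k4,k10),(k5,k10),(k0,k11)],[(k3,k6),(k7,k9),(k11,k9),(k2,k10)],[(k7,k9),(k11,k9),(k2,k10),(k3,k10)],[(k0,k6),
    (k8,k7),(k4,k9),(k5,k9)],[(k1,k6),(k6,k6),(k10,k6),(k9,k7)],[(k1,k7),(k6,k7),(k10,k7),(k9,k8)],[(k7,k7),(k11,k7),
    (k2,k8),(k3,k8)],[(k0,k6),(k8,k7),(k4,k9),(k5,k9)],[(k1,k6),(k6,k6),(k10,k6),(k9,k7)]]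
    [] k0
    [[k1,k0,k0,k1,k0,k0],[k1,k1,k0,k0,k1,k0],[k1,k0,k0,k0,k0,k1],[k0,k1,k1,k0,k0,k0],[k0,k0,k0,k1,k1,k0],[k0,k0,k0,k0,
    k1,k1]]
    [.ref k3 k0 [(z1,[z1])],.ref k4 k0 [(z1,[z1])],.ref k1 k0 [(z1,[z1])],.ref k2 k0 [(z1,[y1,z1])],.ref k1 k1 [(z1,
    [z1])],.ref k0 k0 [(z1,[y1,z1])]])]⟩

/-- classes `0 0 0 1 0 1`, types `C0 C2 C0 S0 C2 S0` -/
noncomputable def cU6_379 : CertX :=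
  ⟨[k4,k6,k4,k16,k6,k16],[(false,k0,[k0,k1,k2,k3,k4,k5]),(true,k3,[k3,k2,k1,k0,k5,k4])],[[[([z1,z1,z1,z1,z0,z0],z2)],
    [([z1,z0,z0,z0,z1,z0],z2)],[([z1,z0,z0,z1,z1,z1],z2)],[([z1,z0,z0,z1,z0,z0],z2)],[([z1,z1,z0,z0,z0,z1],z2)],[]]],
    [.old (.leafM k0 [k0,k1,k2,k3] [] [(k4,k5,z1,[y1,z1]),(k5,k4,z1,[y1,z1])]),
    .old (.leafM k1 [k1,k2,k3,k5] [] [(k4,k0,z1,[z1]),(k0,k4,z1,[z1])]),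
    .old (.leafM k0 [k0,k3,k4,k5] [] [(k1,k2,z1,[y1,z1]),(k2,k1,z1,[y1,z1])]),
    .old (.leafM k5 [k1,k2,k4,k5] [] [(k3,k0,z1,[z1]),(k0,k3,z1,[z1])]),
    .old (.leafM k0 [k1,k2,k3,k4,k5,k0] [(z1,[y1,z1])] []),
    .old (.lp [k6,k8,k12,k6,k6,k8] [k3,k3,k2,k2,k0,k0,k3,k3,k3,k3,k2,k2] k0 [[],[k0,k0,k4],[],[k4]] k24 k5
    [[(k1,k6),(k6,k6),(k9,k6),(k10,k7)],[(k7,k6),(k8,k6),(k3,k7),(k2,k11)],[(k5,k6),(k0,k7),(k11,k8),(k4,k10)],[(k11,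
    k8),(k4,k10),(k5,k10),(k0,k11)],[(k3,k6),(k7,k9),(k8,k9),(k2,k10)],[(k7,k9),(k8,k9),(k2,k10),(k3,k10)],[(k0,k6),
    (k11,k7),(k4,k9),(k5,k9)],[(k1,k6),(k6,k6),(k9,k6),(k10,k7)],[(k1,k6),(k6,k6),(k9,k6),(k10,k7)],[(k0,k6),(k11,k7),
    (k4,k9),(k5,k9)],[(k7,k7),(k8,k7),(k2,k8),(k3,k8)],[(k1,k7),(k6,k7),(k9,k7),(k10,k8)]]
    [] k0
    [[k1,k0,k0,k1,k0,k0],[k1,k0,k0,k0,k1,k0],[k1,k1,k0,k0,k0,k1],[k0,k1,k1,k0,k0,k0],[k0,k0,k0,k1,k0,k1],[k0,k0,k0,k0,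
    k1,k1]]
    [.ref k3 k0 [(z1,[z1])],.ref k1 k0 [(z1,[z1])],.ref k4 k0 [(z1,[z1])],.ref k2 k0 [(z1,[y1,z1])],.ref k1 k1 [(z1,
    [z1])],.ref k0 k0 [(z1,[y1,z1])]])]⟩

/-- classes `0 0 0 1 0 1`, types `N0 N0 N1 B0 N1 B1` -/
noncomputable def cU6_380 : CertX :=
  ⟨[k12,k12,k13,k24,k13,k25],[(false,k0,[k0,k1,k2,k3,k4,k5])],[[[([z1,z0,z0,z1,z0,z0],z2)],[]]],
    [.old (.leafM k5 [k1,k2,k4,k5] [] [(k3,k0,z1,[z1]),(k0,k3,z1,[z1])]),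
    .old (.lp [k4,k4,k6,k2,k2,k4] [k1,k1,k1,k1,k0,k0,k2,k2,k2,k2,k1,k1] k0 [[k0,k0,k0,k0,k0,k0,k0,k0,k1],[],[],[k0,k0,k0,
    k0,k0,k0,k0,k0,k0,k1],[],[],[],[],[k0,k0,k1],[k0,k1]] k12 k5
    [[(k6,k3),(k9,k3)],[(k7,k3),(k11,k3)],[(k8,k4),(k4,k5)],[(k7,k3),(k11,k5)],[(k8,k3),(k4,k6)],[(k3,k5),(k5,k6)],
    [(k0,k3),(k2,k3)],[(k1,k3),(k10,k3)],[(k1,k3),(k10,k3)],[(k5,k3),(k3,k4)],[(k0,k3),(k2,k5)],[(k6,k3),(k9,k3)]]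
    [] k0
    [[k1,k0,k0,k1,k0,k0]]
    [.ref k0 k0 [(z1,[z1])]])]⟩

/-- classes `0 0 0 1 0 1`, types `N0 N0 N1 B0 N2 B1` -/
noncomputable def cU6_381 : CertX :=
  ⟨[k12,k12,k13,k24,k14,k25],[(false,k0,[k0,k1,k2,k3,k4,k5])],[[[([z1,z0,z0,z1,z0,z0],z2)],[([z1,z0,z0,z0,z1,z0],z2)],
    []]],
    [.old (.leafM k6 [k2,k4,k5,k1] [] [(k3,k0,z1,[z1]),(k0,k3,z1,[z1])]),
    .old (.lp [(nat_lit 13662),(nat_lit 6900),(nat_lit 10120),(nat_lit 5280),(nat_lit 16698),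
    (nat_lit 6900)] [(nat_lit 1518),(nat_lit 1518),(nat_lit 4899),(nat_lit 4899),(nat_lit 3289),(nat_lit 3289),
    (nat_lit 5709),(nat_lit 5709),k0,k0,(nat_lit 4899),(nat_lit 4899)] k0 [[k0,k0,k0,k0,(nat_lit 1265)],[],[],[],[],
    [k0,(nat_lit 1265)]] (nat_lit 30360) k6
    [[(k6,(nat_lit 9471)),(k9,(nat_lit 15180))],[(k7,(nat_lit 8206)),(k8,(nat_lit 15180))],[(k11,(nat_lit 6900)),(k4,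
    (nat_lit 9775))],[(k7,(nat_lit 6090)),(k8,(nat_lit 11799))],[(k11,(nat_lit 8510)),(k4,(nat_lit 10120))],[(k3,
    (nat_lit 9775)),(k5,(nat_lit 10120))],[(k2,(nat_lit 6090)),(k0,(nat_lit 8206))],[(k10,(nat_lit 6090)),(k1,
    (nat_lit 9471))],[(k10,(nat_lit 11799)),(k1,(nat_lit 15180))],[(k2,(nat_lit 11799)),(k0,(nat_lit 15180))],[(k3,
    (nat_lit 6900)),(k5,(nat_lit 8510))],[(k6,(nat_lit 6090)),(k9,(nat_lit 11799))]]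
    [] k0
    [[k1,k0,k0,k1,k0,k0],[k0,k1,k0,k1,k0,k1],[k0,k0,k2,k0,k0,k0]]
    [.ref k0 k0 [(z1,[z1])],.contra [y1,y1,z1],.contra [z1]]),
    .old (.lp [k6,k6,k4,k0,k0,k6] [k0,k0,k0,k0,k1,k1,k3,k3,k3,k3,k0,k0] k0 [] k12 k5
    [[(k6,k3),(k9,k3)],[(k7,k3),(k8,k3)],[(k4,k5),(k11,k6)],[(k7,k3),(k8,k3)],[(k4,k4),(k11,k5)],[(k5,k4),(k3,k5)],
    [(k0,k3),(k2,k3)],[(k1,k3),(k10,k3)],[(k1,k3),(k10,k3)],[(k0,k3),(k2,k3)],[(k5,k5),(k3,k6)],[(k6,k3),(k9,k3)]]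
    [] k0
    [[k1,k0,k0,k1,k0,k0],[k1,k0,k0,k0,k1,k0],[k0,k0,k2,k0,k0,k0]]
    [.ref k0 k0 [(z1,[z1])],.ref k1 k0 [(z1,[z1])],.contra [z1]])]⟩

/-- the certificates of this file -/
noncomputable def lU6_15 : List CertX :=
  [cU6_272, cU6_273, cU6_274, cU6_275, cU6_276, cU6_277, cU6_278, cU6_279, cU6_280, cU6_281, cU6_282, cU6_283,
      cU6_284, cU6_285, cU6_286, cU6_287, cU6_288, cU6_289, cU6_290, cU6_291, cU6_292, cU6_293, cU6_294,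
      cU6_295, cU6_296, cU6_297, cU6_298, cU6_299, cU6_300, cU6_301, cU6_302, cU6_303, cU6_304, cU6_305,
      cU6_306, cU6_307, cU6_308, cU6_309, cU6_310, cU6_311, cU6_312, cU6_313, cU6_314, cU6_315, cU6_316,
      cU6_317, cU6_318, cU6_319, cU6_320, cU6_321, cU6_322, cU6_323, cU6_324, cU6_325, cU6_326, cU6_327,
      cU6_328, cU6_329, cU6_330, cU6_331, cU6_332, cU6_333, cU6_334, cU6_335, cU6_336, cU6_337, cU6_338,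
      cU6_339, cU6_340, cU6_341, cU6_342, cU6_343, cU6_344, cU6_345, cU6_346, cU6_347, cU6_348, cU6_349,
      cU6_350, cU6_351, cU6_352, cU6_353, cU6_354, cU6_355, cU6_356, cU6_357, cU6_358, cU6_359, cU6_360,
      cU6_361, cU6_362, cU6_363, cU6_364, cU6_365, cU6_366, cU6_367, cU6_368, cU6_369, cU6_370, cU6_371,
      cU6_372, cU6_373, cU6_374, cU6_375, cU6_376, cU6_377, cU6_378, cU6_379, cU6_380, cU6_381]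

theorem gU6_15 : allF (chkE 6 ttU6) lU6_15 = true := by
  decide +kernel

end Pool.Agent.Lib_MP_fa6e45
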