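import Pool.Agent.Lib_MP_fa6e45.CXT
import Pool.Agent.Lib_MP_fa6e45.HK

/-!
MP_fa6e45_co, stage 7: certificates (generated by a program).
-/

namespace Pool.Agent.Lib_MP_fa6e45

/-- classes `0 0 0 1 0 1`, types `N0 N0 N1 C0 N1 C0` -/
noncomputable def cU6_382 : CertX :=
  ⟨[k12,k12,k13,k20,k13,k20],[(false,k0,[k0,k1,k2,k3,k4,k5])],[[[([z1,z0,z0,z1,z0,z0],z2)],[([z1,z0,z0,z0,z0,z1],z2)],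
    []]],
    [.old (.leafM k5 [k1,k2,k4,k5] [] [(k3,k0,z1,[z1]),(k0,k3,z1,[z1])]),
    .old (.lp [(nat_lit 1656),(nat_lit 1380),(nat_lit 2024),(nat_lit 1380),(nat_lit 1056),(nat_lit 4416)] [(nat_lit 1380),
    (nat_lit 1380),(nat_lit 1518),(nat_lit 1518),(nat_lit 1196),(nat_lit 1196),(nat_lit 1518),(nat_lit 1518),
    (nat_lit 1680),(nat_lit 1680),k0,k0] k0 [[],[],[k0,k0,k0,k0,k0,k0,k0,k0,(nat_lit 253)],[],[],[],[],[],[],[k0,k0,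
    k0,(nat_lit 253)]] (nat_lit 6072) k6
    [[(k6,(nat_lit 1518)),(k10,(nat_lit 3036))],[(k7,(nat_lit 1518)),(k11,(nat_lit 3036))],[(k8,(nat_lit 1218)),(k4,
    (nat_lit 1702))],[(k7,(nat_lit 1380)),(k11,(nat_lit 2645))],[(k8,(nat_lit 1793)),(k4,(nat_lit 2024))],[(k3,
    (nat_lit 1702)),(k5,(nat_lit 2024))],[(k2,(nat_lit 1380)),(k0,(nat_lit 1518))],[(k9,(nat_lit 1218)),(k1,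
    (nat_lit 1518))],[(k6,(nat_lit 1218)),(k10,(nat_lit 2736))],[(k3,(nat_lit 1218)),(k5,(nat_lit 1793))],[(k2,
    (nat_lit 2645)),(k0,(nat_lit 3036))],[(k9,(nat_lit 2736)),(k1,(nat_lit 3036))]]
    [] k0
    [[k1,k0,k0,k1,k0,k0],[k0,k1,k0,k1,k1,k0],[k0,k0,k2,k0,k0,k0]]
    [.ref k0 k0 [(z1,[z1])],.contra [y1,y1,z1],.contra [z1]]),
    .old (.lp [k2,k6,k4,k4,k2,k4] [k2,k2,k0,k0,k1,k1,k1,k1,k2,k2,k1,k1] k0 [] k12 k5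
    [[(k6,k3),(k10,k3)],[(k7,k3),(k11,k3)],[(k8,k4),(k4,k5)],[(k7,k5),(k11,k5)],[(k8,k3),(k4,k4)],[(k5,k4),(k3,k5)],
    [(k0,k3),(k2,k5)],[(k1,k3),(k9,k3)],[(k6,k3),(k10,k3)],[(k5,k3),(k3,k4)],[(k0,k3),(k2,k5)],[(k1,k3),(k9,k3)]]
    [] k0
    [[k1,k0,k0,k1,k0,k0],[k1,k0,k0,k0,k0,k1],[k0,k0,k2,k0,k0,k0]]
    [.ref k0 k0 [(z1,[z1])],.ref k1 k0 [(z1,[z1])],.contra [z1]])]⟩

/-- classes `0 0 0 1 0 1`, types `N0 N0 N1 C0 N1 C2` -/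
noncomputable def cU6_383 : CertX :=
  ⟨[k12,k12,k13,k20,k13,k22],[(false,k0,[k0,k1,k2,k3,k4,k5])],[[[([z1,z0,z0,z0,z0,z1],z2)],[]]],
    [.old (.lp [(nat_lit 1380),(nat_lit 1380),(nat_lit 2024),(nat_lit 1380),(nat_lit 1056),(nat_lit 4692)] [(nat_lit 1656),
    (nat_lit 1656),(nat_lit 1656),(nat_lit 1656),(nat_lit 1334),(nat_lit 1334),(nat_lit 1656),(nat_lit 1656),
    (nat_lit 1818),(nat_lit 1818),k0,k0] k0 [[],[],[k0,k0,k0,k0,k0,k0,k0,k0,(nat_lit 253)],[],[],[],[],[],[],[k0,k0,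
    k0,(nat_lit 253)]] (nat_lit 6072) k6
    [[(k9,(nat_lit 1218)),(k10,(nat_lit 3036))],[(k7,(nat_lit 1380)),(k11,(nat_lit 3036))],[(k8,(nat_lit 1218)),(k4,
    (nat_lit 1702))],[(k7,(nat_lit 1380)),(k11,(nat_lit 2783))],[(k8,(nat_lit 1793)),(k4,(nat_lit 2024))],[(k3,
    (nat_lit 1702)),(k5,(nat_lit 2024))],[(k0,(nat_lit 1380)),(k2,(nat_lit 1380))],[(k9,(nat_lit 1218)),(k10,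
    (nat_lit 3036))],[(k1,(nat_lit 1218)),(k6,(nat_lit 1218))],[(k3,(nat_lit 1218)),(k5,(nat_lit 1793))],[(k2,
    (nat_lit 2783)),(k0,(nat_lit 3036))],[(k1,(nat_lit 3036)),(k6,(nat_lit 3036))]]
    [] k0
    [[k0,k1,k0,k1,k1,k0],[k0,k0,k2,k0,k0,k0]]
    [.contra [y1,y1,z1],.contra [z1]]),
    .old (.lp [k4,k6,k4,k4,k2,k2] [k1,k1,k0,k0,k1,k1,k1,k1,k2,k2,k2,k2] k0 [] k12 k5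
    [[(k9,k3),(k10,k3)],[(k11,k3),(k7,k4)],[(k8,k4),(k4,k5)],[(k11,k4),(k7,k5)],[(k8,k3),(k4,k4)],[(k5,k4),(k3,k5)],
    [(k0,k4),(k2,k5)],[(k9,k3),(k10,k3)],[(k1,k3),(k6,k3)],[(k5,k3),(k3,k4)],[(k0,k3),(k2,k4)],[(k1,k3),(k6,k3)]]
    [] k0
    [[k1,k0,k0,k0,k0,k1],[k0,k0,k2,k0,k0,k0]]
    [.ref k0 k0 [(z1,[z1])],.contra [z1]])]⟩

/-- classes `0 0 0 1 0 1`, types `N0 N0 N1 C0 N2 C0` -/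
noncomputable def cU6_384 : CertX :=
  ⟨[k12,k12,k13,k20,k14,k20],[(false,k0,[k0,k1,k2,k3,k4,k5])],[[[([z1,z0,z0,z1,z0,z0],z2)],[]]],
    [.old (.leafM k6 [k2,k4,k5,k1] [] [(k3,k0,z1,[z1]),(k0,k3,z1,[z1])]),
    .old (.lp [k6,k10,k10,k6,k6,k6] [k2,k2,k0,k0,k0,k0,k2,k2,k2,k2,k2,k2] k0 [[],[],[k0,k0,k0,k0,k2],[k0,k0,k0,k0,k0,k0,
    k0,k0,k2],[],[k0,k0,k0,k2],[],[],[],[k0,k0,k2]] k24 k5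
    [[(k6,k6),(k10,k6)],[(k7,k6),(k8,k6)],[(k11,k8),(k4,k10)],[(k7,k6),(k8,k10)],[(k11,k6),(k4,k12)],[(k3,k10),(k5,
    k12)],[(k0,k6),(k2,k6)],[(k1,k6),(k9,k6)],[(k6,k6),(k10,k6)],[(k0,k6),(k2,k10)],[(k5,k6),(k3,k8)],[(k1,k6),(k9,
    k6)]]
    [] k0
    [[k1,k0,k0,k1,k0,k0]]
    [.ref k0 k0 [(z1,[z1])]])]⟩

/-- classes `0 0 0 1 0 1`, types `N0 N0 N1 C0 N2 C2` -/
noncomputable def cU6_385 : CertX :=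
  ⟨[k12,k12,k13,k20,k14,k22],[(false,k0,[k0,k1,k2,k3,k4,k5])],[[[([z1,z0,z0,z0,z1,z0],z2)],[]]],
    [.old (.lp [(nat_lit 324),k88,k132,k88,k72,k72] [k0,k0,k118,k118,k96,k96,k118,k118,k126,k126,k126,k126] k0 [[k0,k0,k0,
    k0,k33],[],[],[],[],[k0,k33]] (nat_lit 396) k6
    [[(k9,k198),(k10,k198)],[(k7,k173),(k8,k198)],[(k11,k80),(k4,k143)],[(k8,k80),(k7,k88)],[(k11,k102),(k4,k132)],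
    [(k5,k132),(k3,k143)],[(k2,k88),(k0,k173)],[(k9,k80),(k10,k80)],[(k6,k80),(k1,k198)],[(k2,k80),(k0,k198)],[(k3,
    k80),(k5,k102)],[(k6,k80),(k1,k198)]]
    [] k0
    [[k0,k1,k0,k1,k0,k1],[k0,k0,k2,k0,k0,k0]]
    [.contra [y1,y1,z1],.contra [z1]]),
    .old (.lp [k4,k6,k4,k4,k2,k2] [k1,k1,k0,k0,k1,k1,k1,k1,k2,k2,k2,k2] k0 [] k12 k5
    [[(k9,k3),(k10,k3)],[(k8,k3),(k7,k4)],[(k11,k4),(k4,k5)],[(k8,k4),(k7,k5)],[(k11,k3),(k4,k4)],[(k5,k4),(k3,k5)],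
    [(k0,k4),(k2,k5)],[(k9,k3),(k10,k3)],[(k1,k3),(k6,k3)],[(k0,k3),(k2,k4)],[(k5,k3),(k3,k4)],[(k1,k3),(k6,k3)]]
    [] k0
    [[k1,k0,k0,k0,k1,k0],[k0,k0,k2,k0,k0,k0]]
    [.ref k0 k0 [(z1,[z1])],.contra [z1]])]⟩

/-- classes `0 0 0 1 0 1`, types `N0 N0 N1 N0 N1 N1` -/
noncomputable def cU6_386 : CertX :=
  ⟨[k12,k12,k13,k28,k13,k29],[(false,k0,[k0,k1,k2,k3,k4,k5])],[[[([z1,z0,z0,z1,z0,z0],z2)],[]]],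
    [.old (.leafM k5 [k1,k2,k4,k5] [] [(k3,k0,z1,[z1]),(k0,k3,z1,[z1])]),
    .old (.lp [k2,k6,k4,k4,k2,k4] [k2,k2,k0,k0,k1,k1,k1,k1,k2,k2,k1,k1] k0 [[],[],[k0,k0,k0,k0,k2],[],[],[k0,k0,k0,
    k2]] k12 k5
    [[(k6,k3)],[(k7,k3),(k11,k3)],[(k8,k4),(k4,k5)],[(k7,k3),(k11,k5)],[(k8,k3),(k4,k6)],[(k3,k5),(k5,k6)],[(k0,k3),
    (k2,k3)],[(k1,k3)],[(k10,k3)],[(k5,k3),(k3,k4)],[(k0,k3),(k2,k5)],[(k9,k3)]]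
    [] k0
    [[k1,k0,k0,k1,k0,k0]]
    [.ref k0 k0 [(z1,[z1])]])]⟩

/-- classes `0 0 0 1 0 1`, types `N0 N0 N1 N0 N1 N2` -/
noncomputable def cU6_387 : CertX :=
  ⟨[k12,k12,k13,k28,k13,k30],[],[[[]]],
    [.old (.lp [k2,k2,k4,k2,k2,k2] [k1,k1,k1,k1,k0,k0,k1,k1,k1,k1,k1,k1] k0 [] k8 k5
    [[(k9,k2)],[(k7,k2),(k11,k2)],[(k8,k2),(k4,k3)],[(k7,k2),(k11,k2)],[(k8,k3),(k4,k4)],[(k3,k3),(k5,k4)],[(k0,k2),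
    (k2,k2)],[(k10,k2)],[(k1,k2)],[(k3,k2),(k5,k3)],[(k0,k2),(k2,k2)],[(k6,k2)]]
    [] k0
    []
    [])]⟩

/-- classes `0 0 0 1 0 1`, types `N0 N0 N1 N0 N2 N1` -/
noncomputable def cU6_388 : CertX :=
  ⟨[k12,k12,k13,k28,k14,k29],[(false,k0,[k0,k1,k2,k3,k4,k5])],[[[([z1,z0,z0,z1,z0,z0],z2)],[]]],
    [.old (.leafM k6 [k2,k4,k5,k1] [] [(k3,k0,z1,[z1]),(k0,k3,z1,[z1])]),
    .old (.lp [k2,k6,k4,k4,k4,k2] [k2,k2,k0,k0,k1,k1,k1,k1,k1,k1,k2,k2] k0 [[],[],[k0,k0,k0,k0,k2],[],[],[k0,k0,k0,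
    k2]] k12 k5
    [[(k6,k3)],[(k7,k3),(k8,k3)],[(k11,k4),(k4,k5)],[(k7,k3),(k8,k5)],[(k11,k3),(k4,k6)],[(k3,k5),(k5,k6)],[(k0,k3),
    (k2,k3)],[(k1,k3)],[(k10,k3)],[(k0,k3),(k2,k5)],[(k5,k3),(k3,k4)],[(k9,k3)]]
    [] k0
    [[k1,k0,k0,k1,k0,k0]]
    [.ref k0 k0 [(z1,[z1])]])]⟩

/-- classes `0 0 0 1 0 1`, types `N0 N0 N1 N0 N2 N2` -/
noncomputable def cU6_389 : CertX :=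
  ⟨[k12,k12,k13,k28,k14,k30],[(false,k0,[k0,k1,k2,k3,k4,k5])],[[[([z1,z0,z0,z0,z1,z0],z2)],[]]],
    [.old (.lp [(nat_lit 5016),(nat_lit 1380),(nat_lit 2024),(nat_lit 1056),(nat_lit 1056),(nat_lit 1380)] [k0,k0,
    (nat_lit 1818),(nat_lit 1818),(nat_lit 1496),(nat_lit 1496),(nat_lit 1980),(nat_lit 1980),(nat_lit 1980),
    (nat_lit 1980),(nat_lit 1818),(nat_lit 1818)] k0 [[k0,k0,k0,k0,(nat_lit 253)],[],[],[],[],[k0,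
    (nat_lit 253)]] (nat_lit 6072) k6
    [[(k9,(nat_lit 3036))],[(k7,(nat_lit 2783)),(k8,(nat_lit 3036))],[(k11,(nat_lit 1380)),(k4,(nat_lit 1955))],[(k7,
    (nat_lit 1218)),(k8,(nat_lit 1218))],[(k11,(nat_lit 1702)),(k4,(nat_lit 2024))],[(k3,(nat_lit 1955)),(k5,
    (nat_lit 2024))],[(k2,(nat_lit 1218)),(k0,(nat_lit 2783))],[(k10,(nat_lit 1218))],[(k1,(nat_lit 3036))],[(k2,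
    (nat_lit 1218)),(k0,(nat_lit 3036))],[(k3,(nat_lit 1380)),(k5,(nat_lit 1702))],[(k6,(nat_lit 1218))]]
    [] k0
    [[k0,k1,k0,k1,k0,k1],[k0,k0,k2,k0,k0,k0]]
    [.contra [y1,y1,z1],.contra [z1]]),
    .old (.lp [k6,k6,k4,k0,k0,k6] [k0,k0,k0,k0,k1,k1,k3,k3,k3,k3,k0,k0] k0 [] k12 k5
    [[(k9,k3)],[(k7,k3),(k8,k3)],[(k4,k5),(k11,k6)],[(k7,k3),(k8,k3)],[(k4,k4),(k11,k5)],[(k5,k4),(k3,k5)],[(k0,k3),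
    (k2,k3)],[(k10,k3)],[(k1,k3)],[(k0,k3),(k2,k3)],[(k5,k5),(k3,k6)],[(k6,k3)]]
    [] k0
    [[k1,k0,k0,k0,k1,k0],[k0,k0,k2,k0,k0,k0]]
    [.ref k0 k0 [(z1,[z1])],.contra [z1]])]⟩

/-- classes `0 0 0 1 0 1`, types `N0 N0 N1 S0 N1 S0` -/
noncomputable def cU6_390 : CertX :=
  ⟨[k12,k12,k13,k16,k13,k16],[(false,k0,[k0,k1,k2,k3,k4,k5])],[[[([z1,z0,z0,z1,z0,z0],z2)],[([z1,z0,z0,z0,z0,z1],z2)],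
    []]],
    [.old (.leafM k5 [k1,k2,k4,k5] [] [(k3,k0,z1,[z1]),(k0,k3,z1,[z1])]),
    .old (.lp [(nat_lit 1656),(nat_lit 1056),(nat_lit 2024),(nat_lit 1380),(nat_lit 1380),(nat_lit 4416)] [(nat_lit 1380),
    (nat_lit 1380),(nat_lit 1680),(nat_lit 1680),(nat_lit 1196),(nat_lit 1196),(nat_lit 1518),(nat_lit 1518),
    (nat_lit 1518),(nat_lit 1518),k0,k0] k0 [[],[],[k0,k0,k0,k0,k0,k0,k0,k0,(nat_lit 253)],[],[],[],[],[],[],[k0,k0,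
    k0,(nat_lit 253)]] (nat_lit 6072) k6
    [[(k6,(nat_lit 1518)),(k9,(nat_lit 1518)),(k1,(nat_lit 1656)),(k10,(nat_lit 3036))],[(k7,(nat_lit 1518)),(k11,
    (nat_lit 3036))],[(k8,(nat_lit 1218)),(k4,(nat_lit 1540))],[(k7,(nat_lit 1218)),(k11,(nat_lit 2483))],[(k8,
    (nat_lit 1955)),(k4,(nat_lit 2024))],[(k3,(nat_lit 1540)),(k5,(nat_lit 2024))],[(k2,(nat_lit 1218)),(k0,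
    (nat_lit 1518))],[(k6,(nat_lit 1380)),(k9,(nat_lit 1380)),(k1,(nat_lit 1518)),(k10,(nat_lit 2898))],[(k6,
    (nat_lit 1380)),(k9,(nat_lit 1380)),(k1,(nat_lit 1518)),(k10,(nat_lit 2898))],[(k3,(nat_lit 1218)),(k5,
    (nat_lit 1955))],[(k2,(nat_lit 2483)),(k0,(nat_lit 3036))],[(k6,(nat_lit 2898)),(k9,(nat_lit 2898)),(k1,
    (nat_lit 3036)),(k10,(nat_lit 4416))]]
    [] k0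
    [[k1,k0,k0,k1,k0,k0],[k0,k1,k0,k1,k1,k0],[k0,k0,k2,k0,k0,k0]]
    [.ref k0 k0 [(z1,[z1])],.contra [y1,y1,z1],.contra [z1]]),
    .old (.lp [k6,k6,k8,k6,k12,k6] [k3,k3,k3,k3,k2,k2,k3,k3,k0,k0,k3,k3] k0 [] k24 k5
    [[(k1,k6),(k6,k6),(k10,k6),(k9,k9)],[(k7,k6),(k11,k6)],[(k4,k7),(k8,k9)],[(k7,k6),(k11,k6)],[(k4,k8),(k8,k10)],
    [(k3,k7),(k5,k8)],[(k0,k6),(k2,k6)],[(k1,k6),(k6,k6),(k10,k6),(k9,k9)],[(k1,k9),(k6,k9),(k10,k9),(k9,k12)],[(k3,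
    k9),(k5,k10)],[(k0,k6),(k2,k6)],[(k1,k6),(k6,k6),(k10,k6),(k9,k9)]]
    [] k0
    [[k1,k0,k0,k1,k0,k0],[k1,k0,k0,k0,k0,k1],[k0,k0,k2,k0,k0,k0]]
    [.ref k0 k0 [(z1,[z1])],.ref k1 k0 [(z1,[z1])],.contra [z1]])]⟩

/-- classes `0 0 0 1 0 1`, types `N0 N0 N1 S0 N2 S0` -/
noncomputable def cU6_391 : CertX :=
  ⟨[k12,k12,k13,k16,k14,k16],[(false,k0,[k0,k1,k2,k3,k4,k5])],[[[([z1,z0,z0,z1,z0,z0],z2)],[([z1,z0,z0,z0,z1,z0],z2)],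
    []]],
    [.old (.leafM k6 [k2,k4,k5,k1] [] [(k3,k0,z1,[z1]),(k0,k3,z1,[z1])]),
    .old (.lp [(nat_lit 792),(nat_lit 360),(nat_lit 660),(nat_lit 440),(nat_lit 1188),(nat_lit 440)] [k198,k198,
    (nat_lit 414),(nat_lit 414),(nat_lit 264),(nat_lit 264),(nat_lit 374),(nat_lit 374),k0,k0,(nat_lit 374),
    (nat_lit 374)] k0 [[k0,k0,k0,k0,k165],[],[],[],[],[k0,k165]] (nat_lit 1980) k6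
    [[(k6,(nat_lit 616)),(k10,(nat_lit 616)),(k1,(nat_lit 792)),(k9,(nat_lit 990))],[(k7,(nat_lit 451)),(k8,
    (nat_lit 990))],[(k11,(nat_lit 400)),(k4,(nat_lit 675))],[(k7,(nat_lit 400)),(k8,(nat_lit 774))],[(k11,
    (nat_lit 550)),(k4,(nat_lit 660))],[(k5,(nat_lit 660)),(k3,(nat_lit 675))],[(k2,(nat_lit 400)),(k0,
    (nat_lit 451))],[(k6,(nat_lit 440)),(k10,(nat_lit 440)),(k1,(nat_lit 616)),(k9,(nat_lit 814))],[(k6,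
    (nat_lit 814)),(k10,(nat_lit 814)),(k1,(nat_lit 990)),(k9,(nat_lit 1188))],[(k2,(nat_lit 774)),(k0,
    (nat_lit 990))],[(k3,(nat_lit 400)),(k5,(nat_lit 550))],[(k6,(nat_lit 440)),(k10,(nat_lit 440)),(k1,
    (nat_lit 616)),(k9,(nat_lit 814))]]
    [] k0
    [[k1,k0,k0,k1,k0,k0],[k0,k1,k0,k1,k0,k1],[k0,k0,k2,k0,k0,k0]]
    [.ref k0 k0 [(z1,[z1])],.contra [y1,y1,z1],.contra [z1]]),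
    .old (.lp [k6,k6,k8,k6,k6,k12] [k3,k3,k3,k3,k2,k2,k3,k3,k3,k3,k0,k0] k0 [] k24 k5
    [[(k1,k6),(k6,k6),(k9,k6),(k10,k9)],[(k7,k6),(k8,k6)],[(k4,k7),(k11,k9)],[(k7,k6),(k8,k6)],[(k4,k8),(k11,k10)],
    [(k3,k7),(k5,k8)],[(k0,k6),(k2,k6)],[(k1,k6),(k6,k6),(k9,k6),(k10,k9)],[(k1,k6),(k6,k6),(k9,k6),(k10,k9)],[(k0,
    k6),(k2,k6)],[(k3,k9),(k5,k10)],[(k1,k9),(k6,k9),(k9,k9),(k10,k12)]]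
    [] k0
    [[k1,k0,k0,k1,k0,k0],[k1,k0,k0,k0,k1,k0],[k0,k0,k2,k0,k0,k0]]
    [.ref k0 k0 [(z1,[z1])],.ref k1 k0 [(z1,[z1])],.contra [z1]])]⟩

/-- classes `0 0 0 1 0 1`, types `N0 N0 N2 B0 N1 B1` -/
noncomputable def cU6_392 : CertX :=
  ⟨[k12,k12,k14,k24,k13,k25],[(false,k0,[k0,k1,k2,k3,k4,k5])],[[[([z1,z0,z1,z0,z1,z0],z2)],[]]],
    [.old (.leafM k5 [k0,k1,k2,k3,k4,k5] [(z1,[y1,z1]),(z1,[z1])] []),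
    .old (.lp [k6,k4,k4,k2,k2,k4] [k0,k0,k1,k1,k1,k1,k2,k2,k2,k2,k1,k1] k0 [[k0,k0,k0,k0,k0,k0,k0,k0,k2],[],[],[],[],[],
    [],[],[],[k0,k2]] k12 k5
    [[(k6,k4),(k9,k4)],[(k11,k3),(k4,k5)],[(k7,k3),(k8,k5)],[(k4,k4),(k11,k4)],[(k7,k3),(k8,k3)],[(k2,k4),(k0,k5)],
    [(k3,k3),(k5,k3)],[(k10,k3),(k1,k4)],[(k10,k3),(k1,k4)],[(k5,k3),(k3,k5)],[(k0,k3),(k2,k4)],[(k6,k3),(k9,k3)]]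
    [] k0
    [[k0,k1,k0,k1,k0,k1]]
    [.ref k0 k0 [(z1,[y1,z1])]])]⟩

/-- classes `0 0 0 1 0 1`, types `N0 N0 N2 B0 N2 B1` -/
noncomputable def cU6_393 : CertX :=
  ⟨[k12,k12,k14,k24,k14,k25],[(false,k0,[k0,k1,k2,k3,k4,k5])],[[[([z1,z0,z0,z0,z1,z0],z2)],[]]],
    [.old (.leafM k3 [k1,k2,k3,k5] [] [(k4,k0,z1,[z1]),(k0,k4,z1,[z1])]),
    .old (.lp [k6,k6,k4,k0,k0,k6] [k0,k0,k0,k0,k1,k1,k3,k3,k3,k3,k0,k0] k0 [[],[],[k0,k0,k0,k0,k0,k2],[],[k0,k0,k0,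
    k2]] k12 k5
    [[(k6,k3),(k9,k3)],[(k8,k3),(k4,k5)],[(k7,k3),(k11,k6)],[(k4,k3),(k8,k3)],[(k7,k4),(k11,k5)],[(k2,k3),(k0,k5)],
    [(k3,k3),(k5,k4)],[(k1,k3),(k10,k3)],[(k1,k3),(k10,k3)],[(k0,k3),(k2,k3)],[(k5,k5),(k3,k6)],[(k6,k3),(k9,k3)]]
    [] k0
    [[k1,k0,k0,k0,k1,k0]]
    [.ref k0 k0 [(z1,[z1])]])]⟩

/-- classes `0 0 0 1 0 1`, types `N0 N0 N2 C0 N1 C0` -/
noncomputable def cU6_394 : CertX :=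
  ⟨[k12,k12,k14,k20,k13,k20],[(false,k0,[k0,k1,k2,k3,k4,k5])],[[[([z1,z0,z0,z0,z0,z1],z2)],[]]],
    [.old (.leafM k1 [k3,k4,k1,k2] [] [(k5,k0,z1,[z1]),(k0,k5,z1,[z1])]),
    .old (.lp [k2,k6,k4,k4,k2,k4] [k2,k2,k0,k0,k1,k1,k1,k1,k2,k2,k1,k1] k0 [[],[],[k0,k0,k0,k0,k0,k2],[],[k0,k0,k0,
    k2]] k12 k5
    [[(k6,k3),(k10,k3)],[(k4,k3),(k11,k3)],[(k8,k4),(k7,k5)],[(k4,k3),(k11,k5)],[(k8,k3),(k7,k6)],[(k0,k3),(k2,k3)],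
    [(k3,k5),(k5,k6)],[(k1,k3),(k9,k3)],[(k6,k3),(k10,k3)],[(k5,k3),(k3,k4)],[(k0,k3),(k2,k5)],[(k1,k3),(k9,k3)]]
    [] k0
    [[k1,k0,k0,k0,k0,k1]]
    [.ref k0 k0 [(z1,[z1])]])]⟩

/-- classes `0 0 0 1 0 1`, types `N0 N0 N2 C0 N1 C2` -/
noncomputable def cU6_395 : CertX :=
  ⟨[k12,k12,k14,k20,k13,k22],[(false,k0,[k0,k1,k2,k3,k4,k5])],[[[([z1,z0,z1,z0,z1,z0],z2)],[([z1,z0,z0,z0,z0,z1],z2)],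
    []]],
    [.old (.leafM k5 [k0,k1,k2,k3,k4,k5] [(z1,[y1,z1]),(z1,[z1])] []),
    .old (.leafM k1 [k3,k4,k1,k2] [] [(k5,k0,z1,[z1]),(k0,k5,z1,[z1])]),
    .old (.lp [k2,k2,k4,k2,k2,k2] [k1,k1,k1,k1,k0,k0,k1,k1,k1,k1,k1,k1] k0 [] k8 k5
    [[(k9,k2),(k10,k2)],[(k11,k2),(k4,k3)],[(k7,k2),(k8,k2)],[(k11,k2),(k4,k3)],[(k7,k3),(k8,k3)],[(k0,k3),(k2,k3)],
    [(k3,k2),(k5,k3)],[(k9,k2),(k10,k2)],[(k1,k2),(k6,k2)],[(k3,k2),(k5,k3)],[(k0,k2),(k2,k2)],[(k1,k2),(k6,k2)]]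
    [] k0
    [[k1,k0,k0,k0,k0,k1],[k0,k1,k0,k1,k0,k1]]
    [.ref k1 k0 [(z1,[z1])],.ref k0 k0 [(z1,[y1,z1])]])]⟩

/-- classes `0 0 0 1 0 1`, types `N0 N0 N2 C0 N2 C0` -/
noncomputable def cU6_396 : CertX :=
  ⟨[k12,k12,k14,k20,k14,k20],[(false,k0,[k0,k1,k2,k3,k4,k5])],[[[([z1,z0,z1,z0,z0,z1],z2)],[]]],
    [.old (.leafM k3 [k0,k1,k2,k3,k4,k5] [(z1,[y1,z1])] []),
    .old (.lp [k6,k12,k8,k6,k6,k6] [k3,k3,k0,k0,k2,k2,k3,k3,k3,k3,k3,k3] k0 [[],[],[k0,k0,k0,k0,k0,k4],[],[k0,k0,k0,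
    k4]] k24 k5
    [[(k6,k6),(k10,k6)],[(k8,k6),(k4,k7)],[(k7,k9),(k11,k9)],[(k4,k6),(k8,k9)],[(k11,k7),(k7,k11)],[(k2,k6),(k0,k7)],
    [(k3,k9),(k5,k11)],[(k1,k6),(k9,k6)],[(k6,k6),(k10,k6)],[(k0,k6),(k2,k9)],[(k5,k7),(k3,k9)],[(k1,k6),(k9,k6)]]
    [] k0
    [[k1,k0,k1,k0,k0,k1]]
    [.ref k0 k0 [(z1,[z1])]])]⟩

/-- classes `0 0 0 1 0 1`, types `N0 N0 N2 C0 N2 C2` -/
noncomputable def cU6_397 : CertX :=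
  ⟨[k12,k12,k14,k20,k14,k22],[(false,k0,[k0,k1,k2,k3,k4,k5])],[[[([z1,z0,z0,z0,z1,z0],z2)],[([z1,z0,z1,z0,z0,z1],z2)],
    []]],
    [.old (.leafM k3 [k1,k2,k3,k5] [] [(k4,k0,z1,[z1]),(k0,k4,z1,[z1])]),
    .old (.leafM k3 [k0,k1,k2,k3,k4,k5] [(z1,[y1,z1])] []),
    .old (.lp [k2,k4,k2,k2,k2,k2] [k1,k1,k0,k0,k1,k1,k1,k1,k1,k1,k1,k1] k0 [] k8 k5
    [[(k9,k2),(k10,k2)],[(k4,k2),(k8,k2)],[(k7,k3),(k11,k3)],[(k4,k3),(k8,k3)],[(k7,k2),(k11,k2)],[(k0,k2),(k2,k3)],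
    [(k5,k2),(k3,k3)],[(k9,k2),(k10,k2)],[(k1,k2),(k6,k2)],[(k0,k2),(k2,k3)],[(k5,k2),(k3,k3)],[(k1,k2),(k6,k2)]]
    [] k0
    [[k1,k0,k0,k0,k1,k0],[k1,k0,k1,k0,k0,k1]]
    [.ref k0 k0 [(z1,[z1])],.ref k1 k0 [(z1,[z1])]])]⟩

/-- classes `0 0 0 1 0 1`, types `N0 N0 N2 N0 N1 N1` -/
noncomputable def cU6_398 : CertX :=
  ⟨[k12,k12,k14,k28,k13,k29],[],[[[]]],
    [.old (.lp [k4,k4,k6,k2,k0,k6] [k1,k1,k1,k1,k0,k0,k2,k2,k3,k3,k0,k0] k0 [[k0,k0,k0,k0,k0,k0,k0,k0,k2],[],[],[],[],[],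
    [],[],[],[k0,k2]] k12 k5
    [[(k6,k3)],[(k11,k3),(k4,k5)],[(k7,k3),(k8,k4)],[(k4,k5),(k11,k5)],[(k8,k3),(k7,k4)],[(k0,k5),(k2,k5)],[(k3,k3),
    (k5,k4)],[(k1,k3)],[(k10,k3)],[(k5,k3),(k3,k4)],[(k0,k3),(k2,k5)],[(k9,k3)]]
    [] k0
    []
    [])]⟩

/-- classes `0 0 0 1 0 1`, types `N0 N0 N2 N0 N1 N2` -/
noncomputable def cU6_399 : CertX :=
  ⟨[k12,k12,k14,k28,k13,k30],[(false,k0,[k0,k1,k2,k3,k4,k5])],[[[([z1,z0,z1,z0,z1,z0],z2)],[]]],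
    [.old (.leafM k5 [k0,k1,k2,k3,k4,k5] [(z1,[y1,z1]),(z1,[z1])] []),
    .old (.lp [k2,k2,k4,k2,k2,k2] [k1,k1,k1,k1,k0,k0,k1,k1,k1,k1,k1,k1] k0 [] k8 k5
    [[(k9,k2)],[(k11,k2),(k4,k3)],[(k7,k2),(k8,k2)],[(k11,k2),(k4,k3)],[(k7,k3),(k8,k3)],[(k0,k3),(k2,k3)],[(k3,k2),
    (k5,k3)],[(k10,k2)],[(k1,k2)],[(k3,k2),(k5,k3)],[(k0,k2),(k2,k2)],[(k6,k2)]]
    [] k0
    [[k0,k1,k0,k1,k0,k1]]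
    [.ref k0 k0 [(z1,[y1,z1])]])]⟩

/-- classes `0 0 0 1 0 1`, types `N0 N0 N2 N0 N2 N1` -/
noncomputable def cU6_400 : CertX :=
  ⟨[k12,k12,k14,k28,k14,k29],[],[[[]]],
    [.old (.lp [k6,k6,k4,k0,k0,k6] [k0,k0,k0,k0,k1,k1,k3,k3,k3,k3,k0,k0] k0 [[],[],[k0,k0,k0,k0,k0,k2],[],[k0,k0,k0,
    k2]] k12 k5
    [[(k6,k3)],[(k8,k3),(k4,k5)],[(k7,k3),(k11,k6)],[(k4,k3),(k8,k3)],[(k7,k4),(k11,k5)],[(k2,k3),(k0,k5)],[(k3,k3),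
    (k5,k4)],[(k1,k3)],[(k10,k3)],[(k0,k3),(k2,k3)],[(k5,k5),(k3,k6)],[(k9,k3)]]
    [] k0
    []
    [])]⟩

/-- classes `0 0 0 1 0 1`, types `N0 N0 N2 N0 N2 N2` -/
noncomputable def cU6_401 : CertX :=
  ⟨[k12,k12,k14,k28,k14,k30],[(false,k0,[k0,k1,k2,k3,k4,k5])],[[[([z1,z0,z0,z0,z1,z0],z2)],[]]],
    [.old (.leafM k3 [k1,k2,k3,k5] [] [(k4,k0,z1,[z1]),(k0,k4,z1,[z1])]),
    .old (.lp [k2,k2,k2,k2,k2,k2] [k0,k0,k0,k0,k0,k0,k0,k0,k0,k0,k0,k0] k0 [] k8 k5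
    [[(k9,k2)],[(k4,k2),(k8,k2)],[(k7,k2),(k11,k2)],[(k4,k2),(k8,k2)],[(k7,k2),(k11,k2)],[(k0,k2),(k2,k2)],[(k3,k2),
    (k5,k2)],[(k10,k2)],[(k1,k2)],[(k0,k2),(k2,k2)],[(k3,k2),(k5,k2)],[(k6,k2)]]
    [] k0
    [[k1,k0,k0,k0,k1,k0]]
    [.ref k0 k0 [(z1,[z1])]])]⟩

/-- classes `0 0 0 1 0 1`, types `N0 N0 N2 S0 N1 S0` -/
noncomputable def cU6_402 : CertX :=
  ⟨[k12,k12,k14,k16,k13,k16],[(false,k0,[k0,k1,k2,k3,k4,k5])],[[[([z1,z0,z1,z0,z1,z0],z2)],[([z1,z0,z0,z0,z0,z1],z2)],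
    []]],
    [.old (.leafM k5 [k0,k1,k2,k3,k4,k5] [(z1,[y1,z1]),(z1,[z1])] []),
    .old (.leafM k1 [k3,k4,k1,k2] [] [(k5,k0,z1,[z1]),(k0,k5,z1,[z1])]),
    .old (.lp [k12,k6,k6,k6,k6,k8] [k0,k0,k3,k3,k3,k3,k3,k3,k3,k3,k2,k2] k0 [[k0,k0,k0,k0,k0,k0,k0,k0,k4],[],[],[],[],[],
    [],[],[],[k0,k4]] k24 k5
    [[(k6,k9),(k9,k9),(k10,k10),(k1,k12)],[(k11,k6),(k4,k9)],[(k7,k6),(k8,k10)],[(k4,k6),(k11,k7)],[(k7,k6),(k8,k6)],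
    [(k2,k6),(k0,k9)],[(k3,k6),(k5,k6)],[(k6,k6),(k9,k6),(k10,k7),(k1,k9)],[(k6,k6),(k9,k6),(k10,k7),(k1,k9)],[(k5,
    k6),(k3,k10)],[(k0,k6),(k2,k7)],[(k6,k7),(k9,k7),(k10,k8),(k1,k10)]]
    [] k0
    [[k1,k0,k0,k0,k0,k1],[k0,k1,k0,k1,k0,k1]]
    [.ref k1 k0 [(z1,[z1])],.ref k0 k0 [(z1,[y1,z1])]])]⟩

/-- classes `0 0 0 1 0 1`, types `N0 N0 N2 S0 N2 S0` -/
noncomputable def cU6_403 : CertX :=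
  ⟨[k12,k12,k14,k16,k14,k16],[(false,k0,[k0,k1,k2,k3,k4,k5])],[[[([z1,z0,z1,z0,z0,z1],z2)],[([z1,z0,z0,z0,z1,z0],z2)],
    []]],
    [.old (.leafM k3 [k0,k1,k2,k3,k4,k5] [(z1,[y1,z1])] []),
    .old (.leafM k3 [k1,k2,k3,k5] [] [(k4,k0,z1,[z1]),(k0,k4,z1,[z1])]),
    .old (.lp [k58,k42,k26,k30,k30,k34] [k0,k0,k8,k8,k16,k16,k14,k14,k14,k14,k12,k12] k0 [[k0,k0,k0,k0,k0,k0,k0,k0,k0,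
    k14],[k0,k0,k0,k0,k2],[k0,k0,k0,k0,k0,k4],[],[k0,k0,k0,k4],[k2],[],[],[k0,k14]] k120 k5
    [[(k6,k44),(k9,k44),(k10,k46),(k1,k58)],[(k8,k30),(k4,k44)],[(k7,k34),(k11,k52)],[(k4,k30),(k8,k36)],[(k11,k30),
    (k7,k32)],[(k2,k30),(k0,k44)],[(k5,k32),(k3,k34)],[(k6,k30),(k9,k30),(k10,k32),(k1,k44)],[(k6,k30),(k9,k30),(k10,
    k32),(k1,k44)],[(k0,k30),(k2,k36)],[(k5,k30),(k3,k52)],[(k6,k32),(k9,k32),(k10,k34),(k1,k46)]]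
    [] k0
    [[k1,k0,k0,k0,k1,k0],[k0,k1,k0,k1,k1,k0]]
    [.ref k1 k0 [(z1,[z1])],.ref k0 k0 [(z1,[y1,z1])]])]⟩

/-- classes `0 0 0 1 0 1`, types `N0 N1 N0 B0 N1 B1` -/
noncomputable def cU6_404 : CertX :=
  ⟨[k12,k13,k12,k24,k13,k25],[],[[[]]],
    [.old (.lp [k6,k10,k10,k6,k6,k6] [k2,k2,k0,k0,k0,k0,k2,k2,k2,k2,k2,k2] k0 [[k0,k0,k2],[],[k0,k0,k0,k0,k2],[k0,k2],[],
    [k0,k0,k0,k2]] k24 k5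
    [[(k6,k6),(k9,k6)],[(k5,k6),(k11,k6)],[(k8,k8),(k2,k12)],[(k7,k6),(k3,k12)],[(k0,k6),(k4,k12)],[(k11,k8),(k5,
    k12)],[(k2,k6),(k8,k6)],[(k1,k6),(k10,k6)],[(k1,k6),(k10,k6)],[(k7,k6),(k3,k8)],[(k0,k6),(k4,k8)],[(k6,k6),(k9,
    k6)]]
    [] k0
    []
    [])]⟩

/-- classes `0 0 0 1 0 1`, types `N0 N1 N0 B0 N2 B1` -/
noncomputable def cU6_405 : CertX :=
  ⟨[k12,k13,k12,k24,k14,k25],[(false,k0,[k0,k1,k2,k3,k4,k5]),(true,k3,[k3,k2,k1,k0,k5,k4])],[[[([z1,z0,z0,z0,z1,z0],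
    z2)],[]]],
    [.old (.lp [(nat_lit 396),k86,k160,k106,k84,k108] [k0,k0,k155,k155,k118,k118,k145,k145,k156,k156,k144,k144] k0 [[k0,k0,
    k94],[],[],[k0,k94],[k0,k0,k0,k0,k0,k0,k0,k0,k0,k26],[],[],[],[k0,k0,k0,k0,k0,k26]] (nat_lit 480) k6
    [[(k9,(nat_lit 240)),(k6,(nat_lit 251))],[(k5,k184),(k8,(nat_lit 240))],[(k11,k97),(k2,k180)],[(k7,k96),(k3,
    k180)],[(k4,k160),(k0,k184)],[(k8,k96),(k5,k160)],[(k2,k96),(k11,k133)],[(k10,k107),(k1,(nat_lit 251))],[(k10,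
    k96),(k1,(nat_lit 240))],[(k4,k96),(k0,(nat_lit 240))],[(k3,k97),(k7,k133)],[(k9,k96),(k6,k107)]]
    [] k0
    [[k0,k2,k0,k0,k0,k0],[k0,k1,k0,k1,k0,k1],[k0,k0,k2,k0,k0,k0],[k0,k0,k0,k1,k0,k1]]
    [.contra [z1],.contra [y1,y1,z1],.contra [z1],.contra [y1,y1,z1]]),
    .old (.lp [k12,k10,k8,k2,k4,k10] [k0,k0,k1,k1,k2,k2,k5,k5,k4,k4,k1,k1] k0 [[k0,k0,k0,k0,k0,k0,k0,k0,k0,k2],[],[],[],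
    [],[],[],[],[k0,k2]] k24 k5
    [[(k6,k7),(k9,k8)],[(k8,k6),(k5,k10)],[(k2,k10),(k11,k12)],[(k7,k6),(k3,k10)],[(k4,k8),(k0,k10)],[(k8,k6),(k5,
    k8)],[(k2,k6),(k11,k6)],[(k10,k6),(k1,k7)],[(k10,k7),(k1,k8)],[(k0,k6),(k4,k6)],[(k7,k6),(k3,k12)],[(k6,k6),(k9,
    k7)]]
    [] k0
    [[k1,k0,k0,k0,k1,k0],[k0,k2,k0,k0,k0,k0],[k0,k0,k2,k0,k0,k0],[k0,k0,k0,k1,k0,k1]]
    [.ref k0 k0 [(z1,[z1])],.contra [z1],.contra [z1],.ref k0 k1 [(z1,[z1])]])]⟩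

/-- classes `0 0 0 1 0 1`, types `N0 N1 N0 C0 N1 C0` -/
noncomputable def cU6_406 : CertX :=
  ⟨[k12,k13,k12,k20,k13,k20],[(false,k0,[k0,k1,k2,k3,k4,k5]),(true,k3,[k3,k2,k1,k0,k5,k4])],[[[([z1,z0,z0,z0,z0,z1],
    z2)],[]]],
    [.old (.lp [k94,k108,k26,k96,k0,k146] [k26,k26,k19,k19,k60,k60,k25,k25,k73,k73,k0,k0] k0 [[k0,k0,k12],[],[k0,k0,k0,k0,
    k54],[k0,k12],[k0,k0,k0,k0,k0,k0,k0,k0,k24],[k0,k0,k0,k54],[],[],[],[k0,k0,k0,k0,k0,k24]] (nat_lit 240) k6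
    [[(k6,k95),(k10,k120)],[(k5,k48),(k11,k120)],[(k8,k54),(k2,k120)],[(k7,k48),(k3,k120)],[(k0,k48),(k4,k80)],[(k11,
    k62),(k5,k80)],[(k2,k48),(k8,k72)],[(k9,k48),(k1,k95)],[(k6,k48),(k10,k73)],[(k3,k54),(k7,k72)],[(k4,k62),(k0,
    k120)],[(k9,k73),(k1,k120)]]
    [] k0
    [[k1,k0,k1,k0,k0,k1],[k0,k1,k0,k1,k1,k0],[k0,k0,k2,k0,k0,k0],[k0,k0,k0,k1,k1,k0]]
    [.contra [z1,y1],.contra [y1,y1,z1],.contra [z1],.contra [y1,y1,z1]]),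
    .old (.lp [k4,k10,k8,k12,k0,k12] [k4,k4,k1,k1,k2,k2,k0,k0,k6,k6,k0,k0] k0 [[k0,k0,k0,k0,k0,k0,k0,k0,k2],[],[],[],[],
    [],[],[],[],[k0,k2]] k24 k5
    [[(k6,k8),(k10,k8)],[(k5,k6),(k11,k6)],[(k8,k7),(k2,k10)],[(k3,k10),(k7,k11)],[(k0,k6),(k4,k8)],[(k5,k8),(k11,
    k10)],[(k8,k6),(k2,k11)],[(k9,k6),(k1,k8)],[(k6,k6),(k10,k6)],[(k7,k6),(k3,k7)],[(k0,k6),(k4,k10)],[(k9,k6),(k1,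
    k8)]]
    [] k0
    [[k1,k0,k0,k0,k0,k1],[k0,k2,k0,k0,k0,k0],[k0,k0,k2,k0,k0,k0],[k0,k0,k0,k1,k1,k0]]
    [.ref k0 k0 [(z1,[z1])],.contra [z1],.contra [z1],.ref k0 k1 [(z1,[z1])]])]⟩

/-- classes `0 0 0 1 0 1`, types `N0 N1 N0 C0 N1 C2` -/
noncomputable def cU6_407 : CertX :=
  ⟨[k12,k13,k12,k20,k13,k22],[(false,k0,[k0,k1,k2,k3,k4,k5]),(true,k3,[k3,k2,k1,k0,k5,k4])],[[[([z1,z0,z0,z0,z0,z1],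
    z2)],[]]],
    [.old (.lp [(nat_lit 14076),(nat_lit 15640),(nat_lit 4140),(nat_lit 14076),k0,(nat_lit 21114)] [(nat_lit 3519),
    (nat_lit 3519),(nat_lit 2737),(nat_lit 2737),(nat_lit 8487),(nat_lit 8487),(nat_lit 3519),(nat_lit 3519),
    (nat_lit 10557),(nat_lit 10557),k0,k0] k0 [[k0,k0,(nat_lit 2070)],[],[k0,k0,k0,k0,(nat_lit 7650)],[k0,
    (nat_lit 2070)],[k0,k0,k0,k0,k0,k0,k0,k0,(nat_lit 3519)],[k0,k0,k0,(nat_lit 7650)],[],[],[],[k0,k0,k0,k0,k0,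
    (nat_lit 3519)]] (nat_lit 35190) k6
    [[(k9,(nat_lit 7038)),(k10,(nat_lit 17595))],[(k5,(nat_lit 7038)),(k11,(nat_lit 17595))],[(k8,(nat_lit 7820)),(k2,
    (nat_lit 17710))],[(k7,(nat_lit 7208)),(k3,(nat_lit 17710))],[(k0,(nat_lit 7038)),(k4,(nat_lit 11790))],[(k11,
    (nat_lit 9108)),(k5,(nat_lit 11790))],[(k2,(nat_lit 7208)),(k8,(nat_lit 10557))],[(k9,(nat_lit 7038)),(k10,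
    (nat_lit 17595))],[(k1,(nat_lit 7038)),(k6,(nat_lit 7038))],[(k3,(nat_lit 7820)),(k7,(nat_lit 10557))],[(k4,
    (nat_lit 9108)),(k0,(nat_lit 17595))],[(k1,(nat_lit 17595)),(k6,(nat_lit 17595))]]
    [] k0
    [[k1,k0,k1,k0,k0,k1],[k0,k1,k0,k1,k1,k0],[k0,k0,k2,k0,k0,k0],[k0,k0,k0,k1,k1,k0]]
    [.contra [z1,y1],.contra [y1,y1,z1],.contra [z1],.contra [y1,y1,z1]]),
    .old (.lp [k12,k10,k8,k12,k0,k4] [k0,k0,k1,k1,k2,k2,k0,k0,k6,k6,k4,k4] k0 [[k0,k0,k0,k0,k0,k0,k0,k0,k2],[],[],[],[],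
    [],[],[],[],[k0,k2]] k24 k5
    [[(k9,k6),(k10,k8)],[(k11,k6),(k5,k10)],[(k8,k7),(k2,k10)],[(k3,k10),(k7,k11)],[(k4,k8),(k0,k10)],[(k11,k6),(k5,
    k8)],[(k8,k6),(k2,k11)],[(k9,k6),(k10,k8)],[(k1,k6),(k6,k6)],[(k7,k6),(k3,k7)],[(k0,k6),(k4,k6)],[(k1,k8),(k6,
    k8)]]
    [] k0
    [[k1,k0,k0,k0,k0,k1],[k0,k2,k0,k0,k0,k0],[k0,k0,k2,k0,k0,k0],[k0,k0,k0,k1,k1,k0]]
    [.ref k0 k0 [(z1,[z1])],.contra [z1],.contra [z1],.ref k0 k1 [(z1,[z1])]])]⟩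

/-- classes `0 0 0 1 0 1`, types `N0 N1 N0 C0 N2 C0` -/
noncomputable def cU6_408 : CertX :=
  ⟨[k12,k13,k12,k20,k14,k20],[],[[[]]],
    [.old (.lp [k6,k10,k10,k6,k6,k6] [k2,k2,k0,k0,k0,k0,k2,k2,k2,k2,k2,k2] k0 [[k0,k0,k2],[],[k0,k0,k0,k0,k2],[k0,k2],[],
    [k0,k0,k0,k2]] k24 k5
    [[(k6,k6),(k10,k6)],[(k5,k6),(k8,k6)],[(k11,k8),(k2,k12)],[(k7,k6),(k3,k12)],[(k0,k6),(k4,k12)],[(k8,k8),(k5,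
    k12)],[(k2,k6),(k11,k6)],[(k1,k6),(k9,k6)],[(k6,k6),(k10,k6)],[(k0,k6),(k4,k8)],[(k7,k6),(k3,k8)],[(k1,k6),(k9,
    k6)]]
    [] k0
    []
    [])]⟩

/-- classes `0 0 0 1 0 1`, types `N0 N1 N0 C0 N2 C2` -/
noncomputable def cU6_409 : CertX :=
  ⟨[k12,k13,k12,k20,k14,k22],[(false,k0,[k0,k1,k2,k3,k4,k5]),(true,k3,[k3,k2,k1,k0,k5,k4])],[[[([z1,z0,z0,z0,z1,z0],
    z2)],[]]],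
    [.old (.lp [k196,k44,k80,k52,k44,k54] [k0,k0,k76,k76,k58,k58,k72,k72,k76,k76,k71,k71] k0 [[k0,k0,k76],[],[],[k0,k76],
    [k0,k0,k0,k0,k0,k0,k0,k0,k0,k14],[],[],[],[k0,k0,k0,k0,k0,k14]] (nat_lit 240) k6
    [[(k9,k120),(k10,k125)],[(k5,k62),(k8,k120)],[(k11,k49),(k2,k120)],[(k7,k48),(k3,k120)],[(k0,k62),(k4,k80)],[(k8,
    k48),(k5,k80)],[(k2,k48),(k11,k67)],[(k9,k48),(k10,k53)],[(k6,k48),(k1,k120)],[(k4,k48),(k0,k120)],[(k3,k49),(k7,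
    k67)],[(k6,k53),(k1,k125)]]
    [] k0
    [[k1,k0,k1,k0,k1,k0],[k0,k1,k0,k1,k0,k1],[k0,k0,k2,k0,k0,k0],[k0,k0,k0,k1,k0,k1]]
    [.contra [z1,y1],.contra [y1,y1,z1],.contra [z1],.contra [y1,y1,z1]]),
    .old (.lp [k12,k10,k8,k8,k4,k4] [k0,k0,k1,k1,k2,k2,k2,k2,k4,k4,k4,k4] k0 [[k0,k0,k0,k0,k0,k0,k0,k0,k0,k2],[],[],[],[],
    [],[],[],[k0,k2]] k24 k5
    [[(k9,k8),(k10,k8)],[(k8,k6),(k5,k10)],[(k11,k9),(k2,k10)],[(k7,k9),(k3,k10)],[(k4,k8),(k0,k10)],[(k8,k6),(k5,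
    k8)],[(k11,k6),(k2,k9)],[(k9,k6),(k10,k6)],[(k6,k6),(k1,k8)],[(k0,k6),(k4,k6)],[(k7,k6),(k3,k9)],[(k6,k6),(k1,
    k8)]]
    [] k0
    [[k1,k0,k0,k0,k1,k0],[k0,k2,k0,k0,k0,k0],[k0,k0,k2,k0,k0,k0],[k0,k0,k0,k1,k0,k1]]
    [.ref k0 k0 [(z1,[z1])],.contra [z1],.contra [z1],.ref k0 k1 [(z1,[z1])]])]⟩

/-- classes `0 0 0 1 0 1`, types `N0 N1 N0 N0 N1 N1` -/
noncomputable def cU6_410 : CertX :=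
  ⟨[k12,k13,k12,k28,k13,k29],[],[[[]]],
    [.old (.lp [k2,k6,k4,k4,k2,k4] [k2,k2,k0,k0,k1,k1,k1,k1,k2,k2,k1,k1] k0 [[],[],[k0,k0,k0,k0,k2],[],[],[k0,k0,k0,
    k2]] k12 k5
    [[(k6,k3)],[(k5,k3),(k11,k3)],[(k8,k4),(k2,k6)],[(k7,k3),(k3,k6)],[(k0,k3),(k4,k6)],[(k11,k4),(k5,k6)],[(k2,k3),
    (k8,k3)],[(k1,k3)],[(k10,k3)],[(k7,k3),(k3,k4)],[(k0,k3),(k4,k4)],[(k9,k3)]]
    [] k0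
    []
    [])]⟩

/-- classes `0 0 0 1 0 1`, types `N0 N1 N0 N0 N1 N2` -/
noncomputable def cU6_411 : CertX :=
  ⟨[k12,k13,k12,k28,k13,k30],[],[[[]]],
    [.old (.lp [k10,k10,k10,k10,k2,k2] [k0,k0,k0,k0,k0,k0,k0,k0,k4,k4,k4,k4] k0 [[k0,k0,k2],[],[k0,k0,k0,k0,k2],[k0,k2],[],
    [k0,k0,k0,k2]] k24 k5
    [[(k9,k6)],[(k11,k6),(k5,k8)],[(k8,k6),(k2,k12)],[(k7,k8),(k3,k12)],[(k0,k8),(k4,k12)],[(k11,k6),(k5,k12)],[(k8,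
    k6),(k2,k8)],[(k10,k6)],[(k1,k6)],[(k3,k6),(k7,k6)],[(k0,k6),(k4,k6)],[(k6,k6)]]
    [] k0
    []
    [])]⟩

/-- classes `0 0 0 1 0 1`, types `N0 N1 N0 N0 N2 N1` -/
noncomputable def cU6_412 : CertX :=
  ⟨[k12,k13,k12,k28,k14,k29],[],[[[]]],
    [.old (.lp [k4,k4,k6,k2,k2,k4] [k1,k1,k1,k1,k0,k0,k2,k2,k2,k2,k1,k1] k0 [[k0,k0,k2],[],[],[k0,k2]] k12 k5
    [[(k6,k3)],[(k5,k3),(k8,k3)],[(k11,k4),(k2,k6)],[(k7,k3),(k3,k6)],[(k0,k3),(k4,k6)],[(k8,k4),(k5,k6)],[(k2,k3),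
    (k11,k3)],[(k1,k3)],[(k10,k3)],[(k0,k3),(k4,k4)],[(k7,k3),(k3,k4)],[(k9,k3)]]
    [] k0
    []
    [])]⟩

/-- classes `0 0 0 1 0 1`, types `N0 N1 N0 N0 N2 N2` -/
noncomputable def cU6_413 : CertX :=
  ⟨[k12,k13,k12,k28,k14,k30],[(false,k0,[k0,k1,k2,k3,k4,k5]),(true,k3,[k3,k2,k1,k0,k5,k4])],[[[([z1,z0,z0,z0,z1,z0],
    z2)],[]]],
    [.old (.lp [(nat_lit 200),k42,k80,k54,k40,k54] [k0,k0,k79,k79,k60,k60,k73,k73,k80,k80,k73,k73] k0 [[k0,k0,k78],[],[],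
    [k0,k78],[k0,k0,k0,k0,k0,k0,k0,k0,k0,k12],[],[],[],[k0,k0,k0,k0,k0,k12]] (nat_lit 240) k6
    [[(k9,k120)],[(k5,k62),(k8,k120)],[(k11,k48),(k2,k120)],[(k7,k48),(k3,k120)],[(k0,k62),(k4,k80)],[(k8,k48),(k5,
    k80)],[(k2,k48),(k11,k66)],[(k10,k54)],[(k1,k120)],[(k4,k48),(k0,k120)],[(k3,k48),(k7,k66)],[(k6,k54)]]
    [] k0
    [[k1,k0,k1,k0,k1,k0],[k0,k1,k0,k1,k0,k1],[k0,k0,k2,k0,k0,k0],[k0,k0,k0,k1,k0,k1]]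
    [.contra [z1,y1],.contra [y1,y1,z1],.contra [z1],.contra [y1,y1,z1]]),
    .old (.lp [k12,k10,k8,k2,k4,k10] [k0,k0,k1,k1,k2,k2,k5,k5,k4,k4,k1,k1] k0 [[k0,k0,k0,k0,k0,k0,k0,k0,k0,k2],[],[],[],
    [],[],[],[],[k0,k2]] k24 k5
    [[(k9,k8)],[(k8,k6),(k5,k10)],[(k2,k10),(k11,k12)],[(k7,k6),(k3,k10)],[(k4,k8),(k0,k10)],[(k8,k6),(k5,k8)],[(k2,
    k6),(k11,k6)],[(k10,k6)],[(k1,k8)],[(k0,k6),(k4,k6)],[(k7,k6),(k3,k12)],[(k6,k6)]]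
    [] k0
    [[k1,k0,k0,k0,k1,k0],[k0,k2,k0,k0,k0,k0],[k0,k0,k2,k0,k0,k0],[k0,k0,k0,k1,k0,k1]]
    [.ref k0 k0 [(z1,[z1])],.contra [z1],.contra [z1],.ref k0 k1 [(z1,[z1])]])]⟩

/-- classes `0 0 0 1 0 1`, types `N0 N1 N0 S0 N1 S0` -/
noncomputable def cU6_414 : CertX :=
  ⟨[k12,k13,k12,k16,k13,k16],[(false,k0,[k0,k1,k2,k3,k4,k5]),(true,k3,[k3,k2,k1,k0,k5,k4])],[[[([z1,z0,z0,z0,z0,z1],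
    z2)],[]]],
    [.old (.lp [k36,k56,k50,k36,k54,k125] [k83,k83,k73,k73,k76,k76,k83,k83,k74,k74,k77,k0] k0 [[k0,k0,k7],[k0,k0,k0,k0,k0,
    k0,k0,k0,k0,k19],[k0,k0,k0,k0,k10],[k0,k7],[k0,k0,k0,k0,k0,k0,k0,k0,k90],[k0,k0,k0,k10],[],[],[k19],[k0,k0,k0,k0,
    k0,k90]] k180 k6
    [[(k1,k36),(k6,k36),(k10,k42),(k9,k45)],[(k5,k36),(k11,k138)],[(k8,k36),(k2,k63)],[(k7,k36),(k3,k63)],[(k0,k36),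
    (k4,k60)],[(k11,k36),(k5,k60)],[(k2,k36),(k8,k135)],[(k1,k36),(k6,k36),(k10,k42),(k9,k45)],[(k1,k45),(k6,k45),
    (k10,k51),(k9,k54)],[(k3,k36),(k7,k135)],[(k4,k36),(k0,k138)],[(k1,k42),(k6,k42),(k10,k48),(k9,k51)]]
    [] k0
    [[k1,k0,k1,k0,k0,k1],[k1,k0,k2,k0,k0,k1],[k0,k2,k0,k0,k0,k0],[k0,k1,k0,k1,k1,k0],[k0,k0,k2,k0,k0,k0]]
    [.contra [z1,y1],.contra [z1,y1],.contra [z1],.contra [y1,y1,z1],.contra [z1]]),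
    .old (.lp [k6,k8,k8,k8,k6,k10] [k2,k2,k1,k1,k1,k1,k1,k1,k2,k2,k0,k0] k0 [[k0,k0,k0,k0,k0,k0,k0,k0,k2],[],[],[],[],[],
    [],[],[],[k0,k2]] k24 k5
    [[(k1,k6),(k9,k6),(k6,k7),(k10,k8)],[(k11,k6),(k5,k7)],[(k2,k8),(k8,k9)],[(k3,k8),(k7,k8)],[(k0,k7),(k4,k8)],[(k5,
    k8),(k11,k9)],[(k8,k7),(k2,k8)],[(k1,k7),(k9,k7),(k6,k8),(k10,k9)],[(k1,k6),(k9,k6),(k6,k7),(k10,k8)],[(k7,k7),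
    (k3,k9)],[(k0,k6),(k4,k9)],[(k1,k8),(k9,k8),(k6,k9),(k10,k10)]]
    [] k0
    [[k1,k0,k0,k0,k0,k1],[k0,k2,k0,k0,k0,k0],[k0,k0,k2,k0,k0,k0],[k0,k0,k0,k1,k1,k0]]
    [.ref k0 k0 [(z1,[z1])],.contra [z1],.contra [z1],.ref k0 k1 [(z1,[z1])]])]⟩

/-- classes `0 0 0 1 0 1`, types `N0 N1 N0 S0 N2 S0` -/
noncomputable def cU6_415 : CertX :=
  ⟨[k12,k13,k12,k16,k14,k16],[(false,k0,[k0,k1,k2,k3,k4,k5]),(true,k3,[k3,k2,k1,k0,k5,k4])],[[[([z1,z0,z0,z0,z1,z0],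
    z2)],[]]],
    [.old (.lp [(nat_lit 12144),(nat_lit 2640),(nat_lit 5060),(nat_lit 3450),(nat_lit 3036),(nat_lit 3450)] [k0,k0,
    (nat_lit 4752),(nat_lit 4752),(nat_lit 3542),(nat_lit 3542),(nat_lit 4347),(nat_lit 4347),(nat_lit 4554),
    (nat_lit 4554),(nat_lit 4347),(nat_lit 4347)] k0 [[k0,k0,(nat_lit 3036)],[],[],[k0,(nat_lit 3036)],[k0,k0,k0,k0,
    k0,k0,k0,k0,k0,(nat_lit 759)],[],[],[],[k0,k0,k0,k0,k0,(nat_lit 759)]] (nat_lit 15180) k6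
    [[(k9,(nat_lit 7590)),(k6,(nat_lit 7797)),(k10,(nat_lit 7797)),(k1,(nat_lit 12144))],[(k5,(nat_lit 5566)),(k8,
    (nat_lit 7590))],[(k11,(nat_lit 3045)),(k2,(nat_lit 5676))],[(k7,(nat_lit 3045)),(k3,(nat_lit 5676))],[(k4,
    (nat_lit 5060)),(k0,(nat_lit 5566))],[(k8,(nat_lit 3289)),(k5,(nat_lit 5060))],[(k2,(nat_lit 3045)),(k11,
    (nat_lit 4209))],[(k9,(nat_lit 3243)),(k6,(nat_lit 3450)),(k10,(nat_lit 3450)),(k1,(nat_lit 7797))],[(k9,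
    (nat_lit 3036)),(k6,(nat_lit 3243)),(k10,(nat_lit 3243)),(k1,(nat_lit 7590))],[(k4,(nat_lit 3289)),(k0,
    (nat_lit 7590))],[(k3,(nat_lit 3045)),(k7,(nat_lit 4209))],[(k9,(nat_lit 3243)),(k6,(nat_lit 3450)),(k10,
    (nat_lit 3450)),(k1,(nat_lit 7797))]]
    [] k0
    [[k0,k2,k0,k0,k0,k0],[k0,k1,k0,k1,k0,k1],[k0,k0,k2,k0,k0,k0],[k0,k0,k0,k1,k0,k1]]
    [.contra [z1],.contra [y1,y1,z1],.contra [z1],.contra [y1,y1,z1]]),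
    .old (.lp [k10,k8,k8,k6,k6,k8] [k0,k0,k1,k1,k1,k1,k2,k2,k2,k2,k1,k1] k0 [[k0,k0,k0,k0,k0,k0,k0,k0,k0,k2],[],[],[],[],
    [],[],[],[k0,k2]] k24 k5
    [[(k6,k8),(k9,k8),(k10,k9),(k1,k10)],[(k8,k6),(k5,k9)],[(k2,k8),(k11,k10)],[(k7,k7),(k3,k8)],[(k4,k8),(k0,k9)],
    [(k8,k7),(k5,k8)],[(k2,k7),(k11,k7)],[(k6,k6),(k9,k6),(k10,k7),(k1,k8)],[(k6,k6),(k9,k6),(k10,k7),(k1,k8)],[(k0,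
    k6),(k4,k7)],[(k7,k7),(k3,k10)],[(k6,k7),(k9,k7),(k10,k8),(k1,k9)]]
    [] k0
    [[k1,k0,k0,k0,k1,k0],[k0,k2,k0,k0,k0,k0],[k0,k0,k2,k0,k0,k0],[k0,k0,k0,k1,k0,k1]]
    [.ref k0 k0 [(z1,[z1])],.contra [z1],.contra [z1],.ref k0 k1 [(z1,[z1])]])]⟩

/-- classes `0 0 0 1 0 1`, types `N0 N1 N2 B0 N0 B1` -/
noncomputable def cU6_416 : CertX :=
  ⟨[k12,k13,k14,k24,k12,k25],[(false,k0,[k0,k1,k2,k3,k4,k5])],[[[([z1,z0,z1,z0,z1,z0],z2)],[]]],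
    [.old (.leafM k5 [k0,k1,k2,k3,k4,k5] [(z1,[y1,z1]),(z1,[z1])] []),
    .old (.lp [k6,k10,k6,k6,k6,k24] [k9,k9,k7,k7,k9,k9,k9,k9,k9,k9,k0,k0] k0 [] k30 k6
    [[(k6,k6),(k9,k6)],[(k4,k6),(k5,k6)],[(k7,k8),(k2,k10)],[(k3,k10),(k11,k17)],[(k0,k6),(k8,k6)],[(k0,k6),(k8,k6)],
    [(k3,k8),(k11,k15)],[(k1,k6),(k10,k15)],[(k1,k6),(k10,k15)],[(k4,k6),(k5,k6)],[(k7,k15),(k2,k17)],[(k6,k15),(k9,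
    k15)]]
    [] k0
    [[k1,k0,k1,k0,k1,k0],[k0,k2,k0,k0,k0,k0]]
    [.ref k0 k0 [(z1,[z1])],.contra [z1]])]⟩

/-- classes `0 0 0 1 0 1`, types `N0 N1 N2 B0 N3 B1` -/
noncomputable def cU6_417 : CertX :=
  ⟨[k12,k13,k14,k24,k15,k25],[],[[[]]],
    [.old (.lp [k2,k4,k2,k2,k2,k2] [k1,k1,k0,k0,k1,k1,k1,k1,k1,k1,k1,k1] k0 [] k8 k5
    [[(k6,k2),(k9,k2)],[(k4,k2),(k5,k2)],[(k7,k3),(k2,k4)],[(k8,k3),(k3,k4)],[(k0,k2),(k11,k2)],[(k0,k2),(k11,k2)],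
    [(k8,k2),(k3,k3)],[(k1,k2),(k10,k2)],[(k1,k2),(k10,k2)],[(k7,k2),(k2,k3)],[(k4,k2),(k5,k2)],[(k6,k2),(k9,k2)]]
    [] k0
    []
    [])]⟩

/-- classes `0 0 0 1 0 1`, types `N0 N1 N2 C0 N0 C0` -/
noncomputable def cU6_418 : CertX :=
  ⟨[k12,k13,k14,k20,k12,k20],[],[[[]]],
    [.old (.lp [k2,k4,k2,k2,k2,k2] [k1,k1,k0,k0,k1,k1,k1,k1,k1,k1,k1,k1] k0 [] k8 k5
    [[(k6,k2),(k10,k2)],[(k4,k2),(k5,k2)],[(k7,k3),(k2,k4)],[(k11,k3),(k3,k4)],[(k0,k2),(k8,k2)],[(k0,k2),(k8,k2)],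
    [(k11,k2),(k3,k3)],[(k1,k2),(k9,k2)],[(k6,k2),(k10,k2)],[(k4,k2),(k5,k2)],[(k7,k2),(k2,k3)],[(k1,k2),(k9,k2)]]
    [] k0
    []
    [])]⟩

/-- classes `0 0 0 1 0 1`, types `N0 N1 N2 C0 N0 C2` -/
noncomputable def cU6_419 : CertX :=
  ⟨[k12,k13,k14,k20,k12,k22],[(false,k0,[k0,k1,k2,k3,k4,k5])],[[[([z1,z0,z1,z0,z1,z0],z2)],[]]],
    [.old (.leafM k5 [k0,k1,k2,k3,k4,k5] [(z1,[y1,z1]),(z1,[z1])] []),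
    .old (.lp [k6,k10,k6,k6,k6,k24] [k9,k9,k7,k7,k9,k9,k9,k9,k9,k9,k0,k0] k0 [] k30 k6
    [[(k9,k6),(k10,k15)],[(k4,k6),(k5,k6)],[(k7,k8),(k2,k10)],[(k3,k10),(k11,k17)],[(k0,k6),(k8,k6)],[(k0,k6),(k8,
    k6)],[(k3,k8),(k11,k15)],[(k9,k6),(k10,k15)],[(k1,k6),(k6,k6)],[(k4,k6),(k5,k6)],[(k7,k15),(k2,k17)],[(k1,k15),
    (k6,k15)]]
    [] k0
    [[k1,k0,k1,k0,k1,k0],[k0,k2,k0,k0,k0,k0]]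
    [.ref k0 k0 [(z1,[z1])],.contra [z1]])]⟩

/-- classes `0 0 0 1 0 1`, types `N0 N1 N2 C0 N3 C0` -/
noncomputable def cU6_420 : CertX :=
  ⟨[k12,k13,k14,k20,k15,k20],[(false,k0,[k0,k1,k2,k3,k4,k5])],[[[([z1,z0,z1,z0,z0,z1],z2)],[]]],
    [.old (.leafM k3 [k0,k1,k2,k3,k4,k5] [(z1,[y1,z1])] []),
    .old (.lp [k6,k10,k6,k24,k6,k6] [k9,k9,k7,k7,k9,k9,k0,k0,k9,k9,k9,k9] k0 [] k30 k6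
    [[(k10,k6),(k6,k15)],[(k4,k6),(k5,k6)],[(k2,k10),(k7,k17)],[(k8,k8),(k3,k10)],[(k0,k6),(k11,k6)],[(k0,k6),(k11,
    k6)],[(k8,k15),(k3,k17)],[(k1,k15),(k9,k15)],[(k10,k6),(k6,k15)],[(k2,k8),(k7,k15)],[(k4,k6),(k5,k6)],[(k1,k6),
    (k9,k6)]]
    [] k0
    [[k1,k0,k1,k0,k0,k1],[k0,k2,k0,k0,k0,k0]]
    [.ref k0 k0 [(z1,[z1])],.contra [z1]])]⟩

/-- classes `0 0 0 1 0 1`, types `N0 N1 N2 C0 N3 C2` -/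
noncomputable def cU6_421 : CertX :=
  ⟨[k12,k13,k14,k20,k15,k22],[(false,k0,[k0,k1,k2,k3,k4,k5])],[[[([z1,z0,z1,z0,z0,z1],z2)],[]]],
    [.old (.leafM k3 [k0,k1,k2,k3,k4,k5] [(z1,[y1,z1])] []),
    .old (.lp [k6,k10,k6,k24,k6,k6] [k9,k9,k7,k7,k9,k9,k0,k0,k9,k9,k9,k9] k0 [] k30 k6
    [[(k9,k6),(k10,k6)],[(k4,k6),(k5,k6)],[(k2,k10),(k7,k17)],[(k8,k8),(k3,k10)],[(k0,k6),(k11,k6)],[(k0,k6),(k11,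
    k6)],[(k8,k15),(k3,k17)],[(k9,k15),(k10,k15)],[(k1,k6),(k6,k15)],[(k2,k8),(k7,k15)],[(k4,k6),(k5,k6)],[(k1,k6),
    (k6,k15)]]
    [] k0
    [[k1,k0,k1,k0,k0,k1],[k0,k2,k0,k0,k0,k0]]
    [.ref k0 k0 [(z1,[z1])],.contra [z1]])]⟩

/-- classes `0 0 0 1 0 1`, types `N0 N1 N2 N0 N0 N1` -/
noncomputable def cU6_422 : CertX :=
  ⟨[k12,k13,k14,k28,k12,k29],[],[[[]]],
    [.old (.lp [k2,k4,k2,k2,k2,k2] [k1,k1,k0,k0,k1,k1,k1,k1,k1,k1,k1,k1] k0 [] k8 k5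
    [[(k6,k2)],[(k4,k2),(k5,k2)],[(k7,k3),(k2,k4)],[(k11,k3),(k3,k4)],[(k0,k2),(k8,k2)],[(k0,k2),(k8,k2)],[(k11,k2),
    (k3,k3)],[(k1,k2)],[(k10,k2)],[(k4,k2),(k5,k2)],[(k7,k2),(k2,k3)],[(k9,k2)]]
    [] k0
    []
    [])]⟩

/-- classes `0 0 0 1 0 1`, types `N0 N1 N2 N0 N0 N2` -/
noncomputable def cU6_423 : CertX :=
  ⟨[k12,k13,k14,k28,k12,k30],[(false,k0,[k0,k1,k2,k3,k4,k5])],[[[([z1,z0,z1,z0,z1,z0],z2)],[]]],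
    [.old (.leafM k5 [k0,k1,k2,k3,k4,k5] [(z1,[y1,z1]),(z1,[z1])] []),
    .old (.lp [k24,k40,k24,k10,k24,k110] [k43,k43,k35,k35,k43,k43,k50,k50,k43,k43,k0,k0] k0 [] k120 k6
    [[(k9,k24)],[(k4,k24),(k5,k24)],[(k7,k25),(k2,k40)],[(k3,k40),(k11,k75)],[(k0,k24),(k8,k24)],[(k0,k24),(k8,k24)],
    [(k3,k25),(k11,k60)],[(k10,k60)],[(k1,k24)],[(k4,k24),(k5,k24)],[(k7,k60),(k2,k75)],[(k6,k60)]]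
    [] k0
    [[k1,k0,k1,k0,k1,k0],[k0,k2,k0,k0,k0,k0]]
    [.ref k0 k0 [(z1,[z1])],.contra [z1]])]⟩

/-- classes `0 0 0 1 0 1`, types `N0 N1 N2 N0 N3 N1` -/
noncomputable def cU6_424 : CertX :=
  ⟨[k12,k13,k14,k28,k15,k29],[],[[[]]],
    [.old (.lp [k2,k4,k2,k2,k2,k2] [k1,k1,k0,k0,k1,k1,k1,k1,k1,k1,k1,k1] k0 [] k8 k5
    [[(k6,k2)],[(k4,k2),(k5,k2)],[(k7,k3),(k2,k4)],[(k8,k3),(k3,k4)],[(k0,k2),(k11,k2)],[(k0,k2),(k11,k2)],[(k8,k2),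
    (k3,k3)],[(k1,k2)],[(k10,k2)],[(k7,k2),(k2,k3)],[(k4,k2),(k5,k2)],[(k9,k2)]]
    [] k0
    []
    [])]⟩

/-- classes `0 0 0 1 0 1`, types `N0 N1 N2 N0 N3 N2` -/
noncomputable def cU6_425 : CertX :=
  ⟨[k12,k13,k14,k28,k15,k30],[],[[[]]],
    [.old (.lp [k2,k4,k2,k2,k2,k2] [k1,k1,k0,k0,k1,k1,k1,k1,k1,k1,k1,k1] k0 [] k8 k5
    [[(k9,k2)],[(k4,k2),(k5,k2)],[(k7,k3),(k2,k4)],[(k8,k3),(k3,k4)],[(k0,k2),(k11,k2)],[(k0,k2),(k11,k2)],[(k8,k2),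
    (k3,k3)],[(k10,k2)],[(k1,k2)],[(k7,k2),(k2,k3)],[(k4,k2),(k5,k2)],[(k6,k2)]]
    [] k0
    []
    [])]⟩

/-- classes `0 0 0 1 0 1`, types `N0 N1 N2 S0 N0 S0` -/
noncomputable def cU6_426 : CertX :=
  ⟨[k12,k13,k14,k16,k12,k16],[(false,k0,[k0,k1,k2,k3,k4,k5])],[[[([z1,z0,z1,z0,z1,z0],z2)],[]]],
    [.old (.leafM k5 [k0,k1,k2,k3,k4,k5] [(z1,[y1,z1]),(z1,[z1])] []),
    .old (.lp [k174,k116,k0,k84,k174,k138] [k0,k0,k29,k29,k87,k87,k45,k45,k0,k0,k18,k18] k36 [[],[],[],[],[],[],[],[k0,k0,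
    k0,k0,k0,k0,k0,k0,k0,k0,k90],[],[],[],[k0,k0,k0,k0,k0,k0,k90]] (nat_lit 240) k6
    [[(k9,k48),(k6,k93),(k10,k120),(k1,k138)],[(k4,k51),(k5,k51)],[(k7,k64),(k2,k80)],[(k3,k80),(k11,k91)],[(k0,k51),
    (k8,k51)],[(k0,k51),(k8,k51)],[(k3,k64),(k11,k75)],[(k6,k48),(k1,k93),(k9,k93),(k10,k165)],[(k1,k48),(k6,k93),
    (k10,k120),(k9,k138)],[(k4,k51),(k5,k51)],[(k7,k75),(k2,k91)],[(k10,k102),(k1,k120),(k9,k120),(k6,k165)]]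
    [] k0
    [[k1,k0,k1,k0,k1,k0],[k0,k2,k0,k0,k0,k0]]
    [.ref k0 k0 [(z1,[z1])],.contra [z1]])]⟩

/-- classes `0 0 0 1 0 1`, types `N0 N1 N2 S0 N3 S0` -/
noncomputable def cU6_427 : CertX :=
  ⟨[k12,k13,k14,k16,k15,k16],[(false,k0,[k0,k1,k2,k3,k4,k5])],[[[([z1,z0,z1,z0,z0,z1],z2)],[([z1,z1,z1,z0,z0,z1],z2)],
    []]],
    [.old (.leafM k3 [k0,k1,k2,k3,k4,k5] [(z1,[y1,z1])] []),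
    .old (.lp [k48,k2,(nat_lit 222),k71,k79,k54] [k87,k87,k110,k110,k0,k0,k87,k64,k64,k79,k84,k84] k0 [[k0,k0,k78],[],[],
    [k0,k78],[k0,k0,k0,k0,k0,k0,k0,k0,k90],[],[],[],[],[k0,k0,k0,k0,k0,k90]] (nat_lit 240) k6
    [[(k1,k48),(k6,k48),(k10,k51),(k9,k56)],[(k5,k57),(k4,k135)],[(k7,k48),(k2,k80)],[(k8,k48),(k3,k80)],[(k0,k57),
    (k11,k138)],[(k11,k48),(k0,k135)],[(k3,k48),(k8,k184)],[(k1,k48),(k6,k48),(k10,k51),(k9,k56)],[(k1,k56),(k6,k56),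
    (k10,k59),(k9,k64)],[(k2,k48),(k7,k184)],[(k4,k48),(k5,k138)],[(k1,k51),(k6,k51),(k10,k54),(k9,k59)]]
    [] k0
    [[k1,k0,k1,k0,k0,k1],[k0,k2,k0,k0,k0,k0],[k0,k2,k0,k1,k1,k0],[k0,k1,k0,k1,k1,k0]]
    [.contra [y1,z1],.contra [z1],.contra [z1,z1,y1],.contra [z1,z1,y1]]),
    .old (.lp [k20,k16,k12,k16,k12,k18] [k0,k0,k2,k2,k4,k4,k2,k2,k4,k4,k1,k1] k0 [[k0,k0,k0,k0,k0,k4],[],[],[],[k0,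
    k4]] k48 k5
    [[(k9,k16),(k6,k18),(k10,k19),(k1,k20)],[(k4,k12),(k5,k16)],[(k2,k16),(k7,k20)],[(k8,k14),(k3,k16)],[(k11,k15),
    (k0,k16)],[(k0,k12),(k11,k15)],[(k8,k14),(k3,k20)],[(k9,k14),(k6,k16),(k10,k17),(k1,k18)],[(k9,k12),(k6,k14),(k10,
    k15),(k1,k16)],[(k2,k14),(k7,k14)],[(k4,k15),(k5,k15)],[(k9,k15),(k6,k17),(k10,k18),(k1,k19)]]
    [] k0
    [[k1,k0,k1,k0,k0,k1],[k0,k2,k0,k0,k0,k0],[k0,k0,k0,k1,k1,k0]]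
    [.ref k0 k0 [(z1,[z1])],.contra [z1],.ref k1 k0 [(z1,[y1,z1])]])]⟩

/-- classes `0 0 0 1 0 1`, types `N0 N1 N3 B0 N1 B1` -/
noncomputable def cU6_428 : CertX :=
  ⟨[k12,k13,k15,k24,k13,k25],[(false,k0,[k0,k1,k2,k3,k4,k5])],[[[([z1,z1,z1,z0,z1,z0],z2)],[]]],
    [.old (.lp [k88,k132,k88,k72,k72,(nat_lit 324)] [k118,k118,k96,k96,k118,k118,k126,k126,k126,k126,k0,k0] k0 [[k0,k0,k0,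
    k0,k0,k0,k0,k0,k33],[],[],[],[],[],[],[],[],[k0,k33]] (nat_lit 396) k6
    [[(k6,k80),(k9,k80)],[(k5,k88),(k11,k173)],[(k2,k132),(k8,k135)],[(k4,k110),(k3,k132)],[(k7,k80),(k0,k88)],[(k8,
    k80),(k2,k110)],[(k5,k80),(k11,k198)],[(k1,k80),(k10,k198)],[(k1,k80),(k10,k198)],[(k4,k80),(k3,k135)],[(k0,k173),
    (k7,k198)],[(k6,k198),(k9,k198)]]
    [] k0
    [[k1,k0,k1,k0,k1,k0],[k0,k2,k0,k0,k0,k0]]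
    [.contra [y1,z1],.contra [z1]]),
    .old (.lp [k6,k4,k4,k2,k2,k4] [k0,k0,k1,k1,k1,k1,k2,k2,k2,k2,k1,k1] k0 [] k12 k5
    [[(k6,k4),(k9,k4)],[(k5,k5),(k11,k5)],[(k8,k3),(k2,k4)],[(k3,k4),(k4,k4)],[(k7,k3),(k0,k5)],[(k8,k3),(k2,k4)],
    [(k5,k3),(k11,k3)],[(k10,k3),(k1,k4)],[(k10,k3),(k1,k4)],[(k3,k3),(k4,k3)],[(k7,k3),(k0,k5)],[(k6,k3),(k9,k3)]]
    [] k0
    [[k0,k2,k0,k0,k0,k0],[k0,k0,k0,k1,k0,k1]]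
    [.contra [z1],.ref k0 k0 [(z1,[y1,z1])]])]⟩

/-- classes `0 0 0 1 0 1`, types `N0 N1 N3 B0 N2 B1` -/
noncomputable def cU6_429 : CertX :=
  ⟨[k12,k13,k15,k24,k14,k25],[(false,k0,[k0,k1,k2,k3,k4,k5])],[[[([z1,z0,z0,z0,z1,z0],z2)],[]]],
    [.old (.leafM k3 [k1,k2,k3,k5] [] [(k4,k0,z1,[z1]),(k0,k4,z1,[z1])]),
    .old (.lp [k14,k22,k14,k14,k10,k14] [k4,k4,k0,k0,k4,k4,k4,k4,k6,k6,k4,k4] k0 [[k0,k0,k2],[],[k0,k0,k0,k0,k0,k6],[k0,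
    k2],[k0,k0,k0,k6]] k48 k5
    [[(k9,k12),(k6,k14)],[(k5,k12),(k8,k12)],[(k11,k18),(k2,k24)],[(k4,k12),(k3,k24)],[(k0,k12),(k7,k20)],[(k2,k12),
    (k11,k14)],[(k8,k12),(k5,k20)],[(k1,k14),(k10,k14)],[(k1,k12),(k10,k12)],[(k0,k12),(k7,k12)],[(k4,k14),(k3,k18)],
    [(k9,k12),(k6,k14)]]
    [] k0
    [[k1,k0,k0,k0,k1,k0]]
    [.ref k0 k0 [(z1,[z1])]])]⟩

/-- classes `0 0 0 1 0 1`, types `N0 N1 N3 C0 N1 C0` -/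
noncomputable def cU6_430 : CertX :=
  ⟨[k12,k13,k15,k20,k13,k20],[(false,k0,[k0,k1,k2,k3,k4,k5])],[[[([z1,z0,z0,z0,z0,z1],z2)],[]]],
    [.old (.leafM k1 [k3,k4,k1,k2] [] [(k5,k0,z1,[z1]),(k0,k5,z1,[z1])]),
    .old (.lp [k2,k6,k4,k4,k2,k4] [k2,k2,k0,k0,k1,k1,k1,k1,k2,k2,k1,k1] k0 [[],[],[k0,k0,k0,k0,k0,k2],[],[k0,k0,k0,
    k2]] k12 k5
    [[(k6,k3),(k10,k3)],[(k5,k3),(k11,k3)],[(k8,k4),(k2,k6)],[(k4,k3),(k3,k6)],[(k0,k3),(k7,k6)],[(k2,k3),(k8,k3)],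
    [(k11,k4),(k5,k6)],[(k1,k3),(k9,k3)],[(k6,k3),(k10,k3)],[(k4,k3),(k3,k4)],[(k0,k3),(k7,k4)],[(k1,k3),(k9,k3)]]
    [] k0
    [[k1,k0,k0,k0,k0,k1]]
    [.ref k0 k0 [(z1,[z1])]])]⟩

/-- classes `0 0 0 1 0 1`, types `N0 N1 N3 C0 N1 C2` -/
noncomputable def cU6_431 : CertX :=
  ⟨[k12,k13,k15,k20,k13,k22],[(false,k0,[k0,k1,k2,k3,k4,k5])],[[[([z1,z0,z0,z0,z0,z1],z2)],[([z1,z1,z1,z0,z1,z0],z2)],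
    []]],
    [.old (.leafM k1 [k3,k4,k1,k2] [] [(k5,k0,z1,[z1]),(k0,k5,z1,[z1])]),
    .old (.lp [k38,k86,k58,k134,k58,k96] [k48,k48,k24,k24,k38,k38,k0,k0,k38,k38,k19,k19] k0 [[],[],[],[],[k0,k0,k0,k0,k0,
    k0,k0,k0,k0,k10],[],[],[],[k0,k0,k0,k0,k0,k10]] (nat_lit 240) k6
    [[(k9,k48),(k10,k67)],[(k5,k48),(k11,k67)],[(k8,k72),(k2,k86)],[(k4,k72),(k3,k86)],[(k0,k48),(k7,k96)],[(k8,k48),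
    (k2,k72)],[(k5,k96),(k11,k125)],[(k9,k96),(k10,k115)],[(k1,k48),(k6,k96)],[(k4,k48),(k3,k72)],[(k0,k67),(k7,
    k125)],[(k1,k67),(k6,k115)]]
    [] k0
    [[k1,k0,k1,k0,k1,k0],[k1,k0,k0,k0,k0,k1],[k0,k2,k0,k0,k0,k0]]
    [.contra [y1,z1],.ref k0 k0 [(z1,[z1])],.contra [z1]]),
    .old (.lp [k4,k4,k6,k4,k2,k2] [k1,k1,k1,k1,k0,k0,k1,k1,k2,k2,k2,k2] k0 [] k12 k5
    [[(k9,k3),(k10,k3)],[(k11,k3),(k5,k5)],[(k8,k3),(k2,k4)],[(k3,k4),(k4,k5)],[(k0,k5),(k7,k5)],[(k8,k4),(k2,k5)],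
    [(k11,k3),(k5,k5)],[(k9,k3),(k10,k3)],[(k1,k3),(k6,k3)],[(k3,k3),(k4,k4)],[(k0,k3),(k7,k3)],[(k1,k3),(k6,k3)]]
    [] k0
    [[k1,k0,k0,k0,k0,k1],[k0,k2,k0,k0,k0,k0],[k0,k0,k0,k1,k0,k1]]
    [.ref k0 k0 [(z1,[z1])],.contra [z1],.ref k1 k0 [(z1,[y1,z1])]])]⟩

/-- classes `0 0 0 1 0 1`, types `N0 N1 N3 C0 N2 C0` -/
noncomputable def cU6_432 : CertX :=
  ⟨[k12,k13,k15,k20,k14,k20],[(false,k0,[k0,k1,k2,k3,k4,k5])],[[[([z1,z1,z1,z0,z0,z1],z2)],[]]],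
    [.old (.lp [k38,k86,k58,k172,k58,k58] [k67,k67,k43,k43,k57,k57,k0,k0,k57,k57,k57,k57] k0 [[],[],[],[],[k0,k0,k0,k0,k0,
    k0,k0,k0,k10],[],[],[],[],[k0,k0,k0,k0,k0,k10]] (nat_lit 240) k6
    [[(k10,k48),(k6,k105)],[(k5,k48),(k8,k48)],[(k11,k72),(k2,k86)],[(k4,k72),(k3,k86)],[(k0,k48),(k7,k115)],[(k11,
    k48),(k2,k72)],[(k5,k115),(k8,k125)],[(k1,k105),(k9,k115)],[(k10,k58),(k6,k115)],[(k0,k48),(k7,k125)],[(k4,k48),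
    (k3,k72)],[(k1,k48),(k9,k58)]]
    [] k0
    [[k1,k0,k1,k0,k0,k1],[k0,k2,k0,k0,k0,k0]]
    [.contra [y1,z1],.contra [z1]]),
    .old (.lp [k10,k8,k4,k10,k2,k10] [k0,k0,k1,k1,k3,k3,k0,k0,k4,k4,k0,k0] k0 [] k24 k5
    [[(k6,k10),(k10,k10)],[(k8,k6),(k5,k7)],[(k2,k8),(k11,k9)],[(k4,k6),(k3,k8)],[(k0,k7),(k7,k7)],[(k2,k6),(k11,k7)],
    [(k8,k6),(k5,k7)],[(k9,k6),(k1,k10)],[(k6,k6),(k10,k6)],[(k0,k6),(k7,k6)],[(k4,k7),(k3,k9)],[(k9,k6),(k1,k10)]]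
    [] k0
    [[k0,k2,k0,k0,k0,k0],[k0,k0,k0,k1,k1,k0]]
    [.contra [z1],.ref k0 k0 [(z1,[y1,z1])]])]⟩

/-- classes `0 0 0 1 0 1`, types `N0 N1 N3 C0 N2 C2` -/
noncomputable def cU6_433 : CertX :=
  ⟨[k12,k13,k15,k20,k14,k22],[(false,k0,[k0,k1,k2,k3,k4,k5])],[[[([z1,z0,z0,z0,z1,z0],z2)],[([z1,z1,z1,z0,z0,z1],z2)],
    []]],
    [.old (.leafM k3 [k1,k2,k3,k5] [] [(k4,k0,z1,[z1]),(k0,k4,z1,[z1])]),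
    .old (.lp [k38,k86,k58,k148,k82,k58] [k55,k55,k31,k31,k45,k45,k0,k0,k33,k33,k45,k45] k0 [[],[],[],[],[k0,k0,k0,k0,k0,
    k0,k0,k0,k10],[],[],[],[],[k0,k0,k0,k0,k0,k10]] (nat_lit 240) k6
    [[(k10,k48),(k9,k60)],[(k5,k48),(k8,k60)],[(k11,k72),(k2,k86)],[(k4,k72),(k3,k86)],[(k0,k48),(k7,k103)],[(k11,
    k48),(k2,k72)],[(k5,k103),(k8,k125)],[(k10,k103),(k9,k115)],[(k1,k60),(k6,k115)],[(k0,k60),(k7,k125)],[(k4,k48),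
    (k3,k72)],[(k1,k48),(k6,k103)]]
    [] k0
    [[k1,k0,k0,k0,k1,k0],[k1,k0,k1,k0,k0,k1],[k0,k2,k0,k0,k0,k0]]
    [.ref k0 k0 [(z1,[z1])],.contra [y1,z1],.contra [z1]]),
    .old (.lp [k6,k4,k2,k6,k0,k4] [k0,k0,k1,k1,k2,k2,k0,k0,k3,k3,k1,k1] k0 [] k12 k5
    [[(k9,k3),(k10,k5)],[(k8,k3),(k5,k4)],[(k2,k4),(k11,k4)],[(k4,k3),(k3,k4)],[(k0,k4),(k7,k4)],[(k2,k3),(k11,k3)],
    [(k8,k3),(k5,k4)],[(k9,k3),(k10,k5)],[(k1,k3),(k6,k3)],[(k0,k3),(k7,k3)],[(k4,k3),(k3,k4)],[(k1,k5),(k6,k5)]]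
    [] k0
    [[k1,k0,k0,k0,k1,k0],[k0,k2,k0,k0,k0,k0],[k0,k0,k0,k1,k1,k0]]
    [.ref k0 k0 [(z1,[z1])],.contra [z1],.ref k1 k0 [(z1,[y1,z1])]])]⟩

/-- classes `0 0 0 1 0 1`, types `N0 N1 N3 N0 N1 N1` -/
noncomputable def cU6_434 : CertX :=
  ⟨[k12,k13,k15,k28,k13,k29],[],[[[]]],
    [.old (.lp [k2,k4,k2,k2,k2,k2] [k1,k1,k0,k0,k1,k1,k1,k1,k1,k1,k1,k1] k0 [] k8 k5
    [[(k6,k2)],[(k5,k2),(k11,k2)],[(k8,k3),(k2,k4)],[(k4,k3),(k3,k4)],[(k0,k2),(k7,k2)],[(k8,k2),(k2,k3)],[(k5,k2),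
    (k11,k2)],[(k1,k2)],[(k10,k2)],[(k4,k2),(k3,k3)],[(k0,k2),(k7,k2)],[(k9,k2)]]
    [] k0
    []
    [])]⟩

/-- classes `0 0 0 1 0 1`, types `N0 N1 N3 N0 N1 N2` -/
noncomputable def cU6_435 : CertX :=
  ⟨[k12,k13,k15,k28,k13,k30],[(false,k0,[k0,k1,k2,k3,k4,k5])],[[[([z1,z1,z1,z0,z1,z0],z2)],[]]],
    [.old (.lp [k44,k80,k64,k32,k52,k198] [k77,k77,k59,k59,k67,k67,k83,k83,k73,k73,k0,k0] k0 [[],[],[],[],[k0,k0,k0,k0,k0,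
    k0,k0,k0,k0,k10],[],[],[],[k0,k0,k0,k0,k0,k10]] (nat_lit 240) k6
    [[(k9,k48)],[(k5,k54),(k11,k121)],[(k8,k66),(k2,k80)],[(k4,k72),(k3,k80)],[(k7,k48),(k0,k54)],[(k8,k48),(k2,k72)],
    [(k5,k48),(k11,k125)],[(k10,k115)],[(k1,k48)],[(k4,k48),(k3,k66)],[(k0,k121),(k7,k125)],[(k6,k115)]]
    [] k0
    [[k1,k0,k1,k0,k1,k0],[k0,k2,k0,k0,k0,k0]]
    [.contra [y1,z1],.contra [z1]]),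
    .old (.lp [k4,k4,k6,k0,k2,k6] [k1,k1,k1,k1,k0,k0,k3,k3,k2,k2,k0,k0] k0 [] k12 k5
    [[(k9,k3)],[(k5,k5),(k11,k5)],[(k8,k3),(k2,k4)],[(k3,k4),(k4,k5)],[(k7,k3),(k0,k5)],[(k8,k4),(k2,k5)],[(k5,k3),
    (k11,k3)],[(k10,k3)],[(k1,k3)],[(k3,k3),(k4,k4)],[(k7,k3),(k0,k5)],[(k6,k3)]]
    [] k0
    [[k0,k2,k0,k0,k0,k0],[k0,k0,k0,k1,k0,k1]]
    [.contra [z1],.ref k0 k0 [(z1,[y1,z1])]])]⟩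

/-- classes `0 0 0 1 0 1`, types `N0 N1 N3 N0 N2 N1` -/
noncomputable def cU6_436 : CertX :=
  ⟨[k12,k13,k15,k28,k14,k29],[],[[[]]],
    [.old (.lp [k2,k4,k2,k2,k2,k2] [k1,k1,k0,k0,k1,k1,k1,k1,k1,k1,k1,k1] k0 [] k8 k5
    [[(k6,k2)],[(k5,k2),(k8,k2)],[(k11,k3),(k2,k4)],[(k4,k3),(k3,k4)],[(k0,k2),(k7,k2)],[(k11,k2),(k2,k3)],[(k5,k2),
    (k8,k2)],[(k1,k2)],[(k10,k2)],[(k0,k2),(k7,k2)],[(k4,k2),(k3,k3)],[(k9,k2)]]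
    [] k0
    []
    [])]⟩

/-- classes `0 0 0 1 0 1`, types `N0 N1 N3 N0 N2 N2` -/
noncomputable def cU6_437 : CertX :=
  ⟨[k12,k13,k15,k28,k14,k30],[(false,k0,[k0,k1,k2,k3,k4,k5])],[[[([z1,z0,z0,z0,z1,z0],z2)],[]]],
    [.old (.leafM k3 [k1,k2,k3,k5] [] [(k4,k0,z1,[z1]),(k0,k4,z1,[z1])]),
    .old (.lp [k4,k6,k4,k4,k2,k2] [k1,k1,k0,k0,k1,k1,k1,k1,k2,k2,k2,k2] k0 [[],[],[k0,k0,k0,k0,k0,k2],[],[k0,k0,k0,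
    k2]] k12 k5
    [[(k9,k3)],[(k8,k3),(k5,k4)],[(k11,k4),(k2,k6)],[(k4,k3),(k3,k6)],[(k0,k4),(k7,k6)],[(k2,k3),(k11,k3)],[(k8,k3),
    (k5,k6)],[(k10,k3)],[(k1,k3)],[(k0,k3),(k7,k3)],[(k4,k3),(k3,k4)],[(k6,k3)]]
    [] k0
    [[k1,k0,k0,k0,k1,k0]]
    [.ref k0 k0 [(z1,[z1])]])]⟩

/-- classes `0 0 0 1 0 1`, types `N0 N1 N3 S0 N1 S0` -/
noncomputable def cU6_438 : CertX :=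
  ⟨[k12,k13,k15,k16,k13,k16],[(false,k0,[k0,k1,k2,k3,k4,k5])],[[[([z1,z0,z0,z0,z0,z1],z2)],[([z1,z1,z1,z0,z1,z0],z2)],
    []]],
    [.old (.leafM k1 [k3,k4,k1,k2] [] [(k5,k0,z1,[z1]),(k0,k5,z1,[z1])]),
    .old (.lp [(nat_lit 6900),(nat_lit 10120),(nat_lit 5280),(nat_lit 18216),(nat_lit 6900),
    (nat_lit 12144)] [(nat_lit 5658),(nat_lit 5658),(nat_lit 4048),(nat_lit 4048),(nat_lit 6468),(nat_lit 6468),k0,k0,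
    (nat_lit 5658),(nat_lit 5658),(nat_lit 3036),(nat_lit 3036)] k0 [[k0,k0,k0,k0,k0,k0,k0,k0,(nat_lit 1265)],[],[],
    [],[],[],[],[],[],[k0,(nat_lit 1265)]] (nat_lit 30360) k6
    [[(k1,(nat_lit 6900)),(k9,(nat_lit 6900)),(k10,(nat_lit 9522)),(k6,(nat_lit 12558))],[(k5,(nat_lit 6090)),(k11,
    (nat_lit 8257))],[(k8,(nat_lit 9775)),(k2,(nat_lit 10120))],[(k4,(nat_lit 7700)),(k3,(nat_lit 10120))],[(k0,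
    (nat_lit 6090)),(k7,(nat_lit 11748))],[(k8,(nat_lit 6090)),(k2,(nat_lit 7700))],[(k5,(nat_lit 11748)),(k11,
    (nat_lit 15180))],[(k1,(nat_lit 12558)),(k9,(nat_lit 12558)),(k10,(nat_lit 15180)),(k6,(nat_lit 18216))],[(k1,
    (nat_lit 6900)),(k9,(nat_lit 6900)),(k10,(nat_lit 9522)),(k6,(nat_lit 12558))],[(k4,(nat_lit 6090)),(k3,
    (nat_lit 9775))],[(k0,(nat_lit 8257)),(k7,(nat_lit 15180))],[(k1,(nat_lit 9522)),(k9,(nat_lit 9522)),(k10,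
    (nat_lit 12144)),(k6,(nat_lit 15180))]]
    [] k0
    [[k1,k0,k1,k0,k1,k0],[k1,k0,k0,k0,k0,k1],[k0,k2,k0,k0,k0,k0]]
    [.contra [y1,z1],.ref k0 k0 [(z1,[z1])],.contra [z1]]),
    .old (.lp [k6,k8,k6,k6,k12,k6] [k3,k3,k2,k2,k3,k3,k3,k3,k0,k0,k3,k3] k0 [] k24 k5
    [[(k1,k6),(k6,k6),(k10,k6),(k9,k9)],[(k5,k6),(k11,k6)],[(k2,k8),(k8,k10)],[(k4,k7),(k3,k8)],[(k0,k6),(k7,k6)],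
    [(k2,k7),(k8,k9)],[(k5,k6),(k11,k6)],[(k1,k6),(k6,k6),(k10,k6),(k9,k9)],[(k1,k9),(k6,k9),(k10,k9),(k9,k12)],[(k4,
    k9),(k3,k10)],[(k0,k6),(k7,k6)],[(k1,k6),(k6,k6),(k10,k6),(k9,k9)]]
    [] k0
    [[k1,k0,k0,k0,k0,k1],[k0,k2,k0,k0,k0,k0],[k0,k0,k0,k1,k0,k1]]
    [.ref k0 k0 [(z1,[z1])],.contra [z1],.ref k1 k0 [(z1,[y1,z1])]])]⟩

/-- classes `0 0 0 1 0 1`, types `N0 N1 N3 S0 N2 S0` -/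
noncomputable def cU6_439 : CertX :=
  ⟨[k12,k13,k15,k16,k14,k16],[(false,k0,[k0,k1,k2,k3,k4,k5])],[[[([z1,z0,z0,z0,z1,z0],z2)],[([z1,z1,z1,z0,z0,z1],z2)],
    []]],
    [.old (.leafM k3 [k1,k2,k3,k5] [] [(k4,k0,z1,[z1]),(k0,k4,z1,[z1])]),
    .old (.lp [(nat_lit 26220),(nat_lit 38456),(nat_lit 20064),(nat_lit 78936),(nat_lit 36432),
    (nat_lit 26220)] [(nat_lit 26358),(nat_lit 26358),(nat_lit 20240),(nat_lit 20240),(nat_lit 29436),(nat_lit 29436),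
    k0,k0,(nat_lit 21252),(nat_lit 21252),(nat_lit 26358),(nat_lit 26358)] k0 [[k0,k0,k0,k0,k0,k0,k0,k0,k0,
    (nat_lit 4807)],[],[],[],[],[],[],[],[k0,(nat_lit 4807)]] (nat_lit 115368) k6
    [[(k1,(nat_lit 26220)),(k10,(nat_lit 26220)),(k9,(nat_lit 31326)),(k6,(nat_lit 52578))],[(k5,(nat_lit 23142)),(k8,
    (nat_lit 26519))],[(k11,(nat_lit 37145)),(k2,(nat_lit 38456))],[(k4,(nat_lit 29260)),(k3,(nat_lit 38456))],[(k0,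
    (nat_lit 23142)),(k7,(nat_lit 49500))],[(k11,(nat_lit 23142)),(k2,(nat_lit 29260))],[(k5,(nat_lit 49500)),(k8,
    (nat_lit 57684))],[(k1,(nat_lit 52578)),(k10,(nat_lit 52578)),(k9,(nat_lit 57684)),(k6,(nat_lit 78936))],[(k1,
    (nat_lit 31326)),(k10,(nat_lit 31326)),(k9,(nat_lit 36432)),(k6,(nat_lit 57684))],[(k0,(nat_lit 26519)),(k7,
    (nat_lit 57684))],[(k4,(nat_lit 23142)),(k3,(nat_lit 37145))],[(k1,(nat_lit 26220)),(k10,(nat_lit 26220)),(k9,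
    (nat_lit 31326)),(k6,(nat_lit 52578))]]
    [] k0
    [[k1,k0,k0,k0,k1,k0],[k1,k0,k1,k0,k0,k1],[k0,k2,k0,k0,k0,k0]]
    [.ref k0 k0 [(z1,[z1])],.contra [y1,z1],.contra [z1]]),
    .old (.lp [k6,k8,k6,k6,k6,k12] [k3,k3,k2,k2,k3,k3,k3,k3,k3,k3,k0,k0] k0 [] k24 k5
    [[(k1,k6),(k6,k6),(k9,k6),(k10,k9)],[(k5,k6),(k8,k6)],[(k2,k8),(k11,k10)],[(k4,k7),(k3,k8)],[(k0,k6),(k7,k6)],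
    [(k2,k7),(k11,k9)],[(k5,k6),(k8,k6)],[(k1,k6),(k6,k6),(k9,k6),(k10,k9)],[(k1,k6),(k6,k6),(k9,k6),(k10,k9)],[(k0,
    k6),(k7,k6)],[(k4,k9),(k3,k10)],[(k1,k9),(k6,k9),(k9,k9),(k10,k12)]]
    [] k0
    [[k1,k0,k0,k0,k1,k0],[k0,k2,k0,k0,k0,k0],[k0,k0,k0,k1,k1,k0]]
    [.ref k0 k0 [(z1,[z1])],.contra [z1],.ref k1 k0 [(z1,[y1,z1])]])]⟩

/-- classes `0 0 0 1 0 1`, types `N0 N2 N0 B0 N1 B1` -/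
noncomputable def cU6_440 : CertX :=
  ⟨[k12,k14,k12,k24,k13,k25],[(false,k0,[k0,k1,k2,k3,k4,k5])],[[[([z1,z0,z0,z1,z1,z1],z2),([z0,z1,z0,y1,z0,y1],z0)],
    [([z1,z0,z0,z1,z1,z1],z2)],[]]],
    [.old (.tor k1 false k4 [(z1,[z1,z1]),(z1,[z1]),(z1,[y1,z0,z1]),(z1,[y1,y1,z1])]),
    .old (.lp [k6,k16,k6,k6,k6,k6] [k5,k5,k0,k0,k5,k5,k5,k5,k5,k5,k5,k5] k0 [[k0,k0,k0,k2],[],[k0,k2]] k24 k5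
    [[(k6,k6),(k9,k6)],[(k11,k6),(k2,k9)],[(k8,k11),(k5,k13)],[(k0,k9),(k4,k11)],[(k7,k6),(k3,k13)],[(k11,k6),(k2,
    k11)],[(k5,k6),(k8,k6)],[(k1,k6),(k10,k6)],[(k1,k6),(k10,k6)],[(k7,k6),(k3,k11)],[(k0,k6),(k4,k6)],[(k6,k6),(k9,
    k6)]]
    [] k0
    [[k0,k0,k1,k1,k0,k1]]
    [.ref k0 k0 [(z1,[z0,z1]),(z1,[y1,y1,z1])]]),
    .old (.lp [k4,k4,k2,k4,k2,k6] [k1,k1,k1,k1,k2,k2,k1,k1,k2,k2,k0,k0] k0 [[k0,k0,k0,k0,k0,k0,k0,k0,k2],[],[],[],[],[],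
    [],[],[],[k0,k2]] k12 k5
    [[(k9,k3),(k6,k4)],[(k11,k3),(k2,k4)],[(k5,k3),(k8,k5)],[(k4,k3),(k0,k4)],[(k3,k3),(k7,k3)],[(k2,k3),(k11,k4)],
    [(k5,k3),(k8,k3)],[(k1,k4),(k10,k5)],[(k1,k3),(k10,k4)],[(k7,k3),(k3,k5)],[(k0,k3),(k4,k4)],[(k9,k4),(k6,k5)]]
    [] k0
    [[k0,k1,k1,k0,k0,k0]]
    [.ref k1 k0 [(z1,[y1,z1])]])]⟩

/-- classes `0 0 0 1 0 1`, types `N0 N2 N0 B0 N2 B1` -/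
noncomputable def cU6_441 : CertX :=
  ⟨[k12,k14,k12,k24,k14,k25],[(false,k0,[k0,k1,k2,k3,k4,k5]),(true,k3,[k3,k2,k1,k0,k5,k4])],[[[([z1,z0,z0,z0,z1,z0],
    z2)],[]]],
    [.old (.leafM k3 [k1,k2,k3,k5] [] [(k4,k0,z1,[z1]),(k0,k4,z1,[z1])]),
    .old (.lp [k6,k4,k6,k0,k0,k6] [k0,k0,k1,k1,k0,k0,k3,k3,k3,k3,k0,k0] k0 [[k0,k0,k0,k2],[],[k0,k2]] k12 k5
    [[(k6,k3),(k9,k3)],[(k2,k3),(k8,k3)],[(k11,k5),(k5,k7)],[(k0,k3),(k4,k5)],[(k7,k3),(k3,k7)],[(k8,k3),(k2,k5)],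
    [(k5,k3),(k11,k3)],[(k1,k3),(k10,k3)],[(k1,k3),(k10,k3)],[(k0,k3),(k4,k3)],[(k7,k3),(k3,k5)],[(k6,k3),(k9,k3)]]
    [] k0
    [[k1,k0,k0,k0,k1,k0],[k0,k0,k0,k1,k0,k1]]
    [.ref k0 k0 [(z1,[z1])],.ref k0 k1 [(z1,[z1])]])]⟩

/-- classes `0 0 0 1 0 1`, types `N0 N2 N0 C0 N1 C0` -/
noncomputable def cU6_442 : CertX :=
  ⟨[k12,k14,k12,k20,k13,k20],[(false,k0,[k0,k1,k2,k3,k4,k5]),(true,k3,[k3,k2,k1,k0,k5,k4])],[[[([z1,z0,z0,z0,z0,z1],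
    z2)],[]]],
    [.old (.leafM k1 [k3,k4,k1,k2] [] [(k5,k0,z1,[z1]),(k0,k5,z1,[z1])]),
    .old (.lp [k0,k10,k0,k6,k0,k6] [k5,k5,k0,k0,k5,k5,k2,k2,k5,k5,k2,k2] k0 [[k0,k0,k0,k2],[],[k0,k2]] k12 k5
    [[(k6,k3),(k10,k3)],[(k2,k3),(k11,k3)],[(k8,k5),(k5,k7)],[(k0,k3),(k4,k5)],[(k7,k3),(k3,k7)],[(k11,k3),(k2,k5)],
    [(k5,k3),(k8,k3)],[(k1,k3),(k9,k3)],[(k6,k3),(k10,k3)],[(k7,k3),(k3,k5)],[(k0,k3),(k4,k3)],[(k1,k3),(k9,k3)]]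
    [] k0
    [[k1,k0,k0,k0,k0,k1],[k0,k0,k0,k1,k1,k0]]
    [.ref k0 k0 [(z1,[z1])],.ref k0 k1 [(z1,[z1])]])]⟩

/-- classes `0 0 0 1 0 1`, types `N0 N2 N0 C0 N1 C2` -/
noncomputable def cU6_443 : CertX :=
  ⟨[k12,k14,k12,k20,k13,k22],[(false,k0,[k0,k1,k2,k3,k4,k5]),(true,k3,[k3,k2,k1,k0,k5,k4])],[[[([z1,z0,z0,z0,z0,z1],
    z2)],[([z1,z0,z0,z1,z1,z1],z2),([z0,z1,z0,y1,z0,y1],z0)],[([z1,z1,z0,z0,z1,z0],z2)],[]]],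
    [.old (.leafM k1 [k3,k4,k1,k2] [] [(k5,k0,z1,[z1]),(k0,k5,z1,[z1])]),
    .old (.tor k1 false k4 [(z1,[z1,z1]),(z1,[z1]),(z1,[y1,z0,z1]),(z1,[y1,y1,z1])]),
    .old (.lp [k4,k6,k4,k4,k2,k2] [k1,k1,k0,k0,k1,k1,k1,k1,k2,k2,k2,k2] k0 [[],[],[k0,k0,k0,k0,k0,k2],[],[k0,k0,k0,
    k2]] k12 k5
    [[(k9,k3),(k10,k3)],[(k11,k3),(k2,k5)],[(k8,k4),(k5,k5)],[(k4,k3),(k0,k5)],[(k3,k5),(k7,k6)],[(k2,k3),(k11,k3)],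
    [(k8,k3),(k5,k6)],[(k9,k3),(k10,k3)],[(k1,k3),(k6,k3)],[(k7,k3),(k3,k4)],[(k0,k3),(k4,k3)],[(k1,k3),(k6,k3)]]
    [] k0
    [[k1,k0,k0,k0,k0,k1],[k0,k1,k1,k0,k0,k0],[k0,k0,k0,k1,k1,k0]]
    [.ref k0 k0 [(z1,[z1])],.ref k1 k0 [(z1,[y1,z0,z1]),(z1,[z1,z1,y1])],.ref k0 k1 [(z1,[z1])]]),
    .old (.lp [k10,k10,k12,k10,k2,k2] [k1,k1,k1,k1,k0,k0,k1,k1,k5,k5,k5,k5] k0 [[k0,k0,k0,k2],[],[k0,k2]] k24 k5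
    [[(k9,k6),(k10,k6)],[(k11,k6),(k2,k8)],[(k8,k6),(k5,k13)],[(k0,k8),(k4,k11)],[(k7,k11),(k3,k13)],[(k11,k7),(k2,
    k11)],[(k8,k6),(k5,k11)],[(k9,k6),(k10,k6)],[(k1,k6),(k6,k6)],[(k3,k6),(k7,k6)],[(k0,k6),(k4,k7)],[(k1,k6),(k6,
    k6)]]
    [] k0
    [[k1,k1,k0,k0,k1,k0],[k1,k0,k0,k0,k0,k1],[k0,k0,k0,k1,k1,k0]]
    [.ref k2 k0 [(z1,[z1])],.ref k0 k0 [(z1,[z1])],.ref k0 k1 [(z1,[z1])]])]⟩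

/-- classes `0 0 0 1 0 1`, types `N0 N2 N0 C0 N2 C0` -/
noncomputable def cU6_444 : CertX :=
  ⟨[k12,k14,k12,k20,k14,k20],[(false,k0,[k0,k1,k2,k3,k4,k5])],[[[([z1,z0,z0,z1,z1,z1],z2),([z0,z1,z0,y1,y1,z0],z0)],
    [([z1,z1,z0,z0,z0,z1],z2)],[]]],
    [.old (.tor k9 false k0 [(z1,[y1,y1,z1]),(z1,[y1,z0,z1]),(z1,[z1]),(z1,[z1,z1])]),
    .old (.lp [k6,k12,k8,k6,k6,k6] [k3,k3,k0,k0,k2,k2,k3,k3,k3,k3,k3,k3] k0 [[],[],[k0,k0,k0,k0,k0,k4],[],[k0,k0,k0,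
    k4]] k24 k5
    [[(k6,k6),(k10,k6)],[(k8,k6),(k2,k9)],[(k11,k9),(k5,k10)],[(k4,k6),(k0,k9)],[(k3,k10),(k7,k11)],[(k2,k6),(k8,k7)],
    [(k11,k6),(k5,k11)],[(k1,k6),(k9,k6)],[(k6,k6),(k10,k6)],[(k0,k6),(k4,k7)],[(k7,k6),(k3,k9)],[(k1,k6),(k9,k6)]]
    [] k0
    [[k0,k1,k1,k0,k0,k0]]
    [.ref k0 k0 [(z1,[y1,z0,z1]),(z1,[z1,z1,y1])]]),
    .old (.lp [k6,k16,k6,k6,k6,k6] [k5,k5,k0,k0,k5,k5,k5,k5,k5,k5,k5,k5] k0 [[k0,k0,k0,k2],[],[k0,k2]] k24 k5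
    [[(k6,k6),(k10,k6)],[(k8,k6),(k2,k9)],[(k11,k11),(k5,k13)],[(k0,k9),(k4,k11)],[(k7,k6),(k3,k13)],[(k8,k6),(k2,
    k11)],[(k5,k6),(k11,k6)],[(k1,k6),(k9,k6)],[(k6,k6),(k10,k6)],[(k0,k6),(k4,k6)],[(k7,k6),(k3,k11)],[(k1,k6),(k9,
    k6)]]
    [] k0
    [[k0,k0,k1,k1,k1,k0]]
    [.ref k1 k0 [(z1,[y1,z1])]])]⟩

/-- classes `0 0 0 1 0 1`, types `N0 N2 N0 C0 N2 C2` -/
noncomputable def cU6_445 : CertX :=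
  ⟨[k12,k14,k12,k20,k14,k22],[(false,k0,[k0,k1,k2,k3,k4,k5]),(true,k3,[k3,k2,k1,k0,k5,k4])],[[[([z1,z0,z0,z0,z1,z0],
    z2)],[([z1,z0,z0,z1,z1,z1],z2),([z0,z1,z0,y1,y1,z0],z0)],[([z1,z1,z0,z0,z0,z1],z2)],[]]],
    [.old (.leafM k3 [k1,k2,k3,k5] [] [(k4,k0,z1,[z1]),(k0,k4,z1,[z1])]),
    .old (.tor k9 false k0 [(z1,[y1,y1,z1]),(z1,[y1,z0,z1]),(z1,[z1]),(z1,[z1,z1])]),
    .old (.lp [k4,k6,k4,k4,k2,k2] [k1,k1,k0,k0,k1,k1,k1,k1,k2,k2,k2,k2] k0 [[],[],[k0,k0,k0,k0,k0,k2],[],[k0,k0,k0,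
    k2]] k12 k5
    [[(k9,k3),(k10,k3)],[(k8,k3),(k2,k5)],[(k11,k4),(k5,k5)],[(k4,k3),(k0,k5)],[(k3,k5),(k7,k6)],[(k2,k3),(k8,k3)],
    [(k11,k3),(k5,k6)],[(k9,k3),(k10,k3)],[(k1,k3),(k6,k3)],[(k0,k3),(k4,k3)],[(k7,k3),(k3,k4)],[(k1,k3),(k6,k3)]]
    [] k0
    [[k1,k0,k0,k0,k1,k0],[k0,k1,k1,k0,k0,k0],[k0,k0,k0,k1,k0,k1]]
    [.ref k0 k0 [(z1,[z1])],.ref k1 k0 [(z1,[y1,z0,z1]),(z1,[z1,z1,y1])],.ref k0 k1 [(z1,[z1])]]),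
    .old (.lp [k6,k16,k6,k6,k6,k6] [k5,k5,k0,k0,k5,k5,k5,k5,k5,k5,k5,k5] k0 [[k0,k0,k0,k2],[],[k0,k2]] k24 k5
    [[(k9,k6),(k10,k6)],[(k8,k6),(k2,k9)],[(k11,k11),(k5,k13)],[(k0,k9),(k4,k11)],[(k7,k6),(k3,k13)],[(k8,k6),(k2,
    k11)],[(k5,k6),(k11,k6)],[(k9,k6),(k10,k6)],[(k1,k6),(k6,k6)],[(k0,k6),(k4,k6)],[(k7,k6),(k3,k11)],[(k1,k6),(k6,
    k6)]]
    [] k0
    [[k1,k0,k0,k0,k1,k0],[k0,k0,k1,k1,k1,k0],[k0,k0,k0,k1,k0,k1]]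
    [.ref k0 k0 [(z1,[z1])],.ref k2 k0 [(z1,[y1,z1])],.ref k0 k1 [(z1,[z1])]])]⟩

/-- classes `0 0 0 1 0 1`, types `N0 N2 N0 N0 N1 N1` -/
noncomputable def cU6_446 : CertX :=
  ⟨[k12,k14,k12,k28,k13,k29],[],[[[]]],
    [.old (.lp [k0,k10,k0,k6,k0,k6] [k5,k5,k0,k0,k5,k5,k2,k2,k5,k5,k2,k2] k0 [[k0,k0,k0,k2],[],[k0,k2]] k12 k5
    [[(k6,k3)],[(k2,k3),(k11,k3)],[(k8,k5),(k5,k7)],[(k0,k3),(k4,k5)],[(k7,k3),(k3,k7)],[(k11,k3),(k2,k5)],[(k5,k3),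
    (k8,k3)],[(k1,k3)],[(k10,k3)],[(k7,k3),(k3,k5)],[(k0,k3),(k4,k3)],[(k9,k3)]]
    [] k0
    []
    [])]⟩

/-- classes `0 0 0 1 0 1`, types `N0 N2 N0 N0 N1 N2` -/
noncomputable def cU6_447 : CertX :=
  ⟨[k12,k14,k12,k28,k13,k30],[(false,k0,[k0,k1,k2,k3,k4,k5])],[[[([z1,z0,z0,z1,z1,z1],z2),([z0,z1,z0,y1,z0,y1],z0)],
    [([z1,z1,z0,z0,z1,z0],z2)],[]]],
    [.old (.tor k1 false k4 [(z1,[z1,z1]),(z1,[z1]),(z1,[y1,z0,z1]),(z1,[y1,y1,z1])]),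
    .old (.lp [k4,k6,k4,k4,k2,k2] [k1,k1,k0,k0,k1,k1,k1,k1,k2,k2,k2,k2] k0 [[],[],[k0,k0,k0,k0,k0,k2],[],[k0,k0,k0,
    k2]] k12 k5
    [[(k9,k3)],[(k11,k3),(k2,k5)],[(k8,k4),(k5,k5)],[(k4,k3),(k0,k5)],[(k3,k5),(k7,k6)],[(k2,k3),(k11,k3)],[(k8,k3),
    (k5,k6)],[(k10,k3)],[(k1,k3)],[(k7,k3),(k3,k4)],[(k0,k3),(k4,k3)],[(k6,k3)]]
    [] k0
    [[k0,k1,k1,k0,k0,k0]]
    [.ref k0 k0 [(z1,[y1,z0,z1]),(z1,[z1,z1,y1])]]),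
    .old (.lp [k10,k10,k12,k10,k2,k2] [k1,k1,k1,k1,k0,k0,k1,k1,k5,k5,k5,k5] k0 [[k0,k0,k0,k2],[],[k0,k2]] k24 k5
    [[(k9,k6)],[(k11,k6),(k2,k8)],[(k8,k6),(k5,k13)],[(k0,k8),(k4,k11)],[(k7,k11),(k3,k13)],[(k11,k7),(k2,k11)],[(k8,
    k6),(k5,k11)],[(k10,k6)],[(k1,k6)],[(k3,k6),(k7,k6)],[(k0,k6),(k4,k7)],[(k6,k6)]]
    [] k0
    [[k1,k1,k0,k0,k1,k0]]
    [.ref k1 k0 [(z1,[z1])]])]⟩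

/-- classes `0 0 0 1 0 1`, types `N0 N2 N0 N0 N2 N1` -/
noncomputable def cU6_448 : CertX :=
  ⟨[k12,k14,k12,k28,k14,k29],[],[[[]]],
    [.old (.lp [k6,k4,k6,k0,k0,k6] [k0,k0,k1,k1,k0,k0,k3,k3,k3,k3,k0,k0] k0 [[k0,k0,k0,k2],[],[k0,k2]] k12 k5
    [[(k6,k3)],[(k2,k3),(k8,k3)],[(k11,k5),(k5,k7)],[(k0,k3),(k4,k5)],[(k7,k3),(k3,k7)],[(k8,k3),(k2,k5)],[(k5,k3),
    (k11,k3)],[(k1,k3)],[(k10,k3)],[(k0,k3),(k4,k3)],[(k7,k3),(k3,k5)],[(k9,k3)]]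
    [] k0
    []
    [])]⟩

/-- classes `0 0 0 1 0 1`, types `N0 N2 N0 N0 N2 N2` -/
noncomputable def cU6_449 : CertX :=
  ⟨[k12,k14,k12,k28,k14,k30],[(false,k0,[k0,k1,k2,k3,k4,k5]),(true,k3,[k3,k2,k1,k0,k5,k4])],[[[([z1,z0,z0,z0,z1,z0],
    z2)],[]]],
    [.old (.leafM k3 [k1,k2,k3,k5] [] [(k4,k0,z1,[z1]),(k0,k4,z1,[z1])]),
    .old (.lp [k6,k4,k6,k0,k0,k6] [k0,k0,k1,k1,k0,k0,k3,k3,k3,k3,k0,k0] k0 [[k0,k0,k0,k2],[],[k0,k2]] k12 k5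
    [[(k9,k3)],[(k2,k3),(k8,k3)],[(k11,k5),(k5,k7)],[(k0,k3),(k4,k5)],[(k7,k3),(k3,k7)],[(k8,k3),(k2,k5)],[(k5,k3),
    (k11,k3)],[(k10,k3)],[(k1,k3)],[(k0,k3),(k4,k3)],[(k7,k3),(k3,k5)],[(k6,k3)]]
    [] k0
    [[k1,k0,k0,k0,k1,k0],[k0,k0,k0,k1,k0,k1]]
    [.ref k0 k0 [(z1,[z1])],.ref k0 k1 [(z1,[z1])]])]⟩

/-- classes `0 0 0 1 0 1`, types `N0 N2 N0 S0 N1 S0` -/
noncomputable def cU6_450 : CertX :=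
  ⟨[k12,k14,k12,k16,k13,k16],[(false,k0,[k0,k1,k2,k3,k4,k5]),(true,k3,[k3,k2,k1,k0,k5,k4])],[[[([z1,z0,z0,z0,z0,z1],
    z2)],[([z1,z0,z0,z1,z1,z1],z2),([z0,z1,z0,y1,z0,y1],z0)],[([z1,z0,z0,z1,z1,z1],z2)],[]]],
    [.old (.leafM k1 [k3,k4,k1,k2] [] [(k5,k0,z1,[z1]),(k0,k5,z1,[z1])]),
    .old (.tor k1 false k4 [(z1,[z1,z1]),(z1,[z1]),(z1,[y1,z0,z1]),(z1,[y1,y1,z1])]),
    .old (.lp [k6,k14,k8,k6,k6,k6] [k4,k4,k0,k0,k3,k3,k4,k4,k4,k4,k4,k4] k0 [[k0,k0,k0,k2],[],[k0,k2]] k24 k5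
    [[(k1,k6),(k6,k6),(k9,k6),(k10,k6)],[(k11,k6),(k2,k8)],[(k8,k10),(k5,k13)],[(k0,k8),(k4,k11)],[(k7,k7),(k3,k13)],
    [(k11,k7),(k2,k11)],[(k8,k6),(k5,k7)],[(k1,k6),(k6,k6),(k9,k6),(k10,k6)],[(k1,k6),(k6,k6),(k9,k6),(k10,k6)],[(k7,
    k6),(k3,k10)],[(k0,k6),(k4,k7)],[(k1,k6),(k6,k6),(k9,k6),(k10,k6)]]
    [] k0
    [[k1,k0,k0,k0,k0,k1],[k0,k0,k1,k1,k0,k1],[k0,k0,k0,k1,k1,k0]]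
    [.contra [y1,z1],.ref k1 k0 [(z1,[z0,z1]),(z1,[y1,y1,z1])],.contra [y1,z1]]),
    .old (.lp [k8,k6,k6,k6,k6,k12] [k2,k2,k3,k3,k3,k3,k3,k3,k3,k3,k0,k0] k0 [[k0,k0,k0,k0,k0,k0,k0,k0,k4],[],[],[],[],[],
    [],[],[],[k0,k4]] k24 k5
    [[(k6,k7),(k9,k7),(k1,k8),(k10,k10)],[(k11,k6),(k2,k7)],[(k5,k6),(k8,k10)],[(k4,k6),(k0,k7)],[(k3,k6),(k7,k6)],
    [(k2,k6),(k11,k9)],[(k5,k6),(k8,k6)],[(k6,k6),(k9,k6),(k1,k7),(k10,k9)],[(k6,k6),(k9,k6),(k1,k7),(k10,k9)],[(k7,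
    k6),(k3,k10)],[(k0,k6),(k4,k9)],[(k6,k9),(k9,k9),(k1,k10),(k10,k12)]]
    [] k0
    [[k1,k0,k0,k0,k0,k1],[k0,k1,k1,k0,k0,k0],[k0,k0,k0,k1,k1,k0]]
    [.ref k0 k0 [(z1,[z1])],.ref k2 k0 [(z1,[y1,z1])],.ref k0 k1 [(z1,[z1])]])]⟩

/-- classes `0 0 0 1 0 1`, types `N0 N2 N0 S0 N2 S0` -/
noncomputable def cU6_451 : CertX :=
  ⟨[k12,k14,k12,k16,k14,k16],[(false,k0,[k0,k1,k2,k3,k4,k5]),(true,k3,[k3,k2,k1,k0,k5,k4])],[[[([z1,z0,z0,z0,z1,z0],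
    z2)],[([z1,z0,z0,z1,z1,z1],z2),([z0,z1,z0,y1,y1,z0],z0)],[([z1,z1,z0,z0,z0,z1],z2)],[]]],
    [.old (.leafM k3 [k1,k2,k3,k5] [] [(k4,k0,z1,[z1]),(k0,k4,z1,[z1])]),
    .old (.tor k9 false k0 [(z1,[y1,y1,z1]),(z1,[y1,z0,z1]),(z1,[z1]),(z1,[z1,z1])]),
    .old (.lp [k6,k12,k8,k6,k6,k6] [k3,k3,k0,k0,k2,k2,k3,k3,k3,k3,k3,k3] k0 [[],[],[k0,k0,k0,k0,k0,k4],[],[k0,k0,k0,
    k4]] k24 k5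
    [[(k1,k6),(k6,k6),(k9,k6),(k10,k6)],[(k8,k6),(k2,k9)],[(k11,k9),(k5,k10)],[(k4,k6),(k0,k9)],[(k3,k10),(k7,k11)],
    [(k2,k6),(k8,k7)],[(k11,k6),(k5,k11)],[(k1,k6),(k6,k6),(k9,k6),(k10,k6)],[(k1,k6),(k6,k6),(k9,k6),(k10,k6)],[(k0,
    k6),(k4,k7)],[(k7,k6),(k3,k9)],[(k1,k6),(k6,k6),(k9,k6),(k10,k6)]]
    [] k0
    [[k1,k0,k0,k0,k1,k0],[k0,k1,k1,k0,k0,k0],[k0,k0,k0,k1,k0,k1]]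
    [.ref k0 k0 [(z1,[z1])],.ref k1 k0 [(z1,[y1,z0,z1]),(z1,[z1,z1,y1])],.ref k0 k1 [(z1,[z1])]]),
    .old (.lp [k6,k10,k12,k6,k6,k6] [k3,k3,k1,k1,k0,k0,k3,k3,k3,k3,k3,k3] k0 [[k0,k0,k0,k2],[],[k0,k2]] k24 k5
    [[(k1,k6),(k6,k6),(k9,k6),(k10,k6)],[(k2,k6),(k8,k6)],[(k11,k8),(k5,k13)],[(k0,k6),(k4,k11)],[(k7,k9),(k3,k13)],
    [(k8,k9),(k2,k11)],[(k11,k6),(k5,k9)],[(k1,k6),(k6,k6),(k9,k6),(k10,k6)],[(k1,k6),(k6,k6),(k9,k6),(k10,k6)],[(k0,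
    k6),(k4,k9)],[(k7,k6),(k3,k8)],[(k1,k6),(k6,k6),(k9,k6),(k10,k6)]]
    [] k0
    [[k1,k0,k0,k0,k1,k0],[k1,k1,k0,k0,k0,k1],[k0,k0,k0,k1,k0,k1]]
    [.ref k0 k0 [(z1,[z1])],.ref k2 k0 [(z1,[z1])],.ref k0 k1 [(z1,[z1])]])]⟩

/-- classes `0 0 0 1 0 1`, types `N0 N2 N1 B0 N0 B1` -/
noncomputable def cU6_452 : CertX :=
  ⟨[k12,k14,k13,k24,k12,k25],[(false,k0,[k0,k1,k2,k3,k4,k5])],[[[([z1,z0,z0,z1,z0,z0],z2)],[]]],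
    [.old (.leafM k6 [k2,k4,k5,k1] [] [(k3,k0,z1,[z1]),(k0,k3,z1,[z1])]),
    .old (.lp [k2,k2,k2,k2,k2,k2] [k0,k0,k0,k0,k0,k0,k0,k0,k0,k0,k0,k0] k0 [] k8 k5
    [[(k6,k2),(k9,k2)],[(k2,k2),(k7,k2)],[(k4,k2),(k5,k2)],[(k0,k2),(k8,k2)],[(k3,k2),(k11,k2)],[(k3,k2),(k11,k2)],
    [(k0,k2),(k8,k2)],[(k1,k2),(k10,k2)],[(k1,k2),(k10,k2)],[(k2,k2),(k7,k2)],[(k4,k2),(k5,k2)],[(k6,k2),(k9,k2)]]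
    [] k0
    [[k1,k0,k0,k1,k0,k0]]
    [.ref k0 k0 [(z1,[z1])]])]⟩

/-- classes `0 0 0 1 0 1`, types `N0 N2 N1 B0 N3 B1` -/
noncomputable def cU6_453 : CertX :=
  ⟨[k12,k14,k13,k24,k15,k25],[(false,k0,[k0,k1,k2,k3,k4,k5])],[[[([z1,z1,z1,z0,z1,z0],z2)],[([z1,z0,z0,z1,z0,z0],z2)],
    []]],
    [.old (.leafM k3 [k0,k1,k2,k4] [] [(k3,k5,z1,[y1,z1]),(k5,k3,z1,[y1,z1])]),
    .old (.leafM k5 [k1,k2,k4,k5] [] [(k3,k0,z1,[z1]),(k0,k3,z1,[z1])]),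
    .old (.lp [k2,k0,k2,k0,k0,k2] [k0,k0,k1,k1,k0,k0,k1,k1,k1,k1,k0,k0] k0 [] k4 k5
    [[(k6,k1),(k9,k1)],[(k2,k1),(k7,k1)],[(k4,k1),(k5,k1)],[(k0,k1),(k11,k1)],[(k3,k1),(k8,k1)],[(k3,k1),(k8,k1)],
    [(k0,k1),(k11,k1)],[(k1,k1),(k10,k1)],[(k1,k1),(k10,k1)],[(k4,k1),(k5,k1)],[(k2,k1),(k7,k1)],[(k6,k1),(k9,k1)]]
    [] k0
    [[k1,k0,k0,k1,k0,k0],[k0,k0,k0,k1,k0,k1]]
    [.ref k1 k0 [(z1,[z1])],.ref k0 k0 [(z1,[y1,z1])]])]⟩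

/-- classes `0 0 0 1 0 1`, types `N0 N2 N1 C0 N0 C0` -/
noncomputable def cU6_454 : CertX :=
  ⟨[k12,k14,k13,k20,k12,k20],[(false,k0,[k0,k1,k2,k3,k4,k5])],[[[([z1,z1,z1,z0,z0,z1],z2)],[([z1,z0,z0,z1,z0,z0],z2)],
    []]],
    [.old (.leafM k1 [k2,k5,k0,k1] [] [(k3,k4,z1,[y1,z1]),(k4,k3,z1,[y1,z1])]),
    .old (.leafM k6 [k2,k4,k5,k1] [] [(k3,k0,z1,[z1]),(k0,k3,z1,[z1])]),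
    .old (.lp [k0,k2,k0,k2,k0,k2] [k1,k1,k0,k0,k1,k1,k0,k0,k1,k1,k0,k0] k0 [] k4 k5
    [[(k6,k1),(k10,k1)],[(k2,k1),(k7,k1)],[(k4,k1),(k5,k1)],[(k0,k1),(k8,k1)],[(k3,k1),(k11,k1)],[(k3,k1),(k11,k1)],
    [(k0,k1),(k8,k1)],[(k1,k1),(k9,k1)],[(k6,k1),(k10,k1)],[(k2,k1),(k7,k1)],[(k4,k1),(k5,k1)],[(k1,k1),(k9,k1)]]
    [] k0
    [[k1,k0,k0,k1,k0,k0],[k0,k0,k0,k1,k1,k0]]
    [.ref k1 k0 [(z1,[z1])],.ref k0 k0 [(z1,[y1,z1])]])]⟩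

/-- classes `0 0 0 1 0 1`, types `N0 N2 N1 C0 N0 C2` -/
noncomputable def cU6_455 : CertX :=
  ⟨[k12,k14,k13,k20,k12,k22],[(false,k0,[k0,k1,k2,k3,k4,k5])],[[[([z1,z1,z1,z0,z0,z1],z2)],[]]],
    [.old (.leafM k1 [k2,k5,k0,k1] [] [(k3,k4,z1,[y1,z1]),(k4,k3,z1,[y1,z1])]),
    .old (.lp [k2,k2,k2,k2,k2,k2] [k0,k0,k0,k0,k0,k0,k0,k0,k0,k0,k0,k0] k0 [] k8 k5
    [[(k9,k2),(k10,k2)],[(k2,k2),(k7,k2)],[(k4,k2),(k5,k2)],[(k0,k2),(k8,k2)],[(k3,k2),(k11,k2)],[(k3,k2),(k11,k2)],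
    [(k0,k2),(k8,k2)],[(k9,k2),(k10,k2)],[(k1,k2),(k6,k2)],[(k2,k2),(k7,k2)],[(k4,k2),(k5,k2)],[(k1,k2),(k6,k2)]]
    [] k0
    [[k0,k0,k0,k1,k1,k0]]
    [.ref k0 k0 [(z1,[y1,z1])]])]⟩

/-- classes `0 0 0 1 0 1`, types `N0 N2 N1 C0 N3 C0` -/
noncomputable def cU6_456 : CertX :=
  ⟨[k12,k14,k13,k20,k15,k20],[(false,k0,[k0,k1,k2,k3,k4,k5])],[[[([z1,z0,z0,z1,z0,z0],z2)],[]]],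
    [.old (.leafM k5 [k1,k2,k4,k5] [] [(k3,k0,z1,[z1]),(k0,k3,z1,[z1])]),
    .old (.lp [k2,k2,k2,k2,k2,k2] [k0,k0,k0,k0,k0,k0,k0,k0,k0,k0,k0,k0] k0 [] k8 k5
    [[(k6,k2),(k10,k2)],[(k2,k2),(k7,k2)],[(k4,k2),(k5,k2)],[(k0,k2),(k11,k2)],[(k3,k2),(k8,k2)],[(k3,k2),(k8,k2)],
    [(k0,k2),(k11,k2)],[(k1,k2),(k9,k2)],[(k6,k2),(k10,k2)],[(k4,k2),(k5,k2)],[(k2,k2),(k7,k2)],[(k1,k2),(k9,k2)]]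
    [] k0
    [[k1,k0,k0,k1,k0,k0]]
    [.ref k0 k0 [(z1,[z1])]])]⟩

/-- classes `0 0 0 1 0 1`, types `N0 N2 N1 C0 N3 C2` -/
noncomputable def cU6_457 : CertX :=
  ⟨[k12,k14,k13,k20,k15,k22],[(false,k0,[k0,k1,k2,k3,k4,k5])],[[[([z1,z1,z1,z0,z1,z0],z2)],[]]],
    [.old (.leafM k3 [k0,k1,k2,k4] [] [(k3,k5,z1,[y1,z1]),(k5,k3,z1,[y1,z1])]),
    .old (.lp [k2,k2,k2,k2,k2,k2] [k0,k0,k0,k0,k0,k0,k0,k0,k0,k0,k0,k0] k0 [] k8 k5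
    [[(k9,k2),(k10,k2)],[(k2,k2),(k7,k2)],[(k4,k2),(k5,k2)],[(k0,k2),(k11,k2)],[(k3,k2),(k8,k2)],[(k3,k2),(k8,k2)],
    [(k0,k2),(k11,k2)],[(k9,k2),(k10,k2)],[(k1,k2),(k6,k2)],[(k4,k2),(k5,k2)],[(k2,k2),(k7,k2)],[(k1,k2),(k6,k2)]]
    [] k0
    [[k0,k0,k0,k1,k0,k1]]
    [.ref k0 k0 [(z1,[y1,z1])]])]⟩

/-- classes `0 0 0 1 0 1`, types `N0 N2 N1 N0 N0 N1` -/
noncomputable def cU6_458 : CertX :=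
  ⟨[k12,k14,k13,k28,k12,k29],[(false,k0,[k0,k1,k2,k3,k4,k5])],[[[([z1,z0,z0,z1,z0,z0],z2)],[]]],
    [.old (.leafM k6 [k2,k4,k5,k1] [] [(k3,k0,z1,[z1]),(k0,k3,z1,[z1])]),
    .old (.lp [k0,k2,k0,k2,k0,k2] [k1,k1,k0,k0,k1,k1,k0,k0,k1,k1,k0,k0] k0 [] k4 k5
    [[(k6,k1)],[(k2,k1),(k7,k1)],[(k4,k1),(k5,k1)],[(k0,k1),(k8,k1)],[(k3,k1),(k11,k1)],[(k3,k1),(k11,k1)],[(k0,k1),
    (k8,k1)],[(k1,k1)],[(k10,k1)],[(k2,k1),(k7,k1)],[(k4,k1),(k5,k1)],[(k9,k1)]]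
    [] k0
    [[k1,k0,k0,k1,k0,k0]]
    [.ref k0 k0 [(z1,[z1])]])]⟩

/-- classes `0 0 0 1 0 1`, types `N0 N2 N1 N0 N0 N2` -/
noncomputable def cU6_459 : CertX :=
  ⟨[k12,k14,k13,k28,k12,k30],[],[[[]]],
    [.old (.lp [k2,k2,k2,k2,k2,k2] [k0,k0,k0,k0,k0,k0,k0,k0,k0,k0,k0,k0] k0 [] k8 k5
    [[(k9,k2)],[(k2,k2),(k7,k2)],[(k4,k2),(k5,k2)],[(k0,k2),(k8,k2)],[(k3,k2),(k11,k2)],[(k3,k2),(k11,k2)],[(k0,k2),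
    (k8,k2)],[(k10,k2)],[(k1,k2)],[(k2,k2),(k7,k2)],[(k4,k2),(k5,k2)],[(k6,k2)]]
    [] k0
    []
    [])]⟩

/-- classes `0 0 0 1 0 1`, types `N0 N2 N1 N0 N3 N1` -/
noncomputable def cU6_460 : CertX :=
  ⟨[k12,k14,k13,k28,k15,k29],[(false,k0,[k0,k1,k2,k3,k4,k5])],[[[([z1,z0,z0,z1,z0,z0],z2)],[]]],
    [.old (.leafM k5 [k1,k2,k4,k5] [] [(k3,k0,z1,[z1]),(k0,k3,z1,[z1])]),
    .old (.lp [k2,k0,k2,k0,k0,k2] [k0,k0,k1,k1,k0,k0,k1,k1,k1,k1,k0,k0] k0 [] k4 k5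
    [[(k6,k1)],[(k2,k1),(k7,k1)],[(k4,k1),(k5,k1)],[(k0,k1),(k11,k1)],[(k3,k1),(k8,k1)],[(k3,k1),(k8,k1)],[(k0,k1),
    (k11,k1)],[(k1,k1)],[(k10,k1)],[(k4,k1),(k5,k1)],[(k2,k1),(k7,k1)],[(k9,k1)]]
    [] k0
    [[k1,k0,k0,k1,k0,k0]]
    [.ref k0 k0 [(z1,[z1])]])]⟩

/-- classes `0 0 0 1 0 1`, types `N0 N2 N1 N0 N3 N2` -/
noncomputable def cU6_461 : CertX :=
  ⟨[k12,k14,k13,k28,k15,k30],[(false,k0,[k0,k1,k2,k3,k4,k5])],[[[([z1,z1,z1,z0,z1,z0],z2)],[]]],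
    [.old (.leafM k3 [k0,k1,k2,k4] [] [(k3,k5,z1,[y1,z1]),(k5,k3,z1,[y1,z1])]),
    .old (.lp [k2,k0,k2,k0,k0,k2] [k0,k0,k1,k1,k0,k0,k1,k1,k1,k1,k0,k0] k0 [] k4 k5
    [[(k9,k1)],[(k2,k1),(k7,k1)],[(k4,k1),(k5,k1)],[(k0,k1),(k11,k1)],[(k3,k1),(k8,k1)],[(k3,k1),(k8,k1)],[(k0,k1),
    (k11,k1)],[(k10,k1)],[(k1,k1)],[(k4,k1),(k5,k1)],[(k2,k1),(k7,k1)],[(k6,k1)]]
    [] k0
    [[k0,k0,k0,k1,k0,k1]]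
    [.ref k0 k0 [(z1,[y1,z1])]])]⟩

/-- classes `0 0 0 1 0 1`, types `N0 N2 N1 S0 N0 S0` -/
noncomputable def cU6_462 : CertX :=
  ⟨[k12,k14,k13,k16,k12,k16],[(false,k0,[k0,k1,k2,k3,k4,k5])],[[[([z1,z1,z1,z0,z0,z1],z2)],[([z1,z0,z0,z1,z0,z0],z2)],
    []]],
    [.old (.leafM k1 [k2,k5,k0,k1] [] [(k3,k4,z1,[y1,z1]),(k4,k3,z1,[y1,z1])]),
    .old (.leafM k6 [k2,k4,k5,k1] [] [(k3,k0,z1,[z1]),(k0,k3,z1,[z1])]),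
    .old (.lp [k4,k4,k4,k4,k4,k6] [k1,k1,k1,k1,k1,k1,k1,k1,k1,k1,k0,k0] k0 [] k16 k5
    [[(k1,k4),(k6,k4),(k9,k4),(k10,k5)],[(k2,k4),(k7,k4)],[(k4,k4),(k5,k4)],[(k0,k4),(k8,k4)],[(k3,k4),(k11,k5)],[(k3,
    k4),(k11,k5)],[(k0,k4),(k8,k4)],[(k1,k4),(k6,k4),(k9,k4),(k10,k5)],[(k1,k4),(k6,k4),(k9,k4),(k10,k5)],[(k2,k4),
    (k7,k4)],[(k4,k5),(k5,k5)],[(k1,k5),(k6,k5),(k9,k5),(k10,k6)]]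
    [] k0
    [[k1,k0,k0,k1,k0,k0],[k0,k0,k0,k1,k1,k0]]
    [.ref k1 k0 [(z1,[z1])],.ref k0 k0 [(z1,[y1,z1])]])]⟩

/-- classes `0 0 0 1 0 1`, types `N0 N2 N1 S0 N3 S0` -/
noncomputable def cU6_463 : CertX :=
  ⟨[k12,k14,k13,k16,k15,k16],[(false,k0,[k0,k1,k2,k3,k4,k5])],[[[([z1,z1,z1,z0,z1,z0],z2)],[([z1,z0,z0,z1,z0,z0],z2)],
    []]],
    [.old (.leafM k3 [k0,k1,k2,k4] [] [(k3,k5,z1,[y1,z1]),(k5,k3,z1,[y1,z1])]),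
    .old (.leafM k5 [k1,k2,k4,k5] [] [(k3,k0,z1,[z1]),(k0,k3,z1,[z1])]),
    .old (.lp [k4,k4,k4,k4,k6,k4] [k1,k1,k1,k1,k1,k1,k1,k1,k0,k0,k1,k1] k0 [] k16 k5
    [[(k1,k4),(k6,k4),(k10,k4),(k9,k5)],[(k2,k4),(k7,k4)],[(k4,k4),(k5,k4)],[(k0,k4),(k11,k4)],[(k3,k4),(k8,k5)],[(k3,
    k4),(k8,k5)],[(k0,k4),(k11,k4)],[(k1,k4),(k6,k4),(k10,k4),(k9,k5)],[(k1,k5),(k6,k5),(k10,k5),(k9,k6)],[(k4,k5),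
    (k5,k5)],[(k2,k4),(k7,k4)],[(k1,k4),(k6,k4),(k10,k4),(k9,k5)]]
    [] k0
    [[k1,k0,k0,k1,k0,k0],[k0,k0,k0,k1,k0,k1]]
    [.ref k1 k0 [(z1,[z1])],.ref k0 k0 [(z1,[y1,z1])]])]⟩

/-- classes `0 0 0 1 0 1`, types `S0 S0 S0 B0 S0 B1` -/
noncomputable def cU6_464 : CertX :=
  ⟨[k0,k0,k0,k24,k0,k25],[(false,k0,[k0,k1,k2,k3,k4,k5]),(true,k3,[k3,k2,k1,k0,k5,k4])],[[[([z1,z1,z1,z1,z0,z0],z2)],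
    [([z1,z0,z0,z0,z1,z0],z2)],[([z1,z1,z0,z0,z1,z0],z2)],[([z1,z0,z1,z0,z1,z0],z2)],[([z1,z0,z0,z1,z1,z1],z2)],[([z1,
    z0,z0,z1,z0,z0],z2)],[]]],
    [.old (.leafM k0 [k0,k1,k2,k3] [] [(k4,k5,z1,[y1,z1]),(k5,k4,z1,[y1,z1])]),
    .old (.leafM k1 [k1,k2,k3,k5] [] [(k4,k0,z1,[z1]),(k0,k4,z1,[z1])]),
    .old (.leafM k3 [k3,k4,k5,k0,k1,k2] [(z1,[z1])] []),
    .old (.leafM k5 [k0,k1,k2,k3,k4,k5] [(z1,[y1,z1]),(z1,[z1])] []),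
    .old (.leafM k2 [k0,k3,k4,k5] [] [(k1,k2,z1,[y1,z1]),(k2,k1,z1,[y1,z1])]),
    .old (.leafM k5 [k1,k2,k4,k5] [] [(k3,k0,z1,[z1]),(k0,k3,z1,[z1])]),
    .old (.lp [k16,k16,k16,k16,k18,k12] [k1,k1,k1,k1,k1,k1,k1,k1,k0,k0,k3,k3] k0 [[k0,k0,k0,k0,k0,k0,k0,k0,k2,k2],[],[],
    [],[],[k0,k0,k0,k0,k0,k0,k0,k0,k2,k2],[],[],[k0,k2,k0,k0,k2],[k0,k2,k0,k0,k2]] k48 k5
    [[(k6,k16),(k9,k17)],[(k11,k12),(k8,k15),(k0,k16),(k2,k16),(k3,k16),(k4,k16),(k5,k16),(k7,k16)],[(k0,k16),(k2,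
    k16),(k3,k16),(k4,k16),(k5,k16),(k7,k16),(k11,k16),(k8,k19)],[(k11,k14),(k0,k16),(k2,k16),(k3,k16),(k4,k16),(k5,
    k16),(k7,k16),(k8,k17)],[(k11,k14),(k0,k16),(k2,k16),(k3,k16),(k4,k16),(k5,k16),(k7,k16),(k8,k17)],[(k0,k16),(k2,
    k16),(k3,k16),(k4,k16),(k5,k16),(k7,k16),(k11,k16),(k8,k19)],[(k11,k12),(k8,k15),(k0,k16),(k2,k16),(k3,k16),(k4,
    k16),(k5,k16),(k7,k16)],[(k10,k14),(k1,k16)],[(k10,k15),(k1,k17)],[(k0,k15),(k7,k15),(k11,k15),(k2,k17),(k5,k17),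
    (k8,k18),(k3,k19),(k4,k19)],[(k0,k12),(k7,k12),(k11,k12),(k2,k14),(k5,k14),(k8,k15),(k3,k16),(k4,k16)],[(k6,k14),
    (k9,k15)]]
    [] k0
    [[k1,k0,k0,k1,k0,k0],[k1,k0,k0,k0,k1,k0],[k0,k2,k0,k0,k0,k0],[k0,k1,k1,k0,k0,k0],[k0,k1,k0,k1,k0,k1],[k0,k0,k2,k0,
    k0,k0],[k0,k0,k1,k1,k0,k1],[k0,k0,k0,k1,k0,k1],[k0,k0,k0,k0,k1,k1]]
    [.ref k5 k0 [(z1,[z1])],.ref k1 k0 [(z1,[z1])],.contra [z1],.ref k4 k0 [(z1,[y1,z1])],.ref k3 k0 [(z1,[y1,z1])],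
    .contra [z1],.ref k2 k0 [(z1,[y1,z1])],.ref k1 k1 [(z1,[z1])],.ref k0 k0 [(z1,[y1,z1])]])]⟩

/-- classes `0 0 0 1 0 1`, types `S0 S0 S0 C0 S0 C0` -/
noncomputable def cU6_465 : CertX :=
  ⟨[k0,k0,k0,k20,k0,k20],[(false,k0,[k0,k1,k2,k3,k4,k5]),(true,k3,[k3,k2,k1,k0,k5,k4])],[[[([z1,z1,z1,z1,z0,z0],z2)],
    [([z1,z0,z0,z0,z0,z1],z2)],[([z1,z0,z0,z1,z1,z1],z2)],[([z1,z0,z0,z1,z0,z0],z2)],[([z1,z0,z1,z0,z0,z1],z2)],[([z1,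
    z1,z0,z0,z0,z1],z2)],[]]],
    [.old (.leafM k0 [k0,k1,k2,k3] [] [(k4,k5,z1,[y1,z1]),(k5,k4,z1,[y1,z1])]),
    .old (.leafM k0 [k1,k2,k3,k4] [] [(k5,k0,z1,[z1]),(k0,k5,z1,[z1])]),
    .old (.leafM k0 [k0,k3,k4,k5] [] [(k1,k2,z1,[y1,z1]),(k2,k1,z1,[y1,z1])]),
    .old (.leafM k5 [k1,k2,k4,k5] [] [(k3,k0,z1,[z1]),(k0,k3,z1,[z1])]),
    .old (.leafM k3 [k0,k1,k2,k3,k4,k5] [(z1,[y1,z1])] []),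
    .old (.leafM k0 [k1,k2,k3,k4,k5,k0] [(z1,[y1,z1])] []),
    .old (.lp [k16,k16,k18,k14,k18,k12] [k1,k1,k1,k1,k0,k0,k2,k2,k0,k0,k3,k3] k0 [[k0,k0,k0,k0,k0,k0,k0,k0,k2,k2],[k0,k0,
    k2],[],[k2,k0,k0,k0,k0,k2],[k0,k0,k2],[],[],[],[k0,k2],[k0,k2]] k48 k5
    [[(k10,k14),(k6,k15)],[(k11,k12),(k7,k15),(k8,k15),(k0,k16),(k3,k16),(k4,k17),(k5,k17),(k2,k18)],[(k5,k15),(k7,
    k15),(k0,k16),(k2,k16),(k3,k16),(k11,k16),(k4,k17),(k8,k19)],[(k11,k14),(k2,k16),(k3,k16),(k4,k17),(k5,k17),(k7,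
    k17),(k8,k17),(k0,k18)],[(k3,k15),(k11,k15),(k4,k16),(k7,k16),(k0,k17),(k2,k17),(k5,k18),(k8,k18)],[(k11,k15),(k5,
    k16),(k7,k16),(k0,k17),(k2,k17),(k3,k17),(k4,k18),(k8,k18)],[(k11,k13),(k7,k14),(k0,k15),(k3,k15),(k4,k16),(k5,
    k16),(k8,k16),(k2,k17)],[(k1,k15),(k9,k16)],[(k10,k15),(k6,k16)],[(k0,k15),(k11,k15),(k7,k16),(k2,k17),(k4,k18),
    (k5,k18),(k8,k18),(k3,k19)],[(k0,k12),(k11,k12),(k7,k13),(k2,k14),(k4,k15),(k5,k15),(k8,k15),(k3,k16)],[(k1,k14),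
    (k9,k15)]]
    [] k0
    [[k1,k0,k0,k1,k0,k0],[k1,k0,k0,k0,k0,k1],[k1,k1,k0,k0,k0,k1],[k1,k0,k1,k0,k0,k1],[k0,k2,k0,k0,k0,k0],[k0,k1,k1,k0,
    k0,k0],[k0,k0,k2,k0,k0,k0],[k0,k0,k0,k1,k1,k0],[k0,k0,k0,k0,k1,k1]]
    [.ref k3 k0 [(z1,[z1])],.ref k1 k0 [(z1,[z1])],.ref k5 k0 [(z1,[z1])],.ref k4 k0 [(z1,[z1])],.contra [z1],
    .ref k2 k0 [(z1,[y1,z1])],.contra [z1],.ref k1 k1 [(z1,[z1])],.ref k0 k0 [(z1,[y1,z1])]])]⟩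

/-- classes `0 0 0 1 0 1`, types `S0 S0 S0 C0 S0 C2` -/
noncomputable def cU6_466 : CertX :=
  ⟨[k0,k0,k0,k20,k0,k22],[(false,k0,[k0,k1,k2,k3,k4,k5]),(true,k3,[k3,k2,k1,k0,k5,k4])],[[[([z1,z0,z0,z0,z1,z0],z2)],
    [([z1,z0,z0,z0,z0,z1],z2)],[([z1,z0,z1,z0,z0,z1],z2)],[([z1,z0,z0,z1,z1,z1],z2)],[([z1,z0,z1,z0,z1,z0],z2)],[([z1,
    z1,z0,z0,z0,z1],z2)],[([z1,z1,z0,z0,z1,z0],z2)],[]]],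
    [.old (.leafM k1 [k1,k2,k3,k5] [] [(k4,k0,z1,[z1]),(k0,k4,z1,[z1])]),
    .old (.leafM k0 [k1,k2,k3,k4] [] [(k5,k0,z1,[z1]),(k0,k5,z1,[z1])]),
    .old (.leafM k3 [k0,k1,k2,k3,k4,k5] [(z1,[y1,z1])] []),
    .old (.leafM k0 [k0,k3,k4,k5] [] [(k1,k2,z1,[y1,z1]),(k2,k1,z1,[y1,z1])]),
    .old (.leafM k5 [k0,k1,k2,k3,k4,k5] [(z1,[y1,z1]),(z1,[z1])] []),
    .old (.leafM k0 [k1,k2,k3,k4,k5,k0] [(z1,[y1,z1])] []),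
    .old (.leafM k3 [k3,k4,k5,k0,k1,k2] [(z1,[z1])] []),
    .old (.lp [k6,k8,k10,k8,k6,k8] [k2,k2,k1,k1,k0,k0,k1,k1,k2,k2,k1,k1] k0 [] k24 k5
    [[(k9,k6),(k10,k7)],[(k0,k6),(k8,k6),(k2,k7),(k3,k7),(k7,k7),(k11,k7),(k4,k8),(k5,k8)],[(k0,k7),(k8,k7),(k2,k8),
    (k3,k8),(k7,k8),(k11,k8),(k4,k9),(k5,k9)],[(k0,k7),(k8,k7),(k2,k8),(k3,k8),(k7,k8),(k11,k8),(k4,k9),(k5,k9)],[(k0,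
    k8),(k8,k8),(k2,k9),(k3,k9),(k7,k9),(k11,k9),(k4,k10),(k5,k10)],[(k0,k8),(k8,k8),(k2,k9),(k3,k9),(k7,k9),(k11,k9),
    (k4,k10),(k5,k10)],[(k0,k7),(k8,k7),(k2,k8),(k3,k8),(k7,k8),(k11,k8),(k4,k9),(k5,k9)],[(k9,k7),(k10,k8)],[(k1,k6),
    (k6,k7)],[(k0,k6),(k8,k6),(k2,k7),(k3,k7),(k7,k7),(k11,k7),(k4,k8),(k5,k8)],[(k0,k7),(k8,k7),(k2,k8),(k3,k8),(k7,
    k8),(k11,k8),(k4,k9),(k5,k9)],[(k1,k7),(k6,k8)]]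
    [] k0
    [[k1,k0,k0,k0,k1,k0],[k1,k1,k0,k0,k1,k0],[k1,k0,k1,k0,k1,k0],[k1,k0,k0,k0,k0,k1],[k1,k1,k0,k0,k0,k1],[k0,k2,k0,k0,
    k0,k0],[k0,k1,k1,k0,k0,k0],[k0,k1,k0,k1,k1,k0],[k0,k0,k2,k0,k0,k0],[k0,k0,k0,k1,k1,k0],[k0,k0,k0,k1,k0,k1]]
    [.ref k0 k0 [(z1,[z1])],.ref k6 k0 [(z1,[z1])],.ref k4 k0 [(z1,[z1])],.ref k1 k0 [(z1,[z1])],.ref k5 k0 [(z1,
    [z1])],.contra [z1],.ref k3 k0 [(z1,[y1,z1])],.ref k2 k0 [(z1,[y1,z1])],.contra [z1],.ref k1 k1 [(z1,[z1])],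
    .ref k0 k1 [(z1,[z1])]])]⟩

/-- classes `0 0 0 1 0 1`, types `S0 S0 S0 N0 S0 N1` -/
noncomputable def cU6_467 : CertX :=
  ⟨[k0,k0,k0,k28,k0,k29],[(false,k0,[k0,k1,k2,k3,k4,k5]),(true,k3,[k3,k2,k1,k0,k5,k4])],[[[([z1,z1,z1,z1,z0,z0],z2)],
    [([z1,z0,z0,z1,z0,z0],z2)],[([z1,z0,z0,z1,z0,z0],z1),([z0,z1,z1,z0,z0,z0],z2)],[([z1,z0,z0,z1,z1,z1],z2),([z0,z1,
    z0,z0,y1,y1],z0)],[([z1,z0,z0,z1,z1,z1],z2)],[]]],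
    [.old (.leafM k0 [k0,k1,k2,k3] [] [(k4,k5,z1,[y1,z1]),(k5,k4,z1,[y1,z1])]),
    .old (.leafM k5 [k1,k2,k4,k5] [] [(k3,k0,z1,[z1]),(k0,k3,z1,[z1])]),
    .old (.leafM k4 [k3,k4,k5,k0] [(z1,[y1,y1,z1])] [(k1,k2,z1,[z0,z1]),(k2,k1,z1,[z0,z1])]),
    .old (.lp [k54,k90,k90,k36,k36,k40] [k18,k18,k0,k0,k0,k0,k27,k27,k27,k27,k25,k25] k0 [[],[k0,k0,k0,k0,k0,k0,k0,k0,k15,
    k15],[k0,k0,k0,k0,k0,k0,k0,k0,k15,k15],[],[],[],[],[],[k15,k0,k0,k15],[k15,k0,k0,k15]] k180 k6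
    [[(k6,k45)],[(k7,k45),(k0,k54),(k8,k60),(k11,k62),(k2,k72),(k3,k72),(k4,k72),(k5,k72)],[(k8,k48),(k11,k50),(k7,
    k63),(k0,k72),(k2,k90),(k3,k90),(k4,k90),(k5,k90)],[(k8,k48),(k11,k50),(k7,k63),(k0,k72),(k2,k90),(k3,k90),(k4,
    k90),(k5,k90)],[(k7,k63),(k0,k72),(k8,k78),(k11,k80),(k2,k90),(k3,k90),(k4,k90),(k5,k90)],[(k7,k63),(k8,k63),(k11,
    k65),(k0,k72),(k2,k90),(k3,k90),(k4,k90),(k5,k90)],[(k7,k36),(k8,k36),(k11,k38),(k0,k45),(k2,k63),(k3,k63),(k4,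
    k63),(k5,k63)],[(k1,k45)],[(k10,k38)],[(k7,k36),(k8,k36),(k11,k38),(k2,k48),(k3,k48),(k0,k60),(k4,k63),(k5,k78)],
    [(k7,k38),(k8,k38),(k11,k40),(k2,k50),(k3,k50),(k0,k62),(k4,k65),(k5,k80)],[(k9,k38)]]
    [] k0
    [[k1,k0,k0,k1,k0,k0],[k0,k1,k0,k0,k1,k1],[k0,k0,k0,k0,k1,k1],[k0,k0,k0,k0,k2,k2]]
    [.contra [y1,z1,z1],.contra [z1,z0,z1],.contra [y1,y1,y1,z1],.contra [z1,z0,z2]]),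
    .old (.lp [k132,(nat_lit 252),(nat_lit 210),k96,k96,k154] [k60,k60,k0,k0,k21,k21,k78,k78,k78,k78,k49,k49] k0 [[k0,k0,
    k0,k0,k18],[k0,k0,k0,k0,k0,k0,k0,k0,k2,k2],[k0,k0,k0,k0,k0,k0,k0,k0,k20,k20],[k0,k0,k0,k0,k18],[],[k0,k18,k18],[],
    [],[k2,k0,k0,k20],[k2,k0,k0,k20]] (nat_lit 480) k6
    [[(k6,k114)],[(k7,k96),(k8,k116),(k0,k132),(k11,k145),(k4,k171),(k5,k171),(k2,k192),(k3,k192)],[(k8,k172),(k7,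
    k174),(k0,k192),(k11,(nat_lit 201)),(k5,(nat_lit 231)),(k4,(nat_lit 249)),(k2,(nat_lit 252)),(k3,(nat_lit 252))],
    [(k8,k154),(k7,k174),(k11,k183),(k0,k192),(k5,(nat_lit 231)),(k4,(nat_lit 249)),(k2,(nat_lit 252)),(k3,
    (nat_lit 252))],[(k7,k135),(k0,k171),(k8,k173),(k11,(nat_lit 202)),(k4,(nat_lit 210)),(k5,(nat_lit 210)),(k2,
    (nat_lit 231)),(k3,(nat_lit 231))],[(k7,k153),(k8,k153),(k0,k171),(k11,k182),(k4,(nat_lit 210)),(k5,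
    (nat_lit 210)),(k2,(nat_lit 249)),(k3,(nat_lit 249))],[(k0,k96),(k7,k96),(k8,k96),(k11,k125),(k5,k135),(k4,k153),
    (k2,k174),(k3,k174)],[(k1,k114)],[(k10,k125)],[(k7,k96),(k8,k96),(k0,k116),(k11,k125),(k4,k153),(k2,k154),(k3,
    k172),(k5,k173)],[(k7,k125),(k8,k125),(k0,k145),(k11,k154),(k4,k182),(k2,k183),(k3,(nat_lit 201)),(k5,
    (nat_lit 202))],[(k9,k125)]]
    [] k0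
    [[k1,k0,k0,k1,k0,k0],[k2,k0,k0,k2,k0,k0],[k1,k0,k1,k1,k0,k0],[k0,k0,k2,k0,k0,k0],[k0,k0,k0,k0,k1,k1]]
    [.contra [y1,z1],.ref k2 k0 [(z2,[z1]),(z1,[z0,y1,z1])],.ref k3 k1 [(z1,[z0,z1]),(z1,[z1,y1])],.contra [y1,y2,z2],
    .contra [y1,z1]]),
    .old (.lp [k32,k34,k38,k24,k28,k28] [k3,k3,k2,k2,k0,k0,k7,k7,k5,k5,k5,k5] k0 [[k0,k0,k0,k0,k0,k0,k0,k0,k6,k6],[k0,k0,
    k6,k2],[k2,k0,k0,k0,k0,k2],[k6,k0,k0,k0,k0,k6],[k0,k0,k6,k2],[k0,k0,k0,k0,k0,k0,k0,k0,k2,k2],[],[],[k0,k6,k0,k0,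
    k2],[k0,k6,k0,k0,k2]] k96 k5
    [[(k6,k28)],[(k8,k24),(k11,k24),(k7,k28),(k0,k32),(k3,k33),(k4,k35),(k5,k37),(k2,k39)],[(k7,k29),(k5,k30),(k2,
    k32),(k0,k33),(k3,k34),(k4,k36),(k8,k37),(k11,k37)],[(k8,k31),(k11,k31),(k3,k32),(k2,k34),(k4,k34),(k7,k35),(k5,
    k36),(k0,k39)],[(k3,k30),(k4,k32),(k7,k33),(k8,k33),(k11,k33),(k2,k36),(k0,k37),(k5,k38)],[(k7,k31),(k5,k32),(k2,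
    k34),(k0,k35),(k8,k35),(k11,k35),(k3,k36),(k4,k38)],[(k7,k24),(k8,k24),(k11,k24),(k0,k28),(k3,k29),(k4,k31),(k5,
    k33),(k2,k35)],[(k1,k28)],[(k10,k28)],[(k0,k24),(k7,k24),(k8,k28),(k11,k28),(k2,k31),(k5,k33),(k4,k35),(k3,k37)],
    [(k0,k24),(k7,k24),(k8,k28),(k11,k28),(k2,k31),(k5,k33),(k4,k35),(k3,k37)],[(k9,k28)]]
    [] k0
    [[k1,k0,k0,k1,k0,k0],[k0,k2,k0,k0,k0,k0],[k0,k1,k1,k0,k0,k0],[k0,k0,k2,k0,k0,k0],[k0,k0,k0,k0,k1,k1]]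
    [.ref k1 k0 [(z1,[z1])],.contra [z1],.ref k4 k0 [(z1,[y1,z1])],.contra [z1],.ref k0 k0 [(z1,[y1,z1])]])]⟩

/-- classes `0 0 0 1 0 1`, types `S0 S0 S0 N0 S0 N2` -/
noncomputable def cU6_468 : CertX :=
  ⟨[k0,k0,k0,k28,k0,k30],[(false,k0,[k0,k1,k2,k3,k4,k5]),(true,k3,[k3,k2,k1,k0,k5,k4])],[[[([z1,z0,z0,z0,z1,z0],z2)],
    [([z1,z0,z1,z0,z1,z0],z2)],[([z1,z0,z0,z1,z1,z1],z2)],[([z1,z1,z0,z0,z1,z0],z2)],[]]],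
    [.old (.leafM k1 [k1,k2,k3,k5] [] [(k4,k0,z1,[z1]),(k0,k4,z1,[z1])]),
    .old (.leafM k5 [k0,k1,k2,k3,k4,k5] [(z1,[y1,z1]),(z1,[z1])] []),
    .old (.leafM k2 [k0,k3,k4,k5] [] [(k1,k2,z1,[y1,z1]),(k2,k1,z1,[y1,z1])]),
    .old (.leafM k3 [k3,k4,k5,k0,k1,k2] [(z1,[z1])] []),
    .old (.lp [k6,k8,k12,k6,k6,k6] [k3,k3,k2,k2,k0,k0,k3,k3,k3,k3,k3,k3] k0 [] k24 k5
    [[(k9,k6)],[(k0,k6),(k7,k6),(k8,k6),(k11,k6),(k2,k7),(k3,k7),(k4,k9),(k5,k9)],[(k0,k7),(k7,k7),(k8,k7),(k11,k7),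
    (k2,k8),(k3,k8),(k4,k10),(k5,k10)],[(k0,k7),(k7,k7),(k8,k7),(k11,k7),(k2,k8),(k3,k8),(k4,k10),(k5,k10)],[(k0,k9),
    (k7,k9),(k8,k9),(k11,k9),(k2,k10),(k3,k10),(k4,k12),(k5,k12)],[(k0,k9),(k7,k9),(k8,k9),(k11,k9),(k2,k10),(k3,k10),
    (k4,k12),(k5,k12)],[(k0,k6),(k7,k6),(k8,k6),(k11,k6),(k2,k7),(k3,k7),(k4,k9),(k5,k9)],[(k10,k6)],[(k1,k6)],[(k0,
    k6),(k7,k6),(k8,k6),(k11,k6),(k2,k7),(k3,k7),(k4,k9),(k5,k9)],[(k0,k6),(k7,k6),(k8,k6),(k11,k6),(k2,k7),(k3,k7),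
    (k4,k9),(k5,k9)],[(k6,k6)]]
    [] k0
    [[k1,k0,k0,k0,k1,k0],[k1,k1,k0,k0,k1,k0],[k0,k2,k0,k0,k0,k0],[k0,k1,k1,k0,k0,k0],[k0,k1,k0,k1,k0,k1],[k0,k0,k0,k1,
    k0,k1]]
    [.ref k0 k0 [(z1,[z1])],.ref k3 k0 [(z1,[z1])],.contra [z1],.ref k2 k0 [(z1,[y1,z1])],.ref k1 k0 [(z1,[y1,z1])],
    .ref k0 k1 [(z1,[z1])]])]⟩

/-- classes `0 0 0 1 0 2`, types `B0 B0 B1 C0 B1 C0` -/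
noncomputable def cU6_469 : CertX :=
  ⟨[k8,k8,k9,k20,k9,k36],[(false,k0,[k0,k1,k2,k3,k4,k5])],[[[([z1,z0,z1,z0,z0,z1],z2)],[([z1,z0,z0,z0,z0,z1],z2)],
    []]],
    [.old (.leafM k3 [k0,k1,k2,k3,k4,k5] [(z1,[y1,z1])] []),
    .old (.leafM k1 [k3,k4,k1,k2] [] [(k5,k0,z1,[z1]),(k0,k5,z1,[z1])]),
    .old (.lp [k2,k2,k4,k2,k2,k2] [k1,k1,k1,k1,k0,k0,k1,k1,k1,k1,k1,k1] k0 [] k8 k5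
    [[(k10,k2)],[(k7,k2),(k8,k2),(k11,k2),(k4,k3)],[(k7,k2),(k8,k2),(k11,k2),(k4,k3)],[(k7,k2),(k8,k2),(k11,k2),(k4,
    k3)],[(k7,k3),(k8,k3),(k11,k3),(k4,k4)],[(k0,k3),(k2,k3),(k3,k3),(k5,k4)],[(k0,k2),(k2,k2),(k3,k2),(k5,k3)],[(k9,
    k2)],[(k6,k2)],[(k0,k2),(k2,k2),(k3,k2),(k5,k3)],[(k0,k2),(k2,k2),(k3,k2),(k5,k3)],[(k1,k2)]]
    [] k0
    [[k1,k0,k0,k0,k0,k1],[k0,k1,k0,k1,k1,k0]]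
    [.ref k1 k0 [(z1,[z1])],.ref k0 k0 [(z1,[y1,z1])]])]⟩

/-- classes `0 0 0 1 0 2`, types `B0 B0 B1 C0 B1 S0` -/
noncomputable def cU6_470 : CertX :=
  ⟨[k8,k8,k9,k20,k9,k32],[(false,k0,[k0,k1,k2,k3,k4,k5])],[[[([z1,z0,z0,z0,z0,z1],z2)],[([z1,z0,z1,z0,z0,z1],z2)],
    []]],
    [.old (.leafM k1 [k3,k4,k1,k2] [] [(k5,k0,z1,[z1]),(k0,k5,z1,[z1])]),
    .old (.leafM k3 [k0,k1,k2,k3,k4,k5] [(z1,[y1,z1])] []),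
    .old (.lp [k6,k12,k8,k6,k6,k6] [k3,k3,k0,k0,k2,k2,k3,k3,k3,k3,k3,k3] k0 [] k24 k5
    [[(k1,k6),(k10,k6)],[(k7,k6),(k8,k6),(k11,k6),(k4,k7)],[(k7,k9),(k8,k9),(k11,k9),(k4,k10)],[(k7,k9),(k8,k9),(k11,
    k9),(k4,k10)],[(k7,k7),(k8,k7),(k11,k7),(k4,k8)],[(k0,k7),(k5,k8),(k2,k10),(k3,k10)],[(k0,k6),(k5,k7),(k2,k9),(k3,
    k9)],[(k9,k6)],[(k6,k6)],[(k0,k6),(k5,k7),(k2,k9),(k3,k9)],[(k0,k6),(k5,k7),(k2,k9),(k3,k9)],[(k1,k6),(k10,k6)]]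
    [] k0
    [[k1,k0,k0,k0,k0,k1],[k1,k0,k1,k0,k0,k1],[k0,k0,k2,k0,k0,k0]]
    [.ref k0 k0 [(z1,[z1])],.ref k1 k0 [(z1,[z1])],.contra [z1]])]⟩

/-- classes `0 0 0 1 0 2`, types `B0 B0 B1 S0 B1 C0` -/
noncomputable def cU6_471 : CertX :=
  ⟨[k8,k8,k9,k16,k9,k36],[(false,k0,[k0,k1,k2,k3,k4,k5])],[[[([z1,z0,z0,z0,z0,z1],z2)],[([z1,z0,z1,z0,z0,z1],z2)],
    []]],
    [.old (.leafM k1 [k3,k4,k1,k2] [] [(k5,k0,z1,[z1]),(k0,k5,z1,[z1])]),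
    .old (.leafM k3 [k0,k1,k2,k3,k4,k5] [(z1,[y1,z1])] []),
    .old (.lp [k2,k4,k4,k4,k4,k4] [k1,k1,k0,k0,k0,k0,k0,k0,k0,k0,k0,k0] k0 [] k12 k5
    [[(k10,k3)],[(k4,k3),(k7,k3),(k8,k3),(k11,k3)],[(k4,k4),(k7,k4),(k8,k4),(k11,k4)],[(k4,k4),(k7,k4),(k8,k4),(k11,
    k4)],[(k4,k4),(k7,k4),(k8,k4),(k11,k4)],[(k0,k3),(k2,k4),(k3,k4),(k5,k4)],[(k0,k3),(k2,k4),(k3,k4),(k5,k4)],[(k6,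
    k4),(k9,k4)],[(k6,k4),(k9,k4)],[(k0,k3),(k2,k4),(k3,k4),(k5,k4)],[(k0,k3),(k2,k4),(k3,k4),(k5,k4)],[(k1,k3)]]
    [] k0
    [[k1,k0,k0,k0,k0,k1],[k1,k0,k1,k0,k0,k1],[k0,k0,k2,k0,k0,k0]]
    [.ref k0 k0 [(z1,[z1])],.ref k1 k0 [(z1,[z1])],.contra [z1]])]⟩

/-- classes `0 0 0 1 0 2`, types `B0 B0 B1 S0 B1 S0` -/
noncomputable def cU6_472 : CertX :=
  ⟨[k8,k8,k9,k16,k9,k32],[(false,k0,[k0,k1,k2,k3,k4,k5])],[[[([z1,z0,z0,z0,z0,z1],z2)],[([z1,z0,z1,z0,z0,z1],z2)],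
    []]],
    [.old (.leafM k1 [k3,k4,k1,k2] [] [(k5,k0,z1,[z1]),(k0,k5,z1,[z1])]),
    .old (.leafM k3 [k0,k1,k2,k3,k4,k5] [(z1,[y1,z1])] []),
    .old (.lp [k6,k12,k8,k6,k6,k6] [k3,k3,k0,k0,k2,k2,k3,k3,k3,k3,k3,k3] k0 [] k24 k5
    [[(k1,k6),(k10,k6)],[(k7,k6),(k8,k6),(k11,k6),(k4,k7)],[(k7,k9),(k8,k9),(k11,k9),(k4,k10)],[(k7,k9),(k8,k9),(k11,
    k9),(k4,k10)],[(k7,k7),(k8,k7),(k11,k7),(k4,k8)],[(k0,k7),(k5,k8),(k2,k10),(k3,k10)],[(k0,k6),(k5,k7),(k2,k9),(k3,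
    k9)],[(k6,k6),(k9,k6)],[(k6,k6),(k9,k6)],[(k0,k6),(k5,k7),(k2,k9),(k3,k9)],[(k0,k6),(k5,k7),(k2,k9),(k3,k9)],[(k1,
    k6),(k10,k6)]]
    [] k0
    [[k1,k0,k0,k0,k0,k1],[k1,k0,k1,k0,k0,k1],[k0,k0,k2,k0,k0,k0]]
    [.ref k0 k0 [(z1,[z1])],.ref k1 k0 [(z1,[z1])],.contra [z1]])]⟩

/-- classes `0 0 0 1 0 2`, types `B0 B1 B0 C0 B1 C0` -/
noncomputable def cU6_473 : CertX :=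
  ⟨[k8,k9,k8,k20,k9,k36],[(false,k0,[k0,k1,k2,k3,k4,k5]),(true,k3,[k3,k2,k1,k0,k5,k4])],[[[([z1,z0,z0,z0,z0,z1],z2)],
    [([z1,z0,z0,z1,z1,z1],z2),([z0,z1,z0,y1,y1,z0],z0)],[([z1,z1,z0,z0,z0,z1],z2)],[]]],
    [.old (.leafM k1 [k3,k4,k1,k2] [] [(k5,k0,z1,[z1]),(k0,k5,z1,[z1])]),
    .old (.tor k9 false k0 [(z1,[y1,y1,z1]),(z1,[y1,z0,z1]),(z1,[z1]),(z1,[z1,z1])]),
    .old (.lp [k8,k16,k18,k8,k20,k22] [k7,k7,k3,k3,k2,k2,k7,k7,k1,k1,k0,k0] k0 [[k0,k0,k0,k0,k0,k0,k0,k0,k3,k2],[],[k0,k0,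
    k0,k0,k0,k2],[k0,k0,k0,k0,k0,k1],[k0,k0,k1,k2],[],[],[],[k0,k2],[k0,k3]] k48 k5
    [[(k10,k15)],[(k2,k12),(k8,k12),(k11,k12),(k5,k13)],[(k2,k16),(k5,k17),(k8,k21),(k11,k21)],[(k0,k12),(k7,k13),(k4,
    k15),(k3,k16)],[(k0,k13),(k7,k15),(k3,k17),(k4,k17)],[(k2,k15),(k5,k17),(k8,k19),(k11,k20)],[(k2,k13),(k8,k14),
    (k5,k15),(k11,k15)],[(k9,k14)],[(k6,k14)],[(k0,k12),(k7,k14),(k4,k19),(k3,k21)],[(k0,k12),(k7,k15),(k4,k20),(k3,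
    k21)],[(k1,k15)]]
    [] k0
    [[k1,k0,k0,k0,k0,k1],[k0,k2,k0,k0,k0,k0],[k0,k1,k1,k0,k0,k0],[k0,k0,k2,k0,k0,k0],[k0,k0,k0,k1,k1,k0]]
    [.contra [y1,z1],.contra [z1],.ref k1 k0 [(z1,[y1,z0,z1]),(z1,[z1,z1,y1])],.contra [z1],.contra [y1,y1,z1]]),
    .old (.lp [k6,k12,k10,k6,k6,k6] [k3,k3,k0,k0,k1,k1,k3,k3,k3,k3,k3,k3] k0 [[],[k0,k0,k0,k2],[k2],[k0,k0,k0,k0,k2],[],
    [k0,k0,k2]] k24 k5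
    [[(k10,k6)],[(k8,k6),(k11,k6),(k2,k9),(k5,k10)],[(k8,k9),(k11,k9),(k2,k10),(k5,k11)],[(k0,k9),(k7,k9),(k3,k10),
    (k4,k13)],[(k7,k6),(k0,k10),(k4,k10),(k3,k11)],[(k8,k8),(k11,k8),(k5,k10),(k2,k13)],[(k5,k6),(k8,k6),(k11,k6),(k2,
    k9)],[(k9,k6)],[(k6,k6)],[(k0,k6),(k7,k6),(k4,k8),(k3,k9)],[(k0,k6),(k7,k6),(k4,k8),(k3,k9)],[(k1,k6)]]
    [] k0
    [[k1,k0,k0,k0,k0,k1],[k0,k2,k0,k0,k0,k0],[k0,k0,k2,k0,k0,k0],[k0,k0,k1,k1,k1,k0],[k0,k0,k0,k1,k1,k0]]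
    [.ref k0 k0 [(z1,[z1])],.contra [z1],.contra [z1],.ref k2 k0 [(z1,[y1,z1])],.ref k0 k1 [(z1,[z1])]])]⟩

/-- classes `0 0 0 1 0 2`, types `B0 B1 B0 C0 B1 S0` -/
noncomputable def cU6_474 : CertX :=
  ⟨[k8,k9,k8,k20,k9,k32],[(false,k0,[k0,k1,k2,k3,k4,k5])],[[[([z1,z1,z1,z0,z0,z1],z2)],[([z1,z0,z0,z0,z0,z1],z2)],
    [([z1,z0,z0,z1,z1,z1],z2),([z0,z1,z0,y1,y1,z0],z0)],[([z1,z0,z0,z1,z1,z1],z2)],[]]],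
    [.old (.leafM k1 [k2,k5,k0,k1] [] [(k3,k4,z1,[y1,z1]),(k4,k3,z1,[y1,z1])]),
    .old (.leafM k1 [k3,k4,k1,k2] [] [(k5,k0,z1,[z1]),(k0,k5,z1,[z1])]),
    .old (.tor k9 false k0 [(z1,[y1,y1,z1]),(z1,[y1,z0,z1]),(z1,[z1]),(z1,[z1,z1])]),
    .old (.lp [k6,k10,k12,k6,k6,k6] [k3,k3,k1,k1,k0,k0,k3,k3,k3,k3,k3,k3] k0 [[k0,k0,k0,k2],[],[k0,k2],[k0,k0,k0,k0,k0,
    k2],[k0,k0,k2]] k24 k5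
    [[(k1,k6),(k10,k6)],[(k2,k6),(k8,k6),(k11,k6),(k5,k9)],[(k8,k8),(k11,k8),(k2,k10),(k5,k13)],[(k0,k6),(k3,k10),(k7,
    k10),(k4,k11)],[(k0,k9),(k7,k9),(k4,k10),(k3,k13)],[(k8,k9),(k11,k9),(k5,k10),(k2,k11)],[(k8,k6),(k11,k6),(k5,k9),
    (k2,k10)],[(k9,k6)],[(k6,k6)],[(k0,k6),(k7,k6),(k3,k8),(k4,k9)],[(k0,k6),(k7,k6),(k3,k8),(k4,k9)],[(k1,k6),(k10,
    k6)]]
    [] k0
    [[k1,k0,k0,k0,k0,k1],[k1,k1,k0,k0,k0,k1],[k0,k2,k0,k0,k0,k0],[k0,k0,k2,k0,k0,k0],[k0,k0,k0,k1,k1,k0]]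
    [.contra [y1,z1],.ref k2 k0 [(z1,[z0,z1]),(z1,[z1,y1])],.contra [z1],.contra [y1,y2,z2],.contra [y1,z1]]),
    .old (.lp [k12,k16,k18,k6,k22,k18] [k5,k5,k3,k3,k2,k2,k8,k8,k0,k0,k2,k2] k0 [[k0,k0,k0,k0,k0,k0,k0,k0,k3,k2],[],[k0,
    k0,k0,k0,k0,k2],[k0,k0,k0,k0,k0,k2],[k0,k0,k2,k2],[],[],[],[k0,k2],[k0,k3]] k48 k5
    [[(k1,k12),(k10,k15)],[(k11,k12),(k2,k14),(k5,k15),(k8,k15)],[(k2,k16),(k5,k17),(k11,k19),(k8,k22)],[(k7,k13),(k0,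
    k14),(k4,k15),(k3,k16)],[(k7,k14),(k0,k15),(k4,k16),(k3,k17)],[(k2,k15),(k5,k16),(k11,k18),(k8,k20)],[(k11,k12),
    (k2,k13),(k5,k14),(k8,k14)],[(k9,k14)],[(k6,k14)],[(k7,k14),(k0,k15),(k4,k20),(k3,k22)],[(k0,k12),(k7,k12),(k4,
    k18),(k3,k19)],[(k1,k15),(k10,k18)]]
    [] k0
    [[k1,k0,k0,k0,k0,k1],[k0,k2,k0,k0,k0,k0],[k0,k1,k1,k0,k0,k0],[k0,k0,k2,k0,k0,k0],[k0,k0,k0,k1,k1,k0]]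
    [.ref k1 k0 [(z1,[z1])],.contra [z1],.ref k3 k0 [(z1,[y1,z1])],.contra [z1],.ref k0 k0 [(z1,[y1,z1])]])]⟩

/-- classes `0 0 0 1 0 2`, types `B0 B1 B0 S0 B1 S0` -/
noncomputable def cU6_475 : CertX :=
  ⟨[k8,k9,k8,k16,k9,k32],[(false,k0,[k0,k1,k2,k3,k4,k5]),(true,k3,[k3,k2,k1,k0,k5,k4])],[[[([z1,z0,z0,z0,z0,z1],z2)],
    [([z1,z0,z0,z1,z1,z1],z2),([z0,z1,z0,y1,y1,z0],z0)],[([z1,z1,z0,z0,z0,z1],z2)],[]]],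
    [.old (.leafM k1 [k3,k4,k1,k2] [] [(k5,k0,z1,[z1]),(k0,k5,z1,[z1])]),
    .old (.tor k9 false k0 [(z1,[y1,y1,z1]),(z1,[y1,z0,z1]),(z1,[z1]),(z1,[z1,z1])]),
    .old (.lp [k46,k42,k44,k38,k30,k30] [k0,k0,k2,k2,k1,k1,k4,k4,k8,k8,k8,k8] k0 [[k0,k0,k0,k0,k0,k0,k0,k0,k8,k2],[],[k0,
    k0,k0,k0,k0,k8],[k0,k0,k0,k0,k0,k2],[k0,k0,k2,k8],[],[],[],[k0,k2],[k0,k8]] k120 k5
    [[(k10,k38),(k1,k46)],[(k11,k30),(k8,k36),(k2,k44),(k5,k45)],[(k11,k38),(k2,k42),(k5,k43),(k8,k44)],[(k4,k35),(k3,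
    k42),(k7,k42),(k0,k44)],[(k4,k42),(k3,k43),(k0,k45),(k7,k49)],[(k2,k35),(k8,k37),(k11,k37),(k5,k42)],[(k8,k34),
    (k11,k34),(k2,k42),(k5,k49)],[(k9,k34),(k6,k38)],[(k9,k30),(k6,k34)],[(k7,k34),(k0,k36),(k4,k37),(k3,k44)],[(k0,
    k30),(k7,k34),(k4,k37),(k3,k38)],[(k10,k30),(k1,k38)]]
    [] k0
    [[k1,k0,k0,k0,k0,k1],[k0,k2,k0,k0,k0,k0],[k0,k1,k1,k0,k0,k0],[k0,k0,k2,k0,k0,k0],[k0,k0,k0,k1,k1,k0]]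
    [.contra [y1,z1],.contra [z1],.ref k1 k0 [(z1,[y1,z0,z1]),(z1,[z1,z1,y1])],.contra [z1],.contra [y1,y1,z1]]),
    .old (.lp [k6,k12,k10,k6,k6,k6] [k3,k3,k0,k0,k1,k1,k3,k3,k3,k3,k3,k3] k0 [[],[k0,k0,k0,k2],[k2],[k0,k0,k0,k0,k2],[],
    [k0,k0,k2]] k24 k5
    [[(k1,k6),(k10,k6)],[(k8,k6),(k11,k6),(k2,k9),(k5,k10)],[(k8,k9),(k11,k9),(k2,k10),(k5,k11)],[(k0,k9),(k7,k9),(k3,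
    k10),(k4,k13)],[(k7,k6),(k0,k10),(k4,k10),(k3,k11)],[(k8,k8),(k11,k8),(k5,k10),(k2,k13)],[(k5,k6),(k8,k6),(k11,
    k6),(k2,k9)],[(k6,k6),(k9,k6)],[(k6,k6),(k9,k6)],[(k0,k6),(k7,k6),(k4,k8),(k3,k9)],[(k0,k6),(k7,k6),(k4,k8),(k3,
    k9)],[(k1,k6),(k10,k6)]]
    [] k0
    [[k1,k0,k0,k0,k0,k1],[k0,k2,k0,k0,k0,k0],[k0,k0,k2,k0,k0,k0],[k0,k0,k1,k1,k1,k0],[k0,k0,k0,k1,k1,k0]]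
    [.ref k0 k0 [(z1,[z1])],.contra [z1],.contra [z1],.ref k2 k0 [(z1,[y1,z1])],.ref k0 k1 [(z1,[z1])]])]⟩

/-- classes `0 0 0 1 0 2`, types `C0 C0 C0 C0 C0 C0` -/
noncomputable def cU6_476 : CertX :=
  ⟨[k4,k4,k4,k20,k4,k36],[(false,k0,[k0,k1,k2,k3,k4,k5]),(true,k3,[k3,k2,k1,k0,k5,k4])],[[[([z1,z0,z0,z0,z0,z1],z2)],
    [([z1,z0,z0,z1,z1,z1],z2)],[([z1,z1,z0,z0,z0,z1],z2)],[]]],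
    [.old (.leafM k0 [k1,k2,k3,k4] [] [(k5,k0,z1,[z1]),(k0,k5,z1,[z1])]),
    .old (.leafM k0 [k0,k3,k4,k5] [] [(k1,k2,z1,[y1,z1]),(k2,k1,z1,[y1,z1])]),
    .old (.leafM k0 [k1,k2,k3,k4,k5,k0] [(z1,[y1,z1])] []),
    .old (.lp [k10,k8,k10,k2,k12,k4] [k1,k1,k2,k2,k1,k1,k5,k5,k0,k0,k4,k4] k0 [[k0,k0,k0,k0,k0,k0,k0,k0,k1],[],[],[k0,k0,
    k0,k0,k0,k1],[k0,k0,k1],[],[],[],[],[k0,k1]] k24 k5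
    [[(k10,k7)],[(k7,k6),(k11,k6),(k3,k9),(k5,k10)],[(k2,k8),(k0,k9),(k4,k9),(k8,k11)],[(k7,k6),(k11,k6),(k3,k8),(k5,
    k9)],[(k2,k9),(k4,k9),(k0,k10),(k8,k11)],[(k7,k6),(k11,k7),(k3,k9),(k5,k9)],[(k0,k6),(k2,k6),(k4,k6),(k8,k7)],
    [(k9,k7)],[(k6,k7)],[(k7,k7),(k11,k8),(k3,k11),(k5,k11)],[(k0,k6),(k2,k6),(k4,k7),(k8,k8)],[(k1,k7)]]
    [] k0
    [[k1,k0,k0,k0,k0,k1],[k1,k1,k0,k0,k0,k1],[k0,k2,k0,k0,k0,k0],[k0,k1,k1,k0,k0,k0],[k0,k0,k2,k0,k0,k0],[k0,k0,k0,k1,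
    k1,k0]]
    [.ref k0 k0 [(z1,[z1])],.ref k2 k0 [(z1,[z1])],.contra [z1],.ref k1 k0 [(z1,[y1,z1])],.contra [z1],
    .ref k0 k1 [(z1,[z1])]])]⟩

/-- classes `0 0 0 1 0 2`, types `C0 C0 C0 C0 C0 S0` -/
noncomputable def cU6_477 : CertX :=
  ⟨[k4,k4,k4,k20,k4,k32],[(false,k0,[k0,k1,k2,k3,k4,k5])],[[[([z1,z1,z1,z0,z0,z1],z2)],[([z1,z1,z0,z0,z0,z1],z2)],
    [([z1,z0,z0,z1,z1,z1],z2)],[([z1,z0,z0,z0,z0,z1],z2)],[]]],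
    [.old (.leafM k0 [k0,k1,k2,k5] [] [(k3,k4,z1,[y1,z1]),(k4,k3,z1,[y1,z1])]),
    .old (.leafM k0 [k1,k2,k3,k4,k5,k0] [(z1,[y1,z1])] []),
    .old (.leafM k0 [k0,k3,k4,k5] [] [(k1,k2,z1,[y1,z1]),(k2,k1,z1,[y1,z1])]),
    .old (.leafM k0 [k1,k2,k3,k4] [] [(k5,k0,z1,[z1]),(k0,k5,z1,[z1])]),
    .old (.lp [k10,k8,k8,k4,k10,k6] [k0,k0,k1,k1,k1,k1,k3,k3,k0,k0,k2,k2] k0 [[k0,k0,k0,k0,k0,k0,k0,k0,k2],[],[],[],[],[],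
    [],[],[],[k0,k2]] k24 k5
    [[(k10,k8),(k1,k10)],[(k11,k6),(k7,k7),(k3,k9),(k5,k9)],[(k2,k8),(k4,k8),(k0,k9),(k8,k11)],[(k7,k6),(k11,k7),(k3,
    k8),(k5,k8)],[(k2,k8),(k4,k8),(k0,k9),(k8,k9)],[(k7,k6),(k11,k7),(k3,k8),(k5,k8)],[(k2,k6),(k4,k6),(k0,k7),(k8,
    k7)],[(k9,k7)],[(k6,k7)],[(k7,k7),(k11,k8),(k5,k9),(k3,k11)],[(k0,k6),(k2,k7),(k4,k7),(k8,k8)],[(k10,k6),(k1,k8)]]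
    [] k0
    [[k1,k0,k0,k0,k0,k1],[k0,k2,k0,k0,k0,k0],[k0,k1,k1,k0,k0,k0],[k0,k0,k2,k0,k0,k0],[k0,k0,k1,k1,k1,k0],[k0,k0,k0,k1,
    k1,k0]]
    [.ref k3 k0 [(z1,[z1])],.contra [z1],.ref k2 k0 [(z1,[y1,z1])],.contra [z1],.ref k1 k0 [(z1,[y1,z1])],
    .ref k0 k0 [(z1,[y1,z1])]])]⟩

/-- classes `0 0 0 1 0 2`, types `C0 C0 C0 C0 C2 C0` -/
noncomputable def cU6_478 : CertX :=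
  ⟨[k4,k4,k4,k20,k6,k36],[(false,k0,[k0,k1,k2,k3,k4,k5])],[[[([z1,z0,z0,z1,z1,z1],z2)],[]]],
    [.old (.leafM k0 [k0,k3,k4,k5] [] [(k1,k2,z1,[y1,z1]),(k2,k1,z1,[y1,z1])]),
    .old (.lp [k6,k10,k10,k6,k6,k6] [k2,k2,k0,k0,k0,k0,k2,k2,k2,k2,k2,k2] k0 [[k0,k0,k2],[],[k0,k0,k0,k0,k2],[k0,k2],[],
    [k0,k0,k0,k2]] k24 k5
    [[(k10,k6)],[(k5,k6),(k7,k6),(k8,k6),(k3,k8)],[(k0,k8),(k11,k8),(k4,k10),(k2,k12)],[(k7,k6),(k8,k8),(k5,k10),(k3,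
    k12)],[(k0,k6),(k11,k8),(k2,k10),(k4,k12)],[(k7,k8),(k8,k8),(k3,k10),(k5,k12)],[(k0,k6),(k2,k6),(k11,k6),(k4,k8)],
    [(k9,k6)],[(k6,k6)],[(k0,k6),(k11,k6),(k2,k8),(k4,k8)],[(k7,k6),(k8,k6),(k3,k8),(k5,k8)],[(k1,k6)]]
    [] k0
    [[k0,k1,k1,k0,k0,k0]]
    [.ref k0 k0 [(z1,[y1,z1])]])]⟩

/-- classes `0 0 0 1 0 2`, types `C0 C0 C0 C0 C2 S0` -/
noncomputable def cU6_479 : CertX :=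
  ⟨[k4,k4,k4,k20,k6,k32],[(false,k0,[k0,k1,k2,k3,k4,k5])],[[[([z1,z0,z0,z1,z1,z1],z2)],[]]],
    [.old (.leafM k0 [k0,k3,k4,k5] [] [(k1,k2,z1,[y1,z1]),(k2,k1,z1,[y1,z1])]),
    .old (.lp [k6,k10,k10,k6,k6,k6] [k2,k2,k0,k0,k0,k0,k2,k2,k2,k2,k2,k2] k0 [[k0,k0,k2],[],[k0,k0,k0,k0,k2],[k0,k2],[],
    [k0,k0,k0,k2]] k24 k5
    [[(k1,k6),(k10,k6)],[(k5,k6),(k7,k6),(k8,k6),(k3,k8)],[(k0,k8),(k11,k8),(k4,k10),(k2,k12)],[(k7,k6),(k8,k8),(k5,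
    k10),(k3,k12)],[(k0,k6),(k11,k8),(k2,k10),(k4,k12)],[(k7,k8),(k8,k8),(k3,k10),(k5,k12)],[(k0,k6),(k2,k6),(k11,k6),
    (k4,k8)],[(k9,k6)],[(k6,k6)],[(k0,k6),(k11,k6),(k2,k8),(k4,k8)],[(k7,k6),(k8,k6),(k3,k8),(k5,k8)],[(k1,k6),(k10,
    k6)]]
    [] k0
    [[k0,k1,k1,k0,k0,k0]]
    [.ref k0 k0 [(z1,[y1,z1])]])]⟩

/-- classes `0 0 0 1 0 2`, types `C0 C0 C0 S0 C0 S0` -/
noncomputable def cU6_480 : CertX :=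
  ⟨[k4,k4,k4,k16,k4,k32],[(false,k0,[k0,k1,k2,k3,k4,k5]),(true,k3,[k3,k2,k1,k0,k5,k4])],[[[([z1,z0,z0,z0,z0,z1],z2)],
    [([z1,z0,z0,z1,z1,z1],z2)],[([z1,z1,z0,z0,z0,z1],z2)],[]]],
    [.old (.leafM k0 [k1,k2,k3,k4] [] [(k5,k0,z1,[z1]),(k0,k5,z1,[z1])]),
    .old (.leafM k0 [k0,k3,k4,k5] [] [(k1,k2,z1,[y1,z1]),(k2,k1,z1,[y1,z1])]),
    .old (.leafM k0 [k1,k2,k3,k4,k5,k0] [(z1,[y1,z1])] []),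
    .old (.lp [k12,k16,k18,k18,k12,k16] [k3,k3,k1,k1,k0,k0,k0,k0,k3,k3,k1,k1] k0 [[k0,k0,k0,k0,k0,k0,k0,k0,k2],[],[],[],
    [],[k0,k0,k0,k0,k0,k0,k0,k0,k0,k2],[],[],[k0,k0,k0,k0,k2],[k0,k2]] k48 k5
    [[(k1,k12),(k10,k14)],[(k11,k12),(k3,k14),(k5,k15),(k7,k15)],[(k0,k14),(k2,k16),(k8,k16),(k4,k17)],[(k3,k16),(k11,
    k16),(k5,k17),(k7,k17)],[(k0,k15),(k8,k15),(k2,k17),(k4,k18)],[(k3,k17),(k5,k18),(k7,k18),(k11,k19)],[(k8,k13),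
    (k0,k15),(k2,k17),(k4,k18)],[(k9,k15),(k6,k18)],[(k9,k12),(k6,k15)],[(k7,k13),(k11,k14),(k5,k15),(k3,k16)],[(k0,
    k12),(k8,k14),(k2,k16),(k4,k19)],[(k1,k14),(k10,k16)]]
    [] k0
    [[k1,k0,k0,k0,k0,k1],[k1,k1,k0,k0,k0,k1],[k0,k2,k0,k0,k0,k0],[k0,k1,k1,k0,k0,k0],[k0,k0,k2,k0,k0,k0],[k0,k0,k0,k1,
    k1,k0]]
    [.ref k0 k0 [(z1,[z1])],.ref k2 k0 [(z1,[z1])],.contra [z1],.ref k1 k0 [(z1,[y1,z1])],.contra [z1],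
    .ref k0 k1 [(z1,[z1])]])]⟩

/-- classes `0 0 0 1 0 2`, types `C0 C0 C0 S0 C2 S0` -/
noncomputable def cU6_481 : CertX :=
  ⟨[k4,k4,k4,k16,k6,k32],[(false,k0,[k0,k1,k2,k3,k4,k5])],[[[([z1,z0,z0,z1,z1,z1],z2)],[]]],
    [.old (.leafM k0 [k0,k3,k4,k5] [] [(k1,k2,z1,[y1,z1]),(k2,k1,z1,[y1,z1])]),
    .old (.lp [k6,k10,k10,k6,k6,k6] [k2,k2,k0,k0,k0,k0,k2,k2,k2,k2,k2,k2] k0 [[k0,k0,k2],[],[k0,k0,k0,k0,k2],[k0,k2],[],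
    [k0,k0,k0,k2]] k24 k5
    [[(k1,k6),(k10,k6)],[(k5,k6),(k7,k6),(k8,k6),(k3,k8)],[(k0,k8),(k11,k8),(k4,k10),(k2,k12)],[(k7,k6),(k8,k8),(k5,
    k10),(k3,k12)],[(k0,k6),(k11,k8),(k2,k10),(k4,k12)],[(k7,k8),(k8,k8),(k3,k10),(k5,k12)],[(k0,k6),(k2,k6),(k11,k6),
    (k4,k8)],[(k6,k6),(k9,k6)],[(k6,k6),(k9,k6)],[(k0,k6),(k11,k6),(k2,k8),(k4,k8)],[(k7,k6),(k8,k6),(k3,k8),(k5,k8)],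
    [(k1,k6),(k10,k6)]]
    [] k0
    [[k0,k1,k1,k0,k0,k0]]
    [.ref k0 k0 [(z1,[y1,z1])]])]⟩

/-- classes `0 0 0 1 0 2`, types `C0 C0 C2 C0 C0 C0` -/
noncomputable def cU6_482 : CertX :=
  ⟨[k4,k4,k6,k20,k4,k36],[(false,k0,[k0,k1,k2,k3,k4,k5])],[[[([z1,z0,z0,z0,z0,z1],z2)],[([z1,z1,z0,z0,z0,z1],z2)],
    []]],
    [.old (.leafM k0 [k1,k2,k3,k4] [] [(k5,k0,z1,[z1]),(k0,k5,z1,[z1])]),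
    .old (.leafM k0 [k1,k2,k3,k4,k5,k0] [(z1,[y1,z1])] []),
    .old (.lp [k6,k8,k12,k6,k6,k6] [k4,k4,k3,k3,k2,k0,k4,k4,k4,k4,k4,k4] k0 [[k0,k0,k4],[],[],[k0,k4]] k24 k5
    [[(k10,k6)],[(k5,k6),(k11,k6),(k3,k7),(k4,k8)],[(k0,k7),(k7,k7),(k8,k7),(k2,k12)],[(k11,k7),(k4,k9),(k5,k11),(k3,
    k12)],[(k0,k6),(k7,k10),(k8,k10),(k2,k11)],[(k0,k8),(k7,k8),(k8,k8),(k2,k9)],[(k11,k6),(k3,k7),(k4,k8),(k5,k10)],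
    [(k9,k6)],[(k6,k6)],[(k11,k6),(k3,k7),(k4,k8),(k5,k10)],[(k0,k6),(k7,k6),(k8,k6),(k2,k7)],[(k1,k6)]]
    [] k0
    [[k1,k0,k0,k0,k0,k1],[k1,k1,k0,k0,k0,k1]]
    [.ref k0 k0 [(z1,[z1])],.ref k1 k0 [(z1,[z1])]])]⟩

/-- classes `0 0 0 1 0 2`, types `C0 C0 C2 C0 C0 S0` -/
noncomputable def cU6_483 : CertX :=
  ⟨[k4,k4,k6,k20,k4,k32],[(false,k0,[k0,k1,k2,k3,k4,k5])],[[[([z1,z1,z0,z0,z0,z1],z2)],[([z1,z0,z0,z0,z0,z1],z2)],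
    []]],
    [.old (.leafM k0 [k1,k2,k3,k4,k5,k0] [(z1,[y1,z1])] []),
    .old (.leafM k0 [k1,k2,k3,k4] [] [(k5,k0,z1,[z1]),(k0,k5,z1,[z1])]),
    .old (.lp [k10,k10,k6,k6,k6,k6] [k0,k0,k0,k0,k2,k2,k2,k2,k2,k2,k2,k2] k0 [[k0,k0,k2],[],[],[k0,k2]] k24 k5
    [[(k10,k8),(k1,k10)],[(k5,k6),(k4,k8),(k11,k8),(k3,k10)],[(k7,k8),(k8,k8),(k0,k10),(k2,k12)],[(k4,k8),(k5,k8),
    (k11,k8),(k3,k12)],[(k0,k6),(k7,k6),(k8,k6),(k2,k8)],[(k7,k6),(k8,k6),(k0,k8),(k2,k8)],[(k4,k6),(k5,k6),(k11,k6),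
    (k3,k8)],[(k9,k6)],[(k6,k6)],[(k4,k6),(k5,k6),(k11,k6),(k3,k8)],[(k7,k6),(k8,k6),(k0,k8),(k2,k8)],[(k10,k6),(k1,
    k8)]]
    [] k0
    [[k1,k0,k0,k0,k0,k1],[k0,k0,k1,k1,k1,k0]]
    [.ref k1 k0 [(z1,[z1])],.ref k0 k0 [(z1,[y1,z1])]])]⟩

/-- classes `0 0 0 1 0 2`, types `C0 C0 C2 C0 C2 C0` -/
noncomputable def cU6_484 : CertX :=
  ⟨[k4,k4,k6,k20,k6,k36],[(false,k0,[k0,k1,k2,k3,k4,k5])],[[[([z1,z1,z1,z0,z0,z1],z2)],[([z1,z0,z1,z0,z0,z1],z2)],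
    []]],
    [.old (.leafM k0 [k0,k1,k2,k5] [] [(k3,k4,z1,[y1,z1]),(k4,k3,z1,[y1,z1])]),
    .old (.leafM k3 [k0,k1,k2,k3,k4,k5] [(z1,[y1,z1])] []),
    .old (.lp [k6,k4,k2,k4,k2,k4] [k0,k0,k1,k1,k2,k2,k1,k1,k2,k2,k1,k1] k0 [] k12 k5
    [[(k10,k5)],[(k4,k4),(k5,k4),(k8,k4),(k3,k5)],[(k2,k4),(k7,k4),(k11,k4),(k0,k5)],[(k4,k3),(k5,k3),(k8,k3),(k3,
    k4)],[(k2,k3),(k7,k3),(k11,k3),(k0,k4)],[(k2,k3),(k7,k3),(k11,k3),(k0,k4)],[(k4,k3),(k5,k3),(k8,k3),(k3,k4)],[(k9,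
    k3)],[(k6,k3)],[(k2,k3),(k7,k3),(k11,k3),(k0,k4)],[(k4,k3),(k5,k3),(k8,k3),(k3,k4)],[(k1,k5)]]
    [] k0
    [[k0,k2,k0,k0,k0,k0],[k0,k1,k0,k1,k1,k0],[k0,k0,k0,k1,k1,k0]]
    [.contra [z1],.ref k1 k0 [(z1,[y1,z1])],.ref k0 k0 [(z1,[y1,z1])]])]⟩

/-- classes `0 0 0 1 0 2`, types `C0 C0 C2 C0 C2 S0` -/
noncomputable def cU6_485 : CertX :=
  ⟨[k4,k4,k6,k20,k6,k32],[(false,k0,[k0,k1,k2,k3,k4,k5])],[[[([z1,z1,z1,z0,z0,z1],z2)],[([z1,z0,z1,z0,z0,z1],z2)],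
    []]],
    [.old (.leafM k0 [k0,k1,k2,k5] [] [(k3,k4,z1,[y1,z1]),(k4,k3,z1,[y1,z1])]),
    .old (.leafM k3 [k0,k1,k2,k3,k4,k5] [(z1,[y1,z1])] []),
    .old (.lp [k10,k8,k4,k8,k4,k10] [k0,k0,k1,k1,k3,k3,k1,k1,k3,k3,k0,k0] k0 [] k24 k5
    [[(k1,k10),(k10,k10)],[(k4,k7),(k5,k7),(k8,k7),(k3,k9)],[(k2,k8),(k7,k8),(k0,k9),(k11,k9)],[(k4,k6),(k5,k6),(k8,
    k6),(k3,k8)],[(k2,k6),(k7,k6),(k0,k7),(k11,k7)],[(k2,k6),(k7,k6),(k0,k7),(k11,k7)],[(k4,k6),(k5,k6),(k8,k6),(k3,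
    k8)],[(k9,k6)],[(k6,k6)],[(k2,k6),(k7,k6),(k0,k7),(k11,k7)],[(k4,k7),(k5,k7),(k8,k7),(k3,k9)],[(k1,k10),(k10,
    k10)]]
    [] k0
    [[k0,k2,k0,k0,k0,k0],[k0,k1,k0,k1,k1,k0],[k0,k0,k0,k1,k1,k0]]
    [.contra [z1],.ref k1 k0 [(z1,[y1,z1])],.ref k0 k0 [(z1,[y1,z1])]])]⟩

/-- classes `0 0 0 1 0 2`, types `C0 C0 C2 S0 C0 C0` -/
noncomputable def cU6_486 : CertX :=
  ⟨[k4,k4,k6,k16,k4,k36],[(false,k0,[k0,k1,k2,k3,k4,k5])],[[[([z1,z1,z0,z0,z0,z1],z2)],[([z1,z0,z0,z0,z0,z1],z2)],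
    []]],
    [.old (.leafM k0 [k1,k2,k3,k4,k5,k0] [(z1,[y1,z1])] []),
    .old (.leafM k0 [k1,k2,k3,k4] [] [(k5,k0,z1,[z1]),(k0,k5,z1,[z1])]),
    .old (.lp [k6,k12,k8,k6,k8,k6] [k3,k3,k0,k0,k2,k2,k3,k3,k2,k2,k3,k3] k0 [[],[],[k0,k0,k0,k0,k0,k4],[],[k0,k0,k0,
    k4]] k24 k5
    [[(k10,k6)],[(k11,k6),(k4,k7),(k5,k7),(k3,k9)],[(k0,k9),(k7,k9),(k8,k10),(k2,k12)],[(k4,k6),(k11,k9),(k5,k10),(k3,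
    k12)],[(k0,k7),(k8,k8),(k2,k10),(k7,k11)],[(k2,k6),(k0,k7),(k7,k7),(k8,k8)],[(k11,k6),(k4,k7),(k3,k9),(k5,k11)],
    [(k6,k6),(k9,k7)],[(k6,k7),(k9,k8)],[(k11,k7),(k4,k8),(k5,k8),(k3,k10)],[(k0,k6),(k7,k6),(k8,k7),(k2,k9)],[(k1,
    k6)]]
    [] k0
    [[k1,k0,k0,k0,k0,k1],[k0,k0,k1,k1,k1,k0]]
    [.ref k1 k0 [(z1,[z1])],.ref k0 k0 [(z1,[y1,z1])]])]⟩

/-- classes `0 0 0 1 0 2`, types `C0 C0 C2 S0 C0 S0` -/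
noncomputable def cU6_487 : CertX :=
  ⟨[k4,k4,k6,k16,k4,k32],[(false,k0,[k0,k1,k2,k3,k4,k5])],[[[([z1,z0,z0,z0,z0,z1],z2)],[([z1,z1,z0,z0,z0,z1],z2)],
    []]],
    [.old (.leafM k0 [k1,k2,k3,k4] [] [(k5,k0,z1,[z1]),(k0,k5,z1,[z1])]),
    .old (.leafM k0 [k1,k2,k3,k4,k5,k0] [(z1,[y1,z1])] []),
    .old (.lp [k8,k8,k12,k6,k6,k6] [k2,k2,k2,k2,k0,k0,k3,k3,k3,k3,k3,k3] k0 [[k0,k0,k4],[],[],[k0,k4]] k24 k5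
    [[(k10,k7),(k1,k8)],[(k5,k6),(k11,k7),(k3,k8),(k4,k10)],[(k7,k7),(k8,k7),(k0,k8),(k2,k12)],[(k11,k7),(k4,k10),(k5,
    k10),(k3,k12)],[(k0,k6),(k7,k9),(k8,k9),(k2,k10)],[(k7,k9),(k8,k9),(k0,k10),(k2,k10)],[(k11,k6),(k3,k7),(k4,k9),
    (k5,k9)],[(k6,k6),(k9,k6)],[(k6,k6),(k9,k6)],[(k11,k6),(k3,k7),(k4,k9),(k5,k9)],[(k7,k6),(k8,k6),(k0,k7),(k2,k7)],
    [(k10,k6),(k1,k7)]]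
    [] k0
    [[k1,k0,k0,k0,k0,k1],[k1,k1,k0,k0,k0,k1]]
    [.ref k0 k0 [(z1,[z1])],.ref k1 k0 [(z1,[z1])]])]⟩

/-- classes `0 0 0 1 0 2`, types `C0 C0 C2 S0 C2 C0` -/
noncomputable def cU6_488 : CertX :=
  ⟨[k4,k4,k6,k16,k6,k36],[(false,k0,[k0,k1,k2,k3,k4,k5])],[[[([z1,z1,z1,z0,z0,z1],z2)],[([z1,z0,z1,z0,z0,z1],z2)],
    []]],
    [.old (.leafM k0 [k0,k1,k2,k5] [] [(k3,k4,z1,[y1,z1]),(k4,k3,z1,[y1,z1])]),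
    .old (.leafM k3 [k0,k1,k2,k3,k4,k5] [(z1,[y1,z1])] []),
    .old (.lp [k6,k12,k6,k8,k6,k6] [k3,k3,k0,k0,k3,k3,k2,k2,k3,k3,k3,k3] k0 [[],[],[k0,k0,k0,k0,k0,k2],[],[k0,k0,k0,
    k2]] k24 k5
    [[(k10,k6)],[(k4,k6),(k5,k6),(k8,k6),(k3,k9)],[(k0,k9),(k11,k9),(k7,k10),(k2,k12)],[(k4,k7),(k5,k9),(k8,k9),(k3,
    k12)],[(k0,k6),(k11,k6),(k2,k9),(k7,k9)],[(k0,k6),(k11,k6),(k2,k7),(k7,k7)],[(k4,k7),(k8,k7),(k5,k9),(k3,k10)],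
    [(k9,k7),(k6,k8)],[(k9,k6),(k6,k7)],[(k0,k6),(k11,k6),(k7,k7),(k2,k9)],[(k4,k6),(k5,k6),(k8,k6),(k3,k9)],[(k1,
    k6)]]
    [] k0
    [[k1,k0,k1,k0,k0,k1],[k0,k0,k0,k1,k1,k0]]
    [.ref k1 k0 [(z1,[z1])],.ref k0 k0 [(z1,[y1,z1])]])]⟩

/-- classes `0 0 0 1 0 2`, types `C0 C0 C2 S0 C2 S0` -/
noncomputable def cU6_489 : CertX :=
  ⟨[k4,k4,k6,k16,k6,k32],[(false,k0,[k0,k1,k2,k3,k4,k5])],[[[([z1,z1,z1,z0,z0,z1],z2)],[([z1,z0,z1,z0,z0,z1],z2)],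
    []]],
    [.old (.leafM k0 [k0,k1,k2,k5] [] [(k3,k4,z1,[y1,z1]),(k4,k3,z1,[y1,z1])]),
    .old (.leafM k3 [k0,k1,k2,k3,k4,k5] [(z1,[y1,z1])] []),
    .old (.lp [k6,k8,k12,k6,k6,k6] [k3,k3,k2,k2,k0,k0,k3,k3,k3,k3,k3,k3] k0 [] k24 k5
    [[(k1,k6),(k10,k6)],[(k8,k6),(k3,k7),(k4,k9),(k5,k9)],[(k0,k7),(k7,k7),(k11,k7),(k2,k8)],[(k8,k7),(k3,k8),(k4,
    k10),(k5,k10)],[(k0,k9),(k7,k9),(k11,k9),(k2,k10)],[(k0,k9),(k7,k9),(k11,k9),(k2,k10)],[(k8,k6),(k3,k7),(k4,k9),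
    (k5,k9)],[(k6,k6),(k9,k6)],[(k6,k6),(k9,k6)],[(k0,k6),(k7,k6),(k11,k6),(k2,k7)],[(k8,k6),(k3,k7),(k4,k9),(k5,k9)],
    [(k1,k6),(k10,k6)]]
    [] k0
    [[k0,k2,k0,k0,k0,k0],[k0,k1,k0,k1,k1,k0],[k0,k0,k0,k1,k1,k0]]
    [.contra [z1],.ref k1 k0 [(z1,[y1,z1])],.ref k0 k0 [(z1,[y1,z1])]])]⟩

/-- classes `0 0 0 1 0 2`, types `C0 C2 C0 C0 C0 C0` -/
noncomputable def cU6_490 : CertX :=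
  ⟨[k4,k6,k4,k20,k4,k36],[(false,k0,[k0,k1,k2,k3,k4,k5]),(true,k3,[k3,k2,k1,k0,k5,k4])],[[[([z1,z0,z0,z0,z0,z1],z2)],
    [([z1,z0,z0,z1,z1,z1],z2)],[]]],
    [.old (.leafM k0 [k1,k2,k3,k4] [] [(k5,k0,z1,[z1]),(k0,k5,z1,[z1])]),
    .old (.leafM k0 [k0,k3,k4,k5] [] [(k1,k2,z1,[y1,z1]),(k2,k1,z1,[y1,z1])]),
    .old (.lp [k0,k2,k0,k2,k0,k2] [k1,k1,k0,k0,k1,k1,k0,k0,k1,k1,k0,k0] k0 [] k4 k5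
    [[(k10,k1)],[(k2,k1),(k3,k1),(k7,k1),(k11,k1)],[(k0,k1),(k4,k1),(k5,k1),(k8,k1)],[(k0,k1),(k4,k1),(k5,k1),(k8,
    k1)],[(k2,k1),(k3,k1),(k7,k1),(k11,k1)],[(k2,k1),(k3,k1),(k7,k1),(k11,k1)],[(k0,k1),(k4,k1),(k5,k1),(k8,k1)],[(k9,
    k1)],[(k6,k1)],[(k2,k1),(k3,k1),(k7,k1),(k11,k1)],[(k0,k1),(k4,k1),(k5,k1),(k8,k1)],[(k1,k1)]]
    [] k0
    [[k1,k0,k0,k0,k0,k1],[k0,k1,k1,k0,k0,k0],[k0,k0,k0,k1,k1,k0]]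
    [.ref k0 k0 [(z1,[z1])],.ref k1 k0 [(z1,[y1,z1])],.ref k0 k1 [(z1,[z1])]])]⟩

/-- classes `0 0 0 1 0 2`, types `C0 C2 C0 C0 C0 S0` -/
noncomputable def cU6_491 : CertX :=
  ⟨[k4,k6,k4,k20,k4,k32],[(false,k0,[k0,k1,k2,k3,k4,k5])],[[[([z1,z1,z1,z0,z0,z1],z2)],[([z1,z0,z0,z1,z1,z1],z2)],
    [([z1,z0,z0,z0,z0,z1],z2)],[]]],
    [.old (.leafM k0 [k0,k1,k2,k5] [] [(k3,k4,z1,[y1,z1]),(k4,k3,z1,[y1,z1])]),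
    .old (.leafM k0 [k0,k3,k4,k5] [] [(k1,k2,z1,[y1,z1]),(k2,k1,z1,[y1,z1])]),
    .old (.leafM k0 [k1,k2,k3,k4] [] [(k5,k0,z1,[z1]),(k0,k5,z1,[z1])]),
    .old (.lp [k2,k4,k0,k4,k0,k4] [k1,k1,k0,k0,k2,k2,k0,k0,k2,k2,k0,k0] k0 [] k8 k5
    [[(k1,k2),(k10,k3)],[(k2,k3),(k3,k3),(k7,k3),(k11,k3)],[(k4,k2),(k5,k2),(k8,k2),(k0,k3)],[(k4,k2),(k5,k2),(k8,k2),
    (k0,k3)],[(k2,k2),(k3,k2),(k7,k2),(k11,k2)],[(k2,k2),(k3,k2),(k7,k2),(k11,k2)],[(k4,k2),(k5,k2),(k8,k2),(k0,k3)],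
    [(k9,k2)],[(k6,k2)],[(k2,k2),(k3,k2),(k7,k2),(k11,k2)],[(k4,k2),(k5,k2),(k8,k2),(k0,k3)],[(k1,k3),(k10,k4)]]
    [] k0
    [[k1,k0,k0,k0,k0,k1],[k0,k1,k1,k0,k0,k0],[k0,k0,k0,k1,k1,k0]]
    [.ref k2 k0 [(z1,[z1])],.ref k1 k0 [(z1,[y1,z1])],.ref k0 k0 [(z1,[y1,z1])]])]⟩

/-- classes `0 0 0 1 0 2`, types `C0 C2 C0 C0 C2 C0` -/
noncomputable def cU6_492 : CertX :=
  ⟨[k4,k6,k4,k20,k6,k36],[(false,k0,[k0,k1,k2,k3,k4,k5])],[[[([z1,z1,z0,z0,z0,z1],z2)],[([z1,z0,z0,z1,z1,z1],z2)],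
    []]],
    [.old (.leafM k0 [k1,k2,k3,k4,k5,k0] [(z1,[y1,z1])] []),
    .old (.leafM k0 [k0,k3,k4,k5] [] [(k1,k2,z1,[y1,z1]),(k2,k1,z1,[y1,z1])]),
    .old (.lp [k4,k2,k2,k2,k2,k2] [k0,k0,k1,k1,k1,k1,k1,k1,k1,k1,k1,k1] k0 [] k8 k5
    [[(k10,k3)],[(k2,k3),(k3,k3),(k7,k3),(k8,k3)],[(k4,k2),(k5,k2),(k11,k2),(k0,k3)],[(k4,k2),(k5,k2),(k11,k2),(k0,
    k3)],[(k2,k2),(k3,k2),(k7,k2),(k8,k2)],[(k2,k2),(k3,k2),(k7,k2),(k8,k2)],[(k4,k2),(k5,k2),(k11,k2),(k0,k3)],[(k9,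
    k2)],[(k6,k2)],[(k4,k2),(k5,k2),(k11,k2),(k0,k3)],[(k2,k2),(k3,k2),(k7,k2),(k8,k2)],[(k1,k3)]]
    [] k0
    [[k0,k1,k1,k0,k0,k0],[k0,k0,k1,k1,k1,k0]]
    [.ref k1 k0 [(z1,[y1,z1])],.ref k0 k0 [(z1,[y1,z1])]])]⟩

/-- classes `0 0 0 1 0 2`, types `C0 C2 C0 C0 C2 S0` -/
noncomputable def cU6_493 : CertX :=
  ⟨[k4,k6,k4,k20,k6,k32],[(false,k0,[k0,k1,k2,k3,k4,k5])],[[[([z1,z1,z0,z0,z0,z1],z2)],[([z1,z0,z0,z1,z1,z1],z2)],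
    []]],
    [.old (.leafM k0 [k1,k2,k3,k4,k5,k0] [(z1,[y1,z1])] []),
    .old (.leafM k0 [k0,k3,k4,k5] [] [(k1,k2,z1,[y1,z1]),(k2,k1,z1,[y1,z1])]),
    .old (.lp [k6,k4,k4,k4,k4,k6] [k0,k0,k1,k1,k1,k1,k1,k1,k1,k1,k0,k0] k0 [] k16 k5
    [[(k1,k6),(k10,k6)],[(k2,k5),(k3,k5),(k7,k5),(k8,k5)],[(k4,k4),(k5,k4),(k0,k5),(k11,k5)],[(k4,k4),(k5,k4),(k0,k5),
    (k11,k5)],[(k2,k4),(k3,k4),(k7,k4),(k8,k4)],[(k2,k4),(k3,k4),(k7,k4),(k8,k4)],[(k4,k4),(k5,k4),(k0,k5),(k11,k5)],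
    [(k9,k4)],[(k6,k4)],[(k4,k4),(k5,k4),(k0,k5),(k11,k5)],[(k2,k5),(k3,k5),(k7,k5),(k8,k5)],[(k1,k6),(k10,k6)]]
    [] k0
    [[k0,k1,k1,k0,k0,k0],[k0,k0,k1,k1,k1,k0]]
    [.ref k1 k0 [(z1,[y1,z1])],.ref k0 k0 [(z1,[y1,z1])]])]⟩

/-- classes `0 0 0 1 0 2`, types `C0 C2 C0 S0 C0 S0` -/
noncomputable def cU6_494 : CertX :=
  ⟨[k4,k6,k4,k16,k4,k32],[(false,k0,[k0,k1,k2,k3,k4,k5]),(true,k3,[k3,k2,k1,k0,k5,k4])],[[[([z1,z0,z0,z0,z0,z1],z2)],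
    [([z1,z0,z0,z1,z1,z1],z2)],[]]],
    [.old (.leafM k0 [k1,k2,k3,k4] [] [(k5,k0,z1,[z1]),(k0,k5,z1,[z1])]),
    .old (.leafM k0 [k0,k3,k4,k5] [] [(k1,k2,z1,[y1,z1]),(k2,k1,z1,[y1,z1])]),
    .old (.lp [k14,k20,k12,k16,k12,k18] [k3,k3,k0,k0,k4,k4,k2,k2,k4,k4,k1,k1] k0 [[k0,k0,k0,k0,k0,k0,k0,k0,k4],[],[k0,k0,
    k0,k0,k0,k4],[],[k0,k0,k0,k4],[],[],[],[],[k0,k4]] k48 k5
    [[(k1,k14),(k10,k16)],[(k11,k12),(k7,k15),(k2,k17),(k3,k17)],[(k4,k16),(k5,k16),(k0,k17),(k8,k20)],[(k4,k12),(k5,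
    k16),(k8,k16),(k0,k17)],[(k11,k15),(k2,k16),(k3,k16),(k7,k18)],[(k2,k12),(k7,k14),(k11,k15),(k3,k16)],[(k4,k14),
    (k8,k14),(k0,k15),(k5,k18)],[(k9,k14),(k6,k16)],[(k9,k12),(k6,k14)],[(k7,k14),(k11,k15),(k2,k16),(k3,k20)],[(k0,
    k12),(k4,k15),(k5,k15),(k8,k15)],[(k1,k16),(k10,k18)]]
    [] k0
    [[k1,k0,k0,k0,k0,k1],[k0,k1,k1,k0,k0,k0],[k0,k0,k0,k1,k1,k0]]
    [.ref k0 k0 [(z1,[z1])],.ref k1 k0 [(z1,[y1,z1])],.ref k0 k1 [(z1,[z1])]])]⟩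

/-- the certificates of this file -/
noncomputable def lU6_16 : List CertX :=
  [cU6_382, cU6_383, cU6_384, cU6_385, cU6_386, cU6_387, cU6_388, cU6_389, cU6_390, cU6_391, cU6_392, cU6_393,
      cU6_394, cU6_395, cU6_396, cU6_397, cU6_398, cU6_399, cU6_400, cU6_401, cU6_402, cU6_403, cU6_404,
      cU6_405, cU6_406, cU6_407, cU6_408, cU6_409, cU6_410, cU6_411, cU6_412, cU6_413, cU6_414, cU6_415,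
      cU6_416, cU6_417, cU6_418, cU6_419, cU6_420, cU6_421, cU6_422, cU6_423, cU6_424, cU6_425, cU6_426,
      cU6_427, cU6_428, cU6_429, cU6_430, cU6_431, cU6_432, cU6_433, cU6_434, cU6_435, cU6_436, cU6_437,
      cU6_438, cU6_439, cU6_440, cU6_441, cU6_442, cU6_443, cU6_444, cU6_445, cU6_446, cU6_447, cU6_448,
      cU6_449, cU6_450, cU6_451, cU6_452, cU6_453, cU6_454, cU6_455, cU6_456, cU6_457, cU6_458, cU6_459,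
      cU6_460, cU6_461, cU6_462, cU6_463, cU6_464, cU6_465, cU6_466, cU6_467, cU6_468, cU6_469, cU6_470,
      cU6_471, cU6_472, cU6_473, cU6_474, cU6_475, cU6_476, cU6_477, cU6_478, cU6_479, cU6_480, cU6_481,
      cU6_482, cU6_483, cU6_484, cU6_485, cU6_486, cU6_487, cU6_488, cU6_489, cU6_490, cU6_491, cU6_492,
      cU6_493, cU6_494]

theorem gU6_16 : allF (chkE 6 ttU6) lU6_16 = true := by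
  decide +kernel

end Pool.Agent.Lib_MP_fa6e45
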