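import Pool.Agent.Lib_MP_fa6e45.CXT
import Pool.Agent.Lib_MP_fa6e45.HK

/-!
MP_fa6e45_co, stage 7: certificates (generated by a program).
-/

namespace Pool.Agent.Lib_MP_fa6e45

/-- classes `0 0 0 1 0 2`, types `C0 C2 C0 S0 C2 S0` -/
noncomputable def cU6_495 : CertX :=
  ⟨[k4,k6,k4,k16,k6,k32],[(false,k0,[k0,k1,k2,k3,k4,k5])],[[[([z1,z0,z0,z1,z1,z1],z2)],[([z1,z1,z0,z0,z0,z1],z2)],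
    []]],
    [.old (.leafM k0 [k0,k3,k4,k5] [] [(k1,k2,z1,[y1,z1]),(k2,k1,z1,[y1,z1])]),
    .old (.leafM k0 [k1,k2,k3,k4,k5,k0] [(z1,[y1,z1])] []),
    .old (.lp [k6,k8,k12,k6,k6,k8] [k3,k3,k2,k2,k0,k0,k3,k3,k3,k3,k2,k2] k0 [[],[k0,k0,k4],[],[k4]] k24 k5
    [[(k1,k6),(k10,k7)],[(k7,k6),(k8,k6),(k3,k7),(k2,k11)],[(k5,k6),(k0,k7),(k11,k8),(k4,k10)],[(k11,k8),(k4,k10),(k5,
    k10),(k0,k11)],[(k3,k6),(k7,k9),(k8,k9),(k2,k10)],[(k7,k9),(k8,k9),(k2,k10),(k3,k10)],[(k0,k6),(k11,k7),(k4,k9),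
    (k5,k9)],[(k6,k6),(k9,k6)],[(k6,k6),(k9,k6)],[(k0,k6),(k11,k7),(k4,k9),(k5,k9)],[(k7,k7),(k8,k7),(k2,k8),(k3,k8)],
    [(k1,k7),(k10,k8)]]
    [] k0
    [[k1,k1,k0,k0,k0,k1],[k0,k1,k1,k0,k0,k0]]
    [.ref k1 k0 [(z1,[z1])],.ref k0 k0 [(z1,[y1,z1])]])]⟩

/-- classes `0 0 0 1 0 2`, types `N0 N0 N1 C0 N1 C0` -/
noncomputable def cU6_496 : CertX :=
  ⟨[k12,k12,k13,k20,k13,k36],[(false,k0,[k0,k1,k2,k3,k4,k5])],[[[([z1,z0,z0,z0,z0,z1],z2)],[]]],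
    [.old (.lp [(nat_lit 4488),(nat_lit 1380),(nat_lit 2024),(nat_lit 1380),(nat_lit 1056),(nat_lit 1584)] [k0,k0,
    (nat_lit 1554),(nat_lit 1554),(nat_lit 1232),(nat_lit 1232),(nat_lit 1554),(nat_lit 1554),(nat_lit 1716),
    (nat_lit 1716),(nat_lit 1452),(nat_lit 1452)] k0 [[],[],[k0,k0,k0,k0,k0,k0,k0,k0,(nat_lit 253)],[],[],[],[],[],[],
    [k0,k0,k0,(nat_lit 253)]] (nat_lit 6072) k6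
    [[(k10,(nat_lit 3036))],[(k7,(nat_lit 2934)),(k11,(nat_lit 3036))],[(k8,(nat_lit 1218)),(k4,(nat_lit 1702))],
    [(k11,(nat_lit 1229)),(k7,(nat_lit 1380))],[(k8,(nat_lit 1793)),(k4,(nat_lit 2024))],[(k3,(nat_lit 1702)),(k5,
    (nat_lit 2024))],[(k2,(nat_lit 1380)),(k0,(nat_lit 2934))],[(k9,(nat_lit 1218))],[(k6,(nat_lit 1218))],[(k3,
    (nat_lit 1218)),(k5,(nat_lit 1793))],[(k2,(nat_lit 1229)),(k0,(nat_lit 3036))],[(k1,(nat_lit 3036))]]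
    [] k0
    [[k0,k1,k0,k1,k1,k0],[k0,k0,k2,k0,k0,k0]]
    [.contra [y1,y1,z1],.contra [z1]]),
    .old (.lp [k4,k4,k4,k6,k2,k2] [k1,k1,k1,k1,k1,k1,k0,k0,k2,k2,k2,k2] k0 [] k12 k5
    [[(k10,k3)],[(k11,k3),(k7,k5)],[(k8,k3),(k4,k4)],[(k11,k3),(k7,k5)],[(k8,k3),(k4,k4)],[(k3,k4),(k5,k4)],[(k0,k5),
    (k2,k5)],[(k9,k4)],[(k6,k4)],[(k3,k3),(k5,k3)],[(k0,k3),(k2,k3)],[(k1,k3)]]
    [] k0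
    [[k1,k0,k0,k0,k0,k1],[k0,k0,k2,k0,k0,k0]]
    [.ref k0 k0 [(z1,[z1])],.contra [z1]])]⟩

/-- classes `0 0 0 1 0 2`, types `N0 N0 N1 C0 N1 S0` -/
noncomputable def cU6_497 : CertX :=
  ⟨[k12,k12,k13,k20,k13,k32],[(false,k0,[k0,k1,k2,k3,k4,k5])],[[[([z1,z0,z0,z0,z0,z1],z2)],[]]],
    [.old (.lp [(nat_lit 396),(nat_lit 440),(nat_lit 660),(nat_lit 440),(nat_lit 360),(nat_lit 1584)] [(nat_lit 594),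
    (nat_lit 594),(nat_lit 572),(nat_lit 572),(nat_lit 462),(nat_lit 462),(nat_lit 572),(nat_lit 572),(nat_lit 612),
    (nat_lit 612),k0,k0] k0 [[],[],[k0,k0,k0,k0,k0,k0,k0,k0,k165],[],[],[],[],[],[],[k0,k0,k0,k165]] (nat_lit 1980) k6
    [[(k1,(nat_lit 396)),(k10,(nat_lit 990))],[(k7,(nat_lit 418)),(k11,(nat_lit 990))],[(k8,(nat_lit 400)),(k4,
    (nat_lit 550))],[(k7,(nat_lit 440)),(k11,(nat_lit 847))],[(k4,(nat_lit 660)),(k8,(nat_lit 675))],[(k3,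
    (nat_lit 550)),(k5,(nat_lit 660))],[(k0,(nat_lit 418)),(k2,(nat_lit 440))],[(k9,(nat_lit 400))],[(k6,
    (nat_lit 400))],[(k3,(nat_lit 400)),(k5,(nat_lit 675))],[(k2,(nat_lit 847)),(k0,(nat_lit 990))],[(k1,
    (nat_lit 990)),(k10,(nat_lit 1584))]]
    [] k0
    [[k0,k1,k0,k1,k1,k0],[k0,k0,k2,k0,k0,k0]]
    [.contra [y1,y1,z1],.contra [z1]]),
    .old (.lp [k6,k12,k8,k8,k4,k6] [k3,k3,k0,k0,k2,k2,k2,k2,k4,k4,k3,k3] k0 [] k24 k5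
    [[(k1,k6),(k10,k6)],[(k11,k6),(k7,k7)],[(k8,k8),(k4,k10)],[(k11,k9),(k7,k10)],[(k8,k6),(k4,k8)],[(k5,k8),(k3,
    k10)],[(k0,k7),(k2,k10)],[(k9,k6)],[(k6,k6)],[(k5,k6),(k3,k8)],[(k0,k6),(k2,k9)],[(k1,k6),(k10,k6)]]
    [] k0
    [[k1,k0,k0,k0,k0,k1],[k0,k0,k2,k0,k0,k0]]
    [.ref k0 k0 [(z1,[z1])],.contra [z1]])]⟩

/-- classes `0 0 0 1 0 2`, types `N0 N0 N1 C0 N2 C0` -/
noncomputable def cU6_498 : CertX :=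
  ⟨[k12,k12,k13,k20,k14,k36],[],[[[]]],
    [.old (.lp [k2,k2,k4,k2,k2,k2] [k1,k1,k1,k1,k0,k0,k1,k1,k1,k1,k1,k1] k0 [] k8 k5
    [[(k10,k2)],[(k7,k2),(k8,k2)],[(k11,k2),(k4,k3)],[(k7,k2),(k8,k2)],[(k11,k3),(k4,k4)],[(k3,k3),(k5,k4)],[(k0,k2),
    (k2,k2)],[(k9,k2)],[(k6,k2)],[(k0,k2),(k2,k2)],[(k3,k2),(k5,k3)],[(k1,k2)]]
    [] k0
    []
    [])]⟩

/-- classes `0 0 0 1 0 2`, types `N0 N0 N1 C0 N2 S0` -/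
noncomputable def cU6_499 : CertX :=
  ⟨[k12,k12,k13,k20,k14,k32],[],[[[]]],
    [.old (.lp [k2,k2,k4,k2,k2,k2] [k1,k1,k1,k1,k0,k0,k1,k1,k1,k1,k1,k1] k0 [] k8 k5
    [[(k1,k2),(k10,k2)],[(k7,k2),(k8,k2)],[(k11,k2),(k4,k3)],[(k7,k2),(k8,k2)],[(k11,k3),(k4,k4)],[(k3,k3),(k5,k4)],
    [(k0,k2),(k2,k2)],[(k9,k2)],[(k6,k2)],[(k0,k2),(k2,k2)],[(k3,k2),(k5,k3)],[(k1,k2),(k10,k2)]]
    [] k0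
    []
    [])]⟩

/-- classes `0 0 0 1 0 2`, types `N0 N0 N1 S0 N1 C0` -/
noncomputable def cU6_500 : CertX :=
  ⟨[k12,k12,k13,k16,k13,k36],[(false,k0,[k0,k1,k2,k3,k4,k5])],[[[([z1,z0,z0,z0,z0,z1],z2)],[]]],
    [.old (.lp [k36,k40,k60,k36,k36,k144] [k54,k54,k52,k52,k42,k42,k54,k54,k54,k54,k0,k0] k0 [[],[],[k0,k0,k0,k0,k0,k0,k0,
    k0,k15],[],[],[],[],[],[],[k0,k0,k0,k15]] k180 k6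
    [[(k10,k90)],[(k7,k36),(k11,k90)],[(k8,k38),(k4,k50)],[(k7,k38),(k11,k77)],[(k4,k60),(k8,k63)],[(k3,k50),(k5,
    k60)],[(k0,k36),(k2,k38)],[(k6,k36),(k9,k36)],[(k6,k36),(k9,k36)],[(k3,k38),(k5,k63)],[(k2,k77),(k0,k90)],[(k1,
    k90)]]
    [] k0
    [[k0,k1,k0,k1,k1,k0],[k0,k0,k2,k0,k0,k0]]
    [.contra [y1,y1,z1],.contra [z1]]),
    .old (.lp [k6,k12,k8,k6,k6,k6] [k3,k3,k0,k0,k2,k2,k3,k3,k3,k3,k3,k3] k0 [] k24 k5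
    [[(k10,k6)],[(k7,k6),(k11,k6)],[(k8,k9),(k4,k10)],[(k7,k9),(k11,k9)],[(k8,k7),(k4,k8)],[(k5,k8),(k3,k10)],[(k0,
    k6),(k2,k9)],[(k6,k6),(k9,k6)],[(k6,k6),(k9,k6)],[(k5,k7),(k3,k9)],[(k0,k6),(k2,k9)],[(k1,k6)]]
    [] k0
    [[k1,k0,k0,k0,k0,k1],[k0,k0,k2,k0,k0,k0]]
    [.ref k0 k0 [(z1,[z1])],.contra [z1]])]⟩

/-- classes `0 0 0 1 0 2`, types `N0 N0 N1 S0 N1 S0` -/
noncomputable def cU6_501 : CertX :=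
  ⟨[k12,k12,k13,k16,k13,k32],[(false,k0,[k0,k1,k2,k3,k4,k5])],[[[([z1,z0,z0,z0,z0,z1],z2)],[]]],
    [.old (.lp [(nat_lit 1056),(nat_lit 300),(nat_lit 440),(nat_lit 264),(nat_lit 264),(nat_lit 264)] [k0,k0,(nat_lit 378),
    (nat_lit 378),(nat_lit 308),(nat_lit 308),(nat_lit 396),(nat_lit 396),(nat_lit 396),(nat_lit 396),(nat_lit 396),
    (nat_lit 396)] k0 [[k0,k0,k0,k0,k55],[],[],[],[],[k0,k55]] (nat_lit 1320) k6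
    [[(k10,(nat_lit 660)),(k1,(nat_lit 1056))],[(k7,(nat_lit 605)),(k11,(nat_lit 660))],[(k8,(nat_lit 282)),(k4,
    (nat_lit 425))],[(k7,(nat_lit 282)),(k11,(nat_lit 282))],[(k8,(nat_lit 352)),(k4,(nat_lit 440))],[(k3,
    (nat_lit 425)),(k5,(nat_lit 440))],[(k2,(nat_lit 282)),(k0,(nat_lit 605))],[(k6,(nat_lit 264)),(k9,
    (nat_lit 264))],[(k6,(nat_lit 264)),(k9,(nat_lit 264))],[(k3,(nat_lit 282)),(k5,(nat_lit 352))],[(k2,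
    (nat_lit 282)),(k0,(nat_lit 660))],[(k10,(nat_lit 264)),(k1,(nat_lit 660))]]
    [] k0
    [[k0,k1,k0,k1,k1,k0],[k0,k0,k2,k0,k0,k0]]
    [.contra [y1,y1,z1],.contra [z1]]),
    .old (.lp [k6,k12,k8,k6,k6,k6] [k3,k3,k0,k0,k2,k2,k3,k3,k3,k3,k3,k3] k0 [] k24 k5
    [[(k1,k6),(k10,k6)],[(k7,k6),(k11,k6)],[(k8,k9),(k4,k10)],[(k7,k9),(k11,k9)],[(k8,k7),(k4,k8)],[(k5,k8),(k3,k10)],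
    [(k0,k6),(k2,k9)],[(k6,k6),(k9,k6)],[(k6,k6),(k9,k6)],[(k5,k7),(k3,k9)],[(k0,k6),(k2,k9)],[(k1,k6),(k10,k6)]]
    [] k0
    [[k1,k0,k0,k0,k0,k1],[k0,k0,k2,k0,k0,k0]]
    [.ref k0 k0 [(z1,[z1])],.contra [z1]])]⟩

/-- classes `0 0 0 1 0 2`, types `N0 N0 N1 S0 N2 C0` -/
noncomputable def cU6_502 : CertX :=
  ⟨[k12,k12,k13,k16,k14,k36],[],[[[]]],
    [.old (.lp [k2,k2,k4,k2,k2,k2] [k1,k1,k1,k1,k0,k0,k1,k1,k1,k1,k1,k1] k0 [] k8 k5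
    [[(k10,k2)],[(k7,k2),(k8,k2)],[(k11,k2),(k4,k3)],[(k7,k2),(k8,k2)],[(k11,k3),(k4,k4)],[(k3,k3),(k5,k4)],[(k0,k2),
    (k2,k2)],[(k6,k2),(k9,k2)],[(k6,k2),(k9,k2)],[(k0,k2),(k2,k2)],[(k3,k2),(k5,k3)],[(k1,k2)]]
    [] k0
    []
    [])]⟩

/-- classes `0 0 0 1 0 2`, types `N0 N0 N1 S0 N2 S0` -/
noncomputable def cU6_503 : CertX :=
  ⟨[k12,k12,k13,k16,k14,k32],[],[[[]]],
    [.old (.lp [k2,k2,k4,k2,k2,k2] [k1,k1,k1,k1,k0,k0,k1,k1,k1,k1,k1,k1] k0 [] k8 k5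
    [[(k1,k2),(k10,k2)],[(k7,k2),(k8,k2)],[(k11,k2),(k4,k3)],[(k7,k2),(k8,k2)],[(k11,k3),(k4,k4)],[(k3,k3),(k5,k4)],
    [(k0,k2),(k2,k2)],[(k6,k2),(k9,k2)],[(k6,k2),(k9,k2)],[(k0,k2),(k2,k2)],[(k3,k2),(k5,k3)],[(k1,k2),(k10,k2)]]
    [] k0
    []
    [])]⟩

/-- classes `0 0 0 1 0 2`, types `N0 N0 N2 C0 N1 C0` -/
noncomputable def cU6_504 : CertX :=
  ⟨[k12,k12,k14,k20,k13,k36],[(false,k0,[k0,k1,k2,k3,k4,k5])],[[[([z1,z0,z0,z0,z0,z1],z2)],[]]],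
    [.old (.leafM k1 [k3,k4,k1,k2] [] [(k5,k0,z1,[z1]),(k0,k5,z1,[z1])]),
    .old (.lp [k2,k2,k2,k2,k2,k2] [k0,k0,k0,k0,k0,k0,k0,k0,k0,k0,k0,k0] k0 [] k8 k5
    [[(k10,k2)],[(k4,k2),(k11,k2)],[(k7,k2),(k8,k2)],[(k4,k2),(k11,k2)],[(k7,k2),(k8,k2)],[(k0,k2),(k2,k2)],[(k3,k2),
    (k5,k2)],[(k9,k2)],[(k6,k2)],[(k3,k2),(k5,k2)],[(k0,k2),(k2,k2)],[(k1,k2)]]
    [] k0
    [[k1,k0,k0,k0,k0,k1]]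
    [.ref k0 k0 [(z1,[z1])]])]⟩

/-- classes `0 0 0 1 0 2`, types `N0 N0 N2 C0 N1 S0` -/
noncomputable def cU6_505 : CertX :=
  ⟨[k12,k12,k14,k20,k13,k32],[(false,k0,[k0,k1,k2,k3,k4,k5])],[[[([z1,z0,z0,z0,z0,z1],z2)],[]]],
    [.old (.leafM k1 [k3,k4,k1,k2] [] [(k5,k0,z1,[z1]),(k0,k5,z1,[z1])]),
    .old (.lp [k2,k2,k2,k2,k2,k2] [k0,k0,k0,k0,k0,k0,k0,k0,k0,k0,k0,k0] k0 [] k8 k5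
    [[(k1,k2),(k10,k2)],[(k4,k2),(k11,k2)],[(k7,k2),(k8,k2)],[(k4,k2),(k11,k2)],[(k7,k2),(k8,k2)],[(k0,k2),(k2,k2)],
    [(k3,k2),(k5,k2)],[(k9,k2)],[(k6,k2)],[(k3,k2),(k5,k2)],[(k0,k2),(k2,k2)],[(k1,k2),(k10,k2)]]
    [] k0
    [[k1,k0,k0,k0,k0,k1]]
    [.ref k0 k0 [(z1,[z1])]])]⟩

/-- classes `0 0 0 1 0 2`, types `N0 N0 N2 C0 N2 C0` -/
noncomputable def cU6_506 : CertX :=
  ⟨[k12,k12,k14,k20,k14,k36],[(false,k0,[k0,k1,k2,k3,k4,k5])],[[[([z1,z0,z1,z0,z0,z1],z2)],[]]],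
    [.old (.leafM k3 [k0,k1,k2,k3,k4,k5] [(z1,[y1,z1])] []),
    .old (.lp [k2,k2,k2,k4,k2,k2] [k1,k1,k1,k1,k1,k1,k0,k0,k1,k1,k1,k1] k0 [] k8 k5
    [[(k10,k2)],[(k4,k2),(k8,k2)],[(k11,k2),(k7,k3)],[(k4,k2),(k8,k2)],[(k11,k2),(k7,k3)],[(k0,k2),(k2,k2)],[(k3,k3),
    (k5,k3)],[(k9,k3)],[(k6,k3)],[(k0,k2),(k2,k2)],[(k3,k2),(k5,k2)],[(k1,k2)]]
    [] k0
    [[k1,k0,k1,k0,k0,k1]]
    [.ref k0 k0 [(z1,[z1])]])]⟩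

/-- classes `0 0 0 1 0 2`, types `N0 N0 N2 C0 N2 S0` -/
noncomputable def cU6_507 : CertX :=
  ⟨[k12,k12,k14,k20,k14,k32],[(false,k0,[k0,k1,k2,k3,k4,k5])],[[[([z1,z0,z1,z0,z0,z1],z2)],[]]],
    [.old (.leafM k3 [k0,k1,k2,k3,k4,k5] [(z1,[y1,z1])] []),
    .old (.lp [k2,k4,k2,k2,k2,k2] [k1,k1,k0,k0,k1,k1,k1,k1,k1,k1,k1,k1] k0 [] k8 k5
    [[(k1,k2),(k10,k2)],[(k4,k2),(k8,k2)],[(k7,k3),(k11,k3)],[(k4,k3),(k8,k3)],[(k7,k2),(k11,k2)],[(k0,k2),(k2,k3)],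
    [(k5,k2),(k3,k3)],[(k9,k2)],[(k6,k2)],[(k0,k2),(k2,k3)],[(k5,k2),(k3,k3)],[(k1,k2),(k10,k2)]]
    [] k0
    [[k1,k0,k1,k0,k0,k1]]
    [.ref k0 k0 [(z1,[z1])]])]⟩

/-- classes `0 0 0 1 0 2`, types `N0 N0 N2 S0 N1 C0` -/
noncomputable def cU6_508 : CertX :=
  ⟨[k12,k12,k14,k16,k13,k36],[(false,k0,[k0,k1,k2,k3,k4,k5])],[[[([z1,z0,z0,z0,z0,z1],z2)],[]]],
    [.old (.leafM k1 [k3,k4,k1,k2] [] [(k5,k0,z1,[z1]),(k0,k5,z1,[z1])]),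
    .old (.lp [k2,k2,k2,k2,k2,k2] [k0,k0,k0,k0,k0,k0,k0,k0,k0,k0,k0,k0] k0 [] k8 k5
    [[(k10,k2)],[(k4,k2),(k11,k2)],[(k7,k2),(k8,k2)],[(k4,k2),(k11,k2)],[(k7,k2),(k8,k2)],[(k0,k2),(k2,k2)],[(k3,k2),
    (k5,k2)],[(k6,k2),(k9,k2)],[(k6,k2),(k9,k2)],[(k3,k2),(k5,k2)],[(k0,k2),(k2,k2)],[(k1,k2)]]
    [] k0
    [[k1,k0,k0,k0,k0,k1]]
    [.ref k0 k0 [(z1,[z1])]])]⟩

/-- classes `0 0 0 1 0 2`, types `N0 N0 N2 S0 N1 S0` -/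
noncomputable def cU6_509 : CertX :=
  ⟨[k12,k12,k14,k16,k13,k32],[(false,k0,[k0,k1,k2,k3,k4,k5])],[[[([z1,z0,z0,z0,z0,z1],z2)],[]]],
    [.old (.leafM k1 [k3,k4,k1,k2] [] [(k5,k0,z1,[z1]),(k0,k5,z1,[z1])]),
    .old (.lp [k2,k2,k2,k2,k2,k2] [k0,k0,k0,k0,k0,k0,k0,k0,k0,k0,k0,k0] k0 [] k8 k5
    [[(k1,k2),(k10,k2)],[(k4,k2),(k11,k2)],[(k7,k2),(k8,k2)],[(k4,k2),(k11,k2)],[(k7,k2),(k8,k2)],[(k0,k2),(k2,k2)],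
    [(k3,k2),(k5,k2)],[(k6,k2),(k9,k2)],[(k6,k2),(k9,k2)],[(k3,k2),(k5,k2)],[(k0,k2),(k2,k2)],[(k1,k2),(k10,k2)]]
    [] k0
    [[k1,k0,k0,k0,k0,k1]]
    [.ref k0 k0 [(z1,[z1])]])]⟩

/-- classes `0 0 0 1 0 2`, types `N0 N0 N2 S0 N2 C0` -/
noncomputable def cU6_510 : CertX :=
  ⟨[k12,k12,k14,k16,k14,k36],[(false,k0,[k0,k1,k2,k3,k4,k5])],[[[([z1,z0,z1,z0,z0,z1],z2)],[]]],
    [.old (.leafM k3 [k0,k1,k2,k3,k4,k5] [(z1,[y1,z1])] []),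
    .old (.lp [k2,k4,k2,k2,k2,k2] [k1,k1,k0,k0,k1,k1,k1,k1,k1,k1,k1,k1] k0 [] k8 k5
    [[(k10,k2)],[(k4,k2),(k8,k2)],[(k7,k3),(k11,k3)],[(k4,k3),(k8,k3)],[(k7,k2),(k11,k2)],[(k0,k2),(k2,k3)],[(k5,k2),
    (k3,k3)],[(k6,k2),(k9,k2)],[(k6,k2),(k9,k2)],[(k0,k2),(k2,k3)],[(k5,k2),(k3,k3)],[(k1,k2)]]
    [] k0
    [[k1,k0,k1,k0,k0,k1]]
    [.ref k0 k0 [(z1,[z1])]])]⟩

/-- classes `0 0 0 1 0 2`, types `N0 N0 N2 S0 N2 S0` -/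
noncomputable def cU6_511 : CertX :=
  ⟨[k12,k12,k14,k16,k14,k32],[(false,k0,[k0,k1,k2,k3,k4,k5])],[[[([z1,z0,z1,z0,z0,z1],z2)],[]]],
    [.old (.leafM k3 [k0,k1,k2,k3,k4,k5] [(z1,[y1,z1])] []),
    .old (.lp [k4,k2,k2,k2,k2,k2] [k0,k0,k1,k1,k1,k1,k1,k1,k1,k1,k1,k1] k0 [] k8 k5
    [[(k10,k3),(k1,k4)],[(k4,k3),(k8,k3)],[(k7,k2),(k11,k2)],[(k4,k2),(k8,k2)],[(k7,k2),(k11,k2)],[(k2,k2),(k0,k3)],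
    [(k3,k2),(k5,k2)],[(k6,k2),(k9,k2)],[(k6,k2),(k9,k2)],[(k2,k2),(k0,k3)],[(k3,k2),(k5,k2)],[(k10,k2),(k1,k3)]]
    [] k0
    [[k0,k1,k0,k1,k1,k0]]
    [.ref k0 k0 [(z1,[y1,z1])]])]⟩

/-- classes `0 0 0 1 0 2`, types `N0 N1 N0 C0 N1 C0` -/
noncomputable def cU6_512 : CertX :=
  ⟨[k12,k13,k12,k20,k13,k36],[(false,k0,[k0,k1,k2,k3,k4,k5]),(true,k3,[k3,k2,k1,k0,k5,k4])],[[[([z1,z0,z0,z0,z0,z1],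
    z2)],[]]],
    [.old (.lp [k8,k42,k40,k6,k54,k88] [k60,k60,k43,k43,k44,k44,k61,k61,k37,k37,k40,k0] k0 [[],[k0,k0,k0,k0,k0,k0,k0,k0,k0,
    k24],[],[],[k0,k0,k0,k0,k0,k0,k0,k0,k60],[],[],[],[k24],[k0,k0,k0,k0,k0,k60]] k120 k6
    [[(k10,k28)],[(k5,k24),(k11,k92)],[(k8,k24),(k2,k42)],[(k7,k24),(k3,k42)],[(k0,k24),(k4,k40)],[(k11,k24),(k5,
    k40)],[(k2,k24),(k8,k90)],[(k9,k30)],[(k6,k30)],[(k3,k24),(k7,k90)],[(k4,k24),(k0,k92)],[(k1,k28)]]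
    [] k0
    [[k1,k0,k1,k0,k0,k1],[k1,k0,k2,k0,k0,k1],[k0,k2,k0,k0,k0,k0],[k0,k1,k0,k1,k1,k0],[k0,k0,k2,k0,k0,k0]]
    [.contra [z1,y1],.contra [z1,y1],.contra [z1],.contra [y1,y1,z1],.contra [z1]]),
    .old (.lp [k12,k8,k8,k14,k0,k4] [k1,k1,k3,k3,k3,k3,k0,k0,k7,k7,k5,k5] k0 [[k0,k0,k0,k0,k0,k0,k0,k0,k2],[],[],[],[],[],
    [],[],[],[k0,k2]] k24 k5
    [[(k10,k8)],[(k11,k6),(k5,k10)],[(k8,k6),(k2,k8)],[(k3,k8),(k7,k11)],[(k4,k8),(k0,k10)],[(k11,k6),(k5,k8)],[(k8,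
    k7),(k2,k11)],[(k9,k7)],[(k6,k7)],[(k3,k6),(k7,k7)],[(k0,k6),(k4,k6)],[(k1,k8)]]
    [] k0
    [[k1,k0,k0,k0,k0,k1],[k0,k2,k0,k0,k0,k0],[k0,k0,k2,k0,k0,k0],[k0,k0,k0,k1,k1,k0]]
    [.ref k0 k0 [(z1,[z1])],.contra [z1],.contra [z1],.ref k0 k1 [(z1,[z1])]])]⟩

/-- classes `0 0 0 1 0 2`, types `N0 N1 N0 C0 N1 S0` -/
noncomputable def cU6_513 : CertX :=
  ⟨[k12,k13,k12,k20,k13,k32],[(false,k0,[k0,k1,k2,k3,k4,k5])],[[[([z1,z1,z1,z0,z0,z1],z2)],[([z1,z0,z0,z0,z0,z1],z2)],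
    []]],
    [.old (.lp [(nat_lit 1416),(nat_lit 1298),(nat_lit 3540),(nat_lit 3600),(nat_lit 2242),(nat_lit 1770)] [(nat_lit 1092),
    (nat_lit 1092),(nat_lit 1151),(nat_lit 1151),k30,k30,k0,k0,(nat_lit 679),(nat_lit 679),(nat_lit 915),
    (nat_lit 915)] k0 [[k0,k0,(nat_lit 1062)],[k0,k0,k0,k0,k0,k0,k0,k0,k0,(nat_lit 354)],[],[k0,(nat_lit 1062)],[k0,
    k0,k0,k0,k0,k0,k0,k0,(nat_lit 1239)],[],[],[],[(nat_lit 354)],[k0,k0,k0,k0,k0,(nat_lit 1239)]] (nat_lit 7080) k6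
    [[(k1,(nat_lit 1416)),(k10,(nat_lit 1593))],[(k5,(nat_lit 1416)),(k11,(nat_lit 1947))],[(k8,(nat_lit 1416)),(k2,
    (nat_lit 2360))],[(k3,(nat_lit 2360)),(k7,(nat_lit 2449))],[(k0,(nat_lit 1416)),(k4,(nat_lit 3540))],[(k11,
    (nat_lit 1416)),(k5,(nat_lit 3540))],[(k2,(nat_lit 2449)),(k8,(nat_lit 4160))],[(k9,(nat_lit 2921))],[(k6,
    (nat_lit 2921))],[(k3,(nat_lit 1416)),(k7,(nat_lit 4160))],[(k4,(nat_lit 1416)),(k0,(nat_lit 1947))],[(k1,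
    (nat_lit 1593)),(k10,(nat_lit 1770))]]
    [] k0
    [[k1,k0,k0,k0,k0,k1],[k1,k0,k1,k0,k0,k1],[k0,k2,k0,k0,k0,k0],[k0,k1,k0,k1,k1,k0]]
    [.contra [y1,z1],.contra [y1,z1],.contra [z1],.contra [z1,z1,y1]]),
    .old (.lp [k94,k108,k26,k96,k0,k146] [k26,k26,k19,k19,k60,k60,k25,k25,k73,k73,k0,k0] k0 [[k0,k0,k12],[],[k0,k0,k0,k0,
    k54],[k0,k12],[k0,k0,k0,k0,k0,k0,k0,k0,k24],[k0,k0,k0,k54],[],[],[],[k0,k0,k0,k0,k0,k24]] (nat_lit 240) k6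
    [[(k1,k94),(k10,k120)],[(k5,k48),(k11,k120)],[(k8,k54),(k2,k120)],[(k7,k48),(k3,k120)],[(k0,k48),(k4,k80)],[(k11,
    k62),(k5,k80)],[(k2,k48),(k8,k72)],[(k9,k48)],[(k6,k48)],[(k3,k54),(k7,k72)],[(k4,k62),(k0,k120)],[(k1,k120),(k10,
    k146)]]
    [] k0
    [[k1,k0,k1,k0,k0,k1],[k0,k1,k0,k1,k1,k0],[k0,k0,k2,k0,k0,k0],[k0,k0,k0,k1,k1,k0]]
    [.contra [z1,y1],.contra [y1,y1,z1],.contra [z1],.contra [y1,y1,z1]]),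
    .old (.lp [k6,k10,k8,k12,k0,k10] [k3,k3,k1,k1,k2,k2,k0,k0,k6,k6,k1,k1] k0 [[k0,k0,k0,k0,k0,k0,k0,k0,k2],[],[],[],[],
    [],[],[],[],[k0,k2]] k24 k5
    [[(k1,k6),(k10,k8)],[(k11,k6),(k5,k7)],[(k8,k7),(k2,k10)],[(k3,k10),(k7,k11)],[(k0,k7),(k4,k8)],[(k5,k8),(k11,
    k9)],[(k8,k6),(k2,k11)],[(k9,k6)],[(k6,k6)],[(k7,k6),(k3,k7)],[(k0,k6),(k4,k9)],[(k1,k8),(k10,k10)]]
    [] k0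
    [[k1,k0,k0,k0,k0,k1],[k0,k2,k0,k0,k0,k0],[k0,k0,k2,k0,k0,k0],[k0,k0,k0,k1,k1,k0]]
    [.ref k1 k0 [(z1,[z1])],.contra [z1],.contra [z1],.ref k0 k0 [(z1,[y1,z1])]])]⟩

/-- classes `0 0 0 1 0 2`, types `N0 N1 N0 C0 N2 C0` -/
noncomputable def cU6_514 : CertX :=
  ⟨[k12,k13,k12,k20,k14,k36],[],[[[]]],
    [.old (.lp [k4,k4,k6,k4,k2,k2] [k1,k1,k1,k1,k0,k0,k1,k1,k2,k2,k2,k2] k0 [[k0,k0,k2],[],[],[k0,k2]] k12 k5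
    [[(k10,k3)],[(k5,k3),(k8,k3)],[(k11,k3),(k2,k6)],[(k7,k4),(k3,k6)],[(k0,k3),(k4,k6)],[(k8,k4),(k5,k6)],[(k11,k3),
    (k2,k4)],[(k9,k3)],[(k6,k3)],[(k0,k3),(k4,k4)],[(k3,k3),(k7,k3)],[(k1,k3)]]
    [] k0
    []
    [])]⟩

/-- classes `0 0 0 1 0 2`, types `N0 N1 N0 C0 N2 S0` -/
noncomputable def cU6_515 : CertX :=
  ⟨[k12,k13,k12,k20,k14,k32],[],[[[]]],
    [.old (.lp [k6,k10,k10,k6,k6,k6] [k2,k2,k0,k0,k0,k0,k2,k2,k2,k2,k2,k2] k0 [[k0,k0,k2],[],[k0,k0,k0,k0,k2],[k0,k2],[],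
    [k0,k0,k0,k2]] k24 k5
    [[(k1,k6),(k10,k6)],[(k5,k6),(k8,k6)],[(k11,k8),(k2,k12)],[(k7,k6),(k3,k12)],[(k0,k6),(k4,k12)],[(k8,k8),(k5,
    k12)],[(k2,k6),(k11,k6)],[(k9,k6)],[(k6,k6)],[(k0,k6),(k4,k8)],[(k7,k6),(k3,k8)],[(k1,k6),(k10,k6)]]
    [] k0
    []
    [])]⟩

/-- classes `0 0 0 1 0 2`, types `N0 N1 N0 S0 N1 S0` -/
noncomputable def cU6_516 : CertX :=
  ⟨[k12,k13,k12,k16,k13,k32],[(false,k0,[k0,k1,k2,k3,k4,k5]),(true,k3,[k3,k2,k1,k0,k5,k4])],[[[([z1,z0,z0,z0,z0,z1],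
    z2)],[]]],
    [.old (.lp [k170,k60,k74,k48,k48,k70] [k0,k0,k55,k55,k48,k48,k61,k61,k61,k61,k50,k50] k0 [[k0,k0,k60],[],[k0,k0,k0,k0,
    k6],[k0,k60],[k0,k0,k0,k0,k0,k0,k0,k0,k24],[k0,k0,k0,k6],[],[],[],[k0,k0,k0,k0,k0,k24]] (nat_lit 240) k6
    [[(k10,k120),(k1,k170)],[(k5,k62),(k11,k120)],[(k8,k54),(k2,k120)],[(k7,k48),(k3,k120)],[(k0,k62),(k4,k80)],[(k11,
    k48),(k5,k80)],[(k2,k48),(k8,k72)],[(k6,k48),(k9,k48)],[(k6,k48),(k9,k48)],[(k3,k54),(k7,k72)],[(k4,k48),(k0,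
    k120)],[(k10,k70),(k1,k120)]]
    [] k0
    [[k1,k0,k1,k0,k0,k1],[k0,k1,k0,k1,k1,k0],[k0,k0,k2,k0,k0,k0],[k0,k0,k0,k1,k1,k0]]
    [.contra [z1,y1],.contra [y1,y1,z1],.contra [z1],.contra [y1,y1,z1]]),
    .old (.lp [k10,k10,k8,k6,k6,k6] [k0,k0,k0,k0,k1,k1,k2,k2,k2,k2,k2,k2] k0 [[k0,k0,k0,k0,k0,k0,k0,k0,k2],[],[],[],[],[],
    [],[],[],[k0,k2]] k24 k5
    [[(k10,k8),(k1,k10)],[(k11,k6),(k5,k9)],[(k2,k10),(k8,k10)],[(k7,k8),(k3,k10)],[(k4,k8),(k0,k9)],[(k11,k7),(k5,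
    k8)],[(k8,k6),(k2,k8)],[(k6,k6),(k9,k6)],[(k6,k6),(k9,k6)],[(k7,k6),(k3,k10)],[(k0,k6),(k4,k7)],[(k10,k6),(k1,
    k8)]]
    [] k0
    [[k1,k0,k0,k0,k0,k1],[k0,k2,k0,k0,k0,k0],[k0,k0,k2,k0,k0,k0],[k0,k0,k0,k1,k1,k0]]
    [.ref k0 k0 [(z1,[z1])],.contra [z1],.contra [z1],.ref k0 k1 [(z1,[z1])]])]⟩

/-- classes `0 0 0 1 0 2`, types `N0 N1 N0 S0 N2 S0` -/
noncomputable def cU6_517 : CertX :=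
  ⟨[k12,k13,k12,k16,k14,k32],[],[[[]]],
    [.old (.lp [k6,k10,k10,k6,k6,k6] [k2,k2,k0,k0,k0,k0,k2,k2,k2,k2,k2,k2] k0 [[k0,k0,k2],[],[k0,k0,k0,k0,k2],[k0,k2],[],
    [k0,k0,k0,k2]] k24 k5
    [[(k1,k6),(k10,k6)],[(k5,k6),(k8,k6)],[(k11,k8),(k2,k12)],[(k7,k6),(k3,k12)],[(k0,k6),(k4,k12)],[(k8,k8),(k5,
    k12)],[(k2,k6),(k11,k6)],[(k6,k6),(k9,k6)],[(k6,k6),(k9,k6)],[(k0,k6),(k4,k8)],[(k7,k6),(k3,k8)],[(k1,k6),(k10,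
    k6)]]
    [] k0
    []
    [])]⟩

/-- classes `0 0 0 1 0 2`, types `N0 N1 N2 C0 N0 C0` -/
noncomputable def cU6_518 : CertX :=
  ⟨[k12,k13,k14,k20,k12,k36],[],[[[]]],
    [.old (.lp [k2,k4,k2,k2,k2,k2] [k1,k1,k0,k0,k1,k1,k1,k1,k1,k1,k1,k1] k0 [] k8 k5
    [[(k10,k2)],[(k4,k2),(k5,k2)],[(k7,k3),(k2,k4)],[(k11,k3),(k3,k4)],[(k0,k2),(k8,k2)],[(k0,k2),(k8,k2)],[(k11,k2),
    (k3,k3)],[(k9,k2)],[(k6,k2)],[(k4,k2),(k5,k2)],[(k7,k2),(k2,k3)],[(k1,k2)]]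
    [] k0
    []
    [])]⟩

/-- classes `0 0 0 1 0 2`, types `N0 N1 N2 C0 N0 S0` -/
noncomputable def cU6_519 : CertX :=
  ⟨[k12,k13,k14,k20,k12,k32],[],[[[]]],
    [.old (.lp [k10,k10,k6,k6,k6,k6] [k0,k0,k0,k0,k2,k2,k2,k2,k2,k2,k2,k2] k0 [[k0,k0,k2],[],[],[k0,k2]] k24 k5
    [[(k10,k8),(k1,k10)],[(k5,k6),(k4,k8)],[(k7,k8),(k2,k12)],[(k11,k8),(k3,k12)],[(k0,k6),(k8,k6)],[(k8,k6),(k0,k8)],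
    [(k11,k6),(k3,k8)],[(k9,k6)],[(k6,k6)],[(k4,k6),(k5,k6)],[(k7,k6),(k2,k8)],[(k10,k6),(k1,k8)]]
    [] k0
    []
    [])]⟩

/-- classes `0 0 0 1 0 2`, types `N0 N1 N2 C0 N3 C0` -/
noncomputable def cU6_520 : CertX :=
  ⟨[k12,k13,k14,k20,k15,k36],[(false,k0,[k0,k1,k2,k3,k4,k5])],[[[([z1,z0,z1,z0,z0,z1],z2)],[]]],
    [.old (.leafM k3 [k0,k1,k2,k3,k4,k5] [(z1,[y1,z1])] []),
    .old (.lp [k24,k40,k24,k110,k10,k24] [k43,k43,k35,k35,k43,k43,k0,k0,k50,k50,k43,k43] k0 [] k120 k6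
    [[(k10,k24)],[(k4,k24),(k5,k24)],[(k2,k40),(k7,k75)],[(k8,k25),(k3,k40)],[(k0,k24),(k11,k24)],[(k0,k24),(k11,
    k24)],[(k8,k60),(k3,k75)],[(k9,k60)],[(k6,k60)],[(k2,k25),(k7,k60)],[(k4,k24),(k5,k24)],[(k1,k24)]]
    [] k0
    [[k1,k0,k1,k0,k0,k1],[k0,k2,k0,k0,k0,k0]]
    [.ref k0 k0 [(z1,[z1])],.contra [z1]])]⟩

/-- classes `0 0 0 1 0 2`, types `N0 N1 N2 C0 N3 S0` -/
noncomputable def cU6_521 : CertX :=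
  ⟨[k12,k13,k14,k20,k15,k32],[(false,k0,[k0,k1,k2,k3,k4,k5])],[[[([z1,z0,z1,z0,z0,z1],z2)],[([z1,z1,z1,z0,z0,z1],z2)],
    []]],
    [.old (.leafM k3 [k0,k1,k2,k3,k4,k5] [(z1,[y1,z1])] []),
    .old (.lp [(nat_lit 4848),(nat_lit 202),(nat_lit 22422),(nat_lit 5656),(nat_lit 9494),(nat_lit 5454)] [(nat_lit 8787),
    (nat_lit 8787),(nat_lit 11110),(nat_lit 11110),k0,k0,(nat_lit 10303),(nat_lit 6463),(nat_lit 6464),(nat_lit 6464),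
    (nat_lit 8484),(nat_lit 8484)] k0 [[k0,k0,(nat_lit 7878)],[],[],[k0,(nat_lit 7878)],[k0,k0,k0,k0,k0,k0,k0,k0,
    (nat_lit 9090)],[],[],[],[],[k0,k0,k0,k0,k0,(nat_lit 9090)]] (nat_lit 24240) k6
    [[(k1,(nat_lit 4848)),(k10,(nat_lit 5151))],[(k5,(nat_lit 5757)),(k4,(nat_lit 13635))],[(k7,(nat_lit 4849)),(k2,
    (nat_lit 8080))],[(k8,(nat_lit 4848)),(k3,(nat_lit 8080))],[(k0,(nat_lit 5757)),(k11,(nat_lit 13938))],[(k11,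
    (nat_lit 4848)),(k0,(nat_lit 13635))],[(k3,(nat_lit 4849)),(k8,(nat_lit 18585))],[(k9,(nat_lit 5655))],[(k6,
    (nat_lit 5655))],[(k2,(nat_lit 4848)),(k7,(nat_lit 18585))],[(k4,(nat_lit 4848)),(k5,(nat_lit 13938))],[(k1,
    (nat_lit 5151)),(k10,(nat_lit 5454))]]
    [] k0
    [[k1,k0,k1,k0,k0,k1],[k0,k2,k0,k0,k0,k0],[k0,k2,k0,k1,k1,k0],[k0,k1,k0,k1,k1,k0]]
    [.contra [y1,z1],.contra [z1],.contra [z1,z1,y1],.contra [z1,z1,y1]]),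
    .old (.lp [k14,k20,k24,k20,k4,k12] [k5,k5,k2,k2,k0,k0,k2,k2,k10,k10,k6,k6] k0 [[k0,k0,k0,k0,k0,k4],[],[],[],[k0,
    k4]] k48 k5
    [[(k10,k13),(k1,k14)],[(k4,k15),(k5,k19)],[(k2,k20),(k7,k24)],[(k8,k12),(k3,k20)],[(k11,k18),(k0,k19)],[(k0,k15),
    (k11,k18)],[(k8,k12),(k3,k24)],[(k9,k12)],[(k6,k12)],[(k2,k12),(k7,k12)],[(k4,k18),(k5,k18)],[(k10,k12),(k1,k13)]]
    [] k0
    [[k1,k0,k1,k0,k0,k1],[k0,k2,k0,k0,k0,k0],[k0,k0,k0,k1,k1,k0]]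
    [.ref k0 k0 [(z1,[z1])],.contra [z1],.ref k1 k0 [(z1,[y1,z1])]])]⟩

/-- classes `0 0 0 1 0 2`, types `N0 N1 N2 S0 N0 C0` -/
noncomputable def cU6_522 : CertX :=
  ⟨[k12,k13,k14,k16,k12,k36],[],[[[]]],
    [.old (.lp [k6,k12,k6,k6,k8,k6] [k3,k3,k0,k0,k3,k3,k3,k3,k2,k2,k3,k3] k0 [[],[],[k0,k0,k0,k0,k0,k0,k0,k0,k2],[],[],[],
    [],[],[],[k0,k0,k0,k2]] k24 k5
    [[(k10,k6)],[(k4,k6),(k5,k6)],[(k7,k9),(k2,k12)],[(k11,k7),(k3,k12)],[(k0,k6),(k8,k9)],[(k0,k6),(k8,k7)],[(k11,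
    k6),(k3,k9)],[(k6,k6),(k9,k7)],[(k6,k7),(k9,k8)],[(k4,k7),(k5,k9)],[(k7,k6),(k2,k7)],[(k1,k6)]]
    [] k0
    []
    [])]⟩

/-- classes `0 0 0 1 0 2`, types `N0 N1 N2 S0 N0 S0` -/
noncomputable def cU6_523 : CertX :=
  ⟨[k12,k13,k14,k16,k12,k32],[],[[[]]],
    [.old (.lp [k32,k34,k8,k18,k28,k18] [k1,k1,k0,k0,k13,k13,k8,k8,k3,k3,k8,k8] k0 [[k0,k0,k2],[k0,k0,k0,k0,k2],[k0,k0,k0,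
    k0,k0,k0,k0,k0,k8],[k0,k2],[],[k2],[],[],[],[k0,k0,k0,k8]] k72 k5
    [[(k10,k25),(k1,k32)],[(k5,k18),(k4,k22)],[(k7,k24),(k2,k36)],[(k11,k18),(k3,k36)],[(k0,k18),(k8,k26)],[(k8,k18),
    (k0,k22)],[(k11,k18),(k3,k24)],[(k6,k18),(k9,k23)],[(k6,k23),(k9,k28)],[(k4,k18),(k5,k26)],[(k2,k18),(k7,k18)],
    [(k10,k18),(k1,k25)]]
    [] k0
    []
    [])]⟩

/-- classes `0 0 0 1 0 2`, types `N0 N1 N2 S0 N3 C0` -/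
noncomputable def cU6_524 : CertX :=
  ⟨[k12,k13,k14,k16,k15,k36],[(false,k0,[k0,k1,k2,k3,k4,k5])],[[[([z1,z0,z1,z0,z0,z1],z2)],[]]],
    [.old (.leafM k3 [k0,k1,k2,k3,k4,k5] [(z1,[y1,z1])] []),
    .old (.lp [k6,k10,k6,k24,k6,k6] [k9,k9,k7,k7,k9,k9,k0,k0,k9,k9,k9,k9] k0 [] k30 k6
    [[(k10,k6)],[(k4,k6),(k5,k6)],[(k2,k10),(k7,k17)],[(k8,k8),(k3,k10)],[(k0,k6),(k11,k6)],[(k0,k6),(k11,k6)],[(k8,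
    k15),(k3,k17)],[(k9,k15),(k6,k24)],[(k9,k6),(k6,k15)],[(k2,k8),(k7,k15)],[(k4,k6),(k5,k6)],[(k1,k6)]]
    [] k0
    [[k1,k0,k1,k0,k0,k1],[k0,k2,k0,k0,k0,k0]]
    [.ref k0 k0 [(z1,[z1])],.contra [z1]])]⟩

/-- classes `0 0 0 1 0 2`, types `N0 N1 N2 S0 N3 S0` -/
noncomputable def cU6_525 : CertX :=
  ⟨[k12,k13,k14,k16,k15,k32],[(false,k0,[k0,k1,k2,k3,k4,k5])],[[[([z1,z0,z1,z0,z0,z1],z2)],[([z1,z1,z1,z0,z0,z1],z2)],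
    []]],
    [.old (.leafM k3 [k0,k1,k2,k3,k4,k5] [(z1,[y1,z1])] []),
    .old (.lp [k48,k2,(nat_lit 222),k71,k79,k54] [k87,k87,k110,k110,k0,k0,k87,k64,k64,k79,k84,k84] k0 [[k0,k0,k78],[],[],
    [k0,k78],[k0,k0,k0,k0,k0,k0,k0,k0,k90],[],[],[],[],[k0,k0,k0,k0,k0,k90]] (nat_lit 240) k6
    [[(k1,k48),(k10,k51)],[(k5,k57),(k4,k135)],[(k7,k48),(k2,k80)],[(k8,k48),(k3,k80)],[(k0,k57),(k11,k138)],[(k11,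
    k48),(k0,k135)],[(k3,k48),(k8,k184)],[(k6,k48),(k9,k56)],[(k6,k56),(k9,k64)],[(k2,k48),(k7,k184)],[(k4,k48),(k5,
    k138)],[(k1,k51),(k10,k54)]]
    [] k0
    [[k1,k0,k1,k0,k0,k1],[k0,k2,k0,k0,k0,k0],[k0,k2,k0,k1,k1,k0],[k0,k1,k0,k1,k1,k0]]
    [.contra [y1,z1],.contra [z1],.contra [z1,z1,y1],.contra [z1,z1,y1]]),
    .old (.lp [k20,k20,k12,k12,k12,k18] [k0,k0,k0,k0,k4,k4,k4,k4,k4,k4,k1,k1] k0 [[k0,k0,k0,k0,k0,k4],[],[],[],[k0,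
    k4]] k48 k5
    [[(k10,k19),(k1,k20)],[(k4,k12),(k5,k16)],[(k2,k20),(k7,k20)],[(k8,k16),(k3,k20)],[(k11,k15),(k0,k16)],[(k0,k12),
    (k11,k15)],[(k8,k12),(k3,k20)],[(k6,k12),(k9,k12)],[(k6,k12),(k9,k12)],[(k7,k12),(k2,k16)],[(k4,k15),(k5,k15)],
    [(k10,k18),(k1,k19)]]
    [] k0
    [[k1,k0,k1,k0,k0,k1],[k0,k2,k0,k0,k0,k0],[k0,k0,k0,k1,k1,k0]]
    [.ref k0 k0 [(z1,[z1])],.contra [z1],.ref k1 k0 [(z1,[y1,z1])]])]⟩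

/-- classes `0 0 0 1 0 2`, types `N0 N1 N3 C0 N1 C0` -/
noncomputable def cU6_526 : CertX :=
  ⟨[k12,k13,k15,k20,k13,k36],[(false,k0,[k0,k1,k2,k3,k4,k5])],[[[([z1,z0,z0,z0,z0,z1],z2)],[]]],
    [.old (.leafM k1 [k3,k4,k1,k2] [] [(k5,k0,z1,[z1]),(k0,k5,z1,[z1])]),
    .old (.lp [k6,k4,k4,k6,k2,k0] [k0,k0,k1,k1,k1,k1,k0,k0,k2,k2,k3,k3] k0 [[k0,k0,k2],[],[],[k0,k2]] k12 k5
    [[(k10,k3)],[(k5,k3),(k11,k3)],[(k8,k3),(k2,k6)],[(k4,k4),(k3,k6)],[(k0,k3),(k7,k5)],[(k8,k3),(k2,k4)],[(k11,k3),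
    (k5,k5)],[(k9,k4)],[(k6,k4)],[(k3,k3),(k4,k3)],[(k0,k3),(k7,k3)],[(k1,k3)]]
    [] k0
    [[k1,k0,k0,k0,k0,k1]]
    [.ref k0 k0 [(z1,[z1])]])]⟩

/-- classes `0 0 0 1 0 2`, types `N0 N1 N3 C0 N1 S0` -/
noncomputable def cU6_527 : CertX :=
  ⟨[k12,k13,k15,k20,k13,k32],[(false,k0,[k0,k1,k2,k3,k4,k5])],[[[([z1,z0,z0,z0,z0,z1],z2)],[]]],
    [.old (.leafM k1 [k3,k4,k1,k2] [] [(k5,k0,z1,[z1]),(k0,k5,z1,[z1])]),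
    .old (.lp [k6,k10,k10,k10,k2,k6] [k2,k2,k0,k0,k0,k0,k0,k0,k4,k4,k2,k2] k0 [[k0,k0,k2],[],[k0,k0,k0,k0,k0,k2],[k0,k2],
    [k0,k0,k0,k2]] k24 k5
    [[(k1,k6),(k10,k6)],[(k5,k6),(k11,k6)],[(k8,k6),(k2,k12)],[(k4,k8),(k3,k12)],[(k0,k6),(k7,k12)],[(k8,k6),(k2,k8)],
    [(k11,k8),(k5,k12)],[(k9,k6)],[(k6,k6)],[(k3,k6),(k4,k6)],[(k0,k6),(k7,k8)],[(k1,k6),(k10,k6)]]
    [] k0
    [[k1,k0,k0,k0,k0,k1]]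
    [.ref k0 k0 [(z1,[z1])]])]⟩

/-- classes `0 0 0 1 0 2`, types `N0 N1 N3 C0 N2 C0` -/
noncomputable def cU6_528 : CertX :=
  ⟨[k12,k13,k15,k20,k14,k36],[(false,k0,[k0,k1,k2,k3,k4,k5])],[[[([z1,z1,z1,z0,z0,z1],z2)],[]]],
    [.old (.lp [(nat_lit 682),(nat_lit 1240),(nat_lit 992),(nat_lit 2760),(nat_lit 806),(nat_lit 806)] [(nat_lit 1039),
    (nat_lit 1039),(nat_lit 760),(nat_lit 760),(nat_lit 884),(nat_lit 884),k0,k0,(nat_lit 977),(nat_lit 977),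
    (nat_lit 977),(nat_lit 977)] k0 [[],[],[],[],[k0,k0,k0,k0,k0,k0,k0,k0,k155],[],[],[],[],[k0,k0,k0,k0,k0,
    k155]] (nat_lit 3720) k6
    [[(k10,(nat_lit 744))],[(k8,(nat_lit 744)),(k5,(nat_lit 837))],[(k11,(nat_lit 1023)),(k2,(nat_lit 1240))],[(k4,
    (nat_lit 1116)),(k3,(nat_lit 1240))],[(k0,(nat_lit 837)),(k7,(nat_lit 1876))],[(k11,(nat_lit 744)),(k2,
    (nat_lit 1116))],[(k5,(nat_lit 1876)),(k8,(nat_lit 1938))],[(k9,(nat_lit 1783))],[(k6,(nat_lit 1783))],[(k0,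
    (nat_lit 744)),(k7,(nat_lit 1938))],[(k4,(nat_lit 744)),(k3,(nat_lit 1023))],[(k1,(nat_lit 744))]]
    [] k0
    [[k1,k0,k1,k0,k0,k1],[k0,k2,k0,k0,k0,k0]]
    [.contra [y1,z1],.contra [z1]]),
    .old (.lp [k6,k4,k4,k6,k0,k2] [k0,k0,k1,k1,k1,k1,k0,k0,k3,k3,k2,k2] k0 [] k12 k5
    [[(k10,k4)],[(k8,k3),(k5,k5)],[(k11,k3),(k2,k4)],[(k3,k4),(k4,k4)],[(k0,k5),(k7,k5)],[(k11,k3),(k2,k4)],[(k8,k3),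
    (k5,k5)],[(k9,k3)],[(k6,k3)],[(k0,k3),(k7,k3)],[(k3,k3),(k4,k3)],[(k1,k4)]]
    [] k0
    [[k0,k2,k0,k0,k0,k0],[k0,k0,k0,k1,k1,k0]]
    [.contra [z1],.ref k0 k0 [(z1,[y1,z1])]])]⟩

/-- classes `0 0 0 1 0 2`, types `N0 N1 N3 C0 N2 S0` -/
noncomputable def cU6_529 : CertX :=
  ⟨[k12,k13,k15,k20,k14,k32],[(false,k0,[k0,k1,k2,k3,k4,k5])],[[[([z1,z1,z1,z0,z0,z1],z2)],[]]],
    [.old (.lp [(nat_lit 744),(nat_lit 1240),(nat_lit 744),(nat_lit 2760),(nat_lit 868),(nat_lit 930)] [(nat_lit 1008),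
    (nat_lit 1008),(nat_lit 760),(nat_lit 760),(nat_lit 1008),(nat_lit 1008),k0,k0,(nat_lit 946),(nat_lit 946),
    (nat_lit 915),(nat_lit 915)] k0 [[k0,k0,k0,k0,k0,k0,k0,k0,k0,k62],[],[],[],[k0,k0,k0,k0,k0,k0,k0,k0,k93],[],[],[],
    [k0,k62],[k0,k0,k0,k0,k0,k93]] (nat_lit 3720) k6
    [[(k1,(nat_lit 744)),(k10,(nat_lit 837))],[(k5,(nat_lit 744)),(k8,(nat_lit 744))],[(k11,(nat_lit 1147)),(k2,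
    (nat_lit 1240))],[(k4,(nat_lit 992)),(k3,(nat_lit 1240))],[(k0,(nat_lit 744)),(k7,(nat_lit 1752))],[(k11,
    (nat_lit 744)),(k2,(nat_lit 992))],[(k5,(nat_lit 1752)),(k8,(nat_lit 1907))],[(k9,(nat_lit 1814))],[(k6,
    (nat_lit 1814))],[(k0,(nat_lit 744)),(k7,(nat_lit 1907))],[(k4,(nat_lit 744)),(k3,(nat_lit 1147))],[(k1,
    (nat_lit 837)),(k10,(nat_lit 930))]]
    [] k0
    [[k1,k0,k1,k0,k0,k1],[k0,k2,k0,k0,k0,k0]]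
    [.contra [y1,z1],.contra [z1]]),
    .old (.lp [k6,k4,k2,k6,k0,k4] [k0,k0,k1,k1,k2,k2,k0,k0,k3,k3,k1,k1] k0 [] k12 k5
    [[(k10,k5),(k1,k6)],[(k8,k3),(k5,k4)],[(k2,k4),(k11,k4)],[(k4,k3),(k3,k4)],[(k0,k4),(k7,k4)],[(k2,k3),(k11,k3)],
    [(k8,k3),(k5,k4)],[(k9,k3)],[(k6,k3)],[(k0,k3),(k7,k3)],[(k4,k3),(k3,k4)],[(k10,k4),(k1,k5)]]
    [] k0
    [[k0,k2,k0,k0,k0,k0],[k0,k0,k0,k1,k1,k0]]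
    [.contra [z1],.ref k0 k0 [(z1,[y1,z1])]])]⟩

/-- classes `0 0 0 1 0 2`, types `N0 N1 N3 S0 N1 C0` -/
noncomputable def cU6_530 : CertX :=
  ⟨[k12,k13,k15,k16,k13,k36],[(false,k0,[k0,k1,k2,k3,k4,k5])],[[[([z1,z0,z0,z0,z0,z1],z2)],[]]],
    [.old (.leafM k1 [k3,k4,k1,k2] [] [(k5,k0,z1,[z1]),(k0,k5,z1,[z1])]),
    .old (.lp [k4,k12,k8,k6,k6,k8] [k4,k4,k0,k0,k2,k2,k3,k3,k3,k3,k2,k2] k0 [[],[],[k0,k0,k0,k0,k0,k4],[],[k0,k0,k0,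
    k4]] k24 k5
    [[(k10,k6)],[(k5,k6),(k11,k6)],[(k8,k9),(k2,k12)],[(k4,k6),(k3,k12)],[(k0,k6),(k7,k11)],[(k2,k6),(k8,k7)],[(k11,
    k7),(k5,k11)],[(k6,k6),(k9,k6)],[(k6,k6),(k9,k6)],[(k4,k7),(k3,k9)],[(k0,k6),(k7,k7)],[(k1,k6)]]
    [] k0
    [[k1,k0,k0,k0,k0,k1]]
    [.ref k0 k0 [(z1,[z1])]])]⟩

/-- classes `0 0 0 1 0 2`, types `N0 N1 N3 S0 N1 S0` -/
noncomputable def cU6_531 : CertX :=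
  ⟨[k12,k13,k15,k16,k13,k32],[(false,k0,[k0,k1,k2,k3,k4,k5])],[[[([z1,z0,z0,z0,z0,z1],z2)],[]]],
    [.old (.leafM k1 [k3,k4,k1,k2] [] [(k5,k0,z1,[z1]),(k0,k5,z1,[z1])]),
    .old (.lp [k18,k34,k22,k18,k22,k18] [k8,k8,k0,k0,k6,k6,k8,k8,k6,k6,k8,k8] k0 [[k0,k0,k2],[],[k0,k0,k0,k0,k0,k10],[k0,
    k2],[k0,k0,k0,k10]] k72 k5
    [[(k1,k18),(k10,k18)],[(k5,k18),(k11,k18)],[(k8,k28),(k2,k36)],[(k4,k18),(k3,k36)],[(k0,k18),(k7,k30)],[(k2,k18),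
    (k8,k22)],[(k11,k18),(k5,k30)],[(k6,k18),(k9,k20)],[(k6,k20),(k9,k22)],[(k4,k22),(k3,k28)],[(k0,k18),(k7,k18)],
    [(k1,k18),(k10,k18)]]
    [] k0
    [[k1,k0,k0,k0,k0,k1]]
    [.ref k0 k0 [(z1,[z1])]])]⟩

/-- classes `0 0 0 1 0 2`, types `N0 N1 N3 S0 N2 C0` -/
noncomputable def cU6_532 : CertX :=
  ⟨[k12,k13,k15,k16,k14,k36],[(false,k0,[k0,k1,k2,k3,k4,k5])],[[[([z1,z1,z1,z0,z0,z1],z2)],[]]],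
    [.old (.lp [k38,k86,k58,k172,k58,k58] [k67,k67,k43,k43,k57,k57,k0,k0,k57,k57,k57,k57] k0 [[],[],[],[],[k0,k0,k0,k0,k0,
    k0,k0,k0,k10],[],[],[],[],[k0,k0,k0,k0,k0,k10]] (nat_lit 240) k6
    [[(k10,k48)],[(k5,k48),(k8,k48)],[(k11,k72),(k2,k86)],[(k4,k72),(k3,k86)],[(k0,k48),(k7,k115)],[(k11,k48),(k2,
    k72)],[(k5,k115),(k8,k125)],[(k9,k115),(k6,k172)],[(k9,k58),(k6,k115)],[(k0,k48),(k7,k125)],[(k4,k48),(k3,k72)],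
    [(k1,k48)]]
    [] k0
    [[k1,k0,k1,k0,k0,k1],[k0,k2,k0,k0,k0,k0]]
    [.contra [y1,z1],.contra [z1]]),
    .old (.lp [k6,k8,k6,k6,k6,k12] [k3,k3,k2,k2,k3,k3,k3,k3,k3,k3,k0,k0] k0 [] k24 k5
    [[(k10,k9)],[(k5,k6),(k8,k6)],[(k2,k8),(k11,k10)],[(k4,k7),(k3,k8)],[(k0,k6),(k7,k6)],[(k2,k7),(k11,k9)],[(k5,k6),
    (k8,k6)],[(k6,k6),(k9,k6)],[(k6,k6),(k9,k6)],[(k0,k6),(k7,k6)],[(k4,k9),(k3,k10)],[(k1,k9)]]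
    [] k0
    [[k0,k2,k0,k0,k0,k0],[k0,k0,k0,k1,k1,k0]]
    [.contra [z1],.ref k0 k0 [(z1,[y1,z1])]])]⟩

/-- classes `0 0 0 1 0 2`, types `N0 N1 N3 S0 N2 S0` -/
noncomputable def cU6_533 : CertX :=
  ⟨[k12,k13,k15,k16,k14,k32],[(false,k0,[k0,k1,k2,k3,k4,k5])],[[[([z1,z1,z1,z0,z0,z1],z2)],[]]],
    [.old (.lp [k48,k80,k48,k48,k186,k60] [k69,k69,k53,k53,k69,k69,k69,k69,k0,k0,k63,k63] k0 [[k0,k0,k0,k0,k0,k0,k0,k0,k0,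
    k4],[],[],[],[k0,k0,k0,k0,k0,k0,k0,k0,k6],[],[],[],[k0,k4],[k0,k0,k0,k0,k0,k6]] (nat_lit 240) k6
    [[(k1,k48),(k10,k54)],[(k5,k48),(k8,k113)],[(k11,k74),(k2,k80)],[(k4,k64),(k3,k80)],[(k0,k48),(k7,k48)],[(k11,
    k48),(k2,k64)],[(k5,k48),(k8,k123)],[(k6,k48),(k9,k117)],[(k6,k117),(k9,k186)],[(k0,k113),(k7,k123)],[(k4,k48),
    (k3,k74)],[(k1,k54),(k10,k60)]]
    [] k0
    [[k1,k0,k1,k0,k0,k1],[k0,k2,k0,k0,k0,k0]]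
    [.contra [y1,z1],.contra [z1]]),
    .old (.lp [k12,k8,k6,k6,k6,k6] [k0,k0,k2,k2,k3,k3,k3,k3,k3,k3,k3,k3] k0 [] k24 k5
    [[(k10,k9),(k1,k12)],[(k5,k9),(k8,k9)],[(k11,k7),(k2,k8)],[(k4,k7),(k3,k8)],[(k7,k6),(k0,k9)],[(k11,k6),(k2,k7)],
    [(k5,k6),(k8,k6)],[(k6,k6),(k9,k6)],[(k6,k6),(k9,k6)],[(k7,k6),(k0,k9)],[(k4,k6),(k3,k7)],[(k10,k6),(k1,k9)]]
    [] k0
    [[k0,k2,k0,k0,k0,k0],[k0,k0,k0,k1,k1,k0]]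
    [.contra [z1],.ref k0 k0 [(z1,[y1,z1])]])]⟩

/-- classes `0 0 0 1 0 2`, types `N0 N2 N0 C0 N1 C0` -/
noncomputable def cU6_534 : CertX :=
  ⟨[k12,k14,k12,k20,k13,k36],[(false,k0,[k0,k1,k2,k3,k4,k5]),(true,k3,[k3,k2,k1,k0,k5,k4])],[[[([z1,z0,z0,z0,z0,z1],
    z2)],[]]],
    [.old (.leafM k1 [k3,k4,k1,k2] [] [(k5,k0,z1,[z1]),(k0,k5,z1,[z1])]),
    .old (.lp [k4,k6,k4,k6,k0,k2] [k1,k1,k0,k0,k1,k1,k0,k0,k3,k3,k2,k2] k0 [[k0,k0,k0,k2],[],[k0,k2]] k12 k5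
    [[(k10,k3)],[(k2,k3),(k11,k3)],[(k8,k3),(k5,k7)],[(k0,k3),(k4,k5)],[(k7,k5),(k3,k7)],[(k11,k3),(k2,k5)],[(k8,k3),
    (k5,k5)],[(k9,k3)],[(k6,k3)],[(k3,k3),(k7,k3)],[(k0,k3),(k4,k3)],[(k1,k3)]]
    [] k0
    [[k1,k0,k0,k0,k0,k1],[k0,k0,k0,k1,k1,k0]]
    [.ref k0 k0 [(z1,[z1])],.ref k0 k1 [(z1,[z1])]])]⟩

/-- classes `0 0 0 1 0 2`, types `N0 N2 N0 C0 N1 S0` -/
noncomputable def cU6_535 : CertX :=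
  ⟨[k12,k14,k12,k20,k13,k32],[(false,k0,[k0,k1,k2,k3,k4,k5])],[[[([z1,z1,z1,z0,z0,z1],z2)],[([z1,z0,z0,z0,z0,z1],z2)],
    []]],
    [.old (.leafM k1 [k2,k5,k0,k1] [] [(k3,k4,z1,[y1,z1]),(k4,k3,z1,[y1,z1])]),
    .old (.leafM k1 [k3,k4,k1,k2] [] [(k5,k0,z1,[z1]),(k0,k5,z1,[z1])]),
    .old (.lp [k6,k14,k6,k12,k0,k6] [k4,k4,k0,k0,k4,k4,k1,k1,k7,k7,k4,k4] k0 [[k0,k0,k0,k4],[],[k0,k4]] k24 k5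
    [[(k1,k6),(k10,k6)],[(k2,k6),(k11,k6)],[(k8,k7),(k5,k14)],[(k0,k6),(k4,k10)],[(k7,k9),(k3,k14)],[(k11,k6),(k2,
    k10)],[(k8,k6),(k5,k9)],[(k9,k6)],[(k6,k6)],[(k7,k6),(k3,k7)],[(k0,k6),(k4,k6)],[(k1,k6),(k10,k6)]]
    [] k0
    [[k1,k0,k0,k0,k0,k1],[k0,k0,k0,k1,k1,k0]]
    [.ref k1 k0 [(z1,[z1])],.ref k0 k0 [(z1,[y1,z1])]])]⟩

/-- classes `0 0 0 1 0 2`, types `N0 N2 N0 C0 N2 C0` -/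
noncomputable def cU6_536 : CertX :=
  ⟨[k12,k14,k12,k20,k14,k36],[(false,k0,[k0,k1,k2,k3,k4,k5])],[[[([z1,z0,z0,z1,z1,z1],z2),([z0,z1,z0,y1,y1,z0],z0)],
    [([z1,z1,z0,z0,z0,z1],z2)],[]]],
    [.old (.tor k9 false k0 [(z1,[y1,y1,z1]),(z1,[y1,z0,z1]),(z1,[z1]),(z1,[z1,z1])]),
    .old (.lp [k8,k2,k4,k6,k2,k0] [k0,k0,k3,k3,k2,k2,k1,k1,k3,k3,k4,k4] k0 [[k0,k0,k0,k0,k0,k0,k0,k0,k0,k2],[],[],[],[],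
    [],[],[],[k0,k2]] k12 k5
    [[(k10,k4)],[(k8,k3),(k2,k5)],[(k5,k3),(k11,k3)],[(k4,k3),(k0,k5)],[(k3,k3),(k7,k5)],[(k2,k3),(k8,k3)],[(k11,k3),
    (k5,k5)],[(k9,k4)],[(k6,k4)],[(k0,k3),(k4,k3)],[(k3,k3),(k7,k3)],[(k1,k4)]]
    [] k0
    [[k0,k1,k1,k0,k0,k0]]
    [.ref k0 k0 [(z1,[y1,z0,z1]),(z1,[z1,z1,y1])]]),
    .old (.lp [k8,k14,k8,k8,k4,k4] [k3,k3,k0,k0,k3,k3,k3,k3,k5,k5,k5,k5] k0 [[k0,k0,k0,k2],[],[k0,k2]] k24 k5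
    [[(k10,k6)],[(k8,k6),(k2,k9)],[(k11,k9),(k5,k13)],[(k0,k9),(k4,k11)],[(k7,k8),(k3,k13)],[(k8,k6),(k2,k11)],[(k11,
    k6),(k5,k8)],[(k9,k6)],[(k6,k6)],[(k0,k6),(k4,k6)],[(k7,k6),(k3,k9)],[(k1,k6)]]
    [] k0
    [[k0,k0,k1,k1,k1,k0]]
    [.ref k1 k0 [(z1,[y1,z1])]])]⟩

/-- classes `0 0 0 1 0 2`, types `N0 N2 N0 C0 N2 S0` -/
noncomputable def cU6_537 : CertX :=
  ⟨[k12,k14,k12,k20,k14,k32],[(false,k0,[k0,k1,k2,k3,k4,k5])],[[[([z1,z0,z0,z1,z1,z1],z2),([z0,z1,z0,y1,y1,z0],z0)],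
    [([z1,z1,z0,z0,z0,z1],z2)],[]]],
    [.old (.tor k9 false k0 [(z1,[y1,y1,z1]),(z1,[y1,z0,z1]),(z1,[z1]),(z1,[z1,z1])]),
    .old (.lp [k6,k12,k8,k6,k6,k6] [k3,k3,k0,k0,k2,k2,k3,k3,k3,k3,k3,k3] k0 [[],[],[k0,k0,k0,k0,k0,k4],[],[k0,k0,k0,
    k4]] k24 k5
    [[(k1,k6),(k10,k6)],[(k8,k6),(k2,k9)],[(k11,k9),(k5,k10)],[(k4,k6),(k0,k9)],[(k3,k10),(k7,k11)],[(k2,k6),(k8,k7)],
    [(k11,k6),(k5,k11)],[(k9,k6)],[(k6,k6)],[(k0,k6),(k4,k7)],[(k7,k6),(k3,k9)],[(k1,k6),(k10,k6)]]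
    [] k0
    [[k0,k1,k1,k0,k0,k0]]
    [.ref k0 k0 [(z1,[y1,z0,z1]),(z1,[z1,z1,y1])]]),
    .old (.lp [k6,k16,k6,k6,k6,k6] [k5,k5,k0,k0,k5,k5,k5,k5,k5,k5,k5,k5] k0 [[k0,k0,k0,k2],[],[k0,k2]] k24 k5
    [[(k1,k6),(k10,k6)],[(k8,k6),(k2,k9)],[(k11,k11),(k5,k13)],[(k0,k9),(k4,k11)],[(k7,k6),(k3,k13)],[(k8,k6),(k2,
    k11)],[(k5,k6),(k11,k6)],[(k9,k6)],[(k6,k6)],[(k0,k6),(k4,k6)],[(k7,k6),(k3,k11)],[(k1,k6),(k10,k6)]]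
    [] k0
    [[k0,k0,k1,k1,k1,k0]]
    [.ref k1 k0 [(z1,[y1,z1])]])]⟩

/-- classes `0 0 0 1 0 2`, types `N0 N2 N0 S0 N1 S0` -/
noncomputable def cU6_538 : CertX :=
  ⟨[k12,k14,k12,k16,k13,k32],[(false,k0,[k0,k1,k2,k3,k4,k5]),(true,k3,[k3,k2,k1,k0,k5,k4])],[[[([z1,z0,z0,z0,z0,z1],
    z2)],[]]],
    [.old (.leafM k1 [k3,k4,k1,k2] [] [(k5,k0,z1,[z1]),(k0,k5,z1,[z1])]),
    .old (.lp [k6,k14,k6,k6,k6,k6] [k4,k4,k0,k0,k4,k4,k4,k4,k4,k4,k4,k4] k0 [[k0,k0,k0,k4],[],[k0,k4]] k24 k5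
    [[(k1,k6),(k10,k6)],[(k2,k6),(k11,k6)],[(k8,k10),(k5,k14)],[(k0,k6),(k4,k10)],[(k7,k6),(k3,k14)],[(k11,k6),(k2,
    k10)],[(k5,k6),(k8,k6)],[(k6,k6),(k9,k6)],[(k6,k6),(k9,k6)],[(k7,k6),(k3,k10)],[(k0,k6),(k4,k6)],[(k1,k6),(k10,
    k6)]]
    [] k0
    [[k1,k0,k0,k0,k0,k1],[k0,k0,k0,k1,k1,k0]]
    [.ref k0 k0 [(z1,[z1])],.ref k0 k1 [(z1,[z1])]])]⟩

/-- classes `0 0 0 1 0 2`, types `N0 N2 N0 S0 N2 S0` -/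
noncomputable def cU6_539 : CertX :=
  ⟨[k12,k14,k12,k16,k14,k32],[(false,k0,[k0,k1,k2,k3,k4,k5])],[[[([z1,z0,z0,z1,z1,z1],z2),([z0,z1,z0,y1,y1,z0],z0)],
    [([z1,z1,z0,z0,z0,z1],z2)],[]]],
    [.old (.tor k9 false k0 [(z1,[y1,y1,z1]),(z1,[y1,z0,z1]),(z1,[z1]),(z1,[z1,z1])]),
    .old (.lp [k6,k12,k8,k6,k6,k6] [k3,k3,k0,k0,k2,k2,k3,k3,k3,k3,k3,k3] k0 [[],[],[k0,k0,k0,k0,k0,k4],[],[k0,k0,k0,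
    k4]] k24 k5
    [[(k1,k6),(k10,k6)],[(k8,k6),(k2,k9)],[(k11,k9),(k5,k10)],[(k4,k6),(k0,k9)],[(k3,k10),(k7,k11)],[(k2,k6),(k8,k7)],
    [(k11,k6),(k5,k11)],[(k6,k6),(k9,k6)],[(k6,k6),(k9,k6)],[(k0,k6),(k4,k7)],[(k7,k6),(k3,k9)],[(k1,k6),(k10,k6)]]
    [] k0
    [[k0,k1,k1,k0,k0,k0]]
    [.ref k0 k0 [(z1,[y1,z0,z1]),(z1,[z1,z1,y1])]]),
    .old (.lp [k6,k10,k12,k6,k6,k6] [k3,k3,k1,k1,k0,k0,k3,k3,k3,k3,k3,k3] k0 [[k0,k0,k0,k2],[],[k0,k2]] k24 k5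
    [[(k1,k6),(k10,k6)],[(k2,k6),(k8,k6)],[(k11,k8),(k5,k13)],[(k0,k6),(k4,k11)],[(k7,k9),(k3,k13)],[(k8,k9),(k2,
    k11)],[(k11,k6),(k5,k9)],[(k6,k6),(k9,k6)],[(k6,k6),(k9,k6)],[(k0,k6),(k4,k9)],[(k7,k6),(k3,k8)],[(k1,k6),(k10,
    k6)]]
    [] k0
    [[k1,k1,k0,k0,k0,k1]]
    [.ref k1 k0 [(z1,[z1])]])]⟩

/-- classes `0 0 0 1 0 2`, types `N0 N2 N1 C0 N0 C0` -/
noncomputable def cU6_540 : CertX :=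
  ⟨[k12,k14,k13,k20,k12,k36],[(false,k0,[k0,k1,k2,k3,k4,k5])],[[[([z1,z1,z1,z0,z0,z1],z2)],[]]],
    [.old (.leafM k1 [k2,k5,k0,k1] [] [(k3,k4,z1,[y1,z1]),(k4,k3,z1,[y1,z1])]),
    .old (.lp [k0,k2,k0,k2,k0,k2] [k1,k1,k0,k0,k1,k1,k0,k0,k1,k1,k0,k0] k0 [] k4 k5
    [[(k10,k1)],[(k2,k1),(k7,k1)],[(k4,k1),(k5,k1)],[(k0,k1),(k8,k1)],[(k3,k1),(k11,k1)],[(k3,k1),(k11,k1)],[(k0,k1),
    (k8,k1)],[(k9,k1)],[(k6,k1)],[(k2,k1),(k7,k1)],[(k4,k1),(k5,k1)],[(k1,k1)]]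
    [] k0
    [[k0,k0,k0,k1,k1,k0]]
    [.ref k0 k0 [(z1,[y1,z1])]])]⟩

/-- classes `0 0 0 1 0 2`, types `N0 N2 N1 C0 N0 S0` -/
noncomputable def cU6_541 : CertX :=
  ⟨[k12,k14,k13,k20,k12,k32],[(false,k0,[k0,k1,k2,k3,k4,k5])],[[[([z1,z1,z1,z0,z0,z1],z2)],[]]],
    [.old (.leafM k1 [k2,k5,k0,k1] [] [(k3,k4,z1,[y1,z1]),(k4,k3,z1,[y1,z1])]),
    .old (.lp [k4,k4,k4,k4,k4,k6] [k1,k1,k1,k1,k1,k1,k1,k1,k1,k1,k0,k0] k0 [] k16 k5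
    [[(k1,k4),(k10,k5)],[(k2,k4),(k7,k4)],[(k4,k4),(k5,k4)],[(k0,k4),(k8,k4)],[(k3,k4),(k11,k5)],[(k3,k4),(k11,k5)],
    [(k0,k4),(k8,k4)],[(k9,k4)],[(k6,k4)],[(k2,k4),(k7,k4)],[(k4,k5),(k5,k5)],[(k1,k5),(k10,k6)]]
    [] k0
    [[k0,k0,k0,k1,k1,k0]]
    [.ref k0 k0 [(z1,[y1,z1])]])]⟩

/-- classes `0 0 0 1 0 2`, types `N0 N2 N1 C0 N3 C0` -/
noncomputable def cU6_542 : CertX :=
  ⟨[k12,k14,k13,k20,k15,k36],[],[[[]]],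
    [.old (.lp [k2,k2,k2,k2,k2,k2] [k0,k0,k0,k0,k0,k0,k0,k0,k0,k0,k0,k0] k0 [] k8 k5
    [[(k10,k2)],[(k2,k2),(k7,k2)],[(k4,k2),(k5,k2)],[(k0,k2),(k11,k2)],[(k3,k2),(k8,k2)],[(k3,k2),(k8,k2)],[(k0,k2),
    (k11,k2)],[(k9,k2)],[(k6,k2)],[(k4,k2),(k5,k2)],[(k2,k2),(k7,k2)],[(k1,k2)]]
    [] k0
    []
    [])]⟩

/-- classes `0 0 0 1 0 2`, types `N0 N2 N1 C0 N3 S0` -/
noncomputable def cU6_543 : CertX :=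
  ⟨[k12,k14,k13,k20,k15,k32],[],[[[]]],
    [.old (.lp [k2,k2,k2,k2,k2,k2] [k0,k0,k0,k0,k0,k0,k0,k0,k0,k0,k0,k0] k0 [] k8 k5
    [[(k1,k2),(k10,k2)],[(k2,k2),(k7,k2)],[(k4,k2),(k5,k2)],[(k0,k2),(k11,k2)],[(k3,k2),(k8,k2)],[(k3,k2),(k8,k2)],
    [(k0,k2),(k11,k2)],[(k9,k2)],[(k6,k2)],[(k4,k2),(k5,k2)],[(k2,k2),(k7,k2)],[(k1,k2),(k10,k2)]]
    [] k0
    []
    [])]⟩

/-- classes `0 0 0 1 0 2`, types `N0 N2 N1 S0 N0 C0` -/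
noncomputable def cU6_544 : CertX :=
  ⟨[k12,k14,k13,k16,k12,k36],[(false,k0,[k0,k1,k2,k3,k4,k5])],[[[([z1,z1,z1,z0,z0,z1],z2)],[]]],
    [.old (.leafM k1 [k2,k5,k0,k1] [] [(k3,k4,z1,[y1,z1]),(k4,k3,z1,[y1,z1])]),
    .old (.lp [k2,k2,k2,k2,k2,k2] [k0,k0,k0,k0,k0,k0,k0,k0,k0,k0,k0,k0] k0 [] k8 k5
    [[(k10,k2)],[(k2,k2),(k7,k2)],[(k4,k2),(k5,k2)],[(k0,k2),(k8,k2)],[(k3,k2),(k11,k2)],[(k3,k2),(k11,k2)],[(k0,k2),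
    (k8,k2)],[(k6,k2),(k9,k2)],[(k6,k2),(k9,k2)],[(k2,k2),(k7,k2)],[(k4,k2),(k5,k2)],[(k1,k2)]]
    [] k0
    [[k0,k0,k0,k1,k1,k0]]
    [.ref k0 k0 [(z1,[y1,z1])]])]⟩

/-- classes `0 0 0 1 0 2`, types `N0 N2 N1 S0 N0 S0` -/
noncomputable def cU6_545 : CertX :=
  ⟨[k12,k14,k13,k16,k12,k32],[(false,k0,[k0,k1,k2,k3,k4,k5])],[[[([z1,z1,z1,z0,z0,z1],z2)],[]]],
    [.old (.leafM k1 [k2,k5,k0,k1] [] [(k3,k4,z1,[y1,z1]),(k4,k3,z1,[y1,z1])]),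
    .old (.lp [k4,k4,k4,k4,k4,k6] [k1,k1,k1,k1,k1,k1,k1,k1,k1,k1,k0,k0] k0 [] k16 k5
    [[(k1,k4),(k10,k5)],[(k2,k4),(k7,k4)],[(k4,k4),(k5,k4)],[(k0,k4),(k8,k4)],[(k3,k4),(k11,k5)],[(k3,k4),(k11,k5)],
    [(k0,k4),(k8,k4)],[(k6,k4),(k9,k4)],[(k6,k4),(k9,k4)],[(k2,k4),(k7,k4)],[(k4,k5),(k5,k5)],[(k1,k5),(k10,k6)]]
    [] k0
    [[k0,k0,k0,k1,k1,k0]]
    [.ref k0 k0 [(z1,[y1,z1])]])]⟩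

/-- classes `0 0 0 1 0 2`, types `N0 N2 N1 S0 N3 C0` -/
noncomputable def cU6_546 : CertX :=
  ⟨[k12,k14,k13,k16,k15,k36],[],[[[]]],
    [.old (.lp [k4,k4,k4,k4,k6,k4] [k1,k1,k1,k1,k1,k1,k1,k1,k0,k0,k1,k1] k0 [] k16 k5
    [[(k10,k4)],[(k2,k4),(k7,k4)],[(k4,k4),(k5,k4)],[(k0,k4),(k11,k4)],[(k3,k4),(k8,k5)],[(k3,k4),(k8,k5)],[(k0,k4),
    (k11,k4)],[(k6,k4),(k9,k5)],[(k6,k5),(k9,k6)],[(k4,k5),(k5,k5)],[(k2,k4),(k7,k4)],[(k1,k4)]]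
    [] k0
    []
    [])]⟩

/-- classes `0 0 0 1 0 2`, types `N0 N2 N1 S0 N3 S0` -/
noncomputable def cU6_547 : CertX :=
  ⟨[k12,k14,k13,k16,k15,k32],[],[[[]]],
    [.old (.lp [k4,k4,k4,k4,k6,k4] [k1,k1,k1,k1,k1,k1,k1,k1,k0,k0,k1,k1] k0 [] k16 k5
    [[(k1,k4),(k10,k4)],[(k2,k4),(k7,k4)],[(k4,k4),(k5,k4)],[(k0,k4),(k11,k4)],[(k3,k4),(k8,k5)],[(k3,k4),(k8,k5)],
    [(k0,k4),(k11,k4)],[(k6,k4),(k9,k5)],[(k6,k5),(k9,k6)],[(k4,k5),(k5,k5)],[(k2,k4),(k7,k4)],[(k1,k4),(k10,k4)]]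
    [] k0
    []
    [])]⟩

/-- classes `0 0 0 1 0 2`, types `S0 S0 S0 C0 S0 C0` -/
noncomputable def cU6_548 : CertX :=
  ⟨[k0,k0,k0,k20,k0,k36],[(false,k0,[k0,k1,k2,k3,k4,k5]),(true,k3,[k3,k2,k1,k0,k5,k4])],[[[([z1,z0,z0,z0,z0,z1],z2)],
    [([z1,z0,z0,z1,z1,z1],z2)],[([z1,z0,z1,z0,z0,z1],z2)],[([z1,z1,z0,z0,z0,z1],z2)],[]]],
    [.old (.leafM k0 [k1,k2,k3,k4] [] [(k5,k0,z1,[z1]),(k0,k5,z1,[z1])]),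
    .old (.leafM k0 [k0,k3,k4,k5] [] [(k1,k2,z1,[y1,z1]),(k2,k1,z1,[y1,z1])]),
    .old (.leafM k3 [k0,k1,k2,k3,k4,k5] [(z1,[y1,z1])] []),
    .old (.leafM k0 [k1,k2,k3,k4,k5,k0] [(z1,[y1,z1])] []),
    .old (.lp [k6,k12,k8,k8,k6,k6] [k3,k3,k0,k0,k2,k2,k2,k2,k3,k3,k3,k3] k0 [[],[],[k0,k0,k0,k0,k0,k2,k0,k0,k2],[],[k0,k0,
    k0,k2],[],[],[],[],[k0,k0,k0,k2]] k24 k5
    [[(k10,k6)],[(k0,k6),(k8,k6),(k11,k6),(k4,k7),(k5,k7),(k7,k7),(k2,k9),(k3,k9)],[(k0,k9),(k8,k9),(k11,k9),(k4,k10),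
    (k5,k10),(k7,k10),(k2,k12),(k3,k12)],[(k11,k7),(k4,k8),(k0,k9),(k8,k9),(k5,k10),(k7,k10),(k2,k12),(k3,k12)],[(k0,
    k7),(k11,k7),(k4,k8),(k5,k8),(k8,k9),(k2,k10),(k3,k10),(k7,k10)],[(k0,k7),(k8,k7),(k11,k7),(k2,k8),(k4,k8),(k5,
    k8),(k7,k8),(k3,k10)],[(k0,k7),(k8,k7),(k11,k7),(k4,k8),(k7,k8),(k2,k10),(k3,k10),(k5,k10)],[(k9,k7)],[(k6,k7)],
    [(k0,k6),(k8,k6),(k11,k6),(k4,k7),(k7,k7),(k2,k9),(k3,k9),(k5,k9)],[(k0,k6),(k8,k6),(k11,k6),(k2,k7),(k4,k7),(k5,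
    k7),(k7,k7),(k3,k9)],[(k1,k6)]]
    [] k0
    [[k1,k0,k0,k0,k0,k1],[k1,k1,k0,k0,k0,k1],[k1,k0,k1,k0,k0,k1],[k0,k1,k1,k0,k0,k0],[k0,k0,k2,k0,k0,k0],[k0,k0,k0,k1,
    k1,k0]]
    [.ref k0 k0 [(z1,[z1])],.ref k3 k0 [(z1,[z1])],.ref k2 k0 [(z1,[z1])],.ref k1 k0 [(z1,[y1,z1])],.contra [z1],
    .ref k0 k1 [(z1,[z1])]])]⟩

/-- classes `0 0 0 1 0 2`, types `S0 S0 S0 C0 S0 S0` -/
noncomputable def cU6_549 : CertX :=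
  ⟨[k0,k0,k0,k20,k0,k32],[(false,k0,[k0,k1,k2,k3,k4,k5])],[[[([z1,z1,z1,z0,z0,z1],z2)],[([z1,z0,z1,z0,z0,z1],z2)],
    [([z1,z0,z0,z1,z1,z1],z2)],[([z1,z0,z0,z0,z0,z1],z2)],[([z1,z1,z0,z0,z0,z1],z2)],[]]],
    [.old (.leafM k0 [k0,k1,k2,k5] [] [(k3,k4,z1,[y1,z1]),(k4,k3,z1,[y1,z1])]),
    .old (.leafM k3 [k0,k1,k2,k3,k4,k5] [(z1,[y1,z1])] []),
    .old (.leafM k0 [k0,k3,k4,k5] [] [(k1,k2,z1,[y1,z1]),(k2,k1,z1,[y1,z1])]),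
    .old (.leafM k0 [k1,k2,k3,k4] [] [(k5,k0,z1,[z1]),(k0,k5,z1,[z1])]),
    .old (.leafM k0 [k1,k2,k3,k4,k5,k0] [(z1,[y1,z1])] []),
    .old (.lp [k36,k40,k60,k30,k30,k40] [k12,k12,k10,k10,k0,k0,k15,k15,k15,k15,k10,k10] k0 [[],[k0,k0,k10],[],
    [k10]] k120 k5
    [[(k1,k36),(k10,k38)],[(k7,k33),(k8,k33),(k0,k36),(k3,k38),(k11,k38),(k2,k48),(k4,k48),(k5,k48)],[(k7,k35),(k8,
    k35),(k0,k38),(k2,k40),(k3,k40),(k5,k40),(k11,k40),(k4,k50)],[(k7,k35),(k8,k35),(k2,k40),(k3,k40),(k11,k40),(k0,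
    k48),(k4,k50),(k5,k50)],[(k3,k40),(k7,k45),(k8,k45),(k0,k48),(k2,k50),(k11,k50),(k4,k60),(k5,k60)],[(k7,k45),(k8,
    k45),(k0,k48),(k2,k50),(k3,k50),(k11,k50),(k4,k60),(k5,k60)],[(k7,k30),(k8,k30),(k0,k33),(k2,k35),(k3,k35),(k11,
    k35),(k4,k45),(k5,k45)],[(k9,k30)],[(k6,k30)],[(k7,k30),(k8,k30),(k0,k33),(k2,k35),(k3,k35),(k11,k35),(k4,k45),
    (k5,k45)],[(k7,k35),(k8,k35),(k0,k38),(k2,k40),(k3,k40),(k11,k40),(k4,k50),(k5,k50)],[(k1,k38),(k10,k40)]]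
    [] k0
    [[k2,k0,k0,k0,k0,k0],[k1,k0,k0,k0,k0,k1],[k1,k1,k0,k0,k0,k1],[k0,k2,k0,k0,k0,k0],[k0,k1,k1,k0,k0,k0],[k0,k1,k0,k1,
    k1,k0],[k0,k0,k0,k1,k1,k0],[k0,k0,k0,k0,k0,k2]]
    [.contra [z1],.ref k3 k0 [(z1,[z1])],.ref k4 k0 [(z1,[z1])],.contra [z1],.ref k2 k0 [(z1,[y1,z1])],
    .ref k1 k0 [(z1,[y1,z1])],.ref k0 k0 [(z1,[y1,z1])],.contra [z1]])]⟩

/-- classes `0 0 0 1 1 1`, types `C0 C0 C0 C0 C0 C0` -/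
noncomputable def cU6_550 : CertX :=
  ⟨[k4,k4,k4,k20,k20,k20],[(false,k0,[k0,k1,k2,k3,k4,k5]),(false,k3,[k3,k4,k5,k0,k1,k2]),(true,k3,[k3,k2,k1,k0,k5,
    k4]),(true,k0,[k0,k5,k4,k3,k2,k1])],[[[([z1,z0,z0,z1,z1,z1],z2)],[([z1,z0,z0,z1,z0,y2],z0),([z0,z1,z0,z0,z0,z2],
    z2),([z0,z0,z1,z0,z0,y1],z0)],[([z3,z0,y3,z3,z0,z0],z2),([z0,z1,z2,z0,z0,z0],z2),([z0,z0,z0,z0,z3,z0],z2)],[([z1,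
    z0,y1,z1,z0,y1],z0),([z0,z1,z2,z0,z0,z0],z2)],[([z1,z0,z0,z1,z0,y2],z0),([z0,z1,z0,z0,z0,y1],z0),([z0,z0,z1,z0,z0,
    z2],z2)],[([z2,z0,y2,z2,z0,z1],z2),([z0,z1,z2,z0,z0,z0],z2)],[([z1,z0,z0,z1,z0,z0],z2),([z0,z1,z0,z0,y1,y1],z0)],
    [([z1,z0,y1,z1,z1,z1],z2)],[([z1,z0,z0,z1,z0,z0],z2),([z0,z1,z1,z0,z0,z0],z1)],[([z1,z0,z0,z1,z0,z0],z2)],[]]],
    [.old (.leafM k0 [k0,k3,k4,k5] [] [(k1,k2,z1,[y1,z1]),(k2,k1,z1,[y1,z1])]),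
    .old (.tor k14 false k0 [(z1,[y1,y1,y1,z1]),(z1,[z0,z1,z2]),(z1,[z0,y1,y1,z1]),(z1,[z1,z1])]),
    .old (.lp [k16,k8,k24,k16,k14,k16] [k4,k4,k8,k8,k0,k0,k4,k4,k5,k5,k4,k4] k0 [[k0,k0,k8],[k0,k0,k0,k0,k0,k4],[],[k0,
    k8],[k4],[],[k0,k0,k0,k0,k0,k0,k0,k0,k4],[],[k0,k0,k0,k0,k0,k0,k0,k0,k0,k0,k2],[k0,k0,k0,k0,k0,k0,k0,k4],[],[k0,
    k0,k0,k0,k0,k0,k0,k0,k0,k2]] k48 k5
    [[(k8,k13),(k6,k16),(k10,k16)],[(k3,k12),(k5,k12),(k7,k20)],[(k0,k12),(k4,k12),(k2,k16)],[(k7,k12),(k3,k16),(k5,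
    k16)],[(k0,k12),(k2,k16),(k4,k24)],[(k3,k12),(k7,k20),(k5,k24)],[(k2,k12),(k0,k20),(k4,k20)],[(k11,k12),(k9,k15),
    (k1,k16)],[(k6,k15),(k10,k15),(k8,k18)],[(k1,k13),(k11,k15),(k9,k18)],[(k6,k12),(k8,k15),(k10,k18)],[(k9,k15),(k1,
    k16),(k11,k18)]]
    [] k0
    [[k1,k0,k0,k1,k0,k0],[k1,k1,k0,k1,k0,k0],[k0,k2,k0,k0,k0,k0],[k0,k2,k1,k0,k0,k0],[k0,k1,k1,k0,k0,k0],[k0,k0,k0,k0,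
    k2,k0],[k0,k0,k0,k0,k1,k1],[k0,k0,k0,k0,k0,k2]]
    [.contra [y3,z1,z2],.ref k1 k0 [(z3,[y3,z4,z9,z2,y6]),(z3,[z6,y4,y9,y2,z6]),(z3,[y3,z2,z6,z1,y3])],.contra [z1],
    .ref k1 k0 [(z3,[y1,z3,z8,z2,y6]),(z3,[z2,y2,y7,y2,z6]),(z3,[y1,z1,z5,z1,y3])],.contra [y1,z0,z1],.contra [z1],
    .contra [z3,z1,z3,z2,y3],.contra [z3,z2,z6,z4,y6]]),
    .old (.lp [k20,k12,k18,k12,k12,k20] [k0,k0,k4,k4,k1,k1,k4,k4,k4,k4,k0,k0] k0 [[k0,k0,k6],[],[],[k0,k6],[],[],[k0,k0,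
    k0,k0,k0,k0,k0,k0,k4],[k0,k0,k0,k0,k0,k0,k0,k0,k0,k0,k0,k4],[k0,k0,k0,k0,k0,k0,k0,k0,k0,k0,k4],[k0,k0,k0,k0,k0,k0,
    k0,k4],[k0,k0,k0,k0,k0,k0,k4],[k0,k0,k0,k0,k0,k0,k0,k0,k0,k4]] k48 k5
    [[(k8,k12),(k6,k20),(k10,k20)],[(k5,k13),(k3,k16),(k7,k16)],[(k4,k15),(k0,k16),(k2,k18)],[(k7,k12),(k5,k15),(k3,
    k18)],[(k0,k13),(k2,k15),(k4,k18)],[(k3,k15),(k7,k15),(k5,k18)],[(k2,k12),(k4,k15),(k0,k16)],[(k9,k12),(k11,k12),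
    (k1,k20)],[(k6,k12),(k10,k12),(k8,k16)],[(k1,k12),(k9,k16),(k11,k16)],[(k6,k12),(k8,k16),(k10,k24)],[(k9,k12),(k1,
    k20),(k11,k24)]]
    [] k0
    [[k1,k0,k0,k1,k0,k0],[k1,k0,k0,k1,k1,k0],[k0,k2,k0,k0,k0,k0],[k0,k1,k1,k0,k0,k0],[k0,k0,k2,k0,k0,k0],[k0,k0,k0,k0,
    k2,k0],[k0,k0,k0,k0,k2,k1],[k0,k0,k0,k0,k1,k1]]
    [.contra [y2,z1,z0,z1],.ref k1 k0 [(z1,[z1,z1,z1,y1]),(z1,[y2,z0,y1,z2]),(z1,[z1,z0,z1,y1])],.contra [z1],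
    .contra [y1,z0,z1],.contra [z1],.contra [z1],.ref k2 k0 [(z1,[y1,z1,y2,z2]),(z1,[z0,z0,z1]),(z1,[z2,z1,z1,y1])],
    .contra [y1,y1,y1,z1]]),
    .old (.tor k13 false k0 [(z1,[y1,y1,y1,z1]),(z1,[z0,z2,z1]),(z1,[z0,y1,y1,z1]),(z1,[z1,z0,z1])]),
    .old (.lp [k16,k16,k14,k16,k24,k8] [k4,k4,k4,k4,k5,k5,k4,k4,k0,k0,k8,k8] k0 [[k0,k0,k2],[],[k0,k0,k0,k0,k4],[k0,k2],
    [],[k0,k0,k0,k4],[],[k0,k0,k0,k0,k0,k0,k0,k0,k0,k0,k0,k4],[k0,k0,k0,k0,k0,k0,k0,k0,k0,k0,k8],[],[k0,k0,k0,k0,k0,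
    k0,k4],[k0,k0,k0,k0,k0,k0,k0,k0,k0,k8]] k48 k5
    [[(k8,k12),(k10,k12),(k6,k20)],[(k5,k13),(k3,k16),(k7,k16)],[(k4,k15),(k0,k16),(k2,k18)],[(k7,k12),(k5,k15),(k3,
    k18)],[(k0,k13),(k2,k15),(k4,k18)],[(k3,k15),(k7,k15),(k5,k18)],[(k2,k12),(k4,k15),(k0,k16)],[(k11,k12),(k1,k20),
    (k9,k20)],[(k10,k12),(k6,k20),(k8,k24)],[(k1,k12),(k11,k16),(k9,k24)],[(k6,k12),(k8,k16),(k10,k16)],[(k1,k12),(k9,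
    k12),(k11,k16)]]
    [] k0
    [[k1,k0,k0,k1,k0,k0],[k1,k0,k0,k1,k0,k1],[k0,k2,k0,k0,k0,k0],[k0,k1,k1,k0,k0,k0],[k0,k0,k2,k0,k0,k0],[k0,k0,k0,k0,
    k1,k1],[k0,k0,k0,k0,k1,k2],[k0,k0,k0,k0,k0,k2]]
    [.contra [y2,z1,z1],.ref k4 k1 [(z1,[y1,z1]),(z1,[y1,z0,y1,z1]),(z1,[z2,y1])],.contra [z1],.contra [y1,z0,z1],
    .contra [z1],.contra [y1,y1,y2,z2],.ref k3 k0 [(z1,[y1,z0,y1,z1]),(z1,[z0,z0,z1])],.contra [z1]]),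
    .old (.lp [(nat_lit 75110),(nat_lit 21756),(nat_lit 55500),(nat_lit 41440),(nat_lit 41440),(nat_lit 8288)] [k0,k0,
    (nat_lit 26677),(nat_lit 26677),(nat_lit 9805),(nat_lit 9805),(nat_lit 16835),(nat_lit 16835),(nat_lit 16835),
    (nat_lit 16835),(nat_lit 33411),(nat_lit 33411)] k0 [[k0,k0,(nat_lit 40404)],[k0,k0,k0,k0,k0,(nat_lit 7770)],[k0,
    k0,k0,k0,(nat_lit 6720)],[k0,(nat_lit 40404)],[(nat_lit 7770)],[k0,k0,k0,(nat_lit 6720)],[],[],[k0,k0,k0,k0,k0,k0,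
    k0,k0,k0,k0,(nat_lit 33152)],[],[],[k0,k0,k0,k0,k0,k0,k0,k0,k0,(nat_lit 33152)]] (nat_lit 124320) k6
    [[(k8,(nat_lit 25123)),(k10,(nat_lit 41699)),(k6,(nat_lit 58275))],[(k5,(nat_lit 24901)),(k3,(nat_lit 48433)),(k7,
    (nat_lit 66045))],[(k4,(nat_lit 30858)),(k0,(nat_lit 48433)),(k2,(nat_lit 62160))],[(k7,(nat_lit 24878)),(k5,
    (nat_lit 38628)),(k3,(nat_lit 62160))],[(k0,(nat_lit 24901)),(k2,(nat_lit 38628)),(k4,(nat_lit 62220))],[(k3,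
    (nat_lit 30858)),(k7,(nat_lit 48470)),(k5,(nat_lit 62220))],[(k2,(nat_lit 24878)),(k4,(nat_lit 48470)),(k0,
    (nat_lit 66045))],[(k11,(nat_lit 24864)),(k9,(nat_lit 41440)),(k1,(nat_lit 58275))],[(k10,(nat_lit 24864)),(k6,
    (nat_lit 41440)),(k8,(nat_lit 41440))],[(k11,(nat_lit 24864)),(k1,(nat_lit 25123)),(k9,(nat_lit 41440))],[(k6,
    (nat_lit 24864)),(k8,(nat_lit 24864)),(k10,(nat_lit 41440))],[(k9,(nat_lit 24864)),(k11,(nat_lit 41440)),(k1,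
    (nat_lit 41699))]]
    [] k0
    [[k0,k1,k1,k0,k0,k0],[k0,k0,k0,k0,k2,k0],[k0,k0,k0,k0,k2,k1],[k0,k0,k0,k0,k1,k1],[k0,k0,k0,k0,k2,k2],[k0,k0,k0,k0,
    k1,k2],[k0,k0,k0,k0,k0,k2]]
    [.contra [y1,y1,z1,z1],.contra [z1],.contra [y1,y1,y1,z1],.contra [y1,y1,z0,z1],.contra [z1,z0,z2],.contra [y1,y1,
    y1,z1],.contra [z1]]),
    .old (.lp [k24,k12,k18,k12,k16,k12] [k0,k0,k6,k6,k3,k3,k6,k6,k4,k4,k6,k6] k0 [[k0,k0,k6],[],[],[k0,k6],[],[],[],[],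
    [k0,k0,k0,k0,k0,k0,k0,k0,k0,k0,k4],[],[],[k0,k0,k0,k0,k0,k0,k0,k0,k0,k4]] k48 k5
    [[(k8,k16),(k6,k18),(k10,k18)],[(k5,k15),(k3,k18),(k7,k18)],[(k4,k15),(k0,k18),(k2,k18)],[(k7,k12),(k5,k15),(k3,
    k18)],[(k0,k15),(k2,k15),(k4,k18)],[(k3,k15),(k7,k15),(k5,k18)],[(k2,k12),(k4,k15),(k0,k18)],[(k11,k12),(k9,k14),
    (k1,k18)],[(k6,k14),(k10,k14),(k8,k16)],[(k11,k14),(k1,k16),(k9,k16)],[(k6,k12),(k8,k14),(k10,k16)],[(k9,k14),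
    (k11,k16),(k1,k18)]]
    [] k0
    [[k1,k0,k0,k1,k0,k0],[k0,k2,k0,k0,k0,k0],[k0,k1,k1,k0,k0,k0],[k0,k0,k2,k0,k0,k0],[k0,k0,k0,k0,k2,k0],[k0,k0,k0,k0,
    k2,k1],[k0,k0,k0,k0,k1,k1],[k0,k0,k0,k0,k1,k2],[k0,k0,k0,k0,k0,k2]]
    [.ref k6 k2 [(z1,[z1]),(z1,[z1,y1])],.contra [z1],.contra [y1,y1,z1],.contra [z1],.contra [z1],.ref k5 k0 [(z1,
    [y1,z2]),(z1,[z0,y1,z1])],.ref k0 k1 [(z1,[y1,z0,z1])],.ref k3 k0 [(z1,[y1,z1]),(z1,[z0,y1,z1])],.contra [z1]]),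
    .old (.leafM k4 [k2,k4,k5,k1] [(z1,[y1,y1,z1])] [(k3,k0,z1,[z1]),(k0,k3,z1,[z1])]),
    .old (.lp [(nat_lit 3388),(nat_lit 484),(nat_lit 2400),(nat_lit 1628),(nat_lit 1364),(nat_lit 1276)] [(nat_lit 616),
    k0,(nat_lit 1760),(nat_lit 1760),(nat_lit 1187),(nat_lit 417),(nat_lit 1188),(nat_lit 1188),(nat_lit 1320),
    (nat_lit 1320),(nat_lit 1364),(nat_lit 1364)] k0 [[k0,k0,(nat_lit 1914)],[],[],[k0,(nat_lit 1914)],[],[],[k0,k0,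
    k0,k0,k0,k0,k0,k0,(nat_lit 396)],[k0,k0,k0,k0,k0,k0,k0,k0,k0,k0,k0,(nat_lit 264)],[k0,k0,k0,k0,k0,k0,k0,k0,k0,k0,
    (nat_lit 1628)],[k0,k0,k0,k0,k0,k0,k0,(nat_lit 396)],[k0,k0,k0,k0,k0,k0,(nat_lit 264)],[k0,k0,k0,k0,k0,k0,k0,k0,
    k0,(nat_lit 1628)]] (nat_lit 5280) k6
    [[(k8,(nat_lit 1056)),(k10,(nat_lit 2640)),(k6,(nat_lit 3080))],[(k5,(nat_lit 1057)),(k3,(nat_lit 1628)),(k7,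
    (nat_lit 2200))],[(k4,(nat_lit 1057)),(k0,(nat_lit 1628)),(k2,(nat_lit 2398))],[(k7,(nat_lit 1056)),(k5,
    (nat_lit 1827)),(k3,(nat_lit 2398))],[(k0,(nat_lit 1057)),(k2,(nat_lit 1827)),(k4,(nat_lit 2400))],[(k3,
    (nat_lit 1057)),(k7,(nat_lit 1629)),(k5,(nat_lit 2400))],[(k2,(nat_lit 1056)),(k4,(nat_lit 1629)),(k0,
    (nat_lit 2200))],[(k11,(nat_lit 1056)),(k9,(nat_lit 1496)),(k1,(nat_lit 3080))],[(k10,(nat_lit 1056)),(k6,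
    (nat_lit 1496)),(k8,(nat_lit 1760))],[(k1,(nat_lit 1056)),(k11,(nat_lit 1320)),(k9,(nat_lit 1760))],[(k6,
    (nat_lit 1056)),(k8,(nat_lit 1320)),(k10,(nat_lit 2904))],[(k9,(nat_lit 1056)),(k1,(nat_lit 2640)),(k11,
    (nat_lit 2904))]]
    [] k0
    [[k1,k0,k0,k1,k1,k0],[k1,k1,k0,k1,k1,k0],[k1,k0,k1,k1,k1,k0],[k0,k2,k0,k0,k0,k0],[k0,k1,k1,k0,k0,k0],[k0,k0,k2,k0,
    k0,k0],[k0,k0,k0,k0,k2,k0],[k0,k0,k0,k0,k2,k1],[k0,k0,k0,k0,k1,k1],[k0,k0,k0,k0,k2,k2]]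
    [.contra [z1,y1],.contra [z1,y1],.contra [z1,y1],.contra [z1],.contra [y1,y1,z1],.contra [z1],.contra [z1],
    .ref k7 k3 [(z1,[y1,z0,z1])],.contra [y1,y1,z1],.ref k8 k0 [(z1,[z0,z1]),(z2,[y1,y2,z2])]]),
    .old (.lp [k24,k12,k16,k12,k18,k12] [k0,k0,k6,k6,k4,k4,k6,k6,k3,k3,k6,k6] k0 [[k0,k0,k4],[],[],[k0,k4],[],[],[],[],
    [k0,k0,k0,k0,k0,k0,k0,k0,k0,k0,k6],[],[],[k0,k0,k0,k0,k0,k0,k0,k0,k0,k6]] k48 k5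
    [[(k8,k15),(k6,k18),(k10,k18)],[(k5,k16),(k3,k18),(k7,k18)],[(k4,k14),(k2,k16),(k0,k18)],[(k7,k12),(k5,k14),(k3,
    k16)],[(k2,k14),(k0,k16),(k4,k16)],[(k3,k14),(k7,k14),(k5,k16)],[(k2,k12),(k4,k14),(k0,k18)],[(k11,k12),(k9,k15),
    (k1,k18)],[(k6,k15),(k10,k15),(k8,k18)],[(k1,k15),(k11,k15),(k9,k18)],[(k6,k12),(k8,k15),(k10,k18)],[(k9,k15),(k1,
    k18),(k11,k18)]]
    [] k0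
    [[k1,k0,k0,k1,k0,k0],[k0,k2,k0,k0,k0,k0],[k0,k2,k1,k0,k0,k0],[k0,k1,k1,k0,k0,k0],[k0,k1,k2,k0,k0,k0],[k0,k0,k2,k0,
    k0,k0],[k0,k0,k0,k0,k2,k0],[k0,k0,k0,k0,k1,k1],[k0,k0,k0,k0,k0,k2]]
    [.ref k9 k0 [(z1,[z1])],.contra [z1],.ref k7 k2 [(z1,[y1,z1])],.ref k0 k0 [(z1,[y1,z1])],.ref k7 k0 [(z1,[y1,
    z1])],.contra [z1],.contra [z1],.ref k0 k1 [(z1,[y1,z1])],.contra [z1]])]⟩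

/-- classes `0 0 0 1 1 1`, types `C0 C0 C0 C0 C0 C2` -/
noncomputable def cU6_551 : CertX :=
  ⟨[k4,k4,k4,k20,k20,k22],[(false,k0,[k0,k1,k2,k3,k4,k5])],[[[([z1,z0,z0,z1,z1,z1],z2)],[]]],
    [.old (.leafM k0 [k0,k3,k4,k5] [] [(k1,k2,z1,[y1,z1]),(k2,k1,z1,[y1,z1])]),
    .old (.lp [(nat_lit 35640),(nat_lit 31878),(nat_lit 37260),(nat_lit 30360),(nat_lit 30360),
    (nat_lit 15180)] [(nat_lit 810),(nat_lit 810),(nat_lit 2691),(nat_lit 2691),k0,k0,(nat_lit 3450),(nat_lit 3450),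
    (nat_lit 3450),(nat_lit 3450),(nat_lit 11040),(nat_lit 11040)] k0 [[k0,k0,(nat_lit 13662)],[k0,k0,k0,k0,k0,
    (nat_lit 10120)],[k0,k0,k0,k0,(nat_lit 8280)],[k0,(nat_lit 13662)],[(nat_lit 10120)],[k0,k0,k0,
    (nat_lit 8280)]] (nat_lit 91080) k5
    [[(k10,(nat_lit 25410)),(k11,(nat_lit 25410)),(k9,(nat_lit 33000))],[(k5,(nat_lit 22788)),(k3,(nat_lit 33759)),
    (k7,(nat_lit 43120))],[(k4,(nat_lit 24449)),(k0,(nat_lit 33759)),(k2,(nat_lit 45540))],[(k7,(nat_lit 22839)),(k5,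
    (nat_lit 34569)),(k3,(nat_lit 45540))],[(k0,(nat_lit 22788)),(k2,(nat_lit 34569)),(k4,(nat_lit 45540))],[(k3,
    (nat_lit 24449)),(k7,(nat_lit 33810)),(k5,(nat_lit 45540))],[(k2,(nat_lit 22839)),(k4,(nat_lit 33810)),(k0,
    (nat_lit 43120))],[(k10,(nat_lit 22770)),(k11,(nat_lit 22770)),(k9,(nat_lit 30360))],[(k6,(nat_lit 30360)),(k8,
    (nat_lit 30360)),(k1,(nat_lit 33000))],[(k10,(nat_lit 22770)),(k11,(nat_lit 22770)),(k9,(nat_lit 30360))],[(k6,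
    (nat_lit 22770)),(k8,(nat_lit 22770)),(k1,(nat_lit 25410))],[(k6,(nat_lit 22770)),(k8,(nat_lit 22770)),(k1,
    (nat_lit 25410))]]
    [] k0
    [[k0,k1,k1,k0,k0,k0],[k0,k0,k0,k0,k2,k0]]
    [.ref k0 k0 [(z1,[y1,z1])],.contra [z1]])]⟩

/-- classes `0 0 0 1 1 1`, types `C0 C0 C0 C0 C2 C0` -/
noncomputable def cU6_552 : CertX :=
  ⟨[k4,k4,k4,k20,k22,k20],[(false,k0,[k0,k1,k2,k3,k4,k5])],[[[([z1,z1,z1,z1,z0,z0],z2)],[([z1,z0,z0,z1,z1,z1],z2)],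
    [([z1,z0,z0,z1,z0,z0],z2),([z0,z1,z1,z0,z0,z0],z1)],[([z1,z0,z0,z1,z0,z0],z2)],[]]],
    [.old (.leafM k0 [k0,k1,k2,k3] [] [(k4,k5,z1,[y1,z1]),(k5,k4,z1,[y1,z1])]),
    .old (.leafM k0 [k0,k3,k4,k5] [] [(k1,k2,z1,[y1,z1]),(k2,k1,z1,[y1,z1])]),
    .old (.leafM k4 [k2,k4,k5,k1] [(z1,[y1,y1,z1])] [(k3,k0,z1,[z1]),(k0,k3,z1,[z1])]),
    .old (.lp [k68,k48,k14,k45,k60,k0] [k17,k17,k27,k27,k44,k44,k57,k0,k21,k21,k51,k51] k0 [[k0,k0,k17],[k0,k0,k0,k0,k0,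
    k7],[k0,k0,k0,k0,k51],[k0,k17],[k7],[k0,k0,k0,k51]] k120 k6
    [[(k6,k28),(k10,k34),(k11,k34)],[(k5,k24),(k3,k58),(k7,k92)],[(k4,k24),(k0,k58),(k2,k65)],[(k7,k24),(k5,k31),(k3,
    k65)],[(k0,k24),(k2,k31),(k4,k65)],[(k3,k24),(k7,k58),(k5,k65)],[(k2,k24),(k4,k58),(k0,k92)],[(k8,k24),(k9,k24),
    (k1,k28)],[(k6,k24),(k10,k30),(k11,k30)],[(k6,k24),(k10,k30),(k11,k30)],[(k8,k30),(k9,k30),(k1,k34)],[(k8,k30),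
    (k9,k30),(k1,k34)]]
    [] k0
    [[k1,k1,k0,k1,k0,k0],[k1,k1,k1,k1,k0,k0],[k1,k0,k1,k1,k0,k0],[k0,k1,k1,k0,k0,k0],[k0,k2,k2,k0,k0,k0],[k0,k0,k0,k0,
    k1,k1]]
    [.contra [z1,y1],.contra [z1,y1],.contra [z1,y1],.contra [y1,y1,z1],.ref k2 k0 [(z1,[z0,z1]),(z2,[z1])],
    .contra [y1,y1,z1]]),
    .old (.lp [k6,k4,k4,k2,k4,k2] [k0,k0,k1,k1,k1,k1,k2,k2,k1,k1,k2,k2] k0 [] k12 k5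
    [[(k6,k4),(k10,k4),(k11,k4)],[(k7,k4),(k3,k5),(k5,k5)],[(k2,k4),(k4,k4),(k0,k5)],[(k7,k3),(k3,k4),(k5,k4)],[(k2,
    k4),(k4,k4),(k0,k5)],[(k7,k3),(k3,k4),(k5,k4)],[(k2,k3),(k4,k3),(k0,k4)],[(k8,k3),(k9,k3),(k1,k4)],[(k6,k3),(k10,
    k3),(k11,k3)],[(k6,k3),(k10,k3),(k11,k3)],[(k8,k3),(k9,k3),(k1,k4)],[(k8,k3),(k9,k3),(k1,k4)]]
    [] k0
    [[k1,k0,k0,k1,k0,k0],[k0,k2,k0,k0,k0,k0],[k0,k1,k1,k0,k0,k0],[k0,k0,k2,k0,k0,k0],[k0,k0,k0,k0,k1,k1]]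
    [.ref k3 k0 [(z1,[z1])],.contra [z1],.ref k1 k0 [(z1,[y1,z1])],.contra [z1],.ref k0 k0 [(z1,[y1,z1])]])]⟩

/-- classes `0 0 0 1 1 1`, types `C0 C0 C0 S0 S0 S0` -/
noncomputable def cU6_553 : CertX :=
  ⟨[k4,k4,k4,k16,k16,k16],[(false,k0,[k0,k1,k2,k3,k4,k5]),(true,k3,[k3,k2,k1,k0,k5,k4])],[[[([z1,z1,z1,z1,z0,z0],z2)],
    [([z1,z0,z0,z1,z1,z1],z2)],[([z1,z0,z0,z1,z0,z0],z2),([z0,z1,z1,z0,z0,y1],z0)],[([z1,z0,z0,z1,z0,y2],z0),([z0,z1,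
    z0,z0,z0,y1],z0),([z0,z0,z1,z0,z0,z2],z2)],[([z2,z0,z0,z2,z0,y1],z2),([z0,z2,z0,z0,z0,z1],z2),([z0,z0,z2,z0,z0,
    z1],z2)],[([z1,z0,z1,z1,z0,z0],z2),([z0,z1,z0,z0,z0,y1],z0)],[([z1,z0,z0,z1,z0,y2],z0),([z0,z1,z0,z0,z0,z2],z2),
    ([z0,z0,z1,z0,z0,y1],z0)],[([z1,z0,z1,z1,z0,z0],z2),([z0,z2,z0,z0,z0,z1],z2)],[([z1,z1,z1,z1,z0,y1],z2)],[([z1,z0,
    z0,z1,z0,z0],z2),([z0,z1,z1,z0,z0,z0],z1)],[([z1,z0,z0,z1,z0,z0],z2)],[([z1,z0,z0,z1,z0,z1],z2)]],[[]]],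
    [.old (.leafM k0 [k0,k1,k2,k3] [] [(k4,k5,z1,[y1,z1]),(k5,k4,z1,[y1,z1])]),
    .old (.leafM k0 [k0,k3,k4,k5] [] [(k1,k2,z1,[y1,z1]),(k2,k1,z1,[y1,z1])]),
    .old (.lp [(nat_lit 347),(nat_lit 480),(nat_lit 224),(nat_lit 811),(nat_lit 498),(nat_lit 514)] [(nat_lit 448),
    (nat_lit 453),(nat_lit 384),(nat_lit 384),(nat_lit 512),(nat_lit 512),(nat_lit 437),k0,(nat_lit 375),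
    (nat_lit 375),(nat_lit 367),(nat_lit 367)] k0 [[],[k0,k0,k0,k0,k0,k64],[k0,k0,k0,k0,(nat_lit 576)],[],[k64],[k0,
    k0,k0,(nat_lit 576)],[k0,k0,k0,k0,k0,k0,k0,k0,k148,k148],[k0,k0,k0,k0,k0,k0,k0,k0,k0,k0,k0,(nat_lit 218)],[k0,k0,
    k0,k0,k0,k0,k0,k148,k0,k0,k132],[k0,k0,k0,k0,k0,k0,k0,k148,k0,k0,k132],[k0,k0,k0,k0,k0,k0,(nat_lit 218)],[k0,k0,
    k0,k0,k0,k0,k0,k0,k132,k132]] (nat_lit 1440) k6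
    [[(k8,(nat_lit 288)),(k11,(nat_lit 296)),(k1,(nat_lit 342)),(k9,(nat_lit 420)),(k10,(nat_lit 428)),(k6,
    (nat_lit 576))],[(k5,(nat_lit 288)),(k3,(nat_lit 416)),(k7,(nat_lit 864))],[(k4,(nat_lit 288)),(k0,(nat_lit 416)),
    (k2,(nat_lit 480))],[(k7,(nat_lit 288)),(k5,(nat_lit 352)),(k3,(nat_lit 480))],[(k0,(nat_lit 288)),(k2,
    (nat_lit 352)),(k4,(nat_lit 800))],[(k3,(nat_lit 288)),(k7,(nat_lit 736)),(k5,(nat_lit 800))],[(k2,(nat_lit 288)),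
    (k4,(nat_lit 736)),(k0,(nat_lit 864))],[(k8,(nat_lit 288)),(k11,(nat_lit 296)),(k6,(nat_lit 374)),(k9,
    (nat_lit 436)),(k10,(nat_lit 444)),(k1,(nat_lit 576))],[(k10,(nat_lit 288)),(k1,(nat_lit 420)),(k6,(nat_lit 436)),
    (k9,(nat_lit 498)),(k8,(nat_lit 646)),(k11,(nat_lit 654))],[(k1,(nat_lit 288)),(k6,(nat_lit 288)),(k8,
    (nat_lit 498)),(k11,(nat_lit 506)),(k10,(nat_lit 638)),(k9,(nat_lit 646))],[(k1,(nat_lit 296)),(k6,(nat_lit 296)),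
    (k8,(nat_lit 506)),(k11,(nat_lit 514)),(k10,(nat_lit 646)),(k9,(nat_lit 654))],[(k9,(nat_lit 288)),(k1,
    (nat_lit 428)),(k6,(nat_lit 444)),(k10,(nat_lit 514)),(k8,(nat_lit 638)),(k11,(nat_lit 646))]]
    [] k0
    [[k1,k1,k0,k1,k0,k0],[k1,k1,k0,k1,k1,k0],[k1,k1,k0,k1,k0,k1],[k0,k2,k0,k0,k0,k0],[k0,k2,k1,k0,k0,k0],[k0,k1,k1,k0,
    k0,k0],[k0,k2,k2,k0,k0,k0],[k0,k0,k0,k0,k2,k0],[k0,k0,k0,k0,k1,k1],[k0,k0,k0,k0,k0,k2]]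
    [.contra [z1,y1],.contra [z1,y1],.contra [z1,y1,z1],.contra [z1],.contra [y1,y1,z1,z1],.contra [y1,y1,z1,z1],
    .contra [z1,z0,y2],.contra [z1],.contra [y1,y1,z0,z1],.contra [z1]]),
    .old (.tor k13 false k0 [(z1,[y1,y1,y1,z1]),(z1,[z0,z2,z1]),(z1,[z0,y1,y1,z1]),(z1,[z1,z0,z1])]),
    .old (.lp [k30,k36,k42,k30,k60,k40] [k20,k20,k17,k17,k14,k14,k20,k20,k10,k0,k15,k15] k0 [[k0,k0,k6],[],[],[k0,k6],[],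
    [],[],[k0,k0,k0,k0,k0,k0,k0,k0,k0,k0,k0,k24],[],[],[k0,k0,k0,k0,k0,k0,k24]] k120 k5
    [[(k1,k30),(k10,k35),(k11,k35),(k8,k40),(k9,k50),(k6,k54)],[(k5,k30),(k7,k30),(k3,k33)],[(k0,k33),(k4,k39),(k2,
    k42)],[(k7,k33),(k5,k39),(k3,k42)],[(k0,k30),(k2,k39),(k4,k42)],[(k7,k36),(k3,k39),(k5,k42)],[(k0,k30),(k2,k33),
    (k4,k36)],[(k6,k30),(k10,k35),(k11,k35),(k8,k40),(k9,k50),(k1,k54)],[(k10,k31),(k1,k50),(k6,k50),(k11,k55),(k8,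
    k60),(k9,k70)],[(k1,k40),(k6,k40),(k10,k45),(k11,k45),(k8,k50),(k9,k60)],[(k1,k35),(k6,k35),(k10,k40),(k11,k40),
    (k8,k45),(k9,k55)],[(k9,k31),(k1,k35),(k6,k35),(k10,k40),(k11,k40),(k8,k45)]]
    [] k0
    [[k1,k0,k0,k1,k0,k0],[k1,k0,k0,k1,k0,k1],[k0,k2,k0,k0,k0,k0],[k0,k1,k1,k0,k0,k0],[k0,k0,k2,k0,k0,k0],[k0,k0,k0,k0,
    k1,k1],[k0,k0,k0,k0,k1,k2],[k0,k0,k0,k0,k0,k2]]
    [.contra [y2,z1,z1],.ref k3 k0 [(z1,[y1,z1]),(z2,[y2,z1,z1]),(z2,[z2,y1,z0,z1])],.contra [z1],.contra [z2,z0,z1,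
    y1],.contra [z1,z0,z1,y1],.contra [y2,y1,z0,y1,z2],.ref k3 k0 [(z2,[y2,z0,y1,y1,z2]),(z2,[y2,y1,z0,y1,z2]),(z2,
    [z2,z1,z1,z2,y2])],.contra [z1]]),
    .old (.lp [k30,k40,k40,k30,k38,k60] [k16,k16,k11,k11,k11,k11,k16,k16,k12,k12,k0,k2] k0 [[],[],[],[],[],[],[k0,k0,k0,
    k0,k0,k0,k0,k0,k6,k4],[k0,k0,k0,k0,k0,k0,k0,k0,k0,k0,k0,k20],[k0,k0,k0,k0,k0,k0,k0,k4],[k0,k0,k0,k0,k0,k0,k0,k6],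
    [k0,k0,k0,k0,k0,k0,k20]] k120 k5
    [[(k1,k30),(k8,k34),(k9,k34),(k11,k44),(k10,k46),(k6,k50)],[(k7,k30),(k3,k35),(k5,k35)],[(k0,k35),(k2,k40),(k4,
    k40)],[(k7,k35),(k3,k40),(k5,k40)],[(k0,k35),(k2,k40),(k4,k40)],[(k7,k35),(k3,k40),(k5,k40)],[(k0,k30),(k2,k35),
    (k4,k35)],[(k6,k30),(k8,k30),(k9,k34),(k11,k38),(k10,k46),(k1,k50)],[(k10,k30),(k1,k34),(k6,k34),(k9,k38),(k8,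
    k44),(k11,k52)],[(k6,k30),(k1,k34),(k8,k38),(k9,k44),(k11,k48),(k10,k50)],[(k6,k38),(k1,k44),(k8,k48),(k9,k52),
    (k11,k58),(k10,k60)],[(k9,k30),(k1,k46),(k6,k46),(k8,k50),(k11,k60),(k10,k62)]]
    [] k0
    [[k1,k0,k0,k1,k0,k0],[k1,k0,k0,k1,k1,k0],[k1,k0,k0,k1,k0,k1],[k0,k2,k0,k0,k0,k0],[k0,k1,k1,k0,k0,k0],[k0,k0,k2,k0,
    k0,k0],[k0,k0,k0,k0,k2,k0],[k0,k0,k0,k0,k1,k1]]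
    [.contra [y1,z1],.ref k3 k0 [(z1,[z1,z1,z1,y1]),(z1,[z0,z0,z1]),(z1,[y1,z0,y1,z1])],.ref k4 k1 [(z1,[z2,z1,z1,
    y1]),(z1,[y2,z1,y1,z1]),(z1,[z0,y1,z1,z1])],.contra [z1],.ref k1 k0 [(z1,[y1,z0,z0,z1])],.contra [z1],
    .contra [z1],.contra [y1,y1,z0,z1]]),
    .old (.tor k14 false k0 [(z1,[y1,y1,y1,z1]),(z1,[z0,z1,z2]),(z1,[z0,y1,y1,z1]),(z1,[z1,z1])]),
    .old (.lp [k30,k36,k42,k30,k60,k40] [k20,k20,k17,k17,k14,k14,k20,k20,k10,k0,k15,k15] k0 [[k0,k0,k6],[],[],[k0,k6],[],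
    [],[],[k0,k0,k0,k0,k0,k0,k0,k0,k0,k0,k0,k24],[],[],[k0,k0,k0,k0,k0,k0,k24]] k120 k5
    [[(k1,k30),(k10,k35),(k11,k35),(k8,k40),(k9,k50),(k6,k54)],[(k5,k30),(k7,k30),(k3,k33)],[(k0,k33),(k4,k39),(k2,
    k42)],[(k7,k33),(k5,k39),(k3,k42)],[(k0,k30),(k2,k39),(k4,k42)],[(k7,k36),(k3,k39),(k5,k42)],[(k0,k30),(k2,k33),
    (k4,k36)],[(k6,k30),(k10,k35),(k11,k35),(k8,k40),(k9,k50),(k1,k54)],[(k10,k31),(k1,k50),(k6,k50),(k11,k55),(k8,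
    k60),(k9,k70)],[(k1,k40),(k6,k40),(k10,k45),(k11,k45),(k8,k50),(k9,k60)],[(k1,k35),(k6,k35),(k10,k40),(k11,k40),
    (k8,k45),(k9,k55)],[(k9,k31),(k1,k35),(k6,k35),(k10,k40),(k11,k40),(k8,k45)]]
    [] k0
    [[k1,k0,k0,k1,k0,k0],[k1,k0,k0,k1,k0,k1],[k0,k2,k0,k0,k0,k0],[k0,k1,k1,k0,k0,k0],[k0,k0,k2,k0,k0,k0],[k0,k0,k0,k0,
    k1,k1],[k0,k0,k0,k0,k1,k2],[k0,k0,k0,k0,k0,k2]]
    [.contra [y1,z1],.ref k6 k1 [(z1,[z1,z2,z1,y2]),(z1,[y1,y1,y1,z2]),(z1,[z0,z1,z1,y1])],.contra [z1],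
    .ref k1 k0 [(z1,[y1,z0,z0,z1])],.contra [z1],.contra [y1,y1,z0,z1],.ref k5 k0 [(z1,[z0,z1]),(z1,[y1,y1,z0,z1])],
    .contra [z1]]),
    .old (.lp [k30,k44,k26,k24,k32,k32] [k7,k7,k0,k0,k9,k9,k10,k10,k6,k6,k6,k6] k0 [[k0,k0,k4],[k0,k0,k0,k0,k0,k10],[k0,
    k0,k0,k0,k10],[k0,k4],[k10],[k0,k0,k0,k10]] k96 k5
    [[(k6,k27),(k1,k30),(k8,k31),(k9,k31),(k10,k31),(k11,k31)],[(k5,k24),(k3,k37),(k7,k37)],[(k4,k25),(k0,k37),(k2,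
    k48)],[(k7,k24),(k5,k35),(k3,k48)],[(k0,k24),(k2,k35),(k4,k36)],[(k3,k25),(k7,k25),(k5,k36)],[(k2,k24),(k4,k25),
    (k0,k37)],[(k6,k24),(k1,k27),(k8,k28),(k9,k28),(k10,k28),(k11,k28)],[(k6,k28),(k1,k31),(k8,k32),(k9,k32),(k10,
    k32),(k11,k32)],[(k6,k28),(k1,k31),(k8,k32),(k9,k32),(k10,k32),(k11,k32)],[(k6,k28),(k1,k31),(k8,k32),(k9,k32),
    (k10,k32),(k11,k32)],[(k6,k28),(k1,k31),(k8,k32),(k9,k32),(k10,k32),(k11,k32)]]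
    [] k0
    [[k1,k0,k0,k1,k0,k0],[k1,k1,k0,k1,k0,k0],[k1,k0,k1,k1,k0,k0],[k0,k1,k1,k0,k0,k0],[k0,k0,k2,k0,k0,k0],[k0,k0,k0,k0,
    k2,k0],[k0,k0,k0,k0,k1,k1],[k0,k0,k0,k0,k0,k2]]
    [.ref k2 k0 [(z1,[z1]),(z1,[y1,z1])],.ref k7 k1 [(z1,[z1]),(z1,[y2,z1,z1])],.ref k5 k0 [(z1,[z1]),(z1,[y1,z1])],
    .ref k1 k0 [(z1,[y1,z0,z1])],.contra [z1],.contra [z1],.contra [y1,y1,z1],.contra [z1]]),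
    .old (.leafM k4 [k2,k4,k5,k1] [(z1,[y1,y1,z1])] [(k3,k0,z1,[z1]),(k0,k3,z1,[z1])]),
    .old (.lp [k48,k80,k88,k48,k79,k135] [k84,k84,k68,k68,k68,k60,k84,k84,k81,k56,k0,k81] k0 [[k0,k0,k24],[k0,k0,k0,k0,k0,
    k32],[k0,k0,k0,k0,k16],[k0,k24],[k32],[k0,k0,k0,k16],[k0,k0,k0,k0,k0,k0,k0,k0,k3],[k0,k0,k0,k0,k0,k0,k0,k0,k0,k0,
    k0,k112],[k0,k0,k0,k0,k0,k0,k0,k0,k0,k0,k3],[k0,k0,k0,k0,k0,k0,k0,k3,k0,k0,k3],[k0,k0,k0,k0,k0,k0,k112],[k0,k0,k0,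
    k0,k0,k0,k0,k0,k3,k3]] (nat_lit 240) k6
    [[(k1,k48),(k8,k48),(k11,k48),(k9,k76),(k10,k132),(k6,k160)],[(k5,k48),(k3,k64),(k7,k80)],[(k4,k48),(k0,k64),(k2,
    k104)],[(k7,k48),(k5,k88),(k3,k104)],[(k0,k48),(k2,k88),(k4,k104)],[(k3,k48),(k7,k64),(k5,k104)],[(k2,k48),(k4,
    k64),(k0,k80)],[(k6,k48),(k11,k48),(k8,k51),(k9,k76),(k10,k132),(k1,k160)],[(k10,k48),(k1,k76),(k6,k76),(k11,k79),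
    (k8,k82),(k9,k104)],[(k1,k48),(k6,k51),(k8,k54),(k11,k54),(k9,k82),(k10,k138)],[(k1,k48),(k6,k48),(k8,k54),(k11,
    k54),(k9,k79),(k10,k138)],[(k9,k48),(k1,k132),(k6,k132),(k8,k138),(k11,k138),(k10,(nat_lit 216))]]
    [] k0
    [[k1,k0,k0,k1,k1,k0],[k1,k1,k0,k1,k1,k0],[k1,k0,k1,k1,k1,k0],[k1,k0,k0,k1,k1,k1],[k0,k2,k0,k0,k0,k0],[k0,k1,k1,k0,
    k0,k0],[k0,k0,k2,k0,k0,k0],[k0,k0,k0,k0,k2,k0],[k0,k0,k0,k0,k2,k1],[k0,k0,k0,k0,k1,k1],[k0,k0,k0,k0,k2,k2]]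
    [.contra [z1,y1],.contra [z1,y1],.contra [z1,y1],.contra [z1,y1],.contra [z1],.contra [y1,y1,z1],.contra [z1],
    .contra [z1],.ref k8 k1 [(z1,[y1,z0,z1])],.contra [y1,y1,z1],.ref k9 k0 [(z1,[z0,z1]),(z2,[y1,y2,z2])]]),
    .old (.lp [k20,k12,k18,k12,k16,k16] [k0,k0,k4,k4,k1,k1,k4,k4,k2,k2,k2,k2] k0 [[k0,k0,k6],[],[],[k0,k6],[],[],[],[k0,
    k0,k0,k0,k0,k0,k0,k0,k0,k0,k0,k4],[],[],[k0,k0,k0,k0,k0,k0,k4]] k48 k5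
    [[(k8,k18),(k9,k18),(k10,k18),(k11,k18),(k1,k20),(k6,k20)],[(k5,k13),(k3,k16),(k7,k16)],[(k4,k15),(k0,k16),(k2,
    k18)],[(k7,k12),(k5,k15),(k3,k18)],[(k0,k13),(k2,k15),(k4,k18)],[(k3,k15),(k7,k15),(k5,k18)],[(k2,k12),(k4,k15),
    (k0,k16)],[(k6,k12),(k8,k14),(k9,k14),(k10,k14),(k11,k14),(k1,k20)],[(k10,k12),(k6,k14),(k8,k16),(k9,k16),(k11,
    k16),(k1,k18)],[(k6,k14),(k8,k16),(k9,k16),(k10,k16),(k11,k16),(k1,k18)],[(k6,k14),(k8,k16),(k9,k16),(k10,k16),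
    (k11,k16),(k1,k18)],[(k9,k12),(k6,k14),(k8,k16),(k10,k16),(k11,k16),(k1,k18)]]
    [] k0
    [[k1,k0,k0,k1,k0,k0],[k0,k2,k0,k0,k0,k0],[k0,k1,k1,k0,k0,k0],[k0,k0,k2,k0,k0,k0],[k0,k0,k0,k0,k2,k0],[k0,k0,k0,k0,
    k2,k1],[k0,k0,k0,k0,k1,k1],[k0,k0,k0,k0,k1,k2],[k0,k0,k0,k0,k0,k2]]
    [.contra [y1,z1],.contra [z1],.contra [y1,y1,z1],.contra [z1],.contra [z1],.ref k8 k1 [(z1,[y1,z0,z1])],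
    .ref k0 k0 [(z1,[y1,z0,z1])],.ref k8 k0 [(z1,[y1,z0,z1])],.contra [z1]]),
    .old (.lp [k30,k36,k42,k30,k60,k40] [k20,k20,k17,k17,k14,k14,k20,k20,k10,k0,k15,k15] k0 [[k0,k0,k6],[],[],[k0,k6],[],
    [],[],[k0,k0,k0,k0,k0,k0,k0,k0,k0,k0,k0,k24],[],[],[k0,k0,k0,k0,k0,k0,k24]] k120 k5
    [[(k1,k30),(k10,k35),(k11,k35),(k8,k40),(k9,k50),(k6,k54)],[(k5,k30),(k7,k30),(k3,k33)],[(k0,k33),(k4,k39),(k2,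
    k42)],[(k7,k33),(k5,k39),(k3,k42)],[(k0,k30),(k2,k39),(k4,k42)],[(k7,k36),(k3,k39),(k5,k42)],[(k0,k30),(k2,k33),
    (k4,k36)],[(k6,k30),(k10,k35),(k11,k35),(k8,k40),(k9,k50),(k1,k54)],[(k10,k31),(k1,k50),(k6,k50),(k11,k55),(k8,
    k60),(k9,k70)],[(k1,k40),(k6,k40),(k10,k45),(k11,k45),(k8,k50),(k9,k60)],[(k1,k35),(k6,k35),(k10,k40),(k11,k40),
    (k8,k45),(k9,k55)],[(k9,k31),(k1,k35),(k6,k35),(k10,k40),(k11,k40),(k8,k45)]]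
    [] k0
    [[k1,k0,k0,k1,k0,k0],[k1,k0,k0,k1,k0,k1],[k0,k2,k0,k0,k0,k0],[k0,k1,k1,k0,k0,k0],[k0,k0,k2,k0,k0,k0],[k0,k0,k0,k0,
    k1,k1],[k0,k0,k0,k0,k1,k2],[k0,k0,k0,k0,k0,k2]]
    [.ref k10 k0 [(z1,[z1])],.ref k11 k0 [(z1,[z1])],.contra [z1],.ref k1 k0 [(z1,[y1,z1])],.contra [z1],
    .ref k0 k0 [(z1,[y1,z1])],.ref k8 k0 [(z1,[y1,z1])],.contra [z1]])]⟩

/-- classes `0 0 0 1 1 1`, types `C0 C0 C2 C0 C0 C2` -/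
noncomputable def cU6_554 : CertX :=
  ⟨[k4,k4,k6,k20,k20,k22],[],[[[]]],
    [.old (.lp [k4,k6,k2,k4,k4,k2] [k1,k1,k0,k0,k2,k2,k1,k1,k1,k1,k2,k2] k0 [] k12 k5
    [[(k10,k3),(k11,k3),(k9,k4)],[(k4,k3),(k5,k3),(k3,k5)],[(k0,k5),(k7,k5),(k2,k6)],[(k4,k4),(k5,k4),(k3,k6)],[(k0,
    k3),(k7,k3),(k2,k4)],[(k0,k3),(k7,k3),(k2,k4)],[(k4,k3),(k5,k3),(k3,k5)],[(k10,k3),(k11,k3),(k9,k4)],[(k1,k4),(k6,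
    k4),(k8,k4)],[(k10,k3),(k11,k3),(k9,k4)],[(k1,k3),(k6,k3),(k8,k3)],[(k1,k3),(k6,k3),(k8,k3)]]
    [] k0
    [[k0,k0,k0,k0,k2,k0]]
    [.contra [z1]])]⟩

/-- classes `0 0 0 1 1 1`, types `C0 C0 C2 C0 C2 C0` -/
noncomputable def cU6_555 : CertX :=
  ⟨[k4,k4,k6,k20,k22,k20],[(false,k0,[k0,k1,k2,k3,k4,k5])],[[[([z1,z1,z1,z1,z0,z0],z2)],[]]],
    [.old (.leafM k0 [k0,k1,k2,k3] [] [(k4,k5,z1,[y1,z1]),(k5,k4,z1,[y1,z1])]),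
    .old (.lp [k6,k4,k2,k4,k2,k4] [k0,k0,k1,k1,k2,k2,k1,k1,k2,k2,k1,k1] k0 [] k12 k5
    [[(k6,k5),(k10,k5),(k11,k5)],[(k4,k4),(k5,k4),(k3,k5)],[(k2,k4),(k7,k4),(k0,k5)],[(k4,k3),(k5,k3),(k3,k4)],[(k2,
    k3),(k7,k3),(k0,k4)],[(k2,k3),(k7,k3),(k0,k4)],[(k4,k3),(k5,k3),(k3,k4)],[(k8,k3),(k9,k3),(k1,k5)],[(k6,k3),(k10,
    k3),(k11,k3)],[(k6,k3),(k10,k3),(k11,k3)],[(k8,k3),(k9,k3),(k1,k5)],[(k8,k3),(k9,k3),(k1,k5)]]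
    [] k0
    [[k0,k2,k0,k0,k0,k0],[k0,k0,k0,k0,k1,k1]]
    [.contra [z1],.ref k0 k0 [(z1,[y1,z1])]])]⟩

/-- classes `0 0 0 1 1 1`, types `C0 C0 C2 C0 C2 C2` -/
noncomputable def cU6_556 : CertX :=
  ⟨[k4,k4,k6,k20,k22,k22],[],[[[]]],
    [.old (.lp [k4,k6,k2,k4,k2,k4] [k1,k1,k0,k0,k2,k2,k1,k1,k2,k2,k1,k1] k0 [] k12 k5
    [[(k8,k3),(k9,k3),(k10,k4)],[(k4,k3),(k5,k3),(k3,k5)],[(k0,k5),(k7,k5),(k2,k6)],[(k4,k4),(k5,k4),(k3,k6)],[(k0,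
    k3),(k7,k3),(k2,k4)],[(k0,k3),(k7,k3),(k2,k4)],[(k4,k3),(k5,k3),(k3,k5)],[(k8,k3),(k9,k3),(k10,k4)],[(k1,k3),(k6,
    k3),(k11,k3)],[(k1,k3),(k6,k3),(k11,k3)],[(k8,k3),(k9,k3),(k10,k4)],[(k1,k4),(k6,k4),(k11,k4)]]
    [] k0
    [[k0,k0,k0,k0,k0,k2]]
    [.contra [z1]])]⟩

/-- classes `0 0 0 1 1 1`, types `C0 C0 C2 S0 S0 S0` -/
noncomputable def cU6_557 : CertX :=
  ⟨[k4,k4,k6,k16,k16,k16],[(false,k0,[k0,k1,k2,k3,k4,k5])],[[[([z1,z1,z1,z1,z0,z0],z2)],[]]],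
    [.old (.leafM k0 [k0,k1,k2,k3] [] [(k4,k5,z1,[y1,z1]),(k5,k4,z1,[y1,z1])]),
    .old (.lp [(nat_lit 3648),(nat_lit 2660),(nat_lit 1900),(nat_lit 3648),(nat_lit 2850),(nat_lit 2850)] [k0,k0,
    (nat_lit 494),(nat_lit 494),(nat_lit 874),(nat_lit 874),k0,k0,(nat_lit 399),(nat_lit 399),(nat_lit 399),
    (nat_lit 399)] k0 [[k0,k0,(nat_lit 380)],[],[],[k0,(nat_lit 380)],[],[],[k0,k0,k0,k0,k0,k0,k0,k0,(nat_lit 960),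
    (nat_lit 960)],[k0,k0,k0,k0,k0,k0,k0,k0,k0,k0,k0,(nat_lit 380)],[k0,k0,k0,k0,k0,k0,k0,(nat_lit 960),k0,k0,
    (nat_lit 960)],[k0,k0,k0,k0,k0,k0,k0,(nat_lit 960),k0,k0,(nat_lit 960)],[k0,k0,k0,k0,k0,k0,(nat_lit 380),k0,k0,k0,
    k0,(nat_lit 380)],[k0,k0,k0,k0,k0,k0,k0,k0,(nat_lit 960),(nat_lit 960)]] (nat_lit 9120) k5
    [[(k8,(nat_lit 2289)),(k11,(nat_lit 2289)),(k9,(nat_lit 3249)),(k10,(nat_lit 3249)),(k1,(nat_lit 4028)),(k6,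
    (nat_lit 4028))],[(k5,(nat_lit 2394)),(k4,(nat_lit 2774)),(k3,(nat_lit 3154))],[(k2,(nat_lit 3040)),(k0,
    (nat_lit 3154)),(k7,(nat_lit 3154))],[(k4,(nat_lit 2280)),(k5,(nat_lit 2280)),(k3,(nat_lit 3040))],[(k2,
    (nat_lit 2280)),(k0,(nat_lit 2394)),(k7,(nat_lit 2774))],[(k2,(nat_lit 2280)),(k0,(nat_lit 2774)),(k7,
    (nat_lit 2774))],[(k4,(nat_lit 2774)),(k5,(nat_lit 2774)),(k3,(nat_lit 3154))],[(k8,(nat_lit 2289)),(k11,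
    (nat_lit 2289)),(k9,(nat_lit 3249)),(k10,(nat_lit 3249)),(k6,(nat_lit 3648)),(k1,(nat_lit 4028))],[(k10,
    (nat_lit 2470)),(k9,(nat_lit 2850)),(k1,(nat_lit 3249)),(k6,(nat_lit 3249)),(k8,(nat_lit 3810)),(k11,
    (nat_lit 3810))],[(k1,(nat_lit 2289)),(k6,(nat_lit 2289)),(k8,(nat_lit 2850)),(k11,(nat_lit 2850)),(k9,
    (nat_lit 3810)),(k10,(nat_lit 3810))],[(k1,(nat_lit 2289)),(k6,(nat_lit 2289)),(k8,(nat_lit 2850)),(k11,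
    (nat_lit 2850)),(k9,(nat_lit 3810)),(k10,(nat_lit 3810))],[(k9,(nat_lit 2470)),(k10,(nat_lit 2470)),(k1,
    (nat_lit 3249)),(k6,(nat_lit 3249)),(k8,(nat_lit 3810)),(k11,(nat_lit 3810))]]
    [] k0
    [[k0,k2,k0,k0,k0,k0],[k0,k0,k0,k0,k2,k0],[k0,k0,k0,k0,k1,k1],[k0,k0,k0,k0,k0,k2]]
    [.contra [z1],.contra [z1],.ref k0 k0 [(z1,[y1,z1])],.contra [z1]])]⟩

/-- classes `0 0 0 1 1 1`, types `C0 C2 C0 C0 C2 C0` -/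
noncomputable def cU6_558 : CertX :=
  ⟨[k4,k6,k4,k20,k22,k20],[(false,k0,[k0,k1,k2,k3,k4,k5]),(false,k3,[k3,k4,k5,k0,k1,k2])],[[[([z1,z0,z0,z1,z1,z1],
    z2)],[([z1,z0,z0,z1,z0,z0],z2),([z0,z1,z1,z0,z0,z0],z1)],[([z1,z0,z0,z1,z0,z0],z2)],[]]],
    [.old (.leafM k0 [k0,k3,k4,k5] [] [(k1,k2,z1,[y1,z1]),(k2,k1,z1,[y1,z1])]),
    .old (.leafM k4 [k2,k4,k5,k1] [(z1,[y1,y1,z1])] [(k3,k0,z1,[z1]),(k0,k3,z1,[z1])]),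
    .old (.lp [k12,k10,k0,k8,k4,k4] [k0,k0,k1,k1,k6,k6,k2,k2,k4,k4,k4,k4] k0 [] k20 k6
    [[(k10,k8),(k11,k8),(k6,k10)],[(k7,k10),(k2,k11),(k3,k11)],[(k4,k5),(k5,k5),(k0,k11)],[(k4,k5),(k5,k5),(k0,k11)],
    [(k7,k4),(k2,k5),(k3,k5)],[(k7,k4),(k2,k5),(k3,k5)],[(k4,k4),(k5,k4),(k0,k10)],[(k8,k6),(k9,k6),(k1,k10)],[(k10,
    k4),(k11,k4),(k6,k6)],[(k10,k4),(k11,k4),(k6,k6)],[(k8,k4),(k9,k4),(k1,k8)],[(k8,k4),(k9,k4),(k1,k8)]]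
    [] k0
    [[k0,k1,k1,k0,k0,k0],[k0,k0,k0,k0,k1,k1],[k0,k0,k0,k0,k2,k2]]
    [.contra [y1,y1,z1],.contra [y1,y1,z1],.ref k1 k0 [(z1,[z0,z1]),(z2,[y1,y2,z2])]]),
    .old (.lp [k0,k2,k0,k2,k0,k2] [k1,k1,k0,k0,k1,k1,k0,k0,k1,k1,k0,k0] k0 [] k4 k5
    [[(k6,k1),(k10,k1),(k11,k1)],[(k2,k1),(k3,k1),(k7,k1)],[(k0,k1),(k4,k1),(k5,k1)],[(k0,k1),(k4,k1),(k5,k1)],[(k2,
    k1),(k3,k1),(k7,k1)],[(k2,k1),(k3,k1),(k7,k1)],[(k0,k1),(k4,k1),(k5,k1)],[(k1,k1),(k8,k1),(k9,k1)],[(k6,k1),(k10,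
    k1),(k11,k1)],[(k6,k1),(k10,k1),(k11,k1)],[(k1,k1),(k8,k1),(k9,k1)],[(k1,k1),(k8,k1),(k9,k1)]]
    [] k0
    [[k1,k0,k0,k1,k0,k0],[k0,k1,k1,k0,k0,k0],[k0,k0,k0,k0,k1,k1]]
    [.ref k2 k0 [(z1,[z1])],.ref k0 k0 [(z1,[y1,z1])],.ref k0 k1 [(z1,[y1,z1])]])]⟩

/-- classes `0 0 0 1 1 1`, types `C0 C2 C0 S0 S0 S0` -/
noncomputable def cU6_559 : CertX :=
  ⟨[k4,k6,k4,k16,k16,k16],[(false,k0,[k0,k1,k2,k3,k4,k5])],[[[([z1,z1,z1,z1,z0,z0],z2)],[([z1,z0,z0,z1,z1,z1],z2)],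
    [([z1,z0,z0,z1,z0,z0],z2),([z0,z1,z1,z0,z0,z0],z1)],[([z1,z0,z0,z1,z0,z0],z2)],[]]],
    [.old (.leafM k0 [k0,k1,k2,k3] [] [(k4,k5,z1,[y1,z1]),(k5,k4,z1,[y1,z1])]),
    .old (.leafM k0 [k0,k3,k4,k5] [] [(k1,k2,z1,[y1,z1]),(k2,k1,z1,[y1,z1])]),
    .old (.leafM k4 [k2,k4,k5,k1] [(z1,[y1,y1,z1])] [(k3,k0,z1,[z1]),(k0,k3,z1,[z1])]),
    .old (.lp [(nat_lit 83062),k0,(nat_lit 67008),(nat_lit 50256),(nat_lit 83760),(nat_lit 43974)] [(nat_lit 4189),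
    (nat_lit 4189),(nat_lit 45720),(nat_lit 45720),(nat_lit 12216),(nat_lit 12216),(nat_lit 20592),(nat_lit 20592),
    (nat_lit 7680),k0,(nat_lit 23733),(nat_lit 23733)] k0 [[],[],[],[],[],[],[],[k0,k0,k0,k0,k0,k0,k0,k0,k0,k0,
    (nat_lit 20242),(nat_lit 34202)],[k0,k0,k0,k0,k0,k0,k0,k0,k0,k0,(nat_lit 36994)],[k0,k0,k0,k0,k0,k0,k0,k0,k0,k0,
    (nat_lit 30014)],[k0,k0,k0,k0,k0,k0,(nat_lit 34202),k0,k0,k0,k0,(nat_lit 1396)],[k0,k0,k0,k0,k0,k0,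
    (nat_lit 20242),k0,(nat_lit 30014),(nat_lit 36994)]] (nat_lit 167520) k6
    [[(k11,(nat_lit 33504)),(k8,(nat_lit 42577)),(k10,(nat_lit 63518)),(k9,(nat_lit 67009)),(k1,(nat_lit 84458)),(k6,
    (nat_lit 100861))],[(k2,(nat_lit 41531)),(k3,(nat_lit 41531)),(k7,(nat_lit 66659))],[(k4,(nat_lit 33504)),(k5,
    (nat_lit 33504)),(k0,(nat_lit 41531))],[(k4,(nat_lit 33504)),(k5,(nat_lit 33504)),(k0,(nat_lit 41531))],[(k2,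
    (nat_lit 33504)),(k3,(nat_lit 33504)),(k7,(nat_lit 58632))],[(k2,(nat_lit 33504)),(k3,(nat_lit 33504)),(k7,
    (nat_lit 58632))],[(k4,(nat_lit 58632)),(k5,(nat_lit 58632)),(k0,(nat_lit 66659))],[(k11,(nat_lit 47115)),(k6,
    (nat_lit 50256)),(k8,(nat_lit 63168)),(k10,(nat_lit 67357)),(k9,(nat_lit 70848)),(k1,(nat_lit 100861))],[(k10,
    (nat_lit 33505)),(k1,(nat_lit 67009)),(k11,(nat_lit 67707)),(k6,(nat_lit 70848)),(k8,(nat_lit 83760)),(k9,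
    (nat_lit 91440))],[(k1,(nat_lit 42577)),(k11,(nat_lit 60027)),(k6,(nat_lit 63168)),(k8,(nat_lit 76080)),(k9,
    (nat_lit 83760)),(k10,(nat_lit 90041))],[(k1,(nat_lit 33504)),(k11,(nat_lit 43974)),(k6,(nat_lit 47115)),(k8,
    (nat_lit 60027)),(k9,(nat_lit 67707)),(k10,(nat_lit 80968))],[(k9,(nat_lit 33505)),(k10,(nat_lit 42578)),(k1,
    (nat_lit 63518)),(k6,(nat_lit 67357)),(k11,(nat_lit 80968)),(k8,(nat_lit 90041))]]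
    [] k0
    [[k0,k1,k1,k0,k0,k0],[k0,k2,k2,k0,k0,k0],[k0,k0,k0,k0,k1,k1],[k0,k0,k0,k0,k0,k2]]
    [.contra [y1,y1,z1],.ref k2 k0 [(z1,[z0,z1]),(z2,[z1])],.contra [y1,y1,z1],.contra [z1]]),
    .old (.lp [k6,k12,k0,k12,k8,k8] [k3,k3,k0,k0,k6,k6,k0,k0,k2,k2,k2,k2] k0 [] k24 k5
    [[(k1,k6),(k8,k7),(k9,k7),(k10,k7),(k11,k7),(k6,k9)],[(k2,k9),(k3,k9),(k7,k9)],[(k4,k6),(k5,k6),(k0,k9)],[(k4,k6),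
    (k5,k6),(k0,k9)],[(k2,k6),(k3,k6),(k7,k6)],[(k2,k6),(k3,k6),(k7,k6)],[(k4,k6),(k5,k6),(k0,k9)],[(k1,k9),(k8,k10),
    (k9,k10),(k10,k10),(k11,k10),(k6,k12)],[(k1,k7),(k8,k8),(k9,k8),(k10,k8),(k11,k8),(k6,k10)],[(k1,k7),(k8,k8),(k9,
    k8),(k10,k8),(k11,k8),(k6,k10)],[(k1,k7),(k8,k8),(k9,k8),(k10,k8),(k11,k8),(k6,k10)],[(k1,k7),(k8,k8),(k9,k8),
    (k10,k8),(k11,k8),(k6,k10)]]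
    [] k0
    [[k1,k0,k0,k1,k0,k0],[k0,k1,k1,k0,k0,k0],[k0,k0,k0,k0,k2,k0],[k0,k0,k0,k0,k1,k1],[k0,k0,k0,k0,k0,k2]]
    [.ref k3 k0 [(z1,[z1])],.ref k1 k0 [(z1,[y1,z1])],.contra [z1],.ref k0 k0 [(z1,[y1,z1])],.contra [z1]])]⟩

/-- classes `0 0 0 1 1 2`, types `C0 C0 C0 B0 B1 C0` -/
noncomputable def cU6_560 : CertX :=
  ⟨[k4,k4,k4,k24,k25,k36],[(false,k0,[k0,k1,k2,k3,k4,k5])],[[[([z1,z0,z0,z1,z1,z1],z2)],[]]],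
    [.old (.leafM k1 [k5,k0,k3,k4] [] [(k1,k2,z1,[y1,z1]),(k2,k1,z1,[y1,z1])]),
    .old (.lp [(nat_lit 35640),(nat_lit 31878),(nat_lit 37260),(nat_lit 30360),(nat_lit 30360),
    (nat_lit 15180)] [(nat_lit 810),(nat_lit 810),(nat_lit 2691),(nat_lit 2691),k0,k0,(nat_lit 3450),(nat_lit 3450),
    (nat_lit 3450),(nat_lit 3450),(nat_lit 11040),(nat_lit 11040)] k0 [[k0,k0,(nat_lit 13662)],[k0,k0,k0,k0,k0,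
    (nat_lit 10120)],[k0,k0,k0,k0,(nat_lit 8280)],[k0,(nat_lit 13662)],[(nat_lit 10120)],[k0,k0,k0,
    (nat_lit 8280)]] (nat_lit 91080) k5
    [[(k10,(nat_lit 25410))],[(k5,(nat_lit 22788)),(k3,(nat_lit 33759)),(k7,(nat_lit 43120))],[(k4,(nat_lit 24449)),
    (k0,(nat_lit 33759)),(k2,(nat_lit 45540))],[(k7,(nat_lit 22839)),(k5,(nat_lit 34569)),(k3,(nat_lit 45540))],[(k0,
    (nat_lit 22788)),(k2,(nat_lit 34569)),(k4,(nat_lit 45540))],[(k3,(nat_lit 24449)),(k7,(nat_lit 33810)),(k5,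
    (nat_lit 45540))],[(k2,(nat_lit 22839)),(k4,(nat_lit 33810)),(k0,(nat_lit 43120))],[(k11,(nat_lit 22770)),(k8,
    (nat_lit 30360))],[(k11,(nat_lit 22770)),(k8,(nat_lit 30360))],[(k6,(nat_lit 30360)),(k9,(nat_lit 30360))],[(k6,
    (nat_lit 22770)),(k9,(nat_lit 22770))],[(k1,(nat_lit 25410))]]
    [] k0
    [[k0,k1,k1,k0,k0,k0],[k0,k0,k0,k0,k2,k0]]
    [.ref k0 k0 [(z1,[y1,z1])],.contra [z1]])]⟩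

/-- classes `0 0 0 1 1 2`, types `C0 C0 C0 B0 B1 S0` -/
noncomputable def cU6_561 : CertX :=
  ⟨[k4,k4,k4,k24,k25,k32],[(false,k0,[k0,k1,k2,k3,k4,k5])],[[[([z1,z0,z0,z1,z1,z1],z2)],[]]],
    [.old (.leafM k1 [k5,k0,k3,k4] [] [(k1,k2,z1,[y1,z1]),(k2,k1,z1,[y1,z1])]),
    .old (.lp [k42,k42,k54,k30,k40,k30] [k6,k6,k6,k6,k0,k0,k12,k12,k7,k7,k12,k12] k0 [[k0,k0,k18],[k0,k0,k0,k0,k0,k18],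
    [k0,k0,k0,k0,k6],[k0,k18],[k18],[k0,k0,k0,k6]] k120 k5
    [[(k10,k36),(k1,k42)],[(k5,k30),(k3,k42),(k7,k54)],[(k4,k30),(k0,k42),(k2,k60)],[(k7,k30),(k5,k48),(k3,k60)],[(k0,
    k30),(k2,k48),(k4,k60)],[(k3,k30),(k7,k42),(k5,k60)],[(k2,k30),(k4,k42),(k0,k54)],[(k11,k30),(k8,k35)],[(k11,k35),
    (k8,k40)],[(k6,k35),(k9,k40)],[(k6,k30),(k9,k35)],[(k10,k30),(k1,k36)]]
    [] k0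
    [[k0,k1,k1,k0,k0,k0],[k0,k0,k0,k0,k2,k0]]
    [.ref k0 k0 [(z1,[y1,z1])],.contra [z1]])]⟩

/-- classes `0 0 0 1 1 2`, types `C0 C0 C0 C0 C0 C0` -/
noncomputable def cU6_562 : CertX :=
  ⟨[k4,k4,k4,k20,k20,k36],[(false,k0,[k0,k1,k2,k3,k4,k5])],[[[([z1,z0,z0,z1,z1,z1],z2)],[]]],
    [.old (.leafM k0 [k0,k3,k4,k5] [] [(k1,k2,z1,[y1,z1]),(k2,k1,z1,[y1,z1])]),
    .old (.lp [(nat_lit 35640),(nat_lit 31878),(nat_lit 37260),(nat_lit 30360),(nat_lit 30360),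
    (nat_lit 15180)] [(nat_lit 810),(nat_lit 810),(nat_lit 2691),(nat_lit 2691),k0,k0,(nat_lit 3450),(nat_lit 3450),
    (nat_lit 3450),(nat_lit 3450),(nat_lit 11040),(nat_lit 11040)] k0 [[k0,k0,(nat_lit 13662)],[k0,k0,k0,k0,k0,
    (nat_lit 10120)],[k0,k0,k0,k0,(nat_lit 8280)],[k0,(nat_lit 13662)],[(nat_lit 10120)],[k0,k0,k0,
    (nat_lit 8280)]] (nat_lit 91080) k5
    [[(k10,(nat_lit 25410))],[(k5,(nat_lit 22788)),(k3,(nat_lit 33759)),(k7,(nat_lit 43120))],[(k4,(nat_lit 24449)),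
    (k0,(nat_lit 33759)),(k2,(nat_lit 45540))],[(k7,(nat_lit 22839)),(k5,(nat_lit 34569)),(k3,(nat_lit 45540))],[(k0,
    (nat_lit 22788)),(k2,(nat_lit 34569)),(k4,(nat_lit 45540))],[(k3,(nat_lit 24449)),(k7,(nat_lit 33810)),(k5,
    (nat_lit 45540))],[(k2,(nat_lit 22839)),(k4,(nat_lit 33810)),(k0,(nat_lit 43120))],[(k11,(nat_lit 22770)),(k9,
    (nat_lit 30360))],[(k6,(nat_lit 30360)),(k8,(nat_lit 30360))],[(k11,(nat_lit 22770)),(k9,(nat_lit 30360))],[(k6,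
    (nat_lit 22770)),(k8,(nat_lit 22770))],[(k1,(nat_lit 25410))]]
    [] k0
    [[k0,k1,k1,k0,k0,k0],[k0,k0,k0,k0,k2,k0]]
    [.ref k0 k0 [(z1,[y1,z1])],.contra [z1]])]⟩

/-- classes `0 0 0 1 1 2`, types `C0 C0 C0 C0 C0 S0` -/
noncomputable def cU6_563 : CertX :=
  ⟨[k4,k4,k4,k20,k20,k32],[(false,k0,[k0,k1,k2,k3,k4,k5])],[[[([z1,z0,z0,z1,z1,z1],z2)],[]]],
    [.old (.leafM k0 [k0,k3,k4,k5] [] [(k1,k2,z1,[y1,z1]),(k2,k1,z1,[y1,z1])]),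
    .old (.lp [k42,k42,k54,k30,k40,k30] [k6,k6,k6,k6,k0,k0,k12,k12,k7,k7,k12,k12] k0 [[k0,k0,k18],[k0,k0,k0,k0,k0,k18],
    [k0,k0,k0,k0,k6],[k0,k18],[k18],[k0,k0,k0,k6]] k120 k5
    [[(k10,k36),(k1,k42)],[(k5,k30),(k3,k42),(k7,k54)],[(k4,k30),(k0,k42),(k2,k60)],[(k7,k30),(k5,k48),(k3,k60)],[(k0,
    k30),(k2,k48),(k4,k60)],[(k3,k30),(k7,k42),(k5,k60)],[(k2,k30),(k4,k42),(k0,k54)],[(k11,k30),(k9,k35)],[(k6,k35),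
    (k8,k40)],[(k11,k35),(k9,k40)],[(k6,k30),(k8,k35)],[(k10,k30),(k1,k36)]]
    [] k0
    [[k0,k1,k1,k0,k0,k0],[k0,k0,k0,k0,k2,k0]]
    [.ref k0 k0 [(z1,[y1,z1])],.contra [z1]])]⟩

/-- classes `0 0 0 1 1 2`, types `C0 C0 C0 C0 C2 C0` -/
noncomputable def cU6_564 : CertX :=
  ⟨[k4,k4,k4,k20,k22,k36],[(false,k0,[k0,k1,k2,k3,k4,k5])],[[[([z1,z0,z0,z1,z1,z1],z2)],[]]],
    [.old (.leafM k0 [k0,k3,k4,k5] [] [(k1,k2,z1,[y1,z1]),(k2,k1,z1,[y1,z1])]),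
    .old (.lp [k4,k4,k6,k2,k4,k2] [k1,k1,k1,k1,k0,k0,k2,k2,k1,k1,k2,k2] k0 [[k0,k0,k2],[],[],[k0,k2]] k12 k5
    [[(k10,k3)],[(k5,k3),(k7,k3),(k3,k4)],[(k0,k4),(k4,k5),(k2,k6)],[(k7,k3),(k5,k5),(k3,k6)],[(k0,k3),(k2,k5),(k4,
    k6)],[(k7,k4),(k3,k5),(k5,k6)],[(k0,k3),(k2,k3),(k4,k4)],[(k8,k3),(k9,k3)],[(k6,k3),(k11,k3)],[(k6,k3),(k11,k3)],
    [(k8,k3),(k9,k3)],[(k1,k3)]]
    [] k0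
    [[k0,k1,k1,k0,k0,k0]]
    [.ref k0 k0 [(z1,[y1,z1])]])]⟩

/-- classes `0 0 0 1 1 2`, types `C0 C0 C0 C0 C2 S0` -/
noncomputable def cU6_565 : CertX :=
  ⟨[k4,k4,k4,k20,k22,k32],[(false,k0,[k0,k1,k2,k3,k4,k5])],[[[([z1,z0,z0,z1,z1,z1],z2)],[]]],
    [.old (.leafM k0 [k0,k3,k4,k5] [] [(k1,k2,z1,[y1,z1]),(k2,k1,z1,[y1,z1])]),
    .old (.lp [k12,k18,k24,k4,k20,k14] [k6,k6,k2,k4,k0,k0,k10,k10,k2,k2,k5,k5] k0 [[k0,k0,k6],[k0,k0,k0,k0,k0,k4],[],[k0,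
    k6],[k4]] k48 k5
    [[(k1,k12),(k10,k13)],[(k5,k12),(k7,k12),(k3,k14)],[(k0,k14),(k4,k16),(k2,k24)],[(k7,k12),(k5,k22),(k3,k24)],[(k0,
    k12),(k2,k22),(k4,k24)],[(k7,k14),(k3,k16),(k5,k24)],[(k0,k12),(k2,k12),(k4,k14)],[(k8,k12),(k9,k12)],[(k6,k12),
    (k11,k17)],[(k6,k12),(k11,k17)],[(k8,k17),(k9,k17)],[(k1,k13),(k10,k14)]]
    [] k0
    [[k0,k1,k1,k0,k0,k0]]
    [.ref k0 k0 [(z1,[y1,z1])]])]⟩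

/-- classes `0 0 0 1 1 2`, types `C0 C0 C0 N0 N1 C0` -/
noncomputable def cU6_566 : CertX :=
  ⟨[k4,k4,k4,k28,k29,k36],[(false,k0,[k0,k1,k2,k3,k4,k5])],[[[([z1,z0,z0,z1,z1,z1],z2)],[]]],
    [.old (.lp [k12,k30,k30,k12,k20,k12] [k9,k9,k0,k0,k0,k0,k9,k9,k5,k5,k9,k9] k0 [] k60 k6
    [[(k10,k12)],[(k7,k12),(k3,k21),(k5,k21)],[(k0,k21),(k2,k30),(k4,k30)],[(k7,k21),(k3,k30),(k5,k30)],[(k0,k21),(k2,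
    k30),(k4,k30)],[(k7,k21),(k3,k30),(k5,k30)],[(k0,k12),(k2,k21),(k4,k21)],[(k11,k12)],[(k8,k20)],[(k9,k20)],[(k6,
    k12)],[(k1,k12)]]
    [] k0
    [[k1,k0,k0,k1,k0,k1],[k0,k0,k0,k0,k2,k0]]
    [.contra [y1,z1],.contra [z1]]),
    .old (.lp [k54,k42,k42,k54,k40,k6] [k0,k0,k6,k6,k6,k6,k0,k0,k7,k7,k24,k24] k0 [[k0,k0,k18],[k0,k0,k0,k0,k0,k6],[k0,k0,
    k0,k0,k18],[k0,k18],[k6],[k0,k0,k0,k18]] k120 k5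
    [[(k10,k30)],[(k5,k30),(k3,k48),(k7,k60)],[(k4,k36),(k0,k48),(k2,k60)],[(k7,k30),(k5,k42),(k3,k60)],[(k0,k30),(k2,
    k42),(k4,k60)],[(k3,k36),(k7,k48),(k5,k60)],[(k2,k30),(k4,k48),(k0,k60)],[(k11,k30)],[(k8,k40)],[(k9,k40)],[(k6,
    k30)],[(k1,k30)]]
    [] k0
    [[k0,k1,k1,k0,k0,k0],[k0,k0,k0,k0,k2,k0]]
    [.ref k0 k0 [(z1,[y1,z1])],.contra [z1]])]⟩

/-- classes `0 0 0 1 1 2`, types `C0 C0 C0 N0 N1 S0` -/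
noncomputable def cU6_567 : CertX :=
  ⟨[k4,k4,k4,k28,k29,k32],[(false,k0,[k0,k1,k2,k3,k4,k5])],[[[([z1,z0,z0,z1,z1,z1],z2)],[]]],
    [.old (.lp [k12,k30,k30,k12,k20,k12] [k9,k9,k0,k0,k0,k0,k9,k9,k5,k5,k9,k9] k0 [] k60 k6
    [[(k1,k12),(k10,k12)],[(k7,k12),(k3,k21),(k5,k21)],[(k0,k21),(k2,k30),(k4,k30)],[(k7,k21),(k3,k30),(k5,k30)],[(k0,
    k21),(k2,k30),(k4,k30)],[(k7,k21),(k3,k30),(k5,k30)],[(k0,k12),(k2,k21),(k4,k21)],[(k11,k12)],[(k8,k20)],[(k9,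
    k20)],[(k6,k12)],[(k1,k12),(k10,k12)]]
    [] k0
    [[k1,k0,k0,k1,k0,k1],[k0,k0,k0,k0,k2,k0]]
    [.contra [y1,z1],.contra [z1]]),
    .old (.lp [k42,k42,k54,k30,k40,k30] [k6,k6,k6,k6,k0,k0,k12,k12,k7,k7,k12,k12] k0 [[k0,k0,k18],[k0,k0,k0,k0,k0,k18],
    [k0,k0,k0,k0,k6],[k0,k18],[k18],[k0,k0,k0,k6]] k120 k5
    [[(k10,k36),(k1,k42)],[(k5,k30),(k3,k42),(k7,k54)],[(k4,k30),(k0,k42),(k2,k60)],[(k7,k30),(k5,k48),(k3,k60)],[(k0,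
    k30),(k2,k48),(k4,k60)],[(k3,k30),(k7,k42),(k5,k60)],[(k2,k30),(k4,k42),(k0,k54)],[(k11,k30)],[(k8,k40)],[(k9,
    k40)],[(k6,k30)],[(k10,k30),(k1,k36)]]
    [] k0
    [[k0,k1,k1,k0,k0,k0],[k0,k0,k0,k0,k2,k0]]
    [.ref k0 k0 [(z1,[y1,z1])],.contra [z1]])]⟩

/-- classes `0 0 0 1 1 2`, types `C0 C0 C0 N0 N2 C0` -/
noncomputable def cU6_568 : CertX :=
  ⟨[k4,k4,k4,k28,k30,k36],[(false,k0,[k0,k1,k2,k3,k4,k5])],[[[([z1,z0,z0,z1,z1,z1],z2)],[]]],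
    [.old (.leafM k1 [k5,k0,k3,k4] [] [(k1,k2,z1,[y1,z1]),(k2,k1,z1,[y1,z1])]),
    .old (.lp [k4,k4,k6,k2,k4,k2] [k1,k1,k1,k1,k0,k0,k2,k2,k1,k1,k2,k2] k0 [[k0,k0,k2],[],[],[k0,k2]] k12 k5
    [[(k10,k3)],[(k5,k3),(k7,k3),(k3,k4)],[(k0,k4),(k4,k5),(k2,k6)],[(k7,k3),(k5,k5),(k3,k6)],[(k0,k3),(k2,k5),(k4,
    k6)],[(k7,k4),(k3,k5),(k5,k6)],[(k0,k3),(k2,k3),(k4,k4)],[(k8,k3)],[(k11,k3)],[(k6,k3)],[(k9,k3)],[(k1,k3)]]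
    [] k0
    [[k0,k1,k1,k0,k0,k0]]
    [.ref k0 k0 [(z1,[y1,z1])]])]⟩

/-- classes `0 0 0 1 1 2`, types `C0 C0 C0 N0 N2 S0` -/
noncomputable def cU6_569 : CertX :=
  ⟨[k4,k4,k4,k28,k30,k32],[(false,k0,[k0,k1,k2,k3,k4,k5])],[[[([z1,z0,z0,z1,z1,z1],z2)],[]]],
    [.old (.leafM k1 [k5,k0,k3,k4] [] [(k1,k2,z1,[y1,z1]),(k2,k1,z1,[y1,z1])]),
    .old (.lp [k6,k10,k10,k6,k6,k6] [k2,k2,k0,k0,k0,k0,k2,k2,k2,k2,k2,k2] k0 [[k0,k0,k2],[],[k0,k0,k0,k0,k2],[k0,k2],[],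
    [k0,k0,k0,k2]] k24 k5
    [[(k1,k6),(k10,k6)],[(k5,k6),(k7,k6),(k3,k8)],[(k0,k8),(k4,k10),(k2,k12)],[(k7,k6),(k5,k10),(k3,k12)],[(k0,k6),
    (k2,k10),(k4,k12)],[(k7,k8),(k3,k10),(k5,k12)],[(k0,k6),(k2,k6),(k4,k8)],[(k8,k6)],[(k11,k6)],[(k6,k6)],[(k9,k6)],
    [(k1,k6),(k10,k6)]]
    [] k0
    [[k0,k1,k1,k0,k0,k0]]
    [.ref k0 k0 [(z1,[y1,z1])]])]⟩

/-- classes `0 0 0 1 1 2`, types `C0 C0 C0 S0 S0 C0` -/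
noncomputable def cU6_570 : CertX :=
  ⟨[k4,k4,k4,k16,k16,k36],[(false,k0,[k0,k1,k2,k3,k4,k5])],[[[([z1,z0,z0,z1,z1,z1],z2)],[]]],
    [.old (.leafM k0 [k0,k3,k4,k5] [] [(k1,k2,z1,[y1,z1]),(k2,k1,z1,[y1,z1])]),
    .old (.lp [k42,k42,k54,k30,k40,k30] [k6,k6,k6,k6,k0,k0,k12,k12,k7,k7,k12,k12] k0 [[k0,k0,k18],[k0,k0,k0,k0,k0,k18],
    [k0,k0,k0,k0,k6],[k0,k18],[k18],[k0,k0,k0,k6]] k120 k5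
    [[(k10,k36)],[(k5,k30),(k3,k42),(k7,k54)],[(k4,k30),(k0,k42),(k2,k60)],[(k7,k30),(k5,k48),(k3,k60)],[(k0,k30),(k2,
    k48),(k4,k60)],[(k3,k30),(k7,k42),(k5,k60)],[(k2,k30),(k4,k42),(k0,k54)],[(k6,k30),(k11,k30),(k8,k35),(k9,k35)],
    [(k6,k35),(k11,k35),(k8,k40),(k9,k40)],[(k6,k35),(k11,k35),(k8,k40),(k9,k40)],[(k6,k30),(k11,k30),(k8,k35),(k9,
    k35)],[(k1,k36)]]
    [] k0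
    [[k0,k1,k1,k0,k0,k0],[k0,k0,k0,k0,k2,k0]]
    [.ref k0 k0 [(z1,[y1,z1])],.contra [z1]])]⟩

/-- classes `0 0 0 1 1 2`, types `C0 C0 C0 S0 S0 S0` -/
noncomputable def cU6_571 : CertX :=
  ⟨[k4,k4,k4,k16,k16,k32],[(false,k0,[k0,k1,k2,k3,k4,k5])],[[[([z1,z0,z0,z1,z1,z1],z2)],[]]],
    [.old (.leafM k0 [k0,k3,k4,k5] [] [(k1,k2,z1,[y1,z1]),(k2,k1,z1,[y1,z1])]),
    .old (.lp [k30,k36,k42,k30,k40,k60] [k15,k15,k12,k12,k9,k9,k15,k15,k10,k10,k0,k0] k0 [[k0,k0,k6],[],[],[k0,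
    k6]] k120 k5
    [[(k1,k30),(k10,k45)],[(k5,k30),(k7,k30),(k3,k33)],[(k0,k33),(k4,k39),(k2,k42)],[(k7,k33),(k5,k39),(k3,k42)],[(k0,
    k30),(k2,k39),(k4,k42)],[(k7,k36),(k3,k39),(k5,k42)],[(k0,k30),(k2,k33),(k4,k36)],[(k6,k30),(k8,k35),(k9,k35),
    (k11,k45)],[(k6,k35),(k8,k40),(k9,k40),(k11,k50)],[(k6,k35),(k8,k40),(k9,k40),(k11,k50)],[(k6,k45),(k8,k50),(k9,
    k50),(k11,k60)],[(k1,k45),(k10,k60)]]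
    [] k0
    [[k0,k2,k0,k0,k0,k0],[k0,k1,k1,k0,k0,k0],[k0,k0,k2,k0,k0,k0],[k0,k0,k0,k0,k2,k0]]
    [.contra [z1],.ref k0 k0 [(z1,[y1,z1])],.contra [z1],.contra [z1]])]⟩

/-- classes `0 0 0 1 1 2`, types `C0 C0 C2 B0 B1 C0` -/
noncomputable def cU6_572 : CertX :=
  ⟨[k4,k4,k6,k24,k25,k36],[],[[[]]],
    [.old (.lp [k2,k6,k4,k2,k4,k4] [k2,k2,k0,k0,k1,k1,k2,k2,k1,k1,k1,k1] k0 [] k12 k5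
    [[(k10,k3)],[(k4,k3),(k5,k3),(k3,k4)],[(k0,k4),(k7,k4),(k2,k6)],[(k4,k5),(k5,k5),(k3,k6)],[(k0,k3),(k7,k3),(k2,
    k5)],[(k0,k3),(k7,k3),(k2,k5)],[(k4,k3),(k5,k3),(k3,k4)],[(k8,k3),(k11,k3)],[(k8,k4),(k11,k4)],[(k6,k3),(k9,k4)],
    [(k6,k3),(k9,k4)],[(k1,k3)]]
    [] k0
    [[k0,k0,k0,k0,k2,k0]]
    [.contra [z1]])]⟩

/-- classes `0 0 0 1 1 2`, types `C0 C0 C2 B0 B1 S0` -/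
noncomputable def cU6_573 : CertX :=
  ⟨[k4,k4,k6,k24,k25,k32],[],[[[]]],
    [.old (.lp [k18,k16,k12,k12,k24,k12] [k3,k3,k4,k4,k6,k6,k6,k6,k0,k0,k6,k6] k0 [] k48 k5
    [[(k10,k15),(k1,k18)],[(k4,k15),(k5,k15),(k3,k17)],[(k7,k14),(k2,k16),(k0,k17)],[(k4,k14),(k5,k14),(k3,k16)],[(k7,
    k12),(k2,k14),(k0,k15)],[(k7,k12),(k2,k14),(k0,k15)],[(k4,k12),(k5,k12),(k3,k14)],[(k11,k12),(k8,k18)],[(k11,k18),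
    (k8,k24)],[(k6,k18),(k9,k24)],[(k6,k12),(k9,k18)],[(k10,k12),(k1,k15)]]
    [] k0
    [[k0,k2,k0,k0,k0,k0]]
    [.contra [z1]])]⟩

/-- classes `0 0 0 1 1 2`, types `C0 C0 C2 C0 C0 C0` -/
noncomputable def cU6_574 : CertX :=
  ⟨[k4,k4,k6,k20,k20,k36],[],[[[]]],
    [.old (.lp [k4,k6,k2,k4,k4,k2] [k1,k1,k0,k0,k2,k2,k1,k1,k1,k1,k2,k2] k0 [] k12 k5
    [[(k10,k3)],[(k4,k3),(k5,k3),(k3,k5)],[(k0,k5),(k7,k5),(k2,k6)],[(k4,k4),(k5,k4),(k3,k6)],[(k0,k3),(k7,k3),(k2,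
    k4)],[(k0,k3),(k7,k3),(k2,k4)],[(k4,k3),(k5,k3),(k3,k5)],[(k11,k3),(k9,k4)],[(k6,k4),(k8,k4)],[(k11,k3),(k9,k4)],
    [(k6,k3),(k8,k3)],[(k1,k3)]]
    [] k0
    [[k0,k0,k0,k0,k2,k0]]
    [.contra [z1]])]⟩

/-- classes `0 0 0 1 1 2`, types `C0 C0 C2 C0 C0 S0` -/
noncomputable def cU6_575 : CertX :=
  ⟨[k4,k4,k6,k20,k20,k32],[],[[[]]],
    [.old (.lp [k10,k10,k6,k6,k8,k6] [k0,k0,k0,k0,k2,k2,k2,k2,k1,k1,k2,k2] k0 [[k0,k0,k2],[],[],[k0,k2]] k24 k5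
    [[(k10,k8),(k1,k10)],[(k5,k6),(k4,k8),(k3,k10)],[(k7,k8),(k0,k10),(k2,k12)],[(k4,k8),(k5,k8),(k3,k12)],[(k0,k6),
    (k7,k6),(k2,k8)],[(k7,k6),(k0,k8),(k2,k8)],[(k4,k6),(k5,k6),(k3,k8)],[(k11,k6),(k9,k7)],[(k6,k7),(k8,k8)],[(k11,
    k7),(k9,k8)],[(k6,k6),(k8,k7)],[(k10,k6),(k1,k8)]]
    [] k0
    [[k0,k0,k0,k0,k2,k0]]
    [.contra [z1]])]⟩

/-- classes `0 0 0 1 1 2`, types `C0 C0 C2 C0 C2 C0` -/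
noncomputable def cU6_576 : CertX :=
  ⟨[k4,k4,k6,k20,k22,k36],[],[[[]]],
    [.old (.lp [k2,k4,k2,k2,k2,k2] [k1,k1,k0,k0,k1,k1,k1,k1,k1,k1,k1,k1] k0 [] k8 k5
    [[(k10,k2)],[(k4,k2),(k5,k2),(k3,k3)],[(k0,k3),(k7,k3),(k2,k4)],[(k4,k3),(k5,k3),(k3,k4)],[(k0,k2),(k7,k2),(k2,
    k3)],[(k0,k2),(k7,k2),(k2,k3)],[(k4,k2),(k5,k2),(k3,k3)],[(k8,k2),(k9,k2)],[(k6,k2),(k11,k2)],[(k6,k2),(k11,k2)],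
    [(k8,k2),(k9,k2)],[(k1,k2)]]
    [] k0
    []
    [])]⟩

/-- classes `0 0 0 1 1 2`, types `C0 C0 C2 C0 C2 S0` -/
noncomputable def cU6_577 : CertX :=
  ⟨[k4,k4,k6,k20,k22,k32],[],[[[]]],
    [.old (.lp [k8,k12,k4,k8,k4,k10] [k2,k2,k0,k0,k4,k4,k2,k2,k4,k4,k1,k1] k0 [[],[k0,k0,k0,k0,k4],[],[],[],[k4]] k24 k5
    [[(k1,k8),(k10,k9)],[(k5,k6),(k3,k10),(k4,k10)],[(k7,k6),(k0,k10),(k2,k12)],[(k4,k8),(k5,k8),(k3,k12)],[(k0,k6),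
    (k7,k6),(k2,k8)],[(k7,k6),(k2,k8),(k0,k10)],[(k3,k6),(k4,k6),(k5,k6)],[(k8,k6),(k9,k6)],[(k6,k6),(k11,k7)],[(k6,
    k6),(k11,k7)],[(k8,k7),(k9,k7)],[(k1,k9),(k10,k10)]]
    [] k0
    []
    [])]⟩

/-- classes `0 0 0 1 1 2`, types `C0 C0 C2 N0 N1 C0` -/
noncomputable def cU6_578 : CertX :=
  ⟨[k4,k4,k6,k28,k29,k36],[],[[[]]],
    [.old (.lp [k6,k6,k0,k6,k4,k0] [k0,k0,k0,k0,k3,k3,k0,k0,k1,k1,k3,k3] k0 [] k12 k5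
    [[(k10,k3)],[(k4,k3),(k5,k3),(k3,k6)],[(k0,k6),(k2,k6),(k7,k6)],[(k4,k3),(k5,k3),(k3,k6)],[(k0,k3),(k2,k3),(k7,
    k3)],[(k0,k3),(k2,k3),(k7,k3)],[(k4,k3),(k5,k3),(k3,k6)],[(k11,k3)],[(k8,k4)],[(k9,k4)],[(k6,k3)],[(k1,k3)]]
    [] k0
    [[k0,k0,k0,k0,k2,k0]]
    [.contra [z1]])]⟩

/-- classes `0 0 0 1 1 2`, types `C0 C0 C2 N0 N1 S0` -/
noncomputable def cU6_579 : CertX :=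
  ⟨[k4,k4,k6,k28,k29,k32],[],[[[]]],
    [.old (.lp [k10,k10,k6,k6,k8,k6] [k0,k0,k0,k0,k2,k2,k2,k2,k1,k1,k2,k2] k0 [[k0,k0,k2],[],[],[k0,k2]] k24 k5
    [[(k10,k8),(k1,k10)],[(k5,k6),(k4,k8),(k3,k10)],[(k7,k8),(k0,k10),(k2,k12)],[(k4,k8),(k5,k8),(k3,k12)],[(k0,k6),
    (k7,k6),(k2,k8)],[(k7,k6),(k0,k8),(k2,k8)],[(k4,k6),(k5,k6),(k3,k8)],[(k11,k6)],[(k8,k8)],[(k9,k8)],[(k6,k6)],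
    [(k10,k6),(k1,k8)]]
    [] k0
    [[k0,k0,k0,k0,k2,k0]]
    [.contra [z1]])]⟩

/-- classes `0 0 0 1 1 2`, types `C0 C0 C2 N0 N2 C0` -/
noncomputable def cU6_580 : CertX :=
  ⟨[k4,k4,k6,k28,k30,k36],[],[[[]]],
    [.old (.lp [k2,k4,k2,k2,k2,k2] [k1,k1,k0,k0,k1,k1,k1,k1,k1,k1,k1,k1] k0 [] k8 k5
    [[(k10,k2)],[(k4,k2),(k5,k2),(k3,k3)],[(k0,k3),(k7,k3),(k2,k4)],[(k4,k3),(k5,k3),(k3,k4)],[(k0,k2),(k7,k2),(k2,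
    k3)],[(k0,k2),(k7,k2),(k2,k3)],[(k4,k2),(k5,k2),(k3,k3)],[(k8,k2)],[(k11,k2)],[(k6,k2)],[(k9,k2)],[(k1,k2)]]
    [] k0
    []
    [])]⟩

/-- classes `0 0 0 1 1 2`, types `C0 C0 C2 N0 N2 S0` -/
noncomputable def cU6_581 : CertX :=
  ⟨[k4,k4,k6,k28,k30,k32],[],[[[]]],
    [.old (.lp [k10,k10,k6,k6,k6,k6] [k0,k0,k0,k0,k2,k2,k2,k2,k2,k2,k2,k2] k0 [[k0,k0,k2],[],[],[k0,k2]] k24 k5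
    [[(k10,k8),(k1,k10)],[(k5,k6),(k4,k8),(k3,k10)],[(k7,k8),(k0,k10),(k2,k12)],[(k4,k8),(k5,k8),(k3,k12)],[(k0,k6),
    (k7,k6),(k2,k8)],[(k7,k6),(k0,k8),(k2,k8)],[(k4,k6),(k5,k6),(k3,k8)],[(k8,k6)],[(k11,k6)],[(k6,k6)],[(k9,k6)],
    [(k10,k6),(k1,k8)]]
    [] k0
    []
    [])]⟩

/-- classes `0 0 0 1 1 2`, types `C0 C0 C2 S0 S0 C0` -/
noncomputable def cU6_582 : CertX :=
  ⟨[k4,k4,k6,k16,k16,k36],[],[[[]]],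
    [.old (.lp [k12,k16,k12,k18,k24,k12] [k6,k6,k4,k4,k6,k6,k3,k3,k0,k0,k6,k6] k0 [] k48 k5
    [[(k10,k12)],[(k4,k12),(k5,k12),(k3,k14)],[(k0,k14),(k2,k16),(k7,k17)],[(k4,k14),(k5,k14),(k3,k16)],[(k0,k12),(k2,
    k14),(k7,k15)],[(k0,k12),(k2,k14),(k7,k15)],[(k4,k15),(k5,k15),(k3,k17)],[(k11,k15),(k6,k18),(k8,k21),(k9,k21)],
    [(k11,k18),(k6,k21),(k8,k24),(k9,k24)],[(k11,k18),(k6,k21),(k8,k24),(k9,k24)],[(k11,k12),(k6,k15),(k8,k18),(k9,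
    k18)],[(k1,k12)]]
    [] k0
    [[k0,k2,k0,k0,k0,k0]]
    [.contra [z1]])]⟩

/-- classes `0 0 0 1 1 2`, types `C0 C0 C2 S0 S0 S0` -/
noncomputable def cU6_583 : CertX :=
  ⟨[k4,k4,k6,k16,k16,k32],[],[[[]]],
    [.old (.lp [k48,k18,k46,k36,k30,k60] [k16,k26,k36,k36,k22,k22,k30,k24,k30,k30,k30,k0] k0 [[k0,k0,k22],[],[k0,k0,k0,k0,
    k0,k2],[k0,k22],[k0,k0,k0,k2],[],[k0,k0,k0,k0,k0,k0,k0,k0,k30],[],[],[k0,k0,k0,k0,k0,k0,k0,k30]] k120 k5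
    [[(k10,k34),(k1,k38)],[(k5,k30),(k3,k38),(k4,k52)],[(k7,k30),(k0,k38),(k2,k40)],[(k4,k30),(k5,k32),(k3,k40)],[(k0,
    k30),(k2,k32),(k7,k46)],[(k2,k30),(k7,k44),(k0,k52)],[(k3,k30),(k4,k44),(k5,k46)],[(k6,k30),(k8,k30),(k9,k30),
    (k11,k30)],[(k6,k30),(k9,k30),(k8,k60),(k11,k60)],[(k6,k30),(k8,k30),(k9,k60),(k11,k60)],[(k6,k30),(k8,k60),(k9,
    k60),(k11,k90)],[(k10,k30),(k1,k34)]]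
    [] k0
    [[k0,k2,k0,k0,k0,k0],[k0,k0,k0,k0,k2,k0]]
    [.contra [z1],.contra [z1]])]⟩

/-- classes `0 0 0 1 1 2`, types `C0 C2 C0 B0 B1 C0` -/
noncomputable def cU6_584 : CertX :=
  ⟨[k4,k6,k4,k24,k25,k36],[(false,k0,[k0,k1,k2,k3,k4,k5])],[[[([z1,z0,z0,z1,z1,z1],z2)],[]]],
    [.old (.leafM k1 [k5,k0,k3,k4] [] [(k1,k2,z1,[y1,z1]),(k2,k1,z1,[y1,z1])]),
    .old (.lp [k0,k6,k0,k6,k4,k6] [k3,k3,k0,k0,k3,k3,k0,k0,k1,k1,k0,k0] k0 [] k12 k5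
    [[(k10,k3)],[(k2,k3),(k3,k3),(k7,k3)],[(k0,k3),(k4,k3),(k5,k3)],[(k0,k3),(k4,k3),(k5,k3)],[(k2,k3),(k3,k3),(k7,
    k3)],[(k2,k3),(k3,k3),(k7,k3)],[(k0,k3),(k4,k3),(k5,k3)],[(k8,k5),(k11,k6)],[(k8,k4),(k11,k5)],[(k9,k4),(k6,k5)],
    [(k9,k5),(k6,k6)],[(k1,k3)]]
    [] k0
    [[k0,k1,k1,k0,k0,k0],[k0,k0,k0,k0,k2,k0]]
    [.ref k0 k0 [(z1,[y1,z1])],.contra [z1]])]⟩

/-- classes `0 0 0 1 1 2`, types `C0 C2 C0 B0 B1 S0` -/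
noncomputable def cU6_585 : CertX :=
  ⟨[k4,k6,k4,k24,k25,k32],[(false,k0,[k0,k1,k2,k3,k4,k5])],[[[([z1,z0,z0,z1,z1,z1],z2)],[]]],
    [.old (.leafM k1 [k5,k0,k3,k4] [] [(k1,k2,z1,[y1,z1]),(k2,k1,z1,[y1,z1])]),
    .old (.lp [k12,k6,k6,k6,k8,k6] [k0,k0,k3,k3,k3,k3,k3,k3,k2,k2,k3,k3] k0 [] k24 k5
    [[(k10,k9),(k1,k12)],[(k2,k9),(k3,k9),(k7,k9)],[(k4,k6),(k5,k6),(k0,k9)],[(k4,k6),(k5,k6),(k0,k9)],[(k2,k6),(k3,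
    k6),(k7,k6)],[(k2,k6),(k3,k6),(k7,k6)],[(k4,k6),(k5,k6),(k0,k9)],[(k11,k6),(k8,k7)],[(k11,k7),(k8,k8)],[(k6,k7),
    (k9,k8)],[(k6,k6),(k9,k7)],[(k10,k6),(k1,k9)]]
    [] k0
    [[k0,k1,k1,k0,k0,k0],[k0,k0,k0,k0,k2,k0]]
    [.ref k0 k0 [(z1,[y1,z1])],.contra [z1]])]⟩

/-- classes `0 0 0 1 1 2`, types `C0 C2 C0 C0 C0 C0` -/
noncomputable def cU6_586 : CertX :=
  ⟨[k4,k6,k4,k20,k20,k36],[(false,k0,[k0,k1,k2,k3,k4,k5])],[[[([z1,z0,z0,z1,z1,z1],z2)],[]]],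
    [.old (.leafM k0 [k0,k3,k4,k5] [] [(k1,k2,z1,[y1,z1]),(k2,k1,z1,[y1,z1])]),
    .old (.lp [k4,k2,k4,k6,k4,k2] [k1,k1,k2,k2,k1,k1,k0,k0,k1,k1,k2,k2] k0 [] k12 k5
    [[(k10,k3)],[(k2,k3),(k3,k3),(k7,k5)],[(k0,k3),(k4,k3),(k5,k3)],[(k0,k3),(k4,k3),(k5,k3)],[(k2,k3),(k3,k3),(k7,
    k5)],[(k2,k3),(k3,k3),(k7,k5)],[(k0,k5),(k4,k5),(k5,k5)],[(k11,k4),(k9,k5)],[(k8,k4),(k6,k5)],[(k11,k3),(k9,k4)],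
    [(k8,k3),(k6,k4)],[(k1,k3)]]
    [] k0
    [[k0,k1,k1,k0,k0,k0],[k0,k0,k0,k0,k2,k0]]
    [.ref k0 k0 [(z1,[y1,z1])],.contra [z1]])]⟩

/-- classes `0 0 0 1 1 2`, types `C0 C2 C0 C0 C0 S0` -/
noncomputable def cU6_587 : CertX :=
  ⟨[k4,k6,k4,k20,k20,k32],[(false,k0,[k0,k1,k2,k3,k4,k5])],[[[([z1,z0,z0,z1,z1,z1],z2)],[]]],
    [.old (.leafM k0 [k0,k3,k4,k5] [] [(k1,k2,z1,[y1,z1]),(k2,k1,z1,[y1,z1])]),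
    .old (.lp [k6,k12,k0,k12,k8,k6] [k3,k3,k0,k0,k6,k6,k0,k0,k2,k2,k3,k3] k0 [] k24 k5
    [[(k1,k6),(k10,k6)],[(k2,k9),(k3,k9),(k7,k9)],[(k4,k6),(k5,k6),(k0,k9)],[(k4,k6),(k5,k6),(k0,k9)],[(k2,k6),(k3,
    k6),(k7,k6)],[(k2,k6),(k3,k6),(k7,k6)],[(k4,k6),(k5,k6),(k0,k9)],[(k11,k9),(k9,k10)],[(k8,k8),(k6,k10)],[(k11,k7),
    (k9,k8)],[(k8,k7),(k6,k9)],[(k1,k6),(k10,k6)]]
    [] k0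
    [[k0,k1,k1,k0,k0,k0],[k0,k0,k0,k0,k2,k0]]
    [.ref k0 k0 [(z1,[y1,z1])],.contra [z1]])]⟩

/-- classes `0 0 0 1 1 2`, types `C0 C2 C0 C0 C2 C0` -/
noncomputable def cU6_588 : CertX :=
  ⟨[k4,k6,k4,k20,k22,k36],[(false,k0,[k0,k1,k2,k3,k4,k5])],[[[([z1,z0,z0,z1,z1,z1],z2)],[]]],
    [.old (.leafM k0 [k0,k3,k4,k5] [] [(k1,k2,z1,[y1,z1]),(k2,k1,z1,[y1,z1])]),
    .old (.lp [k0,k2,k0,k2,k0,k2] [k1,k1,k0,k0,k1,k1,k0,k0,k1,k1,k0,k0] k0 [] k4 k5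
    [[(k10,k1)],[(k2,k1),(k3,k1),(k7,k1)],[(k0,k1),(k4,k1),(k5,k1)],[(k0,k1),(k4,k1),(k5,k1)],[(k2,k1),(k3,k1),(k7,
    k1)],[(k2,k1),(k3,k1),(k7,k1)],[(k0,k1),(k4,k1),(k5,k1)],[(k8,k1),(k9,k1)],[(k6,k1),(k11,k1)],[(k6,k1),(k11,k1)],
    [(k8,k1),(k9,k1)],[(k1,k1)]]
    [] k0
    [[k0,k1,k1,k0,k0,k0]]
    [.ref k0 k0 [(z1,[y1,z1])]])]⟩

/-- classes `0 0 0 1 1 2`, types `C0 C2 C0 C0 C2 S0` -/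
noncomputable def cU6_589 : CertX :=
  ⟨[k4,k6,k4,k20,k22,k32],[(false,k0,[k0,k1,k2,k3,k4,k5])],[[[([z1,z0,z0,z1,z1,z1],z2)],[]]],
    [.old (.leafM k0 [k0,k3,k4,k5] [] [(k1,k2,z1,[y1,z1]),(k2,k1,z1,[y1,z1])]),
    .old (.lp [k2,k4,k0,k4,k0,k4] [k1,k1,k0,k0,k2,k2,k0,k0,k2,k2,k0,k0] k0 [] k8 k5
    [[(k1,k2),(k10,k3)],[(k2,k3),(k3,k3),(k7,k3)],[(k4,k2),(k5,k2),(k0,k3)],[(k4,k2),(k5,k2),(k0,k3)],[(k2,k2),(k3,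
    k2),(k7,k2)],[(k2,k2),(k3,k2),(k7,k2)],[(k4,k2),(k5,k2),(k0,k3)],[(k8,k2),(k9,k2)],[(k6,k2),(k11,k2)],[(k6,k2),
    (k11,k2)],[(k8,k2),(k9,k2)],[(k1,k3),(k10,k4)]]
    [] k0
    [[k0,k1,k1,k0,k0,k0]]
    [.ref k0 k0 [(z1,[y1,z1])]])]⟩

/-- classes `0 0 0 1 1 2`, types `C0 C2 C0 N0 N1 C0` -/
noncomputable def cU6_590 : CertX :=
  ⟨[k4,k6,k4,k28,k29,k36],[(false,k0,[k0,k1,k2,k3,k4,k5])],[[[([z1,z0,z0,z1,z1,z1],z2)],[]]],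
    [.old (.lp [k6,k6,k24,k6,k10,k6] [k9,k9,k9,k9,k0,k0,k9,k9,k7,k7,k9,k9] k0 [] k30 k6
    [[(k10,k6)],[(k2,k6),(k3,k6),(k7,k6)],[(k0,k6),(k4,k15),(k5,k15)],[(k0,k6),(k4,k15),(k5,k15)],[(k2,k15),(k3,k15),
    (k7,k15)],[(k2,k15),(k3,k15),(k7,k15)],[(k0,k6),(k4,k15),(k5,k15)],[(k11,k6)],[(k8,k10)],[(k9,k10)],[(k6,k6)],
    [(k1,k6)]]
    [] k0
    [[k1,k0,k0,k1,k0,k1],[k0,k0,k0,k0,k2,k0]]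
    [.contra [y1,z1],.contra [z1]]),
    .old (.lp [k6,k0,k6,k6,k4,k0] [k0,k0,k3,k3,k0,k0,k0,k0,k1,k1,k3,k3] k0 [] k12 k5
    [[(k10,k3)],[(k2,k3),(k3,k3),(k7,k6)],[(k0,k3),(k4,k3),(k5,k3)],[(k0,k3),(k4,k3),(k5,k3)],[(k2,k3),(k3,k3),(k7,
    k6)],[(k2,k3),(k3,k3),(k7,k6)],[(k0,k6),(k4,k6),(k5,k6)],[(k11,k3)],[(k8,k4)],[(k9,k4)],[(k6,k3)],[(k1,k3)]]
    [] k0
    [[k0,k1,k1,k0,k0,k0],[k0,k0,k0,k0,k2,k0]]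
    [.ref k0 k0 [(z1,[y1,z1])],.contra [z1]])]⟩

/-- classes `0 0 0 1 1 2`, types `C0 C2 C0 N0 N1 S0` -/
noncomputable def cU6_591 : CertX :=
  ⟨[k4,k6,k4,k28,k29,k32],[(false,k0,[k0,k1,k2,k3,k4,k5])],[[[([z1,z0,z0,z1,z1,z1],z2)],[]]],
    [.old (.lp [k6,k24,k6,k6,k10,k6] [k9,k9,k0,k0,k9,k9,k9,k9,k7,k7,k9,k9] k0 [] k30 k6
    [[(k1,k6),(k10,k6)],[(k7,k6),(k2,k15),(k3,k15)],[(k0,k15),(k4,k15),(k5,k15)],[(k0,k15),(k4,k15),(k5,k15)],[(k7,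
    k6),(k2,k15),(k3,k15)],[(k7,k6),(k2,k15),(k3,k15)],[(k0,k6),(k4,k6),(k5,k6)],[(k11,k6)],[(k8,k10)],[(k9,k10)],
    [(k6,k6)],[(k1,k6),(k10,k6)]]
    [] k0
    [[k1,k0,k0,k1,k0,k1],[k0,k0,k0,k0,k2,k0]]
    [.contra [y1,z1],.contra [z1]]),
    .old (.lp [k6,k12,k0,k12,k8,k6] [k3,k3,k0,k0,k6,k6,k0,k0,k2,k2,k3,k3] k0 [] k24 k5
    [[(k1,k6),(k10,k6)],[(k2,k9),(k3,k9),(k7,k9)],[(k4,k6),(k5,k6),(k0,k9)],[(k4,k6),(k5,k6),(k0,k9)],[(k2,k6),(k3,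
    k6),(k7,k6)],[(k2,k6),(k3,k6),(k7,k6)],[(k4,k6),(k5,k6),(k0,k9)],[(k11,k9)],[(k8,k8)],[(k9,k8)],[(k6,k9)],[(k1,
    k6),(k10,k6)]]
    [] k0
    [[k0,k1,k1,k0,k0,k0],[k0,k0,k0,k0,k2,k0]]
    [.ref k0 k0 [(z1,[y1,z1])],.contra [z1]])]⟩

/-- classes `0 0 0 1 1 2`, types `C0 C2 C0 N0 N2 C0` -/
noncomputable def cU6_592 : CertX :=
  ⟨[k4,k6,k4,k28,k30,k36],[(false,k0,[k0,k1,k2,k3,k4,k5])],[[[([z1,z0,z0,z1,z1,z1],z2)],[]]],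
    [.old (.leafM k1 [k5,k0,k3,k4] [] [(k1,k2,z1,[y1,z1]),(k2,k1,z1,[y1,z1])]),
    .old (.lp [k0,k2,k0,k2,k0,k2] [k1,k1,k0,k0,k1,k1,k0,k0,k1,k1,k0,k0] k0 [] k4 k5
    [[(k10,k1)],[(k2,k1),(k3,k1),(k7,k1)],[(k0,k1),(k4,k1),(k5,k1)],[(k0,k1),(k4,k1),(k5,k1)],[(k2,k1),(k3,k1),(k7,
    k1)],[(k2,k1),(k3,k1),(k7,k1)],[(k0,k1),(k4,k1),(k5,k1)],[(k8,k1)],[(k11,k1)],[(k6,k1)],[(k9,k1)],[(k1,k1)]]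
    [] k0
    [[k0,k1,k1,k0,k0,k0]]
    [.ref k0 k0 [(z1,[y1,z1])]])]⟩

/-- classes `0 0 0 1 1 2`, types `C0 C2 C0 N0 N2 S0` -/
noncomputable def cU6_593 : CertX :=
  ⟨[k4,k6,k4,k28,k30,k32],[(false,k0,[k0,k1,k2,k3,k4,k5])],[[[([z1,z0,z0,z1,z1,z1],z2)],[]]],
    [.old (.leafM k1 [k5,k0,k3,k4] [] [(k1,k2,z1,[y1,z1]),(k2,k1,z1,[y1,z1])]),
    .old (.lp [k6,k4,k4,k4,k4,k4] [k0,k0,k1,k1,k1,k1,k1,k1,k1,k1,k1,k1] k0 [] k16 k5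
    [[(k10,k5),(k1,k6)],[(k2,k5),(k3,k5),(k7,k5)],[(k4,k4),(k5,k4),(k0,k5)],[(k4,k4),(k5,k4),(k0,k5)],[(k2,k4),(k3,
    k4),(k7,k4)],[(k2,k4),(k3,k4),(k7,k4)],[(k4,k4),(k5,k4),(k0,k5)],[(k8,k4)],[(k11,k4)],[(k6,k4)],[(k9,k4)],[(k10,
    k4),(k1,k5)]]
    [] k0
    [[k0,k1,k1,k0,k0,k0]]
    [.ref k0 k0 [(z1,[y1,z1])]])]⟩

/-- classes `0 0 0 1 1 2`, types `C0 C2 C0 S0 S0 C0` -/
noncomputable def cU6_594 : CertX :=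
  ⟨[k4,k6,k4,k16,k16,k36],[(false,k0,[k0,k1,k2,k3,k4,k5])],[[[([z1,z0,z0,z1,z1,z1],z2)],[]]],
    [.old (.leafM k0 [k0,k3,k4,k5] [] [(k1,k2,z1,[y1,z1]),(k2,k1,z1,[y1,z1])]),
    .old (.lp [k6,k12,k0,k12,k8,k6] [k3,k3,k0,k0,k6,k6,k0,k0,k2,k2,k3,k3] k0 [] k24 k5
    [[(k10,k6)],[(k2,k9),(k3,k9),(k7,k9)],[(k4,k6),(k5,k6),(k0,k9)],[(k4,k6),(k5,k6),(k0,k9)],[(k2,k6),(k3,k6),(k7,
    k6)],[(k2,k6),(k3,k6),(k7,k6)],[(k4,k6),(k5,k6),(k0,k9)],[(k11,k9),(k8,k10),(k9,k10),(k6,k12)],[(k11,k7),(k8,k8),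
    (k9,k8),(k6,k10)],[(k11,k7),(k8,k8),(k9,k8),(k6,k10)],[(k11,k6),(k8,k7),(k9,k7),(k6,k9)],[(k1,k6)]]
    [] k0
    [[k0,k1,k1,k0,k0,k0],[k0,k0,k0,k0,k2,k0]]
    [.ref k0 k0 [(z1,[y1,z1])],.contra [z1]])]⟩

/-- classes `0 0 0 1 1 2`, types `C0 C2 C0 S0 S0 S0` -/
noncomputable def cU6_595 : CertX :=
  ⟨[k4,k6,k4,k16,k16,k32],[(false,k0,[k0,k1,k2,k3,k4,k5])],[[[([z1,z0,z0,z1,z1,z1],z2)],[]]],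
    [.old (.leafM k0 [k0,k3,k4,k5] [] [(k1,k2,z1,[y1,z1]),(k2,k1,z1,[y1,z1])]),
    .old (.lp [k12,k0,k12,k6,k8,k8] [k0,k0,k6,k6,k0,k0,k3,k3,k2,k2,k2,k2] k0 [] k24 k5
    [[(k10,k10),(k1,k12)],[(k2,k6),(k3,k6),(k7,k9)],[(k0,k6),(k4,k6),(k5,k6)],[(k0,k6),(k4,k6),(k5,k6)],[(k2,k6),(k3,
    k6),(k7,k9)],[(k2,k6),(k3,k6),(k7,k9)],[(k0,k9),(k4,k9),(k5,k9)],[(k6,k6),(k8,k7),(k9,k7),(k11,k7)],[(k6,k7),(k8,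
    k8),(k9,k8),(k11,k8)],[(k6,k7),(k8,k8),(k9,k8),(k11,k8)],[(k6,k7),(k8,k8),(k9,k8),(k11,k8)],[(k10,k8),(k1,k10)]]
    [] k0
    [[k0,k1,k1,k0,k0,k0],[k0,k0,k0,k0,k2,k0],[k0,k0,k0,k0,k0,k2]]
    [.ref k0 k0 [(z1,[y1,z1])],.contra [z1],.contra [z1]])]⟩

/-- classes `0 0 0 1 1 2`, types `C0 C2 C2 B0 B1 C0` -/
noncomputable def cU6_596 : CertX :=
  ⟨[k4,k6,k6,k24,k25,k36],[],[[[]]],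
    [.old (.lp [k2,k4,k6,k2,k4,k4] [k2,k2,k1,k1,k0,k0,k2,k2,k1,k1,k1,k1] k0 [] k12 k5
    [[(k10,k3)],[(k2,k3),(k3,k3),(k4,k4)],[(k0,k3),(k7,k3),(k5,k5)],[(k0,k3),(k7,k3),(k5,k5)],[(k2,k5),(k3,k5),(k4,
    k6)],[(k0,k4),(k7,k4),(k5,k6)],[(k2,k3),(k3,k3),(k4,k4)],[(k8,k3),(k11,k3)],[(k8,k4),(k11,k4)],[(k6,k3),(k9,k4)],
    [(k6,k3),(k9,k4)],[(k1,k3)]]
    [] k0
    [[k0,k0,k0,k0,k2,k0]]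
    [.contra [z1]])]⟩

/-- classes `0 0 0 1 1 2`, types `C0 C2 C2 B0 B1 S0` -/
noncomputable def cU6_597 : CertX :=
  ⟨[k4,k6,k6,k24,k25,k32],[],[[[]]],
    [.old (.lp [k18,k12,k16,k12,k24,k12] [k3,k3,k6,k6,k4,k4,k6,k6,k0,k0,k6,k6] k0 [] k48 k5
    [[(k10,k15),(k1,k18)],[(k2,k15),(k3,k15),(k4,k17)],[(k7,k12),(k5,k14),(k0,k15)],[(k7,k12),(k5,k14),(k0,k15)],[(k2,
    k14),(k3,k14),(k4,k16)],[(k7,k14),(k5,k16),(k0,k17)],[(k2,k12),(k3,k12),(k4,k14)],[(k11,k12),(k8,k18)],[(k11,k18),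
    (k8,k24)],[(k6,k18),(k9,k24)],[(k6,k12),(k9,k18)],[(k10,k12),(k1,k15)]]
    [] k0
    [[k0,k0,k2,k0,k0,k0]]
    [.contra [z1]])]⟩

/-- classes `0 0 0 1 1 2`, types `C0 C2 C2 C0 C0 C0` -/
noncomputable def cU6_598 : CertX :=
  ⟨[k4,k6,k6,k20,k20,k36],[],[[[]]],
    [.old (.lp [k4,k2,k4,k4,k6,k2] [k1,k1,k2,k2,k1,k1,k1,k1,k0,k0,k2,k2] k0 [] k12 k5
    [[(k10,k3)],[(k2,k3),(k3,k3),(k4,k4)],[(k0,k3),(k5,k3),(k7,k3)],[(k0,k3),(k5,k3),(k7,k3)],[(k2,k3),(k3,k3),(k4,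
    k4)],[(k0,k4),(k5,k4),(k7,k4)],[(k2,k3),(k3,k3),(k4,k4)],[(k11,k3),(k9,k5)],[(k6,k5),(k8,k6)],[(k11,k4),(k9,k6)],
    [(k6,k3),(k8,k4)],[(k1,k3)]]
    [] k0
    [[k0,k0,k2,k0,k0,k0]]
    [.contra [z1]])]⟩

/-- classes `0 0 0 1 1 2`, types `C0 C2 C2 C0 C0 S0` -/
noncomputable def cU6_599 : CertX :=
  ⟨[k4,k6,k6,k20,k20,k32],[],[[[]]],
    [.old (.lp [k8,k6,k12,k6,k8,k6] [k2,k2,k3,k3,k0,k0,k3,k3,k2,k2,k3,k3] k0 [[],[k0,k0,k2],[],[k2]] k24 k5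
    [[(k10,k7),(k1,k8)],[(k3,k7),(k2,k9),(k4,k10)],[(k7,k6),(k0,k7),(k5,k7)],[(k7,k6),(k0,k9),(k5,k9)],[(k3,k7),(k2,
    k9),(k4,k12)],[(k7,k9),(k0,k10),(k5,k12)],[(k2,k6),(k3,k6),(k4,k9)],[(k11,k6),(k9,k7)],[(k6,k7),(k8,k8)],[(k11,
    k7),(k9,k8)],[(k6,k6),(k8,k7)],[(k10,k6),(k1,k7)]]
    [] k0
    [[k0,k0,k0,k0,k2,k0]]
    [.contra [z1]])]⟩

/-- classes `0 0 0 1 1 2`, types `C0 C2 C2 C0 C2 C0` -/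
noncomputable def cU6_600 : CertX :=
  ⟨[k4,k6,k6,k20,k22,k36],[],[[[]]],
    [.old (.lp [k2,k2,k4,k2,k2,k2] [k1,k1,k1,k1,k0,k0,k1,k1,k1,k1,k1,k1] k0 [] k8 k5
    [[(k10,k2)],[(k2,k2),(k3,k2),(k4,k3)],[(k0,k2),(k7,k2),(k5,k3)],[(k0,k2),(k7,k2),(k5,k3)],[(k2,k3),(k3,k3),(k4,
    k4)],[(k0,k3),(k7,k3),(k5,k4)],[(k2,k2),(k3,k2),(k4,k3)],[(k8,k2),(k9,k2)],[(k6,k2),(k11,k2)],[(k6,k2),(k11,k2)],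
    [(k8,k2),(k9,k2)],[(k1,k2)]]
    [] k0
    []
    [])]⟩

/-- classes `0 0 0 1 1 2`, types `C0 C2 C2 C0 C2 S0` -/
noncomputable def cU6_601 : CertX :=
  ⟨[k4,k6,k6,k20,k22,k32],[],[[[]]],
    [.old (.lp [k6,k8,k12,k4,k8,k8] [k3,k3,k2,k2,k0,k0,k4,k4,k2,k2,k2,k2] k0 [[],[k0,k0,k4],[],[k4]] k24 k5
    [[(k1,k6),(k10,k7)],[(k3,k7),(k4,k9),(k2,k11)],[(k5,k6),(k7,k6),(k0,k7)],[(k7,k6),(k5,k10),(k0,k11)],[(k3,k6),(k2,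
    k10),(k4,k12)],[(k7,k8),(k0,k9),(k5,k12)],[(k2,k6),(k3,k6),(k4,k8)],[(k8,k6),(k9,k6)],[(k6,k6),(k11,k8)],[(k6,k6),
    (k11,k8)],[(k8,k8),(k9,k8)],[(k1,k7),(k10,k8)]]
    [] k0
    []
    [])]⟩

/-- classes `0 0 0 1 1 2`, types `C0 C2 C2 N0 N1 C0` -/
noncomputable def cU6_602 : CertX :=
  ⟨[k4,k6,k6,k28,k29,k36],[],[[[]]],
    [.old (.lp [k4,k2,k4,k4,k6,k2] [k1,k1,k2,k2,k1,k1,k1,k1,k0,k0,k2,k2] k0 [] k12 k5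
    [[(k10,k3)],[(k2,k3),(k3,k3),(k4,k4)],[(k0,k3),(k5,k3),(k7,k3)],[(k0,k3),(k5,k3),(k7,k3)],[(k2,k3),(k3,k3),(k4,
    k4)],[(k0,k4),(k5,k4),(k7,k4)],[(k2,k3),(k3,k3),(k4,k4)],[(k11,k3)],[(k8,k6)],[(k9,k6)],[(k6,k3)],[(k1,k3)]]
    [] k0
    [[k0,k0,k2,k0,k0,k0]]
    [.contra [z1]])]⟩

/-- classes `0 0 0 1 1 2`, types `C0 C2 C2 N0 N1 S0` -/
noncomputable def cU6_603 : CertX :=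
  ⟨[k4,k6,k6,k28,k29,k32],[],[[[]]],
    [.old (.lp [k8,k6,k12,k6,k8,k6] [k2,k2,k3,k3,k0,k0,k3,k3,k2,k2,k3,k3] k0 [[],[k0,k0,k2],[],[k2]] k24 k5
    [[(k10,k7),(k1,k8)],[(k3,k7),(k2,k9),(k4,k10)],[(k7,k6),(k0,k7),(k5,k7)],[(k7,k6),(k0,k9),(k5,k9)],[(k3,k7),(k2,
    k9),(k4,k12)],[(k7,k9),(k0,k10),(k5,k12)],[(k2,k6),(k3,k6),(k4,k9)],[(k11,k6)],[(k8,k8)],[(k9,k8)],[(k6,k6)],
    [(k10,k6),(k1,k7)]]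
    [] k0
    [[k0,k0,k0,k0,k2,k0]]
    [.contra [z1]])]⟩

/-- classes `0 0 0 1 1 2`, types `C0 C2 C2 N0 N2 C0` -/
noncomputable def cU6_604 : CertX :=
  ⟨[k4,k6,k6,k28,k30,k36],[],[[[]]],
    [.old (.lp [k2,k2,k4,k2,k2,k2] [k1,k1,k1,k1,k0,k0,k1,k1,k1,k1,k1,k1] k0 [] k8 k5
    [[(k10,k2)],[(k2,k2),(k3,k2),(k4,k3)],[(k0,k2),(k7,k2),(k5,k3)],[(k0,k2),(k7,k2),(k5,k3)],[(k2,k3),(k3,k3),(k4,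
    k4)],[(k0,k3),(k7,k3),(k5,k4)],[(k2,k2),(k3,k2),(k4,k3)],[(k8,k2)],[(k11,k2)],[(k6,k2)],[(k9,k2)],[(k1,k2)]]
    [] k0
    []
    [])]⟩

/-- classes `0 0 0 1 1 2`, types `C0 C2 C2 N0 N2 S0` -/
noncomputable def cU6_605 : CertX :=
  ⟨[k4,k6,k6,k28,k30,k32],[],[[[]]],
    [.old (.lp [k8,k6,k12,k6,k6,k6] [k2,k2,k3,k3,k0,k0,k3,k3,k3,k3,k3,k3] k0 [[],[k0,k0,k2],[],[k2]] k24 k5
    [[(k10,k7),(k1,k8)],[(k3,k7),(k2,k9),(k4,k10)],[(k7,k6),(k0,k7),(k5,k7)],[(k7,k6),(k0,k9),(k5,k9)],[(k3,k7),(k2,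
    k9),(k4,k12)],[(k7,k9),(k0,k10),(k5,k12)],[(k2,k6),(k3,k6),(k4,k9)],[(k8,k6)],[(k11,k6)],[(k6,k6)],[(k9,k6)],
    [(k10,k6),(k1,k7)]]
    [] k0
    []
    [])]⟩

/-- classes `0 0 0 1 1 2`, types `C0 C2 C2 S0 S0 C0` -/
noncomputable def cU6_606 : CertX :=
  ⟨[k4,k6,k6,k16,k16,k36],[],[[[]]],
    [.old (.lp [k6,k6,k10,k10,k8,k6] [k2,k2,k2,k2,k0,k0,k0,k0,k1,k1,k2,k2] k0 [[],[],[k0,k0,k0,k0,k2],[],[],[k0,k0,k0,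
    k2]] k24 k5
    [[(k10,k6)],[(k2,k6),(k3,k6),(k4,k8)],[(k0,k6),(k5,k8),(k7,k8)],[(k0,k6),(k7,k6),(k5,k8)],[(k2,k8),(k3,k8),(k4,
    k12)],[(k0,k8),(k7,k10),(k5,k12)],[(k2,k6),(k3,k8),(k4,k10)],[(k11,k8),(k8,k9),(k9,k9),(k6,k10)],[(k11,k7),(k8,
    k8),(k9,k8),(k6,k9)],[(k11,k7),(k8,k8),(k9,k8),(k6,k9)],[(k11,k6),(k8,k7),(k9,k7),(k6,k8)],[(k1,k6)]]
    [] k0
    [[k0,k0,k0,k0,k2,k0]]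
    [.contra [z1]])]⟩

/-- classes `0 0 0 1 1 2`, types `C0 C2 C2 S0 S0 S0` -/
noncomputable def cU6_607 : CertX :=
  ⟨[k4,k6,k6,k16,k16,k32],[],[[[]]],
    [.old (.lp [k36,k46,k18,k48,k30,k60] [k20,k26,k18,k18,k32,k32,k22,k12,k26,k26,k22,k0] k0 [[],[k0,k0,k2],[k0,k0,k0,k0,
    k22],[k2],[],[k0,k0,k0,k22],[k0,k0,k0,k0,k0,k0,k0,k0,k30],[],[],[k0,k0,k0,k0,k0,k0,k0,k30]] k120 k5
    [[(k1,k30),(k10,k34)],[(k4,k30),(k3,k44),(k2,k46)],[(k5,k30),(k0,k44),(k7,k52)],[(k7,k30),(k5,k32),(k0,k46)],[(k3,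
    k30),(k2,k32),(k4,k40)],[(k0,k30),(k7,k38),(k5,k40)],[(k2,k30),(k4,k38),(k3,k52)],[(k11,k30),(k8,k34),(k9,k34),
    (k6,k38)],[(k9,k30),(k6,k34),(k11,k56),(k8,k60)],[(k8,k30),(k6,k34),(k11,k56),(k9,k60)],[(k6,k30),(k8,k56),(k9,
    k56),(k11,k82)],[(k1,k34),(k10,k38)]]
    [] k0
    [[k0,k0,k2,k0,k0,k0],[k0,k0,k0,k0,k2,k0]]
    [.contra [z1],.contra [z1]])]⟩

/-- the certificates of this file -/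
noncomputable def lU6_17 : List CertX :=
  [cU6_495, cU6_496, cU6_497, cU6_498, cU6_499, cU6_500, cU6_501, cU6_502, cU6_503, cU6_504, cU6_505, cU6_506,
      cU6_507, cU6_508, cU6_509, cU6_510, cU6_511, cU6_512, cU6_513, cU6_514, cU6_515, cU6_516, cU6_517,
      cU6_518, cU6_519, cU6_520, cU6_521, cU6_522, cU6_523, cU6_524, cU6_525, cU6_526, cU6_527, cU6_528,
      cU6_529, cU6_530, cU6_531, cU6_532, cU6_533, cU6_534, cU6_535, cU6_536, cU6_537, cU6_538, cU6_539,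
      cU6_540, cU6_541, cU6_542, cU6_543, cU6_544, cU6_545, cU6_546, cU6_547, cU6_548, cU6_549, cU6_550,
      cU6_551, cU6_552, cU6_553, cU6_554, cU6_555, cU6_556, cU6_557, cU6_558, cU6_559, cU6_560, cU6_561,
      cU6_562, cU6_563, cU6_564, cU6_565, cU6_566, cU6_567, cU6_568, cU6_569, cU6_570, cU6_571, cU6_572,
      cU6_573, cU6_574, cU6_575, cU6_576, cU6_577, cU6_578, cU6_579, cU6_580, cU6_581, cU6_582, cU6_583,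
      cU6_584, cU6_585, cU6_586, cU6_587, cU6_588, cU6_589, cU6_590, cU6_591, cU6_592, cU6_593, cU6_594,
      cU6_595, cU6_596, cU6_597, cU6_598, cU6_599, cU6_600, cU6_601, cU6_602, cU6_603, cU6_604, cU6_605,
      cU6_606, cU6_607]

theorem gU6_17 : allF (chkE 6 ttU6) lU6_17 = true := by
  decide +kernel

end Pool.Agent.Lib_MP_fa6e45
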