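import Pool.Agent.Lib_MP_fa6e45.CXT
import Pool.Agent.Lib_MP_fa6e45.HK

/-!
MP_fa6e45_co, stage 7: certificates (generated by a program).
-/

namespace Pool.Agent.Lib_MP_fa6e45

/-- classes `0 0 0 1 1 2`, types `S0 S0 S0 B0 B1 C0` -/
noncomputable def cU6_608 : CertX :=
  ⟨[k0,k0,k0,k24,k25,k36],[(false,k0,[k0,k1,k2,k3,k4,k5])],[[[([z1,z0,z0,z1,z1,z1],z2)],[]]],
    [.old (.leafM k1 [k5,k0,k3,k4] [] [(k1,k2,z1,[y1,z1]),(k2,k1,z1,[y1,z1])]),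
    .old (.lp [k6,k9,k12,k6,k8,k6] [k3,k3,k3,k0,k0,k0,k3,k3,k2,k2,k3,k3] k0 [[],[k0,k0,k0,k0,k0,k6],[],[],[k6]] k24 k5
    [[(k10,k6)],[(k0,k6),(k2,k6),(k3,k9),(k4,k9),(k5,k9),(k7,k12)],[(k4,k6),(k0,k9),(k2,k9),(k7,k9),(k3,k12),(k5,
    k12)],[(k0,k6),(k2,k6),(k7,k6),(k3,k9),(k4,k9),(k5,k9)],[(k0,k9),(k2,k9),(k7,k9),(k3,k12),(k4,k12),(k5,k12)],[(k3,
    k6),(k0,k9),(k2,k9),(k7,k9),(k4,k12),(k5,k12)],[(k2,k6),(k7,k6),(k3,k9),(k4,k9),(k5,k9),(k0,k12)],[(k11,k6),(k8,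
    k7)],[(k11,k7),(k8,k8)],[(k6,k7),(k9,k8)],[(k6,k6),(k9,k7)],[(k1,k6)]]
    [] k0
    [[k0,k2,k0,k0,k0,k0],[k0,k1,k1,k0,k0,k0],[k0,k0,k0,k0,k2,k0]]
    [.contra [z1],.ref k0 k0 [(z1,[y1,z1])],.contra [z1]])]⟩

/-- classes `0 0 0 1 1 2`, types `S0 S0 S0 B0 B1 S0` -/
noncomputable def cU6_609 : CertX :=
  ⟨[k0,k0,k0,k24,k25,k32],[(false,k0,[k0,k1,k2,k3,k4,k5])],[[[([z1,z0,z0,z1,z1,z1],z2)],[]]],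
    [.old (.leafM k1 [k5,k0,k3,k4] [] [(k1,k2,z1,[y1,z1]),(k2,k1,z1,[y1,z1])]),
    .old (.lp [k14,k24,k16,k12,k16,k12] [k7,k7,k4,k0,k6,k6,k8,k8,k6,k6,k8,k8] k0 [[],[k0,k0,k0,k0,k4,k10],[k0,k0,k0,k0,
    k2],[k0,k0,k0,k0,k2],[k10],[k4,k0,k2,k2]] k48 k5
    [[(k10,k13),(k1,k14)],[(k0,k14),(k5,k15),(k2,k17),(k4,k19),(k3,k21),(k7,k23)],[(k4,k12),(k7,k16),(k0,k21),(k5,
    k22),(k2,k24),(k3,k28)],[(k7,k14),(k0,k17),(k5,k18),(k2,k20),(k4,k20),(k3,k24)],[(k7,k12),(k0,k15),(k5,k16),(k2,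
    k18),(k4,k18),(k3,k22)],[(k3,k12),(k7,k14),(k4,k16),(k5,k18),(k0,k19),(k2,k20)],[(k5,k12),(k7,k12),(k2,k14),(k4,
    k14),(k3,k16),(k0,k23)],[(k11,k12),(k8,k14)],[(k11,k14),(k8,k16)],[(k6,k14),(k9,k16)],[(k6,k12),(k9,k14)],[(k10,
    k12),(k1,k13)]]
    [] k0
    [[k2,k0,k0,k0,k0,k0],[k0,k1,k1,k0,k0,k0],[k0,k0,k2,k0,k0,k0],[k0,k0,k0,k0,k2,k0]]
    [.contra [z1],.ref k0 k0 [(z1,[y1,z1])],.contra [z1],.contra [z1]])]⟩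

/-- classes `0 0 0 1 1 2`, types `S0 S0 S0 C0 C0 C0` -/
noncomputable def cU6_610 : CertX :=
  ⟨[k0,k0,k0,k20,k20,k36],[(false,k0,[k0,k1,k2,k3,k4,k5])],[[[([z1,z0,z0,z1,z1,z1],z2)],[]]],
    [.old (.leafM k0 [k0,k3,k4,k5] [] [(k1,k2,z1,[y1,z1]),(k2,k1,z1,[y1,z1])]),
    .old (.lp [k6,k9,k12,k6,k8,k6] [k3,k3,k3,k0,k0,k0,k3,k3,k2,k2,k3,k3] k0 [[],[k0,k0,k0,k0,k0,k6],[],[],[k6]] k24 k5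
    [[(k10,k6)],[(k0,k6),(k2,k6),(k3,k9),(k4,k9),(k5,k9),(k7,k12)],[(k4,k6),(k0,k9),(k2,k9),(k7,k9),(k3,k12),(k5,
    k12)],[(k0,k6),(k2,k6),(k7,k6),(k3,k9),(k4,k9),(k5,k9)],[(k0,k9),(k2,k9),(k7,k9),(k3,k12),(k4,k12),(k5,k12)],[(k3,
    k6),(k0,k9),(k2,k9),(k7,k9),(k4,k12),(k5,k12)],[(k2,k6),(k7,k6),(k3,k9),(k4,k9),(k5,k9),(k0,k12)],[(k11,k6),(k9,
    k7)],[(k6,k7),(k8,k8)],[(k11,k7),(k9,k8)],[(k6,k6),(k8,k7)],[(k1,k6)]]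
    [] k0
    [[k0,k2,k0,k0,k0,k0],[k0,k1,k1,k0,k0,k0],[k0,k0,k0,k0,k2,k0]]
    [.contra [z1],.ref k0 k0 [(z1,[y1,z1])],.contra [z1]])]⟩

/-- classes `0 0 0 1 1 2`, types `S0 S0 S0 C0 C0 S0` -/
noncomputable def cU6_611 : CertX :=
  ⟨[k0,k0,k0,k20,k20,k32],[(false,k0,[k0,k1,k2,k3,k4,k5])],[[[([z1,z0,z0,z1,z1,z1],z2)],[]]],
    [.old (.leafM k0 [k0,k3,k4,k5] [] [(k1,k2,z1,[y1,z1]),(k2,k1,z1,[y1,z1])]),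
    .old (.lp [k14,k24,k16,k12,k16,k12] [k7,k7,k4,k0,k6,k6,k8,k8,k6,k6,k8,k8] k0 [[],[k0,k0,k0,k0,k4,k10],[k0,k0,k0,k0,
    k2],[k0,k0,k0,k0,k2],[k10],[k4,k0,k2,k2]] k48 k5
    [[(k10,k13),(k1,k14)],[(k0,k14),(k5,k15),(k2,k17),(k4,k19),(k3,k21),(k7,k23)],[(k4,k12),(k7,k16),(k0,k21),(k5,
    k22),(k2,k24),(k3,k28)],[(k7,k14),(k0,k17),(k5,k18),(k2,k20),(k4,k20),(k3,k24)],[(k7,k12),(k0,k15),(k5,k16),(k2,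
    k18),(k4,k18),(k3,k22)],[(k3,k12),(k7,k14),(k4,k16),(k5,k18),(k0,k19),(k2,k20)],[(k5,k12),(k7,k12),(k2,k14),(k4,
    k14),(k3,k16),(k0,k23)],[(k11,k12),(k9,k14)],[(k6,k14),(k8,k16)],[(k11,k14),(k9,k16)],[(k6,k12),(k8,k14)],[(k10,
    k12),(k1,k13)]]
    [] k0
    [[k2,k0,k0,k0,k0,k0],[k0,k1,k1,k0,k0,k0],[k0,k0,k2,k0,k0,k0],[k0,k0,k0,k0,k2,k0]]
    [.contra [z1],.ref k0 k0 [(z1,[y1,z1])],.contra [z1],.contra [z1]])]⟩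

/-- classes `0 0 0 1 1 2`, types `S0 S0 S0 C0 C2 C0` -/
noncomputable def cU6_612 : CertX :=
  ⟨[k0,k0,k0,k20,k22,k36],[(false,k0,[k0,k1,k2,k3,k4,k5])],[[[([z1,z0,z0,z1,z1,z1],z2)],[]]],
    [.old (.leafM k0 [k0,k3,k4,k5] [] [(k1,k2,z1,[y1,z1]),(k2,k1,z1,[y1,z1])]),
    .old (.lp [k12,k24,k14,k18,k12,k12] [k6,k6,k0,k0,k5,k5,k3,k3,k6,k6,k6,k6] k0 [[],[],[k0,k0,k0,k0,k6],[],[],[k0,k0,k0,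
    k6]] k48 k5
    [[(k10,k12)],[(k0,k12),(k4,k13),(k5,k13),(k7,k15),(k2,k18),(k3,k18)],[(k0,k18),(k4,k19),(k5,k19),(k7,k21),(k2,
    k24),(k3,k24)],[(k7,k15),(k0,k18),(k4,k19),(k5,k19),(k2,k24),(k3,k24)],[(k0,k13),(k5,k14),(k7,k16),(k2,k19),(k3,
    k19),(k4,k20)],[(k0,k13),(k4,k14),(k7,k16),(k2,k19),(k3,k19),(k5,k20)],[(k0,k15),(k2,k15),(k4,k16),(k5,k16),(k7,
    k18),(k3,k21)],[(k8,k15),(k9,k15)],[(k11,k12),(k6,k15)],[(k11,k12),(k6,k15)],[(k8,k12),(k9,k12)],[(k1,k12)]]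
    [] k0
    [[k0,k1,k1,k0,k0,k0],[k0,k0,k2,k0,k0,k0]]
    [.ref k0 k0 [(z1,[y1,z1])],.contra [z1]])]⟩

/-- classes `0 0 0 1 1 2`, types `S0 S0 S0 C0 C2 S0` -/
noncomputable def cU6_613 : CertX :=
  ⟨[k0,k0,k0,k20,k22,k32],[(false,k0,[k0,k1,k2,k3,k4,k5])],[[[([z1,z0,z0,z1,z1,z1],z2)],[([z1,z0,y1,z0,z0,z0],z0),
    ([z0,z1,z2,z0,z0,z0],z2),([z0,z0,z0,z1,z0,y1],z0)],[([z1,z0,y1,y1,z0,z1],z0),([z0,z1,z2,z2,z0,y2],z2)],[([z1,z0,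
    y1,y1,y1,y1],y2)],[]]],
    [.old (.leafM k0 [k0,k3,k4,k5] [] [(k1,k2,z1,[y1,z1]),(k2,k1,z1,[y1,z1])]),
    .old (.tor k11 false k0 [(z1,[y1,y1,y1,z1]),(z1,[y1,y1,z1,z1]),(z1,[z0,z1]),(z1,[z2,z1])]),
    .old (.lp [k66,k80,k120,k60,k60,k90] [k27,k27,k20,k20,k0,k0,k30,k30,k30,k30,k15,k15] k0 [[],[k0,k0,k28],[],
    [k28]] (nat_lit 240) k5
    [[(k1,k66),(k10,k78)],[(k7,k63),(k0,k66),(k3,k73),(k4,k93),(k5,k93),(k2,k101)],[(k7,k70),(k5,k72),(k0,k73),(k2,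
    k80),(k3,k80),(k4,k100)],[(k7,k70),(k2,k80),(k3,k80),(k4,k100),(k5,k100),(k0,k101)],[(k3,k72),(k7,k90),(k0,k93),
    (k2,k100),(k4,k120),(k5,k120)],[(k7,k90),(k0,k93),(k2,k100),(k3,k100),(k4,k120),(k5,k120)],[(k7,k60),(k0,k63),(k2,
    k70),(k3,k70),(k4,k90),(k5,k90)],[(k8,k60),(k9,k60)],[(k6,k60),(k11,k75)],[(k6,k60),(k11,k75)],[(k8,k75),(k9,
    k75)],[(k1,k78),(k10,k90)]]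
    [] k0
    [[k2,k0,k0,k0,k0,k0],[k0,k2,k0,k0,k0,k0],[k0,k1,k1,k0,k0,k0],[k0,k0,k0,k2,k1,k0]]
    [.contra [z1],.contra [z1],.ref k0 k0 [(z1,[y1,z0,z0,z1])],.ref k1 k0 [(z2,[z1,z3,z1,y1]),(z1,[y1,y1,z0,z1]),(z2,
    [z1,z1,z1,y1])]]),
    .old (.lp [k12,k16,k24,k18,k12,k12] [k6,k6,k4,k4,k0,k0,k3,k3,k6,k6,k6,k6] k0 [[],[k0,k0,k8],[],[k8]] k48 k5
    [[(k1,k12),(k10,k12)],[(k0,k12),(k3,k14),(k7,k15),(k4,k18),(k5,k18),(k2,k22)],[(k5,k12),(k0,k14),(k2,k16),(k3,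
    k16),(k7,k17),(k4,k20)],[(k2,k16),(k3,k16),(k7,k17),(k4,k20),(k5,k20),(k0,k22)],[(k3,k12),(k0,k18),(k2,k20),(k7,
    k21),(k4,k24),(k5,k24)],[(k0,k18),(k2,k20),(k3,k20),(k7,k21),(k4,k24),(k5,k24)],[(k0,k15),(k2,k17),(k3,k17),(k7,
    k18),(k4,k21),(k5,k21)],[(k8,k15),(k9,k15)],[(k11,k12),(k6,k15)],[(k11,k12),(k6,k15)],[(k8,k12),(k9,k12)],[(k1,
    k12),(k10,k12)]]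
    [] k0
    [[k2,k0,k0,k0,k0,k0],[k0,k2,k0,k0,k0,k0],[k0,k1,k1,k0,k0,k0],[k0,k0,k0,k0,k1,k2]]
    [.contra [z1],.contra [z1],.ref k0 k0 [(z1,[y1,z0,z1])],.ref k2 k0 [(z1,[z1,z1]),(z1,[y2,y1,z1])]]),
    .old (.lp [k6,k8,k8,k12,k0,k12] [k3,k3,k2,k2,k2,k2,k0,k0,k6,k6,k0,k0] k0 [[],[k0,k0,k0,k0,k4],[],[],[],[k4]] k24 k5
    [[(k1,k6),(k10,k9)],[(k0,k6),(k2,k7),(k3,k7),(k5,k7),(k7,k9),(k4,k11)],[(k7,k6),(k0,k7),(k2,k8),(k3,k8),(k4,k8),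
    (k5,k8)],[(k0,k7),(k2,k8),(k3,k8),(k4,k8),(k5,k8),(k7,k10)],[(k0,k7),(k2,k8),(k3,k8),(k4,k8),(k5,k8),(k7,k10)],
    [(k2,k8),(k3,k8),(k4,k8),(k5,k8),(k7,k10),(k0,k11)],[(k3,k6),(k0,k9),(k2,k10),(k4,k10),(k5,k10),(k7,k12)],[(k8,
    k6),(k9,k6)],[(k6,k6),(k11,k6)],[(k6,k6),(k11,k6)],[(k8,k6),(k9,k6)],[(k1,k9),(k10,k12)]]
    [] k0
    [[k2,k0,k0,k0,k0,k0],[k2,k1,k0,k0,k0,k0],[k0,k2,k0,k0,k0,k0],[k0,k1,k1,k0,k0,k0],[k0,k0,k2,k0,k0,k0]]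
    [.contra [z1],.ref k3 k0 [(z1,[z1,y1])],.contra [z1],.ref k0 k0 [(z1,[y1,z1])],.contra [z1]])]⟩

/-- classes `0 0 0 1 1 2`, types `S0 S0 S0 N0 N1 C0` -/
noncomputable def cU6_614 : CertX :=
  ⟨[k0,k0,k0,k28,k29,k36],[(false,k0,[k0,k1,k2,k3,k4,k5])],[[[([z1,z0,z0,z1,z1,z1],z2)],[]]],
    [.old (.lp [k12,k30,k30,k12,k20,k12] [k9,k9,k0,k0,k0,k0,k9,k9,k5,k5,k9,k9] k0 [] k60 k6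
    [[(k10,k12)],[(k0,k12),(k7,k12),(k2,k21),(k3,k21),(k4,k21),(k5,k21)],[(k0,k21),(k7,k21),(k2,k30),(k3,k30),(k4,
    k30),(k5,k30)],[(k0,k21),(k7,k21),(k2,k30),(k3,k30),(k4,k30),(k5,k30)],[(k0,k21),(k7,k21),(k2,k30),(k3,k30),(k4,
    k30),(k5,k30)],[(k0,k21),(k7,k21),(k2,k30),(k3,k30),(k4,k30),(k5,k30)],[(k0,k12),(k7,k12),(k2,k21),(k3,k21),(k4,
    k21),(k5,k21)],[(k11,k12)],[(k8,k20)],[(k9,k20)],[(k6,k12)],[(k1,k12)]]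
    [] k0
    [[k1,k0,k0,k1,k0,k1],[k0,k0,k0,k0,k2,k0]]
    [.contra [y1,z1],.contra [z1]]),
    .old (.lp [k6,k9,k12,k6,k8,k6] [k3,k3,k3,k0,k0,k0,k3,k3,k2,k2,k3,k3] k0 [[],[k0,k0,k0,k0,k0,k6],[],[],[k6]] k24 k5
    [[(k10,k6)],[(k0,k6),(k2,k6),(k3,k9),(k4,k9),(k5,k9),(k7,k12)],[(k4,k6),(k0,k9),(k2,k9),(k7,k9),(k3,k12),(k5,
    k12)],[(k0,k6),(k2,k6),(k7,k6),(k3,k9),(k4,k9),(k5,k9)],[(k0,k9),(k2,k9),(k7,k9),(k3,k12),(k4,k12),(k5,k12)],[(k3,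
    k6),(k0,k9),(k2,k9),(k7,k9),(k4,k12),(k5,k12)],[(k2,k6),(k7,k6),(k3,k9),(k4,k9),(k5,k9),(k0,k12)],[(k11,k6)],[(k8,
    k8)],[(k9,k8)],[(k6,k6)],[(k1,k6)]]
    [] k0
    [[k0,k2,k0,k0,k0,k0],[k0,k1,k1,k0,k0,k0],[k0,k0,k0,k0,k2,k0]]
    [.contra [z1],.ref k0 k0 [(z1,[y1,z1])],.contra [z1]])]⟩

/-- classes `0 0 0 1 1 2`, types `S0 S0 S0 N0 N1 S0` -/
noncomputable def cU6_615 : CertX :=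
  ⟨[k0,k0,k0,k28,k29,k32],[(false,k0,[k0,k1,k2,k3,k4,k5])],[[[([z1,z0,z0,z1,z1,z1],z2)],[]]],
    [.old (.lp [k45,k54,k48,k24,k40,k24] [k0,k15,k3,k3,k6,k6,k18,k18,k10,k10,k18,k18] k0 [[k0,k0,k0,k18,k18],[k30],[k0,
    k18],[],[k0,k0,k0,k0,k0,k24],[k0,k18]] k120 k6
    [[(k10,k27),(k1,k30)],[(k7,k24),(k2,k39),(k4,k54),(k5,k54),(k3,k57),(k0,k90)],[(k3,k24),(k7,k39),(k2,k54),(k0,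
    k57),(k4,k69),(k5,k69)],[(k0,k39),(k7,k39),(k4,k51),(k5,k51),(k2,k54),(k3,k54)],[(k7,k36),(k4,k48),(k5,k48),(k2,
    k51),(k0,k54),(k3,k69)],[(k4,k24),(k7,k36),(k5,k48),(k2,k51),(k0,k54),(k3,k69)],[(k0,k24),(k4,k36),(k5,k36),(k2,
    k39),(k3,k39),(k7,k48)],[(k11,k24)],[(k8,k40)],[(k9,k40)],[(k6,k24)],[(k10,k24),(k1,k27)]]
    [] k0
    [[k1,k0,k0,k1,k0,k1],[k0,k2,k0,k0,k0,k0],[k0,k0,k2,k0,k0,k0],[k0,k0,k0,k0,k2,k0]]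
    [.contra [y1,z1],.contra [z1],.contra [y1,y2,z2],.contra [z1]]),
    .old (.lp [k14,k24,k16,k12,k16,k12] [k7,k7,k4,k0,k6,k6,k8,k8,k6,k6,k8,k8] k0 [[],[k0,k0,k0,k0,k4,k10],[k0,k0,k0,k0,
    k2],[k0,k0,k0,k0,k2],[k10],[k4,k0,k2,k2]] k48 k5
    [[(k10,k13),(k1,k14)],[(k0,k14),(k5,k15),(k2,k17),(k4,k19),(k3,k21),(k7,k23)],[(k4,k12),(k7,k16),(k0,k21),(k5,
    k22),(k2,k24),(k3,k28)],[(k7,k14),(k0,k17),(k5,k18),(k2,k20),(k4,k20),(k3,k24)],[(k7,k12),(k0,k15),(k5,k16),(k2,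
    k18),(k4,k18),(k3,k22)],[(k3,k12),(k7,k14),(k4,k16),(k5,k18),(k0,k19),(k2,k20)],[(k5,k12),(k7,k12),(k2,k14),(k4,
    k14),(k3,k16),(k0,k23)],[(k11,k12)],[(k8,k16)],[(k9,k16)],[(k6,k12)],[(k10,k12),(k1,k13)]]
    [] k0
    [[k2,k0,k0,k0,k0,k0],[k0,k1,k1,k0,k0,k0],[k0,k0,k2,k0,k0,k0],[k0,k0,k0,k0,k2,k0]]
    [.contra [z1],.ref k0 k0 [(z1,[y1,z1])],.contra [z1],.contra [z1]])]⟩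

/-- classes `0 0 0 1 1 2`, types `S0 S0 S0 N0 N2 C0` -/
noncomputable def cU6_616 : CertX :=
  ⟨[k0,k0,k0,k28,k30,k36],[(false,k0,[k0,k1,k2,k3,k4,k5])],[[[([z1,z0,z0,z1,z1,z1],z2)],[]]],
    [.old (.leafM k1 [k5,k0,k3,k4] [] [(k1,k2,z1,[y1,z1]),(k2,k1,z1,[y1,z1])]),
    .old (.lp [k6,k12,k8,k6,k6,k6] [k3,k3,k0,k0,k2,k2,k3,k3,k3,k3,k3,k3] k0 [] k24 k5
    [[(k10,k6)],[(k0,k6),(k7,k6),(k4,k7),(k5,k7),(k2,k9),(k3,k9)],[(k0,k9),(k7,k9),(k4,k10),(k5,k10),(k2,k12),(k3,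
    k12)],[(k0,k9),(k7,k9),(k4,k10),(k5,k10),(k2,k12),(k3,k12)],[(k0,k7),(k7,k7),(k4,k8),(k5,k8),(k2,k10),(k3,k10)],
    [(k0,k7),(k7,k7),(k4,k8),(k5,k8),(k2,k10),(k3,k10)],[(k0,k6),(k7,k6),(k4,k7),(k5,k7),(k2,k9),(k3,k9)],[(k8,k6)],
    [(k11,k6)],[(k6,k6)],[(k9,k6)],[(k1,k6)]]
    [] k0
    [[k0,k1,k1,k0,k0,k0],[k0,k0,k2,k0,k0,k0]]
    [.ref k0 k0 [(z1,[y1,z1])],.contra [z1]])]⟩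

/-- classes `0 0 0 1 1 2`, types `S0 S0 S0 N0 N2 S0` -/
noncomputable def cU6_617 : CertX :=
  ⟨[k0,k0,k0,k28,k30,k32],[(false,k0,[k0,k1,k2,k3,k4,k5])],[[[([z1,z0,z0,z1,z1,z1],z2)],[]]],
    [.old (.leafM k1 [k5,k0,k3,k4] [] [(k1,k2,z1,[y1,z1]),(k2,k1,z1,[y1,z1])]),
    .old (.lp [k8,k8,k12,k6,k6,k6] [k2,k2,k2,k2,k0,k0,k3,k3,k3,k3,k3,k3] k0 [] k24 k5
    [[(k10,k7),(k1,k8)],[(k7,k7),(k0,k8),(k2,k8),(k3,k8),(k4,k10),(k5,k10)],[(k7,k7),(k0,k8),(k2,k8),(k3,k8),(k4,k10),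
    (k5,k10)],[(k7,k7),(k0,k8),(k2,k8),(k3,k8),(k4,k10),(k5,k10)],[(k7,k9),(k0,k10),(k2,k10),(k3,k10),(k4,k12),(k5,
    k12)],[(k7,k9),(k0,k10),(k2,k10),(k3,k10),(k4,k12),(k5,k12)],[(k7,k6),(k0,k7),(k2,k7),(k3,k7),(k4,k9),(k5,k9)],
    [(k8,k6)],[(k11,k6)],[(k6,k6)],[(k9,k6)],[(k10,k6),(k1,k7)]]
    [] k0
    [[k2,k0,k0,k0,k0,k0],[k0,k2,k0,k0,k0,k0],[k0,k1,k1,k0,k0,k0]]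
    [.contra [z1],.contra [z1],.ref k0 k0 [(z1,[y1,z1])]])]⟩

/-- classes `0 0 0 1 1 2`, types `S0 S0 S0 S0 S0 C0` -/
noncomputable def cU6_618 : CertX :=
  ⟨[k0,k0,k0,k16,k16,k36],[(false,k0,[k0,k1,k2,k3,k4,k5])],[[[([z1,z0,z0,z1,z1,z1],z2)],[]]],
    [.old (.leafM k0 [k0,k3,k4,k5] [] [(k1,k2,z1,[y1,z1]),(k2,k1,z1,[y1,z1])]),
    .old (.lp [k24,k30,k48,k30,k32,k24] [k18,k18,k12,k18,k0,k12,k15,k15,k14,k14,k18,k18] k0 [[k0,k0,k6,k6,k0,k6],[k0,k0,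
    k0,k0,k0,k18],[k0,k6],[k0,k6],[k18,k6],[],[],[k0,k0,k0,k0,k0,k0,k0,k0,k4],[],[k0,k0,k0,k0,k0,k0,k4]] k96 k5
    [[(k10,k24)],[(k0,k24),(k2,k24),(k3,k24),(k5,k24),(k4,k36),(k7,k45)],[(k0,k24),(k3,k24),(k4,k24),(k7,k33),(k2,
    k36),(k5,k36)],[(k0,k24),(k7,k33),(k2,k36),(k3,k36),(k5,k36),(k4,k48)],[(k0,k24),(k7,k33),(k2,k36),(k3,k36),(k5,
    k36),(k4,k48)],[(k3,k24),(k0,k36),(k7,k45),(k2,k48),(k5,k48),(k4,k60)],[(k7,k30),(k2,k33),(k3,k33),(k5,k33),(k0,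
    k45),(k4,k45)],[(k11,k27),(k6,k30),(k9,k31),(k8,k35)],[(k11,k24),(k6,k31),(k8,k32),(k9,k32)],[(k11,k28),(k8,k32),
    (k9,k32),(k6,k35)],[(k9,k24),(k11,k24),(k6,k27),(k8,k28)],[(k1,k24)]]
    [] k0
    [[k0,k2,k0,k0,k0,k0],[k0,k1,k1,k0,k0,k0],[k0,k0,k0,k2,k0,k0],[k0,k0,k0,k0,k2,k0]]
    [.contra [z1],.ref k0 k0 [(z1,[y1,z1])],.contra [z1],.contra [z1]])]⟩

/-- classes `0 0 0 1 2 1`, types `C0 C0 C0 B0 C0 B1` -/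
noncomputable def cU6_619 : CertX :=
  ⟨[k4,k4,k4,k24,k36,k25],[(false,k0,[k0,k1,k2,k3,k4,k5])],[[[([z1,z1,z1,z1,z0,z0],z2)],[([z1,z0,z0,z1,z1,z1],z2)],
    [([z1,z0,z0,z1,z0,z0],z2),([z0,z1,z1,z0,z0,z0],z1)],[([z1,z0,z0,z1,z0,z0],z2)],[]]],
    [.old (.leafM k0 [k0,k1,k2,k3] [] [(k4,k5,z1,[y1,z1]),(k5,k4,z1,[y1,z1])]),
    .old (.leafM k2 [k0,k3,k4,k5] [] [(k1,k2,z1,[y1,z1]),(k2,k1,z1,[y1,z1])]),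
    .old (.leafM k4 [k2,k4,k5,k1] [(z1,[y1,y1,z1])] [(k3,k0,z1,[z1]),(k0,k3,z1,[z1])]),
    .old (.lp [k38,k8,k30,k15,k0,k24] [k0,k0,k15,k15,k4,k4,k12,k11,k19,k19,k7,k7] k0 [[k0,k0,k22],[k0,k0,k0,k0,k0,k7],[],
    [k0,k22],[k7]] k60 k6
    [[(k9,k19),(k6,k26)],[(k5,k12),(k3,k23),(k7,k34)],[(k4,k12),(k0,k23),(k2,k30)],[(k7,k12),(k5,k19),(k3,k30)],[(k0,
    k12),(k2,k19),(k4,k30)],[(k3,k12),(k7,k23),(k5,k30)],[(k2,k12),(k4,k23),(k0,k34)],[(k10,k19),(k1,k26)],[(k10,k12),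
    (k1,k19)],[(k11,k12)],[(k8,k12)],[(k9,k12),(k6,k19)]]
    [] k0
    [[k0,k1,k1,k0,k0,k0],[k0,k0,k0,k0,k1,k1],[k0,k0,k0,k0,k2,k2]]
    [.contra [y1,y1,z1],.contra [y1,y1,z1],.ref k2 k0 [(z1,[z0,z1]),(z2,[y1,y2,z2])]]),
    .old (.lp [k6,k4,k4,k2,k0,k6] [k0,k0,k1,k1,k1,k1,k2,k2,k3,k3,k0,k0] k0 [] k12 k5
    [[(k9,k3),(k6,k4)],[(k7,k4),(k3,k5),(k5,k5)],[(k2,k4),(k4,k4),(k0,k5)],[(k7,k3),(k3,k4),(k5,k4)],[(k2,k4),(k4,k4),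
    (k0,k5)],[(k7,k3),(k3,k4),(k5,k4)],[(k2,k3),(k4,k3),(k0,k4)],[(k1,k4),(k10,k4)],[(k1,k3),(k10,k3)],[(k11,k3)],
    [(k8,k3)],[(k9,k3),(k6,k4)]]
    [] k0
    [[k1,k0,k0,k1,k0,k0],[k0,k2,k0,k0,k0,k0],[k0,k1,k1,k0,k0,k0],[k0,k0,k2,k0,k0,k0],[k0,k0,k0,k0,k1,k1]]
    [.ref k3 k0 [(z1,[z1])],.contra [z1],.ref k1 k0 [(z1,[y1,z1])],.contra [z1],.ref k0 k0 [(z1,[y1,z1])]])]⟩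

/-- classes `0 0 0 1 2 1`, types `C0 C0 C0 B0 S0 B1` -/
noncomputable def cU6_620 : CertX :=
  ⟨[k4,k4,k4,k24,k32,k25],[(false,k0,[k0,k1,k2,k3,k4,k5])],[[[([z1,z1,z1,z1,z0,z0],z2)],[([z1,z0,z0,z1,z1,z1],z2)],
    [([z1,z0,z0,z1,z0,z0],z2),([z0,z1,z1,z0,z0,z0],z1)],[([z1,z0,z0,z1,z0,z0],z2)],[]]],
    [.old (.leafM k0 [k0,k1,k2,k3] [] [(k4,k5,z1,[y1,z1]),(k5,k4,z1,[y1,z1])]),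
    .old (.leafM k2 [k0,k3,k4,k5] [] [(k1,k2,z1,[y1,z1]),(k2,k1,z1,[y1,z1])]),
    .old (.leafM k4 [k2,k4,k5,k1] [(z1,[y1,y1,z1])] [(k3,k0,z1,[z1]),(k0,k3,z1,[z1])]),
    .old (.lp [k76,k16,k60,k30,k24,k24] [k0,k0,k30,k30,k8,k8,k25,k21,k26,k26,k26,k26] k0 [[k0,k0,k44],[k0,k0,k0,k0,k0,
    k14],[],[k0,k44],[k14]] k120 k6
    [[(k9,k50),(k6,k51)],[(k5,k24),(k3,k46),(k7,k69)],[(k4,k24),(k0,k46),(k2,k60)],[(k7,k25),(k5,k38),(k3,k60)],[(k0,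
    k24),(k2,k38),(k4,k60)],[(k3,k24),(k7,k47),(k5,k60)],[(k2,k25),(k4,k47),(k0,k69)],[(k10,k25),(k1,k51)],[(k10,k24),
    (k1,k50)],[(k8,k24),(k11,k24)],[(k8,k24),(k11,k24)],[(k9,k24),(k6,k25)]]
    [] k0
    [[k0,k1,k1,k0,k0,k0],[k0,k0,k0,k0,k1,k1],[k0,k0,k0,k0,k2,k2]]
    [.contra [y1,y1,z1],.contra [y1,y1,z1],.ref k2 k0 [(z1,[z0,z1]),(z2,[y1,y2,z2])]]),
    .old (.lp [k10,k8,k8,k6,k6,k6] [k0,k0,k1,k1,k1,k1,k2,k2,k2,k2,k2,k2] k0 [] k24 k5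
    [[(k6,k8),(k9,k8)],[(k7,k8),(k3,k9),(k5,k9)],[(k2,k8),(k4,k8),(k0,k9)],[(k7,k7),(k3,k8),(k5,k8)],[(k2,k8),(k4,k8),
    (k0,k9)],[(k7,k7),(k3,k8),(k5,k8)],[(k2,k7),(k4,k7),(k0,k8)],[(k10,k6),(k1,k8)],[(k10,k6),(k1,k8)],[(k8,k6),(k11,
    k6)],[(k8,k6),(k11,k6)],[(k6,k6),(k9,k6)]]
    [] k0
    [[k1,k0,k0,k1,k0,k0],[k0,k2,k0,k0,k0,k0],[k0,k1,k1,k0,k0,k0],[k0,k0,k2,k0,k0,k0],[k0,k0,k0,k0,k1,k1]]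
    [.ref k3 k0 [(z1,[z1])],.contra [z1],.ref k1 k0 [(z1,[y1,z1])],.contra [z1],.ref k0 k0 [(z1,[y1,z1])]])]⟩

/-- classes `0 0 0 1 2 1`, types `C0 C0 C0 C0 C0 C0` -/
noncomputable def cU6_621 : CertX :=
  ⟨[k4,k4,k4,k20,k36,k20],[(false,k0,[k0,k1,k2,k3,k4,k5])],[[[([z1,z1,z1,z1,z0,z0],z2)],[([z1,z0,z0,z1,z1,z1],z2)],
    [([z1,z0,z0,z1,z0,z0],z2),([z0,z1,z1,z0,z0,z0],z1)],[([z1,z0,z0,z1,z0,z0],z2)],[]]],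
    [.old (.leafM k0 [k0,k1,k2,k3] [] [(k4,k5,z1,[y1,z1]),(k5,k4,z1,[y1,z1])]),
    .old (.leafM k0 [k0,k3,k4,k5] [] [(k1,k2,z1,[y1,z1]),(k2,k1,z1,[y1,z1])]),
    .old (.leafM k4 [k2,k4,k5,k1] [(z1,[y1,y1,z1])] [(k3,k0,z1,[z1]),(k0,k3,z1,[z1])]),
    .old (.lp [k38,k8,k30,k15,k24,k0] [k0,k0,k15,k15,k4,k4,k12,k11,k7,k7,k19,k19] k0 [[k0,k0,k22],[k0,k0,k0,k0,k0,k7],[],
    [k0,k22],[k7]] k60 k6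
    [[(k10,k19),(k6,k26)],[(k5,k12),(k3,k23),(k7,k34)],[(k4,k12),(k0,k23),(k2,k30)],[(k7,k12),(k5,k19),(k3,k30)],[(k0,
    k12),(k2,k19),(k4,k30)],[(k3,k12),(k7,k23),(k5,k30)],[(k2,k12),(k4,k23),(k0,k34)],[(k9,k19),(k1,k26)],[(k10,k12),
    (k6,k19)],[(k11,k12)],[(k8,k12)],[(k9,k12),(k1,k19)]]
    [] k0
    [[k0,k1,k1,k0,k0,k0],[k0,k0,k0,k0,k1,k1],[k0,k0,k0,k0,k2,k2]]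
    [.contra [y1,y1,z1],.contra [y1,y1,z1],.ref k2 k0 [(z1,[z0,z1]),(z2,[y1,y2,z2])]]),
    .old (.lp [k2,k4,k4,k6,k2,k4] [k2,k2,k1,k1,k1,k1,k0,k0,k2,k2,k1,k1] k0 [] k12 k5
    [[(k10,k3),(k6,k4)],[(k3,k3),(k5,k3),(k7,k4)],[(k0,k3),(k2,k4),(k4,k4)],[(k3,k4),(k5,k4),(k7,k5)],[(k0,k3),(k2,
    k4),(k4,k4)],[(k3,k4),(k5,k4),(k7,k5)],[(k0,k4),(k2,k5),(k4,k5)],[(k1,k4),(k9,k4)],[(k10,k3),(k6,k4)],[(k11,k3)],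
    [(k8,k3)],[(k1,k3),(k9,k3)]]
    [] k0
    [[k1,k0,k0,k1,k0,k0],[k0,k2,k0,k0,k0,k0],[k0,k1,k1,k0,k0,k0],[k0,k0,k2,k0,k0,k0],[k0,k0,k0,k0,k1,k1]]
    [.ref k3 k0 [(z1,[z1])],.contra [z1],.ref k1 k0 [(z1,[y1,z1])],.contra [z1],.ref k0 k0 [(z1,[y1,z1])]])]⟩

/-- classes `0 0 0 1 2 1`, types `C0 C0 C0 C0 C0 C2` -/
noncomputable def cU6_622 : CertX :=
  ⟨[k4,k4,k4,k20,k36,k22],[(false,k0,[k0,k1,k2,k3,k4,k5])],[[[([z1,z0,z0,z1,z1,z1],z2)],[]]],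
    [.old (.leafM k0 [k0,k3,k4,k5] [] [(k1,k2,z1,[y1,z1]),(k2,k1,z1,[y1,z1])]),
    .old (.lp [k6,k10,k10,k6,k6,k6] [k2,k2,k0,k0,k0,k0,k2,k2,k2,k2,k2,k2] k0 [[k0,k0,k2],[],[k0,k0,k0,k0,k2],[k0,k2],[],
    [k0,k0,k0,k2]] k24 k5
    [[(k9,k6),(k10,k6)],[(k5,k6),(k7,k6),(k3,k8)],[(k0,k8),(k4,k10),(k2,k12)],[(k7,k6),(k5,k10),(k3,k12)],[(k0,k6),
    (k2,k10),(k4,k12)],[(k7,k8),(k3,k10),(k5,k12)],[(k0,k6),(k2,k6),(k4,k8)],[(k9,k6),(k10,k6)],[(k1,k6),(k6,k6)],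
    [(k11,k6)],[(k8,k6)],[(k1,k6),(k6,k6)]]
    [] k0
    [[k0,k1,k1,k0,k0,k0]]
    [.ref k0 k0 [(z1,[y1,z1])]])]⟩

/-- classes `0 0 0 1 2 1`, types `C0 C0 C0 C0 S0 C0` -/
noncomputable def cU6_623 : CertX :=
  ⟨[k4,k4,k4,k20,k32,k20],[(false,k0,[k0,k1,k2,k3,k4,k5])],[[[([z1,z1,z1,z1,z0,z0],z2)],[([z1,z0,z0,z1,z1,z1],z2)],
    [([z1,z0,z0,z1,z0,z0],z2),([z0,z1,z1,z0,z0,z0],z1)],[([z1,z0,z0,z1,z0,z0],z2)],[]]],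
    [.old (.leafM k0 [k0,k1,k2,k3] [] [(k4,k5,z1,[y1,z1]),(k5,k4,z1,[y1,z1])]),
    .old (.leafM k0 [k0,k3,k4,k5] [] [(k1,k2,z1,[y1,z1]),(k2,k1,z1,[y1,z1])]),
    .old (.leafM k4 [k2,k4,k5,k1] [(z1,[y1,y1,z1])] [(k3,k0,z1,[z1]),(k0,k3,z1,[z1])]),
    .old (.lp [k76,k16,k60,k30,k24,k24] [k0,k0,k30,k30,k8,k8,k25,k21,k26,k26,k26,k26] k0 [[k0,k0,k44],[k0,k0,k0,k0,k0,
    k14],[],[k0,k44],[k14]] k120 k6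
    [[(k10,k50),(k6,k51)],[(k5,k24),(k3,k46),(k7,k69)],[(k4,k24),(k0,k46),(k2,k60)],[(k7,k25),(k5,k38),(k3,k60)],[(k0,
    k24),(k2,k38),(k4,k60)],[(k3,k24),(k7,k47),(k5,k60)],[(k2,k25),(k4,k47),(k0,k69)],[(k9,k25),(k1,k51)],[(k10,k24),
    (k6,k25)],[(k8,k24),(k11,k24)],[(k8,k24),(k11,k24)],[(k9,k24),(k1,k50)]]
    [] k0
    [[k0,k1,k1,k0,k0,k0],[k0,k0,k0,k0,k1,k1],[k0,k0,k0,k0,k2,k2]]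
    [.contra [y1,y1,z1],.contra [y1,y1,z1],.ref k2 k0 [(z1,[z0,z1]),(z2,[y1,y2,z2])]]),
    .old (.lp [k6,k8,k8,k10,k6,k6] [k2,k2,k1,k1,k1,k1,k0,k0,k2,k2,k2,k2] k0 [] k24 k5
    [[(k10,k6),(k6,k8)],[(k3,k7),(k5,k7),(k7,k8)],[(k0,k7),(k2,k8),(k4,k8)],[(k3,k8),(k5,k8),(k7,k9)],[(k0,k7),(k2,
    k8),(k4,k8)],[(k3,k8),(k5,k8),(k7,k9)],[(k0,k8),(k2,k9),(k4,k9)],[(k1,k8),(k9,k8)],[(k10,k6),(k6,k8)],[(k8,k6),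
    (k11,k6)],[(k8,k6),(k11,k6)],[(k1,k6),(k9,k6)]]
    [] k0
    [[k1,k0,k0,k1,k0,k0],[k0,k2,k0,k0,k0,k0],[k0,k1,k1,k0,k0,k0],[k0,k0,k2,k0,k0,k0],[k0,k0,k0,k0,k1,k1]]
    [.ref k3 k0 [(z1,[z1])],.contra [z1],.ref k1 k0 [(z1,[y1,z1])],.contra [z1],.ref k0 k0 [(z1,[y1,z1])]])]⟩

/-- classes `0 0 0 1 2 1`, types `C0 C0 C0 C0 S0 C2` -/
noncomputable def cU6_624 : CertX :=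
  ⟨[k4,k4,k4,k20,k32,k22],[(false,k0,[k0,k1,k2,k3,k4,k5])],[[[([z1,z0,z0,z1,z1,z1],z2)],[]]],
    [.old (.leafM k0 [k0,k3,k4,k5] [] [(k1,k2,z1,[y1,z1]),(k2,k1,z1,[y1,z1])]),
    .old (.lp [k6,k10,k10,k6,k6,k6] [k2,k2,k0,k0,k0,k0,k2,k2,k2,k2,k2,k2] k0 [[k0,k0,k2],[],[k0,k0,k0,k0,k2],[k0,k2],[],
    [k0,k0,k0,k2]] k24 k5
    [[(k9,k6),(k10,k6)],[(k5,k6),(k7,k6),(k3,k8)],[(k0,k8),(k4,k10),(k2,k12)],[(k7,k6),(k5,k10),(k3,k12)],[(k0,k6),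
    (k2,k10),(k4,k12)],[(k7,k8),(k3,k10),(k5,k12)],[(k0,k6),(k2,k6),(k4,k8)],[(k9,k6),(k10,k6)],[(k1,k6),(k6,k6)],
    [(k8,k6),(k11,k6)],[(k8,k6),(k11,k6)],[(k1,k6),(k6,k6)]]
    [] k0
    [[k0,k1,k1,k0,k0,k0]]
    [.ref k0 k0 [(z1,[y1,z1])]])]⟩

/-- classes `0 0 0 1 2 1`, types `C0 C0 C0 N0 C0 N1` -/
noncomputable def cU6_625 : CertX :=
  ⟨[k4,k4,k4,k28,k36,k29],[(false,k0,[k0,k1,k2,k3,k4,k5])],[[[([z1,z1,z1,z1,z0,z0],z2)],[([z1,z0,z0,z1,z0,z0],z1),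
    ([z0,z1,z1,z0,z0,z0],z2)],[([z1,z0,z0,z1,z1,z1],z2)],[([z1,z0,z0,z1,z0,z0],z2),([z0,z1,z1,z0,z0,z0],z1)],[([z1,z0,
    z0,z1,z0,z0],z2)],[]]],
    [.old (.leafM k0 [k0,k1,k2,k3] [] [(k4,k5,z1,[y1,z1]),(k5,k4,z1,[y1,z1])]),
    .old (.leafM k4 [k3,k4,k5,k0] [(z1,[y1,y1,z1])] [(k1,k2,z1,[z0,z1]),(k2,k1,z1,[z0,z1])]),
    .old (.lp [k0,k10,k10,k10,k8,k0] [k5,k5,k0,k0,k0,k0,k0,k0,k1,k1,k5,k5] k0 [] k20 k6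
    [[(k6,k5)],[(k3,k5),(k5,k5),(k7,k5)],[(k0,k5),(k2,k10),(k4,k10)],[(k3,k10),(k5,k10),(k7,k10)],[(k0,k5),(k2,k10),
    (k4,k10)],[(k3,k10),(k5,k10),(k7,k10)],[(k0,k5),(k2,k10),(k4,k10)],[(k1,k5)],[(k10,k4)],[(k11,k4)],[(k8,k4)],[(k9,
    k4)]]
    [] k0
    [[k1,k0,k0,k1,k0,k0],[k0,k0,k0,k0,k1,k1],[k0,k0,k0,k0,k2,k2]]
    [.contra [y1,z1],.contra [y1,z1],.ref k1 k0 [(z2,[y1,z2]),(z1,[z0,y1,z1])]]),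
    .old (.leafM k4 [k2,k4,k5,k1] [(z1,[y1,y1,z1])] [(k3,k0,z1,[z1]),(k0,k3,z1,[z1])]),
    .old (.lp [k38,k8,k30,k15,k24,k0] [k0,k0,k15,k15,k4,k4,k12,k11,k7,k7,k19,k19] k0 [[k0,k0,k22],[k0,k0,k0,k0,k0,k7],[],
    [k0,k22],[k7]] k60 k6
    [[(k6,k26)],[(k5,k12),(k3,k23),(k7,k34)],[(k4,k12),(k0,k23),(k2,k30)],[(k7,k12),(k5,k19),(k3,k30)],[(k0,k12),(k2,
    k19),(k4,k30)],[(k3,k12),(k7,k23),(k5,k30)],[(k2,k12),(k4,k23),(k0,k34)],[(k1,k26)],[(k10,k12)],[(k11,k12)],[(k8,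
    k12)],[(k9,k12)]]
    [] k0
    [[k0,k1,k1,k0,k0,k0],[k0,k0,k0,k0,k1,k1],[k0,k0,k0,k0,k2,k2]]
    [.contra [y1,y1,z1],.contra [y1,y1,z1],.ref k3 k0 [(z1,[z0,z1]),(z2,[y1,y2,z2])]]),
    .old (.lp [k2,k4,k4,k6,k6,k0] [k2,k2,k1,k1,k1,k1,k0,k0,k0,k0,k3,k3] k0 [] k12 k5
    [[(k6,k4)],[(k3,k3),(k5,k3),(k7,k4)],[(k0,k3),(k2,k4),(k4,k4)],[(k3,k4),(k5,k4),(k7,k5)],[(k0,k3),(k2,k4),(k4,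
    k4)],[(k3,k4),(k5,k4),(k7,k5)],[(k0,k4),(k2,k5),(k4,k5)],[(k1,k4)],[(k10,k3)],[(k11,k3)],[(k8,k3)],[(k9,k3)]]
    [] k0
    [[k1,k0,k0,k1,k0,k0],[k0,k2,k0,k0,k0,k0],[k0,k1,k1,k0,k0,k0],[k0,k0,k2,k0,k0,k0],[k0,k0,k0,k0,k1,k1]]
    [.ref k4 k0 [(z1,[z1])],.contra [z1],.ref k2 k0 [(z1,[y1,z1])],.contra [z1],.ref k0 k0 [(z1,[y1,z1])]])]⟩

/-- classes `0 0 0 1 2 1`, types `C0 C0 C0 N0 C0 N2` -/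
noncomputable def cU6_626 : CertX :=
  ⟨[k4,k4,k4,k28,k36,k30],[(false,k0,[k0,k1,k2,k3,k4,k5])],[[[([z1,z0,z0,z1,z1,z1],z2)],[]]],
    [.old (.leafM k2 [k0,k3,k4,k5] [] [(k1,k2,z1,[y1,z1]),(k2,k1,z1,[y1,z1])]),
    .old (.lp [k4,k4,k6,k2,k2,k4] [k1,k1,k1,k1,k0,k0,k2,k2,k2,k2,k1,k1] k0 [[k0,k0,k2],[],[],[k0,k2]] k12 k5
    [[(k9,k3)],[(k5,k3),(k7,k3),(k3,k4)],[(k0,k4),(k4,k5),(k2,k6)],[(k7,k3),(k5,k5),(k3,k6)],[(k0,k3),(k2,k5),(k4,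
    k6)],[(k7,k4),(k3,k5),(k5,k6)],[(k0,k3),(k2,k3),(k4,k4)],[(k10,k3)],[(k1,k3)],[(k11,k3)],[(k8,k3)],[(k6,k3)]]
    [] k0
    [[k0,k1,k1,k0,k0,k0]]
    [.ref k0 k0 [(z1,[y1,z1])]])]⟩

/-- classes `0 0 0 1 2 1`, types `C0 C0 C0 N0 S0 N1` -/
noncomputable def cU6_627 : CertX :=
  ⟨[k4,k4,k4,k28,k32,k29],[(false,k0,[k0,k1,k2,k3,k4,k5])],[[[([z1,z1,z1,z1,z0,z0],z2)],[([z1,z0,z0,z1,z0,z0],z1),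
    ([z0,z1,z1,z0,z0,z0],z2)],[([z1,z0,z0,z1,z1,z1],z2)],[([z1,z0,z0,z1,z0,z0],z2),([z0,z1,z1,z0,z0,z0],z1)],[([z1,z0,
    z0,z1,z0,z0],z2)],[]]],
    [.old (.leafM k0 [k0,k1,k2,k3] [] [(k4,k5,z1,[y1,z1]),(k5,k4,z1,[y1,z1])]),
    .old (.leafM k4 [k3,k4,k5,k0] [(z1,[y1,y1,z1])] [(k1,k2,z1,[z0,z1]),(k2,k1,z1,[z0,z1])]),
    .old (.lp [k0,k50,k68,k52,k24,k36] [k34,k34,k9,k9,k0,k0,k8,k8,k22,k22,k16,k16] k0 [[k0,k0,k0,k0,k2],[],[],[k0,k0,k0,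
    k0,k0,k18],[k0,k0,k18],[k0,k2]] k120 k6
    [[(k6,k26)],[(k7,k24),(k3,k25),(k5,k34)],[(k0,k25),(k2,k50),(k4,k61)],[(k3,k50),(k5,k59),(k7,k69)],[(k0,k34),(k4,
    k50),(k2,k59)],[(k5,k50),(k7,k60),(k3,k61)],[(k0,k24),(k4,k60),(k2,k69)],[(k1,k26)],[(k10,k30)],[(k8,k24),(k11,
    k30)],[(k8,k30),(k11,k36)],[(k9,k30)]]
    [] k0
    [[k1,k0,k0,k1,k0,k0],[k2,k0,k0,k2,k0,k0],[k0,k2,k0,k0,k0,k0],[k0,k0,k2,k0,k0,k0],[k0,k0,k0,k0,k1,k1]]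
    [.contra [y1,z1],.ref k1 k0 [(z2,[z1]),(z1,[z0,y1,z1])],.contra [z1],.contra [y1,y2,z2],.contra [y1,z1]]),
    .old (.leafM k4 [k2,k4,k5,k1] [(z1,[y1,y1,z1])] [(k3,k0,z1,[z1]),(k0,k3,z1,[z1])]),
    .old (.lp [k76,k16,k60,k30,k24,k24] [k0,k0,k30,k30,k8,k8,k25,k21,k26,k26,k26,k26] k0 [[k0,k0,k44],[k0,k0,k0,k0,k0,
    k14],[],[k0,k44],[k14]] k120 k6
    [[(k6,k51)],[(k5,k24),(k3,k46),(k7,k69)],[(k4,k24),(k0,k46),(k2,k60)],[(k7,k25),(k5,k38),(k3,k60)],[(k0,k24),(k2,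
    k38),(k4,k60)],[(k3,k24),(k7,k47),(k5,k60)],[(k2,k25),(k4,k47),(k0,k69)],[(k1,k51)],[(k10,k24)],[(k8,k24),(k11,
    k24)],[(k8,k24),(k11,k24)],[(k9,k24)]]
    [] k0
    [[k0,k1,k1,k0,k0,k0],[k0,k0,k0,k0,k1,k1],[k0,k0,k0,k0,k2,k2]]
    [.contra [y1,y1,z1],.contra [y1,y1,z1],.ref k3 k0 [(z1,[z0,z1]),(z2,[y1,y2,z2])]]),
    .old (.lp [k4,k8,k8,k12,k6,k6] [k4,k4,k2,k2,k2,k2,k0,k0,k3,k3,k3,k3] k0 [] k24 k5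
    [[(k6,k8)],[(k3,k6),(k5,k6),(k7,k8)],[(k0,k6),(k2,k8),(k4,k8)],[(k3,k8),(k5,k8),(k7,k10)],[(k0,k6),(k2,k8),(k4,
    k8)],[(k3,k8),(k5,k8),(k7,k10)],[(k0,k8),(k2,k10),(k4,k10)],[(k1,k8)],[(k10,k6)],[(k8,k6),(k11,k6)],[(k8,k6),(k11,
    k6)],[(k9,k6)]]
    [] k0
    [[k1,k0,k0,k1,k0,k0],[k0,k2,k0,k0,k0,k0],[k0,k1,k1,k0,k0,k0],[k0,k0,k2,k0,k0,k0],[k0,k0,k0,k0,k1,k1]]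
    [.ref k4 k0 [(z1,[z1])],.contra [z1],.ref k2 k0 [(z1,[y1,z1])],.contra [z1],.ref k0 k0 [(z1,[y1,z1])]])]⟩

/-- classes `0 0 0 1 2 1`, types `C0 C0 C0 N0 S0 N2` -/
noncomputable def cU6_628 : CertX :=
  ⟨[k4,k4,k4,k28,k32,k30],[(false,k0,[k0,k1,k2,k3,k4,k5])],[[[([z1,z0,z0,z1,z1,z1],z2)],[]]],
    [.old (.leafM k2 [k0,k3,k4,k5] [] [(k1,k2,z1,[y1,z1]),(k2,k1,z1,[y1,z1])]),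
    .old (.lp [k6,k10,k10,k6,k6,k6] [k2,k2,k0,k0,k0,k0,k2,k2,k2,k2,k2,k2] k0 [[k0,k0,k2],[],[k0,k0,k0,k0,k2],[k0,k2],[],
    [k0,k0,k0,k2]] k24 k5
    [[(k9,k6)],[(k5,k6),(k7,k6),(k3,k8)],[(k0,k8),(k4,k10),(k2,k12)],[(k7,k6),(k5,k10),(k3,k12)],[(k0,k6),(k2,k10),
    (k4,k12)],[(k7,k8),(k3,k10),(k5,k12)],[(k0,k6),(k2,k6),(k4,k8)],[(k10,k6)],[(k1,k6)],[(k8,k6),(k11,k6)],[(k8,k6),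
    (k11,k6)],[(k6,k6)]]
    [] k0
    [[k0,k1,k1,k0,k0,k0]]
    [.ref k0 k0 [(z1,[y1,z1])]])]⟩

/-- classes `0 0 0 1 2 1`, types `C0 C0 C0 S0 C0 S0` -/
noncomputable def cU6_629 : CertX :=
  ⟨[k4,k4,k4,k16,k36,k16],[(false,k0,[k0,k1,k2,k3,k4,k5])],[[[([z1,z1,z1,z1,z0,z0],z2)],[([z1,z0,z0,z1,z1,z1],z2)],
    [([z1,z0,z0,z1,z0,z0],z2),([z0,z1,z1,z0,z0,z0],z1)],[([z1,z0,z0,z1,z0,z0],z2)],[]]],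
    [.old (.leafM k0 [k0,k1,k2,k3] [] [(k4,k5,z1,[y1,z1]),(k5,k4,z1,[y1,z1])]),
    .old (.leafM k0 [k0,k3,k4,k5] [] [(k1,k2,z1,[y1,z1]),(k2,k1,z1,[y1,z1])]),
    .old (.leafM k4 [k2,k4,k5,k1] [(z1,[y1,y1,z1])] [(k3,k0,z1,[z1]),(k0,k3,z1,[z1])]),
    .old (.lp [k76,k16,k60,k30,k24,k24] [k0,k0,k30,k30,k8,k8,k25,k21,k26,k26,k26,k26] k0 [[k0,k0,k44],[k0,k0,k0,k0,k0,
    k14],[],[k0,k44],[k14]] k120 k6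
    [[(k9,k50),(k10,k50),(k6,k51),(k1,k76)],[(k5,k24),(k3,k46),(k7,k69)],[(k4,k24),(k0,k46),(k2,k60)],[(k7,k25),(k5,
    k38),(k3,k60)],[(k0,k24),(k2,k38),(k4,k60)],[(k3,k24),(k7,k47),(k5,k60)],[(k2,k25),(k4,k47),(k0,k69)],[(k9,k25),
    (k10,k25),(k6,k26),(k1,k51)],[(k9,k24),(k10,k24),(k6,k25),(k1,k50)],[(k11,k24)],[(k8,k24)],[(k9,k24),(k10,k24),
    (k6,k25),(k1,k50)]]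
    [] k0
    [[k0,k1,k1,k0,k0,k0],[k0,k0,k0,k0,k2,k2],[k0,k0,k0,k0,k1,k1]]
    [.contra [y1,y1,z1],.ref k2 k0 [(z1,[z0,z1]),(z2,[y1,y2,z2])],.contra [y1,y1,z1]]),
    .old (.lp [k10,k8,k8,k6,k6,k6] [k0,k0,k1,k1,k1,k1,k2,k2,k2,k2,k2,k2] k0 [] k24 k5
    [[(k6,k8),(k9,k8),(k10,k8),(k1,k10)],[(k7,k8),(k3,k9),(k5,k9)],[(k2,k8),(k4,k8),(k0,k9)],[(k7,k7),(k3,k8),(k5,
    k8)],[(k2,k8),(k4,k8),(k0,k9)],[(k7,k7),(k3,k8),(k5,k8)],[(k2,k7),(k4,k7),(k0,k8)],[(k6,k6),(k9,k6),(k10,k6),(k1,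
    k8)],[(k6,k6),(k9,k6),(k10,k6),(k1,k8)],[(k11,k6)],[(k8,k6)],[(k6,k6),(k9,k6),(k10,k6),(k1,k8)]]
    [] k0
    [[k1,k0,k0,k1,k0,k0],[k0,k2,k0,k0,k0,k0],[k0,k1,k1,k0,k0,k0],[k0,k0,k2,k0,k0,k0],[k0,k0,k0,k0,k1,k1]]
    [.ref k3 k0 [(z1,[z1])],.contra [z1],.ref k1 k0 [(z1,[y1,z1])],.contra [z1],.ref k0 k0 [(z1,[y1,z1])]])]⟩

/-- classes `0 0 0 1 2 1`, types `C0 C0 C0 S0 S0 S0` -/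
noncomputable def cU6_630 : CertX :=
  ⟨[k4,k4,k4,k16,k32,k16],[(false,k0,[k0,k1,k2,k3,k4,k5])],[[[([z1,z1,z1,z1,z0,z0],z2)],[([z1,z0,z0,z1,z1,z1],z2)],
    [([z1,z0,z0,z1,z0,z0],z2),([z0,z1,z1,z0,z0,z0],z1)],[([z1,z0,z0,z1,z0,z0],z2)],[]]],
    [.old (.leafM k0 [k0,k1,k2,k3] [] [(k4,k5,z1,[y1,z1]),(k5,k4,z1,[y1,z1])]),
    .old (.leafM k0 [k0,k3,k4,k5] [] [(k1,k2,z1,[y1,z1]),(k2,k1,z1,[y1,z1])]),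
    .old (.leafM k4 [k2,k4,k5,k1] [(z1,[y1,y1,z1])] [(k3,k0,z1,[z1]),(k0,k3,z1,[z1])]),
    .old (.lp [k74,k0,k62,k39,k30,k30] [k0,k42,k58,k58,k27,k27,k46,k31,k43,k43,k43,k43] k0 [[k0,k0,k65],[k0,k0,k0,k0,k0,
    k7],[k0,k0,k0,k0,k3],[k0,k65],[k7],[k0,k0,k0,k3]] k120 k6
    [[(k6,k28),(k9,k31),(k10,k31),(k1,k32)],[(k5,k24),(k3,k58),(k7,k92)],[(k4,k24),(k0,k58),(k2,k65)],[(k7,k24),(k5,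
    k31),(k3,k65)],[(k0,k24),(k2,k31),(k4,k65)],[(k3,k24),(k7,k58),(k5,k65)],[(k2,k24),(k4,k58),(k0,k92)],[(k6,k24),
    (k9,k27),(k10,k27),(k1,k28)],[(k6,k27),(k9,k30),(k10,k30),(k1,k31)],[(k8,k30),(k11,k30)],[(k8,k30),(k11,k30)],
    [(k6,k27),(k9,k30),(k10,k30),(k1,k31)]]
    [] k0
    [[k1,k1,k0,k1,k0,k0],[k1,k1,k1,k1,k0,k0],[k1,k0,k1,k1,k0,k0],[k0,k1,k1,k0,k0,k0],[k0,k2,k2,k0,k0,k0],[k0,k0,k0,k0,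
    k2,k0],[k0,k0,k0,k0,k1,k1],[k0,k0,k0,k0,k0,k2]]
    [.contra [z1,y1],.contra [z1,y1],.contra [z1,y1],.contra [y1,y1,z1],.ref k2 k0 [(z1,[z0,z1]),(z2,[z1])],
    .contra [z1],.contra [y1,y1,z1],.contra [z1]]),
    .old (.lp [k6,k8,k8,k6,k6,k12] [k5,k5,k4,k4,k4,k4,k5,k5,k5,k5,k0,k4] k0 [[],[],[],[],[],[],[],[k0,k0,k0,k0,k0,k0,k0,
    k0,k0,k0,k0,k4],[],[],[k0,k0,k0,k0,k0,k0,k4]] k24 k5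
    [[(k1,k6),(k9,k6),(k6,k10),(k10,k11)],[(k7,k6),(k3,k7),(k5,k7)],[(k0,k7),(k2,k8),(k4,k8)],[(k7,k7),(k3,k8),(k5,
    k8)],[(k0,k7),(k2,k8),(k4,k8)],[(k7,k7),(k3,k8),(k5,k8)],[(k0,k6),(k2,k7),(k4,k7)],[(k6,k6),(k9,k6),(k1,k10),(k10,
    k11)],[(k1,k6),(k6,k6),(k9,k6),(k10,k7)],[(k8,k6),(k11,k7)],[(k8,k7),(k11,k8)],[(k9,k7),(k1,k11),(k6,k11),(k10,
    k16)]]
    [] k0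
    [[k1,k0,k0,k1,k0,k0],[k0,k2,k0,k0,k0,k0],[k0,k1,k1,k0,k0,k0],[k0,k0,k2,k0,k0,k0],[k0,k0,k0,k0,k2,k0],[k0,k0,k0,k0,
    k1,k1]]
    [.ref k3 k0 [(z1,[z1])],.contra [z1],.ref k1 k0 [(z1,[y1,z1])],.contra [z1],.contra [z1],.ref k0 k0 [(z1,[y1,
    z1])]])]⟩

/-- classes `0 0 0 1 2 1`, types `C0 C0 C2 B0 C0 B1` -/
noncomputable def cU6_631 : CertX :=
  ⟨[k4,k4,k6,k24,k36,k25],[(false,k0,[k0,k1,k2,k3,k4,k5])],[[[([z1,z1,z1,z1,z0,z0],z2)],[]]],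
    [.old (.leafM k0 [k0,k1,k2,k3] [] [(k4,k5,z1,[y1,z1]),(k5,k4,z1,[y1,z1])]),
    .old (.lp [k6,k4,k4,k2,k0,k6] [k0,k0,k1,k1,k1,k1,k2,k2,k3,k3,k0,k0] k0 [] k12 k5
    [[(k9,k3),(k6,k4)],[(k3,k5),(k4,k5),(k5,k5)],[(k7,k3),(k2,k4),(k0,k5)],[(k3,k4),(k4,k4),(k5,k4)],[(k7,k3),(k2,k4),
    (k0,k5)],[(k7,k3),(k2,k4),(k0,k5)],[(k3,k3),(k4,k3),(k5,k3)],[(k1,k4),(k10,k4)],[(k1,k3),(k10,k3)],[(k11,k3)],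
    [(k8,k3)],[(k9,k3),(k6,k4)]]
    [] k0
    [[k0,k2,k0,k0,k0,k0],[k0,k0,k0,k0,k1,k1]]
    [.contra [z1],.ref k0 k0 [(z1,[y1,z1])]])]⟩

/-- classes `0 0 0 1 2 1`, types `C0 C0 C2 B0 S0 B1` -/
noncomputable def cU6_632 : CertX :=
  ⟨[k4,k4,k6,k24,k32,k25],[(false,k0,[k0,k1,k2,k3,k4,k5])],[[[([z1,z1,z1,z1,z0,z0],z2)],[]]],
    [.old (.leafM k0 [k0,k1,k2,k3] [] [(k4,k5,z1,[y1,z1]),(k5,k4,z1,[y1,z1])]),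
    .old (.lp [k12,k8,k6,k6,k6,k6] [k0,k0,k2,k2,k3,k3,k3,k3,k3,k3,k3,k3] k0 [] k24 k5
    [[(k6,k9),(k9,k9)],[(k4,k9),(k5,k9),(k3,k10)],[(k7,k7),(k2,k8),(k0,k10)],[(k4,k7),(k5,k7),(k3,k8)],[(k7,k6),(k2,
    k7),(k0,k9)],[(k7,k6),(k2,k7),(k0,k9)],[(k4,k6),(k5,k6),(k3,k7)],[(k10,k6),(k1,k9)],[(k10,k6),(k1,k9)],[(k8,k6),
    (k11,k6)],[(k8,k6),(k11,k6)],[(k6,k6),(k9,k6)]]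
    [] k0
    [[k0,k2,k0,k0,k0,k0],[k0,k0,k0,k0,k1,k1]]
    [.contra [z1],.ref k0 k0 [(z1,[y1,z1])]])]⟩

/-- classes `0 0 0 1 2 1`, types `C0 C0 C2 C0 C0 C0` -/
noncomputable def cU6_633 : CertX :=
  ⟨[k4,k4,k6,k20,k36,k20],[(false,k0,[k0,k1,k2,k3,k4,k5])],[[[([z1,z1,z1,z1,z0,z0],z2)],[]]],
    [.old (.leafM k0 [k0,k1,k2,k3] [] [(k4,k5,z1,[y1,z1]),(k5,k4,z1,[y1,z1])]),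
    .old (.lp [k2,k4,k4,k6,k2,k4] [k2,k2,k1,k1,k1,k1,k0,k0,k2,k2,k1,k1] k0 [] k12 k5
    [[(k10,k3),(k6,k4)],[(k3,k3),(k4,k3),(k5,k3)],[(k0,k3),(k2,k4),(k7,k5)],[(k3,k4),(k4,k4),(k5,k4)],[(k0,k3),(k2,
    k4),(k7,k5)],[(k0,k3),(k2,k4),(k7,k5)],[(k3,k5),(k4,k5),(k5,k5)],[(k1,k4),(k9,k4)],[(k10,k3),(k6,k4)],[(k11,k3)],
    [(k8,k3)],[(k1,k3),(k9,k3)]]
    [] k0
    [[k0,k2,k0,k0,k0,k0],[k0,k0,k0,k0,k1,k1]]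
    [.contra [z1],.ref k0 k0 [(z1,[y1,z1])]])]⟩

/-- classes `0 0 0 1 2 1`, types `C0 C0 C2 C0 C0 C2` -/
noncomputable def cU6_634 : CertX :=
  ⟨[k4,k4,k6,k20,k36,k22],[],[[[]]],
    [.old (.lp [k2,k4,k2,k2,k2,k2] [k1,k1,k0,k0,k1,k1,k1,k1,k1,k1,k1,k1] k0 [] k8 k5
    [[(k9,k2),(k10,k2)],[(k4,k2),(k5,k2),(k3,k3)],[(k0,k3),(k7,k3),(k2,k4)],[(k4,k3),(k5,k3),(k3,k4)],[(k0,k2),(k7,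
    k2),(k2,k3)],[(k0,k2),(k7,k2),(k2,k3)],[(k4,k2),(k5,k2),(k3,k3)],[(k9,k2),(k10,k2)],[(k1,k2),(k6,k2)],[(k11,k2)],
    [(k8,k2)],[(k1,k2),(k6,k2)]]
    [] k0
    []
    [])]⟩

/-- classes `0 0 0 1 2 1`, types `C0 C0 C2 C0 S0 C0` -/
noncomputable def cU6_635 : CertX :=
  ⟨[k4,k4,k6,k20,k32,k20],[(false,k0,[k0,k1,k2,k3,k4,k5])],[[[([z1,z1,z1,z1,z0,z0],z2)],[]]],
    [.old (.leafM k0 [k0,k1,k2,k3] [] [(k4,k5,z1,[y1,z1]),(k5,k4,z1,[y1,z1])]),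
    .old (.lp [k6,k8,k12,k6,k6,k6] [k3,k3,k2,k2,k0,k0,k3,k3,k3,k3,k3,k3] k0 [] k24 k5
    [[(k6,k6),(k10,k6)],[(k3,k7),(k4,k9),(k5,k9)],[(k0,k7),(k7,k7),(k2,k8)],[(k3,k8),(k4,k10),(k5,k10)],[(k0,k9),(k7,
    k9),(k2,k10)],[(k0,k9),(k7,k9),(k2,k10)],[(k3,k7),(k4,k9),(k5,k9)],[(k1,k6),(k9,k6)],[(k6,k6),(k10,k6)],[(k8,k6),
    (k11,k6)],[(k8,k6),(k11,k6)],[(k1,k6),(k9,k6)]]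
    [] k0
    [[k0,k2,k0,k0,k0,k0],[k0,k0,k0,k0,k1,k1]]
    [.contra [z1],.ref k0 k0 [(z1,[y1,z1])]])]⟩

/-- classes `0 0 0 1 2 1`, types `C0 C0 C2 C0 S0 C2` -/
noncomputable def cU6_636 : CertX :=
  ⟨[k4,k4,k6,k20,k32,k22],[],[[[]]],
    [.old (.lp [k2,k4,k2,k2,k2,k2] [k1,k1,k0,k0,k1,k1,k1,k1,k1,k1,k1,k1] k0 [] k8 k5
    [[(k9,k2),(k10,k2)],[(k4,k2),(k5,k2),(k3,k3)],[(k0,k3),(k7,k3),(k2,k4)],[(k4,k3),(k5,k3),(k3,k4)],[(k0,k2),(k7,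
    k2),(k2,k3)],[(k0,k2),(k7,k2),(k2,k3)],[(k4,k2),(k5,k2),(k3,k3)],[(k9,k2),(k10,k2)],[(k1,k2),(k6,k2)],[(k8,k2),
    (k11,k2)],[(k8,k2),(k11,k2)],[(k1,k2),(k6,k2)]]
    [] k0
    []
    [])]⟩

/-- classes `0 0 0 1 2 1`, types `C0 C0 C2 N0 C0 N1` -/
noncomputable def cU6_637 : CertX :=
  ⟨[k4,k4,k6,k28,k36,k29],[(false,k0,[k0,k1,k2,k3,k4,k5])],[[[([z1,z1,z1,z1,z0,z0],z2)],[]]],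
    [.old (.leafM k0 [k0,k1,k2,k3] [] [(k4,k5,z1,[y1,z1]),(k5,k4,z1,[y1,z1])]),
    .old (.lp [k2,k4,k4,k6,k6,k0] [k2,k2,k1,k1,k1,k1,k0,k0,k0,k0,k3,k3] k0 [] k12 k5
    [[(k6,k4)],[(k3,k3),(k4,k3),(k5,k3)],[(k0,k3),(k2,k4),(k7,k5)],[(k3,k4),(k4,k4),(k5,k4)],[(k0,k3),(k2,k4),(k7,
    k5)],[(k0,k3),(k2,k4),(k7,k5)],[(k3,k5),(k4,k5),(k5,k5)],[(k1,k4)],[(k10,k3)],[(k11,k3)],[(k8,k3)],[(k9,k3)]]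
    [] k0
    [[k0,k2,k0,k0,k0,k0],[k0,k0,k0,k0,k1,k1]]
    [.contra [z1],.ref k0 k0 [(z1,[y1,z1])]])]⟩

/-- classes `0 0 0 1 2 1`, types `C0 C0 C2 N0 C0 N2` -/
noncomputable def cU6_638 : CertX :=
  ⟨[k4,k4,k6,k28,k36,k30],[],[[[]]],
    [.old (.lp [k2,k4,k2,k2,k2,k2] [k1,k1,k0,k0,k1,k1,k1,k1,k1,k1,k1,k1] k0 [] k8 k5
    [[(k9,k2)],[(k4,k2),(k5,k2),(k3,k3)],[(k0,k3),(k7,k3),(k2,k4)],[(k4,k3),(k5,k3),(k3,k4)],[(k0,k2),(k7,k2),(k2,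
    k3)],[(k0,k2),(k7,k2),(k2,k3)],[(k4,k2),(k5,k2),(k3,k3)],[(k10,k2)],[(k1,k2)],[(k11,k2)],[(k8,k2)],[(k6,k2)]]
    [] k0
    []
    [])]⟩

/-- classes `0 0 0 1 2 1`, types `C0 C0 C2 N0 S0 N1` -/
noncomputable def cU6_639 : CertX :=
  ⟨[k4,k4,k6,k28,k32,k29],[(false,k0,[k0,k1,k2,k3,k4,k5])],[[[([z1,z1,z1,z1,z0,z0],z2)],[]]],
    [.old (.leafM k0 [k0,k1,k2,k3] [] [(k4,k5,z1,[y1,z1]),(k5,k4,z1,[y1,z1])]),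
    .old (.lp [k4,k8,k12,k8,k6,k6] [k4,k4,k2,k2,k0,k0,k2,k2,k3,k3,k3,k3] k0 [] k24 k5
    [[(k6,k6)],[(k3,k6),(k4,k8),(k5,k8)],[(k0,k6),(k2,k8),(k7,k8)],[(k3,k8),(k4,k10),(k5,k10)],[(k0,k8),(k2,k10),(k7,
    k10)],[(k0,k8),(k2,k10),(k7,k10)],[(k3,k8),(k4,k10),(k5,k10)],[(k1,k6)],[(k10,k6)],[(k8,k6),(k11,k6)],[(k8,k6),
    (k11,k6)],[(k9,k6)]]
    [] k0
    [[k0,k2,k0,k0,k0,k0],[k0,k0,k0,k0,k1,k1]]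
    [.contra [z1],.ref k0 k0 [(z1,[y1,z1])]])]⟩

/-- classes `0 0 0 1 2 1`, types `C0 C0 C2 N0 S0 N2` -/
noncomputable def cU6_640 : CertX :=
  ⟨[k4,k4,k6,k28,k32,k30],[],[[[]]],
    [.old (.lp [k2,k4,k2,k2,k2,k2] [k1,k1,k0,k0,k1,k1,k1,k1,k1,k1,k1,k1] k0 [] k8 k5
    [[(k9,k2)],[(k4,k2),(k5,k2),(k3,k3)],[(k0,k3),(k7,k3),(k2,k4)],[(k4,k3),(k5,k3),(k3,k4)],[(k0,k2),(k7,k2),(k2,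
    k3)],[(k0,k2),(k7,k2),(k2,k3)],[(k4,k2),(k5,k2),(k3,k3)],[(k10,k2)],[(k1,k2)],[(k8,k2),(k11,k2)],[(k8,k2),(k11,
    k2)],[(k6,k2)]]
    [] k0
    []
    [])]⟩

/-- classes `0 0 0 1 2 1`, types `C0 C0 C2 S0 C0 S0` -/
noncomputable def cU6_641 : CertX :=
  ⟨[k4,k4,k6,k16,k36,k16],[(false,k0,[k0,k1,k2,k3,k4,k5])],[[[([z1,z1,z1,z1,z0,z0],z2)],[]]],
    [.old (.leafM k0 [k0,k1,k2,k3] [] [(k4,k5,z1,[y1,z1]),(k5,k4,z1,[y1,z1])]),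
    .old (.lp [k10,k8,k4,k10,k6,k6] [k0,k0,k1,k1,k3,k3,k0,k0,k2,k2,k2,k2] k0 [] k24 k5
    [[(k9,k8),(k10,k8),(k1,k10),(k6,k10)],[(k4,k7),(k5,k7),(k3,k9)],[(k2,k8),(k0,k9),(k7,k9)],[(k4,k6),(k5,k6),(k3,
    k8)],[(k2,k6),(k0,k7),(k7,k7)],[(k2,k6),(k0,k7),(k7,k7)],[(k4,k7),(k5,k7),(k3,k9)],[(k9,k8),(k10,k8),(k1,k10),(k6,
    k10)],[(k9,k6),(k10,k6),(k1,k8),(k6,k8)],[(k11,k6)],[(k8,k6)],[(k9,k6),(k10,k6),(k1,k8),(k6,k8)]]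
    [] k0
    [[k0,k2,k0,k0,k0,k0],[k0,k0,k0,k0,k1,k1]]
    [.contra [z1],.ref k0 k0 [(z1,[y1,z1])]])]⟩

/-- classes `0 0 0 1 2 1`, types `C0 C0 C2 S0 S0 S0` -/
noncomputable def cU6_642 : CertX :=
  ⟨[k4,k4,k6,k16,k32,k16],[(false,k0,[k0,k1,k2,k3,k4,k5])],[[[([z1,z1,z1,z1,z0,z0],z2)],[]]],
    [.old (.leafM k0 [k0,k1,k2,k3] [] [(k4,k5,z1,[y1,z1]),(k5,k4,z1,[y1,z1])]),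
    .old (.lp [k48,k18,k46,k36,k30,k60] [k1,k11,k21,k21,k7,k7,k15,k9,k15,k15,k0,k0] k0 [[k0,k0,k22],[],[k0,k0,k0,k0,k0,
    k2],[k0,k22],[k0,k0,k0,k2],[],[],[k0,k0,k0,k0,k0,k0,k0,k0,k0,k0,k0,k12],[],[],[k0,k0,k0,k0,k0,k0,k12]] k120 k5
    [[(k9,k34),(k1,k38),(k6,k46),(k10,k49)],[(k5,k30),(k3,k38),(k4,k52)],[(k7,k30),(k0,k38),(k2,k40)],[(k4,k30),(k5,
    k32),(k3,k40)],[(k0,k30),(k2,k32),(k7,k46)],[(k2,k30),(k7,k44),(k0,k52)],[(k3,k30),(k4,k44),(k5,k46)],[(k6,k30),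
    (k9,k30),(k10,k45),(k1,k46)],[(k6,k30),(k9,k30),(k10,k33),(k1,k34)],[(k8,k30),(k11,k45)],[(k8,k45),(k11,k60)],
    [(k9,k33),(k6,k45),(k1,k49),(k10,k60)]]
    [] k0
    [[k0,k2,k0,k0,k0,k0],[k0,k0,k0,k0,k2,k0],[k0,k0,k0,k0,k1,k1]]
    [.contra [z1],.contra [z1],.ref k0 k0 [(z1,[y1,z1])]])]⟩

/-- classes `0 0 0 1 2 1`, types `C0 C2 C0 B0 C0 B1` -/
noncomputable def cU6_643 : CertX :=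
  ⟨[k4,k6,k4,k24,k36,k25],[(false,k0,[k0,k1,k2,k3,k4,k5])],[[[([z1,z1,z1,z1,z0,z0],z2)],[([z1,z0,z0,z1,z1,z1],z2)],
    [([z1,z0,z0,z1,z0,z0],z2),([z0,z1,z1,z0,z0,z0],z1)],[([z1,z0,z0,z1,z0,z0],z2)],[]]],
    [.old (.leafM k0 [k0,k1,k2,k3] [] [(k4,k5,z1,[y1,z1]),(k5,k4,z1,[y1,z1])]),
    .old (.leafM k2 [k0,k3,k4,k5] [] [(k1,k2,z1,[y1,z1]),(k2,k1,z1,[y1,z1])]),
    .old (.leafM k4 [k2,k4,k5,k1] [(z1,[y1,y1,z1])] [(k3,k0,z1,[z1]),(k0,k3,z1,[z1])]),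
    .old (.lp [k8,k10,k0,k12,k0,k8] [k2,k2,k1,k1,k6,k6,k0,k0,k6,k6,k2,k2] k0 [] k20 k6
    [[(k9,k4),(k6,k10)],[(k2,k9),(k3,k9),(k7,k10)],[(k4,k5),(k5,k5),(k0,k9)],[(k4,k5),(k5,k5),(k0,k9)],[(k2,k5),(k3,
    k5),(k7,k6)],[(k2,k5),(k3,k5),(k7,k6)],[(k4,k6),(k5,k6),(k0,k10)],[(k1,k10),(k10,k10)],[(k1,k4),(k10,k4)],[(k11,
    k4)],[(k8,k4)],[(k9,k4),(k6,k10)]]
    [] k0
    [[k0,k1,k1,k0,k0,k0],[k0,k0,k0,k0,k1,k1],[k0,k0,k0,k0,k2,k2]]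
    [.contra [y1,y1,z1],.contra [y1,y1,z1],.ref k2 k0 [(z1,[z0,z1]),(z2,[y1,y2,z2])]]),
    .old (.lp [k2,k0,k2,k0,k0,k2] [k0,k0,k1,k1,k0,k0,k1,k1,k1,k1,k0,k0] k0 [] k4 k5
    [[(k6,k1),(k9,k1)],[(k2,k1),(k3,k1),(k7,k1)],[(k0,k1),(k4,k1),(k5,k1)],[(k0,k1),(k4,k1),(k5,k1)],[(k2,k1),(k3,k1),
    (k7,k1)],[(k2,k1),(k3,k1),(k7,k1)],[(k0,k1),(k4,k1),(k5,k1)],[(k1,k1),(k10,k1)],[(k1,k1),(k10,k1)],[(k11,k1)],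
    [(k8,k1)],[(k6,k1),(k9,k1)]]
    [] k0
    [[k1,k0,k0,k1,k0,k0],[k0,k1,k1,k0,k0,k0],[k0,k0,k0,k0,k1,k1]]
    [.ref k3 k0 [(z1,[z1])],.ref k1 k0 [(z1,[y1,z1])],.ref k0 k0 [(z1,[y1,z1])]])]⟩

/-- classes `0 0 0 1 2 1`, types `C0 C2 C0 B0 S0 B1` -/
noncomputable def cU6_644 : CertX :=
  ⟨[k4,k6,k4,k24,k32,k25],[(false,k0,[k0,k1,k2,k3,k4,k5])],[[[([z1,z1,z1,z1,z0,z0],z2)],[([z1,z0,z0,z1,z1,z1],z2)],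
    [([z1,z0,z0,z1,z0,z0],z2),([z0,z1,z1,z0,z0,z0],z1)],[([z1,z0,z0,z1,z0,z0],z2)],[]]],
    [.old (.leafM k0 [k0,k1,k2,k3] [] [(k4,k5,z1,[y1,z1]),(k5,k4,z1,[y1,z1])]),
    .old (.leafM k2 [k0,k3,k4,k5] [] [(k1,k2,z1,[y1,z1]),(k2,k1,z1,[y1,z1])]),
    .old (.leafM k4 [k2,k4,k5,k1] [(z1,[y1,y1,z1])] [(k3,k0,z1,[z1]),(k0,k3,z1,[z1])]),
    .old (.lp [k16,k6,k4,k4,k4,k4] [k0,k0,k5,k5,k6,k6,k6,k6,k6,k6,k6,k6] k0 [] k20 k6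
    [[(k6,k10),(k9,k10)],[(k7,k10),(k2,k11),(k3,k11)],[(k4,k5),(k5,k5),(k0,k11)],[(k4,k5),(k5,k5),(k0,k11)],[(k7,k4),
    (k2,k5),(k3,k5)],[(k7,k4),(k2,k5),(k3,k5)],[(k4,k4),(k5,k4),(k0,k10)],[(k10,k4),(k1,k10)],[(k10,k4),(k1,k10)],
    [(k8,k4),(k11,k4)],[(k8,k4),(k11,k4)],[(k6,k4),(k9,k4)]]
    [] k0
    [[k0,k1,k1,k0,k0,k0],[k0,k0,k0,k0,k1,k1],[k0,k0,k0,k0,k2,k2]]
    [.contra [y1,y1,z1],.contra [y1,y1,z1],.ref k2 k0 [(z1,[z0,z1]),(z2,[y1,y2,z2])]]),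
    .old (.lp [k2,k2,k2,k2,k2,k2] [k0,k0,k0,k0,k0,k0,k0,k0,k0,k0,k0,k0] k0 [] k8 k5
    [[(k6,k2),(k9,k2)],[(k2,k2),(k3,k2),(k7,k2)],[(k0,k2),(k4,k2),(k5,k2)],[(k0,k2),(k4,k2),(k5,k2)],[(k2,k2),(k3,k2),
    (k7,k2)],[(k2,k2),(k3,k2),(k7,k2)],[(k0,k2),(k4,k2),(k5,k2)],[(k1,k2),(k10,k2)],[(k1,k2),(k10,k2)],[(k8,k2),(k11,
    k2)],[(k8,k2),(k11,k2)],[(k6,k2),(k9,k2)]]
    [] k0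
    [[k1,k0,k0,k1,k0,k0],[k0,k1,k1,k0,k0,k0],[k0,k0,k0,k0,k1,k1]]
    [.ref k3 k0 [(z1,[z1])],.ref k1 k0 [(z1,[y1,z1])],.ref k0 k0 [(z1,[y1,z1])]])]⟩

/-- classes `0 0 0 1 2 1`, types `C0 C2 C0 C0 C0 C0` -/
noncomputable def cU6_645 : CertX :=
  ⟨[k4,k6,k4,k20,k36,k20],[(false,k0,[k0,k1,k2,k3,k4,k5])],[[[([z1,z1,z1,z1,z0,z0],z2)],[([z1,z0,z0,z1,z1,z1],z2)],
    [([z1,z0,z0,z1,z0,z0],z2),([z0,z1,z1,z0,z0,z0],z1)],[([z1,z0,z0,z1,z0,z0],z2)],[]]],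
    [.old (.leafM k0 [k0,k1,k2,k3] [] [(k4,k5,z1,[y1,z1]),(k5,k4,z1,[y1,z1])]),
    .old (.leafM k0 [k0,k3,k4,k5] [] [(k1,k2,z1,[y1,z1]),(k2,k1,z1,[y1,z1])]),
    .old (.leafM k4 [k2,k4,k5,k1] [(z1,[y1,y1,z1])] [(k3,k0,z1,[z1]),(k0,k3,z1,[z1])]),
    .old (.lp [k0,k8,k0,k20,k2,k8] [k10,k10,k6,k6,k10,k10,k0,k0,k9,k9,k6,k6] k0 [] k20 k6
    [[(k10,k4),(k6,k10)],[(k2,k4),(k3,k4),(k7,k10)],[(k0,k4),(k4,k4),(k5,k4)],[(k0,k4),(k4,k4),(k5,k4)],[(k2,k4),(k3,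
    k4),(k7,k10)],[(k2,k4),(k3,k4),(k7,k10)],[(k0,k10),(k4,k10),(k5,k10)],[(k1,k10),(k9,k11)],[(k10,k5),(k6,k11)],
    [(k11,k5)],[(k8,k5)],[(k1,k4),(k9,k5)]]
    [] k0
    [[k0,k1,k1,k0,k0,k0],[k0,k2,k2,k0,k0,k0],[k0,k0,k0,k0,k1,k1]]
    [.contra [y1,y1,z1],.ref k2 k0 [(z1,[z0,z1]),(z2,[z1])],.contra [y1,y1,z1]]),
    .old (.lp [k0,k2,k0,k2,k0,k2] [k1,k1,k0,k0,k1,k1,k0,k0,k1,k1,k0,k0] k0 [] k4 k5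
    [[(k6,k1),(k10,k1)],[(k2,k1),(k3,k1),(k7,k1)],[(k0,k1),(k4,k1),(k5,k1)],[(k0,k1),(k4,k1),(k5,k1)],[(k2,k1),(k3,
    k1),(k7,k1)],[(k2,k1),(k3,k1),(k7,k1)],[(k0,k1),(k4,k1),(k5,k1)],[(k1,k1),(k9,k1)],[(k6,k1),(k10,k1)],[(k11,k1)],
    [(k8,k1)],[(k1,k1),(k9,k1)]]
    [] k0
    [[k1,k0,k0,k1,k0,k0],[k0,k1,k1,k0,k0,k0],[k0,k0,k0,k0,k1,k1]]
    [.ref k3 k0 [(z1,[z1])],.ref k1 k0 [(z1,[y1,z1])],.ref k0 k0 [(z1,[y1,z1])]])]⟩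

/-- classes `0 0 0 1 2 1`, types `C0 C2 C0 C0 C0 C2` -/
noncomputable def cU6_646 : CertX :=
  ⟨[k4,k6,k4,k20,k36,k22],[(false,k0,[k0,k1,k2,k3,k4,k5])],[[[([z1,z0,z0,z1,z1,z1],z2)],[]]],
    [.old (.leafM k0 [k0,k3,k4,k5] [] [(k1,k2,z1,[y1,z1]),(k2,k1,z1,[y1,z1])]),
    .old (.lp [k2,k2,k2,k2,k2,k2] [k0,k0,k0,k0,k0,k0,k0,k0,k0,k0,k0,k0] k0 [] k8 k5
    [[(k9,k2),(k10,k2)],[(k2,k2),(k3,k2),(k7,k2)],[(k0,k2),(k4,k2),(k5,k2)],[(k0,k2),(k4,k2),(k5,k2)],[(k2,k2),(k3,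
    k2),(k7,k2)],[(k2,k2),(k3,k2),(k7,k2)],[(k0,k2),(k4,k2),(k5,k2)],[(k9,k2),(k10,k2)],[(k1,k2),(k6,k2)],[(k11,k2)],
    [(k8,k2)],[(k1,k2),(k6,k2)]]
    [] k0
    [[k0,k1,k1,k0,k0,k0]]
    [.ref k0 k0 [(z1,[y1,z1])]])]⟩

/-- classes `0 0 0 1 2 1`, types `C0 C2 C0 C0 S0 C0` -/
noncomputable def cU6_647 : CertX :=
  ⟨[k4,k6,k4,k20,k32,k20],[(false,k0,[k0,k1,k2,k3,k4,k5])],[[[([z1,z1,z1,z1,z0,z0],z2)],[([z1,z0,z0,z1,z1,z1],z2)],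
    [([z1,z0,z0,z1,z0,z0],z2),([z0,z1,z1,z0,z0,z0],z1)],[([z1,z0,z0,z1,z0,z0],z2)],[]]],
    [.old (.leafM k0 [k0,k1,k2,k3] [] [(k4,k5,z1,[y1,z1]),(k5,k4,z1,[y1,z1])]),
    .old (.leafM k0 [k0,k3,k4,k5] [] [(k1,k2,z1,[y1,z1]),(k2,k1,z1,[y1,z1])]),
    .old (.leafM k4 [k2,k4,k5,k1] [(z1,[y1,y1,z1])] [(k3,k0,z1,[z1]),(k0,k3,z1,[z1])]),
    .old (.lp [k4,k10,k0,k16,k4,k4] [k6,k6,k3,k3,k8,k8,k0,k0,k6,k6,k6,k6] k0 [] k20 k6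
    [[(k10,k4),(k6,k10)],[(k2,k7),(k3,k7),(k7,k10)],[(k4,k5),(k5,k5),(k0,k7)],[(k4,k5),(k5,k5),(k0,k7)],[(k2,k5),(k3,
    k5),(k7,k8)],[(k2,k5),(k3,k5),(k7,k8)],[(k4,k8),(k5,k8),(k0,k10)],[(k1,k10),(k9,k10)],[(k10,k4),(k6,k10)],[(k8,
    k4),(k11,k4)],[(k8,k4),(k11,k4)],[(k1,k4),(k9,k4)]]
    [] k0
    [[k0,k1,k1,k0,k0,k0],[k0,k0,k0,k0,k1,k1],[k0,k0,k0,k0,k2,k2]]
    [.contra [y1,y1,z1],.contra [y1,y1,z1],.ref k2 k0 [(z1,[z0,z1]),(z2,[y1,y2,z2])]]),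
    .old (.lp [k2,k2,k2,k2,k2,k2] [k0,k0,k0,k0,k0,k0,k0,k0,k0,k0,k0,k0] k0 [] k8 k5
    [[(k6,k2),(k10,k2)],[(k2,k2),(k3,k2),(k7,k2)],[(k0,k2),(k4,k2),(k5,k2)],[(k0,k2),(k4,k2),(k5,k2)],[(k2,k2),(k3,
    k2),(k7,k2)],[(k2,k2),(k3,k2),(k7,k2)],[(k0,k2),(k4,k2),(k5,k2)],[(k1,k2),(k9,k2)],[(k6,k2),(k10,k2)],[(k8,k2),
    (k11,k2)],[(k8,k2),(k11,k2)],[(k1,k2),(k9,k2)]]
    [] k0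
    [[k1,k0,k0,k1,k0,k0],[k0,k1,k1,k0,k0,k0],[k0,k0,k0,k0,k1,k1]]
    [.ref k3 k0 [(z1,[z1])],.ref k1 k0 [(z1,[y1,z1])],.ref k0 k0 [(z1,[y1,z1])]])]⟩

/-- classes `0 0 0 1 2 1`, types `C0 C2 C0 C0 S0 C2` -/
noncomputable def cU6_648 : CertX :=
  ⟨[k4,k6,k4,k20,k32,k22],[(false,k0,[k0,k1,k2,k3,k4,k5])],[[[([z1,z0,z0,z1,z1,z1],z2)],[]]],
    [.old (.leafM k0 [k0,k3,k4,k5] [] [(k1,k2,z1,[y1,z1]),(k2,k1,z1,[y1,z1])]),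
    .old (.lp [k2,k2,k2,k2,k2,k2] [k0,k0,k0,k0,k0,k0,k0,k0,k0,k0,k0,k0] k0 [] k8 k5
    [[(k9,k2),(k10,k2)],[(k2,k2),(k3,k2),(k7,k2)],[(k0,k2),(k4,k2),(k5,k2)],[(k0,k2),(k4,k2),(k5,k2)],[(k2,k2),(k3,
    k2),(k7,k2)],[(k2,k2),(k3,k2),(k7,k2)],[(k0,k2),(k4,k2),(k5,k2)],[(k9,k2),(k10,k2)],[(k1,k2),(k6,k2)],[(k8,k2),
    (k11,k2)],[(k8,k2),(k11,k2)],[(k1,k2),(k6,k2)]]
    [] k0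
    [[k0,k1,k1,k0,k0,k0]]
    [.ref k0 k0 [(z1,[y1,z1])]])]⟩

/-- classes `0 0 0 1 2 1`, types `C0 C2 C0 N0 C0 N1` -/
noncomputable def cU6_649 : CertX :=
  ⟨[k4,k6,k4,k28,k36,k29],[(false,k0,[k0,k1,k2,k3,k4,k5])],[[[([z1,z1,z1,z1,z0,z0],z2)],[([z1,z0,z0,z1,z0,z0],z1),
    ([z0,z1,z1,z0,z0,z0],z2)],[([z1,z0,z0,z1,z1,z1],z2)],[([z1,z0,z0,z1,z0,z0],z2),([z0,z1,z1,z0,z0,z0],z1)],[([z1,z0,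
    z0,z1,z0,z0],z2)],[]]],
    [.old (.leafM k0 [k0,k1,k2,k3] [] [(k4,k5,z1,[y1,z1]),(k5,k4,z1,[y1,z1])]),
    .old (.leafM k4 [k3,k4,k5,k0] [(z1,[y1,y1,z1])] [(k1,k2,z1,[z0,z1]),(k2,k1,z1,[z0,z1])]),
    .old (.lp [k0,k8,k12,k8,k10,k0] [k6,k6,k2,k2,k0,k0,k2,k2,k1,k1,k6,k6] k0 [] k20 k6
    [[(k6,k4)],[(k2,k4),(k3,k4),(k7,k4)],[(k0,k4),(k4,k10),(k5,k10)],[(k0,k4),(k4,k10),(k5,k10)],[(k2,k10),(k3,k10),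
    (k7,k10)],[(k2,k10),(k3,k10),(k7,k10)],[(k0,k4),(k4,k10),(k5,k10)],[(k1,k4)],[(k10,k5)],[(k11,k5)],[(k8,k5)],[(k9,
    k5)]]
    [] k0
    [[k1,k0,k0,k1,k0,k0],[k2,k0,k0,k2,k0,k0],[k0,k0,k0,k0,k1,k1]]
    [.contra [y1,z1],.ref k1 k0 [(z2,[z1]),(z1,[z0,y1,z1])],.contra [y1,z1]]),
    .old (.leafM k4 [k2,k4,k5,k1] [(z1,[y1,y1,z1])] [(k3,k0,z1,[z1]),(k0,k3,z1,[z1])]),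
    .old (.lp [k0,k8,k0,k20,k10,k0] [k10,k10,k6,k6,k10,k10,k0,k0,k5,k5,k10,k10] k0 [] k20 k6
    [[(k6,k10)],[(k2,k4),(k3,k4),(k7,k10)],[(k0,k4),(k4,k4),(k5,k4)],[(k0,k4),(k4,k4),(k5,k4)],[(k2,k4),(k3,k4),(k7,
    k10)],[(k2,k4),(k3,k4),(k7,k10)],[(k0,k10),(k4,k10),(k5,k10)],[(k1,k10)],[(k10,k5)],[(k11,k5)],[(k8,k5)],[(k9,
    k5)]]
    [] k0
    [[k0,k1,k1,k0,k0,k0],[k0,k2,k2,k0,k0,k0],[k0,k0,k0,k0,k1,k1]]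
    [.contra [y1,y1,z1],.ref k3 k0 [(z1,[z0,z1]),(z2,[z1])],.contra [y1,y1,z1]]),
    .old (.lp [k0,k2,k0,k2,k2,k0] [k1,k1,k0,k0,k1,k1,k0,k0,k0,k0,k1,k1] k0 [] k4 k5
    [[(k6,k1)],[(k2,k1),(k3,k1),(k7,k1)],[(k0,k1),(k4,k1),(k5,k1)],[(k0,k1),(k4,k1),(k5,k1)],[(k2,k1),(k3,k1),(k7,
    k1)],[(k2,k1),(k3,k1),(k7,k1)],[(k0,k1),(k4,k1),(k5,k1)],[(k1,k1)],[(k10,k1)],[(k11,k1)],[(k8,k1)],[(k9,k1)]]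
    [] k0
    [[k1,k0,k0,k1,k0,k0],[k0,k1,k1,k0,k0,k0],[k0,k0,k0,k0,k1,k1]]
    [.ref k4 k0 [(z1,[z1])],.ref k2 k0 [(z1,[y1,z1])],.ref k0 k0 [(z1,[y1,z1])]])]⟩

/-- classes `0 0 0 1 2 1`, types `C0 C2 C0 N0 C0 N2` -/
noncomputable def cU6_650 : CertX :=
  ⟨[k4,k6,k4,k28,k36,k30],[(false,k0,[k0,k1,k2,k3,k4,k5])],[[[([z1,z0,z0,z1,z1,z1],z2)],[]]],
    [.old (.leafM k2 [k0,k3,k4,k5] [] [(k1,k2,z1,[y1,z1]),(k2,k1,z1,[y1,z1])]),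
    .old (.lp [k0,k2,k0,k2,k2,k0] [k1,k1,k0,k0,k1,k1,k0,k0,k0,k0,k1,k1] k0 [] k4 k5
    [[(k9,k1)],[(k2,k1),(k3,k1),(k7,k1)],[(k0,k1),(k4,k1),(k5,k1)],[(k0,k1),(k4,k1),(k5,k1)],[(k2,k1),(k3,k1),(k7,
    k1)],[(k2,k1),(k3,k1),(k7,k1)],[(k0,k1),(k4,k1),(k5,k1)],[(k10,k1)],[(k1,k1)],[(k11,k1)],[(k8,k1)],[(k6,k1)]]
    [] k0
    [[k0,k1,k1,k0,k0,k0]]
    [.ref k0 k0 [(z1,[y1,z1])]])]⟩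

/-- classes `0 0 0 1 2 1`, types `C0 C2 C0 N0 S0 N1` -/
noncomputable def cU6_651 : CertX :=
  ⟨[k4,k6,k4,k28,k32,k29],[(false,k0,[k0,k1,k2,k3,k4,k5])],[[[([z1,z1,z1,z1,z0,z0],z2)],[([z1,z0,z0,z1,z0,z0],z1),
    ([z0,z1,z1,z0,z0,z0],z2)],[([z1,z0,z0,z1,z1,z1],z2)],[([z1,z0,z0,z1,z0,z0],z2),([z0,z1,z1,z0,z0,z0],z1)],[([z1,z0,
    z0,z1,z0,z0],z2)],[]]],
    [.old (.leafM k0 [k0,k1,k2,k3] [] [(k4,k5,z1,[y1,z1]),(k5,k4,z1,[y1,z1])]),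
    .old (.leafM k4 [k3,k4,k5,k0] [(z1,[y1,y1,z1])] [(k1,k2,z1,[z0,z1]),(k2,k1,z1,[z0,z1])]),
    .old (.lp [k0,k20,k0,k10,k4,k4] [k10,k10,k0,k0,k10,k10,k5,k5,k8,k8,k8,k8] k0 [] k20 k6
    [[(k6,k5)],[(k7,k5),(k2,k10),(k3,k10)],[(k0,k10),(k4,k10),(k5,k10)],[(k0,k10),(k4,k10),(k5,k10)],[(k7,k5),(k2,
    k10),(k3,k10)],[(k7,k5),(k2,k10),(k3,k10)],[(k0,k5),(k4,k5),(k5,k5)],[(k1,k5)],[(k10,k4)],[(k8,k4),(k11,k4)],[(k8,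
    k4),(k11,k4)],[(k9,k4)]]
    [] k0
    [[k1,k0,k0,k1,k0,k0],[k0,k0,k0,k0,k1,k1],[k0,k0,k0,k0,k2,k2]]
    [.contra [y1,z1],.contra [y1,z1],.ref k1 k0 [(z2,[y1,z2]),(z1,[z0,y1,z1])]]),
    .old (.leafM k4 [k2,k4,k5,k1] [(z1,[y1,y1,z1])] [(k3,k0,z1,[z1]),(k0,k3,z1,[z1])]),
    .old (.lp [k0,k10,k0,k20,k4,k4] [k10,k10,k5,k5,k10,k10,k0,k0,k8,k8,k8,k8] k0 [] k20 k6
    [[(k6,k10)],[(k2,k5),(k3,k5),(k7,k10)],[(k0,k5),(k4,k5),(k5,k5)],[(k0,k5),(k4,k5),(k5,k5)],[(k2,k5),(k3,k5),(k7,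
    k10)],[(k2,k5),(k3,k5),(k7,k10)],[(k0,k10),(k4,k10),(k5,k10)],[(k1,k10)],[(k10,k4)],[(k8,k4),(k11,k4)],[(k8,k4),
    (k11,k4)],[(k9,k4)]]
    [] k0
    [[k0,k1,k1,k0,k0,k0],[k0,k0,k0,k0,k1,k1],[k0,k0,k0,k0,k2,k2]]
    [.contra [y1,y1,z1],.contra [y1,y1,z1],.ref k3 k0 [(z1,[z0,z1]),(z2,[y1,y2,z2])]]),
    .old (.lp [k0,k4,k0,k4,k2,k2] [k2,k2,k0,k0,k2,k2,k0,k0,k1,k1,k1,k1] k0 [] k8 k5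
    [[(k6,k2)],[(k2,k2),(k3,k2),(k7,k2)],[(k0,k2),(k4,k2),(k5,k2)],[(k0,k2),(k4,k2),(k5,k2)],[(k2,k2),(k3,k2),(k7,
    k2)],[(k2,k2),(k3,k2),(k7,k2)],[(k0,k2),(k4,k2),(k5,k2)],[(k1,k2)],[(k10,k2)],[(k8,k2),(k11,k2)],[(k8,k2),(k11,
    k2)],[(k9,k2)]]
    [] k0
    [[k1,k0,k0,k1,k0,k0],[k0,k1,k1,k0,k0,k0],[k0,k0,k0,k0,k1,k1]]
    [.ref k4 k0 [(z1,[z1])],.ref k2 k0 [(z1,[y1,z1])],.ref k0 k0 [(z1,[y1,z1])]])]⟩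

/-- classes `0 0 0 1 2 1`, types `C0 C2 C0 N0 S0 N2` -/
noncomputable def cU6_652 : CertX :=
  ⟨[k4,k6,k4,k28,k32,k30],[(false,k0,[k0,k1,k2,k3,k4,k5])],[[[([z1,z0,z0,z1,z1,z1],z2)],[]]],
    [.old (.leafM k2 [k0,k3,k4,k5] [] [(k1,k2,z1,[y1,z1]),(k2,k1,z1,[y1,z1])]),
    .old (.lp [k2,k2,k2,k2,k2,k2] [k0,k0,k0,k0,k0,k0,k0,k0,k0,k0,k0,k0] k0 [] k8 k5
    [[(k9,k2)],[(k2,k2),(k3,k2),(k7,k2)],[(k0,k2),(k4,k2),(k5,k2)],[(k0,k2),(k4,k2),(k5,k2)],[(k2,k2),(k3,k2),(k7,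
    k2)],[(k2,k2),(k3,k2),(k7,k2)],[(k0,k2),(k4,k2),(k5,k2)],[(k10,k2)],[(k1,k2)],[(k8,k2),(k11,k2)],[(k8,k2),(k11,
    k2)],[(k6,k2)]]
    [] k0
    [[k0,k1,k1,k0,k0,k0]]
    [.ref k0 k0 [(z1,[y1,z1])]])]⟩

/-- classes `0 0 0 1 2 1`, types `C0 C2 C0 S0 C0 S0` -/
noncomputable def cU6_653 : CertX :=
  ⟨[k4,k6,k4,k16,k36,k16],[(false,k0,[k0,k1,k2,k3,k4,k5])],[[[([z1,z1,z1,z1,z0,z0],z2)],[([z1,z0,z0,z1,z1,z1],z2)],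
    [([z1,z0,z0,z1,z0,z0],z2),([z0,z1,z1,z0,z0,z0],z1)],[([z1,z0,z0,z1,z0,z0],z2)],[]]],
    [.old (.leafM k0 [k0,k1,k2,k3] [] [(k4,k5,z1,[y1,z1]),(k5,k4,z1,[y1,z1])]),
    .old (.leafM k0 [k0,k3,k4,k5] [] [(k1,k2,z1,[y1,z1]),(k2,k1,z1,[y1,z1])]),
    .old (.leafM k4 [k2,k4,k5,k1] [(z1,[y1,y1,z1])] [(k3,k0,z1,[z1]),(k0,k3,z1,[z1])]),
    .old (.lp [k10,k10,k0,k10,k4,k4] [k0,k0,k0,k0,k5,k5,k0,k0,k3,k3,k3,k3] k0 [] k20 k6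
    [[(k9,k7),(k10,k7),(k1,k10),(k6,k10)],[(k2,k10),(k3,k10),(k7,k10)],[(k4,k5),(k5,k5),(k0,k10)],[(k4,k5),(k5,k5),
    (k0,k10)],[(k2,k5),(k3,k5),(k7,k5)],[(k2,k5),(k3,k5),(k7,k5)],[(k4,k5),(k5,k5),(k0,k10)],[(k9,k7),(k10,k7),(k1,
    k10),(k6,k10)],[(k9,k4),(k10,k4),(k1,k7),(k6,k7)],[(k11,k4)],[(k8,k4)],[(k9,k4),(k10,k4),(k1,k7),(k6,k7)]]
    [] k0
    [[k0,k1,k1,k0,k0,k0],[k0,k0,k0,k0,k2,k2],[k0,k0,k0,k0,k1,k1]]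
    [.contra [y1,y1,z1],.ref k2 k0 [(z1,[z0,z1]),(z2,[y1,y2,z2])],.contra [y1,y1,z1]]),
    .old (.lp [k2,k4,k0,k4,k2,k2] [k1,k1,k0,k0,k2,k2,k0,k0,k1,k1,k1,k1] k0 [] k8 k5
    [[(k1,k2),(k9,k2),(k10,k2),(k6,k3)],[(k2,k3),(k3,k3),(k7,k3)],[(k4,k2),(k5,k2),(k0,k3)],[(k4,k2),(k5,k2),(k0,k3)],
    [(k2,k2),(k3,k2),(k7,k2)],[(k2,k2),(k3,k2),(k7,k2)],[(k4,k2),(k5,k2),(k0,k3)],[(k1,k3),(k9,k3),(k10,k3),(k6,k4)],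
    [(k1,k2),(k9,k2),(k10,k2),(k6,k3)],[(k11,k2)],[(k8,k2)],[(k1,k2),(k9,k2),(k10,k2),(k6,k3)]]
    [] k0
    [[k1,k0,k0,k1,k0,k0],[k0,k1,k1,k0,k0,k0],[k0,k0,k0,k0,k1,k1]]
    [.ref k3 k0 [(z1,[z1])],.ref k1 k0 [(z1,[y1,z1])],.ref k0 k0 [(z1,[y1,z1])]])]⟩

/-- classes `0 0 0 1 2 1`, types `C0 C2 C0 S0 S0 S0` -/
noncomputable def cU6_654 : CertX :=
  ⟨[k4,k6,k4,k16,k32,k16],[(false,k0,[k0,k1,k2,k3,k4,k5])],[[[([z1,z1,z1,z1,z0,z0],z2)],[([z1,z0,z0,z1,z1,z1],z2)],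
    [([z1,z0,z0,z1,z0,z0],z2),([z0,z1,z1,z0,z0,z0],z1)],[([z1,z0,z0,z1,z0,z0],z2)],[]]],
    [.old (.leafM k0 [k0,k1,k2,k3] [] [(k4,k5,z1,[y1,z1]),(k5,k4,z1,[y1,z1])]),
    .old (.leafM k0 [k0,k3,k4,k5] [] [(k1,k2,z1,[y1,z1]),(k2,k1,z1,[y1,z1])]),
    .old (.leafM k4 [k2,k4,k5,k1] [(z1,[y1,y1,z1])] [(k3,k0,z1,[z1]),(k0,k3,z1,[z1])]),
    .old (.lp [k122,k0,k96,k72,k60,k120] [k0,k0,k61,k61,k13,k13,k25,k25,k35,k27,k1,k1] k0 [[],[],[],[],[],[],[],[k0,k0,k0,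
    k0,k0,k0,k0,k0,k0,k0,k0,k46],[],[],[k0,k0,k0,k0,k0,k0,k46]] (nat_lit 240) k6
    [[(k9,k95),(k10,k121),(k1,k122),(k6,k143)],[(k2,k61),(k3,k61),(k7,k97)],[(k4,k48),(k5,k48),(k0,k61)],[(k4,k48),
    (k5,k48),(k0,k61)],[(k2,k48),(k3,k48),(k7,k84)],[(k2,k48),(k3,k48),(k7,k84)],[(k4,k84),(k5,k84),(k0,k97)],[(k9,
    k70),(k6,k72),(k10,k96),(k1,k143)],[(k10,k48),(k9,k68),(k6,k70),(k1,k95)],[(k8,k52),(k11,k86)],[(k8,k86),(k11,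
    k120)],[(k9,k48),(k6,k96),(k10,k120),(k1,k121)]]
    [] k0
    [[k0,k1,k1,k0,k0,k0],[k0,k2,k2,k0,k0,k0],[k0,k0,k0,k0,k2,k0],[k0,k0,k0,k0,k1,k1]]
    [.contra [y1,y1,z1],.ref k2 k0 [(z1,[z0,z1]),(z2,[z1])],.contra [z1],.contra [y1,y1,z1]]),
    .old (.lp [k4,k0,k4,k2,k2,k2] [k0,k0,k2,k2,k0,k0,k1,k1,k1,k1,k1,k1] k0 [] k8 k5
    [[(k6,k3),(k9,k3),(k10,k3),(k1,k4)],[(k2,k2),(k3,k2),(k7,k3)],[(k0,k2),(k4,k2),(k5,k2)],[(k0,k2),(k4,k2),(k5,k2)],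
    [(k2,k2),(k3,k2),(k7,k3)],[(k2,k2),(k3,k2),(k7,k3)],[(k0,k3),(k4,k3),(k5,k3)],[(k6,k2),(k9,k2),(k10,k2),(k1,k3)],
    [(k6,k2),(k9,k2),(k10,k2),(k1,k3)],[(k8,k2),(k11,k2)],[(k8,k2),(k11,k2)],[(k6,k2),(k9,k2),(k10,k2),(k1,k3)]]
    [] k0
    [[k1,k0,k0,k1,k0,k0],[k0,k1,k1,k0,k0,k0],[k0,k0,k0,k0,k2,k0],[k0,k0,k0,k0,k1,k1],[k0,k0,k0,k0,k0,k2]]
    [.ref k3 k0 [(z1,[z1])],.ref k1 k0 [(z1,[y1,z1])],.contra [z1],.ref k0 k0 [(z1,[y1,z1])],.contra [z1]])]⟩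

/-- classes `0 0 0 1 2 1`, types `S0 S0 S0 B0 C0 B1` -/
noncomputable def cU6_655 : CertX :=
  ⟨[k0,k0,k0,k24,k36,k25],[(false,k0,[k0,k1,k2,k3,k4,k5])],[[[([z1,z1,z1,z1,z0,z0],z2)],[([z1,z0,z0,z1,z1,z1],z2)],
    [([z1,z0,z0,z1,z0,z0],z2),([z0,z1,z1,z0,z0,z0],z1)],[([z1,z0,z0,z1,z0,z0],z2)],[]]],
    [.old (.leafM k0 [k0,k1,k2,k3] [] [(k4,k5,z1,[y1,z1]),(k5,k4,z1,[y1,z1])]),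
    .old (.leafM k2 [k0,k3,k4,k5] [] [(k1,k2,z1,[y1,z1]),(k2,k1,z1,[y1,z1])]),
    .old (.leafM k4 [k2,k4,k5,k1] [(z1,[y1,y1,z1])] [(k3,k0,z1,[z1]),(k0,k3,z1,[z1])]),
    .old (.lp [k38,k60,k60,k24,k10,k38] [k29,k29,k36,k0,k14,k22,k36,k36,k43,k43,k29,k29] k0 [[],[k0,k0,k0,k0,k0,k58],[],
    [],[k58]] k120 k6
    [[(k9,k24),(k6,k31)],[(k2,k31),(k0,k38),(k5,k45),(k4,k53),(k3,k67),(k7,k89)],[(k4,k24),(k2,k60),(k7,k60),(k0,k67),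
    (k5,k74),(k3,k96)],[(k2,k24),(k7,k24),(k0,k31),(k5,k38),(k4,k46),(k3,k60)],[(k2,k38),(k7,k38),(k0,k45),(k5,k52),
    (k4,k60),(k3,k74)],[(k3,k24),(k2,k46),(k7,k46),(k0,k53),(k5,k60),(k4,k68)],[(k2,k24),(k7,k24),(k5,k38),(k4,k46),
    (k3,k60),(k0,k89)],[(k1,k31),(k10,k31)],[(k1,k24),(k10,k24)],[(k11,k24)],[(k8,k24)],[(k9,k24),(k6,k31)]]
    [] k0
    [[k0,k1,k1,k0,k0,k0],[k0,k0,k0,k0,k1,k1],[k0,k0,k0,k0,k2,k2]]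
    [.contra [y1,y1,z1],.contra [y1,y1,z1],.ref k2 k0 [(z1,[z0,z1]),(z2,[y1,y2,z2])]]),
    .old (.lp [k10,k8,k8,k6,k2,k10] [k0,k0,k1,k1,k1,k1,k2,k2,k4,k4,k0,k0] k0 [] k24 k5
    [[(k9,k6),(k6,k8)],[(k7,k8),(k2,k9),(k3,k9),(k4,k9),(k5,k9),(k0,k10)],[(k7,k7),(k2,k8),(k3,k8),(k4,k8),(k5,k8),
    (k0,k9)],[(k7,k7),(k2,k8),(k3,k8),(k4,k8),(k5,k8),(k0,k9)],[(k7,k7),(k2,k8),(k3,k8),(k4,k8),(k5,k8),(k0,k9)],[(k7,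
    k7),(k2,k8),(k3,k8),(k4,k8),(k5,k8),(k0,k9)],[(k7,k6),(k2,k7),(k3,k7),(k4,k7),(k5,k7),(k0,k8)],[(k1,k8),(k10,k8)],
    [(k1,k6),(k10,k6)],[(k11,k6)],[(k8,k6)],[(k9,k6),(k6,k8)]]
    [] k0
    [[k1,k0,k0,k1,k0,k0],[k0,k2,k0,k0,k0,k0],[k0,k1,k1,k0,k0,k0],[k0,k0,k2,k0,k0,k0],[k0,k0,k0,k0,k1,k1]]
    [.ref k3 k0 [(z1,[z1])],.contra [z1],.ref k1 k0 [(z1,[y1,z1])],.contra [z1],.ref k0 k0 [(z1,[y1,z1])]])]⟩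

/-- classes `0 0 0 1 2 1`, types `S0 S0 S0 B0 S0 B1` -/
noncomputable def cU6_656 : CertX :=
  ⟨[k0,k0,k0,k24,k32,k25],[(false,k0,[k0,k1,k2,k3,k4,k5])],[[[([z1,z1,z1,z1,z0,z0],z2)],[([z1,z0,z0,z1,z1,z1],z2)],
    [([z1,z0,z0,z1,z0,z0],z2),([z0,z1,z1,z0,z0,z0],z1)],[([z1,z0,z0,z1,z0,z0],z2)],[]]],
    [.old (.leafM k0 [k0,k1,k2,k3] [] [(k4,k5,z1,[y1,z1]),(k5,k4,z1,[y1,z1])]),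
    .old (.leafM k2 [k0,k3,k4,k5] [] [(k1,k2,z1,[y1,z1]),(k2,k1,z1,[y1,z1])]),
    .old (.leafM k4 [k2,k4,k5,k1] [(z1,[y1,y1,z1])] [(k3,k0,z1,[z1]),(k0,k3,z1,[z1])]),
    .old (.lp [k36,k60,k50,k36,k24,k24] [k28,k28,k32,k0,k19,k23,k28,k28,k34,k34,k34,k34] k0 [[],[k0,k0,k0,k0,k6,k48],[k0,
    k0,k0,k0,k8],[k0,k0,k0,k0,k8],[k48],[k6,k0,k8,k8]] k120 k6
    [[(k9,k30),(k6,k36)],[(k2,k32),(k0,k36),(k5,k41),(k4,k51),(k3,k64),(k7,k84)],[(k4,k25),(k7,k58),(k2,k60),(k0,k64),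
    (k5,k69),(k3,k92)],[(k7,k24),(k2,k28),(k0,k32),(k5,k37),(k4,k49),(k3,k60)],[(k7,k33),(k2,k37),(k0,k41),(k5,k46),
    (k4,k58),(k3,k69)],[(k3,k25),(k7,k45),(k2,k49),(k0,k51),(k4,k54),(k5,k58)],[(k2,k24),(k5,k33),(k7,k36),(k4,k45),
    (k3,k58),(k0,k84)],[(k10,k30),(k1,k36)],[(k10,k24),(k1,k30)],[(k8,k24),(k11,k24)],[(k8,k24),(k11,k24)],[(k9,k24),
    (k6,k30)]]
    [] k0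
    [[k0,k1,k1,k0,k0,k0],[k0,k0,k2,k0,k0,k0],[k0,k0,k0,k0,k1,k1],[k0,k0,k0,k0,k2,k2]]
    [.contra [y1,y1,z1],.contra [z1],.contra [y1,y1,z1],.ref k2 k0 [(z1,[z0,z1]),(z2,[y1,y2,z2])]]),
    .old (.lp [k10,k8,k8,k6,k6,k6] [k0,k0,k1,k1,k1,k1,k2,k2,k2,k2,k2,k2] k0 [] k24 k5
    [[(k6,k8),(k9,k8)],[(k7,k8),(k2,k9),(k3,k9),(k4,k9),(k5,k9),(k0,k10)],[(k7,k7),(k2,k8),(k3,k8),(k4,k8),(k5,k8),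
    (k0,k9)],[(k7,k7),(k2,k8),(k3,k8),(k4,k8),(k5,k8),(k0,k9)],[(k7,k7),(k2,k8),(k3,k8),(k4,k8),(k5,k8),(k0,k9)],[(k7,
    k7),(k2,k8),(k3,k8),(k4,k8),(k5,k8),(k0,k9)],[(k7,k6),(k2,k7),(k3,k7),(k4,k7),(k5,k7),(k0,k8)],[(k10,k6),(k1,k8)],
    [(k10,k6),(k1,k8)],[(k8,k6),(k11,k6)],[(k8,k6),(k11,k6)],[(k6,k6),(k9,k6)]]
    [] k0
    [[k1,k0,k0,k1,k0,k0],[k0,k2,k0,k0,k0,k0],[k0,k1,k1,k0,k0,k0],[k0,k0,k2,k0,k0,k0],[k0,k0,k0,k0,k1,k1]]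
    [.ref k3 k0 [(z1,[z1])],.contra [z1],.ref k1 k0 [(z1,[y1,z1])],.contra [z1],.ref k0 k0 [(z1,[y1,z1])]])]⟩

/-- classes `0 0 0 1 2 1`, types `S0 S0 S0 C0 C0 C0` -/
noncomputable def cU6_657 : CertX :=
  ⟨[k0,k0,k0,k20,k36,k20],[(false,k0,[k0,k1,k2,k3,k4,k5])],[[[([z1,z1,z1,z1,z0,z0],z2)],[([z1,z0,z0,z1,z1,z1],z2)],
    [([z1,z0,z0,z1,z0,z0],z2),([z0,z1,z1,z0,z0,z0],z1)],[([z1,z0,z0,z1,z0,z0],z2)],[]]],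
    [.old (.leafM k0 [k0,k1,k2,k3] [] [(k4,k5,z1,[y1,z1]),(k5,k4,z1,[y1,z1])]),
    .old (.leafM k0 [k0,k3,k4,k5] [] [(k1,k2,z1,[y1,z1]),(k2,k1,z1,[y1,z1])]),
    .old (.leafM k4 [k2,k4,k5,k1] [(z1,[y1,y1,z1])] [(k3,k0,z1,[z1]),(k0,k3,z1,[z1])]),
    .old (.lp [k38,k60,k60,k24,k38,k10] [k29,k29,k36,k0,k14,k22,k36,k36,k29,k29,k43,k43] k0 [[],[k0,k0,k0,k0,k0,k58],[],
    [],[k58]] k120 k6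
    [[(k10,k24),(k6,k31)],[(k2,k31),(k0,k38),(k5,k45),(k4,k53),(k3,k67),(k7,k89)],[(k4,k24),(k2,k60),(k7,k60),(k0,
    k67),(k5,k74),(k3,k96)],[(k2,k24),(k7,k24),(k0,k31),(k5,k38),(k4,k46),(k3,k60)],[(k2,k38),(k7,k38),(k0,k45),(k5,
    k52),(k4,k60),(k3,k74)],[(k3,k24),(k2,k46),(k7,k46),(k0,k53),(k5,k60),(k4,k68)],[(k2,k24),(k7,k24),(k5,k38),(k4,
    k46),(k3,k60),(k0,k89)],[(k1,k31),(k9,k31)],[(k10,k24),(k6,k31)],[(k11,k24)],[(k8,k24)],[(k1,k24),(k9,k24)]]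
    [] k0
    [[k0,k1,k1,k0,k0,k0],[k0,k0,k0,k0,k1,k1],[k0,k0,k0,k0,k2,k2]]
    [.contra [y1,y1,z1],.contra [y1,y1,z1],.ref k2 k0 [(z1,[z0,z1]),(z2,[y1,y2,z2])]]),
    .old (.lp [k10,k8,k8,k6,k10,k2] [k0,k0,k1,k1,k1,k1,k2,k2,k0,k0,k4,k4] k0 [] k24 k5
    [[(k10,k6),(k6,k8)],[(k7,k8),(k2,k9),(k3,k9),(k4,k9),(k5,k9),(k0,k10)],[(k7,k7),(k2,k8),(k3,k8),(k4,k8),(k5,k8),
    (k0,k9)],[(k7,k7),(k2,k8),(k3,k8),(k4,k8),(k5,k8),(k0,k9)],[(k7,k7),(k2,k8),(k3,k8),(k4,k8),(k5,k8),(k0,k9)],[(k7,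
    k7),(k2,k8),(k3,k8),(k4,k8),(k5,k8),(k0,k9)],[(k7,k6),(k2,k7),(k3,k7),(k4,k7),(k5,k7),(k0,k8)],[(k1,k8),(k9,k8)],
    [(k10,k6),(k6,k8)],[(k11,k6)],[(k8,k6)],[(k1,k6),(k9,k6)]]
    [] k0
    [[k1,k0,k0,k1,k0,k0],[k0,k2,k0,k0,k0,k0],[k0,k1,k1,k0,k0,k0],[k0,k0,k2,k0,k0,k0],[k0,k0,k0,k0,k1,k1]]
    [.ref k3 k0 [(z1,[z1])],.contra [z1],.ref k1 k0 [(z1,[y1,z1])],.contra [z1],.ref k0 k0 [(z1,[y1,z1])]])]⟩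

/-- classes `0 0 0 1 2 1`, types `S0 S0 S0 C0 C0 C2` -/
noncomputable def cU6_658 : CertX :=
  ⟨[k0,k0,k0,k20,k36,k22],[(false,k0,[k0,k1,k2,k3,k4,k5])],[[[([z1,z0,z0,z1,z1,z1],z2)],[]]],
    [.old (.leafM k0 [k0,k3,k4,k5] [] [(k1,k2,z1,[y1,z1]),(k2,k1,z1,[y1,z1])]),
    .old (.lp [k6,k12,k8,k6,k6,k6] [k3,k3,k0,k0,k2,k2,k3,k3,k3,k3,k3,k3] k0 [] k24 k5
    [[(k9,k6),(k10,k6)],[(k0,k6),(k7,k6),(k4,k7),(k5,k7),(k2,k9),(k3,k9)],[(k0,k9),(k7,k9),(k4,k10),(k5,k10),(k2,k12),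
    (k3,k12)],[(k0,k9),(k7,k9),(k4,k10),(k5,k10),(k2,k12),(k3,k12)],[(k0,k7),(k7,k7),(k4,k8),(k5,k8),(k2,k10),(k3,
    k10)],[(k0,k7),(k7,k7),(k4,k8),(k5,k8),(k2,k10),(k3,k10)],[(k0,k6),(k7,k6),(k4,k7),(k5,k7),(k2,k9),(k3,k9)],[(k9,
    k6),(k10,k6)],[(k1,k6),(k6,k6)],[(k11,k6)],[(k8,k6)],[(k1,k6),(k6,k6)]]
    [] k0
    [[k0,k1,k1,k0,k0,k0],[k0,k0,k2,k0,k0,k0]]
    [.ref k0 k0 [(z1,[y1,z1])],.contra [z1]])]⟩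

/-- classes `0 0 0 1 2 1`, types `S0 S0 S0 C0 S0 C0` -/
noncomputable def cU6_659 : CertX :=
  ⟨[k0,k0,k0,k20,k32,k20],[(false,k0,[k0,k1,k2,k3,k4,k5])],[[[([z1,z1,z1,z1,z0,z0],z2)],[([z1,z0,z0,z1,z1,z1],z2)],
    [([z1,z0,z0,z1,z0,z0],z2),([z0,z1,z1,z0,z0,z0],z1)],[([z1,z0,z0,z1,z0,z0],z2)],[]]],
    [.old (.leafM k0 [k0,k1,k2,k3] [] [(k4,k5,z1,[y1,z1]),(k5,k4,z1,[y1,z1])]),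
    .old (.leafM k0 [k0,k3,k4,k5] [] [(k1,k2,z1,[y1,z1]),(k2,k1,z1,[y1,z1])]),
    .old (.leafM k4 [k2,k4,k5,k1] [(z1,[y1,y1,z1])] [(k3,k0,z1,[z1]),(k0,k3,z1,[z1])]),
    .old (.lp [k18,k25,k30,k18,k12,k12] [k9,k9,k11,k0,k0,k6,k9,k9,k12,k12,k12,k12] k0 [[k0,k0,k4,k4,k0,k3],[k0,k0,k0,k0,
    k0,k24],[k0,k4],[k0,k4],[k24,k3]] k60 k6
    [[(k10,k15),(k6,k18)],[(k2,k12),(k5,k17),(k0,k18),(k4,k24),(k3,k27),(k7,k42)],[(k4,k12),(k0,k27),(k2,k29),(k7,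
    k30),(k5,k34),(k3,k36)],[(k0,k12),(k2,k14),(k7,k16),(k5,k19),(k4,k25),(k3,k29)],[(k0,k17),(k2,k19),(k7,k21),(k5,
    k24),(k4,k30),(k3,k34)],[(k3,k12),(k0,k24),(k2,k25),(k7,k27),(k5,k30),(k4,k36)],[(k2,k16),(k7,k18),(k5,k21),(k4,
    k27),(k3,k30),(k0,k42)],[(k9,k15),(k1,k18)],[(k10,k12),(k6,k15)],[(k8,k12),(k11,k12)],[(k8,k12),(k11,k12)],[(k9,
    k12),(k1,k15)]]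
    [] k0
    [[k0,k2,k0,k0,k0,k0],[k0,k1,k1,k0,k0,k0],[k0,k0,k0,k0,k1,k1],[k0,k0,k0,k0,k2,k2]]
    [.contra [z1],.contra [y1,y1,z1],.contra [y1,y1,z1],.ref k2 k0 [(z1,[z0,z1]),(z2,[y1,y2,z2])]]),
    .old (.lp [k10,k8,k8,k6,k6,k6] [k0,k0,k1,k1,k1,k1,k2,k2,k2,k2,k2,k2] k0 [] k24 k5
    [[(k6,k8),(k10,k8)],[(k7,k8),(k2,k9),(k3,k9),(k4,k9),(k5,k9),(k0,k10)],[(k7,k7),(k2,k8),(k3,k8),(k4,k8),(k5,k8),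
    (k0,k9)],[(k7,k7),(k2,k8),(k3,k8),(k4,k8),(k5,k8),(k0,k9)],[(k7,k7),(k2,k8),(k3,k8),(k4,k8),(k5,k8),(k0,k9)],[(k7,
    k7),(k2,k8),(k3,k8),(k4,k8),(k5,k8),(k0,k9)],[(k7,k6),(k2,k7),(k3,k7),(k4,k7),(k5,k7),(k0,k8)],[(k9,k6),(k1,k8)],
    [(k6,k6),(k10,k6)],[(k8,k6),(k11,k6)],[(k8,k6),(k11,k6)],[(k9,k6),(k1,k8)]]
    [] k0
    [[k1,k0,k0,k1,k0,k0],[k0,k2,k0,k0,k0,k0],[k0,k1,k1,k0,k0,k0],[k0,k0,k2,k0,k0,k0],[k0,k0,k0,k0,k1,k1]]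
    [.ref k3 k0 [(z1,[z1])],.contra [z1],.ref k1 k0 [(z1,[y1,z1])],.contra [z1],.ref k0 k0 [(z1,[y1,z1])]])]⟩

/-- classes `0 0 0 1 2 1`, types `S0 S0 S0 C0 S0 C2` -/
noncomputable def cU6_660 : CertX :=
  ⟨[k0,k0,k0,k20,k32,k22],[(false,k0,[k0,k1,k2,k3,k4,k5])],[[[([z1,z0,z0,z1,z1,z1],z2)],[]]],
    [.old (.leafM k0 [k0,k3,k4,k5] [] [(k1,k2,z1,[y1,z1]),(k2,k1,z1,[y1,z1])]),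
    .old (.lp [k6,k8,k12,k6,k6,k6] [k3,k3,k2,k2,k0,k0,k3,k3,k3,k3,k3,k3] k0 [] k24 k5
    [[(k9,k6),(k10,k6)],[(k0,k6),(k7,k6),(k2,k7),(k3,k7),(k4,k9),(k5,k9)],[(k0,k7),(k7,k7),(k2,k8),(k3,k8),(k4,k10),
    (k5,k10)],[(k0,k7),(k7,k7),(k2,k8),(k3,k8),(k4,k10),(k5,k10)],[(k0,k9),(k7,k9),(k2,k10),(k3,k10),(k4,k12),(k5,
    k12)],[(k0,k9),(k7,k9),(k2,k10),(k3,k10),(k4,k12),(k5,k12)],[(k0,k6),(k7,k6),(k2,k7),(k3,k7),(k4,k9),(k5,k9)],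
    [(k9,k6),(k10,k6)],[(k1,k6),(k6,k6)],[(k8,k6),(k11,k6)],[(k8,k6),(k11,k6)],[(k1,k6),(k6,k6)]]
    [] k0
    [[k0,k2,k0,k0,k0,k0],[k0,k1,k1,k0,k0,k0]]
    [.contra [z1],.ref k0 k0 [(z1,[y1,z1])]])]⟩

/-- classes `0 0 0 1 2 1`, types `S0 S0 S0 N0 C0 N1` -/
noncomputable def cU6_661 : CertX :=
  ⟨[k0,k0,k0,k28,k36,k29],[(false,k0,[k0,k1,k2,k3,k4,k5])],[[[([z1,z1,z1,z1,z0,z0],z2)],[([z1,z0,z0,z1,z0,z0],z1),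
    ([z0,z1,z1,z0,z0,z0],z2)],[([z1,z0,z0,z1,z1,z1],z2)],[([z1,z0,z0,z1,z0,z0],z2),([z0,z1,z1,z0,z0,z0],z1)],[([z1,z0,
    z0,z1,z0,z0],z2)],[]]],
    [.old (.leafM k0 [k0,k1,k2,k3] [] [(k4,k5,z1,[y1,z1]),(k5,k4,z1,[y1,z1])]),
    .old (.leafM k4 [k3,k4,k5,k0] [(z1,[y1,y1,z1])] [(k1,k2,z1,[z0,z1]),(k2,k1,z1,[z0,z1])]),
    .old (.lp [k4,k10,k10,k6,k8,k0] [k3,k3,k0,k0,k0,k0,k2,k2,k1,k1,k5,k5] k0 [] k20 k6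
    [[(k6,k5)],[(k0,k4),(k7,k5),(k2,k7),(k3,k7),(k4,k7),(k5,k7)],[(k0,k7),(k7,k8),(k2,k10),(k3,k10),(k4,k10),(k5,
    k10)],[(k0,k7),(k7,k8),(k2,k10),(k3,k10),(k4,k10),(k5,k10)],[(k0,k7),(k7,k8),(k2,k10),(k3,k10),(k4,k10),(k5,k10)],
    [(k0,k7),(k7,k8),(k2,k10),(k3,k10),(k4,k10),(k5,k10)],[(k0,k5),(k7,k6),(k2,k8),(k3,k8),(k4,k8),(k5,k8)],[(k1,k5)],
    [(k10,k4)],[(k11,k4)],[(k8,k4)],[(k9,k4)]]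
    [] k0
    [[k1,k0,k0,k1,k0,k0],[k0,k0,k0,k0,k1,k1],[k0,k0,k0,k0,k2,k2]]
    [.contra [y1,z1],.contra [y1,z1],.ref k1 k0 [(z2,[y1,z2]),(z1,[z0,y1,z1])]]),
    .old (.leafM k4 [k2,k4,k5,k1] [(z1,[y1,y1,z1])] [(k3,k0,z1,[z1]),(k0,k3,z1,[z1])]),
    .old (.lp [k24,k60,k60,k38,k48,k0] [k36,k36,k36,k0,k14,k22,k29,k29,k24,k24,k48,k48] k0 [[],[k0,k0,k0,k0,k0,k58],[],[],
    [k58]] k120 k6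
    [[(k6,k31)],[(k0,k24),(k2,k24),(k5,k38),(k4,k46),(k3,k60),(k7,k89)],[(k4,k24),(k0,k60),(k2,k60),(k7,k67),(k5,k74),
    (k3,k96)],[(k0,k24),(k2,k24),(k7,k31),(k5,k38),(k4,k46),(k3,k60)],[(k0,k38),(k2,k38),(k7,k45),(k5,k52),(k4,k60),
    (k3,k74)],[(k3,k24),(k0,k46),(k2,k46),(k7,k53),(k5,k60),(k4,k68)],[(k2,k31),(k7,k38),(k5,k45),(k4,k53),(k3,k67),
    (k0,k89)],[(k1,k31)],[(k10,k24)],[(k11,k24)],[(k8,k24)],[(k9,k24)]]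
    [] k0
    [[k0,k1,k1,k0,k0,k0],[k0,k0,k0,k0,k1,k1],[k0,k0,k0,k0,k2,k2]]
    [.contra [y1,y1,z1],.contra [y1,y1,z1],.ref k3 k0 [(z1,[z0,z1]),(z2,[y1,y2,z2])]]),
    .old (.lp [k6,k8,k8,k10,k12,k0] [k3,k3,k2,k2,k2,k2,k1,k1,k0,k0,k6,k6] k0 [] k24 k5
    [[(k6,k8)],[(k0,k6),(k2,k7),(k3,k7),(k4,k7),(k5,k7),(k7,k8)],[(k0,k7),(k2,k8),(k3,k8),(k4,k8),(k5,k8),(k7,k9)],
    [(k0,k7),(k2,k8),(k3,k8),(k4,k8),(k5,k8),(k7,k9)],[(k0,k7),(k2,k8),(k3,k8),(k4,k8),(k5,k8),(k7,k9)],[(k0,k7),(k2,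
    k8),(k3,k8),(k4,k8),(k5,k8),(k7,k9)],[(k0,k8),(k2,k9),(k3,k9),(k4,k9),(k5,k9),(k7,k10)],[(k1,k8)],[(k10,k6)],
    [(k11,k6)],[(k8,k6)],[(k9,k6)]]
    [] k0
    [[k1,k0,k0,k1,k0,k0],[k0,k2,k0,k0,k0,k0],[k0,k1,k1,k0,k0,k0],[k0,k0,k2,k0,k0,k0],[k0,k0,k0,k0,k1,k1]]
    [.ref k4 k0 [(z1,[z1])],.contra [z1],.ref k2 k0 [(z1,[y1,z1])],.contra [z1],.ref k0 k0 [(z1,[y1,z1])]])]⟩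

/-- classes `0 0 0 1 2 1`, types `S0 S0 S0 N0 C0 N2` -/
noncomputable def cU6_662 : CertX :=
  ⟨[k0,k0,k0,k28,k36,k30],[(false,k0,[k0,k1,k2,k3,k4,k5])],[[[([z1,z0,z0,z1,z1,z1],z2)],[]]],
    [.old (.leafM k2 [k0,k3,k4,k5] [] [(k1,k2,z1,[y1,z1]),(k2,k1,z1,[y1,z1])]),
    .old (.lp [k6,k12,k8,k6,k6,k6] [k3,k3,k0,k0,k2,k2,k3,k3,k3,k3,k3,k3] k0 [] k24 k5
    [[(k9,k6)],[(k0,k6),(k7,k6),(k4,k7),(k5,k7),(k2,k9),(k3,k9)],[(k0,k9),(k7,k9),(k4,k10),(k5,k10),(k2,k12),(k3,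
    k12)],[(k0,k9),(k7,k9),(k4,k10),(k5,k10),(k2,k12),(k3,k12)],[(k0,k7),(k7,k7),(k4,k8),(k5,k8),(k2,k10),(k3,k10)],
    [(k0,k7),(k7,k7),(k4,k8),(k5,k8),(k2,k10),(k3,k10)],[(k0,k6),(k7,k6),(k4,k7),(k5,k7),(k2,k9),(k3,k9)],[(k10,k6)],
    [(k1,k6)],[(k11,k6)],[(k8,k6)],[(k6,k6)]]
    [] k0
    [[k0,k1,k1,k0,k0,k0],[k0,k0,k2,k0,k0,k0]]
    [.ref k0 k0 [(z1,[y1,z1])],.contra [z1]])]⟩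

/-- classes `0 0 0 1 2 1`, types `S0 S0 S0 N0 S0 N1` -/
noncomputable def cU6_663 : CertX :=
  ⟨[k0,k0,k0,k28,k32,k29],[(false,k0,[k0,k1,k2,k3,k4,k5])],[[[([z1,z1,z1,z1,z0,z0],z2)],[([z1,z0,z0,z1,z0,z0],z1),
    ([z0,z1,z1,z0,z0,z0],z2)],[([z1,z0,z0,z1,z1,z1],z2)],[([z1,z0,z0,z1,z0,z0],z2),([z0,z1,z1,z0,z0,z0],z1)],[([z1,z0,
    z0,z1,z0,z0],z2)],[]]],
    [.old (.leafM k0 [k0,k1,k2,k3] [] [(k4,k5,z1,[y1,z1]),(k5,k4,z1,[y1,z1])]),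
    .old (.leafM k4 [k3,k4,k5,k0] [(z1,[y1,y1,z1])] [(k1,k2,z1,[z0,z1]),(k2,k1,z1,[z0,z1])]),
    .old (.lp [k6,k10,k10,k4,k4,k4] [k2,k2,k0,k0,k0,k0,k3,k3,k3,k3,k3,k3] k0 [] k20 k6
    [[(k6,k5)],[(k7,k5),(k0,k6),(k2,k8),(k3,k8),(k4,k8),(k5,k8)],[(k7,k7),(k0,k8),(k2,k10),(k3,k10),(k4,k10),(k5,
    k10)],[(k7,k7),(k0,k8),(k2,k10),(k3,k10),(k4,k10),(k5,k10)],[(k7,k7),(k0,k8),(k2,k10),(k3,k10),(k4,k10),(k5,k10)],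
    [(k7,k7),(k0,k8),(k2,k10),(k3,k10),(k4,k10),(k5,k10)],[(k7,k4),(k0,k5),(k2,k7),(k3,k7),(k4,k7),(k5,k7)],[(k1,k5)],
    [(k10,k4)],[(k8,k4),(k11,k4)],[(k8,k4),(k11,k4)],[(k9,k4)]]
    [] k0
    [[k1,k0,k0,k1,k0,k0],[k0,k0,k0,k0,k1,k1],[k0,k0,k0,k0,k2,k2]]
    [.contra [y1,z1],.contra [y1,z1],.ref k1 k0 [(z2,[y1,z2]),(z1,[z0,y1,z1])]]),
    .old (.leafM k4 [k2,k4,k5,k1] [(z1,[y1,y1,z1])] [(k3,k0,z1,[z1]),(k0,k3,z1,[z1])]),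
    .old (.lp [k38,k60,k60,k24,k24,k24] [k29,k29,k36,k0,k14,k22,k36,k36,k36,k36,k36,k36] k0 [[],[k0,k0,k0,k0,k0,k58],[],
    [],[k58]] k120 k6
    [[(k6,k31)],[(k2,k31),(k0,k38),(k5,k45),(k4,k53),(k3,k67),(k7,k89)],[(k4,k24),(k2,k60),(k7,k60),(k0,k67),(k5,k74),
    (k3,k96)],[(k2,k24),(k7,k24),(k0,k31),(k5,k38),(k4,k46),(k3,k60)],[(k2,k38),(k7,k38),(k0,k45),(k5,k52),(k4,k60),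
    (k3,k74)],[(k3,k24),(k2,k46),(k7,k46),(k0,k53),(k5,k60),(k4,k68)],[(k2,k24),(k7,k24),(k5,k38),(k4,k46),(k3,k60),
    (k0,k89)],[(k1,k31)],[(k10,k24)],[(k8,k24),(k11,k24)],[(k8,k24),(k11,k24)],[(k9,k24)]]
    [] k0
    [[k0,k1,k1,k0,k0,k0],[k0,k0,k0,k0,k1,k1],[k0,k0,k0,k0,k2,k2]]
    [.contra [y1,y1,z1],.contra [y1,y1,z1],.ref k3 k0 [(z1,[z0,z1]),(z2,[y1,y2,z2])]]),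
    .old (.lp [k10,k8,k8,k6,k6,k6] [k0,k0,k1,k1,k1,k1,k2,k2,k2,k2,k2,k2] k0 [] k24 k5
    [[(k6,k8)],[(k7,k8),(k2,k9),(k3,k9),(k4,k9),(k5,k9),(k0,k10)],[(k7,k7),(k2,k8),(k3,k8),(k4,k8),(k5,k8),(k0,k9)],
    [(k7,k7),(k2,k8),(k3,k8),(k4,k8),(k5,k8),(k0,k9)],[(k7,k7),(k2,k8),(k3,k8),(k4,k8),(k5,k8),(k0,k9)],[(k7,k7),(k2,
    k8),(k3,k8),(k4,k8),(k5,k8),(k0,k9)],[(k7,k6),(k2,k7),(k3,k7),(k4,k7),(k5,k7),(k0,k8)],[(k1,k8)],[(k10,k6)],[(k8,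
    k6),(k11,k6)],[(k8,k6),(k11,k6)],[(k9,k6)]]
    [] k0
    [[k1,k0,k0,k1,k0,k0],[k0,k2,k0,k0,k0,k0],[k0,k1,k1,k0,k0,k0],[k0,k0,k2,k0,k0,k0],[k0,k0,k0,k0,k1,k1]]
    [.ref k4 k0 [(z1,[z1])],.contra [z1],.ref k2 k0 [(z1,[y1,z1])],.contra [z1],.ref k0 k0 [(z1,[y1,z1])]])]⟩

/-- classes `0 0 0 1 2 1`, types `S0 S0 S0 N0 S0 N2` -/
noncomputable def cU6_664 : CertX :=
  ⟨[k0,k0,k0,k28,k32,k30],[(false,k0,[k0,k1,k2,k3,k4,k5])],[[[([z1,z0,z0,z1,z1,z1],z2)],[]]],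
    [.old (.leafM k2 [k0,k3,k4,k5] [] [(k1,k2,z1,[y1,z1]),(k2,k1,z1,[y1,z1])]),
    .old (.lp [k6,k8,k12,k6,k6,k6] [k3,k3,k2,k2,k0,k0,k3,k3,k3,k3,k3,k3] k0 [] k24 k5
    [[(k9,k6)],[(k0,k6),(k7,k6),(k2,k7),(k3,k7),(k4,k9),(k5,k9)],[(k0,k7),(k7,k7),(k2,k8),(k3,k8),(k4,k10),(k5,k10)],
    [(k0,k7),(k7,k7),(k2,k8),(k3,k8),(k4,k10),(k5,k10)],[(k0,k9),(k7,k9),(k2,k10),(k3,k10),(k4,k12),(k5,k12)],[(k0,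
    k9),(k7,k9),(k2,k10),(k3,k10),(k4,k12),(k5,k12)],[(k0,k6),(k7,k6),(k2,k7),(k3,k7),(k4,k9),(k5,k9)],[(k10,k6)],
    [(k1,k6)],[(k8,k6),(k11,k6)],[(k8,k6),(k11,k6)],[(k6,k6)]]
    [] k0
    [[k0,k2,k0,k0,k0,k0],[k0,k1,k1,k0,k0,k0]]
    [.contra [z1],.ref k0 k0 [(z1,[y1,z1])]])]⟩

/-- classes `0 0 0 1 2 1`, types `S0 S0 S0 S0 C0 S0` -/
noncomputable def cU6_665 : CertX :=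
  ⟨[k0,k0,k0,k16,k36,k16],[(false,k0,[k0,k1,k2,k3,k4,k5])],[[[([z1,z1,z1,z1,z0,z0],z2)],[([z1,z0,z0,z1,z1,z1],z2)],
    [([z1,z0,z0,z1,z0,z0],z2),([z0,z1,z1,z0,z0,z0],z1)],[([z1,z0,z0,z1,z0,z0],z2)],[]]],
    [.old (.leafM k0 [k0,k1,k2,k3] [] [(k4,k5,z1,[y1,z1]),(k5,k4,z1,[y1,z1])]),
    .old (.leafM k0 [k0,k3,k4,k5] [] [(k1,k2,z1,[y1,z1]),(k2,k1,z1,[y1,z1])]),
    .old (.leafM k4 [k2,k4,k5,k1] [(z1,[y1,y1,z1])] [(k3,k0,z1,[z1]),(k0,k3,z1,[z1])]),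
    .old (.lp [(nat_lit 43089442),(nat_lit 83398920),(nat_lit 50764560),(nat_lit 75817200),(nat_lit 33359568),
    (nat_lit 33359568)] [(nat_lit 34393579),(nat_lit 34393579),(nat_lit 28477680),k0,(nat_lit 30556020),
    (nat_lit 30556020),(nat_lit 18029700),(nat_lit 18029700),(nat_lit 39258516),(nat_lit 39258516),(nat_lit 39258516),
    (nat_lit 39258516)] k0 [[],[k0,k0,k0,k0,(nat_lit 29874240),(nat_lit 47954379)],[k0,k0,k0,k0,(nat_lit 29874240)],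
    [k0,k0,k0,k0,(nat_lit 29874240)],[(nat_lit 47954379),k0,k0,k0,k0,(nat_lit 15289802)],[(nat_lit 29874240),k0,
    (nat_lit 29874240),(nat_lit 29874240)],[k0,k0,k0,k0,k0,k0,k0,k0,k0,k0,k0,(nat_lit 13899820)],[],[],[],[k0,k0,k0,
    k0,k0,k0,k0,(nat_lit 13899820)]] (nat_lit 166797840) k6
    [[(k10,(nat_lit 38224505)),(k1,(nat_lit 43089442)),(k9,(nat_lit 52124325)),(k6,(nat_lit 59453321))],[(k0,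
    (nat_lit 43089442)),(k5,(nat_lit 46927001)),(k2,(nat_lit 49005341)),(k4,(nat_lit 76801241)),(k3,
    (nat_lit 77483021)),(k7,(nat_lit 107407700))],[(k4,(nat_lit 33366201)),(k7,(nat_lit 63972660)),(k0,
    (nat_lit 77483021)),(k5,(nat_lit 81320580)),(k2,(nat_lit 83398920)),(k3,(nat_lit 111876600))],[(k7,
    (nat_lit 35494980)),(k0,(nat_lit 49005341)),(k5,(nat_lit 52842900)),(k2,(nat_lit 54921240)),(k4,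
    (nat_lit 82717140)),(k3,(nat_lit 83398920))],[(k7,(nat_lit 33416640)),(k0,(nat_lit 46927001)),(k5,
    (nat_lit 50764560)),(k2,(nat_lit 52842900)),(k4,(nat_lit 80638800)),(k3,(nat_lit 81320580))],[(k3,
    (nat_lit 33366201)),(k4,(nat_lit 35474758)),(k7,(nat_lit 63290880)),(k0,(nat_lit 76801241)),(k5,
    (nat_lit 80638800)),(k2,(nat_lit 82717140))],[(k5,(nat_lit 33416640)),(k2,(nat_lit 35494980)),(k4,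
    (nat_lit 63290880)),(k3,(nat_lit 63972660)),(k7,(nat_lit 91107002)),(k0,(nat_lit 107407700))],[(k10,
    (nat_lit 40688564)),(k9,(nat_lit 54588384)),(k1,(nat_lit 59453321)),(k6,(nat_lit 75817200))],[(k9,
    (nat_lit 33359568)),(k10,(nat_lit 33359568)),(k1,(nat_lit 52124325)),(k6,(nat_lit 54588384))],[(k11,
    (nat_lit 33359568))],[(k8,(nat_lit 33359568))],[(k9,(nat_lit 33359568)),(k10,(nat_lit 33359568)),(k1,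
    (nat_lit 38224505)),(k6,(nat_lit 40688564))]]
    [] k0
    [[k2,k0,k0,k0,k0,k0],[k0,k1,k1,k0,k0,k0],[k0,k0,k2,k0,k0,k0],[k0,k0,k0,k0,k2,k2],[k0,k0,k0,k0,k1,k1]]
    [.contra [z1],.contra [y1,y1,z1],.contra [z1],.ref k2 k0 [(z1,[z0,z1]),(z2,[y1,y2,z2])],.contra [y1,y1,z1]]),
    .old (.lp [k8,k8,k8,k8,k6,k6] [k0,k0,k0,k0,k0,k0,k0,k0,k1,k1,k1,k1] k0 [] k24 k5
    [[(k9,k7),(k10,k7),(k1,k8),(k6,k8)],[(k0,k8),(k2,k8),(k3,k8),(k4,k8),(k5,k8),(k7,k8)],[(k0,k8),(k2,k8),(k3,k8),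
    (k4,k8),(k5,k8),(k7,k8)],[(k0,k8),(k2,k8),(k3,k8),(k4,k8),(k5,k8),(k7,k8)],[(k0,k8),(k2,k8),(k3,k8),(k4,k8),(k5,
    k8),(k7,k8)],[(k0,k8),(k2,k8),(k3,k8),(k4,k8),(k5,k8),(k7,k8)],[(k0,k8),(k2,k8),(k3,k8),(k4,k8),(k5,k8),(k7,k8)],
    [(k9,k7),(k10,k7),(k1,k8),(k6,k8)],[(k9,k6),(k10,k6),(k1,k7),(k6,k7)],[(k11,k6)],[(k8,k6)],[(k9,k6),(k10,k6),(k1,
    k7),(k6,k7)]]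
    [] k0
    [[k2,k0,k0,k0,k0,k0],[k1,k0,k0,k1,k0,k0],[k0,k2,k0,k0,k0,k0],[k0,k1,k1,k0,k0,k0],[k0,k0,k2,k0,k0,k0],[k0,k0,k0,k2,
    k0,k0],[k0,k0,k0,k0,k1,k1]]
    [.contra [z1],.ref k3 k0 [(z1,[z1])],.contra [z1],.ref k1 k0 [(z1,[y1,z1])],.contra [z1],.contra [z1],
    .ref k0 k0 [(z1,[y1,z1])]])]⟩

/-- classes `0 0 0 1 2 3`, types `C0 C0 C0 C0 C0 C0` -/
noncomputable def cU6_666 : CertX :=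
  ⟨[k4,k4,k4,k20,k36,k52],[(false,k0,[k0,k1,k2,k3,k4,k5])],[[[([z1,z0,z0,z1,z1,z1],z2)],[]]],
    [.old (.leafM k0 [k0,k3,k4,k5] [] [(k1,k2,z1,[y1,z1]),(k2,k1,z1,[y1,z1])]),
    .old (.lp [k4,k4,k6,k2,k4,k2] [k1,k1,k1,k1,k0,k0,k2,k2,k1,k1,k2,k2] k0 [[k0,k0,k2],[],[],[k0,k2]] k12 k5
    [[(k10,k3)],[(k5,k3),(k7,k3),(k3,k4)],[(k0,k4),(k4,k5),(k2,k6)],[(k7,k3),(k5,k5),(k3,k6)],[(k0,k3),(k2,k5),(k4,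
    k6)],[(k7,k4),(k3,k5),(k5,k6)],[(k0,k3),(k2,k3),(k4,k4)],[(k9,k3)],[(k6,k3)],[(k11,k3)],[(k8,k3)],[(k1,k3)]]
    [] k0
    [[k0,k1,k1,k0,k0,k0]]
    [.ref k0 k0 [(z1,[y1,z1])]])]⟩

/-- classes `0 0 0 1 2 3`, types `C0 C0 C0 C0 C0 S0` -/
noncomputable def cU6_667 : CertX :=
  ⟨[k4,k4,k4,k20,k36,k48],[(false,k0,[k0,k1,k2,k3,k4,k5])],[[[([z1,z0,z0,z1,z1,z1],z2)],[]]],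
    [.old (.leafM k0 [k0,k3,k4,k5] [] [(k1,k2,z1,[y1,z1]),(k2,k1,z1,[y1,z1])]),
    .old (.lp [k6,k10,k10,k6,k6,k6] [k2,k2,k0,k0,k0,k0,k2,k2,k2,k2,k2,k2] k0 [[k0,k0,k2],[],[k0,k0,k0,k0,k2],[k0,k2],[],
    [k0,k0,k0,k2]] k24 k5
    [[(k1,k6),(k10,k6)],[(k5,k6),(k7,k6),(k3,k8)],[(k0,k8),(k4,k10),(k2,k12)],[(k7,k6),(k5,k10),(k3,k12)],[(k0,k6),
    (k2,k10),(k4,k12)],[(k7,k8),(k3,k10),(k5,k12)],[(k0,k6),(k2,k6),(k4,k8)],[(k9,k6)],[(k6,k6)],[(k11,k6)],[(k8,k6)],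
    [(k1,k6),(k10,k6)]]
    [] k0
    [[k0,k1,k1,k0,k0,k0]]
    [.ref k0 k0 [(z1,[y1,z1])]])]⟩

/-- classes `0 0 0 1 2 3`, types `C0 C0 C0 C0 S0 C0` -/
noncomputable def cU6_668 : CertX :=
  ⟨[k4,k4,k4,k20,k32,k52],[(false,k0,[k0,k1,k2,k3,k4,k5])],[[[([z1,z0,z0,z1,z1,z1],z2)],[]]],
    [.old (.leafM k0 [k0,k3,k4,k5] [] [(k1,k2,z1,[y1,z1]),(k2,k1,z1,[y1,z1])]),
    .old (.lp [k6,k10,k10,k6,k6,k6] [k2,k2,k0,k0,k0,k0,k2,k2,k2,k2,k2,k2] k0 [[k0,k0,k2],[],[k0,k0,k0,k0,k2],[k0,k2],[],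
    [k0,k0,k0,k2]] k24 k5
    [[(k10,k6)],[(k5,k6),(k7,k6),(k3,k8)],[(k0,k8),(k4,k10),(k2,k12)],[(k7,k6),(k5,k10),(k3,k12)],[(k0,k6),(k2,k10),
    (k4,k12)],[(k7,k8),(k3,k10),(k5,k12)],[(k0,k6),(k2,k6),(k4,k8)],[(k9,k6)],[(k6,k6)],[(k8,k6),(k11,k6)],[(k8,k6),
    (k11,k6)],[(k1,k6)]]
    [] k0
    [[k0,k1,k1,k0,k0,k0]]
    [.ref k0 k0 [(z1,[y1,z1])]])]⟩

/-- classes `0 0 0 1 2 3`, types `C0 C0 C0 C0 S0 S0` -/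
noncomputable def cU6_669 : CertX :=
  ⟨[k4,k4,k4,k20,k32,k48],[(false,k0,[k0,k1,k2,k3,k4,k5])],[[[([z1,z0,z0,z1,z1,z1],z2)],[]]],
    [.old (.leafM k0 [k0,k3,k4,k5] [] [(k1,k2,z1,[y1,z1]),(k2,k1,z1,[y1,z1])]),
    .old (.lp [k6,k10,k10,k6,k6,k6] [k2,k2,k0,k0,k0,k0,k2,k2,k2,k2,k2,k2] k0 [[k0,k0,k2],[],[k0,k0,k0,k0,k2],[k0,k2],[],
    [k0,k0,k0,k2]] k24 k5
    [[(k1,k6),(k10,k6)],[(k5,k6),(k7,k6),(k3,k8)],[(k0,k8),(k4,k10),(k2,k12)],[(k7,k6),(k5,k10),(k3,k12)],[(k0,k6),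
    (k2,k10),(k4,k12)],[(k7,k8),(k3,k10),(k5,k12)],[(k0,k6),(k2,k6),(k4,k8)],[(k9,k6)],[(k6,k6)],[(k8,k6),(k11,k6)],
    [(k8,k6),(k11,k6)],[(k1,k6),(k10,k6)]]
    [] k0
    [[k0,k1,k1,k0,k0,k0],[k0,k0,k0,k0,k0,k2]]
    [.ref k0 k0 [(z1,[y1,z1])],.contra [z1]])]⟩

/-- classes `0 0 0 1 2 3`, types `C0 C0 C0 S0 C0 S0` -/
noncomputable def cU6_670 : CertX :=
  ⟨[k4,k4,k4,k16,k36,k48],[(false,k0,[k0,k1,k2,k3,k4,k5])],[[[([z1,z0,z0,z1,z1,z1],z2)],[]]],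
    [.old (.leafM k0 [k0,k3,k4,k5] [] [(k1,k2,z1,[y1,z1]),(k2,k1,z1,[y1,z1])]),
    .old (.lp [k6,k10,k10,k6,k6,k6] [k2,k2,k0,k0,k0,k0,k2,k2,k2,k2,k2,k2] k0 [[k0,k0,k2],[],[k0,k0,k0,k0,k2],[k0,k2],[],
    [k0,k0,k0,k2]] k24 k5
    [[(k1,k6),(k10,k6)],[(k5,k6),(k7,k6),(k3,k8)],[(k0,k8),(k4,k10),(k2,k12)],[(k7,k6),(k5,k10),(k3,k12)],[(k0,k6),
    (k2,k10),(k4,k12)],[(k7,k8),(k3,k10),(k5,k12)],[(k0,k6),(k2,k6),(k4,k8)],[(k6,k6),(k9,k6)],[(k6,k6),(k9,k6)],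
    [(k11,k6)],[(k8,k6)],[(k1,k6),(k10,k6)]]
    [] k0
    [[k0,k1,k1,k0,k0,k0]]
    [.ref k0 k0 [(z1,[y1,z1])]])]⟩

/-- classes `0 0 0 1 2 3`, types `C0 C0 C0 S0 S0 S0` -/
noncomputable def cU6_671 : CertX :=
  ⟨[k4,k4,k4,k16,k32,k48],[(false,k0,[k0,k1,k2,k3,k4,k5])],[[[([z1,z0,z0,z1,z1,z1],z2)],[]]],
    [.old (.leafM k0 [k0,k3,k4,k5] [] [(k1,k2,z1,[y1,z1]),(k2,k1,z1,[y1,z1])]),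
    .old (.lp [k6,k10,k10,k6,k6,k6] [k2,k2,k0,k0,k0,k0,k2,k2,k2,k2,k2,k2] k0 [[k0,k0,k2],[],[k0,k0,k0,k0,k2],[k0,k2],[],
    [k0,k0,k0,k2]] k24 k5
    [[(k1,k6),(k10,k6)],[(k5,k6),(k7,k6),(k3,k8)],[(k0,k8),(k4,k10),(k2,k12)],[(k7,k6),(k5,k10),(k3,k12)],[(k0,k6),
    (k2,k10),(k4,k12)],[(k7,k8),(k3,k10),(k5,k12)],[(k0,k6),(k2,k6),(k4,k8)],[(k6,k6),(k9,k6)],[(k6,k6),(k9,k6)],[(k8,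
    k6),(k11,k6)],[(k8,k6),(k11,k6)],[(k1,k6),(k10,k6)]]
    [] k0
    [[k0,k1,k1,k0,k0,k0],[k0,k0,k0,k0,k2,k0],[k0,k0,k0,k0,k0,k2]]
    [.ref k0 k0 [(z1,[y1,z1])],.contra [z1],.contra [z1]])]⟩

/-- classes `0 0 0 1 2 3`, types `C0 C0 C2 C0 C0 C0` -/
noncomputable def cU6_672 : CertX :=
  ⟨[k4,k4,k6,k20,k36,k52],[],[[[]]],
    [.old (.lp [k2,k4,k2,k2,k2,k2] [k1,k1,k0,k0,k1,k1,k1,k1,k1,k1,k1,k1] k0 [] k8 k5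
    [[(k10,k2)],[(k4,k2),(k5,k2),(k3,k3)],[(k0,k3),(k7,k3),(k2,k4)],[(k4,k3),(k5,k3),(k3,k4)],[(k0,k2),(k7,k2),(k2,
    k3)],[(k0,k2),(k7,k2),(k2,k3)],[(k4,k2),(k5,k2),(k3,k3)],[(k9,k2)],[(k6,k2)],[(k11,k2)],[(k8,k2)],[(k1,k2)]]
    [] k0
    []
    [])]⟩

/-- classes `0 0 0 1 2 3`, types `C0 C0 C2 C0 C0 S0` -/
noncomputable def cU6_673 : CertX :=
  ⟨[k4,k4,k6,k20,k36,k48],[],[[[]]],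
    [.old (.lp [k10,k10,k6,k6,k6,k6] [k0,k0,k0,k0,k2,k2,k2,k2,k2,k2,k2,k2] k0 [[k0,k0,k2],[],[],[k0,k2]] k24 k5
    [[(k10,k8),(k1,k10)],[(k5,k6),(k4,k8),(k3,k10)],[(k7,k8),(k0,k10),(k2,k12)],[(k4,k8),(k5,k8),(k3,k12)],[(k0,k6),
    (k7,k6),(k2,k8)],[(k7,k6),(k0,k8),(k2,k8)],[(k4,k6),(k5,k6),(k3,k8)],[(k9,k6)],[(k6,k6)],[(k11,k6)],[(k8,k6)],
    [(k10,k6),(k1,k8)]]
    [] k0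
    []
    [])]⟩

/-- classes `0 0 0 1 2 3`, types `C0 C0 C2 C0 S0 C0` -/
noncomputable def cU6_674 : CertX :=
  ⟨[k4,k4,k6,k20,k32,k52],[],[[[]]],
    [.old (.lp [k2,k4,k2,k2,k2,k2] [k1,k1,k0,k0,k1,k1,k1,k1,k1,k1,k1,k1] k0 [] k8 k5
    [[(k10,k2)],[(k4,k2),(k5,k2),(k3,k3)],[(k0,k3),(k7,k3),(k2,k4)],[(k4,k3),(k5,k3),(k3,k4)],[(k0,k2),(k7,k2),(k2,
    k3)],[(k0,k2),(k7,k2),(k2,k3)],[(k4,k2),(k5,k2),(k3,k3)],[(k9,k2)],[(k6,k2)],[(k8,k2),(k11,k2)],[(k8,k2),(k11,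
    k2)],[(k1,k2)]]
    [] k0
    []
    [])]⟩

/-- classes `0 0 0 1 2 3`, types `C0 C0 C2 C0 S0 S0` -/
noncomputable def cU6_675 : CertX :=
  ⟨[k4,k4,k6,k20,k32,k48],[],[[[]]],
    [.old (.lp [k10,k10,k6,k6,k6,k6] [k0,k0,k0,k0,k2,k2,k2,k2,k2,k2,k2,k2] k0 [[k0,k0,k2],[],[],[k0,k2]] k24 k5
    [[(k10,k8),(k1,k10)],[(k5,k6),(k4,k8),(k3,k10)],[(k7,k8),(k0,k10),(k2,k12)],[(k4,k8),(k5,k8),(k3,k12)],[(k0,k6),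
    (k7,k6),(k2,k8)],[(k7,k6),(k0,k8),(k2,k8)],[(k4,k6),(k5,k6),(k3,k8)],[(k9,k6)],[(k6,k6)],[(k8,k6),(k11,k6)],[(k8,
    k6),(k11,k6)],[(k10,k6),(k1,k8)]]
    [] k0
    [[k0,k0,k0,k0,k0,k2]]
    [.contra [z1]])]⟩

/-- classes `0 0 0 1 2 3`, types `C0 C0 C2 S0 C0 C0` -/
noncomputable def cU6_676 : CertX :=
  ⟨[k4,k4,k6,k16,k36,k52],[],[[[]]],
    [.old (.lp [k6,k12,k6,k8,k6,k6] [k3,k3,k0,k0,k3,k3,k2,k2,k3,k3,k3,k3] k0 [[],[],[k0,k0,k0,k0,k0,k2],[],[k0,k0,k0,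
    k2]] k24 k5
    [[(k10,k6)],[(k4,k6),(k5,k6),(k3,k9)],[(k0,k9),(k7,k10),(k2,k12)],[(k4,k7),(k5,k9),(k3,k12)],[(k0,k6),(k2,k9),(k7,
    k9)],[(k0,k6),(k2,k7),(k7,k7)],[(k4,k7),(k5,k9),(k3,k10)],[(k9,k7),(k6,k8)],[(k9,k6),(k6,k7)],[(k11,k6)],[(k8,
    k6)],[(k1,k6)]]
    [] k0
    []
    [])]⟩

/-- classes `0 0 0 1 2 3`, types `C0 C0 C2 S0 C0 S0` -/
noncomputable def cU6_677 : CertX :=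
  ⟨[k4,k4,k6,k16,k36,k48],[],[[[]]],
    [.old (.lp [k8,k8,k12,k6,k6,k6] [k2,k2,k2,k2,k0,k0,k3,k3,k3,k3,k3,k3] k0 [[k0,k0,k4],[],[],[k0,k4]] k24 k5
    [[(k10,k7),(k1,k8)],[(k5,k6),(k3,k8),(k4,k10)],[(k7,k7),(k0,k8),(k2,k12)],[(k4,k10),(k5,k10),(k3,k12)],[(k0,k6),
    (k7,k9),(k2,k10)],[(k7,k9),(k0,k10),(k2,k10)],[(k3,k7),(k4,k9),(k5,k9)],[(k6,k6),(k9,k6)],[(k6,k6),(k9,k6)],[(k11,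
    k6)],[(k8,k6)],[(k10,k6),(k1,k7)]]
    [] k0
    []
    [])]⟩

/-- classes `0 0 0 1 2 3`, types `C0 C0 C2 S0 S0 C0` -/
noncomputable def cU6_678 : CertX :=
  ⟨[k4,k4,k6,k16,k32,k52],[],[[[]]],
    [.old (.lp [k6,k12,k6,k8,k6,k6] [k3,k3,k0,k0,k3,k3,k2,k2,k3,k3,k3,k3] k0 [[],[],[k0,k0,k0,k0,k0,k2],[],[k0,k0,k0,
    k2]] k24 k5
    [[(k10,k6)],[(k4,k6),(k5,k6),(k3,k9)],[(k0,k9),(k7,k10),(k2,k12)],[(k4,k7),(k5,k9),(k3,k12)],[(k0,k6),(k2,k9),(k7,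
    k9)],[(k0,k6),(k2,k7),(k7,k7)],[(k4,k7),(k5,k9),(k3,k10)],[(k9,k7),(k6,k8)],[(k9,k6),(k6,k7)],[(k8,k6),(k11,k6)],
    [(k8,k6),(k11,k6)],[(k1,k6)]]
    [] k0
    [[k0,k0,k0,k0,k2,k0]]
    [.contra [z1]])]⟩

/-- classes `0 0 0 1 2 3`, types `C0 C0 C2 S0 S0 S0` -/
noncomputable def cU6_679 : CertX :=
  ⟨[k4,k4,k6,k16,k32,k48],[],[[[]]],
    [.old (.lp [k10,k10,k6,k8,k6,k6] [k0,k0,k0,k0,k2,k2,k1,k1,k2,k2,k2,k2] k0 [[k0,k0,k2],[],[k0,k0,k0,k0,k0,k2],[k0,k2],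
    [k0,k0,k0,k2]] k24 k5
    [[(k10,k8),(k1,k10)],[(k5,k6),(k4,k8),(k3,k10)],[(k7,k9),(k0,k10),(k2,k12)],[(k4,k6),(k5,k8),(k3,k12)],[(k0,k6),
    (k2,k8),(k7,k9)],[(k2,k6),(k7,k7),(k0,k8)],[(k4,k7),(k3,k9),(k5,k9)],[(k9,k7),(k6,k8)],[(k9,k6),(k6,k7)],[(k8,k6),
    (k11,k6)],[(k8,k6),(k11,k6)],[(k10,k6),(k1,k8)]]
    [] k0
    [[k0,k0,k0,k0,k2,k0],[k0,k0,k0,k0,k0,k2]]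
    [.contra [z1],.contra [z1]])]⟩

/-- classes `0 0 0 1 2 3`, types `C0 C2 C0 C0 C0 C0` -/
noncomputable def cU6_680 : CertX :=
  ⟨[k4,k6,k4,k20,k36,k52],[(false,k0,[k0,k1,k2,k3,k4,k5])],[[[([z1,z0,z0,z1,z1,z1],z2)],[]]],
    [.old (.leafM k0 [k0,k3,k4,k5] [] [(k1,k2,z1,[y1,z1]),(k2,k1,z1,[y1,z1])]),
    .old (.lp [k2,k0,k2,k0,k2,k0] [k0,k0,k1,k1,k0,k0,k1,k1,k0,k0,k1,k1] k0 [] k4 k5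
    [[(k10,k1)],[(k2,k1),(k3,k1),(k7,k1)],[(k0,k1),(k4,k1),(k5,k1)],[(k0,k1),(k4,k1),(k5,k1)],[(k2,k1),(k3,k1),(k7,
    k1)],[(k2,k1),(k3,k1),(k7,k1)],[(k0,k1),(k4,k1),(k5,k1)],[(k9,k1)],[(k6,k1)],[(k11,k1)],[(k8,k1)],[(k1,k1)]]
    [] k0
    [[k0,k1,k1,k0,k0,k0]]
    [.ref k0 k0 [(z1,[y1,z1])]])]⟩

/-- classes `0 0 0 1 2 3`, types `C0 C2 C0 C0 C0 S0` -/
noncomputable def cU6_681 : CertX :=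
  ⟨[k4,k6,k4,k20,k36,k48],[(false,k0,[k0,k1,k2,k3,k4,k5])],[[[([z1,z0,z0,z1,z1,z1],z2)],[]]],
    [.old (.leafM k0 [k0,k3,k4,k5] [] [(k1,k2,z1,[y1,z1]),(k2,k1,z1,[y1,z1])]),
    .old (.lp [k6,k4,k4,k4,k4,k4] [k0,k0,k1,k1,k1,k1,k1,k1,k1,k1,k1,k1] k0 [] k16 k5
    [[(k10,k5),(k1,k6)],[(k2,k5),(k3,k5),(k7,k5)],[(k4,k4),(k5,k4),(k0,k5)],[(k4,k4),(k5,k4),(k0,k5)],[(k2,k4),(k3,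
    k4),(k7,k4)],[(k2,k4),(k3,k4),(k7,k4)],[(k4,k4),(k5,k4),(k0,k5)],[(k9,k4)],[(k6,k4)],[(k11,k4)],[(k8,k4)],[(k10,
    k4),(k1,k5)]]
    [] k0
    [[k0,k1,k1,k0,k0,k0]]
    [.ref k0 k0 [(z1,[y1,z1])]])]⟩

/-- classes `0 0 0 1 2 3`, types `C0 C2 C0 C0 S0 C0` -/
noncomputable def cU6_682 : CertX :=
  ⟨[k4,k6,k4,k20,k32,k52],[(false,k0,[k0,k1,k2,k3,k4,k5])],[[[([z1,z0,z0,z1,z1,z1],z2)],[]]],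
    [.old (.leafM k0 [k0,k3,k4,k5] [] [(k1,k2,z1,[y1,z1]),(k2,k1,z1,[y1,z1])]),
    .old (.lp [k2,k2,k2,k2,k2,k2] [k0,k0,k0,k0,k0,k0,k0,k0,k0,k0,k0,k0] k0 [] k8 k5
    [[(k10,k2)],[(k2,k2),(k3,k2),(k7,k2)],[(k0,k2),(k4,k2),(k5,k2)],[(k0,k2),(k4,k2),(k5,k2)],[(k2,k2),(k3,k2),(k7,
    k2)],[(k2,k2),(k3,k2),(k7,k2)],[(k0,k2),(k4,k2),(k5,k2)],[(k9,k2)],[(k6,k2)],[(k8,k2),(k11,k2)],[(k8,k2),(k11,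
    k2)],[(k1,k2)]]
    [] k0
    [[k0,k1,k1,k0,k0,k0]]
    [.ref k0 k0 [(z1,[y1,z1])]])]⟩

/-- classes `0 0 0 1 2 3`, types `C0 C2 C0 C0 S0 S0` -/
noncomputable def cU6_683 : CertX :=
  ⟨[k4,k6,k4,k20,k32,k48],[(false,k0,[k0,k1,k2,k3,k4,k5])],[[[([z1,z0,z0,z1,z1,z1],z2)],[]]],
    [.old (.leafM k0 [k0,k3,k4,k5] [] [(k1,k2,z1,[y1,z1]),(k2,k1,z1,[y1,z1])]),
    .old (.lp [k6,k4,k4,k4,k4,k8] [k1,k1,k2,k2,k2,k2,k2,k2,k2,k2,k0,k0] k0 [] k16 k5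
    [[(k1,k6),(k10,k7)],[(k2,k5),(k3,k5),(k7,k5)],[(k4,k4),(k5,k4),(k0,k5)],[(k4,k4),(k5,k4),(k0,k5)],[(k2,k4),(k3,
    k4),(k7,k4)],[(k2,k4),(k3,k4),(k7,k4)],[(k4,k4),(k5,k4),(k0,k5)],[(k9,k4)],[(k6,k4)],[(k8,k4),(k11,k6)],[(k8,k6),
    (k11,k8)],[(k1,k7),(k10,k8)]]
    [] k0
    [[k0,k1,k1,k0,k0,k0]]
    [.ref k0 k0 [(z1,[y1,z1])]])]⟩

/-- classes `0 0 0 1 2 3`, types `C0 C2 C0 S0 C0 S0` -/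
noncomputable def cU6_684 : CertX :=
  ⟨[k4,k6,k4,k16,k36,k48],[(false,k0,[k0,k1,k2,k3,k4,k5])],[[[([z1,z0,z0,z1,z1,z1],z2)],[]]],
    [.old (.leafM k0 [k0,k3,k4,k5] [] [(k1,k2,z1,[y1,z1]),(k2,k1,z1,[y1,z1])]),
    .old (.lp [k2,k4,k0,k4,k2,k2] [k1,k1,k0,k0,k2,k2,k0,k0,k1,k1,k1,k1] k0 [] k8 k5
    [[(k1,k2),(k10,k2)],[(k2,k3),(k3,k3),(k7,k3)],[(k4,k2),(k5,k2),(k0,k3)],[(k4,k2),(k5,k2),(k0,k3)],[(k2,k2),(k3,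
    k2),(k7,k2)],[(k2,k2),(k3,k2),(k7,k2)],[(k4,k2),(k5,k2),(k0,k3)],[(k9,k3),(k6,k4)],[(k9,k2),(k6,k3)],[(k11,k2)],
    [(k8,k2)],[(k1,k2),(k10,k2)]]
    [] k0
    [[k0,k1,k1,k0,k0,k0]]
    [.ref k0 k0 [(z1,[y1,z1])]])]⟩

/-- classes `0 0 0 1 2 3`, types `C0 C2 C0 S0 S0 S0` -/
noncomputable def cU6_685 : CertX :=
  ⟨[k4,k6,k4,k16,k32,k48],[(false,k0,[k0,k1,k2,k3,k4,k5])],[[[([z1,z0,z0,z1,z1,z1],z2)],[]]],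
    [.old (.leafM k0 [k0,k3,k4,k5] [] [(k1,k2,z1,[y1,z1]),(k2,k1,z1,[y1,z1])]),
    .old (.lp [k2,k4,k0,k4,k2,k2] [k1,k1,k0,k0,k2,k2,k0,k0,k1,k1,k1,k1] k0 [] k8 k5
    [[(k1,k2),(k10,k2)],[(k2,k3),(k3,k3),(k7,k3)],[(k4,k2),(k5,k2),(k0,k3)],[(k4,k2),(k5,k2),(k0,k3)],[(k2,k2),(k3,
    k2),(k7,k2)],[(k2,k2),(k3,k2),(k7,k2)],[(k4,k2),(k5,k2),(k0,k3)],[(k9,k3),(k6,k4)],[(k9,k2),(k6,k3)],[(k8,k2),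
    (k11,k2)],[(k8,k2),(k11,k2)],[(k1,k2),(k10,k2)]]
    [] k0
    [[k0,k1,k1,k0,k0,k0],[k0,k0,k0,k0,k2,k0],[k0,k0,k0,k0,k0,k2]]
    [.ref k0 k0 [(z1,[y1,z1])],.contra [z1],.contra [z1]])]⟩

/-- classes `0 0 0 1 2 3`, types `S0 S0 S0 C0 C0 C0` -/
noncomputable def cU6_686 : CertX :=
  ⟨[k0,k0,k0,k20,k36,k52],[(false,k0,[k0,k1,k2,k3,k4,k5])],[[[([z1,z0,z0,z1,z1,z1],z2)],[]]],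
    [.old (.leafM k0 [k0,k3,k4,k5] [] [(k1,k2,z1,[y1,z1]),(k2,k1,z1,[y1,z1])]),
    .old (.lp [k6,k12,k8,k6,k6,k6] [k3,k3,k0,k0,k2,k2,k3,k3,k3,k3,k3,k3] k0 [] k24 k5
    [[(k10,k6)],[(k0,k6),(k7,k6),(k4,k7),(k5,k7),(k2,k9),(k3,k9)],[(k0,k9),(k7,k9),(k4,k10),(k5,k10),(k2,k12),(k3,
    k12)],[(k0,k9),(k7,k9),(k4,k10),(k5,k10),(k2,k12),(k3,k12)],[(k0,k7),(k7,k7),(k4,k8),(k5,k8),(k2,k10),(k3,k10)],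
    [(k0,k7),(k7,k7),(k4,k8),(k5,k8),(k2,k10),(k3,k10)],[(k0,k6),(k7,k6),(k4,k7),(k5,k7),(k2,k9),(k3,k9)],[(k9,k6)],
    [(k6,k6)],[(k11,k6)],[(k8,k6)],[(k1,k6)]]
    [] k0
    [[k0,k1,k1,k0,k0,k0],[k0,k0,k2,k0,k0,k0]]
    [.ref k0 k0 [(z1,[y1,z1])],.contra [z1]])]⟩

/-- classes `0 0 0 1 2 3`, types `S0 S0 S0 C0 C0 S0` -/
noncomputable def cU6_687 : CertX :=
  ⟨[k0,k0,k0,k20,k36,k48],[(false,k0,[k0,k1,k2,k3,k4,k5])],[[[([z1,z0,z0,z1,z1,z1],z2)],[]]],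
    [.old (.leafM k0 [k0,k3,k4,k5] [] [(k1,k2,z1,[y1,z1]),(k2,k1,z1,[y1,z1])]),
    .old (.lp [k6,k12,k8,k6,k6,k6] [k4,k4,k2,k0,k3,k3,k4,k4,k4,k4,k4,k4] k0 [[],[k0,k0,k0,k0,k4],[],[],[],[k4]] k24 k5
    [[(k1,k6),(k10,k6)],[(k0,k6),(k7,k6),(k5,k7),(k2,k8),(k3,k10),(k4,k11)],[(k7,k6),(k0,k10),(k4,k11),(k5,k11),(k2,
    k12),(k3,k14)],[(k0,k8),(k7,k8),(k4,k9),(k5,k9),(k2,k10),(k3,k12)],[(k0,k7),(k7,k7),(k4,k8),(k5,k8),(k2,k9),(k3,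
    k11)],[(k7,k7),(k4,k8),(k5,k8),(k2,k9),(k0,k11),(k3,k11)],[(k0,k6),(k3,k6),(k7,k6),(k4,k7),(k5,k7),(k2,k8)],[(k9,
    k6)],[(k6,k6)],[(k11,k6)],[(k8,k6)],[(k1,k6),(k10,k6)]]
    [] k0
    [[k2,k0,k0,k0,k0,k0],[k0,k1,k1,k0,k0,k0],[k0,k0,k2,k0,k0,k0]]
    [.contra [z1],.ref k0 k0 [(z1,[y1,z1])],.contra [z1]])]⟩

/-- classes `0 0 0 1 2 3`, types `S0 S0 S0 C0 S0 C0` -/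
noncomputable def cU6_688 : CertX :=
  ⟨[k0,k0,k0,k20,k32,k52],[(false,k0,[k0,k1,k2,k3,k4,k5])],[[[([z1,z0,z0,z1,z1,z1],z2)],[]]],
    [.old (.leafM k0 [k0,k3,k4,k5] [] [(k1,k2,z1,[y1,z1]),(k2,k1,z1,[y1,z1])]),
    .old (.lp [k6,k12,k8,k6,k6,k6] [k3,k3,k0,k0,k2,k2,k3,k3,k3,k3,k3,k3] k0 [] k24 k5
    [[(k10,k6)],[(k0,k6),(k7,k6),(k4,k7),(k5,k7),(k2,k9),(k3,k9)],[(k0,k9),(k7,k9),(k4,k10),(k5,k10),(k2,k12),(k3,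
    k12)],[(k0,k9),(k7,k9),(k4,k10),(k5,k10),(k2,k12),(k3,k12)],[(k0,k7),(k7,k7),(k4,k8),(k5,k8),(k2,k10),(k3,k10)],
    [(k0,k7),(k7,k7),(k4,k8),(k5,k8),(k2,k10),(k3,k10)],[(k0,k6),(k7,k6),(k4,k7),(k5,k7),(k2,k9),(k3,k9)],[(k9,k6)],
    [(k6,k6)],[(k8,k6),(k11,k6)],[(k8,k6),(k11,k6)],[(k1,k6)]]
    [] k0
    [[k0,k1,k1,k0,k0,k0],[k0,k0,k2,k0,k0,k0]]
    [.ref k0 k0 [(z1,[y1,z1])],.contra [z1]])]⟩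

/-- classes `0 0 0 1 2 3`, types `S0 S0 S0 C0 S0 S0` -/
noncomputable def cU6_689 : CertX :=
  ⟨[k0,k0,k0,k20,k32,k48],[(false,k0,[k0,k1,k2,k3,k4,k5])],[[[([z1,z0,z0,z1,z1,z1],z2)],[]]],
    [.old (.leafM k0 [k0,k3,k4,k5] [] [(k1,k2,z1,[y1,z1]),(k2,k1,z1,[y1,z1])]),
    .old (.lp [k8,k8,k12,k6,k6,k6] [k2,k2,k2,k2,k0,k0,k3,k3,k3,k3,k3,k3] k0 [] k24 k5
    [[(k10,k7),(k1,k8)],[(k7,k7),(k0,k8),(k2,k8),(k3,k8),(k4,k10),(k5,k10)],[(k7,k7),(k0,k8),(k2,k8),(k3,k8),(k4,k10),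
    (k5,k10)],[(k7,k7),(k0,k8),(k2,k8),(k3,k8),(k4,k10),(k5,k10)],[(k7,k9),(k0,k10),(k2,k10),(k3,k10),(k4,k12),(k5,
    k12)],[(k7,k9),(k0,k10),(k2,k10),(k3,k10),(k4,k12),(k5,k12)],[(k7,k6),(k0,k7),(k2,k7),(k3,k7),(k4,k9),(k5,k9)],
    [(k9,k6)],[(k6,k6)],[(k8,k6),(k11,k6)],[(k8,k6),(k11,k6)],[(k10,k6),(k1,k7)]]
    [] k0
    [[k2,k0,k0,k0,k0,k0],[k0,k2,k0,k0,k0,k0],[k0,k1,k1,k0,k0,k0],[k0,k0,k0,k0,k0,k2]]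
    [.contra [z1],.contra [z1],.ref k0 k0 [(z1,[y1,z1])],.contra [z1]])]⟩

/-- classes `0 0 0 1 2 3`, types `S0 S0 S0 S0 C0 S0` -/
noncomputable def cU6_690 : CertX :=
  ⟨[k0,k0,k0,k16,k36,k48],[(false,k0,[k0,k1,k2,k3,k4,k5])],[[[([z1,z0,z0,z1,z1,z1],z2)],[]]],
    [.old (.leafM k0 [k0,k3,k4,k5] [] [(k1,k2,z1,[y1,z1]),(k2,k1,z1,[y1,z1])]),
    .old (.lp [k16,k16,k24,k14,k12,k12] [k4,k4,k4,k4,k0,k0,k5,k5,k6,k6,k6,k6] k0 [[k0,k0,k0,k0,k0,k4],[],[],[],[k0,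
    k4]] k48 k5
    [[(k10,k14),(k1,k16)],[(k7,k15),(k0,k16),(k2,k16),(k3,k16),(k4,k16),(k5,k20)],[(k0,k16),(k2,k16),(k3,k16),(k7,
    k19),(k4,k20),(k5,k20)],[(k7,k15),(k0,k16),(k2,k16),(k3,k16),(k4,k20),(k5,k20)],[(k7,k19),(k0,k20),(k2,k20),(k3,
    k20),(k4,k24),(k5,k24)],[(k0,k16),(k7,k19),(k2,k20),(k3,k20),(k4,k24),(k5,k24)],[(k7,k14),(k0,k15),(k2,k15),(k3,
    k19),(k4,k19),(k5,k19)],[(k9,k13),(k6,k14)],[(k9,k12),(k6,k13)],[(k11,k12)],[(k8,k12)],[(k10,k12),(k1,k14)]]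
    [] k0
    [[k2,k0,k0,k0,k0,k0],[k0,k2,k0,k0,k0,k0],[k0,k1,k1,k0,k0,k0],[k0,k0,k0,k2,k0,k0]]
    [.contra [z1],.contra [z1],.ref k0 k0 [(z1,[y1,z1])],.contra [z1]])]⟩

/-- classes `0 0 1 0 0 1`, types `B0 B0 B0 B1 B1 B1` -/
noncomputable def cU6_691 : CertX :=
  ⟨[k8,k8,k24,k9,k9,k25],[(false,k0,[k0,k1,k2,k3,k4,k5]),(true,k2,[k2,k1,k0,k5,k4,k3])],[[[([z1,z0,z0,z1,z0,z0],z2)],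
    [([z1,z0,z1,z1,z0,z1],z2)],[([z1,z0,z1,z0,z1,z0],z2)],[]]],
    [.old (.leafM k6 [k1,k2,k4,k5] [] [(k3,k0,z1,[z1]),(k0,k3,z1,[z1])]),
    .old (.leafM k5 [k0,k2,k3,k5] [] [(k1,k4,z1,[y1,z1]),(k4,k1,z1,[y1,z1])]),
    .old (.leafM k1 [k0,k1,k2,k3,k4,k5] [(z1,[y1,z1]),(z1,[z1])] []),
    .old (.lp [k4,k2,k2,k2,k2,k2] [k0,k0,k1,k1,k1,k1,k1,k1,k1,k1,k1,k1] k0 [] k8 k5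
    [[(k4,k3),(k7,k3)],[(k6,k3),(k8,k3),(k9,k3),(k11,k3)],[(k6,k2),(k8,k2),(k9,k2),(k11,k2)],[(k6,k2),(k8,k2),(k9,k2),
    (k11,k2)],[(k6,k2),(k8,k2),(k9,k2),(k11,k2)],[(k10,k2),(k1,k3)],[(k10,k2),(k1,k3)],[(k2,k2),(k3,k2),(k5,k2),(k0,
    k3)],[(k2,k2),(k3,k2),(k5,k2),(k0,k3)],[(k2,k2),(k3,k2),(k5,k2),(k0,k3)],[(k2,k2),(k3,k2),(k5,k2),(k0,k3)],[(k4,
    k2),(k7,k2)]]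
    [] k0
    [[k1,k0,k0,k1,k0,k0],[k0,k1,k0,k1,k0,k1],[k0,k1,k0,k0,k1,k0],[k0,k0,k1,k0,k0,k1]]
    [.ref k0 k0 [(z1,[z1])],.ref k2 k0 [(z1,[y1,z1])],.ref k1 k0 [(z1,[y1,z1])],.ref k0 k1 [(z1,[z1])]])]⟩

/-- classes `0 0 1 0 0 1`, types `B0 B0 C0 B1 B1 C0` -/
noncomputable def cU6_692 : CertX :=
  ⟨[k8,k8,k20,k9,k9,k20],[(false,k0,[k0,k1,k2,k3,k4,k5]),(false,k3,[k3,k4,k5,k0,k1,k2])],[[[([z1,z0,z0,z0,z0,z1],z2)],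
    [([z1,z0,z1,z1,z0,z1],z2)],[([z1,z0,z1,z0,z1,z0],z2)],[]]],
    [.old (.leafM k2 [k2,k3,k4,k1] [] [(k5,k0,z1,[z1]),(k0,k5,z1,[z1])]),
    .old (.leafM k2 [k2,k3,k5,k0] [] [(k4,k1,z1,[y1,z1]),(k1,k4,z1,[y1,z1])]),
    .old (.leafM k1 [k0,k1,k2,k3,k4,k5] [(z1,[y1,z1]),(z1,[z1])] []),
    .old (.lp [k2,k2,k2,k2,k2,k4] [k1,k1,k1,k1,k1,k1,k1,k1,k1,k1,k0,k0] k0 [] k8 k5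
    [[(k4,k2),(k10,k3)],[(k6,k2),(k8,k2),(k9,k2),(k11,k3)],[(k6,k2),(k8,k2),(k9,k2),(k11,k3)],[(k6,k2),(k8,k2),(k9,
    k2),(k11,k3)],[(k6,k2),(k8,k2),(k9,k2),(k11,k3)],[(k1,k2),(k7,k2)],[(k4,k2),(k10,k3)],[(k0,k2),(k2,k2),(k3,k2),
    (k5,k2)],[(k0,k2),(k2,k2),(k3,k2),(k5,k2)],[(k0,k2),(k2,k2),(k3,k2),(k5,k2)],[(k0,k3),(k2,k3),(k3,k3),(k5,k3)],
    [(k1,k3),(k7,k3)]]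
    [] k0
    [[k1,k0,k1,k0,k1,k0],[k1,k0,k0,k0,k0,k1],[k0,k1,k0,k0,k1,k0],[k0,k0,k1,k1,k0,k0]]
    [.ref k2 k0 [(z1,[z1])],.ref k0 k0 [(z1,[z1])],.ref k1 k0 [(z1,[y1,z1])],.ref k0 k1 [(z1,[z1])]])]⟩

/-- classes `0 0 1 0 0 1`, types `B0 B0 C0 B1 B1 C2` -/
noncomputable def cU6_693 : CertX :=
  ⟨[k8,k8,k20,k9,k9,k22],[(false,k0,[k0,k1,k2,k3,k4,k5]),(false,k3,[k3,k4,k5,k0,k1,k2]),(true,k2,[k2,k1,k0,k5,k4,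
    k3])],[[[([z1,z0,z0,z1,z0,z0],z2)],[([z1,z0,z0,z0,z0,z1],z2)],[([z1,z0,z1,z1,z0,z1],z2)],[]]],
    [.old (.leafM k6 [k1,k2,k4,k5] [] [(k3,k0,z1,[z1]),(k0,k3,z1,[z1])]),
    .old (.leafM k2 [k2,k3,k4,k1] [] [(k5,k0,z1,[z1]),(k0,k5,z1,[z1])]),
    .old (.leafM k2 [k2,k3,k5,k0] [] [(k4,k1,z1,[y1,z1]),(k1,k4,z1,[y1,z1])]),
    .old (.lp [k0,k0,k0,k2,k2,k2] [k1,k1,k1,k1,k1,k1,k0,k0,k0,k0,k0,k0] k0 [] k4 k5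
    [[(k7,k1),(k10,k1)],[(k6,k1),(k8,k1),(k9,k1),(k11,k1)],[(k6,k1),(k8,k1),(k9,k1),(k11,k1)],[(k6,k1),(k8,k1),(k9,
    k1),(k11,k1)],[(k6,k1),(k8,k1),(k9,k1),(k11,k1)],[(k7,k1),(k10,k1)],[(k1,k1),(k4,k1)],[(k0,k1),(k2,k1),(k3,k1),
    (k5,k1)],[(k0,k1),(k2,k1),(k3,k1),(k5,k1)],[(k0,k1),(k2,k1),(k3,k1),(k5,k1)],[(k0,k1),(k2,k1),(k3,k1),(k5,k1)],
    [(k1,k1),(k4,k1)]]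
    [] k0
    [[k1,k0,k0,k1,k0,k0],[k1,k0,k0,k0,k0,k1],[k0,k1,k0,k0,k1,k0],[k0,k0,k1,k1,k0,k0],[k0,k0,k1,k0,k0,k1]]
    [.ref k0 k0 [(z1,[z1])],.ref k1 k0 [(z1,[z1])],.ref k2 k0 [(z1,[y1,z1])],.ref k1 k1 [(z1,[z1])],.ref k0 k2 [(z1,
    [z1])]])]⟩

/-- classes `0 0 1 0 0 1`, types `B0 B0 N0 B1 B1 N1` -/
noncomputable def cU6_694 : CertX :=
  ⟨[k8,k8,k28,k9,k9,k29],[(false,k0,[k0,k1,k2,k3,k4,k5])],[[[([z1,z0,z1,z1,z0,z1],z2)],[([z1,z0,z1,z0,z1,z0],z2)],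
    []]],
    [.old (.leafM k5 [k0,k2,k3,k5] [] [(k1,k4,z1,[y1,z1]),(k4,k1,z1,[y1,z1])]),
    .old (.leafM k1 [k0,k1,k2,k3,k4,k5] [(z1,[y1,z1]),(z1,[z1])] []),
    .old (.lp [k2,k2,k2,k2,k4,k2] [k1,k1,k1,k1,k1,k1,k1,k1,k0,k0,k1,k1] k0 [] k8 k5
    [[(k4,k2)],[(k6,k2),(k11,k2),(k8,k3),(k9,k3)],[(k6,k2),(k11,k2),(k8,k3),(k9,k3)],[(k6,k2),(k11,k2),(k8,k3),(k9,
    k3)],[(k6,k2),(k11,k2),(k8,k3),(k9,k3)],[(k1,k2)],[(k10,k2)],[(k0,k2),(k2,k2),(k3,k2),(k5,k2)],[(k0,k3),(k2,k3),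
    (k3,k3),(k5,k3)],[(k0,k3),(k2,k3),(k3,k3),(k5,k3)],[(k0,k2),(k2,k2),(k3,k2),(k5,k2)],[(k7,k2)]]
    [] k0
    [[k0,k1,k0,k1,k0,k1],[k0,k1,k0,k0,k1,k0]]
    [.ref k1 k0 [(z1,[y1,z1])],.ref k0 k0 [(z1,[y1,z1])]])]⟩

/-- classes `0 0 1 0 0 1`, types `B0 B0 N0 B1 B1 N2` -/
noncomputable def cU6_695 : CertX :=
  ⟨[k8,k8,k28,k9,k9,k30],[(false,k0,[k0,k1,k2,k3,k4,k5]),(true,k2,[k2,k1,k0,k5,k4,k3])],[[[([z1,z0,z0,z1,z0,z0],z2)],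
    [([z1,z0,z1,z1,z0,z1],z2)],[]]],
    [.old (.leafM k6 [k1,k2,k4,k5] [] [(k3,k0,z1,[z1]),(k0,k3,z1,[z1])]),
    .old (.leafM k6 [k0,k2,k3,k5] [] [(k1,k4,z1,[y1,z1]),(k4,k1,z1,[y1,z1])]),
    .old (.lp [k0,k0,k0,k2,k2,k2] [k1,k1,k1,k1,k1,k1,k0,k0,k0,k0,k0,k0] k0 [] k4 k5
    [[(k7,k1)],[(k6,k1),(k8,k1),(k9,k1),(k11,k1)],[(k6,k1),(k8,k1),(k9,k1),(k11,k1)],[(k6,k1),(k8,k1),(k9,k1),(k11,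
    k1)],[(k6,k1),(k8,k1),(k9,k1),(k11,k1)],[(k10,k1)],[(k1,k1)],[(k0,k1),(k2,k1),(k3,k1),(k5,k1)],[(k0,k1),(k2,k1),
    (k3,k1),(k5,k1)],[(k0,k1),(k2,k1),(k3,k1),(k5,k1)],[(k0,k1),(k2,k1),(k3,k1),(k5,k1)],[(k4,k1)]]
    [] k0
    [[k1,k0,k0,k1,k0,k0],[k0,k1,k0,k0,k1,k0],[k0,k0,k1,k0,k0,k1]]
    [.ref k0 k0 [(z1,[z1])],.ref k1 k0 [(z1,[y1,z1])],.ref k0 k1 [(z1,[z1])]])]⟩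

/-- classes `0 0 1 0 0 1`, types `B0 B0 S0 B1 B1 S0` -/
noncomputable def cU6_696 : CertX :=
  ⟨[k8,k8,k16,k9,k9,k16],[(false,k0,[k0,k1,k2,k3,k4,k5]),(false,k3,[k3,k4,k5,k0,k1,k2]),(true,k2,[k2,k1,k0,k5,k4,
    k3])],[[[([z1,z0,z0,z1,z0,z0],z2)],[([z1,z0,z0,z0,z0,z1],z2)],[([z1,z0,z1,z1,z0,z1],z2)],[([z1,z0,z1,z0,z1,z0],
    z2)],[([z2,z0,z0,z0,z1,z0],z2)],[]]],
    [.old (.leafM k6 [k1,k2,k4,k5] [] [(k3,k0,z1,[z1]),(k0,k3,z1,[z1])]),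
    .old (.leafM k2 [k2,k3,k4,k1] [] [(k5,k0,z1,[z1]),(k0,k5,z1,[z1])]),
    .old (.leafM k2 [k2,k3,k5,k0] [] [(k4,k1,z1,[y1,z1]),(k1,k4,z1,[y1,z1])]),
    .old (.leafM k1 [k0,k1,k2,k3,k4,k5] [(z1,[y1,z1]),(z1,[z1])] []),
    .old (.lp [k6,k8,k4,k4,k4,k4] [k1,k1,k0,k0,k2,k2,k2,k2,k2,k2,k2,k2] k0 [] k16 k5
    [[(k4,k5),(k7,k5),(k10,k5),(k1,k6)],[(k6,k5),(k8,k5),(k9,k5),(k11,k5)],[(k6,k6),(k8,k6),(k9,k6),(k11,k6)],[(k6,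
    k6),(k8,k6),(k9,k6),(k11,k6)],[(k6,k4),(k8,k4),(k9,k4),(k11,k4)],[(k4,k4),(k7,k4),(k10,k4),(k1,k5)],[(k4,k4),(k7,
    k4),(k10,k4),(k1,k5)],[(k5,k4),(k0,k5),(k2,k6),(k3,k6)],[(k5,k4),(k0,k5),(k2,k6),(k3,k6)],[(k5,k4),(k0,k5),(k2,
    k6),(k3,k6)],[(k5,k4),(k0,k5),(k2,k6),(k3,k6)],[(k4,k4),(k7,k4),(k10,k4),(k1,k5)]]
    [] k0
    [[k1,k0,k1,k0,k1,k0],[k1,k0,k0,k1,k0,k0],[k1,k0,k0,k0,k0,k1],[k0,k1,k0,k0,k1,k0],[k0,k0,k1,k1,k0,k0],[k0,k0,k2,k0,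
    k1,k0],[k0,k0,k1,k0,k0,k1]]
    [.ref k3 k0 [(z1,[z1])],.ref k0 k0 [(z1,[z1])],.ref k1 k0 [(z1,[z1])],.ref k2 k0 [(z1,[y1,z0,z1])],
    .ref k1 k1 [(z1,[z1])],.ref k3 k0 [(z2,[z1,z1])],.ref k0 k2 [(z1,[z1])]]),
    .old (.lp [k6,k8,k4,k4,k4,k4] [k1,k1,k0,k0,k2,k2,k2,k2,k2,k2,k2,k2] k0 [] k16 k5
    [[(k4,k5),(k7,k5),(k10,k5),(k1,k6)],[(k6,k5),(k8,k5),(k9,k5),(k11,k5)],[(k6,k6),(k8,k6),(k9,k6),(k11,k6)],[(k6,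
    k6),(k8,k6),(k9,k6),(k11,k6)],[(k6,k4),(k8,k4),(k9,k4),(k11,k4)],[(k4,k4),(k7,k4),(k10,k4),(k1,k5)],[(k4,k4),(k7,
    k4),(k10,k4),(k1,k5)],[(k5,k4),(k0,k5),(k2,k6),(k3,k6)],[(k5,k4),(k0,k5),(k2,k6),(k3,k6)],[(k5,k4),(k0,k5),(k2,
    k6),(k3,k6)],[(k5,k4),(k0,k5),(k2,k6),(k3,k6)],[(k4,k4),(k7,k4),(k10,k4),(k1,k5)]]
    [] k0
    [[k1,k0,k1,k0,k1,k0],[k1,k0,k0,k1,k0,k0],[k1,k0,k0,k0,k0,k1],[k0,k1,k0,k0,k1,k0],[k0,k0,k1,k1,k0,k0],[k0,k0,k2,k0,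
    k1,k0],[k0,k0,k1,k0,k0,k1]]
    [.ref k3 k0 [(z1,[z1])],.ref k0 k0 [(z1,[z1])],.ref k1 k0 [(z1,[z1])],.ref k2 k0 [(z1,[y1,z1])],.ref k1 k1 [(z1,
    [z1])],.ref k4 k2 [(z1,[z1])],.ref k0 k2 [(z1,[z1])]])]⟩

/-- classes `0 0 1 0 0 1`, types `B0 B1 B0 B0 B1 B1` -/
noncomputable def cU6_697 : CertX :=
  ⟨[k8,k9,k24,k8,k9,k25],[(false,k0,[k0,k1,k2,k3,k4,k5]),(false,k3,[k3,k4,k5,k0,k1,k2])],[[[([z1,z0,z1,z1,z0,z1],z2)],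
    [([z1,z0,z1,z0,z1,z0],z2)],[([z1,z1,z1,z0,z0,z0],z2)],[([z1,z0,z1,z0,z0,z0],z1),([z0,z3,z0,z0,z0,z0],z1),([z0,z0,
    z0,z1,z0,z1],z2)],[([z1,z0,z1,z0,z0,z0],z1),([z0,z2,z0,z0,z0,z0],z1),([z0,z0,z0,z1,z0,z1],z2)],[([z1,z0,z1,z0,z0,
    z0],z1),([z0,z3,z0,z0,z0,z0],z2),([z0,z0,z0,z1,z0,z1],z2)],[([z1,z0,z1,z0,z0,z0],z1),([z0,z1,z0,z0,z1,z0],z1)],
    [([z3,z0,z3,z0,z0,z0],z2),([z0,z3,z0,z0,z0,z0],z2),([z0,z0,z0,z1,z0,z1],z2)],[([z1,z0,z1,z0,z0,z0],z2),([z0,z3,z0,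
    z0,z0,z0],z2)],[([z1,z0,z1,z0,z0,z0],z2)],[]]],
    [.old (.leafM k5 [k0,k2,k3,k5] [] [(k1,k4,z1,[y1,z1]),(k4,k1,z1,[y1,z1])]),
    .old (.leafM k5 [k1,k2,k3,k4,k5,k0] [(z1,[z1]),(z1,[y1,z1])] []),
    .old (.leafM k6 [k0,k1,k2,k3,k4,k5] [(z1,[y1,z1])] []),
    .old (.leafM k11 [k2,k4,k0,k1] [(z1,[y3,y1,y3,z3]),(z1,[z0,z1]),(z1,[z1])] [(k3,k5,z1,[z0,z0,z1]),(k5,k3,z1,[z0,z0,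
    z1])]),
    .old (.leafM k12 [k0,k1,k2,k4] [(z1,[z0,z1]),(z1,[y2,y1,y2,z2]),(z1,[z1])] [(k3,k5,z1,[z0,z0,z1]),(k5,k3,z1,[z0,z0,
    z1])]),
    .old (.leafM k11 [k0,k1,k2,k4] [(z1,[z0,z1]),(z1,[y3,y1,y3,z3]),(z1,[z1])] [(k3,k5,z1,[z0,z0,z1]),(k5,k3,z1,[z0,z0,
    z1])]),
    .old (.lp [(nat_lit 1596),(nat_lit 1140),(nat_lit 684),(nat_lit 1680),(nat_lit 1330),(nat_lit 2508)] [(nat_lit 456),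
    (nat_lit 456),(nat_lit 684),(nat_lit 684),(nat_lit 912),(nat_lit 912),(nat_lit 414),(nat_lit 414),(nat_lit 589),
    (nat_lit 589),k0,k0] k0 [[k0,k0,k0,k0,k0,k0,k0,k0,(nat_lit 1140)],[],[],[],[],[],[],[k0,k0,k0,k0,k0,k0,k0,k0,k0,
    (nat_lit 380)],[k0,k0,k0,k0,k0,k0,(nat_lit 380)],[k0,(nat_lit 1140)]] (nat_lit 4560) k6
    [[(k4,(nat_lit 1140)),(k7,(nat_lit 1638))],[(k11,(nat_lit 912)),(k5,(nat_lit 1140)),(k2,(nat_lit 1368)),(k8,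
    (nat_lit 1463))],[(k5,(nat_lit 912)),(k2,(nat_lit 1140)),(k11,(nat_lit 1824)),(k8,(nat_lit 2375))],[(k3,
    (nat_lit 1140)),(k9,(nat_lit 1235)),(k0,(nat_lit 1368)),(k6,(nat_lit 1410))],[(k3,(nat_lit 912)),(k9,
    (nat_lit 1007)),(k0,(nat_lit 1140)),(k6,(nat_lit 1182))],[(k1,(nat_lit 1140)),(k10,(nat_lit 1596))],[(k1,
    (nat_lit 1638)),(k10,(nat_lit 2094))],[(k5,(nat_lit 1182)),(k2,(nat_lit 1410)),(k8,(nat_lit 1505)),(k11,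
    (nat_lit 2474))],[(k8,(nat_lit 950)),(k5,(nat_lit 1007)),(k2,(nat_lit 1235)),(k11,(nat_lit 1919))],[(k9,
    (nat_lit 950)),(k0,(nat_lit 1463)),(k6,(nat_lit 1505)),(k3,(nat_lit 2375))],[(k0,(nat_lit 912)),(k3,
    (nat_lit 1824)),(k9,(nat_lit 1919)),(k6,(nat_lit 2474))],[(k4,(nat_lit 1596)),(k7,(nat_lit 2094))]]
    [] k0
    [[k1,k0,k1,k0,k0,k0],[k1,k1,k1,k0,k0,k0],[k1,k0,k1,k0,k1,k0],[k0,k2,k0,k0,k0,k0],[k0,k3,k0,k0,k0,k0],[k0,k1,k0,k0,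
    k1,k0],[k0,k0,k0,k0,k2,k0],[k0,k0,k0,k0,k3,k0],[k0,k0,k0,k0,k4,k0]]
    [.contra [y1,z2],.contra [z1,y1],.contra [z1,y1],.contra [z1],.ref k5 k0 [(z1,[z0,z1]),(z1,[z1]),(z1,[z0,y1,y1,
    z1])],.contra [y1,z1,z1],.contra [z1],.ref k3 k0 [(z1,[z0,z1]),(z1,[y1,z0,z3]),(z1,[z0,y1,y1,z1])],
    .ref k4 k0 [(z1,[z0,z1]),(z2,[y1,z0,z4]),(z1,[z0,y1,y1,z1])]]),
    .old (.leafM k10 [k0,k1,k2,k4] [(z1,[z0,z1]),(z1,[y1,y1,y3,z3]),(z1,[z1])] [(k3,k5,z1,[z0,z0,z1]),(k5,k3,z1,[z0,z0,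
    z1])]),
    .old (.lp [(nat_lit 840),(nat_lit 660),(nat_lit 264),(nat_lit 264),(nat_lit 330),(nat_lit 264)] [k0,k0,k90,k90,
    (nat_lit 288),(nat_lit 288),(nat_lit 288),(nat_lit 288),(nat_lit 255),(nat_lit 255),(nat_lit 288),
    (nat_lit 288)] k0 [[k0,k0,k0,k0,k0,k0,k0,k0,k0,k132],[k0,k0,k0,(nat_lit 220)],[(nat_lit 220)],[],[],[],[],[],[k0,
    k132]] (nat_lit 1320) k6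
    [[(k4,(nat_lit 552)),(k7,(nat_lit 552))],[(k8,(nat_lit 453)),(k11,(nat_lit 552)),(k2,(nat_lit 750)),(k5,
    (nat_lit 772))],[(k2,(nat_lit 440)),(k5,(nat_lit 462)),(k8,(nat_lit 495)),(k11,(nat_lit 594))],[(k3,
    (nat_lit 440)),(k6,(nat_lit 462)),(k9,(nat_lit 495)),(k0,(nat_lit 750))],[(k6,(nat_lit 264)),(k9,(nat_lit 297)),
    (k3,(nat_lit 462)),(k0,(nat_lit 772))],[(k10,(nat_lit 264)),(k1,(nat_lit 552))],[(k10,(nat_lit 264)),(k1,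
    (nat_lit 552))],[(k5,(nat_lit 264)),(k11,(nat_lit 264)),(k8,(nat_lit 297)),(k2,(nat_lit 462))],[(k5,
    (nat_lit 297)),(k11,(nat_lit 297)),(k8,(nat_lit 330)),(k2,(nat_lit 495))],[(k6,(nat_lit 297)),(k9,(nat_lit 330)),
    (k0,(nat_lit 453)),(k3,(nat_lit 495))],[(k6,(nat_lit 264)),(k9,(nat_lit 297)),(k0,(nat_lit 552)),(k3,
    (nat_lit 594))],[(k4,(nat_lit 264)),(k7,(nat_lit 264))]]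
    [] k0
    [[k1,k0,k1,k0,k1,k0],[k0,k2,k0,k0,k0,k0],[k0,k1,k0,k0,k1,k0],[k0,k0,k0,k1,k0,k1],[k0,k0,k0,k2,k0,k2],[k0,k0,k0,k1,
    k1,k1],[k0,k0,k0,k1,k2,k1],[k0,k0,k0,k0,k2,k0],[k0,k0,k0,k0,k3,k0]]
    [.contra [z1,y1],.contra [z1],.contra [y1,y1,z0,z1],.contra [y1,y1,z0,z1],.ref k6 k1 [(z2,[z1]),(z2,[y1,y2,z0,
    z2])],.contra [z1,z1,z1,y1],.ref k7 k1 [(z1,[y3,y6,y2,z6]),(z1,[z3,z3,z1,y3]),(z1,[z0,z1])],.contra [z1],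
    .ref k7 k1 [(z1,[y1,y3,y1,z3]),(z1,[z1]),(z1,[z0,z1])]]),
    .old (.lp [k156,k98,k48,k48,k80,k48] [k0,k0,k29,k29,k54,k54,k54,k54,k38,k38,k54,k54] k0 [[k0,k0,k0,k0,k0,k0,k0,k0,k0,
    k46],[k0,k0,k0,k36],[k36],[],[],[],[],[],[k0,k46]] (nat_lit 240) k6
    [[(k4,k102),(k7,k102)],[(k8,k72),(k11,k102),(k2,k127),(k5,k138)],[(k2,k62),(k5,k73),(k8,k89),(k11,k119)],[(k3,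
    k62),(k6,k73),(k9,k89),(k0,k127)],[(k6,k48),(k9,k64),(k3,k73),(k0,k138)],[(k10,k48),(k1,k102)],[(k10,k48),(k1,
    k102)],[(k5,k48),(k11,k48),(k8,k64),(k2,k73)],[(k5,k64),(k11,k64),(k8,k80),(k2,k89)],[(k6,k64),(k0,k72),(k9,k80),
    (k3,k89)],[(k6,k48),(k9,k64),(k0,k102),(k3,k119)],[(k4,k48),(k7,k48)]]
    [] k0
    [[k1,k0,k1,k0,k1,k0],[k0,k2,k0,k0,k0,k0],[k0,k3,k0,k0,k0,k0],[k0,k1,k0,k0,k1,k0],[k0,k0,k0,k1,k0,k1],[k0,k0,k0,k2,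
    k0,k2],[k0,k0,k0,k1,k1,k1],[k0,k0,k0,k0,k2,k0]]
    [.contra [z1,y1],.contra [z1],.ref k8 k0 [(z1,[z0,z1]),(z1,[z1])],.contra [y1,y1,z1],.contra [y1,y1,z1],
    .ref k6 k1 [(z2,[z1]),(z2,[y1,y2,z2])],.contra [y1,y1,z1],.contra [z1]]),
    .old (.lp [k8,k8,k4,k8,k10,k8] [k1,k1,k1,k1,k3,k3,k1,k1,k0,k0,k1,k1] k0 [[],[],[],[],[],[],[k0,k0,k0,k0,k0,k0,k0,k0,
    k2],[],[],[k0,k0,k0,k0,k0,k0,k0,k2]] k24 k5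
    [[(k4,k6),(k7,k8)],[(k5,k6),(k2,k8),(k11,k8),(k8,k9)],[(k5,k6),(k2,k8),(k11,k8),(k8,k9)],[(k0,k8),(k3,k8),(k6,k8),
    (k9,k9)],[(k0,k6),(k3,k6),(k6,k6),(k9,k7)],[(k1,k6),(k10,k6)],[(k1,k8),(k10,k8)],[(k5,k6),(k11,k6),(k2,k8),(k8,
    k9)],[(k5,k7),(k2,k9),(k11,k9),(k8,k12)],[(k0,k9),(k3,k9),(k6,k9),(k9,k12)],[(k6,k6),(k0,k8),(k3,k8),(k9,k9)],
    [(k4,k6),(k7,k8)]]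
    [] k0
    [[k1,k0,k1,k0,k0,k0],[k1,k1,k1,k0,k0,k0],[k1,k0,k1,k0,k1,k0],[k0,k2,k0,k0,k0,k0],[k0,k1,k0,k0,k1,k0],[k0,k0,k0,k1,
    k0,k1]]
    [.ref k9 k0 [(z1,[z1])],.ref k2 k0 [(z1,[z1])],.ref k1 k0 [(z1,[z1])],.contra [z1],.ref k0 k0 [(z1,[y1,z1])],
    .ref k9 k1 [(z1,[z1])]])]⟩

/-- the certificates of this file -/
noncomputable def lU6_18 : List CertX :=
  [cU6_608, cU6_609, cU6_610, cU6_611, cU6_612, cU6_613, cU6_614, cU6_615, cU6_616, cU6_617, cU6_618, cU6_619,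
      cU6_620, cU6_621, cU6_622, cU6_623, cU6_624, cU6_625, cU6_626, cU6_627, cU6_628, cU6_629, cU6_630,
      cU6_631, cU6_632, cU6_633, cU6_634, cU6_635, cU6_636, cU6_637, cU6_638, cU6_639, cU6_640, cU6_641,
      cU6_642, cU6_643, cU6_644, cU6_645, cU6_646, cU6_647, cU6_648, cU6_649, cU6_650, cU6_651, cU6_652,
      cU6_653, cU6_654, cU6_655, cU6_656, cU6_657, cU6_658, cU6_659, cU6_660, cU6_661, cU6_662, cU6_663,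
      cU6_664, cU6_665, cU6_666, cU6_667, cU6_668, cU6_669, cU6_670, cU6_671, cU6_672, cU6_673, cU6_674,
      cU6_675, cU6_676, cU6_677, cU6_678, cU6_679, cU6_680, cU6_681, cU6_682, cU6_683, cU6_684, cU6_685,
      cU6_686, cU6_687, cU6_688, cU6_689, cU6_690, cU6_691, cU6_692, cU6_693, cU6_694, cU6_695, cU6_696,
      cU6_697]

theorem gU6_18 : allF (chkE 6 ttU6) lU6_18 = true := by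
  decide +kernel

end Pool.Agent.Lib_MP_fa6e45
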