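import Pool.Agent.Lib_MP_fa6e45.CXT
import Pool.Agent.Lib_MP_fa6e45.HK

/-!
MP_fa6e45_co, stage 7: certificates (generated by a program).
-/

namespace Pool.Agent.Lib_MP_fa6e45

/-- classes `0 0 1 0 0 1`, types `B0 B1 B0 B1 B0 B1` -/
noncomputable def cU6_698 : CertX :=
  ⟨[k8,k9,k24,k9,k8,k25],[(false,k0,[k0,k1,k2,k3,k4,k5]),(true,k2,[k2,k1,k0,k5,k4,k3]),(false,k3,[k3,k4,k5,k0,k1,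
    k2])],[[[([z1,z0,z0,z1,z0,z0],z2)],[([z1,z0,z1,z1,z0,z1],z2)],[([z1,z0,z1,z0,z1,z0],z2)],[([z1,z1,z1,z0,z0,z0],
    z2)],[([z1,z0,z1,z0,z0,z0],z1),([z0,z3,z0,z0,z0,z0],z1),([z0,z0,z0,z1,z0,z1],z2)],[([z1,z0,z1,z0,z0,z0],z1),([z0,
    z2,z0,z0,z0,z0],z1),([z0,z0,z0,z1,z0,z1],z2)],[([z1,z0,z1,z0,z0,z0],z1),([z0,z3,z0,z0,z0,z0],z2),([z0,z0,z0,z1,z0,
    z1],z2)],[([z1,z0,z0,z0,y1,y1],y1),([z0,z1,z0,z0,z1,z0],z1),([z0,z0,z1,z0,z1,z1],z2)],[([z1,z0,z1,z0,z0,z0],z1),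
    ([z0,z1,z0,z0,z1,z0],z1)],[([z1,z0,z0,z1,z1,z0],z2),([z0,z1,z0,z0,y1,z0],z0)],[([z1,z0,z0,z0,y1,y1],z0),([z0,z3,
    z0,z0,z0,z0],z2),([z0,z0,z1,z0,z1,z1],z2)],[([z1,z0,z0,z0,y1,y1],z0),([z0,z1,z0,z1,z1,z1],z2)]],[[([z3,z0,z3,z0,
    z0,z0],z2),([z0,z3,z0,z0,z0,z0],z2),([z0,z0,z0,z1,z0,z1],z2)],[([z1,z0,z1,z0,z0,z0],z2),([z0,z3,z0,z0,z0,z0],z2)],
    [([z1,z0,z1,z0,z0,z0],z2)],[([z1,z0,z0,z1,z1,z0],z2)],[]]],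
    [.old (.leafM k6 [k1,k2,k4,k5] [] [(k3,k0,z1,[z1]),(k0,k3,z1,[z1])]),
    .old (.leafM k6 [k2,k3,k5,k0] [] [(k4,k1,z1,[y1,z1]),(k1,k4,z1,[y1,z1])]),
    .old (.leafM k1 [k0,k1,k2,k3,k4,k5] [(z1,[y1,z1]),(z1,[z1])] []),
    .old (.leafM k6 [k0,k1,k2,k3,k4,k5] [(z1,[y1,z1])] []),
    .old (.leafM k11 [k2,k4,k0,k1] [(z1,[y3,y1,y3,z3]),(z1,[z0,z1]),(z1,[z1])] [(k3,k5,z1,[z0,z0,z1]),(k5,k3,z1,[z0,z0,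
    z1])]),
    .old (.leafM k12 [k0,k1,k2,k4] [(z1,[z0,z1]),(z1,[y2,y1,y2,z2]),(z1,[z1])] [(k3,k5,z1,[z0,z0,z1]),(k5,k3,z1,[z0,z0,
    z1])]),
    .old (.leafM k11 [k0,k1,k2,k4] [(z1,[z0,z1]),(z1,[y3,y1,y3,z3]),(z1,[z1])] [(k3,k5,z1,[z0,z0,z1]),(k5,k3,z1,[z0,z0,
    z1])]),
    .old (.lp [(nat_lit 55062),(nat_lit 39330),(nat_lit 23598),(nat_lit 62928),(nat_lit 57960),
    (nat_lit 69920)] [(nat_lit 7429),(nat_lit 7429),(nat_lit 15295),(nat_lit 15295),(nat_lit 23161),(nat_lit 23161),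
    (nat_lit 3496),(nat_lit 3496),(nat_lit 5980),(nat_lit 5980),k0,k0] k0 [[k0,k0,k0,k0,k0,k0,k0,(nat_lit 27360)],[],
    [k0,k0,k0,k0,k0,k0,k0,k0,(nat_lit 6555)],[],[],[],[k0,(nat_lit 27360)],[k0,k0,k0,k0,k0,k0,k0,k0,k0,
    (nat_lit 24840)],[k0,k0,k0,k0,k0,k0,(nat_lit 24840)],[k0,k0,k0,(nat_lit 6555)]] (nat_lit 157320) k6
    [[(k4,(nat_lit 39330)),(k7,(nat_lit 58995))],[(k6,(nat_lit 31635)),(k5,(nat_lit 39330)),(k2,(nat_lit 47196)),(k9,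
    (nat_lit 56511))],[(k5,(nat_lit 31464)),(k2,(nat_lit 39330)),(k6,(nat_lit 51129)),(k9,(nat_lit 76005))],[(k3,
    (nat_lit 39330)),(k0,(nat_lit 47196)),(k11,(nat_lit 48070)),(k8,(nat_lit 48645))],[(k3,(nat_lit 31464)),(k0,
    (nat_lit 39330)),(k11,(nat_lit 46759)),(k8,(nat_lit 47334))],[(k1,(nat_lit 39330)),(k10,(nat_lit 46759))],[(k1,
    (nat_lit 58995)),(k10,(nat_lit 66424))],[(k0,(nat_lit 31635)),(k3,(nat_lit 51129)),(k8,(nat_lit 60444)),(k11,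
    (nat_lit 91264))],[(k8,(nat_lit 33120)),(k0,(nat_lit 56511)),(k11,(nat_lit 63940)),(k3,(nat_lit 76005))],[(k9,
    (nat_lit 33120)),(k5,(nat_lit 47334)),(k2,(nat_lit 48645)),(k6,(nat_lit 60444))],[(k5,(nat_lit 46759)),(k2,
    (nat_lit 48070)),(k9,(nat_lit 63940)),(k6,(nat_lit 91264))],[(k4,(nat_lit 46759)),(k7,(nat_lit 66424))]]
    [] k0
    [[k1,k0,k1,k0,k0,k0],[k1,k1,k1,k0,k0,k0],[k1,k0,k1,k0,k1,k0],[k1,k0,k0,k1,k0,k0],[k0,k2,k0,k0,k0,k0],[k0,k3,k0,k0,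
    k0,k0],[k0,k1,k1,k0,k0,k1],[k0,k1,k0,k0,k1,k0],[k0,k0,k1,k0,k0,k1],[k0,k0,k0,k0,k2,k0],[k0,k0,k0,k0,k3,k0],[k0,k0,
    k0,k0,k4,k0]]
    [.contra [y1,z2,z0,z2],.contra [z1,y1,z0,y1],.contra [z1,y1,z0,y1],.contra [z1,z0,z1,z1,y1],.contra [z1],
    .ref k6 k0 [(z1,[z0,z1,z0,z1]),(z1,[z1]),(z1,[z0,y1,y1,y1,z1])],.ref k5 k0 [(z1,[z0,z1,z0,z1]),(z1,[z1,z0,z1,y1]),
    (z1,[z0,y1,y1,y1,z1])],.contra [y1,z1,z1,z1],.contra [z1,z0,z1,y1],.contra [z1],.ref k4 k0 [(z1,[z0,z1,z0,z1]),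
    (z1,[y1,z0,z3]),(z1,[z0,y1,y1,y1,z1])],.ref k5 k0 [(z1,[z0,z1,z0,z1]),(z2,[y1,z0,z4]),(z1,[z0,y1,y1,y1,z1])]]),
    .old (.lp [k94,k60,k26,k76,k70,k144] [k25,k25,k42,k42,k59,k59,k34,k34,k37,k37,k0,k0] k0 [[k0,k0,k0,k10,k0,k0,k0,k37],
    [],[k0,k10],[k0,k0,k0,k0,k0,k0,k0,k0,k23],[],[],[k0,k37],[k0,k0,k0,k0,k0,k0,k0,k0,k0,k20],[k0,k0,k0,k0,k0,k0,k20],
    [k0,k0,k23]] (nat_lit 240) k6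
    [[(k4,k60),(k7,k85)],[(k6,k48),(k5,k60),(k2,k67),(k9,k82)],[(k5,k53),(k2,k60),(k6,k68),(k9,k102)],[(k3,k60),(k0,
    k67),(k8,k88),(k11,k102)],[(k8,k48),(k3,k53),(k0,k60),(k11,k62)],[(k1,k60),(k10,k85)],[(k1,k85),(k10,k110)],[(k0,
    k48),(k3,k68),(k8,k73),(k11,k130)],[(k8,k50),(k0,k82),(k3,k102),(k11,k107)],[(k5,k48),(k9,k50),(k6,k73),(k2,k88)],
    [(k5,k62),(k2,k102),(k9,k107),(k6,k130)],[(k4,k85),(k7,k110)]]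
    [] k0
    [[k1,k0,k1,k0,k0,k0],[k1,k1,k1,k0,k0,k0],[k1,k0,k1,k0,k1,k0],[k1,k0,k0,k1,k0,k0],[k1,k1,k0,k1,k0,k0],[k0,k2,k0,k0,
    k0,k0],[k0,k3,k0,k0,k0,k0],[k0,k1,k0,k0,k1,k0],[k0,k0,k1,k0,k0,k1],[k0,k0,k0,k0,k2,k0],[k0,k0,k0,k0,k3,k0],[k0,k0,
    k0,k0,k4,k0]]
    [.contra [y1,z2],.contra [z1,y1],.contra [z1,y1],.ref k0 k0 [(z1,[z1])],.ref k7 k0 [(z1,[z1,z1,z0,y1]),(z1,[z0,z0,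
    z1]),(z1,[y1,z0,z0,z1])],.contra [z1],.ref k6 k0 [(z1,[z0,z1]),(z1,[z1]),(z1,[z0,y1,y1,z1])],.contra [y1,z1,z1],
    .ref k0 k1 [(z1,[z1])],.contra [z1],.ref k4 k0 [(z1,[z0,z1]),(z1,[y1,z0,z3]),(z1,[z0,y1,y1,z1])],.ref k5 k0 [(z1,
    [z0,z1]),(z2,[y1,z0,z4]),(z1,[z0,y1,y1,z1])]]),
    .old (.tor k2 false k1 [(z1,[z1]),(z1,[z1,z1]),(z1,[y1,y1,z1]),(z1,[y1,z0,z1])]),
    .old (.lp [k126,k80,k114,k34,k62,k62] [k0,k0,k23,k23,k6,k6,k46,k46,k32,k32,k32,k32] k0 [[k0,k0,k0,k0,k0,k0,k0,k16],[],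
    [k0,k0,k0,k0,k0,k0,k0,k0,k2],[k0,k0,k0,k0,k0,k0,k0,k0,k20],[],[],[k0,k16],[],[],[k0,k0,k20,k2]] (nat_lit 240) k6
    [[(k7,k80),(k4,k120)],[(k6,k64),(k9,k94),(k2,k103),(k5,k120)],[(k6,k57),(k2,k80),(k9,k87),(k5,k97)],[(k11,k69),
    (k3,k80),(k8,k91),(k0,k103)],[(k11,k68),(k8,k90),(k3,k97),(k0,k120)],[(k10,k88),(k1,k120)],[(k10,k48),(k1,k80)],
    [(k8,k48),(k11,k48),(k3,k57),(k0,k64)],[(k8,k62),(k11,k62),(k3,k87),(k0,k94)],[(k6,k48),(k9,k62),(k5,k90),(k2,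
    k91)],[(k6,k48),(k9,k62),(k5,k68),(k2,k69)],[(k7,k48),(k4,k88)]]
    [] k0
    [[k1,k0,k0,k1,k0,k0],[k1,k0,k0,k1,k1,k0],[k0,k2,k0,k0,k0,k0],[k0,k1,k0,k1,k0,k1],[k0,k1,k0,k0,k1,k0],[k0,k0,k1,k0,
    k0,k1],[k0,k0,k0,k1,k0,k1],[k0,k0,k0,k2,k0,k2],[k0,k0,k0,k1,k1,k1],[k0,k0,k0,k1,k2,k1],[k0,k0,k0,k0,k2,k0],[k0,k0,
    k0,k0,k3,k0]]
    [.contra [z1,z0,z1,z1,y1],.ref k9 k0 [(z1,[z1]),(z1,[y1,z0,z0,y1,z1])],.contra [z1],.contra [y1,y1,z0,y1,z1],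
    .contra [y1,y1,z0,y1,z1],.contra [y1,z0,z0,z1],.contra [y1,y1,z0,y1,z1],.ref k8 k2 [(z2,[z1]),(z2,[y1,y2,z0,y2,
    z2])],.contra [z1,z1,z1,z1,y1],.ref k9 k0 [(z1,[z1,z1]),(z1,[y1,y1,z0,y1,z1])],.contra [z1],.ref k9 k0 [(z3,[z1,
    z0,y1,y3,z3]),(z3,[y1,z0,z1])]]),
    .old (.lp [k128,k94,k80,k16,k80,k80] [k0,k0,k17,k17,k24,k24,k56,k56,k24,k24,k24,k24] k0 [[k0,k0,k0,k0,k0,k0,k50],[k0,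
    k0,k0,k32],[k32],[k0,k0,k0,k0,k0,k0,k0,k0,k4],[],[],[],[k0,k50],[],[k0,k0,k4]] (nat_lit 240) k6
    [[(k7,k72),(k4,k104)],[(k9,k54),(k6,k72),(k2,k111),(k5,k136)],[(k2,k62),(k5,k87),(k9,k87),(k6,k105)],[(k3,k62),
    (k11,k87),(k8,k91),(k0,k111)],[(k11,k76),(k8,k80),(k3,k87),(k0,k136)],[(k10,k80),(k1,k104)],[(k10,k48),(k1,k72)],
    [(k8,k48),(k11,k48),(k0,k72),(k3,k105)],[(k0,k54),(k8,k80),(k11,k80),(k3,k87)],[(k6,k48),(k5,k80),(k9,k80),(k2,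
    k91)],[(k6,k48),(k5,k76),(k9,k80),(k2,k87)],[(k7,k48),(k4,k80)]]
    [] k0
    [[k1,k0,k1,k0,k1,k0],[k1,k0,k0,k1,k0,k0],[k1,k0,k0,k1,k1,k0],[k0,k2,k0,k0,k0,k0],[k0,k3,k0,k0,k0,k0],[k0,k1,k0,k0,
    k1,k0],[k0,k0,k1,k0,k0,k1],[k0,k0,k0,k1,k0,k1],[k0,k0,k0,k2,k0,k2],[k0,k0,k0,k1,k1,k1],[k0,k0,k0,k0,k2,k0]]
    [.contra [z1,z0,z1,y1],.contra [y1,z1,z1],.ref k9 k0 [(z1,[z1]),(z1,[y1,z1,z1])],.contra [z1],.ref k10 k0 [(z1,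
    [z0,z1]),(z1,[z1]),(z1,[z0,y1,y1,z1])],.contra [y1,z0,z1],.contra [y1,y1,y1,z1],.contra [y1,z0,z1],
    .ref k8 k2 [(z2,[z1]),(z2,[y1,z0,z2])],.contra [y1,z0,z1],.contra [z1]]),
    .old (.leafM k10 [k0,k1,k2,k4] [(z1,[z0,z1]),(z1,[y1,y1,y3,z3]),(z1,[z1])] [(k3,k5,z1,[z0,z0,z1]),(k5,k3,z1,[z0,z0,
    z1])]),
    .old (.lp [k144,k82,k94,k34,k62,k62] [k0,k0,k31,k31,k25,k25,k55,k55,k41,k41,k41,k41] k0 [[k0,k0,k0,k2,k0,k0,k0,k34],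
    [k0,k0,k0,k2],[k2,k2],[],[],[],[k0,k34]] (nat_lit 240) k6
    [[(k7,k89),(k4,k119)],[(k6,k55),(k9,k103),(k2,k111),(k5,k121)],[(k6,k58),(k2,k80),(k5,k90),(k9,k106)],[(k8,k72),
    (k11,k72),(k3,k80),(k0,k111)],[(k8,k78),(k11,k78),(k3,k90),(k0,k121)],[(k10,k78),(k1,k119)],[(k10,k48),(k1,k89)],
    [(k8,k48),(k11,k48),(k0,k55),(k3,k58)],[(k8,k62),(k11,k62),(k0,k103),(k3,k106)],[(k6,k48),(k9,k62),(k2,k72),(k5,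
    k78)],[(k6,k48),(k9,k62),(k2,k72),(k5,k78)],[(k7,k48),(k4,k78)]]
    [] k0
    [[k1,k0,k0,k1,k0,k0],[k0,k2,k0,k0,k0,k0],[k0,k1,k0,k1,k0,k1],[k0,k1,k0,k0,k1,k0],[k0,k0,k1,k0,k1,k1],[k0,k0,k1,k0,
    k0,k1],[k0,k0,k0,k1,k0,k1],[k0,k0,k0,k2,k0,k2],[k0,k0,k0,k1,k1,k1],[k0,k0,k0,k1,k2,k1],[k0,k0,k0,k0,k2,k0],[k0,k0,
    k0,k0,k3,k0]]
    [.ref k0 k0 [(z1,[z1])],.contra [z1],.contra [y1,y1,z0,z1],.contra [y1,y1,z0,z1],.ref k11 k0 [(z1,[y1,z1]),(z1,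
    [z0,y1,z0,z1])],.ref k0 k1 [(z1,[z1])],.contra [y1,y1,z0,z1],.ref k8 k2 [(z2,[z1]),(z2,[y1,y2,z0,z2])],
    .contra [z1,z1,z1,y1],.ref k12 k2 [(z1,[y3,y6,y2,z6]),(z1,[z3,z3,z1,y3]),(z1,[z0,z1])],.contra [z1],
    .ref k12 k2 [(z1,[y1,y3,y1,z3]),(z1,[z1]),(z1,[z0,z1])]]),
    .old (.lp [k144,k82,k76,k16,k80,k80] [k0,k0,k31,k31,k34,k34,k64,k64,k32,k32,k32,k32] k0 [[k0,k0,k0,k2,k0,k0,k0,k16],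
    [k0,k0,k0,k20],[k20,k2],[],[],[],[k0,k16]] (nat_lit 240) k6
    [[(k7,k80),(k4,k110)],[(k6,k64),(k2,k111),(k9,k112),(k5,k130)],[(k6,k49),(k2,k62),(k5,k81),(k9,k97)],[(k3,k62),
    (k8,k81),(k11,k81),(k0,k111)],[(k8,k78),(k11,k78),(k3,k81),(k0,k130)],[(k10,k78),(k1,k110)],[(k10,k48),(k1,k80)],
    [(k8,k48),(k11,k48),(k3,k49),(k0,k64)],[(k8,k80),(k11,k80),(k3,k97),(k0,k112)],[(k6,k48),(k5,k78),(k9,k80),(k2,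
    k81)],[(k6,k48),(k5,k78),(k9,k80),(k2,k81)],[(k7,k48),(k4,k78)]]
    [] k0
    [[k1,k0,k0,k1,k0,k0],[k0,k2,k0,k0,k0,k0],[k0,k3,k0,k0,k0,k0],[k0,k1,k0,k1,k0,k1],[k0,k1,k0,k0,k1,k0],[k0,k0,k1,k0,
    k1,k1],[k0,k0,k1,k0,k0,k1],[k0,k0,k0,k1,k0,k1],[k0,k0,k0,k2,k0,k2],[k0,k0,k0,k1,k1,k1],[k0,k0,k0,k0,k2,k0]]
    [.ref k0 k0 [(z1,[z1])],.contra [z1],.ref k13 k0 [(z1,[z0,z1]),(z1,[z1])],.contra [y1,y1,z1],.contra [y1,y1,z1],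
    .ref k11 k0 [(z1,[y1,z1]),(z1,[z0,y1,z1])],.ref k0 k1 [(z1,[z1])],.contra [y1,y1,z1],.ref k8 k2 [(z2,[z1]),(z2,
    [y1,y2,z2])],.contra [y1,y1,z1],.contra [z1]]),
    .old (.lp [k10,k10,k2,k2,k12,k10] [k1,k1,k1,k1,k5,k5,k5,k5,k0,k0,k1,k1] k0 [[k0,k0,k0,k2],[],[k0,k2]] k24 k5
    [[(k4,k6),(k7,k6)],[(k5,k6),(k6,k6),(k2,k8),(k9,k11)],[(k6,k6),(k5,k8),(k2,k10),(k9,k11)],[(k0,k8),(k3,k10),(k11,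
    k10),(k8,k11)],[(k0,k6),(k11,k6),(k8,k7),(k3,k8)],[(k1,k6),(k10,k6)],[(k1,k6),(k10,k6)],[(k0,k6),(k3,k6),(k11,k6),
    (k8,k7)],[(k0,k11),(k3,k11),(k11,k11),(k8,k12)],[(k5,k7),(k6,k7),(k2,k11),(k9,k12)],[(k5,k6),(k6,k6),(k2,k10),(k9,
    k11)],[(k4,k6),(k7,k6)]]
    [] k0
    [[k1,k0,k1,k0,k0,k0],[k1,k1,k1,k0,k0,k0],[k1,k0,k0,k1,k0,k0],[k1,k1,k0,k1,k0,k0],[k0,k2,k0,k0,k0,k0],[k0,k1,k0,k1,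
    k0,k1],[k0,k1,k0,k0,k1,k0],[k0,k0,k1,k0,k0,k1],[k0,k0,k0,k1,k0,k1]]
    [.ref k14 k0 [(z1,[z1])],.ref k3 k0 [(z1,[z1])],.contra [y1,z1],.ref k9 k0 [(z1,[z0,z1]),(z1,[z1,y1])],
    .contra [z1],.ref k2 k0 [(z1,[y1,z0,z1])],.ref k1 k0 [(z1,[y1,z0,z1])],.contra [y1,y1,z1],.ref k14 k2 [(z1,
    [z1])]]),
    .old (.lp [k10,k10,k2,k2,k12,k10] [k1,k1,k1,k1,k5,k5,k5,k5,k0,k0,k1,k1] k0 [[k0,k0,k0,k2],[],[k0,k2]] k24 k5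
    [[(k4,k6),(k7,k6)],[(k5,k6),(k6,k6),(k2,k8),(k9,k11)],[(k6,k6),(k5,k8),(k2,k10),(k9,k11)],[(k0,k8),(k3,k10),(k11,
    k10),(k8,k11)],[(k0,k6),(k11,k6),(k8,k7),(k3,k8)],[(k1,k6),(k10,k6)],[(k1,k6),(k10,k6)],[(k0,k6),(k3,k6),(k11,k6),
    (k8,k7)],[(k0,k11),(k3,k11),(k11,k11),(k8,k12)],[(k5,k7),(k6,k7),(k2,k11),(k9,k12)],[(k5,k6),(k6,k6),(k2,k10),(k9,
    k11)],[(k4,k6),(k7,k6)]]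
    [] k0
    [[k1,k0,k1,k0,k0,k0],[k1,k1,k1,k0,k0,k0],[k1,k0,k0,k1,k0,k0],[k1,k1,k0,k1,k0,k0],[k0,k2,k0,k0,k0,k0],[k0,k1,k0,k1,
    k0,k1],[k0,k1,k0,k0,k1,k0],[k0,k0,k1,k0,k0,k1],[k0,k0,k0,k1,k0,k1]]
    [.ref k14 k0 [(z1,[z1])],.ref k3 k0 [(z1,[z1])],.ref k0 k0 [(z1,[z1])],.ref k15 k2 [(z1,[z1])],.contra [z1],
    .ref k2 k0 [(z1,[y1,z1])],.ref k1 k0 [(z1,[y1,z1])],.ref k0 k1 [(z1,[z1])],.ref k14 k2 [(z1,[z1])]])]⟩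

/-- classes `0 0 1 0 0 1`, types `B0 B1 C0 B0 B1 C0` -/
noncomputable def cU6_699 : CertX :=
  ⟨[k8,k9,k20,k8,k9,k20],[(false,k0,[k0,k1,k2,k3,k4,k5]),(true,k2,[k2,k1,k0,k5,k4,k3]),(false,k3,[k3,k4,k5,k0,k1,
    k2])],[[[([z1,z0,z0,z0,z0,z1],z2)],[([z1,z0,z1,z1,z0,z1],z2)],[([z1,z0,z1,z0,z1,z0],z2)],[([z1,z1,z1,z0,z0,z0],
    z2)],[([z1,z0,z1,z0,z0,z0],z1),([z0,z3,z0,z0,z0,z0],z1),([z0,z0,z0,z1,z0,z1],z2)],[([z1,z0,z1,z0,z0,z0],z1),([z0,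
    z2,z0,z0,z0,z0],z1),([z0,z0,z0,z1,z0,z1],z2)],[([z1,z0,z1,z0,z0,z0],z1),([z0,z3,z0,z0,z0,z0],z2),([z0,z0,z0,z1,z0,
    z1],z2)],[([z1,z0,z0,z0,y1,z1],z1),([z0,z1,z0,z0,z1,z0],z1),([z0,z0,z1,z0,z1,y1],z0)],[([z1,z0,z1,z0,z0,z0],z1),
    ([z0,z1,z0,z0,z1,z0],z1)],[([z3,z0,z3,z0,z0,z0],z2),([z0,z3,z0,z0,z0,z0],z2),([z0,z0,z0,z1,z0,z1],z2)],[([z3,z0,
    z0,z0,z0,z3],z4),([z0,z3,z0,z0,z0,z0],z2),([z0,z0,z3,z0,z0,y3],z2)],[([z1,z0,z1,z0,z0,z0],z2),([z0,z3,z0,z0,z0,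
    z0],z2)]],[[([z1,z0,z0,z0,z1,z1],z2),([z0,z1,z0,z0,y1,z0],z0)],[([z1,z0,z0,y1,y1,z0],z0),([z0,z1,z0,z1,z1,z1],
    z2)],[([z1,z0,z1,z0,z0,z0],z2)],[([z1,z0,z0,z0,z1,z1],z2)],[]]],
    [.old (.leafM k2 [k2,k3,k4,k1] [] [(k5,k0,z1,[z1]),(k0,k5,z1,[z1])]),
    .old (.leafM k5 [k0,k2,k3,k5] [] [(k1,k4,z1,[y1,z1]),(k4,k1,z1,[y1,z1])]),
    .old (.leafM k5 [k1,k2,k3,k4,k5,k0] [(z1,[z1]),(z1,[y1,z1])] []),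
    .old (.leafM k6 [k0,k1,k2,k3,k4,k5] [(z1,[y1,z1])] []),
    .old (.leafM k11 [k2,k4,k0,k1] [(z1,[y3,y1,y3,z3]),(z1,[z0,z1]),(z1,[z1])] [(k3,k5,z1,[z0,z0,z1]),(k5,k3,z1,[z0,z0,
    z1])]),
    .old (.leafM k12 [k0,k1,k2,k4] [(z1,[z0,z1]),(z1,[y2,y1,y2,z2]),(z1,[z1])] [(k3,k5,z1,[z0,z0,z1]),(k5,k3,z1,[z0,z0,
    z1])]),
    .old (.leafM k11 [k0,k1,k2,k4] [(z1,[z0,z1]),(z1,[y3,y1,y3,z3]),(z1,[z1])] [(k3,k5,z1,[z0,z0,z1]),(k5,k3,z1,[z0,z0,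
    z1])]),
    .old (.lp [k4,k20,k20,k14,k26,k35] [k17,k17,k9,k9,k9,k9,k12,k12,k6,k6,k3,k0] k0 [[k0,k0,k0,k0,k0,k0,k0,k0,k9,k1],[k0,
    k0,k0,k7],[k7],[k0,k0,k0,k0,k0,k0,k0,k5],[],[],[k0,k0,k5],[k0,k0,k0,k0,k0,k0,k0,k0,k0,k11],[k0,k1,k0,k0,k0,k0,
    k11],[k0,k9]] k60 k6
    [[(k4,k12),(k10,k18)],[(k2,k12),(k11,k12),(k8,k14),(k5,k19)],[(k2,k13),(k5,k20),(k11,k30),(k8,k32)],[(k0,k12),(k3,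
    k13),(k6,k17),(k9,k28)],[(k6,k12),(k0,k19),(k3,k20),(k9,k23)],[(k1,k12),(k7,k17)],[(k4,k17),(k10,k23)],[(k5,k12),
    (k2,k17),(k8,k20),(k11,k37)],[(k8,k15),(k5,k23),(k2,k28),(k11,k32)],[(k0,k14),(k9,k15),(k6,k20),(k3,k32)],[(k0,
    k12),(k3,k30),(k9,k32),(k6,k37)],[(k1,k18),(k7,k23)]]
    [] k0
    [[k1,k0,k1,k0,k0,k0],[k1,k1,k1,k0,k0,k0],[k1,k2,k1,k0,k0,k0],[k1,k0,k1,k1,k0,k1],[k1,k0,k1,k0,k1,k0],[k1,k0,k0,k0,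
    k0,k1],[k0,k2,k0,k0,k0,k0],[k0,k3,k0,k0,k0,k0],[k0,k4,k0,k0,k0,k0],[k0,k1,k1,k1,k0,k0],[k0,k0,k1,k1,k0,k0],[k0,k0,
    k2,k2,k0,k0],[k0,k0,k0,k0,k2,k0],[k0,k0,k0,k0,k3,k0]]
    [.contra [y1,z2,z0,z2],.contra [z1,y1,z0,y1],.ref k5 k0 [(z1,[z0,z1,z0,z1]),(z1,[z1,y1,z0,y1]),(z1,[z0,y1,y1,y1,
    z1])],.contra [z1,z1,z1,z1,y1],.contra [z1,y1,z0,y1],.contra [z1,y1],.contra [z1],.ref k6 k0 [(z1,[z0,z1,z0,z1]),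
    (z1,[z1]),(z1,[z0,y1,y1,y1,z1])],.ref k5 k0 [(z1,[z0,z1,z0,z1]),(z2,[z1]),(z1,[z0,y1,y1,y1,z1])],.ref k5 k0 [(z1,
    [z0,z1,z0,z1]),(z1,[z1,z1,z2,z0,y1]),(z1,[z0,y1,y1,y1,z1])],.contra [z1,z1,z2,z0,y1],.contra [y1,y2,y2,z0,z2],
    .contra [z1],.ref k4 k0 [(z1,[z0,z1,z0,z1]),(z1,[y1,z0,z3]),(z1,[z0,y1,y1,y1,z1])]]),
    .old (.lp [(nat_lit 954),(nat_lit 1590),(nat_lit 2226),(nat_lit 2280),(nat_lit 1590),(nat_lit 3816)] [(nat_lit 1431),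
    (nat_lit 1431),(nat_lit 1113),(nat_lit 1113),(nat_lit 795),(nat_lit 795),(nat_lit 768),(nat_lit 768),
    (nat_lit 1113),(nat_lit 1113),k0,k0] k0 [[k0,k0,k0,k0,k0,k0,k0,k0,(nat_lit 1113)],[],[k0,k0,k0,k0,k0,k0,k0,
    (nat_lit 265)],[k0,k0,k0,k0,k0,k0,k0,(nat_lit 742)],[],[],[k0,k0,(nat_lit 742),(nat_lit 265)],[k0,k0,k0,k0,k0,k0,
    k0,k0,k0,(nat_lit 265)],[k0,k0,k0,k0,k0,k0,(nat_lit 265)],[k0,(nat_lit 1113)]] (nat_lit 6360) k6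
    [[(k4,(nat_lit 1590)),(k10,(nat_lit 2385))],[(k2,(nat_lit 1272)),(k8,(nat_lit 1272)),(k11,(nat_lit 1272)),(k5,
    (nat_lit 1590))],[(k2,(nat_lit 1590)),(k5,(nat_lit 1908)),(k8,(nat_lit 2703)),(k11,(nat_lit 2703))],[(k0,
    (nat_lit 1272)),(k3,(nat_lit 1590)),(k6,(nat_lit 1670)),(k9,(nat_lit 2332))],[(k6,(nat_lit 1511)),(k0,
    (nat_lit 1590)),(k3,(nat_lit 1908)),(k9,(nat_lit 2173))],[(k1,(nat_lit 1590)),(k7,(nat_lit 2253))],[(k4,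
    (nat_lit 2253)),(k10,(nat_lit 3048))],[(k5,(nat_lit 1511)),(k2,(nat_lit 1670)),(k8,(nat_lit 1935)),(k11,
    (nat_lit 3313))],[(k8,(nat_lit 1325)),(k5,(nat_lit 2173)),(k2,(nat_lit 2332)),(k11,(nat_lit 2703))],[(k0,
    (nat_lit 1272)),(k9,(nat_lit 1325)),(k6,(nat_lit 1935)),(k3,(nat_lit 2703))],[(k0,(nat_lit 1272)),(k3,
    (nat_lit 2703)),(k9,(nat_lit 2703)),(k6,(nat_lit 3313))],[(k1,(nat_lit 2385)),(k7,(nat_lit 3048))]]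
    [] k0
    [[k1,k0,k1,k0,k0,k0],[k1,k1,k1,k0,k0,k0],[k1,k0,k1,k0,k1,k0],[k1,k0,k0,k0,k0,k1],[k0,k2,k0,k0,k0,k0],[k0,k3,k0,k0,
    k0,k0],[k0,k1,k1,k1,k0,k0],[k0,k1,k0,k0,k1,k0],[k0,k0,k1,k1,k0,k0],[k0,k0,k0,k0,k2,k0],[k0,k0,k0,k0,k3,k0],[k0,k0,
    k0,k0,k4,k0]]
    [.contra [y1,z2],.contra [z1,y1],.contra [z1,y1],.ref k0 k0 [(z1,[z1])],.contra [z1],.ref k6 k0 [(z1,[z0,z1]),(z1,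
    [z1]),(z1,[z0,y1,y1,z1])],.ref k7 k1 [(z1,[z1,z0,y1]),(z1,[z0,z0,z1]),(z1,[y1,z1,z1])],.contra [y1,z1,z1],
    .ref k0 k2 [(z1,[z1])],.contra [z1],.ref k4 k0 [(z1,[z0,z1]),(z1,[y1,z0,z3]),(z1,[z0,y1,y1,z1])],.ref k5 k0 [(z1,
    [z0,z1]),(z2,[y1,z0,z4]),(z1,[z0,y1,y1,z1])]]),
    .old (.leafM k10 [k0,k1,k2,k4] [(z1,[z0,z1]),(z1,[y1,y1,y3,z3]),(z1,[z1])] [(k3,k5,z1,[z0,z0,z1]),(k5,k3,z1,[z0,z0,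
    z1])]),
    .old (.lp [k98,k80,k142,k34,k62,k62] [k22,k22,k31,k31,k0,k0,k54,k54,k40,k40,k40,k40] k0 [[k0,k0,k0,k0,k0,k0,k0,k0,
    k16],[],[k0,k0,k0,k0,k0,k0,k0,k2],[k0,k0,k0,k0,k0,k0,k0,k20],[],[],[k0,k0,k20,k2],[],[],[k0,k16]] (nat_lit 240) k6
    [[(k10,k80),(k4,k120)],[(k11,k64),(k8,k80),(k2,k89),(k5,k120)],[(k11,k71),(k2,k80),(k8,k87),(k5,k111)],[(k6,k55),
    (k3,k80),(k0,k89),(k9,k91)],[(k6,k68),(k9,k104),(k3,k111),(k0,k120)],[(k7,k88),(k1,k120)],[(k10,k48),(k4,k88)],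
    [(k8,k48),(k11,k48),(k2,k55),(k5,k68)],[(k8,k62),(k11,k62),(k2,k91),(k5,k104)],[(k6,k48),(k9,k62),(k0,k80),(k3,
    k87)],[(k6,k48),(k9,k62),(k0,k64),(k3,k71)],[(k7,k48),(k1,k80)]]
    [] k0
    [[k1,k0,k0,k0,k0,k1],[k1,k0,k0,k0,k1,k1],[k0,k2,k0,k0,k0,k0],[k0,k1,k0,k0,k1,k0],[k0,k1,k0,k1,k0,k1],[k0,k0,k1,k1,
    k0,k0],[k0,k0,k0,k1,k0,k1],[k0,k0,k0,k2,k0,k2],[k0,k0,k0,k1,k1,k1],[k0,k0,k0,k1,k2,k1],[k0,k0,k0,k0,k2,k0],[k0,k0,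
    k0,k0,k3,k0]]
    [.contra [z3,y1,z2],.ref k9 k2 [(z1,[y3,z0,y1,y1,z3]),(z1,[z3,y1]),(z3,[z0,z1,z0,z1])],.contra [z1],.contra [y3,
    y1,z0,y1,z3],.contra [y3,y1,z0,y1,z3],.contra [y3,y1,y1,z0,z3],.contra [y3,y1,z0,y1,z3],.ref k8 k2 [(z2,[z1]),(z6,
    [y3,y2,z0,y2,z6])],.contra [z3,z1,z3,z1,y3],.ref k9 k2 [(z1,[y3,y2,y2,y2,z6]),(z1,[z3,z1,z1,z1,y3]),(z3,[z0,z1,z0,
    z1])],.contra [z1],.ref k9 k2 [(z1,[y1,y1,y1,y1,z3]),(z1,[z1]),(z3,[z0,z1,z0,z1])]]),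
    .old (.lp [k98,k80,k142,k34,k62,k62] [k22,k22,k31,k31,k0,k0,k54,k54,k40,k40,k40,k40] k0 [[k0,k0,k0,k0,k0,k0,k0,k0,
    k16],[],[k0,k0,k0,k0,k0,k0,k0,k2],[k0,k0,k0,k0,k0,k0,k0,k20],[],[],[k0,k0,k20,k2],[],[],[k0,k16]] (nat_lit 240) k6
    [[(k10,k80),(k4,k120)],[(k11,k64),(k8,k80),(k2,k89),(k5,k120)],[(k11,k71),(k2,k80),(k8,k87),(k5,k111)],[(k6,k55),
    (k3,k80),(k0,k89),(k9,k91)],[(k6,k68),(k9,k104),(k3,k111),(k0,k120)],[(k7,k88),(k1,k120)],[(k10,k48),(k4,k88)],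
    [(k8,k48),(k11,k48),(k2,k55),(k5,k68)],[(k8,k62),(k11,k62),(k2,k91),(k5,k104)],[(k6,k48),(k9,k62),(k0,k80),(k3,
    k87)],[(k6,k48),(k9,k62),(k0,k64),(k3,k71)],[(k7,k48),(k1,k80)]]
    [] k0
    [[k1,k0,k0,k0,k0,k1],[k1,k0,k0,k0,k1,k1],[k0,k2,k0,k0,k0,k0],[k0,k1,k0,k0,k1,k0],[k0,k1,k0,k1,k0,k1],[k0,k0,k1,k1,
    k0,k0],[k0,k0,k0,k1,k0,k1],[k0,k0,k0,k2,k0,k2],[k0,k0,k0,k1,k1,k1],[k0,k0,k0,k1,k2,k1],[k0,k0,k0,k0,k2,k0],[k0,k0,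
    k0,k0,k3,k0]]
    [.ref k0 k0 [(z1,[z1])],.ref k10 k1 [(z1,[y3,z0,y1,z3]),(z1,[z0,z0,z1]),(z1,[z3,z3,z1,y3])],.contra [z1],
    .contra [y1,y1,z0,z1],.contra [y1,y1,z0,z1],.ref k0 k2 [(z1,[z1])],.contra [y1,y1,z0,z1],.ref k8 k2 [(z2,[z1]),
    (z2,[y1,y2,z0,z2])],.contra [z1,z1,z1,y1],.ref k9 k2 [(z1,[y3,y6,y2,z6]),(z1,[z3,z3,z1,y3]),(z1,[z0,z1])],
    .contra [z1],.ref k9 k2 [(z1,[y1,y3,y1,z3]),(z1,[z1]),(z1,[z0,z1])]]),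
    .old (.tor k10 false k0 [(z1,[y1,y1,z1]),(z1,[y1,z0,z1]),(z1,[z1]),(z1,[z1,z1])]),
    .old (.lp [k78,k80,k144,k16,k80,k80] [k33,k33,k32,k32,k0,k0,k64,k64,k32,k32,k32,k32] k0 [[k0,k0,k0,k0,k0,k0,k0,k0,k14,
    k2],[k0,k0,k0,k18],[k18],[k0,k0,k0,k0,k0,k0,k0,k4],[],[],[k0,k0,k4],[],[k0,k2],[k0,k14]] (nat_lit 240) k6
    [[(k10,k79),(k4,k111)],[(k11,k65),(k8,k77),(k2,k79),(k5,k129)],[(k2,k62),(k11,k82),(k8,k94),(k5,k112)],[(k6,k48),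
    (k3,k62),(k0,k79),(k9,k84)],[(k6,k76),(k3,k112),(k9,k112),(k0,k129)],[(k7,k80),(k1,k111)],[(k10,k48),(k4,k80)],
    [(k2,k48),(k8,k48),(k11,k48),(k5,k76)],[(k8,k80),(k11,k80),(k2,k84),(k5,k112)],[(k6,k48),(k0,k77),(k9,k80),(k3,
    k94)],[(k6,k48),(k0,k65),(k9,k80),(k3,k82)],[(k7,k48),(k1,k79)]]
    [] k0
    [[k1,k0,k0,k0,k0,k1],[k1,k0,k0,k0,k1,k1],[k0,k2,k0,k0,k0,k0],[k0,k3,k0,k0,k0,k0],[k0,k1,k0,k0,k1,k0],[k0,k1,k0,k1,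
    k0,k1],[k0,k0,k1,k1,k0,k0],[k0,k0,k0,k1,k0,k1],[k0,k0,k0,k2,k0,k2],[k0,k0,k0,k1,k1,k1],[k0,k0,k0,k0,k2,k0]]
    [.contra [y1,z1,z1],.ref k12 k0 [(z1,[z1]),(z1,[y1,z1,z1])],.contra [z1],.ref k11 k0 [(z1,[z0,z0,y1,z1]),(z1,
    [z1])],.contra [y1,z0,z1],.contra [y1,z0,z1],.contra [y1,y1,y1,z1],.contra [y1,z0,z1],.ref k8 k2 [(z2,[z1]),(z2,
    [y1,z0,z2])],.contra [y1,z0,z1],.contra [z1]]),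
    .old (.lp [k78,k80,k144,k16,k80,k80] [k33,k33,k32,k32,k0,k0,k64,k64,k32,k32,k32,k32] k0 [[k0,k0,k0,k0,k0,k0,k0,k0,k14,
    k2],[k0,k0,k0,k18],[k18],[k0,k0,k0,k0,k0,k0,k0,k4],[],[],[k0,k0,k4],[],[k0,k2],[k0,k14]] (nat_lit 240) k6
    [[(k10,k79),(k4,k111)],[(k11,k65),(k8,k77),(k2,k79),(k5,k129)],[(k2,k62),(k11,k82),(k8,k94),(k5,k112)],[(k6,k48),
    (k3,k62),(k0,k79),(k9,k84)],[(k6,k76),(k3,k112),(k9,k112),(k0,k129)],[(k7,k80),(k1,k111)],[(k10,k48),(k4,k80)],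
    [(k2,k48),(k8,k48),(k11,k48),(k5,k76)],[(k8,k80),(k11,k80),(k2,k84),(k5,k112)],[(k6,k48),(k0,k77),(k9,k80),(k3,
    k94)],[(k6,k48),(k0,k65),(k9,k80),(k3,k82)],[(k7,k48),(k1,k79)]]
    [] k0
    [[k1,k0,k0,k0,k0,k1],[k1,k0,k0,k0,k1,k1],[k0,k2,k0,k0,k0,k0],[k0,k3,k0,k0,k0,k0],[k0,k1,k0,k0,k1,k0],[k0,k1,k0,k1,
    k0,k1],[k0,k0,k1,k1,k0,k0],[k0,k0,k0,k1,k0,k1],[k0,k0,k0,k2,k0,k2],[k0,k0,k0,k1,k1,k1],[k0,k0,k0,k0,k2,k0]]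
    [.ref k0 k0 [(z1,[z1])],.ref k13 k1 [(z1,[y1,z1]),(z1,[z0,y1,z1])],.contra [z1],.ref k11 k0 [(z1,[z0,z1]),(z1,
    [z1])],.contra [y1,y1,z1],.contra [y1,y1,z1],.ref k0 k2 [(z1,[z1])],.contra [y1,y1,z1],.ref k8 k2 [(z2,[z1]),(z2,
    [y1,y2,z2])],.contra [y1,y1,z1],.contra [z1]]),
    .old (.lp [k2,k10,k10,k2,k10,k12] [k6,k6,k2,k2,k2,k2,k6,k6,k2,k2,k2,k0] k0 [[],[],[],[k0,k0,k0,k0,k0,k0,k2],[],[],[k0,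
    k0,k0,k0,k0,k0,k0,k0,k2],[k0,k0,k2],[],[k0,k0,k0,k0,k0,k0,k0,k2]] k24 k5
    [[(k4,k6),(k10,k6)],[(k2,k6),(k5,k6),(k8,k6),(k11,k8)],[(k2,k10),(k5,k10),(k8,k10),(k11,k12)],[(k0,k6),(k6,k8),
    (k3,k10),(k9,k10)],[(k0,k6),(k6,k6),(k9,k8),(k3,k10)],[(k1,k6),(k7,k6)],[(k4,k6),(k10,k6)],[(k5,k6),(k8,k6),(k11,
    k6),(k2,k8)],[(k5,k8),(k2,k10),(k8,k12),(k11,k12)],[(k0,k6),(k6,k6),(k3,k10),(k9,k12)],[(k6,k6),(k0,k8),(k3,k12),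
    (k9,k12)],[(k1,k6),(k7,k6)]]
    [] k0
    [[k1,k0,k1,k0,k0,k0],[k1,k1,k1,k0,k0,k0],[k1,k0,k1,k0,k1,k0],[k1,k0,k0,k0,k0,k1],[k0,k2,k0,k0,k0,k0],[k0,k1,k0,k0,
    k1,k0],[k0,k0,k1,k1,k0,k0],[k0,k0,k1,k1,k1,k0],[k0,k0,k0,k1,k0,k1]]
    [.ref k14 k0 [(z1,[z1])],.ref k3 k0 [(z1,[z1])],.ref k2 k0 [(z1,[z1])],.contra [y1,z1],.contra [z1],
    .ref k1 k0 [(z1,[y1,z0,z1])],.contra [y1,y1,z1],.ref k12 k0 [(z1,[z0,z1]),(z1,[y1,y1,z1])],.ref k14 k2 [(z1,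
    [z1])]]),
    .old (.lp [k2,k10,k10,k2,k10,k12] [k6,k6,k2,k2,k2,k2,k6,k6,k2,k2,k2,k0] k0 [[],[],[],[k0,k0,k0,k0,k0,k0,k2],[],[],[k0,
    k0,k0,k0,k0,k0,k0,k0,k2],[k0,k0,k2],[],[k0,k0,k0,k0,k0,k0,k0,k2]] k24 k5
    [[(k4,k6),(k10,k6)],[(k2,k6),(k5,k6),(k8,k6),(k11,k8)],[(k2,k10),(k5,k10),(k8,k10),(k11,k12)],[(k0,k6),(k6,k8),
    (k3,k10),(k9,k10)],[(k0,k6),(k6,k6),(k9,k8),(k3,k10)],[(k1,k6),(k7,k6)],[(k4,k6),(k10,k6)],[(k5,k6),(k8,k6),(k11,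
    k6),(k2,k8)],[(k5,k8),(k2,k10),(k8,k12),(k11,k12)],[(k0,k6),(k6,k6),(k3,k10),(k9,k12)],[(k6,k6),(k0,k8),(k3,k12),
    (k9,k12)],[(k1,k6),(k7,k6)]]
    [] k0
    [[k1,k0,k1,k0,k0,k0],[k1,k1,k1,k0,k0,k0],[k1,k0,k1,k0,k1,k0],[k1,k0,k0,k0,k0,k1],[k0,k2,k0,k0,k0,k0],[k0,k1,k0,k0,
    k1,k0],[k0,k0,k1,k1,k0,k0],[k0,k0,k1,k1,k1,k0],[k0,k0,k0,k1,k0,k1]]
    [.ref k14 k0 [(z1,[z1])],.ref k3 k0 [(z1,[z1])],.ref k2 k0 [(z1,[z1])],.ref k0 k0 [(z1,[z1])],.contra [z1],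
    .ref k1 k0 [(z1,[y1,z1])],.ref k0 k2 [(z1,[z1])],.ref k15 k1 [(z1,[z1])],.ref k14 k2 [(z1,[z1])]])]⟩

/-- classes `0 0 1 0 0 1`, types `B0 B1 C0 B0 B1 C2` -/
noncomputable def cU6_700 : CertX :=
  ⟨[k8,k9,k20,k8,k9,k22],[(false,k0,[k0,k1,k2,k3,k4,k5]),(true,k2,[k2,k1,k0,k5,k4,k3]),(false,k3,[k3,k4,k5,k0,k1,
    k2])],[[[([z1,z0,z0,z0,z0,z1],z2)],[([z1,z0,z1,z1,z0,z1],z2)],[([z1,z0,z0,z0,z1,z1],z2),([z0,z1,z0,z0,y1,z0],z0)],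
    [([z1,z0,z0,z0,z1,z1],z2)],[]]],
    [.old (.leafM k2 [k2,k3,k4,k1] [] [(k5,k0,z1,[z1]),(k0,k5,z1,[z1])]),
    .old (.leafM k6 [k0,k2,k3,k5] [] [(k1,k4,z1,[y1,z1]),(k4,k1,z1,[y1,z1])]),
    .old (.tor k10 false k0 [(z1,[y1,y1,z1]),(z1,[y1,z0,z1]),(z1,[z1]),(z1,[z1,z1])]),
    .old (.lp [k6,k10,k6,k6,k12,k6] [k3,k3,k1,k1,k3,k3,k3,k3,k0,k0,k3,k3] k0 [[k0,k0,k0,k2],[],[k0,k2]] k24 k5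
    [[(k7,k6),(k10,k6)],[(k2,k6),(k5,k6),(k11,k6),(k8,k9)],[(k11,k8),(k2,k10),(k5,k10),(k8,k11)],[(k0,k6),(k6,k8),(k3,
    k10),(k9,k11)],[(k0,k6),(k6,k6),(k9,k9),(k3,k10)],[(k7,k6),(k10,k6)],[(k1,k6),(k4,k6)],[(k5,k6),(k11,k6),(k2,k8),
    (k8,k9)],[(k5,k9),(k11,k9),(k2,k11),(k8,k12)],[(k0,k9),(k6,k9),(k3,k11),(k9,k12)],[(k0,k6),(k6,k6),(k3,k8),(k9,
    k9)],[(k1,k6),(k4,k6)]]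
    [] k0
    [[k1,k0,k0,k0,k0,k1],[k1,k1,k0,k0,k0,k1],[k0,k2,k0,k0,k0,k0],[k0,k1,k0,k0,k1,k0],[k0,k0,k1,k1,k0,k0]]
    [.contra [y1,z1],.ref k2 k0 [(z1,[z0,z1]),(z1,[z1,y1])],.contra [z1],.ref k1 k0 [(z1,[y1,z0,z1])],.contra [y1,y1,
    z1]]),
    .old (.lp [k6,k10,k6,k6,k12,k6] [k3,k3,k1,k1,k3,k3,k3,k3,k0,k0,k3,k3] k0 [[k0,k0,k0,k2],[],[k0,k2]] k24 k5
    [[(k7,k6),(k10,k6)],[(k2,k6),(k5,k6),(k11,k6),(k8,k9)],[(k11,k8),(k2,k10),(k5,k10),(k8,k11)],[(k0,k6),(k6,k8),(k3,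
    k10),(k9,k11)],[(k0,k6),(k6,k6),(k9,k9),(k3,k10)],[(k7,k6),(k10,k6)],[(k1,k6),(k4,k6)],[(k5,k6),(k11,k6),(k2,k8),
    (k8,k9)],[(k5,k9),(k11,k9),(k2,k11),(k8,k12)],[(k0,k9),(k6,k9),(k3,k11),(k9,k12)],[(k0,k6),(k6,k6),(k3,k8),(k9,
    k9)],[(k1,k6),(k4,k6)]]
    [] k0
    [[k1,k0,k0,k0,k0,k1],[k1,k1,k0,k0,k0,k1],[k0,k2,k0,k0,k0,k0],[k0,k1,k0,k0,k1,k0],[k0,k0,k1,k1,k0,k0]]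
    [.ref k0 k0 [(z1,[z1])],.ref k3 k1 [(z1,[y1,z1])],.contra [z1],.ref k1 k0 [(z1,[y1,z1])],.ref k0 k2 [(z1,[z1])]])]⟩

/-- classes `0 0 1 0 0 1`, types `B0 B1 C0 B1 B0 C0` -/
noncomputable def cU6_701 : CertX :=
  ⟨[k8,k9,k20,k9,k8,k20],[(false,k0,[k0,k1,k2,k3,k4,k5]),(false,k3,[k3,k4,k5,k0,k1,k2])],[[[([z1,z1,z1,z0,z0,z0],z2)],
    [([z1,z0,z1,z1,z0,z1],z2)],[([z1,z0,z1,z0,z1,z0],z2)],[([z1,z0,z1,z0,z0,z0],z1),([z0,z3,z0,z0,z0,z0],z1),([z0,z0,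
    z0,z1,z0,z1],z2)],[([z1,z0,z1,z0,z0,z0],z1),([z0,z2,z0,z0,z0,z0],z1),([z0,z0,z0,z1,z0,z1],z2)],[([z1,z0,z1,z0,z0,
    z0],z1),([z0,z3,z0,z0,z0,z0],z2),([z0,z0,z0,z1,z0,z1],z2)],[([z1,z0,z1,z0,z0,z0],z1),([z0,z1,z0,z0,z1,z0],z1)],
    [([z3,z0,z3,z0,z0,z0],z2),([z0,z3,z0,z0,z0,z0],z2),([z0,z0,z0,z1,z0,z1],z2)],[([z1,z0,z1,z0,z0,z0],z2),([z0,z3,z0,
    z0,z0,z0],z2)],[([z1,z0,z1,z0,z0,z0],z2)],[]]],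
    [.old (.leafM k6 [k0,k1,k2,k3,k4,k5] [(z1,[y1,z1])] []),
    .old (.leafM k2 [k2,k3,k5,k0] [] [(k4,k1,z1,[y1,z1]),(k1,k4,z1,[y1,z1])]),
    .old (.leafM k1 [k0,k1,k2,k3,k4,k5] [(z1,[y1,z1]),(z1,[z1])] []),
    .old (.leafM k11 [k2,k4,k0,k1] [(z1,[y3,y1,y3,z3]),(z1,[z0,z1]),(z1,[z1])] [(k3,k5,z1,[z0,z0,z1]),(k5,k3,z1,[z0,z0,
    z1])]),
    .old (.leafM k12 [k0,k1,k2,k4] [(z1,[z0,z1]),(z1,[y2,y1,y2,z2]),(z1,[z1])] [(k3,k5,z1,[z0,z0,z1]),(k5,k3,z1,[z0,z0,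
    z1])]),
    .old (.leafM k11 [k0,k1,k2,k4] [(z1,[z0,z1]),(z1,[y3,y1,y3,z3]),(z1,[z1])] [(k3,k5,z1,[z0,z0,z1]),(k5,k3,z1,[z0,z0,
    z1])]),
    .old (.lp [(nat_lit 1596),(nat_lit 1140),(nat_lit 684),(nat_lit 2508),(nat_lit 1330),(nat_lit 1680)] [(nat_lit 456),
    (nat_lit 456),(nat_lit 684),(nat_lit 684),(nat_lit 912),(nat_lit 912),k0,k0,(nat_lit 589),(nat_lit 589),
    (nat_lit 414),(nat_lit 414)] k0 [[k0,k0,k0,k0,k0,k0,k0,(nat_lit 1140)],[],[],[],[],[],[k0,(nat_lit 1140)],[k0,k0,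
    k0,k0,k0,k0,k0,k0,k0,(nat_lit 380)],[k0,k0,k0,k0,k0,k0,(nat_lit 380)]] (nat_lit 4560) k6
    [[(k4,(nat_lit 1140)),(k10,(nat_lit 1638))],[(k6,(nat_lit 912)),(k5,(nat_lit 1140)),(k2,(nat_lit 1368)),(k9,
    (nat_lit 1463))],[(k5,(nat_lit 912)),(k2,(nat_lit 1140)),(k6,(nat_lit 1824)),(k9,(nat_lit 2375))],[(k3,
    (nat_lit 1140)),(k8,(nat_lit 1235)),(k0,(nat_lit 1368)),(k11,(nat_lit 1410))],[(k3,(nat_lit 912)),(k8,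
    (nat_lit 1007)),(k0,(nat_lit 1140)),(k11,(nat_lit 1182))],[(k1,(nat_lit 1140)),(k7,(nat_lit 1596))],[(k4,
    (nat_lit 1596)),(k10,(nat_lit 2094))],[(k0,(nat_lit 912)),(k3,(nat_lit 1824)),(k8,(nat_lit 1919)),(k11,
    (nat_lit 2474))],[(k8,(nat_lit 950)),(k0,(nat_lit 1463)),(k11,(nat_lit 1505)),(k3,(nat_lit 2375))],[(k9,
    (nat_lit 950)),(k5,(nat_lit 1007)),(k2,(nat_lit 1235)),(k6,(nat_lit 1919))],[(k5,(nat_lit 1182)),(k2,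
    (nat_lit 1410)),(k9,(nat_lit 1505)),(k6,(nat_lit 2474))],[(k1,(nat_lit 1638)),(k7,(nat_lit 2094))]]
    [] k0
    [[k1,k0,k1,k0,k0,k0],[k1,k1,k1,k0,k0,k0],[k1,k0,k1,k0,k1,k0],[k0,k2,k0,k0,k0,k0],[k0,k3,k0,k0,k0,k0],[k0,k1,k0,k0,
    k1,k0],[k0,k0,k0,k0,k2,k0],[k0,k0,k0,k0,k3,k0],[k0,k0,k0,k0,k4,k0]]
    [.contra [y1,z2],.contra [z1,y1],.contra [z1,y1],.contra [z1],.ref k5 k0 [(z1,[z0,z1]),(z1,[z1]),(z1,[z0,y1,y1,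
    z1])],.contra [y1,z1,z1],.contra [z1],.ref k3 k0 [(z1,[z0,z1]),(z1,[y1,z0,z3]),(z1,[z0,y1,y1,z1])],
    .ref k4 k0 [(z1,[z0,z1]),(z2,[y1,z0,z4]),(z1,[z0,y1,y1,z1])]]),
    .old (.leafM k10 [k0,k1,k2,k4] [(z1,[z0,z1]),(z1,[y1,y1,y3,z3]),(z1,[z1])] [(k3,k5,z1,[z0,z0,z1]),(k5,k3,z1,[z0,z0,
    z1])]),
    .old (.lp [k84,k120,k118,k36,k60,k60] [k18,k18,k0,k0,k1,k1,k42,k42,k30,k30,k30,k30] k0 [[k0,k0,k0,k0,k0,k0,k24],[k0,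
    k0,k0,k38],[k38],[],[],[],[],[k0,k24]] (nat_lit 240) k6
    [[(k10,k72),(k4,k101)],[(k9,k48),(k6,k60),(k2,k102),(k5,k139)],[(k2,k82),(k9,k90),(k6,k102),(k5,k119)],[(k3,k82),
    (k8,k90),(k11,k90),(k0,k102)],[(k8,k89),(k11,k89),(k3,k119),(k0,k139)],[(k7,k77),(k1,k101)],[(k10,k48),(k4,k77)],
    [(k8,k48),(k11,k48),(k0,k60),(k3,k102)],[(k0,k48),(k8,k60),(k11,k60),(k3,k90)],[(k6,k48),(k9,k60),(k5,k89),(k2,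
    k90)],[(k6,k48),(k9,k60),(k5,k89),(k2,k90)],[(k7,k48),(k1,k72)]]
    [] k0
    [[k1,k0,k1,k0,k1,k0],[k0,k2,k0,k0,k0,k0],[k0,k1,k0,k0,k1,k0],[k0,k0,k0,k1,k0,k1],[k0,k0,k0,k2,k0,k2],[k0,k0,k0,k1,
    k1,k1],[k0,k0,k0,k1,k2,k1],[k0,k0,k0,k0,k2,k0],[k0,k0,k0,k0,k3,k0]]
    [.contra [z1,y1],.contra [z1],.contra [y1,y1,z0,z1],.contra [y1,y1,z0,z1],.ref k6 k1 [(z2,[z1]),(z2,[y1,y2,z0,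
    z2])],.contra [z1,z1,z1,y1],.ref k7 k1 [(z1,[y3,y6,y2,z6]),(z1,[z3,z3,z1,y3]),(z1,[z0,z1])],.contra [z1],
    .ref k7 k1 [(z1,[y1,y3,y1,z3]),(z1,[z1]),(z1,[z0,z1])]]),
    .old (.lp [k190,(nat_lit 288),k126,k66,k160,k126] [k49,k49,k0,k0,k81,k81,k111,k111,k64,k64,k81,k81] k0 [[k0,k0,k0,k0,
    k0,k0,k0,k32],[k0,k0,k0,k164],[k164],[],[],[],[k0,k32]] (nat_lit 480) k6
    [[(k4,k158),(k10,k158)],[(k6,k96),(k9,k175),(k2,(nat_lit 239)),(k5,(nat_lit 322))],[(k2,k124),(k6,k177),(k5,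
    (nat_lit 207)),(k9,(nat_lit 256))],[(k3,k124),(k11,(nat_lit 207)),(k8,(nat_lit 224)),(k0,(nat_lit 239))],[(k11,
    k126),(k8,k143),(k3,(nat_lit 207)),(k0,(nat_lit 322))],[(k7,k96),(k1,k158)],[(k4,k96),(k10,k96)],[(k0,k96),(k11,
    k96),(k8,k113),(k3,k177)],[(k11,k143),(k8,k160),(k0,k175),(k3,(nat_lit 256))],[(k6,k113),(k5,k143),(k9,k160),(k2,
    (nat_lit 224))],[(k6,k96),(k5,k126),(k9,k143),(k2,(nat_lit 207))],[(k7,k96),(k1,k158)]]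
    [] k0
    [[k1,k0,k1,k0,k1,k0],[k1,k0,k1,k1,k0,k1],[k0,k2,k0,k0,k0,k0],[k0,k3,k0,k0,k0,k0],[k0,k0,k0,k1,k0,k1],[k0,k0,k0,k2,
    k0,k2],[k0,k0,k0,k1,k1,k1],[k0,k0,k0,k0,k2,k0]]
    [.contra [z1,y1],.contra [z1,y1],.contra [z1],.ref k8 k0 [(z1,[z0,z1]),(z1,[z1])],.contra [y1,y1,z1],
    .ref k6 k1 [(z2,[z1]),(z2,[y1,y2,z2])],.contra [y1,y1,z1],.contra [z1]]),
    .old (.lp [k6,k12,k6,k6,k8,k6] [k3,k3,k0,k0,k3,k3,k3,k3,k2,k2,k3,k3] k0 [] k24 k5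
    [[(k4,k6),(k10,k6)],[(k5,k6),(k6,k6),(k9,k7),(k2,k9)],[(k5,k9),(k6,k9),(k9,k10),(k2,k12)],[(k0,k9),(k11,k9),(k8,
    k10),(k3,k12)],[(k0,k6),(k11,k6),(k8,k7),(k3,k9)],[(k1,k6),(k7,k6)],[(k4,k6),(k10,k6)],[(k0,k6),(k11,k6),(k8,k7),
    (k3,k9)],[(k0,k7),(k11,k7),(k8,k8),(k3,k10)],[(k5,k7),(k6,k7),(k9,k8),(k2,k10)],[(k5,k6),(k6,k6),(k9,k7),(k2,k9)],
    [(k1,k6),(k7,k6)]]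
    [] k0
    [[k1,k0,k1,k0,k0,k0],[k1,k0,k1,k0,k1,k0],[k0,k1,k0,k0,k1,k0],[k0,k0,k0,k1,k0,k1],[k0,k0,k0,k1,k1,k1],[k0,k0,k0,k0,
    k2,k0]]
    [.ref k9 k0 [(z1,[z1])],.ref k2 k0 [(z1,[z1])],.ref k1 k0 [(z1,[y1,z1])],.ref k9 k1 [(z1,[z1])],.ref k0 k0 [(z1,
    [y1,z1])],.contra [z1]])]⟩

/-- classes `0 0 1 0 0 1`, types `B0 B1 C0 B1 B0 C2` -/
noncomputable def cU6_702 : CertX :=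
  ⟨[k8,k9,k20,k9,k8,k22],[(false,k0,[k0,k1,k2,k3,k4,k5]),(false,k3,[k3,k4,k5,k0,k1,k2]),(true,k2,[k2,k1,k0,k5,k4,
    k3])],[[[([z1,z0,z0,z1,z0,z0],z2)],[([z1,z0,z1,z1,z0,z1],z2)],[([z1,z0,z0,z1,z1,z0],z2),([z0,z1,z0,z0,y1,z0],z0)],
    [([z1,z0,z0,z1,z1,z0],z2)],[]]],
    [.old (.leafM k6 [k1,k2,k4,k5] [] [(k3,k0,z1,[z1]),(k0,k3,z1,[z1])]),
    .old (.leafM k2 [k2,k3,k5,k0] [] [(k4,k1,z1,[y1,z1]),(k1,k4,z1,[y1,z1])]),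
    .old (.tor k2 false k1 [(z1,[z1]),(z1,[z1,z1]),(z1,[y1,y1,z1]),(z1,[y1,z0,z1])]),
    .old (.lp [k6,k10,k6,k6,k12,k6] [k3,k3,k1,k1,k3,k3,k3,k3,k0,k0,k3,k3] k0 [[k0,k0,k0,k2],[],[k0,k2]] k24 k5
    [[(k7,k6),(k10,k6)],[(k2,k6),(k5,k6),(k6,k6),(k9,k9)],[(k6,k8),(k2,k10),(k5,k10),(k9,k11)],[(k0,k6),(k11,k8),(k3,
    k10),(k8,k11)],[(k0,k6),(k11,k6),(k8,k9),(k3,k10)],[(k7,k6),(k10,k6)],[(k1,k6),(k4,k6)],[(k0,k6),(k11,k6),(k3,k8),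
    (k8,k9)],[(k0,k9),(k11,k9),(k3,k11),(k8,k12)],[(k5,k9),(k6,k9),(k2,k11),(k9,k12)],[(k5,k6),(k6,k6),(k2,k8),(k9,
    k9)],[(k1,k6),(k4,k6)]]
    [] k0
    [[k1,k0,k0,k1,k0,k0],[k1,k1,k0,k1,k0,k0],[k0,k2,k0,k0,k0,k0],[k0,k1,k0,k0,k1,k0],[k0,k0,k1,k0,k0,k1]]
    [.contra [y1,z1],.ref k2 k0 [(z1,[z0,z1]),(z1,[z1,y1])],.contra [z1],.ref k1 k0 [(z1,[y1,z0,z1])],.contra [y1,y1,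
    z1]]),
    .old (.lp [k6,k10,k6,k6,k12,k6] [k3,k3,k1,k1,k3,k3,k3,k3,k0,k0,k3,k3] k0 [[k0,k0,k0,k2],[],[k0,k2]] k24 k5
    [[(k7,k6),(k10,k6)],[(k2,k6),(k5,k6),(k6,k6),(k9,k9)],[(k6,k8),(k2,k10),(k5,k10),(k9,k11)],[(k0,k6),(k11,k8),(k3,
    k10),(k8,k11)],[(k0,k6),(k11,k6),(k8,k9),(k3,k10)],[(k7,k6),(k10,k6)],[(k1,k6),(k4,k6)],[(k0,k6),(k11,k6),(k3,k8),
    (k8,k9)],[(k0,k9),(k11,k9),(k3,k11),(k8,k12)],[(k5,k9),(k6,k9),(k2,k11),(k9,k12)],[(k5,k6),(k6,k6),(k2,k8),(k9,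
    k9)],[(k1,k6),(k4,k6)]]
    [] k0
    [[k1,k0,k0,k1,k0,k0],[k1,k1,k0,k1,k0,k0],[k0,k2,k0,k0,k0,k0],[k0,k1,k0,k0,k1,k0],[k0,k0,k1,k0,k0,k1]]
    [.ref k0 k0 [(z1,[z1])],.ref k3 k1 [(z1,[z1])],.contra [z1],.ref k1 k0 [(z1,[y1,z1])],.ref k0 k2 [(z1,[z1])]])]⟩

/-- classes `0 0 1 0 0 1`, types `B0 B1 N0 B0 B1 N1` -/
noncomputable def cU6_703 : CertX :=
  ⟨[k8,k9,k28,k8,k9,k29],[(false,k0,[k0,k1,k2,k3,k4,k5]),(false,k3,[k3,k4,k5,k0,k1,k2])],[[[([z1,z1,z1,z0,z0,z0],z2)],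
    [([z1,z0,z1,z1,z0,z1],z2)],[([z1,z0,z1,z0,z1,z0],z2)],[([z1,z0,z1,z0,z0,z0],z1),([z0,z3,z0,z0,z0,z0],z1),([z0,z0,
    z0,z1,z0,z1],z2)],[([z1,z0,z1,z0,z0,z0],z1),([z0,z2,z0,z0,z0,z0],z1),([z0,z0,z0,z1,z0,z1],z2)],[([z1,z0,z1,z0,z0,
    z0],z1),([z0,z3,z0,z0,z0,z0],z2),([z0,z0,z0,z1,z0,z1],z2)],[([z1,z0,z1,z0,z0,z0],z1),([z0,z1,z0,z0,z1,z0],z1)],
    [([z3,z0,z3,z0,z0,z0],z2),([z0,z3,z0,z0,z0,z0],z2),([z0,z0,z0,z1,z0,z1],z2)],[([z1,z0,z1,z0,z0,z0],z2),([z0,z3,z0,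
    z0,z0,z0],z2)],[([z1,z0,z1,z0,z0,z0],z2)],[]]],
    [.old (.leafM k6 [k0,k1,k2,k3,k4,k5] [(z1,[y1,z1])] []),
    .old (.leafM k5 [k0,k2,k3,k5] [] [(k1,k4,z1,[y1,z1]),(k4,k1,z1,[y1,z1])]),
    .old (.leafM k5 [k1,k2,k3,k4,k5,k0] [(z1,[z1]),(z1,[y1,z1])] []),
    .old (.leafM k11 [k2,k4,k0,k1] [(z1,[y3,y1,y3,z3]),(z1,[z0,z1]),(z1,[z1])] [(k3,k5,z1,[z0,z0,z1]),(k5,k3,z1,[z0,z0,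
    z1])]),
    .old (.leafM k12 [k0,k1,k2,k4] [(z1,[z0,z1]),(z1,[y2,y1,y2,z2]),(z1,[z1])] [(k3,k5,z1,[z0,z0,z1]),(k5,k3,z1,[z0,z0,
    z1])]),
    .old (.leafM k11 [k0,k1,k2,k4] [(z1,[z0,z1]),(z1,[y3,y1,y3,z3]),(z1,[z1])] [(k3,k5,z1,[z0,z0,z1]),(k5,k3,z1,[z0,z0,
    z1])]),
    .old (.lp [k36,k60,k84,k36,k70,k184] [k74,k74,k62,k62,k50,k50,k74,k74,k57,k57,k0,k0] k0 [[k0,k0,k0,k0,k0,k0,k0,k0,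
    k60],[],[],[],[],[],[],[k0,k0,k0,k0,k0,k0,k0,k0,k0,k20],[k0,k0,k0,k0,k0,k0,k20],[k0,k60]] (nat_lit 240) k6
    [[(k4,k60)],[(k2,k48),(k11,k50),(k8,k53),(k5,k60)],[(k2,k60),(k5,k72),(k11,k122),(k8,k125)],[(k0,k48),(k6,k48),
    (k3,k60),(k9,k65)],[(k0,k60),(k6,k60),(k3,k72),(k9,k77)],[(k1,k60)],[(k10,k110)],[(k2,k48),(k8,k53),(k5,k60),(k11,
    k130)],[(k8,k50),(k2,k65),(k5,k77),(k11,k127)],[(k9,k50),(k0,k53),(k6,k53),(k3,k125)],[(k0,k50),(k3,k122),(k9,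
    k127),(k6,k130)],[(k7,k110)]]
    [] k0
    [[k1,k0,k1,k0,k0,k0],[k1,k1,k1,k0,k0,k0],[k1,k0,k1,k0,k1,k0],[k0,k2,k0,k0,k0,k0],[k0,k3,k0,k0,k0,k0],[k0,k1,k0,k0,
    k1,k0],[k0,k0,k0,k0,k2,k0],[k0,k0,k0,k0,k3,k0],[k0,k0,k0,k0,k4,k0]]
    [.contra [y1,z2],.contra [z1,y1],.contra [z1,y1],.contra [z1],.ref k5 k0 [(z1,[z0,z1]),(z1,[z1]),(z1,[z0,y1,y1,
    z1])],.contra [y1,z1,z1],.contra [z1],.ref k3 k0 [(z1,[z0,z1]),(z1,[y1,z0,z3]),(z1,[z0,y1,y1,z1])],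
    .ref k4 k0 [(z1,[z0,z1]),(z2,[y1,z0,z4]),(z1,[z0,y1,y1,z1])]]),
    .old (.leafM k10 [k0,k1,k2,k4] [(z1,[z0,z1]),(z1,[y1,y1,y3,z3]),(z1,[z1])] [(k3,k5,z1,[z0,z0,z1]),(k5,k3,z1,[z0,z0,
    z1])]),
    .old (.lp [k126,k132,k62,k34,k62,k62] [k3,k3,k0,k0,k35,k35,k49,k49,k35,k35,k35,k35] k0 [[k0,k0,k0,k0,k0,k0,k0,k0,k46],
    [k0,k0,k0,k52],[k52],[],[],[],[],[],[],[k0,k46]] (nat_lit 240) k6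
    [[(k4,k94)],[(k11,k48),(k8,k94),(k2,k129),(k5,k146)],[(k2,k80),(k5,k97),(k11,k97),(k8,k143)],[(k3,k80),(k6,k83),
    (k9,k97),(k0,k129)],[(k6,k48),(k9,k62),(k3,k97),(k0,k146)],[(k1,k94)],[(k10,k48)],[(k5,k48),(k8,k48),(k11,k48),
    (k2,k83)],[(k5,k62),(k8,k62),(k11,k62),(k2,k97)],[(k6,k48),(k9,k62),(k0,k94),(k3,k143)],[(k0,k48),(k6,k48),(k9,
    k62),(k3,k97)],[(k7,k48)]]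
    [] k0
    [[k1,k0,k1,k1,k0,k1],[k0,k2,k0,k0,k0,k0],[k0,k1,k0,k1,k0,k1],[k0,k0,k0,k1,k0,k1],[k0,k0,k0,k2,k0,k2],[k0,k0,k0,k1,
    k1,k1],[k0,k0,k0,k1,k2,k1],[k0,k0,k0,k0,k2,k0],[k0,k0,k0,k0,k3,k0]]
    [.contra [z1,y1],.contra [z1],.contra [y1,y1,z0,z1],.contra [y1,y1,z0,z1],.ref k6 k1 [(z2,[z1]),(z2,[y1,y2,z0,
    z2])],.contra [z1,z1,z1,y1],.ref k7 k1 [(z1,[y3,y6,y2,z6]),(z1,[z3,z3,z1,y3]),(z1,[z0,z1])],.contra [z1],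
    .ref k7 k1 [(z1,[y1,y3,y1,z3]),(z1,[z1]),(z1,[z0,z1])]]),
    .old (.lp [k48,k82,k172,k16,k80,k80] [k62,k62,k45,k45,k0,k0,k78,k78,k46,k46,k46,k46] k0 [[k0,k0,k0,k0,k0,k0,k0,k0,
    k16],[k0,k0,k0,k20],[k20],[],[],[],[],[],[],[k0,k16]] (nat_lit 240) k6
    [[(k4,k110)],[(k11,k48),(k8,k64),(k2,k65),(k5,k130)],[(k2,k62),(k11,k81),(k8,k97),(k5,k127)],[(k6,k49),(k3,k62),
    (k0,k65),(k9,k81)],[(k6,k94),(k9,k126),(k3,k127),(k0,k130)],[(k1,k110)],[(k10,k48)],[(k8,k48),(k11,k48),(k2,k49),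
    (k5,k94)],[(k8,k80),(k11,k80),(k2,k81),(k5,k126)],[(k6,k48),(k0,k64),(k9,k80),(k3,k97)],[(k0,k48),(k6,k48),(k9,
    k80),(k3,k81)],[(k7,k48)]]
    [] k0
    [[k0,k2,k0,k0,k0,k0],[k0,k3,k0,k0,k0,k0],[k0,k1,k0,k0,k1,k0],[k0,k1,k0,k1,k0,k1],[k0,k0,k0,k1,k0,k1],[k0,k0,k0,k2,
    k0,k2],[k0,k0,k0,k1,k1,k1],[k0,k0,k0,k0,k2,k0]]
    [.contra [z1],.ref k8 k0 [(z1,[z0,z1]),(z1,[z1])],.contra [y1,y1,z1],.contra [y1,y1,z1],.contra [y1,y1,z1],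
    .ref k6 k1 [(z2,[z1]),(z2,[y1,y2,z2])],.contra [y1,y1,z1],.contra [z1]]),
    .old (.lp [k4,k12,k8,k4,k10,k8] [k4,k4,k0,k0,k2,k2,k4,k4,k1,k1,k2,k2] k0 [[],[],[k0,k0,k0,k0,k0,k0,k0,k2],[],[],[],
    [k0,k0,k0,k2]] k24 k5
    [[(k4,k6)],[(k5,k6),(k11,k6),(k8,k7),(k2,k8)],[(k5,k10),(k11,k10),(k8,k11),(k2,k12)],[(k6,k6),(k0,k8),(k9,k11),
    (k3,k12)],[(k0,k6),(k6,k6),(k3,k10),(k9,k11)],[(k1,k6)],[(k10,k6)],[(k2,k6),(k5,k6),(k11,k6),(k8,k7)],[(k11,k9),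
    (k8,k10),(k2,k11),(k5,k11)],[(k0,k7),(k6,k7),(k9,k10),(k3,k11)],[(k0,k6),(k6,k6),(k9,k9),(k3,k10)],[(k7,k6)]]
    [] k0
    [[k1,k0,k1,k0,k0,k0],[k0,k1,k0,k0,k1,k0],[k0,k1,k0,k1,k0,k1],[k0,k0,k0,k1,k0,k1],[k0,k0,k0,k1,k1,k1],[k0,k0,k0,k0,
    k2,k0]]
    [.ref k9 k0 [(z1,[z1])],.ref k1 k0 [(z1,[y1,z1])],.ref k2 k0 [(z1,[y1,z1])],.ref k9 k1 [(z1,[z1])],
    .ref k0 k0 [(z1,[y1,z1])],.contra [z1]])]⟩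

/-- classes `0 0 1 0 0 1`, types `B0 B1 N0 B0 B1 N2` -/
noncomputable def cU6_704 : CertX :=
  ⟨[k8,k9,k28,k8,k9,k30],[(false,k0,[k0,k1,k2,k3,k4,k5])],[[[([z1,z0,z1,z1,z0,z1],z2)],[]]],
    [.old (.leafM k6 [k0,k2,k3,k5] [] [(k1,k4,z1,[y1,z1]),(k4,k1,z1,[y1,z1])]),
    .old (.lp [k6,k8,k6,k6,k12,k6] [k3,k3,k2,k2,k3,k3,k3,k3,k0,k0,k3,k3] k0 [] k24 k5
    [[(k7,k6)],[(k5,k6),(k11,k6),(k2,k7),(k8,k9)],[(k5,k7),(k11,k7),(k2,k8),(k8,k10)],[(k0,k7),(k6,k7),(k3,k8),(k9,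
    k10)],[(k0,k6),(k6,k6),(k3,k7),(k9,k9)],[(k10,k6)],[(k1,k6)],[(k5,k6),(k11,k6),(k2,k7),(k8,k9)],[(k5,k9),(k11,k9),
    (k2,k10),(k8,k12)],[(k0,k9),(k6,k9),(k3,k10),(k9,k12)],[(k0,k6),(k6,k6),(k3,k7),(k9,k9)],[(k4,k6)]]
    [] k0
    [[k0,k2,k0,k0,k0,k0],[k0,k1,k0,k0,k1,k0]]
    [.contra [z1],.ref k0 k0 [(z1,[y1,z1])]])]⟩

/-- classes `0 0 1 0 0 1`, types `B0 B1 N0 B1 B0 N1` -/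
noncomputable def cU6_705 : CertX :=
  ⟨[k8,k9,k28,k9,k8,k29],[(false,k0,[k0,k1,k2,k3,k4,k5]),(false,k3,[k3,k4,k5,k0,k1,k2])],[[[([z1,z1,z1,z0,z0,z0],z2)],
    [([z1,z0,z1,z1,z0,z1],z2)],[([z1,z0,z1,z0,z1,z0],z2)],[([z1,z0,z1,z0,z0,z0],z1),([z0,z3,z0,z0,z0,z0],z1),([z0,z0,
    z0,z1,z0,z1],z2)],[([z1,z0,z1,z0,z0,z0],z1),([z0,z2,z0,z0,z0,z0],z1),([z0,z0,z0,z1,z0,z1],z2)],[([z1,z0,z1,z0,z0,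
    z0],z1),([z0,z3,z0,z0,z0,z0],z2),([z0,z0,z0,z1,z0,z1],z2)],[([z1,z0,z1,z0,z0,z0],z1),([z0,z1,z0,z0,z1,z0],z1)],
    [([z3,z0,z3,z0,z0,z0],z2),([z0,z3,z0,z0,z0,z0],z2),([z0,z0,z0,z1,z0,z1],z2)],[([z1,z0,z1,z0,z0,z0],z2),([z0,z3,z0,
    z0,z0,z0],z2)],[([z1,z0,z1,z0,z0,z0],z2)],[]]],
    [.old (.leafM k6 [k0,k1,k2,k3,k4,k5] [(z1,[y1,z1])] []),
    .old (.leafM k6 [k2,k3,k5,k0] [] [(k4,k1,z1,[y1,z1]),(k1,k4,z1,[y1,z1])]),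
    .old (.leafM k1 [k0,k1,k2,k3,k4,k5] [(z1,[y1,z1]),(z1,[z1])] []),
    .old (.leafM k11 [k2,k4,k0,k1] [(z1,[y3,y1,y3,z3]),(z1,[z0,z1]),(z1,[z1])] [(k3,k5,z1,[z0,z0,z1]),(k5,k3,z1,[z0,z0,
    z1])]),
    .old (.leafM k12 [k0,k1,k2,k4] [(z1,[z0,z1]),(z1,[y2,y1,y2,z2]),(z1,[z1])] [(k3,k5,z1,[z0,z0,z1]),(k5,k3,z1,[z0,z0,
    z1])]),
    .old (.leafM k11 [k0,k1,k2,k4] [(z1,[z0,z1]),(z1,[y3,y1,y3,z3]),(z1,[z1])] [(k3,k5,z1,[z0,z0,z1]),(k5,k3,z1,[z0,z0,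
    z1])]),
    .old (.lp [(nat_lit 1596),(nat_lit 1140),(nat_lit 684),(nat_lit 2508),(nat_lit 1330),(nat_lit 1680)] [(nat_lit 456),
    (nat_lit 456),(nat_lit 684),(nat_lit 684),(nat_lit 912),(nat_lit 912),k0,k0,(nat_lit 589),(nat_lit 589),
    (nat_lit 414),(nat_lit 414)] k0 [[k0,k0,k0,k0,k0,k0,k0,(nat_lit 1140)],[],[],[],[],[],[k0,(nat_lit 1140)],[k0,k0,
    k0,k0,k0,k0,k0,k0,k0,(nat_lit 380)],[k0,k0,k0,k0,k0,k0,(nat_lit 380)]] (nat_lit 4560) k6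
    [[(k4,(nat_lit 1140))],[(k6,(nat_lit 912)),(k5,(nat_lit 1140)),(k2,(nat_lit 1368)),(k9,(nat_lit 1463))],[(k5,
    (nat_lit 912)),(k2,(nat_lit 1140)),(k6,(nat_lit 1824)),(k9,(nat_lit 2375))],[(k3,(nat_lit 1140)),(k8,
    (nat_lit 1235)),(k0,(nat_lit 1368)),(k11,(nat_lit 1410))],[(k3,(nat_lit 912)),(k8,(nat_lit 1007)),(k0,
    (nat_lit 1140)),(k11,(nat_lit 1182))],[(k1,(nat_lit 1140))],[(k10,(nat_lit 2094))],[(k0,(nat_lit 912)),(k3,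
    (nat_lit 1824)),(k8,(nat_lit 1919)),(k11,(nat_lit 2474))],[(k8,(nat_lit 950)),(k0,(nat_lit 1463)),(k11,
    (nat_lit 1505)),(k3,(nat_lit 2375))],[(k9,(nat_lit 950)),(k5,(nat_lit 1007)),(k2,(nat_lit 1235)),(k6,
    (nat_lit 1919))],[(k5,(nat_lit 1182)),(k2,(nat_lit 1410)),(k9,(nat_lit 1505)),(k6,(nat_lit 2474))],[(k7,
    (nat_lit 2094))]]
    [] k0
    [[k1,k0,k1,k0,k0,k0],[k1,k1,k1,k0,k0,k0],[k1,k0,k1,k0,k1,k0],[k0,k2,k0,k0,k0,k0],[k0,k3,k0,k0,k0,k0],[k0,k1,k0,k0,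
    k1,k0],[k0,k0,k0,k0,k2,k0],[k0,k0,k0,k0,k3,k0],[k0,k0,k0,k0,k4,k0]]
    [.contra [y1,z2],.contra [z1,y1],.contra [z1,y1],.contra [z1],.ref k5 k0 [(z1,[z0,z1]),(z1,[z1]),(z1,[z0,y1,y1,
    z1])],.contra [y1,z1,z1],.contra [z1],.ref k3 k0 [(z1,[z0,z1]),(z1,[y1,z0,z3]),(z1,[z0,y1,y1,z1])],
    .ref k4 k0 [(z1,[z0,z1]),(z2,[y1,z0,z4]),(z1,[z0,y1,y1,z1])]]),
    .old (.leafM k10 [k0,k1,k2,k4] [(z1,[z0,z1]),(z1,[y1,y1,y3,z3]),(z1,[z1])] [(k3,k5,z1,[z0,z0,z1]),(k5,k3,z1,[z0,z0,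
    z1])]),
    .old (.lp [k84,k120,k118,k36,k60,k60] [k18,k18,k0,k0,k1,k1,k42,k42,k30,k30,k30,k30] k0 [[k0,k0,k0,k0,k0,k0,k24],[k0,
    k0,k0,k38],[k38],[],[],[],[],[k0,k24]] (nat_lit 240) k6
    [[(k4,k101)],[(k9,k48),(k6,k60),(k2,k102),(k5,k139)],[(k2,k82),(k9,k90),(k6,k102),(k5,k119)],[(k3,k82),(k8,k90),
    (k11,k90),(k0,k102)],[(k8,k89),(k11,k89),(k3,k119),(k0,k139)],[(k1,k101)],[(k10,k48)],[(k8,k48),(k11,k48),(k0,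
    k60),(k3,k102)],[(k0,k48),(k8,k60),(k11,k60),(k3,k90)],[(k6,k48),(k9,k60),(k5,k89),(k2,k90)],[(k6,k48),(k9,k60),
    (k5,k89),(k2,k90)],[(k7,k48)]]
    [] k0
    [[k1,k0,k1,k0,k1,k0],[k0,k2,k0,k0,k0,k0],[k0,k1,k0,k0,k1,k0],[k0,k0,k0,k1,k0,k1],[k0,k0,k0,k2,k0,k2],[k0,k0,k0,k1,
    k1,k1],[k0,k0,k0,k1,k2,k1],[k0,k0,k0,k0,k2,k0],[k0,k0,k0,k0,k3,k0]]
    [.contra [z1,y1],.contra [z1],.contra [y1,y1,z0,z1],.contra [y1,y1,z0,z1],.ref k6 k1 [(z2,[z1]),(z2,[y1,y2,z0,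
    z2])],.contra [z1,z1,z1,y1],.ref k7 k1 [(z1,[y3,y6,y2,z6]),(z1,[z3,z3,z1,y3]),(z1,[z0,z1])],.contra [z1],
    .ref k7 k1 [(z1,[y1,y3,y1,z3]),(z1,[z1]),(z1,[z0,z1])]]),
    .old (.lp [(nat_lit 2254),(nat_lit 2898),(nat_lit 920),(nat_lit 322),(nat_lit 1610),(nat_lit 1610)] [(nat_lit 322),
    (nat_lit 322),k0,k0,(nat_lit 989),(nat_lit 989),(nat_lit 1288),(nat_lit 1288),(nat_lit 644),(nat_lit 644),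
    (nat_lit 644),(nat_lit 644)] k0 [[k0,k0,k0,k0,k0,k0,k0,(nat_lit 322)],[k0,k0,k0,(nat_lit 1680)],[(nat_lit 1680)],
    [],[],[],[k0,(nat_lit 322)]] (nat_lit 4830) k6
    [[(k4,(nat_lit 1587))],[(k6,(nat_lit 966)),(k9,(nat_lit 1932)),(k2,(nat_lit 2576)),(k5,(nat_lit 3267))],[(k2,
    (nat_lit 1218)),(k6,(nat_lit 1610)),(k5,(nat_lit 1909)),(k9,(nat_lit 2576))],[(k3,(nat_lit 1218)),(k8,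
    (nat_lit 2254)),(k11,(nat_lit 2254)),(k0,(nat_lit 2576))],[(k8,(nat_lit 1265)),(k11,(nat_lit 1265)),(k3,
    (nat_lit 1909)),(k0,(nat_lit 3267))],[(k1,(nat_lit 1587))],[(k10,(nat_lit 966))],[(k0,(nat_lit 966)),(k8,
    (nat_lit 966)),(k11,(nat_lit 966)),(k3,(nat_lit 1610))],[(k8,(nat_lit 1610)),(k11,(nat_lit 1610)),(k0,
    (nat_lit 1932)),(k3,(nat_lit 2576))],[(k6,(nat_lit 966)),(k5,(nat_lit 1265)),(k9,(nat_lit 1610)),(k2,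
    (nat_lit 2254))],[(k6,(nat_lit 966)),(k5,(nat_lit 1265)),(k9,(nat_lit 1610)),(k2,(nat_lit 2254))],[(k7,
    (nat_lit 966))]]
    [] k0
    [[k1,k0,k1,k0,k1,k0],[k1,k0,k1,k1,k0,k1],[k0,k2,k0,k0,k0,k0],[k0,k3,k0,k0,k0,k0],[k0,k0,k0,k1,k0,k1],[k0,k0,k0,k2,
    k0,k2],[k0,k0,k0,k1,k1,k1],[k0,k0,k0,k0,k2,k0]]
    [.contra [z1,y1],.contra [z1,y1],.contra [z1],.ref k8 k0 [(z1,[z0,z1]),(z1,[z1])],.contra [y1,y1,z1],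
    .ref k6 k1 [(z2,[z1]),(z2,[y1,y2,z2])],.contra [y1,y1,z1],.contra [z1]]),
    .old (.lp [k4,k6,k2,k2,k4,k4] [k1,k1,k0,k0,k2,k2,k2,k2,k1,k1,k1,k1] k0 [] k12 k5
    [[(k4,k3)],[(k5,k3),(k6,k3),(k9,k4),(k2,k5)],[(k5,k4),(k6,k4),(k9,k5),(k2,k6)],[(k0,k5),(k8,k5),(k11,k5),(k3,k6)],
    [(k0,k3),(k8,k3),(k11,k3),(k3,k4)],[(k1,k3)],[(k10,k3)],[(k0,k3),(k8,k3),(k11,k3),(k3,k4)],[(k0,k4),(k8,k4),(k11,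
    k4),(k3,k5)],[(k5,k3),(k6,k3),(k9,k4),(k2,k5)],[(k5,k3),(k6,k3),(k9,k4),(k2,k5)],[(k7,k3)]]
    [] k0
    [[k1,k0,k1,k0,k0,k0],[k1,k0,k1,k0,k1,k0],[k0,k1,k0,k0,k1,k0],[k0,k0,k0,k1,k0,k1],[k0,k0,k0,k1,k1,k1],[k0,k0,k0,k0,
    k2,k0]]
    [.ref k9 k0 [(z1,[z1])],.ref k2 k0 [(z1,[z1])],.ref k1 k0 [(z1,[y1,z1])],.ref k9 k1 [(z1,[z1])],.ref k0 k0 [(z1,
    [y1,z1])],.contra [z1]])]⟩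

/-- classes `0 0 1 0 0 1`, types `B0 B1 N0 B1 B0 N2` -/
noncomputable def cU6_706 : CertX :=
  ⟨[k8,k9,k28,k9,k8,k30],[(false,k0,[k0,k1,k2,k3,k4,k5]),(false,k3,[k3,k4,k5,k0,k1,k2]),(true,k2,[k2,k1,k0,k5,k4,
    k3])],[[[([z1,z0,z0,z1,z0,z0],z2)],[([z1,z0,z0,z1,z0,z0],z1),([z0,z1,z0,z0,z1,z0],z2)],[([z1,z0,z0,z1,y1,z0],z0),
    ([z0,z1,z0,z0,z1,z0],z2)],[([z1,z0,z1,z1,z0,z1],z2)],[([z1,z0,z0,z1,z1,z0],z2),([z0,z1,z0,z0,y1,z0],z0)],[([z1,z0,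
    z0,z1,z1,z0],z2)],[]]],
    [.old (.leafM k6 [k1,k2,k4,k5] [] [(k3,k0,z1,[z1]),(k0,k3,z1,[z1])]),
    .old (.leafM k7 [k0,k2,k3,k5] [(z1,[y1,y1,z1])] [(k1,k4,z1,[z0,z1]),(k4,k1,z1,[z0,z1])]),
    .old (.lp [(nat_lit 528),(nat_lit 1122),k0,(nat_lit 408),(nat_lit 1122),(nat_lit 1122)] [(nat_lit 297),(nat_lit 297),
    k0,k0,(nat_lit 561),(nat_lit 561),(nat_lit 357),(nat_lit 357),k0,k0,k0,k0] k0 [[k0,k0,k0,k0,k0,k0,k187],[k0,k0,k0,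
    k187],[k187],[],[],[],[],[k0,k187]] (nat_lit 2244) k6
    [[(k7,(nat_lit 468))],[(k5,(nat_lit 451)),(k6,(nat_lit 468)),(k9,(nat_lit 638)),(k2,(nat_lit 825))],[(k5,
    (nat_lit 561)),(k2,(nat_lit 935)),(k6,(nat_lit 952)),(k9,(nat_lit 1122))],[(k0,(nat_lit 825)),(k3,(nat_lit 935)),
    (k8,(nat_lit 1122)),(k11,(nat_lit 1122))],[(k0,(nat_lit 451)),(k3,(nat_lit 561)),(k8,(nat_lit 561)),(k11,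
    (nat_lit 561))],[(k10,(nat_lit 561))],[(k1,(nat_lit 468))],[(k0,(nat_lit 468)),(k8,(nat_lit 765)),(k11,
    (nat_lit 765)),(k3,(nat_lit 952))],[(k0,(nat_lit 638)),(k3,(nat_lit 1122)),(k8,(nat_lit 1122)),(k11,
    (nat_lit 1122))],[(k5,(nat_lit 561)),(k6,(nat_lit 765)),(k2,(nat_lit 1122)),(k9,(nat_lit 1122))],[(k5,
    (nat_lit 561)),(k6,(nat_lit 765)),(k2,(nat_lit 1122)),(k9,(nat_lit 1122))],[(k4,(nat_lit 561))]]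
    [] k0
    [[k1,k0,k0,k1,k0,k0],[k2,k0,k0,k2,k0,k0],[k1,k0,k0,k1,k1,k0],[k0,k2,k0,k0,k0,k0],[k0,k0,k1,k0,k0,k1]]
    [.contra [y1,z1,z1],.contra [y1,z2,z2],.contra [y1,z1,z2],.contra [z1],.contra [y1,z0,y1,z1]]),
    .old (.lp [(nat_lit 6860),(nat_lit 6272),k0,(nat_lit 784),(nat_lit 9996),(nat_lit 9900)] [(nat_lit 1568),
    (nat_lit 1568),(nat_lit 1862),(nat_lit 1862),(nat_lit 4998),(nat_lit 4998),(nat_lit 4606),(nat_lit 4606),k0,k0,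
    k48,k48] k0 [[k0,k0,k0,(nat_lit 1470),k0,k0,k0,(nat_lit 294)],[k0,k0,k0,k147],[k147,(nat_lit 1470)],[k0,k0,k0,k0,
    k0,k0,k0,k0,(nat_lit 1080)],[],[],[k0,(nat_lit 294)],[],[],[k0,k0,(nat_lit 1080)]] (nat_lit 17640) k6
    [[(k7,(nat_lit 3822))],[(k6,(nat_lit 3528)),(k5,(nat_lit 3577)),(k2,(nat_lit 5096)),(k9,(nat_lit 8428))],[(k6,
    (nat_lit 3528)),(k5,(nat_lit 4606)),(k2,(nat_lit 6125)),(k9,(nat_lit 8428))],[(k0,(nat_lit 5096)),(k3,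
    (nat_lit 6125)),(k11,(nat_lit 8086)),(k8,(nat_lit 9214))],[(k0,(nat_lit 3577)),(k11,(nat_lit 3870)),(k3,
    (nat_lit 4606)),(k8,(nat_lit 4998))],[(k10,(nat_lit 4950))],[(k1,(nat_lit 3822))],[(k0,(nat_lit 3528)),(k3,
    (nat_lit 3528)),(k11,(nat_lit 5342)),(k8,(nat_lit 5390))],[(k0,(nat_lit 8428)),(k3,(nat_lit 8428)),(k11,
    (nat_lit 9948)),(k8,(nat_lit 9996))],[(k5,(nat_lit 4998)),(k6,(nat_lit 5390)),(k2,(nat_lit 9214)),(k9,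
    (nat_lit 9996))],[(k5,(nat_lit 3870)),(k6,(nat_lit 5342)),(k2,(nat_lit 8086)),(k9,(nat_lit 9948))],[(k4,
    (nat_lit 4950))]]
    [] k0
    [[k1,k0,k0,k1,k0,k0],[k2,k0,k0,k2,k0,k0],[k1,k1,k0,k1,k0,k0],[k0,k2,k0,k0,k0,k0],[k0,k0,k1,k0,k0,k1]]
    [.contra [y1,z1],.ref k1 k0 [(z2,[z1]),(z1,[z0,y1,z1])],.ref k2 k0 [(z1,[z1,z1,y1]),(z1,[z0,y1,z1])],.contra [z1],
    .contra [y1,z1]]),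
    .old (.tor k2 false k1 [(z1,[z1]),(z1,[z1,z1]),(z1,[y1,y1,z1]),(z1,[y1,z0,z1])]),
    .old (.lp [k10,k10,k2,k2,k12,k10] [k1,k1,k1,k1,k5,k5,k5,k5,k0,k0,k1,k1] k0 [[k0,k0,k0,k2],[],[k0,k2]] k24 k5
    [[(k7,k6)],[(k5,k6),(k6,k6),(k2,k8),(k9,k11)],[(k6,k6),(k5,k8),(k2,k10),(k9,k11)],[(k0,k8),(k3,k10),(k11,k10),(k8,
    k11)],[(k0,k6),(k11,k6),(k8,k7),(k3,k8)],[(k10,k6)],[(k1,k6)],[(k0,k6),(k3,k6),(k11,k6),(k8,k7)],[(k0,k11),(k3,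
    k11),(k11,k11),(k8,k12)],[(k5,k7),(k6,k7),(k2,k11),(k9,k12)],[(k5,k6),(k6,k6),(k2,k10),(k9,k11)],[(k4,k6)]]
    [] k0
    [[k1,k0,k0,k1,k0,k0],[k1,k1,k0,k1,k0,k0],[k0,k2,k0,k0,k0,k0],[k0,k1,k0,k0,k1,k0],[k0,k0,k1,k0,k0,k1]]
    [.contra [y1,z1],.ref k4 k0 [(z1,[z0,z1]),(z1,[z1,y1])],.contra [z1],.ref k3 k0 [(z1,[y1,z0,z1])],.contra [y1,y1,
    z1]]),
    .old (.lp [k10,k10,k2,k2,k12,k10] [k1,k1,k1,k1,k5,k5,k5,k5,k0,k0,k1,k1] k0 [[k0,k0,k0,k2],[],[k0,k2]] k24 k5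
    [[(k7,k6)],[(k5,k6),(k6,k6),(k2,k8),(k9,k11)],[(k6,k6),(k5,k8),(k2,k10),(k9,k11)],[(k0,k8),(k3,k10),(k11,k10),(k8,
    k11)],[(k0,k6),(k11,k6),(k8,k7),(k3,k8)],[(k10,k6)],[(k1,k6)],[(k0,k6),(k3,k6),(k11,k6),(k8,k7)],[(k0,k11),(k3,
    k11),(k11,k11),(k8,k12)],[(k5,k7),(k6,k7),(k2,k11),(k9,k12)],[(k5,k6),(k6,k6),(k2,k10),(k9,k11)],[(k4,k6)]]
    [] k0
    [[k1,k0,k0,k1,k0,k0],[k1,k1,k0,k1,k0,k0],[k0,k2,k0,k0,k0,k0],[k0,k1,k0,k0,k1,k0],[k0,k0,k1,k0,k0,k1]]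
    [.ref k0 k0 [(z1,[z1])],.ref k5 k1 [(z1,[z1])],.contra [z1],.ref k3 k0 [(z1,[y1,z1])],.ref k0 k2 [(z1,[z1])]])]⟩

/-- classes `0 0 1 0 0 1`, types `B0 B1 S0 B0 B1 S0` -/
noncomputable def cU6_707 : CertX :=
  ⟨[k8,k9,k16,k8,k9,k16],[(false,k0,[k0,k1,k2,k3,k4,k5]),(false,k3,[k3,k4,k5,k0,k1,k2]),(true,k2,[k2,k1,k0,k5,k4,
    k3])],[[[([z1,z0,z0,z0,z0,z1],z2)],[([z1,z0,z1,z1,z0,z1],z2)],[([z1,z0,z1,z0,z1,z0],z2)],[([z1,z1,z1,z0,z0,z0],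
    z2)],[([z1,z0,z1,z0,z0,z0],z1),([z0,z3,z0,z0,z0,z0],z1),([z0,z0,z0,z1,z0,z1],z2)],[([z1,z0,z1,z0,z0,z0],z1),([z0,
    z2,z0,z0,z0,z0],z1),([z0,z0,z0,z1,z0,z1],z2)],[([z1,z0,z1,z0,z0,z0],z1),([z0,z3,z0,z0,z0,z0],z2),([z0,z0,z0,z1,z0,
    z1],z2)],[([z1,z0,z0,z0,y1,z1],z1),([z0,z1,z0,z0,z1,z0],z1),([z0,z0,z1,z0,z1,y1],z0)],[([z1,z0,z1,z0,z0,z0],z1),
    ([z0,z1,z0,z0,z1,z0],z1)],[([z3,z0,z3,z0,z0,z0],z2),([z0,z3,z0,z0,z0,z0],z2),([z0,z0,z0,z1,z0,z1],z2)],[([z3,z0,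
    z0,z0,z0,z3],z4),([z0,z3,z0,z0,z0,z0],z2),([z0,z0,z3,z0,z0,y3],z2)],[([z1,z0,z1,z0,z0,z0],z2),([z0,z3,z0,z0,z0,
    z0],z2)]],[[([z1,z0,z0,z0,z1,z1],z2),([z0,z1,z0,z0,y1,z0],z0)],[([z1,z0,z0,y1,y1,z0],z0),([z0,z1,z0,z1,z1,z1],
    z2)],[([z1,z0,z1,z0,z0,z0],z2)],[([z1,z0,z0,z0,z1,z1],z2)],[]]],
    [.old (.leafM k2 [k2,k3,k4,k1] [] [(k5,k0,z1,[z1]),(k0,k5,z1,[z1])]),
    .old (.leafM k5 [k0,k2,k3,k5] [] [(k1,k4,z1,[y1,z1]),(k4,k1,z1,[y1,z1])]),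
    .old (.leafM k5 [k1,k2,k3,k4,k5,k0] [(z1,[z1]),(z1,[y1,z1])] []),
    .old (.leafM k6 [k0,k1,k2,k3,k4,k5] [(z1,[y1,z1])] []),
    .old (.leafM k11 [k2,k4,k0,k1] [(z1,[y3,y1,y3,z3]),(z1,[z0,z1]),(z1,[z1])] [(k3,k5,z1,[z0,z0,z1]),(k5,k3,z1,[z0,z0,
    z1])]),
    .old (.leafM k12 [k0,k1,k2,k4] [(z1,[z0,z1]),(z1,[y2,y1,y2,z2]),(z1,[z1])] [(k3,k5,z1,[z0,z0,z1]),(k5,k3,z1,[z0,z0,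
    z1])]),
    .old (.leafM k11 [k0,k1,k2,k4] [(z1,[z0,z1]),(z1,[y3,y1,y3,z3]),(z1,[z1])] [(k3,k5,z1,[z0,z0,z1]),(k5,k3,z1,[z0,z0,
    z1])]),
    .old (.lp [k72,k62,k48,k72,k116,k106] [k22,k22,k27,k27,k34,k34,k22,k22,k0,k0,k5,k5] k0 [[k0,k0,k0,k0,k0,k0,k0,k0,k8],
    [],[k0,k0,k0,k0,k0,k0,k0,k4],[],[],[],[k0,k0,k0,k4],[k0,k0,k0,k0,k0,k0,k0,k0,k0,k62],[k0,k0,k0,k0,k0,k0,k62],[k0,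
    k8]] (nat_lit 240) k6
    [[(k4,k60),(k1,k72),(k7,k72),(k10,k89)],[(k5,k60),(k2,k67),(k11,k81),(k8,k94)],[(k5,k55),(k2,k62),(k11,k84),(k8,
    k97)],[(k3,k62),(k6,k63),(k0,k67),(k9,k89)],[(k3,k55),(k0,k60),(k6,k60),(k9,k86)],[(k4,k48),(k1,k60),(k7,k60),
    (k10,k77)],[(k4,k60),(k1,k72),(k7,k72),(k10,k89)],[(k5,k60),(k2,k63),(k8,k94),(k11,k151)],[(k8,k54),(k5,k86),(k2,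
    k89),(k11,k111)],[(k9,k54),(k0,k94),(k6,k94),(k3,k97)],[(k0,k81),(k3,k84),(k9,k111),(k6,k151)],[(k4,k77),(k1,k89),
    (k7,k89),(k10,k106)]]
    [] k0
    [[k1,k0,k1,k0,k0,k0],[k1,k1,k1,k0,k0,k0],[k1,k0,k0,k0,k0,k1],[k0,k2,k0,k0,k0,k0],[k0,k3,k0,k0,k0,k0],[k0,k1,k1,k1,
    k0,k0],[k0,k1,k0,k0,k1,k0],[k0,k1,k0,k1,k0,k1],[k0,k0,k1,k1,k0,k0],[k0,k0,k0,k0,k2,k0],[k0,k0,k0,k0,k3,k0],[k0,k0,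
    k0,k0,k4,k0]]
    [.contra [y1,z2,z0,z2],.contra [z1,y1,z0,y1],.contra [z1,y1],.contra [z1],.ref k6 k0 [(z1,[z0,z1,z0,z1]),(z1,
    [z1]),(z1,[z0,y1,y1,y1,z1])],.ref k5 k0 [(z1,[z0,z1,z0,z1]),(z1,[z1,z1,z2,z0,y1]),(z1,[z0,y1,y1,y1,z1])],
    .contra [y1,z1,z1,z1],.contra [y1,y1,z0,y1,z1],.contra [z1,z1,z2,z0,y1],.contra [z1],.ref k4 k0 [(z1,[z0,z1,z0,
    z1]),(z1,[y1,z0,z3]),(z1,[z0,y1,y1,y1,z1])],.ref k5 k0 [(z1,[z0,z1,z0,z1]),(z2,[y1,z0,z4]),(z1,[z0,y1,y1,y1,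
    z1])]]),
    .old (.lp [k72,k60,k48,k122,k70,k98] [k25,k25,k31,k31,k37,k37,k0,k0,k26,k26,k12,k12] k0 [[k0,k0,k0,k10,k0,k0,k0,k0,
    k37],[],[k0,k10],[k0,k0,k0,k0,k0,k0,k0,k23],[],[],[k0,k0,k23],[k0,k0,k0,k0,k0,k0,k0,k0,k0,k20],[k0,k0,k0,k0,k0,k0,
    k20],[k0,k37]] (nat_lit 240) k6
    [[(k4,k60),(k1,k72),(k10,k85),(k7,k97)],[(k11,k48),(k2,k56),(k5,k60),(k8,k71)],[(k2,k60),(k5,k64),(k11,k79),(k8,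
    k102)],[(k0,k56),(k3,k60),(k9,k88),(k6,k91)],[(k9,k59),(k0,k60),(k6,k62),(k3,k64)],[(k4,k48),(k1,k60),(k10,k73),
    (k7,k85)],[(k4,k85),(k1,k97),(k10,k110),(k7,k122)],[(k5,k62),(k2,k91),(k8,k96),(k11,k130)],[(k8,k50),(k5,k59),
    (k11,k84),(k2,k88)],[(k9,k50),(k0,k71),(k6,k96),(k3,k102)],[(k0,k48),(k3,k79),(k9,k84),(k6,k130)],[(k4,k73),(k1,
    k85),(k10,k98),(k7,k110)]]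
    [] k0
    [[k1,k0,k1,k0,k0,k0],[k1,k1,k1,k0,k0,k0],[k1,k0,k1,k0,k1,k0],[k1,k0,k0,k0,k0,k1],[k1,k1,k0,k0,k0,k1],[k0,k2,k0,k0,
    k0,k0],[k0,k3,k0,k0,k0,k0],[k0,k1,k0,k0,k1,k0],[k0,k0,k1,k1,k0,k0],[k0,k0,k0,k0,k2,k0],[k0,k0,k0,k0,k3,k0],[k0,k0,
    k0,k0,k4,k0]]
    [.contra [y1,z2],.contra [z1,y1],.contra [z1,y1],.ref k0 k0 [(z1,[z1])],.ref k7 k0 [(z1,[z1,z0,y1]),(z1,[z0,z0,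
    z1]),(z1,[y1,z1,z1])],.contra [z1],.ref k6 k0 [(z1,[z0,z1]),(z1,[z1]),(z1,[z0,y1,y1,z1])],.contra [y1,z1,z1],
    .ref k0 k1 [(z1,[z1])],.contra [z1],.ref k4 k0 [(z1,[z0,z1]),(z1,[y1,z0,z3]),(z1,[z0,y1,y1,z1])],.ref k5 k0 [(z1,
    [z0,z1]),(z2,[y1,z0,z4]),(z1,[z0,y1,y1,z1])]]),
    .old (.leafM k10 [k0,k1,k2,k4] [(z1,[z0,z1]),(z1,[y1,y1,y3,z3]),(z1,[z1])] [(k3,k5,z1,[z0,z0,z1]),(k5,k3,z1,[z0,z0,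
    z1])]),
    .old (.lp [k112,k80,k128,k48,k62,k48] [k8,k8,k24,k24,k0,k0,k40,k40,k33,k33,k40,k40] k0 [[k0,k0,k0,k0,k0,k0,k0,k0,k16],
    [],[k0,k0,k0,k0,k0,k0,k0,k2],[k0,k0,k0,k0,k0,k0,k0,k20],[],[],[k0,k0,k20,k2],[],[],[k0,k16]] (nat_lit 240) k6
    [[(k7,k80),(k10,k80),(k1,k112),(k4,k120)],[(k11,k64),(k8,k87),(k2,k96),(k5,k120)],[(k11,k64),(k2,k80),(k8,k87),
    (k5,k104)],[(k6,k62),(k3,k80),(k9,k91),(k0,k96)],[(k6,k68),(k9,k97),(k3,k104),(k0,k120)],[(k7,k88),(k10,k88),(k1,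
    k120),(k4,k128)],[(k7,k48),(k10,k48),(k1,k80),(k4,k88)],[(k11,k48),(k8,k55),(k2,k62),(k5,k68)],[(k11,k55),(k8,
    k62),(k2,k91),(k5,k97)],[(k6,k55),(k9,k62),(k0,k87),(k3,k87)],[(k6,k48),(k9,k55),(k0,k64),(k3,k64)],[(k7,k48),
    (k10,k48),(k1,k80),(k4,k88)]]
    [] k0
    [[k1,k0,k0,k0,k0,k1],[k1,k0,k0,k0,k1,k1],[k0,k2,k0,k0,k0,k0],[k0,k1,k0,k0,k1,k0],[k0,k1,k0,k1,k0,k1],[k0,k0,k1,k1,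
    k0,k0],[k0,k0,k0,k2,k0,k2],[k0,k0,k0,k1,k0,k1],[k0,k0,k0,k1,k1,k1],[k0,k0,k0,k1,k2,k1],[k0,k0,k0,k0,k2,k0],[k0,k0,
    k0,k0,k3,k0]]
    [.contra [z3,y1,z2],.ref k9 k1 [(z1,[y3,z0,y1,y1,z3]),(z1,[z3,y1]),(z3,[z0,z1,z0,z1])],.contra [z1],.contra [y3,
    y1,z0,y1,z3],.contra [y3,y1,z0,y1,z3],.contra [y3,y1,y1,z0,z3],.ref k8 k1 [(z2,[z1]),(z6,[y3,y2,z0,y2,z6])],
    .contra [y3,y1,z0,y1,z3],.contra [z3,z1,z3,z1,y3],.ref k9 k1 [(z1,[y3,y2,y2,y2,z6]),(z1,[z3,z1,z1,z1,y3]),(z3,[z0,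
    z1,z0,z1])],.contra [z1],.ref k9 k1 [(z1,[y1,y1,y1,y1,z3]),(z1,[z1]),(z3,[z0,z1,z0,z1])]]),
    .old (.lp [k130,k82,k108,k48,k62,k48] [k0,k0,k24,k24,k11,k11,k41,k41,k34,k34,k41,k41] k0 [[k0,k0,k0,k2,k0,k0,k0,k0,
    k34],[k0,k0,k0,k2],[k2,k2],[],[],[],[],[],[],[k0,k34]] (nat_lit 240) k6
    [[(k7,k89),(k10,k89),(k4,k119),(k1,k130)],[(k11,k55),(k8,k96),(k2,k104),(k5,k121)],[(k11,k65),(k2,k80),(k5,k97),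
    (k8,k106)],[(k6,k65),(k9,k72),(k3,k80),(k0,k104)],[(k6,k78),(k9,k85),(k3,k97),(k0,k121)],[(k7,k78),(k10,k78),(k4,
    k108),(k1,k119)],[(k7,k48),(k10,k48),(k4,k78),(k1,k89)],[(k11,k48),(k8,k55),(k2,k65),(k5,k78)],[(k11,k55),(k8,
    k62),(k2,k72),(k5,k85)],[(k6,k55),(k9,k62),(k0,k96),(k3,k106)],[(k6,k48),(k0,k55),(k9,k55),(k3,k65)],[(k7,k48),
    (k10,k48),(k4,k78),(k1,k89)]]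
    [] k0
    [[k1,k0,k0,k0,k0,k1],[k0,k2,k0,k0,k0,k0],[k0,k1,k0,k0,k1,k0],[k0,k1,k0,k1,k0,k1],[k0,k0,k1,k1,k0,k0],[k0,k0,k1,k1,
    k1,k0],[k0,k0,k0,k2,k0,k2],[k0,k0,k0,k1,k0,k1],[k0,k0,k0,k1,k1,k1],[k0,k0,k0,k1,k2,k1],[k0,k0,k0,k0,k2,k0],[k0,k0,
    k0,k0,k3,k0]]
    [.ref k0 k0 [(z1,[z1])],.contra [z1],.contra [y1,y1,z0,z1],.contra [y1,y1,z0,z1],.ref k0 k1 [(z1,[z1])],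
    .ref k10 k0 [(z1,[y3,z0,y1,z3]),(z1,[z0,z0,z1]),(z1,[z3,z3,z1,y3])],.ref k8 k1 [(z2,[z1]),(z2,[y1,y2,z0,z2])],
    .contra [y1,y1,z0,z1],.contra [z1,z1,z1,y1],.ref k9 k1 [(z1,[y3,y6,y2,z6]),(z1,[z3,z3,z1,y3]),(z1,[z0,z1])],
    .contra [z1],.ref k9 k1 [(z1,[y1,y3,y1,z3]),(z1,[z1]),(z1,[z0,z1])]]),
    .old (.tor k10 false k0 [(z1,[y1,y1,z1]),(z1,[y1,z0,z1]),(z1,[z1]),(z1,[z1,z1])]),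
    .old (.lp [k94,k102,k104,k52,k78,k48] [k5,k5,k1,k1,k0,k0,k26,k26,k13,k13,k28,k28] k0 [[k0,k0,k0,k0,k0,k0,k0,k0,k0,
    k38],[k0,k0,k0,k42],[k42],[],[],[],[k0,k0,k0,k0,k0,k0,k0,k0,k2],[k0,k0,k0,k0,k0,k0,k0,k0,k6],[k0,k38],[k0,k0,k0,
    k0,k0,k0,k6,k2]] (nat_lit 240) k6
    [[(k10,k71),(k7,k73),(k1,k94),(k4,k99)],[(k8,k48),(k11,k71),(k2,k98),(k5,k141)],[(k2,k60),(k8,k90),(k5,k103),(k11,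
    k113)],[(k3,k60),(k6,k77),(k9,k90),(k0,k98)],[(k6,k78),(k9,k91),(k3,k103),(k0,k141)],[(k10,k76),(k7,k78),(k1,k99),
    (k4,k104)],[(k10,k50),(k7,k52),(k1,k73),(k4,k78)],[(k11,k48),(k8,k71),(k2,k77),(k5,k78)],[(k11,k57),(k8,k80),(k2,
    k90),(k5,k91)],[(k0,k48),(k6,k71),(k9,k80),(k3,k90)],[(k6,k48),(k9,k57),(k0,k71),(k3,k113)],[(k10,k48),(k7,k50),
    (k1,k71),(k4,k76)]]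
    [] k0
    [[k1,k0,k1,k0,k1,k0],[k1,k0,k0,k0,k0,k1],[k1,k0,k0,k0,k1,k1],[k0,k2,k0,k0,k0,k0],[k0,k3,k0,k0,k0,k0],[k0,k1,k0,k0,
    k1,k0],[k0,k0,k1,k1,k0,k0],[k0,k0,k0,k2,k0,k2],[k0,k0,k0,k1,k0,k1],[k0,k0,k0,k1,k1,k1],[k0,k0,k0,k0,k2,k0]]
    [.contra [z1,z0,z1,y1],.contra [y1,z1,z1],.ref k12 k0 [(z1,[z1]),(z1,[y1,z1,z1])],.contra [z1],.ref k11 k0 [(z1,
    [z0,z0,y1,z1]),(z1,[z1])],.contra [y1,z0,z1],.contra [y1,y1,y1,z1],.ref k8 k1 [(z2,[z1]),(z2,[y1,z0,z2])],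
    .contra [y1,z0,z1],.contra [y1,z0,z1],.contra [z1]]),
    .old (.lp [k110,k80,k112,k48,k80,k48] [k1,k1,k16,k16,k0,k0,k32,k32,k16,k16,k32,k32] k0 [[k0,k0,k0,k0,k0,k0,k0,k0,k14,
    k2],[k0,k0,k0,k18],[k18],[k0,k0,k0,k0,k0,k0,k0,k4],[],[],[k0,k0,k4],[],[k0,k2],[k0,k14]] (nat_lit 240) k6
    [[(k7,k79),(k10,k79),(k1,k110),(k4,k111)],[(k11,k65),(k8,k93),(k2,k95),(k5,k129)],[(k2,k62),(k11,k66),(k8,k94),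
    (k5,k96)],[(k3,k62),(k6,k64),(k9,k84),(k0,k95)],[(k6,k76),(k3,k96),(k9,k96),(k0,k129)],[(k7,k80),(k10,k80),(k1,
    k111),(k4,k112)],[(k7,k48),(k10,k48),(k1,k79),(k4,k80)],[(k11,k48),(k2,k64),(k8,k64),(k5,k76)],[(k11,k64),(k8,
    k80),(k2,k84),(k5,k96)],[(k6,k64),(k9,k80),(k0,k93),(k3,k94)],[(k6,k48),(k9,k64),(k0,k65),(k3,k66)],[(k7,k48),
    (k10,k48),(k1,k79),(k4,k80)]]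
    [] k0
    [[k1,k0,k0,k0,k0,k1],[k1,k0,k0,k0,k1,k1],[k0,k2,k0,k0,k0,k0],[k0,k3,k0,k0,k0,k0],[k0,k1,k0,k0,k1,k0],[k0,k1,k0,k1,
    k0,k1],[k0,k0,k1,k1,k0,k0],[k0,k0,k0,k2,k0,k2],[k0,k0,k0,k1,k0,k1],[k0,k0,k0,k1,k1,k1],[k0,k0,k0,k0,k2,k0]]
    [.ref k0 k0 [(z1,[z1])],.ref k13 k2 [(z1,[y1,z1]),(z1,[z0,y1,z1])],.contra [z1],.ref k11 k0 [(z1,[z0,z1]),(z1,
    [z1])],.contra [y1,y1,z1],.contra [y1,y1,z1],.ref k0 k1 [(z1,[z1])],.ref k8 k1 [(z2,[z1]),(z2,[y1,y2,z2])],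
    .contra [y1,y1,z1],.contra [y1,y1,z1],.contra [z1]]),
    .old (.lp [k12,k20,k12,k14,k24,k12] [k6,k6,k2,k2,k6,k6,k5,k5,k0,k0,k6,k6] k0 [[],[],[],[k0,k0,k0,k0,k0,k0,k2],[],[],
    [],[k0,k0,k2]] k48 k5
    [[(k1,k12),(k4,k12),(k10,k12),(k7,k13)],[(k5,k12),(k11,k12),(k2,k16),(k8,k18)],[(k5,k16),(k11,k16),(k2,k20),(k8,
    k22)],[(k0,k16),(k6,k19),(k3,k20),(k9,k22)],[(k0,k12),(k6,k13),(k3,k16),(k9,k16)],[(k1,k12),(k4,k12),(k10,k12),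
    (k7,k13)],[(k1,k13),(k4,k13),(k10,k13),(k7,k14)],[(k5,k13),(k11,k13),(k2,k19),(k8,k19)],[(k5,k16),(k11,k18),(k2,
    k22),(k8,k24)],[(k0,k18),(k6,k19),(k3,k22),(k9,k24)],[(k0,k12),(k6,k13),(k3,k16),(k9,k18)],[(k1,k12),(k4,k12),
    (k10,k12),(k7,k13)]]
    [] k0
    [[k1,k0,k1,k0,k0,k0],[k1,k1,k1,k0,k0,k0],[k1,k0,k1,k0,k1,k0],[k1,k0,k0,k0,k0,k1],[k1,k1,k0,k0,k0,k1],[k0,k2,k0,k0,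
    k0,k0],[k0,k1,k0,k0,k1,k0],[k0,k0,k1,k1,k0,k0],[k0,k0,k0,k1,k0,k1]]
    [.ref k14 k0 [(z1,[z1])],.ref k3 k0 [(z1,[z1])],.ref k2 k0 [(z1,[z1])],.contra [y1,z1],.ref k12 k0 [(z1,[z0,z1]),
    (z1,[z1,y1])],.contra [z1],.ref k1 k0 [(z1,[y1,z0,z1])],.contra [y1,y1,z1],.ref k14 k1 [(z1,[z1])]]),
    .old (.lp [k12,k20,k12,k12,k24,k14] [k6,k6,k2,k2,k6,k6,k6,k6,k0,k0,k5,k5] k0 [[k0,k0,k0,k0,k0,k0,k0,k0,k0,k2],[],[],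
    [],[],[],[],[],[k0,k2]] k48 k5
    [[(k1,k12),(k4,k12),(k7,k12),(k10,k13)],[(k5,k12),(k11,k13),(k2,k16),(k8,k16)],[(k5,k16),(k11,k19),(k2,k20),(k8,
    k22)],[(k0,k16),(k6,k16),(k3,k20),(k9,k22)],[(k0,k12),(k6,k12),(k3,k16),(k9,k18)],[(k1,k12),(k4,k12),(k7,k12),
    (k10,k13)],[(k1,k12),(k4,k12),(k7,k12),(k10,k13)],[(k5,k12),(k11,k13),(k2,k16),(k8,k18)],[(k5,k18),(k11,k19),(k2,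
    k22),(k8,k24)],[(k0,k16),(k6,k18),(k3,k22),(k9,k24)],[(k0,k13),(k6,k13),(k3,k19),(k9,k19)],[(k1,k13),(k4,k13),(k7,
    k13),(k10,k14)]]
    [] k0
    [[k1,k0,k1,k0,k0,k0],[k1,k1,k1,k0,k0,k0],[k1,k0,k1,k0,k1,k0],[k1,k0,k0,k0,k0,k1],[k0,k2,k0,k0,k0,k0],[k0,k1,k1,k1,
    k0,k0],[k0,k1,k0,k0,k1,k0],[k0,k0,k1,k1,k0,k0],[k0,k0,k0,k1,k0,k1]]
    [.ref k14 k0 [(z1,[z1])],.ref k3 k0 [(z1,[z1])],.ref k2 k0 [(z1,[z1])],.ref k0 k0 [(z1,[z1])],.contra [z1],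
    .ref k15 k0 [(z1,[y1,z1])],.ref k1 k0 [(z1,[y1,z1])],.ref k0 k1 [(z1,[z1])],.ref k14 k1 [(z1,[z1])]])]⟩

/-- classes `0 0 1 0 0 1`, types `B0 B1 S0 B1 B0 S0` -/
noncomputable def cU6_708 : CertX :=
  ⟨[k8,k9,k16,k9,k8,k16],[(false,k0,[k0,k1,k2,k3,k4,k5]),(true,k2,[k2,k1,k0,k5,k4,k3]),(false,k3,[k3,k4,k5,k0,k1,k2]),
    (true,k5,[k5,k4,k3,k2,k1,k0])],[[[([z1,z0,z0,z1,z0,z0],z2)],[([z1,z0,z1,z1,z0,z1],z2)],[([z1,z0,z1,z0,z1,z0],z2)],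
    [([z1,z1,z1,z0,z0,z0],z2)],[([z1,z0,z1,z0,z0,z0],z1),([z0,z3,z0,z0,z0,z0],z1),([z0,z0,z0,z1,z0,z1],z2)],[([z1,z0,
    z1,z0,z0,z0],z1),([z0,z2,z0,z0,z0,z0],z1),([z0,z0,z0,z1,z0,z1],z2)],[([z1,z0,z1,z0,z0,z0],z1),([z0,z3,z0,z0,z0,
    z0],z2),([z0,z0,z0,z1,z0,z1],z2)],[([z1,z0,z0,z0,y1,y1],y1),([z0,z1,z0,z0,z1,z0],z1),([z0,z0,z1,z0,z1,z1],z2)],
    [([z1,z0,z1,z0,z0,z0],z1),([z0,z1,z0,z0,z1,z0],z1)],[([z1,z0,z0,z1,z1,z0],z2),([z0,z1,z0,z0,y1,z0],z0)],[([z3,z0,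
    z0,z0,z0,y3],y2),([z0,z3,z0,z0,z0,z0],z2),([z0,z0,z1,z0,z1,z1],z2)],[([z1,z0,z0,z0,y1,y1],z0),([z0,z1,z0,z1,z1,
    z1],z2)]],[[([z3,z0,z3,z0,z0,z0],z2),([z0,z3,z0,z0,z0,z0],z2),([z0,z0,z0,z1,z0,z1],z2)],[([z1,z0,z1,z0,z0,z0],z2),
    ([z0,z3,z0,z0,z0,z0],z2)],[([z1,z0,z1,z0,z0,z0],z2)],[([z1,z0,z0,z1,z1,z0],z2)],[]]],
    [.old (.leafM k6 [k1,k2,k4,k5] [] [(k3,k0,z1,[z1]),(k0,k3,z1,[z1])]),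
    .old (.leafM k2 [k2,k3,k5,k0] [] [(k4,k1,z1,[y1,z1]),(k1,k4,z1,[y1,z1])]),
    .old (.leafM k1 [k0,k1,k2,k3,k4,k5] [(z1,[y1,z1]),(z1,[z1])] []),
    .old (.leafM k6 [k0,k1,k2,k3,k4,k5] [(z1,[y1,z1])] []),
    .old (.leafM k11 [k2,k4,k0,k1] [(z1,[y3,y1,y3,z3]),(z1,[z0,z1]),(z1,[z1])] [(k3,k5,z1,[z0,z0,z1]),(k5,k3,z1,[z0,z0,
    z1])]),
    .old (.leafM k12 [k0,k1,k2,k4] [(z1,[z0,z1]),(z1,[y2,y1,y2,z2]),(z1,[z1])] [(k3,k5,z1,[z0,z0,z1]),(k5,k3,z1,[z0,z0,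
    z1])]),
    .old (.leafM k11 [k0,k1,k2,k4] [(z1,[z0,z1]),(z1,[y3,y1,y3,z3]),(z1,[z1])] [(k3,k5,z1,[z0,z0,z1]),(k5,k3,z1,[z0,z0,
    z1])]),
    .old (.lp [k72,k60,k48,k108,k88,k94] [k18,k18,k24,k24,k30,k30,k0,k0,k10,k10,k7,k7] k0 [[k0,k0,k0,k0,k0,k0,k0,k42],[],
    [],[],[],[],[k0,k42,k0,k0,k0,k0,k0,k0,k0,k10],[k0,k0,k0,k0,k0,k0,k0,k0,k0,k38],[k0,k0,k0,k0,k0,k0,k38,
    k10]] (nat_lit 240) k6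
    [[(k4,k60),(k1,k72),(k10,k83),(k7,k90)],[(k6,k48),(k5,k60),(k2,k66),(k9,k80)],[(k5,k54),(k2,k60),(k6,k84),(k9,
    k116)],[(k3,k60),(k0,k66),(k8,k74),(k11,k77)],[(k3,k54),(k0,k60),(k8,k68),(k11,k71)],[(k4,k48),(k1,k60),(k10,k71),
    (k7,k78)],[(k4,k78),(k1,k90),(k10,k101),(k7,k108)],[(k0,k48),(k3,k84),(k8,k88),(k11,k139)],[(k8,k50),(k0,k80),
    (k11,k101),(k3,k116)],[(k9,k50),(k5,k68),(k2,k74),(k6,k88)],[(k5,k71),(k2,k77),(k9,k101),(k6,k139)],[(k4,k71),(k1,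
    k83),(k10,k94),(k7,k101)]]
    [] k0
    [[k1,k0,k1,k0,k0,k0],[k1,k1,k1,k0,k0,k0],[k1,k0,k1,k0,k1,k0],[k1,k0,k0,k1,k0,k0],[k0,k2,k0,k0,k0,k0],[k0,k3,k0,k0,
    k0,k0],[k0,k1,k1,k0,k0,k1],[k0,k1,k0,k0,k1,k0],[k0,k0,k1,k0,k0,k1],[k0,k0,k0,k0,k2,k0],[k0,k0,k0,k0,k3,k0],[k0,k0,
    k0,k0,k4,k0]]
    [.contra [y1,z2,z0,z2],.contra [z1,y1,z0,y1],.contra [z1,y1,z0,y1],.contra [z1,z0,z1,z1,y1],.contra [z1],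
    .ref k6 k0 [(z1,[z0,z1,z0,z1]),(z1,[z1]),(z1,[z0,y1,y1,y1,z1])],.ref k5 k0 [(z1,[z0,z1,z0,z1]),(z1,[z1,z0,z1,y1]),
    (z1,[z0,y1,y1,y1,z1])],.contra [y1,z1,z1,z1],.contra [z1,z0,z1,y1],.contra [z1],.ref k4 k0 [(z1,[z0,z1,z0,z1]),
    (z1,[y1,z0,z3]),(z1,[z0,y1,y1,y1,z1])],.ref k5 k0 [(z1,[z0,z1,z0,z1]),(z2,[y1,z0,z4]),(z1,[z0,y1,y1,y1,z1])]]),
    .old (.lp [k72,k62,k48,k106,k116,k72] [k22,k22,k27,k27,k34,k34,k5,k5,k0,k0,k22,k22] k0 [[k0,k0,k0,k0,k0,k0,k0,k8],[],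
    [k0,k0,k0,k0,k0,k0,k0,k0,k4],[],[],[],[k0,k8],[k0,k0,k0,k0,k0,k0,k0,k0,k0,k62],[k0,k0,k0,k0,k0,k0,k62],[k0,k0,k0,
    k4]] (nat_lit 240) k6
    [[(k4,k60),(k1,k72),(k10,k72),(k7,k89)],[(k5,k60),(k2,k67),(k6,k81),(k9,k94)],[(k5,k55),(k2,k62),(k6,k84),(k9,
    k97)],[(k3,k62),(k11,k63),(k0,k67),(k8,k89)],[(k3,k55),(k0,k60),(k11,k60),(k8,k86)],[(k4,k48),(k1,k60),(k10,k60),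
    (k7,k77)],[(k4,k77),(k1,k89),(k10,k89),(k7,k106)],[(k0,k81),(k3,k84),(k8,k111),(k11,k151)],[(k8,k54),(k0,k94),
    (k11,k94),(k3,k97)],[(k9,k54),(k5,k86),(k2,k89),(k6,k111)],[(k5,k60),(k2,k63),(k9,k94),(k6,k151)],[(k4,k60),(k1,
    k72),(k10,k72),(k7,k89)]]
    [] k0
    [[k1,k0,k1,k0,k0,k0],[k1,k1,k1,k0,k0,k0],[k1,k0,k0,k1,k0,k0],[k0,k2,k0,k0,k0,k0],[k0,k3,k0,k0,k0,k0],[k0,k1,k1,k0,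
    k0,k1],[k0,k1,k0,k1,k0,k1],[k0,k1,k0,k0,k1,k0],[k0,k0,k1,k0,k0,k1],[k0,k0,k0,k0,k2,k0],[k0,k0,k0,k0,k3,k0],[k0,k0,
    k0,k0,k4,k0]]
    [.contra [y1,z2],.contra [z1,y1],.ref k0 k0 [(z1,[z1])],.contra [z1],.ref k6 k0 [(z1,[z0,z1]),(z1,[z1]),(z1,[z0,
    y1,y1,z1])],.ref k7 k1 [(z1,[z1,z1,z0,y1]),(z1,[z0,z0,z1]),(z1,[y1,z0,z0,z1])],.contra [y1,y1,z0,z1],.contra [y1,
    z1,z1],.ref k0 k1 [(z1,[z1])],.contra [z1],.ref k4 k0 [(z1,[z0,z1]),(z1,[y1,z0,z3]),(z1,[z0,y1,y1,z1])],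
    .ref k5 k0 [(z1,[z0,z1]),(z2,[y1,z0,z4]),(z1,[z0,y1,y1,z1])]]),
    .old (.tor k2 false k1 [(z1,[z1]),(z1,[z1,z1]),(z1,[y1,y1,z1]),(z1,[y1,z0,z1])]),
    .old (.lp [k52,k78,k48,k104,k102,k94] [k26,k26,k13,k13,k28,k28,k0,k0,k1,k1,k5,k5] k0 [[k0,k0,k2],[k0,k0,k6],[k0,k0,k0,
    k0,k0,k0,k0,k0,k38],[k6,k2],[],[],[],[k0,k0,k0,k0,k0,k0,k0,k0,k0,k42],[k0,k0,k0,k0,k0,k0,k42],[k0,k0,k0,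
    k38]] (nat_lit 240) k6
    [[(k4,k50),(k1,k52),(k10,k73),(k7,k78)],[(k5,k48),(k2,k71),(k9,k77),(k6,k78)],[(k5,k57),(k2,k80),(k9,k90),(k6,
    k91)],[(k11,k48),(k0,k71),(k3,k80),(k8,k90)],[(k0,k48),(k3,k57),(k11,k71),(k8,k113)],[(k4,k48),(k1,k50),(k10,k71),
    (k7,k76)],[(k4,k76),(k1,k78),(k10,k99),(k7,k104)],[(k0,k78),(k3,k91),(k8,k103),(k11,k141)],[(k8,k60),(k0,k77),(k3,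
    k90),(k11,k98)],[(k9,k60),(k2,k90),(k6,k103),(k5,k113)],[(k2,k48),(k5,k71),(k9,k98),(k6,k141)],[(k4,k71),(k1,k73),
    (k10,k94),(k7,k99)]]
    [] k0
    [[k2,k0,k2,k0,k0,k0],[k1,k0,k1,k0,k0,k0],[k1,k1,k1,k0,k0,k0],[k1,k0,k0,k1,k0,k0],[k0,k2,k0,k0,k0,k0],[k0,k1,k1,k0,
    k0,k1],[k0,k1,k0,k1,k0,k1],[k0,k1,k0,k0,k1,k0],[k0,k0,k1,k0,k0,k1],[k0,k0,k0,k0,k2,k0],[k0,k0,k0,k0,k3,k0]]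
    [.ref k8 k0 [(z2,[z1]),(z6,[y3,z2,z2,z6])],.contra [y3,z1,z1,z3],.contra [y3,z1,z1,z3],.contra [z1,z0,z1,z1,y1],
    .contra [z1],.ref k9 k0 [(z1,[y1,z0,z0,z0,z1]),(z1,[z1,z0,z0,y1])],.contra [y3,y1,z2,y3,z3],.contra [y3,z1,z1,z3],
    .contra [y1,z0,z0,z1],.contra [z1],.ref k9 k0 [(z3,[z1,z0,y1,y3,z3]),(z3,[y1,z0,z1])]]),
    .old (.lp [k112,k80,k128,k48,k62,k48] [k8,k8,k24,k24,k0,k0,k40,k40,k33,k33,k40,k40] k0 [[k0,k0,k0,k0,k0,k0,k0,k16],[],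
    [],[k0,k0,k0,k0,k0,k0,k0,k0,k20],[],[],[k0,k16,k0,k0,k0,k0,k0,k0,k0,k2],[],[k0,k0,k0,k0,k0,k0,k0,k2],[k0,k0,
    k20]] (nat_lit 240) k6
    [[(k7,k80),(k10,k80),(k1,k112),(k4,k120)],[(k6,k64),(k9,k87),(k2,k96),(k5,k120)],[(k6,k64),(k2,k80),(k9,k87),(k5,
    k104)],[(k11,k64),(k3,k80),(k8,k91),(k0,k96)],[(k11,k68),(k8,k95),(k3,k104),(k0,k120)],[(k7,k88),(k10,k88),(k1,
    k120),(k4,k128)],[(k7,k48),(k10,k48),(k1,k80),(k4,k88)],[(k11,k48),(k8,k53),(k0,k64),(k3,k64)],[(k11,k57),(k8,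
    k62),(k0,k87),(k3,k87)],[(k6,k53),(k9,k62),(k2,k91),(k5,k95)],[(k6,k48),(k9,k57),(k2,k64),(k5,k68)],[(k7,k48),
    (k10,k48),(k1,k80),(k4,k88)]]
    [] k0
    [[k1,k0,k0,k1,k0,k0],[k1,k0,k0,k1,k1,k0],[k0,k2,k0,k0,k0,k0],[k0,k1,k0,k1,k0,k1],[k0,k1,k0,k0,k1,k0],[k0,k0,k1,k0,
    k0,k1],[k0,k0,k0,k2,k0,k2],[k0,k0,k0,k1,k0,k1],[k0,k0,k0,k1,k1,k1],[k0,k0,k0,k1,k2,k1],[k0,k0,k0,k0,k2,k0],[k0,k0,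
    k0,k0,k3,k0]]
    [.contra [y1,z1,z1],.ref k9 k0 [(z1,[z1]),(z1,[y1,z1,z1])],.contra [z1],.contra [y1,z0,z1],.contra [y1,z0,z1],
    .contra [y1,y1,y1,z1],.ref k8 k2 [(z2,[z1]),(z2,[y1,z0,z2])],.contra [y1,z0,z1],.contra [y1,z0,z1],
    .ref k9 k0 [(z1,[z1,z1]),(z1,[y1,z0,z1])],.contra [z1],.ref k10 k3 [(z1,[y1,y3]),(z1,[z1]),(z1,[z0,z1,z1])]]),
    .old (.leafM k10 [k0,k1,k2,k4] [(z1,[z0,z1]),(z1,[y1,y1,y3,z3]),(z1,[z1])] [(k3,k5,z1,[z0,z0,z1]),(k5,k3,z1,[z0,z0,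
    z1])]),
    .old (.lp [k130,k82,k108,k48,k62,k48] [k0,k0,k24,k24,k11,k11,k41,k41,k34,k34,k41,k41] k0 [[k0,k0,k0,k2,k0,k0,k0,k34],
    [k0,k0,k0,k2],[k2,k2],[],[],[],[k0,k34]] (nat_lit 240) k6
    [[(k7,k89),(k10,k89),(k4,k119),(k1,k130)],[(k6,k55),(k9,k96),(k2,k104),(k5,k121)],[(k6,k65),(k2,k80),(k5,k97),(k9,
    k106)],[(k11,k65),(k8,k72),(k3,k80),(k0,k104)],[(k11,k78),(k8,k85),(k3,k97),(k0,k121)],[(k7,k78),(k10,k78),(k4,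
    k108),(k1,k119)],[(k7,k48),(k10,k48),(k4,k78),(k1,k89)],[(k11,k48),(k0,k55),(k8,k55),(k3,k65)],[(k11,k55),(k8,
    k62),(k0,k96),(k3,k106)],[(k6,k55),(k9,k62),(k2,k72),(k5,k85)],[(k6,k48),(k9,k55),(k2,k65),(k5,k78)],[(k7,k48),
    (k10,k48),(k4,k78),(k1,k89)]]
    [] k0
    [[k1,k0,k0,k1,k0,k0],[k0,k2,k0,k0,k0,k0],[k0,k1,k0,k1,k0,k1],[k0,k1,k0,k0,k1,k0],[k0,k0,k1,k0,k1,k1],[k0,k0,k1,k0,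
    k0,k1],[k0,k0,k0,k2,k0,k2],[k0,k0,k0,k1,k0,k1],[k0,k0,k0,k1,k1,k1],[k0,k0,k0,k1,k2,k1],[k0,k0,k0,k0,k2,k0],[k0,k0,
    k0,k0,k3,k0]]
    [.ref k0 k0 [(z1,[z1])],.contra [z1],.contra [y1,y1,z0,z1],.contra [y1,y1,z0,z1],.ref k11 k0 [(z1,[y1,z1]),(z1,
    [z0,y1,z0,z1])],.ref k0 k1 [(z1,[z1])],.ref k8 k2 [(z2,[z1]),(z2,[y1,y2,z0,z2])],.contra [y1,y1,z0,z1],
    .contra [z1,z1,z1,y1],.ref k12 k2 [(z1,[y3,y6,y2,z6]),(z1,[z3,z3,z1,y3]),(z1,[z0,z1])],.contra [z1],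
    .ref k12 k2 [(z1,[y1,y3,y1,z3]),(z1,[z1]),(z1,[z0,z1])]]),
    .old (.lp [k112,k82,k108,k48,k80,k48] [k0,k0,k15,k15,k2,k2,k32,k32,k16,k16,k32,k32] k0 [[k0,k0,k0,k2,k0,k0,k0,k16],
    [k0,k0,k0,k20],[k20,k2],[],[],[],[k0,k16]] (nat_lit 240) k6
    [[(k7,k80),(k10,k80),(k4,k110),(k1,k112)],[(k6,k64),(k2,k95),(k9,k96),(k5,k130)],[(k2,k62),(k6,k65),(k5,k97),(k9,
    k97)],[(k3,k62),(k11,k65),(k8,k81),(k0,k95)],[(k11,k78),(k8,k94),(k3,k97),(k0,k130)],[(k7,k78),(k10,k78),(k4,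
    k108),(k1,k110)],[(k7,k48),(k10,k48),(k4,k78),(k1,k80)],[(k11,k48),(k0,k64),(k8,k64),(k3,k65)],[(k11,k64),(k8,
    k80),(k0,k96),(k3,k97)],[(k6,k64),(k9,k80),(k2,k81),(k5,k94)],[(k6,k48),(k9,k64),(k2,k65),(k5,k78)],[(k7,k48),
    (k10,k48),(k4,k78),(k1,k80)]]
    [] k0
    [[k1,k0,k0,k1,k0,k0],[k0,k2,k0,k0,k0,k0],[k0,k3,k0,k0,k0,k0],[k0,k1,k0,k1,k0,k1],[k0,k1,k0,k0,k1,k0],[k0,k0,k1,k0,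
    k1,k1],[k0,k0,k1,k0,k0,k1],[k0,k0,k0,k2,k0,k2],[k0,k0,k0,k1,k0,k1],[k0,k0,k0,k1,k1,k1],[k0,k0,k0,k0,k2,k0]]
    [.ref k0 k0 [(z1,[z1])],.contra [z1],.ref k13 k0 [(z1,[z0,z1]),(z1,[z1])],.contra [y1,y1,z1],.contra [y1,y1,z1],
    .ref k11 k0 [(z1,[y1,z1]),(z1,[z0,y1,z1])],.ref k0 k1 [(z1,[z1])],.ref k8 k2 [(z2,[z1]),(z2,[y1,y2,z2])],
    .contra [y1,y1,z1],.contra [y1,y1,z1],.contra [z1]]),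
    .old (.lp [k6,k10,k6,k8,k10,k6] [k2,k2,k0,k0,k2,k2,k0,k2,k0,k0,k2,k2] k0 [[],[],[],[k0,k0,k0,k0,k0,k0,k0,k0,k0,k2],[],
    [],[k0,k0,k0,k0,k0,k0,k0,k0,k2],[],[k0,k0,k2],[k0,k0,k0,k0,k0,k0,k0,k2]] k24 k5
    [[(k1,k6),(k4,k6),(k7,k6),(k10,k6)],[(k5,k6),(k2,k8),(k6,k8),(k9,k8)],[(k5,k8),(k2,k10),(k6,k10),(k9,k10)],[(k0,
    k8),(k3,k10),(k8,k10),(k11,k10)],[(k0,k6),(k8,k6),(k11,k6),(k3,k8)],[(k1,k6),(k4,k6),(k7,k6),(k10,k6)],[(k1,k6),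
    (k4,k6),(k7,k6),(k10,k6)],[(k11,k6),(k0,k8),(k3,k10),(k8,k10)],[(k0,k8),(k11,k8),(k3,k10),(k8,k12)],[(k5,k6),(k2,
    k10),(k6,k10),(k9,k12)],[(k5,k6),(k6,k6),(k9,k8),(k2,k10)],[(k1,k6),(k4,k6),(k7,k6),(k10,k6)]]
    [] k0
    [[k1,k0,k1,k0,k0,k0],[k1,k1,k1,k0,k0,k0],[k1,k0,k1,k0,k1,k0],[k1,k0,k0,k1,k0,k0],[k0,k2,k0,k0,k0,k0],[k0,k1,k0,k0,
    k1,k0],[k0,k0,k1,k0,k1,k1],[k0,k0,k1,k0,k0,k1],[k0,k0,k0,k1,k0,k1]]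
    [.ref k14 k0 [(z1,[z1])],.ref k3 k0 [(z1,[z1])],.ref k2 k0 [(z1,[z1])],.contra [y1,z1],.contra [z1],
    .ref k1 k0 [(z1,[y1,z0,z1])],.ref k9 k0 [(z1,[z0,z1]),(z1,[y1,y1,z1])],.contra [y1,y1,z1],.ref k14 k2 [(z1,
    [z1])]]),
    .old (.lp [k6,k10,k6,k8,k10,k6] [k2,k2,k0,k0,k2,k2,k0,k2,k0,k0,k2,k2] k0 [[],[],[],[k0,k0,k0,k0,k0,k0,k0,k0,k0,k2],[],
    [],[k0,k0,k0,k0,k0,k0,k0,k0,k2],[],[k0,k0,k2],[k0,k0,k0,k0,k0,k0,k0,k2]] k24 k5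
    [[(k1,k6),(k4,k6),(k7,k6),(k10,k6)],[(k5,k6),(k2,k8),(k6,k8),(k9,k8)],[(k5,k8),(k2,k10),(k6,k10),(k9,k10)],[(k0,
    k8),(k3,k10),(k8,k10),(k11,k10)],[(k0,k6),(k8,k6),(k11,k6),(k3,k8)],[(k1,k6),(k4,k6),(k7,k6),(k10,k6)],[(k1,k6),
    (k4,k6),(k7,k6),(k10,k6)],[(k11,k6),(k0,k8),(k3,k10),(k8,k10)],[(k0,k8),(k11,k8),(k3,k10),(k8,k12)],[(k5,k6),(k2,
    k10),(k6,k10),(k9,k12)],[(k5,k6),(k6,k6),(k9,k8),(k2,k10)],[(k1,k6),(k4,k6),(k7,k6),(k10,k6)]]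
    [] k0
    [[k1,k0,k1,k0,k0,k0],[k1,k1,k1,k0,k0,k0],[k1,k0,k1,k0,k1,k0],[k1,k0,k0,k1,k0,k0],[k0,k2,k0,k0,k0,k0],[k0,k1,k0,k0,
    k1,k0],[k0,k0,k1,k0,k1,k1],[k0,k0,k1,k0,k0,k1],[k0,k0,k0,k1,k0,k1]]
    [.ref k14 k0 [(z1,[z1])],.ref k3 k0 [(z1,[z1])],.ref k2 k0 [(z1,[z1])],.ref k0 k0 [(z1,[z1])],.contra [z1],
    .ref k1 k0 [(z1,[y1,z1])],.ref k15 k2 [(z1,[y1,z1])],.ref k0 k1 [(z1,[z1])],.ref k14 k2 [(z1,[z1])]])]⟩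

/-- classes `0 0 1 0 0 1`, types `C0 C0 B0 C0 C0 B1` -/
noncomputable def cU6_709 : CertX :=
  ⟨[k4,k4,k24,k4,k4,k25],[(false,k0,[k0,k1,k2,k3,k4,k5]),(false,k3,[k3,k4,k5,k0,k1,k2])],[[[([z1,z0,z1,z1,z0,z1],z2)],
    [([z1,z0,z1,z0,z1,z0],z2)],[([z1,z1,z1,z0,z0,z0],z2)],[([z1,z0,z1,z0,z0,z0],z1),([z0,z3,z0,z0,z0,z0],z1),([z0,z0,
    z0,z1,z0,z1],z2)],[([z1,z0,z1,z0,z0,z0],z1),([z0,z2,z0,z0,z0,z0],z1),([z0,z0,z0,z1,z0,z1],z2)],[([z1,z0,z1,z0,z0,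
    z0],z1),([z0,z3,z0,z0,z0,z0],z2),([z0,z0,z0,z1,z0,z1],z2)],[([z1,z0,z1,z0,z0,z0],z1),([z0,z1,z0,z0,z1,z0],z1)],
    [([z3,z0,z3,z0,z0,z0],z2),([z0,z3,z0,z0,z0,z0],z2),([z0,z0,z0,z1,z0,z1],z2)],[([z1,z0,z1,z0,z0,z0],z2),([z0,z3,z0,
    z0,z0,z0],z2)],[([z1,z0,z1,z0,z0,z0],z2)],[]]],
    [.old (.leafM k5 [k0,k2,k3,k5] [] [(k1,k4,z1,[y1,z1]),(k4,k1,z1,[y1,z1])]),
    .old (.leafM k1 [k0,k1,k2,k3,k4,k5] [(z1,[y1,z1]),(z1,[z1])] []),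
    .old (.leafM k0 [k2,k3,k4,k5,k0,k1] [(z1,[y1,z1])] []),
    .old (.leafM k11 [k2,k4,k0,k1] [(z1,[y3,y1,y3,z3]),(z1,[z0,z1]),(z1,[z1])] [(k3,k5,z1,[z0,z0,z1]),(k5,k3,z1,[z0,z0,
    z1])]),
    .old (.leafM k12 [k0,k1,k2,k4] [(z1,[z0,z1]),(z1,[y2,y1,y2,z2]),(z1,[z1])] [(k3,k5,z1,[z0,z0,z1]),(k5,k3,z1,[z0,z0,
    z1])]),
    .old (.leafM k11 [k0,k1,k2,k4] [(z1,[z0,z1]),(z1,[y3,y1,y3,z3]),(z1,[z1])] [(k3,k5,z1,[z0,z0,z1]),(k5,k3,z1,[z0,z0,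
    z1])]),
    .old (.lp [k84,k60,k36,k60,k70,k160] [k38,k38,k50,k50,k62,k62,k50,k50,k45,k45,k0,k0] k0 [[k0,k0,k0,k0,k0,k0,k0,k0,
    k60],[],[],[],[],[],[],[k0,k0,k0,k0,k0,k0,k0,k0,k0,k20],[k0,k0,k0,k0,k0,k0,k20],[k0,k60]] (nat_lit 240) k6
    [[(k4,k60),(k7,k72)],[(k5,k60),(k11,k62),(k3,k72),(k9,k77)],[(k2,k60),(k6,k60),(k0,k72),(k8,k125)],[(k5,k48),(k3,
    k60),(k9,k65),(k11,k110)],[(k2,k48),(k6,k48),(k8,k53),(k0,k60)],[(k1,k60),(k10,k98)],[(k1,k72),(k10,k110)],[(k5,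
    k48),(k3,k60),(k9,k65),(k11,k130)],[(k8,k50),(k2,k65),(k6,k65),(k0,k77)],[(k9,k50),(k5,k53),(k11,k115),(k3,k125)],
    [(k0,k62),(k2,k110),(k8,k115),(k6,k130)],[(k4,k98),(k7,k110)]]
    [] k0
    [[k1,k0,k1,k0,k0,k0],[k1,k1,k1,k0,k0,k0],[k1,k0,k1,k0,k1,k0],[k0,k2,k0,k0,k0,k0],[k0,k3,k0,k0,k0,k0],[k0,k1,k0,k0,
    k1,k0],[k0,k0,k0,k0,k2,k0],[k0,k0,k0,k0,k3,k0],[k0,k0,k0,k0,k4,k0]]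
    [.contra [y1,z2],.contra [z1,y1],.contra [z1,y1],.contra [z1],.ref k5 k0 [(z1,[z0,z1]),(z1,[z1]),(z1,[z0,y1,y1,
    z1])],.contra [y1,z1,z1],.contra [z1],.ref k3 k0 [(z1,[z0,z1]),(z1,[y1,z0,z3]),(z1,[z0,y1,y1,z1])],
    .ref k4 k0 [(z1,[z0,z1]),(z2,[y1,z0,z4]),(z1,[z0,y1,y1,z1])]]),
    .old (.leafM k10 [k0,k1,k2,k4] [(z1,[z0,z1]),(z1,[y1,y1,y3,z3]),(z1,[z1])] [(k3,k5,z1,[z0,z0,z1]),(k5,k3,z1,[z0,z0,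
    z1])]),
    .old (.lp [k190,k82,k48,k48,k62,k48] [k0,k0,k54,k54,k71,k71,k71,k71,k64,k64,k71,k71] k0 [[k0,k0,k0,k0,k0,k0,k0,k0,
    k34],[k0,k0,k0,k2],[k2],[],[],[],[],[],[],[k0,k34]] (nat_lit 240) k6
    [[(k4,k119),(k7,k119)],[(k11,k85),(k5,k121),(k9,k126),(k3,k136)],[(k6,k65),(k2,k80),(k8,k106),(k0,k136)],[(k5,
    k65),(k11,k65),(k9,k72),(k3,k80)],[(k6,k48),(k8,k55),(k2,k65),(k0,k121)],[(k10,k48),(k1,k119)],[(k10,k48),(k1,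
    k119)],[(k5,k48),(k11,k48),(k9,k55),(k3,k65)],[(k6,k55),(k8,k62),(k2,k72),(k0,k126)],[(k5,k55),(k11,k55),(k9,k62),
    (k3,k106)],[(k6,k48),(k8,k55),(k2,k65),(k0,k85)],[(k4,k48),(k7,k48)]]
    [] k0
    [[k0,k2,k0,k0,k0,k0],[k0,k1,k0,k1,k0,k1],[k0,k1,k0,k0,k1,k0],[k0,k0,k0,k1,k0,k1],[k0,k0,k0,k2,k0,k2],[k0,k0,k0,k1,
    k1,k1],[k0,k0,k0,k1,k2,k1],[k0,k0,k0,k0,k2,k0],[k0,k0,k0,k0,k3,k0]]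
    [.contra [z1],.contra [y1,y1,z0,z1],.contra [y1,y1,z0,z1],.contra [y1,y1,z0,z1],.ref k6 k1 [(z2,[z1]),(z2,[y1,y2,
    z0,z2])],.contra [z1,z1,z1,y1],.ref k7 k1 [(z1,[y3,y6,y2,z6]),(z1,[z3,z3,z1,y3]),(z1,[z0,z1])],.contra [z1],
    .ref k7 k1 [(z1,[y1,y3,y1,z3]),(z1,[z1]),(z1,[z0,z1])]]),
    .old (.lp [k172,k82,k48,k48,k80,k48] [k0,k0,k45,k45,k62,k62,k62,k62,k46,k46,k62,k62] k0 [[k0,k0,k0,k0,k0,k0,k0,k0,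
    k16],[k0,k0,k0,k20],[k20],[],[],[],[],[],[],[k0,k16]] (nat_lit 240) k6
    [[(k4,k110),(k7,k110)],[(k11,k94),(k9,k126),(k3,k127),(k5,k130)],[(k2,k62),(k6,k65),(k8,k97),(k0,k127)],[(k3,k62),
    (k5,k65),(k11,k65),(k9,k81)],[(k6,k48),(k8,k64),(k2,k65),(k0,k130)],[(k10,k48),(k1,k110)],[(k10,k48),(k1,k110)],
    [(k5,k48),(k11,k48),(k9,k64),(k3,k65)],[(k6,k64),(k8,k80),(k2,k81),(k0,k126)],[(k5,k64),(k11,k64),(k9,k80),(k3,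
    k97)],[(k6,k48),(k8,k64),(k2,k65),(k0,k94)],[(k4,k48),(k7,k48)]]
    [] k0
    [[k0,k2,k0,k0,k0,k0],[k0,k3,k0,k0,k0,k0],[k0,k1,k0,k1,k0,k1],[k0,k1,k0,k0,k1,k0],[k0,k0,k0,k1,k0,k1],[k0,k0,k0,k2,
    k0,k2],[k0,k0,k0,k1,k1,k1],[k0,k0,k0,k0,k2,k0]]
    [.contra [z1],.ref k8 k0 [(z1,[z0,z1]),(z1,[z1])],.contra [y1,y1,z1],.contra [y1,y1,z1],.contra [y1,y1,z1],
    .ref k6 k1 [(z2,[z1]),(z2,[y1,y2,z2])],.contra [y1,y1,z1],.contra [z1]]),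
    .old (.lp [k8,k8,k4,k8,k10,k8] [k1,k1,k1,k1,k3,k3,k1,k1,k0,k0,k1,k1] k0 [[],[],[],[],[],[],[k0,k0,k0,k0,k0,k0,k0,k0,
    k2],[],[],[k0,k0,k0,k0,k0,k0,k0,k2]] k24 k5
    [[(k4,k6),(k7,k8)],[(k5,k6),(k3,k8),(k11,k8),(k9,k9)],[(k0,k8),(k2,k8),(k6,k8),(k8,k9)],[(k5,k6),(k3,k8),(k11,k8),
    (k9,k9)],[(k0,k6),(k2,k6),(k6,k6),(k8,k7)],[(k1,k6),(k10,k6)],[(k1,k8),(k10,k8)],[(k5,k6),(k11,k6),(k3,k8),(k9,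
    k9)],[(k0,k9),(k2,k9),(k6,k9),(k8,k12)],[(k5,k7),(k3,k9),(k11,k9),(k9,k12)],[(k6,k6),(k0,k8),(k2,k8),(k8,k9)],
    [(k4,k6),(k7,k8)]]
    [] k0
    [[k1,k0,k1,k0,k0,k0],[k1,k1,k1,k0,k0,k0],[k1,k0,k1,k0,k1,k0],[k0,k2,k0,k0,k0,k0],[k0,k1,k0,k0,k1,k0],[k0,k0,k0,k1,
    k0,k1]]
    [.ref k9 k0 [(z1,[z1])],.ref k2 k0 [(z1,[z1])],.ref k1 k0 [(z1,[z1])],.contra [z1],.ref k0 k0 [(z1,[y1,z1])],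
    .ref k9 k1 [(z1,[z1])]])]⟩

/-- classes `0 0 1 0 0 1`, types `C0 C0 B0 C0 C2 B1` -/
noncomputable def cU6_710 : CertX :=
  ⟨[k4,k4,k24,k4,k6,k25],[(false,k0,[k0,k1,k2,k3,k4,k5])],[[[([z1,z1,z1,z0,z0,z0],z2)],[([z1,z1,z0,z1,z1,z0],z2)],
    [([z1,z0,z0,z1,z1,z0],z2)],[]]],
    [.old (.leafM k0 [k2,k3,k4,k5,k0,k1] [(z1,[y1,z1])] []),
    .old (.leafM k2 [k0,k1,k3,k4] [] [(k2,k5,z1,[y1,z1]),(k5,k2,z1,[y1,z1])]),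
    .old (.leafM k3 [k4,k5,k0,k1,k2,k3] [(z1,[y1,z1])] []),
    .old (.lp [k134,k90,k96,k54,k42,k54] [k0,k0,k22,k22,k19,k19,k40,k40,k46,k46,k40,k40] k0 [[],[k0,k0,k0,k10],
    [k10]] (nat_lit 240) k6
    [[(k7,k94),(k4,k115)],[(k8,k88),(k9,k88),(k3,k112),(k5,k125)],[(k6,k72),(k11,k72),(k2,k80),(k0,k112)],[(k8,k66),
    (k9,k66),(k3,k80),(k5,k93)],[(k6,k75),(k11,k75),(k2,k93),(k0,k125)],[(k10,k75),(k1,k115)],[(k10,k54),(k1,k94)],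
    [(k8,k48),(k9,k48),(k3,k72),(k5,k75)],[(k6,k48),(k11,k48),(k2,k66),(k0,k88)],[(k6,k48),(k11,k48),(k2,k66),(k0,
    k88)],[(k8,k48),(k9,k48),(k3,k72),(k5,k75)],[(k7,k54),(k4,k75)]]
    [] k0
    [[k1,k0,k0,k1,k1,k0],[k0,k2,k0,k0,k0,k0],[k0,k0,k1,k0,k0,k1],[k0,k0,k0,k1,k1,k1]]
    [.ref k2 k0 [(z1,[z1])],.contra [z1],.ref k1 k0 [(z1,[y1,z1])],.ref k0 k0 [(z1,[y1,z1])]])]⟩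

/-- classes `0 0 1 0 0 1`, types `C0 C0 B0 C2 C2 B1` -/
noncomputable def cU6_711 : CertX :=
  ⟨[k4,k4,k24,k6,k6,k25],[(false,k0,[k0,k1,k2,k3,k4,k5]),(false,k3,[k3,k4,k5,k0,k1,k2]),(true,k2,[k2,k1,k0,k5,k4,
    k3])],[[[([z1,z1,z1,z0,z0,z0],z2)],[([z1,z0,z0,z1,z0,z0],z2)],[([z1,z0,z1,z1,z0,z1],z2)],[([z1,z0,z1,z0,z1,z0],
    z2)],[([z1,z0,z0,z1,z1,z0],z2)],[([z1,z0,z1,z0,z0,z0],z1),([z0,z3,z0,z0,z0,z0],z1),([z0,z0,z0,z1,z0,z1],z2)],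
    [([z1,z0,z1,z0,z0,z0],z1),([z0,z2,z0,z0,z0,z0],z1),([z0,z0,z0,z1,z0,z1],z2)],[([z1,z0,z1,z0,z0,z0],z1),([z0,z3,z0,
    z0,z0,z0],z2),([z0,z0,z0,z1,z0,z1],z2)],[([z1,z0,z1,z0,z0,z0],z1),([z0,z1,z0,z0,z1,z0],z1)],[([z3,z0,z3,z0,z0,z0],
    z2),([z0,z3,z0,z0,z0,z0],z2),([z0,z0,z0,z1,z0,z1],z2)],[([z1,z0,z1,z0,z0,z0],z2),([z0,z3,z0,z0,z0,z0],z2)],[([z1,
    z0,z1,z0,z0,z0],z2)]],[[]]],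
    [.old (.leafM k0 [k2,k3,k4,k5,k0,k1] [(z1,[y1,z1])] []),
    .old (.leafM k2 [k1,k2,k4,k5] [] [(k3,k0,z1,[z1]),(k0,k3,z1,[z1])]),
    .old (.leafM k6 [k2,k3,k5,k0] [] [(k4,k1,z1,[y1,z1]),(k1,k4,z1,[y1,z1])]),
    .old (.leafM k5 [k1,k2,k3,k4,k5,k0] [(z1,[z1]),(z1,[y1,z1])] []),
    .old (.leafM k3 [k4,k5,k0,k1,k2,k3] [(z1,[y1,z1])] []),
    .old (.leafM k11 [k2,k4,k0,k1] [(z1,[y3,y1,y3,z3]),(z1,[z0,z1]),(z1,[z1])] [(k3,k5,z1,[z0,z0,z1]),(k5,k3,z1,[z0,z0,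
    z1])]),
    .old (.leafM k12 [k0,k1,k2,k4] [(z1,[z0,z1]),(z1,[y2,y1,y2,z2]),(z1,[z1])] [(k3,k5,z1,[z0,z0,z1]),(k5,k3,z1,[z0,z0,
    z1])]),
    .old (.leafM k11 [k0,k1,k2,k4] [(z1,[z0,z1]),(z1,[y3,y1,y3,z3]),(z1,[z1])] [(k3,k5,z1,[z0,z0,z1]),(k5,k3,z1,[z0,z0,
    z1])]),
    .old (.lp [k86,k62,k34,k92,k116,k86] [k15,k15,k27,k27,k41,k41,k12,k12,k0,k0,k15,k15] k0 [[k0,k0,k0,k0,k0,k0,k0,k8],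
    [k0,k0,k0,k0,k0,k0,k0,k0,k4],[],[],[],[],[k0,k8],[k0,k0,k0,k0,k0,k0,k0,k0,k0,k62],[k0,k0,k0,k0,k0,k0,k62],
    [k4]] (nat_lit 240) k6
    [[(k4,k60),(k7,k89)],[(k5,k60),(k3,k74),(k6,k81),(k8,k105)],[(k2,k62),(k11,k70),(k0,k74),(k9,k97)],[(k5,k48),(k3,
    k62),(k6,k77),(k8,k89)],[(k2,k48),(k0,k60),(k11,k60),(k9,k75)],[(k1,k60),(k10,k60)],[(k1,k89),(k10,k89)],[(k2,
    k77),(k0,k81),(k9,k104),(k11,k151)],[(k8,k54),(k5,k75),(k3,k97),(k6,k104)],[(k9,k54),(k2,k89),(k11,k101),(k0,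
    k105)],[(k5,k60),(k3,k70),(k8,k101),(k6,k151)],[(k4,k60),(k7,k89)]]
    [] k0
    [[k1,k0,k1,k0,k0,k0],[k1,k1,k1,k0,k0,k0],[k1,k0,k0,k1,k0,k0],[k0,k2,k0,k0,k0,k0],[k0,k3,k0,k0,k0,k0],[k0,k1,k0,k0,
    k1,k0],[k0,k1,k1,k0,k0,k1],[k0,k1,k0,k1,k0,k1],[k0,k0,k1,k0,k1,k1],[k0,k0,k1,k0,k0,k1],[k0,k0,k0,k0,k2,k0],[k0,k0,
    k0,k0,k3,k0],[k0,k0,k0,k0,k4,k0]]
    [.contra [y1,z2],.contra [z1,y1],.ref k1 k0 [(z1,[z1])],.contra [z1],.ref k7 k0 [(z1,[z0,z1]),(z1,[z1]),(z1,[z0,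
    y1,y1,z1])],.contra [y1,z1,z1],.ref k4 k0 [(z1,[y1,z0,z0,z1])],.contra [y1,y1,z0,z1],.ref k4 k1 [(z1,[y1,z0,z0,
    z1])],.ref k1 k2 [(z1,[z1])],.contra [z1],.ref k5 k0 [(z1,[z0,z1]),(z1,[y1,z0,z3]),(z1,[z0,y1,y1,z1])],
    .ref k6 k0 [(z1,[z0,z1]),(z2,[y1,z0,z4]),(z1,[z0,y1,y1,z1])]]),
    .old (.leafM k10 [k0,k1,k2,k4] [(z1,[z0,z1]),(z1,[y1,y1,y3,z3]),(z1,[z1])] [(k3,k5,z1,[z0,z0,z1]),(k5,k3,z1,[z0,z0,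
    z1])]),
    .old (.lp [k156,k80,k84,k34,k62,k62] [k0,k0,k38,k38,k36,k36,k61,k61,k47,k47,k47,k47] k0 [[k0,k0,k0,k0,k0,k0,k0,k34],
    [],[],[k0,k0,k0,k0,k0,k0,k0,k0,k2],[],[],[k0,k34],[],[],[k0,k0,k2]] (nat_lit 240) k6
    [[(k7,k95),(k4,k120)],[(k6,k61),(k8,k109),(k3,k118),(k5,k120)],[(k11,k71),(k2,k80),(k9,k105),(k0,k118)],[(k6,k57),
    (k8,k73),(k3,k80),(k5,k82)],[(k11,k71),(k9,k73),(k2,k82),(k0,k120)],[(k10,k73),(k1,k120)],[(k10,k48),(k1,k95)],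
    [(k9,k48),(k11,k48),(k2,k57),(k0,k61)],[(k6,k48),(k8,k62),(k5,k73),(k3,k105)],[(k9,k62),(k11,k62),(k2,k73),(k0,
    k109)],[(k6,k48),(k8,k62),(k3,k71),(k5,k71)],[(k7,k48),(k4,k73)]]
    [] k0
    [[k1,k0,k0,k1,k0,k0],[k0,k2,k0,k0,k0,k0],[k0,k1,k0,k0,k1,k0],[k0,k1,k1,k0,k0,k1],[k0,k1,k0,k1,k0,k1],[k0,k0,k1,k0,
    k1,k1],[k0,k0,k1,k0,k0,k1],[k0,k0,k0,k1,k0,k1],[k0,k0,k0,k2,k0,k2],[k0,k0,k0,k1,k1,k1],[k0,k0,k0,k1,k2,k1],[k0,k0,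
    k0,k0,k2,k0],[k0,k0,k0,k0,k3,k0]]
    [.ref k1 k0 [(z1,[z1])],.contra [z1],.contra [y1,y1,z0,z1],.ref k4 k0 [(z1,[y1,z0,z0,z1])],.contra [y1,y1,z0,z1],
    .ref k4 k1 [(z1,[y1,z0,z0,z1])],.ref k1 k2 [(z1,[z1])],.contra [y1,y1,z0,z1],.ref k8 k1 [(z2,[z1]),(z2,[y1,y2,z0,
    z2])],.contra [z1,z1,z1,y1],.ref k9 k1 [(z1,[y3,y6,y2,z6]),(z1,[z3,z3,z1,y3]),(z1,[z0,z1])],.contra [z1],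
    .ref k9 k1 [(z1,[y1,y3,y1,z3]),(z1,[z1]),(z1,[z0,z1])]]),
    .old (.lp [(nat_lit 1794),(nat_lit 960),(nat_lit 736),k184,(nat_lit 920),(nat_lit 920)] [k0,k0,(nat_lit 417),
    (nat_lit 417),(nat_lit 529),(nat_lit 529),(nat_lit 805),(nat_lit 805),(nat_lit 437),(nat_lit 437),(nat_lit 437),
    (nat_lit 437)] k0 [[k0,k0,k0,k0,k0,k0,k0,k184],[k0,k0,k0,(nat_lit 230)],[(nat_lit 230)],[],[],[],[k0,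
    k184]] (nat_lit 2760) k6
    [[(k7,(nat_lit 989)),(k4,(nat_lit 1265))],[(k6,(nat_lit 805)),(k8,(nat_lit 1357)),(k3,(nat_lit 1377)),(k5,
    (nat_lit 1495))],[(k2,(nat_lit 730)),(k11,(nat_lit 940)),(k9,(nat_lit 1124)),(k0,(nat_lit 1377))],[(k6,
    (nat_lit 572)),(k3,(nat_lit 730)),(k5,(nat_lit 848)),(k8,(nat_lit 940))],[(k9,(nat_lit 828)),(k11,(nat_lit 828)),
    (k2,(nat_lit 848)),(k0,(nat_lit 1495))],[(k10,(nat_lit 828)),(k1,(nat_lit 1265))],[(k10,(nat_lit 552)),(k1,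
    (nat_lit 989))],[(k9,(nat_lit 552)),(k11,(nat_lit 552)),(k2,(nat_lit 572)),(k0,(nat_lit 805))],[(k6,
    (nat_lit 552)),(k5,(nat_lit 828)),(k8,(nat_lit 920)),(k3,(nat_lit 1124))],[(k9,(nat_lit 920)),(k11,(nat_lit 920)),
    (k2,(nat_lit 940)),(k0,(nat_lit 1357))],[(k6,(nat_lit 552)),(k5,(nat_lit 828)),(k8,(nat_lit 920)),(k3,
    (nat_lit 940))],[(k7,(nat_lit 552)),(k4,(nat_lit 828))]]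
    [] k0
    [[k1,k0,k0,k1,k0,k0],[k0,k2,k0,k0,k0,k0],[k0,k3,k0,k0,k0,k0],[k0,k1,k0,k0,k1,k0],[k0,k1,k1,k0,k0,k1],[k0,k1,k0,k1,
    k0,k1],[k0,k0,k1,k0,k1,k1],[k0,k0,k1,k0,k0,k1],[k0,k0,k0,k1,k0,k1],[k0,k0,k0,k2,k0,k2],[k0,k0,k0,k1,k1,k1],[k0,k0,
    k0,k0,k2,k0]]
    [.ref k1 k0 [(z1,[z1])],.contra [z1],.ref k10 k0 [(z1,[z0,z1]),(z1,[z1])],.contra [y1,y1,z1],.ref k4 k0 [(z1,[y1,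
    z0,z1])],.contra [y1,y1,z1],.ref k4 k1 [(z1,[y1,z0,z1])],.ref k1 k2 [(z1,[z1])],.contra [y1,y1,z1],
    .ref k8 k1 [(z2,[z1]),(z2,[y1,y2,z2])],.contra [y1,y1,z1],.contra [z1]]),
    .old (.lp [k8,k12,k4,k4,k10,k8] [k2,k2,k0,k0,k4,k4,k4,k4,k1,k1,k2,k2] k0 [[],[k0,k0,k0,k0,k0,k0,k0,k0,k2],[k0,k0,k0,
    k0,k0,k0,k0,k2],[],[],[],[k0,k0,k0,k2],[],[],[k2]] k24 k5
    [[(k4,k6),(k7,k6)],[(k5,k6),(k6,k6),(k3,k10),(k8,k11)],[(k11,k8),(k0,k10),(k9,k11),(k2,k12)],[(k6,k6),(k5,k8),(k8,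
    k11),(k3,k12)],[(k0,k6),(k11,k6),(k2,k8),(k9,k9)],[(k1,k6),(k10,k6)],[(k1,k6),(k10,k6)],[(k0,k6),(k2,k6),(k11,k6),
    (k9,k7)],[(k6,k7),(k5,k9),(k8,k10),(k3,k11)],[(k11,k9),(k9,k10),(k0,k11),(k2,k11)],[(k5,k6),(k6,k6),(k3,k8),(k8,
    k9)],[(k4,k6),(k7,k6)]]
    [] k0
    [[k1,k0,k1,k0,k0,k0],[k1,k0,k0,k1,k0,k0],[k1,k1,k0,k1,k0,k0],[k0,k1,k0,k0,k1,k0],[k0,k1,k1,k0,k0,k1],[k0,k1,k0,k1,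
    k0,k1],[k0,k0,k1,k0,k0,k1],[k0,k0,k0,k1,k0,k1],[k0,k0,k0,k1,k1,k1],[k0,k0,k0,k0,k2,k0]]
    [.ref k11 k0 [(z1,[z1])],.ref k1 k0 [(z1,[z1])],.ref k4 k1 [(z1,[z1])],.ref k2 k0 [(z1,[y1,z1])],.ref k4 k0 [(z1,
    [y1,z1])],.ref k3 k0 [(z1,[y1,z1])],.ref k1 k2 [(z1,[z1])],.ref k11 k1 [(z1,[z1])],.ref k0 k0 [(z1,[y1,z1])],
    .contra [z1]])]⟩

/-- classes `0 0 1 0 0 1`, types `C0 C0 C0 C0 C0 C0` -/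
noncomputable def cU6_712 : CertX :=
  ⟨[k4,k4,k20,k4,k4,k20],[(false,k0,[k0,k1,k2,k3,k4,k5]),(true,k2,[k2,k1,k0,k5,k4,k3]),(false,k3,[k3,k4,k5,k0,k1,
    k2])],[[[([z1,z0,z0,z0,z0,z1],z2)],[([z1,z0,z1,z1,z0,z1],z2)],[([z1,z0,z1,z0,z1,z0],z2)],[([z1,z0,z0,z0,z1,z1],
    z2)],[([z1,z1,z1,z0,z0,z0],z2)],[([z1,z0,z1,z0,z0,z0],z1),([z0,z3,z0,z0,z0,z0],z1),([z0,z0,z0,z1,z0,z1],z2)],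
    [([z1,z0,z1,z0,z0,z0],z1),([z0,z2,z0,z0,z0,z0],z1),([z0,z0,z0,z1,z0,z1],z2)],[([z1,z0,z1,z0,z0,z0],z1),([z0,z3,z0,
    z0,z0,z0],z2),([z0,z0,z0,z1,z0,z1],z2)],[([z1,z0,z1,z0,z0,z0],z1),([z0,z1,z0,z0,z1,z0],z1)],[([z3,z0,z3,z0,z0,z0],
    z2),([z0,z3,z0,z0,z0,z0],z2),([z0,z0,z0,z1,z0,z1],z2)],[([z1,z0,z1,z0,z0,z0],z2),([z0,z3,z0,z0,z0,z0],z2)],[([z1,
    z0,z1,z0,z0,z0],z2)]],[[]]],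
    [.old (.leafM k0 [k1,k2,k3,k4] [] [(k5,k0,z1,[z1]),(k0,k5,z1,[z1])]),
    .old (.leafM k5 [k0,k2,k3,k5] [] [(k1,k4,z1,[y1,z1]),(k4,k1,z1,[y1,z1])]),
    .old (.leafM k1 [k0,k1,k2,k3,k4,k5] [(z1,[y1,z1]),(z1,[z1])] []),
    .old (.leafM k0 [k0,k1,k2,k3,k4,k5] [(z1,[y1,z1])] []),
    .old (.leafM k0 [k2,k3,k4,k5,k0,k1] [(z1,[y1,z1])] []),
    .old (.leafM k11 [k2,k4,k0,k1] [(z1,[y3,y1,y3,z3]),(z1,[z0,z1]),(z1,[z1])] [(k3,k5,z1,[z0,z0,z1]),(k5,k3,z1,[z0,z0,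
    z1])]),
    .old (.leafM k12 [k0,k1,k2,k4] [(z1,[z0,z1]),(z1,[y2,y1,y2,z2]),(z1,[z1])] [(k3,k5,z1,[z0,z0,z1]),(k5,k3,z1,[z0,z0,
    z1])]),
    .old (.leafM k11 [k0,k1,k2,k4] [(z1,[z0,z1]),(z1,[y3,y1,y3,z3]),(z1,[z1])] [(k3,k5,z1,[z0,z0,z1]),(k5,k3,z1,[z0,z0,
    z1])]),
    .old (.lp [k78,k62,k42,k136,k116,k42] [k29,k29,k37,k37,k47,k47,k0,k0,k10,k10,k47,k47] k0 [[],[],[k0,k0,k0,k0,k0,k0,k0,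
    k0,k4],[k0,k0,k0,k0,k0,k0,k0,k8],[],[],[k0,k0,k8],[k0,k0,k0,k0,k0,k0,k0,k0,k0,k62],[k0,k0,k0,k0,k0,k0,k62],[k0,k0,
    k0,k4]] (nat_lit 240) k6
    [[(k4,k60),(k10,k60)],[(k5,k60),(k11,k60),(k3,k70),(k9,k97)],[(k2,k62),(k0,k70),(k8,k89),(k6,k99)],[(k11,k48),(k5,
    k52),(k3,k62),(k9,k97)],[(k2,k52),(k0,k60),(k6,k81),(k8,k83)],[(k1,k60),(k7,k89)],[(k4,k89),(k10,k89)],[(k5,k81),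
    (k3,k99),(k9,k126),(k11,k151)],[(k8,k54),(k0,k97),(k2,k97),(k6,k126)],[(k9,k54),(k11,k79),(k5,k83),(k3,k89)],[(k2,
    k48),(k0,k60),(k8,k79),(k6,k151)],[(k1,k60),(k7,k89)]]
    [] k0
    [[k1,k0,k1,k0,k0,k0],[k1,k1,k1,k0,k0,k0],[k1,k0,k0,k0,k0,k1],[k1,k1,k0,k0,k0,k1],[k1,k0,k0,k0,k1,k1],[k0,k2,k0,k0,
    k0,k0],[k0,k3,k0,k0,k0,k0],[k0,k1,k0,k1,k0,k1],[k0,k1,k0,k0,k1,k0],[k0,k0,k1,k1,k0,k0],[k0,k0,k0,k0,k2,k0],[k0,k0,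
    k0,k0,k3,k0],[k0,k0,k0,k0,k4,k0]]
    [.contra [y1,z2],.contra [z1,y1],.ref k0 k0 [(z1,[z1])],.ref k3 k1 [(z1,[y1,z0,z0,z1])],.ref k3 k0 [(z1,[z1])],
    .contra [z1],.ref k7 k0 [(z1,[z0,z1]),(z1,[z1]),(z1,[z0,y1,y1,z1])],.contra [y1,y1,z0,z1],.contra [y1,z1,z1],
    .ref k0 k2 [(z1,[z1])],.contra [z1],.ref k5 k0 [(z1,[z0,z1]),(z1,[y1,z0,z3]),(z1,[z0,y1,y1,z1])],.ref k6 k0 [(z1,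
    [z0,z1]),(z2,[y1,z0,z4]),(z1,[z0,y1,y1,z1])]]),
    .old (.leafM k10 [k0,k1,k2,k4] [(z1,[z0,z1]),(z1,[y1,y1,y3,z3]),(z1,[z1])] [(k3,k5,z1,[z0,z0,z1]),(k5,k3,z1,[z0,z0,
    z1])]),
    .old (.lp [k142,k84,k94,k62,k62,k34] [k0,k0,k29,k29,k24,k24,k40,k40,k40,k40,k54,k54] k0 [[k0,k0,k0,k0,k0,k0,k0,k0,
    k32],[k0,k0,k0,k4],[k4],[],[],[],[],[],[],[k0,k32]] (nat_lit 240) k6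
    [[(k10,k88),(k4,k118)],[(k11,k56),(k9,k102),(k3,k113),(k5,k122)],[(k6,k73),(k2,k80),(k8,k105),(k0,k113)],[(k11,
    k59),(k9,k73),(k3,k80),(k5,k89)],[(k6,k78),(k8,k78),(k2,k89),(k0,k122)],[(k7,k78),(k1,k118)],[(k10,k48),(k4,k78)],
    [(k11,k48),(k9,k62),(k3,k73),(k5,k78)],[(k6,k62),(k8,k62),(k2,k73),(k0,k102)],[(k11,k48),(k9,k62),(k5,k78),(k3,
    k105)],[(k6,k48),(k8,k48),(k0,k56),(k2,k59)],[(k7,k48),(k1,k88)]]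
    [] k0
    [[k1,k0,k0,k0,k0,k1],[k1,k0,k0,k0,k1,k1],[k0,k2,k0,k0,k0,k0],[k0,k1,k0,k1,k0,k1],[k0,k1,k0,k0,k1,k0],[k0,k0,k1,k1,
    k0,k0],[k0,k0,k1,k1,k1,k0],[k0,k0,k0,k1,k0,k1],[k0,k0,k0,k2,k0,k2],[k0,k0,k0,k1,k1,k1],[k0,k0,k0,k1,k2,k1],[k0,k0,
    k0,k0,k2,k0],[k0,k0,k0,k0,k3,k0]]
    [.ref k0 k0 [(z1,[z1])],.ref k3 k0 [(z1,[z1])],.contra [z1],.contra [y1,y1,z0,z1],.contra [y1,y1,z0,z1],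
    .ref k0 k2 [(z1,[z1])],.ref k3 k1 [(z1,[z1])],.contra [y1,y1,z0,z1],.ref k8 k2 [(z2,[z1]),(z2,[y1,y2,z0,z2])],
    .contra [z1,z1,z1,y1],.ref k9 k2 [(z1,[y3,y6,y2,z6]),(z1,[z3,z3,z1,y3]),(z1,[z0,z1])],.contra [z1],
    .ref k9 k2 [(z1,[y1,y3,y1,z3]),(z1,[z1]),(z1,[z0,z1])]]),
    .old (.lp [(nat_lit 1794),(nat_lit 960),(nat_lit 736),(nat_lit 920),(nat_lit 920),k184] [k0,k0,(nat_lit 417),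
    (nat_lit 417),(nat_lit 529),(nat_lit 529),(nat_lit 437),(nat_lit 437),(nat_lit 437),(nat_lit 437),(nat_lit 805),
    (nat_lit 805)] k0 [[k0,k0,k0,k0,k0,k0,k0,k0,k184],[k0,k0,k0,(nat_lit 230)],[(nat_lit 230)],[],[],[],[],[],[],[k0,
    k184]] (nat_lit 2760) k6
    [[(k10,(nat_lit 989)),(k4,(nat_lit 1265))],[(k11,(nat_lit 805)),(k9,(nat_lit 1357)),(k3,(nat_lit 1377)),(k5,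
    (nat_lit 1495))],[(k2,(nat_lit 730)),(k6,(nat_lit 940)),(k8,(nat_lit 1124)),(k0,(nat_lit 1377))],[(k11,
    (nat_lit 572)),(k3,(nat_lit 730)),(k5,(nat_lit 848)),(k9,(nat_lit 940))],[(k6,(nat_lit 828)),(k8,(nat_lit 828)),
    (k2,(nat_lit 848)),(k0,(nat_lit 1495))],[(k7,(nat_lit 828)),(k1,(nat_lit 1265))],[(k10,(nat_lit 552)),(k4,
    (nat_lit 828))],[(k11,(nat_lit 552)),(k5,(nat_lit 828)),(k9,(nat_lit 920)),(k3,(nat_lit 940))],[(k6,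
    (nat_lit 920)),(k8,(nat_lit 920)),(k2,(nat_lit 940)),(k0,(nat_lit 1357))],[(k11,(nat_lit 552)),(k5,(nat_lit 828)),
    (k9,(nat_lit 920)),(k3,(nat_lit 1124))],[(k6,(nat_lit 552)),(k8,(nat_lit 552)),(k2,(nat_lit 572)),(k0,
    (nat_lit 805))],[(k7,(nat_lit 552)),(k1,(nat_lit 989))]]
    [] k0
    [[k1,k0,k0,k0,k0,k1],[k0,k2,k0,k0,k0,k0],[k0,k3,k0,k0,k0,k0],[k0,k1,k1,k1,k0,k0],[k0,k1,k0,k1,k0,k1],[k0,k1,k0,k0,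
    k1,k0],[k0,k0,k1,k1,k0,k0],[k0,k0,k1,k1,k1,k0],[k0,k0,k0,k1,k0,k1],[k0,k0,k0,k2,k0,k2],[k0,k0,k0,k1,k1,k1],[k0,k0,
    k0,k0,k2,k0]]
    [.ref k0 k0 [(z1,[z1])],.contra [z1],.ref k10 k0 [(z1,[z0,z1]),(z1,[z1])],.ref k3 k0 [(z1,[y1,z0,z1])],
    .contra [y1,y1,z1],.contra [y1,y1,z1],.ref k0 k2 [(z1,[z1])],.ref k3 k1 [(z1,[z1])],.contra [y1,y1,z1],
    .ref k8 k2 [(z2,[z1]),(z2,[y1,y2,z2])],.contra [y1,y1,z1],.contra [z1]]),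
    .old (.lp [k8,k8,k6,k8,k12,k4] [k2,k2,k2,k2,k3,k3,k2,k2,k0,k0,k4,k4] k0 [[k0,k0,k0,k0,k0,k0,k2],[],[],[],[],[],[],[k0,
    k2]] k24 k5
    [[(k10,k6),(k4,k7)],[(k11,k6),(k5,k7),(k3,k8),(k9,k8)],[(k0,k8),(k2,k8),(k6,k10),(k8,k10)],[(k11,k6),(k5,k7),(k3,
    k8),(k9,k10)],[(k0,k7),(k2,k7),(k6,k7),(k8,k9)],[(k1,k7),(k7,k7)],[(k10,k6),(k4,k7)],[(k11,k6),(k5,k7),(k3,k10),
    (k9,k10)],[(k0,k8),(k2,k10),(k6,k10),(k8,k12)],[(k11,k8),(k5,k9),(k3,k10),(k9,k12)],[(k0,k6),(k2,k6),(k6,k6),(k8,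
    k8)],[(k1,k6),(k7,k6)]]
    [] k0
    [[k1,k0,k1,k0,k0,k0],[k1,k1,k1,k0,k0,k0],[k1,k0,k0,k0,k0,k1],[k1,k1,k0,k0,k0,k1],[k1,k0,k0,k0,k1,k1],[k0,k2,k0,k0,
    k0,k0],[k0,k1,k0,k1,k0,k1],[k0,k1,k0,k0,k1,k0],[k0,k0,k1,k1,k0,k0],[k0,k0,k0,k1,k0,k1]]
    [.ref k11 k0 [(z1,[z1])],.ref k4 k0 [(z1,[z1])],.ref k0 k0 [(z1,[z1])],.ref k3 k1 [(z1,[y1,z1])],.ref k3 k0 [(z1,
    [z1])],.contra [z1],.ref k2 k0 [(z1,[y1,z1])],.ref k1 k0 [(z1,[y1,z1])],.ref k0 k2 [(z1,[z1])],.ref k11 k2 [(z1,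
    [z1])]])]⟩

/-- classes `0 0 1 0 0 1`, types `C0 C0 C0 C0 C0 C2` -/
noncomputable def cU6_713 : CertX :=
  ⟨[k4,k4,k20,k4,k4,k22],[(false,k0,[k0,k1,k2,k3,k4,k5]),(false,k3,[k3,k4,k5,k0,k1,k2]),(true,k2,[k2,k1,k0,k5,k4,
    k3])],[[[([z1,z0,z0,z0,z0,z1],z2)],[([z1,z0,z0,z0,z1,z1],z2)],[([z1,z0,z1,z1,z0,z1],z2)],[]]],
    [.old (.leafM k0 [k1,k2,k3,k4] [] [(k5,k0,z1,[z1]),(k0,k5,z1,[z1])]),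
    .old (.leafM k0 [k0,k1,k2,k3,k4,k5] [(z1,[y1,z1])] []),
    .old (.leafM k6 [k0,k2,k3,k5] [] [(k1,k4,z1,[y1,z1]),(k4,k1,z1,[y1,z1])]),
    .old (.lp [k4,k12,k4,k8,k10,k8] [k4,k4,k0,k0,k4,k4,k2,k2,k1,k1,k2,k2] k0 [[],[k0,k0,k0,k2],[k2],[],[],[],[k0,k0,k0,k0,
    k0,k0,k0,k0,k2],[],[],[k0,k0,k0,k0,k0,k0,k0,k2]] k24 k5
    [[(k7,k6),(k10,k6)],[(k5,k6),(k11,k6),(k9,k7),(k3,k8)],[(k0,k8),(k2,k10),(k6,k10),(k8,k11)],[(k5,k8),(k3,k10),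
    (k11,k10),(k9,k11)],[(k0,k6),(k6,k6),(k8,k7),(k2,k8)],[(k7,k6),(k10,k6)],[(k1,k6),(k4,k6)],[(k5,k6),(k11,k6),(k9,
    k9),(k3,k10)],[(k0,k7),(k6,k9),(k2,k11),(k8,k12)],[(k5,k7),(k11,k9),(k3,k11),(k9,k12)],[(k0,k6),(k6,k6),(k8,k9),
    (k2,k10)],[(k1,k6),(k4,k6)]]
    [] k0
    [[k1,k0,k0,k0,k0,k1],[k1,k0,k0,k0,k1,k1],[k0,k2,k0,k0,k0,k0],[k0,k1,k0,k0,k1,k0],[k0,k0,k1,k1,k0,k0],[k0,k0,k1,k1,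
    k1,k0]]
    [.ref k0 k0 [(z1,[z1])],.ref k1 k0 [(z1,[z1])],.contra [z1],.ref k2 k0 [(z1,[y1,z1])],.ref k0 k1 [(z1,[z1])],
    .ref k1 k2 [(z1,[z1])]])]⟩

/-- classes `0 0 1 0 0 1`, types `C0 C0 C0 C0 C2 C0` -/
noncomputable def cU6_714 : CertX :=
  ⟨[k4,k4,k20,k4,k6,k20],[(false,k0,[k0,k1,k2,k3,k4,k5])],[[[([z1,z1,z1,z0,z0,z0],z2)],[([z1,z1,z0,z0,z1,z1],z2)],
    [([z1,z0,z0,z0,z1,z1],z2)],[]]],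
    [.old (.leafM k0 [k2,k3,k4,k5,k0,k1] [(z1,[y1,z1])] []),
    .old (.leafM k0 [k0,k1,k4,k5] [] [(k2,k3,z1,[y1,z1]),(k3,k2,z1,[y1,z1])]),
    .old (.leafM k0 [k0,k1,k2,k3,k4,k5] [(z1,[y1,z1])] []),
    .old (.lp [k164,k90,k66,k54,k54,k42] [k0,k0,k37,k37,k49,k49,k55,k55,k55,k55,k61,k61] k0 [[],[k0,k0,k0,k10],
    [k10]] (nat_lit 240) k6
    [[(k10,k103),(k4,k115)],[(k8,k109),(k9,k109),(k5,k125),(k3,k127)],[(k11,k66),(k6,k72),(k2,k80),(k0,k127)],[(k8,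
    k72),(k9,k72),(k5,k78),(k3,k80)],[(k11,k54),(k6,k60),(k2,k78),(k0,k125)],[(k7,k60),(k1,k115)],[(k10,k48),(k4,
    k60)],[(k8,k54),(k9,k54),(k5,k60),(k3,k72)],[(k11,k48),(k6,k54),(k2,k72),(k0,k109)],[(k11,k48),(k6,k54),(k2,k72),
    (k0,k109)],[(k8,k48),(k9,k48),(k5,k54),(k3,k66)],[(k7,k48),(k1,k103)]]
    [] k0
    [[k0,k2,k0,k0,k0,k0],[k0,k1,k1,k1,k0,k0],[k0,k0,k1,k1,k0,k0],[k0,k0,k0,k1,k1,k1]]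
    [.contra [z1],.ref k2 k0 [(z1,[y1,z1])],.ref k1 k0 [(z1,[y1,z1])],.ref k0 k0 [(z1,[y1,z1])]])]⟩

/-- classes `0 0 1 0 0 1`, types `C0 C0 C0 C0 C2 C2` -/
noncomputable def cU6_715 : CertX :=
  ⟨[k4,k4,k20,k4,k6,k22],[(false,k0,[k0,k1,k2,k3,k4,k5])],[[[([z1,z1,z0,z1,z1,z0],z2)],[([z1,z1,z0,z0,z1,z1],z2)],
    [([z1,z0,z0,z0,z1,z1],z2)],[([z1,z0,z0,z1,z1,z0],z2)],[]]],
    [.old (.leafM k2 [k0,k1,k3,k4] [] [(k2,k5,z1,[y1,z1]),(k5,k2,z1,[y1,z1])]),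
    .old (.leafM k0 [k0,k1,k4,k5] [] [(k2,k3,z1,[y1,z1]),(k3,k2,z1,[y1,z1])]),
    .old (.leafM k0 [k0,k1,k2,k3,k4,k5] [(z1,[y1,z1])] []),
    .old (.leafM k3 [k4,k5,k0,k1,k2,k3] [(z1,[y1,z1])] []),
    .old (.lp [k10,k10,k6,k6,k6,k8] [k0,k0,k0,k0,k2,k2,k2,k2,k2,k2,k1,k1] k0 [[k0,k0,k2],[],[],[k0,k2]] k24 k5
    [[(k7,k8),(k10,k9)],[(k5,k6),(k8,k8),(k9,k8),(k3,k10)],[(k6,k8),(k11,k9),(k0,k10),(k2,k12)],[(k5,k8),(k8,k8),(k9,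
    k8),(k3,k12)],[(k0,k6),(k6,k6),(k11,k7),(k2,k8)],[(k7,k6),(k10,k7)],[(k4,k6),(k1,k8)],[(k5,k6),(k8,k6),(k9,k6),
    (k3,k8)],[(k6,k6),(k11,k7),(k0,k8),(k2,k8)],[(k6,k6),(k11,k7),(k0,k8),(k2,k8)],[(k5,k7),(k8,k7),(k9,k7),(k3,k9)],
    [(k4,k7),(k1,k9)]]
    [] k0
    [[k1,k0,k0,k1,k1,k0],[k0,k1,k1,k1,k0,k0],[k0,k0,k1,k1,k0,k0],[k0,k0,k1,k0,k0,k1]]
    [.ref k3 k0 [(z1,[z1])],.ref k2 k0 [(z1,[y1,z1])],.ref k1 k0 [(z1,[y1,z1])],.ref k0 k0 [(z1,[y1,z1])]])]⟩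

/-- classes `0 0 1 0 0 1`, types `C0 C0 C0 C2 C2 C0` -/
noncomputable def cU6_716 : CertX :=
  ⟨[k4,k4,k20,k6,k6,k20],[(false,k0,[k0,k1,k2,k3,k4,k5]),(false,k3,[k3,k4,k5,k0,k1,k2])],[[[([z1,z1,z1,z0,z0,z0],z2)],
    [([z1,z0,z1,z1,z0,z1],z2)],[([z1,z0,z1,z0,z1,z0],z2)],[([z1,z0,z1,z0,z0,z0],z1),([z0,z3,z0,z0,z0,z0],z1),([z0,z0,
    z0,z1,z0,z1],z2)],[([z1,z0,z1,z0,z0,z0],z1),([z0,z2,z0,z0,z0,z0],z1),([z0,z0,z0,z1,z0,z1],z2)],[([z1,z0,z1,z0,z0,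
    z0],z1),([z0,z3,z0,z0,z0,z0],z2),([z0,z0,z0,z1,z0,z1],z2)],[([z1,z0,z1,z0,z0,z0],z1),([z0,z1,z0,z0,z1,z0],z1)],
    [([z3,z0,z3,z0,z0,z0],z2),([z0,z3,z0,z0,z0,z0],z2),([z0,z0,z0,z1,z0,z1],z2)],[([z1,z0,z1,z0,z0,z0],z2),([z0,z3,z0,
    z0,z0,z0],z2)],[([z1,z0,z1,z0,z0,z0],z2)],[]]],
    [.old (.leafM k0 [k2,k3,k4,k5,k0,k1] [(z1,[y1,z1])] []),
    .old (.leafM k2 [k2,k3,k5,k0] [] [(k4,k1,z1,[y1,z1]),(k1,k4,z1,[y1,z1])]),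
    .old (.leafM k5 [k1,k2,k3,k4,k5,k0] [(z1,[z1]),(z1,[y1,z1])] []),
    .old (.leafM k11 [k2,k4,k0,k1] [(z1,[y3,y1,y3,z3]),(z1,[z0,z1]),(z1,[z1])] [(k3,k5,z1,[z0,z0,z1]),(k5,k3,z1,[z0,z0,
    z1])]),
    .old (.leafM k12 [k0,k1,k2,k4] [(z1,[z0,z1]),(z1,[y2,y1,y2,z2]),(z1,[z1])] [(k3,k5,z1,[z0,z0,z1]),(k5,k3,z1,[z0,z0,
    z1])]),
    .old (.leafM k11 [k0,k1,k2,k4] [(z1,[z0,z1]),(z1,[y3,y1,y3,z3]),(z1,[z1])] [(k3,k5,z1,[z0,z0,z1]),(k5,k3,z1,[z0,z0,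
    z1])]),
    .old (.lp [k86,k72,k24,k86,k130,k72] [k22,k22,k29,k29,k53,k53,k22,k22,k0,k0,k29,k29] k0 [[k0,k0,k0,k0,k0,k0,k0,k38],
    [k0,k0,k0,k10],[k10],[],[],[],[k0,k38],[k0,k0,k0,k0,k0,k0,k0,k0,k0,k82],[k0,k0,k0,k0,k0,k0,k82]] (nat_lit 240) k6
    [[(k4,k55),(k10,k79)],[(k6,k48),(k5,k65),(k3,k79),(k8,k108)],[(k2,k62),(k11,k72),(k0,k79),(k9,k139)],[(k5,k48),
    (k3,k62),(k6,k79),(k8,k101)],[(k2,k48),(k11,k48),(k0,k65),(k9,k77)],[(k1,k55),(k7,k55)],[(k4,k55),(k10,k79)],[(k0,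
    k48),(k2,k79),(k9,k108),(k11,k161)],[(k8,k48),(k5,k77),(k6,k108),(k3,k139)],[(k9,k48),(k2,k101),(k11,k101),(k0,
    k108)],[(k5,k48),(k3,k72),(k8,k101),(k6,k161)],[(k1,k79),(k7,k79)]]
    [] k0
    [[k1,k0,k1,k0,k0,k0],[k1,k1,k1,k0,k0,k0],[k1,k0,k1,k1,k0,k1],[k0,k2,k0,k0,k0,k0],[k0,k3,k0,k0,k0,k0],[k0,k1,k0,k1,
    k0,k1],[k0,k0,k0,k0,k2,k0],[k0,k0,k0,k0,k3,k0],[k0,k0,k0,k0,k4,k0]]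
    [.contra [y1,z2],.contra [z1,y1],.contra [z1,z1,z1,y1],.contra [z1],.ref k5 k0 [(z1,[z0,z1]),(z1,[z1]),(z1,[z0,y1,
    y1,z1])],.contra [y1,y1,z0,z1],.contra [z1],.ref k3 k0 [(z1,[z0,z1]),(z1,[y1,z0,z3]),(z1,[z0,y1,y1,z1])],
    .ref k4 k0 [(z1,[z0,z1]),(z2,[y1,z0,z4]),(z1,[z0,y1,y1,z1])]]),
    .old (.leafM k10 [k0,k1,k2,k4] [(z1,[z0,z1]),(z1,[y1,y1,y3,z3]),(z1,[z1])] [(k3,k5,z1,[z0,z0,z1]),(k5,k3,z1,[z0,z0,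
    z1])]),
    .old (.lp [k140,k132,k48,k48,k62,k48] [k0,k0,k4,k4,k46,k46,k46,k46,k39,k39,k46,k46] k0 [[k0,k0,k0,k0,k0,k0,k0,k46],
    [k0,k0,k0,k52],[k52],[],[],[],[k0,k46]] (nat_lit 240) k6
    [[(k4,k94),(k10,k94)],[(k6,k48),(k8,k101),(k3,k136),(k5,k146)],[(k2,k80),(k11,k90),(k0,k136),(k9,k143)],[(k3,k80),
    (k5,k90),(k6,k90),(k8,k97)],[(k11,k48),(k9,k55),(k2,k90),(k0,k146)],[(k7,k48),(k1,k94)],[(k4,k48),(k10,k48)],[(k0,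
    k48),(k11,k48),(k9,k55),(k2,k90)],[(k5,k55),(k6,k55),(k8,k62),(k3,k143)],[(k11,k55),(k9,k62),(k2,k97),(k0,k101)],
    [(k5,k48),(k6,k48),(k8,k55),(k3,k90)],[(k7,k48),(k1,k94)]]
    [] k0
    [[k1,k0,k1,k1,k0,k1],[k0,k2,k0,k0,k0,k0],[k0,k1,k0,k1,k0,k1],[k0,k0,k0,k1,k0,k1],[k0,k0,k0,k2,k0,k2],[k0,k0,k0,k1,
    k1,k1],[k0,k0,k0,k1,k2,k1],[k0,k0,k0,k0,k2,k0],[k0,k0,k0,k0,k3,k0]]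
    [.contra [z1,y1],.contra [z1],.contra [y1,y1,z0,z1],.contra [y1,y1,z0,z1],.ref k6 k1 [(z2,[z1]),(z2,[y1,y2,z0,
    z2])],.contra [z1,z1,z1,y1],.ref k7 k1 [(z1,[y3,y6,y2,z6]),(z1,[z3,z3,z1,y3]),(z1,[z0,z1])],.contra [z1],
    .ref k7 k1 [(z1,[y1,y3,y1,z3]),(z1,[z1]),(z1,[z0,z1])]]),
    .old (.lp [k140,k112,k48,k48,k82,k48] [k0,k0,k14,k14,k46,k46,k46,k46,k29,k29,k46,k46] k0 [[k0,k0,k0,k0,k0,k0,k0,k46],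
    [k0,k0,k0,k52],[k52],[],[],[],[k0,k46]] (nat_lit 240) k6
    [[(k4,k94),(k10,k94)],[(k6,k48),(k8,k111),(k3,k126),(k5,k146)],[(k2,k60),(k11,k80),(k0,k126),(k9,k143)],[(k3,k60),
    (k5,k80),(k6,k80),(k8,k97)],[(k11,k48),(k9,k65),(k2,k80),(k0,k146)],[(k7,k48),(k1,k94)],[(k4,k48),(k10,k48)],[(k0,
    k48),(k11,k48),(k9,k65),(k2,k80)],[(k5,k65),(k6,k65),(k8,k82),(k3,k143)],[(k11,k65),(k9,k82),(k2,k97),(k0,k111)],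
    [(k5,k48),(k6,k48),(k8,k65),(k3,k80)],[(k7,k48),(k1,k94)]]
    [] k0
    [[k1,k0,k1,k1,k0,k1],[k0,k2,k0,k0,k0,k0],[k0,k3,k0,k0,k0,k0],[k0,k1,k0,k1,k0,k1],[k0,k0,k0,k1,k0,k1],[k0,k0,k0,k2,
    k0,k2],[k0,k0,k0,k1,k1,k1],[k0,k0,k0,k0,k2,k0]]
    [.contra [z1,y1],.contra [z1],.ref k8 k0 [(z1,[z0,z1]),(z1,[z1])],.contra [y1,y1,z1],.contra [y1,y1,z1],
    .ref k6 k1 [(z2,[z1]),(z2,[y1,y2,z2])],.contra [y1,y1,z1],.contra [z1]]),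
    .old (.lp [k6,k12,k6,k6,k8,k6] [k3,k3,k0,k0,k3,k3,k3,k3,k2,k2,k3,k3] k0 [] k24 k5
    [[(k4,k6),(k10,k6)],[(k5,k6),(k6,k6),(k8,k7),(k3,k9)],[(k0,k9),(k11,k9),(k9,k10),(k2,k12)],[(k5,k9),(k6,k9),(k8,
    k10),(k3,k12)],[(k0,k6),(k11,k6),(k9,k7),(k2,k9)],[(k1,k6),(k7,k6)],[(k4,k6),(k10,k6)],[(k0,k6),(k11,k6),(k9,k7),
    (k2,k9)],[(k5,k7),(k6,k7),(k8,k8),(k3,k10)],[(k0,k7),(k11,k7),(k9,k8),(k2,k10)],[(k5,k6),(k6,k6),(k8,k7),(k3,k9)],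
    [(k1,k6),(k7,k6)]]
    [] k0
    [[k1,k0,k1,k0,k0,k0],[k1,k0,k1,k0,k1,k0],[k0,k1,k0,k0,k1,k0],[k0,k0,k0,k1,k0,k1],[k0,k0,k0,k1,k1,k1],[k0,k0,k0,k0,
    k2,k0]]
    [.ref k9 k0 [(z1,[z1])],.ref k2 k0 [(z1,[z1])],.ref k1 k0 [(z1,[y1,z1])],.ref k9 k1 [(z1,[z1])],.ref k0 k0 [(z1,
    [y1,z1])],.contra [z1]])]⟩

/-- classes `0 0 1 0 0 1`, types `C0 C0 C0 C2 C2 C2` -/
noncomputable def cU6_717 : CertX :=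
  ⟨[k4,k4,k20,k6,k6,k22],[(false,k0,[k0,k1,k2,k3,k4,k5]),(false,k3,[k3,k4,k5,k0,k1,k2]),(true,k2,[k2,k1,k0,k5,k4,
    k3])],[[[([z1,z0,z0,z1,z0,z0],z2)],[([z1,z0,z0,z1,z1,z0],z2)],[([z1,z0,z1,z1,z0,z1],z2)],[]]],
    [.old (.leafM k2 [k1,k2,k4,k5] [] [(k3,k0,z1,[z1]),(k0,k3,z1,[z1])]),
    .old (.leafM k3 [k4,k5,k0,k1,k2,k3] [(z1,[y1,z1])] []),
    .old (.leafM k2 [k2,k3,k5,k0] [] [(k4,k1,z1,[y1,z1]),(k1,k4,z1,[y1,z1])]),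
    .old (.lp [k8,k8,k4,k8,k10,k8] [k1,k1,k1,k1,k3,k3,k1,k1,k0,k0,k1,k1] k0 [[],[],[],[],[],[],[k0,k0,k0,k0,k0,k0,k0,k0,
    k2],[],[],[k0,k0,k0,k0,k0,k0,k0,k2]] k24 k5
    [[(k7,k8),(k10,k8)],[(k5,k6),(k3,k8),(k6,k8),(k8,k9)],[(k0,k8),(k2,k8),(k11,k8),(k9,k9)],[(k5,k6),(k3,k8),(k6,k8),
    (k8,k9)],[(k0,k6),(k2,k6),(k11,k6),(k9,k7)],[(k7,k6),(k10,k6)],[(k4,k6),(k1,k8)],[(k11,k6),(k0,k8),(k2,k8),(k9,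
    k9)],[(k5,k7),(k3,k9),(k6,k9),(k8,k12)],[(k0,k9),(k2,k9),(k11,k9),(k9,k12)],[(k5,k6),(k6,k6),(k3,k8),(k8,k9)],
    [(k4,k6),(k1,k8)]]
    [] k0
    [[k1,k0,k0,k1,k0,k0],[k0,k2,k0,k0,k0,k0],[k0,k1,k0,k0,k1,k0],[k0,k1,k1,k0,k0,k1],[k0,k0,k1,k0,k1,k1],[k0,k0,k1,k0,
    k0,k1]]
    [.ref k0 k0 [(z1,[z1])],.contra [z1],.ref k2 k0 [(z1,[y1,z1])],.ref k1 k0 [(z1,[y1,z1])],.ref k1 k1 [(z1,[y1,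
    z1])],.ref k0 k2 [(z1,[z1])]])]⟩

/-- classes `0 0 1 0 0 1`, types `C0 C0 N0 C0 C0 N1` -/
noncomputable def cU6_718 : CertX :=
  ⟨[k4,k4,k28,k4,k4,k29],[(false,k0,[k0,k1,k2,k3,k4,k5]),(false,k3,[k3,k4,k5,k0,k1,k2])],[[[([z1,z0,z1,z1,z0,z1],z2)],
    [([z1,z0,z1,z0,z1,z0],z2)],[([z1,z1,z1,z0,z0,z0],z2)],[([z1,z0,z1,z0,z0,z0],z1),([z0,z3,z0,z0,z0,z0],z1),([z0,z0,
    z0,z1,z0,z1],z2)],[([z1,z0,z1,z0,z0,z0],z1),([z0,z2,z0,z0,z0,z0],z1),([z0,z0,z0,z1,z0,z1],z2)],[([z1,z0,z1,z0,z0,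
    z0],z1),([z0,z3,z0,z0,z0,z0],z2),([z0,z0,z0,z1,z0,z1],z2)],[([z1,z0,z1,z0,z0,z0],z1),([z0,z1,z0,z0,z1,z0],z1)],
    [([z3,z0,z3,z0,z0,z0],z2),([z0,z3,z0,z0,z0,z0],z2),([z0,z0,z0,z1,z0,z1],z2)],[([z1,z0,z1,z0,z0,z0],z2),([z0,z3,z0,
    z0,z0,z0],z2)],[([z1,z0,z1,z0,z0,z0],z2)],[]]],
    [.old (.leafM k5 [k0,k2,k3,k5] [] [(k1,k4,z1,[y1,z1]),(k4,k1,z1,[y1,z1])]),
    .old (.leafM k1 [k0,k1,k2,k3,k4,k5] [(z1,[y1,z1]),(z1,[z1])] []),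
    .old (.leafM k0 [k2,k3,k4,k5,k0,k1] [(z1,[y1,z1])] []),
    .old (.leafM k11 [k2,k4,k0,k1] [(z1,[y3,y1,y3,z3]),(z1,[z0,z1]),(z1,[z1])] [(k3,k5,z1,[z0,z0,z1]),(k5,k3,z1,[z0,z0,
    z1])]),
    .old (.leafM k12 [k0,k1,k2,k4] [(z1,[z0,z1]),(z1,[y2,y1,y2,z2]),(z1,[z1])] [(k3,k5,z1,[z0,z0,z1]),(k5,k3,z1,[z0,z0,
    z1])]),
    .old (.leafM k11 [k0,k1,k2,k4] [(z1,[z0,z1]),(z1,[y3,y1,y3,z3]),(z1,[z1])] [(k3,k5,z1,[z0,z0,z1]),(k5,k3,z1,[z0,z0,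
    z1])]),
    .old (.lp [k84,k60,k36,k60,k120,k110] [k18,k18,k30,k30,k42,k42,k30,k30,k0,k0,k5,k5] k0 [[k0,k0,k0,k0,k0,k0,k0,k0,k10],
    [],[],[],[],[],[],[k0,k0,k0,k0,k0,k0,k0,k0,k0,k70],[k0,k0,k0,k0,k0,k0,k70],[k0,k10]] (nat_lit 240) k6
    [[(k4,k60)],[(k5,k60),(k3,k72),(k11,k87),(k9,k102)],[(k2,k60),(k6,k60),(k0,k72),(k8,k100)],[(k5,k48),(k3,k60),
    (k11,k85),(k9,k90)],[(k2,k48),(k6,k48),(k0,k60),(k8,k78)],[(k1,k60)],[(k10,k85)],[(k5,k48),(k3,k60),(k9,k90),(k11,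
    k155)],[(k8,k50),(k2,k90),(k6,k90),(k0,k102)],[(k9,k50),(k5,k78),(k3,k100),(k11,k115)],[(k2,k85),(k0,k87),(k8,
    k115),(k6,k155)],[(k7,k85)]]
    [] k0
    [[k1,k0,k1,k0,k0,k0],[k1,k1,k1,k0,k0,k0],[k0,k2,k0,k0,k0,k0],[k0,k3,k0,k0,k0,k0],[k0,k1,k0,k1,k0,k1],[k0,k1,k0,k0,
    k1,k0],[k0,k0,k0,k0,k2,k0],[k0,k0,k0,k0,k3,k0],[k0,k0,k0,k0,k4,k0]]
    [.contra [y1,z2],.contra [z1,y1],.contra [z1],.ref k5 k0 [(z1,[z0,z1]),(z1,[z1]),(z1,[z0,y1,y1,z1])],.contra [y1,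
    y1,z0,z1],.contra [y1,z1,z1],.contra [z1],.ref k3 k0 [(z1,[z0,z1]),(z1,[y1,z0,z3]),(z1,[z0,y1,y1,z1])],
    .ref k4 k0 [(z1,[z0,z1]),(z2,[y1,z0,z4]),(z1,[z0,y1,y1,z1])]]),
    .old (.leafM k10 [k0,k1,k2,k4] [(z1,[z0,z1]),(z1,[y1,y1,y3,z3]),(z1,[z1])] [(k3,k5,z1,[z0,z0,z1]),(k5,k3,z1,[z0,z0,
    z1])]),
    .old (.lp [(nat_lit 204),k82,k34,k62,k62,k34] [k0,k0,k61,k61,k85,k85,k71,k71,k71,k71,k85,k85] k0 [[k0,k0,k0,k0,k0,k0,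
    k0,k0,k34],[k0,k0,k0,k2],[k2],[],[],[],[],[],[],[k0,k34]] (nat_lit 240) k6
    [[(k4,k119)],[(k11,k85),(k5,k121),(k9,k133),(k3,k143)],[(k6,k72),(k2,k80),(k8,k106),(k0,k143)],[(k5,k58),(k11,
    k58),(k9,k72),(k3,k80)],[(k6,k48),(k8,k48),(k2,k58),(k0,k121)],[(k1,k119)],[(k10,k48)],[(k5,k48),(k11,k48),(k9,
    k62),(k3,k72)],[(k6,k62),(k8,k62),(k2,k72),(k0,k133)],[(k5,k48),(k11,k48),(k9,k62),(k3,k106)],[(k6,k48),(k8,k48),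
    (k2,k58),(k0,k85)],[(k7,k48)]]
    [] k0
    [[k0,k2,k0,k0,k0,k0],[k0,k1,k0,k1,k0,k1],[k0,k1,k0,k0,k1,k0],[k0,k0,k0,k1,k0,k1],[k0,k0,k0,k2,k0,k2],[k0,k0,k0,k1,
    k1,k1],[k0,k0,k0,k1,k2,k1],[k0,k0,k0,k0,k2,k0],[k0,k0,k0,k0,k3,k0]]
    [.contra [z1],.contra [y1,y1,z0,z1],.contra [y1,y1,z0,z1],.contra [y1,y1,z0,z1],.ref k6 k1 [(z2,[z1]),(z2,[y1,y2,
    z0,z2])],.contra [z1,z1,z1,y1],.ref k7 k1 [(z1,[y3,y6,y2,z6]),(z1,[z3,z3,z1,y3]),(z1,[z0,z1])],.contra [z1],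
    .ref k7 k1 [(z1,[y1,y3,y1,z3]),(z1,[z1]),(z1,[z0,z1])]]),
    .old (.lp [(nat_lit 2346),(nat_lit 960),k184,(nat_lit 920),(nat_lit 920),k184] [k0,k0,(nat_lit 693),(nat_lit 693),
    (nat_lit 1081),(nat_lit 1081),(nat_lit 713),(nat_lit 713),(nat_lit 713),(nat_lit 713),(nat_lit 1081),
    (nat_lit 1081)] k0 [[k0,k0,k0,k0,k0,k0,k0,k0,k184],[k0,k0,k0,(nat_lit 230)],[(nat_lit 230)],[],[],[],[],[],[],[k0,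
    k184]] (nat_lit 2760) k6
    [[(k4,(nat_lit 1265))],[(k11,(nat_lit 1081)),(k5,(nat_lit 1495)),(k9,(nat_lit 1633)),(k3,(nat_lit 1653))],[(k2,
    (nat_lit 730)),(k6,(nat_lit 940)),(k8,(nat_lit 1124)),(k0,(nat_lit 1653))],[(k5,(nat_lit 572)),(k11,
    (nat_lit 572)),(k3,(nat_lit 730)),(k9,(nat_lit 940))],[(k6,(nat_lit 552)),(k8,(nat_lit 552)),(k2,(nat_lit 572)),
    (k0,(nat_lit 1495))],[(k1,(nat_lit 1265))],[(k10,(nat_lit 552))],[(k5,(nat_lit 552)),(k11,(nat_lit 552)),(k9,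
    (nat_lit 920)),(k3,(nat_lit 940))],[(k6,(nat_lit 920)),(k8,(nat_lit 920)),(k2,(nat_lit 940)),(k0,(nat_lit 1633))],
    [(k5,(nat_lit 552)),(k11,(nat_lit 552)),(k9,(nat_lit 920)),(k3,(nat_lit 1124))],[(k6,(nat_lit 552)),(k8,
    (nat_lit 552)),(k2,(nat_lit 572)),(k0,(nat_lit 1081))],[(k7,(nat_lit 552))]]
    [] k0
    [[k0,k2,k0,k0,k0,k0],[k0,k3,k0,k0,k0,k0],[k0,k1,k0,k1,k0,k1],[k0,k1,k0,k0,k1,k0],[k0,k0,k0,k1,k0,k1],[k0,k0,k0,k2,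
    k0,k2],[k0,k0,k0,k1,k1,k1],[k0,k0,k0,k0,k2,k0]]
    [.contra [z1],.ref k8 k0 [(z1,[z0,z1]),(z1,[z1])],.contra [y1,y1,z1],.contra [y1,y1,z1],.contra [y1,y1,z1],
    .ref k6 k1 [(z2,[z1]),(z2,[y1,y2,z2])],.contra [y1,y1,z1],.contra [z1]]),
    .old (.lp [k10,k10,k2,k10,k12,k2] [k1,k1,k1,k1,k5,k5,k1,k1,k0,k0,k5,k5] k0 [[k0,k0,k0,k0,k0,k0,k2],[],[],[],[],[],[],
    [k0,k2]] k24 k5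
    [[(k4,k6)],[(k5,k6),(k11,k6),(k9,k9),(k3,k10)],[(k0,k10),(k2,k10),(k8,k11),(k6,k12)],[(k5,k6),(k11,k6),(k3,k10),
    (k9,k11)],[(k0,k6),(k2,k6),(k6,k6),(k8,k7)],[(k1,k6)],[(k10,k6)],[(k5,k6),(k11,k6),(k9,k11),(k3,k12)],[(k0,k9),
    (k2,k11),(k6,k11),(k8,k12)],[(k5,k7),(k11,k7),(k3,k11),(k9,k12)],[(k0,k6),(k2,k6),(k6,k6),(k8,k7)],[(k7,k6)]]
    [] k0
    [[k1,k0,k1,k0,k0,k0],[k1,k1,k1,k0,k0,k0],[k1,k0,k1,k0,k1,k0],[k0,k2,k0,k0,k0,k0],[k0,k1,k0,k0,k1,k0],[k0,k0,k0,k1,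
    k0,k1]]
    [.ref k9 k0 [(z1,[z1])],.ref k2 k0 [(z1,[z1])],.ref k1 k0 [(z1,[z1])],.contra [z1],.ref k0 k0 [(z1,[y1,z1])],
    .ref k9 k1 [(z1,[z1])]])]⟩

/-- classes `0 0 1 0 0 1`, types `C0 C0 N0 C0 C0 N2` -/
noncomputable def cU6_719 : CertX :=
  ⟨[k4,k4,k28,k4,k4,k30],[(false,k0,[k0,k1,k2,k3,k4,k5])],[[[([z1,z0,z1,z1,z0,z1],z2)],[]]],
    [.old (.leafM k6 [k0,k2,k3,k5] [] [(k1,k4,z1,[y1,z1]),(k4,k1,z1,[y1,z1])]),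
    .old (.lp [k6,k8,k6,k6,k12,k6] [k3,k3,k2,k2,k3,k3,k3,k3,k0,k0,k3,k3] k0 [] k24 k5
    [[(k7,k6)],[(k5,k6),(k11,k6),(k3,k7),(k9,k9)],[(k0,k7),(k6,k7),(k2,k8),(k8,k10)],[(k5,k7),(k11,k7),(k3,k8),(k9,
    k10)],[(k0,k6),(k6,k6),(k2,k7),(k8,k9)],[(k10,k6)],[(k1,k6)],[(k5,k6),(k11,k6),(k3,k7),(k9,k9)],[(k0,k9),(k6,k9),
    (k2,k10),(k8,k12)],[(k5,k9),(k11,k9),(k3,k10),(k9,k12)],[(k0,k6),(k6,k6),(k2,k7),(k8,k9)],[(k4,k6)]]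
    [] k0
    [[k0,k2,k0,k0,k0,k0],[k0,k1,k0,k0,k1,k0]]
    [.contra [z1],.ref k0 k0 [(z1,[y1,z1])]])]⟩

/-- classes `0 0 1 0 0 1`, types `C0 C0 N0 C0 C2 N1` -/
noncomputable def cU6_720 : CertX :=
  ⟨[k4,k4,k28,k4,k6,k29],[(false,k0,[k0,k1,k2,k3,k4,k5])],[[[([z1,z1,z1,z0,z0,z0],z2)],[]]],
    [.old (.leafM k0 [k2,k3,k4,k5,k0,k1] [(z1,[y1,z1])] []),
    .old (.lp [k188,k90,k42,k54,k42,k54] [k0,k0,k49,k49,k73,k73,k67,k67,k73,k73,k67,k67] k0 [[],[k0,k0,k0,k10],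
    [k10]] (nat_lit 240) k6
    [[(k4,k115)],[(k8,k115),(k9,k115),(k5,k125),(k3,k139)],[(k6,k72),(k11,k72),(k2,k80),(k0,k139)],[(k5,k66),(k8,k66),
    (k9,k66),(k3,k80)],[(k6,k48),(k11,k48),(k2,k66),(k0,k125)],[(k1,k115)],[(k10,k54)],[(k5,k48),(k8,k48),(k9,k48),
    (k3,k72)],[(k6,k48),(k11,k48),(k2,k66),(k0,k115)],[(k6,k48),(k11,k48),(k2,k66),(k0,k115)],[(k5,k48),(k8,k48),(k9,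
    k48),(k3,k72)],[(k7,k54)]]
    [] k0
    [[k0,k2,k0,k0,k0,k0],[k0,k0,k0,k1,k1,k1]]
    [.contra [z1],.ref k0 k0 [(z1,[y1,z1])]])]⟩

/-- classes `0 0 1 0 0 1`, types `C0 C0 N0 C0 C2 N2` -/
noncomputable def cU6_721 : CertX :=
  ⟨[k4,k4,k28,k4,k6,k30],[(false,k0,[k0,k1,k2,k3,k4,k5])],[[[([z1,z1,z0,z1,z1,z0],z2)],[([z1,z0,z0,z1,z1,z0],z2)],
    []]],
    [.old (.leafM k2 [k0,k1,k3,k4] [] [(k2,k5,z1,[y1,z1]),(k5,k2,z1,[y1,z1])]),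
    .old (.leafM k3 [k4,k5,k0,k1,k2,k3] [(z1,[y1,z1])] []),
    .old (.lp [k6,k4,k4,k2,k4,k2] [k0,k0,k1,k1,k1,k1,k2,k2,k1,k1,k2,k2] k0 [[k0,k0,k2],[],[],[k0,k2]] k12 k5
    [[(k7,k4)],[(k5,k3),(k3,k5),(k8,k5),(k9,k5)],[(k6,k3),(k11,k3),(k0,k5),(k2,k6)],[(k5,k4),(k8,k4),(k9,k4),(k3,k6)],
    [(k0,k3),(k6,k3),(k11,k3),(k2,k4)],[(k10,k3)],[(k1,k4)],[(k3,k3),(k5,k3),(k8,k3),(k9,k3)],[(k6,k3),(k11,k3),(k2,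
    k4),(k0,k5)],[(k6,k3),(k11,k3),(k2,k4),(k0,k5)],[(k3,k3),(k5,k3),(k8,k3),(k9,k3)],[(k4,k3)]]
    [] k0
    [[k0,k1,k1,k0,k0,k1],[k0,k0,k1,k0,k0,k1]]
    [.ref k1 k0 [(z1,[y1,z1])],.ref k0 k0 [(z1,[y1,z1])]])]⟩

/-- the certificates of this file -/
noncomputable def lU6_19 : List CertX :=
  [cU6_698, cU6_699, cU6_700, cU6_701, cU6_702, cU6_703, cU6_704, cU6_705, cU6_706, cU6_707, cU6_708, cU6_709,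
      cU6_710, cU6_711, cU6_712, cU6_713, cU6_714, cU6_715, cU6_716, cU6_717, cU6_718, cU6_719, cU6_720,
      cU6_721]

theorem gU6_19 : allF (chkE 6 ttU6) lU6_19 = true := by
  decide +kernel

end Pool.Agent.Lib_MP_fa6e45
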