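import Pool.Agent.Lib_MP_fa6e45.CY6_2d

/-!
MP_fa6e45_co, stage 7: certificates (generated by a program).
-/

namespace Pool.Agent.Lib_MP_fa6e45

noncomputable def cU6_3_n0_0 : List XN :=
  [.old (.leafM k0 [k1,k2,k3,k4] [] [(k5,k0,z1,[z1]),(k0,k5,z1,[z1])]),
    .old (.leafM k5 [k1,k2,k4,k5] [] [(k3,k0,z1,[z1]),(k0,k3,z1,[z1])]),
    .old (.leafM k1 [k0,k1,k2,k3,k4,k5] [(z1,[y1,z1]),(z1,[z1])] []),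
    .old (.leafM k0 [k0,k1,k2,k3,k4,k5] [(z1,[y1,z1])] []),
    .old (.leafM k10 [k1,k3,k5,k0] [(z1,[y1,y1,y3,z3]),(z1,[z1]),(z1,[z0,z1])] [(k2,k4,z1,[z0,z0,z1]),(k4,k2,z1,[z0,z0,
    z1])]),
    .old (.leafM k11 [k1,k3,k5,k0] [(z1,[y1,y3,y3,z3]),(z1,[z1]),(z1,[z0,z1])] [(k2,k4,z1,[z0,z0,z1]),(k4,k2,z1,[z0,z0,
    z1])]),
    .geo true z3 k5 [(y2,z9),(z6,y6),(z2,z0),(z0,z6),(z6,y12),(z0,z3)] [(z1,[z1]),(z1,[z0,z3]),(z1,[z0,z0,z1]),(z1,[z0,z0,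
    z0,z3]),(z1,[y1,y3,y1,y3,z3]),(z1,
    [])] (Int.ofNat (nat_lit 233016)) (Int.ofNat (nat_lit 524288)) (.s (.l k1) (.l k1)) [],
    .geo true z6 k5 [(y4,z6),(z8,y3),(z4,z0),(z4,z3),(z12,y12),(z0,z6)] [(z1,[z2]),(z1,[z0,z1]),(z1,[z0,z0,z2]),(z1,[z0,
    z0,z0,z1]),(z1,[y2,y1,y2,y1,z6]),(z1,[])] (Int.ofNat (nat_lit 699050)) (Int.ofNat (nat_lit 1048576)) (.l k1) [],
    .geo true z3 k5 [(y2,z6),(z4,y3),(z2,z0),(z2,z3),(z6,y9),(z0,z3)] [(z1,[z1]),(z1,[z0,z1]),(z1,[z0,z0,z1]),(z1,[z0,z0,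
    z0,z1]),(z1,[y1,y1,y1,y1,z3]),(z1,
    [])] (Int.ofNat (nat_lit 349525)) (Int.ofNat (nat_lit 699051)) (.s (.l k1) (.l k1)) [],
    .geo true z3 k5 [(y2,z3),(z12,y9),(y6,z6),(z6,y3),(z2,z0),(z0,z3)] [(z1,[z1]),(z1,[z0,z3]),(z1,[z0,z0,z3]),(z1,[z0,z0,
    z0,z3]),(z1,[y1,y3,y3,y3,z3]),(z1,
    [])] (Int.ofNat (nat_lit 1048576)) (Int.ofNat (nat_lit 1398102)) (.s (.l k1) (.l k1)) [],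
    .geo true z6 k5 [(y4,z6),(z12,y12),(z6,z3),(z4,z0),(z6,y3),(z0,z6)] [(z1,[z2]),(z1,[z0,z6]),(z1,[z0,z0,z3]),(z1,[z0,
    z0,z0,z2]),(z1,[y2,y6,y3,y2,z6]),(z1,[])] (Int.ofNat (nat_lit 699050)) (Int.ofNat (nat_lit 1048576)) (.l k1) [],
    .geo true z3 k5 [(y6,z6),(z6,y3),(z2,z0),(z0,z3),(z10,y9),(z0,z3)] [(z1,[z3]),(z1,[z0,z3]),(z1,[z0,z0,z1]),(z1,[z0,z0,
    z0,z3]),(z1,[y3,y3,y1,y3,z3]),(z1,[])] (Int.ofNat (nat_lit 1048576)) (Int.ofNat (nat_lit 1165085)) (.l k1) []]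

noncomputable def cU6_3_n0_1 : List XN :=
  [.geo true z3 k5 [(y6,z12),(z6,y6),(z2,z0),(z0,z6),(z10,y15),(z0,z3)] [(z1,[z3]),(z1,[z0,z3]),(z1,[z0,z0,z1]),(z1,[z0,
    z0,z0,z3]),(z1,[y3,y3,y1,y3,z3]),(z1,
    [])] (Int.ofNat (nat_lit 524288)) (Int.ofNat (nat_lit 699051)) (.s (.l k1) (.l k1)) [],
    .old (.lp [(nat_lit 328),(nat_lit 334),(nat_lit 330),(nat_lit 300),(nat_lit 326),(nat_lit 300)] [k124,k124,k121,k121,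
    (nat_lit 246),k0,k138,k138,k60,k190,k138,k138] k0 [[k0,k0,k0,k0,k0,k0,k0,k0,k0,k0,k2],[k0,k0,k0,k2,k0,k4],[k2],
    [k0,k0,k0,k0,k0,k0,k0,k0,k0,(nat_lit 324)],[k4],[k0,k0,k0,k0,k0,k0,k0,k52,k0,k0,k0,k2],[k0,k0,k0,k0,k52,k0,k0,k0,
    k10],[k0,k0,k0,k0,k0,k0,k0,k0,k0,k0,k0,k2],[k0,k0,(nat_lit 324),k0,k0,k0,k0,k0,k0,k0,k20],[k0,k0,k0,k0,k0,k0,k0,
    k10],[k0,k0,k0,k0,k2,k0,k2],[k0,k2,k0,k0,k0,k0,k0,k0,k0,k20]] (nat_lit 960) k6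
    [[(k4,(nat_lit 208)),(k10,(nat_lit 314)),(k6,(nat_lit 316)),(k0,(nat_lit 326)),(k2,(nat_lit 331)),(k8,
    (nat_lit 372))],[(k9,(nat_lit 262)),(k11,(nat_lit 314)),(k7,(nat_lit 318)),(k1,(nat_lit 326)),(k3,(nat_lit 331)),
    (k5,(nat_lit 454))],[(k4,(nat_lit 205)),(k6,(nat_lit 317)),(k10,(nat_lit 319)),(k0,(nat_lit 331)),(k2,
    (nat_lit 332)),(k8,(nat_lit 395))],[(k9,(nat_lit 265)),(k7,(nat_lit 317)),(k1,(nat_lit 331)),(k3,(nat_lit 332)),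
    (k5,(nat_lit 455)),(k11,(nat_lit 641))],[(k8,k192),(k4,(nat_lit 330)),(k6,(nat_lit 438)),(k10,(nat_lit 438)),(k0,
    (nat_lit 454)),(k2,(nat_lit 455))],[(k7,k192),(k9,k192),(k11,k192),(k3,(nat_lit 205)),(k1,(nat_lit 208)),(k5,
    (nat_lit 330))],[(k4,k192),(k6,(nat_lit 248)),(k10,(nat_lit 298)),(k2,(nat_lit 317)),(k0,(nat_lit 318)),(k8,
    (nat_lit 378))],[(k7,(nat_lit 248)),(k9,(nat_lit 248)),(k11,(nat_lit 290)),(k1,(nat_lit 316)),(k3,(nat_lit 317)),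
    (k5,(nat_lit 438))],[(k4,k192),(k10,(nat_lit 246)),(k6,(nat_lit 248)),(k0,(nat_lit 262)),(k2,(nat_lit 265)),(k8,
    (nat_lit 336))],[(k5,k192),(k9,(nat_lit 336)),(k1,(nat_lit 372)),(k7,(nat_lit 378)),(k11,(nat_lit 378)),(k3,
    (nat_lit 395))],[(k4,k192),(k6,(nat_lit 290)),(k0,(nat_lit 314)),(k10,(nat_lit 320)),(k8,(nat_lit 378)),(k2,
    (nat_lit 641))],[(k9,(nat_lit 246)),(k7,(nat_lit 298)),(k1,(nat_lit 314)),(k3,(nat_lit 319)),(k11,(nat_lit 320)),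
    (k5,(nat_lit 438))]]
    [] k0
    [[k2,k0,k0,k0,k0,k0],[k2,k0,k0,k0,k0,k1],[k1,k1,k0,k0,k0,k0],[k1,k0,k1,k0,k0,k0],[k1,k0,k1,k0,k1,k0],[k1,k0,k0,k1,
    k0,k0],[k1,k0,k0,k2,k0,k0],[k1,k0,k0,k1,k1,k0],[k1,k0,k0,k1,k0,k1],[k1,k0,k0,k0,k1,k0],[k1,k0,k0,k0,k1,k1],[k1,k0,
    k0,k0,k0,k1],[k1,k0,k0,k0,k0,k2],[k0,k2,k0,k0,k0,k0],[k0,k1,k1,k0,k0,k0],[k0,k1,k1,k0,k1,k0],[k0,k1,k0,k1,k0,k0],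
    [k0,k1,k0,k2,k0,k0],[k0,k1,k0,k0,k1,k0],[k0,k1,k0,k1,k0,k1],[k0,k0,k2,k0,k0,k0],[k0,k0,k2,k0,k1,k0],[k0,k0,k1,k1,
    k0,k0],[k0,k0,k1,k2,k0,k0],[k0,k0,k1,k1,k0,k1],[k0,k0,k1,k0,k1,k0],[k0,k0,k2,k0,k2,k0],[k0,k0,k1,k1,k1,k0],[k0,k0,
    k1,k2,k1,k0],[k0,k0,k1,k1,k1,k1],[k0,k0,k1,k0,k2,k0],[k0,k0,k1,k0,k1,k1],[k0,k0,k1,k0,k1,k2],[k0,k0,k1,k0,k0,k1],
    [k0,k0,k1,k0,k0,k2],[k0,k0,k0,k2,k0,k0],[k0,k0,k0,k3,k0,k0],[k0,k0,k0,k2,k1,k0],[k0,k0,k0,k2,k0,k1],[k0,k0,k0,k1,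
    k1,k0],[k0,k0,k0,k1,k1,k1],[k0,k0,k0,k1,k0,k1],[k0,k0,k0,k1,k0,k2],[k0,k0,k0,k0,k2,k0],[k0,k0,k0,k0,k1,k1],[k0,k0,
    k0,k0,k1,k2],[k0,k0,k0,k0,k0,k2]]
    [.contra [z1],.contra [z2,y1,z0,z1],.contra [y2,z1,z2,z1],.contra [y1,z0,y1,z0,z1],.contra [y1,z0,y1,z0,z1],
    .contra [y1,z0,y1,z0,z1],.ref k4 k0 [(z2,[z3,y1]),(z2,[y3,y1,y6,z0,z6]),(z1,[z0,z0,z1])],.contra [z1,z0,z3,z1,y1],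
    .ref k0 k1 [(z1,[y1,z0,y1,y1,z1])],.contra [y1,z0,y1,z0,z1],.ref k3 k2 [(z1,[z1])],.ref k0 k2 [(z1,[z1])],
    .contra [z1,z0,z0,z1],.contra [z1],.contra [y1,z0,z2,z1],.ref k0 k1 [(z1,[z1,z0,y1,y1])],.ref k11 k3 [(z1,[y2,z0,
    z2,z1]),(z1,[z1]),(z1,[z0,z1]),(z1,[y1,z0,z1])],.ref k12 k3 [(z1,[y2,z0,z2,z1]),(z1,[z1]),(z1,[z0,z1]),(z1,[y1,z0,
    z1])],.ref k1 k4 [(z1,[z1])],.contra [z1,z0,y1],.contra [z1],.ref k10 k0 [(z1,[y3,y1,y3,z0,z3]),(z1,[z1]),(z1,[z0,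
    z0,z0,y1]),(z1,[z0,z1])],.contra [y1,z0,y1,z0,z1],.ref k3 k2 [(z2,[y1,z0,y2,y1,z2])],.ref k9 k5 [(z1,[y3,y1,y3,z0,
    z3]),(z1,[z1,z0,z0,y1]),(z1,[z0,z0,z0,z1]),(z1,[z0,z0,z1])],.contra [y1,z0,y1,z0,z1],.ref k5 k0 [(z2,[y3,y2,y6,z0,
    z6]),(z2,[z1]),(z1,[z0,z0,z1])],.contra [z1,z1,z1,z0,y1],.ref k4 k0 [(z1,[z3,z1,z3,z0,y3]),(z1,[y3,y2,y6,z0,z6]),
    (z1,[z0,z0,z1])],.contra [z2,z1,z2,z1,y2],.ref k0 k1 [(z2,[z1,z0,z0,y1])],.ref k8 k3 [(z1,[z6,z2,z6,z3,y6]),(z1,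
    [y3,y1,z0,z0,z3]),(z1,[z0,z1]),(z1,[z3,z1,z3,z0,y3])],.contra [z1,z0,z0,z1],.ref k0 k2 [(z3,[z1,z1,z0,y1])],
    .contra [y1,z0,z4,z1],.contra [z1],.ref k4 k0 [(z1,[z1]),(z1,[y1,y1,y3,z0,z3]),(z1,[z0,z0,z1])],.ref k7 k3 [(z1,
    [y3,y1,y3,z0,z3]),(z1,[z3,z1,z9,z3,y3]),(z1,[z0,z1]),(z1,[y3,y1,y3,y3,z3])],.ref k6 k4 [(z1,[y6,y1,y3,y3,z3]),(z1,
    [z1]),(z1,[z0,z1]),(z1,[y1,z0,z1])],.contra [y1,z0,y1,z0,z1],.ref k0 k2 [(z1,[y1,z0,y1,y1,z1])],.ref k3 k2 [(z1,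
    [y1,z0,y1,y1,z1])],.contra [z1,z0,z0,z1],.contra [z1],.ref k0 k1 [(z1,[z1])],.contra [z1,z0,z0,z1],.contra [y1,z0,
    z2]]),
    .geo true z3 k5 [(z4,z6),(z2,z0),(z2,y6),(z2,z3),(z2,y6),(z0,z3)] [(z1,[z1]),(z1,[z0,z1]),(z1,[z0,z0,z1]),(z1,[z0,z0,
    z0,z1]),(z1,[y1,y1,y1,y1,z3]),(z1,
    [])] z0 (Int.ofNat (nat_lit 349526)) (.s (.s (.l k1) (.l k1)) (.s (.l k1) (.s (.l k1) (.l k2)))) [⟨z1,z3,[[k0,k5],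
    [k1,k2],[k3,k4]],.bnd k0⟩],
    .geo true z6 k5 [(z2,z0),(z6,y3),(z0,z3),(z12,y6),(z4,z0),(z0,z6)] [(z1,[z2]),(z1,[z0,z3]),(z1,[z0,z0,z3]),(z1,[z0,z0,
    z0,z6]),(z1,[y2,y3,y3,y6,z6]),(z1,
    [])] z0 (Int.ofNat (nat_lit 2097152)) (.s (.s (.l k1) (.l k1)) (.s (.l k1) (.s (.l k1) (.l k2)))) [⟨z2,z1,[[k0,
    k1],[k2,k3],[k4,k5]],.bnd k1⟩],
    .geo true z3 k5 [(y2,z3),(z10,y6),(z2,z0),(y4,z6),(z6,y6),(z0,z3)] [(z1,[z1]),(z1,[z0,z1]),(z1,[z0,z0,z1]),(z1,[z0,z0,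
    z0,z1]),(z1,[y1,y1,y1,y1,z3]),(z1,
    [])] (Int.ofNat (nat_lit 699050)) (Int.ofNat (nat_lit 1048576)) (.s (.l k1) (.l k1)) [],
    .geo true z3 k5 [(y2,z6),(z6,y9),(z0,z6),(z2,z0),(z6,y6),(z0,z3)] [(z1,[z1]),(z1,[z0,z3]),(z1,[z0,z0,z3]),(z1,[z0,z0,
    z0,z1]),(z1,[y1,y3,y3,y1,z3]),(z1,
    [])] (Int.ofNat (nat_lit 349525)) (Int.ofNat (nat_lit 699051)) (.s (.l k1) (.l k1)) [],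
    .geo true z3 k5 [(y2,z3),(z6,y6),(y6,z12),(z2,z0),(z12,y12),(z0,z3)] [(z1,[z1]),(z1,[z0,z3]),(z1,[z0,z0,z3]),(z1,[z0,
    z0,z0,z1]),(z1,[y1,y3,y3,y1,z3]),(z1,
    [])] (Int.ofNat (nat_lit 699050)) (Int.ofNat (nat_lit 1048576)) (.s (.l k1) (.s (.l k1) (.s (.l k1) (.l k1)))) [],
    .geo true z6 k5 [(y4,z6),(z12,y9),(z0,z3),(z12,y6),(z4,z0),(z0,z6)] [(z1,[z2]),(z1,[z0,z3]),(z1,[z0,z0,z3]),(z1,[z0,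
    z0,z0,z6]),(z1,[y2,y3,y3,y6,z6]),(z1,
    [])] (Int.ofNat (nat_lit 699050)) (Int.ofNat (nat_lit 1398102)) (.s (.l k1) (.l k1)) [],
    .geo true z3 k5 [(y2,z3),(z12,y12),(z2,z0),(y6,z12),(z6,y6),(z0,z3)] [(z1,[z1]),(z1,[z0,z3]),(z1,[z0,z0,z1]),(z1,[z0,
    z0,z0,z3]),(z1,[y1,y3,y1,y3,z3]),(z1,
    [])] (Int.ofNat (nat_lit 699050)) (Int.ofNat (nat_lit 1048576)) (.s (.l k1) (.l k1)) [],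
    .geo true z3 k5 [(z0,z6),(z4,y9),(z0,z6),(z2,z0),(z6,y6),(z0,z3)] [(z1,[z3]),(z1,[z0,z1]),(z1,[z0,z0,z3]),(z1,[z0,z0,
    z0,z1]),(z1,[y3,y1,y3,y1,z3]),(z1,
    [])] z0 (Int.ofNat (nat_lit 466034)) (.s (.s (.s (.s (.l k2) (.l k1)) (.l k1)) (.l k1)) (.l k1)) [⟨z0,z1,[[k0,k3],
    [k1,k2],[k4,k5]],.bnd k0⟩],
    .geo true z9 k5 [(z4,z0),(z10,z0),(z6,z0),(z8,z0),(z8,y9),(z0,z9)] [(z1,[z1]),(z1,[z0,z1]),(z1,[z0,z0,z3]),(z1,[z0,z0,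
    z0,z1]),(z1,[y1,y1,y3,y1,z9]),(z1,[])] z0 (Int.ofNat (nat_lit 932068)) (.l k1) [],
    .geo true z3 k5 [(z0,z6),(z2,z0),(z6,y6),(z0,z3),(z4,y6),(z0,z3)] [(z1,[z3]),(z1,[z0,z1]),(z1,[z0,z0,z3]),(z1,[z0,z0,
    z0,z3]),(z1,[y3,y1,y3,y3,z3]),(z1,
    [])] z0 (Int.ofNat (nat_lit 699051)) (.s (.s (.l k1) (.l k1)) (.s (.l k1) (.l k1))) []]

noncomputable def cU6_3_n0_2 : List XN :=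
  [.geo true z3 k5 [(y6,z12),(z10,y15),(z0,z6),(z2,z0),(z6,y6),(z0,z3)] [(z1,[z3]),(z1,[z0,z1]),(z1,[z0,z0,z3]),(z1,[z0,
    z0,z0,z1]),(z1,[y3,y1,y3,y1,z3]),(z1,
    [])] (Int.ofNat (nat_lit 524288)) (Int.ofNat (nat_lit 699051)) (.s (.l k1) (.l k1)) [],
    .old (.lp [(nat_lit 488),(nat_lit 486),(nat_lit 472),(nat_lit 392),(nat_lit 512),(nat_lit 524)] [k135,k135,k136,k136,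
    (nat_lit 286),k0,k183,k183,k48,k198,k117,k117] k0 [[k0,k0,k0,k0,k0,k0,k0,k0,k0,k0,k8],[k0,k0,k0,k0,k0,k48],[k0,k0,
    k0,k0,k60,k0,k44],[k0,k0,k0,k0,k0,k0,k0,k0,k0,(nat_lit 422),k0,k42],[k48,k0,k0,k0,k0,k0,k0,k0,k24],[k0,k0,k0,k60,
    k0,k0,k0,k14],[k0,k0,k0,k0,k14],[k0,k0,k0,k44,k0,k0,k0,k0,k0,k0,k0,k134],[k0,k0,(nat_lit 422)],[k0,k0,k0,k0,k0,
    k24],[k0,k0,k42,k0,k0,k0,k134],[k0,k8]] (nat_lit 1440) k6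
    [[(k4,(nat_lit 337)),(k0,(nat_lit 480)),(k10,(nat_lit 506)),(k2,(nat_lit 529)),(k6,(nat_lit 574)),(k8,
    (nat_lit 575))],[(k9,(nat_lit 425)),(k1,(nat_lit 480)),(k3,(nat_lit 487)),(k7,(nat_lit 488)),(k11,(nat_lit 506)),
    (k5,(nat_lit 623))],[(k4,(nat_lit 288)),(k6,(nat_lit 439)),(k2,(nat_lit 486)),(k0,(nat_lit 487)),(k10,
    (nat_lit 513)),(k8,(nat_lit 574))],[(k7,(nat_lit 379)),(k9,(nat_lit 380)),(k3,(nat_lit 486)),(k1,(nat_lit 529)),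
    (k5,(nat_lit 622)),(k11,(nat_lit 927))],[(k8,(nat_lit 288)),(k4,(nat_lit 532)),(k10,(nat_lit 599)),(k6,
    (nat_lit 619)),(k2,(nat_lit 622)),(k0,(nat_lit 623))],[(k3,(nat_lit 288)),(k9,(nat_lit 288)),(k7,(nat_lit 289)),
    (k11,(nat_lit 331)),(k1,(nat_lit 337)),(k5,(nat_lit 532))],[(k4,(nat_lit 289)),(k6,(nat_lit 378)),(k2,
    (nat_lit 379)),(k10,(nat_lit 458)),(k0,(nat_lit 488)),(k8,(nat_lit 551))],[(k9,(nat_lit 377)),(k7,(nat_lit 378)),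
    (k3,(nat_lit 439)),(k11,(nat_lit 458)),(k1,(nat_lit 574)),(k5,(nat_lit 619))],[(k4,(nat_lit 288)),(k10,
    (nat_lit 309)),(k6,(nat_lit 377)),(k2,(nat_lit 380)),(k0,(nat_lit 425)),(k8,(nat_lit 512))],[(k5,(nat_lit 288)),
    (k9,(nat_lit 512)),(k7,(nat_lit 551)),(k3,(nat_lit 574)),(k1,(nat_lit 575)),(k11,(nat_lit 593))],[(k4,
    (nat_lit 331)),(k6,(nat_lit 458)),(k0,(nat_lit 506)),(k10,(nat_lit 524)),(k8,(nat_lit 593)),(k2,(nat_lit 927))],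
    [(k9,(nat_lit 309)),(k7,(nat_lit 458)),(k1,(nat_lit 506)),(k3,(nat_lit 513)),(k11,(nat_lit 524)),(k5,
    (nat_lit 599))]]
    [] k0
    [[k2,k0,k0,k0,k0,k0],[k1,k1,k0,k0,k0,k0],[k1,k0,k1,k0,k0,k0],[k1,k0,k1,k0,k1,k0],[k1,k0,k0,k1,k0,k0],[k1,k0,k0,k0,
    k1,k0],[k1,k0,k0,k0,k1,k1],[k1,k0,k0,k0,k0,k1],[k0,k2,k0,k0,k0,k0],[k0,k2,k1,k0,k0,k0],[k0,k2,k0,k1,k0,k0],[k0,k1,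
    k1,k0,k0,k0],[k0,k1,k1,k1,k0,k0],[k0,k1,k1,k0,k1,k0],[k0,k1,k1,k1,k1,k0],[k0,k1,k0,k1,k0,k0],[k0,k1,k0,k2,k0,k0],
    [k0,k1,k0,k1,k1,k0],[k0,k1,k0,k0,k1,k0],[k0,k1,k0,k1,k0,k1],[k0,k0,k2,k0,k0,k0],[k0,k0,k2,k0,k1,k0],[k0,k0,k1,k1,
    k0,k0],[k0,k0,k1,k2,k0,k0],[k0,k0,k1,k1,k0,k1],[k0,k0,k1,k0,k1,k0],[k0,k0,k2,k0,k2,k0],[k0,k0,k1,k1,k1,k0],[k0,k0,
    k1,k2,k1,k0],[k0,k0,k1,k0,k2,k0],[k0,k0,k1,k0,k1,k1],[k0,k0,k1,k1,k1,k1],[k0,k0,k1,k0,k0,k1],[k0,k0,k0,k2,k0,k0],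
    [k0,k0,k0,k3,k0,k0],[k0,k0,k0,k2,k1,k0],[k0,k0,k0,k2,k0,k1],[k0,k0,k0,k1,k1,k0],[k0,k0,k0,k1,k1,k1],[k0,k0,k0,k1,
    k0,k1],[k0,k0,k0,k0,k2,k0],[k0,k0,k0,k0,k2,k1],[k0,k0,k0,k0,k1,k1],[k0,k0,k0,k0,k1,k2],[k0,k0,k0,k0,k0,k2]]
    [.contra [z1],.ref k0 k6 [(z1,[z1])],.contra [y2,z1,z1,z1],.contra [y1,z0,y1,z0,z1],.contra [y1,z0,y1,z0,z1],
    .contra [y1,z0,y1,z0,z1],.ref k3 k2 [(z1,[z1])],.ref k0 k2 [(z1,[z1])],.contra [z1],.ref k0 k2 [(z3,[y2,z1,z4,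
    z1])],.ref k24 k0 [(z1,[z1,z0,y2,y2]),(z1,[y3,y1,z3,z6,z3]),(z1,[z0,z0,z0,y1]),(z1,[z0,z1])],.contra [y1,z0,z1,
    z1],.ref k3 k2 [(z1,[y1,z0,z0,z0,z1])],.ref k23 k1 [(z1,[y2,z0,z2,z1]),(z1,[z0,z1]),(z1,[z2,z0,y1,y1]),(z1,[y1,z0,
    z1,z1])],.ref k0 k2 [(z1,[y1,z0,z0,z0,z1])],.ref k21 k0 [(z1,[z1,z0,y1,y1]),(z1,[y3,y1,z0,z3,z3]),(z1,[z0,z0,z0,
    y1]),(z1,[z0,z1])],.ref k3 k2 [(z2,[y1,z0,y1,y1,z2])],.ref k22 k3 [(z1,[y3,y1,z0,z3,z3]),(z1,[z6,z2,z9,z3,y6]),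
    (z1,[z0,z1]),(z1,[y6,y2,z0,y3,z6])],.ref k1 k4 [(z1,[z1])],.contra [z1,z0,y1],.contra [z1],.ref k0 k1 [(z1,[z1,z0,
    z0,y1])],.contra [y1,z0,y1,z0,z1],.ref k20 k4 [(z1,[y3,y1,y3,z0,z3]),(z1,[z2,z0,z0,y1]),(z1,[z0,z1]),(z1,[y2,z0,
    z1,z1])],.ref k19 k5 [(z1,[y3,y1,y3,z0,z3]),(z1,[z2,z0,z0,y1]),(z1,[z0,z0,z0,z1]),(z1,[z0,z0,z1])],.contra [y1,z0,
    y1,z0,z1],.ref k5 k0 [(z2,[y3,y2,y6,z0,z6]),(z2,[z1]),(z1,[z0,z0,z1])],.contra [z1,z1,z1,z0,y1],.ref k4 k0 [(z1,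
    [z3,z1,z3,z0,y3]),(z1,[y3,y2,y6,z0,z6]),(z1,[z0,z0,z1])],.ref k18 k7 [(z1,[y3,y1,y3,z0,z3]),(z1,[z1]),(z1,[y2,z0,
    z1,z1]),(z1,[z0,z1])],.ref k17 k0 [(z1,[y3,y1,y3,y3,z3]),(z1,[z1,z0,z0,z1]),(z1,[z0,z0,z0,y1]),(z1,[z0,z1])],
    .ref k0 k6 [(z1,[y1,z0,z0,z0,z1])],.ref k0 k2 [(z3,[z2,z1,z0,y1])],.contra [z1],.ref k4 k0 [(z1,[z1]),(z1,[y1,y1,
    y3,z0,z3]),(z1,[z0,z0,z1])],.ref k16 k3 [(z1,[y3,y1,y3,z0,z3]),(z1,[z6,z2,z9,z3,y6]),(z1,[z0,z1]),(z1,[y6,y2,y6,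
    y3,z6])],.ref k15 k5 [(z2,[y3,y2,y6,y3,z6]),(z1,[z1]),(z1,[z0,z0,z0,z1]),(z1,[z0,z0,z1])],.contra [y1,z0,y1,z0,
    z1],.ref k0 k2 [(z1,[z2,z1,z2,z1,y2])],.ref k14 k1 [(z1,[z6,z2,z6,z3,y6]),(z1,[z0,z1]),(z1,[y6,y2,y3,y3,z6]),(z1,
    [z3,z1,z3,z3,y3])],.contra [z1],.ref k5 k0 [(z2,[y3,y2,y6,y3,z6]),(z2,[z1,z0,z0,z1]),(z1,[z0,z0,z1])],
    .ref k0 k1 [(z1,[z1])],.ref k13 k8 [(z1,[z0,z1]),(z1,[z0,z0,z1]),(z1,[z1,z0,y2])],.contra [y1,z0,z2]]),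
    .old (.tor k36 true k5 [(z1,[y1,y3,y3,y3,z3]),(z1,[z0,y1,z0,z1]),(z1,[z0,z1,z1]),(z1,[z1])]),
    .old (.tor k12 false k1 [(z1,[y1,y1,z0,z1]),(z1,[z2,z1,z1]),(z1,[y1,y1,y1,z1]),(z1,[z0,z1])]),
    .geo true z3 k4 [(z0,z3),(z2,z0),(z6,y3),(z2,y3),(z0,z3),(z2,z0)] [(z1,[z3]),(z1,[z0,z1]),(z1,[z0,z0,z3]),(z1,[z0,z0,
    z0,z1]),(z1,[]),(z1,[y3,y1,y3,y1,
    z3])] z0 (Int.ofNat (nat_lit 699051)) (.s (.s (.l k2) (.l k1)) (.s (.l k1) (.l k1))) [⟨z0,z1,[[k0,k5],[k1,k2],[k3,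
    k4]],.bnd k0⟩],
    .geo true z3 k5 [(y2,z6),(z6,y3),(z2,z0),(z0,z3),(z6,y9),(z0,z3)] [(z1,[z1]),(z1,[z0,z3]),(z1,[z0,z0,z1]),(z1,[z0,z0,
    z0,z3]),(z1,[y1,y3,y1,y3,z3]),(z1,
    [])] (Int.ofNat (nat_lit 349525)) (Int.ofNat (nat_lit 699051)) (.s (.l k1) (.l k1)) [],
    .geo true z3 k5 [(y10,z6),(z6,y3),(z8,y3),(z6,y3),(z2,z0),(z0,z3)] [(z1,[z1]),(z1,[z0,z3]),(z1,[z0,z0,z1]),(z1,[z0,z0,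
    z0,z3]),(z1,[y1,y3,y1,y3,z3]),(z1,
    [])] (Int.ofNat (nat_lit 1747626)) (Int.ofNat (nat_lit 2097152)) (.s (.s (.l k1) (.l k1)) (.s (.l k1) (.s (.l k1) (.l k2)))) [⟨z2,
    z1,[[k0,k1],[k2,k3],[k4,k5]],.bnd k1⟩],
    .geo true z3 k5 [(y2,z6),(z2,z0),(z8,y6),(z6,y9),(y2,z6),(z0,z3)] [(z1,[z1]),(z1,[z0,z1]),(z1,[z0,z0,z1]),(z1,[z0,z0,
    z0,z3]),(z1,[y1,y1,y1,y3,z3]),(z1,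
    [])] (Int.ofNat (nat_lit 349525)) (Int.ofNat (nat_lit 699051)) (.s (.s (.s (.l k2) (.l k1)) (.l k1)) (.s (.l k1) (.l k1))) [⟨z1,
    z3,[[k0,k5],[k1,k2],[k3,k4]],.bnd k0⟩],
    .geo true z3 k5 [(y2,z3),(z6,y6),(y2,z3),(z2,z0),(z8,y3),(z0,z3)] [(z1,[z1]),(z1,[z0,z3]),(z1,[z0,z0,z1]),(z1,[z0,z0,
    z0,z1]),(z1,[y1,y3,y1,y1,z3]),(z1,
    [])] (Int.ofNat (nat_lit 699050)) (Int.ofNat (nat_lit 1048576)) (.s (.s (.l k2) (.l k1)) (.l k1)) [⟨z2,z3,[[k0,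
    k5],[k1,k2],[k3,k4]],.bnd k0⟩],
    .geo true z3 k5 [(z0,z6),(z2,z0),(z6,y6),(y2,z3),(z6,y6),(z0,z3)] [(z1,[z3]),(z1,[z0,z1]),(z1,[z0,z0,z3]),(z1,[z0,z0,
    z0,z1]),(z1,[y3,y1,y3,y1,z3]),(z1,
    [])] (Int.ofNat (nat_lit 699050)) (Int.ofNat (nat_lit 1048576)) (.s (.l k1) (.l k2)) [⟨z1,z1,[[k0,k4],[k1,k2],[k3,
    k5]],.bnd k0⟩],
    .geo true z3 k5 [(y2,z6),(z6,y9),(y2,z6),(z2,z0),(z8,y6),(z0,z3)] [(z1,[z1]),(z1,[z0,z3]),(z1,[z0,z0,z1]),(z1,[z0,z0,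
    z0,z1]),(z1,[y1,y3,y1,y1,z3]),(z1,
    [])] (Int.ofNat (nat_lit 349525)) (Int.ofNat (nat_lit 699051)) (.s (.s (.s (.l k2) (.l k1)) (.l k1)) (.l k1)) [⟨z1,
    z3,[[k0,k2],[k1,k5],[k3,k4]],.bnd k0⟩],
    .geo true z6 k5 [(z3,z0),(z12,y6),(y7,z6),(z12,y6),(z4,z0),(z0,z6)] [(z1,[z3]),(z1,[z0,z6]),(z1,[z0,z0,z1]),(z1,[z0,
    z0,z0,z6]),(z1,[y3,y6,y1,y6,z6]),(z1,
    [])] (Int.ofNat (nat_lit 1223338)) (Int.ofNat (nat_lit 2097152)) (.s (.l k1) (.s (.l k1) (.l k2))) [⟨z2,z1,[[k0,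
    k1],[k2,k3],[k4,k5]],.bnd k1⟩]]

noncomputable def cU6_3_n0_3 : List XN :=
  [.geo true z3 k5 [(z0,z6),(z2,z0),(z6,y6),(z4,y9),(z0,z6),(z0,z3)] [(z1,[z3]),(z1,[z0,z1]),(z1,[z0,z0,z3]),(z1,[z0,z0,
    z0,z1]),(z1,[y3,y1,y3,y1,z3]),(z1,
    [])] z0 (Int.ofNat (nat_lit 466034)) (.s (.s (.s (.l k2) (.l k1)) (.l k1)) (.s (.l k1) (.l k1))) [⟨z0,z1,[[k0,k3],
    [k1,k2],[k4,k5]],.bnd k0⟩],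
    .geo true z3 k5 [(y6,z6),(z6,y3),(z4,y3),(z6,y3),(z2,z0),(z0,z3)] [(z1,[z3]),(z1,[z0,z3]),(z1,[z0,z0,z1]),(z1,[z0,z0,
    z0,z3]),(z1,[y3,y3,y1,y3,z3]),(z1,
    [])] (Int.ofNat (nat_lit 1048576)) (Int.ofNat (nat_lit 1398102)) (.s (.l k1) (.l k1)) [],
    .old (.lp [(nat_lit 1182),(nat_lit 1362),(nat_lit 1650),(nat_lit 1706),(nat_lit 1118),(nat_lit 654)] [(nat_lit 776),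
    (nat_lit 776),(nat_lit 686),(nat_lit 686),(nat_lit 542),(nat_lit 542),(nat_lit 1028),k0,(nat_lit 808),
    (nat_lit 808),(nat_lit 1040),(nat_lit 1040)] k0 [[k0,k0,k0,k0,k0,k0,k0,k0,k64,k0,k190],[k0,k0,k0,k82,k0,
    (nat_lit 214)],[k82,k0,k0,k0,k0,k0,k0,k0,k138],[k0,k0,k0,k0,k0,k0,k0,k16],[(nat_lit 214)],[k0,k0,k0,k0,k0,k0,k0,
    (nat_lit 934),k0,k0,k0,(nat_lit 926)],[k0,k0,k16,k0,(nat_lit 934)],[k0,k0,k0,k0,k0,k0,k0,k0,k0,k102],[k0,k0,k0,k0,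
    k0,k0,k102,k0,k0,k0,(nat_lit 380)],[k0,k64,k0,k138],[k0,k0,k0,k0,(nat_lit 926)],[k0,k190,k0,k0,k0,k0,k0,k0,k0,
    (nat_lit 380)]] (nat_lit 3840) k6
    [[(k8,(nat_lit 770)),(k10,(nat_lit 918)),(k6,(nat_lit 930)),(k0,(nat_lit 992)),(k2,(nat_lit 1272)),(k4,
    (nat_lit 2342))],[(k11,(nat_lit 854)),(k1,(nat_lit 992)),(k9,(nat_lit 1150)),(k3,(nat_lit 1272)),(k5,
    (nat_lit 1498)),(k7,(nat_lit 2172))],[(k6,(nat_lit 1020)),(k10,(nat_lit 1198)),(k0,(nat_lit 1272)),(k2,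
    (nat_lit 1280)),(k4,(nat_lit 1292)),(k8,(nat_lit 1304))],[(k11,(nat_lit 870)),(k9,(nat_lit 1256)),(k1,
    (nat_lit 1272)),(k3,(nat_lit 1280)),(k5,(nat_lit 1506)),(k7,(nat_lit 2048))],[(k6,(nat_lit 1148)),(k10,
    (nat_lit 1152)),(k0,(nat_lit 1498)),(k2,(nat_lit 1506)),(k8,(nat_lit 1522)),(k4,(nat_lit 1650))],[(k11,
    (nat_lit 1152)),(k3,(nat_lit 1292)),(k5,(nat_lit 1650)),(k7,(nat_lit 2192)),(k9,(nat_lit 2318)),(k1,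
    (nat_lit 2342))],[(k10,(nat_lit 768)),(k6,(nat_lit 772)),(k8,(nat_lit 1926)),(k2,(nat_lit 2048)),(k0,
    (nat_lit 2172)),(k4,(nat_lit 2192))],[(k11,(nat_lit 768)),(k7,(nat_lit 772)),(k9,(nat_lit 898)),(k1,
    (nat_lit 930)),(k3,(nat_lit 1020)),(k5,(nat_lit 1148))],[(k10,(nat_lit 886)),(k6,(nat_lit 898)),(k8,
    (nat_lit 1016)),(k0,(nat_lit 1150)),(k2,(nat_lit 1256)),(k4,(nat_lit 2318))],[(k1,(nat_lit 770)),(k11,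
    (nat_lit 886)),(k9,(nat_lit 1016)),(k3,(nat_lit 1304)),(k5,(nat_lit 1522)),(k7,(nat_lit 1926))],[(k6,
    (nat_lit 768)),(k0,(nat_lit 854)),(k2,(nat_lit 870)),(k8,(nat_lit 886)),(k10,(nat_lit 1034)),(k4,(nat_lit 1152))],
    [(k7,(nat_lit 768)),(k9,(nat_lit 886)),(k1,(nat_lit 918)),(k11,(nat_lit 1034)),(k5,(nat_lit 1152)),(k3,
    (nat_lit 1198))]]
    [] k0
    [[k2,k0,k0,k0,k0,k0],[k3,k0,k0,k0,k0,k0],[k3,k0,k0,k0,k0,k1],[k2,k1,k0,k0,k0,k0],[k2,k0,k0,k1,k0,k1],[k2,k0,k0,k0,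
    k1,k0],[k2,k0,k0,k0,k1,k1],[k2,k0,k0,k0,k0,k1],[k2,k0,k0,k0,k0,k2],[k1,k1,k0,k0,k0,k0],[k1,k2,k0,k0,k0,k0],[k1,k1,
    k0,k0,k1,k0],[k1,k1,k0,k0,k0,k1],[k1,k0,k0,k1,k0,k0],[k1,k0,k0,k2,k0,k1],[k1,k0,k0,k1,k0,k1],[k1,k0,k0,k1,k1,k1],
    [k1,k0,k0,k1,k0,k2],[k1,k0,k0,k0,k1,k0],[k1,k0,k0,k0,k2,k0],[k1,k0,k0,k0,k2,k1],[k1,k0,k0,k0,k1,k1],[k1,k1,k0,k0,
    k1,k1],[k1,k0,k0,k0,k1,k2],[k1,k0,k0,k0,k0,k1],[k1,k0,k1,k0,k0,k1],[k1,k0,k0,k0,k0,k2],[k0,k2,k0,k0,k0,k0],[k0,k2,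
    k0,k0,k0,k1],[k0,k1,k1,k0,k0,k0],[k0,k1,k1,k0,k0,k1],[k0,k1,k0,k1,k0,k0],[k0,k1,k0,k2,k0,k1],[k0,k1,k0,k1,k0,k1],
    [k0,k1,k0,k1,k0,k2],[k0,k1,k0,k0,k1,k0],[k0,k1,k0,k0,k2,k0],[k0,k1,k0,k0,k1,k1],[k0,k1,k0,k0,k0,k1],[k0,k1,k0,k0,
    k0,k2],[k0,k0,k2,k0,k0,k0],[k0,k0,k1,k1,k0,k0],[k0,k0,k1,k1,k0,k1],[k0,k0,k1,k0,k1,k1],[k0,k0,k1,k0,k0,k1],[k0,k0,
    k1,k0,k0,k2],[k0,k0,k0,k2,k0,k0],[k0,k0,k0,k3,k0,k0],[k0,k0,k0,k4,k0,k0],[k0,k0,k0,k3,k0,k1],[k0,k0,k0,k2,k1,k0],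
    [k0,k0,k0,k2,k0,k1],[k0,k0,k0,k2,k1,k1],[k0,k0,k0,k2,k0,k2],[k0,k0,k0,k1,k1,k0],[k0,k0,k0,k1,k1,k1],[k0,k0,k0,k1,
    k0,k1],[k0,k0,k0,k1,k2,k1],[k0,k0,k0,k1,k1,k2],[k0,k0,k0,k1,k0,k2],[k0,k0,k0,k1,k0,k3],[k0,k0,k0,k0,k2,k0],[k0,k0,
    k0,k0,k3,k0],[k0,k0,k0,k0,k3,k1],[k0,k0,k0,k0,k2,k1],[k0,k0,k0,k0,k2,k2],[k0,k0,k0,k0,k1,k1],[k0,k0,k0,k0,k1,k2],
    [k0,k0,k0,k0,k0,k2],[k0,k0,k0,k0,k0,k3]]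
    [.contra [z1],.ref k0 k9 [(z3,[y1,z3,z1,z3])],.ref k29 k7 [(z1,[y3,z6,y1,y3,z3]),(z1,[z0,z0,z0,z1]),(z1,[z0,z0,
    z1]),(z1,[z0,z1])],.ref k0 k9 [(z2,[y1,z2,z1,z2])],.ref k0 k9 [(z1,[y1,z1,z0,z0,z1])],.ref k0 k9 [(z3,[y1,z2,z1,
    z3])],.ref k29 k7 [(z1,[y3,z3,y1,y3,z3]),(z1,[z0,z0,z0,z1]),(z1,[z0,z0,z1]),(z1,[z0,z1])],.ref k3 k2 [(z1,[z1,
    y1])],.ref k26 k0 [(z2,[y3,z0,y2,y6,z6]),(z1,[z0,z0,z0,z1]),(z2,[z1,y2,z0,y2]),(z1,[z0,z1,z0,z1])],.contra [y1,z0,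
    z0,y1,z1],.ref k0 k9 [(z1,[y1,z1,z1,z1])],.ref k0 k9 [(z2,[y1,z1,z1,z2])],.contra [y1,z0,z0,y1,z1],.contra [y1,z0,
    z0,y1,z1],.ref k27 k0 [(z1,[z1,z0,z0,z1,y1]),(z1,[z0,z0,z0,z1]),(z1,[y1,y1,z0,y3,z2])],.contra [z1,z0,z1,z1,y1],
    .ref k0 k9 [(z1,[y1,z0,z0,z0,z1])],.ref k28 k2 [(z1,[z0,z1]),(z1,[z0,z0,z1]),(z1,[z0,z0,z0,z1]),(z1,[y3,y3,y2,y6,
    z6])],.contra [z1,z1],.ref k0 k9 [(z3,[y1,z1,z1,z3])],.ref k29 k7 [(z1,[y3,z0,y1,y3,z3]),(z1,[z0,z0,z0,z1]),(z1,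
    [z0,z0,z1]),(z1,[z0,z1])],.ref k3 k2 [(z1,[z1])],.ref k0 k0 [(z1,[y1,z0,z0,z0,z1])],.ref k26 k0 [(z2,[y3,y3,y2,y6,
    z6]),(z1,[z0,z0,z0,z1]),(z2,[z1,y1,z0,y2]),(z1,[z0,z1,z0,z1])],.contra [y1,z0,z0,y1,z1],.contra [z1,y1,z0,y1],
    .ref k25 k10 [(z1,[z0,z0,z1]),(z1,[z0,z1,z0,z1]),(z1,[z1,y1,z0,y1])],.contra [z1],.ref k28 k2 [(z1,[z0,z1]),(z1,
    [z0,z0,z1]),(z1,[z0,z0,z0,z1]),(z1,[y3,y3,z1,y3,z3])],.ref k0 k9 [(z1,[z1])],.ref k37 k0 [(z1,[y1,y1,z0,y2,z1]),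
    (z1,[z0,z0,z0,z1]),(z1,[z3,z0,y1]),(z1,[z0,z1,z0,z1])],.contra [y1,z0,z0,y1,z1],.ref k0 k0 [(z1,[z1,z1,z0,z2,
    y1])],.contra [y1,z0,z0,y1,z1],.ref k1 k1 [(z1,[z1,z1,z0,z2,y1])],.contra [y1,y1,z0,y1,z1],.ref k0 k9 [(z2,[y1,z0,
    z1,z2])],.contra [y1,y1,z0,y1,z1],.contra [y1,z0,z0,y1,z1],.ref k28 k2 [(z1,[z0,z1]),(z1,[z0,z0,z1]),(z1,[z0,z0,
    z0,z1]),(z2,[y3,y6,y1,y6,z6])],.contra [y1,z2,z0,z2],.ref k0 k0 [(z1,[z1])],.ref k0 k9 [(z2,[z1,z1,z1,z2,y1])],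
    .contra [z1,z0,z0,y1],.ref k1 k1 [(z1,[z1])],.ref k36 k2 [(z1,[y1,z1,z0,z1]),(z1,[z0,z0,z1]),(z1,[z1]),(z1,[z3,y3,
    y1,y6,z3])],.contra [z1],.ref k27 k0 [(z3,[z1,z0,y1]),(z1,[z0,z0,z0,z1]),(z3,[y1,y3,z1,y6,z3])],.ref k35 k0 [(z2,
    [z1]),(z1,[z0,z0,z0,z1]),(z2,[y3,y12,y4,y24,z12]),(z1,[z0,z1,z0,z1])],.ref k34 k4 [(z1,[y3,y3,y1,y3,z3]),(z1,
    [z1]),(z1,[y3,z0,y1,y3,z3]),(z1,[z0,z0,z1])],.ref k33 k3 [(z1,[y1,z0,z0,z1]),(z1,[z0,z0,z1]),(z1,[z1,z1]),(z1,[y3,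
    y3,y1,y3,z3])],.ref k32 k4 [(z1,[y3,y3,y1,y3,z3]),(z1,[z1]),(z1,[y3,z0,y1,y3,z3]),(z1,[z0,z0,z1])],
    .ref k27 k0 [(z1,[z1,z1,z0,z1,y1]),(z1,[z0,z0,z0,z1]),(z1,[y1,y2,z0,y3,z2])],.ref k5 k4 [(z2,[y3,y6,y2,y6,z6]),
    (z2,[z1]),(z1,[z0,z1,z0,z1])],.contra [y1,y1,z0,y1,z1],.contra [z1,z1,z1,z1,y1],.contra [y1,z0,z0,y1,z1],
    .ref k0 k9 [(z1,[y1,y1,z0,z0,z1])],.ref k28 k2 [(z1,[z0,z1]),(z1,[z0,z0,z1]),(z1,[z0,z0,z0,z1]),(z1,[y3,y6,y2,y6,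
    z6])],.ref k30 k0 [(z1,[y3,y6,y2,y12,z6]),(z1,[z0,z0,z0,z1]),(z1,[z3,z3,z1,z6,y3]),(z1,[z0,z1,z0,z1])],
    .ref k31 k2 [(z1,[y3,z0,y1,y3,z3]),(z1,[z0,z0,z1]),(z1,[z3,z3,z1,z6,y3]),(z1,[z1])],.contra [z1,z2],
    .ref k0 k9 [(z3,[y1,z0,z1,z3])],.ref k29 k7 [(z1,[y3,y3,y1,y3,z3]),(z1,[z0,z0,z0,z1]),(z1,[z0,z0,z1]),(z1,[z0,
    z1])],.ref k3 k2 [(z1,[z1,z1])],.ref k26 k0 [(z2,[y3,y6,y2,y6,z6]),(z1,[z0,z0,z0,z1]),(z2,[z1,z0,z0,y2]),(z1,[z0,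
    z1,z0,z1])],.contra [y1,y1,z0,y1,z1],.ref k25 k10 [(z1,[z0,z0,z1]),(z1,[z0,z1,z0,z1]),(z1,[z1,z0,z0,y1])],
    .contra [z1],.ref k28 k2 [(z1,[z0,z1]),(z1,[z0,z0,z1]),(z1,[z0,z0,z0,z1]),(z1,[y1,y3,y1,y3,z3])]]),
    .geo true z3 k5 [(y4,z6),(z2,z0),(z10,y6),(z6,y6),(y2,z3),(z0,z3)] [(z1,[z1]),(z1,[z0,z1]),(z1,[z0,z0,z1]),(z1,[z0,z0,
    z0,z3]),(z1,[y1,y1,y1,y3,z3]),(z1,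
    [])] (Int.ofNat (nat_lit 699050)) (Int.ofNat (nat_lit 1048576)) (.s (.s (.s (.l k2) (.l k1)) (.l k1)) (.s (.l k1) (.l k1))) [⟨z2,
    z3,[[k0,k5],[k1,k2],[k3,k4]],.bnd k0⟩],
    .geo true z3 k4 [(z0,z6),(z2,z0),(z6,y6),(z2,y3),(z0,z3),(z2,z0)] [(z1,[z3]),(z1,[z0,z1]),(z1,[z0,z0,z3]),(z1,[z0,z0,
    z0,z1]),(z1,[]),(z1,[y3,y1,y3,y1,
    z3])] z0 (Int.ofNat (nat_lit 699051)) (.s (.s (.s (.l k2) (.l k1)) (.l k1)) (.s (.l k1) (.l k1))) [⟨z0,z1,[[k0,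
    k5],[k1,k2],[k3,k4]],.bnd k0⟩],
    .geo true z3 k5 [(y2,z3),(z6,y6),(y4,z6),(z2,z0),(z10,y6),(z0,z3)] [(z1,[z1]),(z1,[z0,z3]),(z1,[z0,z0,z1]),(z1,[z0,z0,
    z0,z1]),(z1,[y1,y3,y1,y1,z3]),(z1,
    [])] (Int.ofNat (nat_lit 699050)) (Int.ofNat (nat_lit 1048576)) (.s (.l k2) (.l k1)) [⟨z2,z3,[[k0,k5],[k1,k2],[k3,
    k4]],.bnd k0⟩],
    .geo true z6 k5 [(z4,z0),(z6,y3),(y2,z3),(z12,y6),(z4,z0),(z0,z6)] [(z1,[z2]),(z1,[z0,z3]),(z1,[z0,z0,z1]),(z1,[z0,z0,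
    z0,z6]),(z1,[y2,y3,y1,y6,z6]),(z1,
    [])] (Int.ofNat (nat_lit 699050)) (Int.ofNat (nat_lit 2097152)) (.s (.l k1) (.s (.l k1) (.l k2))) [⟨z2,z1,[[k0,
    k1],[k2,k3],[k4,k5]],.bnd k1⟩],
    .geo true z3 k5 [(z0,z6),(z2,z0),(z6,y6),(z4,y6),(z0,z3),(z0,z3)] [(z1,[z3]),(z1,[z0,z1]),(z1,[z0,z0,z3]),(z1,[z0,z0,
    z0,z1]),(z1,[y3,y1,y3,y1,z3]),(z1,
    [])] z0 (Int.ofNat (nat_lit 699051)) (.s (.s (.s (.l k2) (.l k1)) (.l k1)) (.s (.l k1) (.l k1))) [⟨z0,z1,[[k0,k3],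
    [k1,k2],[k4,k5]],.bnd k0⟩],
    .geo true z9 k5 [(z4,z0),(z8,y9),(z8,z0),(z6,z0),(z10,z0),(z0,z9)] [(z1,[z1]),(z1,[z0,z1]),(z1,[z0,z0,z1]),(z1,[z0,z0,
    z0,z3]),(z1,[y1,y1,y1,y3,z9]),(z1,[])] z0 (Int.ofNat (nat_lit 932068)) (.s (.l k1) (.l k1)) [],
    .geo true z15 k5 [(z6,z0),(z14,y15),(z12,z0),(z10,z0),(z18,z0),(z0,z15)] [(z1,[z3]),(z1,[z0,z1]),(z1,[z0,z0,z3]),(z1,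
    [z0,z0,z0,z5]),(z1,[y3,y1,y3,y5,z15]),(z1,[])] z0 (Int.ofNat (nat_lit 978671)) (.s (.l k1) (.l k1)) [],
    .old (.lp [(nat_lit 572),(nat_lit 640),(nat_lit 674),(nat_lit 784),(nat_lit 528),(nat_lit 640)] [(nat_lit 378),
    (nat_lit 378),(nat_lit 344),(nat_lit 344),(nat_lit 327),(nat_lit 327),(nat_lit 544),k0,(nat_lit 400),
    (nat_lit 400),(nat_lit 270),(nat_lit 418)] k0 [[k0,k0,k0,k0,k0,k0,k0,k0,k2],[k0,k0,k0,k0,k0,k176],[k0,k0,k0,k0,k0,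
    k0,k0,k0,k0,k0,k142],[k0,k0,k0,k0,k0,k0,k0,k2],[k176,k0,k0,k0,k0,k0,k0,k0,k32],[k0,k0,k0,k0,k0,k0,k0,
    (nat_lit 208),k0,k0,k0,(nat_lit 674)],[k0,k0,k2,k0,(nat_lit 208)],[k0,k0,k0,k0,k0,k0,k0,k0,k0,k18,k0,k28],[k0,k0,
    k0,k0,k0,k0,k18,k0,k0,k0,k140],[k0,k2,k0,k0,k0,k32],[k0,k0,k0,k0,(nat_lit 674),k0,k28],[k0,k0,k0,k142,k0,k0,k0,k0,
    k0,k140]] (nat_lit 1920) k6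
    [[(k8,(nat_lit 410)),(k6,(nat_lit 434)),(k2,(nat_lit 464)),(k0,(nat_lit 572)),(k10,(nat_lit 680)),(k4,
    (nat_lit 1297))],[(k11,(nat_lit 530)),(k9,(nat_lit 550)),(k1,(nat_lit 572)),(k3,(nat_lit 606)),(k5,(nat_lit 623)),
    (k7,(nat_lit 1126))],[(k6,(nat_lit 440)),(k4,(nat_lit 481)),(k8,(nat_lit 586)),(k0,(nat_lit 606)),(k2,
    (nat_lit 640)),(k10,(nat_lit 714))],[(k1,(nat_lit 464)),(k11,(nat_lit 566)),(k9,(nat_lit 586)),(k3,(nat_lit 640)),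
    (k5,(nat_lit 657)),(k7,(nat_lit 984))],[(k6,(nat_lit 455)),(k8,(nat_lit 601)),(k0,(nat_lit 623)),(k2,
    (nat_lit 657)),(k4,(nat_lit 674)),(k10,(nat_lit 873))],[(k3,(nat_lit 481)),(k11,(nat_lit 551)),(k5,(nat_lit 674)),
    (k9,(nat_lit 809)),(k7,(nat_lit 1001)),(k1,(nat_lit 1297))],[(k10,(nat_lit 384)),(k6,(nat_lit 576)),(k8,
    (nat_lit 960)),(k2,(nat_lit 984)),(k4,(nat_lit 1001)),(k0,(nat_lit 1126))],[(k9,(nat_lit 384)),(k11,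
    (nat_lit 384)),(k1,(nat_lit 434)),(k3,(nat_lit 440)),(k5,(nat_lit 455)),(k7,(nat_lit 576))],[(k6,(nat_lit 384)),
    (k8,(nat_lit 510)),(k0,(nat_lit 550)),(k2,(nat_lit 586)),(k10,(nat_lit 630)),(k4,(nat_lit 809))],[(k1,
    (nat_lit 410)),(k9,(nat_lit 510)),(k11,(nat_lit 510)),(k3,(nat_lit 586)),(k5,(nat_lit 601)),(k7,(nat_lit 960))],
    [(k6,(nat_lit 384)),(k8,(nat_lit 510)),(k0,(nat_lit 530)),(k4,(nat_lit 551)),(k2,(nat_lit 566)),(k10,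
    (nat_lit 780))],[(k7,(nat_lit 384)),(k9,(nat_lit 630)),(k1,(nat_lit 680)),(k3,(nat_lit 714)),(k11,(nat_lit 780)),
    (k5,(nat_lit 873))]]
    [] k0
    [[k2,k0,k0,k0,k0,k0],[k3,k0,k0,k0,k0,k0],[k2,k1,k0,k0,k0,k0],[k2,k0,k0,k0,k1,k0],[k2,k0,k0,k0,k0,k1],[k1,k1,k0,k0,
    k0,k0],[k1,k2,k0,k0,k0,k0],[k1,k1,k1,k0,k0,k0],[k1,k1,k0,k1,k0,k1],[k1,k1,k0,k0,k1,k0],[k1,k1,k0,k0,k0,k1],[k1,k0,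
    k0,k1,k0,k0],[k1,k0,k0,k1,k0,k1],[k1,k0,k0,k1,k1,k1],[k1,k0,k0,k0,k1,k0],[k1,k0,k1,k0,k1,k0],[k1,k0,k0,k0,k2,k0],
    [k1,k0,k0,k0,k1,k1],[k1,k0,k0,k0,k0,k1],[k1,k0,k1,k0,k0,k1],[k0,k2,k0,k0,k0,k0],[k0,k2,k1,k0,k0,k0],[k0,k2,k0,k0,
    k1,k0],[k0,k1,k1,k0,k0,k0],[k0,k1,k2,k0,k0,k0],[k0,k1,k1,k1,k0,k1],[k0,k1,k1,k0,k1,k0],[k0,k1,k0,k1,k0,k0],[k0,k1,
    k0,k1,k0,k1],[k0,k1,k0,k0,k1,k0],[k0,k1,k0,k0,k2,k0],[k0,k1,k0,k0,k1,k1],[k0,k1,k0,k0,k0,k1],[k0,k0,k2,k0,k0,k0],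
    [k0,k0,k1,k1,k0,k0],[k0,k0,k1,k1,k0,k1],[k0,k0,k1,k0,k1,k0],[k0,k0,k1,k0,k1,k1],[k0,k0,k1,k0,k0,k1],[k0,k0,k0,k2,
    k0,k0],[k0,k0,k0,k3,k0,k0],[k0,k0,k0,k2,k0,k1],[k0,k0,k0,k2,k1,k1],[k0,k0,k0,k1,k1,k0],[k0,k0,k0,k1,k2,k0],[k0,k0,
    k0,k1,k0,k1],[k0,k0,k0,k2,k0,k2],[k0,k0,k0,k1,k1,k1],[k0,k0,k0,k1,k2,k1],[k0,k0,k0,k1,k1,k2],[k0,k0,k0,k1,k0,k2],
    [k0,k0,k0,k0,k2,k0],[k0,k0,k0,k0,k3,k0],[k0,k0,k0,k0,k2,k1],[k0,k0,k0,k0,k1,k1],[k0,k0,k0,k0,k0,k2]]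
    [.contra [z1],.ref k0 k9 [(z3,[y1,z3,z1,z3])],.ref k0 k9 [(z2,[y1,z2,z1,z2])],.ref k45 k4 [(z1,[z1,y2]),(z1,[y3,
    y9,y5,y15,z15]),(z1,[z2,z1]),(z1,[z0,z0,z1])],.ref k13 k10 [(z1,[z0,z0,z1]),(z1,[z0,z1,z0,z1]),(z1,[z1,y2,z0,
    y2])],.ref k0 k6 [(z1,[z1])],.ref k0 k9 [(z1,[y1,z1,z1,z1])],.contra [y1,z1,z1,z1],.contra [z2,z1,z0,z2,y2],
    .ref k44 k4 [(z1,[z3,y3,y1]),(z1,[y3,y6,y2,y9,z9]),(z1,[z6,z3,y2]),(z1,[z0,z0,z1])],.ref k3 k4 [(z1,[y1,z0,z0,z0,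
    z1])],.ref k1 k2 [(z1,[z1])],.ref k0 k6 [(z1,[z2,z1,z1,z2,y2])],.ref k0 k9 [(z1,[y1,z0,z0,z0,z1])],
    .ref k0 k6 [(z3,[z2,z1,z1])],.contra [z2,y1,z0,y2],.contra [z1,z1],.ref k3 k2 [(z1,[z1])],.ref k0 k2 [(z1,[z1])],
    .contra [z1,y1,z0,y1],.contra [z1],.ref k0 k6 [(z1,[y1,z1,z1,z1])],.ref k0 k6 [(z1,[z2,z1,y1])],.ref k0 k9 [(z1,
    [z1])],.ref k0 k6 [(z2,[y1,z2,z1,z2])],.ref k0 k6 [(z3,[y2,z1,z1,z0,z2])],.ref k0 k6 [(z1,[y2,z1,z1,z2])],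
    .contra [y1,y1,z0,y1,z1],.contra [y2,y1,z0,y2,z2],.contra [y2,z0,z1,z1],.ref k0 k6 [(z1,[z1,z1])],.contra [y1,y1,
    z0,y1,z1],.contra [y2,y1,z0,y2,z2],.contra [y1,z2,z0,z2],.ref k0 k0 [(z1,[z1])],.ref k44 k4 [(z1,[y3,y3,y1,z0,
    z3]),(z1,[z3,y6,y2,y9,z6]),(z1,[y6,z3,y2,z0,z6]),(z1,[z0,z0,z1])],.contra [y2,z1,z0,z2],.ref k43 k2 [(z1,[y2,z1,
    z0,z2]),(z1,[z0,z0,z1]),(z1,[z2,z0,z0,y1]),(z1,[z3,y3,y1,y6,z3])],.ref k1 k1 [(z1,[z1])],.contra [z1],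
    .ref k42 k0 [(z1,[z1]),(z1,[z0,z0,z0,z1]),(z1,[y2,y6,y2,y9,z6]),(z1,[z0,z1,z0,z1])],.ref k41 k4 [(z1,[y3,y3,y1,y3,
    z3]),(z1,[z1]),(z1,[y6,y3,y2,y6,z6]),(z1,[z0,z0,z1])],.ref k42 k0 [(z1,[z3,z3,z1,z3,y3]),(z1,[z0,z0,z0,z1]),(z1,
    [y6,y12,y4,y15,z12]),(z1,[z0,z1,z0,z1])],.contra [y1,y1,z0,y1,z1],.ref k1 k2 [(z1,[z1,z1])],.contra [y2,y1,z0,y2,
    z2],.ref k0 k9 [(z1,[z1,z2,z1,z3,y2])],.contra [z1,z1,z1,z1,y1],.ref k0 k6 [(z1,[z2,z3,z1,z2,y2])],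
    .ref k40 k2 [(z1,[z0,z1]),(z1,[z0,z0,z1]),(z1,[z0,z0,z0,z1]),(z1,[y3,y6,y2,y6,z6])],.ref k39 k2 [(z1,[y6,y3,y2,y6,
    z6]),(z1,[z0,z0,z1]),(z1,[z6,z6,z2,z9,y6]),(z1,[z1])],.contra [z1],.ref k0 k6 [(z3,[z2,z3,z1])],.ref k0 k2 [(z1,
    [z1,z1])],.contra [y1,y1,z0,y1,z1],.contra [z1]]),
    .geo true z9 k5 [(z2,z0),(z8,z0),(z2,z0),(z18,y9),(z6,z0),(z0,z9)] [(z1,[z1]),(z1,[z0,z1]),(z1,[z0,z0,z1]),(z1,[z0,z0,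
    z0,z9]),(z1,[y1,y1,y1,y9,z9]),(z1,
    [])] z0 (Int.ofNat (nat_lit 2097152)) (.s (.s (.l k1) (.l k1)) (.s (.l k1) (.l k1))) []]

noncomputable def cU6_3_n0_4 : List XN :=
  [.geo true z3 k5 [(z2,z6),(z2,z0),(z4,y6),(z2,y6),(z2,z3),(z0,z3)] [(z1,[z1]),(z1,[z0,z1]),(z1,[z0,z0,z1]),(z1,[z0,z0,
    z0,z1]),(z1,[y1,y1,y1,y1,z3]),(z1,[])] z0 (Int.ofNat (nat_lit 349526)) (.s (.l k1) (.s (.l k1) (.l k1))) [],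
    .geo true z3 k5 [(y2,z3),(z4,y3),(z2,z0),(z2,z3),(z6,y6),(z0,z3)] [(z1,[z1]),(z1,[z0,z1]),(z1,[z0,z0,z1]),(z1,[z0,z0,
    z0,z1]),(z1,[y1,y1,y1,y1,z3]),(z1,[])] (Int.ofNat (nat_lit 699050)) (Int.ofNat (nat_lit 1048576)) (.l k1) [],
    .geo true z3 k5 [(y2,z6),(z4,y3),(z2,y3),(z6,y3),(z2,z0),(z0,z3)] [(z1,[z1]),(z1,[z0,z1]),(z1,[z0,z0,z1]),(z1,[z0,z0,
    z0,z3]),(z1,[y1,y1,y1,y3,z3]),(z1,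
    [])] (Int.ofNat (nat_lit 349525)) (Int.ofNat (nat_lit 699051)) (.s (.l k1) (.s (.l k1) (.l k1))) [],
    .old (.lp [(nat_lit 208),(nat_lit 354),(nat_lit 266),(nat_lit 384),(nat_lit 384),(nat_lit 322)] [k182,(nat_lit 260),
    k126,k170,k192,k192,k198,k68,(nat_lit 266),k0,k164,k164] k0 [[k0,k0,k40,k0,k0,k0,(nat_lit 276)],[k0,k0,k0,k0,k0,
    k54,k0,k0,k0,k0,k0,k106],[k0,k0,k0,k0,k54,k0,k0,k0,k0,k0,k72],[k0,k40,k0,k0,k0,k0,k0,k10],[k54],[k0,k0,k0,k54,k0,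
    k0,k0,k0,k0,k124],[k0,k0,k10],[k0,(nat_lit 276)],[k0,k0,k0,k0,k124],[k0,k0,k0,k0,k0,k0,k0,k0,k0,k0,k0,k68],[k106,
    k0,k0,k0,k0,k0,k0,k0,k68],[k0,k0,k0,k72]] (nat_lit 960) k6
    [[(k2,k192),(k6,k192),(k8,k192),(k4,k198),(k10,(nat_lit 226)),(k0,(nat_lit 314))],[(k9,k192),(k5,(nat_lit 236)),
    (k3,(nat_lit 298)),(k11,(nat_lit 304)),(k1,(nat_lit 314)),(k7,(nat_lit 454))],[(k10,(nat_lit 210)),(k8,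
    (nat_lit 214)),(k4,(nat_lit 234)),(k0,(nat_lit 298)),(k2,(nat_lit 394)),(k6,(nat_lit 558))],[(k1,k192),(k5,
    (nat_lit 332)),(k11,(nat_lit 360)),(k3,(nat_lit 394)),(k7,(nat_lit 402)),(k9,(nat_lit 534))],[(k8,k192),(k0,
    (nat_lit 236)),(k6,(nat_lit 250)),(k4,(nat_lit 320)),(k2,(nat_lit 332)),(k10,(nat_lit 366))],[(k1,k198),(k3,
    (nat_lit 234)),(k5,(nat_lit 320)),(k7,(nat_lit 390)),(k11,(nat_lit 418)),(k9,(nat_lit 458))],[(k8,k192),(k6,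
    (nat_lit 384)),(k4,(nat_lit 390)),(k2,(nat_lit 402)),(k10,(nat_lit 418)),(k0,(nat_lit 454))],[(k1,k192),(k5,
    (nat_lit 250)),(k11,(nat_lit 288)),(k7,(nat_lit 384)),(k9,(nat_lit 452)),(k3,(nat_lit 558))],[(k0,k192),(k8,
    (nat_lit 384)),(k6,(nat_lit 452)),(k4,(nat_lit 458)),(k10,(nat_lit 486)),(k2,(nat_lit 534))],[(k1,k192),(k5,k192),
    (k7,k192),(k3,(nat_lit 214)),(k11,(nat_lit 220)),(k9,(nat_lit 384))],[(k8,(nat_lit 220)),(k10,(nat_lit 254)),(k6,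
    (nat_lit 288)),(k0,(nat_lit 304)),(k2,(nat_lit 360)),(k4,(nat_lit 418))],[(k3,(nat_lit 210)),(k1,(nat_lit 226)),
    (k11,(nat_lit 254)),(k5,(nat_lit 366)),(k7,(nat_lit 418)),(k9,(nat_lit 486))]]
    [] k0
    [[k2,k0,k0,k0,k0,k0],[k3,k0,k0,k0,k0,k0],[k2,k1,k0,k0,k0,k0],[k2,k1,k0,k0,k1,k0],[k2,k0,k1,k0,k0,k0],[k2,k0,k1,k0,
    k1,k0],[k2,k0,k0,k1,k1,k0],[k2,k0,k0,k0,k1,k0],[k2,k0,k0,k0,k0,k1],[k2,k0,k0,k0,k1,k1],[k1,k1,k0,k0,k0,k0],[k2,k1,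
    k1,k0,k0,k0],[k1,k2,k0,k0,k0,k0],[k1,k1,k1,k0,k0,k0],[k1,k1,k1,k0,k1,k0],[k1,k1,k0,k0,k1,k0],[k1,k1,k0,k0,k0,k1],
    [k1,k1,k0,k0,k1,k1],[k1,k0,k1,k0,k0,k0],[k2,k0,k2,k0,k0,k0],[k1,k0,k2,k0,k0,k0],[k1,k0,k2,k0,k1,k0],[k1,k0,k1,k1,
    k0,k0],[k1,k0,k1,k1,k1,k0],[k1,k0,k1,k0,k1,k0],[k1,k0,k1,k0,k0,k1],[k1,k0,k0,k1,k0,k0],[k1,k1,k0,k1,k0,k0],[k1,k0,
    k0,k1,k1,k0],[k1,k0,k0,k1,k0,k1],[k1,k0,k0,k0,k1,k0],[k2,k0,k0,k0,k2,k0],[k1,k0,k0,k0,k2,k0],[k1,k0,k0,k0,k0,k1],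
    [k1,k0,k0,k1,k1,k1],[k1,k0,k0,k0,k1,k1],[k1,k0,k0,k0,k0,k2],[k1,k0,k0,k0,k1,k2],[k0,k2,k0,k0,k0,k0],[k0,k1,k1,k0,
    k0,k0],[k0,k1,k2,k0,k0,k0],[k0,k1,k1,k1,k0,k0],[k0,k1,k0,k0,k1,k0],[k0,k1,k0,k0,k0,k1],[k0,k1,k0,k1,k0,k1],[k0,k1,
    k0,k0,k0,k2],[k0,k0,k2,k0,k0,k0],[k0,k0,k1,k1,k0,k0],[k0,k0,k1,k1,k1,k0],[k0,k0,k1,k0,k1,k0],[k0,k0,k1,k0,k0,k1],
    [k0,k0,k0,k2,k0,k0],[k0,k0,k0,k1,k1,k0],[k0,k0,k0,k1,k0,k1],[k0,k0,k0,k0,k2,k0],[k0,k0,k0,k0,k1,k1],[k0,k0,k0,k0,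
    k0,k2],[k0,k0,k0,k0,k0,k3]]
    [.contra [z1],.contra [y1,z1,y3,y1,z3],.ref k25 k3 [(z1,[z0,z0,z0,z1]),(z1,[z0,z0,z1]),(z1,[z1,z0,y1])],
    .ref k0 k9 [(z3,[z3,y1,z3,z2,y3])],.contra [y3,z2,y6,y1,z6],.contra [z3,y1,z3,z2,y3],.ref k0 k0 [(z3,[z3,y1,z3,z2,
    y3])],.contra [z3,y1,z3,z5,y3],.contra [y3,z1,y6,y2,z6],.contra [y3,z1,y6,y2,z6],.ref k0 k6 [(z1,[z1])],
    .ref k3 k4 [(z3,[y3,z1,z0,z1,z3])],.ref k13 k3 [(z1,[z0,z0,z0,z1]),(z1,[z0,z0,z1]),(z1,[z1,z0,y2])],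
    .ref k3 k1 [(z1,[y1,z0,z0,z0,z1])],.ref k38 k6 [(z1,[z1,z0,z1,z0,y1]),(z1,[z0,z0,z0,z1]),(z1,[y1,z0,z0,z0,z1])],
    .ref k50 k4 [(z1,[z6,y1,y3,z1,y3]),(z1,[y3,z0,z0,y1,z3]),(z1,[y3,z1,z0,y1,z3]),(z1,[z0,z0,z1])],.ref k3 k4 [(z1,
    [y1,z0,z0,z0,z1])],.ref k0 k0 [(z1,[y1,z0,z0,z0,z1])],.contra [y6,z1,y3,z4,z3],.contra [z3,y2,z0,y2],.contra [y3,
    z1,y3,z1,z3],.contra [y3,z1,y3,z1,z3],.ref k38 k6 [(z3,[y3,z1,z3,z1]),(z1,[z0,z0,z0,z1]),(z3,[z3,y1,z0,y1])],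
    .ref k3 k1 [(z3,[z3,y1,z0,y1])],.contra [y3,z1,y3,z1,z3],.contra [z3,y1,z0,y1],.ref k1 k2 [(z1,[z1])],.contra [z1,
    z0,y1],.ref k49 k2 [(z1,[z0,z1]),(z1,[y3,z0,z0,y1,z3]),(z1,[z0,z0,z0,z1]),(z1,[z3,z0,z3,z1,y3])],.ref k48 k6 [(z1,
    [y3,y1,z3]),(z1,[z0,z0,z0,z1]),(z1,[z3,z1]),(z1,[z0,z1,y3,y1,z3])],.contra [y3,z1,y3,z1,z3],.contra [y3,z2,y6,y1,
    z6],.contra [y3,z2,y6,y1,z6],.contra [y3,z1,y6,y2,z6],.ref k0 k9 [(z1,[y1,z0,z0,z0,z1])],.contra [z1,z0,z1,z1,y1],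
    .ref k47 k4 [(z1,[y6,y1,y9,y3,z9]),(z1,[z3,y1]),(z1,[z3,z2]),(z1,[z0,z0,z1])],.contra [z3,z1,z3,z1,y3],
    .contra [z1],.ref k0 k9 [(z1,[z1])],.ref k0 k0 [(z1,[y1,z0,z1,z1])],.contra [y1,z0,z1,z1],.ref k1 k4 [(z1,[z1])],
    .ref k3 k1 [(z3,[y3,y1,z0,y1,z3])],.contra [z3,z1,y3,z1],.ref k0 k4 [(z3,[y3,y1,z0,y1,z3])],.contra [z1],
    .ref k0 k0 [(z1,[z1])],.ref k3 k4 [(z1,[z1])],.contra [y3,z1,y3,z1,z3],.contra [y1,z0,y1,z0,z1],.contra [y1,z0,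
    z2],.ref k0 k4 [(z1,[z1])],.ref k38 k6 [(z1,[y1,z0,z1]),(z1,[z0,z0,z0,z1]),(z1,[z1])],.contra [z1],.contra [y1,z0,
    y1,z0,z1],.contra [z1],.contra [z1,z1]]),
    .geo true z3 k5 [(z2,z6),(z2,z0),(z4,y6),(z2,z3),(z2,y6),(z0,z3)] [(z1,[z1]),(z1,[z0,z1]),(z1,[z0,z0,z1]),(z1,[z0,z0,
    z0,z1]),(z1,[y1,y1,y1,y1,z3]),(z1,[])] z0 (Int.ofNat (nat_lit 349526)) (.l k1) [],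
    .geo true z3 k4 [(y2,z3),(z4,y3),(z6,y3),(z2,z0),(z0,z3),(z2,z0)] [(z1,[z1]),(z1,[z0,z1]),(z1,[z0,z0,z3]),(z1,[z0,z0,
    z0,z1]),(z1,[]),(z1,[y1,y1,y3,y1,
    z3])] (Int.ofNat (nat_lit 699050)) (Int.ofNat (nat_lit 1398102)) (.s (.l k1) (.l k1)) [],
    .geo true z3 k5 [(y2,z6),(z2,z0),(z8,y6),(y2,z3),(z6,y6),(z0,z3)] [(z1,[z1]),(z1,[z0,z1]),(z1,[z0,z0,z1]),(z1,[z0,z0,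
    z0,z1]),(z1,[y1,y1,y1,y1,z3]),(z1,[])] (Int.ofNat (nat_lit 699050)) (Int.ofNat (nat_lit 1048576)) (.l k1) [],
    .geo true z3 k5 [(z1,z0),(z4,y3),(y1,z3),(z6,y3),(z2,z0),(z0,z3)] [(z1,[z1]),(z1,[z0,z1]),(z1,[z0,z0,z1]),(z1,[z0,z0,
    z0,z3]),(z1,[y1,y1,y1,y3,z3]),(z1,
    [])] (Int.ofNat (nat_lit 349525)) (Int.ofNat (nat_lit 1398102)) (.s (.l k1) (.l k1)) [],
    .old (.lp [(nat_lit 480),(nat_lit 480),(nat_lit 720),(nat_lit 722),(nat_lit 876),(nat_lit 558)] [k192,(nat_lit 204),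
    k198,k198,k78,k78,k77,k77,k0,k0,(nat_lit 272),k46] k0 [[k0,k0,k0,k0,k0,k0,k72,k0,(nat_lit 254)],[k0,k0,k0,k0,k0,
    (nat_lit 216),k0,k0,k0,k0,k0,k22],[k0,k0,k0,k0,k0,k0,k0,k0,(nat_lit 248)],[k0,k0,k0,k0,k0,k0,k0,k166],
    [(nat_lit 216)],[k0,k0,k0,k0,k0,k0,k0,k76,k0,k86],[k0,k0,k166,k0,k76],[k0,k72],[k0,k0,k0,k0,k86,k0,k0,k0,k0,k0,
    k82],[k0,(nat_lit 254),k0,(nat_lit 248)],[k22],[k0,k0,k0,k0,k0,k0,k0,k0,k0,k82]] (nat_lit 1920) k6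
    [[(k10,(nat_lit 400)),(k2,(nat_lit 474)),(k0,(nat_lit 502)),(k8,(nat_lit 590)),(k4,(nat_lit 594)),(k6,
    (nat_lit 595))],[(k11,(nat_lit 384)),(k3,(nat_lit 486)),(k1,(nat_lit 502)),(k5,(nat_lit 606)),(k9,(nat_lit 612)),
    (k7,(nat_lit 823))],[(k4,(nat_lit 384)),(k10,(nat_lit 384)),(k2,(nat_lit 480)),(k0,(nat_lit 486)),(k6,
    (nat_lit 673)),(k8,(nat_lit 932))],[(k11,(nat_lit 384)),(k1,(nat_lit 474)),(k3,(nat_lit 480)),(k5,(nat_lit 600)),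
    (k7,(nat_lit 601)),(k9,(nat_lit 844))],[(k10,(nat_lit 526)),(k6,(nat_lit 555)),(k2,(nat_lit 600)),(k0,
    (nat_lit 606)),(k4,(nat_lit 720)),(k8,(nat_lit 1046))],[(k3,(nat_lit 384)),(k1,(nat_lit 594)),(k5,(nat_lit 720)),
    (k7,(nat_lit 721)),(k11,(nat_lit 838)),(k9,(nat_lit 874))],[(k10,(nat_lit 527)),(k2,(nat_lit 601)),(k6,
    (nat_lit 646)),(k8,(nat_lit 713)),(k4,(nat_lit 721)),(k0,(nat_lit 823))],[(k5,(nat_lit 555)),(k1,(nat_lit 595)),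
    (k7,(nat_lit 646)),(k3,(nat_lit 673)),(k11,(nat_lit 753)),(k9,(nat_lit 799))],[(k10,(nat_lit 604)),(k0,
    (nat_lit 612)),(k6,(nat_lit 799)),(k2,(nat_lit 844)),(k4,(nat_lit 874)),(k8,(nat_lit 876))],[(k1,(nat_lit 590)),
    (k7,(nat_lit 713)),(k11,(nat_lit 830)),(k9,(nat_lit 876)),(k3,(nat_lit 932)),(k5,(nat_lit 1046))],[(k0,
    (nat_lit 384)),(k2,(nat_lit 384)),(k10,(nat_lit 640)),(k6,(nat_lit 753)),(k8,(nat_lit 830)),(k4,(nat_lit 838))],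
    [(k3,(nat_lit 384)),(k1,(nat_lit 400)),(k5,(nat_lit 526)),(k7,(nat_lit 527)),(k9,(nat_lit 604)),(k11,
    (nat_lit 640))]]
    [] k0
    [[k2,k0,k0,k0,k0,k0],[k3,k0,k0,k0,k0,k0],[k3,k0,k0,k0,k0,k1],[k2,k1,k0,k0,k0,k0],[k2,k1,k0,k0,k0,k1],[k2,k0,k1,k0,
    k0,k0],[k2,k0,k0,k0,k1,k0],[k2,k0,k0,k0,k0,k1],[k1,k1,k0,k0,k0,k0],[k1,k2,k0,k0,k0,k0],[k1,k2,k0,k0,k0,k1],[k1,k1,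
    k1,k0,k0,k0],[k1,k1,k1,k0,k0,k1],[k1,k1,k0,k0,k0,k1],[k1,k1,k0,k0,k0,k2],[k1,k0,k1,k0,k0,k0],[k1,k0,k1,k0,k0,k1],
    [k1,k0,k0,k1,k0,k0],[k1,k1,k0,k1,k0,k0],[k1,k0,k0,k1,k0,k1],[k1,k0,k0,k0,k1,k0],[k1,k0,k0,k0,k1,k1],[k1,k0,k0,k0,
    k0,k1],[k2,k0,k0,k0,k0,k2],[k1,k0,k0,k0,k0,k2],[k0,k2,k0,k0,k0,k0],[k0,k3,k0,k0,k0,k0],[k0,k3,k0,k0,k0,k1],[k0,k2,
    k1,k0,k0,k0],[k0,k2,k1,k0,k0,k1],[k0,k2,k0,k1,k0,k0],[k0,k2,k0,k0,k0,k1],[k0,k2,k0,k0,k0,k2],[k0,k1,k1,k0,k0,k0],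
    [k0,k1,k2,k0,k0,k0],[k0,k1,k1,k1,k0,k0],[k0,k1,k1,k1,k0,k1],[k0,k1,k1,k0,k0,k1],[k0,k1,k0,k1,k0,k0],[k0,k1,k0,k1,
    k0,k1],[k0,k1,k0,k0,k1,k0],[k0,k1,k0,k0,k0,k1],[k0,k1,k0,k0,k0,k2],[k0,k0,k2,k0,k0,k0],[k0,k0,k1,k1,k0,k0],[k0,k0,
    k1,k0,k0,k1],[k0,k0,k0,k2,k0,k0],[k0,k0,k0,k1,k1,k0],[k0,k0,k0,k1,k0,k1],[k0,k0,k0,k0,k2,k0],[k0,k0,k0,k0,k1,k1],
    [k0,k0,k0,k0,k0,k2]]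
    [.contra [z1],.ref k0 k4 [(z3,[z1,y2,y3,y3,z3])],.ref k13 k7 [(z1,[z0,y1,y3,y3,z3]),(z1,[z0,z0,z0,z1]),(z1,[y1,z1,
    z1])],.ref k51 k11 [(z1,[y3,z1,z3]),(z1,[z0,z0,z0,z1]),(z1,[z0,y1,y3,y3,z3])],.ref k0 k4 [(z1,[z1,y1,y2,y1,z1])],
    .ref k0 k4 [(z1,[z1,y1,y1,y2,z1])],.ref k46 k9 [(z1,[y1,z0,z0,z1]),(z1,[z0,y1,y3,y3,z3]),(z1,[z1])],
    .ref k51 k6 [(z1,[y3,z1,z3]),(z1,[z0,z0,z0,z1]),(z1,[z0,y1,y3,y3,z3])],.contra [y2,z1,z2,z1],.ref k54 k9 [(z1,[y3,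
    z1,z0,z3]),(z1,[z0,y1,y3,y3,z3]),(z1,[z3,y1]),(z1,[y3,z1,z3])],.ref k3 k1 [(z1,[y1,z0,z1,y1,z1])],.ref k3 k1 [(z1,
    [y1,z0,z0,z0,z1])],.ref k0 k4 [(z1,[y1,z0,z0,z0,z1])],.contra [z1,y1,y3,y2,z2],.ref k53 k2 [(z1,[z0,z1]),(z1,[y3,
    z1,z6]),(z1,[z0,z0,z0,z1]),(z1,[z0,y1,y3,y3,z3])],.contra [z1,y1,y2,y3,z2],.ref k53 k2 [(z1,[z0,z1]),(z1,[y3,z1,
    z3,z3]),(z1,[z0,z0,z0,z1]),(z1,[z0,y1,y3,y3,z3])],.contra [y1,z0,y1,z0,z1],.contra [y1,z0,z0,y1,z1],.contra [y1,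
    z0,z0,y1,z1],.ref k0 k4 [(z2,[z1,y1,y2,y2,z2])],.ref k3 k2 [(z1,[z1])],.contra [y2,z1,z2,z1],.ref k55 k10 [(z2,
    [y3,z2,z6]),(z1,[z0,z1,z0,z3]),(z2,[z3,y2,z0,y6]),(z1,[z0,z0,z0,z1])],.ref k52 k9 [(z1,[z3,y1,y6,z3]),(z1,[z0,y1,
    y3,y3,z3]),(z1,[y3,z1,z6]),(z1,[z3,y1,y3])],.contra [z1],.ref k3 k1 [(z3,[y1,y1,z0,y3,z3])],.ref k25 k7 [(z1,[z0,
    y1,y3,y3,z3]),(z1,[z0,z0,z0,z1]),(z1,[z1,z0,y1])],.ref k25 k7 [(z1,[z0,y1,y3,y3,z3]),(z1,[z0,z0,z0,z1]),(z1,[z1,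
    z0,z0,y1])],.ref k13 k7 [(z1,[z0,y1,y3,y3,z3]),(z1,[z0,z0,z0,z1]),(z1,[z1,z0,y1,y1])],.ref k3 k1 [(z2,[y1,y1,y1,
    y3,z3])],.ref k0 k9 [(z1,[z1,z0,y1,z1])],.contra [z1,z0,y2,z2],.ref k0 k9 [(z1,[z1])],.ref k13 k7 [(z1,[z0,y1,y3,
    y3,z3]),(z1,[z0,z0,z0,z1]),(z1,[z1,z0,z0,y2])],.ref k3 k2 [(z1,[y1,z0,z0,z0,z1])],.ref k0 k4 [(z2,[y1,y1,y2,y2,
    z3])],.contra [z1,z0,y1,z1],.contra [y1,z0,z0,y1,z1],.contra [y1,z0,z0,y1,z1],.contra [y1,z0,z1],.contra [y2,z1,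
    z2,z1],.ref k1 k1 [(z1,[z1,z0,y1,z1])],.contra [z1],.contra [y1,z0,y1,z0,z1],.ref k1 k1 [(z1,[z1])],.contra [z1],
    .ref k0 k4 [(z1,[z1])],.contra [y1,z0,z0,y1,z1],.contra [y1,z0,z0,z2],.contra [y1,z0,z1],.contra [z1]]),
    .geo true z3 k5 [(y2,z6),(z2,y3),(z4,y3),(z6,y3),(z2,z0),(z0,z3)] [(z1,[z1]),(z1,[z0,z1]),(z1,[z0,z0,z1]),(z1,[z0,z0,
    z0,z3]),(z1,[y1,y1,y1,y3,z3]),(z1,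
    [])] (Int.ofNat (nat_lit 349525)) (Int.ofNat (nat_lit 699051)) (.s (.l k1) (.l k1)) [],
    .geo true z3 k5 [(y2,z3),(z6,y6),(y6,z9),(z2,z0),(z12,y9),(z0,z3)] [(z1,[z1]),(z1,[z0,z3]),(z1,[z0,z0,z3]),(z1,[z0,z0,
    z0,z1]),(z1,[y1,y3,y3,y1,z3]),(z1,
    [])] (Int.ofNat (nat_lit 699050)) (Int.ofNat (nat_lit 1048576)) (.s (.l k2) (.l k1)) [⟨z2,z3,[[k0,k5],[k1,k2],[k3,
    k4]],.bnd k0⟩],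
    .old (.lp [(nat_lit 202),(nat_lit 258),(nat_lit 378),(nat_lit 268),(nat_lit 434),(nat_lit 378)] [k172,k152,k134,k134,
    k74,k74,k129,k129,k46,k46,k148,k0] k0 [[k0,k0,k0,k0,k0,k0,k0,k0,k0,k0,k10],[k0,k0,k0,k0,k0,k54],[k0,k0,k0,k0,k0,
    k0,k0,k0,(nat_lit 200)],[k0,k0,k0,k0,k0,k0,k0,k10],[k54,k0,k0,k0,k0,k0,k52],[k0,k0,k0,k0,k0,k0,k0,k0,k0,k2,k0,k2],
    [k0,k0,k10,k0,k0,k0,k0,k0,k46],[k0,k0,k0,k0,k0,k52,k0,k0,k0,k0,k0,k56],[k0,k0,k0,k0,k2,k0,k0,k0,k0,k0,k136],[k0,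
    k0,k0,(nat_lit 200),k0,k0,k0,k46],[k0,k0,k0,k0,k2,k0,k56],[k0,k10,k0,k0,k0,k0,k0,k0,k0,k136]] (nat_lit 960) k6
    [[(k0,k192),(k8,k192),(k10,(nat_lit 226)),(k2,(nat_lit 240)),(k6,(nat_lit 301)),(k4,(nat_lit 302))],[(k1,k192),
    (k3,(nat_lit 220)),(k7,(nat_lit 279)),(k5,(nat_lit 280)),(k9,(nat_lit 308)),(k11,(nat_lit 354))],[(k0,
    (nat_lit 220)),(k10,(nat_lit 254)),(k2,(nat_lit 258)),(k6,(nat_lit 263)),(k4,(nat_lit 264)),(k8,(nat_lit 346))],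
    [(k11,k192),(k1,(nat_lit 240)),(k3,(nat_lit 258)),(k7,(nat_lit 263)),(k5,(nat_lit 318)),(k9,(nat_lit 356))],[(k0,
    (nat_lit 280)),(k10,(nat_lit 304)),(k6,(nat_lit 313)),(k2,(nat_lit 318)),(k4,(nat_lit 378)),(k8,(nat_lit 606))],
    [(k3,(nat_lit 264)),(k1,(nat_lit 302)),(k7,(nat_lit 323)),(k9,(nat_lit 354)),(k5,(nat_lit 378)),(k11,
    (nat_lit 454))],[(k10,(nat_lit 247)),(k2,(nat_lit 263)),(k0,(nat_lit 279)),(k6,(nat_lit 320)),(k4,(nat_lit 323)),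
    (k8,(nat_lit 349))],[(k3,(nat_lit 263)),(k1,(nat_lit 301)),(k5,(nat_lit 313)),(k7,(nat_lit 320)),(k9,
    (nat_lit 351)),(k11,(nat_lit 351))],[(k10,(nat_lit 276)),(k0,(nat_lit 308)),(k6,(nat_lit 351)),(k4,(nat_lit 354)),
    (k2,(nat_lit 356)),(k8,(nat_lit 480))],[(k1,k192),(k3,(nat_lit 346)),(k7,(nat_lit 349)),(k9,(nat_lit 480)),(k11,
    (nat_lit 480)),(k5,(nat_lit 606))],[(k2,k192),(k6,(nat_lit 351)),(k0,(nat_lit 354)),(k4,(nat_lit 454)),(k8,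
    (nat_lit 480)),(k10,(nat_lit 514))],[(k1,(nat_lit 226)),(k7,(nat_lit 247)),(k3,(nat_lit 254)),(k9,(nat_lit 276)),
    (k5,(nat_lit 304)),(k11,(nat_lit 514))]]
    [] k0
    [[k2,k0,k0,k0,k0,k0],[k3,k0,k0,k0,k0,k0],[k4,k0,k0,k0,k0,k0],[k3,k1,k0,k0,k0,k0],[k3,k0,k0,k0,k1,k0],[k2,k1,k0,k0,
    k0,k0],[k2,k2,k0,k0,k0,k0],[k2,k0,k1,k0,k0,k0],[k2,k0,k0,k1,k0,k0],[k2,k0,k0,k0,k1,k0],[k2,k0,k0,k0,k0,k1],[k2,k1,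
    k0,k0,k0,k1],[k1,k1,k0,k0,k0,k0],[k1,k2,k0,k0,k0,k0],[k1,k1,k1,k0,k0,k0],[k1,k1,k0,k1,k0,k0],[k1,k1,k0,k0,k1,k0],
    [k1,k1,k0,k0,k0,k1],[k1,k2,k0,k0,k0,k1],[k1,k0,k1,k0,k0,k0],[k1,k0,k1,k1,k0,k0],[k1,k0,k0,k1,k0,k0],[k1,k0,k0,k2,
    k0,k0],[k1,k0,k0,k1,k1,k0],[k1,k0,k0,k1,k0,k1],[k1,k0,k0,k0,k1,k0],[k1,k0,k1,k0,k1,k0],[k1,k0,k0,k0,k1,k1],[k1,k1,
    k0,k0,k1,k1],[k1,k0,k0,k0,k0,k1],[k0,k2,k0,k0,k0,k0],[k0,k3,k0,k0,k0,k0],[k0,k2,k1,k0,k0,k0],[k0,k2,k0,k1,k0,k0],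
    [k0,k2,k0,k0,k0,k1],[k0,k1,k1,k0,k0,k0],[k0,k1,k1,k1,k0,k0],[k0,k1,k1,k0,k0,k1],[k0,k1,k0,k1,k0,k0],[k0,k1,k0,k2,
    k0,k0],[k0,k1,k0,k1,k0,k1],[k0,k1,k0,k0,k1,k0],[k0,k1,k0,k0,k1,k1],[k0,k1,k0,k0,k0,k1],[k0,k2,k0,k0,k0,k2],[k0,k0,
    k2,k0,k0,k0],[k0,k0,k1,k1,k0,k0],[k0,k0,k1,k2,k0,k0],[k0,k0,k1,k0,k0,k1],[k0,k0,k0,k2,k0,k0],[k0,k0,k0,k2,k0,k1],
    [k0,k0,k0,k1,k1,k0],[k0,k0,k0,k1,k0,k1],[k0,k0,k0,k0,k1,k1]]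
    [.contra [z1],.contra [y1,z2,z3],.contra [y1,z2,z3],.contra [y1,z2,z3],.ref k58 k2 [(z1,[z0,z1]),(z1,[z0,z0,z1]),
    (z1,[y1,z1,z0,z1]),(z1,[z0,y1,y3,y3,z3])],.contra [z1,y2,y5,y4,z4],.contra [y1,z2,z3],.ref k46 k5 [(z1,[y1,z0,z0,
    z1]),(z1,[z0,y1,y3,y3,z3]),(z1,[z1])],.contra [y1,z1,z1,y1,z1],.ref k46 k9 [(z1,[y1,z0,z0,z1]),(z1,[z0,y1,y3,y3,
    z3]),(z1,[z1])],.contra [y1,z1,z2],.contra [y1,z1,z2],.contra [y1,z2,z3],.contra [y1,z2,z3],.ref k3 k1 [(z1,[y1,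
    z0,z0,z0,z1])],.contra [y1,z1,z1,y1,z1],.ref k57 k10 [(z1,[z6,y2,y3,y6]),(z1,[y3,z2,z3,z3]),(z1,[y3,z1,z3,z3]),
    (z1,[z0,z0,z0,z1])],.contra [z1,y1,y3,y2,z2],.contra [y1,z1,z2],.ref k38 k5 [(z1,[y1,z0,z0,z1]),(z1,[z0,y1,y3,y3,
    z3]),(z1,[z1])],.ref k1 k1 [(z1,[z1,z0,z1,z1,y1])],.contra [y1,z1,z1,y1,z1],.contra [y1,z0,y1,y2,z2],
    .ref k0 k1 [(z1,[z1,z0,z1,z1,y1])],.contra [z1,z0,z1,z1,y1],.ref k38 k9 [(z1,[y1,z0,z0,z1]),(z1,[z0,y1,y3,y3,z3]),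
    (z1,[z1])],.contra [z1,z0,z0,y1],.ref k3 k2 [(z1,[z1])],.ref k0 k0 [(z1,[y1,z0,z0,z0,z1])],.contra [y1,z1,z2],
    .contra [z1],.contra [y1,z2,z3],.ref k25 k7 [(z1,[z0,y1,y3,y3,z3]),(z1,[z0,z0,z0,z1]),(z1,[z1,z0,z0,y1])],
    .contra [y1,z1,z1,y1,z1],.contra [y1,z1,z2],.ref k0 k9 [(z1,[z1])],.ref k3 k2 [(z1,[y1,z0,z0,z0,z1])],
    .ref k0 k1 [(z1,[y1,z0,z1,z1])],.contra [y1,z1,z1,y1,z1],.contra [y1,z0,y1,y2,z2],.contra [y1,z0,z0,y1,z1],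
    .ref k1 k4 [(z1,[z1])],.ref k1 k1 [(z1,[y1,z0,z1,z1])],.contra [y1,z1,z2],.contra [y1,z0,z2],.contra [z1],
    .ref k0 k0 [(z1,[z1])],.ref k0 k4 [(z1,[y1,y1,y3,y2,z3])],.ref k1 k1 [(z1,[z1])],.contra [z1],.contra [z1,z1,z2,
    z2,y2],.ref k0 k4 [(z1,[z1])],.contra [y1,z0,z0,y1,z1],.ref k0 k1 [(z1,[z1])]])]

noncomputable def cU6_3_n0_5 : List XN :=
  [.old (.lp [(nat_lit 346),(nat_lit 320),(nat_lit 320),(nat_lit 330),(nat_lit 268),(nat_lit 334)] [k99,k99,k112,k112,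
    k112,k112,(nat_lit 214),k0,k138,k138,k58,k152] k0 [[k0,k0,k0,k0,k0,k0,k0,k0,k16],[k0,k0,k0,k0,k0,k34],[k0,k0,k0,
    k0,k0,k0,k0,k0,k14,k0,k70],[k0,k0,k0,k0,k0,k0,k0,k2],[k34,k0,k0,k0,k0,k0,k32],[k0,k0,k0,k0,k0,k0,k0,k0,k0,k0,k0,
    (nat_lit 294)],[k0,k0,k2,k0,k0,k0,k0,k0,k0,k0,k24],[k0,k0,k0,k0,k0,k32,k0,k0,k0,k14],[k0,k0,k0,k0,k0,k0,k14],[k0,
    k16,k0,k14],[k0,k0,k0,k0,(nat_lit 294)],[k0,k0,k0,k70,k0,k0,k0,k24]] (nat_lit 960) k6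
    [[(k6,(nat_lit 207)),(k2,(nat_lit 263)),(k8,(nat_lit 307)),(k0,(nat_lit 346)),(k10,(nat_lit 387)),(k4,
    (nat_lit 627))],[(k11,(nat_lit 277)),(k9,(nat_lit 307)),(k3,(nat_lit 333)),(k5,(nat_lit 333)),(k1,(nat_lit 346)),
    (k7,(nat_lit 479))],[(k6,(nat_lit 218)),(k4,(nat_lit 286)),(k8,(nat_lit 310)),(k2,(nat_lit 320)),(k0,
    (nat_lit 333)),(k10,(nat_lit 374))],[(k1,(nat_lit 263)),(k11,(nat_lit 266)),(k9,(nat_lit 296)),(k3,(nat_lit 320)),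
    (k5,(nat_lit 320)),(k7,(nat_lit 432))],[(k6,(nat_lit 216)),(k8,(nat_lit 308)),(k2,(nat_lit 320)),(k4,
    (nat_lit 320)),(k0,(nat_lit 333)),(k10,(nat_lit 444))],[(k9,(nat_lit 262)),(k11,(nat_lit 280)),(k3,(nat_lit 286)),
    (k5,(nat_lit 320)),(k7,(nat_lit 432)),(k1,(nat_lit 627))],[(k10,k192),(k6,(nat_lit 362)),(k8,(nat_lit 406)),(k2,
    (nat_lit 432)),(k4,(nat_lit 432)),(k0,(nat_lit 479))],[(k9,k192),(k11,k192),(k1,(nat_lit 207)),(k5,(nat_lit 216)),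
    (k3,(nat_lit 218)),(k7,(nat_lit 362))],[(k6,k192),(k8,(nat_lit 254)),(k4,(nat_lit 262)),(k2,(nat_lit 296)),(k0,
    (nat_lit 307)),(k10,(nat_lit 372))],[(k9,(nat_lit 254)),(k11,(nat_lit 254)),(k1,(nat_lit 307)),(k5,(nat_lit 308)),
    (k3,(nat_lit 310)),(k7,(nat_lit 406))],[(k6,k192),(k8,(nat_lit 254)),(k2,(nat_lit 266)),(k0,(nat_lit 277)),(k4,
    (nat_lit 280)),(k10,(nat_lit 334))],[(k7,k192),(k11,(nat_lit 334)),(k9,(nat_lit 372)),(k3,(nat_lit 374)),(k1,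
    (nat_lit 387)),(k5,(nat_lit 444))]]
    [] k0
    [[k2,k0,k0,k0,k0,k0],[k2,k1,k0,k0,k0,k0],[k1,k1,k0,k0,k0,k0],[k1,k2,k0,k0,k0,k0],[k1,k1,k1,k0,k0,k0],[k1,k1,k0,k1,
    k0,k1],[k1,k1,k0,k0,k1,k0],[k1,k1,k0,k0,k0,k1],[k1,k0,k0,k1,k0,k0],[k1,k0,k0,k1,k1,k0],[k1,k0,k0,k1,k0,k1],[k1,k0,
    k0,k0,k1,k0],[k1,k0,k1,k0,k1,k0],[k1,k0,k0,k0,k2,k0],[k1,k0,k0,k0,k1,k1],[k1,k0,k0,k0,k0,k1],[k0,k2,k0,k0,k0,k0],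
    [k0,k2,k1,k0,k0,k0],[k0,k2,k0,k0,k1,k0],[k0,k1,k1,k0,k0,k0],[k0,k1,k2,k0,k0,k0],[k0,k1,k1,k1,k0,k0],[k0,k1,k1,k0,
    k1,k0],[k0,k1,k0,k1,k0,k0],[k0,k1,k0,k1,k1,k0],[k0,k1,k0,k1,k0,k1],[k0,k1,k0,k0,k1,k0],[k0,k1,k0,k0,k2,k0],[k0,k1,
    k0,k0,k1,k1],[k0,k1,k0,k0,k0,k1],[k0,k0,k2,k0,k0,k0],[k0,k0,k2,k0,k1,k0],[k0,k0,k1,k1,k0,k0],[k0,k0,k1,k1,k1,k0],
    [k0,k0,k1,k1,k0,k1],[k0,k0,k1,k1,k1,k1],[k0,k0,k1,k0,k1,k0],[k0,k0,k1,k0,k2,k0],[k0,k0,k1,k0,k0,k1],[k0,k0,k0,k2,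
    k0,k0],[k0,k0,k0,k2,k0,k1],[k0,k0,k0,k1,k1,k0],[k0,k0,k0,k1,k2,k0],[k0,k0,k0,k1,k0,k1],[k0,k0,k0,k2,k0,k2],[k0,k0,
    k0,k1,k1,k1],[k0,k0,k0,k1,k2,k1],[k0,k0,k0,k1,k0,k2],[k0,k0,k0,k0,k2,k0],[k0,k0,k0,k0,k3,k0],[k0,k0,k0,k0,k2,k1],
    [k0,k0,k0,k0,k1,k1],[k0,k0,k0,k0,k0,k2]]
    [.contra [z1],.ref k0 k0 [(z1,[y1,z1,z0,z0,z1])],.contra [y1,z0,z0,y1,z1],.ref k0 k0 [(z1,[y2,z1,z1,z0,z1])],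
    .contra [y1,z1,z1,z1],.contra [z1,z0,z0,z1,y1],.ref k56 k4 [(z1,[z3,y3,y1,y3]),(z1,[y1,z0,z0,z0,z1]),(z1,[z0,z1,
    z0,z1])],.ref k3 k4 [(z1,[y1,z0,z0,z0,z1])],.contra [z1,z0,z1,z1,y1],.ref k4 k4 [(z1,[z3,z0,z1,z3,y3]),(z1,[y3,y3,
    y2,y6,z6]),(z1,[z0,z1,z0,z1])],.ref k56 k5 [(z1,[y3,y3,y1,y3,z3]),(z1,[z1]),(z1,[z0,z1,z0,z1])],.ref k38 k3 [(z1,
    [y1,z1,z0,z1]),(z1,[z0,z0,z1]),(z1,[z1])],.contra [z1,y1,z0,y1],.ref k46 k3 [(z1,[y1,z1,z0,z1]),(z1,[z0,z0,z1]),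
    (z1,[z1])],.contra [z1,z1],.ref k0 k2 [(z1,[z1])],.contra [z1],.contra [z1,y1,y1,y2,z1],.ref k4 k4 [(z1,[z3,z0,
    y2]),(z1,[y3,y3,z1,y3,z3]),(z1,[z0,z1,z0,z1])],.ref k0 k0 [(z1,[z2,y1,y1,y2,z1])],.contra [z1,y2,y1,y4,z2],
    .contra [y1,z1,z0,z0,z1],.ref k56 k5 [(z1,[z3,y3,y1,y3]),(z1,[y1,z0,z0,z0,z1]),(z1,[z0,z1,z0,z1])],.contra [y1,z0,
    z0,y1,z1],.contra [y1,y1,z0,y1,z1],.contra [y1,y1,z0,y1,z1],.contra [y1,y1,z0,y1,z1],.ref k4 k4 [(z2,[z3,z0,y1]),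
    (z2,[y3,y6,y1,y6,z6]),(z1,[z0,z1,z0,z1])],.contra [y1,y1,z0,y1,z1],.contra [y1,y1,z0,y1,z1],.contra [y1,z2,z0,z2],
    .ref k0 k2 [(z1,[y1,z1,z0,z2])],.ref k0 k0 [(z1,[z1])],.ref k3 k4 [(z1,[z1])],.ref k56 k4 [(z1,[y3,y3,y1,y3,z3]),
    (z1,[z1]),(z1,[z0,z1,z0,z1])],.contra [z1,z0,z0,y1],.contra [y1,z0,z0,z1],.ref k46 k2 [(z1,[y1,z1,z0,z1]),(z1,[z0,
    z0,z1]),(z1,[z1])],.contra [y1,z0,z0,z1],.contra [z1],.ref k59 k4 [(z1,[y3,y3,y1,y3,z3]),(z1,[z1]),(z1,[z0,z1,z0,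
    z1])],.contra [y1,y1,z0,y1,z1],.ref k51 k1 [(z1,[y3,y3,y1,y3,z3]),(z1,[z0,z1,z0,z1]),(z1,[z0,z0,z1])],.contra [y1,
    y1,z0,y1,z1],.ref k5 k4 [(z2,[y3,y6,y2,y6,z6]),(z2,[z1]),(z1,[z0,z1,z0,z1])],.contra [z1,z1,z1,z1,y1],
    .ref k4 k4 [(z1,[z3,z3,z1,z3,y3]),(z1,[y3,y6,y2,y6,z6]),(z1,[z0,z1,z0,z1])],.ref k59 k5 [(z1,[y3,y3,y1,y3,z3]),
    (z1,[z1]),(z1,[z0,z1,z0,z1])],.contra [z1],.ref k4 k4 [(z1,[z1]),(z1,[y1,y3,y1,y3,z3]),(z1,[z0,z1,z0,z1])],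
    .ref k38 k3 [(z1,[y1,z0,z0,z1]),(z1,[z0,z0,z1]),(z1,[z1,z1])],.contra [y1,z0,z0,z1],.contra [z1]]),
    .old (.lp [(nat_lit 392),(nat_lit 512),(nat_lit 524),(nat_lit 488),(nat_lit 486),(nat_lit 472)] [k183,k183,k48,k198,
    k117,k117,k135,k135,k136,k136,(nat_lit 286),k0] k0 [[k0,k0,k0,k0,k0,k0,k0,k0,k0,k0,k14],[k0,k0,k0,k0,k0,k134,k0,
    k0,k0,k44],[k0,k0,k0,k0,k0,k0,k0,k0,(nat_lit 422)],[k0,k0,k0,k0,k0,k0,k0,k0,k0,k0,k0,k24],[k134,k0,k0,k0,k0,k0,k0,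
    k0,k42],[k0,k0,k0,k0,k0,k0,k0,k8],[k0,k0,k0,k0,k8],[k0,k0,k0,k0,k0,k0,k0,k0,k0,k0,k0,k48],[k44,k0,k0,k0,k0,k0,k0,
    k0,k0,k0,k60],[k0,k0,k0,(nat_lit 422),k0,k42],[k0,k0,k24,k0,k0,k0,k48],[k0,k14,k0,k0,k0,k0,k0,k0,k0,
    k60]] (nat_lit 1440) k6
    [[(k10,(nat_lit 289)),(k0,(nat_lit 378)),(k8,(nat_lit 379)),(k4,(nat_lit 458)),(k6,(nat_lit 488)),(k2,
    (nat_lit 551))],[(k3,(nat_lit 377)),(k1,(nat_lit 378)),(k9,(nat_lit 439)),(k5,(nat_lit 458)),(k7,(nat_lit 574)),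
    (k11,(nat_lit 619))],[(k10,(nat_lit 288)),(k4,(nat_lit 309)),(k0,(nat_lit 377)),(k8,(nat_lit 380)),(k6,
    (nat_lit 425)),(k2,(nat_lit 512))],[(k11,(nat_lit 288)),(k3,(nat_lit 512)),(k1,(nat_lit 551)),(k9,(nat_lit 574)),
    (k7,(nat_lit 575)),(k5,(nat_lit 593))],[(k10,(nat_lit 331)),(k0,(nat_lit 458)),(k6,(nat_lit 506)),(k4,
    (nat_lit 524)),(k2,(nat_lit 593)),(k8,(nat_lit 927))],[(k3,(nat_lit 309)),(k1,(nat_lit 458)),(k7,(nat_lit 506)),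
    (k9,(nat_lit 513)),(k5,(nat_lit 524)),(k11,(nat_lit 599))],[(k10,(nat_lit 337)),(k6,(nat_lit 480)),(k4,
    (nat_lit 506)),(k8,(nat_lit 529)),(k0,(nat_lit 574)),(k2,(nat_lit 575))],[(k3,(nat_lit 425)),(k7,(nat_lit 480)),
    (k9,(nat_lit 487)),(k1,(nat_lit 488)),(k5,(nat_lit 506)),(k11,(nat_lit 623))],[(k10,(nat_lit 288)),(k0,
    (nat_lit 439)),(k8,(nat_lit 486)),(k6,(nat_lit 487)),(k4,(nat_lit 513)),(k2,(nat_lit 574))],[(k1,(nat_lit 379)),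
    (k3,(nat_lit 380)),(k9,(nat_lit 486)),(k7,(nat_lit 529)),(k11,(nat_lit 622)),(k5,(nat_lit 927))],[(k2,
    (nat_lit 288)),(k10,(nat_lit 532)),(k4,(nat_lit 599)),(k0,(nat_lit 619)),(k8,(nat_lit 622)),(k6,(nat_lit 623))],
    [(k3,(nat_lit 288)),(k9,(nat_lit 288)),(k1,(nat_lit 289)),(k5,(nat_lit 331)),(k7,(nat_lit 337)),(k11,
    (nat_lit 532))]]
    [] k0
    [[k2,k0,k0,k0,k0,k0],[k3,k0,k0,k0,k0,k0],[k2,k1,k0,k0,k0,k0],[k2,k0,k1,k0,k0,k0],[k2,k0,k0,k0,k1,k0],[k2,k0,k0,k0,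
    k0,k1],[k2,k1,k0,k0,k0,k1],[k1,k1,k0,k0,k0,k0],[k1,k1,k1,k0,k0,k0],[k1,k1,k0,k0,k1,k0],[k1,k0,k1,k0,k0,k0],[k1,k0,
    k1,k0,k0,k1],[k1,k0,k0,k1,k0,k0],[k1,k0,k0,k0,k1,k0],[k1,k0,k1,k0,k1,k0],[k1,k0,k0,k0,k2,k0],[k1,k0,k0,k0,k1,k1],
    [k1,k1,k0,k0,k1,k1],[k1,k0,k0,k0,k0,k1],[k1,k1,k0,k0,k0,k1],[k1,k1,k1,k0,k0,k1],[k0,k2,k0,k0,k0,k0],[k0,k2,k1,k0,
    k0,k0],[k0,k2,k0,k0,k0,k1],[k0,k1,k1,k0,k0,k0],[k0,k1,k2,k0,k0,k0],[k0,k1,k1,k1,k0,k0],[k0,k1,k1,k0,k0,k1],[k0,k1,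
    k0,k1,k0,k0],[k0,k1,k0,k1,k0,k1],[k0,k1,k0,k0,k1,k0],[k0,k1,k0,k0,k1,k1],[k0,k1,k0,k0,k0,k1],[k0,k2,k0,k0,k0,k2],
    [k0,k1,k0,k0,k0,k2],[k0,k0,k2,k0,k0,k0],[k0,k0,k1,k1,k0,k0],[k0,k0,k1,k0,k0,k1],[k0,k0,k0,k2,k0,k0],[k0,k0,k0,k1,
    k1,k0],[k0,k0,k0,k1,k0,k1],[k0,k0,k0,k0,k2,k0],[k0,k0,k0,k0,k2,k1],[k0,k0,k0,k0,k1,k1],[k0,k0,k0,k0,k0,k2]]
    [.contra [z1],.ref k0 k4 [(z6,[z1,y9,y2,y6,z6])],.ref k51 k11 [(z1,[y3,z3,z1]),(z1,[z0,z0,z0,z1]),(z1,[z0,y3,y1,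
    y3,z3])],.ref k0 k4 [(z3,[z1,y5,y1,y4,z3])],.ref k46 k9 [(z1,[y1,z0,z0,z1]),(z1,[z0,y3,y1,y3,z3]),(z1,[z1])],
    .ref k51 k6 [(z1,[y3,z3,z1]),(z1,[z0,z0,z0,z1]),(z1,[z0,y3,y1,y3,z3])],.ref k0 k4 [(z2,[z1,y4,y1,y2,z2])],
    .contra [y3,z4,z1,z2],.ref k1 k4 [(z1,[z1,y1,z0,y1])],.ref k60 k9 [(z1,[y1,z0,z0,z1]),(z1,[z0,y3,y1,y3,z3]),(z1,
    [z1])],.contra [y1,z1,z0,z2],.ref k0 k1 [(z1,[z1,y1,z0,y1])],.contra [y1,z0,z0,y1,z1],.ref k0 k4 [(z3,[z1,y4,y1,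
    y3,z3])],.contra [y1,z1,z0,z3],.contra [y1,z1,z0,z4],.ref k3 k2 [(z1,[z1])],.contra [z3,y1,y1,z1],.contra [y3,z4,
    z1,z2],.contra [z1,y3,y1,y2,z2],.ref k0 k4 [(z1,[y1,z0,z0,z0,z1])],.contra [z1],.ref k25 k7 [(z1,[z0,y3,y1,y3,
    z3]),(z1,[z0,z0,z0,z1]),(z1,[z1,z0,z0,y1])],.ref k59 k8 [(z1,[y3,z3,z1]),(z1,[z1]),(z1,[z0,z0,z0,z1])],
    .ref k0 k9 [(z1,[z1])],.ref k13 k7 [(z1,[z0,y3,y1,y3,z3]),(z1,[z0,z0,z0,z1]),(z1,[z1,z0,z0,y2])],.ref k3 k2 [(z1,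
    [y1,z0,z0,z0,z1])],.ref k56 k8 [(z1,[y3,z3,z1]),(z1,[z1]),(z1,[z0,z0,z0,z1])],.contra [y1,z0,z0,y1,z1],
    .contra [z1,z1,z0,z3,y1],.ref k1 k4 [(z1,[z1])],.ref k0 k4 [(z1,[y1,y1,z0,y1,z1])],.contra [y3,z4,z1,z2],
    .ref k5 k2 [(z2,[y3,z6,z2]),(z2,[z1]),(z1,[z0,z0,z0,z1])],.ref k59 k2 [(z1,[y3,z3,z1]),(z1,[z1]),(z1,[z0,z0,z0,
    z1])],.contra [z1],.contra [y3,y1,y1,z1,z3],.ref k1 k1 [(z1,[z1])],.contra [z1],.ref k0 k4 [(z1,[z1])],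
    .contra [y1,z0,z0,y1,z1],.contra [y1,z0,z0,z2],.contra [z1,z1],.ref k0 k1 [(z1,[z1])],.contra [z1]]),
    .old (.lp [(nat_lit 488),(nat_lit 486),(nat_lit 472),(nat_lit 392),(nat_lit 512),(nat_lit 524)] [k135,k135,k136,k136,
    (nat_lit 286),k0,k183,k183,k48,k198,k117,k117] k0 [[k0,k0,k0,k0,k0,k0,k0,k0,k0,k0,k8],[k0,k0,k0,k0,k0,k48],[k0,k0,
    k0,k0,k60,k0,k44],[k0,k0,k0,k0,k0,k0,k0,k0,k0,(nat_lit 422),k0,k42],[k48,k0,k0,k0,k0,k0,k0,k0,k24],[k0,k0,k0,k60,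
    k0,k0,k0,k14],[k0,k0,k0,k0,k14],[k0,k0,k0,k44,k0,k0,k0,k0,k0,k0,k0,k134],[k0,k0,(nat_lit 422)],[k0,k0,k0,k0,k0,
    k24],[k0,k0,k42,k0,k0,k0,k134],[k0,k8]] (nat_lit 1440) k6
    [[(k4,(nat_lit 337)),(k0,(nat_lit 480)),(k10,(nat_lit 506)),(k2,(nat_lit 529)),(k6,(nat_lit 574)),(k8,
    (nat_lit 575))],[(k9,(nat_lit 425)),(k1,(nat_lit 480)),(k3,(nat_lit 487)),(k7,(nat_lit 488)),(k11,(nat_lit 506)),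
    (k5,(nat_lit 623))],[(k4,(nat_lit 288)),(k6,(nat_lit 439)),(k2,(nat_lit 486)),(k0,(nat_lit 487)),(k10,
    (nat_lit 513)),(k8,(nat_lit 574))],[(k7,(nat_lit 379)),(k9,(nat_lit 380)),(k3,(nat_lit 486)),(k1,(nat_lit 529)),
    (k5,(nat_lit 622)),(k11,(nat_lit 927))],[(k8,(nat_lit 288)),(k4,(nat_lit 532)),(k10,(nat_lit 599)),(k6,
    (nat_lit 619)),(k2,(nat_lit 622)),(k0,(nat_lit 623))],[(k3,(nat_lit 288)),(k9,(nat_lit 288)),(k7,(nat_lit 289)),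
    (k11,(nat_lit 331)),(k1,(nat_lit 337)),(k5,(nat_lit 532))],[(k4,(nat_lit 289)),(k6,(nat_lit 378)),(k2,
    (nat_lit 379)),(k10,(nat_lit 458)),(k0,(nat_lit 488)),(k8,(nat_lit 551))],[(k9,(nat_lit 377)),(k7,(nat_lit 378)),
    (k3,(nat_lit 439)),(k11,(nat_lit 458)),(k1,(nat_lit 574)),(k5,(nat_lit 619))],[(k4,(nat_lit 288)),(k10,
    (nat_lit 309)),(k6,(nat_lit 377)),(k2,(nat_lit 380)),(k0,(nat_lit 425)),(k8,(nat_lit 512))],[(k5,(nat_lit 288)),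
    (k9,(nat_lit 512)),(k7,(nat_lit 551)),(k3,(nat_lit 574)),(k1,(nat_lit 575)),(k11,(nat_lit 593))],[(k4,
    (nat_lit 331)),(k6,(nat_lit 458)),(k0,(nat_lit 506)),(k10,(nat_lit 524)),(k8,(nat_lit 593)),(k2,(nat_lit 927))],
    [(k9,(nat_lit 309)),(k7,(nat_lit 458)),(k1,(nat_lit 506)),(k3,(nat_lit 513)),(k11,(nat_lit 524)),(k5,
    (nat_lit 599))]]
    [] k0
    [[k2,k0,k0,k0,k0,k0],[k1,k1,k0,k0,k0,k0],[k1,k0,k1,k0,k0,k0],[k1,k0,k1,k0,k1,k0],[k1,k0,k0,k1,k0,k0],[k1,k0,k0,k0,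
    k1,k0],[k1,k0,k0,k0,k1,k1],[k1,k0,k0,k0,k0,k1],[k0,k2,k0,k0,k0,k0],[k0,k2,k1,k0,k0,k0],[k0,k2,k0,k1,k0,k0],[k0,k1,
    k1,k0,k0,k0],[k0,k1,k1,k1,k0,k0],[k0,k1,k1,k0,k1,k0],[k0,k1,k1,k1,k1,k0],[k0,k1,k0,k1,k0,k0],[k0,k1,k0,k2,k0,k0],
    [k0,k1,k0,k1,k1,k0],[k0,k1,k0,k0,k1,k0],[k0,k1,k0,k1,k0,k1],[k0,k0,k2,k0,k0,k0],[k0,k0,k2,k0,k1,k0],[k0,k0,k1,k1,
    k0,k0],[k0,k0,k1,k2,k0,k0],[k0,k0,k1,k1,k0,k1],[k0,k0,k1,k0,k1,k0],[k0,k0,k2,k0,k2,k0],[k0,k0,k1,k1,k1,k0],[k0,k0,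
    k1,k2,k1,k0],[k0,k0,k1,k0,k2,k0],[k0,k0,k1,k0,k1,k1],[k0,k0,k1,k1,k1,k1],[k0,k0,k1,k0,k0,k1],[k0,k0,k0,k2,k0,k0],
    [k0,k0,k0,k3,k0,k0],[k0,k0,k0,k2,k1,k0],[k0,k0,k0,k2,k0,k1],[k0,k0,k0,k1,k1,k0],[k0,k0,k0,k1,k1,k1],[k0,k0,k0,k1,
    k0,k1],[k0,k0,k0,k0,k2,k0],[k0,k0,k0,k0,k2,k1],[k0,k0,k0,k0,k1,k1],[k0,k0,k0,k0,k1,k2],[k0,k0,k0,k0,k0,k2]]
    [.contra [z1],.ref k0 k6 [(z1,[z1])],.contra [y1,z0,y1,z1],.contra [y1,z0,y1,z1],.contra [y1,z0,y1,z1],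
    .contra [y1,z0,y1,z1],.ref k3 k2 [(z1,[z1])],.ref k0 k2 [(z1,[z1])],.contra [z1],.ref k13 k2 [(z1,[z0,z1]),(z1,
    [z0,z0,z1]),(z1,[z1,z0,y2])],.ref k61 k7 [(z1,[z1,z0,y2]),(z1,[y3,y1,z3,z3]),(z1,[z0,z0,z1])],.ref k0 k9 [(z1,
    [z1])],.ref k3 k2 [(z1,[y1,z0,z0,z1])],.ref k56 k0 [(z1,[y3,y1,y3,z3]),(z1,[z1]),(z1,[z0,z0,z1])],.ref k0 k2 [(z1,
    [y1,z0,z0,z1])],.ref k38 k1 [(z1,[y1,z0,z1]),(z1,[z0,z1]),(z1,[z1])],.ref k46 k1 [(z1,[y1,z0,z1]),(z1,[z0,z1]),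
    (z1,[z1])],.ref k60 k1 [(z1,[y1,z0,z1]),(z1,[z0,z1]),(z1,[z1])],.ref k1 k4 [(z1,[z1])],.contra [z1,z0,y1],
    .contra [z1],.ref k59 k0 [(z1,[y3,y1,y3,z3]),(z1,[z1]),(z1,[z0,z0,z1])],.contra [y1,z0,y1,z1],.ref k51 k4 [(z1,
    [y3,y1,y3,z3]),(z1,[z0,z0,z1]),(z1,[z0,z1])],.ref k60 k10 [(z1,[y1,z0,z1]),(z1,[z0,z1]),(z1,[z1])],.contra [y1,z0,
    y1,z1],.ref k5 k0 [(z2,[y3,y2,y6,z6]),(z2,[z1]),(z1,[z0,z0,z1])],.contra [z1,z1,z1,y1],.ref k4 k0 [(z1,[z3,z1,z3,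
    y3]),(z1,[y3,y2,y6,z6]),(z1,[z0,z0,z1])],.ref k59 k7 [(z1,[y3,y1,y3,z3]),(z1,[z1]),(z1,[z0,z0,z1])],
    .ref k56 k7 [(z1,[y3,y1,y3,z3]),(z1,[z1]),(z1,[z0,z0,z1])],.ref k0 k6 [(z1,[y1,z0,z0,z1])],.ref k1 k1 [(z1,[z1])],
    .contra [z1],.ref k4 k0 [(z1,[z1]),(z1,[y1,y1,y3,z3]),(z1,[z0,z0,z1])],.ref k51 k3 [(z1,[y3,y1,y3,z3]),(z1,[z0,z0,
    z1]),(z1,[z0,z1])],.ref k46 k10 [(z1,[y1,z0,z1]),(z1,[z0,z1]),(z1,[z1])],.contra [y1,z0,y1,z1],.ref k3 k1 [(z1,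
    [z1])],.ref k38 k10 [(z1,[y1,z0,z1]),(z1,[z0,z1]),(z1,[z1])],.contra [z1],.ref k25 k8 [(z1,[z0,z1]),(z1,[z0,z0,
    z1]),(z1,[z1,z0,y1])],.ref k0 k1 [(z1,[z1])],.ref k13 k8 [(z1,[z0,z1]),(z1,[z0,z0,z1]),(z1,[z1,z0,y2])],
    .contra [y1,z0,z2]]),
    .old (.tor k4 true k4 [(z1,[z1,z1]),(z1,[z1,z0,z1]),(z1,[z0,z0,z1]),(z1,[y2,y1,y2,z2])]),
    .old (.tor k8 false k1 [(z1,[z0,z2,z1]),(z1,[z1,z0,z1]),(z1,[y1,y1,y1,z1]),(z1,[z0,y1,y1,z1])]),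
    .geo true z3 k4 [(z2,z6),(z2,y3),(z4,y6),(z2,z0),(z0,z3),(z2,z0)] [(z1,[z1]),(z1,[z0,z1]),(z1,[z0,z0,z1]),(z1,[z0,z0,
    z0,z1]),(z1,[]),(z1,[y1,y1,y1,y1,
    z3])] z0 (Int.ofNat (nat_lit 699051)) (.s (.s (.l k1) (.s (.l k1) (.l k1))) (.s (.s (.l k1) (.l k1)) (.l k1))) [],
    .geo true z2 k5 [(y4,z6),(z4,y4),(z4,y3),(z4,y2),(z0,z1),(z0,z2)] [(z1,[z2]),(z1,[z0,z2]),(z1,[z0,z0,z1]),(z1,[z0,z0,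
    z0,z2]),(z1,[y2,y2,y1,y2,z2]),(z1,
    [])] (Int.ofNat (nat_lit 699050)) (Int.ofNat (nat_lit 1048576)) (.s (.l k1) (.s (.l k1) (.l k1))) [],
    .geo true z1 k5 [(z0,z2),(z2,y6),(z0,z2),(z0,z3),(z2,y2),(z0,z1)] [(z1,[z1]),(z1,[z0,z1]),(z1,[z0,z0,z1]),(z1,[z0,z0,
    z0,z1]),(z1,[y1,y1,y1,y1,z1]),(z1,
    [])] z0 (Int.ofNat (nat_lit 349526)) (.s (.s (.s (.s (.s (.l k2) (.l k1)) (.l k1)) (.l k1)) (.s (.l k1) (.l k1))) (.s (.l k1) (.l k1))) [⟨z0,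
    z1,[[k0,k1],[k2,k3],[k4,k5]],.bnd k0⟩],
    .old (.lp [(nat_lit 428),(nat_lit 320),(nat_lit 342),(nat_lit 210),(nat_lit 320),(nat_lit 298)] [k72,k4,k92,k92,k0,
    k162,k147,k147,k92,k92,k103,k103] k0 [[k0,k0,k0,k0,k18,k0,k0,k0,k6],[k0,k0,k0,k128],[k128,k0,k0,k0,k0,k0,k66],[k0,
    k0,k0,k0,k0,k0,k0,k0,k0,k2,k0,k20],[k0,k0,k0,k0,k0,k0,(nat_lit 220)],[k0,k18,k0,k0,k0,k0,k0,k0,k0,k0,k0,k62],[k0,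
    k0,k0,k0,k0,k0,k0,k0,k0,k0,k22],[k0,k0,k0,k66,k0,(nat_lit 220)],[k0,k0,k2,k0,k0,k0,k0,k0,k0,k0,(nat_lit 216)],[k0,
    k6],[k0,k0,k20,k0,k62],[k0,k0,k0,k0,k0,k0,k0,k22,k0,(nat_lit 216)]] (nat_lit 960) k6
    [[(k8,k192),(k6,(nat_lit 331)),(k10,(nat_lit 397)),(k0,(nat_lit 428)),(k2,(nat_lit 428)),(k4,(nat_lit 562))],[(k7,
    (nat_lit 267)),(k11,(nat_lit 323)),(k3,(nat_lit 340)),(k9,(nat_lit 340)),(k5,(nat_lit 398)),(k1,(nat_lit 428))],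
    [(k2,k192),(k6,(nat_lit 265)),(k10,(nat_lit 309)),(k8,(nat_lit 326)),(k0,(nat_lit 340)),(k4,(nat_lit 430))],[(k3,
    k192),(k5,(nat_lit 250)),(k9,(nat_lit 254)),(k7,(nat_lit 265)),(k11,(nat_lit 311)),(k1,(nat_lit 428))],[(k10,
    (nat_lit 219)),(k8,(nat_lit 248)),(k2,(nat_lit 250)),(k6,(nat_lit 261)),(k4,(nat_lit 342)),(k0,(nat_lit 398))],
    [(k9,k192),(k5,(nat_lit 342)),(k7,(nat_lit 357)),(k11,(nat_lit 401)),(k3,(nat_lit 430)),(k1,(nat_lit 562))],[(k10,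
    k192),(k2,(nat_lit 265)),(k8,(nat_lit 265)),(k0,(nat_lit 267)),(k4,(nat_lit 357)),(k6,(nat_lit 430))],[(k11,
    (nat_lit 254)),(k5,(nat_lit 261)),(k3,(nat_lit 265)),(k9,(nat_lit 265)),(k1,(nat_lit 331)),(k7,(nat_lit 430))],
    [(k4,k192),(k2,(nat_lit 254)),(k6,(nat_lit 265)),(k8,(nat_lit 320)),(k10,(nat_lit 331)),(k0,(nat_lit 340))],[(k1,
    k192),(k5,(nat_lit 248)),(k7,(nat_lit 265)),(k11,(nat_lit 309)),(k9,(nat_lit 320)),(k3,(nat_lit 326))],[(k6,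
    (nat_lit 254)),(k8,(nat_lit 309)),(k2,(nat_lit 311)),(k0,(nat_lit 323)),(k4,(nat_lit 401)),(k10,(nat_lit 514))],
    [(k7,k192),(k5,(nat_lit 219)),(k3,(nat_lit 309)),(k9,(nat_lit 331)),(k1,(nat_lit 397)),(k11,(nat_lit 514))]]
    [] k0
    [[k2,k0,k0,k0,k0,k0],[k1,k1,k0,k0,k0,k0],[k1,k0,k0,k1,k0,k0],[k1,k1,k0,k1,k0,k0],[k1,k0,k0,k1,k1,k0],[k1,k0,k0,k1,
    k0,k1],[k1,k0,k0,k0,k1,k0],[k1,k1,k0,k0,k1,k0],[k1,k0,k1,k0,k1,k0],[k1,k0,k1,k1,k1,k0],[k1,k0,k1,k0,k1,k1],[k1,k0,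
    k0,k0,k2,k0],[k1,k0,k0,k0,k1,k1],[k1,k0,k0,k0,k0,k1],[k0,k2,k0,k0,k0,k0],[k0,k3,k0,k0,k0,k0],[k0,k4,k0,k0,k0,k0],
    [k0,k3,k0,k1,k0,k0],[k0,k2,k1,k0,k0,k0],[k0,k2,k0,k1,k0,k0],[k0,k2,k0,k0,k1,k0],[k0,k2,k0,k0,k0,k1],[k0,k1,k1,k0,
    k0,k0],[k0,k1,k1,k1,k0,k0],[k0,k1,k1,k0,k1,k0],[k0,k1,k0,k1,k0,k0],[k0,k1,k0,k1,k1,k0],[k0,k1,k0,k1,k0,k1],[k0,k1,
    k0,k0,k1,k0],[k0,k1,k0,k0,k2,k0],[k0,k1,k0,k0,k0,k1],[k0,k1,k0,k0,k1,k1],[k0,k0,k2,k0,k0,k0],[k0,k0,k2,k0,k1,k0],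
    [k0,k0,k1,k1,k0,k0],[k0,k0,k1,k1,k1,k0],[k0,k0,k1,k1,k0,k1],[k0,k0,k1,k1,k1,k1],[k0,k0,k1,k0,k1,k0],[k0,k0,k2,k0,
    k2,k0],[k0,k0,k1,k0,k2,k0],[k0,k0,k1,k0,k0,k1],[k0,k0,k1,k0,k1,k1],[k0,k0,k0,k2,k0,k0],[k0,k0,k0,k2,k0,k1],[k0,k0,
    k0,k1,k1,k0],[k0,k0,k0,k1,k2,k0],[k0,k0,k0,k1,k1,k1],[k0,k0,k0,k1,k0,k1],[k0,k0,k0,k2,k0,k2],[k0,k0,k0,k0,k2,k0],
    [k0,k0,k0,k0,k1,k1]]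
    [.contra [z1],.contra [y1,z1,z2],.ref k1 k2 [(z1,[z1])],.ref k63 k2 [(z1,[z1,z1,z0,z1,y1]),(z1,[y1,z0,z2,y1,z1]),
    (z1,[y1,z0,z0,z0,z1])],.ref k66 k0 [(z1,[z2,y1,z1,y2,y1]),(z1,[y1,z0,y1,z1,z1]),(z1,[y2,z0,y2,z1,z2]),(z1,[z0,z1,
    z0,z1])],.ref k1 k1 [(z1,[y1,z0,y1,z0,z1])],.ref k67 k9 [(z1,[z0,z0,y2,z1]),(z1,[y2,z1,z5,y1,z1]),(z1,[z1,y1,y2]),
    (z1,[z1,y1,y3])],.ref k0 k2 [(z1,[z1,z0,y1])],.contra [z1,y1,z0,y1],.contra [z2,z0,z1,y1,y1],.contra [z1,y1,z1,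
    y1],.ref k0 k2 [(z2,[z1,z1])],.ref k3 k2 [(z1,[z1])],.ref k0 k2 [(z1,[z1])],.contra [z1],.ref k0 k9 [(z1,[z1,z0,
    y2,z1])],.contra [y1,z2,z4],.ref k3 k2 [(z1,[y1,z0,z2,y1,z1])],.contra [y1,z2,z2,z1],.contra [y1,y1,z1,y1,z1],
    .contra [y2,z0,z3,y1,z1],.ref k1 k1 [(z1,[z1,z0,y2,z1])],.ref k0 k9 [(z1,[z1])],.ref k3 k2 [(z1,[y1,z0,z0,z0,
    z1])],.ref k1 k1 [(z1,[z1,z0,y1])],.contra [y1,y1,z1,y1,z1],.contra [y1,y1,z1,y1,z1],.contra [y1,y1,z0,y1,z1],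
    .contra [y2,z0,z3,y1,z1],.contra [y1,y1,z1,y1,z1],.contra [y2,z0,z1,y1,z1],.contra [z1,z0,y1],.contra [y1,z2,z0,
    z2],.ref k66 k0 [(z1,[y2,y1,y1,z0,z1]),(z1,[z1]),(z1,[z2,z0,z0,y1]),(z1,[z0,z1,z0,z1])],.contra [y1,y1,y1,z0,z1],
    .contra [y1,y1,y1,z0,z1],.ref k0 k2 [(z1,[y1,z0,y1,z0,z1])],.contra [z1,z1,z2,z0,y1],.contra [y2,z0,y1,z1,z1],
    .ref k1 k2 [(z1,[y1,z0,y1,z1,z1])],.contra [z1,z0,z0,y1],.ref k1 k1 [(z1,[z1])],.ref k63 k2 [(z1,[y1,z1,z0,z1]),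
    (z1,[z1,z0,z2,y1]),(z1,[z1])],.contra [z1],.ref k65 k2 [(z1,[z2,z7,z4,z4,y4]),(z1,[y1,y2,z1,y2,z2]),(z1,[y2,y4,y4,
    y1,z4]),(z1,[z2,z1,z1,z1,y1])],.contra [y1,y1,z1,y1,z1],.contra [y1,y1,z1,y1,z1],.contra [y1,y1,z0,y1,z1],
    .contra [y1,y1,z0,y1,z1],.contra [y1,y2,y2,y2,z2],.contra [z1],.contra [y1,y1,z0,y1,z1]]),
    .geo true z1 k5 [(y4,z6),(y2,z3),(z6,y6),(z2,y2),(z2,y2),(z0,z1)] [(z1,[z1]),(z1,[z0,z1]),(z1,[z0,z0,z1]),(z1,[z0,z0,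
    z0,z1]),(z1,[y1,y1,y1,y1,z1]),(z1,
    [])] (Int.ofNat (nat_lit 699050)) (Int.ofNat (nat_lit 1048576)) (.s (.s (.s (.l k1) (.l k1)) (.s (.s (.l k1) (.l k1)) (.l k1))) (.s (.l k1) (.s (.l k1) (.l k2)))) [⟨z1,
    z1,[[k0,k2],[k1,k4],[k3,k5]],.bnd k0⟩],
    .geo true z1 k5 [(z0,z2),(z2,y4),(z2,y5),(y2,z8),(z2,y2),(z0,z1)] [(z1,[z1]),(z1,[z0,z1]),(z1,[z0,z0,z1]),(z1,[z0,z0,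
    z0,z1]),(z1,[y1,y1,y1,y1,z1]),(z1,
    [])] (Int.ofNat (nat_lit 262144)) (Int.ofNat (nat_lit 419431)) (.s (.s (.l k1) (.s (.s (.l k1) (.l k1)) (.l k1))) (.l k1)) [],
    .geo true z1 k5 [(y2,z4),(y1,z2),(z4,y4),(z2,y2),(z1,y1),(z0,z1)] [(z1,[z1]),(z1,[z0,z1]),(z1,[z0,z0,z1]),(z1,[z0,z0,
    z0,z1]),(z1,[y1,y1,y1,y1,z1]),(z1,
    [])] (Int.ofNat (nat_lit 524288)) (Int.ofNat (nat_lit 1048576)) (.s (.s (.l k1) (.s (.l k1) (.l k1))) (.s (.l k1) (.s (.l k1) (.l k2)))) [⟨z1,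
    z1,[[k0,k2],[k1,k4],[k3,k5]],.bnd k0⟩]]

noncomputable def cU6_3_n0_6 : List XN :=
  [.geo true z1 k5 [(y2,z4),(y2,z6),(z2,y3),(z4,y6),(z2,y2),(z0,z1)] [(z1,[z1]),(z1,[z0,z1]),(z1,[z0,z0,z1]),(z1,[z0,z0,
    z0,z1]),(z1,[y1,y1,y1,y1,z1]),(z1,
    [])] (Int.ofNat (nat_lit 524288)) (Int.ofNat (nat_lit 699051)) (.s (.s (.l k1) (.l k1)) (.l k1)) [],
    .geo true z5 k4 [(z2,z10),(z4,y5),(z8,y10),(z4,z0),(z0,z5),(z2,z0)] [(z1,[z1]),(z1,[z0,z1]),(z1,[z0,z0,z1]),(z1,[z0,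
    z0,z0,z1]),(z1,[]),(z1,[y1,y1,y1,y1,
    z5])] z0 (Int.ofNat (nat_lit 838861)) (.s (.s (.l k1) (.l k1)) (.s (.s (.s (.l k1) (.s (.l k1) (.s (.l k1) (.l k1)))) (.s (.s (.s (.l k1) (.l k1)) (.l k1)) (.l k1))) (.l k1))) [],
    .geo true z3 k5 [(y4,z6),(y2,z3),(z10,y6),(z6,y6),(z2,z0),(z0,z3)] [(z1,[z1]),(z1,[z0,z1]),(z1,[z0,z0,z1]),(z1,[z0,z0,
    z0,z3]),(z1,[y1,y1,y1,y3,z3]),(z1,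
    [])] (Int.ofNat (nat_lit 699050)) (Int.ofNat (nat_lit 1048576)) (.s (.l k1) (.l k1)) [],
    .geo true z1 k5 [(y2,z4),(z2,y2),(y2,z6),(z2,y3),(z4,y6),(z0,z1)] [(z1,[z1]),(z1,[z0,z1]),(z1,[z0,z0,z1]),(z1,[z0,z0,
    z0,z1]),(z1,[y1,y1,y1,y1,z1]),(z1,
    [])] (Int.ofNat (nat_lit 524288)) (Int.ofNat (nat_lit 699051)) (.s (.l k1) (.l k1)) [],
    .geo true z1 k5 [(y4,z6),(z2,y2),(y6,z10),(z4,y5),(z8,y10),(z0,z1)] [(z1,[z1]),(z1,[z0,z1]),(z1,[z0,z0,z1]),(z1,[z0,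
    z0,z0,z1]),(z1,[y1,y1,y1,y1,z1]),(z1,
    [])] (Int.ofNat (nat_lit 699050)) (Int.ofNat (nat_lit 838861)) (.s (.s (.l k1) (.l k1)) (.s (.l k1) (.l k1))) [],
    .geo true z4 k4 [(z2,z8),(z3,y4),(z6,y8),(z3,z0),(z0,z4),(z2,z0)] [(z1,[z2]),(z1,[z0,z1]),(z1,[z0,z0,z2]),(z1,[z0,z0,
    z0,z1]),(z1,[]),(z1,[y2,y1,y2,y1,
    z4])] z0 (Int.ofNat (nat_lit 786432)) (.s (.s (.l k1) (.l k1)) (.s (.s (.s (.l k1) (.l k1)) (.s (.l k1) (.l k1))) (.l k1))) [],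
    .old (.lp [(nat_lit 1152),(nat_lit 436),(nat_lit 724),(nat_lit 396),(nat_lit 692),(nat_lit 428)] [k0,k0,(nat_lit 358),
    (nat_lit 358),(nat_lit 214),(nat_lit 214),(nat_lit 378),(nat_lit 378),(nat_lit 388),k72,(nat_lit 362),
    (nat_lit 362)] k0 [[k0,k0,k0,k0,k128,k0,k0,k0,k0,k0,(nat_lit 538)],[k0,k0,k0,k40,k0,k0,k0,k32],[k40,k0,k0,k0,k0,
    k0,k0,k0,k0,k0,k70],[k0,k0,k0,k0,k0,k0,k0,k0,k0,k134],[k0,k0,k0,k0,k0,k0,(nat_lit 482)],[k0,k128],[k32],[k0,k0,k0,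
    k0,k0,(nat_lit 482),k0,k0,k0,(nat_lit 212)],[k0,k0,k134,k0,k0,k0,(nat_lit 212)],[k0,k0,k0,k0,k0,k0,k0,k0,k0,k0,k0,
    k44],[k0,k0,k0,k0,k0,k0,k0,k0,k44],[k0,(nat_lit 538),k0,k70]] (nat_lit 1920) k6
    [[(k0,(nat_lit 614)),(k2,(nat_lit 724)),(k6,(nat_lit 774)),(k10,(nat_lit 790)),(k8,(nat_lit 808)),(k4,
    (nat_lit 938))],[(k1,(nat_lit 614)),(k7,(nat_lit 646)),(k11,(nat_lit 790)),(k3,(nat_lit 794)),(k5,(nat_lit 978)),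
    (k9,(nat_lit 1112))],[(k6,(nat_lit 384)),(k2,(nat_lit 396)),(k8,(nat_lit 406)),(k4,(nat_lit 708)),(k0,
    (nat_lit 794)),(k10,(nat_lit 970))],[(k3,(nat_lit 396)),(k7,(nat_lit 416)),(k11,(nat_lit 566)),(k5,(nat_lit 580)),
    (k9,(nat_lit 722)),(k1,(nat_lit 724))],[(k8,(nat_lit 416)),(k6,(nat_lit 560)),(k2,(nat_lit 580)),(k10,
    (nat_lit 646)),(k4,(nat_lit 724)),(k0,(nat_lit 978))],[(k9,(nat_lit 384)),(k7,(nat_lit 560)),(k11,(nat_lit 576)),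
    (k3,(nat_lit 708)),(k5,(nat_lit 724)),(k1,(nat_lit 938))],[(k8,(nat_lit 386)),(k10,(nat_lit 412)),(k2,
    (nat_lit 416)),(k4,(nat_lit 560)),(k0,(nat_lit 646)),(k6,(nat_lit 878))],[(k3,(nat_lit 384)),(k5,(nat_lit 560)),
    (k11,(nat_lit 624)),(k9,(nat_lit 702)),(k1,(nat_lit 774)),(k7,(nat_lit 878))],[(k4,(nat_lit 384)),(k8,
    (nat_lit 480)),(k6,(nat_lit 702)),(k10,(nat_lit 718)),(k2,(nat_lit 722)),(k0,(nat_lit 1112))],[(k7,(nat_lit 386)),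
    (k11,(nat_lit 402)),(k3,(nat_lit 406)),(k5,(nat_lit 416)),(k9,(nat_lit 480)),(k1,(nat_lit 808))],[(k10,
    (nat_lit 384)),(k8,(nat_lit 402)),(k2,(nat_lit 566)),(k4,(nat_lit 576)),(k6,(nat_lit 624)),(k0,(nat_lit 790))],
    [(k11,(nat_lit 384)),(k7,(nat_lit 412)),(k5,(nat_lit 646)),(k9,(nat_lit 718)),(k1,(nat_lit 790)),(k3,
    (nat_lit 970))]]
    [[k0,k2,k2],[k0,k4],[k1,k3,k3],[k1,k5],[k4,k10,k8,k8],[k5,k9,k9,k11],[k6,k6,k10],[k6,k10,k6],[k7,k7,k11],[k7,k11,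
    k7]] k2
    [[k2,k0,k0,k0,k0,k0],[k3,k0,k0,k0,k0,k0],[k1,k1,k0,k0,k0,k0],[k1,k1,k0,k1,k0,k0],[k1,k0,k0,k1,k0,k0],[k1,k0,k0,k0,
    k0,k1],[k0,k2,k0,k0,k0,k0],[k0,k3,k0,k0,k0,k0],[k0,k4,k0,k0,k0,k0],[k0,k3,k0,k1,k0,k0],[k0,k2,k1,k0,k0,k0],[k0,k2,
    k0,k1,k0,k0],[k0,k2,k0,k1,k1,k0],[k0,k2,k0,k1,k0,k1],[k0,k2,k0,k0,k1,k0],[k0,k2,k1,k0,k1,k0],[k0,k1,k1,k0,k0,k0],
    [k0,k1,k1,k1,k0,k0],[k0,k1,k1,k0,k1,k0],[k0,k1,k0,k1,k0,k0],[k0,k2,k0,k2,k0,k0],[k0,k1,k0,k2,k0,k0],[k0,k1,k0,k1,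
    k1,k0],[k0,k1,k1,k1,k1,k0],[k0,k1,k0,k2,k1,k0],[k0,k1,k0,k1,k0,k1],[k0,k1,k0,k2,k0,k1],[k0,k1,k0,k1,k0,k2],[k0,k1,
    k0,k0,k1,k0],[k0,k1,k0,k0,k2,k0],[k0,k1,k1,k0,k2,k0],[k0,k1,k0,k0,k1,k1],[k0,k1,k0,k0,k0,k1],[k0,k0,k2,k0,k0,k0],
    [k0,k0,k2,k1,k0,k0],[k0,k0,k2,k0,k1,k0],[k0,k0,k1,k1,k0,k0],[k0,k0,k1,k1,k1,k0],[k0,k0,k1,k1,k2,k0],[k0,k0,k1,k1,
    k0,k1],[k0,k0,k1,k1,k1,k1],[k0,k0,k1,k0,k1,k0],[k0,k0,k2,k0,k2,k0],[k0,k0,k1,k0,k2,k0],[k0,k0,k1,k0,k3,k0],[k0,k0,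
    k1,k0,k1,k1],[k0,k0,k1,k0,k0,k1],[k0,k0,k1,k0,k0,k2],[k0,k0,k1,k0,k1,k2],[k0,k0,k0,k2,k0,k0],[k0,k0,k0,k1,k1,k0],
    [k0,k0,k0,k1,k2,k0],[k0,k0,k0,k1,k1,k1],[k0,k0,k0,k1,k0,k1],[k0,k0,k0,k1,k0,k2],[k0,k0,k0,k1,k1,k2],[k0,k0,k0,k1,
    k0,k3],[k0,k0,k0,k0,k2,k0],[k0,k0,k0,k0,k3,k0],[k0,k0,k0,k0,k2,k1],[k0,k0,k0,k0,k1,k1],[k0,k0,k0,k0,k1,k2],[k0,k0,
    k0,k0,k1,k3],[k0,k0,k0,k0,k0,k2],[k0,k0,k0,k0,k0,k3],[k0,k0,k0,k0,k0,k4]]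
    [.contra [z1],.ref k0 k9 [(z2,[y1,z3,z1,z2])],.contra [y1,z1,z1],.contra [z1,z0,z0,z1,y1],.ref k1 k2 [(z1,[z1])],
    .ref k0 k2 [(z1,[z1])],.contra [z1],.ref k0 k9 [(z1,[z1,z0,y1,z1])],.contra [y1,z2,z2],.ref k3 k2 [(z1,[y1,z0,z1,
    y1,z1])],.contra [y1,z2,z1,z1],.ref k0 k0 [(z1,[z1,z0,y1,z1])],.ref k3 k4 [(z1,[z1,z0,y1,z1])],.ref k1 k2 [(z1,
    [y1,y1,z0,y2,z2])],.contra [y2,z1,z2],.ref k3 k2 [(z1,[y1,z1,z1,z1])],.ref k0 k9 [(z1,[z1])],.ref k3 k2 [(z1,[y1,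
    z0,z0,z0,z1])],.ref k0 k0 [(z1,[z1,y1,y1,y1,z1])],.contra [y2,y1,z0,y2,z2],.ref k0 k2 [(z1,[y1,y1,z0,y2,z2])],
    .ref k3 k4 [(z1,[z1,z1,z0,z2,y1])],.contra [z1,y1,y1,y1,z1],.ref k0 k2 [(z1,[y1,z0,z0,z0,z1])],.ref k68 k2 [(z1,
    [y2,y3,y1,y4,z4]),(z1,[z1,z2,z1,z2,y2]),(z1,[z2,z4,z1,z5,y4])],.contra [y1,y1,z0,y1,z1],.contra [z1,z2,z1,z2,y2],
    .ref k69 k3 [(z1,[z2,z8,z3,z9,y8]),(z1,[z1,z4,z2,z4,y4]),(z1,[y2,y7,y3,y8,z8]),(z1,[z0,y2,y1,y2,z2])],.contra [y2,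
    z1,z2],.contra [y1,z0,z1],.ref k3 k4 [(z1,[z1,y1,y1,y1,z1])],.contra [y1,y1,z0,y1,z1],.contra [y1,y1,z0,y1,z1],
    .contra [y1,z2,z0,z2],.ref k70 k9 [(z1,[z0,z0,y1,z1]),(z1,[z1,z0,z2,y2]),(z1,[z1,z1,z3,y1,y1]),(z1,[y2,y2,y5,z2,
    z2])],.ref k3 k2 [(z1,[y1,z1,z0,z2])],.ref k0 k0 [(z1,[z1])],.ref k3 k4 [(z1,[z1])],.ref k68 k2 [(z1,[y2,y1,y1,z0,
    z2]),(z1,[z1,z1,z1,z0,y1]),(z1,[z2,z2,z1,z1,y2])],.ref k1 k2 [(z1,[y1,y1,y1,y1,z2])],.contra [z1,z1,z1,z0,y1],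
    .contra [y2,z1,z0,z2],.ref k0 k2 [(z1,[y1,z1,z0,z2])],.contra [z1,y2,y1,y3,z2],.ref k69 k3 [(z1,[y2,z6,z3,z9,y6]),
    (z1,[y1,z3,z2,z4,y3]),(z1,[z2,y5,y3,y8,z6]),(z1,[z0,y2,y1,y2,z2])],.contra [y1,z0,z0,z1],.contra [y1,z0,z0,z1],
    .ref k71 k3 [(z1,[z1,z4,z2,z4,y4]),(z2,[z1,z4,z3,z3,y4]),(z1,[y1,y3,y2,y3,z4]),(z1,[z0,y2,y1,y2,z2])],
    .ref k69 k3 [(z1,[z2,z6,z3,z5,y6]),(z1,[z1,z3,z2,z2,y3]),(z1,[y2,y5,y3,y4,z6]),(z1,[z0,y2,y1,y2,z2])],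
    .contra [z1],.contra [y1,y1,z0,y1,z1],.ref k72 k1 [(z1,[y2,y2,y1,y2,z2]),(z1,[y2,y1,y1,y2,z2]),(z1,[z1,z1,z1,z1,
    y1]),(z1,[z2,z2,z1,z3,y2])],.contra [y1,y1,z0,y1,z1],.contra [y1,y2,y1,y2,z2],.ref k68 k2 [(z1,[z2,z3,z1,z2,y2]),
    (z1,[y1,y1,z0,y1,z1]),(z1,[y2,y2,y1,y1,z2])],.ref k3 k4 [(z1,[y1,y2,y1,y1,z2])],.ref k73 k2 [(z1,[z2,z7,z1,z2,
    y2]),(z1,[y1,y1,z2,y1,z1]),(z1,[y2,y2,y1,z3,z2]),(z1,[y1,y6,y3,y6,z6])],.contra [z1],.ref k74 k3 [(z1,[y2,z6,z3,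
    z9,y6]),(z1,[y1,z3,z3,z3,y3]),(z1,[z2,y3,y3,y6,z6]),(z1,[z0,y2,y1,y2,z2])],.contra [y1,z0,z1],.contra [y1,y1,z0,
    y1,z1],.ref k75 k4 [(z1,[z1,z4,z2,z4,y4]),(z1,[z0,y2,y1,y2,z2]),(z1,[z2,z7,z3,z6,y6]),(z1,[y1,y3,y1,y3,z3])],
    .ref k76 k4 [(z1,[z1,z6,z3,z6,y6]),(z1,[z0,y2,y1,y2,z2]),(z1,[z2,z11,z5,z10,y10]),(z1,[y1,y5,y2,y5,z5])],
    .contra [z1],.ref k68 k2 [(z1,[z1,z1]),(z2,[y1,z0,z1]),(z1,[y1,z0,z0,z1])],.ref k77 k2 [(z2,[z1,z4]),(z2,[y1,z0,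
    z4]),(z2,[y1,z0,z0,z4]),(z2,[y1,y8,y4,y8,z8])]]),
    .old (.leafM k11 [k2,k3,k4,k0] [(z1,[y1,y3,y3,z3]),(z1,[z1]),(z1,[z0,z0,z1])] [(k5,k1,z1,[z0,z1]),(k1,k5,z1,[z0,z1])]),
    .geo true z1 k5 [(y2,z4),(z2,y2),(z4,y4),(z1,y1),(y1,z2),(z0,z1)] [(z1,[z1]),(z1,[z0,z1]),(z1,[z0,z0,z1]),(z1,[z0,z0,
    z0,z1]),(z1,[y1,y1,y1,y1,z1]),(z1,
    [])] (Int.ofNat (nat_lit 524288)) (Int.ofNat (nat_lit 1048576)) (.s (.s (.s (.s (.l k2) (.l k1)) (.l k1)) (.s (.l k1) (.l k1))) (.s (.s (.l k1) (.l k1)) (.s (.l k1) (.l k1)))) [⟨z1,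
    z2,[[k0,k2],[k1,k5],[k3,k4]],.bnd k0⟩],
    .geo true z1 k5 [(y1,z3),(z0,z2),(z1,y1),(z2,y2),(z2,y3),(z0,z1)] [(z1,[z1]),(z1,[z0,z1]),(z1,[z0,z0,z1]),(z1,[z0,z0,
    z0,z1]),(z1,[y1,y1,y1,y1,z1]),(z1,
    [])] (Int.ofNat (nat_lit 349525)) (Int.ofNat (nat_lit 699051)) (.s (.l k1) (.s (.l k1) (.l k1))) [],
    .old (.lp [(nat_lit 25165236),(nat_lit 18076168),(nat_lit 22967816),(nat_lit 20770396),(nat_lit 18324572),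
    (nat_lit 13805530)] [(nat_lit 2221305),(nat_lit 2221305),(nat_lit 4767439),(nat_lit 6764239),(nat_lit 3320015),
    (nat_lit 3320015),(nat_lit 8837450),k0,(nat_lit 5641637),(nat_lit 5641637),(nat_lit 7901158),
    (nat_lit 7901158)] k0 [[k0,k0,k0,k0,k0,k0,k0,k0,(nat_lit 4394840)],[k0,k0,k0,(nat_lit 1700612),k0,
    (nat_lit 4394840)],[(nat_lit 1700612),k0,k0,k0,k0,k0,k0,k0,(nat_lit 5015850)],[k0,k0,k0,k0,k0,k0,k0,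
    (nat_lit 2445824)],[(nat_lit 4394840)],[k0,k0,k0,k0,k0,k0,k0,k0,k0,k0,k0,(nat_lit 9783296)],[k0,k0,
    (nat_lit 2445824),k0,k0,k0,k0,k0,k0,k0,(nat_lit 4643244)],[k0,k0,k0,k0,k0,k0,k0,k0,k0,(nat_lit 5015850)],[k0,k0,
    k0,k0,k0,k0,(nat_lit 5015850),k0,k0,k0,(nat_lit 9038084)],[k0,(nat_lit 4394840),k0,(nat_lit 5015850)],[k0,k0,k0,
    k0,(nat_lit 9783296)],[k0,k0,k0,k0,k0,k0,k0,(nat_lit 4643244),k0,(nat_lit 9038084)]] (nat_lit 59616960) k6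
    [[(k8,(nat_lit 12706820)),(k6,(nat_lit 13905847)),(k10,(nat_lit 19485383)),(k2,(nat_lit 22619102)),(k0,
    (nat_lit 25165236)),(k4,(nat_lit 33849822))],[(k11,(nat_lit 15090543)),(k3,(nat_lit 20622302)),(k9,
    (nat_lit 21744904)),(k1,(nat_lit 25165236)),(k5,(nat_lit 25767138)),(k7,(nat_lit 31781381))],[(k6,
    (nat_lit 14006157)),(k10,(nat_lit 14942449)),(k4,(nat_lit 15128752)),(k2,(nat_lit 16375556)),(k0,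
    (nat_lit 20622302)),(k8,(nat_lit 21596810))],[(k11,(nat_lit 11923399)),(k3,(nat_lit 16375556)),(k5,
    (nat_lit 21520392)),(k9,(nat_lit 21644594)),(k1,(nat_lit 22619102)),(k7,(nat_lit 24840407))],[(k6,
    (nat_lit 15004557)),(k10,(nat_lit 18386673)),(k2,(nat_lit 21520392)),(k4,(nat_lit 22967816)),(k8,
    (nat_lit 25662044)),(k0,(nat_lit 25767138))],[(k3,(nat_lit 15128752)),(k11,(nat_lit 18386673)),(k9,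
    (nat_lit 20646194)),(k5,(nat_lit 22967816)),(k7,(nat_lit 26287831)),(k1,(nat_lit 33849822))],[(k10,
    (nat_lit 11923392)),(k6,(nat_lit 20770396)),(k8,(nat_lit 23966209)),(k2,(nat_lit 24840407)),(k4,
    (nat_lit 26287831)),(k0,(nat_lit 31781381))],[(k1,(nat_lit 13905847)),(k3,(nat_lit 14006157)),(k5,
    (nat_lit 15004557)),(k9,(nat_lit 15128759)),(k11,(nat_lit 17885088)),(k7,(nat_lit 20770396))],[(k8,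
    (nat_lit 13308722)),(k6,(nat_lit 15128759)),(k4,(nat_lit 20646194)),(k10,(nat_lit 20708295)),(k2,
    (nat_lit 21644594)),(k0,(nat_lit 21744904))],[(k1,(nat_lit 12706820)),(k9,(nat_lit 13308722)),(k11,
    (nat_lit 16065051)),(k3,(nat_lit 21596810)),(k7,(nat_lit 23966209)),(k5,(nat_lit 25662044))],[(k2,
    (nat_lit 11923399)),(k0,(nat_lit 15090543)),(k8,(nat_lit 16065051)),(k6,(nat_lit 17885088)),(k4,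
    (nat_lit 18386673)),(k10,(nat_lit 22843614))],[(k7,(nat_lit 11923392)),(k3,(nat_lit 14942449)),(k5,
    (nat_lit 18386673)),(k1,(nat_lit 19485383)),(k9,(nat_lit 20708295)),(k11,(nat_lit 22843614))]]
    [] k0
    [[k2,k0,k0,k0,k0,k0],[k1,k1,k0,k0,k0,k0],[k1,k1,k0,k0,k0,k1],[k1,k0,k0,k1,k0,k0],[k1,k1,k0,k1,k0,k0],[k1,k0,k0,k1,
    k0,k1],[k1,k1,k0,k1,k0,k1],[k1,k0,k0,k0,k1,k0],[k1,k1,k0,k0,k1,k0],[k1,k0,k1,k0,k1,k0],[k1,k0,k0,k1,k1,k1],[k1,k0,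
    k0,k0,k2,k0],[k1,k0,k0,k0,k1,k1],[k1,k0,k0,k0,k0,k1],[k1,k0,k0,k0,k0,k2],[k0,k2,k0,k0,k0,k0],[k0,k3,k0,k0,k0,k0],
    [k0,k2,k1,k0,k0,k0],[k0,k2,k0,k1,k0,k0],[k0,k2,k0,k1,k0,k1],[k0,k2,k0,k0,k0,k1],[k0,k1,k1,k0,k0,k0],[k0,k1,k1,k1,
    k0,k0],[k0,k1,k1,k1,k0,k1],[k0,k1,k1,k0,k0,k1],[k0,k1,k0,k1,k0,k0],[k0,k1,k0,k2,k0,k1],[k0,k1,k0,k1,k0,k1],[k0,k1,
    k0,k0,k1,k0],[k0,k1,k0,k0,k2,k0],[k0,k1,k0,k0,k1,k1],[k0,k1,k0,k0,k0,k1],[k0,k2,k0,k0,k0,k2],[k0,k1,k0,k1,k0,k2],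
    [k0,k1,k0,k0,k0,k2],[k0,k0,k2,k0,k0,k0],[k0,k0,k1,k1,k0,k0],[k0,k0,k1,k1,k0,k1],[k0,k0,k1,k0,k1,k0],[k0,k0,k1,k0,
    k0,k1],[k0,k0,k1,k0,k1,k1],[k0,k0,k0,k2,k0,k0],[k0,k0,k0,k2,k0,k1],[k0,k0,k0,k1,k1,k0],[k0,k0,k0,k1,k2,k0],[k0,k0,
    k0,k1,k0,k1],[k0,k0,k0,k1,k1,k1],[k0,k0,k0,k1,k2,k1],[k0,k0,k0,k1,k0,k2],[k0,k0,k0,k0,k2,k0],[k0,k0,k0,k0,k3,k0],
    [k0,k0,k0,k0,k4,k0],[k0,k0,k0,k0,k2,k1],[k0,k0,k0,k0,k1,k1],[k0,k0,k0,k0,k0,k2]]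
    [.contra [z1],.contra [z1,y1,y1],.ref k3 k4 [(z1,[y1,z0,z0,z0,z1])],.ref k1 k2 [(z1,[z1])],.ref k63 k2 [(z1,[z1,
    z1,z0,z1,y1]),(z1,[y1,z0,z2,y1,z1]),(z1,[y1,z0,z0,z0,z1])],.contra [z1,z1,z1,z1,y1],.contra [y1,z0,z1,y1,z1],
    .ref k79 k6 [(z1,[y1,z1,z3]),(z1,[z0,z1,z0,z1]),(z1,[z0,y1,y1,y1,z1])],.contra [z1,z0,y1],.contra [y1,z1,z1,z1],
    .ref k0 k9 [(z1,[y1,z0,z0,z0,z1])],.contra [z1,z1],.ref k3 k2 [(z1,[z1])],.ref k0 k2 [(z1,[z1])],.ref k3 k4 [(z2,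
    [y1,y1,y2,z0,z2])],.contra [z1],.ref k0 k9 [(z1,[z1,z0,y2,z1])],.contra [y1,z2,z2,z1],.ref k0 k0 [(z1,[z1,z0,y2,
    z1])],.contra [y1,z0,z1,y1,z1],.ref k1 k1 [(z1,[z1,z0,y2,z1])],.ref k0 k9 [(z1,[z1])],.ref k3 k2 [(z1,[y1,z0,z0,
    z0,z1])],.ref k79 k6 [(z1,[z1,z1,z3,z0,y1]),(z1,[z0,z1,z0,z1]),(z1,[z0,y1,y1,y1,z1])],.ref k81 k1 [(z1,[z1,z0,y1,
    y1]),(z1,[z0,z1]),(z1,[z0,z0,z1]),(z1,[z0,z0,z0,z1])],.contra [y1,y1,z0,y1,z1],.ref k3 k4 [(z1,[z1,z1,z0,z2,y1])],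
    .contra [z1,z1,z1,z1,y1],.contra [y2,z1,z4],.contra [z1,z0,y1],.contra [z1,z0,y1],.contra [y2,y1,z0,y2,z2],
    .ref k63 k2 [(z2,[y1,z2,z2]),(z2,[z1,z0,z2]),(z2,[z1,z0,y2,z2])],.ref k63 k2 [(z1,[y1,z0,z0,y1,z1]),(z1,[z1,z1,z2,
    z1,y1]),(z1,[z1,z1,z0,z2,y1])],.ref k80 k2 [(z1,[y2,z1,z2]),(z1,[z1]),(z1,[z2,z0,y2,z1]),(z1,[z0,y1,y1,y1,z1])],
    .contra [y1,z2,z0,z2],.ref k0 k0 [(z1,[z1])],.contra [y1,z0,y1,z0,z1],.contra [z1,z0,z1,y1],.ref k1 k1 [(z1,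
    [z1])],.ref k63 k2 [(z1,[y1,z1,z0,z1]),(z1,[z1,z0,z2,y1]),(z1,[z1])],.contra [z1],.contra [z1,z1,z1,z1,y1],
    .contra [y1,y1,z0,y1,z1],.ref k1 k2 [(z1,[z1,z1])],.contra [y2,y1,z0,y2,z2],.contra [z1,z1,z1,z1,y1],.contra [z1,
    z2,z1,z1,y1],.contra [z1,z1,z1,z1,y1],.contra [z1],.ref k79 k6 [(z1,[y1,z0,z3]),(z1,[z0,z1,z0,z1]),(z1,[z0,y1,y1,
    y1,z1])],.contra [z1,z2],.ref k0 k2 [(z1,[z1,z1])],.contra [y1,y1,z0,y1,z1],.contra [z1]]),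
    .geo true z2 k5 [(y4,z4),(z4,y2),(z4,y3),(z4,y2),(z0,z1),(z0,z2)] [(z1,[z2]),(z1,[z0,z2]),(z1,[z0,z0,z1]),(z1,[z0,z0,
    z0,z2]),(z1,[y2,y2,y1,y2,z2]),(z1,
    [])] (Int.ofNat (nat_lit 1048576)) (Int.ofNat (nat_lit 1398102)) (.s (.s (.l k1) (.l k1)) (.l k1)) []]

noncomputable def cU6_3_n0_7 : List XN :=
  [.geo true z1 k5 [(y2,z4),(z2,y3),(y2,z4),(z2,y2),(z4,y4),(z0,z1)] [(z1,[z1]),(z1,[z0,z1]),(z1,[z0,z0,z1]),(z1,[z0,z0,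
    z0,z1]),(z1,[y1,y1,y1,y1,z1]),(z1,
    [])] (Int.ofNat (nat_lit 524288)) (Int.ofNat (nat_lit 699051)) (.s (.l k2) (.l k1)) [⟨z1,z2,[[k0,k5],[k1,k2],[k3,
    k4]],.bnd k0⟩],
    .geo true z2 k5 [(z0,z4),(z1,z0),(z4,y4),(y1,z2),(z4,y4),(z0,z2)] [(z1,[z2]),(z1,[z0,z1]),(z1,[z0,z0,z2]),(z1,[z0,z0,
    z0,z1]),(z1,[y2,y1,y2,y1,z2]),(z1,
    [])] (Int.ofNat (nat_lit 524288)) (Int.ofNat (nat_lit 1048576)) (.s (.l k1) (.s (.l k1) (.l k2))) [⟨z1,z1,[[k0,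
    k4],[k1,k2],[k3,k5]],.bnd k0⟩],
    .geo true z1 k5 [(z0,z2),(z1,y1),(z2,y2),(y1,z2),(z2,y2),(z0,z1)] [(z1,[z1]),(z1,[z0,z1]),(z1,[z0,z0,z1]),(z1,[z0,z0,
    z0,z1]),(z1,[y1,y1,y1,y1,z1]),(z1,
    [])] (Int.ofNat (nat_lit 524288)) (Int.ofNat (nat_lit 1048576)) (.s (.s (.l k1) (.l k1)) (.s (.l k1) (.s (.l k1) (.s (.l k1) (.l k2))))) [⟨z1,
    z1,[[k0,k1],[k2,k4],[k3,k5]],.bnd k0⟩],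
    .geo true z2 k5 [(y2,z5),(z4,y2),(z2,y1),(z0,z2),(z4,y6),(z0,z2)] [(z1,[z1]),(z1,[z0,z2]),(z1,[z0,z0,z1]),(z1,[z0,z0,
    z0,z2]),(z1,[y1,y2,y1,y2,z2]),(z1,
    [])] (Int.ofNat (nat_lit 419430)) (Int.ofNat (nat_lit 699051)) (.s (.l k1) (.l k1)) [],
    .geo true z4 k5 [(z2,z0),(z3,z0),(z6,z0),(z3,y4),(z2,z0),(z0,z4)] [(z1,[z2]),(z1,[z0,z1]),(z1,[z0,z0,z2]),(z1,[z0,z0,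
    z0,z1]),(z1,[y2,y1,y2,y1,z4]),(z1,[])] z0 (Int.ofNat (nat_lit 786432)) (.s (.l k1) (.l k1)) [],
    .old (.lp [(nat_lit 1680),(nat_lit 1864),(nat_lit 2288),(nat_lit 1266),(nat_lit 1614),(nat_lit 878)] [(nat_lit 638),
    k0,k46,(nat_lit 408),k15,k15,(nat_lit 638),(nat_lit 414),k66,(nat_lit 638),(nat_lit 720),(nat_lit 720)] k0 [[k0,
    k0,k0,k0,k0,k0,k82,k0,k0,k0,(nat_lit 480)],[k0,k0,k0,(nat_lit 608),k0,(nat_lit 894)],[(nat_lit 608),k0,k0,k0,k0,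
    k0,k0,k0,(nat_lit 592)],[k0,k0,k0,k0,k0,(nat_lit 628),k0,k66],[(nat_lit 894),k0,(nat_lit 628)],[k0,k0,k0,k0,k0,k0,
    k0,(nat_lit 306),k0,k0,k0,(nat_lit 224)],[k0,k0,k66,k0,(nat_lit 306)],[k0,k82],[k0,k0,k0,k0,k0,k0,k0,k0,k0,k0,
    (nat_lit 1292)],[k0,k0,k0,(nat_lit 592)],[k0,k0,k0,k0,(nat_lit 224)],[k0,(nat_lit 480),k0,k0,k0,k0,k0,k0,k0,
    (nat_lit 1292)]] (nat_lit 4800) k6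
    [[(k8,(nat_lit 960)),(k0,(nat_lit 1200)),(k10,(nat_lit 1598)),(k6,(nat_lit 1680)),(k2,(nat_lit 2272)),(k4,
    (nat_lit 2527))],[(k9,(nat_lit 960)),(k11,(nat_lit 960)),(k1,(nat_lit 1200)),(k3,(nat_lit 1272)),(k7,
    (nat_lit 2160)),(k5,(nat_lit 2273))],[(k4,(nat_lit 1001)),(k2,(nat_lit 1256)),(k0,(nat_lit 1272)),(k6,
    (nat_lit 1354)),(k10,(nat_lit 1670)),(k8,(nat_lit 1844))],[(k11,(nat_lit 960)),(k3,(nat_lit 1256)),(k9,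
    (nat_lit 1700)),(k5,(nat_lit 2257)),(k1,(nat_lit 2272)),(k7,(nat_lit 2486))],[(k10,(nat_lit 1583)),(k6,
    (nat_lit 1599)),(k4,(nat_lit 1660)),(k2,(nat_lit 2257)),(k0,(nat_lit 2273)),(k8,(nat_lit 2829))],[(k3,
    (nat_lit 1001)),(k11,(nat_lit 1583)),(k5,(nat_lit 1660)),(k7,(nat_lit 1889)),(k9,(nat_lit 1971)),(k1,
    (nat_lit 2527))],[(k6,(nat_lit 960)),(k10,(nat_lit 960)),(k8,(nat_lit 1838)),(k4,(nat_lit 1889)),(k0,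
    (nat_lit 2160)),(k2,(nat_lit 2486))],[(k7,(nat_lit 960)),(k11,(nat_lit 960)),(k9,(nat_lit 1042)),(k3,
    (nat_lit 1354)),(k5,(nat_lit 1599)),(k1,(nat_lit 1680))],[(k0,(nat_lit 960)),(k10,(nat_lit 960)),(k6,
    (nat_lit 1042)),(k8,(nat_lit 1614)),(k2,(nat_lit 1700)),(k4,(nat_lit 1971))],[(k1,(nat_lit 960)),(k11,
    (nat_lit 1532)),(k9,(nat_lit 1614)),(k7,(nat_lit 1838)),(k3,(nat_lit 1844)),(k5,(nat_lit 2829))],[(k0,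
    (nat_lit 960)),(k2,(nat_lit 960)),(k6,(nat_lit 960)),(k8,(nat_lit 1532)),(k4,(nat_lit 1583)),(k10,
    (nat_lit 2170))],[(k7,(nat_lit 960)),(k9,(nat_lit 960)),(k5,(nat_lit 1583)),(k1,(nat_lit 1598)),(k3,
    (nat_lit 1670)),(k11,(nat_lit 2170))]]
    [] k0
    [[k2,k0,k0,k0,k0,k0],[k3,k0,k0,k0,k0,k0],[k3,k0,k0,k0,k1,k0],[k2,k1,k0,k0,k0,k0],[k2,k0,k0,k0,k1,k0],[k2,k0,k0,k0,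
    k2,k0],[k2,k0,k0,k0,k1,k1],[k2,k0,k0,k0,k0,k1],[k1,k1,k0,k0,k0,k0],[k1,k0,k0,k1,k0,k0],[k1,k0,k0,k2,k0,k1],[k1,k0,
    k0,k1,k1,k0],[k1,k0,k0,k1,k0,k1],[k1,k0,k0,k0,k1,k0],[k1,k1,k0,k0,k1,k0],[k1,k0,k0,k1,k1,k1],[k1,k0,k0,k0,k2,k0],
    [k1,k0,k0,k0,k2,k1],[k1,k0,k0,k0,k1,k1],[k1,k1,k0,k0,k1,k1],[k1,k0,k0,k0,k0,k1],[k1,k1,k0,k0,k0,k1],[k1,k0,k0,k1,
    k0,k2],[k1,k0,k0,k0,k0,k2],[k0,k2,k0,k0,k0,k0],[k0,k3,k0,k0,k0,k0],[k0,k2,k1,k0,k0,k0],[k0,k2,k0,k1,k0,k1],[k0,k2,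
    k0,k0,k0,k1],[k0,k1,k1,k0,k0,k0],[k0,k1,k1,k1,k0,k1],[k0,k1,k1,k0,k0,k1],[k0,k1,k0,k1,k0,k0],[k0,k1,k0,k2,k0,k1],
    [k0,k1,k0,k1,k0,k1],[k0,k1,k0,k0,k1,k0],[k0,k1,k0,k0,k1,k1],[k0,k1,k0,k0,k0,k1],[k0,k1,k0,k1,k0,k2],[k0,k0,k2,k0,
    k0,k0],[k0,k0,k1,k1,k0,k0],[k0,k0,k1,k2,k0,k0],[k0,k0,k1,k1,k0,k1],[k0,k0,k1,k0,k0,k1],[k0,k0,k0,k2,k0,k0],[k0,k0,
    k0,k3,k0,k0],[k0,k0,k0,k4,k0,k0],[k0,k0,k0,k3,k0,k1],[k0,k0,k0,k2,k1,k0],[k0,k0,k0,k2,k1,k1],[k0,k0,k0,k2,k0,k1],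
    [k0,k0,k0,k1,k1,k0],[k0,k0,k0,k1,k2,k0],[k0,k0,k0,k1,k1,k1],[k0,k0,k0,k1,k0,k1],[k0,k0,k0,k2,k0,k2],[k0,k0,k0,k1,
    k1,k2],[k0,k0,k0,k1,k0,k2],[k0,k0,k0,k0,k2,k0],[k0,k0,k0,k0,k2,k1],[k0,k0,k0,k0,k1,k1],[k0,k0,k0,k0,k1,k2],[k0,k0,
    k0,k0,k0,k2]]
    [.contra [z1],.ref k0 k9 [(z2,[y1,z3,z1,z2])],.ref k88 k2 [(z2,[z1,z1]),(z2,[y1,z3,z4]),(z2,[y1,z3,z0,z4]),(z2,
    [y1,y5,y4,y8,z8])],.ref k0 k9 [(z1,[y1,z2,z1,z1])],.ref k0 k9 [(z2,[y1,z2,z1,z2])],.ref k88 k2 [(z2,[z1,z2]),(z2,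
    [y1,z2,z4]),(z2,[y1,z2,z0,z4]),(z2,[y1,y6,y4,y8,z8])],.ref k87 k7 [(z1,[y2,z2,y1,y2,z2]),(z1,[z0,z0,z0,z1]),(z1,
    [z0,z0,z1]),(z1,[z0,z1])],.ref k3 k2 [(z1,[z1,y1])],.contra [y1,z1,z1],.contra [y1,z0,z0,y1,z1],.contra [y1,y1,y1,
    y2,z2],.ref k83 k0 [(z1,[z1,y1,z0,y2]),(z1,[z0,z0,z0,z1]),(z1,[y2,z0,y1,z1,z2]),(z1,[z0,z1,z0,z1])],.contra [y1,
    z0,z0,y1,z1],.contra [z1,z1],.ref k0 k9 [(z1,[y1,z1,z1,z1])],.ref k0 k9 [(z1,[y1,z0,z0,z0,z1])],.ref k0 k9 [(z2,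
    [y1,z1,z1,z2])],.ref k87 k7 [(z1,[y2,z0,y1,y2,z2]),(z1,[z0,z0,z0,z1]),(z1,[z0,z0,z1]),(z1,[z0,z1])],
    .ref k3 k2 [(z1,[z1])],.ref k0 k0 [(z1,[y1,z0,z0,z0,z1])],.contra [y1,z0,z0,y1,z1],.contra [y1,z0,z0,y1,z1],
    .contra [y1,y1,y1,y2,z2],.contra [y1,y1,y1,y2,z2],.contra [z1],.ref k0 k9 [(z1,[z1,z0,y1,z1])],.contra [y1,z2,z1,
    z1],.ref k0 k9 [(z1,[z1,z1,z0,z2,y1])],.ref k1 k1 [(z1,[z1,z0,y1,z1])],.ref k0 k9 [(z1,[z1])],.contra [y1,z1,z0,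
    z0,z1],.ref k83 k0 [(z1,[y1,y1,z0,y2,z1]),(z1,[z0,z0,z0,z1]),(z1,[z2,z0,y1,z1]),(z1,[z0,z1,z0,z1])],.contra [y1,
    z0,z0,y1,z1],.ref k0 k0 [(z1,[z1,z1,z0,z2,y1])],.contra [z1,z1,z1,z1,y1],.contra [y1,z0,z1],.contra [y1,y1,z0,y1,
    z1],.contra [y1,z0,z0,y1,z1],.ref k1 k1 [(z1,[z1,z1,z0,z2,y1])],.contra [y1,z2,z0,z2],.ref k0 k0 [(z1,[z1])],
    .ref k86 k9 [(z1,[z0,z0,y1,z1]),(z2,[z1,z0,z1,y1]),(z1,[z0,z0,z1]),(z2,[y1,y2,y3,y1,z2])],.ref k0 k9 [(z1,[z1,z1,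
    z1,z1,y1])],.ref k1 k1 [(z1,[z1])],.contra [z1],.ref k62 k0 [(z1,[z1]),(z1,[z0,z0,z0,z1])],.ref k85 k9 [(z1,[z0,
    z0,y1,z1]),(z2,[z1]),(z1,[z0,z0,z1]),(z2,[y1,y4,y4,y4,z4])],.ref k84 k4 [(z1,[y2,y2,y1,y2,z2]),(z1,[z1]),(z1,[y2,
    y1,y1,y2,z2]),(z1,[z1,z1,z1,z1,y1])],.contra [y1,y2,y1,y2,z2],.contra [y1,y2,y1,y2,z2],.contra [y1,y1,y1,y2,z2],
    .contra [y1,y1,z0,y1,z1],.ref k83 k0 [(z1,[z1,z0,z0,y2]),(z1,[z0,z0,z0,z1]),(z1,[y2,y2,y1,z1,z2]),(z1,[z0,z1,z0,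
    z1])],.contra [y1,y1,z0,y1,z1],.contra [y1,z0,z0,y1,z1],.contra [z1,z2,z2,z2,y2],.contra [y1,y2,y1,y2,z2],
    .contra [y1,y1,y1,y2,z2],.contra [z1,z2],.ref k3 k2 [(z1,[z1,z1])],.contra [y1,y1,z0,y1,z1],.contra [y1,y2,y1,y2,
    z2],.contra [z1]]),
    .geo true z2 k5 [(y4,z6),(z4,y3),(z4,y4),(z4,y2),(z0,z1),(z0,z2)] [(z1,[z2]),(z1,[z0,z1]),(z1,[z0,z0,z2]),(z1,[z0,z0,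
    z0,z2]),(z1,[y2,y1,y2,y2,z2]),(z1,
    [])] (Int.ofNat (nat_lit 699050)) (Int.ofNat (nat_lit 1048576)) (.s (.s (.l k1) (.l k1)) (.s (.l k1) (.l k1))) [],
    .old (.lp [(nat_lit 732),(nat_lit 632),(nat_lit 606),(nat_lit 456),(nat_lit 788),(nat_lit 614)] [k28,k28,k148,k8,k91,
    k91,k166,k166,k0,k0,k87,k87] k0 [[k0,k0,k50],[k0,k0,k0,k0,k0,k0,k0,(nat_lit 294)],[k0,k0,k0,k0,k70,k0,k182],[k0,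
    k50],[k0,k0,k0,k0,k0,k0,(nat_lit 244)],[k0,k0,k0,k70,k0,k0,k0,k0,k0,k24],[(nat_lit 294)],[k0,k0,k0,k182,k0,
    (nat_lit 244)],[k0,k0,k0,k0,k24],[k0,k0,k0,k0,k0,k0,k0,k0,k0,k0,k0,k102],[k0,k0,k0,k0,k0,k0,k0,k0,
    k102]] (nat_lit 1920) k7
    [[(k6,(nat_lit 594)),(k2,(nat_lit 612)),(k4,(nat_lit 669)),(k10,(nat_lit 673)),(k0,(nat_lit 732)),(k8,
    (nat_lit 862))],[(k7,(nat_lit 594)),(k5,(nat_lit 619)),(k11,(nat_lit 673)),(k1,(nat_lit 732)),(k3,(nat_lit 752)),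
    (k9,(nat_lit 1054))],[(k6,(nat_lit 320)),(k2,(nat_lit 682)),(k4,(nat_lit 689)),(k10,(nat_lit 693)),(k0,
    (nat_lit 752)),(k8,(nat_lit 780))],[(k7,(nat_lit 404)),(k9,(nat_lit 458)),(k5,(nat_lit 549)),(k11,(nat_lit 553)),
    (k1,(nat_lit 612)),(k3,(nat_lit 682))],[(k2,(nat_lit 549)),(k10,(nat_lit 610)),(k0,(nat_lit 619)),(k4,
    (nat_lit 676)),(k8,(nat_lit 697)),(k6,(nat_lit 713))],[(k9,(nat_lit 453)),(k7,(nat_lit 531)),(k11,(nat_lit 634)),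
    (k1,(nat_lit 669)),(k5,(nat_lit 676)),(k3,(nat_lit 689))],[(k2,(nat_lit 404)),(k4,(nat_lit 531)),(k10,
    (nat_lit 535)),(k0,(nat_lit 594)),(k8,(nat_lit 598)),(k6,(nat_lit 700))],[(k3,(nat_lit 320)),(k11,(nat_lit 535)),
    (k1,(nat_lit 594)),(k9,(nat_lit 622)),(k7,(nat_lit 700)),(k5,(nat_lit 713))],[(k4,(nat_lit 453)),(k2,
    (nat_lit 458)),(k6,(nat_lit 622)),(k10,(nat_lit 701)),(k8,(nat_lit 788)),(k0,(nat_lit 1054))],[(k7,(nat_lit 598)),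
    (k5,(nat_lit 697)),(k11,(nat_lit 701)),(k3,(nat_lit 780)),(k9,(nat_lit 788)),(k1,(nat_lit 862))],[(k10,
    (nat_lit 512)),(k6,(nat_lit 535)),(k2,(nat_lit 553)),(k4,(nat_lit 634)),(k0,(nat_lit 673)),(k8,(nat_lit 701))],
    [(k11,(nat_lit 512)),(k7,(nat_lit 535)),(k5,(nat_lit 610)),(k1,(nat_lit 673)),(k3,(nat_lit 693)),(k9,
    (nat_lit 701))]]
    [[k0,k6,k2,k6],[k0,k8],[k1,k7,k3,k7],[k1,k9],[k2,k4,k4],[k3,k5,k5],[k8,k10,k10],[k9,k11,k11]] k2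
    [[k2,k0,k0,k0,k0,k0],[k1,k1,k0,k0,k0,k0],[k1,k1,k0,k1,k0,k0],[k1,k0,k1,k0,k0,k0],[k1,k0,k0,k1,k0,k0],[k1,k0,k1,k1,
    k0,k0],[k1,k0,k0,k2,k0,k0],[k1,k0,k0,k1,k0,k1],[k1,k0,k0,k0,k0,k1],[k1,k0,k0,k0,k0,k2],[k0,k2,k0,k0,k0,k0],[k0,k2,
    k0,k1,k0,k0],[k0,k1,k1,k0,k0,k0],[k0,k1,k1,k1,k0,k0],[k0,k1,k1,k0,k1,k0],[k0,k1,k1,k0,k0,k1],[k0,k1,k0,k1,k0,k0],
    [k0,k2,k0,k2,k0,k0],[k0,k1,k0,k2,k0,k0],[k0,k1,k0,k1,k1,k0],[k0,k1,k0,k1,k0,k1],[k0,k1,k0,k2,k0,k1],[k0,k1,k0,k0,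
    k1,k0],[k0,k1,k0,k0,k0,k1],[k0,k1,k0,k0,k1,k1],[k0,k1,k0,k0,k0,k2],[k0,k0,k2,k0,k0,k0],[k0,k0,k2,k0,k1,k0],[k0,k0,
    k1,k1,k0,k0],[k0,k0,k1,k1,k1,k0],[k0,k0,k1,k1,k0,k1],[k0,k0,k1,k0,k1,k0],[k0,k0,k1,k0,k0,k1],[k0,k0,k1,k0,k1,k1],
    [k0,k0,k1,k0,k0,k2],[k0,k0,k0,k2,k0,k0],[k0,k0,k0,k2,k0,k1],[k0,k0,k0,k1,k1,k0],[k0,k0,k0,k1,k1,k1],[k0,k0,k0,k1,
    k0,k1],[k0,k0,k0,k1,k0,k2],[k0,k0,k0,k0,k2,k0],[k0,k0,k0,k0,k1,k1],[k0,k0,k0,k0,k0,k2],[k0,k0,k0,k0,k0,k3]]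
    [.contra [z1],.contra [y1,z1,z1],.contra [y1,z1,z1],.ref k89 k4 [(z1,[y1,z0,y1,y1,z1]),(z1,[z1,y1]),(z1,[z1])],
    .contra [y1,z1,z1],.ref k63 k4 [(z1,[y1,z0,y1,y1,z1]),(z1,[z1,y1]),(z1,[z1])],.contra [z1,y1,z0,z2],
    .ref k89 k4 [(z1,[y1,z0,y1,y2,z1]),(z1,[z1,y1,z0,z1]),(z1,[z1,z0,z0,z1])],.ref k0 k2 [(z1,[z1])],.contra [z1,z1],
    .contra [z1],.ref k78 k4 [(z1,[z1,y1,y3,y3,z1]),(z1,[y1,z0,z2,z2]),(z1,[y1,z1,z2,z2])],.contra [y1,z0,z1,z2],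
    .contra [y2,z1,z2,z2],.ref k89 k4 [(z1,[z1,z0,y1,y2]),(z1,[y1,y1,z0,z1,z1]),(z1,[y1,z0,z0,z1,z1])],.contra [y1,z0,
    z1,z1],.contra [y2,z1,z2,z2],.ref k1 k4 [(z1,[z1,y1,y2,y1,z1])],.contra [y1,z1,z1],.ref k90 k6 [(z1,[z2,y1,z1,z2,
    y2]),(z1,[y2,z1,z0,z0,z2]),(z1,[y1,z1,z0,y1,z1]),(z1,[z0,z0,y1,y1,z1])],.contra [y1,z0,z1,z1],.contra [y2,z1,z2],
    .ref k1 k4 [(z1,[z1])],.contra [y1,z0,z1,z1],.ref k63 k4 [(z1,[z1,z0,y1,y1]),(z1,[y1,y1,z0,z0,z1]),(z1,[y1,z0,z0,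
    z0,z1])],.contra [y1,z0,z1],.contra [z1],.contra [z1,z1,z1,y1,y1],.contra [y2,z1,z2,z2],.ref k3 k4 [(z1,[z1])],
    .contra [z1,z0,z0,z1],.ref k3 k1 [(z1,[z1,z0,z0,y1])],.contra [y1,z0,z1,z1],.contra [z1,z1,z1,z0,y1],
    .ref k89 k4 [(z1,[y1,y1,y1,y1,z1]),(z1,[z1]),(z1,[z1,z1])],.contra [z1],.contra [y2,z1,z2],.ref k0 k4 [(z1,[z1])],
    .ref k3 k1 [(z1,[z1])],.contra [y1,z0,z1,z1],.contra [y1,z0,z1],.contra [y1,z0,y2,y2,z2],.contra [y2,y1,y2,y2,z2],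
    .contra [z1],.ref k0 k2 [(z1,[z1,z1])]])]

/-- the nodes with numbers from 0 -/
noncomputable def cU6_3_n0 : List XN :=
  cU6_3_n0_0 ++ (cU6_3_n0_1 ++ (cU6_3_n0_2 ++ (cU6_3_n0_3 ++ (cU6_3_n0_4 ++ (cU6_3_n0_5 ++ (cU6_3_n0_6 ++
      cU6_3_n0_7))))))

theorem cU6_3_k0 : allI (chkX 6 cU6_3_w ttU6 cU6_3_s (blkF [] cU6_3_D)) cU6_3_n0 0 = true := by
  decide +kernel

end Pool.Agent.Lib_MP_fa6e45
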