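import Pool.Agent.Lib_MP_fa6e45.CY6_2d

/-!
MP_fa6e45_co, stage 7: certificates (generated by a program).
-/

namespace Pool.Agent.Lib_MP_fa6e45

noncomputable def cU6_3_n1_0 : List XN :=
  [.old (.lp [k82,k64,k82,k94,k90,k66] [k6,k6,k15,k15,k6,k6,k0,k0,k2,k2,k19,k9] k0 [[k0,k0,k18],[k0,k0,k0,k0,k0,k0,k0,k0,
    k0,k0,k0,k12],[k0,k0,k0,k0,k0,k0,k16,k0,k22],[k0,k18,k0,k0,k0,k0,k0,k0,k0,k0,k0,k12],[],[k0,k0,k0,k0,k0,k0,k0,k46,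
    k0,k22],[k0,k0,k0,k0,k46,k0,k0,k0,k12],[k0,k0,k0,k16],[k0,k0,k0,k0,k22,k0,k0,k0,k0,k0,k26],[k0,k0,k0,k22,k0,k0,k0,
    k12],[k12,k0,k12],[k0,k0,k0,k0,k0,k0,k0,k0,k0,k26]] (nat_lit 240) k6
    [[(k8,k60),(k10,k69),(k4,k82),(k2,k85),(k6,k88),(k0,k94)],[(k5,k64),(k3,k73),(k11,k79),(k9,k86),(k7,k88),(k1,
    k94)],[(k10,k48),(k0,k73),(k4,k73),(k8,k77),(k6,k79),(k2,k82)],[(k11,k48),(k9,k61),(k5,k73),(k7,k79),(k3,k82),(k1,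
    k85)],[(k10,k57),(k0,k64),(k2,k73),(k4,k82),(k6,k104),(k8,k108)],[(k3,k73),(k1,k82),(k5,k82),(k7,k88),(k11,k101),
    (k9,k132)],[(k6,k48),(k8,k70),(k10,k75),(k2,k79),(k0,k88),(k4,k88)],[(k7,k48),(k11,k73),(k3,k79),(k1,k88),(k9,
    k92),(k5,k104)],[(k2,k61),(k10,k73),(k0,k86),(k6,k92),(k8,k102),(k4,k132)],[(k1,k60),(k7,k70),(k3,k77),(k11,k83),
    (k9,k102),(k5,k108)],[(k2,k48),(k6,k73),(k0,k79),(k8,k83),(k10,k92),(k4,k101)],[(k3,k48),(k5,k57),(k1,k69),(k9,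
    k73),(k7,k75),(k11,k92)]]
    [] k0
    [[k2,k0,k0,k0,k0,k0],[k1,k1,k0,k0,k0,k0],[k1,k1,k1,k0,k0,k0],[k1,k1,k0,k0,k0,k1],[k1,k0,k1,k0,k0,k0],[k1,k0,k2,k0,
    k0,k0],[k1,k0,k1,k0,k0,k1],[k1,k0,k0,k1,k0,k0],[k1,k0,k0,k2,k0,k0],[k1,k0,k0,k0,k1,k0],[k1,k1,k0,k0,k1,k0],[k1,k0,
    k0,k0,k1,k1],[k1,k0,k0,k0,k0,k1],[k1,k0,k0,k1,k0,k1],[k0,k2,k0,k0,k0,k0],[k0,k2,k1,k0,k0,k0],[k0,k2,k0,k0,k1,k0],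
    [k0,k2,k0,k0,k0,k1],[k0,k1,k1,k0,k0,k0],[k0,k1,k2,k0,k0,k0],[k0,k1,k1,k0,k0,k1],[k0,k1,k0,k1,k0,k0],[k0,k1,k0,k2,
    k0,k0],[k0,k1,k0,k1,k1,k0],[k0,k1,k0,k1,k0,k1],[k0,k1,k0,k0,k1,k0],[k0,k2,k0,k0,k1,k1],[k0,k1,k0,k0,k1,k1],[k0,k1,
    k0,k0,k0,k1],[k0,k2,k0,k0,k0,k2],[k0,k1,k0,k0,k0,k2],[k0,k0,k2,k0,k0,k0],[k0,k0,k1,k1,k0,k0],[k0,k0,k1,k0,k0,k1],
    [k0,k0,k1,k1,k0,k1],[k0,k0,k0,k2,k0,k0],[k0,k0,k0,k3,k0,k0],[k0,k0,k0,k4,k0,k0],[k0,k0,k0,k2,k1,k0],[k0,k0,k0,k2,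
    k0,k1],[k0,k0,k0,k1,k1,k0],[k0,k0,k0,k1,k1,k1],[k0,k0,k0,k1,k0,k1],[k0,k0,k0,k0,k2,k0],[k0,k0,k0,k0,k1,k1],[k0,k0,
    k0,k0,k0,k2]]
    [.contra [z1],.contra [y1,z0,z0,y1,z1],.ref k3 k1 [(z1,[y1,z0,z0,z0,z1])],.contra [y1,z0,z0,y1,z1],
    .ref k63 k9 [(z1,[y1,z0,y1,z2]),(z1,[z1,y1,y1,y3,z2]),(z1,[z1,z0,z1,y1])],.contra [z1,z0,z1,y2],.contra [z1,y1,y1,
    y2,z1],.contra [y1,z0,z0,y1,z1],.ref k89 k9 [(z1,[y1,y1,y2,y1,z2]),(z1,[z1]),(z1,[z1,z1,z2,z2,y2])],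
    .ref k89 k9 [(z1,[y1,z0,z0,z1]),(z1,[z1,y1,y2,y2,z2]),(z1,[z1])],.ref k63 k9 [(z1,[y1,z0,z0,z1]),(z1,[z1,y1,y2,y2,
    z2]),(z1,[z1])],.ref k3 k2 [(z1,[z1])],.contra [y2,z1,z1,z1],.contra [y1,z0,y1,z1,z1],.contra [z1],
    .ref k3 k2 [(z2,[y1,z1,z2,z1])],.ref k0 k9 [(z1,[z1,z0,y1,z1])],.ref k68 k9 [(z1,[z2,y1,y2,z1]),(z1,[y1,z0,z0,y1,
    z1]),(z1,[y2,z1,z2])],.ref k0 k9 [(z1,[z1])],.contra [z1,z0,y1,z2],.ref k91 k4 [(z1,[z0,z1,z2,z2,y2]),(z1,[z1,y1,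
    y1,y3,z2]),(z1,[y1,z1,z1,z2,y1])],.contra [y1,y2,y3,y4,z4],.contra [y1,y2,y3,y4,z4],.contra [y1,y1,y1,y2,z2],
    .contra [y1,z0,z0,y1,z1],.contra [y1,y1,y1,y2,z2],.ref k91 k4 [(z1,[z0,z1,z2,z2,y2]),(z1,[z1,y1,y2,y2,z2]),(z1,
    [y1,z1,z2,z1,y1])],.ref k1 k1 [(z1,[z1,z0,y1,z1])],.contra [y1,z0,z0,y1,z1],.ref k82 k9 [(z1,[z1,y1,y2,z1]),(z2,
    [y1,z0,z0,y2,z2]),(z1,[y1,z1,z2])],.ref k1 k1 [(z2,[z1,z0,y1,z2])],.contra [z1],.contra [y1,y1,y2,y1,z2],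
    .ref k1 k1 [(z1,[z1])],.ref k63 k9 [(z1,[z1,z0,z0,z1,y1]),(z1,[y1,y1,y2,y2,z3]),(z1,[y1,z0,z0,z0,z1])],
    .contra [z1],.contra [y2,y3,y5,y5,z6],.contra [y1,y2,y4,y2,z4],.contra [y1,y1,y2,z0,z2],.ref k0 k1 [(z1,[z1,z1,z2,
    z2,y2])],.contra [y2,y1,y1,y1,z2],.ref k3 k1 [(z1,[z1])],.contra [y1,z0,z0,y1,z1],.contra [y1,z0,z0,z2],
    .ref k0 k1 [(z1,[z1])],.contra [z1]]),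
    .geo true z1 k5 [(y4,z6),(z4,y5),(y2,z4),(z2,y2),(z4,y4),(z0,z1)] [(z1,[z1]),(z1,[z0,z1]),(z1,[z0,z0,z1]),(z1,[z0,z0,
    z0,z1]),(z1,[y1,y1,y1,y1,z1]),(z1,
    [])] (Int.ofNat (nat_lit 699050)) (Int.ofNat (nat_lit 838861)) (.s (.l k1) (.l k1)) [],
    .geo true z2 k5 [(z0,z4),(z2,y1),(z0,z4),(z2,y5),(z4,y4),(z0,z2)] [(z1,[z2]),(z1,[z0,z1]),(z1,[z0,z0,z2]),(z1,[z0,z0,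
    z0,z1]),(z1,[y2,y1,y2,y1,z2]),(z1,
    [])] z0 (Int.ofNat (nat_lit 419431)) (.s (.s (.s (.l k2) (.l k1)) (.l k1)) (.s (.l k1) (.s (.l k1) (.l k1)))) [⟨z0,
    z1,[[k0,k2],[k1,k3],[k4,k5]],.bnd k0⟩],
    .old (.lp [(nat_lit 410),(nat_lit 312),(nat_lit 338),(nat_lit 378),k168,(nat_lit 310)] [k0,k0,k49,k49,k36,k36,k16,k16,
    k121,k121,k50,k50] k0 [[k0,k0,k0,k0,k0,k0,k12],[k0,k0,k0,k60,k0,k14],[k60,k0,k0,k0,k0,k0,k0,k0,k0,k0,k14],[k0,k0,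
    k0,k0,k0,k14],[k14,k0,k14],[k0,k0,k0,k0,k0,k0,k0,k134,k0,k0,k0,k152],[k0,k0,k0,k0,k134,k0,k0,k0,k152],[k0,k12,k0,
    k0,k0,k0,k0,k0,k0,k0,k0,k16],[k0,k0,k0,k0,k0,k0,k0,k0,k0,k0,k10],[k0,k0,k0,k0,k0,k0,k0,k152],[k0,k0,k0,k0,k152,k0,
    k16],[k0,k0,k0,k14,k0,k0,k0,k0,k0,k10]] (nat_lit 960) k6
    [[(k8,(nat_lit 279)),(k2,(nat_lit 347)),(k10,(nat_lit 360)),(k0,(nat_lit 410)),(k6,(nat_lit 410)),(k4,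
    (nat_lit 526))],[(k9,(nat_lit 277)),(k11,(nat_lit 360)),(k3,(nat_lit 361)),(k7,(nat_lit 408)),(k1,(nat_lit 410)),
    (k5,(nat_lit 434))],[(k8,(nat_lit 240)),(k2,(nat_lit 252)),(k4,(nat_lit 311)),(k10,(nat_lit 311)),(k6,
    (nat_lit 357)),(k0,(nat_lit 361))],[(k9,(nat_lit 240)),(k3,(nat_lit 252)),(k11,(nat_lit 311)),(k5,(nat_lit 325)),
    (k1,(nat_lit 347)),(k7,(nat_lit 359))],[(k8,(nat_lit 253)),(k4,(nat_lit 324)),(k2,(nat_lit 325)),(k10,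
    (nat_lit 338)),(k6,(nat_lit 358)),(k0,(nat_lit 434))],[(k3,(nat_lit 311)),(k5,(nat_lit 324)),(k11,(nat_lit 324)),
    (k7,(nat_lit 358)),(k9,(nat_lit 387)),(k1,(nat_lit 526))],[(k10,k192),(k6,(nat_lit 244)),(k8,(nat_lit 273)),(k4,
    (nat_lit 358)),(k2,(nat_lit 359)),(k0,(nat_lit 408))],[(k11,k192),(k7,(nat_lit 244)),(k9,(nat_lit 273)),(k3,
    (nat_lit 357)),(k5,(nat_lit 358)),(k1,(nat_lit 410))],[(k10,(nat_lit 223)),(k2,(nat_lit 240)),(k6,(nat_lit 273)),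
    (k0,(nat_lit 277)),(k8,(nat_lit 320)),(k4,(nat_lit 387))],[(k11,(nat_lit 239)),(k3,(nat_lit 240)),(k5,
    (nat_lit 253)),(k7,(nat_lit 273)),(k1,(nat_lit 279)),(k9,(nat_lit 320))],[(k6,k192),(k8,(nat_lit 239)),(k2,
    (nat_lit 311)),(k10,(nat_lit 320)),(k4,(nat_lit 324)),(k0,(nat_lit 360))],[(k7,k192),(k9,(nat_lit 223)),(k3,
    (nat_lit 311)),(k11,(nat_lit 320)),(k5,(nat_lit 338)),(k1,(nat_lit 360))]]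
    [] k0
    [[k2,k0,k0,k0,k0,k0],[k1,k1,k0,k0,k0,k0],[k1,k1,k0,k0,k1,k0],[k1,k0,k0,k1,k0,k0],[k1,k0,k0,k0,k1,k0],[k1,k0,k0,k0,
    k2,k0],[k1,k0,k0,k0,k1,k1],[k1,k0,k0,k0,k0,k1],[k0,k2,k0,k0,k0,k0],[k0,k3,k0,k0,k0,k0],[k0,k2,k1,k0,k0,k0],[k0,k2,
    k0,k0,k1,k0],[k0,k2,k0,k0,k0,k1],[k0,k1,k1,k0,k0,k0],[k0,k1,k1,k0,k1,k0],[k0,k1,k0,k1,k0,k0],[k0,k1,k0,k1,k1,k0],
    [k0,k1,k0,k1,k0,k1],[k0,k1,k0,k0,k1,k0],[k0,k1,k0,k0,k2,k0],[k0,k1,k0,k0,k1,k1],[k0,k1,k0,k0,k2,k1],[k0,k1,k0,k0,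
    k0,k1],[k0,k1,k0,k0,k0,k2],[k0,k0,k2,k0,k0,k0],[k0,k0,k1,k1,k0,k0],[k0,k0,k1,k1,k0,k1],[k0,k0,k1,k0,k1,k0],[k0,k0,
    k1,k1,k1,k0],[k0,k0,k1,k0,k1,k1],[k0,k0,k1,k0,k0,k1],[k0,k0,k0,k2,k0,k0],[k0,k0,k0,k3,k0,k0],[k0,k0,k0,k3,k0,k1],
    [k0,k0,k0,k2,k1,k0],[k0,k0,k0,k2,k1,k1],[k0,k0,k0,k2,k0,k1],[k0,k0,k0,k2,k0,k2],[k0,k0,k0,k1,k1,k0],[k0,k0,k0,k1,
    k2,k0],[k0,k0,k0,k1,k1,k1],[k0,k0,k0,k1,k0,k1],[k0,k0,k0,k1,k1,k2],[k0,k0,k0,k1,k0,k2],[k0,k0,k0,k0,k2,k0],[k0,k0,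
    k0,k0,k2,k1],[k0,k0,k0,k0,k1,k1],[k0,k0,k0,k0,k2,k2],[k0,k0,k0,k0,k1,k2],[k0,k0,k0,k0,k0,k2]]
    [.contra [z1],.contra [z1,y3,y3,y2,z2],.ref k64 k3 [(z1,[y2,z2,z2,z1]),(z1,[y1,z1,z2]),(z1,[z2,y1,y2])],
    .ref k1 k2 [(z1,[z1])],.ref k94 k9 [(z1,[z0,z0,y2,z1]),(z1,[z0,y2,y1,y2,z2]),(z1,[z1,y1,y2]),(z1,[y2,z2,z5])],
    .ref k64 k3 [(z1,[y1,z1,z0,z1]),(z2,[y1,z1,z2]),(z1,[z1])],.ref k1 k2 [(z1,[z1,y1,y1,y1,z1])],.ref k0 k2 [(z1,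
    [z1])],.contra [z1],.ref k0 k0 [(z2,[z1,y2,y5,z0,z2])],.contra [y1,z2,z2,z1],.ref k89 k2 [(z1,[y1,z1,z2]),(z1,
    [z1]),(z1,[z1,z0,y2,z1])],.ref k1 k1 [(z1,[z1,z0,y2,z1])],.ref k0 k0 [(z2,[z1,y2,y3,y1,z2])],.ref k93 k4 [(z1,[z1,
    z6,z5,z5,y6]),(z1,[y1,y5,y4,y4,z5]),(z1,[z0,z5,z4,z4,y4]),(z1,[z0,y2,y1,y2,z2])],.contra [y2,y1,z1,y2,z2],
    .contra [y1,y1,z0,y1,z1],.contra [y1,y1,z0,y1,z1],.contra [y2,z1,z3],.contra [y1,z0,z1],.contra [y2,z1,z3],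
    .contra [y1,z0,z1],.contra [y2,z1,z3],.contra [y1,z0,z1],.contra [y1,z2,z0,z2],.ref k0 k0 [(z1,[z1])],
    .ref k64 k3 [(z1,[z2,z2,z2,z1,y2]),(z1,[z1,z1,z2,z0,y1]),(z1,[y2,y1,y2,z0,z2])],.ref k89 k2 [(z1,[y1,z1,z0,z1]),
    (z1,[z1,z0,z2,y1]),(z1,[z1])],.ref k3 k4 [(z1,[z1])],.ref k0 k0 [(z1,[z1,y1,y1,y1,z1])],.ref k1 k1 [(z1,[z1])],
    .contra [z1],.ref k0 k0 [(z1,[y1,y4,y4,y3,z4])],.ref k89 k2 [(z1,[z1,z4,z3,z3,y3]),(z1,[y1,y3,y1,y3,z3]),(z1,[y1,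
    y3,y3,y2,z3])],.ref k64 k3 [(z1,[y2,y4,y4,y3,z4]),(z1,[y1,y2,y1,y2,z2]),(z1,[z2,z5,z4,z4,y4])],.ref k0 k0 [(z1,
    [y1,y3,y3,y2,z3])],.ref k3 k4 [(z1,[y1,y3,y3,y2,z3])],.ref k82 k2 [(z1,[z1,z3,z2,z2,y2]),(z2,[y1,y2,z0,y2,z2]),
    (z1,[y1,y2,y2,y1,z2])],.contra [y1,y1,z0,y1,z1],.ref k91 k9 [(z1,[z0,z0,y2,z1]),(z1,[y1,y2,z0,y2,z2]),(z1,[z1,z1,
    z0,z1,y1])],.contra [z1,y1,y1,y1,z1],.contra [y1,y1,z0,y1,z1],.ref k3 k4 [(z1,[y1,y2,y2,y1,z2])],.ref k68 k2 [(z1,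
    [z2,z3,z2,z2,y2]),(z1,[y1,y1,z0,y1,z1]),(z1,[y2,y2,y2,y1,z2])],.contra [z1],.contra [y1,z0,z1],.contra [y2,z1,z3],
    .contra [z1,y2,y2,y2,z2],.contra [y1,z0,z1],.contra [z1]]),
    .geo true z1 k5 [(z0,z2),(z2,y4),(y2,z6),(z2,y3),(z2,y2),(z0,z1)] [(z1,[z1]),(z1,[z0,z1]),(z1,[z0,z0,z1]),(z1,[z0,z0,
    z0,z1]),(z1,[y1,y1,y1,y1,z1]),(z1,[])] (Int.ofNat (nat_lit 349525)) (Int.ofNat (nat_lit 524288)) (.l k1) [],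
    .geo true z9 k3 [(z4,z0),(z8,z0),(z8,y9),(z0,z9),(z6,z0),(z10,z0)] [(z1,[z1]),(z1,[z0,z1]),(z1,[z0,z0,z1]),(z1,[]),
    (z1,[z0,z0,z0,z3]),(z1,[y1,y1,y1,y3,z9])] z0 (Int.ofNat (nat_lit 932068)) (.l k1) [],
    .geo true z2 k5 [(y4,z5),(z4,y3),(z4,y3),(z4,y2),(z0,z1),(z0,z2)] [(z1,[z1]),(z1,[z0,z1]),(z1,[z0,z0,z1]),(z1,[z0,z0,
    z0,z2]),(z1,[y1,y1,y1,y2,z2]),(z1,
    [])] (Int.ofNat (nat_lit 838860)) (Int.ofNat (nat_lit 1398102)) (.s (.s (.l k1) (.l k1)) (.s (.l k1) (.l k1))) [],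
    .old (.lp [(nat_lit 16554),(nat_lit 13172),(nat_lit 17800),(nat_lit 12638),(nat_lit 14418),
    (nat_lit 10680)] [(nat_lit 802),(nat_lit 802),(nat_lit 2493),(nat_lit 2493),k179,k179,(nat_lit 5520),k0,
    (nat_lit 1870),(nat_lit 1870),(nat_lit 3739),(nat_lit 3739)] k0 [[k0,k0,k0,k0,(nat_lit 1068),k0,(nat_lit 1424)],
    [k0,k0,k0,(nat_lit 2492),k0,k0,k0,k0,k0,k0,k0,(nat_lit 1424)],[(nat_lit 2492)],[k0,k0,k0,k0,k0,(nat_lit 1424),k0,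
    (nat_lit 3382)],[k0,k0,(nat_lit 1424),k0,k0,k0,k0,k0,(nat_lit 1246)],[k0,(nat_lit 1068),k0,k0,k0,k0,k0,k0,k0,k0,
    k0,(nat_lit 5874)],[k0,k0,(nat_lit 3382),k0,k0,k0,k0,k0,k0,k0,(nat_lit 1068)],[k0,(nat_lit 1424)],[k0,k0,k0,k0,k0,
    k0,k0,k0,k0,k0,(nat_lit 4806)],[k0,k0,k0,k0,k0,(nat_lit 1246)],[(nat_lit 1424),k0,k0,k0,(nat_lit 5874)],[k0,k0,k0,
    k0,k0,k0,k0,(nat_lit 1068),k0,(nat_lit 4806)]] (nat_lit 42720) k6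
    [[(k8,(nat_lit 10680)),(k6,(nat_lit 10768)),(k10,(nat_lit 13617)),(k2,(nat_lit 14863)),(k0,(nat_lit 17978)),(k4,
    (nat_lit 23051))],[(k11,(nat_lit 13617)),(k9,(nat_lit 14062)),(k3,(nat_lit 14863)),(k7,(nat_lit 16288)),(k1,
    (nat_lit 17978)),(k5,(nat_lit 19669))],[(k10,(nat_lit 10502)),(k2,(nat_lit 10680)),(k6,(nat_lit 11569)),(k8,
    (nat_lit 13795)),(k0,(nat_lit 14863)),(k4,(nat_lit 16554))],[(k3,(nat_lit 10680)),(k11,(nat_lit 11926)),(k1,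
    (nat_lit 14863)),(k5,(nat_lit 15486)),(k7,(nat_lit 17089)),(k9,(nat_lit 17177))],[(k6,(nat_lit 9077)),(k10,
    (nat_lit 14240)),(k2,(nat_lit 15486)),(k8,(nat_lit 16109)),(k4,(nat_lit 16376)),(k0,(nat_lit 19669))],[(k11,
    (nat_lit 12994)),(k9,(nat_lit 16109)),(k5,(nat_lit 16376)),(k3,(nat_lit 16554)),(k7,(nat_lit 17979)),(k1,
    (nat_lit 23051))],[(k10,(nat_lit 8545)),(k6,(nat_lit 12638)),(k0,(nat_lit 16288)),(k2,(nat_lit 17089)),(k8,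
    (nat_lit 17534)),(k4,(nat_lit 17979))],[(k11,(nat_lit 8899)),(k5,(nat_lit 9077)),(k1,(nat_lit 10768)),(k9,
    (nat_lit 10768)),(k3,(nat_lit 11569)),(k7,(nat_lit 12638))],[(k6,(nat_lit 10768)),(k10,(nat_lit 13617)),(k0,
    (nat_lit 14062)),(k8,(nat_lit 14418)),(k4,(nat_lit 16109)),(k2,(nat_lit 17177))],[(k1,(nat_lit 10680)),(k11,
    (nat_lit 12549)),(k3,(nat_lit 13795)),(k9,(nat_lit 14418)),(k5,(nat_lit 16109)),(k7,(nat_lit 17534))],[(k6,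
    (nat_lit 8899)),(k2,(nat_lit 11926)),(k8,(nat_lit 12549)),(k4,(nat_lit 12994)),(k0,(nat_lit 13617)),(k10,
    (nat_lit 15486))],[(k7,(nat_lit 8545)),(k3,(nat_lit 10502)),(k1,(nat_lit 13617)),(k9,(nat_lit 13617)),(k5,
    (nat_lit 14240)),(k11,(nat_lit 15486))]]
    [] k0
    [[k2,k0,k0,k0,k0,k0],[k1,k1,k0,k0,k0,k0],[k1,k2,k0,k0,k0,k0],[k1,k1,k0,k0,k0,k1],[k1,k0,k0,k1,k0,k0],[k1,k0,k0,k2,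
    k0,k0],[k1,k0,k0,k1,k1,k0],[k1,k0,k0,k1,k0,k1],[k1,k0,k0,k0,k1,k0],[k1,k0,k0,k0,k2,k0],[k1,k0,k0,k0,k1,k1],[k1,k0,
    k0,k0,k0,k1],[k0,k2,k0,k0,k0,k0],[k0,k3,k0,k0,k0,k0],[k0,k2,k0,k1,k0,k0],[k0,k2,k0,k0,k1,k0],[k0,k2,k0,k0,k0,k1],
    [k0,k1,k1,k0,k0,k0],[k0,k1,k0,k1,k0,k0],[k0,k1,k0,k2,k0,k0],[k0,k1,k0,k1,k0,k1],[k0,k1,k0,k0,k1,k0],[k0,k1,k0,k1,
    k1,k0],[k0,k1,k0,k0,k1,k1],[k0,k1,k0,k0,k0,k1],[k0,k1,k1,k0,k0,k1],[k0,k1,k0,k1,k0,k2],[k0,k1,k0,k0,k0,k2],[k0,k0,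
    k2,k0,k0,k0],[k0,k0,k1,k1,k0,k0],[k0,k0,k1,k2,k0,k0],[k0,k0,k1,k1,k0,k1],[k0,k0,k1,k0,k1,k0],[k0,k0,k1,k0,k0,k1],
    [k0,k0,k0,k2,k0,k0],[k0,k0,k0,k3,k0,k0],[k0,k0,k0,k2,k1,k0],[k0,k0,k0,k2,k0,k1],[k0,k0,k0,k1,k1,k0],[k0,k0,k0,k1,
    k1,k1],[k0,k0,k0,k1,k0,k1],[k0,k0,k0,k2,k0,k2],[k0,k0,k0,k1,k0,k2],[k0,k0,k0,k0,k2,k0],[k0,k0,k0,k0,k2,k1],[k0,k0,
    k0,k0,k1,k1],[k0,k0,k0,k0,k1,k2],[k0,k0,k0,k0,k0,k2]]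
    [.contra [z1],.contra [y1,z0,z0,y1,z1],.contra [z1,z1,y1],.ref k3 k4 [(z1,[y1,z0,z0,z0,z1])],.contra [y2,z1,y1,y2,
    z2],.contra [y1,z1,y1,y2,z2],.ref k63 k3 [(z1,[y1,z1,z0,z1]),(z1,[z1,y1,z1]),(z1,[z1])],.ref k63 k3 [(z1,[z1,z1,
    z1,z3,y2]),(z1,[y1,y1,z0,y2,z2]),(z1,[y1,z0,y1,y2,z2])],.ref k89 k3 [(z1,[y1,z1,z0,z1]),(z1,[z1,y1,z1]),(z1,
    [z1])],.ref k82 k3 [(z1,[y1,z1,z0,z1]),(z2,[z1,y1,z1]),(z1,[z1])],.contra [z1,z1],.ref k0 k2 [(z1,[z1])],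
    .contra [z1],.contra [y1,y1,z1,y1,z1],.contra [y2,y1,z1,y2,z2],.ref k89 k3 [(z1,[y1,z0,z1,z1]),(z1,[z1]),(z1,[z1,
    z1,y1])],.ref k0 k2 [(z1,[z1,z1,y1])],.contra [y2,z1,z1,z2],.contra [y1,z0,z0,y1,z1],.ref k0 k0 [(z1,[z1,z1,z0,z2,
    y1])],.contra [y1,y1,z0,y1,z1],.contra [y1,y1,z0,y1,z1],.contra [y1,y1,z0,y1,z1],.contra [y1,y1,z0,y1,z1],
    .contra [y1,y1,z0,y1,z1],.ref k63 k3 [(z1,[z1,z1,z0,z1,y1]),(z1,[y1,y1,z1,z0,z1]),(z1,[y1,z0,z0,z0,z1])],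
    .ref k63 k3 [(z2,[z1,z3,z1,z5,y3]),(z2,[y1,y3,z1,y3,z3]),(z2,[y1,y1,y1,y3,z3])],.ref k95 k3 [(z1,[z2,z4,z1,z5,
    y4]),(z1,[y1,y2,z0,y2,z2]),(z1,[y2,y3,y1,y4,z4])],.contra [y1,z2,z0,z2],.ref k0 k0 [(z1,[z1])],.contra [y1,z2,y1,
    y1,z2],.ref k98 k11 [(z1,[z2,y3,z1,z0,y2]),(z1,[y2,z1,y1,z0,z2]),(z1,[z0,z1,y1,y2,z2]),(z1,[z0,z1,z0,z1])],
    .contra [y1,z0,z0,z1],.contra [y1,z0,z0,z1],.contra [z1],.ref k97 k10 [(z1,[y1,y3,z3,y3,z3]),(z1,[y2,z3,y3,y6,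
    z6]),(z1,[y2,y6,y3,y6,z6]),(z1,[z1])],.ref k96 k8 [(z1,[z0,z1,y1]),(z1,[y1,y2,z1,y2,z2]),(z1,[z1,z2,y2,z2,y2]),
    (z1,[z0,y1,z1,y1,z1])],.ref k68 k3 [(z1,[z2,z2,z1,z3,y2]),(z1,[y1,y1,z0,y1,z1]),(z1,[y2,y1,y1,y2,z2])],
    .contra [y1,y1,z0,y1,z1],.contra [y2,y1,y1,y2,z2],.contra [y1,y1,z0,y1,z1],.ref k82 k3 [(z1,[z1,z2,z1,z3,y2]),(z2,
    [y1,y2,z0,y2,z2]),(z1,[y1,y1,y1,y2,z2])],.ref k78 k3 [(z1,[z1,z2,z1,z3,y2]),(z1,[y1,y2,z0,y2,z2]),(z1,[y1,y1,y1,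
    y2,z2])],.contra [z1],.ref k89 k3 [(z1,[y1,z0,z0,z1]),(z1,[z1,z0,z1]),(z1,[z1,z1])],.contra [z1,z0,z1],
    .ref k0 k2 [(z1,[z1,z1])],.contra [z1]]),
    .geo true z1 k5 [(z0,z2),(z1,y1),(z0,z2),(z1,y2),(z2,y2),(z0,z1)] [(z1,[z1]),(z1,[z0,z1]),(z1,[z0,z0,z1]),(z1,[z0,z0,
    z0,z1]),(z1,[y1,y1,y1,y1,z1]),(z1,
    [])] z0 (Int.ofNat (nat_lit 524288)) (.s (.s (.s (.l k2) (.l k1)) (.l k1)) (.s (.l k3) (.l k1))) [⟨z0,z1,[[k0,k2],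
    [k1,k3],[k4,k5]],.bnd k0⟩,⟨z1,z3,[[k0,k4],[k1,k3],[k2,k5]],.child (.ref k1 k4 [(z1,[y1,y1,z0,y1,y1,z1])])⟩],
    .geo true z5 k4 [(z2,z0),(z4,z0),(z4,y5),(z4,z0),(z0,z5),(z6,z0)] [(z1,[z1]),(z1,[z0,z1]),(z1,[z0,z0,z1]),(z1,[z0,z0,
    z0,z1]),(z1,[]),(z1,[y1,y1,y1,y1,z5])] z0 (Int.ofNat (nat_lit 838861)) (.s (.s (.l k1) (.l k1)) (.l k1)) [],
    .old (.lp [(nat_lit 278),(nat_lit 404),(nat_lit 418),(nat_lit 294),(nat_lit 286),(nat_lit 238)] [k114,k114,k0,k102,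
    k44,k44,k106,k106,k110,k110,k156,k112] k0 [[k0,k0,k0,k0,k0,k0,k2],[k0,k0,k0,(nat_lit 212),k0,k0,k0,k0,k0,k4],
    [(nat_lit 212),k0,k0,k0,k0,k0,k0,k0,(nat_lit 202)],[k0,k0,k0,k0,k0,k20,k0,k82],[k0,k0,k20,k0,k0,k0,k0,k0,k94],[k0,
    k0,k0,k0,k0,k0,k0,k54,k0,k0,k0,k52],[k0,k0,k82,k0,k54],[k0,k2],[k4,k0,k0,k0,k0,k0,k0,k0,k0,k0,k82],[k0,k0,k0,
    (nat_lit 202),k0,k94],[k0,k0,k0,k0,k52],[k0,k0,k0,k0,k0,k0,k0,k0,k0,k82]] (nat_lit 960) k6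
    [[(k8,(nat_lit 200)),(k10,(nat_lit 236)),(k0,(nat_lit 278)),(k6,(nat_lit 286)),(k2,(nat_lit 392)),(k4,
    (nat_lit 400))],[(k1,(nat_lit 278)),(k9,(nat_lit 280)),(k11,(nat_lit 284)),(k7,(nat_lit 286)),(k3,(nat_lit 290)),
    (k5,(nat_lit 560))],[(k2,k192),(k10,(nat_lit 248)),(k0,(nat_lit 290)),(k8,(nat_lit 290)),(k6,(nat_lit 300)),(k4,
    (nat_lit 360))],[(k3,k192),(k11,k192),(k1,(nat_lit 392)),(k7,(nat_lit 420)),(k5,(nat_lit 462)),(k9,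
    (nat_lit 478))],[(k6,(nat_lit 274)),(k10,(nat_lit 306)),(k4,(nat_lit 398)),(k2,(nat_lit 462)),(k8,(nat_lit 554)),
    (k0,(nat_lit 560))],[(k11,(nat_lit 256)),(k7,(nat_lit 356)),(k3,(nat_lit 360)),(k5,(nat_lit 398)),(k1,
    (nat_lit 400)),(k9,(nat_lit 406))],[(k10,k192),(k6,(nat_lit 240)),(k0,(nat_lit 286)),(k4,(nat_lit 356)),(k8,
    (nat_lit 384)),(k2,(nat_lit 420))],[(k7,(nat_lit 240)),(k5,(nat_lit 274)),(k1,(nat_lit 286)),(k11,(nat_lit 288)),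
    (k9,(nat_lit 290)),(k3,(nat_lit 300))],[(k10,(nat_lit 240)),(k0,(nat_lit 280)),(k8,(nat_lit 286)),(k6,
    (nat_lit 290)),(k4,(nat_lit 406)),(k2,(nat_lit 478))],[(k1,(nat_lit 200)),(k11,(nat_lit 284)),(k9,(nat_lit 286)),
    (k3,(nat_lit 290)),(k7,(nat_lit 384)),(k5,(nat_lit 554))],[(k2,k192),(k4,(nat_lit 256)),(k0,(nat_lit 284)),(k8,
    (nat_lit 284)),(k6,(nat_lit 288)),(k10,(nat_lit 320))],[(k7,k192),(k1,(nat_lit 236)),(k9,(nat_lit 240)),(k3,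
    (nat_lit 248)),(k5,(nat_lit 306)),(k11,(nat_lit 320))]]
    [] k0
    [[k2,k0,k0,k0,k0,k0],[k3,k0,k0,k0,k0,k0],[k2,k0,k0,k1,k0,k0],[k2,k0,k0,k0,k1,k0],[k2,k0,k0,k0,k0,k1],[k1,k1,k0,k0,
    k0,k0],[k1,k2,k0,k0,k0,k0],[k1,k1,k0,k0,k0,k1],[k1,k0,k0,k1,k0,k0],[k1,k0,k0,k2,k0,k0],[k1,k0,k0,k1,k1,k0],[k1,k0,
    k0,k1,k0,k1],[k1,k0,k0,k0,k1,k0],[k1,k0,k0,k0,k2,k0],[k1,k0,k0,k0,k1,k1],[k1,k1,k0,k0,k1,k1],[k1,k0,k0,k0,k0,k1],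
    [k1,k2,k0,k0,k0,k1],[k1,k0,k0,k0,k0,k2],[k0,k2,k0,k0,k0,k0],[k0,k3,k0,k0,k0,k0],[k0,k4,k0,k0,k0,k0],[k0,k3,k0,k0,
    k0,k1],[k0,k2,k0,k1,k0,k0],[k0,k2,k0,k1,k0,k1],[k0,k2,k0,k0,k1,k1],[k0,k2,k0,k0,k0,k1],[k0,k2,k0,k0,k0,k2],[k0,k1,
    k1,k0,k0,k0],[k0,k1,k1,k0,k0,k1],[k0,k1,k0,k1,k0,k0],[k0,k1,k0,k2,k0,k1],[k0,k1,k0,k1,k0,k1],[k0,k1,k0,k0,k1,k0],
    [k0,k1,k0,k0,k1,k1],[k0,k1,k0,k0,k0,k1],[k0,k1,k0,k1,k0,k2],[k0,k1,k0,k0,k0,k2],[k0,k0,k2,k0,k0,k0],[k0,k0,k1,k1,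
    k0,k0],[k0,k0,k1,k2,k0,k0],[k0,k0,k1,k1,k0,k1],[k0,k0,k1,k0,k0,k1],[k0,k0,k1,k0,k0,k2],[k0,k0,k0,k2,k0,k0],[k0,k0,
    k0,k3,k0,k0],[k0,k0,k0,k2,k1,k0],[k0,k0,k0,k2,k0,k1],[k0,k0,k0,k1,k1,k0],[k0,k0,k0,k1,k1,k1],[k0,k0,k0,k1,k0,k1],
    [k0,k0,k0,k1,k0,k2],[k0,k0,k0,k0,k2,k0],[k0,k0,k0,k0,k3,k0],[k0,k0,k0,k0,k2,k1],[k0,k0,k0,k0,k1,k1],[k0,k0,k0,k0,
    k1,k2],[k0,k0,k0,k0,k0,k2]]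
    [.contra [z1],.ref k79 k6 [(z2,[z1,y3,z3]),(z1,[z0,z1,z0,z1]),(z2,[y1,z1,y1,y2,z2])],.ref k63 k3 [(z1,[y1,z2,z0,
    z1]),(z1,[z1,y2,z1]),(z1,[z1,y1])],.ref k79 k6 [(z2,[z1,y2,z3]),(z1,[z0,z1,z0,z1]),(z2,[y1,z0,y1,y2,z2])],
    .ref k3 k2 [(z1,[z1,y1])],.contra [y1,z0,z0,y1,z1],.contra [z1,z1,y1],.contra [y1,z0,z0,y1,z1],.contra [y1,z0,z0,
    y1,z1],.ref k89 k5 [(z1,[z0,y1]),(z1,[z1]),(z1,[z0,z1,z0,z1])],.ref k63 k3 [(z1,[y1,z1,z0,z1]),(z1,[z1,y1,z1]),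
    (z1,[z1])],.contra [y2,z1,y1,y2,z2],.contra [z1,z1],.ref k79 k6 [(z2,[z1,y1,z3]),(z1,[z0,z1,z0,z1]),(z2,[y1,y1,y1,
    y2,z2])],.ref k3 k2 [(z1,[z1])],.ref k0 k0 [(z1,[y1,z0,z0,z0,z1])],.contra [y1,z0,z0,y1,z1],.ref k3 k2 [(z1,[z1,
    z0,y1])],.ref k100 k8 [(z1,[z0,z1,y1]),(z2,[z1,y1,z1]),(z1,[z0,z0,y1]),(z2,[y1,y1,z1,y2,z2])],.contra [z1],
    .contra [y1,y1,z1,y1,z1],.contra [z1,z2,y2],.contra [y1,y1,z1,y1,z1],.contra [y1,y1,z1,y1,z1],.contra [y2,y1,z1,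
    y2,z2],.ref k3 k2 [(z1,[z1,z1,y1])],.contra [y1,y1,z1,y1,z1],.ref k100 k8 [(z1,[z0,z1,y1]),(z2,[z1]),(z1,[z0,z0,
    y1]),(z2,[y1,y2,z2,y2,z2])],.contra [y2,z1,z1,z2],.ref k63 k3 [(z1,[z1,z1,z0,z1,y1]),(z1,[y1,y1,z1,z0,z1]),(z1,
    [y1,z0,z0,z0,z1])],.contra [y1,y1,z1,y1,z1],.ref k0 k0 [(z1,[z1,z1,z0,z2,y1])],.contra [y1,z0,z0,y1,z1],
    .contra [y1,y1,z0,y1,z1],.contra [y1,y1,z0,y1,z1],.contra [y1,y1,z1,y1,z1],.ref k1 k1 [(z1,[z1,z1,z0,z2,y1])],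
    .ref k95 k3 [(z1,[z2,z4,z1,z5,y4]),(z1,[y1,y2,z0,y2,z2]),(z1,[y2,y3,y1,y4,z4])],.contra [y1,z2,z0,z2],
    .ref k0 k0 [(z1,[z1])],.ref k3 k2 [(z2,[y1,z0,y1,y1,z2])],.ref k101 k10 [(z1,[y1,y1,z2,z0,z1]),(z1,[y2,z3,y1,z0,
    z2]),(z1,[z3,y2,y1,y5,z2]),(z1,[y2,y2,y1,z0,z2])],.ref k1 k1 [(z1,[z1])],.ref k63 k3 [(z2,[z1,z2,z1,z3,y2]),(z2,
    [y1,y2,z1,y1,z2]),(z2,[y1,z0,y1,y1,z2])],.contra [z1],.ref k62 k0 [(z1,[z1]),(z1,[z0,z0,z0,z1])],.ref k89 k5 [(z1,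
    [z0,y1]),(z1,[z1,z1]),(z1,[z0,z1,z0,z1])],.ref k68 k3 [(z1,[z2,z2,z1,z3,y2]),(z1,[y1,y1,z0,y1,z1]),(z1,[y2,y1,y1,
    y2,z2])],.contra [y1,y1,z0,y1,z1],.contra [y2,y1,y1,y2,z2],.contra [y2,z1,y1,y2,z2],.ref k78 k3 [(z1,[z1,z2,z1,z3,
    y2]),(z1,[y1,y2,z0,y2,z2]),(z1,[y1,y1,y1,y2,z2])],.contra [z1,z2],.ref k79 k6 [(z2,[z1,z0,z3]),(z1,[z0,z1,z0,z1]),
    (z2,[y1,y2,y1,y2,z2])],.ref k3 k2 [(z1,[z1,z1])],.contra [y1,y1,z0,y1,z1],.ref k100 k8 [(z1,[z0,z1,y1]),(z2,[z1,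
    z0,z1]),(z1,[z0,z0,y1]),(z2,[y1,y2,z1,y2,z2])],.contra [z1]]),
    .geo true z1 k5 [(z0,z4),(z0,z2),(z2,y4),(z0,z3),(z2,y6),(z0,z1)] [(z1,[z1]),(z1,[z0,z1]),(z1,[z0,z0,z1]),(z1,[z0,z0,
    z0,z1]),(z1,[y1,y1,y1,y1,z1]),(z1,
    [])] z0 (Int.ofNat (nat_lit 349526)) (.s (.s (.s (.l k2) (.l k1)) (.l k1)) (.l k1)) [⟨z0,z1,[[k0,k1],[k2,k3],[k4,
    k5]],.bnd k0⟩]]

noncomputable def cU6_3_n1_1 : List XN :=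
  [.geo true z2 k5 [(z0,z4),(z0,z3),(z4,y6),(z0,z1),(z4,y4),(z0,z2)] [(z1,[z2]),(z1,[z0,z1]),(z1,[z0,z0,z2]),(z1,[z0,z0,
    z0,z1]),(z1,[y2,y1,y2,y1,z2]),(z1,
    [])] z0 (Int.ofNat (nat_lit 699051)) (.s (.s (.s (.l k2) (.l k1)) (.s (.l k1) (.s (.l k1) (.l k1)))) (.s (.s (.l k1) (.l k1)) (.l k1))) [⟨z0,
    z1,[[k0,k1],[k2,k3],[k4,k5]],.bnd k0⟩],
    .geo true z1 k5 [(z0,z2),(z2,y4),(z2,y3),(y2,z6),(z2,y2),(z0,z1)] [(z1,[z1]),(z1,[z0,z1]),(z1,[z0,z0,z1]),(z1,[z0,z0,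
    z0,z1]),(z1,[y1,y1,y1,y1,z1]),(z1,
    [])] (Int.ofNat (nat_lit 349525)) (Int.ofNat (nat_lit 524288)) (.s (.s (.s (.l k1) (.l k1)) (.s (.l k1) (.l k1))) (.l k1)) [],
    .geo true z1 k5 [(y1,z3),(z2,y3),(z0,z2),(z1,y1),(z2,y2),(z0,z1)] [(z1,[z1]),(z1,[z0,z1]),(z1,[z0,z0,z1]),(z1,[z0,z0,
    z0,z1]),(z1,[y1,y1,y1,y1,z1]),(z1,
    [])] (Int.ofNat (nat_lit 349525)) (Int.ofNat (nat_lit 699051)) (.s (.l k1) (.s (.l k1) (.l k1))) [],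
    .old (.lp [k118,k170,k180,k138,(nat_lit 246),k106] [k56,k72,k38,k38,k33,k33,k54,k54,k0,k0,k70,k70] k0 [[k0,k0,k10,k0,
    k0,k0,k0,k0,k24],[k0,k0,k0,k0,k0,k50,k0,k0,k0,k0,k0,k42],[k0,k0,k0,k0,k0,k0,k0,k0,k12,k0,k28],[k0,k10,k0,k0,k0,k0,
    k0,k6],[k50],[k0,k0,k0,k0,k0,k0,k0,k42],[k0,k0,k6,k0,k42],[k0,k0,k0,k0,k0,k0,k0,k0,k0,k70,k0,k54],[k0,k0,k0,k0,k0,
    k0,k70,k0,k0,k0,k60],[k0,k24,k0,k12],[k42,k0,k0,k0,k0,k0,k54],[k0,k0,k0,k28,k0,k0,k0,k0,k0,k60]] (nat_lit 480) k6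
    [[(k10,k104),(k2,k108),(k8,k114),(k4,k141),(k0,k160),(k6,k174)],[(k11,k96),(k5,k147),(k3,k152),(k1,k160),(k7,
    k186),(k9,k190)],[(k10,k96),(k4,k125),(k0,k152),(k6,k154),(k2,k180),(k8,(nat_lit 232))],[(k1,k108),(k11,k126),(k7,
    k154),(k5,k175),(k3,k180),(k9,(nat_lit 214))],[(k0,k147),(k6,k153),(k10,k171),(k2,k175),(k4,k180),(k8,
    (nat_lit 225))],[(k3,k125),(k1,k141),(k11,k143),(k7,k159),(k5,k180),(k9,(nat_lit 255))],[(k6,k96),(k10,k122),(k2,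
    k154),(k4,k159),(k0,k186),(k8,k192)],[(k7,k96),(k5,k153),(k3,k154),(k1,k174),(k9,k192),(k11,k192)],[(k10,k122),
    (k8,k176),(k0,k190),(k6,k192),(k2,(nat_lit 214)),(k4,(nat_lit 255))],[(k1,k114),(k9,k176),(k11,k176),(k7,k192),
    (k5,(nat_lit 225)),(k3,(nat_lit 232))],[(k0,k96),(k2,k126),(k4,k143),(k10,k166),(k8,k176),(k6,k192)],[(k3,k96),
    (k1,k104),(k7,k122),(k9,k122),(k11,k166),(k5,k171)]]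
    [] k0
    [[k2,k0,k0,k0,k0,k0],[k2,k1,k0,k0,k0,k0],[k2,k1,k0,k0,k0,k1],[k2,k0,k1,k0,k0,k0],[k2,k0,k0,k0,k1,k0],[k2,k0,k0,k0,
    k0,k1],[k1,k1,k0,k0,k0,k0],[k1,k2,k0,k0,k0,k0],[k1,k1,k1,k0,k0,k0],[k1,k1,k0,k1,k0,k0],[k1,k1,k0,k0,k0,k1],[k1,k1,
    k0,k0,k0,k2],[k1,k0,k1,k0,k0,k0],[k1,k0,k2,k0,k0,k0],[k1,k0,k1,k0,k0,k1],[k1,k0,k0,k1,k0,k0],[k1,k0,k0,k2,k0,k0],
    [k1,k0,k0,k1,k0,k1],[k1,k0,k0,k0,k1,k0],[k1,k0,k0,k0,k1,k1],[k1,k0,k0,k0,k0,k1],[k2,k0,k0,k0,k0,k2],[k1,k0,k0,k0,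
    k0,k2],[k0,k2,k0,k0,k0,k0],[k0,k2,k0,k0,k0,k1],[k0,k1,k1,k0,k0,k0],[k0,k1,k1,k1,k0,k0],[k0,k1,k1,k0,k0,k1],[k0,k1,
    k0,k1,k0,k0],[k0,k1,k0,k2,k0,k0],[k0,k1,k0,k1,k0,k1],[k0,k1,k0,k0,k1,k0],[k0,k1,k0,k0,k0,k1],[k0,k2,k0,k0,k0,k2],
    [k0,k1,k0,k0,k0,k2],[k0,k0,k2,k0,k0,k0],[k0,k0,k1,k1,k0,k0],[k0,k0,k1,k2,k0,k0],[k0,k0,k1,k1,k0,k1],[k0,k0,k1,k0,
    k0,k1],[k0,k0,k0,k2,k0,k0],[k0,k0,k0,k3,k0,k0],[k0,k0,k0,k4,k0,k0],[k0,k0,k0,k2,k0,k1],[k0,k0,k0,k1,k1,k0],[k0,k0,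
    k0,k1,k0,k1],[k0,k0,k0,k0,k2,k0],[k0,k0,k0,k0,k2,k1],[k0,k0,k0,k0,k1,k1],[k0,k0,k0,k0,k1,k2],[k0,k0,k0,k0,k0,k2]]
    [.contra [z1],.ref k91 k3 [(z1,[z0,z1,z2,z3,y2]),(z1,[y1,z0,z0,y2,z2]),(z1,[z1,z0,z0,z1,y1])],.contra [y1,z1,z1,
    z2],.contra [y1,z1,z0,z3],.contra [y1,z1,z0,z4],.ref k105 k3 [(z1,[z0,z1,z2,z3,y2]),(z1,[y1,y1,y3,y4,z4]),(z1,[z0,
    y1,y3,y3,z3]),(z1,[z1,z2,z6,z6,y6])],.contra [y1,z0,z0,y1,z1],.ref k104 k3 [(z1,[z0,z1,z2,z3,y2]),(z1,[z1,z1,z3,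
    z3,y3]),(z1,[z0,y1,y3,y3,z3]),(z1,[y1,z1,z3,z1,y1])],.ref k3 k1 [(z1,[y1,z0,z0,z0,z1])],.contra [y1,z0,z0,y1,z1],
    .contra [y2,z1,z2,z1],.ref k3 k1 [(z1,[z1,y1,y2,y1,z1])],.contra [y2,z1,z0,z3],.contra [z2,y1,z0,y3],
    .ref k3 k1 [(z1,[z1,y1,y1,y2,z1])],.contra [y1,z0,y1,z0,z1],.contra [y2,y1,y4,y3,z4],.contra [y1,z0,z0,y1,z1],
    .ref k102 k9 [(z1,[y1,z0,z0,z1]),(z1,[y1,y1,y2,y2,z2]),(z1,[z1])],.ref k3 k2 [(z1,[z1])],.contra [y2,z1,z2,z1],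
    .ref k106 k8 [(z2,[z3,y2,y6]),(z1,[y1,z1,z3]),(z1,[z1,y1,y2]),(z2,[y1,z0,z0,y2,z2])],.ref k103 k9 [(z1,[z2,y1,y4,
    z1]),(z1,[z1,y1,y3,y1,z1]),(z1,[y2,z1,z4]),(z1,[z2,y1,y3])],.contra [z1],.ref k0 k9 [(z1,[z1,z0,y1,z1])],
    .ref k0 k9 [(z1,[z1])],.ref k3 k2 [(z1,[y1,z0,z0,z0,z1])],.contra [z1,z0,y1,z1],.contra [y1,z0,z0,y1,z1],
    .ref k0 k9 [(z1,[z1,z1,z2,z3,y2])],.contra [y1,z0,z0,y1,z1],.contra [y1,z0,z1],.contra [z1,y1,y3,y2,z2],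
    .contra [z1,z0,y2,z2],.ref k1 k1 [(z1,[z1,z0,y1,z1])],.contra [z1],.contra [y1,z0,y1,z0,z1],.contra [z1,z1,z2,z3,
    y2],.ref k99 k9 [(z1,[z1,z0,z0,z1,y1]),(z1,[z1,y1,y2,y2,z1]),(z1,[y1,z0,z0,z0,z1])],.ref k1 k1 [(z1,[z1])],
    .contra [z1],.contra [y1,y1,y3,y3,z3],.contra [z1,z2,z4,z6,y4],.ref k1 k1 [(z1,[z1,z1,z2,z3,y2])],.contra [y2,y1,
    y2,y1,z2],.contra [y1,z0,z0,y1,z1],.contra [y1,z0,z0,z2],.ref k0 k9 [(z1,[y1,z0,z1,z1])],.contra [y1,z0,z1],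
    .ref k3 k1 [(z2,[z1,y1,y2,y2,z2])],.contra [z1]]),
    .old (.lp [(nat_lit 1140),(nat_lit 1194),(nat_lit 1132),(nat_lit 1342),(nat_lit 1366),(nat_lit 1490)] [(nat_lit 379),
    (nat_lit 379),(nat_lit 704),k0,(nat_lit 383),(nat_lit 383),(nat_lit 278),(nat_lit 278),(nat_lit 266),
    (nat_lit 266),(nat_lit 204),(nat_lit 204)] k0 [[k0,k0,(nat_lit 320),k0,k0,k0,k0,k0,k0,k0,k124],[k0,k0,k0,k0,k0,k0,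
    k0,(nat_lit 852)],[k0,k0,k0,k0,k148,k0,k86],[k0,(nat_lit 320),k0,k0,k0,k0,k0,k0,k0,k24],[],[k0,k0,k0,k148,k0,k0,
    k0,k0,k0,(nat_lit 210)],[(nat_lit 852)],[k0,k0,k0,k86,k0,k0,k0,k0,k0,k0,k0,k16],[k0,k0,k24,k0,(nat_lit 210)],[k0,
    k0,k0,k0,k0,k0,k0,k0,k0,k0,k0,(nat_lit 482)],[k0,k0,k0,k0,k0,k0,k16,k0,(nat_lit 482)],[k0,k124]] (nat_lit 3840) k6
    [[(k2,(nat_lit 815)),(k0,(nat_lit 1016)),(k4,(nat_lit 1136)),(k6,(nat_lit 1257)),(k10,(nat_lit 1315)),(k8,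
    (nat_lit 1735))],[(k5,(nat_lit 816)),(k1,(nat_lit 1016)),(k7,(nat_lit 1241)),(k11,(nat_lit 1315)),(k3,
    (nat_lit 1519)),(k9,(nat_lit 2105))],[(k6,(nat_lit 768)),(k2,(nat_lit 1514)),(k4,(nat_lit 1515)),(k0,
    (nat_lit 1519)),(k8,(nat_lit 1632)),(k10,(nat_lit 1818))],[(k7,(nat_lit 768)),(k5,(nat_lit 811)),(k1,
    (nat_lit 815)),(k9,(nat_lit 842)),(k11,(nat_lit 1014)),(k3,(nat_lit 1514))],[(k2,(nat_lit 811)),(k0,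
    (nat_lit 816)),(k8,(nat_lit 1225)),(k4,(nat_lit 1280)),(k10,(nat_lit 1311)),(k6,(nat_lit 1323))],[(k1,
    (nat_lit 1136)),(k7,(nat_lit 1237)),(k9,(nat_lit 1249)),(k5,(nat_lit 1280)),(k3,(nat_lit 1515)),(k11,
    (nat_lit 1521))],[(k2,(nat_lit 768)),(k8,(nat_lit 1144)),(k4,(nat_lit 1237)),(k0,(nat_lit 1241)),(k6,
    (nat_lit 1342)),(k10,(nat_lit 1416))],[(k3,(nat_lit 768)),(k1,(nat_lit 1257)),(k5,(nat_lit 1323)),(k7,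
    (nat_lit 1342)),(k9,(nat_lit 1354)),(k11,(nat_lit 1416))],[(k2,(nat_lit 842)),(k4,(nat_lit 1249)),(k6,
    (nat_lit 1354)),(k8,(nat_lit 1366)),(k10,(nat_lit 1412)),(k0,(nat_lit 2105))],[(k7,(nat_lit 1144)),(k5,
    (nat_lit 1225)),(k9,(nat_lit 1366)),(k11,(nat_lit 1428)),(k3,(nat_lit 1632)),(k1,(nat_lit 1735))],[(k10,
    (nat_lit 1008)),(k2,(nat_lit 1014)),(k0,(nat_lit 1315)),(k6,(nat_lit 1416)),(k8,(nat_lit 1428)),(k4,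
    (nat_lit 1521))],[(k11,(nat_lit 1008)),(k5,(nat_lit 1311)),(k1,(nat_lit 1315)),(k9,(nat_lit 1412)),(k7,
    (nat_lit 1416)),(k3,(nat_lit 1818))]]
    [] k0
    [[k2,k0,k0,k0,k0,k0],[k3,k0,k0,k0,k0,k0],[k2,k1,k0,k0,k0,k0],[k2,k0,k1,k0,k0,k0],[k2,k0,k0,k1,k0,k0],[k2,k0,k0,k0,
    k0,k1],[k1,k1,k0,k0,k0,k0],[k1,k1,k1,k0,k0,k0],[k1,k1,k0,k1,k0,k0],[k1,k1,k1,k1,k0,k0],[k1,k0,k1,k0,k0,k0],[k1,k0,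
    k2,k0,k0,k0],[k1,k0,k1,k1,k0,k0],[k1,k0,k1,k0,k0,k1],[k1,k0,k0,k1,k0,k0],[k1,k0,k1,k0,k1,k0],[k1,k0,k0,k0,k0,k1],
    [k1,k0,k0,k0,k0,k2],[k0,k2,k0,k0,k0,k0],[k0,k2,k0,k1,k0,k0],[k0,k1,k1,k0,k0,k0],[k0,k1,k2,k0,k0,k0],[k0,k1,k1,k1,
    k0,k0],[k0,k1,k1,k0,k1,k0],[k0,k1,k0,k1,k0,k0],[k0,k2,k0,k2,k0,k0],[k0,k1,k0,k2,k0,k0],[k0,k1,k0,k1,k1,k0],[k0,k1,
    k0,k1,k0,k1],[k0,k1,k0,k0,k1,k0],[k0,k1,k0,k0,k0,k1],[k0,k0,k2,k0,k0,k0],[k0,k0,k2,k0,k1,k0],[k0,k0,k1,k1,k0,k0],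
    [k0,k0,k1,k1,k1,k0],[k0,k0,k1,k0,k1,k0],[k0,k0,k1,k0,k0,k1],[k0,k0,k0,k2,k0,k0],[k0,k0,k0,k1,k1,k0],[k0,k0,k0,k1,
    k0,k1],[k0,k0,k0,k0,k2,k0],[k0,k0,k0,k0,k1,k1],[k0,k0,k0,k0,k0,k2],[k0,k0,k0,k0,k0,k3]]
    [.contra [z1],.contra [z1,y2,z0,z1],.contra [z1,y2,z0,z1],.contra [z1,y2,z0,z1],.contra [z1,z2,z0,y1],.contra [z2,
    y3,z0,z2],.ref k0 k6 [(z1,[z1])],.ref k0 k2 [(z1,[y1,z2,z1])],.ref k64 k8 [(z1,[z2,y1,y2,y2]),(z1,[z1,y1,y1,y1]),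
    (z1,[y2,z1,z1,z1,z1])],.contra [z2,y1,y2,y2],.ref k3 k4 [(z1,[z1,y2,y1,z0,z1])],.ref k82 k4 [(z1,[y1,z0,y1,y1,
    z1]),(z2,[z1,y1]),(z1,[z1])],.ref k63 k4 [(z1,[y1,z0,y1,y1,z1]),(z1,[z1,y1]),(z1,[z1])],.ref k0 k6 [(z1,[y1,z2,
    z1])],.ref k0 k2 [(z2,[z1,z1,z0,y1])],.contra [z1,z0,z1,z1,y1],.ref k0 k2 [(z1,[z1])],.contra [z1,z1],
    .contra [z1],.ref k0 k6 [(z2,[z1,z2,z0,y1])],.contra [y2,z1,z2,z2],.ref k91 k2 [(z1,[z0,z1]),(z1,[y1,z0,z2,z2]),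
    (z1,[z1,z0,y1,y1])],.contra [y2,z1,z2,z2],.ref k99 k8 [(z1,[y1,z0,y1,y1,z1]),(z1,[y1,y1,y1,y1,z1]),(z1,[z1])],
    .contra [y2,z1,z2,z2],.ref k82 k4 [(z1,[z1,y1,y3,y3,z1]),(z2,[y1,z0,z2,z2]),(z1,[y1,z1,z2,z2])],.ref k68 k4 [(z1,
    [z2,y1,y3,y3,z1]),(z1,[y1,z0,z1,z1]),(z1,[y2,z1,z2,z2])],.ref k0 k6 [(z1,[z1,z2,z1,z0,y1])],.contra [y1,z0,z1,z1],
    .ref k1 k4 [(z1,[z1])],.contra [y1,z0,z1,z1],.contra [z1],.ref k64 k8 [(z1,[y1,z0,y1,y1,z1]),(z2,[y1,y1,y1,y1,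
    z1]),(z1,[z1])],.contra [y2,z1,z2,z2],.ref k3 k4 [(z1,[z1])],.ref k102 k8 [(z1,[y1,z0,y1,y1,z1]),(z1,[y1,y1,y1,y1,
    z1]),(z1,[z1])],.contra [y1,z0,z1,z1],.contra [z1],.contra [z1,z1,z1,z0,y1],.contra [y1,z0,z1,z1],.contra [y1,z0,
    y2,y2,z2],.contra [y2,y1,y2,y2,z2],.contra [z1],.ref k0 k2 [(z1,[z1,z1])]]),
    .old (.lp [k186,k144,k168,k148,k168,k144] [k31,k31,k52,k52,k40,k40,k100,k0,k40,k40,k44,k60] k0 [[k0,k0,k0,k0,k0,k0,k0,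
    k0,k42],[k0,k0,k0,k18],[k18],[k0,k0,k0,k0,k0,k0,k0,k0,k0,k0,k0,k24],[k0,k0,k0,k0,k0,k0,k16,k0,k12],[k0,k0,k0,k0,
    k0,k0,k0,k0,k0,k0,k0,k108],[k0,k0,k0,k0,k0,k0,k0,k0,k0,k0,k8],[k0,k0,k0,k0,k0,k16,k0,k0,k0,k8],[k0,k0,k0,k0,k0,k0,
    k8,k0,k0,k0,k60],[k0,k42,k0,k0,k0,k12],[k0,k0,k24,k0,k108],[k0,k0,k0,k0,k0,k0,k0,k8,k0,k60]] (nat_lit 480) k6
    [[(k6,k109),(k8,k117),(k10,k173),(k0,k186),(k2,k189),(k4,(nat_lit 285))],[(k11,k115),(k3,k165),(k9,k177),(k1,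
    k186),(k5,k195),(k7,(nat_lit 217))],[(k6,k96),(k2,k126),(k10,k152),(k4,k156),(k0,k165),(k8,k198)],[(k3,k126),(k11,
    k136),(k5,k156),(k9,k156),(k1,k189),(k7,k196)],[(k6,k108),(k10,k140),(k2,k156),(k4,k168),(k8,k168),(k0,k195)],
    [(k11,k136),(k9,k152),(k3,k156),(k5,k168),(k7,(nat_lit 208)),(k1,(nat_lit 285))],[(k10,k96),(k6,k164),(k2,k196),
    (k4,(nat_lit 208)),(k0,(nat_lit 217)),(k8,(nat_lit 220))],[(k3,k96),(k11,k96),(k5,k108),(k9,k108),(k1,k109),(k7,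
    k164)],[(k6,k108),(k4,k152),(k2,k156),(k8,k160),(k10,k172),(k0,k177)],[(k1,k117),(k11,k148),(k9,k160),(k5,k168),
    (k3,k198),(k7,(nat_lit 220))],[(k6,k96),(k0,k115),(k2,k136),(k4,k136),(k8,k148),(k10,(nat_lit 204))],[(k7,k96),
    (k5,k140),(k3,k152),(k9,k172),(k1,k173),(k11,(nat_lit 204))]]
    [] k0
    [[k2,k0,k0,k0,k0,k0],[k2,k0,k0,k0,k0,k1],[k1,k1,k0,k0,k0,k0],[k1,k1,k0,k0,k0,k1],[k1,k0,k0,k1,k0,k0],[k1,k1,k0,k1,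
    k0,k0],[k1,k0,k0,k1,k0,k1],[k1,k0,k0,k0,k1,k0],[k1,k1,k0,k0,k1,k0],[k1,k0,k1,k0,k1,k0],[k1,k0,k0,k1,k1,k0],[k1,k0,
    k0,k1,k1,k1],[k1,k0,k0,k0,k2,k0],[k1,k0,k0,k0,k1,k1],[k1,k0,k0,k0,k0,k1],[k0,k2,k0,k0,k0,k0],[k0,k3,k0,k0,k0,k0],
    [k0,k2,k1,k0,k0,k0],[k0,k2,k0,k1,k0,k0],[k0,k2,k0,k1,k0,k1],[k0,k2,k0,k0,k0,k1],[k0,k1,k1,k0,k0,k0],[k0,k1,k1,k1,
    k0,k0],[k0,k1,k1,k0,k0,k1],[k0,k1,k0,k1,k0,k0],[k0,k1,k0,k2,k0,k0],[k0,k1,k0,k1,k1,k0],[k0,k1,k0,k1,k0,k1],[k0,k1,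
    k0,k0,k1,k0],[k0,k1,k0,k0,k0,k1],[k0,k1,k0,k0,k1,k1],[k0,k0,k2,k0,k0,k0],[k0,k0,k2,k0,k0,k1],[k0,k0,k1,k1,k0,k0],
    [k0,k0,k1,k1,k0,k1],[k0,k0,k1,k0,k1,k0],[k0,k0,k1,k0,k1,k1],[k0,k0,k1,k0,k0,k1],[k0,k0,k1,k1,k0,k2],[k0,k0,k0,k2,
    k0,k0],[k0,k0,k0,k2,k0,k1],[k0,k0,k0,k1,k1,k0],[k0,k0,k0,k1,k0,k1],[k0,k0,k0,k2,k0,k2],[k0,k0,k0,k1,k1,k1],[k0,k0,
    k0,k1,k0,k2],[k0,k0,k0,k0,k2,k0],[k0,k0,k0,k0,k1,k1],[k0,k0,k0,k0,k0,k2]]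
    [.contra [z1],.ref k108 k9 [(z1,[z0,y1,y3,z1]),(z1,[y1,z2,z5]),(z1,[z1,y2,y4])],.contra [y1,z1,z2],
    .ref k3 k4 [(z1,[y1,z0,z0,z1])],.ref k1 k2 [(z1,[z1])],.ref k63 k2 [(z1,[z1,z0,y1]),(z1,[y1,z1,z3]),(z1,[y1,z0,z0,
    z1])],.ref k107 k5 [(z1,[y2,y1]),(z1,[z1]),(z1,[z0,z0,y1,z1])],.ref k102 k3 [(z1,[y1,z0,y1,z1]),(z1,[y1,z1,z2]),
    (z1,[z1])],.ref k64 k3 [(z1,[y2,z1,z1,z1]),(z1,[y1,z1,z2]),(z1,[z2,y1,y2])],.contra [z1,z0,z1,y1],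
    .ref k99 k3 [(z1,[y1,z0,y1,z1]),(z1,[y1,z1,z2]),(z1,[z1])],.ref k0 k9 [(z1,[y1,z0,z0,z1])],.ref k64 k3 [(z1,[y1,
    z0,y1,z1]),(z2,[y1,z1,z2]),(z1,[z1])],.ref k3 k2 [(z1,[z1])],.ref k0 k2 [(z1,[z1])],.contra [z1],.ref k0 k9 [(z1,
    [z1,y1,y3,z1])],.contra [y1,z1,z1,z1],.ref k0 k0 [(z1,[z1,y1,y3,z1])],.ref k64 k3 [(z1,[z2,y1,y5,z1]),(z1,[z1,z0,
    y1]),(z1,[y2,z1,z4])],.ref k1 k1 [(z1,[z1,y1,y3,z1])],.ref k0 k9 [(z1,[z1])],.ref k3 k2 [(z1,[y1,z0,z0,z1])],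
    .ref k99 k3 [(z1,[z1,z0,y1]),(z1,[z1,z1,z2,y1]),(z1,[y1,z0,z0,z1])],.contra [y1,z0,z1],.ref k95 k2 [(z1,[z2,z1,
    y2]),(z1,[y1,z0,z2]),(z1,[y2,y1,z1,z1])],.contra [y1,z0,z1],.contra [y1,z0,z1],.contra [y1,z0,z1],.contra [y1,z0,
    z1],.contra [y1,z0,z1],.contra [y1,z0,y2,z2],.ref k92 k4 [(z1,[y2,y1,y1,z1]),(z1,[z1]),(z1,[z0,z0,y1,z1])],
    .ref k0 k0 [(z1,[z1])],.ref k64 k3 [(z1,[z2,z1,z1,y1]),(z1,[z1,z1,z2,y1]),(z1,[y2,y1,y2,z2])],.ref k89 k2 [(z1,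
    [y1,z0,y1,z1]),(z1,[z1,z1,z3,y1]),(z1,[z1])],.ref k63 k2 [(z1,[y1,z0,y1,z1]),(z1,[z1,z1,z3,y1]),(z1,[z1])],
    .ref k1 k1 [(z1,[z1])],.ref k91 k9 [(z1,[z0,y1,y3,z1]),(z1,[z1,z1,z3,y1]),(z1,[y1,y1,y2,z1])],.contra [z1],
    .ref k78 k2 [(z1,[z1,z1]),(z1,[y1,z0,z2]),(z1,[y1,y1,y1,z1])],.contra [y1,z0,z1],.contra [y1,z0,z1],
    .ref k82 k2 [(z1,[z1,z1]),(z2,[y1,z0,z2]),(z1,[y1,y1,y1,z1])],.contra [y1,z0,z1],.ref k68 k2 [(z1,[z2,z1]),(z1,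
    [y1,z0,z1]),(z1,[y2,y1,y1,z1])],.contra [z1],.contra [y1,z0,z1],.contra [z1]]),
    .geo true z3 k4 [(y2,z3),(z2,z0),(z6,y6),(z2,z0),(z0,z3),(z4,z0)] [(z1,[z1]),(z1,[z0,z1]),(z1,[z0,z0,z3]),(z1,[z0,z0,
    z0,z1]),(z1,[]),(z1,[y1,y1,y3,y1,z3])] (Int.ofNat (nat_lit 699050)) (Int.ofNat (nat_lit 1048576)) (.l k1) [],
    .geo true z2 k4 [(y1,z2),(z1,z0),(z4,y4),(z1,z0),(z0,z2),(z3,z0)] [(z1,[z1]),(z1,[z0,z1]),(z1,[z0,z0,z2]),(z1,[z0,z0,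
    z0,z1]),(z1,[]),(z1,[y1,y1,y2,y1,
    z2])] (Int.ofNat (nat_lit 524288)) (Int.ofNat (nat_lit 1048576)) (.s (.l k1) (.l k1)) [],
    .geo true z5 k4 [(y2,z5),(z2,z0),(z10,y10),(z2,z0),(z0,z5),(z8,z0)] [(z1,[z1]),(z1,[z0,z1]),(z1,[z0,z0,z5]),(z1,[z0,
    z0,z0,z1]),(z1,[]),(z1,[y1,y1,y5,y1,
    z5])] (Int.ofNat (nat_lit 419430)) (Int.ofNat (nat_lit 1048576)) (.s (.s (.l k1) (.l k1)) (.l k1)) [],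
    .geo true z1 k5 [(y2,z4),(y4,z5),(z4,y4),(z2,y2),(z4,y4),(z0,z1)] [(z1,[z1]),(z1,[z0,z1]),(z1,[z0,z0,z1]),(z1,[z0,z0,
    z0,z1]),(z1,[y1,y1,y1,y1,z1]),(z1,
    [])] (Int.ofNat (nat_lit 838860)) (Int.ofNat (nat_lit 1048576)) (.s (.l k1) (.l k2)) [⟨z1,z1,[[k0,k2],[k1,k4],[k3,
    k5]],.bnd k0⟩],
    .geo true z1 k5 [(y2,z4),(z2,y2),(y2,z4),(z2,y3),(z4,y4),(z0,z1)] [(z1,[z1]),(z1,[z0,z1]),(z1,[z0,z0,z1]),(z1,[z0,z0,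
    z0,z1]),(z1,[y1,y1,y1,y1,z1]),(z1,
    [])] (Int.ofNat (nat_lit 524288)) (Int.ofNat (nat_lit 699051)) (.s (.s (.l k2) (.l k1)) (.l k1)) [⟨z1,z2,[[k0,k2],
    [k1,k5],[k3,k4]],.bnd k0⟩],
    .geo true z1 k5 [(y1,z2),(z2,y2),(y1,z2),(z1,y1),(z3,y2),(z0,z1)] [(z1,[z1]),(z1,[z0,z1]),(z1,[z0,z0,z1]),(z1,[z0,z0,
    z0,z1]),(z1,[y1,y1,y1,y1,z1]),(z1,
    [])] (Int.ofNat (nat_lit 524288)) (Int.ofNat (nat_lit 1048576)) (.s (.s (.s (.l k2) (.l k1)) (.l k1)) (.l k1)) [⟨z1,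
    z2,[[k0,k2],[k1,k5],[k3,k4]],.bnd k0⟩]]

noncomputable def cU6_3_n1_2 : List XN :=
  [.geo true z1 k5 [(y2,z4),(z0,z1),(z2,y2),(z2,y1),(z2,y3),(z0,z1)] [(z1,[z1]),(z1,[z0,z1]),(z1,[z0,z0,z1]),(z1,[z0,z0,
    z0,z1]),(z1,[y1,y1,y1,y1,z1]),(z1,
    [])] (Int.ofNat (nat_lit 524288)) (Int.ofNat (nat_lit 699051)) (.s (.l k1) (.l k1)) [],
    .geo true z1 k5 [(z0,z3),(y2,z4),(z2,y3),(z2,y2),(z2,y3),(z0,z1)] [(z1,[z1]),(z1,[z0,z1]),(z1,[z0,z0,z1]),(z1,[z0,z0,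
    z0,z1]),(z1,[y1,y1,y1,y1,z1]),(z1,
    [])] (Int.ofNat (nat_lit 524288)) (Int.ofNat (nat_lit 699051)) (.s (.l k1) (.l k2)) [⟨z2,z3,[[k0,k5],[k1,k2],[k3,
    k4]],.bnd k0⟩],
    .geo true z1 k5 [(y2,z5),(y4,z6),(z4,y5),(z2,y2),(z4,y5),(z0,z1)] [(z1,[z1]),(z1,[z0,z1]),(z1,[z0,z0,z1]),(z1,[z0,z0,
    z0,z1]),(z1,[y1,y1,y1,y1,z1]),(z1,
    [])] (Int.ofNat (nat_lit 699050)) (Int.ofNat (nat_lit 838861)) (.s (.l k1) (.l k2)) [⟨z4,z5,[[k0,k5],[k1,k2],[k3,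
    k4]],.bnd k0⟩],
    .geo true z1 k5 [(y3,z2),(z2,y1),(z4,y2),(z2,y1),(y1,z1),(z0,z1)] [(z1,[z1]),(z1,[z0,z1]),(z1,[z0,z0,z1]),(z1,[z0,z0,
    z0,z1]),(z1,[y1,y1,y1,y1,z1]),(z1,
    [])] (Int.ofNat (nat_lit 1572864)) (Int.ofNat (nat_lit 2097152)) (.s (.s (.l k1) (.l k1)) (.s (.l k1) (.s (.l k1) (.s (.l k1) (.l k2))))) [⟨z2,
    z1,[[k0,k1],[k2,k3],[k4,k5]],.bnd k1⟩],
    .geo true z1 k5 [(z0,z3),(z2,y1),(z0,z2),(z0,z1),(z2,y6),(z0,z1)] [(z1,[z1]),(z1,[z0,z1]),(z1,[z0,z0,z1]),(z1,[z0,z0,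
    z0,z1]),(z1,[y1,y1,y1,y1,z1]),(z1,
    [])] z0 (Int.ofNat (nat_lit 349526)) (.s (.s (.s (.s (.s (.l k2) (.l k1)) (.l k1)) (.l k1)) (.s (.l k1) (.l k1))) (.s (.s (.l k1) (.l k1)) (.l k1))) [⟨z0,
    z1,[[k0,k1],[k2,k3],[k4,k5]],.bnd k0⟩],
    .geo true z1 k5 [(z0,z3),(z2,y2),(z2,y3),(y2,z4),(z2,y3),(z0,z1)] [(z1,[z1]),(z1,[z0,z1]),(z1,[z0,z0,z1]),(z1,[z0,z0,
    z0,z1]),(z1,[y1,y1,y1,y1,z1]),(z1,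
    [])] (Int.ofNat (nat_lit 524288)) (Int.ofNat (nat_lit 699051)) (.s (.l k1) (.s (.l k1) (.l k2))) [⟨z2,z3,[[k0,k5],
    [k1,k2],[k3,k4]],.bnd k0⟩],
    .geo true z2 k5 [(y1,z2),(z4,y4),(y1,z2),(z1,z0),(z5,y2),(z0,z2)] [(z1,[z1]),(z1,[z0,z2]),(z1,[z0,z0,z1]),(z1,[z0,z0,
    z0,z1]),(z1,[y1,y2,y1,y1,z2]),(z1,
    [])] (Int.ofNat (nat_lit 524288)) (Int.ofNat (nat_lit 1048576)) (.s (.s (.s (.s (.l k2) (.l k1)) (.l k1)) (.l k1)) (.l k1)) [⟨z1,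
    z2,[[k0,k2],[k1,k5],[k3,k4]],.bnd k0⟩],
    .geo true z5 k5 [(y2,z5),(z10,y10),(y2,z5),(z2,z0),(z12,y5),(z0,z5)] [(z1,[z1]),(z1,[z0,z5]),(z1,[z0,z0,z1]),(z1,[z0,
    z0,z0,z1]),(z1,[y1,y5,y1,y1,z5]),(z1,
    [])] (Int.ofNat (nat_lit 419430)) (Int.ofNat (nat_lit 1048576)) (.s (.s (.s (.s (.s (.l k2) (.l k1)) (.l k1)) (.l k1)) (.l k1)) (.l k1)) [⟨z2,
    z5,[[k0,k5],[k1,k2],[k3,k4]],.bnd k0⟩],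
    .old (.lp [(nat_lit 458),(nat_lit 568),(nat_lit 356),(nat_lit 702),(nat_lit 792),(nat_lit 960)] [(nat_lit 282),
    (nat_lit 220),k196,k196,(nat_lit 302),(nat_lit 302),k129,k129,k84,k84,k0,k0] k0 [[k0,k0,k0,k0,k0,k0,k0,k0,k0,k0,
    k138],[k0,k0,k0,k104],[k104,k0,k0,k0,k142],[k0,k0,k0,k0,k0,k0,k0,k118,k0,(nat_lit 254)],[k0,k0,k0,k0,k0,k0,k0,k0,
    k98,k0,k118],[k0,k0,k0,k142,k0,k0,k0,(nat_lit 374)],[k0,k0,k118,k0,(nat_lit 374)],[k0,k0,k0,k0,k0,k0,k0,k0,k0,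
    k140,k0,k120],[k0,k0,(nat_lit 254),k0,k0,k0,k140],[k0,k0,k0,k0,k0,k98,k0,k0,k0,k0,k0,(nat_lit 350)],[k0,k0,k0,k0,
    k0,k0,k120,k0,(nat_lit 350)],[k0,k138,k0,k0,k0,k118]] (nat_lit 1920) k7
    [[(k0,(nat_lit 320)),(k4,(nat_lit 320)),(k2,(nat_lit 544)),(k6,(nat_lit 731)),(k10,(nat_lit 740)),(k8,
    (nat_lit 1006))],[(k1,(nat_lit 320)),(k5,(nat_lit 480)),(k3,(nat_lit 482)),(k7,(nat_lit 549)),(k9,(nat_lit 594)),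
    (k11,(nat_lit 678))],[(k4,(nat_lit 462)),(k2,(nat_lit 464)),(k0,(nat_lit 482)),(k6,(nat_lit 635)),(k8,
    (nat_lit 680)),(k10,(nat_lit 902))],[(k5,(nat_lit 462)),(k3,(nat_lit 464)),(k7,(nat_lit 493)),(k1,(nat_lit 544)),
    (k9,(nat_lit 798)),(k11,(nat_lit 1018))],[(k8,(nat_lit 320)),(k6,(nat_lit 411)),(k2,(nat_lit 462)),(k0,
    (nat_lit 480)),(k4,(nat_lit 498)),(k10,(nat_lit 658))],[(k1,(nat_lit 320)),(k3,(nat_lit 462)),(k5,(nat_lit 498)),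
    (k7,(nat_lit 529)),(k11,(nat_lit 560)),(k9,(nat_lit 948))],[(k6,(nat_lit 328)),(k2,(nat_lit 493)),(k4,
    (nat_lit 529)),(k0,(nat_lit 549)),(k8,(nat_lit 845)),(k10,(nat_lit 949))],[(k7,(nat_lit 328)),(k5,(nat_lit 411)),
    (k3,(nat_lit 635)),(k1,(nat_lit 731)),(k9,(nat_lit 747)),(k11,(nat_lit 971))],[(k0,(nat_lit 594)),(k8,
    (nat_lit 652)),(k6,(nat_lit 747)),(k10,(nat_lit 756)),(k2,(nat_lit 798)),(k4,(nat_lit 948))],[(k5,(nat_lit 320)),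
    (k9,(nat_lit 652)),(k3,(nat_lit 680)),(k7,(nat_lit 845)),(k11,(nat_lit 876)),(k1,(nat_lit 1006))],[(k4,
    (nat_lit 560)),(k10,(nat_lit 610)),(k0,(nat_lit 678)),(k8,(nat_lit 876)),(k6,(nat_lit 971)),(k2,(nat_lit 1018))],
    [(k11,(nat_lit 610)),(k5,(nat_lit 658)),(k1,(nat_lit 740)),(k9,(nat_lit 756)),(k3,(nat_lit 902)),(k7,
    (nat_lit 949))]]
    [] k0
    [[k2,k0,k0,k0,k0,k0],[k3,k0,k0,k0,k0,k0],[k4,k0,k0,k0,k0,k0],[k5,k0,k0,k0,k0,k0],[k4,k0,k1,k0,k0,k0],[k3,k1,k0,k0,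
    k0,k0],[k3,k0,k1,k0,k0,k0],[k3,k1,k1,k0,k0,k0],[k3,k0,k1,k0,k1,k0],[k2,k1,k0,k0,k0,k0],[k2,k2,k0,k0,k0,k0],[k2,k1,
    k1,k0,k0,k0],[k2,k0,k1,k0,k0,k0],[k2,k0,k2,k0,k0,k0],[k2,k0,k1,k1,k0,k0],[k2,k0,k1,k0,k1,k0],[k2,k0,k0,k1,k0,k0],
    [k2,k0,k0,k0,k0,k1],[k1,k1,k0,k0,k0,k0],[k1,k2,k0,k0,k0,k0],[k1,k1,k1,k0,k0,k0],[k1,k1,k0,k1,k0,k0],[k1,k1,k0,k0,
    k1,k0],[k1,k0,k1,k0,k0,k0],[k1,k2,k1,k0,k0,k0],[k1,k1,k2,k0,k0,k0],[k1,k0,k2,k0,k0,k0],[k1,k0,k3,k0,k0,k0],[k1,k0,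
    k2,k1,k0,k0],[k1,k0,k2,k0,k1,k0],[k1,k0,k1,k1,k0,k0],[k1,k1,k1,k1,k0,k0],[k1,k0,k1,k2,k0,k0],[k1,k0,k1,k0,k1,k0],
    [k1,k0,k1,k0,k2,k0],[k1,k0,k1,k0,k0,k1],[k1,k0,k0,k1,k0,k0],[k1,k0,k0,k2,k0,k0],[k1,k0,k0,k0,k1,k0],[k1,k0,k0,k0,
    k0,k1],[k0,k2,k0,k0,k0,k0],[k0,k3,k0,k0,k0,k0],[k0,k4,k0,k0,k0,k0],[k0,k3,k1,k0,k0,k0],[k0,k2,k1,k0,k0,k0],[k0,k2,
    k2,k0,k0,k0],[k0,k2,k1,k1,k0,k0],[k0,k2,k0,k1,k0,k0],[k0,k1,k1,k0,k0,k0],[k0,k1,k2,k0,k0,k0],[k0,k1,k2,k1,k0,k0],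
    [k0,k1,k1,k1,k0,k0],[k0,k1,k1,k2,k0,k0],[k0,k1,k1,k0,k1,k0],[k0,k1,k0,k1,k0,k0],[k0,k1,k0,k2,k0,k0],[k0,k1,k0,k3,
    k0,k0],[k0,k1,k0,k0,k1,k0],[k0,k0,k2,k0,k0,k0],[k0,k0,k3,k0,k0,k0],[k0,k0,k2,k1,k0,k0],[k0,k0,k2,k2,k0,k0],[k0,k0,
    k2,k0,k1,k0],[k0,k0,k2,k0,k0,k1],[k0,k0,k1,k1,k0,k0],[k0,k0,k1,k2,k0,k0],[k0,k0,k1,k3,k0,k0],[k0,k0,k1,k0,k1,k0],
    [k0,k0,k1,k1,k1,k0],[k0,k0,k1,k0,k1,k1],[k0,k0,k1,k0,k0,k1],[k0,k0,k1,k0,k0,k2],[k0,k0,k0,k2,k0,k0],[k0,k0,k0,k3,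
    k0,k0],[k0,k0,k0,k4,k0,k0],[k0,k0,k0,k5,k0,k0],[k0,k0,k0,k1,k1,k0],[k0,k0,k0,k0,k2,k0],[k0,k0,k0,k0,k1,k1],[k0,k0,
    k0,k0,k0,k2],[k0,k0,k0,k0,k0,k3]]
    [.contra [z1],.ref k62 k2 [(z1,[z1]),(z1,[z0,z0,z1])],.ref k122 k7 [(z2,[y1,z0,y4,y4,z4]),(z1,[z0,z0,z0,z1]),(z2,
    [y1,z4,z4]),(z2,[z1])],.ref k123 k7 [(z1,[y1,z0,y5,y5,z5]),(z1,[z0,z0,z0,z1]),(z1,[y1,z5,z5]),(z1,[z1])],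
    .ref k0 k2 [(z2,[z1,y2,z0,y1])],.ref k121 k11 [(z1,[y1,z0,z1]),(z1,[z1,y1,y1]),(z1,[z1,y1,y2,y1,z1]),(z1,[y2,z2,
    z2,z1])],.ref k120 k4 [(z1,[z1,z0,z3,z2,y3]),(z1,[z0,y1,y1,y1,z1]),(z1,[z1,z0,z2,z1,y2]),(z1,[z0,z1,z2,z1,y1])],
    .ref k0 k2 [(z1,[z1,y2,y1,y1])],.ref k109 k1 [(z1,[z1,y1,z2,y1,y2]),(z1,[z0,z0,y1,z0,z1])],.contra [y1,z2,z2,z1],
    .contra [z1,y2,y2],.contra [y1,z2,z2,z1],.contra [y1,z2,z2,z1],.ref k119 k2 [(z2,[y1,z4,z0,z2]),(z1,[z0,z0,z1]),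
    (z1,[z1,y2,z0,y1]),(z1,[z0,y1,y1,y1,z1])],.contra [y1,z1,z0,z0,z1],.ref k0 k2 [(z1,[z1,y1,z0,y1])],.contra [y1,z1,
    z0,z0,z1],.ref k109 k1 [(z1,[z1,z0,z2,z0,y2]),(z1,[z0,z0,y1,z0,z1])],.contra [y1,z2,z2,z1],.contra [y1,z2,z2,z1],
    .contra [y1,z2,z2,z1],.contra [y1,z1,z0,z0,z1],.contra [z1,y1,y1],.contra [y1,z2,z2,z1],.contra [y1,z2,z2,z1],
    .ref k62 k4 [(z1,[y1,z1,z1,z2]),(z1,[z0,y1,y1,y1,z1])],.ref k117 k1 [(z1,[z1,y1,z0,y2]),(z1,[z1,z0,z0,y2]),(z1,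
    [y1,z1,z1,z2]),(z1,[z0,z0,z0,z1])],.ref k118 k1 [(z1,[z1,y1,z0,y3]),(z1,[z1,z0,z0,y3]),(z1,[y1,z1,z1,z3]),(z1,[z0,
    z0,z0,z1])],.ref k62 k4 [(z1,[y1,z0,y1,z1,z1]),(z1,[z0,y1,y1,y1,z1])],.ref k1 k1 [(z1,[z1,y1,z0,y1])],.contra [y1,
    z1,z0,z0,z1],.contra [y1,z1,z0,z0,z1],.contra [y1,z0,y2,y1,z2],.contra [y1,z1,z1,z1],.contra [z1,z0,z0,y1],
    .ref k116 k9 [(z1,[z2,y2,y4,y1]),(z1,[z0,y1,y2,y1,z1]),(z1,[y1,z1,z2,z1]),(z1,[z0,z0,z1])],.contra [y1,z1,z0,z0,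
    z1],.contra [y1,z0,y2,y1,z2],.contra [y1,z1,z1,z1],.ref k0 k2 [(z1,[z1])],.contra [z1],.ref k110 k2 [(z1,[y1,z3,
    z3]),(z1,[z1]),(z1,[z0,z0,z0,z1]),(z1,[z1,y3,y6,y3,z3])],.ref k111 k2 [(z2,[y1,z4,z4]),(z2,[z1]),(z1,[z0,z0,z0,
    z1]),(z2,[z1,y4,y8,y4,z4])],.ref k109 k1 [(z1,[y1,z2,z5,z1,y2]),(z1,[z0,z0,y1,z0,z1])],.contra [y1,z2,z2,z1],
    .ref k115 k7 [(z2,[z1,y2,y4,y4,z2]),(z1,[z0,z0,z0,z1]),(z2,[z1,z0,z0,y2]),(z2,[y1,z2,z2,z2])],.ref k109 k1 [(z1,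
    [y1,z1,z3,z0,y1]),(z1,[z0,z0,y1,z0,z1])],.ref k110 k2 [(z1,[y1,z2,z1,y1,z1]),(z1,[z1,z1,z2,z1,y1]),(z1,[z0,z0,z0,
    z1]),(z1,[z1,y2,y4,y2,z2])],.contra [y1,z2,z2,z1],.ref k114 k7 [(z1,[z1,y1,y2,y3,z1]),(z1,[z0,z0,z0,z1]),(z1,[z1,
    z0,z0,y2]),(z1,[y1,z1,z1,z2])],.ref k115 k7 [(z2,[z1,y1,y2,y3,z1]),(z1,[z0,z0,z0,z1]),(z2,[z1,z1,z2,y1,y1]),(z2,
    [y1,z1,z0,z1,z1])],.contra [y1,z1,z0,z0,z1],.ref k109 k1 [(z1,[y1,z0,z1,y1]),(z1,[z0,z0,y1,z0,z1])],.contra [y1,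
    z1,z1,z1],.contra [z1,z1,z2,z1,y1],.ref k110 k2 [(z1,[y1,z1,y1,y2,z2]),(z1,[z1,z2,z4,z2,y2]),(z1,[z0,z0,z0,z1]),
    (z1,[z1,y1,y2,y1,z1])],.ref k111 k2 [(z2,[y1,z1,y2,y3,z3]),(z2,[z1,z3,z6,z3,y3]),(z1,[z0,z0,z0,z1]),(z2,[z1,y1,y2,
    y1,z1])],.contra [y1,z1,z1,z1],.contra [z1],.ref k62 k4 [(z2,[y1,z0,z0,z3]),(z1,[z0,y1,y1,y1,z1])],
    .ref k114 k7 [(z1,[z1,z0,z0,y2]),(z1,[z0,z0,z0,z1]),(z1,[z1,z1,z2,y1,y1]),(z1,[y1,z0,y1,z1,z1])],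
    .ref k115 k7 [(z2,[z1,z0,z0,y2]),(z1,[z0,z0,z0,z1]),(z2,[z1,z2,z4,z0,y2]),(z2,[y1,z0,y2,z0,z2])],.ref k62 k4 [(z1,
    [y1,z0,z0,z2]),(z1,[z0,y1,y1,y1,z1])],.ref k113 k1 [(z1,[z1,z0,z0,y2]),(z1,[z1,z1,z0,y2]),(z1,[y1,z0,z1,z2]),(z1,
    [z0,z0,z0,z1])],.contra [y1,z1,z0,z0,z1],.contra [y1,z0,y2,y1,z2],.ref k109 k1 [(z1,[y1,y1,y1,y2,z1]),(z1,[z0,z0,
    y1,z0,z1])],.contra [y1,z1,z1,z1],.contra [y1,z0,y1,z0,z1],.contra [z1,z1],.ref k1 k1 [(z1,[z1])],.contra [z1,z2,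
    z0,z1],.contra [z1,z2,z4,z2,y2],.ref k110 k2 [(z1,[y1,z0,y3,y3,z3]),(z1,[z1,z3,z6,z3,y3]),(z1,[z0,z0,z0,z1]),(z1,
    [z1])],.ref k111 k2 [(z2,[y1,z0,y4,y4,z4]),(z2,[z1,z4,z8,z4,y4]),(z1,[z0,z0,z0,z1]),(z2,[z1])],.ref k112 k2 [(z1,
    [y1,z0,y5,y5,z5]),(z1,[z1,z5,z10,z5,y5]),(z1,[z0,z0,z0,z1]),(z1,[z1])],.contra [y1,z0,y1,z0,z1],.contra [z1],
    .contra [z1,z1],.contra [y1,z0,z2],.contra [z1,z4,z1,z2]]),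
    .geo true z3 k5 [(y6,z8),(z6,y6),(z6,y4),(z6,y3),(z0,z2),(z0,z3)] [(z1,[z1]),(z1,[z0,z3]),(z1,[z0,z0,z1]),(z1,[z0,z0,
    z0,z3]),(z1,[y1,y3,y1,y3,z3]),(z1,
    [])] (Int.ofNat (nat_lit 786432)) (Int.ofNat (nat_lit 1048576)) (.s (.l k1) (.l k1)) [],
    .geo true z2 k5 [(z0,z3),(z4,y4),(y4,z6),(z4,y4),(z4,y3),(z0,z2)] [(z1,[z1]),(z1,[z0,z2]),(z1,[z0,z0,z2]),(z1,[z0,z0,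
    z0,z2]),(z1,[y1,y2,y2,y2,z2]),(z1,[])] (Int.ofNat (nat_lit 699050)) (Int.ofNat (nat_lit 1048576)) (.l k1) [],
    .geo true z1 k5 [(y4,z4),(y2,z2),(z5,y4),(z2,y1),(z3,y2),(z0,z1)] [(z1,[z1]),(z1,[z0,z1]),(z1,[z0,z0,z1]),(z1,[z0,z0,
    z0,z1]),(z1,[y1,y1,y1,y1,z1]),(z1,
    [])] (Int.ofNat (nat_lit 1048576)) (Int.ofNat (nat_lit 1310720)) (.s (.l k1) (.l k1)) []]

noncomputable def cU6_3_n1_3 : List XN :=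
  [.geo true z3 k4 [(y2,z3),(z2,z0),(z6,y6),(z4,z0),(z0,z3),(z2,z0)] [(z1,[z1]),(z1,[z0,z1]),(z1,[z0,z0,z3]),(z1,[z0,z0,
    z0,z1]),(z1,[]),(z1,[y1,y1,y3,y1,z3])] (Int.ofNat (nat_lit 699050)) (Int.ofNat (nat_lit 1048576)) (.l k1) [],
    .old (.lp [(nat_lit 320),(nat_lit 228),(nat_lit 408),(nat_lit 312),(nat_lit 326),(nat_lit 324)] [k52,k36,k20,k160,k0,
    k0,k48,k48,k41,k41,k42,k42] k0 [[k0,k0,k114,k0,k0,k0,k0,k0,k8],[k0,k0,k0,k0,k0,k6],[k0,k0,k0,k0,k0,k0,k0,k0,k154,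
    k0,k160],[k0,k114,k0,k0,k0,k78],[k6,k0,k78],[k0,k0,k0,k0,k0,k0,k0,k72,k0,k0,k0,k26],[k0,k0,k0,k0,k72],[k0,k0,k0,
    k0,k0,k0,k0,k0,k0,k110,k0,k2],[k0,k0,k0,k0,k0,k0,k110],[k0,k8,k0,k154],[k0,k0,k0,k0,k26,k0,k2],[k0,k0,k0,
    k160]] (nat_lit 960) k6
    [[(k2,k192),(k0,(nat_lit 320)),(k6,(nat_lit 326)),(k10,(nat_lit 330)),(k8,(nat_lit 331)),(k4,(nat_lit 398))],[(k3,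
    k196),(k5,(nat_lit 242)),(k11,(nat_lit 306)),(k7,(nat_lit 314)),(k9,(nat_lit 315)),(k1,(nat_lit 320))],[(k0,k196),
    (k6,(nat_lit 200)),(k10,(nat_lit 206)),(k8,(nat_lit 215)),(k4,(nat_lit 242)),(k2,(nat_lit 342))],[(k1,k192),(k11,
    k192),(k3,(nat_lit 342)),(k9,(nat_lit 347)),(k5,(nat_lit 388)),(k7,(nat_lit 418))],[(k0,(nat_lit 242)),(k4,
    (nat_lit 330)),(k6,(nat_lit 360)),(k2,(nat_lit 388)),(k8,(nat_lit 521)),(k10,(nat_lit 526))],[(k3,(nat_lit 242)),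
    (k5,(nat_lit 330)),(k7,(nat_lit 360)),(k11,(nat_lit 366)),(k1,(nat_lit 398)),(k9,(nat_lit 439))],[(k6,
    (nat_lit 240)),(k10,(nat_lit 292)),(k0,(nat_lit 314)),(k8,(nat_lit 319)),(k4,(nat_lit 360)),(k2,(nat_lit 418))],
    [(k3,(nat_lit 200)),(k7,(nat_lit 240)),(k9,(nat_lit 319)),(k1,(nat_lit 326)),(k5,(nat_lit 360)),(k11,
    (nat_lit 428))],[(k8,(nat_lit 216)),(k0,(nat_lit 315)),(k6,(nat_lit 319)),(k10,(nat_lit 323)),(k2,(nat_lit 347)),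
    (k4,(nat_lit 439))],[(k3,(nat_lit 215)),(k9,(nat_lit 216)),(k7,(nat_lit 319)),(k11,(nat_lit 325)),(k1,
    (nat_lit 331)),(k5,(nat_lit 521))],[(k2,k192),(k0,(nat_lit 306)),(k10,(nat_lit 324)),(k8,(nat_lit 325)),(k4,
    (nat_lit 366)),(k6,(nat_lit 428))],[(k3,(nat_lit 206)),(k7,(nat_lit 292)),(k9,(nat_lit 323)),(k11,(nat_lit 324)),
    (k1,(nat_lit 330)),(k5,(nat_lit 526))]]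
    [] k0
    [[k2,k0,k0,k0,k0,k0],[k2,k1,k0,k0,k0,k0],[k2,k0,k0,k0,k0,k1],[k1,k1,k0,k0,k0,k0],[k2,k2,k0,k0,k0,k0],[k1,k2,k0,k0,
    k0,k0],[k1,k1,k1,k0,k0,k0],[k1,k1,k0,k1,k0,k0],[k1,k1,k0,k2,k0,k0],[k1,k1,k0,k0,k1,k0],[k1,k2,k0,k0,k1,k0],[k1,k1,
    k0,k0,k2,k0],[k1,k1,k0,k0,k0,k1],[k1,k2,k0,k0,k0,k1],[k1,k0,k1,k0,k0,k0],[k1,k0,k0,k1,k0,k0],[k1,k0,k1,k1,k0,k0],
    [k1,k0,k0,k2,k0,k0],[k1,k0,k0,k1,k0,k1],[k1,k0,k0,k0,k1,k0],[k1,k0,k0,k0,k2,k0],[k1,k0,k0,k0,k0,k1],[k1,k0,k1,k0,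
    k0,k1],[k0,k2,k0,k0,k0,k0],[k0,k2,k0,k0,k1,k0],[k0,k2,k0,k0,k0,k1],[k0,k1,k1,k0,k0,k0],[k0,k1,k0,k1,k0,k0],[k0,k1,
    k1,k1,k0,k0],[k0,k1,k0,k2,k0,k0],[k0,k1,k0,k2,k0,k1],[k0,k1,k0,k1,k1,k0],[k0,k1,k0,k1,k0,k1],[k0,k1,k0,k0,k1,k0],
    [k0,k1,k0,k0,k2,k0],[k0,k1,k0,k0,k2,k1],[k0,k1,k0,k0,k1,k1],[k0,k1,k0,k0,k0,k1],[k0,k2,k0,k0,k0,k2],[k0,k1,k0,k0,
    k0,k2],[k0,k0,k2,k0,k0,k0],[k0,k0,k1,k1,k0,k0],[k0,k0,k1,k0,k0,k1],[k0,k0,k0,k2,k0,k0],[k0,k0,k0,k3,k0,k0],[k0,k0,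
    k0,k2,k1,k0],[k0,k0,k0,k1,k1,k0],[k0,k0,k0,k1,k2,k0],[k0,k0,k0,k1,k0,k1],[k0,k0,k0,k1,k1,k1],[k0,k0,k0,k0,k2,k0],
    [k0,k0,k0,k0,k3,k0],[k0,k0,k0,k0,k4,k0],[k0,k0,k0,k0,k2,k1],[k0,k0,k0,k0,k1,k1],[k0,k0,k0,k0,k0,k2]]
    [.contra [z1],.contra [y1,z2,z1],.contra [y1,z2,z1],.contra [y2,z3,z1,z2],.contra [z1,y4,y2,y2,z2],.contra [y1,z2,
    z1],.contra [y2,z3,z1,z2],.contra [z1,y2,y1,y1,z1],.ref k62 k0 [(z1,[z1,y2,y1,y1,z1]),(z1,[z0,z0,z0,z1])],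
    .ref k0 k4 [(z1,[z1,y2,y1,y1,z1])],.ref k0 k1 [(z1,[y1,z1,z1])],.contra [z1,z1],.contra [y1,z2,z1],.contra [z1,y1,
    y1,z2],.contra [y1,z1,z0,z2],.contra [y1,z0,z0,y1,z1],.ref k0 k4 [(z1,[z1,y1,z0,y1])],.ref k0 k4 [(z2,[z1,y1])],
    .contra [y1,z0,z0,y1,z1],.ref k128 k10 [(z1,[y2,z5,z3,z3,y3]),(z1,[z2,z1]),(z1,[z0,y2,y1,y2,z2]),(z1,[z1,y1])],
    .contra [y1,z1,z0,z4],.contra [y1,z2,z1],.ref k0 k1 [(z1,[z1,y1,z0,y1])],.contra [z1],.ref k3 k2 [(z1,[y1,z1,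
    z1])],.contra [z1,z0,y1,z4],.contra [y2,z3,z1,z2],.contra [y1,z0,z0,y1,z1],.ref k3 k2 [(z1,[y1,z0,z0,z0,z1])],
    .ref k126 k4 [(z1,[y1,z1,z1,z1,y1]),(z1,[z0,y2,y1,y2,z2]),(z1,[y1,z2,z1,z1,y1]),(z1,[z1])],.contra [z1,z2,z1,z2,
    y2],.ref k0 k1 [(z1,[y1,y1,z0,y1,z1])],.contra [z1,z1,z0,z3,y1],.contra [y2,z1,z1],.contra [z1,z1],.contra [z2,z1,
    y1,z2],.ref k0 k4 [(z1,[y1,y1,z0,y1,z1])],.contra [y1,z2,z1],.ref k127 k1 [(z1,[z1,z0,y1]),(z1,[z0,z1]),(z2,[y1,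
    z0,z2]),(z1,[z0,z0,z0,z1])],.ref k125 k10 [(z1,[y1,z0,z2,y8]),(z1,[z0,z1,z0,z2]),(z1,[z2,z0,y1,z4]),(z1,[z0,z0,z0,
    z1])],.contra [z1],.contra [y2,y1,y1,z0,z2],.ref k1 k1 [(z1,[z1])],.contra [z1],.ref k62 k0 [(z1,[z1]),(z1,[z0,z0,
    z0,z1])],.ref k1 k1 [(z1,[y1,y2,y1,y1,z2])],.ref k0 k4 [(z1,[z1])],.contra [z1,z3,z1,z1,y1],.contra [y1,z0,z0,y1,
    z1],.contra [z2,z3,z1,z2,y2],.contra [y1,z0,z0,z2],.contra [z1,z2,z0,z1],.contra [z1,z3,z0,z2],.contra [z1,z1],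
    .ref k0 k1 [(z1,[z1])],.contra [z1]]),
    .geo true z3 k5 [(y4,z6),(z6,y6),(y2,z3),(z2,z0),(z10,y6),(z0,z3)] [(z1,[z1]),(z1,[z0,z3]),(z1,[z0,z0,z1]),(z1,[z0,z0,
    z0,z1]),(z1,[y1,y3,y1,y1,z3]),(z1,
    [])] (Int.ofNat (nat_lit 699050)) (Int.ofNat (nat_lit 1048576)) (.s (.s (.l k2) (.l k1)) (.l k1)) [⟨z2,z3,[[k0,
    k5],[k1,k2],[k3,k4]],.bnd k0⟩],
    .geo true z1 k5 [(y2,z6),(z2,y2),(z4,y6),(y2,z4),(z2,y3),(z0,z1)] [(z1,[z1]),(z1,[z0,z1]),(z1,[z0,z0,z1]),(z1,[z0,z0,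
    z0,z1]),(z1,[y1,y1,y1,y1,z1]),(z1,
    [])] (Int.ofNat (nat_lit 524288)) (Int.ofNat (nat_lit 699051)) (.s (.l k1) (.s (.l k1) (.s (.l k1) (.l k2)))) [⟨z2,
    z3,[[k0,k5],[k1,k2],[k3,k4]],.bnd k0⟩],
    .geo true z1 k5 [(y2,z4),(y2,z3),(z2,y2),(z2,y2),(z4,y4),(z0,z1)] [(z1,[z1]),(z1,[z0,z1]),(z1,[z0,z0,z1]),(z1,[z0,z0,
    z0,z1]),(z1,[y1,y1,y1,y1,z1]),(z1,
    [])] (Int.ofNat (nat_lit 699050)) (Int.ofNat (nat_lit 1048576)) (.s (.l k1) (.s (.l k1) (.l k2))) [⟨z1,z1,[[k0,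
    k2],[k1,k4],[k3,k5]],.bnd k0⟩],
    .geo true z1 k5 [(y4,z6),(z2,y2),(y2,z3),(z2,y2),(z6,y6),(z0,z1)] [(z1,[z1]),(z1,[z0,z1]),(z1,[z0,z0,z1]),(z1,[z0,z0,
    z0,z1]),(z1,[y1,y1,y1,y1,z1]),(z1,
    [])] (Int.ofNat (nat_lit 699050)) (Int.ofNat (nat_lit 1048576)) (.s (.s (.s (.l k2) (.l k1)) (.l k1)) (.s (.l k1) (.l k1))) [⟨z2,
    z3,[[k0,k5],[k1,k2],[k3,k4]],.bnd k0⟩],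
    .geo true z1 k5 [(y2,z6),(z0,z2),(z2,y3),(z2,y2),(z2,y4),(z0,z1)] [(z1,[z1]),(z1,[z0,z1]),(z1,[z0,z0,z1]),(z1,[z0,z0,
    z0,z1]),(z1,[y1,y1,y1,y1,z1]),(z1,
    [])] (Int.ofNat (nat_lit 349525)) (Int.ofNat (nat_lit 524288)) (.s (.l k1) (.l k1)) [],
    .geo true z5 k4 [(y2,z5),(z2,z0),(z10,y10),(z4,z0),(z0,z5),(z6,z0)] [(z1,[z1]),(z1,[z0,z1]),(z1,[z0,z0,z5]),(z1,[z0,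
    z0,z0,z1]),(z1,[]),(z1,[y1,y1,y5,y1,
    z5])] (Int.ofNat (nat_lit 419430)) (Int.ofNat (nat_lit 1048576)) (.s (.l k1) (.l k1)) [],
    .geo true z1 k5 [(y2,z8),(z0,z2),(z2,y4),(z2,y2),(z2,y5),(z0,z1)] [(z1,[z1]),(z1,[z0,z1]),(z1,[z0,z0,z1]),(z1,[z0,z0,
    z0,z1]),(z1,[y1,y1,y1,y1,z1]),(z1,
    [])] (Int.ofNat (nat_lit 262144)) (Int.ofNat (nat_lit 419431)) (.s (.l k1) (.l k1)) [],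
    .geo true z3 k4 [(y1,z3),(z1,z0),(z6,y6),(z2,z0),(z0,z3),(z4,z0)] [(z1,[z1]),(z1,[z0,z1]),(z1,[z0,z0,z3]),(z1,[z0,z0,
    z0,z1]),(z1,[]),(z1,[y1,y1,y3,y1,
    z3])] (Int.ofNat (nat_lit 349525)) (Int.ofNat (nat_lit 1048576)) (.s (.l k1) (.l k1)) [],
    .old (.lp [(nat_lit 390),(nat_lit 258),(nat_lit 416),(nat_lit 250),(nat_lit 256),(nat_lit 348)] [k30,k0,k81,k81,k2,k2,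
    k85,k85,k82,k82,k36,k36] k0 [[k0,k0,k0,k0,k0,k0,k0,k0,k38,k0,k150],[k0,k0,k0,k54,k0,k62],[k54],[k0,k0,k0,k0,k0,
    k44],[k62,k0,k44],[k0,k0,k0,k0,k0,k0,k0,k0,k0,k46,k0,k100],[k0,k0,k0,k0,k0,k0,k0,k0,k32],[k0,k0,k0,k0,k0,k0,k0,k0,
    k0,k0,k0,k18],[k0,k0,k0,k0,k46,k0,k0,k0,k0,k0,k146],[k0,k38,k0,k0,k0,k0,k0,k32],[k0,k0,k0,k0,k100,k0,k18],[k0,
    k150,k0,k0,k0,k0,k0,k0,k0,k146]] (nat_lit 960) k6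
    [[(k8,k192),(k0,(nat_lit 240)),(k2,(nat_lit 339)),(k6,(nat_lit 353)),(k10,(nat_lit 384)),(k4,(nat_lit 518))],[(k1,
    (nat_lit 240)),(k9,(nat_lit 308)),(k3,(nat_lit 309)),(k11,(nat_lit 316)),(k7,(nat_lit 367)),(k5,(nat_lit 442))],
    [(k2,(nat_lit 204)),(k6,(nat_lit 254)),(k4,(nat_lit 275)),(k8,(nat_lit 295)),(k0,(nat_lit 309)),(k10,
    (nat_lit 453))],[(k3,(nat_lit 204)),(k9,(nat_lit 257)),(k7,(nat_lit 298)),(k11,(nat_lit 303)),(k5,(nat_lit 337)),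
    (k1,(nat_lit 339))],[(k6,(nat_lit 333)),(k8,(nat_lit 336)),(k2,(nat_lit 337)),(k4,(nat_lit 372)),(k10,
    (nat_lit 382)),(k0,(nat_lit 442))],[(k3,(nat_lit 275)),(k7,(nat_lit 333)),(k9,(nat_lit 336)),(k5,(nat_lit 372)),
    (k11,(nat_lit 428)),(k1,(nat_lit 518))],[(k10,k199),(k8,(nat_lit 207)),(k6,(nat_lit 250)),(k2,(nat_lit 298)),(k4,
    (nat_lit 333)),(k0,(nat_lit 367))],[(k7,(nat_lit 250)),(k9,(nat_lit 253)),(k3,(nat_lit 254)),(k11,(nat_lit 267)),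
    (k5,(nat_lit 333)),(k1,(nat_lit 353))],[(k6,(nat_lit 253)),(k2,(nat_lit 257)),(k10,(nat_lit 284)),(k8,
    (nat_lit 288)),(k0,(nat_lit 308)),(k4,(nat_lit 336))],[(k1,k192),(k7,(nat_lit 207)),(k9,(nat_lit 288)),(k3,
    (nat_lit 295)),(k11,(nat_lit 302)),(k5,(nat_lit 336))],[(k6,(nat_lit 267)),(k8,(nat_lit 302)),(k2,(nat_lit 303)),
    (k0,(nat_lit 316)),(k4,(nat_lit 428)),(k10,(nat_lit 494))],[(k7,k199),(k9,(nat_lit 284)),(k5,(nat_lit 382)),(k1,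
    (nat_lit 384)),(k3,(nat_lit 453)),(k11,(nat_lit 494))]]
    [] k0
    [[k2,k0,k0,k0,k0,k0],[k3,k0,k0,k0,k0,k0],[k2,k1,k0,k0,k0,k0],[k2,k0,k0,k0,k1,k0],[k2,k0,k0,k0,k0,k1],[k1,k1,k0,k0,
    k0,k0],[k1,k2,k0,k0,k0,k0],[k1,k1,k0,k0,k1,k0],[k1,k0,k0,k1,k0,k0],[k1,k0,k0,k1,k1,k0],[k1,k0,k0,k1,k0,k1],[k1,k0,
    k0,k0,k1,k0],[k1,k0,k0,k0,k2,k0],[k1,k0,k0,k0,k1,k1],[k1,k0,k0,k0,k0,k1],[k0,k2,k0,k0,k0,k0],[k0,k3,k0,k0,k0,k0],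
    [k0,k4,k0,k0,k0,k0],[k0,k2,k1,k0,k0,k0],[k0,k2,k0,k1,k0,k0],[k0,k2,k0,k1,k1,k0],[k0,k2,k0,k0,k1,k0],[k0,k1,k1,k0,
    k0,k0],[k0,k1,k1,k1,k0,k0],[k0,k1,k1,k0,k1,k0],[k0,k1,k0,k1,k0,k0],[k0,k1,k0,k2,k0,k0],[k0,k1,k0,k1,k1,k0],[k0,k1,
    k0,k1,k0,k1],[k0,k1,k0,k0,k1,k0],[k0,k1,k0,k0,k2,k0],[k0,k1,k0,k0,k1,k1],[k0,k1,k0,k0,k0,k1],[k0,k0,k2,k0,k0,k0],
    [k0,k0,k1,k1,k0,k0],[k0,k0,k1,k2,k0,k0],[k0,k0,k1,k1,k1,k0],[k0,k0,k1,k0,k1,k0],[k0,k0,k1,k0,k0,k1],[k0,k0,k0,k2,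
    k0,k0],[k0,k0,k0,k3,k0,k0],[k0,k0,k0,k2,k1,k0],[k0,k0,k0,k2,k0,k1],[k0,k0,k0,k1,k1,k0],[k0,k0,k0,k2,k2,k0],[k0,k0,
    k0,k2,k1,k1],[k0,k0,k0,k1,k2,k0],[k0,k0,k0,k1,k1,k1],[k0,k0,k0,k1,k0,k1],[k0,k0,k0,k2,k0,k2],[k0,k0,k0,k0,k2,k0],
    [k0,k0,k0,k0,k3,k0],[k0,k0,k0,k0,k2,k1],[k0,k0,k0,k0,k1,k1]]
    [.contra [z1],.ref k137 k0 [(z2,[y1,y3,y6,y6,z6]),(z2,[z1,y3]),(z1,[z0,z0,z1]),(z1,[z1])],.ref k136 k1 [(z1,[y2,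
    z4,z1]),(z1,[z0,z1]),(z1,[z1,y2]),(z1,[z0,z0,z0,z1])],.ref k135 k0 [(z1,[y1,y3,y5,y5,z5]),(z1,[z1,y2]),(z1,[z0,z0,
    z1]),(z1,[z2,z1])],.ref k0 k9 [(z2,[y1,z2,z1,z2])],.ref k0 k6 [(z1,[z1])],.ref k1 k1 [(z1,[y1,z1,z1,z1])],
    .ref k134 k1 [(z1,[y2,z2,z1]),(z1,[z0,z1]),(z1,[z1,y1]),(z1,[z0,z0,z0,z1])],.contra [y2,z0,y1,y1,z2],
    .ref k0 k6 [(z1,[z1,z1,z1,z1,y1])],.contra [y1,y1,y1,y2,z2],.ref k129 k5 [(z1,[y1,y1]),(z1,[z2,z0,y1,y2,z2]),(z1,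
    [z0,z1,z0,z1])],.contra [z1,z1],.ref k3 k2 [(z1,[z1])],.contra [y1,y1,y1,y2,z2],.contra [z1],.ref k62 k6 [(z1,
    [z1]),(z1,[z0,z1,z0,z1])],.contra [y1,z0,z2],.contra [z1,y2,y2,y3,z2],.ref k133 k8 [(z1,[y2,y1,y2,y2,z2]),(z1,[z0,
    z0,z1]),(z1,[y1,y1,y1,y1,z1]),(z1,[z1])],.ref k62 k6 [(z1,[z1,z1,z1,z1,y1]),(z1,[z0,z1,z0,z1])],.ref k132 k9 [(z1,
    [y2,z0,z0,z1]),(z1,[y1,y1,y1,y1,z1]),(z1,[z1]),(z1,[z0,z0,z1])],.ref k0 k9 [(z1,[z1])],.ref k3 k2 [(z1,[y1,z0,z0,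
    z0,z1])],.contra [z1,y1,y1,y2,z1],.contra [y2,y1,z0,y2,z2],.ref k131 k3 [(z1,[y2,z2,z2,z3,y2]),(z1,[z1]),(z1,[z2,
    y1,y2,y2,z2]),(z1,[y2,z0,z1])],.contra [z1,z1,z1,z1,y1],.contra [y2,y1,z0,y2,z2],.contra [y2,z0,z1,z1],
    .ref k0 k6 [(z1,[z1,z1])],.contra [y1,y1,z0,y1,z1],.contra [y1,z0,z1],.contra [y1,z2,z0,z2],.ref k0 k0 [(z1,
    [z1])],.ref k0 k9 [(z2,[z1,z2,z2,z3,y2])],.ref k0 k9 [(z1,[z1,z1,z1,z1,y1])],.contra [y2,z1,z0,z2],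
    .ref k1 k1 [(z1,[z1])],.contra [z1],.ref k130 k8 [(z1,[y2,y3,y6,y6,z6]),(z1,[z0,z0,z1]),(z1,[y1,y3,y3,y3,z3]),(z1,
    [z1])],.contra [y2,y3,y2,y4,z4],.contra [y1,y1,y1,y2,z2],.contra [y2,y2,y1,y1,z2],.contra [z1,z2,z2,z2,y2],
    .contra [y2,y3,y2,y4,z4],.contra [y2,y2,y1,y1,z2],.contra [y1,y1,z0,y1,z1],.contra [y2,y1,z0,y2,z2],
    .ref k1 k1 [(z1,[z1,z2,z1,z3,y2])],.contra [z1],.ref k129 k5 [(z1,[y1,y2]),(z1,[z2,z2,y1,y2,z2]),(z1,[z0,z1,z0,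
    z1])],.contra [y1,y2,y1,y2,z2],.contra [y1,y1,z0,y1,z1]]),
    .geo true z3 k5 [(y2,z6),(z2,z0),(z2,y3),(z6,y3),(z4,y3),(z0,z3)] [(z1,[z1]),(z1,[z0,z1]),(z1,[z0,z0,z1]),(z1,[z0,z0,
    z0,z3]),(z1,[y1,y1,y1,y3,z3]),(z1,
    [])] (Int.ofNat (nat_lit 349525)) (Int.ofNat (nat_lit 699051)) (.s (.l k1) (.l k1)) []]

noncomputable def cU6_3_n1_4 : List XN :=
  [.geo true z3 k5 [(y2,z3),(z6,y3),(y4,z3),(z2,z0),(z10,y6),(z0,z3)] [(z1,[z1]),(z1,[z0,z3]),(z1,[z0,z0,z1]),(z1,[z0,z0,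
    z0,z1]),(z1,[y1,y3,y1,y1,z3]),(z1,[])] (Int.ofNat (nat_lit 1398101)) (Int.ofNat (nat_lit 1747627)) (.l k1) [],
    .old (.lp [(nat_lit 442),(nat_lit 310),(nat_lit 448),(nat_lit 544),(nat_lit 556),(nat_lit 574)] [k66,k66,k100,k164,
    k76,k50,k15,k15,k9,k9,k0,k0] k0 [[k0,k0,k170],[k0,k0,k0,k0,k0,k12,k0,k46],[k0,k0,k0,k0,k0,k0,k0,k0,k0,k0,k120],
    [k0,k170],[k12,k0,k0,k0,k0,k0,k0,k0,k0,k0,k144],[k0,k0,k0,k0,k0,k0,k0,k58,k0,k146],[k46,k0,k0,k0,k58],[k0,k0,k0,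
    k0,k0,k0,k0,k0,k0,k178],[k0,k0,k0,k0,k146,k0,k178],[k0,k0,k0,k0,k0,k0,k0,k0,k0,k0,k0,k18],[k0,k0,k0,k0,k0,k0,k0,
    k0,k18],[k0,k0,k0,k120,k0,k144]] (nat_lit 1440) k6
    [[(k2,(nat_lit 288)),(k4,(nat_lit 288)),(k0,(nat_lit 442)),(k6,(nat_lit 493)),(k10,(nat_lit 508)),(k8,
    (nat_lit 517))],[(k5,(nat_lit 288)),(k3,(nat_lit 344)),(k1,(nat_lit 442)),(k7,(nat_lit 505)),(k11,(nat_lit 508)),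
    (k9,(nat_lit 545))],[(k4,(nat_lit 322)),(k0,(nat_lit 344)),(k6,(nat_lit 349)),(k8,(nat_lit 401)),(k10,
    (nat_lit 410)),(k2,(nat_lit 480))],[(k1,(nat_lit 288)),(k5,(nat_lit 424)),(k7,(nat_lit 459)),(k9,(nat_lit 465)),
    (k11,(nat_lit 474)),(k3,(nat_lit 480))],[(k0,(nat_lit 288)),(k2,(nat_lit 424)),(k4,(nat_lit 448)),(k6,
    (nat_lit 509)),(k8,(nat_lit 515)),(k10,(nat_lit 644))],[(k1,(nat_lit 288)),(k3,(nat_lit 322)),(k5,(nat_lit 448)),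
    (k7,(nat_lit 483)),(k9,(nat_lit 547)),(k11,(nat_lit 644))],[(k8,(nat_lit 404)),(k2,(nat_lit 459)),(k4,
    (nat_lit 483)),(k6,(nat_lit 486)),(k0,(nat_lit 505)),(k10,(nat_lit 703))],[(k3,(nat_lit 349)),(k7,(nat_lit 486)),
    (k1,(nat_lit 493)),(k5,(nat_lit 509)),(k9,(nat_lit 550)),(k11,(nat_lit 737))],[(k8,(nat_lit 378)),(k2,
    (nat_lit 465)),(k0,(nat_lit 545)),(k4,(nat_lit 547)),(k6,(nat_lit 550)),(k10,(nat_lit 565))],[(k9,(nat_lit 378)),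
    (k3,(nat_lit 401)),(k7,(nat_lit 404)),(k5,(nat_lit 515)),(k1,(nat_lit 517)),(k11,(nat_lit 565))],[(k2,
    (nat_lit 474)),(k0,(nat_lit 508)),(k10,(nat_lit 556)),(k8,(nat_lit 565)),(k4,(nat_lit 644)),(k6,(nat_lit 737))],
    [(k3,(nat_lit 410)),(k1,(nat_lit 508)),(k11,(nat_lit 556)),(k9,(nat_lit 565)),(k5,(nat_lit 644)),(k7,
    (nat_lit 703))]]
    [] k0
    [[k2,k0,k0,k0,k0,k0],[k3,k0,k0,k0,k0,k0],[k2,k1,k0,k0,k0,k0],[k2,k1,k1,k0,k0,k0],[k2,k0,k1,k0,k0,k0],[k1,k1,k0,k0,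
    k0,k0],[k2,k2,k0,k0,k0,k0],[k1,k2,k0,k0,k0,k0],[k1,k2,k1,k0,k0,k0],[k1,k1,k1,k0,k0,k0],[k1,k1,k2,k0,k0,k0],[k1,k1,
    k0,k1,k0,k0],[k1,k1,k1,k1,k0,k0],[k1,k1,k0,k0,k1,k0],[k1,k1,k0,k0,k0,k1],[k1,k0,k1,k0,k0,k0],[k2,k0,k2,k0,k0,k0],
    [k1,k0,k2,k0,k0,k0],[k1,k0,k1,k1,k0,k0],[k1,k0,k1,k0,k1,k0],[k1,k0,k0,k1,k0,k0],[k1,k0,k0,k0,k1,k0],[k1,k0,k0,k0,
    k0,k1],[k0,k2,k0,k0,k0,k0],[k0,k2,k1,k0,k0,k0],[k0,k2,k0,k1,k0,k0],[k0,k2,k0,k0,k1,k0],[k0,k2,k0,k0,k0,k1],[k0,k1,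
    k1,k0,k0,k0],[k0,k1,k2,k0,k0,k0],[k0,k1,k1,k1,k0,k0],[k0,k1,k1,k0,k1,k0],[k0,k1,k0,k1,k0,k0],[k0,k1,k0,k2,k0,k0],
    [k0,k1,k0,k1,k1,k0],[k0,k1,k0,k0,k1,k0],[k0,k1,k0,k0,k2,k0],[k0,k1,k0,k0,k0,k1],[k0,k0,k2,k0,k0,k0],[k0,k0,k3,k0,
    k0,k0],[k0,k0,k1,k1,k0,k0],[k0,k0,k1,k0,k1,k0],[k0,k0,k1,k0,k0,k1],[k0,k0,k0,k2,k0,k0],[k0,k0,k0,k1,k1,k0],[k0,k0,
    k0,k1,k2,k0],[k0,k0,k0,k0,k2,k0],[k0,k0,k0,k0,k3,k0],[k0,k0,k0,k0,k1,k1],[k0,k0,k0,k0,k0,k2]]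
    [.contra [z1],.contra [y1,z2,z0,z3],.contra [y3,z4,z1,z6],.contra [z3,y2,z1,y3],.contra [z3,y2,z4,y3],.contra [y6,
    z2,z5,z3],.contra [z3,y2,y2],.contra [y3,z2,z2,z3],.contra [y3,z2,z2,z3],.contra [y3,z2,z2,z3],.contra [y3,z4,z1,
    z6],.ref k0 k4 [(z3,[z3,y1,y1])],.ref k0 k1 [(z1,[y1,z0,z0,z0,z1])],.contra [z3,y1,y1],.ref k0 k1 [(z3,[z3,y1,
    y1])],.contra [y3,z2,z2,z3],.contra [y3,z4,z1,z6],.contra [y3,z4,z1,z6],.ref k140 k4 [(z1,[y3,z1,z0,z3]),(z3,[z0,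
    y1,y1,y3,z3]),(z1,[y3,z2,z0,z3]),(z1,[z0,z0,z1])],.contra [z3,y1,z2,y3],.ref k1 k2 [(z1,[z1])],.contra [y1,z1,z0,
    z2],.ref k0 k2 [(z1,[z1])],.contra [z1],.contra [y3,z2,z2,z3],.ref k124 k2 [(z3,[z3,z2,y1,z3,y3]),(z3,[y3,y1,z2,
    y3,z3]),(z1,[z0,z0,z0,z1])],.contra [z3,z1,y2],.ref k129 k10 [(z3,[z6,z2,y1,z6,y6]),(z3,[y12,y2,z4,y9,z12]),(z3,
    [z0,y1,y1,y3,z3])],.contra [y3,z2,z2,z3],.contra [y3,z4,z1,z6],.ref k3 k2 [(z1,[y1,z0,z0,z0,z1])],.contra [y3,z1,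
    z1,z3],.ref k129 k10 [(z1,[y2,z0,z1]),(z3,[z12,z2,y4,z3]),(z3,[z0,y1,y1,y3,z3])],.ref k124 k2 [(z6,[z3,z4,z1,z6,
    y6]),(z6,[y3,y2,z1,y6,z6]),(z1,[z0,z0,z0,z1])],.ref k139 k3 [(z1,[y6,z0,z2,z3]),(z1,[z0,z0,z1]),(z1,[z3,z1,y1]),
    (z3,[z0,y1,y1,y3,z3])],.contra [y3,z1,z1,z3],.contra [z3,z2,y1],.ref k124 k2 [(z3,[y3,z1,z1]),(z1,[z1]),(z1,[z0,
    z0,z0,z1])],.contra [z1],.contra [y1,z2,z0,z3],.ref k0 k0 [(z1,[z1])],.contra [y3,z1,z1,z3],.ref k1 k1 [(z1,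
    [z1])],.contra [z1],.ref k0 k4 [(z1,[z1])],.ref k1 k1 [(z3,[y3,y1,y1,z0,z3])],.contra [z1],.contra [z1,z1],
    .ref k0 k1 [(z1,[z1])],.contra [y3,y2,y2,y6,z6]]),
    .geo true z1 k5 [(y2,z4),(z2,y2),(z4,y5),(y4,z6),(z4,y4),(z0,z1)] [(z1,[z1]),(z1,[z0,z1]),(z1,[z0,z0,z1]),(z1,[z0,z0,
    z0,z1]),(z1,[y1,y1,y1,y1,z1]),(z1,
    [])] (Int.ofNat (nat_lit 699050)) (Int.ofNat (nat_lit 838861)) (.s (.l k1) (.l k1)) [],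
    .geo true z3 k4 [(y2,z6),(z2,y3),(z6,y6),(z4,z0),(z0,z3),(z2,z0)] [(z1,[z1]),(z1,[z0,z1]),(z1,[z0,z0,z3]),(z1,[z0,z0,
    z0,z1]),(z1,[]),(z1,[y1,y1,y3,y1,
    z3])] (Int.ofNat (nat_lit 349525)) (Int.ofNat (nat_lit 699051)) (.s (.l k1) (.l k1)) [],
    .old (.lp [(nat_lit 774),(nat_lit 554),(nat_lit 742),(nat_lit 648),(nat_lit 624),(nat_lit 496)] [k23,k23,k133,k133,
    k39,k39,k86,k86,k112,k84,k0,(nat_lit 324)] k0 [[k0,k0,k0,k0,k0,k0,(nat_lit 218),k0,k0,k0,k182],[k0,k0,k0,k54,k0,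
    k60],[k54],[k0,k0,k0,k0,k0,k0,k0,(nat_lit 248),k0,k188],[k60],[k0,k0,k0,k0,k0,k0,k0,k0,k0,k0,k0,(nat_lit 350)],
    [k0,k0,(nat_lit 248),k0,k0,k0,k0,k0,k16],[k0,(nat_lit 218),k0,k0,k0,k0,k0,k0,k0,k0,k0,(nat_lit 352)],[k0,k0,k188,
    k0,k0,k0,k0,k0,k0,k0,k186],[k0,k0,k0,k0,k0,k0,k0,k16],[k0,k0,k0,k0,(nat_lit 350),k0,(nat_lit 352)],[k0,k182,k0,k0,
    k0,k0,k0,k0,k0,k186]] (nat_lit 1920) k6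
    [[(k8,(nat_lit 499)),(k0,(nat_lit 592)),(k2,(nat_lit 664)),(k10,(nat_lit 797)),(k6,(nat_lit 1063)),(k4,
    (nat_lit 1108))],[(k11,(nat_lit 473)),(k9,(nat_lit 495)),(k1,(nat_lit 592)),(k3,(nat_lit 664)),(k7,(nat_lit 771)),
    (k5,(nat_lit 812))],[(k2,(nat_lit 500)),(k8,(nat_lit 575)),(k4,(nat_lit 588)),(k0,(nat_lit 664)),(k6,
    (nat_lit 819)),(k10,(nat_lit 869))],[(k3,(nat_lit 500)),(k11,(nat_lit 551)),(k7,(nat_lit 601)),(k5,(nat_lit 648)),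
    (k1,(nat_lit 664)),(k9,(nat_lit 851))],[(k6,(nat_lit 447)),(k8,(nat_lit 481)),(k2,(nat_lit 648)),(k4,
    (nat_lit 742)),(k10,(nat_lit 781)),(k0,(nat_lit 812))],[(k11,(nat_lit 457)),(k3,(nat_lit 588)),(k7,(nat_lit 695)),
    (k9,(nat_lit 697)),(k5,(nat_lit 742)),(k1,(nat_lit 1108))],[(k10,(nat_lit 384)),(k2,(nat_lit 601)),(k8,
    (nat_lit 622)),(k6,(nat_lit 648)),(k4,(nat_lit 695)),(k0,(nat_lit 771))],[(k11,(nat_lit 394)),(k5,(nat_lit 447)),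
    (k7,(nat_lit 648)),(k9,(nat_lit 650)),(k3,(nat_lit 819)),(k1,(nat_lit 1063))],[(k10,(nat_lit 384)),(k0,
    (nat_lit 495)),(k8,(nat_lit 640)),(k6,(nat_lit 650)),(k4,(nat_lit 697)),(k2,(nat_lit 851))],[(k11,(nat_lit 384)),
    (k5,(nat_lit 481)),(k1,(nat_lit 499)),(k3,(nat_lit 575)),(k7,(nat_lit 622)),(k9,(nat_lit 640))],[(k8,
    (nat_lit 384)),(k6,(nat_lit 394)),(k4,(nat_lit 457)),(k0,(nat_lit 473)),(k2,(nat_lit 551)),(k10,(nat_lit 682))],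
    [(k7,(nat_lit 384)),(k9,(nat_lit 384)),(k11,(nat_lit 682)),(k5,(nat_lit 781)),(k1,(nat_lit 797)),(k3,
    (nat_lit 869))]]
    [] k0
    [[k2,k0,k0,k0,k0,k0],[k3,k0,k0,k0,k0,k0],[k2,k0,k0,k0,k1,k0],[k2,k0,k0,k0,k0,k1],[k1,k1,k0,k0,k0,k0],[k1,k2,k0,k0,
    k0,k0],[k1,k1,k0,k0,k1,k0],[k1,k0,k0,k1,k0,k0],[k1,k0,k0,k0,k1,k0],[k1,k0,k0,k0,k2,k0],[k1,k0,k0,k0,k1,k1],[k1,k0,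
    k0,k0,k2,k1],[k1,k0,k0,k0,k0,k1],[k0,k2,k0,k0,k0,k0],[k0,k3,k0,k0,k0,k0],[k0,k2,k1,k0,k0,k0],[k0,k1,k1,k0,k0,k0],
    [k0,k1,k1,k1,k0,k0],[k0,k1,k0,k1,k0,k0],[k0,k1,k0,k1,k0,k1],[k0,k1,k0,k0,k1,k0],[k0,k1,k0,k1,k1,k0],[k0,k1,k0,k0,
    k1,k1],[k0,k1,k0,k0,k0,k1],[k0,k0,k2,k0,k0,k0],[k0,k0,k2,k1,k0,k0],[k0,k0,k1,k1,k0,k0],[k0,k0,k1,k2,k0,k0],[k0,k0,
    k1,k1,k1,k0],[k0,k0,k1,k1,k1,k1],[k0,k0,k1,k1,k0,k1],[k0,k0,k1,k0,k1,k0],[k0,k0,k1,k0,k2,k0],[k0,k0,k1,k0,k1,k1],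
    [k0,k0,k1,k0,k0,k1],[k0,k0,k0,k2,k0,k0],[k0,k0,k0,k2,k0,k1],[k0,k0,k0,k1,k1,k0],[k0,k0,k0,k1,k2,k0],[k0,k0,k0,k1,
    k1,k1],[k0,k0,k0,k1,k0,k1],[k0,k0,k0,k2,k0,k2],[k0,k0,k0,k1,k1,k2],[k0,k0,k0,k1,k0,k2],[k0,k0,k0,k0,k2,k0],[k0,k0,
    k0,k0,k2,k1],[k0,k0,k0,k0,k1,k1],[k0,k0,k0,k0,k2,k2],[k0,k0,k0,k0,k1,k2],[k0,k0,k0,k0,k0,k2]]
    [.contra [z1],.ref k143 k11 [(z1,[y1,z3,y6]),(z1,[z1,y3,z3]),(z1,[z0,y1,z1,y1,z1]),(z1,[y1,z3,z0,z3])],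
    .ref k129 k4 [(z1,[z1,y2,z0,y2]),(z1,[y2,z3,y1,z3,z1]),(z1,[z0,z1,z0,z1])],.ref k0 k0 [(z1,[y1,z1,y1,z0,z1])],
    .ref k0 k6 [(z1,[z1])],.ref k0 k0 [(z1,[y1,z0,z1,z0,z1])],.contra [z1,z1,y1],.contra [y1,z0,y1,y1,z1],
    .ref k124 k11 [(z1,[y1,z0,y1]),(z1,[z1]),(z1,[z0,y1,z1,y1,z1])],.ref k138 k3 [(z1,[y1,z1,z0,z1]),(z1,[z0,y1,z1,y1,
    z1]),(z1,[z1])],.ref k0 k6 [(z1,[z1,z0,z1])],.contra [z1,z1],.contra [z1,y1,z2],.contra [z1],.ref k3 k4 [(z1,[y1,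
    y1,z2,z0,z1])],.contra [z1,z0,y2,y1],.contra [y1,z0,z1,z1],.ref k0 k6 [(z1,[y1,z0,z1,z0,z1])],.contra [y1,y1,z1,
    y1,z1],.contra [y1,y1,z0,y1,z1],.contra [y1,z0,z1,z1],.contra [y1,y1,z0,y1,z1],.contra [z1,z0,z1],.contra [y1,y1,
    z0,y1,z1],.contra [y1,z2,z0,z2],.ref k0 k6 [(z2,[y1,z1,z1,z1,z1])],.ref k0 k0 [(z1,[z1])],.ref k142 k9 [(z1,[z1,
    z2,y2,z2,y2]),(z1,[z0,y1,z1,y1,z1]),(z1,[y1,y2,z3,y1,z2]),(z1,[z1,z2,y4,z1,y2])],.ref k3 k4 [(z1,[z1])],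
    .ref k0 k6 [(z1,[y1,z0,z0,z0,z1])],.contra [y1,z1,y1,z0,z1],.contra [y1,z0,z1,z1],.contra [y1,z0,z0,z1],
    .contra [y1,z0,z0,z1],.contra [y1,z0,z0,z1],.contra [z1],.ref k0 k0 [(z1,[z1,z1,z1,z2,y1])],.contra [y1,y1,z0,y1,
    z1],.contra [y1,y1,y1,y1,z1],.contra [y1,y1,z0,y1,z1],.contra [y1,z0,y1,y1,z1],.contra [y1,z0,y2,y2,z2],
    .contra [y1,y1,y1,y1,z1],.contra [y1,y1,y1,y1,z1],.contra [z1],.contra [y1,z0,z0,z1],.contra [y2,z0,y1,z0,z1],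
    .contra [z1,z0,z2],.contra [y1,y1,y1,y1,z1],.contra [z1]]),
    .geo true z1 k5 [(z0,z4),(z0,z3),(z2,y4),(z2,y6),(z0,z2),(z0,z1)] [(z1,[z1]),(z1,[z0,z1]),(z1,[z0,z0,z1]),(z1,[z0,z0,
    z0,z1]),(z1,[y1,y1,y1,y1,z1]),(z1,
    [])] z0 (Int.ofNat (nat_lit 349526)) (.s (.s (.s (.s (.s (.l k2) (.l k1)) (.l k1)) (.l k1)) (.l k1)) (.s (.l k1) (.l k1))) [⟨z0,
    z1,[[k0,k1],[k2,k3],[k4,k5]],.bnd k0⟩],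
    .geo true z2 k5 [(y4,z6),(z4,y4),(z0,z1),(z4,y2),(z4,y3),(z0,z2)] [(z1,[z2]),(z1,[z0,z2]),(z1,[z0,z0,z1]),(z1,[z0,z0,
    z0,z2]),(z1,[y2,y2,y1,y2,z2]),(z1,
    [])] (Int.ofNat (nat_lit 699050)) (Int.ofNat (nat_lit 1048576)) (.s (.l k1) (.l k1)) [],
    .old (.lp [k170,k156,k162,(nat_lit 222),k88,k160] [k26,k26,k33,k33,k54,k6,k0,k0,k67,k67,k31,k31] k0 [[k0,k0,k0,k0,k0,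
    k0,k6,k0,k0,k0,k6],[k0,k0,k0,k60,k0,k0,k0,k0,k0,k8],[k60,k0,k0,k0,k0,k0,k0,k0,k0,k0,k4],[k0,k0,k0,k0,k0,k0,k0,
    k120],[k0,k0,k0,k0,k0,k0,k0,k0,k4],[k0,k0,k0,k0,k0,k0,k0,k0,k0,k0,k0,k88],[k0,k0,k120,k0,k0,k0,k0,k0,k36],[k0,k6,
    k0,k0,k0,k0,k0,k0,k0,k0,k0,k8],[k8],[k0,k0,k0,k0,k0,k4,k0,k36],[k0,k0,k0,k0,k88,k0,k8],[k0,k6,k0,
    k4]] (nat_lit 480) k6
    [[(k8,k129),(k2,k159),(k0,k164),(k10,k165),(k6,(nat_lit 204)),(k4,(nat_lit 230))],[(k9,k123),(k3,k163),(k1,k164),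
    (k11,k173),(k7,k196),(k5,(nat_lit 250))],[(k2,k96),(k8,k114),(k4,k135),(k0,k163),(k10,k164),(k6,k195)],[(k3,k96),
    (k11,k158),(k1,k159),(k5,k183),(k7,k189),(k9,(nat_lit 242))],[(k6,k96),(k8,k149),(k4,k162),(k2,k183),(k10,k189),
    (k0,(nat_lit 250))],[(k9,k101),(k11,k133),(k3,k135),(k5,k162),(k7,k168),(k1,(nat_lit 230))],[(k10,k103),(k8,k159),
    (k4,k168),(k2,k189),(k0,k196),(k6,(nat_lit 222))],[(k5,k96),(k9,k155),(k11,k155),(k3,k195),(k1,(nat_lit 204)),(k7,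
    (nat_lit 222))],[(k4,k101),(k10,k116),(k0,k123),(k8,k124),(k6,k155),(k2,(nat_lit 242))],[(k3,k114),(k9,k124),(k11,
    k124),(k1,k129),(k5,k149),(k7,k159)],[(k8,k124),(k4,k133),(k6,k155),(k2,k158),(k10,k160),(k0,k173)],[(k7,k103),
    (k9,k116),(k11,k160),(k3,k164),(k1,k165),(k5,k189)]]
    [] k0
    [[k2,k0,k0,k0,k0,k0],[k2,k0,k0,k0,k1,k0],[k1,k1,k0,k0,k0,k0],[k1,k2,k0,k0,k0,k0],[k1,k1,k0,k0,k1,k0],[k1,k0,k0,k1,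
    k0,k0],[k1,k0,k0,k0,k1,k0],[k1,k0,k0,k0,k2,k0],[k1,k0,k0,k0,k1,k1],[k1,k0,k0,k0,k0,k1],[k0,k2,k0,k0,k0,k0],[k0,k3,
    k0,k0,k0,k0],[k0,k4,k0,k0,k0,k0],[k0,k2,k1,k0,k0,k0],[k0,k2,k0,k0,k1,k0],[k0,k2,k0,k0,k0,k1],[k0,k1,k1,k0,k0,k0],
    [k0,k1,k1,k1,k0,k0],[k0,k1,k0,k1,k0,k0],[k0,k1,k0,k1,k0,k1],[k0,k1,k0,k0,k1,k0],[k0,k1,k1,k0,k1,k0],[k0,k1,k0,k1,
    k1,k0],[k0,k1,k0,k0,k1,k1],[k0,k1,k0,k0,k0,k1],[k0,k0,k2,k0,k0,k0],[k0,k0,k2,k1,k0,k0],[k0,k0,k2,k0,k1,k0],[k0,k0,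
    k1,k1,k0,k0],[k0,k0,k1,k1,k1,k0],[k0,k0,k1,k1,k0,k1],[k0,k0,k1,k1,k1,k1],[k0,k0,k1,k0,k1,k0],[k0,k0,k1,k0,k2,k0],
    [k0,k0,k1,k0,k1,k1],[k0,k0,k1,k0,k0,k1],[k0,k0,k0,k2,k0,k0],[k0,k0,k0,k1,k1,k0],[k0,k0,k0,k1,k2,k0],[k0,k0,k0,k1,
    k1,k1],[k0,k0,k0,k1,k0,k1],[k0,k0,k0,k1,k0,k2],[k0,k0,k0,k0,k2,k0],[k0,k0,k0,k0,k3,k0],[k0,k0,k0,k0,k2,k1],[k0,k0,
    k0,k0,k1,k1],[k0,k0,k0,k0,k1,k2],[k0,k0,k0,k0,k0,k2]]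
    [.contra [z1],.ref k0 k0 [(z1,[y1,z1,y1,z0,z1])],.ref k0 k6 [(z1,[z1])],.ref k0 k0 [(z1,[y1,z0,z1,z0,z1])],
    .ref k62 k6 [(z1,[z1,y1,z2]),(z1,[z0,z1,z0,z1])],.contra [y1,z0,y1,y1,z1],.contra [z1,y1,z2],.ref k138 k3 [(z1,
    [y1,z1,z0,z1]),(z1,[z0,y1,z1,y1,z1]),(z1,[z1])],.ref k0 k6 [(z1,[z1,z0,z1])],.ref k0 k2 [(z1,[z1])],.contra [z1],
    .ref k62 k6 [(z1,[z1]),(z1,[z0,z1,z0,z1])],.contra [y1,y2,z2,y2,z2],.contra [z1,z0,y2,y1],.ref k138 k3 [(z1,[y1,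
    z0,z2,z1]),(z1,[z0,y1,z1,y1,z1]),(z1,[z1,z1,y2])],.ref k0 k6 [(z1,[z1,z1,y1])],.contra [y1,z0,z1,z1],
    .ref k0 k6 [(z1,[y1,z0,z1,z0,z1])],.contra [y1,y1,z1,y1,z1],.contra [y1,y1,z0,y1,z1],.contra [y1,y1,z0,y1,z1],
    .ref k144 k2 [(z1,[y1,z1,z1,z1]),(z1,[z0,z0,z1]),(z1,[z1,z0,y1])],.contra [y1,y1,z0,y1,z1],.contra [z1,z0,z1],
    .contra [y1,z0,z1,z1],.contra [y1,z2,z0,z2],.ref k0 k6 [(z2,[y1,z1,z1,z1,z1])],.ref k146 k0 [(z1,[y1,y1,y1,y2,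
    z1]),(z1,[z1]),(z1,[y1,z0,z0,z1]),(z1,[z0,z1,z0,z1])],.ref k0 k0 [(z1,[z1])],.contra [y1,z1,y1,z0,z1],
    .ref k62 k6 [(z1,[y1,y1,z2,z0,z1]),(z1,[z0,z1,z0,z1])],.ref k0 k6 [(z1,[y1,z0,z0,z0,z1])],.contra [y1,z0,z0,z1],
    .ref k145 k2 [(z1,[z1,z1,z0,y1]),(z1,[z1,z0,z1,y1]),(z1,[y1,z0,z0,z2]),(z1,[y2,y1,y1,z1,z1])],.contra [y1,z0,z0,
    z1],.contra [y1,z0,z1,z1],.contra [z1],.contra [y1,z0,y1,y1,z1],.contra [y1,y1,y1,y1,z1],.contra [y1,y1,z0,y1,z1],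
    .contra [y1,y1,z0,y1,z1],.contra [y1,y1,y1,y1,z1],.contra [z1],.ref k141 k11 [(z1,[y1,z0,y3]),(z1,[z1]),(z1,[z0,
    y1,z1,y1,z1])],.contra [y1,y1,y1,y1,z1],.contra [y2,z0,y1,z0,z1],.contra [y1,z0,z0,z1],.contra [z1]]),
    .geo true z1 k5 [(y2,z6),(z2,y2),(z2,y3),(y2,z4),(z4,y6),(z0,z1)] [(z1,[z1]),(z1,[z0,z1]),(z1,[z0,z0,z1]),(z1,[z0,z0,
    z0,z1]),(z1,[y1,y1,y1,y1,z1]),(z1,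
    [])] (Int.ofNat (nat_lit 524288)) (Int.ofNat (nat_lit 699051)) (.s (.l k1) (.s (.l k1) (.l k2))) [⟨z2,z3,[[k0,k5],
    [k1,k2],[k3,k4]],.bnd k0⟩],
    .old (.lp [k154,k100,k170,(nat_lit 220),k148,k166] [k33,k33,k60,k60,k25,k25,k0,k0,k36,k36,k27,k27] k0 [[k0,k0,k20,k0,
    k0,k0,k34],[k0,k0,k0,k0,k0,k2,k0,k0,k0,k0,k0,k6],[k0,k0,k0,k0,k64,k0,k0,k0,k20],[k0,k20,k0,k0,k0,k0,k0,k8],[k2,k0,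
    k0,k0,k0,k0,k0,k0,k0,k0,k58],[k0,k0,k0,k64,k0,k0,k0,k30],[k0,k0,k8,k0,k30],[k0,k34,k0,k0,k0,k0,k0,k0,k0,k36],[k0,
    k0,k0,k0,k0,k0,k36],[k0,k0,k0,k20],[k6],[k0,k0,k0,k0,k0,k58]] (nat_lit 480) k6
    [[(k4,k104),(k2,k127),(k8,k151),(k0,k160),(k10,k160),(k6,k187)],[(k9,k117),(k3,k127),(k5,k142),(k1,k160),(k11,
    k160),(k7,k189)],[(k2,k120),(k8,k124),(k0,k127),(k10,k127),(k4,k133),(k6,k194)],[(k7,k96),(k11,k113),(k3,k120),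
    (k1,k127),(k9,k132),(k5,k135)],[(k2,k135),(k0,k142),(k10,k168),(k8,k179),(k6,k187),(k4,(nat_lit 234))],[(k1,k104),
    (k3,k133),(k11,k168),(k9,k189),(k7,k195),(k5,(nat_lit 234))],[(k2,k96),(k8,k184),(k0,k189),(k6,k190),(k4,k195),
    (k10,(nat_lit 251))],[(k9,k184),(k1,k187),(k5,k187),(k7,k190),(k3,k194),(k11,(nat_lit 229))],[(k8,k112),(k0,k117),
    (k2,k132),(k10,k157),(k6,k184),(k4,k189)],[(k9,k112),(k3,k124),(k1,k151),(k11,k157),(k5,k179),(k7,k184)],[(k2,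
    k113),(k8,k157),(k0,k160),(k10,k166),(k4,k168),(k6,(nat_lit 229))],[(k3,k127),(k9,k157),(k1,k160),(k11,k166),(k5,
    k168),(k7,(nat_lit 251))]]
    [] k0
    [[k2,k0,k0,k0,k0,k0],[k2,k1,k0,k0,k0,k0],[k2,k0,k1,k0,k0,k0],[k2,k0,k0,k0,k1,k0],[k1,k1,k0,k0,k0,k0],[k1,k2,k0,k0,
    k0,k0],[k1,k1,k1,k0,k0,k0],[k1,k1,k0,k0,k1,k0],[k1,k1,k0,k0,k0,k1],[k1,k0,k1,k0,k0,k0],[k1,k0,k1,k0,k1,k0],[k1,k0,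
    k1,k0,k0,k1],[k1,k0,k0,k1,k0,k0],[k1,k1,k0,k1,k0,k0],[k1,k0,k0,k0,k1,k0],[k1,k0,k0,k0,k2,k0],[k1,k0,k0,k0,k1,k1],
    [k1,k0,k0,k0,k0,k1],[k0,k2,k0,k0,k0,k0],[k0,k3,k0,k0,k0,k0],[k0,k2,k1,k0,k0,k0],[k0,k2,k0,k1,k0,k0],[k0,k2,k0,k0,
    k1,k0],[k0,k2,k0,k0,k0,k1],[k0,k1,k1,k0,k0,k0],[k0,k1,k1,k1,k0,k0],[k0,k1,k1,k0,k1,k0],[k0,k1,k1,k0,k0,k1],[k0,k1,
    k0,k1,k0,k0],[k0,k1,k0,k0,k1,k0],[k0,k1,k0,k1,k1,k0],[k0,k1,k0,k0,k2,k0],[k0,k1,k0,k0,k1,k1],[k0,k1,k0,k0,k0,k1],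
    [k0,k1,k0,k1,k0,k1],[k0,k1,k0,k0,k0,k2],[k0,k0,k2,k0,k0,k0],[k0,k0,k1,k1,k0,k0],[k0,k0,k1,k0,k1,k0],[k0,k0,k1,k0,
    k0,k1],[k0,k0,k0,k2,k0,k0],[k0,k0,k0,k1,k1,k0],[k0,k0,k0,k0,k2,k0],[k0,k0,k0,k0,k3,k0],[k0,k0,k0,k0,k4,k0],[k0,k0,
    k0,k0,k2,k1],[k0,k0,k0,k0,k1,k1],[k0,k0,k0,k0,k0,k2]]
    [.contra [z1],.contra [y1,z3,z4],.contra [y1,z2,z2,z1],.contra [y1,z2,z3],.contra [y1,z3,z4],.contra [y1,z3,z4],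
    .contra [y1,z2,z2,z1],.contra [z1,y1,y1],.ref k0 k1 [(z1,[z1,y1,y1])],.contra [z1,y1,z0,y1],.contra [y1,z1,z1,z1],
    .ref k0 k0 [(z1,[y1,z0,y1,z1,z1])],.ref k1 k2 [(z1,[z1])],.ref k0 k4 [(z1,[z1,y1,y1])],.contra [y1,z2,z3],
    .contra [y1,z1,z2],.ref k3 k2 [(z1,[z1])],.ref k0 k2 [(z1,[z1])],.contra [z1],.contra [y1,z3,z4],.contra [z1,z0,
    y2,z3],.ref k148 k7 [(z1,[z1,z0,y2]),(z1,[z0,z0,z0,z1]),(z1,[z0,z0,z1]),(z1,[z0,z1])],.contra [y1,z2,z3],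
    .ref k138 k0 [(z1,[y1,y1,y1,y1,z1]),(z1,[z0,z0,z0,z1]),(z1,[z1])],.contra [y1,z2,z2,z1],.ref k3 k2 [(z1,[y1,z0,z0,
    z0,z1])],.contra [z1,z0,y1,z1],.ref k147 k11 [(z1,[z1,y2,y2,y1]),(z1,[z0,y1,y1]),(z1,[y1,z1,z1,z0,z1])],
    .ref k124 k4 [(z1,[y1,z0,z1,y1]),(z1,[z0,y1,y1,y1,z1]),(z1,[z0,z1,z0,z2])],.contra [y1,z2,z3],.ref k0 k0 [(z1,[z1,
    z0,y1,z1])],.contra [y1,z1,z2],.ref k1 k1 [(z1,[z1,z0,y1,z1])],.ref k124 k2 [(z1,[y1,z1,z1]),(z1,[z1]),(z1,[z0,z0,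
    z0,z1])],.contra [z1,z1,z1,z1,y1],.ref k129 k10 [(z1,[z1,z2,z2,z2,y2]),(z1,[y2,y2,y2,y3,z4]),(z1,[z0,y1,y1,y1,
    z1])],.contra [z1],.ref k0 k0 [(z1,[z1])],.contra [y1,z1,z1,z1],.ref k1 k1 [(z1,[z1])],.contra [z1],
    .ref k0 k4 [(z1,[z1])],.contra [z1],.contra [y1,z0,z1],.contra [y1,z0,z0,z2],.ref k0 k0 [(z1,[y1,y1,y1,z0,z1])],
    .ref k0 k1 [(z1,[z1])],.contra [y1,y2,y2,y2,z2]]),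
    .geo true z1 k5 [(z0,z2),(z2,y1),(z1,y1),(z0,z1),(z1,y2),(z0,z1)] [(z1,[z1]),(z1,[z0,z1]),(z1,[z0,z0,z1]),(z1,[z0,z0,
    z0,z1]),(z1,[y1,y1,y1,y1,z1]),(z1,
    [])] z0 (Int.ofNat (nat_lit 524288)) (.s (.s (.s (.s (.l k2) (.l k1)) (.l k1)) (.s (.l k1) (.l k1))) (.l k1)) [⟨z0,
    z1,[[k0,k1],[k2,k3],[k4,k5]],.bnd k0⟩],
    .old (.lp [(nat_lit 516),(nat_lit 320),(nat_lit 492),(nat_lit 560),(nat_lit 506),(nat_lit 480)] [k192,k0,k194,k194,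
    k108,k108,k74,k74,k101,k101,k114,k114] k0 [[k0,k0,k0,k0,k136],[k0,k0,k0,k24,k0,k0,k0,k0,k0,k0,k0,k56],[k24,k0,k0,
    k0,k0,k0,k0,k0,k24],[k0,k0,k0,k0,k0,k0,k0,k22,k0,k0,k0,k32],[k0,k0,k0,k0,k0,k0,k0,k0,k0,k0,(nat_lit 312)],[k0,
    k136,k0,k0,k0,k0,k0,k0,k0,k20],[k0,k0,k22,k0,k0,k0,k0,k0,k0,k0,k36],[k0,k0,k0,k0,k0,k0,k0,k0,k0,k88],[k0,k0,k0,k0,
    k20,k0,k88],[k0,k0,k0,k24],[k56,k0,k32],[k0,k0,k0,k0,k0,(nat_lit 312),k0,k36]] (nat_lit 1440) k6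
    [[(k4,(nat_lit 288)),(k2,(nat_lit 546)),(k0,(nat_lit 572)),(k10,(nat_lit 594)),(k6,(nat_lit 598)),(k8,
    (nat_lit 607))],[(k7,(nat_lit 306)),(k3,(nat_lit 322)),(k11,(nat_lit 402)),(k9,(nat_lit 415)),(k5,(nat_lit 432)),
    (k1,(nat_lit 572))],[(k2,(nat_lit 296)),(k0,(nat_lit 322)),(k10,(nat_lit 344)),(k8,(nat_lit 413)),(k6,
    (nat_lit 440)),(k4,(nat_lit 542))],[(k3,(nat_lit 296)),(k11,(nat_lit 376)),(k5,(nat_lit 406)),(k9,(nat_lit 435)),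
    (k7,(nat_lit 440)),(k1,(nat_lit 546))],[(k2,(nat_lit 406)),(k0,(nat_lit 432)),(k10,(nat_lit 454)),(k4,
    (nat_lit 492)),(k6,(nat_lit 504)),(k8,(nat_lit 523))],[(k1,(nat_lit 288)),(k5,(nat_lit 492)),(k9,(nat_lit 499)),
    (k11,(nat_lit 506)),(k7,(nat_lit 526)),(k3,(nat_lit 542))],[(k0,(nat_lit 306)),(k2,(nat_lit 440)),(k8,
    (nat_lit 513)),(k4,(nat_lit 526)),(k6,(nat_lit 560)),(k10,(nat_lit 832))],[(k3,(nat_lit 440)),(k5,(nat_lit 504)),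
    (k9,(nat_lit 533)),(k7,(nat_lit 560)),(k1,(nat_lit 598)),(k11,(nat_lit 608))],[(k0,(nat_lit 415)),(k8,
    (nat_lit 418)),(k2,(nat_lit 435)),(k4,(nat_lit 499)),(k10,(nat_lit 529)),(k6,(nat_lit 533))],[(k3,(nat_lit 413)),
    (k9,(nat_lit 418)),(k11,(nat_lit 493)),(k7,(nat_lit 513)),(k5,(nat_lit 523)),(k1,(nat_lit 607))],[(k2,
    (nat_lit 376)),(k0,(nat_lit 402)),(k10,(nat_lit 480)),(k8,(nat_lit 493)),(k4,(nat_lit 506)),(k6,(nat_lit 608))],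
    [(k3,(nat_lit 344)),(k5,(nat_lit 454)),(k11,(nat_lit 480)),(k9,(nat_lit 529)),(k1,(nat_lit 594)),(k7,
    (nat_lit 832))]]
    [] k0
    [[k2,k0,k0,k0,k0,k0],[k2,k0,k1,k0,k0,k0],[k1,k1,k0,k0,k0,k0],[k1,k2,k0,k0,k0,k0],[k1,k1,k0,k1,k0,k0],[k1,k1,k0,k0,
    k1,k0],[k1,k1,k0,k0,k0,k1],[k1,k0,k1,k0,k0,k0],[k1,k1,k1,k0,k0,k0],[k1,k2,k1,k0,k0,k0],[k1,k0,k2,k0,k0,k0],[k1,k0,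
    k1,k1,k0,k0],[k1,k0,k1,k0,k1,k0],[k1,k0,k1,k0,k0,k1],[k1,k0,k0,k1,k0,k0],[k1,k0,k0,k0,k1,k0],[k1,k0,k0,k0,k0,k1],
    [k0,k2,k0,k0,k0,k0],[k0,k3,k0,k0,k0,k0],[k0,k4,k0,k0,k0,k0],[k0,k3,k0,k0,k0,k1],[k0,k2,k1,k0,k0,k0],[k0,k2,k0,k1,
    k0,k0],[k0,k2,k0,k0,k1,k0],[k0,k2,k0,k0,k0,k1],[k0,k1,k1,k0,k0,k0],[k0,k1,k1,k0,k0,k1],[k0,k1,k0,k1,k0,k0],[k0,k1,
    k1,k1,k0,k0],[k0,k1,k0,k1,k1,k0],[k0,k1,k0,k0,k1,k0],[k0,k1,k1,k0,k1,k0],[k0,k1,k0,k0,k2,k0],[k0,k1,k0,k0,k1,k1],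
    [k0,k1,k0,k0,k0,k1],[k0,k1,k0,k1,k0,k1],[k0,k1,k0,k0,k0,k2],[k0,k0,k2,k0,k0,k0],[k0,k0,k1,k1,k0,k0],[k0,k0,k1,k0,
    k1,k0],[k0,k0,k1,k0,k0,k1],[k0,k0,k0,k2,k0,k0],[k0,k0,k0,k1,k1,k0],[k0,k0,k0,k0,k2,k0],[k0,k0,k0,k0,k3,k0],[k0,k0,
    k0,k0,k1,k1],[k0,k0,k0,k0,k0,k2]]
    [.contra [z1],.contra [z1,y1,z0,y1],.contra [y1,z2,z4],.contra [y1,z2,z4],.ref k0 k4 [(z1,[z1,y1,y1])],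
    .contra [z1,z0,y1],.ref k0 k1 [(z1,[z1,y1,y1])],.contra [y1,z2,z2,z1],.contra [z1,y1,z0,y1],.contra [z1,y1,y2],
    .contra [z1,y1,z0,y1],.contra [z1,y1,z0,y1],.contra [z2,y1,z0,y2],.contra [y1,z0,y1,z0,z1],.ref k1 k2 [(z1,[z1])],
    .contra [z2,z1],.ref k0 k2 [(z1,[z1])],.contra [z1],.contra [y1,z2,z4],.contra [z1,z0,y4,z2],.ref k147 k11 [(z1,
    [z1,y2,y4]),(z1,[z0,y1,y1]),(z1,[y1,z1,z3,y1,z1])],.contra [z1,z0,y2,z1],.ref k0 k0 [(z1,[z1,z0,y2,z1])],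
    .contra [z1,z0,y1],.ref k1 k1 [(z1,[z1,z0,y2,z1])],.contra [y1,z2,z2,z1],.ref k147 k11 [(z1,[z1,y2,y2,y1]),(z1,
    [z0,y1,y1]),(z1,[y1,z1,z1,z0,z1])],.ref k150 k9 [(z1,[z0,z0,y2,z1]),(z1,[z1]),(z1,[z0,z0,z1]),(z1,[y1,y1,y1,y1,
    z1])],.ref k3 k2 [(z1,[y1,z0,z0,z0,z1])],.contra [z1,z0,y1],.contra [y1,z1,z3],.contra [z1,z0,y1],.contra [z2,z1,
    y2],.contra [y1,y1,z0,y1,z1],.ref k124 k2 [(z1,[y1,z1,z1]),(z1,[z1]),(z1,[z0,z0,z0,z1])],.contra [y2,y1,z0,y2,z2],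
    .ref k129 k10 [(z1,[z1,z2,z2,z2,y2]),(z1,[y2,y2,y2,y3,z4]),(z1,[z0,y1,y1,y1,z1])],.contra [z1],.ref k0 k0 [(z1,
    [z1])],.contra [z1,z0,z1,y1],.ref k1 k1 [(z1,[z1])],.contra [z1],.ref k0 k4 [(z1,[z1])],.contra [z1,z1],
    .ref k62 k4 [(z1,[z1]),(z1,[z0,y1,y1,y1,z1])],.ref k0 k1 [(z1,[z1])],.contra [y1,y2,y2,y2,z2]])]

noncomputable def cU6_3_n1_5 : List XN :=
  [.geo true z4 k5 [(z2,z0),(z8,y4),(y5,z4),(z8,y4),(z3,z0),(z0,z4)] [(z1,[z2]),(z1,[z0,z4]),(z1,[z0,z0,z1]),(z1,[z0,z0,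
    z0,z4]),(z1,[y2,y4,y1,y4,z4]),(z1,
    [])] (Int.ofNat (nat_lit 1310720)) (Int.ofNat (nat_lit 2097152)) (.s (.l k1) (.s (.l k1) (.l k2))) [⟨z2,z1,[[k0,
    k1],[k2,k3],[k4,k5]],.bnd k1⟩],
    .geo true z1 k5 [(y2,z4),(z2,y1),(z2,y2),(z0,z1),(z2,y3),(z0,z1)] [(z1,[z1]),(z1,[z0,z1]),(z1,[z0,z0,z1]),(z1,[z0,z0,
    z0,z1]),(z1,[y1,y1,y1,y1,z1]),(z1,
    [])] (Int.ofNat (nat_lit 524288)) (Int.ofNat (nat_lit 699051)) (.s (.l k1) (.l k1)) [],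
    .geo true z2 k5 [(y2,z3),(z2,y1),(y2,z3),(z4,y4),(z6,y3),(z0,z2)] [(z1,[z1]),(z1,[z0,z1]),(z1,[z0,z0,z1]),(z1,[z0,z0,
    z0,z2]),(z1,[y1,y1,y1,y2,z2]),(z1,
    [])] (Int.ofNat (nat_lit 699050)) (Int.ofNat (nat_lit 1048576)) (.s (.l k2) (.l k1)) [⟨z2,z3,[[k0,k5],[k1,k2],[k3,
    k4]],.bnd k0⟩],
    .old (.lp [(nat_lit 876),(nat_lit 842),(nat_lit 518),(nat_lit 568),(nat_lit 510),(nat_lit 522)] [k0,k58,k46,k46,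
    (nat_lit 230),k186,k183,k183,(nat_lit 300),k124,(nat_lit 206),(nat_lit 206)] k0 [[k0,k0,k0,k0,k0,k0,(nat_lit 426),
    k0,k0,k0,(nat_lit 492)],[k0,k0,k0,k142,k0,k92],[k142,k0,k0,k0,k0,k0,k0,k0,k0,k0,(nat_lit 446)],[k0,k0,k0,k0,k0,
    k84,k0,k0,k0,k64],[k92,k0,k84],[k0,k0,k0,k0,k0,k0,k0,k88],[k0,k0,k0,k0,k88,k0,k0,k0,k130],[k0,(nat_lit 426)],[k0,
    k0,k64],[k0,k0,k0,k0,k0,k0,k0,k130],[],[k0,(nat_lit 492),k0,(nat_lit 446)]] (nat_lit 1920) k6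
    [[(k0,(nat_lit 384)),(k2,(nat_lit 384)),(k8,(nat_lit 576)),(k4,(nat_lit 646)),(k10,(nat_lit 670)),(k6,
    (nat_lit 693))],[(k1,(nat_lit 384)),(k9,(nat_lit 384)),(k11,(nat_lit 728)),(k7,(nat_lit 843)),(k3,(nat_lit 888)),
    (k5,(nat_lit 890))],[(k4,(nat_lit 566)),(k8,(nat_lit 588)),(k2,(nat_lit 700)),(k0,(nat_lit 888)),(k6,
    (nat_lit 1131)),(k10,(nat_lit 1174))],[(k1,(nat_lit 384)),(k3,(nat_lit 700)),(k5,(nat_lit 702)),(k11,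
    (nat_lit 746)),(k9,(nat_lit 764)),(k7,(nat_lit 789))],[(k8,(nat_lit 384)),(k4,(nat_lit 434)),(k6,(nat_lit 565)),
    (k2,(nat_lit 702)),(k0,(nat_lit 890)),(k10,(nat_lit 988))],[(k5,(nat_lit 434)),(k11,(nat_lit 498)),(k7,
    (nat_lit 521)),(k3,(nat_lit 566)),(k1,(nat_lit 646)),(k9,(nat_lit 668))],[(k8,(nat_lit 451)),(k6,(nat_lit 480)),
    (k4,(nat_lit 521)),(k10,(nat_lit 545)),(k2,(nat_lit 789)),(k0,(nat_lit 843))],[(k11,(nat_lit 415)),(k7,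
    (nat_lit 480)),(k5,(nat_lit 565)),(k9,(nat_lit 627)),(k1,(nat_lit 693)),(k3,(nat_lit 1131))],[(k0,(nat_lit 384)),
    (k10,(nat_lit 604)),(k6,(nat_lit 627)),(k8,(nat_lit 640)),(k4,(nat_lit 668)),(k2,(nat_lit 764))],[(k5,
    (nat_lit 384)),(k11,(nat_lit 428)),(k7,(nat_lit 451)),(k1,(nat_lit 576)),(k3,(nat_lit 588)),(k9,(nat_lit 640))],
    [(k6,(nat_lit 415)),(k8,(nat_lit 428)),(k4,(nat_lit 498)),(k10,(nat_lit 522)),(k0,(nat_lit 728)),(k2,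
    (nat_lit 746))],[(k11,(nat_lit 522)),(k7,(nat_lit 545)),(k9,(nat_lit 604)),(k1,(nat_lit 670)),(k5,(nat_lit 988)),
    (k3,(nat_lit 1174))]]
    [] k0
    [[k2,k0,k0,k0,k0,k0],[k3,k0,k0,k0,k0,k0],[k4,k0,k0,k0,k0,k0],[k3,k0,k0,k0,k1,k0],[k2,k1,k0,k0,k0,k0],[k2,k1,k0,k0,
    k1,k0],[k2,k0,k1,k0,k1,k0],[k2,k0,k0,k1,k1,k0],[k2,k0,k0,k0,k1,k0],[k2,k0,k0,k0,k0,k1],[k2,k0,k0,k0,k1,k1],[k1,k1,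
    k0,k0,k0,k0],[k1,k1,k1,k0,k0,k0],[k1,k1,k1,k0,k1,k0],[k1,k1,k0,k0,k1,k0],[k1,k0,k1,k0,k0,k0],[k1,k0,k2,k0,k1,k0],
    [k1,k0,k1,k0,k1,k0],[k1,k0,k0,k1,k0,k0],[k1,k0,k0,k1,k1,k0],[k1,k0,k0,k0,k1,k0],[k1,k0,k0,k0,k2,k0],[k1,k0,k0,k0,
    k1,k1],[k1,k0,k0,k0,k0,k1],[k0,k2,k0,k0,k0,k0],[k0,k1,k1,k0,k0,k0],[k0,k1,k2,k0,k0,k0],[k0,k1,k1,k0,k1,k0],[k0,k1,
    k0,k0,k1,k0],[k0,k0,k2,k0,k0,k0],[k0,k0,k3,k0,k0,k0],[k0,k0,k4,k0,k0,k0],[k0,k0,k2,k1,k0,k0],[k0,k0,k2,k0,k1,k0],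
    [k0,k0,k1,k1,k0,k0],[k0,k0,k1,k2,k0,k0],[k0,k0,k1,k1,k1,k0],[k0,k0,k1,k1,k0,k1],[k0,k0,k1,k0,k1,k0],[k0,k0,k1,k0,
    k2,k0],[k0,k0,k1,k0,k1,k1],[k0,k0,k1,k0,k0,k1],[k0,k0,k0,k2,k0,k0],[k0,k0,k0,k3,k0,k0],[k0,k0,k0,k2,k1,k0],[k0,k0,
    k0,k2,k0,k1],[k0,k0,k0,k1,k1,k0],[k0,k0,k0,k1,k2,k0],[k0,k0,k0,k1,k1,k1],[k0,k0,k0,k1,k0,k1],[k0,k0,k0,k1,k0,k2],
    [k0,k0,k0,k0,k2,k0],[k0,k0,k0,k0,k2,k1],[k0,k0,k0,k0,k1,k1],[k0,k0,k0,k0,k1,k2],[k0,k0,k0,k0,k0,k2],[k0,k0,k0,k0,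
    k0,k3]]
    [.contra [z1],.ref k62 k2 [(z1,[z1]),(z1,[z0,z0,z1])],.contra [y1,z4,z0,z2],.ref k109 k7 [(z1,[y1,z0,y1,y1,z1]),
    (z1,[z0,z1,z0,z1])],.contra [z1,y1,y1],.contra [z1,y1,y1],.contra [z1,y2,z0,y1],.ref k62 k2 [(z1,[z1,z2,z1,z1,
    y1]),(z1,[z0,z0,z1])],.ref k124 k9 [(z1,[y1,z1,y1,z1]),(z1,[z0,y1,z0,y1,z1]),(z1,[z1])],.ref k0 k9 [(z1,[y1,z2,z1,
    z1])],.ref k62 k2 [(z1,[z1,z1]),(z1,[z0,z0,z1])],.contra [z1,y1,y1],.contra [z1,y1,y1],.contra [z1,y1,z1,y1],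
    .contra [z1,y1,y1],.contra [y1,z2,z0,z1],.ref k0 k9 [(z1,[z1,y1,z1,y1])],.contra [y1,z0,y1,z0,z1],.contra [y1,z0,
    y1,z0,z1],.contra [z1,z2,z1,z1,y1],.contra [y1,z0,y1,z0,z1],.ref k154 k11 [(z1,[y1,y2]),(z1,[z1]),(z1,[y1,y4,y2,
    y2,z2]),(z1,[z0,z2,z0,z1])],.contra [z1,z1],.contra [y1,z1,z0,z1],.contra [z1],.ref k0 k9 [(z1,[z1])],
    .ref k109 k6 [(z1,[z1,y2,z0,y2]),(z1,[z0,z1,z0,z1])],.ref k153 k3 [(z1,[z2,z4,z2,z3,y4]),(z1,[z0,y1,z0,y1,z1]),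
    (z1,[y1,y1,y1,y1,z2]),(z1,[z0,z1,z1,z1,y1])],.ref k1 k4 [(z1,[z1])],.contra [z1],.ref k62 k2 [(z2,[y1,z6,z0,z3]),
    (z1,[z0,z0,z1])],.ref k152 k9 [(z2,[z1]),(z1,[z0,y1,z0,y1,z1]),(z2,[y1,z0,y8,z4]),(z1,[z0,z0,z1])],
    .ref k109 k7 [(z1,[z1,y2,z0,y2]),(z1,[z0,z1,z0,z1])],.ref k124 k8 [(z1,[y1,z1,y1,z1]),(z1,[z0,z0,z1]),(z1,[z1])],
    .contra [y1,z0,y1,z0,z1],.contra [y1,y2,y2,y1,z2],.contra [y1,z0,y1,z0,z1],.contra [y1,y1,y1,z0,z1],.contra [y1,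
    z0,y1,z0,z1],.contra [y1,y2,y2,y1,z2],.contra [y1,z1,z0,z1],.contra [y1,z1,z0,z1],.contra [y1,y2,z0,y2,z2],
    .ref k129 k0 [(z1,[z1,z2,z0,z2,y2]),(z1,[y2,y6,y2,y5,z6]),(z1,[z0,z0,z1])],.contra [y1,y2,y2,y1,z2],
    .ref k129 k0 [(z1,[z1,z1,y1,z1,y1]),(z1,[y2,y4,z0,y3,z4]),(z1,[z0,z0,z1])],.contra [y1,z0,y1,z0,z1],.contra [y1,
    y2,y2,y1,z2],.contra [y1,y1,y1,z0,z1],.contra [y1,y1,z1,y1,z1],.ref k129 k0 [(z1,[z1,z0,y2]),(z1,[y2,y2,z2,y1,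
    z2]),(z1,[z0,z0,z1])],.contra [z1],.contra [y1,y1,y1,z0,z1],.contra [y1,z1,z0,z1],.contra [y1,z0,z0,z1],
    .contra [y1,z0,z2],.ref k129 k0 [(z1,[z1,y1,y3,y1,z1]),(z1,[y2,z0,z4,z1]),(z1,[z0,z0,z1])]]),
    .geo true z1 k5 [(y4,z8),(z2,y3),(y2,z4),(z2,y2),(z6,y8),(z0,z1)] [(z1,[z1]),(z1,[z0,z1]),(z1,[z0,z0,z1]),(z1,[z0,z0,
    z0,z1]),(z1,[y1,y1,y1,y1,z1]),(z1,
    [])] (Int.ofNat (nat_lit 524288)) (Int.ofNat (nat_lit 699051)) (.s (.s (.l k2) (.l k1)) (.l k1)) [⟨z1,z2,[[k0,k5],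
    [k1,k2],[k3,k4]],.bnd k0⟩],
    .geo true z1 k5 [(y2,z6),(z2,y2),(z2,y3),(z0,z2),(z2,y4),(z0,z1)] [(z1,[z1]),(z1,[z0,z1]),(z1,[z0,z0,z1]),(z1,[z0,z0,
    z0,z1]),(z1,[y1,y1,y1,y1,z1]),(z1,
    [])] (Int.ofNat (nat_lit 349525)) (Int.ofNat (nat_lit 524288)) (.s (.l k1) (.l k1)) [],
    .old (.lp [(nat_lit 2174),(nat_lit 2230),(nat_lit 2230),(nat_lit 1920),(nat_lit 1542),(nat_lit 1412)] [k28,k28,k0,k0,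
    k0,k0,(nat_lit 223),k87,(nat_lit 344),(nat_lit 344),(nat_lit 409),(nat_lit 409)] k0 [[k0,k0,k0,k0,k0,k0,k86],[k0,
    k0,k0,(nat_lit 774)],[(nat_lit 774)],[k0,k0,k0,k0,k0,k68,k0,(nat_lit 532)],[k0,k0,k68],[k0,k0,k0,k0,k0,k0,k0,k0,
    k0,k0,k0,(nat_lit 582)],[k0,k0,(nat_lit 532),k0,k0,k0,k0,k0,(nat_lit 446)],[k0,k86],[k0,k0,k0,k0,k0,k0,k0,k0,k0,
    k0,(nat_lit 706)],[k0,k0,k0,k0,k0,k0,k0,(nat_lit 446)],[k0,k0,k0,k0,(nat_lit 582)],[k0,k0,k0,k0,k0,k0,k0,k0,k0,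
    (nat_lit 706)]] (nat_lit 5760) k6
    [[(k8,(nat_lit 1152)),(k10,(nat_lit 1793)),(k6,(nat_lit 1979)),(k0,(nat_lit 2174)),(k2,(nat_lit 2202)),(k4,
    (nat_lit 2784))],[(k9,(nat_lit 1772)),(k11,(nat_lit 1793)),(k7,(nat_lit 2115)),(k1,(nat_lit 2174)),(k3,
    (nat_lit 2202)),(k5,(nat_lit 2976))],[(k2,(nat_lit 1456)),(k10,(nat_lit 1821)),(k8,(nat_lit 1886)),(k6,
    (nat_lit 2093)),(k0,(nat_lit 2202)),(k4,(nat_lit 2230))],[(k3,(nat_lit 1456)),(k11,(nat_lit 1821)),(k1,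
    (nat_lit 2202)),(k7,(nat_lit 2211)),(k5,(nat_lit 2230)),(k9,(nat_lit 2418))],[(k6,(nat_lit 1475)),(k10,
    (nat_lit 1821)),(k8,(nat_lit 1886)),(k4,(nat_lit 2162)),(k2,(nat_lit 2230)),(k0,(nat_lit 2976))],[(k11,
    (nat_lit 1821)),(k9,(nat_lit 1886)),(k7,(nat_lit 2143)),(k5,(nat_lit 2162)),(k3,(nat_lit 2230)),(k1,
    (nat_lit 2784))],[(k10,(nat_lit 1152)),(k8,(nat_lit 1799)),(k6,(nat_lit 1920)),(k0,(nat_lit 2115)),(k4,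
    (nat_lit 2143)),(k2,(nat_lit 2211))],[(k11,(nat_lit 1152)),(k5,(nat_lit 1475)),(k9,(nat_lit 1663)),(k7,
    (nat_lit 1920)),(k1,(nat_lit 1979)),(k3,(nat_lit 2093))],[(k10,(nat_lit 1477)),(k6,(nat_lit 1663)),(k0,
    (nat_lit 1772)),(k4,(nat_lit 1886)),(k8,(nat_lit 1988)),(k2,(nat_lit 2418))],[(k1,(nat_lit 1152)),(k11,
    (nat_lit 1477)),(k7,(nat_lit 1799)),(k3,(nat_lit 1886)),(k5,(nat_lit 1886)),(k9,(nat_lit 1988))],[(k6,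
    (nat_lit 1152)),(k8,(nat_lit 1477)),(k0,(nat_lit 1793)),(k2,(nat_lit 1821)),(k4,(nat_lit 1821)),(k10,
    (nat_lit 2118))],[(k7,(nat_lit 1152)),(k9,(nat_lit 1477)),(k1,(nat_lit 1793)),(k3,(nat_lit 1821)),(k5,
    (nat_lit 1821)),(k11,(nat_lit 2118))]]
    [] k0
    [[k2,k0,k0,k0,k0,k0],[k2,k0,k0,k0,k1,k0],[k1,k1,k0,k0,k0,k0],[k1,k0,k0,k1,k0,k0],[k1,k0,k0,k1,k1,k0],[k1,k0,k0,k1,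
    k0,k1],[k1,k0,k0,k0,k1,k0],[k1,k0,k0,k0,k2,k0],[k1,k0,k0,k0,k1,k1],[k1,k0,k0,k0,k0,k1],[k1,k0,k0,k0,k0,k2],[k0,k2,
    k0,k0,k0,k0],[k0,k3,k0,k0,k0,k0],[k0,k2,k0,k0,k0,k1],[k0,k1,k1,k0,k0,k0],[k0,k1,k0,k1,k0,k0],[k0,k1,k0,k1,k0,k1],
    [k0,k1,k0,k0,k1,k0],[k0,k1,k0,k0,k1,k1],[k0,k1,k0,k0,k0,k1],[k0,k0,k2,k0,k0,k0],[k0,k0,k1,k1,k0,k0],[k0,k0,k1,k2,
    k0,k0],[k0,k0,k1,k1,k1,k0],[k0,k0,k1,k1,k0,k1],[k0,k0,k1,k0,k1,k0],[k0,k0,k1,k0,k1,k1],[k0,k0,k1,k0,k0,k1],[k0,k0,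
    k0,k2,k0,k0],[k0,k0,k0,k2,k1,k0],[k0,k0,k0,k2,k0,k1],[k0,k0,k0,k1,k1,k0],[k0,k0,k0,k1,k2,k0],[k0,k0,k0,k1,k1,k1],
    [k0,k0,k0,k1,k0,k1],[k0,k0,k0,k2,k0,k2],[k0,k0,k0,k1,k1,k2],[k0,k0,k0,k1,k0,k2],[k0,k0,k0,k0,k2,k0],[k0,k0,k0,k0,
    k2,k1],[k0,k0,k0,k0,k1,k1],[k0,k0,k0,k0,k1,k2],[k0,k0,k0,k0,k0,k2]]
    [.contra [z1],.ref k129 k4 [(z1,[z1,y2,z0,y2]),(z1,[y2,z3,y1,z3,z1]),(z1,[z0,z1,z0,z1])],.ref k0 k6 [(z1,[z1])],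
    .contra [y1,z0,y1,y1,z1],.ref k147 k2 [(z1,[z1,z1,z1,z1,y1]),(z1,[z0,z0,z1]),(z1,[y1,z0,y1,z0,z1])],.contra [y1,
    z0,y1,y1,z1],.ref k124 k11 [(z1,[y1,z0,y1]),(z1,[z1]),(z1,[z0,y1,z1,y1,z1])],.contra [z1,z1],.ref k0 k6 [(z1,[z1,
    z0,z1])],.contra [y2,z1,y1,z0,z1],.contra [z1,y1,z2],.contra [z1],.ref k62 k6 [(z1,[z1]),(z1,[z0,z1,z0,z1])],
    .ref k138 k2 [(z1,[z0,z1]),(z1,[z1]),(z1,[z0,z0,z0,z1])],.ref k0 k9 [(z1,[z1])],.contra [y1,y1,z1,y1,z1],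
    .contra [y2,y1,z0,y2,z2],.contra [y2,y1,z1,z0,z1],.contra [z1,z0,z1],.contra [y2,y1,z0,y2,z2],.contra [y1,z2,z0,
    z2],.ref k0 k0 [(z1,[z1])],.ref k3 k4 [(z2,[z1,z0,z0,z1])],.ref k3 k4 [(z1,[z1])],.ref k157 k7 [(z1,[z2,z1,z1,y1,
    y1]),(z1,[z0,z0,z0,z1]),(z1,[y1,y1,z0,z0,z1]),(z1,[z0,z1])],.contra [y2,z1,z0,z2],.ref k0 k9 [(z1,[z1,z0,z1])],
    .ref k1 k1 [(z1,[z1])],.contra [z1],.ref k156 k8 [(z1,[z2,z5,y4,z4,y4]),(z1,[y1,y2,z1,y2,z2]),(z1,[z1,z2,y2,z2,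
    y2]),(z1,[z0,y1,z1,y1,z1])],.ref k149 k11 [(z1,[z1,z2,y2,z2,y2]),(z1,[y1,y2,z1,y2,z2]),(z1,[z0,y1,z1,y1,z1])],
    .contra [y1,y1,z0,y1,z1],.contra [y1,y1,y1,y1,z1],.contra [y1,y1,z0,y1,z1],.contra [y2,y1,z0,y2,z2],
    .ref k0 k0 [(z1,[z1,z1,z1,z2,y1])],.contra [y2,y1,y2,y2,z2],.contra [y1,z0,y1,y1,z1],.contra [z1],.contra [y2,y1,
    y1,z0,z1],.contra [y2,z0,y1,z0,z1],.contra [y2,y1,y2,y2,z2],.contra [z1]]),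
    .geo true z3 k4 [(y2,z6),(z2,y3),(z6,y6),(z2,z0),(z0,z3),(z4,z0)] [(z1,[z1]),(z1,[z0,z1]),(z1,[z0,z0,z3]),(z1,[z0,z0,
    z0,z1]),(z1,[]),(z1,[y1,y1,y3,y1,
    z3])] (Int.ofNat (nat_lit 349525)) (Int.ofNat (nat_lit 699051)) (.s (.l k1) (.l k1)) [],
    .geo true z1 k5 [(y2,z5),(z2,y2),(y2,z4),(z2,y3),(z4,y5),(z0,z1)] [(z1,[z1]),(z1,[z0,z1]),(z1,[z0,z0,z1]),(z1,[z0,z0,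
    z0,z1]),(z1,[y1,y1,y1,y1,z1]),(z1,[])] (Int.ofNat (nat_lit 524288)) (Int.ofNat (nat_lit 699051)) (.l k1) [],
    .geo true z1 k5 [(y1,z3),(z2,y2),(y1,z2),(z1,y1),(z3,y3),(z0,z1)] [(z1,[z1]),(z1,[z0,z1]),(z1,[z0,z0,z1]),(z1,[z0,z0,
    z0,z1]),(z1,[y1,y1,y1,y1,z1]),(z1,
    [])] (Int.ofNat (nat_lit 524288)) (Int.ofNat (nat_lit 1048576)) (.s (.l k1) (.s (.l k1) (.l k1))) []]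

/-- the nodes with numbers from 92 -/
noncomputable def cU6_3_n1 : List XN :=
  cU6_3_n1_0 ++ (cU6_3_n1_1 ++ (cU6_3_n1_2 ++ (cU6_3_n1_3 ++ (cU6_3_n1_4 ++ cU6_3_n1_5))))

theorem cU6_3_k1 : allI (chkX 6 cU6_3_w ttU6 cU6_3_s (blkF [] cU6_3_D)) cU6_3_n1 92 = true := by
  decide +kernel

end Pool.Agent.Lib_MP_fa6e45
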