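import Pool.Agent.Lib_MP_fa6e45.CY6_2d

/-!
MP_fa6e45_co, stage 7: certificates (generated by a program).
-/

namespace Pool.Agent.Lib_MP_fa6e45

noncomputable def cU6_3_n2_0 : List XN :=
  [.old (.lp [k148,k136,k136,k196,k180,k162] [k24,k24,k40,k20,k16,k44,k0,k0,k8,k8,k17,k17] k0 [[k0,k0,k0,k0,k0,k0,k20,k0,
    k2],[k0,k0,k0,k0,k0,k64,k0,k0,k0,k0,k0,k24],[k0,k0,k0,k0,k0,k0,k0,k0,k0,k0,k36],[k0,k0,k0,k0,k0,k0,k0,k26],[k64,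
    k0,k0,k0,k0,k0,k0,k0,k0,k0,k38],[k0,k0,k0,k0,k0,k0,k0,k68,k0,k10],[k0,k0,k26,k0,k68],[k0,k20,k0,k0,k0,k0,k0,k0,k0,
    k84],[k0,k0,k0,k0,k10,k0,k84],[k0,k2],[k24],[k0,k0,k0,k36,k0,k38]] (nat_lit 480) k6
    [[(k2,k96),(k4,k118),(k10,k155),(k8,k164),(k0,k172),(k6,k172)],[(k5,k128),(k9,k144),(k3,k152),(k11,k153),(k1,
    k172),(k7,(nat_lit 236))],[(k4,k96),(k10,k135),(k2,k136),(k0,k152),(k8,k170),(k6,k196)],[(k1,k96),(k5,k112),(k3,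
    k136),(k11,k139),(k7,k156),(k9,k174)],[(k2,k112),(k6,k126),(k0,k128),(k4,k136),(k8,k144),(k10,k171)],[(k3,k96),
    (k1,k118),(k5,k136),(k11,k173),(k7,k180),(k9,(nat_lit 240))],[(k6,k128),(k2,k156),(k8,k178),(k4,k180),(k10,
    (nat_lit 217)),(k0,(nat_lit 236))],[(k5,k126),(k7,k128),(k1,k172),(k9,k188),(k3,k196),(k11,(nat_lit 263))],[(k8,
    k96),(k0,k144),(k10,k171),(k2,k174),(k6,k188),(k4,(nat_lit 240))],[(k9,k96),(k5,k144),(k1,k164),(k3,k170),(k11,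
    k171),(k7,k178)],[(k2,k139),(k0,k153),(k10,k162),(k8,k171),(k4,k173),(k6,(nat_lit 263))],[(k3,k135),(k1,k155),
    (k11,k162),(k5,k171),(k9,k171),(k7,(nat_lit 217))]]
    [] k0
    [[k2,k0,k0,k0,k0,k0],[k2,k1,k0,k0,k0,k0],[k2,k0,k1,k0,k0,k0],[k1,k1,k0,k0,k0,k0],[k1,k2,k0,k0,k0,k0],[k1,k2,k1,k0,
    k0,k0],[k1,k1,k1,k0,k0,k0],[k1,k1,k2,k0,k0,k0],[k1,k1,k0,k0,k1,k0],[k1,k1,k0,k0,k0,k1],[k1,k0,k1,k0,k0,k0],[k1,k0,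
    k2,k0,k0,k0],[k1,k0,k1,k0,k1,k0],[k1,k0,k1,k0,k0,k1],[k1,k0,k0,k1,k0,k0],[k1,k0,k0,k0,k1,k0],[k1,k0,k0,k0,k2,k0],
    [k1,k0,k0,k0,k0,k1],[k1,k0,k0,k0,k1,k1],[k1,k0,k0,k0,k0,k2],[k0,k2,k0,k0,k0,k0],[k0,k3,k0,k0,k0,k0],[k0,k2,k1,k0,
    k0,k0],[k0,k2,k0,k0,k0,k1],[k0,k1,k1,k0,k0,k0],[k0,k2,k2,k0,k0,k0],[k0,k1,k2,k0,k0,k0],[k0,k1,k1,k1,k0,k0],[k0,k1,
    k1,k0,k1,k0],[k0,k1,k1,k0,k0,k1],[k0,k1,k0,k1,k0,k0],[k0,k1,k0,k0,k1,k0],[k0,k1,k0,k0,k2,k0],[k0,k1,k0,k0,k0,k1],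
    [k0,k1,k0,k0,k0,k2],[k0,k0,k2,k0,k0,k0],[k0,k0,k3,k0,k0,k0],[k0,k0,k2,k1,k0,k0],[k0,k0,k1,k1,k0,k0],[k0,k0,k1,k2,
    k0,k0],[k0,k0,k1,k0,k1,k0],[k0,k0,k1,k0,k0,k1],[k0,k0,k0,k2,k0,k0],[k0,k0,k0,k3,k0,k0],[k0,k0,k0,k1,k1,k0],[k0,k0,
    k0,k1,k2,k0],[k0,k0,k0,k0,k2,k0],[k0,k0,k0,k0,k3,k0],[k0,k0,k0,k0,k4,k0],[k0,k0,k0,k0,k2,k1],[k0,k0,k0,k0,k1,k1],
    [k0,k0,k0,k0,k0,k2]]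
    [.contra [z1],.contra [y1,z2,z2,z1],.contra [y1,z2,z2,z1],.contra [y1,z2,z2,z1],.contra [y1,z2,z2,z1],.contra [y1,
    z2,z2,z1],.contra [y1,z2,z2,z1],.ref k62 k4 [(z1,[y1,z1,z1,z2]),(z1,[z0,y1,y1,y1,z1])],.contra [z1,y1,y1],
    .contra [y1,z1,z2],.contra [y1,z2,z2,z1],.ref k1 k1 [(z1,[z1,y1,z0,y1])],.contra [y1,z1,z1,z1],.contra [y1,y1,y2,
    y1,z2],.contra [z1,z0,z1,z1,y1],.contra [y1,z1,z1,z1],.ref k144 k0 [(z1,[z1,y2,y3,y2,z1]),(z1,[z1,y1,y1,y1]),(z1,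
    [y1,z1,z2,z1])],.contra [y1,z1,z2],.ref k3 k2 [(z1,[z1])],.ref k158 k11 [(z1,[z1,y1,y2]),(z1,[z0,y1,y1]),(z1,[y1,
    z0,z1,y1,z1])],.contra [z1],.ref k141 k2 [(z1,[y1,z3,z3]),(z1,[z1]),(z1,[z0,z0,z0,z1])],.contra [y1,z2,z2,z1],
    .contra [y1,z1,z2],.contra [y1,z2,z2,z1],.ref k161 k7 [(z2,[z1,y2,y4,y4,z2]),(z1,[z0,z0,z0,z1]),(z2,[z1,z0,z0,
    y2]),(z2,[y1,z2,z2,z2])],.ref k160 k7 [(z1,[z1,y1,y2,y3,z1]),(z1,[z0,z0,z0,z1]),(z1,[z1,z0,z0,y2]),(z1,[y1,z1,z1,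
    z2])],.ref k3 k2 [(z1,[y1,z0,z0,z0,z1])],.contra [y1,z1,z1,z1],.ref k62 k4 [(z1,[y1,z0,z1,z1]),(z1,[z0,y1,y1,y1,
    z1])],.ref k155 k5 [(z1,[z1,z0,z0,z1,y1]),(z1,[z0,y1,y1,y1,z1]),(z1,[y2,z0,z0,y1,z2])],.contra [y1,z1,z1,z1],
    .ref k0 k4 [(z1,[z1,y1,y2,y1,z1])],.contra [y1,z1,z2],.ref k0 k4 [(z1,[y1,y1,z0,y1,z1])],.contra [z1],
    .ref k62 k4 [(z2,[y1,z0,z0,z3]),(z1,[z0,y1,y1,y1,z1])],.ref k144 k0 [(z1,[y1,y2,y4,y1,z2]),(z1,[y1,y1,y2,z0,z1]),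
    (z1,[z1,z1,z3,z0,y1])],.contra [y1,z0,y1,z0,z1],.contra [z1,z2,z4,z1,y2],.contra [y1,z1,z1,z1],.ref k1 k1 [(z1,
    [z1])],.contra [z1],.ref k159 k2 [(z1,[y1,z0,y3,y3,z3]),(z1,[z1,z3,z6,z3,y3]),(z1,[z0,z0,z0,z1]),(z1,[z1])],
    .ref k0 k4 [(z1,[z1])],.ref k1 k1 [(z1,[y1,y1,y1,z0,z1])],.contra [z1],.ref k62 k4 [(z1,[z1]),(z1,[z0,y1,y1,y1,
    z1])],.contra [y1,z0,z0,z2],.contra [z1,z1],.contra [y1,z0,z1],.contra [y1,y2,y2,y2,z2]]),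
    .old (.lp [(nat_lit 280),(nat_lit 312),(nat_lit 200),k182,(nat_lit 200),(nat_lit 260)] [k16,k16,k0,k0,k96,k16,k65,k65,
    k44,k68,k26,k26] k0 [[k0,k0,k0,k0,k0,k0,k0,k0,k0,k0,k40],[k0,k0,k0,k0,k0,k72],[k0,k0,k0,k0,k86,k0,k52],[k0,k0,k0,
    k0,k0,k0,k0,k0,k0,k108],[k72,k0,k0,k0,k0,k0,k4],[k0,k0,k0,k86],[k0,k0,k0,k0,k0,k0,k0,k0,k60],[k0,k0,k0,k52,k0,k4],
    [k0,k0,k108],[k0,k0,k0,k0,k0,k0,k0,k60],[],[k0,k40]] (nat_lit 720) k6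
    [[(k4,(nat_lit 200)),(k6,(nat_lit 231)),(k0,(nat_lit 240)),(k8,(nat_lit 252)),(k10,(nat_lit 270)),(k2,
    (nat_lit 296))],[(k9,(nat_lit 228)),(k1,(nat_lit 240)),(k11,(nat_lit 270)),(k5,(nat_lit 280)),(k3,(nat_lit 296)),
    (k7,(nat_lit 303))],[(k4,k144),(k6,(nat_lit 247)),(k8,(nat_lit 268)),(k0,(nat_lit 296)),(k2,(nat_lit 312)),(k10,
    (nat_lit 326))],[(k7,k161),(k9,k192),(k1,(nat_lit 296)),(k5,(nat_lit 296)),(k3,(nat_lit 312)),(k11,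
    (nat_lit 394))],[(k8,k144),(k10,(nat_lit 270)),(k0,(nat_lit 280)),(k6,(nat_lit 283)),(k4,(nat_lit 286)),(k2,
    (nat_lit 296))],[(k3,k144),(k9,k144),(k7,k151),(k11,k190),(k1,(nat_lit 200)),(k5,(nat_lit 286))],[(k4,k151),(k2,
    k161),(k6,k186),(k8,(nat_lit 203)),(k10,(nat_lit 221)),(k0,(nat_lit 303))],[(k11,k161),(k9,k179),(k7,k186),(k1,
    (nat_lit 231)),(k3,(nat_lit 247)),(k5,(nat_lit 283))],[(k4,k144),(k6,k179),(k2,k192),(k10,(nat_lit 218)),(k0,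
    (nat_lit 228)),(k8,(nat_lit 260))],[(k5,k144),(k7,(nat_lit 203)),(k11,(nat_lit 242)),(k1,(nat_lit 252)),(k9,
    (nat_lit 260)),(k3,(nat_lit 268))],[(k6,k161),(k4,k190),(k8,(nat_lit 242)),(k10,(nat_lit 260)),(k0,(nat_lit 270)),
    (k2,(nat_lit 394))],[(k9,(nat_lit 218)),(k7,(nat_lit 221)),(k11,(nat_lit 260)),(k1,(nat_lit 270)),(k5,
    (nat_lit 270)),(k3,(nat_lit 326))]]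
    [] k0
    [[k2,k0,k0,k0,k0,k0],[k1,k1,k0,k0,k0,k0],[k1,k0,k1,k0,k0,k0],[k1,k0,k1,k0,k1,k0],[k1,k0,k0,k1,k0,k0],[k1,k1,k0,k1,
    k0,k0],[k1,k0,k1,k1,k0,k0],[k1,k0,k0,k1,k1,k0],[k1,k0,k0,k0,k1,k0],[k1,k0,k0,k0,k0,k1],[k0,k2,k0,k0,k0,k0],[k0,k1,
    k1,k0,k0,k0],[k0,k1,k1,k1,k0,k0],[k0,k1,k1,k0,k1,k0],[k0,k1,k1,k1,k1,k0],[k0,k1,k0,k1,k0,k0],[k0,k1,k0,k2,k0,k0],
    [k0,k1,k0,k1,k1,k0],[k0,k1,k0,k0,k1,k0],[k0,k1,k0,k1,k0,k1],[k0,k0,k2,k0,k0,k0],[k0,k0,k2,k0,k1,k0],[k0,k0,k1,k1,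
    k0,k0],[k0,k0,k1,k2,k0,k0],[k0,k0,k1,k1,k1,k0],[k0,k0,k1,k1,k0,k1],[k0,k0,k1,k0,k1,k0],[k0,k0,k2,k0,k2,k0],[k0,k0,
    k1,k2,k1,k0],[k0,k0,k1,k1,k2,k0],[k0,k0,k1,k0,k2,k0],[k0,k0,k1,k0,k1,k1],[k0,k0,k1,k1,k1,k1],[k0,k0,k1,k0,k0,k1],
    [k0,k0,k0,k2,k0,k0],[k0,k0,k0,k3,k0,k0],[k0,k0,k0,k2,k1,k0],[k0,k0,k0,k2,k0,k1],[k0,k0,k0,k1,k1,k0],[k0,k0,k0,k1,
    k2,k0],[k0,k0,k0,k1,k1,k1],[k0,k0,k0,k1,k0,k1],[k0,k0,k0,k1,k0,k2],[k0,k0,k0,k0,k2,k0],[k0,k0,k0,k0,k1,k1],[k0,k0,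
    k0,k0,k0,k2]]
    [.contra [z1],.ref k0 k6 [(z1,[z1])],.contra [y1,z1,y1,z1],.contra [y1,z0,y1,z1],.contra [y1,z0,y1,z1],
    .ref k144 k1 [(z1,[y1,z1,z1]),(z1,[z0,z1]),(z1,[z1,y1])],.contra [y1,z0,y1,z1],.contra [z1,z1],.contra [y1,z0,y1,
    z1],.ref k0 k2 [(z1,[z1])],.contra [z1],.ref k0 k9 [(z1,[z1])],.ref k3 k2 [(z1,[y1,z0,z0,z1])],.ref k162 k5 [(z1,
    [z1,y1,z0,y1]),(z1,[y1,z0,z0,z1]),(z1,[z0,z1,y1,z1])],.ref k0 k2 [(z1,[y1,z0,z0,z1])],.ref k155 k2 [(z1,[z1,z1,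
    y1]),(z1,[z0,z0,z1]),(z1,[y2,y1,z1,z1])],.ref k158 k1 [(z1,[y1,z0,z1]),(z1,[z0,z1]),(z1,[z1])],.ref k0 k6 [(z1,
    [z1,z1])],.ref k1 k4 [(z1,[z1])],.contra [z1,z0,y1],.contra [z1],.ref k149 k5 [(z1,[z1,y2,z2,y2]),(z1,[y1,z1,y2,
    z2]),(z1,[z0,z1,y1,z1])],.contra [y1,z0,y1,z1],.contra [y1,y1,y1,z1],.contra [y1,z0,y1,z1],.ref k147 k1 [(z1,[z1,
    z1,z1,y1]),(z1,[z0,z1]),(z1,[y1,y1,z0,z1])],.contra [y1,z0,y1,z1],.ref k151 k5 [(z2,[z1,y2,z2,y2]),(z2,[y1,z0,y2,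
    z2]),(z1,[z0,z1,y1,z1])],.contra [y1,y1,y1,z1],.contra [y1,y1,y1,z1],.contra [y1,y1,y1,z1],.ref k144 k1 [(z1,[z1,
    z1,z1,y1]),(z1,[z0,z1]),(z1,[y1,y1,z0,z1])],.ref k0 k6 [(z1,[y1,z0,z0,z1])],.ref k1 k1 [(z1,[z1])],.contra [z1],
    .ref k141 k5 [(z1,[y1,y3]),(z1,[z1]),(z1,[z0,z1,y1,z1])],.contra [y1,y1,y1,z1],.ref k138 k10 [(z1,[y1,z0,z1]),(z1,
    [z0,z1,y1,z1]),(z1,[z1])],.contra [y1,z0,y1,z1],.contra [y1,y1,y1,z1],.ref k0 k2 [(z1,[z1,z1])],.ref k124 k5 [(z1,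
    [y1,y1]),(z1,[z1]),(z1,[z0,z1,y1,z1])],.ref k129 k0 [(z1,[z1,z0,y2]),(z1,[y2,y1,z3,z1]),(z1,[z0,z0,z1])],
    .contra [z1],.ref k0 k1 [(z1,[z1])],.contra [y1,z0,z2]]),
    .geo true z1 k5 [(y2,z4),(y4,z6),(z2,y2),(z4,y5),(z4,y4),(z0,z1)] [(z1,[z1]),(z1,[z0,z1]),(z1,[z0,z0,z1]),(z1,[z0,z0,
    z0,z1]),(z1,[y1,y1,y1,y1,z1]),(z1,[])] (Int.ofNat (nat_lit 699050)) (Int.ofNat (nat_lit 838861)) (.l k1) [],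
    .old (.lp [(nat_lit 103796),(nat_lit 107840),(nat_lit 109188),(nat_lit 111884),(nat_lit 123342),
    (nat_lit 90316)] [(nat_lit 64704),k0,(nat_lit 30330),(nat_lit 30330),(nat_lit 20220),(nat_lit 39092),
    (nat_lit 28308),(nat_lit 28308),(nat_lit 22579),(nat_lit 22579),(nat_lit 39092),(nat_lit 39092)] k0 [[k0,k0,k0,k0,
    (nat_lit 1348)],[k0,k0,k0,k0,k0,k0,k0,k0,k0,k0,k0,(nat_lit 31680)],[k0,k0,k0,k0,k0,k0,k0,k0,(nat_lit 3370)],[k0,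
    k0,k0,k0,k0,k0,k0,(nat_lit 6740),k0,k0,k0,(nat_lit 1348)],[k0,k0,k0,k0,k0,k0,k0,k0,(nat_lit 2696),k0,
    (nat_lit 83576)],[k0,(nat_lit 1348),k0,k0,k0,k0,k0,(nat_lit 2022)],[k0,k0,(nat_lit 6740),k0,(nat_lit 2022)],[k0,
    k0,k0,k0,k0,k0,k0,k0,k0,(nat_lit 37744)],[k0,k0,k0,k0,k0,k0,(nat_lit 37744),k0,k0,k0,(nat_lit 39092)],[k0,k0,k0,
    (nat_lit 3370),k0,(nat_lit 2696)],[(nat_lit 31680),k0,(nat_lit 1348)],[k0,k0,k0,k0,k0,(nat_lit 83576),k0,k0,k0,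
    (nat_lit 39092)]] (nat_lit 323520) k6
    [[(k4,(nat_lit 64704)),(k8,(nat_lit 106829)),(k10,(nat_lit 129408)),(k0,(nat_lit 135476)),(k2,(nat_lit 139518)),
    (k6,(nat_lit 140192))],[(k5,(nat_lit 64704)),(k11,(nat_lit 64704)),(k3,(nat_lit 73466)),(k7,(nat_lit 74140)),(k9,
    (nat_lit 81217)),(k1,(nat_lit 135476))],[(k10,(nat_lit 67398)),(k0,(nat_lit 73466)),(k2,(nat_lit 107840)),(k6,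
    (nat_lit 109862)),(k8,(nat_lit 115591)),(k4,(nat_lit 119298))],[(k11,(nat_lit 95708)),(k5,(nat_lit 99078)),(k3,
    (nat_lit 107840)),(k7,(nat_lit 109862)),(k9,(nat_lit 122331)),(k1,(nat_lit 139518))],[(k0,(nat_lit 64704)),(k10,
    (nat_lit 88968)),(k6,(nat_lit 94360)),(k2,(nat_lit 99078)),(k4,(nat_lit 109188)),(k8,(nat_lit 110199))],[(k1,
    (nat_lit 64704)),(k11,(nat_lit 106492)),(k5,(nat_lit 109188)),(k3,(nat_lit 119298)),(k7,(nat_lit 119972)),(k9,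
    (nat_lit 127723))],[(k0,(nat_lit 74140)),(k2,(nat_lit 109862)),(k6,(nat_lit 109862)),(k4,(nat_lit 119972)),(k8,
    (nat_lit 120309)),(k10,(nat_lit 184676))],[(k5,(nat_lit 94360)),(k3,(nat_lit 109862)),(k7,(nat_lit 109862)),(k9,
    (nat_lit 117613)),(k11,(nat_lit 138844)),(k1,(nat_lit 140192))],[(k0,(nat_lit 81217)),(k8,(nat_lit 85598)),(k10,
    (nat_lit 106829)),(k6,(nat_lit 117613)),(k2,(nat_lit 122331)),(k4,(nat_lit 127723))],[(k9,(nat_lit 85598)),(k1,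
    (nat_lit 106829)),(k11,(nat_lit 106829)),(k5,(nat_lit 110199)),(k3,(nat_lit 115591)),(k7,(nat_lit 120309))],[(k0,
    (nat_lit 64704)),(k2,(nat_lit 95708)),(k4,(nat_lit 106492)),(k8,(nat_lit 106829)),(k10,(nat_lit 129408)),(k6,
    (nat_lit 138844))],[(k3,(nat_lit 67398)),(k5,(nat_lit 88968)),(k9,(nat_lit 106829)),(k1,(nat_lit 129408)),(k11,
    (nat_lit 129408)),(k7,(nat_lit 184676))]]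
    [] k0
    [[k2,k0,k0,k0,k0,k0],[k2,k0,k1,k0,k0,k0],[k1,k1,k0,k0,k0,k0],[k1,k2,k0,k0,k0,k0],[k1,k1,k0,k0,k0,k1],[k1,k0,k1,k0,
    k0,k0],[k2,k0,k2,k0,k0,k0],[k2,k0,k1,k0,k1,k0],[k1,k1,k1,k0,k0,k0],[k1,k1,k1,k0,k0,k1],[k1,k0,k2,k0,k0,k0],[k1,k0,
    k1,k1,k0,k0],[k1,k0,k1,k0,k1,k0],[k1,k0,k1,k0,k0,k1],[k1,k0,k0,k1,k0,k0],[k1,k0,k0,k0,k1,k0],[k1,k1,k0,k0,k1,k0],
    [k1,k0,k0,k1,k1,k0],[k1,k0,k0,k0,k2,k0],[k1,k0,k0,k0,k1,k1],[k1,k0,k0,k0,k0,k1],[k0,k2,k0,k0,k0,k0],[k0,k2,k0,k0,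
    k0,k1],[k0,k1,k1,k0,k0,k0],[k0,k1,k1,k0,k0,k1],[k0,k1,k0,k1,k0,k0],[k0,k1,k0,k0,k1,k0],[k0,k1,k0,k0,k1,k1],[k0,k1,
    k0,k0,k0,k1],[k0,k1,k0,k1,k0,k1],[k0,k1,k0,k0,k0,k2],[k0,k0,k2,k0,k0,k0],[k0,k0,k2,k0,k0,k1],[k0,k0,k1,k1,k0,k0],
    [k0,k0,k1,k0,k1,k0],[k0,k0,k1,k0,k0,k1],[k0,k0,k0,k2,k0,k0],[k0,k0,k0,k1,k1,k0],[k0,k0,k0,k0,k2,k0],[k0,k0,k0,k0,
    k3,k0],[k0,k0,k0,k0,k2,k1],[k0,k0,k0,k0,k1,k1],[k0,k0,k0,k0,k0,k2]]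
    [.contra [z1],.contra [y1,z2,z1,z2],.contra [y1,z2,z1,z2],.ref k109 k0 [(z1,[y1,y2,y1,y3,z1]),(z1,[z0,z1,z1,z1])],
    .contra [y1,y1,y1,y2,z2],.contra [y1,z2,z1,z2],.contra [z1,y2,z0,y2],.ref k163 k4 [(z1,[z1,y2,y1,y2]),(z1,[z0,y1,
    y1,y1,z1])],.contra [y1,z2,z1,z2],.ref k0 k4 [(z1,[y1,z0,z0,z0,z1])],.contra [y1,z2,z1,z2],.ref k0 k4 [(z1,[z1,y1,
    z0,y1])],.contra [z1,y1,z0,y1],.contra [y1,z1,z0,z2],.contra [z1,z0,z1,z1,y1],.contra [y1,z1,z1,z1],.contra [y1,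
    z1,z1,z1],.ref k62 k4 [(z1,[z1,z0,z1,z1,y1]),(z1,[z0,y1,y1,y1,z1])],.ref k163 k4 [(z1,[z1,y1,y1,y1]),(z1,[z0,y1,
    y1,y1,z1])],.ref k3 k2 [(z1,[z1])],.contra [y1,z1,z0,z2],.contra [z1],.ref k164 k1 [(z1,[z1,z0,y2]),(z1,[z1,z1,
    y2]),(z1,[z0,z0,z1]),(z1,[y1,z0,z2,z1])],.contra [y1,z2,z1,z2],.ref k62 k4 [(z1,[y1,z0,z1,z1]),(z1,[z0,y1,y1,y1,
    z1])],.contra [y1,z0,z0,y1,z1],.contra [y1,z1,z1,z1],.ref k0 k4 [(z1,[y1,y1,z0,y1,z1])],.ref k109 k0 [(z1,[y1,y3,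
    y2,y3,z1]),(z1,[z0,z1,z1,z1])],.contra [y1,y1,z0,y1,z1],.ref k0 k4 [(z2,[y1,y2,y1,y2,z2])],.contra [z1],
    .contra [y1,z1,z0,z2],.ref k0 k0 [(z1,[z1])],.contra [y1,z1,z1,z1],.contra [y1,z1,z0,z2],.contra [z1],
    .ref k0 k4 [(z1,[z1])],.contra [z1],.ref k62 k4 [(z1,[z1]),(z1,[z0,y1,y1,y1,z1])],.contra [z1,z1],.contra [y1,z0,
    z0,z1],.contra [y1,y2,y2,y2,z2]]),
    .old (.lp [(nat_lit 324),(nat_lit 344),(nat_lit 268),(nat_lit 340),(nat_lit 274),(nat_lit 368)] [k39,k39,k29,k29,k134,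
    k0,k31,k31,k64,k64,k17,k17] k0 [[k0,k0,k0,k0,k0,k0,k0,k0,k0,k0,k102],[k0,k0,k0,k0,k0,k20,k0,k92],[k0,k0,k0,k0,
    k100,k0,k0,k0,k0,k0,k52],[k0,k0,k0,k0,k0,k0,k0,k0,k0,k146],[k20,k0,k0,k0,k0,k0,k12],[k0,k0,k0,k100],[k92,k0,k0,k0,
    k0,k0,k0,k0,k68],[k0,k0,k0,k0,k0,k12,k0,k0,k0,k0,k0,k54],[k0,k0,k146],[k0,k0,k0,k0,k0,k0,k0,k68,k0,k0,k0,k48],[k0,
    k0,k0,k0,k0,k0,k54,k0,k48],[k0,k102,k0,k52]] (nat_lit 960) k6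
    [[(k0,(nat_lit 222)),(k4,(nat_lit 229)),(k2,(nat_lit 282)),(k10,(nat_lit 346)),(k8,(nat_lit 347)),(k6,
    (nat_lit 386))],[(k1,(nat_lit 222)),(k3,(nat_lit 334)),(k11,(nat_lit 346)),(k7,(nat_lit 352)),(k5,(nat_lit 363)),
    (k9,(nat_lit 391))],[(k4,(nat_lit 219)),(k6,(nat_lit 250)),(k8,(nat_lit 309)),(k0,(nat_lit 334)),(k2,
    (nat_lit 344)),(k10,(nat_lit 458))],[(k7,(nat_lit 242)),(k1,(nat_lit 282)),(k9,(nat_lit 309)),(k3,(nat_lit 344)),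
    (k5,(nat_lit 373)),(k11,(nat_lit 502))],[(k8,k192),(k0,(nat_lit 363)),(k4,(nat_lit 368)),(k6,(nat_lit 371)),(k2,
    (nat_lit 373)),(k10,(nat_lit 437))],[(k9,k192),(k3,(nat_lit 219)),(k1,(nat_lit 229)),(k7,(nat_lit 237)),(k11,
    (nat_lit 251)),(k5,(nat_lit 368))],[(k4,(nat_lit 237)),(k2,(nat_lit 242)),(k8,(nat_lit 307)),(k0,(nat_lit 352)),
    (k6,(nat_lit 352)),(k10,(nat_lit 354))],[(k3,(nat_lit 250)),(k11,(nat_lit 286)),(k9,(nat_lit 307)),(k7,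
    (nat_lit 352)),(k5,(nat_lit 371)),(k1,(nat_lit 386))],[(k4,k192),(k10,(nat_lit 267)),(k6,(nat_lit 307)),(k2,
    (nat_lit 309)),(k8,(nat_lit 342)),(k0,(nat_lit 391))],[(k5,k192),(k7,(nat_lit 307)),(k3,(nat_lit 309)),(k11,
    (nat_lit 321)),(k9,(nat_lit 342)),(k1,(nat_lit 347))],[(k4,(nat_lit 251)),(k6,(nat_lit 286)),(k10,(nat_lit 320)),
    (k8,(nat_lit 321)),(k0,(nat_lit 346)),(k2,(nat_lit 502))],[(k9,(nat_lit 267)),(k11,(nat_lit 320)),(k1,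
    (nat_lit 346)),(k7,(nat_lit 354)),(k5,(nat_lit 437)),(k3,(nat_lit 458))]]
    [] k0
    [[k2,k0,k0,k0,k0,k0],[k3,k0,k0,k0,k0,k0],[k4,k0,k0,k0,k0,k0],[k2,k1,k0,k0,k0,k0],[k2,k0,k1,k0,k0,k0],[k2,k0,k0,k0,
    k0,k1],[k1,k1,k0,k0,k0,k0],[k1,k1,k1,k0,k0,k0],[k1,k1,k0,k1,k0,k0],[k1,k0,k1,k0,k0,k0],[k1,k0,k1,k1,k0,k0],[k1,k0,
    k1,k0,k1,k0],[k1,k0,k0,k1,k0,k0],[k1,k0,k0,k0,k1,k0],[k1,k0,k0,k0,k0,k1],[k0,k2,k0,k0,k0,k0],[k0,k2,k1,k0,k0,k0],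
    [k0,k2,k0,k1,k0,k0],[k0,k1,k1,k0,k0,k0],[k0,k1,k1,k1,k0,k0],[k0,k1,k1,k0,k1,k0],[k0,k1,k0,k1,k0,k0],[k0,k1,k0,k2,
    k0,k0],[k0,k1,k0,k1,k1,k0],[k0,k1,k0,k0,k1,k0],[k0,k0,k2,k0,k0,k0],[k0,k0,k2,k0,k1,k0],[k0,k0,k1,k1,k0,k0],[k0,k0,
    k1,k1,k1,k0],[k0,k0,k1,k0,k1,k0],[k0,k0,k2,k0,k2,k0],[k0,k0,k1,k0,k2,k0],[k0,k0,k1,k0,k1,k1],[k0,k0,k1,k0,k0,k1],
    [k0,k0,k0,k2,k0,k0],[k0,k0,k0,k1,k1,k0],[k0,k0,k0,k1,k2,k0],[k0,k0,k0,k1,k1,k1],[k0,k0,k0,k1,k0,k1],[k0,k0,k0,k0,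
    k2,k0],[k0,k0,k0,k0,k2,k1],[k0,k0,k0,k0,k1,k1],[k0,k0,k0,k0,k1,k2],[k0,k0,k0,k0,k0,k2]]
    [.contra [z1],.ref k62 k2 [(z1,[z1]),(z1,[z0,z0,z1])],.contra [y1,z1,y2,y1,z2],.contra [z1,y1,y1],.ref k3 k2 [(z2,
    [z2,y1,z0,y1])],.ref k109 k1 [(z1,[z1,z0,z2,z0,y2]),(z1,[z0,z0,y1,z0,z1])],.ref k0 k6 [(z1,[z1])],.contra [z2,y1,
    y2,y1],.ref k0 k2 [(z2,[y2,z1,z0,y1,z2])],.contra [y4,z1,z0,z1,z2],.contra [y1,z0,y1,z0,z1],.contra [z2,z1,z0,y1],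
    .contra [y2,z1,y2,y1,z2],.contra [y1,z0,y1,z0,z1],.ref k0 k2 [(z1,[z1])],.contra [z1],.ref k1 k1 [(z1,[y1,z0,z2,
    z1])],.ref k0 k2 [(z4,[y2,z1,z2,y1,z2])],.contra [y1,z0,z1,z1],.ref k3 k2 [(z1,[y1,z0,z0,z0,z1])],.ref k0 k6 [(z2,
    [z2,z1,z0,y1])],.ref k109 k1 [(z2,[y2,z1,z4,y1,y2]),(z1,[z0,z0,y1,z0,z1])],.ref k3 k2 [(z2,[y1,z0,y1,y1,z2])],
    .ref k165 k5 [(z2,[z2,y1,z0,z1,y2]),(z2,[z0,z1,y2,y1,z2]),(z1,[y1,z0,z0,z0,z1])],.ref k1 k4 [(z1,[z1])],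
    .contra [z1],.contra [y4,y1,z0,z3,z2],.contra [y1,z0,y1,z0,z1],.contra [y1,z0,y1,z0,z1],.contra [y4,y1,z0,z3,z2],
    .contra [z1,z1,z0,y1],.contra [y2,y1,y2,z1,z2],.ref k0 k2 [(z2,[z2,z1,z0,y1])],.ref k1 k1 [(z1,[z1])],
    .contra [z1],.contra [y1,z0,y1,z0,z1],.contra [y2,y1,y2,z1,z2],.contra [y2,y1,y2,y1,z2],.contra [y2,y1,y2,y1,z2],
    .contra [z1],.contra [z1,z1],.contra [y4,y1,z0,y1,z2],.ref k165 k5 [(z1,[y1,y1]),(z2,[z0,z1,y2,y1,z2]),(z2,[z2,z1,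
    z0,z1])],.contra [y1,z0,z2]]),
    .old (.lp [(nat_lit 314),(nat_lit 326),(nat_lit 322),(nat_lit 314),(nat_lit 318),(nat_lit 324)] [k118,k118,k112,k112,
    (nat_lit 228),k0,k118,k118,k116,k116,k113,k113] k0 [[k0,k0,k0,k0,k0,k0,k0,k0,k0,k0,k68],[k0,k0,k0,k0,k0,k12,k0,
    k4],[k0,k0,k0,k0,k2,k0,k0,k0,k0,k0,k2],[k0,k0,k0,k0,k0,k0,k0,k0,k0,(nat_lit 242)],[k12,k0,k0,k0,k0,k0,k14],[k0,k0,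
    k0,k2],[k4,k0,k0,k0,k0,k0,k0,k0,k2],[k0,k0,k0,k0,k0,k14,k0,k0,k0,k0,k0,k74],[k0,k0,(nat_lit 242)],[k0,k0,k0,k0,k0,
    k0,k0,k2,k0,k0,k0,k78],[k0,k0,k0,k0,k0,k0,k74,k0,k78],[k0,k68,k0,k2]] (nat_lit 960) k6
    [[(k4,(nat_lit 204)),(k0,(nat_lit 246)),(k2,(nat_lit 318)),(k10,(nat_lit 319)),(k6,(nat_lit 388)),(k8,
    (nat_lit 394))],[(k1,(nat_lit 246)),(k11,(nat_lit 319)),(k3,(nat_lit 320)),(k9,(nat_lit 320)),(k7,(nat_lit 326)),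
    (k5,(nat_lit 432))],[(k4,k198),(k6,(nat_lit 316)),(k0,(nat_lit 320)),(k8,(nat_lit 322)),(k2,(nat_lit 326)),(k10,
    (nat_lit 393))],[(k1,(nat_lit 318)),(k7,(nat_lit 318)),(k9,(nat_lit 322)),(k3,(nat_lit 326)),(k5,(nat_lit 438)),
    (k11,(nat_lit 567))],[(k8,k192),(k4,(nat_lit 324)),(k0,(nat_lit 432)),(k6,(nat_lit 432)),(k2,(nat_lit 438)),(k10,
    (nat_lit 439))],[(k9,k192),(k3,k198),(k1,(nat_lit 204)),(k7,(nat_lit 204)),(k11,(nat_lit 209)),(k5,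
    (nat_lit 324))],[(k4,(nat_lit 204)),(k8,(nat_lit 316)),(k2,(nat_lit 318)),(k10,(nat_lit 319)),(k0,(nat_lit 326)),
    (k6,(nat_lit 328))],[(k3,(nat_lit 316)),(k9,(nat_lit 316)),(k11,(nat_lit 317)),(k7,(nat_lit 328)),(k1,
    (nat_lit 388)),(k5,(nat_lit 432))],[(k4,k192),(k10,(nat_lit 247)),(k6,(nat_lit 316)),(k0,(nat_lit 320)),(k8,
    (nat_lit 320)),(k2,(nat_lit 322))],[(k5,k192),(k7,(nat_lit 316)),(k9,(nat_lit 320)),(k11,(nat_lit 321)),(k3,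
    (nat_lit 322)),(k1,(nat_lit 394))],[(k4,(nat_lit 209)),(k10,(nat_lit 246)),(k6,(nat_lit 317)),(k0,(nat_lit 319)),
    (k8,(nat_lit 321)),(k2,(nat_lit 567))],[(k11,(nat_lit 246)),(k9,(nat_lit 247)),(k1,(nat_lit 319)),(k7,
    (nat_lit 319)),(k3,(nat_lit 393)),(k5,(nat_lit 439))]]
    [] k0
    [[k2,k0,k0,k0,k0,k0],[k3,k0,k0,k0,k0,k0],[k2,k1,k0,k0,k0,k0],[k2,k0,k1,k0,k0,k0],[k2,k0,k0,k0,k0,k1],[k1,k1,k0,k0,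
    k0,k0],[k1,k1,k1,k0,k0,k0],[k1,k0,k1,k0,k0,k0],[k1,k0,k1,k0,k1,k0],[k1,k0,k0,k1,k0,k0],[k1,k0,k0,k0,k1,k0],[k1,k0,
    k0,k0,k0,k1],[k1,k0,k0,k0,k0,k2],[k0,k2,k0,k0,k0,k0],[k0,k1,k1,k0,k0,k0],[k0,k1,k1,k1,k0,k0],[k0,k1,k1,k0,k1,k0],
    [k0,k1,k0,k1,k0,k0],[k0,k1,k0,k1,k1,k0],[k0,k1,k0,k0,k1,k0],[k0,k0,k2,k0,k0,k0],[k0,k0,k2,k0,k1,k0],[k0,k0,k1,k1,
    k0,k0],[k0,k0,k1,k1,k1,k0],[k0,k0,k1,k0,k1,k0],[k0,k0,k2,k0,k2,k0],[k0,k0,k1,k0,k2,k0],[k0,k0,k1,k0,k1,k1],[k0,k0,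
    k1,k0,k2,k1],[k0,k0,k1,k0,k1,k2],[k0,k0,k1,k0,k0,k1],[k0,k0,k1,k0,k0,k2],[k0,k0,k0,k2,k0,k0],[k0,k0,k0,k1,k1,k0],
    [k0,k0,k0,k1,k2,k0],[k0,k0,k0,k1,k1,k1],[k0,k0,k0,k1,k0,k1],[k0,k0,k0,k1,k0,k2],[k0,k0,k0,k0,k2,k0],[k0,k0,k0,k0,
    k2,k1],[k0,k0,k0,k0,k1,k1],[k0,k0,k0,k0,k1,k2],[k0,k0,k0,k0,k0,k2],[k0,k0,k0,k0,k0,k3]]
    [.contra [z1],.ref k62 k2 [(z1,[z1]),(z1,[z0,z0,z1])],.ref k3 k2 [(z1,[z1,y1,y1])],.ref k0 k2 [(z2,[z1,z0,z0,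
    y1])],.ref k109 k1 [(z1,[z1,z0,z2,z0,y2]),(z1,[z0,z0,y1,z0,z1])],.contra [y2,z1,z1,z0,z1],.ref k0 k2 [(z1,[z1,z0,
    y1,y1])],.contra [y1,z0,y1,z0,z1],.contra [z1,z1,z0,y1],.contra [y1,z1,y1,y1,z1],.contra [y1,z0,y1,z0,z1],
    .ref k0 k2 [(z1,[z1])],.contra [z1,z0,z0,z1],.contra [z1],.contra [y1,z0,z2,z1],.ref k3 k2 [(z1,[y1,z0,z0,z0,
    z1])],.contra [y2,y1,z1,z2,z1],.ref k109 k1 [(z1,[y1,z1,z2,y1,y1]),(z1,[z0,z0,y1,z0,z1])],.ref k165 k5 [(z1,[z1,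
    y1,z0,z1,y1]),(z1,[z0,z1,y1,y1,z1]),(z1,[y1,z0,z0,z0,z1])],.contra [y2,y1,z1,z2,z1],.contra [z1],.contra [y1,y1,
    y1,z1,z1],.contra [y1,z0,y1,z0,z1],.contra [y1,z0,y1,z0,z1],.contra [y2,y1,z1,z2,z1],.contra [z1,z2,z0,y2],
    .contra [y1,y1,y1,z1,z1],.ref k0 k2 [(z1,[z1,z1,z0,y1])],.ref k3 k2 [(z1,[z1,z1,z0,y1])],.contra [z1,z1],
    .ref k1 k1 [(z1,[z1])],.contra [y1,z0,z4,z1],.contra [z1],.contra [y1,z0,y1,z0,z1],.contra [z1,z1,z5,z1,y1],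
    .ref k0 k2 [(z1,[y1,z0,y1,y1,z1])],.ref k3 k2 [(z1,[y1,z0,y1,y1,z1])],.contra [z1,z0,z0,z1],.contra [z1],
    .ref k165 k9 [(z1,[y1,y2,y1,z1]),(z1,[z0,z1,y1,y1,z1]),(z1,[z1,z1,z1])],.contra [y2,y1,y1,z0,z1],.contra [z1,z1],
    .contra [y1,z0,z2],.contra [z1,z0,z1,z2]]),
    .old (.lp [(nat_lit 652),(nat_lit 636),(nat_lit 630),(nat_lit 642),(nat_lit 650),(nat_lit 626)] [k114,k114,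
    (nat_lit 220),k24,k125,k125,k0,(nat_lit 238),k115,k115,k127,k127] k0 [[k0,k0,k4,k0,k0,k0,k0,k0,k0,k0,k10],[k0,k0,
    k0,k0,k0,k0,k0,(nat_lit 472)],[k0,k0,k0,k0,k28,k0,k0,k0,k0,k0,k162],[k0,k4,k0,k0,k0,k0,k0,k0,k0,k8],[k0,k0,k0,k0,
    k0,k0,k10],[k0,k0,k0,k28,k0,k0,k0,k0,k0,k22],[(nat_lit 472)],[k0,k0,k0,k0,k0,k10],[k0,k0,k8,k0,k22],[k0,k0,k0,k0,
    k0,k0,k0,k0,k0,k0,k0,k146],[k0,k0,k0,k0,k0,k0,k0,k0,k146],[k0,k10,k0,k162]] (nat_lit 1920) k6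
    [[(k2,(nat_lit 384)),(k10,(nat_lit 639)),(k4,(nat_lit 641)),(k0,(nat_lit 642)),(k6,(nat_lit 766)),(k8,
    (nat_lit 797))],[(k7,(nat_lit 528)),(k5,(nat_lit 637)),(k11,(nat_lit 639)),(k1,(nat_lit 642)),(k3,(nat_lit 742)),
    (k9,(nat_lit 1123))],[(k6,(nat_lit 384)),(k2,(nat_lit 640)),(k4,(nat_lit 731)),(k10,(nat_lit 739)),(k8,
    (nat_lit 741)),(k0,(nat_lit 742))],[(k1,(nat_lit 384)),(k7,(nat_lit 394)),(k5,(nat_lit 535)),(k11,(nat_lit 541)),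
    (k9,(nat_lit 545)),(k3,(nat_lit 640))],[(k2,(nat_lit 535)),(k8,(nat_lit 632)),(k0,(nat_lit 637)),(k4,
    (nat_lit 658)),(k6,(nat_lit 755)),(k10,(nat_lit 790))],[(k7,(nat_lit 517)),(k9,(nat_lit 630)),(k1,(nat_lit 641)),
    (k11,(nat_lit 650)),(k5,(nat_lit 658)),(k3,(nat_lit 731))],[(k2,(nat_lit 394)),(k8,(nat_lit 505)),(k10,
    (nat_lit 515)),(k4,(nat_lit 517)),(k0,(nat_lit 528)),(k6,(nat_lit 652))],[(k3,(nat_lit 384)),(k7,(nat_lit 652)),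
    (k11,(nat_lit 753)),(k5,(nat_lit 755)),(k9,(nat_lit 765)),(k1,(nat_lit 766))],[(k2,(nat_lit 545)),(k4,
    (nat_lit 630)),(k10,(nat_lit 638)),(k8,(nat_lit 650)),(k6,(nat_lit 765)),(k0,(nat_lit 1123))],[(k7,(nat_lit 505)),
    (k5,(nat_lit 632)),(k11,(nat_lit 638)),(k9,(nat_lit 650)),(k3,(nat_lit 741)),(k1,(nat_lit 797))],[(k10,
    (nat_lit 480)),(k2,(nat_lit 541)),(k8,(nat_lit 638)),(k0,(nat_lit 639)),(k4,(nat_lit 650)),(k6,(nat_lit 753))],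
    [(k11,(nat_lit 480)),(k7,(nat_lit 515)),(k9,(nat_lit 638)),(k1,(nat_lit 639)),(k3,(nat_lit 739)),(k5,
    (nat_lit 790))]]
    [] k0
    [[k2,k0,k0,k0,k0,k0],[k2,k1,k0,k0,k0,k0],[k1,k1,k0,k0,k0,k0],[k1,k2,k0,k0,k0,k0],[k1,k1,k1,k0,k0,k0],[k1,k1,k0,k1,
    k0,k0],[k1,k2,k0,k1,k0,k0],[k1,k1,k0,k0,k0,k1],[k1,k0,k1,k0,k0,k0],[k1,k0,k0,k1,k0,k0],[k1,k0,k0,k0,k0,k1],[k1,k0,
    k0,k0,k0,k2],[k0,k2,k0,k0,k0,k0],[k0,k2,k1,k0,k0,k0],[k0,k2,k0,k1,k0,k0],[k0,k1,k1,k0,k0,k0],[k0,k1,k1,k1,k0,k0],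
    [k0,k1,k1,k0,k1,k0],[k0,k1,k0,k1,k0,k0],[k0,k2,k0,k2,k0,k0],[k0,k1,k0,k2,k0,k0],[k0,k1,k0,k1,k1,k0],[k0,k1,k0,k1,
    k0,k1],[k0,k1,k0,k0,k1,k0],[k0,k1,k0,k0,k0,k1],[k0,k1,k0,k0,k0,k2],[k0,k0,k2,k0,k0,k0],[k0,k0,k1,k1,k0,k0],[k0,k0,
    k1,k1,k1,k0],[k0,k0,k1,k0,k1,k0],[k0,k0,k1,k0,k2,k0],[k0,k0,k1,k0,k0,k1],[k0,k0,k0,k2,k0,k0],[k0,k0,k0,k1,k1,k0],
    [k0,k0,k0,k1,k1,k1],[k0,k0,k0,k1,k0,k1],[k0,k0,k0,k1,k0,k2],[k0,k0,k0,k0,k2,k0],[k0,k0,k0,k0,k1,k1],[k0,k0,k0,k0,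
    k1,k2],[k0,k0,k0,k0,k0,k2],[k0,k0,k0,k0,k0,k3]]
    [.contra [z1],.ref k167 k1 [(z1,[z1,y2,y1]),(z1,[z0,z1]),(z1,[z1,y2])],.ref k0 k6 [(z1,[z1])],.ref k166 k1 [(z1,
    [z1,y1,y2]),(z1,[z0,z1]),(z1,[z1,y1])],.ref k3 k1 [(z1,[y1,z0,z0,z1])],.ref k0 k2 [(z1,[z1,z0,y1])],
    .ref k3 k4 [(z1,[y1,z0,z1,z1])],.ref k3 k4 [(z1,[y1,z0,z0,z1])],.ref k109 k4 [(z1,[y1,z2,y1,y1]),(z1,[z0,y1,z0,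
    z1])],.ref k1 k2 [(z1,[z1])],.ref k0 k2 [(z1,[z1])],.ref k109 k8 [(z1,[z1,z2,z0,y2]),(z1,[z0,y1,z0,z1])],
    .contra [z1],.contra [y1,y1,z1,z1],.contra [y1,y1,z1,z1],.contra [y1,y1,z1,z1],.contra [y1,y1,z1,z1],
    .ref k165 k6 [(z1,[z1,z0,z1,y1]),(z1,[z0,y1,y1,z1]),(z1,[y1,z0,z0,z1])],.contra [y1,y1,z1,z1],.contra [z1,z0,y2],
    .contra [y1,y1,z1,z1],.ref k0 k1 [(z1,[z1,z0,y1])],.contra [z1,z0,y1],.ref k1 k4 [(z1,[z1])],.contra [y1,y1,z0,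
    z1],.ref k163 k1 [(z1,[z1,z1,z0,y1]),(z1,[z0,z1])],.contra [z1],.contra [y1,y1,z1,z1],.ref k3 k4 [(z1,[z1])],
    .ref k109 k8 [(z1,[y1,z2,y1,y1]),(z1,[z0,y1,z0,z1])],.ref k0 k2 [(z2,[y1,z1,y1,z1])],.contra [y1,y1,z0,z1],
    .contra [z1],.ref k0 k4 [(z1,[z1])],.ref k3 k1 [(z1,[z1])],.contra [y1,y1,z0,z1],.ref k163 k11 [(z1,[z1,z1,z0,
    y1]),(z1,[z0,z1])],.contra [y1,z2],.ref k0 k1 [(z1,[z1])],.ref k109 k4 [(z1,[z1,z2,z0,y2]),(z1,[z0,y1,z0,z1])],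
    .contra [z1],.ref k62 k1 [(z1,[z1]),(z1,[z0,z1])]]),
    .geo true z3 k4 [(z0,z3),(z1,z0),(z6,y3),(z3,y3),(z0,z3),(z2,z0)] [(z1,[z3]),(z1,[z0,z1]),(z1,[z0,z0,z3]),(z1,[z0,z0,
    z0,z3]),(z1,[]),(z1,[y3,y1,y3,y3,
    z3])] z0 (Int.ofNat (nat_lit 1048576)) (.s (.s (.s (.l k2) (.l k1)) (.l k1)) (.s (.s (.l k1) (.l k3)) (.l k1))) [⟨z0,
    z1,[[k0,k5],[k1,k2],[k3,k4]],.bnd k0⟩,⟨z2,z3,[[k0,k3],[k1,k5],[k2,k4]],.child (.ref k1 k1 [(z3,[y1,y3,y1,z0,y3,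
    z3])])⟩],
    .geo true z9 k4 [(z0,z9),(z4,z0),(z18,y9),(z8,y9),(z0,z9),(z6,z0)] [(z1,[z9]),(z1,[z0,z1]),(z1,[z0,z0,z9]),(z1,[z0,z0,
    z0,z1]),(z1,[]),(z1,[y9,y1,y9,y1,
    z9])] z0 (Int.ofNat (nat_lit 932068)) (.s (.s (.s (.l k2) (.l k1)) (.l k1)) (.s (.s (.l k1) (.l k1)) (.s (.l k1) (.l k1)))) [⟨z0,
    z1,[[k0,k5],[k1,k2],[k3,k4]],.bnd k0⟩],
    .geo true z6 k4 [(z0,z6),(z3,z0),(z12,y6),(z5,y6),(z0,z6),(z4,z0)] [(z1,[z6]),(z1,[z0,z3]),(z1,[z0,z0,z6]),(z1,[z0,z0,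
    z0,z1]),(z1,[]),(z1,[y6,y3,y6,y1,
    z6])] z0 (Int.ofNat (nat_lit 873814)) (.s (.s (.s (.l k2) (.l k1)) (.l k1)) (.s (.l k1) (.l k1))) [⟨z0,z1,[[k0,
    k5],[k1,k2],[k3,k4]],.bnd k0⟩],
    .geo true z3 k4 [(z0,z3),(y2,z3),(z6,y3),(z6,y6),(z0,z3),(z2,z0)] [(z1,[z3]),(z1,[z0,z1]),(z1,[z0,z0,z3]),(z1,[z0,z0,
    z0,z3]),(z1,[]),(z1,[y3,y1,y3,y3,z3])] (Int.ofNat (nat_lit 699050)) (Int.ofNat (nat_lit 1048576)) (.l k1) [],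
    .old (.lp [(nat_lit 1514),(nat_lit 902),(nat_lit 2294),(nat_lit 782),(nat_lit 1536),(nat_lit 644)] [(nat_lit 390),
    (nat_lit 390),(nat_lit 696),(nat_lit 696),k0,k0,(nat_lit 811),(nat_lit 701),(nat_lit 379),(nat_lit 379),
    (nat_lit 825),(nat_lit 825)] k0 [[k0,k0,k0,k0,k0,k0,k0,k0,k0,k0,(nat_lit 554)],[k0,k0,k0,k32],[k32],[k0,k0,k0,k0,
    k0,(nat_lit 620),k0,(nat_lit 532)],[k0,k0,(nat_lit 620),k0,k0,k0,k0,k0,k96],[k0,k0,k0,k0,k0,k0,k0,k10],[k0,k0,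
    (nat_lit 532),k0,k10],[k0,k0,k0,k0,k0,k0,k0,k0,k0,k110],[k0,k0,k0,k0,k0,k0,k110,k0,k0,k0,(nat_lit 636)],[k0,k0,k0,
    k0,k0,k96],[],[k0,(nat_lit 554),k0,k0,k0,k0,k0,k0,k0,(nat_lit 636)]] (nat_lit 3840) k6
    [[(k8,(nat_lit 889)),(k0,(nat_lit 960)),(k10,(nat_lit 1079)),(k6,(nat_lit 1093)),(k2,(nat_lit 1208)),(k4,
    (nat_lit 1904))],[(k1,(nat_lit 960)),(k11,(nat_lit 1079)),(k7,(nat_lit 1203)),(k3,(nat_lit 1208)),(k9,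
    (nat_lit 1525)),(k5,(nat_lit 1936))],[(k6,(nat_lit 787)),(k2,(nat_lit 870)),(k0,(nat_lit 1208)),(k8,
    (nat_lit 1219)),(k10,(nat_lit 1327)),(k4,(nat_lit 1598))],[(k11,(nat_lit 773)),(k3,(nat_lit 870)),(k1,
    (nat_lit 1208)),(k7,(nat_lit 1517)),(k5,(nat_lit 1598)),(k9,(nat_lit 1751))],[(k6,(nat_lit 951)),(k10,
    (nat_lit 1469)),(k2,(nat_lit 1598)),(k4,(nat_lit 1674)),(k8,(nat_lit 1915)),(k0,(nat_lit 1936))],[(k11,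
    (nat_lit 1373)),(k7,(nat_lit 1593)),(k3,(nat_lit 1598)),(k5,(nat_lit 1674)),(k1,(nat_lit 1904)),(k9,
    (nat_lit 1925))],[(k10,(nat_lit 768)),(k6,(nat_lit 772)),(k0,(nat_lit 1203)),(k8,(nat_lit 1310)),(k2,
    (nat_lit 1517)),(k4,(nat_lit 1593))],[(k11,(nat_lit 768)),(k7,(nat_lit 772)),(k3,(nat_lit 787)),(k5,
    (nat_lit 951)),(k1,(nat_lit 1093)),(k9,(nat_lit 1104))],[(k10,(nat_lit 1090)),(k6,(nat_lit 1104)),(k8,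
    (nat_lit 1426)),(k0,(nat_lit 1525)),(k2,(nat_lit 1751)),(k4,(nat_lit 1925))],[(k1,(nat_lit 889)),(k11,
    (nat_lit 1090)),(k3,(nat_lit 1219)),(k7,(nat_lit 1310)),(k9,(nat_lit 1426)),(k5,(nat_lit 1915))],[(k6,
    (nat_lit 768)),(k2,(nat_lit 773)),(k0,(nat_lit 1079)),(k8,(nat_lit 1090)),(k10,(nat_lit 1280)),(k4,
    (nat_lit 1373))],[(k7,(nat_lit 768)),(k1,(nat_lit 1079)),(k9,(nat_lit 1090)),(k11,(nat_lit 1280)),(k3,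
    (nat_lit 1327)),(k5,(nat_lit 1469))]]
    [] k0
    [[k2,k0,k0,k0,k0,k0],[k3,k0,k0,k0,k0,k0],[k2,k1,k0,k0,k0,k0],[k2,k0,k0,k1,k0,k0],[k2,k0,k0,k0,k1,k0],[k2,k0,k0,k0,
    k0,k1],[k1,k1,k0,k0,k0,k0],[k1,k2,k0,k0,k0,k0],[k1,k1,k0,k1,k0,k0],[k1,k1,k0,k0,k0,k1],[k1,k0,k0,k1,k0,k0],[k1,k0,
    k0,k2,k0,k0],[k1,k0,k0,k2,k0,k1],[k1,k0,k0,k1,k0,k1],[k1,k0,k0,k0,k1,k0],[k1,k0,k0,k1,k1,k0],[k1,k0,k0,k0,k1,k1],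
    [k1,k0,k0,k0,k0,k1],[k1,k0,k0,k1,k0,k2],[k1,k0,k0,k0,k0,k2],[k0,k2,k0,k0,k0,k0],[k0,k3,k0,k0,k0,k0],[k0,k4,k0,k0,
    k0,k0],[k0,k2,k0,k1,k0,k0],[k0,k2,k0,k1,k0,k1],[k0,k2,k0,k0,k0,k1],[k0,k1,k1,k0,k0,k0],[k0,k1,k0,k1,k0,k0],[k0,k1,
    k0,k2,k0,k0],[k0,k1,k0,k2,k0,k1],[k0,k1,k0,k1,k0,k1],[k0,k1,k0,k1,k0,k2],[k0,k1,k0,k0,k1,k0],[k0,k1,k0,k0,k1,k1],
    [k0,k1,k0,k0,k0,k1],[k0,k1,k0,k0,k0,k2],[k0,k0,k2,k0,k0,k0],[k0,k0,k1,k1,k0,k0],[k0,k0,k1,k2,k0,k0],[k0,k0,k1,k1,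
    k0,k1],[k0,k0,k1,k0,k0,k1],[k0,k0,k0,k2,k0,k0],[k0,k0,k0,k3,k0,k0],[k0,k0,k0,k4,k0,k0],[k0,k0,k0,k3,k0,k1],[k0,k0,
    k0,k2,k1,k0],[k0,k0,k0,k2,k0,k1],[k0,k0,k0,k2,k1,k1],[k0,k0,k0,k2,k0,k2],[k0,k0,k0,k1,k1,k0],[k0,k0,k0,k1,k1,k1],
    [k0,k0,k0,k1,k0,k1],[k0,k0,k0,k1,k1,k2],[k0,k0,k0,k1,k0,k2],[k0,k0,k0,k0,k2,k0],[k0,k0,k0,k0,k2,k1],[k0,k0,k0,k0,
    k1,k1],[k0,k0,k0,k0,k1,k2],[k0,k0,k0,k0,k0,k2]]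
    [.contra [z1],.ref k1 k1 [(z3,[y1,z0,y1,z0,z3])],.ref k172 k5 [(z1,[z0,y1]),(z1,[y3,z3,z1]),(z1,[z0,z1,z0,z1]),
    (z1,[z1])],.ref k172 k2 [(z1,[z0,z1]),(z1,[y3,z6,z1]),(z1,[z0,z0,z0,z1]),(z1,[z1,y2])],.ref k1 k1 [(z3,[y1,y1,y1,
    z0,z3])],.ref k1 k1 [(z2,[y1,y1,y1,y1,z3])],.contra [y2,z3,z1],.ref k109 k2 [(z1,[z1,z2,z0,z2,y2]),(z1,[z0,y1,z0,
    y1,z1])],.contra [z1,y3,y1,y2,z2],.contra [y1,z0,z0,y1,z1],.contra [y3,z4,z1,z1],.ref k109 k5 [(z1,[z1,y1,z0,z2,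
    y2]),(z1,[z0,z0,z0,y1,z1])],.ref k27 k0 [(z1,[z1,z0,z0,z1,y1]),(z1,[z0,z0,z0,z1]),(z1,[y1,y1,z0,y3,z2])],
    .contra [y1,z0,z0,y1,z1],.contra [z1,z1],.ref k172 k2 [(z1,[z0,z1]),(z1,[y3,z3,z1]),(z1,[z0,z0,z0,z1]),(z1,[z1,
    y1])],.ref k1 k1 [(z2,[y1,y2,y1,y1,z3])],.contra [y1,z0,z0,y1,z1],.ref k62 k6 [(z1,[y3,y3,y1,y6,z6]),(z1,[z0,z1,
    z0,z1])],.ref k1 k1 [(z1,[y1,y2,y1,y2,z3])],.contra [z1],.ref k62 k6 [(z1,[z1]),(z1,[z0,z1,z0,z1])],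
    .ref k171 k2 [(z1,[z0,z1]),(z2,[z1]),(z1,[z0,z0,z0,z1]),(z2,[y3,z0,z4])],.ref k163 k6 [(z1,[z1,z1,z0,z1,y1]),(z1,
    [z0,z1,z0,z1])],.ref k0 k9 [(z1,[z1,z1,z0,z2,y1])],.ref k62 k6 [(z2,[z3,z3,z1,z3,y3]),(z1,[z0,z1,z0,z1])],
    .ref k0 k9 [(z1,[z1])],.contra [y3,z4,z1,z1],.ref k163 k7 [(z1,[z1,z0,z0,z1,y1]),(z1,[z0,z0,z0,z1])],
    .ref k0 k0 [(z1,[z1,z1,z0,z2,y1])],.contra [y1,z0,z0,y1,z1],.ref k1 k1 [(z1,[z1,z1,z0,z2,y1])],.contra [y2,z1,z1],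
    .contra [y1,y1,z0,y1,z1],.contra [y1,z0,z0,y1,z1],.ref k62 k6 [(z1,[z3,z6,z2,z6,y6]),(z1,[z0,z1,z0,z1])],
    .contra [y1,z2,z0,z2],.ref k0 k0 [(z1,[z1])],.ref k109 k9 [(z1,[z1,z0,z0,z2,y2]),(z1,[z0,z0,z0,y1,z1])],
    .ref k172 k5 [(z1,[z0,y1]),(z1,[z3,z0,z1,z0,y3]),(z1,[z0,z1,z0,z1]),(z1,[y1,z1,z0,z0,z1])],.ref k1 k1 [(z1,[z1])],
    .contra [z1],.ref k62 k0 [(z1,[z1]),(z1,[z0,z0,z0,z1])],.ref k171 k5 [(z1,[z0,y1]),(z2,[z1]),(z1,[z0,z1,z0,z1]),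
    (z2,[y3,z12,z4])],.ref k170 k5 [(z1,[z0,y1]),(z1,[z3,z3,z1,z3,y3]),(z1,[z0,z1,z0,z1]),(z1,[y3,z6,z2,y3,z3])],
    .ref k109 k5 [(z1,[z1,z0,z0,z2,y2]),(z1,[z0,z0,z0,y1,z1])],.ref k62 k0 [(z2,[z3,z3,z1,z3,y3]),(z1,[z0,z0,z0,z1])],
    .ref k27 k0 [(z1,[z1,z1,z0,z1,y1]),(z1,[z0,z0,z0,z1]),(z1,[y1,y2,z0,y3,z2])],.ref k169 k5 [(z1,[z0,y1]),(z2,[z3,
    z6,z2,z6,y6]),(z1,[z0,z1,z0,z1]),(z2,[y1,z0,z0,y2,z2])],.contra [y3,z1,z1,z1],.contra [y1,y1,z0,y1,z1],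
    .contra [y1,z0,z0,y1,z1],.ref k62 k6 [(z1,[y3,y6,y1,y6,z6]),(z1,[z0,z1,z0,z1])],.ref k62 k0 [(z1,[z3,z6,z2,z6,
    y6]),(z1,[z0,z0,z0,z1])],.contra [z1,z2],.ref k1 k1 [(z2,[y1,y3,y1,y1,z3])],.contra [y1,y1,z0,y1,z1],
    .ref k1 k1 [(z1,[y1,y3,y1,y2,z3])],.contra [z1]])]

noncomputable def cU6_3_n2_1 : List XN :=
  [.geo true z2 k5 [(z2,z4),(z1,z0),(z2,y4),(z1,z2),(z2,y4),(z0,z2)] [(z1,[z2]),(z1,[z0,z1]),(z1,[z0,z0,z2]),(z1,[z0,z0,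
    z0,z1]),(z1,[y2,y1,y2,y1,z2]),(z1,
    [])] z0 (Int.ofNat (nat_lit 524288)) (.s (.s (.l k1) (.l k1)) (.s (.l k1) (.s (.l k1) (.l k2)))) [⟨z1,z2,[[k0,k5],
    [k1,k2],[k3,k4]],.bnd k0⟩],
    .geo true z2 k5 [(z0,z6),(z2,y3),(z0,z6),(z2,y5),(z4,y6),(z0,z2)] [(z1,[z2]),(z1,[z0,z1]),(z1,[z0,z0,z2]),(z1,[z0,z0,
    z0,z1]),(z1,[y2,y1,y2,y1,z2]),(z1,
    [])] z0 (Int.ofNat (nat_lit 419431)) (.s (.s (.s (.l k2) (.l k1)) (.l k1)) (.s (.l k1) (.l k1))) [⟨z0,z1,[[k0,k2],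
    [k1,k3],[k4,k5]],.bnd k0⟩],
    .geo true z2 k5 [(y4,z4),(z4,y2),(z0,z1),(z4,y2),(z4,y3),(z0,z2)] [(z1,[z2]),(z1,[z0,z2]),(z1,[z0,z0,z1]),(z1,[z0,z0,
    z0,z2]),(z1,[y2,y2,y1,y2,z2]),(z1,
    [])] (Int.ofNat (nat_lit 1048576)) (Int.ofNat (nat_lit 1398102)) (.s (.s (.l k1) (.l k1)) (.s (.l k1) (.l k1))) [],
    .geo true z1 k5 [(y2,z6),(z2,y3),(y2,z6),(z2,y4),(z4,y6),(z0,z1)] [(z1,[z1]),(z1,[z0,z1]),(z1,[z0,z0,z1]),(z1,[z0,z0,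
    z0,z1]),(z1,[y1,y1,y1,y1,z1]),(z1,
    [])] (Int.ofNat (nat_lit 349525)) (Int.ofNat (nat_lit 524288)) (.s (.s (.s (.l k2) (.l k1)) (.l k1)) (.s (.l k1) (.l k1))) [⟨z1,
    z3,[[k0,k2],[k1,k5],[k3,k4]],.bnd k0⟩],
    .geo true z3 k5 [(z2,z4),(z2,y2),(z2,z4),(z2,y5),(z4,y4),(z0,z3)] [(z1,[z1]),(z1,[z0,z1]),(z1,[z0,z0,z1]),(z1,[z0,z0,
    z0,z1]),(z1,[y1,y1,y1,y1,z3]),(z1,[])] z0 (Int.ofNat (nat_lit 419431)) (.s (.l k1) (.l k1)) [],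
    .old (.lp [k174,(nat_lit 370),(nat_lit 220),(nat_lit 566),(nat_lit 212),(nat_lit 374)] [(nat_lit 240),(nat_lit 242),
    (nat_lit 209),k77,(nat_lit 218),(nat_lit 218),k90,k0,(nat_lit 222),(nat_lit 222),k141,k141] k0 [[k0,k0,k0,k0,k0,
    k0,k2,k0,k8],[k0,k0,k0,k0,k0,k0,k0,k0,k0,k0,k0,(nat_lit 246)],[k0,k0,k0,k0,k0,k0,k0,k0,k6,k0,k2],[k0,k0,k0,k0,k0,
    k22],[k0,k0,k22],[k0,k0,k0,k0,k0,k0,k0,k138,k0,(nat_lit 242)],[k0,k0,k0,k0,k138],[k0,k2,k0,k0,k0,k0,k0,k0,k0,k20],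
    [k0,k0,k0,k0,(nat_lit 242),k0,k20],[k0,k8,k0,k6],[(nat_lit 246)],[k0,k0,k0,k2]] (nat_lit 960) k6
    [[(k8,k192),(k4,k196),(k2,(nat_lit 203)),(k10,(nat_lit 273)),(k6,(nat_lit 324)),(k0,(nat_lit 420))],[(k9,k192),
    (k5,k198),(k11,(nat_lit 267)),(k3,(nat_lit 339)),(k7,(nat_lit 416)),(k1,(nat_lit 420))],[(k10,k192),(k0,
    (nat_lit 339)),(k4,(nat_lit 361)),(k8,(nat_lit 365)),(k2,(nat_lit 370)),(k6,(nat_lit 491))],[(k1,(nat_lit 203)),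
    (k9,(nat_lit 225)),(k5,(nat_lit 229)),(k11,(nat_lit 300)),(k3,(nat_lit 370)),(k7,(nat_lit 469))],[(k0,k198),(k4,
    k198),(k8,(nat_lit 222)),(k2,(nat_lit 229)),(k10,(nat_lit 299)),(k6,(nat_lit 348))],[(k1,k196),(k5,k198),(k9,
    (nat_lit 354)),(k3,(nat_lit 361)),(k7,(nat_lit 438)),(k11,(nat_lit 539))],[(k8,k192),(k0,(nat_lit 416)),(k6,
    (nat_lit 428)),(k4,(nat_lit 438)),(k2,(nat_lit 469)),(k10,(nat_lit 515))],[(k1,(nat_lit 324)),(k9,(nat_lit 344)),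
    (k5,(nat_lit 348)),(k7,(nat_lit 428)),(k11,(nat_lit 445)),(k3,(nat_lit 491))],[(k0,k192),(k8,k192),(k2,
    (nat_lit 225)),(k10,(nat_lit 293)),(k6,(nat_lit 344)),(k4,(nat_lit 354))],[(k1,k192),(k7,k192),(k9,k192),(k5,
    (nat_lit 222)),(k11,(nat_lit 293)),(k3,(nat_lit 365))],[(k0,(nat_lit 267)),(k8,(nat_lit 293)),(k2,(nat_lit 300)),
    (k10,(nat_lit 374)),(k6,(nat_lit 445)),(k4,(nat_lit 539))],[(k3,k192),(k1,(nat_lit 273)),(k9,(nat_lit 293)),(k5,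
    (nat_lit 299)),(k11,(nat_lit 374)),(k7,(nat_lit 515))]]
    [] k0
    [[k2,k0,k0,k0,k0,k0],[k2,k0,k1,k0,k0,k0],[k2,k0,k0,k0,k1,k0],[k1,k1,k0,k0,k0,k0],[k2,k1,k1,k0,k0,k0],[k2,k1,k0,k0,
    k1,k0],[k1,k2,k0,k0,k0,k0],[k1,k1,k1,k0,k0,k0],[k1,k1,k0,k0,k1,k0],[k1,k1,k0,k0,k2,k0],[k1,k1,k0,k0,k0,k1],[k1,k1,
    k0,k0,k1,k1],[k1,k0,k1,k0,k0,k0],[k2,k0,k2,k0,k0,k0],[k2,k0,k1,k0,k1,k0],[k2,k0,k1,k0,k0,k1],[k1,k1,k1,k0,k0,k1],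
    [k1,k0,k2,k0,k0,k0],[k1,k0,k3,k0,k0,k0],[k1,k0,k2,k0,k1,k0],[k1,k0,k1,k1,k1,k0],[k1,k0,k1,k0,k1,k0],[k1,k0,k1,k0,
    k2,k0],[k1,k0,k1,k0,k0,k1],[k1,k0,k0,k1,k0,k0],[k1,k0,k0,k1,k1,k0],[k1,k0,k0,k1,k2,k0],[k1,k0,k0,k0,k1,k0],[k2,k0,
    k0,k0,k2,k0],[k2,k0,k0,k0,k1,k1],[k1,k0,k0,k0,k2,k0],[k1,k0,k0,k0,k3,k0],[k1,k0,k0,k0,k2,k1],[k1,k0,k0,k0,k1,k1],
    [k1,k0,k0,k0,k0,k1],[k1,k0,k0,k0,k0,k2],[k0,k2,k0,k0,k0,k0],[k0,k2,k0,k0,k0,k1],[k0,k1,k1,k0,k0,k0],[k0,k1,k2,k0,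
    k0,k0],[k0,k1,k1,k0,k1,k0],[k0,k1,k0,k1,k1,k0],[k0,k1,k0,k0,k1,k0],[k0,k1,k0,k0,k2,k0],[k0,k1,k0,k0,k1,k1],[k0,k1,
    k0,k0,k0,k1],[k0,k1,k0,k0,k2,k1],[k0,k1,k0,k0,k0,k2],[k0,k0,k2,k0,k0,k0],[k0,k0,k3,k0,k0,k0],[k0,k0,k4,k0,k0,k0],
    [k0,k0,k2,k0,k1,k0],[k0,k0,k1,k1,k0,k0],[k0,k0,k1,k1,k1,k0],[k0,k0,k1,k0,k1,k0],[k0,k0,k1,k0,k2,k0],[k0,k0,k1,k0,
    k0,k1],[k0,k0,k1,k0,k1,k1],[k0,k0,k0,k2,k0,k0],[k0,k0,k0,k1,k1,k0],[k0,k0,k0,k1,k2,k0],[k0,k0,k0,k1,k3,k0],[k0,k0,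
    k0,k1,k1,k1],[k0,k0,k0,k0,k2,k0],[k0,k0,k0,k0,k3,k0],[k0,k0,k0,k0,k4,k0],[k0,k0,k0,k0,k2,k1],[k0,k0,k0,k0,k1,k1],
    [k0,k0,k0,k0,k0,k2]]
    [.contra [z1],.ref k0 k0 [(z2,[z2,y3,y2,y1,z2])],.ref k0 k4 [(z2,[z2,y3,y2,y1,z2])],.contra [y1,z1,z1],
    .contra [z1,y1,y1],.contra [z1,y1,y1],.ref k1 k2 [(z2,[y2,z1,z2,y1,z2])],.contra [y2,z1,z2,z1],.contra [y2,z1,z2,
    z1],.ref k27 k3 [(z2,[y2,z1,z2,z1]),(z2,[z0,y1,z0,y1,z2]),(z2,[z2,z1,z0,z1,y2])],.ref k1 k2 [(z2,[y2,z1,z0,y1,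
    z2])],.ref k0 k0 [(z1,[y1,z0,z0,z0,z1])],.contra [y2,z1,z2,z1],.ref k109 k7 [(z2,[z2,y5,y2,y3,z2]),(z2,[z0,z1,z0,
    z1])],.ref k1 k2 [(z1,[z1,y1,y1,y1,z1])],.contra [z1,y1],.ref k0 k4 [(z1,[y1,z0,z0,z0,z1])],.ref k163 k3 [(z2,[z2,
    y1,z0,y1]),(z2,[z0,y1,z0,y1,z2])],.ref k177 k10 [(z1,[y2,z1,z1]),(z1,[z1]),(z1,[y2,z1]),(z2,[z2,y1,z0,z1])],
    .ref k0 k0 [(z1,[z1,y1,y1,y1,z1])],.contra [y1,z0,z1,z0,z1],.contra [z2,z1,z0,y1],.ref k0 k4 [(z1,[z1,y1,y1,y1,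
    z1])],.contra [y2,z1,z0,z1],.ref k1 k2 [(z1,[z1])],.ref k176 k3 [(z1,[y1,z1,z1,z1,y1]),(z2,[z0,y1,z0,y1,z2]),(z2,
    [z0,z3,z2,z1,y2]),(z2,[z0,y1,y2,y1,z2])],.ref k178 k1 [(z1,[y2,z0,y2,y1,z2]),(z2,[z2,z3,z2,z1,y2]),(z1,[y2,z0,z1,
    y1,z2]),(z1,[z1,z0,z1,z2,y1])],.contra [y2,z1,z2,z1],.ref k109 k0 [(z2,[z2,y5,y6,y3,z2]),(z2,[z0,z1,z2,z1])],
    .contra [z1,y1],.ref k163 k4 [(z2,[z2,y1,y2,y1]),(z2,[z0,y1,y2,y1,z2])],.ref k177 k1 [(z1,[y2,z1]),(z1,[z1]),(z1,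
    [y2,z1,z1]),(z2,[z2,y1,z0,z1])],.ref k27 k3 [(z2,[y2,z1,z0,z1]),(z2,[z0,y1,z0,y1,z2]),(z2,[z2,z1,z2,z1,y2])],
    .contra [y2,z1,z0,z1],.contra [y1,z1],.ref k1 k2 [(z2,[y2,z1,y2,y1,z2])],.contra [z1],.ref k1 k2 [(z2,[y1,z0,z0,
    y1,z2])],.contra [y2,z1,z2,z1],.contra [y1,z0,z1,z1],.contra [y2,z1,z2,z1],.contra [z2,z1,z0,z1,y2],.contra [y2,
    z1,z2,z1],.contra [y1,z0,z1,z1],.ref k176 k4 [(z1,[z1,z1,z1,z1,y2]),(z2,[z0,y1,y2,y1,z2]),(z2,[z0,z3,z2,z1,y2]),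
    (z2,[z0,y1,z0,y1,z2])],.contra [z1,z0,z1],.ref k109 k7 [(z2,[y2,y3,z0,y1,z2]),(z2,[z0,z1,z0,z1])],.ref k1 k2 [(z2,
    [y1,z0,y1,y1,z2])],.contra [z1],.ref k62 k9 [(z1,[z1]),(z2,[z0,y1,z0,y1,z2])],.ref k174 k7 [(z2,[z1,y1,y2,y3,z2]),
    (z2,[z1]),(z2,[y1,z0,z2,z2]),(z2,[z1,z2,z0,y2])],.contra [y1,z0,z1,z1],.ref k0 k0 [(z1,[z1])],.ref k1 k2 [(z2,[z2,
    z1,z0,y1])],.contra [y2,z1,z2,z1],.contra [y1,z0,z1,z1],.contra [y2,z1,z0,z1],.contra [y2,z1,z0,z1],.contra [y1,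
    y1,z0,y1,z2],.ref k0 k4 [(z1,[z1])],.ref k109 k0 [(z1,[z1,y1,y2,y1]),(z2,[z0,z1,z2,z1])],.ref k175 k1 [(z2,[y2,y1,
    y2,y1,z2]),(z2,[z2,z3,z2,z1,y2]),(z2,[y2,y1,z0,y1,z2]),(z2,[z2,z1,z2,z3,y2])],.contra [z2,z1,z2,z1,y2],
    .contra [z1],.ref k62 k4 [(z1,[z1]),(z2,[z0,y1,y2,y1,z2])],.ref k174 k0 [(z2,[z1,y1,y2,y3,z2]),(z2,[z1]),(z2,[y1,
    z0,z0,z2]),(z2,[z1,z2,z0,y2])],.contra [y1,z0,z0,z1],.contra [y2,z1,z0,z1],.contra [z1,z0,z2]]),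
    .geo true z2 k5 [(y6,z4),(z4,y2),(z5,y2),(z4,y2),(z1,z0),(z0,z2)] [(z1,[z2]),(z1,[z0,z2]),(z1,[z0,z0,z1]),(z1,[z0,z0,
    z0,z2]),(z1,[y2,y2,y1,y2,z2]),(z1,
    [])] (Int.ofNat (nat_lit 1572864)) (Int.ofNat (nat_lit 2097152)) (.s (.s (.l k1) (.l k1)) (.s (.l k1) (.s (.l k1) (.s (.l k1) (.l k2))))) [⟨z2,
    z1,[[k0,k1],[k2,k3],[k4,k5]],.bnd k1⟩],
    .geo true z4 k4 [(z0,z4),(z2,z0),(z8,y4),(z3,y4),(z0,z4),(z3,z0)] [(z1,[z4]),(z1,[z0,z2]),(z1,[z0,z0,z4]),(z1,[z0,z0,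
    z0,z1]),(z1,[]),(z1,[y4,y2,y4,y1,
    z4])] z0 (Int.ofNat (nat_lit 786432)) (.s (.s (.s (.l k2) (.l k1)) (.l k1)) (.s (.l k1) (.l k1))) [⟨z0,z1,[[k0,
    k5],[k1,k2],[k3,k4]],.bnd k0⟩],
    .geo true z3 k4 [(y2,z3),(z4,z0),(z6,y6),(z2,z0),(z0,z3),(z2,z0)] [(z1,[z1]),(z1,[z0,z1]),(z1,[z0,z0,z3]),(z1,[z0,z0,
    z0,z1]),(z1,[]),(z1,[y1,y1,y3,y1,
    z3])] (Int.ofNat (nat_lit 699050)) (Int.ofNat (nat_lit 1048576)) (.s (.l k1) (.l k1)) [],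
    .geo true z1 k5 [(z0,z4),(y2,z6),(z2,y4),(z2,y3),(z2,y4),(z0,z1)] [(z1,[z1]),(z1,[z0,z1]),(z1,[z0,z0,z1]),(z1,[z0,z0,
    z0,z1]),(z1,[y1,y1,y1,y1,z1]),(z1,
    [])] (Int.ofNat (nat_lit 349525)) (Int.ofNat (nat_lit 524288)) (.s (.s (.l k1) (.s (.l k1) (.l k1))) (.s (.l k1) (.l k2))) [⟨z1,
    z2,[[k0,k2],[k1,k5],[k3,k4]],.bnd k0⟩],
    .geo true z1 k5 [(y2,z6),(z2,y1),(z2,y4),(z0,z1),(z2,y3),(z0,z1)] [(z1,[z1]),(z1,[z0,z1]),(z1,[z0,z0,z1]),(z1,[z0,z0,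
    z0,z1]),(z1,[y1,y1,y1,y1,z1]),(z1,
    [])] (Int.ofNat (nat_lit 349525)) (Int.ofNat (nat_lit 524288)) (.s (.s (.l k1) (.l k1)) (.s (.l k1) (.l k1))) [],
    .geo true z1 k5 [(y1,z2),(z1,y1),(z3,y2),(z2,y2),(y1,z2),(z0,z1)] [(z1,[z1]),(z1,[z0,z1]),(z1,[z0,z0,z1]),(z1,[z0,z0,
    z0,z1]),(z1,[y1,y1,y1,y1,z1]),(z1,
    [])] (Int.ofNat (nat_lit 524288)) (Int.ofNat (nat_lit 1048576)) (.s (.s (.s (.s (.l k2) (.l k1)) (.l k1)) (.s (.l k1) (.l k1))) (.s (.s (.l k1) (.l k1)) (.l k1))) [⟨z1,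
    z2,[[k0,k5],[k1,k2],[k3,k4]],.bnd k0⟩]]

noncomputable def cU6_3_n2_2 : List XN :=
  [.old (.lp [(nat_lit 11233395821760),(nat_lit 20308367481600),(nat_lit 20806278772048),(nat_lit 21470308945624),
    (nat_lit 13280603471520),(nat_lit 19035531642512)] [(nat_lit 9351648918479),(nat_lit 9351648918479),
    (nat_lit 8549332814924),(nat_lit 1078993362194),k0,(nat_lit 9130414886670),(nat_lit 4233192356547),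
    (nat_lit 4233192356547),(nat_lit 9241086582266),(nat_lit 7415003604932),(nat_lit 5450581008103),
    (nat_lit 5450581008103)] k0 [[k0,k0,k0,k0,k0,k0,(nat_lit 2545448998708)],[k0,k0,k0,(nat_lit 7027573956480),k0,k0,
    k0,k0,k0,k0,k0,(nat_lit 12782580841338)],[(nat_lit 7027573956480),k0,k0,k0,k0,k0,k0,k0,k0,k0,
    (nat_lit 1272901291200)],[k0,k0,k0,k0,k0,(nat_lit 8798399799882)],[k0,k0,(nat_lit 8798399799882),k0,k0,k0,k0,k0,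
    k0,k0,(nat_lit 9960452603640)],[k0,k0,k0,k0,k0,k0,k0,(nat_lit 8411048865296)],[k0,k0,k0,k0,
    (nat_lit 8411048865296)],[k0,(nat_lit 2545448998708),k0,k0,k0,k0,k0,k0,k0,(nat_lit 2656120694304)],[k0,k0,k0,k0,
    k0,k0,(nat_lit 2656120694304)],[k0,k0,k0,k0,k0,k0,k0,k0,k0,k0,k0,(nat_lit 885373564768)],
    [(nat_lit 12782580841338),k0,k0,k0,k0,k0,k0,k0,(nat_lit 885373564768)],[k0,k0,k0,(nat_lit 1272901291200),k0,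
    (nat_lit 9960452603640)]] (nat_lit 53122413886080) k6
    [[(k4,(nat_lit 10624592136599)),(k2,(nat_lit 10762810634115)),(k8,(nat_lit 12229331722741)),(k10,
    (nat_lit 15134463732136)),(k6,(nat_lit 16351852383692)),(k0,(nat_lit 24015976663098))],[(k9,
    (nat_lit 10624592136599)),(k11,(nat_lit 15134463732136)),(k7,(nat_lit 16351852383692)),(k5,
    (nat_lit 18482203810049)),(k3,(nat_lit 19506051378045)),(k1,(nat_lit 24015976663098))],[(k10,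
    (nat_lit 10624538447083)),(k2,(nat_lit 13280793525120)),(k0,(nat_lit 19506051378045)),(k8,
    (nat_lit 19616613714258)),(k6,(nat_lit 27169956938685)),(k4,(nat_lit 28857700296524))],[(k1,
    (nat_lit 10762810634115)),(k5,(nat_lit 12256945957124)),(k3,(nat_lit 13280793525120)),(k9,
    (nat_lit 13972357238862)),(k11,(nat_lit 15936779835691)),(k7,(nat_lit 25952568287129))],[(k8,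
    (nat_lit 11565192189782)),(k4,(nat_lit 12007878972166)),(k2,(nat_lit 12256945957124)),(k6,
    (nat_lit 16573086415501)),(k10,(nat_lit 16628599055145)),(k0,(nat_lit 18482203810049))],[(k1,
    (nat_lit 10624592136599)),(k5,(nat_lit 12007878972166)),(k11,(nat_lit 24486112650615)),(k7,
    (nat_lit 25703501302171)),(k3,(nat_lit 28857700296524)),(k9,(nat_lit 30932738919082))],[(k6,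
    (nat_lit 13059260080328)),(k0,(nat_lit 16351852383692)),(k8,(nat_lit 16462414719905)),(k4,
    (nat_lit 25703501302171)),(k2,(nat_lit 25952568287129)),(k10,(nat_lit 30213372897708))],[(k7,
    (nat_lit 13059260080328)),(k1,(nat_lit 16351852383692)),(k5,(nat_lit 16573086415501)),(k9,
    (nat_lit 18288497697239)),(k11,(nat_lit 22909040988372)),(k3,(nat_lit 27169956938685))],[(k8,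
    (nat_lit 10624482777216)),(k0,(nat_lit 10624592136599)),(k2,(nat_lit 13972357238862)),(k10,
    (nat_lit 17071109045683)),(k6,(nat_lit 18288497697239)),(k4,(nat_lit 30932738919082))],[(k9,
    (nat_lit 10624482777216)),(k5,(nat_lit 11565192189782)),(k1,(nat_lit 12229331722741)),(k11,
    (nat_lit 15245026068349)),(k7,(nat_lit 16462414719905)),(k3,(nat_lit 19616613714258))],[(k0,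
    (nat_lit 15134463732136)),(k8,(nat_lit 15245026068349)),(k2,(nat_lit 15936779835691)),(k10,
    (nat_lit 18150158077744)),(k6,(nat_lit 22909040988372)),(k4,(nat_lit 24486112650615))],[(k3,
    (nat_lit 10624538447083)),(k1,(nat_lit 15134463732136)),(k5,(nat_lit 16628599055145)),(k9,
    (nat_lit 17071109045683)),(k11,(nat_lit 18150158077744)),(k7,(nat_lit 30213372897708))]]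
    [] k0
    [[k2,k0,k0,k0,k0,k0],[k2,k0,k0,k0,k1,k0],[k1,k1,k0,k0,k0,k0],[k1,k2,k0,k0,k0,k0],[k1,k2,k0,k0,k0,k1],[k1,k1,k0,k0,
    k1,k0],[k1,k1,k0,k0,k2,k0],[k1,k1,k0,k0,k0,k1],[k1,k1,k0,k0,k1,k1],[k1,k0,k1,k0,k0,k0],[k2,k0,k1,k0,k1,k0],[k1,k1,
    k1,k0,k0,k0],[k1,k1,k1,k0,k0,k1],[k1,k0,k2,k0,k0,k0],[k1,k0,k2,k0,k1,k0],[k1,k0,k1,k1,k0,k0],[k1,k0,k1,k0,k1,k0],
    [k1,k0,k1,k0,k2,k0],[k1,k0,k1,k0,k0,k1],[k1,k0,k0,k1,k0,k0],[k1,k0,k0,k2,k0,k0],[k1,k0,k0,k1,k1,k0],[k1,k0,k0,k0,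
    k1,k0],[k2,k0,k0,k0,k2,k0],[k1,k0,k0,k0,k2,k0],[k1,k0,k0,k0,k3,k0],[k1,k0,k0,k0,k1,k1],[k1,k0,k0,k0,k0,k1],[k1,k0,
    k0,k0,k2,k1],[k1,k0,k0,k0,k0,k2],[k0,k2,k0,k0,k0,k0],[k0,k3,k0,k0,k0,k0],[k0,k2,k0,k0,k1,k0],[k0,k2,k0,k0,k0,k1],
    [k0,k1,k1,k0,k0,k0],[k0,k1,k0,k0,k1,k0],[k0,k1,k0,k0,k2,k0],[k0,k1,k0,k0,k1,k1],[k0,k1,k0,k0,k0,k1],[k0,k1,k1,k0,
    k0,k1],[k0,k1,k0,k0,k2,k1],[k0,k1,k0,k0,k0,k2],[k0,k0,k2,k0,k0,k0],[k0,k0,k3,k0,k0,k0],[k0,k0,k4,k0,k0,k0],[k0,k0,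
    k1,k1,k0,k0],[k0,k0,k1,k0,k1,k0],[k0,k0,k1,k0,k0,k1],[k0,k0,k0,k2,k0,k0],[k0,k0,k0,k3,k0,k0],[k0,k0,k0,k4,k0,k0],
    [k0,k0,k0,k2,k1,k0],[k0,k0,k0,k1,k1,k0],[k0,k0,k0,k1,k2,k0],[k0,k0,k0,k0,k2,k0],[k0,k0,k0,k0,k3,k0],[k0,k0,k0,k0,
    k4,k0],[k0,k0,k0,k0,k2,k1],[k0,k0,k0,k0,k1,k1],[k0,k0,k0,k0,k1,k2],[k0,k0,k0,k0,k0,k2]]
    [.contra [z1],.ref k27 k3 [(z1,[y1,z2,z0,z1]),(z1,[z0,y1,z0,y1,z1]),(z1,[z1,z0,z1,z1,y1])],.contra [y1,z1,z1,z1],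
    .ref k3 k4 [(z1,[y1,z0,z1,z0,z1])],.ref k184 k9 [(z1,[y2,z2,y2,z1]),(z1,[z0,y1,z0,y1,z1]),(z1,[z1,y1,z2]),(z1,[z0,
    z0,y1])],.contra [z1,z1,y1],.ref k27 k3 [(z1,[y1,z1,z1,z1]),(z1,[z0,y1,z0,y1,z1]),(z1,[z1,z1,z0,z1,y1])],
    .ref k3 k4 [(z1,[y1,z0,z0,z0,z1])],.ref k0 k0 [(z1,[y1,z0,z0,z0,z1])],.contra [y1,z2,z0,z1],.contra [z1,y2,z0,y1],
    .contra [y1,z1,z1,z1],.ref k0 k4 [(z1,[y1,z0,z0,z0,z1])],.ref k62 k9 [(z1,[z2,y2,z0,y1]),(z1,[z0,y1,z0,y1,z1])],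
    .ref k0 k0 [(z1,[z1,y2,y1,y2,z1])],.contra [z1,z0,z1,z1,y1],.contra [y1,z1,z1,z1],.ref k0 k4 [(z1,[z1,y2,y1,y2,
    z1])],.contra [y1,z1,z0,z1],.contra [z1,z0,z1,z1,y1],.contra [z1,z2,z2,z3,y2],.contra [z1,z0,z1,z1,y1],
    .contra [y1,z1,z1,z1],.ref k185 k11 [(z2,[y1,y2]),(z2,[z1]),(z2,[z1,z0,y2,y2,z2]),(z1,[z0,z2,z0,z1])],
    .ref k163 k4 [(z1,[z1,y1,y1,y1]),(z1,[z0,y1,y1,y1,z1])],.ref k183 k7 [(z1,[y1,z0,y1,y1,z1]),(z1,[y2,z2,z0,z1]),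
    (z1,[z1,y1,z1]),(z1,[z1])],.contra [z1,z1],.contra [y1,z1,z0,z1],.ref k27 k3 [(z1,[y1,z1,z0,z1]),(z1,[z0,y1,z0,y1,
    z1]),(z1,[z1,z1,z1,z1,y1])],.ref k3 k4 [(z1,[y1,z0,y1,z0,z1])],.contra [z1],.ref k182 k5 [(z1,[y1,y3,z3]),(z1,[y1,
    y3,z0,y3,z3]),(z1,[z0,z2,z0,z1]),(z1,[z1])],.contra [y1,z0,z2,z1],.ref k182 k5 [(z1,[y1,y3,z2]),(z1,[y1,y3,y1,y3,
    z3]),(z1,[z0,z2,z0,z1]),(z1,[z1,z0,z1])],.contra [y1,z1,z1,z1],.contra [y1,z1,z1,z1],.contra [y1,z0,z2,z1],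
    .contra [y1,z0,z1,z1],.contra [z1,z0,z1],.contra [y1,z0,z1,z1],.contra [z1,z2,y1],.ref k182 k5 [(z1,[y1,y3,z1]),
    (z1,[y1,y3,y2,y3,z3]),(z1,[z0,z2,z0,z1]),(z1,[z1,z0,z2])],.contra [z1],.ref k62 k9 [(z1,[z1]),(z1,[z0,y1,z0,y1,
    z1])],.ref k181 k6 [(z1,[z0,z0,z1]),(z2,[z1]),(z1,[z0,y1,y1,y1,z1]),(z2,[y1,z0,z0,z4])],.ref k0 k0 [(z1,[z1])],
    .contra [y1,z1,z1,z1],.contra [y1,z1,z0,z1],.contra [y1,y2,z0,y2,z2],.contra [z1,z4,z3,z5,y3],.contra [z1,z2,z2,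
    z3,y2],.contra [z1,z2,z2,z3,y2],.ref k0 k4 [(z1,[z1])],.ref k109 k0 [(z1,[z1,y2,y2,y2]),(z1,[z0,z1,z1,z1])],
    .contra [z1],.ref k62 k4 [(z1,[z1]),(z1,[z0,y1,y1,y1,z1])],.ref k180 k3 [(z2,[y1,z4,z4,z6,y4]),(z1,[z0,y1,z0,y1,
    z1]),(z2,[z1,z0,y4,y4,z4]),(z1,[z0,y1,y1,y1,z1])],.contra [y1,z0,z1,z1],.contra [y1,z1,z0,z1],.contra [y1,z0,z0,
    z1],.contra [z1,z0,z2]]),
    .geo true z1 k5 [(y4,z3),(z2,y1),(z5,y3),(z2,y1),(y1,z1),(z0,z1)] [(z1,[z1]),(z1,[z0,z1]),(z1,[z0,z0,z1]),(z1,[z0,z0,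
    z0,z1]),(z1,[y1,y1,y1,y1,z1]),(z1,
    [])] (Int.ofNat (nat_lit 1398101)) (Int.ofNat (nat_lit 1747627)) (.s (.s (.l k1) (.s (.l k1) (.l k1))) (.s (.l k1) (.l k1))) [],
    .geo true z1 k5 [(y2,z2),(z2,y1),(z3,y2),(z2,y1),(y1,z1),(z0,z1)] [(z1,[z1]),(z1,[z0,z1]),(z1,[z0,z0,z1]),(z1,[z0,z0,
    z0,z1]),(z1,[y1,y1,y1,y1,z1]),(z1,
    [])] (Int.ofNat (nat_lit 1048576)) (Int.ofNat (nat_lit 1572864)) (.s (.s (.l k1) (.s (.l k1) (.l k1))) (.s (.s (.l k1) (.l k1)) (.l k1))) [],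
    .old (.lp [(nat_lit 3158804),(nat_lit 5016924),(nat_lit 5067600),(nat_lit 3251710),(nat_lit 3158804),
    (nat_lit 2601368)] [(nat_lit 1253780),(nat_lit 1253780),k0,(nat_lit 649440),(nat_lit 299382),(nat_lit 299382),
    (nat_lit 1207327),(nat_lit 1207327),(nat_lit 1253780),(nat_lit 1253780),(nat_lit 1532498),
    (nat_lit 1532498)] k0 [[k0,k0,k0,k0,k0,k0,(nat_lit 650342)],[k0,k0,k0,(nat_lit 2229744),k0,(nat_lit 1579402)],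
    [(nat_lit 2229744),k0,k0,k0,k0,k0,k0,k0,(nat_lit 1903440)],[k0,k0,k0,k0,k0,k0,k0,(nat_lit 185812),k0,k0,k0,
    (nat_lit 464530)],[(nat_lit 1579402),k0,k0,k0,k0,k0,k0,k0,(nat_lit 278718)],[k0,k0,k0,k0,k0,k0,k0,
    (nat_lit 1021966),k0,k0,k0,(nat_lit 696795)],[k0,k0,(nat_lit 185812),k0,(nat_lit 1021966)],[k0,(nat_lit 650342),
    k0,k0,k0,k0,k0,k0,k0,(nat_lit 278718)],[k0,k0,k0,k0,k0,k0,(nat_lit 278718),k0,k0,k0,(nat_lit 278718)],[k0,k0,k0,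
    (nat_lit 1903440),k0,(nat_lit 278718)],[k0,k0,(nat_lit 464530),k0,(nat_lit 696795)],[k0,k0,k0,k0,k0,k0,k0,k0,k0,
    (nat_lit 278718)]] (nat_lit 11148720) k6
    [[(k8,(nat_lit 2880086)),(k10,(nat_lit 2880086)),(k0,(nat_lit 3158804)),(k6,(nat_lit 3205257)),(k4,
    (nat_lit 4809997)),(k2,(nat_lit 4877114))],[(k9,(nat_lit 2508462)),(k11,(nat_lit 2880086)),(k1,(nat_lit 3158804)),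
    (k3,(nat_lit 3763144)),(k7,(nat_lit 4784659)),(k5,(nat_lit 6342946))],[(k2,(nat_lit 2787180)),(k4,
    (nat_lit 3138140)),(k10,(nat_lit 3484426)),(k0,(nat_lit 3763144)),(k8,(nat_lit 3763144)),(k6,(nat_lit 4459939))],
    [(k11,(nat_lit 2230426)),(k3,(nat_lit 2787180)),(k7,(nat_lit 4459037)),(k9,(nat_lit 4598396)),(k1,
    (nat_lit 4877114)),(k5,(nat_lit 5366982))],[(k10,(nat_lit 3369954)),(k6,(nat_lit 3973843)),(k4,(nat_lit 5067600)),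
    (k2,(nat_lit 5366982)),(k8,(nat_lit 6016642)),(k0,(nat_lit 6342946))],[(k3,(nat_lit 3138140)),(k11,
    (nat_lit 3555766)),(k7,(nat_lit 4159655)),(k1,(nat_lit 4809997)),(k5,(nat_lit 5067600)),(k9,(nat_lit 5135168))],
    [(k6,(nat_lit 2229744)),(k10,(nat_lit 2229744)),(k8,(nat_lit 3483975)),(k4,(nat_lit 4159655)),(k2,
    (nat_lit 4459037)),(k0,(nat_lit 4784659))],[(k7,(nat_lit 2229744)),(k1,(nat_lit 3205257)),(k9,(nat_lit 3205257)),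
    (k11,(nat_lit 3205257)),(k5,(nat_lit 3973843)),(k3,(nat_lit 4459939))],[(k0,(nat_lit 2508462)),(k8,
    (nat_lit 2880086)),(k10,(nat_lit 2880086)),(k6,(nat_lit 3205257)),(k2,(nat_lit 4598396)),(k4,(nat_lit 5135168))],
    [(k1,(nat_lit 2880086)),(k9,(nat_lit 2880086)),(k11,(nat_lit 2880086)),(k7,(nat_lit 3483975)),(k3,
    (nat_lit 3763144)),(k5,(nat_lit 6016642))],[(k2,(nat_lit 2230426)),(k0,(nat_lit 2880086)),(k8,(nat_lit 2880086)),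
    (k10,(nat_lit 2880086)),(k6,(nat_lit 3205257)),(k4,(nat_lit 3555766))],[(k7,(nat_lit 2229744)),(k1,
    (nat_lit 2880086)),(k9,(nat_lit 2880086)),(k11,(nat_lit 2880086)),(k5,(nat_lit 3369954)),(k3,(nat_lit 3484426))]]
    [] k0
    [[k2,k0,k0,k0,k0,k0],[k3,k0,k0,k0,k0,k0],[k2,k0,k0,k0,k1,k0],[k2,k0,k0,k0,k0,k1],[k1,k1,k0,k0,k0,k0],[k1,k0,k1,k0,
    k0,k1],[k1,k0,k0,k1,k0,k0],[k1,k0,k0,k2,k0,k0],[k1,k0,k0,k2,k0,k1],[k1,k0,k0,k1,k1,k0],[k1,k0,k0,k1,k0,k1],[k1,k0,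
    k0,k1,k1,k1],[k1,k0,k0,k0,k1,k0],[k2,k0,k0,k0,k2,k0],[k1,k0,k0,k0,k2,k0],[k1,k0,k0,k0,k1,k1],[k1,k0,k0,k0,k0,k1],
    [k1,k1,k0,k0,k0,k1],[k1,k0,k0,k0,k0,k2],[k0,k2,k0,k0,k0,k0],[k0,k3,k0,k0,k0,k0],[k0,k2,k0,k0,k0,k1],[k0,k1,k1,k0,
    k0,k0],[k0,k1,k1,k0,k0,k1],[k0,k1,k0,k1,k0,k0],[k0,k1,k0,k1,k0,k1],[k0,k1,k0,k0,k1,k0],[k0,k1,k0,k0,k1,k1],[k0,k1,
    k0,k0,k0,k1],[k0,k1,k0,k0,k0,k2],[k0,k0,k2,k0,k0,k0],[k0,k0,k1,k1,k0,k0],[k0,k0,k1,k2,k0,k0],[k0,k0,k1,k1,k0,k1],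
    [k0,k0,k1,k0,k0,k1],[k0,k0,k1,k0,k0,k2],[k0,k0,k0,k2,k0,k0],[k0,k0,k0,k3,k0,k0],[k0,k0,k0,k4,k0,k0],[k0,k0,k0,k3,
    k0,k1],[k0,k0,k0,k2,k1,k0],[k0,k0,k0,k2,k0,k1],[k0,k0,k0,k2,k1,k1],[k0,k0,k0,k2,k0,k2],[k0,k0,k0,k1,k1,k0],[k0,k0,
    k0,k1,k2,k0],[k0,k0,k0,k1,k1,k1],[k0,k0,k0,k1,k0,k1],[k0,k0,k0,k1,k0,k2],[k0,k0,k0,k0,k2,k0],[k0,k0,k0,k0,k3,k0],
    [k0,k0,k0,k0,k2,k1],[k0,k0,k0,k0,k1,k1],[k0,k0,k0,k0,k1,k2],[k0,k0,k0,k0,k0,k2],[k0,k0,k0,k0,k0,k3]]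
    [.contra [z1],.ref k109 k9 [(z1,[y1,z1,y2,z1]),(z1,[z0,z0,z0,y1,z1])],.ref k109 k9 [(z1,[y1,z0,y2,z1]),(z1,[z0,z0,
    z0,y1,z1])],.ref k3 k2 [(z1,[z1,y1])],.contra [y1,z0,z0,y1,z1],.contra [y1,z1,z1,z1],.contra [y2,z1,y2,y1,z2],
    .contra [z1,z0,z1,z1,y1],.ref k1 k1 [(z1,[z1,z1,z2,z3,y2])],.contra [z1,z1,z1,z1,y1],.contra [z1,z0,z1,z1,y1],
    .ref k0 k9 [(z1,[y1,z0,z0,z0,z1])],.contra [z1,z1],.ref k0 k0 [(z2,[y1,z0,y2,z0,z2])],.ref k109 k9 [(z1,[y1,y1,y2,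
    z1]),(z1,[z0,z0,z0,y1,z1])],.ref k3 k2 [(z1,[z1])],.contra [y1,z0,z0,y1,z1],.contra [z1,z0,y1],.ref k109 k3 [(z1,
    [y1,z3,z2,z3,y2]),(z1,[z0,y1,z0,y1,z1])],.contra [z1],.ref k62 k6 [(z1,[z1]),(z1,[z0,z1,z0,z1])],.contra [z1,z0,
    y1],.ref k0 k9 [(z1,[z1])],.contra [y1,z1,z1,z1],.contra [y1,z0,z0,y1,z1],.contra [z1,z0,y1],.contra [y1,y1,z0,y1,
    z1],.contra [z1,z1,y1],.contra [y2,z1,z2,z1],.contra [z1,z0,y1],.contra [y1,z2,z0,z2],.ref k0 k0 [(z1,[z1])],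
    .ref k109 k9 [(z1,[z1,z0,z0,z2,y2]),(z1,[z0,z0,z0,y1,z1])],.ref k188 k10 [(z1,[y1,y1,z0,y2,z1]),(z1,[z0,z1,z0,
    z1]),(z1,[z1,z1,z1,z2,y1]),(z1,[z0,z0,z0,z1])],.ref k1 k1 [(z1,[z1])],.ref k109 k2 [(z1,[y1,z3,z2,z3,y2]),(z1,[z0,
    y1,z0,y1,z1])],.contra [z1],.ref k62 k0 [(z1,[z1]),(z1,[z0,z0,z0,z1])],.ref k0 k0 [(z2,[z1,z2,z2,z4,y2])],
    .ref k187 k10 [(z1,[y1,y3,y2,y6,z3]),(z1,[z0,z1,z0,z1]),(z1,[z1,z3,z3,z6,y3]),(z1,[z0,z0,z0,z1])],.contra [z1,z1,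
    z1,z1,y1],.ref k163 k0 [(z1,[z1,z0,z0,z1,y1]),(z1,[z0,z0,z0,z1])],.ref k1 k1 [(z1,[z1,z2,z2,z3,y2])],
    .ref k1 k1 [(z2,[z1,z2,z2,z4,y2])],.contra [y2,y1,y2,y1,z2],.contra [z1,z2,z1,z1,y1],.contra [z1,z1,z1,z1,y1],
    .contra [y1,z0,z0,y1,z1],.ref k186 k11 [(z1,[z1,z0,z0,z1,y1]),(z1,[z0,y1]),(z1,[y1,z0,z0,y2,z2])],.contra [z1,z2],
    .ref k109 k9 [(z1,[y1,y2,y2,z1]),(z1,[z0,z0,z0,y1,z1])],.ref k3 k2 [(z1,[z1,z1])],.contra [y1,y1,z0,y1,z1],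
    .ref k109 k3 [(z1,[y1,z2,z2,z3,y2]),(z1,[z0,y1,z0,y1,z1])],.contra [z1],.ref k173 k2 [(z1,[z0,z1]),(z1,[y1,y3,z0,
    y3,z3]),(z1,[z0,z0,z0,z1])]]),
    .geo true z3 k4 [(y2,z6),(z2,z0),(z6,y9),(z2,z0),(z0,z3),(z4,z0)] [(z1,[z1]),(z1,[z0,z1]),(z1,[z0,z0,z3]),(z1,[z0,z0,
    z0,z1]),(z1,[]),(z1,[y1,y1,y3,y1,
    z3])] (Int.ofNat (nat_lit 349525)) (Int.ofNat (nat_lit 699051)) (.s (.s (.l k1) (.l k1)) (.l k1)) [],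
    .geo true z1 k5 [(y2,z6),(y4,z8),(z4,y6),(z2,y3),(z4,y6),(z0,z1)] [(z1,[z1]),(z1,[z0,z1]),(z1,[z0,z0,z1]),(z1,[z0,z0,
    z0,z1]),(z1,[y1,y1,y1,y1,z1]),(z1,
    [])] (Int.ofNat (nat_lit 524288)) (Int.ofNat (nat_lit 699051)) (.s (.s (.l k1) (.l k1)) (.s (.l k1) (.l k2))) [⟨z2,
    z3,[[k0,k5],[k1,k2],[k3,k4]],.bnd k0⟩],
    .geo true z1 k5 [(y4,z6),(z0,z1),(z2,y2),(z2,y1),(z4,y5),(z0,z1)] [(z1,[z1]),(z1,[z0,z1]),(z1,[z0,z0,z1]),(z1,[z0,z0,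
    z0,z1]),(z1,[y1,y1,y1,y1,z1]),(z1,
    [])] (Int.ofNat (nat_lit 699050)) (Int.ofNat (nat_lit 838861)) (.s (.l k1) (.l k1)) [],
    .geo true z2 k5 [(y1,z4),(z4,y6),(y1,z4),(z1,z0),(z5,y4),(z0,z2)] [(z1,[z1]),(z1,[z0,z2]),(z1,[z0,z0,z1]),(z1,[z0,z0,
    z0,z1]),(z1,[y1,y2,y1,y1,z2]),(z1,
    [])] (Int.ofNat (nat_lit 262144)) (Int.ofNat (nat_lit 699051)) (.s (.s (.s (.s (.s (.l k2) (.l k1)) (.l k1)) (.l k1)) (.l k1)) (.l k1)) [⟨z1,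
    z4,[[k0,k5],[k1,k2],[k3,k4]],.bnd k0⟩],
    .old (.lp [(nat_lit 1105438),(nat_lit 1880968),(nat_lit 645044),(nat_lit 2036074),(nat_lit 1459966),
    (nat_lit 2321666)] [(nat_lit 678281),(nat_lit 537947),(nat_lit 220349),(nat_lit 220349),(nat_lit 838311),
    (nat_lit 838311),(nat_lit 142796),(nat_lit 142796),(nat_lit 173570),(nat_lit 688130),k0,k0] k0 [[k0,k0,k0,k0,k0,
    k0,k0,k0,(nat_lit 290516),k0,(nat_lit 160030)],[k0,k0,k0,(nat_lit 140334)],[(nat_lit 140334),k0,k0,k0,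
    (nat_lit 930636)],[k0,k0,k0,k0,k0,k0,k0,(nat_lit 4924),k0,(nat_lit 364376)],[],[k0,k0,k0,(nat_lit 930636),k0,k0,
    k0,(nat_lit 805074)],[k0,k0,(nat_lit 4924),k0,(nat_lit 805074)],[k0,k0,k0,k0,k0,k0,k0,k0,k0,(nat_lit 369300),k0,
    (nat_lit 354528)],[k0,k0,(nat_lit 364376),k0,k0,k0,(nat_lit 369300)],[k0,(nat_lit 290516),k0,k0,k0,k0,k0,k0,k0,k0,
    k0,(nat_lit 485014)],[k0,k0,k0,k0,k0,k0,(nat_lit 354528),k0,(nat_lit 485014)],[k0,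
    (nat_lit 160030)]] (nat_lit 4727040) k6
    [[(k0,(nat_lit 945408)),(k4,(nat_lit 945408)),(k2,(nat_lit 1563370)),(k10,(nat_lit 1783719)),(k6,
    (nat_lit 1995451)),(k8,(nat_lit 2095163))],[(k1,(nat_lit 945408)),(k5,(nat_lit 945408)),(k9,(nat_lit 955255)),
    (k11,(nat_lit 1352869)),(k3,(nat_lit 1423036)),(k7,(nat_lit 1500589))],[(k4,(nat_lit 1263006)),(k0,
    (nat_lit 1423036)),(k2,(nat_lit 1740634)),(k6,(nat_lit 1958521)),(k8,(nat_lit 2218263)),(k10,(nat_lit 2261347))],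
    [(k7,(nat_lit 1027885)),(k5,(nat_lit 1263006)),(k9,(nat_lit 1418111)),(k1,(nat_lit 1563370)),(k3,
    (nat_lit 1740634)),(k11,(nat_lit 2465693))],[(k0,(nat_lit 945408)),(k8,(nat_lit 945409)),(k2,(nat_lit 1263006)),
    (k6,(nat_lit 1335635)),(k10,(nat_lit 1483355)),(k4,(nat_lit 1575680))],[(k1,(nat_lit 945408)),(k3,
    (nat_lit 1263006)),(k7,(nat_lit 1340559)),(k11,(nat_lit 1483355)),(k5,(nat_lit 1575680)),(k9,(nat_lit 1600299))],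
    [(k2,(nat_lit 1027885)),(k6,(nat_lit 1231000)),(k4,(nat_lit 1340559)),(k0,(nat_lit 1500589)),(k8,
    (nat_lit 2005300)),(k10,(nat_lit 2178870))],[(k7,(nat_lit 1231000)),(k5,(nat_lit 1335635)),(k9,(nat_lit 1490740)),
    (k3,(nat_lit 1958521)),(k1,(nat_lit 1995451)),(k11,(nat_lit 2548170))],[(k0,(nat_lit 955255)),(k8,
    (nat_lit 1090666)),(k10,(nat_lit 1279008)),(k2,(nat_lit 1418111)),(k6,(nat_lit 1490740)),(k4,(nat_lit 1600299))],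
    [(k5,(nat_lit 945409)),(k9,(nat_lit 1090666)),(k7,(nat_lit 2005300)),(k1,(nat_lit 2095163)),(k11,
    (nat_lit 2148096)),(k3,(nat_lit 2218263))],[(k0,(nat_lit 1352869)),(k4,(nat_lit 1483355)),(k10,(nat_lit 1836652)),
    (k8,(nat_lit 2148096)),(k2,(nat_lit 2465693)),(k6,(nat_lit 2548170))],[(k9,(nat_lit 1279008)),(k5,
    (nat_lit 1483355)),(k1,(nat_lit 1783719)),(k11,(nat_lit 1836652)),(k7,(nat_lit 2178870)),(k3,(nat_lit 2261347))]]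
    [] k0
    [[k2,k0,k0,k0,k0,k0],[k3,k0,k0,k0,k0,k0],[k4,k0,k0,k0,k0,k0],[k3,k0,k1,k0,k0,k0],[k2,k1,k0,k0,k0,k0],[k2,k1,k1,k0,
    k0,k0],[k2,k0,k1,k0,k0,k0],[k2,k0,k2,k0,k0,k0],[k2,k0,k1,k0,k1,k0],[k2,k0,k0,k1,k0,k0],[k2,k0,k0,k0,k1,k0],[k2,k0,
    k0,k0,k0,k1],[k1,k1,k0,k0,k0,k0],[k1,k1,k1,k0,k0,k0],[k1,k0,k1,k0,k0,k0],[k1,k1,k2,k0,k0,k0],[k1,k0,k2,k0,k0,k0],
    [k1,k0,k2,k0,k1,k0],[k1,k0,k1,k1,k0,k0],[k1,k0,k2,k1,k0,k0],[k1,k0,k1,k0,k1,k0],[k1,k0,k1,k0,k2,k0],[k1,k0,k1,k0,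
    k1,k1],[k1,k0,k1,k0,k0,k1],[k1,k0,k0,k1,k0,k0],[k1,k1,k0,k1,k0,k0],[k1,k0,k0,k0,k1,k0],[k1,k0,k0,k0,k2,k0],[k1,k0,
    k0,k0,k0,k1],[k0,k2,k0,k0,k0,k0],[k0,k2,k1,k0,k0,k0],[k0,k1,k1,k0,k0,k0],[k0,k1,k2,k0,k0,k0],[k0,k1,k1,k1,k0,k0],
    [k0,k1,k1,k0,k1,k0],[k0,k1,k1,k0,k2,k0],[k0,k1,k0,k1,k0,k0],[k0,k1,k0,k2,k0,k0],[k0,k1,k0,k0,k1,k0],[k0,k0,k2,k0,
    k0,k0],[k0,k0,k2,k1,k0,k0],[k0,k0,k2,k0,k1,k0],[k0,k0,k2,k0,k0,k1],[k0,k0,k1,k1,k0,k0],[k0,k0,k1,k2,k0,k0],[k0,k0,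
    k1,k0,k1,k0],[k0,k0,k1,k1,k1,k0],[k0,k0,k1,k0,k2,k0],[k0,k0,k1,k0,k1,k1],[k0,k0,k1,k0,k0,k1],[k0,k0,k0,k2,k0,k0],
    [k0,k0,k0,k3,k0,k0],[k0,k0,k0,k1,k1,k0],[k0,k0,k0,k1,k2,k0],[k0,k0,k0,k0,k2,k0],[k0,k0,k0,k0,k3,k0],[k0,k0,k0,k0,
    k4,k0],[k0,k0,k0,k0,k2,k1],[k0,k0,k0,k0,k1,k1],[k0,k0,k0,k0,k0,k2]]
    [.contra [z1],.ref k62 k2 [(z1,[z1]),(z1,[z0,z0,z1])],.ref k193 k7 [(z2,[y1,z0,y4,y4,z4]),(z1,[z0,z0,z0,z1]),(z2,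
    [y1,z4,z4]),(z2,[z1])],.ref k0 k2 [(z3,[z2,y3,z0,y2])],.ref k109 k10 [(z1,[z1,z0,z2,z0,y2]),(z1,[z0,z0,y1,z0,
    z1])],.ref k0 k2 [(z1,[z2,y3,y2,y2])],.ref k163 k2 [(z1,[z1,z0,z1,z0,y1]),(z1,[z0,z0,z1])],.ref k189 k10 [(z1,[z0,
    z1,z2,z1,y1]),(z2,[z1]),(z1,[z0,y1,y1,y1,z1])],.ref k0 k2 [(z1,[z1,y1,z0,y1])],.ref k109 k10 [(z1,[z1,z1,z4,z1,
    y3]),(z1,[z0,z0,y1,z0,z1])],.ref k163 k8 [(z1,[z1,z0,z1,z0,y1]),(z1,[z0,z0,z1])],.ref k109 k1 [(z1,[z1,z0,z2,z0,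
    y2]),(z1,[z0,z0,y1,z0,z1])],.contra [z1,y1,y1],.contra [y2,z3,z3,z2],.contra [y2,z3,z3,z2],.ref k189 k0 [(z1,[z0,
    y1,y2,y1,z1]),(z2,[z1,y1,y1]),(z1,[z0,z0,z1])],.ref k186 k3 [(z1,[z1,z0,z1,z0,y1]),(z1,[z0,z1,z2,z1,y1]),(z1,[y1,
    z0,y2,z0,z2])],.ref k1 k1 [(z1,[z1,y1,z0,y1])],.contra [y2,z1,y1,z0,z2],.ref k189 k0 [(z1,[z0,y1,y2,y1,z1]),(z2,
    [z1,z0,z1,z1,y1]),(z1,[z0,z0,z1])],.contra [y1,z1,z1,z1],.ref k0 k2 [(z1,[z2,y1,z0,y2])],.contra [y1,z1,z2,z1],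
    .ref k192 k9 [(z1,[z3,y3,y6,y2]),(z1,[z0,y1,y2,y1,z1]),(z1,[y1,z1,z2,z1]),(z1,[z0,z0,z1])],.contra [z1,z0,z1,z1,
    y1],.ref k109 k0 [(z1,[z1,y3,y3,y2]),(z1,[z0,z1,z1,z1])],.contra [y1,z1,z1,z1],.ref k109 k10 [(z1,[z1,z1,z3,z0,
    y2]),(z1,[z0,z0,y1,z0,z1])],.ref k0 k2 [(z1,[z1])],.contra [z1],.ref k3 k2 [(z1,[y1,z1,z2,z1])],.contra [y2,z3,z3,
    z2],.ref k179 k9 [(z1,[z1]),(z1,[z0,y1,y2,y1,z1]),(z1,[y1,z2,z2,z2])],.ref k3 k2 [(z1,[y1,z0,z0,z0,z1])],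
    .contra [y1,z1,z1,z1],.ref k0 k2 [(z1,[y2,z1,z2,z2])],.contra [z1,z1,z2,z1,y1],.ref k190 k2 [(z1,[y1,z1,y1,y2,
    z2]),(z1,[z1,z2,z4,z2,y2]),(z1,[z0,z0,z0,z1]),(z1,[z1,y1,y2,y1,z1])],.contra [y1,z1,z1,z1],.contra [z1],
    .ref k179 k9 [(z1,[z1,z1,z2,z1,y1]),(z1,[z0,y1,y2,y1,z1]),(z1,[y1,z1,z0,z1,z1])],.ref k186 k9 [(z1,[z1,y1,y1,y1]),
    (z1,[z0,y1,y2,y1,z1]),(z1,[y1,z2,z2,z2])],.ref k191 k1 [(z1,[z1,z0,z0,y2]),(z1,[z1,z1,z0,y2]),(z1,[y1,z0,z1,z2]),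
    (z1,[z0,z0,z0,z1])],.contra [y2,z1,y1,z0,z2],.ref k3 k2 [(z1,[y1,y1,y2,y1,z2])],.contra [y1,z1,z1,z1],.contra [y1,
    z0,y1,z0,z1],.contra [y2,z1,z1,z2],.ref k109 k0 [(z1,[y1,y3,y3,y2,z1]),(z1,[z0,z1,z1,z1])],.ref k1 k1 [(z1,[z1])],
    .contra [z1,z2,z4,z2,y2],.ref k190 k2 [(z1,[y1,z0,y3,y3,z3]),(z1,[z1,z3,z6,z3,y3]),(z1,[z0,z0,z0,z1]),(z1,[z1])],
    .contra [y1,z0,y1,z0,z1],.ref k109 k0 [(z1,[z1,y2,y2,y2]),(z1,[z0,z1,z1,z1])],.contra [z1],.contra [y1,z0,z0,z1],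
    .ref k189 k0 [(z1,[z0,y1,y2,y1,z1]),(z2,[y1,z0,z0,z2]),(z1,[z0,z0,z1])],.contra [z1,z1],.ref k0 k2 [(z1,[z2,z1])],
    .contra [y1,z0,z2]]),
    .geo true z6 k4 [(z3,z0),(z4,z0),(z5,y6),(z4,z0),(z0,z6),(z8,z0)] [(z1,[z3]),(z1,[z0,z2]),(z1,[z0,z0,z1]),(z1,[z0,z0,
    z0,z2]),(z1,[]),(z1,[y3,y2,y1,y2,z6])] z0 (Int.ofNat (nat_lit 873814)) (.s (.l k1) (.l k1)) [],
    .geo true z2 k5 [(y4,z4),(z4,y2),(z3,y2),(z4,y2),(z1,z0),(z0,z2)] [(z1,[z2]),(z1,[z0,z2]),(z1,[z0,z0,z1]),(z1,[z0,z0,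
    z0,z2]),(z1,[y2,y2,y1,y2,z2]),(z1,
    [])] (Int.ofNat (nat_lit 1048576)) (Int.ofNat (nat_lit 1572864)) (.s (.s (.l k1) (.l k1)) (.l k1)) [],
    .geo true z4 k4 [(z2,z0),(z3,z0),(z3,y4),(z3,z0),(z0,z4),(z5,z0)] [(z1,[z2]),(z1,[z0,z1]),(z1,[z0,z0,z1]),(z1,[z0,z0,
    z0,z1]),(z1,[]),(z1,[y2,y1,y1,y1,z4])] z0 (Int.ofNat (nat_lit 786432)) (.s (.l k1) (.l k1)) []]

noncomputable def cU6_3_n2_3 : List XN :=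
  [.old (.lp [(nat_lit 1146),(nat_lit 766),(nat_lit 1692),(nat_lit 588),(nat_lit 1146),(nat_lit 410)] [(nat_lit 273),
    (nat_lit 273),(nat_lit 445),(nat_lit 481),k0,k0,(nat_lit 629),(nat_lit 475),(nat_lit 273),(nat_lit 273),
    (nat_lit 641),(nat_lit 641)] k0 [[k0,k0,k0,k0,k0,k0,k0,k0,k0,k0,k178],[k0,k0,k0,k42,k0,(nat_lit 570)],[k42,k0,k0,
    k0,k0,k0,k0,k0,k30],[k0,k0,k0,k0,k0,(nat_lit 648),k0,(nat_lit 244)],[(nat_lit 570),k0,(nat_lit 648)],[k0,k0,k0,k0,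
    k0,k0,k0,k12],[k0,k0,(nat_lit 244),k0,k12],[k0,k0,k0,k0,k0,k0,k0,k0,k0,(nat_lit 326)],[k0,k0,k0,k0,k0,k0,
    (nat_lit 326),k0,k0,k0,(nat_lit 368)],[k0,k0,k0,k30],[],[k0,k178,k0,k0,k0,k0,k0,k0,k0,
    (nat_lit 368)]] (nat_lit 2880) k6
    [[(k8,(nat_lit 778)),(k10,(nat_lit 778)),(k6,(nat_lit 790)),(k0,(nat_lit 968)),(k2,(nat_lit 974)),(k4,
    (nat_lit 1419))],[(k11,(nat_lit 778)),(k3,(nat_lit 938)),(k1,(nat_lit 968)),(k9,(nat_lit 1146)),(k5,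
    (nat_lit 1461)),(k7,(nat_lit 1514))],[(k6,(nat_lit 582)),(k4,(nat_lit 641)),(k2,(nat_lit 724)),(k10,
    (nat_lit 748)),(k0,(nat_lit 938)),(k8,(nat_lit 938))],[(k11,(nat_lit 576)),(k3,(nat_lit 724)),(k1,(nat_lit 974)),
    (k9,(nat_lit 1218)),(k5,(nat_lit 1247)),(k7,(nat_lit 1420))],[(k6,(nat_lit 819)),(k4,(nat_lit 1044)),(k10,
    (nat_lit 1051)),(k2,(nat_lit 1247)),(k8,(nat_lit 1449)),(k0,(nat_lit 1461))],[(k3,(nat_lit 641)),(k5,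
    (nat_lit 1044)),(k11,(nat_lit 1051)),(k7,(nat_lit 1217)),(k1,(nat_lit 1419)),(k9,(nat_lit 1431))],[(k6,
    (nat_lit 576)),(k10,(nat_lit 576)),(k8,(nat_lit 944)),(k4,(nat_lit 1217)),(k2,(nat_lit 1420)),(k0,
    (nat_lit 1514))],[(k7,(nat_lit 576)),(k3,(nat_lit 582)),(k11,(nat_lit 748)),(k1,(nat_lit 790)),(k9,(nat_lit 790)),
    (k5,(nat_lit 819))],[(k10,(nat_lit 778)),(k6,(nat_lit 790)),(k8,(nat_lit 820)),(k0,(nat_lit 1146)),(k2,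
    (nat_lit 1218)),(k4,(nat_lit 1431))],[(k1,(nat_lit 778)),(k11,(nat_lit 778)),(k9,(nat_lit 820)),(k3,
    (nat_lit 938)),(k7,(nat_lit 944)),(k5,(nat_lit 1449))],[(k2,(nat_lit 576)),(k6,(nat_lit 748)),(k0,(nat_lit 778)),
    (k8,(nat_lit 778)),(k10,(nat_lit 778)),(k4,(nat_lit 1051))],[(k7,(nat_lit 576)),(k3,(nat_lit 748)),(k1,
    (nat_lit 778)),(k9,(nat_lit 778)),(k11,(nat_lit 778)),(k5,(nat_lit 1051))]]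
    [] k0
    [[k2,k0,k0,k0,k0,k0],[k2,k0,k0,k0,k0,k1],[k1,k1,k0,k0,k0,k0],[k1,k2,k0,k0,k0,k0],[k1,k1,k0,k0,k0,k1],[k1,k0,k0,k1,
    k0,k0],[k1,k0,k0,k2,k0,k1],[k1,k0,k0,k1,k0,k1],[k1,k0,k0,k0,k1,k0],[k1,k0,k0,k0,k2,k0],[k1,k0,k0,k0,k1,k1],[k1,k0,
    k0,k0,k0,k1],[k1,k0,k0,k0,k0,k2],[k0,k2,k0,k0,k0,k0],[k0,k3,k0,k0,k0,k0],[k0,k3,k0,k0,k0,k1],[k0,k2,k1,k0,k0,k0],
    [k0,k2,k0,k1,k0,k0],[k0,k2,k0,k1,k0,k1],[k0,k2,k0,k0,k0,k1],[k0,k2,k0,k0,k0,k2],[k0,k1,k1,k0,k0,k0],[k0,k1,k1,k1,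
    k0,k1],[k0,k1,k1,k0,k0,k1],[k0,k1,k0,k1,k0,k0],[k0,k1,k0,k2,k0,k0],[k0,k1,k0,k2,k0,k1],[k0,k1,k0,k1,k1,k0],[k0,k1,
    k0,k1,k0,k1],[k0,k1,k0,k1,k0,k2],[k0,k1,k0,k0,k1,k0],[k0,k1,k0,k0,k1,k1],[k0,k1,k0,k0,k0,k1],[k0,k1,k0,k0,k0,k2],
    [k0,k0,k2,k0,k0,k0],[k0,k0,k1,k1,k0,k0],[k0,k0,k1,k2,k0,k0],[k0,k0,k1,k1,k0,k1],[k0,k0,k1,k0,k0,k1],[k0,k0,k0,k2,
    k0,k0],[k0,k0,k0,k3,k0,k0],[k0,k0,k0,k4,k0,k0],[k0,k0,k0,k3,k0,k1],[k0,k0,k0,k2,k1,k0],[k0,k0,k0,k2,k0,k1],[k0,k0,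
    k0,k2,k1,k1],[k0,k0,k0,k2,k0,k2],[k0,k0,k0,k1,k1,k0],[k0,k0,k0,k1,k2,k0],[k0,k0,k0,k1,k1,k1],[k0,k0,k0,k1,k0,k1],
    [k0,k0,k0,k1,k0,k2],[k0,k0,k0,k0,k2,k0],[k0,k0,k0,k0,k3,k0],[k0,k0,k0,k0,k2,k1],[k0,k0,k0,k0,k1,k1],[k0,k0,k0,k0,
    k1,k2],[k0,k0,k0,k0,k0,k2],[k0,k0,k0,k0,k0,k3]]
    [.contra [z1],.ref k3 k2 [(z1,[z1,y1])],.contra [y1,z0,z0,y1,z1],.contra [z1,z0,y1],.contra [y1,z0,z0,y1,z1],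
    .contra [y1,z0,z0,y1,z1],.ref k27 k0 [(z1,[z1,z0,z0,z1,y1]),(z1,[z0,z0,z0,z1]),(z1,[y1,y1,z0,y3,z2])],.contra [z1,
    z0,z1,z1,y1],.contra [z1,z1],.ref k195 k10 [(z1,[z0,z0,z1]),(z1,[z1,z2]),(z1,[y2,y4,y3,y6,z6]),(z1,[z1,y1])],
    .ref k3 k2 [(z1,[z1])],.contra [y1,z0,z0,y1,z1],.ref k179 k1 [(z1,[z1,y1]),(z1,[z0,z1]),(z1,[y1,y1,z0,y2,z2])],
    .contra [z1],.contra [z1,z0,y1],.ref k189 k2 [(z1,[z0,z1]),(z1,[z1,z0,y1]),(z1,[z0,z0,z0,z1])],.contra [y1,z1,z1,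
    z1],.contra [z1,z0,y1],.ref k0 k9 [(z1,[z1,z1,z0,z2,y1])],.contra [z1,z0,y1],.ref k189 k2 [(z1,[z0,z1]),(z2,[z1]),
    (z1,[z0,z0,z0,z1])],.ref k0 k9 [(z1,[z1])],.contra [y1,z1,z0,z0,z1],.ref k196 k0 [(z1,[y1,y1,z0,y2,z1]),(z1,[z0,
    z0,z0,z1]),(z1,[z2,z0,y1]),(z1,[z0,z1,z0,z1])],.contra [y1,z0,z0,y1,z1],.ref k163 k7 [(z1,[z1,z0,z0,z1,y1]),(z1,
    [z0,z0,z0,z1])],.ref k0 k0 [(z1,[z1,z1,z0,z2,y1])],.contra [y1,y1,z0,y1,z1],.contra [y1,z0,z0,y1,z1],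
    .ref k1 k1 [(z1,[z1,z1,z0,z2,y1])],.contra [y1,y1,z0,y1,z1],.contra [y1,y1,z0,y1,z1],.contra [y1,z0,z0,y1,z1],
    .ref k186 k1 [(z1,[z1,z1,z0,z1,y1]),(z1,[z0,z1]),(z1,[y1,y2,z0,y2,z2])],.contra [y1,z2,z0,z2],.ref k0 k0 [(z1,
    [z1])],.ref k109 k9 [(z1,[z1,z0,z0,z2,y2]),(z1,[z0,z0,z0,y1,z1])],.ref k197 k10 [(z1,[z0,z0,z1]),(z1,[y2,z2,y1,z0,
    z2]),(z1,[z2,y2,y1,y4,z2]),(z1,[y2,y2,y1,z0,z2])],.ref k1 k1 [(z1,[z1])],.contra [z1],.ref k62 k0 [(z1,[z1]),(z1,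
    [z0,z0,z0,z1])],.ref k27 k0 [(z4,[z1,z0,y2]),(z1,[z0,z0,z0,z1]),(z4,[y1,y4,z2,y8,z4])],.ref k194 k10 [(z1,[y1,y1,
    z0,y2,z1]),(z1,[z0,z1,z0,z1]),(z1,[z1])],.ref k109 k5 [(z1,[z1,z0,z0,z2,y2]),(z1,[z0,z0,z0,y1,z1])],
    .ref k163 k0 [(z1,[z1,z0,z0,z1,y1]),(z1,[z0,z0,z0,z1])],.ref k27 k0 [(z1,[z1,z1,z0,z1,y1]),(z1,[z0,z0,z0,z1]),(z1,
    [y1,y2,z0,y3,z2])],.ref k0 k9 [(z2,[z1,z2,z2,z4,y2])],.contra [y1,y1,z0,y1,z1],.ref k196 k0 [(z1,[z1,z0,z0,y2]),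
    (z1,[z0,z0,z0,z1]),(z1,[y2,y2,y1,z0,z2]),(z1,[z0,z1,z0,z1])],.contra [z1,z1,z1,z1,y1],.contra [y1,z0,z0,y1,z1],
    .ref k186 k11 [(z1,[z1,z0,z0,z1,y1]),(z1,[z0,y1]),(z1,[y1,z0,z0,y2,z2])],.contra [z1,z2],.ref k195 k10 [(z1,[z0,
    z0,z1]),(z1,[z1,z3]),(z1,[y2,y6,y3,y6,z6]),(z1,[z1])],.ref k3 k2 [(z1,[z1,z1])],.contra [y1,y1,z0,y1,z1],
    .ref k179 k1 [(z1,[z1]),(z1,[z0,z1]),(z1,[y1,y2,z0,y2,z2])],.contra [z1],.ref k173 k2 [(z1,[z0,z1]),(z1,[y1,y3,z0,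
    y3,z3]),(z1,[z0,z0,z0,z1])]]),
    .old (.lp [(nat_lit 1222),(nat_lit 1430),(nat_lit 2222),(nat_lit 2244),(nat_lit 1294),(nat_lit 1178)] [(nat_lit 782),
    (nat_lit 782),(nat_lit 678),(nat_lit 678),(nat_lit 282),(nat_lit 282),(nat_lit 542),k0,(nat_lit 746),
    (nat_lit 746),(nat_lit 804),(nat_lit 804)] k0 [[k0,k0,k0,k0,k0,k0,k10],[k0,k0,k0,(nat_lit 334),k0,k62],
    [(nat_lit 334),k0,k0,k0,k0,k0,k0,k0,k0,k0,k32],[k0,k0,k0,k0,k0,k156,k0,(nat_lit 782)],[k62,k0,k156],[k0,k0,k0,k0,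
    k0,k0,k0,(nat_lit 1284),k0,k0,k0,(nat_lit 1022)],[k0,k0,(nat_lit 782),k0,(nat_lit 1284)],[k0,k10,k0,k0,k0,k0,k0,
    k0,k0,k0,k0,k50],[k0,k0,k0,k0,k0,k0,k0,k0,k0,k0,k22],[],[k0,k0,k0,k0,(nat_lit 1022),k0,k50],[k0,k0,k0,k32,k0,k0,
    k0,k0,k0,k22]] (nat_lit 4800) k6
    [[(k10,(nat_lit 1200)),(k0,(nat_lit 1222)),(k8,(nat_lit 1236)),(k2,(nat_lit 1294)),(k6,(nat_lit 1512)),(k4,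
    (nat_lit 2744))],[(k11,(nat_lit 1200)),(k1,(nat_lit 1222)),(k9,(nat_lit 1248)),(k3,(nat_lit 1326)),(k5,
    (nat_lit 2056)),(k7,(nat_lit 2066))],[(k2,(nat_lit 1096)),(k10,(nat_lit 1304)),(k0,(nat_lit 1326)),(k8,
    (nat_lit 1362)),(k6,(nat_lit 1576)),(k4,(nat_lit 1764))],[(k3,(nat_lit 1096)),(k1,(nat_lit 1294)),(k11,
    (nat_lit 1304)),(k5,(nat_lit 1826)),(k9,(nat_lit 2144)),(k7,(nat_lit 2264))],[(k6,(nat_lit 1180)),(k10,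
    (nat_lit 1732)),(k8,(nat_lit 1758)),(k2,(nat_lit 1826)),(k0,(nat_lit 2056)),(k4,(nat_lit 2066))],[(k11,
    (nat_lit 1700)),(k3,(nat_lit 1764)),(k5,(nat_lit 2066)),(k7,(nat_lit 2504)),(k1,(nat_lit 2744)),(k9,
    (nat_lit 3042))],[(k6,(nat_lit 960)),(k10,(nat_lit 960)),(k8,(nat_lit 2040)),(k0,(nat_lit 2066)),(k2,
    (nat_lit 2264)),(k4,(nat_lit 2504))],[(k7,(nat_lit 960)),(k5,(nat_lit 1180)),(k11,(nat_lit 1440)),(k9,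
    (nat_lit 1498)),(k1,(nat_lit 1512)),(k3,(nat_lit 1576))],[(k10,(nat_lit 1186)),(k0,(nat_lit 1248)),(k8,
    (nat_lit 1294)),(k6,(nat_lit 1498)),(k2,(nat_lit 2144)),(k4,(nat_lit 3042))],[(k1,(nat_lit 1236)),(k11,
    (nat_lit 1236)),(k9,(nat_lit 1294)),(k3,(nat_lit 1362)),(k5,(nat_lit 1758)),(k7,(nat_lit 2040))],[(k0,
    (nat_lit 1200)),(k10,(nat_lit 1200)),(k8,(nat_lit 1236)),(k2,(nat_lit 1304)),(k6,(nat_lit 1440)),(k4,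
    (nat_lit 1700))],[(k7,(nat_lit 960)),(k9,(nat_lit 1186)),(k1,(nat_lit 1200)),(k11,(nat_lit 1200)),(k3,
    (nat_lit 1304)),(k5,(nat_lit 1732))]]
    [] k0
    [[k2,k0,k0,k0,k0,k0],[k3,k0,k0,k0,k0,k0],[k2,k1,k0,k0,k0,k0],[k2,k0,k0,k0,k1,k0],[k2,k0,k0,k0,k0,k1],[k1,k1,k0,k0,
    k0,k0],[k1,k2,k0,k0,k0,k0],[k1,k1,k0,k0,k1,k0],[k1,k1,k0,k0,k0,k1],[k1,k0,k0,k1,k0,k0],[k1,k0,k0,k2,k0,k0],[k1,k0,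
    k0,k2,k0,k1],[k1,k0,k0,k1,k0,k1],[k1,k0,k0,k0,k1,k0],[k1,k0,k0,k0,k2,k0],[k1,k0,k0,k0,k1,k1],[k1,k0,k0,k0,k0,k1],
    [k1,k0,k0,k0,k0,k2],[k0,k2,k0,k0,k0,k0],[k0,k3,k0,k0,k0,k0],[k0,k4,k0,k0,k0,k0],[k0,k2,k1,k0,k0,k0],[k0,k2,k0,k0,
    k1,k0],[k0,k2,k0,k0,k0,k1],[k0,k1,k1,k0,k0,k0],[k0,k1,k0,k1,k0,k0],[k0,k1,k0,k1,k0,k1],[k0,k1,k0,k0,k1,k0],[k0,k1,
    k0,k0,k1,k1],[k0,k1,k0,k0,k0,k1],[k0,k1,k0,k0,k0,k2],[k0,k0,k2,k0,k0,k0],[k0,k0,k1,k1,k0,k0],[k0,k0,k1,k2,k0,k0],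
    [k0,k0,k1,k1,k0,k1],[k0,k0,k1,k0,k1,k1],[k0,k0,k1,k0,k0,k1],[k0,k0,k1,k0,k0,k2],[k0,k0,k0,k2,k0,k0],[k0,k0,k0,k3,
    k0,k0],[k0,k0,k0,k4,k0,k0],[k0,k0,k0,k3,k0,k1],[k0,k0,k0,k2,k1,k0],[k0,k0,k0,k2,k0,k1],[k0,k0,k0,k2,k1,k1],[k0,k0,
    k0,k2,k0,k2],[k0,k0,k0,k1,k1,k0],[k0,k0,k0,k1,k1,k1],[k0,k0,k0,k1,k0,k1],[k0,k0,k0,k1,k0,k2],[k0,k0,k0,k0,k2,k0],
    [k0,k0,k0,k0,k3,k0],[k0,k0,k0,k0,k2,k1],[k0,k0,k0,k0,k1,k1],[k0,k0,k0,k0,k1,k2],[k0,k0,k0,k0,k0,k2],[k0,k0,k0,k0,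
    k0,k3]]
    [.contra [z1],.ref k0 k0 [(z1,[y1,z2,y1,z0,z1])],.ref k27 k0 [(z1,[y1,z1,y1,y1,z1]),(z1,[z0,z0,z0,z1]),(z1,[z1,y2,
    z1,y1])],.ref k0 k0 [(z1,[y1,z1,y1,z0,z1])],.ref k3 k2 [(z1,[z1,y1])],.contra [y1,z0,z0,y1,z1],.ref k109 k2 [(z1,
    [z1,z2,z0,z2,y2]),(z1,[z0,y1,z0,y1,z1])],.ref k27 k0 [(z1,[y1,z0,y1,y1,z1]),(z1,[z0,z0,z0,z1]),(z1,[z1,y1,z1,
    y1])],.contra [z1,z1,y1],.contra [y1,z1,y1,y1,z1],.ref k0 k0 [(z1,[z1,z0,z1,z2,y1])],.ref k27 k0 [(z1,[z1,z0,z0,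
    z1,y1]),(z1,[z0,z0,z0,z1]),(z1,[y1,y1,z0,y3,z2])],.contra [y1,z0,z0,y1,z1],.contra [z1,z1],.ref k0 k0 [(z1,[y1,z0,
    y1,z0,z1])],.ref k3 k2 [(z1,[z1])],.contra [y1,z0,z0,y1,z1],.ref k179 k1 [(z1,[z1,y1]),(z1,[z0,z1]),(z1,[y1,y1,z0,
    y2,z2])],.contra [z1],.ref k62 k6 [(z1,[z1]),(z1,[z0,z1,z0,z1])],.ref k198 k2 [(z1,[z0,z1]),(z2,[z1]),(z1,[z0,z0,
    z0,z1])],.ref k109 k3 [(z1,[z1,z2,z0,z2,y2]),(z1,[z0,y1,z0,y1,z1])],.ref k109 k2 [(z1,[z1,z3,z0,z2,y2]),(z1,[z0,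
    y1,z0,y1,z1])],.contra [y1,y1,z1,y1,z1],.contra [y1,z0,z1,z1],.contra [y1,z0,z0,y1,z1],.contra [y1,z0,z0,y1,z1],
    .contra [y1,y1,z0,y1,z1],.contra [z1,z2,y1],.contra [y1,z0,z1,z1],.contra [y1,y1,z1,y1,z1],.contra [y1,z2,z0,z2],
    .ref k0 k0 [(z1,[z1])],.ref k109 k9 [(z1,[z1,z0,z0,z2,y2]),(z1,[z0,z0,z0,y1,z1])],.ref k27 k0 [(z1,[z1,z0,y1,y1]),
    (z1,[z0,z0,z0,z1]),(z1,[y1,y1,z1,y1,z1])],.contra [z1,z0,z0,y1],.contra [y1,z0,z1,z1],.ref k109 k3 [(z1,[y1,z2,z2,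
    z4,y2]),(z1,[z0,y1,z0,y1,z1])],.contra [z1],.ref k0 k0 [(z2,[z1,z1,z1,z3,y1])],.ref k198 k5 [(z1,[z0,y1]),(z2,
    [z1]),(z1,[z0,z1,z0,z1])],.ref k194 k10 [(z1,[y1,y1,z0,y2,z1]),(z1,[z0,z1,z0,z1]),(z1,[z1])],.ref k0 k0 [(z1,[z1,
    z1,z1,z2,y1])],.ref k163 k0 [(z1,[z1,z0,z0,z1,y1]),(z1,[z0,z0,z0,z1])],.ref k27 k0 [(z1,[z1,z1,z0,z1,y1]),(z1,[z0,
    z0,z0,z1]),(z1,[y1,y2,z0,y3,z2])],.ref k189 k5 [(z1,[z0,y1]),(z2,[z1]),(z1,[z0,z1,z0,z1])],.contra [y1,z0,y1,y1,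
    z1],.contra [y1,y1,z0,y1,z1],.contra [y1,z0,z0,y1,z1],.contra [y1,y1,z1,y1,z1],.contra [z1,z2],.ref k0 k0 [(z1,
    [y1,y1,y1,z0,z1])],.ref k3 k2 [(z1,[z1,z1])],.contra [y1,y1,z0,y1,z1],.ref k179 k1 [(z1,[z1]),(z1,[z0,z1]),(z1,
    [y1,y2,z0,y2,z2])],.contra [z1],.ref k173 k2 [(z1,[z0,z1]),(z1,[y1,y3,z0,y3,z3]),(z1,[z0,z0,z0,z1])]]),
    .old (.lp [k188,k90,k188,k118,(nat_lit 262),k112] [k37,k37,k86,k86,k37,k37,k60,k84,k0,k0,k78,k72] k0 [[k0,k0,k70,k0,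
    k0,k0,k0,k0,k0,k0,k8],[k0,k0,k0,k0,k0,k0,k0,k20],[k0,k0,k0,k0,k0,k0,k0,k0,k8],[k0,k70,k0,k0,k0,k14],[k0,k0,k14],
    [k0,k0,k0,k0,k0,k0,k0,k22,k0,k62],[k20,k0,k0,k0,k22],[k0,k0,k0,k0,k0,k0,k0,k0,k0,k154,k0,k78],[k0,k0,k0,k0,k62,k0,
    k154],[k0,k0,k0,k8,k0,k0,k0,k0,k0,k0,k0,k10],[k0,k0,k0,k0,k0,k0,k78,k0,k10],[k0,k8]] (nat_lit 480) k6
    [[(k2,k139),(k10,k147),(k0,k180),(k4,k188),(k8,(nat_lit 235)),(k6,(nat_lit 243))],[(k5,k118),(k3,k139),(k7,k141),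
    (k11,k153),(k1,k180),(k9,(nat_lit 245))],[(k6,k96),(k10,k106),(k0,k139),(k4,k139),(k2,k160),(k8,k176)],[(k11,k96),
    (k7,k106),(k1,k139),(k5,k139),(k3,k160),(k9,k176)],[(k0,k118),(k2,k139),(k10,k147),(k6,k165),(k4,k174),(k8,
    (nat_lit 233))],[(k3,k139),(k7,k141),(k5,k174),(k1,k188),(k11,(nat_lit 215)),(k9,(nat_lit 247))],[(k6,k96),(k10,
    k100),(k2,k106),(k8,k116),(k0,k141),(k4,k141)],[(k3,k96),(k7,k96),(k5,k165),(k9,(nat_lit 202)),(k1,(nat_lit 243)),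
    (k11,(nat_lit 284))],[(k10,k106),(k8,k108),(k2,k176),(k6,(nat_lit 202)),(k0,(nat_lit 245)),(k4,(nat_lit 247))],
    [(k9,k108),(k7,k116),(k3,k176),(k11,k190),(k5,(nat_lit 233)),(k1,(nat_lit 235))],[(k2,k96),(k10,k102),(k0,k153),
    (k8,k190),(k4,(nat_lit 215)),(k6,(nat_lit 284))],[(k7,k100),(k11,k102),(k3,k106),(k9,k106),(k1,k147),(k5,k147)]]
    [] k0
    [[k2,k0,k0,k0,k0,k0],[k2,k1,k0,k0,k0,k0],[k1,k1,k0,k0,k0,k0],[k1,k2,k0,k0,k0,k0],[k1,k1,k1,k0,k0,k0],[k1,k1,k0,k1,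
    k0,k0],[k1,k1,k0,k2,k0,k0],[k1,k1,k0,k0,k0,k1],[k1,k0,k1,k0,k0,k0],[k1,k0,k0,k1,k0,k0],[k1,k0,k0,k0,k0,k1],[k1,k0,
    k0,k0,k0,k2],[k0,k2,k0,k0,k0,k0],[k0,k2,k1,k0,k0,k0],[k0,k2,k0,k1,k0,k0],[k0,k2,k0,k2,k0,k0],[k0,k2,k0,k1,k0,k1],
    [k0,k2,k0,k0,k0,k1],[k0,k2,k0,k0,k0,k2],[k0,k1,k1,k0,k0,k0],[k0,k1,k2,k0,k0,k0],[k0,k1,k1,k1,k0,k0],[k0,k1,k1,k0,
    k0,k1],[k0,k1,k0,k1,k0,k0],[k0,k1,k0,k2,k0,k0],[k0,k1,k1,k2,k0,k0],[k0,k1,k0,k3,k0,k0],[k0,k1,k0,k2,k0,k1],[k0,k1,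
    k0,k1,k1,k0],[k0,k1,k0,k1,k1,k1],[k0,k1,k0,k1,k0,k1],[k0,k1,k0,k1,k0,k2],[k0,k1,k0,k0,k1,k0],[k0,k1,k0,k0,k2,k0],
    [k0,k1,k0,k0,k1,k1],[k0,k1,k0,k0,k0,k1],[k0,k1,k0,k0,k0,k2],[k0,k1,k0,k0,k0,k3],[k0,k0,k2,k0,k0,k0],[k0,k0,k1,k1,
    k0,k0],[k0,k0,k1,k2,k0,k0],[k0,k0,k1,k0,k0,k1],[k0,k0,k1,k0,k0,k2],[k0,k0,k0,k2,k0,k0],[k0,k0,k0,k3,k0,k0],[k0,k0,
    k0,k4,k0,k0],[k0,k0,k0,k2,k1,k0],[k0,k0,k0,k1,k1,k0],[k0,k0,k0,k1,k2,k0],[k0,k0,k0,k1,k0,k1],[k0,k0,k0,k0,k2,k0],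
    [k0,k0,k0,k0,k3,k0],[k0,k0,k0,k0,k4,k0],[k0,k0,k0,k0,k2,k1],[k0,k0,k0,k0,k1,k1],[k0,k0,k0,k0,k1,k2],[k0,k0,k0,k0,
    k0,k2],[k0,k0,k0,k0,k0,k3],[k0,k0,k0,k0,k0,k4]]
    [.contra [z1],.ref k1 k4 [(z3,[z3,y3,y1,y1,z3])],.contra [y3,z1,z1],.ref k1 k4 [(z6,[z3,y3,y2,y2,z6])],
    .ref k1 k4 [(z3,[z3,y2,y1,y2,z3])],.contra [y3,z1,z1],.ref k27 k7 [(z3,[z3,y1,y1]),(z3,[z0,y1,y1,z0,z3]),(z3,[y3,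
    z2,z3,z1,y3])],.contra [y3,z1,z1],.contra [z3,z1,z0,y1],.contra [y3,z1,z1],.contra [y3,z1,z1],.ref k0 k1 [(z6,[z3,
    y3,y2,y2,z6])],.contra [z1],.ref k1 k4 [(z6,[z3,y2,y2,y3,z6])],.ref k186 k6 [(z3,[z3,y1,y1]),(z3,[z0,y1,z0,z1]),
    (z3,[y3,z2,z2])],.ref k109 k4 [(z3,[y3,y1,y1,y3,z3]),(z3,[z0,z0,z1,z1])],.ref k1 k4 [(z3,[z3,y1,y2,y1,z3])],
    .ref k186 k10 [(z3,[z3,z0,y1,y1]),(z3,[z0,z1,z0,y1]),(z3,[y3,z0,z2,z2])],.ref k109 k5 [(z3,[y3,y3,y1,y1,z3]),(z3,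
    [z0,z1,z1])],.contra [y3,z0,z1,z1],.ref k1 k4 [(z3,[z3,y1,y1,y3,z3])],.contra [y3,z0,z1,z1],.contra [y3,z0,z1,z1],
    .contra [y3,z1,z1],.ref k163 k7 [(z3,[z3,y1,y1]),(z3,[z0,y1,y1,z0,z3])],.ref k27 k7 [(z3,[z3,z0,y1,y1]),(z3,[z0,
    y1,y1,z0,z3]),(z3,[y3,z1,z3,z2,y3])],.ref k194 k1 [(z3,[y3,z1,z2,z1,y3]),(z3,[z0,z0,y1,y1,z3]),(z1,[z1])],
    .ref k0 k4 [(z3,[z3,y1,y2,y1,z3])],.ref k0 k1 [(z3,[y3,y2,y1,y2,z6])],.contra [y3,z1,z0,y1,z3],.contra [z3,z2,y1],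
    .ref k0 k1 [(z3,[z3,y1,y2,y1,z3])],.ref k1 k4 [(z1,[z1])],.contra [z3,z3,z2,z2,y6],.ref k0 k4 [(z3,[y3,y2,y1,y2,
    z6])],.contra [y3,z1,z1],.ref k163 k1 [(z3,[z3,z0,y1,y1]),(z3,[z0,z0,y1,y1,z3])],.ref k194 k7 [(z3,[y3,z1,z2,z1,
    y3]),(z3,[z0,y1,y1,z0,z3]),(z1,[z1])],.contra [z3,z2,z0,y2],.contra [y3,z0,z1,z1],.ref k0 k4 [(z6,[z3,y2,y2,y3,
    z6])],.contra [y3,z0,z1,z1],.ref k0 k1 [(z6,[z3,y2,y2,y3,z6])],.contra [z1],.ref k0 k4 [(z3,[z1,y1,y1,y1,z3])],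
    .ref k198 k9 [(z3,[z0,y1,z0,z1]),(z2,[z1]),(z3,[z0,z0,y1,y1,z3])],.ref k109 k5 [(z3,[z3,y2,y2]),(z3,[z0,z1,z1])],
    .ref k0 k4 [(z1,[z1])],.contra [z3,z3,z2,z2,y6],.contra [y3,z1,z1],.contra [y3,z0,y2,y2,z6],.contra [y1,z1,y1,y1,
    z3],.contra [y3,z6,y4,y4,z12],.contra [z3,z3,z2,z2,y6],.ref k0 k1 [(z1,[z1])],.ref k109 k4 [(z3,[z3,z0,y2,y2]),
    (z3,[z0,z0,z1,z1])],.contra [z1],.ref k0 k1 [(z3,[z1,y1,y1,y1,z3])],.ref k198 k8 [(z3,[z0,z1,z0,y1]),(z2,[z1]),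
    (z3,[z0,y1,y1,z0,z3])]]),
    .old (.lp [(nat_lit 5038),(nat_lit 3364),(nat_lit 6966),(nat_lit 3828),(nat_lit 5024),(nat_lit 2632)] [(nat_lit 964),
    (nat_lit 964),(nat_lit 1801),(nat_lit 1801),k0,k0,(nat_lit 2139),(nat_lit 999),(nat_lit 971),(nat_lit 971),
    (nat_lit 2167),(nat_lit 2167)] k0 [[k0,k0,k0,k0,k0,k0,k0,k0,k14,k0,(nat_lit 1674)],[k0,k0,k0,(nat_lit 324),k0,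
    (nat_lit 1210)],[(nat_lit 324),k0,k0,k0,k0,k0,k0,k0,(nat_lit 310)],[k0,k0,k0,k0,k0,(nat_lit 1716),k0,
    (nat_lit 1224)],[(nat_lit 1210),k0,(nat_lit 1716)],[k0,k0,k0,k0,k0,k0,k0,(nat_lit 1140),k0,k0,k0,(nat_lit 1112)],
    [k0,k0,(nat_lit 1224),k0,(nat_lit 1140)],[k0,k0,k0,k0,k0,k0,k0,k0,k0,(nat_lit 436)],[k0,k0,k0,k0,k0,k0,
    (nat_lit 436),k0,k0,k0,(nat_lit 1210)],[k0,k14,k0,(nat_lit 310)],[k0,k0,k0,k0,(nat_lit 1112)],[k0,(nat_lit 1674),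
    k0,k0,k0,k0,k0,k0,k0,(nat_lit 1210)]] (nat_lit 13440) k6
    [[(k0,(nat_lit 3364)),(k8,(nat_lit 3821)),(k10,(nat_lit 3835)),(k6,(nat_lit 3863)),(k2,(nat_lit 4201)),(k4,
    (nat_lit 7114))],[(k1,(nat_lit 3364)),(k11,(nat_lit 3821)),(k3,(nat_lit 4201)),(k9,(nat_lit 5031)),(k7,
    (nat_lit 6213)),(k5,(nat_lit 6326))],[(k6,(nat_lit 3026)),(k2,(nat_lit 3040)),(k4,(nat_lit 3955)),(k0,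
    (nat_lit 4201)),(k8,(nat_lit 4208)),(k10,(nat_lit 4672))],[(k11,(nat_lit 2688)),(k3,(nat_lit 3040)),(k1,
    (nat_lit 4201)),(k5,(nat_lit 5165)),(k9,(nat_lit 5418)),(k7,(nat_lit 5882))],[(k6,(nat_lit 3603)),(k10,
    (nat_lit 4799)),(k2,(nat_lit 5165)),(k4,(nat_lit 5250)),(k8,(nat_lit 6305)),(k0,(nat_lit 6326))],[(k3,
    (nat_lit 3955)),(k11,(nat_lit 4799)),(k5,(nat_lit 5250)),(k7,(nat_lit 5967)),(k1,(nat_lit 7114)),(k9,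
    (nat_lit 7135))],[(k6,(nat_lit 2688)),(k10,(nat_lit 2688)),(k8,(nat_lit 4996)),(k2,(nat_lit 5882)),(k4,
    (nat_lit 5967)),(k0,(nat_lit 6213))],[(k7,(nat_lit 2688)),(k3,(nat_lit 3026)),(k11,(nat_lit 3096)),(k5,
    (nat_lit 3603)),(k9,(nat_lit 3856)),(k1,(nat_lit 3863))],[(k10,(nat_lit 3828)),(k6,(nat_lit 3856)),(k8,
    (nat_lit 4588)),(k0,(nat_lit 5031)),(k2,(nat_lit 5418)),(k4,(nat_lit 7135))],[(k1,(nat_lit 3821)),(k11,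
    (nat_lit 3828)),(k3,(nat_lit 4208)),(k9,(nat_lit 4588)),(k7,(nat_lit 4996)),(k5,(nat_lit 6305))],[(k2,
    (nat_lit 2688)),(k6,(nat_lit 3096)),(k0,(nat_lit 3821)),(k8,(nat_lit 3828)),(k10,(nat_lit 3842)),(k4,
    (nat_lit 4799))],[(k7,(nat_lit 2688)),(k9,(nat_lit 3828)),(k1,(nat_lit 3835)),(k11,(nat_lit 3842)),(k3,
    (nat_lit 4672)),(k5,(nat_lit 4799))]]
    [] k0
    [[k2,k0,k0,k0,k0,k0],[k3,k0,k0,k0,k0,k0],[k2,k1,k0,k0,k0,k0],[k2,k0,k0,k0,k1,k0],[k2,k0,k0,k0,k0,k1],[k1,k1,k0,k0,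
    k0,k0],[k1,k2,k0,k0,k0,k0],[k1,k1,k0,k0,k0,k1],[k1,k0,k0,k1,k0,k0],[k1,k0,k0,k2,k0,k0],[k1,k0,k0,k2,k0,k1],[k1,k0,
    k0,k1,k0,k1],[k1,k0,k0,k0,k1,k0],[k1,k0,k0,k0,k1,k1],[k1,k0,k0,k0,k0,k1],[k1,k0,k0,k0,k0,k2],[k0,k2,k0,k0,k0,k0],
    [k0,k3,k0,k0,k0,k0],[k0,k4,k0,k0,k0,k0],[k0,k2,k1,k0,k0,k0],[k0,k2,k0,k1,k0,k0],[k0,k2,k0,k1,k0,k1],[k0,k2,k0,k0,
    k1,k0],[k0,k2,k0,k0,k0,k1],[k0,k1,k1,k0,k0,k0],[k0,k1,k1,k1,k0,k1],[k0,k1,k1,k0,k0,k1],[k0,k1,k0,k1,k0,k0],[k0,k1,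
    k0,k2,k0,k0],[k0,k1,k0,k2,k0,k1],[k0,k1,k0,k1,k0,k1],[k0,k1,k0,k1,k0,k2],[k0,k1,k0,k0,k1,k0],[k0,k1,k0,k0,k1,k1],
    [k0,k1,k0,k0,k0,k1],[k0,k1,k0,k0,k0,k2],[k0,k0,k2,k0,k0,k0],[k0,k0,k1,k1,k0,k0],[k0,k0,k1,k2,k0,k0],[k0,k0,k1,k1,
    k0,k1],[k0,k0,k1,k0,k0,k1],[k0,k0,k0,k2,k0,k0],[k0,k0,k0,k3,k0,k0],[k0,k0,k0,k4,k0,k0],[k0,k0,k0,k3,k0,k1],[k0,k0,
    k0,k2,k1,k0],[k0,k0,k0,k2,k0,k1],[k0,k0,k0,k2,k1,k1],[k0,k0,k0,k2,k0,k2],[k0,k0,k0,k1,k1,k0],[k0,k0,k0,k1,k1,k1],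
    [k0,k0,k0,k1,k0,k1],[k0,k0,k0,k1,k0,k2],[k0,k0,k0,k0,k2,k0],[k0,k0,k0,k0,k2,k1],[k0,k0,k0,k0,k1,k1],[k0,k0,k0,k0,
    k1,k2],[k0,k0,k0,k0,k0,k2],[k0,k0,k0,k0,k0,k3]]
    [.contra [z1],.ref (nat_lit 200) k4 [(z1,[z1,y3]),(z1,[y1,z3,z3]),(z1,[z1])],.ref k199 k5 [(z1,[z0,y1]),(z1,[y1,
    z1,z1]),(z1,[z0,z0,y1,z1])],.ref (nat_lit 200) k4 [(z1,[z1,y2]),(z1,[y1,z2,z3]),(z1,[z1,z1])],.ref k3 k2 [(z1,[z1,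
    y1])],.contra [y1,z1,z1],.ref k109 k2 [(z1,[z1,z0,y2]),(z1,[z0,z0,z1])],.contra [y1,z1,z1],.contra [y1,z1,z1],
    .ref k109 k5 [(z1,[z1,y3,y2]),(z1,[z0,z1,z1])],.ref k27 k0 [(z1,[z1,y1,y1]),(z1,[z0,y1,y1,z1]),(z1,[y1,z2,z3,
    y1])],.contra [y1,z1,z1],.contra [z1,z1],.ref k3 k2 [(z1,[z1])],.contra [y1,z1,z1],.ref k179 k1 [(z1,[z1,y1]),(z1,
    [z0,z1]),(z1,[y1,z1,z2])],.contra [z1],.ref k62 k6 [(z1,[z1]),(z1,[z0,z0,y1,z1])],.ref k198 k2 [(z1,[z0,z1]),(z2,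
    [z1]),(z1,[z0,y1,y1,z1])],.ref k109 k3 [(z1,[z1,z0,y2]),(z1,[z0,z0,z1])],.ref k163 k6 [(z1,[z1,z0,y1]),(z1,[z0,z0,
    y1,z1])],.ref k0 k9 [(z1,[z1,y1,y2,z1])],.ref k109 k2 [(z1,[z1,z1,y2]),(z1,[z0,z0,z1])],.ref k163 k10 [(z1,[z1,z0,
    y1]),(z1,[z0,z0,y1,z1])],.ref k0 k9 [(z1,[z1])],.contra [y1,z1,z0,z1],.ref k199 k2 [(z1,[z0,z1]),(z1,[z1,z1,z1,
    y1]),(z1,[z0,y1,y1,z1])],.contra [y1,z1,z1],.ref k163 k7 [(z1,[z1,y1,y1]),(z1,[z0,y1,y1,z1])],.ref k0 k0 [(z1,[z1,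
    y1,y2,z1])],.contra [y1,z1,z1],.ref k1 k1 [(z1,[z1,y1,y2,z1])],.contra [y1,z0,z1],.contra [y1,z0,z1],.contra [y1,
    z1,z1],.ref k186 k1 [(z1,[z1,z0,y1]),(z1,[z0,z1]),(z1,[y1,z0,z2])],.contra [y1,z0,y2,z2],.ref k0 k0 [(z1,[z1])],
    .ref k109 k9 [(z1,[z1,y2,y2]),(z1,[z0,z1,z1])],.ref k199 k5 [(z1,[z0,y1]),(z1,[z1,z0,z1,y1]),(z1,[z0,z0,y1,z1])],
    .ref k1 k1 [(z1,[z1])],.contra [z1],.ref k62 k0 [(z1,[z1]),(z1,[z0,y1,y1,z1])],.ref k198 k5 [(z1,[z0,y1]),(z2,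
    [z1]),(z1,[z0,z0,y1,z1])],.ref k194 k10 [(z1,[y1,z1,z2,y1]),(z1,[z0,z0,y1,z1]),(z1,[z1])],.ref k109 k5 [(z1,[z1,
    y2,y2]),(z1,[z0,z1,z1])],.ref k163 k0 [(z1,[z1,y1,y1]),(z1,[z0,y1,y1,z1])],.ref k27 k0 [(z1,[z1,z0,y1]),(z1,[z0,
    y1,y1,z1]),(z1,[y1,z1,z3,y1])],.ref k189 k5 [(z1,[z0,y1]),(z2,[z1]),(z1,[z0,z0,y1,z1])],.contra [y1,z0,z1],
    .contra [y1,z0,z1],.contra [y1,z1,z1],.ref k186 k11 [(z1,[z1,y1,y1]),(z1,[z0,y1]),(z1,[y1,z2,z2])],.contra [z1,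
    z2],.ref k3 k2 [(z1,[z1,z1])],.contra [y1,z0,z1],.ref k179 k1 [(z1,[z1]),(z1,[z0,z1]),(z1,[y1,z0,z2])],
    .contra [z1],.ref k173 k2 [(z1,[z0,z1]),(z1,[y1,z0,z3]),(z1,[z0,y1,y1,z1])]]),
    .geo true z2 k5 [(y1,z2),(z3,y2),(z1,z0),(z1,z2),(z4,y4),(z0,z2)] [(z1,[z1]),(z1,[z0,z1]),(z1,[z0,z0,z1]),(z1,[z0,z0,
    z0,z1]),(z1,[y1,y1,y1,y1,z2]),(z1,
    [])] (Int.ofNat (nat_lit 524288)) (Int.ofNat (nat_lit 1048576)) (.s (.l k1) (.s (.l k1) (.l k2))) [⟨z1,z1,[[k0,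
    k2],[k1,k4],[k3,k5]],.bnd k4⟩],
    .geo true z5 k5 [(y2,z5),(z8,y5),(z2,z0),(z2,z5),(z10,y10),(z0,z5)] [(z1,[z1]),(z1,[z0,z1]),(z1,[z0,z0,z1]),(z1,[z0,
    z0,z0,z1]),(z1,[y1,y1,y1,y1,z5]),(z1,
    [])] (Int.ofNat (nat_lit 419430)) (Int.ofNat (nat_lit 1048576)) (.s (.l k1) (.s (.l k1) (.s (.l k1) (.l k1)))) [],
    .geo true z1 k5 [(z0,z4),(z2,y6),(z0,z3),(z0,z2),(z2,y4),(z0,z1)] [(z1,[z1]),(z1,[z0,z1]),(z1,[z0,z0,z1]),(z1,[z0,z0,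
    z0,z1]),(z1,[y1,y1,y1,y1,z1]),(z1,
    [])] z0 (Int.ofNat (nat_lit 349526)) (.s (.s (.s (.s (.l k2) (.l k1)) (.l k1)) (.l k1)) (.s (.s (.l k1) (.l k1)) (.s (.l k1) (.l k1)))) [⟨z0,
    z1,[[k0,k1],[k2,k3],[k4,k5]],.bnd k0⟩],
    .geo true z3 k5 [(z2,z6),(z2,y6),(z2,z3),(z2,z0),(z4,y6),(z0,z3)] [(z1,[z1]),(z1,[z0,z1]),(z1,[z0,z0,z1]),(z1,[z0,z0,
    z0,z1]),(z1,[y1,y1,y1,y1,z3]),(z1,[])] z0 (Int.ofNat (nat_lit 349526)) (.s (.l k1) (.l k1)) [],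
    .geo true z3 k5 [(y2,z3),(z2,z0),(z2,z0),(z6,y3),(z4,y3),(z0,z3)] [(z1,[z1]),(z1,[z0,z1]),(z1,[z0,z0,z1]),(z1,[z0,z0,
    z0,z3]),(z1,[y1,y1,y1,y3,z3]),(z1,
    [])] (Int.ofNat (nat_lit 699050)) (Int.ofNat (nat_lit 1398102)) (.s (.l k1) (.s (.l k1) (.l k1))) [],
    .geo true z3 k4 [(y2,z6),(z4,y3),(z4,y6),(z2,z0),(z0,z3),(z4,z0)] [(z1,[z1]),(z1,[z0,z1]),(z1,[z0,z0,z1]),(z1,[z0,z0,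
    z0,z1]),(z1,[]),(z1,[y1,y1,y1,y1,
    z3])] (Int.ofNat (nat_lit 349525)) (Int.ofNat (nat_lit 699051)) (.s (.s (.s (.l k1) (.l k1)) (.l k1)) (.l k1)) [],
    .old (.lp [(nat_lit 276),(nat_lit 418),(nat_lit 242),(nat_lit 326),(nat_lit 214),(nat_lit 442)] [k136,k30,k12,k12,
    k100,k100,k58,k58,k114,k114,k0,k0] k0 [[k0,k0,k0,k0,k60],[k0,k0,k0,k0,k0,k0,k0,k0,k0,k0,k0,k142],[k0,k0,k0,k0,k0,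
    k0,k0,k0,k62,k0,k152],[k0,k0,k0,k0,k0,k2,k0,k2],[k0,k0,k2,k0,k0,k0,k0,k0,k0,k0,k152],[k0,k60,k0,k0,k0,k0,k0,k6],
    [k0,k0,k2,k0,k6],[k0,k0,k0,k0,k0,k0,k0,k0,k0,k40],[k0,k0,k0,k0,k0,k0,k40],[k0,k0,k0,k62,k0,k0,k0,k0,k0,k0,k0,
    k122],[k142,k0,k0,k0,k0,k0,k0,k0,k122],[k0,k0,k0,k152,k0,k152]] (nat_lit 960) k7
    [[(k4,k160),(k2,(nat_lit 248)),(k6,(nat_lit 354)),(k10,(nat_lit 412)),(k0,(nat_lit 418)),(k8,(nat_lit 420))],[(k7,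
    k188),(k9,k192),(k5,(nat_lit 206)),(k3,(nat_lit 294)),(k11,(nat_lit 306)),(k1,(nat_lit 418))],[(k10,
    (nat_lit 288)),(k0,(nat_lit 294)),(k8,(nat_lit 316)),(k6,(nat_lit 372)),(k4,(nat_lit 390)),(k2,(nat_lit 418))],
    [(k1,(nat_lit 248)),(k9,(nat_lit 318)),(k5,(nat_lit 330)),(k11,(nat_lit 368)),(k7,(nat_lit 374)),(k3,
    (nat_lit 418))],[(k0,(nat_lit 206)),(k4,(nat_lit 240)),(k6,(nat_lit 282)),(k8,(nat_lit 290)),(k2,(nat_lit 330)),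
    (k10,(nat_lit 494))],[(k1,k160),(k9,(nat_lit 234)),(k5,(nat_lit 240)),(k7,(nat_lit 284)),(k11,(nat_lit 342)),(k3,
    (nat_lit 390))],[(k0,k188),(k8,(nat_lit 270)),(k4,(nat_lit 284)),(k6,(nat_lit 320)),(k2,(nat_lit 374)),(k10,
    (nat_lit 536))],[(k9,(nat_lit 270)),(k5,(nat_lit 282)),(k7,(nat_lit 320)),(k1,(nat_lit 354)),(k3,(nat_lit 372)),
    (k11,(nat_lit 424))],[(k8,k174),(k0,k192),(k4,(nat_lit 234)),(k6,(nat_lit 270)),(k2,(nat_lit 318)),(k10,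
    (nat_lit 328))],[(k9,k174),(k7,(nat_lit 270)),(k5,(nat_lit 290)),(k3,(nat_lit 316)),(k11,(nat_lit 328)),(k1,
    (nat_lit 420))],[(k0,(nat_lit 306)),(k10,(nat_lit 320)),(k8,(nat_lit 328)),(k4,(nat_lit 342)),(k2,(nat_lit 368)),
    (k6,(nat_lit 424))],[(k3,(nat_lit 288)),(k11,(nat_lit 320)),(k9,(nat_lit 328)),(k1,(nat_lit 412)),(k5,
    (nat_lit 494)),(k7,(nat_lit 536))]]
    [] k0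
    [[k2,k0,k0,k0,k0,k0],[k2,k0,k1,k0,k0,k0],[k1,k1,k0,k0,k0,k0],[k2,k1,k1,k0,k0,k0],[k1,k1,k1,k0,k0,k0],[k1,k1,k0,k1,
    k0,k0],[k1,k1,k0,k0,k1,k0],[k1,k1,k0,k0,k2,k0],[k1,k1,k0,k0,k0,k1],[k1,k0,k1,k0,k0,k0],[k2,k0,k2,k0,k0,k0],[k2,k0,
    k1,k1,k0,k0],[k1,k0,k2,k0,k0,k0],[k1,k0,k3,k0,k0,k0],[k1,k0,k2,k1,k0,k0],[k1,k0,k2,k0,k1,k0],[k1,k0,k1,k1,k0,k0],
    [k1,k0,k1,k2,k0,k0],[k1,k0,k1,k1,k1,k0],[k1,k0,k1,k0,k1,k0],[k1,k0,k1,k0,k2,k0],[k1,k0,k0,k1,k0,k0],[k1,k0,k0,k2,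
    k0,k0],[k1,k0,k0,k1,k1,k0],[k1,k0,k0,k0,k1,k0],[k1,k0,k0,k0,k2,k0],[k1,k0,k0,k0,k0,k1],[k1,k0,k0,k0,k1,k1],[k0,k2,
    k0,k0,k0,k0],[k0,k1,k1,k0,k0,k0],[k0,k1,k0,k1,k0,k0],[k0,k1,k0,k0,k1,k0],[k0,k1,k1,k0,k1,k0],[k0,k1,k0,k0,k2,k0],
    [k0,k1,k0,k0,k0,k1],[k0,k1,k0,k0,k1,k1],[k0,k0,k2,k0,k0,k0],[k0,k0,k3,k0,k0,k0],[k0,k0,k2,k1,k0,k0],[k0,k0,k2,k0,
    k1,k0],[k0,k0,k2,k0,k2,k0],[k0,k0,k1,k1,k0,k0],[k0,k0,k1,k2,k0,k0],[k0,k0,k1,k1,k1,k0],[k0,k0,k1,k0,k1,k0],[k0,k0,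
    k1,k0,k2,k0],[k0,k0,k1,k0,k3,k0],[k0,k0,k1,k0,k0,k1],[k0,k0,k0,k2,k0,k0],[k0,k0,k0,k2,k1,k0],[k0,k0,k0,k1,k1,k0],
    [k0,k0,k0,k1,k2,k0],[k0,k0,k0,k1,k3,k0],[k0,k0,k0,k0,k2,k0],[k0,k0,k0,k0,k3,k0],[k0,k0,k0,k0,k4,k0],[k0,k0,k0,k0,
    k5,k0],[k0,k0,k0,k0,k2,k1],[k0,k0,k0,k0,k1,k1],[k0,k0,k0,k0,k0,k2]]
    [.contra [z1],.ref k1 k2 [(z1,[z1,y2,y1,y2,z1])],.contra [y1,z1,z2],.ref (nat_lit 201) k0 [(z1,[z1,y3,y3,y2,z1]),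
    (z1,[z0,z1,z1,z1])],.contra [y1,z1,z1,z1],.ref (nat_lit 201) k0 [(z1,[z1,y1,y2]),(z1,[z0,z1,z1,z1])],.contra [y1,
    z1,z1,z1],.ref k3 k2 [(z1,[z1,z0,y1])],.contra [z1,y1,y1],.contra [y1,z1,z1,z1],.contra [z1,y4,y2,y4,z2],
    .ref (nat_lit 201) k0 [(z2,[z1,y3,y3,y2,z1]),(z1,[z0,z1,z1,z1])],.contra [y1,z1,z0,z2],.ref (nat_lit 204) k1 [(z1,
    [z1,y1,z0,y3]),(z1,[y2,z3,z0,z6]),(z1,[z1,y1,z1,y3]),(z1,[z1,y1,z0,y2])],.ref k109 k11 [(z1,[y1,y2,y3,y1,z1]),(z1,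
    [z0,z1,z1,z1])],.contra [y1,z1,z0,z2],.contra [z1,y2,y1,y2,z1],.ref (nat_lit 207) k2 [(z1,[z2,z5,z4,z2,y4]),(z1,
    [y1,y1,z1,y1,z2]),(z1,[y1,y1,y2,z2,z2]),(z1,[z1,y2,y1,y2,z1])],.ref (nat_lit 201) k0 [(z1,[z1,y1,y1,y1]),(z1,[z0,
    z1,z1,z1])],.contra [y1,z1,z1,z1],.contra [y1,z1,z0,z2],.ref k1 k2 [(z1,[z1])],.ref (nat_lit 201) k0 [(z2,[z1,y1,
    y2]),(z1,[z0,z1,z1,z1])],.ref (nat_lit 206) k3 [(z1,[y2,z3,z1,z4,y1]),(z1,[y1,z0,z2,y1,z1]),(z1,[z2,z3,z2,z2,y2]),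
    (z1,[z0,y1,y1,y1,z1])],.contra [y1,z1,z1,z1],.contra [y1,z1,z0,z2],.contra [y1,z1,z0,z1],.ref k3 k2 [(z1,[z1])],
    .contra [z1],.contra [y1,z1,z1,z1],.contra [y1,y1,z0,y1,z1],.contra [y1,z1,z1,z1],.contra [z1,z0,z1,y1],
    .ref k0 k1 [(z1,[z1,z0,y1])],.ref (nat_lit 201) k0 [(z1,[y1,y1,y1,y1,z1]),(z1,[z0,z1,z1,z1])],.contra [y1,y2,y1,
    y2,z2],.contra [z1],.ref (nat_lit 205) k1 [(z1,[z1,z0,z0,y3]),(z1,[y2,z3,z0,z6]),(z1,[z1,z0,z3,y3]),(z1,[z1])],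
    .ref (nat_lit 204) k1 [(z1,[z1,z1,z1,y1,y1]),(z1,[y2,y1,y2,z2,z2]),(z1,[z1,z1,z2,y1,y1]),(z1,[z1,z1,z1,z0,y1])],
    .contra [y1,z1,z0,z2],.contra [z1,z0,z2,y2],.contra [y1,y1,y1,z0,z1],.ref k109 k11 [(z1,[y1,y4,y4,y3,z2]),(z1,[z0,
    z1,z1,z1])],.contra [y1,y1,y1,z0,z1],.contra [y1,z1,z1,z1],.contra [y1,z1,z0,z2],.ref k0 k1 [(z1,[z1,z0,z0,y1])],
    .contra [z1,z0,z2,y1],.contra [z1],.ref (nat_lit 201) k0 [(z1,[z1,z1,z0,z1,y1]),(z1,[z0,z1,z1,z1])],.contra [y1,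
    y1,z0,y1,z1],.contra [y1,y1,y1,z0,z1],.ref k3 k2 [(z1,[z1,z2,z1,z1,y1])],.contra [z1],.ref k62 k4 [(z1,[z1]),(z1,
    [z0,y1,y1,y1,z1])],.ref (nat_lit 202) k9 [(z2,[y1,z0,y4,z4]),(z2,[y1,y4,z0,y4,z4]),(z2,[z1]),(z2,[z1,z0,y4])],
    .ref (nat_lit 203) k9 [(z1,[y1,z0,y5,z5]),(z1,[y1,y5,z0,y5,z5]),(z1,[z1]),(z1,[z1,z0,y5])],.ref k109 k11 [(z1,[z1,
    y2,y2,y2]),(z1,[z0,z1,z1,z1])],.ref k0 k1 [(z1,[z1])],.contra [y1,y2,y2,y2,z2]]),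
    .geo true z3 k5 [(y4,z3),(z6,y3),(y2,z3),(z10,y6),(z2,z0),(z0,z3)] [(z1,[z1]),(z1,[z0,z3]),(z1,[z0,z0,z1]),(z1,[z0,z0,
    z0,z1]),(z1,[y1,y3,y1,y1,z3]),(z1,
    [])] (Int.ofNat (nat_lit 1398101)) (Int.ofNat (nat_lit 1747627)) (.s (.l k1) (.l k1)) []]

noncomputable def cU6_3_n2_4 : List XN :=
  [.geo true z1 k5 [(y2,z6),(z2,y3),(z0,z2),(z2,y4),(z2,y2),(z0,z1)] [(z1,[z1]),(z1,[z0,z1]),(z1,[z0,z0,z1]),(z1,[z0,z0,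
    z0,z1]),(z1,[y1,y1,y1,y1,z1]),(z1,
    [])] (Int.ofNat (nat_lit 349525)) (Int.ofNat (nat_lit 524288)) (.s (.s (.l k1) (.l k1)) (.s (.l k1) (.l k1))) [],
    .geo true z2 k5 [(z1,z4),(z1,z0),(z3,y4),(z1,z2),(z2,y4),(z0,z2)] [(z1,[z1]),(z1,[z0,z1]),(z1,[z0,z0,z1]),(z1,[z0,z0,
    z0,z1]),(z1,[y1,y1,y1,y1,z2]),(z1,[])] z0 (Int.ofNat (nat_lit 524288)) (.s (.l k1) (.l k1)) []]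

/-- the nodes with numbers from 162 -/
noncomputable def cU6_3_n2 : List XN :=
  cU6_3_n2_0 ++ (cU6_3_n2_1 ++ (cU6_3_n2_2 ++ (cU6_3_n2_3 ++ cU6_3_n2_4)))

theorem cU6_3_k2 : allI (chkX 6 cU6_3_w ttU6 cU6_3_s (blkF [] cU6_3_D)) cU6_3_n2 162 = true := by
  decide +kernel

end Pool.Agent.Lib_MP_fa6e45
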