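import Pool.Agent.Lib_MP_fa6e45.CY6_2d

/-!
MP_fa6e45_co, stage 7: certificates (generated by a program).
-/

namespace Pool.Agent.Lib_MP_fa6e45

noncomputable def cU6_3_n3_0 : List XN :=
  [.old (.lp [(nat_lit 256),(nat_lit 358),(nat_lit 248),(nat_lit 342),(nat_lit 346),(nat_lit 366)] [k100,k100,k49,k49,
    k116,k92,k57,k57,k0,k110,k45,k45] k0 [[k0,k0,k0,k0,k0,k0,k0,k0,k0,k0,k64],[k0,k0,k0,k0,k0,k4],[k0,k0,k0,k0,k21,k0,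
    k28],[k0,k0,k0,k0,k0,k0,k0,k0,k0,k172],[k4,k0,k0,k0,k0,k0,k0,k0,k0,k0,k48],[k0,k0,k0,k21,k0,k0,k0,k0,k0,k197],[k0,
    k0,k0,k0,k0,k0,k0,k0,k134],[k0,k0,k0,k28,k0,k0,k0,k0,k0,k0,k0,k25],[k0,k0,k172,k0,k197],[k0,k0,k0,k0,k0,k0,k0,
    k134,k0,k0,k0,k28],[k0,k0,k0,k0,k0,k0,k25,k0,k28],[k0,k64,k0,k0,k0,k48]] (nat_lit 960) k6
    [[(k0,k192),(k4,k192),(k2,(nat_lit 307)),(k10,(nat_lit 311)),(k6,(nat_lit 324)),(k8,(nat_lit 384))],[(k1,k192),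
    (k9,(nat_lit 246)),(k5,(nat_lit 264)),(k7,(nat_lit 303)),(k3,(nat_lit 307)),(k11,(nat_lit 311))],[(k4,
    (nat_lit 287)),(k0,(nat_lit 307)),(k6,(nat_lit 350)),(k2,(nat_lit 358)),(k8,(nat_lit 407)),(k10,(nat_lit 426))],
    [(k9,(nat_lit 269)),(k1,(nat_lit 307)),(k5,(nat_lit 315)),(k7,(nat_lit 329)),(k3,(nat_lit 358)),(k11,
    (nat_lit 534))],[(k8,k192),(k0,(nat_lit 264)),(k4,(nat_lit 269)),(k2,(nat_lit 315)),(k10,(nat_lit 319)),(k6,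
    (nat_lit 335))],[(k1,k192),(k9,(nat_lit 230)),(k5,(nat_lit 269)),(k7,(nat_lit 283)),(k3,(nat_lit 287)),(k11,
    (nat_lit 492))],[(k8,(nat_lit 202)),(k4,(nat_lit 283)),(k0,(nat_lit 303)),(k2,(nat_lit 329)),(k6,(nat_lit 342)),
    (k10,(nat_lit 402))],[(k11,(nat_lit 220)),(k9,(nat_lit 289)),(k1,(nat_lit 324)),(k5,(nat_lit 335)),(k7,
    (nat_lit 342)),(k3,(nat_lit 350))],[(k4,(nat_lit 230)),(k0,(nat_lit 246)),(k2,(nat_lit 269)),(k10,(nat_lit 276)),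
    (k6,(nat_lit 289)),(k8,(nat_lit 480))],[(k5,k192),(k7,(nat_lit 202)),(k1,(nat_lit 384)),(k3,(nat_lit 407)),(k11,
    (nat_lit 411)),(k9,(nat_lit 480))],[(k6,(nat_lit 220)),(k0,(nat_lit 311)),(k10,(nat_lit 338)),(k8,(nat_lit 411)),
    (k4,(nat_lit 492)),(k2,(nat_lit 534))],[(k9,(nat_lit 276)),(k1,(nat_lit 311)),(k5,(nat_lit 319)),(k11,
    (nat_lit 338)),(k7,(nat_lit 402)),(k3,(nat_lit 426))]]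
    [] k0
    [[k2,k0,k0,k0,k0,k0],[k3,k0,k0,k0,k0,k0],[k4,k0,k0,k0,k0,k0],[k3,k0,k1,k0,k0,k0],[k2,k1,k0,k0,k0,k0],[k2,k0,k1,k0,
    k0,k0],[k2,k0,k2,k0,k0,k0],[k2,k0,k1,k0,k1,k0],[k2,k0,k0,k1,k0,k0],[k2,k0,k0,k0,k1,k0],[k2,k0,k0,k0,k0,k1],[k1,k1,
    k0,k0,k0,k0],[k1,k1,k1,k0,k0,k0],[k1,k0,k1,k0,k0,k0],[k1,k0,k2,k0,k0,k0],[k1,k0,k2,k0,k1,k0],[k1,k0,k1,k1,k0,k0],
    [k1,k0,k1,k0,k1,k0],[k1,k0,k1,k0,k0,k1],[k1,k0,k0,k1,k0,k0],[k1,k0,k0,k1,k1,k0],[k1,k0,k0,k0,k1,k0],[k1,k0,k0,k0,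
    k0,k1],[k1,k0,k0,k1,k0,k1],[k0,k2,k0,k0,k0,k0],[k0,k1,k1,k0,k0,k0],[k0,k1,k2,k0,k0,k0],[k0,k1,k1,k1,k0,k0],[k0,k1,
    k1,k0,k1,k0],[k0,k1,k0,k1,k0,k0],[k0,k1,k0,k1,k1,k0],[k0,k1,k0,k0,k1,k0],[k0,k0,k2,k0,k0,k0],[k0,k0,k3,k0,k0,k0],
    [k0,k0,k2,k1,k0,k0],[k0,k0,k2,k0,k1,k0],[k0,k0,k1,k1,k0,k0],[k0,k0,k1,k1,k1,k0],[k0,k0,k1,k0,k1,k0],[k0,k0,k2,k0,
    k2,k0],[k0,k0,k1,k1,k2,k0],[k0,k0,k1,k0,k2,k0],[k0,k0,k1,k0,k0,k1],[k0,k0,k1,k1,k0,k1],[k0,k0,k0,k2,k0,k0],[k0,k0,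
    k0,k2,k1,k0],[k0,k0,k0,k1,k1,k0],[k0,k0,k0,k1,k1,k1],[k0,k0,k0,k1,k0,k1],[k0,k0,k0,k0,k1,k1],[k0,k0,k0,k0,k0,k2]]
    [.contra [z1],.ref k62 k2 [(z1,[z1]),(z1,[z0,z0,z1])],.ref (nat_lit 211) k10 [(z2,[z1,y4,z4,y8]),(z2,[z1]),(z2,
    [y1,z4,z0,z8]),(z2,[z1,y4,z0,y4])],.ref k163 k8 [(z1,[z1,y1,z1,y1,y1]),(z1,[z0,z0,z1])],.ref k109 k10 [(z1,[z1,z0,
    z2,z0,y2]),(z1,[z0,z0,y1,z0,z1])],.contra [y1,z1,y1,z1,z1],.contra [z1,y2,z0,y2],.ref k109 k10 [(z1,[z1,z0,z3,y1,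
    y2]),(z1,[z0,z0,y1,z0,z1])],.contra [y1,z1,y1,z1,z1],.ref k163 k8 [(z1,[z1,z0,z1,z0,y1]),(z1,[z0,z0,z1])],
    .ref k109 k1 [(z1,[z1,z0,z2,z0,y2]),(z1,[z0,z0,y1,z0,z1])],.contra [z1,y1,y1],.ref k1 k4 [(z1,[z1,y1,z0,y1])],
    .contra [y1,z1,y1,z1,z1],.contra [y1,z1,y1,z1,z1],.ref k1 k4 [(z1,[z1,y1,z1,y2])],.contra [y2,z1,y1,z0,z2],
    .contra [z1,y1,z0,y1],.contra [y1,z1,z0,z2],.contra [y1,z0,z0,y1,z1],.contra [y1,z0,y1,z0,z1],.contra [y1,z0,y1,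
    z0,z1],.contra [y1,z1,z0,z2],.contra [y1,z0,z1,y1,z1],.contra [z1],.ref k0 k9 [(z1,[z1])],
    .ref (nat_lit 210) k0 [(z1,[y2,y1,z1,y3,z1]),(z1,[z1,z0,y1,z1]),(z1,[y1,z0,z1]),(z1,[z1,z1,y1,z2])],
    .ref k3 k2 [(z1,[y1,z0,z0,z0,z1])],.contra [z1,z0,z1,y1],.contra [y1,z0,z0,y1,z1],.contra [z1,z1,z0,z2,y1],
    .ref k1 k4 [(z1,[z1])],.contra [z1],.ref (nat_lit 209) k8 [(z1,[y2,z3,y3,z6]),(z1,[z0,z0,z1]),(z1,[y1,z0,y3,z3]),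
    (z1,[z2,y3,z3,y9,z3])],.contra [y1,z1,y1,z1,z1],.ref k0 k9 [(z1,[z1,z0,z1,y1])],.contra [y2,z1,y1,z0,z2],
    .contra [y1,z0,y1,z0,z1],.contra [y1,z0,y1,z0,z1],.contra [z1,z0,z2,y2],.contra [z1,z1,z1,z1,y1],.ref k1 k4 [(z1,
    [z1,z0,z1,y1])],.contra [y2,z1,z1,z2],.ref (nat_lit 208) k5 [(z1,[z1,y1,z1,z0,y1]),(z1,[z0,z0,y1,y1,z1]),(z1,[y1,
    z1,y1,z1,z1])],.contra [z1],.ref (nat_lit 208) k5 [(z1,[z1,z0,z2,z2,y2]),(z1,[z0,z0,y1,y1,z1]),(z1,[y1,z0,y2,y1,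
    z2])],.contra [y2,y1,y1,y2,z2],.ref k1 k4 [(z1,[y1,y1,z0,y1,z1])],.ref k109 k0 [(z1,[z2,y1,y1,y1,y1]),(z1,[y1,z0,
    z0,z0,z1])],.contra [y1,z0,z0,z1],.contra [y1,z0,z2]]),
    .geo true z3 k5 [(y4,z6),(z2,z0),(z4,y3),(z6,y3),(z4,y3),(z0,z3)] [(z1,[z1]),(z1,[z0,z1]),(z1,[z0,z0,z1]),(z1,[z0,z0,
    z0,z3]),(z1,[y1,y1,y1,y3,z3]),(z1,
    [])] (Int.ofNat (nat_lit 699050)) (Int.ofNat (nat_lit 1398102)) (.s (.s (.l k1) (.l k1)) (.s (.l k1) (.l k1))) [],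
    .geo true z1 k5 [(z0,z3),(z0,z1),(z0,z2),(z2,y4),(z2,y3),(z0,z1)] [(z1,[z1]),(z1,[z0,z1]),(z1,[z0,z0,z1]),(z1,[z0,z0,
    z0,z1]),(z1,[y1,y1,y1,y1,z1]),(z1,
    [])] z0 (Int.ofNat (nat_lit 524288)) (.s (.s (.s (.s (.l k2) (.l k1)) (.l k1)) (.l k1)) (.s (.s (.l k1) (.l k1)) (.s (.l k1) (.l k1)))) [⟨z0,
    z1,[[k0,k1],[k2,k3],[k4,k5]],.bnd k0⟩],
    .geo true z1 k5 [(z0,z3),(z0,z2),(z2,y4),(z0,z1),(z2,y3),(z0,z1)] [(z1,[z1]),(z1,[z0,z1]),(z1,[z0,z0,z1]),(z1,[z0,z0,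
    z0,z1]),(z1,[y1,y1,y1,y1,z1]),(z1,
    [])] z0 (Int.ofNat (nat_lit 524288)) (.s (.s (.s (.l k2) (.l k1)) (.s (.l k1) (.l k1))) (.s (.s (.l k1) (.l k1)) (.l k1))) [⟨z0,
    z1,[[k0,k1],[k2,k3],[k4,k5]],.bnd k0⟩],
    .geo true z3 k5 [(y2,z3),(z6,y3),(y2,z3),(z8,y6),(z2,z0),(z0,z3)] [(z1,[z1]),(z1,[z0,z3]),(z1,[z0,z0,z1]),(z1,[z0,z0,
    z0,z1]),(z1,[y1,y3,y1,y1,z3]),(z1,
    [])] (Int.ofNat (nat_lit 699050)) (Int.ofNat (nat_lit 1398102)) (.s (.s (.l k1) (.l k1)) (.l k1)) [],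
    .geo true z2 k4 [(y1,z2),(z3,y2),(z4,y2),(z1,z0),(z0,z2),(z1,z0)] [(z1,[z1]),(z1,[z0,z1]),(z1,[z0,z0,z2]),(z1,[z0,z0,
    z0,z1]),(z1,[]),(z1,[y1,y1,y2,y1,
    z2])] (Int.ofNat (nat_lit 524288)) (Int.ofNat (nat_lit 1572864)) (.s (.s (.l k1) (.l k1)) (.s (.l k1) (.l k1))) [],
    .old (.lp [(nat_lit 498),(nat_lit 200),(nat_lit 446),(nat_lit 274),(nat_lit 288),(nat_lit 212)] [k0,k0,k149,k149,k26,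
    k26,k112,k112,k105,k105,k143,k143] k0 [[k0,k0,k0,k0,k0,k0,k0,k0,k12,k0,k170],[k0,k0,k0,k4,k0,k8],[k4,k0,k0,k0,k0,
    k0,k0,k0,k14],[k0,k0,k0,k0,k0,k94,k0,k20],[k8,k0,k94],[k0,k0,k0,k0,k0,k0,k0,k14,k0,k0,k0,k12],[k0,k0,k20,k0,k14],
    [k0,k0,k0,k0,k0,k0,k0,k0,k0,k6],[k0,k0,k0,k0,k0,k0,k6,k0,k0,k0,k108],[k0,k12,k0,k14],[k0,k0,k0,k0,k12],[k0,k170,
    k0,k0,k0,k0,k0,k0,k0,k108]] (nat_lit 960) k6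
    [[(k8,(nat_lit 285)),(k0,(nat_lit 328)),(k2,(nat_lit 349)),(k10,(nat_lit 355)),(k6,(nat_lit 386)),(k4,
    (nat_lit 484))],[(k1,(nat_lit 328)),(k11,(nat_lit 343)),(k3,(nat_lit 349)),(k9,(nat_lit 393)),(k7,(nat_lit 394)),
    (k5,(nat_lit 476))],[(k2,k196),(k6,(nat_lit 237)),(k8,(nat_lit 256)),(k4,(nat_lit 315)),(k0,(nat_lit 349)),(k10,
    (nat_lit 376))],[(k11,k192),(k3,k196),(k9,(nat_lit 264)),(k5,(nat_lit 323)),(k7,(nat_lit 331)),(k1,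
    (nat_lit 349))],[(k2,(nat_lit 323)),(k10,(nat_lit 329)),(k6,(nat_lit 340)),(k4,(nat_lit 352)),(k8,(nat_lit 381)),
    (k0,(nat_lit 476))],[(k3,(nat_lit 315)),(k11,(nat_lit 329)),(k5,(nat_lit 352)),(k7,(nat_lit 360)),(k9,
    (nat_lit 381)),(k1,(nat_lit 484))],[(k10,(nat_lit 231)),(k6,(nat_lit 260)),(k8,(nat_lit 281)),(k2,(nat_lit 331)),
    (k4,(nat_lit 360)),(k0,(nat_lit 394))],[(k3,(nat_lit 237)),(k11,(nat_lit 249)),(k7,(nat_lit 260)),(k9,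
    (nat_lit 281)),(k5,(nat_lit 340)),(k1,(nat_lit 386))],[(k10,(nat_lit 250)),(k2,(nat_lit 264)),(k6,(nat_lit 281)),
    (k8,(nat_lit 282)),(k4,(nat_lit 381)),(k0,(nat_lit 393))],[(k11,(nat_lit 250)),(k3,(nat_lit 256)),(k7,
    (nat_lit 281)),(k9,(nat_lit 282)),(k1,(nat_lit 285)),(k5,(nat_lit 381))],[(k2,k192),(k6,(nat_lit 249)),(k8,
    (nat_lit 250)),(k10,(nat_lit 320)),(k4,(nat_lit 329)),(k0,(nat_lit 343))],[(k7,(nat_lit 231)),(k9,(nat_lit 250)),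
    (k11,(nat_lit 320)),(k5,(nat_lit 329)),(k1,(nat_lit 355)),(k3,(nat_lit 376))]]
    [] k0
    [[k2,k0,k0,k0,k0,k0],[k1,k1,k0,k0,k0,k0],[k1,k2,k0,k0,k0,k0],[k1,k0,k0,k1,k0,k0],[k1,k0,k0,k0,k1,k0],[k1,k1,k0,k0,
    k1,k0],[k1,k0,k0,k0,k1,k1],[k1,k0,k0,k0,k0,k1],[k1,k1,k0,k0,k0,k1],[k0,k2,k0,k0,k0,k0],[k0,k3,k0,k0,k0,k0],[k0,k4,
    k0,k0,k0,k0],[k0,k3,k0,k0,k1,k0],[k0,k2,k1,k0,k0,k0],[k0,k2,k0,k1,k0,k0],[k0,k2,k0,k1,k0,k1],[k0,k2,k0,k0,k1,k0],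
    [k0,k2,k0,k0,k1,k1],[k0,k2,k0,k0,k0,k1],[k0,k1,k1,k0,k0,k0],[k0,k1,k1,k0,k0,k1],[k0,k1,k0,k1,k0,k0],[k0,k1,k1,k1,
    k0,k0],[k0,k1,k0,k2,k0,k0],[k0,k1,k0,k2,k0,k1],[k0,k1,k0,k1,k1,k0],[k0,k1,k0,k1,k0,k1],[k0,k1,k0,k0,k1,k0],[k0,k1,
    k0,k0,k2,k0],[k0,k1,k0,k0,k1,k1],[k0,k1,k0,k0,k0,k1],[k0,k1,k0,k0,k0,k2],[k0,k0,k2,k0,k0,k0],[k0,k0,k1,k1,k0,k0],
    [k0,k0,k1,k1,k0,k1],[k0,k0,k1,k0,k1,k0],[k0,k0,k1,k0,k0,k1],[k0,k0,k0,k2,k0,k0],[k0,k0,k0,k3,k0,k0],[k0,k0,k0,k2,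
    k1,k0],[k0,k0,k0,k2,k0,k1],[k0,k0,k0,k1,k1,k0],[k0,k0,k0,k1,k2,k0],[k0,k0,k0,k1,k1,k1],[k0,k0,k0,k1,k0,k1],[k0,k0,
    k0,k1,k0,k2],[k0,k0,k0,k0,k2,k0],[k0,k0,k0,k0,k3,k0],[k0,k0,k0,k0,k2,k1],[k0,k0,k0,k0,k1,k1],[k0,k0,k0,k0,k1,k2],
    [k0,k0,k0,k0,k0,k2]]
    [.contra [z1],.contra [y1,z0,z0,y1,z1],.ref k3 k4 [(z1,[y1,z0,z1,z0,z1])],.contra [y1,z0,z0,y1,z1],
    .ref (nat_lit 201) k4 [(z1,[z1,y1,z0,y1]),(z1,[y1,z0,z0,z0,z1])],.contra [z1,z1,y1],.contra [z1,z1],.contra [y1,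
    z0,y1,y1,z1],.ref k3 k4 [(z1,[y1,z0,z0,z0,z1])],.contra [z1],.ref k62 k6 [(z1,[z1]),(z1,[z0,z1,z0,z1])],
    .ref (nat_lit 217) k5 [(z2,[y1,y4,z4]),(z2,[y1,z0,z0,y4,z4]),(z1,[z0,z1,z0,z1]),(z2,[z1])],.ref k3 k4 [(z1,[y1,y1,
    z2,z0,z1])],.ref k109 k3 [(z1,[z1,z2,z0,z2,y2]),(z1,[z0,y1,z0,y1,z1])],.contra [y1,y1,z1,y1,z1],.ref k109 k3 [(z1,
    [z1,z3,z1,z4,y3]),(z1,[z0,y1,z0,y1,z1])],.contra [y1,y1,z1,y1,z1],.ref k3 k4 [(z1,[y1,y1,z1,z0,z1])],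
    .ref k62 k6 [(z1,[z1,z0,z1]),(z1,[z0,z1,z0,z1])],.contra [y1,z0,z1,z1],.ref k109 k3 [(z1,[z1,z2,z1,z2,y2]),(z1,
    [z0,y1,z0,y1,z1])],.contra [y1,z0,z0,y1,z1],.contra [y1,z1,z0,z0,z1],.ref k0 k0 [(z1,[z1,z1,z0,z2,y1])],
    .contra [y1,z0,y1,y2,z2],.contra [y1,y1,z1,y1,z1],.contra [y1,y1,z0,y1,z1],.contra [y1,z0,z1,z1],
    .ref (nat_lit 201) k4 [(z1,[z1,z0,y1,y1]),(z1,[y1,y1,z1,z0,z1])],.contra [y1,y1,z0,y1,z1],.contra [z1,z0,z1],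
    .ref k62 k6 [(z1,[z1,z0,z2]),(z1,[z0,z1,z0,z1])],.contra [y1,z2,z0,z2],.ref k0 k0 [(z1,[z1])],.contra [y1,z1,y1,
    z0,z1],.contra [y1,z0,z1,z1],.contra [y1,z0,z0,z1],.contra [z1],.ref (nat_lit 216) k10 [(z1,[y1,y3,z0,y6,z3]),(z1,
    [z0,z1,z0,z1]),(z1,[y1,y3,y3,y6,z3]),(z1,[z1,z3,z3,z9,y3])],.ref (nat_lit 215) k9 [(z1,[z1,z2,y1,z3,y2]),(z1,[z1,
    z1,y1,z1,y1]),(z1,[y1,y2,z2,y2,z2]),(z1,[z0,z0,y1])],.ref k0 k0 [(z1,[z1,z1,z1,z2,y1])],.contra [y1,y1,z1,y1,z1],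
    .ref (nat_lit 214) k8 [(z1,[z1,z2,y2,z1,y1]),(z1,[z0,z0,y1]),(z1,[z1,z1,y1,z1,y1]),(z1,[y1,y2,z2,y2,z2])],
    .contra [y1,y1,z0,y1,z1],.contra [y1,z0,y1,y1,z1],.contra [y1,y1,y1,y1,z1],.contra [z1],
    .ref (nat_lit 213) k0 [(z1,[z1,y3,y3,y9,z3]),(z1,[z1]),(z1,[y1,z0,z0,z3]),(z1,[z0,z1,z0,z1])],
    .ref (nat_lit 201) k4 [(z1,[z1,z0,z0,y1]),(z1,[y1,y1,z0,z0,z1])],.contra [y1,z0,z0,z1],.contra [y1,y1,y1,y1,z1],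
    .contra [z1,z0,z2]]),
    .geo true z1 k5 [(y1,z3),(z1,y1),(z3,y3),(y1,z2),(z2,y2),(z0,z1)] [(z1,[z1]),(z1,[z0,z1]),(z1,[z0,z0,z1]),(z1,[z0,z0,
    z0,z1]),(z1,[y1,y1,y1,y1,z1]),(z1,
    [])] (Int.ofNat (nat_lit 524288)) (Int.ofNat (nat_lit 1048576)) (.s (.s (.s (.s (.l k3) (.l k1)) (.l k1)) (.l k1)) (.s (.s (.l k1) (.l k1)) (.s (.l k1) (.s (.l k1) (.s (.l k1) (.l k2)))))) [⟨z1,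
    z1,[[k0,k1],[k2,k4],[k3,k5]],.bnd k0⟩,⟨z1,z2,[[k0,k3],[k1,k5],[k2,k4]],.bnd k3⟩],
    .geo true z3 k5 [(z1,z0),(z6,y3),(y2,z3),(z5,y3),(z2,z0),(z0,z3)] [(z1,[z1]),(z1,[z0,z3]),(z1,[z0,z0,z1]),(z1,[z0,z0,
    z0,z1]),(z1,[y1,y3,y1,y1,z3]),(z1,
    [])] (Int.ofNat (nat_lit 699050)) (Int.ofNat (nat_lit 1747627)) (.s (.l k1) (.l k1)) [],
    .old (.lp [(nat_lit 2134),(nat_lit 2508),(nat_lit 1898),(nat_lit 2134),(nat_lit 2300),(nat_lit 2452)] [(nat_lit 250),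
    (nat_lit 250),k63,k63,(nat_lit 416),(nat_lit 320),(nat_lit 250),(nat_lit 250),k0,(nat_lit 334),k91,k91] k0 [[k0,
    k0,k0,k0,k0,k0,k0,k0,k0,k0,(nat_lit 790)],[k0,k0,k0,k0,k0,k194,k0,k14],[k0,k0,k0,k0,k0,k0,(nat_lit 388),k0,k0,k0,
    (nat_lit 236)],[k0,k0,k0,k0,k0,k0,k0,k0,k0,(nat_lit 970)],[k194,k0,k0,k0,k0,k0,k166],[k0,k0,k0,k0,k0,k0,k0,k0,k0,
    (nat_lit 1040)],[k14],[k0,k0,k0,(nat_lit 388),k0,k166],[k0,k0,(nat_lit 970),k0,(nat_lit 1040)],[k0,k0,k0,k0,k0,k0,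
    k0,k0,k0,k0,k0,k166],[k0,k0,k0,k0,k0,k0,k0,k0,k166],[k0,(nat_lit 790),k0,(nat_lit 236)]] (nat_lit 6720) k6
    [[(k0,(nat_lit 1344)),(k4,(nat_lit 1968)),(k2,(nat_lit 2085)),(k6,(nat_lit 2134)),(k10,(nat_lit 2293)),(k8,
    (nat_lit 2550))],[(k1,(nat_lit 1344)),(k5,(nat_lit 2064)),(k9,(nat_lit 2064)),(k11,(nat_lit 2293)),(k3,
    (nat_lit 2321)),(k7,(nat_lit 2328))],[(k4,(nat_lit 1961)),(k6,(nat_lit 2307)),(k0,(nat_lit 2321)),(k2,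
    (nat_lit 2508)),(k8,(nat_lit 2571)),(k10,(nat_lit 3270))],[(k9,(nat_lit 1849)),(k1,(nat_lit 2085)),(k5,
    (nat_lit 2251)),(k7,(nat_lit 2321)),(k3,(nat_lit 2508)),(k11,(nat_lit 3450))],[(k8,(nat_lit 1344)),(k4,
    (nat_lit 1898)),(k0,(nat_lit 2064)),(k2,(nat_lit 2251)),(k6,(nat_lit 2452)),(k10,(nat_lit 2459))],[(k9,
    (nat_lit 1718)),(k5,(nat_lit 1898)),(k3,(nat_lit 1961)),(k1,(nat_lit 1968)),(k7,(nat_lit 1968)),(k11,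
    (nat_lit 3167))],[(k8,(nat_lit 1344)),(k4,(nat_lit 1968)),(k10,(nat_lit 2293)),(k6,(nat_lit 2300)),(k2,
    (nat_lit 2321)),(k0,(nat_lit 2328))],[(k9,(nat_lit 2050)),(k1,(nat_lit 2134)),(k11,(nat_lit 2293)),(k7,
    (nat_lit 2300)),(k3,(nat_lit 2307)),(k5,(nat_lit 2452))],[(k4,(nat_lit 1718)),(k2,(nat_lit 1849)),(k6,
    (nat_lit 2050)),(k0,(nat_lit 2064)),(k10,(nat_lit 2209)),(k8,(nat_lit 2300))],[(k5,(nat_lit 1344)),(k7,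
    (nat_lit 1344)),(k9,(nat_lit 2300)),(k11,(nat_lit 2543)),(k1,(nat_lit 2550)),(k3,(nat_lit 2571))],[(k10,
    (nat_lit 2286)),(k0,(nat_lit 2293)),(k6,(nat_lit 2293)),(k8,(nat_lit 2543)),(k4,(nat_lit 3167)),(k2,
    (nat_lit 3450))],[(k9,(nat_lit 2209)),(k11,(nat_lit 2286)),(k1,(nat_lit 2293)),(k7,(nat_lit 2293)),(k5,
    (nat_lit 2459)),(k3,(nat_lit 3270))]]
    [] k0
    [[k2,k0,k0,k0,k0,k0],[k3,k0,k0,k0,k0,k0],[k4,k0,k0,k0,k0,k0],[k2,k1,k0,k0,k0,k0],[k2,k0,k1,k0,k0,k0],[k2,k0,k0,k1,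
    k0,k0],[k2,k0,k0,k0,k1,k0],[k2,k0,k0,k0,k0,k1],[k1,k1,k0,k0,k0,k0],[k1,k1,k1,k0,k0,k0],[k1,k0,k1,k0,k0,k0],[k1,k0,
    k2,k0,k0,k0],[k1,k0,k1,k0,k1,k0],[k1,k0,k0,k1,k0,k0],[k1,k0,k1,k1,k0,k0],[k1,k0,k0,k1,k1,k0],[k1,k0,k0,k0,k1,k0],
    [k1,k0,k0,k0,k0,k1],[k0,k2,k0,k0,k0,k0],[k0,k1,k1,k0,k0,k0],[k0,k1,k2,k0,k0,k0],[k0,k1,k1,k0,k1,k0],[k0,k1,k0,k1,
    k0,k0],[k0,k1,k1,k1,k0,k0],[k0,k1,k0,k1,k1,k0],[k0,k1,k0,k0,k1,k0],[k0,k0,k2,k0,k0,k0],[k0,k0,k3,k0,k0,k0],[k0,k0,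
    k2,k1,k0,k0],[k0,k0,k2,k0,k1,k0],[k0,k0,k1,k1,k0,k0],[k0,k0,k1,k1,k1,k0],[k0,k0,k1,k0,k1,k0],[k0,k0,k2,k0,k2,k0],
    [k0,k0,k1,k1,k2,k0],[k0,k0,k1,k0,k2,k0],[k0,k0,k1,k0,k0,k1],[k0,k0,k0,k2,k0,k0],[k0,k0,k0,k2,k1,k0],[k0,k0,k0,k1,
    k1,k0],[k0,k0,k0,k1,k2,k0],[k0,k0,k0,k1,k1,k1],[k0,k0,k0,k1,k0,k1],[k0,k0,k0,k0,k2,k0],[k0,k0,k0,k0,k1,k1],[k0,k0,
    k0,k0,k0,k2]]
    [.contra [z1],.ref k62 k2 [(z1,[z1]),(z1,[z0,z0,z1])],.ref k3 k2 [(z2,[z1,y2])],.ref k109 k10 [(z1,[z1,z0,z2,z0,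
    y2]),(z1,[z0,z0,y1,z0,z1])],.contra [z1,y1,z0,y1],.ref k0 k2 [(z1,[z1,z0,z1,z1,y1])],.ref k163 k8 [(z1,[z1,z0,z1,
    z0,y1]),(z1,[z0,z0,z1])],.ref k109 k1 [(z1,[z1,z0,z2,z0,y2]),(z1,[z0,z0,y1,z0,z1])],.contra [z1,y1,y1],
    .contra [z1,y1,z0,y1],.contra [y1,z2,z0,z2],.contra [z1,y1,z0,y1],.contra [z1,y1,z0,y1],.contra [y1,z0,z0,y1,z1],
    .contra [z1,y1,z0,y1],.contra [z1,z1,z1,z1,y1],.contra [y1,z0,y1,z0,z1],.ref k0 k2 [(z1,[z1])],.contra [z1],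
    .ref k0 k9 [(z1,[z1])],.ref k109 k1 [(z1,[y1,z2,z3,z2,y2]),(z1,[z0,z0,y1,z0,z1])],.contra [z1,z0,z1,y1],
    .contra [z1,z1,z0,z2,y1],.ref k3 k2 [(z1,[y1,z0,z0,z0,z1])],.contra [z1,z1,z1,z1,y1],.ref k1 k4 [(z1,[z1])],
    .contra [z1],.ref (nat_lit 220) k8 [(z1,[y1,z3,z0,z3]),(z1,[z0,z0,z1]),(z1,[y1,z0,y3,z3]),(z1,[z1,y3,z0,y6,z3])],
    .ref (nat_lit 219) k10 [(z1,[y1,y1,z0,y2,z1]),(z1,[z0,z1,z0,z1]),(z1,[z1,z1,z1,z2,y1]),(z1,[y1,y1,y1,y1,z1])],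
    .ref k0 k9 [(z1,[z1,z0,z1,y1])],.contra [y1,z0,y1,z0,z1],.contra [z1,z1,z1,z1,y1],.contra [y1,z0,y1,z0,z1],
    .contra [z1,z0,z2,y2],.contra [z1,z1,z2,z0,y1],.ref k1 k4 [(z1,[z1,z0,z1,y1])],.contra [z1,y1,y1,y2,z1],
    .contra [z1],.contra [z1,z1,z1,z1,y1],.contra [y1,z0,y1,z0,z1],.contra [z1,z1,z1,z1,y1],.contra [y1,y1,z0,y1,z1],
    .ref (nat_lit 201) k0 [(z1,[z1,z0,y1]),(z1,[y1,z0,z0,z0,z1])],.contra [z1],.contra [z1,z1],.contra [y1,z0,z2]]),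
    .old (.lp [(nat_lit 788),(nat_lit 1576),(nat_lit 1018),(nat_lit 2060),(nat_lit 984),(nat_lit 1246)] [(nat_lit 636),
    (nat_lit 636),(nat_lit 242),(nat_lit 242),(nat_lit 521),(nat_lit 521),k0,k0,(nat_lit 566),(nat_lit 510),
    (nat_lit 407),(nat_lit 407)] k0 [[k0,k0,k0,k0,k0,k0,k146],[k0,k0,k0,k50,k0,k50],[k50,k0,k0,k0,k0,k0,k0,k0,k0,k0,
    k50],[k0,k0,k0,k0,k0,k58],[k50,k0,k58],[k0,k0,k0,k0,k0,k0,k0,(nat_lit 558),k0,k0,k0,(nat_lit 408)],[k0,k0,k0,k0,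
    (nat_lit 558),k0,k0,k0,(nat_lit 296)],[k0,k146,k0,k0,k0,k0,k0,k0,k0,k0,k0,k154],[k0,k0,k0,k0,k0,k0,k0,k0,k0,k0,
    k34],[k0,k0,k0,k0,k0,k0,k0,(nat_lit 296)],[k0,k0,k0,k0,(nat_lit 408),k0,k154],[k0,k0,k0,k50,k0,k0,k0,k0,k0,
    k34]] (nat_lit 3840) k6
    [[(k0,(nat_lit 788)),(k8,(nat_lit 824)),(k10,(nat_lit 1017)),(k2,(nat_lit 1132)),(k4,(nat_lit 1311)),(k6,
    (nat_lit 1578))],[(k9,(nat_lit 768)),(k1,(nat_lit 788)),(k5,(nat_lit 953)),(k11,(nat_lit 1017)),(k3,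
    (nat_lit 1182)),(k7,(nat_lit 1474))],[(k0,(nat_lit 1182)),(k4,(nat_lit 1247)),(k8,(nat_lit 1252)),(k10,
    (nat_lit 1411)),(k2,(nat_lit 1526)),(k6,(nat_lit 1964))],[(k1,(nat_lit 1132)),(k5,(nat_lit 1297)),(k9,
    (nat_lit 1308)),(k11,(nat_lit 1411)),(k3,(nat_lit 1526)),(k7,(nat_lit 1876))],[(k0,(nat_lit 953)),(k4,
    (nat_lit 960)),(k8,(nat_lit 973)),(k10,(nat_lit 1182)),(k2,(nat_lit 1297)),(k6,(nat_lit 1539))],[(k5,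
    (nat_lit 960)),(k11,(nat_lit 1132)),(k3,(nat_lit 1247)),(k1,(nat_lit 1311)),(k7,(nat_lit 1539)),(k9,
    (nat_lit 1587))],[(k10,(nat_lit 1245)),(k0,(nat_lit 1474)),(k8,(nat_lit 1494)),(k6,(nat_lit 1502)),(k4,
    (nat_lit 1539)),(k2,(nat_lit 1876))],[(k11,(nat_lit 1357)),(k7,(nat_lit 1502)),(k5,(nat_lit 1539)),(k9,
    (nat_lit 1550)),(k1,(nat_lit 1578)),(k3,(nat_lit 1964))],[(k0,(nat_lit 768)),(k10,(nat_lit 989)),(k8,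
    (nat_lit 1280)),(k2,(nat_lit 1308)),(k6,(nat_lit 1550)),(k4,(nat_lit 1587))],[(k1,(nat_lit 824)),(k5,
    (nat_lit 973)),(k11,(nat_lit 1087)),(k3,(nat_lit 1252)),(k9,(nat_lit 1280)),(k7,(nat_lit 1494))],[(k0,
    (nat_lit 1017)),(k8,(nat_lit 1087)),(k4,(nat_lit 1132)),(k10,(nat_lit 1280)),(k6,(nat_lit 1357)),(k2,
    (nat_lit 1411))],[(k9,(nat_lit 989)),(k1,(nat_lit 1017)),(k5,(nat_lit 1182)),(k7,(nat_lit 1245)),(k11,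
    (nat_lit 1280)),(k3,(nat_lit 1411))]]
    [] k0
    [[k2,k0,k0,k0,k0,k0],[k3,k0,k0,k0,k0,k0],[k4,k0,k0,k0,k0,k0],[k3,k0,k0,k0,k1,k0],[k3,k0,k0,k0,k0,k1],[k2,k1,k0,k0,
    k0,k0],[k2,k0,k1,k0,k0,k0],[k2,k0,k0,k0,k1,k0],[k2,k0,k0,k0,k2,k0],[k2,k0,k0,k0,k1,k1],[k2,k0,k0,k0,k0,k1],[k1,k1,
    k0,k0,k0,k0],[k1,k1,k1,k0,k0,k0],[k1,k1,k0,k0,k1,k0],[k1,k1,k0,k0,k0,k1],[k1,k0,k1,k0,k0,k0],[k1,k0,k2,k0,k0,k0],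
    [k1,k0,k1,k0,k1,k0],[k1,k0,k1,k0,k0,k1],[k1,k0,k0,k1,k0,k0],[k1,k0,k0,k0,k1,k0],[k1,k0,k0,k0,k2,k0],[k1,k0,k0,k0,
    k1,k1],[k1,k0,k0,k0,k2,k1],[k1,k0,k0,k0,k0,k1],[k1,k0,k0,k0,k0,k2],[k0,k2,k0,k0,k0,k0],[k0,k1,k1,k0,k0,k0],[k0,k1,
    k2,k0,k0,k0],[k0,k1,k1,k0,k1,k0],[k0,k1,k0,k0,k1,k0],[k0,k1,k0,k0,k1,k1],[k0,k1,k0,k0,k0,k1],[k0,k0,k2,k0,k0,k0],
    [k0,k0,k3,k0,k0,k0],[k0,k0,k2,k0,k1,k0],[k0,k0,k2,k0,k0,k1],[k0,k0,k1,k1,k0,k0],[k0,k0,k1,k0,k1,k0],[k0,k0,k1,k0,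
    k1,k1],[k0,k0,k1,k0,k0,k1],[k0,k0,k1,k0,k0,k2],[k0,k0,k0,k2,k0,k0],[k0,k0,k0,k1,k1,k0],[k0,k0,k0,k1,k0,k1],[k0,k0,
    k0,k0,k2,k0],[k0,k0,k0,k0,k2,k1],[k0,k0,k0,k0,k1,k1],[k0,k0,k0,k0,k1,k2],[k0,k0,k0,k0,k0,k2]]
    [.contra [z1],.ref k0 k6 [(z1,[z1,y2,z1])],.contra [z1,y4,z2],.contra [z1,y3,z2],.ref k3 k4 [(z1,[y1,z2,y1,z0,
    z1])],.contra [z1,y2,z1],.contra [y1,z2,z0,z1],.ref k0 k6 [(z1,[z1,y1,z1])],.contra [z1,y2,z2],.ref k3 k4 [(z1,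
    [y1,z1,y1,z0,z1])],.contra [y1,z2,z0,z1],.ref k0 k6 [(z1,[z1])],.ref k3 k1 [(z1,[y1,z0,z0,z0,z1])],.contra [z1,y1,
    z1],.ref k3 k4 [(z1,[y1,z0,z0,z0,z1])],.contra [y1,z2,z0,z1],.ref k163 k9 [(z1,[z1,y2,z0,y1]),(z1,[z0,y1,z0,y1,
    z1])],.contra [y1,z1,z0,z1],.contra [y1,z2,z0,z1],.contra [y1,z1,y1,y1,z1],.contra [z1,z1],.ref k0 k6 [(z1,[z1,z0,
    z1])],.contra [y1,z1,z0,z1],.ref k3 k4 [(z1,[y1,z0,y1,z0,z1])],.contra [y1,z2,z0,z1],.ref (nat_lit 208) k4 [(z1,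
    [z1,y3,y2,y4,z2]),(z1,[z0,z1,z1,z2,y1]),(z1,[y1,z3,z1,z3,y1])],.contra [z1],.contra [y1,z0,z1,z1],
    .ref k109 k6 [(z1,[z1,y2,z0,y2]),(z1,[z0,z1,z0,z1])],.ref k3 k1 [(z1,[y1,y1,z0,z0,z1])],.ref k0 k6 [(z1,[z1,z1])],
    .ref k3 k4 [(z1,[y1,y1,z0,z0,z1])],.contra [y1,z0,z1,z1],.contra [z1],.ref k62 k9 [(z1,[z1]),(z1,[z0,y1,z0,y1,
    z1])],.ref k163 k9 [(z1,[z1,y1,z0,y1]),(z1,[z0,y1,z0,y1,z1])],.ref k0 k0 [(z1,[z1,y1,y1,y2,z1])],.ref k0 k0 [(z1,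
    [z1])],.contra [y1,z1,z0,z1],.contra [y1,z1,z0,z1],.contra [y1,z2,z0,z1],.ref k109 k0 [(z1,[z2,y3,y3,y5,z1]),(z1,
    [y1,z1,z1,z2])],.contra [y1,y2,z0,y2,z2],.contra [y1,z0,y1,y1,z1],.ref k109 k0 [(z1,[z2,y1,y1,y1,y1]),(z1,[y1,z0,
    z0,z0,z1])],.contra [z1,z2],.contra [y1,z0,z0,z1],.contra [y1,z1,z0,z1],.ref (nat_lit 208) k4 [(z1,[z1,y2,y2,y4,
    z2]),(z1,[z0,z1,z1,z2,y1]),(z1,[y1,z2,z1,z3,y1])],.contra [z1]]),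
    .old (.lp [(nat_lit 650),(nat_lit 626),(nat_lit 654),(nat_lit 630),(nat_lit 636),(nat_lit 642)] [(nat_lit 223),
    (nat_lit 223),(nat_lit 235),(nat_lit 235),(nat_lit 221),(nat_lit 221),(nat_lit 466),k0,(nat_lit 230),
    (nat_lit 230),(nat_lit 227),(nat_lit 227)] k0 [[k0,k0,k0,k0,k0,k0,k14,k0,k22],[k0,k0,k0,k146],[k146],[k0,k0,k0,k0,
    k0,k14,k0,k18],[k0,k0,k14,k0,k0,k0,k10],[k0,k0,k0,k0,k0,k0,k0,k0,k0,(nat_lit 482),k0,(nat_lit 470)],[k0,k0,k18,k0,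
    k0,k0,k0,k0,k6],[k0,k14,k0,k0,k0,k10],[k0,k0,k0,k0,(nat_lit 482),k0,k0,k0,k0,k0,k10],[k0,k22,k0,k0,k0,k0,k0,k6],
    [k0,k0,k0,k0,(nat_lit 470)],[k0,k0,k0,k0,k0,k0,k0,k0,k0,k10]] (nat_lit 1920) k6
    [[(k6,(nat_lit 407)),(k8,(nat_lit 633)),(k2,(nat_lit 638)),(k10,(nat_lit 646)),(k0,(nat_lit 650)),(k4,
    (nat_lit 1122))],[(k11,(nat_lit 624)),(k9,(nat_lit 629)),(k3,(nat_lit 638)),(k1,(nat_lit 650)),(k5,(nat_lit 798)),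
    (k7,(nat_lit 873))],[(k6,(nat_lit 409)),(k2,(nat_lit 480)),(k10,(nat_lit 634)),(k0,(nat_lit 638)),(k4,
    (nat_lit 640)),(k8,(nat_lit 653))],[(k3,(nat_lit 480)),(k11,(nat_lit 634)),(k1,(nat_lit 638)),(k5,(nat_lit 640)),
    (k9,(nat_lit 649)),(k7,(nat_lit 875))],[(k6,(nat_lit 391)),(k2,(nat_lit 640)),(k4,(nat_lit 640)),(k8,
    (nat_lit 645)),(k10,(nat_lit 648)),(k0,(nat_lit 798))],[(k9,(nat_lit 635)),(k3,(nat_lit 640)),(k5,(nat_lit 640)),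
    (k7,(nat_lit 875)),(k1,(nat_lit 1122)),(k11,(nat_lit 1130))],[(k8,(nat_lit 384)),(k10,(nat_lit 399)),(k6,
    (nat_lit 640)),(k0,(nat_lit 873)),(k2,(nat_lit 875)),(k4,(nat_lit 875))],[(k5,(nat_lit 391)),(k11,(nat_lit 397)),
    (k9,(nat_lit 400)),(k1,(nat_lit 407)),(k3,(nat_lit 409)),(k7,(nat_lit 640))],[(k6,(nat_lit 400)),(k0,
    (nat_lit 629)),(k4,(nat_lit 635)),(k10,(nat_lit 639)),(k8,(nat_lit 642)),(k2,(nat_lit 649))],[(k7,(nat_lit 384)),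
    (k1,(nat_lit 633)),(k11,(nat_lit 639)),(k9,(nat_lit 642)),(k5,(nat_lit 645)),(k3,(nat_lit 653))],[(k6,
    (nat_lit 397)),(k0,(nat_lit 624)),(k2,(nat_lit 634)),(k8,(nat_lit 639)),(k10,(nat_lit 652)),(k4,(nat_lit 1130))],
    [(k7,(nat_lit 399)),(k3,(nat_lit 634)),(k9,(nat_lit 639)),(k1,(nat_lit 646)),(k5,(nat_lit 648)),(k11,
    (nat_lit 652))]]
    [] k0
    [[k2,k0,k0,k0,k0,k0],[k2,k0,k0,k0,k1,k0],[k1,k1,k0,k0,k0,k0],[k1,k2,k0,k0,k0,k0],[k1,k1,k0,k0,k0,k1],[k1,k0,k0,k1,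
    k0,k0],[k1,k0,k0,k1,k1,k0],[k1,k0,k0,k1,k0,k1],[k1,k0,k0,k0,k1,k0],[k1,k0,k0,k0,k2,k0],[k1,k0,k0,k0,k1,k1],[k1,k0,
    k0,k0,k0,k1],[k0,k2,k0,k0,k0,k0],[k0,k3,k0,k0,k0,k0],[k0,k2,k1,k0,k0,k0],[k0,k2,k0,k1,k0,k0],[k0,k2,k0,k0,k1,k0],
    [k0,k2,k0,k0,k0,k1],[k0,k1,k1,k0,k0,k0],[k0,k1,k1,k1,k0,k0],[k0,k1,k0,k1,k0,k0],[k0,k1,k0,k1,k1,k0],[k0,k1,k0,k1,
    k0,k1],[k0,k1,k0,k0,k1,k0],[k0,k1,k0,k0,k0,k1],[k0,k0,k2,k0,k0,k0],[k0,k0,k2,k1,k0,k0],[k0,k0,k1,k1,k0,k0],[k0,k0,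
    k1,k2,k0,k0],[k0,k0,k1,k1,k1,k0],[k0,k0,k1,k0,k1,k0],[k0,k0,k1,k0,k0,k1],[k0,k0,k0,k2,k0,k0],[k0,k0,k0,k2,k1,k0],
    [k0,k0,k0,k2,k0,k1],[k0,k0,k0,k1,k1,k0],[k0,k0,k0,k2,k2,k0],[k0,k0,k0,k2,k1,k1],[k0,k0,k0,k1,k2,k0],[k0,k0,k0,k1,
    k1,k1],[k0,k0,k0,k1,k0,k1],[k0,k0,k0,k2,k0,k2],[k0,k0,k0,k1,k0,k2],[k0,k0,k0,k0,k2,k0],[k0,k0,k0,k0,k1,k1],[k0,k0,
    k0,k0,k0,k2]]
    [.contra [z1],.ref k0 k9 [(z1,[y1,z1,z0,z1])],.contra [y1,z1,z1],.ref k109 k2 [(z1,[z1,z0,y2]),(z1,[z0,z0,z1])],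
    .ref k3 k4 [(z1,[y1,z0,z0,z1])],.ref k1 k2 [(z1,[z1])],.ref (nat_lit 218) k3 [(z1,[y1,z0,y1,z1]),(z1,[y1,z1,z1]),
    (z1,[z1])],.contra [z1,z1],.contra [y1,z1,z1],.ref k109 k2 [(z1,[y1,z2]),(z1,[z0,z0,z1])],.ref k3 k2 [(z1,[z1])],
    .ref k0 k2 [(z1,[z1])],.contra [z1],.ref k62 k6 [(z1,[z1]),(z1,[z0,z0,y1,z1])],.ref k109 k3 [(z1,[z1,z0,y2]),(z1,
    [z0,z0,z1])],.ref k163 k6 [(z1,[z1,z0,y1]),(z1,[z0,z0,y1,z1])],.ref k0 k9 [(z1,[z1,y1,y2,z1])],.ref k163 k10 [(z1,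
    [z1,z0,y1]),(z1,[z0,z0,y1,z1])],.ref k0 k9 [(z1,[z1])],.ref k3 k2 [(z1,[y1,z0,z0,z1])],.contra [y1,z0,z1],
    .contra [y1,z0,z1],.contra [y1,z0,z1],.contra [y1,z1,z1],.contra [y1,z0,z1],.contra [y1,z0,y2,z2],.ref k0 k2 [(z1,
    [y1,y1,y2,z2])],.contra [y1,y1,y1,z1],.ref (nat_lit 222) k1 [(z1,[y1,y1,y1,z1]),(z1,[y1,z0,y1,z1]),(z1,[z1,z1,z2,
    y1])],.ref k3 k4 [(z1,[z1])],.ref (nat_lit 201) k2 [(z1,[y1,z0,y1,z1]),(z1,[z0,z0,z1])],.contra [y1,y1,y1,z1],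
    .contra [z1],.ref (nat_lit 212) k10 [(z1,[y1,z1,z2,y1]),(z1,[z0,z0,y1,z1]),(z1,[z0,y1,y1,z1])],.ref k1 k2 [(z1,
    [z1,z1])],.contra [y1,z0,z1],.ref (nat_lit 221) k10 [(z2,[y1,z2,z4,y2]),(z1,[z0,z0,y1,z1]),(z1,[z0,y1,y1,z1])],
    .ref (nat_lit 218) k3 [(z1,[y1,y1,y1,z1]),(z1,[y1,z0,z1]),(z1,[z1,z1])],.ref (nat_lit 208) k0 [(z1,[z1,y2,y4,z2]),
    (z1,[z0,z1,z2,y1]),(z1,[y1,z1,z3,y1])],.contra [y1,z0,z1],.contra [y1,y1,y1,z1],.contra [z1,z2],.ref k0 k2 [(z1,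
    [z1,z1])],.contra [z1],.contra [y1,z0,z1],.contra [z1]])]

noncomputable def cU6_3_n3_1 : List XN :=
  [.geo true z1 k5 [(y2,z4),(z2,y2),(y4,z8),(z2,y3),(z6,y8),(z0,z1)] [(z1,[z1]),(z1,[z0,z1]),(z1,[z0,z0,z1]),(z1,[z0,z0,
    z0,z1]),(z1,[y1,y1,y1,y1,z1]),(z1,
    [])] (Int.ofNat (nat_lit 524288)) (Int.ofNat (nat_lit 699051)) (.s (.s (.l k2) (.l k1)) (.s (.l k3) (.l k1))) [⟨z1,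
    z2,[[k0,k2],[k1,k5],[k3,k4]],.bnd k0⟩,⟨z3,z5,[[k0,k4],[k1,k3],[k2,k5]],.child (.ref k1 k4 [(z1,[y2,y1,z0,y1,y1,
    z1])])⟩],
    .old (.lp [(nat_lit 244),(nat_lit 358),(nat_lit 314),(nat_lit 314),(nat_lit 286),(nat_lit 402)] [k79,k79,k22,k22,k84,
    k4,k44,k44,k58,k58,k0,k0] k0 [[k0,k0,k0,k0,k0,k0,k0,k0,k0,k0,k52],[k0,k0,k0,k0,k0,k36,k0,k72],[k0,k0,k0,k0,k120,
    k0,k8],[k0,k0,k0,k0,k0,k0,k0,k0,k0,k148],[k36,k0,k0,k0,k0,k0,k0,k0,k78],[k0,k0,k0,k120,k0,k0,k0,k74],[k72,k0,k0,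
    k0,k74],[k0,k0,k0,k8,k0,k0,k0,k0,k0,k4],[k0,k0,k148,k0,k0,k0,k4],[k0,k0,k0,k0,k0,k78,k0,k0,k0,k0,k0,k80],[k0,k0,
    k0,k0,k0,k0,k0,k0,k80],[k0,k52]] (nat_lit 960) k6
    [[(k0,k192),(k4,(nat_lit 239)),(k6,(nat_lit 279)),(k2,(nat_lit 301)),(k10,(nat_lit 323)),(k8,(nat_lit 345))],[(k1,
    k192),(k3,(nat_lit 301)),(k7,(nat_lit 315)),(k5,(nat_lit 319)),(k11,(nat_lit 323)),(k9,(nat_lit 337))],[(k4,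
    (nat_lit 260)),(k6,(nat_lit 264)),(k0,(nat_lit 301)),(k8,(nat_lit 322)),(k2,(nat_lit 358)),(k10,(nat_lit 432))],
    [(k7,(nat_lit 216)),(k1,(nat_lit 301)),(k9,(nat_lit 314)),(k3,(nat_lit 358)),(k5,(nat_lit 376)),(k11,
    (nat_lit 528))],[(k8,k192),(k0,(nat_lit 319)),(k6,(nat_lit 362)),(k2,(nat_lit 376)),(k10,(nat_lit 398)),(k4,
    (nat_lit 434))],[(k1,(nat_lit 239)),(k11,(nat_lit 240)),(k3,(nat_lit 260)),(k7,(nat_lit 274)),(k9,(nat_lit 334)),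
    (k5,(nat_lit 434))],[(k2,(nat_lit 216)),(k6,(nat_lit 240)),(k4,(nat_lit 274)),(k0,(nat_lit 315)),(k10,
    (nat_lit 358)),(k8,(nat_lit 378))],[(k7,(nat_lit 240)),(k3,(nat_lit 264)),(k1,(nat_lit 279)),(k9,(nat_lit 300)),
    (k5,(nat_lit 362)),(k11,(nat_lit 362))],[(k8,(nat_lit 282)),(k6,(nat_lit 300)),(k2,(nat_lit 314)),(k4,
    (nat_lit 334)),(k0,(nat_lit 337)),(k10,(nat_lit 344))],[(k5,k192),(k9,(nat_lit 282)),(k3,(nat_lit 322)),(k11,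
    (nat_lit 344)),(k1,(nat_lit 345)),(k7,(nat_lit 378))],[(k4,(nat_lit 240)),(k10,(nat_lit 322)),(k0,(nat_lit 323)),
    (k8,(nat_lit 344)),(k6,(nat_lit 362)),(k2,(nat_lit 528))],[(k11,(nat_lit 322)),(k1,(nat_lit 323)),(k9,
    (nat_lit 344)),(k7,(nat_lit 358)),(k5,(nat_lit 398)),(k3,(nat_lit 432))]]
    [] k0
    [[k2,k0,k0,k0,k0,k0],[k3,k0,k0,k0,k0,k0],[k4,k0,k0,k0,k0,k0],[k3,k0,k1,k0,k0,k0],[k2,k1,k0,k0,k0,k0],[k2,k0,k1,k0,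
    k0,k0],[k2,k0,k0,k1,k0,k0],[k2,k0,k0,k0,k1,k0],[k2,k0,k0,k0,k0,k1],[k1,k1,k0,k0,k0,k0],[k1,k1,k1,k0,k0,k0],[k1,k1,
    k0,k1,k0,k0],[k1,k0,k1,k0,k0,k0],[k1,k0,k1,k1,k0,k0],[k1,k0,k1,k0,k1,k0],[k1,k0,k0,k1,k0,k0],[k1,k0,k0,k2,k0,k0],
    [k1,k0,k0,k0,k1,k0],[k1,k0,k0,k0,k0,k1],[k1,k0,k1,k0,k0,k1],[k0,k2,k0,k0,k0,k0],[k0,k2,k0,k1,k0,k0],[k0,k1,k1,k0,
    k0,k0],[k0,k1,k1,k1,k0,k0],[k0,k1,k1,k0,k1,k0],[k0,k1,k0,k1,k0,k0],[k0,k1,k0,k2,k0,k0],[k0,k1,k0,k1,k1,k0],[k0,k1,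
    k0,k0,k1,k0],[k0,k1,k0,k0,k2,k0],[k0,k0,k2,k0,k0,k0],[k0,k0,k1,k1,k0,k0],[k0,k0,k1,k2,k0,k0],[k0,k0,k1,k0,k1,k0],
    [k0,k0,k1,k1,k1,k0],[k0,k0,k1,k0,k2,k0],[k0,k0,k1,k0,k1,k1],[k0,k0,k1,k0,k0,k1],[k0,k0,k0,k2,k0,k0],[k0,k0,k0,k3,
    k0,k0],[k0,k0,k0,k2,k1,k0],[k0,k0,k0,k1,k1,k0],[k0,k0,k0,k1,k0,k1],[k0,k0,k0,k0,k2,k0],[k0,k0,k0,k0,k3,k0],[k0,k0,
    k0,k0,k1,k1],[k0,k0,k0,k0,k0,k2]]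
    [.contra [z1],.contra [y2,z1,y4,y1,z4],.contra [z1,y2],.contra [z2,y3,z0,y1],.ref k109 k10 [(z1,[z1,z0,z2,z0,y2]),
    (z1,[z0,z0,y1,z0,z1])],.contra [y2,z1,y2,z1,z2],.contra [y2,z1,y2,z1,z2],.contra [z1,y1],.ref k109 k1 [(z1,[z1,z0,
    z2,z0,y2]),(z1,[z0,z0,y1,z0,z1])],.ref k0 k6 [(z1,[z1])],.ref k1 k4 [(z2,[z2,y1,z0,y1])],.ref k0 k9 [(z1,[z1,z0,
    z1,z1,y1])],.contra [y2,z1,z0,z3],.contra [z1,z0,z1,z1,y1],.contra [z2,y1,z0,y1],.contra [y2,z1,y2,z1,z2],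
    .contra [y2,z1,y4,y1,z4],.contra [y1,z0,y1,z0,z1],.ref k0 k2 [(z1,[z1])],.ref k0 k1 [(z2,[z2,y1,z0,y1])],
    .contra [z1],.ref k0 k1 [(z4,[y2,y1,z2,y1,z2])],.ref k0 k9 [(z1,[z1])],.ref k3 k2 [(z1,[y1,z0,z0,z0,z1])],
    .ref k1 k1 [(z1,[y1,z0,z1,z1])],.ref k163 k9 [(z1,[z1,z0,z0,z1,y1]),(z1,[z1])],.ref (nat_lit 224) k0 [(z2,[z0,y1,
    y2,y5,z2]),(z1,[z0,z0,z0,z1]),(z1,[y1,y1,y1,y5,z2]),(z2,[z0,z1,z0,z3])],.ref k0 k1 [(z2,[y2,y1,z0,y1,z2])],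
    .ref k1 k4 [(z1,[z1])],.ref k109 k0 [(z2,[y4,y3,y2,y3,z2]),(z2,[z2,z1,z0,z1])],.contra [z1],.contra [y2,z1,y2,z1,
    z2],.contra [y2,z1,y4,y1,z4],.contra [y1,z0,z0,z1],.contra [y1,z0,y1,z0,z1],.contra [z2,z1,z0,y1],.ref k0 k9 [(z1,
    [y1,z0,z1,z1])],.ref k1 k1 [(z1,[z1])],.contra [z1],.contra [y2,z1,y6,y3,z6],.contra [y1,z0,y2,y1,z2],.contra [z2,
    z1,z2,z3,y2],.ref k109 k0 [(z2,[z4,y1,y2,y1,y2]),(z1,[y1,z0,z0,z0,z1])],.contra [z1],.contra [z1,z1],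
    .ref k0 k1 [(z1,[z1])],.contra [y1,z0,z2]]),
    .geo true z1 k5 [(z0,z4),(z1,y1),(z1,y2),(z0,z2),(z2,y4),(z0,z1)] [(z1,[z1]),(z1,[z0,z1]),(z1,[z0,z0,z1]),(z1,[z0,z0,
    z0,z1]),(z1,[y1,y1,y1,y1,z1]),(z1,
    [])] z0 (Int.ofNat (nat_lit 524288)) (.s (.s (.l k1) (.s (.l k1) (.l k1))) (.s (.s (.l k1) (.l k1)) (.s (.l k1) (.s (.l k1) (.l k2))))) [⟨z1,
    z2,[[k0,k5],[k1,k2],[k3,k4]],.bnd k0⟩],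
    .geo true z2 k5 [(y1,z2),(z4,y4),(y2,z4),(z1,z0),(z6,y4),(z0,z2)] [(z1,[z1]),(z1,[z0,z2]),(z1,[z0,z0,z2]),(z1,[z0,z0,
    z0,z1]),(z1,[y1,y2,y2,y1,z2]),(z1,
    [])] (Int.ofNat (nat_lit 524288)) (Int.ofNat (nat_lit 1048576)) (.s (.s (.l k2) (.l k1)) (.l k1)) [⟨z1,z2,[[k0,
    k2],[k1,k5],[k3,k4]],.bnd k0⟩],
    .geo true z1 k5 [(y2,z6),(z0,z2),(z2,y4),(z2,y2),(z2,y3),(z0,z1)] [(z1,[z1]),(z1,[z0,z1]),(z1,[z0,z0,z1]),(z1,[z0,z0,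
    z0,z1]),(z1,[y1,y1,y1,y1,z1]),(z1,
    [])] (Int.ofNat (nat_lit 349525)) (Int.ofNat (nat_lit 524288)) (.s (.l k1) (.s (.s (.l k1) (.l k1)) (.l k1))) [],
    .geo true z1 k5 [(y2,z4),(y2,z3),(z4,y4),(z2,y2),(z2,y2),(z0,z1)] [(z1,[z1]),(z1,[z0,z1]),(z1,[z0,z0,z1]),(z1,[z0,z0,
    z0,z1]),(z1,[y1,y1,y1,y1,z1]),(z1,
    [])] (Int.ofNat (nat_lit 699050)) (Int.ofNat (nat_lit 1048576)) (.s (.s (.s (.l k1) (.l k1)) (.l k1)) (.s (.l k1) (.l k2))) [⟨z1,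
    z1,[[k0,k2],[k1,k4],[k3,k5]],.bnd k0⟩],
    .geo true z1 k5 [(y2,z6),(y2,z4),(z4,y6),(z2,y2),(z2,y3),(z0,z1)] [(z1,[z1]),(z1,[z0,z1]),(z1,[z0,z0,z1]),(z1,[z0,z0,
    z0,z1]),(z1,[y1,y1,y1,y1,z1]),(z1,
    [])] (Int.ofNat (nat_lit 524288)) (Int.ofNat (nat_lit 699051)) (.s (.s (.s (.l k1) (.l k1)) (.s (.l k1) (.l k1))) (.s (.l k1) (.l k2))) [⟨z2,
    z3,[[k0,k5],[k1,k2],[k3,k4]],.bnd k0⟩],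
    .geo true z3 k4 [(z0,z6),(z2,y3),(z6,y6),(z2,z0),(z0,z3),(z2,z0)] [(z1,[z3]),(z1,[z0,z1]),(z1,[z0,z0,z3]),(z1,[z0,z0,
    z0,z1]),(z1,[]),(z1,[y3,y1,y3,y1,
    z3])] z0 (Int.ofNat (nat_lit 699051)) (.s (.s (.s (.l k2) (.l k1)) (.l k1)) (.s (.s (.l k1) (.s (.l k1) (.l k1))) (.s (.l k1) (.l k1)))) [⟨z0,
    z1,[[k0,k5],[k1,k2],[k3,k4]],.bnd k0⟩],
    .old (.lp [(nat_lit 720),(nat_lit 480),(nat_lit 788),(nat_lit 720),(nat_lit 480),(nat_lit 640)] [k34,k34,k18,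
    (nat_lit 290),k0,k0,k50,k18,k154,k154,k74,k74] k0 [[k0,k0,k0,k0,k0,k0,k0,k0,(nat_lit 248)],[k0,k0,k0,k96],[k96,k0,
    k0,k0,k0,k0,k0,k0,(nat_lit 312)],[k0,k0,k0,k0,k0,k0,k0,(nat_lit 328)],[k0,k0,k0,k0,k0,k0,k68],[k0,k0,k0,k0,k0,k0,
    k0,k0,k0,k0,k0,(nat_lit 312)],[k0,k0,(nat_lit 328)],[k0,k0,k0,k0,k0,k68,k0,k0,k0,k78],[k0,k0,k0,k0,k0,k0,k78],[k0,
    (nat_lit 248),k0,(nat_lit 312)],[k0,k0,k0,k0,(nat_lit 312)]] (nat_lit 1920) k6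
    [[(k8,(nat_lit 600)),(k10,(nat_lit 680)),(k6,(nat_lit 704)),(k0,(nat_lit 720)),(k2,(nat_lit 736)),(k4,
    (nat_lit 1066))],[(k11,(nat_lit 432)),(k3,(nat_lit 464)),(k9,(nat_lit 600)),(k1,(nat_lit 720)),(k7,(nat_lit 736)),
    (k5,(nat_lit 850))],[(k2,(nat_lit 384)),(k10,(nat_lit 424)),(k6,(nat_lit 448)),(k0,(nat_lit 464)),(k4,
    (nat_lit 498)),(k8,(nat_lit 592))],[(k3,(nat_lit 384)),(k11,(nat_lit 384)),(k1,(nat_lit 736)),(k7,(nat_lit 752)),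
    (k5,(nat_lit 770)),(k9,(nat_lit 944))],[(k6,(nat_lit 410)),(k10,(nat_lit 714)),(k2,(nat_lit 770)),(k4,
    (nat_lit 788)),(k0,(nat_lit 850)),(k8,(nat_lit 946))],[(k3,(nat_lit 498)),(k9,(nat_lit 566)),(k11,(nat_lit 714)),
    (k7,(nat_lit 770)),(k5,(nat_lit 788)),(k1,(nat_lit 1066))],[(k10,(nat_lit 384)),(k8,(nat_lit 616)),(k0,
    (nat_lit 736)),(k2,(nat_lit 752)),(k4,(nat_lit 770)),(k6,(nat_lit 788))],[(k5,(nat_lit 410)),(k3,(nat_lit 448)),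
    (k9,(nat_lit 584)),(k1,(nat_lit 704)),(k11,(nat_lit 742)),(k7,(nat_lit 788))],[(k8,(nat_lit 402)),(k10,
    (nat_lit 560)),(k4,(nat_lit 566)),(k6,(nat_lit 584)),(k0,(nat_lit 600)),(k2,(nat_lit 944))],[(k9,(nat_lit 402)),
    (k11,(nat_lit 560)),(k3,(nat_lit 592)),(k1,(nat_lit 600)),(k7,(nat_lit 616)),(k5,(nat_lit 946))],[(k2,
    (nat_lit 384)),(k0,(nat_lit 432)),(k8,(nat_lit 560)),(k10,(nat_lit 640)),(k4,(nat_lit 714)),(k6,(nat_lit 742))],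
    [(k7,(nat_lit 384)),(k3,(nat_lit 424)),(k9,(nat_lit 560)),(k11,(nat_lit 640)),(k1,(nat_lit 680)),(k5,
    (nat_lit 714))]]
    [[k0,k4],[k0,k10,k2,k2],[k1,k3,k3,k11],[k1,k5],[k4,k8,k8],[k5,k9,k9],[k6,k6,k10],[k6,k10,k6],[k7,k7,k11],[k7,k11,
    k7]] k2
    [[k2,k0,k0,k0,k0,k0],[k2,k0,k0,k0,k0,k1],[k1,k1,k0,k0,k0,k0],[k1,k2,k0,k0,k0,k0],[k1,k1,k0,k0,k0,k1],[k1,k0,k0,k1,
    k0,k0],[k1,k0,k0,k1,k0,k1],[k1,k0,k0,k0,k1,k0],[k1,k0,k0,k0,k2,k0],[k1,k0,k0,k0,k1,k1],[k1,k0,k0,k0,k0,k1],[k1,k0,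
    k0,k0,k0,k2],[k0,k2,k0,k0,k0,k0],[k0,k3,k0,k0,k0,k0],[k0,k4,k0,k0,k0,k0],[k0,k3,k0,k0,k0,k1],[k0,k2,k1,k0,k0,k0],
    [k0,k2,k0,k1,k0,k0],[k0,k2,k0,k1,k0,k1],[k0,k2,k0,k0,k0,k1],[k0,k2,k0,k0,k0,k2],[k0,k1,k1,k0,k0,k0],[k0,k1,k1,k1,
    k0,k0],[k0,k1,k1,k1,k0,k1],[k0,k1,k1,k0,k0,k1],[k0,k1,k0,k1,k0,k0],[k0,k1,k0,k1,k0,k1],[k0,k1,k0,k1,k0,k2],[k0,k1,
    k0,k0,k1,k0],[k0,k1,k0,k0,k1,k1],[k0,k1,k0,k0,k0,k1],[k0,k1,k0,k0,k0,k2],[k0,k0,k2,k0,k0,k0],[k0,k0,k1,k1,k0,k0],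
    [k0,k0,k1,k1,k1,k0],[k0,k0,k1,k1,k0,k1],[k0,k0,k1,k0,k1,k0],[k0,k0,k1,k0,k0,k1],[k0,k0,k1,k0,k1,k1],[k0,k0,k0,k2,
    k0,k0],[k0,k0,k0,k1,k1,k0],[k0,k0,k0,k1,k2,k0],[k0,k0,k0,k1,k1,k1],[k0,k0,k0,k1,k0,k1],[k0,k0,k0,k1,k0,k2],[k0,k0,
    k0,k0,k2,k0],[k0,k0,k0,k0,k3,k0],[k0,k0,k0,k0,k4,k0],[k0,k0,k0,k0,k2,k1],[k0,k0,k0,k0,k1,k1],[k0,k0,k0,k0,k1,k2],
    [k0,k0,k0,k0,k0,k2]]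
    [.contra [z1],.ref k0 k0 [(z2,[y1,z0,y1,z0,z2])],.contra [y1,z1,z1],.contra [z1,y3,y2,y2,z2],.contra [y1,z1,z1],
    .ref k1 k2 [(z1,[z1])],.ref k0 k0 [(z1,[y1,y1,y1,y1,z2])],.ref (nat_lit 201) k4 [(z1,[z1,y1,z0,y1]),(z1,[y1,z0,z0,
    z0,z1])],.contra [z1,z1],.ref k3 k2 [(z1,[z1])],.contra [y1,z1,z1],.ref (nat_lit 226) k9 [(z1,[z1,y1,y2,z1]),(z2,
    [y1,y1,z0,y2,z2]),(z2,[y1,z1,z2]),(z1,[z1,y1,y1])],.contra [z1],.ref k62 k6 [(z1,[z1]),(z1,[z0,z1,z0,z1])],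
    .ref (nat_lit 227) k4 [(z2,[y1,z4,z4,z4,y4]),(z1,[z0,y2,y1,y2,z2]),(z2,[y1,z6,z4,z4,y4]),(z2,[z1])],
    .ref k0 k9 [(z1,[z1,z0,y1,z1])],.ref k0 k0 [(z2,[z1,y2,y2,y1,z2])],.ref k163 k6 [(z1,[z1,z1,z0,z1,y1]),(z1,[z0,z1,
    z0,z1])],.ref k0 k0 [(z1,[z1,z0,y1,z1])],.contra [y1,z1,z1],.ref k1 k1 [(z1,[z1,z0,y1,z1])],.ref k0 k9 [(z1,
    [z1])],.ref k3 k2 [(z1,[y1,z0,z0,z0,z1])],.ref (nat_lit 201) k4 [(z1,[y1,y1,z0,y1,z1]),(z1,[z1])],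
    .ref (nat_lit 228) k1 [(z1,[z2,z0,y1,y2]),(z1,[z0,z1]),(z1,[y1,z0,z1,z1]),(z1,[z0,z0,z0,z1])],.contra [y1,y1,z0,
    y1,z1],.contra [y2,y1,z0,y2,z2],.ref (nat_lit 229) k3 [(z1,[z2,z6,z2,z7,y6]),(z1,[z1,z4,z2,z4,y4]),(z1,[y2,y5,y2,
    y6,z6]),(z1,[z0,y2,y1,y2,z2])],.contra [y2,z0,z1,z1],.contra [y2,z1,z2],.contra [y1,z1,z1],
    .ref (nat_lit 230) k3 [(z1,[z2,z6,z2,z7,y6]),(z1,[z1,z4,z2,z4,y4]),(z1,[y2,y5,y2,y6,z6]),(z1,[z0,y2,y1,y2,z2])],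
    .contra [y1,z2,z0,z2],.ref k0 k0 [(z1,[z1])],.contra [z1,z1,z1,z0,y1],.ref k1 k2 [(z1,[y1,y1,y1,y1,z2])],
    .contra [y2,z1,z0,z2],.ref k1 k1 [(z1,[z1])],.ref (nat_lit 229) k3 [(z1,[z2,z4,z2,z3,y4]),(z1,[z1,z3,z2,z2,y3]),
    (z1,[y2,y3,y2,y2,z4]),(z1,[z0,y2,y1,y2,z2])],.contra [z1],.contra [y1,y1,z0,y1,z1],.ref k1 k2 [(z1,[z1,z1])],
    .contra [y1,y1,z0,y1,z1],.contra [y2,y1,z0,y2,z2],.ref (nat_lit 231) k2 [(z1,[z0,z1]),(z1,[y1,y1,z1,y1,z1]),(z1,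
    [z0,z0,z0,z1]),(z1,[y1,y4,y2,y4,z4])],.contra [z1],.ref (nat_lit 201) k4 [(z1,[z1,z0,z0,y1]),(z1,[y1,y1,z0,z0,
    z1])],.contra [z1,z2],.contra [y1,z0,z1],.contra [y2,z1,z2],.ref (nat_lit 225) k6 [(z1,[y2,z0,z1]),(z1,[z0,z1,z0,
    z1]),(z1,[z0,y2,y1,y2,z2])],.contra [z1]]),
    .old (.tor k0 false k1 [(z1,[y1,z0,z1]),(z1,[z0,y1,z1]),(z1,[z0,z1]),(z1,[z1])]),
    .geo true z2 k5 [(y2,z4),(z2,y2),(z3,y2),(z4,y2),(z1,z0),(z0,z2)] [(z1,[z2]),(z1,[z0,z2]),(z1,[z0,z0,z1]),(z1,[z0,z0,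
    z0,z2]),(z1,[y2,y2,y1,y2,z2]),(z1,
    [])] (Int.ofNat (nat_lit 524288)) (Int.ofNat (nat_lit 1048576)) (.s (.l k1) (.l k1)) [],
    .geo true z1 k5 [(z0,z3),(y2,z8),(z2,y5),(z2,y4),(z2,y3),(z0,z1)] [(z1,[z1]),(z1,[z0,z1]),(z1,[z0,z0,z1]),(z1,[z0,z0,
    z0,z1]),(z1,[y1,y1,y1,y1,z1]),(z1,
    [])] (Int.ofNat (nat_lit 262144)) (Int.ofNat (nat_lit 419431)) (.s (.s (.l k1) (.l k1)) (.s (.l k1) (.l k1))) []]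

noncomputable def cU6_3_n3_2 : List XN :=
  [.geo true z1 k5 [(y6,z6),(z6,y5),(z4,y3),(z2,y1),(y2,z2),(z0,z1)] [(z1,[z1]),(z1,[z0,z1]),(z1,[z0,z0,z1]),(z1,[z0,z0,
    z0,z1]),(z1,[y1,y1,y1,y1,z1]),(z1,
    [])] (Int.ofNat (nat_lit 1048576)) (Int.ofNat (nat_lit 1258292)) (.s (.s (.l k1) (.s (.l k1) (.s (.l k1) (.l k1)))) (.s (.s (.s (.l k1) (.l k1)) (.l k1)) (.l k1))) [],
    .geo true z1 k5 [(z0,z4),(z0,z3),(z0,z2),(z2,y6),(z2,y4),(z0,z1)] [(z1,[z1]),(z1,[z0,z1]),(z1,[z0,z0,z1]),(z1,[z0,z0,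
    z0,z1]),(z1,[y1,y1,y1,y1,z1]),(z1,
    [])] z0 (Int.ofNat (nat_lit 349526)) (.s (.s (.s (.s (.s (.l k2) (.l k1)) (.l k1)) (.l k1)) (.l k1)) (.s (.s (.l k1) (.s (.l k1) (.l k1))) (.s (.l k1) (.l k1)))) [⟨z0,
    z1,[[k0,k1],[k2,k3],[k4,k5]],.bnd k0⟩],
    .old (.lp [(nat_lit 766),(nat_lit 510),(nat_lit 876),(nat_lit 640),(nat_lit 404),(nat_lit 640)] [(nat_lit 238),k104,
    (nat_lit 299),(nat_lit 299),k0,(nat_lit 232),(nat_lit 234),(nat_lit 234),(nat_lit 374),(nat_lit 330),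
    (nat_lit 234),(nat_lit 234)] k0 [[k0,k0,k134,k0,k0,k0,k0,k0,(nat_lit 252)],[k0,k0,k0,k0,k0,k110],[k0,k0,k0,k0,
    k156,k0,k0,k0,k110],[k0,k134,k0,k0,k0,k0,k0,k32],[k110,k0,k0,k0,k0,k0,k0,k0,k0,k0,(nat_lit 620)],[k0,k0,k0,k156,
    k0,k0,k0,k0,k0,k50],[k0,k0,k32],[k0,k0,k0,k0,k0,k0,k0,k0,k0,k20,k0,k160],[k0,k0,k0,k0,k50,k0,k20],[k0,
    (nat_lit 252),k0,k110],[k0,k0,k0,k0,k0,k0,k160],[k0,k0,k0,k0,k0,(nat_lit 620)]] (nat_lit 1920) k6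
    [[(k4,(nat_lit 384)),(k8,(nat_lit 630)),(k2,(nat_lit 705)),(k0,(nat_lit 766)),(k10,(nat_lit 770)),(k6,
    (nat_lit 930))],[(k11,(nat_lit 384)),(k5,(nat_lit 504)),(k9,(nat_lit 540)),(k3,(nat_lit 571)),(k7,(nat_lit 746)),
    (k1,(nat_lit 766))],[(k0,(nat_lit 571)),(k6,(nat_lit 575)),(k10,(nat_lit 575)),(k2,(nat_lit 644)),(k8,
    (nat_lit 687)),(k4,(nat_lit 699))],[(k7,(nat_lit 419)),(k11,(nat_lit 465)),(k9,(nat_lit 511)),(k5,(nat_lit 577)),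
    (k3,(nat_lit 644)),(k1,(nat_lit 705))],[(k0,(nat_lit 504)),(k2,(nat_lit 577)),(k6,(nat_lit 610)),(k8,
    (nat_lit 612)),(k10,(nat_lit 642)),(k4,(nat_lit 1032))],[(k1,(nat_lit 384)),(k3,(nat_lit 699)),(k9,(nat_lit 778)),
    (k7,(nat_lit 874)),(k11,(nat_lit 924)),(k5,(nat_lit 1032))],[(k2,(nat_lit 419)),(k8,(nat_lit 450)),(k6,
    (nat_lit 640)),(k0,(nat_lit 746)),(k4,(nat_lit 874)),(k10,(nat_lit 1260))],[(k9,(nat_lit 544)),(k3,(nat_lit 575)),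
    (k5,(nat_lit 610)),(k7,(nat_lit 640)),(k11,(nat_lit 660)),(k1,(nat_lit 930))],[(k8,(nat_lit 384)),(k10,
    (nat_lit 384)),(k2,(nat_lit 511)),(k0,(nat_lit 540)),(k6,(nat_lit 544)),(k4,(nat_lit 778))],[(k9,(nat_lit 384)),
    (k7,(nat_lit 450)),(k11,(nat_lit 500)),(k5,(nat_lit 612)),(k1,(nat_lit 630)),(k3,(nat_lit 687))],[(k0,
    (nat_lit 384)),(k2,(nat_lit 465)),(k8,(nat_lit 500)),(k10,(nat_lit 640)),(k6,(nat_lit 660)),(k4,(nat_lit 924))],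
    [(k9,(nat_lit 384)),(k3,(nat_lit 575)),(k11,(nat_lit 640)),(k5,(nat_lit 642)),(k1,(nat_lit 770)),(k7,
    (nat_lit 1260))]]
    [] k0
    [[k2,k0,k0,k0,k0,k0],[k2,k0,k1,k0,k0,k0],[k1,k1,k0,k0,k0,k0],[k1,k1,k1,k0,k0,k0],[k1,k1,k0,k0,k0,k1],[k1,k0,k1,k0,
    k0,k0],[k2,k0,k2,k0,k0,k0],[k1,k0,k1,k1,k0,k0],[k1,k0,k1,k0,k1,k0],[k1,k0,k1,k0,k1,k1],[k1,k0,k1,k0,k0,k1],[k1,k0,
    k0,k1,k0,k0],[k1,k0,k0,k0,k1,k0],[k1,k1,k0,k0,k1,k0],[k1,k0,k0,k0,k2,k0],[k1,k0,k0,k0,k2,k1],[k1,k0,k0,k0,k1,k1],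
    [k1,k0,k0,k0,k0,k1],[k1,k0,k0,k0,k0,k2],[k0,k2,k0,k0,k0,k0],[k0,k2,k0,k1,k0,k0],[k0,k2,k0,k0,k1,k0],[k0,k2,k0,k0,
    k0,k1],[k0,k1,k1,k0,k0,k0],[k0,k1,k1,k1,k0,k0],[k0,k1,k1,k0,k1,k0],[k0,k1,k1,k0,k0,k1],[k0,k1,k0,k1,k0,k0],[k0,k1,
    k0,k2,k0,k0],[k0,k1,k0,k1,k1,k0],[k0,k1,k0,k1,k1,k1],[k0,k1,k0,k0,k1,k0],[k0,k1,k0,k0,k2,k0],[k0,k1,k0,k0,k1,k1],
    [k0,k1,k0,k0,k0,k1],[k0,k1,k0,k1,k0,k1],[k0,k1,k0,k0,k0,k2],[k0,k0,k1,k1,k0,k0],[k0,k0,k1,k1,k1,k0],[k0,k0,k1,k0,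
    k1,k0],[k0,k0,k1,k0,k2,k0],[k0,k0,k1,k0,k0,k1],[k0,k0,k0,k2,k0,k0],[k0,k0,k0,k2,k1,k0],[k0,k0,k0,k1,k1,k0],[k0,k0,
    k0,k1,k2,k0],[k0,k0,k0,k1,k3,k0],[k0,k0,k0,k1,k2,k1],[k0,k0,k0,k1,k1,k1],[k0,k0,k0,k0,k2,k0],[k0,k0,k0,k0,k3,k0],
    [k0,k0,k0,k0,k4,k0],[k0,k0,k0,k0,k3,k1],[k0,k0,k0,k0,k2,k1],[k0,k0,k0,k0,k2,k2],[k0,k0,k0,k0,k1,k1],[k0,k0,k0,k0,
    k1,k2],[k0,k0,k0,k0,k0,k2]]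
    [.contra [z1],.ref k3 k2 [(z1,[z1,y1,z0,y1])],.contra [y1,z0,z0,y1,z1],.contra [y1,z1,z1,z1],.contra [y1,y1,y1,y2,
    z2],.contra [y1,z1,z0,z2],.contra [y1,z2,z0,z4],.contra [z1,z0,z1,z0,y1],.contra [y1,z1,z1,z1],.contra [y1,z1,z0,
    z3],.ref k0 k0 [(z1,[y1,z0,y1,z1,z1])],.contra [y1,z0,z0,y1,z1],.contra [y1,z1,z1,z1],.contra [y1,z1,z1,z1],
    .contra [y1,z1,z2],.ref (nat_lit 232) k11 [(z1,[z1,y1,y2]),(z1,[z0,z1,z2]),(z1,[y1,z0,z1,y1,z1])],.ref k3 k2 [(z1,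
    [z1])],.ref k0 k2 [(z1,[z1])],.ref k0 k0 [(z2,[y1,y1,y2,z0,z2])],.contra [z1],.ref (nat_lit 232) k11 [(z1,[y1,y1,
    y1,y1,z1]),(z1,[z0,z1,z2]),(z1,[z1])],.contra [y1,z1,z2],.ref (nat_lit 237) k7 [(z1,[z1,y1,y3,y1,z1]),(z1,[z1,z0,
    y2,z1]),(z1,[z1,z0,y1]),(z1,[y2,z1,z4])],.contra [y1,z1,z1,z1],.ref k3 k2 [(z1,[y1,z0,z0,z0,z1])],.contra [z1,z0,
    y1,z1],.ref (nat_lit 233) k1 [(z1,[z0,z0,z0,z1]),(z1,[y1,z0,z0,z0,z1])],.contra [z1,z1,z0,z3,y1],.ref k0 k2 [(z1,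
    [y1,y1,y1,y2,z2])],.ref k0 k0 [(z1,[z1,z0,y1,z1])],.contra [z1,z1,z0,z2,y1],.contra [y1,z1,z1,z1],.contra [y1,z1,
    z2],.contra [y1,z0,z1],.contra [y1,z0,z1],.contra [z1,z1,z1,z1,y1],.ref k109 k0 [(z1,[y1,y3,y2,y3,z1]),(z1,[z0,z1,
    z1,z1])],.ref k0 k0 [(z1,[z1])],.contra [z1,y1,y1,y2,z1],.contra [y1,z1,z1,z1],.ref k0 k4 [(z1,[z1,y1,y1,y2,z1])],
    .contra [y1,z0,z0,z1],.contra [z1],.ref (nat_lit 236) k2 [(z1,[z2,z5,z4,z4,y4]),(z1,[y2,y4,y3,y4,z4]),(z1,[y1,y2,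
    y2,y1,z2]),(z1,[z0,y1,y1,y1,z1])],.ref k0 k4 [(z1,[z1])],.ref k109 k0 [(z1,[z1,y2,y2,y2]),(z1,[z0,z1,z1,z1])],
    .ref (nat_lit 235) k1 [(z1,[y1,y1,y1,y1,z1]),(z1,[y2,y1,y2,y2,z2]),(z1,[z1,z1,z2,z1,y1]),(z1,[z1,z1,z1,z2,y1])],
    .contra [z1,z1,z1,z1,y1],.contra [z1,z1,z1,z1,y1],.contra [z1],.ref k62 k4 [(z1,[z1]),(z1,[z0,y1,y1,y1,z1])],
    .ref (nat_lit 234) k2 [(z2,[z1,z2]),(z2,[y1,z0,z2]),(z2,[y1,z0,z0,z4]),(z1,[z0,y1,y1,y1,z1])],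
    .ref (nat_lit 233) k1 [(z1,[z0,z0,z0,z1]),(z1,[z1,z0,y1,y1,z1])],.contra [y1,z0,z1],.contra [y1,z0,z0,z2],
    .contra [y1,z0,z0,z1],.ref k0 k0 [(z1,[y1,y1,y1,z0,z1])],.contra [y1,y2,y2,y2,z2]]),
    .geo true z1 k5 [(y6,z6),(y2,z2),(z4,y3),(z2,y1),(z6,y5),(z0,z1)] [(z1,[z1]),(z1,[z0,z1]),(z1,[z0,z0,z1]),(z1,[z0,z0,
    z0,z1]),(z1,[y1,y1,y1,y1,z1]),(z1,
    [])] (Int.ofNat (nat_lit 1048576)) (Int.ofNat (nat_lit 1258292)) (.s (.l k1) (.s (.l k1) (.l k1))) [],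
    .geo true z5 k4 [(y2,z5),(z6,z0),(z10,y10),(z2,z0),(z0,z5),(z4,z0)] [(z1,[z1]),(z1,[z0,z1]),(z1,[z0,z0,z5]),(z1,[z0,
    z0,z0,z1]),(z1,[]),(z1,[y1,y1,y5,y1,
    z5])] (Int.ofNat (nat_lit 419430)) (Int.ofNat (nat_lit 1048576)) (.s (.s (.l k1) (.l k1)) (.s (.l k1) (.l k1))) [],
    .old (.lp [(nat_lit 260),(nat_lit 432),(nat_lit 278),(nat_lit 262),(nat_lit 266),(nat_lit 420)] [k188,k174,k36,k154,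
    k172,k172,k180,k180,k174,k182,(nat_lit 202),k0] k0 [[k0,k0,k70,k0,k0,k0,k0,k0,k4],[k0,k0,k0,k0,k0,k14],[k0,k0,k0,
    k0,(nat_lit 214),k0,k0,k0,(nat_lit 394)],[k0,k70,k0,k0,k0,k0,k0,k0,k0,k0,k0,k8],[k14],[k0,k0,k0,(nat_lit 214),k0,
    k0,k0,k22],[k0,k0,k0,k0,k22],[k0,k0,k0,k0,k0,k0,k0,k0,k0,k8,k0,k26],[k0,k0,k0,k0,k0,k0,k8,k0,k0,k0,k82],[k0,k4,k0,
    (nat_lit 394)],[k0,k0,k8,k0,k0,k0,k26],[k0,k0,k0,k0,k0,k0,k0,k0,k0,k82]] (nat_lit 960) k6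
    [[(k8,k192),(k10,(nat_lit 246)),(k0,(nat_lit 260)),(k4,(nat_lit 276)),(k6,(nat_lit 294)),(k2,(nat_lit 420))],[(k5,
    k192),(k9,(nat_lit 252)),(k1,(nat_lit 260)),(k7,(nat_lit 268)),(k3,(nat_lit 280)),(k11,(nat_lit 430))],[(k10,
    (nat_lit 266)),(k0,(nat_lit 280)),(k4,(nat_lit 282)),(k6,(nat_lit 288)),(k8,(nat_lit 298)),(k2,(nat_lit 502))],
    [(k7,k192),(k11,k192),(k9,(nat_lit 404)),(k5,(nat_lit 414)),(k1,(nat_lit 420)),(k3,(nat_lit 502))],[(k0,k192),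
    (k10,(nat_lit 240)),(k6,(nat_lit 270)),(k2,(nat_lit 414)),(k4,(nat_lit 492)),(k8,(nat_lit 670))],[(k7,
    (nat_lit 270)),(k1,(nat_lit 276)),(k3,(nat_lit 282)),(k9,(nat_lit 290)),(k11,(nat_lit 450)),(k5,(nat_lit 492))],
    [(k2,k192),(k6,(nat_lit 240)),(k10,(nat_lit 240)),(k0,(nat_lit 268)),(k8,(nat_lit 268)),(k4,(nat_lit 270))],[(k7,
    (nat_lit 240)),(k9,(nat_lit 260)),(k5,(nat_lit 270)),(k3,(nat_lit 288)),(k1,(nat_lit 294)),(k11,(nat_lit 450))],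
    [(k10,(nat_lit 212)),(k0,(nat_lit 252)),(k8,(nat_lit 258)),(k6,(nat_lit 260)),(k4,(nat_lit 290)),(k2,
    (nat_lit 404))],[(k1,k192),(k9,(nat_lit 258)),(k7,(nat_lit 268)),(k3,(nat_lit 298)),(k11,(nat_lit 448)),(k5,
    (nat_lit 670))],[(k2,k192),(k0,(nat_lit 430)),(k8,(nat_lit 448)),(k4,(nat_lit 450)),(k6,(nat_lit 450)),(k10,
    (nat_lit 502))],[(k9,(nat_lit 212)),(k5,(nat_lit 240)),(k7,(nat_lit 240)),(k1,(nat_lit 246)),(k3,(nat_lit 266)),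
    (k11,(nat_lit 502))]]
    [] k0
    [[k2,k0,k0,k0,k0,k0],[k3,k0,k0,k0,k0,k0],[k2,k0,k1,k0,k0,k0],[k2,k0,k0,k1,k0,k0],[k2,k0,k0,k0,k1,k0],[k2,k0,k1,k0,
    k1,k0],[k2,k0,k0,k0,k0,k1],[k1,k1,k0,k0,k0,k0],[k1,k1,k1,k0,k0,k0],[k1,k0,k1,k0,k0,k0],[k2,k0,k2,k0,k0,k0],[k1,k0,
    k1,k1,k0,k0],[k1,k0,k1,k0,k0,k1],[k1,k0,k0,k1,k0,k0],[k1,k1,k0,k1,k0,k0],[k1,k0,k0,k2,k0,k0],[k1,k0,k0,k1,k1,k0],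
    [k1,k0,k0,k0,k1,k0],[k2,k0,k0,k0,k2,k0],[k1,k1,k0,k0,k1,k0],[k1,k0,k1,k0,k1,k0],[k1,k1,k0,k1,k1,k0],[k1,k0,k1,k1,
    k1,k0],[k1,k0,k0,k0,k2,k0],[k1,k0,k1,k0,k2,k0],[k1,k0,k0,k0,k1,k1],[k1,k1,k0,k0,k1,k1],[k1,k0,k0,k0,k0,k1],[k1,k1,
    k0,k0,k0,k1],[k1,k1,k1,k0,k0,k1],[k0,k1,k1,k0,k0,k0],[k0,k1,k1,k1,k0,k0],[k0,k1,k1,k0,k0,k1],[k0,k1,k0,k1,k0,k0],
    [k0,k2,k0,k1,k0,k1],[k0,k1,k0,k2,k0,k0],[k0,k1,k0,k1,k0,k1],[k0,k1,k0,k0,k1,k0],[k0,k1,k0,k1,k1,k0],[k0,k1,k0,k0,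
    k1,k1],[k0,k1,k0,k0,k0,k1],[k0,k2,k0,k0,k0,k2],[k0,k0,k1,k1,k0,k0],[k0,k0,k1,k2,k0,k0],[k0,k0,k1,k1,k1,k0],[k0,k0,
    k1,k0,k0,k1],[k0,k0,k0,k2,k0,k0],[k0,k0,k0,k3,k0,k0],[k0,k0,k0,k2,k1,k0],[k0,k0,k0,k2,k0,k1],[k0,k0,k0,k1,k1,k0],
    [k0,k0,k0,k1,k2,k0],[k0,k0,k0,k1,k1,k1],[k0,k0,k0,k1,k0,k1],[k0,k0,k0,k0,k2,k0],[k0,k0,k0,k0,k3,k0],[k0,k0,k0,k0,
    k2,k1],[k0,k0,k0,k0,k1,k1]]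
    [.contra [z1],.ref (nat_lit 201) k9 [(z2,[y1,z1,z0,z2]),(z1,[z0,z0,z0,y1,z1])],.ref (nat_lit 201) k9 [(z1,[y1,z1,
    z0,z2]),(z1,[z0,z0,z0,y1,z1])],.contra [y1,z0,y1,y2,z2],.ref (nat_lit 240) k0 [(z1,[y2,y1,y5,y5,z5]),(z1,[z1,y2]),
    (z1,[z0,z0,z1]),(z1,[z2,z1])],.contra [y1,z2,z0,z5],.contra [y1,z0,y1,y2,z2],.contra [y1,z0,z0,y1,z1],
    .ref k1 k4 [(z1,[z1,y1,z0,y1])],.contra [y1,z1,z0,z2],.contra [y1,z2,z0,z4],.contra [y2,z1,y1,z0,z2],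
    .ref k0 k1 [(z1,[z1,y1,z0,y1])],.contra [y2,z1,y1,z0,z2],.contra [z1,z0,z1,z1,y1],.contra [y1,z0,y1,y2,z2],
    .ref k1 k4 [(z1,[z1,z0,z1,z1,y1])],.ref (nat_lit 201) k9 [(z1,[y1,z0,z0,z1]),(z1,[z0,z0,z0,y1,z1])],.contra [y1,
    z2,z0,z6],.ref (nat_lit 239) k1 [(z1,[y2,z2,z1]),(z1,[z0,z1]),(z1,[z1,y1]),(z1,[z0,z0,z0,z1])],.contra [y1,z1,z0,
    z3],.ref k1 k1 [(z1,[y1,z0,z0,z0,z1])],.contra [z1,z0,z1,z0,y1],.contra [y1,z1,z0,z4],.contra [z1,z1],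
    .ref k3 k2 [(z1,[z1])],.contra [z2,z1,y1],.contra [y1,z0,z0,y1,z1],.contra [y1,z0,z0,y1,z1],.contra [z2,y1,y1,y2],
    .contra [y2,z1,z1,z2],.ref k3 k2 [(z1,[y1,z0,z0,z0,z1])],.ref k1 k4 [(z1,[y1,z0,z1,z1])],.contra [y1,z0,z0,y1,z1],
    .contra [z1,z0,y1],.ref k163 k7 [(z1,[z1,z0,z0,z1,y1]),(z1,[z0,z0,z0,z1])],.contra [z1,z1,z0,z3,y1],
    .ref k1 k4 [(z1,[z1])],.ref k0 k1 [(z1,[y1,y1,z0,y1,z1])],.contra [z2,z1,y1],.contra [y1,z0,z1],.contra [y1,z0,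
    z2],.contra [y2,z1,y1,z0,z2],.ref k109 k9 [(z1,[z1,z0,z0,z2,y2]),(z1,[z0,z0,z0,y1,z1])],.contra [z1,z0,z0,y1],
    .ref k1 k1 [(z1,[z1])],.contra [z1],.ref k62 k0 [(z1,[z1]),(z1,[z0,z0,z0,z1])],.ref k3 k2 [(z1,[y1,y1,y1,y2,z2])],
    .contra [z1,z2,z1,z6,y2],.contra [y2,y1,y1,y2,z2],.contra [z1,z1,z1,z1,y1],.ref k1 k4 [(z1,[y1,y1,z0,y1,z1])],
    .contra [y1,z0,z0,y1,z1],.contra [y1,z0,z0,z2],.contra [z1,z2,z0,z1],.contra [z1,z1],.ref k0 k1 [(z1,[z1])]]),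
    .geo true z3 k4 [(y3,z3),(z2,z0),(z6,y3),(z5,y3),(z0,z3),(z2,z0)] [(z1,[z3]),(z1,[z0,z1]),(z1,[z0,z0,z3]),(z1,[z0,z0,
    z0,z1]),(z1,[]),(z1,[y3,y1,y3,y1,
    z3])] (Int.ofNat (nat_lit 1048576)) (Int.ofNat (nat_lit 1747627)) (.s (.l k1) (.s (.l k1) (.l k1))) [],
    .geo true z1 k5 [(z0,z2),(z1,y1),(z0,z1),(z1,z1),(z2,y4),(z0,z1)] [(z1,[z1]),(z1,[z0,z1]),(z1,[z0,z0,z1]),(z1,[z0,z0,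
    z0,z1]),(z1,[y1,y1,y1,y1,z1]),(z1,
    [])] z0 (Int.ofNat (nat_lit 524288)) (.s (.s (.l k2) (.l k1)) (.s (.l k1) (.l k1))) [⟨z0,z1,[[k0,k2],[k1,k3],[k4,
    k5]],.bnd k0⟩],
    .old (.lp [(nat_lit 45072),(nat_lit 46324),(nat_lit 52584),(nat_lit 51958),(nat_lit 51332),
    (nat_lit 52584)] [(nat_lit 18154),(nat_lit 18154),(nat_lit 17528),(nat_lit 17528),(nat_lit 28796),k0,
    (nat_lit 14711),(nat_lit 14711),(nat_lit 15024),(nat_lit 15024),(nat_lit 21598),(nat_lit 7198)] k0 [[k0,k0,k0,k0,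
    k0,k0,(nat_lit 6260),k0,k0,k0,(nat_lit 15024)],[k0,k0,k0,(nat_lit 626),k0,(nat_lit 626)],[(nat_lit 626)],[k0,k0,
    k0,k0,k0,(nat_lit 626),k0,k0,k0,(nat_lit 36308)],[(nat_lit 626),k0,(nat_lit 626)],[k0,k0,k0,k0,k0,k0,k0,
    (nat_lit 1878)],[k0,k0,k0,k0,(nat_lit 1878),k0,k0,k0,(nat_lit 29422)],[k0,(nat_lit 6260),k0,k0,k0,k0,k0,k0,k0,k0,
    k0,(nat_lit 6260)],[k0,k0,(nat_lit 36308)],[k0,k0,k0,k0,k0,k0,k0,(nat_lit 29422)],[k0,k0,k0,k0,k0,k0,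
    (nat_lit 6260)],[k0,(nat_lit 15024)]] (nat_lit 150240) k6
    [[(k0,(nat_lit 30048)),(k4,(nat_lit 34430)),(k10,(nat_lit 41628)),(k2,(nat_lit 45698)),(k8,(nat_lit 48202)),(k6,
    (nat_lit 54775))],[(k1,(nat_lit 30048)),(k9,(nat_lit 41942)),(k3,(nat_lit 45698)),(k7,(nat_lit 49141)),(k11,
    (nat_lit 56028)),(k5,(nat_lit 63852))],[(k4,(nat_lit 34430)),(k0,(nat_lit 45698)),(k2,(nat_lit 45698)),(k8,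
    (nat_lit 48828)),(k6,(nat_lit 55401)),(k10,(nat_lit 57278))],[(k1,(nat_lit 45698)),(k3,(nat_lit 45698)),(k9,
    (nat_lit 48828)),(k7,(nat_lit 49767)),(k5,(nat_lit 63852)),(k11,(nat_lit 92962))],[(k8,(nat_lit 30048)),(k4,
    (nat_lit 51958)),(k10,(nat_lit 59782)),(k0,(nat_lit 63852)),(k2,(nat_lit 63852)),(k6,(nat_lit 66669))],[(k1,
    (nat_lit 34430)),(k3,(nat_lit 34430)),(k7,(nat_lit 37873)),(k9,(nat_lit 39438)),(k11,(nat_lit 45386)),(k5,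
    (nat_lit 51958))],[(k4,(nat_lit 37873)),(k10,(nat_lit 45071)),(k0,(nat_lit 49141)),(k2,(nat_lit 49767)),(k6,
    (nat_lit 50080)),(k8,(nat_lit 51645))],[(k11,(nat_lit 30049)),(k7,(nat_lit 50080)),(k9,(nat_lit 51645)),(k1,
    (nat_lit 54775)),(k3,(nat_lit 55401)),(k5,(nat_lit 66669))],[(k10,(nat_lit 38498)),(k4,(nat_lit 39438)),(k0,
    (nat_lit 41942)),(k2,(nat_lit 48828)),(k6,(nat_lit 51645)),(k8,(nat_lit 80754))],[(k5,(nat_lit 30048)),(k1,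
    (nat_lit 48202)),(k3,(nat_lit 48828)),(k7,(nat_lit 51645)),(k11,(nat_lit 59158)),(k9,(nat_lit 80754))],[(k6,
    (nat_lit 30049)),(k4,(nat_lit 45386)),(k10,(nat_lit 52584)),(k0,(nat_lit 56028)),(k8,(nat_lit 59158)),(k2,
    (nat_lit 92962))],[(k9,(nat_lit 38498)),(k1,(nat_lit 41628)),(k7,(nat_lit 45071)),(k11,(nat_lit 52584)),(k3,
    (nat_lit 57278)),(k5,(nat_lit 59782))]]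
    [] k0
    [[k2,k0,k0,k0,k0,k0],[k3,k0,k0,k0,k0,k0],[k4,k0,k0,k0,k0,k0],[k2,k1,k0,k0,k0,k0],[k2,k0,k1,k0,k0,k0],[k2,k0,k1,k0,
    k1,k0],[k2,k0,k0,k1,k0,k0],[k2,k0,k0,k0,k1,k0],[k2,k0,k0,k0,k0,k1],[k1,k1,k0,k0,k0,k0],[k1,k2,k0,k0,k0,k0],[k1,k1,
    k1,k0,k0,k0],[k1,k1,k0,k0,k1,k0],[k1,k0,k1,k0,k0,k0],[k1,k0,k1,k0,k1,k0],[k1,k0,k0,k1,k0,k0],[k1,k0,k0,k1,k1,k0],
    [k1,k0,k0,k0,k1,k0],[k1,k0,k0,k0,k1,k1],[k1,k0,k0,k0,k0,k1],[k1,k0,k0,k1,k0,k1],[k0,k2,k0,k0,k0,k0],[k0,k3,k0,k0,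
    k0,k0],[k0,k2,k1,k0,k0,k0],[k0,k2,k0,k0,k1,k0],[k0,k1,k1,k0,k0,k0],[k0,k1,k1,k0,k1,k0],[k0,k1,k0,k1,k0,k0],[k0,k1,
    k0,k0,k1,k0],[k0,k1,k0,k1,k0,k1],[k0,k0,k2,k0,k0,k0],[k0,k0,k2,k0,k1,k0],[k0,k0,k1,k1,k0,k0],[k0,k0,k1,k0,k1,k0],
    [k0,k0,k2,k0,k2,k0],[k0,k0,k1,k1,k1,k0],[k0,k0,k1,k0,k1,k1],[k0,k0,k1,k1,k1,k1],[k0,k0,k1,k0,k0,k1],[k0,k0,k1,k1,
    k0,k1],[k0,k0,k0,k2,k0,k0],[k0,k0,k0,k2,k0,k1],[k0,k0,k0,k1,k1,k0],[k0,k0,k0,k1,k1,k1],[k0,k0,k0,k1,k0,k1],[k0,k0,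
    k0,k1,k0,k2],[k0,k0,k0,k0,k1,k1],[k0,k0,k0,k0,k0,k2]]
    [.contra [z1],.ref k62 k2 [(z1,[z1]),(z1,[z0,z0,z1])],.ref k3 k2 [(z2,[z1,y2])],.ref k0 k9 [(z1,[y1,z2,z2,z1])],
    .contra [y1,z2,z2,z1],.ref (nat_lit 243) k4 [(z1,[z1,z0,z2,z1,y2]),(z1,[z0,y1,y1,y1,z1]),(z1,[z1,z0,z1,z0,y1]),
    (z1,[z0,z1,z2,z1,y1])],.contra [y1,z0,y2,y1,z2],.ref k163 k8 [(z1,[z1,z0,z1,z0,y1]),(z1,[z0,z0,z1])],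
    .ref k109 k1 [(z1,[z1,z0,z2,z0,y2]),(z1,[z0,z0,y1,z0,z1])],.contra [z1,y1,y1],.contra [z1,y2,y4,y2,z2],
    .contra [y1,z1,z1,z1],.contra [y1,z1,z1,z1],.contra [y1,z0,y2,y1,z2],.contra [y1,z1,z1,z1],.contra [y4,z2,y2,y1,
    z4],.contra [z1,z0,z1,z1,y1],.contra [y1,z0,y1,z0,z1],.ref k3 k2 [(z1,[z1])],.contra [y2,y2,y4,y3,z4],.contra [z1,
    z1,z1,z1,y1],.contra [z1],.contra [z1,y2,y4,y2,z2],.contra [y1,z2,z2,z1],.contra [z1,y2,y5,y3,z3],.ref k0 k9 [(z1,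
    [z1])],.contra [y1,z1,z1,z1],.ref (nat_lit 201) k1 [(z1,[y1,z0,z1]),(z1,[z0,z0,y1,z0,z1])],.ref k1 k4 [(z1,[z1])],
    .contra [z1,z1,z1,z1,y1],.contra [z1],.ref (nat_lit 242) k0 [(z1,[z0,y1,y2,y1,z1]),(z1,[y1,z0,z0,z2]),(z1,[z0,z0,
    z1]),(z1,[y1,z3,z3,z2])],.contra [y1,z0,y2,y1,z2],.contra [y1,z0,y1,z0,z1],.contra [y1,z0,z0,z2],.contra [y1,z0,
    y1,z0,z1],.ref k1 k4 [(z1,[y1,z0,z1,z1])],.contra [y1,y1,y1,z0,z1],.ref k1 k1 [(z1,[z1])],.contra [z1,z1,z1,z1,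
    y1],.contra [z1],.contra [z1,z1,z1,z1,y1],.contra [y1,z0,y1,z0,z1],.contra [z1,z1,z1,z1,y1],.contra [y4,y2,y2,y3,
    z4],.contra [y1,y1,z0,y1,z1],.contra [z1,z1],.contra [y1,z0,z2]]),
    .old (.lp [k166,k118,k178,k194,k120,k182] [k74,k18,k70,k70,k40,k40,k52,k12,k69,k69,k0,k76] k0 [[k0,k0,k18,k0,k0,k0,k0,
    k0,k8],[k0,k0,k0,k0,k0,k48,k0,k0,k0,k0,k0,k92],[k0,k0,k0,k0,k80],[k0,k18,k0,k0,k0,k0,k0,k2],[k48,k0,k0,k0,k0,k0,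
    k0,k0,k0,k0,k104],[k0,k0,k0,k80],[k0,k0,k2],[],[],[k0,k8],[k92],[k0,k0,k0,k0,k0,k104]] (nat_lit 480) k6
    [[(k4,k96),(k2,k170),(k8,k171),(k6,k188),(k10,(nat_lit 240)),(k0,(nat_lit 258))],[(k11,k100),(k3,k114),(k9,k115),
    (k5,k126),(k7,(nat_lit 220)),(k1,(nat_lit 258))],[(k10,k96),(k4,k100),(k0,k114),(k8,k127),(k2,k136),(k6,k136)],
    [(k7,k96),(k11,k112),(k9,k121),(k3,k136),(k5,k148),(k1,k170)],[(k0,k126),(k2,k148),(k8,k149),(k6,k164),(k10,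
    (nat_lit 218)),(k4,(nat_lit 258))],[(k1,k96),(k3,k100),(k11,k142),(k9,k149),(k7,(nat_lit 206)),(k5,
    (nat_lit 258))],[(k2,k96),(k8,k177),(k6,k194),(k4,(nat_lit 206)),(k0,(nat_lit 220)),(k10,(nat_lit 350))],[(k11,
    k130),(k3,k136),(k9,k137),(k5,k164),(k1,k188),(k7,k194)],[(k0,k115),(k8,k120),(k2,k121),(k6,k137),(k4,k149),(k10,
    k189)],[(k11,k113),(k9,k120),(k3,k127),(k5,k149),(k1,k171),(k7,k177)],[(k0,k100),(k2,k112),(k8,k113),(k6,k130),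
    (k4,k142),(k10,k182)],[(k3,k96),(k11,k182),(k9,k189),(k5,(nat_lit 218)),(k1,(nat_lit 240)),(k7,(nat_lit 350))]]
    [] k0
    [[k1,k1,k0,k0,k0,k0],[k1,k2,k0,k0,k0,k0],[k1,k1,k1,k0,k0,k0],[k1,k1,k0,k0,k1,k0],[k1,k1,k0,k0,k0,k1],[k1,k0,k1,k0,
    k0,k0],[k2,k0,k2,k0,k0,k0],[k1,k1,k2,k0,k0,k0],[k1,k1,k1,k0,k0,k1],[k1,k1,k1,k1,k0,k0],[k1,k0,k1,k0,k1,k0],[k1,k0,
    k1,k0,k0,k1],[k1,k0,k0,k1,k0,k0],[k1,k1,k0,k1,k0,k0],[k1,k0,k0,k0,k1,k0],[k1,k0,k0,k0,k2,k0],[k1,k0,k0,k0,k1,k1],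
    [k1,k0,k0,k0,k0,k1],[k0,k2,k0,k0,k0,k0],[k0,k3,k0,k0,k0,k0],[k0,k2,k1,k0,k0,k0],[k0,k2,k0,k1,k0,k0],[k0,k2,k0,k0,
    k1,k0],[k0,k2,k0,k0,k0,k1],[k0,k2,k0,k1,k0,k1],[k0,k2,k0,k0,k1,k1],[k0,k1,k1,k0,k0,k0],[k0,k2,k1,k0,k0,k1],[k0,k1,
    k1,k1,k0,k0],[k0,k1,k1,k0,k1,k0],[k0,k1,k1,k0,k0,k1],[k0,k1,k0,k1,k0,k0],[k0,k2,k0,k2,k0,k0],[k0,k1,k0,k2,k0,k0],
    [k0,k1,k0,k1,k1,k0],[k0,k1,k0,k0,k1,k0],[k0,k1,k0,k0,k2,k0],[k0,k1,k0,k0,k1,k1],[k0,k1,k0,k0,k0,k1],[k0,k2,k0,k0,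
    k0,k2],[k0,k1,k0,k1,k0,k1],[k0,k1,k0,k1,k1,k1],[k0,k1,k0,k0,k2,k1],[k0,k1,k0,k0,k0,k2],[k0,k0,k1,k1,k0,k0],[k0,k0,
    k1,k0,k1,k0],[k0,k0,k1,k0,k2,k0],[k0,k0,k1,k0,k0,k1],[k0,k0,k0,k2,k0,k0],[k0,k0,k0,k1,k1,k0],[k0,k0,k0,k1,k2,k0],
    [k0,k0,k0,k0,k2,k0],[k0,k0,k0,k0,k3,k0],[k0,k0,k0,k0,k2,k1],[k0,k0,k0,k0,k1,k1],[k0,k0,k0,k0,k0,k2]]
    [.contra [y3,z2,z1],.contra [y3,z1,z2],.contra [y3,z1,z1,z1],.contra [z3,z1,y1],.ref k3 k4 [(z1,[y1,z0,z0,z0,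
    z1])],.contra [z3,z1,z0,y1],.contra [y3,z4,z0,z2],.contra [z3,y1,z0,y2],.ref k0 k4 [(z1,[y1,z0,z0,z0,z1])],
    .ref k0 k1 [(z1,[y1,z0,z0,z0,z1])],.contra [y3,z1,z1,z1],.ref k0 k0 [(z3,[y3,z0,y1,z1,z3])],.ref k0 k0 [(z3,[z3,
    y1,z0,z1])],.ref k3 k2 [(z3,[y3,z1,z0,y1,z3])],.contra [y3,z2,z1],.contra [y3,z1,z2],.ref k3 k2 [(z1,[z1])],
    .ref k0 k2 [(z1,[z1])],.contra [z1],.contra [y1,z0,z1],.contra [y3,z0,z2,z1],.ref (nat_lit 232) k11 [(z3,[y3,y1,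
    y1,y1,z3]),(z3,[z0,z1,z2]),(z1,[z1])],.contra [y3,z1,z2],.ref (nat_lit 232) k0 [(z3,[y3,y1,y1,y1,z3]),(z3,[z0,z0,
    z2,z1]),(z1,[z1])],.contra [z3,z1,z1,z1,y3],.ref k3 k4 [(z3,[y3,y1,z1,z0,z3])],.contra [y3,z1,z1,z1],
    .ref k109 k0 [(z3,[y3,y3,y1,y2,z3]),(z3,[z0,z1,z1,z1])],.ref k3 k2 [(z1,[y1,z0,z0,z0,z1])],.contra [z3,z2,y1,y1],
    .ref k3 k4 [(z3,[y3,y1,z0,z1,z3])],.ref k62 k9 [(z1,[z0,z0,z0,z1]),(z1,[z1])],.ref (nat_lit 244) k4 [(z6,[y3,z0,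
    z2,y2]),(z3,[z0,y1,y1,y1,z3]),(z3,[z0,z1,z0,z2])],.ref (nat_lit 241) k6 [(z3,[z3,z2,z2,z2,y6]),(z3,[z0,z1,z0,z2]),
    (z3,[z0,y1,y1,y1,z3])],.ref k0 k0 [(z3,[z3,z0,y1,z1])],.contra [z3,z4,y1],.contra [y3,z1,z2],.ref k0 k2 [(z3,[z3,
    z1,y1])],.ref k62 k2 [(z1,[z0,z1]),(z1,[z1])],.ref (nat_lit 244) k5 [(z6,[y3,y2,z2]),(z3,[z0,y1,y1,y1,z3]),(z3,
    [z0,z2,z0,z1])],.contra [z3,z1,z1,z1,y3],.contra [y3,z1,z0,y1,z3],.ref k3 k2 [(z3,[z3,z1,y1])],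
    .ref (nat_lit 241) k10 [(z3,[z3,z2,z2,z2,y6]),(z3,[z0,z2,z0,z1]),(z3,[z0,y1,y1,y1,z3])],.ref k0 k0 [(z1,[z1])],
    .contra [y3,z1,z1,z1],.contra [y3,z0,z2,z1],.ref k0 k2 [(z3,[z3,z1,z0,y1])],.contra [z1],.ref k0 k4 [(z1,[z1])],
    .ref k109 k0 [(z3,[z3,y2,y2,y2]),(z3,[z0,z1,z1,z1])],.contra [z1],.contra [y1,z0,z1],.ref k109 k11 [(z3,[z3,y2,y2,
    y2]),(z3,[z0,z1,z1,z1])],.ref k0 k1 [(z1,[z1])],.contra [y3,y2,y2,y2,z6]]),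
    .old (.lp [(nat_lit 638),(nat_lit 642),(nat_lit 636),(nat_lit 646),(nat_lit 638),(nat_lit 638)] [(nat_lit 234),
    (nat_lit 234),(nat_lit 464),k0,(nat_lit 235),(nat_lit 235),(nat_lit 230),(nat_lit 230),(nat_lit 456),k12,
    (nat_lit 234),(nat_lit 234)] k0 [[k0,k0,k0,k0,k0,k0,(nat_lit 476)],[k0,k0,k0,k0,k0,k0,k0,k0,k0,k0,k0,
    (nat_lit 488)],[k0,k0,k0,k0,k0,k0,k0,k0,k8,k0,k2],[k0,k0,k0,k0,k0,k156],[k0,k0,k156],[k0,k0,k0,k0,k0,k0,k0,k6],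
    [k0,k0,k0,k0,k6,k0,k0,k0,k2],[k0,(nat_lit 476)],[k0,k0,k0,k0,k0,k0,k0,k0,k0,k0,k6],[k0,k0,k0,k8,k0,k0,k0,k2],
    [(nat_lit 488)],[k0,k0,k0,k2,k0,k0,k0,k0,k0,k6]] (nat_lit 1920) k6
    [[(k2,(nat_lit 406)),(k8,(nat_lit 410)),(k4,(nat_lit 637)),(k10,(nat_lit 638)),(k6,(nat_lit 642)),(k0,
    (nat_lit 1126))],[(k9,(nat_lit 384)),(k5,(nat_lit 637)),(k11,(nat_lit 638)),(k7,(nat_lit 642)),(k3,(nat_lit 872)),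
    (k1,(nat_lit 1126))],[(k10,(nat_lit 384)),(k2,(nat_lit 642)),(k8,(nat_lit 650)),(k4,(nat_lit 871)),(k0,
    (nat_lit 872)),(k6,(nat_lit 1352))],[(k11,(nat_lit 400)),(k1,(nat_lit 406)),(k5,(nat_lit 407)),(k7,(nat_lit 568)),
    (k9,(nat_lit 630)),(k3,(nat_lit 642))],[(k2,(nat_lit 407)),(k8,(nat_lit 423)),(k4,(nat_lit 480)),(k0,
    (nat_lit 637)),(k10,(nat_lit 639)),(k6,(nat_lit 641))],[(k5,(nat_lit 480)),(k1,(nat_lit 637)),(k11,(nat_lit 637)),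
    (k7,(nat_lit 641)),(k9,(nat_lit 865)),(k3,(nat_lit 871))],[(k8,(nat_lit 420)),(k2,(nat_lit 568)),(k6,
    (nat_lit 640)),(k4,(nat_lit 641)),(k0,(nat_lit 642)),(k10,(nat_lit 642))],[(k7,(nat_lit 640)),(k11,(nat_lit 640)),
    (k5,(nat_lit 641)),(k1,(nat_lit 642)),(k9,(nat_lit 864)),(k3,(nat_lit 1352))],[(k0,(nat_lit 384)),(k2,
    (nat_lit 630)),(k8,(nat_lit 640)),(k10,(nat_lit 860)),(k6,(nat_lit 864)),(k4,(nat_lit 865))],[(k1,(nat_lit 410)),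
    (k11,(nat_lit 416)),(k7,(nat_lit 420)),(k5,(nat_lit 423)),(k9,(nat_lit 640)),(k3,(nat_lit 650))],[(k2,
    (nat_lit 400)),(k8,(nat_lit 416)),(k4,(nat_lit 637)),(k0,(nat_lit 638)),(k6,(nat_lit 640)),(k10,(nat_lit 644))],
    [(k3,(nat_lit 384)),(k1,(nat_lit 638)),(k5,(nat_lit 639)),(k7,(nat_lit 642)),(k11,(nat_lit 644)),(k9,
    (nat_lit 860))]]
    [] k0
    [[k1,k1,k0,k0,k0,k0],[k1,k1,k1,k0,k0,k0],[k1,k1,k0,k0,k1,k0],[k1,k1,k0,k0,k0,k1],[k1,k1,k0,k0,k1,k1],[k1,k0,k1,k0,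
    k0,k0],[k1,k0,k2,k0,k0,k0],[k1,k0,k1,k0,k1,k0],[k1,k0,k1,k0,k0,k1],[k1,k0,k0,k1,k0,k0],[k1,k0,k0,k1,k1,k0],[k1,k0,
    k0,k0,k1,k0],[k2,k0,k0,k0,k2,k0],[k1,k0,k0,k0,k2,k0],[k1,k0,k0,k0,k1,k1],[k1,k0,k0,k0,k0,k1],[k0,k2,k0,k0,k0,k0],
    [k0,k2,k0,k0,k0,k1],[k0,k1,k1,k0,k0,k0],[k0,k1,k2,k0,k0,k0],[k0,k1,k1,k0,k0,k1],[k0,k1,k0,k0,k1,k0],[k0,k1,k0,k0,
    k1,k1],[k0,k1,k0,k0,k0,k1],[k0,k2,k0,k0,k0,k2],[k0,k1,k2,k0,k0,k1],[k0,k1,k0,k1,k0,k1],[k0,k1,k0,k0,k0,k2],[k0,k0,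
    k2,k0,k0,k0],[k0,k0,k3,k0,k0,k0],[k0,k0,k2,k1,k0,k0],[k0,k0,k2,k0,k1,k0],[k0,k0,k2,k0,k0,k1],[k0,k0,k1,k1,k0,k0],
    [k0,k0,k1,k0,k1,k0],[k0,k0,k1,k0,k0,k1],[k0,k0,k0,k2,k0,k0],[k0,k0,k0,k1,k1,k0],[k0,k0,k0,k1,k0,k1],[k0,k0,k0,k0,
    k2,k0],[k0,k0,k0,k0,k2,k1],[k0,k0,k0,k0,k1,k1],[k0,k0,k0,k0,k0,k2]]
    [.ref k0 k6 [(z1,[z1])],.ref k3 k1 [(z1,[y1,z0,z0,z1])],.ref k1 k2 [(z1,[y1,z1,z1])],.ref k3 k4 [(z1,[y1,z0,z0,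
    z1])],.ref k0 k0 [(z1,[y1,z0,z0,z1])],.contra [y1,z0,y1,z1],.ref k163 k3 [(z1,[z1,z0,z1,y1]),(z1,[z0,z0,z1])],
    .contra [y1,z0,y1,z1],.contra [z1,z1,z1,y1],.ref k1 k2 [(z1,[z1])],.ref k0 k6 [(z1,[y1,z1,z1])],.contra [y1,z1],
    .contra [y1,z2],.ref (nat_lit 245) k4 [(z1,[z2,y1]),(z1,[y1,y1,y3,z3]),(z1,[y1,z2])],.contra [y1,z0,y1,z1],
    .contra [y1,z0,y1,z1],.contra [z1],.ref (nat_lit 241) k1 [(z1,[z1,z0,y2]),(z1,[z0,z1]),(z1,[z0,z0,z1])],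
    .ref k0 k9 [(z1,[z1])],.ref k109 k6 [(z1,[z1,z0,z2,y2]),(z1,[z0,z0,y1,z1])],.ref k0 k6 [(z1,[z1,z1,z1,y1])],
    .ref k1 k4 [(z1,[z1])],.ref (nat_lit 238) k4 [(z1,[z2,z1,z0,y2]),(z1,[y1,y1,y1,z2]),(z1,[y1,z0,z0,z1])],
    .ref k163 k8 [(z1,[z1,z1,z0,y1]),(z1,[z1])],.ref (nat_lit 244) k9 [(z2,[y1,y2,y2,z2]),(z1,[z0,z0,z1]),(z1,[z0,
    z1])],.ref k3 k1 [(z1,[y1,y1,y1,z2])],.contra [z1,z0,y1],.ref (nat_lit 232) k7 [(z1,[y1,z0,z1]),(z1,[z0,y1,y2,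
    z2]),(z1,[z1])],.contra [z1],.ref k62 k9 [(z1,[z1]),(z1,[z0,z0,z1])],.ref k109 k7 [(z1,[z1,z0,z2,y2]),(z1,[z0,z0,
    y1,z1])],.contra [y1,y1,y2,z2],.contra [y1,y1,y2,z2],.ref k0 k0 [(z1,[z1])],.contra [y1,z0,y1,z1],.contra [y1,z0,
    y1,z1],.contra [y1,z0,z2],.ref k0 k4 [(z1,[z1])],.ref (nat_lit 201) k6 [(z1,[y1,z0,z1]),(z1,[z0,z0,y1,z1])],
    .contra [z1],.ref (nat_lit 225) k3 [(z1,[y2,y1,y2,z2]),(z1,[z0,z0,z1]),(z1,[z0,z1])],.contra [y1,z0,y1,z1],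
    .contra [z1]]),
    .old (.leafM k12 [k0,k1,k2,k4] [(z1,[z0,z1]),(z1,[y2,y1,y2,z2]),(z1,[z1])] [(k3,k5,z1,[z0,z0,z1]),(k5,k3,z1,[z0,z0,
    z1])])]

noncomputable def cU6_3_n3_3 : List XN :=
  [.geo true z3 k4 [(z0,z6),(z4,z0),(z3,y3),(z3,y6),(z0,z3),(z2,z0)] [(z1,[z3]),(z1,[z0,z1]),(z1,[z0,z0,z3]),(z1,[z0,z0,
    z0,z3]),(z1,[]),(z1,[y3,y1,y3,y3,z3])] z0 (Int.ofNat (nat_lit 524288)) (.s (.l k1) (.l k1)) [],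
    .old (.lp [(nat_lit 964),(nat_lit 1176),(nat_lit 952),(nat_lit 858),(nat_lit 706),(nat_lit 1098)] [k106,k106,k0,k0,
    k112,k112,k159,k159,(nat_lit 235),(nat_lit 235),k39,k39] k0 [[k0,k0,k0,k0,k0,k0,k0,k0,k34,k0,(nat_lit 388)],[k0,
    k0,k0,k0,k0,k130],[k0,k0,k0,k0,k12,k0,(nat_lit 212)],[k0,k0,k0,k0,k0,k0,k0,k0,k0,(nat_lit 218)],[k130],[k0,k0,k0,
    k12],[k0,k0,k0,k0,k0,k0,k0,k0,k0,k0,(nat_lit 224)],[k0,k0,k0,(nat_lit 212),k0,k0,k0,k0,k0,k72],[k0,k0,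
    (nat_lit 218),k0,k0,k0,k72],[k0,k34,k0,k0,k0,k0,k0,k0,k0,k0,k0,(nat_lit 246)],[k0,k0,k0,k0,k0,k0,k0,k0,
    (nat_lit 246)],[k0,(nat_lit 388),k0,k0,k0,k0,k0,(nat_lit 224)]] (nat_lit 2880) k6
    [[(k0,(nat_lit 576)),(k6,(nat_lit 687)),(k4,(nat_lit 958)),(k10,(nat_lit 1031)),(k2,(nat_lit 1070)),(k8,
    (nat_lit 1081))],[(k1,(nat_lit 576)),(k9,(nat_lit 835)),(k5,(nat_lit 958)),(k11,(nat_lit 997)),(k7,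
    (nat_lit 1041)),(k3,(nat_lit 1070))],[(k4,(nat_lit 934)),(k8,(nat_lit 975)),(k6,(nat_lit 1017)),(k0,
    (nat_lit 1070)),(k2,(nat_lit 1176)),(k10,(nat_lit 1525))],[(k9,(nat_lit 729)),(k7,(nat_lit 1005)),(k5,
    (nat_lit 1064)),(k1,(nat_lit 1070)),(k3,(nat_lit 1176)),(k11,(nat_lit 1355))],[(k8,(nat_lit 611)),(k0,
    (nat_lit 958)),(k4,(nat_lit 964)),(k10,(nat_lit 1025)),(k2,(nat_lit 1064)),(k6,(nat_lit 1117))],[(k9,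
    (nat_lit 829)),(k7,(nat_lit 905)),(k3,(nat_lit 934)),(k1,(nat_lit 958)),(k5,(nat_lit 964)),(k11,(nat_lit 1025))],
    [(k8,(nat_lit 782)),(k6,(nat_lit 858)),(k4,(nat_lit 905)),(k10,(nat_lit 978)),(k2,(nat_lit 1005)),(k0,
    (nat_lit 1041))],[(k1,(nat_lit 687)),(k9,(nat_lit 782)),(k7,(nat_lit 858)),(k3,(nat_lit 1017)),(k11,
    (nat_lit 1050)),(k5,(nat_lit 1117))],[(k8,(nat_lit 634)),(k2,(nat_lit 729)),(k6,(nat_lit 782)),(k4,(nat_lit 829)),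
    (k0,(nat_lit 835)),(k10,(nat_lit 1126))],[(k5,(nat_lit 611)),(k9,(nat_lit 634)),(k7,(nat_lit 782)),(k11,
    (nat_lit 902)),(k3,(nat_lit 975)),(k1,(nat_lit 1081))],[(k10,(nat_lit 852)),(k8,(nat_lit 902)),(k0,(nat_lit 997)),
    (k4,(nat_lit 1025)),(k6,(nat_lit 1050)),(k2,(nat_lit 1355))],[(k11,(nat_lit 852)),(k7,(nat_lit 978)),(k5,
    (nat_lit 1025)),(k1,(nat_lit 1031)),(k9,(nat_lit 1126)),(k3,(nat_lit 1525))]]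
    [] k0
    [[k2,k0,k0,k0,k0,k0],[k3,k0,k0,k0,k0,k0],[k4,k0,k0,k0,k0,k0],[k2,k1,k0,k0,k0,k0],[k2,k0,k1,k0,k0,k0],[k2,k0,k0,k1,
    k0,k0],[k2,k0,k0,k0,k1,k0],[k2,k0,k0,k0,k0,k1],[k1,k1,k0,k0,k0,k0],[k1,k0,k1,k0,k0,k0],[k1,k0,k1,k0,k1,k0],[k1,k0,
    k0,k1,k0,k0],[k1,k1,k0,k1,k0,k0],[k1,k0,k1,k1,k0,k0],[k1,k0,k0,k2,k0,k0],[k1,k0,k0,k1,k1,k0],[k1,k0,k0,k1,k0,k1],
    [k1,k0,k0,k0,k1,k0],[k1,k0,k0,k0,k2,k0],[k1,k0,k0,k0,k0,k1],[k1,k0,k0,k0,k1,k1],[k0,k2,k0,k0,k0,k0],[k0,k1,k1,k0,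
    k0,k0],[k0,k1,k1,k0,k1,k0],[k0,k1,k0,k1,k0,k0],[k0,k1,k0,k1,k1,k0],[k0,k1,k0,k0,k1,k0],[k0,k1,k0,k0,k2,k0],[k0,k0,
    k2,k0,k0,k0],[k0,k0,k2,k0,k1,k0],[k0,k0,k1,k1,k0,k0],[k0,k0,k1,k1,k1,k0],[k0,k0,k1,k0,k1,k0],[k0,k0,k1,k0,k2,k0],
    [k0,k0,k1,k0,k3,k0],[k0,k0,k1,k0,k1,k1],[k0,k0,k1,k0,k0,k1],[k0,k0,k0,k2,k0,k0],[k0,k0,k0,k3,k0,k0],[k0,k0,k0,k2,
    k1,k0],[k0,k0,k0,k1,k1,k0],[k0,k0,k0,k1,k2,k0],[k0,k0,k0,k1,k3,k0],[k0,k0,k0,k1,k0,k1],[k0,k0,k0,k1,k1,k1],[k0,k0,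
    k0,k0,k2,k0],[k0,k0,k0,k0,k3,k0],[k0,k0,k0,k0,k4,k0],[k0,k0,k0,k0,k2,k1],[k0,k0,k0,k0,k1,k1],[k0,k0,k0,k0,k0,k2],
    [k0,k0,k0,k0,k0,k3]]
    [.contra [z1],.ref k62 k2 [(z1,[z1]),(z1,[z0,z0,z1])],.ref (nat_lit 247) k9 [(z1,[z0,z0,z0,z1]),(z2,[y1,z0,y4,y4,
    z4]),(z1,[z0,z0,z1])],.ref k109 k10 [(z1,[z1,z0,z2,z0,y2]),(z1,[z0,z0,y1,z0,z1])],.ref k62 k2 [(z1,[z2,y1,z0,y2]),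
    (z1,[z0,z0,z1])],.contra [z1,z0,z1,z1,y1],.ref k163 k8 [(z1,[z1,z0,z1,z0,y1]),(z1,[z0,z0,z1])],.ref k109 k1 [(z1,
    [z1,z0,z2,z0,y2]),(z1,[z0,z0,y1,z0,z1])],.ref k0 k6 [(z1,[z1])],.contra [z1,y1,z0,y1],.contra [z1,z0,z0,y1],
    .contra [y2,z1,y2,z0,z2],.contra [z1,z0,z1,z1,y1],.contra [z1,z0,z1,z1,y1],.contra [z1,z1,z2,z4,y2],.contra [z1,
    z0,z1,z1,y1],.contra [y1,z0,z0,y1,z1],.contra [y1,z0,y1,z0,z1],.contra [z1,z1],.ref k0 k2 [(z1,[z1])],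
    .ref k3 k2 [(z1,[z1])],.contra [z1],.ref k0 k9 [(z1,[z1])],.contra [z1,z0,z0,y1],.ref k163 k3 [(z1,[z1,z1,z0,z2,
    y1]),(z1,[z1])],.ref k0 k9 [(z1,[z1,z1,z1,z2,y1])],.ref k1 k4 [(z1,[z1])],.ref k0 k6 [(z1,[z1,z1])],.contra [z1],
    .contra [z1,z0,z0,y1],.contra [z1,z1,z1,z3,y1],.contra [z1,z1,z1,z2,y1],.contra [y2,z1,z0,z4],.contra [z1,z0,z0,
    y1],.contra [z1,z1,z0,y1],.contra [y1,z0,z1,z1],.ref k1 k1 [(z1,[z1])],.contra [z1,z2,z2,z6,y2],.ref k79 k2 [(z1,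
    [y1,z0,y3,y3,z3]),(z1,[z0,z0,z1]),(z1,[z0,z0,z0,z1])],.contra [z1,z2,z2,z5,y2],.contra [y1,z0,y1,z0,z1],
    .contra [y2,y1,y2,z0,z2],.contra [z1,z1,z1,z1,y1],.ref (nat_lit 201) k0 [(z1,[z1,z0,y1]),(z1,[y1,z0,z0,z0,z1])],
    .ref k1 k1 [(z1,[z1,z1,z1,z2,y1])],.contra [z1],.contra [y1,y1,y1,z0,z1],.contra [z1,z2],.ref k0 k2 [(z1,[z1,
    z1])],.ref k0 k1 [(z1,[z1])],.contra [y1,z0,z2],.ref (nat_lit 248) k2 [(z1,[z0,z1]),(z1,[y1,z0,z3]),(z1,[z0,z0,z0,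
    z1]),(z1,[z0,y1,y1,y1,z1])]]),
    .old (.lp [(nat_lit 644),(nat_lit 648),(nat_lit 630),(nat_lit 646),(nat_lit 640),(nat_lit 630)] [(nat_lit 216),
    (nat_lit 216),(nat_lit 214),(nat_lit 214),(nat_lit 223),(nat_lit 223),(nat_lit 215),(nat_lit 215),(nat_lit 436),
    k0,(nat_lit 223),(nat_lit 223)] k0 [[k0,k0,k0,k0,k0,k0,(nat_lit 476)],[k0,k0,k0,k0,k0,k0,k0,k0,k0,k0,k0,k2],[k0,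
    k0,k0,k0,k0,k0,k0,k0,k2],[k0,k0,k0,k0,k0,k150],[k0,k0,k150],[k0,k0,k0,k0,k0,k0,k0,k2],[k0,k0,k0,k0,k2],[k0,
    (nat_lit 476)],[k0,k0,k0,k0,k0,k0,k0,k0,k0,k0,k30],[k0,k0,k0,k2],[k2],[k0,k0,k0,k0,k0,k0,k0,k0,k0,
    k30]] (nat_lit 1920) k6
    [[(k8,(nat_lit 394)),(k4,(nat_lit 637)),(k10,(nat_lit 637)),(k6,(nat_lit 645)),(k0,(nat_lit 646)),(k2,
    (nat_lit 646))],[(k9,(nat_lit 384)),(k5,(nat_lit 637)),(k11,(nat_lit 637)),(k7,(nat_lit 645)),(k1,(nat_lit 646)),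
    (k3,(nat_lit 646))],[(k8,(nat_lit 426)),(k10,(nat_lit 637)),(k4,(nat_lit 639)),(k0,(nat_lit 646)),(k2,
    (nat_lit 648)),(k6,(nat_lit 1123))],[(k11,(nat_lit 637)),(k5,(nat_lit 639)),(k1,(nat_lit 646)),(k3,(nat_lit 648)),
    (k7,(nat_lit 797)),(k9,(nat_lit 862))],[(k8,(nat_lit 419)),(k4,(nat_lit 480)),(k10,(nat_lit 630)),(k0,
    (nat_lit 637)),(k6,(nat_lit 638)),(k2,(nat_lit 639))],[(k5,(nat_lit 480)),(k11,(nat_lit 630)),(k1,(nat_lit 637)),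
    (k7,(nat_lit 638)),(k3,(nat_lit 639)),(k9,(nat_lit 855))],[(k8,(nat_lit 425)),(k4,(nat_lit 638)),(k10,
    (nat_lit 638)),(k6,(nat_lit 644)),(k0,(nat_lit 645)),(k2,(nat_lit 797))],[(k5,(nat_lit 638)),(k11,(nat_lit 638)),
    (k7,(nat_lit 644)),(k1,(nat_lit 645)),(k9,(nat_lit 861)),(k3,(nat_lit 1123))],[(k0,(nat_lit 384)),(k8,
    (nat_lit 640)),(k10,(nat_lit 853)),(k4,(nat_lit 855)),(k6,(nat_lit 861)),(k2,(nat_lit 862))],[(k1,(nat_lit 394)),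
    (k11,(nat_lit 417)),(k5,(nat_lit 419)),(k7,(nat_lit 425)),(k3,(nat_lit 426)),(k9,(nat_lit 640))],[(k8,
    (nat_lit 417)),(k4,(nat_lit 630)),(k0,(nat_lit 637)),(k2,(nat_lit 637)),(k6,(nat_lit 638)),(k10,(nat_lit 660))],
    [(k5,(nat_lit 630)),(k1,(nat_lit 637)),(k3,(nat_lit 637)),(k7,(nat_lit 638)),(k11,(nat_lit 660)),(k9,
    (nat_lit 853))]]
    [] k0
    [[k2,k0,k0,k0,k0,k0],[k2,k0,k0,k0,k1,k0],[k1,k1,k0,k0,k0,k0],[k1,k1,k0,k0,k1,k0],[k1,k0,k1,k0,k0,k0],[k1,k0,k2,k0,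
    k0,k0],[k1,k0,k1,k0,k1,k0],[k1,k0,k1,k0,k0,k1],[k1,k0,k0,k1,k0,k0],[k1,k0,k0,k1,k1,k0],[k1,k0,k0,k0,k1,k0],[k2,k0,
    k0,k0,k2,k0],[k1,k0,k0,k0,k2,k0],[k1,k0,k0,k0,k1,k1],[k1,k0,k0,k0,k0,k1],[k0,k2,k0,k0,k0,k0],[k0,k1,k1,k0,k0,k0],
    [k0,k1,k2,k0,k0,k0],[k0,k1,k1,k0,k0,k1],[k0,k1,k0,k0,k1,k0],[k0,k1,k0,k0,k1,k1],[k0,k1,k0,k0,k0,k1],[k0,k0,k2,k0,
    k0,k0],[k0,k0,k3,k0,k0,k0],[k0,k0,k2,k1,k0,k0],[k0,k0,k2,k0,k1,k0],[k0,k0,k2,k0,k0,k1],[k0,k0,k1,k1,k0,k0],[k0,k0,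
    k1,k1,k1,k0],[k0,k0,k1,k1,k0,k1],[k0,k0,k1,k0,k1,k0],[k0,k0,k1,k0,k2,k0],[k0,k0,k1,k0,k1,k1],[k0,k0,k1,k0,k0,k1],
    [k0,k0,k0,k2,k0,k0],[k0,k0,k0,k1,k1,k0],[k0,k0,k0,k1,k1,k1],[k0,k0,k0,k1,k0,k1],[k0,k0,k0,k0,k2,k0],[k0,k0,k0,k0,
    k2,k1],[k0,k0,k0,k0,k1,k1],[k0,k0,k0,k0,k0,k2]]
    [.contra [z1],.ref (nat_lit 246) k2 [(z1,[z1]),(z1,[z0,z0,z1])],.ref k0 k6 [(z1,[z1])],.ref (nat_lit 223) k7 [(z1,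
    [y1,z0,z1]),(z1,[z0,z0,y1,z1])],.contra [y1,z1,y1,z1],.ref k62 k9 [(z1,[z2,y1,z1,y1]),(z1,[z0,z0,z1])],
    .contra [y1,z0,y1,z1],.contra [y1,z0,y1,z1],.ref k1 k2 [(z1,[z1])],.ref (nat_lit 223) k6 [(z1,[y1,z0,z1]),(z1,[z0,
    z0,y1,z1])],.contra [y1,z0,y1,z1],.ref (nat_lit 249) k3 [(z1,[y1,z1,y1,z1]),(z1,[z0,z0,z1]),(z2,[z1])],
    .ref (nat_lit 246) k5 [(z1,[z1]),(z1,[z0,z0,z1])],.contra [z1,z1],.contra [y1,z0,y1,z1],.contra [z1],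
    .ref k0 k9 [(z1,[z1])],.ref k109 k6 [(z1,[z1,z0,z2,y2]),(z1,[z0,z0,y1,z1])],.ref (nat_lit 223) k6 [(z1,[z1,z0,z1,
    y1]),(z1,[z0,z0,y1,z1])],.ref k1 k4 [(z1,[z1])],.ref k0 k6 [(z1,[z1,z1])],.ref k163 k2 [(z1,[z1,z1,y1]),(z1,
    [z1])],.contra [z1],.ref k62 k9 [(z1,[z1]),(z1,[z0,z0,z1])],.ref k109 k7 [(z1,[z1,z0,z2,y2]),(z1,[z0,z0,y1,z1])],
    .ref k163 k9 [(z1,[z1,z0,z1,y1]),(z1,[z0,z0,z1])],.ref k168 k0 [(z1,[z0,z0,z1]),(z1,[y1,z0,y1,z1])],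
    .ref k0 k0 [(z1,[z1])],.ref k3 k4 [(z1,[z1])],.ref (nat_lit 223) k7 [(z1,[z1,z0,z1,y1]),(z1,[z0,z0,y1,z1])],
    .contra [y1,z0,y1,z1],.contra [y1,y1,y1,z1],.contra [y1,z0,y1,z1],.contra [y1,z0,y1,z1],.contra [y1,z0,z2],
    .ref k0 k4 [(z1,[z1])],.ref k1 k2 [(z1,[z1,z1])],.ref (nat_lit 201) k6 [(z1,[y1,z0,z1]),(z1,[z0,z0,y1,z1])],
    .contra [z1],.contra [y1,y1,y1,z1],.contra [y1,z0,y1,z1],.contra [z1]]),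
    .old (.lp [(nat_lit 13350),(nat_lit 13884),(nat_lit 14952),(nat_lit 15486),(nat_lit 12638),
    (nat_lit 14952)] [(nat_lit 5520),k0,(nat_lit 2493),(nat_lit 2493),(nat_lit 1959),(nat_lit 1959),(nat_lit 1692),
    (nat_lit 1692),(nat_lit 3116),(nat_lit 3116),(nat_lit 1959),(nat_lit 1959)] k0 [[k0,k0,k0,k0,(nat_lit 1424),k0,
    (nat_lit 712)],[k0,k0,k0,(nat_lit 1424),k0,k0,k0,k0,k0,k0,k0,(nat_lit 1068)],[(nat_lit 1424)],[k0,k0,k0,k0,k0,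
    (nat_lit 712),k0,k0,k0,k0,k0,(nat_lit 712)],[k0,k0,(nat_lit 712),k0,k0,k0,k0,k0,k0,k0,(nat_lit 8366)],[k0,
    (nat_lit 1424),k0,k0,k0,k0,k0,(nat_lit 890)],[k0,k0,k0,k0,(nat_lit 890),k0,k0,k0,k0,k0,k178],[k0,(nat_lit 712),k0,
    k0,k0,k0,k0,k0,k0,(nat_lit 3916)],[k0,k0,k0,k0,k0,k0,(nat_lit 3916)],[],[(nat_lit 1068),k0,(nat_lit 712)],[k0,k0,
    k0,k0,k0,(nat_lit 8366),k0,k178]] (nat_lit 42720) k6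
    [[(k4,(nat_lit 8545)),(k0,(nat_lit 14418)),(k8,(nat_lit 15754)),(k10,(nat_lit 16911)),(k6,(nat_lit 17000)),(k2,
    (nat_lit 17089))],[(k9,(nat_lit 9522)),(k7,(nat_lit 10234)),(k3,(nat_lit 10857)),(k11,(nat_lit 11391)),(k5,
    (nat_lit 12815)),(k1,(nat_lit 14418))],[(k0,(nat_lit 10857)),(k2,(nat_lit 12460)),(k8,(nat_lit 13261)),(k10,
    (nat_lit 13350)),(k6,(nat_lit 15397)),(k4,(nat_lit 15842))],[(k3,(nat_lit 12460)),(k9,(nat_lit 13261)),(k5,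
    (nat_lit 14418)),(k11,(nat_lit 14418)),(k7,(nat_lit 15397)),(k1,(nat_lit 17089))],[(k0,(nat_lit 12815)),(k8,
    (nat_lit 13795)),(k4,(nat_lit 14240)),(k10,(nat_lit 14240)),(k2,(nat_lit 14418)),(k6,(nat_lit 15219))],[(k1,
    (nat_lit 8545)),(k5,(nat_lit 14240)),(k9,(nat_lit 14685)),(k11,(nat_lit 14952)),(k7,(nat_lit 15219)),(k3,
    (nat_lit 15842))],[(k0,(nat_lit 10234)),(k8,(nat_lit 14062)),(k6,(nat_lit 14596)),(k4,(nat_lit 15219)),(k2,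
    (nat_lit 15397)),(k10,(nat_lit 23585))],[(k9,(nat_lit 14062)),(k7,(nat_lit 14596)),(k5,(nat_lit 15219)),(k3,
    (nat_lit 15397)),(k1,(nat_lit 17000)),(k11,(nat_lit 19135))],[(k8,(nat_lit 8722)),(k0,(nat_lit 9522)),(k2,
    (nat_lit 13261)),(k10,(nat_lit 13973)),(k6,(nat_lit 14062)),(k4,(nat_lit 14685))],[(k9,(nat_lit 8722)),(k3,
    (nat_lit 13261)),(k5,(nat_lit 13795)),(k11,(nat_lit 13795)),(k7,(nat_lit 14062)),(k1,(nat_lit 15754))],[(k0,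
    (nat_lit 11391)),(k8,(nat_lit 13795)),(k2,(nat_lit 14418)),(k4,(nat_lit 14952)),(k10,(nat_lit 14952)),(k6,
    (nat_lit 19135))],[(k3,(nat_lit 13350)),(k9,(nat_lit 13973)),(k5,(nat_lit 14240)),(k11,(nat_lit 14952)),(k1,
    (nat_lit 16911)),(k7,(nat_lit 23585))]]
    [] k0
    [[k2,k0,k0,k0,k0,k0],[k2,k1,k0,k0,k0,k0],[k2,k0,k1,k0,k0,k0],[k2,k0,k0,k1,k0,k0],[k2,k0,k0,k0,k1,k0],[k1,k1,k0,k0,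
    k0,k0],[k1,k2,k0,k0,k0,k0],[k1,k1,k0,k0,k1,k0],[k1,k1,k0,k0,k0,k1],[k1,k0,k1,k0,k0,k0],[k1,k1,k1,k0,k0,k0],[k1,k0,
    k2,k0,k0,k0],[k1,k0,k1,k1,k0,k0],[k1,k0,k1,k0,k1,k0],[k1,k0,k1,k0,k2,k0],[k1,k0,k1,k0,k0,k1],[k1,k0,k0,k1,k0,k0],
    [k1,k0,k0,k2,k0,k0],[k1,k0,k0,k1,k1,k0],[k1,k0,k0,k0,k1,k0],[k1,k0,k0,k0,k2,k0],[k1,k0,k0,k0,k1,k1],[k1,k0,k0,k0,
    k0,k1],[k0,k2,k0,k0,k0,k0],[k0,k3,k0,k0,k0,k0],[k0,k2,k0,k0,k1,k0],[k0,k2,k0,k0,k0,k1],[k0,k1,k1,k0,k0,k0],[k0,k1,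
    k0,k1,k0,k0],[k0,k1,k0,k0,k1,k0],[k0,k1,k1,k0,k1,k0],[k0,k1,k0,k0,k2,k0],[k0,k1,k0,k0,k1,k1],[k0,k1,k0,k0,k0,k1],
    [k0,k0,k2,k0,k0,k0],[k0,k0,k1,k1,k0,k0],[k0,k0,k1,k0,k1,k0],[k0,k0,k1,k0,k2,k0],[k0,k0,k1,k0,k0,k1],[k0,k0,k0,k2,
    k0,k0],[k0,k0,k0,k1,k1,k0],[k0,k0,k0,k1,k2,k0],[k0,k0,k0,k0,k2,k0],[k0,k0,k0,k0,k3,k0],[k0,k0,k0,k0,k4,k0],[k0,k0,
    k0,k0,k2,k1],[k0,k0,k0,k0,k1,k1],[k0,k0,k0,k0,k0,k2]]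
    [.contra [z1],.ref k0 k2 [(z1,[z1,y1,y1])],.contra [z1,y1,z0,y1],.ref k109 k11 [(z1,[z1,y3,y1,y1,y1]),(z1,[z0,z1,
    z1,z1])],.ref (nat_lit 250) k8 [(z1,[z1,y1,y1,y1]),(z1,[z0,y1,y1,y1,z1])],.contra [y1,z0,z0,y1,z1],
    .ref (nat_lit 201) k0 [(z1,[y1,z0,z0,y1,z1]),(z1,[z0,z1,z1,z1])],.contra [z1,z0,y1],.contra [y1,y1,y1,y2,z2],
    .contra [y1,z2,z0,z2],.contra [z1,y1,z0,y1],.contra [z1,y1,z0,y1],.contra [z1,y1,z0,y1],.contra [z1,y1,z0,y1],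
    .ref (nat_lit 233) k1 [(z1,[z0,z0,z0,z1]),(z1,[z1,y1,y1,y2,z1])],.contra [y1,z0,y1,z0,z1],.contra [z1,z0,z1,z1,
    y1],.ref (nat_lit 201) k0 [(z1,[z1,z0,z0,z1,y1]),(z1,[z0,z1,z1,z1])],.ref (nat_lit 233) k1 [(z1,[z0,z0,z0,z1]),
    (z1,[z1])],.contra [y1,z1,z1,z1],.ref k163 k4 [(z1,[z1,y1,y1,y1]),(z1,[z0,y1,y1,y1,z1])],.ref k3 k2 [(z1,[z1])],
    .ref k0 k2 [(z1,[z1])],.contra [z1],.ref k79 k4 [(z1,[y1,z0,z3]),(z1,[z0,y1,y1,y1,z1]),(z1,[z0,z1,z0,z1])],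
    .contra [z1,z0,y1],.ref k109 k0 [(z1,[y1,y3,y1,y3,z1]),(z1,[z0,z1,z1,z1])],.contra [y1,z1,z1,z1],.contra [z1,z1,
    z0,z2,y1],.contra [y1,z1,z1,z1],.contra [z1,z0,y1],.contra [z1,z0,y1],.contra [y1,y1,z0,y1,z1],
    .ref (nat_lit 201) k0 [(z1,[y1,y1,y1,y1,z1]),(z1,[z0,z1,z1,z1])],.contra [z1],.ref k0 k0 [(z1,[z1])],.contra [y1,
    z1,z1,z1],.ref k0 k4 [(z1,[z1,y1,y1,y2,z1])],.contra [z1,z0,z1,y1],.contra [z1],.ref k0 k4 [(z1,[z1])],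
    .ref k109 k0 [(z1,[z1,y2,y2,y2]),(z1,[z0,z1,z1,z1])],.contra [z1],.ref k62 k4 [(z1,[z1]),(z1,[z0,y1,y1,y1,z1])],
    .ref (nat_lit 233) k1 [(z1,[z0,z0,z0,z1]),(z2,[z1,z0,y2,y2,z2])],.ref k109 k11 [(z1,[z1,y2,y2,y2]),(z1,[z0,z1,z1,
    z1])],.contra [z1,z1],.contra [y1,y2,y2,y2,z2]]),
    .old (.lp [k164,k172,k124,k180,k176,k142] [k32,k32,k28,k28,k52,k52,k24,k24,k52,k0,k43,k43] k0 [[k0,k0,k0,k0,k12,k0,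
    k100],[k0,k0,k0,k0,k0,k0,k0,k0,k0,k32,k0,k6],[k0,k0,k0,k0,k0,k0,k0,k0,k0,k0,k26],[k0,k0,k0,k0,k0,k28,k0,k4],[k0,
    k0,k28,k0,k0,k0,k0,k0,k4],[k0,k12],[k0,k0,k4,k0,k0,k0,k0,k0,k0,k0,k22],[k0,k100,k0,k0,k0,k0,k0,k0,k0,k16],[k32,k0,
    k0,k0,k0,k0,k16],[k0,k0,k0,k0,k0,k4],[k6],[k0,k0,k0,k26,k0,k0,k0,k22]] (nat_lit 480) k6
    [[(k2,k142),(k4,k144),(k8,k144),(k6,k150),(k10,k153),(k0,k170)],[(k9,k96),(k5,k144),(k7,k160),(k3,k168),(k1,k170),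
    (k11,k185)],[(k8,k116),(k10,k151),(k4,k160),(k0,k168),(k2,k172),(k6,(nat_lit 276))],[(k1,k142),(k5,k148),(k11,
    k157),(k3,k172),(k7,(nat_lit 204)),(k9,(nat_lit 204))],[(k4,k96),(k8,k124),(k0,k144),(k2,k148),(k6,k148),(k10,
    k159)],[(k5,k96),(k11,k129),(k1,k144),(k7,k152),(k3,k160),(k9,k176)],[(k4,k152),(k8,k156),(k0,k160),(k10,k161),
    (k6,k180),(k2,(nat_lit 204))],[(k5,k148),(k1,k150),(k11,k177),(k7,k180),(k9,(nat_lit 204)),(k3,(nat_lit 276))],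
    [(k0,k96),(k8,k160),(k4,k176),(k2,(nat_lit 204)),(k6,(nat_lit 204)),(k10,(nat_lit 207))],[(k3,k116),(k5,k124),
    (k11,k133),(k1,k144),(k7,k156),(k9,k160)],[(k4,k129),(k8,k133),(k10,k142),(k2,k157),(k6,k177),(k0,k185)],[(k11,
    k142),(k3,k151),(k1,k153),(k5,k159),(k7,k161),(k9,(nat_lit 207))]]
    [] k0
    [[k2,k0,k0,k0,k0,k0],[k2,k0,k1,k0,k0,k0],[k2,k0,k0,k0,k1,k0],[k1,k1,k0,k0,k0,k0],[k1,k1,k1,k0,k0,k0],[k1,k1,k0,k0,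
    k1,k0],[k1,k1,k0,k0,k0,k1],[k1,k0,k1,k0,k0,k0],[k1,k0,k2,k0,k0,k0],[k1,k0,k2,k0,k1,k0],[k1,k0,k1,k1,k0,k0],[k1,k0,
    k1,k0,k1,k0],[k1,k0,k0,k1,k0,k0],[k1,k0,k0,k1,k1,k0],[k1,k0,k0,k0,k1,k0],[k1,k0,k0,k0,k2,k0],[k1,k0,k0,k0,k0,k1],
    [k1,k0,k1,k0,k0,k1],[k1,k0,k0,k0,k1,k1],[k0,k2,k0,k0,k0,k0],[k0,k1,k1,k0,k0,k0],[k0,k1,k2,k0,k0,k0],[k0,k1,k1,k0,
    k0,k1],[k0,k1,k0,k0,k1,k0],[k0,k1,k1,k0,k1,k0],[k0,k1,k0,k0,k0,k1],[k0,k1,k0,k0,k0,k2],[k0,k0,k2,k0,k0,k0],[k0,k0,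
    k3,k0,k0,k0],[k0,k0,k4,k0,k0,k0],[k0,k0,k2,k1,k0,k0],[k0,k0,k2,k0,k1,k0],[k0,k0,k2,k0,k0,k1],[k0,k0,k1,k1,k0,k0],
    [k0,k0,k1,k1,k0,k1],[k0,k0,k1,k0,k1,k0],[k0,k0,k1,k0,k2,k0],[k0,k0,k1,k0,k1,k1],[k0,k0,k1,k0,k0,k1],[k0,k0,k1,k0,
    k0,k2],[k0,k0,k0,k2,k0,k0],[k0,k0,k0,k1,k1,k0],[k0,k0,k0,k1,k0,k1],[k0,k0,k0,k0,k2,k0],[k0,k0,k0,k0,k1,k1],[k0,k0,
    k0,k0,k0,k2],[k0,k0,k0,k0,k0,k3]]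
    [.contra [z1],.ref (nat_lit 250) k2 [(z1,[z1,z0,z1,y1]),(z1,[z0,z0,z1])],.contra [z1,y1],.ref k0 k6 [(z1,[z1])],
    .ref k3 k1 [(z1,[y1,z0,z0,z1])],.contra [z1,y1],.ref k3 k4 [(z1,[y1,z0,z0,z1])],.contra [y1,z0,y1,z1],
    .ref k163 k3 [(z1,[z1,z0,z1,y1]),(z1,[z0,z0,z1])],.ref (nat_lit 247) k4 [(z1,[z0,z1]),(z1,[y1,y1,y2,z2]),(z1,[z0,
    z0,z1])],.ref (nat_lit 251) k4 [(z1,[y1,z1]),(z1,[z0,y1,y1,z1]),(z1,[z1])],.contra [z1,y1],.ref k1 k2 [(z1,[z1])],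
    .contra [y1,z1,z1],.contra [y2,z2,z1],.contra [z1,y1],.contra [y1,z0,y1,z1],.contra [z1,z1,z1,y1],.contra [z1,y1],
    .contra [z1],.ref k0 k9 [(z1,[z1])],.ref k109 k6 [(z1,[z1,z0,z2,y2]),(z1,[z0,z0,y1,z1])],.contra [z1,z1,z1,y1],
    .ref k1 k4 [(z1,[z1])],.ref (nat_lit 251) k8 [(z1,[y1,z1]),(z1,[z0,y1,y1,z1]),(z1,[z1])],
    .ref (nat_lit 201) k1 [(z1,[z1,z0,y1]),(z1,[y1,z0,z0,z1])],.ref k109 k7 [(z1,[y1,y2,z1]),(z1,[z0,z0,y1,z1])],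
    .contra [z1],.ref k62 k9 [(z1,[z1]),(z1,[z0,z0,z1])],.ref (nat_lit 247) k4 [(z1,[z0,z1]),(z2,[y1,y4,y4,z4]),(z1,
    [z0,z0,z1])],.ref k109 k7 [(z1,[z1,z0,z2,y2]),(z1,[z0,z0,y1,z1])],.ref k163 k9 [(z1,[z1,z0,z1,y1]),(z1,[z0,z0,
    z1])],.contra [z1,z1,z1,y1],.ref k0 k0 [(z1,[z1])],.contra [y1,y1,z0,z1],.contra [y1,z0,y1,z1],
    .ref (nat_lit 250) k5 [(z1,[z1,z0,z1,y1]),(z1,[z0,z0,z1])],.contra [z1,z1,z1,y1],.contra [y2,y2,y1,z2],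
    .contra [z1,z1,z1,y1],.contra [y1,z0,z2],.ref k0 k4 [(z1,[z1])],.ref (nat_lit 201) k6 [(z1,[y1,z0,z1]),(z1,[z0,z0,
    y1,z1])],.contra [z1],.contra [y1,z0,y1,z1],.contra [z1],.ref k79 k9 [(z1,[y1,y3,y3,z3]),(z1,[z0,z0,z1]),(z1,[z0,
    z1])]]),
    .old (.lp [(nat_lit 15040),(nat_lit 15040),(nat_lit 14946),(nat_lit 15040),(nat_lit 14946),
    (nat_lit 15134)] [(nat_lit 10624),k0,(nat_lit 5312),(nat_lit 5312),(nat_lit 5359),(nat_lit 5359),(nat_lit 5312),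
    (nat_lit 5312),(nat_lit 5359),(nat_lit 5359),(nat_lit 5265),(nat_lit 5265)] k0 [[k0,k0,(nat_lit 376)],[k0,k0,k0,
    k0,k0,k0,k0,k188],[k0,k0,k0,k0,k188],[k0,(nat_lit 376)],[k0,k0,k0,k0,k0,k0,(nat_lit 376),k0,k0,k0,
    (nat_lit 11280)],[k0,k0,k0,k188],[k188],[k0,k0,k0,k0,k0,(nat_lit 376),k0,k0,k0,(nat_lit 3666)],[k0,k0,k0,k0,k0,k0,
    (nat_lit 3666)],[k0,k0,k0,k0,k0,k0,k0,k0,k0,k0,k0,k94],[k0,k0,k0,k0,k0,k0,k0,k0,k94],[k0,k0,k0,k0,k0,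
    (nat_lit 11280)]] (nat_lit 45120) k6
    [[(k4,(nat_lit 9025)),(k0,(nat_lit 15040)),(k2,(nat_lit 20352)),(k6,(nat_lit 20352)),(k8,(nat_lit 20399)),(k10,
    (nat_lit 20399))],[(k5,(nat_lit 9305)),(k3,(nat_lit 9728)),(k7,(nat_lit 9728)),(k11,(nat_lit 9775)),(k9,
    (nat_lit 9869)),(k1,(nat_lit 15040))],[(k0,(nat_lit 9728)),(k6,(nat_lit 14852)),(k4,(nat_lit 14993)),(k8,
    (nat_lit 14993)),(k10,(nat_lit 15087)),(k2,(nat_lit 15416))],[(k7,(nat_lit 14852)),(k5,(nat_lit 14993)),(k9,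
    (nat_lit 14993)),(k11,(nat_lit 15087)),(k3,(nat_lit 15416)),(k1,(nat_lit 20352))],[(k0,(nat_lit 9305)),(k8,
    (nat_lit 14946)),(k2,(nat_lit 14993)),(k6,(nat_lit 14993)),(k10,(nat_lit 15040)),(k4,(nat_lit 15134))],[(k1,
    (nat_lit 9025)),(k9,(nat_lit 14570)),(k3,(nat_lit 14993)),(k7,(nat_lit 14993)),(k11,(nat_lit 15040)),(k5,
    (nat_lit 15134))],[(k0,(nat_lit 9728)),(k2,(nat_lit 14852)),(k4,(nat_lit 14993)),(k8,(nat_lit 14993)),(k6,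
    (nat_lit 15416)),(k10,(nat_lit 26367))],[(k3,(nat_lit 14852)),(k5,(nat_lit 14993)),(k9,(nat_lit 14993)),(k7,
    (nat_lit 15416)),(k11,(nat_lit 18753)),(k1,(nat_lit 20352))],[(k0,(nat_lit 9869)),(k8,(nat_lit 11280)),(k4,
    (nat_lit 14570)),(k2,(nat_lit 14993)),(k6,(nat_lit 14993)),(k10,(nat_lit 15040))],[(k9,(nat_lit 11280)),(k5,
    (nat_lit 14946)),(k3,(nat_lit 14993)),(k7,(nat_lit 14993)),(k11,(nat_lit 15040)),(k1,(nat_lit 20399))],[(k0,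
    (nat_lit 9775)),(k4,(nat_lit 15040)),(k8,(nat_lit 15040)),(k10,(nat_lit 15040)),(k2,(nat_lit 15087)),(k6,
    (nat_lit 18753))],[(k5,(nat_lit 15040)),(k9,(nat_lit 15040)),(k11,(nat_lit 15040)),(k3,(nat_lit 15087)),(k1,
    (nat_lit 20399)),(k7,(nat_lit 26367))]]
    [] k0
    [[k2,k0,k0,k0,k0,k0],[k2,k0,k1,k0,k0,k0],[k1,k1,k0,k0,k0,k0],[k1,k1,k1,k0,k0,k0],[k1,k1,k0,k1,k0,k0],[k1,k0,k1,k0,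
    k0,k0],[k2,k0,k2,k0,k0,k0],[k1,k0,k2,k0,k0,k0],[k1,k0,k1,k1,k0,k0],[k1,k0,k1,k0,k1,k0],[k1,k0,k1,k0,k0,k1],[k1,k0,
    k0,k1,k0,k0],[k1,k0,k0,k0,k1,k0],[k1,k0,k0,k0,k2,k0],[k1,k0,k0,k0,k0,k1],[k0,k2,k0,k0,k0,k0],[k0,k1,k1,k0,k0,k0],
    [k0,k1,k1,k1,k0,k0],[k0,k1,k1,k0,k1,k0],[k0,k1,k0,k1,k0,k0],[k0,k1,k0,k1,k1,k0],[k0,k1,k0,k0,k1,k0],[k0,k1,k0,k0,
    k2,k0],[k0,k1,k0,k0,k0,k1],[k0,k0,k2,k0,k0,k0],[k0,k0,k2,k0,k1,k0],[k0,k0,k1,k1,k0,k0],[k0,k0,k1,k1,k1,k0],[k0,k0,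
    k1,k0,k1,k0],[k0,k0,k1,k0,k2,k0],[k0,k0,k1,k0,k1,k1],[k0,k0,k1,k0,k0,k1],[k0,k0,k0,k2,k0,k0],[k0,k0,k0,k1,k1,k0],
    [k0,k0,k0,k1,k2,k0],[k0,k0,k0,k0,k2,k0],[k0,k0,k0,k0,k3,k0],[k0,k0,k0,k0,k2,k1],[k0,k0,k0,k0,k1,k1],[k0,k0,k0,k0,
    k0,k2]]
    [.contra [z1],.ref (nat_lit 246) k8 [(z1,[z1]),(z1,[z0,y1,y1,z1])],.contra [y1,z2,z1],.contra [y1,z1,z1],
    .ref k0 k2 [(z1,[y1,z1,z0,z1])],.contra [y1,z1,z1],.ref (nat_lit 252) k9 [(z2,[z1]),(z1,[z0,y1,y1,z1])],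
    .ref (nat_lit 246) k9 [(z1,[z1]),(z1,[z0,y1,y1,z1])],.ref (nat_lit 223) k11 [(z1,[y1,y1,y1,z1]),(z1,[z0,z1,z1])],
    .contra [z1,z1],.ref (nat_lit 223) k0 [(z1,[y1,y1,y1,z1]),(z1,[z0,z1,z1])],.ref k1 k2 [(z1,[z1])],.contra [y1,z1,
    z1],.ref k163 k4 [(z1,[z1,y1,y1]),(z1,[z0,y1,y1,z1])],.ref k0 k2 [(z1,[z1])],.contra [z1],.contra [y1,z1,z1],
    .ref k3 k2 [(z1,[y1,z0,z0,z1])],.contra [y1,z1,z1],.ref (nat_lit 201) k6 [(z1,[z1,z1,z1,y1]),(z1,[y1,z0,z0,z1])],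
    .ref (nat_lit 223) k0 [(z1,[z1,y1,y1]),(z1,[z0,z1,z1])],.contra [y1,z1,z1],.contra [y1,z0,z1],.ref k109 k10 [(z1,
    [z2,z2,z1,y2]),(z1,[y1,z0,z0,z1])],.contra [z1],.contra [y1,z0,z1],.ref k0 k0 [(z1,[z1])],.ref k1 k2 [(z1,[z1,
    z1])],.contra [y1,z1,z1],.contra [y1,z0,z1],.ref k0 k2 [(z1,[z1,z1])],.ref k1 k1 [(z1,[z1])],.contra [z1],
    .ref k0 k4 [(z1,[z1])],.ref k109 k0 [(z1,[z1,y2,y2]),(z1,[z0,z1,z1])],.contra [z1],.ref k62 k4 [(z1,[z1]),(z1,[z0,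
    y1,y1,z1])],.ref k109 k11 [(z1,[z1,y2,y2]),(z1,[z0,z1,z1])],.ref k0 k1 [(z1,[z1])],.contra [y1,y2,y2,z2]]),
    .old (.lp [(nat_lit 15040),(nat_lit 14946),(nat_lit 15134),(nat_lit 15040),(nat_lit 15040),
    (nat_lit 14946)] [(nat_lit 5312),(nat_lit 5312),(nat_lit 5359),(nat_lit 5359),(nat_lit 5265),(nat_lit 5265),
    (nat_lit 10624),k0,(nat_lit 5312),(nat_lit 5312),(nat_lit 5359),(nat_lit 5359)] k0 [[k0,k0,k0,k0,k0,k0,k188],[k0,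
    k0,k0,(nat_lit 3666),k0,k0,k0,k0,k0,k0,k0,(nat_lit 376)],[(nat_lit 3666)],[k0,k0,k0,k0,k0,k94],[k0,k0,k94],[k0,k0,
    k0,k0,k0,k0,k0,k0,k0,k0,k0,(nat_lit 11280)],[k0,k0,k0,k0,k0,k0,k0,k0,(nat_lit 376)],[k0,k188],[k0,k0,k0,k0,k0,k0,
    k0,k0,k0,k0,k188],[k0,k0,k0,k0,k0,k0,k0,(nat_lit 376)],[(nat_lit 376),k0,k0,k0,(nat_lit 11280)],[k0,k0,k0,k0,k0,
    k0,k0,k0,k0,k188]] (nat_lit 45120) k6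
    [[(k6,(nat_lit 9728)),(k8,(nat_lit 14852)),(k2,(nat_lit 14993)),(k10,(nat_lit 14993)),(k0,(nat_lit 15416)),(k4,
    (nat_lit 26367))],[(k9,(nat_lit 14852)),(k3,(nat_lit 14993)),(k11,(nat_lit 14993)),(k1,(nat_lit 15416)),(k5,
    (nat_lit 18753)),(k7,(nat_lit 20352))],[(k6,(nat_lit 9869)),(k2,(nat_lit 11280)),(k10,(nat_lit 14570)),(k0,
    (nat_lit 14993)),(k8,(nat_lit 14993)),(k4,(nat_lit 15040))],[(k3,(nat_lit 11280)),(k11,(nat_lit 14946)),(k1,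
    (nat_lit 14993)),(k9,(nat_lit 14993)),(k5,(nat_lit 15040)),(k7,(nat_lit 20399))],[(k6,(nat_lit 9775)),(k2,
    (nat_lit 15040)),(k4,(nat_lit 15040)),(k10,(nat_lit 15040)),(k8,(nat_lit 15087)),(k0,(nat_lit 18753))],[(k3,
    (nat_lit 15040)),(k5,(nat_lit 15040)),(k11,(nat_lit 15040)),(k9,(nat_lit 15087)),(k7,(nat_lit 20399)),(k1,
    (nat_lit 26367))],[(k10,(nat_lit 9025)),(k6,(nat_lit 15040)),(k0,(nat_lit 20352)),(k8,(nat_lit 20352)),(k2,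
    (nat_lit 20399)),(k4,(nat_lit 20399))],[(k11,(nat_lit 9305)),(k1,(nat_lit 9728)),(k9,(nat_lit 9728)),(k5,
    (nat_lit 9775)),(k3,(nat_lit 9869)),(k7,(nat_lit 15040))],[(k6,(nat_lit 9728)),(k0,(nat_lit 14852)),(k2,
    (nat_lit 14993)),(k10,(nat_lit 14993)),(k4,(nat_lit 15087)),(k8,(nat_lit 15416))],[(k1,(nat_lit 14852)),(k3,
    (nat_lit 14993)),(k11,(nat_lit 14993)),(k5,(nat_lit 15087)),(k9,(nat_lit 15416)),(k7,(nat_lit 20352))],[(k6,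
    (nat_lit 9305)),(k2,(nat_lit 14946)),(k0,(nat_lit 14993)),(k8,(nat_lit 14993)),(k4,(nat_lit 15040)),(k10,
    (nat_lit 15134))],[(k7,(nat_lit 9025)),(k3,(nat_lit 14570)),(k1,(nat_lit 14993)),(k9,(nat_lit 14993)),(k5,
    (nat_lit 15040)),(k11,(nat_lit 15134))]]
    [] k0
    [[k2,k0,k0,k0,k0,k0],[k1,k1,k0,k0,k0,k0],[k1,k2,k0,k0,k0,k0],[k1,k1,k0,k0,k1,k0],[k1,k1,k0,k0,k0,k1],[k1,k0,k0,k1,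
    k0,k0],[k1,k0,k0,k1,k1,k0],[k1,k0,k0,k1,k0,k1],[k1,k0,k0,k0,k1,k0],[k1,k0,k0,k0,k1,k1],[k1,k0,k0,k0,k0,k1],[k0,k2,
    k0,k0,k0,k0],[k0,k3,k0,k0,k0,k0],[k0,k2,k1,k0,k0,k0],[k0,k2,k0,k1,k0,k0],[k0,k2,k0,k0,k1,k0],[k0,k2,k0,k0,k0,k1],
    [k0,k1,k1,k0,k0,k0],[k0,k1,k1,k0,k0,k1],[k0,k1,k0,k1,k0,k0],[k0,k1,k0,k1,k0,k1],[k0,k1,k0,k0,k1,k0],[k0,k1,k0,k0,
    k1,k1],[k0,k1,k0,k0,k0,k1],[k0,k1,k0,k0,k0,k2],[k0,k0,k2,k0,k0,k0],[k0,k0,k1,k1,k0,k0],[k0,k0,k1,k1,k0,k1],[k0,k0,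
    k1,k0,k1,k0],[k0,k0,k1,k0,k0,k1],[k0,k0,k0,k2,k0,k0],[k0,k0,k0,k2,k0,k1],[k0,k0,k0,k1,k1,k0],[k0,k0,k0,k1,k1,k1],
    [k0,k0,k0,k1,k0,k1],[k0,k0,k0,k2,k0,k2],[k0,k0,k0,k1,k0,k2],[k0,k0,k0,k0,k2,k0],[k0,k0,k0,k0,k1,k1],[k0,k0,k0,k0,
    k0,k2]]
    [.contra [z1],.contra [y1,z1,z1],.ref k109 k2 [(z1,[z1,z0,y2]),(z1,[z0,z0,z1])],.ref (nat_lit 223) k2 [(z1,[z1,z0,
    y1]),(z1,[z0,z0,z1])],.ref k3 k4 [(z1,[y1,z0,z0,z1])],.contra [y1,z1,z1],.ref (nat_lit 233) k1 [(z1,[z0,y1,y1,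
    z1]),(z1,[z1])],.ref (nat_lit 223) k3 [(z1,[y1,z0,y1,z1]),(z1,[z0,z0,z1])],.ref (nat_lit 201) k4 [(z1,[z1,z0,z1,
    y1]),(z1,[y1,z0,z0,z1])],.contra [z1,z1],.ref k0 k2 [(z1,[z1])],.contra [z1],.ref k62 k6 [(z1,[z1]),(z1,[z0,z0,y1,
    z1])],.ref k109 k3 [(z1,[z1,z0,y2]),(z1,[z0,z0,z1])],.ref k0 k9 [(z1,[z1,y1,y2,z1])],.ref k168 k9 [(z1,[z0,z0,y1,
    z1]),(z1,[y1,z0,z1])],.ref k163 k10 [(z1,[z1,z0,y1]),(z1,[z0,z0,y1,z1])],.ref k0 k9 [(z1,[z1])],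
    .ref (nat_lit 233) k1 [(z1,[z0,y1,y1,z1]),(z1,[y1,z0,z0,z1])],.contra [y1,z1,z1],.contra [y1,z0,z1],.contra [y1,
    z0,z1],.contra [y1,z0,z1],.contra [y1,z0,z1],.ref (nat_lit 250) k1 [(z1,[z1,z0,y1]),(z1,[z0,z0,y1,z1])],
    .contra [y1,z0,y2,z2],.ref k0 k0 [(z1,[z1])],.ref (nat_lit 223) k2 [(z1,[y1,z0,y1,z1]),(z1,[z0,z0,z1])],
    .contra [y1,y1,y1,z1],.contra [y1,y1,y1,z1],.contra [z1],.ref (nat_lit 246) k7 [(z1,[z1]),(z1,[z0,z0,y1,z1])],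
    .contra [y1,z0,z1],.contra [y1,z0,z1],.contra [y1,z0,z1],.ref (nat_lit 252) k1 [(z2,[z1]),(z1,[z0,z0,y1,z1])],
    .ref (nat_lit 246) k1 [(z1,[z1]),(z1,[z0,z0,y1,z1])],.contra [z1],.contra [y1,y1,y1,z1],.contra [z1]]),
    .old (.lp [(nat_lit 15134),(nat_lit 14946),(nat_lit 15040),(nat_lit 14946),(nat_lit 15040),
    (nat_lit 15040)] [(nat_lit 5218),(nat_lit 5218),(nat_lit 5312),(nat_lit 5312),(nat_lit 5265),(nat_lit 5265),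
    (nat_lit 10624),k0,(nat_lit 5265),(nat_lit 5265),(nat_lit 5265),(nat_lit 5265)] k0 [[k0,k0,k0,k0,k0,k0,k0,k0,k0,
    k0,k94],[k0,k0,k0,(nat_lit 3666)],[(nat_lit 3666),k0,k0,k0,(nat_lit 376)],[k0,k0,k0,k0,k0,k0,k0,k0,k0,k188],[k0,
    k0,k0,k0,k0,k0,k188],[k0,k0,k0,(nat_lit 376),k0,k0,k0,k0,k0,k0,k0,(nat_lit 11280)],[k0,k0,k0,k0,k0,k0,k0,k0,
    (nat_lit 376)],[k0,k0,k0,k0,k0,k188],[k0,k0,k188],[k0,k0,k0,k0,k0,k0,k0,(nat_lit 376)],[k0,k0,k0,k0,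
    (nat_lit 11280)],[k0,k94]] (nat_lit 45120) k6
    [[(k6,(nat_lit 9728)),(k0,(nat_lit 15040)),(k2,(nat_lit 15040)),(k8,(nat_lit 15087)),(k10,(nat_lit 15087)),(k4,
    (nat_lit 26367))],[(k1,(nat_lit 15040)),(k3,(nat_lit 15040)),(k9,(nat_lit 15087)),(k11,(nat_lit 15087)),(k5,
    (nat_lit 18753)),(k7,(nat_lit 20352))],[(k6,(nat_lit 9634)),(k2,(nat_lit 11280)),(k4,(nat_lit 14993)),(k8,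
    (nat_lit 14993)),(k0,(nat_lit 15040)),(k10,(nat_lit 15087))],[(k3,(nat_lit 11280)),(k5,(nat_lit 14993)),(k9,
    (nat_lit 14993)),(k1,(nat_lit 15040)),(k11,(nat_lit 15181)),(k7,(nat_lit 19882))],[(k6,(nat_lit 9681)),(k8,
    (nat_lit 14852)),(k2,(nat_lit 14993)),(k10,(nat_lit 15040)),(k4,(nat_lit 15416)),(k0,(nat_lit 18753))],[(k9,
    (nat_lit 14852)),(k3,(nat_lit 14993)),(k11,(nat_lit 15040)),(k5,(nat_lit 15416)),(k7,(nat_lit 20305)),(k1,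
    (nat_lit 26367))],[(k10,(nat_lit 9025)),(k6,(nat_lit 15134)),(k2,(nat_lit 19882)),(k4,(nat_lit 20305)),(k8,
    (nat_lit 20305)),(k0,(nat_lit 20352))],[(k11,(nat_lit 9305)),(k3,(nat_lit 9634)),(k5,(nat_lit 9681)),(k9,
    (nat_lit 9681)),(k1,(nat_lit 9728)),(k7,(nat_lit 15134))],[(k6,(nat_lit 9681)),(k4,(nat_lit 14852)),(k2,
    (nat_lit 14993)),(k10,(nat_lit 15040)),(k0,(nat_lit 15087)),(k8,(nat_lit 15416))],[(k5,(nat_lit 14852)),(k3,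
    (nat_lit 14993)),(k11,(nat_lit 15040)),(k1,(nat_lit 15087)),(k9,(nat_lit 15416)),(k7,(nat_lit 20305))],[(k6,
    (nat_lit 9305)),(k4,(nat_lit 15040)),(k8,(nat_lit 15040)),(k10,(nat_lit 15040)),(k0,(nat_lit 15087)),(k2,
    (nat_lit 15181))],[(k7,(nat_lit 9025)),(k5,(nat_lit 15040)),(k9,(nat_lit 15040)),(k11,(nat_lit 15040)),(k1,
    (nat_lit 15087)),(k3,(nat_lit 15087))]]
    [] k0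
    [[k2,k0,k0,k0,k0,k0],[k1,k1,k0,k0,k0,k0],[k1,k2,k0,k0,k0,k0],[k1,k1,k0,k1,k0,k0],[k1,k0,k0,k1,k0,k0],[k1,k0,k0,k1,
    k0,k1],[k1,k0,k0,k0,k1,k0],[k1,k0,k0,k0,k0,k1],[k0,k2,k0,k0,k0,k0],[k0,k3,k0,k0,k0,k0],[k0,k2,k1,k0,k0,k0],[k0,k2,
    k0,k1,k0,k0],[k0,k2,k0,k0,k1,k0],[k0,k2,k0,k0,k0,k1],[k0,k1,k1,k0,k0,k0],[k0,k1,k1,k1,k0,k0],[k0,k1,k1,k0,k1,k0],
    [k0,k1,k0,k1,k0,k0],[k0,k1,k0,k2,k0,k0],[k0,k1,k0,k1,k1,k0],[k0,k1,k0,k1,k0,k1],[k0,k1,k0,k0,k1,k0],[k0,k1,k0,k0,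
    k0,k1],[k0,k0,k2,k0,k0,k0],[k0,k0,k1,k1,k0,k0],[k0,k0,k1,k1,k1,k0],[k0,k0,k1,k1,k0,k1],[k0,k0,k1,k0,k1,k0],[k0,k0,
    k1,k0,k1,k1],[k0,k0,k1,k0,k0,k1],[k0,k0,k0,k2,k0,k0],[k0,k0,k0,k2,k0,k1],[k0,k0,k0,k1,k1,k0],[k0,k0,k0,k1,k1,k1],
    [k0,k0,k0,k1,k0,k1],[k0,k0,k0,k2,k0,k2],[k0,k0,k0,k1,k0,k2],[k0,k0,k0,k0,k2,k0],[k0,k0,k0,k0,k1,k1],[k0,k0,k0,k0,
    k0,k2]]
    [.contra [z1],.ref k0 k6 [(z1,[z1])],.ref k109 k2 [(z1,[z1,z0,y2]),(z1,[z0,z0,z1])],.ref (nat_lit 254) k2 [(z1,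
    [z1,z0,y1]),(z1,[z0,z0,z1])],.ref k1 k2 [(z1,[z1])],.ref (nat_lit 223) k3 [(z1,[y1,z0,y1,z1]),(z1,[z0,z0,z1])],
    .ref (nat_lit 201) k4 [(z1,[z1,z0,z1,y1]),(z1,[y1,z0,z0,z1])],.ref k0 k2 [(z1,[z1])],.contra [z1],
    .ref k62 k6 [(z1,[z1]),(z1,[z0,z0,y1,z1])],.ref k3 k2 [(z2,[y1,z1,z1,z1])],.ref k163 k6 [(z1,[z1,z0,y1]),(z1,[z0,
    z0,y1,z1])],.ref k168 k9 [(z1,[z0,z0,y1,z1]),(z1,[y1,z0,z1])],.ref k163 k10 [(z1,[z1,z0,y1]),(z1,[z0,z0,y1,z1])],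
    .ref k0 k9 [(z1,[z1])],.ref k3 k2 [(z1,[y1,z0,z0,z1])],.ref (nat_lit 223) k3 [(z1,[z1,z0,y1]),(z1,[z0,z0,z1])],
    .contra [y1,z0,z1],.ref k0 k6 [(z1,[z1,z1])],.contra [y1,z0,z1],.contra [y1,z0,z1],.contra [y1,z0,z1],.contra [y1,
    z0,z1],.contra [y1,z0,y2,z2],.contra [y2,y1,y2,z2],.ref k3 k4 [(z1,[z1])],.ref (nat_lit 223) k2 [(z1,[y1,z0,y1,
    z1]),(z1,[z0,z0,z1])],.ref k109 k9 [(z1,[z2,y1,y1,y1]),(z1,[y1,z0,z0,z1])],.ref (nat_lit 254) k2 [(z1,[y1,z0,y1,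
    z1]),(z1,[z0,z0,z1])],.ref k1 k1 [(z1,[z1])],.contra [z1],.ref k0 k2 [(z1,[z1,z1])],.contra [y1,z0,z1],
    .contra [y1,z0,z1],.contra [y1,z0,z1],.ref (nat_lit 252) k1 [(z2,[z1]),(z1,[z0,z0,y1,z1])],
    .ref (nat_lit 246) k1 [(z1,[z1]),(z1,[z0,z0,y1,z1])],.contra [z1],.contra [y2,z1,z2],.contra [z1]])]

/-- the nodes with numbers from 212 -/
noncomputable def cU6_3_n3 : List XN :=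
  cU6_3_n3_0 ++ (cU6_3_n3_1 ++ (cU6_3_n3_2 ++ cU6_3_n3_3))

theorem cU6_3_k3 : allI (chkX 6 cU6_3_w ttU6 cU6_3_s (blkF [] cU6_3_D)) cU6_3_n3 212 = true := by
  decide +kernel

end Pool.Agent.Lib_MP_fa6e45
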