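import Pool.Agent.Lib_MP_fa6e45.CY6_2d

/-!
MP_fa6e45_co, stage 7: certificates (generated by a program).
-/

namespace Pool.Agent.Lib_MP_fa6e45

noncomputable def cU6_3_n4_0 : List XN :=
  [.old (.lp [(nat_lit 1280),(nat_lit 1270),(nat_lit 1284),(nat_lit 1282),(nat_lit 1282),(nat_lit 1278)] [(nat_lit 490),
    (nat_lit 490),(nat_lit 495),(nat_lit 495),(nat_lit 488),(nat_lit 488),(nat_lit 489),(nat_lit 489),(nat_lit 978),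
    k0,(nat_lit 491),(nat_lit 491)] k0 [[k0,k0,k0,k0,k0,k0,(nat_lit 1002),k0,k2],[k0,k0,k0,(nat_lit 278),k0,k0,k0,k0,
    k0,k0,k0,k10],[(nat_lit 278)],[k0,k0,k0,k0,k0,(nat_lit 286),k0,k4],[k0,k0,(nat_lit 286)],[k0,k0,k0,k0,k0,k0,k0,
    k2],[k0,k0,k4,k0,k2],[k0,(nat_lit 1002),k0,k0,k0,k0,k0,k0,k0,k0,k0,k2],[k0,k0,k0,k0,k0,k0,k0,k0,k0,k0,k24],[k0,
    k2],[k10,k0,k0,k0,k0,k0,k2],[k0,k0,k0,k0,k0,k0,k0,k0,k0,k24]] (nat_lit 3840) k6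
    [[(k8,(nat_lit 768)),(k2,(nat_lit 1275)),(k10,(nat_lit 1279)),(k4,(nat_lit 1282)),(k6,(nat_lit 1283)),(k0,
    (nat_lit 1290))],[(k9,(nat_lit 768)),(k3,(nat_lit 1275)),(k11,(nat_lit 1277)),(k7,(nat_lit 1281)),(k1,
    (nat_lit 1290)),(k5,(nat_lit 1560))],[(k8,(nat_lit 789)),(k2,(nat_lit 992)),(k10,(nat_lit 1264)),(k0,
    (nat_lit 1275)),(k4,(nat_lit 1277)),(k6,(nat_lit 2278))],[(k3,(nat_lit 992)),(k11,(nat_lit 1274)),(k1,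
    (nat_lit 1275)),(k5,(nat_lit 1277)),(k7,(nat_lit 1562)),(k9,(nat_lit 1769))],[(k8,(nat_lit 794)),(k4,
    (nat_lit 998)),(k2,(nat_lit 1277)),(k6,(nat_lit 1279)),(k10,(nat_lit 1281)),(k0,(nat_lit 1560))],[(k5,
    (nat_lit 998)),(k3,(nat_lit 1277)),(k11,(nat_lit 1281)),(k1,(nat_lit 1282)),(k7,(nat_lit 1283)),(k9,
    (nat_lit 1774))],[(k8,(nat_lit 793)),(k6,(nat_lit 1280)),(k10,(nat_lit 1280)),(k0,(nat_lit 1281)),(k4,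
    (nat_lit 1283)),(k2,(nat_lit 1562))],[(k5,(nat_lit 1279)),(k7,(nat_lit 1280)),(k11,(nat_lit 1280)),(k1,
    (nat_lit 1283)),(k9,(nat_lit 1771)),(k3,(nat_lit 2278))],[(k0,(nat_lit 768)),(k8,(nat_lit 1282)),(k10,
    (nat_lit 1767)),(k2,(nat_lit 1769)),(k6,(nat_lit 1771)),(k4,(nat_lit 1774))],[(k1,(nat_lit 768)),(k3,
    (nat_lit 789)),(k11,(nat_lit 791)),(k7,(nat_lit 793)),(k5,(nat_lit 794)),(k9,(nat_lit 1282))],[(k8,(nat_lit 791)),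
    (k2,(nat_lit 1274)),(k0,(nat_lit 1277)),(k6,(nat_lit 1280)),(k4,(nat_lit 1281)),(k10,(nat_lit 1302))],[(k3,
    (nat_lit 1264)),(k1,(nat_lit 1279)),(k7,(nat_lit 1280)),(k5,(nat_lit 1281)),(k11,(nat_lit 1302)),(k9,
    (nat_lit 1767))]]
    [] k0
    [[k2,k0,k0,k0,k0,k0],[k2,k0,k0,k0,k1,k0],[k1,k1,k0,k0,k0,k0],[k1,k2,k0,k0,k0,k0],[k1,k2,k0,k0,k1,k0],[k1,k1,k0,k0,
    k1,k0],[k1,k1,k0,k0,k0,k1],[k1,k0,k1,k0,k0,k0],[k1,k1,k1,k0,k0,k0],[k1,k0,k1,k0,k1,k0],[k1,k0,k0,k1,k0,k0],[k1,k0,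
    k0,k1,k1,k0],[k1,k0,k0,k0,k1,k0],[k2,k0,k0,k0,k2,k0],[k1,k0,k0,k0,k2,k0],[k1,k0,k0,k0,k1,k1],[k1,k0,k0,k0,k0,k1],
    [k0,k2,k0,k0,k0,k0],[k0,k3,k0,k0,k0,k0],[k0,k2,k1,k0,k0,k0],[k0,k2,k0,k0,k1,k0],[k0,k2,k0,k0,k0,k1],[k0,k1,k1,k0,
    k0,k0],[k0,k1,k2,k0,k0,k0],[k0,k1,k1,k0,k0,k1],[k0,k1,k0,k0,k1,k0],[k0,k1,k0,k0,k1,k1],[k0,k1,k0,k0,k0,k1],[k0,k0,
    k2,k0,k0,k0],[k0,k0,k3,k0,k0,k0],[k0,k0,k2,k1,k0,k0],[k0,k0,k2,k0,k1,k0],[k0,k0,k2,k0,k0,k1],[k0,k0,k1,k1,k0,k0],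
    [k0,k0,k1,k0,k1,k0],[k0,k0,k1,k0,k0,k1],[k0,k0,k0,k2,k0,k0],[k0,k0,k0,k1,k1,k0],[k0,k0,k0,k1,k0,k1],[k0,k0,k0,k0,
    k2,k0],[k0,k0,k0,k0,k1,k1],[k0,k0,k0,k0,k0,k2]]
    [.contra [z1],.ref (nat_lit 246) k2 [(z1,[z1]),(z1,[z0,z0,z1])],.ref k0 k6 [(z1,[z1])],.contra [z1,y1,y3,z1],
    .contra [z1,y1,y3,z1],.ref (nat_lit 201) k1 [(z1,[y1,z1,z1]),(z1,[z1,y1,y2,z1])],.ref k1 k4 [(z1,[y1,z1,z2])],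
    .contra [y1,z0,y1,z1],.ref k3 k1 [(z1,[y1,z0,z0,z1])],.contra [y1,z0,y1,z1],.ref k1 k2 [(z1,[z1])],
    .ref (nat_lit 223) k6 [(z1,[y1,z0,z1]),(z1,[z0,z0,y1,z1])],.contra [y1,z0,y1,z1],.ref (nat_lit 252) k2 [(z2,[z1]),
    (z1,[z0,z0,z1])],.ref (nat_lit 246) k5 [(z1,[z1]),(z1,[z0,z0,z1])],.contra [y1,z1,z2],.contra [y1,z0,y1,z1],
    .contra [z1],.contra [z1,y1,y3,z1],.contra [z1,z1,z3,y1],.contra [z1,y1,y3,z1],.contra [z1,y1,y3,z1],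
    .ref k0 k9 [(z1,[z1])],.ref k109 k6 [(z1,[z1,z0,z2,y2]),(z1,[z0,z0,y1,z1])],.ref (nat_lit 223) k6 [(z1,[z1,z0,z1,
    y1]),(z1,[z0,z0,y1,z1])],.ref k1 k4 [(z1,[z1])],.ref k0 k6 [(z1,[y1,z1,z2])],.ref (nat_lit 201) k1 [(z1,[z1,z0,
    y1]),(z1,[y1,z0,z0,z1])],.contra [z1],.ref k0 k9 [(z2,[z1,z1,z3,y1])],.ref k0 k9 [(z1,[z1,z1,z2,y1])],
    .ref k163 k9 [(z1,[z1,z0,z1,y1]),(z1,[z0,z0,z1])],.ref k168 k0 [(z1,[z0,z0,z1]),(z1,[y1,z0,y1,z1])],.contra [y1,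
    y1,y1,z1],.contra [y1,z0,y1,z1],.contra [y1,z0,y1,z1],.contra [y1,z0,z2],.ref k0 k4 [(z1,[z1])],
    .ref (nat_lit 201) k6 [(z1,[y1,z0,z1]),(z1,[z0,z0,y1,z1])],.contra [z1],.contra [y1,z0,y1,z1],.contra [z1]]),
    .old (.lp [(nat_lit 1282),(nat_lit 1282),(nat_lit 1284),(nat_lit 1270),(nat_lit 1280),(nat_lit 1278)] [(nat_lit 488),
    (nat_lit 488),(nat_lit 488),(nat_lit 488),(nat_lit 487),(nat_lit 487),(nat_lit 494),(nat_lit 494),(nat_lit 978),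
    k0,(nat_lit 490),(nat_lit 490)] k0 [[k0,k0,k0,k0,k0,k0,(nat_lit 1002),k0,k2],[k0,k0,k0,k2,k0,k4],[k2],[k0,k0,k0,
    k0,k0,(nat_lit 286)],[k4,k0,(nat_lit 286)],[k0,k0,k0,k0,k0,k0,k0,(nat_lit 278)],[k0,k0,k0,k0,(nat_lit 278),k0,k0,
    k0,k10],[k0,(nat_lit 1002),k0,k0,k0,k0,k0,k0,k0,k0,k0,k2],[k0,k0,k0,k0,k0,k0,k0,k0,k0,k0,k24],[k0,k2,k0,k0,k0,k0,
    k0,k10],[k0,k0,k0,k0,k0,k0,k2],[k0,k0,k0,k0,k0,k0,k0,k0,k0,k24]] (nat_lit 3840) k6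
    [[(k8,(nat_lit 768)),(k6,(nat_lit 1278)),(k10,(nat_lit 1280)),(k0,(nat_lit 1282)),(k2,(nat_lit 1282)),(k4,
    (nat_lit 1283))],[(k9,(nat_lit 768)),(k11,(nat_lit 1278)),(k7,(nat_lit 1280)),(k1,(nat_lit 1282)),(k3,
    (nat_lit 1282)),(k5,(nat_lit 1285))],[(k8,(nat_lit 794)),(k4,(nat_lit 1279)),(k2,(nat_lit 1280)),(k10,
    (nat_lit 1280)),(k0,(nat_lit 1282)),(k6,(nat_lit 2278))],[(k3,(nat_lit 1280)),(k11,(nat_lit 1280)),(k1,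
    (nat_lit 1282)),(k5,(nat_lit 1283)),(k7,(nat_lit 1562)),(k9,(nat_lit 1770))],[(k8,(nat_lit 793)),(k4,
    (nat_lit 998)),(k6,(nat_lit 1277)),(k10,(nat_lit 1281)),(k2,(nat_lit 1283)),(k0,(nat_lit 1285))],[(k5,
    (nat_lit 998)),(k7,(nat_lit 1277)),(k3,(nat_lit 1279)),(k11,(nat_lit 1281)),(k1,(nat_lit 1283)),(k9,
    (nat_lit 2049))],[(k8,(nat_lit 786)),(k6,(nat_lit 992)),(k10,(nat_lit 1274)),(k4,(nat_lit 1277)),(k0,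
    (nat_lit 1280)),(k2,(nat_lit 1562))],[(k7,(nat_lit 992)),(k11,(nat_lit 1264)),(k5,(nat_lit 1277)),(k1,
    (nat_lit 1278)),(k9,(nat_lit 1764)),(k3,(nat_lit 2278))],[(k0,(nat_lit 768)),(k8,(nat_lit 1290)),(k6,
    (nat_lit 1764)),(k10,(nat_lit 1766)),(k2,(nat_lit 1770)),(k4,(nat_lit 2049))],[(k1,(nat_lit 768)),(k7,
    (nat_lit 786)),(k11,(nat_lit 790)),(k5,(nat_lit 793)),(k3,(nat_lit 794)),(k9,(nat_lit 1290))],[(k8,(nat_lit 790)),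
    (k6,(nat_lit 1264)),(k0,(nat_lit 1278)),(k2,(nat_lit 1280)),(k4,(nat_lit 1281)),(k10,(nat_lit 1302))],[(k7,
    (nat_lit 1274)),(k1,(nat_lit 1280)),(k3,(nat_lit 1280)),(k5,(nat_lit 1281)),(k11,(nat_lit 1302)),(k9,
    (nat_lit 1766))]]
    [] k0
    [[k2,k0,k0,k0,k0,k0],[k2,k0,k0,k0,k1,k0],[k1,k1,k0,k0,k0,k0],[k1,k1,k0,k0,k1,k0],[k1,k0,k1,k0,k0,k0],[k1,k0,k2,k0,
    k0,k0],[k1,k0,k1,k0,k1,k0],[k1,k0,k0,k1,k0,k0],[k1,k0,k0,k2,k0,k0],[k1,k0,k0,k2,k1,k0],[k1,k0,k0,k1,k1,k0],[k1,k0,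
    k0,k1,k0,k1],[k1,k0,k0,k0,k1,k0],[k2,k0,k0,k0,k2,k0],[k1,k0,k0,k0,k2,k0],[k1,k0,k0,k0,k1,k1],[k1,k0,k0,k0,k0,k1],
    [k0,k2,k0,k0,k0,k0],[k0,k1,k1,k0,k0,k0],[k0,k1,k2,k0,k0,k0],[k0,k1,k0,k0,k1,k0],[k0,k1,k0,k0,k0,k1],[k0,k0,k2,k0,
    k0,k0],[k0,k0,k3,k0,k0,k0],[k0,k0,k2,k1,k0,k0],[k0,k0,k2,k0,k0,k1],[k0,k0,k1,k1,k0,k0],[k0,k0,k1,k2,k0,k0],[k0,k0,
    k1,k1,k0,k1],[k0,k0,k1,k0,k1,k0],[k0,k0,k1,k1,k1,k0],[k0,k0,k1,k0,k0,k1],[k0,k0,k0,k2,k0,k0],[k0,k0,k0,k3,k0,k0],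
    [k0,k0,k0,k2,k1,k0],[k0,k0,k0,k2,k0,k1],[k0,k0,k0,k1,k1,k0],[k0,k0,k0,k1,k1,k1],[k0,k0,k0,k1,k0,k1],[k0,k0,k0,k0,
    k2,k0],[k0,k0,k0,k0,k1,k1],[k0,k0,k0,k0,k0,k2]]
    [.contra [z1],.ref (nat_lit 246) k2 [(z1,[z1]),(z1,[z0,z0,z1])],.contra [y1,z1,z2],.ref k0 k4 [(z1,[z1,y1,y1])],
    .contra [y1,z0,y1,z1],.ref k0 k0 [(z2,[z1,y1])],.contra [y1,z0,y1,z1],.ref k1 k2 [(z1,[z1])],.contra [y1,z1,z4],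
    .contra [z1,z1],.ref (nat_lit 223) k6 [(z1,[y1,z0,z1]),(z1,[z0,z0,y1,z1])],.ref (nat_lit 254) k6 [(z1,[y1,z0,z1]),
    (z1,[z0,z0,y1,z1])],.contra [y1,z0,y1,z1],.ref (nat_lit 252) k2 [(z2,[z1]),(z1,[z0,z0,z1])],.ref k0 k4 [(z2,[z1,
    y1])],.contra [y1,z0,y1,z1],.contra [y1,z0,y1,z1],.contra [z1],.ref k0 k9 [(z1,[z1])],.ref k109 k6 [(z1,[z1,z0,z2,
    y2]),(z1,[z0,z0,y1,z1])],.ref k1 k4 [(z1,[z1])],.ref (nat_lit 201) k1 [(z1,[z1,z0,y1]),(z1,[y1,z0,z0,z1])],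
    .contra [z1],.ref k62 k9 [(z1,[z1]),(z1,[z0,z0,z1])],.ref k109 k7 [(z1,[z1,z0,z2,y2]),(z1,[z0,z0,y1,z1])],
    .ref k168 k0 [(z1,[z0,z0,z1]),(z1,[y1,z0,y1,z1])],.ref k0 k0 [(z1,[z1])],.contra [z1,z1],.ref k0 k4 [(z1,[y1,y1,
    y1,z1])],.contra [y1,z0,y1,z1],.ref k3 k4 [(z1,[z1])],.contra [y1,z0,y1,z1],.contra [y1,z0,z2],.contra [z1,z2,z1],
    .contra [z1,z1],.contra [z1,z1],.ref k0 k4 [(z1,[z1])],.ref k0 k0 [(z1,[y1,y1,y1,z1])],.ref k3 k4 [(z1,[y1,y1,y1,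
    z1])],.contra [z1],.contra [y1,z0,y1,z1],.contra [z1]]),
    .old (.lp [(nat_lit 650),(nat_lit 640),(nat_lit 622),(nat_lit 646),(nat_lit 654),(nat_lit 624)] [(nat_lit 208),
    (nat_lit 208),(nat_lit 426),k0,(nat_lit 222),(nat_lit 222),(nat_lit 210),(nat_lit 210),(nat_lit 206),
    (nat_lit 206),(nat_lit 221),(nat_lit 221)] k0 [[k0,k0,k0,k0,k0,k0,k0,k0,k14],[k0,k0,k0,k0,k0,k0,k0,(nat_lit 472)],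
    [k0,k0,k0,k0,k36,k0,k0,k0,k0,k0,k40],[k0,k0,k0,k0,k0,k0,k0,k4],[k0,k0,k0,k0,k0,k0,k10,k0,k0,k0,k2],[k0,k0,k0,k36,
    k0,k0,k0,k0,k0,k34],[(nat_lit 472),k0,k4],[k0,k0,k0,k0,k0,k10,k0,k0,k0,k0,k0,k12],[k0,k0,k0,k0,k34],[k0,k14,k0,k0,
    k0,k0,k0,k0,k0,k0,k0,k144],[k0,k0,k0,k0,k0,k0,k12,k0,k144],[k0,k0,k0,k40,k0,k2]] (nat_lit 1920) k6
    [[(k2,(nat_lit 392)),(k4,(nat_lit 634)),(k10,(nat_lit 637)),(k0,(nat_lit 650)),(k6,(nat_lit 660)),(k8,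
    (nat_lit 796))],[(k11,(nat_lit 623)),(k5,(nat_lit 636)),(k7,(nat_lit 648)),(k1,(nat_lit 650)),(k3,(nat_lit 858)),
    (k9,(nat_lit 1124))],[(k6,(nat_lit 384)),(k2,(nat_lit 640)),(k4,(nat_lit 844)),(k10,(nat_lit 845)),(k0,
    (nat_lit 858)),(k8,(nat_lit 874))],[(k1,(nat_lit 392)),(k7,(nat_lit 394)),(k5,(nat_lit 418)),(k11,(nat_lit 419)),
    (k9,(nat_lit 438)),(k3,(nat_lit 640))],[(k2,(nat_lit 418)),(k6,(nat_lit 630)),(k0,(nat_lit 636)),(k8,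
    (nat_lit 638)),(k4,(nat_lit 658)),(k10,(nat_lit 663))],[(k9,(nat_lit 628)),(k1,(nat_lit 634)),(k7,(nat_lit 634)),
    (k11,(nat_lit 657)),(k5,(nat_lit 658)),(k3,(nat_lit 844))],[(k2,(nat_lit 394)),(k8,(nat_lit 616)),(k4,
    (nat_lit 634)),(k10,(nat_lit 637)),(k0,(nat_lit 648)),(k6,(nat_lit 656))],[(k3,(nat_lit 384)),(k5,(nat_lit 630)),
    (k11,(nat_lit 635)),(k9,(nat_lit 650)),(k7,(nat_lit 656)),(k1,(nat_lit 660))],[(k2,(nat_lit 438)),(k10,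
    (nat_lit 627)),(k4,(nat_lit 628)),(k6,(nat_lit 650)),(k8,(nat_lit 654)),(k0,(nat_lit 1124))],[(k7,(nat_lit 616)),
    (k5,(nat_lit 638)),(k11,(nat_lit 639)),(k9,(nat_lit 654)),(k1,(nat_lit 796)),(k3,(nat_lit 874))],[(k2,
    (nat_lit 419)),(k10,(nat_lit 480)),(k0,(nat_lit 623)),(k6,(nat_lit 635)),(k8,(nat_lit 639)),(k4,(nat_lit 657))],
    [(k11,(nat_lit 480)),(k9,(nat_lit 627)),(k1,(nat_lit 637)),(k7,(nat_lit 637)),(k5,(nat_lit 663)),(k3,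
    (nat_lit 845))]]
    [] k0
    [[k2,k0,k0,k0,k0,k0],[k2,k1,k0,k0,k0,k0],[k2,k0,k0,k0,k0,k1],[k1,k1,k0,k0,k0,k0],[k1,k2,k0,k0,k0,k0],[k1,k1,k1,k0,
    k0,k0],[k1,k1,k0,k1,k0,k0],[k1,k1,k0,k0,k0,k1],[k1,k0,k1,k0,k0,k0],[k1,k0,k1,k1,k0,k0],[k1,k0,k0,k1,k0,k0],[k1,k0,
    k0,k0,k0,k1],[k1,k0,k0,k0,k0,k2],[k0,k2,k0,k0,k0,k0],[k0,k2,k1,k0,k0,k0],[k0,k2,k0,k1,k0,k0],[k0,k2,k0,k0,k0,k1],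
    [k0,k1,k1,k0,k0,k0],[k0,k1,k1,k1,k0,k0],[k0,k1,k0,k1,k0,k0],[k0,k2,k0,k2,k0,k0],[k0,k1,k0,k2,k0,k0],[k0,k1,k0,k1,
    k1,k0],[k0,k1,k0,k1,k0,k1],[k0,k1,k0,k0,k1,k0],[k0,k1,k0,k0,k0,k1],[k0,k1,k0,k0,k0,k2],[k0,k0,k2,k0,k0,k0],[k0,k0,
    k1,k1,k0,k0],[k0,k0,k1,k1,k1,k0],[k0,k0,k1,k0,k1,k0],[k0,k0,k1,k0,k0,k1],[k0,k0,k1,k0,k0,k2],[k0,k0,k0,k2,k0,k0],
    [k0,k0,k0,k1,k1,k0],[k0,k0,k0,k1,k1,k1],[k0,k0,k0,k1,k0,k1],[k0,k0,k0,k1,k0,k2],[k0,k0,k0,k0,k2,k0],[k0,k0,k0,k0,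
    k1,k1],[k0,k0,k0,k0,k1,k2],[k0,k0,k0,k0,k0,k2],[k0,k0,k0,k0,k0,k3]]
    [.contra [z1],.ref (nat_lit 257) k10 [(z1,[z1,y2]),(z1,[z0,z1])],.ref (nat_lit 256) k0 [(z1,[y1,y1,z1]),(z1,[z0,
    z1])],.ref k0 k6 [(z1,[z1])],.ref (nat_lit 255) k4 [(z1,[y1,z1]),(z1,[z0,y1,z1])],.ref k3 k1 [(z1,[y1,z0,z1])],
    .ref (nat_lit 223) k4 [(z1,[y1,z1]),(z1,[z0,y1,z1])],.ref k3 k4 [(z1,[y1,z0,z1])],.ref (nat_lit 201) k4 [(z1,[y1,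
    z1]),(z1,[z0,y1,z1])],.ref (nat_lit 254) k4 [(z1,[y1,z1]),(z1,[z0,y1,z1])],.ref k1 k2 [(z1,[z1])],.ref k0 k2 [(z1,
    [z1])],.ref k109 k8 [(z1,[z1,z2,y2]),(z1,[z0,y1,z1])],.contra [z1],.ref (nat_lit 253) k6 [(z1,[z1,z1,y1]),(z1,[y1,
    y2,z2])],.ref (nat_lit 246) k10 [(z1,[z1]),(z1,[z0,z1])],.ref (nat_lit 250) k10 [(z1,[z1,z1,y1]),(z1,[z0,z1])],
    .contra [y1,y1,z1],.contra [y1,y1,z1],.contra [y1,y1,z1],.ref (nat_lit 252) k0 [(z2,[z1]),(z1,[z0,z1])],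
    .ref (nat_lit 246) k0 [(z1,[z1]),(z1,[z0,z1])],.ref (nat_lit 223) k8 [(z1,[y1,z1]),(z1,[z0,y1,z1])],.contra [y1,
    y1,z1],.ref k1 k4 [(z1,[z1])],.contra [y1,y1,z1],.ref k163 k1 [(z1,[z1,z1,y1]),(z1,[z0,z1])],.contra [z1],
    .contra [y1,y1,z1],.ref k3 k4 [(z1,[z1])],.ref (nat_lit 201) k9 [(z1,[z1,y1]),(z1,[y1,z0,z1])],.contra [y1,y1,z1],
    .ref k168 k2 [(z1,[z0,z1]),(z1,[y1,y1,z1])],.contra [z1],.ref k0 k4 [(z1,[z1])],.ref k3 k1 [(z1,[z1])],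
    .contra [y1,y1,z1],.ref k163 k11 [(z1,[z1,z1,y1]),(z1,[z0,z1])],.contra [y1,z2],.ref k0 k1 [(z1,[z1])],
    .ref k109 k4 [(z1,[z1,z2,y2]),(z1,[z0,y1,z1])],.contra [z1],.ref k62 k1 [(z1,[z1]),(z1,[z0,z1])]]),
    .old (.tor k34 false k0 [(z1,[z1]),(z1,[z0,z1]),(z1,[z0,z0,z1]),(z1,[z0,z0,z0,z1]),(z1,[y1,y1,y3,y1,z3])]),
    .old (.lp [k196,k160,k150,k124,k188,k140] [k40,k0,k38,k38,k43,k43,k56,k56,k16,k32,k48,k48] k0 [[k0,k0,k0,k0,k0,k0,k0,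
    k0,k28],[],[k0,k0,k0,k0,k20,k0,k0,k0,k0,k0,k26],[k0,k0,k0,k0,k0,k0,k0,k2,k0,k20],[k0,k0,k0,k0,k0,k0,k38,k0,k6],
    [k0,k0,k0,k20,k0,k0,k0,k0,k0,k0,k0,k12],[k0,k0,k2,k0,k0,k0,k0,k0,k12],[k0,k0,k0,k0,k0,k38,k0,k0,k0,k0,k0,k10],[k0,
    k0,k20,k0,k0,k0,k0,k0,k0,k0,k100],[k0,k28,k0,k0,k0,k6,k0,k12],[k0,k0,k0,k0,k12,k0,k10],[k0,k0,k0,k26,k0,k0,k0,k0,
    k0,k100]] (nat_lit 480) k5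
    [[(k8,k120),(k2,k172),(k10,k188),(k6,k190),(k0,k196),(k4,(nat_lit 205))],[(k11,k120),(k7,k140),(k5,k153),(k3,
    k158),(k9,k164),(k1,k196)],[(k6,k142),(k10,k150),(k4,k155),(k0,k158),(k2,k160),(k8,(nat_lit 210))],[(k7,k122),(k5,
    k155),(k3,k160),(k9,k168),(k11,k170),(k1,k172)],[(k6,k135),(k0,k153),(k2,k155),(k8,k157),(k4,k170),(k10,k171)],
    [(k9,k123),(k7,k137),(k11,k139),(k3,k155),(k5,k170),(k1,(nat_lit 205))],[(k10,k120),(k2,k122),(k4,k137),(k0,k140),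
    (k6,k162),(k8,k170)],[(k11,k120),(k5,k135),(k3,k142),(k9,k148),(k7,k162),(k1,k190)],[(k4,k123),(k10,k146),(k6,
    k148),(k0,k164),(k2,k168),(k8,(nat_lit 200))],[(k1,k120),(k5,k157),(k7,k170),(k11,k172),(k9,(nat_lit 200)),(k3,
    (nat_lit 210))],[(k0,k120),(k6,k120),(k4,k139),(k2,k170),(k8,k172),(k10,(nat_lit 240))],[(k7,k120),(k9,k146),(k3,
    k150),(k5,k171),(k1,k188),(k11,(nat_lit 240))]]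
    [] k0
    [[k2,k0,k0,k0,k0,k0],[k1,k1,k0,k0,k0,k0],[k1,k1,k0,k1,k0,k0],[k1,k1,k0,k0,k0,k1],[k1,k0,k1,k0,k0,k0],[k1,k0,k0,k1,
    k0,k0],[k1,k0,k0,k1,k0,k1],[k1,k0,k0,k0,k1,k0],[k1,k1,k0,k0,k1,k0],[k1,k0,k1,k0,k1,k0],[k1,k0,k0,k1,k1,k0],[k1,k0,
    k0,k0,k1,k1],[k1,k0,k0,k0,k0,k1],[k0,k2,k0,k0,k0,k0],[k0,k2,k1,k0,k0,k0],[k0,k2,k0,k1,k0,k0],[k0,k1,k1,k0,k0,k0],
    [k0,k1,k1,k1,k0,k0],[k0,k1,k0,k1,k0,k0],[k0,k1,k0,k2,k0,k0],[k0,k1,k0,k1,k0,k1],[k0,k1,k0,k0,k1,k0],[k0,k1,k0,k0,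
    k0,k1],[k0,k1,k1,k0,k0,k1],[k0,k0,k2,k0,k0,k0],[k0,k0,k2,k1,k0,k0],[k0,k0,k2,k0,k1,k0],[k0,k0,k1,k1,k0,k0],[k0,k0,
    k1,k2,k0,k0],[k0,k0,k1,k1,k1,k0],[k0,k0,k1,k1,k0,k1],[k0,k0,k1,k0,k1,k0],[k0,k0,k1,k0,k1,k1],[k0,k0,k1,k0,k0,k1],
    [k0,k0,k0,k2,k0,k0],[k0,k0,k0,k2,k0,k1],[k0,k0,k0,k1,k1,k0],[k0,k0,k0,k1,k1,k1],[k0,k0,k0,k1,k0,k1],[k0,k0,k0,k0,
    k2,k0],[k0,k0,k0,k0,k1,k1]]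
    [.contra [z1],.contra [y2,z1,z1,z0,z1],.ref k2 k2 [(z1,[z1,z1,z0,z2,y1])],.ref k3 k4 [(z1,[y1,z0,z0,z0,z1])],
    .contra [y3,z4,z2,z3],.ref k1 k2 [(z1,[z1])],.ref k2 k2 [(z2,[z1,z2,z1,z3,y1])],.ref (nat_lit 258) k2 [(z1,[z1])],
    .ref (nat_lit 233) k4 [(z1,[z0,y1,z0,y1,z1]),(z1,[y1,z0,z0,z0,z1])],.ref k2 k2 [(z1,[z1])],.ref k2 k2 [(z3,[z1,z3,
    z1,z4,y1])],.ref k3 k2 [(z1,[z1])],.contra [z1,y1],.contra [z1],.ref k2 k2 [(z4,[y1,z4,z2,z5])],.ref k2 k2 [(z2,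
    [y1,z1,z1,z1,z1])],.ref k0 k9 [(z1,[z1])],.ref k3 k2 [(z1,[y1,z0,z0,z0,z1])],.contra [y3,y1,z1,y3,z3],
    .ref k3 k4 [(z1,[z1,z1,z0,z2,y1])],.ref k2 k2 [(z1,[y1,z0,z0,z0,z1])],.contra [z1,z0,y1],
    .ref (nat_lit 258) k6 [(z1,[z1])],.ref k2 k2 [(z3,[y1,z3,z1,z4])],.contra [z1],.ref (nat_lit 233) k4 [(z1,[z0,y1,
    z0,y1,z1]),(z2,[z1,y1,y1,y1,z1])],.ref k3 k2 [(z1,[y1,z1,z0,z2])],.ref k0 k0 [(z1,[z1])],.ref k3 k4 [(z2,[z1,z0,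
    z0,z1])],.ref k3 k4 [(z1,[z1])],.ref (nat_lit 233) k4 [(z1,[z0,y1,z0,y1,z1]),(z1,[z1])],.contra [y3,z2,z1,z3],
    .ref k2 k2 [(z1,[y1,z1,z0,z2])],.contra [y1,z1,z0,z1],.contra [z1],.ref (nat_lit 259) k2 [(z1,[z1,z5,z2,z2,y2]),
    (z1,[y2,y4,y1,y4,z4]),(z1,[z0,z0,z0,z1]),(z1,[z2,z1,z1,z1,y1])],.contra [y1,y1,z0,y1,z1],.ref k2 k2 [(z1,[z1,z2,
    z1,z2,y1])],.contra [y3,y2,y1,y3,z3],.contra [z1],.contra [y2,y1,y1,z0,z1]]),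
    .geo true z2 k5 [(y4,z8),(z4,y4),(z2,y1),(z2,y1),(z4,y4),(z0,z2)] [(z1,[z2]),(z1,[z0,z2]),(z1,[z0,z0,z1]),(z1,[z0,z0,
    z0,z1]),(z1,[y2,y2,y1,y1,z2]),(z1,
    [])] (Int.ofNat (nat_lit 524288)) (Int.ofNat (nat_lit 1048576)) (.s (.s (.l k1) (.s (.l k2) (.l k1))) (.s (.l k1) (.s (.l k1) (.l k1)))) [⟨z2,
    z3,[[k0,k3],[k1,k4],[k2,k5]],.child (.ref k2 k2 [(z2,[z1,z0,y2,z0,y1,z2])])⟩],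
    .old (.lp [(nat_lit 300),(nat_lit 332),(nat_lit 302),(nat_lit 344),(nat_lit 322),(nat_lit 316)] [k22,k22,k6,k6,k21,
    k21,k0,k0,k11,k11,k14,k14] k0 [[k0,k0,k0,k0,k0,k0,k62,k0,k68],[k0,k0,k0,k0,k0,k0,k0,k0,k0,k0,k0,k28],[k0,k0,k0,k0,
    k98],[k0,k0,k0,k0,k0,k0,k0,k38,k0,k8],[k0,k0,k0,k0,k0,k0,k0,k0,k6,k0,k42],[k0,k0,k0,k98,k0,k0,k0,k24],[k0,k0,k38,
    k0,k24],[k0,k62,k0,k0,k0,k0,k0,k0,k0,k0,k0,k26],[k0,k0,k8,k0,k0,k0,k0,k0,k0,k0,k32],[k0,k68,k0,k0,k0,k6],[k28,k0,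
    k0,k0,k0,k0,k26],[k0,k0,k0,k0,k0,k42,k0,k0,k0,k32]] (nat_lit 960) k5
    [[(k4,(nat_lit 259)),(k8,(nat_lit 279)),(k10,(nat_lit 308)),(k2,(nat_lit 316)),(k0,(nat_lit 328)),(k6,
    (nat_lit 348))],[(k11,(nat_lit 240)),(k9,(nat_lit 249)),(k5,(nat_lit 301)),(k3,(nat_lit 316)),(k7,(nat_lit 322)),
    (k1,(nat_lit 328))],[(k10,(nat_lit 296)),(k0,(nat_lit 316)),(k4,(nat_lit 317)),(k2,(nat_lit 332)),(k8,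
    (nat_lit 395)),(k6,(nat_lit 400))],[(k7,(nat_lit 240)),(k1,(nat_lit 316)),(k5,(nat_lit 317)),(k3,(nat_lit 332)),
    (k11,(nat_lit 332)),(k9,(nat_lit 365))],[(k6,(nat_lit 285)),(k0,(nat_lit 301)),(k8,(nat_lit 304)),(k10,
    (nat_lit 309)),(k2,(nat_lit 317)),(k4,(nat_lit 400))],[(k1,(nat_lit 259)),(k11,(nat_lit 303)),(k3,(nat_lit 317)),
    (k7,(nat_lit 323)),(k9,(nat_lit 336)),(k5,(nat_lit 400))],[(k2,(nat_lit 240)),(k6,(nat_lit 320)),(k0,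
    (nat_lit 322)),(k4,(nat_lit 323)),(k8,(nat_lit 339)),(k10,(nat_lit 372))],[(k5,(nat_lit 285)),(k7,(nat_lit 320)),
    (k11,(nat_lit 330)),(k9,(nat_lit 333)),(k1,(nat_lit 348)),(k3,(nat_lit 400))],[(k0,(nat_lit 249)),(k10,
    (nat_lit 293)),(k8,(nat_lit 322)),(k6,(nat_lit 333)),(k4,(nat_lit 336)),(k2,(nat_lit 365))],[(k1,(nat_lit 279)),
    (k5,(nat_lit 304)),(k11,(nat_lit 319)),(k9,(nat_lit 322)),(k7,(nat_lit 339)),(k3,(nat_lit 395))],[(k0,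
    (nat_lit 240)),(k4,(nat_lit 303)),(k8,(nat_lit 319)),(k6,(nat_lit 330)),(k2,(nat_lit 332)),(k10,(nat_lit 348))],
    [(k9,(nat_lit 293)),(k3,(nat_lit 296)),(k1,(nat_lit 308)),(k5,(nat_lit 309)),(k11,(nat_lit 348)),(k7,
    (nat_lit 372))]]
    [] k0
    [[k2,k0,k0,k0,k0,k0],[k2,k0,k1,k0,k0,k0],[k2,k0,k0,k0,k1,k0],[k2,k0,k0,k0,k0,k1],[k1,k1,k0,k0,k0,k0],[k1,k1,k1,k0,
    k0,k0],[k1,k1,k0,k0,k0,k1],[k1,k0,k1,k0,k0,k0],[k1,k0,k1,k1,k0,k0],[k1,k0,k1,k0,k1,k0],[k1,k0,k1,k0,k0,k1],[k1,k0,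
    k0,k1,k0,k0],[k1,k1,k0,k1,k0,k0],[k1,k0,k0,k1,k1,k0],[k1,k0,k0,k0,k1,k0],[k1,k0,k0,k0,k2,k0],[k1,k0,k0,k0,k1,k1],
    [k1,k0,k0,k0,k0,k1],[k1,k0,k0,k0,k0,k2],[k0,k2,k0,k0,k0,k0],[k0,k1,k1,k0,k0,k0],[k0,k1,k1,k1,k0,k0],[k0,k1,k1,k0,
    k0,k1],[k0,k1,k0,k1,k0,k0],[k0,k1,k0,k0,k1,k0],[k0,k1,k0,k0,k0,k1],[k0,k1,k0,k1,k0,k1],[k0,k0,k2,k0,k0,k0],[k0,k0,
    k1,k1,k0,k0],[k0,k0,k1,k2,k0,k0],[k0,k0,k1,k0,k1,k0],[k0,k0,k1,k0,k1,k1],[k0,k0,k1,k0,k0,k1],[k0,k0,k0,k2,k0,k0],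
    [k0,k0,k0,k1,k1,k0],[k0,k0,k0,k1,k0,k1],[k0,k0,k0,k0,k2,k0],[k0,k0,k0,k0,k2,k1],[k0,k0,k0,k0,k1,k1],[k0,k0,k0,k0,
    k0,k2]]
    [.contra [z1],.ref k2 k2 [(z2,[z1,z0,z0,z1])],.ref k2 k2 [(z3,[z1,z1,z0,z3])],.ref (nat_lit 260) k4 [(z1,[z1,y3,
    y1,y3,z1]),(z1,[y1,z4,z2,z3,y2]),(z1,[z0,z1,z0,z2])],.ref k0 k6 [(z1,[z1])],.ref k3 k1 [(z1,[y1,z0,z0,z0,z1])],
    .ref k3 k1 [(z1,[y2,z1,z1,y1,z1])],.contra [z1,y1,z0,y1],.ref k3 k2 [(z1,[z1,z1,z1,z0,y1])],.ref k2 k2 [(z1,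
    [z1])],.ref k3 k1 [(z1,[z2,y3,y1,y3,z1])],.ref k1 k2 [(z1,[z1])],.ref (nat_lit 261) k10 [(z1,[z2,z0,z1,y2,y2]),
    (z1,[z0,z1,z0,z2]),(z1,[y2,z0,z0,y1,z2]),(z1,[z0,z0,z0,z1])],.ref (nat_lit 260) k4 [(z1,[z1,y1,z0,y2]),(z1,[y1,z2,
    z1,z2,y1]),(z1,[z0,z1,z0,z2])],.ref (nat_lit 258) k2 [(z1,[z1])],.ref k2 k2 [(z2,[z1,z1,z0,z2])],.ref k3 k2 [(z1,
    [z1])],.contra [y2,z2,z1,z1],.ref k3 k1 [(z1,[z1,y2,y1,y1,z1])],.contra [z1],.ref k0 k9 [(z1,[z1])],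
    .ref k3 k2 [(z1,[y1,z0,z0,z0,z1])],.ref (nat_lit 260) k4 [(z1,[y1,y1,z0,y2,z1]),(z1,[z1,z2,z1,z2,y2]),(z1,[z0,z1,
    z0,z2])],.contra [y1,y2,y1,y2,z2],.ref k1 k4 [(z1,[z1])],.ref (nat_lit 258) k6 [(z1,[z1])],.ref k2 k2 [(z1,[y1,z0,
    z0,z0,z1])],.contra [z1],.contra [y2,y1,y1,z0,z2],.ref k3 k1 [(z1,[z1,z1,z1,z0,y1])],.contra [y2,z1,z0,z3],
    .ref (nat_lit 261) k10 [(z1,[y2,z0,z1,y2]),(z1,[z0,z1,z0,z2]),(z1,[z2,z0,z0,y1]),(z1,[z0,z0,z0,z1])],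
    .ref k1 k1 [(z1,[z1])],.contra [z1],.contra [y2,y2,y1,y1,z2],.ref (nat_lit 258) k1 [(z1,[z1])],.contra [z1],
    .ref k3 k1 [(z1,[z2,y1,y1,y1,z1])],.contra [y2,z1,z1],.contra [z1]]),
    .old (.lp [(nat_lit 8720),(nat_lit 6976),(nat_lit 9810),(nat_lit 8720),(nat_lit 8938),(nat_lit 8938)] [(nat_lit 1745),
    (nat_lit 1745),(nat_lit 2617),(nat_lit 2617),(nat_lit 2400),k0,(nat_lit 1745),(nat_lit 1745),(nat_lit 1636),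
    (nat_lit 1636),(nat_lit 1636),(nat_lit 1636)] k0 [[k0,k0,(nat_lit 3924)],[k0,k0,k0,k0,k0,k0,k0,(nat_lit 218)],[k0,
    k0,k0,k0,k0,k0,(nat_lit 654),k0,k0,k0,(nat_lit 436)],[k0,(nat_lit 3924),k0,k0,k0,(nat_lit 436)],[k0,k0,
    (nat_lit 436),k0,k0,k0,(nat_lit 1526)],[k0,k0,k0,k0,k0,k0,k0,k0,k0,(nat_lit 436)],[(nat_lit 218)],[k0,k0,k0,
    (nat_lit 654),k0,(nat_lit 1526)],[k0,k0,k0,k0,(nat_lit 436)],[],[],[k0,k0,k0,(nat_lit 436)]] (nat_lit 26160) k5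
    [[(k2,(nat_lit 7412)),(k4,(nat_lit 8065)),(k0,(nat_lit 8720)),(k6,(nat_lit 8720)),(k8,(nat_lit 8829)),(k10,
    (nat_lit 8829))],[(k5,(nat_lit 6541)),(k3,(nat_lit 7848)),(k1,(nat_lit 8720)),(k7,(nat_lit 8720)),(k11,
    (nat_lit 8829)),(k9,(nat_lit 9047))],[(k4,(nat_lit 7193)),(k6,(nat_lit 7630)),(k0,(nat_lit 7848)),(k8,
    (nat_lit 7957)),(k10,(nat_lit 7957)),(k2,(nat_lit 10900))],[(k9,(nat_lit 7303)),(k1,(nat_lit 7412)),(k11,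
    (nat_lit 7957)),(k7,(nat_lit 8284)),(k5,(nat_lit 9593)),(k3,(nat_lit 10900))],[(k0,(nat_lit 6541)),(k4,
    (nat_lit 9374)),(k2,(nat_lit 9593)),(k8,(nat_lit 10574)),(k10,(nat_lit 11010)),(k6,(nat_lit 11119))],[(k9,
    (nat_lit 6648)),(k3,(nat_lit 7193)),(k1,(nat_lit 8065)),(k7,(nat_lit 8065)),(k11,(nat_lit 8610)),(k5,
    (nat_lit 9374))],[(k4,(nat_lit 8065)),(k2,(nat_lit 8284)),(k8,(nat_lit 8393)),(k0,(nat_lit 8720)),(k10,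
    (nat_lit 8829)),(k6,(nat_lit 10246))],[(k3,(nat_lit 7630)),(k1,(nat_lit 8720)),(k9,(nat_lit 8829)),(k11,
    (nat_lit 8829)),(k7,(nat_lit 10246)),(k5,(nat_lit 11119))],[(k4,(nat_lit 6648)),(k2,(nat_lit 7303)),(k6,
    (nat_lit 8829)),(k8,(nat_lit 8938)),(k10,(nat_lit 8938)),(k0,(nat_lit 9047))],[(k3,(nat_lit 7957)),(k7,
    (nat_lit 8393)),(k1,(nat_lit 8829)),(k9,(nat_lit 8938)),(k11,(nat_lit 8938)),(k5,(nat_lit 10574))],[(k2,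
    (nat_lit 7957)),(k4,(nat_lit 8610)),(k0,(nat_lit 8829)),(k6,(nat_lit 8829)),(k8,(nat_lit 8938)),(k10,
    (nat_lit 8938))],[(k3,(nat_lit 7957)),(k1,(nat_lit 8829)),(k7,(nat_lit 8829)),(k9,(nat_lit 8938)),(k11,
    (nat_lit 8938)),(k5,(nat_lit 11010))]]
    [] k0
    [[k2,k0,k0,k0,k0,k0],[k2,k1,k0,k0,k0,k0],[k2,k0,k1,k0,k0,k0],[k1,k1,k0,k0,k0,k0],[k1,k1,k1,k0,k0,k0],[k1,k1,k0,k1,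
    k0,k0],[k1,k1,k0,k0,k1,k0],[k1,k1,k0,k0,k0,k1],[k1,k0,k1,k0,k0,k0],[k1,k0,k2,k0,k0,k0],[k1,k0,k0,k1,k0,k0],[k1,k0,
    k1,k1,k0,k0],[k1,k0,k0,k0,k1,k0],[k1,k0,k1,k0,k1,k0],[k1,k0,k0,k0,k0,k1],[k1,k0,k1,k0,k0,k1],[k0,k2,k0,k0,k0,k0],
    [k0,k1,k1,k0,k0,k0],[k0,k1,k1,k0,k1,k0],[k0,k1,k0,k1,k0,k0],[k0,k1,k1,k1,k0,k0],[k0,k1,k0,k1,k1,k0],[k0,k1,k0,k1,
    k0,k1],[k0,k1,k0,k0,k1,k0],[k0,k1,k0,k0,k2,k0],[k0,k1,k0,k0,k1,k1],[k0,k1,k0,k0,k0,k1],[k0,k1,k0,k0,k0,k2],[k0,k0,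
    k2,k0,k0,k0],[k0,k0,k1,k1,k0,k0],[k0,k0,k1,k0,k1,k0],[k0,k0,k1,k0,k0,k1],[k0,k0,k0,k2,k0,k0],[k0,k0,k0,k1,k1,k0],
    [k0,k0,k0,k1,k0,k1],[k0,k0,k0,k0,k2,k0],[k0,k0,k0,k0,k1,k1],[k0,k0,k0,k0,k0,k2]]
    [.contra [z1],.ref (nat_lit 262) k2 [(z2,[z1,z0,y1]),(z1,[y1,z2,z2]),(z1,[z0,z0,z0,z1])],.ref k2 k2 [(z2,[z1,z0,
    z0,z1])],.ref k0 k6 [(z1,[z1])],.ref k3 k1 [(z1,[y1,z0,z0,z0,z1])],.ref (nat_lit 262) k2 [(z1,[z1,z1,z0,z1,y1]),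
    (z1,[y2,z0,z1,y2,z2]),(z1,[z0,z0,z0,z1])],.ref (nat_lit 262) k6 [(z1,[z4,y4,y3]),(z1,[y4,z6,z4,z1]),(z1,[y2,z1,z1,
    y1,z1])],.ref k3 k2 [(z1,[y2,z3,z2])],.ref (nat_lit 258) k9 [(z1,[z1])],.ref (nat_lit 262) k2 [(z1,[z1,z0,z0,y2]),
    (z1,[y2,z2,z1,z4]),(z1,[z0,z0,z0,z1])],.ref k1 k2 [(z1,[z1])],.ref (nat_lit 260) k1 [(z1,[y1,z2,z1,z2,y1]),(z1,
    [z1,z0,z0,y1]),(z1,[z0,y2,y1,y2,z2])],.ref (nat_lit 258) k2 [(z1,[z1])],.ref k2 k2 [(z1,[z1])],.contra [y2,z2,z1,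
    z1],.ref k3 k2 [(z1,[z2,y1,z0,y2])],.contra [z1],.ref k0 k9 [(z1,[z1])],.ref k3 k2 [(z3,[y2,z3,z2,z2])],
    .contra [z1,z1,z0,z3,y1],.ref k3 k2 [(z1,[y1,z0,z0,z0,z1])],.ref k3 k2 [(z1,[y2,y1,z0,y2,z2])],.ref k2 k2 [(z1,
    [y1,z0,z0,z0,z1])],.ref k1 k4 [(z1,[z1])],.ref k3 k2 [(z1,[y1,z1,z1])],.ref (nat_lit 260) k1 [(z1,[z1,z2,z1,z2,
    y2]),(z1,[y1,z0,z0,y1,z1]),(z1,[z0,y2,y1,y2,z2])],.ref (nat_lit 258) k6 [(z1,[z1])],.ref k2 k2 [(z2,[y1,z2,z1,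
    z2])],.contra [z1],.contra [z1,z1,z1,z0,y1],.contra [y2,y1,y1,z2,z1],.ref k1 k1 [(z1,[z1])],.contra [z1],
    .contra [y2,y2,y1,y1,z2],.ref (nat_lit 258) k1 [(z1,[z1])],.contra [z1],.ref k0 k1 [(z1,[z1])],.contra [z1]]),
    .old (.lp [k84,k64,k76,k86,k88,k80] [k2,k2,k12,k12,k6,k6,k1,k1,k0,k0,k4,k4] k0 [[k0,k0,k0,k0,k0,k0,k10,k0,k12],[k0,k0,
    k0,k0,k0,k0,k0,k0,k0,k0,k0,k6],[k0,k0,k0,k0,k6,k0,k0,k0,k8],[k0,k0,k0,k0,k0,k0,k0,k4,k0,k0,k0,k2],[k0,k0,k0,k0,k0,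
    k0,k0,k0,k0,k0,k2],[k0,k0,k0,k6,k0,k0,k0,k0,k0,k6],[k0,k0,k4],[k0,k10],[k0,k0,k0,k0,k6],[k0,k12,k0,k8],[k6,k0,k2],
    [k0,k0,k0,k0,k0,k2]] (nat_lit 240) k5
    [[(k2,k76),(k4,k78),(k10,k82),(k6,k85),(k8,k86),(k0,k90)],[(k11,k70),(k3,k74),(k9,k76),(k5,k80),(k7,k85),(k1,
    k90)],[(k2,k64),(k10,k66),(k4,k70),(k0,k74),(k6,k85),(k8,k88)],[(k3,k64),(k11,k64),(k7,k69),(k5,k70),(k1,k76),(k9,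
    k80)],[(k2,k70),(k10,k76),(k6,k77),(k0,k80),(k4,k82),(k8,k90)],[(k3,k70),(k1,k78),(k7,k81),(k5,k82),(k9,k82),(k11,
    k84)],[(k2,k69),(k4,k81),(k8,k81),(k0,k85),(k10,k85),(k6,k86)],[(k5,k77),(k11,k83),(k1,k85),(k3,k85),(k7,k86),(k9,
    k87)],[(k0,k76),(k2,k80),(k4,k82),(k10,k84),(k6,k87),(k8,k88)],[(k7,k81),(k11,k84),(k1,k86),(k3,k88),(k9,k88),(k5,
    k90)],[(k2,k64),(k0,k70),(k10,k80),(k6,k83),(k4,k84),(k8,k84)],[(k3,k66),(k5,k76),(k11,k80),(k1,k82),(k9,k84),(k7,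
    k85)]]
    [] k0
    [[k2,k0,k0,k0,k0,k0],[k1,k1,k0,k0,k0,k0],[k1,k2,k0,k0,k0,k0],[k1,k1,k1,k0,k0,k0],[k1,k1,k0,k0,k0,k1],[k1,k0,k1,k0,
    k0,k0],[k1,k0,k1,k0,k0,k1],[k1,k0,k0,k1,k0,k0],[k1,k1,k0,k1,k0,k0],[k1,k0,k0,k0,k1,k0],[k1,k0,k0,k0,k0,k1],[k1,k0,
    k0,k0,k0,k2],[k0,k2,k0,k0,k0,k0],[k0,k3,k0,k0,k0,k0],[k0,k2,k1,k0,k0,k0],[k0,k2,k0,k1,k0,k0],[k0,k2,k0,k0,k1,k0],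
    [k0,k2,k0,k0,k0,k1],[k0,k1,k1,k0,k0,k0],[k0,k1,k2,k0,k0,k0],[k0,k1,k1,k1,k0,k0],[k0,k1,k1,k0,k0,k1],[k0,k1,k0,k1,
    k0,k0],[k0,k1,k0,k1,k0,k1],[k0,k1,k0,k0,k1,k0],[k0,k1,k0,k0,k1,k1],[k0,k1,k0,k0,k0,k1],[k0,k1,k0,k0,k0,k2],[k0,k0,
    k2,k0,k0,k0],[k0,k0,k1,k1,k0,k0],[k0,k0,k1,k0,k1,k0],[k0,k0,k1,k0,k0,k1],[k0,k0,k0,k2,k0,k0],[k0,k0,k0,k1,k1,k0],
    [k0,k0,k0,k1,k0,k1],[k0,k0,k0,k0,k2,k0],[k0,k0,k0,k0,k1,k1],[k0,k0,k0,k0,k0,k2]]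
    [.contra [z1],.contra [z1,y1,y1],.ref k2 k2 [(z2,[y1,z1,z0,z0,z2])],.ref k2 k2 [(z1,[y1,z1,z0,z1,z1])],
    .ref k3 k4 [(z1,[y1,z0,z0,z0,z1])],.contra [y1,z1,z0,z2],.ref (nat_lit 233) k4 [(z1,[y1,z0,z0,z0,z1]),(z1,[z0,z0,
    z0,z1])],.ref k1 k2 [(z1,[z1])],.ref (nat_lit 233) k4 [(z1,[y1,z0,z1,y1,z1]),(z1,[z0,z0,z0,z1])],.contra [z1,z0,
    z1,z1,y1],.ref k0 k2 [(z1,[z1])],.ref (nat_lit 233) k4 [(z2,[y1,y1,z0,y2,z2]),(z1,[z0,z0,z0,z1])],.contra [z1],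
    .ref (nat_lit 260) k4 [(z2,[y1,y2,z1,y6,z2]),(z2,[z1,z0,y3,z2]),(z1,[z0,z1,z0,z2])],.ref (nat_lit 263) k1 [(z1,
    [z1,y1,y3,y2,z1]),(z1,[y2,z1,z4,z2]),(z1,[z0,z0,z1])],.ref (nat_lit 260) k4 [(z1,[y1,y1,z1,y3,z1]),(z1,[z1,z0,y2,
    z1]),(z1,[z0,z1,z0,z2])],.ref k3 k2 [(z2,[y1,y1,y1,y3,z3])],.ref (nat_lit 260) k0 [(z1,[y1,z0,z0,z1]),(z1,[z0,y1,
    z0,y3,z1]),(z1,[z1])],.ref k0 k9 [(z1,[z1])],.ref k3 k2 [(z2,[y1,z0,y1,z0,z2])],.ref k3 k2 [(z1,[y1,z0,z0,z0,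
    z1])],.ref (nat_lit 260) k4 [(z1,[y1,y1,z0,y2,z1]),(z1,[z1,z0,y1]),(z1,[z0,z1,z0,z2])],.contra [y1,z0,z1],
    .ref k2 k2 [(z1,[y1,z0,z0,z0,z1])],.contra [z1,z1,z0,z3,y1],.ref k3 k2 [(z1,[y1,y1,y1,y2,z2])],
    .ref (nat_lit 258) k6 [(z1,[z1])],.ref k2 k2 [(z2,[y1,z0,y1,z0,z2])],.contra [z1],.contra [y2,z1,z1,z2],
    .ref (nat_lit 258) k4 [(z1,[z1])],.contra [y1,z0,z0,z1],.contra [z1],.ref k0 k4 [(z1,[z1])],.contra [y1,z0,z0,z1],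
    .contra [z1],.contra [y2,y1,y1,y2,z2],.contra [z1]]),
    .old (.lp [k154,k146,k170,k166,k168,k154] [k8,k8,k14,k10,k0,k0,k2,k2,k1,k1,k8,k8] k0 [[k0,k0,k14,k0,k0,k0,k8],[k0,k0,
    k0,k0,k0,k12,k0,k0,k0,k0,k0,k32],[k0,k0,k0,k0,k0,k0,k0,k0,k0,k0,k2],[k0,k14,k0,k0,k0,k0,k0,k8],[k12],[k0,k0,k0,k0,
    k0,k0,k0,k0,k0,k16],[k0,k0,k8,k0,k0,k0,k0,k0,k6],[k0,k8,k0,k0,k0,k0,k0,k0,k0,k0,k0,k16],[k0,k0,k0,k0,k16,k0,k0,k0,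
    k0,k0,k20],[k0,k0,k0,k0,k0,k0,k0,k6],[k32,k0,k0,k0,k0,k0,k16],[k0,k0,k0,k2,k0,k0,k0,k0,k0,k20]] (nat_lit 480) k5
    [[(k8,k141),(k2,k146),(k10,k154),(k4,k162),(k6,k176),(k0,k186)],[(k5,k148),(k3,k152),(k9,k153),(k11,k154),(k7,
    k172),(k1,k186)],[(k10,k120),(k4,k148),(k0,k152),(k8,k159),(k2,k160),(k6,k166)],[(k1,k146),(k11,k148),(k7,k154),
    (k5,k156),(k3,k160),(k9,k163)],[(k0,k148),(k2,k156),(k6,k160),(k10,k164),(k8,k169),(k4,k170)],[(k3,k148),(k1,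
    k162),(k7,k168),(k9,k169),(k5,k170),(k11,k178)],[(k8,k151),(k2,k154),(k10,k160),(k6,k166),(k4,k168),(k0,k172)],
    [(k11,k154),(k5,k160),(k3,k166),(k7,k166),(k9,k167),(k1,k176)],[(k10,k145),(k0,k153),(k2,k163),(k6,k167),(k4,
    k169),(k8,k174)],[(k1,k141),(k7,k151),(k3,k159),(k11,k161),(k5,k169),(k9,k174)],[(k2,k148),(k0,k154),(k6,k154),
    (k8,k161),(k10,k174),(k4,k178)],[(k3,k120),(k9,k145),(k1,k154),(k7,k160),(k5,k164),(k11,k174)]]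
    [] k0
    [[k2,k0,k0,k0,k0,k0],[k1,k1,k0,k0,k0,k0],[k1,k2,k0,k0,k0,k0],[k1,k1,k1,k0,k0,k0],[k1,k1,k0,k0,k1,k0],[k1,k1,k0,k0,
    k0,k1],[k1,k0,k1,k0,k0,k0],[k1,k0,k0,k1,k0,k0],[k1,k0,k0,k0,k1,k0],[k1,k0,k1,k0,k1,k0],[k1,k0,k0,k0,k2,k0],[k1,k0,
    k0,k0,k1,k1],[k1,k0,k0,k0,k0,k1],[k0,k2,k0,k0,k0,k0],[k0,k2,k1,k0,k0,k0],[k0,k2,k0,k0,k0,k1],[k0,k1,k1,k0,k0,k0],
    [k0,k1,k2,k0,k0,k0],[k0,k1,k1,k1,k0,k0],[k0,k1,k1,k0,k0,k1],[k0,k1,k0,k1,k0,k0],[k0,k1,k0,k1,k0,k1],[k0,k1,k0,k0,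
    k1,k0],[k0,k1,k0,k0,k1,k1],[k0,k1,k0,k0,k0,k1],[k0,k1,k0,k0,k0,k2],[k0,k0,k2,k0,k0,k0],[k0,k0,k1,k1,k0,k0],[k0,k0,
    k1,k0,k1,k0],[k0,k0,k1,k0,k0,k1],[k0,k0,k0,k2,k0,k0],[k0,k0,k0,k1,k1,k0],[k0,k0,k0,k1,k1,k1],[k0,k0,k0,k1,k0,k1],
    [k0,k0,k0,k0,k2,k0],[k0,k0,k0,k0,k1,k1],[k0,k0,k0,k0,k0,k2]]
    [.contra [z1],.ref k0 k6 [(z1,[z1])],.ref k3 k1 [(z2,[y1,z1,z2])],.ref k3 k1 [(z1,[y1,z0,z0,z1])],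
    .ref (nat_lit 264) k2 [(z1,[z2,y1,y2]),(z1,[z0,z0,z1]),(z1,[y1,z0,z0,z1])],.ref k3 k4 [(z1,[y1,z0,z0,z1])],
    .contra [y1,y1,y2,z2],.ref k1 k2 [(z1,[z1])],.ref (nat_lit 258) k2 [(z1,[z1])],.ref k2 k2 [(z1,[z1])],
    .ref k2 k2 [(z2,[z1,y1,y2,z2])],.ref k3 k2 [(z1,[z1])],.ref k0 k2 [(z1,[z1])],.contra [z1],
    .ref (nat_lit 263) k1 [(z1,[z1,z1,y1,y1]),(z1,[y2,y1,z2,z2]),(z1,[z0,z0,z1])],.ref (nat_lit 262) k1 [(z1,[z1,z0,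
    y2]),(z1,[y2,z1,z4]),(z1,[z0,z0,z1])],.ref k0 k9 [(z1,[z1])],.ref k3 k2 [(z2,[y1,z0,y1,z2])],.ref k3 k2 [(z1,[y1,
    z0,z0,z1])],.ref (nat_lit 260) k4 [(z1,[y1,z1,z2,y1]),(z1,[z1,z0,y1]),(z1,[z0,y1,y2,z2])],.contra [y1,z0,z1],
    .ref k2 k2 [(z1,[y1,z0,z0,z1])],.ref k1 k4 [(z1,[z1])],.ref k3 k2 [(z1,[y1,z1,z1])],.ref (nat_lit 258) k6 [(z1,
    [z1])],.ref k2 k2 [(z2,[y1,z0,y1,z2])],.contra [z1],.contra [y2,y1,y1,z2],.ref (nat_lit 258) k4 [(z1,[z1])],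
    .ref k1 k1 [(z1,[z1])],.contra [z1],.ref k0 k4 [(z1,[z1])],.ref k3 k1 [(z1,[z1])],.ref (nat_lit 258) k1 [(z1,
    [z1])],.contra [z1],.contra [y2,z1,z1],.contra [z1]]),
    .old (.tor k6 false k0 [(z1,[y1,y1,y1,z1]),(z1,[z0,z2,z1]),(z1,[z0,y1,y1,z1]),(z1,[z1,z0,z1])]),
    .geo true z1 k5 [(y10,z16),(z8,y11),(y2,z4),(z2,y2),(z6,y8),(z0,z1)] [(z1,[z1]),(z1,[z0,z1]),(z1,[z0,z0,z1]),(z1,[z0,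
    z0,z0,z1]),(z1,[y1,y1,y1,y1,z1]),(z1,
    [])] (Int.ofNat (nat_lit 655360)) (Int.ofNat (nat_lit 762601)) (.s (.s (.l k1) (.s (.s (.l k1) (.l k2)) (.l k2))) (.s (.s (.l k1) (.l k1)) (.l k1))) [⟨z2,
    z3,[[k0,k3],[k1,k4],[k2,k5]],.child (.ref k2 k2 [(z1,[z4,z0,y1,z0,y1,z1])])⟩]]

noncomputable def cU6_3_n4_1 : List XN :=
  [.geo true z4 k5 [(y4,z10),(z4,y2),(z2,z1),(z8,y8),(z6,y5),(z0,z4)] [(z1,[z2]),(z1,[z0,z2]),(z1,[z0,z0,z1]),(z1,[z0,z0,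
    z0,z4]),(z1,[y2,y2,y1,y4,z4]),(z1,
    [])] (Int.ofNat (nat_lit 419430)) (Int.ofNat (nat_lit 1048576)) (.s (.s (.l k1) (.l k2)) (.s (.l k1) (.l k1))) [⟨z2,
    z3,[[k0,k3],[k1,k4],[k2,k5]],.child (.ref k2 k2 [(z2,[z1,z0,y1,z0,y2,z2])])⟩],
    .old (.lp [k152,k166,k162,k162,k160,k156] [k7,k7,k0,k0,k2,k2,k2,k2,k3,k3,k5,k5] k0 [[k0,k0,k0,k0,k0,k0,k6,k0,k14],[k0,
    k0,k0,k6,k0,k0,k0,k0,k0,k0,k0,k34],[k6,k0,k0,k0,k0,k0,k0,k0,k0,k0,k6],[k0,k0,k0,k0,k0,k0,k0,k38],[k0,k0,k0,k0,k0,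
    k0,k4],[k0,k0,k0,k0,k0,k0,k0,k0,k0,k38],[k0,k0,k38,k0,k0,k0,k0,k0,k4],[k0,k6,k0,k0,k0,k4],[k0,k0,k0,k0,k38,k0,k0,
    k0,k0,k0,k36],[k0,k14,k0,k0,k0,k0,k0,k4],[k34],[k0,k0,k0,k6,k0,k0,k0,k0,k0,k36]] (nat_lit 480) k5
    [[(k8,k120),(k2,k153),(k10,k154),(k4,k157),(k6,k157),(k0,k186)],[(k11,k140),(k9,k150),(k7,k157),(k3,k159),(k5,
    k163),(k1,k186)],[(k10,k127),(k0,k159),(k2,k160),(k4,k164),(k6,k170),(k8,k177)],[(k1,k153),(k3,k160),(k11,k161),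
    (k5,k164),(k7,k164),(k9,(nat_lit 201))],[(k6,k124),(k8,k161),(k4,k162),(k0,k163),(k2,k164),(k10,k165)],[(k1,k157),
    (k9,k157),(k5,k162),(k7,k162),(k3,k164),(k11,k197)],[(k8,k123),(k0,k157),(k10,k159),(k4,k162),(k2,k164),(k6,
    k166)],[(k5,k124),(k11,k155),(k1,k157),(k9,k161),(k7,k166),(k3,k170)],[(k0,k150),(k4,k157),(k10,k158),(k6,k161),
    (k8,k164),(k2,(nat_lit 201))],[(k1,k120),(k7,k123),(k11,k158),(k5,k161),(k9,k164),(k3,k177)],[(k0,k140),(k6,k155),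
    (k8,k158),(k2,k161),(k10,k192),(k4,k197)],[(k3,k127),(k1,k154),(k9,k158),(k7,k159),(k5,k165),(k11,k192)]]
    [] k0
    [[k2,k0,k0,k0,k0,k0],[k2,k0,k0,k0,k1,k0],[k1,k1,k0,k0,k0,k0],[k1,k2,k0,k0,k0,k0],[k1,k1,k0,k0,k0,k1],[k1,k0,k1,k0,
    k0,k0],[k1,k0,k1,k1,k0,k0],[k1,k0,k1,k0,k1,k0],[k1,k0,k1,k0,k0,k1],[k1,k0,k0,k1,k0,k0],[k1,k0,k0,k1,k1,k0],[k1,k0,
    k0,k1,k0,k1],[k1,k0,k0,k0,k1,k0],[k1,k0,k0,k0,k2,k0],[k1,k0,k0,k0,k1,k1],[k1,k0,k0,k0,k0,k1],[k0,k2,k0,k0,k0,k0],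
    [k0,k2,k0,k0,k0,k1],[k0,k1,k1,k0,k0,k0],[k0,k1,k1,k1,k0,k0],[k0,k1,k0,k1,k0,k0],[k0,k1,k0,k0,k1,k0],[k0,k1,k0,k0,
    k0,k1],[k0,k1,k0,k1,k0,k1],[k0,k0,k2,k0,k0,k0],[k0,k0,k2,k1,k0,k0],[k0,k0,k1,k1,k0,k0],[k0,k0,k1,k2,k0,k0],[k0,k0,
    k1,k1,k1,k0],[k0,k0,k1,k0,k1,k0],[k0,k0,k1,k0,k0,k1],[k0,k0,k0,k2,k0,k0],[k0,k0,k0,k2,k1,k0],[k0,k0,k0,k1,k1,k0],
    [k0,k0,k0,k1,k2,k0],[k0,k0,k0,k1,k1,k1],[k0,k0,k0,k1,k0,k1],[k0,k0,k0,k0,k2,k0],[k0,k0,k0,k0,k1,k1],[k0,k0,k0,k0,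
    k0,k2]]
    [.contra [z1],.ref k2 k2 [(z3,[z1,z1,z0,z3])],.ref k0 k6 [(z1,[z1])],.ref k3 k2 [(z2,[z1,z1,y2])],.ref k3 k4 [(z1,
    [y1,z0,z0,z0,z1])],.contra [z1,y1,z0,y1],.ref (nat_lit 233) k0 [(z1,[z1]),(z2,[y1,z0,z1,z2,z1])],.ref k2 k2 [(z1,
    [z1])],.ref (nat_lit 233) k0 [(z1,[y2,z2,y1,z2,z1]),(z1,[z1,y1,z1])],.ref k1 k2 [(z1,[z1])],
    .ref (nat_lit 268) k0 [(z1,[z2,y2,z0,y5]),(z1,[z0,z0,z0,z1]),(z1,[y2,z0,y2,y3,z2]),(z1,[z0,z1,z0,z2])],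
    .ref (nat_lit 233) k0 [(z1,[z2,z0,z1,z2,y1]),(z1,[y1,z0,z0,z0,z1])],.ref (nat_lit 258) k2 [(z1,[z1])],
    .ref k2 k2 [(z2,[z1,z1,z0,z2])],.ref k3 k2 [(z1,[z1])],.contra [y2,z1,y1,z0,z1],.contra [z1],
    .ref (nat_lit 233) k0 [(z3,[y2,z0,z1,z0,z3]),(z3,[z1,z0,z1,z3])],.contra [y2,z0,z1,z1,z1],.ref k3 k2 [(z1,[y1,z0,
    z0,z0,z1])],.contra [y1,y1,z1,y1,z1],.contra [y2,y1,z1,z0,z1],.ref (nat_lit 258) k6 [(z1,[z1])],.ref k2 k2 [(z1,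
    [y1,z0,z0,z0,z1])],.contra [z1],.ref k3 k2 [(z2,[y1,z1,y1,z1,z1])],.ref k0 k0 [(z1,[z1])],.ref k3 k4 [(z2,[z1,z0,
    z0,z1])],.ref k3 k4 [(z1,[z1])],.contra [y2,z1,z0,z3],.ref k1 k1 [(z1,[z1])],.contra [z1],
    .ref (nat_lit 267) k8 [(z1,[z4,z9,y8,z8,y8]),(z1,[y3,y6,z5,y6,z6]),(z1,[z1,z2,y2,z2,y2]),(z1,[z0,y1,z1,y1,z1])],
    .ref k0 k4 [(z1,[z1])],.ref (nat_lit 233) k0 [(z1,[z1,z1,z0,z1]),(z2,[y1,y1,z1,z1,z1])],.ref k3 k2 [(z1,[y1,z0,y1,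
    y1,z1])],.ref (nat_lit 258) k1 [(z1,[z1])],.contra [z1],.contra [y2,z0,y1,y1,z1],.contra [z1]]),
    .geo true z3 k5 [(y2,z6),(z6,y6),(z4,y3),(z2,z0),(z2,z0),(z0,z3)] [(z1,[z1]),(z1,[z0,z3]),(z1,[z0,z0,z1]),(z1,[z0,z0,
    z0,z1]),(z1,[y1,y3,y1,y1,z3]),(z1,
    [])] (Int.ofNat (nat_lit 349525)) (Int.ofNat (nat_lit 1048576)) (.s (.s (.l k1) (.s (.l k1) (.s (.l k1) (.l k2)))) (.s (.s (.s (.l k2) (.l k1)) (.l k1)) (.l k1))) [⟨z2,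
    z3,[[k0,k3],[k1,k4],[k2,k5]],.child (.ref k2 k2 [(z3,[z1,z0,y3,z0,y1,z3])])⟩],
    .old (.lp [k160,k156,k162,k168,k162,k150] [k7,k1,k6,k6,k3,k3,k0,k0,k3,k3,k9,k9] k0 [[k0,k0,k8,k0,k0,k0,k0,k0,k2],[k0,
    k0,k0,k0,k0,k0,k0,k0,k0,k0,k0,k12],[k0,k0,k0,k0,k6,k0,k0,k0,k8],[k0,k8],[k0,k0,k0,k0,k0,k0,k0,k0,k0,k0,k2],[k0,k0,
    k0,k6,k0,k0,k0,k6],[k0,k0,k0,k0,k6],[k0,k0,k0,k0,k0,k0,k0,k0,k0,k2,k0,k2],[k0,k0,k0,k0,k0,k0,k2,k0,k0,k0,k44],[k0,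
    k2,k0,k8],[k12,k0,k0,k0,k0,k0,k2],[k0,k0,k0,k0,k0,k2,k0,k0,k0,k44]] (nat_lit 480) k5
    [[(k8,k120),(k10,k158),(k2,k161),(k4,k162),(k6,k169),(k0,k172)],[(k5,k150),(k11,k150),(k3,k155),(k9,k158),(k7,
    k161),(k1,k172)],[(k10,k141),(k0,k155),(k4,k159),(k8,k161),(k6,k162),(k2,k164)],[(k11,k145),(k7,k156),(k5,k159),
    (k9,k159),(k1,k161),(k3,k164)],[(k0,k150),(k10,k156),(k2,k159),(k6,k165),(k4,k168),(k8,k170)],[(k11,k156),(k3,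
    k159),(k1,k162),(k7,k165),(k5,k168),(k9,k168)],[(k2,k156),(k0,k161),(k10,k161),(k6,k162),(k4,k165),(k8,k165)],
    [(k11,k161),(k3,k162),(k7,k162),(k5,k165),(k9,k165),(k1,k169)],[(k10,k154),(k0,k158),(k2,k159),(k8,k160),(k6,
    k165),(k4,k168)],[(k1,k120),(k11,k156),(k9,k160),(k3,k161),(k7,k165),(k5,k170)],[(k2,k145),(k0,k150),(k4,k156),
    (k8,k156),(k6,k161),(k10,k194)],[(k3,k141),(k9,k154),(k5,k156),(k1,k158),(k7,k161),(k11,k194)]]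
    [] k0
    [[k2,k0,k0,k0,k0,k0],[k2,k0,k0,k0,k1,k0],[k1,k1,k0,k0,k0,k0],[k1,k1,k1,k0,k0,k0],[k1,k1,k0,k0,k0,k1],[k1,k0,k1,k0,
    k0,k0],[k1,k0,k1,k0,k0,k1],[k1,k0,k0,k1,k0,k0],[k1,k0,k0,k0,k1,k0],[k1,k1,k0,k0,k1,k0],[k1,k0,k1,k0,k1,k0],[k1,k0,
    k0,k1,k1,k0],[k1,k0,k0,k0,k2,k0],[k1,k0,k0,k0,k1,k1],[k1,k0,k0,k0,k0,k1],[k0,k2,k0,k0,k0,k0],[k0,k2,k0,k0,k0,k1],
    [k0,k1,k1,k0,k0,k0],[k0,k1,k1,k0,k0,k1],[k0,k1,k0,k1,k0,k0],[k0,k1,k0,k1,k0,k1],[k0,k1,k0,k0,k1,k0],[k0,k1,k0,k0,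
    k1,k1],[k0,k1,k0,k0,k0,k1],[k0,k0,k2,k0,k0,k0],[k0,k0,k1,k1,k0,k0],[k0,k0,k1,k0,k1,k0],[k0,k0,k1,k0,k0,k1],[k0,k0,
    k0,k2,k0,k0],[k0,k0,k0,k1,k1,k0],[k0,k0,k0,k1,k0,k1],[k0,k0,k0,k0,k2,k0],[k0,k0,k0,k0,k2,k1],[k0,k0,k0,k0,k1,k1],
    [k0,k0,k0,k0,k0,k2]]
    [.contra [z1],.ref (nat_lit 269) k4 [(z1,[z1,y2,z0,y4]),(z1,[z1,y1,z1,y2,y1]),(z1,[z0,z1,z0,z2])],.contra [z1,y1,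
    y1],.ref k3 k1 [(z1,[y1,z0,z0,z0,z1])],.ref k2 k2 [(z1,[z1,z0,y1,z1])],.contra [y1,z1,z0,z2],
    .ref (nat_lit 233) k1 [(z1,[z0,z0,z0,z1]),(z1,[z1,y1,y1,y2,z1])],.contra [z1,z0,z1,z1,y1],
    .ref (nat_lit 258) k2 [(z1,[z1])],.ref (nat_lit 270) k10 [(z1,[z2,y2,z1,y6]),(z1,[z0,z1,z0,z2]),(z1,[y1,z1,z1,
    z3]),(z1,[z1,y1,y1])],.ref k2 k2 [(z1,[z1])],.ref (nat_lit 233) k1 [(z1,[z0,z0,z0,z1]),(z1,[z1])],.ref k2 k2 [(z2,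
    [z1,z1,z0,z2])],.ref k3 k2 [(z1,[z1])],.ref k0 k2 [(z1,[z1])],.contra [z1],.ref (nat_lit 265) k1 [(z1,[y1,y2,z0,
    y4,z2]),(z1,[z0,z1,z0,z2])],.ref k0 k9 [(z1,[z1])],.ref (nat_lit 233) k1 [(z1,[z0,z0,z0,z1]),(z1,[y1,z0,z0,z0,
    z1])],.contra [z1,z1,z0,z3,y1],.ref k2 k2 [(z1,[y1,z0,z0,z0,z1])],.ref k1 k4 [(z1,[z1])],.ref k3 k1 [(z1,[y1,y1,
    z0,y1,z1])],.contra [y2,z0,z1,y1,z1],.contra [z1],.ref k0 k0 [(z1,[z1])],.contra [y2,z0,y1,z1,z1],.contra [y2,z1,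
    z1,z2],.contra [z1],.contra [y2,y1,y1,y2,z2],.ref (nat_lit 258) k1 [(z1,[z1])],.contra [z1],.ref k2 k2 [(z1,[z1,
    z1,z0,z1])],.contra [y1,z0,z0,z1],.contra [z1]]),
    .old (.lp [(nat_lit 356),(nat_lit 328),(nat_lit 310),(nat_lit 292),(nat_lit 320),(nat_lit 312)] [k0,k0,k14,k14,k23,
    k23,k32,k32,k18,k18,k22,k22] k0 [[k0,k0,k62,k0,k0,k0,k0,k0,k4],[k0,k0,k0,k0,k0,k38],[k0,k0,k0,k0,k50,k0,k0,k0,k0,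
    k0,k48],[k0,k62],[k38,k0,k0,k0,k0,k0,k28],[k0,k0,k0,k50,k0,k0,k0,k0,k0,k10],[k0,k0,k0,k0,k0,k0,k0,k0,k38],[k0,k0,
    k0,k0,k0,k28,k0,k0,k0,k0,k0,k4],[k0,k0,k0,k0,k10,k0,k0,k0,k0,k0,k20],[k0,k4,k0,k0,k0,k0,k0,k38],[k0,k0,k0,k0,k0,
    k0,k4],[k0,k0,k0,k48,k0,k0,k0,k0,k0,k20]] (nat_lit 960) k5
    [[(k2,(nat_lit 294)),(k8,(nat_lit 318)),(k6,(nat_lit 328)),(k4,(nat_lit 333)),(k10,(nat_lit 334)),(k0,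
    (nat_lit 356))],[(k5,(nat_lit 271)),(k11,(nat_lit 330)),(k9,(nat_lit 338)),(k3,(nat_lit 342)),(k1,(nat_lit 356)),
    (k7,(nat_lit 362))],[(k4,(nat_lit 281)),(k6,(nat_lit 310)),(k10,(nat_lit 320)),(k8,(nat_lit 328)),(k0,
    (nat_lit 342)),(k2,(nat_lit 390))],[(k7,(nat_lit 260)),(k1,(nat_lit 294)),(k5,(nat_lit 319)),(k11,(nat_lit 320)),
    (k9,(nat_lit 324)),(k3,(nat_lit 390))],[(k0,(nat_lit 271)),(k6,(nat_lit 301)),(k8,(nat_lit 315)),(k2,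
    (nat_lit 319)),(k10,(nat_lit 359)),(k4,(nat_lit 360))],[(k3,(nat_lit 281)),(k9,(nat_lit 287)),(k7,(nat_lit 301)),
    (k11,(nat_lit 321)),(k1,(nat_lit 333)),(k5,(nat_lit 360))],[(k2,(nat_lit 260)),(k8,(nat_lit 296)),(k4,
    (nat_lit 301)),(k10,(nat_lit 302)),(k6,(nat_lit 320)),(k0,(nat_lit 362))],[(k11,(nat_lit 264)),(k5,(nat_lit 301)),
    (k9,(nat_lit 306)),(k3,(nat_lit 310)),(k7,(nat_lit 320)),(k1,(nat_lit 328))],[(k4,(nat_lit 287)),(k6,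
    (nat_lit 306)),(k10,(nat_lit 312)),(k2,(nat_lit 324)),(k0,(nat_lit 338)),(k8,(nat_lit 358))],[(k7,(nat_lit 296)),
    (k5,(nat_lit 315)),(k11,(nat_lit 316)),(k1,(nat_lit 318)),(k3,(nat_lit 328)),(k9,(nat_lit 358))],[(k6,
    (nat_lit 264)),(k8,(nat_lit 316)),(k2,(nat_lit 320)),(k4,(nat_lit 321)),(k0,(nat_lit 330)),(k10,(nat_lit 332))],
    [(k7,(nat_lit 302)),(k9,(nat_lit 312)),(k3,(nat_lit 320)),(k11,(nat_lit 332)),(k1,(nat_lit 334)),(k5,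
    (nat_lit 359))]]
    [] k0
    [[k2,k0,k0,k0,k0,k0],[k1,k1,k0,k0,k0,k0],[k1,k1,k1,k0,k0,k0],[k1,k1,k0,k0,k0,k1],[k1,k0,k1,k0,k0,k0],[k1,k0,k0,k1,
    k0,k0],[k1,k1,k0,k1,k0,k0],[k1,k0,k1,k1,k0,k0],[k1,k0,k0,k0,k1,k0],[k1,k0,k1,k0,k1,k0],[k1,k0,k0,k0,k0,k1],[k1,k0,
    k1,k0,k0,k1],[k0,k2,k0,k0,k0,k0],[k0,k1,k1,k0,k0,k0],[k0,k1,k1,k1,k0,k0],[k0,k1,k1,k0,k1,k0],[k0,k1,k0,k1,k0,k0],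
    [k0,k1,k0,k2,k0,k0],[k0,k1,k0,k1,k1,k0],[k0,k1,k0,k1,k0,k1],[k0,k1,k0,k0,k1,k0],[k0,k1,k0,k0,k0,k1],[k0,k0,k2,k0,
    k0,k0],[k0,k0,k1,k1,k0,k0],[k0,k0,k1,k2,k0,k0],[k0,k0,k1,k1,k1,k0],[k0,k0,k1,k1,k0,k1],[k0,k0,k1,k0,k1,k0],[k0,k0,
    k1,k0,k1,k1],[k0,k0,k1,k0,k0,k1],[k0,k0,k0,k2,k0,k0],[k0,k0,k0,k2,k1,k0],[k0,k0,k0,k2,k0,k1],[k0,k0,k0,k1,k1,k0],
    [k0,k0,k0,k1,k1,k1],[k0,k0,k0,k1,k0,k1],[k0,k0,k0,k1,k0,k2],[k0,k0,k0,k0,k2,k0],[k0,k0,k0,k0,k1,k1],[k0,k0,k0,k0,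
    k0,k2]]
    [.contra [z1],.ref k0 k6 [(z1,[z1])],.ref k3 k1 [(z1,[y1,z0,z0,z0,z1])],.ref k3 k2 [(z3,[z2,z1,y2])],
    .ref (nat_lit 258) k9 [(z1,[z1])],.ref k1 k2 [(z1,[z1])],.ref (nat_lit 269) k2 [(z1,[z1,z1,z0,z1,y1]),(z1,[z1,z0,
    z1,z1,y1]),(z1,[z0,z0,z0,z1])],.ref (nat_lit 271) k7 [(z1,[z2,y1,z1,y1,y1]),(z1,[z0,z0,z0,z1]),(z1,[y1,z0,z0,z0,
    z1])],.ref (nat_lit 258) k2 [(z1,[z1])],.ref k2 k2 [(z1,[z1])],.contra [y2,z1,y1,z0,z1],.ref k3 k2 [(z1,[z2,y1,z0,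
    y2])],.contra [z1],.contra [z1,z0,y1,y1],.ref k3 k2 [(z1,[y1,z0,z0,z0,z1])],.ref k3 k2 [(z1,[z2,z1,y2,y2])],
    .contra [z1,z1,z0,z3,y1],.ref k3 k2 [(z2,[y1,z0,y1,y2,z2])],.ref k3 k2 [(z1,[y2,y1,z0,y2,z2])],.ref k2 k2 [(z1,
    [y1,z0,z0,z0,z1])],.contra [y2,y1,z1,z0,z1],.ref (nat_lit 258) k6 [(z1,[z1])],.contra [z1],.ref k0 k0 [(z1,[z1])],
    .ref k3 k2 [(z3,[y1,z1,y2,y1,z2])],.ref k3 k2 [(z3,[y2,z1,y2,z0,z2])],.ref (nat_lit 271) k9 [(z1,[z2,z0,z0,z1,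
    y2]),(z1,[z0,y1,z1,y1,z1]),(z1,[y1,z0,z0,z0,z1])],.contra [y2,z0,z1,z3],.ref (nat_lit 269) k2 [(z1,[y1,z1,z0,z1]),
    (z1,[y1,z0,z1,z1]),(z1,[z0,z0,z0,z1])],.ref k1 k1 [(z1,[z1])],.contra [z1],.ref k3 k2 [(z5,[y2,z1,y4,y4,z4])],
    .ref (nat_lit 269) k11 [(z1,[z1,z2,y2,z2,y2]),(z1,[z1,z1,y1,z2,y2]),(z1,[z0,y1,z1,y1,z1])],.ref k0 k4 [(z1,[z1])],
    .ref k3 k1 [(z1,[z1])],.ref (nat_lit 258) k1 [(z1,[z1])],.ref k2 k2 [(z2,[y1,z1,y1,z1,z1])],.contra [z1],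
    .ref k0 k1 [(z1,[z1])],.contra [z1]]),
    .old (.lp [k82,k66,k88,k88,k74,k80] [k10,k10,k18,k18,k14,k0,k7,k7,k14,k14,k11,k11] k0 [[k0,k0,k32,k0,k0,k0,k0,k0,k2],
    [k0,k0,k0,k0,k0,k2,k0,k2],[k0,k0,k0,k0,k0,k0,k0,k0,k0,k0,k6],[k0,k32,k0,k0,k0,k0,k0,k0,k0,k2],[k2,k0,k0,k0,k0,k0,
    k0,k0,k0,k0,k4],[k0,k0,k0,k0,k0,k0,k0,k0,k0,k6],[k2,k0,k0,k0,k0,k0,k0,k0,k12],[],[k0,k0,k2,k0,k6],[k0,k2,k0,k0,k0,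
    k0,k0,k12],[],[k0,k0,k0,k6,k0,k4]] (nat_lit 240) k5
    [[(k2,k68),(k4,k74),(k8,k78),(k10,k81),(k0,k82),(k6,k85)],[(k5,k60),(k3,k74),(k11,k79),(k9,k80),(k1,k82),(k7,
    k87)],[(k4,k68),(k8,k72),(k10,k73),(k0,k74),(k6,k75),(k2,k98)],[(k1,k68),(k9,k70),(k11,k75),(k7,k77),(k5,k84),(k3,
    k98)],[(k0,k60),(k2,k84),(k8,k86),(k4,k88),(k6,k95),(k10,k97)],[(k3,k68),(k1,k74),(k9,k74),(k7,k81),(k11,k83),(k5,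
    k88)],[(k8,k75),(k2,k77),(k4,k81),(k0,k87),(k6,k88),(k10,k88)],[(k11,k72),(k3,k75),(k9,k81),(k1,k85),(k7,k88),(k5,
    k95)],[(k2,k70),(k4,k74),(k10,k77),(k0,k80),(k6,k81),(k8,k86)],[(k3,k72),(k7,k75),(k11,k77),(k1,k78),(k5,k86),(k9,
    k86)],[(k6,k72),(k2,k75),(k8,k77),(k0,k79),(k10,k80),(k4,k83)],[(k3,k73),(k9,k77),(k11,k80),(k1,k81),(k7,k88),(k5,
    k97)]]
    [] k0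
    [[k2,k0,k0,k0,k0,k0],[k2,k1,k0,k0,k0,k0],[k2,k0,k1,k0,k0,k0],[k1,k1,k0,k0,k0,k0],[k1,k1,k1,k0,k0,k0],[k1,k1,k0,k1,
    k0,k0],[k1,k1,k0,k0,k1,k0],[k1,k1,k0,k0,k0,k1],[k1,k0,k1,k0,k0,k0],[k1,k0,k2,k0,k0,k0],[k1,k0,k0,k1,k0,k0],[k1,k0,
    k1,k1,k0,k0],[k1,k0,k0,k0,k1,k0],[k1,k0,k1,k0,k1,k0],[k1,k0,k0,k0,k1,k1],[k1,k0,k0,k0,k0,k1],[k1,k0,k1,k0,k0,k1],
    [k0,k2,k0,k0,k0,k0],[k0,k1,k1,k0,k0,k0],[k0,k1,k1,k0,k1,k0],[k0,k1,k0,k1,k0,k0],[k0,k1,k0,k1,k1,k0],[k0,k1,k0,k1,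
    k0,k1],[k0,k1,k0,k0,k1,k0],[k0,k1,k0,k0,k2,k0],[k0,k1,k0,k0,k1,k1],[k0,k1,k0,k0,k0,k1],[k0,k1,k0,k0,k0,k2],[k0,k0,
    k2,k0,k0,k0],[k0,k0,k1,k1,k0,k0],[k0,k0,k1,k0,k1,k0],[k0,k0,k1,k0,k0,k1],[k0,k0,k0,k2,k0,k0],[k0,k0,k0,k1,k1,k0],
    [k0,k0,k0,k1,k1,k1],[k0,k0,k0,k1,k0,k1],[k0,k0,k0,k0,k2,k0],[k0,k0,k0,k0,k1,k1],[k0,k0,k0,k0,k1,k2],[k0,k0,k0,k0,
    k0,k2]]
    [.contra [z1],.ref (nat_lit 269) k11 [(z1,[y1,z2,y3]),(z1,[y1,z1,y2]),(z1,[z0,y1,z1,y1,z1])],.ref k2 k2 [(z2,[z1,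
    z0,z0,z1])],.ref k0 k6 [(z1,[z1])],.ref k2 k2 [(z3,[z2,z1,y2,z1])],.ref k2 k2 [(z1,[z2,z1,z0,z3,y2])],
    .ref (nat_lit 265) k6 [(z1,[z1,z1]),(z1,[z0,z0,z0,z1])],.ref k3 k4 [(z1,[y1,z0,z0,z0,z1])],
    .ref (nat_lit 258) k9 [(z1,[z1])],.ref (nat_lit 269) k2 [(z1,[z1,z0,z0,y2]),(z1,[z1,y1,z1,y2]),(z1,[z0,z0,z0,
    z1])],.contra [y1,z0,y1,y1,z1],.ref (nat_lit 265) k5 [(z1,[y1,z2,y3,z0,z1]),(z1,[z0,y1,z1,y1,z1])],.contra [z1,y1,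
    z2],.ref k2 k2 [(z1,[z1])],.ref k3 k2 [(z1,[z1])],.contra [y2,z1,y1,z0,z1],.ref k2 k2 [(z1,[z2,y1,z0,y1])],
    .contra [z1],.contra [y1,z0,z1,z1],.ref k2 k2 [(z1,[z2,z1,y2,y1])],.contra [y1,y1,z1,y1,z1],.ref k2 k2 [(z1,[y2,
    y1,z0,y1,z2])],.ref k2 k2 [(z1,[y1,z0,z0,z0,z1])],.contra [y2,y1,z1,z0,z1],.ref k3 k2 [(z1,[z1,z1,y1])],
    .ref (nat_lit 265) k5 [(z1,[z1,z2,y3]),(z1,[z0,y1,z1,y1,z1])],.contra [z1,z0,y1],.ref (nat_lit 272) k2 [(z1,[y1,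
    z1,z1]),(z1,[y1,z0,z2]),(z1,[z0,z0,z0,z1])],.contra [z1],.ref k0 k0 [(z1,[z1])],.contra [y1,z0,z0,z1],.contra [y1,
    z0,z1,z1],.contra [z1],.contra [y1,z0,y1,y1,z1],.ref k2 k2 [(z3,[y2,z1,y2,z1,z2])],.ref (nat_lit 258) k1 [(z1,
    [z1])],.contra [z1],.ref k0 k1 [(z1,[z1])],.ref (nat_lit 269) k2 [(z1,[y1,z1]),(z1,[y1,z0,z1]),(z1,[z0,z0,z0,
    z1])],.contra [z1]]),
    .old (.lp [k158,k156,k178,k162,k162,k142] [k10,k10,k11,k11,k0,k0,k8,k8,k8,k8,k18,k18] k0 [[k0,k0,k14,k0,k0,k0,k0,k0,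
    k4],[k0,k0,k0,k0,k0,k24,k0,k0,k0,k0,k0,k26],[k0,k0,k0,k0,k0,k0,k0,k0,k2],[k0,k14,k0,k0,k0,k0,k0,k22],[k24,k0,k0,
    k0,k0,k0,k0,k0,k0,k0,k20],[],[k0,k0,k22],[k0,k0,k0,k0,k0,k0,k0,k0,k0,k0,k0,k4],[k0,k0,k0,k0,k0,k0,k0,k0,k0,k0,
    k18],[k0,k4,k0,k2],[k26,k0,k0,k0,k0,k0,k4],[k0,k0,k0,k0,k0,k20,k0,k0,k0,k18]] (nat_lit 480) k5
    [[(k8,k142),(k4,k148),(k10,k150),(k2,k157),(k6,k164),(k0,k184)],[(k11,k146),(k5,k154),(k3,k157),(k9,k160),(k1,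
    k184),(k7,k184)],[(k10,k123),(k4,k143),(k0,k157),(k6,k159),(k8,k163),(k2,k170)],[(k11,k147),(k1,k157),(k7,k159),
    (k5,k167),(k3,k170),(k9,k181)],[(k6,k148),(k0,k154),(k10,k160),(k2,k167),(k8,k172),(k4,k178)],[(k3,k143),(k1,
    k148),(k11,k160),(k7,k170),(k9,k170),(k5,k178)],[(k2,k159),(k6,k162),(k8,k162),(k4,k170),(k10,k172),(k0,k184)],
    [(k5,k148),(k11,k152),(k3,k159),(k7,k162),(k9,k162),(k1,k164)],[(k10,k148),(k0,k160),(k6,k162),(k8,k162),(k4,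
    k170),(k2,k181)],[(k1,k142),(k11,k152),(k7,k162),(k9,k162),(k3,k163),(k5,k172)],[(k0,k146),(k2,k147),(k6,k152),
    (k8,k152),(k4,k160),(k10,k160)],[(k3,k123),(k9,k148),(k1,k150),(k5,k160),(k11,k160),(k7,k172)]]
    [] k0
    [[k2,k0,k0,k0,k0,k0],[k1,k1,k0,k0,k0,k0],[k1,k1,k1,k0,k0,k0],[k1,k1,k0,k0,k0,k1],[k1,k0,k1,k0,k0,k0],[k1,k0,k1,k0,
    k0,k1],[k1,k0,k0,k1,k0,k0],[k1,k0,k0,k0,k1,k0],[k1,k0,k1,k0,k1,k0],[k1,k0,k0,k0,k2,k0],[k1,k0,k0,k0,k1,k1],[k1,k0,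
    k0,k0,k0,k1],[k1,k0,k0,k0,k0,k2],[k0,k2,k0,k0,k0,k0],[k0,k2,k0,k0,k0,k1],[k0,k1,k1,k0,k0,k0],[k0,k1,k1,k1,k0,k0],
    [k0,k1,k1,k0,k0,k1],[k0,k1,k0,k1,k0,k0],[k0,k1,k0,k1,k0,k1],[k0,k1,k0,k0,k1,k0],[k0,k1,k0,k0,k1,k1],[k0,k1,k0,k0,
    k0,k1],[k0,k1,k0,k0,k0,k2],[k0,k0,k2,k0,k0,k0],[k0,k0,k1,k1,k0,k0],[k0,k0,k1,k0,k1,k0],[k0,k0,k1,k0,k0,k1],[k0,k0,
    k0,k2,k0,k0],[k0,k0,k0,k1,k1,k0],[k0,k0,k0,k1,k1,k1],[k0,k0,k0,k1,k0,k1],[k0,k0,k0,k0,k2,k0],[k0,k0,k0,k0,k2,k1],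
    [k0,k0,k0,k0,k1,k1],[k0,k0,k0,k0,k1,k2],[k0,k0,k0,k0,k0,k2]]
    [.contra [z1],.ref k0 k6 [(z1,[z1])],.ref k3 k1 [(z1,[y1,z0,z0,z1])],.ref k3 k4 [(z1,[y1,z0,z0,z1])],
    .ref (nat_lit 258) k9 [(z1,[z1])],.ref (nat_lit 273) k9 [(z1,[y1,y1,z1]),(z1,[y1,y1,z0,z1]),(z1,[z0,z1])],
    .contra [y2,z0,y1,z2],.contra [y1,z1],.ref k2 k2 [(z1,[z1])],.ref (nat_lit 265) k8 [(z1,[y1,z2,z2,y2]),(z1,[z0,y1,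
    y1,z2])],.ref k3 k2 [(z1,[z1])],.ref k0 k2 [(z1,[z1])],.ref (nat_lit 272) k10 [(z1,[z1,z2,z3,y5]),(z1,[z1,z2,z2,
    y4]),(z1,[z0,y1,y1,z2])],.contra [z1],.ref k2 k2 [(z2,[y1,z1,z1])],.contra [y2,z0,z1],.ref k3 k2 [(z1,[y1,z0,z0,
    z1])],.ref (nat_lit 266) k9 [(z1,[y1,y1,z1]),(z1,[y1,y1,z0,z1]),(z1,[z0,z1])],.ref (nat_lit 258) k0 [(z1,[z1])],
    .ref k2 k2 [(z1,[y1,z0,z0,z1])],.ref k1 k4 [(z1,[z1])],.ref (nat_lit 271) k4 [(z1,[z2,z1,z0,y2]),(z1,[z0,y1,y1,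
    z2]),(z1,[y1,z0,z0,z1])],.ref (nat_lit 258) k6 [(z1,[z1])],.ref (nat_lit 269) k10 [(z1,[z1,z2,z2,y4]),(z1,[z1,z2,
    z1,y3]),(z1,[z0,y1,y1,z2])],.contra [z1],.ref k0 k0 [(z1,[z1])],.ref (nat_lit 258) k4 [(z1,[z1])],.ref k1 k1 [(z1,
    [z1])],.contra [z1],.ref k0 k4 [(z1,[z1])],.ref k3 k1 [(z1,[z1])],.contra [y1,y1,y1,z2],.contra [z1],
    .ref k3 k1 [(z2,[z1,y1,y1,z2])],.ref k0 k1 [(z1,[z1])],.ref k3 k2 [(z2,[z1,z1])],.contra [z1]]),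
    .old (.lp [(nat_lit 290),(nat_lit 326),(nat_lit 340),(nat_lit 326),(nat_lit 328),(nat_lit 308)] [k47,k47,k58,k0,k22,
    k22,k29,k29,k28,k28,k38,k38] k0 [[k0,k0,k0,k0,k0,k0,k18,k0,k34],[k0,k0,k0,k6,k0,k0,k0,k0,k0,k0,k0,k106],[k6],[k0,
    k0,k0,k0,k0,k0,k0,k32],[k0,k0,k0,k0,k0,k0,k0,k0,k0,k0,k16],[k0,k0,k0,k0,k0,k0,k0,k0,k0,k2],[k0,k0,k32,k0,k0,k0,k0,
    k0,k14],[k0,k18,k0,k0,k0,k0,k0,k0,k0,k0,k0,k18],[k0,k0,k0,k0,k2,k0,k0,k0,k0,k0,k16],[k0,k34,k0,k0,k0,k0,k0,k14],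
    [k106,k0,k0,k0,k0,k0,k18],[k0,k0,k0,k0,k0,k16,k0,k0,k0,k16]] (nat_lit 960) k5
    [[(k2,(nat_lit 279)),(k8,(nat_lit 293)),(k4,(nat_lit 299)),(k10,(nat_lit 299)),(k6,(nat_lit 326)),(k0,
    (nat_lit 396))],[(k11,(nat_lit 265)),(k9,(nat_lit 291)),(k7,(nat_lit 308)),(k5,(nat_lit 321)),(k3,(nat_lit 337)),
    (k1,(nat_lit 396))],[(k10,(nat_lit 240)),(k2,(nat_lit 320)),(k0,(nat_lit 337)),(k4,(nat_lit 362)),(k6,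
    (nat_lit 373)),(k8,(nat_lit 390))],[(k1,(nat_lit 279)),(k11,(nat_lit 288)),(k7,(nat_lit 297)),(k5,(nat_lit 304)),
    (k3,(nat_lit 320)),(k9,(nat_lit 330))],[(k6,(nat_lit 301)),(k2,(nat_lit 304)),(k0,(nat_lit 321)),(k10,
    (nat_lit 324)),(k8,(nat_lit 334)),(k4,(nat_lit 340))],[(k1,(nat_lit 299)),(k11,(nat_lit 326)),(k7,(nat_lit 333)),
    (k9,(nat_lit 334)),(k5,(nat_lit 340)),(k3,(nat_lit 362))],[(k2,(nat_lit 297)),(k0,(nat_lit 308)),(k8,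
    (nat_lit 325)),(k6,(nat_lit 326)),(k4,(nat_lit 333)),(k10,(nat_lit 333))],[(k5,(nat_lit 301)),(k11,(nat_lit 303)),
    (k1,(nat_lit 326)),(k7,(nat_lit 326)),(k9,(nat_lit 327)),(k3,(nat_lit 373))],[(k0,(nat_lit 291)),(k10,
    (nat_lit 300)),(k6,(nat_lit 327)),(k2,(nat_lit 330)),(k4,(nat_lit 334)),(k8,(nat_lit 342))],[(k1,(nat_lit 293)),
    (k11,(nat_lit 318)),(k7,(nat_lit 325)),(k5,(nat_lit 334)),(k9,(nat_lit 342)),(k3,(nat_lit 390))],[(k0,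
    (nat_lit 265)),(k2,(nat_lit 288)),(k6,(nat_lit 303)),(k8,(nat_lit 318)),(k10,(nat_lit 324)),(k4,(nat_lit 326))],
    [(k3,(nat_lit 240)),(k1,(nat_lit 299)),(k9,(nat_lit 300)),(k5,(nat_lit 324)),(k11,(nat_lit 324)),(k7,
    (nat_lit 333))]]
    [] k0
    [[k2,k0,k0,k0,k0,k0],[k1,k1,k0,k0,k0,k0],[k1,k2,k0,k0,k0,k0],[k1,k1,k0,k0,k0,k1],[k1,k0,k1,k0,k0,k0],[k1,k1,k1,k0,
    k0,k0],[k1,k0,k1,k1,k0,k0],[k1,k0,k1,k0,k1,k0],[k1,k0,k1,k0,k0,k1],[k1,k0,k0,k1,k0,k0],[k1,k0,k0,k1,k1,k0],[k1,k0,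
    k0,k1,k0,k1],[k1,k0,k0,k0,k1,k0],[k1,k0,k0,k0,k2,k0],[k1,k0,k0,k0,k1,k1],[k1,k0,k0,k0,k0,k1],[k1,k0,k0,k0,k0,k2],
    [k0,k2,k0,k0,k0,k0],[k0,k2,k0,k0,k0,k1],[k0,k1,k1,k0,k0,k0],[k0,k1,k0,k1,k0,k0],[k0,k1,k0,k0,k1,k0],[k0,k1,k0,k0,
    k0,k1],[k0,k1,k1,k0,k0,k1],[k0,k1,k0,k1,k0,k1],[k0,k1,k0,k0,k1,k1],[k0,k1,k0,k0,k0,k2],[k0,k0,k2,k0,k0,k0],[k0,k0,
    k1,k1,k0,k0],[k0,k0,k1,k0,k1,k0],[k0,k0,k1,k0,k0,k1],[k0,k0,k0,k2,k0,k0],[k0,k0,k0,k1,k1,k0],[k0,k0,k0,k1,k1,k1],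
    [k0,k0,k0,k1,k0,k1],[k0,k0,k0,k0,k2,k0],[k0,k0,k0,k0,k1,k1],[k0,k0,k0,k0,k1,k2],[k0,k0,k0,k0,k0,k2]]
    [.contra [z1],.contra [y2,z2,z1,z1],.ref k2 k2 [(z2,[y1,z1,z0,z0,z2])],.ref k3 k4 [(z1,[y1,z0,z0,z0,z1])],
    .contra [y1,z1,z0,z2],.ref k2 k2 [(z1,[y1,z1,z0,z1,z1])],.ref k2 k2 [(z2,[z1,y1,y1,y1,z2])],.ref k2 k2 [(z1,
    [z1])],.ref (nat_lit 233) k4 [(z1,[y1,z0,z0,z0,z1]),(z1,[z0,z0,z0,z1])],.ref k1 k2 [(z1,[z1])],.ref k2 k2 [(z3,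
    [z1,z0,y1,z1,z2])],.ref (nat_lit 265) k7 [(z1,[y1,y3,y1,y2,z2]),(z1,[z1,z1,z0,z1])],.contra [y1,z0,z0,y1,z1],
    .ref k2 k2 [(z2,[z1,z1,z0,z2])],.ref k3 k2 [(z1,[z1])],.ref k0 k2 [(z1,[z1])],.ref (nat_lit 233) k4 [(z2,[y1,y1,
    z0,y2,z2]),(z1,[z0,z0,z0,z1])],.contra [z1],.ref k2 k2 [(z4,[y1,z0,y1,z0,z4])],.ref k0 k9 [(z1,[z1])],.contra [y2,
    z1,z1],.contra [z1,z1,z0,z3,y1],.ref (nat_lit 258) k6 [(z1,[z1])],.ref k2 k2 [(z3,[y1,z0,y1,z1,z3])],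
    .ref k2 k2 [(z1,[y1,z0,z0,z0,z1])],.ref k2 k2 [(z2,[y1,y1,y1,y1,z3])],.ref (nat_lit 274) k9 [(z1,[z0,z1,z0,z2]),
    (z1,[y1,y1,z0,y2,z2])],.contra [z1],.contra [z1,y2,y1,y3,z2],.contra [y2,y1,y1,z0,z2],.contra [y1,z0,z0,z1],
    .contra [z1],.ref k0 k4 [(z1,[z1])],.ref k2 k2 [(z1,[z1,z1,z0,z1])],.contra [y1,z0,z0,z1],.contra [z1],
    .contra [y2,y2,y1,y1,z2],.ref k3 k4 [(z1,[y1,y2,y1,y1,z2])],.contra [z1]]),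
    .old (.lp [(nat_lit 342),(nat_lit 312),(nat_lit 318),(nat_lit 286),(nat_lit 326),(nat_lit 332)] [k0,k0,k15,k15,k12,
    k12,k28,k28,k8,k8,k5,k5] k0 [[k0,k0,k20,k0,k0,k0,k46],[],[k0,k0,k0,k0,k0,k0,k0,k0,k4,k0,k26],[k0,k20,k0,k0,k0,
    k44],[k0,k0,k44,k0,k0,k0,k0,k0,k0,k0,k22],[k0,k0,k0,k0,k0,k0,k0,k38,k0,k10],[k0,k0,k0,k0,k38],[k0,k46],[k0,k0,k0,
    k0,k10],[k0,k0,k0,k4,k0,k0,k0,k0,k0,k0,k0,k12],[k0,k0,k0,k0,k0,k0,k0,k0,k12],[k0,k0,k0,k26,k0,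
    k22]] (nat_lit 960) k5
    [[(k2,(nat_lit 301)),(k4,(nat_lit 308)),(k6,(nat_lit 314)),(k10,(nat_lit 337)),(k0,(nat_lit 342)),(k8,
    (nat_lit 346))],[(k9,(nat_lit 288)),(k5,(nat_lit 310)),(k7,(nat_lit 314)),(k3,(nat_lit 327)),(k11,(nat_lit 337)),
    (k1,(nat_lit 342))],[(k4,(nat_lit 315)),(k8,(nat_lit 319)),(k10,(nat_lit 322)),(k0,(nat_lit 327)),(k2,
    (nat_lit 332)),(k6,(nat_lit 345))],[(k1,(nat_lit 301)),(k5,(nat_lit 315)),(k11,(nat_lit 318)),(k9,(nat_lit 319)),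
    (k3,(nat_lit 332)),(k7,(nat_lit 343))],[(k4,(nat_lit 274)),(k6,(nat_lit 302)),(k0,(nat_lit 310)),(k2,
    (nat_lit 315)),(k8,(nat_lit 326)),(k10,(nat_lit 351))],[(k5,(nat_lit 274)),(k7,(nat_lit 302)),(k1,(nat_lit 308)),
    (k3,(nat_lit 315)),(k11,(nat_lit 335)),(k9,(nat_lit 360))],[(k6,(nat_lit 248)),(k8,(nat_lit 296)),(k4,
    (nat_lit 302)),(k0,(nat_lit 314)),(k10,(nat_lit 331)),(k2,(nat_lit 343))],[(k7,(nat_lit 248)),(k5,(nat_lit 302)),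
    (k9,(nat_lit 306)),(k11,(nat_lit 309)),(k1,(nat_lit 314)),(k3,(nat_lit 345))],[(k0,(nat_lit 288)),(k6,
    (nat_lit 306)),(k2,(nat_lit 319)),(k8,(nat_lit 326)),(k10,(nat_lit 329)),(k4,(nat_lit 360))],[(k7,(nat_lit 296)),
    (k3,(nat_lit 319)),(k5,(nat_lit 326)),(k9,(nat_lit 326)),(k11,(nat_lit 329)),(k1,(nat_lit 346))],[(k6,
    (nat_lit 309)),(k2,(nat_lit 318)),(k10,(nat_lit 320)),(k8,(nat_lit 329)),(k4,(nat_lit 335)),(k0,(nat_lit 337))],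
    [(k11,(nat_lit 320)),(k3,(nat_lit 322)),(k9,(nat_lit 329)),(k7,(nat_lit 331)),(k1,(nat_lit 337)),(k5,
    (nat_lit 351))]]
    [] k0
    [[k2,k0,k0,k0,k0,k0],[k1,k1,k0,k0,k0,k0],[k1,k1,k1,k0,k0,k0],[k1,k1,k0,k0,k1,k0],[k1,k0,k1,k0,k0,k0],[k1,k0,k2,k0,
    k0,k0],[k1,k0,k1,k1,k0,k0],[k1,k0,k1,k0,k1,k0],[k1,k0,k0,k1,k0,k0],[k1,k0,k0,k2,k0,k0],[k1,k0,k0,k1,k1,k0],[k1,k0,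
    k0,k0,k1,k0],[k1,k0,k0,k0,k0,k1],[k1,k0,k0,k0,k1,k1],[k0,k2,k0,k0,k0,k0],[k0,k1,k1,k0,k0,k0],[k0,k1,k2,k0,k0,k0],
    [k0,k1,k0,k1,k0,k0],[k0,k1,k0,k2,k0,k0],[k0,k1,k0,k0,k1,k0],[k0,k1,k0,k0,k0,k1],[k0,k0,k2,k0,k0,k0],[k0,k0,k3,k0,
    k0,k0],[k0,k0,k2,k1,k0,k0],[k0,k0,k1,k1,k0,k0],[k0,k0,k1,k2,k0,k0],[k0,k0,k1,k1,k1,k0],[k0,k0,k1,k0,k1,k0],[k0,k0,
    k1,k0,k0,k1],[k0,k0,k0,k2,k0,k0],[k0,k0,k0,k3,k0,k0],[k0,k0,k0,k2,k1,k0],[k0,k0,k0,k2,k0,k1],[k0,k0,k0,k1,k1,k0],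
    [k0,k0,k0,k1,k2,k0],[k0,k0,k0,k1,k1,k1],[k0,k0,k0,k1,k0,k1],[k0,k0,k0,k0,k2,k0],[k0,k0,k0,k0,k1,k1],[k0,k0,k0,k0,
    k0,k2]]
    [.contra [z1],.ref k0 k6 [(z1,[z1])],.ref k2 k2 [(z1,[y1,z2,z1,z2])],.ref (nat_lit 233) k0 [(z1,[y1,z1,z0,z0,z1]),
    (z1,[z0,z0,z1,z1])],.contra [y1,z2,z0,z1],.ref (nat_lit 233) k0 [(z1,[z1,y1,y1,y2,z1]),(z1,[z0,z0,z1,z1])],
    .ref (nat_lit 233) k0 [(z1,[z1]),(z1,[z0,z0,z1,z1])],.ref k2 k2 [(z1,[z1])],.contra [y1,z1,y1,y1,z1],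
    .ref (nat_lit 233) k0 [(z1,[z1,z1,z1,z2,y1]),(z1,[z0,z0,z1,z1])],.ref k2 k2 [(z1,[z1,z1,z1,z2,y1])],
    .ref k0 k1 [(z1,[z1,y1])],.contra [z1,z1],.ref k3 k2 [(z1,[z1])],.contra [z1],.contra [y1,z0,z1,z1],
    .ref k3 k2 [(z1,[y1,z1,z1,z2])],.contra [y1,y1,z0,y1,z1],.ref k3 k2 [(z1,[y1,y1,y1,y2,z2])],.contra [z1,z2,y1],
    .ref k0 k6 [(z1,[z1,z1])],.contra [z1],.ref (nat_lit 233) k0 [(z2,[z1,z0,y2,y3,z2]),(z1,[z0,z0,z1,z1])],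
    .ref (nat_lit 233) k0 [(z2,[z1,z1,y1,y1,z1]),(z1,[z0,z0,z1,z1])],.contra [z1,z1,z1,z2,y1],
    .ref (nat_lit 233) k0 [(z2,[z1,z2,z0,z1]),(z1,[z0,z0,z1,z1])],.ref k3 k4 [(z1,[z1])],.contra [y1,z0,z1,z1],
    .contra [y1,z1,z0,z1],.contra [z1,z2,z2,z4,y2],.ref (nat_lit 233) k0 [(z2,[z1,z3,z1,z3,y1]),(z1,[z0,z0,z1,z1])],
    .ref k3 k4 [(z1,[z1,z1,z1,z2,y1])],.ref (nat_lit 233) k0 [(z1,[z1,z2,z1,z2,y1]),(z1,[z0,z0,z1,z1])],.contra [y1,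
    y1,z0,y1,z1],.ref k2 k2 [(z2,[z1,z3,z1,z3,y1])],.ref k2 k2 [(z1,[z1,z2,z1,z2,y1])],.contra [y1,z0,y1,y1,z1],
    .contra [z1],.ref k0 k1 [(z1,[z1])],.contra [z1,z2]]),
    .old (.tor k13 false k4 [(z1,[z1,z1]),(z1,[y2,y1,y2,z2]),(z1,[z1,z0,z1]),(z1,[z0,z0,z1])]),
    .old (.lp [(nat_lit 332),(nat_lit 334),(nat_lit 322),(nat_lit 316),(nat_lit 314),(nat_lit 300)] [k1,k1,k0,k0,k6,k6,k9,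
    k9,k10,k10,k17,k17] k0 [[k0,k0,k0,k0,k0,k0,k0,k0,k6,k0,k12],[k0,k0,k0,k2,k0,k12],[k2,k0,k0,k0,k0,k0,k0,k0,k0,k0,
    k12],[k0,k0,k0,k0,k0,k0,k0,k0,k0,k24],[k12],[k0,k0,k0,k0,k0,k0,k0,k34,k0,k4],[k0,k0,k0,k0,k34],[k0,k0,k0,k0,k0,k0,
    k0,k0,k0,k0,k0,k18],[k0,k0,k24,k0,k4],[k0,k6],[k0,k0,k0,k0,k0,k0,k18],[k0,k12,k0,k12]] (nat_lit 960) k5
    [[(k10,(nat_lit 316)),(k0,(nat_lit 320)),(k2,(nat_lit 321)),(k8,(nat_lit 323)),(k4,(nat_lit 327)),(k6,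
    (nat_lit 342))],[(k11,(nat_lit 310)),(k1,(nat_lit 320)),(k9,(nat_lit 323)),(k5,(nat_lit 329)),(k3,(nat_lit 333)),
    (k7,(nat_lit 336))],[(k4,(nat_lit 316)),(k6,(nat_lit 325)),(k10,(nat_lit 329)),(k8,(nat_lit 330)),(k2,
    (nat_lit 332)),(k0,(nat_lit 333))],[(k1,(nat_lit 321)),(k9,(nat_lit 324)),(k7,(nat_lit 325)),(k5,(nat_lit 328)),
    (k3,(nat_lit 332)),(k11,(nat_lit 341))],[(k8,(nat_lit 294)),(k6,(nat_lit 319)),(k4,(nat_lit 322)),(k10,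
    (nat_lit 323)),(k2,(nat_lit 328)),(k0,(nat_lit 329))],[(k11,(nat_lit 315)),(k3,(nat_lit 316)),(k7,(nat_lit 319)),
    (k5,(nat_lit 322)),(k1,(nat_lit 327)),(k9,(nat_lit 352))],[(k6,(nat_lit 282)),(k10,(nat_lit 308)),(k8,
    (nat_lit 311)),(k4,(nat_lit 319)),(k2,(nat_lit 325)),(k0,(nat_lit 336))],[(k7,(nat_lit 282)),(k11,(nat_lit 308)),
    (k9,(nat_lit 315)),(k5,(nat_lit 319)),(k3,(nat_lit 325)),(k1,(nat_lit 342))],[(k10,(nat_lit 289)),(k8,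
    (nat_lit 314)),(k6,(nat_lit 315)),(k0,(nat_lit 323)),(k2,(nat_lit 324)),(k4,(nat_lit 352))],[(k5,(nat_lit 294)),
    (k11,(nat_lit 307)),(k7,(nat_lit 311)),(k9,(nat_lit 314)),(k1,(nat_lit 323)),(k3,(nat_lit 330))],[(k10,
    (nat_lit 300)),(k8,(nat_lit 307)),(k6,(nat_lit 308)),(k0,(nat_lit 310)),(k4,(nat_lit 315)),(k2,(nat_lit 341))],
    [(k9,(nat_lit 289)),(k11,(nat_lit 300)),(k7,(nat_lit 308)),(k1,(nat_lit 316)),(k5,(nat_lit 323)),(k3,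
    (nat_lit 329))]]
    [] k0
    [[k2,k0,k0,k0,k0,k0],[k2,k0,k0,k0,k0,k1],[k1,k1,k0,k0,k0,k0],[k1,k0,k1,k0,k0,k0],[k1,k0,k1,k0,k1,k0],[k1,k0,k0,k1,
    k0,k0],[k1,k0,k0,k0,k1,k0],[k1,k0,k0,k0,k1,k1],[k1,k0,k0,k0,k0,k1],[k1,k0,k0,k0,k0,k2],[k0,k2,k0,k0,k0,k0],[k0,k1,
    k1,k0,k0,k0],[k0,k1,k1,k0,k1,k0],[k0,k1,k0,k1,k0,k0],[k0,k1,k0,k2,k0,k0],[k0,k1,k0,k0,k1,k0],[k0,k1,k0,k0,k0,k1],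
    [k0,k0,k2,k0,k0,k0],[k0,k0,k1,k1,k0,k0],[k0,k0,k1,k2,k0,k0],[k0,k0,k1,k1,k0,k1],[k0,k0,k1,k0,k1,k0],[k0,k0,k1,k1,
    k1,k0],[k0,k0,k1,k0,k1,k1],[k0,k0,k1,k0,k0,k1],[k0,k0,k1,k0,k0,k2],[k0,k0,k0,k2,k0,k0],[k0,k0,k0,k3,k0,k0],[k0,k0,
    k0,k2,k1,k0],[k0,k0,k0,k2,k0,k1],[k0,k0,k0,k1,k1,k0],[k0,k0,k0,k1,k2,k0],[k0,k0,k0,k1,k1,k1],[k0,k0,k0,k1,k0,k1],
    [k0,k0,k0,k1,k0,k2],[k0,k0,k0,k0,k2,k0],[k0,k0,k0,k0,k3,k0],[k0,k0,k0,k0,k2,k1],[k0,k0,k0,k0,k1,k1],[k0,k0,k0,k0,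
    k1,k2],[k0,k0,k0,k0,k0,k2],[k0,k0,k0,k0,k0,k3]]
    [.contra [z1],.ref (nat_lit 277) k1 [(z1,[z0,z1,z1,z1,y1]),(z1,[z1,y1,y1,y1,z1]),(z1,[z0,y1,z0,y1,z1])],
    .ref k0 k6 [(z1,[z1])],.contra [y1,z0,y1,z0,z1],.ref k2 k2 [(z1,[z1])],.contra [z1,z0,z1,z1,y1],
    .ref (nat_lit 258) k2 [(z1,[z1])],.ref k3 k2 [(z1,[z1])],.contra [z1,y1],.ref (nat_lit 233) k0 [(z1,[z0,z0,y1,z0,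
    z1]),(z1,[y1,z1,z1,z1])],.contra [z1],.ref k0 k9 [(z1,[z1])],.ref (nat_lit 233) k0 [(z1,[z0,z0,y1,z0,z1]),(z1,
    [z1])],.contra [y2,y2,y1,y3,z3],.ref k2 k2 [(z1,[y1,y1,y1,y1,z2])],.contra [y1,y1,z0,y1,z1],.contra [y2,z0,z1,y1,
    z1],.contra [z1],.contra [y1,z0,y1,z0,z1],.ref k2 k2 [(z2,[y1,z0,y2,z1,z2])],.ref k2 k2 [(z2,[y1,z1,y1,z2,z1])],
    .contra [y2,z0,y1,z1,z1],.ref k2 k2 [(z1,[y1,z0,y1,z1,z1])],.ref k2 k2 [(z1,[y1,z1,z0,z2])],.contra [y1,z1,z0,z1],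
    .ref k2 k2 [(z2,[y1,z2,z0,z3])],.contra [z1],.ref (nat_lit 265) k9 [(z1,[y2,y4,y4,y5,z6]),(z1,[z1,z2,z2,z2,y2])],
    .ref k3 k1 [(z1,[z1,z1,z1,z1,y1])],.ref (nat_lit 265) k9 [(z1,[y2,y2,y2,y3,z4]),(z1,[z1,z1,z1,z1,y1])],
    .contra [y1,y1,z0,y1,z1],.ref (nat_lit 233) k0 [(z1,[z0,z0,y1,z0,z1]),(z1,[y1,y1,z0,z0,z1])],.ref k3 k1 [(z1,
    [z1])],.contra [z1,y1,y1,y1,z1],.ref (nat_lit 265) k9 [(z1,[y2,z0,z0,y1,z2]),(z1,[z1])],.contra [z1],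
    .ref k3 k2 [(z1,[z1,z1])],.ref (nat_lit 233) k0 [(z1,[z0,z0,y1,z0,z1]),(z1,[y1,z0,z1,z1])],.contra [y1,z0,z1],
    .ref k3 k1 [(z1,[z1,y1,y1,y1,z1])],.contra [z1,y2,y2,y2,z2],.ref (nat_lit 265) k9 [(z1,[y2,z2,z2,z1]),(z1,[z1,y1,
    y1,y1,z1])]]),
    .old (.lp [k158,k156,k178,k162,k162,k142] [k10,k10,k11,k11,k0,k0,k8,k8,k8,k8,k18,k18] k0 [[k0,k0,k14,k0,k0,k0,k0,k0,
    k4],[k0,k0,k0,k0,k0,k24,k0,k0,k0,k0,k0,k26],[k0,k0,k0,k0,k0,k0,k0,k0,k2],[k0,k14,k0,k0,k0,k0,k0,k22],[k24,k0,k0,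
    k0,k0,k0,k0,k0,k0,k0,k20],[],[k0,k0,k22],[k0,k0,k0,k0,k0,k0,k0,k0,k0,k0,k0,k4],[k0,k0,k0,k0,k0,k0,k0,k0,k0,k0,
    k18],[k0,k4,k0,k2],[k26,k0,k0,k0,k0,k0,k4],[k0,k0,k0,k0,k0,k20,k0,k0,k0,k18]] (nat_lit 480) k5
    [[(k8,k142),(k4,k148),(k10,k150),(k2,k157),(k6,k164),(k0,k184)],[(k11,k146),(k5,k154),(k3,k157),(k9,k160),(k1,
    k184),(k7,k184)],[(k10,k123),(k4,k143),(k0,k157),(k6,k159),(k8,k163),(k2,k170)],[(k11,k147),(k1,k157),(k7,k159),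
    (k5,k167),(k3,k170),(k9,k181)],[(k6,k148),(k0,k154),(k10,k160),(k2,k167),(k8,k172),(k4,k178)],[(k3,k143),(k1,
    k148),(k11,k160),(k7,k170),(k9,k170),(k5,k178)],[(k2,k159),(k6,k162),(k8,k162),(k4,k170),(k10,k172),(k0,k184)],
    [(k5,k148),(k11,k152),(k3,k159),(k7,k162),(k9,k162),(k1,k164)],[(k10,k148),(k0,k160),(k6,k162),(k8,k162),(k4,
    k170),(k2,k181)],[(k1,k142),(k11,k152),(k7,k162),(k9,k162),(k3,k163),(k5,k172)],[(k0,k146),(k2,k147),(k6,k152),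
    (k8,k152),(k4,k160),(k10,k160)],[(k3,k123),(k9,k148),(k1,k150),(k5,k160),(k11,k160),(k7,k172)]]
    [] k0
    [[k2,k0,k0,k0,k0,k0],[k1,k1,k0,k0,k0,k0],[k1,k1,k1,k0,k0,k0],[k1,k1,k0,k0,k0,k1],[k1,k0,k1,k0,k0,k0],[k1,k0,k1,k0,
    k0,k1],[k1,k0,k0,k1,k0,k0],[k1,k0,k0,k0,k1,k0],[k1,k0,k1,k0,k1,k0],[k1,k0,k0,k0,k2,k0],[k1,k0,k0,k0,k1,k1],[k1,k0,
    k0,k0,k0,k1],[k1,k0,k0,k0,k0,k2],[k0,k2,k0,k0,k0,k0],[k0,k2,k0,k0,k0,k1],[k0,k1,k1,k0,k0,k0],[k0,k1,k1,k1,k0,k0],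
    [k0,k1,k1,k0,k0,k1],[k0,k1,k0,k1,k0,k0],[k0,k1,k0,k1,k0,k1],[k0,k1,k0,k0,k1,k0],[k0,k1,k0,k0,k1,k1],[k0,k1,k0,k0,
    k0,k1],[k0,k1,k0,k0,k0,k2],[k0,k0,k2,k0,k0,k0],[k0,k0,k1,k1,k0,k0],[k0,k0,k1,k0,k1,k0],[k0,k0,k1,k0,k0,k1],[k0,k0,
    k0,k2,k0,k0],[k0,k0,k0,k1,k1,k0],[k0,k0,k0,k1,k1,k1],[k0,k0,k0,k1,k0,k1],[k0,k0,k0,k0,k2,k0],[k0,k0,k0,k0,k2,k1],
    [k0,k0,k0,k0,k1,k1],[k0,k0,k0,k0,k1,k2],[k0,k0,k0,k0,k0,k2]]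
    [.contra [z1],.contra [y1,z1,z1],.ref k2 k2 [(z1,[y1,z0,y1,z2])],.ref k3 k4 [(z1,[y1,z0,z0,z1])],.contra [y1,y1,
    y2,z2],.ref (nat_lit 233) k4 [(z1,[y1,z0,z0,z1]),(z1,[z0,y1,y1,z1])],.ref k1 k2 [(z1,[z1])],.contra [y1,z1,z1],
    .ref k2 k2 [(z1,[z1])],.ref k2 k2 [(z2,[z1,y1,y2,z2])],.ref k3 k2 [(z1,[z1])],.ref k0 k2 [(z1,[z1])],
    .ref (nat_lit 233) k4 [(z2,[y1,z1,z2]),(z1,[z0,y1,y1,z1])],.contra [z1],.ref (nat_lit 265) k1 [(z1,[y1,z2,z4,y2]),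
    (z1,[z0,y1,y2,z2])],.ref k0 k9 [(z1,[z1])],.ref k3 k2 [(z1,[y1,z0,z0,z1])],.ref (nat_lit 278) k4 [(z1,[y1,z1,z2,
    y1]),(z1,[z0,y1,y1,z1]),(z1,[z0,y1,y2,z2])],.ref (nat_lit 258) k0 [(z1,[z1])],.ref k2 k2 [(z1,[y1,z0,z0,z1])],
    .contra [z1,y2,y3,z2],.ref (nat_lit 276) k3 [(z1,[z1,y1,y2,z1]),(z1,[z2,z0,y1]),(z1,[y2,z1,z2])],
    .ref (nat_lit 258) k6 [(z1,[z1])],.ref (nat_lit 274) k9 [(z1,[z0,y1,y2,z2]),(z1,[y1,z1,z2])],.contra [z1],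
    .contra [y1,y1,y1,z1],.ref (nat_lit 258) k4 [(z1,[z1])],.contra [y1,y1,y1,z1],.contra [z1],.ref k0 k4 [(z1,[z1])],
    .ref k2 k2 [(z1,[z1,z0,y1,z1])],.contra [y1,y1,y1,z1],.contra [z1],.ref (nat_lit 275) k2 [(z1,[z0,z1]),(z1,[y1,z0,
    z2]),(z1,[z0,y1,y1,z1])],.ref k0 k1 [(z1,[z1])],.ref (nat_lit 265) k2 [(z1,[z2,z1]),(z1,[y1,z0,z1])],
    .contra [z1]])]

noncomputable def cU6_3_n4_2 : List XN :=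
  [.old (.lp [(nat_lit 308),(nat_lit 328),(nat_lit 326),(nat_lit 340),(nat_lit 326),(nat_lit 290)] [k50,k0,k15,k15,k16,
    k16,k9,k9,k12,k20,k34,k34] k0 [[k0,k0,k14,k0,k0,k0,k0,k0,k34],[k0,k0,k0,k0,k0,k2,k0,k0,k0,k0,k0,k16],[k0,k0,k0,k0,
    k0,k0,k0,k0,k18,k0,k18],[k0,k14,k0,k0,k0,k0,k0,k32],[k2],[k0,k0,k0,k0,k0,k0,k0,k0,k0,k0,k0,k16],[k0,k0,k32],[k0,
    k0,k0,k0,k0,k0,k0,k0,k0,k6],[k0,k0,k0,k0,k0,k0,k6,k0,k0,k0,k106],[k0,k34,k0,k18],[k16,k0,k0,k0,k16],[k0,k0,k0,k18,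
    k0,k0,k0,k0,k0,k106]] (nat_lit 960) k5
    [[(k8,(nat_lit 240)),(k0,(nat_lit 324)),(k10,(nat_lit 324)),(k2,(nat_lit 325)),(k6,(nat_lit 349)),(k4,
    (nat_lit 358))],[(k11,(nat_lit 240)),(k5,(nat_lit 278)),(k9,(nat_lit 288)),(k3,(nat_lit 293)),(k7,(nat_lit 301)),
    (k1,(nat_lit 324))],[(k0,(nat_lit 293)),(k10,(nat_lit 293)),(k4,(nat_lit 325)),(k6,(nat_lit 334)),(k2,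
    (nat_lit 342)),(k8,(nat_lit 365))],[(k11,(nat_lit 291)),(k1,(nat_lit 325)),(k5,(nat_lit 327)),(k7,(nat_lit 334)),
    (k3,(nat_lit 342)),(k9,(nat_lit 355))],[(k0,(nat_lit 278)),(k6,(nat_lit 301)),(k4,(nat_lit 326)),(k10,
    (nat_lit 326)),(k2,(nat_lit 327)),(k8,(nat_lit 348))],[(k11,(nat_lit 308)),(k9,(nat_lit 322)),(k3,(nat_lit 325)),
    (k5,(nat_lit 326)),(k7,(nat_lit 333)),(k1,(nat_lit 358))],[(k10,(nat_lit 299)),(k0,(nat_lit 301)),(k4,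
    (nat_lit 333)),(k2,(nat_lit 334)),(k8,(nat_lit 337)),(k6,(nat_lit 340))],[(k5,(nat_lit 301)),(k11,(nat_lit 321)),
    (k9,(nat_lit 329)),(k3,(nat_lit 334)),(k7,(nat_lit 340)),(k1,(nat_lit 349))],[(k0,(nat_lit 288)),(k10,
    (nat_lit 304)),(k8,(nat_lit 320)),(k4,(nat_lit 322)),(k6,(nat_lit 329)),(k2,(nat_lit 355))],[(k1,(nat_lit 240)),
    (k11,(nat_lit 312)),(k9,(nat_lit 320)),(k7,(nat_lit 337)),(k5,(nat_lit 348)),(k3,(nat_lit 365))],[(k0,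
    (nat_lit 240)),(k2,(nat_lit 291)),(k4,(nat_lit 308)),(k8,(nat_lit 312)),(k6,(nat_lit 321)),(k10,(nat_lit 396))],
    [(k3,(nat_lit 293)),(k7,(nat_lit 299)),(k9,(nat_lit 304)),(k1,(nat_lit 324)),(k5,(nat_lit 326)),(k11,
    (nat_lit 396))]]
    [] k0
    [[k2,k0,k0,k0,k0,k0],[k2,k1,k0,k0,k0,k0],[k2,k0,k0,k0,k1,k0],[k2,k0,k0,k0,k0,k1],[k1,k1,k0,k0,k0,k0],[k1,k1,k1,k0,
    k0,k0],[k1,k1,k0,k0,k0,k1],[k1,k0,k1,k0,k0,k0],[k1,k0,k1,k0,k0,k1],[k1,k0,k0,k1,k0,k0],[k1,k0,k0,k1,k0,k1],[k1,k0,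
    k0,k0,k1,k0],[k1,k1,k0,k0,k1,k0],[k1,k0,k1,k0,k1,k0],[k1,k0,k0,k1,k1,k0],[k1,k0,k0,k0,k2,k0],[k1,k0,k0,k0,k1,k1],
    [k1,k0,k0,k0,k0,k1],[k0,k2,k0,k0,k0,k0],[k0,k2,k0,k0,k0,k1],[k0,k1,k1,k0,k0,k0],[k0,k1,k1,k0,k0,k1],[k0,k1,k0,k1,
    k0,k0],[k0,k1,k0,k1,k0,k1],[k0,k1,k0,k0,k1,k0],[k0,k1,k0,k0,k0,k1],[k0,k0,k2,k0,k0,k0],[k0,k0,k1,k1,k0,k0],[k0,k0,
    k1,k1,k0,k1],[k0,k0,k1,k0,k1,k0],[k0,k0,k1,k0,k0,k1],[k0,k0,k0,k2,k0,k0],[k0,k0,k0,k1,k1,k0],[k0,k0,k0,k1,k0,k1],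
    [k0,k0,k0,k1,k1,k1],[k0,k0,k0,k0,k2,k0],[k0,k0,k0,k0,k2,k1],[k0,k0,k0,k0,k1,k1],[k0,k0,k0,k0,k0,k2]]
    [.contra [z1],.ref k3 k2 [(z2,[z1,z0,y1])],.ref (nat_lit 279) k2 [(z1,[z2,y1,z2,z2,y2]),(z1,[y1,z0,y1,y2,z2])],
    .ref k3 k4 [(z1,[y1,z1,y1,z0,z1])],.contra [z1,z1,y1],.ref k3 k2 [(z1,[z1,z0,y1,y1])],.ref k3 k4 [(z1,[y1,z0,z0,
    z0,z1])],.contra [y1,z1,z0,z2],.ref (nat_lit 233) k1 [(z1,[z0,z0,z0,z1]),(z1,[y1,z1,y1,z0,z1])],.contra [z1,z0,z1,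
    z3,y1],.ref k2 k2 [(z1,[y1,z1,y1,z0,z1])],.ref k1 k4 [(z1,[z1,y1,z1])],.ref (nat_lit 279) k2 [(z1,[z2,z1,z0,z2,
    y2]),(z1,[y1,y1,z0,y2,z2])],.ref k2 k2 [(z1,[z1])],.ref (nat_lit 233) k1 [(z1,[z0,z0,z0,z1]),(z1,[z1])],
    .ref k2 k2 [(z2,[z1,z1,z0,z2])],.ref k3 k2 [(z1,[z1])],.ref k0 k2 [(z1,[z1])],.contra [z1,z2,y2],.ref k3 k4 [(z1,
    [y1,y1,z1,z0,z1])],.contra [y1,z0,z1,z2],.ref (nat_lit 233) k1 [(z1,[z0,z0,z0,z1]),(z1,[y1,z0,z0,z0,z1])],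
    .contra [z1,z1,z0,z3,y1],.ref k2 k2 [(z1,[y1,z0,z0,z0,z1])],.ref k1 k4 [(z1,[z1])],.ref k0 k2 [(z1,[z1,z1,y1])],
    .contra [z1],.ref k0 k0 [(z1,[z1])],.ref (nat_lit 279) k2 [(z1,[y2,z1,z0,z2]),(z1,[z1,y1,z0,y2,z1])],.contra [y1,
    z0,z0,z1],.contra [y1,z0,z0,z1],.contra [z1],.ref k0 k4 [(z1,[z1])],.ref (nat_lit 258) k1 [(z1,[z1])],
    .ref k3 k2 [(z1,[y1,z0,y1,y1,z1])],.contra [z1],.ref k2 k2 [(z1,[z1,z1,z0,z1])],.contra [y1,z0,z0,z1],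
    .contra [z1]]),
    .old (.lp [k150,k166,k166,k164,k148,k162] [k8,k8,k0,k0,k0,k0,k1,k1,k9,k9,k2,k2] k0 [[k0,k0,k0,k0,k0,k0,k6],[k0,k0,k0,
    k0,k0,k0,k0,k0,k0,k0,k0,k18],[k0,k0,k0,k0,k0,k0,k0,k0,k16,k0,k2],[k0,k0,k0,k0,k0,k2],[k0,k0,k2,k0,k0,k0,k14],[k0,
    k0,k0,k0,k0,k0,k0,k0,k0,k4],[k0,k0,k0,k0,k0,k0,k0,k0,k24],[k0,k6,k0,k0,k0,k14],[k0,k0,k0,k0,k4,k0,k0,k0,k0,k0,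
    k24],[k0,k0,k0,k16,k0,k0,k0,k24],[k18],[k0,k0,k0,k2,k0,k0,k0,k0,k0,k24]] (nat_lit 480) k5
    [[(k8,k125),(k2,k156),(k10,k156),(k6,k157),(k4,k158),(k0,k168)],[(k9,k143),(k11,k156),(k7,k157),(k3,k158),(k5,
    k158),(k1,k168)],[(k10,k146),(k8,k157),(k0,k158),(k2,k166),(k4,k166),(k6,k171)],[(k11,k148),(k1,k156),(k9,k157),
    (k3,k166),(k5,k166),(k7,k167)],[(k0,k158),(k4,k164),(k6,k165),(k2,k166),(k10,k166),(k8,k173)],[(k9,k143),(k1,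
    k158),(k5,k164),(k7,k165),(k3,k166),(k11,k168)],[(k8,k152),(k0,k157),(k10,k163),(k4,k165),(k2,k167),(k6,k178)],
    [(k11,k139),(k9,k156),(k1,k157),(k5,k165),(k3,k171),(k7,k178)],[(k0,k143),(k4,k143),(k10,k155),(k6,k156),(k2,
    k157),(k8,k172)],[(k1,k125),(k7,k152),(k11,k155),(k3,k157),(k9,k172),(k5,k173)],[(k6,k139),(k2,k148),(k8,k155),
    (k0,k156),(k4,k168),(k10,k186)],[(k3,k146),(k9,k155),(k1,k156),(k7,k163),(k5,k166),(k11,k186)]]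
    [] k0
    [[k2,k0,k0,k0,k0,k0],[k2,k0,k0,k0,k1,k0],[k1,k1,k0,k0,k0,k0],[k1,k1,k0,k0,k1,k0],[k1,k1,k0,k0,k0,k1],[k1,k0,k1,k0,
    k0,k0],[k1,k0,k1,k0,k1,k0],[k1,k0,k0,k1,k0,k0],[k1,k0,k0,k1,k1,k0],[k1,k0,k0,k1,k0,k1],[k1,k0,k0,k0,k1,k0],[k1,k0,
    k0,k0,k2,k0],[k1,k0,k0,k0,k1,k1],[k1,k0,k0,k0,k0,k1],[k0,k2,k0,k0,k0,k0],[k0,k2,k0,k0,k0,k1],[k0,k1,k1,k0,k0,k0],
    [k0,k1,k0,k1,k0,k0],[k0,k1,k0,k0,k1,k0],[k0,k1,k1,k0,k1,k0],[k0,k1,k0,k0,k1,k1],[k0,k1,k0,k0,k0,k1],[k0,k1,k0,k1,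
    k0,k1],[k0,k0,k2,k0,k0,k0],[k0,k0,k1,k1,k0,k0],[k0,k0,k1,k1,k1,k0],[k0,k0,k1,k0,k1,k0],[k0,k0,k1,k0,k0,k1],[k0,k0,
    k1,k1,k0,k1],[k0,k0,k1,k0,k1,k1],[k0,k0,k0,k2,k0,k0],[k0,k0,k0,k1,k1,k0],[k0,k0,k0,k1,k1,k1],[k0,k0,k0,k1,k0,k1],
    [k0,k0,k0,k0,k2,k0],[k0,k0,k0,k0,k1,k1],[k0,k0,k0,k0,k0,k2]]
    [.contra [z1],.ref k3 k2 [(z1,[z1,y1])],.ref k0 k6 [(z1,[z1])],.ref (nat_lit 233) k4 [(z1,[z0,z0,z1]),(z1,[y1,z0,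
    z0,z1])],.ref k3 k4 [(z1,[y1,z0,z0,z1])],.contra [y1,z1,y1,z1],.ref k2 k2 [(z1,[z1])],.ref k1 k2 [(z1,[z1])],
    .ref k3 k1 [(z1,[z1,y1])],.ref (nat_lit 279) k0 [(z1,[z1,y1,z2,y2]),(z1,[y1,z1,y1,z2])],.ref k0 k1 [(z1,[z1,y1])],
    .ref (nat_lit 279) k8 [(z1,[z1,z0,y2]),(z1,[y1,z0,z1,z1])],.ref k3 k2 [(z1,[z1])],.contra [z1,z1],.contra [z1],
    .ref (nat_lit 280) k1 [(z1,[z1,z0,y2]),(z1,[z1,z1,y2]),(z1,[z0,z0,z1])],.ref k0 k9 [(z1,[z1])],.contra [y1,z0,z1],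
    .contra [y1,z0,z1],.ref (nat_lit 279) k0 [(z1,[y1,y1,z2,y1]),(z1,[z1,z1,y1,z1])],.ref (nat_lit 233) k4 [(z1,[z0,
    z0,z1]),(z1,[y1,y1,z0,z1])],.ref k0 k6 [(z1,[z1,z1])],.ref k2 k2 [(z1,[y1,z0,z0,z1])],.contra [z1],
    .ref k0 k0 [(z1,[z1])],.ref k3 k4 [(z1,[z1])],.ref (nat_lit 258) k4 [(z1,[z1])],.contra [y1,z0,y1,z1],
    .ref (nat_lit 233) k4 [(z1,[z0,z0,z1]),(z1,[z1])],.ref k2 k2 [(z1,[z1,z1])],.contra [z1],.contra [y1,z0,z1],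
    .ref k3 k1 [(z1,[z1])],.ref k1 k2 [(z1,[z1,z1])],.contra [z1],.ref k0 k1 [(z1,[z1])],.contra [z1,z2]]),
    .old (.lp [k148,k146,k166,k166,k164,k168] [k10,k10,k11,k11,k1,k1,k1,k1,k2,k2,k0,k0] k0 [[k0,k0,k0,k0,k0,k0,k36,k0,
    k18],[k0,k0,k0,k16,k0,k0,k0,k0,k0,k0,k0,k2],[k16,k0,k0,k0,k0,k0,k0,k0,k0,k0,k16],[k0,k0,k0,k0,k0,k6,k0,k4],[k0,k0,
    k6],[k0,k0,k0,k0,k0,k0,k0,k0,k0,k2],[k0,k0,k4],[k0,k36,k0,k0,k0,k0,k0,k0,k0,k0,k0,k16],[k0,k0,k0,k0,k2,k0,k0,k0,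
    k0,k0,k14],[k0,k18],[k2,k0,k0,k0,k0,k0,k16],[k0,k0,k0,k16,k0,k0,k0,k0,k0,k14]] (nat_lit 480) k5
    [[(k2,k131),(k8,k142),(k0,k150),(k4,k157),(k10,k158),(k6,k173)],[(k9,k120),(k11,k140),(k3,k147),(k1,k150),(k7,
    k157),(k5,k173)],[(k2,k130),(k0,k147),(k10,k155),(k4,k156),(k8,k173),(k6,k192)],[(k3,k130),(k1,k131),(k5,k156),
    (k11,k157),(k9,k159),(k7,k162)],[(k2,k156),(k4,k160),(k6,k162),(k8,k165),(k0,k173),(k10,k183)],[(k3,k156),(k1,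
    k157),(k5,k160),(k9,k165),(k7,k166),(k11,k169)],[(k0,k157),(k2,k162),(k8,k163),(k4,k166),(k6,k166),(k10,k167)],
    [(k5,k162),(k9,k165),(k7,k166),(k11,k167),(k1,k173),(k3,k192)],[(k0,k120),(k10,k150),(k2,k159),(k8,k164),(k4,
    k165),(k6,k165)],[(k1,k142),(k7,k163),(k9,k164),(k5,k165),(k11,k166),(k3,k173)],[(k0,k140),(k2,k157),(k8,k166),
    (k6,k167),(k4,k169),(k10,k182)],[(k9,k150),(k3,k155),(k1,k158),(k7,k167),(k11,k182),(k5,k183)]]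
    [] k0
    [[k2,k0,k0,k0,k0,k0],[k3,k0,k0,k0,k0,k0],[k2,k1,k0,k0,k0,k0],[k2,k0,k0,k0,k1,k0],[k2,k0,k0,k0,k0,k1],[k1,k1,k0,k0,
    k0,k0],[k1,k2,k0,k0,k0,k0],[k1,k1,k1,k0,k0,k0],[k1,k1,k0,k0,k1,k0],[k1,k1,k0,k0,k0,k1],[k1,k0,k1,k0,k0,k0],[k1,k0,
    k1,k1,k0,k0],[k1,k0,k1,k0,k1,k0],[k1,k0,k0,k1,k0,k0],[k1,k0,k0,k1,k1,k0],[k1,k0,k0,k0,k1,k0],[k1,k0,k0,k0,k2,k0],
    [k1,k0,k0,k0,k1,k1],[k1,k0,k0,k0,k0,k1],[k0,k2,k0,k0,k0,k0],[k0,k3,k0,k0,k0,k0],[k0,k2,k1,k0,k0,k0],[k0,k2,k0,k0,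
    k1,k0],[k0,k2,k0,k0,k0,k1],[k0,k1,k1,k0,k0,k0],[k0,k1,k2,k0,k0,k0],[k0,k1,k0,k1,k0,k0],[k0,k1,k0,k0,k1,k0],[k0,k1,
    k0,k0,k0,k1],[k0,k0,k2,k0,k0,k0],[k0,k0,k1,k1,k0,k0],[k0,k0,k1,k0,k1,k0],[k0,k0,k1,k0,k0,k1],[k0,k0,k0,k2,k0,k0],
    [k0,k0,k0,k1,k1,k0],[k0,k0,k0,k1,k0,k1],[k0,k0,k0,k0,k2,k0],[k0,k0,k0,k0,k1,k1],[k0,k0,k0,k0,k0,k2]]
    [.contra [z1],.ref k3 k2 [(z2,[z1,y1])],.ref (nat_lit 265) k2 [(z1,[z2,y1,z0,z2,y2]),(z1,[y1,z0,z0,y2,z2])],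
    .ref (nat_lit 279) k4 [(z1,[z1,z0,z0,z2,y2]),(z1,[y1,z0,z0,y1,z2])],.ref (nat_lit 265) k2 [(z1,[z2,y1,z2,z2,y2]),
    (z1,[y1,z0,y1,y2,z2])],.contra [y1,z0,z0,y1,z1],.ref k3 k1 [(z2,[y1,y1,z0,y2,z2])],.ref k3 k1 [(z1,[y1,z0,z0,z0,
    z1])],.ref k3 k2 [(z1,[z1,z0,y1])],.ref k3 k1 [(z2,[y1,y1,y1,y2,z2])],.contra [y1,z1,z0,z2],.ref k3 k1 [(z1,[z1,
    y1,z0,y1])],.ref k2 k2 [(z1,[z1])],.contra [y1,z0,z0,y1,z1],.ref (nat_lit 233) k1 [(z1,[z0,z0,z0,z1]),(z1,[z1])],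
    .ref (nat_lit 258) k2 [(z1,[z1])],.ref k2 k2 [(z2,[z1,z1,z0,z2])],.ref k3 k2 [(z1,[z1])],.contra [y1,z0,y1,y1,z1],
    .contra [z1],.ref (nat_lit 265) k1 [(z1,[y1,y2,z1,y4,z2]),(z1,[z0,z1,z0,z2])],.ref (nat_lit 233) k1 [(z1,[z0,z0,
    z0,z1]),(z1,[y1,z0,z1,z0,z1])],.ref k3 k1 [(z1,[y1,y1,z1,y1,z1])],.ref (nat_lit 265) k1 [(z1,[y1,y2,z0,y4,z2]),
    (z1,[z0,z1,z0,z2])],.contra [y1,z0,z1,z1],.ref k2 k2 [(z1,[y1,z1,z1,z3])],.contra [z1,z1,z0,z3,y1],.contra [y1,z0,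
    z1,z1],.contra [z1,z0,z1],.contra [z1],.ref k0 k0 [(z1,[z1])],.contra [y1,z0,z1,z1],.contra [y1,z0,z0,z1],
    .contra [z1],.ref k0 k4 [(z1,[z1])],.contra [z1,z1,z1,z3,y1],.contra [z1],.contra [y1,z0,z0,z1],.contra [z1,z0,
    z2]]),
    .geo true z3 k5 [(y2,z6),(z2,z0),(z2,z0),(z6,y6),(z4,y3),(z0,z3)] [(z1,[z1]),(z1,[z0,z1]),(z1,[z0,z0,z1]),(z1,[z0,z0,
    z0,z3]),(z1,[y1,y1,y1,y3,z3]),(z1,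
    [])] (Int.ofNat (nat_lit 349525)) (Int.ofNat (nat_lit 1048576)) (.s (.s (.l k1) (.l k2)) (.s (.l k2) (.l k1))) [⟨z2,
    z3,[[k0,k3],[k1,k4],[k2,k5]],.child (.ref k2 k2 [(z3,[z1,z0,y1,z0,y3,z3])])⟩],
    .old (.lp [k162,k178,k144,k160,k156,k158] [k8,k8,k0,k0,k17,k17,k9,k9,k11,k11,k10,k10] k0 [[k0,k0,k0,k0,k0,k0,k0,k0,
    k22],[k0,k0,k0,k0,k0,k38,k0,k0,k0,k0,k0,k16],[k0,k0,k0,k0,k36,k0,k0,k0,k0,k0,k38],[k0,k0,k0,k0,k0,k0,k0,k4],[k38],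
    [k0,k0,k0,k36,k0,k0,k0,k0,k0,k16],[k0,k0,k4,k0,k0,k0,k0,k0,k32],[k0,k0,k0,k0,k0,k0,k0,k0,k0,k0,k0,k22],[k0,k0,k0,
    k0,k16,k0,k0,k0,k0,k0,k36],[k0,k22,k0,k0,k0,k0,k0,k32],[k16,k0,k0,k0,k0,k0,k22],[k0,k0,k0,k38,k0,k0,k0,k0,k0,
    k36]] (nat_lit 480) k5
    [[(k8,k123),(k2,k132),(k4,k153),(k10,k160),(k0,k178),(k6,k183)],[(k11,k138),(k5,k153),(k9,k159),(k3,k170),(k1,
    k178),(k7,k199)],[(k4,k123),(k10,k152),(k6,k169),(k0,k170),(k2,k178),(k8,k189)],[(k1,k132),(k7,k133),(k5,k161),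
    (k11,k168),(k9,k171),(k3,k178)],[(k6,k148),(k8,k150),(k0,k153),(k2,k161),(k4,k180),(k10,k189)],[(k3,k123),(k9,
    k150),(k7,k152),(k1,k153),(k11,k167),(k5,k180)],[(k2,k133),(k8,k142),(k4,k152),(k10,k159),(k6,k160),(k0,k199)],
    [(k11,k127),(k5,k148),(k9,k158),(k7,k160),(k3,k169),(k1,k183)],[(k10,k135),(k4,k150),(k6,k158),(k0,k159),(k2,
    k171),(k8,k188)],[(k1,k123),(k7,k142),(k5,k150),(k11,k157),(k9,k188),(k3,k189)],[(k6,k127),(k0,k138),(k8,k157),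
    (k4,k167),(k2,k168),(k10,k194)],[(k9,k135),(k3,k152),(k7,k159),(k1,k160),(k5,k189),(k11,k194)]]
    [] k0
    [[k2,k0,k0,k0,k0,k0],[k2,k0,k0,k0,k1,k0],[k2,k0,k0,k0,k0,k1],[k1,k1,k0,k0,k0,k0],[k1,k1,k1,k0,k0,k0],[k1,k1,k0,k0,
    k0,k1],[k1,k0,k1,k0,k0,k0],[k1,k0,k1,k0,k1,k0],[k1,k0,k0,k1,k0,k0],[k1,k0,k0,k0,k1,k0],[k1,k1,k0,k0,k1,k0],[k1,k0,
    k0,k0,k2,k0],[k1,k0,k0,k0,k1,k1],[k1,k0,k0,k0,k0,k1],[k0,k2,k0,k0,k0,k0],[k0,k2,k1,k0,k0,k0],[k0,k1,k1,k0,k0,k0],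
    [k0,k1,k2,k0,k0,k0],[k0,k1,k1,k1,k0,k0],[k0,k1,k1,k0,k1,k0],[k0,k1,k0,k1,k0,k0],[k0,k1,k0,k2,k0,k0],[k0,k1,k0,k0,
    k1,k0],[k0,k1,k0,k0,k0,k1],[k0,k1,k0,k1,k0,k1],[k0,k0,k2,k0,k0,k0],[k0,k0,k1,k1,k0,k0],[k0,k0,k1,k2,k0,k0],[k0,k0,
    k1,k1,k1,k0],[k0,k0,k1,k1,k0,k1],[k0,k0,k1,k0,k1,k0],[k0,k0,k1,k0,k1,k1],[k0,k0,k1,k0,k0,k1],[k0,k0,k0,k2,k0,k0],
    [k0,k0,k0,k2,k1,k0],[k0,k0,k0,k2,k0,k1],[k0,k0,k0,k1,k1,k0],[k0,k0,k0,k1,k1,k1],[k0,k0,k0,k1,k0,k1],[k0,k0,k0,k0,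
    k2,k0],[k0,k0,k0,k0,k1,k1],[k0,k0,k0,k0,k0,k2]]
    [.contra [z1],.ref (nat_lit 233) k4 [(z1,[z0,y1,z0,y1,z1]),(z1,[y1,z1,y1,z0,z1])],.ref k3 k4 [(z1,[y1,z1,y1,z0,
    z1])],.contra [z1,z1,y1],.ref k2 k2 [(z2,[z1,z1,y1,z1])],.ref k3 k4 [(z1,[y1,z0,z0,z0,z1])],.contra [y1,z1,z0,z1],
    .ref k2 k2 [(z1,[z1])],.contra [y1,z0,y1,y1,z1],.contra [y1,z0,y1,y1,z1],.ref (nat_lit 233) k4 [(z1,[z0,y1,z0,y1,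
    z1]),(z1,[y1,z0,z0,z0,z1])],.ref k3 k4 [(z1,[y1,z0,y1,z0,z1])],.ref k3 k2 [(z1,[z1])],.contra [z1,y1],.contra [z1,
    z2,y2],.ref k2 k2 [(z2,[z1,z2,y2,z1])],.contra [y1,z0,z1,z1],.ref (nat_lit 274) k9 [(z1,[z1,z1,y1]),(z1,[z0,y1,y1,
    y2,z2])],.ref k3 k2 [(z1,[y1,z0,z0,z0,z1])],.ref k2 k2 [(z1,[z1,z1,y1])],.contra [y1,y1,z0,y1,z1],.ref k3 k4 [(z1,
    [z1,z1,z0,z2,y1])],.contra [y1,y1,z0,y1,z1],.contra [z1,z0,y1],.ref k2 k2 [(z1,[y1,z0,z0,z0,z1])],.contra [z1],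
    .ref k0 k0 [(z1,[z1])],.ref k3 k4 [(z2,[z1,z0,z0,z1])],.ref k3 k4 [(z1,[z1])],.ref (nat_lit 233) k4 [(z1,[z0,y1,
    z0,y1,z1]),(z1,[z1])],.contra [y1,z0,z0,z1],.ref k2 k2 [(z1,[y1,z1,z0,z2])],.contra [y1,z1,z0,z1],.contra [z1],
    .ref (nat_lit 233) k4 [(z1,[z0,y1,z0,y1,z1]),(z1,[z1,z1,z1,z2,y1])],.ref (nat_lit 283) k1 [(z1,[z1,z2,z2,z2,y2]),
    (z1,[y1,z1,y2,y2,z2]),(z1,[y1,y2,z1,y2,z2]),(z1,[z0,z0,z0,z1])],.contra [y1,z0,y1,y1,z1],.ref k2 k2 [(z2,[y1,z1,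
    y1,z1,z1])],.ref (nat_lit 258) k1 [(z1,[z1])],.contra [z1],.ref k0 k1 [(z1,[z1])],.contra [z1]]),
    .old (.lp [k150,k162,k148,k164,k166,k166] [k8,k8,k2,k2,k9,k9,k1,k1,k0,k0,k0,k0] k0 [[k0,k0,k24,k0,k0,k0,k0,k0,k2],[k0,
    k0,k0,k0,k0,k0,k0,k0,k0,k0,k0,k18],[k0,k0,k0,k0,k24,k0,k0,k0,k16],[k0,k24,k0,k0,k0,k0,k0,k4],[k0,k0,k0,k0,k0,k0,
    k14,k0,k0,k0,k6],[k0,k0,k0,k24],[k0,k0,k4],[k0,k0,k0,k0,k0,k14,k0,k0,k0,k2],[k0,k0,k0,k0,k0,k0,k2],[k0,k2,k0,k16],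
    [k18],[k0,k0,k0,k0,k0,k6]] (nat_lit 480) k5
    [[(k4,k143),(k2,k156),(k6,k157),(k8,k158),(k10,k158),(k0,k168)],[(k5,k125),(k3,k156),(k11,k156),(k7,k157),(k9,
    k158),(k1,k168)],[(k10,k146),(k4,k155),(k0,k156),(k6,k163),(k8,k166),(k2,k186)],[(k7,k139),(k11,k148),(k5,k155),
    (k1,k156),(k9,k168),(k3,k186)],[(k0,k125),(k6,k152),(k2,k155),(k10,k157),(k4,k172),(k8,k173)],[(k1,k143),(k9,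
    k143),(k3,k155),(k7,k156),(k11,k157),(k5,k172)],[(k2,k139),(k4,k156),(k0,k157),(k8,k165),(k10,k171),(k6,k178)],
    [(k5,k152),(k1,k157),(k3,k163),(k9,k165),(k11,k167),(k7,k178)],[(k4,k143),(k0,k158),(k8,k164),(k6,k165),(k10,
    k166),(k2,k168)],[(k1,k158),(k9,k164),(k7,k165),(k3,k166),(k11,k166),(k5,k173)],[(k2,k148),(k0,k156),(k4,k157),
    (k8,k166),(k10,k166),(k6,k167)],[(k3,k146),(k5,k157),(k1,k158),(k9,k166),(k11,k166),(k7,k171)]]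
    [] k0
    [[k2,k0,k0,k0,k0,k0],[k2,k0,k1,k0,k0,k0],[k1,k1,k0,k0,k0,k0],[k1,k1,k1,k0,k0,k0],[k1,k1,k0,k1,k0,k0],[k1,k1,k0,k0,
    k0,k1],[k1,k0,k1,k0,k0,k0],[k1,k0,k2,k0,k0,k0],[k1,k0,k1,k1,k0,k0],[k1,k0,k1,k0,k1,k0],[k1,k0,k1,k0,k0,k1],[k1,k0,
    k0,k1,k0,k0],[k1,k0,k0,k0,k1,k0],[k1,k0,k0,k0,k0,k1],[k0,k2,k0,k0,k0,k0],[k0,k1,k1,k0,k0,k0],[k0,k1,k1,k1,k0,k0],
    [k0,k1,k1,k0,k0,k1],[k0,k1,k0,k1,k0,k0],[k0,k1,k0,k0,k1,k0],[k0,k1,k1,k0,k1,k0],[k0,k1,k0,k1,k1,k0],[k0,k1,k0,k0,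
    k0,k1],[k0,k1,k0,k1,k0,k1],[k0,k1,k0,k0,k0,k2],[k0,k0,k2,k0,k0,k0],[k0,k0,k1,k1,k0,k0],[k0,k0,k1,k1,k1,k0],[k0,k0,
    k1,k0,k1,k0],[k0,k0,k1,k0,k0,k1],[k0,k0,k1,k0,k1,k1],[k0,k0,k0,k2,k0,k0],[k0,k0,k0,k1,k1,k0],[k0,k0,k0,k1,k0,k1],
    [k0,k0,k0,k0,k2,k0],[k0,k0,k0,k0,k1,k1],[k0,k0,k0,k0,k0,k2]]
    [.contra [z1],.ref (nat_lit 274) k0 [(z1,[z0,z0,z1]),(z1,[y1,z0,y1,z2])],.contra [y1,z1,z1],.ref k3 k1 [(z1,[y1,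
    z0,z0,z1])],.ref (nat_lit 233) k4 [(z1,[y1,z1,z2]),(z1,[z0,y1,y1,z1])],.ref k3 k4 [(z1,[y1,z0,z0,z1])],
    .ref (nat_lit 258) k9 [(z1,[z1])],.ref (nat_lit 265) k2 [(z1,[y1,z0,y2,z2]),(z1,[z0,z0,z1])],
    .ref (nat_lit 284) k1 [(z1,[y1,z0,y1,z1]),(z1,[z0,z1]),(z1,[z0,z0,z1])],.ref k2 k2 [(z1,[z1])],
    .ref (nat_lit 233) k4 [(z1,[y1,z0,z0,z1]),(z1,[z0,y1,y1,z1])],.ref k1 k2 [(z1,[z1])],.contra [z1,y1],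
    .ref k0 k2 [(z1,[z1])],.contra [z1],.ref k0 k9 [(z1,[z1])],.ref k3 k2 [(z1,[y1,z0,z0,z1])],
    .ref (nat_lit 279) k6 [(z1,[z2,z0,z1,y2]),(z1,[y1,z0,y1,z2])],.contra [y1,z0,z1],.contra [y1,z1,z1],
    .ref (nat_lit 282) k6 [(z1,[z2,z0,z1,y2]),(z1,[z1,y1,y1]),(z1,[y1,z0,z0,z1])],.ref (nat_lit 233) k4 [(z1,[z1]),
    (z1,[z0,y1,y1,z1])],.ref (nat_lit 258) k6 [(z1,[z1])],.ref k2 k2 [(z1,[y1,z0,z0,z1])],.ref k2 k2 [(z2,[y1,z0,y1,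
    z2])],.contra [z1],.contra [y1,y1,y1,z1],.ref k3 k4 [(z1,[z1])],.ref (nat_lit 258) k4 [(z1,[z1])],.contra [y1,y1,
    y1,z1],.ref (nat_lit 233) k4 [(z1,[z1,z1,z2,y1]),(z1,[z0,y1,y1,z1])],.contra [z1],.ref k0 k4 [(z1,[z1])],
    .contra [y1,y1,y1,z1],.contra [z1],.ref k0 k1 [(z1,[z1])],.contra [z1]]),
    .old (.lp [k162,k168,k162,k156,k160,k150] [k6,k0,k0,k0,k3,k3,k6,k6,k4,k4,k9,k9] k0 [[k0,k0,k0,k0,k0,k0,k0,k0,k2,k0,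
    k2],[k0,k0,k0,k6],[k6,k0,k0,k0,k6],[k0,k0,k0,k0,k0,k0,k0,k0,k0,k2],[k0,k0,k0,k0,k0,k0,k8],[k0,k0,k0,k6,k0,k0,k0,
    k0,k0,k0,k0,k8],[k0,k0,k0,k0,k0,k0,k0,k0,k12],[k0,k0,k0,k0,k0,k8,k0,k0,k0,k0,k0,k2],[k0,k0,k2,k0,k0,k0,k0,k0,k0,
    k0,k44],[k0,k2,k0,k0,k0,k0,k0,k12],[k0,k0,k0,k0,k8,k0,k2],[k0,k2,k0,k0,k0,k0,k0,k0,k0,k44]] (nat_lit 480) k5
    [[(k8,k120),(k10,k159),(k0,k160),(k6,k164),(k2,k168),(k4,k173)],[(k11,k151),(k7,k156),(k9,k158),(k1,k160),(k3,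
    k162),(k5,k165)],[(k10,k161),(k0,k162),(k2,k162),(k6,k162),(k4,k165),(k8,k166)],[(k7,k156),(k11,k161),(k3,k162),
    (k9,k164),(k5,k165),(k1,k168)],[(k10,k156),(k6,k159),(k8,k159),(k0,k165),(k2,k165),(k4,k168)],[(k9,k153),(k11,
    k156),(k7,k159),(k3,k165),(k5,k168),(k1,k173)],[(k10,k145),(k0,k156),(k2,k156),(k8,k158),(k4,k159),(k6,k164)],
    [(k11,k141),(k9,k158),(k5,k159),(k3,k162),(k1,k164),(k7,k164)],[(k4,k153),(k10,k153),(k0,k158),(k6,k158),(k2,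
    k164),(k8,k172)],[(k1,k120),(k11,k155),(k7,k158),(k5,k159),(k3,k166),(k9,k172)],[(k6,k141),(k0,k151),(k8,k155),
    (k4,k156),(k2,k161),(k10,k194)],[(k7,k145),(k9,k153),(k5,k156),(k1,k159),(k3,k161),(k11,k194)]]
    [] k0
    [[k2,k0,k0,k0,k0,k0],[k2,k0,k0,k0,k1,k0],[k2,k0,k0,k0,k0,k1],[k1,k1,k0,k0,k0,k0],[k1,k0,k1,k0,k0,k0],[k1,k0,k0,k1,
    k0,k0],[k1,k0,k0,k1,k0,k1],[k1,k0,k0,k0,k1,k0],[k1,k1,k0,k0,k1,k0],[k1,k0,k1,k0,k1,k0],[k1,k0,k0,k1,k1,k0],[k1,k0,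
    k0,k0,k2,k0],[k1,k0,k0,k0,k1,k1],[k1,k0,k0,k0,k0,k1],[k0,k2,k0,k0,k0,k0],[k0,k1,k1,k0,k0,k0],[k0,k1,k0,k1,k0,k0],
    [k0,k1,k0,k1,k0,k1],[k0,k1,k0,k0,k1,k0],[k0,k1,k0,k0,k0,k1],[k0,k0,k2,k0,k0,k0],[k0,k0,k1,k1,k0,k0],[k0,k0,k1,k1,
    k1,k0],[k0,k0,k1,k1,k0,k1],[k0,k0,k1,k0,k1,k0],[k0,k0,k1,k0,k1,k1],[k0,k0,k1,k0,k0,k1],[k0,k0,k0,k2,k0,k0],[k0,k0,
    k0,k2,k0,k1],[k0,k0,k0,k1,k1,k0],[k0,k0,k0,k1,k1,k1],[k0,k0,k0,k1,k0,k1],[k0,k0,k0,k0,k2,k0],[k0,k0,k0,k0,k1,k1],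
    [k0,k0,k0,k0,k0,k2]]
    [.contra [z1],.ref (nat_lit 285) k0 [(z1,[y1,z0,z1]),(z1,[z1])],.ref (nat_lit 279) k8 [(z1,[z1,y1,y2]),(z1,[y1,z1,
    z1,z1])],.ref k0 k6 [(z1,[z1])],.contra [y1,z0,y1,z1],.ref k1 k2 [(z1,[z1])],.ref (nat_lit 274) k4 [(z1,[z0,y1,y1,
    z1]),(z1,[z1,z0,y1,z1])],.ref (nat_lit 258) k2 [(z1,[z1])],.ref (nat_lit 233) k4 [(z1,[z0,z0,z1]),(z1,[y1,z0,z0,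
    z1])],.ref k2 k2 [(z1,[z1])],.ref (nat_lit 285) k6 [(z1,[y1,z1,z1]),(z1,[z0,y1,y1,z1])],
    .ref (nat_lit 279) k8 [(z1,[z1,z0,y2]),(z1,[y1,z0,z1,z1])],.ref k3 k2 [(z1,[z1])],.contra [z1,y1],.contra [z1],
    .ref k0 k9 [(z1,[z1])],.contra [y1,z0,z1],.ref k2 k2 [(z1,[y1,z0,z0,z1])],.contra [y1,z0,z1],
    .ref (nat_lit 258) k6 [(z1,[z1])],.contra [z1],.ref k0 k0 [(z1,[z1])],.ref k3 k4 [(z1,[z1])],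
    .ref (nat_lit 233) k4 [(z1,[z0,z0,z1]),(z1,[z1])],.contra [y1,y1,y1,z1],.ref k2 k2 [(z1,[y1,y1,y2,z2])],
    .contra [y1,z0,y1,z1],.contra [z1],.ref (nat_lit 285) k8 [(z1,[y1,z0,y1,z1]),(z1,[z1])],.contra [y1,z0,z1],
    .ref k3 k1 [(z1,[z1])],.ref (nat_lit 258) k1 [(z1,[z1])],.contra [z1],.ref k0 k1 [(z1,[z1])],.contra [z1]]),
    .old (.lp [k170,k160,k158,k158,k152,k160] [k0,k0,k5,k5,k6,k6,k6,k6,k9,k9,k8,k2] k0 [[k0,k0,k8,k0,k0,k0,k0,k0,k0,k0,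
    k8],[],[k0,k0,k0,k0,k6],[k0,k8,k0,k0,k0,k0,k0,k0,k0,k10],[k0,k0,k0,k0,k0,k0,k14],[k0,k0,k0,k6,k0,k0,k0,k0,k0,k2],
    [k0,k0,k0,k0,k0,k0,k0,k0,k42],[k0,k0,k0,k0,k0,k14,k0,k0,k0,k0,k0,k2],[k0,k0,k10,k0,k2],[k0,k0,k0,k0,k0,k0,k0,k42],
    [k0,k0,k0,k0,k0,k0,k2],[k0,k8]] (nat_lit 480) k5
    [[(k8,k161),(k0,k162),(k10,k162),(k4,k164),(k2,k165),(k6,k166)],[(k5,k156),(k9,k161),(k1,k162),(k7,k164),(k3,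
    k165),(k11,k168)],[(k8,k156),(k4,k159),(k6,k159),(k0,k165),(k10,k165),(k2,k168)],[(k7,k153),(k9,k156),(k5,k159),
    (k1,k165),(k3,k168),(k11,k173)],[(k8,k145),(k0,k156),(k10,k156),(k6,k158),(k2,k159),(k4,k164)],[(k9,k141),(k7,
    k158),(k3,k159),(k1,k164),(k5,k164),(k11,k164)],[(k2,k153),(k8,k153),(k10,k156),(k4,k158),(k0,k164),(k6,k172)],
    [(k11,k120),(k9,k155),(k5,k158),(k3,k159),(k1,k166),(k7,k172)],[(k4,k141),(k10,k151),(k6,k155),(k2,k156),(k0,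
    k161),(k8,k194)],[(k5,k145),(k7,k153),(k3,k156),(k11,k159),(k1,k161),(k9,k194)],[(k6,k120),(k8,k159),(k10,k160),
    (k4,k164),(k0,k168),(k2,k173)],[(k9,k151),(k5,k156),(k7,k156),(k11,k160),(k1,k162),(k3,k165)]]
    [] k0
    [[k2,k0,k0,k0,k0,k0],[k1,k1,k0,k0,k0,k0],[k1,k0,k1,k0,k0,k0],[k1,k0,k1,k0,k1,k0],[k1,k0,k0,k1,k0,k0],[k1,k0,k0,k0,
    k1,k0],[k1,k0,k0,k0,k0,k1],[k1,k0,k0,k1,k0,k1],[k0,k2,k0,k0,k0,k0],[k0,k1,k1,k0,k0,k0],[k0,k1,k1,k1,k0,k0],[k0,k1,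
    k1,k0,k1,k0],[k0,k1,k0,k1,k0,k0],[k0,k1,k0,k1,k1,k0],[k0,k1,k0,k0,k1,k0],[k0,k1,k0,k0,k0,k1],[k0,k1,k0,k1,k0,k1],
    [k0,k0,k2,k0,k0,k0],[k0,k0,k2,k0,k1,k0],[k0,k0,k1,k1,k0,k0],[k0,k0,k1,k1,k1,k0],[k0,k0,k1,k1,k0,k1],[k0,k0,k1,k0,
    k1,k0],[k0,k0,k1,k0,k1,k1],[k0,k0,k1,k0,k0,k1],[k0,k0,k0,k2,k0,k0],[k0,k0,k0,k2,k0,k1],[k0,k0,k0,k1,k1,k0],[k0,k0,
    k0,k1,k1,k1],[k0,k0,k0,k1,k0,k1],[k0,k0,k0,k1,k0,k2],[k0,k0,k0,k0,k2,k0],[k0,k0,k0,k0,k1,k1],[k0,k0,k0,k0,k1,k2],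
    [k0,k0,k0,k0,k0,k2]]
    [.contra [z1],.ref k0 k6 [(z1,[z1])],.ref (nat_lit 258) k9 [(z1,[z1])],.ref k2 k2 [(z1,[z1])],.ref k1 k2 [(z1,
    [z1])],.contra [y1,z1],.ref k0 k2 [(z1,[z1])],.ref (nat_lit 286) k9 [(z1,[y1,y1,z1]),(z1,[z1])],.contra [z1],
    .ref k0 k9 [(z1,[z1])],.ref k3 k2 [(z1,[y1,z0,z1])],.ref (nat_lit 286) k9 [(z1,[z1,y1]),(z1,[y1,z0,z1])],
    .ref (nat_lit 258) k0 [(z1,[z1])],.ref (nat_lit 285) k0 [(z1,[z1,y1]),(z1,[z0,z1])],.ref k1 k4 [(z1,[z1])],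
    .ref (nat_lit 258) k6 [(z1,[z1])],.ref k2 k2 [(z1,[y1,z0,z1])],.contra [z1],.ref k2 k2 [(z2,[z1,z1])],
    .ref k0 k0 [(z1,[z1])],.ref k3 k4 [(z1,[z1])],.ref (nat_lit 281) k8 [(z1,[z1,z1,y1]),(z1,[z1])],
    .ref (nat_lit 258) k4 [(z1,[z1])],.ref (nat_lit 279) k4 [(z1,[z2,z1,y2]),(z1,[y1,y1,z2])],.ref k1 k1 [(z1,[z1])],
    .contra [z1],.ref (nat_lit 274) k2 [(z1,[z0,z1]),(z1,[y1,y1,z2])],.ref k0 k4 [(z1,[z1])],.ref k3 k1 [(z1,[z1])],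
    .ref (nat_lit 258) k1 [(z1,[z1])],.ref (nat_lit 265) k0 [(z1,[y1,y2,z2]),(z1,[z0,z1])],.contra [z1],
    .ref k0 k1 [(z1,[z1])],.ref k3 k2 [(z2,[z1,z1])],.contra [z1]]),
    .old (.lp [k164,k160,k162,k152,k158,k162] [k0,k0,k2,k2,k1,k1,k6,k6,k3,k3,k1,k1] k0 [[k0,k0,k0,k0,k0,k0,k0,k0,k2],[k0,
    k0,k0,k0,k0,k2,k0,k24],[k0,k0,k0,k0,k20,k0,k0,k0,k0,k0,k28],[],[k2,k0,k0,k0,k0,k0,k22],[k0,k0,k0,k20,k0,k0,k0,k0,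
    k0,k4],[k24,k0,k0,k0,k0,k0,k0,k0,k24],[k0,k0,k0,k0,k0,k22,k0,k0,k0,k0,k0,k2],[k0,k0,k0,k0,k4],[k0,k2,k0,k0,k0,k0,
    k0,k24],[k0,k0,k0,k0,k0,k0,k2],[k0,k0,k0,k28]] (nat_lit 480) k5
    [[(k2,k134),(k6,k160),(k8,k161),(k4,k163),(k10,k163),(k0,k164)],[(k7,k160),(k11,k161),(k3,k162),(k5,k163),(k1,
    k164),(k9,k185)],[(k6,k132),(k4,k159),(k2,k160),(k8,k161),(k10,k161),(k0,k162)],[(k1,k134),(k7,k136),(k9,k159),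
    (k3,k160),(k5,k161),(k11,k161)],[(k6,k157),(k8,k160),(k2,k161),(k0,k163),(k4,k182),(k10,k190)],[(k9,k138),(k7,
    k157),(k3,k159),(k1,k163),(k11,k166),(k5,k182)],[(k2,k136),(k8,k151),(k4,k157),(k10,k157),(k0,k160),(k6,k174)],
    [(k3,k132),(k11,k133),(k9,k155),(k5,k157),(k1,k160),(k7,k174)],[(k4,k138),(k6,k155),(k10,k158),(k2,k159),(k8,
    k182),(k0,k185)],[(k7,k151),(k5,k160),(k11,k160),(k1,k161),(k3,k161),(k9,k182)],[(k6,k133),(k8,k160),(k0,k161),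
    (k2,k161),(k10,k162),(k4,k166)],[(k7,k157),(k9,k158),(k3,k161),(k11,k162),(k1,k163),(k5,k190)]]
    [] k0
    [[k2,k0,k0,k0,k0,k0],[k2,k1,k0,k0,k0,k0],[k1,k1,k0,k0,k0,k0],[k1,k2,k0,k0,k0,k0],[k1,k1,k1,k0,k0,k0],[k1,k1,k0,k1,
    k0,k0],[k1,k1,k0,k0,k0,k1],[k1,k0,k1,k0,k0,k0],[k1,k0,k0,k1,k0,k0],[k1,k0,k0,k1,k0,k1],[k1,k0,k0,k0,k1,k0],[k1,k0,
    k1,k0,k1,k0],[k1,k0,k0,k1,k1,k0],[k1,k0,k0,k0,k0,k1],[k0,k2,k0,k0,k0,k0],[k0,k2,k0,k1,k0,k0],[k0,k1,k1,k0,k0,k0],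
    [k0,k1,k1,k1,k0,k0],[k0,k1,k1,k0,k1,k0],[k0,k1,k0,k1,k0,k0],[k0,k1,k0,k2,k0,k0],[k0,k1,k0,k1,k1,k0],[k0,k1,k0,k1,
    k0,k1],[k0,k1,k0,k0,k1,k0],[k0,k1,k0,k0,k0,k1],[k0,k0,k2,k0,k0,k0],[k0,k0,k1,k1,k0,k0],[k0,k0,k1,k1,k1,k0],[k0,k0,
    k1,k0,k1,k0],[k0,k0,k1,k0,k0,k1],[k0,k0,k0,k2,k0,k0],[k0,k0,k0,k2,k0,k1],[k0,k0,k0,k1,k1,k0],[k0,k0,k0,k1,k1,k1],
    [k0,k0,k0,k1,k0,k1],[k0,k0,k0,k1,k0,k2],[k0,k0,k0,k0,k2,k0],[k0,k0,k0,k0,k1,k1],[k0,k0,k0,k0,k0,k2]]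
    [.contra [z1],.ref k3 k4 [(z1,[y1,z1,z0,z1])],.contra [y1,z1,z1],.ref (nat_lit 287) k6 [(z1,[z1,y1])],
    .ref k3 k1 [(z1,[y1,z0,z0,z1])],.ref k2 k2 [(z1,[y1,z1,z0,z1])],.ref k3 k4 [(z1,[y1,z0,z0,z1])],.contra [y1,z0,y1,
    z1],.contra [y1,z0,y1,z1],.ref (nat_lit 287) k1 [(z1,[z1,y1])],.contra [y1,z1,z1],.ref k2 k2 [(z1,[z1])],
    .ref k3 k1 [(z1,[z1,y1])],.contra [z1,z1],.contra [z1],.ref (nat_lit 287) k10 [(z1,[z1])],.ref k0 k9 [(z1,[z1])],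
    .ref k3 k2 [(z1,[y1,z0,z0,z1])],.ref (nat_lit 287) k1 [(z1,[y1,y1,z0,z1])],.ref (nat_lit 258) k0 [(z1,[z1])],
    .ref (nat_lit 287) k0 [(z1,[z1])],.ref (nat_lit 287) k8 [(z1,[y1,z1,z0,z1])],.ref k2 k2 [(z1,[y1,z0,z0,z1])],
    .contra [y1,z1,z1],.contra [y1,z0,z1],.contra [z1],.contra [y1,z0,y1,z1],.ref k3 k4 [(z1,[z1])],
    .ref (nat_lit 258) k4 [(z1,[z1])],.contra [y1,y1,y1,z1],.contra [z1],.ref (nat_lit 287) k9 [(z1,[y1,y1,y2,z2])],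
    .ref k0 k4 [(z1,[z1])],.ref k3 k1 [(z1,[z1])],.contra [y1,y1,y1,z1],.ref (nat_lit 287) k1 [(z1,[z1])],
    .contra [z1],.contra [y1,z0,z1],.contra [z1,z2]]),
    .old (.lp [k80,k76,k78,k82,k82,k80] [k1,k1,k3,k3,k2,k2,k0,k0,k0,k0,k1,k1] k0 [[k0,k0,k14,k0,k4],[k0,k0,k0,k0,k0,k0,k0,
    k4,k0,k0,k0,k18],[k0,k0,k0,k0,k4,k0,k0,k0,k0,k0,k2],[k0,k14,k0,k0,k0,k0,k0,k2],[k0,k0,k0,k0,k0,k0,k0,k0,k0,k0,k2],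
    [k0,k4,k0,k4],[k4,k0,k2],[k0,k0,k0,k0,k0,k0,k0,k0,k0,k2],[k0,k0,k0,k0,k0,k0,k2],[],[k18],[k0,k0,k0,k2,k0,
    k2]] (nat_lit 240) k5
    [[(k2,k76),(k4,k77),(k10,k80),(k6,k81),(k8,k81),(k0,k98)],[(k5,k65),(k7,k77),(k3,k78),(k11,k80),(k9,k85),(k1,
    k98)],[(k10,k60),(k6,k75),(k0,k78),(k8,k79),(k4,k81),(k2,k90)],[(k7,k75),(k1,k76),(k5,k77),(k11,k78),(k9,k81),(k3,
    k90)],[(k0,k65),(k2,k77),(k6,k78),(k8,k80),(k10,k81),(k4,k82)],[(k1,k77),(k11,k79),(k7,k80),(k9,k80),(k3,k81),(k5,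
    k82)],[(k2,k75),(k0,k77),(k4,k80),(k6,k82),(k8,k82),(k10,k83)],[(k3,k75),(k5,k78),(k1,k81),(k7,k82),(k9,k82),(k11,
    k83)],[(k4,k80),(k8,k80),(k2,k81),(k10,k81),(k6,k82),(k0,k85)],[(k3,k79),(k5,k80),(k9,k80),(k1,k81),(k11,k81),(k7,
    k82)],[(k2,k78),(k4,k79),(k0,k80),(k10,k80),(k8,k81),(k6,k83)],[(k3,k60),(k1,k80),(k11,k80),(k5,k81),(k9,k81),(k7,
    k83)]]
    [] k0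
    [[k2,k0,k0,k0,k0,k0],[k1,k1,k0,k0,k0,k0],[k1,k1,k1,k0,k0,k0],[k1,k1,k0,k1,k0,k0],[k1,k1,k0,k0,k0,k1],[k1,k0,k1,k0,
    k0,k0],[k1,k0,k2,k0,k0,k0],[k1,k0,k1,k1,k0,k0],[k1,k0,k1,k0,k0,k1],[k1,k0,k0,k1,k0,k0],[k1,k0,k0,k0,k1,k0],[k1,k0,
    k1,k0,k1,k0],[k1,k0,k0,k0,k0,k1],[k0,k2,k0,k0,k0,k0],[k0,k2,k0,k0,k0,k1],[k0,k1,k1,k0,k0,k0],[k0,k1,k1,k1,k0,k0],
    [k0,k1,k0,k1,k0,k0],[k0,k1,k0,k2,k0,k0],[k0,k1,k0,k1,k1,k0],[k0,k1,k0,k1,k0,k1],[k0,k1,k0,k0,k1,k0],[k0,k1,k1,k0,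
    k1,k0],[k0,k1,k0,k0,k1,k1],[k0,k1,k0,k0,k0,k1],[k0,k1,k1,k0,k0,k1],[k0,k1,k0,k0,k0,k2],[k0,k0,k2,k0,k0,k0],[k0,k0,
    k1,k1,k0,k0],[k0,k0,k1,k0,k1,k0],[k0,k0,k1,k0,k0,k1],[k0,k0,k0,k2,k0,k0],[k0,k0,k0,k1,k1,k0],[k0,k0,k0,k1,k0,k1],
    [k0,k0,k0,k0,k2,k0],[k0,k0,k0,k0,k1,k1],[k0,k0,k0,k0,k0,k2]]
    [.contra [z1],.contra [y1,z2,z1],.ref k3 k1 [(z1,[y1,z0,z0,z1])],.ref (nat_lit 287) k0 [(z1,[z2,y2,y1])],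
    .ref k3 k4 [(z1,[y1,z0,z0,z1])],.ref (nat_lit 258) k4 [(z1,[z1,y1])],.ref (nat_lit 287) k9 [(z1,[z1])],
    .ref k3 k4 [(z1,[z1,y1])],.ref (nat_lit 287) k0 [(z1,[y2,z0,y1,z2])],.ref k0 k4 [(z1,[z1,y1])],.contra [z1,z1],
    .ref k2 k2 [(z1,[z1])],.ref k0 k2 [(z1,[z1])],.contra [z1],.ref (nat_lit 287) k6 [(z1,[z1])],.ref k0 k9 [(z1,
    [z1])],.ref k3 k2 [(z1,[y1,z0,z0,z1])],.ref (nat_lit 258) k0 [(z1,[z1])],.ref (nat_lit 287) k0 [(z1,[z1])],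
    .ref (nat_lit 287) k0 [(z1,[z2,z0,y1])],.ref k2 k2 [(z1,[y1,z0,z0,z1])],.contra [y1,z1,z1],.ref k3 k1 [(z1,[y1,y1,
    z0,z1])],.ref k3 k4 [(z1,[y1,y1,z0,z1])],.ref (nat_lit 258) k6 [(z1,[z1])],.ref (nat_lit 277) k0 [(z1,[y1,y1,y1,
    z1]),(z1,[z0,z0,z1]),(z1,[z1])],.ref k3 k4 [(z2,[y1,y2,y1,z2])],.contra [z1],.contra [y1,y1,y1,z1],
    .ref (nat_lit 258) k4 [(z1,[z1])],.contra [y1,y1,y1,z1],.contra [z1],.ref k0 k4 [(z1,[z1])],.contra [y1,y1,y1,z1],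
    .contra [z1,z2],.ref k0 k2 [(z1,[z1,z1])],.contra [z1]])]

/-- the nodes with numbers from 256 -/
noncomputable def cU6_3_n4 : List XN :=
  cU6_3_n4_0 ++ (cU6_3_n4_1 ++ cU6_3_n4_2)

theorem cU6_3_k4 : allI (chkX 6 cU6_3_w ttU6 cU6_3_s (blkF [] cU6_3_D)) cU6_3_n4 256 = true := by
  decide +kernel

end Pool.Agent.Lib_MP_fa6e45
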