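import Pool.Agent.Lib_MP_fa6e45.CY6_2d

/-!
MP_fa6e45_co, stage 7: certificates (generated by a program).
-/

namespace Pool.Agent.Lib_MP_fa6e45

noncomputable def cU6_3_n5_0 : List XN :=
  [.old (.lp [k158,k160,k170,k160,k152,k158] [k6,k6,k5,k5,k0,k0,k5,k5,k9,k9,k9,k3] k0 [[k0,k0,k8,k0,k0,k0,k10],[k0,k0,k0,
    k0,k0,k0,k0,k0,k0,k0,k0,k6],[],[k0,k8,k0,k0,k0,k8],[k0,k0,k8],[k0,k0,k0,k0,k0,k0,k0,k0,k0,k2],[k0,k0,k0,k0,k0,k0,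
    k0,k0,k42],[k0,k10,k0,k0,k0,k0,k0,k0,k0,k0,k0,k2],[k0,k0,k0,k0,k2,k0,k0,k0,k0,k0,k14],[k0,k0,k0,k0,k0,k0,k0,k42],
    [k6,k0,k0,k0,k0,k0,k2],[k0,k0,k0,k0,k0,k0,k0,k0,k0,k14]] (nat_lit 480) k5
    [[(k8,k141),(k10,k155),(k2,k159),(k6,k161),(k0,k164),(k4,k164)],[(k9,k145),(k5,k156),(k3,k159),(k7,k159),(k11,
    k161),(k1,k164)],[(k10,k150),(k8,k156),(k0,k159),(k4,k165),(k2,k168),(k6,k170)],[(k9,k156),(k1,k159),(k11,k162),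
    (k5,k165),(k3,k168),(k7,k168)],[(k0,k156),(k8,k161),(k10,k161),(k4,k162),(k2,k165),(k6,k165)],[(k9,k161),(k5,
    k162),(k1,k164),(k3,k165),(k7,k165),(k11,k169)],[(k8,k154),(k10,k156),(k0,k159),(k6,k160),(k4,k165),(k2,k168)],
    [(k11,k120),(k9,k156),(k7,k160),(k1,k161),(k5,k165),(k3,k170)],[(k0,k145),(k10,k150),(k2,k156),(k6,k156),(k4,
    k161),(k8,k194)],[(k1,k141),(k7,k154),(k3,k156),(k11,k158),(k5,k161),(k9,k194)],[(k6,k120),(k8,k158),(k0,k161),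
    (k2,k162),(k4,k169),(k10,k172)],[(k3,k150),(k9,k150),(k1,k155),(k7,k156),(k5,k161),(k11,k172)]]
    [] k0
    [[k2,k0,k0,k0,k0,k0],[k2,k0,k0,k0,k1,k0],[k1,k1,k0,k0,k0,k0],[k1,k1,k0,k0,k1,k0],[k1,k1,k0,k0,k0,k1],[k1,k0,k1,k0,
    k0,k0],[k1,k0,k1,k0,k1,k0],[k1,k0,k0,k1,k0,k0],[k1,k0,k0,k1,k1,k0],[k1,k0,k0,k1,k0,k1],[k1,k0,k0,k0,k1,k0],[k1,k0,
    k0,k0,k1,k1],[k1,k0,k0,k0,k0,k1],[k0,k2,k0,k0,k0,k0],[k0,k1,k1,k0,k0,k0],[k0,k1,k0,k1,k0,k0],[k0,k1,k0,k0,k1,k0],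
    [k0,k1,k0,k0,k1,k1],[k0,k1,k0,k0,k0,k1],[k0,k1,k0,k1,k0,k1],[k0,k0,k2,k0,k0,k0],[k0,k0,k1,k1,k0,k0],[k0,k0,k1,k0,
    k1,k0],[k0,k0,k1,k0,k0,k1],[k0,k0,k1,k1,k0,k1],[k0,k0,k0,k2,k0,k0],[k0,k0,k0,k2,k1,k0],[k0,k0,k0,k2,k0,k1],[k0,k0,
    k0,k1,k1,k0],[k0,k0,k0,k1,k1,k1],[k0,k0,k0,k1,k0,k1],[k0,k0,k0,k1,k0,k2],[k0,k0,k0,k0,k2,k0],[k0,k0,k0,k0,k1,k1],
    [k0,k0,k0,k0,k0,k2]]
    [.contra [z1],.ref (nat_lit 287) k2 [(z1,[z1])],.contra [y1,z1,z1],.ref (nat_lit 287) k0 [(z1,[y1,z1,z2])],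
    .ref k3 k4 [(z1,[y1,z0,z0,z1])],.contra [y1,z0,y1,z1],.ref k2 k2 [(z1,[z1])],.contra [y1,z1,z1],
    .ref (nat_lit 287) k10 [(z1,[y1,z1,z2])],.ref k3 k1 [(z1,[z1,y1])],.contra [z1,z1],.ref k3 k2 [(z1,[z1])],
    .contra [y1,z0,y1,z1],.contra [z1],.ref k0 k9 [(z1,[z1])],.contra [y1,z1,z1],.contra [y1,z0,z1],.ref k3 k4 [(z1,
    [y1,y1,z0,z1])],.ref (nat_lit 258) k6 [(z1,[z1])],.ref k2 k2 [(z1,[y1,z0,z0,z1])],.contra [z1],.ref k0 k0 [(z1,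
    [z1])],.contra [y1,y1,y1,z1],.contra [y1,z0,y1,z1],.ref (nat_lit 287) k0 [(z1,[z1,z1,z2,y1])],.contra [z1],
    .ref (nat_lit 289) k0 [(z1,[z1,z0,y1]),(z1,[y1,z0,z2])],.ref (nat_lit 287) k7 [(z1,[z1])],.contra [y1,z0,z1],
    .ref k3 k1 [(z1,[z1])],.ref (nat_lit 258) k1 [(z1,[z1])],.ref (nat_lit 287) k1 [(z1,[z1])],.contra [z1,z2],
    .contra [y1,y1,y1,z1],.contra [z1]]),
    .old (.lp [k162,k148,k162,k168,k164,k154] [k3,k3,k10,k10,k3,k3,k0,k0,k2,k2,k7,k7] k0 [[k0,k0,k24,k0,k0,k0,k4],[k0,k0,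
    k0,k0,k0,k0,k0,k0,k0,k0,k0,k18],[k0,k0,k0,k0,k0,k0,k0,k0,k6,k0,k2],[k0,k24,k0,k0,k0,k2],[k0,k0,k2],[k0,k0,k0,k0,
    k0,k0,k0,k6,k0,k2],[k0,k0,k0,k0,k6,k0,k0,k0,k4],[k0,k4],[k0,k0,k0,k0,k2,k0,k0,k0,k0,k0,k10],[k0,k0,k0,k6,k0,k0,k0,
    k4],[k18],[k0,k0,k0,k2,k0,k0,k0,k0,k0,k10]] (nat_lit 480) k5
    [[(k2,k153),(k8,k153),(k10,k158),(k4,k162),(k6,k165),(k0,k180)],[(k5,k138),(k3,k155),(k11,k158),(k9,k159),(k7,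
    k165),(k1,k180)],[(k10,k133),(k0,k155),(k4,k155),(k8,k156),(k6,k162),(k2,k172)],[(k11,k145),(k1,k153),(k5,k155),
    (k9,k156),(k7,k160),(k3,k172)],[(k0,k138),(k2,k155),(k4,k160),(k10,k160),(k6,k165),(k8,k169)],[(k3,k155),(k5,
    k160),(k11,k160),(k1,k162),(k7,k165),(k9,k169)],[(k2,k160),(k10,k161),(k6,k162),(k8,k164),(k0,k165),(k4,k165)],
    [(k11,k157),(k3,k162),(k7,k162),(k1,k165),(k5,k165),(k9,k166)],[(k2,k156),(k0,k159),(k10,k159),(k6,k166),(k8,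
    k168),(k4,k169)],[(k1,k153),(k3,k156),(k11,k159),(k7,k164),(k9,k168),(k5,k169)],[(k2,k145),(k6,k157),(k0,k158),
    (k8,k159),(k4,k160),(k10,k164)],[(k3,k133),(k1,k158),(k9,k159),(k5,k160),(k7,k161),(k11,k164)]]
    [] k0
    [[k2,k0,k0,k0,k0,k0],[k1,k1,k0,k0,k0,k0],[k1,k1,k1,k0,k0,k0],[k1,k1,k0,k0,k1,k0],[k1,k1,k0,k0,k0,k1],[k1,k0,k1,k0,
    k0,k0],[k1,k0,k2,k0,k0,k0],[k1,k0,k0,k1,k0,k0],[k1,k0,k1,k1,k0,k0],[k1,k0,k0,k0,k1,k0],[k1,k0,k1,k0,k1,k0],[k1,k0,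
    k0,k0,k1,k1],[k1,k0,k0,k0,k0,k1],[k1,k0,k1,k0,k0,k1],[k0,k2,k0,k0,k0,k0],[k0,k2,k0,k0,k0,k1],[k0,k1,k1,k0,k0,k0],
    [k0,k1,k2,k0,k0,k0],[k0,k1,k1,k0,k0,k1],[k0,k1,k0,k1,k0,k0],[k0,k1,k0,k1,k0,k1],[k0,k1,k0,k0,k1,k0],[k0,k1,k0,k0,
    k1,k1],[k0,k1,k0,k0,k0,k1],[k0,k1,k0,k0,k0,k2],[k0,k0,k2,k0,k0,k0],[k0,k0,k1,k1,k0,k0],[k0,k0,k1,k0,k1,k0],[k0,k0,
    k1,k0,k0,k1],[k0,k0,k0,k2,k0,k0],[k0,k0,k0,k1,k1,k0],[k0,k0,k0,k1,k0,k1],[k0,k0,k0,k0,k2,k0],[k0,k0,k0,k0,k1,k1],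
    [k0,k0,k0,k0,k0,k2]]
    [.contra [z1],.ref k0 k6 [(z1,[z1])],.ref k3 k1 [(z1,[y1,z0,z1])],.ref (nat_lit 290) k9 [(z1,[y1,y1,z1]),(z1,[z0,
    z1])],.ref k3 k4 [(z1,[y1,z0,z1])],.ref (nat_lit 258) k9 [(z1,[z1])],.ref (nat_lit 287) k9 [(z1,[z1])],
    .contra [y1,z1],.ref (nat_lit 233) k0 [(z1,[z1]),(z1,[z0,y1,z1])],.ref (nat_lit 258) k2 [(z1,[z1])],
    .ref k2 k2 [(z1,[z1])],.ref k3 k2 [(z1,[z1])],.contra [y1,z1],.ref (nat_lit 288) k3 [(z1,[z1,y1]),(z1,[y1,z0,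
    z1])],.contra [z1],.ref (nat_lit 287) k6 [(z1,[z1])],.contra [y1,y1,z1],.ref (nat_lit 289) k3 [(z1,[z1,z1,y1]),
    (z1,[y1,y2,z2])],.ref (nat_lit 288) k5 [(z1,[y1,y1,z1]),(z1,[z0,z1])],.ref (nat_lit 258) k0 [(z1,[z1])],
    .ref k2 k2 [(z1,[y1,z0,z1])],.contra [y1,y1,z1],.ref (nat_lit 233) k0 [(z1,[y1,z0,z1]),(z1,[z0,y1,z1])],
    .ref (nat_lit 258) k6 [(z1,[z1])],.ref (nat_lit 287) k11 [(z1,[z1])],.contra [z1],.ref k0 k0 [(z1,[z1])],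
    .contra [y1,y1,z1],.ref k1 k1 [(z1,[z1])],.contra [z1],.ref k0 k4 [(z1,[z1])],.contra [y1,z1],.contra [z1],
    .ref k0 k1 [(z1,[z1])],.contra [z1]]),
    .old (.lp [k160,k150,k162,k168,k162,k156] [k4,k4,k9,k9,k6,k0,k0,k0,k3,k3,k6,k6] k0 [[k0,k0,k44,k0,k0,k0,k2],[k0,k0,k0,
    k0,k0,k2,k0,k0,k0,k0,k0,k12],[k0,k0,k0,k0,k0,k0,k0,k0,k8,k0,k2],[k0,k44,k0,k0,k0,k2],[k2,k0,k2],[k0,k0,k0,k0,k0,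
    k0,k0,k6],[k0,k0,k0,k0,k6,k0,k0,k0,k6],[k0,k2],[k0,k0,k0,k0,k0,k0,k0,k0,k0,k0,k8],[k0,k0,k0,k8,k0,k0,k0,k6],[k12],
    [k0,k0,k0,k2,k0,k0,k0,k0,k0,k8]] (nat_lit 480) k5
    [[(k2,k153),(k8,k153),(k4,k158),(k10,k158),(k6,k164),(k0,k172)],[(k5,k120),(k3,k155),(k11,k158),(k9,k159),(k7,
    k166),(k1,k172)],[(k10,k141),(k4,k151),(k0,k155),(k8,k156),(k6,k161),(k2,k194)],[(k11,k145),(k1,k153),(k9,k156),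
    (k5,k159),(k7,k161),(k3,k194)],[(k0,k120),(k2,k159),(k4,k160),(k10,k164),(k6,k168),(k8,k173)],[(k3,k151),(k11,
    k156),(k1,k158),(k5,k160),(k7,k162),(k9,k165)],[(k2,k161),(k4,k162),(k6,k162),(k10,k162),(k8,k165),(k0,k166)],
    [(k11,k156),(k3,k161),(k7,k162),(k1,k164),(k9,k165),(k5,k168)],[(k2,k156),(k0,k159),(k10,k159),(k4,k165),(k6,
    k165),(k8,k168)],[(k1,k153),(k3,k156),(k11,k159),(k7,k165),(k9,k168),(k5,k173)],[(k2,k145),(k4,k156),(k6,k156),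
    (k0,k158),(k8,k159),(k10,k164)],[(k3,k141),(k1,k158),(k9,k159),(k7,k162),(k5,k164),(k11,k164)]]
    [] k0
    [[k2,k0,k0,k0,k0,k0],[k2,k0,k1,k0,k0,k0],[k1,k1,k0,k0,k0,k0],[k1,k1,k1,k0,k0,k0],[k1,k1,k0,k0,k1,k0],[k1,k1,k0,k0,
    k0,k1],[k1,k0,k1,k0,k0,k0],[k1,k0,k2,k0,k0,k0],[k1,k0,k0,k1,k0,k0],[k1,k0,k1,k1,k0,k0],[k1,k0,k0,k0,k1,k0],[k1,k0,
    k1,k0,k1,k0],[k1,k0,k0,k0,k1,k1],[k1,k0,k0,k0,k0,k1],[k1,k0,k1,k0,k0,k1],[k0,k2,k0,k0,k0,k0],[k0,k1,k1,k0,k0,k0],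
    [k0,k1,k2,k0,k0,k0],[k0,k1,k1,k0,k0,k1],[k0,k1,k0,k1,k0,k0],[k0,k1,k0,k1,k0,k1],[k0,k1,k0,k0,k1,k0],[k0,k1,k0,k0,
    k1,k1],[k0,k1,k0,k0,k0,k1],[k0,k1,k0,k0,k0,k2],[k0,k0,k2,k0,k0,k0],[k0,k0,k1,k1,k0,k0],[k0,k0,k1,k0,k1,k0],[k0,k0,
    k1,k0,k0,k1],[k0,k0,k0,k2,k0,k0],[k0,k0,k0,k1,k1,k0],[k0,k0,k0,k1,k0,k1],[k0,k0,k0,k0,k2,k0],[k0,k0,k0,k0,k1,k1],
    [k0,k0,k0,k0,k0,k2]]
    [.contra [z1],.ref (nat_lit 287) k8 [(z1,[z1])],.contra [y1,z1,z1],.ref k3 k1 [(z1,[y1,z0,z1])],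
    .ref (nat_lit 291) k6 [(z1,[z1])],.ref k3 k4 [(z1,[y1,z0,z1])],.ref (nat_lit 258) k9 [(z1,[z1])],
    .ref (nat_lit 287) k9 [(z1,[z1])],.ref k1 k2 [(z1,[z1])],.ref (nat_lit 291) k0 [(z1,[z1])],
    .ref (nat_lit 258) k2 [(z1,[z1])],.ref k2 k2 [(z1,[z1])],.ref k3 k2 [(z1,[z1])],.ref k0 k2 [(z1,[z1])],
    .ref (nat_lit 291) k4 [(z1,[y1,z0,z1])],.contra [z1],.ref k0 k9 [(z1,[z1])],.ref k3 k1 [(z2,[y1,y1,z1])],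
    .ref (nat_lit 291) k9 [(z1,[z1])],.ref (nat_lit 258) k0 [(z1,[z1])],.ref k2 k2 [(z1,[y1,z0,z1])],.ref k1 k4 [(z1,
    [z1])],.ref (nat_lit 291) k0 [(z1,[y1,z0,z1])],.ref (nat_lit 258) k6 [(z1,[z1])],.ref k3 k4 [(z2,[y1,y1,z1])],
    .contra [z1],.ref k0 k0 [(z1,[z1])],.ref (nat_lit 258) k4 [(z1,[z1])],.ref k1 k1 [(z1,[z1])],.contra [z1],
    .ref k0 k4 [(z1,[z1])],.ref (nat_lit 258) k1 [(z1,[z1])],.contra [z1],.ref k0 k1 [(z1,[z1])],.contra [z1]]),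
    .old (.lp [k162,k148,k162,k168,k164,k154] [k3,k3,k10,k10,k3,k3,k0,k0,k2,k2,k7,k7] k0 [[k0,k0,k24,k0,k0,k0,k4],[k0,k0,
    k0,k0,k0,k0,k0,k0,k0,k0,k0,k18],[k0,k0,k0,k0,k0,k0,k0,k0,k6,k0,k2],[k0,k24,k0,k0,k0,k2],[k0,k0,k2],[k0,k0,k0,k0,
    k0,k0,k0,k6,k0,k2],[k0,k0,k0,k0,k6,k0,k0,k0,k4],[k0,k4],[k0,k0,k0,k0,k2,k0,k0,k0,k0,k0,k10],[k0,k0,k0,k6,k0,k0,k0,
    k4],[k18],[k0,k0,k0,k2,k0,k0,k0,k0,k0,k10]] (nat_lit 480) k5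
    [[(k2,k153),(k8,k153),(k10,k158),(k4,k162),(k6,k165),(k0,k180)],[(k5,k138),(k3,k155),(k11,k158),(k9,k159),(k7,
    k165),(k1,k180)],[(k10,k133),(k0,k155),(k4,k155),(k8,k156),(k6,k162),(k2,k172)],[(k11,k145),(k1,k153),(k5,k155),
    (k9,k156),(k7,k160),(k3,k172)],[(k0,k138),(k2,k155),(k4,k160),(k10,k160),(k6,k165),(k8,k169)],[(k3,k155),(k5,
    k160),(k11,k160),(k1,k162),(k7,k165),(k9,k169)],[(k2,k160),(k10,k161),(k6,k162),(k8,k164),(k0,k165),(k4,k165)],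
    [(k11,k157),(k3,k162),(k7,k162),(k1,k165),(k5,k165),(k9,k166)],[(k2,k156),(k0,k159),(k10,k159),(k6,k166),(k8,
    k168),(k4,k169)],[(k1,k153),(k3,k156),(k11,k159),(k7,k164),(k9,k168),(k5,k169)],[(k2,k145),(k6,k157),(k0,k158),
    (k8,k159),(k4,k160),(k10,k164)],[(k3,k133),(k1,k158),(k9,k159),(k5,k160),(k7,k161),(k11,k164)]]
    [] k0
    [[k2,k0,k0,k0,k0,k0],[k1,k1,k0,k0,k0,k0],[k1,k1,k1,k0,k0,k0],[k1,k1,k0,k0,k1,k0],[k1,k1,k0,k0,k0,k1],[k1,k0,k1,k0,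
    k0,k0],[k1,k0,k2,k0,k0,k0],[k1,k0,k0,k1,k0,k0],[k1,k0,k1,k1,k0,k0],[k1,k0,k0,k0,k1,k0],[k1,k0,k1,k0,k1,k0],[k1,k0,
    k0,k0,k1,k1],[k1,k0,k0,k0,k0,k1],[k1,k0,k1,k0,k0,k1],[k0,k2,k0,k0,k0,k0],[k0,k2,k0,k0,k0,k1],[k0,k1,k1,k0,k0,k0],
    [k0,k1,k2,k0,k0,k0],[k0,k1,k1,k0,k0,k1],[k0,k1,k0,k1,k0,k0],[k0,k1,k0,k1,k0,k1],[k0,k1,k0,k0,k1,k0],[k0,k1,k0,k0,
    k1,k1],[k0,k1,k0,k0,k0,k1],[k0,k1,k0,k0,k0,k2],[k0,k0,k2,k0,k0,k0],[k0,k0,k1,k1,k0,k0],[k0,k0,k1,k0,k1,k0],[k0,k0,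
    k1,k0,k0,k1],[k0,k0,k0,k2,k0,k0],[k0,k0,k0,k1,k1,k0],[k0,k0,k0,k1,k0,k1],[k0,k0,k0,k0,k2,k0],[k0,k0,k0,k0,k1,k1],
    [k0,k0,k0,k0,k0,k2]]
    [.contra [z1],.ref k0 k6 [(z1,[z1])],.ref k3 k1 [(z1,[y1,z1])],.ref (nat_lit 291) k6 [(z1,[z1])],.ref k3 k4 [(z1,
    [y1,z1])],.ref (nat_lit 258) k9 [(z1,[z1])],.ref (nat_lit 287) k9 [(z1,[z1])],.ref k1 k2 [(z1,[z1])],
    .ref (nat_lit 291) k0 [(z1,[z1])],.ref (nat_lit 258) k2 [(z1,[z1])],.ref k2 k2 [(z1,[z1])],.ref k3 k2 [(z1,[z1])],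
    .ref k0 k2 [(z1,[z1])],.ref (nat_lit 291) k4 [(z1,[y1,z1])],.contra [z1],.ref (nat_lit 287) k6 [(z1,[z1])],
    .ref k0 k9 [(z1,[z1])],.ref (nat_lit 292) k3 [(z1,[z1,y1])],.ref (nat_lit 291) k9 [(z1,[z1])],
    .ref (nat_lit 258) k0 [(z1,[z1])],.ref k2 k2 [(z1,[y1,z1])],.ref k1 k4 [(z1,[z1])],.ref (nat_lit 291) k0 [(z1,[y1,
    z1])],.ref (nat_lit 258) k6 [(z1,[z1])],.ref (nat_lit 287) k11 [(z1,[z1])],.contra [z1],.ref k0 k0 [(z1,[z1])],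
    .ref (nat_lit 258) k4 [(z1,[z1])],.ref k1 k1 [(z1,[z1])],.contra [z1],.ref k0 k4 [(z1,[z1])],
    .ref (nat_lit 258) k1 [(z1,[z1])],.contra [z1],.ref k0 k1 [(z1,[z1])],.contra [z1]])]

/-- the nodes with numbers from 290 -/
noncomputable def cU6_3_n5 : List XN :=
  cU6_3_n5_0

theorem cU6_3_k5 : allI (chkX 6 cU6_3_w ttU6 cU6_3_s (blkF [] cU6_3_D)) cU6_3_n5 290 = true := by
  decide +kernel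

end Pool.Agent.Lib_MP_fa6e45
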