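import Pool.Agent.Lib_MP_fa6e45.CXA
import Pool.Agent.Lib_MP_fa6e45.CY6_2_0
import Pool.Agent.Lib_MP_fa6e45.CY6_2_1
import Pool.Agent.Lib_MP_fa6e45.CY6_2_2
import Pool.Agent.Lib_MP_fa6e45.CY6_2_3
import Pool.Agent.Lib_MP_fa6e45.CY6_2_4
import Pool.Agent.Lib_MP_fa6e45.CY6_2_5

/-!
MP_fa6e45_co, stage 7: certificates (generated by a program).
-/

namespace Pool.Agent.Lib_MP_fa6e45

/-- the certificate -/
noncomputable def cU6_3 : CertX :=
  ⟨cU6_3_w, cU6_3_s, cU6_3_D,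
    cU6_3_n0 ++ (cU6_3_n1 ++ (cU6_3_n2 ++ (cU6_3_n3 ++ (cU6_3_n4 ++ cU6_3_n5))))⟩

theorem cU6_3_ok : chkE 6 ttU6 cU6_3 = true := by
  refine chkE_of (by decide +kernel) (by decide +kernel) ?_
  refine allI_appX (k := 92) cU6_3_k0 (by decide +kernel) ?_
  refine allI_appX (k := 162) cU6_3_k1 (by decide +kernel) ?_
  refine allI_appX (k := 212) cU6_3_k2 (by decide +kernel) ?_
  refine allI_appX (k := 256) cU6_3_k3 (by decide +kernel) ?_
  refine allI_appX (k := 290) cU6_3_k4 (by decide +kernel) ?_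
  exact cU6_3_k5

/-- the certificates of this file -/
noncomputable def lU6_2 : List CertX := [cU6_3]

theorem gU6_2 : allF (chkE 6 ttU6) lU6_2 = true := by
  unfold lU6_2
  change (bif chkE 6 ttU6 cU6_3 then true else false) = true
  rw [cU6_3_ok]
  rfl

end Pool.Agent.Lib_MP_fa6e45
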