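import Pool.Agent.Lib_MP_fa6e45.CXT
import Pool.Agent.Lib_MP_fa6e45.HK

/-!
MP_fa6e45_co, stage 7: certificates (generated by a program).
-/

namespace Pool.Agent.Lib_MP_fa6e45

/-- classes `0 0 1 0 0 1`, types `C0 C0 N0 C2 C2 N1` -/
noncomputable def cU6_722 : CertX :=
  ⟨[k4,k4,k28,k6,k6,k29],[(false,k0,[k0,k1,k2,k3,k4,k5]),(false,k3,[k3,k4,k5,k0,k1,k2])],[[[([z1,z1,z1,z0,z0,z0],z2)],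
    [([z1,z0,z1,z1,z0,z1],z2)],[([z1,z0,z1,z0,z1,z0],z2)],[([z1,z0,z1,z0,z0,z0],z1),([z0,z3,z0,z0,z0,z0],z1),([z0,z0,
    z0,z1,z0,z1],z2)],[([z1,z0,z1,z0,z0,z0],z1),([z0,z2,z0,z0,z0,z0],z1),([z0,z0,z0,z1,z0,z1],z2)],[([z1,z0,z1,z0,z0,
    z0],z1),([z0,z3,z0,z0,z0,z0],z2),([z0,z0,z0,z1,z0,z1],z2)],[([z1,z0,z1,z0,z0,z0],z1),([z0,z1,z0,z0,z1,z0],z1)],
    [([z3,z0,z3,z0,z0,z0],z2),([z0,z3,z0,z0,z0,z0],z2),([z0,z0,z0,z1,z0,z1],z2)],[([z1,z0,z1,z0,z0,z0],z2),([z0,z3,z0,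
    z0,z0,z0],z2)],[([z1,z0,z1,z0,z0,z0],z2)],[]]],
    [.old (.leafM k0 [k2,k3,k4,k5,k0,k1] [(z1,[y1,z1])] []),
    .old (.leafM k6 [k2,k3,k5,k0] [] [(k4,k1,z1,[y1,z1]),(k1,k4,z1,[y1,z1])]),
    .old (.leafM k5 [k1,k2,k3,k4,k5,k0] [(z1,[z1]),(z1,[y1,z1])] []),
    .old (.leafM k11 [k2,k4,k0,k1] [(z1,[y3,y1,y3,z3]),(z1,[z0,z1]),(z1,[z1])] [(k3,k5,z1,[z0,z0,z1]),(k5,k3,z1,[z0,z0,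
    z1])]),
    .old (.leafM k12 [k0,k1,k2,k4] [(z1,[z0,z1]),(z1,[y2,y1,y2,z2]),(z1,[z1])] [(k3,k5,z1,[z0,z0,z1]),(k5,k3,z1,[z0,z0,
    z1])]),
    .old (.leafM k11 [k0,k1,k2,k4] [(z1,[z0,z1]),(z1,[y3,y1,y3,z3]),(z1,[z1])] [(k3,k5,z1,[z0,z0,z1]),(k5,k3,z1,[z0,z0,
    z1])]),
    .old (.lp [k86,k72,k24,k86,k130,k72] [k22,k22,k29,k29,k53,k53,k22,k22,k0,k0,k29,k29] k0 [[k0,k0,k0,k0,k0,k0,k0,k38],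
    [k0,k0,k0,k10],[k10],[],[],[],[k0,k38],[k0,k0,k0,k0,k0,k0,k0,k0,k0,k82],[k0,k0,k0,k0,k0,k0,k82]] (nat_lit 240) k6
    [[(k4,k55)],[(k6,k48),(k5,k65),(k3,k79),(k8,k108)],[(k2,k62),(k11,k72),(k0,k79),(k9,k139)],[(k5,k48),(k3,k62),(k6,
    k79),(k8,k101)],[(k2,k48),(k11,k48),(k0,k65),(k9,k77)],[(k1,k55)],[(k10,k79)],[(k0,k48),(k2,k79),(k9,k108),(k11,
    k161)],[(k8,k48),(k5,k77),(k6,k108),(k3,k139)],[(k9,k48),(k2,k101),(k11,k101),(k0,k108)],[(k5,k48),(k3,k72),(k8,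
    k101),(k6,k161)],[(k7,k79)]]
    [] k0
    [[k1,k0,k1,k0,k0,k0],[k1,k1,k1,k0,k0,k0],[k1,k0,k1,k1,k0,k1],[k0,k2,k0,k0,k0,k0],[k0,k3,k0,k0,k0,k0],[k0,k1,k0,k1,
    k0,k1],[k0,k0,k0,k0,k2,k0],[k0,k0,k0,k0,k3,k0],[k0,k0,k0,k0,k4,k0]]
    [.contra [y1,z2],.contra [z1,y1],.contra [z1,z1,z1,y1],.contra [z1],.ref k5 k0 [(z1,[z0,z1]),(z1,[z1]),(z1,[z0,y1,
    y1,z1])],.contra [y1,y1,z0,z1],.contra [z1],.ref k3 k0 [(z1,[z0,z1]),(z1,[y1,z0,z3]),(z1,[z0,y1,y1,z1])],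
    .ref k4 k0 [(z1,[z0,z1]),(z2,[y1,z0,z4]),(z1,[z0,y1,y1,z1])]]),
    .old (.leafM k10 [k0,k1,k2,k4] [(z1,[z0,z1]),(z1,[y1,y1,y3,z3]),(z1,[z1])] [(k3,k5,z1,[z0,z0,z1]),(k5,k3,z1,[z0,z0,
    z1])]),
    .old (.lp [k154,k132,k34,k34,k62,k62] [k0,k0,k11,k11,k60,k60,k60,k60,k46,k46,k46,k46] k0 [[k0,k0,k0,k0,k0,k0,k0,k46],
    [k0,k0,k0,k52],[k52],[],[],[],[k0,k46]] (nat_lit 240) k6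
    [[(k4,k94)],[(k6,k48),(k8,k108),(k3,k143),(k5,k146)],[(k2,k80),(k11,k97),(k0,k143),(k9,k143)],[(k3,k80),(k5,k83),
    (k6,k83),(k8,k97)],[(k9,k48),(k11,k48),(k2,k83),(k0,k146)],[(k1,k94)],[(k10,k48)],[(k0,k48),(k9,k48),(k11,k48),
    (k2,k83)],[(k5,k48),(k6,k48),(k8,k62),(k3,k143)],[(k9,k62),(k11,k62),(k2,k97),(k0,k108)],[(k5,k48),(k6,k48),(k8,
    k62),(k3,k97)],[(k7,k48)]]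
    [] k0
    [[k1,k0,k1,k1,k0,k1],[k0,k2,k0,k0,k0,k0],[k0,k1,k0,k1,k0,k1],[k0,k0,k0,k1,k0,k1],[k0,k0,k0,k2,k0,k2],[k0,k0,k0,k1,
    k1,k1],[k0,k0,k0,k1,k2,k1],[k0,k0,k0,k0,k2,k0],[k0,k0,k0,k0,k3,k0]]
    [.contra [z1,y1],.contra [z1],.contra [y1,y1,z0,z1],.contra [y1,y1,z0,z1],.ref k6 k1 [(z2,[z1]),(z2,[y1,y2,z0,
    z2])],.contra [z1,z1,z1,y1],.ref k7 k1 [(z1,[y3,y6,y2,z6]),(z1,[z3,z3,z1,y3]),(z1,[z0,z1])],.contra [z1],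
    .ref k7 k1 [(z1,[y1,y3,y1,z3]),(z1,[z1]),(z1,[z0,z1])]]),
    .old (.lp [k174,k112,k14,k14,k82,k82] [k0,k0,k31,k31,k80,k80,k80,k80,k46,k46,k46,k46] k0 [[k0,k0,k0,k0,k0,k0,k0,k46],
    [k0,k0,k0,k52],[k52],[],[],[],[k0,k46]] (nat_lit 240) k6
    [[(k4,k94)],[(k6,k48),(k8,k128),(k3,k143),(k5,k146)],[(k2,k60),(k11,k97),(k0,k143),(k9,k143)],[(k3,k60),(k5,k63),
    (k6,k63),(k8,k97)],[(k9,k48),(k11,k48),(k2,k63),(k0,k146)],[(k1,k94)],[(k10,k48)],[(k0,k48),(k9,k48),(k11,k48),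
    (k2,k63)],[(k5,k48),(k6,k48),(k8,k82),(k3,k143)],[(k9,k82),(k11,k82),(k2,k97),(k0,k128)],[(k5,k48),(k6,k48),(k8,
    k82),(k3,k97)],[(k7,k48)]]
    [] k0
    [[k1,k0,k1,k1,k0,k1],[k0,k2,k0,k0,k0,k0],[k0,k3,k0,k0,k0,k0],[k0,k1,k0,k1,k0,k1],[k0,k0,k0,k1,k0,k1],[k0,k0,k0,k2,
    k0,k2],[k0,k0,k0,k1,k1,k1],[k0,k0,k0,k0,k2,k0]]
    [.contra [z1,y1],.contra [z1],.ref k8 k0 [(z1,[z0,z1]),(z1,[z1])],.contra [y1,y1,z1],.contra [y1,y1,z1],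
    .ref k6 k1 [(z2,[z1]),(z2,[y1,y2,z2])],.contra [y1,y1,z1],.contra [z1]]),
    .old (.lp [k4,k6,k2,k2,k4,k4] [k1,k1,k0,k0,k2,k2,k2,k2,k1,k1,k1,k1] k0 [] k12 k5
    [[(k4,k3)],[(k5,k3),(k6,k3),(k8,k4),(k3,k5)],[(k0,k5),(k9,k5),(k11,k5),(k2,k6)],[(k5,k4),(k6,k4),(k8,k5),(k3,k6)],
    [(k0,k3),(k9,k3),(k11,k3),(k2,k4)],[(k1,k3)],[(k10,k3)],[(k0,k3),(k9,k3),(k11,k3),(k2,k4)],[(k5,k3),(k6,k3),(k8,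
    k4),(k3,k5)],[(k0,k4),(k9,k4),(k11,k4),(k2,k5)],[(k5,k3),(k6,k3),(k8,k4),(k3,k5)],[(k7,k3)]]
    [] k0
    [[k1,k0,k1,k0,k0,k0],[k1,k0,k1,k0,k1,k0],[k0,k1,k0,k0,k1,k0],[k0,k0,k0,k1,k0,k1],[k0,k0,k0,k1,k1,k1],[k0,k0,k0,k0,
    k2,k0]]
    [.ref k9 k0 [(z1,[z1])],.ref k2 k0 [(z1,[z1])],.ref k1 k0 [(z1,[y1,z1])],.ref k9 k1 [(z1,[z1])],.ref k0 k0 [(z1,
    [y1,z1])],.contra [z1]])]⟩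

/-- classes `0 0 1 0 0 1`, types `C0 C0 N0 C2 C2 N2` -/
noncomputable def cU6_723 : CertX :=
  ⟨[k4,k4,k28,k6,k6,k30],[(false,k0,[k0,k1,k2,k3,k4,k5]),(false,k3,[k3,k4,k5,k0,k1,k2]),(true,k2,[k2,k1,k0,k5,k4,
    k3])],[[[([z1,z0,z0,z1,z0,z0],z2)],[([z1,z0,z0,z1,z1,z0],z2)],[([z1,z0,z0,z1,z0,z0],z1),([z0,z1,z0,z0,z1,z0],z2)],
    [([z1,z0,z1,z1,z0,z1],z2)],[]]],
    [.old (.leafM k2 [k1,k2,k4,k5] [] [(k3,k0,z1,[z1]),(k0,k3,z1,[z1])]),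
    .old (.leafM k3 [k4,k5,k0,k1,k2,k3] [(z1,[y1,z1])] []),
    .old (.leafM k7 [k0,k2,k3,k5] [(z1,[y1,y1,z1])] [(k1,k4,z1,[z0,z1]),(k4,k1,z1,[z0,z1])]),
    .old (.lp [(nat_lit 1380),(nat_lit 1150),k184,k0,(nat_lit 1380),(nat_lit 1200)] [k0,(nat_lit 230),(nat_lit 230),
    (nat_lit 230),(nat_lit 713),(nat_lit 713),(nat_lit 805),(nat_lit 805),k115,k115,(nat_lit 205),
    (nat_lit 205)] k0 [[k0,k0,k0,k0,k0,k0,k0,(nat_lit 230)],[],[],[k0,k0,k0,k0,k0,k0,(nat_lit 230)],[],[],[k0,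
    (nat_lit 230)],[k0,k0,(nat_lit 230)]] (nat_lit 2760) k6
    [[(k7,(nat_lit 575))],[(k6,(nat_lit 575)),(k5,(nat_lit 897)),(k3,(nat_lit 1380)),(k8,(nat_lit 1495))],[(k2,
    (nat_lit 1150)),(k11,(nat_lit 1175)),(k0,(nat_lit 1380)),(k9,(nat_lit 1495))],[(k5,(nat_lit 667)),(k6,
    (nat_lit 805)),(k3,(nat_lit 1150)),(k8,(nat_lit 1265))],[(k9,(nat_lit 552)),(k2,(nat_lit 667)),(k11,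
    (nat_lit 692)),(k0,(nat_lit 897))],[(k10,(nat_lit 692))],[(k1,(nat_lit 575))],[(k0,(nat_lit 575)),(k11,
    (nat_lit 600)),(k9,(nat_lit 690)),(k2,(nat_lit 805))],[(k5,(nat_lit 552)),(k6,(nat_lit 690)),(k8,(nat_lit 1380)),
    (k3,(nat_lit 1495))],[(k2,(nat_lit 1265)),(k11,(nat_lit 1290)),(k9,(nat_lit 1380)),(k0,(nat_lit 1495))],[(k6,
    (nat_lit 600)),(k5,(nat_lit 692)),(k3,(nat_lit 1175)),(k8,(nat_lit 1290))],[(k4,(nat_lit 692))]]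
    [] k0
    [[k1,k0,k0,k1,k0,k0],[k2,k0,k0,k2,k0,k0],[k0,k2,k0,k0,k0,k0],[k0,k1,k1,k0,k0,k1],[k0,k0,k1,k0,k1,k1],[k0,k0,k1,k0,
    k0,k1]]
    [.contra [y1,z1],.ref k2 k0 [(z2,[z1]),(z1,[z0,y1,z1])],.contra [z1],.ref k1 k0 [(z1,[y1,z0,z1])],.ref k1 k1 [(z1,
    [y1,z0,z1])],.contra [y1,z1]]),
    .old (.lp [k8,k8,k4,k8,k10,k8] [k1,k1,k1,k1,k3,k3,k1,k1,k0,k0,k1,k1] k0 [[],[],[],[],[],[],[k0,k0,k0,k0,k0,k0,k0,k0,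
    k2],[],[],[k0,k0,k0,k0,k0,k0,k0,k2]] k24 k5
    [[(k7,k8)],[(k5,k6),(k3,k8),(k6,k8),(k8,k9)],[(k0,k8),(k2,k8),(k11,k8),(k9,k9)],[(k5,k6),(k3,k8),(k6,k8),(k8,k9)],
    [(k0,k6),(k2,k6),(k11,k6),(k9,k7)],[(k10,k6)],[(k1,k8)],[(k11,k6),(k0,k8),(k2,k8),(k9,k9)],[(k5,k7),(k3,k9),(k6,
    k9),(k8,k12)],[(k0,k9),(k2,k9),(k11,k9),(k9,k12)],[(k5,k6),(k6,k6),(k3,k8),(k8,k9)],[(k4,k6)]]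
    [] k0
    [[k1,k0,k0,k1,k0,k0],[k0,k2,k0,k0,k0,k0],[k0,k1,k0,k0,k1,k0],[k0,k1,k1,k0,k0,k1],[k0,k0,k1,k0,k1,k1],[k0,k0,k1,k0,
    k0,k1]]
    [.ref k0 k0 [(z1,[z1])],.contra [z1],.ref k3 k0 [(z1,[y1,z1])],.ref k1 k0 [(z1,[y1,z1])],.ref k1 k1 [(z1,[y1,
    z1])],.ref k0 k2 [(z1,[z1])]])]⟩

/-- classes `0 0 1 0 0 1`, types `C0 C0 S0 C0 C0 S0` -/
noncomputable def cU6_724 : CertX :=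
  ⟨[k4,k4,k16,k4,k4,k16],[(false,k0,[k0,k1,k2,k3,k4,k5]),(true,k2,[k2,k1,k0,k5,k4,k3]),(false,k3,[k3,k4,k5,k0,k1,
    k2])],[[[([z1,z0,z0,z0,z0,z1],z2)],[([z1,z0,z1,z1,z0,z1],z2)],[([z1,z0,z1,z0,z1,z0],z2)],[([z1,z0,z0,z0,z1,z1],
    z2)],[([z1,z1,z1,z0,z0,z0],z2)],[([z1,z0,z1,z0,z0,z0],z1),([z0,z3,z0,z0,z0,z0],z1),([z0,z0,z0,z1,z0,z1],z2)],
    [([z1,z0,z1,z0,z0,z0],z1),([z0,z2,z0,z0,z0,z0],z1),([z0,z0,z0,z1,z0,z1],z2)],[([z1,z0,z1,z0,z0,z0],z1),([z0,z3,z0,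
    z0,z0,z0],z2),([z0,z0,z0,z1,z0,z1],z2)],[([z1,z0,z1,z0,z0,z0],z1),([z0,z1,z0,z0,z1,z0],z1)],[([z3,z0,z3,z0,z0,z0],
    z2),([z0,z3,z0,z0,z0,z0],z2),([z0,z0,z0,z1,z0,z1],z2)],[([z1,z0,z1,z0,z0,z0],z2),([z0,z3,z0,z0,z0,z0],z2)],[([z1,
    z0,z1,z0,z0,z0],z2)]],[[]]],
    [.old (.leafM k0 [k1,k2,k3,k4] [] [(k5,k0,z1,[z1]),(k0,k5,z1,[z1])]),
    .old (.leafM k5 [k0,k2,k3,k5] [] [(k1,k4,z1,[y1,z1]),(k4,k1,z1,[y1,z1])]),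
    .old (.leafM k1 [k0,k1,k2,k3,k4,k5] [(z1,[y1,z1]),(z1,[z1])] []),
    .old (.leafM k0 [k0,k1,k2,k3,k4,k5] [(z1,[y1,z1])] []),
    .old (.leafM k0 [k2,k3,k4,k5,k0,k1] [(z1,[y1,z1])] []),
    .old (.leafM k11 [k2,k4,k0,k1] [(z1,[y3,y1,y3,z3]),(z1,[z0,z1]),(z1,[z1])] [(k3,k5,z1,[z0,z0,z1]),(k5,k3,z1,[z0,z0,
    z1])]),
    .old (.leafM k12 [k0,k1,k2,k4] [(z1,[z0,z1]),(z1,[y2,y1,y2,z2]),(z1,[z1])] [(k3,k5,z1,[z0,z0,z1]),(k5,k3,z1,[z0,z0,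
    z1])]),
    .old (.leafM k11 [k0,k1,k2,k4] [(z1,[z0,z1]),(z1,[y3,y1,y3,z3]),(z1,[z1])] [(k3,k5,z1,[z0,z0,z1]),(k5,k3,z1,[z0,z0,
    z1])]),
    .old (.lp [(nat_lit 2772),(nat_lit 2310),(nat_lit 1848),(nat_lit 3850),(nat_lit 3696),(nat_lit 3850)] [(nat_lit 539),
    (nat_lit 539),(nat_lit 770),(nat_lit 770),(nat_lit 1001),(nat_lit 1001),k0,k0,k77,k77,k0,k0] k0 [[k0,k0,k0,k0,k0,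
    k0,k0,k0,(nat_lit 1320)],[],[],[],[],[],[],[k0,k0,k0,k0,k0,k0,k0,k0,k0,(nat_lit 1680)],[k0,k0,k0,k0,k0,k0,
    (nat_lit 1680)],[k0,(nat_lit 1320)]] (nat_lit 9240) k6
    [[(k4,(nat_lit 2310)),(k1,(nat_lit 2772)),(k7,(nat_lit 3311)),(k10,(nat_lit 3311))],[(k11,(nat_lit 1991)),(k5,
    (nat_lit 2310)),(k3,(nat_lit 2541)),(k9,(nat_lit 3234))],[(k2,(nat_lit 2310)),(k0,(nat_lit 2541)),(k6,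
    (nat_lit 3080)),(k8,(nat_lit 4323))],[(k5,(nat_lit 2079)),(k3,(nat_lit 2310)),(k9,(nat_lit 3003)),(k11,
    (nat_lit 3080))],[(k2,(nat_lit 2079)),(k0,(nat_lit 2310)),(k8,(nat_lit 2772)),(k6,(nat_lit 2849))],[(k4,
    (nat_lit 1848)),(k1,(nat_lit 2310)),(k7,(nat_lit 2849)),(k10,(nat_lit 2849))],[(k4,(nat_lit 2849)),(k1,
    (nat_lit 3311)),(k7,(nat_lit 3850)),(k10,(nat_lit 3850))],[(k5,(nat_lit 2849)),(k3,(nat_lit 3080)),(k9,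
    (nat_lit 3773)),(k11,(nat_lit 5530))],[(k8,(nat_lit 2016)),(k2,(nat_lit 3003)),(k0,(nat_lit 3234)),(k6,
    (nat_lit 3773))],[(k9,(nat_lit 2016)),(k5,(nat_lit 2772)),(k11,(nat_lit 3773)),(k3,(nat_lit 4323))],[(k0,
    (nat_lit 1991)),(k2,(nat_lit 3080)),(k8,(nat_lit 3773)),(k6,(nat_lit 5530))],[(k4,(nat_lit 2849)),(k1,
    (nat_lit 3311)),(k7,(nat_lit 3850)),(k10,(nat_lit 3850))]]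
    [] k0
    [[k1,k0,k1,k0,k0,k0],[k1,k1,k1,k0,k0,k0],[k1,k0,k1,k0,k1,k0],[k1,k0,k0,k0,k0,k1],[k1,k1,k0,k0,k0,k1],[k0,k2,k0,k0,
    k0,k0],[k0,k3,k0,k0,k0,k0],[k0,k1,k1,k1,k0,k0],[k0,k1,k0,k0,k1,k0],[k0,k0,k1,k1,k0,k0],[k0,k0,k0,k0,k2,k0],[k0,k0,
    k0,k0,k3,k0],[k0,k0,k0,k0,k4,k0]]
    [.contra [y1,z2],.contra [z1,y1],.contra [z1,y1],.ref k0 k0 [(z1,[z1])],.ref k3 k1 [(z1,[y1,z0,z0,z1])],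
    .contra [z1],.ref k7 k0 [(z1,[z0,z1]),(z1,[z1]),(z1,[z0,y1,y1,z1])],.ref k3 k0 [(z1,[y1,z0,z0,z1])],.contra [y1,
    z1,z1],.ref k0 k2 [(z1,[z1])],.contra [z1],.ref k5 k0 [(z1,[z0,z1]),(z1,[y1,z0,z3]),(z1,[z0,y1,y1,z1])],
    .ref k6 k0 [(z1,[z0,z1]),(z2,[y1,z0,z4]),(z1,[z0,y1,y1,z1])]]),
    .old (.leafM k10 [k0,k1,k2,k4] [(z1,[z0,z1]),(z1,[y1,y1,y3,z3]),(z1,[z1])] [(k3,k5,z1,[z0,z0,z1]),(k5,k3,z1,[z0,z0,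
    z1])]),
    .old (.lp [k110,k80,k130,k48,k62,k48] [k10,k10,k25,k25,k0,k0,k41,k41,k34,k34,k41,k41] k0 [[k0,k0,k0,k0,k0,k0,k0,k0,
    k14],[],[],[k0,k0,k0,k0,k0,k0,k0,k22],[],[],[k0,k0,k22],[],[],[k0,k14]] (nat_lit 240) k6
    [[(k7,k79),(k10,k79),(k1,k110),(k4,k120)],[(k11,k65),(k9,k86),(k3,k95),(k5,k120)],[(k6,k64),(k2,k80),(k8,k85),(k0,
    k95)],[(k11,k64),(k3,k80),(k9,k93),(k5,k105)],[(k6,k67),(k8,k96),(k2,k105),(k0,k120)],[(k7,k89),(k10,k89),(k1,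
    k120),(k4,k130)],[(k7,k48),(k10,k48),(k1,k79),(k4,k89)],[(k11,k48),(k9,k55),(k3,k64),(k5,k67)],[(k6,k55),(k8,k62),
    (k0,k86),(k2,k93)],[(k11,k55),(k9,k62),(k3,k85),(k5,k96)],[(k6,k48),(k8,k55),(k2,k64),(k0,k65)],[(k7,k48),(k10,
    k48),(k1,k79),(k4,k89)]]
    [] k0
    [[k1,k0,k0,k0,k0,k1],[k1,k1,k0,k0,k0,k1],[k1,k0,k0,k0,k1,k1],[k0,k2,k0,k0,k0,k0],[k0,k1,k0,k1,k0,k1],[k0,k1,k0,k0,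
    k1,k0],[k0,k0,k1,k1,k0,k0],[k0,k0,k0,k2,k0,k2],[k0,k0,k0,k1,k0,k1],[k0,k0,k0,k1,k1,k1],[k0,k0,k0,k1,k2,k1],[k0,k0,
    k0,k0,k2,k0],[k0,k0,k0,k0,k3,k0]]
    [.ref k0 k0 [(z1,[z1])],.ref k3 k1 [(z1,[y1,z0,z0,z1])],.ref k3 k0 [(z1,[z1])],.contra [z1],.contra [y1,y1,z0,z1],
    .contra [y1,y1,z0,z1],.ref k0 k2 [(z1,[z1])],.ref k8 k2 [(z2,[z1]),(z2,[y1,y2,z0,z2])],.contra [y1,y1,z0,z1],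
    .contra [z1,z1,z1,y1],.ref k9 k2 [(z1,[y3,y6,y2,z6]),(z1,[z3,z3,z1,y3]),(z1,[z0,z1])],.contra [z1],
    .ref k9 k2 [(z1,[y1,y3,y1,z3]),(z1,[z1]),(z1,[z0,z1])]]),
    .old (.lp [k110,k84,k108,k48,k80,k48] [k0,k0,k13,k13,k1,k1,k31,k31,k15,k15,k31,k31] k0 [[k0,k0,k0,k0,k0,k0,k0,k0,k14],
    [k0,k0,k0,k22],[k22],[],[],[],[],[],[],[k0,k14]] (nat_lit 240) k6
    [[(k7,k79),(k10,k79),(k4,k109),(k1,k110)],[(k11,k65),(k9,k95),(k3,k97),(k5,k131)],[(k2,k62),(k6,k66),(k8,k96),(k0,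
    k97)],[(k3,k62),(k11,k66),(k9,k82),(k5,k96)],[(k6,k78),(k8,k94),(k2,k96),(k0,k131)],[(k7,k78),(k10,k78),(k4,k108),
    (k1,k109)],[(k7,k48),(k10,k48),(k4,k78),(k1,k79)],[(k11,k48),(k9,k64),(k3,k66),(k5,k78)],[(k6,k64),(k8,k80),(k2,
    k82),(k0,k95)],[(k11,k64),(k9,k80),(k5,k94),(k3,k96)],[(k6,k48),(k8,k64),(k0,k65),(k2,k66)],[(k7,k48),(k10,k48),
    (k4,k78),(k1,k79)]]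
    [] k0
    [[k1,k0,k0,k0,k0,k1],[k1,k0,k0,k0,k1,k1],[k0,k2,k0,k0,k0,k0],[k0,k3,k0,k0,k0,k0],[k0,k1,k0,k1,k0,k1],[k0,k1,k0,k0,
    k1,k0],[k0,k0,k1,k1,k0,k0],[k0,k0,k1,k1,k1,k0],[k0,k0,k0,k2,k0,k2],[k0,k0,k0,k1,k0,k1],[k0,k0,k0,k1,k1,k1],[k0,k0,
    k0,k0,k2,k0]]
    [.ref k0 k0 [(z1,[z1])],.ref k3 k0 [(z1,[z1])],.contra [z1],.ref k10 k0 [(z1,[z0,z1]),(z1,[z1])],.contra [y1,y1,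
    z1],.contra [y1,y1,z1],.ref k0 k2 [(z1,[z1])],.ref k3 k1 [(z1,[z1])],.ref k8 k2 [(z2,[z1]),(z2,[y1,y2,z2])],
    .contra [y1,y1,z1],.contra [y1,y1,z1],.contra [z1]]),
    .old (.lp [k6,k8,k8,k6,k12,k6] [k3,k3,k2,k2,k2,k2,k3,k3,k0,k0,k3,k3] k0 [[k0,k0,k0,k0,k0,k0,k2],[],[],[],[],[],[],[k0,
    k2]] k24 k5
    [[(k1,k6),(k7,k6),(k10,k6),(k4,k7)],[(k11,k6),(k3,k7),(k5,k7),(k9,k7)],[(k0,k7),(k2,k8),(k6,k9),(k8,k10)],[(k11,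
    k7),(k3,k8),(k5,k8),(k9,k10)],[(k0,k7),(k6,k7),(k2,k8),(k8,k10)],[(k1,k7),(k7,k7),(k10,k7),(k4,k8)],[(k1,k6),(k7,
    k6),(k10,k6),(k4,k7)],[(k11,k6),(k5,k7),(k3,k9),(k9,k9)],[(k0,k7),(k6,k9),(k2,k10),(k8,k12)],[(k11,k9),(k3,k10),
    (k5,k10),(k9,k12)],[(k0,k6),(k6,k6),(k2,k7),(k8,k9)],[(k1,k6),(k7,k6),(k10,k6),(k4,k7)]]
    [] k0
    [[k1,k0,k1,k0,k0,k0],[k1,k1,k1,k0,k0,k0],[k1,k0,k0,k0,k0,k1],[k1,k1,k0,k0,k0,k1],[k1,k0,k0,k0,k1,k1],[k0,k2,k0,k0,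
    k0,k0],[k0,k1,k0,k1,k0,k1],[k0,k1,k0,k0,k1,k0],[k0,k0,k1,k1,k0,k0],[k0,k0,k0,k1,k0,k1]]
    [.ref k11 k0 [(z1,[z1])],.ref k4 k0 [(z1,[z1])],.ref k0 k0 [(z1,[z1])],.ref k3 k1 [(z1,[y1,z1])],.ref k3 k0 [(z1,
    [z1])],.contra [z1],.ref k2 k0 [(z1,[y1,z1])],.ref k1 k0 [(z1,[y1,z1])],.ref k0 k2 [(z1,[z1])],.ref k11 k2 [(z1,
    [z1])]])]⟩

/-- classes `0 0 1 0 0 1`, types `C0 C0 S0 C0 C2 S0` -/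
noncomputable def cU6_725 : CertX :=
  ⟨[k4,k4,k16,k4,k6,k16],[(false,k0,[k0,k1,k2,k3,k4,k5])],[[[([z1,z1,z0,z1,z1,z0],z2)],[([z1,z1,z0,z0,z1,z1],z2)],
    [([z1,z0,z0,z1,z1,z0],z2)],[([z1,z0,z0,z0,z1,z1],z2)],[([z1,z1,z1,z0,z0,z0],z2)],[([z1,z0,z1,z0,z0,z0],z2),([z0,
    z2,z0,z0,z1,z2],z2)],[([z1,z0,z1,z0,z0,z0],z2)],[]]],
    [.old (.leafM k2 [k0,k1,k3,k4] [] [(k2,k5,z1,[y1,z1]),(k5,k2,z1,[y1,z1])]),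
    .old (.leafM k0 [k0,k1,k4,k5] [] [(k2,k3,z1,[y1,z1]),(k3,k2,z1,[y1,z1])]),
    .old (.leafM k3 [k4,k5,k0,k1,k2,k3] [(z1,[y1,z1])] []),
    .old (.leafM k0 [k0,k1,k2,k3,k4,k5] [(z1,[y1,z1])] []),
    .old (.leafM k0 [k2,k3,k4,k5,k0,k1] [(z1,[y1,z1])] []),
    .old (.lp [(nat_lit 1780800),(nat_lit 1368990),(nat_lit 1186458),(nat_lit 1629750),(nat_lit 91266),
    (nat_lit 1095192)] [k0,k0,(nat_lit 205905),(nat_lit 205905),(nat_lit 297171),(nat_lit 297171),(nat_lit 136369),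
    (nat_lit 14681),(nat_lit 844767),(nat_lit 844767),(nat_lit 480564),(nat_lit 205044)] k0 [[],[k0,k0,k0,
    (nat_lit 152110)],[(nat_lit 152110)],[],[k0,k0,k0,k0,k0,(nat_lit 304220)],[k0,k0,k0,k0,k0,k0,k0,k0,k0,k0,k0,
    (nat_lit 532385)],[],[],[],[],[k0,k0,k0,k0,(nat_lit 532385)]] (nat_lit 3650640) k6
    [[(k10,(nat_lit 1300236)),(k7,(nat_lit 1766119)),(k1,(nat_lit 1780800)),(k4,(nat_lit 2016014))],[(k8,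
    (nat_lit 936033)),(k9,(nat_lit 936033)),(k3,(nat_lit 1574895)),(k5,(nat_lit 1635739))],[(k2,(nat_lit 1216880)),
    (k11,(nat_lit 1369851)),(k6,(nat_lit 1438526)),(k0,(nat_lit 1574895))],[(k8,(nat_lit 730128)),(k9,
    (nat_lit 730128)),(k3,(nat_lit 1216880)),(k5,(nat_lit 1277724))],[(k2,(nat_lit 1277724)),(k11,(nat_lit 1278585)),
    (k6,(nat_lit 1347260)),(k0,(nat_lit 1635739))],[(k4,(nat_lit 882238)),(k10,(nat_lit 1003065)),(k7,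
    (nat_lit 1468948)),(k1,(nat_lit 2016014))],[(k10,(nat_lit 753170)),(k4,(nat_lit 1468948)),(k1,(nat_lit 1766119)),
    (k7,(nat_lit 2055658))],[(k8,(nat_lit 799664)),(k9,(nat_lit 799664)),(k5,(nat_lit 1347260)),(k3,
    (nat_lit 1438526))],[(k2,(nat_lit 730128)),(k11,(nat_lit 730989)),(k6,(nat_lit 799664)),(k0,(nat_lit 936033))],
    [(k2,(nat_lit 730128)),(k11,(nat_lit 730989)),(k6,(nat_lit 799664)),(k0,(nat_lit 936033))],[(k8,(nat_lit 730989)),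
    (k9,(nat_lit 730989)),(k5,(nat_lit 1278585)),(k3,(nat_lit 1369851))],[(k7,(nat_lit 753170)),(k10,
    (nat_lit 819672)),(k4,(nat_lit 1003065)),(k1,(nat_lit 1300236))]]
    [] k0
    [[k1,k0,k0,k1,k1,k0],[k1,k0,k0,k0,k1,k1],[k0,k2,k0,k0,k0,k0],[k0,k0,k1,k1,k0,k0],[k0,k0,k1,k0,k0,k1],[k0,k0,k0,k1,
    k1,k1],[k0,k0,k0,k0,k1,k2]]
    [.ref k1 k0 [(z1,[z1,z1,z1,y1])],.ref k3 k0 [(z1,[z1])],.contra [z1],.ref k1 k0 [(z1,[y1,z0,z0,z1])],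
    .ref k0 k0 [(z1,[y1,z0,z0,z1])],.contra [y1,y1,z0,z1],.contra [y1,z0,z1]]),
    .old (.lp [(nat_lit 960),(nat_lit 630),(nat_lit 336),(nat_lit 504),k42,(nat_lit 819)] [k0,k0,k165,k165,(nat_lit 312),
    (nat_lit 312),k165,(nat_lit 291),(nat_lit 459),(nat_lit 459),k18,k123] k0 [[],[k0,k0,k0,k70],[k70],[],[],[k0,k0,
    k0,k0,k0,k0,k0,k0,k0,k0,k0,(nat_lit 315)],[],[],[],[],[k0,k0,k0,k0,(nat_lit 315)]] (nat_lit 1680) k6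
    [[(k7,(nat_lit 669)),(k10,(nat_lit 942)),(k1,(nat_lit 960)),(k4,(nat_lit 963))],[(k8,(nat_lit 501)),(k9,
    (nat_lit 501)),(k5,(nat_lit 718)),(k3,(nat_lit 795))],[(k2,(nat_lit 560)),(k6,(nat_lit 630)),(k11,(nat_lit 672)),
    (k0,(nat_lit 795))],[(k8,(nat_lit 336)),(k9,(nat_lit 336)),(k5,(nat_lit 483)),(k3,(nat_lit 560))],[(k2,
    (nat_lit 483)),(k6,(nat_lit 483)),(k11,(nat_lit 525)),(k0,(nat_lit 718))],[(k4,(nat_lit 336)),(k7,(nat_lit 357)),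
    (k10,(nat_lit 630)),(k1,(nat_lit 963))],[(k10,(nat_lit 336)),(k4,(nat_lit 357)),(k7,(nat_lit 378)),(k1,
    (nat_lit 669))],[(k8,(nat_lit 336)),(k9,(nat_lit 336)),(k5,(nat_lit 483)),(k3,(nat_lit 630))],[(k2,(nat_lit 336)),
    (k6,(nat_lit 336)),(k11,(nat_lit 378)),(k0,(nat_lit 501))],[(k2,(nat_lit 336)),(k6,(nat_lit 336)),(k11,
    (nat_lit 378)),(k0,(nat_lit 501))],[(k8,(nat_lit 378)),(k9,(nat_lit 378)),(k5,(nat_lit 525)),(k3,(nat_lit 672))],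
    [(k7,(nat_lit 336)),(k4,(nat_lit 630)),(k10,(nat_lit 924)),(k1,(nat_lit 942))]]
    [] k0
    [[k1,k0,k0,k1,k1,k0],[k0,k2,k0,k0,k0,k0],[k0,k1,k1,k1,k0,k0],[k0,k0,k1,k1,k0,k0],[k0,k0,k1,k0,k0,k1],[k0,k0,k0,k2,
    k1,k0],[k0,k0,k0,k1,k1,k1]]
    [.ref k2 k0 [(z1,[z1])],.contra [z1],.ref k3 k0 [(z1,[y1,z0,z1])],.ref k1 k0 [(z1,[y1,z0,z1])],.ref k0 k0 [(z1,
    [y1,z0,z1])],.ref k5 k0 [(z1,[z0,z1]),(z1,[y1,y2,z2])],.contra [y1,y1,z1]]),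
    .old (.lp [k16,k16,k12,k20,k16,k14] [k2,k2,k2,k2,k4,k4,k0,k0,k2,k2,k3,k3] k0 [[],[],[],[],[],[],[k0,k0,k0,k0,k0,k0,k0,
    k0,k0,k4],[],[k0,k0,k0,k0,k0,k0,k0,k4]] k48 k5
    [[(k4,k14),(k10,k15),(k1,k16),(k7,k18)],[(k5,k14),(k3,k16),(k8,k16),(k9,k16)],[(k11,k15),(k0,k16),(k2,k16),(k6,
    k18)],[(k5,k14),(k3,k16),(k8,k16),(k9,k16)],[(k11,k13),(k0,k14),(k2,k14),(k6,k16)],[(k4,k12),(k10,k13),(k1,k14),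
    (k7,k16)],[(k4,k16),(k10,k17),(k1,k18),(k7,k20)],[(k8,k14),(k5,k16),(k3,k18),(k9,k18)],[(k0,k16),(k2,k16),(k6,
    k18),(k11,k19)],[(k6,k14),(k11,k15),(k0,k16),(k2,k16)],[(k5,k13),(k3,k15),(k8,k15),(k9,k19)],[(k4,k13),(k10,k14),
    (k1,k15),(k7,k17)]]
    [] k0
    [[k1,k0,k1,k0,k0,k0],[k1,k1,k1,k0,k0,k0],[k1,k0,k0,k0,k1,k1],[k0,k2,k0,k0,k0,k0],[k0,k1,k1,k0,k0,k1],[k0,k0,k1,k1,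
    k0,k0],[k0,k0,k1,k0,k0,k1]]
    [.ref k6 k0 [(z1,[z1])],.ref k4 k0 [(z1,[z1])],.ref k3 k0 [(z1,[z1])],.contra [z1],.ref k2 k0 [(z1,[y1,z1])],
    .ref k1 k0 [(z1,[y1,z1])],.ref k0 k0 [(z1,[y1,z1])]])]⟩

/-- classes `0 0 1 0 0 1`, types `C0 C0 S0 C2 C2 S0` -/
noncomputable def cU6_726 : CertX :=
  ⟨[k4,k4,k16,k6,k6,k16],[(false,k0,[k0,k1,k2,k3,k4,k5]),(false,k3,[k3,k4,k5,k0,k1,k2]),(true,k2,[k2,k1,k0,k5,k4,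
    k3])],[[[([z1,z1,z1,z0,z0,z0],z2)],[([z1,z0,z0,z1,z0,z0],z2)],[([z1,z0,z1,z1,z0,z1],z2)],[([z1,z0,z0,z1,z1,z0],
    z2)],[([z1,z0,z1,z0,z1,z0],z2)],[([z1,z0,z1,z0,z0,z0],z1),([z0,z3,z0,z0,z0,z0],z1),([z0,z0,z0,z1,z0,z1],z2)],
    [([z1,z0,z1,z0,z0,z0],z1),([z0,z2,z0,z0,z0,z0],z1),([z0,z0,z0,z1,z0,z1],z2)],[([z1,z0,z1,z0,z0,z0],z1),([z0,z3,z0,
    z0,z0,z0],z2),([z0,z0,z0,z1,z0,z1],z2)],[([z1,z0,z1,z0,z0,z0],z1),([z0,z1,z0,z0,z1,z0],z1)],[([z3,z0,z3,z0,z0,z0],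
    z2),([z0,z3,z0,z0,z0,z0],z2),([z0,z0,z0,z1,z0,z1],z2)],[([z1,z0,z1,z0,z0,z0],z2),([z0,z3,z0,z0,z0,z0],z2)],[([z1,
    z0,z1,z0,z0,z0],z2)]],[[]]],
    [.old (.leafM k0 [k2,k3,k4,k5,k0,k1] [(z1,[y1,z1])] []),
    .old (.leafM k2 [k1,k2,k4,k5] [] [(k3,k0,z1,[z1]),(k0,k3,z1,[z1])]),
    .old (.leafM k2 [k2,k3,k5,k0] [] [(k4,k1,z1,[y1,z1]),(k1,k4,z1,[y1,z1])]),
    .old (.leafM k3 [k4,k5,k0,k1,k2,k3] [(z1,[y1,z1])] []),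
    .old (.leafM k5 [k1,k2,k3,k4,k5,k0] [(z1,[z1]),(z1,[y1,z1])] []),
    .old (.leafM k11 [k2,k4,k0,k1] [(z1,[y3,y1,y3,z3]),(z1,[z0,z1]),(z1,[z1])] [(k3,k5,z1,[z0,z0,z1]),(k5,k3,z1,[z0,z0,
    z1])]),
    .old (.leafM k12 [k0,k1,k2,k4] [(z1,[z0,z1]),(z1,[y2,y1,y2,z2]),(z1,[z1])] [(k3,k5,z1,[z0,z0,z1]),(k5,k3,z1,[z0,z0,
    z1])]),
    .old (.leafM k11 [k0,k1,k2,k4] [(z1,[z0,z1]),(z1,[y3,y1,y3,z3]),(z1,[z1])] [(k3,k5,z1,[z0,z0,z1]),(k5,k3,z1,[z0,z0,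
    z1])]),
    .old (.lp [k72,k60,k48,k98,k70,k122] [k25,k25,k31,k31,k37,k37,k12,k12,k26,k26,k0,k0] k0 [[k0,k0,k0,k0,k0,k0,k0,k37],
    [],[],[k0,k0,k0,k0,k0,k0,k0,k0,k23],[],[],[k0,k37],[k0,k0,k0,k0,k0,k0,k0,k0,k0,k20],[k0,k0,k0,k0,k0,k0,k20],[k0,
    k0,k23]] (nat_lit 240) k6
    [[(k4,k60),(k1,k72),(k7,k85),(k10,k97)],[(k6,k48),(k5,k60),(k3,k66),(k8,k71)],[(k2,k60),(k0,k66),(k11,k91),(k9,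
    k102)],[(k5,k54),(k3,k60),(k6,k79),(k8,k88)],[(k2,k54),(k9,k59),(k0,k60),(k11,k62)],[(k4,k48),(k1,k60),(k7,k73),
    (k10,k85)],[(k4,k73),(k1,k85),(k7,k98),(k10,k110)],[(k0,k48),(k2,k79),(k9,k84),(k11,k130)],[(k8,k50),(k5,k59),(k6,
    k84),(k3,k102)],[(k9,k50),(k0,k71),(k2,k88),(k11,k96)],[(k5,k62),(k3,k91),(k8,k96),(k6,k130)],[(k4,k85),(k1,k97),
    (k7,k110),(k10,k122)]]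
    [] k0
    [[k1,k0,k1,k0,k0,k0],[k1,k1,k1,k0,k0,k0],[k1,k0,k1,k0,k1,k0],[k1,k0,k0,k1,k0,k0],[k1,k1,k0,k1,k0,k0],[k0,k2,k0,k0,
    k0,k0],[k0,k3,k0,k0,k0,k0],[k0,k1,k0,k0,k1,k0],[k0,k1,k1,k0,k0,k1],[k0,k0,k1,k0,k0,k1],[k0,k0,k0,k0,k2,k0],[k0,k0,
    k0,k0,k3,k0],[k0,k0,k0,k0,k4,k0]]
    [.contra [y1,z2],.contra [z1,y1],.contra [z1,y1],.ref k1 k0 [(z1,[z1])],.ref k3 k1 [(z1,[z1])],.contra [z1],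
    .ref k7 k0 [(z1,[z0,z1]),(z1,[z1]),(z1,[z0,y1,y1,z1])],.contra [y1,z1,z1],.ref k3 k0 [(z1,[y1,z0,z0,z1])],
    .ref k1 k2 [(z1,[z1])],.contra [z1],.ref k5 k0 [(z1,[z0,z1]),(z1,[y1,z0,z3]),(z1,[z0,y1,y1,z1])],.ref k6 k0 [(z1,
    [z0,z1]),(z2,[y1,z0,z4]),(z1,[z0,y1,y1,z1])]]),
    .old (.leafM k10 [k0,k1,k2,k4] [(z1,[z0,z1]),(z1,[y1,y1,y3,z3]),(z1,[z1])] [(k3,k5,z1,[z0,z0,z1]),(k5,k3,z1,[z0,z0,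
    z1])]),
    .old (.lp [k110,k80,k130,k48,k62,k48] [k10,k10,k25,k25,k0,k0,k41,k41,k34,k34,k41,k41] k0 [[k0,k0,k0,k0,k0,k0,k0,k14],
    [],[],[k0,k0,k0,k0,k0,k0,k0,k0,k22],[],[],[k0,k14],[],[],[k0,k0,k22]] (nat_lit 240) k6
    [[(k7,k79),(k10,k79),(k1,k110),(k4,k120)],[(k6,k65),(k8,k86),(k3,k95),(k5,k120)],[(k11,k64),(k2,k80),(k9,k85),(k0,
    k95)],[(k6,k64),(k3,k80),(k8,k93),(k5,k105)],[(k11,k67),(k9,k96),(k2,k105),(k0,k120)],[(k7,k89),(k10,k89),(k1,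
    k120),(k4,k130)],[(k7,k48),(k10,k48),(k1,k79),(k4,k89)],[(k11,k48),(k9,k55),(k2,k64),(k0,k65)],[(k6,k55),(k8,k62),
    (k3,k85),(k5,k96)],[(k11,k55),(k9,k62),(k0,k86),(k2,k93)],[(k6,k48),(k8,k55),(k3,k64),(k5,k67)],[(k7,k48),(k10,
    k48),(k1,k79),(k4,k89)]]
    [] k0
    [[k1,k0,k0,k1,k0,k0],[k1,k1,k0,k1,k0,k0],[k1,k0,k0,k1,k1,k0],[k0,k2,k0,k0,k0,k0],[k0,k1,k0,k0,k1,k0],[k0,k1,k0,k1,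
    k0,k1],[k0,k0,k1,k0,k0,k1],[k0,k0,k0,k2,k0,k2],[k0,k0,k0,k1,k0,k1],[k0,k0,k0,k1,k1,k1],[k0,k0,k0,k1,k2,k1],[k0,k0,
    k0,k0,k2,k0],[k0,k0,k0,k0,k3,k0]]
    [.ref k1 k0 [(z1,[z1])],.ref k3 k1 [(z1,[z1])],.ref k3 k0 [(z1,[z1])],.contra [z1],.contra [y1,y1,z0,z1],
    .contra [y1,y1,z0,z1],.ref k1 k2 [(z1,[z1])],.ref k8 k1 [(z2,[z1]),(z2,[y1,y2,z0,z2])],.contra [y1,y1,z0,z1],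
    .contra [z1,z1,z1,y1],.ref k9 k1 [(z1,[y3,y6,y2,z6]),(z1,[z3,z3,z1,y3]),(z1,[z0,z1])],.contra [z1],
    .ref k9 k1 [(z1,[y1,y3,y1,z3]),(z1,[z1]),(z1,[z0,z1])]]),
    .old (.lp [k48,k48,k54,k23,k40,k26] [k3,k3,k3,k3,k0,k0,k16,k15,k4,k10,k14,k14] k0 [[k0,k0,k0,k0,k0,k0,k0,k0,k0,k23],
    [k0,k0,k0,k18],[k18],[k0,k0,k0,k0,k0,k0,k0,k0,k2],[],[],[],[],[k0,k23],[k0,k0,k2]] k120 k6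
    [[(k7,k36),(k10,k37),(k1,k48),(k4,k51)],[(k8,k24),(k6,k35),(k3,k48),(k5,k69)],[(k2,k30),(k9,k41),(k0,k48),(k11,
    k60)],[(k3,k30),(k6,k35),(k8,k49),(k5,k51)],[(k11,k38),(k9,k44),(k2,k51),(k0,k69)],[(k7,k39),(k10,k40),(k1,k51),
    (k4,k54)],[(k7,k24),(k10,k25),(k1,k36),(k4,k39)],[(k11,k24),(k9,k28),(k0,k35),(k2,k35)],[(k6,k28),(k8,k40),(k3,
    k41),(k5,k44)],[(k0,k24),(k11,k36),(k9,k40),(k2,k49)],[(k6,k24),(k8,k36),(k5,k38),(k3,k60)],[(k7,k25),(k10,k26),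
    (k1,k37),(k4,k40)]]
    [] k0
    [[k1,k0,k1,k0,k1,k0],[k1,k0,k0,k1,k0,k0],[k1,k1,k0,k1,k0,k0],[k1,k0,k0,k1,k1,k0],[k0,k2,k0,k0,k0,k0],[k0,k3,k0,k0,
    k0,k0],[k0,k1,k0,k0,k1,k0],[k0,k0,k1,k0,k0,k1],[k0,k0,k0,k2,k0,k2],[k0,k0,k0,k1,k0,k1],[k0,k0,k0,k1,k1,k1],[k0,k0,
    k0,k0,k2,k0]]
    [.contra [z1,y1],.ref k1 k0 [(z1,[z1])],.ref k3 k1 [(z1,[z1])],.ref k3 k0 [(z1,[z1])],.contra [z1],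
    .ref k10 k0 [(z1,[z0,z1]),(z1,[z1])],.contra [y1,y1,z1],.ref k1 k2 [(z1,[z1])],.ref k8 k1 [(z2,[z1]),(z2,[y1,y2,
    z2])],.contra [y1,y1,z1],.contra [y1,y1,z1],.contra [z1]]),
    .old (.lp [k6,k12,k6,k6,k8,k8] [k3,k3,k0,k0,k3,k3,k3,k3,k2,k2,k2,k2] k0 [[],[],[k0,k0,k0,k0,k0,k0,k0,k2],[],[],[],[k0,
    k0,k0,k2]] k24 k5
    [[(k1,k6),(k4,k6),(k7,k6),(k10,k7)],[(k5,k6),(k6,k6),(k8,k7),(k3,k9)],[(k0,k9),(k9,k10),(k11,k10),(k2,k12)],[(k6,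
    k7),(k5,k9),(k8,k10),(k3,k12)],[(k0,k6),(k11,k7),(k2,k9),(k9,k9)],[(k1,k6),(k4,k6),(k7,k6),(k10,k7)],[(k1,k6),(k4,
    k6),(k7,k6),(k10,k7)],[(k0,k6),(k2,k7),(k9,k7),(k11,k7)],[(k6,k7),(k8,k8),(k5,k9),(k3,k10)],[(k0,k7),(k9,k8),(k11,
    k8),(k2,k10)],[(k5,k7),(k6,k7),(k8,k8),(k3,k10)],[(k1,k7),(k4,k7),(k7,k7),(k10,k8)]]
    [] k0
    [[k1,k0,k1,k0,k0,k0],[k1,k0,k1,k0,k1,k0],[k1,k0,k0,k1,k0,k0],[k1,k1,k0,k1,k0,k0],[k1,k0,k0,k1,k1,k0],[k0,k1,k0,k0,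
    k1,k0],[k0,k0,k1,k0,k0,k1],[k0,k0,k0,k1,k0,k1],[k0,k0,k0,k1,k1,k1],[k0,k0,k0,k0,k2,k0]]
    [.ref k11 k0 [(z1,[z1])],.ref k4 k0 [(z1,[z1])],.ref k1 k0 [(z1,[z1])],.ref k3 k1 [(z1,[z1])],.ref k3 k0 [(z1,
    [z1])],.ref k2 k0 [(z1,[y1,z1])],.ref k1 k2 [(z1,[z1])],.ref k11 k1 [(z1,[z1])],.ref k0 k0 [(z1,[y1,z1])],
    .contra [z1]])]⟩

/-- classes `0 0 1 0 0 1`, types `C0 C2 B0 C0 C2 B1` -/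
noncomputable def cU6_727 : CertX :=
  ⟨[k4,k6,k24,k4,k6,k25],[(false,k3,[k3,k4,k5,k0,k1,k2]),(false,k0,[k0,k1,k2,k3,k4,k5])],[[[([z1,z1,z1,z0,z0,z0],z2)],
    [([z1,z0,z1,z0,z1,z0],z2)],[([z1,z0,z0,z1,z1,z0],z2)],[]]],
    [.old (.leafM k0 [k2,k3,k4,k5,k0,k1] [(z1,[y1,z1])] []),
    .old (.leafM k1 [k0,k1,k2,k3,k4,k5] [(z1,[y1,z1]),(z1,[z1])] []),
    .old (.leafM k3 [k4,k5,k0,k1,k2,k3] [(z1,[y1,z1])] []),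
    .old (.lp [k2,k2,k4,k2,k2,k2] [k1,k1,k1,k1,k0,k0,k1,k1,k1,k1,k1,k1] k0 [] k8 k5
    [[(k7,k2),(k4,k3)],[(k2,k2),(k3,k2),(k8,k2),(k9,k2)],[(k0,k2),(k6,k2),(k11,k2),(k5,k3)],[(k0,k2),(k6,k2),(k11,k2),
    (k5,k3)],[(k2,k3),(k3,k3),(k8,k3),(k9,k3)],[(k1,k3),(k10,k3)],[(k1,k2),(k10,k2)],[(k2,k2),(k3,k2),(k8,k2),(k9,
    k2)],[(k0,k2),(k6,k2),(k11,k2),(k5,k3)],[(k0,k2),(k6,k2),(k11,k2),(k5,k3)],[(k2,k2),(k3,k2),(k8,k2),(k9,k2)],[(k7,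
    k2),(k4,k3)]]
    [] k0
    [[k1,k1,k0,k1,k0,k0],[k1,k0,k0,k1,k1,k0],[k0,k1,k0,k1,k0,k1],[k0,k0,k0,k1,k1,k1]]
    [.ref k2 k0 [(z1,[z1])],.ref k2 k1 [(z1,[z1])],.ref k1 k1 [(z1,[y1,z1])],.ref k0 k1 [(z1,[y1,z1])]])]⟩

/-- classes `0 0 1 0 0 1`, types `C0 C2 B0 C2 C0 B1` -/
noncomputable def cU6_728 : CertX :=
  ⟨[k4,k6,k24,k6,k4,k25],[(false,k0,[k0,k1,k2,k3,k4,k5]),(true,k2,[k2,k1,k0,k5,k4,k3])],[[[([z1,z1,z1,z0,z0,z0],z2)],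
    [([z1,z0,z0,z1,z0,z0],z2)],[([z1,z0,z1,z1,z0,z1],z2)],[]]],
    [.old (.leafM k0 [k2,k3,k4,k5,k0,k1] [(z1,[y1,z1])] []),
    .old (.leafM k2 [k1,k2,k4,k5] [] [(k3,k0,z1,[z1]),(k0,k3,z1,[z1])]),
    .old (.leafM k5 [k0,k2,k3,k5] [] [(k1,k4,z1,[y1,z1]),(k4,k1,z1,[y1,z1])]),
    .old (.lp [k4,k2,k2,k2,k2,k2] [k0,k0,k1,k1,k1,k1,k1,k1,k1,k1,k1,k1] k0 [] k8 k5
    [[(k4,k3),(k7,k3)],[(k2,k3),(k3,k3),(k6,k3),(k11,k3)],[(k5,k2),(k8,k2),(k9,k2),(k0,k3)],[(k5,k2),(k8,k2),(k9,k2),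
    (k0,k3)],[(k2,k2),(k3,k2),(k6,k2),(k11,k2)],[(k10,k2),(k1,k3)],[(k10,k2),(k1,k3)],[(k5,k2),(k8,k2),(k9,k2),(k0,
    k3)],[(k2,k2),(k3,k2),(k6,k2),(k11,k2)],[(k2,k2),(k3,k2),(k6,k2),(k11,k2)],[(k5,k2),(k8,k2),(k9,k2),(k0,k3)],[(k4,
    k2),(k7,k2)]]
    [] k0
    [[k1,k0,k0,k1,k0,k0],[k0,k1,k0,k0,k1,k0],[k0,k0,k1,k0,k0,k1],[k0,k0,k0,k1,k1,k1]]
    [.ref k1 k0 [(z1,[z1])],.ref k2 k0 [(z1,[y1,z1])],.ref k1 k1 [(z1,[z1])],.ref k0 k0 [(z1,[y1,z1])]])]⟩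

/-- classes `0 0 1 0 0 1`, types `C0 C2 C0 C0 C2 C0` -/
noncomputable def cU6_729 : CertX :=
  ⟨[k4,k6,k20,k4,k6,k20],[(false,k0,[k0,k1,k2,k3,k4,k5]),(true,k2,[k2,k1,k0,k5,k4,k3])],[[[([z1,z0,z0,z0,z1,z1],z2)],
    [([z1,z0,z1,z0,z1,z0],z2)],[([z1,z1,z1,z0,z0,z0],z2)],[]]],
    [.old (.leafM k0 [k0,k1,k2,k3,k4,k5] [(z1,[y1,z1])] []),
    .old (.leafM k1 [k0,k1,k2,k3,k4,k5] [(z1,[y1,z1]),(z1,[z1])] []),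
    .old (.leafM k0 [k2,k3,k4,k5,k0,k1] [(z1,[y1,z1])] []),
    .old (.lp [k2,k2,k2,k4,k2,k2] [k1,k1,k1,k1,k1,k1,k0,k0,k1,k1,k1,k1] k0 [] k8 k5
    [[(k4,k2),(k10,k2)],[(k2,k2),(k3,k2),(k8,k2),(k9,k2)],[(k0,k2),(k5,k2),(k11,k2),(k6,k3)],[(k0,k2),(k5,k2),(k11,
    k2),(k6,k3)],[(k2,k2),(k3,k2),(k8,k2),(k9,k2)],[(k1,k2),(k7,k3)],[(k4,k3),(k10,k3)],[(k2,k3),(k3,k3),(k8,k3),(k9,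
    k3)],[(k0,k2),(k5,k2),(k11,k2),(k6,k3)],[(k0,k2),(k5,k2),(k11,k2),(k6,k3)],[(k2,k2),(k3,k2),(k8,k2),(k9,k2)],[(k1,
    k2),(k7,k3)]]
    [] k0
    [[k1,k1,k1,k0,k0,k0],[k1,k0,k1,k0,k1,k0],[k1,k1,k0,k0,k0,k1],[k1,k0,k0,k0,k1,k1]]
    [.ref k2 k0 [(z1,[z1])],.ref k1 k0 [(z1,[z1])],.ref k0 k1 [(z1,[y1,z1])],.ref k0 k0 [(z1,[z1])]])]⟩

/-- classes `0 0 1 0 0 1`, types `C0 C2 C0 C0 C2 C2` -/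
noncomputable def cU6_730 : CertX :=
  ⟨[k4,k6,k20,k4,k6,k22],[(true,k2,[k2,k1,k0,k5,k4,k3]),(false,k0,[k0,k1,k2,k3,k4,k5]),(false,k3,[k3,k4,k5,k0,k1,
    k2])],[[[([z1,z0,z0,z1,z1,z0],z2)],[([z1,z0,z0,z0,z1,z1],z2)],[]]],
    [.old (.leafM k3 [k4,k5,k0,k1,k2,k3] [(z1,[y1,z1])] []),
    .old (.leafM k0 [k0,k1,k2,k3,k4,k5] [(z1,[y1,z1])] []),
    .old (.lp [k6,k4,k4,k6,k6,k4] [k0,k0,k1,k1,k1,k1,k0,k0,k0,k0,k1,k1] k0 [] k16 k5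
    [[(k10,k5),(k7,k6)],[(k2,k5),(k3,k5),(k8,k6),(k9,k6)],[(k5,k4),(k11,k4),(k0,k5),(k6,k5)],[(k5,k4),(k11,k4),(k0,
    k5),(k6,k5)],[(k2,k4),(k3,k4),(k8,k5),(k9,k5)],[(k10,k4),(k7,k5)],[(k4,k5),(k1,k6)],[(k2,k5),(k3,k5),(k8,k6),(k9,
    k6)],[(k5,k5),(k11,k5),(k0,k6),(k6,k6)],[(k5,k5),(k11,k5),(k0,k6),(k6,k6)],[(k2,k4),(k3,k4),(k8,k5),(k9,k5)],[(k4,
    k4),(k1,k5)]]
    [] k0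
    [[k1,k1,k0,k0,k0,k1],[k0,k1,k1,k1,k0,k0],[k0,k1,k1,k0,k0,k1],[k0,k0,k1,k0,k1,k1]]
    [.ref k1 k0 [(z1,[y1,z1])],.ref k1 k1 [(z1,[y1,z1])],.ref k0 k1 [(z1,[y1,z1])],.ref k0 k2 [(z1,[y1,z1])]])]⟩

/-- classes `0 0 1 0 0 1`, types `C0 C2 C0 C2 C0 C0` -/
noncomputable def cU6_731 : CertX :=
  ⟨[k4,k6,k20,k6,k4,k20],[(false,k0,[k0,k1,k2,k3,k4,k5]),(false,k3,[k3,k4,k5,k0,k1,k2])],[[[([z1,z1,z1,z0,z0,z0],z2)],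
    [([z1,z0,z0,z0,z0,z1],z2)],[([z1,z0,z1,z1,z0,z1],z2)],[]]],
    [.old (.leafM k0 [k2,k3,k4,k5,k0,k1] [(z1,[y1,z1])] []),
    .old (.leafM k0 [k1,k2,k3,k4] [] [(k5,k0,z1,[z1]),(k0,k5,z1,[z1])]),
    .old (.leafM k2 [k2,k3,k5,k0] [] [(k4,k1,z1,[y1,z1]),(k1,k4,z1,[y1,z1])]),
    .old (.lp [k4,k2,k2,k2,k2,k2] [k0,k0,k1,k1,k1,k1,k1,k1,k1,k1,k1,k1] k0 [] k8 k5
    [[(k4,k3),(k10,k3)],[(k2,k3),(k3,k3),(k6,k3),(k11,k3)],[(k5,k2),(k8,k2),(k9,k2),(k0,k3)],[(k5,k2),(k8,k2),(k9,k2),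
    (k0,k3)],[(k2,k2),(k3,k2),(k6,k2),(k11,k2)],[(k7,k2),(k1,k3)],[(k4,k2),(k10,k2)],[(k5,k2),(k8,k2),(k9,k2),(k0,
    k3)],[(k2,k2),(k3,k2),(k6,k2),(k11,k2)],[(k2,k2),(k3,k2),(k6,k2),(k11,k2)],[(k5,k2),(k8,k2),(k9,k2),(k0,k3)],[(k7,
    k2),(k1,k3)]]
    [] k0
    [[k1,k0,k0,k0,k0,k1],[k0,k1,k0,k0,k1,k0],[k0,k0,k1,k1,k0,k0],[k0,k0,k0,k1,k1,k1]]
    [.ref k1 k0 [(z1,[z1])],.ref k2 k0 [(z1,[y1,z1])],.ref k1 k1 [(z1,[z1])],.ref k0 k0 [(z1,[y1,z1])]])]⟩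

/-- classes `0 0 1 0 0 1`, types `C0 C2 C0 C2 C0 C2` -/
noncomputable def cU6_732 : CertX :=
  ⟨[k4,k6,k20,k6,k4,k22],[(false,k0,[k0,k1,k2,k3,k4,k5]),(false,k3,[k3,k4,k5,k0,k1,k2]),(true,k2,[k2,k1,k0,k5,k4,
    k3])],[[[([z1,z0,z0,z1,z0,z0],z2)],[([z1,z0,z0,z0,z0,z1],z2)],[([z1,z0,z1,z1,z0,z1],z2)],[]]],
    [.old (.leafM k2 [k1,k2,k4,k5] [] [(k3,k0,z1,[z1]),(k0,k3,z1,[z1])]),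
    .old (.leafM k0 [k1,k2,k3,k4] [] [(k5,k0,z1,[z1]),(k0,k5,z1,[z1])]),
    .old (.leafM k2 [k2,k3,k5,k0] [] [(k4,k1,z1,[y1,z1]),(k1,k4,z1,[y1,z1])]),
    .old (.lp [k0,k2,k0,k2,k0,k2] [k1,k1,k0,k0,k1,k1,k0,k0,k1,k1,k0,k0] k0 [] k4 k5
    [[(k7,k1),(k10,k1)],[(k2,k1),(k3,k1),(k6,k1),(k11,k1)],[(k0,k1),(k5,k1),(k8,k1),(k9,k1)],[(k0,k1),(k5,k1),(k8,k1),
    (k9,k1)],[(k2,k1),(k3,k1),(k6,k1),(k11,k1)],[(k7,k1),(k10,k1)],[(k1,k1),(k4,k1)],[(k0,k1),(k5,k1),(k8,k1),(k9,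
    k1)],[(k2,k1),(k3,k1),(k6,k1),(k11,k1)],[(k2,k1),(k3,k1),(k6,k1),(k11,k1)],[(k0,k1),(k5,k1),(k8,k1),(k9,k1)],[(k1,
    k1),(k4,k1)]]
    [] k0
    [[k1,k0,k0,k1,k0,k0],[k1,k0,k0,k0,k0,k1],[k0,k1,k0,k0,k1,k0],[k0,k0,k1,k1,k0,k0],[k0,k0,k1,k0,k0,k1]]
    [.ref k0 k0 [(z1,[z1])],.ref k1 k0 [(z1,[z1])],.ref k2 k0 [(z1,[y1,z1])],.ref k1 k1 [(z1,[z1])],.ref k0 k2 [(z1,
    [z1])]])]⟩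

/-- classes `0 0 1 0 0 1`, types `C0 C2 N0 C0 C2 N1` -/
noncomputable def cU6_733 : CertX :=
  ⟨[k4,k6,k28,k4,k6,k29],[(false,k0,[k0,k1,k2,k3,k4,k5])],[[[([z1,z0,z1,z0,z1,z0],z2)],[([z1,z1,z1,z0,z0,z0],z2)],
    []]],
    [.old (.leafM k1 [k0,k1,k2,k3,k4,k5] [(z1,[y1,z1]),(z1,[z1])] []),
    .old (.leafM k0 [k2,k3,k4,k5,k0,k1] [(z1,[y1,z1])] []),
    .old (.lp [k2,k2,k2,k2,k2,k4] [k1,k1,k1,k1,k1,k1,k1,k1,k1,k1,k0,k0] k0 [] k8 k5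
    [[(k4,k2)],[(k2,k2),(k3,k2),(k8,k2),(k9,k2)],[(k0,k2),(k5,k2),(k6,k2),(k11,k3)],[(k0,k2),(k5,k2),(k6,k2),(k11,
    k3)],[(k2,k2),(k3,k2),(k8,k2),(k9,k2)],[(k1,k2)],[(k10,k3)],[(k2,k2),(k3,k2),(k8,k2),(k9,k2)],[(k0,k2),(k5,k2),
    (k6,k2),(k11,k3)],[(k0,k2),(k5,k2),(k6,k2),(k11,k3)],[(k2,k3),(k3,k3),(k8,k3),(k9,k3)],[(k7,k3)]]
    [] k0
    [[k1,k1,k1,k0,k0,k0],[k1,k0,k1,k0,k1,k0]]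
    [.ref k1 k0 [(z1,[z1])],.ref k0 k0 [(z1,[z1])]])]⟩

/-- classes `0 0 1 0 0 1`, types `C0 C2 N0 C0 C2 N2` -/
noncomputable def cU6_734 : CertX :=
  ⟨[k4,k6,k28,k4,k6,k30],[(false,k0,[k0,k1,k2,k3,k4,k5]),(false,k3,[k3,k4,k5,k0,k1,k2])],[[[([z1,z0,z0,z1,z1,z0],z2)],
    []]],
    [.old (.leafM k3 [k4,k5,k0,k1,k2,k3] [(z1,[y1,z1])] []),
    .old (.lp [k4,k2,k2,k2,k2,k2] [k0,k0,k1,k1,k1,k1,k1,k1,k1,k1,k1,k1] k0 [] k8 k5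
    [[(k7,k3)],[(k2,k3),(k3,k3),(k8,k3),(k9,k3)],[(k5,k2),(k6,k2),(k11,k2),(k0,k3)],[(k5,k2),(k6,k2),(k11,k2),(k0,
    k3)],[(k2,k2),(k3,k2),(k8,k2),(k9,k2)],[(k10,k2)],[(k1,k3)],[(k2,k2),(k3,k2),(k8,k2),(k9,k2)],[(k5,k2),(k6,k2),
    (k11,k2),(k0,k3)],[(k5,k2),(k6,k2),(k11,k2),(k0,k3)],[(k2,k2),(k3,k2),(k8,k2),(k9,k2)],[(k4,k2)]]
    [] k0
    [[k0,k1,k1,k0,k0,k1],[k0,k0,k1,k0,k1,k1]]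
    [.ref k0 k0 [(z1,[y1,z1])],.ref k0 k1 [(z1,[y1,z1])]])]⟩

/-- classes `0 0 1 0 0 1`, types `C0 C2 N0 C2 C0 N1` -/
noncomputable def cU6_735 : CertX :=
  ⟨[k4,k6,k28,k6,k4,k29],[(false,k0,[k0,k1,k2,k3,k4,k5])],[[[([z1,z1,z1,z0,z0,z0],z2)],[([z1,z0,z1,z1,z0,z1],z2)],
    []]],
    [.old (.leafM k0 [k2,k3,k4,k5,k0,k1] [(z1,[y1,z1])] []),
    .old (.leafM k5 [k0,k2,k3,k5] [] [(k1,k4,z1,[y1,z1]),(k4,k1,z1,[y1,z1])]),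
    .old (.lp [k4,k2,k2,k2,k2,k2] [k0,k0,k1,k1,k1,k1,k1,k1,k1,k1,k1,k1] k0 [] k8 k5
    [[(k4,k3)],[(k2,k3),(k3,k3),(k6,k3),(k11,k3)],[(k5,k2),(k8,k2),(k9,k2),(k0,k3)],[(k5,k2),(k8,k2),(k9,k2),(k0,k3)],
    [(k2,k2),(k3,k2),(k6,k2),(k11,k2)],[(k1,k3)],[(k10,k2)],[(k5,k2),(k8,k2),(k9,k2),(k0,k3)],[(k2,k2),(k3,k2),(k6,
    k2),(k11,k2)],[(k2,k2),(k3,k2),(k6,k2),(k11,k2)],[(k5,k2),(k8,k2),(k9,k2),(k0,k3)],[(k7,k2)]]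
    [] k0
    [[k0,k1,k0,k0,k1,k0],[k0,k0,k0,k1,k1,k1]]
    [.ref k1 k0 [(z1,[y1,z1])],.ref k0 k0 [(z1,[y1,z1])]])]⟩

/-- classes `0 0 1 0 0 1`, types `C0 C2 N0 C2 C0 N2` -/
noncomputable def cU6_736 : CertX :=
  ⟨[k4,k6,k28,k6,k4,k30],[(false,k0,[k0,k1,k2,k3,k4,k5]),(true,k2,[k2,k1,k0,k5,k4,k3])],[[[([z1,z0,z0,z1,z0,z0],z2)],
    [([z1,z0,z1,z1,z0,z1],z2)],[]]],
    [.old (.leafM k2 [k1,k2,k4,k5] [] [(k3,k0,z1,[z1]),(k0,k3,z1,[z1])]),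
    .old (.leafM k6 [k0,k2,k3,k5] [] [(k1,k4,z1,[y1,z1]),(k4,k1,z1,[y1,z1])]),
    .old (.lp [k0,k2,k0,k2,k0,k2] [k1,k1,k0,k0,k1,k1,k0,k0,k1,k1,k0,k0] k0 [] k4 k5
    [[(k7,k1)],[(k2,k1),(k3,k1),(k6,k1),(k11,k1)],[(k0,k1),(k5,k1),(k8,k1),(k9,k1)],[(k0,k1),(k5,k1),(k8,k1),(k9,k1)],
    [(k2,k1),(k3,k1),(k6,k1),(k11,k1)],[(k10,k1)],[(k1,k1)],[(k0,k1),(k5,k1),(k8,k1),(k9,k1)],[(k2,k1),(k3,k1),(k6,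
    k1),(k11,k1)],[(k2,k1),(k3,k1),(k6,k1),(k11,k1)],[(k0,k1),(k5,k1),(k8,k1),(k9,k1)],[(k4,k1)]]
    [] k0
    [[k1,k0,k0,k1,k0,k0],[k0,k1,k0,k0,k1,k0],[k0,k0,k1,k0,k0,k1]]
    [.ref k0 k0 [(z1,[z1])],.ref k1 k0 [(z1,[y1,z1])],.ref k0 k1 [(z1,[z1])]])]⟩

/-- classes `0 0 1 0 0 1`, types `C0 C2 S0 C0 C2 S0` -/
noncomputable def cU6_737 : CertX :=
  ⟨[k4,k6,k16,k4,k6,k16],[(false,k0,[k0,k1,k2,k3,k4,k5]),(false,k3,[k3,k4,k5,k0,k1,k2]),(true,k2,[k2,k1,k0,k5,k4,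
    k3])],[[[([z1,z0,z0,z0,z1,z1],z2)],[([z1,z0,z0,z1,z1,z0],z2)],[([z1,z0,z1,z0,z1,z0],z2)],[([z1,z1,z1,z0,z0,z0],
    z2)],[([z1,z0,y1,y1,y1,y1],y2)],[([z2,z0,z0,z0,z1,z0],z2)],[]]],
    [.old (.leafM k0 [k0,k1,k2,k3,k4,k5] [(z1,[y1,z1])] []),
    .old (.leafM k3 [k4,k5,k0,k1,k2,k3] [(z1,[y1,z1])] []),
    .old (.leafM k1 [k0,k1,k2,k3,k4,k5] [(z1,[y1,z1]),(z1,[z1])] []),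
    .old (.leafM k0 [k2,k3,k4,k5,k0,k1] [(z1,[y1,z1])] []),
    .old (.lp [k50,k44,k42,k52,k44,k50] [k1,k1,k4,k4,k5,k5,k0,k0,k4,k4,k1,k1] k0 [[],[],[k0,k0,k0,k0,k0,k0,k0,k12],[],[k0,
    k0,k0,k0,k0,k0,k0,k0,k0,k0,k10,k10],[k0,k0,k0,k0,k4],[k0,k0,k0,k12],[],[],[],[k0,k0,k0,k0,k0,k10],[k0,k0,k0,k0,k0,
    k10]] k144 k5
    [[(k4,k36),(k1,k50),(k10,k50),(k7,k61)],[(k2,k47),(k3,k47),(k8,k47),(k9,k47)],[(k5,k43),(k0,k47),(k11,k47),(k6,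
    k48)],[(k6,k36),(k5,k43),(k0,k47),(k11,k47)],[(k2,k43),(k3,k43),(k8,k43),(k9,k55)],[(k1,k36),(k10,k36),(k4,k46),
    (k7,k47)],[(k4,k47),(k7,k48),(k1,k61),(k10,k61)],[(k2,k36),(k3,k48),(k8,k48),(k9,k48)],[(k0,k47),(k11,k47),(k6,
    k48),(k5,k55)],[(k5,k43),(k0,k47),(k11,k47),(k6,k48)],[(k2,k47),(k3,k47),(k8,k47),(k9,k47)],[(k4,k36),(k1,k50),
    (k10,k50),(k7,k61)]]
    [] k0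
    [[k1,k1,k1,k0,k0,k0],[k1,k0,k1,k0,k1,k0],[k0,k1,k2,k0,k0,k0],[k0,k1,k1,k1,k0,k0],[k0,k1,k1,k0,k0,k1],[k0,k1,k0,k2,
    k0,k0],[k0,k0,k1,k1,k1,k0],[k0,k0,k1,k0,k1,k1]]
    [.ref k3 k0 [(z1,[z1])],.ref k2 k0 [(z1,[z1])],.ref k3 k0 [(z2,[z1,z1,z1])],.ref k0 k0 [(z1,[y1,z0,z1])],
    .ref k1 k0 [(z1,[y1,z0,z1])],.ref k1 k1 [(z2,[z1,z1,z1])],.ref k0 k2 [(z1,[z1])],.ref k1 k1 [(z1,[y1,z0,z1])]]),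
    .old (.lp [k12,k20,k14,k14,k16,k18] [k4,k4,k0,k0,k3,k3,k3,k3,k2,k2,k1,k1] k0 [[],[k0,k0,k0,k0,k0,k0,k0,k0,k2],[],[],
    [],[],[k0,k0,k0,k0,k0,k0,k0,k0,k0,k2],[],[k0,k0,k0,k0,k0,k0,k0,k2],[k2],[k0,k0,k0,k0,k0,k0,k0,k0,k0,k0,k0,
    k6]] k48 k5
    [[(k4,k13),(k7,k13),(k10,k15),(k1,k18)],[(k9,k14),(k2,k16),(k3,k16),(k8,k16)],[(k0,k16),(k5,k17),(k6,k17),(k11,
    k17)],[(k0,k16),(k5,k17),(k6,k17),(k11,k19)],[(k8,k15),(k9,k15),(k2,k17),(k3,k17)],[(k1,k13),(k4,k14),(k7,k14),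
    (k10,k16)],[(k1,k13),(k4,k14),(k7,k14),(k10,k16)],[(k8,k13),(k9,k15),(k2,k17),(k3,k17)],[(k0,k14),(k5,k15),(k6,
    k15),(k11,k19)],[(k6,k13),(k5,k15),(k0,k16),(k11,k17)],[(k3,k17),(k8,k17),(k2,k19),(k9,k19)],[(k10,k12),(k1,k15),
    (k4,k16),(k7,k16)]]
    [] k0
    [[k1,k1,k1,k0,k0,k0],[k1,k0,k1,k0,k1,k0],[k1,k1,k0,k1,k0,k0],[k1,k0,k0,k1,k1,k0],[k1,k0,k0,k0,k1,k1],[k0,k0,k2,k0,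
    k1,k0],[k0,k0,k1,k1,k1,k0],[k0,k0,k0,k2,k1,k0]]
    [.ref k3 k0 [(z1,[z1])],.ref k2 k0 [(z1,[z1])],.ref k1 k1 [(z1,[z1])],.ref k1 k0 [(z1,[z1])],.ref k0 k0 [(z1,
    [z1])],.ref k2 k0 [(z2,[z1,z1])],.ref k0 k2 [(z1,[z1])],.ref k1 k0 [(z2,[z1,z1])]]),
    .old (.lp [k12,k20,k14,k14,k16,k18] [k4,k4,k0,k0,k3,k3,k3,k3,k2,k2,k1,k1] k0 [[],[k0,k0,k0,k0,k0,k0,k0,k0,k2],[],[],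
    [],[],[k0,k0,k0,k0,k0,k0,k0,k0,k0,k2],[],[k0,k0,k0,k0,k0,k0,k0,k2],[k2],[k0,k0,k0,k0,k0,k0,k0,k0,k0,k0,k0,
    k6]] k48 k5
    [[(k4,k13),(k7,k13),(k10,k15),(k1,k18)],[(k9,k14),(k2,k16),(k3,k16),(k8,k16)],[(k0,k16),(k5,k17),(k6,k17),(k11,
    k17)],[(k0,k16),(k5,k17),(k6,k17),(k11,k19)],[(k8,k15),(k9,k15),(k2,k17),(k3,k17)],[(k1,k13),(k4,k14),(k7,k14),
    (k10,k16)],[(k1,k13),(k4,k14),(k7,k14),(k10,k16)],[(k8,k13),(k9,k15),(k2,k17),(k3,k17)],[(k0,k14),(k5,k15),(k6,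
    k15),(k11,k19)],[(k6,k13),(k5,k15),(k0,k16),(k11,k17)],[(k3,k17),(k8,k17),(k2,k19),(k9,k19)],[(k10,k12),(k1,k15),
    (k4,k16),(k7,k16)]]
    [] k0
    [[k1,k1,k1,k0,k0,k0],[k1,k0,k1,k0,k1,k0],[k1,k1,k0,k1,k0,k0],[k1,k0,k0,k1,k1,k0],[k1,k0,k0,k0,k1,k1],[k0,k0,k2,k0,
    k1,k0],[k0,k0,k1,k1,k1,k0],[k0,k0,k0,k2,k1,k0]]
    [.ref k3 k0 [(z1,[z1])],.ref k2 k0 [(z1,[z1])],.ref k1 k1 [(z1,[z1])],.ref k1 k0 [(z1,[z1])],.ref k0 k0 [(z1,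
    [z1])],.ref k5 k2 [(z1,[z1])],.ref k0 k2 [(z1,[z1])],.ref k4 k1 [(z1,[z1,y1])]])]⟩

/-- classes `0 0 1 0 0 1`, types `C0 C2 S0 C2 C0 S0` -/
noncomputable def cU6_738 : CertX :=
  ⟨[k4,k6,k16,k6,k4,k16],[(false,k0,[k0,k1,k2,k3,k4,k5]),(false,k3,[k3,k4,k5,k0,k1,k2]),(true,k2,[k2,k1,k0,k5,k4,
    k3])],[[[([z1,z0,z0,z1,z0,z0],z2)],[([z1,z0,z0,z0,z0,z1],z2)],[([z1,z0,z1,z1,z0,z1],z2)],[([z1,z1,z1,z0,z0,z0],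
    z2)],[([z1,z0,y1,y1,y1,y1],y2)],[]]],
    [.old (.leafM k2 [k1,k2,k4,k5] [] [(k3,k0,z1,[z1]),(k0,k3,z1,[z1])]),
    .old (.leafM k0 [k1,k2,k3,k4] [] [(k5,k0,z1,[z1]),(k0,k5,z1,[z1])]),
    .old (.leafM k2 [k2,k3,k5,k0] [] [(k4,k1,z1,[y1,z1]),(k1,k4,z1,[y1,z1])]),
    .old (.leafM k0 [k2,k3,k4,k5,k0,k1] [(z1,[y1,z1])] []),
    .old (.lp [k6,k4,k4,k6,k4,k6] [k0,k0,k1,k1,k1,k1,k0,k0,k1,k1,k0,k0] k0 [] k16 k5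
    [[(k4,k5),(k1,k6),(k7,k6),(k10,k6)],[(k2,k5),(k3,k5),(k6,k6),(k11,k6)],[(k5,k4),(k8,k4),(k9,k4),(k0,k5)],[(k5,k4),
    (k8,k4),(k9,k4),(k0,k5)],[(k2,k4),(k3,k4),(k6,k5),(k11,k5)],[(k4,k4),(k1,k5),(k7,k5),(k10,k5)],[(k4,k5),(k1,k6),
    (k7,k6),(k10,k6)],[(k5,k5),(k8,k5),(k9,k5),(k0,k6)],[(k2,k4),(k3,k4),(k6,k5),(k11,k5)],[(k2,k4),(k3,k4),(k6,k5),
    (k11,k5)],[(k5,k5),(k8,k5),(k9,k5),(k0,k6)],[(k4,k5),(k1,k6),(k7,k6),(k10,k6)]]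
    [] k0
    [[k1,k1,k1,k0,k0,k0],[k1,k0,k0,k1,k0,k0],[k1,k0,k0,k0,k0,k1],[k0,k1,k2,k0,k0,k0],[k0,k1,k0,k0,k1,k0],[k0,k0,k1,k1,
    k0,k0],[k0,k0,k1,k0,k0,k1]]
    [.ref k3 k0 [(z1,[z1])],.ref k0 k0 [(z1,[z1])],.ref k1 k0 [(z1,[z1])],.ref k3 k0 [(z2,[z1,z1,z1])],
    .ref k2 k0 [(z1,[y1,z0,z1])],.ref k1 k1 [(z1,[z1])],.ref k0 k2 [(z1,[z1])]]),
    .old (.lp [k8,k8,k8,k8,k4,k10] [k1,k1,k1,k1,k1,k1,k1,k1,k3,k3,k0,k0] k0 [[],[],[],[],[k0,k0,k0,k0,k0,k0,k0,k0,k0,k0,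
    k2],[],[],[],[],[],[],[k0,k0,k0,k0,k0,k2]] k24 k5
    [[(k4,k6),(k1,k8),(k7,k8),(k10,k9)],[(k2,k8),(k3,k8),(k6,k8),(k11,k9)],[(k8,k6),(k9,k6),(k0,k8),(k5,k8)],[(k8,k6),
    (k9,k6),(k0,k8),(k5,k8)],[(k2,k8),(k3,k8),(k6,k8),(k11,k9)],[(k1,k6),(k4,k8),(k7,k8),(k10,k9)],[(k1,k8),(k4,k8),
    (k7,k8),(k10,k11)],[(k8,k6),(k9,k6),(k0,k8),(k5,k8)],[(k2,k6),(k3,k6),(k6,k6),(k11,k7)],[(k2,k6),(k3,k6),(k6,k6),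
    (k11,k7)],[(k8,k7),(k9,k7),(k0,k9),(k5,k9)],[(k1,k9),(k4,k9),(k10,k10),(k7,k11)]]
    [] k0
    [[k1,k1,k1,k0,k0,k0],[k1,k0,k0,k1,k0,k0],[k1,k0,k0,k0,k0,k1],[k0,k1,k0,k0,k1,k0],[k0,k0,k1,k1,k0,k0],[k0,k0,k1,k0,
    k0,k1],[k0,k0,k0,k2,k1,k0]]
    [.ref k3 k0 [(z1,[z1])],.ref k0 k0 [(z1,[z1])],.ref k1 k0 [(z1,[z1])],.ref k2 k0 [(z1,[y1,z1])],.ref k1 k1 [(z1,
    [z1])],.ref k0 k2 [(z1,[z1])],.ref k4 k1 [(z1,[z1,y1])]])]⟩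

/-- classes `0 0 1 0 0 1`, types `N0 N0 B0 N1 N1 B1` -/
noncomputable def cU6_739 : CertX :=
  ⟨[k12,k12,k24,k13,k13,k25],[(false,k0,[k0,k1,k2,k3,k4,k5])],[[[([z1,z0,z1,z1,z0,z1],z2)],[([z1,z0,z1,z0,z1,z0],z2)],
    []]],
    [.old (.leafM k5 [k0,k2,k3,k5] [] [(k1,k4,z1,[y1,z1]),(k4,k1,z1,[y1,z1])]),
    .old (.leafM k1 [k0,k1,k2,k3,k4,k5] [(z1,[y1,z1]),(z1,[z1])] []),
    .old (.lp [k2,k4,k2,k2,k2,k2] [k1,k1,k0,k0,k1,k1,k1,k1,k1,k1,k1,k1] k0 [] k8 k5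
    [[(k4,k2),(k7,k2)],[(k9,k2),(k11,k2)],[(k6,k3),(k8,k3)],[(k9,k3),(k11,k3)],[(k6,k2),(k8,k2)],[(k1,k2),(k10,k2)],
    [(k1,k2),(k10,k2)],[(k5,k2),(k3,k3)],[(k0,k2),(k2,k3)],[(k5,k2),(k3,k3)],[(k0,k2),(k2,k3)],[(k4,k2),(k7,k2)]]
    [] k0
    [[k1,k0,k1,k0,k1,k0],[k0,k1,k0,k0,k1,k0]]
    [.ref k1 k0 [(z1,[z1])],.ref k0 k0 [(z1,[y1,z1])]])]⟩

/-- classes `0 0 1 0 0 1`, types `N0 N0 B0 N1 N2 B1` -/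
noncomputable def cU6_740 : CertX :=
  ⟨[k12,k12,k24,k13,k14,k25],[(false,k0,[k0,k1,k2,k3,k4,k5])],[[[([z1,z1,z0,z1,z1,z0],z2)],[]]],
    [.old (.leafM k6 [k0,k1,k3,k4] [] [(k2,k5,z1,[y1,z1]),(k5,k2,z1,[y1,z1])]),
    .old (.lp [k2,k2,k2,k2,k2,k2] [k0,k0,k0,k0,k0,k0,k0,k0,k0,k0,k0,k0] k0 [] k8 k5
    [[(k4,k2),(k7,k2)],[(k8,k2),(k9,k2)],[(k6,k2),(k11,k2)],[(k8,k2),(k9,k2)],[(k6,k2),(k11,k2)],[(k1,k2),(k10,k2)],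
    [(k1,k2),(k10,k2)],[(k3,k2),(k5,k2)],[(k0,k2),(k2,k2)],[(k0,k2),(k2,k2)],[(k3,k2),(k5,k2)],[(k4,k2),(k7,k2)]]
    [] k0
    [[k0,k0,k1,k0,k0,k1]]
    [.ref k0 k0 [(z1,[y1,z1])]])]⟩

/-- classes `0 0 1 0 0 1`, types `N0 N0 B0 N2 N2 B1` -/
noncomputable def cU6_741 : CertX :=
  ⟨[k12,k12,k24,k14,k14,k25],[(false,k0,[k0,k1,k2,k3,k4,k5]),(true,k2,[k2,k1,k0,k5,k4,k3])],[[[([z1,z0,z1,z1,z0,z1],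
    z2)],[([z1,z0,z1,z0,z1,z0],z2)],[([z1,z0,z0,z1,z0,z0],z1),([z0,z1,z0,z0,z1,z0],z1)],[([z1,z0,z0,z1,z0,z0],z2)],
    []]],
    [.old (.leafM k6 [k2,k3,k5,k0] [] [(k4,k1,z1,[y1,z1]),(k1,k4,z1,[y1,z1])]),
    .old (.leafM k5 [k1,k2,k3,k4,k5,k0] [(z1,[z1]),(z1,[y1,z1])] []),
    .old (.leafM k7 [k0,k1,k3,k4] [(z1,[z0,z1])] [(k2,k5,z1,[y1,y1,z1]),(k5,k2,z1,[y1,y1,z1])]),
    .old (.lp [(nat_lit 18216),(nat_lit 9108),(nat_lit 3036),(nat_lit 3036),(nat_lit 1932),(nat_lit 5544)] [k0,k0,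
    (nat_lit 4554),(nat_lit 4554),(nat_lit 7590),(nat_lit 7590),(nat_lit 7590),(nat_lit 7590),(nat_lit 8142),
    (nat_lit 8142),(nat_lit 6336),(nat_lit 6336)] k0 [[],[],[k0,k0,k0,k0,k0,k0,k0,(nat_lit 1771)],[],[],[],[k0,k0,k0,
    (nat_lit 1771)]] (nat_lit 21252) k6
    [[(k4,(nat_lit 10626)),(k7,(nat_lit 10626))],[(k8,(nat_lit 10074)),(k6,(nat_lit 10626))],[(k9,(nat_lit 5520)),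
    (k11,(nat_lit 7326))],[(k6,(nat_lit 4301)),(k8,(nat_lit 5520))],[(k9,(nat_lit 4255)),(k11,(nat_lit 4290))],[(k10,
    (nat_lit 4290)),(k1,(nat_lit 10626))],[(k10,(nat_lit 4290)),(k1,(nat_lit 10626))],[(k2,(nat_lit 4301)),(k0,
    (nat_lit 10626))],[(k5,(nat_lit 4255)),(k3,(nat_lit 5520))],[(k2,(nat_lit 5520)),(k0,(nat_lit 10074))],[(k5,
    (nat_lit 4290)),(k3,(nat_lit 7326))],[(k4,(nat_lit 4290)),(k7,(nat_lit 4290))]]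
    [] k0
    [[k0,k1,k0,k0,k1,k0],[k0,k1,k0,k1,k0,k1],[k0,k0,k1,k0,k0,k1],[k0,k0,k2,k0,k0,k2]]
    [.contra [y1,y1,z1],.ref k1 k0 [(z1,[y1,z0,z1])],.contra [y1,y1,z1],.ref k2 k1 [(z2,[z1]),(z2,[y1,y2,z2])]]),
    .old (.lp [k2,k4,k2,k2,k2,k2] [k1,k1,k0,k0,k1,k1,k1,k1,k1,k1,k1,k1] k0 [] k8 k5
    [[(k4,k2),(k7,k2)],[(k6,k2),(k8,k2)],[(k9,k3),(k11,k3)],[(k6,k3),(k8,k3)],[(k9,k2),(k11,k2)],[(k1,k2),(k10,k2)],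
    [(k1,k2),(k10,k2)],[(k0,k2),(k2,k3)],[(k5,k2),(k3,k3)],[(k0,k2),(k2,k3)],[(k5,k2),(k3,k3)],[(k4,k2),(k7,k2)]]
    [] k0
    [[k1,k0,k1,k0,k1,k0],[k1,k0,k0,k1,k0,k0],[k0,k1,k0,k0,k1,k0],[k0,k0,k1,k0,k0,k1]]
    [.ref k1 k0 [(z1,[z1])],.ref k3 k0 [(z1,[z1])],.ref k0 k0 [(z1,[y1,z1])],.ref k3 k1 [(z1,[z1])]])]⟩

/-- classes `0 0 1 0 0 1`, types `N0 N0 C0 N1 N1 C0` -/
noncomputable def cU6_742 : CertX :=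
  ⟨[k12,k12,k20,k13,k13,k20],[(false,k0,[k0,k1,k2,k3,k4,k5]),(false,k3,[k3,k4,k5,k0,k1,k2])],[[[([z1,z0,z1,z1,z0,z1],
    z2)],[([z1,z0,z1,z0,z1,z0],z2)],[([z1,z0,z0,z0,z0,z1],z1),([z0,z1,z0,z0,z1,z0],z1)],[([z1,z0,z0,z0,z0,z1],z2)],
    []]],
    [.old (.leafM k5 [k0,k2,k3,k5] [] [(k1,k4,z1,[y1,z1]),(k4,k1,z1,[y1,z1])]),
    .old (.leafM k1 [k0,k1,k2,k3,k4,k5] [(z1,[y1,z1]),(z1,[z1])] []),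
    .old (.leafM k4 [k0,k1,k4,k5] [(z1,[z0,z1])] [(k2,k3,z1,[y1,y1,z1]),(k3,k2,z1,[y1,y1,z1])]),
    .old (.lp [k10,k10,k12,k0,k0,k14] [k2,k2,k2,k2,k1,k1,k7,k7,k7,k7,k0,k0] k0 [[],[],[k0,k0,k0,k0,k0,k0,k0,k0,k2],[],[],
    [],[],[],[],[k0,k0,k0,k2]] k24 k6
    [[(k4,k11),(k10,k12)],[(k9,k5),(k11,k12)],[(k6,k5),(k8,k5)],[(k9,k5),(k11,k10)],[(k6,k6),(k8,k8)],[(k7,k6),(k1,
    k11)],[(k4,k6),(k10,k7)],[(k3,k5),(k5,k6)],[(k0,k5),(k2,k5)],[(k3,k5),(k5,k8)],[(k2,k10),(k0,k12)],[(k7,k7),(k1,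
    k12)]]
    [] k0
    [[k0,k1,k0,k1,k0,k1],[k0,k1,k0,k0,k1,k0],[k0,k2,k0,k0,k2,k0],[k0,k0,k1,k1,k0,k0]]
    [.ref k1 k0 [(z1,[y1,z0,z1])],.contra [y1,y1,z1],.ref k2 k1 [(z2,[y1,y2,z2]),(z2,[z1])],.contra [y1,y1,z1]]),
    .old (.lp [k2,k2,k4,k2,k2,k2] [k1,k1,k1,k1,k0,k0,k1,k1,k1,k1,k1,k1] k0 [] k8 k5
    [[(k10,k2),(k4,k3)],[(k9,k2),(k11,k2)],[(k6,k2),(k8,k2)],[(k9,k2),(k11,k2)],[(k6,k3),(k8,k3)],[(k1,k3),(k7,k3)],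
    [(k10,k2),(k4,k3)],[(k3,k2),(k5,k3)],[(k0,k2),(k2,k2)],[(k3,k2),(k5,k3)],[(k0,k2),(k2,k2)],[(k1,k2),(k7,k2)]]
    [] k0
    [[k1,k0,k0,k0,k0,k1],[k0,k1,k0,k1,k0,k1],[k0,k1,k0,k0,k1,k0],[k0,k0,k1,k1,k0,k0]]
    [.ref k3 k0 [(z1,[z1])],.ref k1 k0 [(z1,[y1,z1])],.ref k0 k0 [(z1,[y1,z1])],.ref k3 k1 [(z1,[z1])]])]⟩

/-- classes `0 0 1 0 0 1`, types `N0 N0 C0 N1 N1 C2` -/
noncomputable def cU6_743 : CertX :=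
  ⟨[k12,k12,k20,k13,k13,k22],[(false,k3,[k3,k4,k5,k0,k1,k2]),(false,k0,[k0,k1,k2,k3,k4,k5])],[[[([z1,z0,z1,z1,z0,z1],
    z2)],[([z1,z0,z0,z0,z0,z1],z1),([z0,z1,z0,z0,z1,z0],z1)],[([z1,z0,z0,z0,z0,z1],z2)],[]]],
    [.old (.leafM k6 [k0,k2,k3,k5] [] [(k1,k4,z1,[y1,z1]),(k4,k1,z1,[y1,z1])]),
    .old (.leafM k4 [k0,k1,k4,k5] [(z1,[z0,z1])] [(k2,k3,z1,[y1,y1,z1]),(k3,k2,z1,[y1,y1,z1])]),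
    .old (.lp [k48,k50,k60,k0,k0,k72] [k12,k12,k11,k11,k6,k6,k36,k36,k36,k36,k0,k0] k0 [[],[],[k0,k0,k0,k0,k0,k0,k0,k0,
    k10],[],[],[],[],[],[],[k0,k0,k0,k10]] k120 k6
    [[(k7,k24),(k10,k60)],[(k9,k24),(k11,k60)],[(k6,k25),(k8,k25)],[(k9,k25),(k11,k51)],[(k6,k30),(k8,k40)],[(k7,k30),
    (k10,k66)],[(k1,k24),(k4,k30)],[(k3,k25),(k5,k30)],[(k0,k24),(k2,k25)],[(k3,k25),(k5,k40)],[(k2,k51),(k0,k60)],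
    [(k1,k60),(k4,k66)]]
    [] k0
    [[k0,k1,k0,k0,k1,k0],[k0,k2,k0,k0,k2,k0],[k0,k0,k1,k1,k0,k0]]
    [.contra [y1,y1,z1],.ref k1 k0 [(z2,[y1,y2,z2]),(z2,[z1])],.contra [y1,y1,z1]]),
    .old (.lp [k2,k2,k2,k0,k0,k0] [k0,k0,k0,k0,k0,k0,k1,k1,k1,k1,k1,k1] k0 [] k4 k5
    [[(k7,k1),(k10,k1)],[(k9,k1),(k11,k1)],[(k6,k1),(k8,k1)],[(k9,k1),(k11,k1)],[(k6,k1),(k8,k1)],[(k7,k1),(k10,k1)],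
    [(k1,k1),(k4,k1)],[(k3,k1),(k5,k1)],[(k0,k1),(k2,k1)],[(k3,k1),(k5,k1)],[(k0,k1),(k2,k1)],[(k1,k1),(k4,k1)]]
    [] k0
    [[k1,k0,k0,k0,k0,k1],[k0,k1,k0,k0,k1,k0],[k0,k0,k1,k1,k0,k0]]
    [.ref k2 k1 [(z1,[z1])],.ref k0 k1 [(z1,[y1,z1])],.ref k2 k0 [(z1,[z1])]])]⟩

/-- classes `0 0 1 0 0 1`, types `N0 N0 C0 N1 N2 C0` -/
noncomputable def cU6_744 : CertX :=
  ⟨[k12,k12,k20,k13,k14,k20],[(false,k0,[k0,k1,k2,k3,k4,k5])],[[[([z1,z1,z0,z0,z1,z1],z2)],[]]],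
    [.old (.leafM k2 [k1,k4,k5,k0] [] [(k2,k3,z1,[y1,z1]),(k3,k2,z1,[y1,z1])]),
    .old (.lp [k2,k2,k2,k2,k2,k2] [k0,k0,k0,k0,k0,k0,k0,k0,k0,k0,k0,k0] k0 [] k8 k5
    [[(k4,k2),(k10,k2)],[(k8,k2),(k9,k2)],[(k6,k2),(k11,k2)],[(k8,k2),(k9,k2)],[(k6,k2),(k11,k2)],[(k1,k2),(k7,k2)],
    [(k4,k2),(k10,k2)],[(k3,k2),(k5,k2)],[(k0,k2),(k2,k2)],[(k0,k2),(k2,k2)],[(k3,k2),(k5,k2)],[(k1,k2),(k7,k2)]]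
    [] k0
    [[k0,k0,k1,k1,k0,k0]]
    [.ref k0 k0 [(z1,[y1,z1])]])]⟩

/-- classes `0 0 1 0 0 1`, types `N0 N0 C0 N1 N2 C2` -/
noncomputable def cU6_745 : CertX :=
  ⟨[k12,k12,k20,k13,k14,k22],[(false,k0,[k0,k1,k2,k3,k4,k5])],[[[([z1,z1,z0,z1,z1,z0],z2)],[([z1,z1,z0,z0,z1,z1],z2)],
    []]],
    [.old (.leafM k6 [k0,k1,k3,k4] [] [(k2,k5,z1,[y1,z1]),(k5,k2,z1,[y1,z1])]),
    .old (.leafM k2 [k1,k4,k5,k0] [] [(k2,k3,z1,[y1,z1]),(k3,k2,z1,[y1,z1])]),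
    .old (.lp [k2,k2,k2,k0,k0,k0] [k0,k0,k0,k0,k0,k0,k1,k1,k1,k1,k1,k1] k0 [] k4 k5
    [[(k7,k1),(k10,k1)],[(k8,k1),(k9,k1)],[(k6,k1),(k11,k1)],[(k8,k1),(k9,k1)],[(k6,k1),(k11,k1)],[(k7,k1),(k10,k1)],
    [(k1,k1),(k4,k1)],[(k3,k1),(k5,k1)],[(k0,k1),(k2,k1)],[(k0,k1),(k2,k1)],[(k3,k1),(k5,k1)],[(k1,k1),(k4,k1)]]
    [] k0
    [[k0,k0,k1,k1,k0,k0],[k0,k0,k1,k0,k0,k1]]
    [.ref k1 k0 [(z1,[y1,z1])],.ref k0 k0 [(z1,[y1,z1])]])]⟩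

/-- classes `0 0 1 0 0 1`, types `N0 N0 C0 N2 N2 C0` -/
noncomputable def cU6_746 : CertX :=
  ⟨[k12,k12,k20,k14,k14,k20],[(false,k0,[k0,k1,k2,k3,k4,k5])],[[[([z1,z0,z1,z1,z0,z1],z2)],[([z1,z0,z1,z0,z1,z0],z2)],
    []]],
    [.old (.leafM k2 [k2,k3,k5,k0] [] [(k4,k1,z1,[y1,z1]),(k1,k4,z1,[y1,z1])]),
    .old (.leafM k5 [k1,k2,k3,k4,k5,k0] [(z1,[z1]),(z1,[y1,z1])] []),
    .old (.lp [k2,k4,k2,k2,k2,k2] [k1,k1,k0,k0,k1,k1,k1,k1,k1,k1,k1,k1] k0 [] k8 k5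
    [[(k4,k2),(k10,k2)],[(k6,k2),(k8,k2)],[(k9,k3),(k11,k3)],[(k6,k3),(k8,k3)],[(k9,k2),(k11,k2)],[(k1,k2),(k7,k2)],
    [(k4,k2),(k10,k2)],[(k0,k2),(k2,k3)],[(k5,k2),(k3,k3)],[(k0,k2),(k2,k3)],[(k5,k2),(k3,k3)],[(k1,k2),(k7,k2)]]
    [] k0
    [[k1,k0,k1,k0,k1,k0],[k0,k1,k0,k0,k1,k0]]
    [.ref k1 k0 [(z1,[z1])],.ref k0 k0 [(z1,[y1,z1])]])]⟩

/-- classes `0 0 1 0 0 1`, types `N0 N0 C0 N2 N2 C2` -/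
noncomputable def cU6_747 : CertX :=
  ⟨[k12,k12,k20,k14,k14,k22],[(true,k2,[k2,k1,k0,k5,k4,k3]),(false,k0,[k0,k1,k2,k3,k4,k5])],[[[([z1,z0,z1,z1,z0,z1],
    z2)],[([z1,z0,z0,z1,z0,z0],z1),([z0,z1,z0,z0,z1,z0],z1)],[([z1,z0,z0,z1,z0,z0],z2)],[]]],
    [.old (.leafM k2 [k2,k3,k5,k0] [] [(k4,k1,z1,[y1,z1]),(k1,k4,z1,[y1,z1])]),
    .old (.leafM k7 [k0,k1,k3,k4] [(z1,[z0,z1])] [(k2,k5,z1,[y1,y1,z1]),(k5,k2,z1,[y1,y1,z1])]),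
    .old (.lp [(nat_lit 816),(nat_lit 850),(nat_lit 480),(nat_lit 1224),k0,(nat_lit 544)] [(nat_lit 204),(nat_lit 204),
    k187,k187,(nat_lit 372),(nat_lit 372),k0,k0,(nat_lit 612),(nat_lit 612),(nat_lit 340),(nat_lit 340)] k0 [[],[],
    [k0,k0,k0,k0,k0,k0,k0,k170],[],[],[],[k0,k0,k0,k170]] (nat_lit 2040) k6
    [[(k10,(nat_lit 680)),(k7,(nat_lit 1020))],[(k8,(nat_lit 408)),(k6,(nat_lit 1020))],[(k9,(nat_lit 425)),(k11,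
    (nat_lit 697))],[(k8,(nat_lit 425)),(k6,(nat_lit 867))],[(k9,(nat_lit 410)),(k11,(nat_lit 512))],[(k10,
    (nat_lit 512)),(k7,(nat_lit 852))],[(k4,(nat_lit 852)),(k1,(nat_lit 1020))],[(k2,(nat_lit 867)),(k0,
    (nat_lit 1020))],[(k5,(nat_lit 410)),(k3,(nat_lit 425))],[(k0,(nat_lit 408)),(k2,(nat_lit 425))],[(k5,
    (nat_lit 512)),(k3,(nat_lit 697))],[(k4,(nat_lit 512)),(k1,(nat_lit 680))]]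
    [] k0
    [[k0,k1,k0,k0,k1,k0],[k0,k2,k0,k0,k2,k0],[k0,k0,k1,k0,k0,k1]]
    [.contra [y1,y1,z1],.ref k1 k0 [(z2,[y1,y2,z2]),(z2,[z1])],.contra [y1,y1,z1]]),
    .old (.lp [k2,k2,k2,k0,k0,k0] [k0,k0,k0,k0,k0,k0,k1,k1,k1,k1,k1,k1] k0 [] k4 k5
    [[(k7,k1),(k10,k1)],[(k6,k1),(k8,k1)],[(k9,k1),(k11,k1)],[(k6,k1),(k8,k1)],[(k9,k1),(k11,k1)],[(k7,k1),(k10,k1)],
    [(k1,k1),(k4,k1)],[(k0,k1),(k2,k1)],[(k3,k1),(k5,k1)],[(k0,k1),(k2,k1)],[(k3,k1),(k5,k1)],[(k1,k1),(k4,k1)]]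
    [] k0
    [[k1,k0,k0,k1,k0,k0],[k0,k1,k0,k0,k1,k0],[k0,k0,k1,k0,k0,k1]]
    [.ref k2 k1 [(z1,[z1])],.ref k0 k1 [(z1,[y1,z1])],.ref k2 k0 [(z1,[z1])]])]⟩

/-- classes `0 0 1 0 0 1`, types `N0 N0 N0 N1 N1 N1` -/
noncomputable def cU6_748 : CertX :=
  ⟨[k12,k12,k28,k13,k13,k29],[(false,k0,[k0,k1,k2,k3,k4,k5])],[[[([z1,z0,z1,z1,z0,z1],z2)],[([z1,z0,z1,z0,z1,z0],z2)],
    []]],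
    [.old (.leafM k5 [k0,k2,k3,k5] [] [(k1,k4,z1,[y1,z1]),(k4,k1,z1,[y1,z1])]),
    .old (.leafM k1 [k0,k1,k2,k3,k4,k5] [(z1,[y1,z1]),(z1,[z1])] []),
    .old (.lp [k2,k2,k4,k2,k2,k2] [k1,k1,k1,k1,k0,k0,k1,k1,k1,k1,k1,k1] k0 [] k8 k5
    [[(k4,k3)],[(k9,k2),(k11,k2)],[(k6,k2),(k8,k2)],[(k9,k2),(k11,k2)],[(k6,k3),(k8,k3)],[(k1,k3)],[(k10,k2)],[(k3,
    k2),(k5,k3)],[(k0,k2),(k2,k2)],[(k3,k2),(k5,k3)],[(k0,k2),(k2,k2)],[(k7,k2)]]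
    [] k0
    [[k0,k1,k0,k1,k0,k1],[k0,k1,k0,k0,k1,k0]]
    [.ref k1 k0 [(z1,[y1,z1])],.ref k0 k0 [(z1,[y1,z1])]])]⟩

/-- classes `0 0 1 0 0 1`, types `N0 N0 N0 N1 N1 N2` -/
noncomputable def cU6_749 : CertX :=
  ⟨[k12,k12,k28,k13,k13,k30],[(false,k0,[k0,k1,k2,k3,k4,k5])],[[[([z1,z0,z1,z1,z0,z1],z2)],[]]],
    [.old (.leafM k6 [k0,k2,k3,k5] [] [(k1,k4,z1,[y1,z1]),(k4,k1,z1,[y1,z1])]),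
    .old (.lp [k2,k2,k2,k0,k0,k0] [k0,k0,k0,k0,k0,k0,k1,k1,k1,k1,k1,k1] k0 [] k4 k5
    [[(k7,k1)],[(k9,k1),(k11,k1)],[(k6,k1),(k8,k1)],[(k9,k1),(k11,k1)],[(k6,k1),(k8,k1)],[(k10,k1)],[(k1,k1)],[(k3,
    k1),(k5,k1)],[(k0,k1),(k2,k1)],[(k3,k1),(k5,k1)],[(k0,k1),(k2,k1)],[(k4,k1)]]
    [] k0
    [[k0,k1,k0,k0,k1,k0]]
    [.ref k0 k0 [(z1,[y1,z1])]])]⟩

/-- classes `0 0 1 0 0 1`, types `N0 N0 N0 N1 N2 N1` -/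
noncomputable def cU6_750 : CertX :=
  ⟨[k12,k12,k28,k13,k14,k29],[],[[[]]],
    [.old (.lp [k2,k2,k2,k2,k2,k2] [k0,k0,k0,k0,k0,k0,k0,k0,k0,k0,k0,k0] k0 [] k8 k5
    [[(k4,k2)],[(k8,k2),(k9,k2)],[(k6,k2),(k11,k2)],[(k8,k2),(k9,k2)],[(k6,k2),(k11,k2)],[(k1,k2)],[(k10,k2)],[(k3,
    k2),(k5,k2)],[(k0,k2),(k2,k2)],[(k0,k2),(k2,k2)],[(k3,k2),(k5,k2)],[(k7,k2)]]
    [] k0
    []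
    [])]⟩

/-- classes `0 0 1 0 0 1`, types `N0 N0 N0 N1 N2 N2` -/
noncomputable def cU6_751 : CertX :=
  ⟨[k12,k12,k28,k13,k14,k30],[(false,k0,[k0,k1,k2,k3,k4,k5])],[[[([z1,z1,z0,z1,z1,z0],z2)],[]]],
    [.old (.leafM k6 [k0,k1,k3,k4] [] [(k2,k5,z1,[y1,z1]),(k5,k2,z1,[y1,z1])]),
    .old (.lp [k2,k2,k2,k0,k0,k0] [k0,k0,k0,k0,k0,k0,k1,k1,k1,k1,k1,k1] k0 [] k4 k5
    [[(k7,k1)],[(k8,k1),(k9,k1)],[(k6,k1),(k11,k1)],[(k8,k1),(k9,k1)],[(k6,k1),(k11,k1)],[(k10,k1)],[(k1,k1)],[(k3,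
    k1),(k5,k1)],[(k0,k1),(k2,k1)],[(k0,k1),(k2,k1)],[(k3,k1),(k5,k1)],[(k4,k1)]]
    [] k0
    [[k0,k0,k1,k0,k0,k1]]
    [.ref k0 k0 [(z1,[y1,z1])]])]⟩

/-- classes `0 0 1 0 0 1`, types `N0 N0 N0 N2 N2 N1` -/
noncomputable def cU6_752 : CertX :=
  ⟨[k12,k12,k28,k14,k14,k29],[(false,k0,[k0,k1,k2,k3,k4,k5])],[[[([z1,z0,z1,z1,z0,z1],z2)],[([z1,z0,z1,z0,z1,z0],z2)],
    []]],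
    [.old (.leafM k6 [k2,k3,k5,k0] [] [(k4,k1,z1,[y1,z1]),(k1,k4,z1,[y1,z1])]),
    .old (.leafM k5 [k1,k2,k3,k4,k5,k0] [(z1,[z1]),(z1,[y1,z1])] []),
    .old (.lp [k2,k4,k2,k2,k2,k2] [k1,k1,k0,k0,k1,k1,k1,k1,k1,k1,k1,k1] k0 [] k8 k5
    [[(k4,k2)],[(k6,k2),(k8,k2)],[(k9,k3),(k11,k3)],[(k6,k3),(k8,k3)],[(k9,k2),(k11,k2)],[(k1,k2)],[(k10,k2)],[(k0,
    k2),(k2,k3)],[(k5,k2),(k3,k3)],[(k0,k2),(k2,k3)],[(k5,k2),(k3,k3)],[(k7,k2)]]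
    [] k0
    [[k1,k0,k1,k0,k1,k0],[k0,k1,k0,k0,k1,k0]]
    [.ref k1 k0 [(z1,[z1])],.ref k0 k0 [(z1,[y1,z1])]])]⟩

/-- classes `0 0 1 0 0 1`, types `N0 N0 N0 N2 N2 N2` -/
noncomputable def cU6_753 : CertX :=
  ⟨[k12,k12,k28,k14,k14,k30],[(true,k2,[k2,k1,k0,k5,k4,k3]),(false,k0,[k0,k1,k2,k3,k4,k5])],[[[([z1,z0,z0,z1,z0,z0],
    z1),([z0,z1,z0,z0,z1,z0],z1)],[([z1,z0,z0,z1,z0,z0],z2)],[([z1,z0,z0,z1,z0,z0],z1),([z0,z1,z0,z0,z1,z0],z2)],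
    [([z1,z0,z1,z1,z0,z1],z2)],[]]],
    [.old (.leafM k7 [k0,k1,k3,k4] [(z1,[z0,z1])] [(k2,k5,z1,[y1,y1,z1]),(k5,k2,z1,[y1,y1,z1])]),
    .old (.lp [(nat_lit 816),(nat_lit 850),(nat_lit 480),(nat_lit 1224),k0,(nat_lit 544)] [(nat_lit 204),(nat_lit 204),
    k187,k187,(nat_lit 372),(nat_lit 372),k0,k0,(nat_lit 612),(nat_lit 612),(nat_lit 340),(nat_lit 340)] k0 [[],[],
    [k0,k0,k0,k0,k0,k0,k0,k170],[],[],[],[k0,k0,k0,k170]] (nat_lit 2040) k6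
    [[(k7,(nat_lit 1020))],[(k8,(nat_lit 408)),(k6,(nat_lit 1020))],[(k9,(nat_lit 425)),(k11,(nat_lit 697))],[(k8,
    (nat_lit 425)),(k6,(nat_lit 867))],[(k9,(nat_lit 410)),(k11,(nat_lit 512))],[(k10,(nat_lit 512))],[(k1,
    (nat_lit 1020))],[(k2,(nat_lit 867)),(k0,(nat_lit 1020))],[(k5,(nat_lit 410)),(k3,(nat_lit 425))],[(k0,
    (nat_lit 408)),(k2,(nat_lit 425))],[(k5,(nat_lit 512)),(k3,(nat_lit 697))],[(k4,(nat_lit 512))]]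
    [] k0
    [[k0,k1,k0,k0,k1,k0],[k0,k2,k0,k0,k2,k0],[k0,k0,k1,k0,k0,k1]]
    [.contra [y1,y1,z1],.ref k0 k0 [(z2,[y1,y2,z2]),(z2,[z1])],.contra [y1,y1,z1]]),
    .old (.leafM k7 [k0,k2,k3,k5] [(z1,[y1,y1,z1])] [(k1,k4,z1,[z0,z1]),(k4,k1,z1,[z0,z1])]),
    .old (.lp [k8,k20,k8,k0,k0,k2] [k6,k6,k0,k0,k6,k6,k10,k10,k10,k10,k9,k9] k0 [] k20 k6
    [[(k7,k4)],[(k6,k4),(k8,k4)],[(k9,k10),(k11,k11)],[(k6,k10),(k8,k10)],[(k9,k4),(k11,k5)],[(k10,k5)],[(k1,k4)],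
    [(k0,k4),(k2,k10)],[(k5,k4),(k3,k10)],[(k0,k4),(k2,k10)],[(k5,k5),(k3,k11)],[(k4,k5)]]
    [] k0
    [[k1,k0,k0,k1,k0,k0],[k2,k0,k0,k2,k0,k0],[k0,k0,k1,k0,k0,k1]]
    [.contra [y1,z1],.ref k2 k1 [(z2,[z1]),(z1,[z0,y1,z1])],.contra [y1,z1]]),
    .old (.lp [k2,k2,k2,k0,k0,k0] [k0,k0,k0,k0,k0,k0,k1,k1,k1,k1,k1,k1] k0 [] k4 k5
    [[(k7,k1)],[(k6,k1),(k8,k1)],[(k9,k1),(k11,k1)],[(k6,k1),(k8,k1)],[(k9,k1),(k11,k1)],[(k10,k1)],[(k1,k1)],[(k0,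
    k1),(k2,k1)],[(k3,k1),(k5,k1)],[(k0,k1),(k2,k1)],[(k3,k1),(k5,k1)],[(k4,k1)]]
    [] k0
    [[k1,k0,k0,k1,k0,k0],[k0,k1,k0,k0,k1,k0],[k0,k0,k1,k0,k0,k1]]
    [.ref k1 k1 [(z1,[z1])],.ref k3 k1 [(z1,[y1,z1])],.ref k1 k0 [(z1,[z1])]])]⟩

/-- classes `0 0 1 0 0 1`, types `N0 N0 S0 N1 N1 S0` -/
noncomputable def cU6_754 : CertX :=
  ⟨[k12,k12,k16,k13,k13,k16],[(false,k0,[k0,k1,k2,k3,k4,k5]),(false,k3,[k3,k4,k5,k0,k1,k2])],[[[([z1,z0,z1,z1,z0,z1],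
    z2)],[([z1,z0,z1,z0,z1,z0],z2)],[([z1,z0,z0,z0,z0,z1],z1),([z0,z1,z0,z0,z1,z0],z1)],[([z1,z0,z0,z0,z0,z1],z2)],
    []]],
    [.old (.leafM k5 [k0,k2,k3,k5] [] [(k1,k4,z1,[y1,z1]),(k4,k1,z1,[y1,z1])]),
    .old (.leafM k1 [k0,k1,k2,k3,k4,k5] [(z1,[y1,z1]),(z1,[z1])] []),
    .old (.leafM k4 [k0,k1,k4,k5] [(z1,[z0,z1])] [(k2,k3,z1,[y1,y1,z1]),(k3,k2,z1,[y1,y1,z1])]),
    .old (.lp [k24,k2,k24,k26,k58,k96] [k36,k36,k47,k47,k36,k36,k35,k35,k19,k19,k0,k0] k0 [[k0,k0,k0,k0,k0,k0,k10],[],[],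
    [],[],[],[],[k0,k10]] k120 k6
    [[(k1,k24),(k4,k24),(k7,k25),(k10,k60)],[(k9,k31),(k11,k60)],[(k6,k24),(k8,k30)],[(k9,k30),(k11,k49)],[(k6,k25),
    (k8,k41)],[(k1,k24),(k4,k24),(k7,k25),(k10,k60)],[(k1,k25),(k4,k25),(k7,k26),(k10,k61)],[(k3,k24),(k5,k25)],[(k2,
    k30),(k0,k31)],[(k3,k30),(k5,k41)],[(k2,k49),(k0,k60)],[(k1,k60),(k4,k60),(k7,k61),(k10,k96)]]
    [] k0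
    [[k1,k0,k1,k0,k1,k0],[k0,k1,k0,k0,k1,k0],[k0,k0,k1,k1,k0,k0],[k0,k0,k2,k2,k0,k0]]
    [.ref k1 k0 [(z1,[z1])],.contra [y1,y1,z1],.contra [y1,y1,z1],.ref k2 k1 [(z2,[z1]),(z2,[y1,y2,z2])]]),
    .old (.lp [k4,k2,k2,k2,k2,k2] [k0,k0,k1,k1,k1,k1,k1,k1,k1,k1,k1,k1] k0 [] k8 k5
    [[(k4,k3),(k7,k3),(k10,k3),(k1,k4)],[(k9,k3),(k11,k3)],[(k6,k2),(k8,k2)],[(k9,k2),(k11,k2)],[(k6,k2),(k8,k2)],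
    [(k4,k2),(k7,k2),(k10,k2),(k1,k3)],[(k4,k2),(k7,k2),(k10,k2),(k1,k3)],[(k3,k2),(k5,k2)],[(k2,k2),(k0,k3)],[(k3,
    k2),(k5,k2)],[(k2,k2),(k0,k3)],[(k4,k2),(k7,k2),(k10,k2),(k1,k3)]]
    [] k0
    [[k1,k0,k0,k0,k0,k1],[k0,k1,k0,k1,k0,k1],[k0,k1,k0,k0,k1,k0],[k0,k0,k1,k1,k0,k0]]
    [.ref k3 k0 [(z1,[z1])],.ref k1 k0 [(z1,[y1,z1])],.ref k0 k0 [(z1,[y1,z1])],.ref k3 k1 [(z1,[z1])]])]⟩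

/-- classes `0 0 1 0 0 1`, types `N0 N0 S0 N1 N2 S0` -/
noncomputable def cU6_755 : CertX :=
  ⟨[k12,k12,k16,k13,k14,k16],[(false,k0,[k0,k1,k2,k3,k4,k5])],[[[([z1,z1,z0,z1,z1,z0],z2)],[([z1,z1,z0,z0,z1,z1],z2)],
    []]],
    [.old (.leafM k6 [k0,k1,k3,k4] [] [(k2,k5,z1,[y1,z1]),(k5,k2,z1,[y1,z1])]),
    .old (.leafM k2 [k1,k4,k5,k0] [] [(k2,k3,z1,[y1,z1]),(k3,k2,z1,[y1,z1])]),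
    .old (.lp [k6,k4,k4,k4,k4,k4] [k0,k0,k1,k1,k1,k1,k1,k1,k1,k1,k1,k1] k0 [] k16 k5
    [[(k4,k5),(k7,k5),(k10,k5),(k1,k6)],[(k8,k5),(k9,k5)],[(k6,k4),(k11,k4)],[(k8,k4),(k9,k4)],[(k6,k4),(k11,k4)],
    [(k4,k4),(k7,k4),(k10,k4),(k1,k5)],[(k4,k4),(k7,k4),(k10,k4),(k1,k5)],[(k3,k4),(k5,k4)],[(k2,k4),(k0,k5)],[(k2,
    k4),(k0,k5)],[(k3,k4),(k5,k4)],[(k4,k4),(k7,k4),(k10,k4),(k1,k5)]]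
    [] k0
    [[k0,k0,k1,k1,k0,k0],[k0,k0,k1,k0,k0,k1]]
    [.ref k1 k0 [(z1,[y1,z1])],.ref k0 k0 [(z1,[y1,z1])]])]⟩

/-- classes `0 0 1 0 0 1`, types `N0 N0 S0 N2 N2 S0` -/
noncomputable def cU6_756 : CertX :=
  ⟨[k12,k12,k16,k14,k14,k16],[(true,k2,[k2,k1,k0,k5,k4,k3]),(false,k0,[k0,k1,k2,k3,k4,k5])],[[[([z1,z0,z1,z1,z0,z1],
    z2)],[([z1,z0,z1,z0,z1,z0],z2)],[([z1,z0,z0,z1,z0,z0],z1),([z0,z1,z0,z0,z1,z0],z1)],[([z1,z0,z0,z1,z0,z0],z2)],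
    []]],
    [.old (.leafM k2 [k2,k3,k5,k0] [] [(k4,k1,z1,[y1,z1]),(k1,k4,z1,[y1,z1])]),
    .old (.leafM k5 [k1,k2,k3,k4,k5,k0] [(z1,[z1]),(z1,[y1,z1])] []),
    .old (.leafM k7 [k0,k1,k3,k4] [(z1,[z0,z1])] [(k2,k5,z1,[y1,y1,z1]),(k5,k2,z1,[y1,y1,z1])]),
    .old (.lp [k62,k10,k24,k58,k38,k38] [k0,k0,k26,k26,k19,k19,k2,k2,k12,k12,k12,k12] k0 [[],[],[k0,k0,k0,k0,k0,k0,k0,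
    k10],[],[],[],[k0,k0,k0,k10]] k120 k6
    [[(k4,k43),(k10,k50),(k7,k60),(k1,k62)],[(k8,k50),(k6,k60)],[(k9,k24),(k11,k24)],[(k6,k24),(k8,k24)],[(k11,k31),
    (k9,k41)],[(k4,k24),(k10,k31),(k7,k41),(k1,k43)],[(k4,k41),(k10,k48),(k7,k58),(k1,k60)],[(k2,k24),(k0,k60)],[(k3,
    k24),(k5,k41)],[(k2,k24),(k0,k50)],[(k3,k24),(k5,k31)],[(k4,k31),(k10,k38),(k7,k48),(k1,k50)]]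
    [] k0
    [[k0,k1,k0,k0,k1,k0],[k0,k2,k0,k0,k2,k0],[k0,k1,k0,k1,k0,k1],[k0,k0,k1,k0,k0,k1]]
    [.contra [y1,y1,z1],.ref k2 k0 [(z2,[y1,y2,z2]),(z2,[z1])],.ref k1 k1 [(z1,[y1,z0,z1])],.contra [y1,y1,z1]]),
    .old (.lp [k2,k2,k2,k2,k2,k4] [k1,k1,k1,k1,k1,k1,k1,k1,k1,k1,k0,k0] k0 [] k8 k5
    [[(k1,k2),(k4,k2),(k7,k2),(k10,k3)],[(k6,k2),(k8,k2)],[(k9,k2),(k11,k3)],[(k6,k2),(k8,k2)],[(k9,k2),(k11,k3)],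
    [(k1,k2),(k4,k2),(k7,k2),(k10,k3)],[(k1,k2),(k4,k2),(k7,k2),(k10,k3)],[(k0,k2),(k2,k2)],[(k3,k2),(k5,k2)],[(k0,
    k2),(k2,k2)],[(k3,k3),(k5,k3)],[(k1,k3),(k4,k3),(k7,k3),(k10,k4)]]
    [] k0
    [[k1,k0,k1,k0,k1,k0],[k1,k0,k0,k1,k0,k0],[k0,k1,k0,k0,k1,k0],[k0,k0,k1,k0,k0,k1]]
    [.ref k1 k1 [(z1,[z1])],.ref k3 k1 [(z1,[z1])],.ref k0 k1 [(z1,[y1,z1])],.ref k3 k0 [(z1,[z1])]])]⟩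

/-- classes `0 0 1 0 0 1`, types `N0 N1 B0 N0 N1 B1` -/
noncomputable def cU6_757 : CertX :=
  ⟨[k12,k13,k24,k12,k13,k25],[(false,k3,[k3,k4,k5,k0,k1,k2]),(false,k0,[k0,k1,k2,k3,k4,k5])],[[[([z1,z0,z1,z1,z0,z1],
    z2)],[([z1,z0,z1,z0,z0,z0],z1),([z0,z3,z0,z0,z0,z0],z2),([z0,z0,z0,z1,z0,z1],z2)],[([z3,z0,z3,z0,z0,z0],z2),([z0,
    z3,z0,z0,z0,z0],z2),([z0,z0,z0,z1,z0,z1],z2)],[([z1,z0,z1,z0,z0,z0],z2),([z0,z3,z0,z3,z0,z3],z4)],[([z1,z0,z1,z0,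
    z0,z0],z1),([z0,z3,z0,z0,z0,z0],z1),([z0,z0,z0,z1,z0,z1],z2)],[([z1,z0,z1,z0,z0,z0],z1),([z0,z2,z0,z0,z0,z0],z1),
    ([z0,z0,z0,z1,z0,z1],z2)],[([z1,z0,z1,z0,z0,z0],z1),([z0,z1,z0,z0,z1,z0],z1)],[([z1,z0,z1,z0,z0,z0],z2)],[]]],
    [.old (.leafM k5 [k0,k2,k3,k5] [] [(k1,k4,z1,[y1,z1]),(k4,k1,z1,[y1,z1])]),
    .old (.leafM k11 [k0,k1,k2,k4] [(z1,[z0,z1]),(z1,[y3,y1,y3,z3]),(z1,[z1])] [(k3,k5,z1,[z0,z0,z1]),(k5,k3,z1,[z0,z0,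
    z1])]),
    .old (.leafM k10 [k0,k1,k2,k4] [(z1,[z0,z1]),(z1,[y1,y1,y3,z3]),(z1,[z1])] [(k3,k5,z1,[z0,z0,z1]),(k5,k3,z1,[z0,z0,
    z1])]),
    .old (.lp [(nat_lit 11270),(nat_lit 9200),(nat_lit 3864),(nat_lit 3864),(nat_lit 6440),(nat_lit 3864)] [k0,k0,
    (nat_lit 1035),(nat_lit 1035),(nat_lit 3703),(nat_lit 3703),(nat_lit 3703),(nat_lit 3703),(nat_lit 2415),
    (nat_lit 2415),(nat_lit 3703),(nat_lit 3703)] k0 [[k0,k0,k0,k0,k0,k0,k0,k0,(nat_lit 3680)],[k0,k0,k0,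
    (nat_lit 4200)],[(nat_lit 4200)],[],[],[],[],[],[],[k0,(nat_lit 3680)]] (nat_lit 19320) k6
    [[(k4,(nat_lit 7567)),(k7,(nat_lit 7567))],[(k11,(nat_lit 3887)),(k5,(nat_lit 11767))],[(k2,(nat_lit 5000)),(k8,
    (nat_lit 11500))],[(k3,(nat_lit 5000)),(k9,(nat_lit 7820))],[(k6,(nat_lit 3864)),(k0,(nat_lit 11767))],[(k10,
    (nat_lit 3864)),(k1,(nat_lit 7567))],[(k10,(nat_lit 3864)),(k1,(nat_lit 7567))],[(k5,(nat_lit 3864)),(k11,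
    (nat_lit 3864))],[(k8,(nat_lit 6440)),(k2,(nat_lit 7820))],[(k9,(nat_lit 6440)),(k3,(nat_lit 11500))],[(k6,
    (nat_lit 3864)),(k0,(nat_lit 3887))],[(k4,(nat_lit 3864)),(k7,(nat_lit 3864))]]
    [] k0
    [[k1,k0,k1,k1,k0,k1],[k0,k2,k0,k0,k0,k0],[k0,k3,k0,k0,k0,k0],[k0,k0,k0,k1,k0,k1],[k0,k0,k0,k2,k0,k2],[k0,k0,k0,k0,
    k2,k0]]
    [.contra [z1,y1],.contra [z1],.ref k2 k0 [(z1,[y1,z0,z1]),(z1,[z0,y3,y1,z3]),(z1,[z0,z1])],.contra [y3,z1,z1],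
    .ref k1 k0 [(z2,[z1]),(z1,[z0,y3,y1,z3]),(z1,[z0,z1])],.contra [z1]]),
    .old (.leafM k11 [k2,k4,k0,k1] [(z1,[y3,y1,y3,z3]),(z1,[z0,z1]),(z1,[z1])] [(k3,k5,z1,[z0,z0,z1]),(k5,k3,z1,[z0,z0,
    z1])]),
    .old (.leafM k12 [k0,k1,k2,k4] [(z1,[z0,z1]),(z1,[y2,y1,y2,z2]),(z1,[z1])] [(k3,k5,z1,[z0,z0,z1]),(k5,k3,z1,[z0,z0,
    z1])]),
    .old (.lp [k86,k86,k10,k86,k116,k86] [k15,k15,k15,k15,k53,k53,k15,k15,k0,k0,k15,k15] k0 [[k0,k0,k0,k0,k0,k0,k0,k0,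
    k38],[k0,k0,k0,k24],[k24],[],[],[],[],[k0,k0,k0,k0,k0,k0,k0,k0,k0,k68],[k0,k0,k0,k0,k0,k0,k68],[k0,
    k38]] (nat_lit 240) k6
    [[(k4,k48),(k7,k86)],[(k11,k48),(k5,k72)],[(k2,k62),(k8,k139)],[(k3,k62),(k9,k101)],[(k6,k48),(k0,k72)],[(k1,k48),
    (k10,k48)],[(k1,k86),(k10,k86)],[(k5,k48),(k11,k154)],[(k8,k48),(k2,k101)],[(k9,k48),(k3,k139)],[(k0,k48),(k6,
    k154)],[(k4,k48),(k7,k86)]]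
    [] k0
    [[k1,k0,k1,k0,k0,k0],[k1,k0,k1,k1,k0,k1],[k0,k2,k0,k0,k0,k0],[k0,k3,k0,k0,k0,k0],[k0,k0,k0,k0,k2,k0],[k0,k0,k0,k0,
    k3,k0],[k0,k0,k0,k0,k4,k0]]
    [.contra [y1,z2],.contra [z1,z1,z1,y1],.contra [z1],.ref k3 k0 [(z1,[z0,y1,y1,z1]),(z1,[y1,z3,z3])],.contra [z1],
    .ref k4 k1 [(z1,[z0,z1]),(z1,[y1,z0,z3]),(z1,[z0,y1,y1,z1])],.ref k5 k1 [(z1,[z0,z1]),(z2,[y1,z0,z4]),(z1,[z0,y1,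
    y1,z1])]]),
    .old (.lp [k140,k134,k48,k48,k60,k48] [k0,k0,k3,k3,k46,k46,k46,k46,k40,k40,k46,k46] k0 [[k0,k0,k0,k0,k0,k0,k0,k0,k46],
    [k0,k0,k0,k52],[k52],[],[],[],[],[],[],[k0,k46]] (nat_lit 240) k6
    [[(k4,k94),(k7,k94)],[(k11,k48),(k5,k146)],[(k2,k82),(k8,k143)],[(k3,k82),(k9,k97)],[(k6,k48),(k0,k146)],[(k10,
    k48),(k1,k94)],[(k10,k48),(k1,k94)],[(k5,k48),(k11,k48)],[(k8,k60),(k2,k97)],[(k9,k60),(k3,k143)],[(k0,k48),(k6,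
    k48)],[(k4,k48),(k7,k48)]]
    [] k0
    [[k1,k0,k1,k1,k0,k1],[k0,k2,k0,k0,k0,k0],[k0,k0,k0,k1,k0,k1],[k0,k0,k0,k2,k0,k2],[k0,k0,k0,k0,k2,k0],[k0,k0,k0,k0,
    k3,k0]]
    [.contra [z1,y1],.contra [z1],.contra [y1,y1,z1],.ref k6 k0 [(z2,[z1]),(z2,[y1,y2,z2])],.contra [z1],
    .ref k3 k1 [(z1,[z0,z1]),(z1,[y1,y3,z3])]]),
    .old (.lp [k6,k12,k6,k6,k8,k6] [k3,k3,k0,k0,k3,k3,k3,k3,k2,k2,k3,k3] k0 [] k24 k5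
    [[(k4,k6),(k7,k6)],[(k5,k6),(k11,k6)],[(k8,k10),(k2,k12)],[(k9,k10),(k3,k12)],[(k0,k6),(k6,k6)],[(k1,k6),(k10,
    k6)],[(k1,k6),(k10,k6)],[(k5,k6),(k11,k6)],[(k8,k8),(k2,k10)],[(k9,k8),(k3,k10)],[(k0,k6),(k6,k6)],[(k4,k6),(k7,
    k6)]]
    [] k0
    [[k1,k0,k1,k0,k0,k0],[k0,k1,k0,k0,k1,k0],[k0,k0,k0,k1,k0,k1],[k0,k0,k0,k0,k2,k0]]
    [.ref k7 k1 [(z1,[z1])],.ref k0 k1 [(z1,[y1,z1])],.ref k7 k0 [(z1,[z1])],.contra [z1]])]⟩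

/-- classes `0 0 1 0 0 1`, types `N0 N1 B0 N0 N2 B1` -/
noncomputable def cU6_758 : CertX :=
  ⟨[k12,k13,k24,k12,k14,k25],[(false,k0,[k0,k1,k2,k3,k4,k5])],[[[([z1,z0,z1,z0,z0,z0],z2)],[]]],
    [.old (.lp [(nat_lit 324),k132,k72,k88,k72,k88] [k0,k0,k96,k96,k126,k126,k118,k118,k126,k126,k118,k118] k0 [[k0,k0,k0,
    k0,k0,k0,k0,k0,k0,k33],[],[],[],[],[],[],[],[k0,k33]] (nat_lit 396) k6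
    [[(k4,k198),(k7,(nat_lit 206))],[(k8,k165),(k5,k198)],[(k2,k132),(k11,k143)],[(k9,k102),(k3,k132)],[(k6,k80),(k0,
    k198)],[(k10,k80),(k1,k198)],[(k10,k88),(k1,(nat_lit 206))],[(k5,k80),(k8,k80)],[(k11,k80),(k2,k102)],[(k6,k80),
    (k0,k165)],[(k9,k80),(k3,k143)],[(k4,k80),(k7,k88)]]
    [] k0
    [[k0,k2,k0,k0,k0,k0],[k0,k0,k0,k1,k1,k1]]
    [.contra [z1],.contra [y1,y1,z1]]),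
    .old (.lp [k10,k8,k2,k10,k4,k10] [k0,k0,k1,k1,k4,k4,k0,k0,k3,k3,k0,k0] k0 [] k24 k5
    [[(k4,k6),(k7,k10)],[(k5,k6),(k8,k7)],[(k2,k8),(k11,k9)],[(k9,k6),(k3,k8)],[(k0,k6),(k6,k6)],[(k1,k6),(k10,k6)],
    [(k1,k10),(k10,k10)],[(k5,k6),(k8,k7)],[(k2,k6),(k11,k7)],[(k0,k7),(k6,k7)],[(k9,k7),(k3,k9)],[(k4,k6),(k7,k10)]]
    [] k0
    [[k1,k0,k1,k0,k0,k0],[k0,k2,k0,k0,k0,k0]]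
    [.ref k0 k0 [(z1,[z1])],.contra [z1]])]⟩

/-- classes `0 0 1 0 0 1`, types `N0 N1 B0 N1 N0 B1` -/
noncomputable def cU6_759 : CertX :=
  ⟨[k12,k13,k24,k13,k12,k25],[(false,k3,[k3,k4,k5,k0,k1,k2]),(false,k0,[k0,k1,k2,k3,k4,k5])],[[[([z1,z0,z1,z0,z1,z0],
    z2)],[([z1,z0,z1,z0,z0,z0],z1),([z0,z3,z0,z0,z0,z0],z2),([z0,z0,z0,z1,z0,z1],z2)],[([z3,z0,z3,z0,z0,z0],z2),([z0,
    z3,z0,z0,z0,z0],z2),([z0,z0,z0,z1,z0,z1],z2)],[([z1,z0,z1,z0,z0,z0],z2),([z0,z3,z0,z3,z0,z3],z4)],[([z1,z0,z1,z0,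
    z0,z0],z1),([z0,z3,z0,z0,z0,z0],z1),([z0,z0,z0,z1,z0,z1],z2)],[([z1,z0,z1,z0,z0,z0],z1),([z0,z2,z0,z0,z0,z0],z1),
    ([z0,z0,z0,z1,z0,z1],z2)],[([z1,z0,z1,z0,z0,z0],z1),([z0,z1,z0,z0,z1,z0],z1)],[([z1,z0,z1,z0,z0,z0],z2)],[]]],
    [.old (.leafM k1 [k0,k1,k2,k3,k4,k5] [(z1,[y1,z1]),(z1,[z1])] []),
    .old (.leafM k11 [k0,k1,k2,k4] [(z1,[z0,z1]),(z1,[y3,y1,y3,z3]),(z1,[z1])] [(k3,k5,z1,[z0,z0,z1]),(k5,k3,z1,[z0,z0,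
    z1])]),
    .old (.leafM k10 [k0,k1,k2,k4] [(z1,[z0,z1]),(z1,[y1,y1,y3,z3]),(z1,[z1])] [(k3,k5,z1,[z0,z0,z1]),(k5,k3,z1,[z0,z0,
    z1])]),
    .old (.lp [(nat_lit 644),k180,k46,k0,(nat_lit 230),(nat_lit 276)] [k0,k0,(nat_lit 232),(nat_lit 232),(nat_lit 299),
    (nat_lit 299),(nat_lit 322),(nat_lit 322),(nat_lit 207),(nat_lit 207),k184,k184] k0 [[k0,k0,k0,k0,k0,k0,
    (nat_lit 240)],[],[],[],[],[],[],[k0,(nat_lit 240)]] (nat_lit 690) k6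
    [[(k7,(nat_lit 322)),(k4,(nat_lit 345))],[(k9,k197),(k5,(nat_lit 345))],[(k2,k180),(k6,(nat_lit 330))],[(k3,k180),
    (k11,(nat_lit 228))],[(k8,k138),(k0,(nat_lit 345))],[(k10,k161),(k1,(nat_lit 345))],[(k10,k138),(k1,
    (nat_lit 322))],[(k11,k138),(k3,(nat_lit 330))],[(k0,k197),(k8,(nat_lit 230))],[(k5,k138),(k9,(nat_lit 230))],
    [(k6,k138),(k2,(nat_lit 228))],[(k7,k138),(k4,k161)]]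
    [] k0
    [[k1,k0,k1,k0,k1,k0],[k0,k2,k0,k0,k0,k0],[k0,k3,k0,k0,k0,k0],[k0,k0,k0,k1,k0,k1],[k0,k0,k0,k2,k0,k2],[k0,k0,k0,k0,
    k2,k0]]
    [.contra [y1,y2,y1,z3],.contra [z1],.ref k2 k0 [(z1,[y1,z0,z1]),(z1,[z0,y3,y1,z3]),(z1,[z0,z1])],.contra [y3,z1,
    z1],.ref k1 k0 [(z2,[z1]),(z1,[z0,y3,y1,z3]),(z1,[z0,z1])],.contra [z1]]),
    .old (.leafM k11 [k2,k4,k0,k1] [(z1,[y3,y1,y3,z3]),(z1,[z0,z1]),(z1,[z1])] [(k3,k5,z1,[z0,z0,z1]),(k5,k3,z1,[z0,z0,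
    z1])]),
    .old (.leafM k12 [k0,k1,k2,k4] [(z1,[z0,z1]),(z1,[y2,y1,y2,z2]),(z1,[z1])] [(k3,k5,z1,[z0,z0,z1]),(k5,k3,z1,[z0,z0,
    z1])]),
    .old (.lp [k14,k8,k6,k8,k10,k32] [k9,k9,k12,k12,k13,k13,k12,k12,k11,k11,k0,k0] k0 [] k40 k6
    [[(k4,k10),(k7,k11)],[(k5,k10),(k9,k12)],[(k2,k8),(k6,k8)],[(k3,k8),(k11,k20)],[(k8,k8),(k0,k10)],[(k1,k10),(k10,
    k19)],[(k1,k11),(k10,k20)],[(k3,k8),(k11,k20)],[(k8,k10),(k0,k12)],[(k5,k8),(k9,k10)],[(k2,k20),(k6,k20)],[(k4,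
    k19),(k7,k20)]]
    [] k0
    [[k1,k0,k1,k0,k0,k0],[k1,k0,k1,k0,k1,k0],[k0,k2,k0,k0,k0,k0],[k0,k3,k0,k0,k0,k0],[k0,k4,k0,k0,k0,k0],[k0,k0,k0,k0,
    k2,k0],[k0,k0,k0,k0,k3,k0]]
    [.contra [y1,z2],.contra [z1,y1],.contra [z1],.ref k3 k0 [(z1,[z0,y1,y1,z1]),(z1,[y1,z3,z3])],.ref k5 k1 [(z1,[z0,
    z1]),(z2,[z1]),(z1,[z0,y1,y1,z1])],.contra [z1],.ref k4 k1 [(z1,[z0,z1]),(z1,[y1,z0,z3]),(z1,[z0,y1,y1,z1])]]),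
    .old (.lp [(nat_lit 782),(nat_lit 320),k138,k0,(nat_lit 230),(nat_lit 368)] [k0,k0,(nat_lit 231),(nat_lit 231),
    (nat_lit 322),(nat_lit 322),(nat_lit 391),(nat_lit 391),(nat_lit 276),(nat_lit 276),(nat_lit 207),
    (nat_lit 207)] k0 [[k0,k0,k0,k0,k0,k0,(nat_lit 240)],[],[],[],[],[],[],[k0,(nat_lit 240)]] (nat_lit 920) k6
    [[(k7,(nat_lit 391)),(k4,(nat_lit 460))],[(k9,(nat_lit 266)),(k5,(nat_lit 460))],[(k2,(nat_lit 320)),(k6,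
    (nat_lit 400))],[(k3,(nat_lit 320)),(k11,(nat_lit 344))],[(k8,k184),(k0,(nat_lit 460))],[(k10,(nat_lit 253)),(k1,
    (nat_lit 460))],[(k10,k184),(k1,(nat_lit 391))],[(k11,k184),(k3,(nat_lit 400))],[(k8,(nat_lit 230)),(k0,
    (nat_lit 266))],[(k5,k184),(k9,(nat_lit 230))],[(k6,k184),(k2,(nat_lit 344))],[(k7,k184),(k4,(nat_lit 253))]]
    [] k0
    [[k1,k0,k1,k0,k1,k0],[k0,k2,k0,k0,k0,k0],[k0,k0,k0,k1,k0,k1],[k0,k0,k0,k2,k0,k2],[k0,k0,k0,k0,k2,k0],[k0,k0,k0,k0,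
    k3,k0]]
    [.contra [z1,y1],.contra [z1],.contra [y1,y1,z1],.ref k6 k0 [(z2,[z1]),(z2,[y1,y2,z2])],.contra [z1],
    .ref k3 k1 [(z1,[z0,z1]),(z1,[y1,y3,z3])]]),
    .old (.lp [k4,k6,k2,k2,k4,k4] [k1,k1,k0,k0,k2,k2,k2,k2,k1,k1,k1,k1] k0 [] k12 k5
    [[(k4,k3),(k7,k3)],[(k5,k3),(k9,k4)],[(k6,k4),(k2,k6)],[(k11,k5),(k3,k6)],[(k0,k3),(k8,k3)],[(k1,k3),(k10,k3)],
    [(k1,k3),(k10,k3)],[(k11,k3),(k3,k4)],[(k0,k4),(k8,k4)],[(k5,k3),(k9,k4)],[(k6,k3),(k2,k5)],[(k4,k3),(k7,k3)]]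
    [] k0
    [[k1,k0,k1,k0,k0,k0],[k1,k0,k1,k0,k1,k0],[k0,k0,k0,k1,k0,k1],[k0,k0,k0,k0,k2,k0]]
    [.ref k7 k1 [(z1,[z1])],.ref k0 k1 [(z1,[z1])],.ref k7 k0 [(z1,[z1])],.contra [z1]])]⟩

/-- classes `0 0 1 0 0 1`, types `N0 N1 B0 N1 N3 B1` -/
noncomputable def cU6_760 : CertX :=
  ⟨[k12,k13,k24,k13,k15,k25],[(false,k0,[k0,k1,k2,k3,k4,k5])],[[[([z1,z1,z0,z1,z1,z0],z2)],[([z1,z0,z1,z0,z0,z0],z2)],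
    []]],
    [.old (.leafM k6 [k0,k1,k3,k4] [] [(k2,k5,z1,[y1,z1]),(k5,k2,z1,[y1,z1])]),
    .old (.lp [(nat_lit 4416),(nat_lit 2024),(nat_lit 1656),(nat_lit 1056),(nat_lit 1380),(nat_lit 1380)] [k0,k0,
    (nat_lit 1196),(nat_lit 1196),(nat_lit 1380),(nat_lit 1380),(nat_lit 1680),(nat_lit 1680),(nat_lit 1518),
    (nat_lit 1518),(nat_lit 1518),(nat_lit 1518)] k0 [[k0,k0,k0,k0,k0,k0,(nat_lit 253)],[],[],[],[],[],[],[k0,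
    (nat_lit 253)]] (nat_lit 6072) k6
    [[(k7,(nat_lit 2736)),(k4,(nat_lit 3036))],[(k9,(nat_lit 2645)),(k5,(nat_lit 3036))],[(k6,(nat_lit 1793)),(k2,
    (nat_lit 2024))],[(k8,(nat_lit 1702)),(k3,(nat_lit 2024))],[(k11,(nat_lit 1518)),(k0,(nat_lit 3036))],[(k10,
    (nat_lit 1518)),(k1,(nat_lit 3036))],[(k10,(nat_lit 1218)),(k1,(nat_lit 2736))],[(k8,(nat_lit 1218)),(k3,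
    (nat_lit 1793))],[(k11,(nat_lit 1380)),(k0,(nat_lit 2645))],[(k6,(nat_lit 1218)),(k2,(nat_lit 1702))],[(k9,
    (nat_lit 1380)),(k5,(nat_lit 1518))],[(k7,(nat_lit 1218)),(k4,(nat_lit 1518))]]
    [] k0
    [[k0,k2,k0,k0,k0,k0],[k0,k0,k1,k0,k0,k1],[k0,k0,k0,k1,k1,k1]]
    [.contra [z1],.ref k0 k0 [(z1,[y1,z0,z1])],.contra [y1,y1,z1]]),
    .old (.lp [k6,k4,k0,k2,k4,k6] [k0,k0,k1,k1,k3,k3,k2,k2,k1,k1,k0,k0] k0 [] k12 k5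
    [[(k4,k3),(k7,k4)],[(k5,k3),(k9,k5)],[(k6,k3),(k2,k4)],[(k3,k4),(k8,k4)],[(k0,k3),(k11,k3)],[(k1,k3),(k10,k3)],
    [(k1,k4),(k10,k4)],[(k3,k3),(k8,k3)],[(k0,k5),(k11,k5)],[(k6,k3),(k2,k4)],[(k5,k3),(k9,k5)],[(k4,k3),(k7,k4)]]
    [] k0
    [[k1,k0,k1,k0,k0,k0],[k0,k2,k0,k0,k0,k0],[k0,k0,k1,k0,k0,k1]]
    [.ref k1 k0 [(z1,[z1])],.contra [z1],.ref k0 k0 [(z1,[y1,z1])]])]⟩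

/-- classes `0 0 1 0 0 1`, types `N0 N1 B0 N2 N3 B1` -/
noncomputable def cU6_761 : CertX :=
  ⟨[k12,k13,k24,k14,k15,k25],[(false,k0,[k0,k1,k2,k3,k4,k5]),(false,k3,[k3,k4,k5,k0,k1,k2]),(true,k5,[k5,k4,k3,k2,k1,
    k0]),(true,k2,[k2,k1,k0,k5,k4,k3])],[[[([z1,z0,z1,z1,z0,z1],z2)],[([z1,z0,z1,z0,z0,z0],z1),([z0,z3,z0,z0,z0,z0],
    z2),([z0,z0,z0,z1,z0,z1],z2)],[([z3,z0,z3,z0,z0,z0],z2),([z0,z3,z0,z0,z0,z0],z2),([z0,z0,z0,z1,z0,z1],z2)],[([z1,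
    z0,z0,z0,z0,y1],z0),([z0,z3,z0,z0,z0,z0],z2),([z0,z0,z3,z0,z3,z3],z4)],[([z1,z0,z1,z0,z0,z0],z2),([z0,z3,z0,z3,z0,
    z3],z4)],[([z1,z0,z1,z0,z0,z0],z1),([z0,z3,z0,z0,z0,z0],z1),([z0,z0,z0,z1,z0,z1],z2)],[([z1,z0,z1,z0,z0,z0],z1),
    ([z0,z2,z0,z0,z0,z0],z1),([z0,z0,z0,z1,z0,z1],z2)],[([z1,z0,z0,z1,z0,z0],z1),([z0,z1,z0,z0,z1,z0],z1)],[([z1,z0,
    z1,z0,z0,z0],z1),([z0,z1,z0,z0,z1,z0],z1)],[([z1,z0,z0,z0,z0,y1],z0),([z0,z2,z0,z0,z1,z0],z2),([z0,z0,z2,z0,z1,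
    z2],z2)],[([z1,z0,z0,z0,y1,y1],y2),([z0,z1,z0,z0,z2,z0],z2),([z0,z0,z1,z0,z0,z1],z2)],[([z1,z0,z0,z0,z0,y1],z0),
    ([z0,z1,z0,z1,z1,z1],z2)]],[[([z1,z0,z1,z0,z0,z0],z2)],[([z3,z0,z0,z0,z0,y3],y2),([z0,z3,z0,z0,z0,z0],z2),([z0,z0,
    z1,z0,z0,z1],z2),([z0,z0,z0,z3,z0,z3],z4)],[([z3,z0,z0,z3,z0,z0],z2),([z0,z3,z0,z0,z0,z0],z2),([z0,z0,z1,z0,z0,
    z1],z2)],[([z1,z0,z0,z1,y1,z0],z0),([z0,z1,z0,z0,z2,z0],z2)],[([z1,z0,z0,z1,z0,z0],z2)],[]]],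
    [.old (.leafM k6 [k2,k3,k5,k0] [] [(k4,k1,z1,[y1,z1]),(k1,k4,z1,[y1,z1])]),
    .old (.leafM k11 [k0,k1,k2,k4] [(z1,[z0,z1]),(z1,[y3,y1,y3,z3]),(z1,[z1])] [(k3,k5,z1,[z0,z0,z1]),(k5,k3,z1,[z0,z0,
    z1])]),
    .old (.leafM k10 [k0,k1,k2,k4] [(z1,[z0,z1]),(z1,[y1,y1,y3,z3]),(z1,[z1])] [(k3,k5,z1,[z0,z0,z1]),(k5,k3,z1,[z0,z0,
    z1])]),
    .old (.lp [k48,k40,k0,k72,k30,k48] [k12,k12,k16,k16,k36,k36,k0,k0,k21,k21,k12,k12] k0 [] k120 k6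
    [[(k4,k24),(k7,k60)],[(k5,k24),(k6,k60)],[(k9,k35),(k2,k40)],[(k8,k35),(k3,k40)],[(k0,k24),(k11,k24)],[(k1,k24),
    (k10,k24)],[(k1,k60),(k10,k60)],[(k0,k60),(k11,k60)],[(k8,k30),(k3,k35)],[(k9,k30),(k2,k35)],[(k5,k24),(k6,k60)],
    [(k4,k24),(k7,k60)]]
    [] k0
    [[k1,k0,k1,k0,k0,k0],[k2,k0,k2,k0,k0,k0],[k1,k0,k2,k0,k0,k1],[k0,k2,k0,k0,k0,k0],[k0,k2,k0,k0,k1,k0],[k0,k1,k0,k0,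
    k1,k0],[k0,k1,k0,k0,k2,k0],[k0,k0,k1,k0,k0,k1],[k0,k0,k2,k0,k0,k2],[k0,k0,k0,k0,k2,k0],[k0,k0,k0,k0,k3,k0]]
    [.contra [y3,z3,z1,z1],.ref k1 k0 [(z2,[z1]),(z1,[z0,z0,z1]),(z3,[z0,y3,y1,y1,z3])],.ref k1 k0 [(z2,[z1,z1]),(z1,
    [z0,z0,z1]),(z3,[z0,y3,y1,y1,z3])],.contra [z1],.ref k2 k0 [(z1,[y3,z3,z2,z1]),(z1,[z0,z0,z1]),(z3,[z0,y3,y1,y1,
    z3])],.contra [y3,z3,z1,z1],.ref k2 k0 [(z2,[y3,z6,z1,z2]),(z1,[z0,z0,z1]),(z3,[z0,y3,y1,y1,z3])],.contra [y3,z0,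
    z1,z1],.ref k1 k0 [(z2,[z1,z2]),(z1,[z0,z0,z1]),(z3,[z0,y3,y1,y1,z3])],.contra [z1],.ref k2 k0 [(z1,[y1,z3,z0,
    z1]),(z1,[z0,z0,z1]),(z3,[z0,y3,y1,y1,z3])]]),
    .old (.lp [(nat_lit 1104),(nat_lit 360),(nat_lit 276),k0,(nat_lit 460),(nat_lit 552)] [k0,k0,(nat_lit 372),
    (nat_lit 372),(nat_lit 414),(nat_lit 414),(nat_lit 552),(nat_lit 552),(nat_lit 322),(nat_lit 322),(nat_lit 276),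
    (nat_lit 276)] k0 [[k0,k0,k0,k0,k0,k0,k0,(nat_lit 207)],[],[],[],[],[],[k0,(nat_lit 207)]] (nat_lit 1380) k6
    [[(k7,(nat_lit 552)),(k4,(nat_lit 690))],[(k6,(nat_lit 345)),(k5,(nat_lit 690))],[(k2,(nat_lit 360)),(k9,
    (nat_lit 617))],[(k3,(nat_lit 360)),(k8,(nat_lit 410))],[(k11,(nat_lit 414)),(k0,(nat_lit 690))],[(k10,
    (nat_lit 414)),(k1,(nat_lit 690))],[(k10,(nat_lit 276)),(k1,(nat_lit 552))],[(k11,(nat_lit 276)),(k0,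
    (nat_lit 345))],[(k8,(nat_lit 460)),(k3,(nat_lit 617))],[(k2,(nat_lit 410)),(k9,(nat_lit 460))],[(k6,
    (nat_lit 276)),(k5,(nat_lit 414))],[(k7,(nat_lit 276)),(k4,(nat_lit 414))]]
    [] k0
    [[k1,k0,k0,k1,k0,k0],[k0,k2,k0,k0,k0,k0],[k0,k3,k0,k0,k0,k0],[k0,k1,k0,k0,k1,k0],[k0,k0,k1,k0,k0,k1],[k0,k0,k0,k1,
    k0,k1],[k0,k0,k0,k2,k0,k2],[k0,k0,k0,k0,k2,k0]]
    [.ref k3 k1 [(z1,[z1,y1]),(z1,[z0,y3,y1,z3]),(z1,[y3,z3,z1])],.contra [z1],.ref k2 k1 [(z1,[y1,z0,z1]),(z1,[z0,y3,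
    y1,z3]),(z1,[z0,z1])],.contra [y1,y1,z0,z1],.ref k3 k2 [(z1,[z1,y1]),(z1,[z0,y3,y1,z3]),(z1,[y3,z3,z1])],
    .contra [y3,z1,z1],.ref k1 k1 [(z2,[z1]),(z1,[z0,y3,y1,z3]),(z1,[z0,z1])],.contra [z1]]),
    .old (.leafM k11 [k2,k4,k0,k1] [(z1,[y3,y1,y3,z3]),(z1,[z0,z1]),(z1,[z1])] [(k3,k5,z1,[z0,z0,z1]),(k5,k3,z1,[z0,z0,
    z1])]),
    .old (.leafM k12 [k0,k1,k2,k4] [(z1,[z0,z1]),(z1,[y2,y1,y2,z2]),(z1,[z1])] [(k3,k5,z1,[z0,z0,z1]),(k5,k3,z1,[z0,z0,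
    z1])]),
    .old (.leafM k7 [k0,k1,k3,k4] [(z1,[z0,z1])] [(k2,k5,z1,[y1,y1,z1]),(k5,k2,z1,[y1,y1,z1])]),
    .old (.lp [k120,k60,k0,k104,k66,k120] [k0,k0,k30,k30,k60,k60,k8,k8,k27,k27,k0,k0] k0 [[k0,k0,k0,k0,k0,k0,k0,k64],[],
    [],[],[],[],[k0,k64],[k0,k0,k0,k0,k0,k0,k0,k0,k0,k16],[k0,k0,k0,k0,k0,k0,k16]] (nat_lit 240) k6
    [[(k4,k60),(k7,k112)],[(k6,k48),(k5,k60)],[(k2,k60),(k9,k127)],[(k3,k60),(k8,k63)],[(k0,k60),(k11,k60)],[(k1,k60),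
    (k10,k60)],[(k1,k112),(k10,k112)],[(k0,k48),(k11,k128)],[(k8,k50),(k3,k127)],[(k9,k50),(k2,k63)],[(k5,k60),(k6,
    k128)],[(k4,k60),(k7,k112)]]
    [] k0
    [[k1,k0,k1,k0,k0,k0],[k1,k0,k0,k1,k0,k0],[k0,k2,k0,k0,k0,k0],[k0,k3,k0,k0,k0,k0],[k0,k1,k0,k0,k1,k0],[k0,k0,k1,k0,
    k0,k1],[k0,k0,k0,k0,k2,k0],[k0,k0,k0,k0,k3,k0],[k0,k0,k0,k0,k4,k0]]
    [.contra [y1,z2],.ref k7 k3 [(z1,[y1,z0,y1,z1]),(z1,[z0,z0,z1])],.contra [z1],.ref k4 k1 [(z1,[z0,y1,y1,z1]),(z1,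
    [y1,z3,z3])],.contra [y1,z1,z1],.ref k7 k0 [(z1,[y1,z0,y1,z1]),(z1,[z0,z0,z1])],.contra [z1],.ref k5 k0 [(z1,[z0,
    z1]),(z1,[y1,z0,z3]),(z1,[z0,y1,y1,z1])],.ref k6 k0 [(z1,[z0,z1]),(z2,[y1,z0,z4]),(z1,[z0,y1,y1,z1])]]),
    .old (.lp [k16,k18,k0,k32,k12,k16] [k8,k8,k7,k7,k16,k16,k0,k0,k10,k10,k8,k8] k0 [] k48 k7
    [[(k4,k8),(k7,k24)],[(k5,k8),(k6,k24)],[(k9,k15),(k2,k18)],[(k8,k15),(k3,k18)],[(k0,k8),(k11,k8)],[(k1,k8),(k10,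
    k8)],[(k1,k24),(k10,k24)],[(k0,k24),(k11,k24)],[(k8,k12),(k3,k15)],[(k9,k12),(k2,k15)],[(k5,k8),(k6,k24)],[(k4,
    k8),(k7,k24)]]
    [] k0
    [[k1,k0,k1,k0,k0,k0],[k2,k0,k2,k0,k0,k0],[k1,k0,k2,k0,k0,k1],[k0,k2,k0,k0,k0,k0],[k0,k1,k0,k0,k1,k0],[k0,k1,k0,k0,
    k2,k0],[k0,k0,k1,k0,k0,k1],[k0,k0,k2,k0,k0,k2],[k0,k0,k0,k0,k2,k0],[k0,k0,k0,k0,k3,k0]]
    [.contra [y1,z2,z0,z1],.contra [z1,y2,z1,y1],.contra [z1,y1,z1,y1],.contra [z1],.contra [y1,z0,z1],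
    .ref k4 k1 [(z2,[z0,y2,y1,y1,z2]),(z2,[z2,z6,y1,z3])],.contra [y1,z1,z0,z1],.contra [z1,z0,z1,y1],.contra [z1],
    .ref k4 k1 [(z2,[z0,y2,y1,y1,z2]),(z2,[z1,z6,z0,z3])]]),
    .old (.lp [k16,k12,k0,k0,k18,k48] [k16,k16,k18,k18,k24,k24,k24,k24,k15,k15,k0,k0] k0 [] k48 k7
    [[(k4,k8),(k7,k8)],[(k5,k8),(k6,k8)],[(k2,k12),(k9,k15)],[(k3,k12),(k8,k15)],[(k0,k8),(k11,k24)],[(k1,k8),(k10,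
    k24)],[(k1,k8),(k10,k24)],[(k0,k8),(k11,k24)],[(k3,k15),(k8,k18)],[(k2,k15),(k9,k18)],[(k5,k24),(k6,k24)],[(k4,
    k24),(k7,k24)]]
    [] k0
    [[k1,k0,k1,k0,k0,k0],[k2,k0,k2,k0,k0,k0],[k2,k0,k1,k1,k0,k0],[k1,k0,k0,k1,k0,k0],[k2,k0,k0,k2,k0,k0],[k0,k2,k0,k0,
    k0,k0],[k0,k3,k0,k0,k0,k0],[k0,k2,k0,k0,k1,k0],[k0,k1,k0,k0,k1,k0],[k0,k0,k0,k0,k2,k0]]
    [.contra [y1,z2,z1,z2],.contra [z1,y2,z0,y2],.contra [z1,y1,z1,z0,y1],.contra [y1,z1,z0,z0,z1],.contra [z1,z0,z2,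
    z2,y2],.contra [z1],.ref k4 k1 [(z1,[z0,y1,y1,y1,z1]),(z1,[y1,z3,z3,z3])],.ref k4 k1 [(z1,[z0,y1,y1,y1,z1]),(z1,
    [y2,z3,z4,z3])],.contra [y1,z1,z1,z1],.contra [z1]]),
    .old (.lp [k48,k40,k72,k0,k30,k48] [k12,k12,k16,k16,k0,k0,k36,k36,k21,k21,k12,k12] k0 [] k120 k6
    [[(k7,k24),(k4,k60)],[(k6,k24),(k5,k60)],[(k9,k35),(k2,k40)],[(k8,k35),(k3,k40)],[(k0,k60),(k11,k60)],[(k1,k60),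
    (k10,k60)],[(k1,k24),(k10,k24)],[(k0,k24),(k11,k24)],[(k8,k30),(k3,k35)],[(k9,k30),(k2,k35)],[(k6,k24),(k5,k60)],
    [(k7,k24),(k4,k60)]]
    [] k0
    [[k1,k0,k0,k1,k0,k0],[k2,k0,k0,k2,k0,k0],[k1,k0,k0,k2,k0,k1],[k0,k2,k0,k0,k0,k0],[k0,k2,k0,k0,k1,k0],[k0,k1,k0,k0,
    k1,k0],[k0,k1,k0,k0,k2,k0],[k0,k0,k0,k1,k0,k1],[k0,k0,k0,k2,k0,k2],[k0,k0,k0,k0,k2,k0],[k0,k0,k0,k0,k3,k0]]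
    [.contra [y1,z1,z1],.ref k7 k0 [(z2,[z1]),(z2,[y1,z2,z2])],.ref k7 k0 [(z2,[z1,z1]),(z2,[y1,z1,z2])],.contra [z1],
    .ref k10 k1 [(z1,[y1,z1,z2,y1]),(z1,[z1]),(z1,[z0,y1,y1,z1])],.contra [y1,z1,z1],.ref k9 k2 [(z1,[z0,y1]),(z1,
    [z1]),(z1,[y1,z2,z2])],.contra [y1,z0,z1],.ref k7 k0 [(z2,[z1,z2]),(z2,[y1,z0,z2])],.contra [z1],.ref k4 k0 [(z1,
    [z0,z0,y1,z1]),(z1,[y1,z0,z3])]]),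
    .old (.lp [(nat_lit 1104),(nat_lit 460),(nat_lit 276),k0,(nat_lit 360),(nat_lit 552)] [k0,k0,(nat_lit 322),
    (nat_lit 322),(nat_lit 414),(nat_lit 414),(nat_lit 552),(nat_lit 552),(nat_lit 372),(nat_lit 372),(nat_lit 276),
    (nat_lit 276)] k0 [[k0,k0,k0,k0,k0,k0,k0,(nat_lit 207)],[],[],[],[],[],[k0,(nat_lit 207)]] (nat_lit 1380) k6
    [[(k7,(nat_lit 552)),(k4,(nat_lit 690))],[(k6,(nat_lit 345)),(k5,(nat_lit 690))],[(k2,(nat_lit 460)),(k9,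
    (nat_lit 617))],[(k8,(nat_lit 410)),(k3,(nat_lit 460))],[(k11,(nat_lit 414)),(k0,(nat_lit 690))],[(k10,
    (nat_lit 414)),(k1,(nat_lit 690))],[(k10,(nat_lit 276)),(k1,(nat_lit 552))],[(k11,(nat_lit 276)),(k0,
    (nat_lit 345))],[(k8,(nat_lit 360)),(k3,(nat_lit 617))],[(k9,(nat_lit 360)),(k2,(nat_lit 410))],[(k6,
    (nat_lit 276)),(k5,(nat_lit 414))],[(k7,(nat_lit 276)),(k4,(nat_lit 414))]]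
    [] k0
    [[k1,k0,k0,k1,k0,k0],[k0,k2,k0,k0,k0,k0],[k0,k1,k0,k0,k1,k0],[k0,k0,k1,k0,k0,k1],[k0,k0,k0,k1,k0,k1],[k0,k0,k0,k2,
    k0,k2],[k0,k0,k0,k0,k2,k0],[k0,k0,k0,k0,k3,k0]]
    [.ref k11 k3 [(z1,[y1,z1]),(z1,[z0,y1,z1])],.contra [z1],.contra [y1,y1,z1],.ref k11 k0 [(z1,[y1,z1]),(z1,[z0,y1,
    z1])],.contra [y1,y1,z1],.ref k8 k1 [(z2,[z1]),(z2,[y1,y2,z2])],.contra [z1],.ref k4 k0 [(z1,[z0,z1]),(z1,[y1,y3,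
    z3])]]),
    .old (.tor k20 false k0 [(z1,[z0,z0,z1]),(z3,[y2,y1,y6,y2,z6]),(z3,[y1,z1,y3,y1,z3]),(z3,[z1,z0,z0,z2]),(z3,[z2,z0,z3,
    z1])]),
    .old (.lp [(nat_lit 3696),(nat_lit 3850),(nat_lit 1848),k0,(nat_lit 2520),(nat_lit 6468)] [(nat_lit 1386),
    (nat_lit 1386),(nat_lit 1309),(nat_lit 1309),(nat_lit 2310),(nat_lit 2310),(nat_lit 3234),(nat_lit 3234),
    (nat_lit 1974),(nat_lit 1974),k0,k0] k0 [[],[],[k0,k0,k0,k0,k0,k0,k0,k0,k0,(nat_lit 924)],[],[],[],[k0,k0,k0,k0,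
    k0,k0,k0,k0,(nat_lit 1320)],[],[k0,k0,k0,(nat_lit 924)],[k0,k0,k0,k0,k0,k0,k0,(nat_lit 1320)]] (nat_lit 9240) k6
    [[(k7,(nat_lit 1848)),(k4,(nat_lit 2772))],[(k6,(nat_lit 1848)),(k5,(nat_lit 2772))],[(k9,(nat_lit 3185)),(k2,
    (nat_lit 3850))],[(k8,(nat_lit 2261)),(k3,(nat_lit 3850))],[(k0,(nat_lit 2772)),(k11,(nat_lit 5082))],[(k1,
    (nat_lit 2772)),(k10,(nat_lit 4158))],[(k1,(nat_lit 1848)),(k10,(nat_lit 3234))],[(k0,(nat_lit 1848)),(k11,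
    (nat_lit 1914))],[(k3,(nat_lit 3185)),(k8,(nat_lit 3840))],[(k2,(nat_lit 2261)),(k9,(nat_lit 3840))],[(k6,
    (nat_lit 1914)),(k5,(nat_lit 5082))],[(k7,(nat_lit 3234)),(k4,(nat_lit 4158))]]
    [] k0
    [[k1,k0,k1,k0,k0,k0],[k1,k0,k0,k1,k0,k0],[k2,k0,k0,k2,k0,k0],[k1,k0,k0,k2,k0,k1],[k0,k2,k0,k0,k0,k0],[k0,k1,k0,k0,
    k1,k0],[k0,k0,k0,k1,k0,k1],[k0,k0,k0,k0,k2,k0]]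
    [.ref k12 k0 [(z1,[z1])],.contra [z3,y1,z4],.contra [z3,y2,z2],.ref k13 k0 [(z1,[y3,z2]),(z1,[z0,z0,z1]),(z1,[z0,
    z0,z0,z1]),(z1,[z3,y1])],.contra [z1],.contra [z3,z1,z2,z3,y3],.ref k12 k1 [(z1,[z1])],.contra [z3,z2,z4,z6,y6]]),
    .old (.lp [(nat_lit 210),k146,k74,k0,k162,(nat_lit 348)] [k69,k69,k101,k101,k137,k137,k174,k174,k93,k93,k0,
    k0] k0 [[k0,k0,k14],[],[k0,k0,k0,k0,k0,k0,k0,k0,k0,k58],[k0,k14],[],[],[k0,k0,k0,k0,k0,k0,k0,k0,k78],[],[k0,k0,k0,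
    k58],[k0,k0,k0,k0,k0,k0,k0,k78]] (nat_lit 480) k6
    [[(k7,k105),(k4,k142)],[(k6,k105),(k5,k128)],[(k9,k154),(k2,k160)],[(k8,k96),(k3,k160)],[(k0,k128),(k11,
    (nat_lit 269))],[(k1,k142),(k10,(nat_lit 211))],[(k1,k105),(k10,k174)],[(k11,k96),(k0,k105)],[(k3,k154),(k8,
    (nat_lit 240))],[(k2,k96),(k9,(nat_lit 240))],[(k6,k96),(k5,(nat_lit 269))],[(k7,k174),(k4,(nat_lit 211))]]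
    [] k0
    [[k1,k0,k1,k0,k0,k0],[k1,k0,k0,k1,k0,k0],[k2,k0,k0,k2,k0,k0],[k0,k2,k0,k0,k0,k0],[k0,k2,k0,k0,k1,k0],[k0,k1,k0,k0,
    k1,k0],[k0,k0,k0,k1,k0,k1]]
    [.ref k12 k0 [(z1,[z1])],.contra [y1,z2,z1],.contra [z1,y2],.contra [z1],.ref k14 k0 [(z1,[y1,z3,z2]),(z1,[z2,z0,
    y1]),(z1,[z0,y1,y1,z1])],.contra [y1,z1,z1],.ref k12 k1 [(z1,[z1])]]),
    .old (.lp [(nat_lit 348),k82,k0,k132,k168,(nat_lit 210)] [k0,k0,k133,k133,k174,k174,k108,k108,k90,k90,k69,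
    k69] k0 [[k0,k0,k78],[],[],[k0,k78],[],[],[k0,k0,k0,k0,k0,k0,k0,k0,k72],[],[],[k0,k0,k0,k0,k0,k0,k0,
    k72]] (nat_lit 480) k6
    [[(k4,k174),(k7,(nat_lit 240))],[(k5,k96),(k6,(nat_lit 240))],[(k9,k125),(k2,k160)],[(k8,k125),(k3,k160)],[(k0,
    k96),(k11,k105)],[(k10,k105),(k1,k174)],[(k10,k171),(k1,(nat_lit 240))],[(k11,k99),(k0,(nat_lit 240))],[(k3,k125),
    (k8,(nat_lit 240))],[(k2,k125),(k9,(nat_lit 240))],[(k6,k99),(k5,k105)],[(k4,k105),(k7,k171)]]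
    [] k0
    [[k1,k0,k1,k0,k0,k0],[k0,k2,k0,k0,k0,k0],[k0,k2,k0,k0,k1,k0],[k0,k1,k0,k0,k1,k0],[k0,k0,k1,k0,k0,k1],[k0,k0,k2,k0,
    k0,k2],[k0,k0,k0,k1,k0,k1]]
    [.ref k12 k0 [(z1,[z1])],.contra [z1],.ref k15 k2 [(z1,[y1,y1,z1]),(z1,[z1])],.contra [y1,y1,z1],.contra [y1,y1,
    z1],.ref k7 k3 [(z2,[z1]),(z2,[y1,y2,z2])],.ref k12 k1 [(z1,[z1])]]),
    .old (.lp [k6,k4,k0,k0,k6,k6] [k0,k0,k1,k1,k3,k3,k3,k3,k0,k0,k0,k0] k0 [] k12 k5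
    [[(k4,k3),(k7,k3)],[(k5,k3),(k6,k3)],[(k2,k4),(k9,k5)],[(k3,k4),(k8,k5)],[(k0,k3),(k11,k3)],[(k1,k3),(k10,k3)],
    [(k1,k3),(k10,k3)],[(k0,k3),(k11,k3)],[(k3,k5),(k8,k6)],[(k2,k5),(k9,k6)],[(k5,k3),(k6,k3)],[(k4,k3),(k7,k3)]]
    [] k0
    [[k1,k0,k1,k0,k0,k0],[k1,k0,k0,k1,k0,k0],[k0,k2,k0,k0,k0,k0],[k0,k1,k0,k0,k1,k0],[k0,k0,k1,k0,k0,k1],[k0,k0,k0,k1,
    k0,k1]]
    [.ref k12 k0 [(z1,[z1])],.ref k16 k0 [(z1,[z1])],.contra [z1],.ref k0 k0 [(z1,[y1,z1])],.ref k16 k3 [(z1,[z1])],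
    .ref k12 k1 [(z1,[z1])]])]⟩

/-- classes `0 0 1 0 0 1`, types `N0 N1 B0 N3 N2 B1` -/
noncomputable def cU6_762 : CertX :=
  ⟨[k12,k13,k24,k15,k14,k25],[(false,k3,[k3,k4,k5,k0,k1,k2]),(false,k0,[k0,k1,k2,k3,k4,k5])],[[[([z1,z0,z1,z0,z1,z0],
    z2)],[([z1,z0,z1,z0,z0,z0],z1),([z0,z3,z0,z0,z0,z0],z2),([z0,z0,z0,z1,z0,z1],z2)],[([z3,z0,z3,z0,z0,z0],z2),([z0,
    z3,z0,z0,z0,z0],z2),([z0,z0,z0,z1,z0,z1],z2)],[([z1,z0,z1,z0,z0,z0],z2),([z0,z3,z0,z3,z0,z3],z4)],[([z1,z0,z1,z0,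
    z0,z0],z1),([z0,z3,z0,z0,z0,z0],z1),([z0,z0,z0,z1,z0,z1],z2)],[([z1,z0,z1,z0,z0,z0],z1),([z0,z2,z0,z0,z0,z0],z1),
    ([z0,z0,z0,z1,z0,z1],z2)],[([z1,z0,z1,z0,z0,z0],z1),([z0,z1,z0,z0,z1,z0],z1)],[([z1,z0,z1,z0,z0,z0],z2)],[]]],
    [.old (.leafM k5 [k1,k2,k3,k4,k5,k0] [(z1,[z1]),(z1,[y1,z1])] []),
    .old (.leafM k11 [k0,k1,k2,k4] [(z1,[z0,z1]),(z1,[y3,y1,y3,z3]),(z1,[z1])] [(k3,k5,z1,[z0,z0,z1]),(k5,k3,z1,[z0,z0,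
    z1])]),
    .old (.leafM k10 [k0,k1,k2,k4] [(z1,[z0,z1]),(z1,[y1,y1,y3,z3]),(z1,[z1])] [(k3,k5,z1,[z0,z0,z1]),(k5,k3,z1,[z0,z0,
    z1])]),
    .old (.lp [(nat_lit 430),k124,k50,k50,k160,k142] [k0,k0,k153,k153,k190,k190,k190,k190,k135,k135,k144,k144] k0 [[k0,k0,
    k0,k0,k0,k0,k0,k0,k0,k155],[],[],[k0,k0,k0,k0,k0,k0,k9],[],[],[],[k0,k0,k9],[k0,k155]] (nat_lit 480) k6
    [[(k4,(nat_lit 240)),(k7,(nat_lit 240))],[(k8,k140),(k5,(nat_lit 240))],[(k2,k124),(k11,(nat_lit 288))],[(k6,k96),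
    (k3,k124)],[(k9,k96),(k0,(nat_lit 240))],[(k10,k96),(k1,(nat_lit 240))],[(k10,k96),(k1,(nat_lit 240))],[(k2,k96),
    (k11,k96)],[(k5,k96),(k8,k160)],[(k0,k140),(k9,k160)],[(k6,k96),(k3,(nat_lit 288))],[(k4,k96),(k7,k96)]]
    [] k0
    [[k1,k0,k1,k0,k1,k0],[k0,k2,k0,k0,k0,k0],[k0,k3,k0,k0,k0,k0],[k0,k0,k0,k1,k0,k1],[k0,k0,k0,k2,k0,k2],[k0,k0,k0,k0,
    k2,k0]]
    [.contra [y1,y2,y1,z3],.contra [z1],.ref k2 k0 [(z1,[y1,z0,z1]),(z1,[z0,y3,y1,z3]),(z1,[z0,z1])],.contra [y3,z1,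
    z1],.ref k1 k0 [(z2,[z1]),(z1,[z0,y3,y1,z3]),(z1,[z0,z1])],.contra [z1]]),
    .old (.leafM k11 [k2,k4,k0,k1] [(z1,[y3,y1,y3,z3]),(z1,[z0,z1]),(z1,[z1])] [(k3,k5,z1,[z0,z0,z1]),(k5,k3,z1,[z0,z0,
    z1])]),
    .old (.leafM k12 [k0,k1,k2,k4] [(z1,[z0,z1]),(z1,[y2,y1,y2,z2]),(z1,[z1])] [(k3,k5,z1,[z0,z0,z1]),(k5,k3,z1,[z0,z0,
    z1])]),
    .old (.lp [k114,k60,k6,k76,k50,k164] [k25,k25,k52,k52,k79,k79,k44,k44,k57,k57,k0,k0] k0 [[],[],[k0,k0,k0,k0,k0,k0,k0,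
    k20],[],[],[],[k0,k0,k0,k20]] (nat_lit 240) k6
    [[(k4,k60),(k7,k95)],[(k5,k60),(k8,k82)],[(k2,k60),(k11,k112)],[(k6,k48),(k3,k60)],[(k9,k48),(k0,k60)],[(k1,k60),
    (k10,k85)],[(k1,k95),(k10,k120)],[(k2,k48),(k11,k120)],[(k5,k48),(k8,k50)],[(k9,k50),(k0,k82)],[(k3,k112),(k6,
    k120)],[(k4,k85),(k7,k120)]]
    [] k0
    [[k1,k0,k1,k0,k0,k0],[k1,k0,k1,k0,k1,k0],[k0,k2,k0,k0,k0,k0],[k0,k3,k0,k0,k0,k0],[k0,k0,k0,k0,k2,k0],[k0,k0,k0,k0,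
    k3,k0],[k0,k0,k0,k0,k4,k0]]
    [.contra [y1,z2],.contra [z1,y1],.contra [z1],.ref k3 k0 [(z1,[z0,y1,y1,z1]),(z1,[y1,z3,z3])],.contra [z1],
    .ref k4 k1 [(z1,[z0,z1]),(z1,[y1,z0,z3]),(z1,[z0,y1,y1,z1])],.ref k5 k1 [(z1,[z0,z1]),(z2,[y1,z0,z4]),(z1,[z0,y1,
    y1,z1])]]),
    .old (.lp [(nat_lit 204),k82,k36,k14,k60,k82] [k0,k0,k61,k61,k84,k84,k95,k95,k72,k72,k61,k61] k0 [[k0,k0,k0,k0,k0,k0,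
    k0,k0,k0,k62],[],[],[],[],[],[],[],[k0,k62]] (nat_lit 240) k6
    [[(k7,k109),(k4,k120)],[(k8,k70),(k5,k120)],[(k2,k82),(k11,k144)],[(k6,k48),(k3,k82)],[(k9,k48),(k0,k120)],[(k10,
    k59),(k1,k120)],[(k10,k48),(k1,k109)],[(k2,k48),(k11,k48)],[(k5,k48),(k8,k60)],[(k9,k60),(k0,k70)],[(k6,k48),(k3,
    k144)],[(k7,k48),(k4,k59)]]
    [] k0
    [[k1,k0,k1,k0,k1,k0],[k0,k2,k0,k0,k0,k0],[k0,k0,k0,k1,k0,k1],[k0,k0,k0,k2,k0,k2],[k0,k0,k0,k0,k2,k0],[k0,k0,k0,k0,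
    k3,k0]]
    [.contra [z1,y1],.contra [z1],.contra [y1,y1,z1],.ref k6 k0 [(z2,[z1]),(z2,[y1,y2,z2])],.contra [z1],
    .ref k3 k1 [(z1,[z0,z1]),(z1,[y1,y3,z3])]]),
    .old (.lp [k120,k110,k22,k22,k132,k120] [k6,k6,k11,k11,k55,k55,k55,k55,k0,k0,k6,k6] k0 [[k0,k0,k0,k0,k0,k0,k0,k0,k0,
    k22],[],[],[],[],[],[],[],[k0,k22]] (nat_lit 264) k5
    [[(k4,k71),(k7,k71)],[(k5,k71),(k8,k104)],[(k2,k110),(k11,k137)],[(k6,k66),(k3,k110)],[(k0,k71),(k9,k77)],[(k1,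
    k71),(k10,k71)],[(k1,k71),(k10,k71)],[(k2,k66),(k11,k71)],[(k5,k77),(k8,k132)],[(k0,k104),(k9,k132)],[(k6,k71),
    (k3,k137)],[(k4,k71),(k7,k71)]]
    [] k0
    [[k1,k0,k1,k0,k0,k0],[k1,k0,k1,k0,k1,k0],[k0,k2,k0,k0,k0,k0],[k0,k0,k0,k1,k0,k1]]
    [.ref k7 k1 [(z1,[z1])],.ref k0 k1 [(z1,[z1])],.contra [z1],.ref k7 k0 [(z1,[z1])]])]⟩

/-- classes `0 0 1 0 0 1`, types `N0 N1 C0 N0 N1 C0` -/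
noncomputable def cU6_763 : CertX :=
  ⟨[k12,k13,k20,k12,k13,k20],[(false,k3,[k3,k4,k5,k0,k1,k2]),(false,k0,[k0,k1,k2,k3,k4,k5]),(true,k2,[k2,k1,k0,k5,k4,
    k3]),(true,k5,[k5,k4,k3,k2,k1,k0])],[[[([z1,z0,z1,z1,z0,z1],z2)],[([z1,z0,z1,z0,z0,z0],z1),([z0,z3,z0,z0,z0,z0],
    z1),([z0,z0,z0,z1,z0,z1],z2)],[([z1,z0,z1,z0,z0,z0],z1),([z0,z2,z0,z0,z0,z0],z1),([z0,z0,z0,z1,z0,z1],z2)],[([z1,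
    z0,z0,z0,z0,z1],z1),([z0,z1,z0,z0,z1,z0],z1)],[([z1,z0,z1,z0,z0,z0],z1),([z0,z3,z0,z0,z0,z0],z2),([z0,z0,z0,z1,z0,
    z1],z2)],[([z1,z0,z1,z0,z0,z0],z1),([z0,z1,z0,z0,z1,z0],z1)],[([z3,z0,z3,z0,z0,z0],z2),([z0,z3,z0,z0,z0,z0],z2),
    ([z0,z0,z0,z1,z0,z1],z2)],[([z1,z0,z0,z0,y1,z1],z0),([z0,z1,z0,z0,z2,z0],z2),([z0,z0,z1,z0,z1,y1],z2)],[([z1,z0,
    z0,z0,y1,z1],z0),([z0,z1,z0,z0,z2,z0],z2),([z0,z0,z1,z0,z0,y1],z0)],[([z1,z0,z0,z0,z0,z1],z2),([z0,z3,z0,z0,z0,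
    z0],z2),([z0,z0,z1,z0,z0,y1],z0)],[([z1,z0,z0,y1,z0,z0],z0),([z0,z1,z0,z1,z1,z1],z2)],[([z1,z0,z1,z0,z0,z0],z2),
    ([z0,z3,z0,z0,z0,z0],z2)]],[[([z1,z0,z1,z0,z0,z0],z2)],[([z3,z0,z0,z0,z0,z3],z2),([z0,z3,z0,z0,z0,z0],z2),([z0,z0,
    z3,z0,z0,y3],z2),([z0,z0,z0,z3,z0,z3],z4)],[([z1,z0,z0,z0,y1,z1],z0),([z0,z1,z0,z0,z2,z0],z2),([z0,z0,z1,z0,z2,
    y1],z2)],[([z1,z0,z0,z0,y1,z1],z0),([z0,z1,z0,z0,z2,z0],z2)],[([z1,z0,z0,z0,z0,z1],z2)],[]]],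
    [.old (.leafM k5 [k0,k2,k3,k5] [] [(k1,k4,z1,[y1,z1]),(k4,k1,z1,[y1,z1])]),
    .old (.leafM k11 [k2,k4,k0,k1] [(z1,[y3,y1,y3,z3]),(z1,[z0,z1]),(z1,[z1])] [(k3,k5,z1,[z0,z0,z1]),(k5,k3,z1,[z0,z0,
    z1])]),
    .old (.leafM k12 [k0,k1,k2,k4] [(z1,[z0,z1]),(z1,[y2,y1,y2,z2]),(z1,[z1])] [(k3,k5,z1,[z0,z0,z1]),(k5,k3,z1,[z0,z0,
    z1])]),
    .old (.leafM k4 [k0,k1,k4,k5] [(z1,[z0,z1])] [(k2,k3,z1,[y1,y1,z1]),(k3,k2,z1,[y1,y1,z1])]),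
    .old (.leafM k11 [k0,k1,k2,k4] [(z1,[z0,z1]),(z1,[y3,y1,y3,z3]),(z1,[z1])] [(k3,k5,z1,[z0,z0,z1]),(k5,k3,z1,[z0,z0,
    z1])]),
    .old (.lp [k0,k60,k120,k16,k50,(nat_lit 224)] [k112,k112,k82,k82,k52,k52,k104,k104,k87,k87,k0,k0] k0 [[k0,k0,k0,k0,k0,
    k0,k0,k0,k64],[],[],[k0,k0,k0,k0,k0,k0,k0,k16],[],[],[k0,k0,k16],[],[],[k0,k64]] (nat_lit 240) k6
    [[(k4,k60),(k10,k112)],[(k11,k48),(k5,k60)],[(k2,k60),(k8,k119)],[(k3,k60),(k9,k71)],[(k6,k52),(k0,k60)],[(k1,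
    k60),(k7,k68)],[(k4,k68),(k10,k120)],[(k5,k52),(k11,k120)],[(k8,k50),(k2,k71)],[(k9,k50),(k3,k119)],[(k0,k48),(k6,
    k120)],[(k1,k112),(k7,k120)]]
    [] k0
    [[k1,k0,k1,k0,k0,k0],[k1,k0,k0,k0,k0,k1],[k0,k2,k0,k0,k0,k0],[k0,k3,k0,k0,k0,k0],[k0,k1,k0,k0,k1,k0],[k0,k0,k1,k1,
    k0,k0],[k0,k0,k0,k0,k2,k0],[k0,k0,k0,k0,k3,k0],[k0,k0,k0,k0,k4,k0]]
    [.contra [y1,z2],.ref k3 k0 [(z1,[y1,z0,y1,z1]),(z1,[z0,z0,z1])],.contra [z1],.ref k4 k1 [(z1,[z0,z1]),(z1,[z1]),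
    (z1,[z0,y1,y1,z1])],.contra [y1,z1,z1],.ref k3 k1 [(z1,[y1,z0,y1,z1]),(z1,[z0,z0,z1])],.contra [z1],
    .ref k1 k1 [(z1,[z0,z1]),(z1,[y1,z0,z3]),(z1,[z0,y1,y1,z1])],.ref k2 k1 [(z1,[z0,z1]),(z2,[y1,z0,z4]),(z1,[z0,y1,
    y1,z1])]]),
    .old (.leafM k10 [k0,k1,k2,k4] [(z1,[z0,z1]),(z1,[y1,y1,y3,z3]),(z1,[z1])] [(k3,k5,z1,[z0,z0,z1]),(k5,k3,z1,[z0,z0,
    z1])]),
    .old (.lp [k0,k12,k48,k0,k18,k16] [k24,k24,k18,k18,k0,k0,k24,k24,k15,k15,k16,k16] k0 [] k48 k7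
    [[(k10,k8),(k4,k24)],[(k11,k8),(k5,k24)],[(k2,k12),(k8,k15)],[(k3,k12),(k9,k15)],[(k0,k24),(k6,k24)],[(k1,k24),
    (k7,k24)],[(k10,k8),(k4,k24)],[(k11,k8),(k5,k24)],[(k2,k15),(k8,k18)],[(k3,k15),(k9,k18)],[(k0,k8),(k6,k8)],[(k1,
    k8),(k7,k8)]]
    [] k0
    [[k1,k0,k0,k0,k0,k1],[k2,k0,k0,k0,k0,k2],[k1,k0,k0,k1,k0,k2],[k0,k2,k0,k0,k0,k0],[k0,k3,k0,k0,k0,k0],[k0,k2,k0,k0,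
    k1,k0],[k0,k1,k0,k0,k1,k0],[k0,k0,k0,k1,k0,k1],[k0,k0,k0,k2,k0,k2],[k0,k0,k0,k0,k2,k0]]
    [.contra [y2,z3,z1,z1],.contra [z1,y2],.contra [z1,z0,z1,z1,y1],.contra [z1],.ref k6 k0 [(z2,[y1,y6,y3,y6,z6]),
    (z2,[y1,z0,z3]),(z1,[z0,z1,z0,z1])],.ref k6 k0 [(z1,[y1,y3,y1,y3,z3]),(z1,[y1,z0,z2]),(z1,[z0,z1,z0,z1])],
    .contra [y1,z0,z1],.contra [y2,y1,y1,y1,z2],.contra [z1,z2,z2,z2,y2],.contra [z1]]),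
    .old (.lp [k0,k12,k16,k32,k18,k16] [k16,k16,k10,k10,k8,k8,k0,k0,k7,k7,k8,k8] k0 [] k48 k7
    [[(k4,k8),(k10,k8)],[(k5,k8),(k11,k8)],[(k2,k12),(k8,k15)],[(k3,k12),(k9,k15)],[(k0,k8),(k6,k24)],[(k1,k8),(k7,
    k24)],[(k4,k24),(k10,k24)],[(k5,k24),(k11,k24)],[(k2,k15),(k8,k18)],[(k3,k15),(k9,k18)],[(k0,k8),(k6,k24)],[(k1,
    k8),(k7,k24)]]
    [] k0
    [[k1,k0,k1,k0,k0,k0],[k2,k0,k2,k0,k0,k0],[k2,k0,k1,k0,k0,k1],[k1,k0,k0,k0,k0,k1],[k2,k0,k0,k0,k0,k2],[k0,k2,k0,k0,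
    k0,k0],[k0,k3,k0,k0,k0,k0],[k0,k2,k0,k0,k1,k0],[k0,k1,k0,k0,k1,k0],[k0,k0,k0,k0,k2,k0]]
    [.contra [y1,z2,z1,z2],.contra [z1,y2,z0,y2],.contra [z1,y2,z0,y1],.contra [y1,z2,z1,z1],.contra [z1,y2],
    .contra [z1],.ref k6 k1 [(z2,[y1,z6,z3,z6]),(z1,[z1]),(z1,[z0,y1,y1,y1,z1])],.ref k6 k1 [(z1,[y1,z3,z2,z3]),(z1,
    [z2,z0,y1]),(z1,[z0,y1,y1,y1,z1])],.contra [y1,z1,z1,z1],.contra [z1]]),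
    .old (.lp [k72,k40,k48,k0,k30,k48] [k0,k0,k16,k16,k12,k12,k36,k36,k21,k21,k12,k12] k0 [] k120 k6
    [[(k4,k60),(k10,k60)],[(k5,k60),(k11,k60)],[(k8,k35),(k2,k40)],[(k9,k35),(k3,k40)],[(k6,k24),(k0,k60)],[(k7,k24),
    (k1,k60)],[(k4,k24),(k10,k24)],[(k5,k24),(k11,k24)],[(k8,k30),(k2,k35)],[(k9,k30),(k3,k35)],[(k6,k24),(k0,k60)],
    [(k7,k24),(k1,k60)]]
    [] k0
    [[k0,k2,k0,k0,k0,k0],[k0,k2,k0,k0,k1,k0],[k0,k1,k0,k0,k1,k0],[k0,k1,k0,k0,k2,k0],[k0,k0,k1,k1,k0,k0],[k0,k0,k2,k2,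
    k0,k0],[k0,k0,k1,k2,k0,k1],[k0,k0,k0,k1,k0,k1],[k0,k0,k0,k2,k0,k2],[k0,k0,k0,k0,k2,k0],[k0,k0,k0,k0,k3,k0]]
    [.contra [z1],.ref k6 k0 [(z1,[y3,y3,z1,y3,z3]),(z1,[z3,z0,y2]),(z1,[z0,z1,z0,z1])],.contra [y1,y1,z0,z0,z1],
    .ref k6 k0 [(z2,[y3,y6,y1,y6,z6]),(z2,[z3,z0,y1]),(z1,[z0,z1,z0,z1])],.contra [y1,y1,z0,z0,z1],.ref k3 k0 [(z2,
    [z1]),(z2,[y1,y2,z0,z0,z2])],.ref k3 k0 [(z2,[z1,z0,z0,z1]),(z2,[y1,y2,z0,y1,z2])],.contra [y1,y1,z0,y1,z1],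
    .ref k3 k0 [(z2,[z1,z0,z0,z2]),(z2,[y1,y2,z0,y2,z2])],.contra [z1],.ref k6 k0 [(z1,[y1,y3,y1,y3,z3]),(z1,[z1]),
    (z1,[z0,z1,z0,z1])]]),
    .old (.lp [k44,k78,(nat_lit 480),k0,k158,k196] [(nat_lit 218),(nat_lit 218),(nat_lit 201),(nat_lit 201),k0,k0,
    (nat_lit 240),(nat_lit 240),k161,k161,k142,k142] k0 [[k0,k0,k44],[],[],[k0,k44],[],[],[k0,k0,k0,k0,k0,k0,k0,k0,
    k2],[],[],[k0,k0,k0,k0,k0,k0,k0,k2]] (nat_lit 480) k6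
    [[(k10,k120),(k4,(nat_lit 262))],[(k11,k120),(k5,(nat_lit 218))],[(k8,k118),(k2,k122)],[(k9,k118),(k3,k122)],[(k0,
    (nat_lit 218)),(k6,(nat_lit 240))],[(k7,(nat_lit 240)),(k1,(nat_lit 262))],[(k10,k98),(k4,(nat_lit 240))],[(k11,
    k96),(k5,(nat_lit 240))],[(k2,k118),(k8,k160)],[(k3,k118),(k9,k160)],[(k6,k96),(k0,k120)],[(k7,k98),(k1,k120)]]
    [] k0
    [[k1,k0,k0,k0,k0,k1],[k1,k0,k0,k1,k0,k2],[k0,k2,k0,k0,k0,k0],[k0,k3,k0,k0,k0,k0],[k0,k2,k0,k0,k1,k0],[k0,k1,k0,k0,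
    k1,k0],[k0,k2,k0,k0,k2,k0],[k0,k1,k0,k0,k2,k0],[k0,k0,k0,k1,k0,k1],[k0,k0,k0,k2,k0,k2],[k0,k0,k0,k0,k2,k0]]
    [.contra [y1,z1,z1],.ref k3 k1 [(z2,[z1,z1]),(z2,[y1,z1,z2])],.contra [z1],.ref k9 k2 [(z1,[z0,y1,y1,z1]),(z1,
    [z1]),(z1,[z0,z1])],.ref k8 k3 [(z1,[y1,z1,z1]),(z1,[z1]),(z1,[z0,y1])],.contra [y1,z1,z1],.ref k3 k1 [(z2,[y1,z2,
    z2]),(z2,[z1])],.ref k7 k1 [(z1,[y1,z1,z1]),(z1,[z1]),(z1,[z1,y1,y2,z1])],.contra [y1,z0,z1],.ref k3 k1 [(z2,[z1,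
    z2]),(z2,[y1,z0,z2])],.contra [z1]]),
    .old (.lp [(nat_lit 966),(nat_lit 920),(nat_lit 1794),k0,(nat_lit 720),(nat_lit 1104)] [(nat_lit 414),(nat_lit 414),
    (nat_lit 437),(nat_lit 437),k0,k0,(nat_lit 897),(nat_lit 897),(nat_lit 537),(nat_lit 537),(nat_lit 345),
    (nat_lit 345)] k0 [[k0,k0,k0,k0,k0,k0,k0,k0,(nat_lit 414)],[],[],[],[],[],[],[],[],[k0,
    (nat_lit 414)]] (nat_lit 2760) k6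
    [[(k10,(nat_lit 1035)),(k4,(nat_lit 1380))],[(k11,(nat_lit 621)),(k5,(nat_lit 1380))],[(k2,(nat_lit 920)),(k8,
    (nat_lit 1234))],[(k9,(nat_lit 820)),(k3,(nat_lit 920))],[(k6,(nat_lit 897)),(k0,(nat_lit 1380))],[(k7,
    (nat_lit 897)),(k1,(nat_lit 1380))],[(k10,(nat_lit 552)),(k4,(nat_lit 897))],[(k11,(nat_lit 552)),(k5,
    (nat_lit 897))],[(k8,(nat_lit 720)),(k2,(nat_lit 820))],[(k9,(nat_lit 720)),(k3,(nat_lit 1234))],[(k6,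
    (nat_lit 552)),(k0,(nat_lit 621))],[(k7,(nat_lit 552)),(k1,(nat_lit 1035))]]
    [] k0
    [[k1,k0,k0,k0,k0,k1],[k0,k2,k0,k0,k0,k0],[k0,k1,k0,k0,k1,k0],[k0,k0,k1,k1,k0,k0],[k0,k0,k0,k1,k0,k1],[k0,k0,k0,k2,
    k0,k2],[k0,k0,k0,k0,k2,k0],[k0,k0,k0,k0,k3,k0]]
    [.ref k10 k2 [(z1,[y1,z1]),(z1,[z0,y1,z0,z1])],.contra [z1],.contra [y1,y1,z0,z1],.ref k10 k1 [(z1,[y1,z1]),(z1,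
    [z0,y1,z0,z1])],.contra [y1,y1,z0,z1],.ref k5 k0 [(z2,[z1]),(z2,[y1,y2,z0,z2])],.contra [z1],.ref k6 k0 [(z1,[y1,
    y3,y1,z3]),(z1,[z1]),(z1,[z0,z1])]]),
    .old (.lp [(nat_lit 966),(nat_lit 720),(nat_lit 1794),k0,(nat_lit 920),(nat_lit 1104)] [(nat_lit 414),(nat_lit 414),
    (nat_lit 537),(nat_lit 537),k0,k0,(nat_lit 897),(nat_lit 897),(nat_lit 437),(nat_lit 437),(nat_lit 345),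
    (nat_lit 345)] k0 [[k0,k0,k0,k0,k0,k0,k0,k0,(nat_lit 414)],[],[],[],[],[],[],[],[],[k0,
    (nat_lit 414)]] (nat_lit 2760) k6
    [[(k10,(nat_lit 1035)),(k4,(nat_lit 1380))],[(k11,(nat_lit 621)),(k5,(nat_lit 1380))],[(k2,(nat_lit 720)),(k8,
    (nat_lit 1234))],[(k3,(nat_lit 720)),(k9,(nat_lit 820))],[(k6,(nat_lit 897)),(k0,(nat_lit 1380))],[(k7,
    (nat_lit 897)),(k1,(nat_lit 1380))],[(k10,(nat_lit 552)),(k4,(nat_lit 897))],[(k11,(nat_lit 552)),(k5,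
    (nat_lit 897))],[(k2,(nat_lit 820)),(k8,(nat_lit 920))],[(k9,(nat_lit 920)),(k3,(nat_lit 1234))],[(k6,
    (nat_lit 552)),(k0,(nat_lit 621))],[(k7,(nat_lit 552)),(k1,(nat_lit 1035))]]
    [] k0
    [[k1,k0,k0,k0,k0,k1],[k0,k2,k0,k0,k0,k0],[k0,k3,k0,k0,k0,k0],[k0,k1,k0,k0,k1,k0],[k0,k0,k1,k1,k0,k0],[k0,k0,k0,k1,
    k0,k1],[k0,k0,k0,k2,k0,k2],[k0,k0,k0,k0,k2,k0]]
    [.ref k10 k2 [(z1,[y1,z1]),(z1,[z0,y1,z1])],.contra [z1],.ref k11 k1 [(z1,[z0,z1]),(z1,[z1])],.contra [y1,y1,z1],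
    .ref k10 k1 [(z1,[y1,z1]),(z1,[z0,y1,z1])],.contra [y1,y1,z1],.ref k5 k0 [(z2,[z1]),(z2,[y1,y2,z2])],
    .contra [z1]]),
    .old (.tor k19 false k0 [(z3,[z0,z0,z1,z1]),(z3,[y2,y1,y2,y2,z6]),(z3,[y1,z1,y1,y1,z3]),(z3,[z1,z0,z0,z1]),(z3,[z2,z0,
    z1])]),
    .old (.lp [k0,(nat_lit 612),(nat_lit 1462),(nat_lit 204),(nat_lit 952),(nat_lit 816)] [(nat_lit 851),(nat_lit 851),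
    (nat_lit 545),(nat_lit 545),(nat_lit 240),k0,(nat_lit 749),(nat_lit 749),(nat_lit 375),(nat_lit 375),
    (nat_lit 443),(nat_lit 443)] k0 [[k0,k0,(nat_lit 442)],[k0,k0,k0,k0,k0,k0,k0,k0,k0,(nat_lit 204)],[k0,k0,k0,k0,k0,
    k0,(nat_lit 374)],[k0,(nat_lit 442)],[],[],[k0,k0,k0,k0,k0,k0,k0,k0,k102],[k0,k0,k0,(nat_lit 374)],
    [(nat_lit 204)],[k0,k0,k0,k0,k0,k0,k0,k102]] (nat_lit 2040) k6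
    [[(k10,(nat_lit 408)),(k4,(nat_lit 611))],[(k5,(nat_lit 409)),(k11,(nat_lit 612))],[(k8,(nat_lit 578)),(k2,
    (nat_lit 1054))],[(k9,(nat_lit 408)),(k3,(nat_lit 1054))],[(k0,(nat_lit 409)),(k6,(nat_lit 1327))],[(k1,
    (nat_lit 611)),(k7,(nat_lit 713))],[(k10,(nat_lit 510)),(k4,(nat_lit 713))],[(k11,(nat_lit 408)),(k5,
    (nat_lit 1327))],[(k2,(nat_lit 408)),(k8,(nat_lit 1054))],[(k3,(nat_lit 578)),(k9,(nat_lit 1054))],[(k6,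
    (nat_lit 408)),(k0,(nat_lit 612))],[(k1,(nat_lit 408)),(k7,(nat_lit 510))]]
    [] k0
    [[k1,k0,k1,k0,k0,k0],[k1,k0,k0,k0,k0,k1],[k1,k0,k1,k1,k0,k1],[k1,k0,k0,k1,k0,k2],[k0,k1,k0,k0,k1,k0],[k0,k2,k0,k0,
    k2,k0],[k0,k0,k0,k1,k0,k1],[k0,k0,k0,k2,k0,k2]]
    [.contra [y1,z1,z0,z1],.contra [y1,z2,z0,z1],.contra [z1,z0,z1,z0,y1],.ref k13 k1 [(z1,[z1,z3,z1,z1,y1]),(z1,[y2,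
    z0,z1,y2,z2]),(z1,[y2,z0,y2,z1,z2]),(z1,[z2,y3,y1,y1,z1])],.contra [y1,z0,z1],.contra [y1,z0,z2],.contra [z1,z1,
    z1,z1,y1],.contra [y1,y2,z0,y2,z2]]),
    .old (.lp [k0,k50,k60,k60,k20,k48] [k30,k30,k5,k5,k0,k0,k0,k0,k20,k20,k6,k6] k0 [[],[],[],[],[],[],[k0,k0,k0,k0,k0,k0,
    k0,k0,k30],[],[],[k0,k0,k0,k0,k0,k0,k0,k30]] k120 k6
    [[(k10,k24),(k4,k30)],[(k11,k24),(k5,k30)],[(k8,k35),(k2,k50)],[(k9,k35),(k3,k50)],[(k0,k30),(k6,k60)],[(k1,k30),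
    (k7,k60)],[(k10,k54),(k4,k60)],[(k11,k24),(k5,k60)],[(k2,k35),(k8,k50)],[(k3,k35),(k9,k50)],[(k0,k24),(k6,k24)],
    [(k1,k24),(k7,k54)]]
    [] k0
    [[k1,k0,k1,k0,k0,k0],[k2,k0,k1,k0,k0,k1],[k1,k0,k0,k0,k0,k1],[k2,k0,k0,k0,k0,k2],[k0,k2,k0,k0,k0,k0],[k0,k1,k0,k0,
    k1,k0],[k0,k0,k0,k1,k0,k1],[k0,k0,k0,k0,k2,k0]]
    [.ref k12 k1 [(z1,[z1])],.ref k14 k1 [(z1,[z0,z1]),(z1,[z0,z0,z1]),(z1,[z1,y2])],.contra [y2,z1,z0,z1],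
    .contra [z1,y2],.contra [z1],.contra [y1,z0,z1],.ref k12 k0 [(z1,[z1])],.contra [z1]]),
    .old (.lp [k132,k168,(nat_lit 210),k0,k82,(nat_lit 348)] [k108,k108,k90,k90,k69,k69,k174,k174,k133,k133,k0,
    k0] k0 [[k0,k0,k72],[],[],[k0,k72],[],[],[k0,k0,k0,k0,k0,k0,k0,k0,k78],[],[],[k0,k0,k0,k0,k0,k0,k0,
    k78]] (nat_lit 480) k6
    [[(k4,k171),(k10,(nat_lit 240))],[(k5,k99),(k11,(nat_lit 240))],[(k8,k125),(k2,(nat_lit 240))],[(k9,k125),(k3,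
    (nat_lit 240))],[(k0,k99),(k6,k105)],[(k7,k105),(k1,k171)],[(k4,k105),(k10,k174)],[(k11,k96),(k5,k105)],[(k2,
    k125),(k8,k160)],[(k3,k125),(k9,k160)],[(k6,k96),(k0,(nat_lit 240))],[(k7,k174),(k1,(nat_lit 240))]]
    [] k0
    [[k1,k0,k1,k0,k0,k0],[k0,k1,k0,k0,k1,k0],[k0,k1,k0,k0,k2,k0],[k0,k0,k1,k1,k0,k0],[k0,k0,k2,k2,k0,k0],[k0,k0,k0,k1,
    k0,k1],[k0,k0,k0,k0,k2,k0]]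
    [.ref k12 k1 [(z1,[z1])],.contra [y1,y1,z1],.ref k15 k2 [(z1,[y1,y1,z1]),(z1,[z1])],.contra [y1,y1,z1],
    .ref k3 k0 [(z2,[z1]),(z2,[y1,y2,z2])],.ref k12 k0 [(z1,[z1])],.contra [z1]]),
    .old (.lp [k0,k6,k6,k0,k4,k6] [k3,k3,k0,k0,k0,k0,k3,k3,k1,k1,k0,k0] k0 [] k12 k5
    [[(k4,k3),(k10,k3)],[(k5,k3),(k11,k3)],[(k8,k5),(k2,k6)],[(k9,k5),(k3,k6)],[(k0,k3),(k6,k3)],[(k1,k3),(k7,k3)],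
    [(k4,k3),(k10,k3)],[(k5,k3),(k11,k3)],[(k8,k4),(k2,k5)],[(k9,k4),(k3,k5)],[(k0,k3),(k6,k3)],[(k1,k3),(k7,k3)]]
    [] k0
    [[k1,k0,k1,k0,k0,k0],[k1,k0,k0,k0,k0,k1],[k0,k1,k0,k0,k1,k0],[k0,k0,k1,k1,k0,k0],[k0,k0,k0,k1,k0,k1],[k0,k0,k0,k0,
    k2,k0]]
    [.ref k12 k1 [(z1,[z1])],.ref k16 k1 [(z1,[z1])],.ref k0 k1 [(z1,[y1,z1])],.ref k16 k0 [(z1,[z1])],
    .ref k12 k0 [(z1,[z1])],.contra [z1]])]⟩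

/-- classes `0 0 1 0 0 1`, types `N0 N1 C0 N0 N1 C2` -/
noncomputable def cU6_764 : CertX :=
  ⟨[k12,k13,k20,k12,k13,k22],[(false,k3,[k3,k4,k5,k0,k1,k2]),(false,k0,[k0,k1,k2,k3,k4,k5])],[[[([z1,z0,z1,z1,z0,z1],
    z2)],[([z1,z0,z0,z0,z0,z1],z1),([z0,z1,z0,z0,z1,z0],z1)],[([z1,z0,z0,z0,z0,z1],z2)],[]]],
    [.old (.leafM k6 [k0,k2,k3,k5] [] [(k1,k4,z1,[y1,z1]),(k4,k1,z1,[y1,z1])]),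
    .old (.leafM k4 [k0,k1,k4,k5] [(z1,[z0,z1])] [(k2,k3,z1,[y1,y1,z1]),(k3,k2,z1,[y1,y1,z1])]),
    .old (.lp [k48,k120,k48,k48,k52,k154] [k55,k55,k19,k19,k55,k55,k55,k55,k53,k53,k4,k0] k0 [[],[k0,k0,k0,k0,k0,k0,k0,k0,
    k0,k38],[],[],[],[],[k0,k0,k0,k0,k0,k0,k0,k0,k54],[],[k38],[k0,k0,k0,k0,k0,k0,k0,k54]] (nat_lit 240) k6
    [[(k7,k48),(k10,k99)],[(k5,k48),(k11,k141)],[(k8,k48),(k2,k120)],[(k9,k86),(k3,k120)],[(k0,k48),(k6,k48)],[(k7,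
    k48),(k10,k99)],[(k1,k48),(k4,k48)],[(k5,k48),(k11,k49)],[(k2,k86),(k8,k106)],[(k3,k48),(k9,k106)],[(k6,k49),(k0,
    k141)],[(k1,k99),(k4,k99)]]
    [] k0
    [[k0,k1,k0,k0,k1,k0],[k0,k0,k1,k1,k0,k0],[k0,k0,k2,k2,k0,k0],[k0,k0,k0,k0,k2,k0]]
    [.contra [y1,y1,z1],.contra [y1,y1,z1],.ref k1 k0 [(z2,[z1]),(z2,[y1,y2,z2])],.contra [z1]]),
    .old (.lp [k6,k12,k6,k6,k8,k6] [k3,k3,k0,k0,k3,k3,k3,k3,k2,k2,k3,k3] k0 [] k24 k5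
    [[(k7,k6),(k10,k6)],[(k5,k6),(k11,k6)],[(k8,k10),(k2,k12)],[(k9,k10),(k3,k12)],[(k0,k6),(k6,k6)],[(k7,k6),(k10,
    k6)],[(k1,k6),(k4,k6)],[(k5,k6),(k11,k6)],[(k8,k8),(k2,k10)],[(k9,k8),(k3,k10)],[(k0,k6),(k6,k6)],[(k1,k6),(k4,
    k6)]]
    [] k0
    [[k1,k0,k0,k0,k0,k1],[k0,k1,k0,k0,k1,k0],[k0,k0,k1,k1,k0,k0],[k0,k0,k0,k0,k2,k0]]
    [.ref k2 k1 [(z1,[z1])],.ref k0 k1 [(z1,[y1,z1])],.ref k2 k0 [(z1,[z1])],.contra [z1]])]⟩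

/-- classes `0 0 1 0 0 1`, types `N0 N1 C0 N0 N2 C0` -/
noncomputable def cU6_765 : CertX :=
  ⟨[k12,k13,k20,k12,k14,k20],[(false,k0,[k0,k1,k2,k3,k4,k5])],[[[([z1,z1,z0,z0,z1,z1],z2)],[([z1,z0,z1,z0,z0,z0],z2)],
    []]],
    [.old (.leafM k2 [k1,k4,k5,k0] [] [(k2,k3,z1,[y1,z1]),(k3,k2,z1,[y1,z1])]),
    .old (.lp [k154,k86,k86,k48,k48,k48] [k0,k0,k34,k34,k34,k34,k53,k53,k53,k53,k53,k53] k0 [[k0,k0,k0,k0,k0,k0,k0,k0,k0,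
    k10],[],[],[],[],[],[],[],[k0,k10]] (nat_lit 240) k6
    [[(k10,k101),(k4,k120)],[(k8,k91),(k5,k120)],[(k11,k77),(k2,k86)],[(k9,k67),(k3,k86)],[(k6,k67),(k0,k120)],[(k7,
    k67),(k1,k120)],[(k10,k48),(k4,k67)],[(k8,k48),(k5,k67)],[(k11,k48),(k2,k67)],[(k6,k48),(k0,k91)],[(k9,k48),(k3,
    k77)],[(k7,k48),(k1,k101)]]
    [] k0
    [[k0,k2,k0,k0,k0,k0],[k0,k0,k1,k1,k0,k0],[k0,k0,k0,k1,k1,k1]]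
    [.contra [z1],.ref k0 k0 [(z1,[y1,z0,z1])],.contra [y1,y1,z1]]),
    .old (.lp [k4,k4,k2,k4,k2,k6] [k1,k1,k1,k1,k2,k2,k1,k1,k2,k2,k0,k0] k0 [] k12 k5
    [[(k4,k3),(k10,k5)],[(k5,k3),(k8,k3)],[(k2,k4),(k11,k5)],[(k9,k3),(k3,k4)],[(k0,k3),(k6,k3)],[(k1,k3),(k7,k3)],
    [(k4,k3),(k10,k5)],[(k5,k3),(k8,k3)],[(k2,k3),(k11,k4)],[(k0,k3),(k6,k3)],[(k9,k4),(k3,k5)],[(k1,k5),(k7,k5)]]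
    [] k0
    [[k1,k0,k1,k0,k0,k0],[k0,k2,k0,k0,k0,k0],[k0,k0,k1,k1,k0,k0]]
    [.ref k1 k0 [(z1,[z1])],.contra [z1],.ref k0 k0 [(z1,[y1,z1])]])]⟩

/-- classes `0 0 1 0 0 1`, types `N0 N1 C0 N0 N2 C2` -/
noncomputable def cU6_766 : CertX :=
  ⟨[k12,k13,k20,k12,k14,k22],[(false,k0,[k0,k1,k2,k3,k4,k5])],[[[([z1,z1,z0,z0,z1,z1],z2)],[]]],
    [.old (.leafM k2 [k1,k4,k5,k0] [] [(k2,k3,z1,[y1,z1]),(k3,k2,z1,[y1,z1])]),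
    .old (.lp [k6,k4,k4,k2,k4,k2] [k0,k0,k1,k1,k1,k1,k2,k2,k1,k1,k2,k2] k0 [[k0,k0,k2],[],[],[k0,k2]] k12 k5
    [[(k7,k4),(k10,k4)],[(k5,k3),(k8,k5)],[(k11,k3),(k2,k6)],[(k9,k4),(k3,k6)],[(k0,k3),(k6,k3)],[(k7,k3),(k10,k3)],
    [(k4,k3),(k1,k4)],[(k5,k3),(k8,k3)],[(k11,k3),(k2,k4)],[(k6,k3),(k0,k5)],[(k3,k3),(k9,k3)],[(k4,k3),(k1,k4)]]
    [] k0
    [[k0,k0,k1,k1,k0,k0]]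
    [.ref k0 k0 [(z1,[y1,z1])]])]⟩

/-- classes `0 0 1 0 0 1`, types `N0 N1 C0 N1 N0 C0` -/
noncomputable def cU6_767 : CertX :=
  ⟨[k12,k13,k20,k13,k12,k20],[(false,k0,[k0,k1,k2,k3,k4,k5]),(false,k3,[k3,k4,k5,k0,k1,k2])],[[[([z1,z0,z1,z0,z1,z0],
    z2)],[([z1,z0,z1,z0,z0,z0],z1),([z0,z3,z0,z0,z0,z0],z1),([z0,z0,z0,z1,z0,z1],z2)],[([z1,z0,z1,z0,z0,z0],z1),([z0,
    z3,z0,z0,z0,z0],z2),([z0,z0,z0,z1,z0,z1],z2)],[([z1,z0,z1,z0,z0,z0],z1),([z0,z2,z0,z0,z0,z0],z1),([z0,z0,z0,z1,z0,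
    z1],z2)],[([z1,z0,z1,z0,z0,z0],z1),([z0,z1,z0,z0,z1,z0],z1)],[([z3,z0,z3,z0,z0,z0],z2),([z0,z3,z0,z0,z0,z0],z2),
    ([z0,z0,z0,z1,z0,z1],z2)],[([z1,z0,z1,z0,z0,z0],z2),([z0,z3,z0,z0,z0,z0],z2)],[([z1,z0,z1,z0,z0,z0],z2)],[]]],
    [.old (.leafM k1 [k0,k1,k2,k3,k4,k5] [(z1,[y1,z1]),(z1,[z1])] []),
    .old (.leafM k11 [k2,k4,k0,k1] [(z1,[y3,y1,y3,z3]),(z1,[z0,z1]),(z1,[z1])] [(k3,k5,z1,[z0,z0,z1]),(k5,k3,z1,[z0,z0,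
    z1])]),
    .old (.leafM k11 [k0,k1,k2,k4] [(z1,[z0,z1]),(z1,[y3,y1,y3,z3]),(z1,[z1])] [(k3,k5,z1,[z0,z0,z1]),(k5,k3,z1,[z0,z0,
    z1])]),
    .old (.leafM k12 [k0,k1,k2,k4] [(z1,[z0,z1]),(z1,[y2,y1,y2,z2]),(z1,[z1])] [(k3,k5,z1,[z0,z0,z1]),(k5,k3,z1,[z0,z0,
    z1])]),
    .old (.lp [k36,k48,k86,k48,k60,k192] [k78,k78,k72,k72,k53,k53,k72,k72,k66,k66,k0,k0] k0 [[],[],[k0,k0,k0,k0,k0,k0,k0,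
    k0,k58],[],[],[],[],[],[],[k0,k0,k0,k58]] (nat_lit 240) k6
    [[(k4,k61),(k10,k114)],[(k9,k48),(k5,k61)],[(k2,k48),(k6,k48)],[(k3,k48),(k11,k62)],[(k0,k61),(k8,k131)],[(k1,
    k61),(k7,k67)],[(k4,k67),(k10,k120)],[(k3,k48),(k11,k120)],[(k0,k48),(k8,k60)],[(k9,k60),(k5,k131)],[(k2,k62),(k6,
    k120)],[(k1,k114),(k7,k120)]]
    [] k0
    [[k1,k0,k1,k0,k0,k0],[k0,k2,k0,k0,k0,k0],[k0,k3,k0,k0,k0,k0],[k0,k4,k0,k0,k0,k0],[k0,k1,k0,k1,k0,k1],[k0,k0,k0,k0,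
    k2,k0],[k0,k0,k0,k0,k3,k0]]
    [.contra [y1,z2],.contra [z1],.ref k2 k0 [(z1,[z0,z1]),(z1,[z1]),(z1,[z0,y1,y1,z1])],.ref k3 k0 [(z1,[z0,z1]),(z2,
    [z1]),(z1,[z0,y1,y1,z1])],.contra [y1,y1,z0,z1],.contra [z1],.ref k1 k0 [(z1,[z0,z1]),(z1,[y1,z0,z3]),(z1,[z0,y1,
    y1,z1])]]),
    .old (.leafM k10 [k0,k1,k2,k4] [(z1,[z0,z1]),(z1,[y1,y1,y3,z3]),(z1,[z1])] [(k3,k5,z1,[z0,z0,z1]),(k5,k3,z1,[z0,z0,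
    z1])]),
    .old (.lp [k18,k40,k102,k8,k30,k40] [k42,k42,k31,k31,k0,k0,k47,k47,k36,k36,k31,k31] k0 [] k120 k6
    [[(k10,k29),(k4,k60)],[(k9,k24),(k5,k60)],[(k6,k24),(k2,k40)],[(k3,k40),(k11,k40)],[(k0,k60),(k8,k66)],[(k7,k55),
    (k1,k60)],[(k10,k24),(k4,k55)],[(k3,k24),(k11,k24)],[(k0,k24),(k8,k30)],[(k9,k30),(k5,k66)],[(k6,k24),(k2,k40)],
    [(k7,k24),(k1,k29)]]
    [] k0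
    [[k0,k2,k0,k0,k0,k0],[k0,k1,k0,k1,k0,k1],[k0,k0,k0,k1,k0,k1],[k0,k0,k0,k2,k0,k2],[k0,k0,k0,k0,k2,k0],[k0,k0,k0,k0,
    k3,k0]]
    [.contra [z1],.contra [y1,y1,z0,z1],.contra [y1,y1,z0,z1],.ref k4 k1 [(z2,[z1]),(z2,[y1,y2,z0,z2])],.contra [z1],
    .ref k5 k1 [(z1,[y1,y3,y1,z3]),(z1,[z1]),(z1,[z0,z1])]]),
    .old (.lp [k178,k60,k62,k34,k78,k66] [k0,k0,k59,k59,k58,k58,k72,k72,k50,k50,k56,k56] k0 [[k0,k0,k0,k0,k0,k0,k80],[],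
    [],[],[],[],[k0,k0,k0,k0,k0,k0,k0,k0,k2],[k0,k80],[],[k0,k0,k0,k0,k0,k0,k0,k2]] (nat_lit 240) k6
    [[(k4,k120),(k10,k122)],[(k9,k48),(k5,k120)],[(k2,k60),(k6,k127)],[(k3,k60),(k11,k63)],[(k8,k70),(k0,k120)],[(k7,
    k48),(k1,k120)],[(k4,k48),(k10,k50)],[(k11,k48),(k3,k127)],[(k0,k48),(k8,k80)],[(k5,k70),(k9,k80)],[(k6,k48),(k2,
    k63)],[(k7,k50),(k1,k122)]]
    [] k0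
    [[k1,k0,k1,k0,k1,k0],[k0,k2,k0,k0,k0,k0],[k0,k3,k0,k0,k0,k0],[k0,k0,k0,k1,k0,k1],[k0,k0,k0,k2,k0,k2],[k0,k0,k0,k0,
    k2,k0]]
    [.contra [z1,y1],.contra [z1],.ref k6 k0 [(z1,[z0,z1]),(z1,[z1])],.contra [y1,y1,z1],.ref k4 k1 [(z2,[z1]),(z2,
    [y1,y2,z2])],.contra [z1]]),
    .old (.lp [k8,k22,k22,k2,k16,k22] [k7,k7,k0,k0,k0,k0,k10,k10,k3,k3,k0,k0] k0 [[k0,k0,k2],[],[k0,k0,k0,k0,k0,k0,k0,k0,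
    k2],[k0,k2],[],[],[],[],[],[k0,k0,k0,k2]] k48 k5
    [[(k4,k15),(k10,k15)],[(k9,k12),(k5,k13)],[(k6,k12),(k2,k24)],[(k11,k20),(k3,k24)],[(k0,k13),(k8,k21)],[(k7,k12),
    (k1,k15)],[(k4,k12),(k10,k12)],[(k3,k12),(k11,k12)],[(k0,k12),(k8,k16)],[(k9,k16),(k5,k21)],[(k6,k12),(k2,k20)],
    [(k7,k12),(k1,k15)]]
    [] k0
    [[k1,k0,k1,k0,k0,k0],[k0,k1,k0,k1,k0,k1],[k0,k0,k0,k1,k0,k1],[k0,k0,k0,k0,k2,k0]]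
    [.ref k7 k0 [(z1,[z1])],.ref k0 k0 [(z1,[y1,z1])],.ref k7 k1 [(z1,[z1])],.contra [z1]])]⟩

/-- classes `0 0 1 0 0 1`, types `N0 N1 C0 N1 N0 C2` -/
noncomputable def cU6_768 : CertX :=
  ⟨[k12,k13,k20,k13,k12,k22],[],[[[]]],
    [.old (.lp [k6,k12,k6,k6,k8,k6] [k3,k3,k0,k0,k3,k3,k3,k3,k2,k2,k3,k3] k0 [] k24 k5
    [[(k7,k6),(k10,k6)],[(k5,k6),(k9,k7)],[(k6,k9),(k2,k12)],[(k11,k9),(k3,k12)],[(k0,k6),(k8,k7)],[(k7,k6),(k10,k6)],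
    [(k1,k6),(k4,k6)],[(k11,k6),(k3,k9)],[(k0,k7),(k8,k8)],[(k5,k7),(k9,k8)],[(k6,k6),(k2,k9)],[(k1,k6),(k4,k6)]]
    [] k0
    [[k0,k0,k0,k0,k2,k0]]
    [.contra [z1]])]⟩

/-- the certificates of this file -/
noncomputable def lU6_20 : List CertX :=
  [cU6_722, cU6_723, cU6_724, cU6_725, cU6_726, cU6_727, cU6_728, cU6_729, cU6_730, cU6_731, cU6_732, cU6_733,
      cU6_734, cU6_735, cU6_736, cU6_737, cU6_738, cU6_739, cU6_740, cU6_741, cU6_742, cU6_743, cU6_744,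
      cU6_745, cU6_746, cU6_747, cU6_748, cU6_749, cU6_750, cU6_751, cU6_752, cU6_753, cU6_754, cU6_755,
      cU6_756, cU6_757, cU6_758, cU6_759, cU6_760, cU6_761, cU6_762, cU6_763, cU6_764, cU6_765, cU6_766,
      cU6_767, cU6_768]

theorem gU6_20 : allF (chkE 6 ttU6) lU6_20 = true := by
  decide +kernel

end Pool.Agent.Lib_MP_fa6e45
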