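import Pool.Agent.Lib_MP_fa6e45.CXT
import Pool.Agent.Lib_MP_fa6e45.HK

/-!
MP_fa6e45_co, stage 7: certificates (generated by a program).
-/

namespace Pool.Agent.Lib_MP_fa6e45

/-- classes `0 0 1 0 0 1`, types `N0 N1 C0 N1 N3 C0` -/
noncomputable def cU6_769 : CertX :=
  ⟨[k12,k13,k20,k13,k15,k20],[(false,k0,[k0,k1,k2,k3,k4,k5])],[[[([z1,z0,z1,z0,z0,z0],z2)],[]]],
    [.old (.lp [k58,k86,k182,k58,k48,k38] [k62,k62,k48,k48,k0,k0,k62,k62,k67,k67,k72,k72] k0 [[k0,k0,k0,k0,k0,k0,k5],[],[],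
    [],[],[],[k0,k0,k0,k0,k0,k0,k0,k0,k0,k5],[k0,k5],[k0,k0,k0,k0,k0,k0,k0,k5]] (nat_lit 240) k6
    [[(k10,k48),(k4,k120)],[(k9,k48),(k5,k120)],[(k6,k77),(k2,k86)],[(k8,k67),(k3,k86)],[(k11,k110),(k0,k120)],[(k1,
    k120),(k7,k120)],[(k10,k48),(k4,k120)],[(k8,k48),(k3,k77)],[(k0,k48),(k11,k48)],[(k6,k48),(k2,k67)],[(k9,k48),(k5,
    k110)],[(k1,k48),(k7,k48)]]
    [] k0
    [[k0,k2,k0,k0,k0,k0],[k0,k0,k0,k1,k1,k1]]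
    [.contra [z1],.contra [y1,y1,z1]]),
    .old (.lp [k4,k4,k2,k4,k2,k6] [k1,k1,k1,k1,k2,k2,k1,k1,k2,k2,k0,k0] k0 [] k12 k5
    [[(k4,k3),(k10,k5)],[(k5,k3),(k9,k3)],[(k2,k4),(k6,k4)],[(k8,k3),(k3,k4)],[(k0,k3),(k11,k4)],[(k1,k3),(k7,k3)],
    [(k4,k3),(k10,k5)],[(k8,k3),(k3,k4)],[(k0,k3),(k11,k4)],[(k2,k3),(k6,k3)],[(k5,k4),(k9,k4)],[(k1,k5),(k7,k5)]]
    [] k0
    [[k1,k0,k1,k0,k0,k0],[k0,k2,k0,k0,k0,k0]]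
    [.ref k0 k0 [(z1,[z1])],.contra [z1]])]⟩

/-- classes `0 0 1 0 0 1`, types `N0 N1 C0 N1 N3 C2` -/
noncomputable def cU6_770 : CertX :=
  ⟨[k12,k13,k20,k13,k15,k22],[(false,k0,[k0,k1,k2,k3,k4,k5])],[[[([z1,z1,z0,z1,z1,z0],z2)],[]]],
    [.old (.leafM k6 [k0,k1,k3,k4] [] [(k2,k5,z1,[y1,z1]),(k5,k2,z1,[y1,z1])]),
    .old (.lp [k6,k4,k4,k2,k4,k2] [k0,k0,k1,k1,k1,k1,k2,k2,k1,k1,k2,k2] k0 [[k0,k0,k2],[],[],[k0,k2]] k12 k5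
    [[(k7,k4),(k10,k4)],[(k5,k3),(k9,k5)],[(k6,k3),(k2,k6)],[(k8,k4),(k3,k6)],[(k0,k3),(k11,k3)],[(k7,k3),(k10,k3)],
    [(k4,k3),(k1,k4)],[(k3,k3),(k8,k3)],[(k11,k3),(k0,k5)],[(k6,k3),(k2,k4)],[(k5,k3),(k9,k3)],[(k4,k3),(k1,k4)]]
    [] k0
    [[k0,k0,k1,k0,k0,k1]]
    [.ref k0 k0 [(z1,[y1,z1])]])]⟩

/-- classes `0 0 1 0 0 1`, types `N0 N1 C0 N2 N3 C0` -/
noncomputable def cU6_771 : CertX :=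
  ⟨[k12,k13,k20,k14,k15,k20],[(false,k0,[k0,k1,k2,k3,k4,k5]),(false,k3,[k3,k4,k5,k0,k1,k2])],[[[([z1,z0,z1,z1,z0,z1],
    z2)],[([z1,z0,z1,z0,z0,z0],z1),([z0,z3,z0,z0,z0,z0],z1),([z0,z0,z0,z1,z0,z1],z2)],[([z1,z0,z1,z0,z0,z0],z1),([z0,
    z2,z0,z0,z0,z0],z1),([z0,z0,z0,z1,z0,z1],z2)],[([z1,z0,z1,z0,z0,z0],z1),([z0,z3,z0,z0,z0,z0],z2),([z0,z0,z0,z1,z0,
    z1],z2)],[([z1,z0,z1,z0,z0,z0],z1),([z0,z1,z0,z0,z1,z0],z1)],[([z3,z0,z3,z0,z0,z0],z2),([z0,z3,z0,z0,z0,z0],z2),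
    ([z0,z0,z0,z1,z0,z1],z2)],[([z1,z0,z1,z0,z0,z0],z2),([z0,z3,z0,z0,z0,z0],z2)],[([z1,z0,z1,z0,z0,z0],z2)],[]]],
    [.old (.leafM k2 [k2,k3,k5,k0] [] [(k4,k1,z1,[y1,z1]),(k1,k4,z1,[y1,z1])]),
    .old (.leafM k11 [k2,k4,k0,k1] [(z1,[y3,y1,y3,z3]),(z1,[z0,z1]),(z1,[z1])] [(k3,k5,z1,[z0,z0,z1]),(k5,k3,z1,[z0,z0,
    z1])]),
    .old (.leafM k12 [k0,k1,k2,k4] [(z1,[z0,z1]),(z1,[y2,y1,y2,z2]),(z1,[z1])] [(k3,k5,z1,[z0,z0,z1]),(k5,k3,z1,[z0,z0,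
    z1])]),
    .old (.leafM k11 [k0,k1,k2,k4] [(z1,[z0,z1]),(z1,[y3,y1,y3,z3]),(z1,[z1])] [(k3,k5,z1,[z0,z0,z1]),(k5,k3,z1,[z0,z0,
    z1])]),
    .old (.lp [k86,k86,k10,k86,k116,k86] [k15,k15,k15,k15,k53,k53,k15,k15,k0,k0,k15,k15] k0 [[k0,k0,k0,k0,k0,k0,k0,k38],
    [k0,k0,k0,k24],[k24],[],[],[],[k0,k38],[k0,k0,k0,k0,k0,k0,k0,k0,k0,k68],[k0,k0,k0,k0,k0,k0,k68]] (nat_lit 240) k6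
    [[(k4,k48),(k10,k86)],[(k6,k48),(k5,k72)],[(k2,k62),(k9,k139)],[(k3,k62),(k8,k101)],[(k11,k48),(k0,k72)],[(k1,
    k48),(k7,k48)],[(k4,k48),(k10,k86)],[(k0,k48),(k11,k154)],[(k8,k48),(k3,k139)],[(k9,k48),(k2,k101)],[(k5,k48),(k6,
    k154)],[(k1,k86),(k7,k86)]]
    [] k0
    [[k1,k0,k1,k0,k0,k0],[k1,k0,k1,k1,k0,k1],[k0,k2,k0,k0,k0,k0],[k0,k3,k0,k0,k0,k0],[k0,k0,k0,k0,k2,k0],[k0,k0,k0,k0,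
    k3,k0],[k0,k0,k0,k0,k4,k0]]
    [.contra [y1,z2],.contra [z1,z1,z1,y1],.contra [z1],.ref k3 k0 [(z1,[z0,z1]),(z1,[z1]),(z1,[z0,y1,y1,z1])],
    .contra [z1],.ref k1 k0 [(z1,[z0,z1]),(z1,[y1,z0,z3]),(z1,[z0,y1,y1,z1])],.ref k2 k0 [(z1,[z0,z1]),(z2,[y1,z0,
    z4]),(z1,[z0,y1,y1,z1])]]),
    .old (.leafM k10 [k0,k1,k2,k4] [(z1,[z0,z1]),(z1,[y1,y1,y3,z3]),(z1,[z1])] [(k3,k5,z1,[z0,z0,z1]),(k5,k3,z1,[z0,z0,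
    z1])]),
    .old (.lp [k140,k134,k48,k48,k60,k48] [k0,k0,k3,k3,k46,k46,k46,k46,k40,k40,k46,k46] k0 [[k0,k0,k0,k0,k0,k0,k0,k46],
    [k0,k0,k0,k52],[k52],[],[],[],[k0,k46]] (nat_lit 240) k6
    [[(k4,k94),(k10,k94)],[(k6,k48),(k5,k146)],[(k2,k82),(k9,k143)],[(k3,k82),(k8,k97)],[(k11,k48),(k0,k146)],[(k7,
    k48),(k1,k94)],[(k4,k48),(k10,k48)],[(k0,k48),(k11,k48)],[(k8,k60),(k3,k143)],[(k9,k60),(k2,k97)],[(k5,k48),(k6,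
    k48)],[(k7,k48),(k1,k94)]]
    [] k0
    [[k1,k0,k1,k1,k0,k1],[k0,k2,k0,k0,k0,k0],[k0,k0,k0,k1,k0,k1],[k0,k0,k0,k2,k0,k2],[k0,k0,k0,k0,k2,k0],[k0,k0,k0,k0,
    k3,k0]]
    [.contra [z1,y1],.contra [z1],.contra [y1,y1,z0,z1],.ref k4 k1 [(z2,[z1]),(z2,[y1,y2,z0,z2])],.contra [z1],
    .ref k5 k1 [(z1,[y1,y3,y1,z3]),(z1,[z1]),(z1,[z0,z1])]]),
    .old (.lp [(nat_lit 1794),(nat_lit 720),(nat_lit 966),k138,(nat_lit 920),(nat_lit 966)] [k0,k0,(nat_lit 537),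
    (nat_lit 537),(nat_lit 414),(nat_lit 414),(nat_lit 828),(nat_lit 828),(nat_lit 437),(nat_lit 437),(nat_lit 414),
    (nat_lit 414)] k0 [[k0,k0,k0,k0,k0,k0,k0,(nat_lit 414)],[],[],[],[],[],[k0,(nat_lit 414)]] (nat_lit 2760) k6
    [[(k4,(nat_lit 1380)),(k10,(nat_lit 1380))],[(k6,(nat_lit 552)),(k5,(nat_lit 1380))],[(k2,(nat_lit 720)),(k9,
    (nat_lit 1234))],[(k3,(nat_lit 720)),(k8,(nat_lit 820))],[(k11,(nat_lit 966)),(k0,(nat_lit 1380))],[(k7,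
    (nat_lit 552)),(k1,(nat_lit 1380))],[(k4,(nat_lit 552)),(k10,(nat_lit 552))],[(k0,(nat_lit 552)),(k11,
    (nat_lit 552))],[(k8,(nat_lit 920)),(k3,(nat_lit 1234))],[(k2,(nat_lit 820)),(k9,(nat_lit 920))],[(k6,
    (nat_lit 552)),(k5,(nat_lit 966))],[(k7,(nat_lit 552)),(k1,(nat_lit 1380))]]
    [] k0
    [[k0,k2,k0,k0,k0,k0],[k0,k3,k0,k0,k0,k0],[k0,k1,k0,k0,k1,k0],[k0,k0,k0,k1,k0,k1],[k0,k0,k0,k2,k0,k2],[k0,k0,k0,k0,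
    k2,k0]]
    [.contra [z1],.ref k6 k0 [(z1,[z0,z1]),(z1,[z1])],.contra [y1,y1,z1],.contra [y1,y1,z1],.ref k4 k1 [(z2,[z1]),(z2,
    [y1,y2,z2])],.contra [z1]]),
    .old (.lp [k6,k12,k6,k6,k8,k6] [k3,k3,k0,k0,k3,k3,k3,k3,k2,k2,k3,k3] k0 [] k24 k5
    [[(k4,k6),(k10,k6)],[(k5,k6),(k6,k6)],[(k9,k10),(k2,k12)],[(k8,k10),(k3,k12)],[(k0,k6),(k11,k6)],[(k1,k6),(k7,
    k6)],[(k4,k6),(k10,k6)],[(k0,k6),(k11,k6)],[(k8,k8),(k3,k10)],[(k9,k8),(k2,k10)],[(k5,k6),(k6,k6)],[(k1,k6),(k7,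
    k6)]]
    [] k0
    [[k1,k0,k1,k0,k0,k0],[k0,k1,k0,k0,k1,k0],[k0,k0,k0,k1,k0,k1],[k0,k0,k0,k0,k2,k0]]
    [.ref k7 k0 [(z1,[z1])],.ref k0 k0 [(z1,[y1,z1])],.ref k7 k1 [(z1,[z1])],.contra [z1]])]⟩

/-- classes `0 0 1 0 0 1`, types `N0 N1 C0 N2 N3 C2` -/
noncomputable def cU6_772 : CertX :=
  ⟨[k12,k13,k20,k14,k15,k22],[(true,k2,[k2,k1,k0,k5,k4,k3]),(false,k0,[k0,k1,k2,k3,k4,k5])],[[[([z1,z0,z1,z1,z0,z1],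
    z2)],[([z1,z0,z0,z1,z0,z0],z1),([z0,z1,z0,z0,z1,z0],z1)],[([z1,z0,z0,z1,z0,z0],z2)],[]]],
    [.old (.leafM k2 [k2,k3,k5,k0] [] [(k4,k1,z1,[y1,z1]),(k1,k4,z1,[y1,z1])]),
    .old (.leafM k7 [k0,k1,k3,k4] [(z1,[z0,z1])] [(k2,k5,z1,[y1,y1,z1]),(k5,k2,z1,[y1,y1,z1])]),
    .old (.lp [k96,k120,k0,k106,k52,k96] [k12,k12,k0,k0,k60,k60,k5,k9,k34,k34,k12,k12] k0 [[],[k0,k0,k0,k0,k0,k0,k38],[],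
    [],[],[],[k0,k0,k0,k0,k0,k0,k0,k0,k54],[k38],[],[k0,k0,k0,k0,k0,k0,k0,k54]] (nat_lit 240) k6
    [[(k10,k96),(k7,k99)],[(k5,k48),(k6,k141)],[(k9,k48),(k2,k120)],[(k8,k86),(k3,k120)],[(k0,k48),(k11,k48)],[(k10,
    k48),(k7,k51)],[(k4,k51),(k1,k99)],[(k11,k49),(k0,k141)],[(k3,k48),(k8,k106)],[(k2,k86),(k9,k106)],[(k5,k48),(k6,
    k49)],[(k4,k48),(k1,k96)]]
    [] k0
    [[k0,k1,k0,k0,k1,k0],[k0,k0,k1,k0,k0,k1],[k0,k0,k2,k0,k0,k2],[k0,k0,k0,k0,k2,k0]]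
    [.contra [y1,y1,z1],.contra [y1,y1,z1],.ref k1 k0 [(z2,[z1]),(z2,[y1,y2,z2])],.contra [z1]]),
    .old (.lp [k6,k12,k6,k6,k8,k6] [k3,k3,k0,k0,k3,k3,k3,k3,k2,k2,k3,k3] k0 [] k24 k5
    [[(k7,k6),(k10,k6)],[(k5,k6),(k6,k6)],[(k9,k10),(k2,k12)],[(k8,k10),(k3,k12)],[(k0,k6),(k11,k6)],[(k7,k6),(k10,
    k6)],[(k1,k6),(k4,k6)],[(k0,k6),(k11,k6)],[(k8,k8),(k3,k10)],[(k9,k8),(k2,k10)],[(k5,k6),(k6,k6)],[(k1,k6),(k4,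
    k6)]]
    [] k0
    [[k1,k0,k0,k1,k0,k0],[k0,k1,k0,k0,k1,k0],[k0,k0,k1,k0,k0,k1],[k0,k0,k0,k0,k2,k0]]
    [.ref k2 k1 [(z1,[z1])],.ref k0 k1 [(z1,[y1,z1])],.ref k2 k0 [(z1,[z1])],.contra [z1]])]⟩

/-- classes `0 0 1 0 0 1`, types `N0 N1 C0 N3 N2 C0` -/
noncomputable def cU6_773 : CertX :=
  ⟨[k12,k13,k20,k15,k14,k20],[(false,k3,[k3,k4,k5,k0,k1,k2]),(false,k0,[k0,k1,k2,k3,k4,k5])],[[[([z1,z0,z1,z0,z1,z0],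
    z2)],[([z1,z0,z1,z0,z0,z0],z1),([z0,z3,z0,z0,z0,z0],z2),([z0,z0,z0,z1,z0,z1],z2)],[([z3,z0,z3,z0,z0,z0],z2),([z0,
    z3,z0,z0,z0,z0],z2),([z0,z0,z0,z1,z0,z1],z2)],[([z1,z0,z1,z0,z0,z0],z2),([z0,z3,z0,z3,z0,z3],z4)],[([z1,z0,z1,z0,
    z0,z0],z1),([z0,z3,z0,z0,z0,z0],z1),([z0,z0,z0,z1,z0,z1],z2)],[([z1,z0,z1,z0,z0,z0],z1),([z0,z2,z0,z0,z0,z0],z1),
    ([z0,z0,z0,z1,z0,z1],z2)],[([z1,z0,z1,z0,z0,z0],z1),([z0,z1,z0,z0,z1,z0],z1)],[([z1,z0,z1,z0,z0,z0],z2)],[]]],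
    [.old (.leafM k5 [k1,k2,k3,k4,k5,k0] [(z1,[z1]),(z1,[y1,z1])] []),
    .old (.leafM k11 [k0,k1,k2,k4] [(z1,[z0,z1]),(z1,[y3,y1,y3,z3]),(z1,[z1])] [(k3,k5,z1,[z0,z0,z1]),(k5,k3,z1,[z0,z0,
    z1])]),
    .old (.leafM k10 [k0,k1,k2,k4] [(z1,[z0,z1]),(z1,[y1,y1,y3,z3]),(z1,[z1])] [(k3,k5,z1,[z0,z0,z1]),(k5,k3,z1,[z0,z0,
    z1])]),
    .old (.lp [(nat_lit 358),k122,k122,k70,k158,k126] [k0,k0,k118,k118,k118,k118,k144,k144,k100,k100,k116,k116] k0 [[k0,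
    k0,k0,k0,k0,k0,k0,k0,k0,k162],[],[],[],[],[],[k0,k0,k0,k0,k0,k0,k0,k0,k2],[],[k0,k162],[k0,k0,k0,k0,k0,k0,k0,
    k2]] (nat_lit 480) k6
    [[(k4,(nat_lit 240)),(k10,(nat_lit 242))],[(k8,k96),(k5,(nat_lit 240))],[(k2,k122),(k11,(nat_lit 286))],[(k6,k96),
    (k3,k122)],[(k9,k140),(k0,(nat_lit 240))],[(k7,k96),(k1,(nat_lit 240))],[(k4,k96),(k10,k98)],[(k2,k96),(k11,k96)],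
    [(k5,k140),(k8,k160)],[(k0,k96),(k9,k160)],[(k6,k96),(k3,(nat_lit 286))],[(k7,k98),(k1,(nat_lit 242))]]
    [] k0
    [[k1,k0,k1,k0,k1,k0],[k0,k2,k0,k0,k0,k0],[k0,k3,k0,k0,k0,k0],[k0,k0,k0,k1,k0,k1],[k0,k0,k0,k2,k0,k2],[k0,k0,k0,k0,
    k2,k0]]
    [.contra [y1,y2,y1,z3],.contra [z1],.ref k2 k0 [(z1,[y1,z0,z1]),(z1,[z0,y3,y1,z3]),(z1,[z0,z1])],.contra [y3,z1,
    z1],.ref k1 k0 [(z2,[z1]),(z1,[z0,y3,y1,z3]),(z1,[z0,z1])],.contra [z1]]),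
    .old (.leafM k11 [k2,k4,k0,k1] [(z1,[y3,y1,y3,z3]),(z1,[z0,z1]),(z1,[z1])] [(k3,k5,z1,[z0,z0,z1]),(k5,k3,z1,[z0,z0,
    z1])]),
    .old (.leafM k12 [k0,k1,k2,k4] [(z1,[z0,z1]),(z1,[y2,y1,y2,z2]),(z1,[z1])] [(k3,k5,z1,[z0,z0,z1]),(k5,k3,z1,[z0,z0,
    z1])]),
    .old (.lp [k6,k8,k14,k8,k10,k32] [k13,k13,k12,k12,k9,k9,k12,k12,k11,k11,k0,k0] k0 [] k40 k6
    [[(k4,k10),(k10,k19)],[(k8,k8),(k5,k10)],[(k2,k8),(k11,k20)],[(k3,k8),(k6,k8)],[(k0,k10),(k9,k12)],[(k1,k10),(k7,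
    k11)],[(k4,k11),(k10,k20)],[(k2,k8),(k11,k20)],[(k8,k10),(k5,k12)],[(k0,k8),(k9,k10)],[(k3,k20),(k6,k20)],[(k1,
    k19),(k7,k20)]]
    [] k0
    [[k1,k0,k1,k0,k0,k0],[k1,k0,k1,k0,k1,k0],[k0,k2,k0,k0,k0,k0],[k0,k3,k0,k0,k0,k0],[k0,k4,k0,k0,k0,k0],[k0,k0,k0,k0,
    k2,k0],[k0,k0,k0,k0,k3,k0]]
    [.contra [y1,z2],.contra [z1,y1],.contra [z1],.ref k3 k0 [(z1,[z0,y1,y1,z1]),(z1,[y1,z3,z3])],.ref k5 k1 [(z1,[z0,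
    z1]),(z2,[z1]),(z1,[z0,y1,y1,z1])],.contra [z1],.ref k4 k1 [(z1,[z0,z1]),(z1,[y1,z0,z3]),(z1,[z0,y1,y1,z1])]]),
    .old (.lp [k18,k40,k102,k8,k30,k40] [k42,k42,k31,k31,k0,k0,k47,k47,k36,k36,k31,k31] k0 [] k120 k6
    [[(k10,k29),(k4,k60)],[(k8,k24),(k5,k60)],[(k2,k40),(k11,k40)],[(k6,k24),(k3,k40)],[(k0,k60),(k9,k66)],[(k7,k55),
    (k1,k60)],[(k10,k24),(k4,k55)],[(k2,k24),(k11,k24)],[(k8,k30),(k5,k66)],[(k0,k24),(k9,k30)],[(k6,k24),(k3,k40)],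
    [(k7,k24),(k1,k29)]]
    [] k0
    [[k0,k2,k0,k0,k0,k0],[k0,k1,k0,k1,k0,k1],[k0,k0,k0,k1,k0,k1],[k0,k0,k0,k2,k0,k2],[k0,k0,k0,k0,k2,k0],[k0,k0,k0,k0,
    k3,k0]]
    [.contra [z1],.contra [y1,y1,z1],.contra [y1,y1,z1],.ref k6 k0 [(z2,[z1]),(z2,[y1,y2,z2])],.contra [z1],
    .ref k3 k1 [(z1,[z0,z1]),(z1,[y1,y3,z3])]]),
    .old (.lp [k2,k6,k4,k2,k4,k4] [k2,k2,k0,k0,k1,k1,k2,k2,k1,k1,k1,k1] k0 [] k12 k5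
    [[(k4,k3),(k10,k3)],[(k5,k3),(k8,k3)],[(k11,k5),(k2,k6)],[(k6,k4),(k3,k6)],[(k0,k3),(k9,k4)],[(k1,k3),(k7,k3)],
    [(k4,k3),(k10,k3)],[(k11,k3),(k2,k4)],[(k5,k4),(k8,k4)],[(k0,k3),(k9,k4)],[(k6,k3),(k3,k5)],[(k1,k3),(k7,k3)]]
    [] k0
    [[k1,k0,k1,k0,k0,k0],[k1,k0,k1,k0,k1,k0],[k0,k0,k0,k1,k0,k1],[k0,k0,k0,k0,k2,k0]]
    [.ref k7 k1 [(z1,[z1])],.ref k0 k1 [(z1,[z1])],.ref k7 k0 [(z1,[z1])],.contra [z1]])]⟩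

/-- classes `0 0 1 0 0 1`, types `N0 N1 C0 N3 N2 C2` -/
noncomputable def cU6_774 : CertX :=
  ⟨[k12,k13,k20,k15,k14,k22],[],[[[]]],
    [.old (.lp [k6,k12,k6,k6,k8,k6] [k3,k3,k0,k0,k3,k3,k3,k3,k2,k2,k3,k3] k0 [] k24 k5
    [[(k7,k6),(k10,k6)],[(k5,k6),(k8,k7)],[(k11,k9),(k2,k12)],[(k6,k9),(k3,k12)],[(k0,k6),(k9,k7)],[(k7,k6),(k10,k6)],
    [(k1,k6),(k4,k6)],[(k11,k6),(k2,k9)],[(k5,k7),(k8,k8)],[(k0,k7),(k9,k8)],[(k6,k6),(k3,k9)],[(k1,k6),(k4,k6)]]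
    [] k0
    [[k0,k0,k0,k0,k2,k0]]
    [.contra [z1]])]⟩

/-- classes `0 0 1 0 0 1`, types `N0 N1 N0 N0 N1 N1` -/
noncomputable def cU6_775 : CertX :=
  ⟨[k12,k13,k28,k12,k13,k29],[(false,k0,[k0,k1,k2,k3,k4,k5]),(false,k3,[k3,k4,k5,k0,k1,k2])],[[[([z1,z0,z1,z1,z0,z1],
    z2)],[([z1,z0,z1,z0,z0,z0],z1),([z0,z3,z0,z0,z0,z0],z1),([z0,z0,z0,z1,z0,z1],z2)],[([z1,z0,z1,z0,z0,z0],z1),([z0,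
    z3,z0,z0,z0,z0],z2),([z0,z0,z0,z1,z0,z1],z2)],[([z1,z0,z1,z0,z0,z0],z1),([z0,z2,z0,z0,z0,z0],z1),([z0,z0,z0,z1,z0,
    z1],z2)],[([z1,z0,z1,z0,z0,z0],z1),([z0,z1,z0,z0,z1,z0],z1)],[([z3,z0,z3,z0,z0,z0],z2),([z0,z3,z0,z0,z0,z0],z2),
    ([z0,z0,z0,z1,z0,z1],z2)],[([z1,z0,z1,z0,z0,z0],z2),([z0,z3,z0,z0,z0,z0],z2)],[([z1,z0,z1,z0,z0,z0],z2)],[]]],
    [.old (.leafM k5 [k0,k2,k3,k5] [] [(k1,k4,z1,[y1,z1]),(k4,k1,z1,[y1,z1])]),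
    .old (.leafM k11 [k2,k4,k0,k1] [(z1,[y3,y1,y3,z3]),(z1,[z0,z1]),(z1,[z1])] [(k3,k5,z1,[z0,z0,z1]),(k5,k3,z1,[z0,z0,
    z1])]),
    .old (.leafM k11 [k0,k1,k2,k4] [(z1,[z0,z1]),(z1,[y3,y1,y3,z3]),(z1,[z1])] [(k3,k5,z1,[z0,z0,z1]),(k5,k3,z1,[z0,z0,
    z1])]),
    .old (.leafM k12 [k0,k1,k2,k4] [(z1,[z0,z1]),(z1,[y2,y1,y2,z2]),(z1,[z1])] [(k3,k5,z1,[z0,z0,z1]),(k5,k3,z1,[z0,z0,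
    z1])]),
    .old (.lp [(nat_lit 368),(nat_lit 1150),(nat_lit 2400),k0,(nat_lit 1380),(nat_lit 5520)] [(nat_lit 2576),
    (nat_lit 2576),(nat_lit 2185),(nat_lit 2185),(nat_lit 1560),(nat_lit 1560),(nat_lit 2760),(nat_lit 2760),
    (nat_lit 2070),(nat_lit 2070),k0,k0] k0 [[k0,k0,k0,k0,k0,k0,k0,k0,(nat_lit 1840)],[],[],[],[],[],[],[],[],[k0,
    (nat_lit 1840)]] (nat_lit 5520) k6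
    [[(k4,(nat_lit 1384))],[(k11,(nat_lit 1104)),(k5,(nat_lit 1384))],[(k2,(nat_lit 1150)),(k8,(nat_lit 3105))],[(k3,
    (nat_lit 1150)),(k9,(nat_lit 1265))],[(k6,(nat_lit 1200)),(k0,(nat_lit 1384))],[(k1,(nat_lit 1384))],[(k10,
    (nat_lit 2760))],[(k5,(nat_lit 1200)),(k11,(nat_lit 2760))],[(k2,(nat_lit 1265)),(k8,(nat_lit 1380))],[(k9,
    (nat_lit 1380)),(k3,(nat_lit 3105))],[(k0,(nat_lit 1104)),(k6,(nat_lit 2760))],[(k7,(nat_lit 2760))]]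
    [] k0
    [[k1,k0,k1,k0,k0,k0],[k0,k2,k0,k0,k0,k0],[k0,k3,k0,k0,k0,k0],[k0,k4,k0,k0,k0,k0],[k0,k1,k0,k0,k1,k0],[k0,k0,k0,k0,
    k2,k0],[k0,k0,k0,k0,k3,k0]]
    [.contra [y1,z2],.contra [z1],.ref k2 k0 [(z1,[z0,z1]),(z1,[z1]),(z1,[z0,y1,y1,z1])],.ref k3 k0 [(z1,[z0,z1]),(z2,
    [z1]),(z1,[z0,y1,y1,z1])],.contra [y1,z1,z1],.contra [z1],.ref k1 k0 [(z1,[z0,z1]),(z1,[y1,z0,z3]),(z1,[z0,y1,y1,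
    z1])]]),
    .old (.leafM k10 [k0,k1,k2,k4] [(z1,[z0,z1]),(z1,[y1,y1,y3,z3]),(z1,[z1])] [(k3,k5,z1,[z0,z0,z1]),(k5,k3,z1,[z0,z0,
    z1])]),
    .old (.lp [(nat_lit 414),(nat_lit 460),(nat_lit 966),k0,(nat_lit 360),(nat_lit 552)] [(nat_lit 276),(nat_lit 276),
    (nat_lit 253),(nat_lit 253),k0,k0,(nat_lit 483),(nat_lit 483),(nat_lit 303),(nat_lit 303),(nat_lit 207),
    (nat_lit 207)] k0 [[k0,k0,k0,k0,k0,k0,k0,k0,(nat_lit 207)],[],[],[],[],[],[],[],[],[k0,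
    (nat_lit 207)]] (nat_lit 1380) k6
    [[(k4,(nat_lit 690))],[(k11,(nat_lit 276)),(k5,(nat_lit 690))],[(k2,(nat_lit 460)),(k8,(nat_lit 617))],[(k9,
    (nat_lit 410)),(k3,(nat_lit 460))],[(k6,(nat_lit 483)),(k0,(nat_lit 690))],[(k1,(nat_lit 690))],[(k10,
    (nat_lit 276))],[(k11,(nat_lit 276)),(k5,(nat_lit 483))],[(k8,(nat_lit 360)),(k2,(nat_lit 410))],[(k9,
    (nat_lit 360)),(k3,(nat_lit 617))],[(k0,(nat_lit 276)),(k6,(nat_lit 276))],[(k7,(nat_lit 276))]]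
    [] k0
    [[k0,k2,k0,k0,k0,k0],[k0,k1,k0,k0,k1,k0],[k0,k0,k0,k1,k0,k1],[k0,k0,k0,k2,k0,k2],[k0,k0,k0,k0,k2,k0],[k0,k0,k0,k0,
    k3,k0]]
    [.contra [z1],.contra [y1,y1,z0,z1],.contra [y1,y1,z0,z1],.ref k4 k1 [(z2,[z1]),(z2,[y1,y2,z0,z2])],.contra [z1],
    .ref k5 k1 [(z1,[y1,y3,y1,z3]),(z1,[z1]),(z1,[z0,z1])]]),
    .old (.lp [(nat_lit 414),(nat_lit 360),(nat_lit 966),k0,(nat_lit 460),(nat_lit 552)] [(nat_lit 276),(nat_lit 276),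
    (nat_lit 303),(nat_lit 303),k0,k0,(nat_lit 483),(nat_lit 483),(nat_lit 253),(nat_lit 253),(nat_lit 207),
    (nat_lit 207)] k0 [[k0,k0,k0,k0,k0,k0,k0,k0,(nat_lit 207)],[],[],[],[],[],[],[],[],[k0,
    (nat_lit 207)]] (nat_lit 1380) k6
    [[(k4,(nat_lit 690))],[(k11,(nat_lit 276)),(k5,(nat_lit 690))],[(k2,(nat_lit 360)),(k8,(nat_lit 617))],[(k3,
    (nat_lit 360)),(k9,(nat_lit 410))],[(k6,(nat_lit 483)),(k0,(nat_lit 690))],[(k1,(nat_lit 690))],[(k10,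
    (nat_lit 276))],[(k11,(nat_lit 276)),(k5,(nat_lit 483))],[(k2,(nat_lit 410)),(k8,(nat_lit 460))],[(k9,
    (nat_lit 460)),(k3,(nat_lit 617))],[(k0,(nat_lit 276)),(k6,(nat_lit 276))],[(k7,(nat_lit 276))]]
    [] k0
    [[k0,k2,k0,k0,k0,k0],[k0,k3,k0,k0,k0,k0],[k0,k1,k0,k0,k1,k0],[k0,k0,k0,k1,k0,k1],[k0,k0,k0,k2,k0,k2],[k0,k0,k0,k0,
    k2,k0]]
    [.contra [z1],.ref k6 k0 [(z1,[z0,z1]),(z1,[z1])],.contra [y1,y1,z1],.contra [y1,y1,z1],.ref k4 k1 [(z2,[z1]),(z2,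
    [y1,y2,z2])],.contra [z1]]),
    .old (.lp [k0,k6,k6,k0,k4,k6] [k3,k3,k0,k0,k0,k0,k3,k3,k1,k1,k0,k0] k0 [] k12 k5
    [[(k4,k3)],[(k5,k3),(k11,k3)],[(k8,k5),(k2,k6)],[(k9,k5),(k3,k6)],[(k0,k3),(k6,k3)],[(k1,k3)],[(k10,k3)],[(k5,k3),
    (k11,k3)],[(k8,k4),(k2,k5)],[(k9,k4),(k3,k5)],[(k0,k3),(k6,k3)],[(k7,k3)]]
    [] k0
    [[k1,k0,k1,k0,k0,k0],[k0,k1,k0,k0,k1,k0],[k0,k0,k0,k1,k0,k1],[k0,k0,k0,k0,k2,k0]]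
    [.ref k7 k0 [(z1,[z1])],.ref k0 k0 [(z1,[y1,z1])],.ref k7 k1 [(z1,[z1])],.contra [z1]])]⟩

/-- classes `0 0 1 0 0 1`, types `N0 N1 N0 N0 N1 N2` -/
noncomputable def cU6_776 : CertX :=
  ⟨[k12,k13,k28,k12,k13,k30],[(false,k0,[k0,k1,k2,k3,k4,k5])],[[[([z1,z0,z1,z1,z0,z1],z2)],[]]],
    [.old (.leafM k6 [k0,k2,k3,k5] [] [(k1,k4,z1,[y1,z1]),(k4,k1,z1,[y1,z1])]),
    .old (.lp [k6,k12,k6,k6,k8,k6] [k3,k3,k0,k0,k3,k3,k3,k3,k2,k2,k3,k3] k0 [] k24 k5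
    [[(k7,k6)],[(k5,k6),(k11,k6)],[(k8,k10),(k2,k12)],[(k9,k10),(k3,k12)],[(k0,k6),(k6,k6)],[(k10,k6)],[(k1,k6)],[(k5,
    k6),(k11,k6)],[(k8,k8),(k2,k10)],[(k9,k8),(k3,k10)],[(k0,k6),(k6,k6)],[(k4,k6)]]
    [] k0
    [[k0,k1,k0,k0,k1,k0],[k0,k0,k0,k0,k2,k0]]
    [.ref k0 k0 [(z1,[y1,z1])],.contra [z1]])]⟩

/-- classes `0 0 1 0 0 1`, types `N0 N1 N0 N0 N2 N1` -/
noncomputable def cU6_777 : CertX :=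
  ⟨[k12,k13,k28,k12,k14,k29],[(false,k0,[k0,k1,k2,k3,k4,k5])],[[[([z1,z0,z1,z0,z0,z0],z2)],[]]],
    [.old (.lp [(nat_lit 1802),(nat_lit 2280),(nat_lit 4558),(nat_lit 1272),(nat_lit 1272),(nat_lit 1272)] [(nat_lit 1378),
    (nat_lit 1378),(nat_lit 1139),(nat_lit 1139),k0,k0,(nat_lit 1643),(nat_lit 1643),(nat_lit 1643),(nat_lit 1643),
    (nat_lit 1643),(nat_lit 1643)] k0 [[k0,k0,k0,k0,k0,k0,k0,k0,k0,(nat_lit 265)],[],[],[],[],[],[],[],[k0,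
    (nat_lit 265)]] (nat_lit 6360) k6
    [[(k4,(nat_lit 3180))],[(k8,(nat_lit 1272)),(k5,(nat_lit 3180))],[(k11,(nat_lit 2041)),(k2,(nat_lit 2280))],[(k9,
    (nat_lit 1776)),(k3,(nat_lit 2280))],[(k6,(nat_lit 2915)),(k0,(nat_lit 3180))],[(k1,(nat_lit 3180))],[(k10,
    (nat_lit 1272))],[(k8,(nat_lit 1272)),(k5,(nat_lit 2915))],[(k11,(nat_lit 1272)),(k2,(nat_lit 1776))],[(k0,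
    (nat_lit 1272)),(k6,(nat_lit 1272))],[(k9,(nat_lit 1272)),(k3,(nat_lit 2041))],[(k7,(nat_lit 1272))]]
    [] k0
    [[k0,k2,k0,k0,k0,k0],[k0,k0,k0,k1,k1,k1]]
    [.contra [z1],.contra [y1,y1,z1]]),
    .old (.lp [k4,k4,k2,k4,k2,k6] [k1,k1,k1,k1,k2,k2,k1,k1,k2,k2,k0,k0] k0 [] k12 k5
    [[(k4,k3)],[(k5,k3),(k8,k3)],[(k2,k4),(k11,k5)],[(k9,k3),(k3,k4)],[(k0,k3),(k6,k3)],[(k1,k3)],[(k10,k5)],[(k5,k3),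
    (k8,k3)],[(k2,k3),(k11,k4)],[(k0,k3),(k6,k3)],[(k9,k4),(k3,k5)],[(k7,k5)]]
    [] k0
    [[k1,k0,k1,k0,k0,k0],[k0,k2,k0,k0,k0,k0]]
    [.ref k0 k0 [(z1,[z1])],.contra [z1]])]⟩

/-- classes `0 0 1 0 0 1`, types `N0 N1 N0 N0 N2 N2` -/
noncomputable def cU6_778 : CertX :=
  ⟨[k12,k13,k28,k12,k14,k30],[],[[[]]],
    [.old (.lp [k2,k4,k2,k2,k2,k2] [k1,k1,k0,k0,k1,k1,k1,k1,k1,k1,k1,k1] k0 [] k8 k5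
    [[(k7,k2)],[(k5,k2),(k8,k2)],[(k11,k3),(k2,k4)],[(k9,k3),(k3,k4)],[(k0,k2),(k6,k2)],[(k10,k2)],[(k1,k2)],[(k5,k2),
    (k8,k2)],[(k11,k2),(k2,k3)],[(k0,k2),(k6,k2)],[(k9,k2),(k3,k3)],[(k4,k2)]]
    [] k0
    []
    [])]⟩

/-- classes `0 0 1 0 0 1`, types `N0 N1 N0 N1 N0 N1` -/
noncomputable def cU6_779 : CertX :=
  ⟨[k12,k13,k28,k13,k12,k29],[(false,k0,[k0,k1,k2,k3,k4,k5]),(false,k3,[k3,k4,k5,k0,k1,k2])],[[[([z1,z0,z1,z0,z1,z0],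
    z2)],[([z1,z0,z1,z0,z0,z0],z1),([z0,z3,z0,z0,z0,z0],z1),([z0,z0,z0,z1,z0,z1],z2)],[([z1,z0,z1,z0,z0,z0],z1),([z0,
    z3,z0,z0,z0,z0],z2),([z0,z0,z0,z1,z0,z1],z2)],[([z1,z0,z1,z0,z0,z0],z1),([z0,z2,z0,z0,z0,z0],z1),([z0,z0,z0,z1,z0,
    z1],z2)],[([z1,z0,z1,z0,z0,z0],z1),([z0,z1,z0,z0,z1,z0],z1)],[([z3,z0,z3,z0,z0,z0],z2),([z0,z3,z0,z0,z0,z0],z2),
    ([z0,z0,z0,z1,z0,z1],z2)],[([z1,z0,z1,z0,z0,z0],z2),([z0,z3,z0,z0,z0,z0],z2)],[([z1,z0,z1,z0,z0,z0],z2)],[]]],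
    [.old (.leafM k1 [k0,k1,k2,k3,k4,k5] [(z1,[y1,z1]),(z1,[z1])] []),
    .old (.leafM k11 [k2,k4,k0,k1] [(z1,[y3,y1,y3,z3]),(z1,[z0,z1]),(z1,[z1])] [(k3,k5,z1,[z0,z0,z1]),(k5,k3,z1,[z0,z0,
    z1])]),
    .old (.leafM k11 [k0,k1,k2,k4] [(z1,[z0,z1]),(z1,[y3,y1,y3,z3]),(z1,[z1])] [(k3,k5,z1,[z0,z0,z1]),(k5,k3,z1,[z0,z0,
    z1])]),
    .old (.leafM k12 [k0,k1,k2,k4] [(z1,[z0,z1]),(z1,[y2,y1,y2,z2]),(z1,[z1])] [(k3,k5,z1,[z0,z0,z1]),(k5,k3,z1,[z0,z0,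
    z1])]),
    .old (.lp [k36,k48,k86,k48,k60,k192] [k78,k78,k72,k72,k53,k53,k72,k72,k66,k66,k0,k0] k0 [[],[],[k0,k0,k0,k0,k0,k0,k0,
    k0,k58],[],[],[],[],[],[],[k0,k0,k0,k58]] (nat_lit 240) k6
    [[(k4,k61)],[(k9,k48),(k5,k61)],[(k2,k48),(k6,k48)],[(k3,k48),(k11,k62)],[(k0,k61),(k8,k131)],[(k1,k61)],[(k10,
    k120)],[(k3,k48),(k11,k120)],[(k0,k48),(k8,k60)],[(k9,k60),(k5,k131)],[(k2,k62),(k6,k120)],[(k7,k120)]]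
    [] k0
    [[k1,k0,k1,k0,k0,k0],[k0,k2,k0,k0,k0,k0],[k0,k3,k0,k0,k0,k0],[k0,k4,k0,k0,k0,k0],[k0,k1,k0,k1,k0,k1],[k0,k0,k0,k0,
    k2,k0],[k0,k0,k0,k0,k3,k0]]
    [.contra [y1,z2],.contra [z1],.ref k2 k0 [(z1,[z0,z1]),(z1,[z1]),(z1,[z0,y1,y1,z1])],.ref k3 k0 [(z1,[z0,z1]),(z2,
    [z1]),(z1,[z0,y1,y1,z1])],.contra [y1,y1,z0,z1],.contra [z1],.ref k1 k0 [(z1,[z0,z1]),(z1,[y1,z0,z3]),(z1,[z0,y1,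
    y1,z1])]]),
    .old (.leafM k10 [k0,k1,k2,k4] [(z1,[z0,z1]),(z1,[y1,y1,y3,z3]),(z1,[z1])] [(k3,k5,z1,[z0,z0,z1]),(k5,k3,z1,[z0,z0,
    z1])]),
    .old (.lp [k18,k40,k102,k8,k30,k40] [k42,k42,k31,k31,k0,k0,k47,k47,k36,k36,k31,k31] k0 [] k120 k6
    [[(k4,k60)],[(k9,k24),(k5,k60)],[(k6,k24),(k2,k40)],[(k3,k40),(k11,k40)],[(k0,k60),(k8,k66)],[(k1,k60)],[(k10,
    k24)],[(k3,k24),(k11,k24)],[(k0,k24),(k8,k30)],[(k9,k30),(k5,k66)],[(k6,k24),(k2,k40)],[(k7,k24)]]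
    [] k0
    [[k0,k2,k0,k0,k0,k0],[k0,k1,k0,k1,k0,k1],[k0,k0,k0,k1,k0,k1],[k0,k0,k0,k2,k0,k2],[k0,k0,k0,k0,k2,k0],[k0,k0,k0,k0,
    k3,k0]]
    [.contra [z1],.contra [y1,y1,z0,z1],.contra [y1,y1,z0,z1],.ref k4 k1 [(z2,[z1]),(z2,[y1,y2,z0,z2])],.contra [z1],
    .ref k5 k1 [(z1,[y1,y3,y1,z3]),(z1,[z1]),(z1,[z0,z1])]]),
    .old (.lp [k178,k60,k62,k0,k78,k100] [k0,k0,k59,k59,k58,k58,k89,k89,k50,k50,k39,k39] k0 [[k0,k0,k0,k0,k0,k0,k80],[],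
    [],[],[],[],[k0,k0,k0,k0,k0,k0,k0,k0,k2],[k0,k80],[],[k0,k0,k0,k0,k0,k0,k0,k2]] (nat_lit 240) k6
    [[(k4,k120)],[(k9,k48),(k5,k120)],[(k2,k60),(k6,k110)],[(k3,k60),(k11,k80)],[(k8,k70),(k0,k120)],[(k1,k120)],
    [(k10,k50)],[(k11,k48),(k3,k110)],[(k0,k48),(k8,k80)],[(k5,k70),(k9,k80)],[(k6,k48),(k2,k80)],[(k7,k50)]]
    [] k0
    [[k1,k0,k1,k0,k1,k0],[k0,k2,k0,k0,k0,k0],[k0,k3,k0,k0,k0,k0],[k0,k0,k0,k1,k0,k1],[k0,k0,k0,k2,k0,k2],[k0,k0,k0,k0,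
    k2,k0]]
    [.contra [z1,y1],.contra [z1],.ref k6 k0 [(z1,[z0,z1]),(z1,[z1])],.contra [y1,y1,z1],.ref k4 k1 [(z2,[z1]),(z2,
    [y1,y2,z2])],.contra [z1]]),
    .old (.lp [k4,k12,k10,k0,k8,k12] [k4,k4,k0,k0,k1,k1,k6,k6,k2,k2,k0,k0] k0 [[],[],[k0,k0,k0,k0,k0,k0,k0,k0,k2],[],[],
    [],[],[],[],[k0,k0,k0,k2]] k24 k5
    [[(k4,k7)],[(k9,k6),(k5,k7)],[(k6,k6),(k2,k12)],[(k11,k10),(k3,k12)],[(k0,k7),(k8,k11)],[(k1,k7)],[(k10,k6)],[(k3,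
    k6),(k11,k6)],[(k0,k6),(k8,k8)],[(k9,k8),(k5,k11)],[(k6,k6),(k2,k10)],[(k7,k6)]]
    [] k0
    [[k1,k0,k1,k0,k0,k0],[k0,k1,k0,k1,k0,k1],[k0,k0,k0,k1,k0,k1],[k0,k0,k0,k0,k2,k0]]
    [.ref k7 k0 [(z1,[z1])],.ref k0 k0 [(z1,[y1,z1])],.ref k7 k1 [(z1,[z1])],.contra [z1]])]⟩

/-- classes `0 0 1 0 0 1`, types `N0 N1 N0 N1 N0 N2` -/
noncomputable def cU6_780 : CertX :=
  ⟨[k12,k13,k28,k13,k12,k30],[],[[[]]],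
    [.old (.lp [k4,k6,k2,k2,k4,k4] [k1,k1,k0,k0,k2,k2,k2,k2,k1,k1,k1,k1] k0 [] k12 k5
    [[(k7,k3)],[(k5,k3),(k9,k4)],[(k6,k4),(k2,k6)],[(k11,k5),(k3,k6)],[(k0,k3),(k8,k3)],[(k10,k3)],[(k1,k3)],[(k11,
    k3),(k3,k4)],[(k0,k4),(k8,k4)],[(k5,k3),(k9,k4)],[(k6,k3),(k2,k5)],[(k4,k3)]]
    [] k0
    [[k0,k0,k0,k0,k2,k0]]
    [.contra [z1]])]⟩

/-- classes `0 0 1 0 0 1`, types `N0 N1 N0 N1 N3 N1` -/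
noncomputable def cU6_781 : CertX :=
  ⟨[k12,k13,k28,k13,k15,k29],[(false,k0,[k0,k1,k2,k3,k4,k5])],[[[([z1,z0,z1,z0,z0,z0],z2)],[]]],
    [.old (.lp [(nat_lit 2856),(nat_lit 5100),(nat_lit 11424),(nat_lit 4080),(nat_lit 2856),
    (nat_lit 1680)] [(nat_lit 4284),(nat_lit 4284),(nat_lit 3162),(nat_lit 3162),k0,k0,(nat_lit 3672),(nat_lit 3672),
    (nat_lit 4284),(nat_lit 4284),(nat_lit 4872),(nat_lit 4872)] k0 [[],[],[],[],[],[],[k0,k0,k0,k0,k0,k0,k0,k0,k0,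
    (nat_lit 595)],[],[k0,k0,k0,k0,k0,k0,k0,(nat_lit 595)]] (nat_lit 14280) k6
    [[(k4,(nat_lit 7140))],[(k9,(nat_lit 2856)),(k5,(nat_lit 7140))],[(k6,(nat_lit 4590)),(k2,(nat_lit 5100))],[(k8,
    (nat_lit 3978)),(k3,(nat_lit 5100))],[(k11,(nat_lit 6552)),(k0,(nat_lit 7140))],[(k1,(nat_lit 7140))],[(k10,
    (nat_lit 2880))],[(k8,(nat_lit 2873)),(k3,(nat_lit 4590))],[(k0,(nat_lit 2856)),(k11,(nat_lit 2863))],[(k6,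
    (nat_lit 2873)),(k2,(nat_lit 3978))],[(k9,(nat_lit 2863)),(k5,(nat_lit 6552))],[(k7,(nat_lit 2880))]]
    [] k0
    [[k0,k2,k0,k0,k0,k0],[k0,k0,k0,k1,k1,k1]]
    [.contra [z1],.contra [y1,y1,z1]]),
    .old (.lp [k4,k4,k2,k4,k2,k6] [k1,k1,k1,k1,k2,k2,k1,k1,k2,k2,k0,k0] k0 [] k12 k5
    [[(k4,k3)],[(k5,k3),(k9,k3)],[(k2,k4),(k6,k4)],[(k8,k3),(k3,k4)],[(k0,k3),(k11,k4)],[(k1,k3)],[(k10,k5)],[(k8,k3),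
    (k3,k4)],[(k0,k3),(k11,k4)],[(k2,k3),(k6,k3)],[(k5,k4),(k9,k4)],[(k7,k5)]]
    [] k0
    [[k1,k0,k1,k0,k0,k0],[k0,k2,k0,k0,k0,k0]]
    [.ref k0 k0 [(z1,[z1])],.contra [z1]])]⟩

/-- classes `0 0 1 0 0 1`, types `N0 N1 N0 N1 N3 N2` -/
noncomputable def cU6_782 : CertX :=
  ⟨[k12,k13,k28,k13,k15,k30],[(false,k0,[k0,k1,k2,k3,k4,k5])],[[[([z1,z1,z0,z1,z1,z0],z2)],[]]],
    [.old (.leafM k6 [k0,k1,k3,k4] [] [(k2,k5,z1,[y1,z1]),(k5,k2,z1,[y1,z1])]),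
    .old (.lp [k6,k4,k4,k2,k4,k2] [k0,k0,k1,k1,k1,k1,k2,k2,k1,k1,k2,k2] k0 [[k0,k0,k2],[],[],[k0,k2]] k12 k5
    [[(k7,k4)],[(k5,k3),(k9,k5)],[(k6,k3),(k2,k6)],[(k8,k4),(k3,k6)],[(k0,k3),(k11,k3)],[(k10,k3)],[(k1,k4)],[(k3,k3),
    (k8,k3)],[(k11,k3),(k0,k5)],[(k6,k3),(k2,k4)],[(k5,k3),(k9,k3)],[(k4,k3)]]
    [] k0
    [[k0,k0,k1,k0,k0,k1]]
    [.ref k0 k0 [(z1,[y1,z1])]])]⟩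

/-- classes `0 0 1 0 0 1`, types `N0 N1 N0 N2 N3 N1` -/
noncomputable def cU6_783 : CertX :=
  ⟨[k12,k13,k28,k14,k15,k29],[(false,k3,[k3,k4,k5,k0,k1,k2]),(false,k0,[k0,k1,k2,k3,k4,k5])],[[[([z1,z0,z1,z1,z0,z1],
    z2)],[([z1,z0,z1,z0,z0,z0],z1),([z0,z3,z0,z0,z0,z0],z2),([z0,z0,z0,z1,z0,z1],z2)],[([z3,z0,z3,z0,z0,z0],z2),([z0,
    z3,z0,z0,z0,z0],z2),([z0,z0,z0,z1,z0,z1],z2)],[([z1,z0,z1,z0,z0,z0],z2),([z0,z3,z0,z3,z0,z3],z4)],[([z1,z0,z1,z0,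
    z0,z0],z1),([z0,z3,z0,z0,z0,z0],z1),([z0,z0,z0,z1,z0,z1],z2)],[([z1,z0,z1,z0,z0,z0],z1),([z0,z2,z0,z0,z0,z0],z1),
    ([z0,z0,z0,z1,z0,z1],z2)],[([z1,z0,z1,z0,z0,z0],z1),([z0,z1,z0,z0,z1,z0],z1)],[([z1,z0,z1,z0,z0,z0],z2)],[]]],
    [.old (.leafM k6 [k2,k3,k5,k0] [] [(k4,k1,z1,[y1,z1]),(k1,k4,z1,[y1,z1])]),
    .old (.leafM k11 [k0,k1,k2,k4] [(z1,[z0,z1]),(z1,[y3,y1,y3,z3]),(z1,[z1])] [(k3,k5,z1,[z0,z0,z1]),(k5,k3,z1,[z0,z0,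
    z1])]),
    .old (.leafM k10 [k0,k1,k2,k4] [(z1,[z0,z1]),(z1,[y1,y1,y3,z3]),(z1,[z1])] [(k3,k5,z1,[z0,z0,z1]),(k5,k3,z1,[z0,z0,
    z1])]),
    .old (.lp [(nat_lit 3780),(nat_lit 2300),k0,k0,(nat_lit 1610),(nat_lit 1932)] [k0,k0,(nat_lit 740),(nat_lit 740),
    (nat_lit 1890),(nat_lit 1890),(nat_lit 1890),(nat_lit 1890),(nat_lit 1085),(nat_lit 1085),(nat_lit 924),
    (nat_lit 924)] k0 [[k0,k0,k0,k0,k0,k0,k0,(nat_lit 920)],[k0,k0,k0,(nat_lit 1050)],[(nat_lit 1050)],[],[],[],[k0,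
    (nat_lit 920)]] (nat_lit 4830) k6
    [[(k4,(nat_lit 1890))],[(k6,(nat_lit 970)),(k5,(nat_lit 2940))],[(k2,(nat_lit 1250)),(k9,(nat_lit 2875))],[(k3,
    (nat_lit 1250)),(k8,(nat_lit 1955))],[(k11,(nat_lit 966)),(k0,(nat_lit 2940))],[(k1,(nat_lit 1890))],[(k10,
    (nat_lit 966))],[(k11,(nat_lit 966)),(k0,(nat_lit 970))],[(k8,(nat_lit 1610)),(k3,(nat_lit 2875))],[(k9,
    (nat_lit 1610)),(k2,(nat_lit 1955))],[(k5,(nat_lit 966)),(k6,(nat_lit 966))],[(k7,(nat_lit 966))]]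
    [] k0
    [[k1,k0,k1,k1,k0,k1],[k0,k2,k0,k0,k0,k0],[k0,k3,k0,k0,k0,k0],[k0,k0,k0,k1,k0,k1],[k0,k0,k0,k2,k0,k2],[k0,k0,k0,k0,
    k2,k0]]
    [.contra [z1,y1],.contra [z1],.ref k2 k0 [(z1,[y1,z0,z1]),(z1,[z0,y3,y1,z3]),(z1,[z0,z1])],.contra [y3,z1,z1],
    .ref k1 k0 [(z2,[z1]),(z1,[z0,y3,y1,z3]),(z1,[z0,z1])],.contra [z1]]),
    .old (.leafM k11 [k2,k4,k0,k1] [(z1,[y3,y1,y3,z3]),(z1,[z0,z1]),(z1,[z1])] [(k3,k5,z1,[z0,z0,z1]),(k5,k3,z1,[z0,z0,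
    z1])]),
    .old (.leafM k12 [k0,k1,k2,k4] [(z1,[z0,z1]),(z1,[y2,y1,y2,z2]),(z1,[z1])] [(k3,k5,z1,[z0,z0,z1]),(k5,k3,z1,[z0,z0,
    z1])]),
    .old (.lp [k96,k74,k0,k76,k128,k96] [k16,k16,k27,k27,k64,k64,k26,k26,k0,k0,k16,k16] k0 [[k0,k0,k0,k0,k0,k0,k0,k38],
    [k0,k0,k0,k24],[k24],[],[],[],[k0,k38],[k0,k0,k0,k0,k0,k0,k0,k0,k0,k68],[k0,k0,k0,k0,k0,k0,k68]] (nat_lit 240) k6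
    [[(k4,k48)],[(k6,k48),(k5,k72)],[(k2,k50),(k9,k139)],[(k3,k50),(k8,k101)],[(k11,k48),(k0,k72)],[(k1,k48)],[(k10,
    k86)],[(k0,k48),(k11,k154)],[(k8,k60),(k3,k139)],[(k9,k60),(k2,k101)],[(k5,k48),(k6,k154)],[(k7,k86)]]
    [] k0
    [[k1,k0,k1,k0,k0,k0],[k1,k0,k1,k1,k0,k1],[k0,k2,k0,k0,k0,k0],[k0,k3,k0,k0,k0,k0],[k0,k4,k0,k0,k0,k0],[k0,k0,k0,k0,
    k2,k0],[k0,k0,k0,k0,k3,k0]]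
    [.contra [y1,z2],.contra [z1,z1,z1,y1],.contra [z1],.ref k3 k0 [(z1,[z0,y1,y1,z1]),(z1,[y1,z3,z3])],
    .ref k5 k1 [(z1,[z0,z1]),(z2,[z1]),(z1,[z0,y1,y1,z1])],.contra [z1],.ref k4 k1 [(z1,[z0,z1]),(z1,[y1,z0,z3]),(z1,
    [z0,y1,y1,z1])]]),
    .old (.lp [(nat_lit 966),(nat_lit 460),(nat_lit 414),k0,(nat_lit 360),(nat_lit 552)] [k0,k0,(nat_lit 253),
    (nat_lit 253),(nat_lit 276),(nat_lit 276),(nat_lit 483),(nat_lit 483),(nat_lit 303),(nat_lit 303),(nat_lit 207),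
    (nat_lit 207)] k0 [[k0,k0,k0,k0,k0,k0,k0,(nat_lit 207)],[],[],[],[],[],[k0,(nat_lit 207)]] (nat_lit 1380) k6
    [[(k4,(nat_lit 690))],[(k6,(nat_lit 276)),(k5,(nat_lit 690))],[(k2,(nat_lit 460)),(k9,(nat_lit 617))],[(k8,
    (nat_lit 410)),(k3,(nat_lit 460))],[(k11,(nat_lit 483)),(k0,(nat_lit 690))],[(k1,(nat_lit 690))],[(k10,
    (nat_lit 276))],[(k0,(nat_lit 276)),(k11,(nat_lit 276))],[(k8,(nat_lit 360)),(k3,(nat_lit 617))],[(k9,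
    (nat_lit 360)),(k2,(nat_lit 410))],[(k6,(nat_lit 276)),(k5,(nat_lit 483))],[(k7,(nat_lit 276))]]
    [] k0
    [[k0,k2,k0,k0,k0,k0],[k0,k1,k0,k0,k1,k0],[k0,k0,k0,k1,k0,k1],[k0,k0,k0,k2,k0,k2],[k0,k0,k0,k0,k2,k0],[k0,k0,k0,k0,
    k3,k0]]
    [.contra [z1],.contra [y1,y1,z1],.contra [y1,y1,z1],.ref k6 k0 [(z2,[z1]),(z2,[y1,y2,z2])],.contra [z1],
    .ref k3 k1 [(z1,[z0,z1]),(z1,[y1,y3,z3])]]),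
    .old (.lp [k6,k6,k0,k0,k4,k6] [k0,k0,k0,k0,k3,k3,k3,k3,k1,k1,k0,k0] k0 [] k12 k5
    [[(k4,k3)],[(k5,k3),(k6,k3)],[(k9,k5),(k2,k6)],[(k8,k5),(k3,k6)],[(k0,k3),(k11,k3)],[(k1,k3)],[(k10,k3)],[(k0,k3),
    (k11,k3)],[(k8,k4),(k3,k5)],[(k9,k4),(k2,k5)],[(k5,k3),(k6,k3)],[(k7,k3)]]
    [] k0
    [[k1,k0,k1,k0,k0,k0],[k0,k1,k0,k0,k1,k0],[k0,k0,k0,k1,k0,k1],[k0,k0,k0,k0,k2,k0]]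
    [.ref k7 k1 [(z1,[z1])],.ref k0 k1 [(z1,[y1,z1])],.ref k7 k0 [(z1,[z1])],.contra [z1]])]⟩

/-- classes `0 0 1 0 0 1`, types `N0 N1 N0 N2 N3 N2` -/
noncomputable def cU6_784 : CertX :=
  ⟨[k12,k13,k28,k14,k15,k30],[(true,k2,[k2,k1,k0,k5,k4,k3]),(false,k0,[k0,k1,k2,k3,k4,k5])],[[[([z1,z0,z0,z1,z0,z0],
    z1),([z0,z1,z0,z0,z1,z0],z1)],[([z1,z0,z0,z1,z0,z0],z2)],[([z1,z0,z0,z1,z0,z0],z1),([z0,z1,z0,z0,z1,z0],z2)],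
    [([z1,z0,z1,z1,z0,z1],z2)],[]]],
    [.old (.leafM k7 [k0,k1,k3,k4] [(z1,[z0,z1])] [(k2,k5,z1,[y1,y1,z1]),(k5,k2,z1,[y1,y1,z1])]),
    .old (.lp [k96,k130,k0,k106,k42,k96] [k40,k40,k23,k23,k88,k88,k0,k70,k67,k67,k40,k40] k0 [[],[k0,k0,k0,k0,k0,k0,k38],
    [k0,k0,k0,k0,k0,k0,k0,k0,k0,k24],[],[],[],[k0,k0,k0,k0,k0,k0,k0,k0,k88],[k38],[k0,k0,k0,k24],[k0,k0,k0,k0,k0,k0,
    k0,k88]] (nat_lit 240) k6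
    [[(k7,k66)],[(k5,k48),(k6,k174)],[(k9,k48),(k2,k130)],[(k8,k62),(k3,k130)],[(k0,k48),(k11,k72)],[(k10,k48)],[(k1,
    k66)],[(k11,k48),(k0,k174)],[(k3,k48),(k8,k130)],[(k2,k62),(k9,k130)],[(k6,k48),(k5,k72)],[(k4,k48)]]
    [] k0
    [[k1,k0,k1,k1,k0,k1],[k0,k1,k0,k0,k1,k0],[k0,k2,k0,k0,k2,k0],[k0,k0,k1,k0,k0,k1]]
    [.contra [z1,y1],.contra [y1,y1,z1],.ref k0 k0 [(z2,[y1,y2,z2]),(z2,[z1])],.contra [y1,y1,z1]]),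
    .old (.leafM k7 [k0,k2,k3,k5] [(z1,[y1,y1,z1])] [(k1,k4,z1,[z0,z1]),(k4,k1,z1,[z0,z1])]),
    .old (.lp [k32,k78,k0,k20,k40,k60] [k23,k23,k0,k0,k39,k39,k29,k29,k19,k19,k9,k9] k0 [[k0,k0,k0,k0,k0,k0,k0,k2],[k0,k0,
    k0,k8],[k8],[],[],[],[k0,k2]] k120 k6
    [[(k7,k26)],[(k5,k24),(k6,k24)],[(k9,k61),(k2,k70)],[(k8,k59),(k3,k70)],[(k0,k24),(k11,k30)],[(k10,k30)],[(k1,
    k26)],[(k0,k24),(k11,k40)],[(k8,k40),(k3,k61)],[(k9,k40),(k2,k59)],[(k5,k30),(k6,k40)],[(k4,k30)]]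
    [] k0
    [[k1,k0,k0,k1,k0,k0],[k2,k0,k0,k2,k0,k0],[k0,k0,k1,k0,k0,k1],[k0,k0,k0,k0,k2,k0]]
    [.contra [y1,z1],.ref k2 k1 [(z2,[z1]),(z1,[z0,y1,z1])],.contra [y1,z1],.contra [y1,y2,z2]]),
    .old (.lp [k6,k6,k0,k0,k4,k6] [k0,k0,k0,k0,k3,k3,k3,k3,k1,k1,k0,k0] k0 [] k12 k5
    [[(k7,k3)],[(k5,k3),(k6,k3)],[(k9,k5),(k2,k6)],[(k8,k5),(k3,k6)],[(k0,k3),(k11,k3)],[(k10,k3)],[(k1,k3)],[(k0,k3),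
    (k11,k3)],[(k8,k4),(k3,k5)],[(k9,k4),(k2,k5)],[(k5,k3),(k6,k3)],[(k4,k3)]]
    [] k0
    [[k1,k0,k0,k1,k0,k0],[k0,k1,k0,k0,k1,k0],[k0,k0,k1,k0,k0,k1],[k0,k0,k0,k0,k2,k0]]
    [.ref k1 k1 [(z1,[z1])],.ref k3 k1 [(z1,[y1,z1])],.ref k1 k0 [(z1,[z1])],.contra [z1]])]⟩

/-- classes `0 0 1 0 0 1`, types `N0 N1 N0 N3 N2 N1` -/
noncomputable def cU6_785 : CertX :=
  ⟨[k12,k13,k28,k15,k14,k29],[(false,k3,[k3,k4,k5,k0,k1,k2]),(false,k0,[k0,k1,k2,k3,k4,k5])],[[[([z1,z0,z1,z0,z1,z0],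
    z2)],[([z1,z0,z1,z0,z0,z0],z1),([z0,z3,z0,z0,z0,z0],z2),([z0,z0,z0,z1,z0,z1],z2)],[([z3,z0,z3,z0,z0,z0],z2),([z0,
    z3,z0,z0,z0,z0],z2),([z0,z0,z0,z1,z0,z1],z2)],[([z1,z0,z1,z0,z0,z0],z2),([z0,z3,z0,z3,z0,z3],z4)],[([z1,z0,z1,z0,
    z0,z0],z1),([z0,z3,z0,z0,z0,z0],z1),([z0,z0,z0,z1,z0,z1],z2)],[([z1,z0,z1,z0,z0,z0],z1),([z0,z2,z0,z0,z0,z0],z1),
    ([z0,z0,z0,z1,z0,z1],z2)],[([z1,z0,z1,z0,z0,z0],z1),([z0,z1,z0,z0,z1,z0],z1)],[([z1,z0,z1,z0,z0,z0],z2)],[]]],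
    [.old (.leafM k5 [k1,k2,k3,k4,k5,k0] [(z1,[z1]),(z1,[y1,z1])] []),
    .old (.leafM k11 [k0,k1,k2,k4] [(z1,[z0,z1]),(z1,[y3,y1,y3,z3]),(z1,[z1])] [(k3,k5,z1,[z0,z0,z1]),(k5,k3,z1,[z0,z0,
    z1])]),
    .old (.leafM k10 [k0,k1,k2,k4] [(z1,[z0,z1]),(z1,[y1,y1,y3,z3]),(z1,[z1])] [(k3,k5,z1,[z0,z0,z1]),(k5,k3,z1,[z0,z0,
    z1])]),
    .old (.lp [(nat_lit 160146),(nat_lit 55104),(nat_lit 53382),(nat_lit 30504),(nat_lit 71176),(nat_lit 55104)] [k0,k0,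
    (nat_lit 52521),(nat_lit 52521),(nat_lit 53382),(nat_lit 53382),(nat_lit 64821),(nat_lit 64821),(nat_lit 44485),
    (nat_lit 44485),(nat_lit 52521),(nat_lit 52521)] k0 [[k0,k0,k0,k0,k0,k0,k0,k0,k0,(nat_lit 72912)],[],[],[],[],[],
    [],[],[k0,(nat_lit 72912)]] (nat_lit 213528) k6
    [[(k4,(nat_lit 106764))],[(k8,(nat_lit 42749)),(k5,(nat_lit 106764))],[(k2,(nat_lit 55104)),(k11,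
    (nat_lit 128016))],[(k6,(nat_lit 42804)),(k3,(nat_lit 55104))],[(k9,(nat_lit 62279)),(k0,(nat_lit 106764))],[(k1,
    (nat_lit 106764))],[(k10,(nat_lit 42804))],[(k2,(nat_lit 42804)),(k11,(nat_lit 42804))],[(k5,(nat_lit 62279)),(k8,
    (nat_lit 71176))],[(k0,(nat_lit 42749)),(k9,(nat_lit 71176))],[(k6,(nat_lit 42804)),(k3,(nat_lit 128016))],[(k7,
    (nat_lit 42804))]]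
    [] k0
    [[k1,k0,k1,k0,k1,k0],[k0,k2,k0,k0,k0,k0],[k0,k3,k0,k0,k0,k0],[k0,k0,k0,k1,k0,k1],[k0,k0,k0,k2,k0,k2],[k0,k0,k0,k0,
    k2,k0]]
    [.contra [y1,y2,y1,z3],.contra [z1],.ref k2 k0 [(z1,[y1,z0,z1]),(z1,[z0,y3,y1,z3]),(z1,[z0,z1])],.contra [y3,z1,
    z1],.ref k1 k0 [(z2,[z1]),(z1,[z0,y3,y1,z3]),(z1,[z0,z1])],.contra [z1]]),
    .old (.leafM k11 [k2,k4,k0,k1] [(z1,[y3,y1,y3,z3]),(z1,[z0,z1]),(z1,[z1])] [(k3,k5,z1,[z0,z0,z1]),(k5,k3,z1,[z0,z0,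
    z1])]),
    .old (.leafM k12 [k0,k1,k2,k4] [(z1,[z0,z1]),(z1,[y2,y1,y2,z2]),(z1,[z1])] [(k3,k5,z1,[z0,z0,z1]),(k5,k3,z1,[z0,z0,
    z1])]),
    .old (.lp [k6,k8,k14,k8,k10,k32] [k13,k13,k12,k12,k9,k9,k12,k12,k11,k11,k0,k0] k0 [] k40 k6
    [[(k4,k10)],[(k8,k8),(k5,k10)],[(k2,k8),(k11,k20)],[(k3,k8),(k6,k8)],[(k0,k10),(k9,k12)],[(k1,k10)],[(k10,k20)],
    [(k2,k8),(k11,k20)],[(k8,k10),(k5,k12)],[(k0,k8),(k9,k10)],[(k3,k20),(k6,k20)],[(k7,k20)]]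
    [] k0
    [[k1,k0,k1,k0,k0,k0],[k1,k0,k1,k0,k1,k0],[k0,k2,k0,k0,k0,k0],[k0,k3,k0,k0,k0,k0],[k0,k4,k0,k0,k0,k0],[k0,k0,k0,k0,
    k2,k0],[k0,k0,k0,k0,k3,k0]]
    [.contra [y1,z2],.contra [z1,y1],.contra [z1],.ref k3 k0 [(z1,[z0,y1,y1,z1]),(z1,[y1,z3,z3])],.ref k5 k1 [(z1,[z0,
    z1]),(z2,[z1]),(z1,[z0,y1,y1,z1])],.contra [z1],.ref k4 k1 [(z1,[z0,z1]),(z1,[y1,z0,z3]),(z1,[z0,y1,y1,z1])]]),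
    .old (.lp [k18,k40,k102,k8,k30,k40] [k42,k42,k31,k31,k0,k0,k47,k47,k36,k36,k31,k31] k0 [] k120 k6
    [[(k4,k60)],[(k8,k24),(k5,k60)],[(k2,k40),(k11,k40)],[(k6,k24),(k3,k40)],[(k0,k60),(k9,k66)],[(k1,k60)],[(k10,
    k24)],[(k2,k24),(k11,k24)],[(k8,k30),(k5,k66)],[(k0,k24),(k9,k30)],[(k6,k24),(k3,k40)],[(k7,k24)]]
    [] k0
    [[k0,k2,k0,k0,k0,k0],[k0,k1,k0,k1,k0,k1],[k0,k0,k0,k1,k0,k1],[k0,k0,k0,k2,k0,k2],[k0,k0,k0,k0,k2,k0],[k0,k0,k0,k0,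
    k3,k0]]
    [.contra [z1],.contra [y1,y1,z1],.contra [y1,y1,z1],.ref k6 k0 [(z2,[z1]),(z2,[y1,y2,z2])],.contra [z1],
    .ref k3 k1 [(z1,[z0,z1]),(z1,[y1,y3,z3])]]),
    .old (.lp [k2,k6,k4,k0,k4,k6] [k2,k2,k0,k0,k1,k1,k3,k3,k1,k1,k0,k0] k0 [] k12 k5
    [[(k4,k3)],[(k5,k3),(k8,k3)],[(k2,k6),(k11,k6)],[(k6,k3),(k3,k6)],[(k0,k3),(k9,k4)],[(k1,k3)],[(k10,k3)],[(k2,k3),
    (k11,k3)],[(k5,k4),(k8,k4)],[(k0,k3),(k9,k4)],[(k6,k3),(k3,k6)],[(k7,k3)]]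
    [] k0
    [[k1,k0,k1,k0,k0,k0],[k1,k0,k1,k0,k1,k0],[k0,k0,k0,k1,k0,k1],[k0,k0,k0,k0,k2,k0]]
    [.ref k7 k1 [(z1,[z1])],.ref k0 k1 [(z1,[z1])],.ref k7 k0 [(z1,[z1])],.contra [z1]])]⟩

/-- classes `0 0 1 0 0 1`, types `N0 N1 N0 N3 N2 N2` -/
noncomputable def cU6_786 : CertX :=
  ⟨[k12,k13,k28,k15,k14,k30],[],[[[]]],
    [.old (.lp [k4,k6,k2,k2,k4,k4] [k1,k1,k0,k0,k2,k2,k2,k2,k1,k1,k1,k1] k0 [] k12 k5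
    [[(k7,k3)],[(k5,k3),(k8,k4)],[(k11,k5),(k2,k6)],[(k6,k4),(k3,k6)],[(k0,k3),(k9,k3)],[(k10,k3)],[(k1,k3)],[(k11,
    k3),(k2,k4)],[(k5,k3),(k8,k4)],[(k0,k4),(k9,k4)],[(k6,k3),(k3,k5)],[(k4,k3)]]
    [] k0
    [[k0,k0,k0,k0,k2,k0]]
    [.contra [z1]])]⟩

/-- classes `0 0 1 0 0 1`, types `N0 N1 S0 N0 N1 S0` -/
noncomputable def cU6_787 : CertX :=
  ⟨[k12,k13,k16,k12,k13,k16],[(false,k3,[k3,k4,k5,k0,k1,k2]),(false,k0,[k0,k1,k2,k3,k4,k5]),(true,k2,[k2,k1,k0,k5,k4,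
    k3]),(true,k5,[k5,k4,k3,k2,k1,k0])],[[[([z1,z0,z1,z1,z0,z1],z2)],[([z1,z0,z1,z0,z0,z0],z1),([z0,z3,z0,z0,z0,z0],
    z1),([z0,z0,z0,z1,z0,z1],z2)],[([z1,z0,z1,z0,z0,z0],z1),([z0,z2,z0,z0,z0,z0],z1),([z0,z0,z0,z1,z0,z1],z2)],[([z1,
    z0,z0,z0,z0,z1],z1),([z0,z1,z0,z0,z1,z0],z1)],[([z1,z0,z1,z0,z0,z0],z1),([z0,z3,z0,z0,z0,z0],z2),([z0,z0,z0,z1,z0,
    z1],z2)],[([z1,z0,z1,z0,z0,z0],z1),([z0,z1,z0,z0,z1,z0],z1)],[([z3,z0,z3,z0,z0,z0],z2),([z0,z3,z0,z0,z0,z0],z2),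
    ([z0,z0,z0,z1,z0,z1],z2)],[([z1,z0,z0,z0,y1,z1],z0),([z0,z1,z0,z0,z2,z0],z2),([z0,z0,z1,z0,z1,y1],z2)],[([z1,z0,
    z0,z0,y1,z1],z0),([z0,z1,z0,z0,z2,z0],z2),([z0,z0,z1,z0,z0,y1],z0)],[([z1,z0,z0,z0,z0,z1],z2),([z0,z3,z0,z0,z0,
    z0],z2),([z0,z0,z1,z0,z0,y1],z0)],[([z1,z0,z0,y1,z0,z0],z0),([z0,z1,z0,z1,z1,z1],z2)],[([z1,z0,z1,z0,z0,z0],z2),
    ([z0,z3,z0,z0,z0,z0],z2)]],[[([z1,z0,z1,z0,z0,z0],z2)],[([z3,z0,z0,z0,z0,z3],z2),([z0,z3,z0,z0,z0,z0],z2),([z0,z0,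
    z3,z0,z0,y3],z2),([z0,z0,z0,z3,z0,z3],z4)],[([z3,z0,z0,z0,z0,z3],z2),([z0,z3,z0,z0,z0,z0],z2),([z0,z0,z1,z1,z0,
    z0],z2)],[([z1,z0,z0,z0,y1,z1],z0),([z0,z1,z0,z0,z2,z0],z2)],[([z1,z0,z0,z0,z0,z1],z2)],[]]],
    [.old (.leafM k5 [k0,k2,k3,k5] [] [(k1,k4,z1,[y1,z1]),(k4,k1,z1,[y1,z1])]),
    .old (.leafM k11 [k2,k4,k0,k1] [(z1,[y3,y1,y3,z3]),(z1,[z0,z1]),(z1,[z1])] [(k3,k5,z1,[z0,z0,z1]),(k5,k3,z1,[z0,z0,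
    z1])]),
    .old (.leafM k12 [k0,k1,k2,k4] [(z1,[z0,z1]),(z1,[y2,y1,y2,z2]),(z1,[z1])] [(k3,k5,z1,[z0,z0,z1]),(k5,k3,z1,[z0,z0,
    z1])]),
    .old (.leafM k4 [k0,k1,k4,k5] [(z1,[z0,z1])] [(k2,k3,z1,[y1,y1,z1]),(k3,k2,z1,[y1,y1,z1])]),
    .old (.leafM k11 [k0,k1,k2,k4] [(z1,[z0,z1]),(z1,[y3,y1,y3,z3]),(z1,[z1])] [(k3,k5,z1,[z0,z0,z1]),(k5,k3,z1,[z0,z0,
    z1])]),
    .old (.lp [k72,k60,k48,k88,k50,k152] [k40,k40,k46,k46,k52,k52,k32,k32,k51,k51,k0,k0] k0 [[k0,k0,k0,k0,k0,k0,k0,k0,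
    k64],[],[],[k0,k0,k0,k0,k0,k0,k0,k16],[],[],[k0,k0,k16],[],[],[k0,k64]] (nat_lit 240) k6
    [[(k4,k60),(k1,k72),(k7,k80),(k10,k112)],[(k11,k48),(k5,k60)],[(k2,k60),(k8,k119)],[(k3,k60),(k9,k71)],[(k6,k52),
    (k0,k60)],[(k4,k48),(k1,k60),(k7,k68),(k10,k100)],[(k4,k68),(k1,k80),(k7,k88),(k10,k120)],[(k5,k52),(k11,k120)],
    [(k8,k50),(k2,k71)],[(k9,k50),(k3,k119)],[(k0,k48),(k6,k120)],[(k4,k100),(k1,k112),(k7,k120),(k10,k152)]]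
    [] k0
    [[k1,k0,k1,k0,k0,k0],[k1,k0,k0,k0,k0,k1],[k0,k2,k0,k0,k0,k0],[k0,k3,k0,k0,k0,k0],[k0,k1,k0,k0,k1,k0],[k0,k0,k1,k1,
    k0,k0],[k0,k0,k0,k0,k2,k0],[k0,k0,k0,k0,k3,k0],[k0,k0,k0,k0,k4,k0]]
    [.contra [y1,z2],.ref k3 k0 [(z1,[y1,z0,y1,z1]),(z1,[z0,z0,z1])],.contra [z1],.ref k4 k1 [(z1,[z0,z1]),(z1,[z1]),
    (z1,[z0,y1,y1,z1])],.contra [y1,z1,z1],.ref k3 k1 [(z1,[y1,z0,y1,z1]),(z1,[z0,z0,z1])],.contra [z1],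
    .ref k1 k1 [(z1,[z0,z1]),(z1,[y1,z0,z3]),(z1,[z0,y1,y1,z1])],.ref k2 k1 [(z1,[z0,z1]),(z2,[y1,z0,z4]),(z1,[z0,y1,
    y1,z1])]]),
    .old (.leafM k10 [k0,k1,k2,k4] [(z1,[z0,z1]),(z1,[y1,y1,y3,z3]),(z1,[z1])] [(k3,k5,z1,[z0,z0,z1]),(k5,k3,z1,[z0,z0,
    z1])]),
    .old (.lp [k8,k12,k40,k8,k18,k8] [k16,k16,k14,k14,k0,k0,k16,k16,k11,k11,k16,k16] k0 [] k48 k7
    [[(k1,k8),(k7,k8),(k10,k8),(k4,k24)],[(k11,k8),(k5,k24)],[(k2,k12),(k8,k15)],[(k3,k12),(k9,k15)],[(k0,k24),(k6,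
    k24)],[(k1,k24),(k7,k24),(k10,k24),(k4,k40)],[(k1,k8),(k7,k8),(k10,k8),(k4,k24)],[(k11,k8),(k5,k24)],[(k2,k15),
    (k8,k18)],[(k3,k15),(k9,k18)],[(k0,k8),(k6,k8)],[(k1,k8),(k7,k8),(k10,k8),(k4,k24)]]
    [] k0
    [[k2,k0,k0,k0,k0,k2],[k1,k0,k0,k1,k0,k2],[k1,k0,k0,k0,k0,k1],[k0,k2,k0,k0,k0,k0],[k0,k3,k0,k0,k0,k0],[k0,k2,k0,k0,
    k1,k0],[k0,k1,k0,k0,k1,k0],[k0,k0,k0,k2,k0,k2],[k0,k0,k0,k1,k0,k1],[k0,k0,k0,k0,k2,k0]]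
    [.contra [z1,y2],.contra [z1,z0,z1,z1,y1],.contra [y2,z3,z1,z1],.contra [z1],.ref k6 k0 [(z2,[y1,y6,y3,y6,z6]),
    (z2,[y1,z0,z3]),(z1,[z0,z1,z0,z1])],.ref k6 k0 [(z1,[y1,y3,y1,y3,z3]),(z1,[y1,z0,z2]),(z1,[z0,z1,z0,z1])],
    .contra [y1,z0,z1],.contra [z1,z2,z2,z2,y2],.contra [y2,y1,y1,y1,z2],.contra [z1]]),
    .old (.lp [k8,k12,k8,k40,k18,k8] [k16,k16,k14,k14,k16,k16,k0,k0,k11,k11,k16,k16] k0 [] k48 k7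
    [[(k1,k8),(k4,k8),(k10,k8),(k7,k24)],[(k5,k8),(k11,k8)],[(k2,k12),(k8,k15)],[(k3,k12),(k9,k15)],[(k0,k8),(k6,
    k24)],[(k1,k8),(k4,k8),(k10,k8),(k7,k24)],[(k1,k24),(k4,k24),(k10,k24),(k7,k40)],[(k5,k24),(k11,k24)],[(k2,k15),
    (k8,k18)],[(k3,k15),(k9,k18)],[(k0,k8),(k6,k24)],[(k1,k8),(k4,k8),(k10,k8),(k7,k24)]]
    [] k0
    [[k2,k0,k2,k0,k0,k0],[k2,k0,k1,k0,k0,k1],[k2,k0,k0,k0,k0,k2],[k1,k0,k1,k0,k0,k0],[k1,k0,k0,k0,k0,k1],[k0,k2,k0,k0,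
    k0,k0],[k0,k3,k0,k0,k0,k0],[k0,k2,k0,k0,k1,k0],[k0,k1,k0,k0,k1,k0],[k0,k0,k0,k0,k2,k0]]
    [.contra [z1,y2,z0,y2],.contra [z1,y2,z0,y1],.contra [z1,y2],.contra [y1,z2,z1,z2],.contra [y1,z2,z1,z1],
    .contra [z1],.ref k6 k1 [(z2,[y1,z6,z3,z6]),(z1,[z1]),(z1,[z0,y1,y1,y1,z1])],.ref k6 k1 [(z1,[y1,z3,z2,z3]),(z1,
    [z2,z0,y1]),(z1,[z0,y1,y1,y1,z1])],.contra [y1,z1,z1,z1],.contra [z1]]),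
    .old (.lp [k96,k40,k24,k24,k30,k24] [k0,k0,k28,k28,k36,k36,k36,k36,k33,k33,k36,k36] k0 [] k120 k6
    [[(k4,k60),(k7,k60),(k10,k60),(k1,k96)],[(k5,k60),(k11,k60)],[(k8,k35),(k2,k40)],[(k9,k35),(k3,k40)],[(k6,k24),
    (k0,k60)],[(k4,k24),(k7,k24),(k10,k24),(k1,k60)],[(k4,k24),(k7,k24),(k10,k24),(k1,k60)],[(k5,k24),(k11,k24)],[(k8,
    k30),(k2,k35)],[(k9,k30),(k3,k35)],[(k6,k24),(k0,k60)],[(k4,k24),(k7,k24),(k10,k24),(k1,k60)]]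
    [] k0
    [[k0,k2,k0,k0,k0,k0],[k0,k2,k0,k0,k1,k0],[k0,k1,k0,k0,k1,k0],[k0,k1,k0,k0,k2,k0],[k0,k0,k1,k1,k0,k0],[k0,k0,k2,k2,
    k0,k0],[k0,k0,k1,k2,k0,k1],[k0,k0,k0,k2,k0,k2],[k0,k0,k0,k1,k0,k1],[k0,k0,k0,k0,k2,k0],[k0,k0,k0,k0,k3,k0]]
    [.contra [z1],.ref k6 k0 [(z1,[y3,y3,z1,y3,z3]),(z1,[z3,z0,y2]),(z1,[z0,z1,z0,z1])],.contra [y1,y1,z0,z0,z1],
    .ref k6 k0 [(z2,[y3,y6,y1,y6,z6]),(z2,[z3,z0,y1]),(z1,[z0,z1,z0,z1])],.contra [y1,y1,z0,z0,z1],.ref k3 k0 [(z2,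
    [z1]),(z2,[y1,y2,z0,z0,z2])],.ref k3 k0 [(z2,[z1,z0,z0,z1]),(z2,[y1,y2,z0,y1,z2])],.ref k3 k0 [(z2,[z1,z0,z0,z2]),
    (z2,[y1,y2,z0,y2,z2])],.contra [y1,y1,z0,y1,z1],.contra [z1],.ref k6 k0 [(z1,[y1,y3,y1,y3,z3]),(z1,[z1]),(z1,[z0,
    z1,z0,z1])]]),
    .old (.lp [k24,k30,k96,k24,k40,k24] [k36,k36,k33,k33,k0,k0,k36,k36,k28,k28,k36,k36] k0 [] k120 k6
    [[(k1,k24),(k7,k24),(k10,k24),(k4,k60)],[(k11,k24),(k5,k60)],[(k2,k30),(k8,k35)],[(k3,k30),(k9,k35)],[(k0,k60),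
    (k6,k60)],[(k1,k60),(k7,k60),(k10,k60),(k4,k96)],[(k1,k24),(k7,k24),(k10,k24),(k4,k60)],[(k11,k24),(k5,k60)],[(k2,
    k35),(k8,k40)],[(k3,k35),(k9,k40)],[(k0,k24),(k6,k24)],[(k1,k24),(k7,k24),(k10,k24),(k4,k60)]]
    [] k0
    [[k2,k0,k0,k0,k0,k2],[k1,k0,k0,k1,k0,k2],[k1,k0,k0,k0,k0,k1],[k0,k2,k0,k0,k0,k0],[k0,k3,k0,k0,k0,k0],[k0,k2,k0,k0,
    k1,k0],[k0,k1,k0,k0,k1,k0],[k0,k1,k0,k0,k2,k0],[k0,k0,k0,k2,k0,k2],[k0,k0,k0,k1,k0,k1],[k0,k0,k0,k0,k2,k0]]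
    [.ref k3 k1 [(z2,[z1]),(z2,[y1,z2,z2])],.ref k3 k1 [(z2,[z1,z1]),(z2,[y1,z1,z2])],.contra [y1,z1,z1],.contra [z1],
    .ref k9 k2 [(z1,[z0,y1,y1,z1]),(z1,[z1]),(z1,[z0,z1])],.ref k8 k3 [(z1,[y1,z1,z1]),(z1,[z1]),(z1,[z0,y1])],
    .contra [y1,z1,z1],.ref k7 k1 [(z1,[y1,z1,z1]),(z1,[z1]),(z1,[z1,y1,y2,z1])],.ref k3 k1 [(z2,[z1,z2]),(z2,[y1,z0,
    z2])],.contra [y1,z0,z1],.contra [z1]]),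
    .old (.lp [(nat_lit 828),(nat_lit 460),(nat_lit 552),(nat_lit 276),(nat_lit 360),(nat_lit 276)] [k0,k0,k184,k184,k138,
    k138,(nat_lit 276),(nat_lit 276),(nat_lit 234),(nat_lit 234),(nat_lit 276),(nat_lit 276)] k0 [[k0,k0,k0,k0,k0,k0,
    k0,k0,(nat_lit 207)],[],[],[],[],[],[],[],[],[k0,(nat_lit 207)]] (nat_lit 1380) k6
    [[(k7,(nat_lit 552)),(k10,(nat_lit 552)),(k4,(nat_lit 690)),(k1,(nat_lit 828))],[(k11,(nat_lit 345)),(k5,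
    (nat_lit 690))],[(k2,(nat_lit 460)),(k8,(nat_lit 617))],[(k9,(nat_lit 410)),(k3,(nat_lit 460))],[(k6,
    (nat_lit 414)),(k0,(nat_lit 690))],[(k7,(nat_lit 414)),(k10,(nat_lit 414)),(k4,(nat_lit 552)),(k1,(nat_lit 690))],
    [(k7,(nat_lit 276)),(k10,(nat_lit 276)),(k4,(nat_lit 414)),(k1,(nat_lit 552))],[(k11,(nat_lit 276)),(k5,
    (nat_lit 414))],[(k8,(nat_lit 360)),(k2,(nat_lit 410))],[(k9,(nat_lit 360)),(k3,(nat_lit 617))],[(k6,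
    (nat_lit 276)),(k0,(nat_lit 345))],[(k7,(nat_lit 276)),(k10,(nat_lit 276)),(k4,(nat_lit 414)),(k1,(nat_lit 552))]]
    [] k0
    [[k1,k0,k0,k0,k0,k1],[k0,k2,k0,k0,k0,k0],[k0,k1,k0,k0,k1,k0],[k0,k0,k1,k1,k0,k0],[k0,k0,k0,k2,k0,k2],[k0,k0,k0,k1,
    k0,k1],[k0,k0,k0,k0,k2,k0],[k0,k0,k0,k0,k3,k0]]
    [.ref k10 k2 [(z1,[y1,z1]),(z1,[z0,y1,z0,z1])],.contra [z1],.contra [y1,y1,z0,z1],.ref k10 k1 [(z1,[y1,z1]),(z1,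
    [z0,y1,z0,z1])],.ref k5 k0 [(z2,[z1]),(z2,[y1,y2,z0,z2])],.contra [y1,y1,z0,z1],.contra [z1],.ref k6 k0 [(z1,[y1,
    y3,y1,z3]),(z1,[z1]),(z1,[z0,z1])]]),
    .old (.lp [(nat_lit 828),(nat_lit 360),(nat_lit 552),(nat_lit 276),(nat_lit 460),(nat_lit 276)] [k0,k0,(nat_lit 234),
    (nat_lit 234),k138,k138,(nat_lit 276),(nat_lit 276),k184,k184,(nat_lit 276),(nat_lit 276)] k0 [[k0,k0,k0,k0,k0,k0,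
    k0,k0,(nat_lit 207)],[],[],[],[],[],[],[],[],[k0,(nat_lit 207)]] (nat_lit 1380) k6
    [[(k7,(nat_lit 552)),(k10,(nat_lit 552)),(k4,(nat_lit 690)),(k1,(nat_lit 828))],[(k11,(nat_lit 345)),(k5,
    (nat_lit 690))],[(k2,(nat_lit 360)),(k8,(nat_lit 617))],[(k3,(nat_lit 360)),(k9,(nat_lit 410))],[(k6,
    (nat_lit 414)),(k0,(nat_lit 690))],[(k7,(nat_lit 414)),(k10,(nat_lit 414)),(k4,(nat_lit 552)),(k1,(nat_lit 690))],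
    [(k7,(nat_lit 276)),(k10,(nat_lit 276)),(k4,(nat_lit 414)),(k1,(nat_lit 552))],[(k11,(nat_lit 276)),(k5,
    (nat_lit 414))],[(k2,(nat_lit 410)),(k8,(nat_lit 460))],[(k9,(nat_lit 460)),(k3,(nat_lit 617))],[(k6,
    (nat_lit 276)),(k0,(nat_lit 345))],[(k7,(nat_lit 276)),(k10,(nat_lit 276)),(k4,(nat_lit 414)),(k1,(nat_lit 552))]]
    [] k0
    [[k1,k0,k0,k0,k0,k1],[k0,k2,k0,k0,k0,k0],[k0,k3,k0,k0,k0,k0],[k0,k1,k0,k0,k1,k0],[k0,k0,k1,k1,k0,k0],[k0,k0,k0,k2,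
    k0,k2],[k0,k0,k0,k1,k0,k1],[k0,k0,k0,k0,k2,k0]]
    [.ref k10 k2 [(z1,[y1,z1]),(z1,[z0,y1,z1])],.contra [z1],.ref k11 k1 [(z1,[z0,z1]),(z1,[z1])],.contra [y1,y1,z1],
    .ref k10 k1 [(z1,[y1,z1]),(z1,[z0,y1,z1])],.ref k5 k0 [(z2,[z1]),(z2,[y1,y2,z2])],.contra [y1,y1,z1],
    .contra [z1]]),
    .old (.tor k19 false k0 [(z3,[z0,z0,z1,z1]),(z3,[y2,y1,y2,y2,z6]),(z3,[y1,z1,y1,y1,z3]),(z3,[z1,z0,z0,z1]),(z3,[z2,z0,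
    z1])]),
    .old (.lp [(nat_lit 396),(nat_lit 440),(nat_lit 1188),(nat_lit 792),(nat_lit 720),(nat_lit 396)] [(nat_lit 396),
    (nat_lit 396),(nat_lit 374),(nat_lit 374),k0,k0,k198,k198,(nat_lit 234),(nat_lit 234),(nat_lit 396),
    (nat_lit 396)] k0 [[k0,k0,(nat_lit 396)],[],[],[k0,(nat_lit 396)],[],[],[k0,k0,k0,k0,k0,k0,k0,k0,k165],[],[],[k0,
    k0,k0,k0,k0,k0,k0,k165]] (nat_lit 1980) k6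
    [[(k1,(nat_lit 396)),(k10,(nat_lit 396)),(k7,(nat_lit 594)),(k4,(nat_lit 792))],[(k5,(nat_lit 396)),(k11,
    (nat_lit 396))],[(k8,(nat_lit 580)),(k2,(nat_lit 836))],[(k9,(nat_lit 580)),(k3,(nat_lit 836))],[(k0,
    (nat_lit 396)),(k6,(nat_lit 990))],[(k1,(nat_lit 792)),(k10,(nat_lit 792)),(k7,(nat_lit 990)),(k4,
    (nat_lit 1188))],[(k1,(nat_lit 594)),(k10,(nat_lit 594)),(k7,(nat_lit 792)),(k4,(nat_lit 990))],[(k11,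
    (nat_lit 429)),(k5,(nat_lit 990))],[(k2,(nat_lit 580)),(k8,(nat_lit 885))],[(k3,(nat_lit 580)),(k9,
    (nat_lit 885))],[(k0,(nat_lit 396)),(k6,(nat_lit 429))],[(k1,(nat_lit 396)),(k10,(nat_lit 396)),(k7,
    (nat_lit 594)),(k4,(nat_lit 792))]]
    [] k0
    [[k2,k0,k0,k0,k0,k2],[k1,k0,k1,k0,k0,k0],[k1,k0,k0,k1,k0,k2],[k1,k0,k0,k0,k0,k1],[k0,k2,k0,k0,k0,k0],[k0,k1,k0,k0,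
    k1,k0],[k0,k0,k0,k1,k0,k1],[k0,k0,k0,k0,k2,k0]]
    [.contra [z3,y2,z2],.ref k12 k1 [(z1,[z1])],.ref k13 k1 [(z1,[z0,z1]),(z1,[z0,z0,z1]),(z1,[y3,z1,z0,z3]),(z1,[z3,
    y1])],.contra [z3,y1,z4],.contra [z1],.contra [z3,z1,z2,z3,y3],.ref k12 k0 [(z1,[z1])],.contra [z3,z2,z4,z6,y6]]),
    .old (.lp [(nat_lit 2310),(nat_lit 1540),(nat_lit 4620),(nat_lit 4620),(nat_lit 3360),(nat_lit 1848)] [(nat_lit 1155),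
    (nat_lit 1155),(nat_lit 1540),(nat_lit 1540),k0,k0,k0,k0,(nat_lit 630),(nat_lit 630),(nat_lit 1386),
    (nat_lit 1386)] k0 [[k0,k0,(nat_lit 1540)],[],[],[k0,(nat_lit 1540)],[],[],[k0,k0,k0,k0,k0,k0,k0,k0,
    (nat_lit 1320)],[],[],[k0,k0,k0,k0,k0,k0,k0,(nat_lit 1320)]] (nat_lit 9240) k6
    [[(k10,(nat_lit 2079)),(k1,(nat_lit 2310)),(k4,(nat_lit 3465)),(k7,(nat_lit 3465))],[(k5,(nat_lit 1925)),(k11,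
    (nat_lit 2079))],[(k8,(nat_lit 2450)),(k2,(nat_lit 3080))],[(k9,(nat_lit 2450)),(k3,(nat_lit 3080))],[(k0,
    (nat_lit 1925)),(k6,(nat_lit 4620))],[(k10,(nat_lit 3234)),(k1,(nat_lit 3465)),(k4,(nat_lit 4620)),(k7,
    (nat_lit 4620))],[(k10,(nat_lit 3234)),(k1,(nat_lit 3465)),(k4,(nat_lit 4620)),(k7,(nat_lit 4620))],[(k11,
    (nat_lit 1914)),(k5,(nat_lit 4620))],[(k2,(nat_lit 2450)),(k8,(nat_lit 4680))],[(k3,(nat_lit 2450)),(k9,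
    (nat_lit 4680))],[(k6,(nat_lit 1914)),(k0,(nat_lit 2079))],[(k10,(nat_lit 1848)),(k1,(nat_lit 2079)),(k4,
    (nat_lit 3234)),(k7,(nat_lit 3234))]]
    [] k0
    [[k2,k0,k0,k0,k0,k2],[k1,k0,k1,k0,k0,k0],[k1,k0,k0,k0,k0,k1],[k0,k2,k0,k0,k0,k0],[k0,k2,k0,k0,k1,k0],[k0,k1,k0,k0,
    k1,k0],[k0,k0,k0,k1,k0,k1]]
    [.contra [z1,y2],.ref k12 k1 [(z1,[z1])],.contra [y2,z1,z0,z1],.contra [z1],.ref k14 k1 [(z1,[y1,z3,z2]),(z1,[z2,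
    z0,y1]),(z1,[z0,y1,y1,z1])],.contra [y1,z0,z1],.ref k12 k0 [(z1,[z1])]]),
    .old (.lp [(nat_lit 5040),(nat_lit 1540),(nat_lit 1848),(nat_lit 2310),(nat_lit 3360),(nat_lit 4200)] [k0,k0,
    (nat_lit 1750),(nat_lit 1750),(nat_lit 1596),(nat_lit 1596),(nat_lit 1365),(nat_lit 1365),(nat_lit 840),
    (nat_lit 840),(nat_lit 420),(nat_lit 420)] k0 [[k0,k0,(nat_lit 1540)],[],[],[k0,(nat_lit 1540)],[],[],[k0,k0,k0,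
    k0,k0,k0,k0,k0,(nat_lit 1320)],[],[],[k0,k0,k0,k0,k0,k0,k0,(nat_lit 1320)]] (nat_lit 9240) k6
    [[(k4,(nat_lit 3444)),(k7,(nat_lit 3675)),(k10,(nat_lit 4620)),(k1,(nat_lit 5040))],[(k5,(nat_lit 1904)),(k11,
    (nat_lit 4620))],[(k8,(nat_lit 2450)),(k2,(nat_lit 3080))],[(k9,(nat_lit 2450)),(k3,(nat_lit 3080))],[(k0,
    (nat_lit 1904)),(k6,(nat_lit 2079))],[(k4,(nat_lit 1848)),(k7,(nat_lit 2079)),(k10,(nat_lit 3024)),(k1,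
    (nat_lit 3444))],[(k4,(nat_lit 2079)),(k7,(nat_lit 2310)),(k10,(nat_lit 3255)),(k1,(nat_lit 3675))],[(k11,
    (nat_lit 1935)),(k5,(nat_lit 2079))],[(k2,(nat_lit 2450)),(k8,(nat_lit 4680))],[(k3,(nat_lit 2450)),(k9,
    (nat_lit 4680))],[(k6,(nat_lit 1935)),(k0,(nat_lit 4620))],[(k4,(nat_lit 3024)),(k7,(nat_lit 3255)),(k10,
    (nat_lit 4200)),(k1,(nat_lit 4620))]]
    [] k0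
    [[k1,k0,k1,k0,k0,k0],[k0,k2,k0,k0,k0,k0],[k0,k2,k0,k0,k1,k0],[k0,k1,k0,k0,k1,k0],[k0,k0,k1,k1,k0,k0],[k0,k0,k2,k2,
    k0,k0],[k0,k0,k0,k1,k0,k1]]
    [.ref k12 k1 [(z1,[z1])],.contra [z1],.ref k15 k0 [(z1,[y1,y1,z1]),(z1,[z1])],.contra [y1,y1,z1],.contra [y1,y1,
    z1],.ref k3 k0 [(z2,[z1]),(z2,[y1,y2,z2])],.ref k12 k0 [(z1,[z1])]]),
    .old (.lp [k6,k8,k6,k6,k12,k6] [k3,k3,k2,k2,k3,k3,k3,k3,k0,k0,k3,k3] k0 [] k24 k5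
    [[(k1,k6),(k4,k6),(k7,k6),(k10,k6)],[(k5,k6),(k11,k6)],[(k2,k8),(k8,k10)],[(k3,k8),(k9,k10)],[(k0,k6),(k6,k6)],
    [(k1,k6),(k4,k6),(k7,k6),(k10,k6)],[(k1,k6),(k4,k6),(k7,k6),(k10,k6)],[(k5,k6),(k11,k6)],[(k2,k10),(k8,k12)],[(k3,
    k10),(k9,k12)],[(k0,k6),(k6,k6)],[(k1,k6),(k4,k6),(k7,k6),(k10,k6)]]
    [] k0
    [[k1,k0,k1,k0,k0,k0],[k1,k0,k0,k0,k0,k1],[k0,k2,k0,k0,k0,k0],[k0,k1,k0,k0,k1,k0],[k0,k0,k1,k1,k0,k0],[k0,k0,k0,k1,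
    k0,k1]]
    [.ref k12 k1 [(z1,[z1])],.ref k16 k1 [(z1,[z1])],.contra [z1],.ref k0 k1 [(z1,[y1,z1])],.ref k16 k0 [(z1,[z1])],
    .ref k12 k0 [(z1,[z1])]])]⟩

/-- classes `0 0 1 0 0 1`, types `N0 N1 S0 N0 N2 S0` -/
noncomputable def cU6_788 : CertX :=
  ⟨[k12,k13,k16,k12,k14,k16],[(false,k0,[k0,k1,k2,k3,k4,k5])],[[[([z1,z1,z0,z0,z1,z1],z2)],[([z1,z0,z1,z0,z0,z0],z2)],
    []]],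
    [.old (.leafM k2 [k1,k4,k5,k0] [] [(k2,k3,z1,[y1,z1]),(k3,k2,z1,[y1,z1])]),
    .old (.lp [(nat_lit 4416),(nat_lit 2024),(nat_lit 1656),(nat_lit 1380),(nat_lit 1056),(nat_lit 1380)] [k0,k0,
    (nat_lit 1196),(nat_lit 1196),(nat_lit 1380),(nat_lit 1380),(nat_lit 1518),(nat_lit 1518),(nat_lit 1680),
    (nat_lit 1680),(nat_lit 1518),(nat_lit 1518)] k0 [[k0,k0,k0,k0,k0,k0,k0,k0,k0,(nat_lit 253)],[],[],[],[],[],[],[],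
    [k0,(nat_lit 253)]] (nat_lit 6072) k6
    [[(k7,(nat_lit 2898)),(k10,(nat_lit 2898)),(k4,(nat_lit 3036)),(k1,(nat_lit 4416))],[(k8,(nat_lit 2483)),(k5,
    (nat_lit 3036))],[(k11,(nat_lit 1955)),(k2,(nat_lit 2024))],[(k9,(nat_lit 1540)),(k3,(nat_lit 2024))],[(k6,
    (nat_lit 1518)),(k0,(nat_lit 3036))],[(k7,(nat_lit 1518)),(k10,(nat_lit 1518)),(k4,(nat_lit 1656)),(k1,
    (nat_lit 3036))],[(k7,(nat_lit 1380)),(k10,(nat_lit 1380)),(k4,(nat_lit 1518)),(k1,(nat_lit 2898))],[(k8,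
    (nat_lit 1218)),(k5,(nat_lit 1518))],[(k11,(nat_lit 1218)),(k2,(nat_lit 1540))],[(k6,(nat_lit 1218)),(k0,
    (nat_lit 2483))],[(k9,(nat_lit 1218)),(k3,(nat_lit 1955))],[(k7,(nat_lit 1380)),(k10,(nat_lit 1380)),(k4,
    (nat_lit 1518)),(k1,(nat_lit 2898))]]
    [] k0
    [[k0,k2,k0,k0,k0,k0],[k0,k0,k1,k1,k0,k0],[k0,k0,k0,k1,k1,k1]]
    [.contra [z1],.ref k0 k0 [(z1,[y1,z0,z1])],.contra [y1,y1,z1]]),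
    .old (.lp [k6,k8,k6,k6,k6,k12] [k3,k3,k2,k2,k3,k3,k3,k3,k3,k3,k0,k0] k0 [] k24 k5
    [[(k1,k6),(k4,k6),(k7,k6),(k10,k9)],[(k5,k6),(k8,k6)],[(k2,k8),(k11,k10)],[(k9,k7),(k3,k8)],[(k0,k6),(k6,k6)],
    [(k1,k6),(k4,k6),(k7,k6),(k10,k9)],[(k1,k6),(k4,k6),(k7,k6),(k10,k9)],[(k5,k6),(k8,k6)],[(k2,k7),(k11,k9)],[(k0,
    k6),(k6,k6)],[(k9,k9),(k3,k10)],[(k1,k9),(k4,k9),(k7,k9),(k10,k12)]]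
    [] k0
    [[k1,k0,k1,k0,k0,k0],[k0,k2,k0,k0,k0,k0],[k0,k0,k1,k1,k0,k0]]
    [.ref k1 k0 [(z1,[z1])],.contra [z1],.ref k0 k0 [(z1,[y1,z1])]])]⟩

/-- classes `0 0 1 0 0 1`, types `N0 N1 S0 N1 N0 S0` -/
noncomputable def cU6_789 : CertX :=
  ⟨[k12,k13,k16,k13,k12,k16],[(false,k0,[k0,k1,k2,k3,k4,k5]),(false,k3,[k3,k4,k5,k0,k1,k2])],[[[([z1,z0,z1,z0,z1,z0],
    z2)],[([z1,z0,z1,z0,z0,z0],z1),([z0,z3,z0,z0,z0,z0],z1),([z0,z0,z0,z1,z0,z1],z2)],[([z1,z0,z1,z0,z0,z0],z1),([z0,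
    z3,z0,z0,z0,z0],z2),([z0,z0,z0,z1,z0,z1],z2)],[([z1,z0,z1,z0,z0,z0],z1),([z0,z2,z0,z0,z0,z0],z1),([z0,z0,z0,z1,z0,
    z1],z2)],[([z1,z0,z1,z0,z0,z0],z1),([z0,z1,z0,z0,z1,z0],z1)],[([z3,z0,z3,z0,z0,z0],z2),([z0,z3,z0,z0,z0,z0],z2),
    ([z0,z0,z0,z1,z0,z1],z2)],[([z1,z0,z1,z0,z0,z0],z2),([z0,z3,z0,z0,z0,z0],z2)],[([z1,z0,z1,z0,z0,z0],z2)],[]]],
    [.old (.leafM k1 [k0,k1,k2,k3,k4,k5] [(z1,[y1,z1]),(z1,[z1])] []),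
    .old (.leafM k11 [k2,k4,k0,k1] [(z1,[y3,y1,y3,z3]),(z1,[z0,z1]),(z1,[z1])] [(k3,k5,z1,[z0,z0,z1]),(k5,k3,z1,[z0,z0,
    z1])]),
    .old (.leafM k11 [k0,k1,k2,k4] [(z1,[z0,z1]),(z1,[y3,y1,y3,z3]),(z1,[z1])] [(k3,k5,z1,[z0,z0,z1]),(k5,k3,z1,[z0,z0,
    z1])]),
    .old (.leafM k12 [k0,k1,k2,k4] [(z1,[z0,z1]),(z1,[y2,y1,y2,z2]),(z1,[z1])] [(k3,k5,z1,[z0,z0,z1]),(k5,k3,z1,[z0,z0,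
    z1])]),
    .old (.lp [k100,k22,k48,k74,k60,k166] [k33,k33,k72,k72,k59,k59,k46,k46,k53,k53,k0,k0] k0 [[k0,k0,k26],[],[k0,k0,k0,k0,
    k0,k0,k0,k0,k32],[k0,k26],[],[],[],[],[],[k0,k0,k0,k32]] (nat_lit 240) k6
    [[(k4,k74),(k7,k87),(k1,k100),(k10,k133)],[(k5,k48),(k9,k80)],[(k2,k48),(k6,k48)],[(k3,k48),(k11,k62)],[(k0,k48),
    (k8,k86)],[(k4,k48),(k7,k61),(k1,k74),(k10,k107)],[(k4,k61),(k7,k74),(k1,k87),(k10,k120)],[(k3,k48),(k11,k120)],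
    [(k8,k60),(k0,k80)],[(k9,k60),(k5,k86)],[(k2,k62),(k6,k120)],[(k4,k107),(k7,k120),(k1,k133),(k10,k166)]]
    [] k0
    [[k1,k0,k1,k0,k0,k0],[k0,k2,k0,k0,k0,k0],[k0,k3,k0,k0,k0,k0],[k0,k4,k0,k0,k0,k0],[k0,k1,k0,k1,k0,k1],[k0,k0,k0,k0,
    k2,k0],[k0,k0,k0,k0,k3,k0]]
    [.contra [y1,z2],.contra [z1],.ref k2 k0 [(z1,[z0,z1]),(z1,[z1]),(z1,[z0,y1,y1,z1])],.ref k3 k0 [(z1,[z0,z1]),(z2,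
    [z1]),(z1,[z0,y1,y1,z1])],.contra [y1,y1,z0,z1],.contra [z1],.ref k1 k0 [(z1,[z0,z1]),(z1,[y1,z0,z3]),(z1,[z0,y1,
    y1,z1])]]),
    .old (.leafM k10 [k0,k1,k2,k4] [(z1,[z0,z1]),(z1,[y1,y1,y3,z3]),(z1,[z1])] [(k3,k5,z1,[z0,z0,z1]),(k5,k3,z1,[z0,z0,
    z1])]),
    .old (.lp [k96,k40,k24,k24,k30,k24] [k0,k0,k28,k28,k36,k36,k36,k36,k33,k33,k36,k36] k0 [] k120 k6
    [[(k4,k60),(k7,k60),(k10,k60),(k1,k96)],[(k5,k60),(k9,k63)],[(k6,k32),(k2,k40)],[(k11,k32),(k3,k40)],[(k8,k27),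
    (k0,k60)],[(k4,k24),(k7,k24),(k10,k24),(k1,k60)],[(k4,k24),(k7,k24),(k10,k24),(k1,k60)],[(k11,k24),(k3,k32)],[(k8,
    k30),(k0,k63)],[(k5,k27),(k9,k30)],[(k6,k24),(k2,k32)],[(k4,k24),(k7,k24),(k10,k24),(k1,k60)]]
    [] k0
    [[k0,k2,k0,k0,k0,k0],[k0,k1,k0,k1,k0,k1],[k0,k0,k0,k2,k0,k2],[k0,k0,k0,k1,k0,k1],[k0,k0,k0,k0,k2,k0],[k0,k0,k0,k0,
    k3,k0]]
    [.contra [z1],.contra [y1,y1,z0,z1],.ref k4 k1 [(z2,[z1]),(z2,[y1,y2,z0,z2])],.contra [y1,y1,z0,z1],.contra [z1],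
    .ref k5 k1 [(z1,[y1,y3,y1,z3]),(z1,[z1]),(z1,[z0,z1])]]),
    .old (.lp [(nat_lit 1104),(nat_lit 360),(nat_lit 276),(nat_lit 276),(nat_lit 460),(nat_lit 276)] [k0,k0,(nat_lit 372),
    (nat_lit 372),(nat_lit 414),(nat_lit 414),(nat_lit 414),(nat_lit 414),(nat_lit 322),(nat_lit 322),(nat_lit 414),
    (nat_lit 414)] k0 [[k0,k0,k0,k0,k0,k0,k115],[],[],[],[],[],[],[k0,k115]] (nat_lit 1380) k6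
    [[(k4,(nat_lit 690)),(k7,(nat_lit 690)),(k10,(nat_lit 690)),(k1,(nat_lit 1104))],[(k9,(nat_lit 667)),(k5,
    (nat_lit 690))],[(k2,(nat_lit 360)),(k6,(nat_lit 433))],[(k11,(nat_lit 318)),(k3,(nat_lit 360))],[(k8,
    (nat_lit 368)),(k0,(nat_lit 690))],[(k4,(nat_lit 276)),(k7,(nat_lit 276)),(k10,(nat_lit 276)),(k1,(nat_lit 690))],
    [(k4,(nat_lit 276)),(k7,(nat_lit 276)),(k10,(nat_lit 276)),(k1,(nat_lit 690))],[(k11,(nat_lit 276)),(k3,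
    (nat_lit 433))],[(k8,(nat_lit 460)),(k0,(nat_lit 667))],[(k5,(nat_lit 368)),(k9,(nat_lit 460))],[(k6,
    (nat_lit 276)),(k2,(nat_lit 318))],[(k4,(nat_lit 276)),(k7,(nat_lit 276)),(k10,(nat_lit 276)),(k1,(nat_lit 690))]]
    [] k0
    [[k0,k2,k0,k0,k0,k0],[k0,k3,k0,k0,k0,k0],[k0,k1,k0,k1,k0,k1],[k0,k0,k0,k2,k0,k2],[k0,k0,k0,k1,k0,k1],[k0,k0,k0,k0,
    k2,k0]]
    [.contra [z1],.ref k6 k0 [(z1,[z0,z1]),(z1,[z1])],.contra [y1,y1,z1],.ref k4 k1 [(z2,[z1]),(z2,[y1,y2,z2])],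
    .contra [y1,y1,z1],.contra [z1]]),
    .old (.lp [k6,k8,k6,k6,k12,k6] [k3,k3,k2,k2,k3,k3,k3,k3,k0,k0,k3,k3] k0 [] k24 k5
    [[(k1,k6),(k4,k6),(k7,k6),(k10,k6)],[(k5,k6),(k9,k9)],[(k6,k7),(k2,k8)],[(k11,k7),(k3,k8)],[(k0,k6),(k8,k9)],[(k1,
    k6),(k4,k6),(k7,k6),(k10,k6)],[(k1,k6),(k4,k6),(k7,k6),(k10,k6)],[(k11,k6),(k3,k7)],[(k0,k9),(k8,k12)],[(k5,k9),
    (k9,k12)],[(k6,k6),(k2,k7)],[(k1,k6),(k4,k6),(k7,k6),(k10,k6)]]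
    [] k0
    [[k1,k0,k1,k0,k0,k0],[k0,k2,k0,k0,k0,k0],[k0,k1,k0,k1,k0,k1],[k0,k0,k0,k1,k0,k1]]
    [.ref k7 k0 [(z1,[z1])],.contra [z1],.ref k0 k0 [(z1,[y1,z1])],.ref k7 k1 [(z1,[z1])]])]⟩

/-- classes `0 0 1 0 0 1`, types `N0 N1 S0 N1 N3 S0` -/
noncomputable def cU6_790 : CertX :=
  ⟨[k12,k13,k16,k13,k15,k16],[(false,k0,[k0,k1,k2,k3,k4,k5])],[[[([z1,z1,z0,z1,z1,z0],z2)],[([z1,z0,z1,z0,z0,z0],z2)],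
    []]],
    [.old (.leafM k6 [k0,k1,k3,k4] [] [(k2,k5,z1,[y1,z1]),(k5,k2,z1,[y1,z1])]),
    .old (.lp [(nat_lit 4416),(nat_lit 2024),(nat_lit 1656),(nat_lit 1380),(nat_lit 1056),(nat_lit 1380)] [k0,k0,
    (nat_lit 1196),(nat_lit 1196),(nat_lit 1380),(nat_lit 1380),(nat_lit 1518),(nat_lit 1518),(nat_lit 1680),
    (nat_lit 1680),(nat_lit 1518),(nat_lit 1518)] k0 [[k0,k0,k0,k0,k0,k0,(nat_lit 253)],[],[],[],[],[],[],[k0,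
    (nat_lit 253)]] (nat_lit 6072) k6
    [[(k7,(nat_lit 2898)),(k10,(nat_lit 2898)),(k4,(nat_lit 3036)),(k1,(nat_lit 4416))],[(k9,(nat_lit 2483)),(k5,
    (nat_lit 3036))],[(k6,(nat_lit 1955)),(k2,(nat_lit 2024))],[(k8,(nat_lit 1540)),(k3,(nat_lit 2024))],[(k11,
    (nat_lit 1518)),(k0,(nat_lit 3036))],[(k7,(nat_lit 1518)),(k10,(nat_lit 1518)),(k4,(nat_lit 1656)),(k1,
    (nat_lit 3036))],[(k7,(nat_lit 1380)),(k10,(nat_lit 1380)),(k4,(nat_lit 1518)),(k1,(nat_lit 2898))],[(k8,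
    (nat_lit 1218)),(k3,(nat_lit 1955))],[(k11,(nat_lit 1218)),(k0,(nat_lit 2483))],[(k6,(nat_lit 1218)),(k2,
    (nat_lit 1540))],[(k9,(nat_lit 1218)),(k5,(nat_lit 1518))],[(k7,(nat_lit 1380)),(k10,(nat_lit 1380)),(k4,
    (nat_lit 1518)),(k1,(nat_lit 2898))]]
    [] k0
    [[k0,k2,k0,k0,k0,k0],[k0,k0,k1,k0,k0,k1],[k0,k0,k0,k1,k1,k1]]
    [.contra [z1],.ref k0 k0 [(z1,[y1,z0,z1])],.contra [y1,y1,z1]]),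
    .old (.lp [k6,k8,k6,k12,k6,k6] [k3,k3,k2,k2,k3,k3,k0,k0,k3,k3,k3,k3] k0 [] k24 k5
    [[(k1,k6),(k4,k6),(k10,k6),(k7,k9)],[(k5,k6),(k9,k6)],[(k2,k8),(k6,k10)],[(k8,k7),(k3,k8)],[(k0,k6),(k11,k6)],
    [(k1,k6),(k4,k6),(k10,k6),(k7,k9)],[(k1,k9),(k4,k9),(k10,k9),(k7,k12)],[(k8,k9),(k3,k10)],[(k0,k6),(k11,k6)],[(k2,
    k7),(k6,k9)],[(k5,k6),(k9,k6)],[(k1,k6),(k4,k6),(k10,k6),(k7,k9)]]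
    [] k0
    [[k1,k0,k1,k0,k0,k0],[k0,k2,k0,k0,k0,k0],[k0,k0,k1,k0,k0,k1]]
    [.ref k1 k0 [(z1,[z1])],.contra [z1],.ref k0 k0 [(z1,[y1,z1])]])]⟩

/-- classes `0 0 1 0 0 1`, types `N0 N1 S0 N2 N3 S0` -/
noncomputable def cU6_791 : CertX :=
  ⟨[k12,k13,k16,k14,k15,k16],[(true,k2,[k2,k1,k0,k5,k4,k3]),(false,k0,[k0,k1,k2,k3,k4,k5]),(false,k3,[k3,k4,k5,k0,k1,
    k2]),(true,k5,[k5,k4,k3,k2,k1,k0])],[[[([z1,z0,z1,z1,z0,z1],z2)],[([z1,z0,z1,z0,z0,z0],z1),([z0,z3,z0,z0,z0,z0],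
    z1),([z0,z0,z0,z1,z0,z1],z2)],[([z1,z0,z1,z0,z0,z0],z1),([z0,z2,z0,z0,z0,z0],z1),([z0,z0,z0,z1,z0,z1],z2)],[([z1,
    z0,z0,z1,z0,z0],z1),([z0,z1,z0,z0,z1,z0],z1)],[([z1,z0,z1,z0,z0,z0],z1),([z0,z3,z0,z0,z0,z0],z2),([z0,z0,z0,z1,z0,
    z1],z2)],[([z1,z0,z1,z0,z0,z0],z1),([z0,z1,z0,z0,z1,z0],z1)],[([z3,z0,z3,z0,z0,z0],z2),([z0,z3,z0,z0,z0,z0],z2),
    ([z0,z0,z0,z1,z0,z1],z2)],[([z1,z0,z0,z0,z0,y1],z0),([z0,z2,z0,z0,z1,z0],z2),([z0,z0,z2,z0,z1,z2],z2)],[([z1,z0,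
    z0,z0,y1,y1],y2),([z0,z1,z0,z0,z2,z0],z2),([z0,z0,z1,z0,z0,z1],z2)],[([z3,z0,z0,z0,y3,y3],z2),([z0,z3,z0,z0,z0,
    z0],z2),([z0,z0,z3,z0,z3,z3],z4)],[([z1,z0,z0,z0,z0,y1],z0),([z0,z1,z0,z1,z1,z1],z2)],[([z1,z0,z1,z0,z0,z0],z2),
    ([z0,z3,z0,z0,z0,z0],z2)]],[[([z1,z0,z1,z0,z0,z0],z2)],[([z3,z0,z0,z0,z0,y3],y2),([z0,z3,z0,z0,z0,z0],z2),([z0,z0,
    z1,z0,z0,z1],z2),([z0,z0,z0,z3,z0,z3],z4)],[([z3,z0,z0,z3,z0,z0],z2),([z0,z3,z0,z0,z0,z0],z2),([z0,z0,z1,z0,z0,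
    z1],z2)],[([z1,z0,z0,z1,y1,z0],z0),([z0,z1,z0,z0,z2,z0],z2)],[([z1,z0,z0,z1,z0,z0],z2)],[]]],
    [.old (.leafM k2 [k2,k3,k5,k0] [] [(k4,k1,z1,[y1,z1]),(k1,k4,z1,[y1,z1])]),
    .old (.leafM k11 [k2,k4,k0,k1] [(z1,[y3,y1,y3,z3]),(z1,[z0,z1]),(z1,[z1])] [(k3,k5,z1,[z0,z0,z1]),(k5,k3,z1,[z0,z0,
    z1])]),
    .old (.leafM k12 [k0,k1,k2,k4] [(z1,[z0,z1]),(z1,[y2,y1,y2,z2]),(z1,[z1])] [(k3,k5,z1,[z0,z0,z1]),(k5,k3,z1,[z0,z0,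
    z1])]),
    .old (.leafM k7 [k0,k1,k3,k4] [(z1,[z0,z1])] [(k2,k5,z1,[y1,y1,z1]),(k5,k2,z1,[y1,y1,z1])]),
    .old (.leafM k11 [k0,k1,k2,k4] [(z1,[z0,z1]),(z1,[y3,y1,y3,z3]),(z1,[z1])] [(k3,k5,z1,[z0,z0,z1]),(k5,k3,z1,[z0,z0,
    z1])]),
    .old (.lp [k72,k60,k48,k152,k50,k88] [k40,k40,k46,k46,k52,k52,k0,k0,k51,k51,k32,k32] k0 [[k0,k0,k0,k0,k0,k0,k0,k64],
    [],[],[k0,k0,k0,k0,k0,k0,k0,k0,k16],[],[],[k0,k64],[],[],[k0,k0,k16]] (nat_lit 240) k6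
    [[(k4,k60),(k1,k72),(k10,k80),(k7,k112)],[(k6,k48),(k5,k60)],[(k2,k60),(k9,k119)],[(k3,k60),(k8,k71)],[(k11,k52),
    (k0,k60)],[(k4,k48),(k1,k60),(k10,k68),(k7,k100)],[(k4,k100),(k1,k112),(k10,k120),(k7,k152)],[(k0,k48),(k11,
    k120)],[(k8,k50),(k3,k119)],[(k9,k50),(k2,k71)],[(k5,k52),(k6,k120)],[(k4,k68),(k1,k80),(k10,k88),(k7,k120)]]
    [] k0
    [[k1,k0,k1,k0,k0,k0],[k1,k0,k0,k1,k0,k0],[k0,k2,k0,k0,k0,k0],[k0,k3,k0,k0,k0,k0],[k0,k1,k0,k0,k1,k0],[k0,k0,k1,k0,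
    k0,k1],[k0,k0,k0,k0,k2,k0],[k0,k0,k0,k0,k3,k0],[k0,k0,k0,k0,k4,k0]]
    [.contra [y1,z2],.ref k3 k0 [(z1,[y1,z0,y1,z1]),(z1,[z0,z0,z1])],.contra [z1],.ref k4 k1 [(z1,[z0,z1]),(z1,[z1]),
    (z1,[z0,y1,y1,z1])],.contra [y1,z1,z1],.ref k3 k1 [(z1,[y1,z0,y1,z1]),(z1,[z0,z0,z1])],.contra [z1],
    .ref k1 k1 [(z1,[z0,z1]),(z1,[y1,z0,z3]),(z1,[z0,y1,y1,z1])],.ref k2 k1 [(z1,[z0,z1]),(z2,[y1,z0,z4]),(z1,[z0,y1,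
    y1,z1])]]),
    .old (.leafM k10 [k0,k1,k2,k4] [(z1,[z0,z1]),(z1,[y1,y1,y3,z3]),(z1,[z1])] [(k3,k5,z1,[z0,z0,z1]),(k5,k3,z1,[z0,z0,
    z1])]),
    .old (.lp [k8,k18,k8,k40,k12,k8] [k16,k16,k11,k11,k16,k16,k0,k0,k14,k14,k16,k16] k0 [] k48 k7
    [[(k1,k8),(k4,k8),(k10,k8),(k7,k24)],[(k5,k8),(k6,k24)],[(k9,k15),(k2,k18)],[(k8,k15),(k3,k18)],[(k0,k8),(k11,
    k8)],[(k1,k8),(k4,k8),(k10,k8),(k7,k24)],[(k1,k24),(k4,k24),(k10,k24),(k7,k40)],[(k0,k24),(k11,k24)],[(k8,k12),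
    (k3,k15)],[(k9,k12),(k2,k15)],[(k5,k8),(k6,k24)],[(k1,k8),(k4,k8),(k10,k8),(k7,k24)]]
    [] k0
    [[k2,k0,k2,k0,k0,k0],[k1,k0,k1,k0,k0,k0],[k1,k0,k2,k0,k0,k1],[k0,k2,k0,k0,k0,k0],[k0,k1,k0,k0,k1,k0],[k0,k1,k0,k0,
    k2,k0],[k0,k0,k1,k0,k0,k1],[k0,k0,k2,k0,k0,k2],[k0,k0,k0,k0,k2,k0],[k0,k0,k0,k0,k3,k0]]
    [.contra [z1,y2,z1,y1],.contra [y1,z2,z0,z1],.contra [z1,y1,z1,y1],.contra [z1],.contra [y1,z0,z1],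
    .ref k6 k1 [(z2,[y2,z6,z1,z3]),(z1,[y1,z0,z2]),(z2,[z0,y2,y1,y1,z2])],.contra [y1,z1,z0,z1],.contra [z1,z0,z1,y1],
    .contra [z1],.ref k6 k1 [(z2,[y1,z6,z0,z3]),(z2,[y1,z0,z3]),(z2,[z0,y2,y1,y1,z2])]]),
    .old (.lp [k8,k12,k8,k8,k18,k40] [k16,k16,k14,k14,k16,k16,k16,k16,k11,k11,k0,k0] k0 [] k48 k7
    [[(k1,k8),(k4,k8),(k7,k8),(k10,k24)],[(k5,k8),(k6,k8)],[(k2,k12),(k9,k15)],[(k3,k12),(k8,k15)],[(k0,k8),(k11,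
    k24)],[(k1,k8),(k4,k8),(k7,k8),(k10,k24)],[(k1,k8),(k4,k8),(k7,k8),(k10,k24)],[(k0,k8),(k11,k24)],[(k3,k15),(k8,
    k18)],[(k2,k15),(k9,k18)],[(k5,k24),(k6,k24)],[(k1,k24),(k4,k24),(k7,k24),(k10,k40)]]
    [] k0
    [[k2,k0,k2,k0,k0,k0],[k2,k0,k1,k1,k0,k0],[k2,k0,k0,k2,k0,k0],[k1,k0,k1,k0,k0,k0],[k1,k0,k0,k1,k0,k0],[k0,k2,k0,k0,
    k0,k0],[k0,k3,k0,k0,k0,k0],[k0,k2,k0,k0,k1,k0],[k0,k1,k0,k0,k1,k0],[k0,k0,k0,k0,k2,k0]]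
    [.contra [z1,y2,z0,y2],.contra [z1,y1,z1,z0,y1],.contra [z1,z0,z2,z2,y2],.contra [y1,z2,z1,z2],.contra [y1,z1,z0,
    z0,z1],.contra [z1],.ref k6 k1 [(z2,[y1,z6,z3,z6]),(z1,[z1]),(z1,[z0,y1,y1,y1,z1])],.ref k6 k1 [(z1,[y1,z3,z2,
    z3]),(z1,[z2,z0,y1]),(z1,[z0,y1,y1,y1,z1])],.contra [y1,z1,z1,z1],.contra [z1]]),
    .old (.lp [(nat_lit 384),k114,k142,k96,k122,k98] [k0,k0,k135,k135,k121,k121,k144,k144,k131,k131,k143,k143] k0 [[k0,k0,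
    k46],[],[],[k0,k46]] (nat_lit 480) k6
    [[(k7,(nat_lit 240)),(k10,(nat_lit 241)),(k4,(nat_lit 263)),(k1,(nat_lit 384))],[(k5,(nat_lit 217)),(k6,
    (nat_lit 240))],[(k9,k118),(k2,k160)],[(k8,k118),(k3,k160)],[(k11,k120),(k0,(nat_lit 217))],[(k7,k119),(k10,k120),
    (k4,k142),(k1,(nat_lit 263))],[(k7,k96),(k10,k97),(k4,k119),(k1,(nat_lit 240))],[(k11,k97),(k0,(nat_lit 240))],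
    [(k3,k118),(k8,k122)],[(k2,k118),(k9,k122)],[(k6,k97),(k5,k120)],[(k7,k97),(k10,k98),(k4,k120),(k1,
    (nat_lit 241))]]
    [] k0
    [[k0,k2,k0,k0,k0,k0],[k0,k2,k0,k0,k1,k0],[k0,k1,k0,k0,k1,k0],[k0,k2,k0,k0,k2,k0],[k0,k1,k0,k0,k2,k0],[k0,k0,k1,k0,
    k0,k1],[k0,k0,k1,k1,k0,k2],[k0,k0,k0,k2,k0,k2],[k0,k0,k0,k1,k0,k1],[k0,k0,k0,k0,k2,k0],[k0,k0,k0,k0,k3,k0]]
    [.contra [z1],.ref k6 k2 [(z1,[y3,y1,z1,y1,z3]),(z1,[z3,z0,y2]),(z3,[z0,z1,z0,z1])],.contra [y3,z0,z1,z1],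
    .ref k3 k0 [(z6,[y3,z0,z2,z2]),(z2,[z1])],.ref k6 k2 [(z2,[y3,y2,y1,y2,z6]),(z2,[z3,z0,y1]),(z3,[z0,z1,z0,z1])],
    .contra [y3,z0,z1,z1],.ref k3 k0 [(z6,[z3,z1,z1,z2,y3]),(z6,[y3,y1,z1,z0,z3])],.ref k3 k0 [(z6,[z3,z2,z2,z4,y6]),
    (z6,[y3,y2,z0,y2,z6])],.contra [y3,y1,z0,y1,z3],.contra [z1],.ref k6 k2 [(z1,[y1,y1,y1,y1,z3]),(z1,[z1]),(z3,[z0,
    z1,z0,z1])]]),
    .old (.lp [k24,k30,k96,k24,k40,k24] [k36,k36,k33,k33,k0,k0,k36,k36,k28,k28,k36,k36] k0 [] k120 k6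
    [[(k1,k24),(k7,k24),(k10,k24),(k4,k60)],[(k6,k24),(k5,k60)],[(k2,k30),(k9,k35)],[(k3,k30),(k8,k35)],[(k0,k60),
    (k11,k60)],[(k1,k60),(k7,k60),(k10,k60),(k4,k96)],[(k1,k24),(k7,k24),(k10,k24),(k4,k60)],[(k0,k24),(k11,k24)],
    [(k3,k35),(k8,k40)],[(k2,k35),(k9,k40)],[(k6,k24),(k5,k60)],[(k1,k24),(k7,k24),(k10,k24),(k4,k60)]]
    [] k0
    [[k2,k0,k0,k2,k0,k0],[k1,k0,k0,k1,k0,k0],[k1,k0,k0,k2,k0,k1],[k0,k2,k0,k0,k0,k0],[k0,k3,k0,k0,k0,k0],[k0,k2,k0,k0,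
    k1,k0],[k0,k1,k0,k0,k1,k0],[k0,k1,k0,k0,k2,k0],[k0,k0,k0,k2,k0,k2],[k0,k0,k0,k1,k0,k1],[k0,k0,k0,k0,k2,k0]]
    [.ref k3 k1 [(z2,[z1]),(z2,[y1,z2,z2])],.contra [y1,z1,z1],.ref k3 k1 [(z2,[z1,z1]),(z2,[y1,z1,z2])],.contra [z1],
    .ref k9 k0 [(z1,[z1,y3,y6,z3]),(z1,[z1]),(z1,[y1,z3,z3])],.ref k8 k2 [(z1,[y1,z1,z2,y1]),(z1,[z1]),(z1,[z0,y1,y1,
    z1])],.contra [y1,z1,z1],.ref k7 k3 [(z1,[z0,y1]),(z1,[z1]),(z1,[y1,z2,z2])],.ref k3 k1 [(z2,[z1,z2]),(z2,[y1,z0,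
    z2])],.contra [y1,z0,z1],.contra [z1]]),
    .old (.lp [(nat_lit 828),(nat_lit 460),(nat_lit 552),(nat_lit 276),(nat_lit 360),(nat_lit 276)] [k0,k0,k184,k184,k138,
    k138,(nat_lit 276),(nat_lit 276),(nat_lit 234),(nat_lit 234),(nat_lit 276),(nat_lit 276)] k0 [[k0,k0,k0,k0,k0,k0,
    k0,(nat_lit 207)],[],[],[],[],[],[k0,(nat_lit 207)]] (nat_lit 1380) k6
    [[(k7,(nat_lit 552)),(k10,(nat_lit 552)),(k4,(nat_lit 690)),(k1,(nat_lit 828))],[(k6,(nat_lit 345)),(k5,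
    (nat_lit 690))],[(k2,(nat_lit 460)),(k9,(nat_lit 617))],[(k8,(nat_lit 410)),(k3,(nat_lit 460))],[(k11,
    (nat_lit 414)),(k0,(nat_lit 690))],[(k7,(nat_lit 414)),(k10,(nat_lit 414)),(k4,(nat_lit 552)),(k1,(nat_lit 690))],
    [(k7,(nat_lit 276)),(k10,(nat_lit 276)),(k4,(nat_lit 414)),(k1,(nat_lit 552))],[(k11,(nat_lit 276)),(k0,
    (nat_lit 345))],[(k8,(nat_lit 360)),(k3,(nat_lit 617))],[(k9,(nat_lit 360)),(k2,(nat_lit 410))],[(k6,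
    (nat_lit 276)),(k5,(nat_lit 414))],[(k7,(nat_lit 276)),(k10,(nat_lit 276)),(k4,(nat_lit 414)),(k1,(nat_lit 552))]]
    [] k0
    [[k1,k0,k0,k1,k0,k0],[k0,k2,k0,k0,k0,k0],[k0,k1,k0,k0,k1,k0],[k0,k0,k1,k0,k0,k1],[k0,k0,k0,k2,k0,k2],[k0,k0,k0,k1,
    k0,k1],[k0,k0,k0,k0,k2,k0],[k0,k0,k0,k0,k3,k0]]
    [.ref k10 k0 [(z1,[y1,z1]),(z1,[z0,y1,z0,z1])],.contra [z1],.contra [y1,y1,z0,z1],.ref k10 k1 [(z1,[y1,z1]),(z1,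
    [z0,y1,z0,z1])],.ref k5 k2 [(z2,[z1]),(z2,[y1,y2,z0,z2])],.contra [y1,y1,z0,z1],.contra [z1],.ref k6 k2 [(z1,[y1,
    y3,y1,z3]),(z1,[z1]),(z1,[z0,z1])]]),
    .old (.lp [(nat_lit 828),(nat_lit 360),(nat_lit 552),(nat_lit 276),(nat_lit 460),(nat_lit 276)] [k0,k0,(nat_lit 234),
    (nat_lit 234),k138,k138,(nat_lit 276),(nat_lit 276),k184,k184,(nat_lit 276),(nat_lit 276)] k0 [[k0,k0,k0,k0,k0,k0,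
    k0,(nat_lit 207)],[],[],[],[],[],[k0,(nat_lit 207)]] (nat_lit 1380) k6
    [[(k7,(nat_lit 552)),(k10,(nat_lit 552)),(k4,(nat_lit 690)),(k1,(nat_lit 828))],[(k6,(nat_lit 345)),(k5,
    (nat_lit 690))],[(k2,(nat_lit 360)),(k9,(nat_lit 617))],[(k3,(nat_lit 360)),(k8,(nat_lit 410))],[(k11,
    (nat_lit 414)),(k0,(nat_lit 690))],[(k7,(nat_lit 414)),(k10,(nat_lit 414)),(k4,(nat_lit 552)),(k1,(nat_lit 690))],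
    [(k7,(nat_lit 276)),(k10,(nat_lit 276)),(k4,(nat_lit 414)),(k1,(nat_lit 552))],[(k11,(nat_lit 276)),(k0,
    (nat_lit 345))],[(k8,(nat_lit 460)),(k3,(nat_lit 617))],[(k2,(nat_lit 410)),(k9,(nat_lit 460))],[(k6,
    (nat_lit 276)),(k5,(nat_lit 414))],[(k7,(nat_lit 276)),(k10,(nat_lit 276)),(k4,(nat_lit 414)),(k1,(nat_lit 552))]]
    [] k0
    [[k1,k0,k0,k1,k0,k0],[k0,k2,k0,k0,k0,k0],[k0,k3,k0,k0,k0,k0],[k0,k1,k0,k0,k1,k0],[k0,k0,k1,k0,k0,k1],[k0,k0,k0,k2,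
    k0,k2],[k0,k0,k0,k1,k0,k1],[k0,k0,k0,k0,k2,k0]]
    [.ref k10 k0 [(z1,[y1,z1]),(z1,[z0,y1,z1])],.contra [z1],.ref k11 k1 [(z1,[z0,z1]),(z1,[z1])],.contra [y1,y1,z1],
    .ref k10 k1 [(z1,[y1,z1]),(z1,[z0,y1,z1])],.ref k5 k2 [(z2,[z1]),(z2,[y1,y2,z2])],.contra [y1,y1,z1],
    .contra [z1]]),
    .old (.tor k20 false k0 [(z1,[z0,z0,z1]),(z3,[y2,y1,y6,y2,z6]),(z3,[y1,z1,y3,y1,z3]),(z3,[z1,z0,z0,z2]),(z3,[z2,z0,z3,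
    z1])]),
    .old (.lp [(nat_lit 552),(nat_lit 600),(nat_lit 1656),(nat_lit 552),(nat_lit 1150),(nat_lit 966)] [(nat_lit 552),
    (nat_lit 552),(nat_lit 528),(nat_lit 528),k0,k0,(nat_lit 552),(nat_lit 552),(nat_lit 253),(nat_lit 253),
    (nat_lit 345),(nat_lit 345)] k0 [[k0,k0,(nat_lit 552)],[],[k0,k0,k0,k0,k0,k0,k0,k0,k0,k138],[k0,(nat_lit 552)],[],
    [],[],[],[k0,k0,k0,k138]] (nat_lit 2760) k6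
    [[(k1,(nat_lit 552)),(k7,(nat_lit 552)),(k10,(nat_lit 759)),(k4,(nat_lit 1104))],[(k5,(nat_lit 552)),(k6,
    (nat_lit 552))],[(k9,(nat_lit 875)),(k2,(nat_lit 1152))],[(k8,(nat_lit 737)),(k3,(nat_lit 1152))],[(k0,
    (nat_lit 552)),(k11,(nat_lit 1449))],[(k1,(nat_lit 1104)),(k7,(nat_lit 1104)),(k10,(nat_lit 1311)),(k4,
    (nat_lit 1656))],[(k1,(nat_lit 552)),(k7,(nat_lit 552)),(k10,(nat_lit 759)),(k4,(nat_lit 1104))],[(k0,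
    (nat_lit 552)),(k11,(nat_lit 759))],[(k3,(nat_lit 875)),(k8,(nat_lit 1150))],[(k2,(nat_lit 737)),(k9,
    (nat_lit 1150))],[(k6,(nat_lit 759)),(k5,(nat_lit 1449))],[(k1,(nat_lit 759)),(k7,(nat_lit 759)),(k10,
    (nat_lit 966)),(k4,(nat_lit 1311))]]
    [] k0
    [[k2,k0,k0,k2,k0,k0],[k1,k0,k1,k0,k0,k0],[k1,k0,k0,k1,k0,k0],[k1,k0,k0,k2,k0,k1],[k0,k2,k0,k0,k0,k0],[k0,k1,k0,k0,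
    k1,k0],[k0,k0,k0,k1,k0,k1],[k0,k0,k0,k0,k2,k0]]
    [.contra [z3,y2,z2],.ref k12 k1 [(z1,[z1])],.contra [z3,y1,z4],.ref k13 k1 [(z1,[y3,z2]),(z1,[z0,z0,z1]),(z1,[z0,
    z0,z0,z1]),(z1,[z3,y1])],.contra [z1],.contra [z3,z1,z2,z3,y3],.ref k12 k2 [(z1,[z1])],.contra [z3,z2,z4,z6,y6]]),
    .old (.lp [k114,k82,(nat_lit 234),k96,(nat_lit 226),k188] [k60,k60,k76,k76,k0,k0,k69,k69,k4,k4,k23,k23] k0 [[k0,k0,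
    k78],[],[k0,k0,k0,k0,k0,k0,k0,k0,k0,k58],[k0,k78],[],[],[k0,k0,k0,k0,k0,k0,k0,k0,k14],[],[k0,k0,k0,k58],[k0,k0,k0,
    k0,k0,k0,k0,k14]] (nat_lit 480) k6
    [[(k7,k105),(k1,k114),(k10,k151),(k4,k174)],[(k5,k96),(k6,k105)],[(k9,k154),(k2,k160)],[(k8,k96),(k3,k160)],[(k0,
    k96),(k11,(nat_lit 269))],[(k7,k165),(k1,k174),(k10,(nat_lit 211)),(k4,(nat_lit 234))],[(k7,k96),(k1,k105),(k10,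
    k142),(k4,k165)],[(k0,k105),(k11,k128)],[(k3,k154),(k8,(nat_lit 240))],[(k2,k96),(k9,(nat_lit 240))],[(k6,k128),
    (k5,(nat_lit 269))],[(k7,k142),(k1,k151),(k10,k188),(k4,(nat_lit 211))]]
    [] k0
    [[k2,k0,k0,k2,k0,k0],[k1,k0,k1,k0,k0,k0],[k1,k0,k0,k1,k0,k0],[k0,k2,k0,k0,k0,k0],[k0,k2,k0,k0,k1,k0],[k0,k1,k0,k0,
    k1,k0],[k0,k0,k0,k1,k0,k1]]
    [.contra [z1,y2],.ref k12 k1 [(z1,[z1])],.contra [y1,z2,z1],.contra [z1],.ref k14 k1 [(z1,[y1,z3,z2]),(z1,[z2,z0,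
    y1]),(z1,[z0,y1,y1,z1])],.contra [y1,z1,z1],.ref k12 k2 [(z1,[z1])]]),
    .old (.lp [(nat_lit 272),k72,k96,k190,(nat_lit 212),k98] [k0,k0,k100,k100,k88,k88,k41,k41,k30,k30,k87,k87] k0 [[k0,k0,
    k88],[k0,k0,k0,k0,k0,k0,k18],[k0,k0,k0,k0,k0,k0,k0,k0,k0,k46],[k0,k88],[],[],[k0,k0,k0,k0,k0,k0,k0,k0,k48],[k18],
    [k0,k0,k0,k46],[k0,k0,k0,k0,k0,k0,k0,k48]] (nat_lit 480) k6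
    [[(k4,k184),(k10,k185),(k7,(nat_lit 231)),(k1,(nat_lit 272))],[(k5,k96),(k6,(nat_lit 249))],[(k9,k124),(k2,k160)],
    [(k8,k96),(k3,k160)],[(k0,k96),(k11,k143)],[(k4,k96),(k10,k97),(k7,k143),(k1,k184)],[(k4,k143),(k10,k144),(k7,
    k190),(k1,(nat_lit 231))],[(k11,k96),(k0,(nat_lit 249))],[(k3,k124),(k8,(nat_lit 260))],[(k2,k96),(k9,
    (nat_lit 260))],[(k6,k96),(k5,k143)],[(k4,k97),(k10,k98),(k7,k144),(k1,k185)]]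
    [] k0
    [[k1,k0,k1,k0,k0,k0],[k0,k2,k0,k0,k0,k0],[k0,k2,k0,k0,k1,k0],[k0,k1,k0,k0,k1,k0],[k0,k2,k0,k0,k2,k0],[k0,k0,k1,k0,
    k0,k1],[k0,k0,k0,k1,k0,k1]]
    [.ref k12 k1 [(z1,[z1])],.contra [z1],.ref k15 k3 [(z1,[y1,y1,z1]),(z1,[z1])],.contra [y1,y1,z1],.ref k3 k0 [(z2,
    [y1,y2,z2]),(z2,[z1])],.contra [y1,y1,z1],.ref k12 k2 [(z1,[z1])]]),
    .old (.lp [k6,k8,k6,k6,k12,k6] [k3,k3,k2,k2,k3,k3,k3,k3,k0,k0,k3,k3] k0 [] k24 k5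
    [[(k1,k6),(k4,k6),(k7,k6),(k10,k6)],[(k5,k6),(k6,k6)],[(k2,k8),(k9,k10)],[(k3,k8),(k8,k10)],[(k0,k6),(k11,k6)],
    [(k1,k6),(k4,k6),(k7,k6),(k10,k6)],[(k1,k6),(k4,k6),(k7,k6),(k10,k6)],[(k0,k6),(k11,k6)],[(k3,k10),(k8,k12)],[(k2,
    k10),(k9,k12)],[(k5,k6),(k6,k6)],[(k1,k6),(k4,k6),(k7,k6),(k10,k6)]]
    [] k0
    [[k1,k0,k1,k0,k0,k0],[k1,k0,k0,k1,k0,k0],[k0,k2,k0,k0,k0,k0],[k0,k1,k0,k0,k1,k0],[k0,k0,k1,k0,k0,k1],[k0,k0,k0,k1,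
    k0,k1]]
    [.ref k12 k1 [(z1,[z1])],.ref k16 k1 [(z1,[z1])],.contra [z1],.ref k0 k1 [(z1,[y1,z1])],.ref k16 k0 [(z1,[z1])],
    .ref k12 k2 [(z1,[z1])]])]⟩

/-- classes `0 0 1 0 0 1`, types `N0 N1 S0 N3 N2 S0` -/
noncomputable def cU6_792 : CertX :=
  ⟨[k12,k13,k16,k15,k14,k16],[(false,k3,[k3,k4,k5,k0,k1,k2]),(false,k0,[k0,k1,k2,k3,k4,k5])],[[[([z1,z0,z1,z0,z1,z0],
    z2)],[([z1,z0,z1,z0,z0,z0],z1),([z0,z3,z0,z0,z0,z0],z2),([z0,z0,z0,z1,z0,z1],z2)],[([z3,z0,z3,z0,z0,z0],z2),([z0,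
    z3,z0,z0,z0,z0],z2),([z0,z0,z0,z1,z0,z1],z2)],[([z1,z0,z1,z0,z0,z0],z2),([z0,z3,z0,z3,z0,z3],z4)],[([z1,z0,z1,z0,
    z0,z0],z1),([z0,z3,z0,z0,z0,z0],z1),([z0,z0,z0,z1,z0,z1],z2)],[([z1,z0,z1,z0,z0,z0],z1),([z0,z2,z0,z0,z0,z0],z1),
    ([z0,z0,z0,z1,z0,z1],z2)],[([z1,z0,z1,z0,z0,z0],z1),([z0,z1,z0,z0,z1,z0],z1)],[([z1,z0,z1,z0,z0,z0],z2)],[]]],
    [.old (.leafM k5 [k1,k2,k3,k4,k5,k0] [(z1,[z1]),(z1,[y1,z1])] []),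
    .old (.leafM k11 [k0,k1,k2,k4] [(z1,[z0,z1]),(z1,[y3,y1,y3,z3]),(z1,[z1])] [(k3,k5,z1,[z0,z0,z1]),(k5,k3,z1,[z0,z0,
    z1])]),
    .old (.leafM k10 [k0,k1,k2,k4] [(z1,[z0,z1]),(z1,[y1,y1,y3,z3]),(z1,[z1])] [(k3,k5,z1,[z0,z0,z1]),(k5,k3,z1,[z0,z0,
    z1])]),
    .old (.lp [(nat_lit 4416),(nat_lit 1380),(nat_lit 1104),(nat_lit 1104),(nat_lit 1840),(nat_lit 1150)] [k0,k0,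
    (nat_lit 1518),(nat_lit 1518),(nat_lit 1656),(nat_lit 1656),(nat_lit 1656),(nat_lit 1656),(nat_lit 1288),
    (nat_lit 1288),(nat_lit 1633),(nat_lit 1633)] k0 [[k0,k0,k0,k0,k0,k0,k0,k0,k0,(nat_lit 1920)],[],[],[],[],[],[],
    [],[k0,(nat_lit 1920)]] (nat_lit 5520) k6
    [[(k4,(nat_lit 2760)),(k7,(nat_lit 2760)),(k10,(nat_lit 2783)),(k1,(nat_lit 4416))],[(k8,(nat_lit 1208)),(k5,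
    (nat_lit 2760))],[(k2,(nat_lit 1380)),(k11,(nat_lit 3185))],[(k6,(nat_lit 1242)),(k3,(nat_lit 1380))],[(k9,
    (nat_lit 1472)),(k0,(nat_lit 2760))],[(k4,(nat_lit 1104)),(k7,(nat_lit 1104)),(k10,(nat_lit 1127)),(k1,
    (nat_lit 2760))],[(k4,(nat_lit 1104)),(k7,(nat_lit 1104)),(k10,(nat_lit 1127)),(k1,(nat_lit 2760))],[(k11,
    (nat_lit 1127)),(k2,(nat_lit 1242))],[(k5,(nat_lit 1472)),(k8,(nat_lit 1840))],[(k0,(nat_lit 1208)),(k9,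
    (nat_lit 1840))],[(k6,(nat_lit 1127)),(k3,(nat_lit 3185))],[(k4,(nat_lit 1127)),(k7,(nat_lit 1127)),(k10,
    (nat_lit 1150)),(k1,(nat_lit 2783))]]
    [] k0
    [[k1,k0,k1,k0,k1,k0],[k0,k2,k0,k0,k0,k0],[k0,k3,k0,k0,k0,k0],[k0,k0,k0,k2,k0,k2],[k0,k0,k0,k1,k0,k1],[k0,k0,k0,k0,
    k2,k0]]
    [.contra [y1,y2,y1,z3],.contra [z1],.ref k2 k0 [(z1,[y1,z0,z1]),(z1,[z0,y3,y1,z3]),(z1,[z0,z1])],.ref k1 k0 [(z2,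
    [z1]),(z1,[z0,y3,y1,z3]),(z1,[z0,z1])],.contra [y3,z1,z1],.contra [z1]]),
    .old (.leafM k11 [k2,k4,k0,k1] [(z1,[y3,y1,y3,z3]),(z1,[z0,z1]),(z1,[z1])] [(k3,k5,z1,[z0,z0,z1]),(k5,k3,z1,[z0,z0,
    z1])]),
    .old (.leafM k12 [k0,k1,k2,k4] [(z1,[z0,z1]),(z1,[y2,y1,y2,z2]),(z1,[z1])] [(k3,k5,z1,[z0,z0,z1]),(k5,k3,z1,[z0,z0,
    z1])]),
    .old (.lp [k12,k8,k8,k8,k10,k32] [k10,k10,k12,k12,k12,k12,k12,k12,k11,k11,k0,k0] k0 [] k40 k6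
    [[(k4,k10),(k7,k10),(k1,k12),(k10,k22)],[(k5,k10),(k8,k11)],[(k2,k8),(k11,k20)],[(k3,k8),(k6,k8)],[(k9,k9),(k0,
    k10)],[(k4,k8),(k7,k8),(k1,k10),(k10,k20)],[(k4,k8),(k7,k8),(k1,k10),(k10,k20)],[(k2,k8),(k11,k20)],[(k5,k9),(k8,
    k10)],[(k9,k10),(k0,k11)],[(k3,k20),(k6,k20)],[(k4,k20),(k7,k20),(k1,k22),(k10,k32)]]
    [] k0
    [[k1,k0,k1,k0,k0,k0],[k1,k0,k1,k0,k1,k0],[k0,k2,k0,k0,k0,k0],[k0,k3,k0,k0,k0,k0],[k0,k4,k0,k0,k0,k0],[k0,k0,k0,k0,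
    k2,k0],[k0,k0,k0,k0,k3,k0]]
    [.contra [y1,z2],.contra [z1,y1],.contra [z1],.ref k3 k0 [(z1,[z0,y1,y1,z1]),(z1,[y1,z3,z3])],.ref k5 k1 [(z1,[z0,
    z1]),(z2,[z1]),(z1,[z0,y1,y1,z1])],.contra [z1],.ref k4 k1 [(z1,[z0,z1]),(z1,[y1,z0,z3]),(z1,[z0,y1,y1,z1])]]),
    .old (.lp [k96,k40,k24,k24,k30,k24] [k0,k0,k28,k28,k36,k36,k36,k36,k33,k33,k36,k36] k0 [] k120 k6
    [[(k4,k60),(k7,k60),(k10,k60),(k1,k96)],[(k5,k60),(k8,k63)],[(k11,k32),(k2,k40)],[(k6,k32),(k3,k40)],[(k9,k27),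
    (k0,k60)],[(k4,k24),(k7,k24),(k10,k24),(k1,k60)],[(k4,k24),(k7,k24),(k10,k24),(k1,k60)],[(k11,k24),(k2,k32)],[(k5,
    k27),(k8,k30)],[(k9,k30),(k0,k63)],[(k6,k24),(k3,k32)],[(k4,k24),(k7,k24),(k10,k24),(k1,k60)]]
    [] k0
    [[k0,k2,k0,k0,k0,k0],[k0,k1,k0,k1,k0,k1],[k0,k0,k0,k2,k0,k2],[k0,k0,k0,k1,k0,k1],[k0,k0,k0,k0,k2,k0],[k0,k0,k0,k0,
    k3,k0]]
    [.contra [z1],.contra [y1,y1,z1],.ref k6 k0 [(z2,[z1]),(z2,[y1,y2,z2])],.contra [y1,y1,z1],.contra [z1],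
    .ref k3 k1 [(z1,[z0,z1]),(z1,[y1,y3,z3])]]),
    .old (.lp [k6,k8,k6,k6,k12,k8] [k3,k3,k2,k2,k3,k3,k3,k3,k0,k0,k2,k2] k0 [[k0,k0,k0,k0,k0,k0,k0,k0,k0,k2],[],[],[],[],
    [],[],[],[k0,k2]] k24 k5
    [[(k1,k6),(k4,k6),(k7,k6),(k10,k7)],[(k5,k6),(k8,k7)],[(k2,k8),(k11,k10)],[(k6,k7),(k3,k8)],[(k0,k6),(k9,k9)],
    [(k1,k6),(k4,k6),(k7,k6),(k10,k7)],[(k1,k6),(k4,k6),(k7,k6),(k10,k7)],[(k2,k7),(k11,k7)],[(k5,k9),(k8,k12)],[(k0,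
    k7),(k9,k12)],[(k6,k7),(k3,k10)],[(k1,k7),(k4,k7),(k7,k7),(k10,k8)]]
    [] k0
    [[k1,k0,k1,k0,k0,k0],[k1,k0,k1,k0,k1,k0],[k0,k2,k0,k0,k0,k0],[k0,k0,k0,k1,k0,k1]]
    [.ref k7 k1 [(z1,[z1])],.ref k0 k1 [(z1,[z1])],.contra [z1],.ref k7 k0 [(z1,[z1])]])]⟩

/-- classes `0 0 1 0 0 1`, types `N0 N2 B0 N0 N2 B1` -/
noncomputable def cU6_793 : CertX :=
  ⟨[k12,k14,k24,k12,k14,k25],[(false,k0,[k0,k1,k2,k3,k4,k5])],[[[([z1,z1,z1,z0,z0,z0],z2)],[([z1,z0,z1,z0,z1,z0],z2)],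
    []]],
    [.old (.leafM k6 [k0,k1,k2,k3,k4,k5] [(z1,[y1,z1])] []),
    .old (.leafM k5 [k1,k2,k3,k4,k5,k0] [(z1,[z1]),(z1,[y1,z1])] []),
    .old (.lp [k4,k2,k2,k2,k2,k2] [k0,k0,k1,k1,k1,k1,k1,k1,k1,k1,k1,k1] k0 [] k8 k5
    [[(k4,k3),(k7,k3)],[(k2,k3),(k8,k3)],[(k5,k2),(k11,k2)],[(k6,k2),(k0,k3)],[(k3,k2),(k9,k2)],[(k10,k2),(k1,k3)],
    [(k10,k2),(k1,k3)],[(k2,k2),(k8,k2)],[(k5,k2),(k11,k2)],[(k6,k2),(k0,k3)],[(k3,k2),(k9,k2)],[(k4,k2),(k7,k2)]]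
    [] k0
    [[k0,k1,k0,k1,k0,k1],[k0,k0,k0,k1,k1,k1]]
    [.ref k1 k0 [(z1,[y1,z1])],.ref k0 k0 [(z1,[y1,z1])]])]⟩

/-- classes `0 0 1 0 0 1`, types `N0 N2 B0 N1 N3 B1` -/
noncomputable def cU6_794 : CertX :=
  ⟨[k12,k14,k24,k13,k15,k25],[(false,k0,[k0,k1,k2,k3,k4,k5]),(false,k3,[k3,k4,k5,k0,k1,k2])],[[[([z1,z0,z1,z0,z1,z0],
    z2)],[([z1,z1,z1,z0,z0,z0],z2)],[([z1,z0,z0,z1,z1,z0],z2),([z0,z1,z0,z0,y1,z0],z0)],[([z1,z0,z0,z1,z1,z0],z2)],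
    []]],
    [.old (.leafM k1 [k0,k1,k2,k3,k4,k5] [(z1,[y1,z1]),(z1,[z1])] []),
    .old (.leafM k6 [k0,k1,k2,k3,k4,k5] [(z1,[y1,z1])] []),
    .old (.tor k2 false k1 [(z1,[z1]),(z1,[z1,z1]),(z1,[y1,y1,z1]),(z1,[y1,z0,z1])]),
    .old (.lp [k10,k8,k2,k4,k10,k12] [k1,k1,k2,k2,k5,k5,k4,k4,k1,k1,k0,k0] k0 [[k0,k0,k0,k2],[],[k0,k2]] k24 k5
    [[(k4,k6),(k7,k7)],[(k2,k7),(k9,k10)],[(k6,k6),(k5,k7)],[(k0,k7),(k11,k10)],[(k8,k6),(k3,k7)],[(k1,k6),(k10,k7)],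
    [(k1,k7),(k10,k8)],[(k3,k6),(k8,k7)],[(k0,k10),(k11,k11)],[(k5,k6),(k6,k7)],[(k2,k10),(k9,k11)],[(k4,k7),(k7,k8)]]
    [] k0
    [[k1,k1,k1,k0,k0,k0],[k1,k0,k1,k0,k1,k0],[k1,k1,k0,k1,k0,k0]]
    [.ref k1 k0 [(z1,[z1])],.ref k0 k0 [(z1,[z1])],.ref k2 k0 [(z1,[z0,z1]),(z1,[z1,y1])]]),
    .old (.lp [k10,k8,k2,k4,k10,k12] [k1,k1,k2,k2,k5,k5,k4,k4,k1,k1,k0,k0] k0 [[k0,k0,k0,k2],[],[k0,k2]] k24 k5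
    [[(k4,k6),(k7,k7)],[(k2,k7),(k9,k10)],[(k6,k6),(k5,k7)],[(k0,k7),(k11,k10)],[(k8,k6),(k3,k7)],[(k1,k6),(k10,k7)],
    [(k1,k7),(k10,k8)],[(k3,k6),(k8,k7)],[(k0,k10),(k11,k11)],[(k5,k6),(k6,k7)],[(k2,k10),(k9,k11)],[(k4,k7),(k7,k8)]]
    [] k0
    [[k1,k1,k1,k0,k0,k0],[k1,k0,k1,k0,k1,k0],[k1,k1,k0,k1,k0,k0]]
    [.ref k1 k0 [(z1,[z1])],.ref k0 k0 [(z1,[z1])],.ref k3 k1 [(z1,[z1])]])]⟩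

/-- classes `0 0 1 0 0 1`, types `N0 N2 B0 N2 N0 B1` -/
noncomputable def cU6_795 : CertX :=
  ⟨[k12,k14,k24,k14,k12,k25],[(true,k2,[k2,k1,k0,k5,k4,k3]),(false,k0,[k0,k1,k2,k3,k4,k5])],[[[([z1,z1,z1,z0,z0,z0],
    z2)],[([z1,z0,z1,z1,z0,z1],z2)],[([z1,z0,z0,z1,z0,z0],z1),([z0,z1,z0,z0,z1,z0],z1)],[([z1,z0,z0,z1,z0,z0],z2)],
    []]],
    [.old (.leafM k6 [k0,k1,k2,k3,k4,k5] [(z1,[y1,z1])] []),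
    .old (.leafM k6 [k2,k3,k5,k0] [] [(k4,k1,z1,[y1,z1]),(k1,k4,z1,[y1,z1])]),
    .old (.leafM k7 [k0,k1,k3,k4] [(z1,[z0,z1])] [(k2,k5,z1,[y1,y1,z1]),(k5,k2,z1,[y1,y1,z1])]),
    .old (.lp [k94,k28,k0,k26,k22,k60] [k0,k0,k33,k33,k47,k47,k34,k34,k36,k36,k17,k17] k0 [[k0,k0,k0,k10],[],[k0,
    k10]] k120 k6
    [[(k4,k47),(k7,k60)],[(k2,k51),(k6,k60)],[(k5,k24),(k9,k25)],[(k8,k25),(k0,k51)],[(k3,k24),(k11,k30)],[(k10,k30),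
    (k1,k47)],[(k10,k43),(k1,k60)],[(k8,k24),(k0,k60)],[(k3,k25),(k11,k41)],[(k6,k24),(k2,k25)],[(k5,k30),(k9,k41)],
    [(k4,k30),(k7,k43)]]
    [] k0
    [[k0,k1,k0,k0,k1,k0],[k0,k2,k0,k0,k2,k0],[k0,k0,k1,k0,k0,k1],[k0,k0,k0,k1,k1,k1]]
    [.contra [y1,y1,z1],.ref k2 k0 [(z2,[y1,y2,z2]),(z2,[z1])],.contra [y1,y1,z1],.ref k0 k1 [(z1,[y1,z0,z1])]]),
    .old (.lp [k4,k2,k2,k2,k2,k2] [k0,k0,k1,k1,k1,k1,k1,k1,k1,k1,k1,k1] k0 [] k8 k5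
    [[(k4,k3),(k7,k3)],[(k2,k3),(k6,k3)],[(k5,k2),(k9,k2)],[(k8,k2),(k0,k3)],[(k3,k2),(k11,k2)],[(k10,k2),(k1,k3)],
    [(k10,k2),(k1,k3)],[(k8,k2),(k0,k3)],[(k3,k2),(k11,k2)],[(k2,k2),(k6,k2)],[(k5,k2),(k9,k2)],[(k4,k2),(k7,k2)]]
    [] k0
    [[k1,k0,k0,k1,k0,k0],[k0,k1,k0,k0,k1,k0],[k0,k0,k1,k0,k0,k1],[k0,k0,k0,k1,k1,k1]]
    [.ref k3 k1 [(z1,[z1])],.ref k1 k1 [(z1,[y1,z1])],.ref k3 k0 [(z1,[z1])],.ref k0 k1 [(z1,[y1,z1])]])]⟩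

/-- classes `0 0 1 0 0 1`, types `N0 N2 B0 N3 N1 B1` -/
noncomputable def cU6_796 : CertX :=
  ⟨[k12,k14,k24,k15,k13,k25],[(false,k0,[k0,k1,k2,k3,k4,k5])],[[[([z1,z0,z1,z1,z0,z1],z2)],[([z1,z1,z1,z0,z0,z0],z2)],
    []]],
    [.old (.leafM k5 [k0,k2,k3,k5] [] [(k1,k4,z1,[y1,z1]),(k4,k1,z1,[y1,z1])]),
    .old (.leafM k6 [k0,k1,k2,k3,k4,k5] [(z1,[y1,z1])] []),
    .old (.lp [k2,k2,k2,k2,k2,k4] [k1,k1,k1,k1,k1,k1,k1,k1,k1,k1,k0,k0] k0 [] k8 k5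
    [[(k4,k2),(k7,k2)],[(k2,k2),(k11,k3)],[(k5,k2),(k8,k2)],[(k0,k2),(k9,k2)],[(k3,k2),(k6,k2)],[(k1,k2),(k10,k3)],
    [(k1,k2),(k10,k3)],[(k5,k2),(k8,k2)],[(k2,k2),(k11,k3)],[(k3,k2),(k6,k2)],[(k0,k3),(k9,k3)],[(k4,k3),(k7,k3)]]
    [] k0
    [[k1,k1,k1,k0,k0,k0],[k0,k1,k0,k0,k1,k0]]
    [.ref k1 k0 [(z1,[z1])],.ref k0 k0 [(z1,[y1,z1])]])]⟩

/-- classes `0 0 1 0 0 1`, types `N0 N2 C0 N0 N2 C0` -/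
noncomputable def cU6_797 : CertX :=
  ⟨[k12,k14,k20,k12,k14,k20],[(false,k0,[k0,k1,k2,k3,k4,k5]),(true,k2,[k2,k1,k0,k5,k4,k3])],[[[([z1,z0,z1,z0,z1,z0],
    z2)],[([z1,z1,z1,z0,z0,z0],z2)],[([z1,z0,z0,z0,z1,z1],z2),([z0,z1,z0,z0,y1,z0],z0)],[([z1,z0,z0,z0,z1,z1],z2)],
    []]],
    [.old (.leafM k5 [k1,k2,k3,k4,k5,k0] [(z1,[z1]),(z1,[y1,z1])] []),
    .old (.leafM k6 [k0,k1,k2,k3,k4,k5] [(z1,[y1,z1])] []),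
    .old (.tor k10 false k0 [(z1,[y1,y1,z1]),(z1,[y1,z0,z1]),(z1,[z1]),(z1,[z1,z1])]),
    .old (.lp [k6,k10,k6,k6,k6,k12] [k3,k3,k1,k1,k3,k3,k3,k3,k3,k3,k0,k0] k0 [[k0,k0,k0,k2],[],[k0,k2]] k24 k5
    [[(k4,k6),(k10,k9)],[(k2,k6),(k8,k6)],[(k5,k10),(k11,k11)],[(k0,k6),(k6,k8)],[(k9,k6),(k3,k10)],[(k1,k6),(k7,k6)],
    [(k4,k6),(k10,k9)],[(k8,k6),(k2,k8)],[(k5,k6),(k11,k9)],[(k0,k6),(k6,k6)],[(k9,k9),(k3,k11)],[(k1,k9),(k7,k9)]]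
    [] k0
    [[k1,k1,k1,k0,k0,k0],[k1,k0,k1,k0,k1,k0],[k0,k0,k1,k1,k1,k0]]
    [.ref k1 k0 [(z1,[z1])],.ref k0 k0 [(z1,[z1])],.ref k2 k0 [(z1,[z0,z1]),(z1,[y1,y1,z1])]]),
    .old (.lp [k6,k10,k6,k6,k6,k12] [k3,k3,k1,k1,k3,k3,k3,k3,k3,k3,k0,k0] k0 [[k0,k0,k0,k2],[],[k0,k2]] k24 k5
    [[(k4,k6),(k10,k9)],[(k2,k6),(k8,k6)],[(k5,k10),(k11,k11)],[(k0,k6),(k6,k8)],[(k9,k6),(k3,k10)],[(k1,k6),(k7,k6)],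
    [(k4,k6),(k10,k9)],[(k8,k6),(k2,k8)],[(k5,k6),(k11,k9)],[(k0,k6),(k6,k6)],[(k9,k9),(k3,k11)],[(k1,k9),(k7,k9)]]
    [] k0
    [[k1,k1,k1,k0,k0,k0],[k1,k0,k1,k0,k1,k0],[k0,k0,k1,k1,k1,k0]]
    [.ref k1 k0 [(z1,[z1])],.ref k0 k0 [(z1,[z1])],.ref k3 k1 [(z1,[z1])]])]⟩

/-- classes `0 0 1 0 0 1`, types `N0 N2 C0 N0 N2 C2` -/
noncomputable def cU6_798 : CertX :=
  ⟨[k12,k14,k20,k12,k14,k22],[(false,k0,[k0,k1,k2,k3,k4,k5]),(true,k2,[k2,k1,k0,k5,k4,k3])],[[[([z1,z0,z0,z0,z1,z1],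
    z2),([z0,z1,z0,z0,y1,z0],z0)],[([z1,z0,z0,z0,z1,z1],z2)],[]]],
    [.old (.tor k10 false k0 [(z1,[y1,y1,z1]),(z1,[y1,z0,z1]),(z1,[z1]),(z1,[z1,z1])]),
    .old (.lp [k6,k10,k6,k6,k6,k12] [k3,k3,k1,k1,k3,k3,k3,k3,k3,k3,k0,k0] k0 [[k0,k0,k0,k2],[],[k0,k2]] k24 k5
    [[(k7,k6),(k10,k9)],[(k2,k6),(k8,k6)],[(k5,k10),(k11,k11)],[(k0,k6),(k6,k8)],[(k9,k6),(k3,k10)],[(k7,k6),(k10,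
    k9)],[(k1,k6),(k4,k6)],[(k8,k6),(k2,k8)],[(k5,k6),(k11,k9)],[(k0,k6),(k6,k6)],[(k9,k9),(k3,k11)],[(k1,k9),(k4,
    k9)]]
    [] k0
    [[k0,k0,k1,k1,k1,k0]]
    [.ref k0 k0 [(z1,[z0,z1]),(z1,[y1,y1,z1])]]),
    .old (.lp [k6,k10,k6,k6,k6,k12] [k3,k3,k1,k1,k3,k3,k3,k3,k3,k3,k0,k0] k0 [[k0,k0,k0,k2],[],[k0,k2]] k24 k5
    [[(k7,k6),(k10,k9)],[(k2,k6),(k8,k6)],[(k5,k10),(k11,k11)],[(k0,k6),(k6,k8)],[(k9,k6),(k3,k10)],[(k7,k6),(k10,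
    k9)],[(k1,k6),(k4,k6)],[(k8,k6),(k2,k8)],[(k5,k6),(k11,k9)],[(k0,k6),(k6,k6)],[(k9,k9),(k3,k11)],[(k1,k9),(k4,
    k9)]]
    [] k0
    [[k0,k0,k1,k1,k1,k0]]
    [.ref k1 k1 [(z1,[z1])]])]⟩

/-- classes `0 0 1 0 0 1`, types `N0 N2 C0 N1 N3 C0` -/
noncomputable def cU6_799 : CertX :=
  ⟨[k12,k14,k20,k13,k15,k20],[(false,k0,[k0,k1,k2,k3,k4,k5])],[[[([z1,z0,z1,z0,z1,z0],z2)],[([z1,z1,z1,z0,z0,z0],z2)],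
    []]],
    [.old (.leafM k1 [k0,k1,k2,k3,k4,k5] [(z1,[y1,z1]),(z1,[z1])] []),
    .old (.leafM k6 [k0,k1,k2,k3,k4,k5] [(z1,[y1,z1])] []),
    .old (.lp [k2,k2,k2,k2,k2,k4] [k1,k1,k1,k1,k1,k1,k1,k1,k1,k1,k0,k0] k0 [] k8 k5
    [[(k4,k2),(k10,k3)],[(k2,k2),(k9,k2)],[(k5,k2),(k6,k2)],[(k0,k2),(k11,k3)],[(k3,k2),(k8,k2)],[(k1,k2),(k7,k2)],
    [(k4,k2),(k10,k3)],[(k3,k2),(k8,k2)],[(k0,k2),(k11,k3)],[(k5,k2),(k6,k2)],[(k2,k3),(k9,k3)],[(k1,k3),(k7,k3)]]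
    [] k0
    [[k1,k1,k1,k0,k0,k0],[k1,k0,k1,k0,k1,k0]]
    [.ref k1 k0 [(z1,[z1])],.ref k0 k0 [(z1,[z1])]])]⟩

/-- classes `0 0 1 0 0 1`, types `N0 N2 C0 N1 N3 C2` -/
noncomputable def cU6_800 : CertX :=
  ⟨[k12,k14,k20,k13,k15,k22],[(false,k0,[k0,k1,k2,k3,k4,k5])],[[[([z1,z0,z0,z1,z1,z0],z2),([z0,z1,z0,z0,y1,z0],z0)],
    [([z1,z0,z0,z1,z1,z0],z2)],[]]],
    [.old (.tor k2 false k1 [(z1,[z1]),(z1,[z1,z1]),(z1,[y1,y1,z1]),(z1,[y1,z0,z1])]),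
    .old (.lp [k6,k10,k6,k12,k6,k6] [k3,k3,k1,k1,k3,k3,k0,k0,k3,k3,k3,k3] k0 [[k0,k0,k0,k2],[],[k0,k2]] k24 k5
    [[(k10,k6),(k7,k9)],[(k2,k6),(k9,k6)],[(k5,k10),(k6,k11)],[(k0,k6),(k11,k8)],[(k8,k6),(k3,k10)],[(k10,k6),(k7,
    k9)],[(k1,k9),(k4,k9)],[(k8,k9),(k3,k11)],[(k0,k6),(k11,k6)],[(k5,k6),(k6,k9)],[(k9,k6),(k2,k8)],[(k1,k6),(k4,
    k6)]]
    [] k0
    [[k0,k0,k1,k0,k1,k1]]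
    [.ref k0 k0 [(z1,[z0,z1]),(z1,[y1,y1,z1])]]),
    .old (.lp [k6,k12,k6,k6,k6,k10] [k3,k3,k0,k0,k3,k3,k3,k3,k3,k3,k1,k1] k0 [[],[],[k0,k0,k0,k0,k0,k0,k0,k0,k2],[],[],[],
    [],[],[],[k0,k0,k0,k2]] k24 k5
    [[(k7,k6),(k10,k8)],[(k9,k6),(k2,k9)],[(k5,k9),(k6,k9)],[(k0,k9),(k11,k9)],[(k8,k8),(k3,k9)],[(k7,k6),(k10,k8)],
    [(k1,k6),(k4,k6)],[(k8,k6),(k3,k9)],[(k0,k6),(k11,k8)],[(k6,k6),(k5,k8)],[(k9,k8),(k2,k9)],[(k1,k8),(k4,k8)]]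
    [] k0
    [[k1,k0,k0,k1,k1,k0]]
    [.ref k1 k0 [(z1,[z1])]])]⟩

/-- classes `0 0 1 0 0 1`, types `N0 N2 C0 N2 N0 C0` -/
noncomputable def cU6_801 : CertX :=
  ⟨[k12,k14,k20,k14,k12,k20],[(false,k0,[k0,k1,k2,k3,k4,k5])],[[[([z1,z0,z1,z1,z0,z1],z2)],[([z1,z1,z1,z0,z0,z0],z2)],
    []]],
    [.old (.leafM k2 [k2,k3,k5,k0] [] [(k4,k1,z1,[y1,z1]),(k1,k4,z1,[y1,z1])]),
    .old (.leafM k6 [k0,k1,k2,k3,k4,k5] [(z1,[y1,z1])] []),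
    .old (.lp [k2,k2,k2,k2,k2,k4] [k1,k1,k1,k1,k1,k1,k1,k1,k1,k1,k0,k0] k0 [] k8 k5
    [[(k4,k2),(k10,k3)],[(k2,k2),(k6,k2)],[(k5,k2),(k9,k2)],[(k0,k2),(k8,k2)],[(k3,k2),(k11,k3)],[(k1,k2),(k7,k2)],
    [(k4,k2),(k10,k3)],[(k0,k2),(k8,k2)],[(k3,k2),(k11,k3)],[(k2,k2),(k6,k2)],[(k5,k3),(k9,k3)],[(k1,k3),(k7,k3)]]
    [] k0
    [[k1,k1,k1,k0,k0,k0],[k0,k1,k0,k0,k1,k0]]
    [.ref k1 k0 [(z1,[z1])],.ref k0 k0 [(z1,[y1,z1])]])]⟩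

/-- classes `0 0 1 0 0 1`, types `N0 N2 C0 N2 N0 C2` -/
noncomputable def cU6_802 : CertX :=
  ⟨[k12,k14,k20,k14,k12,k22],[(true,k2,[k2,k1,k0,k5,k4,k3]),(false,k0,[k0,k1,k2,k3,k4,k5])],[[[([z1,z0,z1,z1,z0,z1],
    z2)],[([z1,z0,z0,z1,z0,z0],z1),([z0,z1,z0,z0,z1,z0],z1)],[([z1,z0,z0,z1,z0,z0],z2)],[]]],
    [.old (.leafM k2 [k2,k3,k5,k0] [] [(k4,k1,z1,[y1,z1]),(k1,k4,z1,[y1,z1])]),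
    .old (.leafM k7 [k0,k1,k3,k4] [(z1,[z0,z1])] [(k2,k5,z1,[y1,y1,z1]),(k5,k2,z1,[y1,y1,z1])]),
    .old (.lp [k18,k50,k0,k102,k0,k60] [k42,k42,k26,k26,k51,k51,k0,k0,k51,k51,k21,k21] k0 [[k0,k0,k0,k10],[],[k0,
    k10]] k120 k6
    [[(k10,k39),(k7,k60)],[(k2,k24),(k6,k60)],[(k9,k25),(k5,k35)],[(k0,k24),(k8,k25)],[(k11,k30),(k3,k35)],[(k10,k30),
    (k7,k51)],[(k4,k51),(k1,k60)],[(k8,k51),(k0,k60)],[(k3,k25),(k11,k30)],[(k2,k25),(k6,k51)],[(k5,k30),(k9,k30)],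
    [(k4,k30),(k1,k39)]]
    [] k0
    [[k0,k1,k0,k0,k1,k0],[k0,k2,k0,k0,k2,k0],[k0,k0,k1,k0,k0,k1]]
    [.contra [y1,y1,z1],.ref k1 k0 [(z2,[y1,y2,z2]),(z2,[z1])],.contra [y1,y1,z1]]),
    .old (.lp [k0,k2,k0,k2,k0,k2] [k1,k1,k0,k0,k1,k1,k0,k0,k1,k1,k0,k0] k0 [] k4 k5
    [[(k7,k1),(k10,k1)],[(k2,k1),(k6,k1)],[(k5,k1),(k9,k1)],[(k0,k1),(k8,k1)],[(k3,k1),(k11,k1)],[(k7,k1),(k10,k1)],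
    [(k1,k1),(k4,k1)],[(k0,k1),(k8,k1)],[(k3,k1),(k11,k1)],[(k2,k1),(k6,k1)],[(k5,k1),(k9,k1)],[(k1,k1),(k4,k1)]]
    [] k0
    [[k1,k0,k0,k1,k0,k0],[k0,k1,k0,k0,k1,k0],[k0,k0,k1,k0,k0,k1]]
    [.ref k2 k1 [(z1,[z1])],.ref k0 k1 [(z1,[y1,z1])],.ref k2 k0 [(z1,[z1])]])]⟩

/-- classes `0 0 1 0 0 1`, types `N0 N2 C0 N3 N1 C0` -/
noncomputable def cU6_803 : CertX :=
  ⟨[k12,k14,k20,k15,k13,k20],[(false,k3,[k3,k4,k5,k0,k1,k2]),(false,k0,[k0,k1,k2,k3,k4,k5])],[[[([z1,z1,z1,z0,z0,z0],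
    z2)],[([z1,z0,z1,z1,z0,z1],z2)],[([z1,z0,z0,z0,z0,z1],z1),([z0,z1,z0,z0,z1,z0],z1)],[([z1,z0,z0,z0,z0,z1],z2)],
    []]],
    [.old (.leafM k6 [k0,k1,k2,k3,k4,k5] [(z1,[y1,z1])] []),
    .old (.leafM k5 [k0,k2,k3,k5] [] [(k1,k4,z1,[y1,z1]),(k4,k1,z1,[y1,z1])]),
    .old (.leafM k4 [k0,k1,k4,k5] [(z1,[z0,z1])] [(k2,k3,z1,[y1,y1,z1]),(k3,k2,z1,[y1,y1,z1])]),
    .old (.lp [k60,k50,k12,k48,k0,k60] [k0,k0,k5,k5,k24,k24,k6,k6,k30,k30,k0,k0] k0 [[k0,k0,k0,k10],[],[k0,k10]] k120 k6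
    [[(k4,k36),(k10,k60)],[(k2,k45),(k11,k60)],[(k8,k25),(k5,k41)],[(k9,k25),(k0,k45)],[(k6,k30),(k3,k41)],[(k7,k30),
    (k1,k36)],[(k4,k30),(k10,k54)],[(k8,k24),(k5,k30)],[(k2,k25),(k11,k30)],[(k6,k24),(k3,k25)],[(k9,k30),(k0,k60)],
    [(k7,k54),(k1,k60)]]
    [] k0
    [[k0,k1,k0,k0,k1,k0],[k0,k2,k0,k0,k2,k0],[k0,k0,k1,k1,k0,k0],[k0,k0,k0,k1,k1,k1]]
    [.contra [y1,y1,z1],.ref k2 k0 [(z2,[y1,y2,z2]),(z2,[z1])],.contra [y1,y1,z1],.ref k0 k1 [(z1,[y1,z0,z1])]]),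
    .old (.lp [k2,k4,k2,k2,k2,k2] [k1,k1,k0,k0,k1,k1,k1,k1,k1,k1,k1,k1] k0 [] k8 k5
    [[(k4,k2),(k10,k2)],[(k11,k2),(k2,k3)],[(k5,k3),(k8,k3)],[(k0,k3),(k9,k3)],[(k6,k2),(k3,k3)],[(k1,k2),(k7,k2)],
    [(k4,k2),(k10,k2)],[(k5,k2),(k8,k2)],[(k11,k2),(k2,k3)],[(k6,k2),(k3,k3)],[(k0,k2),(k9,k2)],[(k1,k2),(k7,k2)]]
    [] k0
    [[k1,k0,k0,k0,k0,k1],[k0,k1,k0,k0,k1,k0],[k0,k0,k1,k1,k0,k0],[k0,k0,k0,k1,k1,k1]]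
    [.ref k3 k1 [(z1,[z1])],.ref k1 k1 [(z1,[y1,z1])],.ref k3 k0 [(z1,[z1])],.ref k0 k1 [(z1,[y1,z1])]])]⟩

/-- classes `0 0 1 0 0 1`, types `N0 N2 C0 N3 N1 C2` -/
noncomputable def cU6_804 : CertX :=
  ⟨[k12,k14,k20,k15,k13,k22],[(false,k3,[k3,k4,k5,k0,k1,k2]),(false,k0,[k0,k1,k2,k3,k4,k5])],[[[([z1,z0,z1,z1,z0,z1],
    z2)],[([z1,z0,z0,z0,z0,z1],z1),([z0,z1,z0,z0,z1,z0],z1)],[([z1,z0,z0,z0,z0,z1],z2)],[]]],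
    [.old (.leafM k6 [k0,k2,k3,k5] [] [(k1,k4,z1,[y1,z1]),(k4,k1,z1,[y1,z1])]),
    .old (.leafM k4 [k0,k1,k4,k5] [(z1,[z0,z1])] [(k2,k3,z1,[y1,y1,z1]),(k3,k2,z1,[y1,y1,z1])]),
    .old (.lp [k18,k50,k12,k48,k0,k102] [k42,k42,k26,k26,k45,k45,k27,k27,k51,k51,k0,k0] k0 [[k0,k0,k0,k10],[],[k0,
    k10]] k120 k6
    [[(k7,k33),(k10,k60)],[(k2,k24),(k11,k60)],[(k8,k25),(k5,k41)],[(k0,k24),(k9,k25)],[(k6,k30),(k3,k41)],[(k7,k30),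
    (k10,k57)],[(k4,k30),(k1,k33)],[(k8,k24),(k5,k30)],[(k2,k25),(k11,k51)],[(k6,k24),(k3,k25)],[(k9,k51),(k0,k60)],
    [(k4,k57),(k1,k60)]]
    [] k0
    [[k0,k1,k0,k0,k1,k0],[k0,k2,k0,k0,k2,k0],[k0,k0,k1,k1,k0,k0]]
    [.contra [y1,y1,z1],.ref k1 k0 [(z2,[y1,y2,z2]),(z2,[z1])],.contra [y1,y1,z1]]),
    .old (.lp [k0,k2,k0,k2,k0,k2] [k1,k1,k0,k0,k1,k1,k0,k0,k1,k1,k0,k0] k0 [] k4 k5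
    [[(k7,k1),(k10,k1)],[(k2,k1),(k11,k1)],[(k5,k1),(k8,k1)],[(k0,k1),(k9,k1)],[(k3,k1),(k6,k1)],[(k7,k1),(k10,k1)],
    [(k1,k1),(k4,k1)],[(k5,k1),(k8,k1)],[(k2,k1),(k11,k1)],[(k3,k1),(k6,k1)],[(k0,k1),(k9,k1)],[(k1,k1),(k4,k1)]]
    [] k0
    [[k1,k0,k0,k0,k0,k1],[k0,k1,k0,k0,k1,k0],[k0,k0,k1,k1,k0,k0]]
    [.ref k2 k1 [(z1,[z1])],.ref k0 k1 [(z1,[y1,z1])],.ref k2 k0 [(z1,[z1])]])]⟩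

/-- classes `0 0 1 0 0 1`, types `N0 N2 N0 N0 N2 N1` -/
noncomputable def cU6_805 : CertX :=
  ⟨[k12,k14,k28,k12,k14,k29],[(false,k0,[k0,k1,k2,k3,k4,k5])],[[[([z1,z0,z1,z0,z1,z0],z2)],[([z1,z1,z1,z0,z0,z0],z2)],
    []]],
    [.old (.leafM k5 [k1,k2,k3,k4,k5,k0] [(z1,[z1]),(z1,[y1,z1])] []),
    .old (.leafM k6 [k0,k1,k2,k3,k4,k5] [(z1,[y1,z1])] []),
    .old (.lp [k2,k2,k2,k2,k2,k4] [k1,k1,k1,k1,k1,k1,k1,k1,k1,k1,k0,k0] k0 [] k8 k5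
    [[(k4,k2)],[(k2,k2),(k8,k2)],[(k5,k2),(k11,k3)],[(k0,k2),(k6,k2)],[(k3,k2),(k9,k2)],[(k1,k2)],[(k10,k3)],[(k2,k2),
    (k8,k2)],[(k5,k2),(k11,k3)],[(k0,k2),(k6,k2)],[(k3,k3),(k9,k3)],[(k7,k3)]]
    [] k0
    [[k1,k1,k1,k0,k0,k0],[k1,k0,k1,k0,k1,k0]]
    [.ref k1 k0 [(z1,[z1])],.ref k0 k0 [(z1,[z1])]])]⟩

/-- classes `0 0 1 0 0 1`, types `N0 N2 N0 N0 N2 N2` -/
noncomputable def cU6_806 : CertX :=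
  ⟨[k12,k14,k28,k12,k14,k30],[],[[[]]],
    [.old (.lp [k2,k2,k2,k2,k2,k2] [k0,k0,k0,k0,k0,k0,k0,k0,k0,k0,k0,k0] k0 [] k8 k5
    [[(k7,k2)],[(k2,k2),(k8,k2)],[(k5,k2),(k11,k2)],[(k0,k2),(k6,k2)],[(k3,k2),(k9,k2)],[(k10,k2)],[(k1,k2)],[(k2,k2),
    (k8,k2)],[(k5,k2),(k11,k2)],[(k0,k2),(k6,k2)],[(k3,k2),(k9,k2)],[(k4,k2)]]
    [] k0
    []
    [])]⟩

/-- classes `0 0 1 0 0 1`, types `N0 N2 N0 N1 N3 N1` -/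
noncomputable def cU6_807 : CertX :=
  ⟨[k12,k14,k28,k13,k15,k29],[(false,k0,[k0,k1,k2,k3,k4,k5])],[[[([z1,z0,z1,z0,z1,z0],z2)],[([z1,z1,z1,z0,z0,z0],z2)],
    []]],
    [.old (.leafM k1 [k0,k1,k2,k3,k4,k5] [(z1,[y1,z1]),(z1,[z1])] []),
    .old (.leafM k6 [k0,k1,k2,k3,k4,k5] [(z1,[y1,z1])] []),
    .old (.lp [k2,k2,k2,k2,k2,k4] [k1,k1,k1,k1,k1,k1,k1,k1,k1,k1,k0,k0] k0 [] k8 k5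
    [[(k4,k2)],[(k2,k2),(k9,k2)],[(k5,k2),(k6,k2)],[(k0,k2),(k11,k3)],[(k3,k2),(k8,k2)],[(k1,k2)],[(k10,k3)],[(k3,k2),
    (k8,k2)],[(k0,k2),(k11,k3)],[(k5,k2),(k6,k2)],[(k2,k3),(k9,k3)],[(k7,k3)]]
    [] k0
    [[k1,k1,k1,k0,k0,k0],[k1,k0,k1,k0,k1,k0]]
    [.ref k1 k0 [(z1,[z1])],.ref k0 k0 [(z1,[z1])]])]⟩

/-- classes `0 0 1 0 0 1`, types `N0 N2 N0 N1 N3 N2` -/
noncomputable def cU6_808 : CertX :=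
  ⟨[k12,k14,k28,k13,k15,k30],[(false,k0,[k0,k1,k2,k3,k4,k5])],[[[([z1,z0,z0,z1,z1,z0],z2),([z0,z1,z0,z0,y1,z0],z0)],
    [([z1,z0,z0,z1,z1,z0],z2)],[]]],
    [.old (.tor k2 false k1 [(z1,[z1]),(z1,[z1,z1]),(z1,[y1,y1,z1]),(z1,[y1,z0,z1])]),
    .old (.lp [k6,k10,k6,k12,k6,k6] [k3,k3,k1,k1,k3,k3,k0,k0,k3,k3,k3,k3] k0 [[k0,k0,k0,k2],[],[k0,k2]] k24 k5
    [[(k7,k9)],[(k2,k6),(k9,k6)],[(k5,k10),(k6,k11)],[(k0,k6),(k11,k8)],[(k8,k6),(k3,k10)],[(k10,k6)],[(k1,k9)],[(k8,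
    k9),(k3,k11)],[(k0,k6),(k11,k6)],[(k5,k6),(k6,k9)],[(k9,k6),(k2,k8)],[(k4,k6)]]
    [] k0
    [[k0,k0,k1,k0,k1,k1]]
    [.ref k0 k0 [(z1,[z0,z1]),(z1,[y1,y1,z1])]]),
    .old (.lp [k6,k12,k2,k6,k6,k14] [k4,k4,k1,k1,k6,k6,k4,k4,k4,k4,k0,k0] k0 [[],[],[k0,k0,k0,k0,k0,k0,k0,k0,k2],[],[],[],
    [],[],[],[k0,k0,k0,k2]] k24 k5
    [[(k7,k6)],[(k9,k6),(k2,k9)],[(k5,k7),(k6,k9)],[(k0,k9),(k11,k11)],[(k8,k6),(k3,k7)],[(k10,k8)],[(k1,k6)],[(k8,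
    k6),(k3,k9)],[(k0,k6),(k11,k10)],[(k5,k6),(k6,k6)],[(k9,k10),(k2,k11)],[(k4,k8)]]
    [] k0
    [[k1,k0,k0,k1,k1,k0]]
    [.ref k1 k0 [(z1,[z1])]])]⟩

/-- classes `0 0 1 0 0 1`, types `N0 N2 N0 N2 N0 N1` -/
noncomputable def cU6_809 : CertX :=
  ⟨[k12,k14,k28,k14,k12,k29],[(false,k0,[k0,k1,k2,k3,k4,k5])],[[[([z1,z0,z1,z1,z0,z1],z2)],[([z1,z1,z1,z0,z0,z0],z2)],
    []]],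
    [.old (.leafM k6 [k2,k3,k5,k0] [] [(k4,k1,z1,[y1,z1]),(k1,k4,z1,[y1,z1])]),
    .old (.leafM k6 [k0,k1,k2,k3,k4,k5] [(z1,[y1,z1])] []),
    .old (.lp [k2,k2,k2,k2,k2,k4] [k1,k1,k1,k1,k1,k1,k1,k1,k1,k1,k0,k0] k0 [] k8 k5
    [[(k4,k2)],[(k2,k2),(k6,k2)],[(k5,k2),(k9,k2)],[(k0,k2),(k8,k2)],[(k3,k2),(k11,k3)],[(k1,k2)],[(k10,k3)],[(k0,k2),
    (k8,k2)],[(k3,k2),(k11,k3)],[(k2,k2),(k6,k2)],[(k5,k3),(k9,k3)],[(k7,k3)]]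
    [] k0
    [[k1,k1,k1,k0,k0,k0],[k0,k1,k0,k0,k1,k0]]
    [.ref k1 k0 [(z1,[z1])],.ref k0 k0 [(z1,[y1,z1])]])]⟩

/-- classes `0 0 1 0 0 1`, types `N0 N2 N0 N2 N0 N2` -/
noncomputable def cU6_810 : CertX :=
  ⟨[k12,k14,k28,k14,k12,k30],[(true,k2,[k2,k1,k0,k5,k4,k3]),(false,k0,[k0,k1,k2,k3,k4,k5])],[[[([z1,z0,z0,z1,z0,z0],
    z1),([z0,z1,z0,z0,z1,z0],z1)],[([z1,z0,z0,z1,z0,z0],z2)],[([z1,z0,z0,z1,z0,z0],z1),([z0,z1,z0,z0,z1,z0],z2)],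
    [([z1,z0,z1,z1,z0,z1],z2)],[]]],
    [.old (.leafM k7 [k0,k1,k3,k4] [(z1,[z0,z1])] [(k2,k5,z1,[y1,y1,z1]),(k5,k2,z1,[y1,y1,z1])]),
    .old (.lp [k18,k50,k0,k102,k0,k60] [k42,k42,k26,k26,k51,k51,k0,k0,k51,k51,k21,k21] k0 [[k0,k0,k0,k10],[],[k0,
    k10]] k120 k6
    [[(k7,k60)],[(k2,k24),(k6,k60)],[(k9,k25),(k5,k35)],[(k0,k24),(k8,k25)],[(k11,k30),(k3,k35)],[(k10,k30)],[(k1,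
    k60)],[(k8,k51),(k0,k60)],[(k3,k25),(k11,k30)],[(k2,k25),(k6,k51)],[(k5,k30),(k9,k30)],[(k4,k30)]]
    [] k0
    [[k0,k1,k0,k0,k1,k0],[k0,k2,k0,k0,k2,k0],[k0,k0,k1,k0,k0,k1]]
    [.contra [y1,y1,z1],.ref k0 k0 [(z2,[y1,y2,z2]),(z2,[z1])],.contra [y1,y1,z1]]),
    .old (.leafM k7 [k0,k2,k3,k5] [(z1,[y1,y1,z1])] [(k1,k4,z1,[z0,z1]),(k4,k1,z1,[z0,z1])]),
    .old (.lp [k0,k20,k0,k8,k0,k10] [k10,k10,k0,k0,k10,k10,k6,k6,k10,k10,k5,k5] k0 [] k20 k6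
    [[(k7,k4)],[(k6,k4),(k2,k10)],[(k5,k10),(k9,k10)],[(k0,k10),(k8,k10)],[(k11,k5),(k3,k10)],[(k10,k5)],[(k1,k4)],
    [(k0,k4),(k8,k4)],[(k11,k5),(k3,k10)],[(k6,k4),(k2,k10)],[(k5,k5),(k9,k5)],[(k4,k5)]]
    [] k0
    [[k1,k0,k0,k1,k0,k0],[k2,k0,k0,k2,k0,k0],[k0,k0,k1,k0,k0,k1]]
    [.contra [y1,z1],.ref k2 k1 [(z2,[z1]),(z1,[z0,y1,z1])],.contra [y1,z1]]),
    .old (.lp [k0,k2,k0,k2,k0,k2] [k1,k1,k0,k0,k1,k1,k0,k0,k1,k1,k0,k0] k0 [] k4 k5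
    [[(k7,k1)],[(k2,k1),(k6,k1)],[(k5,k1),(k9,k1)],[(k0,k1),(k8,k1)],[(k3,k1),(k11,k1)],[(k10,k1)],[(k1,k1)],[(k0,k1),
    (k8,k1)],[(k3,k1),(k11,k1)],[(k2,k1),(k6,k1)],[(k5,k1),(k9,k1)],[(k4,k1)]]
    [] k0
    [[k1,k0,k0,k1,k0,k0],[k0,k1,k0,k0,k1,k0],[k0,k0,k1,k0,k0,k1]]
    [.ref k1 k1 [(z1,[z1])],.ref k3 k1 [(z1,[y1,z1])],.ref k1 k0 [(z1,[z1])]])]⟩

/-- classes `0 0 1 0 0 1`, types `N0 N2 N0 N3 N1 N1` -/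
noncomputable def cU6_811 : CertX :=
  ⟨[k12,k14,k28,k15,k13,k29],[(false,k0,[k0,k1,k2,k3,k4,k5])],[[[([z1,z0,z1,z1,z0,z1],z2)],[([z1,z1,z1,z0,z0,z0],z2)],
    []]],
    [.old (.leafM k5 [k0,k2,k3,k5] [] [(k1,k4,z1,[y1,z1]),(k4,k1,z1,[y1,z1])]),
    .old (.leafM k6 [k0,k1,k2,k3,k4,k5] [(z1,[y1,z1])] []),
    .old (.lp [k2,k2,k2,k2,k2,k4] [k1,k1,k1,k1,k1,k1,k1,k1,k1,k1,k0,k0] k0 [] k8 k5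
    [[(k4,k2)],[(k2,k2),(k11,k3)],[(k5,k2),(k8,k2)],[(k0,k2),(k9,k2)],[(k3,k2),(k6,k2)],[(k1,k2)],[(k10,k3)],[(k5,k2),
    (k8,k2)],[(k2,k2),(k11,k3)],[(k3,k2),(k6,k2)],[(k0,k3),(k9,k3)],[(k7,k3)]]
    [] k0
    [[k1,k1,k1,k0,k0,k0],[k0,k1,k0,k0,k1,k0]]
    [.ref k1 k0 [(z1,[z1])],.ref k0 k0 [(z1,[y1,z1])]])]⟩

/-- classes `0 0 1 0 0 1`, types `N0 N2 N0 N3 N1 N2` -/
noncomputable def cU6_812 : CertX :=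
  ⟨[k12,k14,k28,k15,k13,k30],[(false,k0,[k0,k1,k2,k3,k4,k5])],[[[([z1,z0,z1,z1,z0,z1],z2)],[]]],
    [.old (.leafM k6 [k0,k2,k3,k5] [] [(k1,k4,z1,[y1,z1]),(k4,k1,z1,[y1,z1])]),
    .old (.lp [k0,k2,k0,k2,k0,k2] [k1,k1,k0,k0,k1,k1,k0,k0,k1,k1,k0,k0] k0 [] k4 k5
    [[(k7,k1)],[(k2,k1),(k11,k1)],[(k5,k1),(k8,k1)],[(k0,k1),(k9,k1)],[(k3,k1),(k6,k1)],[(k10,k1)],[(k1,k1)],[(k5,k1),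
    (k8,k1)],[(k2,k1),(k11,k1)],[(k3,k1),(k6,k1)],[(k0,k1),(k9,k1)],[(k4,k1)]]
    [] k0
    [[k0,k1,k0,k0,k1,k0]]
    [.ref k0 k0 [(z1,[y1,z1])]])]⟩

/-- classes `0 0 1 0 0 1`, types `N0 N2 S0 N0 N2 S0` -/
noncomputable def cU6_813 : CertX :=
  ⟨[k12,k14,k16,k12,k14,k16],[(false,k0,[k0,k1,k2,k3,k4,k5])],[[[([z1,z1,z1,z0,z0,z0],z2)],[([z1,z0,z1,z0,z1,z0],z2)],
    [([z1,z0,z0,z0,z1,z1],z2),([z0,z1,z0,z0,y1,z0],z0)],[([z1,z0,z0,z0,z1,z1],z2)],[]]],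
    [.old (.leafM k6 [k0,k1,k2,k3,k4,k5] [(z1,[y1,z1])] []),
    .old (.leafM k5 [k1,k2,k3,k4,k5,k0] [(z1,[z1]),(z1,[y1,z1])] []),
    .old (.tor k10 false k0 [(z1,[y1,y1,z1]),(z1,[y1,z0,z1]),(z1,[z1]),(z1,[z1,z1])]),
    .old (.lp [k12,k6,k8,k8,k4,k8] [k0,k0,k3,k3,k2,k2,k2,k2,k4,k4,k2,k2] k0 [[k0,k0,k0,k2],[],[k0,k2]] k24 k5
    [[(k4,k10),(k7,k10),(k10,k10),(k1,k12)],[(k2,k7),(k8,k8)],[(k11,k7),(k5,k9)],[(k0,k7),(k6,k7)],[(k9,k6),(k3,k9)],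
    [(k4,k8),(k7,k8),(k10,k8),(k1,k10)],[(k4,k8),(k7,k8),(k10,k8),(k1,k10)],[(k8,k6),(k2,k7)],[(k5,k6),(k11,k6)],[(k6,
    k6),(k0,k8)],[(k9,k6),(k3,k7)],[(k4,k8),(k7,k8),(k10,k8),(k1,k10)]]
    [] k0
    [[k0,k1,k0,k1,k0,k1],[k0,k0,k1,k1,k1,k0],[k0,k0,k0,k1,k1,k1]]
    [.ref k1 k0 [(z1,[y1,z0,z1])],.ref k2 k0 [(z1,[z0,z1]),(z1,[y1,y1,z1])],.ref k0 k0 [(z1,[y1,z0,z1])]]),
    .old (.lp [k8,k8,k10,k8,k4,k8] [k1,k1,k1,k1,k0,k0,k1,k1,k3,k3,k1,k1] k0 [[],[],[k0,k0,k0,k0,k0,k0,k0,k2],[],[],[],[k0,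
    k0,k0,k2]] k24 k5
    [[(k1,k8),(k7,k8),(k10,k8),(k4,k9)],[(k8,k6),(k2,k8)],[(k11,k8),(k5,k9)],[(k6,k6),(k0,k8)],[(k3,k9),(k9,k9)],[(k1,
    k9),(k7,k9),(k10,k9),(k4,k10)],[(k1,k8),(k7,k8),(k10,k8),(k4,k9)],[(k2,k6),(k8,k6)],[(k11,k6),(k5,k9)],[(k0,k6),
    (k6,k6)],[(k9,k6),(k3,k8)],[(k1,k8),(k7,k8),(k10,k8),(k4,k9)]]
    [] k0
    [[k1,k0,k0,k0,k1,k1],[k0,k1,k0,k1,k0,k1],[k0,k0,k0,k1,k1,k1]]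
    [.ref k3 k0 [(z1,[z1])],.ref k1 k0 [(z1,[y1,z1])],.ref k0 k0 [(z1,[y1,z1])]])]⟩

/-- classes `0 0 1 0 0 1`, types `N0 N2 S0 N1 N3 S0` -/
noncomputable def cU6_814 : CertX :=
  ⟨[k12,k14,k16,k13,k15,k16],[(false,k0,[k0,k1,k2,k3,k4,k5])],[[[([z1,z1,z1,z0,z0,z0],z2)],[([z1,z0,z1,z0,z1,z0],z2)],
    [([z1,z0,z0,z1,z1,z0],z2),([z0,z1,z0,z0,y1,z0],z0)],[([z1,z0,z0,z1,z1,z0],z2)],[]]],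
    [.old (.leafM k6 [k0,k1,k2,k3,k4,k5] [(z1,[y1,z1])] []),
    .old (.leafM k1 [k0,k1,k2,k3,k4,k5] [(z1,[y1,z1]),(z1,[z1])] []),
    .old (.tor k2 false k1 [(z1,[z1]),(z1,[z1,z1]),(z1,[y1,y1,z1]),(z1,[y1,z0,z1])]),
    .old (.lp [k12,k6,k8,k8,k4,k8] [k0,k0,k3,k3,k2,k2,k2,k2,k4,k4,k2,k2] k0 [[k0,k0,k0,k2],[],[k0,k2]] k24 k5
    [[(k4,k10),(k7,k10),(k10,k10),(k1,k12)],[(k2,k7),(k9,k8)],[(k6,k7),(k5,k9)],[(k0,k7),(k11,k7)],[(k8,k6),(k3,k9)],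
    [(k4,k8),(k7,k8),(k10,k8),(k1,k10)],[(k4,k8),(k7,k8),(k10,k8),(k1,k10)],[(k8,k6),(k3,k7)],[(k11,k6),(k0,k8)],[(k5,
    k6),(k6,k6)],[(k9,k6),(k2,k7)],[(k4,k8),(k7,k8),(k10,k8),(k1,k10)]]
    [] k0
    [[k0,k1,k0,k1,k0,k1],[k0,k0,k1,k0,k1,k1],[k0,k0,k0,k1,k1,k1]]
    [.ref k1 k0 [(z1,[y1,z0,z1])],.ref k2 k0 [(z1,[z0,z1]),(z1,[y1,y1,z1])],.ref k0 k0 [(z1,[y1,z0,z1])]]),
    .old (.lp [k12,k4,k8,k6,k8,k8] [k0,k0,k4,k4,k2,k2,k3,k3,k2,k2,k2,k2] k0 [[k0,k0,k0,k0,k0,k0,k2],[],[],[],[],[],[],[k0,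
    k2]] k24 k5
    [[(k7,k9),(k4,k10),(k10,k10),(k1,k12)],[(k2,k8),(k9,k8)],[(k5,k6),(k6,k7)],[(k11,k6),(k0,k8)],[(k3,k6),(k8,k8)],
    [(k7,k7),(k4,k8),(k10,k8),(k1,k10)],[(k7,k6),(k4,k7),(k10,k7),(k1,k9)],[(k3,k7),(k8,k7)],[(k0,k8),(k11,k8)],[(k6,
    k7),(k5,k8)],[(k2,k6),(k9,k8)],[(k7,k7),(k4,k8),(k10,k8),(k1,k10)]]
    [] k0
    [[k0,k1,k1,k0,k0,k1],[k0,k1,k0,k1,k0,k1],[k0,k0,k0,k1,k1,k1]]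
    [.ref k3 k0 [(z1,[y1,z1])],.ref k1 k0 [(z1,[y1,z1])],.ref k0 k0 [(z1,[y1,z1])]])]⟩

/-- classes `0 0 1 0 0 1`, types `N0 N2 S0 N2 N0 S0` -/
noncomputable def cU6_815 : CertX :=
  ⟨[k12,k14,k16,k14,k12,k16],[(false,k0,[k0,k1,k2,k3,k4,k5]),(true,k2,[k2,k1,k0,k5,k4,k3])],[[[([z1,z0,z1,z1,z0,z1],
    z2)],[([z1,z1,z1,z0,z0,z0],z2)],[([z1,z0,z0,z1,z0,z0],z1),([z0,z1,z0,z0,z1,z0],z1)],[([z1,z0,z0,z1,z0,z0],z2)],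
    []]],
    [.old (.leafM k2 [k2,k3,k5,k0] [] [(k4,k1,z1,[y1,z1]),(k1,k4,z1,[y1,z1])]),
    .old (.leafM k6 [k0,k1,k2,k3,k4,k5] [(z1,[y1,z1])] []),
    .old (.leafM k7 [k0,k1,k3,k4] [(z1,[z0,z1])] [(k2,k5,z1,[y1,y1,z1]),(k5,k2,z1,[y1,y1,z1])]),
    .old (.lp [(nat_lit 3120),k190,(nat_lit 912),(nat_lit 1440),(nat_lit 1680),(nat_lit 1440)] [k0,k0,(nat_lit 1465),
    (nat_lit 1465),(nat_lit 1104),(nat_lit 1104),(nat_lit 840),(nat_lit 840),(nat_lit 720),(nat_lit 720),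
    (nat_lit 840),(nat_lit 840)] k0 [[k0,k0,k0,(nat_lit 380)],[],[k0,(nat_lit 380)]] (nat_lit 4560) k6
    [[(k4,(nat_lit 2016)),(k7,(nat_lit 2280)),(k10,(nat_lit 2280)),(k1,(nat_lit 3120))],[(k2,(nat_lit 1275)),(k6,
    (nat_lit 2280))],[(k5,(nat_lit 931)),(k9,(nat_lit 935))],[(k8,(nat_lit 935)),(k0,(nat_lit 1275))],[(k3,
    (nat_lit 931)),(k11,(nat_lit 1176))],[(k4,(nat_lit 912)),(k7,(nat_lit 1176)),(k10,(nat_lit 1176)),(k1,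
    (nat_lit 2016))],[(k4,(nat_lit 1176)),(k7,(nat_lit 1440)),(k10,(nat_lit 1440)),(k1,(nat_lit 2280))],[(k8,
    (nat_lit 1560)),(k0,(nat_lit 2280))],[(k3,(nat_lit 935)),(k11,(nat_lit 1560))],[(k2,(nat_lit 935)),(k6,
    (nat_lit 1560))],[(k5,(nat_lit 1176)),(k9,(nat_lit 1560))],[(k4,(nat_lit 1176)),(k7,(nat_lit 1440)),(k10,
    (nat_lit 1440)),(k1,(nat_lit 2280))]]
    [] k0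
    [[k1,k1,k1,k0,k0,k0],[k0,k1,k0,k0,k1,k0],[k0,k2,k0,k0,k2,k0],[k0,k0,k1,k0,k0,k1]]
    [.ref k1 k0 [(z1,[z1])],.contra [y1,y1,z1],.ref k2 k1 [(z2,[y1,y2,z2]),(z2,[z1])],.contra [y1,y1,z1]]),
    .old (.lp [k2,k2,k2,k2,k2,k4] [k1,k1,k1,k1,k1,k1,k1,k1,k1,k1,k0,k0] k0 [] k8 k5
    [[(k1,k2),(k4,k2),(k7,k2),(k10,k3)],[(k2,k2),(k6,k2)],[(k5,k2),(k9,k2)],[(k0,k2),(k8,k2)],[(k3,k2),(k11,k3)],[(k1,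
    k2),(k4,k2),(k7,k2),(k10,k3)],[(k1,k2),(k4,k2),(k7,k2),(k10,k3)],[(k0,k2),(k8,k2)],[(k3,k2),(k11,k3)],[(k2,k2),
    (k6,k2)],[(k5,k3),(k9,k3)],[(k1,k3),(k4,k3),(k7,k3),(k10,k4)]]
    [] k0
    [[k1,k1,k1,k0,k0,k0],[k1,k0,k0,k1,k0,k0],[k0,k1,k0,k0,k1,k0],[k0,k0,k1,k0,k0,k1]]
    [.ref k1 k0 [(z1,[z1])],.ref k3 k0 [(z1,[z1])],.ref k0 k0 [(z1,[y1,z1])],.ref k3 k1 [(z1,[z1])]])]⟩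

/-- classes `0 0 1 0 0 1`, types `N0 N2 S0 N3 N1 S0` -/
noncomputable def cU6_816 : CertX :=
  ⟨[k12,k14,k16,k15,k13,k16],[(false,k3,[k3,k4,k5,k0,k1,k2]),(false,k0,[k0,k1,k2,k3,k4,k5])],[[[([z1,z1,z1,z0,z0,z0],
    z2)],[([z1,z0,z1,z1,z0,z1],z2)],[([z1,z0,z0,z0,z0,z1],z1),([z0,z1,z0,z0,z1,z0],z1)],[([z1,z0,z0,z0,z0,z1],z2)],
    []]],
    [.old (.leafM k6 [k0,k1,k2,k3,k4,k5] [(z1,[y1,z1])] []),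
    .old (.leafM k5 [k0,k2,k3,k5] [] [(k1,k4,z1,[y1,z1]),(k4,k1,z1,[y1,z1])]),
    .old (.leafM k4 [k0,k1,k4,k5] [(z1,[z0,z1])] [(k2,k3,z1,[y1,y1,z1]),(k3,k2,z1,[y1,y1,z1])]),
    .old (.lp [k60,k40,k24,k40,k10,k60] [k0,k0,k10,k10,k18,k18,k10,k10,k25,k25,k0,k0] k0 [[k0,k0,k0,k10],[],[k0,
    k10]] k120 k6
    [[(k4,k42),(k7,k50),(k1,k60),(k10,k60)],[(k2,k40),(k11,k60)],[(k8,k25),(k5,k42)],[(k9,k25),(k0,k40)],[(k6,k32),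
    (k3,k42)],[(k4,k24),(k7,k32),(k1,k42),(k10,k42)],[(k4,k32),(k7,k40),(k1,k50),(k10,k50)],[(k8,k25),(k5,k32)],[(k2,
    k25),(k11,k35)],[(k3,k25),(k6,k25)],[(k9,k35),(k0,k60)],[(k4,k42),(k7,k50),(k1,k60),(k10,k60)]]
    [] k0
    [[k0,k1,k0,k0,k1,k0],[k0,k2,k0,k0,k2,k0],[k0,k0,k1,k1,k0,k0],[k0,k0,k0,k1,k1,k1]]
    [.contra [y1,y1,z1],.ref k2 k0 [(z2,[y1,y2,z2]),(z2,[z1])],.contra [y1,y1,z1],.ref k0 k1 [(z1,[y1,z0,z1])]]),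
    .old (.lp [k4,k2,k2,k2,k2,k2] [k0,k0,k1,k1,k1,k1,k1,k1,k1,k1,k1,k1] k0 [] k8 k5
    [[(k4,k3),(k7,k3),(k10,k3),(k1,k4)],[(k2,k3),(k11,k3)],[(k5,k2),(k8,k2)],[(k9,k2),(k0,k3)],[(k3,k2),(k6,k2)],[(k4,
    k2),(k7,k2),(k10,k2),(k1,k3)],[(k4,k2),(k7,k2),(k10,k2),(k1,k3)],[(k5,k2),(k8,k2)],[(k2,k2),(k11,k2)],[(k3,k2),
    (k6,k2)],[(k9,k2),(k0,k3)],[(k4,k2),(k7,k2),(k10,k2),(k1,k3)]]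
    [] k0
    [[k1,k0,k0,k0,k0,k1],[k0,k1,k0,k0,k1,k0],[k0,k0,k1,k1,k0,k0],[k0,k0,k0,k1,k1,k1]]
    [.ref k3 k1 [(z1,[z1])],.ref k1 k1 [(z1,[y1,z1])],.ref k3 k0 [(z1,[z1])],.ref k0 k1 [(z1,[y1,z1])]])]⟩

/-- classes `0 0 1 0 0 1`, types `N0 N3 B0 N1 N2 B1` -/
noncomputable def cU6_817 : CertX :=
  ⟨[k12,k15,k24,k13,k14,k25],[(false,k0,[k0,k1,k2,k3,k4,k5])],[[[([z1,z0,z1,z0,z1,z0],z2)],[]]],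
    [.old (.leafM k1 [k0,k1,k2,k3,k4,k5] [(z1,[y1,z1]),(z1,[z1])] []),
    .old (.lp [k2,k4,k2,k2,k2,k2] [k1,k1,k0,k0,k1,k1,k1,k1,k1,k1,k1,k1] k0 [] k8 k5
    [[(k4,k2),(k7,k2)],[(k8,k2),(k9,k2)],[(k6,k3),(k11,k3)],[(k6,k3),(k11,k3)],[(k8,k2),(k9,k2)],[(k1,k2),(k10,k2)],
    [(k1,k2),(k10,k2)],[(k2,k3),(k3,k3)],[(k0,k2),(k5,k2)],[(k0,k2),(k5,k2)],[(k2,k3),(k3,k3)],[(k4,k2),(k7,k2)]]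
    [] k0
    [[k1,k0,k1,k0,k1,k0]]
    [.ref k0 k0 [(z1,[z1])]])]⟩

/-- classes `0 0 1 0 0 1`, types `N0 N3 B0 N2 N1 B1` -/
noncomputable def cU6_818 : CertX :=
  ⟨[k12,k15,k24,k14,k13,k25],[(true,k2,[k2,k1,k0,k5,k4,k3]),(false,k0,[k0,k1,k2,k3,k4,k5])],[[[([z1,z0,z1,z1,z0,z1],
    z2)],[([z1,z0,z0,z1,z0,z0],z1),([z0,z1,z0,z0,z1,z0],z1)],[([z1,z0,z0,z1,z0,z0],z2)],[]]],
    [.old (.leafM k5 [k0,k2,k3,k5] [] [(k1,k4,z1,[y1,z1]),(k4,k1,z1,[y1,z1])]),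
    .old (.leafM k7 [k0,k1,k3,k4] [(z1,[z0,z1])] [(k2,k5,z1,[y1,y1,z1]),(k5,k2,z1,[y1,y1,z1])]),
    .old (.lp [k16,k10,k4,k4,k0,k4] [k0,k0,k3,k3,k6,k6,k6,k6,k8,k8,k6,k6] k0 [] k20 k6
    [[(k4,k10),(k7,k10)],[(k6,k10),(k11,k10)],[(k8,k5),(k9,k5)],[(k8,k5),(k9,k5)],[(k6,k4),(k11,k4)],[(k10,k4),(k1,
    k10)],[(k10,k4),(k1,k10)],[(k5,k4),(k0,k10)],[(k2,k5),(k3,k5)],[(k2,k5),(k3,k5)],[(k5,k4),(k0,k10)],[(k4,k4),(k7,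
    k4)]]
    [] k0
    [[k0,k1,k0,k0,k1,k0],[k0,k0,k1,k0,k0,k1],[k0,k0,k2,k0,k0,k2]]
    [.contra [y1,y1,z1],.contra [y1,y1,z1],.ref k1 k0 [(z2,[z1]),(z2,[y1,y2,z2])]]),
    .old (.lp [k2,k4,k2,k2,k0,k2] [k1,k1,k0,k0,k1,k1,k1,k1,k2,k2,k1,k1] k0 [] k8 k5
    [[(k4,k2),(k7,k2)],[(k6,k2),(k11,k2)],[(k8,k2),(k9,k2)],[(k8,k2),(k9,k2)],[(k6,k2),(k11,k2)],[(k1,k2),(k10,k2)],
    [(k1,k2),(k10,k2)],[(k0,k2),(k5,k2)],[(k2,k2),(k3,k2)],[(k2,k2),(k3,k2)],[(k0,k2),(k5,k2)],[(k4,k2),(k7,k2)]]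
    [] k0
    [[k1,k0,k0,k1,k0,k0],[k0,k1,k0,k0,k1,k0],[k0,k0,k1,k0,k0,k1]]
    [.ref k2 k1 [(z1,[z1])],.ref k0 k1 [(z1,[y1,z1])],.ref k2 k0 [(z1,[z1])]])]⟩

/-- classes `0 0 1 0 0 1`, types `N0 N3 C0 N1 N2 C0` -/
noncomputable def cU6_819 : CertX :=
  ⟨[k12,k15,k20,k13,k14,k20],[(false,k0,[k0,k1,k2,k3,k4,k5])],[[[([z1,z0,z1,z0,z1,z0],z2)],[]]],
    [.old (.leafM k1 [k0,k1,k2,k3,k4,k5] [(z1,[y1,z1]),(z1,[z1])] []),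
    .old (.lp [k2,k4,k2,k2,k2,k2] [k1,k1,k0,k0,k1,k1,k1,k1,k1,k1,k1,k1] k0 [] k8 k5
    [[(k4,k2),(k10,k2)],[(k8,k2),(k9,k2)],[(k6,k3),(k11,k3)],[(k6,k3),(k11,k3)],[(k8,k2),(k9,k2)],[(k1,k2),(k7,k2)],
    [(k4,k2),(k10,k2)],[(k2,k3),(k3,k3)],[(k0,k2),(k5,k2)],[(k0,k2),(k5,k2)],[(k2,k3),(k3,k3)],[(k1,k2),(k7,k2)]]
    [] k0
    [[k1,k0,k1,k0,k1,k0]]
    [.ref k0 k0 [(z1,[z1])]])]⟩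

/-- classes `0 0 1 0 0 1`, types `N0 N3 C0 N1 N2 C2` -/
noncomputable def cU6_820 : CertX :=
  ⟨[k12,k15,k20,k13,k14,k22],[],[[[]]],
    [.old (.lp [k2,k2,k2,k0,k0,k0] [k0,k0,k0,k0,k0,k0,k1,k1,k1,k1,k1,k1] k0 [] k4 k5
    [[(k7,k1),(k10,k1)],[(k8,k1),(k9,k1)],[(k6,k1),(k11,k1)],[(k6,k1),(k11,k1)],[(k8,k1),(k9,k1)],[(k7,k1),(k10,k1)],
    [(k1,k1),(k4,k1)],[(k2,k1),(k3,k1)],[(k0,k1),(k5,k1)],[(k0,k1),(k5,k1)],[(k2,k1),(k3,k1)],[(k1,k1),(k4,k1)]]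
    [] k0
    []
    [])]⟩

/-- classes `0 0 1 0 0 1`, types `N0 N3 C0 N2 N1 C0` -/
noncomputable def cU6_821 : CertX :=
  ⟨[k12,k15,k20,k14,k13,k20],[(false,k3,[k3,k4,k5,k0,k1,k2]),(false,k0,[k0,k1,k2,k3,k4,k5])],[[[([z1,z0,z1,z1,z0,z1],
    z2)],[([z1,z0,z0,z0,z0,z1],z1),([z0,z1,z0,z0,z1,z0],z1)],[([z1,z0,z0,z0,z0,z1],z2)],[]]],
    [.old (.leafM k2 [k2,k3,k5,k0] [] [(k4,k1,z1,[y1,z1]),(k1,k4,z1,[y1,z1])]),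
    .old (.leafM k4 [k0,k1,k4,k5] [(z1,[z0,z1])] [(k2,k3,z1,[y1,y1,z1]),(k3,k2,z1,[y1,y1,z1])]),
    .old (.lp [k4,k10,k4,k4,k0,k16] [k6,k6,k3,k3,k6,k6,k6,k6,k8,k8,k0,k0] k0 [] k20 k6
    [[(k4,k4),(k10,k10)],[(k6,k4),(k11,k10)],[(k8,k5),(k9,k5)],[(k8,k5),(k9,k5)],[(k6,k4),(k11,k10)],[(k1,k4),(k7,
    k4)],[(k4,k4),(k10,k10)],[(k0,k4),(k5,k4)],[(k2,k5),(k3,k5)],[(k2,k5),(k3,k5)],[(k0,k10),(k5,k10)],[(k1,k10),(k7,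
    k10)]]
    [] k0
    [[k0,k1,k0,k0,k1,k0],[k0,k0,k1,k1,k0,k0],[k0,k0,k2,k2,k0,k0]]
    [.contra [y1,y1,z1],.contra [y1,y1,z1],.ref k1 k0 [(z2,[z1]),(z2,[y1,y2,z2])]]),
    .old (.lp [k2,k4,k2,k2,k0,k2] [k1,k1,k0,k0,k1,k1,k1,k1,k2,k2,k1,k1] k0 [] k8 k5
    [[(k4,k2),(k10,k2)],[(k6,k2),(k11,k2)],[(k8,k2),(k9,k2)],[(k8,k2),(k9,k2)],[(k6,k2),(k11,k2)],[(k1,k2),(k7,k2)],
    [(k4,k2),(k10,k2)],[(k0,k2),(k5,k2)],[(k2,k2),(k3,k2)],[(k2,k2),(k3,k2)],[(k0,k2),(k5,k2)],[(k1,k2),(k7,k2)]]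
    [] k0
    [[k1,k0,k0,k0,k0,k1],[k0,k1,k0,k0,k1,k0],[k0,k0,k1,k1,k0,k0]]
    [.ref k2 k1 [(z1,[z1])],.ref k0 k1 [(z1,[y1,z1])],.ref k2 k0 [(z1,[z1])]])]⟩

/-- the certificates of this file -/
noncomputable def lU6_21 : List CertX :=
  [cU6_769, cU6_770, cU6_771, cU6_772, cU6_773, cU6_774, cU6_775, cU6_776, cU6_777, cU6_778, cU6_779, cU6_780,
      cU6_781, cU6_782, cU6_783, cU6_784, cU6_785, cU6_786, cU6_787, cU6_788, cU6_789, cU6_790, cU6_791,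
      cU6_792, cU6_793, cU6_794, cU6_795, cU6_796, cU6_797, cU6_798, cU6_799, cU6_800, cU6_801, cU6_802,
      cU6_803, cU6_804, cU6_805, cU6_806, cU6_807, cU6_808, cU6_809, cU6_810, cU6_811, cU6_812, cU6_813,
      cU6_814, cU6_815, cU6_816, cU6_817, cU6_818, cU6_819, cU6_820, cU6_821]

theorem gU6_21 : allF (chkE 6 ttU6) lU6_21 = true := by
  decide +kernel

end Pool.Agent.Lib_MP_fa6e45
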