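import Pool.Agent.Lib_MP_fa6e45.CXT
import Pool.Agent.Lib_MP_fa6e45.HK

/-!
MP_fa6e45_co, stage 7: certificates (generated by a program).
-/

namespace Pool.Agent.Lib_MP_fa6e45

/-- classes `0 0 1 0 0 1`, types `N0 N3 C0 N2 N1 C2` -/
noncomputable def cU6_822 : CertX :=
  ⟨[k12,k15,k20,k14,k13,k22],[(false,k3,[k3,k4,k5,k0,k1,k2]),(false,k0,[k0,k1,k2,k3,k4,k5]),(true,k2,[k2,k1,k0,k5,k4,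
    k3])],[[[([z1,z0,z1,z1,z0,z1],z2)],[([z1,z0,z0,z0,z0,z1],z1),([z0,z1,z0,z0,z1,z0],z1)],[([z1,z0,z0,z0,z0,z1],z2),
    ([z0,z1,z0,z1,z1,y1],z0)],[([z1,z0,z0,z0,z0,z1],z2)],[([z1,z0,z0,z1,z0,z0],z1),([z0,z1,z0,z0,z1,z0],z1)],[([z1,z0,
    z1,z1,z0,z1],z3)],[([z1,z0,z0,z1,z0,z0],z2)],[]]],
    [.old (.leafM k2 [k2,k3,k5,k0] [] [(k4,k1,z1,[y1,z1]),(k1,k4,z1,[y1,z1])]),
    .old (.leafM k4 [k0,k1,k4,k5] [(z1,[z0,z1])] [(k2,k3,z1,[y1,y1,z1]),(k3,k2,z1,[y1,y1,z1])]),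
    .old (.lp [k0,k8,k0,k10,k0,k20] [k10,k10,k6,k6,k10,k10,k5,k5,k10,k10,k0,k0] k0 [] k20 k6
    [[(k7,k5),(k10,k10)],[(k6,k5),(k11,k10)],[(k8,k4),(k9,k4)],[(k8,k4),(k9,k4)],[(k6,k5),(k11,k10)],[(k7,k5),(k10,
    k10)],[(k1,k5),(k4,k5)],[(k0,k5),(k5,k5)],[(k2,k4),(k3,k4)],[(k2,k4),(k3,k4)],[(k0,k10),(k5,k10)],[(k1,k10),(k4,
    k10)]]
    [] k0
    [[k1,k0,k0,k1,k0,k0],[k0,k1,k0,k0,k1,k0],[k0,k2,k0,k0,k2,k0],[k0,k0,k1,k1,k0,k0]]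
    [.contra [y1,z1,z1],.contra [y1,z1,z1],.ref k1 k0 [(z2,[y1,y2,z0,z2]),(z2,[z1])],.contra [y1,y1,z0,z1]]),
    .old (.lp [k10,k8,k0,k10,k0,k10] [k0,k0,k1,k1,k5,k5,k0,k0,k5,k5,k0,k0] k0 [] k20 k6
    [[(k7,k10),(k10,k10)],[(k6,k10),(k11,k10)],[(k8,k4),(k9,k4)],[(k8,k4),(k9,k4)],[(k6,k5),(k11,k5)],[(k7,k5),(k10,
    k5)],[(k4,k5),(k1,k10)],[(k5,k5),(k0,k10)],[(k2,k4),(k3,k4)],[(k2,k4),(k3,k4)],[(k5,k5),(k0,k10)],[(k4,k5),(k1,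
    k10)]]
    [] k0
    [[k0,k1,k0,k0,k1,k0],[k0,k2,k0,k0,k2,k0],[k0,k0,k1,k1,k0,k0],[k0,k0,k1,k0,k0,k1]]
    [.contra [y1,y1,z1],.ref k1 k0 [(z2,[y1,y2,z2]),(z2,[z1])],.contra [y1,y1,z1],.ref k2 k1 [(z1,[z0,z1]),(z1,[y1,y1,
    z1])]]),
    .old (.leafM k7 [k0,k1,k3,k4] [(z1,[z0,z1])] [(k2,k5,z1,[y1,y1,z1]),(k5,k2,z1,[y1,y1,z1])]),
    .old (.lp [k0,k2,k0,k2,k0,k2] [k1,k1,k0,k0,k1,k1,k0,k0,k1,k1,k0,k0] k0 [] k4 k5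
    [[(k7,k1),(k10,k1)],[(k6,k1),(k11,k1)],[(k8,k1),(k9,k1)],[(k8,k1),(k9,k1)],[(k6,k1),(k11,k1)],[(k7,k1),(k10,k1)],
    [(k1,k1),(k4,k1)],[(k0,k1),(k5,k1)],[(k2,k1),(k3,k1)],[(k2,k1),(k3,k1)],[(k0,k1),(k5,k1)],[(k1,k1),(k4,k1)]]
    [] k0
    [[k1,k0,k0,k1,k0,k0],[k1,k0,k0,k0,k0,k1],[k0,k1,k0,k0,k1,k0],[k0,k0,k1,k1,k0,k0],[k0,k0,k1,k0,k0,k1]]
    [.ref k4 k2 [(z1,[y1,z1]),(z1,[z0,y1,z1])],.ref k3 k1 [(z1,[z1])],.contra [y1,y2,z2],.ref k3 k0 [(z1,[z1])],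
    .ref k4 k1 [(z1,[y1,z1]),(z1,[z0,y1,z1])]]),
    .old (.lp [k10,k8,k0,k10,k0,k10] [k0,k0,k1,k1,k5,k5,k0,k0,k5,k5,k0,k0] k0 [] k20 k6
    [[(k7,k10),(k10,k10)],[(k6,k10),(k11,k10)],[(k8,k4),(k9,k4)],[(k8,k4),(k9,k4)],[(k6,k5),(k11,k5)],[(k7,k5),(k10,
    k5)],[(k4,k5),(k1,k10)],[(k5,k5),(k0,k10)],[(k2,k4),(k3,k4)],[(k2,k4),(k3,k4)],[(k5,k5),(k0,k10)],[(k4,k5),(k1,
    k10)]]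
    [] k0
    [[k0,k1,k0,k0,k1,k0],[k0,k2,k0,k0,k2,k0],[k0,k0,k1,k1,k0,k0],[k0,k0,k1,k0,k0,k1]]
    [.contra [y1,y1,z1],.ref k5 k1 [(z2,[y1,z0,z2])],.ref k3 k0 [(z1,[z1])],.contra [y1,y1,z1]]),
    .old (.lp [k0,k8,k0,k10,k0,k20] [k10,k10,k6,k6,k10,k10,k5,k5,k10,k10,k0,k0] k0 [] k20 k6
    [[(k7,k5),(k10,k10)],[(k6,k5),(k11,k10)],[(k8,k4),(k9,k4)],[(k8,k4),(k9,k4)],[(k6,k5),(k11,k10)],[(k7,k5),(k10,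
    k10)],[(k1,k5),(k4,k5)],[(k0,k5),(k5,k5)],[(k2,k4),(k3,k4)],[(k2,k4),(k3,k4)],[(k0,k10),(k5,k10)],[(k1,k10),(k4,
    k10)]]
    [] k0
    [[k1,k0,k0,k1,k0,k0],[k0,k1,k0,k0,k1,k0],[k0,k2,k0,k0,k2,k0],[k0,k0,k1,k1,k0,k0]]
    [.ref k6 k1 [(z1,[z1])],.ref k0 k1 [(z1,[y1,z1])],.ref k5 k1 [(z2,[y1,z2])],.ref k3 k0 [(z1,[z1])]])]⟩

/-- classes `0 0 1 0 0 1`, types `N0 N3 N0 N1 N2 N1` -/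
noncomputable def cU6_823 : CertX :=
  ⟨[k12,k15,k28,k13,k14,k29],[(false,k0,[k0,k1,k2,k3,k4,k5])],[[[([z1,z0,z1,z0,z1,z0],z2)],[]]],
    [.old (.leafM k1 [k0,k1,k2,k3,k4,k5] [(z1,[y1,z1]),(z1,[z1])] []),
    .old (.lp [k2,k4,k2,k0,k2,k4] [k1,k1,k0,k0,k1,k1,k2,k2,k1,k1,k0,k0] k0 [] k8 k5
    [[(k4,k2)],[(k8,k2),(k9,k2)],[(k6,k2),(k11,k4)],[(k6,k2),(k11,k4)],[(k8,k2),(k9,k2)],[(k1,k2)],[(k10,k2)],[(k2,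
    k2),(k3,k2)],[(k0,k2),(k5,k2)],[(k0,k2),(k5,k2)],[(k2,k4),(k3,k4)],[(k7,k2)]]
    [] k0
    [[k1,k0,k1,k0,k1,k0]]
    [.ref k0 k0 [(z1,[z1])]])]⟩

/-- classes `0 0 1 0 0 1`, types `N0 N3 N0 N1 N2 N2` -/
noncomputable def cU6_824 : CertX :=
  ⟨[k12,k15,k28,k13,k14,k30],[],[[[]]],
    [.old (.lp [k2,k2,k2,k0,k0,k0] [k0,k0,k0,k0,k0,k0,k1,k1,k1,k1,k1,k1] k0 [] k4 k5
    [[(k7,k1)],[(k8,k1),(k9,k1)],[(k6,k1),(k11,k1)],[(k6,k1),(k11,k1)],[(k8,k1),(k9,k1)],[(k10,k1)],[(k1,k1)],[(k2,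
    k1),(k3,k1)],[(k0,k1),(k5,k1)],[(k0,k1),(k5,k1)],[(k2,k1),(k3,k1)],[(k4,k1)]]
    [] k0
    []
    [])]⟩

/-- classes `0 0 1 0 0 1`, types `N0 N3 N0 N2 N1 N1` -/
noncomputable def cU6_825 : CertX :=
  ⟨[k12,k15,k28,k14,k13,k29],[(false,k0,[k0,k1,k2,k3,k4,k5])],[[[([z1,z0,z1,z1,z0,z1],z2)],[]]],
    [.old (.leafM k5 [k0,k2,k3,k5] [] [(k1,k4,z1,[y1,z1]),(k4,k1,z1,[y1,z1])]),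
    .old (.lp [k2,k4,k2,k2,k0,k2] [k1,k1,k0,k0,k1,k1,k1,k1,k2,k2,k1,k1] k0 [] k8 k5
    [[(k4,k2)],[(k6,k2),(k11,k2)],[(k8,k2),(k9,k2)],[(k8,k2),(k9,k2)],[(k6,k2),(k11,k2)],[(k1,k2)],[(k10,k2)],[(k0,
    k2),(k5,k2)],[(k2,k2),(k3,k2)],[(k2,k2),(k3,k2)],[(k0,k2),(k5,k2)],[(k7,k2)]]
    [] k0
    [[k0,k1,k0,k0,k1,k0]]
    [.ref k0 k0 [(z1,[y1,z1])]])]⟩

/-- classes `0 0 1 0 0 1`, types `N0 N3 N0 N2 N1 N2` -/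
noncomputable def cU6_826 : CertX :=
  ⟨[k12,k15,k28,k14,k13,k30],[(true,k2,[k2,k1,k0,k5,k4,k3]),(false,k0,[k0,k1,k2,k3,k4,k5])],[[[([z1,z0,z1,z1,z0,z1],
    z2)],[([z1,z0,z0,z1,z0,z0],z1),([z0,z1,z0,z0,z1,z0],z1)],[([z1,z0,z0,z1,z0,z0],z2)],[]]],
    [.old (.leafM k6 [k0,k2,k3,k5] [] [(k1,k4,z1,[y1,z1]),(k4,k1,z1,[y1,z1])]),
    .old (.leafM k7 [k0,k1,k3,k4] [(z1,[z0,z1])] [(k2,k5,z1,[y1,y1,z1]),(k5,k2,z1,[y1,y1,z1])]),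
    .old (.lp [k0,k8,k0,k20,k0,k10] [k10,k10,k6,k6,k10,k10,k0,k0,k10,k10,k5,k5] k0 [] k20 k6
    [[(k7,k10)],[(k11,k5),(k6,k10)],[(k8,k4),(k9,k4)],[(k8,k4),(k9,k4)],[(k11,k5),(k6,k10)],[(k10,k5)],[(k1,k10)],
    [(k0,k10),(k5,k10)],[(k2,k4),(k3,k4)],[(k2,k4),(k3,k4)],[(k0,k5),(k5,k5)],[(k4,k5)]]
    [] k0
    [[k0,k1,k0,k0,k1,k0],[k0,k2,k0,k0,k2,k0],[k0,k0,k1,k0,k0,k1]]
    [.contra [y1,y1,z1],.ref k1 k0 [(z2,[y1,y2,z2]),(z2,[z1])],.contra [y1,y1,z1]]),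
    .old (.lp [k0,k2,k0,k2,k0,k2] [k1,k1,k0,k0,k1,k1,k0,k0,k1,k1,k0,k0] k0 [] k4 k5
    [[(k7,k1)],[(k6,k1),(k11,k1)],[(k8,k1),(k9,k1)],[(k8,k1),(k9,k1)],[(k6,k1),(k11,k1)],[(k10,k1)],[(k1,k1)],[(k0,
    k1),(k5,k1)],[(k2,k1),(k3,k1)],[(k2,k1),(k3,k1)],[(k0,k1),(k5,k1)],[(k4,k1)]]
    [] k0
    [[k1,k0,k0,k1,k0,k0],[k0,k1,k0,k0,k1,k0],[k0,k0,k1,k0,k0,k1]]
    [.ref k2 k1 [(z1,[z1])],.ref k0 k1 [(z1,[y1,z1])],.ref k2 k0 [(z1,[z1])]])]⟩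

/-- classes `0 0 1 0 0 1`, types `N0 N3 S0 N1 N2 S0` -/
noncomputable def cU6_827 : CertX :=
  ⟨[k12,k15,k16,k13,k14,k16],[(false,k0,[k0,k1,k2,k3,k4,k5]),(true,k5,[k5,k4,k3,k2,k1,k0])],[[[([z1,z0,z1,z0,z1,z0],
    z2)],[([z2,z0,z0,z0,z1,z0],z2)],[]]],
    [.old (.leafM k1 [k0,k1,k2,k3,k4,k5] [(z1,[y1,z1]),(z1,[z1])] []),
    .old (.lp [k10,k0,k6,k12,k6,k12] [k1,k1,k6,k6,k3,k3,k0,k0,k3,k3,k0,k0] k0 [[],[],[],[],[],[k0,k0,k0,k0,k0,k0,k0,k0,k0,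
    k0,k0,k2],[],[],[],[],[k0,k0,k0,k0,k2]] k24 k5
    [[(k1,k10),(k4,k10),(k7,k11),(k10,k11)],[(k8,k8),(k9,k8)],[(k6,k6),(k11,k6)],[(k6,k6),(k11,k6)],[(k8,k6),(k9,k6)],
    [(k4,k6),(k7,k9),(k10,k9),(k1,k10)],[(k4,k9),(k10,k10),(k1,k11),(k7,k12)],[(k2,k6),(k3,k6)],[(k5,k6),(k0,k8)],
    [(k5,k6),(k0,k8)],[(k2,k6),(k3,k6)],[(k4,k9),(k7,k10),(k1,k11),(k10,k12)]]
    [] k0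
    [[k0,k1,k0,k1,k0,k1],[k0,k0,k2,k0,k1,k0]]
    [.ref k0 k0 [(z1,[y1,z0,z1])],.ref k0 k0 [(z2,[z1,z1])]]),
    .old (.lp [k8,k4,k8,k6,k0,k4] [k0,k0,k2,k2,k0,k0,k1,k1,k4,k4,k2,k2] k0 [] k16 k5
    [[(k10,k6),(k7,k7),(k1,k8),(k4,k8)],[(k8,k4),(k9,k4)],[(k11,k4),(k6,k5)],[(k11,k4),(k6,k5)],[(k8,k4),(k9,k4)],
    [(k10,k6),(k7,k7),(k1,k8),(k4,k8)],[(k10,k5),(k7,k6),(k1,k7),(k4,k7)],[(k2,k5),(k3,k5)],[(k0,k4),(k5,k4)],[(k0,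
    k4),(k5,k4)],[(k2,k4),(k3,k4)],[(k10,k4),(k7,k5),(k1,k6),(k4,k6)]]
    [] k0
    [[k0,k1,k0,k1,k0,k1],[k0,k1,k0,k0,k0,k2]]
    [.ref k0 k0 [(z1,[y1,z1])],.ref k1 k1 [(z1,[z1])]])]⟩

/-- classes `0 0 1 0 0 1`, types `N0 N3 S0 N2 N1 S0` -/
noncomputable def cU6_828 : CertX :=
  ⟨[k12,k15,k16,k14,k13,k16],[(false,k3,[k3,k4,k5,k0,k1,k2]),(true,k5,[k5,k4,k3,k2,k1,k0]),(true,k2,[k2,k1,k0,k5,k4,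
    k3]),(false,k0,[k0,k1,k2,k3,k4,k5])],[[[([z1,z0,z1,z1,z0,z1],z2)],[([z1,z0,z0,z0,z0,z1],z1),([z0,z1,z0,z0,z1,z0],
    z1)],[([z1,z0,z0,z0,z0,z1],z2),([z0,z1,z0,z1,z1,y1],z0)],[([z1,z0,z0,z0,z0,z1],z2)],[([z1,z0,z0,z1,z0,z0],z1),
    ([z0,z1,z0,z0,z1,z0],z1)],[([z1,z0,z1,z1,z0,z1],z3)],[([z1,z0,z0,z1,z0,z0],z2)],[]]],
    [.old (.leafM k2 [k2,k3,k5,k0] [] [(k4,k1,z1,[y1,z1]),(k1,k4,z1,[y1,z1])]),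
    .old (.leafM k4 [k0,k1,k4,k5] [(z1,[z0,z1])] [(k2,k3,z1,[y1,y1,z1]),(k3,k2,z1,[y1,y1,z1])]),
    .old (.lp [k4,k0,k4,k6,k8,k16] [k6,k6,k8,k8,k6,k6,k5,k5,k4,k4,k0,k0] k0 [] k20 k6
    [[(k1,k4),(k4,k4),(k7,k5),(k10,k10)],[(k6,k5),(k11,k10)],[(k8,k4),(k9,k4)],[(k8,k4),(k9,k4)],[(k6,k5),(k11,k10)],
    [(k1,k4),(k4,k4),(k7,k5),(k10,k10)],[(k1,k5),(k4,k5),(k7,k6),(k10,k11)],[(k0,k5),(k5,k5)],[(k2,k4),(k3,k4)],[(k2,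
    k4),(k3,k4)],[(k0,k10),(k5,k10)],[(k1,k10),(k4,k10),(k7,k11),(k10,k16)]]
    [] k0
    [[k1,k0,k0,k1,k0,k0],[k0,k1,k0,k0,k1,k0],[k0,k2,k0,k0,k2,k0],[k0,k0,k1,k1,k0,k0]]
    [.contra [y1,z1,z1],.contra [y1,z1,z1],.ref k1 k0 [(z2,[y1,y2,z0,z2]),(z2,[z1])],.contra [y1,y1,z0,z1]]),
    .old (.lp [k4,k0,k4,k6,k8,k16] [k6,k6,k8,k8,k6,k6,k5,k5,k4,k4,k0,k0] k0 [] k20 k6
    [[(k1,k4),(k4,k4),(k7,k5),(k10,k10)],[(k6,k5),(k11,k10)],[(k8,k4),(k9,k4)],[(k8,k4),(k9,k4)],[(k6,k5),(k11,k10)],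
    [(k1,k4),(k4,k4),(k7,k5),(k10,k10)],[(k1,k5),(k4,k5),(k7,k6),(k10,k11)],[(k0,k5),(k5,k5)],[(k2,k4),(k3,k4)],[(k2,
    k4),(k3,k4)],[(k0,k10),(k5,k10)],[(k1,k10),(k4,k10),(k7,k11),(k10,k16)]]
    [] k0
    [[k1,k0,k0,k1,k0,k0],[k0,k1,k0,k0,k1,k0],[k0,k2,k0,k0,k2,k0],[k0,k0,k1,k1,k0,k0]]
    [.ref k2 k1 [(z1,[z0,z1]),(z1,[y1,y1,z1])],.contra [y1,y1,z1],.ref k1 k0 [(z2,[y1,y2,z2]),(z2,[z1])],.contra [y1,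
    y1,z1]]),
    .old (.leafM k7 [k0,k1,k3,k4] [(z1,[z0,z1])] [(k2,k5,z1,[y1,y1,z1]),(k5,k2,z1,[y1,y1,z1])]),
    .old (.lp [k2,k0,k2,k2,k4,k2] [k1,k1,k2,k2,k1,k1,k1,k1,k0,k0,k1,k1] k0 [] k8 k5
    [[(k1,k2),(k4,k2),(k7,k2),(k10,k2)],[(k6,k2),(k11,k2)],[(k8,k2),(k9,k2)],[(k8,k2),(k9,k2)],[(k6,k2),(k11,k2)],
    [(k1,k2),(k4,k2),(k7,k2),(k10,k2)],[(k1,k2),(k4,k2),(k7,k2),(k10,k2)],[(k0,k2),(k5,k2)],[(k2,k2),(k3,k2)],[(k2,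
    k2),(k3,k2)],[(k0,k2),(k5,k2)],[(k1,k2),(k4,k2),(k7,k2),(k10,k2)]]
    [] k0
    [[k1,k0,k0,k1,k0,k0],[k1,k0,k0,k0,k0,k1],[k0,k1,k0,k0,k1,k0],[k0,k0,k1,k1,k0,k0],[k0,k0,k1,k0,k0,k1]]
    [.ref k4 k2 [(z1,[y1,z1]),(z1,[z0,y1,z1])],.ref k3 k3 [(z1,[z1])],.contra [y1,y2,z2],.ref k3 k0 [(z1,[z1])],
    .ref k4 k3 [(z1,[y1,z1]),(z1,[z0,y1,z1])]]),
    .old (.lp [k4,k0,k4,k16,k8,k6] [k6,k6,k8,k8,k6,k6,k0,k0,k4,k4,k5,k5] k0 [] k20 k6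
    [[(k1,k4),(k4,k4),(k10,k5),(k7,k10)],[(k11,k5),(k6,k10)],[(k8,k4),(k9,k4)],[(k8,k4),(k9,k4)],[(k11,k5),(k6,k10)],
    [(k1,k4),(k4,k4),(k10,k5),(k7,k10)],[(k1,k10),(k4,k10),(k10,k11),(k7,k16)],[(k0,k10),(k5,k10)],[(k2,k4),(k3,k4)],
    [(k2,k4),(k3,k4)],[(k0,k5),(k5,k5)],[(k1,k5),(k4,k5),(k10,k6),(k7,k11)]]
    [] k0
    [[k1,k0,k0,k0,k0,k1],[k0,k1,k0,k0,k1,k0],[k0,k2,k0,k0,k2,k0],[k0,k0,k1,k0,k0,k1]]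
    [.ref k3 k3 [(z1,[z1])],.contra [y1,y1,z1],.ref k5 k3 [(z2,[y1,z0,z2])],.contra [y1,y1,z1]]),
    .old (.lp [k4,k0,k4,k6,k8,k16] [k6,k6,k8,k8,k6,k6,k5,k5,k4,k4,k0,k0] k0 [] k20 k6
    [[(k1,k4),(k4,k4),(k7,k5),(k10,k10)],[(k6,k5),(k11,k10)],[(k8,k4),(k9,k4)],[(k8,k4),(k9,k4)],[(k6,k5),(k11,k10)],
    [(k1,k4),(k4,k4),(k7,k5),(k10,k10)],[(k1,k5),(k4,k5),(k7,k6),(k10,k11)],[(k0,k5),(k5,k5)],[(k2,k4),(k3,k4)],[(k2,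
    k4),(k3,k4)],[(k0,k10),(k5,k10)],[(k1,k10),(k4,k10),(k7,k11),(k10,k16)]]
    [] k0
    [[k1,k0,k0,k1,k0,k0],[k0,k1,k0,k0,k1,k0],[k0,k2,k0,k0,k2,k0],[k0,k0,k1,k1,k0,k0]]
    [.ref k6 k3 [(z1,[z1])],.ref k0 k3 [(z1,[y1,z1])],.ref k5 k3 [(z2,[y1,z2])],.ref k3 k0 [(z1,[z1])]])]⟩

/-- classes `0 0 1 0 0 1`, types `S0 S0 B0 S0 S0 B1` -/
noncomputable def cU6_829 : CertX :=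
  ⟨[k0,k0,k24,k0,k0,k25],[(false,k0,[k0,k1,k2,k3,k4,k5]),(false,k3,[k3,k4,k5,k0,k1,k2]),(true,k2,[k2,k1,k0,k5,k4,
    k3])],[[[([z1,z0,z0,z1,z0,z0],z2)],[([z1,z0,z0,z1,z1,z0],z2)],[([z1,z0,z1,z1,z0,z1],z2)],[([z1,z0,z1,z0,z1,z0],
    z2)],[([z1,z1,z1,z0,z0,z0],z2)],[([z1,z0,z1,z0,z0,z0],z1),([z0,z3,z0,z0,z0,z0],z1),([z0,z0,z0,z1,z0,z1],z2)],
    [([z1,z0,z1,z0,z0,z0],z1),([z0,z2,z0,z0,z0,z0],z1),([z0,z0,z0,z1,z0,z1],z2)],[([z1,z0,z1,z0,z0,z0],z1),([z0,z3,z0,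
    z0,z0,z0],z2),([z0,z0,z0,z1,z0,z1],z2)],[([z1,z0,z1,z0,z0,z0],z1),([z0,z1,z0,z0,z1,z0],z1)],[([z3,z0,z3,z0,z0,z0],
    z2),([z0,z3,z0,z0,z0,z0],z2),([z0,z0,z0,z1,z0,z1],z2)],[([z1,z0,z1,z0,z0,z0],z2),([z0,z3,z0,z0,z0,z0],z2)],[([z1,
    z0,z1,z0,z0,z0],z2)]],[[]]],
    [.old (.leafM k2 [k1,k2,k4,k5] [] [(k3,k0,z1,[z1]),(k0,k3,z1,[z1])]),
    .old (.leafM k3 [k4,k5,k0,k1,k2,k3] [(z1,[y1,z1])] []),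
    .old (.leafM k5 [k0,k2,k3,k5] [] [(k1,k4,z1,[y1,z1]),(k4,k1,z1,[y1,z1])]),
    .old (.leafM k1 [k0,k1,k2,k3,k4,k5] [(z1,[y1,z1]),(z1,[z1])] []),
    .old (.leafM k0 [k2,k3,k4,k5,k0,k1] [(z1,[y1,z1])] []),
    .old (.leafM k8 [k2,k4,k0,k1] [(z1,[y3,y1,y3,z3]),(z1,[z0,z1]),(z1,[z1])] [(k3,k5,z1,[z0,z0,z1]),(k5,k3,z1,[z0,z0,
    z1])]),
    .old (.leafM k9 [k2,k4,k0,k1] [(z1,[y2,y1,y2,z2]),(z1,[z0,z1]),(z1,[z1])] [(k3,k5,z1,[z0,z0,z1]),(k5,k3,z1,[z0,z0,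
    z1])]),
    .old (.leafM k11 [k0,k1,k2,k4] [(z1,[z0,z1]),(z1,[y3,y1,y3,z3]),(z1,[z1])] [(k3,k5,z1,[z0,z0,z1]),(k5,k3,z1,[z0,z0,
    z1])]),
    .old (.lp [(nat_lit 17784),(nat_lit 14820),(nat_lit 11856),(nat_lit 21840),(nat_lit 27170),
    (nat_lit 22800)] [(nat_lit 4693),(nat_lit 4693),(nat_lit 6175),(nat_lit 6175),(nat_lit 7657),(nat_lit 7657),
    (nat_lit 2665),(nat_lit 2665),k0,k0,(nat_lit 2185),(nat_lit 2185)] k0 [[k0,k0,k0,k0,k0,k0,k0,(nat_lit 2470),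
    (nat_lit 4940)],[],[],[k0,k0,k0,k0,k0,k0,k0,k0,(nat_lit 2470)],[],[],[k0,(nat_lit 2470)],[k0,k0,k0,k0,k0,k0,k0,k0,
    k0,(nat_lit 14820)],[k0,k0,k0,k0,k0,k0,(nat_lit 14820)],[k0,(nat_lit 4940),(nat_lit 2470)]] (nat_lit 59280) k6
    [[(k4,(nat_lit 14820)),(k7,(nat_lit 19812))],[(k5,(nat_lit 14820)),(k11,(nat_lit 15352)),(k2,(nat_lit 16302)),(k3,
    (nat_lit 16302)),(k6,(nat_lit 17342)),(k0,(nat_lit 17784)),(k8,(nat_lit 22477)),(k9,(nat_lit 22477))],[(k5,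
    (nat_lit 13338)),(k2,(nat_lit 14820)),(k3,(nat_lit 14820)),(k0,(nat_lit 16302)),(k6,(nat_lit 18330)),(k11,
    (nat_lit 18810)),(k9,(nat_lit 23465)),(k8,(nat_lit 25935))],[(k5,(nat_lit 13338)),(k2,(nat_lit 14820)),(k3,
    (nat_lit 14820)),(k0,(nat_lit 16302)),(k6,(nat_lit 18330)),(k11,(nat_lit 18810)),(k9,(nat_lit 20995)),(k8,
    (nat_lit 23465))],[(k5,(nat_lit 11856)),(k2,(nat_lit 13338)),(k3,(nat_lit 13338)),(k0,(nat_lit 14820)),(k11,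
    (nat_lit 14858)),(k6,(nat_lit 16848)),(k8,(nat_lit 19513)),(k9,(nat_lit 19513))],[(k1,(nat_lit 14820)),(k10,
    (nat_lit 17328))],[(k1,(nat_lit 19812)),(k10,(nat_lit 22320))],[(k5,(nat_lit 16848)),(k0,(nat_lit 17342)),(k2,
    (nat_lit 18330)),(k3,(nat_lit 18330)),(k6,(nat_lit 21840)),(k8,(nat_lit 24505)),(k9,(nat_lit 24505)),(k11,
    (nat_lit 37140))],[(k8,(nat_lit 12350)),(k5,(nat_lit 19513)),(k2,(nat_lit 20995)),(k0,(nat_lit 22477)),(k3,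
    (nat_lit 23465)),(k6,(nat_lit 24505)),(k11,(nat_lit 24985)),(k9,(nat_lit 27170))],[(k9,(nat_lit 12350)),(k5,
    (nat_lit 19513)),(k0,(nat_lit 22477)),(k2,(nat_lit 23465)),(k6,(nat_lit 24505)),(k11,(nat_lit 24985)),(k3,
    (nat_lit 25935)),(k8,(nat_lit 27170))],[(k5,(nat_lit 14858)),(k0,(nat_lit 15352)),(k2,(nat_lit 18810)),(k3,
    (nat_lit 18810)),(k11,(nat_lit 22800)),(k8,(nat_lit 24985)),(k9,(nat_lit 24985)),(k6,(nat_lit 37140))],[(k4,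
    (nat_lit 17328)),(k7,(nat_lit 22320))]]
    [] k0
    [[k1,k0,k1,k0,k0,k0],[k1,k1,k1,k0,k0,k0],[k1,k0,k1,k0,k1,k0],[k1,k0,k0,k1,k0,k0],[k1,k1,k0,k1,k0,k0],[k0,k2,k0,k0,
    k0,k0],[k0,k3,k0,k0,k0,k0],[k0,k1,k1,k0,k0,k1],[k0,k1,k0,k0,k1,k0],[k0,k0,k1,k0,k0,k1],[k0,k0,k0,k0,k2,k0],[k0,k0,
    k0,k0,k3,k0],[k0,k0,k0,k0,k4,k0]]
    [.contra [y1,z2],.contra [z1,y1],.contra [z1,y1],.ref k0 k0 [(z1,[z1])],.ref k1 k1 [(z1,[z1])],.contra [z1],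
    .ref k7 k0 [(z1,[z0,z1]),(z1,[z1]),(z1,[z0,y1,y1,z1])],.ref k1 k0 [(z1,[y1,z0,z0,z1])],.contra [y1,z1,z1],
    .ref k0 k2 [(z1,[z1])],.contra [z1],.ref k5 k0 [(z1,[z0,z1]),(z1,[y1,z0,z3]),(z1,[z0,y1,y1,z1])],.ref k6 k0 [(z1,
    [z0,z1]),(z2,[y1,z0,z4]),(z1,[z0,y1,y1,z1])]]),
    .old (.leafM k10 [k0,k1,k2,k4] [(z1,[z0,z1]),(z1,[y1,y1,y3,z3]),(z1,[z1])] [(k3,k5,z1,[z0,z0,z1]),(k5,k3,z1,[z0,z0,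
    z1])]),
    .old (.lp [k96,k94,k130,k48,k62,k48] [k17,k17,k18,k18,k0,k0,k41,k41,k34,k34,k41,k41] k0 [[],[k0,k0,k0,k14],[k14],[k0,
    k0,k0,k0,k0,k0,k0,k22,k22],[],[],[k0,k0,k22],[],[],[k0,k0,k22]] (nat_lit 240) k6
    [[(k7,k72),(k4,k113)],[(k6,k72),(k11,k72),(k8,k79),(k9,k79),(k2,k95),(k3,k95),(k0,k96),(k5,k127)],[(k6,k71),(k11,
    k71),(k8,k78),(k9,k78),(k2,k80),(k3,k94),(k0,k95),(k5,k112)],[(k6,k71),(k11,k71),(k3,k80),(k2,k94),(k0,k95),(k8,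
    k100),(k9,k100),(k5,k112)],[(k6,k67),(k11,k67),(k8,k96),(k9,k96),(k2,k112),(k3,k112),(k0,k127),(k5,k130)],[(k10,
    k89),(k1,k113)],[(k10,k48),(k1,k72)],[(k6,k48),(k11,k48),(k8,k55),(k9,k55),(k5,k67),(k2,k71),(k3,k71),(k0,k72)],
    [(k6,k55),(k11,k55),(k8,k62),(k9,k62),(k3,k78),(k0,k79),(k5,k96),(k2,k100)],[(k6,k55),(k11,k55),(k8,k62),(k9,k62),
    (k3,k78),(k0,k79),(k5,k96),(k2,k100)],[(k6,k48),(k11,k48),(k8,k55),(k9,k55),(k5,k67),(k2,k71),(k3,k71),(k0,k72)],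
    [(k7,k48),(k4,k89)]]
    [] k0
    [[k1,k0,k0,k1,k0,k0],[k1,k1,k0,k1,k0,k0],[k1,k0,k0,k1,k1,k0],[k0,k2,k0,k0,k0,k0],[k0,k1,k0,k1,k0,k1],[k0,k1,k0,k0,
    k1,k0],[k0,k0,k1,k0,k0,k1],[k0,k0,k0,k1,k0,k1],[k0,k0,k0,k2,k0,k2],[k0,k0,k0,k1,k1,k1],[k0,k0,k0,k1,k2,k1],[k0,k0,
    k0,k0,k2,k0],[k0,k0,k0,k0,k3,k0]]
    [.ref k0 k0 [(z1,[z1])],.ref k1 k1 [(z1,[z1])],.ref k1 k0 [(z1,[z1])],.contra [z1],.contra [y1,y1,z0,z1],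
    .contra [y1,y1,z0,z1],.ref k0 k2 [(z1,[z1])],.contra [y1,y1,z0,z1],.ref k8 k1 [(z2,[z1]),(z2,[y1,y2,z0,z2])],
    .contra [z1,z1,z1,y1],.ref k9 k1 [(z1,[y3,y6,y2,z6]),(z1,[z3,z3,z1,y3]),(z1,[z0,z1])],.contra [z1],
    .ref k9 k1 [(z1,[y1,y3,y1,z3]),(z1,[z1]),(z1,[z0,z1])]]),
    .old (.lp [(nat_lit 594),(nat_lit 540),(nat_lit 528),(nat_lit 264),(nat_lit 440),(nat_lit 264)] [k0,k0,k27,k27,k33,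
    k33,k165,k165,k77,k77,k165,k165] k0 [[],[k0,k0,k0,k198],[k198]] (nat_lit 1320) k6
    [[(k7,(nat_lit 429)),(k4,(nat_lit 561))],[(k6,(nat_lit 429)),(k11,(nat_lit 429)),(k8,(nat_lit 517)),(k9,
    (nat_lit 517)),(k2,(nat_lit 567)),(k3,(nat_lit 567)),(k0,(nat_lit 594)),(k5,(nat_lit 759))],[(k2,(nat_lit 342)),
    (k6,(nat_lit 402)),(k11,(nat_lit 402)),(k8,(nat_lit 490)),(k9,(nat_lit 490)),(k5,(nat_lit 534)),(k3,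
    (nat_lit 540)),(k0,(nat_lit 567))],[(k3,(nat_lit 342)),(k6,(nat_lit 402)),(k11,(nat_lit 402)),(k8,(nat_lit 490)),
    (k9,(nat_lit 490)),(k5,(nat_lit 534)),(k2,(nat_lit 540)),(k0,(nat_lit 567))],[(k6,(nat_lit 396)),(k11,
    (nat_lit 396)),(k8,(nat_lit 484)),(k9,(nat_lit 484)),(k5,(nat_lit 528)),(k2,(nat_lit 534)),(k3,(nat_lit 534)),(k0,
    (nat_lit 759))],[(k10,(nat_lit 396)),(k1,(nat_lit 561))],[(k10,(nat_lit 264)),(k1,(nat_lit 429))],[(k6,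
    (nat_lit 264)),(k11,(nat_lit 264)),(k8,(nat_lit 352)),(k9,(nat_lit 352)),(k5,(nat_lit 396)),(k2,(nat_lit 402)),
    (k3,(nat_lit 402)),(k0,(nat_lit 429))],[(k6,(nat_lit 352)),(k11,(nat_lit 352)),(k8,(nat_lit 440)),(k9,
    (nat_lit 440)),(k5,(nat_lit 484)),(k2,(nat_lit 490)),(k3,(nat_lit 490)),(k0,(nat_lit 517))],[(k6,(nat_lit 352)),
    (k11,(nat_lit 352)),(k8,(nat_lit 440)),(k9,(nat_lit 440)),(k5,(nat_lit 484)),(k2,(nat_lit 490)),(k3,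
    (nat_lit 490)),(k0,(nat_lit 517))],[(k6,(nat_lit 264)),(k11,(nat_lit 264)),(k8,(nat_lit 352)),(k9,(nat_lit 352)),
    (k5,(nat_lit 396)),(k2,(nat_lit 402)),(k3,(nat_lit 402)),(k0,(nat_lit 429))],[(k7,(nat_lit 264)),(k4,
    (nat_lit 396))]]
    [] k0
    [[k1,k0,k0,k1,k0,k0],[k1,k0,k0,k1,k1,k0],[k0,k2,k0,k0,k0,k0],[k0,k3,k0,k0,k0,k0],[k0,k1,k0,k1,k0,k1],[k0,k1,k0,k0,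
    k1,k0],[k0,k0,k1,k0,k1,k1],[k0,k0,k1,k0,k0,k1],[k0,k0,k0,k1,k0,k1],[k0,k0,k0,k2,k0,k2],[k0,k0,k0,k1,k1,k1],[k0,k0,
    k0,k0,k2,k0]]
    [.ref k0 k0 [(z1,[z1])],.ref k1 k0 [(z1,[z1])],.contra [z1],.ref k10 k0 [(z1,[z0,z1]),(z1,[z1])],.contra [y1,y1,
    z1],.contra [y1,y1,z1],.ref k1 k1 [(z1,[y1,z0,z1])],.ref k0 k2 [(z1,[z1])],.contra [y1,y1,z1],.ref k8 k1 [(z2,
    [z1]),(z2,[y1,y2,z2])],.contra [y1,y1,z1],.contra [z1]]),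
    .old (.lp [k6,k10,k6,k6,k12,k6] [k3,k3,k1,k1,k3,k3,k3,k3,k0,k0,k3,k3] k0 [[k0,k0,k0,k0,k0,k0,k2,k0,k0,k2],[],[],[k0,
    k0,k0,k0,k0,k0,k2,k0,k0,k2],[],[],[],[k0,k2,k2],[k0,k2,k2]] k24 k5
    [[(k4,k6),(k7,k6)],[(k0,k6),(k5,k6),(k6,k6),(k11,k6),(k8,k7),(k9,k7),(k2,k8),(k3,k8)],[(k0,k8),(k5,k8),(k2,k10),
    (k3,k10),(k6,k10),(k11,k10),(k8,k11),(k9,k11)],[(k0,k8),(k5,k8),(k2,k10),(k3,k10),(k6,k10),(k11,k10),(k8,k11),(k9,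
    k11)],[(k0,k6),(k5,k6),(k6,k6),(k11,k6),(k8,k7),(k9,k7),(k2,k8),(k3,k8)],[(k1,k6),(k10,k6)],[(k1,k6),(k10,k6)],
    [(k0,k6),(k5,k6),(k6,k6),(k11,k6),(k8,k9),(k9,k9),(k2,k10),(k3,k10)],[(k0,k7),(k5,k7),(k6,k9),(k11,k9),(k2,k11),
    (k3,k11),(k8,k12),(k9,k12)],[(k0,k7),(k5,k7),(k6,k9),(k11,k9),(k2,k11),(k3,k11),(k8,k12),(k9,k12)],[(k0,k6),(k5,
    k6),(k6,k6),(k11,k6),(k8,k9),(k9,k9),(k2,k10),(k3,k10)],[(k4,k6),(k7,k6)]]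
    [] k0
    [[k1,k0,k1,k0,k0,k0],[k1,k1,k1,k0,k0,k0],[k1,k0,k1,k0,k1,k0],[k1,k0,k0,k1,k0,k0],[k1,k0,k0,k1,k1,k0],[k0,k2,k0,k0,
    k0,k0],[k0,k1,k0,k0,k1,k0],[k0,k0,k1,k0,k1,k1],[k0,k0,k1,k0,k0,k1],[k0,k0,k0,k1,k0,k1]]
    [.ref k11 k0 [(z1,[z1])],.ref k4 k0 [(z1,[z1])],.ref k3 k0 [(z1,[z1])],.ref k0 k0 [(z1,[z1])],.ref k1 k0 [(z1,
    [z1])],.contra [z1],.ref k2 k0 [(z1,[y1,z1])],.ref k1 k1 [(z1,[y1,z1])],.ref k0 k2 [(z1,[z1])],.ref k11 k1 [(z1,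
    [z1])]])]⟩

/-- classes `0 0 1 0 0 1`, types `S0 S0 C0 S0 S0 C0` -/
noncomputable def cU6_830 : CertX :=
  ⟨[k0,k0,k20,k0,k0,k20],[(false,k0,[k0,k1,k2,k3,k4,k5]),(true,k2,[k2,k1,k0,k5,k4,k3]),(false,k3,[k3,k4,k5,k0,k1,
    k2])],[[[([z1,z1,z1,z0,z0,z0],z2)],[([z1,z0,z0,z0,z0,z1],z2)],[([z1,z0,z1,z1,z0,z1],z2)],[([z1,z0,z1,z0,z1,z0],
    z2)],[([z1,z0,z0,z0,z1,z1],z2)],[([z1,z0,z1,z0,z0,z0],z1),([z0,z3,z0,z0,z0,z0],z1),([z0,z0,z0,z1,z0,z1],z2)],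
    [([z1,z0,z1,z0,z0,z0],z1),([z0,z2,z0,z0,z0,z0],z1),([z0,z0,z0,z1,z0,z1],z2)],[([z1,z0,z1,z0,z0,z0],z1),([z0,z3,z0,
    z0,z0,z0],z2),([z0,z0,z0,z1,z0,z1],z2)],[([z1,z0,z1,z0,z0,z0],z1),([z0,z1,z0,z0,z1,z0],z1)],[([z3,z0,z3,z0,z0,z0],
    z2),([z0,z3,z0,z0,z0,z0],z2),([z0,z0,z0,z1,z0,z1],z2)],[([z1,z0,z1,z0,z0,z0],z2),([z0,z3,z0,z0,z0,z0],z2)],[([z1,
    z0,z1,z0,z0,z0],z2)]],[[]]],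
    [.old (.leafM k0 [k2,k3,k4,k5,k0,k1] [(z1,[y1,z1])] []),
    .old (.leafM k0 [k1,k2,k3,k4] [] [(k5,k0,z1,[z1]),(k0,k5,z1,[z1])]),
    .old (.leafM k2 [k2,k3,k5,k0] [] [(k4,k1,z1,[y1,z1]),(k1,k4,z1,[y1,z1])]),
    .old (.leafM k1 [k0,k1,k2,k3,k4,k5] [(z1,[y1,z1]),(z1,[z1])] []),
    .old (.leafM k0 [k0,k1,k2,k3,k4,k5] [(z1,[y1,z1])] []),
    .old (.leafM k8 [k2,k4,k0,k1] [(z1,[y3,y1,y3,z3]),(z1,[z0,z1]),(z1,[z1])] [(k3,k5,z1,[z0,z0,z1]),(k5,k3,z1,[z0,z0,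
    z1])]),
    .old (.leafM k9 [k2,k4,k0,k1] [(z1,[y2,y1,y2,z2]),(z1,[z0,z1]),(z1,[z1])] [(k3,k5,z1,[z0,z0,z1]),(k5,k3,z1,[z0,z0,
    z1])]),
    .old (.leafM k11 [k0,k1,k2,k4] [(z1,[z0,z1]),(z1,[y3,y1,y3,z3]),(z1,[z1])] [(k3,k5,z1,[z0,z0,z1]),(k5,k3,z1,[z0,z0,
    z1])]),
    .old (.lp [k48,k60,k72,k48,k130,k112] [k41,k41,k35,k35,k29,k29,k41,k41,k0,k0,k9,k9] k0 [[],[],[],[],[],[],[],[k0,k0,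
    k0,k0,k0,k0,k0,k0,k0,k80],[k0,k0,k0,k0,k0,k0,k80]] (nat_lit 240) k6
    [[(k4,k60),(k10,k80)],[(k0,k48),(k6,k48),(k2,k54),(k3,k54),(k5,k60),(k11,k80),(k8,k89),(k9,k89)],[(k0,k54),(k6,
    k54),(k2,k60),(k3,k60),(k5,k66),(k11,k86),(k8,k95),(k9,k95)],[(k0,k54),(k6,k54),(k2,k60),(k3,k60),(k5,k66),(k11,
    k86),(k8,k95),(k9,k95)],[(k0,k60),(k6,k60),(k2,k66),(k3,k66),(k5,k72),(k11,k92),(k8,k101),(k9,k101)],[(k1,k60),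
    (k7,k60)],[(k4,k60),(k10,k80)],[(k0,k48),(k6,k48),(k2,k54),(k3,k54),(k5,k60),(k8,k89),(k9,k89),(k11,k160)],[(k8,
    k50),(k0,k89),(k6,k89),(k2,k95),(k3,k95),(k5,k101),(k11,k121),(k9,k130)],[(k9,k50),(k0,k89),(k6,k89),(k2,k95),(k3,
    k95),(k5,k101),(k11,k121),(k8,k130)],[(k0,k80),(k2,k86),(k3,k86),(k5,k92),(k11,k112),(k8,k121),(k9,k121),(k6,
    k160)],[(k1,k80),(k7,k80)]]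
    [] k0
    [[k1,k0,k1,k0,k0,k0],[k1,k1,k1,k0,k0,k0],[k1,k0,k0,k0,k0,k1],[k1,k1,k0,k0,k0,k1],[k0,k2,k0,k0,k0,k0],[k0,k3,k0,k0,
    k0,k0],[k0,k1,k1,k1,k0,k0],[k0,k1,k0,k1,k0,k1],[k0,k1,k0,k0,k1,k0],[k0,k0,k1,k1,k0,k0],[k0,k0,k0,k0,k2,k0],[k0,k0,
    k0,k0,k3,k0],[k0,k0,k0,k0,k4,k0]]
    [.contra [y1,z2],.contra [z1,y1],.ref k1 k0 [(z1,[z1])],.ref k4 k1 [(z1,[y1,z0,z0,z1])],.contra [z1],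
    .ref k7 k0 [(z1,[z0,z1]),(z1,[z1]),(z1,[z0,y1,y1,z1])],.ref k4 k0 [(z1,[y1,z0,z0,z1])],.contra [y1,y1,z0,z1],
    .contra [y1,z1,z1],.ref k1 k2 [(z1,[z1])],.contra [z1],.ref k5 k0 [(z1,[z0,z1]),(z1,[y1,z0,z3]),(z1,[z0,y1,y1,
    z1])],.ref k6 k0 [(z1,[z0,z1]),(z2,[y1,z0,z4]),(z1,[z0,y1,y1,z1])]]),
    .old (.leafM k10 [k0,k1,k2,k4] [(z1,[z0,z1]),(z1,[y1,y1,y3,z3]),(z1,[z1])] [(k3,k5,z1,[z0,z0,z1]),(k5,k3,z1,[z0,z0,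
    z1])]),
    .old (.lp [k130,k94,k96,k48,k62,k48] [k0,k0,k18,k18,k17,k17,k41,k41,k34,k34,k41,k41] k0 [[k0,k0,k0,k0,k0,k0,k0,k22,
    k22],[k0,k0,k0,k14],[k14],[],[],[],[k0,k22],[],[],[k0,k22]] (nat_lit 240) k6
    [[(k10,k89),(k4,k113)],[(k6,k67),(k11,k67),(k8,k96),(k9,k96),(k2,k112),(k3,k112),(k5,k127),(k0,k130)],[(k6,k71),
    (k11,k71),(k2,k80),(k3,k94),(k5,k95),(k8,k100),(k9,k100),(k0,k112)],[(k6,k71),(k11,k71),(k8,k78),(k9,k78),(k3,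
    k80),(k2,k94),(k5,k95),(k0,k112)],[(k6,k72),(k11,k72),(k8,k79),(k9,k79),(k2,k95),(k3,k95),(k5,k96),(k0,k127)],
    [(k7,k72),(k1,k113)],[(k10,k48),(k4,k72)],[(k6,k48),(k11,k48),(k8,k55),(k9,k55),(k0,k67),(k2,k71),(k3,k71),(k5,
    k72)],[(k6,k55),(k11,k55),(k8,k62),(k9,k62),(k2,k78),(k5,k79),(k0,k96),(k3,k100)],[(k6,k55),(k11,k55),(k8,k62),
    (k9,k62),(k2,k78),(k5,k79),(k0,k96),(k3,k100)],[(k6,k48),(k11,k48),(k8,k55),(k9,k55),(k0,k67),(k2,k71),(k3,k71),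
    (k5,k72)],[(k7,k48),(k1,k89)]]
    [] k0
    [[k1,k0,k0,k0,k0,k1],[k0,k2,k0,k0,k0,k0],[k0,k1,k1,k1,k0,k0],[k0,k1,k0,k1,k0,k1],[k0,k1,k0,k0,k1,k0],[k0,k0,k1,k1,
    k0,k0],[k0,k0,k1,k1,k1,k0],[k0,k0,k0,k1,k0,k1],[k0,k0,k0,k2,k0,k2],[k0,k0,k0,k1,k1,k1],[k0,k0,k0,k1,k2,k1],[k0,k0,
    k0,k0,k2,k0],[k0,k0,k0,k0,k3,k0]]
    [.ref k1 k0 [(z1,[z1])],.contra [z1],.ref k4 k0 [(z1,[y1,z0,z0,z1])],.contra [y1,y1,z0,z1],.contra [y1,y1,z0,z1],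
    .ref k1 k2 [(z1,[z1])],.ref k4 k1 [(z1,[z1])],.contra [y1,y1,z0,z1],.ref k8 k2 [(z2,[z1]),(z2,[y1,y2,z0,z2])],
    .contra [z1,z1,z1,y1],.ref k9 k2 [(z1,[y3,y6,y2,z6]),(z1,[z3,z3,z1,y3]),(z1,[z0,z1])],.contra [z1],
    .ref k9 k2 [(z1,[y1,y3,y1,z3]),(z1,[z1]),(z1,[z0,z1])]]),
    .old (.lp [k96,k94,k112,k48,k80,k48] [k8,k8,k9,k9,k0,k0,k32,k32,k16,k16,k32,k32] k0 [[],[k0,k0,k0,k32],[k32],[k0,k0,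
    k0,k0,k0,k0,k0,k4,k4],[],[],[k0,k0,k4],[],[],[k0,k0,k4]] (nat_lit 240) k6
    [[(k10,k72),(k4,k104)],[(k6,k72),(k11,k72),(k8,k88),(k9,k88),(k2,k95),(k3,k95),(k0,k96),(k5,k136)],[(k2,k62),(k6,
    k71),(k11,k71),(k8,k87),(k9,k87),(k3,k94),(k0,k95),(k5,k103)],[(k3,k62),(k6,k71),(k11,k71),(k8,k91),(k9,k91),(k2,
    k94),(k0,k95),(k5,k103)],[(k6,k76),(k11,k76),(k8,k96),(k9,k96),(k2,k103),(k3,k103),(k5,k112),(k0,k136)],[(k7,k80),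
    (k1,k104)],[(k10,k48),(k4,k80)],[(k6,k48),(k11,k48),(k8,k64),(k9,k64),(k2,k71),(k3,k71),(k0,k72),(k5,k76)],[(k6,
    k64),(k11,k64),(k8,k80),(k9,k80),(k3,k87),(k0,k88),(k2,k91),(k5,k96)],[(k6,k64),(k11,k64),(k8,k80),(k9,k80),(k3,
    k87),(k0,k88),(k2,k91),(k5,k96)],[(k6,k48),(k11,k48),(k8,k64),(k9,k64),(k2,k71),(k3,k71),(k0,k72),(k5,k76)],[(k7,
    k48),(k1,k72)]]
    [] k0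
    [[k1,k0,k0,k0,k0,k1],[k1,k1,k0,k0,k0,k1],[k1,k0,k0,k0,k1,k1],[k0,k2,k0,k0,k0,k0],[k0,k3,k0,k0,k0,k0],[k0,k1,k0,k1,
    k0,k1],[k0,k1,k0,k0,k1,k0],[k0,k0,k1,k1,k0,k0],[k0,k0,k0,k1,k0,k1],[k0,k0,k0,k2,k0,k2],[k0,k0,k0,k1,k1,k1],[k0,k0,
    k0,k0,k2,k0]]
    [.ref k1 k0 [(z1,[z1])],.ref k4 k1 [(z1,[y1,z0,z1])],.ref k4 k0 [(z1,[z1])],.contra [z1],.ref k10 k0 [(z1,[z0,
    z1]),(z1,[z1])],.contra [y1,y1,z1],.contra [y1,y1,z1],.ref k1 k2 [(z1,[z1])],.contra [y1,y1,z1],.ref k8 k2 [(z2,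
    [z1]),(z2,[y1,y2,z2])],.contra [y1,y1,z1],.contra [z1]]),
    .old (.lp [k6,k12,k8,k6,k8,k6] [k3,k3,k0,k0,k2,k2,k3,k3,k2,k2,k3,k3] k0 [[],[],[k0,k0,k0,k0,k0,k0,k0,k2,k2],[],[],[],
    [k0,k0,k0,k2],[],[],[k0,k0,k0,k2]] k24 k5
    [[(k10,k6),(k4,k7)],[(k0,k6),(k6,k6),(k11,k6),(k5,k7),(k8,k7),(k9,k7),(k2,k9),(k3,k9)],[(k0,k9),(k6,k9),(k11,k9),
    (k5,k10),(k8,k10),(k9,k10),(k2,k12),(k3,k12)],[(k6,k7),(k11,k7),(k0,k9),(k5,k10),(k8,k10),(k9,k10),(k2,k12),(k3,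
    k12)],[(k0,k7),(k6,k7),(k11,k7),(k5,k8),(k2,k10),(k3,k10),(k8,k10),(k9,k10)],[(k1,k7),(k7,k7)],[(k10,k6),(k4,k7)],
    [(k0,k6),(k6,k6),(k11,k6),(k2,k7),(k5,k7),(k8,k7),(k9,k7),(k3,k9)],[(k0,k7),(k6,k7),(k11,k7),(k8,k8),(k9,k8),(k2,
    k10),(k3,k10),(k5,k10)],[(k0,k7),(k6,k7),(k11,k7),(k8,k8),(k9,k8),(k2,k10),(k3,k10),(k5,k10)],[(k0,k6),(k6,k6),
    (k11,k6),(k2,k7),(k5,k7),(k8,k7),(k9,k7),(k3,k9)],[(k1,k6),(k7,k6)]]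
    [] k0
    [[k1,k0,k1,k0,k0,k0],[k1,k0,k0,k0,k0,k1],[k1,k1,k0,k0,k0,k1],[k1,k0,k0,k0,k1,k1],[k0,k1,k0,k1,k0,k1],[k0,k1,k0,k0,
    k1,k0],[k0,k0,k1,k1,k0,k0],[k0,k0,k0,k1,k0,k1],[k0,k0,k0,k1,k1,k1],[k0,k0,k0,k0,k2,k0]]
    [.ref k11 k0 [(z1,[z1])],.ref k1 k0 [(z1,[z1])],.ref k4 k1 [(z1,[y1,z1])],.ref k4 k0 [(z1,[z1])],.ref k3 k0 [(z1,
    [y1,z1])],.ref k2 k0 [(z1,[y1,z1])],.ref k1 k2 [(z1,[z1])],.ref k11 k2 [(z1,[z1])],.ref k0 k0 [(z1,[y1,z1])],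
    .contra [z1]])]⟩

/-- classes `0 0 1 0 0 1`, types `S0 S0 C0 S0 S0 C2` -/
noncomputable def cU6_831 : CertX :=
  ⟨[k0,k0,k20,k0,k0,k22],[(false,k0,[k0,k1,k2,k3,k4,k5]),(false,k3,[k3,k4,k5,k0,k1,k2]),(true,k2,[k2,k1,k0,k5,k4,
    k3])],[[[([z1,z0,z0,z1,z0,z0],z2)],[([z1,z0,z0,z0,z0,z1],z2)],[([z1,z0,z1,z1,z0,z1],z2)],[([z1,z0,z0,z0,z1,z1],
    z2)],[([z1,z0,z0,z1,z1,z0],z2)],[]]],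
    [.old (.leafM k2 [k1,k2,k4,k5] [] [(k3,k0,z1,[z1]),(k0,k3,z1,[z1])]),
    .old (.leafM k0 [k1,k2,k3,k4] [] [(k5,k0,z1,[z1]),(k0,k5,z1,[z1])]),
    .old (.leafM k2 [k2,k3,k5,k0] [] [(k4,k1,z1,[y1,z1]),(k1,k4,z1,[y1,z1])]),
    .old (.leafM k0 [k0,k1,k2,k3,k4,k5] [(z1,[y1,z1])] []),
    .old (.leafM k3 [k4,k5,k0,k1,k2,k3] [(z1,[y1,z1])] []),
    .old (.lp [k6,k8,k6,k6,k12,k8] [k3,k3,k1,k3,k3,k3,k3,k3,k0,k0,k2,k2] k0 [[k0,k0,k0,k2,k0,k0,k0,k0,k0,k2],[],[k0,k2],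
    [],[],[],[],[],[k0,k2]] k24 k5
    [[(k7,k6),(k10,k7)],[(k0,k6),(k2,k6),(k3,k6),(k5,k6),(k6,k6),(k8,k7),(k11,k7),(k9,k9)],[(k0,k6),(k3,k6),(k6,k6),
    (k2,k8),(k5,k8),(k8,k9),(k9,k9),(k11,k9)],[(k0,k6),(k3,k8),(k5,k8),(k6,k8),(k11,k9),(k2,k10),(k8,k11),(k9,k11)],
    [(k0,k6),(k5,k6),(k6,k6),(k11,k7),(k2,k8),(k3,k8),(k8,k9),(k9,k9)],[(k7,k6),(k10,k7)],[(k1,k6),(k4,k6)],[(k0,k6),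
    (k3,k6),(k5,k6),(k6,k6),(k11,k7),(k2,k8),(k8,k9),(k9,k9)],[(k0,k9),(k3,k9),(k5,k9),(k6,k9),(k11,k10),(k2,k11),(k8,
    k12),(k9,k12)],[(k0,k7),(k3,k9),(k5,k9),(k6,k9),(k11,k10),(k2,k11),(k8,k12),(k9,k12)],[(k0,k7),(k5,k7),(k6,k7),
    (k11,k8),(k2,k9),(k3,k9),(k8,k10),(k9,k10)],[(k1,k7),(k4,k7)]]
    [] k0
    [[k1,k0,k0,k1,k0,k0],[k1,k1,k0,k1,k0,k0],[k1,k0,k0,k1,k1,k0],[k1,k0,k0,k0,k0,k1],[k1,k1,k0,k0,k0,k1],[k0,k2,k0,k0,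
    k0,k0],[k0,k1,k1,k1,k0,k0],[k0,k1,k0,k0,k1,k0],[k0,k0,k1,k1,k0,k0],[k0,k0,k1,k0,k0,k1]]
    [.ref k0 k0 [(z1,[z1])],.ref k4 k1 [(z1,[z1])],.ref k4 k0 [(z1,[z1])],.ref k1 k0 [(z1,[z1])],.ref k3 k2 [(z1,[y1,
    z1])],.contra [z1],.ref k3 k0 [(z1,[y1,z1])],.ref k2 k0 [(z1,[y1,z1])],.ref k1 k1 [(z1,[z1])],.ref k0 k2 [(z1,
    [z1])]])]⟩

/-- classes `0 0 1 0 0 1`, types `S0 S0 N0 S0 S0 N1` -/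
noncomputable def cU6_832 : CertX :=
  ⟨[k0,k0,k28,k0,k0,k29],[(false,k0,[k0,k1,k2,k3,k4,k5]),(false,k3,[k3,k4,k5,k0,k1,k2])],[[[([z1,z0,z1,z1,z0,z1],z2)],
    [([z1,z0,z1,z0,z1,z0],z2)],[([z1,z1,z1,z0,z0,z0],z2)],[([z1,z0,z1,z0,z0,z0],z1),([z0,z3,z0,z0,z0,z0],z1),([z0,z0,
    z0,z1,z0,z1],z2)],[([z1,z0,z1,z0,z0,z0],z1),([z0,z2,z0,z0,z0,z0],z1),([z0,z0,z0,z1,z0,z1],z2)],[([z1,z0,z1,z0,z0,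
    z0],z1),([z0,z3,z0,z0,z0,z0],z2),([z0,z0,z0,z1,z0,z1],z2)],[([z1,z0,z1,z0,z0,z0],z1),([z0,z1,z0,z0,z1,z0],z1)],
    [([z3,z0,z3,z0,z0,z0],z2),([z0,z3,z0,z0,z0,z0],z2),([z0,z0,z0,z1,z0,z1],z2)],[([z1,z0,z1,z0,z0,z0],z2),([z0,z3,z0,
    z0,z0,z0],z2)],[([z1,z0,z1,z0,z0,z0],z2)],[]]],
    [.old (.leafM k5 [k0,k2,k3,k5] [] [(k1,k4,z1,[y1,z1]),(k4,k1,z1,[y1,z1])]),
    .old (.leafM k1 [k0,k1,k2,k3,k4,k5] [(z1,[y1,z1]),(z1,[z1])] []),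
    .old (.leafM k0 [k2,k3,k4,k5,k0,k1] [(z1,[y1,z1])] []),
    .old (.leafM k8 [k2,k4,k0,k1] [(z1,[y3,y1,y3,z3]),(z1,[z0,z1]),(z1,[z1])] [(k3,k5,z1,[z0,z0,z1]),(k5,k3,z1,[z0,z0,
    z1])]),
    .old (.leafM k9 [k2,k4,k0,k1] [(z1,[y2,y1,y2,z2]),(z1,[z0,z1]),(z1,[z1])] [(k3,k5,z1,[z0,z0,z1]),(k5,k3,z1,[z0,z0,
    z1])]),
    .old (.leafM k11 [k0,k1,k2,k4] [(z1,[z0,z1]),(z1,[y3,y1,y3,z3]),(z1,[z1])] [(k3,k5,z1,[z0,z0,z1]),(k5,k3,z1,[z0,z0,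
    z1])]),
    .old (.lp [(nat_lit 828),(nat_lit 720),(nat_lit 552),(nat_lit 552),(nat_lit 1932),(nat_lit 828)] [(nat_lit 552),
    (nat_lit 552),(nat_lit 606),(nat_lit 606),(nat_lit 690),(nat_lit 690),(nat_lit 690),(nat_lit 690),k0,k0,
    (nat_lit 552),(nat_lit 552)] k0 [[k0,k0,k0,k0,k0,k0,k0,k115,k115],[],[],[],[],[],[k0,k115],[k0,k0,k0,k0,k0,k0,k0,
    k0,k0,(nat_lit 1380)],[k0,k0,k0,k0,k0,k0,(nat_lit 1380)],[k0,k115]] (nat_lit 2760) k6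
    [[(k4,(nat_lit 690))],[(k6,(nat_lit 575)),(k5,(nat_lit 690)),(k11,(nat_lit 713)),(k2,(nat_lit 774)),(k3,
    (nat_lit 774)),(k0,(nat_lit 828)),(k8,(nat_lit 1380)),(k9,(nat_lit 1380))],[(k5,(nat_lit 636)),(k6,(nat_lit 636)),
    (k2,(nat_lit 720)),(k3,(nat_lit 720)),(k0,(nat_lit 774)),(k11,(nat_lit 774)),(k8,(nat_lit 1441)),(k9,
    (nat_lit 1441))],[(k5,(nat_lit 636)),(k6,(nat_lit 636)),(k2,(nat_lit 720)),(k3,(nat_lit 720)),(k0,(nat_lit 774)),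
    (k11,(nat_lit 774)),(k8,(nat_lit 1326)),(k9,(nat_lit 1326))],[(k5,(nat_lit 552)),(k6,(nat_lit 552)),(k2,
    (nat_lit 636)),(k3,(nat_lit 636)),(k0,(nat_lit 690)),(k11,(nat_lit 690)),(k8,(nat_lit 1242)),(k9,(nat_lit 1242))],
    [(k1,(nat_lit 690))],[(k10,(nat_lit 690))],[(k5,(nat_lit 552)),(k6,(nat_lit 552)),(k0,(nat_lit 575)),(k2,
    (nat_lit 636)),(k3,(nat_lit 636)),(k8,(nat_lit 1242)),(k9,(nat_lit 1242)),(k11,(nat_lit 2070))],[(k8,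
    (nat_lit 552)),(k5,(nat_lit 1242)),(k6,(nat_lit 1242)),(k2,(nat_lit 1326)),(k0,(nat_lit 1380)),(k11,
    (nat_lit 1380)),(k3,(nat_lit 1441)),(k9,(nat_lit 1932))],[(k9,(nat_lit 552)),(k5,(nat_lit 1242)),(k6,
    (nat_lit 1242)),(k2,(nat_lit 1326)),(k0,(nat_lit 1380)),(k11,(nat_lit 1380)),(k3,(nat_lit 1441)),(k8,
    (nat_lit 1932))],[(k5,(nat_lit 690)),(k0,(nat_lit 713)),(k2,(nat_lit 774)),(k3,(nat_lit 774)),(k11,(nat_lit 828)),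
    (k8,(nat_lit 1380)),(k9,(nat_lit 1380)),(k6,(nat_lit 2070))],[(k7,(nat_lit 690))]]
    [] k0
    [[k1,k0,k1,k0,k0,k0],[k1,k1,k1,k0,k0,k0],[k1,k0,k1,k1,k0,k1],[k0,k2,k0,k0,k0,k0],[k0,k3,k0,k0,k0,k0],[k0,k1,k0,k1,
    k0,k1],[k0,k0,k0,k0,k2,k0],[k0,k0,k0,k0,k3,k0],[k0,k0,k0,k0,k4,k0]]
    [.contra [y1,z2],.contra [z1,y1],.contra [z1,z1,z1,y1],.contra [z1],.ref k5 k0 [(z1,[z0,z1]),(z1,[z1]),(z1,[z0,y1,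
    y1,z1])],.contra [y1,y1,z0,z1],.contra [z1],.ref k3 k0 [(z1,[z0,z1]),(z1,[y1,z0,z3]),(z1,[z0,y1,y1,z1])],
    .ref k4 k0 [(z1,[z0,z1]),(z2,[y1,z0,z4]),(z1,[z0,y1,y1,z1])]]),
    .old (.leafM k10 [k0,k1,k2,k4] [(z1,[z0,z1]),(z1,[y1,y1,y3,z3]),(z1,[z1])] [(k3,k5,z1,[z0,z0,z1]),(k5,k3,z1,[z0,z0,
    z1])]),
    .old (.lp [k130,k142,k48,k48,k62,k48] [k6,k6,k0,k0,k47,k47,k47,k47,k40,k40,k47,k47] k0 [[k0,k0,k0,k0,k0,k0,k0,k36,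
    k36],[k0,k0,k0,k62],[k62],[],[],[],[k0,k36],[],[],[k0,k36]] (nat_lit 240) k6
    [[(k4,k89)],[(k6,k53),(k11,k53),(k8,k96),(k9,k96),(k0,k130),(k2,k136),(k3,k136),(k5,k151)],[(k2,k80),(k5,k95),(k6,
    k95),(k11,k95),(k0,k136),(k8,k138),(k9,k138),(k3,k142)],[(k3,k80),(k5,k95),(k6,k95),(k11,k95),(k8,k102),(k9,k102),
    (k0,k136),(k2,k142)],[(k5,k48),(k6,k48),(k11,k48),(k8,k55),(k9,k55),(k2,k95),(k3,k95),(k0,k151)],[(k1,k89)],[(k10,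
    k48)],[(k5,k48),(k6,k48),(k11,k48),(k0,k53),(k8,k55),(k9,k55),(k2,k95),(k3,k95)],[(k5,k55),(k6,k55),(k11,k55),(k8,
    k62),(k9,k62),(k0,k96),(k2,k102),(k3,k138)],[(k5,k55),(k6,k55),(k11,k55),(k8,k62),(k9,k62),(k0,k96),(k2,k102),(k3,
    k138)],[(k5,k48),(k6,k48),(k11,k48),(k0,k53),(k8,k55),(k9,k55),(k2,k95),(k3,k95)],[(k7,k48)]]
    [] k0
    [[k1,k0,k1,k1,k0,k1],[k0,k2,k0,k0,k0,k0],[k0,k1,k0,k1,k0,k1],[k0,k0,k0,k1,k0,k1],[k0,k0,k0,k2,k0,k2],[k0,k0,k0,k1,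
    k1,k1],[k0,k0,k0,k1,k2,k1],[k0,k0,k0,k0,k2,k0],[k0,k0,k0,k0,k3,k0]]
    [.contra [z1,y1],.contra [z1],.contra [y1,y1,z0,z1],.contra [y1,y1,z0,z1],.ref k6 k1 [(z2,[z1]),(z2,[y1,y2,z0,
    z2])],.contra [z1,z1,z1,y1],.ref k7 k1 [(z1,[y3,y6,y2,z6]),(z1,[z3,z3,z1,y3]),(z1,[z0,z1])],.contra [z1],
    .ref k7 k1 [(z1,[y1,y3,y1,z3]),(z1,[z1]),(z1,[z0,z1])]]),
    .old (.lp [k110,k142,k48,k48,k80,k50] [k16,k16,k0,k0,k47,k47,k47,k47,k31,k31,k46,k46] k0 [[],[k0,k0,k0,k82],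
    [k82]] (nat_lit 240) k6
    [[(k4,k79)],[(k6,k79),(k11,k80),(k8,k95),(k9,k95),(k0,k110),(k2,k126),(k3,k126),(k5,k161)],[(k2,k60),(k5,k95),(k6,
    k95),(k11,k96),(k8,k111),(k9,k111),(k0,k126),(k3,k142)],[(k3,k60),(k5,k95),(k6,k95),(k11,k96),(k8,k111),(k9,k111),
    (k0,k126),(k2,k142)],[(k5,k48),(k6,k48),(k11,k49),(k8,k64),(k9,k64),(k2,k95),(k3,k95),(k0,k161)],[(k1,k79)],[(k10,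
    k49)],[(k5,k48),(k6,k48),(k11,k49),(k8,k64),(k9,k64),(k0,k79),(k2,k95),(k3,k95)],[(k5,k64),(k6,k64),(k11,k65),(k8,
    k80),(k9,k80),(k0,k95),(k2,k111),(k3,k111)],[(k5,k64),(k6,k64),(k11,k65),(k8,k80),(k9,k80),(k0,k95),(k2,k111),(k3,
    k111)],[(k5,k49),(k6,k49),(k11,k50),(k8,k65),(k9,k65),(k0,k80),(k2,k96),(k3,k96)],[(k7,k49)]]
    [] k0
    [[k1,k0,k1,k0,k1,k0],[k0,k2,k0,k0,k0,k0],[k0,k3,k0,k0,k0,k0],[k0,k1,k0,k0,k1,k0],[k0,k0,k0,k1,k0,k1],[k0,k0,k0,k2,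
    k0,k2],[k0,k0,k0,k1,k1,k1],[k0,k0,k0,k0,k2,k0]]
    [.contra [z1,y1],.contra [z1],.ref k8 k0 [(z1,[z0,z1]),(z1,[z1])],.contra [y1,y1,z1],.contra [y1,y1,z1],
    .ref k6 k1 [(z2,[z1]),(z2,[y1,y2,z2])],.contra [y1,y1,z1],.contra [z1]]),
    .old (.lp [k6,k8,k6,k6,k12,k8] [k3,k3,k2,k2,k3,k3,k3,k3,k0,k0,k2,k2] k0 [[k0,k0,k0,k0,k0,k0,k2,k0,k0,k2],[],[],[],[],
    [],[],[k0,k2],[k0,k2]] k24 k5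
    [[(k4,k6)],[(k0,k6),(k5,k6),(k6,k6),(k2,k7),(k3,k7),(k8,k7),(k9,k7),(k11,k7)],[(k0,k7),(k5,k7),(k2,k8),(k3,k8),
    (k6,k9),(k8,k10),(k9,k10),(k11,k10)],[(k0,k7),(k5,k7),(k6,k7),(k2,k8),(k3,k8),(k11,k8),(k8,k10),(k9,k10)],[(k0,
    k6),(k5,k6),(k6,k6),(k2,k7),(k3,k7),(k11,k7),(k8,k9),(k9,k9)],[(k1,k6)],[(k10,k7)],[(k0,k6),(k5,k6),(k6,k6),(k2,
    k7),(k11,k7),(k3,k9),(k8,k9),(k9,k9)],[(k0,k7),(k5,k9),(k6,k9),(k2,k10),(k3,k10),(k11,k10),(k8,k12),(k9,k12)],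
    [(k0,k7),(k5,k9),(k6,k9),(k2,k10),(k3,k10),(k11,k10),(k8,k12),(k9,k12)],[(k0,k7),(k5,k7),(k6,k7),(k2,k8),(k11,k8),
    (k3,k10),(k8,k10),(k9,k10)],[(k7,k7)]]
    [] k0
    [[k1,k0,k1,k0,k0,k0],[k1,k1,k1,k0,k0,k0],[k1,k0,k1,k0,k1,k0],[k0,k2,k0,k0,k0,k0],[k0,k1,k0,k0,k1,k0],[k0,k0,k0,k1,
    k0,k1]]
    [.ref k9 k0 [(z1,[z1])],.ref k2 k0 [(z1,[z1])],.ref k1 k0 [(z1,[z1])],.contra [z1],.ref k0 k0 [(z1,[y1,z1])],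
    .ref k9 k1 [(z1,[z1])]])]⟩

/-- classes `0 0 1 0 0 1`, types `S0 S0 N0 S0 S0 N2` -/
noncomputable def cU6_833 : CertX :=
  ⟨[k0,k0,k28,k0,k0,k30],[(false,k0,[k0,k1,k2,k3,k4,k5]),(false,k3,[k3,k4,k5,k0,k1,k2]),(true,k2,[k2,k1,k0,k5,k4,
    k3])],[[[([z1,z0,z0,z1,z0,z0],z2)],[([z1,z0,z1,z1,z0,z1],z2)],[([z1,z0,z0,z1,z1,z0],z2)],[]]],
    [.old (.leafM k2 [k1,k2,k4,k5] [] [(k3,k0,z1,[z1]),(k0,k3,z1,[z1])]),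
    .old (.leafM k6 [k0,k2,k3,k5] [] [(k1,k4,z1,[y1,z1]),(k4,k1,z1,[y1,z1])]),
    .old (.leafM k3 [k4,k5,k0,k1,k2,k3] [(z1,[y1,z1])] []),
    .old (.lp [k6,k10,k6,k6,k12,k6] [k3,k3,k1,k1,k3,k3,k3,k3,k0,k0,k3,k3] k0 [[k0,k0,k0,k2,k0,k0,k0,k0,k0,k2],[],[k0,k2],
    [],[],[],[],[],[k0,k2]] k24 k5
    [[(k7,k6)],[(k0,k6),(k2,k6),(k5,k6),(k6,k6),(k11,k6),(k8,k7),(k3,k8),(k9,k9)],[(k0,k8),(k6,k8),(k2,k10),(k3,k10),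
    (k5,k10),(k11,k10),(k8,k11),(k9,k11)],[(k0,k6),(k5,k8),(k6,k8),(k11,k8),(k2,k10),(k3,k10),(k8,k11),(k9,k11)],[(k0,
    k6),(k5,k6),(k6,k6),(k11,k6),(k2,k8),(k8,k9),(k9,k9),(k3,k10)],[(k10,k6)],[(k1,k6)],[(k0,k6),(k5,k6),(k6,k6),(k11,
    k6),(k2,k8),(k3,k8),(k8,k9),(k9,k9)],[(k0,k9),(k5,k9),(k6,k9),(k11,k9),(k2,k11),(k3,k11),(k8,k12),(k9,k12)],[(k0,
    k7),(k5,k9),(k6,k9),(k11,k9),(k2,k11),(k3,k11),(k8,k12),(k9,k12)],[(k0,k6),(k5,k6),(k6,k6),(k11,k6),(k2,k8),(k8,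
    k9),(k9,k9),(k3,k10)],[(k4,k6)]]
    [] k0
    [[k1,k0,k0,k1,k0,k0],[k1,k1,k0,k1,k0,k0],[k1,k0,k0,k1,k1,k0],[k0,k2,k0,k0,k0,k0],[k0,k1,k0,k0,k1,k0],[k0,k0,k1,k0,
    k0,k1]]
    [.ref k0 k0 [(z1,[z1])],.ref k2 k1 [(z1,[z1])],.ref k2 k0 [(z1,[z1])],.contra [z1],.ref k1 k0 [(z1,[y1,z1])],
    .ref k0 k2 [(z1,[z1])]])]⟩

/-- classes `0 0 1 0 0 2`, types `B0 B0 C0 B1 B1 C0` -/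
noncomputable def cU6_834 : CertX :=
  ⟨[k8,k8,k20,k9,k9,k36],[(false,k0,[k0,k1,k2,k3,k4,k5]),(false,k3,[k3,k4,k5,k0,k1,k2])],[[[([z1,z0,z0,z0,z0,z1],z2)],
    [([z1,z0,z1,z1,z0,z1],z2)],[]]],
    [.old (.leafM k2 [k2,k3,k4,k1] [] [(k5,k0,z1,[z1]),(k0,k5,z1,[z1])]),
    .old (.leafM k2 [k2,k3,k5,k0] [] [(k4,k1,z1,[y1,z1]),(k1,k4,z1,[y1,z1])]),
    .old (.lp [k0,k0,k0,k2,k2,k2] [k1,k1,k1,k1,k1,k1,k0,k0,k0,k0,k0,k0] k0 [] k4 k5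
    [[(k10,k1)],[(k6,k1),(k8,k1),(k9,k1),(k11,k1)],[(k6,k1),(k8,k1),(k9,k1),(k11,k1)],[(k6,k1),(k8,k1),(k9,k1),(k11,
    k1)],[(k6,k1),(k8,k1),(k9,k1),(k11,k1)],[(k7,k1)],[(k4,k1)],[(k0,k1),(k2,k1),(k3,k1),(k5,k1)],[(k0,k1),(k2,k1),
    (k3,k1),(k5,k1)],[(k0,k1),(k2,k1),(k3,k1),(k5,k1)],[(k0,k1),(k2,k1),(k3,k1),(k5,k1)],[(k1,k1)]]
    [] k0
    [[k1,k0,k0,k0,k0,k1],[k0,k1,k0,k0,k1,k0],[k0,k0,k1,k1,k0,k0]]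
    [.ref k0 k0 [(z1,[z1])],.ref k1 k0 [(z1,[y1,z1])],.ref k0 k1 [(z1,[z1])]])]⟩

/-- classes `0 0 1 0 0 2`, types `B0 B0 C0 B1 B1 S0` -/
noncomputable def cU6_835 : CertX :=
  ⟨[k8,k8,k20,k9,k9,k32],[(false,k0,[k0,k1,k2,k3,k4,k5])],[[[([z1,z1,z0,z0,z1,z1],z2)],[([z1,z0,z1,z1,z0,z1],z2)],
    [([z1,z0,z0,z0,z0,z1],z2)],[]]],
    [.old (.leafM k2 [k1,k4,k5,k0] [] [(k2,k3,z1,[y1,z1]),(k3,k2,z1,[y1,z1])]),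
    .old (.leafM k2 [k2,k3,k5,k0] [] [(k4,k1,z1,[y1,z1]),(k1,k4,z1,[y1,z1])]),
    .old (.leafM k2 [k2,k3,k4,k1] [] [(k5,k0,z1,[z1]),(k0,k5,z1,[z1])]),
    .old (.lp [k2,k0,k0,k4,k4,k4] [k1,k1,k2,k2,k2,k2,k0,k0,k0,k0,k0,k0] k0 [] k8 k5
    [[(k1,k2),(k10,k3)],[(k6,k3),(k8,k3),(k9,k3),(k11,k3)],[(k6,k2),(k8,k2),(k9,k2),(k11,k2)],[(k6,k2),(k8,k2),(k9,
    k2),(k11,k2)],[(k6,k2),(k8,k2),(k9,k2),(k11,k2)],[(k7,k2)],[(k4,k2)],[(k2,k2),(k3,k2),(k5,k2),(k0,k3)],[(k2,k2),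
    (k3,k2),(k5,k2),(k0,k3)],[(k2,k2),(k3,k2),(k5,k2),(k0,k3)],[(k2,k2),(k3,k2),(k5,k2),(k0,k3)],[(k1,k3),(k10,k4)]]
    [] k0
    [[k1,k0,k0,k0,k0,k1],[k0,k1,k0,k0,k1,k0],[k0,k0,k1,k1,k0,k0]]
    [.ref k2 k0 [(z1,[z1])],.ref k1 k0 [(z1,[y1,z1])],.ref k0 k0 [(z1,[y1,z1])]])]⟩

/-- classes `0 0 1 0 0 2`, types `B0 B0 S0 B1 B1 S0` -/
noncomputable def cU6_836 : CertX :=
  ⟨[k8,k8,k16,k9,k9,k32],[(false,k0,[k0,k1,k2,k3,k4,k5]),(false,k3,[k3,k4,k5,k0,k1,k2]),(true,k2,[k2,k1,k0,k5,k4,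
    k3])],[[[([z1,z0,z0,z0,z0,z1],z2)],[([z1,z0,z1,z1,z0,z1],z2)],[([z2,z0,z0,z0,z1,z0],z2),([z0,z1,z0,z0,z0,z2],z2),
    ([z0,z0,z2,z0,z1,z0],z2)],[([z2,z0,z0,z0,z1,z0],z2),([z0,z1,z0,z1,z0,z1],z2)],[([z2,z0,z0,z0,z1,z0],z2)],[]]],
    [.old (.leafM k2 [k2,k3,k4,k1] [] [(k5,k0,z1,[z1]),(k0,k5,z1,[z1])]),
    .old (.leafM k2 [k2,k3,k5,k0] [] [(k4,k1,z1,[y1,z1]),(k1,k4,z1,[y1,z1])]),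
    .old (.tor k16 false k0 [(z1,[z0,z0,z1]),(z1,[z0,z1]),(z1,[y1,y1,y1,z2]),(z1,[z1])]),
    .old (.lp [k4,k4,k4,k6,k8,k4] [k2,k2,k2,k2,k2,k2,k1,k1,k0,k0,k2,k2] k0 [] k16 k5
    [[(k1,k4),(k10,k4)],[(k11,k4),(k6,k5),(k8,k6),(k9,k6)],[(k11,k4),(k6,k5),(k8,k6),(k9,k6)],[(k11,k4),(k6,k5),(k8,
    k6),(k9,k6)],[(k11,k4),(k6,k5),(k8,k6),(k9,k6)],[(k4,k4),(k7,k5)],[(k4,k5),(k7,k6)],[(k0,k5),(k2,k5),(k3,k5),(k5,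
    k5)],[(k0,k6),(k2,k6),(k3,k6),(k5,k6)],[(k0,k6),(k2,k6),(k3,k6),(k5,k6)],[(k0,k4),(k2,k4),(k3,k4),(k5,k4)],[(k1,
    k4),(k10,k4)]]
    [] k0
    [[k1,k0,k0,k0,k0,k1],[k0,k1,k0,k0,k1,k0],[k0,k1,k0,k0,k0,k2],[k0,k0,k1,k1,k0,k0]]
    [.ref k0 k0 [(z1,[z1])],.ref k1 k0 [(z1,[y1,z0,z0,z1])],.ref k2 k0 [(z1,[z0,z1]),(z1,[z1]),(z1,[z0,y1,y2,z2])],
    .ref k0 k1 [(z1,[z1])]]),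
    .old (.lp [k6,k8,k4,k4,k4,k4] [k1,k1,k0,k0,k2,k2,k2,k2,k2,k2,k2,k2] k0 [] k16 k5
    [[(k10,k5),(k1,k6)],[(k6,k5),(k8,k5),(k9,k5),(k11,k5)],[(k6,k6),(k8,k6),(k9,k6),(k11,k6)],[(k6,k6),(k8,k6),(k9,
    k6),(k11,k6)],[(k6,k4),(k8,k4),(k9,k4),(k11,k4)],[(k4,k4),(k7,k4)],[(k4,k4),(k7,k4)],[(k5,k4),(k0,k5),(k2,k6),(k3,
    k6)],[(k5,k4),(k0,k5),(k2,k6),(k3,k6)],[(k5,k4),(k0,k5),(k2,k6),(k3,k6)],[(k5,k4),(k0,k5),(k2,k6),(k3,k6)],[(k10,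
    k4),(k1,k5)]]
    [] k0
    [[k1,k0,k0,k0,k0,k1],[k0,k1,k0,k0,k1,k0],[k0,k0,k1,k1,k0,k0],[k0,k0,k2,k0,k1,k0]]
    [.ref k0 k0 [(z1,[z1])],.ref k1 k0 [(z1,[y1,z0,z1])],.ref k0 k1 [(z1,[z1])],.ref k3 k0 [(z1,[z0,z1]),(z2,[y1,y1,
    z2])]]),
    .old (.lp [k6,k8,k4,k4,k4,k4] [k1,k1,k0,k0,k2,k2,k2,k2,k2,k2,k2,k2] k0 [] k16 k5
    [[(k10,k5),(k1,k6)],[(k6,k5),(k8,k5),(k9,k5),(k11,k5)],[(k6,k6),(k8,k6),(k9,k6),(k11,k6)],[(k6,k6),(k8,k6),(k9,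
    k6),(k11,k6)],[(k6,k4),(k8,k4),(k9,k4),(k11,k4)],[(k4,k4),(k7,k4)],[(k4,k4),(k7,k4)],[(k5,k4),(k0,k5),(k2,k6),(k3,
    k6)],[(k5,k4),(k0,k5),(k2,k6),(k3,k6)],[(k5,k4),(k0,k5),(k2,k6),(k3,k6)],[(k5,k4),(k0,k5),(k2,k6),(k3,k6)],[(k10,
    k4),(k1,k5)]]
    [] k0
    [[k1,k0,k0,k0,k0,k1],[k0,k1,k0,k0,k1,k0],[k0,k0,k1,k1,k0,k0],[k0,k0,k2,k0,k1,k0]]
    [.ref k0 k0 [(z1,[z1])],.ref k1 k0 [(z1,[y1,z1])],.ref k0 k1 [(z1,[z1])],.ref k4 k2 [(z1,[z1])]])]⟩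

/-- classes `0 0 1 0 0 2`, types `B0 B1 C0 B0 B1 C0` -/
noncomputable def cU6_837 : CertX :=
  ⟨[k8,k9,k20,k8,k9,k36],[(false,k0,[k0,k1,k2,k3,k4,k5]),(false,k3,[k3,k4,k5,k0,k1,k2]),(true,k2,[k2,k1,k0,k5,k4,
    k3])],[[[([z1,z0,z0,z0,z0,z1],z2)],[([z1,z0,z0,z0,z1,z1],z2),([z0,z1,z0,z0,y1,z0],z0)],[([z1,z0,z0,z0,z1,z1],z2)],
    [([z1,z0,z0,z0,z0,z1],z1),([z0,z1,z0,z0,z1,z0],z2)],[([z1,z0,z1,z1,z0,z1],z2)],[]]],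
    [.old (.leafM k2 [k2,k3,k4,k1] [] [(k5,k0,z1,[z1]),(k0,k5,z1,[z1])]),
    .old (.tor k10 false k0 [(z1,[y1,y1,z1]),(z1,[y1,z0,z1]),(z1,[z1]),(z1,[z1,z1])]),
    .old (.lp [k48,k60,k0,k50,k60,k12] [k6,k6,k0,k0,k30,k30,k5,k5,k0,k0,k24,k24] k0 [[k0,k0,k0,k20],[],[k0,k20,k0,k0,k0,
    k0,k0,k10],[],[],[],[k0,k0,k0,k10],[k0,k0,k0,k0,k0,k0,k0,k0,k0,k10],[k0,k0,k0,k0,k0,k0,k10]] k120 k6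
    [[(k10,k30)],[(k5,k24),(k11,k30),(k2,k34),(k8,k54)],[(k11,k36),(k5,k50),(k2,k60),(k8,k60)],[(k0,k34),(k6,k45),(k3,
    k60),(k9,k60)],[(k0,k24),(k6,k25),(k9,k40),(k3,k50)],[(k7,k25)],[(k4,k25)],[(k5,k25),(k11,k41),(k2,k45),(k8,k55)],
    [(k11,k36),(k5,k40),(k8,k50),(k2,k60)],[(k9,k50),(k0,k54),(k6,k55),(k3,k60)],[(k0,k30),(k3,k36),(k9,k36),(k6,
    k41)],[(k1,k30)]]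
    [] k0
    [[k1,k0,k0,k0,k0,k1],[k1,k1,k0,k0,k0,k1],[k0,k0,k1,k1,k0,k0],[k0,k0,k2,k2,k0,k0],[k0,k0,k0,k0,k2,k0]]
    [.contra [y1,z1],.ref k1 k0 [(z1,[z0,z1]),(z1,[z1,y1])],.contra [y1,y1,z1],.contra [y1,y2,z2],.contra [z1]]),
    .old (.leafM k4 [k0,k2,k3,k5] [(z1,[y1,y1,z1])] [(k1,k4,z1,[z0,z1]),(k4,k1,z1,[z0,z1])]),
    .old (.lp [k48,k60,k0,k50,k60,k12] [k6,k6,k0,k0,k30,k30,k5,k5,k0,k0,k24,k24] k0 [[],[],[k0,k0,k0,k0,k0,k0,k0,k10],[],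
    [],[],[k0,k0,k0,k10],[k0,k0,k0,k0,k0,k0,k0,k0,k0,k10],[k0,k0,k0,k0,k0,k0,k10]] k120 k6
    [[(k10,k30)],[(k5,k24),(k11,k30),(k2,k54),(k8,k54)],[(k5,k30),(k11,k36),(k2,k60),(k8,k60)],[(k6,k45),(k0,k54),(k3,
    k60),(k9,k60)],[(k0,k24),(k6,k25),(k3,k30),(k9,k40)],[(k7,k25)],[(k4,k25)],[(k5,k25),(k11,k41),(k2,k45),(k8,k55)],
    [(k11,k36),(k5,k40),(k8,k50),(k2,k60)],[(k9,k50),(k0,k54),(k6,k55),(k3,k60)],[(k0,k30),(k3,k36),(k9,k36),(k6,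
    k41)],[(k1,k30)]]
    [] k0
    [[k1,k0,k0,k0,k0,k1],[k0,k1,k1,k1,k0,k0],[k0,k0,k1,k1,k0,k0],[k0,k0,k2,k2,k0,k0],[k0,k0,k0,k0,k2,k0]]
    [.contra [y1,z1],.ref k2 k0 [(z1,[y1,z0,z1])],.contra [y1,z1],.ref k3 k0 [(z2,[y1,z2]),(z1,[z0,y1,z1])],
    .contra [y1,y2,z2]]),
    .old (.lp [k8,k12,k4,k8,k8,k6] [k2,k2,k0,k0,k4,k4,k2,k2,k2,k2,k3,k3] k0 [[],[],[],[],[],[],[k0,k0,k0,k0,k0,k0,k0,k0,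
    k0,k2],[],[k0,k0,k0,k0,k0,k0,k0,k2]] k24 k5
    [[(k10,k7)],[(k5,k6),(k11,k7),(k8,k8),(k2,k10)],[(k5,k8),(k11,k9),(k8,k10),(k2,k12)],[(k0,k10),(k6,k10),(k9,k10),
    (k3,k12)],[(k0,k6),(k6,k6),(k9,k6),(k3,k8)],[(k7,k6)],[(k4,k6)],[(k5,k6),(k8,k6),(k11,k7),(k2,k10)],[(k5,k6),(k8,
    k8),(k11,k9),(k2,k10)],[(k6,k6),(k0,k8),(k9,k8),(k3,k10)],[(k0,k7),(k6,k7),(k3,k9),(k9,k9)],[(k1,k7)]]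
    [] k0
    [[k1,k0,k0,k0,k0,k1],[k0,k1,k0,k0,k1,k0],[k0,k0,k1,k1,k0,k0],[k0,k0,k1,k1,k1,k0],[k0,k0,k0,k0,k2,k0]]
    [.ref k0 k0 [(z1,[z1])],.ref k4 k0 [(z1,[y1,z1])],.ref k0 k1 [(z1,[z1])],.ref k2 k2 [(z1,[z1])],.contra [z1]])]⟩

/-- classes `0 0 1 0 0 2`, types `B0 B1 C0 B0 B1 S0` -/
noncomputable def cU6_838 : CertX :=
  ⟨[k8,k9,k20,k8,k9,k32],[(true,k5,[k5,k4,k3,k2,k1,k0]),(false,k0,[k0,k1,k2,k3,k4,k5])],[[[([z1,z1,z0,z0,z1,z1],z2)],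
    [([z1,z0,z0,z0,z0,z1],z2)],[([z1,z0,z0,z0,z0,z1],z1),([z0,z1,z0,z0,z1,z0],z2)],[([z1,z0,z0,z0,y1,z1],z0),([z0,z1,
    z0,z0,z1,z0],z2)],[([z1,z0,z1,z1,z0,z1],z2)],[([z1,z0,z0,z0,z1,z1],z2),([z0,z1,z0,z0,y1,z0],z0)],[([z1,z0,z0,z0,
    z1,z1],z2)],[]]],
    [.old (.leafM k2 [k1,k4,k5,k0] [] [(k2,k3,z1,[y1,z1]),(k3,k2,z1,[y1,z1])]),
    .old (.leafM k2 [k2,k3,k4,k1] [] [(k5,k0,z1,[z1]),(k0,k5,z1,[z1])]),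
    .old (.leafM k4 [k0,k2,k3,k5] [(z1,[y1,y1,z1])] [(k1,k4,z1,[z0,z1]),(k4,k1,z1,[z0,z1])]),
    .old (.lp [(nat_lit 264),(nat_lit 660),k110,(nat_lit 480),(nat_lit 660),(nat_lit 396)] [k198,k198,k0,k0,(nat_lit 275),
    (nat_lit 275),k90,k90,k0,k0,k132,k132] k0 [[k0,k0,k0,k110,k0,k0,k0,k0,k0,k132],[k0,k0,k0,k110],[k110,k110],[],[],
    [],[],[k0,k0,k0,k0,k0,k0,k0,k0,k110],[k0,k132],[k0,k0,k0,k0,k0,k0,k110]] (nat_lit 1320) k6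
    [[(k1,(nat_lit 264)),(k10,(nat_lit 330))],[(k5,(nat_lit 297)),(k8,(nat_lit 330)),(k11,(nat_lit 330)),(k2,
    (nat_lit 352))],[(k5,(nat_lit 495)),(k2,(nat_lit 550)),(k8,(nat_lit 660)),(k11,(nat_lit 660))],[(k0,
    (nat_lit 352)),(k3,(nat_lit 550)),(k6,(nat_lit 570)),(k9,(nat_lit 660))],[(k6,(nat_lit 295)),(k0,(nat_lit 297)),
    (k9,(nat_lit 385)),(k3,(nat_lit 495))],[(k7,(nat_lit 295))],[(k4,(nat_lit 295))],[(k5,(nat_lit 295)),(k11,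
    (nat_lit 438)),(k2,(nat_lit 570)),(k8,(nat_lit 680))],[(k5,(nat_lit 385)),(k11,(nat_lit 418)),(k2,(nat_lit 660)),
    (k8,(nat_lit 660))],[(k0,(nat_lit 330)),(k3,(nat_lit 660)),(k9,(nat_lit 660)),(k6,(nat_lit 680))],[(k0,
    (nat_lit 330)),(k9,(nat_lit 418)),(k6,(nat_lit 438)),(k3,(nat_lit 660))],[(k1,(nat_lit 330)),(k10,(nat_lit 396))]]
    [] k0
    [[k1,k0,k0,k0,k0,k1],[k1,k0,k0,k0,k1,k1],[k0,k2,k0,k0,k0,k0],[k0,k0,k1,k1,k0,k0],[k0,k0,k2,k2,k0,k0]]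
    [.contra [y1,z1,z1],.contra [y1,z1,z2],.contra [z1],.contra [y1,y1,y1,z1],.contra [z1,z2,z4,y2]]),
    .old (.lp [(nat_lit 264),(nat_lit 660),k110,(nat_lit 480),(nat_lit 660),(nat_lit 396)] [k198,k198,k0,k0,(nat_lit 275),
    (nat_lit 275),k90,k90,k0,k0,k132,k132] k0 [[k0,k0,k0,k110,k0,k0,k0,k0,k0,k132],[k0,k0,k0,k110],[k110,k110],[],[],
    [],[],[k0,k0,k0,k0,k0,k0,k0,k0,k110],[k0,k132],[k0,k0,k0,k0,k0,k0,k110]] (nat_lit 1320) k6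
    [[(k1,(nat_lit 264)),(k10,(nat_lit 330))],[(k5,(nat_lit 297)),(k8,(nat_lit 330)),(k11,(nat_lit 330)),(k2,
    (nat_lit 352))],[(k5,(nat_lit 495)),(k2,(nat_lit 550)),(k8,(nat_lit 660)),(k11,(nat_lit 660))],[(k0,
    (nat_lit 352)),(k3,(nat_lit 550)),(k6,(nat_lit 570)),(k9,(nat_lit 660))],[(k6,(nat_lit 295)),(k0,(nat_lit 297)),
    (k9,(nat_lit 385)),(k3,(nat_lit 495))],[(k7,(nat_lit 295))],[(k4,(nat_lit 295))],[(k5,(nat_lit 295)),(k11,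
    (nat_lit 438)),(k2,(nat_lit 570)),(k8,(nat_lit 680))],[(k5,(nat_lit 385)),(k11,(nat_lit 418)),(k2,(nat_lit 660)),
    (k8,(nat_lit 660))],[(k0,(nat_lit 330)),(k3,(nat_lit 660)),(k9,(nat_lit 660)),(k6,(nat_lit 680))],[(k0,
    (nat_lit 330)),(k9,(nat_lit 418)),(k6,(nat_lit 438)),(k3,(nat_lit 660))],[(k1,(nat_lit 330)),(k10,(nat_lit 396))]]
    [] k0
    [[k1,k0,k0,k0,k0,k1],[k1,k0,k0,k0,k1,k1],[k0,k2,k0,k0,k0,k0],[k0,k0,k1,k1,k0,k0],[k0,k0,k2,k2,k0,k0]]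
    [.contra [y1,z1],.ref k3 k0 [(z1,[z1,z1,y1]),(z1,[z0,y1,z1])],.contra [z1],.contra [y1,z1],.ref k2 k1 [(z2,[y1,
    z2]),(z1,[z0,y1,z1])]]),
    .old (.tor k10 false k0 [(z1,[y1,y1,z1]),(z1,[y1,z0,z1]),(z1,[z1]),(z1,[z1,z1])]),
    .old (.lp [k6,k10,k6,k6,k12,k6] [k3,k3,k1,k1,k3,k3,k3,k3,k0,k0,k3,k3] k0 [[k0,k0,k0,k2],[],[k0,k2]] k24 k5
    [[(k1,k6),(k10,k6)],[(k2,k6),(k5,k6),(k11,k6),(k8,k9)],[(k11,k8),(k2,k10),(k5,k10),(k8,k11)],[(k0,k6),(k6,k8),(k3,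
    k10),(k9,k11)],[(k0,k6),(k6,k6),(k9,k9),(k3,k10)],[(k7,k6)],[(k4,k6)],[(k5,k6),(k11,k6),(k2,k8),(k8,k9)],[(k5,k9),
    (k11,k9),(k2,k11),(k8,k12)],[(k0,k9),(k6,k9),(k3,k11),(k9,k12)],[(k0,k6),(k6,k6),(k3,k8),(k9,k9)],[(k1,k6),(k10,
    k6)]]
    [] k0
    [[k1,k0,k0,k0,k0,k1],[k1,k1,k0,k0,k0,k1],[k0,k2,k0,k0,k0,k0],[k0,k1,k0,k0,k1,k0],[k0,k0,k1,k1,k0,k0]]
    [.contra [y1,z1],.ref k5 k1 [(z1,[z0,z1]),(z1,[z1,y1])],.contra [z1],.ref k4 k1 [(z1,[y1,z0,z1])],.contra [y1,y1,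
    z1]]),
    .old (.lp [k6,k10,k4,k10,k10,k6] [k2,k2,k0,k0,k4,k2,k0,k0,k0,k0,k2,k2] k0 [[k0,k0,k0,k0,k0,k0,k0,k0,k0,k2],[],[],[],
    [],[],[k0,k0,k0,k0,k0,k0,k0,k0,k2],[],[k0,k2],[k0,k0,k0,k0,k0,k0,k0,k2]] k24 k5
    [[(k1,k6),(k10,k6)],[(k5,k6),(k8,k6),(k11,k6),(k2,k8)],[(k5,k8),(k2,k10),(k8,k10),(k11,k10)],[(k0,k8),(k3,k10),
    (k6,k10),(k9,k10)],[(k0,k6),(k3,k8),(k6,k8),(k9,k8)],[(k7,k6)],[(k4,k6)],[(k11,k6),(k5,k8),(k2,k10),(k8,k10)],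
    [(k5,k8),(k11,k8),(k2,k10),(k8,k12)],[(k0,k6),(k3,k10),(k6,k10),(k9,k12)],[(k0,k6),(k6,k6),(k9,k8),(k3,k10)],[(k1,
    k6),(k10,k6)]]
    [] k0
    [[k1,k0,k0,k0,k0,k1],[k1,k0,k0,k0,k1,k1],[k0,k2,k0,k0,k0,k0],[k0,k1,k0,k0,k1,k0],[k0,k0,k1,k1,k0,k0]]
    [.ref k1 k1 [(z1,[z1])],.ref k6 k1 [(z1,[z1])],.contra [z1],.ref k4 k1 [(z1,[y1,z1])],.ref k0 k1 [(z1,[y1,z1])]])]⟩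

/-- classes `0 0 1 0 0 2`, types `B0 B1 C0 B1 B0 C0` -/
noncomputable def cU6_839 : CertX :=
  ⟨[k8,k9,k20,k9,k8,k36],[(false,k0,[k0,k1,k2,k3,k4,k5])],[[[([z1,z0,z1,z1,z0,z1],z2)],[]]],
    [.old (.leafM k2 [k2,k3,k5,k0] [] [(k4,k1,z1,[y1,z1]),(k1,k4,z1,[y1,z1])]),
    .old (.lp [k6,k12,k6,k6,k8,k6] [k3,k3,k0,k0,k3,k3,k3,k3,k2,k2,k3,k3] k0 [] k24 k5
    [[(k10,k6)],[(k5,k6),(k6,k6),(k9,k7),(k2,k9)],[(k5,k9),(k6,k9),(k9,k10),(k2,k12)],[(k0,k9),(k11,k9),(k8,k10),(k3,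
    k12)],[(k0,k6),(k11,k6),(k8,k7),(k3,k9)],[(k7,k6)],[(k4,k6)],[(k0,k6),(k11,k6),(k8,k7),(k3,k9)],[(k0,k7),(k11,k7),
    (k8,k8),(k3,k10)],[(k5,k7),(k6,k7),(k9,k8),(k2,k10)],[(k5,k6),(k6,k6),(k9,k7),(k2,k9)],[(k1,k6)]]
    [] k0
    [[k0,k1,k0,k0,k1,k0],[k0,k0,k0,k0,k2,k0]]
    [.ref k0 k0 [(z1,[y1,z1])],.contra [z1]])]⟩

/-- classes `0 0 1 0 0 2`, types `B0 B1 C0 B1 B0 S0` -/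
noncomputable def cU6_840 : CertX :=
  ⟨[k8,k9,k20,k9,k8,k32],[(false,k0,[k0,k1,k2,k3,k4,k5])],[[[([z1,z0,z1,z1,z0,z1],z2)],[]]],
    [.old (.leafM k2 [k2,k3,k5,k0] [] [(k4,k1,z1,[y1,z1]),(k1,k4,z1,[y1,z1])]),
    .old (.lp [k6,k8,k6,k6,k12,k6] [k3,k3,k2,k2,k3,k3,k3,k3,k0,k0,k3,k3] k0 [] k24 k5
    [[(k1,k6),(k10,k6)],[(k5,k6),(k6,k6),(k2,k7),(k9,k9)],[(k5,k7),(k6,k7),(k2,k8),(k9,k10)],[(k0,k7),(k11,k7),(k3,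
    k8),(k8,k10)],[(k0,k6),(k11,k6),(k3,k7),(k8,k9)],[(k7,k6)],[(k4,k6)],[(k0,k6),(k11,k6),(k3,k7),(k8,k9)],[(k0,k9),
    (k11,k9),(k3,k10),(k8,k12)],[(k5,k9),(k6,k9),(k2,k10),(k9,k12)],[(k5,k6),(k6,k6),(k2,k7),(k9,k9)],[(k1,k6),(k10,
    k6)]]
    [] k0
    [[k0,k2,k0,k0,k0,k0],[k0,k1,k0,k0,k1,k0]]
    [.contra [z1],.ref k0 k0 [(z1,[y1,z1])]])]⟩

/-- classes `0 0 1 0 0 2`, types `B0 B1 S0 B0 B1 S0` -/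
noncomputable def cU6_841 : CertX :=
  ⟨[k8,k9,k16,k8,k9,k32],[(false,k0,[k0,k1,k2,k3,k4,k5]),(false,k3,[k3,k4,k5,k0,k1,k2])],[[[([z1,z0,z0,z0,z0,z1],z2)],
    [([z1,z0,z0,z0,z0,z1],z1),([z0,z1,z0,z0,z1,z0],z2)],[([z1,z0,z0,z0,y1,z1],z0),([z0,z1,z0,z0,z1,z0],z2)],[([z1,z0,
    z1,z1,z0,z1],z2)],[([z1,z0,z0,z0,z1,z1],z2),([z0,z1,z0,z0,y1,z0],z0)],[([z1,z0,z0,z0,z1,z1],z2)],[]]],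
    [.old (.leafM k2 [k2,k3,k4,k1] [] [(k5,k0,z1,[z1]),(k0,k5,z1,[z1])]),
    .old (.leafM k4 [k0,k2,k3,k5] [(z1,[y1,y1,z1])] [(k1,k4,z1,[z0,z1]),(k4,k1,z1,[z0,z1])]),
    .old (.lp [(nat_lit 756),(nat_lit 840),(nat_lit 504),(nat_lit 560),(nat_lit 1470),(nat_lit 720)] [(nat_lit 357),
    (nat_lit 357),(nat_lit 315),(nat_lit 315),(nat_lit 483),(nat_lit 483),(nat_lit 455),(nat_lit 455),k0,k0,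
    (nat_lit 375),(nat_lit 375)] k0 [[k0,k0,k0,k0,k0,k0,k0,k0,(nat_lit 210),(nat_lit 210)],[],[],[],[],[],[],[],[k0,
    (nat_lit 210)],[k0,(nat_lit 210)]] (nat_lit 2520) k6
    [[(k10,(nat_lit 738)),(k1,(nat_lit 756))],[(k11,(nat_lit 528)),(k5,(nat_lit 630)),(k2,(nat_lit 798)),(k8,
    (nat_lit 903))],[(k5,(nat_lit 672)),(k2,(nat_lit 840)),(k11,(nat_lit 990)),(k8,(nat_lit 1365))],[(k6,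
    (nat_lit 700)),(k0,(nat_lit 798)),(k3,(nat_lit 840)),(k9,(nat_lit 1155))],[(k6,(nat_lit 532)),(k0,(nat_lit 630)),
    (k3,(nat_lit 672)),(k9,(nat_lit 987))],[(k4,(nat_lit 504)),(k7,(nat_lit 532))],[(k4,(nat_lit 532)),(k7,
    (nat_lit 560))],[(k5,(nat_lit 532)),(k11,(nat_lit 640)),(k2,(nat_lit 700)),(k8,(nat_lit 1015))],[(k5,
    (nat_lit 987)),(k11,(nat_lit 1095)),(k2,(nat_lit 1155)),(k8,(nat_lit 1470))],[(k0,(nat_lit 903)),(k6,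
    (nat_lit 1015)),(k3,(nat_lit 1365)),(k9,(nat_lit 1470))],[(k0,(nat_lit 528)),(k6,(nat_lit 640)),(k3,
    (nat_lit 990)),(k9,(nat_lit 1095))],[(k10,(nat_lit 720)),(k1,(nat_lit 738))]]
    [] k0
    [[k1,k0,k0,k0,k0,k1],[k0,k2,k0,k0,k0,k0],[k0,k1,k1,k1,k0,k0],[k0,k0,k1,k1,k0,k0],[k0,k0,k2,k2,k0,k0]]
    [.contra [y1,z1,z1],.contra [z1],.contra [z1,z1,z2,y1],.contra [y1,y1,y1,z1],.contra [z1,z2,z4,y2]]),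
    .old (.lp [k36,k50,k24,k36,k60,k24] [k12,k12,k5,k5,k18,k18,k7,k17,k0,k0,k18,k18] k0 [[k0,k0,k0,k10],[],[k0,k10],[k0,
    k0,k0,k0,k0,k0,k0,k10],[],[],[k0,k0,k10]] k120 k6
    [[(k10,k30),(k1,k36)],[(k5,k30),(k11,k30),(k2,k33),(k8,k48)],[(k11,k37),(k5,k47),(k2,k50),(k8,k55)],[(k0,k33),(k6,
    k48),(k3,k50),(k9,k65)],[(k6,k25),(k0,k30),(k9,k42),(k3,k47)],[(k4,k24),(k7,k25)],[(k4,k25),(k7,k26)],[(k5,k25),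
    (k11,k35),(k2,k48),(k8,k53)],[(k5,k42),(k11,k42),(k8,k60),(k2,k65)],[(k0,k48),(k6,k53),(k3,k55),(k9,k60)],[(k0,
    k30),(k6,k35),(k3,k37),(k9,k42)],[(k10,k24),(k1,k30)]]
    [] k0
    [[k1,k0,k0,k0,k0,k1],[k1,k1,k0,k0,k0,k1],[k0,k2,k0,k0,k0,k0],[k0,k0,k1,k1,k0,k0],[k0,k0,k2,k2,k0,k0]]
    [.contra [y1,z1],.ref k2 k0 [(z1,[z1,z1,y1]),(z1,[z0,y1,z1])],.contra [z1],.contra [y1,z1],.ref k1 k0 [(z2,[y1,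
    z2]),(z1,[z0,y1,z1])]]),
    .old (.tor k10 false k0 [(z1,[y1,y1,z1]),(z1,[y1,z0,z1]),(z1,[z1]),(z1,[z1,z1])]),
    .old (.lp [k6,k10,k8,k6,k10,k6] [k2,k2,k0,k0,k2,k0,k2,k2,k0,k0,k2,k2] k0 [[k0,k0,k2],[k0,k0,k0,k0,k0,k0,k0,k0,k2],[],
    [k0,k2],[],[],[],[],[],[k2]] k24 k5
    [[(k1,k6),(k10,k6)],[(k5,k6),(k11,k6),(k2,k8),(k8,k10)],[(k11,k6),(k5,k10),(k8,k10),(k2,k12)],[(k0,k8),(k6,k8),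
    (k9,k10),(k3,k12)],[(k0,k6),(k6,k8),(k3,k10),(k9,k10)],[(k4,k6),(k7,k6)],[(k4,k6),(k7,k6)],[(k11,k6),(k2,k8),(k5,
    k8),(k8,k8)],[(k11,k8),(k2,k10),(k5,k10),(k8,k10)],[(k6,k8),(k0,k10),(k3,k10),(k9,k10)],[(k0,k6),(k3,k6),(k6,k6),
    (k9,k8)],[(k1,k6),(k10,k6)]]
    [] k0
    [[k1,k0,k0,k0,k0,k1],[k1,k1,k0,k0,k0,k1],[k0,k1,k0,k0,k1,k0],[k0,k0,k1,k1,k0,k0],[k0,k0,k0,k0,k2,k0]]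
    [.contra [y1,z1],.ref k4 k0 [(z1,[z0,z1]),(z1,[z1,y1])],.ref k3 k0 [(z1,[y1,z0,z1])],.contra [y1,y1,z1],
    .contra [z1]]),
    .old (.lp [k8,k10,k6,k6,k10,k6] [k0,k2,k0,k0,k2,k2,k2,k2,k0,k0,k2,k2] k0 [[k0,k0,k2],[],[k0,k0,k0,k0,k0,k0,k0,k2],[k0,
    k2],[],[],[k0,k0,k0,k2]] k24 k5
    [[(k1,k6),(k10,k6)],[(k5,k6),(k11,k8),(k2,k10),(k8,k10)],[(k5,k8),(k11,k8),(k8,k10),(k2,k12)],[(k6,k6),(k0,k10),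
    (k9,k10),(k3,k12)],[(k0,k6),(k6,k6),(k3,k8),(k9,k10)],[(k4,k6),(k7,k6)],[(k4,k6),(k7,k6)],[(k2,k6),(k5,k6),(k11,
    k6),(k8,k8)],[(k11,k8),(k2,k10),(k5,k10),(k8,k10)],[(k6,k8),(k0,k10),(k3,k10),(k9,k10)],[(k6,k6),(k0,k8),(k3,k8),
    (k9,k8)],[(k1,k6),(k10,k6)]]
    [] k0
    [[k1,k0,k0,k0,k0,k1],[k0,k1,k1,k1,k0,k0],[k0,k1,k0,k0,k1,k0],[k0,k0,k1,k1,k0,k0],[k0,k0,k0,k0,k2,k0]]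
    [.ref k0 k0 [(z1,[z1])],.ref k5 k0 [(z1,[y1,z1])],.ref k3 k0 [(z1,[y1,z1])],.ref k0 k1 [(z1,[z1])],.contra [z1]])]⟩

/-- classes `0 0 1 0 0 2`, types `B0 B1 S0 B1 B0 S0` -/
noncomputable def cU6_842 : CertX :=
  ⟨[k8,k9,k16,k9,k8,k32],[(false,k0,[k0,k1,k2,k3,k4,k5])],[[[([z1,z0,z1,z1,z0,z1],z2)],[]]],
    [.old (.leafM k2 [k2,k3,k5,k0] [] [(k4,k1,z1,[y1,z1]),(k1,k4,z1,[y1,z1])]),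
    .old (.lp [k6,k12,k6,k6,k8,k6] [k3,k3,k0,k0,k3,k3,k3,k3,k2,k2,k3,k3] k0 [] k24 k5
    [[(k1,k6),(k10,k6)],[(k5,k6),(k6,k6),(k9,k7),(k2,k9)],[(k5,k9),(k6,k9),(k9,k10),(k2,k12)],[(k0,k9),(k11,k9),(k8,
    k10),(k3,k12)],[(k0,k6),(k11,k6),(k8,k7),(k3,k9)],[(k4,k6),(k7,k6)],[(k4,k6),(k7,k6)],[(k0,k6),(k11,k6),(k8,k7),
    (k3,k9)],[(k0,k7),(k11,k7),(k8,k8),(k3,k10)],[(k5,k7),(k6,k7),(k9,k8),(k2,k10)],[(k5,k6),(k6,k6),(k9,k7),(k2,k9)],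
    [(k1,k6),(k10,k6)]]
    [] k0
    [[k0,k1,k0,k0,k1,k0],[k0,k0,k0,k0,k2,k0]]
    [.ref k0 k0 [(z1,[y1,z1])],.contra [z1]])]⟩

/-- classes `0 0 1 0 0 2`, types `C0 C0 C0 C0 C0 C0` -/
noncomputable def cU6_843 : CertX :=
  ⟨[k4,k4,k20,k4,k4,k36],[(true,k2,[k2,k1,k0,k5,k4,k3]),(false,k0,[k0,k1,k2,k3,k4,k5]),(false,k3,[k3,k4,k5,k0,k1,
    k2])],[[[([z1,z0,z0,z0,z0,z1],z2)],[([z1,z0,z0,z0,z1,z1],z2)],[([z1,z0,z0,z0,z0,z1],z1),([z0,z1,z0,z0,z1,z0],z2)],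
    [([z1,z0,z1,z1,z0,z1],z2)],[]]],
    [.old (.leafM k0 [k1,k2,k3,k4] [] [(k5,k0,z1,[z1]),(k0,k5,z1,[z1])]),
    .old (.leafM k0 [k0,k1,k2,k3,k4,k5] [(z1,[y1,z1])] []),
    .old (.leafM k4 [k0,k2,k3,k5] [(z1,[y1,y1,z1])] [(k1,k4,z1,[z0,z1]),(k4,k1,z1,[z0,z1])]),
    .old (.lp [k72,k84,k42,k28,k84,k14] [k6,k6,k0,k0,k21,k21,k28,k28,k0,k0,k35,k35] k0 [[],[],[k0,k0,k0,k0,k0,k0,k0,k0,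
    k14],[],[],[],[],[k0,k0,k0,k0,k0,k0,k0,k0,k0,k14],[k0,k0,k0,k0,k0,k0,k14],[k0,k0,k0,k14]] k168 k6
    [[(k10,k43)],[(k11,k43),(k5,k57),(k3,k78),(k9,k78)],[(k6,k56),(k0,k78),(k2,k84),(k8,k84)],[(k11,k35),(k5,k63),(k3,
    k84),(k9,k84)],[(k6,k35),(k0,k57),(k2,k63),(k8,k77)],[(k7,k35)],[(k4,k35)],[(k5,k35),(k11,k35),(k3,k56),(k9,k56)],
    [(k6,k56),(k8,k70),(k0,k78),(k2,k84)],[(k11,k49),(k9,k70),(k5,k77),(k3,k84)],[(k2,k35),(k6,k35),(k0,k43),(k8,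
    k49)],[(k1,k43)]]
    [] k0
    [[k1,k0,k0,k0,k0,k1],[k1,k1,k0,k0,k0,k1],[k0,k1,k1,k1,k0,k0],[k0,k0,k1,k1,k0,k0],[k0,k0,k2,k2,k0,k0],[k0,k0,k0,k0,
    k2,k0]]
    [.contra [y1,z1],.ref k1 k0 [(z1,[y1,z0,z1])],.ref k1 k1 [(z1,[y1,z0,z1])],.contra [y1,z1],.ref k2 k1 [(z2,[y1,
    z2]),(z1,[z0,y1,z1])],.contra [y1,y2,z2]]),
    .old (.lp [k8,k12,k4,k8,k10,k4] [k2,k2,k0,k0,k4,k4,k2,k2,k1,k1,k4,k4] k0 [[],[k0,k0,k0,k0,k0,k0,k0,k2],[k0,k0,k0,k0,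
    k0,k0,k0,k0,k2],[],[],[],[k2],[],[],[k0,k0,k0,k2]] k24 k5
    [[(k10,k6)],[(k5,k6),(k11,k6),(k3,k10),(k9,k11)],[(k6,k8),(k0,k10),(k8,k11),(k2,k12)],[(k11,k6),(k5,k8),(k9,k11),
    (k3,k12)],[(k0,k6),(k6,k6),(k2,k8),(k8,k9)],[(k7,k6)],[(k4,k6)],[(k5,k6),(k11,k6),(k3,k8),(k9,k9)],[(k6,k9),(k8,
    k10),(k0,k11),(k2,k11)],[(k11,k7),(k5,k9),(k9,k10),(k3,k11)],[(k0,k6),(k2,k6),(k6,k6),(k8,k7)],[(k1,k6)]]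
    [] k0
    [[k1,k0,k0,k0,k0,k1],[k1,k1,k0,k0,k0,k1],[k0,k1,k1,k1,k0,k0],[k0,k1,k0,k0,k1,k0],[k0,k0,k1,k1,k0,k0],[k0,k0,k0,k0,
    k2,k0]]
    [.ref k0 k1 [(z1,[z1])],.ref k1 k0 [(z1,[y1,z1])],.ref k1 k1 [(z1,[y1,z1])],.ref k3 k1 [(z1,[y1,z1])],
    .ref k0 k2 [(z1,[z1])],.contra [z1]])]⟩

/-- classes `0 0 1 0 0 2`, types `C0 C0 C0 C0 C0 S0` -/
noncomputable def cU6_844 : CertX :=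
  ⟨[k4,k4,k20,k4,k4,k32],[(false,k0,[k0,k1,k2,k3,k4,k5]),(true,k5,[k5,k4,k3,k2,k1,k0])],[[[([z1,z1,z0,z0,z1,z1],z2)],
    [([z1,z0,z0,z0,z1,z1],z2)],[([z1,z0,z0,z0,z0,z1],z2)],[([z1,z0,z0,z0,z0,z1],z1),([z0,z1,z0,z0,z1,z0],z2)],[([z1,
    z0,z1,z1,z0,z1],z2)],[]]],
    [.old (.leafM k0 [k0,k1,k4,k5] [] [(k2,k3,z1,[y1,z1]),(k3,k2,z1,[y1,z1])]),
    .old (.leafM k0 [k0,k1,k2,k3,k4,k5] [(z1,[y1,z1])] []),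
    .old (.leafM k0 [k1,k2,k3,k4] [] [(k5,k0,z1,[z1]),(k0,k5,z1,[z1])]),
    .old (.leafM k4 [k0,k2,k3,k5] [(z1,[y1,y1,z1])] [(k1,k4,z1,[z0,z1]),(k4,k1,z1,[z0,z1])]),
    .old (.lp [(nat_lit 109200),(nat_lit 251160),(nat_lit 20930),(nat_lit 239200),(nat_lit 251160),
    (nat_lit 100464)] [(nat_lit 70980),(nat_lit 70980),k0,k0,(nat_lit 115115),(nat_lit 115115),(nat_lit 5980),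
    (nat_lit 5980),k0,k0,(nat_lit 75348),(nat_lit 75348)] k0 [[],[k0,k0,k0,(nat_lit 38640)],
    [(nat_lit 38640)]] (nat_lit 502320) k6
    [[(k10,(nat_lit 104832)),(k1,(nat_lit 109200))],[(k5,(nat_lit 103705)),(k11,(nat_lit 104832)),(k3,
    (nat_lit 180180)),(k9,(nat_lit 180180))],[(k0,(nat_lit 180180)),(k2,(nat_lit 212520)),(k6,(nat_lit 245180)),(k8,
    (nat_lit 251160))],[(k5,(nat_lit 136045)),(k11,(nat_lit 175812)),(k3,(nat_lit 212520)),(k9,(nat_lit 251160))],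
    [(k0,(nat_lit 103705)),(k6,(nat_lit 130065)),(k2,(nat_lit 136045)),(k8,(nat_lit 136045))],[(k7,(nat_lit 130065))],
    [(k4,(nat_lit 130065))],[(k5,(nat_lit 130065)),(k11,(nat_lit 169832)),(k3,(nat_lit 245180)),(k9,
    (nat_lit 245180))],[(k0,(nat_lit 180180)),(k6,(nat_lit 245180)),(k2,(nat_lit 251160)),(k8,(nat_lit 251160))],[(k5,
    (nat_lit 136045)),(k11,(nat_lit 175812)),(k3,(nat_lit 251160)),(k9,(nat_lit 251160))],[(k0,(nat_lit 104832)),(k6,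
    (nat_lit 169832)),(k2,(nat_lit 175812)),(k8,(nat_lit 175812))],[(k10,(nat_lit 100464)),(k1,(nat_lit 104832))]]
    [] k0
    [[k2,k0,k0,k0,k0,k2],[k1,k0,k0,k0,k0,k1],[k1,k1,k0,k0,k0,k1],[k1,k0,k0,k0,k1,k1],[k0,k2,k0,k0,k0,k0],[k0,k0,k1,k1,
    k0,k0]]
    [.ref k3 k0 [(z2,[z1]),(z1,[z0,y1,z1])],.contra [y1,z1],.ref k1 k1 [(z1,[z1])],.ref k1 k0 [(z1,[z1])],
    .contra [z1],.contra [y1,z1]]),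
    .old (.lp [k6,k12,k2,k10,k10,k6] [k3,k3,k0,k0,k5,k5,k1,k1,k1,k1,k3,k3] k0 [[],[k0,k0,k0,k2],[k2],[],[],[],[k0,k0,k0,
    k0,k0,k0,k0,k0,k2],[],[],[k0,k0,k0,k0,k0,k0,k0,k2]] k24 k5
    [[(k1,k6),(k10,k6)],[(k5,k6),(k11,k6),(k9,k8),(k3,k9)],[(k0,k9),(k2,k10),(k6,k11),(k8,k11)],[(k5,k7),(k11,k9),(k3,
    k10),(k9,k11)],[(k0,k6),(k6,k6),(k8,k6),(k2,k7)],[(k7,k6)],[(k4,k6)],[(k5,k6),(k11,k6),(k9,k10),(k3,k11)],[(k0,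
    k8),(k6,k10),(k2,k11),(k8,k12)],[(k5,k6),(k11,k8),(k3,k11),(k9,k12)],[(k0,k6),(k6,k6),(k8,k8),(k2,k9)],[(k1,k6),
    (k10,k6)]]
    [] k0
    [[k1,k0,k0,k0,k0,k1],[k1,k0,k0,k0,k1,k1],[k0,k2,k0,k0,k0,k0],[k0,k1,k0,k0,k1,k0],[k0,k0,k1,k1,k0,k0],[k0,k0,k1,k1,
    k1,k0]]
    [.ref k2 k0 [(z1,[z1])],.ref k1 k0 [(z1,[z1])],.contra [z1],.ref k4 k0 [(z1,[y1,z1])],.ref k0 k0 [(z1,[y1,z1])],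
    .ref k1 k1 [(z1,[y1,z1])]])]⟩

/-- classes `0 0 1 0 0 2`, types `C0 C0 C0 C0 C2 C0` -/
noncomputable def cU6_845 : CertX :=
  ⟨[k4,k4,k20,k4,k6,k36],[(false,k0,[k0,k1,k2,k3,k4,k5])],[[[([z1,z1,z0,z0,z1,z1],z2)],[([z1,z0,z0,z0,z1,z1],z2)],
    []]],
    [.old (.leafM k0 [k0,k1,k4,k5] [] [(k2,k3,z1,[y1,z1]),(k3,k2,z1,[y1,z1])]),
    .old (.leafM k0 [k0,k1,k2,k3,k4,k5] [(z1,[y1,z1])] []),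
    .old (.lp [k6,k4,k4,k2,k4,k2] [k0,k0,k1,k1,k1,k1,k2,k2,k1,k1,k2,k2] k0 [[k0,k0,k2],[],[],[k0,k2]] k12 k5
    [[(k10,k4)],[(k5,k3),(k3,k5),(k8,k5),(k9,k5)],[(k6,k3),(k11,k3),(k0,k5),(k2,k6)],[(k5,k4),(k8,k4),(k9,k4),(k3,
    k6)],[(k0,k3),(k6,k3),(k11,k3),(k2,k4)],[(k7,k3)],[(k4,k3)],[(k3,k3),(k5,k3),(k8,k3),(k9,k3)],[(k6,k3),(k11,k3),
    (k2,k4),(k0,k5)],[(k6,k3),(k11,k3),(k2,k4),(k0,k5)],[(k3,k3),(k5,k3),(k8,k3),(k9,k3)],[(k1,k4)]]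
    [] k0
    [[k0,k1,k1,k1,k0,k0],[k0,k0,k1,k1,k0,k0]]
    [.ref k1 k0 [(z1,[y1,z1])],.ref k0 k0 [(z1,[y1,z1])]])]⟩

/-- classes `0 0 1 0 0 2`, types `C0 C0 C0 C0 C2 S0` -/
noncomputable def cU6_846 : CertX :=
  ⟨[k4,k4,k20,k4,k6,k32],[(false,k0,[k0,k1,k2,k3,k4,k5])],[[[([z1,z1,z0,z0,z1,z1],z2)],[([z1,z0,z0,z0,z1,z1],z2)],
    []]],
    [.old (.leafM k0 [k0,k1,k4,k5] [] [(k2,k3,z1,[y1,z1]),(k3,k2,z1,[y1,z1])]),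
    .old (.leafM k0 [k0,k1,k2,k3,k4,k5] [(z1,[y1,z1])] []),
    .old (.lp [k6,k12,k6,k6,k10,k6] [k3,k3,k0,k0,k3,k3,k3,k3,k1,k1,k3,k3] k0 [[],[k0,k0,k0,k0,k0,k0,k0,k0,k2],[],[],[],[],
    [k0,k0,k0,k0,k0,k0,k0,k0,k0,k2],[],[k0,k0,k0,k0,k0,k0,k0,k2],[k2]] k24 k5
    [[(k1,k6),(k10,k6)],[(k5,k6),(k9,k8),(k3,k9),(k8,k10)],[(k11,k7),(k0,k9),(k6,k9),(k2,k12)],[(k5,k9),(k8,k11),(k9,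
    k11),(k3,k12)],[(k0,k6),(k6,k6),(k11,k6),(k2,k9)],[(k7,k6)],[(k4,k6)],[(k5,k6),(k8,k6),(k9,k8),(k3,k9)],[(k0,k8),
    (k6,k8),(k11,k10),(k2,k11)],[(k6,k6),(k11,k8),(k0,k10),(k2,k11)],[(k5,k6),(k3,k7),(k8,k8),(k9,k10)],[(k1,k6),(k10,
    k6)]]
    [] k0
    [[k1,k0,k0,k0,k1,k1],[k0,k0,k1,k1,k0,k0]]
    [.ref k1 k0 [(z1,[z1])],.ref k0 k0 [(z1,[y1,z1])]])]⟩

/-- classes `0 0 1 0 0 2`, types `C0 C0 C0 C2 C0 S0` -/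
noncomputable def cU6_847 : CertX :=
  ⟨[k4,k4,k20,k6,k4,k32],[(false,k0,[k0,k1,k2,k3,k4,k5])],[[[([z1,z1,z0,z0,z0,z1],z2)],[([z1,z0,z0,z0,z0,z1],z2)],
    []]],
    [.old (.leafM k0 [k1,k2,k3,k4,k5,k0] [(z1,[y1,z1])] []),
    .old (.leafM k0 [k1,k2,k3,k4] [] [(k5,k0,z1,[z1]),(k0,k5,z1,[z1])]),
    .old (.lp [k4,k8,k4,k4,k4,k6] [k2,k2,k0,k0,k2,k2,k2,k2,k2,k2,k1,k1] k0 [] k16 k5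
    [[(k1,k4),(k10,k5)],[(k5,k4),(k6,k4),(k11,k5),(k3,k6)],[(k0,k6),(k8,k6),(k9,k6),(k2,k8)],[(k5,k6),(k6,k6),(k11,
    k7),(k3,k8)],[(k0,k4),(k8,k4),(k9,k4),(k2,k6)],[(k7,k4)],[(k4,k4)],[(k0,k4),(k8,k4),(k9,k4),(k2,k6)],[(k5,k4),(k6,
    k4),(k11,k5),(k3,k6)],[(k5,k4),(k6,k4),(k11,k5),(k3,k6)],[(k0,k5),(k8,k5),(k9,k5),(k2,k7)],[(k1,k5),(k10,k6)]]
    [] k0
    [[k1,k0,k0,k0,k0,k1],[k0,k0,k1,k1,k1,k0]]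
    [.ref k1 k0 [(z1,[z1])],.ref k0 k0 [(z1,[y1,z1])]])]⟩

/-- classes `0 0 1 0 0 2`, types `C0 C0 C0 C2 C2 C0` -/
noncomputable def cU6_848 : CertX :=
  ⟨[k4,k4,k20,k6,k6,k36],[(false,k0,[k0,k1,k2,k3,k4,k5])],[[[([z1,z0,z1,z1,z0,z1],z2)],[]]],
    [.old (.leafM k2 [k2,k3,k5,k0] [] [(k4,k1,z1,[y1,z1]),(k1,k4,z1,[y1,z1])]),
    .old (.lp [k6,k8,k6,k6,k12,k6] [k3,k3,k2,k2,k3,k3,k3,k3,k0,k0,k3,k3] k0 [] k24 k5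
    [[(k10,k6)],[(k5,k6),(k6,k6),(k3,k7),(k8,k9)],[(k0,k7),(k11,k7),(k2,k8),(k9,k10)],[(k5,k7),(k6,k7),(k3,k8),(k8,
    k10)],[(k0,k6),(k11,k6),(k2,k7),(k9,k9)],[(k7,k6)],[(k4,k6)],[(k0,k6),(k11,k6),(k2,k7),(k9,k9)],[(k5,k9),(k6,k9),
    (k3,k10),(k8,k12)],[(k0,k9),(k11,k9),(k2,k10),(k9,k12)],[(k5,k6),(k6,k6),(k3,k7),(k8,k9)],[(k1,k6)]]
    [] k0
    [[k0,k2,k0,k0,k0,k0],[k0,k1,k0,k0,k1,k0]]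
    [.contra [z1],.ref k0 k0 [(z1,[y1,z1])]])]⟩

/-- classes `0 0 1 0 0 2`, types `C0 C0 C0 C2 C2 S0` -/
noncomputable def cU6_849 : CertX :=
  ⟨[k4,k4,k20,k6,k6,k32],[(false,k0,[k0,k1,k2,k3,k4,k5])],[[[([z1,z0,z1,z1,z0,z1],z2)],[]]],
    [.old (.leafM k2 [k2,k3,k5,k0] [] [(k4,k1,z1,[y1,z1]),(k1,k4,z1,[y1,z1])]),
    .old (.lp [k6,k8,k6,k6,k12,k6] [k3,k3,k2,k2,k3,k3,k3,k3,k0,k0,k3,k3] k0 [] k24 k5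
    [[(k1,k6),(k10,k6)],[(k5,k6),(k6,k6),(k3,k7),(k8,k9)],[(k0,k7),(k11,k7),(k2,k8),(k9,k10)],[(k5,k7),(k6,k7),(k3,
    k8),(k8,k10)],[(k0,k6),(k11,k6),(k2,k7),(k9,k9)],[(k7,k6)],[(k4,k6)],[(k0,k6),(k11,k6),(k2,k7),(k9,k9)],[(k5,k9),
    (k6,k9),(k3,k10),(k8,k12)],[(k0,k9),(k11,k9),(k2,k10),(k9,k12)],[(k5,k6),(k6,k6),(k3,k7),(k8,k9)],[(k1,k6),(k10,
    k6)]]
    [] k0
    [[k0,k2,k0,k0,k0,k0],[k0,k1,k0,k0,k1,k0]]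
    [.contra [z1],.ref k0 k0 [(z1,[y1,z1])]])]⟩

/-- classes `0 0 1 0 0 2`, types `C0 C0 S0 C0 C0 S0` -/
noncomputable def cU6_850 : CertX :=
  ⟨[k4,k4,k16,k4,k4,k32],[(true,k2,[k2,k1,k0,k5,k4,k3]),(false,k0,[k0,k1,k2,k3,k4,k5]),(false,k3,[k3,k4,k5,k0,k1,
    k2])],[[[([z1,z0,z0,z0,z0,z1],z2)],[([z1,z0,z0,z0,z1,z1],z2)],[([z1,z0,z0,z0,z0,z1],z1),([z0,z1,z0,z0,z1,z0],z2)],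
    [([z1,z0,z1,z1,z0,z1],z2)],[]]],
    [.old (.leafM k0 [k1,k2,k3,k4] [] [(k5,k0,z1,[z1]),(k0,k5,z1,[z1])]),
    .old (.leafM k0 [k0,k1,k2,k3,k4,k5] [(z1,[y1,z1])] []),
    .old (.leafM k4 [k0,k2,k3,k5] [(z1,[y1,y1,z1])] [(k1,k4,z1,[z0,z1]),(k4,k1,z1,[z0,z1])]),
    .old (.lp [k28,k60,k32,k28,k50,k32] [k16,k16,k0,k0,k18,k10,k16,k16,k5,k5,k14,k14] k0 [[],[],[k0,k0,k0,k0,k0,k0,k0,k0,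
    k10],[k0,k0,k0,k0,k0,k0,k0,k10],[],[],[k0,k0,k10],[],[],[k0,k0,k0,k10]] k120 k6
    [[(k1,k28),(k10,k30)],[(k11,k30),(k5,k34),(k9,k39),(k3,k44)],[(k0,k44),(k6,k44),(k8,k55),(k2,k60)],[(k11,k36),(k5,
    k50),(k3,k60),(k9,k65)],[(k6,k24),(k0,k34),(k2,k50),(k8,k55)],[(k4,k24),(k7,k26)],[(k4,k26),(k7,k28)],[(k5,k24),
    (k11,k30),(k9,k39),(k3,k44)],[(k0,k39),(k6,k39),(k8,k50),(k2,k65)],[(k11,k41),(k9,k50),(k3,k55),(k5,k55)],[(k0,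
    k30),(k6,k30),(k2,k36),(k8,k41)],[(k1,k30),(k10,k32)]]
    [] k0
    [[k1,k0,k0,k0,k0,k1],[k1,k1,k0,k0,k0,k1],[k1,k0,k0,k0,k1,k1],[k0,k0,k1,k1,k0,k0],[k0,k0,k2,k2,k0,k0],[k0,k0,k0,k0,
    k2,k0]]
    [.contra [y1,z1],.ref k1 k0 [(z1,[y1,z0,z1])],.ref k1 k1 [(z1,[z1])],.contra [y1,z1],.ref k2 k1 [(z2,[y1,z2]),(z1,
    [z0,y1,z1])],.contra [y1,y2,z2]]),
    .old (.lp [k6,k8,k6,k10,k10,k6] [k2,k2,k1,k1,k2,k2,k0,k0,k0,k0,k2,k2] k0 [[],[],[],[],[],[],[k0,k0,k0,k0,k0,k0,k0,k0,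
    k2],[],[],[k0,k0,k0,k0,k0,k0,k0,k2]] k24 k5
    [[(k1,k6),(k10,k6)],[(k5,k6),(k11,k6),(k3,k7),(k9,k8)],[(k0,k7),(k2,k8),(k6,k9),(k8,k9)],[(k5,k7),(k11,k7),(k3,
    k8),(k9,k9)],[(k0,k6),(k2,k7),(k6,k8),(k8,k8)],[(k4,k6),(k7,k8)],[(k4,k8),(k7,k10)],[(k11,k6),(k5,k8),(k3,k9),(k9,
    k10)],[(k0,k8),(k2,k9),(k6,k10),(k8,k12)],[(k5,k8),(k11,k8),(k3,k9),(k9,k12)],[(k0,k6),(k6,k6),(k2,k7),(k8,k8)],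
    [(k1,k6),(k10,k6)]]
    [] k0
    [[k1,k0,k0,k0,k0,k1],[k1,k1,k0,k0,k0,k1],[k1,k0,k0,k0,k1,k1],[k0,k2,k0,k0,k0,k0],[k0,k1,k0,k0,k1,k0],[k0,k0,k1,k1,
    k0,k0]]
    [.ref k0 k1 [(z1,[z1])],.ref k1 k0 [(z1,[y1,z1])],.ref k1 k1 [(z1,[z1])],.contra [z1],.ref k3 k1 [(z1,[y1,z1])],
    .ref k0 k2 [(z1,[z1])]])]⟩

/-- classes `0 0 1 0 0 2`, types `C0 C0 S0 C0 C2 S0` -/
noncomputable def cU6_851 : CertX :=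
  ⟨[k4,k4,k16,k4,k6,k32],[(false,k0,[k0,k1,k2,k3,k4,k5])],[[[([z1,z1,z0,z0,z1,z1],z2)],[([z1,z0,z0,z0,z1,z1],z2)],
    []]],
    [.old (.leafM k0 [k0,k1,k4,k5] [] [(k2,k3,z1,[y1,z1]),(k3,k2,z1,[y1,z1])]),
    .old (.leafM k0 [k0,k1,k2,k3,k4,k5] [(z1,[y1,z1])] []),
    .old (.lp [k6,k8,k6,k6,k12,k6] [k3,k3,k2,k2,k3,k3,k3,k3,k0,k0,k3,k3] k0 [] k24 k5
    [[(k1,k6),(k10,k6)],[(k5,k6),(k3,k7),(k8,k9),(k9,k9)],[(k0,k7),(k6,k7),(k11,k7),(k2,k8)],[(k5,k7),(k3,k8),(k8,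
    k10),(k9,k10)],[(k0,k6),(k6,k6),(k11,k6),(k2,k7)],[(k4,k6),(k7,k6)],[(k4,k6),(k7,k6)],[(k5,k6),(k3,k7),(k8,k9),
    (k9,k9)],[(k0,k9),(k6,k9),(k11,k9),(k2,k10)],[(k0,k9),(k6,k9),(k11,k9),(k2,k10)],[(k5,k6),(k3,k7),(k8,k9),(k9,
    k9)],[(k1,k6),(k10,k6)]]
    [] k0
    [[k0,k2,k0,k0,k0,k0],[k0,k1,k1,k1,k0,k0],[k0,k0,k1,k1,k0,k0]]
    [.contra [z1],.ref k1 k0 [(z1,[y1,z1])],.ref k0 k0 [(z1,[y1,z1])]])]⟩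

/-- classes `0 0 1 0 0 2`, types `C0 C0 S0 C2 C2 S0` -/
noncomputable def cU6_852 : CertX :=
  ⟨[k4,k4,k16,k6,k6,k32],[(false,k0,[k0,k1,k2,k3,k4,k5])],[[[([z1,z0,z1,z1,z0,z1],z2)],[]]],
    [.old (.leafM k2 [k2,k3,k5,k0] [] [(k4,k1,z1,[y1,z1]),(k1,k4,z1,[y1,z1])]),
    .old (.lp [k6,k12,k6,k6,k8,k6] [k3,k3,k0,k0,k3,k3,k3,k3,k2,k2,k3,k3] k0 [] k24 k5
    [[(k1,k6),(k10,k6)],[(k5,k6),(k6,k6),(k8,k7),(k3,k9)],[(k0,k9),(k11,k9),(k9,k10),(k2,k12)],[(k5,k9),(k6,k9),(k8,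
    k10),(k3,k12)],[(k0,k6),(k11,k6),(k9,k7),(k2,k9)],[(k4,k6),(k7,k6)],[(k4,k6),(k7,k6)],[(k0,k6),(k11,k6),(k9,k7),
    (k2,k9)],[(k5,k7),(k6,k7),(k8,k8),(k3,k10)],[(k0,k7),(k11,k7),(k9,k8),(k2,k10)],[(k5,k6),(k6,k6),(k8,k7),(k3,k9)],
    [(k1,k6),(k10,k6)]]
    [] k0
    [[k0,k1,k0,k0,k1,k0],[k0,k0,k0,k0,k2,k0]]
    [.ref k0 k0 [(z1,[y1,z1])],.contra [z1]])]⟩

/-- classes `0 0 1 0 0 2`, types `C0 C2 C0 C0 C2 C0` -/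
noncomputable def cU6_853 : CertX :=
  ⟨[k4,k6,k20,k4,k6,k36],[(false,k0,[k0,k1,k2,k3,k4,k5]),(true,k2,[k2,k1,k0,k5,k4,k3])],[[[([z1,z0,z0,z0,z1,z1],z2)],
    []]],
    [.old (.leafM k0 [k0,k1,k2,k3,k4,k5] [(z1,[y1,z1])] []),
    .old (.lp [k4,k2,k2,k2,k2,k2] [k0,k0,k1,k1,k1,k1,k1,k1,k1,k1,k1,k1] k0 [] k8 k5
    [[(k10,k3)],[(k2,k3),(k3,k3),(k8,k3),(k9,k3)],[(k5,k2),(k6,k2),(k11,k2),(k0,k3)],[(k5,k2),(k6,k2),(k11,k2),(k0,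
    k3)],[(k2,k2),(k3,k2),(k8,k2),(k9,k2)],[(k7,k2)],[(k4,k2)],[(k2,k2),(k3,k2),(k8,k2),(k9,k2)],[(k5,k2),(k6,k2),
    (k11,k2),(k0,k3)],[(k5,k2),(k6,k2),(k11,k2),(k0,k3)],[(k2,k2),(k3,k2),(k8,k2),(k9,k2)],[(k1,k3)]]
    [] k0
    [[k0,k1,k1,k1,k0,k0],[k0,k0,k1,k1,k1,k0]]
    [.ref k0 k0 [(z1,[y1,z1])],.ref k0 k1 [(z1,[z1])]])]⟩

/-- classes `0 0 1 0 0 2`, types `C0 C2 C0 C0 C2 S0` -/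
noncomputable def cU6_854 : CertX :=
  ⟨[k4,k6,k20,k4,k6,k32],[(false,k0,[k0,k1,k2,k3,k4,k5]),(true,k5,[k5,k4,k3,k2,k1,k0])],[[[([z1,z0,z0,z0,z1,z1],z2)],
    []]],
    [.old (.leafM k0 [k0,k1,k2,k3,k4,k5] [(z1,[y1,z1])] []),
    .old (.lp [k14,k24,k4,k20,k20,k12] [k5,k5,k0,k0,k10,k10,k2,k2,k2,k2,k6,k6] k0 [[],[],[],[],[],[],[k0,k0,k0,k0,k0,k0,
    k0,k0,k0,k4],[],[k0,k0,k0,k0,k0,k0,k0,k4]] k48 k5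
    [[(k10,k13),(k1,k14)],[(k8,k17),(k9,k17),(k2,k19),(k3,k19)],[(k5,k14),(k11,k18),(k0,k19),(k6,k22)],[(k5,k14),(k11,
    k18),(k0,k19),(k6,k22)],[(k8,k12),(k9,k12),(k2,k14),(k3,k14)],[(k7,k12)],[(k4,k12)],[(k8,k16),(k9,k20),(k2,k22),
    (k3,k22)],[(k5,k12),(k0,k17),(k6,k20),(k11,k20)],[(k5,k12),(k6,k16),(k11,k16),(k0,k17)],[(k8,k16),(k2,k18),(k3,
    k18),(k9,k20)],[(k10,k12),(k1,k13)]]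
    [] k0
    [[k1,k0,k0,k0,k1,k1],[k0,k0,k1,k1,k1,k0]]
    [.ref k0 k0 [(z1,[z1])],.ref k0 k1 [(z1,[y1,z1])]])]⟩

/-- classes `0 0 1 0 0 2`, types `C0 C2 C0 C2 C0 C0` -/
noncomputable def cU6_855 : CertX :=
  ⟨[k4,k6,k20,k6,k4,k36],[(false,k0,[k0,k1,k2,k3,k4,k5]),(false,k3,[k3,k4,k5,k0,k1,k2])],[[[([z1,z0,z0,z0,z0,z1],z2)],
    [([z1,z0,z1,z1,z0,z1],z2)],[]]],
    [.old (.leafM k0 [k1,k2,k3,k4] [] [(k5,k0,z1,[z1]),(k0,k5,z1,[z1])]),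
    .old (.leafM k2 [k2,k3,k5,k0] [] [(k4,k1,z1,[y1,z1]),(k1,k4,z1,[y1,z1])]),
    .old (.lp [k0,k2,k0,k2,k0,k2] [k1,k1,k0,k0,k1,k1,k0,k0,k1,k1,k0,k0] k0 [] k4 k5
    [[(k10,k1)],[(k2,k1),(k3,k1),(k6,k1),(k11,k1)],[(k0,k1),(k5,k1),(k8,k1),(k9,k1)],[(k0,k1),(k5,k1),(k8,k1),(k9,
    k1)],[(k2,k1),(k3,k1),(k6,k1),(k11,k1)],[(k7,k1)],[(k4,k1)],[(k0,k1),(k5,k1),(k8,k1),(k9,k1)],[(k2,k1),(k3,k1),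
    (k6,k1),(k11,k1)],[(k2,k1),(k3,k1),(k6,k1),(k11,k1)],[(k0,k1),(k5,k1),(k8,k1),(k9,k1)],[(k1,k1)]]
    [] k0
    [[k1,k0,k0,k0,k0,k1],[k0,k1,k0,k0,k1,k0],[k0,k0,k1,k1,k0,k0]]
    [.ref k0 k0 [(z1,[z1])],.ref k1 k0 [(z1,[y1,z1])],.ref k0 k1 [(z1,[z1])]])]⟩

/-- classes `0 0 1 0 0 2`, types `C0 C2 C0 C2 C0 S0` -/
noncomputable def cU6_856 : CertX :=
  ⟨[k4,k6,k20,k6,k4,k32],[(false,k0,[k0,k1,k2,k3,k4,k5])],[[[([z1,z1,z0,z0,z1,z1],z2)],[([z1,z0,z1,z1,z0,z1],z2)],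
    [([z1,z0,z0,z0,z0,z1],z2)],[]]],
    [.old (.leafM k0 [k0,k1,k4,k5] [] [(k2,k3,z1,[y1,z1]),(k3,k2,z1,[y1,z1])]),
    .old (.leafM k2 [k2,k3,k5,k0] [] [(k4,k1,z1,[y1,z1]),(k1,k4,z1,[y1,z1])]),
    .old (.leafM k0 [k1,k2,k3,k4] [] [(k5,k0,z1,[z1]),(k0,k5,z1,[z1])]),
    .old (.lp [k2,k4,k0,k4,k0,k4] [k1,k1,k0,k0,k2,k2,k0,k0,k2,k2,k0,k0] k0 [] k8 k5
    [[(k1,k2),(k10,k3)],[(k2,k3),(k3,k3),(k6,k3),(k11,k3)],[(k5,k2),(k8,k2),(k9,k2),(k0,k3)],[(k5,k2),(k8,k2),(k9,k2),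
    (k0,k3)],[(k2,k2),(k3,k2),(k6,k2),(k11,k2)],[(k7,k2)],[(k4,k2)],[(k5,k2),(k8,k2),(k9,k2),(k0,k3)],[(k2,k2),(k3,
    k2),(k6,k2),(k11,k2)],[(k2,k2),(k3,k2),(k6,k2),(k11,k2)],[(k5,k2),(k8,k2),(k9,k2),(k0,k3)],[(k1,k3),(k10,k4)]]
    [] k0
    [[k1,k0,k0,k0,k0,k1],[k0,k1,k0,k0,k1,k0],[k0,k0,k1,k1,k0,k0]]
    [.ref k2 k0 [(z1,[z1])],.ref k1 k0 [(z1,[y1,z1])],.ref k0 k0 [(z1,[y1,z1])]])]⟩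

/-- classes `0 0 1 0 0 2`, types `C0 C2 S0 C0 C2 S0` -/
noncomputable def cU6_857 : CertX :=
  ⟨[k4,k6,k16,k4,k6,k32],[(false,k0,[k0,k1,k2,k3,k4,k5]),(true,k2,[k2,k1,k0,k5,k4,k3]),(false,k3,[k3,k4,k5,k0,k1,
    k2])],[[[([z1,z0,z0,z0,z1,z1],z2)],[([z1,z0,y1,z0,z0,z0],z0),([z0,z1,z2,z0,z0,z0],z2),([z0,z0,z0,z1,z0,y1],z0)],
    [([z1,z0,y1,y1,z0,z1],z0),([z0,z1,z2,z2,z0,y2],z2)],[([z1,z0,y1,y1,y1,y1],y2)],[([z2,z0,z0,z0,z1,z0],z2),([z0,z1,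
    z0,z0,z0,z2],z2),([z0,z0,z2,z0,z1,z0],z2)],[([z2,z0,z0,y2,z1,z2],z2),([z0,z1,z0,z2,z0,z0],z2)],[([z2,z0,z0,z0,z1,
    z0],z2)],[]]],
    [.old (.leafM k0 [k0,k1,k2,k3,k4,k5] [(z1,[y1,z1])] []),
    .old (.tor k11 false k0 [(z1,[y1,y1,y1,z1]),(z1,[y1,y1,z1,z1]),(z1,[z0,z1]),(z1,[z2,z1])]),
    .old (.lp [k32,k40,k30,k24,k38,k24] [k6,k6,k2,k2,k7,k7,k10,k10,k0,k6,k10,k10] k0 [[k0,k0,k0,k0,k0,k0,k6],[],[],[k0,k0,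
    k0,k0,k0,k0,k2],[],[],[k0,k0,k0,k0,k0,k0,k0,k0,k0,k10],[k0,k6,k2],[k0,k0,k0,k0,k0,k0,k0,k10]] k96 k5
    [[(k10,k28),(k1,k32)],[(k9,k26),(k2,k36),(k3,k36),(k8,k38)],[(k11,k32),(k5,k35),(k0,k36),(k6,k38)],[(k11,k32),(k6,
    k34),(k5,k35),(k0,k36)],[(k9,k29),(k2,k35),(k3,k35),(k8,k37)],[(k7,k27),(k4,k30)],[(k7,k24),(k4,k27)],[(k8,k24),
    (k9,k28),(k2,k34),(k3,k38)],[(k0,k26),(k6,k28),(k5,k29),(k11,k38)],[(k6,k24),(k11,k34),(k5,k37),(k0,k38)],[(k2,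
    k32),(k3,k32),(k8,k34),(k9,k38)],[(k10,k24),(k1,k28)]]
    [] k0
    [[k1,k0,k0,k0,k1,k1],[k0,k1,k0,k0,k0,k2],[k0,k0,k1,k1,k1,k0],[k0,k0,k0,k2,k1,k0]]
    [.ref k0 k0 [(z1,[z1])],.ref k0 k0 [(z2,[y1,z0,y1,z2])],.ref k0 k0 [(z1,[z1,z1])],.ref k1 k0 [(z2,[z1,z3,z1,y1]),
    (z1,[y1,y1,z0,z1]),(z2,[z1,z1,z1,y1])]]),
    .old (.lp [k20,k12,k16,k18,k16,k12] [k0,k0,k4,k4,k2,k2,k1,k1,k2,k2,k4,k4] k0 [[k0,k0,k0,k4],[],[k0,k4]] k48 k5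
    [[(k10,k16),(k1,k20)],[(k2,k12),(k3,k16),(k8,k18),(k9,k18)],[(k11,k12),(k6,k15),(k0,k16),(k5,k18)],[(k0,k12),(k11,
    k12),(k5,k14),(k6,k15)],[(k2,k14),(k8,k16),(k9,k16),(k3,k18)],[(k4,k16),(k7,k17)],[(k4,k17),(k7,k18)],[(k2,k15),
    (k3,k15),(k8,k17),(k9,k17)],[(k11,k14),(k5,k16),(k6,k17),(k0,k18)],[(k11,k14),(k5,k16),(k6,k17),(k0,k18)],[(k2,
    k12),(k3,k12),(k8,k14),(k9,k14)],[(k10,k12),(k1,k16)]]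
    [] k0
    [[k1,k1,k0,k0,k0,k1],[k0,k1,k1,k1,k0,k0],[k0,k1,k0,k0,k0,k2],[k0,k0,k0,k0,k1,k2]]
    [.ref k0 k1 [(z1,[y1,z0,z1])],.ref k0 k0 [(z1,[y1,z0,z1])],.ref k0 k1 [(z2,[y1,y1,z1])],.ref k2 k0 [(z1,[z1,z1]),
    (z1,[y2,y1,z1])]]),
    .old (.tor k16 false k0 [(z1,[z0,z0,z1]),(z1,[z0,z1]),(z1,[y1,y1,y1,z2]),(z1,[z1])]),
    .old (.lp [k18,k18,k16,k18,k12,k12] [k0,k0,k0,k0,k1,k1,k0,k0,k3,k3,k3,k3] k0 [[],[],[k0,k0,k0,k0,k0,k0,k0,k4],[],[],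
    [],[k0,k0,k0,k4]] k48 k5
    [[(k10,k15),(k1,k18)],[(k8,k15),(k9,k15),(k2,k18),(k3,k18)],[(k11,k15),(k5,k17),(k0,k18),(k6,k18)],[(k6,k14),(k11,
    k15),(k5,k17),(k0,k18)],[(k8,k14),(k2,k17),(k3,k17),(k9,k18)],[(k4,k16),(k7,k17)],[(k4,k17),(k7,k18)],[(k2,k14),
    (k8,k15),(k9,k15),(k3,k18)],[(k11,k12),(k0,k15),(k6,k15),(k5,k18)],[(k11,k12),(k5,k14),(k0,k15),(k6,k15)],[(k8,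
    k12),(k9,k12),(k2,k15),(k3,k15)],[(k10,k12),(k1,k15)]]
    [] k0
    [[k1,k0,k0,k0,k1,k1],[k0,k1,k0,k0,k0,k2],[k0,k0,k1,k1,k1,k0],[k0,k0,k0,k0,k1,k2]]
    [.ref k0 k0 [(z1,[z1])],.ref k4 k0 [(z1,[y1,z1,z1]),(z1,[z1]),(z1,[z0,y1,y2,z2])],.ref k0 k0 [(z1,[z1,z1,z1,y1])],
    .ref k3 k0 [(z1,[y1,z1,z1,y1])]]),
    .old (.lp [k18,k18,k16,k18,k12,k12] [k0,k0,k0,k0,k1,k1,k0,k0,k3,k3,k3,k3] k0 [[],[],[k0,k0,k0,k0,k0,k0,k0,k4],[],[],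
    [],[k0,k0,k0,k4]] k48 k5
    [[(k10,k15),(k1,k18)],[(k8,k15),(k9,k15),(k2,k18),(k3,k18)],[(k11,k15),(k5,k17),(k0,k18),(k6,k18)],[(k6,k14),(k11,
    k15),(k5,k17),(k0,k18)],[(k8,k14),(k2,k17),(k3,k17),(k9,k18)],[(k4,k16),(k7,k17)],[(k4,k17),(k7,k18)],[(k2,k14),
    (k8,k15),(k9,k15),(k3,k18)],[(k11,k12),(k0,k15),(k6,k15),(k5,k18)],[(k11,k12),(k5,k14),(k0,k15),(k6,k15)],[(k8,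
    k12),(k9,k12),(k2,k15),(k3,k15)],[(k10,k12),(k1,k15)]]
    [] k0
    [[k1,k0,k0,k0,k1,k1],[k0,k1,k0,k0,k0,k2],[k0,k0,k1,k1,k1,k0],[k0,k0,k0,k0,k1,k2]]
    [.ref k0 k0 [(z1,[z1])],.ref k5 k2 [(z1,[y1,y2,z2]),(z1,[z0,z1])],.ref k0 k1 [(z1,[z1])],.ref k0 k0 [(z2,[z1,
    z1])]]),
    .old (.lp [k24,k38,k24,k28,k44,k30] [k10,k10,k6,k0,k10,k10,k8,k8,k0,k0,k7,k7] k0 [[k0,k0,k0,k0,k0,k0,k2,k0,k0,k2],[k0,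
    k0,k10],[k0,k0,k0,k0,k0,k0,k0,k0,k4],[k10],[],[],[],[k0,k2],[k0,k2],[k0,k0,k0,k4]] k96 k5
    [[(k1,k24),(k10,k27)],[(k8,k32),(k9,k32),(k3,k34),(k2,k38)],[(k5,k24),(k0,k34),(k6,k38),(k11,k39)],[(k11,k27),(k5,
    k28),(k6,k30),(k0,k38)],[(k3,k24),(k2,k28),(k9,k34),(k8,k38)],[(k4,k24),(k7,k26)],[(k4,k26),(k7,k28)],[(k2,k30),
    (k8,k36),(k9,k36),(k3,k38)],[(k0,k32),(k5,k34),(k6,k36),(k11,k37)],[(k0,k32),(k6,k36),(k11,k37),(k5,k38)],[(k2,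
    k27),(k8,k37),(k9,k37),(k3,k39)],[(k1,k27),(k10,k30)]]
    [] k0
    [[k2,k0,k0,k0,k1,k0],[k1,k1,k0,k0,k0,k1],[k0,k1,k2,k0,k0,k0],[k0,k1,k1,k1,k0,k0]]
    [.ref k6 k0 [(z1,[z1])],.ref k0 k1 [(z1,[y1,z1])],.ref k3 k1 [(z1,[z1,y1])],.ref k0 k0 [(z1,[y1,z1])]])]⟩

/-- classes `0 0 1 0 0 2`, types `C0 C2 S0 C2 C0 S0` -/
noncomputable def cU6_858 : CertX :=
  ⟨[k4,k6,k16,k6,k4,k32],[(false,k0,[k0,k1,k2,k3,k4,k5]),(false,k3,[k3,k4,k5,k0,k1,k2]),(true,k2,[k2,k1,k0,k5,k4,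
    k3])],[[[([z1,z0,z0,z0,z0,z1],z2)],[([z1,z0,z1,z1,z0,z1],z2)],[([z1,z0,y1,z0,z0,z0],z0),([z0,z1,z2,z0,z0,z0],z2),
    ([z0,z0,z0,z1,z0,y1],z0)],[([z1,z0,y1,z0,z0,z0],z0),([z0,z1,z2,z0,z0,z0],z2)],[([z1,z0,y1,y1,y1,y1],y2)],[]]],
    [.old (.leafM k0 [k1,k2,k3,k4] [] [(k5,k0,z1,[z1]),(k0,k5,z1,[z1])]),
    .old (.leafM k2 [k2,k3,k5,k0] [] [(k4,k1,z1,[y1,z1]),(k1,k4,z1,[y1,z1])]),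
    .old (.tor k11 false k0 [(z1,[y1,y1,y1,z1]),(z1,[y1,y1,z1,z1]),(z1,[z0,z1]),(z1,[z2,z1])]),
    .old (.lp [k6,k4,k6,k6,k4,k4] [k0,k0,k1,k1,k0,k0,k0,k0,k1,k1,k1,k1] k0 [] k16 k5
    [[(k10,k5),(k1,k6)],[(k2,k5),(k3,k5),(k11,k5),(k6,k6)],[(k8,k4),(k9,k4),(k0,k5),(k5,k5)],[(k8,k4),(k9,k4),(k0,k5),
    (k5,k5)],[(k2,k5),(k3,k5),(k11,k5),(k6,k6)],[(k4,k6),(k7,k6)],[(k4,k6),(k7,k6)],[(k8,k5),(k9,k5),(k0,k6),(k5,k6)],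
    [(k2,k4),(k3,k4),(k11,k4),(k6,k5)],[(k2,k4),(k3,k4),(k11,k4),(k6,k5)],[(k8,k4),(k9,k4),(k0,k5),(k5,k5)],[(k10,k4),
    (k1,k5)]]
    [] k0
    [[k1,k0,k0,k0,k0,k1],[k0,k1,k0,k0,k1,k0],[k0,k0,k1,k1,k0,k0],[k0,k0,k0,k0,k1,k2]]
    [.ref k0 k0 [(z1,[z1])],.ref k1 k0 [(z1,[y1,z0,z0,z1])],.ref k0 k1 [(z1,[z1])],.ref k2 k0 [(z1,[z0,z1]),(z1,[z0,
    z0,z1]),(z1,[y1,y1,y1,z1])]]),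
    .old (.lp [k6,k4,k4,k6,k4,k6] [k0,k0,k1,k1,k1,k1,k0,k0,k1,k1,k0,k0] k0 [] k16 k5
    [[(k1,k6),(k10,k6)],[(k2,k5),(k3,k5),(k6,k6),(k11,k6)],[(k5,k4),(k8,k4),(k9,k4),(k0,k5)],[(k5,k4),(k8,k4),(k9,k4),
    (k0,k5)],[(k2,k4),(k3,k4),(k6,k5),(k11,k5)],[(k4,k4),(k7,k5)],[(k4,k5),(k7,k6)],[(k5,k5),(k8,k5),(k9,k5),(k0,k6)],
    [(k2,k4),(k3,k4),(k6,k5),(k11,k5)],[(k2,k4),(k3,k4),(k6,k5),(k11,k5)],[(k5,k5),(k8,k5),(k9,k5),(k0,k6)],[(k1,k6),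
    (k10,k6)]]
    [] k0
    [[k1,k0,k0,k0,k0,k1],[k0,k1,k2,k0,k0,k0],[k0,k1,k0,k0,k1,k0],[k0,k0,k1,k1,k0,k0]]
    [.ref k0 k0 [(z1,[z1])],.ref k3 k0 [(z2,[y1,z1,z1]),(z1,[z1])],.ref k1 k0 [(z1,[y1,z0,z1])],.ref k0 k1 [(z1,
    [z1])]]),
    .old (.lp [k6,k4,k4,k6,k4,k6] [k0,k0,k1,k1,k1,k1,k0,k0,k1,k1,k0,k0] k0 [] k16 k5
    [[(k1,k6),(k10,k6)],[(k2,k5),(k3,k5),(k6,k6),(k11,k6)],[(k5,k4),(k8,k4),(k9,k4),(k0,k5)],[(k5,k4),(k8,k4),(k9,k4),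
    (k0,k5)],[(k2,k4),(k3,k4),(k6,k5),(k11,k5)],[(k4,k4),(k7,k5)],[(k4,k5),(k7,k6)],[(k5,k5),(k8,k5),(k9,k5),(k0,k6)],
    [(k2,k4),(k3,k4),(k6,k5),(k11,k5)],[(k2,k4),(k3,k4),(k6,k5),(k11,k5)],[(k5,k5),(k8,k5),(k9,k5),(k0,k6)],[(k1,k6),
    (k10,k6)]]
    [] k0
    [[k1,k0,k0,k0,k0,k1],[k0,k1,k2,k0,k0,k0],[k0,k1,k0,k0,k1,k0],[k0,k0,k1,k1,k0,k0]]
    [.ref k0 k0 [(z1,[z1])],.ref k4 k2 [(z1,[z1,y1])],.ref k1 k0 [(z1,[y1,z1])],.ref k0 k1 [(z1,[z1])]])]⟩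

/-- classes `0 0 1 0 0 2`, types `N0 N0 C0 N1 N1 C0` -/
noncomputable def cU6_859 : CertX :=
  ⟨[k12,k12,k20,k13,k13,k36],[(false,k3,[k3,k4,k5,k0,k1,k2]),(false,k0,[k0,k1,k2,k3,k4,k5])],[[[([z1,z0,z0,z0,z0,z1],
    z1),([z0,z1,z0,z0,z1,z0],z1)],[([z1,z0,z0,z0,z0,z1],z2)],[([z1,z0,z0,z0,z0,z1],z1),([z0,z1,z0,z0,z1,z0],z2)],
    [([z1,z0,z1,z1,z0,z1],z2)],[]]],
    [.old (.leafM k4 [k0,k1,k4,k5] [(z1,[z0,z1])] [(k2,k3,z1,[y1,y1,z1]),(k3,k2,z1,[y1,y1,z1])]),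
    .old (.lp [(nat_lit 14076),(nat_lit 3910),k0,(nat_lit 12240),(nat_lit 5520),(nat_lit 9384)] [k0,k0,(nat_lit 5083),
    (nat_lit 5083),(nat_lit 7038),(nat_lit 7038),(nat_lit 918),(nat_lit 918),(nat_lit 4278),(nat_lit 4278),
    (nat_lit 2346),(nat_lit 2346)] k0 [[],[],[k0,k0,k0,k0,k0,k0,k0,k0,(nat_lit 1955)],[],[],[],[],[],[],[k0,k0,k0,
    (nat_lit 1955)]] (nat_lit 23460) k6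
    [[(k10,(nat_lit 11730))],[(k9,(nat_lit 9798)),(k11,(nat_lit 11730))],[(k8,(nat_lit 4715)),(k6,(nat_lit 8075))],
    [(k11,(nat_lit 4692)),(k9,(nat_lit 4715))],[(k8,(nat_lit 4715)),(k6,(nat_lit 6120))],[(k7,(nat_lit 6120))],[(k4,
    (nat_lit 6120))],[(k5,(nat_lit 6120)),(k3,(nat_lit 8075))],[(k2,(nat_lit 4715)),(k0,(nat_lit 9798))],[(k3,
    (nat_lit 4715)),(k5,(nat_lit 4715))],[(k2,(nat_lit 4692)),(k0,(nat_lit 11730))],[(k1,(nat_lit 11730))]]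
    [] k0
    [[k0,k1,k0,k0,k1,k0],[k0,k2,k0,k0,k2,k0],[k0,k0,k1,k1,k0,k0]]
    [.contra [y1,y1,z1],.ref k0 k0 [(z2,[y1,y2,z2]),(z2,[z1])],.contra [y1,y1,z1]]),
    .old (.leafM k4 [k0,k2,k3,k5] [(z1,[y1,y1,z1])] [(k1,k4,z1,[z0,z1]),(k4,k1,z1,[z0,z1])]),
    .old (.lp [k10,k8,k0,k8,k12,k0] [k1,k1,k2,k2,k6,k6,k2,k2,k0,k0,k6,k6] k0 [] k20 k6
    [[(k10,k5)],[(k11,k5),(k9,k11)],[(k6,k8),(k8,k10)],[(k11,k4),(k9,k10)],[(k6,k4),(k8,k6)],[(k7,k4)],[(k4,k4)],[(k5,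
    k4),(k3,k8)],[(k2,k10),(k0,k11)],[(k5,k6),(k3,k10)],[(k2,k4),(k0,k5)],[(k1,k5)]]
    [] k0
    [[k1,k0,k0,k0,k0,k1],[k0,k0,k1,k1,k0,k0],[k0,k0,k2,k2,k0,k0]]
    [.contra [y1,z1],.contra [y1,z1],.ref k2 k1 [(z2,[y1,z2]),(z1,[z0,y1,z1])]]),
    .old (.lp [k0,k0,k0,k2,k2,k2] [k1,k1,k1,k1,k1,k1,k0,k0,k0,k0,k0,k0] k0 [] k4 k5
    [[(k10,k1)],[(k9,k1),(k11,k1)],[(k6,k1),(k8,k1)],[(k9,k1),(k11,k1)],[(k6,k1),(k8,k1)],[(k7,k1)],[(k4,k1)],[(k3,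
    k1),(k5,k1)],[(k0,k1),(k2,k1)],[(k3,k1),(k5,k1)],[(k0,k1),(k2,k1)],[(k1,k1)]]
    [] k0
    [[k1,k0,k0,k0,k0,k1],[k0,k1,k0,k0,k1,k0],[k0,k0,k1,k1,k0,k0]]
    [.ref k1 k1 [(z1,[z1])],.ref k3 k1 [(z1,[y1,z1])],.ref k1 k0 [(z1,[z1])]])]⟩

/-- classes `0 0 1 0 0 2`, types `N0 N0 C0 N1 N1 S0` -/
noncomputable def cU6_860 : CertX :=
  ⟨[k12,k12,k20,k13,k13,k32],[(false,k0,[k0,k1,k2,k3,k4,k5])],[[[([z1,z0,z0,z0,z0,z1],z1),([z0,z1,z0,z0,z1,z0],z1)],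
    [([z1,z1,z0,z0,z1,z1],z2)],[([z1,z0,z0,z0,z0,z1],z1),([z0,z1,z0,z0,z1,z0],z2)],[([z1,z0,z1,z1,z0,z1],z2)],[([z1,
    z0,z0,z0,z0,z1],z2),([z0,z1,z0,z0,z1,z0],z1)],[([z1,z0,z0,z0,z0,z1],z2)],[]]],
    [.old (.leafM k4 [k0,k1,k4,k5] [(z1,[z0,z1])] [(k2,k3,z1,[y1,y1,z1]),(k3,k2,z1,[y1,y1,z1])]),
    .old (.lp [k32,k52,k106,k12,k0,k28] [k37,k37,k27,k27,k0,k0,k47,k47,k53,k53,k39,k39] k0 [[],[k0,k0,k0,k0,k0,k0,k0,k8],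
    [k0,k0,k0,k0,k0,k0,k2],[],[],[],[k8],[k0,k0,k0,k2]] k120 k6
    [[(k10,k30),(k1,k32)],[(k9,k24),(k11,k30)],[(k6,k24),(k8,k26)],[(k9,k24),(k11,k40)],[(k8,k53),(k6,k61)],[(k7,
    k59)],[(k4,k59)],[(k3,k24),(k5,k61)],[(k0,k24),(k2,k24)],[(k3,k26),(k5,k53)],[(k0,k30),(k2,k40)],[(k10,k28),(k1,
    k30)]]
    [] k0
    [[k1,k0,k0,k0,k0,k1],[k0,k1,k0,k0,k1,k0],[k0,k2,k0,k0,k2,k0]]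
    [.contra [y1,z1],.contra [y1,z1],.ref k0 k0 [(z2,[y1,z2]),(z2,[z1])]]),
    .old (.leafM k4 [k0,k2,k3,k5] [(z1,[y1,y1,z1])] [(k1,k4,z1,[z0,z1]),(k4,k1,z1,[z0,z1])]),
    .old (.lp [k6,k18,k8,k0,k2,k4] [k6,k6,k0,k0,k5,k5,k9,k9,k8,k8,k7,k7] k0 [] k20 k6
    [[(k10,k5),(k1,k6)],[(k9,k4),(k11,k5)],[(k6,k9),(k8,k10)],[(k9,k10),(k11,k11)],[(k6,k4),(k8,k5)],[(k7,k4)],[(k4,
    k4)],[(k5,k4),(k3,k9)],[(k0,k4),(k2,k10)],[(k5,k5),(k3,k10)],[(k0,k5),(k2,k11)],[(k10,k4),(k1,k5)]]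
    [] k0
    [[k1,k0,k0,k0,k0,k1],[k0,k0,k1,k1,k0,k0],[k0,k0,k2,k2,k0,k0]]
    [.contra [y1,z1],.contra [y1,z1],.ref k2 k0 [(z2,[y1,z2]),(z1,[z0,y1,z1])]]),
    .old (.leafM k4 [k1,k2,k3,k4] [(z1,[y1,y1,z1])] [(k5,k0,z1,[z1]),(k0,k5,z1,[z1])]),
    .old (.lp [k48,k50,k60,k0,k0,k72] [k12,k12,k11,k11,k6,k6,k36,k36,k36,k36,k0,k0] k0 [[],[],[k0,k0,k0,k0,k0,k0,k0,k0,
    k10],[],[],[],[],[],[],[k0,k0,k0,k10]] k120 k6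
    [[(k1,k48),(k10,k60)],[(k9,k24),(k11,k60)],[(k6,k25),(k8,k25)],[(k9,k25),(k11,k51)],[(k6,k30),(k8,k40)],[(k7,
    k30)],[(k4,k30)],[(k3,k25),(k5,k30)],[(k0,k24),(k2,k25)],[(k3,k25),(k5,k40)],[(k2,k51),(k0,k60)],[(k1,k60),(k10,
    k72)]]
    [] k0
    [[k0,k1,k0,k0,k1,k0],[k0,k2,k0,k0,k2,k0],[k0,k0,k1,k1,k0,k0]]
    [.contra [y1,y1,z1],.ref k4 k0 [(z1,[z0,z1]),(z2,[z1])],.contra [y1,y1,z1]]),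
    .old (.lp [k2,k2,k2,k2,k2,k2] [k0,k0,k0,k0,k0,k0,k0,k0,k0,k0,k0,k0] k0 [] k8 k5
    [[(k1,k2),(k10,k2)],[(k9,k2),(k11,k2)],[(k6,k2),(k8,k2)],[(k9,k2),(k11,k2)],[(k6,k2),(k8,k2)],[(k7,k2)],[(k4,k2)],
    [(k3,k2),(k5,k2)],[(k0,k2),(k2,k2)],[(k3,k2),(k5,k2)],[(k0,k2),(k2,k2)],[(k1,k2),(k10,k2)]]
    [] k0
    [[k1,k0,k0,k0,k0,k1],[k0,k1,k0,k0,k1,k0],[k0,k0,k1,k1,k0,k0]]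
    [.ref k5 k0 [(z1,[z1])],.ref k3 k0 [(z1,[y1,z1])],.ref k1 k0 [(z1,[y1,z1])]])]⟩

/-- classes `0 0 1 0 0 2`, types `N0 N0 C0 N1 N2 C0` -/
noncomputable def cU6_861 : CertX :=
  ⟨[k12,k12,k20,k13,k14,k36],[(false,k0,[k0,k1,k2,k3,k4,k5])],[[[([z1,z1,z0,z0,z1,z1],z2)],[]]],
    [.old (.leafM k2 [k1,k4,k5,k0] [] [(k2,k3,z1,[y1,z1]),(k3,k2,z1,[y1,z1])]),
    .old (.lp [k0,k0,k0,k2,k2,k2] [k1,k1,k1,k1,k1,k1,k0,k0,k0,k0,k0,k0] k0 [] k4 k5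
    [[(k10,k1)],[(k8,k1),(k9,k1)],[(k6,k1),(k11,k1)],[(k8,k1),(k9,k1)],[(k6,k1),(k11,k1)],[(k7,k1)],[(k4,k1)],[(k3,
    k1),(k5,k1)],[(k0,k1),(k2,k1)],[(k0,k1),(k2,k1)],[(k3,k1),(k5,k1)],[(k1,k1)]]
    [] k0
    [[k0,k0,k1,k1,k0,k0]]
    [.ref k0 k0 [(z1,[y1,z1])]])]⟩

/-- classes `0 0 1 0 0 2`, types `N0 N0 C0 N1 N2 S0` -/
noncomputable def cU6_862 : CertX :=
  ⟨[k12,k12,k20,k13,k14,k32],[(false,k0,[k0,k1,k2,k3,k4,k5])],[[[([z1,z1,z0,z0,z1,z1],z2)],[]]],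
    [.old (.leafM k2 [k1,k4,k5,k0] [] [(k2,k3,z1,[y1,z1]),(k3,k2,z1,[y1,z1])]),
    .old (.lp [k6,k4,k4,k4,k4,k4] [k0,k0,k1,k1,k1,k1,k1,k1,k1,k1,k1,k1] k0 [] k16 k5
    [[(k10,k5),(k1,k6)],[(k8,k5),(k9,k5)],[(k6,k4),(k11,k4)],[(k8,k4),(k9,k4)],[(k6,k4),(k11,k4)],[(k7,k4)],[(k4,k4)],
    [(k3,k4),(k5,k4)],[(k2,k4),(k0,k5)],[(k2,k4),(k0,k5)],[(k3,k4),(k5,k4)],[(k10,k4),(k1,k5)]]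
    [] k0
    [[k0,k0,k1,k1,k0,k0]]
    [.ref k0 k0 [(z1,[y1,z1])]])]⟩

/-- classes `0 0 1 0 0 2`, types `N0 N0 C0 N2 N1 S0` -/
noncomputable def cU6_863 : CertX :=
  ⟨[k12,k12,k20,k14,k13,k32],[(false,k0,[k0,k1,k2,k3,k4,k5])],[[[([z1,z0,z0,z0,z0,z1],z2)],[]]],
    [.old (.leafM k2 [k2,k3,k4,k1] [] [(k5,k0,z1,[z1]),(k0,k5,z1,[z1])]),
    .old (.lp [k2,k2,k2,k2,k2,k2] [k0,k0,k0,k0,k0,k0,k0,k0,k0,k0,k0,k0] k0 [] k8 k5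
    [[(k1,k2),(k10,k2)],[(k6,k2),(k11,k2)],[(k8,k2),(k9,k2)],[(k6,k2),(k11,k2)],[(k8,k2),(k9,k2)],[(k7,k2)],[(k4,k2)],
    [(k0,k2),(k2,k2)],[(k3,k2),(k5,k2)],[(k3,k2),(k5,k2)],[(k0,k2),(k2,k2)],[(k1,k2),(k10,k2)]]
    [] k0
    [[k1,k0,k0,k0,k0,k1]]
    [.ref k0 k0 [(z1,[z1])]])]⟩

/-- classes `0 0 1 0 0 2`, types `N0 N0 C0 N2 N2 C0` -/
noncomputable def cU6_864 : CertX :=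
  ⟨[k12,k12,k20,k14,k14,k36],[(false,k0,[k0,k1,k2,k3,k4,k5])],[[[([z1,z0,z1,z1,z0,z1],z2)],[]]],
    [.old (.leafM k2 [k2,k3,k5,k0] [] [(k4,k1,z1,[y1,z1]),(k1,k4,z1,[y1,z1])]),
    .old (.lp [k0,k0,k0,k2,k2,k2] [k1,k1,k1,k1,k1,k1,k0,k0,k0,k0,k0,k0] k0 [] k4 k5
    [[(k10,k1)],[(k6,k1),(k8,k1)],[(k9,k1),(k11,k1)],[(k6,k1),(k8,k1)],[(k9,k1),(k11,k1)],[(k7,k1)],[(k4,k1)],[(k0,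
    k1),(k2,k1)],[(k3,k1),(k5,k1)],[(k0,k1),(k2,k1)],[(k3,k1),(k5,k1)],[(k1,k1)]]
    [] k0
    [[k0,k1,k0,k0,k1,k0]]
    [.ref k0 k0 [(z1,[y1,z1])]])]⟩

/-- classes `0 0 1 0 0 2`, types `N0 N0 C0 N2 N2 S0` -/
noncomputable def cU6_865 : CertX :=
  ⟨[k12,k12,k20,k14,k14,k32],[(false,k0,[k0,k1,k2,k3,k4,k5])],[[[([z1,z0,z1,z1,z0,z1],z2)],[]]],
    [.old (.leafM k2 [k2,k3,k5,k0] [] [(k4,k1,z1,[y1,z1]),(k1,k4,z1,[y1,z1])]),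
    .old (.lp [k2,k2,k2,k2,k2,k2] [k0,k0,k0,k0,k0,k0,k0,k0,k0,k0,k0,k0] k0 [] k8 k5
    [[(k1,k2),(k10,k2)],[(k6,k2),(k8,k2)],[(k9,k2),(k11,k2)],[(k6,k2),(k8,k2)],[(k9,k2),(k11,k2)],[(k7,k2)],[(k4,k2)],
    [(k0,k2),(k2,k2)],[(k3,k2),(k5,k2)],[(k0,k2),(k2,k2)],[(k3,k2),(k5,k2)],[(k1,k2),(k10,k2)]]
    [] k0
    [[k0,k1,k0,k0,k1,k0]]
    [.ref k0 k0 [(z1,[y1,z1])]])]⟩

/-- classes `0 0 1 0 0 2`, types `N0 N0 S0 N1 N1 S0` -/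
noncomputable def cU6_866 : CertX :=
  ⟨[k12,k12,k16,k13,k13,k32],[(false,k3,[k3,k4,k5,k0,k1,k2]),(false,k0,[k0,k1,k2,k3,k4,k5])],[[[([z1,z0,z0,z0,z0,z1],
    z1),([z0,z1,z0,z0,z1,z0],z1)],[([z1,z0,z0,z0,z0,z1],z2)],[([z1,z0,z0,z0,z0,z1],z1),([z0,z1,z0,z0,z1,z0],z2)],
    [([z1,z0,z1,z1,z0,z1],z2)],[]]],
    [.old (.leafM k4 [k0,k1,k4,k5] [(z1,[z0,z1])] [(k2,k3,z1,[y1,y1,z1]),(k3,k2,z1,[y1,y1,z1])]),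
    .old (.lp [(nat_lit 4416),(nat_lit 2640),(nat_lit 1104),(nat_lit 1104),(nat_lit 230),(nat_lit 1104)] [k0,k0,
    (nat_lit 888),(nat_lit 888),(nat_lit 1656),(nat_lit 1656),(nat_lit 1656),(nat_lit 1656),(nat_lit 2093),
    (nat_lit 2093),(nat_lit 1656),(nat_lit 1656)] k0 [[],[],[k0,k0,k0,k0,k0,k0,k0,k0,(nat_lit 460)],[],[],[],[],[],[],
    [k0,k0,k0,(nat_lit 460)]] (nat_lit 5520) k6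
    [[(k10,(nat_lit 2760)),(k1,(nat_lit 4416))],[(k9,(nat_lit 2323)),(k11,(nat_lit 2760))],[(k8,(nat_lit 1435)),(k6,
    (nat_lit 1872))],[(k11,(nat_lit 1412)),(k9,(nat_lit 1435))],[(k6,(nat_lit 1104)),(k8,(nat_lit 1127))],[(k4,
    (nat_lit 1104)),(k7,(nat_lit 1104))],[(k4,(nat_lit 1104)),(k7,(nat_lit 1104))],[(k5,(nat_lit 1104)),(k3,
    (nat_lit 1872))],[(k2,(nat_lit 1435)),(k0,(nat_lit 2323))],[(k5,(nat_lit 1127)),(k3,(nat_lit 1435))],[(k2,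
    (nat_lit 1412)),(k0,(nat_lit 2760))],[(k10,(nat_lit 1104)),(k1,(nat_lit 2760))]]
    [] k0
    [[k0,k1,k0,k0,k1,k0],[k0,k0,k1,k1,k0,k0],[k0,k0,k2,k2,k0,k0]]
    [.contra [y1,y1,z1],.contra [y1,y1,z1],.ref k0 k0 [(z2,[z1]),(z2,[y1,y2,z2])]]),
    .old (.leafM k4 [k0,k2,k3,k5] [(z1,[y1,y1,z1])] [(k1,k4,z1,[z0,z1]),(k4,k1,z1,[z0,z1])]),
    .old (.lp [k4,k16,k6,k4,k4,k4] [k6,k6,k0,k0,k5,k5,k6,k6,k6,k6,k6,k6] k0 [] k20 k6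
    [[(k1,k4),(k10,k4)],[(k9,k4),(k11,k4)],[(k6,k10),(k8,k10)],[(k9,k10),(k11,k10)],[(k6,k5),(k8,k5)],[(k7,k5),(k4,
    k6)],[(k7,k4),(k4,k5)],[(k5,k5),(k3,k10)],[(k0,k4),(k2,k10)],[(k5,k5),(k3,k10)],[(k0,k4),(k2,k10)],[(k1,k4),(k10,
    k4)]]
    [] k0
    [[k2,k0,k0,k0,k0,k2],[k1,k0,k0,k0,k0,k1],[k0,k0,k1,k1,k0,k0]]
    [.ref k2 k1 [(z2,[z1]),(z1,[z0,y1,z1])],.contra [y1,z1],.contra [y1,z1]]),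
    .old (.lp [k2,k2,k2,k2,k2,k2] [k0,k0,k0,k0,k0,k0,k0,k0,k0,k0,k0,k0] k0 [] k8 k5
    [[(k1,k2),(k10,k2)],[(k9,k2),(k11,k2)],[(k6,k2),(k8,k2)],[(k9,k2),(k11,k2)],[(k6,k2),(k8,k2)],[(k4,k2),(k7,k2)],
    [(k4,k2),(k7,k2)],[(k3,k2),(k5,k2)],[(k0,k2),(k2,k2)],[(k3,k2),(k5,k2)],[(k0,k2),(k2,k2)],[(k1,k2),(k10,k2)]]
    [] k0
    [[k1,k0,k0,k0,k0,k1],[k0,k1,k0,k0,k1,k0],[k0,k0,k1,k1,k0,k0]]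
    [.ref k1 k1 [(z1,[z1])],.ref k3 k1 [(z1,[y1,z1])],.ref k1 k0 [(z1,[z1])]])]⟩

/-- classes `0 0 1 0 0 2`, types `N0 N0 S0 N1 N2 S0` -/
noncomputable def cU6_867 : CertX :=
  ⟨[k12,k12,k16,k13,k14,k32],[(false,k0,[k0,k1,k2,k3,k4,k5])],[[[([z1,z1,z0,z0,z1,z1],z2)],[]]],
    [.old (.leafM k2 [k1,k4,k5,k0] [] [(k2,k3,z1,[y1,z1]),(k3,k2,z1,[y1,z1])]),
    .old (.lp [k6,k4,k4,k4,k4,k4] [k0,k0,k1,k1,k1,k1,k1,k1,k1,k1,k1,k1] k0 [] k16 k5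
    [[(k10,k5),(k1,k6)],[(k8,k5),(k9,k5)],[(k6,k4),(k11,k4)],[(k8,k4),(k9,k4)],[(k6,k4),(k11,k4)],[(k4,k4),(k7,k4)],
    [(k4,k4),(k7,k4)],[(k3,k4),(k5,k4)],[(k2,k4),(k0,k5)],[(k2,k4),(k0,k5)],[(k3,k4),(k5,k4)],[(k10,k4),(k1,k5)]]
    [] k0
    [[k0,k0,k1,k1,k0,k0]]
    [.ref k0 k0 [(z1,[y1,z1])]])]⟩

/-- classes `0 0 1 0 0 2`, types `N0 N0 S0 N2 N2 S0` -/
noncomputable def cU6_868 : CertX :=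
  ⟨[k12,k12,k16,k14,k14,k32],[(false,k0,[k0,k1,k2,k3,k4,k5])],[[[([z1,z0,z1,z1,z0,z1],z2)],[]]],
    [.old (.leafM k2 [k2,k3,k5,k0] [] [(k4,k1,z1,[y1,z1]),(k1,k4,z1,[y1,z1])]),
    .old (.lp [k2,k2,k2,k2,k2,k2] [k0,k0,k0,k0,k0,k0,k0,k0,k0,k0,k0,k0] k0 [] k8 k5
    [[(k1,k2),(k10,k2)],[(k6,k2),(k8,k2)],[(k9,k2),(k11,k2)],[(k6,k2),(k8,k2)],[(k9,k2),(k11,k2)],[(k4,k2),(k7,k2)],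
    [(k4,k2),(k7,k2)],[(k0,k2),(k2,k2)],[(k3,k2),(k5,k2)],[(k0,k2),(k2,k2)],[(k3,k2),(k5,k2)],[(k1,k2),(k10,k2)]]
    [] k0
    [[k0,k1,k0,k0,k1,k0]]
    [.ref k0 k0 [(z1,[y1,z1])]])]⟩

/-- classes `0 0 1 0 0 2`, types `N0 N1 C0 N0 N1 C0` -/
noncomputable def cU6_869 : CertX :=
  ⟨[k12,k13,k20,k12,k13,k36],[(false,k3,[k3,k4,k5,k0,k1,k2]),(false,k0,[k0,k1,k2,k3,k4,k5])],[[[([z1,z0,z0,z0,z0,z1],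
    z1),([z0,z1,z0,z0,z1,z0],z1)],[([z1,z0,z0,z0,z0,z1],z2)],[([z1,z0,z0,z0,z0,z1],z1),([z0,z1,z0,z0,z1,z0],z2)],
    [([z1,z0,z1,z1,z0,z1],z2)],[]]],
    [.old (.leafM k4 [k0,k1,k4,k5] [(z1,[z0,z1])] [(k2,k3,z1,[y1,y1,z1]),(k3,k2,z1,[y1,y1,z1])]),
    .old (.lp [(nat_lit 404),k154,k0,k192,k190,k0] [k0,k0,k125,k125,(nat_lit 202),(nat_lit 202),k106,k106,k107,k107,
    (nat_lit 272),k132] k0 [[k0,k0,k106],[k0,k0,k0,k0,k0,k0,k0,k0,k0,k76],[k0,k0,k0,k0,k0,k0,k48],[k0,k106],[],[],[k0,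
    k0,k0,k0,k0,k0,k0,k0,k70],[k0,k0,k0,k48],[k76],[k0,k0,k0,k0,k0,k0,k0,k70]] (nat_lit 480) k6
    [[(k10,k132)],[(k5,k96),(k11,(nat_lit 348))],[(k8,k96),(k2,(nat_lit 260))],[(k9,k124),(k3,(nat_lit 260))],[(k0,
    k96),(k6,k144)],[(k7,k96)],[(k4,k96)],[(k11,k96),(k5,k144)],[(k2,k124),(k8,(nat_lit 260))],[(k3,k96),(k9,
    (nat_lit 260))],[(k6,k96),(k0,(nat_lit 348))],[(k1,k132)]]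
    [] k0
    [[k1,k0,k1,k1,k0,k1],[k0,k1,k0,k0,k1,k0],[k0,k2,k0,k0,k2,k0],[k0,k0,k1,k1,k0,k0]]
    [.contra [z1,y1],.contra [y1,y1,z1],.ref k0 k0 [(z2,[y1,y2,z2]),(z2,[z1])],.contra [y1,y1,z1]]),
    .old (.leafM k4 [k0,k2,k3,k5] [(z1,[y1,y1,z1])] [(k1,k4,z1,[z0,z1]),(k4,k1,z1,[z0,z1])]),
    .old (.lp [k14,k8,k0,k10,k14,k0] [k0,k0,k3,k3,k7,k7,k2,k2,k0,k0,k7,k7] k0 [[k0,k0,k0,k0,k0,k0,k0,k0,k2],[],[],[],[],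
    [],[],[],[],[k0,k2]] k24 k6
    [[(k10,k7)],[(k11,k5),(k5,k7)],[(k2,k8),(k8,k13)],[(k3,k8),(k9,k11)],[(k6,k5),(k0,k7)],[(k7,k5)],[(k4,k5)],[(k5,
    k5),(k11,k5)],[(k2,k11),(k8,k14)],[(k3,k13),(k9,k14)],[(k0,k5),(k6,k5)],[(k1,k7)]]
    [] k0
    [[k1,k0,k0,k0,k0,k1],[k0,k2,k0,k0,k0,k0],[k0,k0,k1,k1,k0,k0],[k0,k0,k2,k2,k0,k0]]
    [.contra [y1,z1],.contra [z1],.contra [y1,z1],.ref k2 k1 [(z2,[y1,z2]),(z1,[z0,y1,z1])]]),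
    .old (.lp [k6,k4,k0,k6,k6,k0] [k0,k0,k1,k1,k3,k3,k0,k0,k0,k0,k3,k3] k0 [] k12 k5
    [[(k10,k3)],[(k5,k3),(k11,k3)],[(k2,k4),(k8,k5)],[(k3,k4),(k9,k5)],[(k0,k3),(k6,k3)],[(k7,k3)],[(k4,k3)],[(k5,k3),
    (k11,k3)],[(k2,k5),(k8,k6)],[(k3,k5),(k9,k6)],[(k0,k3),(k6,k3)],[(k1,k3)]]
    [] k0
    [[k1,k0,k0,k0,k0,k1],[k0,k2,k0,k0,k0,k0],[k0,k1,k0,k0,k1,k0],[k0,k0,k1,k1,k0,k0]]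
    [.ref k1 k1 [(z1,[z1])],.contra [z1],.ref k3 k1 [(z1,[y1,z1])],.ref k1 k0 [(z1,[z1])]])]⟩

/-- classes `0 0 1 0 0 2`, types `N0 N1 C0 N0 N1 S0` -/
noncomputable def cU6_870 : CertX :=
  ⟨[k12,k13,k20,k12,k13,k32],[(false,k0,[k0,k1,k2,k3,k4,k5])],[[[([z1,z0,z0,z0,z0,z1],z1),([z0,z1,z0,z0,z1,z0],z1)],
    [([z1,z1,z0,z0,z1,z1],z2)],[([z1,z0,z0,z0,z0,z1],z1),([z0,z1,z0,z0,z1,z0],z2)],[([z1,z0,z1,z1,z0,z1],z2)],[([z1,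
    z0,z0,z0,z0,z1],z2),([z0,z1,z0,z0,z1,z0],z1)],[([z1,z0,z0,z0,z0,z1],z2)],[]]],
    [.old (.leafM k4 [k0,k1,k4,k5] [(z1,[z0,z1])] [(k2,k3,z1,[y1,y1,z1]),(k3,k2,z1,[y1,y1,z1])]),
    .old (.lp [(nat_lit 31370064),(nat_lit 78425160),k0,(nat_lit 132084480),(nat_lit 34560240),
    (nat_lit 31370064)] [(nat_lit 50357208),(nat_lit 50357208),(nat_lit 26829660),(nat_lit 26829660),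
    (nat_lit 88916245),(nat_lit 43168235),k0,k0,(nat_lit 48762120),(nat_lit 48762120),(nat_lit 50357208),
    (nat_lit 50357208)] k0 [[k0,k0,(nat_lit 7129560)],[k0,k0,k0,k0,k0,k0,k0,k0,k0,(nat_lit 15685032)],[k0,k0,k0,k0,k0,
    k0,(nat_lit 24765840)],[k0,(nat_lit 7129560)],[],[],[k0,k0,k0,k0,k0,k0,k0,k0,(nat_lit 50310480)],[k0,k0,k0,
    (nat_lit 24765840)],[(nat_lit 15685032)],[k0,k0,k0,k0,k0,k0,k0,(nat_lit 50310480)]] (nat_lit 156850320) k6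
    [[(k1,(nat_lit 31370064)),(k10,(nat_lit 31370064))],[(k5,(nat_lit 31429477)),(k11,(nat_lit 47055096))],[(k8,
    (nat_lit 40807668)),(k2,(nat_lit 85554720))],[(k9,(nat_lit 31726860)),(k3,(nat_lit 85554720))],[(k0,
    (nat_lit 31429477)),(k6,(nat_lit 113682085))],[(k7,(nat_lit 43168235))],[(k4,(nat_lit 43168235))],[(k11,
    (nat_lit 31416792)),(k5,(nat_lit 113682085))],[(k2,(nat_lit 31726860)),(k8,(nat_lit 84870720))],[(k3,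
    (nat_lit 40807668)),(k9,(nat_lit 84870720))],[(k6,(nat_lit 31416792)),(k0,(nat_lit 47055096))],[(k1,
    (nat_lit 31370064)),(k10,(nat_lit 31370064))]]
    [] k0
    [[k1,k0,k0,k0,k0,k1],[k1,k0,k1,k1,k0,k1],[k0,k1,k0,k0,k1,k0],[k0,k2,k0,k0,k2,k0]]
    [.contra [y1,z1],.contra [z1,z1,y1],.contra [y1,z1],.ref k0 k0 [(z2,[y1,z2]),(z2,[z1])]]),
    .old (.leafM k4 [k0,k2,k3,k5] [(z1,[y1,y1,z1])] [(k1,k4,z1,[z0,z1]),(k4,k1,z1,[z0,z1])]),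
    .old (.lp [k24,k70,k48,k0,k40,k48] [k23,k23,k0,k0,k11,k11,k35,k35,k15,k15,k11,k11] k0 [[k0,k0,k0,k0,k0,k0,k0,k0,k10],
    [],[],[],[],[],[],[],[],[k0,k10]] k120 k6
    [[(k1,k24),(k10,k36)],[(k11,k26),(k5,k36)],[(k8,k65),(k2,k70)],[(k9,k55),(k3,k70)],[(k6,k24),(k0,k36)],[(k7,k24)],
    [(k4,k24)],[(k5,k24),(k11,k24)],[(k8,k40),(k2,k55)],[(k9,k40),(k3,k65)],[(k6,k24),(k0,k26)],[(k1,k36),(k10,k48)]]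
    [] k0
    [[k1,k0,k0,k0,k0,k1],[k0,k0,k1,k1,k0,k0],[k0,k0,k2,k2,k0,k0],[k0,k0,k0,k0,k2,k0]]
    [.contra [y1,z1],.contra [y1,z1],.ref k2 k0 [(z2,[y1,z2]),(z1,[z0,y1,z1])],.contra [y1,y2,z2]]),
    .old (.leafM k4 [k1,k2,k3,k4] [(z1,[y1,y1,z1])] [(k5,k0,z1,[z1]),(k0,k5,z1,[z1])]),
    .old (.lp [k48,k130,k48,k48,k42,k154] [k88,k88,k47,k47,k88,k88,k88,k88,k91,k91,k70,k0] k0 [[],[k0,k0,k0,k0,k0,k0,k0,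
    k0,k0,k38],[k0,k0,k0,k0,k0,k0,k24],[],[],[],[k0,k0,k0,k0,k0,k0,k0,k0,k88],[k0,k0,k0,k24],[k38],[k0,k0,k0,k0,k0,k0,
    k0,k88]] (nat_lit 240) k6
    [[(k1,k48),(k10,k66)],[(k5,k48),(k11,k174)],[(k8,k48),(k2,k130)],[(k9,k62),(k3,k130)],[(k0,k48),(k6,k72)],[(k7,
    k48)],[(k4,k48)],[(k11,k48),(k5,k72)],[(k2,k62),(k8,k130)],[(k3,k48),(k9,k130)],[(k6,k48),(k0,k174)],[(k1,k66),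
    (k10,k84)]]
    [] k0
    [[k1,k0,k1,k1,k0,k1],[k0,k1,k0,k0,k1,k0],[k0,k2,k0,k0,k2,k0],[k0,k0,k1,k1,k0,k0]]
    [.contra [z1,y1],.contra [y1,y1,z1],.ref k4 k0 [(z1,[z0,z1]),(z2,[z1])],.contra [y1,y1,z1]]),
    .old (.lp [k6,k12,k6,k6,k8,k6] [k3,k3,k0,k0,k3,k3,k3,k3,k2,k2,k3,k3] k0 [] k24 k5
    [[(k1,k6),(k10,k6)],[(k5,k6),(k11,k6)],[(k8,k10),(k2,k12)],[(k9,k10),(k3,k12)],[(k0,k6),(k6,k6)],[(k7,k6)],[(k4,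
    k6)],[(k5,k6),(k11,k6)],[(k8,k8),(k2,k10)],[(k9,k8),(k3,k10)],[(k0,k6),(k6,k6)],[(k1,k6),(k10,k6)]]
    [] k0
    [[k1,k0,k0,k0,k0,k1],[k0,k1,k0,k0,k1,k0],[k0,k0,k1,k1,k0,k0],[k0,k0,k0,k0,k2,k0]]
    [.ref k5 k0 [(z1,[z1])],.ref k3 k0 [(z1,[y1,z1])],.ref k1 k0 [(z1,[y1,z1])],.contra [z1]])]⟩

/-- classes `0 0 1 0 0 2`, types `N0 N1 C0 N0 N2 C0` -/
noncomputable def cU6_871 : CertX :=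
  ⟨[k12,k13,k20,k12,k14,k36],[(false,k0,[k0,k1,k2,k3,k4,k5])],[[[([z1,z1,z0,z0,z1,z1],z2)],[]]],
    [.old (.leafM k2 [k1,k4,k5,k0] [] [(k2,k3,z1,[y1,z1]),(k3,k2,z1,[y1,z1])]),
    .old (.lp [k6,k6,k0,k6,k4,k0] [k0,k0,k0,k0,k3,k3,k0,k0,k1,k1,k3,k3] k0 [[],[],[],[],[],[],[k0,k0,k0,k0,k0,k0,k0,k0,k0,
    k2],[],[k0,k0,k0,k0,k0,k0,k0,k2]] k12 k5
    [[(k10,k3)],[(k5,k3),(k8,k5)],[(k11,k3),(k2,k6)],[(k9,k5),(k3,k6)],[(k0,k3),(k6,k3)],[(k7,k3)],[(k4,k3)],[(k5,k3),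
    (k8,k3)],[(k11,k4),(k2,k5)],[(k6,k3),(k0,k5)],[(k3,k3),(k9,k4)],[(k1,k3)]]
    [] k0
    [[k0,k0,k1,k1,k0,k0]]
    [.ref k0 k0 [(z1,[y1,z1])]])]⟩

/-- classes `0 0 1 0 0 2`, types `N0 N1 C0 N0 N2 S0` -/
noncomputable def cU6_872 : CertX :=
  ⟨[k12,k13,k20,k12,k14,k32],[(false,k0,[k0,k1,k2,k3,k4,k5])],[[[([z1,z1,z0,z0,z1,z1],z2)],[]]],
    [.old (.leafM k2 [k1,k4,k5,k0] [] [(k2,k3,z1,[y1,z1]),(k3,k2,z1,[y1,z1])]),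
    .old (.lp [k10,k10,k6,k6,k6,k6] [k0,k0,k0,k0,k2,k2,k2,k2,k2,k2,k2,k2] k0 [[k0,k0,k2],[k0,k0,k0,k0,k0,k0,k0,k0,k2],[],
    [k0,k2],[],[],[],[],[],[k2]] k24 k5
    [[(k10,k8),(k1,k10)],[(k5,k6),(k8,k10)],[(k11,k6),(k2,k12)],[(k9,k8),(k3,k12)],[(k0,k6),(k6,k6)],[(k7,k6)],[(k4,
    k6)],[(k5,k6),(k8,k6)],[(k11,k6),(k2,k8)],[(k6,k6),(k0,k10)],[(k3,k6),(k9,k6)],[(k10,k6),(k1,k8)]]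
    [] k0
    [[k0,k0,k1,k1,k0,k0]]
    [.ref k0 k0 [(z1,[y1,z1])]])]⟩

/-- classes `0 0 1 0 0 2`, types `N0 N1 C0 N1 N0 C0` -/
noncomputable def cU6_873 : CertX :=
  ⟨[k12,k13,k20,k13,k12,k36],[],[[[]]],
    [.old (.lp [k4,k6,k2,k4,k4,k2] [k1,k1,k0,k0,k2,k2,k1,k1,k1,k1,k2,k2] k0 [] k12 k5
    [[(k10,k3)],[(k5,k3),(k9,k4)],[(k6,k5),(k2,k6)],[(k11,k4),(k3,k6)],[(k0,k3),(k8,k3)],[(k7,k3)],[(k4,k3)],[(k11,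
    k3),(k3,k5)],[(k0,k4),(k8,k4)],[(k5,k3),(k9,k4)],[(k6,k3),(k2,k4)],[(k1,k3)]]
    [] k0
    [[k0,k0,k0,k0,k2,k0]]
    [.contra [z1]])]⟩

/-- classes `0 0 1 0 0 2`, types `N0 N1 C0 N1 N0 S0` -/
noncomputable def cU6_874 : CertX :=
  ⟨[k12,k13,k20,k13,k12,k32],[],[[[]]],
    [.old (.lp [k6,k12,k6,k6,k8,k6] [k3,k3,k0,k0,k3,k3,k3,k3,k2,k2,k3,k3] k0 [] k24 k5
    [[(k1,k6),(k10,k6)],[(k5,k6),(k9,k7)],[(k6,k9),(k2,k12)],[(k11,k9),(k3,k12)],[(k0,k6),(k8,k7)],[(k7,k6)],[(k4,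
    k6)],[(k11,k6),(k3,k9)],[(k0,k7),(k8,k8)],[(k5,k7),(k9,k8)],[(k6,k6),(k2,k9)],[(k1,k6),(k10,k6)]]
    [] k0
    [[k0,k0,k0,k0,k2,k0]]
    [.contra [z1]])]⟩

/-- classes `0 0 1 0 0 2`, types `N0 N1 C0 N1 N3 C0` -/
noncomputable def cU6_875 : CertX :=
  ⟨[k12,k13,k20,k13,k15,k36],[],[[[]]],
    [.old (.lp [k2,k4,k2,k2,k2,k2] [k1,k1,k0,k0,k1,k1,k1,k1,k1,k1,k1,k1] k0 [] k8 k5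
    [[(k10,k2)],[(k5,k2),(k9,k2)],[(k6,k3),(k2,k4)],[(k8,k3),(k3,k4)],[(k0,k2),(k11,k2)],[(k7,k2)],[(k4,k2)],[(k8,k2),
    (k3,k3)],[(k0,k2),(k11,k2)],[(k6,k2),(k2,k3)],[(k5,k2),(k9,k2)],[(k1,k2)]]
    [] k0
    []
    [])]⟩

/-- classes `0 0 1 0 0 2`, types `N0 N1 C0 N1 N3 S0` -/
noncomputable def cU6_876 : CertX :=
  ⟨[k12,k13,k20,k13,k15,k32],[],[[[]]],
    [.old (.lp [k2,k4,k2,k2,k2,k2] [k1,k1,k0,k0,k1,k1,k1,k1,k1,k1,k1,k1] k0 [] k8 k5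
    [[(k1,k2),(k10,k2)],[(k5,k2),(k9,k2)],[(k6,k3),(k2,k4)],[(k8,k3),(k3,k4)],[(k0,k2),(k11,k2)],[(k7,k2)],[(k4,k2)],
    [(k8,k2),(k3,k3)],[(k0,k2),(k11,k2)],[(k6,k2),(k2,k3)],[(k5,k2),(k9,k2)],[(k1,k2),(k10,k2)]]
    [] k0
    []
    [])]⟩

/-- classes `0 0 1 0 0 2`, types `N0 N1 C0 N2 N0 S0` -/
noncomputable def cU6_877 : CertX :=
  ⟨[k12,k13,k20,k14,k12,k32],[],[[[]]],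
    [.old (.lp [k2,k4,k2,k2,k2,k2] [k1,k1,k0,k0,k1,k1,k1,k1,k1,k1,k1,k1] k0 [] k8 k5
    [[(k1,k2),(k10,k2)],[(k5,k2),(k6,k2)],[(k9,k3),(k2,k4)],[(k11,k3),(k3,k4)],[(k0,k2),(k8,k2)],[(k7,k2)],[(k4,k2)],
    [(k0,k2),(k8,k2)],[(k11,k2),(k3,k3)],[(k5,k2),(k6,k2)],[(k9,k2),(k2,k3)],[(k1,k2),(k10,k2)]]
    [] k0
    []
    [])]⟩

/-- classes `0 0 1 0 0 2`, types `N0 N1 C0 N2 N3 C0` -/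
noncomputable def cU6_878 : CertX :=
  ⟨[k12,k13,k20,k14,k15,k36],[(false,k0,[k0,k1,k2,k3,k4,k5])],[[[([z1,z0,z1,z1,z0,z1],z2)],[]]],
    [.old (.leafM k2 [k2,k3,k5,k0] [] [(k4,k1,z1,[y1,z1]),(k1,k4,z1,[y1,z1])]),
    .old (.lp [k6,k12,k6,k6,k8,k6] [k3,k3,k0,k0,k3,k3,k3,k3,k2,k2,k3,k3] k0 [] k24 k5
    [[(k10,k6)],[(k5,k6),(k6,k6)],[(k9,k10),(k2,k12)],[(k8,k10),(k3,k12)],[(k0,k6),(k11,k6)],[(k7,k6)],[(k4,k6)],[(k0,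
    k6),(k11,k6)],[(k8,k8),(k3,k10)],[(k9,k8),(k2,k10)],[(k5,k6),(k6,k6)],[(k1,k6)]]
    [] k0
    [[k0,k1,k0,k0,k1,k0],[k0,k0,k0,k0,k2,k0]]
    [.ref k0 k0 [(z1,[y1,z1])],.contra [z1]])]⟩

/-- classes `0 0 1 0 0 2`, types `N0 N1 C0 N2 N3 S0` -/
noncomputable def cU6_879 : CertX :=
  ⟨[k12,k13,k20,k14,k15,k32],[(false,k0,[k0,k1,k2,k3,k4,k5])],[[[([z1,z0,z1,z1,z0,z1],z2)],[]]],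
    [.old (.leafM k2 [k2,k3,k5,k0] [] [(k4,k1,z1,[y1,z1]),(k1,k4,z1,[y1,z1])]),
    .old (.lp [k6,k12,k6,k6,k8,k6] [k3,k3,k0,k0,k3,k3,k3,k3,k2,k2,k3,k3] k0 [] k24 k5
    [[(k1,k6),(k10,k6)],[(k5,k6),(k6,k6)],[(k9,k10),(k2,k12)],[(k8,k10),(k3,k12)],[(k0,k6),(k11,k6)],[(k7,k6)],[(k4,
    k6)],[(k0,k6),(k11,k6)],[(k8,k8),(k3,k10)],[(k9,k8),(k2,k10)],[(k5,k6),(k6,k6)],[(k1,k6),(k10,k6)]]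
    [] k0
    [[k0,k1,k0,k0,k1,k0],[k0,k0,k0,k0,k2,k0]]
    [.ref k0 k0 [(z1,[y1,z1])],.contra [z1]])]⟩

/-- classes `0 0 1 0 0 2`, types `N0 N1 C0 N3 N1 S0` -/
noncomputable def cU6_880 : CertX :=
  ⟨[k12,k13,k20,k15,k13,k32],[(false,k0,[k0,k1,k2,k3,k4,k5])],[[[([z1,z0,z0,z0,z0,z1],z2)],[]]],
    [.old (.leafM k2 [k2,k3,k4,k1] [] [(k5,k0,z1,[z1]),(k0,k5,z1,[z1])]),
    .old (.lp [k6,k10,k10,k6,k6,k6] [k2,k2,k0,k0,k0,k0,k2,k2,k2,k2,k2,k2] k0 [[k0,k0,k2],[],[k0,k0,k0,k0,k0,k0,k0,k2],[k0,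
    k2],[],[],[k0,k0,k0,k2]] k24 k5
    [[(k1,k6),(k10,k6)],[(k5,k6),(k11,k6)],[(k8,k8),(k2,k12)],[(k6,k6),(k3,k12)],[(k0,k6),(k9,k10)],[(k7,k8)],[(k4,
    k8)],[(k2,k6),(k8,k6)],[(k11,k6),(k5,k10)],[(k6,k6),(k3,k8)],[(k0,k6),(k9,k6)],[(k1,k6),(k10,k6)]]
    [] k0
    [[k1,k0,k0,k0,k0,k1]]
    [.ref k0 k0 [(z1,[z1])]])]⟩

/-- classes `0 0 1 0 0 2`, types `N0 N1 C0 N3 N2 C0` -/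
noncomputable def cU6_881 : CertX :=
  ⟨[k12,k13,k20,k15,k14,k36],[],[[[]]],
    [.old (.lp [k4,k6,k2,k4,k4,k2] [k1,k1,k0,k0,k2,k2,k1,k1,k1,k1,k2,k2] k0 [] k12 k5
    [[(k10,k3)],[(k5,k3),(k8,k4)],[(k11,k4),(k2,k6)],[(k6,k5),(k3,k6)],[(k0,k3),(k9,k3)],[(k7,k3)],[(k4,k3)],[(k11,
    k3),(k2,k5)],[(k5,k3),(k8,k4)],[(k0,k4),(k9,k4)],[(k6,k3),(k3,k4)],[(k1,k3)]]
    [] k0
    [[k0,k0,k0,k0,k2,k0]]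
    [.contra [z1]])]⟩

/-- classes `0 0 1 0 0 2`, types `N0 N1 C0 N3 N2 S0` -/
noncomputable def cU6_882 : CertX :=
  ⟨[k12,k13,k20,k15,k14,k32],[],[[[]]],
    [.old (.lp [k6,k12,k6,k6,k8,k6] [k3,k3,k0,k0,k3,k3,k3,k3,k2,k2,k3,k3] k0 [] k24 k5
    [[(k1,k6),(k10,k6)],[(k5,k6),(k8,k7)],[(k11,k9),(k2,k12)],[(k6,k9),(k3,k12)],[(k0,k6),(k9,k7)],[(k7,k6)],[(k4,
    k6)],[(k11,k6),(k2,k9)],[(k5,k7),(k8,k8)],[(k0,k7),(k9,k8)],[(k6,k6),(k3,k9)],[(k1,k6),(k10,k6)]]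
    [] k0
    [[k0,k0,k0,k0,k2,k0]]
    [.contra [z1]])]⟩

/-- classes `0 0 1 0 0 2`, types `N0 N1 S0 N0 N1 S0` -/
noncomputable def cU6_883 : CertX :=
  ⟨[k12,k13,k16,k12,k13,k32],[(false,k3,[k3,k4,k5,k0,k1,k2]),(false,k0,[k0,k1,k2,k3,k4,k5])],[[[([z1,z0,z0,z0,z0,z1],
    z1),([z0,z1,z0,z0,z1,z0],z1)],[([z1,z0,z0,z0,z0,z1],z2)],[([z1,z0,z0,z0,z0,z1],z1),([z0,z1,z0,z0,z1,z0],z2)],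
    [([z1,z0,z1,z1,z0,z1],z2)],[]]],
    [.old (.leafM k4 [k0,k1,k4,k5] [(z1,[z0,z1])] [(k2,k3,z1,[y1,y1,z1]),(k3,k2,z1,[y1,y1,z1])]),
    .old (.lp [k104,k78,k48,k48,k94,k98] [k0,k0,k13,k13,k28,k28,k28,k28,k5,k5,k5,k1] k0 [[k0,k0,k28],[k0,k0,k0,k0,k0,k0,
    k0,k0,k0,k38],[],[k0,k28],[],[],[k0,k0,k0,k0,k0,k0,k0,k0,k26],[],[k38],[k0,k0,k0,k0,k0,k0,k0,
    k26]] (nat_lit 240) k6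
    [[(k10,k99),(k1,k104)],[(k5,k48),(k11,k141)],[(k8,k48),(k2,k106)],[(k9,k86),(k3,k106)],[(k0,k48),(k6,k48)],[(k4,
    k48),(k7,k48)],[(k4,k48),(k7,k48)],[(k5,k48),(k11,k49)],[(k2,k86),(k8,k120)],[(k3,k48),(k9,k120)],[(k6,k49),(k0,
    k141)],[(k10,k94),(k1,k99)]]
    [] k0
    [[k0,k2,k0,k0,k0,k0],[k0,k1,k0,k0,k1,k0],[k0,k0,k1,k1,k0,k0],[k0,k0,k2,k2,k0,k0]]
    [.contra [z1],.contra [y1,y1,z1],.contra [y1,y1,z1],.ref k0 k0 [(z2,[z1]),(z2,[y1,y2,z2])]]),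
    .old (.leafM k4 [k0,k2,k3,k5] [(z1,[y1,y1,z1])] [(k1,k4,z1,[z0,z1]),(k4,k1,z1,[z0,z1])]),
    .old (.lp [k36,k50,k24,k24,k60,k36] [k12,k12,k5,k5,k18,k18,k18,k18,k0,k0,k12,k12] k0 [[k0,k0,k0,k0,k0,k0,k0,k0,k10],
    [],[],[],[],[],[],[],[],[k0,k10]] k120 k6
    [[(k1,k36),(k10,k36)],[(k11,k26),(k5,k30)],[(k2,k50),(k8,k65)],[(k3,k50),(k9,k55)],[(k6,k24),(k0,k30)],[(k4,k24),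
    (k7,k24)],[(k4,k24),(k7,k24)],[(k5,k24),(k11,k30)],[(k2,k55),(k8,k60)],[(k9,k60),(k3,k65)],[(k0,k26),(k6,k30)],
    [(k1,k36),(k10,k36)]]
    [] k0
    [[k1,k0,k0,k0,k0,k1],[k0,k2,k0,k0,k0,k0],[k0,k0,k1,k1,k0,k0],[k0,k0,k2,k2,k0,k0]]
    [.contra [y1,z1],.contra [z1],.contra [y1,z1],.ref k2 k1 [(z2,[y1,z2]),(z1,[z0,y1,z1])]]),
    .old (.lp [k6,k8,k6,k6,k12,k6] [k3,k3,k2,k2,k3,k3,k3,k3,k0,k0,k3,k3] k0 [] k24 k5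
    [[(k1,k6),(k10,k6)],[(k5,k6),(k11,k6)],[(k2,k8),(k8,k10)],[(k3,k8),(k9,k10)],[(k0,k6),(k6,k6)],[(k4,k6),(k7,k6)],
    [(k4,k6),(k7,k6)],[(k5,k6),(k11,k6)],[(k2,k10),(k8,k12)],[(k3,k10),(k9,k12)],[(k0,k6),(k6,k6)],[(k1,k6),(k10,k6)]]
    [] k0
    [[k1,k0,k0,k0,k0,k1],[k0,k2,k0,k0,k0,k0],[k0,k1,k0,k0,k1,k0],[k0,k0,k1,k1,k0,k0]]
    [.ref k1 k1 [(z1,[z1])],.contra [z1],.ref k3 k1 [(z1,[y1,z1])],.ref k1 k0 [(z1,[z1])]])]⟩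

/-- classes `0 0 1 0 0 2`, types `N0 N1 S0 N0 N2 S0` -/
noncomputable def cU6_884 : CertX :=
  ⟨[k12,k13,k16,k12,k14,k32],[(false,k0,[k0,k1,k2,k3,k4,k5])],[[[([z1,z1,z0,z0,z1,z1],z2)],[]]],
    [.old (.leafM k2 [k1,k4,k5,k0] [] [(k2,k3,z1,[y1,z1]),(k3,k2,z1,[y1,z1])]),
    .old (.lp [k10,k10,k6,k6,k6,k6] [k0,k0,k0,k0,k2,k2,k2,k2,k2,k2,k2,k2] k0 [[k0,k0,k2],[k0,k0,k0,k0,k0,k0,k0,k0,k2],[],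
    [k0,k2],[],[],[],[],[],[k2]] k24 k5
    [[(k10,k8),(k1,k10)],[(k5,k6),(k8,k10)],[(k11,k6),(k2,k12)],[(k9,k8),(k3,k12)],[(k0,k6),(k6,k6)],[(k4,k6),(k7,
    k6)],[(k4,k6),(k7,k6)],[(k5,k6),(k8,k6)],[(k11,k6),(k2,k8)],[(k6,k6),(k0,k10)],[(k3,k6),(k9,k6)],[(k10,k6),(k1,
    k8)]]
    [] k0
    [[k0,k0,k1,k1,k0,k0]]
    [.ref k0 k0 [(z1,[y1,z1])]])]⟩

/-- classes `0 0 1 0 0 2`, types `N0 N1 S0 N1 N0 S0` -/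
noncomputable def cU6_885 : CertX :=
  ⟨[k12,k13,k16,k13,k12,k32],[],[[[]]],
    [.old (.lp [k6,k12,k6,k6,k8,k6] [k3,k3,k0,k0,k3,k3,k3,k3,k2,k2,k3,k3] k0 [] k24 k5
    [[(k1,k6),(k10,k6)],[(k5,k6),(k9,k7)],[(k6,k9),(k2,k12)],[(k11,k9),(k3,k12)],[(k0,k6),(k8,k7)],[(k4,k6),(k7,k6)],
    [(k4,k6),(k7,k6)],[(k11,k6),(k3,k9)],[(k0,k7),(k8,k8)],[(k5,k7),(k9,k8)],[(k6,k6),(k2,k9)],[(k1,k6),(k10,k6)]]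
    [] k0
    [[k0,k0,k0,k0,k2,k0]]
    [.contra [z1]])]⟩

/-- classes `0 0 1 0 0 2`, types `N0 N1 S0 N1 N3 S0` -/
noncomputable def cU6_886 : CertX :=
  ⟨[k12,k13,k16,k13,k15,k32],[],[[[]]],
    [.old (.lp [k2,k4,k2,k2,k2,k2] [k1,k1,k0,k0,k1,k1,k1,k1,k1,k1,k1,k1] k0 [] k8 k5
    [[(k1,k2),(k10,k2)],[(k5,k2),(k9,k2)],[(k6,k3),(k2,k4)],[(k8,k3),(k3,k4)],[(k0,k2),(k11,k2)],[(k4,k2),(k7,k2)],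
    [(k4,k2),(k7,k2)],[(k8,k2),(k3,k3)],[(k0,k2),(k11,k2)],[(k6,k2),(k2,k3)],[(k5,k2),(k9,k2)],[(k1,k2),(k10,k2)]]
    [] k0
    []
    [])]⟩

/-- classes `0 0 1 0 0 2`, types `N0 N1 S0 N2 N3 S0` -/
noncomputable def cU6_887 : CertX :=
  ⟨[k12,k13,k16,k14,k15,k32],[(false,k0,[k0,k1,k2,k3,k4,k5])],[[[([z1,z0,z1,z1,z0,z1],z2)],[]]],
    [.old (.leafM k2 [k2,k3,k5,k0] [] [(k4,k1,z1,[y1,z1]),(k1,k4,z1,[y1,z1])]),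
    .old (.lp [k6,k8,k6,k6,k12,k6] [k3,k3,k2,k2,k3,k3,k3,k3,k0,k0,k3,k3] k0 [] k24 k5
    [[(k1,k6),(k10,k6)],[(k5,k6),(k6,k6)],[(k2,k8),(k9,k10)],[(k3,k8),(k8,k10)],[(k0,k6),(k11,k6)],[(k4,k6),(k7,k6)],
    [(k4,k6),(k7,k6)],[(k0,k6),(k11,k6)],[(k3,k10),(k8,k12)],[(k2,k10),(k9,k12)],[(k5,k6),(k6,k6)],[(k1,k6),(k10,k6)]]
    [] k0
    [[k0,k2,k0,k0,k0,k0],[k0,k1,k0,k0,k1,k0]]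
    [.contra [z1],.ref k0 k0 [(z1,[y1,z1])]])]⟩

/-- classes `0 0 1 0 0 2`, types `N0 N1 S0 N3 N2 S0` -/
noncomputable def cU6_888 : CertX :=
  ⟨[k12,k13,k16,k15,k14,k32],[],[[[]]],
    [.old (.lp [k6,k12,k6,k6,k8,k6] [k3,k3,k0,k0,k3,k3,k3,k3,k2,k2,k3,k3] k0 [] k24 k5
    [[(k1,k6),(k10,k6)],[(k5,k6),(k8,k7)],[(k11,k9),(k2,k12)],[(k6,k9),(k3,k12)],[(k0,k6),(k9,k7)],[(k4,k6),(k7,k6)],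
    [(k4,k6),(k7,k6)],[(k11,k6),(k2,k9)],[(k5,k7),(k8,k8)],[(k0,k7),(k9,k8)],[(k6,k6),(k3,k9)],[(k1,k6),(k10,k6)]]
    [] k0
    [[k0,k0,k0,k0,k2,k0]]
    [.contra [z1]])]⟩

/-- classes `0 0 1 0 0 2`, types `N0 N2 C0 N0 N2 C0` -/
noncomputable def cU6_889 : CertX :=
  ⟨[k12,k14,k20,k12,k14,k36],[(false,k0,[k0,k1,k2,k3,k4,k5])],[[[([z1,z0,z0,z0,z1,z1],z2),([z0,z1,z0,z0,y1,z0],z0)],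
    [([z1,z0,z0,z0,z1,z1],z2)],[]]],
    [.old (.tor k10 false k0 [(z1,[y1,y1,z1]),(z1,[y1,z0,z1]),(z1,[z1]),(z1,[z1,z1])]),
    .old (.lp [k12,k8,k6,k10,k6,k4] [k0,k0,k2,k2,k3,k3,k1,k1,k3,k3,k4,k4] k0 [[],[],[],[],[],[],[k0,k0,k0,k0,k0,k0,k0,k0,
    k0,k2],[],[k0,k0,k0,k0,k0,k0,k0,k2]] k24 k5
    [[(k10,k8)],[(k8,k9),(k2,k10)],[(k11,k6),(k5,k7)],[(k6,k9),(k0,k10)],[(k9,k6),(k3,k7)],[(k7,k8)],[(k4,k8)],[(k8,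
    k6),(k2,k9)],[(k5,k6),(k11,k7)],[(k6,k6),(k0,k9)],[(k3,k6),(k9,k7)],[(k1,k8)]]
    [] k0
    [[k0,k0,k1,k1,k1,k0]]
    [.ref k0 k0 [(z1,[z0,z1]),(z1,[y1,y1,z1])]]),
    .old (.lp [k14,k4,k8,k8,k8,k4] [k0,k0,k5,k5,k3,k3,k3,k3,k3,k3,k5,k5] k0 [[k0,k0,k0,k0,k0,k0,k0,k0,k0,k2],[],[],[],[],
    [],[],[],[k0,k2]] k24 k5
    [[(k10,k9)],[(k2,k9),(k8,k9)],[(k5,k6),(k11,k6)],[(k6,k6),(k0,k9)],[(k3,k6),(k9,k8)],[(k7,k8)],[(k4,k8)],[(k2,k6),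
    (k8,k8)],[(k11,k6),(k5,k8)],[(k6,k8),(k0,k9)],[(k3,k6),(k9,k6)],[(k1,k9)]]
    [] k0
    [[k0,k1,k1,k1,k0,k0]]
    [.ref k1 k0 [(z1,[y1,z1])]])]⟩

/-- classes `0 0 1 0 0 2`, types `N0 N2 C0 N0 N2 S0` -/
noncomputable def cU6_890 : CertX :=
  ⟨[k12,k14,k20,k12,k14,k32],[(false,k0,[k0,k1,k2,k3,k4,k5]),(true,k5,[k5,k4,k3,k2,k1,k0])],[[[([z1,z0,z0,z0,z1,z1],
    z2),([z0,z1,z0,z0,y1,z0],z0)],[([z1,z0,z0,z0,z1,z1],z2)],[]]],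
    [.old (.tor k10 false k0 [(z1,[y1,y1,z1]),(z1,[y1,z0,z1]),(z1,[z1]),(z1,[z1,z1])]),
    .old (.lp [k6,k10,k6,k6,k6,k12] [k3,k3,k1,k1,k3,k3,k3,k3,k3,k3,k0,k0] k0 [[k0,k0,k0,k2],[],[k0,k2]] k24 k5
    [[(k1,k6),(k10,k9)],[(k2,k6),(k8,k6)],[(k5,k10),(k11,k11)],[(k0,k6),(k6,k8)],[(k9,k6),(k3,k10)],[(k7,k6)],[(k4,
    k6)],[(k8,k6),(k2,k8)],[(k5,k6),(k11,k9)],[(k0,k6),(k6,k6)],[(k9,k9),(k3,k11)],[(k1,k9),(k10,k12)]]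
    [] k0
    [[k0,k0,k1,k1,k1,k0]]
    [.ref k0 k0 [(z1,[z0,z1]),(z1,[y1,y1,z1])]]),
    .old (.lp [k6,k10,k6,k6,k6,k12] [k3,k3,k1,k1,k3,k3,k3,k3,k3,k3,k0,k0] k0 [[k0,k0,k0,k2],[],[k0,k2]] k24 k5
    [[(k1,k6),(k10,k9)],[(k2,k6),(k8,k6)],[(k5,k10),(k11,k11)],[(k0,k6),(k6,k8)],[(k9,k6),(k3,k10)],[(k7,k6)],[(k4,
    k6)],[(k8,k6),(k2,k8)],[(k5,k6),(k11,k9)],[(k0,k6),(k6,k6)],[(k9,k9),(k3,k11)],[(k1,k9),(k10,k12)]]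
    [] k0
    [[k0,k0,k1,k1,k1,k0]]
    [.ref k1 k1 [(z1,[y1,z1])]])]⟩

/-- classes `0 0 1 0 0 2`, types `N0 N2 C0 N1 N3 C0` -/
noncomputable def cU6_891 : CertX :=
  ⟨[k12,k14,k20,k13,k15,k36],[],[[[]]],
    [.old (.lp [k2,k2,k2,k2,k2,k2] [k0,k0,k0,k0,k0,k0,k0,k0,k0,k0,k0,k0] k0 [] k8 k5
    [[(k10,k2)],[(k2,k2),(k9,k2)],[(k5,k2),(k6,k2)],[(k0,k2),(k11,k2)],[(k3,k2),(k8,k2)],[(k7,k2)],[(k4,k2)],[(k3,k2),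
    (k8,k2)],[(k0,k2),(k11,k2)],[(k5,k2),(k6,k2)],[(k2,k2),(k9,k2)],[(k1,k2)]]
    [] k0
    []
    [])]⟩

/-- classes `0 0 1 0 0 2`, types `N0 N2 C0 N1 N3 S0` -/
noncomputable def cU6_892 : CertX :=
  ⟨[k12,k14,k20,k13,k15,k32],[],[[[]]],
    [.old (.lp [k2,k2,k2,k2,k2,k2] [k0,k0,k0,k0,k0,k0,k0,k0,k0,k0,k0,k0] k0 [] k8 k5
    [[(k1,k2),(k10,k2)],[(k2,k2),(k9,k2)],[(k5,k2),(k6,k2)],[(k0,k2),(k11,k2)],[(k3,k2),(k8,k2)],[(k7,k2)],[(k4,k2)],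
    [(k3,k2),(k8,k2)],[(k0,k2),(k11,k2)],[(k5,k2),(k6,k2)],[(k2,k2),(k9,k2)],[(k1,k2),(k10,k2)]]
    [] k0
    []
    [])]⟩

/-- the certificates of this file -/
noncomputable def lU6_22 : List CertX :=
  [cU6_822, cU6_823, cU6_824, cU6_825, cU6_826, cU6_827, cU6_828, cU6_829, cU6_830, cU6_831, cU6_832, cU6_833,
      cU6_834, cU6_835, cU6_836, cU6_837, cU6_838, cU6_839, cU6_840, cU6_841, cU6_842, cU6_843, cU6_844,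
      cU6_845, cU6_846, cU6_847, cU6_848, cU6_849, cU6_850, cU6_851, cU6_852, cU6_853, cU6_854, cU6_855,
      cU6_856, cU6_857, cU6_858, cU6_859, cU6_860, cU6_861, cU6_862, cU6_863, cU6_864, cU6_865, cU6_866,
      cU6_867, cU6_868, cU6_869, cU6_870, cU6_871, cU6_872, cU6_873, cU6_874, cU6_875, cU6_876, cU6_877,
      cU6_878, cU6_879, cU6_880, cU6_881, cU6_882, cU6_883, cU6_884, cU6_885, cU6_886, cU6_887, cU6_888,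
      cU6_889, cU6_890, cU6_891, cU6_892]

theorem gU6_22 : allF (chkE 6 ttU6) lU6_22 = true := by
  decide +kernel

end Pool.Agent.Lib_MP_fa6e45
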