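import Pool.Agent.Lib_MP_fa6e45.CXT
import Pool.Agent.Lib_MP_fa6e45.HK

/-!
MP_fa6e45_co, stage 7: certificates (generated by a program).
-/

namespace Pool.Agent.Lib_MP_fa6e45

/-- classes `0 0 1 0 0 2`, types `N0 N2 C0 N2 N0 C0` -/
noncomputable def cU6_893 : CertX :=
  ⟨[k12,k14,k20,k14,k12,k36],[(false,k0,[k0,k1,k2,k3,k4,k5])],[[[([z1,z0,z1,z1,z0,z1],z2)],[]]],
    [.old (.leafM k2 [k2,k3,k5,k0] [] [(k4,k1,z1,[y1,z1]),(k1,k4,z1,[y1,z1])]),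
    .old (.lp [k0,k2,k0,k2,k0,k2] [k1,k1,k0,k0,k1,k1,k0,k0,k1,k1,k0,k0] k0 [] k4 k5
    [[(k10,k1)],[(k2,k1),(k6,k1)],[(k5,k1),(k9,k1)],[(k0,k1),(k8,k1)],[(k3,k1),(k11,k1)],[(k7,k1)],[(k4,k1)],[(k0,k1),
    (k8,k1)],[(k3,k1),(k11,k1)],[(k2,k1),(k6,k1)],[(k5,k1),(k9,k1)],[(k1,k1)]]
    [] k0
    [[k0,k1,k0,k0,k1,k0]]
    [.ref k0 k0 [(z1,[y1,z1])]])]⟩

/-- classes `0 0 1 0 0 2`, types `N0 N2 C0 N2 N0 S0` -/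
noncomputable def cU6_894 : CertX :=
  ⟨[k12,k14,k20,k14,k12,k32],[(false,k0,[k0,k1,k2,k3,k4,k5])],[[[([z1,z0,z1,z1,z0,z1],z2)],[]]],
    [.old (.leafM k2 [k2,k3,k5,k0] [] [(k4,k1,z1,[y1,z1]),(k1,k4,z1,[y1,z1])]),
    .old (.lp [k2,k2,k2,k2,k2,k2] [k0,k0,k0,k0,k0,k0,k0,k0,k0,k0,k0,k0] k0 [] k8 k5
    [[(k1,k2),(k10,k2)],[(k2,k2),(k6,k2)],[(k5,k2),(k9,k2)],[(k0,k2),(k8,k2)],[(k3,k2),(k11,k2)],[(k7,k2)],[(k4,k2)],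
    [(k0,k2),(k8,k2)],[(k3,k2),(k11,k2)],[(k2,k2),(k6,k2)],[(k5,k2),(k9,k2)],[(k1,k2),(k10,k2)]]
    [] k0
    [[k0,k1,k0,k0,k1,k0]]
    [.ref k0 k0 [(z1,[y1,z1])]])]⟩

/-- classes `0 0 1 0 0 2`, types `N0 N2 C0 N3 N1 C0` -/
noncomputable def cU6_895 : CertX :=
  ⟨[k12,k14,k20,k15,k13,k36],[(false,k3,[k3,k4,k5,k0,k1,k2]),(false,k0,[k0,k1,k2,k3,k4,k5])],[[[([z1,z0,z0,z0,z0,z1],
    z1),([z0,z1,z0,z0,z1,z0],z1)],[([z1,z0,z0,z0,z0,z1],z2)],[([z1,z0,z0,z0,z0,z1],z1),([z0,z1,z0,z0,z1,z0],z2)],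
    [([z1,z0,z1,z1,z0,z1],z2)],[]]],
    [.old (.leafM k4 [k0,k1,k4,k5] [(z1,[z0,z1])] [(k2,k3,z1,[y1,y1,z1]),(k3,k2,z1,[y1,y1,z1])]),
    .old (.lp [(nat_lit 3588),(nat_lit 1104),k0,(nat_lit 2448),(nat_lit 782),(nat_lit 1104)] [k0,k0,(nat_lit 1242),
    (nat_lit 1242),(nat_lit 1794),(nat_lit 1794),(nat_lit 570),(nat_lit 570),(nat_lit 1403),(nat_lit 1403),
    (nat_lit 1242),(nat_lit 1242)] k0 [[k0,k0,k0,(nat_lit 391)],[],[k0,(nat_lit 391)]] (nat_lit 4692) k6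
    [[(k10,(nat_lit 2346))],[(k2,(nat_lit 1955)),(k11,(nat_lit 2346))],[(k5,(nat_lit 943)),(k8,(nat_lit 943))],[(k9,
    (nat_lit 943)),(k0,(nat_lit 1955))],[(k3,(nat_lit 943)),(k6,(nat_lit 1224))],[(k7,(nat_lit 1224))],[(k4,
    (nat_lit 1224))],[(k5,(nat_lit 1224)),(k8,(nat_lit 1615))],[(k2,(nat_lit 943)),(k11,(nat_lit 943))],[(k3,
    (nat_lit 943)),(k6,(nat_lit 1615))],[(k9,(nat_lit 943)),(k0,(nat_lit 2346))],[(k1,(nat_lit 2346))]]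
    [] k0
    [[k0,k1,k0,k0,k1,k0],[k0,k2,k0,k0,k2,k0],[k0,k0,k1,k1,k0,k0]]
    [.contra [y1,y1,z1],.ref k0 k0 [(z2,[y1,y2,z2]),(z2,[z1])],.contra [y1,y1,z1]]),
    .old (.leafM k4 [k0,k2,k3,k5] [(z1,[y1,y1,z1])] [(k1,k4,z1,[z0,z1]),(k4,k1,z1,[z0,z1])]),
    .old (.lp [k10,k8,k0,k8,k12,k0] [k1,k1,k2,k2,k6,k6,k2,k2,k0,k0,k6,k6] k0 [] k20 k6
    [[(k10,k5)],[(k11,k5),(k2,k9)],[(k5,k4),(k8,k10)],[(k0,k9),(k9,k10)],[(k3,k4),(k6,k4)],[(k7,k4)],[(k4,k4)],[(k5,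
    k4),(k8,k10)],[(k11,k6),(k2,k10)],[(k3,k10),(k6,k10)],[(k0,k5),(k9,k6)],[(k1,k5)]]
    [] k0
    [[k1,k0,k0,k0,k0,k1],[k0,k0,k1,k1,k0,k0],[k0,k0,k2,k2,k0,k0]]
    [.contra [y1,z1],.contra [y1,z1],.ref k2 k1 [(z2,[y1,z2]),(z1,[z0,y1,z1])]]),
    .old (.lp [k0,k2,k0,k2,k0,k2] [k1,k1,k0,k0,k1,k1,k0,k0,k1,k1,k0,k0] k0 [] k4 k5
    [[(k10,k1)],[(k2,k1),(k11,k1)],[(k5,k1),(k8,k1)],[(k0,k1),(k9,k1)],[(k3,k1),(k6,k1)],[(k7,k1)],[(k4,k1)],[(k5,k1),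
    (k8,k1)],[(k2,k1),(k11,k1)],[(k3,k1),(k6,k1)],[(k0,k1),(k9,k1)],[(k1,k1)]]
    [] k0
    [[k1,k0,k0,k0,k0,k1],[k0,k1,k0,k0,k1,k0],[k0,k0,k1,k1,k0,k0]]
    [.ref k1 k1 [(z1,[z1])],.ref k3 k1 [(z1,[y1,z1])],.ref k1 k0 [(z1,[z1])]])]⟩

/-- classes `0 0 1 0 0 2`, types `N0 N2 C0 N3 N1 S0` -/
noncomputable def cU6_896 : CertX :=
  ⟨[k12,k14,k20,k15,k13,k32],[(false,k0,[k0,k1,k2,k3,k4,k5])],[[[([z1,z0,z0,z0,z0,z1],z1),([z0,z1,z0,z0,z1,z0],z1)],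
    [([z1,z1,z0,z0,z1,z1],z2)],[([z1,z0,z0,z0,z0,z1],z1),([z0,z1,z0,z0,z1,z0],z2)],[([z1,z0,z1,z1,z0,z1],z2)],[([z1,
    z0,z0,z0,z0,z1],z2),([z0,z1,z0,z0,z1,z0],z1)],[([z1,z0,z0,z0,z0,z1],z2)],[]]],
    [.old (.leafM k4 [k0,k1,k4,k5] [(z1,[z0,z1])] [(k2,k3,z1,[y1,y1,z1]),(k3,k2,z1,[y1,y1,z1])]),
    .old (.lp [k24,k58,k54,k66,k2,k26] [k21,k21,k4,k4,k6,k6,k0,k0,k32,k32,k20,k20] k0 [[],[],[],[],[],[],[k0,k0,k0,k0,k0,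
    k0,k0,k0,k0,k10],[],[k0,k0,k0,k0,k0,k0,k0,k10]] k120 k6
    [[(k1,k24),(k10,k25)],[(k11,k25),(k2,k41)],[(k8,k30),(k5,k56)],[(k9,k30),(k0,k41)],[(k3,k56),(k6,k60)],[(k7,k60)],
    [(k4,k60)],[(k8,k24),(k5,k60)],[(k11,k24),(k2,k30)],[(k6,k24),(k3,k30)],[(k9,k24),(k0,k25)],[(k1,k25),(k10,k26)]]
    [] k0
    [[k2,k0,k0,k0,k0,k2],[k1,k0,k0,k0,k0,k1],[k0,k1,k0,k0,k1,k0]]
    [.ref k0 k0 [(z2,[z1]),(z2,[y1,z2])],.contra [y1,z1],.contra [y1,z1]]),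
    .old (.leafM k4 [k0,k2,k3,k5] [(z1,[y1,y1,z1])] [(k1,k4,z1,[z0,z1]),(k4,k1,z1,[z0,z1])]),
    .old (.lp [k4,k16,k6,k4,k4,k4] [k6,k6,k0,k0,k5,k5,k6,k6,k6,k6,k6,k6] k0 [] k20 k6
    [[(k1,k4),(k10,k4)],[(k11,k4),(k2,k10)],[(k8,k10),(k5,k11)],[(k0,k10),(k9,k10)],[(k6,k5),(k3,k11)],[(k7,k5)],[(k4,
    k5)],[(k8,k4),(k5,k5)],[(k11,k4),(k2,k10)],[(k6,k4),(k3,k10)],[(k0,k4),(k9,k4)],[(k1,k4),(k10,k4)]]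
    [] k0
    [[k2,k0,k0,k0,k0,k2],[k1,k0,k0,k0,k0,k1],[k0,k0,k1,k1,k0,k0]]
    [.ref k2 k0 [(z2,[z1]),(z1,[z0,y1,z1])],.contra [y1,z1],.contra [y1,z1]]),
    .old (.leafM k4 [k1,k2,k3,k4] [(z1,[y1,y1,z1])] [(k5,k0,z1,[z1]),(k0,k5,z1,[z1])]),
    .old (.lp [k24,k50,k12,k48,k0,k96] [k36,k36,k23,k23,k42,k42,k24,k24,k48,k48,k0,k0] k0 [[k0,k0,k0,k10],[],[k0,
    k10]] k120 k6
    [[(k1,k24),(k10,k60)],[(k2,k27),(k11,k60)],[(k8,k25),(k5,k41)],[(k9,k25),(k0,k27)],[(k6,k30),(k3,k41)],[(k7,k30)],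
    [(k4,k30)],[(k8,k24),(k5,k30)],[(k2,k25),(k11,k48)],[(k6,k24),(k3,k25)],[(k9,k48),(k0,k60)],[(k1,k60),(k10,k96)]]
    [] k0
    [[k0,k1,k0,k0,k1,k0],[k0,k2,k0,k0,k2,k0],[k0,k0,k1,k1,k0,k0]]
    [.contra [y1,y1,z1],.ref k4 k0 [(z1,[z0,z1]),(z2,[z1])],.contra [y1,y1,z1]]),
    .old (.lp [k2,k2,k2,k2,k2,k2] [k0,k0,k0,k0,k0,k0,k0,k0,k0,k0,k0,k0] k0 [] k8 k5
    [[(k1,k2),(k10,k2)],[(k2,k2),(k11,k2)],[(k5,k2),(k8,k2)],[(k0,k2),(k9,k2)],[(k3,k2),(k6,k2)],[(k7,k2)],[(k4,k2)],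
    [(k5,k2),(k8,k2)],[(k2,k2),(k11,k2)],[(k3,k2),(k6,k2)],[(k0,k2),(k9,k2)],[(k1,k2),(k10,k2)]]
    [] k0
    [[k1,k0,k0,k0,k0,k1],[k0,k1,k0,k0,k1,k0],[k0,k0,k1,k1,k0,k0]]
    [.ref k5 k0 [(z1,[z1])],.ref k3 k0 [(z1,[y1,z1])],.ref k1 k0 [(z1,[y1,z1])]])]⟩

/-- classes `0 0 1 0 0 2`, types `N0 N2 S0 N0 N2 S0` -/
noncomputable def cU6_897 : CertX :=
  ⟨[k12,k14,k16,k12,k14,k32],[(false,k0,[k0,k1,k2,k3,k4,k5]),(true,k2,[k2,k1,k0,k5,k4,k3])],[[[([z1,z0,z0,z0,z1,z1],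
    z2),([z0,z1,z0,z0,y1,z0],z0)],[([z1,z0,z0,z0,z1,z1],z2)],[]]],
    [.old (.tor k10 false k0 [(z1,[y1,y1,z1]),(z1,[y1,z0,z1]),(z1,[z1]),(z1,[z1,z1])]),
    .old (.lp [k6,k10,k6,k6,k12,k6] [k3,k3,k1,k1,k3,k3,k3,k3,k0,k0,k3,k3] k0 [[k0,k0,k0,k2],[],[k0,k2]] k24 k5
    [[(k1,k6),(k10,k6)],[(k2,k6),(k8,k9)],[(k11,k8),(k5,k10)],[(k0,k6),(k6,k8)],[(k9,k9),(k3,k10)],[(k4,k6),(k7,k6)],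
    [(k4,k6),(k7,k6)],[(k2,k8),(k8,k9)],[(k5,k9),(k11,k9)],[(k0,k9),(k6,k9)],[(k3,k8),(k9,k9)],[(k1,k6),(k10,k6)]]
    [] k0
    [[k1,k1,k0,k0,k0,k1]]
    [.ref k0 k0 [(z1,[z0,z1]),(z1,[z1,y1])]]),
    .old (.lp [k6,k10,k6,k6,k12,k6] [k3,k3,k1,k1,k3,k3,k3,k3,k0,k0,k3,k3] k0 [[k0,k0,k0,k2],[],[k0,k2]] k24 k5
    [[(k1,k6),(k10,k6)],[(k2,k6),(k8,k9)],[(k11,k8),(k5,k10)],[(k0,k6),(k6,k8)],[(k9,k9),(k3,k10)],[(k4,k6),(k7,k6)],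
    [(k4,k6),(k7,k6)],[(k2,k8),(k8,k9)],[(k5,k9),(k11,k9)],[(k0,k9),(k6,k9)],[(k3,k8),(k9,k9)],[(k1,k6),(k10,k6)]]
    [] k0
    [[k1,k1,k0,k0,k0,k1]]
    [.ref k1 k1 [(z1,[y1,z1])]])]⟩

/-- classes `0 0 1 0 0 2`, types `N0 N2 S0 N1 N3 S0` -/
noncomputable def cU6_898 : CertX :=
  ⟨[k12,k14,k16,k13,k15,k32],[],[[[]]],
    [.old (.lp [k2,k2,k2,k2,k2,k2] [k0,k0,k0,k0,k0,k0,k0,k0,k0,k0,k0,k0] k0 [] k8 k5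
    [[(k1,k2),(k10,k2)],[(k2,k2),(k9,k2)],[(k5,k2),(k6,k2)],[(k0,k2),(k11,k2)],[(k3,k2),(k8,k2)],[(k4,k2),(k7,k2)],
    [(k4,k2),(k7,k2)],[(k3,k2),(k8,k2)],[(k0,k2),(k11,k2)],[(k5,k2),(k6,k2)],[(k2,k2),(k9,k2)],[(k1,k2),(k10,k2)]]
    [] k0
    []
    [])]⟩

/-- classes `0 0 1 0 0 2`, types `N0 N2 S0 N2 N0 S0` -/
noncomputable def cU6_899 : CertX :=
  ⟨[k12,k14,k16,k14,k12,k32],[(false,k0,[k0,k1,k2,k3,k4,k5])],[[[([z1,z0,z1,z1,z0,z1],z2)],[]]],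
    [.old (.leafM k2 [k2,k3,k5,k0] [] [(k4,k1,z1,[y1,z1]),(k1,k4,z1,[y1,z1])]),
    .old (.lp [k2,k2,k2,k2,k2,k2] [k0,k0,k0,k0,k0,k0,k0,k0,k0,k0,k0,k0] k0 [] k8 k5
    [[(k1,k2),(k10,k2)],[(k2,k2),(k6,k2)],[(k5,k2),(k9,k2)],[(k0,k2),(k8,k2)],[(k3,k2),(k11,k2)],[(k4,k2),(k7,k2)],
    [(k4,k2),(k7,k2)],[(k0,k2),(k8,k2)],[(k3,k2),(k11,k2)],[(k2,k2),(k6,k2)],[(k5,k2),(k9,k2)],[(k1,k2),(k10,k2)]]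
    [] k0
    [[k0,k1,k0,k0,k1,k0]]
    [.ref k0 k0 [(z1,[y1,z1])]])]⟩

/-- classes `0 0 1 0 0 2`, types `N0 N2 S0 N3 N1 S0` -/
noncomputable def cU6_900 : CertX :=
  ⟨[k12,k14,k16,k15,k13,k32],[(false,k3,[k3,k4,k5,k0,k1,k2]),(false,k0,[k0,k1,k2,k3,k4,k5])],[[[([z1,z0,z0,z0,z0,z1],
    z1),([z0,z1,z0,z0,z1,z0],z1)],[([z1,z0,z0,z0,z0,z1],z2)],[([z1,z0,z0,z0,z0,z1],z1),([z0,z1,z0,z0,z1,z0],z2)],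
    [([z1,z0,z1,z1,z0,z1],z2)],[]]],
    [.old (.leafM k4 [k0,k1,k4,k5] [(z1,[z0,z1])] [(k2,k3,z1,[y1,y1,z1]),(k3,k2,z1,[y1,y1,z1])]),
    .old (.lp [k84,k38,k24,k36,k12,k36] [k0,k0,k23,k23,k30,k30,k24,k24,k36,k36,k24,k24] k0 [[k0,k0,k0,k10],[],[k0,
    k10]] k120 k6
    [[(k10,k60),(k1,k84)],[(k2,k51),(k11,k60)],[(k8,k25),(k5,k41)],[(k9,k25),(k0,k51)],[(k6,k30),(k3,k41)],[(k4,k24),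
    (k7,k30)],[(k4,k30),(k7,k36)],[(k8,k24),(k5,k30)],[(k11,k24),(k2,k25)],[(k6,k24),(k3,k25)],[(k9,k24),(k0,k60)],
    [(k10,k36),(k1,k60)]]
    [] k0
    [[k0,k1,k0,k0,k1,k0],[k0,k2,k0,k0,k2,k0],[k0,k0,k1,k1,k0,k0]]
    [.contra [y1,y1,z1],.ref k0 k0 [(z2,[y1,y2,z2]),(z2,[z1])],.contra [y1,y1,z1]]),
    .old (.leafM k4 [k0,k2,k3,k5] [(z1,[y1,y1,z1])] [(k1,k4,z1,[z0,z1]),(k4,k1,z1,[z0,z1])]),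
    .old (.lp [k6,k16,k4,k4,k4,k4] [k5,k5,k0,k0,k6,k6,k6,k6,k6,k6,k6,k6] k0 [] k20 k6
    [[(k10,k5),(k1,k6)],[(k11,k5),(k2,k11)],[(k5,k10),(k8,k10)],[(k9,k10),(k0,k11)],[(k6,k4),(k3,k10)],[(k4,k4),(k7,
    k4)],[(k4,k4),(k7,k4)],[(k5,k4),(k8,k4)],[(k11,k4),(k2,k10)],[(k6,k4),(k3,k10)],[(k9,k4),(k0,k5)],[(k10,k4),(k1,
    k5)]]
    [] k0
    [[k1,k0,k0,k0,k0,k1],[k0,k0,k1,k1,k0,k0],[k0,k0,k2,k2,k0,k0]]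
    [.contra [y1,z1],.contra [y1,z1],.ref k2 k1 [(z2,[y1,z2]),(z1,[z0,y1,z1])]]),
    .old (.lp [k2,k2,k2,k2,k2,k2] [k0,k0,k0,k0,k0,k0,k0,k0,k0,k0,k0,k0] k0 [] k8 k5
    [[(k1,k2),(k10,k2)],[(k2,k2),(k11,k2)],[(k5,k2),(k8,k2)],[(k0,k2),(k9,k2)],[(k3,k2),(k6,k2)],[(k4,k2),(k7,k2)],
    [(k4,k2),(k7,k2)],[(k5,k2),(k8,k2)],[(k2,k2),(k11,k2)],[(k3,k2),(k6,k2)],[(k0,k2),(k9,k2)],[(k1,k2),(k10,k2)]]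
    [] k0
    [[k1,k0,k0,k0,k0,k1],[k0,k1,k0,k0,k1,k0],[k0,k0,k1,k1,k0,k0]]
    [.ref k1 k1 [(z1,[z1])],.ref k3 k1 [(z1,[y1,z1])],.ref k1 k0 [(z1,[z1])]])]⟩

/-- classes `0 0 1 0 0 2`, types `N0 N3 C0 N1 N2 C0` -/
noncomputable def cU6_901 : CertX :=
  ⟨[k12,k15,k20,k13,k14,k36],[],[[[]]],
    [.old (.lp [k0,k0,k0,k2,k2,k2] [k1,k1,k1,k1,k1,k1,k0,k0,k0,k0,k0,k0] k0 [] k4 k5
    [[(k10,k1)],[(k8,k1),(k9,k1)],[(k6,k1),(k11,k1)],[(k6,k1),(k11,k1)],[(k8,k1),(k9,k1)],[(k7,k1)],[(k4,k1)],[(k2,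
    k1),(k3,k1)],[(k0,k1),(k5,k1)],[(k0,k1),(k5,k1)],[(k2,k1),(k3,k1)],[(k1,k1)]]
    [] k0
    []
    [])]⟩

/-- classes `0 0 1 0 0 2`, types `N0 N3 C0 N1 N2 S0` -/
noncomputable def cU6_902 : CertX :=
  ⟨[k12,k15,k20,k13,k14,k32],[],[[[]]],
    [.old (.lp [k4,k4,k4,k0,k0,k2] [k0,k0,k0,k0,k0,k0,k2,k2,k2,k2,k1,k1] k0 [] k8 k5
    [[(k10,k3),(k1,k4)],[(k8,k2),(k9,k2)],[(k6,k2),(k11,k3)],[(k6,k2),(k11,k3)],[(k8,k2),(k9,k2)],[(k7,k2)],[(k4,k2)],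
    [(k2,k2),(k3,k2)],[(k0,k2),(k5,k2)],[(k0,k2),(k5,k2)],[(k2,k3),(k3,k3)],[(k10,k2),(k1,k3)]]
    [] k0
    []
    [])]⟩

/-- classes `0 0 1 0 0 2`, types `N0 N3 C0 N2 N1 C0` -/
noncomputable def cU6_903 : CertX :=
  ⟨[k12,k15,k20,k14,k13,k36],[(false,k3,[k3,k4,k5,k0,k1,k2]),(false,k0,[k0,k1,k2,k3,k4,k5])],[[[([z1,z0,z1,z1,z0,z1],
    z2)],[([z1,z0,z0,z0,z0,z1],z1),([z0,z1,z0,z0,z1,z0],z1)],[([z1,z0,z0,z0,z0,z1],z2)],[]]],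
    [.old (.leafM k2 [k2,k3,k5,k0] [] [(k4,k1,z1,[y1,z1]),(k1,k4,z1,[y1,z1])]),
    .old (.leafM k4 [k0,k1,k4,k5] [(z1,[z0,z1])] [(k2,k3,z1,[y1,y1,z1]),(k3,k2,z1,[y1,y1,z1])]),
    .old (.lp [k12,k0,k0,k10,k8,k8] [k0,k0,k6,k6,k6,k6,k1,k1,k2,k2,k2,k2] k0 [] k20 k6
    [[(k10,k10)],[(k11,k10),(k6,k11)],[(k8,k4),(k9,k4)],[(k8,k4),(k9,k4)],[(k11,k4),(k6,k5)],[(k7,k5)],[(k4,k5)],[(k5,
    k5),(k0,k11)],[(k2,k4),(k3,k4)],[(k2,k4),(k3,k4)],[(k5,k4),(k0,k10)],[(k1,k10)]]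
    [] k0
    [[k0,k1,k0,k0,k1,k0],[k0,k2,k0,k0,k2,k0],[k0,k0,k1,k1,k0,k0]]
    [.contra [y1,y1,z1],.ref k1 k0 [(z2,[y1,y2,z2]),(z2,[z1])],.contra [y1,y1,z1]]),
    .old (.lp [k0,k0,k0,k2,k2,k2] [k1,k1,k1,k1,k1,k1,k0,k0,k0,k0,k0,k0] k0 [] k4 k5
    [[(k10,k1)],[(k6,k1),(k11,k1)],[(k8,k1),(k9,k1)],[(k8,k1),(k9,k1)],[(k6,k1),(k11,k1)],[(k7,k1)],[(k4,k1)],[(k0,
    k1),(k5,k1)],[(k2,k1),(k3,k1)],[(k2,k1),(k3,k1)],[(k0,k1),(k5,k1)],[(k1,k1)]]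
    [] k0
    [[k1,k0,k0,k0,k0,k1],[k0,k1,k0,k0,k1,k0],[k0,k0,k1,k1,k0,k0]]
    [.ref k2 k1 [(z1,[z1])],.ref k0 k1 [(z1,[y1,z1])],.ref k2 k0 [(z1,[z1])]])]⟩

/-- classes `0 0 1 0 0 2`, types `N0 N3 C0 N2 N1 S0` -/
noncomputable def cU6_904 : CertX :=
  ⟨[k12,k15,k20,k14,k13,k32],[(false,k0,[k0,k1,k2,k3,k4,k5])],[[[([z1,z0,z1,z1,z0,z1],z2)],[([z1,z0,z0,z0,z0,z1],z1),
    ([z0,z1,z0,z0,z1,z0],z1)],[([z1,z1,z0,z0,z1,z1],z2)],[([z1,z0,z0,z0,z0,z1],z2),([z0,z1,z0,z0,z1,z0],z1)],[([z1,z0,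
    z0,z0,z0,z1],z2)],[]]],
    [.old (.leafM k2 [k2,k3,k5,k0] [] [(k4,k1,z1,[y1,z1]),(k1,k4,z1,[y1,z1])]),
    .old (.leafM k4 [k0,k1,k4,k5] [(z1,[z0,z1])] [(k2,k3,z1,[y1,y1,z1]),(k3,k2,z1,[y1,y1,z1])]),
    .old (.lp [k4,k10,k16,k4,k0,k4] [k6,k6,k3,k3,k0,k0,k6,k6,k8,k8,k6,k6] k0 [] k20 k6
    [[(k1,k4),(k10,k4)],[(k6,k4),(k11,k4)],[(k8,k5),(k9,k5)],[(k8,k5),(k9,k5)],[(k6,k10),(k11,k10)],[(k7,k10)],[(k4,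
    k10)],[(k0,k4),(k5,k10)],[(k2,k5),(k3,k5)],[(k2,k5),(k3,k5)],[(k0,k4),(k5,k10)],[(k1,k4),(k10,k4)]]
    [] k0
    [[k2,k0,k0,k0,k0,k2],[k1,k0,k0,k0,k0,k1],[k0,k1,k0,k0,k1,k0]]
    [.ref k1 k0 [(z2,[z1]),(z2,[y1,z2])],.contra [y1,z1],.contra [y1,z1]]),
    .old (.leafM k4 [k1,k2,k3,k4] [(z1,[y1,y1,z1])] [(k5,k0,z1,[z1]),(k0,k5,z1,[z1])]),
    .old (.lp [k4,k8,k6,k4,k0,k16] [k6,k6,k4,k4,k5,k5,k6,k6,k8,k8,k0,k0] k0 [] k20 k6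
    [[(k1,k4),(k10,k10)],[(k6,k4),(k11,k10)],[(k8,k4),(k9,k4)],[(k8,k4),(k9,k4)],[(k6,k5),(k11,k11)],[(k7,k5)],[(k4,
    k5)],[(k0,k4),(k5,k5)],[(k2,k4),(k3,k4)],[(k2,k4),(k3,k4)],[(k0,k10),(k5,k11)],[(k1,k10),(k10,k16)]]
    [] k0
    [[k0,k1,k0,k0,k1,k0],[k0,k2,k0,k0,k2,k0],[k0,k0,k1,k1,k0,k0]]
    [.contra [y1,y1,z1],.ref k3 k0 [(z1,[z0,z1]),(z2,[z1])],.contra [y1,y1,z1]]),
    .old (.lp [k2,k4,k2,k2,k0,k2] [k1,k1,k0,k0,k1,k1,k1,k1,k2,k2,k1,k1] k0 [] k8 k5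
    [[(k1,k2),(k10,k2)],[(k6,k2),(k11,k2)],[(k8,k2),(k9,k2)],[(k8,k2),(k9,k2)],[(k6,k2),(k11,k2)],[(k7,k2)],[(k4,k2)],
    [(k0,k2),(k5,k2)],[(k2,k2),(k3,k2)],[(k2,k2),(k3,k2)],[(k0,k2),(k5,k2)],[(k1,k2),(k10,k2)]]
    [] k0
    [[k1,k0,k0,k0,k0,k1],[k0,k1,k0,k0,k1,k0],[k0,k0,k1,k1,k0,k0]]
    [.ref k4 k0 [(z1,[z1])],.ref k0 k0 [(z1,[y1,z1])],.ref k2 k0 [(z1,[y1,z1])]])]⟩

/-- classes `0 0 1 0 0 2`, types `N0 N3 S0 N1 N2 S0` -/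
noncomputable def cU6_905 : CertX :=
  ⟨[k12,k15,k16,k13,k14,k32],[(false,k0,[k0,k1,k2,k3,k4,k5]),(false,k3,[k3,k4,k5,k0,k1,k2]),(true,k5,[k5,k4,k3,k2,k1,
    k0])],[[[([z2,z0,z0,z0,z1,z0],z2),([z0,z1,z0,z0,z0,z2],z2),([z0,z0,z2,z0,z1,z0],z2)],[([z2,z0,z0,y2,z1,z2],z2),
    ([z0,z1,z0,z2,z0,z0],z2)],[([z2,z0,z0,z0,z1,z0],z2)],[]]],
    [.old (.tor k16 false k0 [(z1,[z0,z0,z1]),(z1,[z0,z1]),(z1,[y1,y1,y1,z2]),(z1,[z1])]),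
    .old (.lp [k8,k4,k8,k6,k0,k4] [k0,k0,k2,k2,k0,k0,k1,k1,k4,k4,k2,k2] k0 [] k16 k5
    [[(k10,k6),(k1,k8)],[(k8,k4),(k9,k4)],[(k11,k4),(k6,k5)],[(k11,k4),(k6,k5)],[(k8,k4),(k9,k4)],[(k7,k7),(k4,k8)],
    [(k7,k6),(k4,k7)],[(k2,k5),(k3,k5)],[(k0,k4),(k5,k4)],[(k0,k4),(k5,k4)],[(k2,k4),(k3,k4)],[(k10,k4),(k1,k6)]]
    [] k0
    [[k0,k1,k0,k0,k0,k2]]
    [.ref k0 k0 [(z1,[y1,z1,z1]),(z1,[z1]),(z1,[z0,y1,y2,z2])]]),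
    .old (.lp [k8,k4,k8,k6,k0,k4] [k0,k0,k2,k2,k0,k0,k1,k1,k4,k4,k2,k2] k0 [] k16 k5
    [[(k10,k6),(k1,k8)],[(k8,k4),(k9,k4)],[(k11,k4),(k6,k5)],[(k11,k4),(k6,k5)],[(k8,k4),(k9,k4)],[(k7,k7),(k4,k8)],
    [(k7,k6),(k4,k7)],[(k2,k5),(k3,k5)],[(k0,k4),(k5,k4)],[(k0,k4),(k5,k4)],[(k2,k4),(k3,k4)],[(k10,k4),(k1,k6)]]
    [] k0
    [[k0,k1,k0,k0,k0,k2]]
    [.ref k1 k1 [(z1,[y1,y2,z2]),(z1,[z0,z1])]]),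
    .old (.lp [k8,k4,k8,k6,k0,k4] [k0,k0,k2,k2,k0,k0,k1,k1,k4,k4,k2,k2] k0 [] k16 k5
    [[(k10,k6),(k1,k8)],[(k8,k4),(k9,k4)],[(k11,k4),(k6,k5)],[(k11,k4),(k6,k5)],[(k8,k4),(k9,k4)],[(k7,k7),(k4,k8)],
    [(k7,k6),(k4,k7)],[(k2,k5),(k3,k5)],[(k0,k4),(k5,k4)],[(k0,k4),(k5,k4)],[(k2,k4),(k3,k4)],[(k10,k4),(k1,k6)]]
    [] k0
    [[k0,k1,k0,k0,k0,k2]]
    [.ref k2 k2 [(z1,[z1])]])]⟩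

/-- classes `0 0 1 0 0 2`, types `N0 N3 S0 N2 N1 S0` -/
noncomputable def cU6_906 : CertX :=
  ⟨[k12,k15,k16,k14,k13,k32],[(false,k3,[k3,k4,k5,k0,k1,k2]),(false,k0,[k0,k1,k2,k3,k4,k5])],[[[([z1,z0,z1,z1,z0,z1],
    z2)],[([z1,z0,z0,z0,z0,z1],z1),([z0,z1,z0,z0,z1,z0],z1)],[([z1,z0,z0,z0,z0,z1],z2)],[]]],
    [.old (.leafM k2 [k2,k3,k5,k0] [] [(k4,k1,z1,[y1,z1]),(k1,k4,z1,[y1,z1])]),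
    .old (.leafM k4 [k0,k1,k4,k5] [(z1,[z0,z1])] [(k2,k3,z1,[y1,y1,z1]),(k3,k2,z1,[y1,y1,z1])]),
    .old (.lp [k16,k8,k6,k4,k0,k4] [k0,k0,k4,k4,k5,k5,k6,k6,k8,k8,k6,k6] k0 [] k20 k6
    [[(k10,k10),(k1,k16)],[(k6,k10),(k11,k10)],[(k8,k4),(k9,k4)],[(k8,k4),(k9,k4)],[(k6,k5),(k11,k5)],[(k7,k5),(k4,
    k6)],[(k7,k4),(k4,k5)],[(k5,k5),(k0,k10)],[(k2,k4),(k3,k4)],[(k2,k4),(k3,k4)],[(k5,k5),(k0,k10)],[(k10,k4),(k1,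
    k10)]]
    [] k0
    [[k0,k1,k0,k0,k1,k0],[k0,k2,k0,k0,k2,k0],[k0,k0,k1,k1,k0,k0]]
    [.contra [y1,y1,z1],.ref k1 k0 [(z2,[y1,y2,z2]),(z2,[z1])],.contra [y1,y1,z1]]),
    .old (.lp [k2,k4,k2,k2,k0,k2] [k1,k1,k0,k0,k1,k1,k1,k1,k2,k2,k1,k1] k0 [] k8 k5
    [[(k1,k2),(k10,k2)],[(k6,k2),(k11,k2)],[(k8,k2),(k9,k2)],[(k8,k2),(k9,k2)],[(k6,k2),(k11,k2)],[(k4,k2),(k7,k2)],
    [(k4,k2),(k7,k2)],[(k0,k2),(k5,k2)],[(k2,k2),(k3,k2)],[(k2,k2),(k3,k2)],[(k0,k2),(k5,k2)],[(k1,k2),(k10,k2)]]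
    [] k0
    [[k1,k0,k0,k0,k0,k1],[k0,k1,k0,k0,k1,k0],[k0,k0,k1,k1,k0,k0]]
    [.ref k2 k1 [(z1,[z1])],.ref k0 k1 [(z1,[y1,z1])],.ref k2 k0 [(z1,[z1])]])]⟩

/-- classes `0 0 1 0 0 2`, types `S0 S0 C0 S0 S0 C0` -/
noncomputable def cU6_907 : CertX :=
  ⟨[k0,k0,k20,k0,k0,k36],[(false,k0,[k0,k1,k2,k3,k4,k5]),(true,k2,[k2,k1,k0,k5,k4,k3]),(false,k3,[k3,k4,k5,k0,k1,
    k2])],[[[([z1,z0,z0,z0,z0,z1],z2)],[([z1,z0,z1,z1,z0,z1],z2)],[([z1,z0,z0,z0,z1,z1],z2)],[]]],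
    [.old (.leafM k0 [k1,k2,k3,k4] [] [(k5,k0,z1,[z1]),(k0,k5,z1,[z1])]),
    .old (.leafM k2 [k2,k3,k5,k0] [] [(k4,k1,z1,[y1,z1]),(k1,k4,z1,[y1,z1])]),
    .old (.leafM k0 [k0,k1,k2,k3,k4,k5] [(z1,[y1,z1])] []),
    .old (.lp [k6,k12,k6,k8,k8,k6] [k3,k3,k0,k0,k3,k3,k2,k2,k2,k2,k3,k3] k0 [[],[],[k0,k0,k0,k0,k0,k0,k0,k2,k2],[],[],[],
    [k0,k0,k0,k2],[],[],[k0,k0,k0,k2]] k24 k5
    [[(k10,k6)],[(k0,k6),(k5,k6),(k11,k6),(k6,k7),(k8,k7),(k9,k7),(k2,k9),(k3,k9)],[(k0,k9),(k5,k9),(k11,k9),(k6,k10),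
    (k8,k10),(k9,k10),(k2,k12),(k3,k12)],[(k11,k7),(k6,k8),(k0,k9),(k5,k9),(k8,k10),(k9,k10),(k2,k12),(k3,k12)],[(k0,
    k6),(k5,k6),(k11,k6),(k6,k7),(k2,k9),(k3,k9),(k8,k9),(k9,k9)],[(k7,k7)],[(k4,k7)],[(k0,k7),(k5,k7),(k11,k7),(k2,
    k8),(k6,k8),(k8,k8),(k9,k8),(k3,k10)],[(k0,k7),(k11,k7),(k6,k8),(k8,k8),(k9,k8),(k5,k9),(k2,k10),(k3,k10)],[(k0,
    k7),(k11,k7),(k6,k8),(k8,k8),(k9,k8),(k5,k9),(k2,k10),(k3,k10)],[(k0,k6),(k5,k6),(k11,k6),(k2,k7),(k6,k7),(k8,k7),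
    (k9,k7),(k3,k9)],[(k1,k6)]]
    [] k0
    [[k1,k0,k0,k0,k0,k1],[k1,k1,k0,k0,k0,k1],[k1,k0,k0,k0,k1,k1],[k0,k1,k0,k0,k1,k0],[k0,k0,k1,k1,k0,k0],[k0,k0,k0,k0,
    k2,k0]]
    [.ref k0 k0 [(z1,[z1])],.ref k2 k1 [(z1,[y1,z1])],.ref k2 k0 [(z1,[z1])],.ref k1 k0 [(z1,[y1,z1])],
    .ref k0 k2 [(z1,[z1])],.contra [z1]])]⟩

/-- classes `0 0 1 0 0 2`, types `S0 S0 C0 S0 S0 S0` -/
noncomputable def cU6_908 : CertX :=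
  ⟨[k0,k0,k20,k0,k0,k32],[(false,k0,[k0,k1,k2,k3,k4,k5]),(true,k5,[k5,k4,k3,k2,k1,k0])],[[[([z1,z1,z0,z0,z1,z1],z2)],
    [([z1,z0,z0,z0,z1,z1],z2)],[([z1,z0,z1,z1,z0,z1],z2)],[([z1,z0,z0,z0,z0,z1],z2)],[]]],
    [.old (.leafM k0 [k0,k1,k4,k5] [] [(k2,k3,z1,[y1,z1]),(k3,k2,z1,[y1,z1])]),
    .old (.leafM k0 [k0,k1,k2,k3,k4,k5] [(z1,[y1,z1])] []),
    .old (.leafM k2 [k2,k3,k5,k0] [] [(k4,k1,z1,[y1,z1]),(k1,k4,z1,[y1,z1])]),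
    .old (.leafM k0 [k1,k2,k3,k4] [] [(k5,k0,z1,[z1]),(k0,k5,z1,[z1])]),
    .old (.lp [(nat_lit 4500),(nat_lit 4060),(nat_lit 2610),(nat_lit 2610),(nat_lit 3480),(nat_lit 3190)] [k0,k0,
    (nat_lit 220),(nat_lit 220),(nat_lit 945),(nat_lit 945),(nat_lit 945),(nat_lit 945),(nat_lit 336),(nat_lit 684),
    (nat_lit 655),(nat_lit 655)] k0 [[k0,k0,k0,(nat_lit 1160),k0,k0,(nat_lit 1160)],[(nat_lit 1450)],[k0,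
    (nat_lit 1160)],[k0,k0,k0,k0,k0,k0,k0,k0,(nat_lit 290)],[],[],[k0,k0,k0,k0,k0,k0,k0,k0,k0,(nat_lit 580)],[k0,
    (nat_lit 1160)],[k0,k0,k0,k0,k0,k0,k0,(nat_lit 580)],[k0,k0,(nat_lit 290)]] (nat_lit 10440) k5
    [[(k10,(nat_lit 3845)),(k1,(nat_lit 4500))],[(k9,(nat_lit 2656)),(k2,(nat_lit 3120)),(k5,(nat_lit 3555)),(k6,
    (nat_lit 3555)),(k11,(nat_lit 3845)),(k8,(nat_lit 4164)),(k3,(nat_lit 4280)),(k0,(nat_lit 5950))],[(k3,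
    (nat_lit 2610)),(k9,(nat_lit 3596)),(k11,(nat_lit 3625)),(k8,(nat_lit 3944)),(k2,(nat_lit 4060)),(k0,
    (nat_lit 4280)),(k5,(nat_lit 4495)),(k6,(nat_lit 4495))],[(k0,(nat_lit 3120)),(k5,(nat_lit 3335)),(k6,
    (nat_lit 3335)),(k9,(nat_lit 3596)),(k11,(nat_lit 3625)),(k2,(nat_lit 4060)),(k3,(nat_lit 4060)),(k8,
    (nat_lit 4234))],[(k5,(nat_lit 2610)),(k6,(nat_lit 2610)),(k11,(nat_lit 2610)),(k9,(nat_lit 2871)),(k8,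
    (nat_lit 3219)),(k2,(nat_lit 3335)),(k0,(nat_lit 3555)),(k3,(nat_lit 4495))],[(k7,(nat_lit 2610))],[(k4,
    (nat_lit 2610))],[(k5,(nat_lit 2610)),(k6,(nat_lit 2610)),(k8,(nat_lit 2639)),(k9,(nat_lit 2871)),(k11,
    (nat_lit 2900)),(k2,(nat_lit 3335)),(k0,(nat_lit 3555)),(k3,(nat_lit 4495))],[(k0,(nat_lit 2656)),(k5,
    (nat_lit 2871)),(k6,(nat_lit 2871)),(k9,(nat_lit 3132)),(k8,(nat_lit 3480)),(k2,(nat_lit 3596)),(k3,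
    (nat_lit 3596)),(k11,(nat_lit 3741))],[(k6,(nat_lit 2639)),(k5,(nat_lit 3219)),(k9,(nat_lit 3480)),(k11,
    (nat_lit 3509)),(k8,(nat_lit 3828)),(k3,(nat_lit 3944)),(k0,(nat_lit 4164)),(k2,(nat_lit 4234))],[(k5,
    (nat_lit 2610)),(k6,(nat_lit 2900)),(k11,(nat_lit 3190)),(k8,(nat_lit 3509)),(k2,(nat_lit 3625)),(k3,
    (nat_lit 3625)),(k9,(nat_lit 3741)),(k0,(nat_lit 3845))],[(k10,(nat_lit 3190)),(k1,(nat_lit 3845))]]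
    [] k0
    [[k1,k0,k0,k0,k0,k1],[k1,k0,k0,k0,k1,k1],[k0,k2,k0,k0,k0,k0],[k0,k1,k0,k0,k1,k0],[k0,k0,k1,k1,k0,k0],[k0,k0,k1,k1,
    k1,k0],[k0,k0,k0,k0,k2,k0],[k0,k0,k0,k0,k0,k2]]
    [.ref k3 k0 [(z1,[z1])],.ref k1 k0 [(z1,[z1])],.contra [z1],.ref k2 k0 [(z1,[y1,z1])],.ref k0 k0 [(z1,[y1,z1])],
    .ref k1 k1 [(z1,[y1,z1])],.contra [z1],.contra [z1]])]⟩

/-- classes `0 0 1 0 1 1`, types `C0 C0 C0 C0 C0 C0` -/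
noncomputable def cU6_909 : CertX :=
  ⟨[k4,k4,k20,k4,k20,k20],[(false,k0,[k0,k1,k2,k3,k4,k5]),(true,k0,[k0,k5,k4,k3,k2,k1])],[[[([z1,z1,z0,z0,z1,z1],z2)],
    [([z1,z0,z0,z0,z1,z1],z2)],[([z3,z0,z0,z0,z3,z0],z5),([z0,z3,z0,z0,z0,z0],z1),([z0,z0,z3,z0,y3,z0],z1),([z0,z0,z0,
    z1,z1,z0],z1)],[([z3,z0,z0,z0,z3,z0],z4),([z0,z3,z0,z0,z0,z0],z2),([z0,z0,z3,z0,y3,z0],z2),([z0,z0,z0,z1,z1,z0],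
    z1)],[([z1,z0,z0,z0,z1,y1],z1),([z0,z1,z0,z0,z0,z1],z1),([z0,z0,z1,z0,y1,z1],z1)],[([z3,z0,z0,z0,z3,z0],z4),([z0,
    z3,z0,z0,z0,z0],z2),([z0,z0,z3,z0,y3,z0],z2)],[([z1,z0,z0,y1,z0,y1],z0),([z0,z1,z0,z1,z1,z1],z2)],[([z1,z0,z0,z0,
    z1,z0],z2),([z0,z1,z0,z0,z0,y1],z0),([z0,z0,z1,z0,y1,z0],z0)],[([z1,z0,z0,z0,z1,z0],z2),([z0,z3,z0,z0,z0,z0],z1),
    ([z0,z0,z1,z0,y1,z0],z0),([z0,z0,z0,z1,z1,z0],z1)],[([z1,z0,z0,z0,z1,z0],z2),([z0,z3,z0,z0,z0,z0],z2),([z0,z0,z1,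
    z0,y1,z0],z0)],[([z1,z0,z0,z0,z1,z0],z2),([z0,z2,z0,z0,z0,z0],z1),([z0,z0,z1,z0,y1,z0],z0)],[([z1,z0,z0,z0,z1,z0],
    z2),([z0,z1,z0,z1,z1,z1],z2)]],[[([z1,z0,z0,z0,z1,z0],z2)],[]]],
    [.old (.leafM k0 [k0,k1,k4,k5] [] [(k2,k3,z1,[y1,z1]),(k3,k2,z1,[y1,z1])]),
    .old (.leafM k0 [k0,k1,k2,k3,k4,k5] [(z1,[y1,z1])] []),
    .old (.lp [(nat_lit 2541661),(nat_lit 574011),(nat_lit 1157521),(nat_lit 1267261),(nat_lit 519961),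
    (nat_lit 1211801)] [k0,k0,(nat_lit 983825),(nat_lit 983825),(nat_lit 692070),(nat_lit 692070),(nat_lit 637200),
    (nat_lit 637200),(nat_lit 1010850),(nat_lit 1010850),(nat_lit 664930),(nat_lit 664930)] k0 [[k0,k0,k0,k0,k0,k0,
    (nat_lit 318895)],[],[],[],[],[],[],[k0,(nat_lit 318895)]] (nat_lit 3826740) k8
    [[(k8,(nat_lit 1530811)),(k4,(nat_lit 1849591)),(k10,(nat_lit 1876731))],[(k9,(nat_lit 1211916)),(k3,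
    (nat_lit 1557836)),(k5,(nat_lit 1849591))],[(k2,(nat_lit 574011)),(k6,(nat_lit 1239531)),(k0,(nat_lit 1557836))],
    [(k9,(nat_lit 546986)),(k3,(nat_lit 574011)),(k5,(nat_lit 865766))],[(k2,(nat_lit 865766)),(k6,(nat_lit 1212391)),
    (k0,(nat_lit 1849591))],[(k11,(nat_lit 1184661)),(k7,(nat_lit 1212391)),(k1,(nat_lit 1849591))],[(k8,
    (nat_lit 893611)),(k4,(nat_lit 1212391)),(k10,(nat_lit 1239531))],[(k9,(nat_lit 893611)),(k5,(nat_lit 1212391)),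
    (k3,(nat_lit 1239531))],[(k2,(nat_lit 546986)),(k6,(nat_lit 893611)),(k0,(nat_lit 1211916))],[(k11,
    (nat_lit 865881)),(k7,(nat_lit 893611)),(k1,(nat_lit 1530811))],[(k8,(nat_lit 865881)),(k4,(nat_lit 1184661)),
    (k10,(nat_lit 1211801))],[(k11,(nat_lit 1211801)),(k7,(nat_lit 1239531)),(k1,(nat_lit 1876731))]]
    [[k0,k4],[k0,k8,k2],[k1,k3,k9],[k1,k5],[k2,k2,k2,k2,k2,k2],[k3,k3,k3,k3,k3,k3],[k4,k6,k10],[k5,k11,k7],[k6,k8,k6,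
    k8],[k7,k9,k7,k9],[k10,k10,k10],[k11,k11,k11]] (nat_lit 63779)
    [[k1,k0,k0,k0,k1,k0],[k0,k2,k0,k0,k0,k0],[k0,k3,k0,k0,k0,k0],[k0,k4,k0,k0,k0,k0],[k0,k5,k0,k0,k0,k0],[k0,k2,k0,k1,
    k1,k0],[k0,k1,k1,k1,k0,k0],[k0,k1,k0,k1,k1,k0],[k0,k0,k1,k1,k0,k0],[k0,k0,k0,k1,k1,k0],[k0,k0,k0,k1,k1,k1],[k0,k0,
    k0,k0,k0,k2]]
    [.contra [z6,y2,z1],.contra [z1],.contra [z2,z0,y1],.contra [z1,z0,y1],.contra [z2,z0,y3],.contra [z2,z0,y1,z0,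
    y2],.contra [z6,z0,y1,y2,y6],.contra [z1,z0,z0,z0,y1],.contra [z3,z0,z1,y1,y3],.contra [z2,z0,z1,z0,y2],
    .contra [z6,z2,z3,z2,z0,y6],.contra [z3,z2,z3,z2,z6,y6]]),
    .lp [(nat_lit 1463),(nat_lit 931),(nat_lit 1379),(nat_lit 973),(nat_lit 399),(nat_lit 441)] [k0,k0,(nat_lit 266),
    (nat_lit 266),k42,k42,(nat_lit 245),(nat_lit 245),(nat_lit 532),(nat_lit 532),(nat_lit 511),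
    (nat_lit 511)] k0 [] (nat_lit 2940) k8
    [[(k8,(nat_lit 931)),(k10,(nat_lit 952)),(k4,(nat_lit 1421))],[(k9,(nat_lit 931)),(k3,(nat_lit 1197)),(k5,
    (nat_lit 1421))],[(k2,(nat_lit 931)),(k6,(nat_lit 952)),(k0,(nat_lit 1197))],[(k9,(nat_lit 665)),(k3,
    (nat_lit 931)),(k5,(nat_lit 1155))],[(k2,(nat_lit 1155)),(k6,(nat_lit 1176)),(k0,(nat_lit 1421))],[(k11,
    (nat_lit 910)),(k7,(nat_lit 1176)),(k1,(nat_lit 1421))],[(k8,(nat_lit 686)),(k10,(nat_lit 707)),(k4,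
    (nat_lit 1176))],[(k9,(nat_lit 686)),(k3,(nat_lit 952)),(k5,(nat_lit 1176))],[(k2,(nat_lit 665)),(k6,
    (nat_lit 686)),(k0,(nat_lit 931))],[(k11,(nat_lit 420)),(k7,(nat_lit 686)),(k1,(nat_lit 931))],[(k8,
    (nat_lit 420)),(k10,(nat_lit 441)),(k4,(nat_lit 910))],[(k11,(nat_lit 441)),(k7,(nat_lit 707)),(k1,
    (nat_lit 952))]]
    [[k0,k4],[k0,k8,k2],[k0,k10,k10,k8],[k1,k3,k9],[k1,k5],[k1,k9,k11,k11],[k2,k2,k2],[k2,k6,k10,k8],[k3,k3,k3],[k3,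
    k9,k11,k7],[k4,k6,k10],[k5,k11,k7],[k6,k8,k6,k8],[k6,k10,k10,k10,k8],[k7,k9,k7,k9],[k7,k9,k11,k11,k11],[k10,k10,
    k10,k10,k10,k10],[k11,k11,k11,k11,k11,k11]]
    ⟨[[[k0,k4],[k0,k8,k2],[k0,k10,k10,k8],[k1,k3,k9],[k1,k5],[k1,k9,k11,k11],[k2,k0,k8],[k2,k2,k2],[k2,k6,k10,k8],[k3,
    k3,k3],[k3,k9,k1],[k3,k9,k11,k7]],
    [[k4,k0],[k4,k6,k10],[k5,k1],[k5,k11,k7],[k6,k8,k6,k8],[k6,k10,k4],[k6,k10,k8,k2],[k6,k10,k10,k10,k8],[k7,k3,k9,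
    k11],[k7,k5,k11],[k7,k9,k7,k9],[k7,k9,k11,k11,k11]],
    [[k8,k0,k10,k10],[k8,k2,k0],[k8,k2,k6,k10],[k8,k6,k8,k6],[k8,k6,k10,k10,k10],[k9,k1,k3],[k9,k7,k9,k7],[k9,k11,k7,
    k3],[k9,k11,k11,k1],[k9,k11,k11,k11,k7],[k10,k4,k6],[k10,k8,k0,k10]],
    [[k10,k8,k2,k6],[k10,k8,k6,k10,k10],[k10,k10,k8,k0],[k10,k10,k8,k6,k10],[k10,k10,k10,k8,k6],[k10,k10,k10,k10,k10,
    k10],[k11,k1,k9,k11],[k11,k7,k3,k9],[k11,k7,k5],[k11,k7,k9,k11,k11],[k11,k11,k1,k9],[k11,k11,k7,k9,k11]],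
    [[k11,k11,k11,k7,k9],[k11,k11,k11,k11,k11,k11]]],
    [[k12,k25,k38,k10,k14,k32,k1,k7,k18,k9,k29,k31],
    [k0,k17,k4,k44,k27,k34,k36,k40,k11,k15,k30,k33],
    [k2,k6,k8,k16,k19,k3,k22,k43,k46,k48,k13,k24],
    [k26,k28,k35,k37,k39,k41,k5,k20,k21,k23,k42,k45],
    [k47,k49]],
    [[k12,k6,k24,k29,k14,k42,k25,k7,k26,k9,k3,k20],
    [k0,k34,k4,k21,k27,k13,k8,k28,k43,k44,k30,k45],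
    [k35,k1,k36,k16,k37,k10,k22,k11,k5,k23,k17,k38],
    [k18,k39,k2,k40,k19,k41,k46,k31,k15,k47,k32,k48],
    [k33,k49]],
    [[[k34,k36,k40],[k35,k37,k39,k41],[k38],[k10],[k9],[k11],[k1],[k0],[k2],[k14],[k15],[k15]],
    [[k7],[k6,k8],[k20,k21,k23],[k22],[k13],[k12],[k12],[k12],[k32],[k29,k31],[k30,k33],[k30,k33]],
    [[k18],[k17],[k17],[k16,k19],[k16,k19],[k42,k45,k47,k49],[k44],[k43,k46,k48],[k43,k46,k48],[k43,k46,k48],[k27],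
    [k24,k26,k28]],
    [[k24,k26,k28],[k24,k26,k28],[k25],[k25],[k25],[k25],[k5],[k4],[k4],[k4],[k3],[k3]],
    [[k3],[k3]]],k50⟩ k2 k1 k49
    [[k1,k0,k0,k0,k1,k0],[k1,k0,k0,k0,k1,k1],[k0,k2,k0,k0,k0,k0],[k0,k1,k0,k1,k1,k0],[k0,k0,k1,k1,k0,k0],[k0,k0,k0,k1,
    k1,k0],[k0,k0,k0,k1,k1,k1],[k0,k0,k0,k1,k1,k2],[k0,k0,k0,k0,k0,k2],[k0,k0,k0,k0,k0,k3],[k0,k0,k0,k0,k0,k4],[k0,k0,
    k0,k0,k0,k5]]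
    [.contra [z3,y1,z2],.contra [z3,z0,z2,z1,z3,y3],.contra [z1],.contra [z1,z0,z0,z0,y1],.contra [z3,z0,z1,y1,y3],
    .contra [z1,z0,z1,z0,y1],.contra [z3,z1,z3,z1,z0,y3],.contra [z3,z2,z3,z2,z3,y6],.contra [z3,z2,z6,z2,z6,y6],
    .contra [z1,z1,z2,z1,z3,y3],.contra [z3,z4,z6,z4,z12,y12],.contra [z3,z5,z6,z5,z15,y15]],
    .old (.lp [k58,k44,k44,k44,k18,k30] [k0,k0,k7,k7,k7,k7,k7,k7,k20,k20,k14,k14] k0 [[k0,k0,k0,k0,k0,k0,k14],[k0,k0,k0,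
    k20],[k20],[],[k0,k0,k0,k0,k0,k0,k0,k0,k0,k0,k2],[],[],[k0,k14],[],[],[],[k0,k0,k0,k0,k0,k2]] k120 k6
    [[(k8,k38),(k10,k44),(k4,k49)],[(k9,k24),(k3,k51),(k5,k71)],[(k2,k24),(k0,k51),(k6,k58)],[(k3,k24),(k9,k31),(k5,
    k44)],[(k2,k44),(k6,k44),(k0,k71)],[(k11,k37),(k7,k44),(k1,k49)],[(k8,k31),(k10,k39),(k4,k44)],[(k9,k31),(k5,k44),
    (k3,k58)],[(k0,k24),(k2,k31),(k6,k31)],[(k11,k24),(k7,k31),(k1,k38)],[(k8,k24),(k10,k30),(k4,k37)],[(k11,k30),(k7,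
    k39),(k1,k44)]]
    [] k0
    [[k1,k0,k0,k0,k1,k0],[k1,k0,k0,k0,k1,k1],[k0,k2,k0,k0,k0,k0],[k0,k3,k0,k0,k0,k0],[k0,k4,k0,k0,k0,k0],[k0,k0,k1,k1,
    k0,k0],[k0,k0,k0,k1,k1,k0],[k0,k0,k0,k1,k1,k1],[k0,k0,k0,k0,k0,k2],[k0,k0,k0,k0,k0,k3]]
    [.contra [z1,y1],.ref k1 k0 [(z1,[z1])],.contra [z1],.ref k3 k0 [(z1,[y1,z3,z3]),(z1,[z1]),(z1,[z1,z0,y3,z3]),(z1,
    [z0,y1,y1,y1,z1])],.ref k1 k0 [(z2,[y1,z2,z4])],.contra [z1,z1,z2,z0,y1],.contra [y2,y1,y2,y1,z2],.contra [z1,z1,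
    z1,z1,y1],.contra [z1],.ref k2 k0 [(z1,[z1,z3]),(z1,[y1,z0,z3]),(z1,[y1,z0,z0,z3]),(z1,[z0,y1,y1,y1,z1])]]),
    .old (.lp [(nat_lit 252),k160,(nat_lit 230),k124,k68,k124] [k0,k0,k46,k46,k11,k11,k64,k64,k92,k92,k64,k64] k0 [[k0,k0,
    k0,k0,k0,k0,k2],[],[],[],[k0,k0,k0,k0,k0,k0,k0,k0,k0,k0,k2],[],[],[k0,k2],[],[],[],[k0,k0,k0,k0,k0,
    k2]] (nat_lit 480) k6
    [[(k8,k160),(k10,k188),(k4,(nat_lit 239))],[(k9,k158),(k3,(nat_lit 206)),(k5,(nat_lit 241))],[(k6,k144),(k2,k160),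
    (k0,(nat_lit 206))],[(k9,k114),(k3,k160),(k5,k195)],[(k6,k177),(k2,k195),(k0,(nat_lit 241))],[(k7,k177),(k11,
    k177),(k1,(nat_lit 239))],[(k8,k96),(k10,k126),(k4,k177)],[(k9,k96),(k3,k144),(k5,k177)],[(k6,k96),(k2,k114),(k0,
    k158)],[(k7,k96),(k11,k96),(k1,k160)],[(k8,k96),(k10,k124),(k4,k177)],[(k11,k124),(k7,k126),(k1,k188)]]
    [] k0
    [[k1,k0,k0,k0,k1,k0],[k1,k0,k0,k0,k1,k1],[k0,k2,k0,k0,k0,k0],[k0,k1,k0,k1,k1,k0],[k0,k0,k1,k1,k0,k0],[k0,k0,k0,k1,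
    k1,k0],[k0,k0,k0,k2,k2,k0],[k0,k0,k0,k1,k1,k1],[k0,k0,k0,k1,k1,k2],[k0,k0,k0,k0,k0,k2],[k0,k0,k0,k0,k0,k3]]
    [.contra [z3,y1,z2],.ref k1 k0 [(z1,[z1])],.contra [z1],.contra [y3,y1,z0,y1,z3],.contra [y3,y1,y1,z0,z3],
    .contra [y3,y1,z0,y1,z3],.ref k4 k0 [(z6,[z3,z4,z2,z2,y6]),(z6,[y3,y2,z0,y2,z6]),(z6,[y3,y2,y2,z0,z6])],
    .contra [z3,z1,z3,z1,y3],.ref k1 k0 [(z3,[z3,z2,z1,z1,y3])],.contra [z1],.ref k1 k0 [(z3,[z1,z1])]]),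
    .old (.lp [(nat_lit 288),k124,k194,k124,k68,k160] [k0,k0,k82,k82,k47,k47,k82,k82,k110,k110,k64,k64] k0 [[k0,k0,k0,k0,
    k0,k0,k40],[],[],[],[k0,k0,k0,k0,k0,k0,k0,k0,k0,k0,k2],[],[],[k0,k40],[],[],[],[k0,k0,k0,k0,k0,
    k2]] (nat_lit 480) k6
    [[(k8,k178),(k10,(nat_lit 224)),(k4,(nat_lit 239))],[(k9,k138),(k3,(nat_lit 206)),(k5,(nat_lit 241))],[(k2,k124),
    (k6,k164),(k0,(nat_lit 206))],[(k9,k96),(k3,k124),(k5,k159)],[(k2,k159),(k6,k159),(k0,(nat_lit 241))],[(k7,k159),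
    (k11,k177),(k1,(nat_lit 239))],[(k8,k96),(k10,k144),(k4,k159)],[(k9,k96),(k5,k159),(k3,k164)],[(k2,k96),(k6,k96),
    (k0,k138)],[(k7,k96),(k11,k114),(k1,k178)],[(k8,k114),(k10,k160),(k4,k177)],[(k7,k144),(k11,k160),(k1,
    (nat_lit 224))]]
    [] k0
    [[k1,k0,k0,k0,k1,k0],[k1,k0,k0,k0,k1,k1],[k0,k2,k0,k0,k0,k0],[k0,k3,k0,k0,k0,k0],[k0,k1,k0,k1,k1,k0],[k0,k0,k1,k1,
    k0,k0],[k0,k0,k0,k1,k1,k0],[k0,k0,k0,k2,k2,k0],[k0,k0,k0,k1,k1,k1],[k0,k0,k0,k0,k0,k2]]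
    [.contra [y1,z1,z1],.ref k1 k0 [(z1,[z1])],.contra [z1],.ref k5 k0 [(z1,[y1,z3,z3]),(z1,[z1]),(z1,[z1,y3,y6,z3])],
    .contra [y1,z0,z1],.contra [y1,y1,y1,z1],.contra [y1,z0,z1],.ref k4 k0 [(z2,[z1,z2]),(z2,[y1,z0,z2]),(z2,[y1,y2,
    y2,z2])],.contra [y1,z0,z1],.contra [z1]]),
    .old (.tor k12 false k0 [(z1,[y1,y1,y1,z1]),(z1,[y1,z1,z0,z1]),(z1,[z1]),(z1,[z1,z0,z1])]),
    .old (.tor k36 true k0 [(z1,[y3,y1,y3,y3,z3]),(z1,[z0,z0,y1]),(z1,[z0,z0,z1,z1]),(z1,[z0,z1])]),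
    .old (.lp [(nat_lit 414),k160,k68,k124,k68,k124] [k0,k0,k127,k127,k173,k173,k145,k145,k173,k173,k145,k145] k0 [[k0,k0,
    k0,k0,k0,k0,k2],[],[],[],[k0,k0,k0,k0,k0,k0,k0,k0,k0,k0,k2],[],[],[k0,k2],[],[],[],[k0,k0,k0,k0,k0,
    k2]] (nat_lit 480) k6
    [[(k4,(nat_lit 239)),(k8,(nat_lit 241)),(k10,(nat_lit 269))],[(k9,(nat_lit 239)),(k5,(nat_lit 241)),(k3,
    (nat_lit 287))],[(k6,k144),(k2,k160),(k0,(nat_lit 287))],[(k5,k114),(k9,k114),(k3,k160)],[(k6,k96),(k2,k114),(k0,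
    (nat_lit 241))],[(k7,k96),(k11,k96),(k1,(nat_lit 239))],[(k4,k96),(k8,k96),(k10,k126)],[(k5,k96),(k9,k96),(k3,
    k144)],[(k6,k96),(k2,k114),(k0,(nat_lit 239))],[(k7,k96),(k11,k96),(k1,(nat_lit 241))],[(k4,k96),(k8,k96),(k10,
    k124)],[(k11,k124),(k7,k126),(k1,(nat_lit 269))]]
    [] k0
    [[k0,k2,k0,k0,k0,k0],[k0,k1,k1,k1,k0,k0],[k0,k1,k0,k1,k1,k0],[k0,k0,k1,k1,k0,k0],[k0,k0,k2,k2,k0,k0],[k0,k0,k1,k2,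
    k1,k0],[k0,k0,k1,k1,k0,k1],[k0,k0,k1,k1,k0,k2],[k0,k0,k0,k1,k1,k0],[k0,k0,k0,k2,k2,k0],[k0,k0,k0,k1,k1,k1],[k0,k0,
    k0,k1,k1,k2],[k0,k0,k0,k0,k0,k2],[k0,k0,k0,k0,k0,k3]]
    [.contra [z1],.contra [y1,y1,z0,z0,z1],.contra [y1,y1,z0,y1,z1],.contra [y1,y1,z0,z0,z1],.ref k8 k1 [(z1,[z0,z1,
    z0,z1]),(z2,[y3,y6,y2,z0,z6]),(z1,[z0,z0,z0,y1]),(z2,[z1])],.ref k8 k1 [(z1,[z0,z1,z0,z1]),(z2,[y3,y6,y2,y3,z6]),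
    (z1,[z0,z0,z0,y1]),(z2,[z1,z0,z0,z1])],.contra [z1,z1,z1,z0,y1],.ref k7 k0 [(z1,[z0,z1]),(z1,[y1,y1,z0,z0,z1]),
    (z1,[z0,z0,z0,z1])],.contra [y1,y1,z0,y1,z1],.ref k8 k1 [(z1,[z0,z1,z0,z1]),(z2,[y3,y6,y2,y6,z6]),(z1,[z0,z0,z0,
    y1]),(z2,[z1,z0,z0,z2])],.contra [z1,z1,z1,z1,y1],.ref k7 k0 [(z1,[z0,z1]),(z1,[y1,y1,z0,y1,z1]),(z1,[z0,z0,z0,
    z1])],.contra [z1],.ref k7 k0 [(z1,[z0,z1]),(z3,[y1,z0,z1]),(z1,[z0,z0,z0,z1])]]),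
    .old (.lp [k100,k30,k22,k38,k22,k26] [k0,k0,k35,k35,k39,k39,k31,k31,k39,k39,k37,k37] k0 [[k0,k0,k0,k0,k0,k0,k2],[],[],
    [],[k0,k0,k0,k0,k0,k0,k0,k0,k0,k0,k2],[],[],[k0,k2],[],[],[],[k0,k0,k0,k0,k0,k2]] k120 k6
    [[(k4,k59),(k8,k61),(k10,k63)],[(k9,k59),(k5,k61),(k3,k65)],[(k2,k30),(k6,k36),(k0,k65)],[(k5,k26),(k9,k26),(k3,
    k30)],[(k2,k26),(k6,k30),(k0,k61)],[(k11,k24),(k7,k30),(k1,k59)],[(k4,k30),(k8,k30),(k10,k34)],[(k5,k30),(k9,k30),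
    (k3,k36)],[(k2,k26),(k6,k30),(k0,k59)],[(k11,k24),(k7,k30),(k1,k61)],[(k4,k24),(k8,k24),(k10,k26)],[(k11,k26),(k7,
    k34),(k1,k63)]]
    [] k0
    [[k0,k2,k0,k0,k0,k0],[k0,k3,k0,k0,k0,k0],[k0,k1,k1,k1,k0,k0],[k0,k1,k0,k1,k1,k0],[k0,k0,k1,k1,k0,k0],[k0,k0,k1,k1,
    k0,k1],[k0,k0,k1,k1,k0,k2],[k0,k0,k0,k1,k1,k0],[k0,k0,k0,k1,k1,k1],[k0,k0,k0,k1,k1,k2],[k0,k0,k0,k0,k0,k2],[k0,k0,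
    k0,k0,k0,k3],[k0,k0,k0,k0,k0,k4]]
    [.contra [z1],.contra [z1,z0,y1],.contra [y1,y1,z0,z0,z1],.contra [y1,y1,z0,y1,z1],.contra [y1,y1,z0,z0,z1],
    .contra [z1,z1,z1,z0,y1],.ref k7 k0 [(z1,[z0,z1]),(z1,[y1,y1,z0,z0,z1]),(z1,[z0,z0,z0,z1])],.contra [y1,y1,z0,y1,
    z1],.contra [z1,z1,z1,z1,y1],.ref k7 k0 [(z1,[z0,z1]),(z1,[y1,y1,z0,y1,z1]),(z1,[z0,z0,z0,z1])],.contra [z1],
    .ref k9 k1 [(z1,[z0,z1,z0,z1]),(z1,[z1]),(z1,[z0,z0,z0,y1])],.ref k7 k0 [(z1,[z0,z1]),(z4,[y1,z0,z2]),(z1,[z0,z0,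
    z0,z1])]]),
    .old (.lp [k100,k26,k22,k38,k22,k30] [k0,k0,k37,k37,k39,k39,k31,k31,k39,k39,k35,k35] k0 [[k0,k0,k0,k0,k0,k0,k2],[],[],
    [],[k0,k0,k0,k0,k0,k0,k0,k0,k0,k0,k2],[],[],[k0,k2],[],[],[],[k0,k0,k0,k0,k0,k2]] k120 k6
    [[(k4,k59),(k8,k61),(k10,k65)],[(k9,k59),(k5,k61),(k3,k63)],[(k2,k26),(k6,k34),(k0,k63)],[(k5,k24),(k9,k24),(k3,
    k26)],[(k2,k24),(k6,k30),(k0,k61)],[(k11,k26),(k7,k30),(k1,k59)],[(k4,k30),(k8,k30),(k10,k36)],[(k5,k30),(k9,k30),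
    (k3,k34)],[(k2,k24),(k6,k30),(k0,k59)],[(k11,k26),(k7,k30),(k1,k61)],[(k4,k26),(k8,k26),(k10,k30)],[(k11,k30),(k7,
    k36),(k1,k65)]]
    [] k0
    [[k0,k2,k0,k0,k0,k0],[k0,k3,k0,k0,k0,k0],[k0,k4,k0,k0,k0,k0],[k0,k2,k1,k1,k0,k0],[k0,k2,k0,k1,k1,k0],[k0,k1,k1,k1,
    k0,k0],[k0,k1,k0,k1,k1,k0],[k0,k0,k1,k1,k0,k0],[k0,k0,k1,k1,k0,k1],[k0,k0,k0,k1,k1,k0],[k0,k0,k0,k1,k1,k1],[k0,k0,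
    k0,k0,k0,k2],[k0,k0,k0,k0,k0,k3]]
    [.contra [z1],.ref k9 k0 [(z1,[z0,z1]),(z1,[z1]),(z1,[z0,y1,y1,z1])],.ref k10 k0 [(z1,[z0,z1]),(z2,[z1]),(z1,[z0,
    y1,y1,z1])],.ref k7 k0 [(z1,[z0,z1]),(z1,[z1,z1,z0,y1]),(z1,[z0,y1,y1,z1])],.ref k7 k0 [(z1,[z0,z1]),(z1,[z1,z0,
    y1]),(z1,[z0,y1,y1,z1])],.contra [y1,y1,z0,z1],.contra [y1,z0,z1],.contra [y1,y1,z0,z1],.contra [y1,y1,z0,z1],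
    .contra [y1,z0,z1],.contra [y1,z0,z1],.contra [z1],.ref k9 k1 [(z1,[z0,z0,y1,z1]),(z1,[z1]),(z1,[z0,z1,z1,y1])]]),
    .old (.lp [k86,k18,k30,k30,k34,k40] [k0,k0,k34,k34,k28,k28,k28,k28,k26,k26,k23,k23] k0 [[k0,k0,k26],[],[k0,k0,k0,k0,
    k0,k0,k2],[k0,k26],[k0,k0,k0,k0,k0,k0,k0,k0,k0,k0,k14],[k0,k0,k0,k0,k0,k0,k0,k0,k0,k4],[],[k0,k0,k0,k2],[k0,k0,k0,
    k0,k4],[],[],[k0,k0,k0,k0,k0,k14]] k120 k6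
    [[(k4,k44),(k8,k60),(k10,k63)],[(k5,k32),(k3,k52),(k9,k60)],[(k6,k24),(k2,k44),(k0,k52)],[(k5,k24),(k9,k24),(k3,
    k44)],[(k2,k24),(k0,k32),(k6,k32)],[(k7,k30),(k11,k39),(k1,k44)],[(k8,k28),(k4,k30),(k10,k49)],[(k3,k24),(k5,k32),
    (k9,k32)],[(k2,k24),(k6,k32),(k0,k60)],[(k7,k28),(k11,k37),(k1,k60)],[(k8,k37),(k4,k39),(k10,k40)],[(k11,k40),(k7,
    k49),(k1,k63)]]
    [] k0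
    [[k1,k0,k1,k0,k0,k0],[k0,k2,k0,k0,k0,k0],[k0,k1,k1,k1,k0,k0],[k0,k1,k0,k1,k1,k0],[k0,k0,k1,k1,k0,k0],[k0,k0,k0,k1,
    k1,k0],[k0,k0,k0,k1,k1,k1],[k0,k0,k0,k0,k0,k2]]
    [.ref k11 k0 [(z1,[z0,z1]),(z1,[y1,z0,z1])],.contra [z1],.contra [y1,y1,z1],.ref k6 k1 [(z1,[y1,z1]),(z1,[z0,y1,
    z1])],.contra [y1,y1,z1],.ref k0 k1 [(z1,[y1,z0,z1])],.ref k1 k1 [(z1,[y1,z0,z1])],.contra [z1]]),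
    .old (.lp [k22,k18,k6,k20,k8,k20] [k0,k0,k2,k2,k8,k8,k1,k1,k7,k7,k1,k1] k0 [[k0,k0,k0,k0,k0,k0,k2],[],[],[],[k0,k0,k0,
    k0,k0,k0,k0,k0,k0,k0,k2],[],[],[k0,k2],[],[],[],[k0,k0,k0,k0,k0,k2]] k48 k5
    [[(k4,k12),(k8,k15),(k10,k21)],[(k9,k13),(k5,k14),(k3,k20)],[(k2,k18),(k0,k20),(k6,k21)],[(k5,k12),(k9,k13),(k3,
    k18)],[(k2,k12),(k6,k13),(k0,k14)],[(k1,k12),(k7,k13),(k11,k13)],[(k4,k13),(k8,k14),(k10,k22)],[(k5,k13),(k9,k14),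
    (k3,k21)],[(k0,k13),(k2,k13),(k6,k14)],[(k7,k14),(k11,k14),(k1,k15)],[(k4,k13),(k8,k14),(k10,k20)],[(k11,k20),(k1,
    k21),(k7,k22)]]
    [] k0
    [[k1,k0,k1,k0,k0,k0],[k1,k1,k1,k0,k0,k0],[k1,k0,k0,k0,k1,k0],[k0,k2,k0,k0,k0,k0],[k0,k1,k1,k1,k0,k0],[k0,k0,k1,k1,
    k0,k0],[k0,k0,k0,k1,k1,k0],[k0,k0,k0,k0,k0,k2]]
    [.ref k12 k1 [(z1,[z1])],.ref k1 k1 [(z1,[z1])],.ref k12 k0 [(z1,[z1])],.contra [z1],.ref k1 k0 [(z1,[y1,z1])],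
    .ref k0 k0 [(z1,[y1,z1])],.ref k0 k1 [(z1,[y1,z1])],.contra [z1]])]⟩

/-- classes `0 0 1 0 1 1`, types `C0 C0 C0 C0 C0 C2` -/
noncomputable def cU6_910 : CertX :=
  ⟨[k4,k4,k20,k4,k20,k22],[(false,k0,[k0,k1,k2,k3,k4,k5])],[[[([z1,z1,z1,z0,z0,z1],z2)],[([z1,z1,z0,z0,z1,z1],z2)],
    [([z1,z0,z0,z0,z1,z1],z2)],[]]],
    [.old (.leafM k0 [k0,k1,k2,k5] [] [(k3,k4,z1,[y1,z1]),(k4,k3,z1,[y1,z1])]),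
    .old (.leafM k0 [k0,k1,k4,k5] [] [(k2,k3,z1,[y1,z1]),(k3,k2,z1,[y1,z1])]),
    .old (.leafM k0 [k0,k1,k2,k3,k4,k5] [(z1,[y1,z1])] []),
    .old (.lp [k24,k20,k4,k20,k6,k20] [k0,k0,k2,k2,k10,k10,k2,k2,k9,k9,k2,k2] k0 [[k0,k0,k0,k0,k0,k0,k2],[],[],[],[],[],
    [],[k0,k2]] k48 k5
    [[(k7,k22),(k10,k22),(k11,k22)],[(k9,k13),(k5,k14),(k3,k22)],[(k2,k20),(k0,k22),(k6,k22)],[(k5,k12),(k9,k13),(k3,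
    k20)],[(k2,k12),(k6,k12),(k0,k14)],[(k7,k12),(k10,k12),(k11,k12)],[(k4,k12),(k8,k13),(k1,k22)],[(k5,k12),(k9,k13),
    (k3,k22)],[(k0,k13),(k2,k13),(k6,k13)],[(k7,k13),(k10,k13),(k11,k13)],[(k4,k12),(k8,k13),(k1,k22)],[(k4,k12),(k8,
    k13),(k1,k22)]]
    [] k0
    [[k0,k2,k0,k0,k0,k0],[k0,k1,k1,k1,k0,k0],[k0,k0,k1,k1,k0,k0],[k0,k0,k0,k1,k1,k0]]
    [.contra [z1],.ref k2 k0 [(z1,[y1,z1])],.ref k1 k0 [(z1,[y1,z1])],.ref k0 k0 [(z1,[y1,z1])]])]⟩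

/-- classes `0 0 1 0 1 1`, types `C0 C0 C0 C0 C2 C0` -/
noncomputable def cU6_911 : CertX :=
  ⟨[k4,k4,k20,k4,k22,k20],[(false,k0,[k0,k1,k2,k3,k4,k5])],[[[([z1,z1,z1,z0,z0,z0],z2)],[([z1,z1,z0,z0,z1,z1],z2)],
    [([z1,z0,z0,z0,z1,z1],z2)],[]]],
    [.old (.leafM k0 [k2,k3,k4,k5,k0,k1] [(z1,[y1,z1])] []),
    .old (.leafM k0 [k0,k1,k4,k5] [] [(k2,k3,z1,[y1,z1]),(k3,k2,z1,[y1,z1])]),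
    .old (.leafM k0 [k0,k1,k2,k3,k4,k5] [(z1,[y1,z1])] []),
    .old (.lp [(nat_lit 4416),(nat_lit 2024),(nat_lit 1656),(nat_lit 1380),(nat_lit 1056),(nat_lit 1380)] [k0,k0,
    (nat_lit 1196),(nat_lit 1196),(nat_lit 1380),(nat_lit 1380),(nat_lit 1518),(nat_lit 1518),(nat_lit 1680),
    (nat_lit 1680),(nat_lit 1518),(nat_lit 1518)] k0 [[k0,k0,k0,k0,k0,k0,(nat_lit 253)],[],[],[],[],[],[],[k0,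
    (nat_lit 253)]] (nat_lit 6072) k6
    [[(k10,(nat_lit 2898)),(k11,(nat_lit 2898)),(k4,(nat_lit 3036))],[(k9,(nat_lit 2483)),(k5,(nat_lit 3036)),(k3,
    (nat_lit 3220))],[(k6,(nat_lit 1955)),(k2,(nat_lit 2024)),(k0,(nat_lit 3220))],[(k9,(nat_lit 1540)),(k5,
    (nat_lit 1840)),(k3,(nat_lit 2024))],[(k6,(nat_lit 1518)),(k2,(nat_lit 1840)),(k0,(nat_lit 3036))],[(k8,
    (nat_lit 1356)),(k7,(nat_lit 1518)),(k1,(nat_lit 3036))],[(k10,(nat_lit 1380)),(k11,(nat_lit 1380)),(k4,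
    (nat_lit 1518))],[(k9,(nat_lit 1218)),(k5,(nat_lit 1518)),(k3,(nat_lit 1955))],[(k6,(nat_lit 1218)),(k2,
    (nat_lit 1540)),(k0,(nat_lit 2483))],[(k10,(nat_lit 1218)),(k11,(nat_lit 1218)),(k4,(nat_lit 1356))],[(k8,
    (nat_lit 1218)),(k7,(nat_lit 1380)),(k1,(nat_lit 2898))],[(k8,(nat_lit 1218)),(k7,(nat_lit 1380)),(k1,
    (nat_lit 2898))]]
    [] k0
    [[k0,k2,k0,k0,k0,k0],[k0,k1,k1,k1,k0,k0],[k0,k0,k1,k1,k0,k0],[k0,k0,k0,k1,k1,k1]]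
    [.contra [z1],.ref k2 k0 [(z1,[y1,z1])],.ref k1 k0 [(z1,[y1,z1])],.ref k0 k0 [(z1,[y1,z1])]])]⟩

/-- classes `0 0 1 0 1 1`, types `C0 C0 C0 C0 C2 C2` -/
noncomputable def cU6_912 : CertX :=
  ⟨[k4,k4,k20,k4,k22,k22],[(false,k0,[k0,k1,k2,k3,k4,k5])],[[[([z1,z1,z0,z0,z1,z1],z2)],[([z1,z0,z0,z0,z1,z1],z2)],
    []]],
    [.old (.leafM k0 [k0,k1,k4,k5] [] [(k2,k3,z1,[y1,z1]),(k3,k2,z1,[y1,z1])]),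
    .old (.leafM k0 [k0,k1,k2,k3,k4,k5] [(z1,[y1,z1])] []),
    .old (.lp [k65,k44,k10,k38,k38,k40] [k0,k5,k13,k13,k30,k30,k16,k16,k16,k16,k15,k15] k0 [[k0,k0,k16],[k0,k0,k0,k0,k0,
    k0,k0,k17],[k0,k0,k0,k0,k0,k0,k17],[k0,k16],[],[k0,k0,k0,k0,k0,k0,k0,k0,k0,k0,k15],[k17],[k0,k0,k0,k17],[],[],[],
    [k0,k0,k0,k0,k15]] k120 k6
    [[(k7,k34),(k8,k49),(k10,k50)],[(k5,k24),(k3,k57),(k9,k71)],[(k6,k24),(k0,k57),(k2,k60)],[(k9,k24),(k5,k27),(k3,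
    k60)],[(k0,k24),(k2,k27),(k6,k41)],[(k7,k24),(k8,k24),(k10,k40)],[(k4,k24),(k1,k34),(k11,k39)],[(k3,k24),(k9,k38),
    (k5,k41)],[(k2,k24),(k6,k38),(k0,k71)],[(k4,k24),(k11,k39),(k1,k49)],[(k7,k39),(k8,k39),(k10,k40)],[(k4,k40),(k11,
    k40),(k1,k50)]]
    [] k0
    [[k0,k1,k1,k1,k0,k0],[k0,k0,k1,k1,k0,k0],[k0,k0,k0,k0,k0,k2]]
    [.ref k1 k0 [(z1,[y1,z1])],.ref k0 k0 [(z1,[y1,z1])],.contra [z1]])]⟩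

/-- classes `0 0 1 0 1 1`, types `C0 C0 C0 C2 C0 C2` -/
noncomputable def cU6_913 : CertX :=
  ⟨[k4,k4,k20,k6,k20,k22],[(false,k0,[k0,k1,k2,k3,k4,k5])],[[[([z1,z1,z1,z0,z0,z1],z2)],[([z1,z0,z0,z1,z0,z0],z2)],
    [([z1,z1,z0,z1,z0,z0],z2)],[]]],
    [.old (.leafM k0 [k0,k1,k2,k5] [] [(k3,k4,z1,[y1,z1]),(k4,k3,z1,[y1,z1])]),
    .old (.leafM k2 [k1,k2,k4,k5] [] [(k3,k0,z1,[z1]),(k0,k3,z1,[z1])]),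
    .old (.leafM k3 [k1,k2,k3,k4,k5,k0] [(z1,[y1,z1])] []),
    .old (.lp [k22,k18,k18,k6,k22,k8] [k0,k0,k2,k2,k2,k2,k8,k8,k0,k0,k7,k7] k0 [[k0,k0,k0,k0,k0,k0,k0,k2],[],[],[],[],[],
    [k0,k2]] k48 k5
    [[(k7,k14),(k10,k15),(k11,k15)],[(k6,k12),(k3,k20),(k5,k20)],[(k2,k18),(k0,k20),(k9,k22)],[(k6,k12),(k3,k18),(k5,
    k18)],[(k2,k18),(k0,k20),(k9,k20)],[(k7,k12),(k10,k13),(k11,k13)],[(k4,k12),(k1,k14),(k8,k14)],[(k0,k12),(k2,k12),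
    (k9,k14)],[(k6,k14),(k5,k20),(k3,k22)],[(k7,k14),(k10,k15),(k11,k15)],[(k4,k13),(k1,k15),(k8,k15)],[(k4,k13),(k1,
    k15),(k8,k15)]]
    [] k0
    [[k1,k0,k0,k1,k0,k0],[k1,k1,k0,k1,k0,k0],[k0,k2,k0,k0,k0,k0],[k0,k0,k0,k1,k1,k0]]
    [.ref k1 k0 [(z1,[z1])],.ref k2 k0 [(z1,[z1])],.contra [z1],.ref k0 k0 [(z1,[y1,z1])]])]⟩

/-- classes `0 0 1 0 1 1`, types `C0 C0 C0 C2 C2 C0` -/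
noncomputable def cU6_914 : CertX :=
  ⟨[k4,k4,k20,k6,k22,k20],[(false,k0,[k0,k1,k2,k3,k4,k5])],[[[([z1,z1,z1,z0,z0,z0],z2)],[([z1,z1,z0,z1,z0,z1],z2)],
    [([z1,z0,z0,z1,z0,z1],z2)],[]]],
    [.old (.leafM k0 [k2,k3,k4,k5,k0,k1] [(z1,[y1,z1])] []),
    .old (.leafM k1 [k5,k0,k1,k3] [] [(k2,k4,z1,[y1,z1]),(k4,k2,z1,[y1,z1])]),
    .old (.leafM k3 [k2,k3,k4,k5,k0,k1] [(z1,[z1])] []),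
    .old (.lp [(nat_lit 1188),(nat_lit 660),(nat_lit 792),(nat_lit 360),(nat_lit 440),(nat_lit 440)] [k0,k0,(nat_lit 264),
    (nat_lit 264),k198,k198,(nat_lit 414),(nat_lit 414),(nat_lit 374),(nat_lit 374),(nat_lit 374),
    (nat_lit 374)] k0 [[k0,k0,k0,k0,k0,k0,k0,k165],[],[],[],[],[],[k0,k165]] (nat_lit 1980) k6
    [[(k10,(nat_lit 814)),(k11,(nat_lit 814)),(k4,(nat_lit 990))],[(k6,(nat_lit 609)),(k3,(nat_lit 924)),(k5,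
    (nat_lit 990))],[(k2,(nat_lit 660)),(k9,(nat_lit 715)),(k0,(nat_lit 924))],[(k6,(nat_lit 510)),(k3,(nat_lit 660)),
    (k5,(nat_lit 726))],[(k9,(nat_lit 616)),(k2,(nat_lit 726)),(k0,(nat_lit 990))],[(k7,(nat_lit 576)),(k8,
    (nat_lit 616)),(k1,(nat_lit 990))],[(k10,(nat_lit 400)),(k11,(nat_lit 400)),(k4,(nat_lit 576))],[(k9,
    (nat_lit 400)),(k2,(nat_lit 510)),(k0,(nat_lit 609))],[(k6,(nat_lit 400)),(k5,(nat_lit 616)),(k3,(nat_lit 715))],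
    [(k10,(nat_lit 440)),(k11,(nat_lit 440)),(k4,(nat_lit 616))],[(k7,(nat_lit 400)),(k8,(nat_lit 440)),(k1,
    (nat_lit 814))],[(k7,(nat_lit 400)),(k8,(nat_lit 440)),(k1,(nat_lit 814))]]
    [] k0
    [[k1,k0,k0,k1,k0,k1],[k0,k2,k0,k0,k0,k0],[k0,k0,k1,k0,k1,k0],[k0,k0,k0,k1,k1,k1]]
    [.ref k2 k0 [(z1,[z1])],.contra [z1],.ref k1 k0 [(z1,[y1,z1])],.ref k0 k0 [(z1,[y1,z1])]])]⟩

/-- classes `0 0 1 0 1 1`, types `C0 C0 C0 C2 C2 C2` -/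
noncomputable def cU6_915 : CertX :=
  ⟨[k4,k4,k20,k6,k22,k22],[(false,k0,[k0,k1,k2,k3,k4,k5]),(true,k0,[k0,k5,k4,k3,k2,k1])],[[[([z1,z1,z0,z1,z0,z1],z2)],
    [([z1,z0,z0,z1,z0,z0],z2)],[([z1,z0,z0,z1,z0,z1],z2)],[]]],
    [.old (.leafM k1 [k5,k0,k1,k3] [] [(k2,k4,z1,[y1,z1]),(k4,k2,z1,[y1,z1])]),
    .old (.leafM k2 [k1,k2,k4,k5] [] [(k3,k0,z1,[z1]),(k0,k3,z1,[z1])]),
    .old (.leafM k3 [k2,k3,k4,k5,k0,k1] [(z1,[z1])] []),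
    .old (.lp [k14,k24,k14,k10,k14,k16] [k5,k5,k0,k0,k5,k5,k7,k7,k5,k5,k4,k4] k0 [[],[],[k0,k0,k0,k0,k0,k0,k0,k4],[],[],
    [],[k0,k0,k0,k4]] k48 k5
    [[(k7,k12),(k8,k14),(k10,k15)],[(k6,k12),(k5,k14),(k3,k19)],[(k0,k19),(k9,k19),(k2,k24)],[(k6,k13),(k5,k19),(k3,
    k24)],[(k0,k14),(k9,k18),(k2,k19)],[(k7,k12),(k8,k14),(k10,k15)],[(k1,k12),(k4,k12),(k11,k13)],[(k0,k12),(k9,k12),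
    (k2,k13)],[(k6,k12),(k5,k18),(k3,k19)],[(k1,k14),(k4,k14),(k11,k15)],[(k7,k13),(k8,k15),(k10,k16)],[(k1,k15),(k4,
    k15),(k11,k16)]]
    [] k0
    [[k1,k0,k0,k1,k0,k0],[k1,k1,k0,k1,k0,k0],[k1,k0,k0,k1,k0,k1],[k0,k0,k1,k0,k1,k0],[k0,k0,k0,k0,k0,k2]]
    [.ref k1 k0 [(z1,[z1])],.ref k2 k1 [(z1,[z1])],.ref k2 k0 [(z1,[z1])],.ref k0 k0 [(z1,[y1,z1])],.contra [z1]])]⟩

/-- classes `0 0 1 0 1 1`, types `C0 C0 S0 C0 S0 S0` -/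
noncomputable def cU6_916 : CertX :=
  ⟨[k4,k4,k16,k4,k16,k16],[(false,k0,[k0,k1,k2,k3,k4,k5])],[[[([z1,z1,z1,z0,z0,z1],z2)],[([z1,z1,z0,z0,z1,z1],z2)],
    [([z1,z0,z0,z0,z1,z1],z2)],[([z1,z1,z1,z0,z0,z0],z2)],[([z1,z0,z0,z0,z1,z0],z2),([z0,z3,z0,z0,z0,z0],z1),([z0,z0,
    z3,z0,y3,z0],y2),([z0,z0,z0,z3,z3,z0],z5)],[([z1,z0,z0,z0,z1,z0],z2),([z0,z1,z0,z1,z1,z0],z2),([z0,z0,z3,z0,y3,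
    z0],y2)],[([z1,z0,z0,z0,z1,z0],z2),([z0,z3,z0,z0,z0,z0],z2),([z0,z0,z3,z0,y3,z0],y1),([z0,z0,z0,z3,z3,z0],z4)],
    [([z1,z0,z0,z0,z1,z0],z2),([z0,z1,z0,z0,z0,z1],z1),([z0,z0,z1,z0,y1,z1],z0)],[([z1,z0,z0,z0,z1,z0],z2),([z0,z1,z0,
    z1,z1,z0],z2)],[([z1,z0,z0,z0,z1,z0],z2),([z0,z1,z0,z0,z0,y1],z0),([z0,z0,z1,z0,y1,z0],z0)],[([z1,z0,z0,z0,z1,z0],
    z2),([z0,z3,z0,z0,z0,z0],z1),([z0,z0,z1,z0,y1,z0],z0),([z0,z0,z0,z1,z1,z0],z1)],[([z1,z0,z0,z0,z1,z0],z2),([z0,z3,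
    z0,z3,z3,z0],z4),([z0,z0,z1,z0,y1,z0],z0)]],[[([z1,z0,z0,z0,z1,z0],z2),([z0,z3,z0,z0,z0,z0],z2),([z0,z0,z1,z0,y1,
    z0],z0),([z0,z0,z0,z1,z1,z0],z1)],[([z1,z0,z0,z0,z1,z0],z2),([z0,z3,z0,z0,z0,z0],z2),([z0,z0,z1,z0,y1,z0],z0)],
    [([z1,z0,z0,z0,z1,z0],z2),([z0,z2,z0,z0,z0,z0],z1),([z0,z0,z1,z0,y1,z0],z0)],[([z1,z0,z0,z0,z1,z0],z2),([z0,z1,z0,
    z1,z1,z1],z2)],[([z1,z0,z0,z0,z1,z0],z2)],[([z3,z0,z0,z0,z3,z0],z5),([z0,z3,z0,z0,z0,z0],z1),([z0,z0,z3,z0,y3,z0],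
    z1),([z0,z0,z0,z1,z1,z0],z1)],[([z3,z0,z0,z0,z3,z0],z4),([z0,z3,z0,z0,z0,z0],z2),([z0,z0,z3,z0,y3,z0],z2),([z0,z0,
    z0,z1,z1,z0],z1)],[([z1,z0,z0,z0,z1,y1],z1),([z0,z1,z0,z0,z0,z1],z1),([z0,z0,z1,z0,y1,z1],z1)],[([z3,z0,z0,z0,z3,
    z0],z4),([z0,z3,z0,z0,z0,z0],z2),([z0,z0,z3,z0,y3,z0],z2)],[([z1,z0,z0,y1,z0,y1],z0),([z0,z1,z0,z1,z1,z1],z2)],
    [([z1,z0,z1,z0,z0,z0],z2)],[]]],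
    [.old (.leafM k0 [k0,k1,k2,k5] [] [(k3,k4,z1,[y1,z1]),(k4,k3,z1,[y1,z1])]),
    .old (.leafM k0 [k0,k1,k4,k5] [] [(k2,k3,z1,[y1,z1]),(k3,k2,z1,[y1,z1])]),
    .old (.leafM k0 [k0,k1,k2,k3,k4,k5] [(z1,[y1,z1])] []),
    .old (.leafM k0 [k2,k3,k4,k5,k0,k1] [(z1,[y1,z1])] []),
    .lp [(nat_lit 2884),(nat_lit 882),(nat_lit 840),(nat_lit 1904),(nat_lit 2800),(nat_lit 1862)] [k0,k0,(nat_lit 1001),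
    (nat_lit 1001),(nat_lit 1022),(nat_lit 1022),(nat_lit 490),(nat_lit 490),k42,k42,(nat_lit 511),
    (nat_lit 511)] k0 [] (nat_lit 5880) k8
    [[(k4,(nat_lit 1862)),(k10,(nat_lit 2373)),(k11,(nat_lit 2373)),(k7,(nat_lit 2394)),(k8,(nat_lit 2842)),(k1,
    (nat_lit 2884))],[(k5,(nat_lit 1862)),(k3,(nat_lit 1883)),(k9,(nat_lit 2842))],[(k2,(nat_lit 882)),(k6,
    (nat_lit 1393)),(k0,(nat_lit 1883))],[(k5,(nat_lit 861)),(k3,(nat_lit 882)),(k9,(nat_lit 1841))],[(k2,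
    (nat_lit 861)),(k6,(nat_lit 1372)),(k0,(nat_lit 1862))],[(k4,(nat_lit 840)),(k10,(nat_lit 1351)),(k11,
    (nat_lit 1351)),(k7,(nat_lit 1372)),(k8,(nat_lit 1820)),(k1,(nat_lit 1862))],[(k4,(nat_lit 1372)),(k10,
    (nat_lit 1883)),(k11,(nat_lit 1883)),(k7,(nat_lit 1904)),(k8,(nat_lit 2352)),(k1,(nat_lit 2394))],[(k5,
    (nat_lit 1372)),(k3,(nat_lit 1393)),(k9,(nat_lit 2352))],[(k2,(nat_lit 1841)),(k6,(nat_lit 2352)),(k0,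
    (nat_lit 2842))],[(k4,(nat_lit 1820)),(k10,(nat_lit 2331)),(k11,(nat_lit 2331)),(k7,(nat_lit 2352)),(k8,
    (nat_lit 2800)),(k1,(nat_lit 2842))],[(k4,(nat_lit 1351)),(k10,(nat_lit 1862)),(k11,(nat_lit 1862)),(k7,
    (nat_lit 1883)),(k8,(nat_lit 2331)),(k1,(nat_lit 2373))],[(k4,(nat_lit 1351)),(k10,(nat_lit 1862)),(k11,
    (nat_lit 1862)),(k7,(nat_lit 1883)),(k8,(nat_lit 2331)),(k1,(nat_lit 2373))]]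
    [[k0,k4,k2,k2],[k0,k8],[k0,k10,k4],[k0,k11,k4],[k1,k3,k3,k5],[k1,k5,k10],[k1,k5,k11],[k1,k9],[k2,k2,k2,k2,k2,k2],
    [k2,k2,k2,k6,k4],[k2,k2,k6,k4,k2],[k2,k6,k4,k2,k2],[k2,k6,k8],[k2,k6,k10,k4],[k2,k6,k11,k4],[k3,k3,k3,k3,k3,k3],
    [k3,k3,k3,k5,k7],[k3,k3,k5,k7,k3],[k3,k5,k7,k3,k3],[k3,k5,k10,k7],[k3,k5,k11,k7],[k3,k9,k7],[k4,k6,k4,k6],[k4,k6,
    k7,k5],[k5,k7,k5,k7],[k10,k10,k10],[k10,k10,k11],[k10,k11,k10],[k10,k11,k11],[k11,k11,k11]]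
    ⟨[[[k0,k4,k2,k2],[k0,k8],[k0,k10,k4],[k0,k11,k4],[k1,k3,k3,k5],[k1,k5,k10],[k1,k5,k11],[k1,k9],[k2,k0,k4,k2],[k2,
    k2,k0,k4],[k2,k2,k2,k2,k2,k2],[k2,k2,k2,k6,k4]],
    [[k2,k2,k6,k4,k2],[k2,k6,k4,k2,k2],[k2,k6,k8],[k2,k6,k10,k4],[k2,k6,k11,k4],[k3,k3,k3,k3,k3,k3],[k3,k3,k3,k5,k7],
    [k3,k3,k5,k1],[k3,k3,k5,k7,k3],[k3,k5,k1,k3],[k3,k5,k7,k3,k3],[k3,k5,k10,k7]],
    [[k3,k5,k11,k7],[k3,k9,k7],[k4,k0,k10],[k4,k0,k11],[k4,k2,k2,k0],[k4,k2,k2,k2,k6],[k4,k2,k6,k10],[k4,k2,k6,k11],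
    [k4,k6,k4,k6],[k4,k6,k7,k5],[k5,k1,k3,k3],[k5,k4,k6,k7]],
    [[k5,k7,k3,k3,k3],[k5,k7,k5,k7],[k5,k10,k1],[k5,k10,k7,k3],[k5,k11,k1],[k5,k11,k7,k3],[k6,k4,k2,k2,k2],[k6,k4,k6,
    k4],[k6,k7,k5,k4],[k6,k8,k2],[k6,k10,k4,k2],[k6,k11,k4,k2]],
    [[k7,k3,k3,k3,k5],[k7,k3,k5,k10],[k7,k3,k5,k11],[k7,k3,k9],[k7,k5,k4,k6],[k7,k5,k7,k5],[k8,k0],[k8,k2,k6],[k9,k1],
    [k9,k7,k3],[k10,k1,k5],[k10,k4,k0]],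
    [[k10,k4,k2,k6],[k10,k7,k3,k5],[k10,k10,k10],[k10,k10,k11],[k10,k11,k10],[k10,k11,k11],[k11,k1,k5],[k11,k4,k0],
    [k11,k4,k2,k6],[k11,k7,k3,k5],[k11,k10,k10],[k11,k10,k11]],
    [[k11,k11,k10],[k11,k11,k11]]],
    [[k28,k54,k59,k67,k19,k38,k40,k56,k0,k8,k10,k12],
    [k13,k42,k45,k46,k47,k17,k20,k21,k22,k34,k36,k39],
    [k41,k57,k2,k3,k9,k11,k15,k16,k43,k44,k4,k33],
    [k48,k53,k58,k61,k66,k69,k29,k32,k52,k55,k60,k68],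
    [k18,k23,k24,k25,k35,k37,k1,k14,k7,k51,k5,k26],
    [k30,k49,k62,k64,k70,k72,k6,k27,k31,k50,k63,k65],
    [k71,k73]],
    [[k8,k54,k26,k27,k34,k58,k66,k56,k9,k28,k10,k29],
    [k11,k12,k55,k30,k31,k17,k48,k4,k18,k19,k20,k49],
    [k50,k51,k59,k67,k0,k42,k60,k68,k43,k35,k21,k52],
    [k22,k53,k5,k23,k6,k24,k13,k32,k33,k14,k15,k16],
    [k36,k61,k69,k57,k44,k37,k1,k45,k7,k25,k38,k2],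
    [k46,k39,k62,k70,k63,k71,k40,k3,k47,k41,k64,k72],
    [k65,k73]],
    [[[k60],[k62,k64],[k59],[],[k19],[k17,k20,k21,k22],[k17,k20,k21,k22],[k18,k23,k24,k25],[k0],[k2,k3],[k2,k3],[k2,
    k3]],
    [[k2,k3],[k1],[k1],[k1],[k1],[k38,k40],[k38,k40],[k38,k40],[k38,k40],[k34,k36,k39,k41],[k34,k36,k39,k41],[k34,k36,
    k39,k41]],
    [[k34,k36,k39,k41],[k35,k37],[k8,k10,k12,k13],[k8,k10,k12,k13],[k9,k11,k15,k16],[k9,k11,k15,k16],[k9,k11,k15,k16],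
    [k9,k11,k15,k16],[k14],[k14],[k50],[k52]],
    [[k48,k53],[k48,k53],[],[],[k51],[k51],[k29,k32],[k29,k32],[k33],[k26,k30],[k28],[]],
    [[k56],[k56],[k56],[k56],[k57],[k57],[k42,k45,k46,k47],[k43,k44],[k71,k73],[k66,k69],[],[k55]],
    [[k55],[],[k54],[k54],[],[],[k6],[],[],[k4],[],[]],
    [[k7],[k7]]],k74⟩ k2 k2 k98
    [[k1,k0,k1,k0,k0,k0],[k1,k1,k1,k0,k0,k0],[k0,k2,k0,k0,k0,k0],[k0,k3,k0,k0,k0,k0],[k0,k4,k0,k0,k0,k0],[k0,k5,k0,k0,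
    k0,k0],[k0,k2,k1,k1,k0,k0],[k0,k1,k1,k1,k0,k0],[k0,k0,k1,k1,k0,k0],[k0,k0,k1,k1,k0,k1],[k0,k0,k0,k1,k1,k0],[k0,k0,
    k0,k0,k0,k2]]
    [.contra [z3,y3,z1,y1],.contra [z6,y6,y1,y2],.contra [z1],.contra [z2,z0,y1],.contra [z1,z0,y1],.contra [z2,z0,
    y3],.contra [z6,z0,y3,y2,y2],.contra [z3,z0,z0,y1,y1],.contra [z6,z0,z3,y2,y2],.contra [z2,z2,z1,z0,z0,y2],
    .contra [z6,z0,z1,z0,y2],.contra [z3,z6,z3,z2,z2,y6]],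
    .old (.lp [(nat_lit 222),k124,k96,k96,(nat_lit 258),k162] [k18,k18,k67,k67,k81,k81,k81,k81,k0,k0,k48,k48] k0 [[k0,k0,
    k0,k0,k0,k0,k2],[],[],[],[],[],[],[k0,k2],[],[k0,k0,k0,k0,k0,k0,k0,k0,k0,k0,k0,k2],[k0,k0,k0,k0,k0,k0,k0,k0,
    k2]] (nat_lit 480) k6
    [[(k4,k159),(k7,k159),(k10,k192),(k11,k192),(k1,(nat_lit 222)),(k8,(nat_lit 242))],[(k5,k159),(k3,k173),(k9,
    (nat_lit 238))],[(k6,k112),(k2,k124),(k0,k173)],[(k5,k110),(k3,k124),(k9,k191)],[(k6,k96),(k2,k110),(k0,k159)],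
    [(k4,k96),(k7,k96),(k10,k129),(k11,k129),(k1,k159),(k8,k177)],[(k4,k96),(k7,k96),(k10,k129),(k11,k129),(k1,k159),
    (k8,k177)],[(k5,k96),(k3,k112),(k9,k177)],[(k6,k177),(k2,k191),(k0,(nat_lit 238))],[(k4,k177),(k7,k177),(k10,
    (nat_lit 210)),(k11,(nat_lit 210)),(k1,(nat_lit 242)),(k8,(nat_lit 258))],[(k4,k129),(k7,k129),(k10,k160),(k11,
    k162),(k1,k192),(k8,(nat_lit 210))],[(k4,k129),(k7,k129),(k11,k160),(k10,k162),(k1,k192),(k8,(nat_lit 210))]]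
    [] k0
    [[k1,k0,k1,k0,k0,k0],[k1,k1,k1,k0,k0,k0],[k0,k2,k0,k0,k0,k0],[k0,k3,k0,k0,k0,k0],[k0,k2,k1,k1,k0,k0],[k0,k1,k1,k1,
    k0,k0],[k0,k0,k1,k1,k0,k0],[k0,k0,k2,k2,k0,k0],[k0,k0,k1,k1,k0,k1],[k0,k0,k0,k1,k1,k0],[k0,k0,k0,k0,k0,k2]]
    [.contra [z1,y3,y2,y1,z2],.ref k3 k0 [(z1,[z1])],.contra [z1],.ref k3 k0 [(z3,[z1,z3,z0,z1])],.ref k3 k0 [(z1,[z1,
    z1,y1])],.contra [z1,y2,y3,y1,z2],.contra [y2,z1,z2,z1],.ref k4 k0 [(z1,[z0,z1]),(z2,[y3,z0,z6,z2]),(z1,[z0,z0,z0,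
    z1]),(z2,[z3,z0,z0,y2])],.contra [y1,y1,z0,z0,z1],.contra [y1,z0,z1],.contra [z1]]),
    .old (.lp [(nat_lit 482),(nat_lit 266),k120,(nat_lit 272),(nat_lit 260),k196] [k0,k0,k108,k108,k181,k181,k105,k105,
    k111,k111,k143,k143] k0 [[],[],[],[],[],[k0,k0,k0,k0,k0,k0,k0,k0,k0,k0,k28],[],[],[k0,k0,k0,k0,k0,k0,k0,k0,k0,k0,
    k0,k14],[k0,k0,k0,k0,k0,k0,k0,k0,k0,k0,k0,k70],[k0,k0,k0,k0,k0,k0,k0,k0,k70,k14],[k0,k0,k0,k0,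
    k28]] (nat_lit 840) k8
    [[(k4,(nat_lit 301)),(k10,(nat_lit 339)),(k7,(nat_lit 349)),(k11,(nat_lit 353)),(k8,(nat_lit 441)),(k1,
    (nat_lit 482))],[(k5,(nat_lit 301)),(k9,(nat_lit 371)),(k3,(nat_lit 374))],[(k2,(nat_lit 266)),(k6,(nat_lit 269)),
    (k0,(nat_lit 374))],[(k5,k193),(k9,(nat_lit 263)),(k3,(nat_lit 266))],[(k2,k193),(k6,k196),(k0,(nat_lit 301))],
    [(k4,k120),(k11,k158),(k10,k186),(k8,k190),(k7,k196),(k1,(nat_lit 301))],[(k4,k196),(k10,(nat_lit 234)),(k11,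
    (nat_lit 234)),(k8,(nat_lit 266)),(k7,(nat_lit 272)),(k1,(nat_lit 349))],[(k5,k196),(k9,(nat_lit 266)),(k3,
    (nat_lit 269))],[(k2,(nat_lit 263)),(k6,(nat_lit 266)),(k0,(nat_lit 371))],[(k4,k190),(k10,(nat_lit 214)),(k11,
    (nat_lit 228)),(k8,(nat_lit 260)),(k7,(nat_lit 266)),(k1,(nat_lit 441))],[(k10,k126),(k4,k158),(k11,k196),(k8,
    (nat_lit 228)),(k7,(nat_lit 234)),(k1,(nat_lit 353))],[(k11,k126),(k4,k186),(k10,k196),(k8,(nat_lit 214)),(k7,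
    (nat_lit 234)),(k1,(nat_lit 339))]]
    [[k0,k8],[k0,k10,k4],[k1,k5,k11],[k1,k9],[k2,k2,k2],[k2,k6,k8],[k3,k3,k3],[k3,k9,k7],[k4,k6,k4,k6],[k4,k6,k7,k5],
    [k5,k7,k5,k7],[k10,k10,k10,k10,k10,k10],[k11,k11,k11,k11,k11,k11]] k14
    [[k1,k0,k1,k0,k0,k0],[k0,k2,k0,k0,k0,k0],[k0,k1,k1,k1,k0,k0],[k0,k0,k1,k1,k0,k0],[k0,k0,k1,k1,k0,k1],[k0,k0,k1,k1,
    k0,k2],[k0,k0,k0,k1,k1,k0],[k0,k0,k0,k1,k1,k1],[k0,k0,k0,k0,k0,k2],[k0,k0,k0,k0,k0,k3],[k0,k0,k0,k0,k0,k4],[k0,k0,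
    k0,k0,k0,k5]]
    [.contra [z3,y3,z1,y1],.contra [z1],.contra [z3,z0,z0,y1,y1],.contra [z3,z0,z3,y1,y1],.contra [z1,z1,z1,z0,z0,y1],
    .contra [z3,z6,z3,z1,z1,y6],.contra [z3,z0,z2,z0,y1],.contra [z3,z3,z2,z1,z0,y3],.contra [z3,z6,z6,z2,z2,y6],
    .contra [z1,z3,z2,z1,z1,y3],.contra [z3,z12,z6,z4,z4,y12],.contra [z3,z15,z6,z5,z5,y15]]),
    .old (.lp [k64,k26,k24,k36,k56,k32] [k0,k0,k19,k19,k20,k20,k14,k14,k4,k4,k16,k16] k0 [[k0,k0,k0,k0,k0,k0,k2],[],[],[],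
    [],[],[],[k0,k2],[],[k0,k0,k0,k0,k0,k0,k0,k0,k0,k0,k0,k2],[k0,k0,k0,k0,k0,k0,k0,k0,k2]] k120 k6
    [[(k4,k44),(k10,k48),(k11,k48),(k7,k50),(k8,k62),(k1,k64)],[(k5,k44),(k3,k45),(k9,k58)],[(k2,k26),(k6,k33),(k0,
    k45)],[(k5,k25),(k3,k26),(k9,k41)],[(k2,k25),(k6,k30),(k0,k44)],[(k4,k24),(k10,k28),(k11,k28),(k7,k30),(k8,k40),
    (k1,k44)],[(k4,k30),(k10,k34),(k11,k34),(k7,k36),(k8,k46),(k1,k50)],[(k5,k30),(k3,k33),(k9,k46)],[(k2,k41),(k6,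
    k46),(k0,k58)],[(k4,k40),(k10,k44),(k11,k44),(k7,k46),(k8,k56),(k1,k62)],[(k4,k28),(k10,k30),(k11,k32),(k7,k34),
    (k8,k44),(k1,k48)],[(k4,k28),(k11,k30),(k10,k32),(k7,k34),(k8,k44),(k1,k48)]]
    [] k0
    [[k1,k0,k1,k0,k0,k0],[k1,k1,k1,k0,k0,k0],[k0,k2,k0,k0,k0,k0],[k0,k3,k0,k0,k0,k0],[k0,k4,k0,k0,k0,k0],[k0,k2,k1,k1,
    k0,k0],[k0,k1,k1,k1,k0,k0],[k0,k0,k1,k1,k0,k0],[k0,k0,k1,k1,k0,k1],[k0,k0,k0,k1,k1,k0],[k0,k0,k0,k0,k0,k2],[k0,k0,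
    k0,k0,k0,k3]]
    [.contra [z1,y1,z1,y1],.ref k3 k0 [(z1,[z1])],.contra [z1],.ref k6 k0 [(z1,[z0,z1]),(z1,[z1]),(z1,[z1,z0,y3,z3]),
    (z1,[y1,y3,z0,y3,z3])],.ref k3 k0 [(z2,[z1,z2,y2,z2])],.ref k3 k0 [(z1,[z1,z2,z0,z1,y1])],.contra [z1,z1,z1,z0,
    y1],.contra [y1,y2,y2,z0,z2],.contra [z1,z1,z1,z0,y1],.contra [z1,z1,z1,z1,y1],.contra [z1],.ref k5 k0 [(z1,[z0,
    z1]),(z1,[z0,y1,z0,y1,z1]),(z1,[y1,z0,z0,z3])]]),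
    .old (.lp [(nat_lit 220),k160,k96,k96,(nat_lit 222),k164] [k1,k1,k31,k31,k63,k63,k63,k63,k0,k0,k29,k29] k0 [[k0,k0,k0,
    k0,k0,k0,k2],[],[],[],[],[],[],[k0,k2],[],[k0,k0,k0,k0,k0,k0,k0,k0,k0,k0,k0,k40],[k0,k0,k0,k0,k0,k0,k0,k0,
    k40]] (nat_lit 480) k6
    [[(k4,k158),(k7,k158),(k10,k192),(k11,k192),(k1,(nat_lit 220)),(k8,(nat_lit 261))],[(k5,k158),(k3,k190),(k9,
    (nat_lit 219))],[(k6,k130),(k2,k160),(k0,k190)],[(k5,k128),(k3,k160),(k9,k191)],[(k6,k96),(k2,k128),(k0,k158)],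
    [(k4,k96),(k7,k96),(k10,k130),(k11,k130),(k1,k158),(k8,k159)],[(k4,k96),(k7,k96),(k10,k130),(k11,k130),(k1,k158),
    (k8,k159)],[(k5,k96),(k3,k130),(k9,k159)],[(k6,k159),(k2,k191),(k0,(nat_lit 219))],[(k4,k159),(k7,k159),(k10,
    k193),(k11,k193),(k8,(nat_lit 222)),(k1,(nat_lit 261))],[(k10,k124),(k4,k130),(k7,k130),(k11,k164),(k1,k192),(k8,
    k193)],[(k11,k124),(k4,k130),(k7,k130),(k10,k164),(k1,k192),(k8,k193)]]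
    [] k0
    [[k1,k0,k1,k0,k0,k0],[k1,k1,k1,k0,k0,k0],[k0,k2,k0,k0,k0,k0],[k0,k1,k1,k1,k0,k0],[k0,k0,k1,k1,k0,k0],[k0,k0,k2,k2,
    k0,k0],[k0,k0,k1,k1,k0,k1],[k0,k0,k0,k1,k1,k0],[k0,k0,k0,k0,k0,k2],[k0,k0,k0,k0,k0,k3]]
    [.contra [y1,z0,y1,z1],.ref k3 k0 [(z1,[z1])],.contra [z1],.contra [y1,y1,z0,z1],.contra [y1,y1,z0,z1],
    .ref k7 k0 [(z1,[z0,z1]),(z2,[y1,y2,z0,z2]),(z1,[z0,y1,y1,z1])],.contra [y1,y1,z0,z1],.contra [y1,z0,z1],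
    .contra [z1],.ref k5 k0 [(z1,[z0,z1]),(z1,[z0,z0,z1]),(z1,[y1,y3,y3,z3])]]),
    .old (.tor k12 false k0 [(z1,[y1,y1,y1,z1]),(z1,[y1,z1,z0,z1]),(z1,[z1]),(z1,[z1,z0,z1])]),
    .old (.tor k36 true k0 [(z1,[y3,y1,y3,y3,z3]),(z1,[z0,z0,y1]),(z1,[z0,z0,z1,z1]),(z1,[z0,z1])]),
    .old (.lp [(nat_lit 384),k124,k96,k96,k96,k162] [k0,k0,k130,k130,k144,k144,k144,k144,k144,k144,k111,k111] k0 [[k0,k0,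
    k0,k0,k0,k0,k2],[],[],[],[],[],[],[k0,k2],[],[k0,k0,k0,k0,k0,k0,k0,k0,k0,k0,k0,k2],[k0,k0,k0,k0,k0,k0,k0,k0,
    k2]] (nat_lit 480) k6
    [[(k4,(nat_lit 240)),(k7,(nat_lit 240)),(k8,(nat_lit 242)),(k10,(nat_lit 273)),(k11,(nat_lit 273)),(k1,
    (nat_lit 384))],[(k9,(nat_lit 238)),(k5,(nat_lit 240)),(k3,(nat_lit 254))],[(k6,k112),(k2,k124),(k0,
    (nat_lit 254))],[(k5,k110),(k9,k110),(k3,k124)],[(k6,k96),(k2,k110),(k0,(nat_lit 240))],[(k4,k96),(k7,k96),(k8,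
    k96),(k10,k129),(k11,k129),(k1,(nat_lit 240))],[(k4,k96),(k7,k96),(k8,k96),(k10,k129),(k11,k129),(k1,
    (nat_lit 240))],[(k5,k96),(k9,k96),(k3,k112)],[(k6,k96),(k2,k110),(k0,(nat_lit 238))],[(k4,k96),(k7,k96),(k8,k96),
    (k10,k129),(k11,k129),(k1,(nat_lit 242))],[(k4,k129),(k7,k129),(k8,k129),(k10,k160),(k11,k162),(k1,
    (nat_lit 273))],[(k4,k129),(k7,k129),(k8,k129),(k11,k160),(k10,k162),(k1,(nat_lit 273))]]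
    [] k0
    [[k0,k2,k0,k0,k0,k0],[k0,k3,k0,k0,k0,k0],[k0,k2,k1,k1,k0,k0],[k0,k2,k0,k1,k1,k0],[k0,k1,k1,k1,k0,k0],[k0,k1,k0,k1,
    k1,k0],[k0,k0,k1,k1,k0,k0],[k0,k0,k2,k2,k0,k0],[k0,k0,k1,k2,k1,k0],[k0,k0,k1,k1,k0,k1],[k0,k0,k0,k2,k2,k0],[k0,k0,
    k0,k1,k1,k0],[k0,k0,k0,k1,k1,k1],[k0,k0,k0,k0,k0,k2]]
    [.contra [z1],.ref k9 k0 [(z1,[z0,z1]),(z3,[z1,z3,z1,z3,y3]),(z1,[z0,z0,z0,z1])],.ref k9 k0 [(z1,[z0,z1]),(z1,[z1,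
    z1,z0,z0,y1]),(z1,[z0,z0,z0,z1])],.ref k9 k0 [(z1,[z0,z1]),(z1,[z1,z1,z0,z1,y1]),(z1,[z0,z0,z0,z1])],.contra [z1,
    y2,y1,y3,z2],.contra [z1,y2,y1,y2,z2],.contra [y3,z1,z1,z4],.ref k10 k0 [(z1,[z0,z1]),(z2,[y3,z0,z2,z6]),(z1,[z0,
    z0,z0,z1]),(z2,[z1,z0,z0,y2])],.ref k10 k0 [(z1,[z0,z1]),(z2,[y3,z0,z2,z3]),(z1,[z0,z0,z0,z1]),(z2,[z1,z0,z0,
    y1])],.contra [y1,y1,z0,z0,z1],.ref k10 k0 [(z1,[z0,z1]),(z2,[y3,z0,z2]),(z1,[z0,z0,z0,z1]),(z2,[z1])],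
    .contra [y3,z1,z1,z1],.contra [y1,y1,z0,y1,z1],.contra [z1]]),
    .old (.tor k36 false k0 [(z1,[z0,z1]),(z1,[z0,z0,z1]),(z1,[z0,z0,z0,z1]),(z1,[y3,y1,y3,y3,z3])]),
    .old (.lp [(nat_lit 384),k164,k96,k96,k96,k122] [k0,k0,k110,k110,k144,k144,k144,k144,k144,k144,k131,k131] k0 [[k0,k0,
    k0,k0,k0,k0,k2],[],[],[],[],[],[],[k0,k2],[],[k0,k0,k0,k0,k0,k0,k0,k0,k0,k0,k0,k2],[k0,k0,k0,k0,k0,k0,k0,k0,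
    k2]] (nat_lit 480) k6
    [[(k4,(nat_lit 240)),(k7,(nat_lit 240)),(k8,(nat_lit 242)),(k10,(nat_lit 253)),(k11,(nat_lit 253)),(k1,
    (nat_lit 384))],[(k9,(nat_lit 238)),(k5,(nat_lit 240)),(k3,(nat_lit 274))],[(k6,k132),(k2,k164),(k0,
    (nat_lit 274))],[(k5,k130),(k9,k130),(k3,k164)],[(k6,k96),(k2,k130),(k0,(nat_lit 240))],[(k4,k96),(k7,k96),(k8,
    k96),(k10,k109),(k11,k109),(k1,(nat_lit 240))],[(k4,k96),(k7,k96),(k8,k96),(k10,k109),(k11,k109),(k1,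
    (nat_lit 240))],[(k5,k96),(k9,k96),(k3,k132)],[(k6,k96),(k2,k130),(k0,(nat_lit 238))],[(k4,k96),(k7,k96),(k8,k96),
    (k10,k109),(k11,k109),(k1,(nat_lit 242))],[(k4,k109),(k7,k109),(k8,k109),(k10,k120),(k11,k122),(k1,
    (nat_lit 253))],[(k4,k109),(k7,k109),(k8,k109),(k11,k120),(k10,k122),(k1,(nat_lit 253))]]
    [] k0
    [[k0,k2,k0,k0,k0,k0],[k0,k1,k1,k1,k0,k0],[k0,k1,k0,k1,k1,k0],[k0,k0,k1,k1,k0,k0],[k0,k0,k2,k2,k0,k0],[k0,k0,k1,k2,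
    k1,k0],[k0,k0,k1,k1,k0,k1],[k0,k0,k1,k1,k0,k2],[k0,k0,k0,k2,k2,k0],[k0,k0,k0,k1,k1,k0],[k0,k0,k0,k1,k1,k1],[k0,k0,
    k0,k1,k1,k2],[k0,k0,k0,k0,k0,k2],[k0,k0,k0,k0,k0,k3]]
    [.contra [z1],.contra [y1,y1,z0,z0,z1],.contra [y1,y1,z0,y1,z1],.contra [y1,y1,z0,z0,z1],.ref k12 k0 [(z1,[z0,
    z1]),(z1,[z0,z0,z1]),(z1,[z0,z0,z0,z1]),(z2,[z1,z0,z0,y2])],.ref k12 k0 [(z1,[z0,z1]),(z1,[z0,z0,z1]),(z1,[z0,z0,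
    z0,z1]),(z2,[z1,z0,z0,y1])],.contra [z1,z1,z1,z0,y1],.ref k9 k0 [(z1,[z0,z1]),(z1,[y1,y1,z0,z0,z1]),(z1,[z0,z0,z0,
    z1])],.ref k12 k0 [(z1,[z0,z1]),(z1,[z0,z0,z1]),(z1,[z0,z0,z0,z1]),(z2,[z1])],.contra [y1,y1,z0,y1,z1],
    .contra [z1,z1,z1,z1,y1],.ref k9 k0 [(z1,[z0,z1]),(z1,[y1,y1,z0,y1,z1]),(z1,[z0,z0,z0,z1])],.contra [z1],
    .ref k9 k0 [(z1,[z0,z1]),(z3,[y1,z0,z1]),(z1,[z0,z0,z0,z1])]]),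
    .old (.lp [k96,k32,k24,k36,k24,k26] [k0,k0,k32,k32,k36,k36,k30,k30,k36,k36,k35,k35] k0 [[k0,k0,k0,k0,k0,k0,k2],[],[],
    [],[],[],[],[k0,k2],[],[k0,k0,k0,k0,k0,k0,k0,k0,k0,k0,k0,k2],[k0,k0,k0,k0,k0,k0,k0,k0,k2]] k120 k6
    [[(k4,k60),(k10,k61),(k11,k61),(k8,k62),(k7,k66),(k1,k96)],[(k9,k58),(k5,k60),(k3,k64)],[(k2,k32),(k6,k36),(k0,
    k64)],[(k5,k28),(k9,k28),(k3,k32)],[(k2,k28),(k6,k30),(k0,k60)],[(k4,k24),(k8,k24),(k10,k25),(k11,k25),(k7,k30),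
    (k1,k60)],[(k4,k30),(k8,k30),(k10,k31),(k11,k31),(k7,k36),(k1,k66)],[(k5,k30),(k9,k30),(k3,k36)],[(k2,k28),(k6,
    k30),(k0,k58)],[(k4,k24),(k8,k24),(k10,k25),(k11,k25),(k7,k30),(k1,k62)],[(k10,k24),(k4,k25),(k8,k25),(k11,k26),
    (k7,k31),(k1,k61)],[(k11,k24),(k4,k25),(k8,k25),(k10,k26),(k7,k31),(k1,k61)]]
    [] k0
    [[k0,k2,k0,k0,k0,k0],[k0,k3,k0,k0,k0,k0],[k0,k1,k1,k1,k0,k0],[k0,k1,k0,k1,k1,k0],[k0,k0,k1,k1,k0,k0],[k0,k0,k1,k1,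
    k0,k1],[k0,k0,k1,k1,k0,k2],[k0,k0,k0,k1,k1,k0],[k0,k0,k0,k1,k1,k1],[k0,k0,k0,k1,k1,k2],[k0,k0,k0,k0,k0,k2],[k0,k0,
    k0,k0,k0,k3],[k0,k0,k0,k0,k0,k4]]
    [.contra [z1],.contra [z1,z0,y1],.contra [y1,y1,z0,z0,z1],.contra [y1,y1,z0,y1,z1],.contra [y1,y1,z0,z0,z1],
    .contra [z1,z1,z1,z0,y1],.ref k9 k0 [(z1,[z0,z1]),(z1,[y1,y1,z0,z0,z1]),(z1,[z0,z0,z0,z1])],.contra [y1,y1,z0,y1,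
    z1],.contra [z1,z1,z1,z1,y1],.ref k9 k0 [(z1,[z0,z1]),(z1,[y1,y1,z0,y1,z1]),(z1,[z0,z0,z0,z1])],.contra [z1],
    .ref k11 k0 [(z1,[z0,z1]),(z1,[y1,y3,z0,y3,z3]),(z1,[z0,z0,z0,z1])],.ref k9 k0 [(z1,[z0,z1]),(z4,[y1,z0,z2]),(z1,
    [z0,z0,z0,z1])]]),
    .old (.lp [k96,k26,k24,k36,k24,k32] [k0,k0,k35,k35,k36,k36,k30,k30,k36,k36,k32,k32] k0 [[k0,k0,k0,k0,k0,k0,k2],[],[],
    [],[],[],[],[k0,k2],[],[k0,k0,k0,k0,k0,k0,k0,k0,k0,k0,k0,k2],[k0,k0,k0,k0,k0,k0,k0,k0,k2]] k120 k6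
    [[(k4,k60),(k8,k62),(k10,k64),(k11,k64),(k7,k66),(k1,k96)],[(k9,k58),(k5,k60),(k3,k61)],[(k2,k26),(k6,k33),(k0,
    k61)],[(k5,k25),(k9,k25),(k3,k26)],[(k2,k25),(k6,k30),(k0,k60)],[(k4,k24),(k8,k24),(k10,k28),(k11,k28),(k7,k30),
    (k1,k60)],[(k4,k30),(k8,k30),(k10,k34),(k11,k34),(k7,k36),(k1,k66)],[(k5,k30),(k9,k30),(k3,k33)],[(k2,k25),(k6,
    k30),(k0,k58)],[(k4,k24),(k8,k24),(k10,k28),(k11,k28),(k7,k30),(k1,k62)],[(k4,k28),(k8,k28),(k10,k30),(k11,k32),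
    (k7,k34),(k1,k64)],[(k4,k28),(k8,k28),(k11,k30),(k10,k32),(k7,k34),(k1,k64)]]
    [] k0
    [[k0,k2,k0,k0,k0,k0],[k0,k3,k0,k0,k0,k0],[k0,k4,k0,k0,k0,k0],[k0,k2,k1,k1,k0,k0],[k0,k2,k0,k1,k1,k0],[k0,k1,k1,k1,
    k0,k0],[k0,k1,k0,k1,k1,k0],[k0,k0,k1,k1,k0,k0],[k0,k0,k1,k1,k0,k1],[k0,k0,k0,k1,k1,k0],[k0,k0,k0,k1,k1,k1],[k0,k0,
    k0,k0,k0,k2],[k0,k0,k0,k0,k0,k3]]
    [.contra [z1],.ref k13 k0 [(z1,[z0,z1]),(z1,[z1]),(z1,[z0,y1,y1,z1])],.ref k14 k0 [(z1,[z0,z1]),(z2,[z1]),(z1,[z0,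
    y1,y1,z1])],.ref k9 k0 [(z1,[z0,z1]),(z1,[z1,z1,z0,y1]),(z1,[z0,y1,y1,z1])],.ref k9 k0 [(z1,[z0,z1]),(z1,[z1,z0,
    y1]),(z1,[z0,y1,y1,z1])],.contra [y1,y1,z0,z1],.contra [y1,z0,z1],.contra [y1,y1,z0,z1],.contra [y1,y1,z0,z1],
    .contra [y1,z0,z1],.contra [y1,z0,z1],.contra [z1],.ref k11 k0 [(z1,[z0,z1]),(z1,[y1,z0,z3]),(z1,[z0,y1,y1,z1])]]),
    .old (.lp [k72,k18,k30,k30,k30,k58] [k0,k0,k27,k27,k21,k21,k21,k21,k23,k19,k7,k7] k0 [[k0,k0,k26],[],[k0,k0,k0,k0,k0,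
    k0,k2],[k0,k26],[],[],[],[k0,k0,k0,k2],[],[k0,k0,k0,k0,k0,k0,k0,k0,k0,k0,k0,k18],[k0,k0,k0,k0,k0,k0,k0,k0,
    k18]] k120 k6
    [[(k4,k51),(k7,k51),(k10,k65),(k11,k65),(k8,k67),(k1,k72)],[(k5,k25),(k3,k45),(k9,k53)],[(k6,k24),(k2,k44),(k0,
    k45)],[(k5,k24),(k9,k24),(k3,k44)],[(k2,k24),(k0,k25),(k6,k32)],[(k8,k28),(k4,k30),(k7,k30),(k10,k44),(k11,k44),
    (k1,k51)],[(k8,k28),(k4,k30),(k7,k30),(k10,k44),(k11,k44),(k1,k51)],[(k3,k24),(k5,k32),(k9,k32)],[(k2,k24),(k6,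
    k32),(k0,k53)],[(k8,k26),(k4,k28),(k7,k28),(k10,k42),(k11,k42),(k1,k67)],[(k10,k40),(k8,k42),(k4,k44),(k7,k44),
    (k11,k58),(k1,k65)],[(k11,k40),(k8,k42),(k4,k44),(k7,k44),(k10,k58),(k1,k65)]]
    [] k0
    [[k1,k0,k1,k0,k0,k0],[k0,k2,k0,k0,k0,k0],[k0,k1,k1,k1,k0,k0],[k0,k1,k0,k1,k1,k0],[k0,k0,k1,k1,k0,k0],[k0,k0,k0,k1,
    k1,k0],[k0,k0,k0,k1,k1,k1],[k0,k0,k0,k0,k0,k2]]
    [.ref k15 k0 [(z1,[z0,z1]),(z1,[y1,z0,z1])],.contra [z1],.contra [y1,y1,z1],.ref k8 k0 [(z1,[z0,z1]),(z1,[z1])],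
    .contra [y1,y1,z1],.ref k0 k0 [(z1,[y1,z0,z1])],.ref k3 k0 [(z1,[y1,z0,z1])],.contra [z1]]),
    .old (.lp [(nat_lit 1062),(nat_lit 252),(nat_lit 520),(nat_lit 544),(nat_lit 240),(nat_lit 574)] [k0,k0,(nat_lit 405),
    (nat_lit 405),(nat_lit 271),(nat_lit 271),(nat_lit 259),(nat_lit 259),(nat_lit 411),(nat_lit 411),(nat_lit 244),
    (nat_lit 244)] k0 [[k0,k0,k0,k0,k0,k0,k140],[],[],[],[k0,k0,k0,k0,k0,k112,k0,k0,k0,k42],[k0,k0,k0,k0,k0,k0,k0,k0,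
    k0,k0,k0,k42],[],[k0,k140],[k0,k0,k0,k0,k0,k42],[k0,k0,k0,k0,k0,k0,k0,k0,k0,k0,k0,k42],[k0,k0,k0,k0,k42,k0,k0,k0,
    k42]] (nat_lit 1680) k8
    [[(k8,(nat_lit 693)),(k7,(nat_lit 803)),(k10,(nat_lit 818)),(k11,(nat_lit 818)),(k4,(nat_lit 833)),(k1,
    (nat_lit 1062))],[(k9,(nat_lit 511)),(k3,(nat_lit 657)),(k5,(nat_lit 791))],[(k2,(nat_lit 252)),(k6,
    (nat_lit 538)),(k0,(nat_lit 657))],[(k9,(nat_lit 246)),(k3,(nat_lit 252)),(k5,(nat_lit 386))],[(k2,(nat_lit 386)),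
    (k6,(nat_lit 532)),(k0,(nat_lit 791))],[(k8,(nat_lit 338)),(k4,(nat_lit 408)),(k7,(nat_lit 532)),(k10,
    (nat_lit 547)),(k11,(nat_lit 547)),(k1,(nat_lit 833))],[(k8,(nat_lit 392)),(k10,(nat_lit 517)),(k4,(nat_lit 532)),
    (k11,(nat_lit 601)),(k7,(nat_lit 656)),(k1,(nat_lit 803))],[(k9,(nat_lit 392)),(k5,(nat_lit 532)),(k3,
    (nat_lit 538))],[(k2,(nat_lit 246)),(k6,(nat_lit 392)),(k0,(nat_lit 511))],[(k8,(nat_lit 240)),(k4,(nat_lit 338)),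
    (k7,(nat_lit 392)),(k10,(nat_lit 407)),(k11,(nat_lit 407)),(k1,(nat_lit 693))],[(k8,(nat_lit 407)),(k10,
    (nat_lit 532)),(k4,(nat_lit 547)),(k11,(nat_lit 574)),(k7,(nat_lit 601)),(k1,(nat_lit 818))],[(k8,(nat_lit 407)),
    (k7,(nat_lit 517)),(k11,(nat_lit 532)),(k4,(nat_lit 547)),(k10,(nat_lit 574)),(k1,(nat_lit 818))]]
    [[k0,k4],[k0,k8,k2],[k1,k3,k9],[k1,k5],[k2,k2,k2,k2,k2,k2],[k3,k3,k3,k3,k3,k3],[k4,k6,k10],[k5,k11,k7],[k6,k8,k6,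
    k8],[k7,k9,k7,k9],[k10,k10,k10],[k11,k11,k11]] k28
    [[k1,k0,k0,k0,k1,k0],[k0,k2,k0,k0,k0,k0],[k0,k3,k0,k0,k0,k0],[k0,k4,k0,k0,k0,k0],[k0,k5,k0,k0,k0,k0],[k0,k2,k0,k1,
    k1,k0],[k0,k1,k1,k1,k0,k0],[k0,k1,k0,k1,k1,k0],[k0,k0,k1,k1,k0,k0],[k0,k0,k0,k1,k1,k0],[k0,k0,k0,k1,k1,k1],[k0,k0,
    k0,k0,k0,k2]]
    [.contra [z6,y2,z1],.contra [z1],.contra [z2,z0,y1],.contra [z1,z0,y1],.contra [z2,z0,y3],.contra [z2,z0,y1,z0,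
    y2],.contra [z6,z0,y1,y2,y6],.contra [z1,z0,z0,z0,y1],.contra [z3,z0,z1,y1,y3],.contra [z2,z0,z1,z0,y2],
    .contra [z6,z2,z3,z2,z0,y6],.contra [z3,z2,z3,z2,z6,y6]]),
    .lp [(nat_lit 2884),(nat_lit 1862),(nat_lit 2800),(nat_lit 1904),(nat_lit 840),(nat_lit 882)] [k0,k0,(nat_lit 511),
    (nat_lit 511),k42,k42,(nat_lit 490),(nat_lit 490),(nat_lit 1022),(nat_lit 1022),(nat_lit 1001),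
    (nat_lit 1001)] k0 [] (nat_lit 5880) k8
    [[(k8,(nat_lit 1862)),(k10,(nat_lit 1883)),(k11,(nat_lit 1883)),(k7,(nat_lit 2394)),(k4,(nat_lit 2842)),(k1,
    (nat_lit 2884))],[(k9,(nat_lit 1862)),(k3,(nat_lit 2373)),(k5,(nat_lit 2842))],[(k2,(nat_lit 1862)),(k6,
    (nat_lit 1883)),(k0,(nat_lit 2373))],[(k9,(nat_lit 1351)),(k3,(nat_lit 1862)),(k5,(nat_lit 2331))],[(k2,
    (nat_lit 2331)),(k6,(nat_lit 2352)),(k0,(nat_lit 2842))],[(k8,(nat_lit 1820)),(k10,(nat_lit 1841)),(k11,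
    (nat_lit 1841)),(k7,(nat_lit 2352)),(k4,(nat_lit 2800)),(k1,(nat_lit 2842))],[(k8,(nat_lit 1372)),(k10,
    (nat_lit 1393)),(k11,(nat_lit 1393)),(k7,(nat_lit 1904)),(k4,(nat_lit 2352)),(k1,(nat_lit 2394))],[(k9,
    (nat_lit 1372)),(k3,(nat_lit 1883)),(k5,(nat_lit 2352))],[(k2,(nat_lit 1351)),(k6,(nat_lit 1372)),(k0,
    (nat_lit 1862))],[(k8,(nat_lit 840)),(k10,(nat_lit 861)),(k11,(nat_lit 861)),(k7,(nat_lit 1372)),(k4,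
    (nat_lit 1820)),(k1,(nat_lit 1862))],[(k8,(nat_lit 861)),(k10,(nat_lit 882)),(k11,(nat_lit 882)),(k7,
    (nat_lit 1393)),(k4,(nat_lit 1841)),(k1,(nat_lit 1883))],[(k8,(nat_lit 861)),(k10,(nat_lit 882)),(k11,
    (nat_lit 882)),(k7,(nat_lit 1393)),(k4,(nat_lit 1841)),(k1,(nat_lit 1883))]]
    [[k0,k4],[k0,k8,k2],[k0,k10,k10,k8],[k0,k10,k11,k8],[k0,k11,k10,k8],[k0,k11,k11,k8],[k1,k3,k9],[k1,k5],[k1,k9,k10,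
    k10],[k1,k9,k10,k11],[k1,k9,k11,k10],[k1,k9,k11,k11],[k2,k2,k2],[k2,k6,k10,k8],[k2,k6,k11,k8],[k3,k3,k3],[k3,k9,
    k10,k7],[k3,k9,k11,k7],[k4,k6,k10],[k4,k6,k11],[k5,k10,k7],[k5,k11,k7],[k6,k7,k9,k8],[k6,k8,k6,k8],[k6,k10,k10,
    k10,k8],[k6,k10,k10,k11,k8],[k6,k10,k11,k10,k8],[k6,k10,k11,k11,k8],[k6,k11,k10,k10,k8],[k6,k11,k10,k11,k8],[k6,
    k11,k11,k10,k8],[k6,k11,k11,k11,k8],[k7,k9,k7,k9],[k7,k9,k10,k10,k10],[k7,k9,k10,k10,k11],[k7,k9,k10,k11,k10],[k7,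
    k9,k10,k11,k11],[k7,k9,k11,k10,k10],[k7,k9,k11,k10,k11],[k7,k9,k11,k11,k10],[k7,k9,k11,k11,k11],[k10,k10,k10,k10,
    k10,k10],[k10,k10,k10,k10,k10,k11],[k10,k10,k10,k10,k11,k10],[k10,k10,k10,k10,k11,k11],[k10,k10,k10,k11,k10,k10],
    [k10,k10,k10,k11,k10,k11],[k10,k10,k10,k11,k11,k10],[k10,k10,k10,k11,k11,k11],[k10,k10,k11,k10,k10,k10],[k10,k10,
    k11,k10,k10,k11],[k10,k10,k11,k10,k11,k10],[k10,k10,k11,k10,k11,k11],[k10,k10,k11,k11,k10,k10],[k10,k10,k11,k11,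
    k10,k11],[k10,k10,k11,k11,k11,k10],[k10,k10,k11,k11,k11,k11],[k10,k11,k10,k10,k10,k10],[k10,k11,k10,k10,k10,k11],
    [k10,k11,k10,k10,k11,k10],[k10,k11,k10,k10,k11,k11],[k10,k11,k10,k11,k10,k10],[k10,k11,k10,k11,k10,k11],[k10,k11,
    k10,k11,k11,k10],[k10,k11,k10,k11,k11,k11],[k10,k11,k11,k10,k10,k10],[k10,k11,k11,k10,k10,k11],[k10,k11,k11,k10,
    k11,k10],[k10,k11,k11,k10,k11,k11],[k10,k11,k11,k11,k10,k10],[k10,k11,k11,k11,k10,k11],[k10,k11,k11,k11,k11,k10],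
    [k10,k11,k11,k11,k11,k11],[k11,k11,k11,k11,k11,k11]]
    ⟨[[[k0,k4],[k0,k8,k2],[k0,k10,k10,k8],[k0,k10,k11,k8],[k0,k11,k10,k8],[k0,k11,k11,k8],[k1,k3,k9],[k1,k5],[k1,k9,
    k10,k10],[k1,k9,k10,k11],[k1,k9,k11,k10],[k1,k9,k11,k11]],
    [[k2,k0,k8],[k2,k2,k2],[k2,k6,k10,k8],[k2,k6,k11,k8],[k3,k3,k3],[k3,k9,k1],[k3,k9,k10,k7],[k3,k9,k11,k7],[k4,k0],
    [k4,k6,k10],[k4,k6,k11],[k5,k1]],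
    [[k5,k10,k7],[k5,k11,k7],[k6,k7,k9,k8],[k6,k8,k6,k8],[k6,k10,k4],[k6,k10,k8,k2],[k6,k10,k10,k10,k8],[k6,k10,k10,
    k11,k8],[k6,k10,k11,k10,k8],[k6,k10,k11,k11,k8],[k6,k11,k4],[k6,k11,k8,k2]],
    [[k6,k11,k10,k10,k8],[k6,k11,k10,k11,k8],[k6,k11,k11,k10,k8],[k6,k11,k11,k11,k8],[k7,k3,k9,k10],[k7,k3,k9,k11],
    [k7,k5,k10],[k7,k5,k11],[k7,k9,k7,k9],[k7,k9,k8,k6],[k7,k9,k10,k10,k10],[k7,k9,k10,k10,k11]],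
    [[k7,k9,k10,k11,k10],[k7,k9,k10,k11,k11],[k7,k9,k11,k10,k10],[k7,k9,k11,k10,k11],[k7,k9,k11,k11,k10],[k7,k9,k11,
    k11,k11],[k8,k0,k10,k10],[k8,k0,k10,k11],[k8,k0,k11,k10],[k8,k0,k11,k11],[k8,k2,k0],[k8,k2,k6,k10]],
    [[k8,k2,k6,k11],[k8,k6,k7,k9],[k8,k6,k8,k6],[k8,k6,k10,k10,k10],[k8,k6,k10,k10,k11],[k8,k6,k10,k11,k10],[k8,k6,
    k10,k11,k11],[k8,k6,k11,k10,k10],[k8,k6,k11,k10,k11],[k8,k6,k11,k11,k10],[k8,k6,k11,k11,k11],[k9,k1,k3]],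
    [[k9,k7,k9,k7],[k9,k8,k6,k7],[k9,k10,k7,k3],[k9,k10,k10,k1],[k9,k10,k10,k10,k7],[k9,k10,k10,k11,k7],[k9,k10,k11,
    k1],[k9,k10,k11,k10,k7],[k9,k10,k11,k11,k7],[k9,k11,k7,k3],[k9,k11,k10,k1],[k9,k11,k10,k10,k7]],
    [[k9,k11,k10,k11,k7],[k9,k11,k11,k1],[k9,k11,k11,k10,k7],[k9,k11,k11,k11,k7],[k10,k1,k9,k10],[k10,k1,k9,k11],[k10,
    k4,k6],[k10,k7,k3,k9],[k10,k7,k5],[k10,k7,k9,k10,k10],[k10,k7,k9,k10,k11],[k10,k7,k9,k11,k10]],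
    [[k10,k7,k9,k11,k11],[k10,k8,k0,k10],[k10,k8,k0,k11],[k10,k8,k2,k6],[k10,k8,k6,k10,k10],[k10,k8,k6,k10,k11],[k10,
    k8,k6,k11,k10],[k10,k8,k6,k11,k11],[k10,k10,k1,k9],[k10,k10,k7,k9,k10],[k10,k10,k7,k9,k11],[k10,k10,k8,k0]],
    [[k10,k10,k8,k6,k10],[k10,k10,k8,k6,k11],[k10,k10,k10,k7,k9],[k10,k10,k10,k8,k6],[k10,k10,k10,k10,k10,k10],[k10,
    k10,k10,k10,k10,k11],[k10,k10,k10,k10,k11,k10],[k10,k10,k10,k10,k11,k11],[k10,k10,k10,k11,k10,k10],[k10,k10,k10,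
    k11,k10,k11],[k10,k10,k10,k11,k11,k10],[k10,k10,k10,k11,k11,k11]],
    [[k10,k10,k11,k7,k9],[k10,k10,k11,k8,k6],[k10,k10,k11,k10,k10,k10],[k10,k10,k11,k10,k10,k11],[k10,k10,k11,k10,k11,
    k10],[k10,k10,k11,k10,k11,k11],[k10,k10,k11,k11,k10,k10],[k10,k10,k11,k11,k10,k11],[k10,k10,k11,k11,k11,k10],[k10,
    k10,k11,k11,k11,k11],[k10,k11,k1,k9],[k10,k11,k7,k9,k10]],
    [[k10,k11,k7,k9,k11],[k10,k11,k8,k0],[k10,k11,k8,k6,k10],[k10,k11,k8,k6,k11],[k10,k11,k10,k7,k9],[k10,k11,k10,k8,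
    k6],[k10,k11,k10,k10,k10,k10],[k10,k11,k10,k10,k10,k11],[k10,k11,k10,k10,k11,k10],[k10,k11,k10,k10,k11,k11],[k10,
    k11,k10,k11,k10,k10],[k10,k11,k10,k11,k10,k11]],
    [[k10,k11,k10,k11,k11,k10],[k10,k11,k10,k11,k11,k11],[k10,k11,k11,k7,k9],[k10,k11,k11,k8,k6],[k10,k11,k11,k10,k10,
    k10],[k10,k11,k11,k10,k10,k11],[k10,k11,k11,k10,k11,k10],[k10,k11,k11,k10,k11,k11],[k10,k11,k11,k11,k10,k10],[k10,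
    k11,k11,k11,k10,k11],[k10,k11,k11,k11,k11,k10],[k10,k11,k11,k11,k11,k11]],
    [[k11,k1,k9,k10],[k11,k1,k9,k11],[k11,k4,k6],[k11,k7,k3,k9],[k11,k7,k5],[k11,k7,k9,k10,k10],[k11,k7,k9,k10,k11],
    [k11,k7,k9,k11,k10],[k11,k7,k9,k11,k11],[k11,k8,k0,k10],[k11,k8,k0,k11],[k11,k8,k2,k6]],
    [[k11,k8,k6,k10,k10],[k11,k8,k6,k10,k11],[k11,k8,k6,k11,k10],[k11,k8,k6,k11,k11],[k11,k10,k1,k9],[k11,k10,k7,k9,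
    k10],[k11,k10,k7,k9,k11],[k11,k10,k8,k0],[k11,k10,k8,k6,k10],[k11,k10,k8,k6,k11],[k11,k10,k10,k7,k9],[k11,k10,k10,
    k8,k6]],
    [[k11,k10,k10,k10,k10,k10],[k11,k10,k10,k10,k10,k11],[k11,k10,k10,k10,k11,k10],[k11,k10,k10,k10,k11,k11],[k11,k10,
    k10,k11,k10,k10],[k11,k10,k10,k11,k10,k11],[k11,k10,k10,k11,k11,k10],[k11,k10,k10,k11,k11,k11],[k11,k10,k11,k7,
    k9],[k11,k10,k11,k8,k6],[k11,k10,k11,k10,k10,k10],[k11,k10,k11,k10,k10,k11]],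
    [[k11,k10,k11,k10,k11,k10],[k11,k10,k11,k10,k11,k11],[k11,k10,k11,k11,k10,k10],[k11,k10,k11,k11,k10,k11],[k11,k10,
    k11,k11,k11,k10],[k11,k10,k11,k11,k11,k11],[k11,k11,k1,k9],[k11,k11,k7,k9,k10],[k11,k11,k7,k9,k11],[k11,k11,k8,
    k0],[k11,k11,k8,k6,k10],[k11,k11,k8,k6,k11]],
    [[k11,k11,k10,k7,k9],[k11,k11,k10,k8,k6],[k11,k11,k10,k10,k10,k10],[k11,k11,k10,k10,k10,k11],[k11,k11,k10,k10,k11,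
    k10],[k11,k11,k10,k10,k11,k11],[k11,k11,k10,k11,k10,k10],[k11,k11,k10,k11,k10,k11],[k11,k11,k10,k11,k11,k10],[k11,
    k11,k10,k11,k11,k11],[k11,k11,k11,k7,k9],[k11,k11,k11,k8,k6]],
    [[k11,k11,k11,k10,k10,k10],[k11,k11,k11,k10,k10,k11],[k11,k11,k11,k10,k11,k10],[k11,k11,k11,k10,k11,k11],[k11,k11,
    k11,k11,k10,k10],[k11,k11,k11,k11,k10,k11],[k11,k11,k11,k11,k11,k10],[k11,k11,k11,k11,k11,k11]]],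
    [[k20,k58,k107,k133,k175,(nat_lit 201),k17,k23,k75,k78,k82,k85],
    [k1,k13,k29,k35,k16,k71,k74,k81,k0,k28,k34,k7],
    [k92,k160,k45,k62,k90,k99,k111,k121,k137,k147,k158,k167],
    [k179,k189,(nat_lit 205),(nat_lit 215),k18,k19,k24,k25,k72,k73,k76,k77],
    [k79,k80,k83,k84,k86,k87,k2,k3,k4,k5,k12,k14],
    [k15,k26,k27,k30,k31,k32,k33,k36,k37,k38,k39,k6],
    [k44,k61,k91,k104,k110,k120,k130,k136,k146,k159,k172,k178],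
    [k188,k198,(nat_lit 204),(nat_lit 214),k8,k10,k21,k40,k42,k46,k48,k50],
    [k52,k54,k56,k59,k63,k65,k67,k69,k88,k93,k95,k97],
    [k100,k102,k105,k108,k112,k114,k116,k118,k122,k124,k126,k128],
    [k131,k134,k138,k140,k142,k144,k148,k150,k152,k154,k156,k161],
    [k163,k165,k168,k170,k173,k176,k180,k182,k184,k186,k190,k192],
    [k194,k196,k199,(nat_lit 202),(nat_lit 206),(nat_lit 208),(nat_lit 210),(nat_lit 212),(nat_lit 216),(nat_lit 218),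
    (nat_lit 220),(nat_lit 222)],
    [k9,k11,k22,k41,k43,k47,k49,k51,k53,k55,k57,k60],
    [k64,k66,k68,k70,k89,k94,k96,k98,k101,k103,k106,k109],
    [k113,k115,k117,k119,k123,k125,k127,k129,k132,k135,k139,k141],
    [k143,k145,k149,k151,k153,k155,k157,k162,k164,k166,k169,k171],
    [k174,k177,k181,k183,k185,k187,k191,k193,k195,k197,(nat_lit 200),(nat_lit 203)],
    [(nat_lit 207),(nat_lit 209),(nat_lit 211),(nat_lit 213),(nat_lit 217),(nat_lit 219),(nat_lit 221),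
    (nat_lit 223)]],
    [[k20,k12,k54,k55,k56,k57,k71,k23,k88,k156,k89,k157],
    [k58,k13,k59,k60,k16,k6,k40,k41,k0,k90,k158,k7],
    [k42,k43,k61,k62,k21,k14,k63,k64,k65,k66,k22,k15],
    [k67,k68,k69,k70,k91,k159,k92,k160,k72,k26,k93,k161],
    [k94,k162,k95,k163,k96,k164,k97,k165,k98,k166,k1,k99],
    [k167,k73,k27,k100,k168,k101,k169,k102,k170,k103,k171,k17],
    [k44,k45,k18,k8,k46,k47,k9,k48,k49,k19,k10,k50],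
    [k51,k11,k52,k53,k104,k172,k28,k74,k24,k105,k173,k106],
    [k174,k107,k175,k29,k108,k176,k109,k177,k75,k110,k178,k2],
    [k111,k179,k76,k30,k112,k180,k113,k181,k114,k182,k115,k183],
    [k77,k31,k116,k184,k117,k185,k118,k186,k119,k187,k78,k120],
    [k188,k3,k121,k189,k79,k32,k122,k190,k123,k191,k124,k192],
    [k125,k193,k80,k33,k126,k194,k127,k195,k128,k196,k129,k197],
    [k130,k198,k34,k81,k25,k131,k199,k132,(nat_lit 200),k133,(nat_lit 201),k35],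
    [k134,(nat_lit 202),k135,(nat_lit 203),k82,k136,(nat_lit 204),k4,k137,(nat_lit 205),k83,k36],
    [k138,(nat_lit 206),k139,(nat_lit 207),k140,(nat_lit 208),k141,(nat_lit 209),k84,k37,k142,(nat_lit 210)],
    [k143,(nat_lit 211),k144,(nat_lit 212),k145,(nat_lit 213),k85,k146,(nat_lit 214),k5,k147,(nat_lit 215)],
    [k86,k38,k148,(nat_lit 216),k149,(nat_lit 217),k150,(nat_lit 218),k151,(nat_lit 219),k87,k39],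
    [k152,(nat_lit 220),k153,(nat_lit 221),k154,(nat_lit 222),k155,(nat_lit 223)]],
    [[[k90,k99,k111,k121,k137,k147],[k88,k93,k95,k97,k100,k102,k105,k108,k112,k114,k116,k118,k122,k124,k126,k128,k131,
    k134,k138,k140,k142,k144,k148,k150,k152,k154],[k107,k133],[k107,k133],[k91,k104,k110,k120,k130,k136,k146],[k91,
    k104,k110,k120,k130,k136,k146],[k17],[k16],[k18,k19],[k18,k19],[k18,k19],[k18,k19]],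
    [[k1],[k0],[k2,k3,k4,k5],[k2,k3,k4,k5],[k23],[k24,k25],[k24,k25],[k24,k25],[k13],[k12,k14,k15],[k12,k14,k15],[k41,
    k43,k47,k49,k51,k53]],
    [[],[k44],[],[k21],[k20],[k20],[k20],[k20],[k20],[k20],[],[]],
    [[],[],[],[],[k75,k78,k82,k85],[k75,k78,k82,k85],[k71,k74,k81],[k71,k74,k81],[k72,k73,k76,k77,k79,k80,k83,k84,k86,
    k87],[k72,k73,k76,k77,k79,k80,k83,k84,k86,k87],[k72,k73,k76,k77,k79,k80,k83,k84,k86,k87],[k72,k73,k76,k77,k79,k80,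
    k83,k84,k86,k87]],
    [[k72,k73,k76,k77,k79,k80,k83,k84,k86,k87],[k72,k73,k76,k77,k79,k80,k83,k84,k86,k87],[k72,k73,k76,k77,k79,k80,k83,
    k84,k86,k87],[k72,k73,k76,k77,k79,k80,k83,k84,k86,k87],[k72,k73,k76,k77,k79,k80,k83,k84,k86,k87],[k72,k73,k76,k77,
    k79,k80,k83,k84,k86,k87],[k29,k35],[k29,k35],[k29,k35],[k29,k35],[k28,k34],[k28,k34]],
    [[k28,k34],[k26,k27,k30,k31,k32,k33,k36,k37,k38,k39],[k26,k27,k30,k31,k32,k33,k36,k37,k38,k39],[k26,k27,k30,k31,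
    k32,k33,k36,k37,k38,k39],[k26,k27,k30,k31,k32,k33,k36,k37,k38,k39],[k26,k27,k30,k31,k32,k33,k36,k37,k38,k39],[k26,
    k27,k30,k31,k32,k33,k36,k37,k38,k39],[k26,k27,k30,k31,k32,k33,k36,k37,k38,k39],[k26,k27,k30,k31,k32,k33,k36,k37,
    k38,k39],[k26,k27,k30,k31,k32,k33,k36,k37,k38,k39],[k26,k27,k30,k31,k32,k33,k36,k37,k38,k39],[k157,k162,k164,k166,
    k169,k171,k174,k177,k181,k183,k185,k187,k191,k193,k195,k197,(nat_lit 200),(nat_lit 203),(nat_lit 207),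
    (nat_lit 209),(nat_lit 211),(nat_lit 213),(nat_lit 217),(nat_lit 219),(nat_lit 221),(nat_lit 223)]],
    [[k160],[k156,k161,k163,k165,k168,k170,k173,k176,k180,k182,k184,k186,k190,k192,k194,k196,k199,(nat_lit 202),
    (nat_lit 206),(nat_lit 208),(nat_lit 210),(nat_lit 212),(nat_lit 216),(nat_lit 218),(nat_lit 220),(nat_lit 222)],
    [k175,(nat_lit 201)],[k175,(nat_lit 201)],[k175,(nat_lit 201)],[k175,(nat_lit 201)],[k175,(nat_lit 201)],[k175,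
    (nat_lit 201)],[k175,(nat_lit 201)],[k159,k172,k178,k188,k198,(nat_lit 204),(nat_lit 214)],[k159,k172,k178,k188,
    k198,(nat_lit 204),(nat_lit 214)],[k159,k172,k178,k188,k198,(nat_lit 204),(nat_lit 214)]],
    [[k159,k172,k178,k188,k198,(nat_lit 204),(nat_lit 214)],[k159,k172,k178,k188,k198,(nat_lit 204),(nat_lit 214)],
    [k159,k172,k178,k188,k198,(nat_lit 204),(nat_lit 214)],[k159,k172,k178,k188,k198,(nat_lit 204),(nat_lit 214)],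
    [k55,k57,k60,k64,k66,k68,k70],[k55,k57,k60,k64,k66,k68,k70],[k62],[],[],[],[],[]],
    [[],[k54,k56,k59,k63,k65,k67,k69],[k54,k56,k59,k63,k65,k67,k69],[k54,k56,k59,k63,k65,k67,k69],[k54,k56,k59,k63,
    k65,k67,k69],[k54,k56,k59,k63,k65,k67,k69],[k54,k56,k59,k63,k65,k67,k69],[k54,k56,k59,k63,k65,k67,k69],[k58],
    [k58],[k58],[k58]],
    [[k58],[k58],[k58],[k58],[k58],[k58],[k58],[k58],[k58],[k58],[k58],[k58]],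
    [[k58],[k58],[k58],[k58],[k58],[k58],[k58],[k58],[k58],[k58],[k61],[k61]],
    [[k61],[k61],[k61],[k61],[k61],[k61],[k61],[k61],[k61],[k61],[k61],[k61]],
    [[k61],[k61],[k61],[k61],[k61],[k61],[k61],[k61],[k61],[k61],[k61],[k61]],
    [[k9,k11],[k9,k11],[],[k7],[k7],[k7],[k7],[k7],[k7],[k8,k10],[k8,k10],[k8,k10]],
    [[k8,k10],[k8,k10],[k8,k10],[k8,k10],[],[],[],[],[],[],[],[]],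
    [[],[],[],[],[],[],[],[],[],[],[],[]],
    [[],[],[],[],[],[],[k6],[k6],[k6],[k6],[k6],[k6]],
    [[k6],[k6],[k6],[k6],[k6],[k6],[k6],[k6],[k6],[k6],[k6],[k6]],
    [[k6],[k6],[k6],[k6],[k6],[k6],[k6],[k6]]],(nat_lit 224)⟩ k2 k2 k98
    [[k1,k0,k0,k0,k1,k0],[k1,k0,k0,k0,k1,k1],[k0,k2,k0,k0,k0,k0],[k0,k1,k0,k1,k1,k0],[k0,k0,k1,k1,k0,k0],[k0,k0,k0,k1,
    k1,k0],[k0,k0,k0,k1,k1,k1],[k0,k0,k0,k1,k1,k2],[k0,k0,k0,k0,k0,k2],[k0,k0,k0,k0,k0,k3],[k0,k0,k0,k0,k0,k4],[k0,k0,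
    k0,k0,k0,k5]]
    [.contra [z3,y1,z2],.contra [z3,z0,z2,z1,z3,y3],.contra [z1],.contra [z1,z0,z0,z0,y1],.contra [z3,z0,z1,y1,y3],
    .contra [z1,z0,z1,z0,y1],.contra [z3,z1,z3,z1,z0,y3],.contra [z3,z2,z3,z2,z3,y6],.contra [z3,z2,z6,z2,z6,y6],
    .contra [z1,z1,z2,z1,z3,y3],.contra [z3,z4,z6,z4,z12,y12],.contra [z3,z5,z6,z5,z15,y15]],
    .old (.lp [k48,k46,k50,k38,k24,k32] [k1,k1,k2,k2,k0,k0,k6,k6,k13,k13,k9,k9] k0 [[k0,k0,k0,k0,k0,k0,k12],[k0,k0,k0,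
    k22],[k22],[],[],[],[],[k0,k12],[],[k0,k0,k0,k0,k0,k0,k0,k0,k0,k0,k0,k2],[k0,k0,k0,k0,k0,k0,k0,k0,k2]] k120 k6
    [[(k8,k38),(k10,k40),(k11,k40),(k7,k43),(k1,k48),(k4,k49)],[(k9,k24),(k3,k47),(k5,k71)],[(k2,k24),(k0,k47),(k6,
    k54)],[(k3,k24),(k9,k35),(k5,k48)],[(k6,k44),(k2,k48),(k0,k71)],[(k8,k37),(k10,k41),(k11,k41),(k7,k44),(k1,k49),
    (k4,k50)],[(k8,k31),(k10,k35),(k11,k35),(k7,k38),(k1,k43),(k4,k44)],[(k9,k31),(k5,k44),(k3,k54)],[(k0,k24),(k6,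
    k31),(k2,k35)],[(k8,k24),(k10,k28),(k11,k28),(k7,k31),(k4,k37),(k1,k38)],[(k8,k28),(k10,k30),(k11,k32),(k7,k35),
    (k1,k40),(k4,k41)],[(k8,k28),(k11,k30),(k10,k32),(k7,k35),(k1,k40),(k4,k41)]]
    [] k0
    [[k1,k0,k0,k0,k1,k0],[k1,k0,k0,k0,k1,k1],[k0,k2,k0,k0,k0,k0],[k0,k3,k0,k0,k0,k0],[k0,k4,k0,k0,k0,k0],[k0,k0,k1,k1,
    k0,k0],[k0,k0,k0,k1,k1,k0],[k0,k0,k0,k1,k1,k1],[k0,k0,k0,k0,k0,k2],[k0,k0,k0,k0,k0,k3]]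
    [.contra [z1,y1],.ref k2 k0 [(z1,[z1])],.contra [z1],.ref k18 k0 [(z1,[y1,z3,z3]),(z1,[z1]),(z1,[z1,z0,y3,z3]),
    (z1,[z0,y1,y1,y1,z1])],.ref k2 k0 [(z2,[y1,z2,z4])],.contra [z1,z1,z2,z0,y1],.contra [y2,y1,y2,y1,z2],.contra [z1,
    z1,z1,z1,y1],.contra [z1],.ref k17 k0 [(z1,[z1,z3]),(z1,[y1,z0,z3]),(z1,[y1,z0,z0,z3]),(z1,[z0,y1,y1,y1,z1])]]),
    .old (.lp [(nat_lit 222),k160,(nat_lit 258),k96,k96,k126] [k18,k18,k49,k49,k0,k0,k81,k81,k81,k81,k66,k66] k0 [[k0,k0,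
    k0,k0,k0,k0,k2],[],[],[],[],[],[],[k0,k2],[],[k0,k0,k0,k0,k0,k0,k0,k0,k0,k0,k0,k2],[k0,k0,k0,k0,k0,k0,k0,k0,
    k2]] (nat_lit 480) k6
    [[(k7,k159),(k8,k161),(k10,k174),(k11,k174),(k1,(nat_lit 222)),(k4,(nat_lit 240))],[(k9,k157),(k3,k191),(k5,
    (nat_lit 240))],[(k6,k130),(k2,k160),(k0,k191)],[(k9,k128),(k3,k160),(k5,(nat_lit 209))],[(k6,k177),(k2,
    (nat_lit 209)),(k0,(nat_lit 240))],[(k7,k177),(k8,k177),(k10,k192),(k11,k192),(k1,(nat_lit 240)),(k4,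
    (nat_lit 258))],[(k7,k96),(k8,k96),(k10,k111),(k11,k111),(k1,k159),(k4,k177)],[(k9,k96),(k3,k130),(k5,k177)],[(k6,
    k96),(k2,k128),(k0,k157)],[(k7,k96),(k8,k96),(k10,k111),(k11,k111),(k1,k161),(k4,k177)],[(k7,k111),(k8,k111),(k10,
    k124),(k11,k126),(k1,k174),(k4,k192)],[(k7,k111),(k8,k111),(k11,k124),(k10,k126),(k1,k174),(k4,k192)]]
    [] k0
    [[k1,k0,k0,k0,k1,k0],[k1,k0,k0,k0,k1,k1],[k0,k2,k0,k0,k0,k0],[k0,k1,k0,k1,k1,k0],[k0,k0,k1,k1,k0,k0],[k0,k0,k0,k2,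
    k2,k0],[k0,k0,k0,k1,k1,k0],[k0,k0,k0,k1,k1,k1],[k0,k0,k0,k1,k1,k2],[k0,k0,k0,k0,k0,k2],[k0,k0,k0,k0,k0,k3]]
    [.contra [z3,y1,z2],.ref k2 k0 [(z1,[z1])],.contra [z1],.contra [y3,y1,z0,y1,z3],.contra [y3,y1,y1,z0,z3],
    .ref k19 k0 [(z6,[z3,z4,z2,z2,y6]),(z6,[y3,y2,z0,y2,z6]),(z6,[y3,y2,y2,z0,z6])],.contra [y3,y1,z0,y1,z3],
    .contra [z3,z1,z3,z1,y3],.ref k2 k0 [(z3,[z3,z2,z1,z1,y3])],.contra [z1],.ref k2 k0 [(z3,[z1,z1])]]),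
    .old (.lp [(nat_lit 258),k124,(nat_lit 222),k96,k96,k162] [k0,k0,k67,k67,k18,k18,k81,k81,k81,k81,k48,k48] k0 [[k0,k0,
    k0,k0,k0,k0,k40],[],[],[],[],[],[],[k0,k40],[],[k0,k0,k0,k0,k0,k0,k0,k0,k0,k0,k0,k2],[k0,k0,k0,k0,k0,k0,k0,k0,
    k2]] (nat_lit 480) k6
    [[(k7,k177),(k8,k179),(k10,(nat_lit 210)),(k11,(nat_lit 210)),(k4,(nat_lit 240)),(k1,(nat_lit 258))],[(k9,k137),
    (k3,k191),(k5,(nat_lit 240))],[(k2,k124),(k6,k150),(k0,k191)],[(k9,k110),(k3,k124),(k5,k173)],[(k6,k159),(k2,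
    k173),(k0,(nat_lit 240))],[(k7,k159),(k8,k159),(k10,k192),(k11,k192),(k4,(nat_lit 222)),(k1,(nat_lit 240))],[(k7,
    k96),(k8,k96),(k10,k129),(k11,k129),(k4,k159),(k1,k177)],[(k9,k96),(k3,k150),(k5,k159)],[(k6,k96),(k2,k110),(k0,
    k137)],[(k7,k96),(k8,k96),(k10,k129),(k11,k129),(k4,k159),(k1,k179)],[(k7,k129),(k8,k129),(k10,k160),(k11,k162),
    (k4,k192),(k1,(nat_lit 210))],[(k7,k129),(k8,k129),(k11,k160),(k10,k162),(k4,k192),(k1,(nat_lit 210))]]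
    [] k0
    [[k1,k0,k0,k0,k1,k0],[k1,k0,k0,k0,k1,k1],[k0,k2,k0,k0,k0,k0],[k0,k3,k0,k0,k0,k0],[k0,k1,k0,k1,k1,k0],[k0,k0,k1,k1,
    k0,k0],[k0,k0,k0,k2,k2,k0],[k0,k0,k0,k1,k1,k0],[k0,k0,k0,k1,k1,k1],[k0,k0,k0,k0,k0,k2]]
    [.contra [y1,z1,z1],.ref k2 k0 [(z1,[z1])],.contra [z1],.ref k20 k0 [(z1,[y1,z3,z3]),(z1,[z1]),(z1,[z1,y3,y6,
    z3])],.contra [y1,z0,z1],.contra [y1,y1,y1,z1],.ref k19 k0 [(z2,[z1,z2]),(z2,[y1,z0,z2]),(z2,[y1,y2,y2,z2])],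
    .contra [y1,z0,z1],.contra [y1,z0,z1],.contra [z1]]),
    .old (.lp [(nat_lit 1020),(nat_lit 680),(nat_lit 510),(nat_lit 612),(nat_lit 408),(nat_lit 765)] [k0,k0,k170,k170,
    (nat_lit 255),(nat_lit 255),(nat_lit 306),k102,(nat_lit 306),(nat_lit 306),k0,(nat_lit 255)] k0 [[k0,k0,k0,k0,k0,
    k0,(nat_lit 240)],[],[],[],[k0,k0,k0,k0,k0,k0,k0,k0,k102],[k0,k0,k0,k0,k0,k0,k0,k0,k0,k0,k0,(nat_lit 510)],[],[k0,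
    (nat_lit 240)],[],[k0,k0,k0,k0,k0,k102],[k0,k0,k0,k0,(nat_lit 510)]] (nat_lit 2040) k6
    [[(k8,(nat_lit 714)),(k11,(nat_lit 765)),(k7,(nat_lit 918)),(k1,(nat_lit 1020)),(k10,(nat_lit 1020)),(k4,
    (nat_lit 1275))],[(k9,(nat_lit 474)),(k5,(nat_lit 765)),(k3,(nat_lit 850))],[(k2,(nat_lit 680)),(k6,
    (nat_lit 784)),(k0,(nat_lit 850))],[(k9,(nat_lit 544)),(k5,(nat_lit 595)),(k3,(nat_lit 680))],[(k6,(nat_lit 459)),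
    (k2,(nat_lit 595)),(k0,(nat_lit 765))],[(k11,(nat_lit 408)),(k8,(nat_lit 459)),(k4,(nat_lit 510)),(k7,
    (nat_lit 663)),(k10,(nat_lit 765)),(k1,(nat_lit 1275))],[(k10,(nat_lit 408)),(k4,(nat_lit 663)),(k11,
    (nat_lit 663)),(k8,(nat_lit 714)),(k7,(nat_lit 816)),(k1,(nat_lit 918))],[(k9,(nat_lit 408)),(k5,(nat_lit 459)),
    (k3,(nat_lit 784))],[(k6,(nat_lit 408)),(k0,(nat_lit 474)),(k2,(nat_lit 544))],[(k8,(nat_lit 408)),(k4,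
    (nat_lit 459)),(k11,(nat_lit 459)),(k1,(nat_lit 714)),(k7,(nat_lit 714)),(k10,(nat_lit 714))],[(k4,(nat_lit 408)),
    (k8,(nat_lit 459)),(k11,(nat_lit 510)),(k7,(nat_lit 663)),(k1,(nat_lit 765)),(k10,(nat_lit 765))],[(k7,
    (nat_lit 408)),(k8,(nat_lit 714)),(k4,(nat_lit 765)),(k11,(nat_lit 765)),(k1,(nat_lit 1020)),(k10,
    (nat_lit 1020))]]
    [] k0
    [[k1,k0,k0,k0,k1,k0],[k1,k0,k0,k0,k1,k1],[k0,k2,k0,k0,k0,k0],[k0,k0,k1,k1,k0,k0],[k0,k0,k1,k1,k0,k1],[k0,k0,k0,k1,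
    k1,k0],[k0,k0,k0,k1,k1,k1],[k0,k0,k0,k0,k0,k2]]
    [.ref k16 k0 [(z1,[z1])],.ref k2 k0 [(z1,[z1])],.contra [z1],.ref k1 k0 [(z1,[y1,z0,z1])],.ref k21 k0 [(z1,[y1,
    z1]),(z1,[z0,y1,z1])],.contra [y1,y1,z1],.contra [y1,y1,z1],.contra [z1]]),
    .old (.lp [k6,k10,k6,k8,k6,k10] [k2,k2,k0,k0,k2,k2,k1,k1,k2,k2,k0,k0] k0 [[],[k0,k0,k0,k2],[k2],[],[],[],[],[],[],[k0,
    k0,k0,k0,k0,k0,k0,k0,k0,k0,k0,k2],[k0,k0,k0,k0,k0,k0,k0,k0,k2]] k24 k5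
    [[(k1,k6),(k4,k6),(k7,k7),(k8,k8),(k10,k8),(k11,k8)],[(k9,k6),(k3,k8),(k5,k8)],[(k0,k8),(k2,k8),(k6,k9)],[(k3,k8),
    (k5,k8),(k9,k8)],[(k6,k7),(k0,k8),(k2,k8)],[(k1,k6),(k4,k6),(k8,k6),(k7,k7),(k10,k8),(k11,k8)],[(k1,k7),(k4,k7),
    (k8,k7),(k7,k8),(k10,k9),(k11,k9)],[(k5,k7),(k9,k7),(k3,k9)],[(k0,k6),(k6,k7),(k2,k8)],[(k4,k6),(k8,k6),(k7,k7),
    (k1,k8),(k10,k8),(k11,k8)],[(k1,k8),(k4,k8),(k8,k8),(k10,k8),(k7,k9),(k11,k10)],[(k1,k8),(k4,k8),(k8,k8),(k11,k8),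
    (k7,k9),(k10,k10)]]
    [] k0
    [[k1,k0,k1,k0,k0,k0],[k1,k1,k1,k0,k0,k0],[k1,k0,k0,k0,k1,k0],[k1,k0,k0,k0,k1,k1],[k0,k2,k0,k0,k0,k0],[k0,k0,k1,k1,
    k0,k0],[k0,k0,k0,k1,k1,k0],[k0,k0,k0,k0,k0,k2]]
    [.ref k22 k0 [(z1,[z1])],.ref k3 k0 [(z1,[z1])],.ref k16 k0 [(z1,[z1])],.ref k2 k0 [(z1,[z1])],.contra [z1],
    .ref k1 k0 [(z1,[y1,z1])],.ref k0 k0 [(z1,[y1,z1])],.contra [z1]])]⟩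

/-- classes `0 0 1 0 1 1`, types `C0 C0 S0 C2 S0 S0` -/
noncomputable def cU6_917 : CertX :=
  ⟨[k4,k4,k16,k6,k16,k16],[(false,k0,[k0,k1,k2,k3,k4,k5])],[[[([z1,z1,z1,z0,z0,z1],z2)],[([z1,z1,z1,z0,z0,z0],z2)],
    [([z1,z1,z0,z1,z0,z1],z2)],[([z1,z0,z0,z1,z0,z0],z2)],[([z1,z0,z0,z1,z0,z1],z2)],[([z1,z1,z0,z1,z0,z0],z2)],[]]],
    [.old (.leafM k0 [k0,k1,k2,k5] [] [(k3,k4,z1,[y1,z1]),(k4,k3,z1,[y1,z1])]),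
    .old (.leafM k0 [k2,k3,k4,k5,k0,k1] [(z1,[y1,z1])] []),
    .old (.leafM k1 [k5,k0,k1,k3] [] [(k2,k4,z1,[y1,z1]),(k4,k2,z1,[y1,z1])]),
    .old (.leafM k2 [k1,k2,k4,k5] [] [(k3,k0,z1,[z1]),(k0,k3,z1,[z1])]),
    .old (.leafM k3 [k2,k3,k4,k5,k0,k1] [(z1,[z1])] []),
    .old (.leafM k3 [k1,k2,k3,k4,k5,k0] [(z1,[y1,z1])] []),
    .old (.lp [k26,k40,k50,k38,k24,k60] [k32,k32,k25,k25,k20,k20,k30,k22,k33,k33,k0,k30] k0 [[k0,k0,k0,k0,k0,k0,k0,k4],[],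
    [],[],[k0,k0,k0,k0,k0,k0,k0,k0,k14],[k0,k0,k0,k0,k0,k0,k0,k0,k2,k0,k0,k44],[k0,k4],[],[],[k0,k0,k0,k0,k2,k14],[k0,
    k0,k0,k0,k44]] k120 k6
    [[(k8,k25),(k1,k26),(k11,k28),(k7,k36),(k10,k58),(k4,k82)],[(k6,k24),(k3,k33),(k5,k38)],[(k0,k33),(k9,k36),(k2,
    k40)],[(k6,k35),(k3,k40),(k5,k45)],[(k9,k37),(k0,k38),(k2,k45)],[(k11,k26),(k8,k39),(k7,k48),(k4,k50),(k10,k70),
    (k1,k82)],[(k10,k24),(k1,k36),(k11,k36),(k7,k46),(k4,k48),(k8,k49)],[(k0,k24),(k9,k27),(k2,k35)],[(k6,k27),(k3,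
    k36),(k5,k37)],[(k8,k24),(k1,k25),(k11,k27),(k4,k39),(k7,k49),(k10,k57)],[(k4,k26),(k8,k27),(k1,k28),(k11,k30),
    (k7,k36),(k10,k60)],[(k7,k24),(k8,k57),(k1,k58),(k11,k60),(k4,k70),(k10,k90)]]
    [] k0
    [[k1,k0,k0,k1,k0,k0],[k1,k1,k0,k1,k0,k0],[k1,k0,k0,k1,k0,k1],[k0,k2,k0,k0,k0,k0],[k0,k0,k1,k0,k1,k0],[k0,k0,k0,k1,
    k1,k0],[k0,k0,k0,k1,k1,k1]]
    [.ref k3 k0 [(z1,[z1])],.ref k5 k0 [(z1,[z1])],.ref k4 k0 [(z1,[z1])],.contra [z1],.ref k2 k0 [(z1,[y1,z1])],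
    .ref k0 k0 [(z1,[y1,z1])],.ref k1 k0 [(z1,[y1,z1])]])]⟩

/-- classes `0 0 1 0 1 1`, types `C0 C2 C0 C0 C0 C2` -/
noncomputable def cU6_918 : CertX :=
  ⟨[k4,k6,k20,k4,k20,k22],[(false,k0,[k0,k1,k2,k3,k4,k5])],[[[([z1,z1,z1,z0,z0,z1],z2)],[([z1,z0,z0,z0,z1,z1],z2)],
    [([z1,z1,z0,z1,z0,z0],z2)],[]]],
    [.old (.leafM k0 [k0,k1,k2,k5] [] [(k3,k4,z1,[y1,z1]),(k4,k3,z1,[y1,z1])]),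
    .old (.leafM k0 [k0,k1,k2,k3,k4,k5] [(z1,[y1,z1])] []),
    .old (.leafM k3 [k1,k2,k3,k4,k5,k0] [(z1,[y1,z1])] []),
    .old (.lp [k2,k2,k4,k2,k2,k2] [k1,k1,k1,k1,k0,k0,k1,k1,k1,k1,k1,k1] k0 [] k8 k5
    [[(k7,k2),(k10,k2),(k11,k2)],[(k2,k2),(k3,k2),(k9,k2)],[(k0,k2),(k6,k2),(k5,k3)],[(k0,k2),(k6,k2),(k5,k3)],[(k2,
    k3),(k3,k3),(k9,k3)],[(k7,k3),(k10,k3),(k11,k3)],[(k1,k2),(k8,k2),(k4,k3)],[(k2,k2),(k3,k2),(k9,k2)],[(k0,k2),(k6,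
    k2),(k5,k3)],[(k7,k2),(k10,k2),(k11,k2)],[(k1,k2),(k8,k2),(k4,k3)],[(k1,k2),(k8,k2),(k4,k3)]]
    [] k0
    [[k1,k1,k0,k1,k0,k0],[k1,k0,k0,k0,k1,k1],[k0,k0,k0,k1,k1,k0]]
    [.ref k2 k0 [(z1,[z1])],.ref k1 k0 [(z1,[z1])],.ref k0 k0 [(z1,[y1,z1])]])]⟩

/-- classes `0 0 1 0 1 1`, types `C0 C2 C0 C0 C2 C0` -/
noncomputable def cU6_919 : CertX :=
  ⟨[k4,k6,k20,k4,k22,k20],[(true,k0,[k0,k5,k4,k3,k2,k1]),(false,k0,[k0,k1,k2,k3,k4,k5])],[[[([z1,z1,z0,z1,z0,z1],z2)],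
    [([z1,z0,z0,z0,z1,z1],z2)],[]]],
    [.old (.leafM k1 [k5,k0,k1,k3] [] [(k2,k4,z1,[y1,z1]),(k4,k2,z1,[y1,z1])]),
    .old (.leafM k0 [k0,k1,k2,k3,k4,k5] [(z1,[y1,z1])] []),
    .old (.lp [k2,k2,k2,k2,k2,k4] [k1,k1,k1,k1,k1,k1,k1,k1,k1,k1,k0,k0] k0 [] k8 k5
    [[(k4,k2),(k10,k3),(k11,k3)],[(k2,k2),(k3,k2),(k9,k2)],[(k0,k2),(k5,k2),(k6,k2)],[(k0,k2),(k5,k2),(k6,k2)],[(k2,
    k2),(k3,k2),(k9,k2)],[(k1,k2),(k7,k2),(k8,k2)],[(k4,k2),(k10,k3),(k11,k3)],[(k2,k2),(k3,k2),(k9,k2)],[(k0,k2),(k5,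
    k2),(k6,k2)],[(k4,k2),(k10,k3),(k11,k3)],[(k1,k3),(k7,k3),(k8,k3)],[(k1,k3),(k7,k3),(k8,k3)]]
    [] k0
    [[k1,k1,k1,k0,k0,k0],[k0,k1,k1,k1,k0,k0],[k0,k0,k1,k0,k1,k0]]
    [.ref k1 k0 [(z1,[z1])],.ref k1 k1 [(z1,[y1,z1])],.ref k0 k1 [(z1,[y1,z1])]])]⟩

/-- classes `0 0 1 0 1 1`, types `C0 C2 C0 C2 C0 C2` -/
noncomputable def cU6_920 : CertX :=
  ⟨[k4,k6,k20,k6,k20,k22],[(false,k0,[k0,k1,k2,k3,k4,k5]),(true,k0,[k0,k5,k4,k3,k2,k1])],[[[([z1,z1,z0,z0,z1,z1],z2)],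
    [([z1,z0,z0,z1,z0,z0],z2)],[]]],
    [.old (.leafM k0 [k0,k1,k4,k5] [] [(k2,k3,z1,[y1,z1]),(k3,k2,z1,[y1,z1])]),
    .old (.leafM k2 [k1,k2,k4,k5] [] [(k3,k0,z1,[z1]),(k0,k3,z1,[z1])]),
    .old (.lp [k0,k2,k0,k2,k0,k2] [k1,k1,k0,k0,k1,k1,k0,k0,k1,k1,k0,k0] k0 [] k4 k5
    [[(k7,k1),(k10,k1),(k11,k1)],[(k2,k1),(k3,k1),(k6,k1)],[(k0,k1),(k5,k1),(k9,k1)],[(k0,k1),(k5,k1),(k9,k1)],[(k2,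
    k1),(k3,k1),(k6,k1)],[(k7,k1),(k10,k1),(k11,k1)],[(k1,k1),(k4,k1),(k8,k1)],[(k0,k1),(k5,k1),(k9,k1)],[(k2,k1),(k3,
    k1),(k6,k1)],[(k7,k1),(k10,k1),(k11,k1)],[(k1,k1),(k4,k1),(k8,k1)],[(k1,k1),(k4,k1),(k8,k1)]]
    [] k0
    [[k1,k0,k0,k1,k0,k0],[k0,k0,k1,k1,k0,k0],[k0,k0,k0,k1,k1,k0]]
    [.ref k1 k0 [(z1,[z1])],.ref k0 k0 [(z1,[y1,z1])],.ref k0 k1 [(z1,[y1,z1])]])]⟩

/-- classes `0 0 1 0 1 1`, types `C0 C2 S0 C0 S0 S0` -/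
noncomputable def cU6_921 : CertX :=
  ⟨[k4,k6,k16,k4,k16,k16],[(false,k0,[k0,k1,k2,k3,k4,k5])],[[[([z1,z1,z1,z0,z0,z1],z2)],[([z1,z1,z0,z1,z0,z1],z2)],
    [([z1,z1,z0,z1,z0,z0],z2)],[([z1,z0,z0,z0,z1,z1],z2)],[([z1,z1,z1,z0,z0,z0],z2)],[([z1,z0,z0,z0,z1,z0],z2),([z0,
    z1,z0,z2,z0,z2],z2)],[([z1,z0,z0,z0,z1,z0],z2)],[]]],
    [.old (.leafM k0 [k0,k1,k2,k5] [] [(k3,k4,z1,[y1,z1]),(k4,k3,z1,[y1,z1])]),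
    .old (.leafM k1 [k5,k0,k1,k3] [] [(k2,k4,z1,[y1,z1]),(k4,k2,z1,[y1,z1])]),
    .old (.leafM k3 [k1,k2,k3,k4,k5,k0] [(z1,[y1,z1])] []),
    .old (.leafM k0 [k0,k1,k2,k3,k4,k5] [(z1,[y1,z1])] []),
    .old (.leafM k0 [k2,k3,k4,k5,k0,k1] [(z1,[y1,z1])] []),
    .old (.lp [k30,k18,k12,k11,k28,k20] [k0,k12,k12,k12,k15,k15,k16,k15,k7,k7,k11,k11] k0 [[k0,k0,k0,k18],[k0,k0,k0,k0,k0,
    k0,k0,k2],[k0,k18],[],[k0,k0,k0,k0,k0,k0,k0,k0,k0,k1,k1],[],[k2],[],[k0,k0,k0,k0,k0,k1],[],[],[k0,k0,k0,k0,k0,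
    k1]] k60 k6
    [[(k4,k14),(k7,k15),(k1,k18),(k10,k19),(k11,k19),(k8,k23)],[(k2,k12),(k3,k30),(k9,k37)],[(k6,k12),(k0,k30),(k5,
    k33)],[(k0,k12),(k6,k14),(k5,k15)],[(k2,k15),(k9,k20),(k3,k33)],[(k4,k12),(k7,k12),(k1,k14),(k10,k16),(k11,k16),
    (k8,k19)],[(k4,k12),(k7,k12),(k1,k15),(k10,k17),(k11,k17),(k8,k20)],[(k3,k12),(k2,k14),(k9,k19)],[(k6,k19),(k5,
    k20),(k0,k37)],[(k4,k19),(k7,k20),(k1,k23),(k10,k24),(k11,k24),(k8,k28)],[(k4,k16),(k7,k17),(k1,k19),(k10,k20),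
    (k11,k20),(k8,k24)],[(k4,k16),(k7,k17),(k1,k19),(k10,k20),(k11,k20),(k8,k24)]]
    [] k0
    [[k1,k1,k1,k0,k0,k0],[k1,k1,k0,k1,k0,k0],[k0,k1,k1,k1,k0,k0],[k0,k1,k0,k2,k0,k0],[k0,k0,k1,k0,k1,k0],[k0,k0,k0,k1,
    k1,k0],[k0,k0,k0,k0,k0,k2]]
    [.ref k1 k0 [(z1,[z1,z1,z1,y1])],.ref k2 k0 [(z1,[z1])],.contra [y1,y1,z0,z1],.contra [y1,z0,z1],.ref k1 k0 [(z1,
    [y1,z0,z0,z1])],.ref k0 k0 [(z1,[y1,z0,z0,z1])],.contra [z1]]),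
    .old (.lp [k48,k24,k24,k38,k65,k40] [k15,k15,k27,k27,k27,k27,k20,k20,k13,k0,k19,k19] k0 [[],[k0,k0,k0,k0,k0,k0,k0,k7],
    [],[k0,k0,k0,k0,k0,k0,k27],[],[k0,k0,k0,k0,k0,k0,k0,k0,k0,k18,k18],[k7],[k0,k0,k27],[k0,k0,k0,k0,k18],[],[],[k0,
    k0,k0,k0,k18]] k120 k6
    [[(k7,k25),(k4,k36),(k10,k44),(k11,k44),(k1,k48),(k8,k50)],[(k2,k36),(k3,k36),(k9,k70)],[(k5,k24),(k6,k24),(k0,
    k36)],[(k5,k24),(k0,k36),(k6,k58)],[(k2,k24),(k3,k24),(k9,k24)],[(k4,k24),(k7,k31),(k1,k36),(k8,k38),(k10,k50),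
    (k11,k50)],[(k1,k25),(k8,k27),(k4,k31),(k7,k38),(k10,k39),(k11,k39)],[(k3,k24),(k2,k58),(k9,k58)],[(k5,k24),(k6,
    k58),(k0,k70)],[(k7,k27),(k4,k38),(k10,k46),(k11,k46),(k1,k50),(k8,k52)],[(k7,k39),(k10,k40),(k11,k40),(k1,k44),
    (k8,k46),(k4,k50)],[(k7,k39),(k10,k40),(k11,k40),(k1,k44),(k8,k46),(k4,k50)]]
    [] k0
    [[k1,k1,k1,k0,k0,k0],[k1,k1,k0,k1,k0,k0],[k0,k1,k2,k0,k0,k0],[k0,k1,k1,k1,k0,k0],[k0,k0,k1,k0,k1,k0],[k0,k0,k0,k1,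
    k1,k0],[k0,k0,k0,k0,k0,k2]]
    [.ref k4 k0 [(z1,[z1])],.ref k2 k0 [(z1,[z1])],.ref k5 k0 [(z1,[z0,z1]),(z1,[y1,y2,z2])],.contra [y1,y1,z1],
    .ref k1 k0 [(z1,[y1,z0,z1])],.ref k0 k0 [(z1,[y1,z0,z1])],.contra [z1]]),
    .old (.lp [(nat_lit 227010),(nat_lit 356730),(nat_lit 270480),(nat_lit 324300),(nat_lit 227010),
    (nat_lit 335580)] [(nat_lit 64860),(nat_lit 64860),k0,k0,(nat_lit 43125),(nat_lit 43125),(nat_lit 16215),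
    (nat_lit 16215),(nat_lit 64860),(nat_lit 64860),(nat_lit 10575),(nat_lit 10575)] k0 [[],[],[],[],[k0,k0,k0,k0,k0,
    k0,k0,k0,k0,(nat_lit 21620),(nat_lit 21620)],[k0,k0,k0,k0,(nat_lit 15134)],[],[],[k0,k0,k0,k0,k0,(nat_lit 21620)],
    [],[k0,k0,k0,k0,k0,k0,k0,k0,k0,k0,k0,(nat_lit 97290)],[k0,k0,k0,k0,k0,(nat_lit 21620)]] (nat_lit 908040) k5
    [[(k8,(nat_lit 227010)),(k4,(nat_lit 227125)),(k7,(nat_lit 275655)),(k10,(nat_lit 281295)),(k11,(nat_lit 281295)),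
    (k1,(nat_lit 324300))],[(k9,(nat_lit 227010)),(k2,(nat_lit 291870)),(k3,(nat_lit 291870))],[(k0,(nat_lit 291870)),
    (k5,(nat_lit 313605)),(k6,(nat_lit 340515))],[(k0,(nat_lit 291870)),(k5,(nat_lit 313605)),(k6,(nat_lit 340515))],
    [(k9,(nat_lit 248745)),(k2,(nat_lit 313605)),(k3,(nat_lit 313605))],[(k1,(nat_lit 227125)),(k8,(nat_lit 227125)),
    (k4,(nat_lit 285614)),(k7,(nat_lit 297390)),(k10,(nat_lit 303030)),(k11,(nat_lit 303030))],[(k1,(nat_lit 275655)),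
    (k8,(nat_lit 275655)),(k4,(nat_lit 297390)),(k7,(nat_lit 309166)),(k10,(nat_lit 351560)),(k11,(nat_lit 351560))],
    [(k9,(nat_lit 275655)),(k2,(nat_lit 340515)),(k3,(nat_lit 340515))],[(k0,(nat_lit 227010)),(k5,(nat_lit 248745)),
    (k6,(nat_lit 275655))],[(k1,(nat_lit 227010)),(k8,(nat_lit 227010)),(k4,(nat_lit 227125)),(k7,(nat_lit 275655)),
    (k10,(nat_lit 281295)),(k11,(nat_lit 281295))],[(k1,(nat_lit 281295)),(k8,(nat_lit 281295)),(k4,(nat_lit 303030)),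
    (k10,(nat_lit 335580)),(k11,(nat_lit 335580)),(k7,(nat_lit 351560))],[(k10,(nat_lit 238290)),(k1,
    (nat_lit 281295)),(k8,(nat_lit 281295)),(k4,(nat_lit 303030)),(k11,(nat_lit 335580)),(k7,(nat_lit 351560))]]
    [] k0
    [[k1,k1,k1,k0,k0,k0],[k1,k0,k0,k0,k1,k0],[k1,k0,k0,k0,k1,k1],[k0,k0,k1,k0,k1,k0],[k0,k0,k1,k0,k1,k1],[k0,k0,k0,k1,
    k1,k0],[k0,k0,k0,k0,k0,k2]]
    [.ref k4 k0 [(z1,[z1])],.ref k6 k0 [(z1,[z1])],.ref k3 k0 [(z1,[z1])],.ref k1 k0 [(z1,[y1,z1])],.ref k2 k0 [(z1,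
    [y1,z1])],.ref k0 k0 [(z1,[y1,z1])],.contra [z1]])]⟩

/-- classes `0 0 1 0 1 1`, types `C0 C2 S0 C2 S0 S0` -/
noncomputable def cU6_922 : CertX :=
  ⟨[k4,k6,k16,k6,k16,k16],[(false,k0,[k0,k1,k2,k3,k4,k5])],[[[([z1,z1,z1,z0,z0,z1],z2)],[([z1,z1,z0,z0,z1,z1],z2)],
    [([z1,z0,z0,z1,z0,z1],z2)],[([z1,z0,z0,z1,z0,z0],z2)],[([z1,z1,z1,z0,z0,z0],z2)],[]]],
    [.old (.leafM k0 [k0,k1,k2,k5] [] [(k3,k4,z1,[y1,z1]),(k4,k3,z1,[y1,z1])]),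
    .old (.leafM k0 [k0,k1,k4,k5] [] [(k2,k3,z1,[y1,z1]),(k3,k2,z1,[y1,z1])]),
    .old (.leafM k3 [k2,k3,k4,k5,k0,k1] [(z1,[z1])] []),
    .old (.leafM k2 [k1,k2,k4,k5] [] [(k3,k0,z1,[z1]),(k0,k3,z1,[z1])]),
    .old (.leafM k0 [k2,k3,k4,k5,k0,k1] [(z1,[y1,z1])] []),
    .old (.lp [k8,k8,k8,k6,k8,k8] [k0,k0,k0,k0,k0,k0,k1,k1,k0,k0,k0,k0] k0 [[],[],[],[],[k0,k0,k0,k0,k0,k0,k0,k0,k0,k2,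
    k2],[],[],[],[k0,k0,k0,k0,k0,k2],[],[],[k0,k0,k0,k0,k0,k2]] k24 k5
    [[(k4,k6),(k7,k7),(k1,k8),(k8,k8),(k10,k8),(k11,k8)],[(k6,k7),(k2,k8),(k3,k8)],[(k0,k8),(k5,k8),(k9,k8)],[(k0,k8),
    (k5,k8),(k9,k8)],[(k6,k7),(k2,k8),(k3,k8)],[(k1,k6),(k8,k6),(k7,k7),(k4,k8),(k10,k8),(k11,k8)],[(k7,k6),(k1,k7),
    (k4,k7),(k8,k7),(k10,k9),(k11,k9)],[(k0,k7),(k5,k7),(k9,k7)],[(k6,k7),(k2,k8),(k3,k8)],[(k4,k6),(k7,k7),(k1,k8),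
    (k8,k8),(k10,k8),(k11,k8)],[(k1,k8),(k4,k8),(k8,k8),(k10,k8),(k11,k8),(k7,k9)],[(k1,k8),(k4,k8),(k8,k8),(k10,k8),
    (k11,k8),(k7,k9)]]
    [] k0
    [[k1,k1,k1,k0,k0,k0],[k1,k0,k0,k1,k0,k0],[k0,k1,k1,k0,k1,k0],[k0,k0,k1,k1,k0,k0],[k0,k0,k0,k1,k1,k0],[k0,k0,k0,k0,
    k0,k2]]
    [.ref k4 k0 [(z1,[z1])],.ref k3 k0 [(z1,[z1])],.ref k2 k0 [(z1,[y1,z1])],.ref k1 k0 [(z1,[y1,z1])],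
    .ref k0 k0 [(z1,[y1,z1])],.contra [z1]])]⟩

/-- classes `0 0 1 0 1 2`, types `C0 C0 B0 C0 B1 C0` -/
noncomputable def cU6_923 : CertX :=
  ⟨[k4,k4,k24,k4,k25,k36],[(false,k0,[k0,k1,k2,k3,k4,k5])],[[[([z1,z1,z1,z0,z0,z1],z2)],[]]],
    [.old (.leafM k0 [k0,k1,k2,k5] [] [(k3,k4,z1,[y1,z1]),(k4,k3,z1,[y1,z1])]),
    .old (.lp [k12,k10,k8,k8,k4,k4] [k0,k0,k1,k1,k2,k2,k2,k2,k4,k4,k4,k4] k0 [[k0,k0,k0,k0,k0,k0,k2],[],[],[],[],[],[],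
    [k0,k2]] k24 k5
    [[(k10,k8)],[(k9,k6),(k5,k10),(k3,k11)],[(k2,k10),(k0,k11),(k6,k11)],[(k9,k7),(k5,k9),(k3,k10)],[(k6,k8),(k2,k9),
    (k0,k10)],[(k8,k6),(k11,k6)],[(k8,k6),(k11,k6)],[(k9,k6),(k5,k8),(k3,k11)],[(k0,k6),(k6,k6),(k2,k7)],[(k4,k6),(k7,
    k6)],[(k4,k6),(k7,k6)],[(k1,k8)]]
    [] k0
    [[k0,k2,k0,k0,k0,k0],[k0,k0,k0,k1,k1,k0]]
    [.contra [z1],.ref k0 k0 [(z1,[y1,z1])]])]⟩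

/-- classes `0 0 1 0 1 2`, types `C0 C0 B0 C0 B1 S0` -/
noncomputable def cU6_924 : CertX :=
  ⟨[k4,k4,k24,k4,k25,k32],[(false,k0,[k0,k1,k2,k3,k4,k5])],[[[([z1,z1,z1,z0,z0,z1],z2)],[]]],
    [.old (.leafM k0 [k0,k1,k2,k5] [] [(k3,k4,z1,[y1,z1]),(k4,k3,z1,[y1,z1])]),
    .old (.lp [k12,k10,k6,k6,k6,k6] [k0,k0,k1,k1,k3,k3,k3,k3,k3,k3,k3,k3] k0 [[k0,k0,k0,k0,k0,k0,k2],[],[],[],[],[],[],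
    [k0,k2]] k24 k5
    [[(k10,k9),(k1,k12)],[(k9,k7),(k5,k9),(k3,k11)],[(k2,k10),(k6,k10),(k0,k11)],[(k5,k8),(k9,k8),(k3,k10)],[(k6,k6),
    (k2,k8),(k0,k9)],[(k8,k6),(k11,k6)],[(k8,k6),(k11,k6)],[(k5,k6),(k9,k6),(k3,k10)],[(k6,k6),(k0,k7),(k2,k8)],[(k4,
    k6),(k7,k6)],[(k4,k6),(k7,k6)],[(k10,k6),(k1,k9)]]
    [] k0
    [[k0,k2,k0,k0,k0,k0],[k0,k0,k0,k1,k1,k0]]
    [.contra [z1],.ref k0 k0 [(z1,[y1,z1])]])]⟩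

/-- classes `0 0 1 0 1 2`, types `C0 C0 B0 C2 B1 C0` -/
noncomputable def cU6_925 : CertX :=
  ⟨[k4,k4,k24,k6,k25,k36],[(false,k0,[k0,k1,k2,k3,k4,k5])],[[[([z1,z1,z1,z0,z0,z1],z2)],[([z1,z1,z0,z1,z0,z1],z2)],
    [([z1,z0,z0,z1,z0,z1],z2)],[]]],
    [.old (.leafM k0 [k0,k1,k2,k5] [] [(k3,k4,z1,[y1,z1]),(k4,k3,z1,[y1,z1])]),
    .old (.leafM k1 [k5,k0,k1,k3] [] [(k2,k4,z1,[y1,z1]),(k4,k2,z1,[y1,z1])]),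
    .old (.leafM k3 [k2,k3,k4,k5,k0,k1] [(z1,[z1])] []),
    .old (.lp [k4,k10,k12,k12,k0,k8] [k4,k4,k1,k1,k0,k0,k0,k0,k6,k6,k2,k2] k0 [[k0,k0,k0,k0,k0,k0,k0,k2],[],[],[],[],[],
    [k0,k2]] k24 k5
    [[(k10,k6)],[(k6,k6),(k3,k7),(k5,k8)],[(k0,k7),(k9,k7),(k2,k10)],[(k3,k10),(k5,k11),(k6,k11)],[(k9,k6),(k0,k8),
    (k2,k11)],[(k8,k6),(k11,k10)],[(k8,k6),(k11,k10)],[(k0,k6),(k9,k6),(k2,k11)],[(k5,k6),(k6,k6),(k3,k7)],[(k4,k6),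
    (k7,k6)],[(k4,k10),(k7,k10)],[(k1,k6)]]
    [] k0
    [[k1,k0,k0,k1,k0,k1],[k0,k2,k0,k0,k0,k0],[k0,k0,k1,k0,k1,k0],[k0,k0,k0,k1,k1,k0]]
    [.ref k2 k0 [(z1,[z1])],.contra [z1],.ref k1 k0 [(z1,[y1,z1])],.ref k0 k0 [(z1,[y1,z1])]])]⟩

/-- classes `0 0 1 0 1 2`, types `C0 C0 B0 C2 B1 S0` -/
noncomputable def cU6_926 : CertX :=
  ⟨[k4,k4,k24,k6,k25,k32],[(false,k0,[k0,k1,k2,k3,k4,k5])],[[[([z1,z1,z1,z0,z0,z1],z2)],[([z1,z1,z0,z1,z0,z1],z2)],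
    [([z1,z0,z0,z1,z0,z1],z2)],[]]],
    [.old (.leafM k0 [k0,k1,k2,k5] [] [(k3,k4,z1,[y1,z1]),(k4,k3,z1,[y1,z1])]),
    .old (.leafM k1 [k5,k0,k1,k3] [] [(k2,k4,z1,[y1,z1]),(k4,k2,z1,[y1,z1])]),
    .old (.leafM k3 [k2,k3,k4,k5,k0,k1] [(z1,[z1])] []),
    .old (.lp [k12,k10,k4,k4,k8,k8] [k0,k0,k1,k1,k4,k4,k4,k4,k2,k2,k2,k2] k0 [[k0,k0,k0,k0,k0,k0,k0,k2],[],[],[],[],[],
    [k0,k2]] k24 k5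
    [[(k10,k10),(k1,k12)],[(k6,k6),(k5,k8),(k3,k11)],[(k2,k10),(k0,k11),(k9,k11)],[(k5,k7),(k6,k7),(k3,k10)],[(k9,k6),
    (k2,k7),(k0,k8)],[(k8,k6),(k11,k6)],[(k8,k6),(k11,k6)],[(k0,k6),(k9,k6),(k2,k7)],[(k5,k6),(k6,k6),(k3,k11)],[(k4,
    k6),(k7,k6)],[(k4,k6),(k7,k6)],[(k10,k8),(k1,k10)]]
    [] k0
    [[k1,k0,k0,k1,k0,k1],[k0,k2,k0,k0,k0,k0],[k0,k0,k1,k0,k1,k0],[k0,k0,k0,k1,k1,k0]]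
    [.ref k2 k0 [(z1,[z1])],.contra [z1],.ref k1 k0 [(z1,[y1,z1])],.ref k0 k0 [(z1,[y1,z1])]])]⟩

/-- classes `0 0 1 0 1 2`, types `C0 C0 C0 C0 C0 C0` -/
noncomputable def cU6_927 : CertX :=
  ⟨[k4,k4,k20,k4,k20,k36],[(false,k0,[k0,k1,k2,k3,k4,k5])],[[[([z1,z1,z1,z0,z0,z1],z2)],[([z1,z1,z0,z0,z1,z1],z2)],
    [([z1,z0,z0,z0,z1,z1],z2)],[]]],
    [.old (.leafM k0 [k0,k1,k2,k5] [] [(k3,k4,z1,[y1,z1]),(k4,k3,z1,[y1,z1])]),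
    .old (.leafM k0 [k0,k1,k4,k5] [] [(k2,k3,z1,[y1,z1]),(k3,k2,z1,[y1,z1])]),
    .old (.leafM k0 [k0,k1,k2,k3,k4,k5] [(z1,[y1,z1])] []),
    .old (.lp [k8,k8,k12,k6,k8,k4] [k2,k2,k2,k2,k0,k0,k3,k3,k2,k2,k4,k4] k0 [[k0,k0,k0,k0,k0,k0,k2],[],[],[],[],[],[],[k0,
    k2]] k24 k5
    [[(k10,k6)],[(k9,k6),(k3,k8),(k5,k10)],[(k0,k8),(k2,k8),(k6,k9)],[(k3,k8),(k9,k8),(k5,k10)],[(k6,k9),(k0,k10),(k2,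
    k10)],[(k11,k8),(k7,k9)],[(k8,k7),(k4,k9)],[(k9,k7),(k3,k9),(k5,k9)],[(k0,k6),(k6,k7),(k2,k8)],[(k11,k6),(k7,k7)],
    [(k8,k6),(k4,k8)],[(k1,k6)]]
    [] k0
    [[k1,k0,k0,k0,k1,k1],[k0,k2,k0,k0,k0,k0],[k0,k0,k1,k1,k0,k0],[k0,k0,k0,k1,k1,k0]]
    [.ref k2 k0 [(z1,[z1])],.contra [z1],.ref k1 k0 [(z1,[y1,z1])],.ref k0 k0 [(z1,[y1,z1])]])]⟩

/-- classes `0 0 1 0 1 2`, types `C0 C0 C0 C0 C0 S0` -/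
noncomputable def cU6_928 : CertX :=
  ⟨[k4,k4,k20,k4,k20,k32],[(false,k0,[k0,k1,k2,k3,k4,k5])],[[[([z1,z1,z1,z0,z0,z1],z2)],[([z1,z1,z0,z0,z1,z1],z2)],
    [([z1,z0,z0,z0,z1,z1],z2)],[]]],
    [.old (.leafM k0 [k0,k1,k2,k5] [] [(k3,k4,z1,[y1,z1]),(k4,k3,z1,[y1,z1])]),
    .old (.leafM k0 [k0,k1,k4,k5] [] [(k2,k3,z1,[y1,z1]),(k3,k2,z1,[y1,z1])]),
    .old (.leafM k0 [k0,k1,k2,k3,k4,k5] [(z1,[y1,z1])] []),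
    .old (.lp [k22,k20,k4,k20,k6,k22] [k0,k0,k1,k1,k9,k9,k1,k1,k8,k8,k0,k0] k0 [[k0,k0,k0,k0,k0,k0,k2],[],[],[],[],[],[],
    [k0,k2]] k48 k5
    [[(k1,k22),(k10,k22)],[(k9,k12),(k5,k13),(k3,k21)],[(k2,k20),(k0,k21),(k6,k22)],[(k5,k12),(k9,k13),(k3,k20)],[(k2,
    k12),(k6,k12),(k0,k13)],[(k7,k12),(k11,k13)],[(k4,k12),(k8,k13)],[(k5,k12),(k9,k13),(k3,k22)],[(k0,k12),(k2,k13),
    (k6,k13)],[(k7,k13),(k11,k14)],[(k4,k13),(k8,k14)],[(k1,k22),(k10,k22)]]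
    [] k0
    [[k0,k2,k0,k0,k0,k0],[k0,k1,k1,k1,k0,k0],[k0,k0,k1,k1,k0,k0],[k0,k0,k0,k1,k1,k0]]
    [.contra [z1],.ref k2 k0 [(z1,[y1,z1])],.ref k1 k0 [(z1,[y1,z1])],.ref k0 k0 [(z1,[y1,z1])]])]⟩

/-- classes `0 0 1 0 1 2`, types `C0 C0 C0 C0 C2 C0` -/
noncomputable def cU6_929 : CertX :=
  ⟨[k4,k4,k20,k4,k22,k36],[(false,k0,[k0,k1,k2,k3,k4,k5])],[[[([z1,z1,z0,z0,z1,z1],z2)],[([z1,z0,z0,z0,z1,z1],z2)],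
    []]],
    [.old (.leafM k0 [k0,k1,k4,k5] [] [(k2,k3,z1,[y1,z1]),(k3,k2,z1,[y1,z1])]),
    .old (.leafM k0 [k0,k1,k2,k3,k4,k5] [(z1,[y1,z1])] []),
    .old (.lp [k2,k4,k2,k2,k2,k2] [k1,k1,k0,k0,k1,k1,k1,k1,k1,k1,k1,k1] k0 [] k8 k5
    [[(k10,k2)],[(k5,k2),(k9,k2),(k3,k3)],[(k0,k3),(k6,k3),(k2,k4)],[(k5,k3),(k9,k3),(k3,k4)],[(k0,k2),(k6,k2),(k2,
    k3)],[(k7,k2),(k8,k2)],[(k4,k2),(k11,k2)],[(k5,k2),(k9,k2),(k3,k3)],[(k0,k2),(k6,k2),(k2,k3)],[(k4,k2),(k11,k2)],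
    [(k7,k2),(k8,k2)],[(k1,k2)]]
    [] k0
    [[k1,k0,k0,k0,k1,k1],[k0,k0,k1,k1,k0,k0]]
    [.ref k1 k0 [(z1,[z1])],.ref k0 k0 [(z1,[y1,z1])]])]⟩

/-- classes `0 0 1 0 1 2`, types `C0 C0 C0 C0 C2 S0` -/
noncomputable def cU6_930 : CertX :=
  ⟨[k4,k4,k20,k4,k22,k32],[(false,k0,[k0,k1,k2,k3,k4,k5])],[[[([z1,z1,z0,z0,z1,z1],z2)],[([z1,z0,z0,z0,z1,z1],z2)],
    []]],
    [.old (.leafM k0 [k0,k1,k4,k5] [] [(k2,k3,z1,[y1,z1]),(k3,k2,z1,[y1,z1])]),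
    .old (.leafM k0 [k0,k1,k2,k3,k4,k5] [(z1,[y1,z1])] []),
    .old (.lp [k10,k10,k6,k6,k6,k6] [k0,k0,k0,k0,k2,k2,k2,k2,k2,k2,k2,k2] k0 [[k0,k0,k2],[k0,k0,k0,k0,k0,k0,k0,k2],[],[k0,
    k2],[],[],[k2]] k24 k5
    [[(k10,k8),(k1,k10)],[(k5,k6),(k3,k10),(k9,k10)],[(k6,k6),(k0,k10),(k2,k12)],[(k5,k8),(k9,k8),(k3,k12)],[(k0,k6),
    (k6,k6),(k2,k8)],[(k7,k6),(k8,k6)],[(k4,k6),(k11,k6)],[(k3,k6),(k5,k6),(k9,k6)],[(k6,k6),(k2,k8),(k0,k10)],[(k4,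
    k6),(k11,k6)],[(k7,k6),(k8,k6)],[(k10,k6),(k1,k8)]]
    [] k0
    [[k0,k1,k1,k1,k0,k0],[k0,k0,k1,k1,k0,k0]]
    [.ref k1 k0 [(z1,[y1,z1])],.ref k0 k0 [(z1,[y1,z1])]])]⟩

/-- classes `0 0 1 0 1 2`, types `C0 C0 C0 C2 C0 C0` -/
noncomputable def cU6_931 : CertX :=
  ⟨[k4,k4,k20,k6,k20,k36],[(false,k0,[k0,k1,k2,k3,k4,k5])],[[[([z1,z1,z1,z0,z0,z1],z2)],[]]],
    [.old (.leafM k0 [k0,k1,k2,k5] [] [(k3,k4,z1,[y1,z1]),(k4,k3,z1,[y1,z1])]),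
    .old (.lp [k4,k8,k10,k12,k2,k10] [k4,k4,k2,k2,k1,k1,k0,k0,k5,k5,k1,k1] k0 [[k0,k0,k0,k0,k0,k0,k0,k2],[],[],[],[],[],
    [k0,k2]] k24 k5
    [[(k10,k7)],[(k3,k6),(k6,k6),(k5,k7)],[(k0,k6),(k9,k7),(k2,k8)],[(k3,k8),(k5,k9),(k6,k10)],[(k9,k6),(k0,k7),(k2,
    k9)],[(k11,k10),(k7,k11)],[(k8,k7),(k4,k11)],[(k0,k6),(k9,k7),(k2,k10)],[(k5,k6),(k3,k7),(k6,k7)],[(k11,k6),(k7,
    k7)],[(k8,k6),(k4,k10)],[(k1,k7)]]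
    [] k0
    [[k0,k2,k0,k0,k0,k0],[k0,k0,k0,k1,k1,k0]]
    [.contra [z1],.ref k0 k0 [(z1,[y1,z1])]])]⟩

/-- classes `0 0 1 0 1 2`, types `C0 C0 C0 C2 C0 S0` -/
noncomputable def cU6_932 : CertX :=
  ⟨[k4,k4,k20,k6,k20,k32],[(false,k0,[k0,k1,k2,k3,k4,k5])],[[[([z1,z1,z1,z0,z0,z1],z2)],[]]],
    [.old (.leafM k0 [k0,k1,k2,k5] [] [(k3,k4,z1,[y1,z1]),(k4,k3,z1,[y1,z1])]),
    .old (.lp [k12,k18,k18,k20,k6,k18] [k4,k4,k1,k1,k1,k1,k0,k0,k7,k7,k1,k1] k0 [[k0,k0,k0,k0,k0,k0,k0,k4],[],[],[],[],[],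
    [k0,k4]] k48 k5
    [[(k1,k12),(k10,k15)],[(k6,k12),(k3,k15),(k5,k15)],[(k0,k15),(k9,k16),(k2,k18)],[(k3,k18),(k5,k18),(k6,k19)],[(k9,
    k12),(k0,k15),(k2,k18)],[(k11,k18),(k7,k19)],[(k8,k13),(k4,k19)],[(k0,k12),(k9,k13),(k2,k19)],[(k5,k12),(k6,k13),
    (k3,k16)],[(k11,k12),(k7,k13)],[(k8,k12),(k4,k18)],[(k1,k15),(k10,k18)]]
    [] k0
    [[k0,k2,k0,k0,k0,k0],[k0,k0,k0,k1,k1,k0]]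
    [.contra [z1],.ref k0 k0 [(z1,[y1,z1])]])]⟩

/-- classes `0 0 1 0 1 2`, types `C0 C0 C0 C2 C2 C0` -/
noncomputable def cU6_933 : CertX :=
  ⟨[k4,k4,k20,k6,k22,k36],[(false,k0,[k0,k1,k2,k3,k4,k5])],[[[([z1,z1,z0,z1,z0,z1],z2)],[([z1,z0,z0,z1,z0,z1],z2)],
    []]],
    [.old (.leafM k1 [k5,k0,k1,k3] [] [(k2,k4,z1,[y1,z1]),(k4,k2,z1,[y1,z1])]),
    .old (.leafM k3 [k2,k3,k4,k5,k0,k1] [(z1,[z1])] []),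
    .old (.lp [k2,k4,k2,k2,k2,k2] [k1,k1,k0,k0,k1,k1,k1,k1,k1,k1,k1,k1] k0 [] k8 k5
    [[(k10,k2)],[(k5,k2),(k6,k2),(k3,k3)],[(k0,k3),(k9,k3),(k2,k4)],[(k5,k3),(k6,k3),(k3,k4)],[(k0,k2),(k9,k2),(k2,
    k3)],[(k7,k2),(k8,k2)],[(k4,k2),(k11,k2)],[(k0,k2),(k9,k2),(k2,k3)],[(k5,k2),(k6,k2),(k3,k3)],[(k4,k2),(k11,k2)],
    [(k7,k2),(k8,k2)],[(k1,k2)]]
    [] k0
    [[k1,k0,k0,k1,k0,k1],[k0,k0,k1,k0,k1,k0]]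
    [.ref k1 k0 [(z1,[z1])],.ref k0 k0 [(z1,[y1,z1])]])]⟩

/-- classes `0 0 1 0 1 2`, types `C0 C0 C0 C2 C2 S0` -/
noncomputable def cU6_934 : CertX :=
  ⟨[k4,k4,k20,k6,k22,k32],[(false,k0,[k0,k1,k2,k3,k4,k5])],[[[([z1,z1,z0,z1,z0,z1],z2)],[([z1,z0,z0,z1,z0,z1],z2)],
    []]],
    [.old (.leafM k1 [k5,k0,k1,k3] [] [(k2,k4,z1,[y1,z1]),(k4,k2,z1,[y1,z1])]),
    .old (.leafM k3 [k2,k3,k4,k5,k0,k1] [(z1,[z1])] []),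
    .old (.lp [k10,k10,k6,k6,k6,k6] [k0,k0,k0,k0,k2,k2,k2,k2,k2,k2,k2,k2] k0 [[k0,k0,k2],[k0,k0,k0,k0,k0,k0,k2],[],[k0,
    k2],[],[],[],[k2]] k24 k5
    [[(k10,k8),(k1,k10)],[(k5,k6),(k3,k10),(k6,k10)],[(k9,k6),(k0,k10),(k2,k12)],[(k5,k8),(k6,k8),(k3,k12)],[(k0,k6),
    (k9,k6),(k2,k8)],[(k7,k6),(k8,k6)],[(k4,k6),(k11,k6)],[(k9,k6),(k2,k8),(k0,k10)],[(k3,k6),(k5,k6),(k6,k6)],[(k4,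
    k6),(k11,k6)],[(k7,k6),(k8,k6)],[(k10,k6),(k1,k8)]]
    [] k0
    [[k0,k1,k1,k0,k1,k0],[k0,k0,k1,k0,k1,k0]]
    [.ref k1 k0 [(z1,[y1,z1])],.ref k0 k0 [(z1,[y1,z1])]])]⟩

/-- classes `0 0 1 0 1 2`, types `C0 C0 N0 C0 N1 C0` -/
noncomputable def cU6_935 : CertX :=
  ⟨[k4,k4,k28,k4,k29,k36],[(false,k0,[k0,k1,k2,k3,k4,k5])],[[[([z1,z1,z1,z0,z0,z1],z2)],[]]],
    [.old (.leafM k0 [k0,k1,k2,k5] [] [(k3,k4,z1,[y1,z1]),(k4,k3,z1,[y1,z1])]),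
    .old (.lp [k12,k8,k12,k10,k4,k0] [k0,k0,k2,k2,k0,k0,k1,k1,k4,k4,k6,k6] k0 [[k0,k0,k0,k0,k0,k0,k2],[],[],[],[],[],[],
    [k0,k2]] k24 k5
    [[(k10,k6)],[(k9,k6),(k3,k10),(k5,k12)],[(k2,k8),(k0,k10),(k6,k11)],[(k9,k6),(k3,k8),(k5,k10)],[(k2,k10),(k6,k11),
    (k0,k12)],[(k11,k6)],[(k8,k7)],[(k9,k7),(k3,k11),(k5,k11)],[(k0,k6),(k2,k6),(k6,k7)],[(k7,k7)],[(k4,k6)],[(k1,
    k6)]]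
    [] k0
    [[k0,k2,k0,k0,k0,k0],[k0,k0,k0,k1,k1,k0]]
    [.contra [z1],.ref k0 k0 [(z1,[y1,z1])]])]⟩

/-- classes `0 0 1 0 1 2`, types `C0 C0 N0 C0 N1 S0` -/
noncomputable def cU6_936 : CertX :=
  ⟨[k4,k4,k28,k4,k29,k32],[(false,k0,[k0,k1,k2,k3,k4,k5])],[[[([z1,z1,z1,z0,z0,z1],z2)],[]]],
    [.old (.leafM k0 [k0,k1,k2,k5] [] [(k3,k4,z1,[y1,z1]),(k4,k3,z1,[y1,z1])]),
    .old (.lp [k12,k10,k4,k8,k4,k8] [k0,k0,k1,k1,k4,k4,k2,k2,k4,k4,k2,k2] k0 [[k0,k0,k0,k0,k0,k0,k2],[],[],[],[],[],[],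
    [k0,k2]] k24 k5
    [[(k10,k10),(k1,k12)],[(k9,k6),(k5,k8),(k3,k11)],[(k2,k10),(k0,k11),(k6,k11)],[(k5,k7),(k9,k7),(k3,k10)],[(k6,k6),
    (k2,k7),(k0,k8)],[(k11,k6)],[(k8,k6)],[(k5,k6),(k9,k6),(k3,k11)],[(k0,k6),(k6,k6),(k2,k7)],[(k7,k6)],[(k4,k6)],
    [(k10,k8),(k1,k10)]]
    [] k0
    [[k0,k2,k0,k0,k0,k0],[k0,k0,k0,k1,k1,k0]]
    [.contra [z1],.ref k0 k0 [(z1,[y1,z1])]])]⟩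

/-- classes `0 0 1 0 1 2`, types `C0 C0 N0 C0 N2 C0` -/
noncomputable def cU6_937 : CertX :=
  ⟨[k4,k4,k28,k4,k30,k36],[],[[[]]],
    [.old (.lp [k2,k4,k2,k2,k2,k2] [k1,k1,k0,k0,k1,k1,k1,k1,k1,k1,k1,k1] k0 [] k8 k5
    [[(k10,k2)],[(k5,k2),(k9,k2),(k3,k3)],[(k0,k3),(k6,k3),(k2,k4)],[(k5,k3),(k9,k3),(k3,k4)],[(k0,k2),(k6,k2),(k2,
    k3)],[(k8,k2)],[(k11,k2)],[(k5,k2),(k9,k2),(k3,k3)],[(k0,k2),(k6,k2),(k2,k3)],[(k4,k2)],[(k7,k2)],[(k1,k2)]]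
    [] k0
    []
    [])]⟩

/-- classes `0 0 1 0 1 2`, types `C0 C0 N0 C0 N2 S0` -/
noncomputable def cU6_938 : CertX :=
  ⟨[k4,k4,k28,k4,k30,k32],[],[[[]]],
    [.old (.lp [k2,k4,k2,k2,k2,k2] [k1,k1,k0,k0,k1,k1,k1,k1,k1,k1,k1,k1] k0 [] k8 k5
    [[(k1,k2),(k10,k2)],[(k5,k2),(k9,k2),(k3,k3)],[(k0,k3),(k6,k3),(k2,k4)],[(k5,k3),(k9,k3),(k3,k4)],[(k0,k2),(k6,
    k2),(k2,k3)],[(k8,k2)],[(k11,k2)],[(k5,k2),(k9,k2),(k3,k3)],[(k0,k2),(k6,k2),(k2,k3)],[(k4,k2)],[(k7,k2)],[(k1,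
    k2),(k10,k2)]]
    [] k0
    []
    [])]⟩

/-- the certificates of this file -/
noncomputable def lU6_23 : List CertX :=
  [cU6_893, cU6_894, cU6_895, cU6_896, cU6_897, cU6_898, cU6_899, cU6_900, cU6_901, cU6_902, cU6_903, cU6_904,
      cU6_905, cU6_906, cU6_907, cU6_908, cU6_909, cU6_910, cU6_911, cU6_912, cU6_913, cU6_914, cU6_915,
      cU6_916, cU6_917, cU6_918, cU6_919, cU6_920, cU6_921, cU6_922, cU6_923, cU6_924, cU6_925, cU6_926,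
      cU6_927, cU6_928, cU6_929, cU6_930, cU6_931, cU6_932, cU6_933, cU6_934, cU6_935, cU6_936, cU6_937,
      cU6_938]

theorem gU6_23 : allF (chkE 6 ttU6) lU6_23 = true := by
  decide +kernel

end Pool.Agent.Lib_MP_fa6e45
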