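import Pool.Agent.Lib_MP_fa6e45.CXT
import Pool.Agent.Lib_MP_fa6e45.HK

/-!
MP_fa6e45_co, stage 7: certificates (generated by a program).
-/

namespace Pool.Agent.Lib_MP_fa6e45

/-- classes `0 0 1 0 1 2`, types `C0 C0 N0 C2 N1 C0` -/
noncomputable def cU6_939 : CertX :=
  ⟨[k4,k4,k28,k6,k29,k36],[(false,k0,[k0,k1,k2,k3,k4,k5])],[[[([z1,z1,z1,z0,z0,z1],z2)],[]]],
    [.old (.leafM k0 [k0,k1,k2,k5] [] [(k3,k4,z1,[y1,z1]),(k4,k3,z1,[y1,z1])]),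
    .old (.lp [k12,k8,k12,k14,k0,k0] [k1,k1,k3,k3,k1,k1,k0,k0,k7,k7,k7,k7] k0 [[k0,k0,k0,k0,k0,k0,k0,k2],[],[],[],[],[],
    [k0,k2]] k24 k5
    [[(k10,k6)],[(k3,k10),(k6,k11),(k5,k12)],[(k9,k6),(k2,k8),(k0,k10)],[(k3,k8),(k5,k10),(k6,k11)],[(k9,k6),(k2,k10),
    (k0,k12)],[(k11,k6)],[(k8,k7)],[(k9,k7),(k0,k11),(k2,k11)],[(k3,k6),(k5,k6),(k6,k7)],[(k7,k7)],[(k4,k6)],[(k1,
    k6)]]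
    [] k0
    [[k0,k2,k0,k0,k0,k0],[k0,k0,k0,k1,k1,k0]]
    [.contra [z1],.ref k0 k0 [(z1,[y1,z1])]])]⟩

/-- classes `0 0 1 0 1 2`, types `C0 C0 N0 C2 N1 S0` -/
noncomputable def cU6_940 : CertX :=
  ⟨[k4,k4,k28,k6,k29,k32],[(false,k0,[k0,k1,k2,k3,k4,k5])],[[[([z1,z1,z1,z0,z0,z1],z2)],[]]],
    [.old (.leafM k0 [k0,k1,k2,k5] [] [(k3,k4,z1,[y1,z1]),(k4,k3,z1,[y1,z1])]),
    .old (.lp [k6,k10,k12,k12,k0,k6] [k3,k3,k1,k1,k0,k0,k0,k0,k6,k6,k3,k3] k0 [[k0,k0,k0,k0,k0,k0,k0,k2],[],[],[],[],[],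
    [k0,k2]] k24 k5
    [[(k1,k6),(k10,k6)],[(k6,k7),(k3,k8),(k5,k9)],[(k9,k7),(k0,k8),(k2,k10)],[(k3,k10),(k5,k11),(k6,k11)],[(k9,k6),
    (k0,k9),(k2,k11)],[(k11,k9)],[(k8,k6)],[(k9,k6),(k0,k7),(k2,k11)],[(k5,k6),(k6,k6),(k3,k7)],[(k7,k6)],[(k4,k9)],
    [(k1,k6),(k10,k6)]]
    [] k0
    [[k0,k2,k0,k0,k0,k0],[k0,k0,k0,k1,k1,k0]]
    [.contra [z1],.ref k0 k0 [(z1,[y1,z1])]])]⟩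

/-- classes `0 0 1 0 1 2`, types `C0 C0 N0 C2 N2 C0` -/
noncomputable def cU6_941 : CertX :=
  ⟨[k4,k4,k28,k6,k30,k36],[(false,k0,[k0,k1,k2,k3,k4,k5])],[[[([z1,z1,z0,z1,z0,z1],z2)],[([z1,z0,z0,z1,z0,z1],z2)],
    []]],
    [.old (.leafM k1 [k5,k0,k1,k3] [] [(k2,k4,z1,[y1,z1]),(k4,k2,z1,[y1,z1])]),
    .old (.leafM k3 [k2,k3,k4,k5,k0,k1] [(z1,[z1])] []),
    .old (.lp [k2,k4,k2,k2,k2,k2] [k1,k1,k0,k0,k1,k1,k1,k1,k1,k1,k1,k1] k0 [] k8 k5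
    [[(k10,k2)],[(k5,k2),(k6,k2),(k3,k3)],[(k0,k3),(k9,k3),(k2,k4)],[(k5,k3),(k6,k3),(k3,k4)],[(k0,k2),(k9,k2),(k2,
    k3)],[(k8,k2)],[(k11,k2)],[(k0,k2),(k9,k2),(k2,k3)],[(k5,k2),(k6,k2),(k3,k3)],[(k4,k2)],[(k7,k2)],[(k1,k2)]]
    [] k0
    [[k1,k0,k0,k1,k0,k1],[k0,k0,k1,k0,k1,k0]]
    [.ref k1 k0 [(z1,[z1])],.ref k0 k0 [(z1,[y1,z1])]])]⟩

/-- classes `0 0 1 0 1 2`, types `C0 C0 N0 C2 N2 S0` -/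
noncomputable def cU6_942 : CertX :=
  ⟨[k4,k4,k28,k6,k30,k32],[(false,k0,[k0,k1,k2,k3,k4,k5])],[[[([z1,z1,z0,z1,z0,z1],z2)],[([z1,z0,z0,z1,z0,z1],z2)],
    []]],
    [.old (.leafM k1 [k5,k0,k1,k3] [] [(k2,k4,z1,[y1,z1]),(k4,k2,z1,[y1,z1])]),
    .old (.leafM k3 [k2,k3,k4,k5,k0,k1] [(z1,[z1])] []),
    .old (.lp [k10,k10,k6,k6,k6,k6] [k0,k0,k0,k0,k2,k2,k2,k2,k2,k2,k2,k2] k0 [[k0,k0,k2],[k0,k0,k0,k0,k0,k0,k2],[],[k0,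
    k2],[],[],[],[k2]] k24 k5
    [[(k10,k8),(k1,k10)],[(k5,k6),(k3,k10),(k6,k10)],[(k9,k6),(k0,k10),(k2,k12)],[(k5,k8),(k6,k8),(k3,k12)],[(k0,k6),
    (k9,k6),(k2,k8)],[(k8,k6)],[(k11,k6)],[(k9,k6),(k2,k8),(k0,k10)],[(k3,k6),(k5,k6),(k6,k6)],[(k4,k6)],[(k7,k6)],
    [(k10,k6),(k1,k8)]]
    [] k0
    [[k0,k1,k1,k0,k1,k0],[k0,k0,k1,k0,k1,k0]]
    [.ref k1 k0 [(z1,[y1,z1])],.ref k0 k0 [(z1,[y1,z1])]])]⟩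

/-- classes `0 0 1 0 1 2`, types `C0 C0 S0 C0 S0 C0` -/
noncomputable def cU6_943 : CertX :=
  ⟨[k4,k4,k16,k4,k16,k36],[(false,k0,[k0,k1,k2,k3,k4,k5])],[[[([z1,z1,z1,z0,z0,z1],z2)],[([z1,z1,z0,z0,z1,z1],z2)],
    [([z1,z0,z0,z0,z1,z1],z2)],[]]],
    [.old (.leafM k0 [k0,k1,k2,k5] [] [(k3,k4,z1,[y1,z1]),(k4,k3,z1,[y1,z1])]),
    .old (.leafM k0 [k0,k1,k4,k5] [] [(k2,k3,z1,[y1,z1]),(k3,k2,z1,[y1,z1])]),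
    .old (.leafM k0 [k0,k1,k2,k3,k4,k5] [(z1,[y1,z1])] []),
    .old (.lp [k12,k10,k6,k6,k6,k6] [k0,k0,k1,k1,k3,k3,k3,k3,k3,k3,k3,k3] k0 [[k0,k0,k0,k0,k0,k0,k2],[],[],[],[],[],[],
    [k0,k2]] k24 k5
    [[(k10,k9)],[(k9,k7),(k5,k9),(k3,k11)],[(k2,k10),(k6,k10),(k0,k11)],[(k5,k8),(k9,k8),(k3,k10)],[(k6,k6),(k2,k8),
    (k0,k9)],[(k4,k6),(k7,k6),(k8,k6),(k11,k6)],[(k4,k6),(k7,k6),(k8,k6),(k11,k6)],[(k5,k6),(k9,k6),(k3,k10)],[(k6,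
    k6),(k0,k7),(k2,k8)],[(k4,k6),(k7,k6),(k8,k6),(k11,k6)],[(k4,k6),(k7,k6),(k8,k6),(k11,k6)],[(k1,k9)]]
    [] k0
    [[k1,k0,k0,k0,k1,k1],[k0,k2,k0,k0,k0,k0],[k0,k0,k1,k1,k0,k0],[k0,k0,k0,k1,k1,k0]]
    [.ref k2 k0 [(z1,[z1])],.contra [z1],.ref k1 k0 [(z1,[y1,z1])],.ref k0 k0 [(z1,[y1,z1])]])]⟩

/-- classes `0 0 1 0 1 2`, types `C0 C0 S0 C0 S0 S0` -/
noncomputable def cU6_944 : CertX :=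
  ⟨[k4,k4,k16,k4,k16,k32],[(false,k0,[k0,k1,k2,k3,k4,k5])],[[[([z1,z1,z1,z0,z0,z1],z2)],[([z1,z1,z0,z0,z1,z1],z2)],
    [([z1,z0,z0,z0,z1,z1],z2)],[]]],
    [.old (.leafM k0 [k0,k1,k2,k5] [] [(k3,k4,z1,[y1,z1]),(k4,k3,z1,[y1,z1])]),
    .old (.leafM k0 [k0,k1,k4,k5] [] [(k2,k3,z1,[y1,z1]),(k3,k2,z1,[y1,z1])]),
    .old (.leafM k0 [k0,k1,k2,k3,k4,k5] [(z1,[y1,z1])] []),
    .old (.lp [k10,k8,k6,k8,k6,k8] [k0,k0,k1,k1,k2,k2,k1,k1,k2,k2,k1,k1] k0 [[k0,k0,k0,k0,k0,k0,k2],[],[],[],[],[],[],[k0,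
    k2]] k24 k5
    [[(k10,k9),(k1,k10)],[(k9,k6),(k5,k8),(k3,k9)],[(k2,k8),(k0,k9),(k6,k10)],[(k5,k7),(k9,k7),(k3,k8)],[(k2,k7),(k6,
    k7),(k0,k8)],[(k4,k6),(k8,k6),(k7,k7),(k11,k7)],[(k4,k7),(k8,k7),(k7,k8),(k11,k8)],[(k5,k7),(k9,k7),(k3,k10)],
    [(k0,k6),(k2,k7),(k6,k7)],[(k4,k6),(k8,k6),(k7,k7),(k11,k7)],[(k4,k7),(k8,k7),(k7,k8),(k11,k8)],[(k10,k8),(k1,
    k9)]]
    [] k0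
    [[k1,k0,k0,k0,k1,k1],[k0,k2,k0,k0,k0,k0],[k0,k0,k1,k1,k0,k0],[k0,k0,k0,k1,k1,k0],[k0,k0,k0,k0,k0,k2]]
    [.ref k2 k0 [(z1,[z1])],.contra [z1],.ref k1 k0 [(z1,[y1,z1])],.ref k0 k0 [(z1,[y1,z1])],.contra [z1]])]⟩

/-- classes `0 0 1 0 1 2`, types `C0 C0 S0 C2 S0 C0` -/
noncomputable def cU6_945 : CertX :=
  ⟨[k4,k4,k16,k6,k16,k36],[(false,k0,[k0,k1,k2,k3,k4,k5])],[[[([z1,z1,z1,z0,z0,z1],z2)],[([z1,z1,z0,z1,z0,z1],z2)],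
    [([z1,z0,z0,z1,z0,z1],z2)],[]]],
    [.old (.leafM k0 [k0,k1,k2,k5] [] [(k3,k4,z1,[y1,z1]),(k4,k3,z1,[y1,z1])]),
    .old (.leafM k1 [k5,k0,k1,k3] [] [(k2,k4,z1,[y1,z1]),(k4,k2,z1,[y1,z1])]),
    .old (.leafM k3 [k2,k3,k4,k5,k0,k1] [(z1,[z1])] []),
    .old (.lp [k12,k8,k6,k6,k8,k6] [k0,k0,k2,k2,k3,k3,k3,k3,k2,k2,k3,k3] k0 [[k0,k0,k0,k0,k0,k0,k0,k2],[],[],[],[],[],[k0,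
    k2]] k24 k5
    [[(k10,k9)],[(k6,k7),(k5,k9),(k3,k10)],[(k2,k8),(k0,k10),(k9,k10)],[(k5,k7),(k6,k7),(k3,k8)],[(k2,k7),(k9,k7),(k0,
    k9)],[(k4,k6),(k7,k6),(k11,k6),(k8,k7)],[(k4,k6),(k7,k6),(k11,k6),(k8,k7)],[(k0,k7),(k2,k7),(k9,k7)],[(k5,k7),(k6,
    k7),(k3,k10)],[(k4,k7),(k7,k7),(k11,k7),(k8,k8)],[(k4,k6),(k7,k6),(k11,k6),(k8,k7)],[(k1,k9)]]
    [] k0
    [[k1,k0,k0,k1,k0,k1],[k0,k2,k0,k0,k0,k0],[k0,k0,k1,k0,k1,k0],[k0,k0,k0,k1,k1,k0]]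
    [.ref k2 k0 [(z1,[z1])],.contra [z1],.ref k1 k0 [(z1,[y1,z1])],.ref k0 k0 [(z1,[y1,z1])]])]⟩

/-- classes `0 0 1 0 1 2`, types `C0 C0 S0 C2 S0 S0` -/
noncomputable def cU6_946 : CertX :=
  ⟨[k4,k4,k16,k6,k16,k32],[(false,k0,[k0,k1,k2,k3,k4,k5])],[[[([z1,z1,z1,z0,z0,z1],z2)],[([z1,z1,z0,z1,z0,z1],z2)],
    [([z1,z0,z0,z1,z0,z1],z2)],[]]],
    [.old (.leafM k0 [k0,k1,k2,k5] [] [(k3,k4,z1,[y1,z1]),(k4,k3,z1,[y1,z1])]),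
    .old (.leafM k1 [k5,k0,k1,k3] [] [(k2,k4,z1,[y1,z1]),(k4,k2,z1,[y1,z1])]),
    .old (.leafM k3 [k2,k3,k4,k5,k0,k1] [(z1,[z1])] []),
    .old (.lp [k12,k16,k12,k18,k12,k24] [k6,k6,k4,k4,k6,k6,k3,k3,k6,k6,k0,k0] k0 [[k0,k0,k0,k0,k0,k0,k0,k2],[],[],[],[],
    [],[k0,k2]] k48 k5
    [[(k1,k12),(k10,k18)],[(k5,k12),(k6,k13),(k3,k14)],[(k0,k14),(k2,k16),(k9,k16)],[(k5,k14),(k3,k16),(k6,k17)],[(k0,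
    k12),(k9,k12),(k2,k14)],[(k4,k12),(k8,k12),(k7,k15),(k11,k18)],[(k4,k15),(k8,k15),(k7,k18),(k11,k21)],[(k0,k13),
    (k9,k15),(k2,k17)],[(k5,k12),(k6,k15),(k3,k16)],[(k4,k12),(k8,k12),(k7,k15),(k11,k18)],[(k4,k18),(k8,k18),(k7,
    k21),(k11,k24)],[(k1,k18),(k10,k24)]]
    [] k0
    [[k0,k2,k0,k0,k0,k0],[k0,k1,k1,k0,k1,k0],[k0,k0,k1,k0,k1,k0],[k0,k0,k0,k1,k1,k0]]
    [.contra [z1],.ref k2 k0 [(z1,[y1,z1])],.ref k1 k0 [(z1,[y1,z1])],.ref k0 k0 [(z1,[y1,z1])]])]⟩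

/-- classes `0 0 1 0 1 2`, types `C0 C2 B0 C0 B1 C0` -/
noncomputable def cU6_947 : CertX :=
  ⟨[k4,k6,k24,k4,k25,k36],[(false,k0,[k0,k1,k2,k3,k4,k5])],[[[([z1,z1,z1,z0,z0,z1],z2)],[([z1,z1,z0,z1,z0,z1],z2)],
    []]],
    [.old (.leafM k0 [k0,k1,k2,k5] [] [(k3,k4,z1,[y1,z1]),(k4,k3,z1,[y1,z1])]),
    .old (.leafM k1 [k5,k0,k1,k3] [] [(k2,k4,z1,[y1,z1]),(k4,k2,z1,[y1,z1])]),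
    .old (.lp [k0,k2,k0,k0,k2,k2] [k1,k1,k0,k0,k1,k1,k1,k1,k0,k0,k0,k0] k0 [] k4 k5
    [[(k10,k1)],[(k2,k1),(k3,k1),(k9,k1)],[(k0,k1),(k5,k1),(k6,k1)],[(k0,k1),(k5,k1),(k6,k1)],[(k2,k1),(k3,k1),(k9,
    k1)],[(k8,k1),(k11,k1)],[(k8,k1),(k11,k1)],[(k2,k1),(k3,k1),(k9,k1)],[(k0,k1),(k5,k1),(k6,k1)],[(k4,k1),(k7,k1)],
    [(k4,k1),(k7,k1)],[(k1,k1)]]
    [] k0
    [[k0,k0,k1,k0,k1,k0],[k0,k0,k0,k1,k1,k0]]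
    [.ref k1 k0 [(z1,[y1,z1])],.ref k0 k0 [(z1,[y1,z1])]])]⟩

/-- classes `0 0 1 0 1 2`, types `C0 C2 B0 C0 B1 S0` -/
noncomputable def cU6_948 : CertX :=
  ⟨[k4,k6,k24,k4,k25,k32],[(false,k0,[k0,k1,k2,k3,k4,k5])],[[[([z1,z1,z1,z0,z0,z1],z2)],[([z1,z1,z0,z1,z0,z1],z2)],
    []]],
    [.old (.leafM k0 [k0,k1,k2,k5] [] [(k3,k4,z1,[y1,z1]),(k4,k3,z1,[y1,z1])]),
    .old (.leafM k1 [k5,k0,k1,k3] [] [(k2,k4,z1,[y1,z1]),(k4,k2,z1,[y1,z1])]),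
    .old (.lp [k6,k4,k4,k4,k4,k4] [k0,k0,k1,k1,k1,k1,k1,k1,k1,k1,k1,k1] k0 [] k16 k5
    [[(k10,k5),(k1,k6)],[(k2,k5),(k3,k5),(k9,k5)],[(k5,k4),(k6,k4),(k0,k5)],[(k5,k4),(k6,k4),(k0,k5)],[(k2,k4),(k3,
    k4),(k9,k4)],[(k8,k4),(k11,k4)],[(k8,k4),(k11,k4)],[(k2,k4),(k3,k4),(k9,k4)],[(k5,k4),(k6,k4),(k0,k5)],[(k4,k4),
    (k7,k4)],[(k4,k4),(k7,k4)],[(k10,k4),(k1,k5)]]
    [] k0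
    [[k0,k0,k1,k0,k1,k0],[k0,k0,k0,k1,k1,k0]]
    [.ref k1 k0 [(z1,[y1,z1])],.ref k0 k0 [(z1,[y1,z1])]])]⟩

/-- classes `0 0 1 0 1 2`, types `C0 C2 B0 C2 B1 C0` -/
noncomputable def cU6_949 : CertX :=
  ⟨[k4,k6,k24,k6,k25,k36],[(false,k0,[k0,k1,k2,k3,k4,k5])],[[[([z1,z1,z1,z0,z0,z1],z2)],[([z1,z0,z0,z1,z0,z1],z2)],
    []]],
    [.old (.leafM k0 [k0,k1,k2,k5] [] [(k3,k4,z1,[y1,z1]),(k4,k3,z1,[y1,z1])]),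
    .old (.leafM k3 [k2,k3,k4,k5,k0,k1] [(z1,[z1])] []),
    .old (.lp [k2,k2,k2,k2,k2,k4] [k1,k1,k1,k1,k1,k1,k1,k1,k1,k1,k0,k0] k0 [] k8 k5
    [[(k10,k3)],[(k2,k2),(k3,k2),(k6,k2)],[(k0,k2),(k5,k2),(k9,k2)],[(k0,k2),(k5,k2),(k9,k2)],[(k2,k2),(k3,k2),(k6,
    k2)],[(k8,k2),(k11,k3)],[(k8,k2),(k11,k3)],[(k0,k2),(k5,k2),(k9,k2)],[(k2,k2),(k3,k2),(k6,k2)],[(k4,k2),(k7,k2)],
    [(k4,k3),(k7,k3)],[(k1,k3)]]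
    [] k0
    [[k0,k1,k1,k0,k1,k0],[k0,k0,k0,k1,k1,k0]]
    [.ref k1 k0 [(z1,[y1,z1])],.ref k0 k0 [(z1,[y1,z1])]])]⟩

/-- classes `0 0 1 0 1 2`, types `C0 C2 B0 C2 B1 S0` -/
noncomputable def cU6_950 : CertX :=
  ⟨[k4,k6,k24,k6,k25,k32],[(false,k0,[k0,k1,k2,k3,k4,k5])],[[[([z1,z1,z1,z0,z0,z1],z2)],[([z1,z0,z0,z1,z0,z1],z2)],
    []]],
    [.old (.leafM k0 [k0,k1,k2,k5] [] [(k3,k4,z1,[y1,z1]),(k4,k3,z1,[y1,z1])]),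
    .old (.leafM k3 [k2,k3,k4,k5,k0,k1] [(z1,[z1])] []),
    .old (.lp [k4,k2,k2,k2,k2,k2] [k0,k0,k1,k1,k1,k1,k1,k1,k1,k1,k1,k1] k0 [] k8 k5
    [[(k10,k3),(k1,k4)],[(k2,k3),(k3,k3),(k6,k3)],[(k5,k2),(k9,k2),(k0,k3)],[(k5,k2),(k9,k2),(k0,k3)],[(k2,k2),(k3,
    k2),(k6,k2)],[(k8,k2),(k11,k2)],[(k8,k2),(k11,k2)],[(k5,k2),(k9,k2),(k0,k3)],[(k2,k2),(k3,k2),(k6,k2)],[(k4,k2),
    (k7,k2)],[(k4,k2),(k7,k2)],[(k10,k2),(k1,k3)]]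
    [] k0
    [[k0,k1,k1,k0,k1,k0],[k0,k0,k0,k1,k1,k0]]
    [.ref k1 k0 [(z1,[y1,z1])],.ref k0 k0 [(z1,[y1,z1])]])]⟩

/-- classes `0 0 1 0 1 2`, types `C0 C2 C0 C0 C0 C0` -/
noncomputable def cU6_951 : CertX :=
  ⟨[k4,k6,k20,k4,k20,k36],[(false,k0,[k0,k1,k2,k3,k4,k5])],[[[([z1,z1,z1,z0,z0,z1],z2)],[([z1,z0,z0,z0,z1,z1],z2)],
    []]],
    [.old (.leafM k0 [k0,k1,k2,k5] [] [(k3,k4,z1,[y1,z1]),(k4,k3,z1,[y1,z1])]),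
    .old (.leafM k0 [k0,k1,k2,k3,k4,k5] [(z1,[y1,z1])] []),
    .old (.lp [k2,k2,k2,k2,k4,k2] [k1,k1,k1,k1,k1,k1,k1,k1,k0,k0,k1,k1] k0 [] k8 k5
    [[(k10,k2)],[(k2,k2),(k3,k2),(k9,k3)],[(k0,k2),(k5,k2),(k6,k2)],[(k0,k2),(k5,k2),(k6,k2)],[(k2,k2),(k3,k2),(k9,
    k3)],[(k7,k2),(k11,k2)],[(k4,k2),(k8,k3)],[(k2,k2),(k3,k2),(k9,k3)],[(k0,k3),(k5,k3),(k6,k3)],[(k7,k3),(k11,k3)],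
    [(k4,k2),(k8,k3)],[(k1,k2)]]
    [] k0
    [[k0,k1,k1,k1,k0,k0],[k0,k0,k0,k1,k1,k0]]
    [.ref k1 k0 [(z1,[y1,z1])],.ref k0 k0 [(z1,[y1,z1])]])]⟩

/-- classes `0 0 1 0 1 2`, types `C0 C2 C0 C0 C0 S0` -/
noncomputable def cU6_952 : CertX :=
  ⟨[k4,k6,k20,k4,k20,k32],[(false,k0,[k0,k1,k2,k3,k4,k5])],[[[([z1,z1,z1,z0,z0,z1],z2)],[([z1,z0,z0,z0,z1,z1],z2)],
    []]],
    [.old (.leafM k0 [k0,k1,k2,k5] [] [(k3,k4,z1,[y1,z1]),(k4,k3,z1,[y1,z1])]),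
    .old (.leafM k0 [k0,k1,k2,k3,k4,k5] [(z1,[y1,z1])] []),
    .old (.lp [k2,k4,k2,k2,k2,k2] [k1,k1,k0,k0,k1,k1,k1,k1,k1,k1,k1,k1] k0 [] k8 k5
    [[(k1,k2),(k10,k2)],[(k9,k2),(k2,k3),(k3,k3)],[(k0,k3),(k5,k3),(k6,k3)],[(k0,k3),(k5,k3),(k6,k3)],[(k9,k2),(k2,
    k3),(k3,k3)],[(k7,k2),(k11,k2)],[(k4,k2),(k8,k2)],[(k9,k2),(k2,k3),(k3,k3)],[(k0,k2),(k5,k2),(k6,k2)],[(k7,k2),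
    (k11,k2)],[(k4,k2),(k8,k2)],[(k1,k2),(k10,k2)]]
    [] k0
    [[k1,k0,k0,k0,k1,k1],[k0,k0,k0,k1,k1,k0]]
    [.ref k1 k0 [(z1,[z1])],.ref k0 k0 [(z1,[y1,z1])]])]⟩

/-- classes `0 0 1 0 1 2`, types `C0 C2 C0 C0 C2 C0` -/
noncomputable def cU6_953 : CertX :=
  ⟨[k4,k6,k20,k4,k22,k36],[(false,k0,[k0,k1,k2,k3,k4,k5])],[[[([z1,z1,z0,z1,z0,z1],z2)],[([z1,z0,z0,z0,z1,z1],z2)],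
    []]],
    [.old (.leafM k1 [k5,k0,k1,k3] [] [(k2,k4,z1,[y1,z1]),(k4,k2,z1,[y1,z1])]),
    .old (.leafM k0 [k0,k1,k2,k3,k4,k5] [(z1,[y1,z1])] []),
    .old (.lp [k2,k2,k2,k4,k2,k2] [k1,k1,k1,k1,k1,k1,k0,k0,k1,k1,k1,k1] k0 [] k8 k5
    [[(k10,k2)],[(k2,k2),(k3,k2),(k9,k2)],[(k0,k2),(k5,k2),(k6,k3)],[(k0,k2),(k5,k2),(k6,k3)],[(k2,k2),(k3,k2),(k9,
    k2)],[(k8,k2),(k7,k3)],[(k4,k3),(k11,k3)],[(k2,k3),(k3,k3),(k9,k3)],[(k0,k2),(k5,k2),(k6,k3)],[(k4,k2),(k11,k2)],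
    [(k8,k2),(k7,k3)],[(k1,k2)]]
    [] k0
    [[k1,k0,k0,k0,k1,k1],[k0,k0,k1,k0,k1,k0]]
    [.ref k1 k0 [(z1,[z1])],.ref k0 k0 [(z1,[y1,z1])]])]⟩

/-- classes `0 0 1 0 1 2`, types `C0 C2 C0 C0 C2 S0` -/
noncomputable def cU6_954 : CertX :=
  ⟨[k4,k6,k20,k4,k22,k32],[(false,k0,[k0,k1,k2,k3,k4,k5])],[[[([z1,z1,z0,z1,z0,z1],z2)],[([z1,z0,z0,z0,z1,z1],z2)],
    []]],
    [.old (.leafM k1 [k5,k0,k1,k3] [] [(k2,k4,z1,[y1,z1]),(k4,k2,z1,[y1,z1])]),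
    .old (.leafM k0 [k0,k1,k2,k3,k4,k5] [(z1,[y1,z1])] []),
    .old (.lp [k2,k4,k2,k2,k2,k2] [k1,k1,k0,k0,k1,k1,k1,k1,k1,k1,k1,k1] k0 [] k8 k5
    [[(k1,k2),(k10,k2)],[(k9,k2),(k2,k3),(k3,k3)],[(k0,k3),(k5,k3),(k6,k3)],[(k0,k3),(k5,k3),(k6,k3)],[(k9,k2),(k2,
    k3),(k3,k3)],[(k7,k2),(k8,k2)],[(k4,k2),(k11,k2)],[(k9,k2),(k2,k3),(k3,k3)],[(k0,k2),(k5,k2),(k6,k2)],[(k4,k2),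
    (k11,k2)],[(k7,k2),(k8,k2)],[(k1,k2),(k10,k2)]]
    [] k0
    [[k1,k0,k0,k0,k1,k1],[k0,k0,k1,k0,k1,k0]]
    [.ref k1 k0 [(z1,[z1])],.ref k0 k0 [(z1,[y1,z1])]])]⟩

/-- classes `0 0 1 0 1 2`, types `C0 C2 C0 C2 C0 C0` -/
noncomputable def cU6_955 : CertX :=
  ⟨[k4,k6,k20,k6,k20,k36],[(false,k0,[k0,k1,k2,k3,k4,k5])],[[[([z1,z1,z1,z0,z0,z1],z2)],[([z1,z1,z0,z0,z1,z1],z2)],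
    []]],
    [.old (.leafM k0 [k0,k1,k2,k5] [] [(k3,k4,z1,[y1,z1]),(k4,k3,z1,[y1,z1])]),
    .old (.leafM k0 [k0,k1,k4,k5] [] [(k2,k3,z1,[y1,z1]),(k3,k2,z1,[y1,z1])]),
    .old (.lp [k0,k2,k0,k2,k0,k2] [k1,k1,k0,k0,k1,k1,k0,k0,k1,k1,k0,k0] k0 [] k4 k5
    [[(k10,k1)],[(k2,k1),(k3,k1),(k6,k1)],[(k0,k1),(k5,k1),(k9,k1)],[(k0,k1),(k5,k1),(k9,k1)],[(k2,k1),(k3,k1),(k6,
    k1)],[(k7,k1),(k11,k1)],[(k4,k1),(k8,k1)],[(k0,k1),(k5,k1),(k9,k1)],[(k2,k1),(k3,k1),(k6,k1)],[(k7,k1),(k11,k1)],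
    [(k4,k1),(k8,k1)],[(k1,k1)]]
    [] k0
    [[k0,k0,k1,k1,k0,k0],[k0,k0,k0,k1,k1,k0]]
    [.ref k1 k0 [(z1,[y1,z1])],.ref k0 k0 [(z1,[y1,z1])]])]⟩

/-- classes `0 0 1 0 1 2`, types `C0 C2 C0 C2 C0 S0` -/
noncomputable def cU6_956 : CertX :=
  ⟨[k4,k6,k20,k6,k20,k32],[(false,k0,[k0,k1,k2,k3,k4,k5])],[[[([z1,z1,z1,z0,z0,z1],z2)],[([z1,z1,z0,z0,z1,z1],z2)],
    []]],
    [.old (.leafM k0 [k0,k1,k2,k5] [] [(k3,k4,z1,[y1,z1]),(k4,k3,z1,[y1,z1])]),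
    .old (.leafM k0 [k0,k1,k4,k5] [] [(k2,k3,z1,[y1,z1]),(k3,k2,z1,[y1,z1])]),
    .old (.lp [k6,k4,k4,k4,k4,k4] [k0,k0,k1,k1,k1,k1,k1,k1,k1,k1,k1,k1] k0 [] k16 k5
    [[(k10,k5),(k1,k6)],[(k2,k5),(k3,k5),(k6,k5)],[(k5,k4),(k9,k4),(k0,k5)],[(k5,k4),(k9,k4),(k0,k5)],[(k2,k4),(k3,
    k4),(k6,k4)],[(k7,k4),(k11,k4)],[(k4,k4),(k8,k4)],[(k5,k4),(k9,k4),(k0,k5)],[(k2,k4),(k3,k4),(k6,k4)],[(k7,k4),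
    (k11,k4)],[(k4,k4),(k8,k4)],[(k10,k4),(k1,k5)]]
    [] k0
    [[k0,k0,k1,k1,k0,k0],[k0,k0,k0,k1,k1,k0]]
    [.ref k1 k0 [(z1,[y1,z1])],.ref k0 k0 [(z1,[y1,z1])]])]⟩

/-- classes `0 0 1 0 1 2`, types `C0 C2 C0 C2 C2 C0` -/
noncomputable def cU6_957 : CertX :=
  ⟨[k4,k6,k20,k6,k22,k36],[(false,k0,[k0,k1,k2,k3,k4,k5])],[[[([z1,z1,z0,z0,z1,z1],z2)],[([z1,z0,z0,z1,z0,z1],z2)],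
    []]],
    [.old (.leafM k0 [k0,k1,k4,k5] [] [(k2,k3,z1,[y1,z1]),(k3,k2,z1,[y1,z1])]),
    .old (.leafM k3 [k2,k3,k4,k5,k0,k1] [(z1,[z1])] []),
    .old (.lp [k2,k2,k4,k2,k2,k2] [k1,k1,k1,k1,k0,k0,k1,k1,k1,k1,k1,k1] k0 [] k8 k5
    [[(k10,k2)],[(k2,k2),(k3,k2),(k6,k2)],[(k0,k2),(k9,k2),(k5,k3)],[(k0,k2),(k9,k2),(k5,k3)],[(k2,k3),(k3,k3),(k6,
    k3)],[(k7,k3),(k8,k3)],[(k11,k2),(k4,k3)],[(k0,k2),(k9,k2),(k5,k3)],[(k2,k2),(k3,k2),(k6,k2)],[(k11,k2),(k4,k3)],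
    [(k7,k2),(k8,k2)],[(k1,k2)]]
    [] k0
    [[k1,k0,k0,k1,k0,k1],[k0,k0,k1,k1,k0,k0]]
    [.ref k1 k0 [(z1,[z1])],.ref k0 k0 [(z1,[y1,z1])]])]⟩

/-- classes `0 0 1 0 1 2`, types `C0 C2 C0 C2 C2 S0` -/
noncomputable def cU6_958 : CertX :=
  ⟨[k4,k6,k20,k6,k22,k32],[(false,k0,[k0,k1,k2,k3,k4,k5])],[[[([z1,z1,z0,z0,z1,z1],z2)],[([z1,z0,z0,z1,z0,z1],z2)],
    []]],
    [.old (.leafM k0 [k0,k1,k4,k5] [] [(k2,k3,z1,[y1,z1]),(k3,k2,z1,[y1,z1])]),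
    .old (.leafM k3 [k2,k3,k4,k5,k0,k1] [(z1,[z1])] []),
    .old (.lp [k6,k4,k4,k4,k4,k6] [k0,k0,k1,k1,k1,k1,k1,k1,k1,k1,k0,k0] k0 [] k16 k5
    [[(k1,k6),(k10,k6)],[(k2,k5),(k3,k5),(k6,k5)],[(k5,k4),(k9,k4),(k0,k5)],[(k5,k4),(k9,k4),(k0,k5)],[(k2,k4),(k3,
    k4),(k6,k4)],[(k7,k4),(k8,k4)],[(k4,k4),(k11,k5)],[(k5,k4),(k9,k4),(k0,k5)],[(k2,k4),(k3,k4),(k6,k4)],[(k4,k4),
    (k11,k5)],[(k7,k5),(k8,k5)],[(k1,k6),(k10,k6)]]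
    [] k0
    [[k0,k1,k1,k0,k1,k0],[k0,k0,k1,k1,k0,k0]]
    [.ref k1 k0 [(z1,[y1,z1])],.ref k0 k0 [(z1,[y1,z1])]])]⟩

/-- classes `0 0 1 0 1 2`, types `C0 C2 N0 C0 N1 C0` -/
noncomputable def cU6_959 : CertX :=
  ⟨[k4,k6,k28,k4,k29,k36],[(false,k0,[k0,k1,k2,k3,k4,k5])],[[[([z1,z1,z1,z0,z0,z1],z2)],[]]],
    [.old (.leafM k0 [k0,k1,k2,k5] [] [(k3,k4,z1,[y1,z1]),(k4,k3,z1,[y1,z1])]),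
    .old (.lp [k2,k0,k2,k2,k0,k0] [k0,k0,k1,k1,k0,k0,k0,k0,k1,k1,k1,k1] k0 [] k4 k5
    [[(k10,k1)],[(k2,k1),(k3,k1),(k9,k1)],[(k0,k1),(k5,k1),(k6,k1)],[(k0,k1),(k5,k1),(k6,k1)],[(k2,k1),(k3,k1),(k9,
    k1)],[(k11,k1)],[(k8,k1)],[(k2,k1),(k3,k1),(k9,k1)],[(k0,k1),(k5,k1),(k6,k1)],[(k7,k1)],[(k4,k1)],[(k1,k1)]]
    [] k0
    [[k0,k0,k0,k1,k1,k0]]
    [.ref k0 k0 [(z1,[y1,z1])]])]⟩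

/-- classes `0 0 1 0 1 2`, types `C0 C2 N0 C0 N1 S0` -/
noncomputable def cU6_960 : CertX :=
  ⟨[k4,k6,k28,k4,k29,k32],[(false,k0,[k0,k1,k2,k3,k4,k5])],[[[([z1,z1,z1,z0,z0,z1],z2)],[]]],
    [.old (.leafM k0 [k0,k1,k2,k5] [] [(k3,k4,z1,[y1,z1]),(k4,k3,z1,[y1,z1])]),
    .old (.lp [k6,k4,k4,k4,k4,k4] [k0,k0,k1,k1,k1,k1,k1,k1,k1,k1,k1,k1] k0 [] k16 k5
    [[(k10,k5),(k1,k6)],[(k2,k5),(k3,k5),(k9,k5)],[(k5,k4),(k6,k4),(k0,k5)],[(k5,k4),(k6,k4),(k0,k5)],[(k2,k4),(k3,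
    k4),(k9,k4)],[(k11,k4)],[(k8,k4)],[(k2,k4),(k3,k4),(k9,k4)],[(k5,k4),(k6,k4),(k0,k5)],[(k7,k4)],[(k4,k4)],[(k10,
    k4),(k1,k5)]]
    [] k0
    [[k0,k0,k0,k1,k1,k0]]
    [.ref k0 k0 [(z1,[y1,z1])]])]⟩

/-- classes `0 0 1 0 1 2`, types `C0 C2 N0 C0 N2 C0` -/
noncomputable def cU6_961 : CertX :=
  ⟨[k4,k6,k28,k4,k30,k36],[(false,k0,[k0,k1,k2,k3,k4,k5])],[[[([z1,z1,z0,z1,z0,z1],z2)],[]]],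
    [.old (.leafM k1 [k5,k0,k1,k3] [] [(k2,k4,z1,[y1,z1]),(k4,k2,z1,[y1,z1])]),
    .old (.lp [k2,k0,k2,k2,k0,k0] [k0,k0,k1,k1,k0,k0,k0,k0,k1,k1,k1,k1] k0 [] k4 k5
    [[(k10,k1)],[(k2,k1),(k3,k1),(k9,k1)],[(k0,k1),(k5,k1),(k6,k1)],[(k0,k1),(k5,k1),(k6,k1)],[(k2,k1),(k3,k1),(k9,
    k1)],[(k8,k1)],[(k11,k1)],[(k2,k1),(k3,k1),(k9,k1)],[(k0,k1),(k5,k1),(k6,k1)],[(k4,k1)],[(k7,k1)],[(k1,k1)]]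
    [] k0
    [[k0,k0,k1,k0,k1,k0]]
    [.ref k0 k0 [(z1,[y1,z1])]])]⟩

/-- classes `0 0 1 0 1 2`, types `C0 C2 N0 C0 N2 S0` -/
noncomputable def cU6_962 : CertX :=
  ⟨[k4,k6,k28,k4,k30,k32],[(false,k0,[k0,k1,k2,k3,k4,k5])],[[[([z1,z1,z0,z1,z0,z1],z2)],[]]],
    [.old (.leafM k1 [k5,k0,k1,k3] [] [(k2,k4,z1,[y1,z1]),(k4,k2,z1,[y1,z1])]),
    .old (.lp [k6,k4,k4,k4,k4,k4] [k0,k0,k1,k1,k1,k1,k1,k1,k1,k1,k1,k1] k0 [] k16 k5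
    [[(k10,k5),(k1,k6)],[(k2,k5),(k3,k5),(k9,k5)],[(k5,k4),(k6,k4),(k0,k5)],[(k5,k4),(k6,k4),(k0,k5)],[(k2,k4),(k3,
    k4),(k9,k4)],[(k8,k4)],[(k11,k4)],[(k2,k4),(k3,k4),(k9,k4)],[(k5,k4),(k6,k4),(k0,k5)],[(k4,k4)],[(k7,k4)],[(k10,
    k4),(k1,k5)]]
    [] k0
    [[k0,k0,k1,k0,k1,k0]]
    [.ref k0 k0 [(z1,[y1,z1])]])]⟩

/-- classes `0 0 1 0 1 2`, types `C0 C2 N0 C2 N1 C0` -/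
noncomputable def cU6_963 : CertX :=
  ⟨[k4,k6,k28,k6,k29,k36],[(false,k0,[k0,k1,k2,k3,k4,k5])],[[[([z1,z1,z1,z0,z0,z1],z2)],[]]],
    [.old (.leafM k0 [k0,k1,k2,k5] [] [(k3,k4,z1,[y1,z1]),(k4,k3,z1,[y1,z1])]),
    .old (.lp [k0,k2,k0,k2,k0,k2] [k1,k1,k0,k0,k1,k1,k0,k0,k1,k1,k0,k0] k0 [] k4 k5
    [[(k10,k1)],[(k2,k1),(k3,k1),(k6,k1)],[(k0,k1),(k5,k1),(k9,k1)],[(k0,k1),(k5,k1),(k9,k1)],[(k2,k1),(k3,k1),(k6,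
    k1)],[(k11,k1)],[(k8,k1)],[(k0,k1),(k5,k1),(k9,k1)],[(k2,k1),(k3,k1),(k6,k1)],[(k7,k1)],[(k4,k1)],[(k1,k1)]]
    [] k0
    [[k0,k0,k0,k1,k1,k0]]
    [.ref k0 k0 [(z1,[y1,z1])]])]⟩

/-- classes `0 0 1 0 1 2`, types `C0 C2 N0 C2 N1 S0` -/
noncomputable def cU6_964 : CertX :=
  ⟨[k4,k6,k28,k6,k29,k32],[(false,k0,[k0,k1,k2,k3,k4,k5])],[[[([z1,z1,z1,z0,z0,z1],z2)],[]]],
    [.old (.leafM k0 [k0,k1,k2,k5] [] [(k3,k4,z1,[y1,z1]),(k4,k3,z1,[y1,z1])]),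
    .old (.lp [k6,k4,k4,k4,k4,k4] [k0,k0,k1,k1,k1,k1,k1,k1,k1,k1,k1,k1] k0 [] k16 k5
    [[(k10,k5),(k1,k6)],[(k2,k5),(k3,k5),(k6,k5)],[(k5,k4),(k9,k4),(k0,k5)],[(k5,k4),(k9,k4),(k0,k5)],[(k2,k4),(k3,
    k4),(k6,k4)],[(k11,k4)],[(k8,k4)],[(k5,k4),(k9,k4),(k0,k5)],[(k2,k4),(k3,k4),(k6,k4)],[(k7,k4)],[(k4,k4)],[(k10,
    k4),(k1,k5)]]
    [] k0
    [[k0,k0,k0,k1,k1,k0]]
    [.ref k0 k0 [(z1,[y1,z1])]])]⟩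

/-- classes `0 0 1 0 1 2`, types `C0 C2 N0 C2 N2 C0` -/
noncomputable def cU6_965 : CertX :=
  ⟨[k4,k6,k28,k6,k30,k36],[(false,k0,[k0,k1,k2,k3,k4,k5])],[[[([z1,z0,z0,z1,z0,z1],z2)],[]]],
    [.old (.leafM k3 [k2,k3,k4,k5,k0,k1] [(z1,[z1])] []),
    .old (.lp [k2,k2,k4,k2,k2,k2] [k1,k1,k1,k1,k0,k0,k1,k1,k1,k1,k1,k1] k0 [] k8 k5
    [[(k10,k2)],[(k2,k2),(k3,k2),(k6,k2)],[(k0,k2),(k9,k2),(k5,k3)],[(k0,k2),(k9,k2),(k5,k3)],[(k2,k3),(k3,k3),(k6,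
    k3)],[(k8,k3)],[(k11,k2)],[(k0,k2),(k9,k2),(k5,k3)],[(k2,k2),(k3,k2),(k6,k2)],[(k4,k3)],[(k7,k2)],[(k1,k2)]]
    [] k0
    [[k1,k0,k0,k1,k0,k1]]
    [.ref k0 k0 [(z1,[z1])]])]⟩

/-- classes `0 0 1 0 1 2`, types `C0 C2 N0 C2 N2 S0` -/
noncomputable def cU6_966 : CertX :=
  ⟨[k4,k6,k28,k6,k30,k32],[(false,k0,[k0,k1,k2,k3,k4,k5])],[[[([z1,z0,z0,z1,z0,z1],z2)],[]]],
    [.old (.leafM k3 [k2,k3,k4,k5,k0,k1] [(z1,[z1])] []),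
    .old (.lp [k6,k4,k4,k4,k4,k6] [k0,k0,k1,k1,k1,k1,k1,k1,k1,k1,k0,k0] k0 [] k16 k5
    [[(k1,k6),(k10,k6)],[(k2,k5),(k3,k5),(k6,k5)],[(k5,k4),(k9,k4),(k0,k5)],[(k5,k4),(k9,k4),(k0,k5)],[(k2,k4),(k3,
    k4),(k6,k4)],[(k8,k4)],[(k11,k5)],[(k5,k4),(k9,k4),(k0,k5)],[(k2,k4),(k3,k4),(k6,k4)],[(k4,k4)],[(k7,k5)],[(k1,
    k6),(k10,k6)]]
    [] k0
    [[k0,k1,k1,k0,k1,k0]]
    [.ref k0 k0 [(z1,[y1,z1])]])]⟩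

/-- classes `0 0 1 0 1 2`, types `C0 C2 S0 C0 S0 C0` -/
noncomputable def cU6_967 : CertX :=
  ⟨[k4,k6,k16,k4,k16,k36],[(false,k0,[k0,k1,k2,k3,k4,k5])],[[[([z1,z1,z1,z0,z0,z1],z2)],[([z1,z1,z0,z1,z0,z1],z2)],
    [([z1,z0,z0,z0,z1,z1],z2)],[]]],
    [.old (.leafM k0 [k0,k1,k2,k5] [] [(k3,k4,z1,[y1,z1]),(k4,k3,z1,[y1,z1])]),
    .old (.leafM k1 [k5,k0,k1,k3] [] [(k2,k4,z1,[y1,z1]),(k4,k2,z1,[y1,z1])]),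
    .old (.leafM k0 [k0,k1,k2,k3,k4,k5] [(z1,[y1,z1])] []),
    .old (.lp [k2,k4,k2,k2,k2,k2] [k1,k1,k0,k0,k1,k1,k1,k1,k1,k1,k1,k1] k0 [] k8 k5
    [[(k10,k2)],[(k9,k2),(k2,k3),(k3,k3)],[(k0,k3),(k5,k3),(k6,k3)],[(k0,k3),(k5,k3),(k6,k3)],[(k9,k2),(k2,k3),(k3,
    k3)],[(k4,k2),(k7,k2),(k8,k2),(k11,k2)],[(k4,k2),(k7,k2),(k8,k2),(k11,k2)],[(k9,k2),(k2,k3),(k3,k3)],[(k0,k2),(k5,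
    k2),(k6,k2)],[(k4,k2),(k7,k2),(k8,k2),(k11,k2)],[(k4,k2),(k7,k2),(k8,k2),(k11,k2)],[(k1,k2)]]
    [] k0
    [[k1,k0,k0,k0,k1,k1],[k0,k0,k1,k0,k1,k0],[k0,k0,k0,k1,k1,k0]]
    [.ref k2 k0 [(z1,[z1])],.ref k1 k0 [(z1,[y1,z1])],.ref k0 k0 [(z1,[y1,z1])]])]⟩

/-- classes `0 0 1 0 1 2`, types `C0 C2 S0 C0 S0 S0` -/
noncomputable def cU6_968 : CertX :=
  ⟨[k4,k6,k16,k4,k16,k32],[(false,k0,[k0,k1,k2,k3,k4,k5])],[[[([z1,z1,z1,z0,z0,z1],z2)],[([z1,z1,z0,z1,z0,z1],z2)],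
    [([z1,z0,z0,z0,z1,z1],z2)],[]]],
    [.old (.leafM k0 [k0,k1,k2,k5] [] [(k3,k4,z1,[y1,z1]),(k4,k3,z1,[y1,z1])]),
    .old (.leafM k1 [k5,k0,k1,k3] [] [(k2,k4,z1,[y1,z1]),(k4,k2,z1,[y1,z1])]),
    .old (.leafM k0 [k0,k1,k2,k3,k4,k5] [(z1,[y1,z1])] []),
    .old (.lp [k2,k4,k2,k2,k2,k2] [k1,k1,k0,k0,k1,k1,k1,k1,k1,k1,k1,k1] k0 [] k8 k5
    [[(k1,k2),(k10,k2)],[(k9,k2),(k2,k3),(k3,k3)],[(k0,k3),(k5,k3),(k6,k3)],[(k0,k3),(k5,k3),(k6,k3)],[(k9,k2),(k2,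
    k3),(k3,k3)],[(k4,k2),(k7,k2),(k8,k2),(k11,k2)],[(k4,k2),(k7,k2),(k8,k2),(k11,k2)],[(k9,k2),(k2,k3),(k3,k3)],[(k0,
    k2),(k5,k2),(k6,k2)],[(k4,k2),(k7,k2),(k8,k2),(k11,k2)],[(k4,k2),(k7,k2),(k8,k2),(k11,k2)],[(k1,k2),(k10,k2)]]
    [] k0
    [[k1,k0,k0,k0,k1,k1],[k0,k0,k1,k0,k1,k0],[k0,k0,k0,k1,k1,k0],[k0,k0,k0,k0,k0,k2]]
    [.ref k2 k0 [(z1,[z1])],.ref k1 k0 [(z1,[y1,z1])],.ref k0 k0 [(z1,[y1,z1])],.contra [z1]])]⟩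

/-- classes `0 0 1 0 1 2`, types `C0 C2 S0 C2 S0 C0` -/
noncomputable def cU6_969 : CertX :=
  ⟨[k4,k6,k16,k6,k16,k36],[(false,k0,[k0,k1,k2,k3,k4,k5])],[[[([z1,z1,z1,z0,z0,z1],z2)],[([z1,z1,z0,z0,z1,z1],z2)],
    [([z1,z0,z0,z1,z0,z1],z2)],[]]],
    [.old (.leafM k0 [k0,k1,k2,k5] [] [(k3,k4,z1,[y1,z1]),(k4,k3,z1,[y1,z1])]),
    .old (.leafM k0 [k0,k1,k4,k5] [] [(k2,k3,z1,[y1,z1]),(k3,k2,z1,[y1,z1])]),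
    .old (.leafM k3 [k2,k3,k4,k5,k0,k1] [(z1,[z1])] []),
    .old (.lp [k8,k4,k10,k6,k10,k6] [k1,k1,k3,k3,k0,k0,k2,k2,k0,k0,k2,k2] k0 [[],[],[],[],[k0,k0,k0,k0,k0,k0,k0,k0,k0,k4],
    [],[],[],[k0,k0,k0,k0,k0,k4]] k24 k5
    [[(k10,k7)],[(k2,k6),(k3,k6),(k6,k7)],[(k0,k6),(k5,k7),(k9,k7)],[(k0,k6),(k5,k7),(k9,k7)],[(k2,k7),(k3,k7),(k6,
    k8)],[(k8,k6),(k7,k8),(k11,k8),(k4,k10)],[(k7,k6),(k4,k8),(k8,k8),(k11,k10)],[(k0,k7),(k5,k8),(k9,k8)],[(k2,k7),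
    (k3,k7),(k6,k8)],[(k4,k6),(k7,k8),(k11,k8),(k8,k10)],[(k11,k6),(k4,k8),(k8,k8),(k7,k10)],[(k1,k7)]]
    [] k0
    [[k0,k1,k1,k0,k1,k0],[k0,k0,k1,k1,k0,k0],[k0,k0,k0,k1,k1,k0]]
    [.ref k2 k0 [(z1,[y1,z1])],.ref k1 k0 [(z1,[y1,z1])],.ref k0 k0 [(z1,[y1,z1])]])]⟩

/-- classes `0 0 1 0 1 2`, types `C0 C2 S0 C2 S0 S0` -/
noncomputable def cU6_970 : CertX :=
  ⟨[k4,k6,k16,k6,k16,k32],[(false,k0,[k0,k1,k2,k3,k4,k5])],[[[([z1,z1,z1,z0,z0,z1],z2)],[([z1,z1,z0,z0,z1,z1],z2)],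
    [([z1,z0,z0,z1,z0,z1],z2)],[]]],
    [.old (.leafM k0 [k0,k1,k2,k5] [] [(k3,k4,z1,[y1,z1]),(k4,k3,z1,[y1,z1])]),
    .old (.leafM k0 [k0,k1,k4,k5] [] [(k2,k3,z1,[y1,z1]),(k3,k2,z1,[y1,z1])]),
    .old (.leafM k3 [k2,k3,k4,k5,k0,k1] [(z1,[z1])] []),
    .old (.lp [k2,k4,k2,k2,k2,k2] [k1,k1,k0,k0,k1,k1,k1,k1,k1,k1,k1,k1] k0 [] k8 k5
    [[(k1,k2),(k10,k2)],[(k6,k2),(k2,k3),(k3,k3)],[(k0,k3),(k5,k3),(k9,k3)],[(k0,k3),(k5,k3),(k9,k3)],[(k6,k2),(k2,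
    k3),(k3,k3)],[(k4,k2),(k7,k2),(k8,k2),(k11,k2)],[(k4,k2),(k7,k2),(k8,k2),(k11,k2)],[(k0,k2),(k5,k2),(k9,k2)],[(k6,
    k2),(k2,k3),(k3,k3)],[(k4,k2),(k7,k2),(k8,k2),(k11,k2)],[(k4,k2),(k7,k2),(k8,k2),(k11,k2)],[(k1,k2),(k10,k2)]]
    [] k0
    [[k1,k0,k0,k1,k0,k1],[k0,k0,k1,k1,k0,k0],[k0,k0,k0,k1,k1,k0],[k0,k0,k0,k0,k0,k2]]
    [.ref k2 k0 [(z1,[z1])],.ref k1 k0 [(z1,[y1,z1])],.ref k0 k0 [(z1,[y1,z1])],.contra [z1]])]⟩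

/-- classes `0 0 1 0 1 2`, types `S0 S0 B0 S0 B1 C0` -/
noncomputable def cU6_971 : CertX :=
  ⟨[k0,k0,k24,k0,k25,k36],[(false,k0,[k0,k1,k2,k3,k4,k5])],[[[([z1,z1,z1,z0,z0,z1],z2)],[([z1,z1,z0,z1,z0,z1],z2)],
    [([z1,z0,z0,z1,z0,z1],z2)],[]]],
    [.old (.leafM k0 [k0,k1,k2,k5] [] [(k3,k4,z1,[y1,z1]),(k4,k3,z1,[y1,z1])]),
    .old (.leafM k1 [k5,k0,k1,k3] [] [(k2,k4,z1,[y1,z1]),(k4,k2,z1,[y1,z1])]),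
    .old (.leafM k3 [k2,k3,k4,k5,k0,k1] [(z1,[z1])] []),
    .old (.lp [k10,k10,k8,k8,k6,k4] [k0,k0,k0,k0,k1,k1,k1,k1,k2,k2,k3,k3] k0 [[],[k0,k0,k0,k2],[k2]] k24 k5
    [[(k10,k7)],[(k9,k8),(k6,k9),(k0,k10),(k2,k10),(k3,k10),(k5,k11)],[(k2,k8),(k9,k8),(k5,k9),(k6,k9),(k0,k10),(k3,
    k10)],[(k3,k8),(k9,k8),(k5,k9),(k6,k9),(k0,k10),(k2,k10)],[(k9,k7),(k5,k8),(k6,k8),(k2,k9),(k3,k9),(k0,k11)],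
    [(k11,k6),(k8,k7)],[(k11,k6),(k8,k7)],[(k9,k7),(k5,k8),(k6,k8),(k0,k9),(k2,k9),(k3,k9)],[(k9,k6),(k5,k7),(k6,k7),
    (k0,k8),(k2,k8),(k3,k8)],[(k4,k7),(k7,k7)],[(k4,k6),(k7,k6)],[(k1,k7)]]
    [] k0
    [[k1,k0,k0,k1,k0,k1],[k0,k2,k0,k0,k0,k0],[k0,k0,k1,k0,k1,k0],[k0,k0,k0,k1,k1,k0]]
    [.ref k2 k0 [(z1,[z1])],.contra [z1],.ref k1 k0 [(z1,[y1,z1])],.ref k0 k0 [(z1,[y1,z1])]])]⟩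

/-- classes `0 0 1 0 1 2`, types `S0 S0 B0 S0 B1 S0` -/
noncomputable def cU6_972 : CertX :=
  ⟨[k0,k0,k24,k0,k25,k32],[(false,k0,[k0,k1,k2,k3,k4,k5])],[[[([z1,z1,z1,z0,z0,z1],z2)],[([z1,z1,z0,z1,z0,z1],z2)],
    [([z1,z0,z0,z1,z0,z1],z2)],[]]],
    [.old (.leafM k0 [k0,k1,k2,k5] [] [(k3,k4,z1,[y1,z1]),(k4,k3,z1,[y1,z1])]),
    .old (.leafM k1 [k5,k0,k1,k3] [] [(k2,k4,z1,[y1,z1]),(k4,k2,z1,[y1,z1])]),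
    .old (.leafM k3 [k2,k3,k4,k5,k0,k1] [(z1,[z1])] []),
    .old (.lp [k24,k20,k12,k14,k12,k12] [k0,k0,k2,k2,k6,k6,k5,k5,k6,k6,k6,k6] k0 [[k0,k0,k0,k0,k0,k0,k2,k2],[],[],[],[],
    [],[k0,k2],[k0,k2]] k48 k5
    [[(k10,k18),(k1,k24)],[(k9,k16),(k6,k17),(k5,k18),(k2,k22),(k3,k22),(k0,k24)],[(k5,k16),(k9,k18),(k6,k19),(k2,
    k20),(k3,k20),(k0,k22)],[(k5,k16),(k9,k16),(k6,k17),(k2,k20),(k3,k20),(k0,k22)],[(k5,k12),(k9,k12),(k6,k13),(k2,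
    k16),(k3,k16),(k0,k18)],[(k8,k12),(k11,k12)],[(k8,k13),(k11,k13)],[(k5,k13),(k9,k13),(k6,k14),(k0,k17),(k2,k17),
    (k3,k19)],[(k5,k12),(k9,k12),(k6,k13),(k0,k16),(k2,k16),(k3,k18)],[(k4,k12),(k7,k13)],[(k4,k12),(k7,k13)],[(k10,
    k12),(k1,k18)]]
    [] k0
    [[k0,k2,k0,k0,k0,k0],[k0,k1,k1,k0,k1,k0],[k0,k0,k1,k0,k1,k0],[k0,k0,k0,k1,k1,k0]]
    [.contra [z1],.ref k2 k0 [(z1,[y1,z1])],.ref k1 k0 [(z1,[y1,z1])],.ref k0 k0 [(z1,[y1,z1])]])]⟩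

/-- classes `0 0 1 0 1 2`, types `S0 S0 C0 S0 C0 C0` -/
noncomputable def cU6_973 : CertX :=
  ⟨[k0,k0,k20,k0,k20,k36],[(false,k0,[k0,k1,k2,k3,k4,k5])],[[[([z1,z1,z1,z0,z0,z1],z2)],[([z1,z1,z0,z0,z1,z1],z2)],
    [([z1,z0,z0,z0,z1,z1],z2)],[]]],
    [.old (.leafM k0 [k0,k1,k2,k5] [] [(k3,k4,z1,[y1,z1]),(k4,k3,z1,[y1,z1])]),
    .old (.leafM k0 [k0,k1,k4,k5] [] [(k2,k3,z1,[y1,z1]),(k3,k2,z1,[y1,z1])]),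
    .old (.leafM k0 [k0,k1,k2,k3,k4,k5] [(z1,[y1,z1])] []),
    .old (.lp [k10,k12,k6,k6,k6,k6] [k1,k1,k0,k0,k3,k3,k3,k3,k3,k3,k3,k3] k0 [[],[k0,k0,k0,k2],[k2]] k24 k5
    [[(k10,k8)],[(k6,k8),(k9,k8),(k0,k10),(k5,k10),(k2,k11),(k3,k11)],[(k5,k9),(k6,k9),(k9,k9),(k2,k10),(k0,k11),(k3,
    k12)],[(k5,k9),(k6,k9),(k9,k9),(k3,k10),(k0,k11),(k2,k12)],[(k5,k6),(k6,k6),(k9,k6),(k2,k9),(k3,k9),(k0,k10)],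
    [(k7,k6),(k11,k6)],[(k4,k6),(k8,k6)],[(k5,k6),(k6,k6),(k9,k6),(k0,k8),(k2,k9),(k3,k9)],[(k5,k6),(k6,k6),(k9,k6),
    (k0,k8),(k2,k9),(k3,k9)],[(k7,k6),(k11,k6)],[(k4,k6),(k8,k6)],[(k1,k8)]]
    [] k0
    [[k1,k0,k0,k0,k1,k1],[k0,k2,k0,k0,k0,k0],[k0,k0,k1,k1,k0,k0],[k0,k0,k0,k1,k1,k0]]
    [.ref k2 k0 [(z1,[z1])],.contra [z1],.ref k1 k0 [(z1,[y1,z1])],.ref k0 k0 [(z1,[y1,z1])]])]⟩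

/-- classes `0 0 1 0 1 2`, types `S0 S0 C0 S0 C0 S0` -/
noncomputable def cU6_974 : CertX :=
  ⟨[k0,k0,k20,k0,k20,k32],[(false,k0,[k0,k1,k2,k3,k4,k5])],[[[([z1,z1,z1,z0,z0,z1],z2)],[([z1,z1,z0,z0,z1,z1],z2)],
    [([z1,z0,z0,z0,z1,z1],z2)],[]]],
    [.old (.leafM k0 [k0,k1,k2,k5] [] [(k3,k4,z1,[y1,z1]),(k4,k3,z1,[y1,z1])]),
    .old (.leafM k0 [k0,k1,k4,k5] [] [(k2,k3,z1,[y1,z1]),(k3,k2,z1,[y1,z1])]),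
    .old (.leafM k0 [k0,k1,k2,k3,k4,k5] [(z1,[y1,z1])] []),
    .old (.lp [k24,k20,k12,k12,k14,k12] [k0,k0,k2,k2,k6,k6,k6,k6,k5,k5,k6,k6] k0 [[k0,k0,k0,k0,k0,k0,k2,k2],[],[],[],[],
    [],[k0,k2],[k0,k2]] k48 k5
    [[(k10,k18),(k1,k24)],[(k6,k16),(k9,k17),(k5,k18),(k2,k22),(k3,k22),(k0,k24)],[(k5,k16),(k6,k18),(k9,k19),(k2,
    k20),(k3,k20),(k0,k22)],[(k5,k16),(k6,k16),(k9,k17),(k2,k20),(k3,k20),(k0,k22)],[(k5,k12),(k6,k12),(k9,k13),(k2,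
    k16),(k3,k16),(k0,k18)],[(k7,k12),(k11,k12)],[(k4,k12),(k8,k13)],[(k5,k12),(k6,k12),(k9,k13),(k0,k16),(k2,k16),
    (k3,k18)],[(k5,k13),(k6,k13),(k9,k14),(k0,k17),(k2,k17),(k3,k19)],[(k7,k13),(k11,k13)],[(k4,k12),(k8,k13)],[(k10,
    k12),(k1,k18)]]
    [] k0
    [[k0,k2,k0,k0,k0,k0],[k0,k1,k1,k1,k0,k0],[k0,k0,k1,k1,k0,k0],[k0,k0,k0,k1,k1,k0]]
    [.contra [z1],.ref k2 k0 [(z1,[y1,z1])],.ref k1 k0 [(z1,[y1,z1])],.ref k0 k0 [(z1,[y1,z1])]])]⟩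

/-- classes `0 0 1 0 1 2`, types `S0 S0 C0 S0 C2 C0` -/
noncomputable def cU6_975 : CertX :=
  ⟨[k0,k0,k20,k0,k22,k36],[(false,k0,[k0,k1,k2,k3,k4,k5])],[[[([z1,z1,z0,z1,z0,z1],z2)],[([z1,z1,z0,z0,z1,z1],z2)],
    [([z1,z0,z0,z0,z1,z1],z2)],[([z1,z0,z0,z1,z0,z1],z2)],[]]],
    [.old (.leafM k1 [k5,k0,k1,k3] [] [(k2,k4,z1,[y1,z1]),(k4,k2,z1,[y1,z1])]),
    .old (.leafM k0 [k0,k1,k4,k5] [] [(k2,k3,z1,[y1,z1]),(k3,k2,z1,[y1,z1])]),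
    .old (.leafM k0 [k0,k1,k2,k3,k4,k5] [(z1,[y1,z1])] []),
    .old (.leafM k3 [k2,k3,k4,k5,k0,k1] [(z1,[z1])] []),
    .old (.lp [k2,k4,k2,k2,k2,k2] [k1,k1,k0,k0,k1,k1,k1,k1,k1,k1,k1,k1] k0 [] k8 k5
    [[(k10,k2)],[(k0,k2),(k5,k2),(k6,k2),(k9,k2),(k2,k3),(k3,k3)],[(k0,k3),(k5,k3),(k6,k3),(k9,k3),(k2,k4),(k3,k4)],
    [(k0,k3),(k5,k3),(k6,k3),(k9,k3),(k2,k4),(k3,k4)],[(k0,k2),(k5,k2),(k6,k2),(k9,k2),(k2,k3),(k3,k3)],[(k7,k2),(k8,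
    k2)],[(k4,k2),(k11,k2)],[(k0,k2),(k5,k2),(k6,k2),(k9,k2),(k2,k3),(k3,k3)],[(k0,k2),(k5,k2),(k6,k2),(k9,k2),(k2,
    k3),(k3,k3)],[(k4,k2),(k11,k2)],[(k7,k2),(k8,k2)],[(k1,k2)]]
    [] k0
    [[k1,k0,k0,k1,k0,k1],[k1,k0,k0,k0,k1,k1],[k0,k0,k1,k1,k0,k0],[k0,k0,k1,k0,k1,k0]]
    [.ref k3 k0 [(z1,[z1])],.ref k2 k0 [(z1,[z1])],.ref k1 k0 [(z1,[y1,z1])],.ref k0 k0 [(z1,[y1,z1])]])]⟩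

/-- classes `0 0 1 0 1 2`, types `S0 S0 C0 S0 C2 S0` -/
noncomputable def cU6_976 : CertX :=
  ⟨[k0,k0,k20,k0,k22,k32],[(false,k0,[k0,k1,k2,k3,k4,k5])],[[[([z1,z1,z0,z1,z0,z1],z2)],[([z1,z1,z0,z0,z1,z1],z2)],
    [([z1,z0,z0,z1,z0,z1],z2)],[([z1,z0,z0,z0,z1,z1],z2)],[]]],
    [.old (.leafM k1 [k5,k0,k1,k3] [] [(k2,k4,z1,[y1,z1]),(k4,k2,z1,[y1,z1])]),
    .old (.leafM k0 [k0,k1,k4,k5] [] [(k2,k3,z1,[y1,z1]),(k3,k2,z1,[y1,z1])]),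
    .old (.leafM k3 [k2,k3,k4,k5,k0,k1] [(z1,[z1])] []),
    .old (.leafM k0 [k0,k1,k2,k3,k4,k5] [(z1,[y1,z1])] []),
    .old (.lp [k8,k12,k6,k6,k6,k6] [k3,k3,k2,k0,k4,k4,k4,k4,k4,k4,k4,k4] k0 [[],[k0,k0,k0,k0,k0,k0,k4],[],[],[],[],[],
    [k4]] k24 k5
    [[(k10,k7),(k1,k8)],[(k5,k7),(k9,k7),(k0,k8),(k2,k9),(k3,k11),(k6,k11)],[(k9,k6),(k5,k10),(k6,k10),(k0,k11),(k2,
    k12),(k3,k14)],[(k5,k8),(k6,k8),(k9,k8),(k0,k9),(k2,k10),(k3,k12)],[(k5,k6),(k6,k6),(k9,k6),(k0,k7),(k2,k8),(k3,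
    k10)],[(k7,k6),(k8,k6)],[(k4,k6),(k11,k6)],[(k5,k6),(k6,k6),(k9,k6),(k2,k8),(k3,k10),(k0,k11)],[(k3,k6),(k5,k6),
    (k6,k6),(k9,k6),(k0,k7),(k2,k8)],[(k4,k6),(k11,k6)],[(k7,k6),(k8,k6)],[(k10,k6),(k1,k7)]]
    [] k0
    [[k2,k0,k0,k0,k0,k0],[k1,k0,k0,k0,k1,k1],[k0,k1,k1,k0,k1,k0],[k0,k0,k1,k1,k0,k0],[k0,k0,k1,k0,k1,k0]]
    [.contra [z1],.ref k3 k0 [(z1,[z1])],.ref k2 k0 [(z1,[y1,z1])],.ref k1 k0 [(z1,[y1,z1])],.ref k0 k0 [(z1,[y1,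
    z1])]])]⟩

/-- classes `0 0 1 0 1 2`, types `S0 S0 N0 S0 N1 C0` -/
noncomputable def cU6_977 : CertX :=
  ⟨[k0,k0,k28,k0,k29,k36],[(false,k0,[k0,k1,k2,k3,k4,k5])],[[[([z1,z1,z1,z0,z0,z1],z2)],[]]],
    [.old (.leafM k0 [k0,k1,k2,k5] [] [(k3,k4,z1,[y1,z1]),(k4,k3,z1,[y1,z1])]),
    .old (.lp [k10,k12,k6,k6,k6,k6] [k1,k1,k0,k0,k3,k3,k3,k3,k3,k3,k3,k3] k0 [[],[k0,k0,k0,k2],[k2]] k24 k5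
    [[(k10,k8)],[(k6,k8),(k9,k8),(k0,k10),(k5,k10),(k2,k11),(k3,k11)],[(k5,k9),(k6,k9),(k9,k9),(k2,k10),(k0,k11),(k3,
    k12)],[(k5,k9),(k6,k9),(k9,k9),(k3,k10),(k0,k11),(k2,k12)],[(k5,k6),(k6,k6),(k9,k6),(k2,k9),(k3,k9),(k0,k10)],
    [(k11,k6)],[(k8,k6)],[(k5,k6),(k6,k6),(k9,k6),(k0,k8),(k2,k9),(k3,k9)],[(k5,k6),(k6,k6),(k9,k6),(k0,k8),(k2,k9),
    (k3,k9)],[(k7,k6)],[(k4,k6)],[(k1,k8)]]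
    [] k0
    [[k0,k2,k0,k0,k0,k0],[k0,k0,k0,k1,k1,k0]]
    [.contra [z1],.ref k0 k0 [(z1,[y1,z1])]])]⟩

/-- classes `0 0 1 0 1 2`, types `S0 S0 N0 S0 N1 S0` -/
noncomputable def cU6_978 : CertX :=
  ⟨[k0,k0,k28,k0,k29,k32],[(false,k0,[k0,k1,k2,k3,k4,k5])],[[[([z1,z1,z1,z0,z0,z1],z2)],[]]],
    [.old (.leafM k0 [k0,k1,k2,k5] [] [(k3,k4,z1,[y1,z1]),(k4,k3,z1,[y1,z1])]),
    .old (.lp [k12,k10,k6,k6,k6,k6] [k0,k0,k1,k1,k3,k3,k3,k3,k3,k3,k3,k3] k0 [[k0,k0,k0,k0,k0,k0,k2,k2],[],[],[],[],[],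
    [k0,k2],[k0,k2]] k24 k5
    [[(k10,k9),(k1,k12)],[(k6,k7),(k9,k7),(k5,k9),(k2,k11),(k3,k11),(k0,k12)],[(k5,k8),(k2,k10),(k3,k10),(k6,k10),(k9,
    k10),(k0,k11)],[(k5,k8),(k6,k8),(k9,k8),(k2,k10),(k3,k10),(k0,k11)],[(k5,k6),(k6,k6),(k9,k6),(k2,k8),(k3,k8),(k0,
    k9)],[(k11,k6)],[(k8,k6)],[(k5,k6),(k6,k6),(k9,k6),(k0,k7),(k2,k8),(k3,k10)],[(k5,k6),(k6,k6),(k9,k6),(k0,k7),(k2,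
    k8),(k3,k10)],[(k7,k6)],[(k4,k6)],[(k10,k6),(k1,k9)]]
    [] k0
    [[k0,k2,k0,k0,k0,k0],[k0,k0,k0,k1,k1,k0]]
    [.contra [z1],.ref k0 k0 [(z1,[y1,z1])]])]⟩

/-- classes `0 0 1 0 1 2`, types `S0 S0 N0 S0 N2 C0` -/
noncomputable def cU6_979 : CertX :=
  ⟨[k0,k0,k28,k0,k30,k36],[(false,k0,[k0,k1,k2,k3,k4,k5])],[[[([z1,z1,z0,z1,z0,z1],z2)],[([z1,z0,z0,z1,z0,z1],z2)],
    []]],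
    [.old (.leafM k1 [k5,k0,k1,k3] [] [(k2,k4,z1,[y1,z1]),(k4,k2,z1,[y1,z1])]),
    .old (.leafM k3 [k2,k3,k4,k5,k0,k1] [(z1,[z1])] []),
    .old (.lp [k2,k4,k2,k2,k2,k2] [k1,k1,k0,k0,k1,k1,k1,k1,k1,k1,k1,k1] k0 [] k8 k5
    [[(k10,k2)],[(k0,k2),(k5,k2),(k6,k2),(k9,k2),(k2,k3),(k3,k3)],[(k0,k3),(k5,k3),(k6,k3),(k9,k3),(k2,k4),(k3,k4)],
    [(k0,k3),(k5,k3),(k6,k3),(k9,k3),(k2,k4),(k3,k4)],[(k0,k2),(k5,k2),(k6,k2),(k9,k2),(k2,k3),(k3,k3)],[(k8,k2)],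
    [(k11,k2)],[(k0,k2),(k5,k2),(k6,k2),(k9,k2),(k2,k3),(k3,k3)],[(k0,k2),(k5,k2),(k6,k2),(k9,k2),(k2,k3),(k3,k3)],
    [(k4,k2)],[(k7,k2)],[(k1,k2)]]
    [] k0
    [[k1,k0,k0,k1,k0,k1],[k0,k0,k1,k0,k1,k0]]
    [.ref k1 k0 [(z1,[z1])],.ref k0 k0 [(z1,[y1,z1])]])]⟩

/-- classes `0 0 1 0 1 2`, types `S0 S0 N0 S0 N2 S0` -/
noncomputable def cU6_980 : CertX :=
  ⟨[k0,k0,k28,k0,k30,k32],[(false,k0,[k0,k1,k2,k3,k4,k5])],[[[([z1,z1,z0,z1,z0,z1],z2)],[([z1,z0,z0,z1,z0,z1],z2)],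
    []]],
    [.old (.leafM k1 [k5,k0,k1,k3] [] [(k2,k4,z1,[y1,z1]),(k4,k2,z1,[y1,z1])]),
    .old (.leafM k3 [k2,k3,k4,k5,k0,k1] [(z1,[z1])] []),
    .old (.lp [k8,k12,k6,k6,k6,k6] [k3,k3,k2,k0,k4,k4,k4,k4,k4,k4,k4,k4] k0 [[],[k0,k0,k0,k0,k0,k0,k4],[],[],[],[],[],
    [k4]] k24 k5
    [[(k10,k7),(k1,k8)],[(k5,k7),(k9,k7),(k0,k8),(k2,k9),(k3,k11),(k6,k11)],[(k9,k6),(k5,k10),(k6,k10),(k0,k11),(k2,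
    k12),(k3,k14)],[(k5,k8),(k6,k8),(k9,k8),(k0,k9),(k2,k10),(k3,k12)],[(k5,k6),(k6,k6),(k9,k6),(k0,k7),(k2,k8),(k3,
    k10)],[(k8,k6)],[(k11,k6)],[(k5,k6),(k6,k6),(k9,k6),(k2,k8),(k3,k10),(k0,k11)],[(k3,k6),(k5,k6),(k6,k6),(k9,k6),
    (k0,k7),(k2,k8)],[(k4,k6)],[(k7,k6)],[(k10,k6),(k1,k7)]]
    [] k0
    [[k2,k0,k0,k0,k0,k0],[k0,k1,k1,k0,k1,k0],[k0,k0,k1,k0,k1,k0]]
    [.contra [z1],.ref k1 k0 [(z1,[y1,z1])],.ref k0 k0 [(z1,[y1,z1])]])]⟩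

/-- classes `0 0 1 0 1 2`, types `S0 S0 S0 S0 S0 C0` -/
noncomputable def cU6_981 : CertX :=
  ⟨[k0,k0,k16,k0,k16,k36],[(false,k0,[k0,k1,k2,k3,k4,k5])],[[[([z1,z1,z1,z0,z0,z1],z2)],[([z1,z1,z0,z1,z0,z1],z2)],
    [([z1,z1,z0,z0,z1,z1],z2)],[([z1,z0,z0,z1,z0,z1],z2)],[([z1,z0,z0,z0,z1,z1],z2)],[]]],
    [.old (.leafM k0 [k0,k1,k2,k5] [] [(k3,k4,z1,[y1,z1]),(k4,k3,z1,[y1,z1])]),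
    .old (.leafM k1 [k5,k0,k1,k3] [] [(k2,k4,z1,[y1,z1]),(k4,k2,z1,[y1,z1])]),
    .old (.leafM k0 [k0,k1,k4,k5] [] [(k2,k3,z1,[y1,z1]),(k3,k2,z1,[y1,z1])]),
    .old (.leafM k3 [k2,k3,k4,k5,k0,k1] [(z1,[z1])] []),
    .old (.leafM k0 [k0,k1,k2,k3,k4,k5] [(z1,[y1,z1])] []),
    .old (.lp [k12,k16,k16,k14,k22,k14] [k6,k6,k4,k4,k4,k4,k5,k5,k0,k2,k5,k5] k0 [[k0,k0,k0,k0,k0,k0,k2],[],[],[k0,k0,k0,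
    k0,k0,k0,k2],[k0,k0,k0,k0,k0,k0,k0,k0,k0,k8],[k0,k0,k0,k0,k0,k0,k0,k0,k0,k6],[k0,k0,k0,k0,k0,k0,k0,k2],[k0,k2,k2],
    [k0,k0,k0,k0,k6,k8],[k0,k0,k0,k0,k0,k0,k0,k0,k2]] k48 k5
    [[(k10,k13)],[(k0,k12),(k6,k13),(k2,k14),(k3,k14),(k5,k14),(k9,k14)],[(k0,k14),(k2,k16),(k3,k16),(k5,k16),(k6,
    k17),(k9,k18)],[(k0,k14),(k2,k16),(k3,k16),(k5,k16),(k6,k17),(k9,k18)],[(k0,k14),(k6,k15),(k2,k16),(k3,k16),(k5,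
    k16),(k9,k16)],[(k8,k12),(k7,k15),(k4,k16),(k11,k21)],[(k8,k13),(k7,k14),(k4,k15),(k11,k22)],[(k6,k12),(k0,k13),
    (k5,k15),(k2,k17),(k3,k17),(k9,k17)],[(k0,k14),(k5,k16),(k6,k17),(k2,k18),(k3,k18),(k9,k22)],[(k4,k12),(k7,k13),
    (k11,k19),(k8,k26)],[(k11,k12),(k8,k19),(k4,k21),(k7,k22)],[(k1,k13)]]
    [] k0
    [[k1,k0,k0,k0,k1,k1],[k0,k2,k0,k0,k0,k0],[k0,k1,k1,k0,k1,k0],[k0,k0,k2,k0,k0,k0],[k0,k0,k1,k1,k0,k0],[k0,k0,k1,k0,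
    k1,k0],[k0,k0,k0,k2,k0,k0],[k0,k0,k0,k1,k1,k0]]
    [.ref k4 k0 [(z1,[z1])],.contra [z1],.ref k3 k0 [(z1,[y1,z1])],.contra [z1],.ref k2 k0 [(z1,[y1,z1])],
    .ref k1 k0 [(z1,[y1,z1])],.contra [z1],.ref k0 k0 [(z1,[y1,z1])]])]⟩

/-- classes `0 0 1 0 2 1`, types `C0 C0 B0 C0 C0 B1` -/
noncomputable def cU6_982 : CertX :=
  ⟨[k4,k4,k24,k4,k36,k25],[(false,k0,[k0,k1,k2,k3,k4,k5])],[[[([z1,z1,z1,z0,z0,z0],z2)],[]]],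
    [.old (.leafM k0 [k2,k3,k4,k5,k0,k1] [(z1,[y1,z1])] []),
    .old (.lp [(nat_lit 1802),(nat_lit 2280),(nat_lit 4558),(nat_lit 1272),(nat_lit 1272),(nat_lit 1272)] [(nat_lit 1378),
    (nat_lit 1378),(nat_lit 1139),(nat_lit 1139),k0,k0,(nat_lit 1643),(nat_lit 1643),(nat_lit 1643),(nat_lit 1643),
    (nat_lit 1643),(nat_lit 1643)] k0 [[k0,k0,k0,k0,k0,k0,(nat_lit 265)],[],[],[],[],[],[],[k0,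
    (nat_lit 265)]] (nat_lit 6360) k6
    [[(k7,(nat_lit 1537)),(k4,(nat_lit 3180))],[(k9,(nat_lit 1272)),(k3,(nat_lit 2041)),(k5,(nat_lit 3180))],[(k0,
    (nat_lit 2041)),(k6,(nat_lit 2041)),(k2,(nat_lit 2280))],[(k9,(nat_lit 1776)),(k3,(nat_lit 2280)),(k5,
    (nat_lit 3419))],[(k6,(nat_lit 2915)),(k0,(nat_lit 3180)),(k2,(nat_lit 3419))],[(k10,(nat_lit 2915)),(k1,
    (nat_lit 3180))],[(k10,(nat_lit 1272)),(k1,(nat_lit 1537))],[(k9,(nat_lit 1272)),(k3,(nat_lit 2041)),(k5,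
    (nat_lit 2915))],[(k0,(nat_lit 1272)),(k6,(nat_lit 1272)),(k2,(nat_lit 1776))],[(k11,(nat_lit 1272))],[(k8,
    (nat_lit 1272))],[(k7,(nat_lit 1272)),(k4,(nat_lit 2915))]]
    [] k0
    [[k0,k2,k0,k0,k0,k0],[k0,k0,k0,k1,k1,k1]]
    [.contra [z1],.ref k0 k0 [(z1,[y1,z1])]])]⟩

/-- classes `0 0 1 0 2 1`, types `C0 C0 B0 C0 S0 B1` -/
noncomputable def cU6_983 : CertX :=
  ⟨[k4,k4,k24,k4,k32,k25],[(false,k0,[k0,k1,k2,k3,k4,k5])],[[[([z1,z1,z1,z0,z0,z0],z2)],[]]],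
    [.old (.leafM k0 [k2,k3,k4,k5,k0,k1] [(z1,[y1,z1])] []),
    .old (.lp [(nat_lit 1260),(nat_lit 660),(nat_lit 720),(nat_lit 396),(nat_lit 396),(nat_lit 440)] [k0,k0,(nat_lit 300),
    (nat_lit 300),(nat_lit 270),(nat_lit 270),(nat_lit 432),(nat_lit 432),(nat_lit 432),(nat_lit 432),(nat_lit 410),
    (nat_lit 410)] k0 [[k0,k0,k0,k0,k0,k0,k165],[],[],[],[],[],[],[k0,k165]] (nat_lit 1980) k6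
    [[(k7,(nat_lit 828)),(k4,(nat_lit 990))],[(k9,(nat_lit 663)),(k3,(nat_lit 960)),(k5,(nat_lit 990))],[(k2,
    (nat_lit 660)),(k6,(nat_lit 693)),(k0,(nat_lit 960))],[(k9,(nat_lit 528)),(k3,(nat_lit 660)),(k5,(nat_lit 690))],
    [(k6,(nat_lit 558)),(k2,(nat_lit 690)),(k0,(nat_lit 990))],[(k10,(nat_lit 580)),(k1,(nat_lit 990))],[(k10,
    (nat_lit 418)),(k1,(nat_lit 828))],[(k9,(nat_lit 396)),(k5,(nat_lit 558)),(k3,(nat_lit 693))],[(k6,(nat_lit 396)),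
    (k2,(nat_lit 528)),(k0,(nat_lit 663))],[(k8,(nat_lit 396)),(k11,(nat_lit 418))],[(k8,(nat_lit 418)),(k11,
    (nat_lit 440))],[(k7,(nat_lit 418)),(k4,(nat_lit 580))]]
    [] k0
    [[k0,k2,k0,k0,k0,k0],[k0,k0,k0,k1,k1,k1]]
    [.contra [z1],.ref k0 k0 [(z1,[y1,z1])]])]⟩

/-- classes `0 0 1 0 2 1`, types `C0 C0 B0 C2 C0 B1` -/
noncomputable def cU6_984 : CertX :=
  ⟨[k4,k4,k24,k6,k36,k25],[(false,k0,[k0,k1,k2,k3,k4,k5])],[[[([z1,z1,z1,z0,z0,z0],z2)],[([z1,z0,z0,z1,z0,z0],z2)],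
    [([z1,z1,z0,z1,z0,z0],z2)],[]]],
    [.old (.leafM k0 [k2,k3,k4,k5,k0,k1] [(z1,[y1,z1])] []),
    .old (.leafM k2 [k1,k2,k4,k5] [] [(k3,k0,z1,[z1]),(k0,k3,z1,[z1])]),
    .old (.leafM k3 [k1,k2,k3,k4,k5,k0] [(z1,[y1,z1])] []),
    .old (.lp [(nat_lit 36432),(nat_lit 38456),(nat_lit 78936),(nat_lit 26220),(nat_lit 20064),
    (nat_lit 26220)] [(nat_lit 21252),(nat_lit 21252),(nat_lit 20240),(nat_lit 20240),k0,k0,(nat_lit 26358),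
    (nat_lit 26358),(nat_lit 29436),(nat_lit 29436),(nat_lit 26358),(nat_lit 26358)] k0 [[k0,k0,k0,k0,k0,k0,k0,
    (nat_lit 4807)],[],[],[],[],[],[k0,(nat_lit 4807)]] (nat_lit 115368) k6
    [[(k7,(nat_lit 31326)),(k4,(nat_lit 57684))],[(k6,(nat_lit 26519)),(k3,(nat_lit 37444)),(k5,(nat_lit 57684))],
    [(k9,(nat_lit 34067)),(k0,(nat_lit 37444)),(k2,(nat_lit 38456))],[(k6,(nat_lit 32338)),(k3,(nat_lit 38456)),(k5,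
    (nat_lit 58696))],[(k9,(nat_lit 49500)),(k0,(nat_lit 57684)),(k2,(nat_lit 58696))],[(k10,(nat_lit 52578)),(k1,
    (nat_lit 57684))],[(k10,(nat_lit 26220)),(k1,(nat_lit 31326))],[(k9,(nat_lit 23142)),(k0,(nat_lit 26519)),(k2,
    (nat_lit 32338))],[(k6,(nat_lit 23142)),(k3,(nat_lit 34067)),(k5,(nat_lit 49500))],[(k11,(nat_lit 23142))],[(k8,
    (nat_lit 23142))],[(k7,(nat_lit 26220)),(k4,(nat_lit 52578))]]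
    [] k0
    [[k1,k0,k0,k1,k0,k0],[k1,k1,k0,k1,k0,k0],[k0,k2,k0,k0,k0,k0],[k0,k0,k0,k1,k1,k1]]
    [.ref k1 k0 [(z1,[z1])],.ref k2 k0 [(z1,[z1])],.contra [z1],.ref k0 k0 [(z1,[y1,z1])]])]⟩

/-- classes `0 0 1 0 2 1`, types `C0 C0 B0 C2 S0 B1` -/
noncomputable def cU6_985 : CertX :=
  ⟨[k4,k4,k24,k6,k32,k25],[(false,k0,[k0,k1,k2,k3,k4,k5])],[[[([z1,z1,z1,z0,z0,z0],z2)],[([z1,z0,z0,z1,z0,z0],z2)],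
    [([z1,z1,z0,z1,z0,z0],z2)],[]]],
    [.old (.leafM k0 [k2,k3,k4,k5,k0,k1] [(z1,[y1,z1])] []),
    .old (.leafM k2 [k1,k2,k4,k5] [] [(k3,k0,z1,[z1]),(k0,k3,z1,[z1])]),
    .old (.leafM k3 [k1,k2,k3,k4,k5,k0] [(z1,[y1,z1])] []),
    .old (.lp [(nat_lit 13662),(nat_lit 10120),(nat_lit 16698),(nat_lit 5280),(nat_lit 6900),
    (nat_lit 6900)] [(nat_lit 1518),(nat_lit 1518),(nat_lit 3289),(nat_lit 3289),k0,k0,(nat_lit 5709),(nat_lit 5709),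
    (nat_lit 4899),(nat_lit 4899),(nat_lit 4899),(nat_lit 4899)] k0 [[k0,k0,k0,k0,k0,k0,k0,(nat_lit 1265)],[],[],[],
    [],[],[k0,(nat_lit 1265)]] (nat_lit 30360) k6
    [[(k7,(nat_lit 9471)),(k4,(nat_lit 15180))],[(k6,(nat_lit 8206)),(k3,(nat_lit 11891)),(k5,(nat_lit 15180))],[(k9,
    (nat_lit 9775)),(k2,(nat_lit 10120)),(k0,(nat_lit 11891))],[(k6,(nat_lit 7700)),(k3,(nat_lit 10120)),(k5,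
    (nat_lit 13409))],[(k9,(nat_lit 11799)),(k2,(nat_lit 13409)),(k0,(nat_lit 15180))],[(k10,(nat_lit 11799)),(k1,
    (nat_lit 15180))],[(k10,(nat_lit 6090)),(k1,(nat_lit 9471))],[(k9,(nat_lit 6090)),(k2,(nat_lit 7700)),(k0,
    (nat_lit 8206))],[(k6,(nat_lit 6090)),(k3,(nat_lit 9775)),(k5,(nat_lit 11799))],[(k8,(nat_lit 6900)),(k11,
    (nat_lit 6900))],[(k8,(nat_lit 6900)),(k11,(nat_lit 6900))],[(k7,(nat_lit 6090)),(k4,(nat_lit 11799))]]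
    [] k0
    [[k1,k0,k0,k1,k0,k0],[k1,k1,k0,k1,k0,k0],[k0,k2,k0,k0,k0,k0],[k0,k0,k0,k1,k1,k1]]
    [.ref k1 k0 [(z1,[z1])],.ref k2 k0 [(z1,[z1])],.contra [z1],.ref k0 k0 [(z1,[y1,z1])]])]⟩

/-- classes `0 0 1 0 2 1`, types `C0 C0 C0 C0 C0 C0` -/
noncomputable def cU6_986 : CertX :=
  ⟨[k4,k4,k20,k4,k36,k20],[(false,k0,[k0,k1,k2,k3,k4,k5])],[[[([z1,z1,z1,z0,z0,z0],z2)],[([z1,z1,z0,z0,z1,z1],z2)],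
    [([z1,z0,z0,z0,z1,z1],z2)],[]]],
    [.old (.leafM k0 [k2,k3,k4,k5,k0,k1] [(z1,[y1,z1])] []),
    .old (.leafM k0 [k0,k1,k4,k5] [] [(k2,k3,z1,[y1,z1]),(k3,k2,z1,[y1,z1])]),
    .old (.leafM k0 [k0,k1,k2,k3,k4,k5] [(z1,[y1,z1])] []),
    .old (.lp [(nat_lit 8096),(nat_lit 10120),(nat_lit 22264),(nat_lit 6900),(nat_lit 6900),
    (nat_lit 5280)] [(nat_lit 7084),(nat_lit 7084),(nat_lit 6072),(nat_lit 6072),k0,k0,(nat_lit 7682),(nat_lit 7682),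
    (nat_lit 7682),(nat_lit 7682),(nat_lit 8492),(nat_lit 8492)] k0 [[k0,k0,k0,k0,k0,k0,(nat_lit 1265)],[],[],[],[],
    [],[],[k0,(nat_lit 1265)]] (nat_lit 30360) k6
    [[(k10,(nat_lit 6688)),(k4,(nat_lit 15180))],[(k9,(nat_lit 6233)),(k3,(nat_lit 9108)),(k5,(nat_lit 15180))],[(k0,
    (nat_lit 9108)),(k6,(nat_lit 9775)),(k2,(nat_lit 10120))],[(k9,(nat_lit 8510)),(k3,(nat_lit 10120)),(k5,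
    (nat_lit 16192))],[(k6,(nat_lit 14582)),(k0,(nat_lit 15180)),(k2,(nat_lit 16192))],[(k7,(nat_lit 14582)),(k1,
    (nat_lit 15180))],[(k10,(nat_lit 6090)),(k4,(nat_lit 14582))],[(k9,(nat_lit 6900)),(k3,(nat_lit 9775)),(k5,
    (nat_lit 14582))],[(k0,(nat_lit 6233)),(k6,(nat_lit 6900)),(k2,(nat_lit 8510))],[(k11,(nat_lit 6090))],[(k8,
    (nat_lit 6090))],[(k7,(nat_lit 6090)),(k1,(nat_lit 6688))]]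
    [] k0
    [[k1,k0,k0,k0,k1,k1],[k0,k2,k0,k0,k0,k0],[k0,k0,k1,k1,k0,k0],[k0,k0,k0,k1,k1,k1]]
    [.ref k2 k0 [(z1,[z1])],.contra [z1],.ref k1 k0 [(z1,[y1,z1])],.ref k0 k0 [(z1,[y1,z1])]])]⟩

/-- classes `0 0 1 0 2 1`, types `C0 C0 C0 C0 C0 C2` -/
noncomputable def cU6_987 : CertX :=
  ⟨[k4,k4,k20,k4,k36,k22],[(false,k0,[k0,k1,k2,k3,k4,k5])],[[[([z1,z1,z0,z0,z1,z1],z2)],[([z1,z0,z0,z0,z1,z1],z2)],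
    []]],
    [.old (.leafM k0 [k0,k1,k4,k5] [] [(k2,k3,z1,[y1,z1]),(k3,k2,z1,[y1,z1])]),
    .old (.leafM k0 [k0,k1,k2,k3,k4,k5] [(z1,[y1,z1])] []),
    .old (.lp [k2,k4,k2,k2,k2,k2] [k1,k1,k0,k0,k1,k1,k1,k1,k1,k1,k1,k1] k0 [] k8 k5
    [[(k7,k2),(k10,k2)],[(k5,k2),(k9,k2),(k3,k3)],[(k0,k3),(k6,k3),(k2,k4)],[(k5,k3),(k9,k3),(k3,k4)],[(k0,k2),(k6,
    k2),(k2,k3)],[(k7,k2),(k10,k2)],[(k1,k2),(k4,k2)],[(k5,k2),(k9,k2),(k3,k3)],[(k0,k2),(k6,k2),(k2,k3)],[(k11,k2)],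
    [(k8,k2)],[(k1,k2),(k4,k2)]]
    [] k0
    [[k1,k0,k0,k0,k1,k1],[k0,k0,k1,k1,k0,k0]]
    [.ref k1 k0 [(z1,[z1])],.ref k0 k0 [(z1,[y1,z1])]])]⟩

/-- classes `0 0 1 0 2 1`, types `C0 C0 C0 C0 S0 C0` -/
noncomputable def cU6_988 : CertX :=
  ⟨[k4,k4,k20,k4,k32,k20],[(false,k0,[k0,k1,k2,k3,k4,k5])],[[[([z1,z1,z1,z0,z0,z0],z2)],[([z1,z1,z0,z0,z1,z1],z2)],
    [([z1,z0,z0,z0,z1,z1],z2)],[]]],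
    [.old (.leafM k0 [k2,k3,k4,k5,k0,k1] [(z1,[y1,z1])] []),
    .old (.leafM k0 [k0,k1,k4,k5] [] [(k2,k3,z1,[y1,z1]),(k3,k2,z1,[y1,z1])]),
    .old (.leafM k0 [k0,k1,k2,k3,k4,k5] [(z1,[y1,z1])] []),
    .old (.lp [k154,k86,k86,k48,k48,k48] [k0,k0,k34,k34,k34,k34,k53,k53,k53,k53,k53,k53] k0 [[k0,k0,k0,k0,k0,k0,k10],[],
    [],[],[],[],[],[k0,k10]] (nat_lit 240) k6
    [[(k10,k101),(k4,k120)],[(k9,k91),(k3,k120),(k5,k120)],[(k6,k77),(k2,k86),(k0,k120)],[(k9,k67),(k3,k86),(k5,k86)],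
    [(k6,k67),(k2,k86),(k0,k120)],[(k7,k67),(k1,k120)],[(k10,k48),(k4,k67)],[(k9,k48),(k5,k67),(k3,k77)],[(k6,k48),
    (k2,k67),(k0,k91)],[(k8,k48),(k11,k48)],[(k8,k48),(k11,k48)],[(k7,k48),(k1,k101)]]
    [] k0
    [[k0,k2,k0,k0,k0,k0],[k0,k1,k1,k1,k0,k0],[k0,k0,k1,k1,k0,k0],[k0,k0,k0,k1,k1,k1]]
    [.contra [z1],.ref k2 k0 [(z1,[y1,z1])],.ref k1 k0 [(z1,[y1,z1])],.ref k0 k0 [(z1,[y1,z1])]])]⟩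

/-- classes `0 0 1 0 2 1`, types `C0 C0 C0 C0 S0 C2` -/
noncomputable def cU6_989 : CertX :=
  ⟨[k4,k4,k20,k4,k32,k22],[(false,k0,[k0,k1,k2,k3,k4,k5])],[[[([z1,z1,z0,z0,z1,z1],z2)],[([z1,z0,z0,z0,z1,z1],z2)],
    []]],
    [.old (.leafM k0 [k0,k1,k4,k5] [] [(k2,k3,z1,[y1,z1]),(k3,k2,z1,[y1,z1])]),
    .old (.leafM k0 [k0,k1,k2,k3,k4,k5] [(z1,[y1,z1])] []),
    .old (.lp [k10,k10,k6,k6,k6,k6] [k0,k0,k0,k0,k2,k2,k2,k2,k2,k2,k2,k2] k0 [[k0,k0,k2],[k0,k0,k0,k0,k0,k0,k0,k2],[],[k0,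
    k2],[],[],[k2]] k24 k5
    [[(k7,k8),(k10,k8)],[(k5,k6),(k3,k10),(k9,k10)],[(k6,k6),(k0,k10),(k2,k12)],[(k5,k8),(k9,k8),(k3,k12)],[(k0,k6),
    (k6,k6),(k2,k8)],[(k7,k6),(k10,k6)],[(k4,k6),(k1,k8)],[(k3,k6),(k5,k6),(k9,k6)],[(k6,k6),(k2,k8),(k0,k10)],[(k8,
    k6),(k11,k6)],[(k8,k6),(k11,k6)],[(k4,k6),(k1,k8)]]
    [] k0
    [[k0,k1,k1,k1,k0,k0],[k0,k0,k1,k1,k0,k0]]
    [.ref k1 k0 [(z1,[y1,z1])],.ref k0 k0 [(z1,[y1,z1])]])]⟩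

/-- classes `0 0 1 0 2 1`, types `C0 C0 C0 C2 C0 C0` -/
noncomputable def cU6_990 : CertX :=
  ⟨[k4,k4,k20,k6,k36,k20],[(false,k0,[k0,k1,k2,k3,k4,k5])],[[[([z1,z1,z1,z0,z0,z0],z2)],[]]],
    [.old (.leafM k0 [k2,k3,k4,k5,k0,k1] [(z1,[y1,z1])] []),
    .old (.lp [(nat_lit 1584),(nat_lit 2024),(nat_lit 4488),(nat_lit 1380),(nat_lit 1380),(nat_lit 1056)] [(nat_lit 1452),
    (nat_lit 1452),(nat_lit 1232),(nat_lit 1232),k0,k0,(nat_lit 1554),(nat_lit 1554),(nat_lit 1554),(nat_lit 1554),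
    (nat_lit 1716),(nat_lit 1716)] k0 [[k0,k0,k0,k0,k0,k0,k0,(nat_lit 253)],[],[],[],[],[],[k0,
    (nat_lit 253)]] (nat_lit 6072) k6
    [[(k10,(nat_lit 1320)),(k4,(nat_lit 3036))],[(k6,(nat_lit 1229)),(k3,(nat_lit 1804)),(k5,(nat_lit 3036))],[(k0,
    (nat_lit 1804)),(k9,(nat_lit 1955)),(k2,(nat_lit 2024))],[(k6,(nat_lit 1702)),(k3,(nat_lit 2024)),(k5,
    (nat_lit 3256))],[(k9,(nat_lit 2934)),(k0,(nat_lit 3036)),(k2,(nat_lit 3256))],[(k7,(nat_lit 2934)),(k1,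
    (nat_lit 3036))],[(k10,(nat_lit 1218)),(k4,(nat_lit 2934))],[(k0,(nat_lit 1229)),(k9,(nat_lit 1380)),(k2,
    (nat_lit 1702))],[(k6,(nat_lit 1380)),(k3,(nat_lit 1955)),(k5,(nat_lit 2934))],[(k11,(nat_lit 1218))],[(k8,
    (nat_lit 1218))],[(k7,(nat_lit 1218)),(k1,(nat_lit 1320))]]
    [] k0
    [[k0,k2,k0,k0,k0,k0],[k0,k0,k0,k1,k1,k1]]
    [.contra [z1],.ref k0 k0 [(z1,[y1,z1])]])]⟩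

/-- classes `0 0 1 0 2 1`, types `C0 C0 C0 C2 C0 C2` -/
noncomputable def cU6_991 : CertX :=
  ⟨[k4,k4,k20,k6,k36,k22],[(false,k0,[k0,k1,k2,k3,k4,k5])],[[[([z1,z1,z0,z1,z0,z0],z2)],[([z1,z0,z0,z1,z0,z0],z2)],
    []]],
    [.old (.leafM k3 [k1,k2,k3,k4,k5,k0] [(z1,[y1,z1])] []),
    .old (.leafM k2 [k1,k2,k4,k5] [] [(k3,k0,z1,[z1]),(k0,k3,z1,[z1])]),
    .old (.lp [k2,k4,k2,k2,k2,k2] [k1,k1,k0,k0,k1,k1,k1,k1,k1,k1,k1,k1] k0 [] k8 k5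
    [[(k7,k2),(k10,k2)],[(k5,k2),(k6,k2),(k3,k3)],[(k0,k3),(k9,k3),(k2,k4)],[(k5,k3),(k6,k3),(k3,k4)],[(k0,k2),(k9,
    k2),(k2,k3)],[(k7,k2),(k10,k2)],[(k1,k2),(k4,k2)],[(k0,k2),(k9,k2),(k2,k3)],[(k5,k2),(k6,k2),(k3,k3)],[(k11,k2)],
    [(k8,k2)],[(k1,k2),(k4,k2)]]
    [] k0
    [[k1,k0,k0,k1,k0,k0],[k0,k0,k1,k0,k1,k1]]
    [.ref k1 k0 [(z1,[z1])],.ref k0 k0 [(z1,[y1,z1])]])]⟩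

/-- classes `0 0 1 0 2 1`, types `C0 C0 C0 C2 S0 C0` -/
noncomputable def cU6_992 : CertX :=
  ⟨[k4,k4,k20,k6,k32,k20],[(false,k0,[k0,k1,k2,k3,k4,k5])],[[[([z1,z1,z1,z0,z0,z0],z2)],[]]],
    [.old (.leafM k0 [k2,k3,k4,k5,k0,k1] [(z1,[y1,z1])] []),
    .old (.lp [(nat_lit 11880),(nat_lit 10120),(nat_lit 18480),(nat_lit 6072),(nat_lit 6072),
    (nat_lit 6900)] [(nat_lit 3300),(nat_lit 3300),(nat_lit 4180),(nat_lit 4180),k0,k0,(nat_lit 6204),(nat_lit 6204),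
    (nat_lit 6204),(nat_lit 6204),(nat_lit 5790),(nat_lit 5790)] k0 [[k0,k0,k0,k0,k0,k0,k0,(nat_lit 1265)],[],[],[],
    [],[],[k0,(nat_lit 1265)]] (nat_lit 30360) k6
    [[(k10,(nat_lit 9390)),(k4,(nat_lit 15180))],[(k6,(nat_lit 7711)),(k3,(nat_lit 11000)),(k5,(nat_lit 15180))],[(k9,
    (nat_lit 9361)),(k2,(nat_lit 10120)),(k0,(nat_lit 11000))],[(k6,(nat_lit 8096)),(k3,(nat_lit 10120)),(k5,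
    (nat_lit 14300))],[(k9,(nat_lit 12276)),(k2,(nat_lit 14300)),(k0,(nat_lit 15180))],[(k7,(nat_lit 12276)),(k1,
    (nat_lit 15180))],[(k10,(nat_lit 6486)),(k4,(nat_lit 12276))],[(k9,(nat_lit 6072)),(k0,(nat_lit 7711)),(k2,
    (nat_lit 8096))],[(k6,(nat_lit 6072)),(k3,(nat_lit 9361)),(k5,(nat_lit 12276))],[(k8,(nat_lit 6072)),(k11,
    (nat_lit 6486))],[(k8,(nat_lit 6486)),(k11,(nat_lit 6900))],[(k7,(nat_lit 6486)),(k1,(nat_lit 9390))]]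
    [] k0
    [[k0,k2,k0,k0,k0,k0],[k0,k0,k0,k1,k1,k1]]
    [.contra [z1],.ref k0 k0 [(z1,[y1,z1])]])]⟩

/-- classes `0 0 1 0 2 1`, types `C0 C0 C0 C2 S0 C2` -/
noncomputable def cU6_993 : CertX :=
  ⟨[k4,k4,k20,k6,k32,k22],[(false,k0,[k0,k1,k2,k3,k4,k5])],[[[([z1,z1,z0,z1,z0,z0],z2)],[([z1,z0,z0,z1,z0,z0],z2)],
    []]],
    [.old (.leafM k3 [k1,k2,k3,k4,k5,k0] [(z1,[y1,z1])] []),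
    .old (.leafM k2 [k1,k2,k4,k5] [] [(k3,k0,z1,[z1]),(k0,k3,z1,[z1])]),
    .old (.lp [k2,k4,k2,k2,k2,k2] [k1,k1,k0,k0,k1,k1,k1,k1,k1,k1,k1,k1] k0 [] k8 k5
    [[(k7,k2),(k10,k2)],[(k5,k2),(k6,k2),(k3,k3)],[(k0,k3),(k9,k3),(k2,k4)],[(k5,k3),(k6,k3),(k3,k4)],[(k0,k2),(k9,
    k2),(k2,k3)],[(k7,k2),(k10,k2)],[(k1,k2),(k4,k2)],[(k0,k2),(k9,k2),(k2,k3)],[(k5,k2),(k6,k2),(k3,k3)],[(k8,k2),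
    (k11,k2)],[(k8,k2),(k11,k2)],[(k1,k2),(k4,k2)]]
    [] k0
    [[k1,k0,k0,k1,k0,k0],[k0,k0,k1,k0,k1,k1]]
    [.ref k1 k0 [(z1,[z1])],.ref k0 k0 [(z1,[y1,z1])]])]⟩

/-- classes `0 0 1 0 2 1`, types `C0 C0 N0 C0 C0 N1` -/
noncomputable def cU6_994 : CertX :=
  ⟨[k4,k4,k28,k4,k36,k29],[(false,k0,[k0,k1,k2,k3,k4,k5])],[[[([z1,z1,z1,z0,z0,z0],z2)],[]]],
    [.old (.leafM k0 [k2,k3,k4,k5,k0,k1] [(z1,[y1,z1])] []),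
    .old (.lp [(nat_lit 1584),(nat_lit 2024),(nat_lit 4488),(nat_lit 1380),(nat_lit 1380),(nat_lit 1056)] [(nat_lit 1452),
    (nat_lit 1452),(nat_lit 1232),(nat_lit 1232),k0,k0,(nat_lit 1554),(nat_lit 1554),(nat_lit 1554),(nat_lit 1554),
    (nat_lit 1716),(nat_lit 1716)] k0 [[k0,k0,k0,k0,k0,k0,(nat_lit 253)],[],[],[],[],[],[],[k0,
    (nat_lit 253)]] (nat_lit 6072) k6
    [[(k4,(nat_lit 3036))],[(k9,(nat_lit 1229)),(k3,(nat_lit 1804)),(k5,(nat_lit 3036))],[(k0,(nat_lit 1804)),(k6,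
    (nat_lit 1955)),(k2,(nat_lit 2024))],[(k9,(nat_lit 1702)),(k3,(nat_lit 2024)),(k5,(nat_lit 3256))],[(k6,
    (nat_lit 2934)),(k0,(nat_lit 3036)),(k2,(nat_lit 3256))],[(k1,(nat_lit 3036))],[(k10,(nat_lit 1218))],[(k9,
    (nat_lit 1380)),(k3,(nat_lit 1955)),(k5,(nat_lit 2934))],[(k0,(nat_lit 1229)),(k6,(nat_lit 1380)),(k2,
    (nat_lit 1702))],[(k11,(nat_lit 1218))],[(k8,(nat_lit 1218))],[(k7,(nat_lit 1218))]]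
    [] k0
    [[k0,k2,k0,k0,k0,k0],[k0,k0,k0,k1,k1,k1]]
    [.contra [z1],.ref k0 k0 [(z1,[y1,z1])]])]⟩

/-- classes `0 0 1 0 2 1`, types `C0 C0 N0 C0 C0 N2` -/
noncomputable def cU6_995 : CertX :=
  ⟨[k4,k4,k28,k4,k36,k30],[],[[[]]],
    [.old (.lp [k2,k4,k2,k2,k2,k2] [k1,k1,k0,k0,k1,k1,k1,k1,k1,k1,k1,k1] k0 [] k8 k5
    [[(k7,k2)],[(k5,k2),(k9,k2),(k3,k3)],[(k0,k3),(k6,k3),(k2,k4)],[(k5,k3),(k9,k3),(k3,k4)],[(k0,k2),(k6,k2),(k2,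
    k3)],[(k10,k2)],[(k1,k2)],[(k5,k2),(k9,k2),(k3,k3)],[(k0,k2),(k6,k2),(k2,k3)],[(k11,k2)],[(k8,k2)],[(k4,k2)]]
    [] k0
    []
    [])]⟩

/-- classes `0 0 1 0 2 1`, types `C0 C0 N0 C0 S0 N1` -/
noncomputable def cU6_996 : CertX :=
  ⟨[k4,k4,k28,k4,k32,k29],[(false,k0,[k0,k1,k2,k3,k4,k5])],[[[([z1,z1,z1,z0,z0,z0],z2)],[]]],
    [.old (.leafM k0 [k2,k3,k4,k5,k0,k1] [(z1,[y1,z1])] []),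
    .old (.lp [(nat_lit 1802),(nat_lit 2280),(nat_lit 4558),(nat_lit 1272),(nat_lit 1272),(nat_lit 1272)] [(nat_lit 1378),
    (nat_lit 1378),(nat_lit 1139),(nat_lit 1139),k0,k0,(nat_lit 1643),(nat_lit 1643),(nat_lit 1643),(nat_lit 1643),
    (nat_lit 1643),(nat_lit 1643)] k0 [[k0,k0,k0,k0,k0,k0,(nat_lit 265)],[],[],[],[],[],[],[k0,
    (nat_lit 265)]] (nat_lit 6360) k6
    [[(k4,(nat_lit 3180))],[(k9,(nat_lit 1272)),(k3,(nat_lit 2041)),(k5,(nat_lit 3180))],[(k0,(nat_lit 2041)),(k6,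
    (nat_lit 2041)),(k2,(nat_lit 2280))],[(k9,(nat_lit 1776)),(k3,(nat_lit 2280)),(k5,(nat_lit 3419))],[(k6,
    (nat_lit 2915)),(k0,(nat_lit 3180)),(k2,(nat_lit 3419))],[(k1,(nat_lit 3180))],[(k10,(nat_lit 1272))],[(k9,
    (nat_lit 1272)),(k3,(nat_lit 2041)),(k5,(nat_lit 2915))],[(k0,(nat_lit 1272)),(k6,(nat_lit 1272)),(k2,
    (nat_lit 1776))],[(k8,(nat_lit 1272)),(k11,(nat_lit 1272))],[(k8,(nat_lit 1272)),(k11,(nat_lit 1272))],[(k7,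
    (nat_lit 1272))]]
    [] k0
    [[k0,k2,k0,k0,k0,k0],[k0,k0,k0,k1,k1,k1]]
    [.contra [z1],.ref k0 k0 [(z1,[y1,z1])]])]⟩

/-- classes `0 0 1 0 2 1`, types `C0 C0 N0 C0 S0 N2` -/
noncomputable def cU6_997 : CertX :=
  ⟨[k4,k4,k28,k4,k32,k30],[],[[[]]],
    [.old (.lp [k2,k4,k2,k2,k2,k2] [k1,k1,k0,k0,k1,k1,k1,k1,k1,k1,k1,k1] k0 [] k8 k5
    [[(k7,k2)],[(k5,k2),(k9,k2),(k3,k3)],[(k0,k3),(k6,k3),(k2,k4)],[(k5,k3),(k9,k3),(k3,k4)],[(k0,k2),(k6,k2),(k2,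
    k3)],[(k10,k2)],[(k1,k2)],[(k5,k2),(k9,k2),(k3,k3)],[(k0,k2),(k6,k2),(k2,k3)],[(k8,k2),(k11,k2)],[(k8,k2),(k11,
    k2)],[(k4,k2)]]
    [] k0
    []
    [])]⟩

/-- classes `0 0 1 0 2 1`, types `C0 C0 N0 C2 C0 N1` -/
noncomputable def cU6_998 : CertX :=
  ⟨[k4,k4,k28,k6,k36,k29],[(false,k0,[k0,k1,k2,k3,k4,k5])],[[[([z1,z1,z1,z0,z0,z0],z2)],[]]],
    [.old (.leafM k0 [k2,k3,k4,k5,k0,k1] [(z1,[y1,z1])] []),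
    .old (.lp [(nat_lit 1584),(nat_lit 2024),(nat_lit 4488),(nat_lit 1380),(nat_lit 1380),(nat_lit 1056)] [(nat_lit 1452),
    (nat_lit 1452),(nat_lit 1232),(nat_lit 1232),k0,k0,(nat_lit 1554),(nat_lit 1554),(nat_lit 1554),(nat_lit 1554),
    (nat_lit 1716),(nat_lit 1716)] k0 [[k0,k0,k0,k0,k0,k0,k0,(nat_lit 253)],[],[],[],[],[],[k0,
    (nat_lit 253)]] (nat_lit 6072) k6
    [[(k4,(nat_lit 3036))],[(k6,(nat_lit 1229)),(k3,(nat_lit 1804)),(k5,(nat_lit 3036))],[(k0,(nat_lit 1804)),(k9,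
    (nat_lit 1955)),(k2,(nat_lit 2024))],[(k6,(nat_lit 1702)),(k3,(nat_lit 2024)),(k5,(nat_lit 3256))],[(k9,
    (nat_lit 2934)),(k0,(nat_lit 3036)),(k2,(nat_lit 3256))],[(k1,(nat_lit 3036))],[(k10,(nat_lit 1218))],[(k0,
    (nat_lit 1229)),(k9,(nat_lit 1380)),(k2,(nat_lit 1702))],[(k6,(nat_lit 1380)),(k3,(nat_lit 1955)),(k5,
    (nat_lit 2934))],[(k11,(nat_lit 1218))],[(k8,(nat_lit 1218))],[(k7,(nat_lit 1218))]]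
    [] k0
    [[k0,k2,k0,k0,k0,k0],[k0,k0,k0,k1,k1,k1]]
    [.contra [z1],.ref k0 k0 [(z1,[y1,z1])]])]⟩

/-- classes `0 0 1 0 2 1`, types `C0 C0 N0 C2 C0 N2` -/
noncomputable def cU6_999 : CertX :=
  ⟨[k4,k4,k28,k6,k36,k30],[(false,k0,[k0,k1,k2,k3,k4,k5])],[[[([z1,z1,z0,z1,z0,z0],z2)],[([z1,z0,z0,z1,z0,z0],z2)],
    []]],
    [.old (.leafM k3 [k1,k2,k3,k4,k5,k0] [(z1,[y1,z1])] []),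
    .old (.leafM k2 [k1,k2,k4,k5] [] [(k3,k0,z1,[z1]),(k0,k3,z1,[z1])]),
    .old (.lp [k2,k4,k2,k2,k2,k2] [k1,k1,k0,k0,k1,k1,k1,k1,k1,k1,k1,k1] k0 [] k8 k5
    [[(k7,k2)],[(k5,k2),(k6,k2),(k3,k3)],[(k0,k3),(k9,k3),(k2,k4)],[(k5,k3),(k6,k3),(k3,k4)],[(k0,k2),(k9,k2),(k2,
    k3)],[(k10,k2)],[(k1,k2)],[(k0,k2),(k9,k2),(k2,k3)],[(k5,k2),(k6,k2),(k3,k3)],[(k11,k2)],[(k8,k2)],[(k4,k2)]]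
    [] k0
    [[k1,k0,k0,k1,k0,k0],[k0,k0,k1,k0,k1,k1]]
    [.ref k1 k0 [(z1,[z1])],.ref k0 k0 [(z1,[y1,z1])]])]⟩

/-- classes `0 0 1 0 2 1`, types `C0 C0 N0 C2 S0 N1` -/
noncomputable def cU6_1000 : CertX :=
  ⟨[k4,k4,k28,k6,k32,k29],[(false,k0,[k0,k1,k2,k3,k4,k5])],[[[([z1,z1,z1,z0,z0,z0],z2)],[]]],
    [.old (.leafM k0 [k2,k3,k4,k5,k0,k1] [(z1,[y1,z1])] []),
    .old (.lp [(nat_lit 1802),(nat_lit 2280),(nat_lit 4558),(nat_lit 1272),(nat_lit 1272),(nat_lit 1272)] [(nat_lit 1378),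
    (nat_lit 1378),(nat_lit 1139),(nat_lit 1139),k0,k0,(nat_lit 1643),(nat_lit 1643),(nat_lit 1643),(nat_lit 1643),
    (nat_lit 1643),(nat_lit 1643)] k0 [[k0,k0,k0,k0,k0,k0,k0,(nat_lit 265)],[],[],[],[],[],[k0,
    (nat_lit 265)]] (nat_lit 6360) k6
    [[(k4,(nat_lit 3180))],[(k6,(nat_lit 1272)),(k3,(nat_lit 2041)),(k5,(nat_lit 3180))],[(k0,(nat_lit 2041)),(k9,
    (nat_lit 2041)),(k2,(nat_lit 2280))],[(k6,(nat_lit 1776)),(k3,(nat_lit 2280)),(k5,(nat_lit 3419))],[(k9,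
    (nat_lit 2915)),(k0,(nat_lit 3180)),(k2,(nat_lit 3419))],[(k1,(nat_lit 3180))],[(k10,(nat_lit 1272))],[(k0,
    (nat_lit 1272)),(k9,(nat_lit 1272)),(k2,(nat_lit 1776))],[(k6,(nat_lit 1272)),(k3,(nat_lit 2041)),(k5,
    (nat_lit 2915))],[(k8,(nat_lit 1272)),(k11,(nat_lit 1272))],[(k8,(nat_lit 1272)),(k11,(nat_lit 1272))],[(k7,
    (nat_lit 1272))]]
    [] k0
    [[k0,k2,k0,k0,k0,k0],[k0,k0,k0,k1,k1,k1]]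
    [.contra [z1],.ref k0 k0 [(z1,[y1,z1])]])]⟩

/-- classes `0 0 1 0 2 1`, types `C0 C0 N0 C2 S0 N2` -/
noncomputable def cU6_1001 : CertX :=
  ⟨[k4,k4,k28,k6,k32,k30],[(false,k0,[k0,k1,k2,k3,k4,k5])],[[[([z1,z1,z0,z1,z0,z0],z2)],[([z1,z0,z0,z1,z0,z0],z2)],
    []]],
    [.old (.leafM k3 [k1,k2,k3,k4,k5,k0] [(z1,[y1,z1])] []),
    .old (.leafM k2 [k1,k2,k4,k5] [] [(k3,k0,z1,[z1]),(k0,k3,z1,[z1])]),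
    .old (.lp [k2,k4,k2,k2,k2,k2] [k1,k1,k0,k0,k1,k1,k1,k1,k1,k1,k1,k1] k0 [] k8 k5
    [[(k7,k2)],[(k5,k2),(k6,k2),(k3,k3)],[(k0,k3),(k9,k3),(k2,k4)],[(k5,k3),(k6,k3),(k3,k4)],[(k0,k2),(k9,k2),(k2,
    k3)],[(k10,k2)],[(k1,k2)],[(k0,k2),(k9,k2),(k2,k3)],[(k5,k2),(k6,k2),(k3,k3)],[(k8,k2),(k11,k2)],[(k8,k2),(k11,
    k2)],[(k4,k2)]]
    [] k0
    [[k1,k0,k0,k1,k0,k0],[k0,k0,k1,k0,k1,k1]]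
    [.ref k1 k0 [(z1,[z1])],.ref k0 k0 [(z1,[y1,z1])]])]⟩

/-- classes `0 0 1 0 2 1`, types `C0 C0 S0 C0 C0 S0` -/
noncomputable def cU6_1002 : CertX :=
  ⟨[k4,k4,k16,k4,k36,k16],[(false,k0,[k0,k1,k2,k3,k4,k5])],[[[([z1,z1,z1,z0,z0,z0],z2)],[([z1,z0,z0,z0,z1,z1],z2)],
    [([z1,z1,z0,z0,z1,z1],z2)],[]]],
    [.old (.leafM k0 [k2,k3,k4,k5,k0,k1] [(z1,[y1,z1])] []),
    .old (.leafM k0 [k0,k1,k2,k3,k4,k5] [(z1,[y1,z1])] []),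
    .old (.leafM k0 [k0,k1,k4,k5] [] [(k2,k3,z1,[y1,z1]),(k3,k2,z1,[y1,z1])]),
    .old (.lp [k30,k40,k90,k30,k24,k24] [k30,k30,k25,k25,k0,k0,k30,k30,k33,k33,k33,k33] k0 [[k0,k0,k0,k0,k0,k0,k2],[],[],
    [],[],[],[],[k0,k2]] k120 k6
    [[(k10,k27),(k1,k30),(k7,k30),(k4,k60)],[(k9,k25),(k3,k35),(k5,k60)],[(k0,k35),(k6,k37),(k2,k40)],[(k9,k32),(k3,
    k40),(k5,k65)],[(k0,k60),(k6,k60),(k2,k65)],[(k10,k57),(k1,k60),(k7,k60),(k4,k90)],[(k10,k27),(k1,k30),(k7,k30),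
    (k4,k60)],[(k9,k27),(k3,k37),(k5,k60)],[(k0,k25),(k6,k27),(k2,k32)],[(k11,k24)],[(k8,k24)],[(k10,k24),(k1,k27),
    (k7,k27),(k4,k57)]]
    [] k0
    [[k1,k0,k0,k0,k1,k1],[k1,k1,k0,k0,k1,k1],[k0,k2,k0,k0,k0,k0],[k0,k0,k0,k1,k1,k1]]
    [.ref k1 k0 [(z1,[z1])],.ref k2 k0 [(z1,[z1])],.contra [z1],.ref k0 k0 [(z1,[y1,z1])]])]⟩

/-- classes `0 0 1 0 2 1`, types `C0 C0 S0 C0 S0 S0` -/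
noncomputable def cU6_1003 : CertX :=
  ⟨[k4,k4,k16,k4,k32,k16],[(false,k0,[k0,k1,k2,k3,k4,k5])],[[[([z1,z1,z1,z0,z0,z0],z2)],[([z1,z1,z0,z0,z1,z1],z2)],
    [([z1,z0,z0,z0,z1,z1],z2)],[]]],
    [.old (.leafM k0 [k2,k3,k4,k5,k0,k1] [(z1,[y1,z1])] []),
    .old (.leafM k0 [k0,k1,k4,k5] [] [(k2,k3,z1,[y1,z1]),(k3,k2,z1,[y1,z1])]),
    .old (.leafM k0 [k0,k1,k2,k3,k4,k5] [(z1,[y1,z1])] []),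
    .old (.lp [k132,k80,k78,k72,k48,k60] [k0,k0,k26,k26,k27,k27,k42,k18,k42,k42,k36,k36] k0 [[k0,k0,k0,k0,k0,k0,k10],[],
    [],[],[],[k0,k0,k0,k0,k0,k0,k0,k0,k0,k0,k0,k30],[],[k0,k10],[],[],[k0,k0,k0,k0,k30]] (nat_lit 240) k6
    [[(k10,k96),(k7,k114),(k1,k132),(k4,k135)],[(k9,k80),(k5,k105),(k3,k106)],[(k6,k74),(k2,k80),(k0,k106)],[(k9,k64),
    (k5,k79),(k3,k80)],[(k6,k63),(k2,k79),(k0,k105)],[(k10,k69),(k4,k78),(k7,k87),(k1,k135)],[(k10,k48),(k4,k87),(k7,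
    k96),(k1,k114)],[(k9,k48),(k5,k63),(k3,k74)],[(k6,k48),(k2,k64),(k0,k80)],[(k8,k48),(k11,k54)],[(k8,k54),(k11,
    k60)],[(k7,k48),(k10,k60),(k4,k69),(k1,k96)]]
    [] k0
    [[k1,k0,k0,k0,k1,k1],[k0,k2,k0,k0,k0,k0],[k0,k0,k1,k1,k0,k0],[k0,k0,k0,k1,k1,k1],[k0,k0,k0,k0,k0,k2]]
    [.ref k2 k0 [(z1,[z1])],.contra [z1],.ref k1 k0 [(z1,[y1,z1])],.ref k0 k0 [(z1,[y1,z1])],.contra [z1]])]⟩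

/-- classes `0 0 1 0 2 1`, types `C0 C0 S0 C2 C0 S0` -/
noncomputable def cU6_1004 : CertX :=
  ⟨[k4,k4,k16,k6,k36,k16],[(false,k0,[k0,k1,k2,k3,k4,k5])],[[[([z1,z1,z1,z0,z0,z0],z2)],[([z1,z1,z0,z1,z0,z0],z2)],
    [([z1,z0,z0,z1,z0,z0],z2)],[]]],
    [.old (.leafM k0 [k2,k3,k4,k5,k0,k1] [(z1,[y1,z1])] []),
    .old (.leafM k3 [k1,k2,k3,k4,k5,k0] [(z1,[y1,z1])] []),
    .old (.leafM k2 [k1,k2,k4,k5] [] [(k3,k0,z1,[z1]),(k0,k3,z1,[z1])]),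
    .old (.lp [k96,k40,k24,k26,k28,k24] [k0,k0,k28,k28,k36,k36,k35,k35,k34,k34,k36,k36] k0 [[k0,k0,k0,k0,k0,k0,k0,k2],[],
    [],[],[],[],[k0,k2]] k120 k6
    [[(k4,k60),(k10,k60),(k7,k61),(k1,k96)],[(k6,k59),(k5,k60),(k3,k68)],[(k9,k36),(k2,k40),(k0,k68)],[(k5,k32),(k6,
    k33),(k3,k40)],[(k9,k26),(k2,k32),(k0,k60)],[(k4,k24),(k10,k24),(k7,k25),(k1,k60)],[(k4,k25),(k10,k25),(k7,k26),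
    (k1,k61)],[(k9,k27),(k2,k33),(k0,k59)],[(k5,k26),(k6,k27),(k3,k36)],[(k11,k26)],[(k8,k26)],[(k4,k24),(k10,k24),
    (k7,k25),(k1,k60)]]
    [] k0
    [[k0,k2,k0,k0,k0,k0],[k0,k1,k1,k0,k1,k1],[k0,k0,k1,k0,k1,k1],[k0,k0,k0,k1,k1,k1]]
    [.contra [z1],.ref k2 k0 [(z1,[y1,z1])],.ref k1 k0 [(z1,[y1,z1])],.ref k0 k0 [(z1,[y1,z1])]])]⟩

/-- classes `0 0 1 0 2 1`, types `C0 C0 S0 C2 S0 S0` -/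
noncomputable def cU6_1005 : CertX :=
  ⟨[k4,k4,k16,k6,k32,k16],[(false,k0,[k0,k1,k2,k3,k4,k5])],[[[([z1,z1,z1,z0,z0,z0],z2)],[([z1,z1,z0,z1,z0,z0],z2)],
    [([z1,z0,z0,z1,z0,z0],z2)],[]]],
    [.old (.leafM k0 [k2,k3,k4,k5,k0,k1] [(z1,[y1,z1])] []),
    .old (.leafM k3 [k1,k2,k3,k4,k5,k0] [(z1,[y1,z1])] []),
    .old (.leafM k2 [k1,k2,k4,k5] [] [(k3,k0,z1,[z1]),(k0,k3,z1,[z1])]),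
    .old (.lp [k56,k40,k38,k36,k24,k44] [k4,k4,k12,k12,k11,k15,k14,k14,k20,k20,k0,k20] k0 [[],[],[],[k0,k0,k0,k0,k0,k0,
    k2],[k0,k0,k0,k0,k0,k0,k0,k0,k0,k0,k0,k28],[k0,k0,k0,k0,k0,k0,k0,k0,k0,k0,k0,k26],[],[k0,k0,k2],[],[],[k0,k0,k0,
    k0,k26,k28],[k0,k0,k0,k0,k0,k0,k0,k0,k0,k0,k32]] k120 k6
    [[(k1,k24),(k10,k60),(k7,k74),(k4,k75)],[(k5,k45),(k6,k46),(k3,k48)],[(k9,k32),(k2,k40),(k0,k48)],[(k5,k37),(k3,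
    k40),(k6,k40)],[(k9,k27),(k2,k37),(k0,k45)],[(k10,k25),(k7,k39),(k4,k42),(k1,k75)],[(k10,k24),(k7,k36),(k4,k39),
    (k1,k74)],[(k9,k30),(k2,k40),(k0,k46)],[(k5,k27),(k6,k30),(k3,k32)],[(k8,k24),(k11,k24)],[(k8,k24),(k11,k24)],
    [(k7,k24),(k4,k25),(k1,k60),(k10,k96)]]
    [] k0
    [[k0,k2,k0,k0,k0,k0],[k0,k1,k1,k0,k1,k1],[k0,k0,k1,k0,k1,k1],[k0,k0,k0,k1,k1,k1]]
    [.contra [z1],.ref k2 k0 [(z1,[y1,z1])],.ref k1 k0 [(z1,[y1,z1])],.ref k0 k0 [(z1,[y1,z1])]])]⟩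

/-- classes `0 0 1 0 2 1`, types `C0 C2 B0 C0 C0 B1` -/
noncomputable def cU6_1006 : CertX :=
  ⟨[k4,k6,k24,k4,k36,k25],[(false,k0,[k0,k1,k2,k3,k4,k5])],[[[([z1,z1,z1,z0,z0,z0],z2)],[([z1,z1,z0,z1,z0,z0],z2)],
    []]],
    [.old (.leafM k0 [k2,k3,k4,k5,k0,k1] [(z1,[y1,z1])] []),
    .old (.leafM k3 [k1,k2,k3,k4,k5,k0] [(z1,[y1,z1])] []),
    .old (.lp [k2,k4,k2,k2,k2,k2] [k1,k1,k0,k0,k1,k1,k1,k1,k1,k1,k1,k1] k0 [] k8 k5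
    [[(k4,k2),(k7,k2)],[(k9,k2),(k2,k3),(k3,k3)],[(k0,k3),(k5,k3),(k6,k3)],[(k0,k3),(k5,k3),(k6,k3)],[(k9,k2),(k2,k3),
    (k3,k3)],[(k1,k2),(k10,k2)],[(k1,k2),(k10,k2)],[(k9,k2),(k2,k3),(k3,k3)],[(k0,k2),(k5,k2),(k6,k2)],[(k11,k2)],
    [(k8,k2)],[(k4,k2),(k7,k2)]]
    [] k0
    [[k0,k0,k1,k0,k1,k1],[k0,k0,k0,k1,k1,k1]]
    [.ref k1 k0 [(z1,[y1,z1])],.ref k0 k0 [(z1,[y1,z1])]])]⟩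

/-- classes `0 0 1 0 2 1`, types `C0 C2 B0 C0 S0 B1` -/
noncomputable def cU6_1007 : CertX :=
  ⟨[k4,k6,k24,k4,k32,k25],[(false,k0,[k0,k1,k2,k3,k4,k5])],[[[([z1,z1,z0,z1,z0,z0],z2)],[([z1,z1,z1,z0,z0,z0],z2)],
    []]],
    [.old (.leafM k3 [k1,k2,k3,k4,k5,k0] [(z1,[y1,z1])] []),
    .old (.leafM k0 [k2,k3,k4,k5,k0,k1] [(z1,[y1,z1])] []),
    .old (.lp [k2,k2,k2,k2,k2,k4] [k1,k1,k1,k1,k1,k1,k1,k1,k1,k1,k0,k0] k0 [] k8 k5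
    [[(k4,k2),(k7,k2)],[(k2,k2),(k3,k2),(k9,k2)],[(k0,k2),(k5,k2),(k6,k2)],[(k0,k2),(k5,k2),(k6,k2)],[(k2,k2),(k3,k2),
    (k9,k2)],[(k1,k2),(k10,k3)],[(k1,k2),(k10,k3)],[(k2,k2),(k3,k2),(k9,k2)],[(k0,k2),(k5,k2),(k6,k2)],[(k8,k2),(k11,
    k3)],[(k8,k3),(k11,k4)],[(k4,k3),(k7,k3)]]
    [] k0
    [[k1,k1,k1,k0,k0,k0],[k1,k1,k0,k1,k0,k0]]
    [.ref k1 k0 [(z1,[z1])],.ref k0 k0 [(z1,[z1])]])]⟩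

/-- classes `0 0 1 0 2 1`, types `C0 C2 B0 C2 C0 B1` -/
noncomputable def cU6_1008 : CertX :=
  ⟨[k4,k6,k24,k6,k36,k25],[(false,k0,[k0,k1,k2,k3,k4,k5])],[[[([z1,z0,z0,z1,z0,z0],z2)],[([z1,z1,z1,z0,z0,z0],z2)],
    []]],
    [.old (.leafM k2 [k1,k2,k4,k5] [] [(k3,k0,z1,[z1]),(k0,k3,z1,[z1])]),
    .old (.leafM k0 [k2,k3,k4,k5,k0,k1] [(z1,[y1,z1])] []),
    .old (.lp [k2,k2,k2,k2,k2,k4] [k1,k1,k1,k1,k1,k1,k1,k1,k1,k1,k0,k0] k0 [] k8 k5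
    [[(k4,k2),(k7,k2)],[(k2,k2),(k3,k2),(k6,k2)],[(k0,k2),(k5,k2),(k9,k2)],[(k0,k2),(k5,k2),(k9,k2)],[(k2,k2),(k3,k2),
    (k6,k2)],[(k1,k2),(k10,k3)],[(k1,k2),(k10,k3)],[(k0,k2),(k5,k2),(k9,k2)],[(k2,k2),(k3,k2),(k6,k2)],[(k11,k3)],
    [(k8,k3)],[(k4,k3),(k7,k3)]]
    [] k0
    [[k1,k1,k1,k0,k0,k0],[k1,k0,k0,k1,k0,k0]]
    [.ref k1 k0 [(z1,[z1])],.ref k0 k0 [(z1,[z1])]])]⟩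

/-- classes `0 0 1 0 2 1`, types `C0 C2 B0 C2 S0 B1` -/
noncomputable def cU6_1009 : CertX :=
  ⟨[k4,k6,k24,k6,k32,k25],[(false,k0,[k0,k1,k2,k3,k4,k5])],[[[([z1,z1,z1,z0,z0,z0],z2)],[([z1,z0,z0,z1,z0,z0],z2)],
    []]],
    [.old (.leafM k0 [k2,k3,k4,k5,k0,k1] [(z1,[y1,z1])] []),
    .old (.leafM k2 [k1,k2,k4,k5] [] [(k3,k0,z1,[z1]),(k0,k3,z1,[z1])]),
    .old (.lp [k2,k4,k2,k2,k2,k2] [k1,k1,k0,k0,k1,k1,k1,k1,k1,k1,k1,k1] k0 [] k8 k5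
    [[(k4,k2),(k7,k2)],[(k6,k2),(k2,k3),(k3,k3)],[(k0,k3),(k5,k3),(k9,k3)],[(k0,k3),(k5,k3),(k9,k3)],[(k6,k2),(k2,k3),
    (k3,k3)],[(k1,k2),(k10,k2)],[(k1,k2),(k10,k2)],[(k0,k2),(k5,k2),(k9,k2)],[(k6,k2),(k2,k3),(k3,k3)],[(k8,k2),(k11,
    k2)],[(k8,k2),(k11,k2)],[(k4,k2),(k7,k2)]]
    [] k0
    [[k1,k0,k0,k1,k0,k0],[k0,k0,k0,k1,k1,k1]]
    [.ref k1 k0 [(z1,[z1])],.ref k0 k0 [(z1,[y1,z1])]])]⟩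

/-- classes `0 0 1 0 2 1`, types `C0 C2 C0 C0 C0 C0` -/
noncomputable def cU6_1010 : CertX :=
  ⟨[k4,k6,k20,k4,k36,k20],[(false,k0,[k0,k1,k2,k3,k4,k5])],[[[([z1,z0,z0,z0,z1,z1],z2)],[([z1,z1,z1,z0,z0,z0],z2)],
    []]],
    [.old (.leafM k0 [k0,k1,k2,k3,k4,k5] [(z1,[y1,z1])] []),
    .old (.leafM k0 [k2,k3,k4,k5,k0,k1] [(z1,[y1,z1])] []),
    .old (.lp [k2,k2,k2,k4,k2,k2] [k1,k1,k1,k1,k1,k1,k0,k0,k1,k1,k1,k1] k0 [] k8 k5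
    [[(k4,k2),(k10,k2)],[(k2,k2),(k3,k2),(k9,k2)],[(k0,k2),(k5,k2),(k6,k3)],[(k0,k2),(k5,k2),(k6,k3)],[(k2,k2),(k3,
    k2),(k9,k2)],[(k1,k2),(k7,k3)],[(k4,k3),(k10,k3)],[(k2,k3),(k3,k3),(k9,k3)],[(k0,k2),(k5,k2),(k6,k3)],[(k11,k2)],
    [(k8,k2)],[(k1,k2),(k7,k3)]]
    [] k0
    [[k1,k1,k1,k0,k0,k0],[k1,k0,k0,k0,k1,k1]]
    [.ref k1 k0 [(z1,[z1])],.ref k0 k0 [(z1,[z1])]])]⟩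

/-- classes `0 0 1 0 2 1`, types `C0 C2 C0 C0 C0 C2` -/
noncomputable def cU6_1011 : CertX :=
  ⟨[k4,k6,k20,k4,k36,k22],[(false,k0,[k0,k1,k2,k3,k4,k5])],[[[([z1,z1,z0,z1,z0,z0],z2)],[([z1,z0,z0,z0,z1,z1],z2)],
    []]],
    [.old (.leafM k3 [k1,k2,k3,k4,k5,k0] [(z1,[y1,z1])] []),
    .old (.leafM k0 [k0,k1,k2,k3,k4,k5] [(z1,[y1,z1])] []),
    .old (.lp [k2,k2,k2,k4,k2,k2] [k1,k1,k1,k1,k1,k1,k0,k0,k1,k1,k1,k1] k0 [] k8 k5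
    [[(k10,k2),(k7,k3)],[(k2,k2),(k3,k2),(k9,k2)],[(k0,k2),(k5,k2),(k6,k3)],[(k0,k2),(k5,k2),(k6,k3)],[(k2,k2),(k3,
    k2),(k9,k2)],[(k10,k2),(k7,k3)],[(k1,k3),(k4,k3)],[(k2,k3),(k3,k3),(k9,k3)],[(k0,k2),(k5,k2),(k6,k3)],[(k11,k2)],
    [(k8,k2)],[(k1,k2),(k4,k2)]]
    [] k0
    [[k1,k0,k0,k0,k1,k1],[k0,k0,k1,k0,k1,k1]]
    [.ref k1 k0 [(z1,[z1])],.ref k0 k0 [(z1,[y1,z1])]])]⟩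

/-- classes `0 0 1 0 2 1`, types `C0 C2 C0 C0 S0 C0` -/
noncomputable def cU6_1012 : CertX :=
  ⟨[k4,k6,k20,k4,k32,k20],[(false,k0,[k0,k1,k2,k3,k4,k5])],[[[([z1,z1,z1,z0,z0,z0],z2)],[([z1,z0,z0,z0,z1,z1],z2)],
    []]],
    [.old (.leafM k0 [k2,k3,k4,k5,k0,k1] [(z1,[y1,z1])] []),
    .old (.leafM k0 [k0,k1,k2,k3,k4,k5] [(z1,[y1,z1])] []),
    .old (.lp [k2,k4,k2,k2,k2,k2] [k1,k1,k0,k0,k1,k1,k1,k1,k1,k1,k1,k1] k0 [] k8 k5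
    [[(k4,k2),(k10,k2)],[(k9,k2),(k2,k3),(k3,k3)],[(k0,k3),(k5,k3),(k6,k3)],[(k0,k3),(k5,k3),(k6,k3)],[(k9,k2),(k2,
    k3),(k3,k3)],[(k1,k2),(k7,k2)],[(k4,k2),(k10,k2)],[(k9,k2),(k2,k3),(k3,k3)],[(k0,k2),(k5,k2),(k6,k2)],[(k8,k2),
    (k11,k2)],[(k8,k2),(k11,k2)],[(k1,k2),(k7,k2)]]
    [] k0
    [[k1,k0,k0,k0,k1,k1],[k0,k0,k0,k1,k1,k1]]
    [.ref k1 k0 [(z1,[z1])],.ref k0 k0 [(z1,[y1,z1])]])]⟩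

/-- classes `0 0 1 0 2 1`, types `C0 C2 C0 C0 S0 C2` -/
noncomputable def cU6_1013 : CertX :=
  ⟨[k4,k6,k20,k4,k32,k22],[(false,k0,[k0,k1,k2,k3,k4,k5])],[[[([z1,z1,z0,z1,z0,z0],z2)],[([z1,z0,z0,z0,z1,z1],z2)],
    []]],
    [.old (.leafM k3 [k1,k2,k3,k4,k5,k0] [(z1,[y1,z1])] []),
    .old (.leafM k0 [k0,k1,k2,k3,k4,k5] [(z1,[y1,z1])] []),
    .old (.lp [k2,k4,k2,k2,k2,k2] [k1,k1,k0,k0,k1,k1,k1,k1,k1,k1,k1,k1] k0 [] k8 k5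
    [[(k7,k2),(k10,k2)],[(k9,k2),(k2,k3),(k3,k3)],[(k0,k3),(k5,k3),(k6,k3)],[(k0,k3),(k5,k3),(k6,k3)],[(k9,k2),(k2,
    k3),(k3,k3)],[(k7,k2),(k10,k2)],[(k1,k2),(k4,k2)],[(k9,k2),(k2,k3),(k3,k3)],[(k0,k2),(k5,k2),(k6,k2)],[(k8,k2),
    (k11,k2)],[(k8,k2),(k11,k2)],[(k1,k2),(k4,k2)]]
    [] k0
    [[k1,k0,k0,k0,k1,k1],[k0,k0,k1,k0,k1,k1]]
    [.ref k1 k0 [(z1,[z1])],.ref k0 k0 [(z1,[y1,z1])]])]⟩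

/-- classes `0 0 1 0 2 1`, types `C0 C2 C0 C2 C0 C0` -/
noncomputable def cU6_1014 : CertX :=
  ⟨[k4,k6,k20,k6,k36,k20],[(false,k0,[k0,k1,k2,k3,k4,k5])],[[[([z1,z1,z1,z0,z0,z0],z2)],[([z1,z1,z0,z0,z1,z1],z2)],
    []]],
    [.old (.leafM k0 [k2,k3,k4,k5,k0,k1] [(z1,[y1,z1])] []),
    .old (.leafM k0 [k0,k1,k4,k5] [] [(k2,k3,z1,[y1,z1]),(k3,k2,z1,[y1,z1])]),
    .old (.lp [k2,k2,k4,k2,k2,k2] [k1,k1,k1,k1,k0,k0,k1,k1,k1,k1,k1,k1] k0 [] k8 k5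
    [[(k10,k2),(k4,k3)],[(k2,k2),(k3,k2),(k6,k2)],[(k0,k2),(k9,k2),(k5,k3)],[(k0,k2),(k9,k2),(k5,k3)],[(k2,k3),(k3,
    k3),(k6,k3)],[(k1,k3),(k7,k3)],[(k10,k2),(k4,k3)],[(k0,k2),(k9,k2),(k5,k3)],[(k2,k2),(k3,k2),(k6,k2)],[(k11,k2)],
    [(k8,k2)],[(k1,k2),(k7,k2)]]
    [] k0
    [[k0,k0,k1,k1,k0,k0],[k0,k0,k0,k1,k1,k1]]
    [.ref k1 k0 [(z1,[y1,z1])],.ref k0 k0 [(z1,[y1,z1])]])]⟩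

/-- classes `0 0 1 0 2 1`, types `C0 C2 C0 C2 C0 C2` -/
noncomputable def cU6_1015 : CertX :=
  ⟨[k4,k6,k20,k6,k36,k22],[(false,k0,[k0,k1,k2,k3,k4,k5])],[[[([z1,z1,z0,z0,z1,z1],z2)],[([z1,z0,z0,z1,z0,z0],z2)],
    []]],
    [.old (.leafM k0 [k0,k1,k4,k5] [] [(k2,k3,z1,[y1,z1]),(k3,k2,z1,[y1,z1])]),
    .old (.leafM k2 [k1,k2,k4,k5] [] [(k3,k0,z1,[z1]),(k0,k3,z1,[z1])]),
    .old (.lp [k0,k2,k0,k2,k0,k2] [k1,k1,k0,k0,k1,k1,k0,k0,k1,k1,k0,k0] k0 [] k4 k5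
    [[(k7,k1),(k10,k1)],[(k2,k1),(k3,k1),(k6,k1)],[(k0,k1),(k5,k1),(k9,k1)],[(k0,k1),(k5,k1),(k9,k1)],[(k2,k1),(k3,
    k1),(k6,k1)],[(k7,k1),(k10,k1)],[(k1,k1),(k4,k1)],[(k0,k1),(k5,k1),(k9,k1)],[(k2,k1),(k3,k1),(k6,k1)],[(k11,k1)],
    [(k8,k1)],[(k1,k1),(k4,k1)]]
    [] k0
    [[k1,k0,k0,k1,k0,k0],[k0,k0,k1,k1,k0,k0]]
    [.ref k1 k0 [(z1,[z1])],.ref k0 k0 [(z1,[y1,z1])]])]⟩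

/-- classes `0 0 1 0 2 1`, types `C0 C2 C0 C2 S0 C0` -/
noncomputable def cU6_1016 : CertX :=
  ⟨[k4,k6,k20,k6,k32,k20],[(false,k0,[k0,k1,k2,k3,k4,k5])],[[[([z1,z1,z0,z0,z1,z1],z2)],[([z1,z1,z1,z0,z0,z0],z2)],
    []]],
    [.old (.leafM k0 [k0,k1,k4,k5] [] [(k2,k3,z1,[y1,z1]),(k3,k2,z1,[y1,z1])]),
    .old (.leafM k0 [k2,k3,k4,k5,k0,k1] [(z1,[y1,z1])] []),
    .old (.lp [k4,k4,k4,k4,k6,k6] [k1,k1,k1,k1,k1,k1,k1,k1,k0,k0,k0,k0] k0 [] k16 k5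
    [[(k4,k4),(k10,k5)],[(k2,k4),(k3,k4),(k6,k4)],[(k0,k4),(k5,k4),(k9,k5)],[(k0,k4),(k5,k4),(k9,k5)],[(k2,k4),(k3,
    k4),(k6,k4)],[(k1,k4),(k7,k4)],[(k4,k4),(k10,k5)],[(k0,k4),(k5,k4),(k9,k5)],[(k2,k5),(k3,k5),(k6,k5)],[(k8,k6),
    (k11,k6)],[(k8,k6),(k11,k6)],[(k1,k5),(k7,k5)]]
    [] k0
    [[k1,k1,k1,k0,k0,k0],[k0,k0,k1,k1,k0,k0]]
    [.ref k1 k0 [(z1,[z1])],.ref k0 k0 [(z1,[y1,z1])]])]⟩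

/-- classes `0 0 1 0 2 1`, types `C0 C2 C0 C2 S0 C2` -/
noncomputable def cU6_1017 : CertX :=
  ⟨[k4,k6,k20,k6,k32,k22],[(false,k0,[k0,k1,k2,k3,k4,k5])],[[[([z1,z1,z0,z0,z1,z1],z2)],[([z1,z0,z0,z1,z0,z0],z2)],
    []]],
    [.old (.leafM k0 [k0,k1,k4,k5] [] [(k2,k3,z1,[y1,z1]),(k3,k2,z1,[y1,z1])]),
    .old (.leafM k2 [k1,k2,k4,k5] [] [(k3,k0,z1,[z1]),(k0,k3,z1,[z1])]),
    .old (.lp [k4,k4,k4,k4,k6,k4] [k1,k1,k1,k1,k1,k1,k1,k1,k0,k0,k1,k1] k0 [] k16 k5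
    [[(k7,k4),(k10,k4)],[(k2,k4),(k3,k4),(k6,k4)],[(k0,k4),(k5,k4),(k9,k5)],[(k0,k4),(k5,k4),(k9,k5)],[(k2,k4),(k3,
    k4),(k6,k4)],[(k7,k4),(k10,k4)],[(k1,k4),(k4,k4)],[(k0,k4),(k5,k4),(k9,k5)],[(k2,k5),(k3,k5),(k6,k5)],[(k11,k5),
    (k8,k6)],[(k11,k4),(k8,k5)],[(k1,k4),(k4,k4)]]
    [] k0
    [[k1,k0,k0,k1,k0,k0],[k0,k0,k1,k1,k0,k0]]
    [.ref k1 k0 [(z1,[z1])],.ref k0 k0 [(z1,[y1,z1])]])]⟩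

/-- classes `0 0 1 0 2 1`, types `C0 C2 N0 C0 C0 N1` -/
noncomputable def cU6_1018 : CertX :=
  ⟨[k4,k6,k28,k4,k36,k29],[(false,k0,[k0,k1,k2,k3,k4,k5])],[[[([z1,z1,z1,z0,z0,z0],z2)],[]]],
    [.old (.leafM k0 [k2,k3,k4,k5,k0,k1] [(z1,[y1,z1])] []),
    .old (.lp [k2,k2,k4,k2,k2,k2] [k1,k1,k1,k1,k0,k0,k1,k1,k1,k1,k1,k1] k0 [] k8 k5
    [[(k4,k3)],[(k2,k2),(k3,k2),(k9,k2)],[(k0,k2),(k6,k2),(k5,k3)],[(k0,k2),(k6,k2),(k5,k3)],[(k2,k3),(k3,k3),(k9,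
    k3)],[(k1,k3)],[(k10,k2)],[(k2,k2),(k3,k2),(k9,k2)],[(k0,k2),(k6,k2),(k5,k3)],[(k11,k2)],[(k8,k2)],[(k7,k2)]]
    [] k0
    [[k0,k0,k0,k1,k1,k1]]
    [.ref k0 k0 [(z1,[y1,z1])]])]⟩

/-- classes `0 0 1 0 2 1`, types `C0 C2 N0 C0 C0 N2` -/
noncomputable def cU6_1019 : CertX :=
  ⟨[k4,k6,k28,k4,k36,k30],[(false,k0,[k0,k1,k2,k3,k4,k5])],[[[([z1,z1,z0,z1,z0,z0],z2)],[]]],
    [.old (.leafM k3 [k1,k2,k3,k4,k5,k0] [(z1,[y1,z1])] []),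
    .old (.lp [k2,k2,k2,k4,k2,k2] [k1,k1,k1,k1,k1,k1,k0,k0,k1,k1,k1,k1] k0 [] k8 k5
    [[(k7,k3)],[(k2,k2),(k3,k2),(k9,k2)],[(k0,k2),(k5,k2),(k6,k3)],[(k0,k2),(k5,k2),(k6,k3)],[(k2,k2),(k3,k2),(k9,
    k2)],[(k10,k2)],[(k1,k3)],[(k2,k3),(k3,k3),(k9,k3)],[(k0,k2),(k5,k2),(k6,k3)],[(k11,k2)],[(k8,k2)],[(k4,k2)]]
    [] k0
    [[k0,k0,k1,k0,k1,k1]]
    [.ref k0 k0 [(z1,[y1,z1])]])]⟩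

/-- classes `0 0 1 0 2 1`, types `C0 C2 N0 C0 S0 N1` -/
noncomputable def cU6_1020 : CertX :=
  ⟨[k4,k6,k28,k4,k32,k29],[(false,k0,[k0,k1,k2,k3,k4,k5])],[[[([z1,z1,z1,z0,z0,z0],z2)],[]]],
    [.old (.leafM k0 [k2,k3,k4,k5,k0,k1] [(z1,[y1,z1])] []),
    .old (.lp [k2,k2,k2,k2,k2,k4] [k1,k1,k1,k1,k1,k1,k1,k1,k1,k1,k0,k0] k0 [] k8 k5
    [[(k4,k2)],[(k2,k2),(k3,k2),(k9,k2)],[(k0,k2),(k5,k2),(k6,k2)],[(k0,k2),(k5,k2),(k6,k2)],[(k2,k2),(k3,k2),(k9,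
    k2)],[(k1,k2)],[(k10,k3)],[(k2,k2),(k3,k2),(k9,k2)],[(k0,k2),(k5,k2),(k6,k2)],[(k8,k2),(k11,k3)],[(k8,k3),(k11,
    k4)],[(k7,k3)]]
    [] k0
    [[k1,k1,k1,k0,k0,k0]]
    [.ref k0 k0 [(z1,[z1])]])]⟩

/-- classes `0 0 1 0 2 1`, types `C0 C2 N0 C0 S0 N2` -/
noncomputable def cU6_1021 : CertX :=
  ⟨[k4,k6,k28,k4,k32,k30],[(false,k0,[k0,k1,k2,k3,k4,k5])],[[[([z1,z1,z0,z1,z0,z0],z2)],[]]],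
    [.old (.leafM k3 [k1,k2,k3,k4,k5,k0] [(z1,[y1,z1])] []),
    .old (.lp [k2,k2,k2,k2,k2,k4] [k1,k1,k1,k1,k1,k1,k1,k1,k1,k1,k0,k0] k0 [] k8 k5
    [[(k7,k2)],[(k2,k2),(k3,k2),(k9,k2)],[(k0,k2),(k5,k2),(k6,k2)],[(k0,k2),(k5,k2),(k6,k2)],[(k2,k2),(k3,k2),(k9,
    k2)],[(k10,k3)],[(k1,k2)],[(k2,k2),(k3,k2),(k9,k2)],[(k0,k2),(k5,k2),(k6,k2)],[(k8,k2),(k11,k3)],[(k8,k3),(k11,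
    k4)],[(k4,k3)]]
    [] k0
    [[k1,k1,k0,k1,k0,k0]]
    [.ref k0 k0 [(z1,[z1])]])]⟩

/-- classes `0 0 1 0 2 1`, types `C0 C2 N0 C2 C0 N1` -/
noncomputable def cU6_1022 : CertX :=
  ⟨[k4,k6,k28,k6,k36,k29],[(false,k0,[k0,k1,k2,k3,k4,k5])],[[[([z1,z1,z1,z0,z0,z0],z2)],[]]],
    [.old (.leafM k0 [k2,k3,k4,k5,k0,k1] [(z1,[y1,z1])] []),
    .old (.lp [k2,k2,k4,k2,k2,k2] [k1,k1,k1,k1,k0,k0,k1,k1,k1,k1,k1,k1] k0 [] k8 k5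
    [[(k4,k3)],[(k2,k2),(k3,k2),(k6,k2)],[(k0,k2),(k9,k2),(k5,k3)],[(k0,k2),(k9,k2),(k5,k3)],[(k2,k3),(k3,k3),(k6,
    k3)],[(k1,k3)],[(k10,k2)],[(k0,k2),(k9,k2),(k5,k3)],[(k2,k2),(k3,k2),(k6,k2)],[(k11,k2)],[(k8,k2)],[(k7,k2)]]
    [] k0
    [[k0,k0,k0,k1,k1,k1]]
    [.ref k0 k0 [(z1,[y1,z1])]])]⟩

/-- classes `0 0 1 0 2 1`, types `C0 C2 N0 C2 C0 N2` -/
noncomputable def cU6_1023 : CertX :=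
  ⟨[k4,k6,k28,k6,k36,k30],[(false,k0,[k0,k1,k2,k3,k4,k5])],[[[([z1,z0,z0,z1,z0,z0],z2)],[]]],
    [.old (.leafM k2 [k1,k2,k4,k5] [] [(k3,k0,z1,[z1]),(k0,k3,z1,[z1])]),
    .old (.lp [k0,k2,k0,k2,k0,k2] [k1,k1,k0,k0,k1,k1,k0,k0,k1,k1,k0,k0] k0 [] k4 k5
    [[(k7,k1)],[(k2,k1),(k3,k1),(k6,k1)],[(k0,k1),(k5,k1),(k9,k1)],[(k0,k1),(k5,k1),(k9,k1)],[(k2,k1),(k3,k1),(k6,
    k1)],[(k10,k1)],[(k1,k1)],[(k0,k1),(k5,k1),(k9,k1)],[(k2,k1),(k3,k1),(k6,k1)],[(k11,k1)],[(k8,k1)],[(k4,k1)]]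
    [] k0
    [[k1,k0,k0,k1,k0,k0]]
    [.ref k0 k0 [(z1,[z1])]])]⟩

/-- classes `0 0 1 0 2 1`, types `C0 C2 N0 C2 S0 N1` -/
noncomputable def cU6_1024 : CertX :=
  ⟨[k4,k6,k28,k6,k32,k29],[(false,k0,[k0,k1,k2,k3,k4,k5])],[[[([z1,z1,z1,z0,z0,z0],z2)],[]]],
    [.old (.leafM k0 [k2,k3,k4,k5,k0,k1] [(z1,[y1,z1])] []),
    .old (.lp [k4,k4,k4,k4,k6,k6] [k1,k1,k1,k1,k1,k1,k1,k1,k0,k0,k0,k0] k0 [] k16 k5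
    [[(k4,k4)],[(k2,k4),(k3,k4),(k6,k4)],[(k0,k4),(k5,k4),(k9,k5)],[(k0,k4),(k5,k4),(k9,k5)],[(k2,k4),(k3,k4),(k6,
    k4)],[(k1,k4)],[(k10,k5)],[(k0,k4),(k5,k4),(k9,k5)],[(k2,k5),(k3,k5),(k6,k5)],[(k8,k6),(k11,k6)],[(k8,k6),(k11,
    k6)],[(k7,k5)]]
    [] k0
    [[k1,k1,k1,k0,k0,k0]]
    [.ref k0 k0 [(z1,[z1])]])]⟩

/-- classes `0 0 1 0 2 1`, types `C0 C2 N0 C2 S0 N2` -/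
noncomputable def cU6_1025 : CertX :=
  ⟨[k4,k6,k28,k6,k32,k30],[(false,k0,[k0,k1,k2,k3,k4,k5])],[[[([z1,z0,z0,z1,z0,z0],z2)],[]]],
    [.old (.leafM k2 [k1,k2,k4,k5] [] [(k3,k0,z1,[z1]),(k0,k3,z1,[z1])]),
    .old (.lp [k4,k4,k4,k4,k6,k4] [k1,k1,k1,k1,k1,k1,k1,k1,k0,k0,k1,k1] k0 [] k16 k5
    [[(k7,k4)],[(k2,k4),(k3,k4),(k6,k4)],[(k0,k4),(k5,k4),(k9,k5)],[(k0,k4),(k5,k4),(k9,k5)],[(k2,k4),(k3,k4),(k6,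
    k4)],[(k10,k4)],[(k1,k4)],[(k0,k4),(k5,k4),(k9,k5)],[(k2,k5),(k3,k5),(k6,k5)],[(k11,k5),(k8,k6)],[(k11,k4),(k8,
    k5)],[(k4,k4)]]
    [] k0
    [[k1,k0,k0,k1,k0,k0]]
    [.ref k0 k0 [(z1,[z1])]])]⟩

/-- classes `0 0 1 0 2 1`, types `C0 C2 S0 C0 C0 S0` -/
noncomputable def cU6_1026 : CertX :=
  ⟨[k4,k6,k16,k4,k36,k16],[(false,k0,[k0,k1,k2,k3,k4,k5])],[[[([z1,z1,z1,z0,z0,z0],z2)],[([z1,z1,z0,z1,z0,z0],z2)],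
    [([z1,z0,z0,z0,z1,z1],z2)],[]]],
    [.old (.leafM k0 [k2,k3,k4,k5,k0,k1] [(z1,[y1,z1])] []),
    .old (.leafM k3 [k1,k2,k3,k4,k5,k0] [(z1,[y1,z1])] []),
    .old (.leafM k0 [k0,k1,k2,k3,k4,k5] [(z1,[y1,z1])] []),
    .old (.lp [k2,k4,k2,k2,k2,k2] [k1,k1,k0,k0,k1,k1,k1,k1,k1,k1,k1,k1] k0 [] k8 k5
    [[(k1,k2),(k4,k2),(k7,k2),(k10,k2)],[(k9,k2),(k2,k3),(k3,k3)],[(k0,k3),(k5,k3),(k6,k3)],[(k0,k3),(k5,k3),(k6,k3)],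
    [(k9,k2),(k2,k3),(k3,k3)],[(k1,k2),(k4,k2),(k7,k2),(k10,k2)],[(k1,k2),(k4,k2),(k7,k2),(k10,k2)],[(k9,k2),(k2,k3),
    (k3,k3)],[(k0,k2),(k5,k2),(k6,k2)],[(k11,k2)],[(k8,k2)],[(k1,k2),(k4,k2),(k7,k2),(k10,k2)]]
    [] k0
    [[k1,k0,k0,k0,k1,k1],[k0,k0,k1,k0,k1,k1],[k0,k0,k0,k1,k1,k1]]
    [.ref k2 k0 [(z1,[z1])],.ref k1 k0 [(z1,[y1,z1])],.ref k0 k0 [(z1,[y1,z1])]])]⟩

/-- classes `0 0 1 0 2 1`, types `C0 C2 S0 C0 S0 S0` -/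
noncomputable def cU6_1027 : CertX :=
  ⟨[k4,k6,k16,k4,k32,k16],[(false,k0,[k0,k1,k2,k3,k4,k5])],[[[([z1,z1,z1,z0,z0,z0],z2)],[([z1,z1,z0,z1,z0,z0],z2)],
    [([z1,z0,z0,z0,z1,z1],z2)],[]]],
    [.old (.leafM k0 [k2,k3,k4,k5,k0,k1] [(z1,[y1,z1])] []),
    .old (.leafM k3 [k1,k2,k3,k4,k5,k0] [(z1,[y1,z1])] []),
    .old (.leafM k0 [k0,k1,k2,k3,k4,k5] [(z1,[y1,z1])] []),
    .old (.lp [k2,k4,k2,k2,k2,k2] [k1,k1,k0,k0,k1,k1,k1,k1,k1,k1,k1,k1] k0 [] k8 k5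
    [[(k1,k2),(k4,k2),(k7,k2),(k10,k2)],[(k9,k2),(k2,k3),(k3,k3)],[(k0,k3),(k5,k3),(k6,k3)],[(k0,k3),(k5,k3),(k6,k3)],
    [(k9,k2),(k2,k3),(k3,k3)],[(k1,k2),(k4,k2),(k7,k2),(k10,k2)],[(k1,k2),(k4,k2),(k7,k2),(k10,k2)],[(k9,k2),(k2,k3),
    (k3,k3)],[(k0,k2),(k5,k2),(k6,k2)],[(k8,k2),(k11,k2)],[(k8,k2),(k11,k2)],[(k1,k2),(k4,k2),(k7,k2),(k10,k2)]]
    [] k0
    [[k1,k0,k0,k0,k1,k1],[k0,k0,k1,k0,k1,k1],[k0,k0,k0,k1,k1,k1],[k0,k0,k0,k0,k0,k2]]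
    [.ref k2 k0 [(z1,[z1])],.ref k1 k0 [(z1,[y1,z1])],.ref k0 k0 [(z1,[y1,z1])],.contra [z1]])]⟩

/-- classes `0 0 1 0 2 1`, types `C0 C2 S0 C2 C0 S0` -/
noncomputable def cU6_1028 : CertX :=
  ⟨[k4,k6,k16,k6,k36,k16],[(false,k0,[k0,k1,k2,k3,k4,k5])],[[[([z1,z1,z1,z0,z0,z0],z2)],[([z1,z1,z0,z0,z1,z1],z2)],
    [([z1,z0,z0,z1,z0,z0],z2)],[]]],
    [.old (.leafM k0 [k2,k3,k4,k5,k0,k1] [(z1,[y1,z1])] []),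
    .old (.leafM k0 [k0,k1,k4,k5] [] [(k2,k3,z1,[y1,z1]),(k3,k2,z1,[y1,z1])]),
    .old (.leafM k2 [k1,k2,k4,k5] [] [(k3,k0,z1,[z1]),(k0,k3,z1,[z1])]),
    .old (.lp [k2,k4,k2,k2,k2,k2] [k1,k1,k0,k0,k1,k1,k1,k1,k1,k1,k1,k1] k0 [] k8 k5
    [[(k1,k2),(k4,k2),(k7,k2),(k10,k2)],[(k6,k2),(k2,k3),(k3,k3)],[(k0,k3),(k5,k3),(k9,k3)],[(k0,k3),(k5,k3),(k9,k3)],
    [(k6,k2),(k2,k3),(k3,k3)],[(k1,k2),(k4,k2),(k7,k2),(k10,k2)],[(k1,k2),(k4,k2),(k7,k2),(k10,k2)],[(k0,k2),(k5,k2),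
    (k9,k2)],[(k6,k2),(k2,k3),(k3,k3)],[(k11,k2)],[(k8,k2)],[(k1,k2),(k4,k2),(k7,k2),(k10,k2)]]
    [] k0
    [[k1,k0,k0,k1,k0,k0],[k0,k0,k1,k1,k0,k0],[k0,k0,k0,k1,k1,k1]]
    [.ref k2 k0 [(z1,[z1])],.ref k1 k0 [(z1,[y1,z1])],.ref k0 k0 [(z1,[y1,z1])]])]⟩

/-- classes `0 0 1 0 2 1`, types `C0 C2 S0 C2 S0 S0` -/
noncomputable def cU6_1029 : CertX :=
  ⟨[k4,k6,k16,k6,k32,k16],[(false,k0,[k0,k1,k2,k3,k4,k5])],[[[([z1,z1,z1,z0,z0,z0],z2)],[([z1,z1,z0,z0,z1,z1],z2)],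
    [([z1,z0,z0,z1,z0,z0],z2)],[]]],
    [.old (.leafM k0 [k2,k3,k4,k5,k0,k1] [(z1,[y1,z1])] []),
    .old (.leafM k0 [k0,k1,k4,k5] [] [(k2,k3,z1,[y1,z1]),(k3,k2,z1,[y1,z1])]),
    .old (.leafM k2 [k1,k2,k4,k5] [] [(k3,k0,z1,[z1]),(k0,k3,z1,[z1])]),
    .old (.lp [k2,k4,k2,k2,k2,k2] [k1,k1,k0,k0,k1,k1,k1,k1,k1,k1,k1,k1] k0 [] k8 k5
    [[(k1,k2),(k4,k2),(k7,k2),(k10,k2)],[(k6,k2),(k2,k3),(k3,k3)],[(k0,k3),(k5,k3),(k9,k3)],[(k0,k3),(k5,k3),(k9,k3)],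
    [(k6,k2),(k2,k3),(k3,k3)],[(k1,k2),(k4,k2),(k7,k2),(k10,k2)],[(k1,k2),(k4,k2),(k7,k2),(k10,k2)],[(k0,k2),(k5,k2),
    (k9,k2)],[(k6,k2),(k2,k3),(k3,k3)],[(k8,k2),(k11,k2)],[(k8,k2),(k11,k2)],[(k1,k2),(k4,k2),(k7,k2),(k10,k2)]]
    [] k0
    [[k1,k0,k0,k1,k0,k0],[k0,k0,k1,k1,k0,k0],[k0,k0,k0,k1,k1,k1],[k0,k0,k0,k0,k0,k2]]
    [.ref k2 k0 [(z1,[z1])],.ref k1 k0 [(z1,[y1,z1])],.ref k0 k0 [(z1,[y1,z1])],.contra [z1]])]⟩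

/-- classes `0 0 1 0 2 1`, types `S0 S0 B0 S0 C0 B1` -/
noncomputable def cU6_1030 : CertX :=
  ⟨[k0,k0,k24,k0,k36,k25],[(false,k0,[k0,k1,k2,k3,k4,k5])],[[[([z1,z1,z1,z0,z0,z0],z2)],[([z1,z0,z0,z1,z0,z0],z2)],
    [([z1,z1,z0,z1,z0,z0],z2)],[]]],
    [.old (.leafM k0 [k2,k3,k4,k5,k0,k1] [(z1,[y1,z1])] []),
    .old (.leafM k2 [k1,k2,k4,k5] [] [(k3,k0,z1,[z1]),(k0,k3,z1,[z1])]),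
    .old (.leafM k3 [k1,k2,k3,k4,k5,k0] [(z1,[y1,z1])] []),
    .old (.lp [k92,k90,k138,k48,k48,k54] [k23,k23,k24,k24,k0,k0,k45,k45,k45,k45,k42,k42] k0 [[],[k0,k0,k0,k10],
    [k10]] (nat_lit 240) k6
    [[(k7,k70),(k4,k115)],[(k6,k70),(k9,k70),(k2,k91),(k3,k91),(k0,k92),(k5,k125)],[(k6,k69),(k9,k69),(k2,k80),(k3,
    k90),(k0,k91),(k5,k114)],[(k6,k69),(k9,k69),(k3,k80),(k2,k90),(k0,k91),(k5,k114)],[(k6,k93),(k9,k93),(k2,k114),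
    (k3,k114),(k0,k125),(k5,k138)],[(k10,k96),(k1,k115)],[(k10,k51),(k1,k70)],[(k6,k48),(k9,k48),(k2,k69),(k3,k69),
    (k0,k70),(k5,k93)],[(k6,k48),(k9,k48),(k2,k69),(k3,k69),(k0,k70),(k5,k93)],[(k11,k51)],[(k8,k51)],[(k7,k51),(k4,
    k96)]]
    [] k0
    [[k1,k0,k0,k1,k0,k0],[k1,k1,k0,k1,k0,k0],[k0,k2,k0,k0,k0,k0],[k0,k0,k0,k1,k1,k1]]
    [.ref k1 k0 [(z1,[z1])],.ref k2 k0 [(z1,[z1])],.contra [z1],.ref k0 k0 [(z1,[y1,z1])]])]⟩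

/-- classes `0 0 1 0 2 1`, types `S0 S0 B0 S0 S0 B1` -/
noncomputable def cU6_1031 : CertX :=
  ⟨[k0,k0,k24,k0,k32,k25],[(false,k0,[k0,k1,k2,k3,k4,k5])],[[[([z1,z1,z0,z1,z0,z0],z2)],[([z1,z0,z0,z1,z0,z0],z2)],
    [([z1,z1,z1,z0,z0,z0],z2)],[([z1,z0,z1,z0,z0,z0],z2),([z0,z2,z0,z0,z0,z0],z1),([z0,z0,z0,z1,z0,z1],z1)],[([z1,z0,
    z1,z0,z0,z0],z2),([z0,z3,z0,z0,z0,z0],z2),([z0,z0,z0,z1,z0,z1],z1)],[([z1,z0,z1,z0,z0,z0],z2),([z0,z1,z0,z0,z1,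
    z0],z1)],[([z1,z0,z1,z0,z0,z0],z2)],[]]],
    [.old (.leafM k3 [k1,k2,k3,k4,k5,k0] [(z1,[y1,z1])] []),
    .old (.leafM k2 [k1,k2,k4,k5] [] [(k3,k0,z1,[z1]),(k0,k3,z1,[z1])]),
    .old (.leafM k0 [k2,k3,k4,k5,k0,k1] [(z1,[y1,z1])] []),
    .old (.leafM k9 [k5,k1,k3,k4] [(z1,[z0,z1]),(z1,[y2,y1,y2,z2]),(z1,[z0,z0,z1])] [(k0,k2,z1,[z1]),(k2,k0,z1,[z1])]),
    .old (.leafM k8 [k5,k1,k3,k4] [(z1,[z0,z1]),(z1,[y3,y1,y3,z3]),(z1,[z0,z0,z1])] [(k0,k2,z1,[z1]),(k2,k0,z1,[z1])]),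
    .old (.lp [k176,k76,k48,k48,k50,k72] [k0,k0,k50,k50,k64,k64,k64,k64,k63,k63,k52,k52] k0 [[k0,k0,k0,k0,k0,k0,k0,k64],
    [k0,k0,k0,k16],[k16],[],[],[],[k0,k64]] (nat_lit 240) k6
    [[(k4,k112),(k7,k112)],[(k6,k48),(k9,k113),(k2,k126),(k3,k126),(k5,k128),(k0,k176)],[(k2,k60),(k5,k62),(k6,k62),
    (k3,k76),(k0,k126),(k9,k127)],[(k3,k60),(k5,k62),(k6,k62),(k9,k63),(k2,k76),(k0,k126)],[(k5,k48),(k6,k48),(k9,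
    k49),(k2,k62),(k3,k62),(k0,k128)],[(k10,k60),(k1,k112)],[(k10,k60),(k1,k112)],[(k0,k48),(k5,k48),(k6,k48),(k9,
    k49),(k2,k62),(k3,k62)],[(k5,k49),(k6,k49),(k9,k50),(k2,k63),(k0,k113),(k3,k127)],[(k8,k50),(k11,k61)],[(k8,k61),
    (k11,k72)],[(k4,k60),(k7,k60)]]
    [] k0
    [[k1,k0,k0,k1,k0,k0],[k0,k2,k0,k0,k0,k0],[k0,k3,k0,k0,k0,k0],[k0,k0,k1,k0,k1,k1],[k0,k0,k0,k1,k1,k1],[k0,k0,k0,k0,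
    k2,k0],[k0,k0,k0,k0,k4,k0]]
    [.ref k1 k0 [(z1,[z1])],.contra [z1],.ref k4 k0 [(z1,[z0,z1]),(z1,[z1]),(z1,[z0,y1,y1,z1])],.ref k0 k0 [(z1,[y1,
    z0,z0,z1])],.contra [z1,z1,z1,y1],.contra [z1],.ref k3 k0 [(z1,[z0,z1]),(z2,[y1,z0,z4]),(z1,[z0,y1,y1,z1])]]),
    .old (.lp [k142,k82,k96,k48,k62,k48] [k0,k0,k30,k30,k23,k23,k47,k47,k40,k40,k47,k47] k0 [[k0,k0,k0,k0,k0,k0,k0,k34],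
    [k0,k0,k0,k2],[k2],[],[],[],[k0,k34]] (nat_lit 240) k6
    [[(k7,k95),(k4,k119)],[(k6,k61),(k9,k102),(k2,k112),(k3,k112),(k5,k121),(k0,k142)],[(k6,k65),(k2,k80),(k3,k82),
    (k5,k89),(k9,k106),(k0,k112)],[(k6,k65),(k9,k72),(k3,k80),(k2,k82),(k5,k89),(k0,k112)],[(k6,k72),(k9,k79),(k2,
    k89),(k3,k89),(k5,k96),(k0,k121)],[(k10,k72),(k1,k119)],[(k10,k48),(k1,k95)],[(k6,k48),(k9,k55),(k0,k61),(k2,k65),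
    (k3,k65),(k5,k72)],[(k6,k55),(k9,k62),(k2,k72),(k5,k79),(k0,k102),(k3,k106)],[(k11,k55),(k8,k62)],[(k11,k48),(k8,
    k55)],[(k7,k48),(k4,k72)]]
    [] k0
    [[k1,k0,k0,k1,k0,k0],[k0,k2,k0,k0,k0,k0],[k0,k0,k1,k0,k1,k1],[k0,k0,k0,k1,k1,k1],[k0,k0,k0,k2,k0,k2],[k0,k0,k0,k0,
    k2,k0]]
    [.ref k1 k0 [(z1,[z1])],.contra [z1],.ref k0 k0 [(z1,[y1,z0,z1])],.contra [y1,y1,z1],.ref k5 k0 [(z1,[z0,z1]),(z2,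
    [y1,y2,z2])],.contra [z1]]),
    .old (.lp [k6,k8,k6,k10,k10,k6] [k2,k2,k1,k1,k2,k2,k0,k0,k0,k0,k2,k2] k0 [[],[],[],[],[],[],[k0,k0,k0,k0,k0,k0,k0,
    k4]] k24 k5
    [[(k4,k6),(k7,k8)],[(k0,k6),(k5,k6),(k2,k7),(k3,k7),(k6,k8),(k9,k8)],[(k0,k7),(k5,k7),(k2,k8),(k3,k8),(k6,k9),(k9,
    k9)],[(k0,k7),(k5,k7),(k2,k8),(k3,k8),(k6,k9),(k9,k9)],[(k0,k6),(k5,k6),(k2,k7),(k3,k7),(k6,k8),(k9,k8)],[(k1,k6),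
    (k10,k6)],[(k1,k8),(k10,k8)],[(k6,k6),(k0,k8),(k5,k8),(k2,k9),(k3,k9),(k9,k10)],[(k0,k8),(k5,k8),(k2,k9),(k3,k9),
    (k6,k10),(k9,k14)],[(k11,k8),(k8,k10)],[(k11,k6),(k8,k8)],[(k4,k6),(k7,k8)]]
    [] k0
    [[k1,k0,k1,k0,k0,k0],[k1,k1,k1,k0,k0,k0],[k1,k0,k0,k1,k0,k0],[k0,k2,k0,k0,k0,k0],[k0,k0,k1,k0,k1,k1]]
    [.ref k6 k0 [(z1,[z1])],.ref k2 k0 [(z1,[z1])],.ref k1 k0 [(z1,[z1])],.contra [z1],.ref k0 k0 [(z1,[y1,z1])]])]⟩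

/-- classes `0 0 1 0 2 1`, types `S0 S0 C0 S0 C0 C0` -/
noncomputable def cU6_1032 : CertX :=
  ⟨[k0,k0,k20,k0,k36,k20],[(false,k0,[k0,k1,k2,k3,k4,k5])],[[[([z1,z1,z1,z0,z0,z0],z2)],[([z1,z1,z0,z0,z1,z1],z2)],
    [([z1,z0,z0,z0,z1,z1],z2)],[]]],
    [.old (.leafM k0 [k2,k3,k4,k5,k0,k1] [(z1,[y1,z1])] []),
    .old (.leafM k0 [k0,k1,k4,k5] [] [(k2,k3,z1,[y1,z1]),(k3,k2,z1,[y1,z1])]),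
    .old (.leafM k0 [k0,k1,k2,k3,k4,k5] [(z1,[y1,z1])] []),
    .old (.lp [k134,k96,k96,k48,k48,k48] [k0,k0,k19,k19,k19,k19,k43,k43,k43,k43,k43,k43] k0 [[],[k0,k0,k0,k10],
    [k10]] (nat_lit 240) k6
    [[(k10,k91),(k4,k115)],[(k6,k91),(k9,k91),(k2,k115),(k3,k115),(k5,k125),(k0,k134)],[(k6,k72),(k9,k72),(k2,k86),
    (k3,k96),(k5,k96),(k0,k115)],[(k6,k72),(k9,k72),(k3,k86),(k2,k96),(k5,k96),(k0,k115)],[(k6,k72),(k9,k72),(k2,k96),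
    (k3,k96),(k5,k96),(k0,k125)],[(k7,k72),(k1,k115)],[(k10,k48),(k4,k72)],[(k6,k48),(k9,k48),(k2,k72),(k3,k72),(k5,
    k72),(k0,k91)],[(k6,k48),(k9,k48),(k2,k72),(k3,k72),(k5,k72),(k0,k91)],[(k11,k48)],[(k8,k48)],[(k7,k48),(k1,k91)]]
    [] k0
    [[k1,k0,k0,k0,k1,k1],[k0,k2,k0,k0,k0,k0],[k0,k0,k1,k1,k0,k0],[k0,k0,k0,k1,k1,k1]]
    [.ref k2 k0 [(z1,[z1])],.contra [z1],.ref k1 k0 [(z1,[y1,z1])],.ref k0 k0 [(z1,[y1,z1])]])]⟩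

/-- classes `0 0 1 0 2 1`, types `S0 S0 C0 S0 C0 C2` -/
noncomputable def cU6_1033 : CertX :=
  ⟨[k0,k0,k20,k0,k36,k22],[(false,k0,[k0,k1,k2,k3,k4,k5])],[[[([z1,z1,z0,z1,z0,z0],z2)],[([z1,z1,z0,z0,z1,z1],z2)],
    [([z1,z0,z0,z0,z1,z1],z2)],[([z1,z0,z0,z1,z0,z0],z2)],[]]],
    [.old (.leafM k3 [k1,k2,k3,k4,k5,k0] [(z1,[y1,z1])] []),
    .old (.leafM k0 [k0,k1,k4,k5] [] [(k2,k3,z1,[y1,z1]),(k3,k2,z1,[y1,z1])]),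
    .old (.leafM k0 [k0,k1,k2,k3,k4,k5] [(z1,[y1,z1])] []),
    .old (.leafM k2 [k1,k2,k4,k5] [] [(k3,k0,z1,[z1]),(k0,k3,z1,[z1])]),
    .old (.lp [k2,k4,k2,k2,k2,k2] [k1,k1,k0,k0,k1,k1,k1,k1,k1,k1,k1,k1] k0 [] k8 k5
    [[(k7,k2),(k10,k2)],[(k0,k2),(k5,k2),(k6,k2),(k9,k2),(k2,k3),(k3,k3)],[(k0,k3),(k5,k3),(k6,k3),(k9,k3),(k2,k4),
    (k3,k4)],[(k0,k3),(k5,k3),(k6,k3),(k9,k3),(k2,k4),(k3,k4)],[(k0,k2),(k5,k2),(k6,k2),(k9,k2),(k2,k3),(k3,k3)],[(k7,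
    k2),(k10,k2)],[(k1,k2),(k4,k2)],[(k0,k2),(k5,k2),(k6,k2),(k9,k2),(k2,k3),(k3,k3)],[(k0,k2),(k5,k2),(k6,k2),(k9,
    k2),(k2,k3),(k3,k3)],[(k11,k2)],[(k8,k2)],[(k1,k2),(k4,k2)]]
    [] k0
    [[k1,k0,k0,k1,k0,k0],[k1,k0,k0,k0,k1,k1],[k0,k0,k1,k1,k0,k0],[k0,k0,k1,k0,k1,k1]]
    [.ref k3 k0 [(z1,[z1])],.ref k2 k0 [(z1,[z1])],.ref k1 k0 [(z1,[y1,z1])],.ref k0 k0 [(z1,[y1,z1])]])]⟩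

/-- classes `0 0 1 0 2 1`, types `S0 S0 C0 S0 S0 C0` -/
noncomputable def cU6_1034 : CertX :=
  ⟨[k0,k0,k20,k0,k32,k20],[(false,k0,[k0,k1,k2,k3,k4,k5])],[[[([z1,z1,z1,z0,z0,z0],z2)],[([z1,z1,z0,z0,z1,z1],z2)],
    [([z1,z0,z0,z0,z1,z1],z2)],[([z1,z0,z1,z0,z0,z0],z2),([z0,z2,z0,z0,z0,z0],z1),([z0,z0,z0,z1,z0,z1],z1)],[([z1,z0,
    z1,z0,z0,z0],z2),([z0,z3,z0,z0,z0,z0],z2),([z0,z0,z0,z1,z0,z1],z1)],[([z1,z0,z1,z0,z0,z0],z2),([z0,z1,z0,z0,z1,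
    z0],z1)],[([z1,z0,z1,z0,z0,z0],z2)],[]]],
    [.old (.leafM k0 [k2,k3,k4,k5,k0,k1] [(z1,[y1,z1])] []),
    .old (.leafM k0 [k0,k1,k4,k5] [] [(k2,k3,z1,[y1,z1]),(k3,k2,z1,[y1,z1])]),
    .old (.leafM k0 [k0,k1,k2,k3,k4,k5] [(z1,[y1,z1])] []),
    .old (.leafM k9 [k5,k1,k3,k4] [(z1,[z0,z1]),(z1,[y2,y1,y2,z2]),(z1,[z0,z0,z1])] [(k0,k2,z1,[z1]),(k2,k0,z1,[z1])]),
    .old (.leafM k8 [k5,k1,k3,k4] [(z1,[z0,z1]),(z1,[y3,y1,y3,z3]),(z1,[z0,z0,z1])] [(k0,k2,z1,[z1]),(k2,k0,z1,[z1])]),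
    .old (.lp [k132,k60,k108,k72,k50,k48] [k0,k0,k36,k36,k12,k12,k30,k30,k41,k41,k42,k42] k0 [[k0,k0,k0,k0,k0,k0,k0,k54],
    [],[],[k0,k0,k0,k0,k0,k0,k0,k26],[],[],[k0,k54,k26]] (nat_lit 240) k6
    [[(k10,k90),(k4,k120)],[(k6,k48),(k9,k91),(k2,k96),(k3,k96),(k5,k120),(k0,k132)],[(k2,k60),(k3,k60),(k6,k66),(k5,
    k84),(k0,k96),(k9,k109)],[(k2,k60),(k3,k60),(k6,k66),(k9,k81),(k5,k84),(k0,k96)],[(k6,k64),(k9,k79),(k2,k84),(k3,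
    k84),(k5,k108),(k0,k120)],[(k7,k90),(k1,k120)],[(k10,k60),(k4,k90)],[(k0,k48),(k9,k61),(k5,k64),(k2,k66),(k3,k66),
    (k6,k72)],[(k9,k50),(k6,k61),(k5,k79),(k2,k81),(k0,k91),(k3,k109)],[(k11,k49),(k8,k50)],[(k11,k48),(k8,k49)],[(k7,
    k60),(k1,k90)]]
    [] k0
    [[k1,k0,k0,k0,k1,k1],[k0,k2,k0,k0,k0,k0],[k0,k3,k0,k0,k0,k0],[k0,k0,k1,k1,k0,k0],[k0,k0,k0,k1,k1,k1],[k0,k0,k0,k0,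
    k2,k0],[k0,k0,k0,k0,k4,k0]]
    [.ref k2 k0 [(z1,[z1])],.contra [z1],.ref k4 k0 [(z1,[z0,z1]),(z1,[z1]),(z1,[z0,y1,y1,z1])],.ref k1 k0 [(z1,[y1,
    z0,z0,z1])],.contra [z1,z1,z1,y1],.contra [z1],.ref k3 k0 [(z1,[z0,z1]),(z2,[y1,z0,z4]),(z1,[z0,y1,y1,z1])]]),
    .old (.lp [k128,k80,k112,k48,k62,k48] [k0,k0,k24,k24,k8,k8,k40,k40,k33,k33,k40,k40] k0 [[k0,k0,k0,k0,k0,k0,k0,k32],[],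
    [],[k0,k0,k0,k0,k0,k0,k0,k4],[],[],[k0,k32,k4]] (nat_lit 240) k6
    [[(k10,k88),(k4,k120)],[(k6,k56),(k9,k95),(k2,k104),(k3,k104),(k5,k120),(k0,k128)],[(k6,k64),(k2,k80),(k3,k80),
    (k5,k96),(k9,k103),(k0,k104)],[(k6,k64),(k9,k75),(k2,k80),(k3,k80),(k5,k96),(k0,k104)],[(k6,k76),(k9,k87),(k2,
    k96),(k3,k96),(k5,k112),(k0,k120)],[(k7,k80),(k1,k120)],[(k10,k48),(k4,k80)],[(k6,k48),(k9,k55),(k0,k56),(k2,k64),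
    (k3,k64),(k5,k76)],[(k6,k55),(k9,k62),(k2,k75),(k5,k87),(k0,k95),(k3,k103)],[(k11,k55),(k8,k62)],[(k11,k48),(k8,
    k55)],[(k7,k48),(k1,k88)]]
    [] k0
    [[k1,k0,k0,k0,k1,k1],[k0,k2,k0,k0,k0,k0],[k0,k0,k1,k1,k0,k0],[k0,k0,k0,k1,k1,k1],[k0,k0,k0,k2,k0,k2],[k0,k0,k0,k0,
    k2,k0]]
    [.ref k2 k0 [(z1,[z1])],.contra [z1],.ref k1 k0 [(z1,[y1,z0,z1])],.contra [y1,y1,z1],.ref k5 k0 [(z1,[z0,z1]),(z2,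
    [y1,y2,z2])],.contra [z1]]),
    .old (.lp [k8,k12,k6,k6,k6,k6] [k3,k3,k2,k0,k4,k4,k4,k4,k4,k4,k4,k4] k0 [[],[k0,k0,k0,k0,k0,k0,k0,k4],[],[],[],[],
    [k4]] k24 k5
    [[(k4,k7),(k10,k7)],[(k5,k7),(k6,k7),(k0,k8),(k2,k9),(k3,k11),(k9,k11)],[(k6,k6),(k5,k10),(k9,k10),(k0,k11),(k2,
    k12),(k3,k14)],[(k5,k8),(k6,k8),(k9,k8),(k0,k9),(k2,k10),(k3,k12)],[(k5,k6),(k6,k6),(k9,k6),(k0,k7),(k2,k8),(k3,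
    k10)],[(k7,k6),(k1,k7)],[(k4,k6),(k10,k6)],[(k3,k6),(k5,k6),(k6,k6),(k9,k6),(k0,k7),(k2,k8)],[(k5,k6),(k6,k6),(k9,
    k6),(k2,k8),(k3,k10),(k0,k11)],[(k8,k6),(k11,k6)],[(k8,k6),(k11,k6)],[(k7,k6),(k1,k7)]]
    [] k0
    [[k1,k0,k1,k0,k0,k0],[k0,k1,k1,k1,k0,k0],[k0,k0,k1,k1,k0,k0],[k0,k0,k0,k1,k1,k1],[k0,k0,k0,k0,k2,k0]]
    [.ref k6 k0 [(z1,[z1])],.ref k2 k0 [(z1,[y1,z1])],.ref k1 k0 [(z1,[y1,z1])],.ref k0 k0 [(z1,[y1,z1])],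
    .contra [z1]])]⟩

/-- classes `0 0 1 0 2 1`, types `S0 S0 C0 S0 S0 C2` -/
noncomputable def cU6_1035 : CertX :=
  ⟨[k0,k0,k20,k0,k32,k22],[(false,k0,[k0,k1,k2,k3,k4,k5])],[[[([z1,z1,z0,z1,z0,z0],z2)],[([z1,z1,z0,z0,z1,z1],z2)],
    [([z1,z0,z0,z0,z1,z1],z2)],[([z1,z0,z0,z1,z0,z0],z2)],[]]],
    [.old (.leafM k3 [k1,k2,k3,k4,k5,k0] [(z1,[y1,z1])] []),
    .old (.leafM k0 [k0,k1,k4,k5] [] [(k2,k3,z1,[y1,z1]),(k3,k2,z1,[y1,z1])]),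
    .old (.leafM k0 [k0,k1,k2,k3,k4,k5] [(z1,[y1,z1])] []),
    .old (.leafM k2 [k1,k2,k4,k5] [] [(k3,k0,z1,[z1]),(k0,k3,z1,[z1])]),
    .old (.lp [k2,k4,k2,k2,k2,k2] [k1,k1,k0,k0,k1,k1,k1,k1,k1,k1,k1,k1] k0 [] k8 k5
    [[(k7,k2),(k10,k2)],[(k0,k2),(k5,k2),(k6,k2),(k9,k2),(k2,k3),(k3,k3)],[(k0,k3),(k5,k3),(k6,k3),(k9,k3),(k2,k4),
    (k3,k4)],[(k0,k3),(k5,k3),(k6,k3),(k9,k3),(k2,k4),(k3,k4)],[(k0,k2),(k5,k2),(k6,k2),(k9,k2),(k2,k3),(k3,k3)],[(k7,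
    k2),(k10,k2)],[(k1,k2),(k4,k2)],[(k0,k2),(k5,k2),(k6,k2),(k9,k2),(k2,k3),(k3,k3)],[(k0,k2),(k5,k2),(k6,k2),(k9,
    k2),(k2,k3),(k3,k3)],[(k8,k2),(k11,k2)],[(k8,k2),(k11,k2)],[(k1,k2),(k4,k2)]]
    [] k0
    [[k1,k0,k0,k1,k0,k0],[k1,k0,k0,k0,k1,k1],[k0,k0,k1,k1,k0,k0],[k0,k0,k1,k0,k1,k1],[k0,k0,k0,k0,k2,k0]]
    [.ref k3 k0 [(z1,[z1])],.ref k2 k0 [(z1,[z1])],.ref k1 k0 [(z1,[y1,z1])],.ref k0 k0 [(z1,[y1,z1])],.contra [z1]])]⟩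

/-- classes `0 0 1 0 2 1`, types `S0 S0 N0 S0 C0 N1` -/
noncomputable def cU6_1036 : CertX :=
  ⟨[k0,k0,k28,k0,k36,k29],[(false,k0,[k0,k1,k2,k3,k4,k5])],[[[([z1,z1,z1,z0,z0,z0],z2)],[]]],
    [.old (.leafM k0 [k2,k3,k4,k5,k0,k1] [(z1,[y1,z1])] []),
    .old (.lp [(nat_lit 640),(nat_lit 336),k168,k168,k168,k168] [k0,k0,k152,k152,(nat_lit 236),(nat_lit 236),
    (nat_lit 236),(nat_lit 236),(nat_lit 236),(nat_lit 236),(nat_lit 236),(nat_lit 236)] k0 [[],[k0,k0,k0,k35],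
    [k35]] (nat_lit 840) k6
    [[(k4,(nat_lit 404))],[(k6,(nat_lit 404)),(k9,(nat_lit 404)),(k5,(nat_lit 439)),(k2,(nat_lit 488)),(k3,
    (nat_lit 488)),(k0,(nat_lit 640))],[(k5,(nat_lit 252)),(k6,(nat_lit 252)),(k9,(nat_lit 252)),(k2,(nat_lit 301)),
    (k3,(nat_lit 336)),(k0,(nat_lit 488))],[(k5,(nat_lit 252)),(k6,(nat_lit 252)),(k9,(nat_lit 252)),(k3,
    (nat_lit 301)),(k2,(nat_lit 336)),(k0,(nat_lit 488))],[(k5,k168),(k6,k168),(k9,k168),(k2,(nat_lit 252)),(k3,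
    (nat_lit 252)),(k0,(nat_lit 439))],[(k1,(nat_lit 404))],[(k10,k168)],[(k5,k168),(k6,k168),(k9,k168),(k2,
    (nat_lit 252)),(k3,(nat_lit 252)),(k0,(nat_lit 404))],[(k5,k168),(k6,k168),(k9,k168),(k2,(nat_lit 252)),(k3,
    (nat_lit 252)),(k0,(nat_lit 404))],[(k11,k168)],[(k8,k168)],[(k7,k168)]]
    [] k0
    [[k0,k2,k0,k0,k0,k0],[k0,k0,k0,k1,k1,k1]]
    [.contra [z1],.ref k0 k0 [(z1,[y1,z1])]])]⟩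

/-- classes `0 0 1 0 2 1`, types `S0 S0 N0 S0 C0 N2` -/
noncomputable def cU6_1037 : CertX :=
  ⟨[k0,k0,k28,k0,k36,k30],[(false,k0,[k0,k1,k2,k3,k4,k5])],[[[([z1,z1,z0,z1,z0,z0],z2)],[([z1,z0,z0,z1,z0,z0],z2)],
    []]],
    [.old (.leafM k3 [k1,k2,k3,k4,k5,k0] [(z1,[y1,z1])] []),
    .old (.leafM k2 [k1,k2,k4,k5] [] [(k3,k0,z1,[z1]),(k0,k3,z1,[z1])]),
    .old (.lp [k2,k4,k2,k2,k2,k2] [k1,k1,k0,k0,k1,k1,k1,k1,k1,k1,k1,k1] k0 [] k8 k5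
    [[(k7,k2)],[(k0,k2),(k5,k2),(k6,k2),(k9,k2),(k2,k3),(k3,k3)],[(k0,k3),(k5,k3),(k6,k3),(k9,k3),(k2,k4),(k3,k4)],
    [(k0,k3),(k5,k3),(k6,k3),(k9,k3),(k2,k4),(k3,k4)],[(k0,k2),(k5,k2),(k6,k2),(k9,k2),(k2,k3),(k3,k3)],[(k10,k2)],
    [(k1,k2)],[(k0,k2),(k5,k2),(k6,k2),(k9,k2),(k2,k3),(k3,k3)],[(k0,k2),(k5,k2),(k6,k2),(k9,k2),(k2,k3),(k3,k3)],
    [(k11,k2)],[(k8,k2)],[(k4,k2)]]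
    [] k0
    [[k1,k0,k0,k1,k0,k0],[k0,k0,k1,k0,k1,k1]]
    [.ref k1 k0 [(z1,[z1])],.ref k0 k0 [(z1,[y1,z1])]])]⟩

/-- classes `0 0 1 0 2 1`, types `S0 S0 N0 S0 S0 N1` -/
noncomputable def cU6_1038 : CertX :=
  ⟨[k0,k0,k28,k0,k32,k29],[(false,k0,[k0,k1,k2,k3,k4,k5])],[[[([z1,z1,z1,z0,z0,z0],z2)],[([z1,z0,z1,z0,z0,z0],z2),
    ([z0,z2,z0,z0,z0,z0],z1),([z0,z0,z0,z1,z0,z1],z1)],[([z1,z0,z1,z0,z0,z0],z2),([z0,z3,z0,z0,z0,z0],z2),([z0,z0,z0,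
    z1,z0,z1],z1)],[([z1,z0,z1,z0,z0,z0],z2),([z0,z1,z0,z0,z1,z0],z1)],[([z1,z0,z1,z0,z0,z0],z2)],[]]],
    [.old (.leafM k0 [k2,k3,k4,k5,k0,k1] [(z1,[y1,z1])] []),
    .old (.leafM k9 [k5,k1,k3,k4] [(z1,[z0,z1]),(z1,[y2,y1,y2,z2]),(z1,[z0,z0,z1])] [(k0,k2,z1,[z1]),(k2,k0,z1,[z1])]),
    .old (.leafM k8 [k5,k1,k3,k4] [(z1,[z0,z1]),(z1,[y3,y1,y3,z3]),(z1,[z0,z0,z1])] [(k0,k2,z1,[z1]),(k2,k0,z1,[z1])]),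
    .old (.lp [k192,k60,k48,k72,k50,k48] [k0,k0,k66,k66,k72,k72,k60,k60,k71,k71,k72,k72] k0 [[k0,k0,k0,k0,k0,k0,k0,k70],
    [],[],[k0,k0,k0,k0,k0,k0,k0,k10],[],[],[k0,k70,k10]] (nat_lit 240) k6
    [[(k4,k120)],[(k6,k62),(k5,k120),(k9,k121),(k2,k126),(k3,k126),(k0,k192)],[(k5,k54),(k2,k60),(k3,k60),(k6,k66),
    (k9,k125),(k0,k126)],[(k5,k54),(k2,k60),(k3,k60),(k9,k65),(k6,k66),(k0,k126)],[(k5,k48),(k9,k49),(k6,k50),(k2,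
    k54),(k3,k54),(k0,k120)],[(k1,k120)],[(k10,k60)],[(k5,k50),(k9,k61),(k0,k62),(k2,k66),(k3,k66),(k6,k72)],[(k5,
    k49),(k9,k50),(k6,k61),(k2,k65),(k0,k121),(k3,k125)],[(k11,k49),(k8,k50)],[(k11,k48),(k8,k49)],[(k7,k60)]]
    [] k0
    [[k0,k2,k0,k0,k0,k0],[k0,k3,k0,k0,k0,k0],[k0,k0,k0,k1,k1,k1],[k0,k0,k0,k0,k2,k0],[k0,k0,k0,k0,k4,k0]]
    [.contra [z1],.ref k2 k0 [(z1,[z0,z1]),(z1,[z1]),(z1,[z0,y1,y1,z1])],.contra [z1,z1,z1,y1],.contra [z1],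
    .ref k1 k0 [(z1,[z0,z1]),(z2,[y1,z0,z4]),(z1,[z0,y1,y1,z1])]]),
    .old (.lp [k188,k80,k52,k48,k62,k48] [k0,k0,k54,k54,k68,k68,k70,k70,k63,k63,k70,k70] k0 [[k0,k0,k0,k0,k0,k0,k0,k34],
    [],[],[k0,k0,k0,k0,k0,k0,k0,k2],[],[],[k0,k34,k2]] (nat_lit 240) k6
    [[(k4,k120)],[(k6,k84),(k5,k120),(k9,k125),(k2,k134),(k3,k134),(k0,k188)],[(k6,k64),(k5,k66),(k2,k80),(k3,k80),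
    (k9,k105),(k0,k134)],[(k6,k64),(k5,k66),(k9,k73),(k2,k80),(k3,k80),(k0,k134)],[(k6,k48),(k5,k52),(k9,k57),(k2,
    k66),(k3,k66),(k0,k120)],[(k1,k120)],[(k10,k48)],[(k5,k48),(k6,k48),(k9,k55),(k2,k64),(k3,k64),(k0,k84)],[(k6,
    k55),(k5,k57),(k9,k62),(k2,k73),(k3,k105),(k0,k125)],[(k11,k55),(k8,k62)],[(k11,k48),(k8,k55)],[(k7,k48)]]
    [] k0
    [[k0,k2,k0,k0,k0,k0],[k0,k0,k0,k1,k1,k1],[k0,k0,k0,k2,k0,k2],[k0,k0,k0,k0,k2,k0]]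
    [.contra [z1],.contra [y1,y1,z1],.ref k3 k0 [(z1,[z0,z1]),(z2,[y1,y2,z2])],.contra [z1]]),
    .old (.lp [k2,k4,k2,k2,k2,k2] [k1,k1,k0,k0,k1,k1,k1,k1,k1,k1,k1,k1] k0 [] k8 k5
    [[(k4,k2)],[(k0,k2),(k5,k2),(k6,k2),(k9,k2),(k2,k3),(k3,k3)],[(k0,k3),(k5,k3),(k6,k3),(k9,k3),(k2,k4),(k3,k4)],
    [(k0,k3),(k5,k3),(k6,k3),(k9,k3),(k2,k4),(k3,k4)],[(k0,k2),(k5,k2),(k6,k2),(k9,k2),(k2,k3),(k3,k3)],[(k1,k2)],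
    [(k10,k2)],[(k0,k2),(k5,k2),(k6,k2),(k9,k2),(k2,k3),(k3,k3)],[(k0,k2),(k5,k2),(k6,k2),(k9,k2),(k2,k3),(k3,k3)],
    [(k8,k2),(k11,k2)],[(k8,k2),(k11,k2)],[(k7,k2)]]
    [] k0
    [[k1,k0,k1,k0,k0,k0],[k0,k0,k0,k1,k1,k1],[k0,k0,k0,k0,k2,k0]]
    [.ref k4 k0 [(z1,[z1])],.ref k0 k0 [(z1,[y1,z1])],.contra [z1]])]⟩

/-- classes `0 0 1 0 2 1`, types `S0 S0 N0 S0 S0 N2` -/
noncomputable def cU6_1039 : CertX :=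
  ⟨[k0,k0,k28,k0,k32,k30],[(false,k0,[k0,k1,k2,k3,k4,k5])],[[[([z1,z1,z0,z1,z0,z0],z2)],[([z1,z0,z0,z1,z0,z0],z2)],
    []]],
    [.old (.leafM k3 [k1,k2,k3,k4,k5,k0] [(z1,[y1,z1])] []),
    .old (.leafM k2 [k1,k2,k4,k5] [] [(k3,k0,z1,[z1]),(k0,k3,z1,[z1])]),
    .old (.lp [k2,k4,k2,k2,k2,k2] [k1,k1,k0,k0,k1,k1,k1,k1,k1,k1,k1,k1] k0 [] k8 k5
    [[(k7,k2)],[(k0,k2),(k5,k2),(k6,k2),(k9,k2),(k2,k3),(k3,k3)],[(k0,k3),(k5,k3),(k6,k3),(k9,k3),(k2,k4),(k3,k4)],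
    [(k0,k3),(k5,k3),(k6,k3),(k9,k3),(k2,k4),(k3,k4)],[(k0,k2),(k5,k2),(k6,k2),(k9,k2),(k2,k3),(k3,k3)],[(k10,k2)],
    [(k1,k2)],[(k0,k2),(k5,k2),(k6,k2),(k9,k2),(k2,k3),(k3,k3)],[(k0,k2),(k5,k2),(k6,k2),(k9,k2),(k2,k3),(k3,k3)],
    [(k8,k2),(k11,k2)],[(k8,k2),(k11,k2)],[(k4,k2)]]
    [] k0
    [[k1,k0,k0,k1,k0,k0],[k0,k0,k1,k0,k1,k1],[k0,k0,k0,k0,k2,k0]]
    [.ref k1 k0 [(z1,[z1])],.ref k0 k0 [(z1,[y1,z1])],.contra [z1]])]⟩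

/-- classes `0 0 1 0 2 1`, types `S0 S0 S0 S0 C0 S0` -/
noncomputable def cU6_1040 : CertX :=
  ⟨[k0,k0,k16,k0,k36,k16],[(false,k0,[k0,k1,k2,k3,k4,k5])],[[[([z1,z1,z1,z0,z0,z0],z2)],[([z1,z1,z0,z1,z0,z0],z2)],
    [([z1,z1,z0,z0,z1,z1],z2)],[([z1,z0,z0,z0,z1,z1],z2)],[([z1,z0,z0,z1,z0,z0],z2)],[]]],
    [.old (.leafM k0 [k2,k3,k4,k5,k0,k1] [(z1,[y1,z1])] []),
    .old (.leafM k3 [k1,k2,k3,k4,k5,k0] [(z1,[y1,z1])] []),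
    .old (.leafM k0 [k0,k1,k4,k5] [] [(k2,k3,z1,[y1,z1]),(k3,k2,z1,[y1,z1])]),
    .old (.leafM k0 [k0,k1,k2,k3,k4,k5] [(z1,[y1,z1])] []),
    .old (.leafM k2 [k1,k2,k4,k5] [] [(k3,k0,z1,[z1]),(k0,k3,z1,[z1])]),
    .old (.lp [(nat_lit 246),k180,k150,k150,k44,k170] [k0,k0,k33,k33,k48,k48,k48,k48,k101,k101,k38,k38] k0 [[],[k0,k0,k0,
    k20],[k20],[],[],[k0,k0,k0,k0,k0,k0,k0,k0,k0,k0,k0,k64],[k0,k0,k0,k0,k0,k0,k0,k52],[],[],[],[k0,k0,k0,k0,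
    k64]] (nat_lit 480) k6
    [[(k7,k198),(k10,(nat_lit 208)),(k1,(nat_lit 246)),(k4,(nat_lit 262))],[(k9,k145),(k6,k198),(k2,(nat_lit 213)),
    (k3,(nat_lit 213)),(k5,(nat_lit 218)),(k0,(nat_lit 246))],[(k9,k112),(k2,k160),(k5,k165),(k6,k165),(k3,k180),(k0,
    (nat_lit 213))],[(k9,k112),(k3,k160),(k5,k165),(k6,k165),(k2,k180),(k0,(nat_lit 213))],[(k9,k97),(k5,k150),(k6,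
    k150),(k2,k165),(k3,k165),(k0,(nat_lit 218))],[(k4,k150),(k7,k150),(k10,k160),(k1,(nat_lit 262))],[(k10,k96),(k4,
    k150),(k7,k150),(k1,k198)],[(k9,k97),(k6,k98),(k5,k150),(k2,k165),(k3,k165),(k0,k198)],[(k9,k96),(k5,k97),(k6,
    k97),(k2,k112),(k3,k112),(k0,k145)],[(k11,k107)],[(k8,k107)],[(k7,k96),(k4,k160),(k10,k170),(k1,(nat_lit 208))]]
    [] k0
    [[k1,k0,k0,k1,k0,k0],[k1,k0,k0,k0,k1,k1],[k0,k2,k0,k0,k0,k0],[k0,k0,k2,k0,k0,k0],[k0,k0,k1,k1,k0,k0],[k0,k0,k1,k0,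
    k1,k1],[k0,k0,k0,k2,k0,k0],[k0,k0,k0,k1,k1,k1]]
    [.ref k4 k0 [(z1,[z1])],.ref k3 k0 [(z1,[z1])],.contra [z1],.contra [z1],.ref k2 k0 [(z1,[y1,z1])],
    .ref k1 k0 [(z1,[y1,z1])],.contra [z1],.ref k0 k0 [(z1,[y1,z1])]])]⟩

/-- classes `0 0 1 0 2 2`, types `C0 C0 C0 C0 B0 B1` -/
noncomputable def cU6_1041 : CertX :=
  ⟨[k4,k4,k20,k4,k40,k41],[(false,k0,[k0,k1,k2,k3,k4,k5])],[[[([z1,z1,z0,z0,z1,z1],z2)],[([z1,z0,z0,z0,z1,z1],z2)],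
    []]],
    [.old (.leafM k1 [k0,k1,k4,k5] [] [(k2,k3,z1,[y1,z1]),(k3,k2,z1,[y1,z1])]),
    .old (.leafM k4 [k4,k5,k0,k1,k2,k3] [(z1,[y1,z1])] []),
    .old (.lp [k150,k78,k30,k66,k66,k80] [k0,k0,k36,k36,k60,k60,k42,k42,k42,k42,k35,k35] k0 [[k0,k0,k42],[k0,k0,k0,k0,k0,
    k0,k0,k24],[k0,k0,k0,k0,k0,k0,k24],[k0,k42],[],[],[k24],[k0,k0,k0,k24]] (nat_lit 240) k6
    [[(k8,k108),(k11,k115)],[(k5,k48),(k3,k114),(k9,k132)],[(k6,k48),(k0,k114),(k2,k120)],[(k9,k48),(k5,k54),(k3,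
    k120)],[(k0,k48),(k2,k54),(k6,k72)],[(k7,k48)],[(k4,k48)],[(k3,k48),(k9,k66),(k5,k72)],[(k2,k48),(k6,k66),(k0,
    k132)],[(k10,k73),(k1,k108)],[(k10,k80),(k1,k115)],[(k8,k73),(k11,k80)]]
    [] k0
    [[k0,k1,k1,k1,k0,k0],[k0,k0,k1,k1,k0,k0],[k0,k0,k0,k0,k0,k2]]
    [.ref k1 k0 [(z1,[y1,z1])],.ref k0 k0 [(z1,[y1,z1])],.contra [z1]])]⟩

/-- classes `0 0 1 0 2 2`, types `C0 C0 C0 C0 C0 C0` -/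
noncomputable def cU6_1042 : CertX :=
  ⟨[k4,k4,k20,k4,k36,k36],[(false,k0,[k0,k1,k2,k3,k4,k5])],[[[([z1,z1,z0,z0,z1,z1],z2)],[([z1,z0,z0,z0,z1,z1],z2)],
    []]],
    [.old (.leafM k0 [k0,k1,k4,k5] [] [(k2,k3,z1,[y1,z1]),(k3,k2,z1,[y1,z1])]),
    .old (.leafM k0 [k0,k1,k2,k3,k4,k5] [(z1,[y1,z1])] []),
    .old (.lp [k150,k78,k30,k66,k66,k80] [k0,k0,k36,k36,k60,k60,k42,k42,k42,k42,k35,k35] k0 [[k0,k0,k42],[k0,k0,k0,k0,k0,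
    k0,k0,k24],[k0,k0,k0,k0,k0,k0,k24],[k0,k42],[],[],[k24],[k0,k0,k0,k24]] (nat_lit 240) k6
    [[(k8,k108),(k10,k115)],[(k5,k48),(k3,k114),(k9,k132)],[(k6,k48),(k0,k114),(k2,k120)],[(k9,k48),(k5,k54),(k3,
    k120)],[(k0,k48),(k2,k54),(k6,k72)],[(k7,k48)],[(k4,k48)],[(k3,k48),(k9,k66),(k5,k72)],[(k2,k48),(k6,k66),(k0,
    k132)],[(k11,k73),(k1,k108)],[(k8,k73),(k10,k80)],[(k11,k80),(k1,k115)]]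
    [] k0
    [[k0,k1,k1,k1,k0,k0],[k0,k0,k1,k1,k0,k0],[k0,k0,k0,k0,k0,k2]]
    [.ref k1 k0 [(z1,[y1,z1])],.ref k0 k0 [(z1,[y1,z1])],.contra [z1]])]⟩

/-- classes `0 0 1 0 2 2`, types `C0 C0 C0 C0 C0 C2` -/
noncomputable def cU6_1043 : CertX :=
  ⟨[k4,k4,k20,k4,k36,k38],[(false,k0,[k0,k1,k2,k3,k4,k5])],[[[([z1,z1,z0,z0,z1,z1],z2)],[([z1,z0,z0,z0,z1,z1],z2)],
    []]],
    [.old (.leafM k0 [k0,k1,k4,k5] [] [(k2,k3,z1,[y1,z1]),(k3,k2,z1,[y1,z1])]),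
    .old (.leafM k0 [k0,k1,k2,k3,k4,k5] [(z1,[y1,z1])] []),
    .old (.lp [k2,k4,k2,k2,k2,k2] [k1,k1,k0,k0,k1,k1,k1,k1,k1,k1,k1,k1] k0 [] k8 k5
    [[(k10,k2),(k11,k2)],[(k5,k2),(k9,k2),(k3,k3)],[(k0,k3),(k6,k3),(k2,k4)],[(k5,k3),(k9,k3),(k3,k4)],[(k0,k2),(k6,
    k2),(k2,k3)],[(k7,k2)],[(k4,k2)],[(k5,k2),(k9,k2),(k3,k3)],[(k0,k2),(k6,k2),(k2,k3)],[(k10,k2),(k11,k2)],[(k1,k2),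
    (k8,k2)],[(k1,k2),(k8,k2)]]
    [] k0
    [[k1,k0,k0,k0,k1,k1],[k0,k0,k1,k1,k0,k0]]
    [.ref k1 k0 [(z1,[z1])],.ref k0 k0 [(z1,[y1,z1])]])]⟩

/-- classes `0 0 1 0 2 2`, types `C0 C0 C0 C0 N0 N1` -/
noncomputable def cU6_1044 : CertX :=
  ⟨[k4,k4,k20,k4,k44,k45],[(false,k0,[k0,k1,k2,k3,k4,k5])],[[[([z1,z1,z0,z0,z1,z1],z2)],[([z1,z0,z0,z0,z1,z0],z2)],
    []]],
    [.old (.lp [k18,k78,k162,k42,k90,k80] [k72,k72,k42,k42,k0,k0,k60,k60,k36,k36,k41,k41] k0 [[k0,k0,k42],[k0,k0,k0,k0,k0,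
    k0,k0,k12],[k0,k0,k0,k0,k0,k0,k36],[k0,k42],[],[],[k12],[k0,k0,k0,k36]] (nat_lit 240) k6
    [[(k8,k54)],[(k3,k48),(k5,k48),(k9,k66)],[(k0,k48),(k6,k48),(k2,k120)],[(k9,k48),(k3,k120),(k5,k120)],[(k0,k48),
    (k2,k120),(k6,k138)],[(k7,k102)],[(k4,k102)],[(k3,k48),(k9,k66),(k5,k138)],[(k2,k48),(k0,k66),(k6,k66)],[(k1,
    k54)],[(k10,k80)],[(k11,k80)]]
    [] k0
    [[k1,k0,k0,k0,k1,k0],[k1,k1,k0,k0,k1,k0],[k0,k0,k0,k0,k0,k2]]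
    [.contra [y1,z1],.contra [y1,z1],.contra [z1]]),
    .old (.lp [k150,k78,k30,k66,k66,k80] [k0,k0,k36,k36,k60,k60,k42,k42,k42,k42,k35,k35] k0 [[k0,k0,k42],[k0,k0,k0,k0,k0,
    k0,k0,k24],[k0,k0,k0,k0,k0,k0,k24],[k0,k42],[],[],[k24],[k0,k0,k0,k24]] (nat_lit 240) k6
    [[(k8,k108)],[(k5,k48),(k3,k114),(k9,k132)],[(k6,k48),(k0,k114),(k2,k120)],[(k9,k48),(k5,k54),(k3,k120)],[(k0,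
    k48),(k2,k54),(k6,k72)],[(k7,k48)],[(k4,k48)],[(k3,k48),(k9,k66),(k5,k72)],[(k2,k48),(k6,k66),(k0,k132)],[(k1,
    k108)],[(k10,k80)],[(k11,k80)]]
    [] k0
    [[k0,k1,k1,k1,k0,k0],[k0,k0,k1,k1,k0,k0],[k0,k0,k0,k0,k0,k2]]
    [.contra [y1,y1,z1],.contra [y1,y1,z1],.contra [z1]]),
    .old (.lp [k6,k6,k0,k6,k0,k4] [k0,k0,k0,k0,k3,k3,k0,k0,k3,k3,k1,k1] k0 [] k12 k5
    [[(k8,k3)],[(k5,k3),(k9,k3),(k3,k6)],[(k0,k6),(k2,k6),(k6,k6)],[(k5,k3),(k9,k3),(k3,k6)],[(k0,k3),(k2,k3),(k6,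
    k3)],[(k7,k3)],[(k4,k3)],[(k5,k3),(k9,k3),(k3,k6)],[(k0,k3),(k2,k3),(k6,k3)],[(k1,k3)],[(k10,k4)],[(k11,k4)]]
    [] k0
    [[k1,k0,k0,k0,k1,k0],[k0,k0,k1,k1,k0,k0],[k0,k0,k0,k0,k0,k2]]
    [.ref k1 k0 [(z1,[z1])],.ref k0 k0 [(z1,[y1,z1])],.contra [z1]])]⟩

/-- classes `0 0 1 0 2 2`, types `C0 C0 C0 C0 N0 N2` -/
noncomputable def cU6_1045 : CertX :=
  ⟨[k4,k4,k20,k4,k44,k46],[(false,k0,[k0,k1,k2,k3,k4,k5])],[[[([z1,z1,z0,z0,z1,z1],z2)],[([z1,z0,z0,z0,z1,z1],z2)],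
    []]],
    [.old (.leafM k1 [k0,k1,k4,k5] [] [(k2,k3,z1,[y1,z1]),(k3,k2,z1,[y1,z1])]),
    .old (.leafM k4 [k4,k5,k0,k1,k2,k3] [(z1,[y1,z1])] []),
    .old (.lp [k2,k4,k2,k2,k2,k2] [k1,k1,k0,k0,k1,k1,k1,k1,k1,k1,k1,k1] k0 [] k8 k5
    [[(k11,k2)],[(k5,k2),(k9,k2),(k3,k3)],[(k0,k3),(k6,k3),(k2,k4)],[(k5,k3),(k9,k3),(k3,k4)],[(k0,k2),(k6,k2),(k2,
    k3)],[(k7,k2)],[(k4,k2)],[(k5,k2),(k9,k2),(k3,k3)],[(k0,k2),(k6,k2),(k2,k3)],[(k10,k2)],[(k1,k2)],[(k8,k2)]]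
    [] k0
    [[k1,k0,k0,k0,k1,k1],[k0,k0,k1,k1,k0,k0]]
    [.ref k1 k0 [(z1,[z1])],.ref k0 k0 [(z1,[y1,z1])]])]⟩

/-- classes `0 0 1 0 2 2`, types `C0 C0 C0 C0 S0 S0` -/
noncomputable def cU6_1046 : CertX :=
  ⟨[k4,k4,k20,k4,k32,k32],[(false,k0,[k0,k1,k2,k3,k4,k5])],[[[([z1,z1,z0,z0,z1,z1],z2)],[([z1,z0,z0,z0,z1,z1],z2)],
    []]],
    [.old (.leafM k0 [k0,k1,k4,k5] [] [(k2,k3,z1,[y1,z1]),(k3,k2,z1,[y1,z1])]),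
    .old (.leafM k0 [k0,k1,k2,k3,k4,k5] [(z1,[y1,z1])] []),
    .old (.lp [k150,k78,k30,k66,k66,k80] [k0,k0,k36,k36,k60,k60,k42,k42,k42,k42,k35,k35] k0 [[k0,k0,k42],[k0,k0,k0,k0,k0,
    k0,k0,k24],[k0,k0,k0,k0,k0,k0,k24],[k0,k42],[],[],[k24],[k0,k0,k0,k24]] (nat_lit 240) k6
    [[(k8,k108),(k10,k115),(k11,k115),(k1,k150)],[(k5,k48),(k3,k114),(k9,k132)],[(k6,k48),(k0,k114),(k2,k120)],[(k9,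
    k48),(k5,k54),(k3,k120)],[(k0,k48),(k2,k54),(k6,k72)],[(k7,k48)],[(k4,k48)],[(k3,k48),(k9,k66),(k5,k72)],[(k2,
    k48),(k6,k66),(k0,k132)],[(k8,k66),(k10,k73),(k11,k73),(k1,k108)],[(k8,k73),(k10,k80),(k11,k80),(k1,k115)],[(k8,
    k73),(k10,k80),(k11,k80),(k1,k115)]]
    [] k0
    [[k0,k1,k1,k1,k0,k0],[k0,k0,k1,k1,k0,k0],[k0,k0,k0,k0,k0,k2]]
    [.ref k1 k0 [(z1,[y1,z1])],.ref k0 k0 [(z1,[y1,z1])],.contra [z1]])]⟩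

/-- classes `0 0 1 0 2 2`, types `C0 C0 C0 C2 B0 B1` -/
noncomputable def cU6_1047 : CertX :=
  ⟨[k4,k4,k20,k6,k40,k41],[],[[[]]],
    [.old (.lp [k6,k12,k6,k6,k6,k8] [k3,k3,k0,k0,k3,k3,k3,k3,k3,k3,k2,k2] k0 [] k24 k5
    [[(k8,k6),(k11,k7)],[(k5,k6),(k6,k6),(k3,k9)],[(k0,k9),(k9,k9),(k2,k12)],[(k5,k9),(k6,k9),(k3,k12)],[(k0,k6),(k9,
    k6),(k2,k9)],[(k7,k6)],[(k4,k6)],[(k0,k6),(k9,k6),(k2,k9)],[(k5,k6),(k6,k6),(k3,k9)],[(k1,k6),(k10,k7)],[(k1,k7),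
    (k10,k8)],[(k8,k7),(k11,k8)]]
    [] k0
    [[k0,k0,k0,k0,k0,k2]]
    [.contra [z1]])]⟩

/-- classes `0 0 1 0 2 2`, types `C0 C0 C0 C2 C0 C0` -/
noncomputable def cU6_1048 : CertX :=
  ⟨[k4,k4,k20,k6,k36,k36],[],[[[]]],
    [.old (.lp [k6,k12,k6,k6,k6,k8] [k3,k3,k0,k0,k3,k3,k3,k3,k3,k3,k2,k2] k0 [] k24 k5
    [[(k8,k6),(k10,k7)],[(k5,k6),(k6,k6),(k3,k9)],[(k0,k9),(k9,k9),(k2,k12)],[(k5,k9),(k6,k9),(k3,k12)],[(k0,k6),(k9,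
    k6),(k2,k9)],[(k7,k6)],[(k4,k6)],[(k0,k6),(k9,k6),(k2,k9)],[(k5,k6),(k6,k6),(k3,k9)],[(k1,k6),(k11,k7)],[(k8,k7),
    (k10,k8)],[(k1,k7),(k11,k8)]]
    [] k0
    [[k0,k0,k0,k0,k0,k2]]
    [.contra [z1]])]⟩

/-- classes `0 0 1 0 2 2`, types `C0 C0 C0 C2 C0 C2` -/
noncomputable def cU6_1049 : CertX :=
  ⟨[k4,k4,k20,k6,k36,k38],[],[[[]]],
    [.old (.lp [k2,k4,k2,k2,k2,k2] [k1,k1,k0,k0,k1,k1,k1,k1,k1,k1,k1,k1] k0 [] k8 k5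
    [[(k10,k2),(k11,k2)],[(k5,k2),(k6,k2),(k3,k3)],[(k0,k3),(k9,k3),(k2,k4)],[(k5,k3),(k6,k3),(k3,k4)],[(k0,k2),(k9,
    k2),(k2,k3)],[(k7,k2)],[(k4,k2)],[(k0,k2),(k9,k2),(k2,k3)],[(k5,k2),(k6,k2),(k3,k3)],[(k10,k2),(k11,k2)],[(k1,k2),
    (k8,k2)],[(k1,k2),(k8,k2)]]
    [] k0
    []
    [])]⟩

/-- classes `0 0 1 0 2 2`, types `C0 C0 C0 C2 N0 N1` -/
noncomputable def cU6_1050 : CertX :=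
  ⟨[k4,k4,k20,k6,k44,k45],[],[[[]]],
    [.old (.lp [k6,k12,k6,k6,k6,k8] [k3,k3,k0,k0,k3,k3,k3,k3,k3,k3,k2,k2] k0 [] k24 k5
    [[(k8,k6)],[(k5,k6),(k6,k6),(k3,k9)],[(k0,k9),(k9,k9),(k2,k12)],[(k5,k9),(k6,k9),(k3,k12)],[(k0,k6),(k9,k6),(k2,
    k9)],[(k7,k6)],[(k4,k6)],[(k0,k6),(k9,k6),(k2,k9)],[(k5,k6),(k6,k6),(k3,k9)],[(k1,k6)],[(k10,k8)],[(k11,k8)]]
    [] k0
    [[k0,k0,k0,k0,k0,k2]]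
    [.contra [z1]])]⟩

/-- classes `0 0 1 0 2 2`, types `C0 C0 C0 C2 N0 N2` -/
noncomputable def cU6_1051 : CertX :=
  ⟨[k4,k4,k20,k6,k44,k46],[],[[[]]],
    [.old (.lp [k2,k4,k2,k2,k2,k2] [k1,k1,k0,k0,k1,k1,k1,k1,k1,k1,k1,k1] k0 [] k8 k5
    [[(k11,k2)],[(k5,k2),(k6,k2),(k3,k3)],[(k0,k3),(k9,k3),(k2,k4)],[(k5,k3),(k6,k3),(k3,k4)],[(k0,k2),(k9,k2),(k2,
    k3)],[(k7,k2)],[(k4,k2)],[(k0,k2),(k9,k2),(k2,k3)],[(k5,k2),(k6,k2),(k3,k3)],[(k10,k2)],[(k1,k2)],[(k8,k2)]]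
    [] k0
    []
    [])]⟩

/-- classes `0 0 1 0 2 2`, types `C0 C0 C0 C2 S0 S0` -/
noncomputable def cU6_1052 : CertX :=
  ⟨[k4,k4,k20,k6,k32,k32],[],[[[]]],
    [.old (.lp [k6,k8,k6,k6,k6,k12] [k3,k3,k2,k2,k3,k3,k3,k3,k3,k3,k0,k0] k0 [] k24 k5
    [[(k1,k6),(k8,k6),(k10,k9),(k11,k9)],[(k5,k6),(k6,k6),(k3,k7)],[(k0,k7),(k9,k7),(k2,k8)],[(k5,k7),(k6,k7),(k3,
    k8)],[(k0,k6),(k9,k6),(k2,k7)],[(k7,k6)],[(k4,k6)],[(k0,k6),(k9,k6),(k2,k7)],[(k5,k6),(k6,k6),(k3,k7)],[(k1,k6),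
    (k8,k6),(k10,k9),(k11,k9)],[(k1,k9),(k8,k9),(k10,k12),(k11,k12)],[(k1,k9),(k8,k9),(k10,k12),(k11,k12)]]
    [] k0
    [[k0,k2,k0,k0,k0,k0]]
    [.contra [z1]])]⟩

/-- the certificates of this file -/
noncomputable def lU6_24 : List CertX :=
  [cU6_939, cU6_940, cU6_941, cU6_942, cU6_943, cU6_944, cU6_945, cU6_946, cU6_947, cU6_948, cU6_949, cU6_950,
      cU6_951, cU6_952, cU6_953, cU6_954, cU6_955, cU6_956, cU6_957, cU6_958, cU6_959, cU6_960, cU6_961,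
      cU6_962, cU6_963, cU6_964, cU6_965, cU6_966, cU6_967, cU6_968, cU6_969, cU6_970, cU6_971, cU6_972,
      cU6_973, cU6_974, cU6_975, cU6_976, cU6_977, cU6_978, cU6_979, cU6_980, cU6_981, cU6_982, cU6_983,
      cU6_984, cU6_985, cU6_986, cU6_987, cU6_988, cU6_989, cU6_990, cU6_991, cU6_992, cU6_993, cU6_994,
      cU6_995, cU6_996, cU6_997, cU6_998, cU6_999, cU6_1000, cU6_1001, cU6_1002, cU6_1003, cU6_1004,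
      cU6_1005, cU6_1006, cU6_1007, cU6_1008, cU6_1009, cU6_1010, cU6_1011, cU6_1012, cU6_1013, cU6_1014,
      cU6_1015, cU6_1016, cU6_1017, cU6_1018, cU6_1019, cU6_1020, cU6_1021, cU6_1022, cU6_1023, cU6_1024,
      cU6_1025, cU6_1026, cU6_1027, cU6_1028, cU6_1029, cU6_1030, cU6_1031, cU6_1032, cU6_1033, cU6_1034,
      cU6_1035, cU6_1036, cU6_1037, cU6_1038, cU6_1039, cU6_1040, cU6_1041, cU6_1042, cU6_1043, cU6_1044,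
      cU6_1045, cU6_1046, cU6_1047, cU6_1048, cU6_1049, cU6_1050, cU6_1051, cU6_1052]

theorem gU6_24 : allF (chkE 6 ttU6) lU6_24 = true := by
  decide +kernel

end Pool.Agent.Lib_MP_fa6e45
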