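import Pool.Agent.Lib_MP_fa6e45.CXT
import Pool.Agent.Lib_MP_fa6e45.HK

/-!
MP_fa6e45_co, stage 7: certificates (generated by a program).
-/

namespace Pool.Agent.Lib_MP_fa6e45

/-- classes `0 0 1 0 2 2`, types `C0 C0 S0 C0 B0 B1` -/
noncomputable def cU6_1053 : CertX :=
  ⟨[k4,k4,k16,k4,k40,k41],[(false,k0,[k0,k1,k2,k3,k4,k5])],[[[([z1,z1,z0,z0,z1,z1],z2)],[([z1,z0,z0,z0,z1,z1],z2)],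
    []]],
    [.old (.leafM k1 [k0,k1,k4,k5] [] [(k2,k3,z1,[y1,z1]),(k3,k2,z1,[y1,z1])]),
    .old (.leafM k4 [k4,k5,k0,k1,k2,k3] [(z1,[y1,z1])] []),
    .old (.lp [(nat_lit 8904),(nat_lit 3180),(nat_lit 2544),(nat_lit 2544),(nat_lit 3498),(nat_lit 4240)] [k0,k0,
    (nat_lit 2862),(nat_lit 2862),(nat_lit 3180),(nat_lit 3180),(nat_lit 3180),(nat_lit 3180),(nat_lit 3183),
    (nat_lit 2223),(nat_lit 2332),(nat_lit 2332)] k0 [[k0,k0,(nat_lit 3180)],[k0,k0,k0,k0,k0,k0,k0,(nat_lit 318)],[k0,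
    k0,k0,k0,k0,k0,(nat_lit 1272)],[k0,(nat_lit 3180)],[],[],[(nat_lit 318)],[k0,k0,k0,
    (nat_lit 1272)]] (nat_lit 12720) k6
    [[(k8,(nat_lit 5721)),(k11,(nat_lit 6572))],[(k5,(nat_lit 2544)),(k3,(nat_lit 6042)),(k9,(nat_lit 6999))],[(k6,
    (nat_lit 2544)),(k0,(nat_lit 6042)),(k2,(nat_lit 6360))],[(k9,(nat_lit 2547)),(k5,(nat_lit 2862)),(k3,
    (nat_lit 6360))],[(k0,(nat_lit 2544)),(k2,(nat_lit 2862)),(k6,(nat_lit 3816))],[(k4,(nat_lit 2544)),(k7,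
    (nat_lit 2544))],[(k4,(nat_lit 2544)),(k7,(nat_lit 2544))],[(k3,(nat_lit 2544)),(k9,(nat_lit 3501)),(k5,
    (nat_lit 3816))],[(k2,(nat_lit 2547)),(k6,(nat_lit 3501)),(k0,(nat_lit 6999))],[(k10,(nat_lit 3389)),(k1,
    (nat_lit 5721))],[(k10,(nat_lit 4240)),(k1,(nat_lit 6572))],[(k8,(nat_lit 3389)),(k11,(nat_lit 4240))]]
    [] k0
    [[k0,k1,k1,k1,k0,k0],[k0,k0,k1,k1,k0,k0],[k0,k0,k0,k0,k0,k2]]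
    [.ref k1 k0 [(z1,[y1,z1])],.ref k0 k0 [(z1,[y1,z1])],.contra [z1]])]⟩

/-- classes `0 0 1 0 2 2`, types `C0 C0 S0 C0 C0 C0` -/
noncomputable def cU6_1054 : CertX :=
  ⟨[k4,k4,k16,k4,k36,k36],[(false,k0,[k0,k1,k2,k3,k4,k5])],[[[([z1,z1,z0,z0,z1,z1],z2)],[([z1,z0,z0,z0,z1,z1],z2)],
    []]],
    [.old (.leafM k0 [k0,k1,k4,k5] [] [(k2,k3,z1,[y1,z1]),(k3,k2,z1,[y1,z1])]),
    .old (.leafM k0 [k0,k1,k2,k3,k4,k5] [(z1,[y1,z1])] []),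
    .old (.lp [(nat_lit 8904),(nat_lit 3180),(nat_lit 2544),(nat_lit 2544),(nat_lit 3498),(nat_lit 4240)] [k0,k0,
    (nat_lit 2862),(nat_lit 2862),(nat_lit 3180),(nat_lit 3180),(nat_lit 3180),(nat_lit 3180),(nat_lit 3183),
    (nat_lit 2223),(nat_lit 2332),(nat_lit 2332)] k0 [[k0,k0,(nat_lit 3180)],[k0,k0,k0,k0,k0,k0,k0,(nat_lit 318)],[k0,
    k0,k0,k0,k0,k0,(nat_lit 1272)],[k0,(nat_lit 3180)],[],[],[(nat_lit 318)],[k0,k0,k0,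
    (nat_lit 1272)]] (nat_lit 12720) k6
    [[(k8,(nat_lit 5721)),(k10,(nat_lit 6572))],[(k5,(nat_lit 2544)),(k3,(nat_lit 6042)),(k9,(nat_lit 6999))],[(k6,
    (nat_lit 2544)),(k0,(nat_lit 6042)),(k2,(nat_lit 6360))],[(k9,(nat_lit 2547)),(k5,(nat_lit 2862)),(k3,
    (nat_lit 6360))],[(k0,(nat_lit 2544)),(k2,(nat_lit 2862)),(k6,(nat_lit 3816))],[(k4,(nat_lit 2544)),(k7,
    (nat_lit 2544))],[(k4,(nat_lit 2544)),(k7,(nat_lit 2544))],[(k3,(nat_lit 2544)),(k9,(nat_lit 3501)),(k5,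
    (nat_lit 3816))],[(k2,(nat_lit 2547)),(k6,(nat_lit 3501)),(k0,(nat_lit 6999))],[(k11,(nat_lit 3389)),(k1,
    (nat_lit 5721))],[(k8,(nat_lit 3389)),(k10,(nat_lit 4240))],[(k11,(nat_lit 4240)),(k1,(nat_lit 6572))]]
    [] k0
    [[k0,k1,k1,k1,k0,k0],[k0,k0,k1,k1,k0,k0],[k0,k0,k0,k0,k0,k2]]
    [.ref k1 k0 [(z1,[y1,z1])],.ref k0 k0 [(z1,[y1,z1])],.contra [z1]])]⟩

/-- classes `0 0 1 0 2 2`, types `C0 C0 S0 C0 C0 C2` -/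
noncomputable def cU6_1055 : CertX :=
  ⟨[k4,k4,k16,k4,k36,k38],[(false,k0,[k0,k1,k2,k3,k4,k5])],[[[([z1,z1,z0,z0,z1,z1],z2)],[([z1,z0,z0,z0,z1,z1],z2)],
    []]],
    [.old (.leafM k0 [k0,k1,k4,k5] [] [(k2,k3,z1,[y1,z1]),(k3,k2,z1,[y1,z1])]),
    .old (.leafM k0 [k0,k1,k2,k3,k4,k5] [(z1,[y1,z1])] []),
    .old (.lp [k10,k10,k6,k6,k6,k6] [k0,k0,k0,k0,k2,k2,k2,k2,k2,k2,k2,k2] k0 [[k0,k0,k2],[k0,k0,k0,k0,k0,k0,k0,k2],[],[k0,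
    k2],[],[],[k2]] k24 k5
    [[(k10,k8),(k11,k8)],[(k5,k6),(k3,k10),(k9,k10)],[(k6,k6),(k0,k10),(k2,k12)],[(k5,k8),(k9,k8),(k3,k12)],[(k0,k6),
    (k6,k6),(k2,k8)],[(k4,k6),(k7,k6)],[(k4,k6),(k7,k6)],[(k3,k6),(k5,k6),(k9,k6)],[(k6,k6),(k2,k8),(k0,k10)],[(k10,
    k6),(k11,k6)],[(k8,k6),(k1,k8)],[(k8,k6),(k1,k8)]]
    [] k0
    [[k0,k1,k1,k1,k0,k0],[k0,k0,k1,k1,k0,k0]]
    [.ref k1 k0 [(z1,[y1,z1])],.ref k0 k0 [(z1,[y1,z1])]])]⟩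

/-- classes `0 0 1 0 2 2`, types `C0 C0 S0 C0 N0 N1` -/
noncomputable def cU6_1056 : CertX :=
  ⟨[k4,k4,k16,k4,k44,k45],[(false,k0,[k0,k1,k2,k3,k4,k5])],[[[([z1,z1,z0,z0,z1,z1],z2)],[([z1,z0,z0,z0,z1,z0],z2)],
    []]],
    [.old (.lp [k42,k156,(nat_lit 318),k96,k168,k160] [k138,k138,k81,k81,k0,k0,k111,k111,k75,k75,k79,k79] k0 [[k0,k0,k84],
    [k0,k0,k0,k0,k0,k0,k0,k30],[k0,k0,k0,k0,k0,k0,k66],[k0,k84],[],[],[k30],[k0,k0,k0,k66]] (nat_lit 480) k6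
    [[(k8,k105)],[(k5,k96),(k3,k99),(k9,k135)],[(k6,k96),(k0,k99),(k2,(nat_lit 240))],[(k9,k96),(k5,(nat_lit 237)),
    (k3,(nat_lit 240))],[(k0,k96),(k2,(nat_lit 237)),(k6,(nat_lit 273))],[(k7,(nat_lit 207)),(k4,(nat_lit 318))],[(k7,
    k96),(k4,(nat_lit 207))],[(k3,k96),(k9,k132),(k5,(nat_lit 273))],[(k2,k96),(k6,k132),(k0,k135)],[(k1,k105)],[(k10,
    k160)],[(k11,k160)]]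
    [] k0
    [[k1,k0,k0,k0,k1,k0],[k1,k1,k0,k0,k1,k0],[k0,k0,k0,k0,k0,k2]]
    [.contra [y1,z1],.contra [y1,z1],.contra [z1]]),
    .old (.lp [(nat_lit 8904),(nat_lit 3180),(nat_lit 2544),(nat_lit 2544),(nat_lit 3498),(nat_lit 4240)] [k0,k0,
    (nat_lit 2862),(nat_lit 2862),(nat_lit 3180),(nat_lit 3180),(nat_lit 3180),(nat_lit 3180),(nat_lit 3183),
    (nat_lit 2223),(nat_lit 2332),(nat_lit 2332)] k0 [[k0,k0,(nat_lit 3180)],[k0,k0,k0,k0,k0,k0,k0,(nat_lit 318)],[k0,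
    k0,k0,k0,k0,k0,(nat_lit 1272)],[k0,(nat_lit 3180)],[],[],[(nat_lit 318)],[k0,k0,k0,
    (nat_lit 1272)]] (nat_lit 12720) k6
    [[(k8,(nat_lit 5721))],[(k5,(nat_lit 2544)),(k3,(nat_lit 6042)),(k9,(nat_lit 6999))],[(k6,(nat_lit 2544)),(k0,
    (nat_lit 6042)),(k2,(nat_lit 6360))],[(k9,(nat_lit 2547)),(k5,(nat_lit 2862)),(k3,(nat_lit 6360))],[(k0,
    (nat_lit 2544)),(k2,(nat_lit 2862)),(k6,(nat_lit 3816))],[(k4,(nat_lit 2544)),(k7,(nat_lit 2544))],[(k4,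
    (nat_lit 2544)),(k7,(nat_lit 2544))],[(k3,(nat_lit 2544)),(k9,(nat_lit 3501)),(k5,(nat_lit 3816))],[(k2,
    (nat_lit 2547)),(k6,(nat_lit 3501)),(k0,(nat_lit 6999))],[(k1,(nat_lit 5721))],[(k10,(nat_lit 4240))],[(k11,
    (nat_lit 4240))]]
    [] k0
    [[k0,k1,k1,k1,k0,k0],[k0,k0,k1,k1,k0,k0],[k0,k0,k0,k0,k0,k2]]
    [.contra [y1,y1,z1],.contra [y1,y1,z1],.contra [z1]]),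
    .old (.lp [k6,k12,k6,k6,k6,k8] [k3,k3,k0,k0,k3,k3,k3,k3,k3,k3,k2,k2] k0 [] k24 k5
    [[(k8,k6)],[(k5,k6),(k9,k6),(k3,k9)],[(k0,k9),(k6,k9),(k2,k12)],[(k5,k9),(k9,k9),(k3,k12)],[(k0,k6),(k6,k6),(k2,
    k9)],[(k4,k6),(k7,k6)],[(k4,k6),(k7,k6)],[(k5,k6),(k9,k6),(k3,k9)],[(k0,k6),(k6,k6),(k2,k9)],[(k1,k6)],[(k10,k8)],
    [(k11,k8)]]
    [] k0
    [[k1,k0,k0,k0,k1,k0],[k0,k0,k1,k1,k0,k0],[k0,k0,k0,k0,k0,k2]]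
    [.ref k1 k0 [(z1,[z1])],.ref k0 k0 [(z1,[y1,z1])],.contra [z1]])]⟩

/-- classes `0 0 1 0 2 2`, types `C0 C0 S0 C0 N0 N2` -/
noncomputable def cU6_1057 : CertX :=
  ⟨[k4,k4,k16,k4,k44,k46],[(false,k0,[k0,k1,k2,k3,k4,k5])],[[[([z1,z1,z0,z0,z1,z1],z2)],[([z1,z0,z0,z0,z1,z1],z2)],
    []]],
    [.old (.leafM k1 [k0,k1,k4,k5] [] [(k2,k3,z1,[y1,z1]),(k3,k2,z1,[y1,z1])]),
    .old (.leafM k4 [k4,k5,k0,k1,k2,k3] [(z1,[y1,z1])] []),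
    .old (.lp [k10,k10,k6,k6,k6,k6] [k0,k0,k0,k0,k2,k2,k2,k2,k2,k2,k2,k2] k0 [[k0,k0,k2],[k0,k0,k0,k0,k0,k0,k0,k2],[],[k0,
    k2],[],[],[k2]] k24 k5
    [[(k11,k8)],[(k5,k6),(k3,k10),(k9,k10)],[(k6,k6),(k0,k10),(k2,k12)],[(k5,k8),(k9,k8),(k3,k12)],[(k0,k6),(k6,k6),
    (k2,k8)],[(k4,k6),(k7,k6)],[(k4,k6),(k7,k6)],[(k3,k6),(k5,k6),(k9,k6)],[(k6,k6),(k2,k8),(k0,k10)],[(k10,k6)],[(k1,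
    k8)],[(k8,k6)]]
    [] k0
    [[k0,k1,k1,k1,k0,k0],[k0,k0,k1,k1,k0,k0]]
    [.ref k1 k0 [(z1,[y1,z1])],.ref k0 k0 [(z1,[y1,z1])]])]⟩

/-- classes `0 0 1 0 2 2`, types `C0 C0 S0 C0 S0 S0` -/
noncomputable def cU6_1058 : CertX :=
  ⟨[k4,k4,k16,k4,k32,k32],[(false,k0,[k0,k1,k2,k3,k4,k5])],[[[([z1,z1,z0,z0,z1,z1],z2)],[([z1,z0,z0,z0,z1,z1],z2)],
    []]],
    [.old (.leafM k0 [k0,k1,k4,k5] [] [(k2,k3,z1,[y1,z1]),(k3,k2,z1,[y1,z1])]),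
    .old (.leafM k0 [k0,k1,k2,k3,k4,k5] [(z1,[y1,z1])] []),
    .old (.lp [k162,k60,k48,k48,k72,k80] [k0,k8,k55,k55,k61,k61,k61,k61,k55,k43,k45,k45] k0 [[k0,k0,k60],[k0,k0,k0,k0,k0,
    k0,k0,k6],[k0,k0,k0,k0,k0,k0,k24],[k0,k60],[],[],[k6],[k0,k0,k0,k24]] (nat_lit 240) k6
    [[(k8,k107),(k10,k117),(k11,k117),(k1,k154)],[(k5,k49),(k3,k115),(k9,k133)],[(k6,k48),(k0,k115),(k2,k120)],[(k9,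
    k48),(k5,k54),(k3,k120)],[(k0,k49),(k2,k54),(k6,k72)],[(k4,k48),(k7,k48)],[(k4,k48),(k7,k48)],[(k3,k48),(k9,k66),
    (k5,k72)],[(k2,k48),(k6,k66),(k0,k133)],[(k8,k60),(k10,k70),(k11,k70),(k1,k107)],[(k8,k70),(k10,k80),(k11,k80),
    (k1,k117)],[(k8,k70),(k10,k80),(k11,k80),(k1,k117)]]
    [] k0
    [[k0,k1,k1,k1,k0,k0],[k0,k0,k1,k1,k0,k0],[k0,k0,k0,k0,k0,k2]]
    [.ref k1 k0 [(z1,[y1,z1])],.ref k0 k0 [(z1,[y1,z1])],.contra [z1]])]⟩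

/-- classes `0 0 1 0 2 2`, types `C0 C0 S0 C2 B0 B1` -/
noncomputable def cU6_1059 : CertX :=
  ⟨[k4,k4,k16,k6,k40,k41],[],[[[]]],
    [.old (.lp [k6,k12,k6,k6,k6,k8] [k3,k3,k0,k0,k3,k3,k3,k3,k3,k3,k2,k2] k0 [] k24 k5
    [[(k8,k6),(k11,k7)],[(k5,k6),(k6,k6),(k3,k9)],[(k0,k9),(k9,k9),(k2,k12)],[(k5,k9),(k6,k9),(k3,k12)],[(k0,k6),(k9,
    k6),(k2,k9)],[(k4,k6),(k7,k6)],[(k4,k6),(k7,k6)],[(k0,k6),(k9,k6),(k2,k9)],[(k5,k6),(k6,k6),(k3,k9)],[(k1,k6),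
    (k10,k7)],[(k1,k7),(k10,k8)],[(k8,k7),(k11,k8)]]
    [] k0
    [[k0,k0,k0,k0,k0,k2]]
    [.contra [z1]])]⟩

/-- classes `0 0 1 0 2 2`, types `C0 C0 S0 C2 C0 C0` -/
noncomputable def cU6_1060 : CertX :=
  ⟨[k4,k4,k16,k6,k36,k36],[],[[[]]],
    [.old (.lp [k6,k12,k6,k6,k6,k8] [k3,k3,k0,k0,k3,k3,k3,k3,k3,k3,k2,k2] k0 [] k24 k5
    [[(k8,k6),(k10,k7)],[(k5,k6),(k6,k6),(k3,k9)],[(k0,k9),(k9,k9),(k2,k12)],[(k5,k9),(k6,k9),(k3,k12)],[(k0,k6),(k9,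
    k6),(k2,k9)],[(k4,k6),(k7,k6)],[(k4,k6),(k7,k6)],[(k0,k6),(k9,k6),(k2,k9)],[(k5,k6),(k6,k6),(k3,k9)],[(k1,k6),
    (k11,k7)],[(k8,k7),(k10,k8)],[(k1,k7),(k11,k8)]]
    [] k0
    [[k0,k0,k0,k0,k0,k2]]
    [.contra [z1]])]⟩

/-- classes `0 0 1 0 2 2`, types `C0 C0 S0 C2 C0 C2` -/
noncomputable def cU6_1061 : CertX :=
  ⟨[k4,k4,k16,k6,k36,k38],[],[[[]]],
    [.old (.lp [k2,k4,k2,k2,k2,k2] [k1,k1,k0,k0,k1,k1,k1,k1,k1,k1,k1,k1] k0 [] k8 k5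
    [[(k10,k2),(k11,k2)],[(k5,k2),(k6,k2),(k3,k3)],[(k0,k3),(k9,k3),(k2,k4)],[(k5,k3),(k6,k3),(k3,k4)],[(k0,k2),(k9,
    k2),(k2,k3)],[(k4,k2),(k7,k2)],[(k4,k2),(k7,k2)],[(k0,k2),(k9,k2),(k2,k3)],[(k5,k2),(k6,k2),(k3,k3)],[(k10,k2),
    (k11,k2)],[(k1,k2),(k8,k2)],[(k1,k2),(k8,k2)]]
    [] k0
    []
    [])]⟩

/-- classes `0 0 1 0 2 2`, types `C0 C0 S0 C2 N0 N1` -/
noncomputable def cU6_1062 : CertX :=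
  ⟨[k4,k4,k16,k6,k44,k45],[],[[[]]],
    [.old (.lp [k6,k12,k6,k6,k6,k8] [k3,k3,k0,k0,k3,k3,k3,k3,k3,k3,k2,k2] k0 [] k24 k5
    [[(k8,k6)],[(k5,k6),(k6,k6),(k3,k9)],[(k0,k9),(k9,k9),(k2,k12)],[(k5,k9),(k6,k9),(k3,k12)],[(k0,k6),(k9,k6),(k2,
    k9)],[(k4,k6),(k7,k6)],[(k4,k6),(k7,k6)],[(k0,k6),(k9,k6),(k2,k9)],[(k5,k6),(k6,k6),(k3,k9)],[(k1,k6)],[(k10,k8)],
    [(k11,k8)]]
    [] k0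
    [[k0,k0,k0,k0,k0,k2]]
    [.contra [z1]])]⟩

/-- classes `0 0 1 0 2 2`, types `C0 C0 S0 C2 N0 N2` -/
noncomputable def cU6_1063 : CertX :=
  ⟨[k4,k4,k16,k6,k44,k46],[],[[[]]],
    [.old (.lp [k2,k4,k2,k2,k2,k2] [k1,k1,k0,k0,k1,k1,k1,k1,k1,k1,k1,k1] k0 [] k8 k5
    [[(k11,k2)],[(k5,k2),(k6,k2),(k3,k3)],[(k0,k3),(k9,k3),(k2,k4)],[(k5,k3),(k6,k3),(k3,k4)],[(k0,k2),(k9,k2),(k2,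
    k3)],[(k4,k2),(k7,k2)],[(k4,k2),(k7,k2)],[(k0,k2),(k9,k2),(k2,k3)],[(k5,k2),(k6,k2),(k3,k3)],[(k10,k2)],[(k1,k2)],
    [(k8,k2)]]
    [] k0
    []
    [])]⟩

/-- classes `0 0 1 0 2 2`, types `C0 C0 S0 C2 S0 S0` -/
noncomputable def cU6_1064 : CertX :=
  ⟨[k4,k4,k16,k6,k32,k32],[],[[[]]],
    [.old (.lp [k6,k12,k6,k6,k6,k8] [k3,k3,k0,k0,k3,k3,k3,k3,k3,k3,k2,k2] k0 [] k24 k5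
    [[(k1,k6),(k8,k6),(k10,k7),(k11,k7)],[(k5,k6),(k6,k6),(k3,k9)],[(k0,k9),(k9,k9),(k2,k12)],[(k5,k9),(k6,k9),(k3,
    k12)],[(k0,k6),(k9,k6),(k2,k9)],[(k4,k6),(k7,k6)],[(k4,k6),(k7,k6)],[(k0,k6),(k9,k6),(k2,k9)],[(k5,k6),(k6,k6),
    (k3,k9)],[(k1,k6),(k8,k6),(k10,k7),(k11,k7)],[(k1,k7),(k8,k7),(k10,k8),(k11,k8)],[(k1,k7),(k8,k7),(k10,k8),(k11,
    k8)]]
    [] k0
    [[k0,k0,k0,k0,k0,k2]]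
    [.contra [z1]])]⟩

/-- classes `0 0 1 0 2 2`, types `C0 C2 C0 C0 B0 B1` -/
noncomputable def cU6_1065 : CertX :=
  ⟨[k4,k6,k20,k4,k40,k41],[(false,k0,[k0,k1,k2,k3,k4,k5])],[[[([z1,z0,z0,z0,z1,z1],z2)],[]]],
    [.old (.leafM k4 [k4,k5,k0,k1,k2,k3] [(z1,[y1,z1])] []),
    .old (.lp [k24,k6,k6,k6,k6,k10] [k0,k0,k9,k9,k9,k9,k9,k9,k9,k9,k7,k7] k0 [] k30 k6
    [[(k8,k15),(k11,k17)],[(k2,k15),(k3,k15),(k9,k15)],[(k5,k6),(k6,k6),(k0,k15)],[(k5,k6),(k6,k6),(k0,k15)],[(k2,k6),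
    (k3,k6),(k9,k6)],[(k7,k6)],[(k4,k6)],[(k2,k6),(k3,k6),(k9,k6)],[(k5,k6),(k6,k6),(k0,k15)],[(k10,k8),(k1,k15)],
    [(k10,k10),(k1,k17)],[(k8,k8),(k11,k10)]]
    [] k0
    [[k0,k1,k1,k1,k0,k0],[k0,k0,k0,k0,k0,k2]]
    [.ref k0 k0 [(z1,[y1,z1])],.contra [z1]])]⟩

/-- classes `0 0 1 0 2 2`, types `C0 C2 C0 C0 C0 C0` -/
noncomputable def cU6_1066 : CertX :=
  ⟨[k4,k6,k20,k4,k36,k36],[(false,k0,[k0,k1,k2,k3,k4,k5])],[[[([z1,z0,z0,z0,z1,z1],z2)],[]]],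
    [.old (.leafM k0 [k0,k1,k2,k3,k4,k5] [(z1,[y1,z1])] []),
    .old (.lp [k6,k6,k6,k6,k24,k10] [k9,k9,k9,k9,k9,k9,k9,k9,k0,k0,k7,k7] k0 [] k30 k6
    [[(k10,k8),(k8,k15)],[(k2,k6),(k3,k6),(k9,k15)],[(k0,k6),(k5,k6),(k6,k6)],[(k0,k6),(k5,k6),(k6,k6)],[(k2,k6),(k3,
    k6),(k9,k15)],[(k7,k6)],[(k4,k6)],[(k2,k6),(k3,k6),(k9,k15)],[(k0,k15),(k5,k15),(k6,k15)],[(k1,k15),(k11,k17)],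
    [(k10,k10),(k8,k17)],[(k1,k8),(k11,k10)]]
    [] k0
    [[k0,k1,k1,k1,k0,k0],[k0,k0,k0,k0,k0,k2]]
    [.ref k0 k0 [(z1,[y1,z1])],.contra [z1]])]⟩

/-- classes `0 0 1 0 2 2`, types `C0 C2 C0 C0 C0 C2` -/
noncomputable def cU6_1067 : CertX :=
  ⟨[k4,k6,k20,k4,k36,k38],[(false,k0,[k0,k1,k2,k3,k4,k5])],[[[([z1,z0,z0,z0,z1,z1],z2)],[]]],
    [.old (.leafM k0 [k0,k1,k2,k3,k4,k5] [(z1,[y1,z1])] []),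
    .old (.lp [k2,k2,k2,k4,k2,k2] [k1,k1,k1,k1,k1,k1,k0,k0,k1,k1,k1,k1] k0 [] k8 k5
    [[(k10,k2),(k11,k2)],[(k2,k2),(k3,k2),(k9,k2)],[(k0,k2),(k5,k2),(k6,k3)],[(k0,k2),(k5,k2),(k6,k3)],[(k2,k2),(k3,
    k2),(k9,k2)],[(k7,k3)],[(k4,k3)],[(k2,k3),(k3,k3),(k9,k3)],[(k0,k2),(k5,k2),(k6,k3)],[(k10,k2),(k11,k2)],[(k1,k2),
    (k8,k2)],[(k1,k2),(k8,k2)]]
    [] k0
    [[k1,k0,k0,k0,k1,k1]]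
    [.ref k0 k0 [(z1,[z1])]])]⟩

/-- classes `0 0 1 0 2 2`, types `C0 C2 C0 C0 N0 N1` -/
noncomputable def cU6_1068 : CertX :=
  ⟨[k4,k6,k20,k4,k44,k45],[(false,k0,[k0,k1,k2,k3,k4,k5])],[[[([z1,z0,z0,z0,z1,z0],z2)],[]]],
    [.old (.lp [k6,k6,k6,k6,k24,k10] [k9,k9,k9,k9,k9,k9,k9,k9,k0,k0,k7,k7] k0 [] k30 k6
    [[(k8,k15)],[(k2,k6),(k3,k6),(k9,k15)],[(k0,k6),(k5,k6),(k6,k6)],[(k0,k6),(k5,k6),(k6,k6)],[(k2,k6),(k3,k6),(k9,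
    k15)],[(k7,k6)],[(k4,k6)],[(k2,k6),(k3,k6),(k9,k15)],[(k0,k15),(k5,k15),(k6,k15)],[(k1,k15)],[(k10,k10)],[(k11,
    k10)]]
    [] k0
    [[k0,k1,k1,k1,k0,k0],[k0,k0,k0,k0,k0,k2]]
    [.contra [y1,y1,z1],.contra [z1]]),
    .old (.lp [k6,k0,k6,k6,k0,k4] [k0,k0,k3,k3,k0,k0,k0,k0,k3,k3,k1,k1] k0 [] k12 k5
    [[(k8,k3)],[(k2,k3),(k3,k3),(k9,k3)],[(k0,k3),(k5,k3),(k6,k3)],[(k0,k3),(k5,k3),(k6,k3)],[(k2,k3),(k3,k3),(k9,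
    k3)],[(k7,k6)],[(k4,k6)],[(k2,k3),(k3,k3),(k9,k3)],[(k0,k3),(k5,k3),(k6,k3)],[(k1,k3)],[(k10,k4)],[(k11,k4)]]
    [] k0
    [[k1,k0,k0,k0,k1,k0],[k0,k0,k0,k0,k0,k2]]
    [.ref k0 k0 [(z1,[z1])],.contra [z1]])]⟩

/-- classes `0 0 1 0 2 2`, types `C0 C2 C0 C0 N0 N2` -/
noncomputable def cU6_1069 : CertX :=
  ⟨[k4,k6,k20,k4,k44,k46],[(false,k0,[k0,k1,k2,k3,k4,k5])],[[[([z1,z0,z0,z0,z1,z1],z2)],[]]],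
    [.old (.leafM k4 [k4,k5,k0,k1,k2,k3] [(z1,[y1,z1])] []),
    .old (.lp [k2,k2,k2,k4,k2,k2] [k1,k1,k1,k1,k1,k1,k0,k0,k1,k1,k1,k1] k0 [] k8 k5
    [[(k11,k2)],[(k2,k2),(k3,k2),(k9,k2)],[(k0,k2),(k5,k2),(k6,k3)],[(k0,k2),(k5,k2),(k6,k3)],[(k2,k2),(k3,k2),(k9,
    k2)],[(k7,k3)],[(k4,k3)],[(k2,k3),(k3,k3),(k9,k3)],[(k0,k2),(k5,k2),(k6,k3)],[(k10,k2)],[(k1,k2)],[(k8,k2)]]
    [] k0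
    [[k1,k0,k0,k0,k1,k1]]
    [.ref k0 k0 [(z1,[z1])]])]⟩

/-- classes `0 0 1 0 2 2`, types `C0 C2 C0 C0 S0 S0` -/
noncomputable def cU6_1070 : CertX :=
  ⟨[k4,k6,k20,k4,k32,k32],[(false,k0,[k0,k1,k2,k3,k4,k5])],[[[([z1,z0,z0,z0,z1,z1],z2)],[]]],
    [.old (.leafM k0 [k0,k1,k2,k3,k4,k5] [(z1,[y1,z1])] []),
    .old (.lp [k42,k12,k12,k12,k18,k20] [k0,k0,k15,k15,k15,k15,k15,k15,k12,k12,k11,k11] k0 [] k60 k6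
    [[(k8,k30),(k10,k31),(k11,k31),(k1,k42)],[(k2,k27),(k3,k27),(k9,k30)],[(k5,k12),(k6,k12),(k0,k27)],[(k5,k12),(k6,
    k12),(k0,k27)],[(k2,k12),(k3,k12),(k9,k15)],[(k7,k12)],[(k4,k12)],[(k2,k12),(k3,k12),(k9,k15)],[(k5,k15),(k6,k15),
    (k0,k30)],[(k8,k18),(k10,k19),(k11,k19),(k1,k30)],[(k8,k19),(k10,k20),(k11,k20),(k1,k31)],[(k8,k19),(k10,k20),
    (k11,k20),(k1,k31)]]
    [] k0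
    [[k0,k1,k1,k1,k0,k0],[k0,k0,k0,k0,k0,k2]]
    [.ref k0 k0 [(z1,[y1,z1])],.contra [z1]])]⟩

/-- classes `0 0 1 0 2 2`, types `C0 C2 C0 C2 B0 B1` -/
noncomputable def cU6_1071 : CertX :=
  ⟨[k4,k6,k20,k6,k40,k41],[(false,k0,[k0,k1,k2,k3,k4,k5])],[[[([z1,z1,z0,z0,z1,z1],z2)],[]]],
    [.old (.leafM k1 [k0,k1,k4,k5] [] [(k2,k3,z1,[y1,z1]),(k3,k2,z1,[y1,z1])]),
    .old (.lp [k4,k6,k2,k4,k2,k4] [k1,k1,k0,k0,k2,k2,k1,k1,k2,k2,k1,k1] k0 [] k12 k5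
    [[(k8,k3),(k11,k4)],[(k6,k4),(k2,k5),(k3,k5)],[(k5,k4),(k9,k4),(k0,k5)],[(k5,k4),(k9,k4),(k0,k5)],[(k6,k3),(k2,
    k4),(k3,k4)],[(k7,k3)],[(k4,k3)],[(k5,k3),(k9,k3),(k0,k4)],[(k6,k3),(k2,k4),(k3,k4)],[(k1,k3),(k10,k3)],[(k1,k4),
    (k10,k4)],[(k8,k3),(k11,k4)]]
    [] k0
    [[k0,k0,k1,k1,k0,k0],[k0,k0,k0,k0,k0,k2]]
    [.ref k0 k0 [(z1,[y1,z1])],.contra [z1]])]⟩

/-- classes `0 0 1 0 2 2`, types `C0 C2 C0 C2 C0 C0` -/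
noncomputable def cU6_1072 : CertX :=
  ⟨[k4,k6,k20,k6,k36,k36],[(false,k0,[k0,k1,k2,k3,k4,k5])],[[[([z1,z1,z0,z0,z1,z1],z2)],[]]],
    [.old (.leafM k0 [k0,k1,k4,k5] [] [(k2,k3,z1,[y1,z1]),(k3,k2,z1,[y1,z1])]),
    .old (.lp [k2,k6,k0,k6,k4,k4] [k2,k2,k0,k0,k3,k3,k0,k0,k1,k1,k1,k1] k0 [] k12 k5
    [[(k8,k3),(k10,k3)],[(k2,k4),(k3,k4),(k6,k4)],[(k5,k3),(k0,k4),(k9,k5)],[(k5,k3),(k0,k4),(k9,k5)],[(k2,k3),(k3,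
    k3),(k6,k3)],[(k7,k3)],[(k4,k3)],[(k5,k3),(k0,k4),(k9,k5)],[(k2,k5),(k3,k5),(k6,k5)],[(k1,k3),(k11,k4)],[(k8,k4),
    (k10,k4)],[(k1,k3),(k11,k4)]]
    [] k0
    [[k0,k0,k1,k1,k0,k0],[k0,k0,k0,k0,k0,k2]]
    [.ref k0 k0 [(z1,[y1,z1])],.contra [z1]])]⟩

/-- classes `0 0 1 0 2 2`, types `C0 C2 C0 C2 C0 C2` -/
noncomputable def cU6_1073 : CertX :=
  ⟨[k4,k6,k20,k6,k36,k38],[(false,k0,[k0,k1,k2,k3,k4,k5])],[[[([z1,z1,z0,z0,z1,z1],z2)],[]]],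
    [.old (.leafM k0 [k0,k1,k4,k5] [] [(k2,k3,z1,[y1,z1]),(k3,k2,z1,[y1,z1])]),
    .old (.lp [k0,k2,k0,k2,k0,k2] [k1,k1,k0,k0,k1,k1,k0,k0,k1,k1,k0,k0] k0 [] k4 k5
    [[(k10,k1),(k11,k1)],[(k2,k1),(k3,k1),(k6,k1)],[(k0,k1),(k5,k1),(k9,k1)],[(k0,k1),(k5,k1),(k9,k1)],[(k2,k1),(k3,
    k1),(k6,k1)],[(k7,k1)],[(k4,k1)],[(k0,k1),(k5,k1),(k9,k1)],[(k2,k1),(k3,k1),(k6,k1)],[(k10,k1),(k11,k1)],[(k1,k1),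
    (k8,k1)],[(k1,k1),(k8,k1)]]
    [] k0
    [[k0,k0,k1,k1,k0,k0]]
    [.ref k0 k0 [(z1,[y1,z1])]])]⟩

/-- classes `0 0 1 0 2 2`, types `C0 C2 C0 C2 N0 N1` -/
noncomputable def cU6_1074 : CertX :=
  ⟨[k4,k6,k20,k6,k44,k45],[(false,k0,[k0,k1,k2,k3,k4,k5])],[[[([z1,z1,z0,z0,z1,z1],z2)],[]]],
    [.old (.lp [k6,k6,k6,k24,k6,k10] [k9,k9,k9,k9,k9,k9,k0,k0,k9,k9,k7,k7] k0 [] k30 k6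
    [[(k8,k6)],[(k2,k6),(k3,k6),(k6,k15)],[(k0,k6),(k5,k6),(k9,k6)],[(k0,k6),(k5,k6),(k9,k6)],[(k2,k6),(k3,k6),(k6,
    k15)],[(k7,k15)],[(k4,k15)],[(k0,k15),(k5,k15),(k9,k15)],[(k2,k6),(k3,k6),(k6,k15)],[(k1,k6)],[(k10,k10)],[(k11,
    k10)]]
    [] k0
    [[k1,k1,k0,k0,k1,k0],[k0,k0,k0,k0,k0,k2]]
    [.contra [y1,z1],.contra [z1]]),
    .old (.lp [k0,k6,k0,k6,k6,k4] [k3,k3,k0,k0,k3,k3,k0,k0,k0,k0,k1,k1] k0 [] k12 k5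
    [[(k8,k3)],[(k2,k3),(k3,k3),(k6,k3)],[(k0,k3),(k5,k3),(k9,k6)],[(k0,k3),(k5,k3),(k9,k6)],[(k2,k3),(k3,k3),(k6,
    k3)],[(k7,k3)],[(k4,k3)],[(k0,k3),(k5,k3),(k9,k6)],[(k2,k6),(k3,k6),(k6,k6)],[(k1,k3)],[(k10,k4)],[(k11,k4)]]
    [] k0
    [[k0,k0,k1,k1,k0,k0],[k0,k0,k0,k0,k0,k2]]
    [.ref k0 k0 [(z1,[y1,z1])],.contra [z1]])]⟩

/-- classes `0 0 1 0 2 2`, types `C0 C2 C0 C2 N0 N2` -/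
noncomputable def cU6_1075 : CertX :=
  ⟨[k4,k6,k20,k6,k44,k46],[(false,k0,[k0,k1,k2,k3,k4,k5])],[[[([z1,z1,z0,z0,z1,z1],z2)],[]]],
    [.old (.leafM k1 [k0,k1,k4,k5] [] [(k2,k3,z1,[y1,z1]),(k3,k2,z1,[y1,z1])]),
    .old (.lp [k0,k2,k0,k2,k0,k2] [k1,k1,k0,k0,k1,k1,k0,k0,k1,k1,k0,k0] k0 [] k4 k5
    [[(k11,k1)],[(k2,k1),(k3,k1),(k6,k1)],[(k0,k1),(k5,k1),(k9,k1)],[(k0,k1),(k5,k1),(k9,k1)],[(k2,k1),(k3,k1),(k6,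
    k1)],[(k7,k1)],[(k4,k1)],[(k0,k1),(k5,k1),(k9,k1)],[(k2,k1),(k3,k1),(k6,k1)],[(k10,k1)],[(k1,k1)],[(k8,k1)]]
    [] k0
    [[k0,k0,k1,k1,k0,k0]]
    [.ref k0 k0 [(z1,[y1,z1])]])]⟩

/-- classes `0 0 1 0 2 2`, types `C0 C2 C0 C2 S0 S0` -/
noncomputable def cU6_1076 : CertX :=
  ⟨[k4,k6,k20,k6,k32,k32],[(false,k0,[k0,k1,k2,k3,k4,k5])],[[[([z1,z1,z0,z0,z1,z1],z2)],[]]],
    [.old (.leafM k0 [k0,k1,k4,k5] [] [(k2,k3,z1,[y1,z1]),(k3,k2,z1,[y1,z1])]),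
    .old (.lp [k6,k12,k0,k12,k6,k8] [k3,k3,k0,k0,k6,k6,k0,k0,k3,k3,k2,k2] k0 [] k24 k5
    [[(k1,k6),(k8,k6),(k10,k7),(k11,k7)],[(k2,k9),(k3,k9),(k6,k9)],[(k5,k6),(k0,k9),(k9,k9)],[(k5,k6),(k0,k9),(k9,
    k9)],[(k2,k6),(k3,k6),(k6,k6)],[(k7,k6)],[(k4,k6)],[(k5,k6),(k0,k9),(k9,k9)],[(k2,k9),(k3,k9),(k6,k9)],[(k1,k6),
    (k8,k6),(k10,k7),(k11,k7)],[(k1,k7),(k8,k7),(k10,k8),(k11,k8)],[(k1,k7),(k8,k7),(k10,k8),(k11,k8)]]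
    [] k0
    [[k0,k0,k1,k1,k0,k0],[k0,k0,k0,k0,k0,k2]]
    [.ref k0 k0 [(z1,[y1,z1])],.contra [z1]])]⟩

/-- classes `0 0 1 0 2 2`, types `C0 C2 S0 C0 B0 B1` -/
noncomputable def cU6_1077 : CertX :=
  ⟨[k4,k6,k16,k4,k40,k41],[(false,k0,[k0,k1,k2,k3,k4,k5])],[[[([z1,z0,z0,z0,z1,z1],z2)],[([z1,z0,z0,z0,z1,z0],z2),
    ([z0,z1,z0,z2,z0,z2],z2)],[([z1,z0,z0,z0,z1,z0],z2)],[]]],
    [.old (.leafM k4 [k4,k5,k0,k1,k2,k3] [(z1,[y1,z1])] []),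
    .old (.lp [(nat_lit 208),k48,k54,k48,k32,k80] [k0,k8,k84,k84,k81,k81,k84,k84,k100,k84,k68,k68] k0 [[k0,k0,k0,k84],[],
    [k0,k84]] (nat_lit 240) k6
    [[(k8,k108),(k11,k140)],[(k2,k48),(k3,k132),(k9,k132)],[(k6,k48),(k0,k132),(k5,k135)],[(k0,k48),(k6,k48),(k5,
    k51)],[(k2,k51),(k9,k51),(k3,k135)],[(k7,k51),(k4,k54)],[(k7,k48),(k4,k51)],[(k2,k48),(k3,k48),(k9,k48)],[(k6,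
    k48),(k5,k51),(k0,k132)],[(k10,k48),(k1,k108)],[(k10,k80),(k1,k140)],[(k8,k48),(k11,k80)]]
    [] k0
    [[k0,k1,k1,k1,k0,k0],[k0,k1,k0,k2,k0,k0],[k0,k0,k0,k0,k0,k2]]
    [.contra [y1,y1,z0,z1],.contra [y1,z0,z1],.contra [z1]]),
    .old (.lp [(nat_lit 2544),(nat_lit 2544),(nat_lit 2544),(nat_lit 3180),(nat_lit 9858),(nat_lit 4240)] [(nat_lit 4137),
    (nat_lit 4137),(nat_lit 4137),(nat_lit 4137),(nat_lit 4137),(nat_lit 4137),(nat_lit 3819),(nat_lit 3819),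
    (nat_lit 960),k0,(nat_lit 3289),(nat_lit 3289)] k0 [[],[k0,k0,k0,k0,k0,k0,k0,(nat_lit 318)],[],[k0,k0,k0,k0,k0,k0,
    (nat_lit 4134)],[],[],[(nat_lit 318)],[k0,k0,(nat_lit 4134)]] (nat_lit 12720) k6
    [[(k11,(nat_lit 3392)),(k8,(nat_lit 5721))],[(k2,(nat_lit 2544)),(k3,(nat_lit 2544)),(k9,(nat_lit 6999))],[(k0,
    (nat_lit 2544)),(k5,(nat_lit 2544)),(k6,(nat_lit 2544))],[(k0,(nat_lit 2544)),(k5,(nat_lit 2544)),(k6,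
    (nat_lit 6996))],[(k2,(nat_lit 2544)),(k3,(nat_lit 2544)),(k9,(nat_lit 2547))],[(k4,(nat_lit 2544)),(k7,
    (nat_lit 2862))],[(k4,(nat_lit 2862)),(k7,(nat_lit 3180))],[(k3,(nat_lit 2544)),(k2,(nat_lit 6996)),(k9,
    (nat_lit 6999))],[(k5,(nat_lit 2547)),(k0,(nat_lit 6999)),(k6,(nat_lit 6999))],[(k1,(nat_lit 5721)),(k10,
    (nat_lit 6569))],[(k1,(nat_lit 3392)),(k10,(nat_lit 4240))],[(k11,(nat_lit 4240)),(k8,(nat_lit 6569))]]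
    [] k0
    [[k0,k1,k2,k0,k0,k0],[k0,k1,k1,k1,k0,k0],[k0,k0,k0,k0,k0,k2]]
    [.ref k1 k0 [(z1,[z0,z1]),(z1,[y1,y2,z2])],.contra [y1,y1,z1],.contra [z1]]),
    .old (.lp [k6,k12,k6,k6,k6,k8] [k3,k3,k0,k0,k3,k3,k3,k3,k3,k3,k2,k2] k0 [] k24 k5
    [[(k8,k6),(k11,k7)],[(k9,k6),(k2,k9),(k3,k9)],[(k0,k9),(k5,k9),(k6,k9)],[(k0,k9),(k5,k9),(k6,k9)],[(k9,k6),(k2,
    k9),(k3,k9)],[(k4,k6),(k7,k6)],[(k4,k6),(k7,k6)],[(k9,k6),(k2,k9),(k3,k9)],[(k0,k6),(k5,k6),(k6,k6)],[(k1,k6),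
    (k10,k7)],[(k1,k7),(k10,k8)],[(k8,k7),(k11,k8)]]
    [] k0
    [[k1,k0,k0,k0,k1,k0],[k1,k0,k0,k0,k1,k1],[k0,k0,k0,k0,k0,k2]]
    [.ref k2 k0 [(z1,[z1])],.ref k0 k0 [(z1,[z1])],.contra [z1]])]⟩

/-- classes `0 0 1 0 2 2`, types `C0 C2 S0 C0 C0 C0` -/
noncomputable def cU6_1078 : CertX :=
  ⟨[k4,k6,k16,k4,k36,k36],[(false,k0,[k0,k1,k2,k3,k4,k5])],[[[([z1,z0,z0,z0,z1,z1],z2)],[([z1,z0,z0,z0,z1,z0],z2),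
    ([z0,z1,z0,z2,z0,z0],z2)],[([z1,z0,z0,z0,z1,z0],z2)],[]]],
    [.old (.leafM k0 [k0,k1,k2,k3,k4,k5] [(z1,[y1,z1])] []),
    .old (.lp [(nat_lit 2544),(nat_lit 2544),(nat_lit 2544),(nat_lit 3180),(nat_lit 9858),(nat_lit 4240)] [(nat_lit 4137),
    (nat_lit 4137),(nat_lit 4137),(nat_lit 4137),(nat_lit 4137),(nat_lit 4137),(nat_lit 3819),(nat_lit 3819),
    (nat_lit 960),k0,(nat_lit 3289),(nat_lit 3289)] k0 [[],[k0,k0,k0,k0,k0,k0,k0,(nat_lit 318)],[],[k0,k0,k0,k0,k0,k0,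
    (nat_lit 4134)],[],[],[(nat_lit 318)],[k0,k0,(nat_lit 4134)]] (nat_lit 12720) k6
    [[(k10,(nat_lit 3392)),(k8,(nat_lit 5721))],[(k2,(nat_lit 2544)),(k3,(nat_lit 2544)),(k9,(nat_lit 6999))],[(k0,
    (nat_lit 2544)),(k5,(nat_lit 2544)),(k6,(nat_lit 2544))],[(k0,(nat_lit 2544)),(k5,(nat_lit 2544)),(k6,
    (nat_lit 6996))],[(k2,(nat_lit 2544)),(k3,(nat_lit 2544)),(k9,(nat_lit 2547))],[(k4,(nat_lit 2544)),(k7,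
    (nat_lit 2862))],[(k4,(nat_lit 2862)),(k7,(nat_lit 3180))],[(k3,(nat_lit 2544)),(k2,(nat_lit 6996)),(k9,
    (nat_lit 6999))],[(k5,(nat_lit 2547)),(k0,(nat_lit 6999)),(k6,(nat_lit 6999))],[(k1,(nat_lit 5721)),(k11,
    (nat_lit 6569))],[(k10,(nat_lit 4240)),(k8,(nat_lit 6569))],[(k1,(nat_lit 3392)),(k11,(nat_lit 4240))]]
    [] k0
    [[k0,k1,k2,k0,k0,k0],[k0,k1,k1,k1,k0,k0],[k0,k0,k0,k0,k0,k2]]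
    [.contra [y1,y2,y1,z2],.contra [y1,y1,z0,z1],.contra [z1]]),
    .old (.lp [(nat_lit 208),k48,k54,k48,k32,k80] [k0,k8,k84,k84,k81,k81,k84,k84,k100,k84,k68,k68] k0 [[k0,k0,k0,k84],[],
    [k0,k84]] (nat_lit 240) k6
    [[(k8,k108),(k10,k140)],[(k2,k48),(k3,k132),(k9,k132)],[(k6,k48),(k0,k132),(k5,k135)],[(k0,k48),(k6,k48),(k5,
    k51)],[(k2,k51),(k9,k51),(k3,k135)],[(k7,k51),(k4,k54)],[(k7,k48),(k4,k51)],[(k2,k48),(k3,k48),(k9,k48)],[(k6,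
    k48),(k5,k51),(k0,k132)],[(k11,k48),(k1,k108)],[(k8,k48),(k10,k80)],[(k11,k80),(k1,k140)]]
    [] k0
    [[k0,k1,k1,k1,k0,k0],[k0,k1,k0,k2,k0,k0],[k0,k0,k0,k0,k0,k2]]
    [.contra [y1,y1,z1],.ref k1 k0 [(z1,[z0,z1]),(z1,[z1])],.contra [z1]]),
    .old (.lp [k12,k20,k12,k14,k12,k24] [k6,k6,k2,k2,k6,k6,k5,k5,k6,k6,k0,k0] k0 [[k0,k0,k0,k4],[],[k0,k4]] k48 k5
    [[(k8,k12),(k10,k18)],[(k2,k12),(k9,k12),(k3,k16)],[(k0,k16),(k6,k17),(k5,k20)],[(k0,k12),(k5,k16),(k6,k17)],[(k9,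
    k12),(k2,k16),(k3,k20)],[(k4,k12),(k7,k13)],[(k4,k13),(k7,k14)],[(k9,k13),(k2,k17),(k3,k17)],[(k0,k12),(k5,k12),
    (k6,k13)],[(k1,k12),(k11,k18)],[(k8,k18),(k10,k24)],[(k1,k18),(k11,k24)]]
    [] k0
    [[k1,k0,k0,k0,k1,k0],[k0,k1,k1,k1,k0,k0]]
    [.ref k2 k0 [(z1,[z1])],.ref k0 k0 [(z1,[y1,z1])]])]⟩

/-- classes `0 0 1 0 2 2`, types `C0 C2 S0 C0 C0 C2` -/
noncomputable def cU6_1079 : CertX :=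
  ⟨[k4,k6,k16,k4,k36,k38],[(false,k0,[k0,k1,k2,k3,k4,k5])],[[[([z1,z0,z0,z0,z1,z1],z2)],[]]],
    [.old (.leafM k0 [k0,k1,k2,k3,k4,k5] [(z1,[y1,z1])] []),
    .old (.lp [k2,k4,k2,k2,k2,k2] [k1,k1,k0,k0,k1,k1,k1,k1,k1,k1,k1,k1] k0 [] k8 k5
    [[(k10,k2),(k11,k2)],[(k9,k2),(k2,k3),(k3,k3)],[(k0,k3),(k5,k3),(k6,k3)],[(k0,k3),(k5,k3),(k6,k3)],[(k9,k2),(k2,
    k3),(k3,k3)],[(k4,k2),(k7,k2)],[(k4,k2),(k7,k2)],[(k9,k2),(k2,k3),(k3,k3)],[(k0,k2),(k5,k2),(k6,k2)],[(k10,k2),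
    (k11,k2)],[(k1,k2),(k8,k2)],[(k1,k2),(k8,k2)]]
    [] k0
    [[k1,k0,k0,k0,k1,k1]]
    [.ref k0 k0 [(z1,[z1])]])]⟩

/-- classes `0 0 1 0 2 2`, types `C0 C2 S0 C0 N0 N1` -/
noncomputable def cU6_1080 : CertX :=
  ⟨[k4,k6,k16,k4,k44,k45],[(false,k0,[k0,k1,k2,k3,k4,k5])],[[[([z1,z0,z0,z0,z1,z0],z2),([z0,z1,z0,z2,z0,z0],z2)],
    [([z1,z0,z0,z0,z1,z0],z2)],[]]],
    [.old (.lp [(nat_lit 2544),(nat_lit 2544),(nat_lit 2544),(nat_lit 3180),(nat_lit 9858),(nat_lit 4240)] [(nat_lit 4137),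
    (nat_lit 4137),(nat_lit 4137),(nat_lit 4137),(nat_lit 4137),(nat_lit 4137),(nat_lit 3819),(nat_lit 3819),
    (nat_lit 960),k0,(nat_lit 3289),(nat_lit 3289)] k0 [[],[k0,k0,k0,k0,k0,k0,k0,(nat_lit 318)],[],[k0,k0,k0,k0,k0,k0,
    (nat_lit 4134)],[],[],[(nat_lit 318)],[k0,k0,(nat_lit 4134)]] (nat_lit 12720) k6
    [[(k8,(nat_lit 5721))],[(k2,(nat_lit 2544)),(k3,(nat_lit 2544)),(k9,(nat_lit 6999))],[(k0,(nat_lit 2544)),(k5,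
    (nat_lit 2544)),(k6,(nat_lit 2544))],[(k0,(nat_lit 2544)),(k5,(nat_lit 2544)),(k6,(nat_lit 6996))],[(k2,
    (nat_lit 2544)),(k3,(nat_lit 2544)),(k9,(nat_lit 2547))],[(k4,(nat_lit 2544)),(k7,(nat_lit 2862))],[(k4,
    (nat_lit 2862)),(k7,(nat_lit 3180))],[(k3,(nat_lit 2544)),(k2,(nat_lit 6996)),(k9,(nat_lit 6999))],[(k5,
    (nat_lit 2547)),(k0,(nat_lit 6999)),(k6,(nat_lit 6999))],[(k1,(nat_lit 5721))],[(k10,(nat_lit 4240))],[(k11,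
    (nat_lit 4240))]]
    [] k0
    [[k0,k1,k2,k0,k0,k0],[k0,k1,k1,k1,k0,k0],[k0,k0,k0,k0,k0,k2]]
    [.contra [y1,y2,y1,z2],.contra [y1,y1,z0,z1],.contra [z1]]),
    .old (.lp [(nat_lit 594),k132,k150,k132,k66,(nat_lit 220)] [k0,k0,(nat_lit 231),(nat_lit 231),(nat_lit 222),
    (nat_lit 222),(nat_lit 231),(nat_lit 231),(nat_lit 297),(nat_lit 231),k187,k187] k0 [[k0,k0,k0,(nat_lit 231)],[],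
    [k0,(nat_lit 231)]] (nat_lit 660) k6
    [[(k8,(nat_lit 297))],[(k2,k132),(k3,(nat_lit 363)),(k9,(nat_lit 363))],[(k6,k132),(k0,(nat_lit 363)),(k5,
    (nat_lit 372))],[(k0,k132),(k6,k132),(k5,k141)],[(k2,k141),(k9,k141),(k3,(nat_lit 372))],[(k7,k141),(k4,k150)],
    [(k7,k132),(k4,k141)],[(k2,k132),(k3,k132),(k9,k132)],[(k6,k132),(k5,k141),(k0,(nat_lit 363))],[(k1,
    (nat_lit 297))],[(k10,(nat_lit 220))],[(k11,(nat_lit 220))]]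
    [] k0
    [[k0,k1,k1,k1,k0,k0],[k0,k1,k0,k2,k0,k0],[k0,k0,k0,k0,k0,k2]]
    [.contra [y1,y1,z1],.ref k0 k0 [(z1,[z0,z1]),(z1,[z1])],.contra [z1]]),
    .old (.lp [k6,k12,k6,k6,k6,k8] [k3,k3,k0,k0,k3,k3,k3,k3,k3,k3,k2,k2] k0 [] k24 k5
    [[(k8,k6)],[(k9,k6),(k2,k9),(k3,k9)],[(k0,k9),(k5,k9),(k6,k9)],[(k0,k9),(k5,k9),(k6,k9)],[(k9,k6),(k2,k9),(k3,
    k9)],[(k4,k6),(k7,k6)],[(k4,k6),(k7,k6)],[(k9,k6),(k2,k9),(k3,k9)],[(k0,k6),(k5,k6),(k6,k6)],[(k1,k6)],[(k10,k8)],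
    [(k11,k8)]]
    [] k0
    [[k1,k0,k0,k0,k1,k0],[k0,k0,k0,k0,k0,k2]]
    [.ref k1 k0 [(z1,[z1])],.contra [z1]])]⟩

/-- classes `0 0 1 0 2 2`, types `C0 C2 S0 C0 N0 N2` -/
noncomputable def cU6_1081 : CertX :=
  ⟨[k4,k6,k16,k4,k44,k46],[(false,k0,[k0,k1,k2,k3,k4,k5])],[[[([z1,z0,z0,z0,z1,z1],z2)],[]]],
    [.old (.leafM k4 [k4,k5,k0,k1,k2,k3] [(z1,[y1,z1])] []),
    .old (.lp [k2,k4,k2,k2,k2,k2] [k1,k1,k0,k0,k1,k1,k1,k1,k1,k1,k1,k1] k0 [] k8 k5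
    [[(k11,k2)],[(k9,k2),(k2,k3),(k3,k3)],[(k0,k3),(k5,k3),(k6,k3)],[(k0,k3),(k5,k3),(k6,k3)],[(k9,k2),(k2,k3),(k3,
    k3)],[(k4,k2),(k7,k2)],[(k4,k2),(k7,k2)],[(k9,k2),(k2,k3),(k3,k3)],[(k0,k2),(k5,k2),(k6,k2)],[(k10,k2)],[(k1,k2)],
    [(k8,k2)]]
    [] k0
    [[k1,k0,k0,k0,k1,k1]]
    [.ref k0 k0 [(z1,[z1])]])]⟩

/-- classes `0 0 1 0 2 2`, types `C0 C2 S0 C0 S0 S0` -/
noncomputable def cU6_1082 : CertX :=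
  ⟨[k4,k6,k16,k4,k32,k32],[(false,k0,[k0,k1,k2,k3,k4,k5])],[[[([z1,z0,z0,z0,z1,z1],z2)],[([z1,z0,z0,z0,z1,z0],z2),
    ([z0,z1,z0,z2,z0,z2],z2)],[([z1,z0,z0,z0,z1,z0],z2)],[]]],
    [.old (.leafM k0 [k0,k1,k2,k3,k4,k5] [(z1,[y1,z1])] []),
    .old (.lp [k162,k60,k48,k42,k78,k80] [k0,k42,k72,k72,k78,k78,k84,k78,k63,k63,k62,k62] k0 [[k0,k0,k0,k84],[],[k0,
    k84]] (nat_lit 240) k6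
    [[(k8,k99),(k10,k100),(k11,k100),(k1,k120)],[(k2,k48),(k3,k132),(k9,k141)],[(k6,k48),(k0,k132),(k5,k138)],[(k0,
    k48),(k6,k48),(k5,k54)],[(k2,k54),(k9,k63),(k3,k138)],[(k4,k48),(k7,k48)],[(k4,k48),(k7,k48)],[(k2,k48),(k3,k48),
    (k9,k57)],[(k6,k57),(k5,k63),(k0,k141)],[(k8,k78),(k10,k79),(k11,k79),(k1,k99)],[(k8,k79),(k10,k80),(k11,k80),(k1,
    k100)],[(k8,k79),(k10,k80),(k11,k80),(k1,k100)]]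
    [] k0
    [[k0,k1,k1,k1,k0,k0],[k0,k1,k0,k2,k0,k0],[k0,k0,k0,k0,k0,k2]]
    [.contra [y1,y1,z0,z1],.contra [y1,z0,z1],.contra [z1]]),
    .old (.lp [k48,k24,k24,k38,k65,k40] [k15,k15,k27,k27,k27,k27,k20,k20,k13,k0,k19,k19] k0 [[],[k0,k0,k0,k0,k0,k0,k0,k7],
    [],[k0,k0,k0,k0,k0,k0,k27],[],[],[k7],[k0,k0,k27]] k120 k6
    [[(k10,k44),(k11,k44),(k1,k48),(k8,k50)],[(k2,k36),(k3,k36),(k9,k70)],[(k5,k24),(k6,k24),(k0,k36)],[(k5,k24),(k0,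
    k36),(k6,k58)],[(k2,k24),(k3,k24),(k9,k24)],[(k4,k24),(k7,k31)],[(k4,k31),(k7,k38)],[(k3,k24),(k2,k58),(k9,k58)],
    [(k5,k24),(k6,k58),(k0,k70)],[(k10,k46),(k11,k46),(k1,k50),(k8,k52)],[(k10,k40),(k11,k40),(k1,k44),(k8,k46)],
    [(k10,k40),(k11,k40),(k1,k44),(k8,k46)]]
    [] k0
    [[k0,k1,k2,k0,k0,k0],[k0,k1,k1,k1,k0,k0],[k0,k0,k0,k0,k0,k2]]
    [.ref k1 k0 [(z1,[z0,z1]),(z1,[y1,y2,z2])],.contra [y1,y1,z1],.contra [z1]]),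
    .old (.lp [k6,k12,k6,k6,k6,k8] [k3,k3,k0,k0,k3,k3,k3,k3,k3,k3,k2,k2] k0 [] k24 k5
    [[(k1,k6),(k8,k6),(k10,k7),(k11,k7)],[(k9,k6),(k2,k9),(k3,k9)],[(k0,k9),(k5,k9),(k6,k9)],[(k0,k9),(k5,k9),(k6,
    k9)],[(k9,k6),(k2,k9),(k3,k9)],[(k4,k6),(k7,k6)],[(k4,k6),(k7,k6)],[(k9,k6),(k2,k9),(k3,k9)],[(k0,k6),(k5,k6),(k6,
    k6)],[(k1,k6),(k8,k6),(k10,k7),(k11,k7)],[(k1,k7),(k8,k7),(k10,k8),(k11,k8)],[(k1,k7),(k8,k7),(k10,k8),(k11,k8)]]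
    [] k0
    [[k1,k0,k0,k0,k1,k0],[k1,k0,k0,k0,k1,k1],[k0,k0,k0,k0,k0,k2]]
    [.ref k2 k0 [(z1,[z1])],.ref k0 k0 [(z1,[z1])],.contra [z1]])]⟩

/-- classes `0 0 1 0 2 2`, types `C0 C2 S0 C2 B0 B1` -/
noncomputable def cU6_1083 : CertX :=
  ⟨[k4,k6,k16,k6,k40,k41],[(false,k0,[k0,k1,k2,k3,k4,k5])],[[[([z1,z1,z0,z0,z1,z1],z2)],[]]],
    [.old (.leafM k1 [k0,k1,k4,k5] [] [(k2,k3,z1,[y1,z1]),(k3,k2,z1,[y1,z1])]),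
    .old (.lp [k6,k12,k6,k6,k6,k8] [k3,k3,k0,k0,k3,k3,k3,k3,k3,k3,k2,k2] k0 [] k24 k5
    [[(k8,k6),(k11,k7)],[(k6,k6),(k2,k9),(k3,k9)],[(k0,k9),(k5,k9),(k9,k9)],[(k0,k9),(k5,k9),(k9,k9)],[(k6,k6),(k2,
    k9),(k3,k9)],[(k4,k6),(k7,k6)],[(k4,k6),(k7,k6)],[(k0,k6),(k5,k6),(k9,k6)],[(k6,k6),(k2,k9),(k3,k9)],[(k1,k6),
    (k10,k7)],[(k1,k7),(k10,k8)],[(k8,k7),(k11,k8)]]
    [] k0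
    [[k0,k0,k1,k1,k0,k0],[k0,k0,k0,k0,k0,k2]]
    [.ref k0 k0 [(z1,[y1,z1])],.contra [z1]])]⟩

/-- classes `0 0 1 0 2 2`, types `C0 C2 S0 C2 C0 C0` -/
noncomputable def cU6_1084 : CertX :=
  ⟨[k4,k6,k16,k6,k36,k36],[(false,k0,[k0,k1,k2,k3,k4,k5])],[[[([z1,z1,z0,z0,z1,z1],z2)],[]]],
    [.old (.leafM k0 [k0,k1,k4,k5] [] [(k2,k3,z1,[y1,z1]),(k3,k2,z1,[y1,z1])]),
    .old (.lp [k6,k12,k6,k6,k6,k8] [k3,k3,k0,k0,k3,k3,k3,k3,k3,k3,k2,k2] k0 [] k24 k5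
    [[(k8,k6),(k10,k7)],[(k6,k6),(k2,k9),(k3,k9)],[(k0,k9),(k5,k9),(k9,k9)],[(k0,k9),(k5,k9),(k9,k9)],[(k6,k6),(k2,
    k9),(k3,k9)],[(k4,k6),(k7,k6)],[(k4,k6),(k7,k6)],[(k0,k6),(k5,k6),(k9,k6)],[(k6,k6),(k2,k9),(k3,k9)],[(k1,k6),
    (k11,k7)],[(k8,k7),(k10,k8)],[(k1,k7),(k11,k8)]]
    [] k0
    [[k0,k0,k1,k1,k0,k0],[k0,k0,k0,k0,k0,k2]]
    [.ref k0 k0 [(z1,[y1,z1])],.contra [z1]])]⟩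

/-- classes `0 0 1 0 2 2`, types `C0 C2 S0 C2 C0 C2` -/
noncomputable def cU6_1085 : CertX :=
  ⟨[k4,k6,k16,k6,k36,k38],[(false,k0,[k0,k1,k2,k3,k4,k5])],[[[([z1,z1,z0,z0,z1,z1],z2)],[]]],
    [.old (.leafM k0 [k0,k1,k4,k5] [] [(k2,k3,z1,[y1,z1]),(k3,k2,z1,[y1,z1])]),
    .old (.lp [k4,k4,k6,k4,k4,k4] [k1,k1,k1,k1,k0,k0,k1,k1,k1,k1,k1,k1] k0 [] k16 k5
    [[(k10,k4),(k11,k4)],[(k2,k4),(k3,k4),(k6,k4)],[(k0,k4),(k9,k4),(k5,k5)],[(k0,k4),(k9,k4),(k5,k5)],[(k2,k5),(k3,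
    k5),(k6,k5)],[(k7,k5),(k4,k6)],[(k7,k4),(k4,k5)],[(k0,k4),(k9,k4),(k5,k5)],[(k2,k4),(k3,k4),(k6,k4)],[(k10,k4),
    (k11,k4)],[(k1,k4),(k8,k4)],[(k1,k4),(k8,k4)]]
    [] k0
    [[k0,k0,k1,k1,k0,k0]]
    [.ref k0 k0 [(z1,[y1,z1])]])]⟩

/-- classes `0 0 1 0 2 2`, types `C0 C2 S0 C2 N0 N1` -/
noncomputable def cU6_1086 : CertX :=
  ⟨[k4,k6,k16,k6,k44,k45],[(false,k0,[k0,k1,k2,k3,k4,k5])],[[[([z1,z1,z0,z0,z1,z1],z2)],[]]],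
    [.old (.lp [k12,k12,k42,k18,k12,k20] [k15,k15,k15,k15,k0,k0,k12,k12,k15,k15,k11,k11] k0 [] k60 k6
    [[(k8,k12)],[(k2,k12),(k3,k12),(k6,k15)],[(k0,k12),(k9,k12),(k5,k27)],[(k0,k12),(k9,k12),(k5,k27)],[(k2,k27),(k3,
    k27),(k6,k30)],[(k7,k30),(k4,k42)],[(k7,k18),(k4,k30)],[(k0,k15),(k9,k15),(k5,k30)],[(k2,k12),(k3,k12),(k6,k15)],
    [(k1,k12)],[(k10,k20)],[(k11,k20)]]
    [] k0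
    [[k1,k1,k0,k0,k1,k0],[k0,k0,k0,k0,k0,k2]]
    [.contra [y1,z1],.contra [z1]]),
    .old (.lp [k6,k12,k6,k6,k6,k8] [k3,k3,k0,k0,k3,k3,k3,k3,k3,k3,k2,k2] k0 [] k24 k5
    [[(k8,k6)],[(k6,k6),(k2,k9),(k3,k9)],[(k0,k9),(k5,k9),(k9,k9)],[(k0,k9),(k5,k9),(k9,k9)],[(k6,k6),(k2,k9),(k3,
    k9)],[(k4,k6),(k7,k6)],[(k4,k6),(k7,k6)],[(k0,k6),(k5,k6),(k9,k6)],[(k6,k6),(k2,k9),(k3,k9)],[(k1,k6)],[(k10,k8)],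
    [(k11,k8)]]
    [] k0
    [[k0,k0,k1,k1,k0,k0],[k0,k0,k0,k0,k0,k2]]
    [.ref k0 k0 [(z1,[y1,z1])],.contra [z1]])]⟩

/-- classes `0 0 1 0 2 2`, types `C0 C2 S0 C2 N0 N2` -/
noncomputable def cU6_1087 : CertX :=
  ⟨[k4,k6,k16,k6,k44,k46],[(false,k0,[k0,k1,k2,k3,k4,k5])],[[[([z1,z1,z0,z0,z1,z1],z2)],[]]],
    [.old (.leafM k1 [k0,k1,k4,k5] [] [(k2,k3,z1,[y1,z1]),(k3,k2,z1,[y1,z1])]),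
    .old (.lp [k4,k4,k6,k4,k4,k4] [k1,k1,k1,k1,k0,k0,k1,k1,k1,k1,k1,k1] k0 [] k16 k5
    [[(k11,k4)],[(k2,k4),(k3,k4),(k6,k4)],[(k0,k4),(k9,k4),(k5,k5)],[(k0,k4),(k9,k4),(k5,k5)],[(k2,k5),(k3,k5),(k6,
    k5)],[(k7,k5),(k4,k6)],[(k7,k4),(k4,k5)],[(k0,k4),(k9,k4),(k5,k5)],[(k2,k4),(k3,k4),(k6,k4)],[(k10,k4)],[(k1,k4)],
    [(k8,k4)]]
    [] k0
    [[k0,k0,k1,k1,k0,k0]]
    [.ref k0 k0 [(z1,[y1,z1])]])]⟩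

/-- classes `0 0 1 0 2 2`, types `C0 C2 S0 C2 S0 S0` -/
noncomputable def cU6_1088 : CertX :=
  ⟨[k4,k6,k16,k6,k32,k32],[(false,k0,[k0,k1,k2,k3,k4,k5])],[[[([z1,z1,z0,z0,z1,z1],z2)],[]]],
    [.old (.leafM k0 [k0,k1,k4,k5] [] [(k2,k3,z1,[y1,z1]),(k3,k2,z1,[y1,z1])]),
    .old (.lp [k6,k12,k6,k6,k6,k8] [k3,k3,k0,k0,k3,k3,k3,k3,k3,k3,k2,k2] k0 [] k24 k5
    [[(k1,k6),(k8,k6),(k10,k7),(k11,k7)],[(k6,k6),(k2,k9),(k3,k9)],[(k0,k9),(k5,k9),(k9,k9)],[(k0,k9),(k5,k9),(k9,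
    k9)],[(k6,k6),(k2,k9),(k3,k9)],[(k4,k6),(k7,k6)],[(k4,k6),(k7,k6)],[(k0,k6),(k5,k6),(k9,k6)],[(k6,k6),(k2,k9),(k3,
    k9)],[(k1,k6),(k8,k6),(k10,k7),(k11,k7)],[(k1,k7),(k8,k7),(k10,k8),(k11,k8)],[(k1,k7),(k8,k7),(k10,k8),(k11,k8)]]
    [] k0
    [[k0,k0,k1,k1,k0,k0],[k0,k0,k0,k0,k0,k2]]
    [.ref k0 k0 [(z1,[y1,z1])],.contra [z1]])]⟩

/-- classes `0 0 1 0 2 2`, types `S0 S0 C0 S0 B0 B1` -/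
noncomputable def cU6_1089 : CertX :=
  ⟨[k0,k0,k20,k0,k40,k41],[(false,k0,[k0,k1,k2,k3,k4,k5])],[[[([z1,z1,z0,z0,z1,z1],z2)],[([z1,z0,z0,z0,z1,z1],z2)],
    []]],
    [.old (.leafM k1 [k0,k1,k4,k5] [] [(k2,k3,z1,[y1,z1]),(k3,k2,z1,[y1,z1])]),
    .old (.leafM k4 [k4,k5,k0,k1,k2,k3] [(z1,[y1,z1])] []),
    .old (.lp [(nat_lit 360),(nat_lit 420),k126,(nat_lit 294),k168,(nat_lit 280)] [k156,k156,(nat_lit 252),k0,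
    (nat_lit 308),(nat_lit 238),k189,k189,(nat_lit 252),(nat_lit 252),k196,k196] k0 [[],[k0,k0,k0,k0,k0,k0,k0,
    (nat_lit 315)],[],[],[],[],[(nat_lit 315)]] (nat_lit 840) k6
    [[(k8,(nat_lit 264)),(k11,(nat_lit 320))],[(k2,(nat_lit 264)),(k5,(nat_lit 278)),(k6,(nat_lit 327)),(k0,
    (nat_lit 360)),(k3,(nat_lit 516)),(k9,(nat_lit 579))],[(k6,k168),(k2,(nat_lit 420)),(k9,(nat_lit 420)),(k5,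
    (nat_lit 434)),(k0,(nat_lit 516)),(k3,(nat_lit 672))],[(k2,k168),(k9,k168),(k5,k182),(k6,(nat_lit 231)),(k0,
    (nat_lit 264)),(k3,(nat_lit 420))],[(k2,k182),(k9,k182),(k5,k196),(k6,(nat_lit 245)),(k0,(nat_lit 278)),(k3,
    (nat_lit 434))],[(k7,k175)],[(k4,k175)],[(k3,k168),(k2,(nat_lit 231)),(k9,(nat_lit 231)),(k5,(nat_lit 245)),(k6,
    (nat_lit 294)),(k0,(nat_lit 327))],[(k2,k168),(k9,k168),(k5,k182),(k6,(nat_lit 231)),(k3,(nat_lit 420)),(k0,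
    (nat_lit 579))],[(k10,(nat_lit 224)),(k1,(nat_lit 264))],[(k10,(nat_lit 280)),(k1,(nat_lit 320))],[(k8,
    (nat_lit 224)),(k11,(nat_lit 280))]]
    [] k0
    [[k0,k1,k1,k1,k0,k0],[k0,k0,k1,k1,k0,k0],[k0,k0,k0,k0,k0,k2]]
    [.ref k1 k0 [(z1,[y1,z1])],.ref k0 k0 [(z1,[y1,z1])],.contra [z1]])]⟩

/-- classes `0 0 1 0 2 2`, types `S0 S0 C0 S0 C0 C0` -/
noncomputable def cU6_1090 : CertX :=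
  ⟨[k0,k0,k20,k0,k36,k36],[(false,k0,[k0,k1,k2,k3,k4,k5])],[[[([z1,z1,z0,z0,z1,z1],z2)],[([z1,z0,z0,z0,z1,z1],z2)],
    []]],
    [.old (.leafM k0 [k0,k1,k4,k5] [] [(k2,k3,z1,[y1,z1]),(k3,k2,z1,[y1,z1])]),
    .old (.leafM k0 [k0,k1,k2,k3,k4,k5] [(z1,[y1,z1])] []),
    .old (.lp [(nat_lit 360),(nat_lit 420),k84,(nat_lit 336),k168,(nat_lit 280)] [k135,k135,(nat_lit 210),k0,
    (nat_lit 315),(nat_lit 231),k147,k147,(nat_lit 231),(nat_lit 231),k175,k175] k0 [[],[k0,k0,k0,k0,k0,k0,k0,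
    (nat_lit 315)],[],[],[],[],[(nat_lit 315)]] (nat_lit 840) k6
    [[(k8,(nat_lit 264)),(k10,(nat_lit 320))],[(k5,(nat_lit 264)),(k2,(nat_lit 285)),(k6,(nat_lit 348)),(k0,
    (nat_lit 360)),(k3,(nat_lit 495)),(k9,(nat_lit 579))],[(k6,k168),(k5,(nat_lit 399)),(k9,(nat_lit 399)),(k2,
    (nat_lit 420)),(k0,(nat_lit 495)),(k3,(nat_lit 630))],[(k5,k189),(k9,k189),(k2,(nat_lit 210)),(k6,(nat_lit 273)),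
    (k0,(nat_lit 285)),(k3,(nat_lit 420))],[(k5,k168),(k9,k168),(k2,k189),(k6,(nat_lit 252)),(k0,(nat_lit 264)),(k3,
    (nat_lit 399))],[(k7,k168)],[(k4,k168)],[(k3,k168),(k5,(nat_lit 252)),(k9,(nat_lit 252)),(k2,(nat_lit 273)),(k6,
    (nat_lit 336)),(k0,(nat_lit 348))],[(k5,k168),(k9,k168),(k2,k189),(k6,(nat_lit 252)),(k3,(nat_lit 399)),(k0,
    (nat_lit 579))],[(k11,(nat_lit 224)),(k1,(nat_lit 264))],[(k8,(nat_lit 224)),(k10,(nat_lit 280))],[(k11,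
    (nat_lit 280)),(k1,(nat_lit 320))]]
    [] k0
    [[k0,k1,k1,k1,k0,k0],[k0,k0,k1,k1,k0,k0],[k0,k0,k0,k0,k0,k2]]
    [.ref k1 k0 [(z1,[y1,z1])],.ref k0 k0 [(z1,[y1,z1])],.contra [z1]])]⟩

/-- classes `0 0 1 0 2 2`, types `S0 S0 C0 S0 C0 C2` -/
noncomputable def cU6_1091 : CertX :=
  ⟨[k0,k0,k20,k0,k36,k38],[(false,k0,[k0,k1,k2,k3,k4,k5])],[[[([z1,z1,z0,z0,z1,z1],z2)],[([z1,z0,z0,z0,z1,z1],z2)],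
    []]],
    [.old (.leafM k0 [k0,k1,k4,k5] [] [(k2,k3,z1,[y1,z1]),(k3,k2,z1,[y1,z1])]),
    .old (.leafM k0 [k0,k1,k2,k3,k4,k5] [(z1,[y1,z1])] []),
    .old (.lp [k12,k8,k6,k6,k12,k0] [k0,k0,k2,k2,k3,k3,k3,k3,k0,k0,k6,k6] k0 [[k0,k0,k0,k4,k0,k0,k4],[],[k0,k4],[],[],[],
    [],[k0,k4]] k24 k5
    [[(k10,k6),(k11,k6)],[(k2,k6),(k9,k8),(k5,k9),(k6,k9),(k3,k10),(k0,k12)],[(k2,k8),(k3,k8),(k0,k10),(k9,k10),(k5,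
    k11),(k6,k11)],[(k0,k6),(k5,k7),(k6,k7),(k2,k8),(k3,k8),(k9,k10)],[(k5,k6),(k6,k6),(k2,k7),(k0,k9),(k9,k9),(k3,
    k11)],[(k7,k6)],[(k4,k6)],[(k5,k6),(k6,k6),(k2,k7),(k0,k9),(k9,k9),(k3,k11)],[(k0,k8),(k5,k9),(k6,k9),(k2,k10),
    (k3,k10),(k9,k12)],[(k10,k6),(k11,k6)],[(k1,k6),(k8,k6)],[(k1,k6),(k8,k6)]]
    [] k0
    [[k1,k0,k0,k0,k1,k1],[k0,k2,k0,k0,k0,k0],[k0,k0,k1,k1,k0,k0]]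
    [.ref k1 k0 [(z1,[z1])],.contra [z1],.ref k0 k0 [(z1,[y1,z1])]])]⟩

/-- classes `0 0 1 0 2 2`, types `S0 S0 C0 S0 N0 N1` -/
noncomputable def cU6_1092 : CertX :=
  ⟨[k0,k0,k20,k0,k44,k45],[(false,k0,[k0,k1,k2,k3,k4,k5])],[[[([z1,z1,z0,z0,z1,z1],z2)],[([z1,z0,z0,z0,z1,z0],z2)],
    []]],
    [.old (.lp [k168,(nat_lit 420),k168,(nat_lit 360),(nat_lit 252),(nat_lit 280)] [(nat_lit 231),(nat_lit 231),k0,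
    (nat_lit 210),(nat_lit 231),(nat_lit 231),k135,k135,(nat_lit 231),k147,k175,k175] k0 [[],[],[k0,k0,k0,k0,k0,k0,
    (nat_lit 315)],[],[],[],[],[k0,k0,k0,(nat_lit 315)]] (nat_lit 840) k6
    [[(k8,k168)],[(k0,k168),(k5,k168),(k3,k189),(k9,(nat_lit 252)),(k6,(nat_lit 264)),(k2,(nat_lit 399))],[(k0,k189),
    (k5,k189),(k3,(nat_lit 210)),(k9,(nat_lit 273)),(k6,(nat_lit 285)),(k2,(nat_lit 420))],[(k9,k168),(k0,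
    (nat_lit 399)),(k5,(nat_lit 399)),(k3,(nat_lit 420)),(k6,(nat_lit 495)),(k2,(nat_lit 630))],[(k0,k168),(k5,k168),
    (k3,k189),(k9,(nat_lit 252)),(k2,(nat_lit 399)),(k6,(nat_lit 579))],[(k7,(nat_lit 264))],[(k4,(nat_lit 264))],
    [(k0,(nat_lit 264)),(k3,(nat_lit 285)),(k9,(nat_lit 348)),(k6,(nat_lit 360)),(k2,(nat_lit 495)),(k5,
    (nat_lit 579))],[(k2,k168),(k0,(nat_lit 252)),(k5,(nat_lit 252)),(k3,(nat_lit 273)),(k9,(nat_lit 336)),(k6,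
    (nat_lit 348))],[(k1,k168)],[(k10,(nat_lit 280))],[(k11,(nat_lit 280))]]
    [] k0
    [[k1,k0,k0,k0,k1,k0],[k1,k1,k0,k0,k1,k0],[k0,k0,k0,k0,k0,k2]]
    [.contra [y1,z1],.contra [y1,z1],.contra [z1]]),
    .old (.lp [(nat_lit 360),(nat_lit 420),k84,(nat_lit 336),k168,(nat_lit 280)] [k135,k135,(nat_lit 210),k0,
    (nat_lit 315),(nat_lit 231),k147,k147,(nat_lit 231),(nat_lit 231),k175,k175] k0 [[],[k0,k0,k0,k0,k0,k0,k0,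
    (nat_lit 315)],[],[],[],[],[(nat_lit 315)]] (nat_lit 840) k6
    [[(k8,(nat_lit 264))],[(k5,(nat_lit 264)),(k2,(nat_lit 285)),(k6,(nat_lit 348)),(k0,(nat_lit 360)),(k3,
    (nat_lit 495)),(k9,(nat_lit 579))],[(k6,k168),(k5,(nat_lit 399)),(k9,(nat_lit 399)),(k2,(nat_lit 420)),(k0,
    (nat_lit 495)),(k3,(nat_lit 630))],[(k5,k189),(k9,k189),(k2,(nat_lit 210)),(k6,(nat_lit 273)),(k0,(nat_lit 285)),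
    (k3,(nat_lit 420))],[(k5,k168),(k9,k168),(k2,k189),(k6,(nat_lit 252)),(k0,(nat_lit 264)),(k3,(nat_lit 399))],[(k7,
    k168)],[(k4,k168)],[(k3,k168),(k5,(nat_lit 252)),(k9,(nat_lit 252)),(k2,(nat_lit 273)),(k6,(nat_lit 336)),(k0,
    (nat_lit 348))],[(k5,k168),(k9,k168),(k2,k189),(k6,(nat_lit 252)),(k3,(nat_lit 399)),(k0,(nat_lit 579))],[(k1,
    (nat_lit 264))],[(k10,(nat_lit 280))],[(k11,(nat_lit 280))]]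
    [] k0
    [[k0,k1,k1,k1,k0,k0],[k0,k0,k1,k1,k0,k0],[k0,k0,k0,k0,k0,k2]]
    [.contra [y1,y1,z1],.contra [y1,y1,z1],.contra [z1]]),
    .old (.lp [k6,k12,k6,k6,k6,k8] [k3,k3,k0,k0,k3,k3,k3,k3,k3,k3,k2,k2] k0 [] k24 k5
    [[(k8,k6)],[(k0,k6),(k5,k6),(k6,k6),(k9,k6),(k2,k9),(k3,k9)],[(k0,k9),(k5,k9),(k6,k9),(k9,k9),(k2,k12),(k3,k12)],
    [(k0,k9),(k5,k9),(k6,k9),(k9,k9),(k2,k12),(k3,k12)],[(k0,k6),(k5,k6),(k6,k6),(k9,k6),(k2,k9),(k3,k9)],[(k7,k6)],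
    [(k4,k6)],[(k0,k6),(k5,k6),(k6,k6),(k9,k6),(k2,k9),(k3,k9)],[(k0,k6),(k5,k6),(k6,k6),(k9,k6),(k2,k9),(k3,k9)],
    [(k1,k6)],[(k10,k8)],[(k11,k8)]]
    [] k0
    [[k1,k0,k0,k0,k1,k0],[k0,k0,k1,k1,k0,k0],[k0,k0,k0,k0,k0,k2]]
    [.ref k1 k0 [(z1,[z1])],.ref k0 k0 [(z1,[y1,z1])],.contra [z1]])]⟩

/-- classes `0 0 1 0 2 2`, types `S0 S0 C0 S0 N0 N2` -/
noncomputable def cU6_1093 : CertX :=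
  ⟨[k0,k0,k20,k0,k44,k46],[(false,k0,[k0,k1,k2,k3,k4,k5])],[[[([z1,z1,z0,z0,z1,z1],z2)],[([z1,z0,z0,z0,z1,z1],z2)],
    []]],
    [.old (.leafM k1 [k0,k1,k4,k5] [] [(k2,k3,z1,[y1,z1]),(k3,k2,z1,[y1,z1])]),
    .old (.leafM k4 [k4,k5,k0,k1,k2,k3] [(z1,[y1,z1])] []),
    .old (.lp [k2,k4,k2,k2,k2,k2] [k1,k1,k0,k0,k1,k1,k1,k1,k1,k1,k1,k1] k0 [] k8 k5
    [[(k11,k2)],[(k0,k2),(k5,k2),(k6,k2),(k9,k2),(k2,k3),(k3,k3)],[(k0,k3),(k5,k3),(k6,k3),(k9,k3),(k2,k4),(k3,k4)],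
    [(k0,k3),(k5,k3),(k6,k3),(k9,k3),(k2,k4),(k3,k4)],[(k0,k2),(k5,k2),(k6,k2),(k9,k2),(k2,k3),(k3,k3)],[(k7,k2)],
    [(k4,k2)],[(k0,k2),(k5,k2),(k6,k2),(k9,k2),(k2,k3),(k3,k3)],[(k0,k2),(k5,k2),(k6,k2),(k9,k2),(k2,k3),(k3,k3)],
    [(k10,k2)],[(k1,k2)],[(k8,k2)]]
    [] k0
    [[k1,k0,k0,k0,k1,k1],[k0,k0,k1,k1,k0,k0]]
    [.ref k1 k0 [(z1,[z1])],.ref k0 k0 [(z1,[y1,z1])]])]⟩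

/-- classes `0 0 1 0 2 2`, types `S0 S0 C0 S0 S0 S0` -/
noncomputable def cU6_1094 : CertX :=
  ⟨[k0,k0,k20,k0,k32,k32],[(false,k0,[k0,k1,k2,k3,k4,k5])],[[[([z1,z1,z0,z0,z1,z1],z2)],[([z1,z0,z0,z0,z1,z1],z2)],
    []]],
    [.old (.leafM k0 [k0,k1,k4,k5] [] [(k2,k3,z1,[y1,z1]),(k3,k2,z1,[y1,z1])]),
    .old (.leafM k0 [k0,k1,k2,k3,k4,k5] [(z1,[y1,z1])] []),
    .old (.lp [k60,k35,k12,k48,k40,k40] [k0,k0,k15,k10,k30,k18,k6,k6,k10,k10,k10,k10] k0 [[k0,k0,k15,k10,k0,k0,k0,k5],[k0,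
    k0,k0,k0,k0,k0,k0,k20],[k0,k10],[k0,k15],[],[],[k20,k5]] k120 k6
    [[(k8,k50),(k10,k50),(k11,k50),(k1,k60)],[(k5,k27),(k2,k35),(k6,k49),(k3,k50),(k0,k60),(k9,k70)],[(k6,k24),(k3,
    k40),(k5,k42),(k9,k45),(k0,k50),(k2,k50)],[(k5,k27),(k2,k30),(k0,k35),(k9,k35),(k6,k39),(k3,k50)],[(k5,k24),(k0,
    k27),(k2,k27),(k9,k32),(k6,k36),(k3,k42)],[(k7,k24)],[(k4,k24)],[(k3,k24),(k5,k36),(k2,k39),(k9,k44),(k6,k48),(k0,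
    k49)],[(k5,k32),(k2,k35),(k9,k40),(k6,k44),(k3,k45),(k0,k70)],[(k8,k40),(k10,k40),(k11,k40),(k1,k50)],[(k8,k40),
    (k10,k40),(k11,k40),(k1,k50)],[(k8,k40),(k10,k40),(k11,k40),(k1,k50)]]
    [] k0
    [[k0,k2,k0,k0,k0,k0],[k0,k1,k1,k1,k0,k0],[k0,k0,k1,k1,k0,k0],[k0,k0,k0,k0,k2,k0],[k0,k0,k0,k0,k0,k2]]
    [.contra [z1],.ref k1 k0 [(z1,[y1,z1])],.ref k0 k0 [(z1,[y1,z1])],.contra [z1],.contra [z1]])]⟩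

/-- classes `0 0 1 0 2 2`, types `S0 S0 S0 S0 B0 B1` -/
noncomputable def cU6_1095 : CertX :=
  ⟨[k0,k0,k16,k0,k40,k41],[(false,k0,[k0,k1,k2,k3,k4,k5])],[[[([z1,z1,z0,z0,z1,z1],z2)],[([z1,z0,z0,z0,z1,z1],z2)],
    [([z1,z0,z0,z0,z1,z0],z2),([z0,z1,z0,z1,z0,z0],z1),([z0,z0,z3,z0,z0,z0],z1)],[([z1,z0,z0,z0,z1,z0],z2),([z0,z3,z0,
    z6,z0,z0],z2),([z0,z0,z3,y3,z0,z0],z2)],[([z1,z0,z0,z0,z1,z0],z2),([z0,z3,z3,z3,z0,z0],z4)],[([z1,z0,z0,z0,z1,z0],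
    z2),([z0,z1,z0,z1,z0,z0],z1),([z0,z0,z2,z0,z0,z0],z1)],[([z1,z0,z0,z0,z1,z0],z2),([z0,z2,z2,z2,z0,z0],z3)],[([z1,
    z0,z0,z0,z1,z0],z2)],[]]],
    [.old (.leafM k1 [k0,k1,k4,k5] [] [(k2,k3,z1,[y1,z1]),(k3,k2,z1,[y1,z1])]),
    .old (.leafM k4 [k4,k5,k0,k1,k2,k3] [(z1,[y1,z1])] []),
    .old (.leafM k8 [k3,k5,k1,k2] [(z1,[y3,y3,y1,z3]),(z1,[z0,z0,z1]),(z1,[z0,z1])] [(k4,k0,z1,[z1]),(k0,k4,z1,[z1])]),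
    .old (.lp [(nat_lit 3504),(nat_lit 8760),(nat_lit 4380),(nat_lit 7154),(nat_lit 5256),(nat_lit 5840)] [(nat_lit 5256),
    (nat_lit 5256),(nat_lit 5256),k0,(nat_lit 4818),(nat_lit 4818),(nat_lit 1751),(nat_lit 5111),(nat_lit 5110),
    (nat_lit 3650),(nat_lit 4088),(nat_lit 4088)] k0 [[],[k0,k0,k0,k0,k0,k0,k0,(nat_lit 8760)],[],[],[],[],
    [(nat_lit 8760)],[k0,k0,k0,k0,k0,k0,(nat_lit 3212)]] (nat_lit 17520) k6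
    [[(k8,(nat_lit 3650)),(k11,(nat_lit 4672))],[(k0,(nat_lit 3504)),(k2,(nat_lit 3504)),(k5,(nat_lit 3942)),(k6,
    (nat_lit 7009)),(k3,(nat_lit 8760)),(k9,(nat_lit 13870))],[(k6,(nat_lit 3505)),(k0,(nat_lit 8760)),(k2,
    (nat_lit 8760)),(k5,(nat_lit 9198)),(k9,(nat_lit 10366)),(k3,(nat_lit 14016))],[(k0,(nat_lit 3504)),(k2,
    (nat_lit 3504)),(k5,(nat_lit 3942)),(k9,(nat_lit 5110)),(k6,(nat_lit 7009)),(k3,(nat_lit 8760))],[(k0,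
    (nat_lit 3942)),(k2,(nat_lit 3942)),(k5,(nat_lit 4380)),(k9,(nat_lit 5548)),(k6,(nat_lit 7447)),(k3,
    (nat_lit 9198))],[(k7,(nat_lit 4087)),(k4,(nat_lit 4380))],[(k7,(nat_lit 3794)),(k4,(nat_lit 4087))],[(k3,
    (nat_lit 3505)),(k0,(nat_lit 7009)),(k2,(nat_lit 7009)),(k5,(nat_lit 7447)),(k9,(nat_lit 8615)),(k6,
    (nat_lit 13726))],[(k9,(nat_lit 3504)),(k2,(nat_lit 5110)),(k5,(nat_lit 5548)),(k6,(nat_lit 8615)),(k3,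
    (nat_lit 10366)),(k0,(nat_lit 13870))],[(k1,(nat_lit 3650)),(k10,(nat_lit 4818))],[(k1,(nat_lit 4672)),(k10,
    (nat_lit 5840))],[(k8,(nat_lit 4818)),(k11,(nat_lit 5840))]]
    [] k0
    [[k2,k0,k0,k0,k2,k0],[k0,k1,k1,k1,k0,k0],[k0,k1,k0,k2,k0,k0],[k0,k2,k0,k2,k0,k0],[k0,k0,k2,k0,k0,k0],[k0,k0,k1,k1,
    k0,k0],[k0,k0,k0,k0,k0,k2]]
    [.contra [y1,y4,y2,y2,z6],.contra [z1,y2,y1,y1,z2],.contra [z3,y12,y5,y4,z12],.contra [y3,z0,z2,z1],.contra [z1],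
    .contra [y9,z0,z4,z5],.contra [z1]]),
    .old (.lp [k24,k53,k24,k56,k42,k40] [k31,k31,k25,k8,k31,k31,k0,k30,k22,k22,k23,k23] k0 [[k0,k0,k0,k0,k0,k0,k0,k1],[k0,
    k0,k0,k0,k0,k0,k0,k54],[k0,k0,k0,k12],[k0,k0,k0,k0,k0,k0,k9,k1],[],[],[k54,k1,k1],[k0,k0,k9,k0,k0,k0,k8]] k120 k6
    [[(k11,k32),(k8,k33)],[(k0,k24),(k5,k24),(k2,k30),(k3,k47),(k6,k54),(k9,k87)],[(k6,k24),(k0,k47),(k5,k47),(k2,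
    k53),(k9,k57),(k3,k70)],[(k2,k24),(k0,k30),(k5,k30),(k9,k40),(k3,k53),(k6,k70)],[(k0,k24),(k9,k24),(k2,k30),(k5,
    k36),(k3,k47),(k6,k54)],[(k4,k24),(k7,k25)],[(k4,k25),(k7,k26)],[(k3,k24),(k0,k54),(k5,k54),(k9,k64),(k2,k70),(k6,
    k94)],[(k5,k24),(k9,k34),(k2,k40),(k3,k57),(k6,k64),(k0,k87)],[(k1,k33),(k10,k41)],[(k1,k32),(k10,k40)],[(k11,
    k40),(k8,k41)]]
    [] k0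
    [[k1,k0,k2,k0,k1,k0],[k0,k2,k0,k0,k0,k0],[k0,k1,k2,k0,k0,k0],[k0,k1,k1,k1,k0,k0],[k0,k2,k0,k2,k0,k0],[k0,k0,k2,k0,
    k0,k0],[k0,k0,k1,k1,k0,k0],[k0,k0,k0,k0,k0,k2]]
    [.contra [z1,y1],.contra [z1],.ref k3 k0 [(z1,[z0,z1]),(z1,[y3,z0,z2]),(z1,[z3,z0,y1])],.contra [z1,y2,y1,z2],
    .ref k2 k0 [(z1,[z0,z1]),(z2,[z1]),(z2,[y3,z0,z2])],.contra [z1],.contra [y2,z0,z1],.contra [z1]]),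
    .old (.leafM k9 [k3,k5,k1,k2] [(z1,[y2,y2,y1,z2]),(z1,[z0,z0,z1]),(z1,[z0,z1])] [(k4,k0,z1,[z1]),(k0,k4,z1,[z1])]),
    .old (.lp [(nat_lit 4848),(nat_lit 12928),(nat_lit 5656),(nat_lit 11514),(nat_lit 6464),
    (nat_lit 6060)] [(nat_lit 7676),(nat_lit 7676),(nat_lit 7272),k0,(nat_lit 7272),(nat_lit 7272),(nat_lit 2423),
    (nat_lit 6263),(nat_lit 6868),(nat_lit 6868),(nat_lit 7070),(nat_lit 7070)] k0 [[],[k0,k0,k0,k0,k0,k0,k0,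
    (nat_lit 12928)],[k0,k0,k0,(nat_lit 808)],[k0,k0,k0,k0,k0,k0,(nat_lit 1212)],[],[],[(nat_lit 12928)],[k0,k0,
    (nat_lit 1212),k0,k0,k0,(nat_lit 1212)]] (nat_lit 24240) k6
    [[(k11,(nat_lit 5454)),(k8,(nat_lit 5656))],[(k0,(nat_lit 4848)),(k2,(nat_lit 5252)),(k5,(nat_lit 5252)),(k6,
    (nat_lit 10101)),(k3,(nat_lit 12524)),(k9,(nat_lit 18584))],[(k6,(nat_lit 4849)),(k0,(nat_lit 12524)),(k2,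
    (nat_lit 12928)),(k5,(nat_lit 12928)),(k9,(nat_lit 13332)),(k3,(nat_lit 20200))],[(k2,(nat_lit 4848)),(k0,
    (nat_lit 5252)),(k5,(nat_lit 5656)),(k9,(nat_lit 6060)),(k6,(nat_lit 11717)),(k3,(nat_lit 12928))],[(k9,
    (nat_lit 4848)),(k0,(nat_lit 5252)),(k2,(nat_lit 5656)),(k5,(nat_lit 6464)),(k6,(nat_lit 10505)),(k3,
    (nat_lit 12928))],[(k4,(nat_lit 5656)),(k7,(nat_lit 6665))],[(k4,(nat_lit 6665)),(k7,(nat_lit 7674))],[(k3,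
    (nat_lit 4849)),(k0,(nat_lit 10101)),(k5,(nat_lit 10505)),(k9,(nat_lit 10909)),(k2,(nat_lit 11717)),(k6,
    (nat_lit 16566))],[(k5,(nat_lit 4848)),(k9,(nat_lit 5252)),(k2,(nat_lit 6060)),(k6,(nat_lit 10909)),(k3,
    (nat_lit 13332)),(k0,(nat_lit 18584))],[(k1,(nat_lit 5656)),(k10,(nat_lit 6262))],[(k1,(nat_lit 5454)),(k10,
    (nat_lit 6060))],[(k11,(nat_lit 6060)),(k8,(nat_lit 6262))]]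
    [] k0
    [[k1,k0,k2,k0,k1,k0],[k2,k0,k0,k0,k2,k0],[k0,k1,k1,k1,k0,k0],[k0,k2,k0,k2,k0,k0],[k0,k0,k2,k0,k0,k0],[k0,k0,k1,k1,
    k0,k0],[k0,k0,k0,k0,k0,k2],[k0,k0,k0,k0,k0,k3]]
    [.contra [z1,y1],.contra [y1,y2,y2,z4],.contra [z1,y1,y1,z1],.ref k5 k0 [(z1,[z0,z1]),(z2,[z1]),(z1,[y1,z0,z1])],
    .contra [z1],.contra [y3,z0,z2],.contra [z1],.contra [z1,z2,z1,y2]]),
    .old (.lp [(nat_lit 252),(nat_lit 420),(nat_lit 210),(nat_lit 420),k168,k168] [(nat_lit 204),(nat_lit 204),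
    (nat_lit 240),k0,(nat_lit 225),(nat_lit 225),k50,k190,(nat_lit 246),(nat_lit 246),(nat_lit 246),
    (nat_lit 246)] k0 [[],[k0,k0,k0,k0,k0,k0,k0,(nat_lit 420)],[],[],[],[],[(nat_lit 420)]] (nat_lit 840) k6
    [[(k8,(nat_lit 210)),(k11,(nat_lit 210))],[(k2,(nat_lit 216)),(k5,(nat_lit 231)),(k0,(nat_lit 252)),(k6,
    (nat_lit 406)),(k3,(nat_lit 456)),(k9,(nat_lit 630))],[(k6,k190),(k9,(nat_lit 414)),(k2,(nat_lit 420)),(k5,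
    (nat_lit 435)),(k0,(nat_lit 456)),(k3,(nat_lit 660))],[(k9,k174),(k2,k180),(k5,k195),(k0,(nat_lit 216)),(k6,
    (nat_lit 370)),(k3,(nat_lit 420))],[(k9,k189),(k2,k195),(k5,(nat_lit 210)),(k0,(nat_lit 231)),(k6,(nat_lit 385)),
    (k3,(nat_lit 435))],[(k4,(nat_lit 210)),(k7,(nat_lit 245))],[(k4,(nat_lit 245)),(k7,(nat_lit 280))],[(k3,k190),
    (k9,(nat_lit 364)),(k2,(nat_lit 370)),(k5,(nat_lit 385)),(k0,(nat_lit 406)),(k6,(nat_lit 560))],[(k9,k168),(k2,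
    k174),(k5,k189),(k6,(nat_lit 364)),(k3,(nat_lit 414)),(k0,(nat_lit 630))],[(k10,k168),(k1,(nat_lit 210))],[(k10,
    k168),(k1,(nat_lit 210))],[(k8,k168),(k11,k168)]]
    [] k0
    [[k0,k1,k1,k1,k0,k0],[k0,k0,k2,k0,k0,k0],[k0,k0,k1,k1,k0,k0],[k0,k0,k0,k0,k0,k2],[k0,k0,k0,k0,k0,k3],[k0,k0,k0,k0,
    k0,k4]]
    [.contra [y1,y1,z1],.contra [z1],.contra [y1,y1,z1],.contra [z1],.ref k4 k0 [(z1,[z0,z1]),(z1,[y1,y3,z3])],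
    .ref k6 k0 [(z1,[z0,z1]),(z2,[y1,y4,z4])]]),
    .old (.lp [k6,k12,k8,k6,k6,k8] [k4,k4,k0,k2,k3,k3,k4,k4,k4,k4,k3,k3] k0 [[],[],[k0,k0,k0,k8]] k24 k5
    [[(k8,k6),(k11,k7)],[(k0,k6),(k6,k6),(k9,k6),(k5,k7),(k3,k8),(k2,k10)],[(k0,k8),(k6,k8),(k9,k8),(k5,k9),(k3,k10),
    (k2,k12)],[(k2,k6),(k0,k10),(k6,k10),(k9,k10),(k5,k11),(k3,k12)],[(k0,k7),(k6,k7),(k9,k7),(k3,k9),(k2,k11),(k5,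
    k16)],[(k7,k7),(k4,k8)],[(k7,k6),(k4,k7)],[(k0,k6),(k6,k6),(k9,k6),(k5,k7),(k3,k8),(k2,k10)],[(k0,k6),(k6,k6),(k9,
    k6),(k5,k7),(k3,k8),(k2,k10)],[(k1,k6),(k10,k7)],[(k1,k7),(k10,k8)],[(k8,k7),(k11,k8)]]
    [] k0
    [[k1,k0,k0,k0,k1,k0],[k1,k0,k0,k0,k1,k1],[k0,k2,k0,k0,k0,k0],[k0,k0,k1,k1,k0,k0],[k0,k0,k0,k2,k0,k0],[k0,k0,k0,k0,
    k0,k2]]
    [.ref k7 k0 [(z1,[z1])],.ref k1 k0 [(z1,[z1])],.contra [z1],.ref k0 k0 [(z1,[y1,z1])],.contra [z1],.contra [z1]])]⟩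

/-- classes `0 0 1 0 2 2`, types `S0 S0 S0 S0 C0 C0` -/
noncomputable def cU6_1096 : CertX :=
  ⟨[k0,k0,k16,k0,k36,k36],[(false,k0,[k0,k1,k2,k3,k4,k5])],[[[([z1,z1,z0,z0,z1,z1],z2)],[([z1,z0,z0,z0,z1,z1],z2)],
    [([z1,z0,z0,z0,z1,z0],z2),([z0,z1,z0,z1,z0,z0],z1),([z0,z0,z3,z0,z0,z0],z1)],[([z1,z0,z0,z0,z1,z0],z2),([z0,z3,z0,
    z6,z0,z0],z2),([z0,z0,z3,y3,z0,z0],z2)],[([z1,z0,z0,z0,z1,z0],z2),([z0,z3,z3,z3,z0,z0],z4)],[([z1,z0,z0,z0,z1,z0],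
    z2),([z0,z1,z0,z1,z0,z0],z1),([z0,z0,z2,z0,z0,z0],z1)],[([z1,z0,z0,z0,z1,z0],z2),([z0,z2,z0,z2,z0,z2],z3)],[([z1,
    z0,z0,z0,z1,z0],z2)],[]]],
    [.old (.leafM k0 [k0,k1,k4,k5] [] [(k2,k3,z1,[y1,z1]),(k3,k2,z1,[y1,z1])]),
    .old (.leafM k0 [k0,k1,k2,k3,k4,k5] [(z1,[y1,z1])] []),
    .old (.leafM k8 [k3,k5,k1,k2] [(z1,[y3,y3,y1,z3]),(z1,[z0,z0,z1]),(z1,[z0,z1])] [(k4,k0,z1,[z1]),(k0,k4,z1,[z1])]),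
    .old (.lp [(nat_lit 164220),(nat_lit 178296),(nat_lit 116280),(nat_lit 178296),(nat_lit 104880),
    (nat_lit 148580)] [(nat_lit 51612),(nat_lit 51612),(nat_lit 89148),k0,(nat_lit 75582),(nat_lit 75582),k0,
    (nat_lit 89148),(nat_lit 118427),(nat_lit 44137),(nat_lit 59432),(nat_lit 59432)] k0 [[k0,k0,k0,(nat_lit 37145),
    k0,k0,k0,(nat_lit 37145)],[k0,k0,k0,k0,k0,k0,k0,(nat_lit 178296)],[k0,(nat_lit 37145)],[],[],[],[(nat_lit 178296),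
    (nat_lit 37145)],[k0,k0,k0,k0,k0,k0,(nat_lit 89148)]] (nat_lit 445740) k6
    [[(k8,(nat_lit 97405)),(k10,(nat_lit 156400))],[(k2,(nat_lit 89539)),(k5,(nat_lit 140250)),(k0,(nat_lit 164220)),
    (k6,(nat_lit 178687)),(k3,(nat_lit 215832)),(k9,(nat_lit 349991))],[(k6,(nat_lit 89148)),(k2,(nat_lit 178296)),
    (k0,(nat_lit 215832)),(k5,(nat_lit 229007)),(k9,(nat_lit 260452)),(k3,(nat_lit 267444))],[(k2,(nat_lit 89148)),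
    (k0,(nat_lit 89539)),(k5,(nat_lit 102714)),(k9,(nat_lit 134159)),(k3,(nat_lit 178296)),(k6,(nat_lit 178296))],
    [(k2,(nat_lit 102714)),(k5,(nat_lit 116280)),(k0,(nat_lit 140250)),(k9,(nat_lit 147725)),(k6,(nat_lit 191862)),
    (k3,(nat_lit 229007))],[(k7,(nat_lit 102714)),(k4,(nat_lit 116280))],[(k7,(nat_lit 89148)),(k4,(nat_lit 102714))],
    [(k3,(nat_lit 89148)),(k2,(nat_lit 178296)),(k0,(nat_lit 178687)),(k5,(nat_lit 191862)),(k9,(nat_lit 223307)),(k6,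
    (nat_lit 356592))],[(k9,(nat_lit 90022)),(k2,(nat_lit 134159)),(k5,(nat_lit 147725)),(k6,(nat_lit 223307)),(k3,
    (nat_lit 260452)),(k0,(nat_lit 349991))],[(k11,(nat_lit 89585)),(k1,(nat_lit 97405))],[(k8,(nat_lit 89585)),(k10,
    (nat_lit 148580))],[(k11,(nat_lit 148580)),(k1,(nat_lit 156400))]]
    [] k0
    [[k0,k2,k0,k0,k0,k0],[k0,k1,k1,k1,k0,k0],[k0,k1,k0,k2,k0,k0],[k0,k2,k0,k2,k0,k0],[k0,k0,k2,k0,k0,k0],[k0,k0,k1,k1,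
    k0,k0],[k0,k0,k0,k0,k0,k2]]
    [.contra [z1],.contra [z1,y2,y1,y1,z2],.contra [z3,y12,y5,y4,z12],.contra [y3,z0,z2,z1],.contra [z1],.contra [y9,
    z0,z4,z5],.contra [z1]]),
    .old (.lp [k24,k53,k24,k56,k42,k40] [k31,k31,k25,k8,k31,k31,k0,k30,k22,k22,k23,k23] k0 [[k0,k0,k0,k0,k0,k0,k0,k1],[k0,
    k0,k0,k0,k0,k0,k0,k54],[k0,k0,k0,k12],[k0,k0,k0,k0,k0,k0,k9,k1],[],[],[k54,k1,k1],[k0,k0,k9,k0,k0,k0,k8]] k120 k6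
    [[(k10,k32),(k8,k33)],[(k0,k24),(k5,k24),(k2,k30),(k3,k47),(k6,k54),(k9,k87)],[(k6,k24),(k0,k47),(k5,k47),(k2,
    k53),(k9,k57),(k3,k70)],[(k2,k24),(k0,k30),(k5,k30),(k9,k40),(k3,k53),(k6,k70)],[(k0,k24),(k9,k24),(k2,k30),(k5,
    k36),(k3,k47),(k6,k54)],[(k4,k24),(k7,k25)],[(k4,k25),(k7,k26)],[(k3,k24),(k0,k54),(k5,k54),(k9,k64),(k2,k70),(k6,
    k94)],[(k5,k24),(k9,k34),(k2,k40),(k3,k57),(k6,k64),(k0,k87)],[(k1,k33),(k11,k41)],[(k10,k40),(k8,k41)],[(k1,k32),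
    (k11,k40)]]
    [] k0
    [[k1,k0,k2,k0,k1,k0],[k0,k2,k0,k0,k0,k0],[k0,k1,k2,k0,k0,k0],[k0,k1,k1,k1,k0,k0],[k0,k2,k0,k2,k0,k0],[k0,k0,k2,k0,
    k0,k0],[k0,k0,k1,k1,k0,k0],[k0,k0,k0,k0,k0,k2]]
    [.contra [z1,y1],.contra [z1],.ref k3 k0 [(z1,[z0,z1]),(z1,[y3,z0,z2]),(z1,[z3,z0,y1])],.contra [z1,y2,y1,z2],
    .ref k2 k0 [(z1,[z0,z1]),(z2,[z1]),(z2,[y3,z0,z2])],.contra [z1],.contra [y2,z0,z1],.contra [z1]]),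
    .old (.leafM k9 [k3,k5,k1,k2] [(z1,[y2,y2,y1,z2]),(z1,[z0,z0,z1]),(z1,[z0,z1])] [(k4,k0,z1,[z1]),(k0,k4,z1,[z1])]),
    .old (.lp [k24,k53,k24,k56,k42,k40] [k31,k31,k25,k8,k31,k31,k0,k30,k22,k22,k23,k23] k0 [[k0,k0,k0,k0,k0,k0,k0,k1],[k0,
    k0,k0,k0,k0,k0,k0,k54],[k0,k0,k0,k12],[k0,k0,k0,k0,k0,k0,k9,k1],[],[],[k54,k1,k1],[k0,k0,k9,k0,k0,k0,k8]] k120 k6
    [[(k10,k32),(k8,k33)],[(k0,k24),(k5,k24),(k2,k30),(k3,k47),(k6,k54),(k9,k87)],[(k6,k24),(k0,k47),(k5,k47),(k2,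
    k53),(k9,k57),(k3,k70)],[(k2,k24),(k0,k30),(k5,k30),(k9,k40),(k3,k53),(k6,k70)],[(k0,k24),(k9,k24),(k2,k30),(k5,
    k36),(k3,k47),(k6,k54)],[(k4,k24),(k7,k25)],[(k4,k25),(k7,k26)],[(k3,k24),(k0,k54),(k5,k54),(k9,k64),(k2,k70),(k6,
    k94)],[(k5,k24),(k9,k34),(k2,k40),(k3,k57),(k6,k64),(k0,k87)],[(k1,k33),(k11,k41)],[(k10,k40),(k8,k41)],[(k1,k32),
    (k11,k40)]]
    [] k0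
    [[k1,k0,k2,k0,k1,k0],[k0,k2,k0,k0,k0,k0],[k0,k1,k2,k0,k0,k0],[k0,k1,k1,k1,k0,k0],[k0,k2,k0,k2,k0,k0],[k0,k0,k2,k0,
    k0,k0],[k0,k0,k1,k1,k0,k0],[k0,k0,k0,k0,k0,k2]]
    [.contra [y1,y3,y2,z4],.contra [z1],.contra [z1,z2,z1,y2],.contra [y1,y1,z0,z1],.ref k5 k0 [(z1,[z0,z1]),(z2,
    [z1]),(z1,[z0,y2,y1,z2])],.contra [z1],.contra [y1,y1,z0,z1],.contra [z1]]),
    .old (.lp [k92,k100,k50,k120,k48,k60] [k44,k44,k48,k32,k65,k65,k0,k60,k66,k66,k60,k60] k0 [[k0,k0,k0,k40,k0,k0,k0,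
    k40],[k0,k0,k0,k0,k0,k0,k0,k100],[k0,k40],[],[],[],[k100,k40]] (nat_lit 240) k6
    [[(k8,k70),(k10,k76)],[(k2,k48),(k5,k71),(k0,k92),(k6,k96),(k3,k104),(k9,k170)],[(k6,k48),(k2,k100),(k0,k104),(k3,
    k116),(k9,k122),(k5,k123)],[(k0,k48),(k9,k66),(k5,k67),(k2,k84),(k3,k100),(k6,k132)],[(k9,k49),(k5,k50),(k2,k67),
    (k0,k71),(k6,k115),(k3,k123)],[(k4,k50),(k7,k55)],[(k4,k55),(k7,k60)],[(k3,k48),(k0,k96),(k9,k114),(k5,k115),(k2,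
    k132),(k6,k180)],[(k9,k48),(k5,k49),(k2,k66),(k6,k114),(k3,k122),(k0,k170)],[(k11,k54),(k1,k70)],[(k8,k54),(k10,
    k60)],[(k11,k60),(k1,k76)]]
    [] k0
    [[k0,k2,k0,k0,k0,k0],[k0,k1,k1,k1,k0,k0],[k0,k0,k2,k0,k0,k0],[k0,k0,k4,k0,k0,k0],[k0,k0,k1,k1,k0,k0],[k0,k0,k0,k0,
    k0,k2],[k0,k0,k0,k0,k0,k3]]
    [.contra [z1],.contra [y1,y1,z1],.contra [z1],.ref k6 k0 [(z1,[z0,z1]),(z2,[y1,y4,z4])],.contra [y1,y1,z1],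
    .contra [z1],.ref k4 k0 [(z1,[z0,z1]),(z1,[y1,y3,z3])]]),
    .old (.lp [k6,k12,k8,k6,k6,k8] [k4,k4,k0,k2,k3,k3,k4,k4,k4,k4,k3,k3] k0 [[],[],[k0,k0,k0,k8]] k24 k5
    [[(k8,k6),(k10,k7)],[(k0,k6),(k6,k6),(k9,k6),(k5,k7),(k3,k8),(k2,k10)],[(k0,k8),(k6,k8),(k9,k8),(k5,k9),(k3,k10),
    (k2,k12)],[(k2,k6),(k0,k10),(k6,k10),(k9,k10),(k5,k11),(k3,k12)],[(k0,k7),(k6,k7),(k9,k7),(k3,k9),(k2,k11),(k5,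
    k16)],[(k7,k7),(k4,k8)],[(k7,k6),(k4,k7)],[(k0,k6),(k6,k6),(k9,k6),(k5,k7),(k3,k8),(k2,k10)],[(k0,k6),(k6,k6),(k9,
    k6),(k5,k7),(k3,k8),(k2,k10)],[(k1,k6),(k11,k7)],[(k8,k7),(k10,k8)],[(k1,k7),(k11,k8)]]
    [] k0
    [[k1,k0,k0,k0,k1,k0],[k1,k0,k0,k0,k1,k1],[k0,k2,k0,k0,k0,k0],[k0,k0,k1,k1,k0,k0],[k0,k0,k0,k2,k0,k0],[k0,k0,k0,k0,
    k0,k2]]
    [.ref k7 k0 [(z1,[z1])],.ref k1 k0 [(z1,[z1])],.contra [z1],.ref k0 k0 [(z1,[y1,z1])],.contra [z1],.contra [z1]])]⟩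

/-- classes `0 0 1 0 2 2`, types `S0 S0 S0 S0 C0 C2` -/
noncomputable def cU6_1097 : CertX :=
  ⟨[k0,k0,k16,k0,k36,k38],[(false,k0,[k0,k1,k2,k3,k4,k5])],[[[([z1,z1,z0,z0,z1,z1],z2)],[([z1,z0,z0,z0,z1,z1],z2)],
    []]],
    [.old (.leafM k0 [k0,k1,k4,k5] [] [(k2,k3,z1,[y1,z1]),(k3,k2,z1,[y1,z1])]),
    .old (.leafM k0 [k0,k1,k2,k3,k4,k5] [(z1,[y1,z1])] []),
    .old (.lp [k12,k8,k6,k6,k12,k0] [k0,k0,k2,k2,k3,k3,k3,k3,k0,k0,k6,k6] k0 [[k0,k0,k0,k4,k0,k0,k4],[],[k0,k4],[],[],[],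
    [],[k0,k4]] k24 k5
    [[(k10,k6),(k11,k6)],[(k2,k6),(k9,k8),(k5,k9),(k6,k9),(k3,k10),(k0,k12)],[(k2,k8),(k3,k8),(k0,k10),(k9,k10),(k5,
    k11),(k6,k11)],[(k0,k6),(k5,k7),(k6,k7),(k2,k8),(k3,k8),(k9,k10)],[(k5,k6),(k6,k6),(k2,k7),(k0,k9),(k9,k9),(k3,
    k11)],[(k4,k6),(k7,k6)],[(k4,k6),(k7,k6)],[(k5,k6),(k6,k6),(k2,k7),(k0,k9),(k9,k9),(k3,k11)],[(k0,k8),(k5,k9),(k6,
    k9),(k2,k10),(k3,k10),(k9,k12)],[(k10,k6),(k11,k6)],[(k1,k6),(k8,k6)],[(k1,k6),(k8,k6)]]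
    [] k0
    [[k1,k0,k0,k0,k1,k1],[k0,k2,k0,k0,k0,k0],[k0,k0,k2,k0,k0,k0],[k0,k0,k1,k1,k0,k0],[k0,k0,k0,k2,k0,k0]]
    [.ref k1 k0 [(z1,[z1])],.contra [z1],.contra [z1],.ref k0 k0 [(z1,[y1,z1])],.contra [z1]])]⟩

/-- classes `0 0 1 0 2 2`, types `S0 S0 S0 S0 N0 N1` -/
noncomputable def cU6_1098 : CertX :=
  ⟨[k0,k0,k16,k0,k44,k45],[(false,k0,[k0,k1,k2,k3,k4,k5])],[[[([z1,z1,z0,z0,z1,z1],z2)],[([z1,z0,z0,z0,z1,z0],z2),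
    ([z0,z1,z0,z1,z0,z0],z1),([z0,z0,z3,z0,z0,z0],z1)],[([z1,z0,z0,z0,z1,z0],z2),([z0,z3,z0,z6,z0,z0],z2),([z0,z0,z3,
    y3,z0,z0],z2)],[([z1,z0,z0,z0,z1,z0],z2),([z0,z3,z3,z3,z0,z0],z4)],[([z1,z0,z0,z0,z1,z0],z2),([z0,z1,z0,z1,z0,z0],
    z1),([z0,z0,z2,z0,z0,z0],z1)],[([z1,z0,z0,z0,z1,z0],z2),([z0,z2,z0,z2,z0,z2],z3)],[([z1,z0,z0,z0,z1,z0],z2)],[]]],
    [.old (.lp [k96,k150,(nat_lit 240),k150,k144,k160] [k72,k72,k25,k65,k0,k0,k45,k45,k72,k24,k40,k40] k0 [[k0,k0,k30],[k0,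
    k0,k30],[k0,k0,k0,k0,k0,k0,k90],[k30,k30,k0,k0,k0,k0,k30],[],[],[],[k0,k0,k30,k90]] (nat_lit 480) k6
    [[(k8,k96)],[(k0,k96),(k3,k103),(k6,k123),(k5,k138),(k9,k144),(k2,k173)],[(k0,k103),(k3,k110),(k6,k130),(k5,k145),
    (k9,k151),(k2,k180)],[(k9,k101),(k0,k173),(k3,k180),(k2,k190),(k6,(nat_lit 200)),(k5,(nat_lit 215))],[(k0,k138),
    (k3,k145),(k9,k186),(k2,(nat_lit 215)),(k5,(nat_lit 240)),(k6,(nat_lit 285))],[(k7,k195),(k4,(nat_lit 240))],[(k7,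
    k150),(k4,k195)],[(k0,k123),(k3,k130),(k6,k150),(k9,k171),(k2,(nat_lit 200)),(k5,(nat_lit 285))],[(k2,k101),(k0,
    k144),(k3,k151),(k6,k171),(k5,k186),(k9,k192)],[(k1,k96)],[(k10,k160)],[(k11,k160)]]
    [] k0
    [[k1,k0,k0,k0,k1,k0],[k1,k1,k0,k0,k1,k0],[k0,k2,k0,k0,k0,k0],[k0,k0,k0,k2,k0,k0],[k0,k0,k0,k0,k0,k2]]
    [.contra [y1,z1],.contra [y1,z1],.contra [z1],.contra [y1,y2,z2],.contra [z1]]),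
    .old (.leafM k8 [k3,k5,k1,k2] [(z1,[y3,y3,y1,z3]),(z1,[z0,z0,z1]),(z1,[z0,z1])] [(k4,k0,z1,[z1]),(k0,k4,z1,[z1])]),
    .old (.lp [(nat_lit 164220),(nat_lit 178296),(nat_lit 116280),(nat_lit 178296),(nat_lit 104880),
    (nat_lit 148580)] [(nat_lit 51612),(nat_lit 51612),(nat_lit 89148),k0,(nat_lit 75582),(nat_lit 75582),k0,
    (nat_lit 89148),(nat_lit 118427),(nat_lit 44137),(nat_lit 59432),(nat_lit 59432)] k0 [[k0,k0,k0,(nat_lit 37145),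
    k0,k0,k0,(nat_lit 37145)],[k0,k0,k0,k0,k0,k0,k0,(nat_lit 178296)],[k0,(nat_lit 37145)],[],[],[],[(nat_lit 178296),
    (nat_lit 37145)],[k0,k0,k0,k0,k0,k0,(nat_lit 89148)]] (nat_lit 445740) k6
    [[(k8,(nat_lit 97405))],[(k2,(nat_lit 89539)),(k5,(nat_lit 140250)),(k0,(nat_lit 164220)),(k6,(nat_lit 178687)),
    (k3,(nat_lit 215832)),(k9,(nat_lit 349991))],[(k6,(nat_lit 89148)),(k2,(nat_lit 178296)),(k0,(nat_lit 215832)),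
    (k5,(nat_lit 229007)),(k9,(nat_lit 260452)),(k3,(nat_lit 267444))],[(k2,(nat_lit 89148)),(k0,(nat_lit 89539)),(k5,
    (nat_lit 102714)),(k9,(nat_lit 134159)),(k3,(nat_lit 178296)),(k6,(nat_lit 178296))],[(k2,(nat_lit 102714)),(k5,
    (nat_lit 116280)),(k0,(nat_lit 140250)),(k9,(nat_lit 147725)),(k6,(nat_lit 191862)),(k3,(nat_lit 229007))],[(k7,
    (nat_lit 102714)),(k4,(nat_lit 116280))],[(k7,(nat_lit 89148)),(k4,(nat_lit 102714))],[(k3,(nat_lit 89148)),(k2,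
    (nat_lit 178296)),(k0,(nat_lit 178687)),(k5,(nat_lit 191862)),(k9,(nat_lit 223307)),(k6,(nat_lit 356592))],[(k9,
    (nat_lit 90022)),(k2,(nat_lit 134159)),(k5,(nat_lit 147725)),(k6,(nat_lit 223307)),(k3,(nat_lit 260452)),(k0,
    (nat_lit 349991))],[(k1,(nat_lit 97405))],[(k10,(nat_lit 148580))],[(k11,(nat_lit 148580))]]
    [] k0
    [[k0,k2,k0,k0,k0,k0],[k0,k1,k1,k1,k0,k0],[k0,k1,k0,k2,k0,k0],[k0,k2,k0,k2,k0,k0],[k0,k0,k2,k0,k0,k0],[k0,k0,k1,k1,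
    k0,k0],[k0,k0,k0,k0,k0,k2]]
    [.contra [z1],.contra [z1,y2,y1,y1,z2],.contra [z3,y12,y5,y4,z12],.contra [y3,z0,z2,z1],.contra [z1],.contra [y9,
    z0,z4,z5],.contra [z1]]),
    .old (.lp [k24,k53,k24,k56,k42,k40] [k31,k31,k25,k8,k31,k31,k0,k30,k22,k22,k23,k23] k0 [[k0,k0,k0,k0,k0,k0,k0,k1],[k0,
    k0,k0,k0,k0,k0,k0,k54],[k0,k0,k0,k12],[k0,k0,k0,k0,k0,k0,k9,k1],[],[],[k54,k1,k1],[k0,k0,k9,k0,k0,k0,k8]] k120 k6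
    [[(k8,k33)],[(k0,k24),(k5,k24),(k2,k30),(k3,k47),(k6,k54),(k9,k87)],[(k6,k24),(k0,k47),(k5,k47),(k2,k53),(k9,k57),
    (k3,k70)],[(k2,k24),(k0,k30),(k5,k30),(k9,k40),(k3,k53),(k6,k70)],[(k0,k24),(k9,k24),(k2,k30),(k5,k36),(k3,k47),
    (k6,k54)],[(k4,k24),(k7,k25)],[(k4,k25),(k7,k26)],[(k3,k24),(k0,k54),(k5,k54),(k9,k64),(k2,k70),(k6,k94)],[(k5,
    k24),(k9,k34),(k2,k40),(k3,k57),(k6,k64),(k0,k87)],[(k1,k33)],[(k10,k40)],[(k11,k40)]]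
    [] k0
    [[k1,k0,k2,k0,k1,k0],[k0,k2,k0,k0,k0,k0],[k0,k1,k2,k0,k0,k0],[k0,k1,k1,k1,k0,k0],[k0,k2,k0,k2,k0,k0],[k0,k0,k2,k0,
    k0,k0],[k0,k0,k1,k1,k0,k0],[k0,k0,k0,k0,k0,k2]]
    [.contra [z1,y1],.contra [z1],.ref k2 k0 [(z1,[z0,z1]),(z1,[y3,z0,z2]),(z1,[z3,z0,y1])],.contra [z1,y2,y1,z2],
    .ref k1 k0 [(z1,[z0,z1]),(z2,[z1]),(z2,[y3,z0,z2])],.contra [z1],.contra [y2,z0,z1],.contra [z1]]),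
    .old (.leafM k9 [k3,k5,k1,k2] [(z1,[y2,y2,y1,z2]),(z1,[z0,z0,z1]),(z1,[z0,z1])] [(k4,k0,z1,[z1]),(k0,k4,z1,[z1])]),
    .old (.lp [k24,k53,k24,k56,k42,k40] [k31,k31,k25,k8,k31,k31,k0,k30,k22,k22,k23,k23] k0 [[k0,k0,k0,k0,k0,k0,k0,k1],[k0,
    k0,k0,k0,k0,k0,k0,k54],[k0,k0,k0,k12],[k0,k0,k0,k0,k0,k0,k9,k1],[],[],[k54,k1,k1],[k0,k0,k9,k0,k0,k0,k8]] k120 k6
    [[(k8,k33)],[(k0,k24),(k5,k24),(k2,k30),(k3,k47),(k6,k54),(k9,k87)],[(k6,k24),(k0,k47),(k5,k47),(k2,k53),(k9,k57),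
    (k3,k70)],[(k2,k24),(k0,k30),(k5,k30),(k9,k40),(k3,k53),(k6,k70)],[(k0,k24),(k9,k24),(k2,k30),(k5,k36),(k3,k47),
    (k6,k54)],[(k4,k24),(k7,k25)],[(k4,k25),(k7,k26)],[(k3,k24),(k0,k54),(k5,k54),(k9,k64),(k2,k70),(k6,k94)],[(k5,
    k24),(k9,k34),(k2,k40),(k3,k57),(k6,k64),(k0,k87)],[(k1,k33)],[(k10,k40)],[(k11,k40)]]
    [] k0
    [[k1,k0,k2,k0,k1,k0],[k0,k2,k0,k0,k0,k0],[k0,k1,k2,k0,k0,k0],[k0,k1,k1,k1,k0,k0],[k0,k2,k0,k2,k0,k0],[k0,k0,k2,k0,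
    k0,k0],[k0,k0,k1,k1,k0,k0],[k0,k0,k0,k0,k0,k2]]
    [.contra [y1,y3,y2,z4],.contra [z1],.contra [z1,z2,z1,y2],.contra [y1,y1,z0,z1],.ref k4 k0 [(z1,[z0,z1]),(z2,
    [z1]),(z1,[z0,y2,y1,z2])],.contra [z1],.contra [y1,y1,z0,z1],.contra [z1]]),
    .old (.lp [k92,k100,k50,k120,k48,k60] [k44,k44,k48,k32,k65,k65,k0,k60,k66,k66,k60,k60] k0 [[k0,k0,k0,k40,k0,k0,k0,
    k40],[k0,k0,k0,k0,k0,k0,k0,k100],[k0,k40],[],[],[],[k100,k40]] (nat_lit 240) k6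
    [[(k8,k70)],[(k2,k48),(k5,k71),(k0,k92),(k6,k96),(k3,k104),(k9,k170)],[(k6,k48),(k2,k100),(k0,k104),(k3,k116),(k9,
    k122),(k5,k123)],[(k0,k48),(k9,k66),(k5,k67),(k2,k84),(k3,k100),(k6,k132)],[(k9,k49),(k5,k50),(k2,k67),(k0,k71),
    (k6,k115),(k3,k123)],[(k4,k50),(k7,k55)],[(k4,k55),(k7,k60)],[(k3,k48),(k0,k96),(k9,k114),(k5,k115),(k2,k132),(k6,
    k180)],[(k9,k48),(k5,k49),(k2,k66),(k6,k114),(k3,k122),(k0,k170)],[(k1,k70)],[(k10,k60)],[(k11,k60)]]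
    [] k0
    [[k0,k2,k0,k0,k0,k0],[k0,k1,k1,k1,k0,k0],[k0,k0,k2,k0,k0,k0],[k0,k0,k4,k0,k0,k0],[k0,k0,k1,k1,k0,k0],[k0,k0,k0,k0,
    k0,k2],[k0,k0,k0,k0,k0,k3]]
    [.contra [z1],.contra [y1,y1,z1],.contra [z1],.ref k5 k0 [(z1,[z0,z1]),(z2,[y1,y4,z4])],.contra [y1,y1,z1],
    .contra [z1],.ref k3 k0 [(z1,[z0,z1]),(z1,[y1,y3,z3])]]),
    .old (.lp [k6,k12,k8,k6,k6,k8] [k4,k4,k0,k2,k3,k3,k4,k4,k4,k4,k3,k3] k0 [[],[],[k0,k0,k0,k8]] k24 k5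
    [[(k8,k6)],[(k0,k6),(k6,k6),(k9,k6),(k5,k7),(k3,k8),(k2,k10)],[(k0,k8),(k6,k8),(k9,k8),(k5,k9),(k3,k10),(k2,k12)],
    [(k2,k6),(k0,k10),(k6,k10),(k9,k10),(k5,k11),(k3,k12)],[(k0,k7),(k6,k7),(k9,k7),(k3,k9),(k2,k11),(k5,k16)],[(k7,
    k7),(k4,k8)],[(k7,k6),(k4,k7)],[(k0,k6),(k6,k6),(k9,k6),(k5,k7),(k3,k8),(k2,k10)],[(k0,k6),(k6,k6),(k9,k6),(k5,
    k7),(k3,k8),(k2,k10)],[(k1,k6)],[(k10,k8)],[(k11,k8)]]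
    [] k0
    [[k1,k0,k0,k0,k1,k0],[k0,k2,k0,k0,k0,k0],[k0,k0,k1,k1,k0,k0],[k0,k0,k0,k2,k0,k0],[k0,k0,k0,k0,k0,k2]]
    [.ref k6 k0 [(z1,[z1])],.contra [z1],.ref k0 k0 [(z1,[y1,z1])],.contra [z1],.contra [z1]])]⟩

/-- classes `0 0 1 0 2 2`, types `S0 S0 S0 S0 N0 N2` -/
noncomputable def cU6_1099 : CertX :=
  ⟨[k0,k0,k16,k0,k44,k46],[(false,k0,[k0,k1,k2,k3,k4,k5])],[[[([z1,z1,z0,z0,z1,z1],z2)],[([z1,z0,z0,z0,z1,z1],z2)],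
    []]],
    [.old (.leafM k1 [k0,k1,k4,k5] [] [(k2,k3,z1,[y1,z1]),(k3,k2,z1,[y1,z1])]),
    .old (.leafM k4 [k4,k5,k0,k1,k2,k3] [(z1,[y1,z1])] []),
    .old (.lp [k2,k4,k2,k2,k2,k2] [k1,k1,k0,k0,k1,k1,k1,k1,k1,k1,k1,k1] k0 [] k8 k5
    [[(k11,k2)],[(k0,k2),(k5,k2),(k6,k2),(k9,k2),(k2,k3),(k3,k3)],[(k0,k3),(k5,k3),(k6,k3),(k9,k3),(k2,k4),(k3,k4)],
    [(k0,k3),(k5,k3),(k6,k3),(k9,k3),(k2,k4),(k3,k4)],[(k0,k2),(k5,k2),(k6,k2),(k9,k2),(k2,k3),(k3,k3)],[(k4,k2),(k7,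
    k2)],[(k4,k2),(k7,k2)],[(k0,k2),(k5,k2),(k6,k2),(k9,k2),(k2,k3),(k3,k3)],[(k0,k2),(k5,k2),(k6,k2),(k9,k2),(k2,k3),
    (k3,k3)],[(k10,k2)],[(k1,k2)],[(k8,k2)]]
    [] k0
    [[k1,k0,k0,k0,k1,k1],[k0,k0,k2,k0,k0,k0],[k0,k0,k1,k1,k0,k0],[k0,k0,k0,k2,k0,k0]]
    [.ref k1 k0 [(z1,[z1])],.contra [z1],.ref k0 k0 [(z1,[y1,z1])],.contra [z1]])]⟩

/-- classes `0 0 1 0 2 3`, types `C0 C0 C0 C0 C0 C0` -/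
noncomputable def cU6_1100 : CertX :=
  ⟨[k4,k4,k20,k4,k36,k52],[(false,k0,[k0,k1,k2,k3,k4,k5])],[[[([z1,z1,z0,z0,z1,z1],z2)],[([z1,z0,z0,z0,z1,z1],z2)],
    []]],
    [.old (.leafM k0 [k0,k1,k4,k5] [] [(k2,k3,z1,[y1,z1]),(k3,k2,z1,[y1,z1])]),
    .old (.leafM k0 [k0,k1,k2,k3,k4,k5] [(z1,[y1,z1])] []),
    .old (.lp [k6,k4,k4,k2,k6,k0] [k0,k0,k1,k1,k1,k1,k2,k2,k0,k0,k3,k3] k0 [[k0,k0,k2],[],[],[k0,k2]] k12 k5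
    [[(k10,k3)],[(k5,k3),(k3,k5),(k9,k6)],[(k6,k3),(k0,k5),(k2,k6)],[(k5,k4),(k9,k5),(k3,k6)],[(k0,k3),(k6,k3),(k2,
    k4)],[(k7,k3)],[(k4,k3)],[(k3,k3),(k5,k3),(k9,k4)],[(k6,k4),(k2,k5),(k0,k6)],[(k11,k3)],[(k8,k3)],[(k1,k3)]]
    [] k0
    [[k0,k1,k1,k1,k0,k0],[k0,k0,k1,k1,k0,k0]]
    [.ref k1 k0 [(z1,[y1,z1])],.ref k0 k0 [(z1,[y1,z1])]])]⟩

/-- classes `0 0 1 0 2 3`, types `C0 C0 C0 C0 C0 S0` -/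
noncomputable def cU6_1101 : CertX :=
  ⟨[k4,k4,k20,k4,k36,k48],[(false,k0,[k0,k1,k2,k3,k4,k5])],[[[([z1,z1,z0,z0,z1,z1],z2)],[([z1,z0,z0,z0,z1,z1],z2)],
    []]],
    [.old (.leafM k0 [k0,k1,k4,k5] [] [(k2,k3,z1,[y1,z1]),(k3,k2,z1,[y1,z1])]),
    .old (.leafM k0 [k0,k1,k2,k3,k4,k5] [(z1,[y1,z1])] []),
    .old (.lp [k2,k4,k2,k2,k2,k2] [k1,k1,k0,k0,k1,k1,k1,k1,k1,k1,k1,k1] k0 [] k8 k5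
    [[(k1,k2),(k10,k2)],[(k5,k2),(k9,k2),(k3,k3)],[(k0,k3),(k6,k3),(k2,k4)],[(k5,k3),(k9,k3),(k3,k4)],[(k0,k2),(k6,
    k2),(k2,k3)],[(k7,k2)],[(k4,k2)],[(k5,k2),(k9,k2),(k3,k3)],[(k0,k2),(k6,k2),(k2,k3)],[(k11,k2)],[(k8,k2)],[(k1,
    k2),(k10,k2)]]
    [] k0
    [[k1,k0,k0,k0,k1,k1],[k0,k0,k1,k1,k0,k0]]
    [.ref k1 k0 [(z1,[z1])],.ref k0 k0 [(z1,[y1,z1])]])]⟩

/-- classes `0 0 1 0 2 3`, types `C0 C0 C0 C0 S0 C0` -/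
noncomputable def cU6_1102 : CertX :=
  ⟨[k4,k4,k20,k4,k32,k52],[(false,k0,[k0,k1,k2,k3,k4,k5])],[[[([z1,z1,z0,z0,z1,z1],z2)],[([z1,z0,z0,z0,z1,z1],z2)],
    []]],
    [.old (.leafM k0 [k0,k1,k4,k5] [] [(k2,k3,z1,[y1,z1]),(k3,k2,z1,[y1,z1])]),
    .old (.leafM k0 [k0,k1,k2,k3,k4,k5] [(z1,[y1,z1])] []),
    .old (.lp [k2,k4,k2,k2,k2,k2] [k1,k1,k0,k0,k1,k1,k1,k1,k1,k1,k1,k1] k0 [] k8 k5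
    [[(k10,k2)],[(k5,k2),(k9,k2),(k3,k3)],[(k0,k3),(k6,k3),(k2,k4)],[(k5,k3),(k9,k3),(k3,k4)],[(k0,k2),(k6,k2),(k2,
    k3)],[(k7,k2)],[(k4,k2)],[(k5,k2),(k9,k2),(k3,k3)],[(k0,k2),(k6,k2),(k2,k3)],[(k8,k2),(k11,k2)],[(k8,k2),(k11,
    k2)],[(k1,k2)]]
    [] k0
    [[k1,k0,k0,k0,k1,k1],[k0,k0,k1,k1,k0,k0]]
    [.ref k1 k0 [(z1,[z1])],.ref k0 k0 [(z1,[y1,z1])]])]⟩

/-- classes `0 0 1 0 2 3`, types `C0 C0 C0 C0 S0 S0` -/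
noncomputable def cU6_1103 : CertX :=
  ⟨[k4,k4,k20,k4,k32,k48],[(false,k0,[k0,k1,k2,k3,k4,k5])],[[[([z1,z1,z0,z0,z1,z1],z2)],[([z1,z0,z0,z0,z1,z1],z2)],
    []]],
    [.old (.leafM k0 [k0,k1,k4,k5] [] [(k2,k3,z1,[y1,z1]),(k3,k2,z1,[y1,z1])]),
    .old (.leafM k0 [k0,k1,k2,k3,k4,k5] [(z1,[y1,z1])] []),
    .old (.lp [k2,k4,k2,k2,k2,k2] [k1,k1,k0,k0,k1,k1,k1,k1,k1,k1,k1,k1] k0 [] k8 k5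
    [[(k1,k2),(k10,k2)],[(k5,k2),(k9,k2),(k3,k3)],[(k0,k3),(k6,k3),(k2,k4)],[(k5,k3),(k9,k3),(k3,k4)],[(k0,k2),(k6,
    k2),(k2,k3)],[(k7,k2)],[(k4,k2)],[(k5,k2),(k9,k2),(k3,k3)],[(k0,k2),(k6,k2),(k2,k3)],[(k8,k2),(k11,k2)],[(k8,k2),
    (k11,k2)],[(k1,k2),(k10,k2)]]
    [] k0
    [[k1,k0,k0,k0,k1,k1],[k0,k0,k1,k1,k0,k0],[k0,k0,k0,k0,k0,k2]]
    [.ref k1 k0 [(z1,[z1])],.ref k0 k0 [(z1,[y1,z1])],.contra [z1]])]⟩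

/-- classes `0 0 1 0 2 3`, types `C0 C0 C0 C2 C0 C0` -/
noncomputable def cU6_1104 : CertX :=
  ⟨[k4,k4,k20,k6,k36,k52],[],[[[]]],
    [.old (.lp [k2,k4,k2,k2,k2,k2] [k1,k1,k0,k0,k1,k1,k1,k1,k1,k1,k1,k1] k0 [] k8 k5
    [[(k10,k2)],[(k5,k2),(k6,k2),(k3,k3)],[(k0,k3),(k9,k3),(k2,k4)],[(k5,k3),(k6,k3),(k3,k4)],[(k0,k2),(k9,k2),(k2,
    k3)],[(k7,k2)],[(k4,k2)],[(k0,k2),(k9,k2),(k2,k3)],[(k5,k2),(k6,k2),(k3,k3)],[(k11,k2)],[(k8,k2)],[(k1,k2)]]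
    [] k0
    []
    [])]⟩

/-- classes `0 0 1 0 2 3`, types `C0 C0 C0 C2 C0 S0` -/
noncomputable def cU6_1105 : CertX :=
  ⟨[k4,k4,k20,k6,k36,k48],[],[[[]]],
    [.old (.lp [k2,k4,k2,k2,k2,k2] [k1,k1,k0,k0,k1,k1,k1,k1,k1,k1,k1,k1] k0 [] k8 k5
    [[(k1,k2),(k10,k2)],[(k5,k2),(k6,k2),(k3,k3)],[(k0,k3),(k9,k3),(k2,k4)],[(k5,k3),(k6,k3),(k3,k4)],[(k0,k2),(k9,
    k2),(k2,k3)],[(k7,k2)],[(k4,k2)],[(k0,k2),(k9,k2),(k2,k3)],[(k5,k2),(k6,k2),(k3,k3)],[(k11,k2)],[(k8,k2)],[(k1,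
    k2),(k10,k2)]]
    [] k0
    []
    [])]⟩

/-- classes `0 0 1 0 2 3`, types `C0 C0 C0 C2 S0 C0` -/
noncomputable def cU6_1106 : CertX :=
  ⟨[k4,k4,k20,k6,k32,k52],[],[[[]]],
    [.old (.lp [k2,k4,k2,k2,k2,k2] [k1,k1,k0,k0,k1,k1,k1,k1,k1,k1,k1,k1] k0 [] k8 k5
    [[(k10,k2)],[(k5,k2),(k6,k2),(k3,k3)],[(k0,k3),(k9,k3),(k2,k4)],[(k5,k3),(k6,k3),(k3,k4)],[(k0,k2),(k9,k2),(k2,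
    k3)],[(k7,k2)],[(k4,k2)],[(k0,k2),(k9,k2),(k2,k3)],[(k5,k2),(k6,k2),(k3,k3)],[(k8,k2),(k11,k2)],[(k8,k2),(k11,
    k2)],[(k1,k2)]]
    [] k0
    []
    [])]⟩

/-- classes `0 0 1 0 2 3`, types `C0 C0 C0 C2 S0 S0` -/
noncomputable def cU6_1107 : CertX :=
  ⟨[k4,k4,k20,k6,k32,k48],[],[[[]]],
    [.old (.lp [k2,k4,k2,k2,k2,k2] [k1,k1,k0,k0,k1,k1,k1,k1,k1,k1,k1,k1] k0 [] k8 k5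
    [[(k1,k2),(k10,k2)],[(k5,k2),(k6,k2),(k3,k3)],[(k0,k3),(k9,k3),(k2,k4)],[(k5,k3),(k6,k3),(k3,k4)],[(k0,k2),(k9,
    k2),(k2,k3)],[(k7,k2)],[(k4,k2)],[(k0,k2),(k9,k2),(k2,k3)],[(k5,k2),(k6,k2),(k3,k3)],[(k8,k2),(k11,k2)],[(k8,k2),
    (k11,k2)],[(k1,k2),(k10,k2)]]
    [] k0
    [[k0,k0,k0,k0,k0,k2]]
    [.contra [z1]])]⟩

/-- classes `0 0 1 0 2 3`, types `C0 C0 S0 C0 C0 C0` -/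
noncomputable def cU6_1108 : CertX :=
  ⟨[k4,k4,k16,k4,k36,k52],[(false,k0,[k0,k1,k2,k3,k4,k5])],[[[([z1,z1,z0,z0,z1,z1],z2)],[([z1,z0,z0,z0,z1,z1],z2)],
    []]],
    [.old (.leafM k0 [k0,k1,k4,k5] [] [(k2,k3,z1,[y1,z1]),(k3,k2,z1,[y1,z1])]),
    .old (.leafM k0 [k0,k1,k2,k3,k4,k5] [(z1,[y1,z1])] []),
    .old (.lp [k2,k4,k2,k2,k2,k2] [k1,k1,k0,k0,k1,k1,k1,k1,k1,k1,k1,k1] k0 [] k8 k5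
    [[(k10,k2)],[(k5,k2),(k9,k2),(k3,k3)],[(k0,k3),(k6,k3),(k2,k4)],[(k5,k3),(k9,k3),(k3,k4)],[(k0,k2),(k6,k2),(k2,
    k3)],[(k4,k2),(k7,k2)],[(k4,k2),(k7,k2)],[(k5,k2),(k9,k2),(k3,k3)],[(k0,k2),(k6,k2),(k2,k3)],[(k11,k2)],[(k8,k2)],
    [(k1,k2)]]
    [] k0
    [[k1,k0,k0,k0,k1,k1],[k0,k0,k1,k1,k0,k0]]
    [.ref k1 k0 [(z1,[z1])],.ref k0 k0 [(z1,[y1,z1])]])]⟩

/-- classes `0 0 1 0 2 3`, types `C0 C0 S0 C0 C0 S0` -/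
noncomputable def cU6_1109 : CertX :=
  ⟨[k4,k4,k16,k4,k36,k48],[(false,k0,[k0,k1,k2,k3,k4,k5])],[[[([z1,z1,z0,z0,z1,z1],z2)],[([z1,z0,z0,z0,z1,z1],z2)],
    []]],
    [.old (.leafM k0 [k0,k1,k4,k5] [] [(k2,k3,z1,[y1,z1]),(k3,k2,z1,[y1,z1])]),
    .old (.leafM k0 [k0,k1,k2,k3,k4,k5] [(z1,[y1,z1])] []),
    .old (.lp [k10,k10,k6,k6,k6,k6] [k0,k0,k0,k0,k2,k2,k2,k2,k2,k2,k2,k2] k0 [[k0,k0,k2],[k0,k0,k0,k0,k0,k0,k0,k2],[],[k0,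
    k2],[],[],[k2]] k24 k5
    [[(k10,k8),(k1,k10)],[(k5,k6),(k3,k10),(k9,k10)],[(k6,k6),(k0,k10),(k2,k12)],[(k5,k8),(k9,k8),(k3,k12)],[(k0,k6),
    (k6,k6),(k2,k8)],[(k4,k6),(k7,k6)],[(k4,k6),(k7,k6)],[(k3,k6),(k5,k6),(k9,k6)],[(k6,k6),(k2,k8),(k0,k10)],[(k11,
    k6)],[(k8,k6)],[(k10,k6),(k1,k8)]]
    [] k0
    [[k0,k1,k1,k1,k0,k0],[k0,k0,k1,k1,k0,k0]]
    [.ref k1 k0 [(z1,[y1,z1])],.ref k0 k0 [(z1,[y1,z1])]])]⟩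

/-- classes `0 0 1 0 2 3`, types `C0 C0 S0 C0 S0 C0` -/
noncomputable def cU6_1110 : CertX :=
  ⟨[k4,k4,k16,k4,k32,k52],[(false,k0,[k0,k1,k2,k3,k4,k5])],[[[([z1,z1,z0,z0,z1,z1],z2)],[([z1,z0,z0,z0,z1,z1],z2)],
    []]],
    [.old (.leafM k0 [k0,k1,k4,k5] [] [(k2,k3,z1,[y1,z1]),(k3,k2,z1,[y1,z1])]),
    .old (.leafM k0 [k0,k1,k2,k3,k4,k5] [(z1,[y1,z1])] []),
    .old (.lp [k10,k10,k6,k6,k6,k6] [k0,k0,k0,k0,k2,k2,k2,k2,k2,k2,k2,k2] k0 [[k0,k0,k2],[k0,k0,k0,k0,k0,k0,k0,k2],[],[k0,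
    k2],[],[],[k2]] k24 k5
    [[(k10,k8)],[(k5,k6),(k3,k10),(k9,k10)],[(k6,k6),(k0,k10),(k2,k12)],[(k5,k8),(k9,k8),(k3,k12)],[(k0,k6),(k6,k6),
    (k2,k8)],[(k4,k6),(k7,k6)],[(k4,k6),(k7,k6)],[(k3,k6),(k5,k6),(k9,k6)],[(k6,k6),(k2,k8),(k0,k10)],[(k8,k6),(k11,
    k6)],[(k8,k6),(k11,k6)],[(k1,k8)]]
    [] k0
    [[k0,k1,k1,k1,k0,k0],[k0,k0,k1,k1,k0,k0]]
    [.ref k1 k0 [(z1,[y1,z1])],.ref k0 k0 [(z1,[y1,z1])]])]⟩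

/-- classes `0 0 1 0 2 3`, types `C0 C0 S0 C0 S0 S0` -/
noncomputable def cU6_1111 : CertX :=
  ⟨[k4,k4,k16,k4,k32,k48],[(false,k0,[k0,k1,k2,k3,k4,k5])],[[[([z1,z1,z0,z0,z1,z1],z2)],[([z1,z0,z0,z0,z1,z1],z2)],
    []]],
    [.old (.leafM k0 [k0,k1,k4,k5] [] [(k2,k3,z1,[y1,z1]),(k3,k2,z1,[y1,z1])]),
    .old (.leafM k0 [k0,k1,k2,k3,k4,k5] [(z1,[y1,z1])] []),
    .old (.lp [k10,k10,k6,k6,k6,k6] [k0,k0,k0,k0,k2,k2,k2,k2,k2,k2,k2,k2] k0 [[k0,k0,k2],[k0,k0,k0,k0,k0,k0,k0,k2],[],[k0,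
    k2],[],[],[k2]] k24 k5
    [[(k10,k8),(k1,k10)],[(k5,k6),(k3,k10),(k9,k10)],[(k6,k6),(k0,k10),(k2,k12)],[(k5,k8),(k9,k8),(k3,k12)],[(k0,k6),
    (k6,k6),(k2,k8)],[(k4,k6),(k7,k6)],[(k4,k6),(k7,k6)],[(k3,k6),(k5,k6),(k9,k6)],[(k6,k6),(k2,k8),(k0,k10)],[(k8,
    k6),(k11,k6)],[(k8,k6),(k11,k6)],[(k10,k6),(k1,k8)]]
    [] k0
    [[k0,k1,k1,k1,k0,k0],[k0,k0,k1,k1,k0,k0],[k0,k0,k0,k0,k0,k2]]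
    [.ref k1 k0 [(z1,[y1,z1])],.ref k0 k0 [(z1,[y1,z1])],.contra [z1]])]⟩

/-- classes `0 0 1 0 2 3`, types `C0 C0 S0 C2 C0 C0` -/
noncomputable def cU6_1112 : CertX :=
  ⟨[k4,k4,k16,k6,k36,k52],[],[[[]]],
    [.old (.lp [k2,k4,k2,k2,k2,k2] [k1,k1,k0,k0,k1,k1,k1,k1,k1,k1,k1,k1] k0 [] k8 k5
    [[(k10,k2)],[(k5,k2),(k6,k2),(k3,k3)],[(k0,k3),(k9,k3),(k2,k4)],[(k5,k3),(k6,k3),(k3,k4)],[(k0,k2),(k9,k2),(k2,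
    k3)],[(k4,k2),(k7,k2)],[(k4,k2),(k7,k2)],[(k0,k2),(k9,k2),(k2,k3)],[(k5,k2),(k6,k2),(k3,k3)],[(k11,k2)],[(k8,k2)],
    [(k1,k2)]]
    [] k0
    []
    [])]⟩

/-- classes `0 0 1 0 2 3`, types `C0 C0 S0 C2 C0 S0` -/
noncomputable def cU6_1113 : CertX :=
  ⟨[k4,k4,k16,k6,k36,k48],[],[[[]]],
    [.old (.lp [k2,k4,k2,k2,k2,k2] [k1,k1,k0,k0,k1,k1,k1,k1,k1,k1,k1,k1] k0 [] k8 k5
    [[(k1,k2),(k10,k2)],[(k5,k2),(k6,k2),(k3,k3)],[(k0,k3),(k9,k3),(k2,k4)],[(k5,k3),(k6,k3),(k3,k4)],[(k0,k2),(k9,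
    k2),(k2,k3)],[(k4,k2),(k7,k2)],[(k4,k2),(k7,k2)],[(k0,k2),(k9,k2),(k2,k3)],[(k5,k2),(k6,k2),(k3,k3)],[(k11,k2)],
    [(k8,k2)],[(k1,k2),(k10,k2)]]
    [] k0
    []
    [])]⟩

/-- classes `0 0 1 0 2 3`, types `C0 C0 S0 C2 S0 C0` -/
noncomputable def cU6_1114 : CertX :=
  ⟨[k4,k4,k16,k6,k32,k52],[],[[[]]],
    [.old (.lp [k2,k4,k2,k2,k2,k2] [k1,k1,k0,k0,k1,k1,k1,k1,k1,k1,k1,k1] k0 [] k8 k5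
    [[(k10,k2)],[(k5,k2),(k6,k2),(k3,k3)],[(k0,k3),(k9,k3),(k2,k4)],[(k5,k3),(k6,k3),(k3,k4)],[(k0,k2),(k9,k2),(k2,
    k3)],[(k4,k2),(k7,k2)],[(k4,k2),(k7,k2)],[(k0,k2),(k9,k2),(k2,k3)],[(k5,k2),(k6,k2),(k3,k3)],[(k8,k2),(k11,k2)],
    [(k8,k2),(k11,k2)],[(k1,k2)]]
    [] k0
    []
    [])]⟩

/-- classes `0 0 1 0 2 3`, types `C0 C0 S0 C2 S0 S0` -/
noncomputable def cU6_1115 : CertX :=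
  ⟨[k4,k4,k16,k6,k32,k48],[],[[[]]],
    [.old (.lp [k2,k4,k2,k2,k2,k2] [k1,k1,k0,k0,k1,k1,k1,k1,k1,k1,k1,k1] k0 [] k8 k5
    [[(k1,k2),(k10,k2)],[(k5,k2),(k6,k2),(k3,k3)],[(k0,k3),(k9,k3),(k2,k4)],[(k5,k3),(k6,k3),(k3,k4)],[(k0,k2),(k9,
    k2),(k2,k3)],[(k4,k2),(k7,k2)],[(k4,k2),(k7,k2)],[(k0,k2),(k9,k2),(k2,k3)],[(k5,k2),(k6,k2),(k3,k3)],[(k8,k2),
    (k11,k2)],[(k8,k2),(k11,k2)],[(k1,k2),(k10,k2)]]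
    [] k0
    [[k0,k0,k0,k0,k0,k2]]
    [.contra [z1]])]⟩

/-- classes `0 0 1 0 2 3`, types `C0 C2 C0 C0 C0 C0` -/
noncomputable def cU6_1116 : CertX :=
  ⟨[k4,k6,k20,k4,k36,k52],[(false,k0,[k0,k1,k2,k3,k4,k5])],[[[([z1,z0,z0,z0,z1,z1],z2)],[]]],
    [.old (.leafM k0 [k0,k1,k2,k3,k4,k5] [(z1,[y1,z1])] []),
    .old (.lp [k4,k2,k2,k2,k4,k0] [k0,k0,k1,k1,k1,k1,k1,k1,k0,k0,k2,k2] k0 [] k8 k5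
    [[(k10,k2)],[(k2,k3),(k3,k3),(k9,k4)],[(k5,k2),(k6,k2),(k0,k3)],[(k5,k2),(k6,k2),(k0,k3)],[(k2,k2),(k3,k2),(k9,
    k3)],[(k7,k2)],[(k4,k2)],[(k2,k2),(k3,k2),(k9,k3)],[(k5,k3),(k6,k3),(k0,k4)],[(k11,k2)],[(k8,k2)],[(k1,k2)]]
    [] k0
    [[k0,k1,k1,k1,k0,k0]]
    [.ref k0 k0 [(z1,[y1,z1])]])]⟩

/-- classes `0 0 1 0 2 3`, types `C0 C2 C0 C0 C0 S0` -/
noncomputable def cU6_1117 : CertX :=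
  ⟨[k4,k6,k20,k4,k36,k48],[(false,k0,[k0,k1,k2,k3,k4,k5])],[[[([z1,z0,z0,z0,z1,z1],z2)],[]]],
    [.old (.leafM k0 [k0,k1,k2,k3,k4,k5] [(z1,[y1,z1])] []),
    .old (.lp [k2,k4,k2,k2,k2,k2] [k1,k1,k0,k0,k1,k1,k1,k1,k1,k1,k1,k1] k0 [] k8 k5
    [[(k1,k2),(k10,k2)],[(k9,k2),(k2,k3),(k3,k3)],[(k0,k3),(k5,k3),(k6,k3)],[(k0,k3),(k5,k3),(k6,k3)],[(k9,k2),(k2,
    k3),(k3,k3)],[(k7,k2)],[(k4,k2)],[(k9,k2),(k2,k3),(k3,k3)],[(k0,k2),(k5,k2),(k6,k2)],[(k11,k2)],[(k8,k2)],[(k1,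
    k2),(k10,k2)]]
    [] k0
    [[k1,k0,k0,k0,k1,k1]]
    [.ref k0 k0 [(z1,[z1])]])]⟩

/-- classes `0 0 1 0 2 3`, types `C0 C2 C0 C0 S0 C0` -/
noncomputable def cU6_1118 : CertX :=
  ⟨[k4,k6,k20,k4,k32,k52],[(false,k0,[k0,k1,k2,k3,k4,k5])],[[[([z1,z0,z0,z0,z1,z1],z2)],[]]],
    [.old (.leafM k0 [k0,k1,k2,k3,k4,k5] [(z1,[y1,z1])] []),
    .old (.lp [k2,k2,k2,k4,k2,k2] [k1,k1,k1,k1,k1,k1,k0,k0,k1,k1,k1,k1] k0 [] k8 k5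
    [[(k10,k2)],[(k2,k2),(k3,k2),(k9,k2)],[(k0,k2),(k5,k2),(k6,k3)],[(k0,k2),(k5,k2),(k6,k3)],[(k2,k2),(k3,k2),(k9,
    k2)],[(k7,k3)],[(k4,k3)],[(k2,k3),(k3,k3),(k9,k3)],[(k0,k2),(k5,k2),(k6,k3)],[(k8,k2),(k11,k2)],[(k8,k2),(k11,
    k2)],[(k1,k2)]]
    [] k0
    [[k1,k0,k0,k0,k1,k1]]
    [.ref k0 k0 [(z1,[z1])]])]⟩

/-- classes `0 0 1 0 2 3`, types `C0 C2 C0 C0 S0 S0` -/
noncomputable def cU6_1119 : CertX :=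
  ⟨[k4,k6,k20,k4,k32,k48],[(false,k0,[k0,k1,k2,k3,k4,k5])],[[[([z1,z0,z0,z0,z1,z1],z2)],[]]],
    [.old (.leafM k0 [k0,k1,k2,k3,k4,k5] [(z1,[y1,z1])] []),
    .old (.lp [k2,k4,k2,k2,k2,k2] [k1,k1,k0,k0,k1,k1,k1,k1,k1,k1,k1,k1] k0 [] k8 k5
    [[(k1,k2),(k10,k2)],[(k9,k2),(k2,k3),(k3,k3)],[(k0,k3),(k5,k3),(k6,k3)],[(k0,k3),(k5,k3),(k6,k3)],[(k9,k2),(k2,
    k3),(k3,k3)],[(k7,k2)],[(k4,k2)],[(k9,k2),(k2,k3),(k3,k3)],[(k0,k2),(k5,k2),(k6,k2)],[(k8,k2),(k11,k2)],[(k8,k2),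
    (k11,k2)],[(k1,k2),(k10,k2)]]
    [] k0
    [[k1,k0,k0,k0,k1,k1],[k0,k0,k0,k0,k0,k2]]
    [.ref k0 k0 [(z1,[z1])],.contra [z1]])]⟩

/-- classes `0 0 1 0 2 3`, types `C0 C2 C0 C2 C0 C0` -/
noncomputable def cU6_1120 : CertX :=
  ⟨[k4,k6,k20,k6,k36,k52],[(false,k0,[k0,k1,k2,k3,k4,k5])],[[[([z1,z1,z0,z0,z1,z1],z2)],[]]],
    [.old (.leafM k0 [k0,k1,k4,k5] [] [(k2,k3,z1,[y1,z1]),(k3,k2,z1,[y1,z1])]),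
    .old (.lp [k2,k0,k2,k0,k2,k0] [k0,k0,k1,k1,k0,k0,k1,k1,k0,k0,k1,k1] k0 [] k4 k5
    [[(k10,k1)],[(k2,k1),(k3,k1),(k6,k1)],[(k0,k1),(k5,k1),(k9,k1)],[(k0,k1),(k5,k1),(k9,k1)],[(k2,k1),(k3,k1),(k6,
    k1)],[(k7,k1)],[(k4,k1)],[(k0,k1),(k5,k1),(k9,k1)],[(k2,k1),(k3,k1),(k6,k1)],[(k11,k1)],[(k8,k1)],[(k1,k1)]]
    [] k0
    [[k0,k0,k1,k1,k0,k0]]
    [.ref k0 k0 [(z1,[y1,z1])]])]⟩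

/-- classes `0 0 1 0 2 3`, types `C0 C2 C0 C2 C0 S0` -/
noncomputable def cU6_1121 : CertX :=
  ⟨[k4,k6,k20,k6,k36,k48],[(false,k0,[k0,k1,k2,k3,k4,k5])],[[[([z1,z1,z0,z0,z1,z1],z2)],[]]],
    [.old (.leafM k0 [k0,k1,k4,k5] [] [(k2,k3,z1,[y1,z1]),(k3,k2,z1,[y1,z1])]),
    .old (.lp [k6,k4,k4,k4,k4,k4] [k0,k0,k1,k1,k1,k1,k1,k1,k1,k1,k1,k1] k0 [] k16 k5
    [[(k10,k5),(k1,k6)],[(k2,k5),(k3,k5),(k6,k5)],[(k5,k4),(k9,k4),(k0,k5)],[(k5,k4),(k9,k4),(k0,k5)],[(k2,k4),(k3,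
    k4),(k6,k4)],[(k7,k4)],[(k4,k4)],[(k5,k4),(k9,k4),(k0,k5)],[(k2,k4),(k3,k4),(k6,k4)],[(k11,k4)],[(k8,k4)],[(k10,
    k4),(k1,k5)]]
    [] k0
    [[k0,k0,k1,k1,k0,k0]]
    [.ref k0 k0 [(z1,[y1,z1])]])]⟩

/-- classes `0 0 1 0 2 3`, types `C0 C2 C0 C2 S0 C0` -/
noncomputable def cU6_1122 : CertX :=
  ⟨[k4,k6,k20,k6,k32,k52],[(false,k0,[k0,k1,k2,k3,k4,k5])],[[[([z1,z1,z0,z0,z1,z1],z2)],[]]],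
    [.old (.leafM k0 [k0,k1,k4,k5] [] [(k2,k3,z1,[y1,z1]),(k3,k2,z1,[y1,z1])]),
    .old (.lp [k4,k4,k4,k4,k6,k4] [k1,k1,k1,k1,k1,k1,k1,k1,k0,k0,k1,k1] k0 [] k16 k5
    [[(k10,k4)],[(k2,k4),(k3,k4),(k6,k4)],[(k0,k4),(k5,k4),(k9,k5)],[(k0,k4),(k5,k4),(k9,k5)],[(k2,k4),(k3,k4),(k6,
    k4)],[(k7,k4)],[(k4,k4)],[(k0,k4),(k5,k4),(k9,k5)],[(k2,k5),(k3,k5),(k6,k5)],[(k11,k5),(k8,k6)],[(k11,k4),(k8,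
    k5)],[(k1,k4)]]
    [] k0
    [[k0,k0,k1,k1,k0,k0]]
    [.ref k0 k0 [(z1,[y1,z1])]])]⟩

/-- classes `0 0 1 0 2 3`, types `C0 C2 C0 C2 S0 S0` -/
noncomputable def cU6_1123 : CertX :=
  ⟨[k4,k6,k20,k6,k32,k48],[(false,k0,[k0,k1,k2,k3,k4,k5])],[[[([z1,z1,z0,z0,z1,z1],z2)],[]]],
    [.old (.leafM k0 [k0,k1,k4,k5] [] [(k2,k3,z1,[y1,z1]),(k3,k2,z1,[y1,z1])]),
    .old (.lp [k14,k20,k6,k18,k12,k24] [k5,k5,k2,k2,k9,k9,k3,k3,k6,k6,k0,k0] k0 [[k0,k0,k0,k0,k0,k0,k0,k4],[],[],[],[],[],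
    [k0,k4]] k48 k5
    [[(k1,k14),(k10,k19)],[(k6,k12),(k2,k17),(k3,k17)],[(k5,k13),(k0,k17),(k9,k20)],[(k5,k13),(k9,k16),(k0,k17)],[(k6,
    k12),(k2,k13),(k3,k13)],[(k7,k12)],[(k4,k12)],[(k0,k12),(k5,k12),(k9,k15)],[(k6,k15),(k2,k16),(k3,k20)],[(k8,k12),
    (k11,k18)],[(k8,k18),(k11,k24)],[(k1,k19),(k10,k24)]]
    [] k0
    [[k0,k0,k1,k1,k0,k0]]
    [.ref k0 k0 [(z1,[y1,z1])]])]⟩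

/-- classes `0 0 1 0 2 3`, types `C0 C2 S0 C0 C0 C0` -/
noncomputable def cU6_1124 : CertX :=
  ⟨[k4,k6,k16,k4,k36,k52],[(false,k0,[k0,k1,k2,k3,k4,k5])],[[[([z1,z0,z0,z0,z1,z1],z2)],[]]],
    [.old (.leafM k0 [k0,k1,k2,k3,k4,k5] [(z1,[y1,z1])] []),
    .old (.lp [k4,k4,k6,k6,k4,k4] [k1,k1,k1,k1,k0,k0,k0,k0,k1,k1,k1,k1] k0 [] k16 k5
    [[(k10,k4)],[(k2,k4),(k3,k4),(k9,k4)],[(k0,k4),(k5,k5),(k6,k5)],[(k0,k4),(k5,k5),(k6,k5)],[(k2,k5),(k3,k5),(k9,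
    k5)],[(k4,k6),(k7,k6)],[(k4,k6),(k7,k6)],[(k2,k5),(k3,k5),(k9,k5)],[(k0,k4),(k5,k5),(k6,k5)],[(k11,k4)],[(k8,k4)],
    [(k1,k4)]]
    [] k0
    [[k1,k0,k0,k0,k1,k1]]
    [.ref k0 k0 [(z1,[z1])]])]⟩

/-- classes `0 0 1 0 2 3`, types `C0 C2 S0 C0 C0 S0` -/
noncomputable def cU6_1125 : CertX :=
  ⟨[k4,k6,k16,k4,k36,k48],[(false,k0,[k0,k1,k2,k3,k4,k5])],[[[([z1,z0,z0,z0,z1,z1],z2)],[]]],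
    [.old (.leafM k0 [k0,k1,k2,k3,k4,k5] [(z1,[y1,z1])] []),
    .old (.lp [k2,k4,k2,k2,k2,k2] [k1,k1,k0,k0,k1,k1,k1,k1,k1,k1,k1,k1] k0 [] k8 k5
    [[(k1,k2),(k10,k2)],[(k9,k2),(k2,k3),(k3,k3)],[(k0,k3),(k5,k3),(k6,k3)],[(k0,k3),(k5,k3),(k6,k3)],[(k9,k2),(k2,
    k3),(k3,k3)],[(k4,k2),(k7,k2)],[(k4,k2),(k7,k2)],[(k9,k2),(k2,k3),(k3,k3)],[(k0,k2),(k5,k2),(k6,k2)],[(k11,k2)],
    [(k8,k2)],[(k1,k2),(k10,k2)]]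
    [] k0
    [[k1,k0,k0,k0,k1,k1]]
    [.ref k0 k0 [(z1,[z1])]])]⟩

/-- classes `0 0 1 0 2 3`, types `C0 C2 S0 C0 S0 C0` -/
noncomputable def cU6_1126 : CertX :=
  ⟨[k4,k6,k16,k4,k32,k52],[(false,k0,[k0,k1,k2,k3,k4,k5])],[[[([z1,z0,z0,z0,z1,z1],z2)],[]]],
    [.old (.leafM k0 [k0,k1,k2,k3,k4,k5] [(z1,[y1,z1])] []),
    .old (.lp [k2,k4,k2,k2,k2,k2] [k1,k1,k0,k0,k1,k1,k1,k1,k1,k1,k1,k1] k0 [] k8 k5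
    [[(k10,k2)],[(k9,k2),(k2,k3),(k3,k3)],[(k0,k3),(k5,k3),(k6,k3)],[(k0,k3),(k5,k3),(k6,k3)],[(k9,k2),(k2,k3),(k3,
    k3)],[(k4,k2),(k7,k2)],[(k4,k2),(k7,k2)],[(k9,k2),(k2,k3),(k3,k3)],[(k0,k2),(k5,k2),(k6,k2)],[(k8,k2),(k11,k2)],
    [(k8,k2),(k11,k2)],[(k1,k2)]]
    [] k0
    [[k1,k0,k0,k0,k1,k1]]
    [.ref k0 k0 [(z1,[z1])]])]⟩

/-- classes `0 0 1 0 2 3`, types `C0 C2 S0 C0 S0 S0` -/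
noncomputable def cU6_1127 : CertX :=
  ⟨[k4,k6,k16,k4,k32,k48],[(false,k0,[k0,k1,k2,k3,k4,k5])],[[[([z1,z0,z0,z0,z1,z1],z2)],[]]],
    [.old (.leafM k0 [k0,k1,k2,k3,k4,k5] [(z1,[y1,z1])] []),
    .old (.lp [k12,k8,k6,k8,k6,k6] [k0,k0,k2,k2,k3,k3,k2,k2,k3,k3,k3,k3] k0 [[k0,k0,k0,k4],[],[k0,k4]] k24 k5
    [[(k10,k9),(k1,k12)],[(k2,k6),(k9,k9),(k3,k10)],[(k6,k8),(k0,k10),(k5,k11)],[(k0,k6),(k5,k7),(k6,k8)],[(k9,k6),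
    (k2,k7),(k3,k11)],[(k4,k6),(k7,k7)],[(k4,k7),(k7,k8)],[(k9,k7),(k2,k8),(k3,k8)],[(k5,k6),(k6,k7),(k0,k9)],[(k8,
    k6),(k11,k6)],[(k8,k6),(k11,k6)],[(k10,k6),(k1,k9)]]
    [] k0
    [[k0,k1,k1,k1,k0,k0],[k0,k0,k0,k0,k0,k2]]
    [.ref k0 k0 [(z1,[y1,z1])],.contra [z1]])]⟩

/-- classes `0 0 1 0 2 3`, types `C0 C2 S0 C2 C0 C0` -/
noncomputable def cU6_1128 : CertX :=
  ⟨[k4,k6,k16,k6,k36,k52],[(false,k0,[k0,k1,k2,k3,k4,k5])],[[[([z1,z1,z0,z0,z1,z1],z2)],[]]],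
    [.old (.leafM k0 [k0,k1,k4,k5] [] [(k2,k3,z1,[y1,z1]),(k3,k2,z1,[y1,z1])]),
    .old (.lp [k4,k4,k6,k4,k4,k4] [k1,k1,k1,k1,k0,k0,k1,k1,k1,k1,k1,k1] k0 [] k16 k5
    [[(k10,k4)],[(k2,k4),(k3,k4),(k6,k4)],[(k0,k4),(k9,k4),(k5,k5)],[(k0,k4),(k9,k4),(k5,k5)],[(k2,k5),(k3,k5),(k6,
    k5)],[(k7,k5),(k4,k6)],[(k7,k4),(k4,k5)],[(k0,k4),(k9,k4),(k5,k5)],[(k2,k4),(k3,k4),(k6,k4)],[(k11,k4)],[(k8,k4)],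
    [(k1,k4)]]
    [] k0
    [[k0,k0,k1,k1,k0,k0]]
    [.ref k0 k0 [(z1,[y1,z1])]])]⟩

/-- classes `0 0 1 0 2 3`, types `C0 C2 S0 C2 C0 S0` -/
noncomputable def cU6_1129 : CertX :=
  ⟨[k4,k6,k16,k6,k36,k48],[(false,k0,[k0,k1,k2,k3,k4,k5])],[[[([z1,z1,z0,z0,z1,z1],z2)],[]]],
    [.old (.leafM k0 [k0,k1,k4,k5] [] [(k2,k3,z1,[y1,z1]),(k3,k2,z1,[y1,z1])]),
    .old (.lp [k2,k4,k2,k2,k2,k2] [k1,k1,k0,k0,k1,k1,k1,k1,k1,k1,k1,k1] k0 [] k8 k5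
    [[(k1,k2),(k10,k2)],[(k6,k2),(k2,k3),(k3,k3)],[(k0,k3),(k5,k3),(k9,k3)],[(k0,k3),(k5,k3),(k9,k3)],[(k6,k2),(k2,
    k3),(k3,k3)],[(k4,k2),(k7,k2)],[(k4,k2),(k7,k2)],[(k0,k2),(k5,k2),(k9,k2)],[(k6,k2),(k2,k3),(k3,k3)],[(k11,k2)],
    [(k8,k2)],[(k1,k2),(k10,k2)]]
    [] k0
    [[k0,k0,k1,k1,k0,k0]]
    [.ref k0 k0 [(z1,[y1,z1])]])]⟩

/-- classes `0 0 1 0 2 3`, types `C0 C2 S0 C2 S0 C0` -/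
noncomputable def cU6_1130 : CertX :=
  ⟨[k4,k6,k16,k6,k32,k52],[(false,k0,[k0,k1,k2,k3,k4,k5])],[[[([z1,z1,z0,z0,z1,z1],z2)],[]]],
    [.old (.leafM k0 [k0,k1,k4,k5] [] [(k2,k3,z1,[y1,z1]),(k3,k2,z1,[y1,z1])]),
    .old (.lp [k2,k4,k2,k2,k2,k2] [k1,k1,k0,k0,k1,k1,k1,k1,k1,k1,k1,k1] k0 [] k8 k5
    [[(k10,k2)],[(k6,k2),(k2,k3),(k3,k3)],[(k0,k3),(k5,k3),(k9,k3)],[(k0,k3),(k5,k3),(k9,k3)],[(k6,k2),(k2,k3),(k3,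
    k3)],[(k4,k2),(k7,k2)],[(k4,k2),(k7,k2)],[(k0,k2),(k5,k2),(k9,k2)],[(k6,k2),(k2,k3),(k3,k3)],[(k8,k2),(k11,k2)],
    [(k8,k2),(k11,k2)],[(k1,k2)]]
    [] k0
    [[k0,k0,k1,k1,k0,k0]]
    [.ref k0 k0 [(z1,[y1,z1])]])]⟩

/-- classes `0 0 1 0 2 3`, types `C0 C2 S0 C2 S0 S0` -/
noncomputable def cU6_1131 : CertX :=
  ⟨[k4,k6,k16,k6,k32,k48],[(false,k0,[k0,k1,k2,k3,k4,k5])],[[[([z1,z1,z0,z0,z1,z1],z2)],[]]],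
    [.old (.leafM k0 [k0,k1,k4,k5] [] [(k2,k3,z1,[y1,z1]),(k3,k2,z1,[y1,z1])]),
    .old (.lp [k2,k4,k2,k2,k2,k2] [k1,k1,k0,k0,k1,k1,k1,k1,k1,k1,k1,k1] k0 [] k8 k5
    [[(k1,k2),(k10,k2)],[(k6,k2),(k2,k3),(k3,k3)],[(k0,k3),(k5,k3),(k9,k3)],[(k0,k3),(k5,k3),(k9,k3)],[(k6,k2),(k2,
    k3),(k3,k3)],[(k4,k2),(k7,k2)],[(k4,k2),(k7,k2)],[(k0,k2),(k5,k2),(k9,k2)],[(k6,k2),(k2,k3),(k3,k3)],[(k8,k2),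
    (k11,k2)],[(k8,k2),(k11,k2)],[(k1,k2),(k10,k2)]]
    [] k0
    [[k0,k0,k1,k1,k0,k0],[k0,k0,k0,k0,k0,k2]]
    [.ref k0 k0 [(z1,[y1,z1])],.contra [z1]])]⟩

/-- classes `0 0 1 0 2 3`, types `S0 S0 C0 S0 C0 C0` -/
noncomputable def cU6_1132 : CertX :=
  ⟨[k0,k0,k20,k0,k36,k52],[(false,k0,[k0,k1,k2,k3,k4,k5])],[[[([z1,z1,z0,z0,z1,z1],z2)],[([z1,z0,z0,z0,z1,z1],z2)],
    []]],
    [.old (.leafM k0 [k0,k1,k4,k5] [] [(k2,k3,z1,[y1,z1]),(k3,k2,z1,[y1,z1])]),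
    .old (.leafM k0 [k0,k1,k2,k3,k4,k5] [(z1,[y1,z1])] []),
    .old (.lp [k2,k4,k2,k2,k2,k2] [k1,k1,k0,k0,k1,k1,k1,k1,k1,k1,k1,k1] k0 [] k8 k5
    [[(k10,k2)],[(k0,k2),(k5,k2),(k6,k2),(k9,k2),(k2,k3),(k3,k3)],[(k0,k3),(k5,k3),(k6,k3),(k9,k3),(k2,k4),(k3,k4)],
    [(k0,k3),(k5,k3),(k6,k3),(k9,k3),(k2,k4),(k3,k4)],[(k0,k2),(k5,k2),(k6,k2),(k9,k2),(k2,k3),(k3,k3)],[(k7,k2)],
    [(k4,k2)],[(k0,k2),(k5,k2),(k6,k2),(k9,k2),(k2,k3),(k3,k3)],[(k0,k2),(k5,k2),(k6,k2),(k9,k2),(k2,k3),(k3,k3)],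
    [(k11,k2)],[(k8,k2)],[(k1,k2)]]
    [] k0
    [[k1,k0,k0,k0,k1,k1],[k0,k0,k1,k1,k0,k0]]
    [.ref k1 k0 [(z1,[z1])],.ref k0 k0 [(z1,[y1,z1])]])]⟩

/-- classes `0 0 1 0 2 3`, types `S0 S0 C0 S0 C0 S0` -/
noncomputable def cU6_1133 : CertX :=
  ⟨[k0,k0,k20,k0,k36,k48],[(false,k0,[k0,k1,k2,k3,k4,k5])],[[[([z1,z1,z0,z0,z1,z1],z2)],[([z1,z0,z0,z0,z1,z1],z2)],
    []]],
    [.old (.leafM k0 [k0,k1,k4,k5] [] [(k2,k3,z1,[y1,z1]),(k3,k2,z1,[y1,z1])]),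
    .old (.leafM k0 [k0,k1,k2,k3,k4,k5] [(z1,[y1,z1])] []),
    .old (.lp [k2,k4,k2,k2,k2,k2] [k1,k1,k0,k0,k1,k1,k1,k1,k1,k1,k1,k1] k0 [] k8 k5
    [[(k1,k2),(k10,k2)],[(k0,k2),(k5,k2),(k6,k2),(k9,k2),(k2,k3),(k3,k3)],[(k0,k3),(k5,k3),(k6,k3),(k9,k3),(k2,k4),
    (k3,k4)],[(k0,k3),(k5,k3),(k6,k3),(k9,k3),(k2,k4),(k3,k4)],[(k0,k2),(k5,k2),(k6,k2),(k9,k2),(k2,k3),(k3,k3)],[(k7,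
    k2)],[(k4,k2)],[(k0,k2),(k5,k2),(k6,k2),(k9,k2),(k2,k3),(k3,k3)],[(k0,k2),(k5,k2),(k6,k2),(k9,k2),(k2,k3),(k3,
    k3)],[(k11,k2)],[(k8,k2)],[(k1,k2),(k10,k2)]]
    [] k0
    [[k2,k0,k0,k0,k0,k0],[k1,k0,k0,k0,k1,k1],[k0,k0,k1,k1,k0,k0]]
    [.contra [z1],.ref k1 k0 [(z1,[z1])],.ref k0 k0 [(z1,[y1,z1])]])]⟩

/-- classes `0 0 1 0 2 3`, types `S0 S0 C0 S0 S0 C0` -/
noncomputable def cU6_1134 : CertX :=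
  ⟨[k0,k0,k20,k0,k32,k52],[(false,k0,[k0,k1,k2,k3,k4,k5])],[[[([z1,z1,z0,z0,z1,z1],z2)],[([z1,z0,z0,z0,z1,z1],z2)],
    []]],
    [.old (.leafM k0 [k0,k1,k4,k5] [] [(k2,k3,z1,[y1,z1]),(k3,k2,z1,[y1,z1])]),
    .old (.leafM k0 [k0,k1,k2,k3,k4,k5] [(z1,[y1,z1])] []),
    .old (.lp [k2,k4,k2,k2,k2,k2] [k1,k1,k0,k0,k1,k1,k1,k1,k1,k1,k1,k1] k0 [] k8 k5
    [[(k10,k2)],[(k0,k2),(k5,k2),(k6,k2),(k9,k2),(k2,k3),(k3,k3)],[(k0,k3),(k5,k3),(k6,k3),(k9,k3),(k2,k4),(k3,k4)],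
    [(k0,k3),(k5,k3),(k6,k3),(k9,k3),(k2,k4),(k3,k4)],[(k0,k2),(k5,k2),(k6,k2),(k9,k2),(k2,k3),(k3,k3)],[(k7,k2)],
    [(k4,k2)],[(k0,k2),(k5,k2),(k6,k2),(k9,k2),(k2,k3),(k3,k3)],[(k0,k2),(k5,k2),(k6,k2),(k9,k2),(k2,k3),(k3,k3)],
    [(k8,k2),(k11,k2)],[(k8,k2),(k11,k2)],[(k1,k2)]]
    [] k0
    [[k1,k0,k0,k0,k1,k1],[k0,k0,k1,k1,k0,k0],[k0,k0,k0,k0,k2,k0]]
    [.ref k1 k0 [(z1,[z1])],.ref k0 k0 [(z1,[y1,z1])],.contra [z1]])]⟩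

/-- classes `0 0 1 0 2 3`, types `S0 S0 C0 S0 S0 S0` -/
noncomputable def cU6_1135 : CertX :=
  ⟨[k0,k0,k20,k0,k32,k48],[(false,k0,[k0,k1,k2,k3,k4,k5])],[[[([z1,z1,z0,z0,z1,z1],z2)],[([z1,z0,z0,z0,z1,z1],z2)],
    []]],
    [.old (.leafM k0 [k0,k1,k4,k5] [] [(k2,k3,z1,[y1,z1]),(k3,k2,z1,[y1,z1])]),
    .old (.leafM k0 [k0,k1,k2,k3,k4,k5] [(z1,[y1,z1])] []),
    .old (.lp [k2,k4,k2,k2,k2,k2] [k1,k1,k0,k0,k1,k1,k1,k1,k1,k1,k1,k1] k0 [] k8 k5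
    [[(k1,k2),(k10,k2)],[(k0,k2),(k5,k2),(k6,k2),(k9,k2),(k2,k3),(k3,k3)],[(k0,k3),(k5,k3),(k6,k3),(k9,k3),(k2,k4),
    (k3,k4)],[(k0,k3),(k5,k3),(k6,k3),(k9,k3),(k2,k4),(k3,k4)],[(k0,k2),(k5,k2),(k6,k2),(k9,k2),(k2,k3),(k3,k3)],[(k7,
    k2)],[(k4,k2)],[(k0,k2),(k5,k2),(k6,k2),(k9,k2),(k2,k3),(k3,k3)],[(k0,k2),(k5,k2),(k6,k2),(k9,k2),(k2,k3),(k3,
    k3)],[(k8,k2),(k11,k2)],[(k8,k2),(k11,k2)],[(k1,k2),(k10,k2)]]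
    [] k0
    [[k2,k0,k0,k0,k0,k0],[k1,k0,k0,k0,k1,k1],[k0,k0,k1,k1,k0,k0],[k0,k0,k0,k0,k2,k0],[k0,k0,k0,k0,k0,k2]]
    [.contra [z1],.ref k1 k0 [(z1,[z1])],.ref k0 k0 [(z1,[y1,z1])],.contra [z1],.contra [z1]])]⟩

/-- classes `0 0 1 0 2 3`, types `S0 S0 S0 S0 C0 C0` -/
noncomputable def cU6_1136 : CertX :=
  ⟨[k0,k0,k16,k0,k36,k52],[(false,k0,[k0,k1,k2,k3,k4,k5])],[[[([z1,z1,z0,z0,z1,z1],z2)],[([z1,z0,z0,z0,z1,z1],z2)],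
    []]],
    [.old (.leafM k0 [k0,k1,k4,k5] [] [(k2,k3,z1,[y1,z1]),(k3,k2,z1,[y1,z1])]),
    .old (.leafM k0 [k0,k1,k2,k3,k4,k5] [(z1,[y1,z1])] []),
    .old (.lp [k2,k4,k2,k2,k2,k2] [k1,k1,k0,k0,k1,k1,k1,k1,k1,k1,k1,k1] k0 [] k8 k5
    [[(k10,k2)],[(k0,k2),(k5,k2),(k6,k2),(k9,k2),(k2,k3),(k3,k3)],[(k0,k3),(k5,k3),(k6,k3),(k9,k3),(k2,k4),(k3,k4)],
    [(k0,k3),(k5,k3),(k6,k3),(k9,k3),(k2,k4),(k3,k4)],[(k0,k2),(k5,k2),(k6,k2),(k9,k2),(k2,k3),(k3,k3)],[(k4,k2),(k7,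
    k2)],[(k4,k2),(k7,k2)],[(k0,k2),(k5,k2),(k6,k2),(k9,k2),(k2,k3),(k3,k3)],[(k0,k2),(k5,k2),(k6,k2),(k9,k2),(k2,k3),
    (k3,k3)],[(k11,k2)],[(k8,k2)],[(k1,k2)]]
    [] k0
    [[k1,k0,k0,k0,k1,k1],[k0,k0,k2,k0,k0,k0],[k0,k0,k1,k1,k0,k0],[k0,k0,k0,k2,k0,k0]]
    [.ref k1 k0 [(z1,[z1])],.contra [z1],.ref k0 k0 [(z1,[y1,z1])],.contra [z1]])]⟩

/-- classes `0 0 1 0 2 3`, types `S0 S0 S0 S0 C0 S0` -/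
noncomputable def cU6_1137 : CertX :=
  ⟨[k0,k0,k16,k0,k36,k48],[(false,k0,[k0,k1,k2,k3,k4,k5])],[[[([z1,z1,z0,z0,z1,z1],z2)],[([z1,z0,z0,z0,z1,z1],z2)],
    []]],
    [.old (.leafM k0 [k0,k1,k4,k5] [] [(k2,k3,z1,[y1,z1]),(k3,k2,z1,[y1,z1])]),
    .old (.leafM k0 [k0,k1,k2,k3,k4,k5] [(z1,[y1,z1])] []),
    .old (.lp [k2,k4,k2,k2,k2,k2] [k1,k1,k0,k0,k1,k1,k1,k1,k1,k1,k1,k1] k0 [] k8 k5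
    [[(k1,k2),(k10,k2)],[(k0,k2),(k5,k2),(k6,k2),(k9,k2),(k2,k3),(k3,k3)],[(k0,k3),(k5,k3),(k6,k3),(k9,k3),(k2,k4),
    (k3,k4)],[(k0,k3),(k5,k3),(k6,k3),(k9,k3),(k2,k4),(k3,k4)],[(k0,k2),(k5,k2),(k6,k2),(k9,k2),(k2,k3),(k3,k3)],[(k4,
    k2),(k7,k2)],[(k4,k2),(k7,k2)],[(k0,k2),(k5,k2),(k6,k2),(k9,k2),(k2,k3),(k3,k3)],[(k0,k2),(k5,k2),(k6,k2),(k9,k2),
    (k2,k3),(k3,k3)],[(k11,k2)],[(k8,k2)],[(k1,k2),(k10,k2)]]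
    [] k0
    [[k2,k0,k0,k0,k0,k0],[k1,k0,k0,k0,k1,k1],[k0,k0,k2,k0,k0,k0],[k0,k0,k1,k1,k0,k0],[k0,k0,k0,k2,k0,k0]]
    [.contra [z1],.ref k1 k0 [(z1,[z1])],.contra [z1],.ref k0 k0 [(z1,[y1,z1])],.contra [z1]])]⟩

/-- classes `0 0 1 0 2 3`, types `S0 S0 S0 S0 S0 C0` -/
noncomputable def cU6_1138 : CertX :=
  ⟨[k0,k0,k16,k0,k32,k52],[(false,k0,[k0,k1,k2,k3,k4,k5])],[[[([z1,z1,z0,z0,z1,z1],z2)],[([z1,z0,z0,z0,z1,z1],z2)],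
    []]],
    [.old (.leafM k0 [k0,k1,k4,k5] [] [(k2,k3,z1,[y1,z1]),(k3,k2,z1,[y1,z1])]),
    .old (.leafM k0 [k0,k1,k2,k3,k4,k5] [(z1,[y1,z1])] []),
    .old (.lp [k2,k4,k2,k2,k2,k2] [k1,k1,k0,k0,k1,k1,k1,k1,k1,k1,k1,k1] k0 [] k8 k5
    [[(k10,k2)],[(k0,k2),(k5,k2),(k6,k2),(k9,k2),(k2,k3),(k3,k3)],[(k0,k3),(k5,k3),(k6,k3),(k9,k3),(k2,k4),(k3,k4)],
    [(k0,k3),(k5,k3),(k6,k3),(k9,k3),(k2,k4),(k3,k4)],[(k0,k2),(k5,k2),(k6,k2),(k9,k2),(k2,k3),(k3,k3)],[(k4,k2),(k7,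
    k2)],[(k4,k2),(k7,k2)],[(k0,k2),(k5,k2),(k6,k2),(k9,k2),(k2,k3),(k3,k3)],[(k0,k2),(k5,k2),(k6,k2),(k9,k2),(k2,k3),
    (k3,k3)],[(k8,k2),(k11,k2)],[(k8,k2),(k11,k2)],[(k1,k2)]]
    [] k0
    [[k1,k0,k0,k0,k1,k1],[k0,k0,k2,k0,k0,k0],[k0,k0,k1,k1,k0,k0],[k0,k0,k0,k2,k0,k0],[k0,k0,k0,k0,k2,k0]]
    [.ref k1 k0 [(z1,[z1])],.contra [z1],.ref k0 k0 [(z1,[y1,z1])],.contra [z1],.contra [z1]])]⟩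

/-- classes `0 0 1 1 2 2`, types `B0 B1 B0 B1 B0 B1` -/
noncomputable def cU6_1139 : CertX :=
  ⟨[k8,k9,k24,k25,k40,k41],[(false,k0,[k0,k1,k2,k3,k4,k5]),(false,k4,[k4,k5,k0,k1,k2,k3])],[[[([z1,z0,z1,z0,z1,z0],
    z2),([z0,z3,z0,z0,z0,z0],z2),([z0,z0,z0,z3,z0,z0],z2)],[([z1,z0,z1,z0,z1,z0],z2),([z0,z3,z0,z0,z0,z0],z2)],[([z1,
    z0,z1,z0,z1,z0],z2)],[]]],
    [.old (.leafM k2 [k0,k1,k2,k3,k4,k5] [(z1,[z0,z1]),(z1,[z0,z0,z1]),(z1,[y3,y1,y1,z3])] []),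
    .old (.lp [k12,k8,k6,k6,k6,k8] [k0,k0,k2,k2,k3,k3,k3,k3,k3,k3,k2,k2] k0 [] k24 k5
    [[(k8,k9),(k11,k10)],[(k5,k9),(k2,k10)],[(k5,k7),(k2,k8)],[(k3,k8),(k0,k10)],[(k3,k7),(k0,k9)],[(k6,k6),(k9,k6)],
    [(k6,k6),(k9,k6)],[(k4,k6),(k7,k6)],[(k4,k6),(k7,k6)],[(k10,k7),(k1,k9)],[(k10,k8),(k1,k10)],[(k8,k7),(k11,k8)]]
    [] k0
    [[k0,k2,k0,k0,k0,k0],[k0,k0,k0,k2,k0,k0],[k0,k0,k0,k3,k0,k0],[k0,k0,k0,k0,k0,k2]]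
    [.contra [z1],.contra [z1],.ref k0 k0 [(z1,[z0,z1]),(z1,[z0,z0,z1]),(z1,[z1])],.contra [z1]]),
    .old (.lp [k12,k8,k6,k6,k6,k8] [k0,k0,k2,k2,k3,k3,k3,k3,k3,k3,k2,k2] k0 [] k24 k5
    [[(k8,k9),(k11,k10)],[(k5,k9),(k2,k10)],[(k5,k7),(k2,k8)],[(k3,k8),(k0,k10)],[(k3,k7),(k0,k9)],[(k6,k6),(k9,k6)],
    [(k6,k6),(k9,k6)],[(k4,k6),(k7,k6)],[(k4,k6),(k7,k6)],[(k10,k7),(k1,k9)],[(k10,k8),(k1,k10)],[(k8,k7),(k11,k8)]]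
    [] k0
    [[k0,k2,k0,k0,k0,k0],[k0,k0,k0,k2,k0,k0],[k0,k0,k0,k3,k0,k0],[k0,k0,k0,k0,k0,k2]]
    [.contra [z1],.contra [z1],.ref k1 k1 [(z1,[z0,z1]),(z1,[z1])],.contra [z1]]),
    .old (.lp [k6,k8,k6,k12,k6,k8] [k3,k3,k2,k2,k3,k3,k0,k0,k3,k3,k2,k2] k0 [] k24 k5
    [[(k8,k6),(k11,k7)],[(k5,k6),(k2,k7)],[(k5,k7),(k2,k8)],[(k0,k7),(k3,k8)],[(k0,k6),(k3,k7)],[(k9,k6),(k6,k9)],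
    [(k9,k9),(k6,k12)],[(k4,k9),(k7,k12)],[(k4,k6),(k7,k9)],[(k1,k6),(k10,k7)],[(k1,k7),(k10,k8)],[(k8,k7),(k11,k8)]]
    [] k0
    [[k1,k0,k1,k0,k1,k0],[k0,k2,k0,k0,k0,k0],[k0,k0,k0,k0,k0,k2]]
    [.ref k2 k0 [(z1,[z1])],.contra [z1],.contra [z1]])]⟩

/-- classes `0 0 1 1 2 2`, types `B0 B1 B0 B1 C0 C0` -/
noncomputable def cU6_1140 : CertX :=
  ⟨[k8,k9,k24,k25,k36,k36],[(false,k0,[k0,k1,k2,k3,k4,k5])],[[[([z1,z0,z1,z0,z1,z0],z2),([z0,z3,z0,z0,z0,z0],z2),([z0,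
    z0,z0,z3,z0,z0],z2)],[([z1,z0,z1,z0,z1,z0],z2),([z0,z3,z0,z0,z0,z0],z2)],[([z1,z0,z1,z0,z1,z0],z2)],[]]],
    [.old (.leafM k2 [k0,k1,k2,k3,k4,k5] [(z1,[z0,z1]),(z1,[z0,z0,z1]),(z1,[y3,y1,y1,z3])] []),
    .old (.lp [k6,k8,k12,k6,k6,k8] [k3,k3,k2,k2,k0,k0,k3,k3,k3,k3,k2,k2] k0 [] k24 k5
    [[(k8,k6),(k10,k7)],[(k2,k7),(k5,k9)],[(k2,k8),(k5,k10)],[(k0,k7),(k3,k8)],[(k0,k9),(k3,k10)],[(k6,k9),(k9,k9)],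
    [(k6,k6),(k9,k6)],[(k7,k6),(k4,k9)],[(k7,k6),(k4,k9)],[(k1,k6),(k11,k7)],[(k8,k7),(k10,k8)],[(k1,k7),(k11,k8)]]
    [] k0
    [[k0,k2,k0,k0,k0,k0],[k0,k0,k0,k2,k0,k0],[k0,k0,k0,k3,k0,k0],[k0,k0,k0,k0,k0,k2]]
    [.contra [z1],.contra [z1],.ref k0 k0 [(z1,[z0,z1]),(z1,[z0,z0,z1]),(z1,[z1])],.contra [z1]]),
    .old (.lp [k8,k6,k12,k8,k4,k8] [k2,k2,k3,k3,k0,k0,k2,k2,k4,k4,k2,k2] k0 [] k24 k5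
    [[(k8,k6),(k10,k8)],[(k2,k7),(k5,k10)],[(k2,k6),(k5,k9)],[(k3,k6),(k0,k7)],[(k3,k9),(k0,k10)],[(k9,k8),(k6,k10)],
    [(k9,k6),(k6,k8)],[(k7,k8),(k4,k10)],[(k7,k6),(k4,k8)],[(k1,k6),(k11,k6)],[(k8,k6),(k10,k8)],[(k1,k8),(k11,k8)]]
    [] k0
    [[k0,k2,k0,k0,k0,k0],[k0,k3,k0,k0,k0,k0],[k0,k0,k0,k2,k0,k0],[k0,k0,k0,k0,k0,k2]]
    [.contra [z1],.ref k1 k0 [(z1,[z0,z1]),(z1,[z1])],.contra [z1],.contra [z1]]),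
    .old (.lp [k6,k12,k6,k8,k6,k8] [k3,k3,k0,k0,k3,k3,k2,k2,k3,k3,k2,k2] k0 [] k24 k5
    [[(k8,k6),(k10,k7)],[(k5,k6),(k2,k9)],[(k5,k9),(k2,k12)],[(k0,k9),(k3,k12)],[(k0,k6),(k3,k9)],[(k9,k6),(k6,k7)],
    [(k9,k7),(k6,k8)],[(k4,k7),(k7,k8)],[(k4,k6),(k7,k7)],[(k1,k6),(k11,k7)],[(k8,k7),(k10,k8)],[(k1,k7),(k11,k8)]]
    [] k0
    [[k1,k0,k1,k0,k1,k0],[k0,k0,k0,k2,k0,k0],[k0,k0,k0,k0,k0,k2]]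
    [.ref k2 k0 [(z1,[z1])],.contra [z1],.contra [z1]])]⟩

/-- classes `0 0 1 1 2 2`, types `B0 B1 B0 B1 C0 C2` -/
noncomputable def cU6_1141 : CertX :=
  ⟨[k8,k9,k24,k25,k36,k38],[],[[[]]],
    [.old (.lp [k2,k6,k4,k4,k2,k4] [k2,k2,k0,k0,k1,k1,k1,k1,k2,k2,k1,k1] k0 [] k12 k5
    [[(k10,k3),(k11,k3)],[(k5,k3),(k2,k4)],[(k5,k5),(k2,k6)],[(k0,k4),(k3,k6)],[(k0,k3),(k3,k5)],[(k9,k3),(k6,k4)],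
    [(k9,k3),(k6,k4)],[(k4,k4),(k7,k4)],[(k4,k3),(k7,k3)],[(k10,k3),(k11,k3)],[(k1,k3),(k8,k3)],[(k1,k3),(k8,k3)]]
    [] k0
    [[k0,k0,k0,k2,k0,k0]]
    [.contra [z1]])]⟩

/-- classes `0 0 1 1 2 2`, types `B0 B1 B0 B1 N0 N1` -/
noncomputable def cU6_1142 : CertX :=
  ⟨[k8,k9,k24,k25,k44,k45],[(false,k0,[k0,k1,k2,k3,k4,k5])],[[[([z1,z0,z1,z0,z1,z0],z2),([z0,z3,z0,z0,z0,z0],z2),([z0,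
    z0,z0,z3,z0,z0],z2)],[([z1,z0,z1,z0,z1,z0],z2),([z0,z3,z0,z0,z0,z0],z2)],[([z1,z0,z1,z0,z1,z0],z2)],[]]],
    [.old (.leafM k2 [k0,k1,k2,k3,k4,k5] [(z1,[z0,z1]),(z1,[z0,z0,z1]),(z1,[y3,y1,y1,z3])] []),
    .old (.lp [k6,k8,k12,k6,k6,k8] [k3,k3,k2,k2,k0,k0,k3,k3,k3,k3,k2,k2] k0 [] k24 k5
    [[(k8,k6)],[(k2,k7),(k5,k9)],[(k2,k8),(k5,k10)],[(k0,k7),(k3,k8)],[(k0,k9),(k3,k10)],[(k6,k9),(k9,k9)],[(k6,k6),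
    (k9,k6)],[(k7,k6),(k4,k9)],[(k7,k6),(k4,k9)],[(k1,k6)],[(k10,k8)],[(k11,k8)]]
    [] k0
    [[k0,k2,k0,k0,k0,k0],[k0,k0,k0,k2,k0,k0],[k0,k0,k0,k3,k0,k0],[k0,k0,k0,k0,k0,k2]]
    [.contra [z1],.contra [z1],.ref k0 k0 [(z1,[z0,z1]),(z1,[z0,z0,z1]),(z1,[z1])],.contra [z1]]),
    .old (.lp [k8,k6,k12,k8,k4,k8] [k2,k2,k3,k3,k0,k0,k2,k2,k4,k4,k2,k2] k0 [] k24 k5
    [[(k8,k6)],[(k2,k7),(k5,k10)],[(k2,k6),(k5,k9)],[(k3,k6),(k0,k7)],[(k3,k9),(k0,k10)],[(k9,k8),(k6,k10)],[(k9,k6),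
    (k6,k8)],[(k7,k8),(k4,k10)],[(k7,k6),(k4,k8)],[(k1,k6)],[(k10,k8)],[(k11,k8)]]
    [] k0
    [[k0,k2,k0,k0,k0,k0],[k0,k3,k0,k0,k0,k0],[k0,k0,k0,k2,k0,k0],[k0,k0,k0,k0,k0,k2]]
    [.contra [z1],.ref k1 k0 [(z1,[z0,z1]),(z1,[z1])],.contra [z1],.contra [z1]]),
    .old (.lp [k6,k12,k6,k8,k6,k8] [k3,k3,k0,k0,k3,k3,k2,k2,k3,k3,k2,k2] k0 [] k24 k5
    [[(k8,k6)],[(k5,k6),(k2,k9)],[(k5,k9),(k2,k12)],[(k0,k9),(k3,k12)],[(k0,k6),(k3,k9)],[(k9,k6),(k6,k7)],[(k9,k7),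
    (k6,k8)],[(k4,k7),(k7,k8)],[(k4,k6),(k7,k7)],[(k1,k6)],[(k10,k8)],[(k11,k8)]]
    [] k0
    [[k1,k0,k1,k0,k1,k0],[k0,k0,k0,k2,k0,k0],[k0,k0,k0,k0,k0,k2]]
    [.ref k2 k0 [(z1,[z1])],.contra [z1],.contra [z1]])]⟩

/-- classes `0 0 1 1 2 2`, types `B0 B1 B0 B1 N0 N2` -/
noncomputable def cU6_1143 : CertX :=
  ⟨[k8,k9,k24,k25,k44,k46],[],[[[]]],
    [.old (.lp [k2,k6,k4,k4,k2,k4] [k2,k2,k0,k0,k1,k1,k1,k1,k2,k2,k1,k1] k0 [] k12 k5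
    [[(k11,k3)],[(k5,k3),(k2,k4)],[(k5,k5),(k2,k6)],[(k0,k4),(k3,k6)],[(k0,k3),(k3,k5)],[(k9,k3),(k6,k4)],[(k9,k3),
    (k6,k4)],[(k4,k4),(k7,k4)],[(k4,k3),(k7,k3)],[(k10,k3)],[(k1,k3)],[(k8,k3)]]
    [] k0
    [[k0,k0,k0,k2,k0,k0]]
    [.contra [z1]])]⟩

/-- classes `0 0 1 1 2 2`, types `B0 B1 B0 B1 S0 S0` -/
noncomputable def cU6_1144 : CertX :=
  ⟨[k8,k9,k24,k25,k32,k32],[(false,k0,[k0,k1,k2,k3,k4,k5]),(true,k4,[k4,k3,k2,k1,k0,k5])],[[[([z1,z0,z1,z0,z1,z0],z2),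
    ([z0,z3,z0,z0,z0,z0],z2),([z0,z0,z0,z3,z0,z0],z2)],[([z3,z0,z3,z0,z3,z3],z8),([z0,z3,z0,z0,z0,z0],z2)],[([z3,z0,
    z3,z3,z3,z3],z10)],[]]],
    [.old (.leafM k2 [k0,k1,k2,k3,k4,k5] [(z1,[z0,z1]),(z1,[z0,z0,z1]),(z1,[y3,y1,y1,z3])] []),
    .old (.lp [k12,k8,k4,k8,k8,k6] [k0,k0,k2,k2,k4,k4,k2,k2,k2,k2,k3,k3] k0 [] k24 k5
    [[(k10,k9),(k11,k9),(k8,k10),(k1,k12)],[(k5,k8),(k2,k10)],[(k5,k6),(k2,k8)],[(k3,k8),(k0,k10)],[(k3,k6),(k0,k8)],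
    [(k6,k6),(k9,k6)],[(k6,k8),(k9,k8)],[(k4,k6),(k7,k8)],[(k4,k6),(k7,k8)],[(k10,k7),(k11,k7),(k8,k8),(k1,k10)],
    [(k10,k6),(k11,k6),(k8,k7),(k1,k9)],[(k10,k6),(k11,k6),(k8,k7),(k1,k9)]]
    [] k0
    [[k0,k2,k0,k0,k0,k0],[k0,k0,k0,k2,k0,k0],[k0,k0,k0,k0,k0,k2],[k0,k0,k0,k0,k0,k3]]
    [.contra [z1],.contra [z3,z2,z4,y6],.contra [z1],.ref k0 k0 [(z3,[y1,z1]),(z1,[z0,z0,z1]),(z1,[z0,y1,y1,z3])]]),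
    .old (.lp [k12,k8,k6,k6,k6,k8] [k0,k0,k2,k2,k3,k3,k3,k3,k3,k3,k2,k2] k0 [] k24 k5
    [[(k8,k9),(k10,k10),(k11,k10),(k1,k12)],[(k5,k9),(k2,k10)],[(k5,k7),(k2,k8)],[(k3,k8),(k0,k10)],[(k3,k7),(k0,k9)],
    [(k6,k6),(k9,k6)],[(k6,k6),(k9,k6)],[(k4,k6),(k7,k6)],[(k4,k6),(k7,k6)],[(k8,k6),(k10,k7),(k11,k7),(k1,k9)],[(k8,
    k7),(k10,k8),(k11,k8),(k1,k10)],[(k8,k7),(k10,k8),(k11,k8),(k1,k10)]]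
    [] k0
    [[k0,k2,k0,k0,k0,k0],[k0,k0,k0,k2,k0,k0],[k0,k0,k0,k3,k0,k0],[k0,k0,k0,k0,k0,k2]]
    [.contra [z1],.contra [z1],.ref k1 k0 [(z1,[y1,z1]),(z1,[z0,y1,z3])],.contra [z1]]),
    .old (.lp [k12,k8,k6,k6,k6,k8] [k0,k0,k2,k2,k3,k3,k3,k3,k3,k3,k2,k2] k0 [] k24 k5
    [[(k8,k9),(k10,k10),(k11,k10),(k1,k12)],[(k5,k9),(k2,k10)],[(k5,k7),(k2,k8)],[(k3,k8),(k0,k10)],[(k3,k7),(k0,k9)],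
    [(k6,k6),(k9,k6)],[(k6,k6),(k9,k6)],[(k4,k6),(k7,k6)],[(k4,k6),(k7,k6)],[(k8,k6),(k10,k7),(k11,k7),(k1,k9)],[(k8,
    k7),(k10,k8),(k11,k8),(k1,k10)],[(k8,k7),(k10,k8),(k11,k8),(k1,k10)]]
    [] k0
    [[k0,k2,k0,k0,k0,k0],[k0,k0,k0,k2,k0,k0],[k0,k0,k0,k3,k0,k0],[k0,k0,k0,k0,k0,k2]]
    [.contra [z1],.contra [z1],.ref k2 k1 [(z1,[y1,z3])],.contra [z1]])]⟩

/-- classes `0 0 1 1 2 2`, types `B0 B1 C0 C0 C0 C0` -/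
noncomputable def cU6_1145 : CertX :=
  ⟨[k8,k9,k20,k20,k36,k36],[(false,k0,[k0,k1,k2,k3,k4,k5])],[[[([z1,z0,z1,z0,z1,z0],z2),([z0,z3,z0,z0,z0,z0],z2),([z0,
    z0,z0,z3,z0,z0],z2)],[([z3,z3,z3,z0,z3,z0],z8),([z0,z0,z0,z3,z0,z0],z2)],[([z3,z3,z3,z0,z3,z3],z10)],[]]],
    [.old (.leafM k2 [k0,k1,k2,k3,k4,k5] [(z1,[z0,z1]),(z1,[z0,z0,z1]),(z1,[y3,y1,y1,z3])] []),
    .old (.lp [k6,k6,k12,k8,k6,k8] [k3,k3,k3,k3,k0,k0,k2,k2,k3,k3,k2,k2] k0 [] k24 k5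
    [[(k8,k6),(k10,k7)],[(k2,k6),(k5,k9)],[(k2,k6),(k5,k9)],[(k0,k6),(k3,k6)],[(k0,k9),(k3,k9)],[(k9,k9),(k7,k10)],
    [(k6,k8),(k4,k10)],[(k9,k7),(k7,k8)],[(k6,k7),(k4,k9)],[(k1,k6),(k11,k7)],[(k8,k7),(k10,k8)],[(k1,k7),(k11,k8)]]
    [] k0
    [[k0,k2,k0,k0,k0,k0],[k0,k3,k0,k0,k0,k0],[k0,k0,k0,k2,k0,k0],[k0,k0,k0,k0,k0,k2]]
    [.contra [z1],.ref k0 k0 [(z3,[y1,z1]),(z1,[z1]),(z1,[z0,z0,z1])],.contra [z1],.contra [z3,z2,z4,y6]]),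
    .old (.lp [k6,k8,k12,k8,k6,k6] [k3,k3,k2,k2,k0,k0,k2,k2,k3,k3,k3,k3] k0 [] k24 k5
    [[(k8,k6),(k10,k6)],[(k2,k7),(k5,k9)],[(k2,k8),(k5,k10)],[(k0,k7),(k3,k8)],[(k0,k9),(k3,k10)],[(k9,k9),(k7,k10)],
    [(k6,k8),(k4,k10)],[(k9,k7),(k7,k8)],[(k6,k7),(k4,k9)],[(k1,k6),(k11,k6)],[(k8,k6),(k10,k6)],[(k1,k6),(k11,k6)]]
    [] k0
    [[k0,k2,k0,k0,k0,k0],[k0,k0,k0,k2,k0,k0],[k0,k0,k0,k0,k0,k2],[k0,k0,k0,k0,k0,k3]]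
    [.contra [z1],.contra [z1],.contra [z1],.ref k1 k0 [(z1,[y1,z1]),(z1,[z0,y1,z3])]]),
    .old (.lp [k4,k8,k12,k6,k8,k8] [k4,k4,k2,k2,k0,k0,k3,k3,k2,k2,k2,k2] k0 [] k24 k5
    [[(k8,k6),(k10,k6)],[(k2,k6),(k5,k8)],[(k2,k8),(k5,k10)],[(k0,k6),(k3,k8)],[(k0,k8),(k3,k10)],[(k7,k9),(k9,k10)],
    [(k6,k6),(k4,k9)],[(k7,k6),(k9,k7)],[(k6,k7),(k4,k10)],[(k1,k6),(k11,k8)],[(k8,k8),(k10,k8)],[(k1,k6),(k11,k8)]]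
    [] k0
    [[k0,k2,k0,k0,k0,k0],[k0,k0,k0,k2,k0,k0],[k0,k0,k0,k3,k0,k0],[k0,k0,k0,k0,k0,k2]]
    [.contra [z1],.contra [z1],.ref k2 k0 [(z1,[y1,z3])],.contra [z1]])]⟩

/-- classes `0 0 1 1 2 2`, types `B0 B1 C0 C0 C0 C2` -/
noncomputable def cU6_1146 : CertX :=
  ⟨[k8,k9,k20,k20,k36,k38],[],[[[]]],
    [.old (.lp [k2,k6,k4,k4,k2,k4] [k2,k2,k0,k0,k1,k1,k1,k1,k2,k2,k1,k1] k0 [] k12 k5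
    [[(k10,k3),(k11,k3)],[(k5,k3),(k2,k4)],[(k5,k5),(k2,k6)],[(k0,k4),(k3,k6)],[(k0,k3),(k3,k5)],[(k9,k3),(k7,k4)],
    [(k4,k4),(k6,k4)],[(k9,k3),(k7,k4)],[(k4,k3),(k6,k3)],[(k10,k3),(k11,k3)],[(k1,k3),(k8,k3)],[(k1,k3),(k8,k3)]]
    [] k0
    [[k0,k0,k0,k2,k0,k0]]
    [.contra [z1]])]⟩

/-- classes `0 0 1 1 2 2`, types `B0 B1 C0 C0 N0 N1` -/
noncomputable def cU6_1147 : CertX :=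
  ⟨[k8,k9,k20,k20,k44,k45],[(false,k0,[k0,k1,k2,k3,k4,k5])],[[[([z1,z0,z1,z0,z1,z0],z2),([z0,z3,z0,z0,z0,z0],z2),([z0,
    z0,z0,z3,z0,z0],z2)],[([z3,z3,z3,z0,z3,z0],z8),([z0,z0,z0,z3,z0,z0],z2)],[([z3,z3,z3,z0,z3,z3],z10)],[]]],
    [.old (.leafM k2 [k0,k1,k2,k3,k4,k5] [(z1,[z0,z1]),(z1,[z0,z0,z1]),(z1,[y3,y1,y1,z3])] []),
    .old (.lp [k6,k6,k12,k8,k6,k8] [k3,k3,k3,k3,k0,k0,k2,k2,k3,k3,k2,k2] k0 [] k24 k5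
    [[(k8,k6)],[(k2,k6),(k5,k9)],[(k2,k6),(k5,k9)],[(k0,k6),(k3,k6)],[(k0,k9),(k3,k9)],[(k9,k9),(k7,k10)],[(k6,k8),
    (k4,k10)],[(k9,k7),(k7,k8)],[(k6,k7),(k4,k9)],[(k1,k6)],[(k10,k8)],[(k11,k8)]]
    [] k0
    [[k0,k2,k0,k0,k0,k0],[k0,k3,k0,k0,k0,k0],[k0,k0,k0,k2,k0,k0],[k0,k0,k0,k0,k0,k2]]
    [.contra [z1],.ref k0 k0 [(z3,[y1,z1]),(z1,[z1]),(z1,[z0,z0,z1])],.contra [z1],.contra [z3,z2,z4,y6]]),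
    .old (.lp [k4,k8,k12,k8,k8,k6] [k4,k4,k2,k2,k0,k0,k2,k2,k2,k2,k3,k3] k0 [] k24 k5
    [[(k8,k6)],[(k2,k6),(k5,k8)],[(k2,k8),(k5,k10)],[(k0,k6),(k3,k8)],[(k0,k8),(k3,k10)],[(k7,k10),(k9,k10)],[(k6,k8),
    (k4,k10)],[(k7,k8),(k9,k8)],[(k6,k8),(k4,k10)],[(k1,k6)],[(k10,k6)],[(k11,k6)]]
    [] k0
    [[k0,k2,k0,k0,k0,k0],[k0,k0,k0,k2,k0,k0],[k0,k0,k0,k0,k0,k2],[k0,k0,k0,k0,k0,k3]]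
    [.contra [z1],.contra [z1],.contra [z1],.ref k1 k0 [(z1,[y1,z1]),(z1,[z0,y1,z3])]]),
    .old (.lp [k4,k8,k12,k6,k8,k8] [k4,k4,k2,k2,k0,k0,k3,k3,k2,k2,k2,k2] k0 [] k24 k5
    [[(k8,k6)],[(k2,k6),(k5,k8)],[(k2,k8),(k5,k10)],[(k0,k6),(k3,k8)],[(k0,k8),(k3,k10)],[(k7,k9),(k9,k10)],[(k6,k6),
    (k4,k9)],[(k7,k6),(k9,k7)],[(k6,k7),(k4,k10)],[(k1,k6)],[(k10,k8)],[(k11,k8)]]
    [] k0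
    [[k0,k2,k0,k0,k0,k0],[k0,k0,k0,k2,k0,k0],[k0,k0,k0,k3,k0,k0],[k0,k0,k0,k0,k0,k2]]
    [.contra [z1],.contra [z1],.ref k2 k0 [(z1,[y1,z3])],.contra [z1]])]⟩

/-- classes `0 0 1 1 2 2`, types `B0 B1 C0 C0 N0 N2` -/
noncomputable def cU6_1148 : CertX :=
  ⟨[k8,k9,k20,k20,k44,k46],[],[[[]]],
    [.old (.lp [k2,k6,k4,k4,k2,k4] [k2,k2,k0,k0,k1,k1,k1,k1,k2,k2,k1,k1] k0 [] k12 k5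
    [[(k11,k3)],[(k5,k3),(k2,k4)],[(k5,k5),(k2,k6)],[(k0,k4),(k3,k6)],[(k0,k3),(k3,k5)],[(k9,k3),(k7,k4)],[(k4,k4),
    (k6,k4)],[(k9,k3),(k7,k4)],[(k4,k3),(k6,k3)],[(k10,k3)],[(k1,k3)],[(k8,k3)]]
    [] k0
    [[k0,k0,k0,k2,k0,k0]]
    [.contra [z1]])]⟩

/-- classes `0 0 1 1 2 2`, types `B0 B1 C0 C0 S0 S0` -/
noncomputable def cU6_1149 : CertX :=
  ⟨[k8,k9,k20,k20,k32,k32],[(false,k0,[k0,k1,k2,k3,k4,k5])],[[[([z1,z0,z1,z0,z1,z0],z2),([z0,z3,z0,z0,z0,z0],z2),([z0,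
    z0,z0,z3,z0,z0],z2)],[([z3,z3,z3,z0,z3,z0],z8),([z0,z0,z0,z3,z0,z0],z2)],[([z3,z3,z3,z0,z3,z3],z10)],[]]],
    [.old (.leafM k2 [k0,k1,k2,k3,k4,k5] [(z1,[z0,z1]),(z1,[z0,z0,z1]),(z1,[y3,y1,y1,z3])] []),
    .old (.lp [k12,k6,k6,k8,k6,k8] [k0,k0,k3,k3,k3,k3,k2,k2,k3,k3,k2,k2] k0 [] k24 k5
    [[(k8,k9),(k10,k10),(k11,k10),(k1,k12)],[(k2,k9),(k5,k9)],[(k2,k6),(k5,k6)],[(k3,k6),(k0,k9)],[(k3,k6),(k0,k9)],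
    [(k9,k6),(k7,k7)],[(k4,k7),(k6,k8)],[(k9,k7),(k7,k8)],[(k4,k6),(k6,k7)],[(k8,k6),(k10,k7),(k11,k7),(k1,k9)],[(k8,
    k7),(k10,k8),(k11,k8),(k1,k10)],[(k8,k7),(k10,k8),(k11,k8),(k1,k10)]]
    [] k0
    [[k0,k2,k0,k0,k0,k0],[k0,k3,k0,k0,k0,k0],[k0,k0,k0,k2,k0,k0],[k0,k0,k0,k0,k0,k2]]
    [.contra [z1],.ref k0 k0 [(z3,[y1,z1]),(z1,[z1]),(z1,[z0,z0,z1])],.contra [z1],.contra [z3,z2,z4,y6]]),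
    .old (.lp [k12,k8,k4,k8,k8,k6] [k0,k0,k2,k2,k4,k4,k2,k2,k2,k2,k3,k3] k0 [] k24 k5
    [[(k10,k9),(k11,k9),(k8,k10),(k1,k12)],[(k5,k8),(k2,k10)],[(k5,k6),(k2,k8)],[(k3,k8),(k0,k10)],[(k3,k6),(k0,k8)],
    [(k7,k6),(k9,k6)],[(k4,k6),(k6,k8)],[(k7,k8),(k9,k8)],[(k4,k6),(k6,k8)],[(k10,k7),(k11,k7),(k8,k8),(k1,k10)],
    [(k10,k6),(k11,k6),(k8,k7),(k1,k9)],[(k10,k6),(k11,k6),(k8,k7),(k1,k9)]]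
    [] k0
    [[k0,k2,k0,k0,k0,k0],[k0,k0,k0,k2,k0,k0],[k0,k0,k0,k0,k0,k2],[k0,k0,k0,k0,k0,k3]]
    [.contra [z1],.contra [z1],.contra [z1],.ref k1 k0 [(z1,[y1,z1]),(z1,[z0,y1,z3])]]),
    .old (.lp [k12,k8,k6,k6,k6,k8] [k0,k0,k2,k2,k3,k3,k3,k3,k3,k3,k2,k2] k0 [] k24 k5
    [[(k8,k9),(k10,k10),(k11,k10),(k1,k12)],[(k5,k9),(k2,k10)],[(k5,k7),(k2,k8)],[(k3,k8),(k0,k10)],[(k3,k7),(k0,k9)],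
    [(k7,k6),(k9,k6)],[(k4,k6),(k6,k6)],[(k7,k6),(k9,k6)],[(k4,k6),(k6,k6)],[(k8,k6),(k10,k7),(k11,k7),(k1,k9)],[(k8,
    k7),(k10,k8),(k11,k8),(k1,k10)],[(k8,k7),(k10,k8),(k11,k8),(k1,k10)]]
    [] k0
    [[k0,k2,k0,k0,k0,k0],[k0,k0,k0,k2,k0,k0],[k0,k0,k0,k3,k0,k0],[k0,k0,k0,k0,k0,k2]]
    [.contra [z1],.contra [z1],.ref k2 k0 [(z1,[y1,z3])],.contra [z1]])]⟩

/-- classes `0 0 1 1 2 2`, types `B0 B1 C0 C2 C0 C2` -/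
noncomputable def cU6_1150 : CertX :=
  ⟨[k8,k9,k20,k22,k36,k38],[],[[[]]],
    [.old (.lp [k2,k4,k2,k2,k2,k2] [k1,k1,k0,k0,k1,k1,k1,k1,k1,k1,k1,k1] k0 [] k8 k5
    [[(k10,k2),(k11,k2)],[(k5,k2),(k2,k3)],[(k5,k3),(k2,k4)],[(k0,k3),(k3,k4)],[(k0,k2),(k3,k3)],[(k6,k2),(k7,k2)],
    [(k4,k2),(k9,k2)],[(k4,k2),(k9,k2)],[(k6,k2),(k7,k2)],[(k10,k2),(k11,k2)],[(k1,k2),(k8,k2)],[(k1,k2),(k8,k2)]]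
    [] k0
    []
    [])]⟩

/-- classes `0 0 1 1 2 2`, types `B0 B1 C0 C2 N0 N1` -/
noncomputable def cU6_1151 : CertX :=
  ⟨[k8,k9,k20,k22,k44,k45],[],[[[]]],
    [.old (.lp [k6,k6,k0,k6,k0,k4] [k0,k0,k0,k0,k3,k3,k0,k0,k3,k3,k1,k1] k0 [] k12 k5
    [[(k8,k3)],[(k5,k3),(k2,k6)],[(k5,k3),(k2,k6)],[(k0,k6),(k3,k6)],[(k0,k3),(k3,k3)],[(k6,k3),(k7,k3)],[(k4,k3),(k9,
    k3)],[(k4,k3),(k9,k3)],[(k6,k3),(k7,k3)],[(k1,k3)],[(k10,k4)],[(k11,k4)]]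
    [] k0
    [[k0,k0,k0,k0,k0,k2]]
    [.contra [z1]])]⟩

/-- classes `0 0 1 1 2 2`, types `B0 B1 C0 C2 N0 N2` -/
noncomputable def cU6_1152 : CertX :=
  ⟨[k8,k9,k20,k22,k44,k46],[],[[[]]],
    [.old (.lp [k2,k4,k2,k2,k2,k2] [k1,k1,k0,k0,k1,k1,k1,k1,k1,k1,k1,k1] k0 [] k8 k5
    [[(k11,k2)],[(k5,k2),(k2,k3)],[(k5,k3),(k2,k4)],[(k0,k3),(k3,k4)],[(k0,k2),(k3,k3)],[(k6,k2),(k7,k2)],[(k4,k2),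
    (k9,k2)],[(k4,k2),(k9,k2)],[(k6,k2),(k7,k2)],[(k10,k2)],[(k1,k2)],[(k8,k2)]]
    [] k0
    []
    [])]⟩

/-- classes `0 0 1 1 2 2`, types `B0 B1 C0 C2 S0 S0` -/
noncomputable def cU6_1153 : CertX :=
  ⟨[k8,k9,k20,k22,k32,k32],[],[[[]]],
    [.old (.lp [k12,k16,k12,k12,k18,k24] [k6,k6,k4,k4,k6,k6,k6,k6,k3,k3,k0,k0] k0 [] k48 k5
    [[(k1,k12),(k8,k15),(k10,k18),(k11,k18)],[(k5,k12),(k2,k14)],[(k5,k14),(k2,k16)],[(k0,k14),(k3,k16)],[(k0,k12),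
    (k3,k14)],[(k6,k12),(k7,k12)],[(k4,k12),(k9,k15)],[(k4,k12),(k9,k15)],[(k6,k15),(k7,k15)],[(k1,k15),(k8,k18),(k10,
    k21),(k11,k21)],[(k1,k18),(k8,k21),(k10,k24),(k11,k24)],[(k1,k18),(k8,k21),(k10,k24),(k11,k24)]]
    [] k0
    [[k0,k2,k0,k0,k0,k0]]
    [.contra [z1]])]⟩

/-- the certificates of this file -/
noncomputable def lU6_25 : List CertX :=
  [cU6_1053, cU6_1054, cU6_1055, cU6_1056, cU6_1057, cU6_1058, cU6_1059, cU6_1060, cU6_1061, cU6_1062,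
      cU6_1063, cU6_1064, cU6_1065, cU6_1066, cU6_1067, cU6_1068, cU6_1069, cU6_1070, cU6_1071, cU6_1072,
      cU6_1073, cU6_1074, cU6_1075, cU6_1076, cU6_1077, cU6_1078, cU6_1079, cU6_1080, cU6_1081, cU6_1082,
      cU6_1083, cU6_1084, cU6_1085, cU6_1086, cU6_1087, cU6_1088, cU6_1089, cU6_1090, cU6_1091, cU6_1092,
      cU6_1093, cU6_1094, cU6_1095, cU6_1096, cU6_1097, cU6_1098, cU6_1099, cU6_1100, cU6_1101, cU6_1102,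
      cU6_1103, cU6_1104, cU6_1105, cU6_1106, cU6_1107, cU6_1108, cU6_1109, cU6_1110, cU6_1111, cU6_1112,
      cU6_1113, cU6_1114, cU6_1115, cU6_1116, cU6_1117, cU6_1118, cU6_1119, cU6_1120, cU6_1121, cU6_1122,
      cU6_1123, cU6_1124, cU6_1125, cU6_1126, cU6_1127, cU6_1128, cU6_1129, cU6_1130, cU6_1131, cU6_1132,
      cU6_1133, cU6_1134, cU6_1135, cU6_1136, cU6_1137, cU6_1138, cU6_1139, cU6_1140, cU6_1141, cU6_1142,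
      cU6_1143, cU6_1144, cU6_1145, cU6_1146, cU6_1147, cU6_1148, cU6_1149, cU6_1150, cU6_1151, cU6_1152,
      cU6_1153]

theorem gU6_25 : allF (chkE 6 ttU6) lU6_25 = true := by
  decide +kernel

end Pool.Agent.Lib_MP_fa6e45
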