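import Pool.Agent.Lib_MP_fa6e45.CXT
import Pool.Agent.Lib_MP_fa6e45.HK

/-!
MP_fa6e45_co, stage 7: certificates (generated by a program).
-/

namespace Pool.Agent.Lib_MP_fa6e45

/-- classes `0 0 1 1 2 2`, types `B0 B1 N0 N1 N0 N1` -/
noncomputable def cU6_1154 : CertX :=
  ⟨[k8,k9,k28,k29,k44,k45],[(false,k0,[k0,k1,k2,k3,k4,k5])],[[[([z1,z0,z1,z0,z1,z0],z2),([z0,z3,z0,z0,z0,z0],z2),([z0,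
    z0,z0,z3,z0,z0],z2)],[([z3,z3,z3,z0,z3,z0],z8),([z0,z0,z0,z3,z0,z0],z2)],[([z3,z3,z3,z0,z3,z3],z10)],[]]],
    [.old (.leafM k2 [k0,k1,k2,k3,k4,k5] [(z1,[z0,z1]),(z1,[z0,z0,z1]),(z1,[y3,y1,y1,z3])] []),
    .old (.lp [k6,k6,k12,k8,k6,k8] [k3,k3,k3,k3,k0,k0,k2,k2,k3,k3,k2,k2] k0 [] k24 k5
    [[(k8,k6)],[(k2,k6),(k5,k9)],[(k2,k6),(k5,k9)],[(k0,k6),(k3,k6)],[(k0,k9),(k3,k9)],[(k9,k9)],[(k6,k8)],[(k7,k8)],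
    [(k4,k9)],[(k1,k6)],[(k10,k8)],[(k11,k8)]]
    [] k0
    [[k0,k2,k0,k0,k0,k0],[k0,k3,k0,k0,k0,k0],[k0,k0,k0,k2,k0,k0],[k0,k0,k0,k0,k0,k2]]
    [.contra [z1],.ref k0 k0 [(z3,[y1,z1]),(z1,[z1]),(z1,[z0,z0,z1])],.contra [z1],.contra [z3,z2,z4,y6]]),
    .old (.lp [k4,k8,k12,k8,k8,k6] [k4,k4,k2,k2,k0,k0,k2,k2,k2,k2,k3,k3] k0 [] k24 k5
    [[(k8,k6)],[(k2,k6),(k5,k8)],[(k2,k8),(k5,k10)],[(k0,k6),(k3,k8)],[(k0,k8),(k3,k10)],[(k9,k10)],[(k6,k8)],[(k7,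
    k8)],[(k4,k10)],[(k1,k6)],[(k10,k6)],[(k11,k6)]]
    [] k0
    [[k0,k2,k0,k0,k0,k0],[k0,k0,k0,k2,k0,k0],[k0,k0,k0,k0,k0,k2],[k0,k0,k0,k0,k0,k3]]
    [.contra [z1],.contra [z1],.contra [z1],.ref k1 k0 [(z1,[y1,z1]),(z1,[z0,y1,z3])]]),
    .old (.lp [k4,k8,k12,k6,k8,k8] [k4,k4,k2,k2,k0,k0,k3,k3,k2,k2,k2,k2] k0 [] k24 k5
    [[(k8,k6)],[(k2,k6),(k5,k8)],[(k2,k8),(k5,k10)],[(k0,k6),(k3,k8)],[(k0,k8),(k3,k10)],[(k9,k10)],[(k6,k6)],[(k7,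
    k6)],[(k4,k10)],[(k1,k6)],[(k10,k8)],[(k11,k8)]]
    [] k0
    [[k0,k2,k0,k0,k0,k0],[k0,k0,k0,k2,k0,k0],[k0,k0,k0,k3,k0,k0],[k0,k0,k0,k0,k0,k2]]
    [.contra [z1],.contra [z1],.ref k2 k0 [(z1,[y1,z3])],.contra [z1]])]⟩

/-- classes `0 0 1 1 2 2`, types `B0 B1 N0 N1 N0 N2` -/
noncomputable def cU6_1155 : CertX :=
  ⟨[k8,k9,k28,k29,k44,k46],[],[[[]]],
    [.old (.lp [k0,k6,k6,k4,k0,k6] [k3,k3,k0,k0,k0,k0,k1,k1,k3,k3,k0,k0] k0 [] k12 k5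
    [[(k11,k3)],[(k2,k3),(k5,k3)],[(k2,k6),(k5,k6)],[(k0,k3),(k3,k6)],[(k0,k3),(k3,k6)],[(k9,k3)],[(k6,k4)],[(k7,k4)],
    [(k4,k3)],[(k10,k3)],[(k1,k3)],[(k8,k3)]]
    [] k0
    [[k0,k0,k0,k2,k0,k0]]
    [.contra [z1]])]⟩

/-- classes `0 0 1 1 2 2`, types `B0 B1 N0 N1 S0 S0` -/
noncomputable def cU6_1156 : CertX :=
  ⟨[k8,k9,k28,k29,k32,k32],[(false,k0,[k0,k1,k2,k3,k4,k5])],[[[([z1,z0,z1,z0,z1,z0],z2),([z0,z3,z0,z0,z0,z0],z2),([z0,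
    z0,z0,z3,z0,z0],z2)],[([z3,z3,z3,z0,z3,z0],z8),([z0,z0,z0,z3,z0,z0],z2)],[([z3,z3,z3,z0,z3,z3],z10)],[]]],
    [.old (.leafM k2 [k0,k1,k2,k3,k4,k5] [(z1,[z0,z1]),(z1,[z0,z0,z1]),(z1,[y3,y1,y1,z3])] []),
    .old (.lp [k12,k6,k6,k8,k6,k8] [k0,k0,k3,k3,k3,k3,k2,k2,k3,k3,k2,k2] k0 [] k24 k5
    [[(k8,k9),(k10,k10),(k11,k10),(k1,k12)],[(k2,k9),(k5,k9)],[(k2,k6),(k5,k6)],[(k3,k6),(k0,k9)],[(k3,k6),(k0,k9)],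
    [(k9,k6)],[(k6,k8)],[(k7,k8)],[(k4,k6)],[(k8,k6),(k10,k7),(k11,k7),(k1,k9)],[(k8,k7),(k10,k8),(k11,k8),(k1,k10)],
    [(k8,k7),(k10,k8),(k11,k8),(k1,k10)]]
    [] k0
    [[k0,k2,k0,k0,k0,k0],[k0,k3,k0,k0,k0,k0],[k0,k0,k0,k2,k0,k0],[k0,k0,k0,k0,k0,k2]]
    [.contra [z1],.ref k0 k0 [(z3,[y1,z1]),(z1,[z1]),(z1,[z0,z0,z1])],.contra [z1],.contra [z3,z2,z4,y6]]),
    .old (.lp [k12,k8,k4,k8,k8,k6] [k0,k0,k2,k2,k4,k4,k2,k2,k2,k2,k3,k3] k0 [] k24 k5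
    [[(k10,k9),(k11,k9),(k8,k10),(k1,k12)],[(k5,k8),(k2,k10)],[(k5,k6),(k2,k8)],[(k3,k8),(k0,k10)],[(k3,k6),(k0,k8)],
    [(k9,k6)],[(k6,k8)],[(k7,k8)],[(k4,k6)],[(k10,k7),(k11,k7),(k8,k8),(k1,k10)],[(k10,k6),(k11,k6),(k8,k7),(k1,k9)],
    [(k10,k6),(k11,k6),(k8,k7),(k1,k9)]]
    [] k0
    [[k0,k2,k0,k0,k0,k0],[k0,k0,k0,k2,k0,k0],[k0,k0,k0,k0,k0,k2],[k0,k0,k0,k0,k0,k3]]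
    [.contra [z1],.contra [z1],.contra [z1],.ref k1 k0 [(z1,[y1,z1]),(z1,[z0,y1,z3])]]),
    .old (.lp [k12,k8,k4,k6,k8,k8] [k0,k0,k2,k2,k4,k4,k3,k3,k2,k2,k2,k2] k0 [] k24 k5
    [[(k8,k10),(k10,k10),(k11,k10),(k1,k12)],[(k5,k8),(k2,k10)],[(k5,k6),(k2,k8)],[(k3,k8),(k0,k10)],[(k3,k6),(k0,
    k8)],[(k9,k6)],[(k6,k6)],[(k7,k6)],[(k4,k6)],[(k8,k8),(k10,k8),(k11,k8),(k1,k10)],[(k8,k8),(k10,k8),(k11,k8),(k1,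
    k10)],[(k8,k8),(k10,k8),(k11,k8),(k1,k10)]]
    [] k0
    [[k0,k2,k0,k0,k0,k0],[k0,k0,k0,k2,k0,k0],[k0,k0,k0,k3,k0,k0],[k0,k0,k0,k0,k0,k2]]
    [.contra [z1],.contra [z1],.ref k2 k0 [(z1,[y1,z3])],.contra [z1]])]⟩

/-- classes `0 0 1 1 2 2`, types `B0 B1 N0 N2 N0 N2` -/
noncomputable def cU6_1157 : CertX :=
  ⟨[k8,k9,k28,k30,k44,k46],[],[[[]]],
    [.old (.lp [k2,k4,k2,k2,k2,k2] [k1,k1,k0,k0,k1,k1,k1,k1,k1,k1,k1,k1] k0 [] k8 k5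
    [[(k11,k2)],[(k5,k2),(k2,k3)],[(k5,k3),(k2,k4)],[(k0,k3),(k3,k4)],[(k0,k2),(k3,k3)],[(k6,k2)],[(k9,k2)],[(k4,k2)],
    [(k7,k2)],[(k10,k2)],[(k1,k2)],[(k8,k2)]]
    [] k0
    []
    [])]⟩

/-- classes `0 0 1 1 2 2`, types `B0 B1 N0 N2 S0 S0` -/
noncomputable def cU6_1158 : CertX :=
  ⟨[k8,k9,k28,k30,k32,k32],[],[[[]]],
    [.old (.lp [k6,k8,k6,k6,k6,k12] [k3,k3,k2,k2,k3,k3,k3,k3,k3,k3,k0,k0] k0 [] k24 k5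
    [[(k1,k6),(k8,k6),(k10,k9),(k11,k9)],[(k5,k6),(k2,k7)],[(k5,k7),(k2,k8)],[(k0,k7),(k3,k8)],[(k0,k6),(k3,k7)],[(k6,
    k6)],[(k9,k6)],[(k4,k6)],[(k7,k6)],[(k1,k6),(k8,k6),(k10,k9),(k11,k9)],[(k1,k9),(k8,k9),(k10,k12),(k11,k12)],[(k1,
    k9),(k8,k9),(k10,k12),(k11,k12)]]
    [] k0
    [[k0,k2,k0,k0,k0,k0]]
    [.contra [z1]])]⟩

/-- classes `0 0 1 1 2 2`, types `B0 B1 S0 S0 S0 S0` -/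
noncomputable def cU6_1159 : CertX :=
  ⟨[k8,k9,k16,k16,k32,k32],[(false,k0,[k0,k1,k2,k3,k4,k5])],[[[([z1,z0,z1,z0,z1,z0],z2),([z0,z3,z0,z0,z0,z0],z2),([z0,
    z0,z0,z3,z0,z0],z2)],[([z3,z0,z3,z0,z3,z3],z8),([z0,z3,z0,z0,z0,z0],z2)],[([z3,z3,z3,z0,z3,z3],z10)],[]]],
    [.old (.leafM k2 [k0,k1,k2,k3,k4,k5] [(z1,[z0,z1]),(z1,[z0,z0,z1]),(z1,[y3,y1,y1,z3])] []),
    .old (.lp [k12,k16,k12,k16,k24,k14] [k6,k6,k4,k4,k6,k6,k4,k4,k0,k0,k5,k5] k0 [[],[],[],[],[],[],[],[],[k0,k0,k0,k0,k0,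
    k0,k0,k0,k0,k0,k6],[],[],[k0,k0,k0,k0,k0,k0,k0,k0,k0,k6]] k48 k5
    [[(k1,k12),(k8,k12),(k10,k13),(k11,k13)],[(k5,k12),(k2,k14)],[(k5,k14),(k2,k16)],[(k0,k14),(k3,k16)],[(k0,k12),
    (k3,k14)],[(k4,k12),(k6,k14),(k7,k14),(k9,k18)],[(k4,k14),(k6,k16),(k7,k16),(k9,k20)],[(k4,k14),(k6,k16),(k7,k16),
    (k9,k20)],[(k4,k18),(k6,k20),(k7,k20),(k9,k24)],[(k1,k12),(k10,k19),(k11,k19),(k8,k24)],[(k1,k13),(k11,k14),(k8,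
    k19),(k10,k20)],[(k1,k13),(k10,k14),(k8,k19),(k11,k20)]]
    [] k0
    [[k1,k0,k1,k0,k1,k0],[k0,k2,k0,k0,k0,k0],[k0,k0,k0,k2,k0,k0],[k0,k0,k0,k0,k0,k2]]
    [.ref k0 k0 [(z1,[z1]),(z1,[z0,z0,z1]),(z1,[z0,y1,y1,z3])],.contra [z1],.contra [z3,z2,z4,y6],.contra [z1]]),
    .old (.lp [k6,k6,k6,k8,k12,k8] [k3,k3,k3,k3,k3,k3,k2,k2,k0,k0,k2,k2] k0 [] k24 k5
    [[(k1,k6),(k10,k7),(k11,k7),(k8,k9)],[(k2,k6),(k5,k6)],[(k2,k6),(k5,k6)],[(k0,k6),(k3,k6)],[(k0,k6),(k3,k6)],[(k4,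
    k6),(k6,k7),(k7,k7),(k9,k9)],[(k4,k7),(k6,k8),(k7,k8),(k9,k10)],[(k4,k7),(k6,k8),(k7,k8),(k9,k10)],[(k4,k9),(k6,
    k10),(k7,k10),(k9,k12)],[(k1,k9),(k10,k10),(k11,k10),(k8,k12)],[(k1,k7),(k10,k8),(k11,k8),(k8,k10)],[(k1,k7),(k10,
    k8),(k11,k8),(k8,k10)]]
    [] k0
    [[k0,k2,k0,k0,k0,k0],[k0,k3,k0,k0,k0,k0],[k0,k0,k0,k2,k0,k0],[k0,k0,k0,k0,k0,k2]]
    [.contra [z1],.ref k1 k0 [(z1,[y1,z1]),(z1,[z1])],.contra [z1],.contra [z1]]),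
    .old (.lp [k6,k8,k6,k6,k12,k8] [k3,k3,k2,k2,k3,k3,k3,k3,k0,k0,k2,k2] k0 [] k24 k5
    [[(k1,k6),(k10,k7),(k11,k7),(k8,k9)],[(k5,k6),(k2,k7)],[(k5,k7),(k2,k8)],[(k0,k7),(k3,k8)],[(k0,k6),(k3,k7)],[(k4,
    k6),(k6,k6),(k7,k6),(k9,k9)],[(k4,k6),(k6,k6),(k7,k6),(k9,k9)],[(k4,k6),(k6,k6),(k7,k6),(k9,k9)],[(k4,k9),(k6,k9),
    (k7,k9),(k9,k12)],[(k1,k9),(k10,k10),(k11,k10),(k8,k12)],[(k1,k7),(k10,k8),(k11,k8),(k8,k10)],[(k1,k7),(k10,k8),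
    (k11,k8),(k8,k10)]]
    [] k0
    [[k0,k2,k0,k0,k0,k0],[k0,k0,k0,k2,k0,k0],[k0,k0,k0,k3,k0,k0],[k0,k0,k0,k0,k0,k2]]
    [.contra [z1],.contra [z1],.ref k2 k0 [(z1,[y1,z3])],.contra [z1]])]⟩

/-- classes `0 0 1 1 2 2`, types `C0 C0 C0 C0 C0 C0` -/
noncomputable def cU6_1160 : CertX :=
  ⟨[k4,k4,k20,k20,k36,k36],[(false,k0,[k0,k1,k2,k3,k4,k5]),(false,k4,[k4,k5,k0,k1,k2,k3])],[[[([z1,z0,z1,z0,z1,z0],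
    z2),([z0,z3,z0,z0,z0,z0],z2),([z0,z0,z0,z3,z0,z0],z2)],[([z3,z0,z3,z0,z3,z3],z8),([z0,z3,z0,z0,z0,z0],z2)],[([z3,
    z0,z3,z3,z3,z3],z10)],[]]],
    [.old (.leafM k2 [k0,k1,k2,k3,k4,k5] [(z1,[z0,z1]),(z1,[z0,z0,z1]),(z1,[y3,y1,y1,z3])] []),
    .old (.lp [k6,k8,k6,k12,k6,k8] [k3,k3,k2,k2,k3,k3,k0,k0,k3,k3,k2,k2] k0 [] k24 k5
    [[(k8,k6),(k10,k7)],[(k5,k6),(k3,k7)],[(k0,k7),(k2,k8)],[(k5,k7),(k3,k8)],[(k0,k6),(k2,k7)],[(k9,k6),(k7,k9)],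
    [(k4,k9),(k6,k12)],[(k9,k9),(k7,k12)],[(k4,k6),(k6,k9)],[(k1,k6),(k11,k7)],[(k8,k7),(k10,k8)],[(k1,k7),(k11,k8)]]
    [] k0
    [[k1,k0,k1,k0,k1,k0],[k0,k2,k0,k0,k0,k0],[k0,k0,k0,k0,k0,k2]]
    [.ref k0 k0 [(z1,[z1]),(z1,[z0,z0,z1]),(z1,[z0,y1,y1,z3])],.contra [z1],.contra [z1]]),
    .old (.lp [k12,k8,k6,k6,k6,k8] [k0,k0,k2,k2,k3,k3,k3,k3,k3,k3,k2,k2] k0 [] k24 k5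
    [[(k8,k9),(k10,k10)],[(k5,k9),(k3,k10)],[(k2,k8),(k0,k10)],[(k5,k7),(k3,k8)],[(k2,k7),(k0,k9)],[(k7,k6),(k9,k6)],
    [(k4,k6),(k6,k6)],[(k7,k6),(k9,k6)],[(k4,k6),(k6,k6)],[(k11,k7),(k1,k9)],[(k8,k7),(k10,k8)],[(k11,k8),(k1,k10)]]
    [] k0
    [[k0,k2,k0,k0,k0,k0],[k0,k0,k0,k2,k0,k0],[k0,k0,k0,k3,k0,k0],[k0,k0,k0,k0,k0,k2]]
    [.contra [z1],.contra [z1],.ref k1 k0 [(z1,[y1,z1]),(z1,[z0,y1,z3])],.contra [z1]]),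
    .old (.lp [k12,k8,k6,k6,k6,k8] [k0,k0,k2,k2,k3,k3,k3,k3,k3,k3,k2,k2] k0 [] k24 k5
    [[(k8,k9),(k10,k10)],[(k5,k9),(k3,k10)],[(k2,k8),(k0,k10)],[(k5,k7),(k3,k8)],[(k2,k7),(k0,k9)],[(k7,k6),(k9,k6)],
    [(k4,k6),(k6,k6)],[(k7,k6),(k9,k6)],[(k4,k6),(k6,k6)],[(k11,k7),(k1,k9)],[(k8,k7),(k10,k8)],[(k11,k8),(k1,k10)]]
    [] k0
    [[k0,k2,k0,k0,k0,k0],[k0,k0,k0,k2,k0,k0],[k0,k0,k0,k3,k0,k0],[k0,k0,k0,k0,k0,k2]]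
    [.contra [z1],.contra [z1],.ref k2 k1 [(z1,[y1,z3])],.contra [z1]])]⟩

/-- classes `0 0 1 1 2 2`, types `C0 C0 C0 C0 C0 C2` -/
noncomputable def cU6_1161 : CertX :=
  ⟨[k4,k4,k20,k20,k36,k38],[],[[[]]],
    [.old (.lp [k4,k4,k2,k6,k4,k2] [k1,k1,k1,k1,k2,k2,k0,k0,k1,k1,k2,k2] k0 [] k12 k5
    [[(k10,k3),(k11,k3)],[(k5,k3),(k3,k4)],[(k0,k4),(k2,k4)],[(k5,k3),(k3,k4)],[(k0,k3),(k2,k3)],[(k9,k3),(k7,k4)],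
    [(k4,k4),(k6,k6)],[(k9,k5),(k7,k6)],[(k4,k3),(k6,k5)],[(k10,k3),(k11,k3)],[(k1,k3),(k8,k3)],[(k1,k3),(k8,k3)]]
    [] k0
    [[k0,k2,k0,k0,k0,k0]]
    [.contra [z1]])]⟩

/-- classes `0 0 1 1 2 2`, types `C0 C0 C0 C0 N0 N1` -/
noncomputable def cU6_1162 : CertX :=
  ⟨[k4,k4,k20,k20,k44,k45],[(false,k0,[k0,k1,k2,k3,k4,k5]),(true,k4,[k4,k3,k2,k1,k0,k5])],[[[([z1,z0,z1,z0,z1,z0],z2),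
    ([z0,z3,z0,z0,z0,z0],z2),([z0,z0,z0,z3,z0,z0],z2)],[([z3,z0,z3,z0,z3,z3],z8),([z0,z3,z0,z0,z0,z0],z2)],[([z3,z0,
    z3,z3,z3,z3],z10)],[]]],
    [.old (.leafM k2 [k0,k1,k2,k3,k4,k5] [(z1,[z0,z1]),(z1,[z0,z0,z1]),(z1,[y3,y1,y1,z3])] []),
    .old (.lp [k6,k8,k6,k12,k6,k8] [k3,k3,k2,k2,k3,k3,k0,k0,k3,k3,k2,k2] k0 [] k24 k5
    [[(k8,k6)],[(k5,k6),(k3,k7)],[(k0,k7),(k2,k8)],[(k5,k7),(k3,k8)],[(k0,k6),(k2,k7)],[(k9,k6),(k7,k9)],[(k4,k9),(k6,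
    k12)],[(k9,k9),(k7,k12)],[(k4,k6),(k6,k9)],[(k1,k6)],[(k10,k8)],[(k11,k8)]]
    [] k0
    [[k1,k0,k1,k0,k1,k0],[k0,k2,k0,k0,k0,k0],[k0,k0,k0,k0,k0,k2]]
    [.ref k0 k0 [(z1,[z1]),(z1,[z0,z0,z1]),(z1,[z0,y1,y1,z3])],.contra [z1],.contra [z1]]),
    .old (.lp [k12,k8,k6,k6,k6,k8] [k0,k0,k2,k2,k3,k3,k3,k3,k3,k3,k2,k2] k0 [] k24 k5
    [[(k8,k9)],[(k5,k9),(k3,k10)],[(k2,k8),(k0,k10)],[(k5,k7),(k3,k8)],[(k2,k7),(k0,k9)],[(k7,k6),(k9,k6)],[(k4,k6),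
    (k6,k6)],[(k7,k6),(k9,k6)],[(k4,k6),(k6,k6)],[(k1,k9)],[(k10,k8)],[(k11,k8)]]
    [] k0
    [[k0,k2,k0,k0,k0,k0],[k0,k0,k0,k2,k0,k0],[k0,k0,k0,k3,k0,k0],[k0,k0,k0,k0,k0,k2]]
    [.contra [z1],.contra [z1],.ref k1 k0 [(z1,[y1,z1]),(z1,[z0,y1,z3])],.contra [z1]]),
    .old (.lp [k12,k8,k6,k6,k6,k8] [k0,k0,k2,k2,k3,k3,k3,k3,k3,k3,k2,k2] k0 [] k24 k5
    [[(k8,k9)],[(k5,k9),(k3,k10)],[(k2,k8),(k0,k10)],[(k5,k7),(k3,k8)],[(k2,k7),(k0,k9)],[(k7,k6),(k9,k6)],[(k4,k6),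
    (k6,k6)],[(k7,k6),(k9,k6)],[(k4,k6),(k6,k6)],[(k1,k9)],[(k10,k8)],[(k11,k8)]]
    [] k0
    [[k0,k2,k0,k0,k0,k0],[k0,k0,k0,k2,k0,k0],[k0,k0,k0,k3,k0,k0],[k0,k0,k0,k0,k0,k2]]
    [.contra [z1],.contra [z1],.ref k2 k1 [(z1,[y1,z3])],.contra [z1]])]⟩

/-- classes `0 0 1 1 2 2`, types `C0 C0 C0 C0 N0 N2` -/
noncomputable def cU6_1163 : CertX :=
  ⟨[k4,k4,k20,k20,k44,k46],[],[[[]]],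
    [.old (.lp [k4,k4,k2,k6,k4,k2] [k1,k1,k1,k1,k2,k2,k0,k0,k1,k1,k2,k2] k0 [] k12 k5
    [[(k11,k3)],[(k5,k3),(k3,k4)],[(k0,k4),(k2,k4)],[(k5,k3),(k3,k4)],[(k0,k3),(k2,k3)],[(k9,k3),(k7,k4)],[(k4,k4),
    (k6,k6)],[(k9,k5),(k7,k6)],[(k4,k3),(k6,k5)],[(k10,k3)],[(k1,k3)],[(k8,k3)]]
    [] k0
    [[k0,k2,k0,k0,k0,k0]]
    [.contra [z1]])]⟩

/-- classes `0 0 1 1 2 2`, types `C0 C0 C0 C0 S0 S0` -/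
noncomputable def cU6_1164 : CertX :=
  ⟨[k4,k4,k20,k20,k32,k32],[(false,k0,[k0,k1,k2,k3,k4,k5]),(true,k4,[k4,k3,k2,k1,k0,k5])],[[[([z1,z0,z1,z0,z1,z0],z2),
    ([z0,z3,z0,z0,z0,z0],z2),([z0,z0,z0,z3,z0,z0],z2)],[([z3,z0,z3,z0,z3,z3],z8),([z0,z3,z0,z0,z0,z0],z2)],[([z3,z0,
    z3,z3,z3,z3],z10)],[]]],
    [.old (.leafM k2 [k0,k1,k2,k3,k4,k5] [(z1,[z0,z1]),(z1,[z0,z0,z1]),(z1,[y3,y1,y1,z3])] []),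
    .old (.lp [k12,k8,k4,k8,k8,k6] [k0,k0,k2,k2,k4,k4,k2,k2,k2,k2,k3,k3] k0 [] k24 k5
    [[(k10,k9),(k11,k9),(k8,k10),(k1,k12)],[(k5,k8),(k3,k10)],[(k2,k8),(k0,k10)],[(k5,k6),(k3,k8)],[(k2,k6),(k0,k8)],
    [(k7,k6),(k9,k6)],[(k4,k6),(k6,k8)],[(k7,k8),(k9,k8)],[(k4,k6),(k6,k8)],[(k10,k7),(k11,k7),(k8,k8),(k1,k10)],
    [(k10,k6),(k11,k6),(k8,k7),(k1,k9)],[(k10,k6),(k11,k6),(k8,k7),(k1,k9)]]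
    [] k0
    [[k0,k2,k0,k0,k0,k0],[k0,k0,k0,k2,k0,k0],[k0,k0,k0,k0,k0,k2],[k0,k0,k0,k0,k0,k3]]
    [.contra [z1],.contra [z3,z2,z4,y6],.contra [z1],.ref k0 k0 [(z3,[y1,z1]),(z1,[z0,z0,z1]),(z1,[z0,y1,y1,z3])]]),
    .old (.lp [k12,k8,k6,k6,k6,k8] [k0,k0,k2,k2,k3,k3,k3,k3,k3,k3,k2,k2] k0 [] k24 k5
    [[(k8,k9),(k10,k10),(k11,k10),(k1,k12)],[(k5,k9),(k3,k10)],[(k2,k8),(k0,k10)],[(k5,k7),(k3,k8)],[(k2,k7),(k0,k9)],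
    [(k7,k6),(k9,k6)],[(k4,k6),(k6,k6)],[(k7,k6),(k9,k6)],[(k4,k6),(k6,k6)],[(k8,k6),(k10,k7),(k11,k7),(k1,k9)],[(k8,
    k7),(k10,k8),(k11,k8),(k1,k10)],[(k8,k7),(k10,k8),(k11,k8),(k1,k10)]]
    [] k0
    [[k0,k2,k0,k0,k0,k0],[k0,k0,k0,k2,k0,k0],[k0,k0,k0,k3,k0,k0],[k0,k0,k0,k0,k0,k2]]
    [.contra [z1],.contra [z1],.ref k1 k0 [(z1,[y1,z1]),(z1,[z0,y1,z3])],.contra [z1]]),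
    .old (.lp [k12,k8,k6,k6,k6,k8] [k0,k0,k2,k2,k3,k3,k3,k3,k3,k3,k2,k2] k0 [] k24 k5
    [[(k8,k9),(k10,k10),(k11,k10),(k1,k12)],[(k5,k9),(k3,k10)],[(k2,k8),(k0,k10)],[(k5,k7),(k3,k8)],[(k2,k7),(k0,k9)],
    [(k7,k6),(k9,k6)],[(k4,k6),(k6,k6)],[(k7,k6),(k9,k6)],[(k4,k6),(k6,k6)],[(k8,k6),(k10,k7),(k11,k7),(k1,k9)],[(k8,
    k7),(k10,k8),(k11,k8),(k1,k10)],[(k8,k7),(k10,k8),(k11,k8),(k1,k10)]]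
    [] k0
    [[k0,k2,k0,k0,k0,k0],[k0,k0,k0,k2,k0,k0],[k0,k0,k0,k3,k0,k0],[k0,k0,k0,k0,k0,k2]]
    [.contra [z1],.contra [z1],.ref k2 k1 [(z1,[y1,z3])],.contra [z1]])]⟩

/-- classes `0 0 1 1 2 2`, types `C0 C0 C0 C2 C0 C2` -/
noncomputable def cU6_1165 : CertX :=
  ⟨[k4,k4,k20,k22,k36,k38],[],[[[]]],
    [.old (.lp [k2,k4,k2,k2,k2,k2] [k1,k1,k0,k0,k1,k1,k1,k1,k1,k1,k1,k1] k0 [] k8 k5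
    [[(k10,k2),(k11,k2)],[(k5,k2),(k3,k3)],[(k0,k3),(k2,k4)],[(k5,k3),(k3,k4)],[(k0,k2),(k2,k3)],[(k6,k2),(k7,k2)],
    [(k4,k2),(k9,k2)],[(k4,k2),(k9,k2)],[(k6,k2),(k7,k2)],[(k10,k2),(k11,k2)],[(k1,k2),(k8,k2)],[(k1,k2),(k8,k2)]]
    [] k0
    []
    [])]⟩

/-- classes `0 0 1 1 2 2`, types `C0 C0 C0 C2 N0 N1` -/
noncomputable def cU6_1166 : CertX :=
  ⟨[k4,k4,k20,k22,k44,k45],[],[[[]]],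
    [.old (.lp [k4,k4,k2,k4,k2,k6] [k1,k1,k1,k1,k2,k2,k1,k1,k2,k2,k0,k0] k0 [] k12 k5
    [[(k8,k3)],[(k5,k3),(k3,k4)],[(k0,k4),(k2,k4)],[(k5,k3),(k3,k4)],[(k0,k3),(k2,k3)],[(k6,k3),(k7,k3)],[(k4,k3),(k9,
    k3)],[(k4,k3),(k9,k3)],[(k6,k3),(k7,k3)],[(k1,k3)],[(k10,k6)],[(k11,k6)]]
    [] k0
    [[k0,k2,k0,k0,k0,k0]]
    [.contra [z1]])]⟩

/-- classes `0 0 1 1 2 2`, types `C0 C0 C0 C2 N0 N2` -/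
noncomputable def cU6_1167 : CertX :=
  ⟨[k4,k4,k20,k22,k44,k46],[],[[[]]],
    [.old (.lp [k2,k4,k2,k2,k2,k2] [k1,k1,k0,k0,k1,k1,k1,k1,k1,k1,k1,k1] k0 [] k8 k5
    [[(k11,k2)],[(k5,k2),(k3,k3)],[(k0,k3),(k2,k4)],[(k5,k3),(k3,k4)],[(k0,k2),(k2,k3)],[(k6,k2),(k7,k2)],[(k4,k2),
    (k9,k2)],[(k4,k2),(k9,k2)],[(k6,k2),(k7,k2)],[(k10,k2)],[(k1,k2)],[(k8,k2)]]
    [] k0
    []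
    [])]⟩

/-- classes `0 0 1 1 2 2`, types `C0 C0 C0 C2 S0 S0` -/
noncomputable def cU6_1168 : CertX :=
  ⟨[k4,k4,k20,k22,k32,k32],[],[[[]]],
    [.old (.lp [k12,k16,k12,k12,k18,k24] [k6,k6,k4,k4,k6,k6,k6,k6,k3,k3,k0,k0] k0 [] k48 k5
    [[(k1,k12),(k8,k15),(k10,k18),(k11,k18)],[(k5,k12),(k3,k14)],[(k0,k14),(k2,k16)],[(k5,k14),(k3,k16)],[(k0,k12),
    (k2,k14)],[(k6,k12),(k7,k12)],[(k4,k12),(k9,k15)],[(k4,k12),(k9,k15)],[(k6,k15),(k7,k15)],[(k1,k15),(k8,k18),(k10,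
    k21),(k11,k21)],[(k1,k18),(k8,k21),(k10,k24),(k11,k24)],[(k1,k18),(k8,k21),(k10,k24),(k11,k24)]]
    [] k0
    [[k0,k2,k0,k0,k0,k0]]
    [.contra [z1]])]⟩

/-- classes `0 0 1 1 2 2`, types `C0 C0 N0 N1 N0 N1` -/
noncomputable def cU6_1169 : CertX :=
  ⟨[k4,k4,k28,k29,k44,k45],[(false,k0,[k0,k1,k2,k3,k4,k5])],[[[([z1,z0,z1,z0,z1,z0],z2),([z0,z3,z0,z0,z0,z0],z2),([z0,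
    z0,z0,z3,z0,z0],z2)],[([z1,z0,z1,z0,z1,z0],z2),([z0,z3,z0,z0,z0,z3],z4)],[([z3,z3,z3,z0,z3,z3],z10)],[]]],
    [.old (.leafM k2 [k0,k1,k2,k3,k4,k5] [(z1,[z0,z1]),(z1,[z0,z0,z1]),(z1,[y3,y1,y1,z3])] []),
    .old (.lp [k12,k8,k4,k8,k8,k6] [k0,k0,k2,k2,k4,k4,k2,k2,k2,k2,k3,k3] k0 [] k24 k5
    [[(k8,k10)],[(k5,k8),(k3,k10)],[(k2,k8),(k0,k10)],[(k5,k6),(k3,k8)],[(k2,k6),(k0,k8)],[(k9,k6)],[(k6,k8)],[(k7,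
    k8)],[(k4,k6)],[(k1,k10)],[(k10,k6)],[(k11,k6)]]
    [] k0
    [[k0,k2,k0,k0,k0,k0],[k0,k0,k0,k2,k0,k0],[k0,k0,k0,k0,k0,k2],[k0,k0,k0,k0,k0,k3]]
    [.contra [z1],.contra [z1],.contra [z1],.ref k0 k0 [(z1,[z0,z1]),(z1,[y1,z0,z1]),(z1,[z0,y3,y1,z3])]]),
    .old (.lp [k6,k8,k6,k12,k6,k8] [k3,k3,k2,k2,k3,k3,k0,k0,k3,k3,k2,k2] k0 [] k24 k5
    [[(k8,k6)],[(k5,k6),(k3,k7)],[(k0,k7),(k2,k8)],[(k5,k7),(k3,k8)],[(k0,k6),(k2,k7)],[(k9,k6)],[(k6,k12)],[(k7,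
    k12)],[(k4,k6)],[(k1,k6)],[(k10,k8)],[(k11,k8)]]
    [] k0
    [[k1,k0,k1,k0,k1,k0],[k0,k2,k0,k0,k0,k0],[k0,k0,k0,k0,k0,k2]]
    [.ref k1 k0 [(z1,[z1]),(z1,[y3,z1])],.contra [z1],.contra [z1]]),
    .old (.lp [k12,k8,k4,k6,k8,k8] [k0,k0,k2,k2,k4,k4,k3,k3,k2,k2,k2,k2] k0 [] k24 k5
    [[(k8,k10)],[(k5,k8),(k3,k10)],[(k2,k8),(k0,k10)],[(k5,k6),(k3,k8)],[(k2,k6),(k0,k8)],[(k9,k6)],[(k6,k6)],[(k7,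
    k6)],[(k4,k6)],[(k1,k10)],[(k10,k8)],[(k11,k8)]]
    [] k0
    [[k0,k2,k0,k0,k0,k0],[k0,k0,k0,k2,k0,k0],[k0,k0,k0,k3,k0,k0],[k0,k0,k0,k0,k0,k2]]
    [.contra [z1],.contra [z1],.ref k2 k0 [(z1,[y1,z3])],.contra [z1]])]⟩

/-- classes `0 0 1 1 2 2`, types `C0 C0 N0 N1 N0 N2` -/
noncomputable def cU6_1170 : CertX :=
  ⟨[k4,k4,k28,k29,k44,k46],[],[[[]]],
    [.old (.lp [k4,k4,k2,k6,k4,k2] [k1,k1,k1,k1,k2,k2,k0,k0,k1,k1,k2,k2] k0 [] k12 k5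
    [[(k11,k3)],[(k5,k3),(k3,k4)],[(k0,k4),(k2,k4)],[(k5,k3),(k3,k4)],[(k0,k3),(k2,k3)],[(k9,k3)],[(k6,k6)],[(k7,k6)],
    [(k4,k3)],[(k10,k3)],[(k1,k3)],[(k8,k3)]]
    [] k0
    [[k0,k2,k0,k0,k0,k0]]
    [.contra [z1]])]⟩

/-- classes `0 0 1 1 2 2`, types `C0 C0 N0 N1 S0 S0` -/
noncomputable def cU6_1171 : CertX :=
  ⟨[k4,k4,k28,k29,k32,k32],[(false,k0,[k0,k1,k2,k3,k4,k5])],[[[([z1,z0,z1,z0,z1,z0],z2),([z0,z3,z0,z0,z0,z0],z2),([z0,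
    z0,z0,z3,z0,z0],z2)],[([z3,z3,z3,z0,z3,z0],z8),([z0,z0,z0,z3,z0,z0],z2)],[([z3,z3,z3,z0,z3,z3],z10)],[]]],
    [.old (.leafM k2 [k0,k1,k2,k3,k4,k5] [(z1,[z0,z1]),(z1,[z0,z0,z1]),(z1,[y3,y1,y1,z3])] []),
    .old (.lp [k6,k8,k6,k12,k6,k8] [k3,k3,k2,k2,k3,k3,k0,k0,k3,k3,k2,k2] k0 [] k24 k5
    [[(k1,k6),(k8,k6),(k10,k7),(k11,k7)],[(k5,k6),(k3,k7)],[(k0,k7),(k2,k8)],[(k5,k7),(k3,k8)],[(k0,k6),(k2,k7)],[(k9,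
    k6)],[(k6,k12)],[(k7,k12)],[(k4,k6)],[(k1,k6),(k8,k6),(k10,k7),(k11,k7)],[(k1,k7),(k8,k7),(k10,k8),(k11,k8)],[(k1,
    k7),(k8,k7),(k10,k8),(k11,k8)]]
    [] k0
    [[k1,k0,k1,k0,k1,k0],[k0,k2,k0,k0,k0,k0],[k0,k0,k0,k0,k0,k2]]
    [.ref k0 k0 [(z1,[z1]),(z1,[y3,z1]),(z1,[z0,z0,z1])],.contra [z1],.contra [z3,z2,z4,y6]]),
    .old (.lp [k12,k8,k4,k8,k8,k6] [k0,k0,k2,k2,k4,k4,k2,k2,k2,k2,k3,k3] k0 [] k24 k5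
    [[(k10,k9),(k11,k9),(k8,k10),(k1,k12)],[(k5,k8),(k3,k10)],[(k2,k8),(k0,k10)],[(k5,k6),(k3,k8)],[(k2,k6),(k0,k8)],
    [(k9,k6)],[(k6,k8)],[(k7,k8)],[(k4,k6)],[(k10,k7),(k11,k7),(k8,k8),(k1,k10)],[(k10,k6),(k11,k6),(k8,k7),(k1,k9)],
    [(k10,k6),(k11,k6),(k8,k7),(k1,k9)]]
    [] k0
    [[k0,k2,k0,k0,k0,k0],[k0,k0,k0,k2,k0,k0],[k0,k0,k0,k0,k0,k2],[k0,k0,k0,k0,k0,k3]]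
    [.contra [z1],.contra [z1],.contra [z1],.ref k1 k0 [(z1,[y1,z1]),(z1,[z0,y1,z3])]]),
    .old (.lp [k12,k8,k4,k6,k8,k8] [k0,k0,k2,k2,k4,k4,k3,k3,k2,k2,k2,k2] k0 [] k24 k5
    [[(k8,k10),(k10,k10),(k11,k10),(k1,k12)],[(k5,k8),(k3,k10)],[(k2,k8),(k0,k10)],[(k5,k6),(k3,k8)],[(k2,k6),(k0,
    k8)],[(k9,k6)],[(k6,k6)],[(k7,k6)],[(k4,k6)],[(k8,k8),(k10,k8),(k11,k8),(k1,k10)],[(k8,k8),(k10,k8),(k11,k8),(k1,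
    k10)],[(k8,k8),(k10,k8),(k11,k8),(k1,k10)]]
    [] k0
    [[k0,k2,k0,k0,k0,k0],[k0,k0,k0,k2,k0,k0],[k0,k0,k0,k3,k0,k0],[k0,k0,k0,k0,k0,k2]]
    [.contra [z1],.contra [z1],.ref k2 k0 [(z1,[y1,z3])],.contra [z1]])]⟩

/-- classes `0 0 1 1 2 2`, types `C0 C0 N0 N2 N0 N2` -/
noncomputable def cU6_1172 : CertX :=
  ⟨[k4,k4,k28,k30,k44,k46],[],[[[]]],
    [.old (.lp [k2,k4,k2,k2,k2,k2] [k1,k1,k0,k0,k1,k1,k1,k1,k1,k1,k1,k1] k0 [] k8 k5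
    [[(k11,k2)],[(k5,k2),(k3,k3)],[(k0,k3),(k2,k4)],[(k5,k3),(k3,k4)],[(k0,k2),(k2,k3)],[(k6,k2)],[(k9,k2)],[(k4,k2)],
    [(k7,k2)],[(k10,k2)],[(k1,k2)],[(k8,k2)]]
    [] k0
    []
    [])]⟩

/-- classes `0 0 1 1 2 2`, types `C0 C0 N0 N2 S0 S0` -/
noncomputable def cU6_1173 : CertX :=
  ⟨[k4,k4,k28,k30,k32,k32],[],[[[]]],
    [.old (.lp [k6,k8,k6,k6,k6,k12] [k3,k3,k2,k2,k3,k3,k3,k3,k3,k3,k0,k0] k0 [] k24 k5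
    [[(k1,k6),(k8,k6),(k10,k9),(k11,k9)],[(k5,k6),(k3,k7)],[(k0,k7),(k2,k8)],[(k5,k7),(k3,k8)],[(k0,k6),(k2,k7)],[(k6,
    k6)],[(k9,k6)],[(k4,k6)],[(k7,k6)],[(k1,k6),(k8,k6),(k10,k9),(k11,k9)],[(k1,k9),(k8,k9),(k10,k12),(k11,k12)],[(k1,
    k9),(k8,k9),(k10,k12),(k11,k12)]]
    [] k0
    [[k0,k2,k0,k0,k0,k0]]
    [.contra [z1]])]⟩

/-- classes `0 0 1 1 2 2`, types `C0 C0 S0 S0 S0 S0` -/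
noncomputable def cU6_1174 : CertX :=
  ⟨[k4,k4,k16,k16,k32,k32],[(false,k0,[k0,k1,k2,k3,k4,k5]),(true,k2,[k2,k1,k0,k5,k4,k3])],[[[([z1,z0,z1,z0,z1,z0],z2),
    ([z0,z3,z0,z0,z0,z0],z2),([z0,z0,z0,z3,z0,z0],z2)],[([z3,z0,z3,z0,z3,z3],z8),([z0,z3,z0,z0,z0,z0],z2)],[([z3,z0,
    z3,z3,z3,z3],z10)],[]]],
    [.old (.leafM k2 [k0,k1,k2,k3,k4,k5] [(z1,[z0,z1]),(z1,[z0,z0,z1]),(z1,[y3,y1,y1,z3])] []),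
    .old (.lp [k6,k8,k6,k8,k12,k6] [k3,k3,k2,k2,k3,k3,k2,k2,k0,k0,k3,k3] k0 [] k24 k5
    [[(k1,k6),(k10,k6),(k11,k6),(k8,k9)],[(k5,k6),(k3,k7)],[(k0,k7),(k2,k8)],[(k5,k7),(k3,k8)],[(k0,k6),(k2,k7)],[(k4,
    k6),(k6,k7),(k7,k7),(k9,k9)],[(k4,k7),(k6,k8),(k7,k8),(k9,k10)],[(k4,k7),(k6,k8),(k7,k8),(k9,k10)],[(k4,k9),(k6,
    k10),(k7,k10),(k9,k12)],[(k1,k9),(k10,k9),(k11,k9),(k8,k12)],[(k1,k6),(k10,k6),(k11,k6),(k8,k9)],[(k1,k6),(k10,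
    k6),(k11,k6),(k8,k9)]]
    [] k0
    [[k0,k2,k0,k0,k0,k0],[k0,k0,k0,k2,k0,k0],[k0,k0,k0,k0,k0,k2],[k0,k0,k0,k0,k0,k3]]
    [.contra [z1],.contra [z3,z2,z4,y6],.contra [z1],.ref k0 k0 [(z3,[y1,z1]),(z1,[z0,z0,z1]),(z1,[z0,y1,y1,z3])]]),
    .old (.lp [k6,k8,k6,k8,k12,k6] [k3,k3,k2,k2,k3,k3,k2,k2,k0,k0,k3,k3] k0 [] k24 k5
    [[(k1,k6),(k10,k6),(k11,k6),(k8,k9)],[(k5,k6),(k3,k7)],[(k0,k7),(k2,k8)],[(k5,k7),(k3,k8)],[(k0,k6),(k2,k7)],[(k4,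
    k6),(k6,k7),(k7,k7),(k9,k9)],[(k4,k7),(k6,k8),(k7,k8),(k9,k10)],[(k4,k7),(k6,k8),(k7,k8),(k9,k10)],[(k4,k9),(k6,
    k10),(k7,k10),(k9,k12)],[(k1,k9),(k10,k9),(k11,k9),(k8,k12)],[(k1,k6),(k10,k6),(k11,k6),(k8,k9)],[(k1,k6),(k10,
    k6),(k11,k6),(k8,k9)]]
    [] k0
    [[k0,k2,k0,k0,k0,k0],[k0,k0,k0,k2,k0,k0],[k0,k0,k0,k0,k0,k2],[k0,k0,k0,k0,k0,k3]]
    [.contra [z1],.contra [z1],.contra [z1],.ref k1 k1 [(z1,[y1,z1]),(z1,[z0,y1,z3])]]),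
    .old (.lp [k6,k6,k6,k8,k12,k8] [k3,k3,k3,k3,k3,k3,k2,k2,k0,k0,k2,k2] k0 [] k24 k5
    [[(k1,k6),(k10,k7),(k11,k7),(k8,k9)],[(k3,k6),(k5,k6)],[(k0,k6),(k2,k6)],[(k3,k6),(k5,k6)],[(k0,k6),(k2,k6)],[(k4,
    k6),(k6,k7),(k7,k7),(k9,k9)],[(k4,k7),(k6,k8),(k7,k8),(k9,k10)],[(k4,k7),(k6,k8),(k7,k8),(k9,k10)],[(k4,k9),(k6,
    k10),(k7,k10),(k9,k12)],[(k1,k9),(k10,k10),(k11,k10),(k8,k12)],[(k1,k7),(k10,k8),(k11,k8),(k8,k10)],[(k1,k7),(k10,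
    k8),(k11,k8),(k8,k10)]]
    [] k0
    [[k0,k2,k0,k0,k0,k0],[k0,k3,k0,k0,k0,k0],[k0,k0,k0,k2,k0,k0],[k0,k0,k0,k0,k0,k2]]
    [.contra [z1],.ref k2 k0 [(z1,[y1,z3])],.contra [z1],.contra [z1]])]⟩

/-- classes `0 0 1 1 2 2`, types `C0 C2 C0 C2 C0 C2` -/
noncomputable def cU6_1175 : CertX :=
  ⟨[k4,k6,k20,k22,k36,k38],[],[[[]]],
    [.old (.lp [k2,k0,k2,k0,k2,k0] [k0,k0,k1,k1,k0,k0,k1,k1,k0,k0,k1,k1] k0 [] k4 k5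
    [[(k10,k1),(k11,k1)],[(k2,k1),(k3,k1)],[(k0,k1),(k5,k1)],[(k0,k1),(k5,k1)],[(k2,k1),(k3,k1)],[(k6,k1),(k7,k1)],
    [(k4,k1),(k9,k1)],[(k4,k1),(k9,k1)],[(k6,k1),(k7,k1)],[(k10,k1),(k11,k1)],[(k1,k1),(k8,k1)],[(k1,k1),(k8,k1)]]
    [] k0
    []
    [])]⟩

/-- classes `0 0 1 1 2 2`, types `C0 C2 C0 C2 N0 N1` -/
noncomputable def cU6_1176 : CertX :=
  ⟨[k4,k6,k20,k22,k44,k45],[],[[[]]],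
    [.old (.lp [k2,k2,k2,k2,k2,k4] [k1,k1,k1,k1,k1,k1,k1,k1,k1,k1,k0,k0] k0 [] k8 k5
    [[(k8,k2)],[(k2,k2),(k3,k2)],[(k0,k2),(k5,k2)],[(k0,k2),(k5,k2)],[(k2,k2),(k3,k2)],[(k6,k2),(k7,k2)],[(k4,k2),(k9,
    k2)],[(k4,k2),(k9,k2)],[(k6,k2),(k7,k2)],[(k1,k2)],[(k10,k4)],[(k11,k4)]]
    [] k0
    []
    [])]⟩

/-- classes `0 0 1 1 2 2`, types `C0 C2 C0 C2 N0 N2` -/
noncomputable def cU6_1177 : CertX :=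
  ⟨[k4,k6,k20,k22,k44,k46],[],[[[]]],
    [.old (.lp [k2,k0,k2,k0,k2,k0] [k0,k0,k1,k1,k0,k0,k1,k1,k0,k0,k1,k1] k0 [] k4 k5
    [[(k11,k1)],[(k2,k1),(k3,k1)],[(k0,k1),(k5,k1)],[(k0,k1),(k5,k1)],[(k2,k1),(k3,k1)],[(k6,k1),(k7,k1)],[(k4,k1),
    (k9,k1)],[(k4,k1),(k9,k1)],[(k6,k1),(k7,k1)],[(k10,k1)],[(k1,k1)],[(k8,k1)]]
    [] k0
    []
    [])]⟩

/-- classes `0 0 1 1 2 2`, types `C0 C2 C0 C2 S0 S0` -/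
noncomputable def cU6_1178 : CertX :=
  ⟨[k4,k6,k20,k22,k32,k32],[],[[[]]],
    [.old (.lp [k6,k12,k0,k12,k6,k8] [k3,k3,k0,k0,k6,k6,k0,k0,k3,k3,k2,k2] k0 [] k24 k5
    [[(k1,k6),(k8,k6),(k10,k7),(k11,k7)],[(k2,k9),(k3,k9)],[(k5,k6),(k0,k9)],[(k5,k6),(k0,k9)],[(k2,k6),(k3,k6)],[(k6,
    k6),(k7,k6)],[(k4,k6),(k9,k9)],[(k4,k6),(k9,k9)],[(k6,k9),(k7,k9)],[(k1,k6),(k8,k6),(k10,k7),(k11,k7)],[(k1,k7),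
    (k8,k7),(k10,k8),(k11,k8)],[(k1,k7),(k8,k7),(k10,k8),(k11,k8)]]
    [] k0
    [[k0,k0,k0,k0,k0,k2]]
    [.contra [z1]])]⟩

/-- classes `0 0 1 1 2 2`, types `C0 C2 N0 N1 N0 N1` -/
noncomputable def cU6_1179 : CertX :=
  ⟨[k4,k6,k28,k29,k44,k45],[],[[[]]],
    [.old (.lp [k0,k6,k0,k6,k6,k4] [k3,k3,k0,k0,k3,k3,k0,k0,k0,k0,k1,k1] k0 [] k12 k5
    [[(k8,k3)],[(k2,k3),(k3,k3)],[(k0,k3),(k5,k3)],[(k0,k3),(k5,k3)],[(k2,k3),(k3,k3)],[(k9,k3)],[(k6,k6)],[(k7,k6)],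
    [(k4,k3)],[(k1,k3)],[(k10,k4)],[(k11,k4)]]
    [] k0
    [[k0,k0,k0,k0,k0,k2]]
    [.contra [z1]])]⟩

/-- classes `0 0 1 1 2 2`, types `C0 C2 N0 N1 N0 N2` -/
noncomputable def cU6_1180 : CertX :=
  ⟨[k4,k6,k28,k29,k44,k46],[],[[[]]],
    [.old (.lp [k2,k2,k2,k4,k2,k2] [k1,k1,k1,k1,k1,k1,k0,k0,k1,k1,k1,k1] k0 [] k8 k5
    [[(k11,k2)],[(k2,k2),(k3,k2)],[(k0,k2),(k5,k2)],[(k0,k2),(k5,k2)],[(k2,k2),(k3,k2)],[(k9,k2)],[(k6,k4)],[(k7,k4)],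
    [(k4,k2)],[(k10,k2)],[(k1,k2)],[(k8,k2)]]
    [] k0
    []
    [])]⟩

/-- classes `0 0 1 1 2 2`, types `C0 C2 N0 N1 S0 S0` -/
noncomputable def cU6_1181 : CertX :=
  ⟨[k4,k6,k28,k29,k32,k32],[],[[[]]],
    [.old (.lp [k18,k12,k12,k24,k12,k16] [k3,k3,k6,k6,k6,k6,k0,k0,k6,k6,k4,k4] k0 [] k48 k5
    [[(k8,k15),(k10,k17),(k11,k17),(k1,k18)],[(k2,k15),(k3,k15)],[(k5,k12),(k0,k15)],[(k5,k12),(k0,k15)],[(k2,k12),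
    (k3,k12)],[(k9,k12)],[(k6,k24)],[(k7,k24)],[(k4,k12)],[(k8,k12),(k10,k14),(k11,k14),(k1,k15)],[(k8,k14),(k10,k16),
    (k11,k16),(k1,k17)],[(k8,k14),(k10,k16),(k11,k16),(k1,k17)]]
    [] k0
    [[k0,k0,k0,k0,k0,k2]]
    [.contra [z1]])]⟩

/-- classes `0 0 1 1 2 2`, types `C0 C2 N0 N2 N0 N2` -/
noncomputable def cU6_1182 : CertX :=
  ⟨[k4,k6,k28,k30,k44,k46],[],[[[]]],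
    [.old (.lp [k2,k0,k2,k0,k2,k0] [k0,k0,k1,k1,k0,k0,k1,k1,k0,k0,k1,k1] k0 [] k4 k5
    [[(k11,k1)],[(k2,k1),(k3,k1)],[(k0,k1),(k5,k1)],[(k0,k1),(k5,k1)],[(k2,k1),(k3,k1)],[(k6,k1)],[(k9,k1)],[(k4,k1)],
    [(k7,k1)],[(k10,k1)],[(k1,k1)],[(k8,k1)]]
    [] k0
    []
    [])]⟩

/-- classes `0 0 1 1 2 2`, types `C0 C2 N0 N2 S0 S0` -/
noncomputable def cU6_1183 : CertX :=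
  ⟨[k4,k6,k28,k30,k32,k32],[],[[[]]],
    [.old (.lp [k6,k4,k4,k4,k4,k8] [k1,k1,k2,k2,k2,k2,k2,k2,k2,k2,k0,k0] k0 [] k16 k5
    [[(k8,k5),(k1,k6),(k10,k7),(k11,k7)],[(k2,k5),(k3,k5)],[(k5,k4),(k0,k5)],[(k5,k4),(k0,k5)],[(k2,k4),(k3,k4)],[(k6,
    k4)],[(k9,k4)],[(k4,k4)],[(k7,k4)],[(k8,k4),(k1,k5),(k10,k6),(k11,k6)],[(k8,k6),(k1,k7),(k10,k8),(k11,k8)],[(k8,
    k6),(k1,k7),(k10,k8),(k11,k8)]]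
    [] k0
    []
    [])]⟩

/-- classes `0 0 1 1 2 2`, types `C0 C2 S0 S0 S0 S0` -/
noncomputable def cU6_1184 : CertX :=
  ⟨[k4,k6,k16,k16,k32,k32],[],[[[]]],
    [.old (.lp [k36,k12,k42,k28,k30,k36] [k3,k3,k15,k15,k0,k0,k7,k7,k6,k6,k3,k3] k0 [[],[],[],[],[k0,k0,k0,k0,k0,k0,k12,
    k8],[],[k0,k0,k0,k0,k0,k8],[k0,k0,k0,k0,k0,k12],[],[],[k0,k0,k0,k0,k0,k0,k0,k0,k0,k0,k0,k12]] k96 k5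
    [[(k8,k33),(k10,k36),(k11,k36),(k1,k48)],[(k2,k24),(k3,k24)],[(k0,k24),(k5,k27)],[(k0,k24),(k5,k27)],[(k2,k27),
    (k3,k27)],[(k9,k24),(k6,k27),(k7,k35),(k4,k42)],[(k7,k28),(k4,k35),(k9,k37),(k6,k40)],[(k4,k27),(k6,k28),(k9,k29),
    (k7,k40)],[(k4,k24),(k6,k29),(k9,k30),(k7,k37)],[(k8,k30),(k1,k33),(k10,k33),(k11,k33)],[(k8,k33),(k1,k36),(k10,
    k36),(k11,k36)],[(k10,k24),(k8,k33),(k1,k36),(k11,k36)]]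
    [] k0
    [[k0,k0,k0,k2,k0,k0],[k0,k0,k0,k0,k2,k0],[k0,k0,k0,k0,k0,k2]]
    [.contra [z1],.contra [z1],.contra [z1]])]⟩

/-- classes `0 0 1 1 2 2`, types `N0 N1 N0 N1 N0 N1` -/
noncomputable def cU6_1185 : CertX :=
  ⟨[k12,k13,k28,k29,k44,k45],[(false,k0,[k0,k1,k2,k3,k4,k5]),(false,k4,[k4,k5,k0,k1,k2,k3])],[[[([z1,z0,z1,z0,z1,z0],
    z2),([z0,z3,z0,z0,z0,z0],z2),([z0,z0,z0,z3,z0,z0],z2)],[([z3,z0,z3,z0,z3,z3],z8),([z0,z3,z0,z0,z0,z0],z2)],[([z3,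
    z0,z3,z3,z3,z3],z10)],[]]],
    [.old (.leafM k2 [k0,k1,k2,k3,k4,k5] [(z1,[z0,z1]),(z1,[z0,z0,z1]),(z1,[y3,y1,y1,z3])] []),
    .old (.lp [k6,k8,k6,k12,k6,k8] [k3,k3,k2,k2,k3,k3,k0,k0,k3,k3,k2,k2] k0 [] k24 k5
    [[(k8,k6)],[(k5,k6)],[(k2,k8)],[(k3,k8)],[(k0,k6)],[(k9,k6)],[(k6,k12)],[(k7,k12)],[(k4,k6)],[(k1,k6)],[(k10,k8)],
    [(k11,k8)]]
    [] k0
    [[k1,k0,k1,k0,k1,k0],[k0,k2,k0,k0,k0,k0],[k0,k0,k0,k0,k0,k2]]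
    [.ref k0 k0 [(z1,[z1]),(z1,[z0,z0,z1]),(z1,[z0,y1,y1,z3])],.contra [z1],.contra [z1]]),
    .old (.lp [k12,k8,k0,k6,k12,k8] [k0,k0,k2,k2,k6,k6,k3,k3,k0,k0,k2,k2] k0 [] k24 k5
    [[(k8,k12)],[(k5,k6)],[(k2,k8)],[(k3,k8)],[(k0,k6)],[(k9,k6)],[(k6,k6)],[(k7,k6)],[(k4,k6)],[(k1,k12)],[(k10,k8)],
    [(k11,k8)]]
    [] k0
    [[k0,k2,k0,k0,k0,k0],[k0,k0,k0,k2,k0,k0],[k0,k0,k0,k3,k0,k0],[k0,k0,k0,k0,k0,k2]]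
    [.contra [z1],.contra [z1],.ref k1 k0 [(z1,[y1,z1]),(z1,[z0,y1,z3])],.contra [z1]]),
    .old (.lp [k12,k8,k0,k6,k12,k8] [k0,k0,k2,k2,k6,k6,k3,k3,k0,k0,k2,k2] k0 [] k24 k5
    [[(k8,k12)],[(k5,k6)],[(k2,k8)],[(k3,k8)],[(k0,k6)],[(k9,k6)],[(k6,k6)],[(k7,k6)],[(k4,k6)],[(k1,k12)],[(k10,k8)],
    [(k11,k8)]]
    [] k0
    [[k0,k2,k0,k0,k0,k0],[k0,k0,k0,k2,k0,k0],[k0,k0,k0,k3,k0,k0],[k0,k0,k0,k0,k0,k2]]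
    [.contra [z1],.contra [z1],.ref k2 k1 [(z1,[y1,z3])],.contra [z1]])]⟩

/-- classes `0 0 1 1 2 2`, types `N0 N1 N0 N1 N0 N2` -/
noncomputable def cU6_1186 : CertX :=
  ⟨[k12,k13,k28,k29,k44,k46],[],[[[]]],
    [.old (.lp [k6,k4,k0,k6,k6,k0] [k0,k0,k1,k1,k3,k3,k0,k0,k0,k0,k3,k3] k0 [] k12 k5
    [[(k11,k3)],[(k5,k3)],[(k2,k4)],[(k3,k4)],[(k0,k3)],[(k9,k3)],[(k6,k6)],[(k7,k6)],[(k4,k3)],[(k10,k3)],[(k1,k3)],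
    [(k8,k3)]]
    [] k0
    [[k0,k2,k0,k0,k0,k0]]
    [.contra [z1]])]⟩

/-- classes `0 0 1 1 2 2`, types `N0 N1 N0 N1 S0 S0` -/
noncomputable def cU6_1187 : CertX :=
  ⟨[k12,k13,k28,k29,k32,k32],[(false,k0,[k0,k1,k2,k3,k4,k5]),(true,k4,[k4,k3,k2,k1,k0,k5])],[[[([z1,z0,z1,z0,z1,z0],
    z2),([z0,z3,z0,z0,z0,z0],z2),([z0,z0,z0,z3,z0,z0],z2)],[([z3,z0,z3,z0,z3,z3],z8),([z0,z3,z0,z0,z0,z0],z2)],[([z3,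
    z0,z3,z3,z3,z3],z10)],[]]],
    [.old (.leafM k2 [k0,k1,k2,k3,k4,k5] [(z1,[z0,z1]),(z1,[z0,z0,z1]),(z1,[y3,y1,y1,z3])] []),
    .old (.lp [k12,k8,k0,k8,k12,k6] [k0,k0,k2,k2,k6,k6,k2,k2,k0,k0,k3,k3] k0 [] k24 k5
    [[(k10,k9),(k11,k9),(k1,k12),(k8,k12)],[(k5,k6)],[(k2,k8)],[(k3,k8)],[(k0,k6)],[(k9,k6)],[(k6,k8)],[(k7,k8)],[(k4,
    k6)],[(k10,k9),(k11,k9),(k1,k12),(k8,k12)],[(k10,k6),(k11,k6),(k1,k9),(k8,k9)],[(k10,k6),(k11,k6),(k1,k9),(k8,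
    k9)]]
    [] k0
    [[k0,k2,k0,k0,k0,k0],[k0,k0,k0,k2,k0,k0],[k0,k0,k0,k0,k0,k2],[k0,k0,k0,k0,k0,k3]]
    [.contra [z1],.contra [z3,z2,z4,y6],.contra [z1],.ref k0 k0 [(z3,[y1,z1]),(z1,[z0,z0,z1]),(z1,[z0,y1,y1,z3])]]),
    .old (.lp [k12,k8,k0,k6,k12,k8] [k0,k0,k2,k2,k6,k6,k3,k3,k0,k0,k2,k2] k0 [] k24 k5
    [[(k10,k10),(k11,k10),(k1,k12),(k8,k12)],[(k5,k6)],[(k2,k8)],[(k3,k8)],[(k0,k6)],[(k9,k6)],[(k6,k6)],[(k7,k6)],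
    [(k4,k6)],[(k10,k10),(k11,k10),(k1,k12),(k8,k12)],[(k10,k8),(k11,k8),(k1,k10),(k8,k10)],[(k10,k8),(k11,k8),(k1,
    k10),(k8,k10)]]
    [] k0
    [[k0,k2,k0,k0,k0,k0],[k0,k0,k0,k2,k0,k0],[k0,k0,k0,k3,k0,k0],[k0,k0,k0,k0,k0,k2]]
    [.contra [z1],.contra [z1],.ref k1 k0 [(z1,[y1,z1]),(z1,[z0,y1,z3])],.contra [z1]]),
    .old (.lp [k12,k8,k0,k6,k12,k8] [k0,k0,k2,k2,k6,k6,k3,k3,k0,k0,k2,k2] k0 [] k24 k5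
    [[(k10,k10),(k11,k10),(k1,k12),(k8,k12)],[(k5,k6)],[(k2,k8)],[(k3,k8)],[(k0,k6)],[(k9,k6)],[(k6,k6)],[(k7,k6)],
    [(k4,k6)],[(k10,k10),(k11,k10),(k1,k12),(k8,k12)],[(k10,k8),(k11,k8),(k1,k10),(k8,k10)],[(k10,k8),(k11,k8),(k1,
    k10),(k8,k10)]]
    [] k0
    [[k0,k2,k0,k0,k0,k0],[k0,k0,k0,k2,k0,k0],[k0,k0,k0,k3,k0,k0],[k0,k0,k0,k0,k0,k2]]
    [.contra [z1],.contra [z1],.ref k2 k1 [(z1,[y1,z3])],.contra [z1]])]⟩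

/-- classes `0 0 1 1 2 2`, types `N0 N1 N0 N2 N0 N2` -/
noncomputable def cU6_1188 : CertX :=
  ⟨[k12,k13,k28,k30,k44,k46],[],[[[]]],
    [.old (.lp [k2,k4,k2,k2,k2,k2] [k1,k1,k0,k0,k1,k1,k1,k1,k1,k1,k1,k1] k0 [] k8 k5
    [[(k11,k2)],[(k5,k2)],[(k2,k4)],[(k3,k4)],[(k0,k2)],[(k6,k2)],[(k9,k2)],[(k4,k2)],[(k7,k2)],[(k10,k2)],[(k1,k2)],
    [(k8,k2)]]
    [] k0
    []
    [])]⟩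

/-- classes `0 0 1 1 2 2`, types `N0 N1 N0 N2 S0 S0` -/
noncomputable def cU6_1189 : CertX :=
  ⟨[k12,k13,k28,k30,k32,k32],[],[[[]]],
    [.old (.lp [k6,k8,k6,k6,k6,k12] [k3,k3,k2,k2,k3,k3,k3,k3,k3,k3,k0,k0] k0 [] k24 k5
    [[(k1,k6),(k8,k6),(k10,k9),(k11,k9)],[(k5,k6)],[(k2,k8)],[(k3,k8)],[(k0,k6)],[(k6,k6)],[(k9,k6)],[(k4,k6)],[(k7,
    k6)],[(k1,k6),(k8,k6),(k10,k9),(k11,k9)],[(k1,k9),(k8,k9),(k10,k12),(k11,k12)],[(k1,k9),(k8,k9),(k10,k12),(k11,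
    k12)]]
    [] k0
    [[k0,k2,k0,k0,k0,k0]]
    [.contra [z1]])]⟩

/-- classes `0 0 1 1 2 2`, types `N0 N1 S0 S0 S0 S0` -/
noncomputable def cU6_1190 : CertX :=
  ⟨[k12,k13,k16,k16,k32,k32],[(false,k0,[k0,k1,k2,k3,k4,k5]),(true,k2,[k2,k1,k0,k5,k4,k3])],[[[([z1,z0,z1,z0,z1,z0],
    z2),([z0,z3,z0,z0,z0,z0],z2),([z0,z0,z0,z3,z0,z0],z2)],[([z3,z0,z3,z0,z3,z3],z8),([z0,z3,z0,z0,z0,z0],z2)],[([z3,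
    z0,z3,z3,z3,z3],z10)],[]]],
    [.old (.leafM k2 [k0,k1,k2,k3,k4,k5] [(z1,[z0,z1]),(z1,[z0,z0,z1]),(z1,[y3,y1,y1,z3])] []),
    .old (.lp [k6,k8,k6,k8,k12,k6] [k3,k3,k2,k2,k3,k3,k2,k2,k0,k0,k3,k3] k0 [] k24 k5
    [[(k1,k6),(k10,k6),(k11,k6),(k8,k9)],[(k5,k6)],[(k2,k8)],[(k3,k8)],[(k0,k6)],[(k4,k6),(k6,k7),(k7,k7),(k9,k9)],
    [(k4,k7),(k6,k8),(k7,k8),(k9,k10)],[(k4,k7),(k6,k8),(k7,k8),(k9,k10)],[(k4,k9),(k6,k10),(k7,k10),(k9,k12)],[(k1,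
    k9),(k10,k9),(k11,k9),(k8,k12)],[(k1,k6),(k10,k6),(k11,k6),(k8,k9)],[(k1,k6),(k10,k6),(k11,k6),(k8,k9)]]
    [] k0
    [[k0,k2,k0,k0,k0,k0],[k0,k0,k0,k2,k0,k0],[k0,k0,k0,k0,k0,k2],[k0,k0,k0,k0,k0,k3]]
    [.contra [z1],.contra [z3,z2,z4,y6],.contra [z1],.ref k0 k0 [(z3,[y1,z1]),(z1,[z0,z0,z1]),(z1,[z0,y1,y1,z3])]]),
    .old (.lp [k6,k8,k6,k8,k12,k6] [k3,k3,k2,k2,k3,k3,k2,k2,k0,k0,k3,k3] k0 [] k24 k5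
    [[(k1,k6),(k10,k6),(k11,k6),(k8,k9)],[(k5,k6)],[(k2,k8)],[(k3,k8)],[(k0,k6)],[(k4,k6),(k6,k7),(k7,k7),(k9,k9)],
    [(k4,k7),(k6,k8),(k7,k8),(k9,k10)],[(k4,k7),(k6,k8),(k7,k8),(k9,k10)],[(k4,k9),(k6,k10),(k7,k10),(k9,k12)],[(k1,
    k9),(k10,k9),(k11,k9),(k8,k12)],[(k1,k6),(k10,k6),(k11,k6),(k8,k9)],[(k1,k6),(k10,k6),(k11,k6),(k8,k9)]]
    [] k0
    [[k0,k2,k0,k0,k0,k0],[k0,k0,k0,k2,k0,k0],[k0,k0,k0,k0,k0,k2],[k0,k0,k0,k0,k0,k3]]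
    [.contra [z1],.contra [z1],.contra [z1],.ref k1 k1 [(z1,[y1,z1]),(z1,[z0,y1,z3])]]),
    .old (.lp [k6,k6,k6,k8,k12,k8] [k3,k3,k3,k3,k3,k3,k2,k2,k0,k0,k2,k2] k0 [] k24 k5
    [[(k1,k6),(k10,k7),(k11,k7),(k8,k9)],[(k5,k6)],[(k2,k6)],[(k3,k6)],[(k0,k6)],[(k4,k6),(k6,k7),(k7,k7),(k9,k9)],
    [(k4,k7),(k6,k8),(k7,k8),(k9,k10)],[(k4,k7),(k6,k8),(k7,k8),(k9,k10)],[(k4,k9),(k6,k10),(k7,k10),(k9,k12)],[(k1,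
    k9),(k10,k10),(k11,k10),(k8,k12)],[(k1,k7),(k10,k8),(k11,k8),(k8,k10)],[(k1,k7),(k10,k8),(k11,k8),(k8,k10)]]
    [] k0
    [[k0,k2,k0,k0,k0,k0],[k0,k3,k0,k0,k0,k0],[k0,k0,k0,k2,k0,k0],[k0,k0,k0,k0,k0,k2]]
    [.contra [z1],.ref k2 k0 [(z1,[y1,z3])],.contra [z1],.contra [z1]])]⟩

/-- classes `0 0 1 1 2 2`, types `N0 N2 N0 N2 N0 N2` -/
noncomputable def cU6_1191 : CertX :=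
  ⟨[k12,k14,k28,k30,k44,k46],[],[[[]]],
    [.old (.lp [k2,k0,k2,k0,k2,k0] [k0,k0,k1,k1,k0,k0,k1,k1,k0,k0,k1,k1] k0 [] k4 k5
    [[(k11,k1)],[(k2,k1)],[(k5,k1)],[(k0,k1)],[(k3,k1)],[(k6,k1)],[(k9,k1)],[(k4,k1)],[(k7,k1)],[(k10,k1)],[(k1,k1)],
    [(k8,k1)]]
    [] k0
    []
    [])]⟩

/-- classes `0 0 1 1 2 2`, types `N0 N2 N0 N2 S0 S0` -/
noncomputable def cU6_1192 : CertX :=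
  ⟨[k12,k14,k28,k30,k32,k32],[],[[[]]],
    [.old (.lp [k2,k2,k2,k2,k2,k4] [k1,k1,k1,k1,k1,k1,k1,k1,k1,k1,k0,k0] k0 [] k8 k5
    [[(k1,k2),(k8,k2),(k10,k3),(k11,k3)],[(k2,k2)],[(k5,k2)],[(k0,k2)],[(k3,k2)],[(k6,k2)],[(k9,k2)],[(k4,k2)],[(k7,
    k2)],[(k1,k2),(k8,k2),(k10,k3),(k11,k3)],[(k1,k3),(k8,k3),(k10,k4),(k11,k4)],[(k1,k3),(k8,k3),(k10,k4),(k11,k4)]]
    [] k0
    []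
    [])]⟩

/-- classes `0 0 1 1 2 2`, types `N0 N2 S0 S0 S0 S0` -/
noncomputable def cU6_1193 : CertX :=
  ⟨[k12,k14,k16,k16,k32,k32],[],[[[]]],
    [.old (.lp [k6,k6,k6,k8,k8,k12] [k3,k3,k3,k3,k3,k3,k2,k2,k2,k2,k0,k0] k0 [] k24 k5
    [[(k1,k6),(k8,k7),(k10,k9),(k11,k9)],[(k2,k6)],[(k5,k6)],[(k0,k6)],[(k3,k6)],[(k4,k6),(k6,k7),(k7,k7),(k9,k7)],
    [(k4,k7),(k6,k8),(k7,k8),(k9,k8)],[(k4,k7),(k6,k8),(k7,k8),(k9,k8)],[(k4,k7),(k6,k8),(k7,k8),(k9,k8)],[(k1,k7),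
    (k8,k8),(k10,k10),(k11,k10)],[(k1,k9),(k8,k10),(k10,k12),(k11,k12)],[(k1,k9),(k8,k10),(k10,k12),(k11,k12)]]
    [] k0
    [[k0,k0,k0,k2,k0,k0],[k0,k0,k0,k0,k2,k0]]
    [.contra [z1],.contra [z1]])]⟩

/-- classes `0 0 1 1 2 3`, types `B0 B1 B0 B1 C0 C0` -/
noncomputable def cU6_1194 : CertX :=
  ⟨[k8,k9,k24,k25,k36,k52],[],[[[]]],
    [.old (.lp [k2,k6,k4,k4,k2,k4] [k2,k2,k0,k0,k1,k1,k1,k1,k2,k2,k1,k1] k0 [] k12 k5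
    [[(k10,k3)],[(k5,k3),(k2,k4)],[(k5,k5),(k2,k6)],[(k0,k4),(k3,k6)],[(k0,k3),(k3,k5)],[(k9,k3),(k6,k4)],[(k9,k3),
    (k6,k4)],[(k4,k4),(k7,k4)],[(k4,k3),(k7,k3)],[(k11,k3)],[(k8,k3)],[(k1,k3)]]
    [] k0
    [[k0,k0,k0,k2,k0,k0]]
    [.contra [z1]])]⟩

/-- classes `0 0 1 1 2 3`, types `B0 B1 B0 B1 C0 S0` -/
noncomputable def cU6_1195 : CertX :=
  ⟨[k8,k9,k24,k25,k36,k48],[],[[[]]],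
    [.old (.lp [k6,k12,k6,k8,k6,k6] [k3,k3,k0,k0,k3,k3,k2,k2,k3,k3,k3,k3] k0 [] k24 k5
    [[(k1,k6),(k10,k6)],[(k5,k6),(k2,k9)],[(k5,k9),(k2,k12)],[(k0,k9),(k3,k12)],[(k0,k6),(k3,k9)],[(k9,k6),(k6,k7)],
    [(k9,k7),(k6,k8)],[(k4,k7),(k7,k8)],[(k4,k6),(k7,k7)],[(k11,k6)],[(k8,k6)],[(k1,k6),(k10,k6)]]
    [] k0
    [[k0,k0,k0,k2,k0,k0]]
    [.contra [z1]])]⟩

/-- classes `0 0 1 1 2 3`, types `B0 B1 B0 B1 S0 S0` -/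
noncomputable def cU6_1196 : CertX :=
  ⟨[k8,k9,k24,k25,k32,k48],[],[[[]]],
    [.old (.lp [k6,k8,k6,k12,k6,k6] [k3,k3,k2,k2,k3,k3,k0,k0,k3,k3,k3,k3] k0 [] k24 k5
    [[(k1,k6),(k10,k6)],[(k5,k6),(k2,k7)],[(k5,k7),(k2,k8)],[(k0,k7),(k3,k8)],[(k0,k6),(k3,k7)],[(k9,k6),(k6,k9)],
    [(k9,k9),(k6,k12)],[(k4,k9),(k7,k12)],[(k4,k6),(k7,k9)],[(k8,k6),(k11,k6)],[(k8,k6),(k11,k6)],[(k1,k6),(k10,k6)]]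
    [] k0
    [[k0,k2,k0,k0,k0,k0],[k0,k0,k0,k0,k0,k2]]
    [.contra [z1],.contra [z1]])]⟩

/-- classes `0 0 1 1 2 3`, types `B0 B1 C0 C0 C0 C0` -/
noncomputable def cU6_1197 : CertX :=
  ⟨[k8,k9,k20,k20,k36,k52],[],[[[]]],
    [.old (.lp [k4,k4,k2,k6,k4,k2] [k1,k1,k1,k1,k2,k2,k0,k0,k1,k1,k2,k2] k0 [] k12 k5
    [[(k10,k3)],[(k5,k3),(k2,k4)],[(k5,k3),(k2,k4)],[(k0,k4),(k3,k4)],[(k0,k3),(k3,k3)],[(k9,k3),(k7,k4)],[(k4,k4),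
    (k6,k6)],[(k9,k5),(k7,k6)],[(k4,k3),(k6,k5)],[(k11,k3)],[(k8,k3)],[(k1,k3)]]
    [] k0
    [[k0,k2,k0,k0,k0,k0]]
    [.contra [z1]])]⟩

/-- classes `0 0 1 1 2 3`, types `B0 B1 C0 C0 C0 S0` -/
noncomputable def cU6_1198 : CertX :=
  ⟨[k8,k9,k20,k20,k36,k48],[],[[[]]],
    [.old (.lp [k6,k12,k6,k8,k6,k6] [k3,k3,k0,k0,k3,k3,k2,k2,k3,k3,k3,k3] k0 [] k24 k5
    [[(k1,k6),(k10,k6)],[(k5,k6),(k2,k9)],[(k5,k9),(k2,k12)],[(k0,k9),(k3,k12)],[(k0,k6),(k3,k9)],[(k9,k6),(k7,k7)],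
    [(k4,k7),(k6,k8)],[(k9,k7),(k7,k8)],[(k4,k6),(k6,k7)],[(k11,k6)],[(k8,k6)],[(k1,k6),(k10,k6)]]
    [] k0
    [[k0,k0,k0,k2,k0,k0]]
    [.contra [z1]])]⟩

/-- classes `0 0 1 1 2 3`, types `B0 B1 C0 C0 S0 C0` -/
noncomputable def cU6_1199 : CertX :=
  ⟨[k8,k9,k20,k20,k32,k52],[],[[[]]],
    [.old (.lp [k6,k12,k6,k8,k6,k6] [k3,k3,k0,k0,k3,k3,k2,k2,k3,k3,k3,k3] k0 [] k24 k5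
    [[(k10,k6)],[(k5,k6),(k2,k9)],[(k5,k9),(k2,k12)],[(k0,k9),(k3,k12)],[(k0,k6),(k3,k9)],[(k9,k6),(k7,k7)],[(k4,k7),
    (k6,k8)],[(k9,k7),(k7,k8)],[(k4,k6),(k6,k7)],[(k8,k6),(k11,k6)],[(k8,k6),(k11,k6)],[(k1,k6)]]
    [] k0
    [[k0,k0,k0,k2,k0,k0]]
    [.contra [z1]])]⟩

/-- classes `0 0 1 1 2 3`, types `B0 B1 C0 C0 S0 S0` -/
noncomputable def cU6_1200 : CertX :=
  ⟨[k8,k9,k20,k20,k32,k48],[],[[[]]],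
    [.old (.lp [k6,k12,k6,k8,k6,k6] [k3,k3,k0,k0,k3,k3,k2,k2,k3,k3,k3,k3] k0 [] k24 k5
    [[(k1,k6),(k10,k6)],[(k5,k6),(k2,k9)],[(k5,k9),(k2,k12)],[(k0,k9),(k3,k12)],[(k0,k6),(k3,k9)],[(k9,k6),(k7,k7)],
    [(k4,k7),(k6,k8)],[(k9,k7),(k7,k8)],[(k4,k6),(k6,k7)],[(k8,k6),(k11,k6)],[(k8,k6),(k11,k6)],[(k1,k6),(k10,k6)]]
    [] k0
    [[k0,k0,k0,k2,k0,k0],[k0,k0,k0,k0,k0,k2]]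
    [.contra [z1],.contra [z1]])]⟩

/-- classes `0 0 1 1 2 3`, types `B0 B1 C0 C2 C0 C0` -/
noncomputable def cU6_1201 : CertX :=
  ⟨[k8,k9,k20,k22,k36,k52],[],[[[]]],
    [.old (.lp [k2,k4,k2,k2,k2,k2] [k1,k1,k0,k0,k1,k1,k1,k1,k1,k1,k1,k1] k0 [] k8 k5
    [[(k10,k2)],[(k5,k2),(k2,k3)],[(k5,k3),(k2,k4)],[(k0,k3),(k3,k4)],[(k0,k2),(k3,k3)],[(k6,k2),(k7,k2)],[(k4,k2),
    (k9,k2)],[(k4,k2),(k9,k2)],[(k6,k2),(k7,k2)],[(k11,k2)],[(k8,k2)],[(k1,k2)]]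
    [] k0
    []
    [])]⟩

/-- classes `0 0 1 1 2 3`, types `B0 B1 C0 C2 C0 S0` -/
noncomputable def cU6_1202 : CertX :=
  ⟨[k8,k9,k20,k22,k36,k48],[],[[[]]],
    [.old (.lp [k2,k4,k2,k2,k2,k2] [k1,k1,k0,k0,k1,k1,k1,k1,k1,k1,k1,k1] k0 [] k8 k5
    [[(k1,k2),(k10,k2)],[(k5,k2),(k2,k3)],[(k5,k3),(k2,k4)],[(k0,k3),(k3,k4)],[(k0,k2),(k3,k3)],[(k6,k2),(k7,k2)],
    [(k4,k2),(k9,k2)],[(k4,k2),(k9,k2)],[(k6,k2),(k7,k2)],[(k11,k2)],[(k8,k2)],[(k1,k2),(k10,k2)]]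
    [] k0
    []
    [])]⟩

/-- classes `0 0 1 1 2 3`, types `B0 B1 C0 C2 S0 C0` -/
noncomputable def cU6_1203 : CertX :=
  ⟨[k8,k9,k20,k22,k32,k52],[],[[[]]],
    [.old (.lp [k4,k8,k4,k4,k6,k4] [k2,k2,k0,k0,k2,k2,k2,k2,k1,k1,k2,k2] k0 [] k16 k5
    [[(k10,k4)],[(k5,k4),(k2,k6)],[(k5,k6),(k2,k8)],[(k0,k6),(k3,k8)],[(k0,k4),(k3,k6)],[(k6,k4),(k7,k4)],[(k4,k4),
    (k9,k5)],[(k4,k4),(k9,k5)],[(k6,k5),(k7,k5)],[(k11,k5),(k8,k6)],[(k11,k4),(k8,k5)],[(k1,k4)]]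
    [] k0
    []
    [])]⟩

/-- classes `0 0 1 1 2 3`, types `B0 B1 C0 C2 S0 S0` -/
noncomputable def cU6_1204 : CertX :=
  ⟨[k8,k9,k20,k22,k32,k48],[],[[[]]],
    [.old (.lp [k4,k8,k4,k4,k6,k4] [k2,k2,k0,k0,k2,k2,k2,k2,k1,k1,k2,k2] k0 [] k16 k5
    [[(k1,k4),(k10,k4)],[(k5,k4),(k2,k6)],[(k5,k6),(k2,k8)],[(k0,k6),(k3,k8)],[(k0,k4),(k3,k6)],[(k6,k4),(k7,k4)],
    [(k4,k4),(k9,k5)],[(k4,k4),(k9,k5)],[(k6,k5),(k7,k5)],[(k11,k5),(k8,k6)],[(k11,k4),(k8,k5)],[(k1,k4),(k10,k4)]]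
    [] k0
    [[k0,k0,k0,k0,k0,k2]]
    [.contra [z1]])]⟩

/-- classes `0 0 1 1 2 3`, types `B0 B1 N0 N1 C0 C0` -/
noncomputable def cU6_1205 : CertX :=
  ⟨[k8,k9,k28,k29,k36,k52],[],[[[]]],
    [.old (.lp [k4,k4,k2,k6,k4,k2] [k1,k1,k1,k1,k2,k2,k0,k0,k1,k1,k2,k2] k0 [] k12 k5
    [[(k10,k3)],[(k5,k3),(k2,k4)],[(k5,k3),(k2,k4)],[(k0,k4),(k3,k4)],[(k0,k3),(k3,k3)],[(k9,k3)],[(k6,k6)],[(k7,k6)],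
    [(k4,k3)],[(k11,k3)],[(k8,k3)],[(k1,k3)]]
    [] k0
    [[k0,k2,k0,k0,k0,k0]]
    [.contra [z1]])]⟩

/-- classes `0 0 1 1 2 3`, types `B0 B1 N0 N1 C0 S0` -/
noncomputable def cU6_1206 : CertX :=
  ⟨[k8,k9,k28,k29,k36,k48],[],[[[]]],
    [.old (.lp [k6,k12,k6,k8,k6,k6] [k3,k3,k0,k0,k3,k3,k2,k2,k3,k3,k3,k3] k0 [] k24 k5
    [[(k1,k6),(k10,k6)],[(k5,k6),(k2,k9)],[(k5,k9),(k2,k12)],[(k0,k9),(k3,k12)],[(k0,k6),(k3,k9)],[(k9,k6)],[(k6,k8)],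
    [(k7,k8)],[(k4,k6)],[(k11,k6)],[(k8,k6)],[(k1,k6),(k10,k6)]]
    [] k0
    [[k0,k0,k0,k2,k0,k0]]
    [.contra [z1]])]⟩

/-- classes `0 0 1 1 2 3`, types `B0 B1 N0 N1 S0 C0` -/
noncomputable def cU6_1207 : CertX :=
  ⟨[k8,k9,k28,k29,k32,k52],[],[[[]]],
    [.old (.lp [k6,k12,k6,k8,k6,k6] [k3,k3,k0,k0,k3,k3,k2,k2,k3,k3,k3,k3] k0 [] k24 k5
    [[(k10,k6)],[(k5,k6),(k2,k9)],[(k5,k9),(k2,k12)],[(k0,k9),(k3,k12)],[(k0,k6),(k3,k9)],[(k9,k6)],[(k6,k8)],[(k7,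
    k8)],[(k4,k6)],[(k8,k6),(k11,k6)],[(k8,k6),(k11,k6)],[(k1,k6)]]
    [] k0
    [[k0,k0,k0,k2,k0,k0]]
    [.contra [z1]])]⟩

/-- classes `0 0 1 1 2 3`, types `B0 B1 N0 N1 S0 S0` -/
noncomputable def cU6_1208 : CertX :=
  ⟨[k8,k9,k28,k29,k32,k48],[],[[[]]],
    [.old (.lp [k6,k12,k6,k8,k6,k6] [k3,k3,k0,k0,k3,k3,k2,k2,k3,k3,k3,k3] k0 [] k24 k5
    [[(k1,k6),(k10,k6)],[(k5,k6),(k2,k9)],[(k5,k9),(k2,k12)],[(k0,k9),(k3,k12)],[(k0,k6),(k3,k9)],[(k9,k6)],[(k6,k8)],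
    [(k7,k8)],[(k4,k6)],[(k8,k6),(k11,k6)],[(k8,k6),(k11,k6)],[(k1,k6),(k10,k6)]]
    [] k0
    [[k0,k0,k0,k2,k0,k0],[k0,k0,k0,k0,k0,k2]]
    [.contra [z1],.contra [z1]])]⟩

/-- classes `0 0 1 1 2 3`, types `B0 B1 N0 N2 C0 C0` -/
noncomputable def cU6_1209 : CertX :=
  ⟨[k8,k9,k28,k30,k36,k52],[],[[[]]],
    [.old (.lp [k2,k4,k2,k2,k2,k2] [k1,k1,k0,k0,k1,k1,k1,k1,k1,k1,k1,k1] k0 [] k8 k5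
    [[(k10,k2)],[(k5,k2),(k2,k3)],[(k5,k3),(k2,k4)],[(k0,k3),(k3,k4)],[(k0,k2),(k3,k3)],[(k6,k2)],[(k9,k2)],[(k4,k2)],
    [(k7,k2)],[(k11,k2)],[(k8,k2)],[(k1,k2)]]
    [] k0
    []
    [])]⟩

/-- classes `0 0 1 1 2 3`, types `B0 B1 N0 N2 C0 S0` -/
noncomputable def cU6_1210 : CertX :=
  ⟨[k8,k9,k28,k30,k36,k48],[],[[[]]],
    [.old (.lp [k2,k4,k2,k2,k2,k2] [k1,k1,k0,k0,k1,k1,k1,k1,k1,k1,k1,k1] k0 [] k8 k5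
    [[(k1,k2),(k10,k2)],[(k5,k2),(k2,k3)],[(k5,k3),(k2,k4)],[(k0,k3),(k3,k4)],[(k0,k2),(k3,k3)],[(k6,k2)],[(k9,k2)],
    [(k4,k2)],[(k7,k2)],[(k11,k2)],[(k8,k2)],[(k1,k2),(k10,k2)]]
    [] k0
    []
    [])]⟩

/-- classes `0 0 1 1 2 3`, types `B0 B1 N0 N2 S0 C0` -/
noncomputable def cU6_1211 : CertX :=
  ⟨[k8,k9,k28,k30,k32,k52],[],[[[]]],
    [.old (.lp [k2,k4,k2,k2,k2,k2] [k1,k1,k0,k0,k1,k1,k1,k1,k1,k1,k1,k1] k0 [] k8 k5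
    [[(k10,k2)],[(k5,k2),(k2,k3)],[(k5,k3),(k2,k4)],[(k0,k3),(k3,k4)],[(k0,k2),(k3,k3)],[(k6,k2)],[(k9,k2)],[(k4,k2)],
    [(k7,k2)],[(k8,k2),(k11,k2)],[(k8,k2),(k11,k2)],[(k1,k2)]]
    [] k0
    []
    [])]⟩

/-- classes `0 0 1 1 2 3`, types `B0 B1 N0 N2 S0 S0` -/
noncomputable def cU6_1212 : CertX :=
  ⟨[k8,k9,k28,k30,k32,k48],[],[[[]]],
    [.old (.lp [k2,k4,k2,k2,k2,k2] [k1,k1,k0,k0,k1,k1,k1,k1,k1,k1,k1,k1] k0 [] k8 k5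
    [[(k1,k2),(k10,k2)],[(k5,k2),(k2,k3)],[(k5,k3),(k2,k4)],[(k0,k3),(k3,k4)],[(k0,k2),(k3,k3)],[(k6,k2)],[(k9,k2)],
    [(k4,k2)],[(k7,k2)],[(k8,k2),(k11,k2)],[(k8,k2),(k11,k2)],[(k1,k2),(k10,k2)]]
    [] k0
    [[k0,k0,k0,k0,k0,k2]]
    [.contra [z1]])]⟩

/-- classes `0 0 1 1 2 3`, types `B0 B1 S0 S0 C0 C0` -/
noncomputable def cU6_1213 : CertX :=
  ⟨[k8,k9,k16,k16,k36,k52],[],[[[]]],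
    [.old (.lp [k6,k8,k6,k12,k6,k6] [k3,k3,k2,k2,k3,k3,k0,k0,k3,k3,k3,k3] k0 [] k24 k5
    [[(k10,k6)],[(k5,k6),(k2,k7)],[(k5,k7),(k2,k8)],[(k0,k7),(k3,k8)],[(k0,k6),(k3,k7)],[(k4,k6),(k9,k6),(k6,k9),(k7,
    k9)],[(k4,k9),(k9,k9),(k6,k12),(k7,k12)],[(k4,k9),(k9,k9),(k6,k12),(k7,k12)],[(k4,k6),(k9,k6),(k6,k9),(k7,k9)],
    [(k11,k6)],[(k8,k6)],[(k1,k6)]]
    [] k0
    [[k0,k2,k0,k0,k0,k0]]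
    [.contra [z1]])]⟩

/-- classes `0 0 1 1 2 3`, types `B0 B1 S0 S0 C0 S0` -/
noncomputable def cU6_1214 : CertX :=
  ⟨[k8,k9,k16,k16,k36,k48],[],[[[]]],
    [.old (.lp [k6,k8,k6,k12,k6,k6] [k3,k3,k2,k2,k3,k3,k0,k0,k3,k3,k3,k3] k0 [] k24 k5
    [[(k1,k6),(k10,k6)],[(k5,k6),(k2,k7)],[(k5,k7),(k2,k8)],[(k0,k7),(k3,k8)],[(k0,k6),(k3,k7)],[(k4,k6),(k9,k6),(k6,
    k9),(k7,k9)],[(k4,k9),(k9,k9),(k6,k12),(k7,k12)],[(k4,k9),(k9,k9),(k6,k12),(k7,k12)],[(k4,k6),(k9,k6),(k6,k9),(k7,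
    k9)],[(k11,k6)],[(k8,k6)],[(k1,k6),(k10,k6)]]
    [] k0
    [[k0,k2,k0,k0,k0,k0]]
    [.contra [z1]])]⟩

/-- classes `0 0 1 1 2 3`, types `B0 B1 S0 S0 S0 C0` -/
noncomputable def cU6_1215 : CertX :=
  ⟨[k8,k9,k16,k16,k32,k52],[],[[[]]],
    [.old (.lp [k6,k8,k6,k8,k12,k6] [k3,k3,k2,k2,k3,k3,k2,k2,k0,k0,k3,k3] k0 [] k24 k5
    [[(k10,k6)],[(k5,k6),(k2,k7)],[(k5,k7),(k2,k8)],[(k0,k7),(k3,k8)],[(k0,k6),(k3,k7)],[(k4,k6),(k6,k7),(k7,k7),(k9,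
    k9)],[(k4,k7),(k6,k8),(k7,k8),(k9,k10)],[(k4,k7),(k6,k8),(k7,k8),(k9,k10)],[(k4,k9),(k6,k10),(k7,k10),(k9,k12)],
    [(k11,k9),(k8,k12)],[(k11,k6),(k8,k9)],[(k1,k6)]]
    [] k0
    [[k0,k2,k0,k0,k0,k0],[k0,k0,k0,k2,k0,k0]]
    [.contra [z1],.contra [z1]])]⟩

/-- classes `0 0 1 1 2 3`, types `B0 B1 S0 S0 S0 S0` -/
noncomputable def cU6_1216 : CertX :=
  ⟨[k8,k9,k16,k16,k32,k48],[],[[[]]],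
    [.old (.lp [k114,k152,k114,k152,k144,(nat_lit 228)] [k57,k57,k38,k38,k57,k57,k38,k38,k42,k42,k0,k0] k0 [[],[],[],[],
    [k0,k0,k0,k0,k0,k0,k0,k19],[],[k0,k0,k0,k0,k0,k19]] (nat_lit 456) k5
    [[(k1,k114),(k10,k171)],[(k5,k114),(k2,k133)],[(k5,k133),(k2,k152)],[(k0,k133),(k3,k152)],[(k0,k114),(k3,k133)],
    [(k4,k114),(k6,k114),(k9,k129),(k7,k133)],[(k4,k133),(k6,k152),(k7,k152),(k9,k167)],[(k4,k114),(k9,k148),(k6,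
    k152),(k7,k152)],[(k4,k129),(k9,k144),(k6,k148),(k7,k167)],[(k8,k144),(k11,k186)],[(k8,k186),(k11,(nat_lit 228))],
    [(k1,k171),(k10,(nat_lit 228))]]
    [] k0
    [[k0,k2,k0,k0,k0,k0],[k0,k0,k0,k2,k0,k0],[k0,k0,k0,k0,k2,k0]]
    [.contra [z1],.contra [z1],.contra [z1]])]⟩

/-- classes `0 0 1 1 2 3`, types `C0 C0 C0 C0 C0 C0` -/
noncomputable def cU6_1217 : CertX :=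
  ⟨[k4,k4,k20,k20,k36,k52],[],[[[]]],
    [.old (.lp [k4,k6,k2,k4,k4,k2] [k1,k1,k0,k0,k2,k2,k1,k1,k1,k1,k2,k2] k0 [] k12 k5
    [[(k10,k3)],[(k5,k3),(k3,k5)],[(k0,k5),(k2,k6)],[(k5,k4),(k3,k6)],[(k0,k3),(k2,k4)],[(k7,k3),(k9,k3)],[(k4,k3),
    (k6,k4)],[(k7,k4),(k9,k4)],[(k4,k3),(k6,k4)],[(k11,k3)],[(k8,k3)],[(k1,k3)]]
    [] k0
    [[k0,k0,k0,k2,k0,k0]]
    [.contra [z1]])]⟩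

/-- classes `0 0 1 1 2 3`, types `C0 C0 C0 C0 C0 S0` -/
noncomputable def cU6_1218 : CertX :=
  ⟨[k4,k4,k20,k20,k36,k48],[],[[[]]],
    [.old (.lp [k6,k8,k6,k12,k6,k6] [k3,k3,k2,k2,k3,k3,k0,k0,k3,k3,k3,k3] k0 [] k24 k5
    [[(k1,k6),(k10,k6)],[(k5,k6),(k3,k7)],[(k0,k7),(k2,k8)],[(k5,k7),(k3,k8)],[(k0,k6),(k2,k7)],[(k9,k6),(k7,k9)],
    [(k4,k9),(k6,k12)],[(k9,k9),(k7,k12)],[(k4,k6),(k6,k9)],[(k11,k6)],[(k8,k6)],[(k1,k6),(k10,k6)]]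
    [] k0
    [[k0,k2,k0,k0,k0,k0]]
    [.contra [z1]])]⟩

/-- classes `0 0 1 1 2 3`, types `C0 C0 C0 C0 S0 S0` -/
noncomputable def cU6_1219 : CertX :=
  ⟨[k4,k4,k20,k20,k32,k48],[],[[[]]],
    [.old (.lp [k6,k12,k6,k8,k6,k6] [k3,k3,k0,k0,k3,k3,k2,k2,k3,k3,k3,k3] k0 [] k24 k5
    [[(k1,k6),(k10,k6)],[(k5,k6),(k3,k9)],[(k0,k9),(k2,k12)],[(k5,k9),(k3,k12)],[(k0,k6),(k2,k9)],[(k9,k6),(k7,k7)],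
    [(k4,k7),(k6,k8)],[(k9,k7),(k7,k8)],[(k4,k6),(k6,k7)],[(k8,k6),(k11,k6)],[(k8,k6),(k11,k6)],[(k1,k6),(k10,k6)]]
    [] k0
    [[k0,k0,k0,k2,k0,k0],[k0,k0,k0,k0,k0,k2]]
    [.contra [z1],.contra [z1]])]⟩

/-- classes `0 0 1 1 2 3`, types `C0 C0 C0 C2 C0 C0` -/
noncomputable def cU6_1220 : CertX :=
  ⟨[k4,k4,k20,k22,k36,k52],[],[[[]]],
    [.old (.lp [k2,k4,k2,k2,k2,k2] [k1,k1,k0,k0,k1,k1,k1,k1,k1,k1,k1,k1] k0 [] k8 k5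
    [[(k10,k2)],[(k5,k2),(k3,k3)],[(k0,k3),(k2,k4)],[(k5,k3),(k3,k4)],[(k0,k2),(k2,k3)],[(k6,k2),(k7,k2)],[(k4,k2),
    (k9,k2)],[(k4,k2),(k9,k2)],[(k6,k2),(k7,k2)],[(k11,k2)],[(k8,k2)],[(k1,k2)]]
    [] k0
    []
    [])]⟩

/-- classes `0 0 1 1 2 3`, types `C0 C0 C0 C2 C0 S0` -/
noncomputable def cU6_1221 : CertX :=
  ⟨[k4,k4,k20,k22,k36,k48],[],[[[]]],
    [.old (.lp [k2,k4,k2,k2,k2,k2] [k1,k1,k0,k0,k1,k1,k1,k1,k1,k1,k1,k1] k0 [] k8 k5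
    [[(k1,k2),(k10,k2)],[(k5,k2),(k3,k3)],[(k0,k3),(k2,k4)],[(k5,k3),(k3,k4)],[(k0,k2),(k2,k3)],[(k6,k2),(k7,k2)],
    [(k4,k2),(k9,k2)],[(k4,k2),(k9,k2)],[(k6,k2),(k7,k2)],[(k11,k2)],[(k8,k2)],[(k1,k2),(k10,k2)]]
    [] k0
    []
    [])]⟩

/-- classes `0 0 1 1 2 3`, types `C0 C0 C0 C2 S0 C0` -/
noncomputable def cU6_1222 : CertX :=
  ⟨[k4,k4,k20,k22,k32,k52],[],[[[]]],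
    [.old (.lp [k4,k8,k4,k4,k6,k4] [k2,k2,k0,k0,k2,k2,k2,k2,k1,k1,k2,k2] k0 [] k16 k5
    [[(k10,k4)],[(k5,k4),(k3,k6)],[(k0,k6),(k2,k8)],[(k5,k6),(k3,k8)],[(k0,k4),(k2,k6)],[(k6,k4),(k7,k4)],[(k4,k4),
    (k9,k5)],[(k4,k4),(k9,k5)],[(k6,k5),(k7,k5)],[(k11,k5),(k8,k6)],[(k11,k4),(k8,k5)],[(k1,k4)]]
    [] k0
    []
    [])]⟩

/-- classes `0 0 1 1 2 3`, types `C0 C0 C0 C2 S0 S0` -/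
noncomputable def cU6_1223 : CertX :=
  ⟨[k4,k4,k20,k22,k32,k48],[],[[[]]],
    [.old (.lp [k4,k8,k4,k4,k6,k4] [k2,k2,k0,k0,k2,k2,k2,k2,k1,k1,k2,k2] k0 [] k16 k5
    [[(k1,k4),(k10,k4)],[(k5,k4),(k3,k6)],[(k0,k6),(k2,k8)],[(k5,k6),(k3,k8)],[(k0,k4),(k2,k6)],[(k6,k4),(k7,k4)],
    [(k4,k4),(k9,k5)],[(k4,k4),(k9,k5)],[(k6,k5),(k7,k5)],[(k11,k5),(k8,k6)],[(k11,k4),(k8,k5)],[(k1,k4),(k10,k4)]]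
    [] k0
    [[k0,k0,k0,k0,k0,k2]]
    [.contra [z1]])]⟩

/-- classes `0 0 1 1 2 3`, types `C0 C0 N0 N1 C0 C0` -/
noncomputable def cU6_1224 : CertX :=
  ⟨[k4,k4,k28,k29,k36,k52],[],[[[]]],
    [.old (.lp [k6,k6,k0,k4,k6,k0] [k0,k0,k0,k0,k3,k3,k1,k1,k0,k0,k3,k3] k0 [] k12 k5
    [[(k10,k3)],[(k5,k3),(k3,k6)],[(k0,k6),(k2,k6)],[(k5,k3),(k3,k6)],[(k0,k3),(k2,k3)],[(k9,k3)],[(k6,k4)],[(k7,k4)],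
    [(k4,k3)],[(k11,k3)],[(k8,k3)],[(k1,k3)]]
    [] k0
    [[k0,k0,k0,k2,k0,k0]]
    [.contra [z1]])]⟩

/-- classes `0 0 1 1 2 3`, types `C0 C0 N0 N1 C0 S0` -/
noncomputable def cU6_1225 : CertX :=
  ⟨[k4,k4,k28,k29,k36,k48],[],[[[]]],
    [.old (.lp [k6,k8,k6,k12,k6,k6] [k3,k3,k2,k2,k3,k3,k0,k0,k3,k3,k3,k3] k0 [] k24 k5
    [[(k1,k6),(k10,k6)],[(k5,k6),(k3,k7)],[(k0,k7),(k2,k8)],[(k5,k7),(k3,k8)],[(k0,k6),(k2,k7)],[(k9,k6)],[(k6,k12)],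
    [(k7,k12)],[(k4,k6)],[(k11,k6)],[(k8,k6)],[(k1,k6),(k10,k6)]]
    [] k0
    [[k0,k2,k0,k0,k0,k0]]
    [.contra [z1]])]⟩

/-- classes `0 0 1 1 2 3`, types `C0 C0 N0 N1 S0 C0` -/
noncomputable def cU6_1226 : CertX :=
  ⟨[k4,k4,k28,k29,k32,k52],[],[[[]]],
    [.old (.lp [k6,k8,k6,k12,k6,k6] [k3,k3,k2,k2,k3,k3,k0,k0,k3,k3,k3,k3] k0 [] k24 k5
    [[(k10,k6)],[(k5,k6),(k3,k7)],[(k0,k7),(k2,k8)],[(k5,k7),(k3,k8)],[(k0,k6),(k2,k7)],[(k9,k6)],[(k6,k12)],[(k7,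
    k12)],[(k4,k6)],[(k8,k6),(k11,k6)],[(k8,k6),(k11,k6)],[(k1,k6)]]
    [] k0
    [[k0,k2,k0,k0,k0,k0]]
    [.contra [z1]])]⟩

/-- classes `0 0 1 1 2 3`, types `C0 C0 N0 N1 S0 S0` -/
noncomputable def cU6_1227 : CertX :=
  ⟨[k4,k4,k28,k29,k32,k48],[],[[[]]],
    [.old (.lp [k6,k12,k6,k8,k6,k6] [k3,k3,k0,k0,k3,k3,k2,k2,k3,k3,k3,k3] k0 [] k24 k5
    [[(k1,k6),(k10,k6)],[(k5,k6),(k3,k9)],[(k0,k9),(k2,k12)],[(k5,k9),(k3,k12)],[(k0,k6),(k2,k9)],[(k9,k6)],[(k6,k8)],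
    [(k7,k8)],[(k4,k6)],[(k8,k6),(k11,k6)],[(k8,k6),(k11,k6)],[(k1,k6),(k10,k6)]]
    [] k0
    [[k0,k0,k0,k2,k0,k0],[k0,k0,k0,k0,k0,k2]]
    [.contra [z1],.contra [z1]])]⟩

/-- classes `0 0 1 1 2 3`, types `C0 C0 N0 N2 C0 C0` -/
noncomputable def cU6_1228 : CertX :=
  ⟨[k4,k4,k28,k30,k36,k52],[],[[[]]],
    [.old (.lp [k2,k4,k2,k2,k2,k2] [k1,k1,k0,k0,k1,k1,k1,k1,k1,k1,k1,k1] k0 [] k8 k5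
    [[(k10,k2)],[(k5,k2),(k3,k3)],[(k0,k3),(k2,k4)],[(k5,k3),(k3,k4)],[(k0,k2),(k2,k3)],[(k6,k2)],[(k9,k2)],[(k4,k2)],
    [(k7,k2)],[(k11,k2)],[(k8,k2)],[(k1,k2)]]
    [] k0
    []
    [])]⟩

/-- classes `0 0 1 1 2 3`, types `C0 C0 N0 N2 C0 S0` -/
noncomputable def cU6_1229 : CertX :=
  ⟨[k4,k4,k28,k30,k36,k48],[],[[[]]],
    [.old (.lp [k2,k4,k2,k2,k2,k2] [k1,k1,k0,k0,k1,k1,k1,k1,k1,k1,k1,k1] k0 [] k8 k5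
    [[(k1,k2),(k10,k2)],[(k5,k2),(k3,k3)],[(k0,k3),(k2,k4)],[(k5,k3),(k3,k4)],[(k0,k2),(k2,k3)],[(k6,k2)],[(k9,k2)],
    [(k4,k2)],[(k7,k2)],[(k11,k2)],[(k8,k2)],[(k1,k2),(k10,k2)]]
    [] k0
    []
    [])]⟩

/-- classes `0 0 1 1 2 3`, types `C0 C0 N0 N2 S0 C0` -/
noncomputable def cU6_1230 : CertX :=
  ⟨[k4,k4,k28,k30,k32,k52],[],[[[]]],
    [.old (.lp [k2,k4,k2,k2,k2,k2] [k1,k1,k0,k0,k1,k1,k1,k1,k1,k1,k1,k1] k0 [] k8 k5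
    [[(k10,k2)],[(k5,k2),(k3,k3)],[(k0,k3),(k2,k4)],[(k5,k3),(k3,k4)],[(k0,k2),(k2,k3)],[(k6,k2)],[(k9,k2)],[(k4,k2)],
    [(k7,k2)],[(k8,k2),(k11,k2)],[(k8,k2),(k11,k2)],[(k1,k2)]]
    [] k0
    []
    [])]⟩

/-- classes `0 0 1 1 2 3`, types `C0 C0 N0 N2 S0 S0` -/
noncomputable def cU6_1231 : CertX :=
  ⟨[k4,k4,k28,k30,k32,k48],[],[[[]]],
    [.old (.lp [k2,k4,k2,k2,k2,k2] [k1,k1,k0,k0,k1,k1,k1,k1,k1,k1,k1,k1] k0 [] k8 k5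
    [[(k1,k2),(k10,k2)],[(k5,k2),(k3,k3)],[(k0,k3),(k2,k4)],[(k5,k3),(k3,k4)],[(k0,k2),(k2,k3)],[(k6,k2)],[(k9,k2)],
    [(k4,k2)],[(k7,k2)],[(k8,k2),(k11,k2)],[(k8,k2),(k11,k2)],[(k1,k2),(k10,k2)]]
    [] k0
    [[k0,k0,k0,k0,k0,k2]]
    [.contra [z1]])]⟩

/-- classes `0 0 1 1 2 3`, types `C0 C0 S0 S0 C0 C0` -/
noncomputable def cU6_1232 : CertX :=
  ⟨[k4,k4,k16,k16,k36,k52],[],[[[]]],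
    [.old (.lp [k6,k12,k6,k8,k6,k6] [k3,k3,k0,k0,k3,k3,k2,k2,k3,k3,k3,k3] k0 [] k24 k5
    [[(k10,k6)],[(k5,k6),(k3,k9)],[(k0,k9),(k2,k12)],[(k5,k9),(k3,k12)],[(k0,k6),(k2,k9)],[(k4,k6),(k9,k6),(k6,k7),
    (k7,k7)],[(k4,k7),(k9,k7),(k6,k8),(k7,k8)],[(k4,k7),(k9,k7),(k6,k8),(k7,k8)],[(k4,k6),(k9,k6),(k6,k7),(k7,k7)],
    [(k11,k6)],[(k8,k6)],[(k1,k6)]]
    [] k0
    [[k0,k0,k0,k2,k0,k0]]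
    [.contra [z1]])]⟩

/-- classes `0 0 1 1 2 3`, types `C0 C0 S0 S0 C0 S0` -/
noncomputable def cU6_1233 : CertX :=
  ⟨[k4,k4,k16,k16,k36,k48],[],[[[]]],
    [.old (.lp [k6,k8,k6,k12,k6,k6] [k3,k3,k2,k2,k3,k3,k0,k0,k3,k3,k3,k3] k0 [] k24 k5
    [[(k1,k6),(k10,k6)],[(k5,k6),(k3,k7)],[(k0,k7),(k2,k8)],[(k5,k7),(k3,k8)],[(k0,k6),(k2,k7)],[(k4,k6),(k9,k6),(k6,
    k9),(k7,k9)],[(k4,k9),(k9,k9),(k6,k12),(k7,k12)],[(k4,k9),(k9,k9),(k6,k12),(k7,k12)],[(k4,k6),(k9,k6),(k6,k9),(k7,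
    k9)],[(k11,k6)],[(k8,k6)],[(k1,k6),(k10,k6)]]
    [] k0
    [[k0,k2,k0,k0,k0,k0]]
    [.contra [z1]])]⟩

/-- classes `0 0 1 1 2 3`, types `C0 C0 S0 S0 S0 C0` -/
noncomputable def cU6_1234 : CertX :=
  ⟨[k4,k4,k16,k16,k32,k52],[],[[[]]],
    [.old (.lp [k6,k8,k6,k12,k6,k6] [k3,k3,k2,k2,k3,k3,k0,k0,k3,k3,k3,k3] k0 [] k24 k5
    [[(k10,k6)],[(k5,k6),(k3,k7)],[(k0,k7),(k2,k8)],[(k5,k7),(k3,k8)],[(k0,k6),(k2,k7)],[(k4,k6),(k9,k6),(k6,k9),(k7,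
    k9)],[(k4,k9),(k9,k9),(k6,k12),(k7,k12)],[(k4,k9),(k9,k9),(k6,k12),(k7,k12)],[(k4,k6),(k9,k6),(k6,k9),(k7,k9)],
    [(k8,k6),(k11,k6)],[(k8,k6),(k11,k6)],[(k1,k6)]]
    [] k0
    [[k0,k2,k0,k0,k0,k0],[k0,k0,k0,k0,k2,k0]]
    [.contra [z1],.contra [z1]])]⟩

/-- classes `0 0 1 1 2 3`, types `C0 C0 S0 S0 S0 S0` -/
noncomputable def cU6_1235 : CertX :=
  ⟨[k4,k4,k16,k16,k32,k48],[],[[[]]],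
    [.old (.lp [k114,k152,k114,k152,k144,(nat_lit 228)] [k57,k57,k38,k38,k57,k57,k38,k38,k42,k42,k0,k0] k0 [[],[],[],[],
    [k0,k0,k0,k0,k0,k0,k0,k19],[],[k0,k0,k0,k0,k0,k19]] (nat_lit 456) k5
    [[(k1,k114),(k10,k171)],[(k5,k114),(k3,k133)],[(k0,k133),(k2,k152)],[(k5,k133),(k3,k152)],[(k0,k114),(k2,k133)],
    [(k4,k114),(k6,k114),(k9,k129),(k7,k133)],[(k4,k133),(k6,k152),(k7,k152),(k9,k167)],[(k4,k114),(k9,k148),(k6,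
    k152),(k7,k152)],[(k4,k129),(k9,k144),(k6,k148),(k7,k167)],[(k8,k144),(k11,k186)],[(k8,k186),(k11,(nat_lit 228))],
    [(k1,k171),(k10,(nat_lit 228))]]
    [] k0
    [[k0,k2,k0,k0,k0,k0],[k0,k0,k0,k2,k0,k0],[k0,k0,k0,k0,k2,k0]]
    [.contra [z1],.contra [z1],.contra [z1]])]⟩

/-- classes `0 0 1 1 2 3`, types `C0 C2 C0 C2 C0 C0` -/
noncomputable def cU6_1236 : CertX :=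
  ⟨[k4,k6,k20,k22,k36,k52],[],[[[]]],
    [.old (.lp [k0,k2,k0,k2,k0,k2] [k1,k1,k0,k0,k1,k1,k0,k0,k1,k1,k0,k0] k0 [] k4 k5
    [[(k10,k1)],[(k2,k1),(k3,k1)],[(k0,k1),(k5,k1)],[(k0,k1),(k5,k1)],[(k2,k1),(k3,k1)],[(k6,k1),(k7,k1)],[(k4,k1),
    (k9,k1)],[(k4,k1),(k9,k1)],[(k6,k1),(k7,k1)],[(k11,k1)],[(k8,k1)],[(k1,k1)]]
    [] k0
    []
    [])]⟩

/-- classes `0 0 1 1 2 3`, types `C0 C2 C0 C2 C0 S0` -/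
noncomputable def cU6_1237 : CertX :=
  ⟨[k4,k6,k20,k22,k36,k48],[],[[[]]],
    [.old (.lp [k6,k4,k4,k4,k4,k4] [k0,k0,k1,k1,k1,k1,k1,k1,k1,k1,k1,k1] k0 [] k16 k5
    [[(k10,k5),(k1,k6)],[(k2,k5),(k3,k5)],[(k5,k4),(k0,k5)],[(k5,k4),(k0,k5)],[(k2,k4),(k3,k4)],[(k6,k4),(k7,k4)],
    [(k4,k4),(k9,k4)],[(k4,k4),(k9,k4)],[(k6,k4),(k7,k4)],[(k11,k4)],[(k8,k4)],[(k10,k4),(k1,k5)]]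
    [] k0
    []
    [])]⟩

/-- classes `0 0 1 1 2 3`, types `C0 C2 C0 C2 S0 S0` -/
noncomputable def cU6_1238 : CertX :=
  ⟨[k4,k6,k20,k22,k32,k48],[],[[[]]],
    [.old (.lp [k2,k4,k0,k4,k2,k2] [k1,k1,k0,k0,k2,k2,k0,k0,k1,k1,k1,k1] k0 [] k8 k5
    [[(k1,k2),(k10,k2)],[(k2,k3),(k3,k3)],[(k5,k2),(k0,k3)],[(k5,k2),(k0,k3)],[(k2,k2),(k3,k2)],[(k6,k2),(k7,k2)],
    [(k4,k2),(k9,k3)],[(k4,k2),(k9,k3)],[(k6,k3),(k7,k3)],[(k8,k2),(k11,k2)],[(k8,k2),(k11,k2)],[(k1,k2),(k10,k2)]]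
    [] k0
    [[k0,k0,k0,k0,k0,k2]]
    [.contra [z1]])]⟩

/-- classes `0 0 1 1 2 3`, types `C0 C2 N0 N1 C0 C0` -/
noncomputable def cU6_1239 : CertX :=
  ⟨[k4,k6,k28,k29,k36,k52],[],[[[]]],
    [.old (.lp [k2,k2,k2,k4,k2,k2] [k1,k1,k1,k1,k1,k1,k0,k0,k1,k1,k1,k1] k0 [] k8 k5
    [[(k10,k2)],[(k2,k2),(k3,k2)],[(k0,k2),(k5,k2)],[(k0,k2),(k5,k2)],[(k2,k2),(k3,k2)],[(k9,k2)],[(k6,k4)],[(k7,k4)],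
    [(k4,k2)],[(k11,k2)],[(k8,k2)],[(k1,k2)]]
    [] k0
    []
    [])]⟩

/-- classes `0 0 1 1 2 3`, types `C0 C2 N0 N1 C0 S0` -/
noncomputable def cU6_1240 : CertX :=
  ⟨[k4,k6,k28,k29,k36,k48],[],[[[]]],
    [.old (.lp [k6,k4,k4,k8,k4,k4] [k1,k1,k2,k2,k2,k2,k0,k0,k2,k2,k2,k2] k0 [] k16 k5
    [[(k10,k5),(k1,k6)],[(k2,k5),(k3,k5)],[(k5,k4),(k0,k5)],[(k5,k4),(k0,k5)],[(k2,k4),(k3,k4)],[(k9,k4)],[(k6,k8)],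
    [(k7,k8)],[(k4,k4)],[(k11,k4)],[(k8,k4)],[(k10,k4),(k1,k5)]]
    [] k0
    []
    [])]⟩

/-- classes `0 0 1 1 2 3`, types `C0 C2 N0 N1 S0 C0` -/
noncomputable def cU6_1241 : CertX :=
  ⟨[k4,k6,k28,k29,k32,k52],[],[[[]]],
    [.old (.lp [k2,k2,k2,k4,k2,k2] [k1,k1,k1,k1,k1,k1,k0,k0,k1,k1,k1,k1] k0 [] k8 k5
    [[(k10,k2)],[(k2,k2),(k3,k2)],[(k0,k2),(k5,k2)],[(k0,k2),(k5,k2)],[(k2,k2),(k3,k2)],[(k9,k2)],[(k6,k4)],[(k7,k4)],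
    [(k4,k2)],[(k8,k2),(k11,k2)],[(k8,k2),(k11,k2)],[(k1,k2)]]
    [] k0
    []
    [])]⟩

/-- classes `0 0 1 1 2 3`, types `C0 C2 N0 N1 S0 S0` -/
noncomputable def cU6_1242 : CertX :=
  ⟨[k4,k6,k28,k29,k32,k48],[],[[[]]],
    [.old (.lp [k6,k4,k4,k8,k4,k4] [k1,k1,k2,k2,k2,k2,k0,k0,k2,k2,k2,k2] k0 [] k16 k5
    [[(k10,k5),(k1,k6)],[(k2,k5),(k3,k5)],[(k5,k4),(k0,k5)],[(k5,k4),(k0,k5)],[(k2,k4),(k3,k4)],[(k9,k4)],[(k6,k8)],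
    [(k7,k8)],[(k4,k4)],[(k8,k4),(k11,k4)],[(k8,k4),(k11,k4)],[(k10,k4),(k1,k5)]]
    [] k0
    [[k0,k0,k0,k0,k0,k2]]
    [.contra [z1]])]⟩

/-- classes `0 0 1 1 2 3`, types `C0 C2 N0 N2 C0 C0` -/
noncomputable def cU6_1243 : CertX :=
  ⟨[k4,k6,k28,k30,k36,k52],[],[[[]]],
    [.old (.lp [k0,k2,k0,k2,k0,k2] [k1,k1,k0,k0,k1,k1,k0,k0,k1,k1,k0,k0] k0 [] k4 k5
    [[(k10,k1)],[(k2,k1),(k3,k1)],[(k0,k1),(k5,k1)],[(k0,k1),(k5,k1)],[(k2,k1),(k3,k1)],[(k6,k1)],[(k9,k1)],[(k4,k1)],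
    [(k7,k1)],[(k11,k1)],[(k8,k1)],[(k1,k1)]]
    [] k0
    []
    [])]⟩

/-- classes `0 0 1 1 2 3`, types `C0 C2 N0 N2 C0 S0` -/
noncomputable def cU6_1244 : CertX :=
  ⟨[k4,k6,k28,k30,k36,k48],[],[[[]]],
    [.old (.lp [k6,k4,k4,k4,k4,k4] [k0,k0,k1,k1,k1,k1,k1,k1,k1,k1,k1,k1] k0 [] k16 k5
    [[(k10,k5),(k1,k6)],[(k2,k5),(k3,k5)],[(k5,k4),(k0,k5)],[(k5,k4),(k0,k5)],[(k2,k4),(k3,k4)],[(k6,k4)],[(k9,k4)],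
    [(k4,k4)],[(k7,k4)],[(k11,k4)],[(k8,k4)],[(k10,k4),(k1,k5)]]
    [] k0
    []
    [])]⟩

/-- classes `0 0 1 1 2 3`, types `C0 C2 N0 N2 S0 C0` -/
noncomputable def cU6_1245 : CertX :=
  ⟨[k4,k6,k28,k30,k32,k52],[],[[[]]],
    [.old (.lp [k2,k2,k2,k2,k2,k2] [k0,k0,k0,k0,k0,k0,k0,k0,k0,k0,k0,k0] k0 [] k8 k5
    [[(k10,k2)],[(k2,k2),(k3,k2)],[(k0,k2),(k5,k2)],[(k0,k2),(k5,k2)],[(k2,k2),(k3,k2)],[(k6,k2)],[(k9,k2)],[(k4,k2)],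
    [(k7,k2)],[(k8,k2),(k11,k2)],[(k8,k2),(k11,k2)],[(k1,k2)]]
    [] k0
    []
    [])]⟩

/-- classes `0 0 1 1 2 3`, types `C0 C2 N0 N2 S0 S0` -/
noncomputable def cU6_1246 : CertX :=
  ⟨[k4,k6,k28,k30,k32,k48],[],[[[]]],
    [.old (.lp [k6,k4,k4,k4,k4,k8] [k1,k1,k2,k2,k2,k2,k2,k2,k2,k2,k0,k0] k0 [] k16 k5
    [[(k1,k6),(k10,k7)],[(k2,k5),(k3,k5)],[(k5,k4),(k0,k5)],[(k5,k4),(k0,k5)],[(k2,k4),(k3,k4)],[(k6,k4)],[(k9,k4)],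
    [(k4,k4)],[(k7,k4)],[(k8,k4),(k11,k6)],[(k8,k6),(k11,k8)],[(k1,k7),(k10,k8)]]
    [] k0
    []
    [])]⟩

/-- classes `0 0 1 1 2 3`, types `C0 C2 S0 S0 C0 C0` -/
noncomputable def cU6_1247 : CertX :=
  ⟨[k4,k6,k16,k16,k36,k52],[],[[[]]],
    [.old (.lp [k4,k4,k6,k8,k4,k4] [k2,k2,k2,k2,k1,k1,k0,k0,k2,k2,k2,k2] k0 [] k16 k5
    [[(k10,k4)],[(k2,k4),(k3,k4)],[(k0,k4),(k5,k5)],[(k0,k4),(k5,k5)],[(k2,k5),(k3,k5)],[(k9,k5),(k4,k6),(k6,k7),(k7,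
    k7)],[(k9,k6),(k4,k7),(k6,k8),(k7,k8)],[(k9,k6),(k4,k7),(k6,k8),(k7,k8)],[(k9,k4),(k4,k5),(k6,k6),(k7,k6)],[(k11,
    k4)],[(k8,k4)],[(k1,k4)]]
    [] k0
    []
    [])]⟩

/-- classes `0 0 1 1 2 3`, types `C0 C2 S0 S0 C0 S0` -/
noncomputable def cU6_1248 : CertX :=
  ⟨[k4,k6,k16,k16,k36,k48],[],[[[]]],
    [.old (.lp [k6,k12,k6,k8,k6,k6] [k3,k3,k0,k0,k3,k3,k2,k2,k3,k3,k3,k3] k0 [] k24 k5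
    [[(k1,k6),(k10,k6)],[(k2,k9),(k3,k9)],[(k0,k9),(k5,k9)],[(k0,k9),(k5,k9)],[(k2,k9),(k3,k9)],[(k4,k6),(k9,k6),(k6,
    k7),(k7,k7)],[(k4,k7),(k9,k7),(k6,k8),(k7,k8)],[(k4,k7),(k9,k7),(k6,k8),(k7,k8)],[(k4,k6),(k9,k6),(k6,k7),(k7,
    k7)],[(k11,k6)],[(k8,k6)],[(k1,k6),(k10,k6)]]
    [] k0
    [[k0,k0,k0,k2,k0,k0]]
    [.contra [z1]])]⟩

/-- classes `0 0 1 1 2 3`, types `C0 C2 S0 S0 S0 C0` -/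
noncomputable def cU6_1249 : CertX :=
  ⟨[k4,k6,k16,k16,k32,k52],[],[[[]]],
    [.old (.lp [k4,k4,k6,k8,k4,k4] [k2,k2,k2,k2,k1,k1,k0,k0,k2,k2,k2,k2] k0 [] k16 k5
    [[(k10,k4)],[(k2,k4),(k3,k4)],[(k0,k4),(k5,k5)],[(k0,k4),(k5,k5)],[(k2,k5),(k3,k5)],[(k9,k5),(k4,k6),(k6,k7),(k7,
    k7)],[(k9,k6),(k4,k7),(k6,k8),(k7,k8)],[(k9,k6),(k4,k7),(k6,k8),(k7,k8)],[(k9,k4),(k4,k5),(k6,k6),(k7,k6)],[(k8,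
    k4),(k11,k4)],[(k8,k4),(k11,k4)],[(k1,k4)]]
    [] k0
    [[k0,k0,k0,k0,k2,k0]]
    [.contra [z1]])]⟩

/-- classes `0 0 1 1 2 3`, types `C0 C2 S0 S0 S0 S0` -/
noncomputable def cU6_1250 : CertX :=
  ⟨[k4,k6,k16,k16,k32,k48],[],[[[]]],
    [.old (.lp [k12,k0,k12,k8,k6,k6] [k0,k0,k6,k6,k0,k0,k2,k2,k3,k3,k3,k3] k0 [[],[],[],[],[k0,k0,k0,k0,k0,k0,k0,k4],[],
    [k0,k0,k0,k0,k0,k4]] k24 k5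
    [[(k10,k9),(k1,k12)],[(k2,k6),(k3,k6)],[(k0,k6),(k5,k6)],[(k0,k6),(k5,k6)],[(k2,k6),(k3,k6)],[(k6,k6),(k9,k9),(k7,
    k10),(k4,k12)],[(k6,k8),(k7,k8),(k4,k10),(k9,k11)],[(k4,k6),(k9,k7),(k6,k8),(k7,k8)],[(k9,k6),(k6,k7),(k4,k9),(k7,
    k11)],[(k8,k6),(k11,k6)],[(k8,k6),(k11,k6)],[(k10,k6),(k1,k9)]]
    [] k0
    [[k0,k0,k0,k2,k0,k0],[k0,k0,k0,k0,k2,k0],[k0,k0,k0,k0,k0,k2]]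
    [.contra [z1],.contra [z1],.contra [z1]])]⟩

/-- classes `0 0 1 1 2 3`, types `N0 N1 N0 N1 C0 C0` -/
noncomputable def cU6_1251 : CertX :=
  ⟨[k12,k13,k28,k29,k36,k52],[],[[[]]],
    [.old (.lp [k6,k6,k0,k4,k6,k0] [k0,k0,k0,k0,k3,k3,k1,k1,k0,k0,k3,k3] k0 [] k12 k5
    [[(k10,k3)],[(k5,k3)],[(k2,k6)],[(k3,k6)],[(k0,k3)],[(k9,k3)],[(k6,k4)],[(k7,k4)],[(k4,k3)],[(k11,k3)],[(k8,k3)],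
    [(k1,k3)]]
    [] k0
    [[k0,k0,k0,k2,k0,k0]]
    [.contra [z1]])]⟩

/-- classes `0 0 1 1 2 3`, types `N0 N1 N0 N1 C0 S0` -/
noncomputable def cU6_1252 : CertX :=
  ⟨[k12,k13,k28,k29,k36,k48],[],[[[]]],
    [.old (.lp [k6,k8,k6,k12,k6,k6] [k3,k3,k2,k2,k3,k3,k0,k0,k3,k3,k3,k3] k0 [] k24 k5
    [[(k1,k6),(k10,k6)],[(k5,k6)],[(k2,k8)],[(k3,k8)],[(k0,k6)],[(k9,k6)],[(k6,k12)],[(k7,k12)],[(k4,k6)],[(k11,k6)],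
    [(k8,k6)],[(k1,k6),(k10,k6)]]
    [] k0
    [[k0,k2,k0,k0,k0,k0]]
    [.contra [z1]])]⟩

/-- classes `0 0 1 1 2 3`, types `N0 N1 N0 N1 S0 S0` -/
noncomputable def cU6_1253 : CertX :=
  ⟨[k12,k13,k28,k29,k32,k48],[],[[[]]],
    [.old (.lp [k6,k12,k6,k8,k6,k6] [k3,k3,k0,k0,k3,k3,k2,k2,k3,k3,k3,k3] k0 [] k24 k5
    [[(k1,k6),(k10,k6)],[(k5,k6)],[(k2,k12)],[(k3,k12)],[(k0,k6)],[(k9,k6)],[(k6,k8)],[(k7,k8)],[(k4,k6)],[(k8,k6),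
    (k11,k6)],[(k8,k6),(k11,k6)],[(k1,k6),(k10,k6)]]
    [] k0
    [[k0,k0,k0,k2,k0,k0],[k0,k0,k0,k0,k0,k2]]
    [.contra [z1],.contra [z1]])]⟩

/-- classes `0 0 1 1 2 3`, types `N0 N1 N0 N2 C0 C0` -/
noncomputable def cU6_1254 : CertX :=
  ⟨[k12,k13,k28,k30,k36,k52],[],[[[]]],
    [.old (.lp [k2,k4,k2,k2,k2,k2] [k1,k1,k0,k0,k1,k1,k1,k1,k1,k1,k1,k1] k0 [] k8 k5
    [[(k10,k2)],[(k5,k2)],[(k2,k4)],[(k3,k4)],[(k0,k2)],[(k6,k2)],[(k9,k2)],[(k4,k2)],[(k7,k2)],[(k11,k2)],[(k8,k2)],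
    [(k1,k2)]]
    [] k0
    []
    [])]⟩

/-- classes `0 0 1 1 2 3`, types `N0 N1 N0 N2 C0 S0` -/
noncomputable def cU6_1255 : CertX :=
  ⟨[k12,k13,k28,k30,k36,k48],[],[[[]]],
    [.old (.lp [k2,k4,k2,k2,k2,k2] [k1,k1,k0,k0,k1,k1,k1,k1,k1,k1,k1,k1] k0 [] k8 k5
    [[(k1,k2),(k10,k2)],[(k5,k2)],[(k2,k4)],[(k3,k4)],[(k0,k2)],[(k6,k2)],[(k9,k2)],[(k4,k2)],[(k7,k2)],[(k11,k2)],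
    [(k8,k2)],[(k1,k2),(k10,k2)]]
    [] k0
    []
    [])]⟩

/-- classes `0 0 1 1 2 3`, types `N0 N1 N0 N2 S0 C0` -/
noncomputable def cU6_1256 : CertX :=
  ⟨[k12,k13,k28,k30,k32,k52],[],[[[]]],
    [.old (.lp [k2,k4,k2,k2,k2,k2] [k1,k1,k0,k0,k1,k1,k1,k1,k1,k1,k1,k1] k0 [] k8 k5
    [[(k10,k2)],[(k5,k2)],[(k2,k4)],[(k3,k4)],[(k0,k2)],[(k6,k2)],[(k9,k2)],[(k4,k2)],[(k7,k2)],[(k8,k2),(k11,k2)],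
    [(k8,k2),(k11,k2)],[(k1,k2)]]
    [] k0
    []
    [])]⟩

/-- classes `0 0 1 1 2 3`, types `N0 N1 N0 N2 S0 S0` -/
noncomputable def cU6_1257 : CertX :=
  ⟨[k12,k13,k28,k30,k32,k48],[],[[[]]],
    [.old (.lp [k2,k4,k2,k2,k2,k2] [k1,k1,k0,k0,k1,k1,k1,k1,k1,k1,k1,k1] k0 [] k8 k5
    [[(k1,k2),(k10,k2)],[(k5,k2)],[(k2,k4)],[(k3,k4)],[(k0,k2)],[(k6,k2)],[(k9,k2)],[(k4,k2)],[(k7,k2)],[(k8,k2),(k11,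
    k2)],[(k8,k2),(k11,k2)],[(k1,k2),(k10,k2)]]
    [] k0
    [[k0,k0,k0,k0,k0,k2]]
    [.contra [z1]])]⟩

/-- classes `0 0 1 1 2 3`, types `N0 N1 S0 S0 C0 C0` -/
noncomputable def cU6_1258 : CertX :=
  ⟨[k12,k13,k16,k16,k36,k52],[],[[[]]],
    [.old (.lp [k6,k12,k6,k8,k6,k6] [k3,k3,k0,k0,k3,k3,k2,k2,k3,k3,k3,k3] k0 [] k24 k5
    [[(k10,k6)],[(k5,k6)],[(k2,k12)],[(k3,k12)],[(k0,k6)],[(k4,k6),(k9,k6),(k6,k7),(k7,k7)],[(k4,k7),(k9,k7),(k6,k8),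
    (k7,k8)],[(k4,k7),(k9,k7),(k6,k8),(k7,k8)],[(k4,k6),(k9,k6),(k6,k7),(k7,k7)],[(k11,k6)],[(k8,k6)],[(k1,k6)]]
    [] k0
    [[k0,k0,k0,k2,k0,k0]]
    [.contra [z1]])]⟩

/-- classes `0 0 1 1 2 3`, types `N0 N1 S0 S0 C0 S0` -/
noncomputable def cU6_1259 : CertX :=
  ⟨[k12,k13,k16,k16,k36,k48],[],[[[]]],
    [.old (.lp [k6,k8,k6,k12,k6,k6] [k3,k3,k2,k2,k3,k3,k0,k0,k3,k3,k3,k3] k0 [] k24 k5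
    [[(k1,k6),(k10,k6)],[(k5,k6)],[(k2,k8)],[(k3,k8)],[(k0,k6)],[(k4,k6),(k9,k6),(k6,k9),(k7,k9)],[(k4,k9),(k9,k9),
    (k6,k12),(k7,k12)],[(k4,k9),(k9,k9),(k6,k12),(k7,k12)],[(k4,k6),(k9,k6),(k6,k9),(k7,k9)],[(k11,k6)],[(k8,k6)],
    [(k1,k6),(k10,k6)]]
    [] k0
    [[k0,k2,k0,k0,k0,k0]]
    [.contra [z1]])]⟩

/-- classes `0 0 1 1 2 3`, types `N0 N1 S0 S0 S0 C0` -/
noncomputable def cU6_1260 : CertX :=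
  ⟨[k12,k13,k16,k16,k32,k52],[],[[[]]],
    [.old (.lp [k6,k8,k6,k12,k6,k6] [k3,k3,k2,k2,k3,k3,k0,k0,k3,k3,k3,k3] k0 [] k24 k5
    [[(k10,k6)],[(k5,k6)],[(k2,k8)],[(k3,k8)],[(k0,k6)],[(k4,k6),(k9,k6),(k6,k9),(k7,k9)],[(k4,k9),(k9,k9),(k6,k12),
    (k7,k12)],[(k4,k9),(k9,k9),(k6,k12),(k7,k12)],[(k4,k6),(k9,k6),(k6,k9),(k7,k9)],[(k8,k6),(k11,k6)],[(k8,k6),(k11,
    k6)],[(k1,k6)]]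
    [] k0
    [[k0,k2,k0,k0,k0,k0],[k0,k0,k0,k0,k2,k0]]
    [.contra [z1],.contra [z1]])]⟩

/-- classes `0 0 1 1 2 3`, types `N0 N1 S0 S0 S0 S0` -/
noncomputable def cU6_1261 : CertX :=
  ⟨[k12,k13,k16,k16,k32,k48],[],[[[]]],
    [.old (.lp [k114,k152,k114,k152,k144,(nat_lit 228)] [k57,k57,k38,k38,k57,k57,k38,k38,k42,k42,k0,k0] k0 [[],[],[],[],
    [k0,k0,k0,k0,k0,k0,k0,k19],[],[k0,k0,k0,k0,k0,k19]] (nat_lit 456) k5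
    [[(k1,k114),(k10,k171)],[(k5,k114)],[(k2,k152)],[(k3,k152)],[(k0,k114)],[(k4,k114),(k6,k114),(k9,k129),(k7,k133)],
    [(k4,k133),(k6,k152),(k7,k152),(k9,k167)],[(k4,k114),(k9,k148),(k6,k152),(k7,k152)],[(k4,k129),(k9,k144),(k6,
    k148),(k7,k167)],[(k8,k144),(k11,k186)],[(k8,k186),(k11,(nat_lit 228))],[(k1,k171),(k10,(nat_lit 228))]]
    [] k0
    [[k0,k2,k0,k0,k0,k0],[k0,k0,k0,k2,k0,k0],[k0,k0,k0,k0,k2,k0]]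
    [.contra [z1],.contra [z1],.contra [z1]])]⟩

/-- classes `0 0 1 1 2 3`, types `N0 N2 N0 N2 C0 C0` -/
noncomputable def cU6_1262 : CertX :=
  ⟨[k12,k14,k28,k30,k36,k52],[],[[[]]],
    [.old (.lp [k0,k2,k0,k2,k0,k2] [k1,k1,k0,k0,k1,k1,k0,k0,k1,k1,k0,k0] k0 [] k4 k5
    [[(k10,k1)],[(k2,k1)],[(k5,k1)],[(k0,k1)],[(k3,k1)],[(k6,k1)],[(k9,k1)],[(k4,k1)],[(k7,k1)],[(k11,k1)],[(k8,k1)],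
    [(k1,k1)]]
    [] k0
    []
    [])]⟩

/-- classes `0 0 1 1 2 3`, types `N0 N2 N0 N2 C0 S0` -/
noncomputable def cU6_1263 : CertX :=
  ⟨[k12,k14,k28,k30,k36,k48],[],[[[]]],
    [.old (.lp [k2,k2,k2,k2,k2,k2] [k0,k0,k0,k0,k0,k0,k0,k0,k0,k0,k0,k0] k0 [] k8 k5
    [[(k1,k2),(k10,k2)],[(k2,k2)],[(k5,k2)],[(k0,k2)],[(k3,k2)],[(k6,k2)],[(k9,k2)],[(k4,k2)],[(k7,k2)],[(k11,k2)],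
    [(k8,k2)],[(k1,k2),(k10,k2)]]
    [] k0
    []
    [])]⟩

/-- classes `0 0 1 1 2 3`, types `N0 N2 N0 N2 S0 S0` -/
noncomputable def cU6_1264 : CertX :=
  ⟨[k12,k14,k28,k30,k32,k48],[],[[[]]],
    [.old (.lp [k2,k2,k2,k2,k2,k4] [k1,k1,k1,k1,k1,k1,k1,k1,k1,k1,k0,k0] k0 [] k8 k5
    [[(k1,k2),(k10,k3)],[(k2,k2)],[(k5,k2)],[(k0,k2)],[(k3,k2)],[(k6,k2)],[(k9,k2)],[(k4,k2)],[(k7,k2)],[(k8,k2),(k11,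
    k3)],[(k8,k3),(k11,k4)],[(k1,k3),(k10,k4)]]
    [] k0
    []
    [])]⟩

/-- classes `0 0 1 1 2 3`, types `N0 N2 S0 S0 C0 C0` -/
noncomputable def cU6_1265 : CertX :=
  ⟨[k12,k14,k16,k16,k36,k52],[],[[[]]],
    [.old (.lp [k2,k2,k2,k4,k2,k2] [k1,k1,k1,k1,k1,k1,k0,k0,k1,k1,k1,k1] k0 [] k8 k5
    [[(k10,k2)],[(k2,k2)],[(k5,k2)],[(k0,k2)],[(k3,k2)],[(k4,k2),(k9,k2),(k6,k3),(k7,k3)],[(k4,k3),(k9,k3),(k6,k4),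
    (k7,k4)],[(k4,k3),(k9,k3),(k6,k4),(k7,k4)],[(k4,k2),(k9,k2),(k6,k3),(k7,k3)],[(k11,k2)],[(k8,k2)],[(k1,k2)]]
    [] k0
    []
    [])]⟩

/-- classes `0 0 1 1 2 3`, types `N0 N2 S0 S0 C0 S0` -/
noncomputable def cU6_1266 : CertX :=
  ⟨[k12,k14,k16,k16,k36,k48],[],[[[]]],
    [.old (.lp [k2,k2,k2,k4,k2,k2] [k1,k1,k1,k1,k1,k1,k0,k0,k1,k1,k1,k1] k0 [] k8 k5
    [[(k1,k2),(k10,k2)],[(k2,k2)],[(k5,k2)],[(k0,k2)],[(k3,k2)],[(k4,k2),(k9,k2),(k6,k3),(k7,k3)],[(k4,k3),(k9,k3),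
    (k6,k4),(k7,k4)],[(k4,k3),(k9,k3),(k6,k4),(k7,k4)],[(k4,k2),(k9,k2),(k6,k3),(k7,k3)],[(k11,k2)],[(k8,k2)],[(k1,
    k2),(k10,k2)]]
    [] k0
    []
    [])]⟩

/-- classes `0 0 1 1 2 3`, types `N0 N2 S0 S0 S0 C0` -/
noncomputable def cU6_1267 : CertX :=
  ⟨[k12,k14,k16,k16,k32,k52],[],[[[]]],
    [.old (.lp [k2,k2,k2,k4,k2,k2] [k1,k1,k1,k1,k1,k1,k0,k0,k1,k1,k1,k1] k0 [] k8 k5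
    [[(k10,k2)],[(k2,k2)],[(k5,k2)],[(k0,k2)],[(k3,k2)],[(k4,k2),(k9,k2),(k6,k3),(k7,k3)],[(k4,k3),(k9,k3),(k6,k4),
    (k7,k4)],[(k4,k3),(k9,k3),(k6,k4),(k7,k4)],[(k4,k2),(k9,k2),(k6,k3),(k7,k3)],[(k8,k2),(k11,k2)],[(k8,k2),(k11,
    k2)],[(k1,k2)]]
    [] k0
    [[k0,k0,k0,k0,k2,k0]]
    [.contra [z1]])]⟩

/-- classes `0 0 1 1 2 3`, types `N0 N2 S0 S0 S0 S0` -/
noncomputable def cU6_1268 : CertX :=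
  ⟨[k12,k14,k16,k16,k32,k48],[],[[[]]],
    [.old (.lp [k6,k6,k6,k8,k8,k12] [k3,k3,k3,k3,k3,k3,k2,k2,k2,k2,k0,k0] k0 [] k24 k5
    [[(k1,k6),(k10,k9)],[(k2,k6)],[(k5,k6)],[(k0,k6)],[(k3,k6)],[(k4,k6),(k6,k7),(k7,k7),(k9,k7)],[(k4,k7),(k6,k8),
    (k7,k8),(k9,k8)],[(k4,k7),(k6,k8),(k7,k8),(k9,k8)],[(k4,k7),(k6,k8),(k7,k8),(k9,k8)],[(k8,k8),(k11,k10)],[(k8,
    k10),(k11,k12)],[(k1,k9),(k10,k12)]]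
    [] k0
    [[k0,k0,k0,k2,k0,k0],[k0,k0,k0,k0,k2,k0]]
    [.contra [z1],.contra [z1]])]⟩

/-- classes `0 0 1 1 2 3`, types `S0 S0 S0 S0 C0 C0` -/
noncomputable def cU6_1269 : CertX :=
  ⟨[k0,k0,k16,k16,k36,k52],[],[[[]]],
    [.old (.lp [k6,k8,k8,k12,k6,k6] [k3,k3,k2,k2,k2,k2,k0,k0,k3,k3,k3,k3] k0 [] k24 k5
    [[(k10,k6)],[(k0,k6),(k2,k7),(k3,k7),(k5,k7)],[(k0,k7),(k2,k8),(k3,k8),(k5,k8)],[(k0,k7),(k2,k8),(k3,k8),(k5,k8)],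
    [(k0,k7),(k2,k8),(k3,k8),(k5,k8)],[(k9,k7),(k4,k8),(k6,k10),(k7,k10)],[(k9,k9),(k4,k10),(k6,k12),(k7,k12)],[(k9,
    k9),(k4,k10),(k6,k12),(k7,k12)],[(k9,k6),(k4,k7),(k6,k9),(k7,k9)],[(k11,k6)],[(k8,k6)],[(k1,k6)]]
    [] k0
    [[k0,k2,k0,k0,k0,k0],[k0,k0,k2,k0,k0,k0]]
    [.contra [z1],.contra [z1]])]⟩

/-- classes `0 0 1 1 2 3`, types `S0 S0 S0 S0 C0 S0` -/
noncomputable def cU6_1270 : CertX :=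
  ⟨[k0,k0,k16,k16,k36,k48],[],[[[]]],
    [.old (.lp [(nat_lit 330),(nat_lit 210),(nat_lit 222),(nat_lit 230),k162,k180] [k0,k0,k60,k60,k54,k54,k50,k50,k84,k84,
    k78,k72] k0 [[k0,k0,k102,k42],[k36],[k0,k42],[k0,k102],[k0,k0,k0,k0,k0,k0,k18],[k0,k0,k0,k0,k0,k0,k22],[k0,k0,k0,
    k0,k0,k0,k0,k12],[k0,k0,k0,k0,k22,k18]] (nat_lit 696) k5
    [[(k10,(nat_lit 252)),(k1,(nat_lit 330))],[(k5,k174),(k2,(nat_lit 228)),(k3,(nat_lit 270)),(k0,(nat_lit 366))],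
    [(k3,k174),(k5,(nat_lit 258)),(k0,(nat_lit 270)),(k2,(nat_lit 312))],[(k2,(nat_lit 210)),(k5,(nat_lit 216)),(k0,
    (nat_lit 228)),(k3,(nat_lit 312))],[(k0,k174),(k2,(nat_lit 216)),(k5,(nat_lit 222)),(k3,(nat_lit 258))],[(k9,
    k174),(k4,(nat_lit 222)),(k7,(nat_lit 226)),(k6,(nat_lit 248))],[(k9,k174),(k4,(nat_lit 226)),(k7,(nat_lit 230)),
    (k6,(nat_lit 248))],[(k9,k196),(k6,(nat_lit 218)),(k4,(nat_lit 248)),(k7,(nat_lit 248))],[(k4,k174),(k7,k174),(k9,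
    k174),(k6,k196)],[(k11,k174)],[(k8,k174)],[(k10,k174),(k1,(nat_lit 252))]]
    [] k0
    [[k0,k2,k0,k0,k0,k0],[k0,k0,k2,k0,k0,k0],[k0,k0,k0,k2,k0,k0]]
    [.contra [z1],.contra [z1],.contra [z1]])]⟩

/-- classes `0 0 1 2 1 2`, types `B0 B1 B0 B0 B1 B1` -/
noncomputable def cU6_1271 : CertX :=
  ⟨[k8,k9,k24,k40,k25,k41],[(false,k0,[k0,k1,k2,k3,k4,k5])],[[[([z1,z1,z1,z0,z1,z0],z2)],[]]],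
    [.old (.leafM k3 [k0,k1,k2,k4] [] [(k3,k5,z1,[y1,z1]),(k5,k3,z1,[y1,z1])]),
    .old (.lp [k10,k8,k4,k2,k10,k10] [k0,k0,k1,k1,k3,k3,k4,k4,k0,k0,k0,k0] k0 [] k24 k5
    [[(k6,k6),(k9,k10)],[(k5,k7),(k2,k9)],[(k5,k6),(k2,k8)],[(k3,k8),(k0,k9)],[(k3,k6),(k0,k7)],[(k8,k7),(k11,k7)],
    [(k8,k6),(k11,k6)],[(k1,k6),(k10,k6)],[(k1,k10),(k10,k10)],[(k7,k6),(k4,k7)],[(k7,k6),(k4,k7)],[(k6,k6),(k9,k10)]]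
    [] k0
    [[k0,k2,k0,k0,k0,k0],[k0,k0,k0,k1,k0,k1]]
    [.contra [z1],.ref k0 k0 [(z1,[y1,z1])]])]⟩

/-- classes `0 0 1 2 1 2`, types `B0 B1 B0 C0 B1 C0` -/
noncomputable def cU6_1272 : CertX :=
  ⟨[k8,k9,k24,k36,k25,k36],[(false,k0,[k0,k1,k2,k3,k4,k5])],[[[([z1,z1,z1,z0,z0,z1],z2)],[]]],
    [.old (.leafM k1 [k2,k5,k0,k1] [] [(k3,k4,z1,[y1,z1]),(k4,k3,z1,[y1,z1])]),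
    .old (.lp [k4,k8,k10,k10,k2,k10] [k3,k3,k1,k1,k0,k0,k0,k0,k4,k4,k0,k0] k0 [] k24 k5
    [[(k6,k7),(k10,k7)],[(k2,k6),(k5,k7)],[(k2,k8),(k5,k9)],[(k0,k6),(k3,k8)],[(k0,k7),(k3,k9)],[(k8,k6),(k11,k10)],
    [(k8,k6),(k11,k10)],[(k9,k6),(k1,k7)],[(k6,k6),(k10,k6)],[(k4,k6),(k7,k6)],[(k4,k10),(k7,k10)],[(k9,k6),(k1,k7)]]
    [] k0
    [[k0,k2,k0,k0,k0,k0],[k0,k0,k0,k1,k1,k0]]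
    [.contra [z1],.ref k0 k0 [(z1,[y1,z1])]])]⟩

/-- classes `0 0 1 2 1 2`, types `B0 B1 B0 C0 B1 C2` -/
noncomputable def cU6_1273 : CertX :=
  ⟨[k8,k9,k24,k36,k25,k38],[(false,k0,[k0,k1,k2,k3,k4,k5])],[[[([z1,z1,z1,z0,z1,z0],z2)],[([z1,z1,z1,z0,z0,z1],z2)],
    []]],
    [.old (.leafM k3 [k0,k1,k2,k4] [] [(k3,k5,z1,[y1,z1]),(k5,k3,z1,[y1,z1])]),
    .old (.leafM k1 [k2,k5,k0,k1] [] [(k3,k4,z1,[y1,z1]),(k4,k3,z1,[y1,z1])]),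
    .old (.lp [k6,k4,k6,k6,k0,k0] [k0,k0,k1,k1,k0,k0,k0,k0,k3,k3,k3,k3] k0 [] k12 k5
    [[(k9,k3),(k10,k3)],[(k2,k5),(k5,k6)],[(k2,k4),(k5,k5)],[(k3,k4),(k0,k5)],[(k3,k5),(k0,k6)],[(k8,k3),(k11,k3)],
    [(k8,k3),(k11,k3)],[(k9,k3),(k10,k3)],[(k1,k3),(k6,k3)],[(k4,k3),(k7,k3)],[(k4,k3),(k7,k3)],[(k1,k3),(k6,k3)]]
    [] k0
    [[k0,k2,k0,k0,k0,k0],[k0,k0,k0,k1,k1,k0],[k0,k0,k0,k1,k0,k1]]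
    [.contra [z1],.ref k1 k0 [(z1,[y1,z1])],.ref k0 k0 [(z1,[y1,z1])]])]⟩

/-- classes `0 0 1 2 1 2`, types `B0 B1 B0 N0 B1 N1` -/
noncomputable def cU6_1274 : CertX :=
  ⟨[k8,k9,k24,k44,k25,k45],[],[[[]]],
    [.old (.lp [k2,k4,k2,k2,k2,k2] [k1,k1,k0,k0,k1,k1,k1,k1,k1,k1,k1,k1] k0 [] k8 k5
    [[(k6,k2)],[(k5,k2),(k2,k3)],[(k5,k3),(k2,k4)],[(k0,k3),(k3,k4)],[(k0,k2),(k3,k3)],[(k8,k2),(k11,k2)],[(k8,k2),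
    (k11,k2)],[(k1,k2)],[(k10,k2)],[(k4,k2),(k7,k2)],[(k4,k2),(k7,k2)],[(k9,k2)]]
    [] k0
    []
    [])]⟩

/-- classes `0 0 1 2 1 2`, types `B0 B1 B0 N0 B1 N2` -/
noncomputable def cU6_1275 : CertX :=
  ⟨[k8,k9,k24,k44,k25,k46],[(false,k0,[k0,k1,k2,k3,k4,k5])],[[[([z1,z1,z1,z0,z1,z0],z2)],[]]],
    [.old (.leafM k3 [k0,k1,k2,k4] [] [(k3,k5,z1,[y1,z1]),(k5,k3,z1,[y1,z1])]),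
    .old (.lp [k6,k4,k6,k6,k0,k0] [k0,k0,k1,k1,k0,k0,k0,k0,k3,k3,k3,k3] k0 [] k12 k5
    [[(k9,k3)],[(k2,k5),(k5,k6)],[(k2,k4),(k5,k5)],[(k3,k4),(k0,k5)],[(k3,k5),(k0,k6)],[(k8,k3),(k11,k3)],[(k8,k3),
    (k11,k3)],[(k10,k3)],[(k1,k3)],[(k4,k3),(k7,k3)],[(k4,k3),(k7,k3)],[(k6,k3)]]
    [] k0
    [[k0,k2,k0,k0,k0,k0],[k0,k0,k0,k1,k0,k1]]
    [.contra [z1],.ref k0 k0 [(z1,[y1,z1])]])]⟩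

/-- classes `0 0 1 2 1 2`, types `B0 B1 B0 S0 B1 S0` -/
noncomputable def cU6_1276 : CertX :=
  ⟨[k8,k9,k24,k32,k25,k32],[(false,k0,[k0,k1,k2,k3,k4,k5])],[[[([z1,z1,z1,z0,z1,z0],z2)],[([z1,z1,z1,z0,z0,z1],z2)],
    []]],
    [.old (.leafM k3 [k0,k1,k2,k4] [] [(k3,k5,z1,[y1,z1]),(k5,k3,z1,[y1,z1])]),
    .old (.leafM k1 [k2,k5,k0,k1] [] [(k3,k4,z1,[y1,z1]),(k4,k3,z1,[y1,z1])]),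
    .old (.lp [k12,k8,k6,k6,k6,k6] [k0,k0,k2,k2,k3,k3,k3,k3,k3,k3,k3,k3] k0 [] k24 k5
    [[(k6,k9),(k9,k9),(k10,k9),(k1,k12)],[(k5,k9),(k2,k10)],[(k5,k7),(k2,k8)],[(k3,k8),(k0,k10)],[(k3,k7),(k0,k9)],
    [(k8,k6),(k11,k6)],[(k8,k6),(k11,k6)],[(k6,k6),(k9,k6),(k10,k6),(k1,k9)],[(k6,k6),(k9,k6),(k10,k6),(k1,k9)],[(k4,
    k6),(k7,k6)],[(k4,k6),(k7,k6)],[(k6,k6),(k9,k6),(k10,k6),(k1,k9)]]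
    [] k0
    [[k0,k2,k0,k0,k0,k0],[k0,k0,k0,k1,k1,k0],[k0,k0,k0,k1,k0,k1]]
    [.contra [z1],.ref k1 k0 [(z1,[y1,z1])],.ref k0 k0 [(z1,[y1,z1])]])]⟩

/-- classes `0 0 1 2 1 2`, types `B0 B1 C0 C0 C0 C0` -/
noncomputable def cU6_1277 : CertX :=
  ⟨[k8,k9,k20,k36,k20,k36],[(false,k0,[k0,k1,k2,k3,k4,k5]),(true,k2,[k2,k1,k0,k5,k4,k3])],[[[([z1,z1,z1,z0,z0,z1],
    z2)],[]]],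
    [.old (.leafM k1 [k2,k5,k0,k1] [] [(k3,k4,z1,[y1,z1]),(k4,k3,z1,[y1,z1])]),
    .old (.lp [k2,k4,k4,k6,k0,k6] [k2,k2,k1,k1,k1,k1,k0,k0,k3,k3,k0,k0] k0 [] k12 k5
    [[(k6,k4),(k10,k4)],[(k2,k3),(k5,k3)],[(k2,k4),(k5,k4)],[(k0,k3),(k3,k4)],[(k0,k3),(k3,k4)],[(k7,k5),(k11,k5)],
    [(k8,k3),(k4,k5)],[(k9,k3),(k1,k4)],[(k6,k3),(k10,k3)],[(k7,k3),(k11,k3)],[(k8,k3),(k4,k5)],[(k9,k3),(k1,k4)]]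
    [] k0
    [[k0,k2,k0,k0,k0,k0],[k0,k0,k0,k1,k1,k0],[k0,k0,k0,k0,k1,k1]]
    [.contra [z1],.ref k0 k0 [(z1,[y1,z1])],.ref k0 k1 [(z1,[y1,z1])]])]⟩

/-- classes `0 0 1 2 1 2`, types `B0 B1 C0 C0 C0 C2` -/
noncomputable def cU6_1278 : CertX :=
  ⟨[k8,k9,k20,k36,k20,k38],[(false,k0,[k0,k1,k2,k3,k4,k5])],[[[([z1,z1,z1,z0,z0,z1],z2)],[]]],
    [.old (.leafM k1 [k2,k5,k0,k1] [] [(k3,k4,z1,[y1,z1]),(k4,k3,z1,[y1,z1])]),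
    .old (.lp [k6,k8,k12,k6,k6,k6] [k3,k3,k2,k2,k0,k0,k3,k3,k3,k3,k3,k3] k0 [] k24 k5
    [[(k9,k6),(k10,k6)],[(k2,k7),(k5,k9)],[(k2,k8),(k5,k10)],[(k0,k7),(k3,k8)],[(k0,k9),(k3,k10)],[(k7,k9),(k11,k9)],
    [(k8,k6),(k4,k9)],[(k9,k6),(k10,k6)],[(k1,k6),(k6,k6)],[(k7,k6),(k11,k6)],[(k8,k6),(k4,k9)],[(k1,k6),(k6,k6)]]
    [] k0
    [[k0,k2,k0,k0,k0,k0],[k0,k0,k0,k1,k1,k0]]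
    [.contra [z1],.ref k0 k0 [(z1,[y1,z1])]])]⟩

/-- classes `0 0 1 2 1 2`, types `B0 B1 C0 C0 C2 C2` -/
noncomputable def cU6_1279 : CertX :=
  ⟨[k8,k9,k20,k36,k22,k38],[(false,k0,[k0,k1,k2,k3,k4,k5])],[[[([z1,z1,z1,z0,z1,z0],z2)],[]]],
    [.old (.leafM k3 [k0,k1,k2,k4] [] [(k3,k5,z1,[y1,z1]),(k5,k3,z1,[y1,z1])]),
    .old (.lp [k10,k8,k4,k10,k10,k2] [k0,k0,k1,k1,k3,k3,k0,k0,k0,k0,k4,k4] k0 [] k24 k5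
    [[(k10,k6),(k9,k10)],[(k5,k7),(k2,k9)],[(k5,k6),(k2,k8)],[(k3,k8),(k0,k9)],[(k3,k6),(k0,k7)],[(k7,k7),(k8,k7)],
    [(k11,k6),(k4,k7)],[(k10,k6),(k9,k10)],[(k1,k10),(k6,k10)],[(k11,k6),(k4,k7)],[(k7,k6),(k8,k6)],[(k1,k6),(k6,k6)]]
    [] k0
    [[k0,k2,k0,k0,k0,k0],[k0,k0,k0,k1,k0,k1]]
    [.contra [z1],.ref k0 k0 [(z1,[y1,z1])]])]⟩

/-- classes `0 0 1 2 1 2`, types `B0 B1 C0 N0 C0 N1` -/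
noncomputable def cU6_1280 : CertX :=
  ⟨[k8,k9,k20,k44,k20,k45],[(false,k0,[k0,k1,k2,k3,k4,k5])],[[[([z1,z1,z1,z1,z0,z0],z2)],[]]],
    [.old (.leafM k1 [k2,k3,k0,k1] [] [(k4,k5,z1,[y1,z1]),(k5,k4,z1,[y1,z1])]),
    .old (.lp [k2,k4,k4,k6,k4,k2] [k2,k2,k1,k1,k1,k1,k0,k0,k1,k1,k2,k2] k0 [] k12 k5
    [[(k6,k4)],[(k2,k3),(k5,k3)],[(k2,k4),(k5,k4)],[(k0,k3),(k3,k4)],[(k0,k3),(k3,k4)],[(k11,k3),(k7,k5)],[(k4,k5),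
    (k8,k5)],[(k1,k4)],[(k10,k3)],[(k11,k3),(k7,k5)],[(k4,k3),(k8,k3)],[(k9,k3)]]
    [] k0
    [[k0,k2,k0,k0,k0,k0],[k0,k0,k0,k0,k1,k1]]
    [.contra [z1],.ref k0 k0 [(z1,[y1,z1])]])]⟩

/-- classes `0 0 1 2 1 2`, types `B0 B1 C0 N0 C0 N2` -/
noncomputable def cU6_1281 : CertX :=
  ⟨[k8,k9,k20,k44,k20,k46],[],[[[]]],
    [.old (.lp [k2,k4,k2,k2,k2,k2] [k1,k1,k0,k0,k1,k1,k1,k1,k1,k1,k1,k1] k0 [] k8 k5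
    [[(k9,k2)],[(k5,k2),(k2,k3)],[(k5,k3),(k2,k4)],[(k0,k3),(k3,k4)],[(k0,k2),(k3,k3)],[(k7,k2),(k11,k2)],[(k4,k2),
    (k8,k2)],[(k10,k2)],[(k1,k2)],[(k7,k2),(k11,k2)],[(k4,k2),(k8,k2)],[(k6,k2)]]
    [] k0
    []
    [])]⟩

/-- classes `0 0 1 2 1 2`, types `B0 B1 C0 N0 C2 N1` -/
noncomputable def cU6_1282 : CertX :=
  ⟨[k8,k9,k20,k44,k22,k45],[(false,k0,[k0,k1,k2,k3,k4,k5])],[[[([z1,z1,z1,z1,z0,z0],z2)],[]]],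
    [.old (.leafM k1 [k2,k3,k0,k1] [] [(k4,k5,z1,[y1,z1]),(k5,k4,z1,[y1,z1])]),
    .old (.lp [k2,k4,k4,k6,k6,k0] [k2,k2,k1,k1,k1,k1,k0,k0,k0,k0,k3,k3] k0 [] k12 k5
    [[(k6,k4)],[(k2,k3),(k5,k3)],[(k2,k4),(k5,k4)],[(k0,k3),(k3,k4)],[(k0,k3),(k3,k4)],[(k7,k5),(k8,k5)],[(k11,k3),
    (k4,k5)],[(k1,k4)],[(k10,k3)],[(k11,k3),(k4,k5)],[(k7,k3),(k8,k3)],[(k9,k3)]]
    [] k0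
    [[k0,k2,k0,k0,k0,k0],[k0,k0,k0,k0,k1,k1]]
    [.contra [z1],.ref k0 k0 [(z1,[y1,z1])]])]⟩

/-- classes `0 0 1 2 1 2`, types `B0 B1 C0 N0 C2 N2` -/
noncomputable def cU6_1283 : CertX :=
  ⟨[k8,k9,k20,k44,k22,k46],[(false,k0,[k0,k1,k2,k3,k4,k5])],[[[([z1,z1,z1,z0,z1,z0],z2)],[]]],
    [.old (.leafM k3 [k0,k1,k2,k4] [] [(k3,k5,z1,[y1,z1]),(k5,k3,z1,[y1,z1])]),
    .old (.lp [k2,k4,k4,k6,k6,k0] [k2,k2,k1,k1,k1,k1,k0,k0,k0,k0,k3,k3] k0 [] k12 k5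
    [[(k9,k4)],[(k2,k3),(k5,k3)],[(k2,k4),(k5,k4)],[(k0,k3),(k3,k4)],[(k0,k3),(k3,k4)],[(k7,k5),(k8,k5)],[(k11,k3),
    (k4,k5)],[(k10,k3)],[(k1,k4)],[(k11,k3),(k4,k5)],[(k7,k3),(k8,k3)],[(k6,k3)]]
    [] k0
    [[k0,k2,k0,k0,k0,k0],[k0,k0,k0,k1,k0,k1]]
    [.contra [z1],.ref k0 k0 [(z1,[y1,z1])]])]⟩

/-- classes `0 0 1 2 1 2`, types `B0 B1 C0 S0 C0 S0` -/
noncomputable def cU6_1284 : CertX :=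
  ⟨[k8,k9,k20,k32,k20,k32],[(false,k0,[k0,k1,k2,k3,k4,k5])],[[[([z1,z1,z1,z1,z0,z0],z2)],[([z1,z1,z1,z0,z0,z1],z2)],
    []]],
    [.old (.leafM k1 [k2,k3,k0,k1] [] [(k4,k5,z1,[y1,z1]),(k5,k4,z1,[y1,z1])]),
    .old (.leafM k1 [k2,k5,k0,k1] [] [(k3,k4,z1,[y1,z1]),(k4,k3,z1,[y1,z1])]),
    .old (.lp [k12,k8,k6,k6,k6,k6] [k0,k0,k2,k2,k3,k3,k3,k3,k3,k3,k3,k3] k0 [] k24 k5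
    [[(k6,k9),(k9,k9),(k10,k9),(k1,k12)],[(k5,k9),(k2,k10)],[(k5,k7),(k2,k8)],[(k3,k8),(k0,k10)],[(k3,k7),(k0,k9)],
    [(k7,k6),(k11,k6)],[(k4,k6),(k8,k6)],[(k6,k6),(k9,k6),(k10,k6),(k1,k9)],[(k6,k6),(k9,k6),(k10,k6),(k1,k9)],[(k7,
    k6),(k11,k6)],[(k4,k6),(k8,k6)],[(k6,k6),(k9,k6),(k10,k6),(k1,k9)]]
    [] k0
    [[k0,k2,k0,k0,k0,k0],[k0,k0,k0,k1,k1,k0],[k0,k0,k0,k0,k1,k1]]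
    [.contra [z1],.ref k1 k0 [(z1,[y1,z1])],.ref k0 k0 [(z1,[y1,z1])]])]⟩

/-- classes `0 0 1 2 1 2`, types `B0 B1 C0 S0 C2 S0` -/
noncomputable def cU6_1285 : CertX :=
  ⟨[k8,k9,k20,k32,k22,k32],[(false,k0,[k0,k1,k2,k3,k4,k5])],[[[([z1,z1,z1,z1,z0,z0],z2)],[([z1,z1,z1,z0,z1,z0],z2)],
    []]],
    [.old (.leafM k1 [k2,k3,k0,k1] [] [(k4,k5,z1,[y1,z1]),(k5,k4,z1,[y1,z1])]),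
    .old (.leafM k3 [k0,k1,k2,k4] [] [(k3,k5,z1,[y1,z1]),(k5,k3,z1,[y1,z1])]),
    .old (.lp [k12,k8,k6,k6,k6,k6] [k0,k0,k2,k2,k3,k3,k3,k3,k3,k3,k3,k3] k0 [] k24 k5
    [[(k6,k9),(k9,k9),(k10,k9),(k1,k12)],[(k5,k9),(k2,k10)],[(k5,k7),(k2,k8)],[(k3,k8),(k0,k10)],[(k3,k7),(k0,k9)],
    [(k7,k6),(k8,k6)],[(k4,k6),(k11,k6)],[(k6,k6),(k9,k6),(k10,k6),(k1,k9)],[(k6,k6),(k9,k6),(k10,k6),(k1,k9)],[(k4,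
    k6),(k11,k6)],[(k7,k6),(k8,k6)],[(k6,k6),(k9,k6),(k10,k6),(k1,k9)]]
    [] k0
    [[k0,k2,k0,k0,k0,k0],[k0,k0,k0,k1,k0,k1],[k0,k0,k0,k0,k1,k1]]
    [.contra [z1],.ref k1 k0 [(z1,[y1,z1])],.ref k0 k0 [(z1,[y1,z1])]])]⟩

/-- classes `0 0 1 2 1 2`, types `B0 B1 N0 N0 N1 N1` -/
noncomputable def cU6_1286 : CertX :=
  ⟨[k8,k9,k28,k44,k29,k45],[],[[[]]],
    [.old (.lp [k2,k4,k2,k2,k2,k2] [k1,k1,k0,k0,k1,k1,k1,k1,k1,k1,k1,k1] k0 [] k8 k5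
    [[(k6,k2)],[(k5,k2),(k2,k3)],[(k5,k3),(k2,k4)],[(k0,k3),(k3,k4)],[(k0,k2),(k3,k3)],[(k11,k2)],[(k8,k2)],[(k1,k2)],
    [(k10,k2)],[(k7,k2)],[(k4,k2)],[(k9,k2)]]
    [] k0
    []
    [])]⟩

/-- classes `0 0 1 2 1 2`, types `B0 B1 N0 N0 N1 N2` -/
noncomputable def cU6_1287 : CertX :=
  ⟨[k8,k9,k28,k44,k29,k46],[],[[[]]],
    [.old (.lp [k2,k4,k2,k2,k2,k2] [k1,k1,k0,k0,k1,k1,k1,k1,k1,k1,k1,k1] k0 [] k8 k5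
    [[(k9,k2)],[(k5,k2),(k2,k3)],[(k5,k3),(k2,k4)],[(k0,k3),(k3,k4)],[(k0,k2),(k3,k3)],[(k11,k2)],[(k8,k2)],[(k10,
    k2)],[(k1,k2)],[(k7,k2)],[(k4,k2)],[(k6,k2)]]
    [] k0
    []
    [])]⟩

/-- classes `0 0 1 2 1 2`, types `B0 B1 N0 N0 N2 N2` -/
noncomputable def cU6_1288 : CertX :=
  ⟨[k8,k9,k28,k44,k30,k46],[(false,k0,[k0,k1,k2,k3,k4,k5])],[[[([z1,z1,z1,z0,z1,z0],z2)],[]]],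
    [.old (.leafM k3 [k0,k1,k2,k4] [] [(k3,k5,z1,[y1,z1]),(k5,k3,z1,[y1,z1])]),
    .old (.lp [k2,k4,k6,k6,k4,k0] [k2,k2,k1,k1,k0,k0,k0,k0,k1,k1,k3,k3] k0 [] k12 k5
    [[(k9,k3)],[(k2,k3),(k5,k4)],[(k2,k4),(k5,k5)],[(k0,k3),(k3,k4)],[(k0,k4),(k3,k5)],[(k8,k5)],[(k11,k3)],[(k10,
    k3)],[(k1,k3)],[(k4,k5)],[(k7,k3)],[(k6,k3)]]
    [] k0
    [[k0,k2,k0,k0,k0,k0],[k0,k0,k0,k1,k0,k1]]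
    [.contra [z1],.ref k0 k0 [(z1,[y1,z1])]])]⟩

/-- classes `0 0 1 2 1 2`, types `B0 B1 N0 S0 N1 S0` -/
noncomputable def cU6_1289 : CertX :=
  ⟨[k8,k9,k28,k32,k29,k32],[(false,k0,[k0,k1,k2,k3,k4,k5])],[[[([z1,z1,z1,z0,z0,z1],z2)],[]]],
    [.old (.leafM k1 [k2,k5,k0,k1] [] [(k3,k4,z1,[y1,z1]),(k4,k3,z1,[y1,z1])]),
    .old (.lp [k12,k8,k4,k6,k6,k8] [k0,k0,k2,k2,k4,k4,k3,k3,k3,k3,k2,k2] k0 [] k24 k5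
    [[(k6,k9),(k9,k9),(k10,k10),(k1,k12)],[(k5,k8),(k2,k10)],[(k5,k6),(k2,k8)],[(k3,k8),(k0,k10)],[(k3,k6),(k0,k8)],
    [(k11,k6)],[(k8,k6)],[(k6,k6),(k9,k6),(k10,k7),(k1,k9)],[(k6,k6),(k9,k6),(k10,k7),(k1,k9)],[(k7,k6)],[(k4,k6)],
    [(k6,k7),(k9,k7),(k10,k8),(k1,k10)]]
    [] k0
    [[k0,k2,k0,k0,k0,k0],[k0,k0,k0,k1,k1,k0]]
    [.contra [z1],.ref k0 k0 [(z1,[y1,z1])]])]⟩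

/-- classes `0 0 1 2 1 2`, types `B0 B1 N0 S0 N2 S0` -/
noncomputable def cU6_1290 : CertX :=
  ⟨[k8,k9,k28,k32,k30,k32],[(false,k0,[k0,k1,k2,k3,k4,k5])],[[[([z1,z1,z1,z0,z1,z0],z2)],[]]],
    [.old (.leafM k3 [k0,k1,k2,k4] [] [(k3,k5,z1,[y1,z1]),(k5,k3,z1,[y1,z1])]),
    .old (.lp [k12,k8,k4,k6,k8,k6] [k0,k0,k2,k2,k4,k4,k3,k3,k2,k2,k3,k3] k0 [] k24 k5
    [[(k6,k9),(k10,k9),(k9,k10),(k1,k12)],[(k5,k8),(k2,k10)],[(k5,k6),(k2,k8)],[(k3,k8),(k0,k10)],[(k3,k6),(k0,k8)],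
    [(k8,k6)],[(k11,k6)],[(k6,k6),(k10,k6),(k9,k7),(k1,k9)],[(k6,k7),(k10,k7),(k9,k8),(k1,k10)],[(k4,k6)],[(k7,k6)],
    [(k6,k6),(k10,k6),(k9,k7),(k1,k9)]]
    [] k0
    [[k0,k2,k0,k0,k0,k0],[k0,k0,k0,k1,k0,k1]]
    [.contra [z1],.ref k0 k0 [(z1,[y1,z1])]])]⟩

/-- classes `0 0 1 2 1 2`, types `B0 B1 S0 S0 S0 S0` -/
noncomputable def cU6_1291 : CertX :=
  ⟨[k8,k9,k16,k32,k16,k32],[(false,k0,[k0,k1,k2,k3,k4,k5]),(true,k2,[k2,k1,k0,k5,k4,k3])],[[[([z1,z1,z1,z0,z0,z1],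
    z2)],[([z1,z1,z1,z0,z1,z0],z2)],[]]],
    [.old (.leafM k1 [k2,k5,k0,k1] [] [(k3,k4,z1,[y1,z1]),(k4,k3,z1,[y1,z1])]),
    .old (.leafM k3 [k0,k1,k2,k4] [] [(k3,k5,z1,[y1,z1]),(k5,k3,z1,[y1,z1])]),
    .old (.lp [k48,k40,k30,k30,k60,k30] [k6,k6,k10,k10,k15,k15,k15,k15,k0,k0,k15,k15] k0 [[],[],[],[],[],[k0,k0,k0,k0,k0,
    k0,k0,k0,k0,k12],[],[k0,k0,k0,k0,k0,k0,k0,k0,k0,k0,k0,k12],[k0,k0,k0,k0,k12],[],[k0,k0,k0,k0,k0,k0,k12]] k120 k5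
    [[(k10,k39),(k1,k48),(k6,k51),(k9,k54)],[(k5,k39),(k2,k44)],[(k5,k35),(k2,k40)],[(k3,k40),(k0,k44)],[(k3,k35),(k0,
    k39)],[(k4,k30),(k7,k30),(k11,k42),(k8,k45)],[(k4,k30),(k7,k30),(k11,k30),(k8,k33)],[(k6,k30),(k10,k30),(k9,k45),
    (k1,k51)],[(k10,k33),(k6,k45),(k1,k54),(k9,k60)],[(k7,k33),(k4,k45),(k11,k45),(k8,k60)],[(k7,k30),(k11,k30),(k4,
    k42),(k8,k45)],[(k6,k30),(k10,k30),(k9,k33),(k1,k39)]]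
    [] k0
    [[k0,k2,k0,k0,k0,k0],[k0,k0,k0,k2,k0,k0],[k0,k0,k0,k1,k1,k0],[k0,k0,k0,k1,k0,k1],[k0,k0,k0,k0,k1,k1],[k0,k0,k0,k0,
    k0,k2]]
    [.contra [z1],.contra [z1],.ref k0 k0 [(z1,[y1,z1])],.ref k1 k0 [(z1,[y1,z1])],.ref k0 k1 [(z1,[y1,z1])],
    .contra [z1]])]⟩

/-- classes `0 0 1 2 1 2`, types `C0 C0 B0 B0 B1 B1` -/
noncomputable def cU6_1292 : CertX :=
  ⟨[k4,k4,k24,k40,k25,k41],[(false,k0,[k0,k1,k2,k3,k4,k5])],[[[([z1,z1,z1,z0,z1,z0],z2)],[]]],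
    [.old (.leafM k1 [k0,k1,k2,k4] [] [(k3,k5,z1,[y1,z1]),(k5,k3,z1,[y1,z1])]),
    .old (.lp [k6,k8,k12,k6,k6,k6] [k3,k3,k2,k2,k0,k0,k3,k3,k3,k3,k3,k3] k0 [] k24 k5
    [[(k6,k6),(k9,k6)],[(k3,k7),(k5,k9)],[(k0,k7),(k2,k8)],[(k3,k8),(k5,k10)],[(k0,k9),(k2,k10)],[(k8,k9),(k11,k9)],
    [(k8,k6),(k11,k6)],[(k1,k6),(k10,k6)],[(k1,k6),(k10,k6)],[(k7,k6),(k4,k9)],[(k7,k6),(k4,k9)],[(k6,k6),(k9,k6)]]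
    [] k0
    [[k0,k2,k0,k0,k0,k0],[k0,k0,k0,k1,k0,k1]]
    [.contra [z1],.ref k0 k0 [(z1,[y1,z1])]])]⟩

/-- classes `0 0 1 2 1 2`, types `C0 C0 B0 C0 B1 C0` -/
noncomputable def cU6_1293 : CertX :=
  ⟨[k4,k4,k24,k36,k25,k36],[(false,k0,[k0,k1,k2,k3,k4,k5])],[[[([z1,z1,z1,z0,z0,z1],z2)],[]]],
    [.old (.leafM k0 [k0,k1,k2,k5] [] [(k3,k4,z1,[y1,z1]),(k4,k3,z1,[y1,z1])]),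
    .old (.lp [k4,k8,k10,k10,k2,k10] [k3,k3,k1,k1,k0,k0,k0,k0,k4,k4,k0,k0] k0 [] k24 k5
    [[(k6,k7),(k10,k7)],[(k3,k6),(k5,k7)],[(k0,k6),(k2,k8)],[(k3,k8),(k5,k9)],[(k0,k7),(k2,k9)],[(k8,k6),(k11,k10)],
    [(k8,k6),(k11,k10)],[(k9,k6),(k1,k7)],[(k6,k6),(k10,k6)],[(k4,k6),(k7,k6)],[(k4,k10),(k7,k10)],[(k9,k6),(k1,k7)]]
    [] k0
    [[k0,k2,k0,k0,k0,k0],[k0,k0,k0,k1,k1,k0]]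
    [.contra [z1],.ref k0 k0 [(z1,[y1,z1])]])]⟩

/-- classes `0 0 1 2 1 2`, types `C0 C0 B0 C0 B1 C2` -/
noncomputable def cU6_1294 : CertX :=
  ⟨[k4,k4,k24,k36,k25,k38],[(false,k0,[k0,k1,k2,k3,k4,k5])],[[[([z1,z1,z1,z0,z1,z0],z2)],[([z1,z1,z1,z0,z0,z1],z2)],
    []]],
    [.old (.leafM k1 [k0,k1,k2,k4] [] [(k3,k5,z1,[y1,z1]),(k5,k3,z1,[y1,z1])]),
    .old (.leafM k0 [k0,k1,k2,k5] [] [(k3,k4,z1,[y1,z1]),(k4,k3,z1,[y1,z1])]),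
    .old (.lp [k6,k4,k6,k6,k0,k0] [k0,k0,k1,k1,k0,k0,k0,k0,k3,k3,k3,k3] k0 [] k12 k5
    [[(k9,k3),(k10,k3)],[(k3,k5),(k5,k6)],[(k2,k4),(k0,k5)],[(k3,k4),(k5,k5)],[(k2,k5),(k0,k6)],[(k8,k3),(k11,k3)],
    [(k8,k3),(k11,k3)],[(k9,k3),(k10,k3)],[(k1,k3),(k6,k3)],[(k4,k3),(k7,k3)],[(k4,k3),(k7,k3)],[(k1,k3),(k6,k3)]]
    [] k0
    [[k0,k2,k0,k0,k0,k0],[k0,k0,k0,k1,k1,k0],[k0,k0,k0,k1,k0,k1]]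
    [.contra [z1],.ref k1 k0 [(z1,[y1,z1])],.ref k0 k0 [(z1,[y1,z1])]])]⟩

/-- classes `0 0 1 2 1 2`, types `C0 C0 B0 N0 B1 N1` -/
noncomputable def cU6_1295 : CertX :=
  ⟨[k4,k4,k24,k44,k25,k45],[],[[[]]],
    [.old (.lp [k2,k4,k2,k2,k2,k2] [k1,k1,k0,k0,k1,k1,k1,k1,k1,k1,k1,k1] k0 [] k8 k5
    [[(k6,k2)],[(k5,k2),(k3,k3)],[(k0,k3),(k2,k4)],[(k5,k3),(k3,k4)],[(k0,k2),(k2,k3)],[(k8,k2),(k11,k2)],[(k8,k2),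
    (k11,k2)],[(k1,k2)],[(k10,k2)],[(k4,k2),(k7,k2)],[(k4,k2),(k7,k2)],[(k9,k2)]]
    [] k0
    []
    [])]⟩

/-- classes `0 0 1 2 1 2`, types `C0 C0 B0 N0 B1 N2` -/
noncomputable def cU6_1296 : CertX :=
  ⟨[k4,k4,k24,k44,k25,k46],[(false,k0,[k0,k1,k2,k3,k4,k5])],[[[([z1,z1,z1,z0,z1,z0],z2)],[]]],
    [.old (.leafM k1 [k0,k1,k2,k4] [] [(k3,k5,z1,[y1,z1]),(k5,k3,z1,[y1,z1])]),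
    .old (.lp [k2,k4,k6,k6,k4,k0] [k2,k2,k1,k1,k0,k0,k0,k0,k1,k1,k3,k3] k0 [] k12 k5
    [[(k9,k3)],[(k3,k3),(k5,k4)],[(k0,k3),(k2,k4)],[(k3,k4),(k5,k5)],[(k0,k4),(k2,k5)],[(k11,k3),(k8,k5)],[(k11,k3),
    (k8,k5)],[(k10,k3)],[(k1,k3)],[(k4,k5),(k7,k5)],[(k4,k3),(k7,k3)],[(k6,k3)]]
    [] k0
    [[k0,k2,k0,k0,k0,k0],[k0,k0,k0,k1,k0,k1]]
    [.contra [z1],.ref k0 k0 [(z1,[y1,z1])]])]⟩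

/-- classes `0 0 1 2 1 2`, types `C0 C0 B0 S0 B1 S0` -/
noncomputable def cU6_1297 : CertX :=
  ⟨[k4,k4,k24,k32,k25,k32],[(false,k0,[k0,k1,k2,k3,k4,k5])],[[[([z1,z1,z1,z0,z1,z0],z2)],[([z1,z1,z1,z0,z0,z1],z2)],
    []]],
    [.old (.leafM k1 [k0,k1,k2,k4] [] [(k3,k5,z1,[y1,z1]),(k5,k3,z1,[y1,z1])]),
    .old (.leafM k0 [k0,k1,k2,k5] [] [(k3,k4,z1,[y1,z1]),(k4,k3,z1,[y1,z1])]),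
    .old (.lp [k12,k8,k6,k6,k6,k6] [k0,k0,k2,k2,k3,k3,k3,k3,k3,k3,k3,k3] k0 [] k24 k5
    [[(k6,k9),(k9,k9),(k10,k9),(k1,k12)],[(k5,k9),(k3,k10)],[(k2,k8),(k0,k10)],[(k5,k7),(k3,k8)],[(k2,k7),(k0,k9)],
    [(k8,k6),(k11,k6)],[(k8,k6),(k11,k6)],[(k6,k6),(k9,k6),(k10,k6),(k1,k9)],[(k6,k6),(k9,k6),(k10,k6),(k1,k9)],[(k4,
    k6),(k7,k6)],[(k4,k6),(k7,k6)],[(k6,k6),(k9,k6),(k10,k6),(k1,k9)]]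
    [] k0
    [[k0,k2,k0,k0,k0,k0],[k0,k0,k0,k1,k1,k0],[k0,k0,k0,k1,k0,k1]]
    [.contra [z1],.ref k1 k0 [(z1,[y1,z1])],.ref k0 k0 [(z1,[y1,z1])]])]⟩

/-- classes `0 0 1 2 1 2`, types `C0 C0 C0 C0 C0 C0` -/
noncomputable def cU6_1298 : CertX :=
  ⟨[k4,k4,k20,k36,k20,k36],[(false,k0,[k0,k1,k2,k3,k4,k5]),(true,k2,[k2,k1,k0,k5,k4,k3])],[[[([z1,z1,z1,z0,z0,z1],
    z2)],[]]],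
    [.old (.leafM k0 [k0,k1,k2,k5] [] [(k3,k4,z1,[y1,z1]),(k4,k3,z1,[y1,z1])]),
    .old (.lp [k6,k4,k2,k4,k2,k4] [k0,k0,k1,k1,k2,k2,k1,k1,k2,k2,k1,k1] k0 [] k12 k5
    [[(k6,k5),(k10,k5)],[(k5,k4),(k3,k5)],[(k2,k4),(k0,k5)],[(k5,k3),(k3,k4)],[(k2,k3),(k0,k4)],[(k7,k3),(k11,k3)],
    [(k4,k3),(k8,k3)],[(k9,k3),(k1,k5)],[(k6,k3),(k10,k3)],[(k7,k3),(k11,k3)],[(k4,k3),(k8,k3)],[(k9,k3),(k1,k5)]]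
    [] k0
    [[k0,k2,k0,k0,k0,k0],[k0,k0,k0,k1,k1,k0],[k0,k0,k0,k0,k1,k1]]
    [.contra [z1],.ref k0 k0 [(z1,[y1,z1])],.ref k0 k1 [(z1,[y1,z1])]])]⟩

/-- classes `0 0 1 2 1 2`, types `C0 C0 C0 C0 C0 C2` -/
noncomputable def cU6_1299 : CertX :=
  ⟨[k4,k4,k20,k36,k20,k38],[(false,k0,[k0,k1,k2,k3,k4,k5])],[[[([z1,z1,z1,z0,z0,z1],z2)],[]]],
    [.old (.leafM k0 [k0,k1,k2,k5] [] [(k3,k4,z1,[y1,z1]),(k4,k3,z1,[y1,z1])]),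
    .old (.lp [k6,k4,k2,k4,k2,k4] [k0,k0,k1,k1,k2,k2,k1,k1,k2,k2,k1,k1] k0 [] k12 k5
    [[(k9,k4),(k10,k5)],[(k5,k4),(k3,k5)],[(k2,k4),(k0,k5)],[(k5,k3),(k3,k4)],[(k2,k3),(k0,k4)],[(k7,k3),(k11,k3)],
    [(k4,k3),(k8,k3)],[(k9,k3),(k10,k4)],[(k6,k3),(k1,k4)],[(k7,k3),(k11,k3)],[(k4,k3),(k8,k3)],[(k6,k4),(k1,k5)]]
    [] k0
    [[k0,k2,k0,k0,k0,k0],[k0,k0,k0,k1,k1,k0]]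
    [.contra [z1],.ref k0 k0 [(z1,[y1,z1])]])]⟩

/-- classes `0 0 1 2 1 2`, types `C0 C0 C0 C0 C2 C2` -/
noncomputable def cU6_1300 : CertX :=
  ⟨[k4,k4,k20,k36,k22,k38],[(false,k0,[k0,k1,k2,k3,k4,k5])],[[[([z1,z1,z1,z0,z1,z0],z2)],[]]],
    [.old (.leafM k1 [k0,k1,k2,k4] [] [(k3,k5,z1,[y1,z1]),(k5,k3,z1,[y1,z1])]),
    .old (.lp [k10,k8,k4,k10,k10,k2] [k0,k0,k1,k1,k3,k3,k0,k0,k0,k0,k4,k4] k0 [] k24 k5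
    [[(k10,k6),(k9,k10)],[(k5,k7),(k3,k9)],[(k2,k8),(k0,k9)],[(k5,k6),(k3,k8)],[(k2,k6),(k0,k7)],[(k7,k7),(k8,k7)],
    [(k11,k6),(k4,k7)],[(k10,k6),(k9,k10)],[(k1,k10),(k6,k10)],[(k11,k6),(k4,k7)],[(k7,k6),(k8,k6)],[(k1,k6),(k6,k6)]]
    [] k0
    [[k0,k2,k0,k0,k0,k0],[k0,k0,k0,k1,k0,k1]]
    [.contra [z1],.ref k0 k0 [(z1,[y1,z1])]])]⟩

/-- classes `0 0 1 2 1 2`, types `C0 C0 C0 N0 C0 N1` -/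
noncomputable def cU6_1301 : CertX :=
  ⟨[k4,k4,k20,k44,k20,k45],[(false,k0,[k0,k1,k2,k3,k4,k5])],[[[([z1,z1,z1,z1,z0,z0],z2)],[]]],
    [.old (.leafM k0 [k0,k1,k2,k3] [] [(k4,k5,z1,[y1,z1]),(k5,k4,z1,[y1,z1])]),
    .old (.lp [k6,k4,k2,k4,k2,k4] [k0,k0,k1,k1,k2,k2,k1,k1,k2,k2,k1,k1] k0 [] k12 k5
    [[(k6,k5)],[(k5,k4),(k3,k5)],[(k2,k4),(k0,k5)],[(k5,k3),(k3,k4)],[(k2,k3),(k0,k4)],[(k7,k3),(k11,k3)],[(k4,k3),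
    (k8,k3)],[(k1,k5)],[(k10,k3)],[(k7,k3),(k11,k3)],[(k4,k3),(k8,k3)],[(k9,k3)]]
    [] k0
    [[k0,k2,k0,k0,k0,k0],[k0,k0,k0,k0,k1,k1]]
    [.contra [z1],.ref k0 k0 [(z1,[y1,z1])]])]⟩

/-- classes `0 0 1 2 1 2`, types `C0 C0 C0 N0 C0 N2` -/
noncomputable def cU6_1302 : CertX :=
  ⟨[k4,k4,k20,k44,k20,k46],[],[[[]]],
    [.old (.lp [k2,k4,k2,k2,k2,k2] [k1,k1,k0,k0,k1,k1,k1,k1,k1,k1,k1,k1] k0 [] k8 k5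
    [[(k9,k2)],[(k5,k2),(k3,k3)],[(k0,k3),(k2,k4)],[(k5,k3),(k3,k4)],[(k0,k2),(k2,k3)],[(k7,k2),(k11,k2)],[(k4,k2),
    (k8,k2)],[(k10,k2)],[(k1,k2)],[(k7,k2),(k11,k2)],[(k4,k2),(k8,k2)],[(k6,k2)]]
    [] k0
    []
    [])]⟩

/-- classes `0 0 1 2 1 2`, types `C0 C0 C0 N0 C2 N1` -/
noncomputable def cU6_1303 : CertX :=
  ⟨[k4,k4,k20,k44,k22,k45],[(false,k0,[k0,k1,k2,k3,k4,k5])],[[[([z1,z1,z1,z1,z0,z0],z2)],[]]],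
    [.old (.leafM k0 [k0,k1,k2,k3] [] [(k4,k5,z1,[y1,z1]),(k5,k4,z1,[y1,z1])]),
    .old (.lp [k4,k4,k2,k6,k6,k0] [k1,k1,k1,k1,k2,k2,k0,k0,k0,k0,k3,k3] k0 [] k12 k5
    [[(k6,k5)],[(k5,k3),(k3,k4)],[(k0,k4),(k2,k4)],[(k5,k3),(k3,k4)],[(k0,k3),(k2,k3)],[(k7,k4),(k8,k4)],[(k11,k3),
    (k4,k4)],[(k1,k5)],[(k10,k3)],[(k11,k3),(k4,k4)],[(k7,k3),(k8,k3)],[(k9,k3)]]
    [] k0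
    [[k0,k2,k0,k0,k0,k0],[k0,k0,k0,k0,k1,k1]]
    [.contra [z1],.ref k0 k0 [(z1,[y1,z1])]])]⟩

/-- classes `0 0 1 2 1 2`, types `C0 C0 C0 N0 C2 N2` -/
noncomputable def cU6_1304 : CertX :=
  ⟨[k4,k4,k20,k44,k22,k46],[(false,k0,[k0,k1,k2,k3,k4,k5])],[[[([z1,z1,z1,z0,z1,z0],z2)],[]]],
    [.old (.leafM k1 [k0,k1,k2,k4] [] [(k3,k5,z1,[y1,z1]),(k5,k3,z1,[y1,z1])]),
    .old (.lp [k4,k4,k2,k6,k6,k0] [k1,k1,k1,k1,k2,k2,k0,k0,k0,k0,k3,k3] k0 [] k12 k5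
    [[(k9,k5)],[(k5,k3),(k3,k4)],[(k0,k4),(k2,k4)],[(k5,k3),(k3,k4)],[(k0,k3),(k2,k3)],[(k7,k4),(k8,k4)],[(k11,k3),
    (k4,k4)],[(k10,k3)],[(k1,k5)],[(k11,k3),(k4,k4)],[(k7,k3),(k8,k3)],[(k6,k3)]]
    [] k0
    [[k0,k2,k0,k0,k0,k0],[k0,k0,k0,k1,k0,k1]]
    [.contra [z1],.ref k0 k0 [(z1,[y1,z1])]])]⟩

/-- classes `0 0 1 2 1 2`, types `C0 C0 C0 S0 C0 S0` -/
noncomputable def cU6_1305 : CertX :=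
  ⟨[k4,k4,k20,k32,k20,k32],[(false,k0,[k0,k1,k2,k3,k4,k5])],[[[([z1,z1,z1,z1,z0,z0],z2)],[([z1,z1,z1,z0,z0,z1],z2)],
    []]],
    [.old (.leafM k0 [k0,k1,k2,k3] [] [(k4,k5,z1,[y1,z1]),(k5,k4,z1,[y1,z1])]),
    .old (.leafM k0 [k0,k1,k2,k5] [] [(k3,k4,z1,[y1,z1]),(k4,k3,z1,[y1,z1])]),
    .old (.lp [k12,k8,k6,k6,k6,k6] [k0,k0,k2,k2,k3,k3,k3,k3,k3,k3,k3,k3] k0 [] k24 k5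
    [[(k6,k9),(k9,k9),(k10,k9),(k1,k12)],[(k5,k9),(k3,k10)],[(k2,k8),(k0,k10)],[(k5,k7),(k3,k8)],[(k2,k7),(k0,k9)],
    [(k7,k6),(k11,k6)],[(k4,k6),(k8,k6)],[(k6,k6),(k9,k6),(k10,k6),(k1,k9)],[(k6,k6),(k9,k6),(k10,k6),(k1,k9)],[(k7,
    k6),(k11,k6)],[(k4,k6),(k8,k6)],[(k6,k6),(k9,k6),(k10,k6),(k1,k9)]]
    [] k0
    [[k0,k2,k0,k0,k0,k0],[k0,k0,k0,k1,k1,k0],[k0,k0,k0,k0,k1,k1]]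
    [.contra [z1],.ref k1 k0 [(z1,[y1,z1])],.ref k0 k0 [(z1,[y1,z1])]])]⟩

/-- classes `0 0 1 2 1 2`, types `C0 C0 C0 S0 C2 S0` -/
noncomputable def cU6_1306 : CertX :=
  ⟨[k4,k4,k20,k32,k22,k32],[(false,k0,[k0,k1,k2,k3,k4,k5])],[[[([z1,z1,z1,z1,z0,z0],z2)],[([z1,z1,z1,z0,z1,z0],z2)],
    []]],
    [.old (.leafM k0 [k0,k1,k2,k3] [] [(k4,k5,z1,[y1,z1]),(k5,k4,z1,[y1,z1])]),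
    .old (.leafM k1 [k0,k1,k2,k4] [] [(k3,k5,z1,[y1,z1]),(k5,k3,z1,[y1,z1])]),
    .old (.lp [k12,k8,k6,k6,k6,k6] [k0,k0,k2,k2,k3,k3,k3,k3,k3,k3,k3,k3] k0 [] k24 k5
    [[(k6,k9),(k9,k9),(k10,k9),(k1,k12)],[(k5,k9),(k3,k10)],[(k2,k8),(k0,k10)],[(k5,k7),(k3,k8)],[(k2,k7),(k0,k9)],
    [(k7,k6),(k8,k6)],[(k4,k6),(k11,k6)],[(k6,k6),(k9,k6),(k10,k6),(k1,k9)],[(k6,k6),(k9,k6),(k10,k6),(k1,k9)],[(k4,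
    k6),(k11,k6)],[(k7,k6),(k8,k6)],[(k6,k6),(k9,k6),(k10,k6),(k1,k9)]]
    [] k0
    [[k0,k2,k0,k0,k0,k0],[k0,k0,k0,k1,k0,k1],[k0,k0,k0,k0,k1,k1]]
    [.contra [z1],.ref k1 k0 [(z1,[y1,z1])],.ref k0 k0 [(z1,[y1,z1])]])]⟩

/-- classes `0 0 1 2 1 2`, types `C0 C0 N0 N0 N1 N1` -/
noncomputable def cU6_1307 : CertX :=
  ⟨[k4,k4,k28,k44,k29,k45],[],[[[]]],
    [.old (.lp [k2,k4,k2,k2,k2,k2] [k1,k1,k0,k0,k1,k1,k1,k1,k1,k1,k1,k1] k0 [] k8 k5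
    [[(k6,k2)],[(k5,k2),(k3,k3)],[(k0,k3),(k2,k4)],[(k5,k3),(k3,k4)],[(k0,k2),(k2,k3)],[(k11,k2)],[(k8,k2)],[(k1,k2)],
    [(k10,k2)],[(k7,k2)],[(k4,k2)],[(k9,k2)]]
    [] k0
    []
    [])]⟩

/-- classes `0 0 1 2 1 2`, types `C0 C0 N0 N0 N1 N2` -/
noncomputable def cU6_1308 : CertX :=
  ⟨[k4,k4,k28,k44,k29,k46],[],[[[]]],
    [.old (.lp [k2,k4,k2,k2,k2,k2] [k1,k1,k0,k0,k1,k1,k1,k1,k1,k1,k1,k1] k0 [] k8 k5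
    [[(k9,k2)],[(k5,k2),(k3,k3)],[(k0,k3),(k2,k4)],[(k5,k3),(k3,k4)],[(k0,k2),(k2,k3)],[(k11,k2)],[(k8,k2)],[(k10,
    k2)],[(k1,k2)],[(k7,k2)],[(k4,k2)],[(k6,k2)]]
    [] k0
    []
    [])]⟩

/-- classes `0 0 1 2 1 2`, types `C0 C0 N0 N0 N2 N2` -/
noncomputable def cU6_1309 : CertX :=
  ⟨[k4,k4,k28,k44,k30,k46],[(false,k0,[k0,k1,k2,k3,k4,k5])],[[[([z1,z1,z1,z0,z1,z0],z2)],[]]],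
    [.old (.leafM k1 [k0,k1,k2,k4] [] [(k3,k5,z1,[y1,z1]),(k5,k3,z1,[y1,z1])]),
    .old (.lp [k6,k4,k2,k6,k4,k0] [k0,k0,k1,k1,k2,k2,k0,k0,k1,k1,k3,k3] k0 [] k12 k5
    [[(k9,k5)],[(k5,k4),(k3,k5)],[(k2,k4),(k0,k5)],[(k5,k3),(k3,k4)],[(k2,k3),(k0,k4)],[(k8,k3)],[(k11,k3)],[(k10,
    k3)],[(k1,k5)],[(k4,k3)],[(k7,k3)],[(k6,k3)]]
    [] k0
    [[k0,k2,k0,k0,k0,k0],[k0,k0,k0,k1,k0,k1]]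
    [.contra [z1],.ref k0 k0 [(z1,[y1,z1])]])]⟩

/-- classes `0 0 1 2 1 2`, types `C0 C0 N0 S0 N1 S0` -/
noncomputable def cU6_1310 : CertX :=
  ⟨[k4,k4,k28,k32,k29,k32],[(false,k0,[k0,k1,k2,k3,k4,k5])],[[[([z1,z1,z1,z0,z0,z1],z2)],[]]],
    [.old (.leafM k0 [k0,k1,k2,k5] [] [(k3,k4,z1,[y1,z1]),(k4,k3,z1,[y1,z1])]),
    .old (.lp [k12,k8,k4,k6,k6,k8] [k0,k0,k2,k2,k4,k4,k3,k3,k3,k3,k2,k2] k0 [] k24 k5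
    [[(k6,k9),(k9,k9),(k10,k10),(k1,k12)],[(k5,k8),(k3,k10)],[(k2,k8),(k0,k10)],[(k5,k6),(k3,k8)],[(k2,k6),(k0,k8)],
    [(k11,k6)],[(k8,k6)],[(k6,k6),(k9,k6),(k10,k7),(k1,k9)],[(k6,k6),(k9,k6),(k10,k7),(k1,k9)],[(k7,k6)],[(k4,k6)],
    [(k6,k7),(k9,k7),(k10,k8),(k1,k10)]]
    [] k0
    [[k0,k2,k0,k0,k0,k0],[k0,k0,k0,k1,k1,k0]]
    [.contra [z1],.ref k0 k0 [(z1,[y1,z1])]])]⟩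

/-- classes `0 0 1 2 1 2`, types `C0 C0 N0 S0 N2 S0` -/
noncomputable def cU6_1311 : CertX :=
  ⟨[k4,k4,k28,k32,k30,k32],[(false,k0,[k0,k1,k2,k3,k4,k5])],[[[([z1,z1,z1,z0,z1,z0],z2)],[]]],
    [.old (.leafM k1 [k0,k1,k2,k4] [] [(k3,k5,z1,[y1,z1]),(k5,k3,z1,[y1,z1])]),
    .old (.lp [k12,k8,k4,k6,k8,k6] [k0,k0,k2,k2,k4,k4,k3,k3,k2,k2,k3,k3] k0 [] k24 k5
    [[(k6,k9),(k10,k9),(k9,k10),(k1,k12)],[(k5,k8),(k3,k10)],[(k2,k8),(k0,k10)],[(k5,k6),(k3,k8)],[(k2,k6),(k0,k8)],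
    [(k8,k6)],[(k11,k6)],[(k6,k6),(k10,k6),(k9,k7),(k1,k9)],[(k6,k7),(k10,k7),(k9,k8),(k1,k10)],[(k4,k6)],[(k7,k6)],
    [(k6,k6),(k10,k6),(k9,k7),(k1,k9)]]
    [] k0
    [[k0,k2,k0,k0,k0,k0],[k0,k0,k0,k1,k0,k1]]
    [.contra [z1],.ref k0 k0 [(z1,[y1,z1])]])]⟩

/-- classes `0 0 1 2 1 2`, types `C0 C0 S0 S0 S0 S0` -/
noncomputable def cU6_1312 : CertX :=
  ⟨[k4,k4,k16,k32,k16,k32],[(false,k0,[k0,k1,k2,k3,k4,k5]),(true,k2,[k2,k1,k0,k5,k4,k3])],[[[([z1,z1,z1,z0,z0,z1],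
    z2)],[([z1,z1,z1,z0,z1,z0],z2)],[]]],
    [.old (.leafM k0 [k0,k1,k2,k5] [] [(k3,k4,z1,[y1,z1]),(k4,k3,z1,[y1,z1])]),
    .old (.leafM k1 [k0,k1,k2,k4] [] [(k3,k5,z1,[y1,z1]),(k5,k3,z1,[y1,z1])]),
    .old (.lp [k6,k8,k10,k10,k6,k6] [k2,k2,k1,k1,k0,k0,k0,k0,k2,k2,k2,k2] k0 [[],[],[],[],[k0,k0,k0,k0,k0,k4],[k0,k0,k0,
    k0,k0,k0,k0,k0,k0,k2],[k0,k0,k0,k0,k0,k0,k0,k0,k0,k0,k0,k2],[],[k0,k0,k0,k0,k2],[],[k0,k0,k0,k0,k0,k0,k0,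
    k2]] k24 k5
    [[(k1,k6),(k10,k6),(k6,k8),(k9,k8)],[(k3,k7),(k5,k8)],[(k0,k7),(k2,k8)],[(k3,k8),(k5,k9)],[(k0,k8),(k2,k9)],[(k4,
    k6),(k8,k8),(k7,k10),(k11,k10)],[(k8,k6),(k11,k8),(k4,k10),(k7,k14)],[(k10,k6),(k1,k8),(k9,k8),(k6,k10)],[(k9,k6),
    (k10,k6),(k1,k8),(k6,k8)],[(k7,k6),(k8,k6),(k11,k6),(k4,k8)],[(k8,k6),(k11,k6),(k7,k8),(k4,k10)],[(k1,k6),(k6,k6),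
    (k9,k6),(k10,k6)]]
    [] k0
    [[k0,k2,k0,k0,k0,k0],[k0,k0,k0,k1,k1,k0],[k0,k0,k0,k1,k0,k1],[k0,k0,k0,k0,k2,k0],[k0,k0,k0,k0,k1,k1],[k0,k0,k0,k0,
    k0,k2]]
    [.contra [z1],.ref k0 k0 [(z1,[y1,z1])],.ref k1 k0 [(z1,[y1,z1])],.contra [z1],.ref k0 k1 [(z1,[y1,z1])],
    .contra [z1]])]⟩

/-- classes `0 0 1 2 1 2`, types `C0 C2 B0 B0 B1 B1` -/
noncomputable def cU6_1313 : CertX :=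
  ⟨[k4,k6,k24,k40,k25,k41],[(false,k0,[k0,k1,k2,k3,k4,k5])],[[[([z1,z1,z1,z0,z1,z0],z2)],[]]],
    [.old (.leafM k1 [k0,k1,k2,k4] [] [(k3,k5,z1,[y1,z1]),(k5,k3,z1,[y1,z1])]),
    .old (.lp [k2,k2,k2,k2,k2,k2] [k0,k0,k0,k0,k0,k0,k0,k0,k0,k0,k0,k0] k0 [] k8 k5
    [[(k6,k2),(k9,k2)],[(k2,k2),(k3,k2)],[(k0,k2),(k5,k2)],[(k0,k2),(k5,k2)],[(k2,k2),(k3,k2)],[(k8,k2),(k11,k2)],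
    [(k8,k2),(k11,k2)],[(k1,k2),(k10,k2)],[(k1,k2),(k10,k2)],[(k4,k2),(k7,k2)],[(k4,k2),(k7,k2)],[(k6,k2),(k9,k2)]]
    [] k0
    [[k0,k0,k0,k1,k0,k1]]
    [.ref k0 k0 [(z1,[y1,z1])]])]⟩

/-- classes `0 0 1 2 1 2`, types `C0 C2 B0 C0 B1 C0` -/
noncomputable def cU6_1314 : CertX :=
  ⟨[k4,k6,k24,k36,k25,k36],[(false,k0,[k0,k1,k2,k3,k4,k5])],[[[([z1,z1,z1,z0,z0,z1],z2)],[]]],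
    [.old (.leafM k0 [k0,k1,k2,k5] [] [(k3,k4,z1,[y1,z1]),(k4,k3,z1,[y1,z1])]),
    .old (.lp [k2,k2,k2,k2,k2,k2] [k0,k0,k0,k0,k0,k0,k0,k0,k0,k0,k0,k0] k0 [] k8 k5
    [[(k6,k2),(k10,k2)],[(k2,k2),(k3,k2)],[(k0,k2),(k5,k2)],[(k0,k2),(k5,k2)],[(k2,k2),(k3,k2)],[(k8,k2),(k11,k2)],
    [(k8,k2),(k11,k2)],[(k1,k2),(k9,k2)],[(k6,k2),(k10,k2)],[(k4,k2),(k7,k2)],[(k4,k2),(k7,k2)],[(k1,k2),(k9,k2)]]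
    [] k0
    [[k0,k0,k0,k1,k1,k0]]
    [.ref k0 k0 [(z1,[y1,z1])]])]⟩

/-- classes `0 0 1 2 1 2`, types `C0 C2 B0 C0 B1 C2` -/
noncomputable def cU6_1315 : CertX :=
  ⟨[k4,k6,k24,k36,k25,k38],[(false,k0,[k0,k1,k2,k3,k4,k5])],[[[([z1,z1,z1,z0,z1,z0],z2)],[([z1,z1,z1,z0,z0,z1],z2)],
    []]],
    [.old (.leafM k1 [k0,k1,k2,k4] [] [(k3,k5,z1,[y1,z1]),(k5,k3,z1,[y1,z1])]),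
    .old (.leafM k0 [k0,k1,k2,k5] [] [(k3,k4,z1,[y1,z1]),(k4,k3,z1,[y1,z1])]),
    .old (.lp [k2,k0,k2,k2,k0,k0] [k0,k0,k1,k1,k0,k0,k0,k0,k1,k1,k1,k1] k0 [] k4 k5
    [[(k9,k1),(k10,k1)],[(k2,k1),(k3,k1)],[(k0,k1),(k5,k1)],[(k0,k1),(k5,k1)],[(k2,k1),(k3,k1)],[(k8,k1),(k11,k1)],
    [(k8,k1),(k11,k1)],[(k9,k1),(k10,k1)],[(k1,k1),(k6,k1)],[(k4,k1),(k7,k1)],[(k4,k1),(k7,k1)],[(k1,k1),(k6,k1)]]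
    [] k0
    [[k0,k0,k0,k1,k1,k0],[k0,k0,k0,k1,k0,k1]]
    [.ref k1 k0 [(z1,[y1,z1])],.ref k0 k0 [(z1,[y1,z1])]])]⟩

/-- classes `0 0 1 2 1 2`, types `C0 C2 B0 N0 B1 N1` -/
noncomputable def cU6_1316 : CertX :=
  ⟨[k4,k6,k24,k44,k25,k45],[],[[[]]],
    [.old (.lp [k2,k2,k2,k2,k2,k2] [k0,k0,k0,k0,k0,k0,k0,k0,k0,k0,k0,k0] k0 [] k8 k5
    [[(k6,k2)],[(k2,k2),(k3,k2)],[(k0,k2),(k5,k2)],[(k0,k2),(k5,k2)],[(k2,k2),(k3,k2)],[(k8,k2),(k11,k2)],[(k8,k2),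
    (k11,k2)],[(k1,k2)],[(k10,k2)],[(k4,k2),(k7,k2)],[(k4,k2),(k7,k2)],[(k9,k2)]]
    [] k0
    []
    [])]⟩

/-- classes `0 0 1 2 1 2`, types `C0 C2 B0 N0 B1 N2` -/
noncomputable def cU6_1317 : CertX :=
  ⟨[k4,k6,k24,k44,k25,k46],[(false,k0,[k0,k1,k2,k3,k4,k5])],[[[([z1,z1,z1,z0,z1,z0],z2)],[]]],
    [.old (.leafM k1 [k0,k1,k2,k4] [] [(k3,k5,z1,[y1,z1]),(k5,k3,z1,[y1,z1])]),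
    .old (.lp [k2,k0,k2,k2,k0,k0] [k0,k0,k1,k1,k0,k0,k0,k0,k1,k1,k1,k1] k0 [] k4 k5
    [[(k9,k1)],[(k2,k1),(k3,k1)],[(k0,k1),(k5,k1)],[(k0,k1),(k5,k1)],[(k2,k1),(k3,k1)],[(k8,k1),(k11,k1)],[(k8,k1),
    (k11,k1)],[(k10,k1)],[(k1,k1)],[(k4,k1),(k7,k1)],[(k4,k1),(k7,k1)],[(k6,k1)]]
    [] k0
    [[k0,k0,k0,k1,k0,k1]]
    [.ref k0 k0 [(z1,[y1,z1])]])]⟩

/-- classes `0 0 1 2 1 2`, types `C0 C2 B0 S0 B1 S0` -/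
noncomputable def cU6_1318 : CertX :=
  ⟨[k4,k6,k24,k32,k25,k32],[(false,k0,[k0,k1,k2,k3,k4,k5])],[[[([z1,z1,z1,z0,z1,z0],z2)],[([z1,z1,z1,z0,z0,z1],z2)],
    []]],
    [.old (.leafM k1 [k0,k1,k2,k4] [] [(k3,k5,z1,[y1,z1]),(k5,k3,z1,[y1,z1])]),
    .old (.leafM k0 [k0,k1,k2,k5] [] [(k3,k4,z1,[y1,z1]),(k4,k3,z1,[y1,z1])]),
    .old (.lp [k6,k4,k4,k4,k4,k4] [k0,k0,k1,k1,k1,k1,k1,k1,k1,k1,k1,k1] k0 [] k16 k5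
    [[(k6,k5),(k9,k5),(k10,k5),(k1,k6)],[(k2,k5),(k3,k5)],[(k5,k4),(k0,k5)],[(k5,k4),(k0,k5)],[(k2,k4),(k3,k4)],[(k8,
    k4),(k11,k4)],[(k8,k4),(k11,k4)],[(k6,k4),(k9,k4),(k10,k4),(k1,k5)],[(k6,k4),(k9,k4),(k10,k4),(k1,k5)],[(k4,k4),
    (k7,k4)],[(k4,k4),(k7,k4)],[(k6,k4),(k9,k4),(k10,k4),(k1,k5)]]
    [] k0
    [[k0,k0,k0,k1,k1,k0],[k0,k0,k0,k1,k0,k1]]
    [.ref k1 k0 [(z1,[y1,z1])],.ref k0 k0 [(z1,[y1,z1])]])]⟩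

/-- classes `0 0 1 2 1 2`, types `C0 C2 C0 C0 C0 C0` -/
noncomputable def cU6_1319 : CertX :=
  ⟨[k4,k6,k20,k36,k20,k36],[(false,k0,[k0,k1,k2,k3,k4,k5]),(true,k2,[k2,k1,k0,k5,k4,k3])],[[[([z1,z1,z1,z0,z0,z1],
    z2)],[]]],
    [.old (.leafM k0 [k0,k1,k2,k5] [] [(k3,k4,z1,[y1,z1]),(k4,k3,z1,[y1,z1])]),
    .old (.lp [k2,k0,k2,k0,k2,k0] [k0,k0,k1,k1,k0,k0,k1,k1,k0,k0,k1,k1] k0 [] k4 k5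
    [[(k6,k1),(k10,k1)],[(k2,k1),(k3,k1)],[(k0,k1),(k5,k1)],[(k0,k1),(k5,k1)],[(k2,k1),(k3,k1)],[(k7,k1),(k11,k1)],
    [(k4,k1),(k8,k1)],[(k1,k1),(k9,k1)],[(k6,k1),(k10,k1)],[(k7,k1),(k11,k1)],[(k4,k1),(k8,k1)],[(k1,k1),(k9,k1)]]
    [] k0
    [[k0,k0,k0,k1,k1,k0],[k0,k0,k0,k0,k1,k1]]
    [.ref k0 k0 [(z1,[y1,z1])],.ref k0 k1 [(z1,[y1,z1])]])]⟩

/-- classes `0 0 1 2 1 2`, types `C0 C2 C0 C0 C0 C2` -/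
noncomputable def cU6_1320 : CertX :=
  ⟨[k4,k6,k20,k36,k20,k38],[(false,k0,[k0,k1,k2,k3,k4,k5])],[[[([z1,z1,z1,z0,z0,z1],z2)],[]]],
    [.old (.leafM k0 [k0,k1,k2,k5] [] [(k3,k4,z1,[y1,z1]),(k4,k3,z1,[y1,z1])]),
    .old (.lp [k2,k2,k2,k2,k2,k2] [k0,k0,k0,k0,k0,k0,k0,k0,k0,k0,k0,k0] k0 [] k8 k5
    [[(k9,k2),(k10,k2)],[(k2,k2),(k3,k2)],[(k0,k2),(k5,k2)],[(k0,k2),(k5,k2)],[(k2,k2),(k3,k2)],[(k7,k2),(k11,k2)],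
    [(k4,k2),(k8,k2)],[(k9,k2),(k10,k2)],[(k1,k2),(k6,k2)],[(k7,k2),(k11,k2)],[(k4,k2),(k8,k2)],[(k1,k2),(k6,k2)]]
    [] k0
    [[k0,k0,k0,k1,k1,k0]]
    [.ref k0 k0 [(z1,[y1,z1])]])]⟩

/-- classes `0 0 1 2 1 2`, types `C0 C2 C0 C0 C2 C2` -/
noncomputable def cU6_1321 : CertX :=
  ⟨[k4,k6,k20,k36,k22,k38],[(false,k0,[k0,k1,k2,k3,k4,k5])],[[[([z1,z1,z1,z0,z1,z0],z2)],[]]],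
    [.old (.leafM k1 [k0,k1,k2,k4] [] [(k3,k5,z1,[y1,z1]),(k5,k3,z1,[y1,z1])]),
    .old (.lp [k2,k2,k2,k2,k2,k2] [k0,k0,k0,k0,k0,k0,k0,k0,k0,k0,k0,k0] k0 [] k8 k5
    [[(k9,k2),(k10,k2)],[(k2,k2),(k3,k2)],[(k0,k2),(k5,k2)],[(k0,k2),(k5,k2)],[(k2,k2),(k3,k2)],[(k7,k2),(k8,k2)],
    [(k4,k2),(k11,k2)],[(k9,k2),(k10,k2)],[(k1,k2),(k6,k2)],[(k4,k2),(k11,k2)],[(k7,k2),(k8,k2)],[(k1,k2),(k6,k2)]]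
    [] k0
    [[k0,k0,k0,k1,k0,k1]]
    [.ref k0 k0 [(z1,[y1,z1])]])]⟩

/-- classes `0 0 1 2 1 2`, types `C0 C2 C0 N0 C0 N1` -/
noncomputable def cU6_1322 : CertX :=
  ⟨[k4,k6,k20,k44,k20,k45],[(false,k0,[k0,k1,k2,k3,k4,k5])],[[[([z1,z1,z1,z1,z0,z0],z2)],[]]],
    [.old (.leafM k0 [k0,k1,k2,k3] [] [(k4,k5,z1,[y1,z1]),(k5,k4,z1,[y1,z1])]),
    .old (.lp [k2,k0,k2,k0,k2,k0] [k0,k0,k1,k1,k0,k0,k1,k1,k0,k0,k1,k1] k0 [] k4 k5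
    [[(k6,k1)],[(k2,k1),(k3,k1)],[(k0,k1),(k5,k1)],[(k0,k1),(k5,k1)],[(k2,k1),(k3,k1)],[(k7,k1),(k11,k1)],[(k4,k1),
    (k8,k1)],[(k1,k1)],[(k10,k1)],[(k7,k1),(k11,k1)],[(k4,k1),(k8,k1)],[(k9,k1)]]
    [] k0
    [[k0,k0,k0,k0,k1,k1]]
    [.ref k0 k0 [(z1,[y1,z1])]])]⟩

/-- classes `0 0 1 2 1 2`, types `C0 C2 C0 N0 C0 N2` -/
noncomputable def cU6_1323 : CertX :=
  ⟨[k4,k6,k20,k44,k20,k46],[],[[[]]],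
    [.old (.lp [k2,k2,k2,k2,k2,k2] [k0,k0,k0,k0,k0,k0,k0,k0,k0,k0,k0,k0] k0 [] k8 k5
    [[(k9,k2)],[(k2,k2),(k3,k2)],[(k0,k2),(k5,k2)],[(k0,k2),(k5,k2)],[(k2,k2),(k3,k2)],[(k7,k2),(k11,k2)],[(k4,k2),
    (k8,k2)],[(k10,k2)],[(k1,k2)],[(k7,k2),(k11,k2)],[(k4,k2),(k8,k2)],[(k6,k2)]]
    [] k0
    []
    [])]⟩

/-- classes `0 0 1 2 1 2`, types `C0 C2 C0 N0 C2 N1` -/
noncomputable def cU6_1324 : CertX :=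
  ⟨[k4,k6,k20,k44,k22,k45],[(false,k0,[k0,k1,k2,k3,k4,k5])],[[[([z1,z1,z1,z1,z0,z0],z2)],[]]],
    [.old (.leafM k0 [k0,k1,k2,k3] [] [(k4,k5,z1,[y1,z1]),(k5,k4,z1,[y1,z1])]),
    .old (.lp [k0,k2,k0,k2,k2,k0] [k1,k1,k0,k0,k1,k1,k0,k0,k0,k0,k1,k1] k0 [] k4 k5
    [[(k6,k1)],[(k2,k1),(k3,k1)],[(k0,k1),(k5,k1)],[(k0,k1),(k5,k1)],[(k2,k1),(k3,k1)],[(k7,k1),(k8,k1)],[(k4,k1),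
    (k11,k1)],[(k1,k1)],[(k10,k1)],[(k4,k1),(k11,k1)],[(k7,k1),(k8,k1)],[(k9,k1)]]
    [] k0
    [[k0,k0,k0,k0,k1,k1]]
    [.ref k0 k0 [(z1,[y1,z1])]])]⟩

/-- classes `0 0 1 2 1 2`, types `C0 C2 C0 N0 C2 N2` -/
noncomputable def cU6_1325 : CertX :=
  ⟨[k4,k6,k20,k44,k22,k46],[(false,k0,[k0,k1,k2,k3,k4,k5])],[[[([z1,z1,z1,z0,z1,z0],z2)],[]]],
    [.old (.leafM k1 [k0,k1,k2,k4] [] [(k3,k5,z1,[y1,z1]),(k5,k3,z1,[y1,z1])]),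
    .old (.lp [k0,k2,k0,k2,k2,k0] [k1,k1,k0,k0,k1,k1,k0,k0,k0,k0,k1,k1] k0 [] k4 k5
    [[(k9,k1)],[(k2,k1),(k3,k1)],[(k0,k1),(k5,k1)],[(k0,k1),(k5,k1)],[(k2,k1),(k3,k1)],[(k7,k1),(k8,k1)],[(k4,k1),
    (k11,k1)],[(k10,k1)],[(k1,k1)],[(k4,k1),(k11,k1)],[(k7,k1),(k8,k1)],[(k6,k1)]]
    [] k0
    [[k0,k0,k0,k1,k0,k1]]
    [.ref k0 k0 [(z1,[y1,z1])]])]⟩

/-- classes `0 0 1 2 1 2`, types `C0 C2 C0 S0 C0 S0` -/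
noncomputable def cU6_1326 : CertX :=
  ⟨[k4,k6,k20,k32,k20,k32],[(false,k0,[k0,k1,k2,k3,k4,k5])],[[[([z1,z1,z1,z1,z0,z0],z2)],[([z1,z1,z1,z0,z0,z1],z2)],
    []]],
    [.old (.leafM k0 [k0,k1,k2,k3] [] [(k4,k5,z1,[y1,z1]),(k5,k4,z1,[y1,z1])]),
    .old (.leafM k0 [k0,k1,k2,k5] [] [(k3,k4,z1,[y1,z1]),(k4,k3,z1,[y1,z1])]),
    .old (.lp [k6,k4,k4,k4,k4,k4] [k0,k0,k1,k1,k1,k1,k1,k1,k1,k1,k1,k1] k0 [] k16 k5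
    [[(k6,k5),(k9,k5),(k10,k5),(k1,k6)],[(k2,k5),(k3,k5)],[(k5,k4),(k0,k5)],[(k5,k4),(k0,k5)],[(k2,k4),(k3,k4)],[(k7,
    k4),(k11,k4)],[(k4,k4),(k8,k4)],[(k6,k4),(k9,k4),(k10,k4),(k1,k5)],[(k6,k4),(k9,k4),(k10,k4),(k1,k5)],[(k7,k4),
    (k11,k4)],[(k4,k4),(k8,k4)],[(k6,k4),(k9,k4),(k10,k4),(k1,k5)]]
    [] k0
    [[k0,k0,k0,k1,k1,k0],[k0,k0,k0,k0,k1,k1]]
    [.ref k1 k0 [(z1,[y1,z1])],.ref k0 k0 [(z1,[y1,z1])]])]⟩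

/-- classes `0 0 1 2 1 2`, types `C0 C2 C0 S0 C2 S0` -/
noncomputable def cU6_1327 : CertX :=
  ⟨[k4,k6,k20,k32,k22,k32],[(false,k0,[k0,k1,k2,k3,k4,k5])],[[[([z1,z1,z1,z1,z0,z0],z2)],[([z1,z1,z1,z0,z1,z0],z2)],
    []]],
    [.old (.leafM k0 [k0,k1,k2,k3] [] [(k4,k5,z1,[y1,z1]),(k5,k4,z1,[y1,z1])]),
    .old (.leafM k1 [k0,k1,k2,k4] [] [(k3,k5,z1,[y1,z1]),(k5,k3,z1,[y1,z1])]),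
    .old (.lp [k6,k4,k4,k4,k4,k4] [k0,k0,k1,k1,k1,k1,k1,k1,k1,k1,k1,k1] k0 [] k16 k5
    [[(k6,k5),(k9,k5),(k10,k5),(k1,k6)],[(k2,k5),(k3,k5)],[(k5,k4),(k0,k5)],[(k5,k4),(k0,k5)],[(k2,k4),(k3,k4)],[(k7,
    k4),(k8,k4)],[(k4,k4),(k11,k4)],[(k6,k4),(k9,k4),(k10,k4),(k1,k5)],[(k6,k4),(k9,k4),(k10,k4),(k1,k5)],[(k4,k4),
    (k11,k4)],[(k7,k4),(k8,k4)],[(k6,k4),(k9,k4),(k10,k4),(k1,k5)]]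
    [] k0
    [[k0,k0,k0,k1,k0,k1],[k0,k0,k0,k0,k1,k1]]
    [.ref k1 k0 [(z1,[y1,z1])],.ref k0 k0 [(z1,[y1,z1])]])]⟩

/-- classes `0 0 1 2 1 2`, types `C0 C2 N0 N0 N1 N1` -/
noncomputable def cU6_1328 : CertX :=
  ⟨[k4,k6,k28,k44,k29,k45],[],[[[]]],
    [.old (.lp [k2,k0,k2,k0,k2,k0] [k0,k0,k1,k1,k0,k0,k1,k1,k0,k0,k1,k1] k0 [] k4 k5
    [[(k6,k1)],[(k2,k1),(k3,k1)],[(k0,k1),(k5,k1)],[(k0,k1),(k5,k1)],[(k2,k1),(k3,k1)],[(k11,k1)],[(k8,k1)],[(k1,k1)],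
    [(k10,k1)],[(k7,k1)],[(k4,k1)],[(k9,k1)]]
    [] k0
    []
    [])]⟩

/-- classes `0 0 1 2 1 2`, types `C0 C2 N0 N0 N1 N2` -/
noncomputable def cU6_1329 : CertX :=
  ⟨[k4,k6,k28,k44,k29,k46],[],[[[]]],
    [.old (.lp [k2,k0,k2,k2,k0,k0] [k0,k0,k1,k1,k0,k0,k0,k0,k1,k1,k1,k1] k0 [] k4 k5
    [[(k9,k1)],[(k2,k1),(k3,k1)],[(k0,k1),(k5,k1)],[(k0,k1),(k5,k1)],[(k2,k1),(k3,k1)],[(k11,k1)],[(k8,k1)],[(k10,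
    k1)],[(k1,k1)],[(k7,k1)],[(k4,k1)],[(k6,k1)]]
    [] k0
    []
    [])]⟩

/-- classes `0 0 1 2 1 2`, types `C0 C2 N0 N0 N2 N2` -/
noncomputable def cU6_1330 : CertX :=
  ⟨[k4,k6,k28,k44,k30,k46],[(false,k0,[k0,k1,k2,k3,k4,k5])],[[[([z1,z1,z1,z0,z1,z0],z2)],[]]],
    [.old (.leafM k1 [k0,k1,k2,k4] [] [(k3,k5,z1,[y1,z1]),(k5,k3,z1,[y1,z1])]),
    .old (.lp [k0,k2,k0,k2,k2,k0] [k1,k1,k0,k0,k1,k1,k0,k0,k0,k0,k1,k1] k0 [] k4 k5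
    [[(k9,k1)],[(k2,k1),(k3,k1)],[(k0,k1),(k5,k1)],[(k0,k1),(k5,k1)],[(k2,k1),(k3,k1)],[(k8,k1)],[(k11,k1)],[(k10,
    k1)],[(k1,k1)],[(k4,k1)],[(k7,k1)],[(k6,k1)]]
    [] k0
    [[k0,k0,k0,k1,k0,k1]]
    [.ref k0 k0 [(z1,[y1,z1])]])]⟩

/-- classes `0 0 1 2 1 2`, types `C0 C2 N0 S0 N1 S0` -/
noncomputable def cU6_1331 : CertX :=
  ⟨[k4,k6,k28,k32,k29,k32],[(false,k0,[k0,k1,k2,k3,k4,k5])],[[[([z1,z1,z1,z0,z0,z1],z2)],[]]],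
    [.old (.leafM k0 [k0,k1,k2,k5] [] [(k3,k4,z1,[y1,z1]),(k4,k3,z1,[y1,z1])]),
    .old (.lp [k6,k4,k4,k4,k4,k4] [k0,k0,k1,k1,k1,k1,k1,k1,k1,k1,k1,k1] k0 [] k16 k5
    [[(k6,k5),(k9,k5),(k10,k5),(k1,k6)],[(k2,k5),(k3,k5)],[(k5,k4),(k0,k5)],[(k5,k4),(k0,k5)],[(k2,k4),(k3,k4)],[(k11,
    k4)],[(k8,k4)],[(k6,k4),(k9,k4),(k10,k4),(k1,k5)],[(k6,k4),(k9,k4),(k10,k4),(k1,k5)],[(k7,k4)],[(k4,k4)],[(k6,k4),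
    (k9,k4),(k10,k4),(k1,k5)]]
    [] k0
    [[k0,k0,k0,k1,k1,k0]]
    [.ref k0 k0 [(z1,[y1,z1])]])]⟩

/-- classes `0 0 1 2 1 2`, types `C0 C2 N0 S0 N2 S0` -/
noncomputable def cU6_1332 : CertX :=
  ⟨[k4,k6,k28,k32,k30,k32],[(false,k0,[k0,k1,k2,k3,k4,k5])],[[[([z1,z1,z1,z0,z1,z0],z2)],[]]],
    [.old (.leafM k1 [k0,k1,k2,k4] [] [(k3,k5,z1,[y1,z1]),(k5,k3,z1,[y1,z1])]),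
    .old (.lp [k6,k4,k4,k4,k4,k4] [k0,k0,k1,k1,k1,k1,k1,k1,k1,k1,k1,k1] k0 [] k16 k5
    [[(k6,k5),(k9,k5),(k10,k5),(k1,k6)],[(k2,k5),(k3,k5)],[(k5,k4),(k0,k5)],[(k5,k4),(k0,k5)],[(k2,k4),(k3,k4)],[(k8,
    k4)],[(k11,k4)],[(k6,k4),(k9,k4),(k10,k4),(k1,k5)],[(k6,k4),(k9,k4),(k10,k4),(k1,k5)],[(k4,k4)],[(k7,k4)],[(k6,
    k4),(k9,k4),(k10,k4),(k1,k5)]]
    [] k0
    [[k0,k0,k0,k1,k0,k1]]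
    [.ref k0 k0 [(z1,[y1,z1])]])]⟩

/-- the certificates of this file -/
noncomputable def lU6_26 : List CertX :=
  [cU6_1154, cU6_1155, cU6_1156, cU6_1157, cU6_1158, cU6_1159, cU6_1160, cU6_1161, cU6_1162, cU6_1163,
      cU6_1164, cU6_1165, cU6_1166, cU6_1167, cU6_1168, cU6_1169, cU6_1170, cU6_1171, cU6_1172, cU6_1173,
      cU6_1174, cU6_1175, cU6_1176, cU6_1177, cU6_1178, cU6_1179, cU6_1180, cU6_1181, cU6_1182, cU6_1183,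
      cU6_1184, cU6_1185, cU6_1186, cU6_1187, cU6_1188, cU6_1189, cU6_1190, cU6_1191, cU6_1192, cU6_1193,
      cU6_1194, cU6_1195, cU6_1196, cU6_1197, cU6_1198, cU6_1199, cU6_1200, cU6_1201, cU6_1202, cU6_1203,
      cU6_1204, cU6_1205, cU6_1206, cU6_1207, cU6_1208, cU6_1209, cU6_1210, cU6_1211, cU6_1212, cU6_1213,
      cU6_1214, cU6_1215, cU6_1216, cU6_1217, cU6_1218, cU6_1219, cU6_1220, cU6_1221, cU6_1222, cU6_1223,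
      cU6_1224, cU6_1225, cU6_1226, cU6_1227, cU6_1228, cU6_1229, cU6_1230, cU6_1231, cU6_1232, cU6_1233,
      cU6_1234, cU6_1235, cU6_1236, cU6_1237, cU6_1238, cU6_1239, cU6_1240, cU6_1241, cU6_1242, cU6_1243,
      cU6_1244, cU6_1245, cU6_1246, cU6_1247, cU6_1248, cU6_1249, cU6_1250, cU6_1251, cU6_1252, cU6_1253,
      cU6_1254, cU6_1255, cU6_1256, cU6_1257, cU6_1258, cU6_1259, cU6_1260, cU6_1261, cU6_1262, cU6_1263,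
      cU6_1264, cU6_1265, cU6_1266, cU6_1267, cU6_1268, cU6_1269, cU6_1270, cU6_1271, cU6_1272, cU6_1273,
      cU6_1274, cU6_1275, cU6_1276, cU6_1277, cU6_1278, cU6_1279, cU6_1280, cU6_1281, cU6_1282, cU6_1283,
      cU6_1284, cU6_1285, cU6_1286, cU6_1287, cU6_1288, cU6_1289, cU6_1290, cU6_1291, cU6_1292, cU6_1293,
      cU6_1294, cU6_1295, cU6_1296, cU6_1297, cU6_1298, cU6_1299, cU6_1300, cU6_1301, cU6_1302, cU6_1303,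
      cU6_1304, cU6_1305, cU6_1306, cU6_1307, cU6_1308, cU6_1309, cU6_1310, cU6_1311, cU6_1312, cU6_1313,
      cU6_1314, cU6_1315, cU6_1316, cU6_1317, cU6_1318, cU6_1319, cU6_1320, cU6_1321, cU6_1322, cU6_1323,
      cU6_1324, cU6_1325, cU6_1326, cU6_1327, cU6_1328, cU6_1329, cU6_1330, cU6_1331, cU6_1332]

theorem gU6_26 : allF (chkE 6 ttU6) lU6_26 = true := by
  decide +kernel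

end Pool.Agent.Lib_MP_fa6e45
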