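import Pool.Agent.Lib_MP_fa6e45.CXT
import Pool.Agent.Lib_MP_fa6e45.HK

/-!
MP_fa6e45_co, stage 7: certificates (generated by a program).
-/

namespace Pool.Agent.Lib_MP_fa6e45

/-- classes `0 0 1 2 1 2`, types `C0 C2 S0 S0 S0 S0` -/
noncomputable def cU6_1333 : CertX :=
  ⟨[k4,k6,k16,k32,k16,k32],[(false,k0,[k0,k1,k2,k3,k4,k5]),(true,k2,[k2,k1,k0,k5,k4,k3])],[[[([z1,z1,z1,z0,z0,z1],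
    z2)],[([z1,z1,z1,z0,z1,z0],z2)],[]]],
    [.old (.leafM k0 [k0,k1,k2,k5] [] [(k3,k4,z1,[y1,z1]),(k4,k3,z1,[y1,z1])]),
    .old (.leafM k1 [k0,k1,k2,k4] [] [(k3,k5,z1,[y1,z1]),(k5,k3,z1,[y1,z1])]),
    .old (.lp [k2,k4,k2,k2,k2,k2] [k1,k1,k0,k0,k1,k1,k1,k1,k1,k1,k1,k1] k0 [] k8 k5
    [[(k1,k2),(k6,k2),(k9,k2),(k10,k2)],[(k2,k3),(k3,k3)],[(k0,k3),(k5,k3)],[(k0,k3),(k5,k3)],[(k2,k3),(k3,k3)],[(k4,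
    k2),(k7,k2),(k8,k2),(k11,k2)],[(k4,k2),(k7,k2),(k8,k2),(k11,k2)],[(k1,k2),(k6,k2),(k9,k2),(k10,k2)],[(k1,k2),(k6,
    k2),(k9,k2),(k10,k2)],[(k4,k2),(k7,k2),(k8,k2),(k11,k2)],[(k4,k2),(k7,k2),(k8,k2),(k11,k2)],[(k1,k2),(k6,k2),(k9,
    k2),(k10,k2)]]
    [] k0
    [[k0,k0,k0,k2,k0,k0],[k0,k0,k0,k1,k1,k0],[k0,k0,k0,k1,k0,k1],[k0,k0,k0,k0,k2,k0],[k0,k0,k0,k0,k1,k1],[k0,k0,k0,k0,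
    k0,k2]]
    [.contra [z1],.ref k0 k0 [(z1,[y1,z1])],.ref k1 k0 [(z1,[y1,z1])],.contra [z1],.ref k0 k1 [(z1,[y1,z1])],
    .contra [z1]])]⟩

/-- classes `0 0 1 2 1 2`, types `N0 N1 B0 B0 B1 B1` -/
noncomputable def cU6_1334 : CertX :=
  ⟨[k12,k13,k24,k40,k25,k41],[(false,k0,[k0,k1,k2,k3,k4,k5])],[[[([z1,z1,z1,z0,z1,z0],z2)],[]]],
    [.old (.lp [k6,k10,k6,k6,k6,k24] [k9,k9,k7,k7,k9,k9,k9,k9,k9,k9,k0,k0] k0 [] k30 k6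
    [[(k6,k6),(k9,k6)],[(k5,k6)],[(k2,k10)],[(k3,k10)],[(k0,k6)],[(k8,k6),(k11,k15)],[(k8,k6),(k11,k15)],[(k1,k6),
    (k10,k15)],[(k1,k6),(k10,k15)],[(k4,k6),(k7,k6)],[(k4,k15),(k7,k15)],[(k6,k15),(k9,k15)]]
    [] k0
    [[k1,k0,k1,k0,k1,k0],[k0,k2,k0,k0,k0,k0]]
    [.contra [y1,z1],.contra [z1]]),
    .old (.lp [k6,k8,k12,k6,k6,k6] [k3,k3,k2,k2,k0,k0,k3,k3,k3,k3,k3,k3] k0 [] k24 k5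
    [[(k6,k6),(k9,k6)],[(k5,k9)],[(k2,k8)],[(k3,k8)],[(k0,k9)],[(k8,k9),(k11,k9)],[(k8,k6),(k11,k6)],[(k1,k6),(k10,
    k6)],[(k1,k6),(k10,k6)],[(k7,k6),(k4,k9)],[(k7,k6),(k4,k9)],[(k6,k6),(k9,k6)]]
    [] k0
    [[k0,k2,k0,k0,k0,k0],[k0,k0,k0,k1,k0,k1]]
    [.contra [z1],.ref k0 k0 [(z1,[y1,z1])]])]⟩

/-- classes `0 0 1 2 1 2`, types `N0 N1 B0 C0 B1 C0` -/
noncomputable def cU6_1335 : CertX :=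
  ⟨[k12,k13,k24,k36,k25,k36],[(false,k0,[k0,k1,k2,k3,k4,k5])],[[[([z1,z1,z1,z0,z0,z1],z2)],[]]],
    [.old (.lp [k6,k10,k6,k24,k6,k6] [k9,k9,k7,k7,k9,k9,k0,k0,k9,k9,k9,k9] k0 [] k30 k6
    [[(k10,k6),(k6,k15)],[(k5,k6)],[(k2,k10)],[(k3,k10)],[(k0,k6)],[(k8,k6),(k11,k6)],[(k8,k15),(k11,k15)],[(k1,k15),
    (k9,k15)],[(k10,k6),(k6,k15)],[(k4,k6),(k7,k15)],[(k4,k6),(k7,k15)],[(k1,k6),(k9,k6)]]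
    [] k0
    [[k1,k0,k1,k0,k0,k1],[k0,k2,k0,k0,k0,k0]]
    [.contra [y1,z1],.contra [z1]]),
    .old (.lp [k0,k4,k6,k6,k0,k6] [k3,k3,k1,k1,k0,k0,k0,k0,k3,k3,k0,k0] k0 [] k12 k5
    [[(k6,k3),(k10,k3)],[(k5,k3)],[(k2,k4)],[(k3,k4)],[(k0,k3)],[(k8,k3),(k11,k6)],[(k8,k3),(k11,k6)],[(k1,k3),(k9,
    k3)],[(k6,k3),(k10,k3)],[(k4,k3),(k7,k3)],[(k4,k6),(k7,k6)],[(k1,k3),(k9,k3)]]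
    [] k0
    [[k0,k2,k0,k0,k0,k0],[k0,k0,k0,k1,k1,k0]]
    [.contra [z1],.ref k0 k0 [(z1,[y1,z1])]])]⟩

/-- classes `0 0 1 2 1 2`, types `N0 N1 B0 C0 B1 C2` -/
noncomputable def cU6_1336 : CertX :=
  ⟨[k12,k13,k24,k36,k25,k38],[(false,k0,[k0,k1,k2,k3,k4,k5])],[[[([z1,z0,z1,z0,z0,z1],z2),([z0,z1,z0,z0,z1,y1],z0)],
    [([z1,z1,z1,z0,z1,z0],z2)],[([z1,z1,z1,z0,z0,z1],z2)],[]]],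
    [.old (.lp [k6,k10,k6,k12,k6,k18] [k6,k6,k4,k4,k6,k6,k3,k3,k6,k6,k0,k0] k0 [] k30 k6
    [[(k9,k6),(k10,k12)],[(k5,k6)],[(k2,k10)],[(k3,k10)],[(k0,k6)],[(k8,k6),(k11,k12)],[(k8,k9),(k11,k15)],[(k9,k9),
    (k10,k15)],[(k1,k6),(k6,k9)],[(k4,k6),(k7,k9)],[(k4,k12),(k7,k15)],[(k1,k12),(k6,k15)]]
    [] k0
    [[k1,k0,k1,k0,k1,k0],[k0,k2,k0,k0,k0,k0],[k0,k0,k0,k1,k1,k0]]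
    [.contra [y1,z1,z1],.contra [z1],.contra [y1,y1,z0,z1]]),
    .old (.lp [k6,k10,k6,k24,k6,k6] [k9,k9,k7,k7,k9,k9,k0,k0,k9,k9,k9,k9] k0 [] k30 k6
    [[(k9,k6),(k10,k6)],[(k5,k6)],[(k2,k10)],[(k3,k10)],[(k0,k6)],[(k8,k6),(k11,k6)],[(k8,k15),(k11,k15)],[(k9,k15),
    (k10,k15)],[(k1,k6),(k6,k15)],[(k4,k6),(k7,k15)],[(k4,k6),(k7,k15)],[(k1,k6),(k6,k15)]]
    [] k0
    [[k1,k0,k1,k0,k1,k0],[k1,k0,k1,k0,k0,k1],[k0,k2,k0,k0,k0,k0]]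
    [.contra [y1,z1],.ref k0 k0 [(z1,[z1]),(z1,[y1,z1])],.contra [z1]]),
    .old (.lp [k6,k10,k6,k12,k18,k6] [k6,k6,k4,k4,k6,k6,k3,k3,k0,k0,k6,k6] k0 [] k30 k6
    [[(k10,k6),(k9,k12)],[(k5,k6)],[(k2,k10)],[(k3,k10)],[(k0,k6)],[(k11,k6),(k8,k12)],[(k11,k9),(k8,k15)],[(k10,k9),
    (k9,k15)],[(k1,k12),(k6,k15)],[(k4,k12),(k7,k15)],[(k4,k6),(k7,k9)],[(k1,k6),(k6,k9)]]
    [] k0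
    [[k1,k0,k1,k0,k0,k1],[k0,k2,k0,k0,k0,k0],[k0,k0,k0,k1,k0,k1]]
    [.contra [y1,z1],.contra [z1],.ref k1 k0 [(z1,[y1,z0,z1])]]),
    .old (.lp [k6,k4,k6,k6,k0,k0] [k0,k0,k1,k1,k0,k0,k0,k0,k3,k3,k3,k3] k0 [] k12 k5
    [[(k9,k3),(k10,k3)],[(k5,k6)],[(k2,k4)],[(k3,k4)],[(k0,k6)],[(k8,k3),(k11,k3)],[(k8,k3),(k11,k3)],[(k9,k3),(k10,
    k3)],[(k1,k3),(k6,k3)],[(k4,k3),(k7,k3)],[(k4,k3),(k7,k3)],[(k1,k3),(k6,k3)]]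
    [] k0
    [[k0,k2,k0,k0,k0,k0],[k0,k0,k0,k1,k1,k0],[k0,k0,k0,k1,k0,k1]]
    [.contra [z1],.ref k2 k0 [(z1,[y1,z1])],.ref k1 k0 [(z1,[y1,z1])]])]⟩

/-- classes `0 0 1 2 1 2`, types `N0 N1 B0 N0 B1 N1` -/
noncomputable def cU6_1337 : CertX :=
  ⟨[k12,k13,k24,k44,k25,k45],[],[[[]]],
    [.old (.lp [k2,k4,k2,k2,k2,k2] [k1,k1,k0,k0,k1,k1,k1,k1,k1,k1,k1,k1] k0 [] k8 k5
    [[(k6,k2)],[(k5,k2)],[(k2,k4)],[(k3,k4)],[(k0,k2)],[(k8,k2),(k11,k2)],[(k8,k2),(k11,k2)],[(k1,k2)],[(k10,k2)],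
    [(k4,k2),(k7,k2)],[(k4,k2),(k7,k2)],[(k9,k2)]]
    [] k0
    []
    [])]⟩

/-- classes `0 0 1 2 1 2`, types `N0 N1 B0 N0 B1 N2` -/
noncomputable def cU6_1338 : CertX :=
  ⟨[k12,k13,k24,k44,k25,k46],[(false,k0,[k0,k1,k2,k3,k4,k5])],[[[([z1,z1,z1,z0,z1,z0],z2)],[]]],
    [.old (.lp [k6,k10,k6,k24,k6,k6] [k9,k9,k7,k7,k9,k9,k0,k0,k9,k9,k9,k9] k0 [] k30 k6
    [[(k9,k6)],[(k5,k6)],[(k2,k10)],[(k3,k10)],[(k0,k6)],[(k8,k6),(k11,k6)],[(k8,k15),(k11,k15)],[(k10,k15)],[(k1,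
    k6)],[(k4,k6),(k7,k15)],[(k4,k6),(k7,k15)],[(k6,k15)]]
    [] k0
    [[k1,k0,k1,k0,k1,k0],[k0,k2,k0,k0,k0,k0]]
    [.contra [y1,z1],.contra [z1]]),
    .old (.lp [k0,k4,k6,k6,k6,k0] [k3,k3,k1,k1,k0,k0,k0,k0,k0,k0,k3,k3] k0 [] k12 k5
    [[(k9,k3)],[(k5,k3)],[(k2,k4)],[(k3,k4)],[(k0,k3)],[(k11,k3),(k8,k6)],[(k11,k3),(k8,k6)],[(k10,k3)],[(k1,k3)],
    [(k4,k6),(k7,k6)],[(k4,k3),(k7,k3)],[(k6,k3)]]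
    [] k0
    [[k0,k2,k0,k0,k0,k0],[k0,k0,k0,k1,k0,k1]]
    [.contra [z1],.ref k0 k0 [(z1,[y1,z1])]])]⟩

/-- classes `0 0 1 2 1 2`, types `N0 N1 B0 S0 B1 S0` -/
noncomputable def cU6_1339 : CertX :=
  ⟨[k12,k13,k24,k32,k25,k32],[(false,k0,[k0,k1,k2,k3,k4,k5])],[[[([z1,z0,z1,z0,z0,z1],z2),([z0,z1,z0,z0,z1,y1],z0)],
    [([z1,z1,z1,z0,z1,z0],z2)],[([z1,z1,z1,z0,z0,z1],z2)],[]]],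
    [.old (.lp [k12,k20,k12,k18,k12,k42] [k15,k15,k11,k11,k15,k15,k12,k12,k15,k15,k0,k0] k0 [] k60 k6
    [[(k1,k12),(k9,k12),(k6,k15),(k10,k27)],[(k5,k12)],[(k2,k20)],[(k3,k20)],[(k0,k12)],[(k8,k12),(k11,k27)],[(k8,
    k15),(k11,k30)],[(k1,k15),(k9,k15),(k6,k18),(k10,k30)],[(k1,k12),(k9,k12),(k6,k15),(k10,k27)],[(k4,k12),(k7,k15)],
    [(k4,k27),(k7,k30)],[(k1,k27),(k9,k27),(k6,k30),(k10,k42)]]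
    [] k0
    [[k1,k0,k1,k0,k1,k0],[k0,k2,k0,k0,k0,k0],[k0,k0,k0,k1,k1,k0]]
    [.contra [y1,z1,z1],.contra [z1],.contra [y1,y1,z0,z1]]),
    .old (.lp [k6,k10,k6,k24,k6,k6] [k9,k9,k7,k7,k9,k9,k0,k0,k9,k9,k9,k9] k0 [] k30 k6
    [[(k1,k6),(k9,k6),(k10,k6),(k6,k15)],[(k5,k6)],[(k2,k10)],[(k3,k10)],[(k0,k6)],[(k8,k6),(k11,k6)],[(k8,k15),(k11,
    k15)],[(k1,k15),(k9,k15),(k10,k15),(k6,k24)],[(k1,k6),(k9,k6),(k10,k6),(k6,k15)],[(k4,k6),(k7,k15)],[(k4,k6),(k7,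
    k15)],[(k1,k6),(k9,k6),(k10,k6),(k6,k15)]]
    [] k0
    [[k1,k0,k1,k0,k1,k0],[k1,k0,k1,k0,k0,k1],[k0,k2,k0,k0,k0,k0]]
    [.contra [y1,z1],.ref k0 k0 [(z1,[z1]),(z1,[y1,z1])],.contra [z1]]),
    .old (.lp [k12,k20,k12,k18,k42,k12] [k15,k15,k11,k11,k15,k15,k12,k12,k0,k0,k15,k15] k0 [] k60 k6
    [[(k1,k12),(k10,k12),(k6,k15),(k9,k27)],[(k5,k12)],[(k2,k20)],[(k3,k20)],[(k0,k12)],[(k11,k12),(k8,k27)],[(k11,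
    k15),(k8,k30)],[(k1,k15),(k10,k15),(k6,k18),(k9,k30)],[(k1,k27),(k10,k27),(k6,k30),(k9,k42)],[(k4,k27),(k7,k30)],
    [(k4,k12),(k7,k15)],[(k1,k12),(k10,k12),(k6,k15),(k9,k27)]]
    [] k0
    [[k1,k0,k1,k0,k0,k1],[k0,k2,k0,k0,k0,k0],[k0,k0,k0,k1,k0,k1]]
    [.contra [y1,z1],.contra [z1],.ref k1 k0 [(z1,[y1,z0,z1])]]),
    .old (.lp [k12,k8,k6,k6,k6,k6] [k0,k0,k2,k2,k3,k3,k3,k3,k3,k3,k3,k3] k0 [] k24 k5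
    [[(k6,k9),(k9,k9),(k10,k9),(k1,k12)],[(k5,k9)],[(k2,k8)],[(k3,k8)],[(k0,k9)],[(k8,k6),(k11,k6)],[(k8,k6),(k11,
    k6)],[(k6,k6),(k9,k6),(k10,k6),(k1,k9)],[(k6,k6),(k9,k6),(k10,k6),(k1,k9)],[(k4,k6),(k7,k6)],[(k4,k6),(k7,k6)],
    [(k6,k6),(k9,k6),(k10,k6),(k1,k9)]]
    [] k0
    [[k0,k2,k0,k0,k0,k0],[k0,k0,k0,k1,k1,k0],[k0,k0,k0,k1,k0,k1]]
    [.contra [z1],.ref k2 k0 [(z1,[y1,z1])],.ref k1 k0 [(z1,[y1,z1])]])]⟩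

/-- classes `0 0 1 2 1 2`, types `N0 N1 C0 C0 C0 C0` -/
noncomputable def cU6_1340 : CertX :=
  ⟨[k12,k13,k20,k36,k20,k36],[(false,k0,[k0,k1,k2,k3,k4,k5]),(true,k2,[k2,k1,k0,k5,k4,k3])],[[[([z1,z1,z1,z0,z0,z1],
    z2),([z0,z0,z0,z1,z0,y1],z0)],[([z1,z1,z1,z0,z0,z1],z2)],[]]],
    [.old (.lp [k6,k10,k6,k6,k24,k6] [k9,k9,k7,k7,k9,k9,k9,k9,k0,k0,k9,k9] k0 [] k30 k6
    [[(k6,k6),(k10,k6)],[(k5,k6)],[(k2,k10)],[(k3,k10)],[(k0,k6)],[(k7,k6),(k11,k6)],[(k4,k6),(k8,k15)],[(k1,k6),(k9,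
    k15)],[(k6,k15),(k10,k15)],[(k7,k15),(k11,k15)],[(k4,k6),(k8,k15)],[(k1,k6),(k9,k15)]]
    [] k0
    [[k1,k0,k1,k1,k0,k0],[k1,k0,k1,k0,k0,k1],[k0,k2,k0,k0,k0,k0]]
    [.contra [y1,z1,z1],.contra [y1,z1],.contra [z1]]),
    .old (.lp [k12,k20,k12,k42,k18,k12] [k15,k15,k11,k11,k15,k15,k0,k0,k12,k12,k15,k15] k0 [] k60 k6
    [[(k10,k12),(k6,k27)],[(k5,k12)],[(k2,k20)],[(k3,k20)],[(k0,k12)],[(k11,k12),(k7,k27)],[(k4,k27),(k8,k30)],[(k1,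
    k27),(k9,k30)],[(k10,k15),(k6,k30)],[(k11,k15),(k7,k30)],[(k4,k12),(k8,k15)],[(k1,k12),(k9,k15)]]
    [] k0
    [[k1,k0,k1,k0,k0,k1],[k0,k2,k0,k0,k0,k0],[k0,k0,k0,k0,k1,k1]]
    [.contra [y1,z1],.contra [z1],.ref k0 k0 [(z1,[z0,z1]),(z1,[y1,y1,z1])]]),
    .old (.lp [k6,k4,k0,k6,k0,k6] [k0,k0,k1,k1,k3,k3,k0,k0,k3,k3,k0,k0] k0 [] k12 k5
    [[(k6,k6),(k10,k6)],[(k5,k3)],[(k2,k4)],[(k3,k4)],[(k0,k3)],[(k7,k3),(k11,k3)],[(k4,k3),(k8,k3)],[(k9,k3),(k1,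
    k6)],[(k6,k3),(k10,k3)],[(k7,k3),(k11,k3)],[(k4,k3),(k8,k3)],[(k9,k3),(k1,k6)]]
    [] k0
    [[k0,k2,k0,k0,k0,k0],[k0,k0,k0,k1,k1,k0],[k0,k0,k0,k0,k1,k1]]
    [.contra [z1],.ref k1 k0 [(z1,[y1,z1])],.ref k1 k1 [(z1,[y1,z1])]])]⟩

/-- classes `0 0 1 2 1 2`, types `N0 N1 C0 C0 C0 C2` -/
noncomputable def cU6_1341 : CertX :=
  ⟨[k12,k13,k20,k36,k20,k38],[(false,k0,[k0,k1,k2,k3,k4,k5])],[[[([z1,z1,z1,z0,z0,z1],z2)],[]]],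
    [.old (.lp [k6,k10,k6,k24,k6,k6] [k9,k9,k7,k7,k9,k9,k0,k0,k9,k9,k9,k9] k0 [] k30 k6
    [[(k9,k6),(k10,k6)],[(k5,k6)],[(k2,k10)],[(k3,k10)],[(k0,k6)],[(k11,k6),(k7,k15)],[(k4,k15),(k8,k15)],[(k9,k15),
    (k10,k15)],[(k1,k6),(k6,k15)],[(k11,k6),(k7,k15)],[(k4,k6),(k8,k6)],[(k1,k6),(k6,k15)]]
    [] k0
    [[k1,k0,k1,k0,k0,k1],[k0,k2,k0,k0,k0,k0]]
    [.contra [y1,z1],.contra [z1]]),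
    .old (.lp [k6,k4,k0,k6,k0,k6] [k0,k0,k1,k1,k3,k3,k0,k0,k3,k3,k0,k0] k0 [] k12 k5
    [[(k9,k3),(k10,k6)],[(k5,k3)],[(k2,k4)],[(k3,k4)],[(k0,k3)],[(k7,k3),(k11,k3)],[(k4,k3),(k8,k3)],[(k9,k3),(k10,
    k6)],[(k1,k3),(k6,k3)],[(k7,k3),(k11,k3)],[(k4,k3),(k8,k3)],[(k1,k6),(k6,k6)]]
    [] k0
    [[k0,k2,k0,k0,k0,k0],[k0,k0,k0,k1,k1,k0]]
    [.contra [z1],.ref k0 k0 [(z1,[y1,z1])]])]⟩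

/-- classes `0 0 1 2 1 2`, types `N0 N1 C0 C0 C2 C2` -/
noncomputable def cU6_1342 : CertX :=
  ⟨[k12,k13,k20,k36,k22,k38],[(false,k0,[k0,k1,k2,k3,k4,k5])],[[[([z1,z1,z1,z0,z1,z0],z2)],[]]],
    [.old (.lp [k6,k10,k6,k24,k6,k6] [k9,k9,k7,k7,k9,k9,k0,k0,k9,k9,k9,k9] k0 [] k30 k6
    [[(k9,k6),(k10,k6)],[(k5,k6)],[(k2,k10)],[(k3,k10)],[(k0,k6)],[(k8,k6),(k7,k15)],[(k4,k15),(k11,k15)],[(k9,k15),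
    (k10,k15)],[(k1,k6),(k6,k15)],[(k4,k6),(k11,k6)],[(k8,k6),(k7,k15)],[(k1,k6),(k6,k15)]]
    [] k0
    [[k1,k0,k1,k0,k1,k0],[k0,k2,k0,k0,k0,k0]]
    [.contra [y1,z1],.contra [z1]]),
    .old (.lp [k6,k4,k0,k6,k6,k0] [k0,k0,k1,k1,k3,k3,k0,k0,k0,k0,k3,k3] k0 [] k12 k5
    [[(k10,k3),(k9,k6)],[(k5,k3)],[(k2,k4)],[(k3,k4)],[(k0,k3)],[(k7,k3),(k8,k3)],[(k4,k3),(k11,k3)],[(k10,k3),(k9,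
    k6)],[(k1,k6),(k6,k6)],[(k4,k3),(k11,k3)],[(k7,k3),(k8,k3)],[(k1,k3),(k6,k3)]]
    [] k0
    [[k0,k2,k0,k0,k0,k0],[k0,k0,k0,k1,k0,k1]]
    [.contra [z1],.ref k0 k0 [(z1,[y1,z1])]])]⟩

/-- classes `0 0 1 2 1 2`, types `N0 N1 C0 N0 C0 N1` -/
noncomputable def cU6_1343 : CertX :=
  ⟨[k12,k13,k20,k44,k20,k45],[(false,k0,[k0,k1,k2,k3,k4,k5])],[[[([z1,z1,z1,z1,z0,z0],z2)],[]]],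
    [.old (.lp [k6,k10,k6,k6,k24,k6] [k9,k9,k7,k7,k9,k9,k9,k9,k0,k0,k9,k9] k0 [] k30 k6
    [[(k6,k6)],[(k5,k6)],[(k2,k10)],[(k3,k10)],[(k0,k6)],[(k7,k6),(k11,k6)],[(k4,k6),(k8,k15)],[(k1,k6)],[(k10,k15)],
    [(k7,k15),(k11,k15)],[(k4,k6),(k8,k15)],[(k9,k15)]]
    [] k0
    [[k1,k0,k1,k1,k0,k0],[k0,k2,k0,k0,k0,k0]]
    [.contra [y1,z1],.contra [z1]]),
    .old (.lp [k6,k4,k0,k6,k0,k6] [k0,k0,k1,k1,k3,k3,k0,k0,k3,k3,k0,k0] k0 [] k12 k5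
    [[(k6,k6)],[(k5,k3)],[(k2,k4)],[(k3,k4)],[(k0,k3)],[(k7,k3),(k11,k3)],[(k4,k3),(k8,k3)],[(k1,k6)],[(k10,k3)],[(k7,
    k3),(k11,k3)],[(k4,k3),(k8,k3)],[(k9,k3)]]
    [] k0
    [[k0,k2,k0,k0,k0,k0],[k0,k0,k0,k0,k1,k1]]
    [.contra [z1],.ref k0 k0 [(z1,[y1,z1])]])]⟩

/-- classes `0 0 1 2 1 2`, types `N0 N1 C0 N0 C0 N2` -/
noncomputable def cU6_1344 : CertX :=
  ⟨[k12,k13,k20,k44,k20,k46],[],[[[]]],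
    [.old (.lp [k2,k4,k2,k2,k2,k2] [k1,k1,k0,k0,k1,k1,k1,k1,k1,k1,k1,k1] k0 [] k8 k5
    [[(k9,k2)],[(k5,k2)],[(k2,k4)],[(k3,k4)],[(k0,k2)],[(k7,k2),(k11,k2)],[(k4,k2),(k8,k2)],[(k10,k2)],[(k1,k2)],[(k7,
    k2),(k11,k2)],[(k4,k2),(k8,k2)],[(k6,k2)]]
    [] k0
    []
    [])]⟩

/-- classes `0 0 1 2 1 2`, types `N0 N1 C0 N0 C2 N1` -/
noncomputable def cU6_1345 : CertX :=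
  ⟨[k12,k13,k20,k44,k22,k45],[(false,k0,[k0,k1,k2,k3,k4,k5])],[[[([z1,z1,z1,z1,z0,z0],z2)],[]]],
    [.old (.lp [k6,k10,k6,k6,k24,k6] [k9,k9,k7,k7,k9,k9,k9,k9,k0,k0,k9,k9] k0 [] k30 k6
    [[(k6,k6)],[(k5,k6)],[(k2,k10)],[(k3,k10)],[(k0,k6)],[(k7,k6),(k8,k15)],[(k4,k6),(k11,k6)],[(k1,k6)],[(k10,k15)],
    [(k4,k15),(k11,k15)],[(k7,k6),(k8,k15)],[(k9,k15)]]
    [] k0
    [[k1,k0,k1,k1,k0,k0],[k0,k2,k0,k0,k0,k0]]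
    [.contra [y1,z1],.contra [z1]]),
    .old (.lp [k6,k4,k0,k6,k6,k0] [k0,k0,k1,k1,k3,k3,k0,k0,k0,k0,k3,k3] k0 [] k12 k5
    [[(k6,k6)],[(k5,k3)],[(k2,k4)],[(k3,k4)],[(k0,k3)],[(k7,k3),(k8,k3)],[(k4,k3),(k11,k3)],[(k1,k6)],[(k10,k3)],[(k4,
    k3),(k11,k3)],[(k7,k3),(k8,k3)],[(k9,k3)]]
    [] k0
    [[k0,k2,k0,k0,k0,k0],[k0,k0,k0,k0,k1,k1]]
    [.contra [z1],.ref k0 k0 [(z1,[y1,z1])]])]⟩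

/-- classes `0 0 1 2 1 2`, types `N0 N1 C0 N0 C2 N2` -/
noncomputable def cU6_1346 : CertX :=
  ⟨[k12,k13,k20,k44,k22,k46],[(false,k0,[k0,k1,k2,k3,k4,k5])],[[[([z1,z1,z1,z0,z1,z0],z2)],[]]],
    [.old (.lp [k6,k10,k6,k24,k6,k6] [k9,k9,k7,k7,k9,k9,k0,k0,k9,k9,k9,k9] k0 [] k30 k6
    [[(k9,k6)],[(k5,k6)],[(k2,k10)],[(k3,k10)],[(k0,k6)],[(k8,k6),(k7,k15)],[(k4,k15),(k11,k15)],[(k10,k15)],[(k1,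
    k6)],[(k4,k6),(k11,k6)],[(k8,k6),(k7,k15)],[(k6,k15)]]
    [] k0
    [[k1,k0,k1,k0,k1,k0],[k0,k2,k0,k0,k0,k0]]
    [.contra [y1,z1],.contra [z1]]),
    .old (.lp [k6,k4,k0,k6,k6,k0] [k0,k0,k1,k1,k3,k3,k0,k0,k0,k0,k3,k3] k0 [] k12 k5
    [[(k9,k6)],[(k5,k3)],[(k2,k4)],[(k3,k4)],[(k0,k3)],[(k7,k3),(k8,k3)],[(k4,k3),(k11,k3)],[(k10,k3)],[(k1,k6)],[(k4,
    k3),(k11,k3)],[(k7,k3),(k8,k3)],[(k6,k3)]]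
    [] k0
    [[k0,k2,k0,k0,k0,k0],[k0,k0,k0,k1,k0,k1]]
    [.contra [z1],.ref k0 k0 [(z1,[y1,z1])]])]⟩

/-- classes `0 0 1 2 1 2`, types `N0 N1 C0 S0 C0 S0` -/
noncomputable def cU6_1347 : CertX :=
  ⟨[k12,k13,k20,k32,k20,k32],[(false,k0,[k0,k1,k2,k3,k4,k5])],[[[([z1,z1,z1,z0,z0,z1],z2),([z0,z0,z0,z1,z0,y1],z0)],
    [([z1,z1,z1,z1,z0,z0],z2)],[([z1,z1,z1,z0,z0,z1],z2)],[]]],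
    [.old (.lp [k6,k10,k6,k6,k24,k6] [k9,k9,k7,k7,k9,k9,k9,k9,k0,k0,k9,k9] k0 [] k30 k6
    [[(k1,k6),(k6,k6),(k10,k6),(k9,k15)],[(k5,k6)],[(k2,k10)],[(k3,k10)],[(k0,k6)],[(k7,k6),(k11,k6)],[(k4,k6),(k8,
    k15)],[(k1,k6),(k6,k6),(k10,k6),(k9,k15)],[(k1,k15),(k6,k15),(k10,k15),(k9,k24)],[(k7,k15),(k11,k15)],[(k4,k6),
    (k8,k15)],[(k1,k6),(k6,k6),(k10,k6),(k9,k15)]]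
    [] k0
    [[k1,k0,k1,k1,k0,k0],[k1,k0,k1,k0,k0,k1],[k0,k2,k0,k0,k0,k0]]
    [.contra [y1,z1,z1],.contra [y1,z1],.contra [z1]]),
    .old (.lp [k12,k20,k12,k12,k18,k42] [k15,k15,k11,k11,k15,k15,k15,k15,k12,k12,k0,k0] k0 [] k60 k6
    [[(k1,k12),(k6,k12),(k9,k15),(k10,k27)],[(k5,k12)],[(k2,k20)],[(k3,k20)],[(k0,k12)],[(k7,k12),(k11,k27)],[(k4,
    k12),(k8,k15)],[(k1,k12),(k6,k12),(k9,k15),(k10,k27)],[(k1,k15),(k6,k15),(k9,k18),(k10,k30)],[(k7,k15),(k11,k30)],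
    [(k4,k27),(k8,k30)],[(k1,k27),(k6,k27),(k9,k30),(k10,k42)]]
    [] k0
    [[k1,k0,k1,k1,k0,k0],[k0,k2,k0,k0,k0,k0],[k0,k0,k0,k1,k1,k0]]
    [.contra [y1,z1],.contra [z1],.ref k0 k0 [(z1,[y1,z0,z1]),(z1,[z1,z1,y1])]]),
    .old (.lp [k6,k10,k6,k18,k12,k6] [k6,k6,k4,k4,k6,k6,k0,k0,k3,k3,k6,k6] k0 [] k30 k6
    [[(k1,k6),(k10,k6),(k9,k9),(k6,k12)],[(k5,k6)],[(k2,k10)],[(k3,k10)],[(k0,k6)],[(k11,k6),(k7,k12)],[(k4,k12),(k8,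
    k15)],[(k1,k12),(k10,k12),(k9,k15),(k6,k18)],[(k1,k9),(k10,k9),(k9,k12),(k6,k15)],[(k11,k9),(k7,k15)],[(k4,k6),
    (k8,k9)],[(k1,k6),(k10,k6),(k9,k9),(k6,k12)]]
    [] k0
    [[k1,k0,k1,k0,k0,k1],[k0,k2,k0,k0,k0,k0],[k0,k0,k0,k0,k1,k1]]
    [.contra [y1,z1],.contra [z1],.ref k1 k0 [(z1,[y1,z0,z1])]]),
    .old (.lp [k12,k8,k6,k6,k6,k6] [k0,k0,k2,k2,k3,k3,k3,k3,k3,k3,k3,k3] k0 [] k24 k5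
    [[(k6,k9),(k9,k9),(k10,k9),(k1,k12)],[(k5,k9)],[(k2,k8)],[(k3,k8)],[(k0,k9)],[(k7,k6),(k11,k6)],[(k4,k6),(k8,k6)],
    [(k6,k6),(k9,k6),(k10,k6),(k1,k9)],[(k6,k6),(k9,k6),(k10,k6),(k1,k9)],[(k7,k6),(k11,k6)],[(k4,k6),(k8,k6)],[(k6,
    k6),(k9,k6),(k10,k6),(k1,k9)]]
    [] k0
    [[k0,k2,k0,k0,k0,k0],[k0,k0,k0,k1,k1,k0],[k0,k0,k0,k0,k1,k1]]
    [.contra [z1],.ref k2 k0 [(z1,[y1,z1])],.ref k1 k0 [(z1,[y1,z1])]])]⟩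

/-- classes `0 0 1 2 1 2`, types `N0 N1 C0 S0 C2 S0` -/
noncomputable def cU6_1348 : CertX :=
  ⟨[k12,k13,k20,k32,k22,k32],[(false,k0,[k0,k1,k2,k3,k4,k5])],[[[([z1,z1,z1,z0,z0,y1],z0),([z0,z0,z0,z1,z0,z1],z2)],
    [([z1,z1,z1,z1,z0,z0],z2)],[([z1,z1,z1,z0,z1,z0],z2)],[]]],
    [.old (.lp [k6,k10,k6,k6,k6,k24] [k9,k9,k7,k7,k9,k9,k9,k9,k9,k9,k0,k0] k0 [] k30 k6
    [[(k1,k6),(k6,k6),(k9,k6),(k10,k15)],[(k5,k6)],[(k2,k10)],[(k3,k10)],[(k0,k6)],[(k7,k6),(k8,k6)],[(k4,k6),(k11,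
    k15)],[(k1,k6),(k6,k6),(k9,k6),(k10,k15)],[(k1,k6),(k6,k6),(k9,k6),(k10,k15)],[(k4,k6),(k11,k15)],[(k7,k15),(k8,
    k15)],[(k1,k15),(k6,k15),(k9,k15),(k10,k24)]]
    [] k0
    [[k1,k0,k1,k1,k0,k0],[k1,k0,k1,k0,k1,k0],[k0,k2,k0,k0,k0,k0]]
    [.contra [y1,z1,z1],.contra [y1,z0,y1,z1],.contra [z1]]),
    .old (.lp [k6,k10,k6,k6,k18,k12] [k6,k6,k4,k4,k6,k6,k6,k6,k0,k0,k3,k3] k0 [] k30 k6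
    [[(k1,k6),(k6,k6),(k10,k9),(k9,k12)],[(k5,k6)],[(k2,k10)],[(k3,k10)],[(k0,k6)],[(k7,k6),(k8,k12)],[(k4,k6),(k11,
    k9)],[(k1,k6),(k6,k6),(k10,k9),(k9,k12)],[(k1,k12),(k6,k12),(k10,k15),(k9,k18)],[(k4,k12),(k11,k15)],[(k7,k9),(k8,
    k15)],[(k1,k9),(k6,k9),(k10,k12),(k9,k15)]]
    [] k0
    [[k1,k0,k1,k1,k0,k0],[k0,k2,k0,k0,k0,k0],[k0,k0,k0,k1,k0,k1]]
    [.contra [y1,z1],.contra [z1],.ref k0 k0 [(z1,[y1,z1]),(z1,[z1])]]),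
    .old (.lp [k6,k10,k6,k18,k6,k12] [k6,k6,k4,k4,k6,k6,k0,k0,k6,k6,k3,k3] k0 [] k30 k6
    [[(k1,k6),(k9,k6),(k10,k9),(k6,k12)],[(k5,k6)],[(k2,k10)],[(k3,k10)],[(k0,k6)],[(k8,k6),(k7,k12)],[(k4,k12),(k11,
    k15)],[(k1,k12),(k9,k12),(k10,k15),(k6,k18)],[(k1,k6),(k9,k6),(k10,k9),(k6,k12)],[(k4,k6),(k11,k9)],[(k8,k9),(k7,
    k15)],[(k1,k9),(k9,k9),(k10,k12),(k6,k15)]]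
    [] k0
    [[k1,k0,k1,k0,k1,k0],[k0,k2,k0,k0,k0,k0],[k0,k0,k0,k0,k1,k1]]
    [.contra [y1,z1],.contra [z1],.ref k1 k0 [(z1,[y1,z0,z1])]]),
    .old (.lp [k12,k8,k6,k6,k6,k6] [k0,k0,k2,k2,k3,k3,k3,k3,k3,k3,k3,k3] k0 [] k24 k5
    [[(k6,k9),(k9,k9),(k10,k9),(k1,k12)],[(k5,k9)],[(k2,k8)],[(k3,k8)],[(k0,k9)],[(k7,k6),(k8,k6)],[(k4,k6),(k11,k6)],
    [(k6,k6),(k9,k6),(k10,k6),(k1,k9)],[(k6,k6),(k9,k6),(k10,k6),(k1,k9)],[(k4,k6),(k11,k6)],[(k7,k6),(k8,k6)],[(k6,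
    k6),(k9,k6),(k10,k6),(k1,k9)]]
    [] k0
    [[k0,k2,k0,k0,k0,k0],[k0,k0,k0,k1,k0,k1],[k0,k0,k0,k0,k1,k1]]
    [.contra [z1],.ref k2 k0 [(z1,[y1,z1])],.ref k1 k0 [(z1,[y1,z1])]])]⟩

/-- classes `0 0 1 2 1 2`, types `N0 N1 N0 N0 N1 N1` -/
noncomputable def cU6_1349 : CertX :=
  ⟨[k12,k13,k28,k44,k29,k45],[],[[[]]],
    [.old (.lp [k2,k4,k2,k2,k2,k2] [k1,k1,k0,k0,k1,k1,k1,k1,k1,k1,k1,k1] k0 [] k8 k5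
    [[(k6,k2)],[(k5,k2)],[(k2,k4)],[(k3,k4)],[(k0,k2)],[(k11,k2)],[(k8,k2)],[(k1,k2)],[(k10,k2)],[(k7,k2)],[(k4,k2)],
    [(k9,k2)]]
    [] k0
    []
    [])]⟩

/-- classes `0 0 1 2 1 2`, types `N0 N1 N0 N0 N1 N2` -/
noncomputable def cU6_1350 : CertX :=
  ⟨[k12,k13,k28,k44,k29,k46],[],[[[]]],
    [.old (.lp [k2,k4,k2,k2,k2,k2] [k1,k1,k0,k0,k1,k1,k1,k1,k1,k1,k1,k1] k0 [] k8 k5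
    [[(k9,k2)],[(k5,k2)],[(k2,k4)],[(k3,k4)],[(k0,k2)],[(k11,k2)],[(k8,k2)],[(k10,k2)],[(k1,k2)],[(k7,k2)],[(k4,k2)],
    [(k6,k2)]]
    [] k0
    []
    [])]⟩

/-- classes `0 0 1 2 1 2`, types `N0 N1 N0 N0 N2 N2` -/
noncomputable def cU6_1351 : CertX :=
  ⟨[k12,k13,k28,k44,k30,k46],[(false,k0,[k0,k1,k2,k3,k4,k5])],[[[([z1,z1,z1,z0,z1,z0],z2)],[]]],
    [.old (.lp [k6,k10,k6,k30,k6,k0] [k12,k12,k10,k10,k12,k12,k0,k0,k12,k12,k15,k15] k0 [] k30 k6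
    [[(k9,k6)],[(k5,k6)],[(k2,k10)],[(k3,k10)],[(k0,k6)],[(k8,k6)],[(k11,k15)],[(k10,k15)],[(k1,k6)],[(k4,k6)],[(k7,
    k15)],[(k6,k15)]]
    [] k0
    [[k1,k0,k1,k0,k1,k0],[k0,k2,k0,k0,k0,k0]]
    [.contra [y1,z1],.contra [z1]]),
    .old (.lp [k6,k4,k0,k6,k6,k0] [k0,k0,k1,k1,k3,k3,k0,k0,k0,k0,k3,k3] k0 [] k12 k5
    [[(k9,k6)],[(k5,k3)],[(k2,k4)],[(k3,k4)],[(k0,k3)],[(k8,k3)],[(k11,k3)],[(k10,k3)],[(k1,k6)],[(k4,k3)],[(k7,k3)],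
    [(k6,k3)]]
    [] k0
    [[k0,k2,k0,k0,k0,k0],[k0,k0,k0,k1,k0,k1]]
    [.contra [z1],.ref k0 k0 [(z1,[y1,z1])]])]⟩

/-- classes `0 0 1 2 1 2`, types `N0 N1 N0 S0 N1 S0` -/
noncomputable def cU6_1352 : CertX :=
  ⟨[k12,k13,k28,k32,k29,k32],[(false,k0,[k0,k1,k2,k3,k4,k5])],[[[([z1,z1,z1,z0,z0,z1],z2)],[]]],
    [.old (.lp [k6,k10,k6,k6,k24,k6] [k9,k9,k7,k7,k9,k9,k9,k9,k0,k0,k9,k9] k0 [] k30 k6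
    [[(k1,k6),(k6,k6),(k10,k6),(k9,k15)],[(k5,k6)],[(k2,k10)],[(k3,k10)],[(k0,k6)],[(k11,k6)],[(k8,k15)],[(k1,k6),(k6,
    k6),(k10,k6),(k9,k15)],[(k1,k15),(k6,k15),(k10,k15),(k9,k24)],[(k7,k15)],[(k4,k6)],[(k1,k6),(k6,k6),(k10,k6),(k9,
    k15)]]
    [] k0
    [[k1,k0,k1,k0,k0,k1],[k0,k2,k0,k0,k0,k0]]
    [.contra [y1,z1],.contra [z1]]),
    .old (.lp [k12,k8,k0,k6,k6,k12] [k0,k0,k2,k2,k6,k6,k3,k3,k3,k3,k0,k0] k0 [] k24 k5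
    [[(k6,k9),(k9,k9),(k1,k12),(k10,k12)],[(k5,k6)],[(k2,k8)],[(k3,k8)],[(k0,k6)],[(k11,k6)],[(k8,k6)],[(k6,k6),(k9,
    k6),(k1,k9),(k10,k9)],[(k6,k6),(k9,k6),(k1,k9),(k10,k9)],[(k7,k6)],[(k4,k6)],[(k6,k9),(k9,k9),(k1,k12),(k10,k12)]]
    [] k0
    [[k0,k2,k0,k0,k0,k0],[k0,k0,k0,k1,k1,k0]]
    [.contra [z1],.ref k0 k0 [(z1,[y1,z1])]])]⟩

/-- classes `0 0 1 2 1 2`, types `N0 N1 N0 S0 N2 S0` -/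
noncomputable def cU6_1353 : CertX :=
  ⟨[k12,k13,k28,k32,k30,k32],[(false,k0,[k0,k1,k2,k3,k4,k5])],[[[([z1,z1,z1,z0,z1,z0],z2)],[]]],
    [.old (.lp [k6,k10,k6,k6,k6,k24] [k9,k9,k7,k7,k9,k9,k9,k9,k9,k9,k0,k0] k0 [] k30 k6
    [[(k1,k6),(k6,k6),(k9,k6),(k10,k15)],[(k5,k6)],[(k2,k10)],[(k3,k10)],[(k0,k6)],[(k8,k6)],[(k11,k15)],[(k1,k6),(k6,
    k6),(k9,k6),(k10,k15)],[(k1,k6),(k6,k6),(k9,k6),(k10,k15)],[(k4,k6)],[(k7,k15)],[(k1,k15),(k6,k15),(k9,k15),(k10,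
    k24)]]
    [] k0
    [[k1,k0,k1,k0,k1,k0],[k0,k2,k0,k0,k0,k0]]
    [.contra [y1,z1],.contra [z1]]),
    .old (.lp [k12,k8,k0,k6,k12,k6] [k0,k0,k2,k2,k6,k6,k3,k3,k0,k0,k3,k3] k0 [] k24 k5
    [[(k6,k9),(k10,k9),(k1,k12),(k9,k12)],[(k5,k6)],[(k2,k8)],[(k3,k8)],[(k0,k6)],[(k8,k6)],[(k11,k6)],[(k6,k6),(k10,
    k6),(k1,k9),(k9,k9)],[(k6,k9),(k10,k9),(k1,k12),(k9,k12)],[(k4,k6)],[(k7,k6)],[(k6,k6),(k10,k6),(k1,k9),(k9,k9)]]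
    [] k0
    [[k0,k2,k0,k0,k0,k0],[k0,k0,k0,k1,k0,k1]]
    [.contra [z1],.ref k0 k0 [(z1,[y1,z1])]])]⟩

/-- classes `0 0 1 2 1 2`, types `N0 N1 S0 S0 S0 S0` -/
noncomputable def cU6_1354 : CertX :=
  ⟨[k12,k13,k16,k32,k16,k32],[(false,k0,[k0,k1,k2,k3,k4,k5]),(true,k2,[k2,k1,k0,k5,k4,k3])],[[[([z1,z0,z1,z0,z0,y1],
    z0),([z0,z1,z0,z1,z0,z1],z2)],[([z1,z0,z1,z0,y1,z0],z0),([z0,z1,z0,z0,z1,z1],z2)],[([z1,z1,z1,z0,z0,z1],z2)],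
    [([z1,z1,z1,z0,z1,z0],z2)],[]]],
    [.old (.lp [k26,k40,k34,k30,k60,k49] [k30,k18,k17,k17,k20,k20,k21,k23,k7,k7,k25,k0] k0 [[],[],[],[],[k0,k0,k0,k0,k0,k0,
    k0,k0,k30],[],[k0,k0,k0,k0,k0,k0,k0,k0,k0,k0,k11],[],[k0,k0,k0,k0,k0,k0,k0,k0,k0,k22],[k0,k0,k0,k0,k0,k30],[],[k0,
    k0,k0,k0,k0,k0,k0,k11]] k120 k6
    [[(k6,k24),(k10,k31),(k1,k38),(k9,k49)],[(k5,k24)],[(k2,k40)],[(k3,k40)],[(k0,k24)],[(k11,k24),(k7,k31),(k4,k34),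
    (k8,k47)],[(k7,k28),(k4,k31),(k11,k51),(k8,k74)],[(k1,k24),(k10,k28),(k6,k32),(k9,k46)],[(k6,k46),(k1,k49),(k10,
    k53),(k9,k60)],[(k8,k38),(k4,k47),(k11,k67),(k7,k74)],[(k4,k24),(k7,k51),(k8,k67),(k11,k96)],[(k10,k24),(k6,k28),
    (k1,k31),(k9,k53)]]
    [] k0
    [[k1,k0,k1,k1,k0,k0],[k1,k0,k1,k0,k0,k1],[k0,k2,k0,k0,k0,k0],[k0,k0,k0,k2,k0,k0],[k0,k0,k0,k1,k0,k1],[k0,k0,k0,k0,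
    k2,k0]]
    [.contra [y1,z1,z1],.contra [y1,y1,y2,z2],.contra [z1],.contra [z1],.contra [y1,z0,z1],.contra [z1]]),
    .old (.lp [k21,k40,k30,k60,k28,k60] [k32,k29,k21,k21,k26,k26,k11,k11,k27,k27,k22,k0] k0 [[],[],[],[],[k0,k0,k0,k0,k0,
    k0,k0,k0,k32],[k0,k0,k0,k0,k18],[k0,k0,k0,k0,k0,k0,k0,k4],[k0,k0,k0,k0,k0,k0,k0,k0,k0,k0,k0,k9],[],[k0,k0,k0,k0,
    k0,k32],[k0,k0,k0,k0,k0,k0,k9]] k120 k6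
    [[(k1,k24),(k9,k26),(k10,k31),(k6,k51)],[(k5,k24)],[(k2,k40)],[(k3,k40)],[(k0,k24)],[(k11,k24),(k8,k29),(k7,k45),
    (k4,k48)],[(k7,k42),(k4,k45),(k11,k71),(k8,k76)],[(k9,k44),(k10,k49),(k1,k51),(k6,k56)],[(k10,k24),(k1,k26),(k9,
    k32),(k6,k44)],[(k8,k28),(k4,k29),(k11,k55),(k7,k76)],[(k4,k24),(k8,k55),(k7,k71),(k11,k82)],[(k9,k24),(k1,k31),
    (k10,k38),(k6,k49)]]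
    [] k0
    [[k1,k0,k1,k0,k1,k0],[k1,k0,k1,k0,k0,k1],[k0,k2,k0,k0,k0,k0],[k0,k0,k0,k2,k0,k0],[k0,k0,k0,k0,k2,k0],[k0,k0,k0,k0,
    k1,k1]]
    [.contra [y1,y1,y2,z2],.contra [y1,z1,z1],.contra [z1],.contra [z1],.contra [y1,y2,y2,z2],.contra [y1,z0,z1]]),
    .old (.lp [k32,k80,k64,k62,k98,k142] [k80,k80,k56,k56,k64,k64,k63,k67,k47,k47,k50,k0] k0 [[],[],[],[],[k0,k0,k0,k0,k0,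
    k0,k0,k0,k80,k33],[k0,k0,k0,k0,k4],[],[k0,k0,k0,k0,k0,k0,k0,k0,k0,k0,k3],[k0,k0,k0,k0,k0,k33],[k0,k0,k0,k0,k0,
    k80],[k0,k0,k0,k0,k0,k0,k0,k0,k0,k0,k0,k44],[k0,k0,k0,k0,k0,k0,k3]] (nat_lit 240) k6
    [[(k6,k49),(k9,k62),(k10,k62),(k1,k76)],[(k5,k48)],[(k2,k80)],[(k3,k80)],[(k0,k48)],[(k8,k48),(k11,k48),(k7,k61),
    (k4,k68)],[(k7,k54),(k4,k61),(k8,k158),(k11,k158)],[(k1,k49),(k6,k66),(k9,k82),(k10,k82)],[(k1,k62),(k6,k82),(k10,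
    k95),(k9,k98)],[(k4,k48),(k8,k98),(k11,k145),(k7,k158)],[(k4,k48),(k8,k145),(k7,k158),(k11,k192)],[(k10,k48),(k1,
    k62),(k6,k82),(k9,k95)]]
    [] k0
    [[k1,k0,k1,k1,k0,k0],[k1,k0,k1,k0,k1,k0],[k1,k0,k1,k0,k0,k1],[k0,k2,k0,k0,k0,k0],[k0,k0,k0,k2,k0,k0],[k0,k0,k0,k0,
    k2,k0]]
    [.ref k1 k0 [(z1,[z1,z1,y1]),(z1,[y1,z0,z1])],.ref k0 k1 [(z1,[z1,z1,y1]),(z1,[y1,z0,z1])],.contra [y1,z1],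
    .contra [z1],.contra [z1],.contra [y1,y2,z2]]),
    .old (.lp [k36,k80,k84,k102,k48,k120] [k48,k36,k20,k20,k18,k18,k9,k9,k36,k36,k0,k0] k0 [[],[],[],[],[k0,k0,k0,k0,k0,
    k0,k0,k0,k0,k18],[],[k0,k0,k0,k0,k0,k0,k0,k24],[k0,k0,k0,k0,k0,k0,k0,k0,k0,k0,k0,k18],[k0,k0,k0,k0,k0,k18],[],[k0,
    k0,k0,k0,k0,k0,k18]] (nat_lit 240) k6
    [[(k1,k48),(k9,k48),(k10,k84),(k6,k93)],[(k5,k54)],[(k2,k80)],[(k3,k80)],[(k0,k54)],[(k8,k48),(k4,k84),(k7,k93),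
    (k11,k102)],[(k8,k75),(k4,k93),(k7,k102),(k11,k129)],[(k9,k75),(k6,k78),(k1,k93),(k10,k111)],[(k1,k48),(k10,k66),
    (k9,k72),(k6,k75)],[(k4,k48),(k8,k48),(k7,k75),(k11,k84)],[(k8,k84),(k4,k102),(k11,k120),(k7,k129)],[(k9,k66),(k1,
    k84),(k6,k111),(k10,k120)]]
    [] k0
    [[k1,k0,k1,k0,k1,k0],[k0,k2,k0,k0,k0,k0],[k0,k0,k0,k2,k0,k0],[k0,k0,k0,k1,k1,k0],[k0,k0,k0,k0,k2,k0],[k0,k0,k0,k0,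
    k1,k1]]
    [.contra [y1,z1],.contra [z1],.contra [z1],.ref k2 k0 [(z1,[y1,z0,z1])],.contra [z1],.ref k2 k1 [(z1,[y1,z0,
    z1])]]),
    .old (.lp [k6,k8,k10,k10,k6,k6] [k2,k2,k1,k1,k0,k0,k0,k0,k2,k2,k2,k2] k0 [[],[],[],[],[k0,k0,k0,k0,k0,k4],[k0,k0,k0,
    k0,k0,k0,k0,k0,k0,k2],[k0,k0,k0,k0,k0,k0,k0,k0,k0,k0,k0,k2],[],[k0,k0,k0,k0,k2],[],[k0,k0,k0,k0,k0,k0,k0,
    k2]] k24 k5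
    [[(k1,k6),(k10,k6),(k6,k8),(k9,k8)],[(k5,k8)],[(k2,k8)],[(k3,k8)],[(k0,k8)],[(k4,k6),(k8,k8),(k7,k10),(k11,k10)],
    [(k8,k6),(k11,k8),(k4,k10),(k7,k14)],[(k10,k6),(k1,k8),(k9,k8),(k6,k10)],[(k9,k6),(k10,k6),(k1,k8),(k6,k8)],[(k7,
    k6),(k8,k6),(k11,k6),(k4,k8)],[(k8,k6),(k11,k6),(k7,k8),(k4,k10)],[(k1,k6),(k6,k6),(k9,k6),(k10,k6)]]
    [] k0
    [[k0,k2,k0,k0,k0,k0],[k0,k0,k0,k1,k1,k0],[k0,k0,k0,k1,k0,k1],[k0,k0,k0,k0,k2,k0],[k0,k0,k0,k0,k1,k1],[k0,k0,k0,k0,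
    k0,k2]]
    [.contra [z1],.ref k2 k0 [(z1,[y1,z1])],.ref k3 k0 [(z1,[y1,z1])],.contra [z1],.ref k2 k1 [(z1,[y1,z1])],
    .contra [z1]])]⟩

/-- classes `0 0 1 2 1 2`, types `N0 N2 B0 B0 B1 B1` -/
noncomputable def cU6_1355 : CertX :=
  ⟨[k12,k14,k24,k40,k25,k41],[(false,k0,[k0,k1,k2,k3,k4,k5])],[[[([z1,z1,z1,z0,z1,z0],z2)],[]]],
    [.old (.leafM k3 [k0,k1,k2,k4] [] [(k3,k5,z1,[y1,z1]),(k5,k3,z1,[y1,z1])]),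
    .old (.lp [k2,k2,k2,k2,k2,k2] [k0,k0,k0,k0,k0,k0,k0,k0,k0,k0,k0,k0] k0 [] k8 k5
    [[(k6,k2),(k9,k2)],[(k2,k2)],[(k5,k2)],[(k0,k2)],[(k3,k2)],[(k8,k2),(k11,k2)],[(k8,k2),(k11,k2)],[(k1,k2),(k10,
    k2)],[(k1,k2),(k10,k2)],[(k4,k2),(k7,k2)],[(k4,k2),(k7,k2)],[(k6,k2),(k9,k2)]]
    [] k0
    [[k0,k0,k0,k1,k0,k1]]
    [.ref k0 k0 [(z1,[y1,z1])]])]⟩

/-- classes `0 0 1 2 1 2`, types `N0 N2 B0 C0 B1 C0` -/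
noncomputable def cU6_1356 : CertX :=
  ⟨[k12,k14,k24,k36,k25,k36],[(false,k0,[k0,k1,k2,k3,k4,k5])],[[[([z1,z1,z1,z0,z0,z1],z2)],[]]],
    [.old (.leafM k1 [k2,k5,k0,k1] [] [(k3,k4,z1,[y1,z1]),(k4,k3,z1,[y1,z1])]),
    .old (.lp [k2,k2,k2,k2,k2,k2] [k0,k0,k0,k0,k0,k0,k0,k0,k0,k0,k0,k0] k0 [] k8 k5
    [[(k6,k2),(k10,k2)],[(k2,k2)],[(k5,k2)],[(k0,k2)],[(k3,k2)],[(k8,k2),(k11,k2)],[(k8,k2),(k11,k2)],[(k1,k2),(k9,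
    k2)],[(k6,k2),(k10,k2)],[(k4,k2),(k7,k2)],[(k4,k2),(k7,k2)],[(k1,k2),(k9,k2)]]
    [] k0
    [[k0,k0,k0,k1,k1,k0]]
    [.ref k0 k0 [(z1,[y1,z1])]])]⟩

/-- classes `0 0 1 2 1 2`, types `N0 N2 B0 C0 B1 C2` -/
noncomputable def cU6_1357 : CertX :=
  ⟨[k12,k14,k24,k36,k25,k38],[(false,k0,[k0,k1,k2,k3,k4,k5])],[[[([z1,z1,z1,z0,z1,z0],z2)],[([z1,z1,z1,z0,z0,z1],z2)],
    []]],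
    [.old (.leafM k3 [k0,k1,k2,k4] [] [(k3,k5,z1,[y1,z1]),(k5,k3,z1,[y1,z1])]),
    .old (.leafM k1 [k2,k5,k0,k1] [] [(k3,k4,z1,[y1,z1]),(k4,k3,z1,[y1,z1])]),
    .old (.lp [k2,k0,k2,k2,k0,k0] [k0,k0,k1,k1,k0,k0,k0,k0,k1,k1,k1,k1] k0 [] k4 k5
    [[(k9,k1),(k10,k1)],[(k2,k1)],[(k5,k1)],[(k0,k1)],[(k3,k1)],[(k8,k1),(k11,k1)],[(k8,k1),(k11,k1)],[(k9,k1),(k10,
    k1)],[(k1,k1),(k6,k1)],[(k4,k1),(k7,k1)],[(k4,k1),(k7,k1)],[(k1,k1),(k6,k1)]]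
    [] k0
    [[k0,k0,k0,k1,k1,k0],[k0,k0,k0,k1,k0,k1]]
    [.ref k1 k0 [(z1,[y1,z1])],.ref k0 k0 [(z1,[y1,z1])]])]⟩

/-- classes `0 0 1 2 1 2`, types `N0 N2 B0 N0 B1 N1` -/
noncomputable def cU6_1358 : CertX :=
  ⟨[k12,k14,k24,k44,k25,k45],[],[[[]]],
    [.old (.lp [k2,k2,k2,k2,k2,k2] [k0,k0,k0,k0,k0,k0,k0,k0,k0,k0,k0,k0] k0 [] k8 k5
    [[(k6,k2)],[(k2,k2)],[(k5,k2)],[(k0,k2)],[(k3,k2)],[(k8,k2),(k11,k2)],[(k8,k2),(k11,k2)],[(k1,k2)],[(k10,k2)],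
    [(k4,k2),(k7,k2)],[(k4,k2),(k7,k2)],[(k9,k2)]]
    [] k0
    []
    [])]⟩

/-- classes `0 0 1 2 1 2`, types `N0 N2 B0 N0 B1 N2` -/
noncomputable def cU6_1359 : CertX :=
  ⟨[k12,k14,k24,k44,k25,k46],[(false,k0,[k0,k1,k2,k3,k4,k5])],[[[([z1,z1,z1,z0,z1,z0],z2)],[]]],
    [.old (.leafM k3 [k0,k1,k2,k4] [] [(k3,k5,z1,[y1,z1]),(k5,k3,z1,[y1,z1])]),
    .old (.lp [k2,k0,k2,k2,k0,k0] [k0,k0,k1,k1,k0,k0,k0,k0,k1,k1,k1,k1] k0 [] k4 k5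
    [[(k9,k1)],[(k2,k1)],[(k5,k1)],[(k0,k1)],[(k3,k1)],[(k8,k1),(k11,k1)],[(k8,k1),(k11,k1)],[(k10,k1)],[(k1,k1)],
    [(k4,k1),(k7,k1)],[(k4,k1),(k7,k1)],[(k6,k1)]]
    [] k0
    [[k0,k0,k0,k1,k0,k1]]
    [.ref k0 k0 [(z1,[y1,z1])]])]⟩

/-- classes `0 0 1 2 1 2`, types `N0 N2 B0 S0 B1 S0` -/
noncomputable def cU6_1360 : CertX :=
  ⟨[k12,k14,k24,k32,k25,k32],[(false,k0,[k0,k1,k2,k3,k4,k5])],[[[([z1,z1,z1,z0,z1,z0],z2)],[([z1,z1,z1,z0,z0,z1],z2)],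
    []]],
    [.old (.leafM k3 [k0,k1,k2,k4] [] [(k3,k5,z1,[y1,z1]),(k5,k3,z1,[y1,z1])]),
    .old (.leafM k1 [k2,k5,k0,k1] [] [(k3,k4,z1,[y1,z1]),(k4,k3,z1,[y1,z1])]),
    .old (.lp [k2,k2,k2,k2,k2,k2] [k0,k0,k0,k0,k0,k0,k0,k0,k0,k0,k0,k0] k0 [] k8 k5
    [[(k1,k2),(k6,k2),(k9,k2),(k10,k2)],[(k2,k2)],[(k5,k2)],[(k0,k2)],[(k3,k2)],[(k8,k2),(k11,k2)],[(k8,k2),(k11,k2)],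
    [(k1,k2),(k6,k2),(k9,k2),(k10,k2)],[(k1,k2),(k6,k2),(k9,k2),(k10,k2)],[(k4,k2),(k7,k2)],[(k4,k2),(k7,k2)],[(k1,
    k2),(k6,k2),(k9,k2),(k10,k2)]]
    [] k0
    [[k0,k0,k0,k1,k1,k0],[k0,k0,k0,k1,k0,k1]]
    [.ref k1 k0 [(z1,[y1,z1])],.ref k0 k0 [(z1,[y1,z1])]])]⟩

/-- classes `0 0 1 2 1 2`, types `N0 N2 C0 C0 C0 C0` -/
noncomputable def cU6_1361 : CertX :=
  ⟨[k12,k14,k20,k36,k20,k36],[(false,k0,[k0,k1,k2,k3,k4,k5]),(true,k2,[k2,k1,k0,k5,k4,k3])],[[[([z1,z1,z1,z0,z0,z1],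
    z2)],[]]],
    [.old (.leafM k1 [k2,k5,k0,k1] [] [(k3,k4,z1,[y1,z1]),(k4,k3,z1,[y1,z1])]),
    .old (.lp [k2,k0,k2,k0,k2,k0] [k0,k0,k1,k1,k0,k0,k1,k1,k0,k0,k1,k1] k0 [] k4 k5
    [[(k6,k1),(k10,k1)],[(k2,k1)],[(k5,k1)],[(k0,k1)],[(k3,k1)],[(k7,k1),(k11,k1)],[(k4,k1),(k8,k1)],[(k1,k1),(k9,
    k1)],[(k6,k1),(k10,k1)],[(k7,k1),(k11,k1)],[(k4,k1),(k8,k1)],[(k1,k1),(k9,k1)]]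
    [] k0
    [[k0,k0,k0,k1,k1,k0],[k0,k0,k0,k0,k1,k1]]
    [.ref k0 k0 [(z1,[y1,z1])],.ref k0 k1 [(z1,[y1,z1])]])]⟩

/-- classes `0 0 1 2 1 2`, types `N0 N2 C0 C0 C0 C2` -/
noncomputable def cU6_1362 : CertX :=
  ⟨[k12,k14,k20,k36,k20,k38],[(false,k0,[k0,k1,k2,k3,k4,k5])],[[[([z1,z1,z1,z0,z0,z1],z2)],[]]],
    [.old (.leafM k1 [k2,k5,k0,k1] [] [(k3,k4,z1,[y1,z1]),(k4,k3,z1,[y1,z1])]),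
    .old (.lp [k2,k2,k2,k2,k2,k2] [k0,k0,k0,k0,k0,k0,k0,k0,k0,k0,k0,k0] k0 [] k8 k5
    [[(k9,k2),(k10,k2)],[(k2,k2)],[(k5,k2)],[(k0,k2)],[(k3,k2)],[(k7,k2),(k11,k2)],[(k4,k2),(k8,k2)],[(k9,k2),(k10,
    k2)],[(k1,k2),(k6,k2)],[(k7,k2),(k11,k2)],[(k4,k2),(k8,k2)],[(k1,k2),(k6,k2)]]
    [] k0
    [[k0,k0,k0,k1,k1,k0]]
    [.ref k0 k0 [(z1,[y1,z1])]])]⟩

/-- classes `0 0 1 2 1 2`, types `N0 N2 C0 C0 C2 C2` -/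
noncomputable def cU6_1363 : CertX :=
  ⟨[k12,k14,k20,k36,k22,k38],[(false,k0,[k0,k1,k2,k3,k4,k5])],[[[([z1,z1,z1,z0,z1,z0],z2)],[]]],
    [.old (.leafM k3 [k0,k1,k2,k4] [] [(k3,k5,z1,[y1,z1]),(k5,k3,z1,[y1,z1])]),
    .old (.lp [k2,k2,k2,k2,k2,k2] [k0,k0,k0,k0,k0,k0,k0,k0,k0,k0,k0,k0] k0 [] k8 k5
    [[(k9,k2),(k10,k2)],[(k2,k2)],[(k5,k2)],[(k0,k2)],[(k3,k2)],[(k7,k2),(k8,k2)],[(k4,k2),(k11,k2)],[(k9,k2),(k10,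
    k2)],[(k1,k2),(k6,k2)],[(k4,k2),(k11,k2)],[(k7,k2),(k8,k2)],[(k1,k2),(k6,k2)]]
    [] k0
    [[k0,k0,k0,k1,k0,k1]]
    [.ref k0 k0 [(z1,[y1,z1])]])]⟩

/-- classes `0 0 1 2 1 2`, types `N0 N2 C0 N0 C0 N1` -/
noncomputable def cU6_1364 : CertX :=
  ⟨[k12,k14,k20,k44,k20,k45],[(false,k0,[k0,k1,k2,k3,k4,k5])],[[[([z1,z1,z1,z1,z0,z0],z2)],[]]],
    [.old (.leafM k1 [k2,k3,k0,k1] [] [(k4,k5,z1,[y1,z1]),(k5,k4,z1,[y1,z1])]),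
    .old (.lp [k2,k0,k2,k0,k2,k0] [k0,k0,k1,k1,k0,k0,k1,k1,k0,k0,k1,k1] k0 [] k4 k5
    [[(k6,k1)],[(k2,k1)],[(k5,k1)],[(k0,k1)],[(k3,k1)],[(k7,k1),(k11,k1)],[(k4,k1),(k8,k1)],[(k1,k1)],[(k10,k1)],[(k7,
    k1),(k11,k1)],[(k4,k1),(k8,k1)],[(k9,k1)]]
    [] k0
    [[k0,k0,k0,k0,k1,k1]]
    [.ref k0 k0 [(z1,[y1,z1])]])]⟩

/-- classes `0 0 1 2 1 2`, types `N0 N2 C0 N0 C0 N2` -/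
noncomputable def cU6_1365 : CertX :=
  ⟨[k12,k14,k20,k44,k20,k46],[],[[[]]],
    [.old (.lp [k2,k2,k2,k2,k2,k2] [k0,k0,k0,k0,k0,k0,k0,k0,k0,k0,k0,k0] k0 [] k8 k5
    [[(k9,k2)],[(k2,k2)],[(k5,k2)],[(k0,k2)],[(k3,k2)],[(k7,k2),(k11,k2)],[(k4,k2),(k8,k2)],[(k10,k2)],[(k1,k2)],[(k7,
    k2),(k11,k2)],[(k4,k2),(k8,k2)],[(k6,k2)]]
    [] k0
    []
    [])]⟩

/-- classes `0 0 1 2 1 2`, types `N0 N2 C0 N0 C2 N1` -/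
noncomputable def cU6_1366 : CertX :=
  ⟨[k12,k14,k20,k44,k22,k45],[(false,k0,[k0,k1,k2,k3,k4,k5])],[[[([z1,z1,z1,z1,z0,z0],z2)],[]]],
    [.old (.leafM k1 [k2,k3,k0,k1] [] [(k4,k5,z1,[y1,z1]),(k5,k4,z1,[y1,z1])]),
    .old (.lp [k0,k2,k0,k2,k2,k0] [k1,k1,k0,k0,k1,k1,k0,k0,k0,k0,k1,k1] k0 [] k4 k5
    [[(k6,k1)],[(k2,k1)],[(k5,k1)],[(k0,k1)],[(k3,k1)],[(k7,k1),(k8,k1)],[(k4,k1),(k11,k1)],[(k1,k1)],[(k10,k1)],[(k4,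
    k1),(k11,k1)],[(k7,k1),(k8,k1)],[(k9,k1)]]
    [] k0
    [[k0,k0,k0,k0,k1,k1]]
    [.ref k0 k0 [(z1,[y1,z1])]])]⟩

/-- classes `0 0 1 2 1 2`, types `N0 N2 C0 N0 C2 N2` -/
noncomputable def cU6_1367 : CertX :=
  ⟨[k12,k14,k20,k44,k22,k46],[(false,k0,[k0,k1,k2,k3,k4,k5])],[[[([z1,z1,z1,z0,z1,z0],z2)],[]]],
    [.old (.leafM k3 [k0,k1,k2,k4] [] [(k3,k5,z1,[y1,z1]),(k5,k3,z1,[y1,z1])]),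
    .old (.lp [k0,k2,k0,k2,k2,k0] [k1,k1,k0,k0,k1,k1,k0,k0,k0,k0,k1,k1] k0 [] k4 k5
    [[(k9,k1)],[(k2,k1)],[(k5,k1)],[(k0,k1)],[(k3,k1)],[(k7,k1),(k8,k1)],[(k4,k1),(k11,k1)],[(k10,k1)],[(k1,k1)],[(k4,
    k1),(k11,k1)],[(k7,k1),(k8,k1)],[(k6,k1)]]
    [] k0
    [[k0,k0,k0,k1,k0,k1]]
    [.ref k0 k0 [(z1,[y1,z1])]])]⟩

/-- classes `0 0 1 2 1 2`, types `N0 N2 C0 S0 C0 S0` -/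
noncomputable def cU6_1368 : CertX :=
  ⟨[k12,k14,k20,k32,k20,k32],[(false,k0,[k0,k1,k2,k3,k4,k5])],[[[([z1,z1,z1,z1,z0,z0],z2)],[([z1,z1,z1,z0,z0,z1],z2)],
    []]],
    [.old (.leafM k1 [k2,k3,k0,k1] [] [(k4,k5,z1,[y1,z1]),(k5,k4,z1,[y1,z1])]),
    .old (.leafM k1 [k2,k5,k0,k1] [] [(k3,k4,z1,[y1,z1]),(k4,k3,z1,[y1,z1])]),
    .old (.lp [k2,k2,k2,k2,k2,k2] [k0,k0,k0,k0,k0,k0,k0,k0,k0,k0,k0,k0] k0 [] k8 k5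
    [[(k1,k2),(k6,k2),(k9,k2),(k10,k2)],[(k2,k2)],[(k5,k2)],[(k0,k2)],[(k3,k2)],[(k7,k2),(k11,k2)],[(k4,k2),(k8,k2)],
    [(k1,k2),(k6,k2),(k9,k2),(k10,k2)],[(k1,k2),(k6,k2),(k9,k2),(k10,k2)],[(k7,k2),(k11,k2)],[(k4,k2),(k8,k2)],[(k1,
    k2),(k6,k2),(k9,k2),(k10,k2)]]
    [] k0
    [[k0,k0,k0,k1,k1,k0],[k0,k0,k0,k0,k1,k1]]
    [.ref k1 k0 [(z1,[y1,z1])],.ref k0 k0 [(z1,[y1,z1])]])]⟩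

/-- classes `0 0 1 2 1 2`, types `N0 N2 C0 S0 C2 S0` -/
noncomputable def cU6_1369 : CertX :=
  ⟨[k12,k14,k20,k32,k22,k32],[(false,k0,[k0,k1,k2,k3,k4,k5])],[[[([z1,z1,z1,z1,z0,z0],z2)],[([z1,z1,z1,z0,z1,z0],z2)],
    []]],
    [.old (.leafM k1 [k2,k3,k0,k1] [] [(k4,k5,z1,[y1,z1]),(k5,k4,z1,[y1,z1])]),
    .old (.leafM k3 [k0,k1,k2,k4] [] [(k3,k5,z1,[y1,z1]),(k5,k3,z1,[y1,z1])]),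
    .old (.lp [k2,k2,k2,k2,k2,k2] [k0,k0,k0,k0,k0,k0,k0,k0,k0,k0,k0,k0] k0 [] k8 k5
    [[(k1,k2),(k6,k2),(k9,k2),(k10,k2)],[(k2,k2)],[(k5,k2)],[(k0,k2)],[(k3,k2)],[(k7,k2),(k8,k2)],[(k4,k2),(k11,k2)],
    [(k1,k2),(k6,k2),(k9,k2),(k10,k2)],[(k1,k2),(k6,k2),(k9,k2),(k10,k2)],[(k4,k2),(k11,k2)],[(k7,k2),(k8,k2)],[(k1,
    k2),(k6,k2),(k9,k2),(k10,k2)]]
    [] k0
    [[k0,k0,k0,k1,k0,k1],[k0,k0,k0,k0,k1,k1]]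
    [.ref k1 k0 [(z1,[y1,z1])],.ref k0 k0 [(z1,[y1,z1])]])]⟩

/-- classes `0 0 1 2 1 2`, types `N0 N2 N0 N0 N1 N1` -/
noncomputable def cU6_1370 : CertX :=
  ⟨[k12,k14,k28,k44,k29,k45],[],[[[]]],
    [.old (.lp [k2,k0,k2,k0,k2,k0] [k0,k0,k1,k1,k0,k0,k1,k1,k0,k0,k1,k1] k0 [] k4 k5
    [[(k6,k1)],[(k2,k1)],[(k5,k1)],[(k0,k1)],[(k3,k1)],[(k11,k1)],[(k8,k1)],[(k1,k1)],[(k10,k1)],[(k7,k1)],[(k4,k1)],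
    [(k9,k1)]]
    [] k0
    []
    [])]⟩

/-- classes `0 0 1 2 1 2`, types `N0 N2 N0 N0 N1 N2` -/
noncomputable def cU6_1371 : CertX :=
  ⟨[k12,k14,k28,k44,k29,k46],[],[[[]]],
    [.old (.lp [k2,k0,k2,k2,k0,k0] [k0,k0,k1,k1,k0,k0,k0,k0,k1,k1,k1,k1] k0 [] k4 k5
    [[(k9,k1)],[(k2,k1)],[(k5,k1)],[(k0,k1)],[(k3,k1)],[(k11,k1)],[(k8,k1)],[(k10,k1)],[(k1,k1)],[(k7,k1)],[(k4,k1)],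
    [(k6,k1)]]
    [] k0
    []
    [])]⟩

/-- classes `0 0 1 2 1 2`, types `N0 N2 N0 N0 N2 N2` -/
noncomputable def cU6_1372 : CertX :=
  ⟨[k12,k14,k28,k44,k30,k46],[(false,k0,[k0,k1,k2,k3,k4,k5])],[[[([z1,z1,z1,z0,z1,z0],z2)],[]]],
    [.old (.leafM k3 [k0,k1,k2,k4] [] [(k3,k5,z1,[y1,z1]),(k5,k3,z1,[y1,z1])]),
    .old (.lp [k0,k2,k0,k2,k2,k0] [k1,k1,k0,k0,k1,k1,k0,k0,k0,k0,k1,k1] k0 [] k4 k5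
    [[(k9,k1)],[(k2,k1)],[(k5,k1)],[(k0,k1)],[(k3,k1)],[(k8,k1)],[(k11,k1)],[(k10,k1)],[(k1,k1)],[(k4,k1)],[(k7,k1)],
    [(k6,k1)]]
    [] k0
    [[k0,k0,k0,k1,k0,k1]]
    [.ref k0 k0 [(z1,[y1,z1])]])]⟩

/-- classes `0 0 1 2 1 2`, types `N0 N2 N0 S0 N1 S0` -/
noncomputable def cU6_1373 : CertX :=
  ⟨[k12,k14,k28,k32,k29,k32],[(false,k0,[k0,k1,k2,k3,k4,k5])],[[[([z1,z1,z1,z0,z0,z1],z2)],[]]],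
    [.old (.leafM k1 [k2,k5,k0,k1] [] [(k3,k4,z1,[y1,z1]),(k4,k3,z1,[y1,z1])]),
    .old (.lp [k2,k2,k2,k2,k2,k2] [k0,k0,k0,k0,k0,k0,k0,k0,k0,k0,k0,k0] k0 [] k8 k5
    [[(k1,k2),(k6,k2),(k9,k2),(k10,k2)],[(k2,k2)],[(k5,k2)],[(k0,k2)],[(k3,k2)],[(k11,k2)],[(k8,k2)],[(k1,k2),(k6,k2),
    (k9,k2),(k10,k2)],[(k1,k2),(k6,k2),(k9,k2),(k10,k2)],[(k7,k2)],[(k4,k2)],[(k1,k2),(k6,k2),(k9,k2),(k10,k2)]]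
    [] k0
    [[k0,k0,k0,k1,k1,k0]]
    [.ref k0 k0 [(z1,[y1,z1])]])]⟩

/-- classes `0 0 1 2 1 2`, types `N0 N2 N0 S0 N2 S0` -/
noncomputable def cU6_1374 : CertX :=
  ⟨[k12,k14,k28,k32,k30,k32],[(false,k0,[k0,k1,k2,k3,k4,k5])],[[[([z1,z1,z1,z0,z1,z0],z2)],[]]],
    [.old (.leafM k3 [k0,k1,k2,k4] [] [(k3,k5,z1,[y1,z1]),(k5,k3,z1,[y1,z1])]),
    .old (.lp [k2,k2,k2,k2,k2,k2] [k0,k0,k0,k0,k0,k0,k0,k0,k0,k0,k0,k0] k0 [] k8 k5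
    [[(k1,k2),(k6,k2),(k9,k2),(k10,k2)],[(k2,k2)],[(k5,k2)],[(k0,k2)],[(k3,k2)],[(k8,k2)],[(k11,k2)],[(k1,k2),(k6,k2),
    (k9,k2),(k10,k2)],[(k1,k2),(k6,k2),(k9,k2),(k10,k2)],[(k4,k2)],[(k7,k2)],[(k1,k2),(k6,k2),(k9,k2),(k10,k2)]]
    [] k0
    [[k0,k0,k0,k1,k0,k1]]
    [.ref k0 k0 [(z1,[y1,z1])]])]⟩

/-- classes `0 0 1 2 1 2`, types `N0 N2 S0 S0 S0 S0` -/
noncomputable def cU6_1375 : CertX :=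
  ⟨[k12,k14,k16,k32,k16,k32],[(false,k0,[k0,k1,k2,k3,k4,k5]),(true,k2,[k2,k1,k0,k5,k4,k3])],[[[([z1,z1,z1,z0,z0,z1],
    z2)],[([z1,z1,z1,z0,z1,z0],z2)],[]]],
    [.old (.leafM k1 [k2,k5,k0,k1] [] [(k3,k4,z1,[y1,z1]),(k4,k3,z1,[y1,z1])]),
    .old (.leafM k3 [k0,k1,k2,k4] [] [(k3,k5,z1,[y1,z1]),(k5,k3,z1,[y1,z1])]),
    .old (.lp [k2,k2,k2,k4,k2,k2] [k1,k1,k1,k1,k1,k1,k0,k0,k1,k1,k1,k1] k0 [] k8 k5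
    [[(k1,k2),(k9,k2),(k10,k2),(k6,k3)],[(k2,k2)],[(k5,k2)],[(k0,k2)],[(k3,k2)],[(k4,k2),(k8,k2),(k11,k2),(k7,k3)],
    [(k4,k3),(k8,k3),(k11,k3),(k7,k4)],[(k1,k3),(k9,k3),(k10,k3),(k6,k4)],[(k1,k2),(k9,k2),(k10,k2),(k6,k3)],[(k4,k2),
    (k8,k2),(k11,k2),(k7,k3)],[(k4,k2),(k8,k2),(k11,k2),(k7,k3)],[(k1,k2),(k9,k2),(k10,k2),(k6,k3)]]
    [] k0
    [[k0,k0,k0,k1,k1,k0],[k0,k0,k0,k1,k0,k1],[k0,k0,k0,k0,k2,k0],[k0,k0,k0,k0,k1,k1],[k0,k0,k0,k0,k0,k2]]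
    [.ref k0 k0 [(z1,[y1,z1])],.ref k1 k0 [(z1,[y1,z1])],.contra [z1],.ref k0 k1 [(z1,[y1,z1])],.contra [z1]])]⟩

/-- classes `0 0 1 2 1 2`, types `S0 S0 B0 B0 B1 B1` -/
noncomputable def cU6_1376 : CertX :=
  ⟨[k0,k0,k24,k40,k25,k41],[(false,k0,[k0,k1,k2,k3,k4,k5])],[[[([z1,z1,z1,z0,z1,z0],z2)],[]]],
    [.old (.leafM k1 [k0,k1,k2,k4] [] [(k3,k5,z1,[y1,z1]),(k5,k3,z1,[y1,z1])]),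
    .old (.lp [k18,k16,k12,k6,k18,k18] [k0,k0,k1,k1,k3,k3,k6,k6,k0,k0,k0,k0] k0 [] k48 k5
    [[(k6,k12),(k9,k18)],[(k5,k15),(k2,k17),(k3,k17),(k0,k18)],[(k5,k14),(k2,k16),(k3,k16),(k0,k17)],[(k5,k14),(k2,
    k16),(k3,k16),(k0,k17)],[(k5,k12),(k2,k14),(k3,k14),(k0,k15)],[(k8,k15),(k11,k15)],[(k8,k12),(k11,k12)],[(k1,k12),
    (k10,k12)],[(k1,k18),(k10,k18)],[(k7,k12),(k4,k15)],[(k7,k12),(k4,k15)],[(k6,k12),(k9,k18)]]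
    [] k0
    [[k0,k2,k0,k0,k0,k0],[k0,k0,k0,k1,k0,k1]]
    [.contra [z1],.ref k0 k0 [(z1,[y1,z1])]])]⟩

/-- classes `0 0 1 2 1 2`, types `S0 S0 B0 C0 B1 C0` -/
noncomputable def cU6_1377 : CertX :=
  ⟨[k0,k0,k24,k36,k25,k36],[(false,k0,[k0,k1,k2,k3,k4,k5])],[[[([z1,z1,z1,z0,z0,z1],z2)],[]]],
    [.old (.leafM k0 [k0,k1,k2,k5] [] [(k3,k4,z1,[y1,z1]),(k4,k3,z1,[y1,z1])]),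
    .old (.lp [k12,k8,k6,k6,k6,k6] [k0,k0,k2,k2,k3,k3,k3,k3,k3,k3,k3,k3] k0 [] k24 k5
    [[(k6,k9),(k10,k9)],[(k5,k9),(k2,k10),(k3,k10),(k0,k12)],[(k5,k7),(k2,k8),(k3,k8),(k0,k10)],[(k5,k7),(k2,k8),(k3,
    k8),(k0,k10)],[(k5,k6),(k2,k7),(k3,k7),(k0,k9)],[(k8,k6),(k11,k6)],[(k8,k6),(k11,k6)],[(k9,k6),(k1,k9)],[(k6,k6),
    (k10,k6)],[(k4,k6),(k7,k6)],[(k4,k6),(k7,k6)],[(k9,k6),(k1,k9)]]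
    [] k0
    [[k0,k2,k0,k0,k0,k0],[k0,k0,k0,k1,k1,k0]]
    [.contra [z1],.ref k0 k0 [(z1,[y1,z1])]])]⟩

/-- classes `0 0 1 2 1 2`, types `S0 S0 B0 C0 B1 C2` -/
noncomputable def cU6_1378 : CertX :=
  ⟨[k0,k0,k24,k36,k25,k38],[(false,k0,[k0,k1,k2,k3,k4,k5])],[[[([z1,z1,z1,z0,z1,z0],z2)],[([z1,z1,z1,z0,z0,z1],z2)],
    []]],
    [.old (.leafM k1 [k0,k1,k2,k4] [] [(k3,k5,z1,[y1,z1]),(k5,k3,z1,[y1,z1])]),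
    .old (.leafM k0 [k0,k1,k2,k5] [] [(k3,k4,z1,[y1,z1]),(k4,k3,z1,[y1,z1])]),
    .old (.lp [k12,k8,k6,k6,k6,k6] [k0,k0,k2,k2,k3,k3,k3,k3,k3,k3,k3,k3] k0 [] k24 k5
    [[(k9,k9),(k10,k9)],[(k5,k9),(k2,k10),(k3,k10),(k0,k12)],[(k5,k7),(k2,k8),(k3,k8),(k0,k10)],[(k5,k7),(k2,k8),(k3,
    k8),(k0,k10)],[(k5,k6),(k2,k7),(k3,k7),(k0,k9)],[(k8,k6),(k11,k6)],[(k8,k6),(k11,k6)],[(k9,k6),(k10,k6)],[(k6,k6),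
    (k1,k9)],[(k4,k6),(k7,k6)],[(k4,k6),(k7,k6)],[(k6,k6),(k1,k9)]]
    [] k0
    [[k0,k2,k0,k0,k0,k0],[k0,k0,k0,k1,k1,k0],[k0,k0,k0,k1,k0,k1]]
    [.contra [z1],.ref k1 k0 [(z1,[y1,z1])],.ref k0 k0 [(z1,[y1,z1])]])]⟩

/-- classes `0 0 1 2 1 2`, types `S0 S0 B0 N0 B1 N1` -/
noncomputable def cU6_1379 : CertX :=
  ⟨[k0,k0,k24,k44,k25,k45],[],[[[]]],
    [.old (.lp [k2,k4,k2,k2,k2,k2] [k1,k1,k0,k0,k1,k1,k1,k1,k1,k1,k1,k1] k0 [] k8 k5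
    [[(k6,k2)],[(k0,k2),(k5,k2),(k2,k3),(k3,k3)],[(k0,k3),(k5,k3),(k2,k4),(k3,k4)],[(k0,k3),(k5,k3),(k2,k4),(k3,k4)],
    [(k0,k2),(k5,k2),(k2,k3),(k3,k3)],[(k8,k2),(k11,k2)],[(k8,k2),(k11,k2)],[(k1,k2)],[(k10,k2)],[(k4,k2),(k7,k2)],
    [(k4,k2),(k7,k2)],[(k9,k2)]]
    [] k0
    []
    [])]⟩

/-- classes `0 0 1 2 1 2`, types `S0 S0 B0 N0 B1 N2` -/
noncomputable def cU6_1380 : CertX :=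
  ⟨[k0,k0,k24,k44,k25,k46],[(false,k0,[k0,k1,k2,k3,k4,k5])],[[[([z1,z1,z1,z0,z1,z0],z2)],[]]],
    [.old (.leafM k1 [k0,k1,k2,k4] [] [(k3,k5,z1,[y1,z1]),(k5,k3,z1,[y1,z1])]),
    .old (.lp [k12,k8,k6,k6,k6,k6] [k0,k0,k2,k2,k3,k3,k3,k3,k3,k3,k3,k3] k0 [] k24 k5
    [[(k9,k9)],[(k5,k9),(k2,k10),(k3,k10),(k0,k12)],[(k5,k7),(k2,k8),(k3,k8),(k0,k10)],[(k5,k7),(k2,k8),(k3,k8),(k0,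
    k10)],[(k5,k6),(k2,k7),(k3,k7),(k0,k9)],[(k8,k6),(k11,k6)],[(k8,k6),(k11,k6)],[(k10,k6)],[(k1,k9)],[(k4,k6),(k7,
    k6)],[(k4,k6),(k7,k6)],[(k6,k6)]]
    [] k0
    [[k0,k2,k0,k0,k0,k0],[k0,k0,k0,k1,k0,k1]]
    [.contra [z1],.ref k0 k0 [(z1,[y1,z1])]])]⟩

/-- classes `0 0 1 2 1 2`, types `S0 S0 B0 S0 B1 S0` -/
noncomputable def cU6_1381 : CertX :=
  ⟨[k0,k0,k24,k32,k25,k32],[(false,k0,[k0,k1,k2,k3,k4,k5])],[[[([z1,z1,z1,z0,z1,z0],z2)],[([z1,z1,z1,z0,z0,z1],z2)],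
    []]],
    [.old (.leafM k1 [k0,k1,k2,k4] [] [(k3,k5,z1,[y1,z1]),(k5,k3,z1,[y1,z1])]),
    .old (.leafM k0 [k0,k1,k2,k5] [] [(k3,k4,z1,[y1,z1]),(k4,k3,z1,[y1,z1])]),
    .old (.lp [k12,k8,k6,k6,k6,k6] [k0,k0,k2,k2,k3,k3,k3,k3,k3,k3,k3,k3] k0 [] k24 k5
    [[(k6,k9),(k9,k9),(k10,k9),(k1,k12)],[(k5,k9),(k2,k10),(k3,k10),(k0,k12)],[(k5,k7),(k2,k8),(k3,k8),(k0,k10)],[(k5,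
    k7),(k2,k8),(k3,k8),(k0,k10)],[(k5,k6),(k2,k7),(k3,k7),(k0,k9)],[(k8,k6),(k11,k6)],[(k8,k6),(k11,k6)],[(k6,k6),
    (k9,k6),(k10,k6),(k1,k9)],[(k6,k6),(k9,k6),(k10,k6),(k1,k9)],[(k4,k6),(k7,k6)],[(k4,k6),(k7,k6)],[(k6,k6),(k9,k6),
    (k10,k6),(k1,k9)]]
    [] k0
    [[k0,k2,k0,k0,k0,k0],[k0,k0,k0,k1,k1,k0],[k0,k0,k0,k1,k0,k1]]
    [.contra [z1],.ref k1 k0 [(z1,[y1,z1])],.ref k0 k0 [(z1,[y1,z1])]])]⟩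

/-- classes `0 0 1 2 1 2`, types `S0 S0 C0 C0 C0 C0` -/
noncomputable def cU6_1382 : CertX :=
  ⟨[k0,k0,k20,k36,k20,k36],[(false,k0,[k0,k1,k2,k3,k4,k5]),(true,k2,[k2,k1,k0,k5,k4,k3])],[[[([z1,z1,z1,z0,z0,z1],
    z2)],[]]],
    [.old (.leafM k0 [k0,k1,k2,k5] [] [(k3,k4,z1,[y1,z1]),(k4,k3,z1,[y1,z1])]),
    .old (.lp [k12,k8,k6,k6,k6,k6] [k0,k0,k2,k2,k3,k3,k3,k3,k3,k3,k3,k3] k0 [] k24 k5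
    [[(k6,k9),(k10,k9)],[(k5,k9),(k2,k10),(k3,k10),(k0,k12)],[(k5,k7),(k2,k8),(k3,k8),(k0,k10)],[(k5,k7),(k2,k8),(k3,
    k8),(k0,k10)],[(k5,k6),(k2,k7),(k3,k7),(k0,k9)],[(k7,k6),(k11,k6)],[(k4,k6),(k8,k6)],[(k9,k6),(k1,k9)],[(k6,k6),
    (k10,k6)],[(k7,k6),(k11,k6)],[(k4,k6),(k8,k6)],[(k9,k6),(k1,k9)]]
    [] k0
    [[k0,k2,k0,k0,k0,k0],[k0,k0,k0,k1,k1,k0],[k0,k0,k0,k0,k1,k1]]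
    [.contra [z1],.ref k0 k0 [(z1,[y1,z1])],.ref k0 k1 [(z1,[y1,z1])]])]⟩

/-- classes `0 0 1 2 1 2`, types `S0 S0 C0 C0 C0 C2` -/
noncomputable def cU6_1383 : CertX :=
  ⟨[k0,k0,k20,k36,k20,k38],[(false,k0,[k0,k1,k2,k3,k4,k5])],[[[([z1,z1,z1,z0,z0,z1],z2)],[]]],
    [.old (.leafM k0 [k0,k1,k2,k5] [] [(k3,k4,z1,[y1,z1]),(k4,k3,z1,[y1,z1])]),
    .old (.lp [k12,k8,k6,k6,k6,k6] [k0,k0,k2,k2,k3,k3,k3,k3,k3,k3,k3,k3] k0 [] k24 k5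
    [[(k9,k9),(k10,k9)],[(k5,k9),(k2,k10),(k3,k10),(k0,k12)],[(k5,k7),(k2,k8),(k3,k8),(k0,k10)],[(k5,k7),(k2,k8),(k3,
    k8),(k0,k10)],[(k5,k6),(k2,k7),(k3,k7),(k0,k9)],[(k7,k6),(k11,k6)],[(k4,k6),(k8,k6)],[(k9,k6),(k10,k6)],[(k6,k6),
    (k1,k9)],[(k7,k6),(k11,k6)],[(k4,k6),(k8,k6)],[(k6,k6),(k1,k9)]]
    [] k0
    [[k0,k2,k0,k0,k0,k0],[k0,k0,k0,k1,k1,k0]]
    [.contra [z1],.ref k0 k0 [(z1,[y1,z1])]])]⟩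

/-- classes `0 0 1 2 1 2`, types `S0 S0 C0 C0 C2 C2` -/
noncomputable def cU6_1384 : CertX :=
  ⟨[k0,k0,k20,k36,k22,k38],[(false,k0,[k0,k1,k2,k3,k4,k5])],[[[([z1,z1,z1,z0,z1,z0],z2)],[]]],
    [.old (.leafM k1 [k0,k1,k2,k4] [] [(k3,k5,z1,[y1,z1]),(k5,k3,z1,[y1,z1])]),
    .old (.lp [k12,k8,k6,k6,k6,k6] [k0,k0,k2,k2,k3,k3,k3,k3,k3,k3,k3,k3] k0 [] k24 k5
    [[(k9,k9),(k10,k9)],[(k5,k9),(k2,k10),(k3,k10),(k0,k12)],[(k5,k7),(k2,k8),(k3,k8),(k0,k10)],[(k5,k7),(k2,k8),(k3,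
    k8),(k0,k10)],[(k5,k6),(k2,k7),(k3,k7),(k0,k9)],[(k7,k6),(k8,k6)],[(k4,k6),(k11,k6)],[(k9,k6),(k10,k6)],[(k6,k6),
    (k1,k9)],[(k4,k6),(k11,k6)],[(k7,k6),(k8,k6)],[(k6,k6),(k1,k9)]]
    [] k0
    [[k0,k2,k0,k0,k0,k0],[k0,k0,k0,k1,k0,k1]]
    [.contra [z1],.ref k0 k0 [(z1,[y1,z1])]])]⟩

/-- classes `0 0 1 2 1 2`, types `S0 S0 C0 N0 C0 N1` -/
noncomputable def cU6_1385 : CertX :=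
  ⟨[k0,k0,k20,k44,k20,k45],[(false,k0,[k0,k1,k2,k3,k4,k5])],[[[([z1,z1,z1,z1,z0,z0],z2)],[]]],
    [.old (.leafM k0 [k0,k1,k2,k3] [] [(k4,k5,z1,[y1,z1]),(k5,k4,z1,[y1,z1])]),
    .old (.lp [k12,k8,k6,k6,k6,k6] [k0,k0,k2,k2,k3,k3,k3,k3,k3,k3,k3,k3] k0 [] k24 k5
    [[(k6,k9)],[(k5,k9),(k2,k10),(k3,k10),(k0,k12)],[(k5,k7),(k2,k8),(k3,k8),(k0,k10)],[(k5,k7),(k2,k8),(k3,k8),(k0,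
    k10)],[(k5,k6),(k2,k7),(k3,k7),(k0,k9)],[(k7,k6),(k11,k6)],[(k4,k6),(k8,k6)],[(k1,k9)],[(k10,k6)],[(k7,k6),(k11,
    k6)],[(k4,k6),(k8,k6)],[(k9,k6)]]
    [] k0
    [[k0,k2,k0,k0,k0,k0],[k0,k0,k0,k0,k1,k1]]
    [.contra [z1],.ref k0 k0 [(z1,[y1,z1])]])]⟩

/-- classes `0 0 1 2 1 2`, types `S0 S0 C0 N0 C0 N2` -/
noncomputable def cU6_1386 : CertX :=
  ⟨[k0,k0,k20,k44,k20,k46],[],[[[]]],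
    [.old (.lp [k2,k4,k2,k2,k2,k2] [k1,k1,k0,k0,k1,k1,k1,k1,k1,k1,k1,k1] k0 [] k8 k5
    [[(k9,k2)],[(k0,k2),(k5,k2),(k2,k3),(k3,k3)],[(k0,k3),(k5,k3),(k2,k4),(k3,k4)],[(k0,k3),(k5,k3),(k2,k4),(k3,k4)],
    [(k0,k2),(k5,k2),(k2,k3),(k3,k3)],[(k7,k2),(k11,k2)],[(k4,k2),(k8,k2)],[(k10,k2)],[(k1,k2)],[(k7,k2),(k11,k2)],
    [(k4,k2),(k8,k2)],[(k6,k2)]]
    [] k0
    []
    [])]⟩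

/-- classes `0 0 1 2 1 2`, types `S0 S0 C0 N0 C2 N1` -/
noncomputable def cU6_1387 : CertX :=
  ⟨[k0,k0,k20,k44,k22,k45],[(false,k0,[k0,k1,k2,k3,k4,k5])],[[[([z1,z1,z1,z1,z0,z0],z2)],[]]],
    [.old (.leafM k0 [k0,k1,k2,k3] [] [(k4,k5,z1,[y1,z1]),(k5,k4,z1,[y1,z1])]),
    .old (.lp [k6,k4,k6,k0,k0,k6] [k0,k0,k1,k1,k0,k0,k3,k3,k3,k3,k0,k0] k0 [] k12 k5
    [[(k6,k3)],[(k2,k5),(k3,k5),(k0,k6),(k5,k6)],[(k2,k4),(k3,k4),(k0,k5),(k5,k5)],[(k2,k4),(k3,k4),(k0,k5),(k5,k5)],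
    [(k2,k5),(k3,k5),(k0,k6),(k5,k6)],[(k7,k3),(k8,k3)],[(k4,k3),(k11,k3)],[(k1,k3)],[(k10,k3)],[(k4,k3),(k11,k3)],
    [(k7,k3),(k8,k3)],[(k9,k3)]]
    [] k0
    [[k0,k2,k0,k0,k0,k0],[k0,k0,k0,k0,k1,k1]]
    [.contra [z1],.ref k0 k0 [(z1,[y1,z1])]])]⟩

/-- classes `0 0 1 2 1 2`, types `S0 S0 C0 N0 C2 N2` -/
noncomputable def cU6_1388 : CertX :=
  ⟨[k0,k0,k20,k44,k22,k46],[(false,k0,[k0,k1,k2,k3,k4,k5])],[[[([z1,z1,z1,z0,z1,z0],z2)],[]]],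
    [.old (.leafM k1 [k0,k1,k2,k4] [] [(k3,k5,z1,[y1,z1]),(k5,k3,z1,[y1,z1])]),
    .old (.lp [k6,k4,k6,k0,k0,k6] [k0,k0,k1,k1,k0,k0,k3,k3,k3,k3,k0,k0] k0 [] k12 k5
    [[(k9,k3)],[(k2,k5),(k3,k5),(k0,k6),(k5,k6)],[(k2,k4),(k3,k4),(k0,k5),(k5,k5)],[(k2,k4),(k3,k4),(k0,k5),(k5,k5)],
    [(k2,k5),(k3,k5),(k0,k6),(k5,k6)],[(k7,k3),(k8,k3)],[(k4,k3),(k11,k3)],[(k10,k3)],[(k1,k3)],[(k4,k3),(k11,k3)],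
    [(k7,k3),(k8,k3)],[(k6,k3)]]
    [] k0
    [[k0,k2,k0,k0,k0,k0],[k0,k0,k0,k1,k0,k1]]
    [.contra [z1],.ref k0 k0 [(z1,[y1,z1])]])]⟩

/-- classes `0 0 1 2 1 2`, types `S0 S0 C0 S0 C0 S0` -/
noncomputable def cU6_1389 : CertX :=
  ⟨[k0,k0,k20,k32,k20,k32],[(false,k0,[k0,k1,k2,k3,k4,k5])],[[[([z1,z1,z1,z1,z0,z0],z2)],[([z1,z1,z1,z0,z0,z1],z2)],
    []]],
    [.old (.leafM k0 [k0,k1,k2,k3] [] [(k4,k5,z1,[y1,z1]),(k5,k4,z1,[y1,z1])]),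
    .old (.leafM k0 [k0,k1,k2,k5] [] [(k3,k4,z1,[y1,z1]),(k4,k3,z1,[y1,z1])]),
    .old (.lp [k12,k8,k6,k6,k6,k6] [k0,k0,k2,k2,k3,k3,k3,k3,k3,k3,k3,k3] k0 [] k24 k5
    [[(k6,k9),(k9,k9),(k10,k9),(k1,k12)],[(k5,k9),(k2,k10),(k3,k10),(k0,k12)],[(k5,k7),(k2,k8),(k3,k8),(k0,k10)],[(k5,
    k7),(k2,k8),(k3,k8),(k0,k10)],[(k5,k6),(k2,k7),(k3,k7),(k0,k9)],[(k7,k6),(k11,k6)],[(k4,k6),(k8,k6)],[(k6,k6),(k9,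
    k6),(k10,k6),(k1,k9)],[(k6,k6),(k9,k6),(k10,k6),(k1,k9)],[(k7,k6),(k11,k6)],[(k4,k6),(k8,k6)],[(k6,k6),(k9,k6),
    (k10,k6),(k1,k9)]]
    [] k0
    [[k0,k2,k0,k0,k0,k0],[k0,k0,k0,k1,k1,k0],[k0,k0,k0,k0,k1,k1]]
    [.contra [z1],.ref k1 k0 [(z1,[y1,z1])],.ref k0 k0 [(z1,[y1,z1])]])]⟩

/-- classes `0 0 1 2 1 2`, types `S0 S0 C0 S0 C2 S0` -/
noncomputable def cU6_1390 : CertX :=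
  ⟨[k0,k0,k20,k32,k22,k32],[(false,k0,[k0,k1,k2,k3,k4,k5])],[[[([z1,z1,z1,z1,z0,z0],z2)],[([z1,z1,z1,z0,z1,z0],z2)],
    []]],
    [.old (.leafM k0 [k0,k1,k2,k3] [] [(k4,k5,z1,[y1,z1]),(k5,k4,z1,[y1,z1])]),
    .old (.leafM k1 [k0,k1,k2,k4] [] [(k3,k5,z1,[y1,z1]),(k5,k3,z1,[y1,z1])]),
    .old (.lp [k12,k8,k6,k6,k6,k6] [k0,k0,k2,k2,k3,k3,k3,k3,k3,k3,k3,k3] k0 [] k24 k5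
    [[(k6,k9),(k9,k9),(k10,k9),(k1,k12)],[(k5,k9),(k2,k10),(k3,k10),(k0,k12)],[(k5,k7),(k2,k8),(k3,k8),(k0,k10)],[(k5,
    k7),(k2,k8),(k3,k8),(k0,k10)],[(k5,k6),(k2,k7),(k3,k7),(k0,k9)],[(k7,k6),(k8,k6)],[(k4,k6),(k11,k6)],[(k6,k6),(k9,
    k6),(k10,k6),(k1,k9)],[(k6,k6),(k9,k6),(k10,k6),(k1,k9)],[(k4,k6),(k11,k6)],[(k7,k6),(k8,k6)],[(k6,k6),(k9,k6),
    (k10,k6),(k1,k9)]]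
    [] k0
    [[k0,k2,k0,k0,k0,k0],[k0,k0,k0,k1,k0,k1],[k0,k0,k0,k0,k1,k1]]
    [.contra [z1],.ref k1 k0 [(z1,[y1,z1])],.ref k0 k0 [(z1,[y1,z1])]])]⟩

/-- classes `0 0 1 2 1 2`, types `S0 S0 N0 N0 N1 N1` -/
noncomputable def cU6_1391 : CertX :=
  ⟨[k0,k0,k28,k44,k29,k45],[],[[[]]],
    [.old (.lp [k2,k4,k2,k2,k2,k2] [k1,k1,k0,k0,k1,k1,k1,k1,k1,k1,k1,k1] k0 [] k8 k5
    [[(k6,k2)],[(k0,k2),(k5,k2),(k2,k3),(k3,k3)],[(k0,k3),(k5,k3),(k2,k4),(k3,k4)],[(k0,k3),(k5,k3),(k2,k4),(k3,k4)],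
    [(k0,k2),(k5,k2),(k2,k3),(k3,k3)],[(k11,k2)],[(k8,k2)],[(k1,k2)],[(k10,k2)],[(k7,k2)],[(k4,k2)],[(k9,k2)]]
    [] k0
    []
    [])]⟩

/-- classes `0 0 1 2 1 2`, types `S0 S0 N0 N0 N1 N2` -/
noncomputable def cU6_1392 : CertX :=
  ⟨[k0,k0,k28,k44,k29,k46],[],[[[]]],
    [.old (.lp [k2,k4,k2,k2,k2,k2] [k1,k1,k0,k0,k1,k1,k1,k1,k1,k1,k1,k1] k0 [] k8 k5
    [[(k9,k2)],[(k0,k2),(k5,k2),(k2,k3),(k3,k3)],[(k0,k3),(k5,k3),(k2,k4),(k3,k4)],[(k0,k3),(k5,k3),(k2,k4),(k3,k4)],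
    [(k0,k2),(k5,k2),(k2,k3),(k3,k3)],[(k11,k2)],[(k8,k2)],[(k10,k2)],[(k1,k2)],[(k7,k2)],[(k4,k2)],[(k6,k2)]]
    [] k0
    []
    [])]⟩

/-- classes `0 0 1 2 1 2`, types `S0 S0 N0 N0 N2 N2` -/
noncomputable def cU6_1393 : CertX :=
  ⟨[k0,k0,k28,k44,k30,k46],[(false,k0,[k0,k1,k2,k3,k4,k5])],[[[([z1,z1,z1,z0,z1,z0],z2)],[]]],
    [.old (.leafM k1 [k0,k1,k2,k4] [] [(k3,k5,z1,[y1,z1]),(k5,k3,z1,[y1,z1])]),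
    .old (.lp [k12,k8,k6,k0,k6,k12] [k0,k0,k2,k2,k3,k3,k6,k6,k3,k3,k0,k0] k0 [] k24 k5
    [[(k9,k9)],[(k5,k9),(k2,k10),(k3,k10),(k0,k12)],[(k5,k7),(k2,k8),(k3,k8),(k0,k10)],[(k5,k7),(k2,k8),(k3,k8),(k0,
    k10)],[(k5,k6),(k2,k7),(k3,k7),(k0,k9)],[(k8,k6)],[(k11,k6)],[(k10,k6)],[(k1,k9)],[(k4,k6)],[(k7,k6)],[(k6,k6)]]
    [] k0
    [[k0,k2,k0,k0,k0,k0],[k0,k0,k0,k1,k0,k1]]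
    [.contra [z1],.ref k0 k0 [(z1,[y1,z1])]])]⟩

/-- classes `0 0 1 2 1 2`, types `S0 S0 N0 S0 N1 S0` -/
noncomputable def cU6_1394 : CertX :=
  ⟨[k0,k0,k28,k32,k29,k32],[(false,k0,[k0,k1,k2,k3,k4,k5])],[[[([z1,z1,z1,z0,z0,z1],z2)],[]]],
    [.old (.leafM k0 [k0,k1,k2,k5] [] [(k3,k4,z1,[y1,z1]),(k4,k3,z1,[y1,z1])]),
    .old (.lp [k12,k8,k6,k6,k6,k6] [k0,k0,k2,k2,k3,k3,k3,k3,k3,k3,k3,k3] k0 [] k24 k5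
    [[(k6,k9),(k9,k9),(k10,k9),(k1,k12)],[(k5,k9),(k2,k10),(k3,k10),(k0,k12)],[(k5,k7),(k2,k8),(k3,k8),(k0,k10)],[(k5,
    k7),(k2,k8),(k3,k8),(k0,k10)],[(k5,k6),(k2,k7),(k3,k7),(k0,k9)],[(k11,k6)],[(k8,k6)],[(k6,k6),(k9,k6),(k10,k6),
    (k1,k9)],[(k6,k6),(k9,k6),(k10,k6),(k1,k9)],[(k7,k6)],[(k4,k6)],[(k6,k6),(k9,k6),(k10,k6),(k1,k9)]]
    [] k0
    [[k0,k2,k0,k0,k0,k0],[k0,k0,k0,k1,k1,k0]]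
    [.contra [z1],.ref k0 k0 [(z1,[y1,z1])]])]⟩

/-- classes `0 0 1 2 1 2`, types `S0 S0 N0 S0 N2 S0` -/
noncomputable def cU6_1395 : CertX :=
  ⟨[k0,k0,k28,k32,k30,k32],[(false,k0,[k0,k1,k2,k3,k4,k5])],[[[([z1,z1,z1,z0,z1,z0],z2)],[]]],
    [.old (.leafM k1 [k0,k1,k2,k4] [] [(k3,k5,z1,[y1,z1]),(k5,k3,z1,[y1,z1])]),
    .old (.lp [k12,k8,k6,k6,k6,k6] [k0,k0,k2,k2,k3,k3,k3,k3,k3,k3,k3,k3] k0 [] k24 k5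
    [[(k6,k9),(k9,k9),(k10,k9),(k1,k12)],[(k5,k9),(k2,k10),(k3,k10),(k0,k12)],[(k5,k7),(k2,k8),(k3,k8),(k0,k10)],[(k5,
    k7),(k2,k8),(k3,k8),(k0,k10)],[(k5,k6),(k2,k7),(k3,k7),(k0,k9)],[(k8,k6)],[(k11,k6)],[(k6,k6),(k9,k6),(k10,k6),
    (k1,k9)],[(k6,k6),(k9,k6),(k10,k6),(k1,k9)],[(k4,k6)],[(k7,k6)],[(k6,k6),(k9,k6),(k10,k6),(k1,k9)]]
    [] k0
    [[k0,k2,k0,k0,k0,k0],[k0,k0,k0,k1,k0,k1]]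
    [.contra [z1],.ref k0 k0 [(z1,[y1,z1])]])]⟩

/-- classes `0 0 1 2 1 3`, types `B0 B1 B0 C0 B1 C0` -/
noncomputable def cU6_1396 : CertX :=
  ⟨[k8,k9,k24,k36,k25,k52],[(false,k0,[k0,k1,k2,k3,k4,k5])],[[[([z1,z1,z1,z0,z0,z1],z2)],[]]],
    [.old (.leafM k1 [k2,k5,k0,k1] [] [(k3,k4,z1,[y1,z1]),(k4,k3,z1,[y1,z1])]),
    .old (.lp [k6,k4,k6,k6,k0,k0] [k0,k0,k1,k1,k0,k0,k0,k0,k3,k3,k3,k3] k0 [] k12 k5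
    [[(k10,k3)],[(k2,k5),(k5,k6)],[(k2,k4),(k5,k5)],[(k3,k4),(k0,k5)],[(k3,k5),(k0,k6)],[(k8,k3),(k11,k3)],[(k8,k3),
    (k11,k3)],[(k9,k3)],[(k6,k3)],[(k4,k3),(k7,k3)],[(k4,k3),(k7,k3)],[(k1,k3)]]
    [] k0
    [[k0,k2,k0,k0,k0,k0],[k0,k0,k0,k1,k1,k0]]
    [.contra [z1],.ref k0 k0 [(z1,[y1,z1])]])]⟩

/-- classes `0 0 1 2 1 3`, types `B0 B1 B0 C0 B1 S0` -/
noncomputable def cU6_1397 : CertX :=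
  ⟨[k8,k9,k24,k36,k25,k48],[(false,k0,[k0,k1,k2,k3,k4,k5])],[[[([z1,z1,z1,z0,z0,z1],z2)],[]]],
    [.old (.leafM k1 [k2,k5,k0,k1] [] [(k3,k4,z1,[y1,z1]),(k4,k3,z1,[y1,z1])]),
    .old (.lp [k6,k8,k12,k12,k0,k6] [k3,k3,k2,k2,k0,k0,k0,k0,k6,k6,k3,k3] k0 [] k24 k5
    [[(k1,k6),(k10,k6)],[(k2,k7),(k5,k9)],[(k2,k8),(k5,k10)],[(k0,k7),(k3,k8)],[(k0,k9),(k3,k10)],[(k8,k6),(k11,k9)],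
    [(k8,k6),(k11,k9)],[(k9,k6)],[(k6,k6)],[(k4,k6),(k7,k6)],[(k4,k9),(k7,k9)],[(k1,k6),(k10,k6)]]
    [] k0
    [[k0,k2,k0,k0,k0,k0],[k0,k0,k0,k1,k1,k0]]
    [.contra [z1],.ref k0 k0 [(z1,[y1,z1])]])]⟩

/-- classes `0 0 1 2 1 3`, types `B0 B1 B0 S0 B1 C0` -/
noncomputable def cU6_1398 : CertX :=
  ⟨[k8,k9,k24,k32,k25,k52],[(false,k0,[k0,k1,k2,k3,k4,k5])],[[[([z1,z1,z1,z0,z0,z1],z2)],[]]],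
    [.old (.leafM k1 [k2,k5,k0,k1] [] [(k3,k4,z1,[y1,z1]),(k4,k3,z1,[y1,z1])]),
    .old (.lp [k4,k8,k8,k6,k6,k12] [k4,k4,k2,k2,k2,k2,k3,k3,k3,k3,k0,k0] k0 [] k24 k5
    [[(k10,k8)],[(k2,k6),(k5,k6)],[(k2,k8),(k5,k8)],[(k0,k6),(k3,k8)],[(k0,k6),(k3,k8)],[(k8,k7),(k11,k10)],[(k8,k6),
    (k11,k9)],[(k6,k6),(k9,k6)],[(k6,k6),(k9,k6)],[(k7,k6),(k4,k7)],[(k7,k9),(k4,k10)],[(k1,k8)]]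
    [] k0
    [[k0,k2,k0,k0,k0,k0],[k0,k0,k0,k1,k1,k0]]
    [.contra [z1],.ref k0 k0 [(z1,[y1,z1])]])]⟩

/-- classes `0 0 1 2 1 3`, types `B0 B1 B0 S0 B1 S0` -/
noncomputable def cU6_1399 : CertX :=
  ⟨[k8,k9,k24,k32,k25,k48],[(false,k0,[k0,k1,k2,k3,k4,k5])],[[[([z1,z1,z1,z0,z0,z1],z2)],[]]],
    [.old (.leafM k1 [k2,k5,k0,k1] [] [(k3,k4,z1,[y1,z1]),(k4,k3,z1,[y1,z1])]),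
    .old (.lp [k12,k8,k6,k6,k6,k6] [k0,k0,k2,k2,k3,k3,k3,k3,k3,k3,k3,k3] k0 [] k24 k5
    [[(k10,k9),(k1,k12)],[(k5,k9),(k2,k10)],[(k5,k7),(k2,k8)],[(k3,k8),(k0,k10)],[(k3,k7),(k0,k9)],[(k8,k6),(k11,k6)],
    [(k8,k6),(k11,k6)],[(k6,k6),(k9,k6)],[(k6,k6),(k9,k6)],[(k4,k6),(k7,k6)],[(k4,k6),(k7,k6)],[(k10,k6),(k1,k9)]]
    [] k0
    [[k0,k2,k0,k0,k0,k0],[k0,k0,k0,k1,k1,k0]]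
    [.contra [z1],.ref k0 k0 [(z1,[y1,z1])]])]⟩

/-- classes `0 0 1 2 1 3`, types `B0 B1 C0 C0 C0 C0` -/
noncomputable def cU6_1400 : CertX :=
  ⟨[k8,k9,k20,k36,k20,k52],[(false,k0,[k0,k1,k2,k3,k4,k5])],[[[([z1,z1,z1,z0,z0,z1],z2)],[]]],
    [.old (.leafM k1 [k2,k5,k0,k1] [] [(k3,k4,z1,[y1,z1]),(k4,k3,z1,[y1,z1])]),
    .old (.lp [k6,k4,k2,k4,k2,k4] [k0,k0,k1,k1,k2,k2,k1,k1,k2,k2,k1,k1] k0 [] k12 k5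
    [[(k10,k5)],[(k5,k4),(k2,k5)],[(k5,k3),(k2,k4)],[(k3,k4),(k0,k5)],[(k3,k3),(k0,k4)],[(k7,k3),(k11,k3)],[(k4,k3),
    (k8,k3)],[(k9,k3)],[(k6,k3)],[(k7,k3),(k11,k3)],[(k4,k3),(k8,k3)],[(k1,k5)]]
    [] k0
    [[k0,k2,k0,k0,k0,k0],[k0,k0,k0,k1,k1,k0]]
    [.contra [z1],.ref k0 k0 [(z1,[y1,z1])]])]⟩

/-- classes `0 0 1 2 1 3`, types `B0 B1 C0 C0 C0 S0` -/
noncomputable def cU6_1401 : CertX :=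
  ⟨[k8,k9,k20,k36,k20,k48],[(false,k0,[k0,k1,k2,k3,k4,k5])],[[[([z1,z1,z1,z0,z0,z1],z2)],[]]],
    [.old (.leafM k1 [k2,k5,k0,k1] [] [(k3,k4,z1,[y1,z1]),(k4,k3,z1,[y1,z1])]),
    .old (.lp [k6,k8,k6,k12,k0,k12] [k3,k3,k2,k2,k3,k3,k0,k0,k6,k6,k0,k0] k0 [] k24 k5
    [[(k1,k6),(k10,k9)],[(k5,k6),(k2,k7)],[(k5,k7),(k2,k8)],[(k0,k7),(k3,k8)],[(k0,k6),(k3,k7)],[(k7,k9),(k11,k9)],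
    [(k8,k6),(k4,k9)],[(k9,k6)],[(k6,k6)],[(k7,k6),(k11,k6)],[(k8,k6),(k4,k9)],[(k1,k9),(k10,k12)]]
    [] k0
    [[k0,k2,k0,k0,k0,k0],[k0,k0,k0,k1,k1,k0]]
    [.contra [z1],.ref k0 k0 [(z1,[y1,z1])]])]⟩

/-- classes `0 0 1 2 1 3`, types `B0 B1 C0 C0 C2 C0` -/
noncomputable def cU6_1402 : CertX :=
  ⟨[k8,k9,k20,k36,k22,k52],[],[[[]]],
    [.old (.lp [k2,k4,k2,k2,k2,k2] [k1,k1,k0,k0,k1,k1,k1,k1,k1,k1,k1,k1] k0 [] k8 k5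
    [[(k10,k2)],[(k5,k2),(k2,k3)],[(k5,k3),(k2,k4)],[(k0,k3),(k3,k4)],[(k0,k2),(k3,k3)],[(k7,k2),(k8,k2)],[(k4,k2),
    (k11,k2)],[(k9,k2)],[(k6,k2)],[(k4,k2),(k11,k2)],[(k7,k2),(k8,k2)],[(k1,k2)]]
    [] k0
    []
    [])]⟩

/-- classes `0 0 1 2 1 3`, types `B0 B1 C0 C0 C2 S0` -/
noncomputable def cU6_1403 : CertX :=
  ⟨[k8,k9,k20,k36,k22,k48],[],[[[]]],
    [.old (.lp [k2,k4,k2,k2,k2,k2] [k1,k1,k0,k0,k1,k1,k1,k1,k1,k1,k1,k1] k0 [] k8 k5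
    [[(k1,k2),(k10,k2)],[(k5,k2),(k2,k3)],[(k5,k3),(k2,k4)],[(k0,k3),(k3,k4)],[(k0,k2),(k3,k3)],[(k7,k2),(k8,k2)],
    [(k4,k2),(k11,k2)],[(k9,k2)],[(k6,k2)],[(k4,k2),(k11,k2)],[(k7,k2),(k8,k2)],[(k1,k2),(k10,k2)]]
    [] k0
    []
    [])]⟩

/-- classes `0 0 1 2 1 3`, types `B0 B1 C0 S0 C0 C0` -/
noncomputable def cU6_1404 : CertX :=
  ⟨[k8,k9,k20,k32,k20,k52],[(false,k0,[k0,k1,k2,k3,k4,k5])],[[[([z1,z1,z1,z0,z0,z1],z2)],[]]],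
    [.old (.leafM k1 [k2,k5,k0,k1] [] [(k3,k4,z1,[y1,z1]),(k4,k3,z1,[y1,z1])]),
    .old (.lp [k6,k8,k12,k6,k6,k6] [k3,k3,k2,k2,k0,k0,k3,k3,k3,k3,k3,k3] k0 [] k24 k5
    [[(k10,k6)],[(k2,k7),(k5,k9)],[(k2,k8),(k5,k10)],[(k0,k7),(k3,k8)],[(k0,k9),(k3,k10)],[(k7,k9),(k11,k9)],[(k8,k6),
    (k4,k9)],[(k6,k6),(k9,k6)],[(k6,k6),(k9,k6)],[(k7,k6),(k11,k6)],[(k8,k6),(k4,k9)],[(k1,k6)]]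
    [] k0
    [[k0,k2,k0,k0,k0,k0],[k0,k0,k0,k1,k1,k0]]
    [.contra [z1],.ref k0 k0 [(z1,[y1,z1])]])]⟩

/-- classes `0 0 1 2 1 3`, types `B0 B1 C0 S0 C0 S0` -/
noncomputable def cU6_1405 : CertX :=
  ⟨[k8,k9,k20,k32,k20,k48],[(false,k0,[k0,k1,k2,k3,k4,k5])],[[[([z1,z1,z1,z0,z0,z1],z2)],[]]],
    [.old (.leafM k1 [k2,k5,k0,k1] [] [(k3,k4,z1,[y1,z1]),(k4,k3,z1,[y1,z1])]),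
    .old (.lp [k6,k8,k6,k6,k6,k12] [k3,k3,k2,k2,k3,k3,k3,k3,k3,k3,k0,k0] k0 [] k24 k5
    [[(k1,k6),(k10,k9)],[(k5,k6),(k2,k7)],[(k5,k7),(k2,k8)],[(k0,k7),(k3,k8)],[(k0,k6),(k3,k7)],[(k7,k6),(k11,k9)],
    [(k4,k6),(k8,k6)],[(k6,k6),(k9,k6)],[(k6,k6),(k9,k6)],[(k7,k6),(k11,k9)],[(k4,k9),(k8,k9)],[(k1,k9),(k10,k12)]]
    [] k0
    [[k0,k2,k0,k0,k0,k0],[k0,k0,k0,k1,k1,k0]]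
    [.contra [z1],.ref k0 k0 [(z1,[y1,z1])]])]⟩

/-- classes `0 0 1 2 1 3`, types `B0 B1 C0 S0 C2 C0` -/
noncomputable def cU6_1406 : CertX :=
  ⟨[k8,k9,k20,k32,k22,k52],[],[[[]]],
    [.old (.lp [k2,k4,k2,k2,k2,k2] [k1,k1,k0,k0,k1,k1,k1,k1,k1,k1,k1,k1] k0 [] k8 k5
    [[(k10,k2)],[(k5,k2),(k2,k3)],[(k5,k3),(k2,k4)],[(k0,k3),(k3,k4)],[(k0,k2),(k3,k3)],[(k7,k2),(k8,k2)],[(k4,k2),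
    (k11,k2)],[(k6,k2),(k9,k2)],[(k6,k2),(k9,k2)],[(k4,k2),(k11,k2)],[(k7,k2),(k8,k2)],[(k1,k2)]]
    [] k0
    []
    [])]⟩

/-- classes `0 0 1 2 1 3`, types `B0 B1 C0 S0 C2 S0` -/
noncomputable def cU6_1407 : CertX :=
  ⟨[k8,k9,k20,k32,k22,k48],[],[[[]]],
    [.old (.lp [k2,k4,k2,k2,k2,k2] [k1,k1,k0,k0,k1,k1,k1,k1,k1,k1,k1,k1] k0 [] k8 k5
    [[(k1,k2),(k10,k2)],[(k5,k2),(k2,k3)],[(k5,k3),(k2,k4)],[(k0,k3),(k3,k4)],[(k0,k2),(k3,k3)],[(k7,k2),(k8,k2)],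
    [(k4,k2),(k11,k2)],[(k6,k2),(k9,k2)],[(k6,k2),(k9,k2)],[(k4,k2),(k11,k2)],[(k7,k2),(k8,k2)],[(k1,k2),(k10,k2)]]
    [] k0
    []
    [])]⟩

/-- classes `0 0 1 2 1 3`, types `B0 B1 N0 C0 N1 C0` -/
noncomputable def cU6_1408 : CertX :=
  ⟨[k8,k9,k28,k36,k29,k52],[(false,k0,[k0,k1,k2,k3,k4,k5])],[[[([z1,z1,z1,z0,z0,z1],z2)],[]]],
    [.old (.leafM k1 [k2,k5,k0,k1] [] [(k3,k4,z1,[y1,z1]),(k4,k3,z1,[y1,z1])]),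
    .old (.lp [k6,k4,k2,k6,k0,k4] [k0,k0,k1,k1,k2,k2,k0,k0,k3,k3,k1,k1] k0 [] k12 k5
    [[(k10,k5)],[(k5,k4),(k2,k5)],[(k5,k3),(k2,k4)],[(k3,k4),(k0,k5)],[(k3,k3),(k0,k4)],[(k11,k3)],[(k8,k3)],[(k9,
    k3)],[(k6,k3)],[(k7,k3)],[(k4,k3)],[(k1,k5)]]
    [] k0
    [[k0,k2,k0,k0,k0,k0],[k0,k0,k0,k1,k1,k0]]
    [.contra [z1],.ref k0 k0 [(z1,[y1,z1])]])]⟩

/-- classes `0 0 1 2 1 3`, types `B0 B1 N0 C0 N1 S0` -/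
noncomputable def cU6_1409 : CertX :=
  ⟨[k8,k9,k28,k36,k29,k48],[(false,k0,[k0,k1,k2,k3,k4,k5])],[[[([z1,z1,z1,z0,z0,z1],z2)],[]]],
    [.old (.leafM k1 [k2,k5,k0,k1] [] [(k3,k4,z1,[y1,z1]),(k4,k3,z1,[y1,z1])]),
    .old (.lp [k6,k8,k12,k12,k0,k6] [k3,k3,k2,k2,k0,k0,k0,k0,k6,k6,k3,k3] k0 [] k24 k5
    [[(k1,k6),(k10,k6)],[(k2,k7),(k5,k9)],[(k2,k8),(k5,k10)],[(k0,k7),(k3,k8)],[(k0,k9),(k3,k10)],[(k11,k9)],[(k8,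
    k6)],[(k9,k6)],[(k6,k6)],[(k7,k6)],[(k4,k9)],[(k1,k6),(k10,k6)]]
    [] k0
    [[k0,k2,k0,k0,k0,k0],[k0,k0,k0,k1,k1,k0]]
    [.contra [z1],.ref k0 k0 [(z1,[y1,z1])]])]⟩

/-- classes `0 0 1 2 1 3`, types `B0 B1 N0 C0 N2 C0` -/
noncomputable def cU6_1410 : CertX :=
  ⟨[k8,k9,k28,k36,k30,k52],[],[[[]]],
    [.old (.lp [k2,k4,k2,k2,k2,k2] [k1,k1,k0,k0,k1,k1,k1,k1,k1,k1,k1,k1] k0 [] k8 k5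
    [[(k10,k2)],[(k5,k2),(k2,k3)],[(k5,k3),(k2,k4)],[(k0,k3),(k3,k4)],[(k0,k2),(k3,k3)],[(k8,k2)],[(k11,k2)],[(k9,
    k2)],[(k6,k2)],[(k4,k2)],[(k7,k2)],[(k1,k2)]]
    [] k0
    []
    [])]⟩

/-- classes `0 0 1 2 1 3`, types `B0 B1 N0 C0 N2 S0` -/
noncomputable def cU6_1411 : CertX :=
  ⟨[k8,k9,k28,k36,k30,k48],[],[[[]]],
    [.old (.lp [k2,k4,k2,k2,k2,k2] [k1,k1,k0,k0,k1,k1,k1,k1,k1,k1,k1,k1] k0 [] k8 k5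
    [[(k1,k2),(k10,k2)],[(k5,k2),(k2,k3)],[(k5,k3),(k2,k4)],[(k0,k3),(k3,k4)],[(k0,k2),(k3,k3)],[(k8,k2)],[(k11,k2)],
    [(k9,k2)],[(k6,k2)],[(k4,k2)],[(k7,k2)],[(k1,k2),(k10,k2)]]
    [] k0
    []
    [])]⟩

/-- classes `0 0 1 2 1 3`, types `B0 B1 N0 S0 N1 C0` -/
noncomputable def cU6_1412 : CertX :=
  ⟨[k8,k9,k28,k32,k29,k52],[(false,k0,[k0,k1,k2,k3,k4,k5])],[[[([z1,z1,z1,z0,z0,z1],z2)],[]]],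
    [.old (.leafM k1 [k2,k5,k0,k1] [] [(k3,k4,z1,[y1,z1]),(k4,k3,z1,[y1,z1])]),
    .old (.lp [k12,k8,k12,k6,k6,k0] [k0,k0,k2,k2,k0,k0,k3,k3,k3,k3,k6,k6] k0 [] k24 k5
    [[(k10,k6)],[(k2,k10),(k5,k12)],[(k2,k8),(k5,k10)],[(k3,k8),(k0,k10)],[(k3,k10),(k0,k12)],[(k11,k6)],[(k8,k6)],
    [(k6,k6),(k9,k6)],[(k6,k6),(k9,k6)],[(k7,k6)],[(k4,k6)],[(k1,k6)]]
    [] k0
    [[k0,k2,k0,k0,k0,k0],[k0,k0,k0,k1,k1,k0]]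
    [.contra [z1],.ref k0 k0 [(z1,[y1,z1])]])]⟩

/-- classes `0 0 1 2 1 3`, types `B0 B1 N0 S0 N1 S0` -/
noncomputable def cU6_1413 : CertX :=
  ⟨[k8,k9,k28,k32,k29,k48],[(false,k0,[k0,k1,k2,k3,k4,k5])],[[[([z1,z1,z1,z0,z0,z1],z2)],[]]],
    [.old (.leafM k1 [k2,k5,k0,k1] [] [(k3,k4,z1,[y1,z1]),(k4,k3,z1,[y1,z1])]),
    .old (.lp [k6,k8,k6,k6,k6,k12] [k3,k3,k2,k2,k3,k3,k3,k3,k3,k3,k0,k0] k0 [] k24 k5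
    [[(k1,k6),(k10,k9)],[(k5,k6),(k2,k7)],[(k5,k7),(k2,k8)],[(k0,k7),(k3,k8)],[(k0,k6),(k3,k7)],[(k11,k9)],[(k8,k6)],
    [(k6,k6),(k9,k6)],[(k6,k6),(k9,k6)],[(k7,k6)],[(k4,k9)],[(k1,k9),(k10,k12)]]
    [] k0
    [[k0,k2,k0,k0,k0,k0],[k0,k0,k0,k1,k1,k0]]
    [.contra [z1],.ref k0 k0 [(z1,[y1,z1])]])]⟩

/-- classes `0 0 1 2 1 3`, types `B0 B1 N0 S0 N2 C0` -/
noncomputable def cU6_1414 : CertX :=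
  ⟨[k8,k9,k28,k32,k30,k52],[],[[[]]],
    [.old (.lp [k2,k4,k2,k2,k2,k2] [k1,k1,k0,k0,k1,k1,k1,k1,k1,k1,k1,k1] k0 [] k8 k5
    [[(k10,k2)],[(k5,k2),(k2,k3)],[(k5,k3),(k2,k4)],[(k0,k3),(k3,k4)],[(k0,k2),(k3,k3)],[(k8,k2)],[(k11,k2)],[(k6,k2),
    (k9,k2)],[(k6,k2),(k9,k2)],[(k4,k2)],[(k7,k2)],[(k1,k2)]]
    [] k0
    []
    [])]⟩

/-- classes `0 0 1 2 1 3`, types `B0 B1 N0 S0 N2 S0` -/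
noncomputable def cU6_1415 : CertX :=
  ⟨[k8,k9,k28,k32,k30,k48],[],[[[]]],
    [.old (.lp [k2,k4,k2,k2,k2,k2] [k1,k1,k0,k0,k1,k1,k1,k1,k1,k1,k1,k1] k0 [] k8 k5
    [[(k1,k2),(k10,k2)],[(k5,k2),(k2,k3)],[(k5,k3),(k2,k4)],[(k0,k3),(k3,k4)],[(k0,k2),(k3,k3)],[(k8,k2)],[(k11,k2)],
    [(k6,k2),(k9,k2)],[(k6,k2),(k9,k2)],[(k4,k2)],[(k7,k2)],[(k1,k2),(k10,k2)]]
    [] k0
    []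
    [])]⟩

/-- classes `0 0 1 2 1 3`, types `B0 B1 S0 C0 S0 C0` -/
noncomputable def cU6_1416 : CertX :=
  ⟨[k8,k9,k16,k36,k16,k52],[(false,k0,[k0,k1,k2,k3,k4,k5])],[[[([z1,z1,z1,z0,z0,z1],z2)],[]]],
    [.old (.leafM k1 [k2,k5,k0,k1] [] [(k3,k4,z1,[y1,z1]),(k4,k3,z1,[y1,z1])]),
    .old (.lp [k12,k8,k6,k6,k6,k6] [k0,k0,k2,k2,k3,k3,k3,k3,k3,k3,k3,k3] k0 [] k24 k5
    [[(k10,k9)],[(k5,k9),(k2,k10)],[(k5,k7),(k2,k8)],[(k3,k8),(k0,k10)],[(k3,k7),(k0,k9)],[(k4,k6),(k7,k6),(k8,k6),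
    (k11,k6)],[(k4,k6),(k7,k6),(k8,k6),(k11,k6)],[(k9,k6)],[(k6,k6)],[(k4,k6),(k7,k6),(k8,k6),(k11,k6)],[(k4,k6),(k7,
    k6),(k8,k6),(k11,k6)],[(k1,k9)]]
    [] k0
    [[k0,k2,k0,k0,k0,k0],[k0,k0,k0,k1,k1,k0]]
    [.contra [z1],.ref k0 k0 [(z1,[y1,z1])]])]⟩

/-- classes `0 0 1 2 1 3`, types `B0 B1 S0 C0 S0 S0` -/
noncomputable def cU6_1417 : CertX :=
  ⟨[k8,k9,k16,k36,k16,k48],[(false,k0,[k0,k1,k2,k3,k4,k5])],[[[([z1,z1,z1,z0,z0,z1],z2)],[]]],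
    [.old (.leafM k1 [k2,k5,k0,k1] [] [(k3,k4,z1,[y1,z1]),(k4,k3,z1,[y1,z1])]),
    .old (.lp [k6,k8,k6,k6,k6,k12] [k3,k3,k2,k2,k3,k3,k3,k3,k3,k3,k0,k0] k0 [] k24 k5
    [[(k1,k6),(k10,k9)],[(k5,k6),(k2,k7)],[(k5,k7),(k2,k8)],[(k0,k7),(k3,k8)],[(k0,k6),(k3,k7)],[(k4,k6),(k7,k6),(k8,
    k6),(k11,k9)],[(k4,k6),(k7,k6),(k8,k6),(k11,k9)],[(k9,k6)],[(k6,k6)],[(k4,k6),(k7,k6),(k8,k6),(k11,k9)],[(k4,k9),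
    (k7,k9),(k8,k9),(k11,k12)],[(k1,k9),(k10,k12)]]
    [] k0
    [[k0,k2,k0,k0,k0,k0],[k0,k0,k0,k1,k1,k0]]
    [.contra [z1],.ref k0 k0 [(z1,[y1,z1])]])]⟩

/-- classes `0 0 1 2 1 3`, types `B0 B1 S0 S0 S0 C0` -/
noncomputable def cU6_1418 : CertX :=
  ⟨[k8,k9,k16,k32,k16,k52],[(false,k0,[k0,k1,k2,k3,k4,k5])],[[[([z1,z1,z1,z0,z0,z1],z2)],[]]],
    [.old (.leafM k1 [k2,k5,k0,k1] [] [(k3,k4,z1,[y1,z1]),(k4,k3,z1,[y1,z1])]),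
    .old (.lp [k8,k8,k6,k12,k6,k6] [k3,k3,k3,k3,k4,k4,k2,k0,k4,k4,k4,k4] k0 [[],[],[],[],[],[k0,k0,k0,k0,k0,k0,k0,k0,k0,
    k4],[],[],[k0,k0,k0,k0,k4]] k24 k5
    [[(k10,k7)],[(k5,k7),(k2,k8)],[(k5,k7),(k2,k8)],[(k0,k8),(k3,k8)],[(k0,k7),(k3,k7)],[(k4,k6),(k8,k6),(k7,k10),
    (k11,k10)],[(k8,k6),(k4,k10),(k11,k10),(k7,k14)],[(k9,k8),(k6,k10)],[(k9,k6),(k6,k8)],[(k4,k6),(k7,k6),(k8,k6),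
    (k11,k6)],[(k8,k6),(k11,k6),(k4,k10),(k7,k10)],[(k1,k7)]]
    [] k0
    [[k0,k2,k0,k0,k0,k0],[k0,k0,k0,k1,k1,k0],[k0,k0,k0,k0,k2,k0]]
    [.contra [z1],.ref k0 k0 [(z1,[y1,z1])],.contra [z1]])]⟩

/-- classes `0 0 1 2 1 3`, types `B0 B1 S0 S0 S0 S0` -/
noncomputable def cU6_1419 : CertX :=
  ⟨[k8,k9,k16,k32,k16,k48],[(false,k0,[k0,k1,k2,k3,k4,k5])],[[[([z1,z1,z1,z0,z0,z1],z2)],[]]],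
    [.old (.leafM k1 [k2,k5,k0,k1] [] [(k3,k4,z1,[y1,z1]),(k4,k3,z1,[y1,z1])]),
    .old (.lp [k6,k8,k6,k6,k6,k12] [k3,k3,k2,k2,k3,k3,k3,k3,k3,k3,k0,k0] k0 [] k24 k5
    [[(k1,k6),(k10,k9)],[(k5,k6),(k2,k7)],[(k5,k7),(k2,k8)],[(k0,k7),(k3,k8)],[(k0,k6),(k3,k7)],[(k4,k6),(k7,k6),(k8,
    k6),(k11,k9)],[(k4,k6),(k7,k6),(k8,k6),(k11,k9)],[(k6,k6),(k9,k6)],[(k6,k6),(k9,k6)],[(k4,k6),(k7,k6),(k8,k6),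
    (k11,k9)],[(k4,k9),(k7,k9),(k8,k9),(k11,k12)],[(k1,k9),(k10,k12)]]
    [] k0
    [[k0,k2,k0,k0,k0,k0],[k0,k0,k0,k2,k0,k0],[k0,k0,k0,k1,k1,k0],[k0,k0,k0,k0,k2,k0]]
    [.contra [z1],.contra [z1],.ref k0 k0 [(z1,[y1,z1])],.contra [z1]])]⟩

/-- classes `0 0 1 2 1 3`, types `C0 C0 B0 C0 B1 C0` -/
noncomputable def cU6_1420 : CertX :=
  ⟨[k4,k4,k24,k36,k25,k52],[(false,k0,[k0,k1,k2,k3,k4,k5])],[[[([z1,z1,z1,z0,z0,z1],z2)],[]]],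
    [.old (.leafM k0 [k0,k1,k2,k5] [] [(k3,k4,z1,[y1,z1]),(k4,k3,z1,[y1,z1])]),
    .old (.lp [k6,k4,k2,k2,k4,k4] [k0,k0,k1,k1,k2,k2,k2,k2,k1,k1,k1,k1] k0 [] k12 k5
    [[(k10,k5)],[(k5,k4),(k3,k5)],[(k2,k4),(k0,k5)],[(k5,k3),(k3,k4)],[(k2,k3),(k0,k4)],[(k8,k3),(k11,k3)],[(k8,k3),
    (k11,k3)],[(k9,k3)],[(k6,k3)],[(k4,k3),(k7,k3)],[(k4,k3),(k7,k3)],[(k1,k5)]]
    [] k0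
    [[k0,k2,k0,k0,k0,k0],[k0,k0,k0,k1,k1,k0]]
    [.contra [z1],.ref k0 k0 [(z1,[y1,z1])]])]⟩

/-- classes `0 0 1 2 1 3`, types `C0 C0 B0 C0 B1 S0` -/
noncomputable def cU6_1421 : CertX :=
  ⟨[k4,k4,k24,k36,k25,k48],[(false,k0,[k0,k1,k2,k3,k4,k5])],[[[([z1,z1,z1,z0,z0,z1],z2)],[]]],
    [.old (.leafM k0 [k0,k1,k2,k5] [] [(k3,k4,z1,[y1,z1]),(k4,k3,z1,[y1,z1])]),
    .old (.lp [k6,k8,k12,k12,k0,k6] [k3,k3,k2,k2,k0,k0,k0,k0,k6,k6,k3,k3] k0 [] k24 k5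
    [[(k1,k6),(k10,k6)],[(k3,k7),(k5,k9)],[(k0,k7),(k2,k8)],[(k3,k8),(k5,k10)],[(k0,k9),(k2,k10)],[(k8,k6),(k11,k9)],
    [(k8,k6),(k11,k9)],[(k9,k6)],[(k6,k6)],[(k4,k6),(k7,k6)],[(k4,k9),(k7,k9)],[(k1,k6),(k10,k6)]]
    [] k0
    [[k0,k2,k0,k0,k0,k0],[k0,k0,k0,k1,k1,k0]]
    [.contra [z1],.ref k0 k0 [(z1,[y1,z1])]])]⟩

/-- classes `0 0 1 2 1 3`, types `C0 C0 B0 S0 B1 C0` -/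
noncomputable def cU6_1422 : CertX :=
  ⟨[k4,k4,k24,k32,k25,k52],[(false,k0,[k0,k1,k2,k3,k4,k5])],[[[([z1,z1,z1,z0,z0,z1],z2)],[]]],
    [.old (.leafM k0 [k0,k1,k2,k5] [] [(k3,k4,z1,[y1,z1]),(k4,k3,z1,[y1,z1])]),
    .old (.lp [k6,k8,k12,k6,k6,k6] [k3,k3,k2,k2,k0,k0,k3,k3,k3,k3,k3,k3] k0 [] k24 k5
    [[(k10,k6)],[(k3,k7),(k5,k9)],[(k0,k7),(k2,k8)],[(k3,k8),(k5,k10)],[(k0,k9),(k2,k10)],[(k8,k9),(k11,k9)],[(k8,k6),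
    (k11,k6)],[(k6,k6),(k9,k6)],[(k6,k6),(k9,k6)],[(k7,k6),(k4,k9)],[(k7,k6),(k4,k9)],[(k1,k6)]]
    [] k0
    [[k0,k2,k0,k0,k0,k0],[k0,k0,k0,k1,k1,k0]]
    [.contra [z1],.ref k0 k0 [(z1,[y1,z1])]])]⟩

/-- classes `0 0 1 2 1 3`, types `C0 C0 B0 S0 B1 S0` -/
noncomputable def cU6_1423 : CertX :=
  ⟨[k4,k4,k24,k32,k25,k48],[(false,k0,[k0,k1,k2,k3,k4,k5])],[[[([z1,z1,z1,z0,z0,z1],z2)],[]]],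
    [.old (.leafM k0 [k0,k1,k2,k5] [] [(k3,k4,z1,[y1,z1]),(k4,k3,z1,[y1,z1])]),
    .old (.lp [k6,k8,k6,k6,k6,k12] [k3,k3,k2,k2,k3,k3,k3,k3,k3,k3,k0,k0] k0 [] k24 k5
    [[(k1,k6),(k10,k9)],[(k5,k6),(k3,k7)],[(k0,k7),(k2,k8)],[(k5,k7),(k3,k8)],[(k0,k6),(k2,k7)],[(k8,k6),(k11,k9)],
    [(k8,k6),(k11,k9)],[(k6,k6),(k9,k6)],[(k6,k6),(k9,k6)],[(k4,k6),(k7,k6)],[(k4,k9),(k7,k9)],[(k1,k9),(k10,k12)]]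
    [] k0
    [[k0,k2,k0,k0,k0,k0],[k0,k0,k0,k1,k1,k0]]
    [.contra [z1],.ref k0 k0 [(z1,[y1,z1])]])]⟩

/-- classes `0 0 1 2 1 3`, types `C0 C0 C0 C0 C0 C0` -/
noncomputable def cU6_1424 : CertX :=
  ⟨[k4,k4,k20,k36,k20,k52],[(false,k0,[k0,k1,k2,k3,k4,k5])],[[[([z1,z1,z1,z0,z0,z1],z2)],[]]],
    [.old (.leafM k0 [k0,k1,k2,k5] [] [(k3,k4,z1,[y1,z1]),(k4,k3,z1,[y1,z1])]),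
    .old (.lp [k2,k4,k4,k2,k4,k6] [k2,k2,k1,k1,k1,k1,k2,k2,k1,k1,k0,k0] k0 [] k12 k5
    [[(k10,k4)],[(k3,k3),(k5,k3)],[(k0,k3),(k2,k4)],[(k3,k4),(k5,k4)],[(k0,k3),(k2,k4)],[(k7,k3),(k11,k5)],[(k4,k3),
    (k8,k3)],[(k9,k3)],[(k6,k3)],[(k7,k3),(k11,k5)],[(k4,k5),(k8,k5)],[(k1,k4)]]
    [] k0
    [[k0,k2,k0,k0,k0,k0],[k0,k0,k0,k1,k1,k0]]
    [.contra [z1],.ref k0 k0 [(z1,[y1,z1])]])]⟩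

/-- classes `0 0 1 2 1 3`, types `C0 C0 C0 C0 C0 S0` -/
noncomputable def cU6_1425 : CertX :=
  ⟨[k4,k4,k20,k36,k20,k48],[(false,k0,[k0,k1,k2,k3,k4,k5])],[[[([z1,z1,z1,z0,z0,z1],z2)],[]]],
    [.old (.leafM k0 [k0,k1,k2,k5] [] [(k3,k4,z1,[y1,z1]),(k4,k3,z1,[y1,z1])]),
    .old (.lp [k6,k4,k2,k4,k2,k4] [k0,k0,k1,k1,k2,k2,k1,k1,k2,k2,k1,k1] k0 [] k12 k5
    [[(k10,k5),(k1,k6)],[(k5,k4),(k3,k5)],[(k2,k4),(k0,k5)],[(k5,k3),(k3,k4)],[(k2,k3),(k0,k4)],[(k7,k3),(k11,k3)],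
    [(k4,k3),(k8,k3)],[(k9,k3)],[(k6,k3)],[(k7,k3),(k11,k3)],[(k4,k3),(k8,k3)],[(k10,k4),(k1,k5)]]
    [] k0
    [[k0,k2,k0,k0,k0,k0],[k0,k0,k0,k1,k1,k0]]
    [.contra [z1],.ref k0 k0 [(z1,[y1,z1])]])]⟩

/-- classes `0 0 1 2 1 3`, types `C0 C0 C0 C0 C2 C0` -/
noncomputable def cU6_1426 : CertX :=
  ⟨[k4,k4,k20,k36,k22,k52],[],[[[]]],
    [.old (.lp [k2,k4,k2,k2,k2,k2] [k1,k1,k0,k0,k1,k1,k1,k1,k1,k1,k1,k1] k0 [] k8 k5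
    [[(k10,k2)],[(k5,k2),(k3,k3)],[(k0,k3),(k2,k4)],[(k5,k3),(k3,k4)],[(k0,k2),(k2,k3)],[(k7,k2),(k8,k2)],[(k4,k2),
    (k11,k2)],[(k9,k2)],[(k6,k2)],[(k4,k2),(k11,k2)],[(k7,k2),(k8,k2)],[(k1,k2)]]
    [] k0
    []
    [])]⟩

/-- classes `0 0 1 2 1 3`, types `C0 C0 C0 C0 C2 S0` -/
noncomputable def cU6_1427 : CertX :=
  ⟨[k4,k4,k20,k36,k22,k48],[],[[[]]],
    [.old (.lp [k2,k4,k2,k2,k2,k2] [k1,k1,k0,k0,k1,k1,k1,k1,k1,k1,k1,k1] k0 [] k8 k5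
    [[(k1,k2),(k10,k2)],[(k5,k2),(k3,k3)],[(k0,k3),(k2,k4)],[(k5,k3),(k3,k4)],[(k0,k2),(k2,k3)],[(k7,k2),(k8,k2)],
    [(k4,k2),(k11,k2)],[(k9,k2)],[(k6,k2)],[(k4,k2),(k11,k2)],[(k7,k2),(k8,k2)],[(k1,k2),(k10,k2)]]
    [] k0
    []
    [])]⟩

/-- classes `0 0 1 2 1 3`, types `C0 C0 C0 S0 C0 C0` -/
noncomputable def cU6_1428 : CertX :=
  ⟨[k4,k4,k20,k32,k20,k52],[(false,k0,[k0,k1,k2,k3,k4,k5])],[[[([z1,z1,z1,z0,z0,z1],z2)],[]]],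
    [.old (.leafM k0 [k0,k1,k2,k5] [] [(k3,k4,z1,[y1,z1]),(k4,k3,z1,[y1,z1])]),
    .old (.lp [k12,k8,k6,k6,k6,k6] [k0,k0,k2,k2,k3,k3,k3,k3,k3,k3,k3,k3] k0 [] k24 k5
    [[(k10,k9)],[(k5,k9),(k3,k10)],[(k2,k8),(k0,k10)],[(k5,k7),(k3,k8)],[(k2,k7),(k0,k9)],[(k7,k6),(k11,k6)],[(k4,k6),
    (k8,k6)],[(k6,k6),(k9,k6)],[(k6,k6),(k9,k6)],[(k7,k6),(k11,k6)],[(k4,k6),(k8,k6)],[(k1,k9)]]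
    [] k0
    [[k0,k2,k0,k0,k0,k0],[k0,k0,k0,k1,k1,k0]]
    [.contra [z1],.ref k0 k0 [(z1,[y1,z1])]])]⟩

/-- classes `0 0 1 2 1 3`, types `C0 C0 C0 S0 C0 S0` -/
noncomputable def cU6_1429 : CertX :=
  ⟨[k4,k4,k20,k32,k20,k48],[(false,k0,[k0,k1,k2,k3,k4,k5])],[[[([z1,z1,z1,z0,z0,z1],z2)],[]]],
    [.old (.leafM k0 [k0,k1,k2,k5] [] [(k3,k4,z1,[y1,z1]),(k4,k3,z1,[y1,z1])]),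
    .old (.lp [k6,k8,k12,k6,k6,k6] [k3,k3,k2,k2,k0,k0,k3,k3,k3,k3,k3,k3] k0 [] k24 k5
    [[(k1,k6),(k10,k6)],[(k3,k7),(k5,k9)],[(k0,k7),(k2,k8)],[(k3,k8),(k5,k10)],[(k0,k9),(k2,k10)],[(k7,k9),(k11,k9)],
    [(k8,k6),(k4,k9)],[(k6,k6),(k9,k6)],[(k6,k6),(k9,k6)],[(k7,k6),(k11,k6)],[(k8,k6),(k4,k9)],[(k1,k6),(k10,k6)]]
    [] k0
    [[k0,k2,k0,k0,k0,k0],[k0,k0,k0,k1,k1,k0]]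
    [.contra [z1],.ref k0 k0 [(z1,[y1,z1])]])]⟩

/-- classes `0 0 1 2 1 3`, types `C0 C0 C0 S0 C2 C0` -/
noncomputable def cU6_1430 : CertX :=
  ⟨[k4,k4,k20,k32,k22,k52],[],[[[]]],
    [.old (.lp [k2,k4,k2,k2,k2,k2] [k1,k1,k0,k0,k1,k1,k1,k1,k1,k1,k1,k1] k0 [] k8 k5
    [[(k10,k2)],[(k5,k2),(k3,k3)],[(k0,k3),(k2,k4)],[(k5,k3),(k3,k4)],[(k0,k2),(k2,k3)],[(k7,k2),(k8,k2)],[(k4,k2),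
    (k11,k2)],[(k6,k2),(k9,k2)],[(k6,k2),(k9,k2)],[(k4,k2),(k11,k2)],[(k7,k2),(k8,k2)],[(k1,k2)]]
    [] k0
    []
    [])]⟩

/-- classes `0 0 1 2 1 3`, types `C0 C0 C0 S0 C2 S0` -/
noncomputable def cU6_1431 : CertX :=
  ⟨[k4,k4,k20,k32,k22,k48],[],[[[]]],
    [.old (.lp [k2,k4,k2,k2,k2,k2] [k1,k1,k0,k0,k1,k1,k1,k1,k1,k1,k1,k1] k0 [] k8 k5
    [[(k1,k2),(k10,k2)],[(k5,k2),(k3,k3)],[(k0,k3),(k2,k4)],[(k5,k3),(k3,k4)],[(k0,k2),(k2,k3)],[(k7,k2),(k8,k2)],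
    [(k4,k2),(k11,k2)],[(k6,k2),(k9,k2)],[(k6,k2),(k9,k2)],[(k4,k2),(k11,k2)],[(k7,k2),(k8,k2)],[(k1,k2),(k10,k2)]]
    [] k0
    []
    [])]⟩

/-- classes `0 0 1 2 1 3`, types `C0 C0 N0 C0 N1 C0` -/
noncomputable def cU6_1432 : CertX :=
  ⟨[k4,k4,k28,k36,k29,k52],[(false,k0,[k0,k1,k2,k3,k4,k5])],[[[([z1,z1,z1,z0,z0,z1],z2)],[]]],
    [.old (.leafM k0 [k0,k1,k2,k5] [] [(k3,k4,z1,[y1,z1]),(k4,k3,z1,[y1,z1])]),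
    .old (.lp [k4,k4,k2,k0,k6,k6] [k1,k1,k1,k1,k2,k2,k3,k3,k0,k0,k0,k0] k0 [] k12 k5
    [[(k10,k5)],[(k5,k3),(k3,k4)],[(k0,k4),(k2,k4)],[(k5,k3),(k3,k4)],[(k0,k3),(k2,k3)],[(k11,k4)],[(k8,k3)],[(k9,
    k3)],[(k6,k3)],[(k7,k3)],[(k4,k4)],[(k1,k5)]]
    [] k0
    [[k0,k2,k0,k0,k0,k0],[k0,k0,k0,k1,k1,k0]]
    [.contra [z1],.ref k0 k0 [(z1,[y1,z1])]])]⟩

/-- classes `0 0 1 2 1 3`, types `C0 C0 N0 C0 N1 S0` -/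
noncomputable def cU6_1433 : CertX :=
  ⟨[k4,k4,k28,k36,k29,k48],[(false,k0,[k0,k1,k2,k3,k4,k5])],[[[([z1,z1,z1,z0,z0,z1],z2)],[]]],
    [.old (.leafM k0 [k0,k1,k2,k5] [] [(k3,k4,z1,[y1,z1]),(k4,k3,z1,[y1,z1])]),
    .old (.lp [k6,k4,k2,k6,k0,k4] [k0,k0,k1,k1,k2,k2,k0,k0,k3,k3,k1,k1] k0 [] k12 k5
    [[(k10,k5),(k1,k6)],[(k5,k4),(k3,k5)],[(k2,k4),(k0,k5)],[(k5,k3),(k3,k4)],[(k2,k3),(k0,k4)],[(k11,k3)],[(k8,k3)],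
    [(k9,k3)],[(k6,k3)],[(k7,k3)],[(k4,k3)],[(k10,k4),(k1,k5)]]
    [] k0
    [[k0,k2,k0,k0,k0,k0],[k0,k0,k0,k1,k1,k0]]
    [.contra [z1],.ref k0 k0 [(z1,[y1,z1])]])]⟩

/-- classes `0 0 1 2 1 3`, types `C0 C0 N0 C0 N2 C0` -/
noncomputable def cU6_1434 : CertX :=
  ⟨[k4,k4,k28,k36,k30,k52],[],[[[]]],
    [.old (.lp [k2,k4,k2,k2,k2,k2] [k1,k1,k0,k0,k1,k1,k1,k1,k1,k1,k1,k1] k0 [] k8 k5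
    [[(k10,k2)],[(k5,k2),(k3,k3)],[(k0,k3),(k2,k4)],[(k5,k3),(k3,k4)],[(k0,k2),(k2,k3)],[(k8,k2)],[(k11,k2)],[(k9,
    k2)],[(k6,k2)],[(k4,k2)],[(k7,k2)],[(k1,k2)]]
    [] k0
    []
    [])]⟩

/-- classes `0 0 1 2 1 3`, types `C0 C0 N0 C0 N2 S0` -/
noncomputable def cU6_1435 : CertX :=
  ⟨[k4,k4,k28,k36,k30,k48],[],[[[]]],
    [.old (.lp [k2,k4,k2,k2,k2,k2] [k1,k1,k0,k0,k1,k1,k1,k1,k1,k1,k1,k1] k0 [] k8 k5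
    [[(k1,k2),(k10,k2)],[(k5,k2),(k3,k3)],[(k0,k3),(k2,k4)],[(k5,k3),(k3,k4)],[(k0,k2),(k2,k3)],[(k8,k2)],[(k11,k2)],
    [(k9,k2)],[(k6,k2)],[(k4,k2)],[(k7,k2)],[(k1,k2),(k10,k2)]]
    [] k0
    []
    [])]⟩

/-- classes `0 0 1 2 1 3`, types `C0 C0 N0 S0 N1 C0` -/
noncomputable def cU6_1436 : CertX :=
  ⟨[k4,k4,k28,k32,k29,k52],[(false,k0,[k0,k1,k2,k3,k4,k5])],[[[([z1,z1,z1,z0,z0,z1],z2)],[]]],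
    [.old (.leafM k0 [k0,k1,k2,k5] [] [(k3,k4,z1,[y1,z1]),(k4,k3,z1,[y1,z1])]),
    .old (.lp [k12,k8,k4,k6,k6,k8] [k0,k0,k2,k2,k4,k4,k3,k3,k3,k3,k2,k2] k0 [] k24 k5
    [[(k10,k10)],[(k5,k8),(k3,k10)],[(k2,k8),(k0,k10)],[(k5,k6),(k3,k8)],[(k2,k6),(k0,k8)],[(k11,k6)],[(k8,k6)],[(k6,
    k6),(k9,k6)],[(k6,k6),(k9,k6)],[(k7,k6)],[(k4,k6)],[(k1,k10)]]
    [] k0
    [[k0,k2,k0,k0,k0,k0],[k0,k0,k0,k1,k1,k0]]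
    [.contra [z1],.ref k0 k0 [(z1,[y1,z1])]])]⟩

/-- classes `0 0 1 2 1 3`, types `C0 C0 N0 S0 N1 S0` -/
noncomputable def cU6_1437 : CertX :=
  ⟨[k4,k4,k28,k32,k29,k48],[(false,k0,[k0,k1,k2,k3,k4,k5])],[[[([z1,z1,z1,z0,z0,z1],z2)],[]]],
    [.old (.leafM k0 [k0,k1,k2,k5] [] [(k3,k4,z1,[y1,z1]),(k4,k3,z1,[y1,z1])]),
    .old (.lp [k6,k8,k12,k6,k6,k6] [k3,k3,k2,k2,k0,k0,k3,k3,k3,k3,k3,k3] k0 [] k24 k5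
    [[(k1,k6),(k10,k6)],[(k3,k7),(k5,k9)],[(k0,k7),(k2,k8)],[(k3,k8),(k5,k10)],[(k0,k9),(k2,k10)],[(k11,k9)],[(k8,
    k6)],[(k6,k6),(k9,k6)],[(k6,k6),(k9,k6)],[(k7,k6)],[(k4,k9)],[(k1,k6),(k10,k6)]]
    [] k0
    [[k0,k2,k0,k0,k0,k0],[k0,k0,k0,k1,k1,k0]]
    [.contra [z1],.ref k0 k0 [(z1,[y1,z1])]])]⟩

/-- classes `0 0 1 2 1 3`, types `C0 C0 N0 S0 N2 C0` -/
noncomputable def cU6_1438 : CertX :=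
  ⟨[k4,k4,k28,k32,k30,k52],[],[[[]]],
    [.old (.lp [k2,k4,k2,k2,k2,k2] [k1,k1,k0,k0,k1,k1,k1,k1,k1,k1,k1,k1] k0 [] k8 k5
    [[(k10,k2)],[(k5,k2),(k3,k3)],[(k0,k3),(k2,k4)],[(k5,k3),(k3,k4)],[(k0,k2),(k2,k3)],[(k8,k2)],[(k11,k2)],[(k6,k2),
    (k9,k2)],[(k6,k2),(k9,k2)],[(k4,k2)],[(k7,k2)],[(k1,k2)]]
    [] k0
    []
    [])]⟩

/-- classes `0 0 1 2 1 3`, types `C0 C0 N0 S0 N2 S0` -/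
noncomputable def cU6_1439 : CertX :=
  ⟨[k4,k4,k28,k32,k30,k48],[],[[[]]],
    [.old (.lp [k2,k4,k2,k2,k2,k2] [k1,k1,k0,k0,k1,k1,k1,k1,k1,k1,k1,k1] k0 [] k8 k5
    [[(k1,k2),(k10,k2)],[(k5,k2),(k3,k3)],[(k0,k3),(k2,k4)],[(k5,k3),(k3,k4)],[(k0,k2),(k2,k3)],[(k8,k2)],[(k11,k2)],
    [(k6,k2),(k9,k2)],[(k6,k2),(k9,k2)],[(k4,k2)],[(k7,k2)],[(k1,k2),(k10,k2)]]
    [] k0
    []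
    [])]⟩

/-- classes `0 0 1 2 1 3`, types `C0 C0 S0 C0 S0 C0` -/
noncomputable def cU6_1440 : CertX :=
  ⟨[k4,k4,k16,k36,k16,k52],[(false,k0,[k0,k1,k2,k3,k4,k5])],[[[([z1,z1,z1,z0,z0,z1],z2)],[]]],
    [.old (.leafM k0 [k0,k1,k2,k5] [] [(k3,k4,z1,[y1,z1]),(k4,k3,z1,[y1,z1])]),
    .old (.lp [k4,k8,k8,k6,k6,k12] [k4,k4,k2,k2,k2,k2,k3,k3,k3,k3,k0,k0] k0 [] k24 k5
    [[(k10,k8)],[(k3,k6),(k5,k6)],[(k0,k6),(k2,k8)],[(k3,k8),(k5,k8)],[(k0,k6),(k2,k8)],[(k7,k7),(k8,k7),(k4,k8),(k11,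
    k10)],[(k7,k6),(k8,k6),(k4,k7),(k11,k9)],[(k9,k6)],[(k6,k6)],[(k7,k6),(k8,k6),(k4,k7),(k11,k9)],[(k7,k9),(k8,k9),
    (k4,k10),(k11,k12)],[(k1,k8)]]
    [] k0
    [[k0,k2,k0,k0,k0,k0],[k0,k0,k0,k1,k1,k0]]
    [.contra [z1],.ref k0 k0 [(z1,[y1,z1])]])]⟩

/-- classes `0 0 1 2 1 3`, types `C0 C0 S0 C0 S0 S0` -/
noncomputable def cU6_1441 : CertX :=
  ⟨[k4,k4,k16,k36,k16,k48],[(false,k0,[k0,k1,k2,k3,k4,k5])],[[[([z1,z1,z1,z0,z0,z1],z2)],[]]],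
    [.old (.leafM k0 [k0,k1,k2,k5] [] [(k3,k4,z1,[y1,z1]),(k4,k3,z1,[y1,z1])]),
    .old (.lp [k6,k8,k6,k6,k6,k12] [k3,k3,k2,k2,k3,k3,k3,k3,k3,k3,k0,k0] k0 [] k24 k5
    [[(k1,k6),(k10,k9)],[(k5,k6),(k3,k7)],[(k0,k7),(k2,k8)],[(k5,k7),(k3,k8)],[(k0,k6),(k2,k7)],[(k4,k6),(k7,k6),(k8,
    k6),(k11,k9)],[(k4,k6),(k7,k6),(k8,k6),(k11,k9)],[(k9,k6)],[(k6,k6)],[(k4,k6),(k7,k6),(k8,k6),(k11,k9)],[(k4,k9),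
    (k7,k9),(k8,k9),(k11,k12)],[(k1,k9),(k10,k12)]]
    [] k0
    [[k0,k2,k0,k0,k0,k0],[k0,k0,k0,k1,k1,k0]]
    [.contra [z1],.ref k0 k0 [(z1,[y1,z1])]])]⟩

/-- classes `0 0 1 2 1 3`, types `C0 C0 S0 S0 S0 C0` -/
noncomputable def cU6_1442 : CertX :=
  ⟨[k4,k4,k16,k32,k16,k52],[(false,k0,[k0,k1,k2,k3,k4,k5])],[[[([z1,z1,z1,z0,z0,z1],z2)],[]]],
    [.old (.leafM k0 [k0,k1,k2,k5] [] [(k3,k4,z1,[y1,z1]),(k4,k3,z1,[y1,z1])]),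
    .old (.lp [k8,k8,k6,k12,k6,k6] [k3,k3,k3,k3,k4,k4,k2,k0,k4,k4,k4,k4] k0 [[],[],[],[],[],[k0,k0,k0,k0,k0,k0,k0,k0,k0,
    k4],[],[],[k0,k0,k0,k0,k4]] k24 k5
    [[(k10,k7)],[(k5,k7),(k3,k8)],[(k0,k8),(k2,k8)],[(k5,k7),(k3,k8)],[(k0,k7),(k2,k7)],[(k4,k6),(k8,k6),(k7,k10),
    (k11,k10)],[(k8,k6),(k4,k10),(k11,k10),(k7,k14)],[(k9,k8),(k6,k10)],[(k9,k6),(k6,k8)],[(k4,k6),(k7,k6),(k8,k6),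
    (k11,k6)],[(k8,k6),(k11,k6),(k4,k10),(k7,k10)],[(k1,k7)]]
    [] k0
    [[k0,k2,k0,k0,k0,k0],[k0,k0,k0,k1,k1,k0],[k0,k0,k0,k0,k2,k0]]
    [.contra [z1],.ref k0 k0 [(z1,[y1,z1])],.contra [z1]])]⟩

/-- classes `0 0 1 2 1 3`, types `C0 C0 S0 S0 S0 S0` -/
noncomputable def cU6_1443 : CertX :=
  ⟨[k4,k4,k16,k32,k16,k48],[(false,k0,[k0,k1,k2,k3,k4,k5])],[[[([z1,z1,z1,z0,z0,z1],z2)],[]]],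
    [.old (.leafM k0 [k0,k1,k2,k5] [] [(k3,k4,z1,[y1,z1]),(k4,k3,z1,[y1,z1])]),
    .old (.lp [k6,k8,k6,k6,k6,k12] [k3,k3,k2,k2,k3,k3,k3,k3,k3,k3,k0,k0] k0 [] k24 k5
    [[(k1,k6),(k10,k9)],[(k5,k6),(k3,k7)],[(k0,k7),(k2,k8)],[(k5,k7),(k3,k8)],[(k0,k6),(k2,k7)],[(k4,k6),(k7,k6),(k8,
    k6),(k11,k9)],[(k4,k6),(k7,k6),(k8,k6),(k11,k9)],[(k6,k6),(k9,k6)],[(k6,k6),(k9,k6)],[(k4,k6),(k7,k6),(k8,k6),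
    (k11,k9)],[(k4,k9),(k7,k9),(k8,k9),(k11,k12)],[(k1,k9),(k10,k12)]]
    [] k0
    [[k0,k2,k0,k0,k0,k0],[k0,k0,k0,k2,k0,k0],[k0,k0,k0,k1,k1,k0],[k0,k0,k0,k0,k2,k0]]
    [.contra [z1],.contra [z1],.ref k0 k0 [(z1,[y1,z1])],.contra [z1]])]⟩

/-- classes `0 0 1 2 1 3`, types `C0 C2 B0 C0 B1 C0` -/
noncomputable def cU6_1444 : CertX :=
  ⟨[k4,k6,k24,k36,k25,k52],[(false,k0,[k0,k1,k2,k3,k4,k5])],[[[([z1,z1,z1,z0,z0,z1],z2)],[]]],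
    [.old (.leafM k0 [k0,k1,k2,k5] [] [(k3,k4,z1,[y1,z1]),(k4,k3,z1,[y1,z1])]),
    .old (.lp [k2,k0,k2,k2,k0,k0] [k0,k0,k1,k1,k0,k0,k0,k0,k1,k1,k1,k1] k0 [] k4 k5
    [[(k10,k1)],[(k2,k1),(k3,k1)],[(k0,k1),(k5,k1)],[(k0,k1),(k5,k1)],[(k2,k1),(k3,k1)],[(k8,k1),(k11,k1)],[(k8,k1),
    (k11,k1)],[(k9,k1)],[(k6,k1)],[(k4,k1),(k7,k1)],[(k4,k1),(k7,k1)],[(k1,k1)]]
    [] k0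
    [[k0,k0,k0,k1,k1,k0]]
    [.ref k0 k0 [(z1,[y1,z1])]])]⟩

/-- classes `0 0 1 2 1 3`, types `C0 C2 B0 C0 B1 S0` -/
noncomputable def cU6_1445 : CertX :=
  ⟨[k4,k6,k24,k36,k25,k48],[(false,k0,[k0,k1,k2,k3,k4,k5])],[[[([z1,z1,z1,z0,z0,z1],z2)],[]]],
    [.old (.leafM k0 [k0,k1,k2,k5] [] [(k3,k4,z1,[y1,z1]),(k4,k3,z1,[y1,z1])]),
    .old (.lp [k6,k4,k4,k4,k4,k4] [k0,k0,k1,k1,k1,k1,k1,k1,k1,k1,k1,k1] k0 [] k16 k5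
    [[(k10,k5),(k1,k6)],[(k2,k5),(k3,k5)],[(k5,k4),(k0,k5)],[(k5,k4),(k0,k5)],[(k2,k4),(k3,k4)],[(k8,k4),(k11,k4)],
    [(k8,k4),(k11,k4)],[(k9,k4)],[(k6,k4)],[(k4,k4),(k7,k4)],[(k4,k4),(k7,k4)],[(k10,k4),(k1,k5)]]
    [] k0
    [[k0,k0,k0,k1,k1,k0]]
    [.ref k0 k0 [(z1,[y1,z1])]])]⟩

/-- classes `0 0 1 2 1 3`, types `C0 C2 B0 S0 B1 C0` -/
noncomputable def cU6_1446 : CertX :=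
  ⟨[k4,k6,k24,k32,k25,k52],[(false,k0,[k0,k1,k2,k3,k4,k5])],[[[([z1,z1,z1,z0,z0,z1],z2)],[]]],
    [.old (.leafM k0 [k0,k1,k2,k5] [] [(k3,k4,z1,[y1,z1]),(k4,k3,z1,[y1,z1])]),
    .old (.lp [k2,k2,k2,k2,k2,k2] [k0,k0,k0,k0,k0,k0,k0,k0,k0,k0,k0,k0] k0 [] k8 k5
    [[(k10,k2)],[(k2,k2),(k3,k2)],[(k0,k2),(k5,k2)],[(k0,k2),(k5,k2)],[(k2,k2),(k3,k2)],[(k8,k2),(k11,k2)],[(k8,k2),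
    (k11,k2)],[(k6,k2),(k9,k2)],[(k6,k2),(k9,k2)],[(k4,k2),(k7,k2)],[(k4,k2),(k7,k2)],[(k1,k2)]]
    [] k0
    [[k0,k0,k0,k1,k1,k0]]
    [.ref k0 k0 [(z1,[y1,z1])]])]⟩

/-- classes `0 0 1 2 1 3`, types `C0 C2 B0 S0 B1 S0` -/
noncomputable def cU6_1447 : CertX :=
  ⟨[k4,k6,k24,k32,k25,k48],[(false,k0,[k0,k1,k2,k3,k4,k5])],[[[([z1,z1,z1,z0,z0,z1],z2)],[]]],
    [.old (.leafM k0 [k0,k1,k2,k5] [] [(k3,k4,z1,[y1,z1]),(k4,k3,z1,[y1,z1])]),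
    .old (.lp [k6,k4,k4,k4,k4,k4] [k0,k0,k1,k1,k1,k1,k1,k1,k1,k1,k1,k1] k0 [] k16 k5
    [[(k10,k5),(k1,k6)],[(k2,k5),(k3,k5)],[(k5,k4),(k0,k5)],[(k5,k4),(k0,k5)],[(k2,k4),(k3,k4)],[(k8,k4),(k11,k4)],
    [(k8,k4),(k11,k4)],[(k6,k4),(k9,k4)],[(k6,k4),(k9,k4)],[(k4,k4),(k7,k4)],[(k4,k4),(k7,k4)],[(k10,k4),(k1,k5)]]
    [] k0
    [[k0,k0,k0,k1,k1,k0]]
    [.ref k0 k0 [(z1,[y1,z1])]])]⟩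

/-- classes `0 0 1 2 1 3`, types `C0 C2 C0 C0 C0 C0` -/
noncomputable def cU6_1448 : CertX :=
  ⟨[k4,k6,k20,k36,k20,k52],[(false,k0,[k0,k1,k2,k3,k4,k5])],[[[([z1,z1,z1,z0,z0,z1],z2)],[]]],
    [.old (.leafM k0 [k0,k1,k2,k5] [] [(k3,k4,z1,[y1,z1]),(k4,k3,z1,[y1,z1])]),
    .old (.lp [k0,k2,k0,k2,k0,k2] [k1,k1,k0,k0,k1,k1,k0,k0,k1,k1,k0,k0] k0 [] k4 k5
    [[(k10,k1)],[(k2,k1),(k3,k1)],[(k0,k1),(k5,k1)],[(k0,k1),(k5,k1)],[(k2,k1),(k3,k1)],[(k7,k1),(k11,k1)],[(k4,k1),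
    (k8,k1)],[(k9,k1)],[(k6,k1)],[(k7,k1),(k11,k1)],[(k4,k1),(k8,k1)],[(k1,k1)]]
    [] k0
    [[k0,k0,k0,k1,k1,k0]]
    [.ref k0 k0 [(z1,[y1,z1])]])]⟩

/-- classes `0 0 1 2 1 3`, types `C0 C2 C0 C0 C0 S0` -/
noncomputable def cU6_1449 : CertX :=
  ⟨[k4,k6,k20,k36,k20,k48],[(false,k0,[k0,k1,k2,k3,k4,k5])],[[[([z1,z1,z1,z0,z0,z1],z2)],[]]],
    [.old (.leafM k0 [k0,k1,k2,k5] [] [(k3,k4,z1,[y1,z1]),(k4,k3,z1,[y1,z1])]),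
    .old (.lp [k6,k4,k4,k4,k4,k4] [k0,k0,k1,k1,k1,k1,k1,k1,k1,k1,k1,k1] k0 [] k16 k5
    [[(k10,k5),(k1,k6)],[(k2,k5),(k3,k5)],[(k5,k4),(k0,k5)],[(k5,k4),(k0,k5)],[(k2,k4),(k3,k4)],[(k7,k4),(k11,k4)],
    [(k4,k4),(k8,k4)],[(k9,k4)],[(k6,k4)],[(k7,k4),(k11,k4)],[(k4,k4),(k8,k4)],[(k10,k4),(k1,k5)]]
    [] k0
    [[k0,k0,k0,k1,k1,k0]]
    [.ref k0 k0 [(z1,[y1,z1])]])]⟩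

/-- classes `0 0 1 2 1 3`, types `C0 C2 C0 C0 C2 C0` -/
noncomputable def cU6_1450 : CertX :=
  ⟨[k4,k6,k20,k36,k22,k52],[],[[[]]],
    [.old (.lp [k2,k2,k2,k2,k2,k2] [k0,k0,k0,k0,k0,k0,k0,k0,k0,k0,k0,k0] k0 [] k8 k5
    [[(k10,k2)],[(k2,k2),(k3,k2)],[(k0,k2),(k5,k2)],[(k0,k2),(k5,k2)],[(k2,k2),(k3,k2)],[(k7,k2),(k8,k2)],[(k4,k2),
    (k11,k2)],[(k9,k2)],[(k6,k2)],[(k4,k2),(k11,k2)],[(k7,k2),(k8,k2)],[(k1,k2)]]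
    [] k0
    []
    [])]⟩

/-- classes `0 0 1 2 1 3`, types `C0 C2 C0 C0 C2 S0` -/
noncomputable def cU6_1451 : CertX :=
  ⟨[k4,k6,k20,k36,k22,k48],[],[[[]]],
    [.old (.lp [k6,k4,k4,k4,k4,k4] [k0,k0,k1,k1,k1,k1,k1,k1,k1,k1,k1,k1] k0 [] k16 k5
    [[(k10,k5),(k1,k6)],[(k2,k5),(k3,k5)],[(k5,k4),(k0,k5)],[(k5,k4),(k0,k5)],[(k2,k4),(k3,k4)],[(k7,k4),(k8,k4)],
    [(k4,k4),(k11,k4)],[(k9,k4)],[(k6,k4)],[(k4,k4),(k11,k4)],[(k7,k4),(k8,k4)],[(k10,k4),(k1,k5)]]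
    [] k0
    []
    [])]⟩

/-- classes `0 0 1 2 1 3`, types `C0 C2 C0 S0 C0 C0` -/
noncomputable def cU6_1452 : CertX :=
  ⟨[k4,k6,k20,k32,k20,k52],[(false,k0,[k0,k1,k2,k3,k4,k5])],[[[([z1,z1,z1,z0,z0,z1],z2)],[]]],
    [.old (.leafM k0 [k0,k1,k2,k5] [] [(k3,k4,z1,[y1,z1]),(k4,k3,z1,[y1,z1])]),
    .old (.lp [k2,k2,k2,k2,k2,k2] [k0,k0,k0,k0,k0,k0,k0,k0,k0,k0,k0,k0] k0 [] k8 k5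
    [[(k10,k2)],[(k2,k2),(k3,k2)],[(k0,k2),(k5,k2)],[(k0,k2),(k5,k2)],[(k2,k2),(k3,k2)],[(k7,k2),(k11,k2)],[(k4,k2),
    (k8,k2)],[(k6,k2),(k9,k2)],[(k6,k2),(k9,k2)],[(k7,k2),(k11,k2)],[(k4,k2),(k8,k2)],[(k1,k2)]]
    [] k0
    [[k0,k0,k0,k1,k1,k0]]
    [.ref k0 k0 [(z1,[y1,z1])]])]⟩

/-- classes `0 0 1 2 1 3`, types `C0 C2 C0 S0 C0 S0` -/
noncomputable def cU6_1453 : CertX :=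
  ⟨[k4,k6,k20,k32,k20,k48],[(false,k0,[k0,k1,k2,k3,k4,k5])],[[[([z1,z1,z1,z0,z0,z1],z2)],[]]],
    [.old (.leafM k0 [k0,k1,k2,k5] [] [(k3,k4,z1,[y1,z1]),(k4,k3,z1,[y1,z1])]),
    .old (.lp [k6,k4,k4,k4,k4,k4] [k0,k0,k1,k1,k1,k1,k1,k1,k1,k1,k1,k1] k0 [] k16 k5
    [[(k10,k5),(k1,k6)],[(k2,k5),(k3,k5)],[(k5,k4),(k0,k5)],[(k5,k4),(k0,k5)],[(k2,k4),(k3,k4)],[(k7,k4),(k11,k4)],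
    [(k4,k4),(k8,k4)],[(k6,k4),(k9,k4)],[(k6,k4),(k9,k4)],[(k7,k4),(k11,k4)],[(k4,k4),(k8,k4)],[(k10,k4),(k1,k5)]]
    [] k0
    [[k0,k0,k0,k1,k1,k0]]
    [.ref k0 k0 [(z1,[y1,z1])]])]⟩

/-- classes `0 0 1 2 1 3`, types `C0 C2 C0 S0 C2 C0` -/
noncomputable def cU6_1454 : CertX :=
  ⟨[k4,k6,k20,k32,k22,k52],[],[[[]]],
    [.old (.lp [k2,k2,k2,k2,k2,k2] [k0,k0,k0,k0,k0,k0,k0,k0,k0,k0,k0,k0] k0 [] k8 k5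
    [[(k10,k2)],[(k2,k2),(k3,k2)],[(k0,k2),(k5,k2)],[(k0,k2),(k5,k2)],[(k2,k2),(k3,k2)],[(k7,k2),(k8,k2)],[(k4,k2),
    (k11,k2)],[(k6,k2),(k9,k2)],[(k6,k2),(k9,k2)],[(k4,k2),(k11,k2)],[(k7,k2),(k8,k2)],[(k1,k2)]]
    [] k0
    []
    [])]⟩

/-- classes `0 0 1 2 1 3`, types `C0 C2 C0 S0 C2 S0` -/
noncomputable def cU6_1455 : CertX :=
  ⟨[k4,k6,k20,k32,k22,k48],[],[[[]]],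
    [.old (.lp [k6,k4,k4,k4,k4,k4] [k0,k0,k1,k1,k1,k1,k1,k1,k1,k1,k1,k1] k0 [] k16 k5
    [[(k10,k5),(k1,k6)],[(k2,k5),(k3,k5)],[(k5,k4),(k0,k5)],[(k5,k4),(k0,k5)],[(k2,k4),(k3,k4)],[(k7,k4),(k8,k4)],
    [(k4,k4),(k11,k4)],[(k6,k4),(k9,k4)],[(k6,k4),(k9,k4)],[(k4,k4),(k11,k4)],[(k7,k4),(k8,k4)],[(k10,k4),(k1,k5)]]
    [] k0
    []
    [])]⟩

/-- classes `0 0 1 2 1 3`, types `C0 C2 N0 C0 N1 C0` -/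
noncomputable def cU6_1456 : CertX :=
  ⟨[k4,k6,k28,k36,k29,k52],[(false,k0,[k0,k1,k2,k3,k4,k5])],[[[([z1,z1,z1,z0,z0,z1],z2)],[]]],
    [.old (.leafM k0 [k0,k1,k2,k5] [] [(k3,k4,z1,[y1,z1]),(k4,k3,z1,[y1,z1])]),
    .old (.lp [k0,k2,k0,k0,k2,k2] [k1,k1,k0,k0,k1,k1,k1,k1,k0,k0,k0,k0] k0 [] k4 k5
    [[(k10,k1)],[(k2,k1),(k3,k1)],[(k0,k1),(k5,k1)],[(k0,k1),(k5,k1)],[(k2,k1),(k3,k1)],[(k11,k1)],[(k8,k1)],[(k9,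
    k1)],[(k6,k1)],[(k7,k1)],[(k4,k1)],[(k1,k1)]]
    [] k0
    [[k0,k0,k0,k1,k1,k0]]
    [.ref k0 k0 [(z1,[y1,z1])]])]⟩

/-- classes `0 0 1 2 1 3`, types `C0 C2 N0 C0 N1 S0` -/
noncomputable def cU6_1457 : CertX :=
  ⟨[k4,k6,k28,k36,k29,k48],[(false,k0,[k0,k1,k2,k3,k4,k5])],[[[([z1,z1,z1,z0,z0,z1],z2)],[]]],
    [.old (.leafM k0 [k0,k1,k2,k5] [] [(k3,k4,z1,[y1,z1]),(k4,k3,z1,[y1,z1])]),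
    .old (.lp [k6,k4,k4,k8,k0,k4] [k1,k1,k2,k2,k2,k2,k0,k0,k4,k4,k2,k2] k0 [] k16 k5
    [[(k10,k5),(k1,k6)],[(k2,k5),(k3,k5)],[(k5,k4),(k0,k5)],[(k5,k4),(k0,k5)],[(k2,k4),(k3,k4)],[(k11,k4)],[(k8,k4)],
    [(k9,k4)],[(k6,k4)],[(k7,k4)],[(k4,k4)],[(k10,k4),(k1,k5)]]
    [] k0
    [[k0,k0,k0,k1,k1,k0]]
    [.ref k0 k0 [(z1,[y1,z1])]])]⟩

/-- classes `0 0 1 2 1 3`, types `C0 C2 N0 C0 N2 C0` -/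
noncomputable def cU6_1458 : CertX :=
  ⟨[k4,k6,k28,k36,k30,k52],[],[[[]]],
    [.old (.lp [k0,k2,k0,k0,k2,k2] [k1,k1,k0,k0,k1,k1,k1,k1,k0,k0,k0,k0] k0 [] k4 k5
    [[(k10,k1)],[(k2,k1),(k3,k1)],[(k0,k1),(k5,k1)],[(k0,k1),(k5,k1)],[(k2,k1),(k3,k1)],[(k8,k1)],[(k11,k1)],[(k9,
    k1)],[(k6,k1)],[(k4,k1)],[(k7,k1)],[(k1,k1)]]
    [] k0
    []
    [])]⟩

/-- classes `0 0 1 2 1 3`, types `C0 C2 N0 C0 N2 S0` -/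
noncomputable def cU6_1459 : CertX :=
  ⟨[k4,k6,k28,k36,k30,k48],[],[[[]]],
    [.old (.lp [k6,k4,k4,k4,k4,k4] [k0,k0,k1,k1,k1,k1,k1,k1,k1,k1,k1,k1] k0 [] k16 k5
    [[(k10,k5),(k1,k6)],[(k2,k5),(k3,k5)],[(k5,k4),(k0,k5)],[(k5,k4),(k0,k5)],[(k2,k4),(k3,k4)],[(k8,k4)],[(k11,k4)],
    [(k9,k4)],[(k6,k4)],[(k4,k4)],[(k7,k4)],[(k10,k4),(k1,k5)]]
    [] k0
    []
    [])]⟩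

/-- classes `0 0 1 2 1 3`, types `C0 C2 N0 S0 N1 C0` -/
noncomputable def cU6_1460 : CertX :=
  ⟨[k4,k6,k28,k32,k29,k52],[(false,k0,[k0,k1,k2,k3,k4,k5])],[[[([z1,z1,z1,z0,z0,z1],z2)],[]]],
    [.old (.leafM k0 [k0,k1,k2,k5] [] [(k3,k4,z1,[y1,z1]),(k4,k3,z1,[y1,z1])]),
    .old (.lp [k4,k0,k4,k2,k2,k0] [k0,k0,k2,k2,k0,k0,k1,k1,k1,k1,k2,k2] k0 [] k8 k5
    [[(k10,k2)],[(k2,k2),(k3,k2)],[(k0,k2),(k5,k2)],[(k0,k2),(k5,k2)],[(k2,k2),(k3,k2)],[(k11,k2)],[(k8,k2)],[(k6,k2),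
    (k9,k2)],[(k6,k2),(k9,k2)],[(k7,k2)],[(k4,k2)],[(k1,k2)]]
    [] k0
    [[k0,k0,k0,k1,k1,k0]]
    [.ref k0 k0 [(z1,[y1,z1])]])]⟩

/-- classes `0 0 1 2 1 3`, types `C0 C2 N0 S0 N1 S0` -/
noncomputable def cU6_1461 : CertX :=
  ⟨[k4,k6,k28,k32,k29,k48],[(false,k0,[k0,k1,k2,k3,k4,k5])],[[[([z1,z1,z1,z0,z0,z1],z2)],[]]],
    [.old (.leafM k0 [k0,k1,k2,k5] [] [(k3,k4,z1,[y1,z1]),(k4,k3,z1,[y1,z1])]),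
    .old (.lp [k6,k4,k4,k4,k4,k4] [k0,k0,k1,k1,k1,k1,k1,k1,k1,k1,k1,k1] k0 [] k16 k5
    [[(k10,k5),(k1,k6)],[(k2,k5),(k3,k5)],[(k5,k4),(k0,k5)],[(k5,k4),(k0,k5)],[(k2,k4),(k3,k4)],[(k11,k4)],[(k8,k4)],
    [(k6,k4),(k9,k4)],[(k6,k4),(k9,k4)],[(k7,k4)],[(k4,k4)],[(k10,k4),(k1,k5)]]
    [] k0
    [[k0,k0,k0,k1,k1,k0]]
    [.ref k0 k0 [(z1,[y1,z1])]])]⟩

/-- classes `0 0 1 2 1 3`, types `C0 C2 N0 S0 N2 C0` -/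
noncomputable def cU6_1462 : CertX :=
  ⟨[k4,k6,k28,k32,k30,k52],[],[[[]]],
    [.old (.lp [k2,k2,k2,k2,k2,k2] [k0,k0,k0,k0,k0,k0,k0,k0,k0,k0,k0,k0] k0 [] k8 k5
    [[(k10,k2)],[(k2,k2),(k3,k2)],[(k0,k2),(k5,k2)],[(k0,k2),(k5,k2)],[(k2,k2),(k3,k2)],[(k8,k2)],[(k11,k2)],[(k6,k2),
    (k9,k2)],[(k6,k2),(k9,k2)],[(k4,k2)],[(k7,k2)],[(k1,k2)]]
    [] k0
    []
    [])]⟩

/-- classes `0 0 1 2 1 3`, types `C0 C2 N0 S0 N2 S0` -/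
noncomputable def cU6_1463 : CertX :=
  ⟨[k4,k6,k28,k32,k30,k48],[],[[[]]],
    [.old (.lp [k6,k4,k4,k4,k4,k4] [k0,k0,k1,k1,k1,k1,k1,k1,k1,k1,k1,k1] k0 [] k16 k5
    [[(k10,k5),(k1,k6)],[(k2,k5),(k3,k5)],[(k5,k4),(k0,k5)],[(k5,k4),(k0,k5)],[(k2,k4),(k3,k4)],[(k8,k4)],[(k11,k4)],
    [(k6,k4),(k9,k4)],[(k6,k4),(k9,k4)],[(k4,k4)],[(k7,k4)],[(k10,k4),(k1,k5)]]
    [] k0
    []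
    [])]⟩

/-- classes `0 0 1 2 1 3`, types `C0 C2 S0 C0 S0 C0` -/
noncomputable def cU6_1464 : CertX :=
  ⟨[k4,k6,k16,k36,k16,k52],[(false,k0,[k0,k1,k2,k3,k4,k5])],[[[([z1,z1,z1,z0,z0,z1],z2)],[]]],
    [.old (.leafM k0 [k0,k1,k2,k5] [] [(k3,k4,z1,[y1,z1]),(k4,k3,z1,[y1,z1])]),
    .old (.lp [k4,k4,k6,k4,k4,k4] [k1,k1,k1,k1,k0,k0,k1,k1,k1,k1,k1,k1] k0 [] k16 k5
    [[(k10,k4)],[(k2,k4),(k3,k4)],[(k0,k4),(k5,k5)],[(k0,k4),(k5,k5)],[(k2,k5),(k3,k5)],[(k7,k5),(k8,k5),(k11,k5),(k4,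
    k6)],[(k7,k4),(k8,k4),(k11,k4),(k4,k5)],[(k9,k4)],[(k6,k4)],[(k7,k4),(k8,k4),(k11,k4),(k4,k5)],[(k7,k4),(k8,k4),
    (k11,k4),(k4,k5)],[(k1,k4)]]
    [] k0
    [[k0,k0,k0,k1,k1,k0]]
    [.ref k0 k0 [(z1,[y1,z1])]])]⟩

/-- classes `0 0 1 2 1 3`, types `C0 C2 S0 C0 S0 S0` -/
noncomputable def cU6_1465 : CertX :=
  ⟨[k4,k6,k16,k36,k16,k48],[(false,k0,[k0,k1,k2,k3,k4,k5])],[[[([z1,z1,z1,z0,z0,z1],z2)],[]]],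
    [.old (.leafM k0 [k0,k1,k2,k5] [] [(k3,k4,z1,[y1,z1]),(k4,k3,z1,[y1,z1])]),
    .old (.lp [k2,k4,k2,k2,k2,k2] [k1,k1,k0,k0,k1,k1,k1,k1,k1,k1,k1,k1] k0 [] k8 k5
    [[(k1,k2),(k10,k2)],[(k2,k3),(k3,k3)],[(k0,k3),(k5,k3)],[(k0,k3),(k5,k3)],[(k2,k3),(k3,k3)],[(k4,k2),(k7,k2),(k8,
    k2),(k11,k2)],[(k4,k2),(k7,k2),(k8,k2),(k11,k2)],[(k9,k2)],[(k6,k2)],[(k4,k2),(k7,k2),(k8,k2),(k11,k2)],[(k4,k2),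
    (k7,k2),(k8,k2),(k11,k2)],[(k1,k2),(k10,k2)]]
    [] k0
    [[k0,k0,k0,k1,k1,k0],[k0,k0,k0,k0,k0,k2]]
    [.ref k0 k0 [(z1,[y1,z1])],.contra [z1]])]⟩

/-- classes `0 0 1 2 1 3`, types `C0 C2 S0 S0 S0 C0` -/
noncomputable def cU6_1466 : CertX :=
  ⟨[k4,k6,k16,k32,k16,k52],[(false,k0,[k0,k1,k2,k3,k4,k5])],[[[([z1,z1,z1,z0,z0,z1],z2)],[]]],
    [.old (.leafM k0 [k0,k1,k2,k5] [] [(k3,k4,z1,[y1,z1]),(k4,k3,z1,[y1,z1])]),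
    .old (.lp [k4,k4,k6,k8,k4,k4] [k2,k2,k2,k2,k1,k1,k0,k0,k2,k2,k2,k2] k0 [] k16 k5
    [[(k10,k4)],[(k2,k4),(k3,k4)],[(k0,k4),(k5,k5)],[(k0,k4),(k5,k5)],[(k2,k5),(k3,k5)],[(k8,k5),(k11,k5),(k4,k6),(k7,
    k7)],[(k8,k6),(k11,k6),(k4,k7),(k7,k8)],[(k9,k6),(k6,k8)],[(k9,k4),(k6,k6)],[(k8,k4),(k11,k4),(k4,k5),(k7,k6)],
    [(k8,k4),(k11,k4),(k4,k5),(k7,k6)],[(k1,k4)]]
    [] k0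
    [[k0,k0,k0,k1,k1,k0],[k0,k0,k0,k0,k2,k0]]
    [.ref k0 k0 [(z1,[y1,z1])],.contra [z1]])]⟩

/-- classes `0 0 1 2 1 3`, types `C0 C2 S0 S0 S0 S0` -/
noncomputable def cU6_1467 : CertX :=
  ⟨[k4,k6,k16,k32,k16,k48],[(false,k0,[k0,k1,k2,k3,k4,k5])],[[[([z1,z1,z1,z0,z0,z1],z2)],[]]],
    [.old (.leafM k0 [k0,k1,k2,k5] [] [(k3,k4,z1,[y1,z1]),(k4,k3,z1,[y1,z1])]),
    .old (.lp [k2,k4,k2,k2,k2,k2] [k1,k1,k0,k0,k1,k1,k1,k1,k1,k1,k1,k1] k0 [] k8 k5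
    [[(k1,k2),(k10,k2)],[(k2,k3),(k3,k3)],[(k0,k3),(k5,k3)],[(k0,k3),(k5,k3)],[(k2,k3),(k3,k3)],[(k4,k2),(k7,k2),(k8,
    k2),(k11,k2)],[(k4,k2),(k7,k2),(k8,k2),(k11,k2)],[(k6,k2),(k9,k2)],[(k6,k2),(k9,k2)],[(k4,k2),(k7,k2),(k8,k2),
    (k11,k2)],[(k4,k2),(k7,k2),(k8,k2),(k11,k2)],[(k1,k2),(k10,k2)]]
    [] k0
    [[k0,k0,k0,k2,k0,k0],[k0,k0,k0,k1,k1,k0],[k0,k0,k0,k0,k2,k0],[k0,k0,k0,k0,k0,k2]]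
    [.contra [z1],.ref k0 k0 [(z1,[y1,z1])],.contra [z1],.contra [z1]])]⟩

/-- classes `0 0 1 2 1 3`, types `N0 N1 B0 C0 B1 C0` -/
noncomputable def cU6_1468 : CertX :=
  ⟨[k12,k13,k24,k36,k25,k52],[(false,k0,[k0,k1,k2,k3,k4,k5])],[[[([z1,z1,z1,z0,z0,z1],z2)],[]]],
    [.old (.lp [k6,k10,k6,k24,k6,k6] [k9,k9,k7,k7,k9,k9,k0,k0,k9,k9,k9,k9] k0 [] k30 k6
    [[(k10,k6)],[(k5,k6)],[(k2,k10)],[(k3,k10)],[(k0,k6)],[(k8,k6),(k11,k6)],[(k8,k15),(k11,k15)],[(k9,k15)],[(k6,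
    k15)],[(k4,k6),(k7,k15)],[(k4,k6),(k7,k15)],[(k1,k6)]]
    [] k0
    [[k1,k0,k1,k0,k0,k1],[k0,k2,k0,k0,k0,k0]]
    [.contra [y1,z1],.contra [z1]]),
    .old (.lp [k6,k4,k0,k0,k6,k6] [k0,k0,k1,k1,k3,k3,k3,k3,k0,k0,k0,k0] k0 [] k12 k5
    [[(k10,k6)],[(k5,k3)],[(k2,k4)],[(k3,k4)],[(k0,k3)],[(k8,k3),(k11,k3)],[(k8,k3),(k11,k3)],[(k9,k3)],[(k6,k3)],
    [(k4,k3),(k7,k3)],[(k4,k3),(k7,k3)],[(k1,k6)]]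
    [] k0
    [[k0,k2,k0,k0,k0,k0],[k0,k0,k0,k1,k1,k0]]
    [.contra [z1],.ref k0 k0 [(z1,[y1,z1])]])]⟩

/-- classes `0 0 1 2 1 3`, types `N0 N1 B0 C0 B1 S0` -/
noncomputable def cU6_1469 : CertX :=
  ⟨[k12,k13,k24,k36,k25,k48],[(false,k0,[k0,k1,k2,k3,k4,k5])],[[[([z1,z1,z1,z0,z0,z1],z2)],[]]],
    [.old (.lp [k6,k10,k6,k24,k6,k6] [k9,k9,k7,k7,k9,k9,k0,k0,k9,k9,k9,k9] k0 [] k30 k6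
    [[(k1,k6),(k10,k6)],[(k5,k6)],[(k2,k10)],[(k3,k10)],[(k0,k6)],[(k8,k6),(k11,k6)],[(k8,k15),(k11,k15)],[(k9,k15)],
    [(k6,k15)],[(k4,k6),(k7,k15)],[(k4,k6),(k7,k15)],[(k1,k6),(k10,k6)]]
    [] k0
    [[k1,k0,k1,k0,k0,k1],[k0,k2,k0,k0,k0,k0]]
    [.contra [y1,z1],.contra [z1]]),
    .old (.lp [k6,k8,k12,k12,k0,k6] [k3,k3,k2,k2,k0,k0,k0,k0,k6,k6,k3,k3] k0 [] k24 k5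
    [[(k1,k6),(k10,k6)],[(k5,k9)],[(k2,k8)],[(k3,k8)],[(k0,k9)],[(k8,k6),(k11,k9)],[(k8,k6),(k11,k9)],[(k9,k6)],[(k6,
    k6)],[(k4,k6),(k7,k6)],[(k4,k9),(k7,k9)],[(k1,k6),(k10,k6)]]
    [] k0
    [[k0,k2,k0,k0,k0,k0],[k0,k0,k0,k1,k1,k0]]
    [.contra [z1],.ref k0 k0 [(z1,[y1,z1])]])]⟩

/-- classes `0 0 1 2 1 3`, types `N0 N1 B0 S0 B1 C0` -/
noncomputable def cU6_1470 : CertX :=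
  ⟨[k12,k13,k24,k32,k25,k52],[(false,k0,[k0,k1,k2,k3,k4,k5])],[[[([z1,z1,z1,z0,z0,z1],z2)],[]]],
    [.old (.lp [k6,k10,k6,k24,k6,k6] [k9,k9,k7,k7,k9,k9,k0,k0,k9,k9,k9,k9] k0 [] k30 k6
    [[(k10,k6)],[(k5,k6)],[(k2,k10)],[(k3,k10)],[(k0,k6)],[(k8,k6),(k11,k6)],[(k8,k15),(k11,k15)],[(k9,k15),(k6,k24)],
    [(k9,k6),(k6,k15)],[(k4,k6),(k7,k15)],[(k4,k6),(k7,k15)],[(k1,k6)]]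
    [] k0
    [[k1,k0,k1,k0,k0,k1],[k0,k2,k0,k0,k0,k0]]
    [.contra [y1,z1],.contra [z1]]),
    .old (.lp [k6,k8,k12,k6,k6,k6] [k3,k3,k2,k2,k0,k0,k3,k3,k3,k3,k3,k3] k0 [] k24 k5
    [[(k10,k6)],[(k5,k9)],[(k2,k8)],[(k3,k8)],[(k0,k9)],[(k8,k9),(k11,k9)],[(k8,k6),(k11,k6)],[(k6,k6),(k9,k6)],[(k6,
    k6),(k9,k6)],[(k7,k6),(k4,k9)],[(k7,k6),(k4,k9)],[(k1,k6)]]
    [] k0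
    [[k0,k2,k0,k0,k0,k0],[k0,k0,k0,k1,k1,k0]]
    [.contra [z1],.ref k0 k0 [(z1,[y1,z1])]])]⟩

/-- classes `0 0 1 2 1 3`, types `N0 N1 B0 S0 B1 S0` -/
noncomputable def cU6_1471 : CertX :=
  ⟨[k12,k13,k24,k32,k25,k48],[(false,k0,[k0,k1,k2,k3,k4,k5])],[[[([z1,z1,z1,z0,z0,z1],z2)],[]]],
    [.old (.lp [k6,k10,k6,k24,k6,k6] [k9,k9,k7,k7,k9,k9,k0,k0,k9,k9,k9,k9] k0 [] k30 k6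
    [[(k1,k6),(k10,k6)],[(k5,k6)],[(k2,k10)],[(k3,k10)],[(k0,k6)],[(k8,k6),(k11,k6)],[(k8,k15),(k11,k15)],[(k9,k15),
    (k6,k24)],[(k9,k6),(k6,k15)],[(k4,k6),(k7,k15)],[(k4,k6),(k7,k15)],[(k1,k6),(k10,k6)]]
    [] k0
    [[k1,k0,k1,k0,k0,k1],[k0,k2,k0,k0,k0,k0]]
    [.contra [y1,z1],.contra [z1]]),
    .old (.lp [k6,k8,k6,k6,k6,k12] [k3,k3,k2,k2,k3,k3,k3,k3,k3,k3,k0,k0] k0 [] k24 k5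
    [[(k1,k6),(k10,k9)],[(k5,k6)],[(k2,k8)],[(k3,k8)],[(k0,k6)],[(k8,k6),(k11,k9)],[(k8,k6),(k11,k9)],[(k6,k6),(k9,
    k6)],[(k6,k6),(k9,k6)],[(k4,k6),(k7,k6)],[(k4,k9),(k7,k9)],[(k1,k9),(k10,k12)]]
    [] k0
    [[k0,k2,k0,k0,k0,k0],[k0,k0,k0,k1,k1,k0]]
    [.contra [z1],.ref k0 k0 [(z1,[y1,z1])]])]⟩

/-- classes `0 0 1 2 1 3`, types `N0 N1 C0 C0 C0 C0` -/
noncomputable def cU6_1472 : CertX :=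
  ⟨[k12,k13,k20,k36,k20,k52],[(false,k0,[k0,k1,k2,k3,k4,k5])],[[[([z1,z1,z1,z0,z0,z1],z2)],[]]],
    [.old (.lp [k6,k10,k6,k6,k24,k6] [k9,k9,k7,k7,k9,k9,k9,k9,k0,k0,k9,k9] k0 [] k30 k6
    [[(k10,k6)],[(k5,k6)],[(k2,k10)],[(k3,k10)],[(k0,k6)],[(k7,k6),(k11,k6)],[(k4,k6),(k8,k15)],[(k9,k15)],[(k6,k15)],
    [(k7,k15),(k11,k15)],[(k4,k6),(k8,k15)],[(k1,k6)]]
    [] k0
    [[k1,k0,k1,k0,k0,k1],[k0,k2,k0,k0,k0,k0]]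
    [.contra [y1,z1],.contra [z1]]),
    .old (.lp [k0,k4,k6,k0,k6,k6] [k3,k3,k1,k1,k0,k0,k3,k3,k0,k0,k0,k0] k0 [] k12 k5
    [[(k10,k3)],[(k5,k3)],[(k2,k4)],[(k3,k4)],[(k0,k3)],[(k7,k3),(k11,k6)],[(k4,k3),(k8,k3)],[(k9,k3)],[(k6,k3)],[(k7,
    k3),(k11,k6)],[(k4,k6),(k8,k6)],[(k1,k3)]]
    [] k0
    [[k0,k2,k0,k0,k0,k0],[k0,k0,k0,k1,k1,k0]]
    [.contra [z1],.ref k0 k0 [(z1,[y1,z1])]])]⟩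

/-- classes `0 0 1 2 1 3`, types `N0 N1 C0 C0 C0 S0` -/
noncomputable def cU6_1473 : CertX :=
  ⟨[k12,k13,k20,k36,k20,k48],[(false,k0,[k0,k1,k2,k3,k4,k5])],[[[([z1,z1,z1,z0,z0,z1],z2)],[]]],
    [.old (.lp [k6,k10,k6,k24,k6,k6] [k9,k9,k7,k7,k9,k9,k0,k0,k9,k9,k9,k9] k0 [] k30 k6
    [[(k1,k6),(k10,k6)],[(k5,k6)],[(k2,k10)],[(k3,k10)],[(k0,k6)],[(k11,k6),(k7,k15)],[(k4,k15),(k8,k15)],[(k9,k15)],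
    [(k6,k15)],[(k11,k6),(k7,k15)],[(k4,k6),(k8,k6)],[(k1,k6),(k10,k6)]]
    [] k0
    [[k1,k0,k1,k0,k0,k1],[k0,k2,k0,k0,k0,k0]]
    [.contra [y1,z1],.contra [z1]]),
    .old (.lp [k6,k4,k0,k6,k0,k6] [k0,k0,k1,k1,k3,k3,k0,k0,k3,k3,k0,k0] k0 [] k12 k5
    [[(k1,k6),(k10,k6)],[(k5,k3)],[(k2,k4)],[(k3,k4)],[(k0,k3)],[(k7,k3),(k11,k3)],[(k4,k3),(k8,k3)],[(k9,k3)],[(k6,
    k3)],[(k7,k3),(k11,k3)],[(k4,k3),(k8,k3)],[(k1,k6),(k10,k6)]]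
    [] k0
    [[k0,k2,k0,k0,k0,k0],[k0,k0,k0,k1,k1,k0]]
    [.contra [z1],.ref k0 k0 [(z1,[y1,z1])]])]⟩

/-- classes `0 0 1 2 1 3`, types `N0 N1 C0 C0 C2 C0` -/
noncomputable def cU6_1474 : CertX :=
  ⟨[k12,k13,k20,k36,k22,k52],[],[[[]]],
    [.old (.lp [k2,k4,k2,k2,k2,k2] [k1,k1,k0,k0,k1,k1,k1,k1,k1,k1,k1,k1] k0 [] k8 k5
    [[(k10,k2)],[(k5,k2)],[(k2,k4)],[(k3,k4)],[(k0,k2)],[(k7,k2),(k8,k2)],[(k4,k2),(k11,k2)],[(k9,k2)],[(k6,k2)],[(k4,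
    k2),(k11,k2)],[(k7,k2),(k8,k2)],[(k1,k2)]]
    [] k0
    []
    [])]⟩

/-- classes `0 0 1 2 1 3`, types `N0 N1 C0 C0 C2 S0` -/
noncomputable def cU6_1475 : CertX :=
  ⟨[k12,k13,k20,k36,k22,k48],[],[[[]]],
    [.old (.lp [k2,k4,k2,k2,k2,k2] [k1,k1,k0,k0,k1,k1,k1,k1,k1,k1,k1,k1] k0 [] k8 k5
    [[(k1,k2),(k10,k2)],[(k5,k2)],[(k2,k4)],[(k3,k4)],[(k0,k2)],[(k7,k2),(k8,k2)],[(k4,k2),(k11,k2)],[(k9,k2)],[(k6,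
    k2)],[(k4,k2),(k11,k2)],[(k7,k2),(k8,k2)],[(k1,k2),(k10,k2)]]
    [] k0
    []
    [])]⟩

/-- classes `0 0 1 2 1 3`, types `N0 N1 C0 S0 C0 C0` -/
noncomputable def cU6_1476 : CertX :=
  ⟨[k12,k13,k20,k32,k20,k52],[(false,k0,[k0,k1,k2,k3,k4,k5])],[[[([z1,z1,z1,z0,z0,z1],z2)],[]]],
    [.old (.lp [k6,k10,k6,k24,k6,k6] [k9,k9,k7,k7,k9,k9,k0,k0,k9,k9,k9,k9] k0 [] k30 k6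
    [[(k10,k6)],[(k5,k6)],[(k2,k10)],[(k3,k10)],[(k0,k6)],[(k11,k6),(k7,k15)],[(k4,k15),(k8,k15)],[(k9,k15),(k6,k24)],
    [(k9,k6),(k6,k15)],[(k11,k6),(k7,k15)],[(k4,k6),(k8,k6)],[(k1,k6)]]
    [] k0
    [[k1,k0,k1,k0,k0,k1],[k0,k2,k0,k0,k0,k0]]
    [.contra [y1,z1],.contra [z1]]),
    .old (.lp [k12,k8,k6,k6,k6,k6] [k0,k0,k2,k2,k3,k3,k3,k3,k3,k3,k3,k3] k0 [] k24 k5
    [[(k10,k9)],[(k5,k9)],[(k2,k8)],[(k3,k8)],[(k0,k9)],[(k7,k6),(k11,k6)],[(k4,k6),(k8,k6)],[(k6,k6),(k9,k6)],[(k6,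
    k6),(k9,k6)],[(k7,k6),(k11,k6)],[(k4,k6),(k8,k6)],[(k1,k9)]]
    [] k0
    [[k0,k2,k0,k0,k0,k0],[k0,k0,k0,k1,k1,k0]]
    [.contra [z1],.ref k0 k0 [(z1,[y1,z1])]])]⟩

/-- classes `0 0 1 2 1 3`, types `N0 N1 C0 S0 C0 S0` -/
noncomputable def cU6_1477 : CertX :=
  ⟨[k12,k13,k20,k32,k20,k48],[(false,k0,[k0,k1,k2,k3,k4,k5])],[[[([z1,z1,z1,z0,z0,z1],z2)],[]]],
    [.old (.lp [k12,k20,k12,k42,k18,k12] [k15,k15,k11,k11,k15,k15,k0,k0,k12,k12,k15,k15] k0 [] k60 k6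
    [[(k1,k12),(k10,k12)],[(k5,k12)],[(k2,k20)],[(k3,k20)],[(k0,k12)],[(k11,k12),(k7,k27)],[(k4,k27),(k8,k30)],[(k9,
    k30),(k6,k42)],[(k9,k18),(k6,k30)],[(k11,k15),(k7,k30)],[(k4,k12),(k8,k15)],[(k1,k12),(k10,k12)]]
    [] k0
    [[k1,k0,k1,k0,k0,k1],[k0,k2,k0,k0,k0,k0]]
    [.contra [y1,z1],.contra [z1]]),
    .old (.lp [k6,k8,k12,k6,k6,k6] [k3,k3,k2,k2,k0,k0,k3,k3,k3,k3,k3,k3] k0 [] k24 k5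
    [[(k1,k6),(k10,k6)],[(k5,k9)],[(k2,k8)],[(k3,k8)],[(k0,k9)],[(k7,k9),(k11,k9)],[(k8,k6),(k4,k9)],[(k6,k6),(k9,
    k6)],[(k6,k6),(k9,k6)],[(k7,k6),(k11,k6)],[(k8,k6),(k4,k9)],[(k1,k6),(k10,k6)]]
    [] k0
    [[k0,k2,k0,k0,k0,k0],[k0,k0,k0,k1,k1,k0]]
    [.contra [z1],.ref k0 k0 [(z1,[y1,z1])]])]⟩

/-- classes `0 0 1 2 1 3`, types `N0 N1 C0 S0 C2 C0` -/
noncomputable def cU6_1478 : CertX :=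
  ⟨[k12,k13,k20,k32,k22,k52],[],[[[]]],
    [.old (.lp [k2,k4,k2,k2,k2,k2] [k1,k1,k0,k0,k1,k1,k1,k1,k1,k1,k1,k1] k0 [] k8 k5
    [[(k10,k2)],[(k5,k2)],[(k2,k4)],[(k3,k4)],[(k0,k2)],[(k7,k2),(k8,k2)],[(k4,k2),(k11,k2)],[(k6,k2),(k9,k2)],[(k6,
    k2),(k9,k2)],[(k4,k2),(k11,k2)],[(k7,k2),(k8,k2)],[(k1,k2)]]
    [] k0
    []
    [])]⟩

/-- classes `0 0 1 2 1 3`, types `N0 N1 C0 S0 C2 S0` -/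
noncomputable def cU6_1479 : CertX :=
  ⟨[k12,k13,k20,k32,k22,k48],[],[[[]]],
    [.old (.lp [k2,k4,k2,k2,k2,k2] [k1,k1,k0,k0,k1,k1,k1,k1,k1,k1,k1,k1] k0 [] k8 k5
    [[(k1,k2),(k10,k2)],[(k5,k2)],[(k2,k4)],[(k3,k4)],[(k0,k2)],[(k7,k2),(k8,k2)],[(k4,k2),(k11,k2)],[(k6,k2),(k9,
    k2)],[(k6,k2),(k9,k2)],[(k4,k2),(k11,k2)],[(k7,k2),(k8,k2)],[(k1,k2),(k10,k2)]]
    [] k0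
    []
    [])]⟩

/-- classes `0 0 1 2 1 3`, types `N0 N1 N0 C0 N1 C0` -/
noncomputable def cU6_1480 : CertX :=
  ⟨[k12,k13,k28,k36,k29,k52],[(false,k0,[k0,k1,k2,k3,k4,k5])],[[[([z1,z1,z1,z0,z0,z1],z2)],[]]],
    [.old (.lp [k6,k10,k6,k0,k30,k6] [k12,k12,k10,k10,k12,k12,k15,k15,k0,k0,k12,k12] k0 [] k30 k6
    [[(k10,k6)],[(k5,k6)],[(k2,k10)],[(k3,k10)],[(k0,k6)],[(k11,k6)],[(k8,k15)],[(k9,k15)],[(k6,k15)],[(k7,k15)],[(k4,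
    k6)],[(k1,k6)]]
    [] k0
    [[k1,k0,k1,k0,k0,k1],[k0,k2,k0,k0,k0,k0]]
    [.contra [y1,z1],.contra [z1]]),
    .old (.lp [k6,k4,k0,k0,k6,k6] [k0,k0,k1,k1,k3,k3,k3,k3,k0,k0,k0,k0] k0 [] k12 k5
    [[(k10,k6)],[(k5,k3)],[(k2,k4)],[(k3,k4)],[(k0,k3)],[(k11,k3)],[(k8,k3)],[(k9,k3)],[(k6,k3)],[(k7,k3)],[(k4,k3)],
    [(k1,k6)]]
    [] k0
    [[k0,k2,k0,k0,k0,k0],[k0,k0,k0,k1,k1,k0]]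
    [.contra [z1],.ref k0 k0 [(z1,[y1,z1])]])]⟩

/-- classes `0 0 1 2 1 3`, types `N0 N1 N0 C0 N1 S0` -/
noncomputable def cU6_1481 : CertX :=
  ⟨[k12,k13,k28,k36,k29,k48],[(false,k0,[k0,k1,k2,k3,k4,k5])],[[[([z1,z1,z1,z0,z0,z1],z2)],[]]],
    [.old (.lp [k6,k10,k6,k30,k0,k6] [k12,k12,k10,k10,k12,k12,k0,k0,k15,k15,k12,k12] k0 [] k30 k6
    [[(k1,k6),(k10,k6)],[(k5,k6)],[(k2,k10)],[(k3,k10)],[(k0,k6)],[(k11,k6)],[(k8,k15)],[(k9,k15)],[(k6,k15)],[(k7,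
    k15)],[(k4,k6)],[(k1,k6),(k10,k6)]]
    [] k0
    [[k1,k0,k1,k0,k0,k1],[k0,k2,k0,k0,k0,k0]]
    [.contra [y1,z1],.contra [z1]]),
    .old (.lp [k6,k4,k0,k6,k0,k6] [k0,k0,k1,k1,k3,k3,k0,k0,k3,k3,k0,k0] k0 [] k12 k5
    [[(k1,k6),(k10,k6)],[(k5,k3)],[(k2,k4)],[(k3,k4)],[(k0,k3)],[(k11,k3)],[(k8,k3)],[(k9,k3)],[(k6,k3)],[(k7,k3)],
    [(k4,k3)],[(k1,k6),(k10,k6)]]
    [] k0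
    [[k0,k2,k0,k0,k0,k0],[k0,k0,k0,k1,k1,k0]]
    [.contra [z1],.ref k0 k0 [(z1,[y1,z1])]])]⟩

/-- classes `0 0 1 2 1 3`, types `N0 N1 N0 C0 N2 C0` -/
noncomputable def cU6_1482 : CertX :=
  ⟨[k12,k13,k28,k36,k30,k52],[],[[[]]],
    [.old (.lp [k2,k4,k2,k2,k2,k2] [k1,k1,k0,k0,k1,k1,k1,k1,k1,k1,k1,k1] k0 [] k8 k5
    [[(k10,k2)],[(k5,k2)],[(k2,k4)],[(k3,k4)],[(k0,k2)],[(k8,k2)],[(k11,k2)],[(k9,k2)],[(k6,k2)],[(k4,k2)],[(k7,k2)],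
    [(k1,k2)]]
    [] k0
    []
    [])]⟩

/-- classes `0 0 1 2 1 3`, types `N0 N1 N0 C0 N2 S0` -/
noncomputable def cU6_1483 : CertX :=
  ⟨[k12,k13,k28,k36,k30,k48],[],[[[]]],
    [.old (.lp [k2,k4,k2,k2,k2,k2] [k1,k1,k0,k0,k1,k1,k1,k1,k1,k1,k1,k1] k0 [] k8 k5
    [[(k1,k2),(k10,k2)],[(k5,k2)],[(k2,k4)],[(k3,k4)],[(k0,k2)],[(k8,k2)],[(k11,k2)],[(k9,k2)],[(k6,k2)],[(k4,k2)],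
    [(k7,k2)],[(k1,k2),(k10,k2)]]
    [] k0
    []
    [])]⟩

/-- classes `0 0 1 2 1 3`, types `N0 N1 N0 S0 N1 C0` -/
noncomputable def cU6_1484 : CertX :=
  ⟨[k12,k13,k28,k32,k29,k52],[(false,k0,[k0,k1,k2,k3,k4,k5])],[[[([z1,z1,z1,z0,z0,z1],z2)],[]]],
    [.old (.lp [k6,k10,k6,k24,k6,k6] [k9,k9,k7,k7,k9,k9,k0,k0,k9,k9,k9,k9] k0 [] k30 k6
    [[(k10,k6)],[(k5,k6)],[(k2,k10)],[(k3,k10)],[(k0,k6)],[(k11,k6)],[(k8,k15)],[(k9,k15),(k6,k24)],[(k9,k6),(k6,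
    k15)],[(k7,k15)],[(k4,k6)],[(k1,k6)]]
    [] k0
    [[k1,k0,k1,k0,k0,k1],[k0,k2,k0,k0,k0,k0]]
    [.contra [y1,z1],.contra [z1]]),
    .old (.lp [k12,k8,k0,k6,k6,k12] [k0,k0,k2,k2,k6,k6,k3,k3,k3,k3,k0,k0] k0 [] k24 k5
    [[(k10,k12)],[(k5,k6)],[(k2,k8)],[(k3,k8)],[(k0,k6)],[(k11,k6)],[(k8,k6)],[(k6,k6),(k9,k6)],[(k6,k6),(k9,k6)],
    [(k7,k6)],[(k4,k6)],[(k1,k12)]]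
    [] k0
    [[k0,k2,k0,k0,k0,k0],[k0,k0,k0,k1,k1,k0]]
    [.contra [z1],.ref k0 k0 [(z1,[y1,z1])]])]⟩

/-- classes `0 0 1 2 1 3`, types `N0 N1 N0 S0 N1 S0` -/
noncomputable def cU6_1485 : CertX :=
  ⟨[k12,k13,k28,k32,k29,k48],[(false,k0,[k0,k1,k2,k3,k4,k5])],[[[([z1,z1,z1,z0,z0,z1],z2)],[]]],
    [.old (.lp [k6,k10,k6,k24,k6,k6] [k9,k9,k7,k7,k9,k9,k0,k0,k9,k9,k9,k9] k0 [] k30 k6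
    [[(k1,k6),(k10,k6)],[(k5,k6)],[(k2,k10)],[(k3,k10)],[(k0,k6)],[(k11,k6)],[(k8,k15)],[(k9,k15),(k6,k24)],[(k9,k6),
    (k6,k15)],[(k7,k15)],[(k4,k6)],[(k1,k6),(k10,k6)]]
    [] k0
    [[k1,k0,k1,k0,k0,k1],[k0,k2,k0,k0,k0,k0]]
    [.contra [y1,z1],.contra [z1]]),
    .old (.lp [k6,k8,k12,k6,k6,k6] [k3,k3,k2,k2,k0,k0,k3,k3,k3,k3,k3,k3] k0 [] k24 k5
    [[(k1,k6),(k10,k6)],[(k5,k9)],[(k2,k8)],[(k3,k8)],[(k0,k9)],[(k11,k9)],[(k8,k6)],[(k6,k6),(k9,k6)],[(k6,k6),(k9,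
    k6)],[(k7,k6)],[(k4,k9)],[(k1,k6),(k10,k6)]]
    [] k0
    [[k0,k2,k0,k0,k0,k0],[k0,k0,k0,k1,k1,k0]]
    [.contra [z1],.ref k0 k0 [(z1,[y1,z1])]])]⟩

/-- classes `0 0 1 2 1 3`, types `N0 N1 N0 S0 N2 C0` -/
noncomputable def cU6_1486 : CertX :=
  ⟨[k12,k13,k28,k32,k30,k52],[],[[[]]],
    [.old (.lp [k2,k4,k2,k2,k2,k2] [k1,k1,k0,k0,k1,k1,k1,k1,k1,k1,k1,k1] k0 [] k8 k5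
    [[(k10,k2)],[(k5,k2)],[(k2,k4)],[(k3,k4)],[(k0,k2)],[(k8,k2)],[(k11,k2)],[(k6,k2),(k9,k2)],[(k6,k2),(k9,k2)],[(k4,
    k2)],[(k7,k2)],[(k1,k2)]]
    [] k0
    []
    [])]⟩

/-- classes `0 0 1 2 1 3`, types `N0 N1 N0 S0 N2 S0` -/
noncomputable def cU6_1487 : CertX :=
  ⟨[k12,k13,k28,k32,k30,k48],[],[[[]]],
    [.old (.lp [k2,k4,k2,k2,k2,k2] [k1,k1,k0,k0,k1,k1,k1,k1,k1,k1,k1,k1] k0 [] k8 k5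
    [[(k1,k2),(k10,k2)],[(k5,k2)],[(k2,k4)],[(k3,k4)],[(k0,k2)],[(k8,k2)],[(k11,k2)],[(k6,k2),(k9,k2)],[(k6,k2),(k9,
    k2)],[(k4,k2)],[(k7,k2)],[(k1,k2),(k10,k2)]]
    [] k0
    []
    [])]⟩

/-- classes `0 0 1 2 1 3`, types `N0 N1 S0 C0 S0 C0` -/
noncomputable def cU6_1488 : CertX :=
  ⟨[k12,k13,k16,k36,k16,k52],[(false,k0,[k0,k1,k2,k3,k4,k5])],[[[([z1,z1,z1,z0,z0,z1],z2)],[]]],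
    [.old (.lp [k6,k10,k6,k24,k6,k6] [k9,k9,k7,k7,k9,k9,k0,k0,k9,k9,k9,k9] k0 [] k30 k6
    [[(k10,k6)],[(k5,k6)],[(k2,k10)],[(k3,k10)],[(k0,k6)],[(k4,k6),(k8,k6),(k11,k6),(k7,k15)],[(k4,k15),(k8,k15),(k11,
    k15),(k7,k24)],[(k9,k15)],[(k6,k15)],[(k4,k6),(k8,k6),(k11,k6),(k7,k15)],[(k4,k6),(k8,k6),(k11,k6),(k7,k15)],[(k1,
    k6)]]
    [] k0
    [[k1,k0,k1,k0,k0,k1],[k0,k2,k0,k0,k0,k0]]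
    [.contra [y1,z1],.contra [z1]]),
    .old (.lp [k0,k8,k12,k6,k6,k12] [k6,k6,k2,k2,k0,k0,k3,k3,k3,k3,k0,k0] k0 [] k24 k5
    [[(k10,k6)],[(k5,k6)],[(k2,k8)],[(k3,k8)],[(k0,k6)],[(k7,k9),(k8,k9),(k4,k12),(k11,k12)],[(k7,k6),(k8,k6),(k4,k9),
    (k11,k9)],[(k9,k6)],[(k6,k6)],[(k7,k6),(k8,k6),(k4,k9),(k11,k9)],[(k7,k9),(k8,k9),(k4,k12),(k11,k12)],[(k1,k6)]]
    [] k0
    [[k0,k2,k0,k0,k0,k0],[k0,k0,k0,k1,k1,k0]]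
    [.contra [z1],.ref k0 k0 [(z1,[y1,z1])]])]⟩

/-- classes `0 0 1 2 1 3`, types `N0 N1 S0 C0 S0 S0` -/
noncomputable def cU6_1489 : CertX :=
  ⟨[k12,k13,k16,k36,k16,k48],[(false,k0,[k0,k1,k2,k3,k4,k5])],[[[([z1,z1,z1,z0,z0,z1],z2)],[]]],
    [.old (.lp [k126,(nat_lit 280),(nat_lit 294),k168,(nat_lit 360),(nat_lit 420)] [(nat_lit 308),(nat_lit 238),k196,k196,
    k189,k189,(nat_lit 252),(nat_lit 252),k156,k156,(nat_lit 252),k0] k0 [[],[],[],[],[k0,k0,k0,k0,k0,k0,k0,k0,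
    (nat_lit 315)],[],[],[],[],[k0,k0,k0,k0,k0,(nat_lit 315)]] (nat_lit 840) k6
    [[(k10,k182),(k1,k196)],[(k5,k175)],[(k2,(nat_lit 280))],[(k3,(nat_lit 280))],[(k0,k175)],[(k11,k168),(k7,
    (nat_lit 231)),(k4,(nat_lit 294)),(k8,(nat_lit 327))],[(k7,k168),(k4,(nat_lit 231)),(k11,(nat_lit 420)),(k8,
    (nat_lit 579))],[(k9,(nat_lit 264))],[(k6,(nat_lit 264))],[(k4,(nat_lit 327)),(k8,(nat_lit 360)),(k11,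
    (nat_lit 516)),(k7,(nat_lit 579))],[(k4,k168),(k7,(nat_lit 420)),(k8,(nat_lit 516)),(k11,(nat_lit 672))],[(k10,
    k168),(k1,k182)]]
    [] k0
    [[k1,k0,k1,k0,k0,k1],[k0,k2,k0,k0,k0,k0]]
    [.contra [y1,z1],.contra [z1]]),
    .old (.lp [k6,k8,k6,k6,k6,k12] [k3,k3,k2,k2,k3,k3,k3,k3,k3,k3,k0,k0] k0 [] k24 k5
    [[(k1,k6),(k10,k9)],[(k5,k6)],[(k2,k8)],[(k3,k8)],[(k0,k6)],[(k4,k6),(k7,k6),(k8,k6),(k11,k9)],[(k4,k6),(k7,k6),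
    (k8,k6),(k11,k9)],[(k9,k6)],[(k6,k6)],[(k4,k6),(k7,k6),(k8,k6),(k11,k9)],[(k4,k9),(k7,k9),(k8,k9),(k11,k12)],[(k1,
    k9),(k10,k12)]]
    [] k0
    [[k0,k2,k0,k0,k0,k0],[k0,k0,k0,k1,k1,k0]]
    [.contra [z1],.ref k0 k0 [(z1,[y1,z1])]])]⟩

/-- classes `0 0 1 2 1 3`, types `N0 N1 S0 S0 S0 C0` -/
noncomputable def cU6_1490 : CertX :=
  ⟨[k12,k13,k16,k32,k16,k52],[(false,k0,[k0,k1,k2,k3,k4,k5])],[[[([z1,z1,z1,z0,z0,z1],z2)],[]]],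
    [.old (.lp [k12,k20,k12,k30,k30,k12] [k9,k9,k5,k5,k9,k9,k0,k0,k0,k0,k9,k9] k0 [] k60 k6
    [[(k10,k12)],[(k5,k12)],[(k2,k20)],[(k3,k20)],[(k0,k12)],[(k4,k12),(k11,k12),(k7,k21),(k8,k21)],[(k4,k21),(k11,
    k21),(k7,k30),(k8,k30)],[(k6,k30),(k9,k30)],[(k6,k30),(k9,k30)],[(k4,k21),(k11,k21),(k7,k30),(k8,k30)],[(k4,k12),
    (k11,k12),(k7,k21),(k8,k21)],[(k1,k12)]]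
    [] k0
    [[k1,k0,k1,k0,k0,k1],[k0,k2,k0,k0,k0,k0]]
    [.contra [y1,z1],.contra [z1]]),
    .old (.lp [k8,k8,k6,k12,k6,k6] [k3,k3,k3,k3,k4,k4,k2,k0,k4,k4,k4,k4] k0 [[],[],[],[],[],[k0,k0,k0,k0,k0,k0,k0,k0,k0,
    k4],[],[],[k0,k0,k0,k0,k4]] k24 k5
    [[(k10,k7)],[(k5,k7)],[(k2,k8)],[(k3,k8)],[(k0,k7)],[(k4,k6),(k8,k6),(k7,k10),(k11,k10)],[(k8,k6),(k4,k10),(k11,
    k10),(k7,k14)],[(k9,k8),(k6,k10)],[(k9,k6),(k6,k8)],[(k4,k6),(k7,k6),(k8,k6),(k11,k6)],[(k8,k6),(k11,k6),(k4,k10),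
    (k7,k10)],[(k1,k7)]]
    [] k0
    [[k0,k2,k0,k0,k0,k0],[k0,k0,k0,k1,k1,k0],[k0,k0,k0,k0,k2,k0]]
    [.contra [z1],.ref k0 k0 [(z1,[y1,z1])],.contra [z1]])]⟩

/-- the certificates of this file -/
noncomputable def lU6_27 : List CertX :=
  [cU6_1333, cU6_1334, cU6_1335, cU6_1336, cU6_1337, cU6_1338, cU6_1339, cU6_1340, cU6_1341, cU6_1342,
      cU6_1343, cU6_1344, cU6_1345, cU6_1346, cU6_1347, cU6_1348, cU6_1349, cU6_1350, cU6_1351, cU6_1352,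
      cU6_1353, cU6_1354, cU6_1355, cU6_1356, cU6_1357, cU6_1358, cU6_1359, cU6_1360, cU6_1361, cU6_1362,
      cU6_1363, cU6_1364, cU6_1365, cU6_1366, cU6_1367, cU6_1368, cU6_1369, cU6_1370, cU6_1371, cU6_1372,
      cU6_1373, cU6_1374, cU6_1375, cU6_1376, cU6_1377, cU6_1378, cU6_1379, cU6_1380, cU6_1381, cU6_1382,
      cU6_1383, cU6_1384, cU6_1385, cU6_1386, cU6_1387, cU6_1388, cU6_1389, cU6_1390, cU6_1391, cU6_1392,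
      cU6_1393, cU6_1394, cU6_1395, cU6_1396, cU6_1397, cU6_1398, cU6_1399, cU6_1400, cU6_1401, cU6_1402,
      cU6_1403, cU6_1404, cU6_1405, cU6_1406, cU6_1407, cU6_1408, cU6_1409, cU6_1410, cU6_1411, cU6_1412,
      cU6_1413, cU6_1414, cU6_1415, cU6_1416, cU6_1417, cU6_1418, cU6_1419, cU6_1420, cU6_1421, cU6_1422,
      cU6_1423, cU6_1424, cU6_1425, cU6_1426, cU6_1427, cU6_1428, cU6_1429, cU6_1430, cU6_1431, cU6_1432,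
      cU6_1433, cU6_1434, cU6_1435, cU6_1436, cU6_1437, cU6_1438, cU6_1439, cU6_1440, cU6_1441, cU6_1442,
      cU6_1443, cU6_1444, cU6_1445, cU6_1446, cU6_1447, cU6_1448, cU6_1449, cU6_1450, cU6_1451, cU6_1452,
      cU6_1453, cU6_1454, cU6_1455, cU6_1456, cU6_1457, cU6_1458, cU6_1459, cU6_1460, cU6_1461, cU6_1462,
      cU6_1463, cU6_1464, cU6_1465, cU6_1466, cU6_1467, cU6_1468, cU6_1469, cU6_1470, cU6_1471, cU6_1472,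
      cU6_1473, cU6_1474, cU6_1475, cU6_1476, cU6_1477, cU6_1478, cU6_1479, cU6_1480, cU6_1481, cU6_1482,
      cU6_1483, cU6_1484, cU6_1485, cU6_1486, cU6_1487, cU6_1488, cU6_1489, cU6_1490]

theorem gU6_27 : allF (chkE 6 ttU6) lU6_27 = true := by
  decide +kernel

end Pool.Agent.Lib_MP_fa6e45
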