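import Pool.Agent.Lib_MP_fa6e45.CXT
import Pool.Agent.Lib_MP_fa6e45.HK

/-!
MP_fa6e45_co, stage 7: certificates (generated by a program).
-/

namespace Pool.Agent.Lib_MP_fa6e45

/-- classes `0 0 1 2 1 3`, types `N0 N1 S0 S0 S0 S0` -/
noncomputable def cU6_1491 : CertX :=
  ⟨[k12,k13,k16,k32,k16,k48],[(false,k0,[k0,k1,k2,k3,k4,k5])],[[[([z1,z1,z1,z0,z0,z1],z2)],[]]],
    [.old (.lp [k48,k80,k72,k60,k90,k120] [k72,k72,k56,k56,k50,k70,k66,k66,k51,k51,k72,k0] k0 [[],[],[],[],[k0,k0,k0,k0,k0,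
    k0,k0,k0,k90],[],[],[],[],[k0,k0,k0,k0,k0,k90]] (nat_lit 240) k6
    [[(k1,k48),(k10,k48)],[(k5,k50)],[(k2,k80)],[(k3,k80)],[(k0,k50)],[(k11,k52),(k7,k76),(k8,k91),(k4,k92)],[(k7,
    k60),(k4,k76),(k11,k126),(k8,k165)],[(k6,k60),(k9,k75)],[(k6,k75),(k9,k90)],[(k8,k90),(k4,k91),(k11,k141),(k7,
    k165)],[(k4,k52),(k7,k126),(k8,k141),(k11,k192)],[(k1,k48),(k10,k48)]]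
    [] k0
    [[k1,k0,k1,k0,k0,k1],[k0,k2,k0,k0,k0,k0],[k0,k0,k0,k2,k0,k0],[k0,k0,k0,k0,k2,k0]]
    [.contra [y1,z1],.contra [z1],.contra [z1],.contra [y1,y2,z2]]),
    .old (.lp [k6,k8,k6,k6,k6,k12] [k3,k3,k2,k2,k3,k3,k3,k3,k3,k3,k0,k0] k0 [] k24 k5
    [[(k1,k6),(k10,k9)],[(k5,k6)],[(k2,k8)],[(k3,k8)],[(k0,k6)],[(k4,k6),(k7,k6),(k8,k6),(k11,k9)],[(k4,k6),(k7,k6),
    (k8,k6),(k11,k9)],[(k6,k6),(k9,k6)],[(k6,k6),(k9,k6)],[(k4,k6),(k7,k6),(k8,k6),(k11,k9)],[(k4,k9),(k7,k9),(k8,k9),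
    (k11,k12)],[(k1,k9),(k10,k12)]]
    [] k0
    [[k0,k2,k0,k0,k0,k0],[k0,k0,k0,k2,k0,k0],[k0,k0,k0,k1,k1,k0],[k0,k0,k0,k0,k2,k0]]
    [.contra [z1],.contra [z1],.ref k0 k0 [(z1,[y1,z1])],.contra [z1]])]⟩

/-- classes `0 0 1 2 1 3`, types `N0 N2 B0 C0 B1 C0` -/
noncomputable def cU6_1492 : CertX :=
  ⟨[k12,k14,k24,k36,k25,k52],[(false,k0,[k0,k1,k2,k3,k4,k5])],[[[([z1,z1,z1,z0,z0,z1],z2)],[]]],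
    [.old (.leafM k1 [k2,k5,k0,k1] [] [(k3,k4,z1,[y1,z1]),(k4,k3,z1,[y1,z1])]),
    .old (.lp [k2,k0,k2,k2,k0,k0] [k0,k0,k1,k1,k0,k0,k0,k0,k1,k1,k1,k1] k0 [] k4 k5
    [[(k10,k1)],[(k2,k1)],[(k5,k1)],[(k0,k1)],[(k3,k1)],[(k8,k1),(k11,k1)],[(k8,k1),(k11,k1)],[(k9,k1)],[(k6,k1)],
    [(k4,k1),(k7,k1)],[(k4,k1),(k7,k1)],[(k1,k1)]]
    [] k0
    [[k0,k0,k0,k1,k1,k0]]
    [.ref k0 k0 [(z1,[y1,z1])]])]⟩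

/-- classes `0 0 1 2 1 3`, types `N0 N2 B0 C0 B1 S0` -/
noncomputable def cU6_1493 : CertX :=
  ⟨[k12,k14,k24,k36,k25,k48],[(false,k0,[k0,k1,k2,k3,k4,k5])],[[[([z1,z1,z1,z0,z0,z1],z2)],[]]],
    [.old (.leafM k1 [k2,k5,k0,k1] [] [(k3,k4,z1,[y1,z1]),(k4,k3,z1,[y1,z1])]),
    .old (.lp [k2,k2,k2,k2,k2,k2] [k0,k0,k0,k0,k0,k0,k0,k0,k0,k0,k0,k0] k0 [] k8 k5
    [[(k1,k2),(k10,k2)],[(k2,k2)],[(k5,k2)],[(k0,k2)],[(k3,k2)],[(k8,k2),(k11,k2)],[(k8,k2),(k11,k2)],[(k9,k2)],[(k6,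
    k2)],[(k4,k2),(k7,k2)],[(k4,k2),(k7,k2)],[(k1,k2),(k10,k2)]]
    [] k0
    [[k0,k0,k0,k1,k1,k0]]
    [.ref k0 k0 [(z1,[y1,z1])]])]⟩

/-- classes `0 0 1 2 1 3`, types `N0 N2 B0 S0 B1 C0` -/
noncomputable def cU6_1494 : CertX :=
  ⟨[k12,k14,k24,k32,k25,k52],[(false,k0,[k0,k1,k2,k3,k4,k5])],[[[([z1,z1,z1,z0,z0,z1],z2)],[]]],
    [.old (.leafM k1 [k2,k5,k0,k1] [] [(k3,k4,z1,[y1,z1]),(k4,k3,z1,[y1,z1])]),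
    .old (.lp [k2,k2,k2,k2,k2,k2] [k0,k0,k0,k0,k0,k0,k0,k0,k0,k0,k0,k0] k0 [] k8 k5
    [[(k10,k2)],[(k2,k2)],[(k5,k2)],[(k0,k2)],[(k3,k2)],[(k8,k2),(k11,k2)],[(k8,k2),(k11,k2)],[(k6,k2),(k9,k2)],[(k6,
    k2),(k9,k2)],[(k4,k2),(k7,k2)],[(k4,k2),(k7,k2)],[(k1,k2)]]
    [] k0
    [[k0,k0,k0,k1,k1,k0]]
    [.ref k0 k0 [(z1,[y1,z1])]])]⟩

/-- classes `0 0 1 2 1 3`, types `N0 N2 B0 S0 B1 S0` -/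
noncomputable def cU6_1495 : CertX :=
  ⟨[k12,k14,k24,k32,k25,k48],[(false,k0,[k0,k1,k2,k3,k4,k5])],[[[([z1,z1,z1,z0,z0,z1],z2)],[]]],
    [.old (.leafM k1 [k2,k5,k0,k1] [] [(k3,k4,z1,[y1,z1]),(k4,k3,z1,[y1,z1])]),
    .old (.lp [k2,k2,k2,k2,k2,k2] [k0,k0,k0,k0,k0,k0,k0,k0,k0,k0,k0,k0] k0 [] k8 k5
    [[(k1,k2),(k10,k2)],[(k2,k2)],[(k5,k2)],[(k0,k2)],[(k3,k2)],[(k8,k2),(k11,k2)],[(k8,k2),(k11,k2)],[(k6,k2),(k9,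
    k2)],[(k6,k2),(k9,k2)],[(k4,k2),(k7,k2)],[(k4,k2),(k7,k2)],[(k1,k2),(k10,k2)]]
    [] k0
    [[k0,k0,k0,k1,k1,k0]]
    [.ref k0 k0 [(z1,[y1,z1])]])]⟩

/-- classes `0 0 1 2 1 3`, types `N0 N2 C0 C0 C0 C0` -/
noncomputable def cU6_1496 : CertX :=
  ⟨[k12,k14,k20,k36,k20,k52],[(false,k0,[k0,k1,k2,k3,k4,k5])],[[[([z1,z1,z1,z0,z0,z1],z2)],[]]],
    [.old (.leafM k1 [k2,k5,k0,k1] [] [(k3,k4,z1,[y1,z1]),(k4,k3,z1,[y1,z1])]),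
    .old (.lp [k0,k2,k0,k2,k0,k2] [k1,k1,k0,k0,k1,k1,k0,k0,k1,k1,k0,k0] k0 [] k4 k5
    [[(k10,k1)],[(k2,k1)],[(k5,k1)],[(k0,k1)],[(k3,k1)],[(k7,k1),(k11,k1)],[(k4,k1),(k8,k1)],[(k9,k1)],[(k6,k1)],[(k7,
    k1),(k11,k1)],[(k4,k1),(k8,k1)],[(k1,k1)]]
    [] k0
    [[k0,k0,k0,k1,k1,k0]]
    [.ref k0 k0 [(z1,[y1,z1])]])]⟩

/-- classes `0 0 1 2 1 3`, types `N0 N2 C0 C0 C0 S0` -/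
noncomputable def cU6_1497 : CertX :=
  ⟨[k12,k14,k20,k36,k20,k48],[(false,k0,[k0,k1,k2,k3,k4,k5])],[[[([z1,z1,z1,z0,z0,z1],z2)],[]]],
    [.old (.leafM k1 [k2,k5,k0,k1] [] [(k3,k4,z1,[y1,z1]),(k4,k3,z1,[y1,z1])]),
    .old (.lp [k2,k2,k2,k2,k2,k2] [k0,k0,k0,k0,k0,k0,k0,k0,k0,k0,k0,k0] k0 [] k8 k5
    [[(k1,k2),(k10,k2)],[(k2,k2)],[(k5,k2)],[(k0,k2)],[(k3,k2)],[(k7,k2),(k11,k2)],[(k4,k2),(k8,k2)],[(k9,k2)],[(k6,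
    k2)],[(k7,k2),(k11,k2)],[(k4,k2),(k8,k2)],[(k1,k2),(k10,k2)]]
    [] k0
    [[k0,k0,k0,k1,k1,k0]]
    [.ref k0 k0 [(z1,[y1,z1])]])]⟩

/-- classes `0 0 1 2 1 3`, types `N0 N2 C0 C0 C2 C0` -/
noncomputable def cU6_1498 : CertX :=
  ⟨[k12,k14,k20,k36,k22,k52],[],[[[]]],
    [.old (.lp [k2,k2,k2,k2,k2,k2] [k0,k0,k0,k0,k0,k0,k0,k0,k0,k0,k0,k0] k0 [] k8 k5
    [[(k10,k2)],[(k2,k2)],[(k5,k2)],[(k0,k2)],[(k3,k2)],[(k7,k2),(k8,k2)],[(k4,k2),(k11,k2)],[(k9,k2)],[(k6,k2)],[(k4,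
    k2),(k11,k2)],[(k7,k2),(k8,k2)],[(k1,k2)]]
    [] k0
    []
    [])]⟩

/-- classes `0 0 1 2 1 3`, types `N0 N2 C0 C0 C2 S0` -/
noncomputable def cU6_1499 : CertX :=
  ⟨[k12,k14,k20,k36,k22,k48],[],[[[]]],
    [.old (.lp [k2,k2,k2,k2,k2,k2] [k0,k0,k0,k0,k0,k0,k0,k0,k0,k0,k0,k0] k0 [] k8 k5
    [[(k1,k2),(k10,k2)],[(k2,k2)],[(k5,k2)],[(k0,k2)],[(k3,k2)],[(k7,k2),(k8,k2)],[(k4,k2),(k11,k2)],[(k9,k2)],[(k6,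
    k2)],[(k4,k2),(k11,k2)],[(k7,k2),(k8,k2)],[(k1,k2),(k10,k2)]]
    [] k0
    []
    [])]⟩

/-- classes `0 0 1 2 1 3`, types `N0 N2 C0 S0 C0 C0` -/
noncomputable def cU6_1500 : CertX :=
  ⟨[k12,k14,k20,k32,k20,k52],[(false,k0,[k0,k1,k2,k3,k4,k5])],[[[([z1,z1,z1,z0,z0,z1],z2)],[]]],
    [.old (.leafM k1 [k2,k5,k0,k1] [] [(k3,k4,z1,[y1,z1]),(k4,k3,z1,[y1,z1])]),
    .old (.lp [k2,k2,k2,k2,k2,k2] [k0,k0,k0,k0,k0,k0,k0,k0,k0,k0,k0,k0] k0 [] k8 k5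
    [[(k10,k2)],[(k2,k2)],[(k5,k2)],[(k0,k2)],[(k3,k2)],[(k7,k2),(k11,k2)],[(k4,k2),(k8,k2)],[(k6,k2),(k9,k2)],[(k6,
    k2),(k9,k2)],[(k7,k2),(k11,k2)],[(k4,k2),(k8,k2)],[(k1,k2)]]
    [] k0
    [[k0,k0,k0,k1,k1,k0]]
    [.ref k0 k0 [(z1,[y1,z1])]])]⟩

/-- classes `0 0 1 2 1 3`, types `N0 N2 C0 S0 C0 S0` -/
noncomputable def cU6_1501 : CertX :=
  ⟨[k12,k14,k20,k32,k20,k48],[(false,k0,[k0,k1,k2,k3,k4,k5])],[[[([z1,z1,z1,z0,z0,z1],z2)],[]]],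
    [.old (.leafM k1 [k2,k5,k0,k1] [] [(k3,k4,z1,[y1,z1]),(k4,k3,z1,[y1,z1])]),
    .old (.lp [k2,k2,k2,k2,k2,k2] [k0,k0,k0,k0,k0,k0,k0,k0,k0,k0,k0,k0] k0 [] k8 k5
    [[(k1,k2),(k10,k2)],[(k2,k2)],[(k5,k2)],[(k0,k2)],[(k3,k2)],[(k7,k2),(k11,k2)],[(k4,k2),(k8,k2)],[(k6,k2),(k9,
    k2)],[(k6,k2),(k9,k2)],[(k7,k2),(k11,k2)],[(k4,k2),(k8,k2)],[(k1,k2),(k10,k2)]]
    [] k0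
    [[k0,k0,k0,k1,k1,k0]]
    [.ref k0 k0 [(z1,[y1,z1])]])]⟩

/-- classes `0 0 1 2 1 3`, types `N0 N2 C0 S0 C2 C0` -/
noncomputable def cU6_1502 : CertX :=
  ⟨[k12,k14,k20,k32,k22,k52],[],[[[]]],
    [.old (.lp [k2,k2,k2,k2,k2,k2] [k0,k0,k0,k0,k0,k0,k0,k0,k0,k0,k0,k0] k0 [] k8 k5
    [[(k10,k2)],[(k2,k2)],[(k5,k2)],[(k0,k2)],[(k3,k2)],[(k7,k2),(k8,k2)],[(k4,k2),(k11,k2)],[(k6,k2),(k9,k2)],[(k6,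
    k2),(k9,k2)],[(k4,k2),(k11,k2)],[(k7,k2),(k8,k2)],[(k1,k2)]]
    [] k0
    []
    [])]⟩

/-- classes `0 0 1 2 1 3`, types `N0 N2 C0 S0 C2 S0` -/
noncomputable def cU6_1503 : CertX :=
  ⟨[k12,k14,k20,k32,k22,k48],[],[[[]]],
    [.old (.lp [k2,k2,k2,k2,k2,k2] [k0,k0,k0,k0,k0,k0,k0,k0,k0,k0,k0,k0] k0 [] k8 k5
    [[(k1,k2),(k10,k2)],[(k2,k2)],[(k5,k2)],[(k0,k2)],[(k3,k2)],[(k7,k2),(k8,k2)],[(k4,k2),(k11,k2)],[(k6,k2),(k9,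
    k2)],[(k6,k2),(k9,k2)],[(k4,k2),(k11,k2)],[(k7,k2),(k8,k2)],[(k1,k2),(k10,k2)]]
    [] k0
    []
    [])]⟩

/-- classes `0 0 1 2 1 3`, types `N0 N2 N0 C0 N1 C0` -/
noncomputable def cU6_1504 : CertX :=
  ⟨[k12,k14,k28,k36,k29,k52],[(false,k0,[k0,k1,k2,k3,k4,k5])],[[[([z1,z1,z1,z0,z0,z1],z2)],[]]],
    [.old (.leafM k1 [k2,k5,k0,k1] [] [(k3,k4,z1,[y1,z1]),(k4,k3,z1,[y1,z1])]),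
    .old (.lp [k0,k2,k0,k0,k2,k2] [k1,k1,k0,k0,k1,k1,k1,k1,k0,k0,k0,k0] k0 [] k4 k5
    [[(k10,k1)],[(k2,k1)],[(k5,k1)],[(k0,k1)],[(k3,k1)],[(k11,k1)],[(k8,k1)],[(k9,k1)],[(k6,k1)],[(k7,k1)],[(k4,k1)],
    [(k1,k1)]]
    [] k0
    [[k0,k0,k0,k1,k1,k0]]
    [.ref k0 k0 [(z1,[y1,z1])]])]⟩

/-- classes `0 0 1 2 1 3`, types `N0 N2 N0 C0 N1 S0` -/
noncomputable def cU6_1505 : CertX :=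
  ⟨[k12,k14,k28,k36,k29,k48],[(false,k0,[k0,k1,k2,k3,k4,k5])],[[[([z1,z1,z1,z0,z0,z1],z2)],[]]],
    [.old (.leafM k1 [k2,k5,k0,k1] [] [(k3,k4,z1,[y1,z1]),(k4,k3,z1,[y1,z1])]),
    .old (.lp [k2,k2,k2,k4,k0,k2] [k1,k1,k1,k1,k1,k1,k0,k0,k2,k2,k1,k1] k0 [] k8 k5
    [[(k1,k2),(k10,k2)],[(k2,k2)],[(k5,k2)],[(k0,k2)],[(k3,k2)],[(k11,k2)],[(k8,k2)],[(k9,k2)],[(k6,k2)],[(k7,k2)],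
    [(k4,k2)],[(k1,k2),(k10,k2)]]
    [] k0
    [[k0,k0,k0,k1,k1,k0]]
    [.ref k0 k0 [(z1,[y1,z1])]])]⟩

/-- classes `0 0 1 2 1 3`, types `N0 N2 N0 C0 N2 C0` -/
noncomputable def cU6_1506 : CertX :=
  ⟨[k12,k14,k28,k36,k30,k52],[],[[[]]],
    [.old (.lp [k0,k2,k0,k0,k2,k2] [k1,k1,k0,k0,k1,k1,k1,k1,k0,k0,k0,k0] k0 [] k4 k5
    [[(k10,k1)],[(k2,k1)],[(k5,k1)],[(k0,k1)],[(k3,k1)],[(k8,k1)],[(k11,k1)],[(k9,k1)],[(k6,k1)],[(k4,k1)],[(k7,k1)],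
    [(k1,k1)]]
    [] k0
    []
    [])]⟩

/-- classes `0 0 1 2 1 3`, types `N0 N2 N0 C0 N2 S0` -/
noncomputable def cU6_1507 : CertX :=
  ⟨[k12,k14,k28,k36,k30,k48],[],[[[]]],
    [.old (.lp [k2,k2,k2,k2,k2,k2] [k0,k0,k0,k0,k0,k0,k0,k0,k0,k0,k0,k0] k0 [] k8 k5
    [[(k1,k2),(k10,k2)],[(k2,k2)],[(k5,k2)],[(k0,k2)],[(k3,k2)],[(k8,k2)],[(k11,k2)],[(k9,k2)],[(k6,k2)],[(k4,k2)],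
    [(k7,k2)],[(k1,k2),(k10,k2)]]
    [] k0
    []
    [])]⟩

/-- classes `0 0 1 2 1 3`, types `N0 N2 N0 S0 N1 C0` -/
noncomputable def cU6_1508 : CertX :=
  ⟨[k12,k14,k28,k32,k29,k52],[(false,k0,[k0,k1,k2,k3,k4,k5])],[[[([z1,z1,z1,z0,z0,z1],z2)],[]]],
    [.old (.leafM k1 [k2,k5,k0,k1] [] [(k3,k4,z1,[y1,z1]),(k4,k3,z1,[y1,z1])]),
    .old (.lp [k4,k0,k4,k2,k2,k0] [k0,k0,k2,k2,k0,k0,k1,k1,k1,k1,k2,k2] k0 [] k8 k5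
    [[(k10,k2)],[(k2,k2)],[(k5,k2)],[(k0,k2)],[(k3,k2)],[(k11,k2)],[(k8,k2)],[(k6,k2),(k9,k2)],[(k6,k2),(k9,k2)],[(k7,
    k2)],[(k4,k2)],[(k1,k2)]]
    [] k0
    [[k0,k0,k0,k1,k1,k0]]
    [.ref k0 k0 [(z1,[y1,z1])]])]⟩

/-- classes `0 0 1 2 1 3`, types `N0 N2 N0 S0 N1 S0` -/
noncomputable def cU6_1509 : CertX :=
  ⟨[k12,k14,k28,k32,k29,k48],[(false,k0,[k0,k1,k2,k3,k4,k5])],[[[([z1,z1,z1,z0,z0,z1],z2)],[]]],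
    [.old (.leafM k1 [k2,k5,k0,k1] [] [(k3,k4,z1,[y1,z1]),(k4,k3,z1,[y1,z1])]),
    .old (.lp [k2,k2,k2,k2,k2,k2] [k0,k0,k0,k0,k0,k0,k0,k0,k0,k0,k0,k0] k0 [] k8 k5
    [[(k1,k2),(k10,k2)],[(k2,k2)],[(k5,k2)],[(k0,k2)],[(k3,k2)],[(k11,k2)],[(k8,k2)],[(k6,k2),(k9,k2)],[(k6,k2),(k9,
    k2)],[(k7,k2)],[(k4,k2)],[(k1,k2),(k10,k2)]]
    [] k0
    [[k0,k0,k0,k1,k1,k0]]
    [.ref k0 k0 [(z1,[y1,z1])]])]⟩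

/-- classes `0 0 1 2 1 3`, types `N0 N2 N0 S0 N2 C0` -/
noncomputable def cU6_1510 : CertX :=
  ⟨[k12,k14,k28,k32,k30,k52],[],[[[]]],
    [.old (.lp [k2,k2,k2,k2,k2,k2] [k0,k0,k0,k0,k0,k0,k0,k0,k0,k0,k0,k0] k0 [] k8 k5
    [[(k10,k2)],[(k2,k2)],[(k5,k2)],[(k0,k2)],[(k3,k2)],[(k8,k2)],[(k11,k2)],[(k6,k2),(k9,k2)],[(k6,k2),(k9,k2)],[(k4,
    k2)],[(k7,k2)],[(k1,k2)]]
    [] k0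
    []
    [])]⟩

/-- classes `0 0 1 2 1 3`, types `N0 N2 N0 S0 N2 S0` -/
noncomputable def cU6_1511 : CertX :=
  ⟨[k12,k14,k28,k32,k30,k48],[],[[[]]],
    [.old (.lp [k2,k2,k2,k2,k2,k2] [k0,k0,k0,k0,k0,k0,k0,k0,k0,k0,k0,k0] k0 [] k8 k5
    [[(k1,k2),(k10,k2)],[(k2,k2)],[(k5,k2)],[(k0,k2)],[(k3,k2)],[(k8,k2)],[(k11,k2)],[(k6,k2),(k9,k2)],[(k6,k2),(k9,
    k2)],[(k4,k2)],[(k7,k2)],[(k1,k2),(k10,k2)]]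
    [] k0
    []
    [])]⟩

/-- classes `0 0 1 2 1 3`, types `N0 N2 S0 C0 S0 C0` -/
noncomputable def cU6_1512 : CertX :=
  ⟨[k12,k14,k16,k36,k16,k52],[(false,k0,[k0,k1,k2,k3,k4,k5])],[[[([z1,z1,z1,z0,z0,z1],z2)],[]]],
    [.old (.leafM k1 [k2,k5,k0,k1] [] [(k3,k4,z1,[y1,z1]),(k4,k3,z1,[y1,z1])]),
    .old (.lp [k2,k2,k2,k2,k2,k2] [k0,k0,k0,k0,k0,k0,k0,k0,k0,k0,k0,k0] k0 [] k8 k5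
    [[(k10,k2)],[(k2,k2)],[(k5,k2)],[(k0,k2)],[(k3,k2)],[(k4,k2),(k7,k2),(k8,k2),(k11,k2)],[(k4,k2),(k7,k2),(k8,k2),
    (k11,k2)],[(k9,k2)],[(k6,k2)],[(k4,k2),(k7,k2),(k8,k2),(k11,k2)],[(k4,k2),(k7,k2),(k8,k2),(k11,k2)],[(k1,k2)]]
    [] k0
    [[k0,k0,k0,k1,k1,k0]]
    [.ref k0 k0 [(z1,[y1,z1])]])]⟩

/-- classes `0 0 1 2 1 3`, types `N0 N2 S0 C0 S0 S0` -/
noncomputable def cU6_1513 : CertX :=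
  ⟨[k12,k14,k16,k36,k16,k48],[(false,k0,[k0,k1,k2,k3,k4,k5])],[[[([z1,z1,z1,z0,z0,z1],z2)],[]]],
    [.old (.leafM k1 [k2,k5,k0,k1] [] [(k3,k4,z1,[y1,z1]),(k4,k3,z1,[y1,z1])]),
    .old (.lp [k2,k2,k2,k2,k2,k4] [k1,k1,k1,k1,k1,k1,k1,k1,k1,k1,k0,k0] k0 [] k8 k5
    [[(k1,k2),(k10,k3)],[(k2,k2)],[(k5,k2)],[(k0,k2)],[(k3,k2)],[(k4,k2),(k7,k2),(k8,k2),(k11,k3)],[(k4,k2),(k7,k2),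
    (k8,k2),(k11,k3)],[(k9,k2)],[(k6,k2)],[(k4,k2),(k7,k2),(k8,k2),(k11,k3)],[(k4,k3),(k7,k3),(k8,k3),(k11,k4)],[(k1,
    k3),(k10,k4)]]
    [] k0
    [[k0,k0,k0,k1,k1,k0]]
    [.ref k0 k0 [(z1,[y1,z1])]])]⟩

/-- classes `0 0 1 2 1 3`, types `N0 N2 S0 S0 S0 C0` -/
noncomputable def cU6_1514 : CertX :=
  ⟨[k12,k14,k16,k32,k16,k52],[(false,k0,[k0,k1,k2,k3,k4,k5])],[[[([z1,z1,z1,z0,z0,z1],z2)],[]]],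
    [.old (.leafM k1 [k2,k5,k0,k1] [] [(k3,k4,z1,[y1,z1]),(k4,k3,z1,[y1,z1])]),
    .old (.lp [k2,k2,k2,k4,k2,k2] [k1,k1,k1,k1,k1,k1,k0,k0,k1,k1,k1,k1] k0 [] k8 k5
    [[(k10,k2)],[(k2,k2)],[(k5,k2)],[(k0,k2)],[(k3,k2)],[(k4,k2),(k8,k2),(k11,k2),(k7,k3)],[(k4,k3),(k8,k3),(k11,k3),
    (k7,k4)],[(k9,k3),(k6,k4)],[(k9,k2),(k6,k3)],[(k4,k2),(k8,k2),(k11,k2),(k7,k3)],[(k4,k2),(k8,k2),(k11,k2),(k7,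
    k3)],[(k1,k2)]]
    [] k0
    [[k0,k0,k0,k1,k1,k0],[k0,k0,k0,k0,k2,k0]]
    [.ref k0 k0 [(z1,[y1,z1])],.contra [z1]])]⟩

/-- classes `0 0 1 2 1 3`, types `N0 N2 S0 S0 S0 S0` -/
noncomputable def cU6_1515 : CertX :=
  ⟨[k12,k14,k16,k32,k16,k48],[(false,k0,[k0,k1,k2,k3,k4,k5])],[[[([z1,z1,z1,z0,z0,z1],z2)],[]]],
    [.old (.leafM k1 [k2,k5,k0,k1] [] [(k3,k4,z1,[y1,z1]),(k4,k3,z1,[y1,z1])]),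
    .old (.lp [k2,k2,k2,k2,k4,k2] [k1,k1,k1,k1,k1,k1,k1,k1,k0,k0,k1,k1] k0 [] k8 k5
    [[(k1,k2),(k10,k2)],[(k2,k2)],[(k5,k2)],[(k0,k2)],[(k3,k2)],[(k4,k2),(k7,k2),(k11,k2),(k8,k3)],[(k4,k2),(k7,k2),
    (k11,k2),(k8,k3)],[(k6,k2),(k9,k3)],[(k6,k3),(k9,k4)],[(k4,k3),(k7,k3),(k11,k3),(k8,k4)],[(k4,k2),(k7,k2),(k11,
    k2),(k8,k3)],[(k1,k2),(k10,k2)]]
    [] k0
    [[k0,k0,k0,k2,k0,k0],[k0,k0,k0,k1,k1,k0],[k0,k0,k0,k0,k0,k2]]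
    [.contra [z1],.ref k0 k0 [(z1,[y1,z1])],.contra [z1]])]⟩

/-- classes `0 0 1 2 1 3`, types `S0 S0 B0 C0 B1 C0` -/
noncomputable def cU6_1516 : CertX :=
  ⟨[k0,k0,k24,k36,k25,k52],[(false,k0,[k0,k1,k2,k3,k4,k5])],[[[([z1,z1,z1,z0,z0,z1],z2)],[]]],
    [.old (.leafM k0 [k0,k1,k2,k5] [] [(k3,k4,z1,[y1,z1]),(k4,k3,z1,[y1,z1])]),
    .old (.lp [k6,k8,k6,k0,k12,k12] [k3,k3,k2,k2,k3,k3,k6,k6,k0,k0,k0,k0] k0 [] k24 k5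
    [[(k10,k9)],[(k0,k6),(k5,k6),(k2,k7),(k3,k7)],[(k0,k7),(k5,k7),(k2,k8),(k3,k8)],[(k0,k7),(k5,k7),(k2,k8),(k3,k8)],
    [(k0,k6),(k5,k6),(k2,k7),(k3,k7)],[(k8,k9),(k11,k9)],[(k8,k6),(k11,k6)],[(k9,k6)],[(k6,k6)],[(k7,k6),(k4,k9)],
    [(k7,k6),(k4,k9)],[(k1,k9)]]
    [] k0
    [[k0,k2,k0,k0,k0,k0],[k0,k0,k0,k1,k1,k0]]
    [.contra [z1],.ref k0 k0 [(z1,[y1,z1])]])]⟩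

/-- classes `0 0 1 2 1 3`, types `S0 S0 B0 C0 B1 S0` -/
noncomputable def cU6_1517 : CertX :=
  ⟨[k0,k0,k24,k36,k25,k48],[(false,k0,[k0,k1,k2,k3,k4,k5])],[[[([z1,z1,z1,z0,z0,z1],z2)],[]]],
    [.old (.leafM k0 [k0,k1,k2,k5] [] [(k3,k4,z1,[y1,z1]),(k4,k3,z1,[y1,z1])]),
    .old (.lp [k12,k8,k6,k6,k6,k6] [k0,k0,k2,k2,k3,k3,k3,k3,k3,k3,k3,k3] k0 [] k24 k5
    [[(k10,k9),(k1,k12)],[(k5,k9),(k2,k10),(k3,k10),(k0,k12)],[(k5,k7),(k2,k8),(k3,k8),(k0,k10)],[(k5,k7),(k2,k8),(k3,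
    k8),(k0,k10)],[(k5,k6),(k2,k7),(k3,k7),(k0,k9)],[(k8,k6),(k11,k6)],[(k8,k6),(k11,k6)],[(k9,k6)],[(k6,k6)],[(k4,
    k6),(k7,k6)],[(k4,k6),(k7,k6)],[(k10,k6),(k1,k9)]]
    [] k0
    [[k0,k2,k0,k0,k0,k0],[k0,k0,k0,k1,k1,k0]]
    [.contra [z1],.ref k0 k0 [(z1,[y1,z1])]])]⟩

/-- classes `0 0 1 2 1 3`, types `S0 S0 B0 S0 B1 C0` -/
noncomputable def cU6_1518 : CertX :=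
  ⟨[k0,k0,k24,k32,k25,k52],[(false,k0,[k0,k1,k2,k3,k4,k5])],[[[([z1,z1,z1,z0,z0,z1],z2)],[]]],
    [.old (.leafM k0 [k0,k1,k2,k5] [] [(k3,k4,z1,[y1,z1]),(k4,k3,z1,[y1,z1])]),
    .old (.lp [k12,k8,k6,k6,k6,k6] [k0,k0,k2,k2,k3,k3,k3,k3,k3,k3,k3,k3] k0 [] k24 k5
    [[(k10,k9)],[(k5,k9),(k2,k10),(k3,k10),(k0,k12)],[(k5,k7),(k2,k8),(k3,k8),(k0,k10)],[(k5,k7),(k2,k8),(k3,k8),(k0,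
    k10)],[(k5,k6),(k2,k7),(k3,k7),(k0,k9)],[(k8,k6),(k11,k6)],[(k8,k6),(k11,k6)],[(k6,k6),(k9,k6)],[(k6,k6),(k9,k6)],
    [(k4,k6),(k7,k6)],[(k4,k6),(k7,k6)],[(k1,k9)]]
    [] k0
    [[k0,k2,k0,k0,k0,k0],[k0,k0,k0,k1,k1,k0]]
    [.contra [z1],.ref k0 k0 [(z1,[y1,z1])]])]⟩

/-- classes `0 0 1 2 1 3`, types `S0 S0 B0 S0 B1 S0` -/
noncomputable def cU6_1519 : CertX :=
  ⟨[k0,k0,k24,k32,k25,k48],[(false,k0,[k0,k1,k2,k3,k4,k5])],[[[([z1,z1,z1,z0,z0,z1],z2)],[]]],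
    [.old (.leafM k0 [k0,k1,k2,k5] [] [(k3,k4,z1,[y1,z1]),(k4,k3,z1,[y1,z1])]),
    .old (.lp [k12,k8,k6,k6,k6,k6] [k0,k0,k2,k2,k3,k3,k3,k3,k3,k3,k3,k3] k0 [] k24 k5
    [[(k10,k9),(k1,k12)],[(k5,k9),(k2,k10),(k3,k10),(k0,k12)],[(k5,k7),(k2,k8),(k3,k8),(k0,k10)],[(k5,k7),(k2,k8),(k3,
    k8),(k0,k10)],[(k5,k6),(k2,k7),(k3,k7),(k0,k9)],[(k8,k6),(k11,k6)],[(k8,k6),(k11,k6)],[(k6,k6),(k9,k6)],[(k6,k6),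
    (k9,k6)],[(k4,k6),(k7,k6)],[(k4,k6),(k7,k6)],[(k10,k6),(k1,k9)]]
    [] k0
    [[k0,k2,k0,k0,k0,k0],[k0,k0,k0,k1,k1,k0]]
    [.contra [z1],.ref k0 k0 [(z1,[y1,z1])]])]⟩

/-- classes `0 0 1 2 1 3`, types `S0 S0 C0 C0 C0 C0` -/
noncomputable def cU6_1520 : CertX :=
  ⟨[k0,k0,k20,k36,k20,k52],[(false,k0,[k0,k1,k2,k3,k4,k5])],[[[([z1,z1,z1,z0,z0,z1],z2)],[]]],
    [.old (.leafM k0 [k0,k1,k2,k5] [] [(k3,k4,z1,[y1,z1]),(k4,k3,z1,[y1,z1])]),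
    .old (.lp [k6,k8,k6,k12,k0,k12] [k3,k3,k2,k2,k3,k3,k0,k0,k6,k6,k0,k0] k0 [] k24 k5
    [[(k10,k9)],[(k0,k6),(k5,k6),(k2,k7),(k3,k7)],[(k0,k7),(k5,k7),(k2,k8),(k3,k8)],[(k0,k7),(k5,k7),(k2,k8),(k3,k8)],
    [(k0,k6),(k5,k6),(k2,k7),(k3,k7)],[(k7,k9),(k11,k9)],[(k8,k6),(k4,k9)],[(k9,k6)],[(k6,k6)],[(k7,k6),(k11,k6)],
    [(k8,k6),(k4,k9)],[(k1,k9)]]
    [] k0
    [[k0,k2,k0,k0,k0,k0],[k0,k0,k0,k1,k1,k0]]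
    [.contra [z1],.ref k0 k0 [(z1,[y1,z1])]])]⟩

/-- classes `0 0 1 2 1 3`, types `S0 S0 C0 C0 C0 S0` -/
noncomputable def cU6_1521 : CertX :=
  ⟨[k0,k0,k20,k36,k20,k48],[(false,k0,[k0,k1,k2,k3,k4,k5])],[[[([z1,z1,z1,z0,z0,z1],z2)],[]]],
    [.old (.leafM k0 [k0,k1,k2,k5] [] [(k3,k4,z1,[y1,z1]),(k4,k3,z1,[y1,z1])]),
    .old (.lp [k12,k8,k6,k6,k6,k6] [k0,k0,k2,k2,k3,k3,k3,k3,k3,k3,k3,k3] k0 [] k24 k5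
    [[(k10,k9),(k1,k12)],[(k5,k9),(k2,k10),(k3,k10),(k0,k12)],[(k5,k7),(k2,k8),(k3,k8),(k0,k10)],[(k5,k7),(k2,k8),(k3,
    k8),(k0,k10)],[(k5,k6),(k2,k7),(k3,k7),(k0,k9)],[(k7,k6),(k11,k6)],[(k4,k6),(k8,k6)],[(k9,k6)],[(k6,k6)],[(k7,k6),
    (k11,k6)],[(k4,k6),(k8,k6)],[(k10,k6),(k1,k9)]]
    [] k0
    [[k0,k2,k0,k0,k0,k0],[k0,k0,k0,k1,k1,k0]]
    [.contra [z1],.ref k0 k0 [(z1,[y1,z1])]])]⟩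

/-- classes `0 0 1 2 1 3`, types `S0 S0 C0 C0 C2 C0` -/
noncomputable def cU6_1522 : CertX :=
  ⟨[k0,k0,k20,k36,k22,k52],[],[[[]]],
    [.old (.lp [k2,k4,k2,k2,k2,k2] [k1,k1,k0,k0,k1,k1,k1,k1,k1,k1,k1,k1] k0 [] k8 k5
    [[(k10,k2)],[(k0,k2),(k5,k2),(k2,k3),(k3,k3)],[(k0,k3),(k5,k3),(k2,k4),(k3,k4)],[(k0,k3),(k5,k3),(k2,k4),(k3,k4)],
    [(k0,k2),(k5,k2),(k2,k3),(k3,k3)],[(k7,k2),(k8,k2)],[(k4,k2),(k11,k2)],[(k9,k2)],[(k6,k2)],[(k4,k2),(k11,k2)],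
    [(k7,k2),(k8,k2)],[(k1,k2)]]
    [] k0
    []
    [])]⟩

/-- classes `0 0 1 2 1 3`, types `S0 S0 C0 C0 C2 S0` -/
noncomputable def cU6_1523 : CertX :=
  ⟨[k0,k0,k20,k36,k22,k48],[],[[[]]],
    [.old (.lp [k12,k8,k6,k6,k6,k6] [k0,k0,k2,k2,k3,k3,k3,k3,k3,k3,k3,k3] k0 [] k24 k5
    [[(k10,k9),(k1,k12)],[(k5,k9),(k2,k10),(k3,k10),(k0,k12)],[(k5,k7),(k2,k8),(k3,k8),(k0,k10)],[(k5,k7),(k2,k8),(k3,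
    k8),(k0,k10)],[(k5,k6),(k2,k7),(k3,k7),(k0,k9)],[(k7,k6),(k8,k6)],[(k4,k6),(k11,k6)],[(k9,k6)],[(k6,k6)],[(k4,k6),
    (k11,k6)],[(k7,k6),(k8,k6)],[(k10,k6),(k1,k9)]]
    [] k0
    [[k0,k2,k0,k0,k0,k0]]
    [.contra [z1]])]⟩

/-- classes `0 0 1 2 1 3`, types `S0 S0 C0 S0 C0 C0` -/
noncomputable def cU6_1524 : CertX :=
  ⟨[k0,k0,k20,k32,k20,k52],[(false,k0,[k0,k1,k2,k3,k4,k5])],[[[([z1,z1,z1,z0,z0,z1],z2)],[]]],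
    [.old (.leafM k0 [k0,k1,k2,k5] [] [(k3,k4,z1,[y1,z1]),(k4,k3,z1,[y1,z1])]),
    .old (.lp [k12,k8,k6,k6,k6,k6] [k0,k0,k2,k2,k3,k3,k3,k3,k3,k3,k3,k3] k0 [] k24 k5
    [[(k10,k9)],[(k5,k9),(k2,k10),(k3,k10),(k0,k12)],[(k5,k7),(k2,k8),(k3,k8),(k0,k10)],[(k5,k7),(k2,k8),(k3,k8),(k0,
    k10)],[(k5,k6),(k2,k7),(k3,k7),(k0,k9)],[(k7,k6),(k11,k6)],[(k4,k6),(k8,k6)],[(k6,k6),(k9,k6)],[(k6,k6),(k9,k6)],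
    [(k7,k6),(k11,k6)],[(k4,k6),(k8,k6)],[(k1,k9)]]
    [] k0
    [[k0,k2,k0,k0,k0,k0],[k0,k0,k0,k1,k1,k0]]
    [.contra [z1],.ref k0 k0 [(z1,[y1,z1])]])]⟩

/-- classes `0 0 1 2 1 3`, types `S0 S0 C0 S0 C0 S0` -/
noncomputable def cU6_1525 : CertX :=
  ⟨[k0,k0,k20,k32,k20,k48],[(false,k0,[k0,k1,k2,k3,k4,k5])],[[[([z1,z1,z1,z0,z0,z1],z2)],[]]],
    [.old (.leafM k0 [k0,k1,k2,k5] [] [(k3,k4,z1,[y1,z1]),(k4,k3,z1,[y1,z1])]),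
    .old (.lp [k12,k8,k6,k6,k6,k6] [k0,k0,k2,k2,k3,k3,k3,k3,k3,k3,k3,k3] k0 [] k24 k5
    [[(k10,k9),(k1,k12)],[(k5,k9),(k2,k10),(k3,k10),(k0,k12)],[(k5,k7),(k2,k8),(k3,k8),(k0,k10)],[(k5,k7),(k2,k8),(k3,
    k8),(k0,k10)],[(k5,k6),(k2,k7),(k3,k7),(k0,k9)],[(k7,k6),(k11,k6)],[(k4,k6),(k8,k6)],[(k6,k6),(k9,k6)],[(k6,k6),
    (k9,k6)],[(k7,k6),(k11,k6)],[(k4,k6),(k8,k6)],[(k10,k6),(k1,k9)]]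
    [] k0
    [[k0,k2,k0,k0,k0,k0],[k0,k0,k0,k1,k1,k0]]
    [.contra [z1],.ref k0 k0 [(z1,[y1,z1])]])]⟩

/-- classes `0 0 1 2 1 3`, types `S0 S0 C0 S0 C2 C0` -/
noncomputable def cU6_1526 : CertX :=
  ⟨[k0,k0,k20,k32,k22,k52],[],[[[]]],
    [.old (.lp [k2,k4,k2,k2,k2,k2] [k1,k1,k0,k0,k1,k1,k1,k1,k1,k1,k1,k1] k0 [] k8 k5
    [[(k10,k2)],[(k0,k2),(k5,k2),(k2,k3),(k3,k3)],[(k0,k3),(k5,k3),(k2,k4),(k3,k4)],[(k0,k3),(k5,k3),(k2,k4),(k3,k4)],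
    [(k0,k2),(k5,k2),(k2,k3),(k3,k3)],[(k7,k2),(k8,k2)],[(k4,k2),(k11,k2)],[(k6,k2),(k9,k2)],[(k6,k2),(k9,k2)],[(k4,
    k2),(k11,k2)],[(k7,k2),(k8,k2)],[(k1,k2)]]
    [] k0
    []
    [])]⟩

/-- classes `0 0 1 2 1 3`, types `S0 S0 C0 S0 C2 S0` -/
noncomputable def cU6_1527 : CertX :=
  ⟨[k0,k0,k20,k32,k22,k48],[],[[[]]],
    [.old (.lp [k12,k8,k6,k6,k6,k6] [k0,k0,k2,k2,k3,k3,k3,k3,k3,k3,k3,k3] k0 [] k24 k5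
    [[(k10,k9),(k1,k12)],[(k5,k9),(k2,k10),(k3,k10),(k0,k12)],[(k5,k7),(k2,k8),(k3,k8),(k0,k10)],[(k5,k7),(k2,k8),(k3,
    k8),(k0,k10)],[(k5,k6),(k2,k7),(k3,k7),(k0,k9)],[(k7,k6),(k8,k6)],[(k4,k6),(k11,k6)],[(k6,k6),(k9,k6)],[(k6,k6),
    (k9,k6)],[(k4,k6),(k11,k6)],[(k7,k6),(k8,k6)],[(k10,k6),(k1,k9)]]
    [] k0
    [[k0,k2,k0,k0,k0,k0]]
    [.contra [z1]])]⟩

/-- classes `0 0 1 2 1 3`, types `S0 S0 N0 C0 N1 C0` -/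
noncomputable def cU6_1528 : CertX :=
  ⟨[k0,k0,k28,k36,k29,k52],[(false,k0,[k0,k1,k2,k3,k4,k5])],[[[([z1,z1,z1,z0,z0,z1],z2)],[]]],
    [.old (.leafM k0 [k0,k1,k2,k5] [] [(k3,k4,z1,[y1,z1]),(k4,k3,z1,[y1,z1])]),
    .old (.lp [k6,k8,k6,k12,k0,k12] [k3,k3,k2,k2,k3,k3,k0,k0,k6,k6,k0,k0] k0 [] k24 k5
    [[(k10,k9)],[(k0,k6),(k5,k6),(k2,k7),(k3,k7)],[(k0,k7),(k5,k7),(k2,k8),(k3,k8)],[(k0,k7),(k5,k7),(k2,k8),(k3,k8)],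
    [(k0,k6),(k5,k6),(k2,k7),(k3,k7)],[(k11,k9)],[(k8,k6)],[(k9,k6)],[(k6,k6)],[(k7,k6)],[(k4,k9)],[(k1,k9)]]
    [] k0
    [[k0,k2,k0,k0,k0,k0],[k0,k0,k0,k1,k1,k0]]
    [.contra [z1],.ref k0 k0 [(z1,[y1,z1])]])]⟩

/-- classes `0 0 1 2 1 3`, types `S0 S0 N0 C0 N1 S0` -/
noncomputable def cU6_1529 : CertX :=
  ⟨[k0,k0,k28,k36,k29,k48],[(false,k0,[k0,k1,k2,k3,k4,k5])],[[[([z1,z1,z1,z0,z0,z1],z2)],[]]],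
    [.old (.leafM k0 [k0,k1,k2,k5] [] [(k3,k4,z1,[y1,z1]),(k4,k3,z1,[y1,z1])]),
    .old (.lp [k12,k8,k6,k0,k12,k6] [k0,k0,k2,k2,k3,k3,k6,k6,k0,k0,k3,k3] k0 [] k24 k5
    [[(k10,k9),(k1,k12)],[(k5,k9),(k2,k10),(k3,k10),(k0,k12)],[(k5,k7),(k2,k8),(k3,k8),(k0,k10)],[(k5,k7),(k2,k8),(k3,
    k8),(k0,k10)],[(k5,k6),(k2,k7),(k3,k7),(k0,k9)],[(k11,k6)],[(k8,k6)],[(k9,k6)],[(k6,k6)],[(k7,k6)],[(k4,k6)],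
    [(k10,k6),(k1,k9)]]
    [] k0
    [[k0,k2,k0,k0,k0,k0],[k0,k0,k0,k1,k1,k0]]
    [.contra [z1],.ref k0 k0 [(z1,[y1,z1])]])]⟩

/-- classes `0 0 1 2 1 3`, types `S0 S0 N0 C0 N2 C0` -/
noncomputable def cU6_1530 : CertX :=
  ⟨[k0,k0,k28,k36,k30,k52],[],[[[]]],
    [.old (.lp [k2,k4,k2,k2,k2,k2] [k1,k1,k0,k0,k1,k1,k1,k1,k1,k1,k1,k1] k0 [] k8 k5
    [[(k10,k2)],[(k0,k2),(k5,k2),(k2,k3),(k3,k3)],[(k0,k3),(k5,k3),(k2,k4),(k3,k4)],[(k0,k3),(k5,k3),(k2,k4),(k3,k4)],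
    [(k0,k2),(k5,k2),(k2,k3),(k3,k3)],[(k8,k2)],[(k11,k2)],[(k9,k2)],[(k6,k2)],[(k4,k2)],[(k7,k2)],[(k1,k2)]]
    [] k0
    []
    [])]⟩

/-- classes `0 0 1 2 1 3`, types `S0 S0 N0 C0 N2 S0` -/
noncomputable def cU6_1531 : CertX :=
  ⟨[k0,k0,k28,k36,k30,k48],[],[[[]]],
    [.old (.lp [k12,k8,k6,k6,k6,k6] [k0,k0,k2,k2,k3,k3,k3,k3,k3,k3,k3,k3] k0 [] k24 k5
    [[(k10,k9),(k1,k12)],[(k5,k9),(k2,k10),(k3,k10),(k0,k12)],[(k5,k7),(k2,k8),(k3,k8),(k0,k10)],[(k5,k7),(k2,k8),(k3,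
    k8),(k0,k10)],[(k5,k6),(k2,k7),(k3,k7),(k0,k9)],[(k8,k6)],[(k11,k6)],[(k9,k6)],[(k6,k6)],[(k4,k6)],[(k7,k6)],
    [(k10,k6),(k1,k9)]]
    [] k0
    [[k0,k2,k0,k0,k0,k0]]
    [.contra [z1]])]⟩

/-- classes `0 0 1 2 1 3`, types `S0 S0 N0 S0 N1 C0` -/
noncomputable def cU6_1532 : CertX :=
  ⟨[k0,k0,k28,k32,k29,k52],[(false,k0,[k0,k1,k2,k3,k4,k5])],[[[([z1,z1,z1,z0,z0,z1],z2)],[]]],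
    [.old (.leafM k0 [k0,k1,k2,k5] [] [(k3,k4,z1,[y1,z1]),(k4,k3,z1,[y1,z1])]),
    .old (.lp [k12,k8,k6,k6,k6,k6] [k0,k0,k2,k2,k3,k3,k3,k3,k3,k3,k3,k3] k0 [] k24 k5
    [[(k10,k9)],[(k5,k9),(k2,k10),(k3,k10),(k0,k12)],[(k5,k7),(k2,k8),(k3,k8),(k0,k10)],[(k5,k7),(k2,k8),(k3,k8),(k0,
    k10)],[(k5,k6),(k2,k7),(k3,k7),(k0,k9)],[(k11,k6)],[(k8,k6)],[(k6,k6),(k9,k6)],[(k6,k6),(k9,k6)],[(k7,k6)],[(k4,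
    k6)],[(k1,k9)]]
    [] k0
    [[k0,k2,k0,k0,k0,k0],[k0,k0,k0,k1,k1,k0]]
    [.contra [z1],.ref k0 k0 [(z1,[y1,z1])]])]⟩

/-- classes `0 0 1 2 1 3`, types `S0 S0 N0 S0 N1 S0` -/
noncomputable def cU6_1533 : CertX :=
  ⟨[k0,k0,k28,k32,k29,k48],[(false,k0,[k0,k1,k2,k3,k4,k5])],[[[([z1,z1,z1,z0,z0,z1],z2)],[]]],
    [.old (.leafM k0 [k0,k1,k2,k5] [] [(k3,k4,z1,[y1,z1]),(k4,k3,z1,[y1,z1])]),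
    .old (.lp [k12,k8,k6,k6,k6,k6] [k0,k0,k2,k2,k3,k3,k3,k3,k3,k3,k3,k3] k0 [] k24 k5
    [[(k10,k9),(k1,k12)],[(k5,k9),(k2,k10),(k3,k10),(k0,k12)],[(k5,k7),(k2,k8),(k3,k8),(k0,k10)],[(k5,k7),(k2,k8),(k3,
    k8),(k0,k10)],[(k5,k6),(k2,k7),(k3,k7),(k0,k9)],[(k11,k6)],[(k8,k6)],[(k6,k6),(k9,k6)],[(k6,k6),(k9,k6)],[(k7,
    k6)],[(k4,k6)],[(k10,k6),(k1,k9)]]
    [] k0
    [[k0,k2,k0,k0,k0,k0],[k0,k0,k0,k1,k1,k0]]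
    [.contra [z1],.ref k0 k0 [(z1,[y1,z1])]])]⟩

/-- classes `0 0 1 2 1 3`, types `S0 S0 N0 S0 N2 C0` -/
noncomputable def cU6_1534 : CertX :=
  ⟨[k0,k0,k28,k32,k30,k52],[],[[[]]],
    [.old (.lp [k2,k4,k2,k2,k2,k2] [k1,k1,k0,k0,k1,k1,k1,k1,k1,k1,k1,k1] k0 [] k8 k5
    [[(k10,k2)],[(k0,k2),(k5,k2),(k2,k3),(k3,k3)],[(k0,k3),(k5,k3),(k2,k4),(k3,k4)],[(k0,k3),(k5,k3),(k2,k4),(k3,k4)],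
    [(k0,k2),(k5,k2),(k2,k3),(k3,k3)],[(k8,k2)],[(k11,k2)],[(k6,k2),(k9,k2)],[(k6,k2),(k9,k2)],[(k4,k2)],[(k7,k2)],
    [(k1,k2)]]
    [] k0
    []
    [])]⟩

/-- classes `0 0 1 2 1 3`, types `S0 S0 N0 S0 N2 S0` -/
noncomputable def cU6_1535 : CertX :=
  ⟨[k0,k0,k28,k32,k30,k48],[],[[[]]],
    [.old (.lp [k12,k8,k6,k6,k6,k6] [k0,k0,k2,k2,k3,k3,k3,k3,k3,k3,k3,k3] k0 [] k24 k5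
    [[(k10,k9),(k1,k12)],[(k5,k9),(k2,k10),(k3,k10),(k0,k12)],[(k5,k7),(k2,k8),(k3,k8),(k0,k10)],[(k5,k7),(k2,k8),(k3,
    k8),(k0,k10)],[(k5,k6),(k2,k7),(k3,k7),(k0,k9)],[(k8,k6)],[(k11,k6)],[(k6,k6),(k9,k6)],[(k6,k6),(k9,k6)],[(k4,
    k6)],[(k7,k6)],[(k10,k6),(k1,k9)]]
    [] k0
    [[k0,k2,k0,k0,k0,k0]]
    [.contra [z1]])]⟩

/-- classes `0 0 1 2 1 3`, types `S0 S0 S0 C0 S0 C0` -/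
noncomputable def cU6_1536 : CertX :=
  ⟨[k0,k0,k16,k36,k16,k52],[(false,k0,[k0,k1,k2,k3,k4,k5])],[[[([z1,z1,z1,z0,z0,z1],z2)],[]]],
    [.old (.leafM k0 [k0,k1,k2,k5] [] [(k3,k4,z1,[y1,z1]),(k4,k3,z1,[y1,z1])]),
    .old (.lp [k6,k8,k12,k6,k6,k6] [k3,k3,k2,k2,k0,k0,k3,k3,k3,k3,k3,k3] k0 [] k24 k5
    [[(k10,k6)],[(k0,k6),(k2,k7),(k3,k7),(k5,k9)],[(k0,k7),(k2,k8),(k3,k8),(k5,k10)],[(k0,k7),(k2,k8),(k3,k8),(k5,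
    k10)],[(k0,k9),(k2,k10),(k3,k10),(k5,k12)],[(k7,k9),(k8,k9),(k11,k9),(k4,k12)],[(k7,k6),(k8,k6),(k11,k6),(k4,k9)],
    [(k9,k6)],[(k6,k6)],[(k7,k6),(k8,k6),(k11,k6),(k4,k9)],[(k7,k6),(k8,k6),(k11,k6),(k4,k9)],[(k1,k6)]]
    [] k0
    [[k0,k2,k0,k0,k0,k0],[k0,k0,k0,k1,k1,k0]]
    [.contra [z1],.ref k0 k0 [(z1,[y1,z1])]])]⟩

/-- classes `0 0 1 2 1 3`, types `S0 S0 S0 C0 S0 S0` -/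
noncomputable def cU6_1537 : CertX :=
  ⟨[k0,k0,k16,k36,k16,k48],[(false,k0,[k0,k1,k2,k3,k4,k5])],[[[([z1,z1,z1,z0,z0,z1],z2)],[]]],
    [.old (.leafM k0 [k0,k1,k2,k5] [] [(k3,k4,z1,[y1,z1]),(k4,k3,z1,[y1,z1])]),
    .old (.lp [k12,k8,k8,k6,k6,k6] [k0,k0,k2,k2,k2,k2,k3,k3,k3,k3,k3,k3] k0 [] k24 k5
    [[(k10,k9),(k1,k12)],[(k2,k10),(k3,k10),(k5,k10),(k0,k12)],[(k2,k8),(k3,k8),(k5,k8),(k0,k10)],[(k2,k8),(k3,k8),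
    (k5,k8),(k0,k10)],[(k2,k8),(k3,k8),(k5,k8),(k0,k10)],[(k7,k7),(k8,k7),(k11,k7),(k4,k8)],[(k7,k6),(k8,k6),(k11,k6),
    (k4,k7)],[(k9,k6)],[(k6,k6)],[(k7,k6),(k8,k6),(k11,k6),(k4,k7)],[(k7,k6),(k8,k6),(k11,k6),(k4,k7)],[(k10,k6),(k1,
    k9)]]
    [] k0
    [[k0,k2,k0,k0,k0,k0],[k0,k0,k2,k0,k0,k0],[k0,k0,k0,k1,k1,k0],[k0,k0,k0,k0,k0,k2]]
    [.contra [z1],.contra [z1],.ref k0 k0 [(z1,[y1,z1])],.contra [z1]])]⟩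

/-- classes `0 0 1 2 1 3`, types `S0 S0 S0 S0 S0 C0` -/
noncomputable def cU6_1538 : CertX :=
  ⟨[k0,k0,k16,k32,k16,k52],[(false,k0,[k0,k1,k2,k3,k4,k5])],[[[([z1,z1,z1,z0,z0,z1],z2)],[]]],
    [.old (.leafM k0 [k0,k1,k2,k5] [] [(k3,k4,z1,[y1,z1]),(k4,k3,z1,[y1,z1])]),
    .old (.lp [k6,k8,k8,k12,k6,k6] [k4,k4,k3,k3,k3,k3,k2,k0,k4,k4,k4,k4] k0 [[],[],[],[],[],[k0,k0,k0,k0,k0,k0,k0,k0,k0,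
    k4],[],[],[k0,k0,k0,k0,k4]] k24 k5
    [[(k10,k6)],[(k0,k6),(k2,k7),(k3,k7),(k5,k7)],[(k0,k7),(k2,k8),(k3,k8),(k5,k8)],[(k0,k7),(k2,k8),(k3,k8),(k5,k8)],
    [(k0,k7),(k2,k8),(k3,k8),(k5,k8)],[(k8,k7),(k4,k8),(k7,k11),(k11,k11)],[(k8,k6),(k11,k10),(k4,k11),(k7,k14)],[(k9,
    k8),(k6,k10)],[(k9,k6),(k6,k8)],[(k7,k6),(k8,k6),(k11,k6),(k4,k7)],[(k8,k6),(k11,k6),(k7,k10),(k4,k11)],[(k1,k6)]]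
    [] k0
    [[k0,k2,k0,k0,k0,k0],[k0,k0,k2,k0,k0,k0],[k0,k0,k0,k1,k1,k0],[k0,k0,k0,k0,k2,k0]]
    [.contra [z1],.contra [z1],.ref k0 k0 [(z1,[y1,z1])],.contra [z1]])]⟩

/-- classes `0 0 1 2 2 1`, types `B0 B1 B0 B0 B1 B1` -/
noncomputable def cU6_1539 : CertX :=
  ⟨[k8,k9,k24,k40,k41,k25],[(false,k0,[k0,k1,k2,k3,k4,k5]),(false,k3,[k3,k4,k5,k0,k1,k2])],[[[([z1,z1,z1,z0,z0,z0],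
    z2)],[([z1,z0,z1,z0,z0,z0],z1),([z0,z3,z0,z0,z0,z0],z1),([z0,z0,z0,z1,z0,z1],z2)],[([z1,z0,z1,z0,z0,z0],z1),([z0,
    z2,z0,z0,z0,z0],z1),([z0,z0,z0,z1,z0,z1],z2)],[([z1,z0,z1,z0,z0,z0],z1),([z0,z3,z0,z0,z0,z0],z2),([z0,z0,z0,z1,z0,
    z1],z2)],[([z1,z0,z1,z0,z0,z0],z1),([z0,z1,z0,z0,z1,z0],z1)],[([z3,z0,z3,z0,z0,z0],z2),([z0,z3,z0,z0,z0,z0],z2),
    ([z0,z0,z0,z1,z0,z1],z2)],[([z1,z0,z1,z0,z0,z0],z2),([z0,z3,z0,z0,z0,z0],z2)],[([z1,z0,z1,z0,z0,z0],z2)],[]]],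
    [.old (.leafM k6 [k0,k1,k2,k3,k4,k5] [(z1,[y1,z1])] []),
    .old (.leafM k11 [k2,k4,k0,k1] [(z1,[y3,y1,y3,z3]),(z1,[z0,z1]),(z1,[z1])] [(k3,k5,z1,[z0,z0,z1]),(k5,k3,z1,[z0,z0,
    z1])]),
    .old (.leafM k12 [k0,k1,k2,k4] [(z1,[z0,z1]),(z1,[y2,y1,y2,z2]),(z1,[z1])] [(k3,k5,z1,[z0,z0,z1]),(k5,k3,z1,[z0,z0,
    z1])]),
    .old (.leafM k11 [k0,k1,k2,k4] [(z1,[z0,z1]),(z1,[y3,y1,y3,z3]),(z1,[z1])] [(k3,k5,z1,[z0,z0,z1]),(k5,k3,z1,[z0,z0,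
    z1])]),
    .old (.lp [k14,k10,k6,k8,k8,k32] [k9,k9,k11,k11,k13,k13,k12,k12,k12,k12,k0,k0] k0 [] k40 k6
    [[(k4,k10),(k7,k11)],[(k5,k10),(k2,k12)],[(k5,k8),(k2,k10)],[(k3,k10),(k0,k12)],[(k3,k8),(k0,k10)],[(k1,k10),(k10,
    k19)],[(k1,k11),(k10,k20)],[(k8,k8),(k11,k20)],[(k8,k8),(k11,k20)],[(k6,k8),(k9,k8)],[(k6,k20),(k9,k20)],[(k4,
    k19),(k7,k20)]]
    [] k0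
    [[k1,k0,k1,k0,k0,k0],[k1,k1,k1,k0,k0,k0],[k0,k2,k0,k0,k0,k0],[k0,k3,k0,k0,k0,k0],[k0,k0,k0,k0,k2,k0],[k0,k0,k0,k0,
    k3,k0],[k0,k0,k0,k0,k4,k0]]
    [.contra [y1,z2],.contra [z1,y1],.contra [z1],.ref k3 k0 [(z1,[z0,z1]),(z1,[z1]),(z1,[z0,y1,y1,z1])],.contra [z1],
    .ref k1 k0 [(z1,[z0,z1]),(z1,[y1,z0,z3]),(z1,[z0,y1,y1,z1])],.ref k2 k0 [(z1,[z0,z1]),(z2,[y1,z0,z4]),(z1,[z0,y1,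
    y1,z1])]]),
    .old (.leafM k10 [k0,k1,k2,k4] [(z1,[z0,z1]),(z1,[y1,y1,y3,z3]),(z1,[z1])] [(k3,k5,z1,[z0,z0,z1]),(k5,k3,z1,[z0,z0,
    z1])]),
    .old (.lp [k102,k40,k18,k18,k30,k30] [k0,k0,k31,k31,k42,k42,k42,k42,k36,k36,k36,k36] k0 [] k120 k6
    [[(k4,k60),(k7,k60)],[(k5,k60),(k2,k71)],[(k5,k29),(k2,k40)],[(k3,k40),(k0,k71)],[(k3,k29),(k0,k60)],[(k10,k24),
    (k1,k60)],[(k10,k24),(k1,k60)],[(k8,k24),(k11,k24)],[(k8,k30),(k11,k30)],[(k6,k24),(k9,k30)],[(k6,k24),(k9,k30)],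
    [(k4,k24),(k7,k24)]]
    [] k0
    [[k0,k2,k0,k0,k0,k0],[k0,k0,k0,k1,k0,k1],[k0,k0,k0,k2,k0,k2],[k0,k0,k0,k1,k1,k1],[k0,k0,k0,k1,k2,k1],[k0,k0,k0,k0,
    k2,k0],[k0,k0,k0,k0,k3,k0]]
    [.contra [z1],.contra [y1,y1,z0,z1],.ref k4 k1 [(z2,[z1]),(z2,[y1,y2,z0,z2])],.contra [z1,z1,z1,y1],
    .ref k5 k1 [(z1,[y3,y6,y2,z6]),(z1,[z3,z3,z1,y3]),(z1,[z0,z1])],.contra [z1],.ref k5 k1 [(z1,[y1,y3,y1,z3]),(z1,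
    [z1]),(z1,[z0,z1])]]),
    .old (.lp [k102,k30,k18,k8,k40,k40] [k0,k0,k36,k36,k42,k42,k47,k47,k31,k31,k31,k31] k0 [] k120 k6
    [[(k7,k55),(k4,k60)],[(k5,k60),(k2,k66)],[(k5,k24),(k2,k30)],[(k3,k30),(k0,k66)],[(k3,k24),(k0,k60)],[(k10,k29),
    (k1,k60)],[(k10,k24),(k1,k55)],[(k8,k24),(k11,k24)],[(k8,k40),(k11,k40)],[(k6,k24),(k9,k40)],[(k6,k24),(k9,k40)],
    [(k7,k24),(k4,k29)]]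
    [] k0
    [[k0,k2,k0,k0,k0,k0],[k0,k3,k0,k0,k0,k0],[k0,k0,k0,k1,k0,k1],[k0,k0,k0,k2,k0,k2],[k0,k0,k0,k1,k1,k1],[k0,k0,k0,k0,
    k2,k0]]
    [.contra [z1],.ref k6 k0 [(z1,[z0,z1]),(z1,[z1])],.contra [y1,y1,z1],.ref k4 k1 [(z2,[z1]),(z2,[y1,y2,z2])],
    .contra [y1,y1,z1],.contra [z1]]),
    .old (.lp [k4,k4,k2,k2,k6,k4] [k1,k1,k1,k1,k2,k2,k2,k2,k0,k0,k1,k1] k0 [] k12 k5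
    [[(k4,k3),(k7,k3)],[(k5,k3),(k2,k4)],[(k5,k3),(k2,k4)],[(k0,k4),(k3,k4)],[(k0,k3),(k3,k3)],[(k1,k3),(k10,k3)],
    [(k1,k3),(k10,k3)],[(k11,k3),(k8,k4)],[(k11,k5),(k8,k6)],[(k6,k4),(k9,k6)],[(k6,k3),(k9,k5)],[(k4,k3),(k7,k3)]]
    [] k0
    [[k1,k0,k1,k0,k0,k0],[k1,k1,k1,k0,k0,k0],[k0,k2,k0,k0,k0,k0],[k0,k0,k0,k1,k0,k1]]
    [.ref k7 k0 [(z1,[z1])],.ref k0 k0 [(z1,[z1])],.contra [z1],.ref k7 k1 [(z1,[z1])]])]⟩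

/-- classes `0 0 1 2 2 1`, types `B0 B1 B0 C0 C0 B1` -/
noncomputable def cU6_1540 : CertX :=
  ⟨[k8,k9,k24,k36,k36,k25],[(false,k0,[k0,k1,k2,k3,k4,k5])],[[[([z1,z1,z1,z0,z0,z0],z2)],[([z3,z0,z3,z0,z0,z0],z2),
    ([z0,z3,z0,z0,z0,z0],z2),([z0,z0,z0,z1,z0,z1],z2)],[([z1,z0,z1,z0,z0,z0],z1),([z0,z3,z0,z0,z0,z0],z1),([z0,z0,z0,
    z1,z0,z1],z2)],[([z3,z3,z3,z0,z0,z0],z4),([z0,z0,z0,z1,z0,z1],z2)],[([z1,z0,z1,z0,z0,z0],z1),([z0,z2,z0,z0,z0,z0],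
    z1),([z0,z0,z0,z1,z0,z1],z2)],[([z1,z0,z1,z0,z0,z0],z1),([z0,z3,z0,z0,z0,z0],z2),([z0,z0,z0,z1,z0,z1],z2)],[([z1,
    z0,z1,z0,z0,z0],z1),([z0,z1,z0,z0,z1,z0],z1)],[([z1,z1,z1,z0,z1,z0],z2)],[([z1,z0,z1,z0,z0,z0],z2),([z0,z3,z0,z0,
    z0,z0],z1),([z0,z0,z0,z1,z0,z1],z1)],[([z1,z0,z1,z0,z0,z0],z2),([z0,z3,z0,z0,z0,z0],z2),([z0,z0,z0,z1,z0,z1],z1)],
    [([z1,z0,z1,z0,z0,z0],z2),([z0,z2,z0,z0,z0,z0],z1),([z0,z0,z0,z1,z0,z1],z1)],[([z1,z0,z1,z0,z0,z0],z2),([z0,z1,z0,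
    z0,z1,z0],z1)]],[[([z1,z0,z1,z0,z0,z0],z2),([z0,z3,z0,z0,z0,z0],z2),([z0,z0,z0,z3,z0,z3],z2)],[([z1,z0,z1,z0,z0,
    z0],z2),([z0,z3,z0,z0,z0,z0],z2)],[([z1,z0,z1,z0,z0,z0],z2)],[]]],
    [.old (.leafM k4 [k0,k1,k2,k3,k4,k5] [(z1,[y1,z1])] []),
    .old (.leafM k10 [k0,k1,k2,k4] [(z1,[z0,z1]),(z1,[y1,y1,y3,z3]),(z1,[z1])] [(k3,k5,z1,[z0,z0,z1]),(k5,k3,z1,[z0,z0,
    z1])]),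
    .old (.leafM k11 [k2,k4,k0,k1] [(z1,[y3,y1,y3,z3]),(z1,[z0,z1]),(z1,[z1])] [(k3,k5,z1,[z0,z0,z1]),(k5,k3,z1,[z0,z0,
    z1])]),
    .old (.lp [k30,k30,k18,k18,k40,k102] [k36,k36,k36,k36,k42,k42,k42,k42,k31,k31,k0,k0] k0 [] k120 k6
    [[(k4,k24),(k7,k24)],[(k5,k24),(k2,k30)],[(k5,k24),(k2,k30)],[(k0,k30),(k3,k30)],[(k0,k24),(k3,k24)],[(k1,k24),
    (k10,k60)],[(k1,k24),(k10,k60)],[(k9,k29),(k11,k60)],[(k6,k29),(k8,k40)],[(k9,k40),(k11,k71)],[(k6,k60),(k8,k71)],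
    [(k4,k60),(k7,k60)]]
    [] k0
    [[k1,k0,k1,k0,k0,k0],[k2,k0,k2,k0,k0,k0],[k1,k1,k1,k0,k0,k0],[k1,k2,k1,k0,k0,k0],[k0,k2,k0,k0,k0,k0],[k0,k3,k0,k0,
    k0,k0],[k0,k0,k0,k0,k2,k0]]
    [.contra [y2,z1],.ref k2 k0 [(z2,[z1]),(z2,[y3,z2]),(z1,[z0,z0,z1])],.contra [z1,y1,y2,z2],.ref k1 k0 [(z1,[y3,
    z2]),(z1,[z3,y1]),(z1,[z0,z0,z1])],.contra [z1],.ref k1 k0 [(z1,[y1,z1]),(z1,[z1]),(z1,[z0,z0,z1])],.contra [z1]]),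
    .old (.leafM k12 [k0,k1,k2,k4] [(z1,[z0,z1]),(z1,[y2,y1,y2,z2]),(z1,[z1])] [(k3,k5,z1,[z0,z0,z1]),(k5,k3,z1,[z0,z0,
    z1])]),
    .old (.leafM k11 [k0,k1,k2,k4] [(z1,[z0,z1]),(z1,[y3,y1,y3,z3]),(z1,[z1])] [(k3,k5,z1,[z0,z0,z1]),(k5,k3,z1,[z0,z0,
    z1])]),
    .old (.lp [k8,k10,k12,k8,k8,k32] [k12,k12,k11,k11,k10,k10,k12,k12,k12,k12,k0,k0] k0 [] k40 k6
    [[(k7,k8),(k4,k10)],[(k2,k9),(k5,k10)],[(k2,k10),(k5,k11)],[(k0,k9),(k3,k10)],[(k0,k10),(k3,k11)],[(k1,k10),(k10,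
    k22)],[(k1,k8),(k10,k20)],[(k9,k8),(k11,k20)],[(k6,k8),(k8,k8)],[(k9,k8),(k11,k20)],[(k6,k20),(k8,k20)],[(k7,k20),
    (k4,k22)]]
    [] k0
    [[k1,k0,k1,k0,k0,k0],[k1,k1,k1,k0,k0,k0],[k0,k2,k0,k0,k0,k0],[k0,k3,k0,k0,k0,k0],[k0,k0,k0,k0,k2,k0],[k0,k0,k0,k0,
    k3,k0],[k0,k0,k0,k0,k4,k0]]
    [.contra [y1,z2],.contra [z1,y1],.contra [z1],.ref k5 k0 [(z1,[z0,z1]),(z1,[z1]),(z1,[z0,y1,y1,z1])],.contra [z1],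
    .ref k3 k0 [(z1,[y1,z3,z3]),(z1,[z0,y1,y1,z1])],.ref k4 k0 [(z1,[z0,z1]),(z2,[y1,z0,z4]),(z1,[z0,y1,y1,z1])]]),
    .old (.lp [k30,k40,k18,k18,k30,k102] [k36,k36,k31,k31,k42,k42,k42,k42,k36,k36,k0,k0] k0 [] k120 k6
    [[(k4,k24),(k7,k24)],[(k5,k24),(k2,k35)],[(k5,k29),(k2,k40)],[(k0,k35),(k3,k40)],[(k0,k24),(k3,k29)],[(k1,k24),
    (k10,k60)],[(k1,k24),(k10,k60)],[(k9,k24),(k11,k60)],[(k6,k24),(k8,k30)],[(k9,k30),(k11,k66)],[(k6,k60),(k8,k66)],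
    [(k4,k60),(k7,k60)]]
    [] k0
    [[k1,k0,k1,k0,k0,k0],[k2,k0,k2,k0,k0,k0],[k1,k1,k1,k0,k0,k0],[k0,k2,k0,k0,k0,k0],[k0,k0,k0,k0,k2,k0],[k0,k0,k0,k0,
    k3,k0]]
    [.contra [y1,z1],.ref k6 k0 [(z2,[z1]),(z2,[y1,z2])],.contra [y1,z1],.contra [z1],.contra [z1],.ref k3 k0 [(z1,
    [y1,z3]),(z1,[z0,y1,z1])]]),
    .old (.leafM k11 [k3,k4,k5,k1] [(z1,[y3,y1,y3,z3]),(z1,[z0,z1]),(z1,[z0,z0,z1])] [(k0,k2,z1,[z1]),(k2,k0,z1,[z1])]),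
    .old (.leafM k11 [k5,k1,k3,k4] [(z1,[z0,z1]),(z1,[y3,y1,y3,z3]),(z1,[z0,z0,z1])] [(k0,k2,z1,[z1]),(k2,k0,z1,[z1])]),
    .old (.leafM k12 [k3,k4,k5,k1] [(z1,[y2,y1,y2,z2]),(z1,[z0,z1]),(z1,[z0,z0,z1])] [(k0,k2,z1,[z1]),(k2,k0,z1,[z1])]),
    .old (.lp [k10,k8,k30,k6,k10,k14] [k10,k10,k11,k11,k0,k0,k12,k12,k10,k10,k8,k8] k0 [] k40 k6
    [[(k7,k8),(k4,k20)],[(k2,k9),(k5,k20)],[(k2,k8),(k5,k19)],[(k3,k8),(k0,k9)],[(k3,k19),(k0,k20)],[(k1,k20),(k10,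
    k22)],[(k1,k8),(k10,k10)],[(k9,k8),(k11,k10)],[(k6,k8),(k8,k10)],[(k9,k10),(k11,k12)],[(k6,k10),(k8,k12)],[(k7,
    k10),(k4,k22)]]
    [] k0
    [[k0,k2,k0,k0,k0,k0],[k0,k3,k0,k0,k0,k0],[k0,k4,k0,k0,k0,k0],[k0,k0,k0,k1,k0,k1],[k0,k0,k0,k1,k1,k1],[k0,k0,k0,k0,
    k2,k0],[k0,k0,k0,k0,k3,k0]]
    [.contra [z1],.ref k9 k0 [(z1,[z0,z1]),(z1,[z1]),(z1,[z0,y1,y1,z1])],.ref k10 k0 [(z1,[z0,z1]),(z2,[z1]),(z1,[z0,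
    y1,y1,z1])],.contra [y2,y1,y2,z2],.contra [z1,z1,z1,y1],.contra [z1],.ref k8 k0 [(z1,[z0,z1]),(z1,[y1,z0,z3]),(z1,
    [z0,y1,y1,z1])]]),
    .old (.leafM k10 [k3,k4,k5,k1] [(z1,[y3,y1,y1,z3]),(z1,[z0,z1]),(z1,[z0,z0,z1])] [(k0,k2,z1,[z1]),(k2,k0,z1,[z1])]),
    .old (.lp [k30,k40,k90,k18,k30,k30] [k30,k30,k25,k25,k0,k0,k36,k36,k30,k30,k30,k30] k0 [] k120 k6
    [[(k7,k24),(k4,k60)],[(k2,k35),(k5,k60)],[(k2,k40),(k5,k65)],[(k0,k35),(k3,k40)],[(k0,k60),(k3,k65)],[(k1,k60),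
    (k10,k60)],[(k1,k24),(k10,k24)],[(k9,k24),(k11,k24)],[(k6,k24),(k8,k30)],[(k9,k30),(k11,k30)],[(k6,k24),(k8,k30)],
    [(k7,k24),(k4,k60)]]
    [] k0
    [[k0,k2,k0,k0,k0,k0],[k0,k0,k0,k1,k0,k1],[k0,k0,k0,k2,k0,k2],[k0,k0,k0,k1,k1,k1],[k0,k0,k0,k1,k2,k1],[k0,k0,k0,k0,
    k2,k0],[k0,k0,k0,k0,k3,k0]]
    [.contra [z1],.contra [y1,y1,z0,z1],.ref k11 k0 [(z1,[z0,z1]),(z2,[y1,y2,z0,z2])],.contra [z1,z1,z1,y1],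
    .ref k12 k0 [(z1,[z0,z1]),(z1,[z0,z0,z1]),(z1,[y3,y6,y2,z6])],.contra [z1],.ref k12 k0 [(z1,[z0,z1]),(z1,[z0,z0,
    z1]),(z1,[y1,y3,y1,z3])]]),
    .old (.lp [k40,k30,k80,k8,k40,k40] [k20,k20,k25,k25,k0,k0,k36,k36,k20,k20,k20,k20] k0 [] k120 k6
    [[(k7,k24),(k4,k60)],[(k2,k35),(k5,k60)],[(k2,k30),(k5,k55)],[(k3,k30),(k0,k35)],[(k3,k55),(k0,k60)],[(k1,k60),
    (k10,k60)],[(k1,k24),(k10,k24)],[(k9,k24),(k11,k24)],[(k6,k24),(k8,k40)],[(k9,k40),(k11,k40)],[(k6,k24),(k8,k40)],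
    [(k7,k24),(k4,k60)]]
    [] k0
    [[k0,k2,k0,k0,k0,k0],[k0,k3,k0,k0,k0,k0],[k0,k0,k0,k1,k0,k1],[k0,k0,k0,k2,k0,k2],[k0,k0,k0,k1,k1,k1],[k0,k0,k0,k0,
    k2,k0]]
    [.contra [z1],.ref k13 k0 [(z1,[z0,z1]),(z1,[z1])],.contra [y1,y1,z1],.ref k11 k0 [(z1,[z0,z1]),(z2,[y1,y2,z2])],
    .contra [y1,y1,z1],.contra [z1]]),
    .old (.lp [k4,k6,k2,k2,k4,k4] [k1,k1,k0,k0,k2,k2,k2,k2,k1,k1,k1,k1] k0 [] k12 k5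
    [[(k4,k3),(k7,k3)],[(k5,k3),(k2,k5)],[(k5,k4),(k2,k6)],[(k0,k5),(k3,k6)],[(k0,k3),(k3,k4)],[(k1,k3),(k10,k3)],
    [(k1,k3),(k10,k3)],[(k9,k3),(k11,k3)],[(k6,k3),(k8,k4)],[(k9,k4),(k11,k4)],[(k6,k3),(k8,k4)],[(k4,k3),(k7,k3)]]
    [] k0
    [[k1,k0,k1,k0,k0,k0],[k0,k0,k0,k1,k0,k1],[k0,k0,k0,k1,k1,k1],[k0,k0,k0,k0,k2,k0]]
    [.ref k14 k0 [(z1,[z1])],.ref k7 k0 [(z1,[y1,z1])],.ref k0 k0 [(z1,[y1,z1])],.contra [z1]])]⟩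

/-- classes `0 0 1 2 2 1`, types `B0 B1 B0 C0 C2 B1` -/
noncomputable def cU6_1541 : CertX :=
  ⟨[k8,k9,k24,k36,k38,k25],[(false,k0,[k0,k1,k2,k3,k4,k5])],[[[([z1,z1,z1,z0,z0,z0],z2)],[]]],
    [.old (.leafM k4 [k0,k1,k2,k3,k4,k5] [(z1,[y1,z1])] []),
    .old (.lp [k6,k10,k24,k6,k6,k6] [k9,k9,k7,k7,k0,k0,k9,k9,k9,k9,k9,k9] k0 [] k30 k6
    [[(k7,k6),(k4,k15)],[(k2,k8),(k5,k15)],[(k2,k10),(k5,k17)],[(k0,k8),(k3,k10)],[(k0,k15),(k3,k17)],[(k1,k15),(k10,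
    k15)],[(k1,k6),(k10,k6)],[(k8,k6),(k9,k6)],[(k6,k6),(k11,k6)],[(k6,k6),(k11,k6)],[(k8,k6),(k9,k6)],[(k7,k6),(k4,
    k15)]]
    [] k0
    [[k0,k2,k0,k0,k0,k0],[k0,k0,k0,k1,k1,k1]]
    [.contra [z1],.ref k0 k0 [(z1,[y1,z1])]])]⟩

/-- classes `0 0 1 2 2 1`, types `B0 B1 B0 N0 N1 B1` -/
noncomputable def cU6_1542 : CertX :=
  ⟨[k8,k9,k24,k44,k45,k25],[(false,k0,[k0,k1,k2,k3,k4,k5])],[[[([z3,z0,z3,z0,z0,z0],z2),([z0,z3,z0,z0,z0,z0],z2),([z0,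
    z0,z0,z1,z0,z1],z2)],[([z1,z0,z1,z0,z0,z0],z1),([z0,z3,z0,z0,z0,z0],z1),([z0,z0,z0,z1,z0,z1],z2)],[([z3,z3,z3,z0,
    z0,z0],z4),([z0,z0,z0,z1,z0,z1],z2)],[([z1,z0,z1,z0,z0,z0],z1),([z0,z2,z0,z0,z0,z0],z1),([z0,z0,z0,z1,z0,z1],z2)],
    [([z1,z0,z1,z0,z0,z0],z1),([z0,z3,z0,z0,z0,z0],z2),([z0,z0,z0,z1,z0,z1],z2)],[([z1,z0,z1,z0,z0,z0],z1),([z0,z1,z0,
    z0,z1,z0],z1)],[([z1,z1,z1,z0,z1,z0],z2)],[([z1,z0,z1,z0,z0,z0],z2),([z0,z3,z0,z0,z0,z0],z1),([z0,z0,z0,z1,z0,z1],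
    z1)],[([z1,z0,z1,z0,z0,z0],z2),([z0,z3,z0,z0,z0,z0],z2),([z0,z0,z0,z3,z0,z3],z2)],[([z1,z0,z1,z0,z0,z0],z2),([z0,
    z3,z0,z3,z0,z3],z4)],[([z1,z0,z1,z0,z0,z0],z2),([z0,z3,z0,z0,z0,z0],z2),([z0,z0,z0,z1,z0,z1],z1)],[([z1,z0,z1,z0,
    z0,z0],z2),([z0,z2,z0,z0,z0,z0],z1),([z0,z0,z0,z1,z0,z1],z1)]],[[([z1,z0,z1,z0,z0,z0],z2),([z0,z1,z0,z0,z1,z0],
    z1)],[([z1,z0,z1,z0,z0,z0],z2)],[]]],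
    [.old (.leafM k10 [k0,k1,k2,k4] [(z1,[z0,z1]),(z1,[y1,y1,y3,z3]),(z1,[z1])] [(k3,k5,z1,[z0,z0,z1]),(k5,k3,z1,[z0,z0,
    z1])]),
    .old (.leafM k11 [k2,k4,k0,k1] [(z1,[y3,y1,y3,z3]),(z1,[z0,z1]),(z1,[z1])] [(k3,k5,z1,[z0,z0,z1]),(k5,k3,z1,[z0,z0,
    z1])]),
    .old (.lp [k30,k30,k18,k18,k40,k102] [k36,k36,k36,k36,k42,k42,k42,k42,k31,k31,k0,k0] k0 [] k120 k6
    [[(k4,k24),(k7,k24)],[(k5,k24),(k2,k30)],[(k5,k24),(k2,k30)],[(k0,k30),(k3,k30)],[(k0,k24),(k3,k24)],[(k1,k24),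
    (k10,k60)],[(k1,k24),(k10,k60)],[(k11,k60)],[(k8,k40)],[(k9,k40)],[(k6,k60)],[(k4,k60),(k7,k60)]]
    [] k0
    [[k1,k0,k1,k0,k0,k0],[k2,k0,k2,k0,k0,k0],[k1,k1,k1,k0,k0,k0],[k1,k2,k1,k0,k0,k0],[k0,k2,k0,k0,k0,k0],[k0,k3,k0,k0,
    k0,k0],[k0,k0,k0,k0,k2,k0]]
    [.contra [y2,z1],.ref k1 k0 [(z2,[z1]),(z2,[y3,z2]),(z1,[z0,z0,z1])],.contra [z1,y1,y2,z2],.ref k0 k0 [(z1,[y3,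
    z2]),(z1,[z3,y1]),(z1,[z0,z0,z1])],.contra [z1],.ref k0 k0 [(z1,[y1,z1]),(z1,[z1]),(z1,[z0,z0,z1])],.contra [z1]]),
    .old (.leafM k12 [k0,k1,k2,k4] [(z1,[z0,z1]),(z1,[y2,y1,y2,z2]),(z1,[z1])] [(k3,k5,z1,[z0,z0,z1]),(k5,k3,z1,[z0,z0,
    z1])]),
    .old (.leafM k11 [k0,k1,k2,k4] [(z1,[z0,z1]),(z1,[y3,y1,y3,z3]),(z1,[z1])] [(k3,k5,z1,[z0,z0,z1]),(k5,k3,z1,[z0,z0,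
    z1])]),
    .old (.lp [k14,k10,k6,k2,k8,k38] [k12,k12,k14,k14,k16,k16,k18,k18,k15,k15,k0,k0] k0 [] k40 k6
    [[(k7,k8),(k4,k10)],[(k5,k10),(k2,k12)],[(k5,k8),(k2,k10)],[(k3,k10),(k0,k12)],[(k3,k8),(k0,k10)],[(k1,k10),(k10,
    k22)],[(k1,k8),(k10,k20)],[(k11,k20)],[(k8,k8)],[(k9,k8)],[(k6,k20)],[(k7,k20),(k4,k22)]]
    [] k0
    [[k1,k0,k1,k0,k0,k0],[k1,k1,k1,k0,k0,k0],[k0,k2,k0,k0,k0,k0],[k0,k3,k0,k0,k0,k0],[k0,k0,k0,k0,k2,k0],[k0,k0,k0,k0,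
    k3,k0],[k0,k0,k0,k0,k4,k0]]
    [.contra [y1,z2],.contra [z1,y1],.contra [z1],.ref k4 k0 [(z1,[z0,z1]),(z1,[z1]),(z1,[z0,y1,y1,z1])],.contra [z1],
    .ref k2 k0 [(z1,[y1,z3,z3]),(z1,[z0,y1,y1,z1])],.ref k3 k0 [(z1,[z0,z1]),(z2,[y1,z0,z4]),(z1,[z0,y1,y1,z1])]]),
    .old (.lp [k40,k40,k8,k8,k30,k112] [k36,k36,k36,k36,k52,k52,k52,k52,k41,k41,k0,k0] k0 [] k120 k6
    [[(k4,k24),(k7,k24)],[(k5,k24),(k2,k40)],[(k5,k24),(k2,k40)],[(k0,k40),(k3,k40)],[(k0,k24),(k3,k24)],[(k1,k24),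
    (k10,k60)],[(k1,k24),(k10,k60)],[(k11,k60)],[(k8,k30)],[(k9,k30)],[(k6,k60)],[(k4,k60),(k7,k60)]]
    [] k0
    [[k1,k0,k1,k0,k0,k0],[k2,k0,k2,k0,k0,k0],[k1,k1,k1,k0,k0,k0],[k0,k2,k0,k0,k0,k0],[k0,k0,k0,k0,k2,k0],[k0,k0,k0,k0,
    k3,k0]]
    [.contra [y1,z1],.ref k5 k0 [(z2,[z1]),(z2,[y1,z2])],.contra [y1,z1],.contra [z1],.contra [z1],.ref k2 k0 [(z1,
    [y1,z3]),(z1,[z0,y1,z1])]]),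
    .old (.leafM k11 [k3,k4,k5,k1] [(z1,[y3,y1,y3,z3]),(z1,[z0,z1]),(z1,[z0,z0,z1])] [(k0,k2,z1,[z1]),(k2,k0,z1,[z1])]),
    .old (.leafM k10 [k3,k4,k5,k1] [(z1,[y3,y1,y1,z3]),(z1,[z0,z1]),(z1,[z0,z0,z1])] [(k0,k2,z1,[z1]),(k2,k0,z1,[z1])]),
    .old (.lp [k48,k30,k72,k0,k40,k48] [k12,k12,k21,k21,k0,k0,k36,k36,k16,k16,k12,k12] k0 [] k120 k6
    [[(k7,k24),(k4,k60)],[(k2,k39),(k5,k60)],[(k2,k30),(k5,k51)],[(k3,k30),(k0,k39)],[(k3,k51),(k0,k60)],[(k1,k60),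
    (k10,k60)],[(k1,k24),(k10,k24)],[(k11,k24)],[(k8,k40)],[(k9,k40)],[(k6,k24)],[(k7,k24),(k4,k60)]]
    [] k0
    [[k0,k2,k0,k0,k0,k0],[k0,k3,k0,k0,k0,k0],[k0,k0,k0,k1,k0,k1],[k0,k0,k0,k2,k0,k2],[k0,k0,k0,k0,k2,k0]]
    [.contra [z1],.ref k8 k0 [(z1,[z0,z1]),(z1,[z1]),(z1,[y1,z0,z1])],.contra [y3,z1,z1],.ref k7 k0 [(z1,[z0,z1]),(z2,
    [y3,z0,z2]),(z2,[z1])],.contra [z1]]),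
    .old (.leafM k11 [k5,k1,k3,k4] [(z1,[z0,z1]),(z1,[y3,y1,y3,z3]),(z1,[z0,z0,z1])] [(k0,k2,z1,[z1]),(k2,k0,z1,[z1])]),
    .old (.leafM k12 [k3,k4,k5,k1] [(z1,[y2,y1,y2,z2]),(z1,[z0,z1]),(z1,[z0,z0,z1])] [(k0,k2,z1,[z1]),(k2,k0,z1,[z1])]),
    .old (.lp [k16,k8,k24,k0,k10,k20] [k4,k4,k8,k8,k0,k0,k12,k12,k7,k7,k2,k2] k0 [] k40 k6
    [[(k7,k8),(k4,k20)],[(k2,k12),(k5,k20)],[(k2,k8),(k5,k16)],[(k3,k8),(k0,k12)],[(k3,k16),(k0,k20)],[(k1,k20),(k10,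
    k22)],[(k1,k8),(k10,k10)],[(k11,k10)],[(k8,k10)],[(k9,k10)],[(k6,k10)],[(k7,k10),(k4,k22)]]
    [] k0
    [[k0,k2,k0,k0,k0,k0],[k0,k3,k0,k0,k0,k0],[k0,k4,k0,k0,k0,k0],[k0,k0,k0,k1,k0,k1],[k0,k0,k0,k0,k2,k0],[k0,k0,k0,k0,
    k3,k0]]
    [.contra [z1],.ref k10 k0 [(z1,[z0,z1]),(z1,[z1]),(z1,[z0,y1,y1,z1])],.ref k11 k0 [(z1,[z0,z1]),(z2,[z1]),(z1,[z0,
    y1,y1,z1])],.contra [y2,y1,y2,z2],.contra [z1],.ref k9 k0 [(z1,[z0,z1]),(z1,[y1,y3,z0,z3])]]),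
    .old (.lp [k48,k40,k72,k0,k30,k48] [k12,k12,k16,k16,k0,k0,k36,k36,k21,k21,k12,k12] k0 [] k120 k6
    [[(k7,k24),(k4,k60)],[(k2,k44),(k5,k60)],[(k2,k40),(k5,k56)],[(k3,k40),(k0,k44)],[(k3,k56),(k0,k60)],[(k1,k60),
    (k10,k60)],[(k1,k24),(k10,k24)],[(k11,k24)],[(k8,k30)],[(k9,k30)],[(k6,k24)],[(k7,k24),(k4,k60)]]
    [] k0
    [[k0,k2,k0,k0,k0,k0],[k0,k0,k0,k1,k0,k1],[k0,k0,k0,k2,k0,k2],[k0,k0,k0,k0,k2,k0],[k0,k0,k0,k0,k3,k0]]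
    [.contra [z1],.contra [y1,y1,z1],.ref k12 k0 [(z1,[z0,z1]),(z2,[y1,y2,z2])],.contra [z1],.ref k9 k0 [(z1,[z0,z1]),
    (z1,[y1,y3,z3])]]),
    .old (.lp [k6,k6,k0,k0,k4,k6] [k0,k0,k0,k0,k3,k3,k3,k3,k1,k1,k0,k0] k0 [] k12 k5
    [[(k4,k3),(k7,k3)],[(k5,k3),(k2,k6)],[(k5,k3),(k2,k6)],[(k0,k6),(k3,k6)],[(k0,k3),(k3,k3)],[(k1,k3),(k10,k3)],
    [(k1,k3),(k10,k3)],[(k11,k3)],[(k8,k4)],[(k9,k4)],[(k6,k3)],[(k4,k3),(k7,k3)]]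
    [] k0
    [[k1,k0,k1,k0,k0,k0],[k0,k0,k0,k1,k0,k1],[k0,k0,k0,k0,k2,k0]]
    [.ref k13 k0 [(z1,[z1])],.ref k6 k0 [(z1,[y1,z1])],.contra [z1]])]⟩

/-- classes `0 0 1 2 2 1`, types `B0 B1 B0 N0 N2 B1` -/
noncomputable def cU6_1543 : CertX :=
  ⟨[k8,k9,k24,k44,k46,k25],[(false,k0,[k0,k1,k2,k3,k4,k5])],[[[([z1,z1,z1,z0,z0,z0],z2)],[]]],
    [.old (.leafM k6 [k0,k1,k2,k3,k4,k5] [(z1,[y1,z1])] []),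
    .old (.lp [k6,k10,k24,k6,k6,k6] [k9,k9,k7,k7,k0,k0,k9,k9,k9,k9,k9,k9] k0 [] k30 k6
    [[(k7,k6),(k4,k15)],[(k2,k8),(k5,k15)],[(k2,k10),(k5,k17)],[(k0,k8),(k3,k10)],[(k0,k15),(k3,k17)],[(k1,k15),(k10,
    k15)],[(k1,k6),(k10,k6)],[(k8,k6)],[(k11,k6)],[(k6,k6)],[(k9,k6)],[(k7,k6),(k4,k15)]]
    [] k0
    [[k0,k2,k0,k0,k0,k0],[k0,k0,k0,k1,k1,k1]]
    [.contra [z1],.ref k0 k0 [(z1,[y1,z1])]])]⟩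

/-- classes `0 0 1 2 2 1`, types `B0 B1 B0 S0 S0 B1` -/
noncomputable def cU6_1544 : CertX :=
  ⟨[k8,k9,k24,k32,k32,k25],[(false,k0,[k0,k1,k2,k3,k4,k5])],[[[([z1,z1,z1,z0,z0,z0],z2)],[([z3,z0,z3,z0,z0,z0],z2),
    ([z0,z3,z0,z0,z0,z0],z2),([z0,z0,z0,z1,z0,z1],z2)],[([z1,z0,z1,z0,z0,z0],z1),([z0,z3,z0,z0,z0,z0],z1),([z0,z0,z0,
    z1,z0,z1],z2)],[([z3,z3,z3,z0,z0,z0],z4),([z0,z0,z0,z1,z0,z1],z2)],[([z1,z0,z1,z0,z0,z0],z1),([z0,z2,z0,z0,z0,z0],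
    z1),([z0,z0,z0,z1,z0,z1],z2)],[([z1,z0,z1,z0,z0,z0],z1),([z0,z3,z0,z0,z0,z0],z2),([z0,z0,z0,z1,z0,z1],z2)],[([z1,
    z0,z1,z0,z0,z0],z1),([z0,z1,z0,z0,z1,z0],z1)],[([z1,z1,z1,z0,z1,z0],z2)],[([z1,z0,z1,z0,z0,z0],z2),([z0,z3,z0,z0,
    z0,z0],z1),([z0,z0,z0,z1,z0,z1],z1)],[([z1,z0,z1,z0,z0,z0],z2),([z0,z3,z0,z0,z0,z0],z2),([z0,z0,z0,z1,z0,z1],z1)],
    [([z1,z0,z1,z0,z0,z0],z2),([z0,z2,z0,z0,z0,z0],z1),([z0,z0,z0,z1,z0,z1],z1)],[([z1,z0,z1,z0,z0,z0],z2),([z0,z1,z0,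
    z0,z1,z0],z1)]],[[([z1,z0,z1,z0,z0,z0],z2),([z0,z3,z0,z0,z0,z0],z2),([z0,z0,z0,z3,z0,z3],z2)],[([z1,z0,z1,z0,z0,
    z0],z2),([z0,z3,z0,z0,z0,z0],z2)],[([z1,z0,z1,z0,z0,z0],z2)],[]]],
    [.old (.leafM k4 [k0,k1,k2,k3,k4,k5] [(z1,[y1,z1])] []),
    .old (.leafM k10 [k0,k1,k2,k4] [(z1,[z0,z1]),(z1,[y1,y1,y3,z3]),(z1,[z1])] [(k3,k5,z1,[z0,z0,z1]),(k5,k3,z1,[z0,z0,
    z1])]),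
    .old (.leafM k11 [k2,k4,k0,k1] [(z1,[y3,y1,y3,z3]),(z1,[z0,z1]),(z1,[z1])] [(k3,k5,z1,[z0,z0,z1]),(k5,k3,z1,[z0,z0,
    z1])]),
    .old (.lp [k30,k30,k18,k24,k40,k96] [k33,k33,k33,k33,k39,k39,k36,k36,k28,k28,k0,k0] k0 [] k120 k6
    [[(k4,k24),(k7,k27)],[(k5,k24),(k2,k30)],[(k5,k24),(k2,k30)],[(k0,k30),(k3,k30)],[(k0,k24),(k3,k24)],[(k1,k24),
    (k10,k57)],[(k1,k27),(k10,k60)],[(k6,k24),(k8,k32),(k9,k32),(k11,k60)],[(k6,k32),(k8,k40),(k9,k40),(k11,k68)],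
    [(k6,k32),(k8,k40),(k9,k40),(k11,k68)],[(k6,k60),(k8,k68),(k9,k68),(k11,k96)],[(k4,k57),(k7,k60)]]
    [] k0
    [[k1,k0,k1,k0,k0,k0],[k2,k0,k2,k0,k0,k0],[k1,k1,k1,k0,k0,k0],[k1,k2,k1,k0,k0,k0],[k0,k2,k0,k0,k0,k0],[k0,k3,k0,k0,
    k0,k0],[k0,k0,k0,k0,k2,k0]]
    [.contra [y2,z1],.ref k2 k0 [(z2,[z1]),(z2,[y3,z2]),(z1,[z0,z0,z1])],.contra [z1,y1,y2,z2],.ref k1 k0 [(z1,[y3,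
    z2]),(z1,[z3,y1]),(z1,[z0,z0,z1])],.contra [z1],.ref k1 k0 [(z1,[y1,z1]),(z1,[z1]),(z1,[z0,z0,z1])],.contra [z1]]),
    .old (.leafM k12 [k0,k1,k2,k4] [(z1,[z0,z1]),(z1,[y2,y1,y2,z2]),(z1,[z1])] [(k3,k5,z1,[z0,z0,z1]),(k5,k3,z1,[z0,z0,
    z1])]),
    .old (.leafM k11 [k0,k1,k2,k4] [(z1,[z0,z1]),(z1,[y3,y1,y3,z3]),(z1,[z1])] [(k3,k5,z1,[z0,z0,z1]),(k5,k3,z1,[z0,z0,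
    z1])]),
    .old (.lp [k14,k10,k6,k8,k8,k32] [k9,k9,k11,k11,k13,k13,k12,k12,k12,k12,k0,k0] k0 [] k40 k6
    [[(k4,k10),(k7,k11)],[(k5,k10),(k2,k12)],[(k5,k8),(k2,k10)],[(k3,k10),(k0,k12)],[(k3,k8),(k0,k10)],[(k1,k10),(k10,
    k19)],[(k1,k11),(k10,k20)],[(k6,k8),(k8,k8),(k9,k8),(k11,k20)],[(k6,k8),(k8,k8),(k9,k8),(k11,k20)],[(k6,k8),(k8,
    k8),(k9,k8),(k11,k20)],[(k6,k20),(k8,k20),(k9,k20),(k11,k32)],[(k4,k19),(k7,k20)]]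
    [] k0
    [[k1,k0,k1,k0,k0,k0],[k1,k1,k1,k0,k0,k0],[k0,k2,k0,k0,k0,k0],[k0,k3,k0,k0,k0,k0],[k0,k0,k0,k0,k2,k0],[k0,k0,k0,k0,
    k3,k0],[k0,k0,k0,k0,k4,k0]]
    [.contra [y1,z2],.contra [z1,y1],.contra [z1],.ref k5 k0 [(z1,[z0,z1]),(z1,[z1]),(z1,[z0,y1,y1,z1])],.contra [z1],
    .ref k3 k0 [(z1,[y1,z3,z3]),(z1,[z0,y1,y1,z1])],.ref k4 k0 [(z1,[z0,z1]),(z2,[y1,z0,z4]),(z1,[z0,y1,y1,z1])]]),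
    .old (.lp [k40,k40,k8,k24,k30,k96] [k28,k28,k28,k28,k44,k44,k36,k36,k33,k33,k0,k0] k0 [] k120 k6
    [[(k4,k24),(k7,k32)],[(k5,k24),(k2,k40)],[(k5,k24),(k2,k40)],[(k0,k40),(k3,k40)],[(k0,k24),(k3,k24)],[(k1,k24),
    (k10,k52)],[(k1,k32),(k10,k60)],[(k6,k24),(k8,k27),(k9,k27),(k11,k60)],[(k6,k27),(k8,k30),(k9,k30),(k11,k63)],
    [(k6,k27),(k8,k30),(k9,k30),(k11,k63)],[(k6,k60),(k8,k63),(k9,k63),(k11,k96)],[(k4,k52),(k7,k60)]]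
    [] k0
    [[k1,k0,k1,k0,k0,k0],[k2,k0,k2,k0,k0,k0],[k1,k1,k1,k0,k0,k0],[k0,k2,k0,k0,k0,k0],[k0,k0,k0,k0,k2,k0],[k0,k0,k0,k0,
    k3,k0]]
    [.contra [y1,z1],.ref k6 k0 [(z2,[z1]),(z2,[y1,z2])],.contra [y1,z1],.contra [z1],.contra [z1],.ref k3 k0 [(z1,
    [y1,z3]),(z1,[z0,y1,z1])]]),
    .old (.leafM k11 [k3,k4,k5,k1] [(z1,[y3,y1,y3,z3]),(z1,[z0,z1]),(z1,[z0,z0,z1])] [(k0,k2,z1,[z1]),(k2,k0,z1,[z1])]),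
    .old (.leafM k8 [k5,k1,k3,k4] [(z1,[z0,z1]),(z1,[y3,y1,y3,z3]),(z1,[z0,z0,z1])] [(k0,k2,z1,[z1]),(k2,k0,z1,[z1])]),
    .old (.leafM k9 [k5,k1,k3,k4] [(z1,[z0,z1]),(z1,[y2,y1,y2,z2]),(z1,[z0,z0,z1])] [(k0,k2,z1,[z1]),(k2,k0,z1,[z1])]),
    .old (.lp [k32,k8,k8,k8,k10,k12] [k0,k0,k12,k12,k12,k12,k12,k12,k11,k11,k10,k10] k0 [] k40 k6
    [[(k4,k20),(k7,k20)],[(k2,k20),(k5,k20)],[(k2,k8),(k5,k8)],[(k3,k8),(k0,k20)],[(k3,k8),(k0,k20)],[(k10,k10),(k1,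
    k20)],[(k10,k10),(k1,k20)],[(k6,k8),(k8,k9),(k9,k9),(k11,k10)],[(k6,k9),(k8,k10),(k9,k10),(k11,k11)],[(k6,k9),(k8,
    k10),(k9,k10),(k11,k11)],[(k6,k10),(k8,k11),(k9,k11),(k11,k12)],[(k4,k10),(k7,k10)]]
    [] k0
    [[k0,k2,k0,k0,k0,k0],[k0,k3,k0,k0,k0,k0],[k0,k4,k0,k0,k0,k0],[k0,k0,k0,k1,k0,k1],[k0,k0,k0,k1,k1,k1],[k0,k0,k0,k0,
    k2,k0],[k0,k0,k0,k0,k3,k0]]
    [.contra [z1],.ref k9 k0 [(z1,[z0,z1]),(z1,[z1]),(z1,[z0,y1,y1,z1])],.ref k10 k0 [(z1,[z0,z1]),(z2,[z1]),(z1,[z0,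
    y1,y1,z1])],.contra [y2,y1,y2,z2],.contra [z1,z1,z1,y1],.contra [z1],.ref k8 k0 [(z1,[z0,z1]),(z1,[y1,z0,z3]),(z1,
    [z0,y1,y1,z1])]]),
    .old (.leafM k10 [k3,k4,k5,k1] [(z1,[y3,y1,y1,z3]),(z1,[z0,z1]),(z1,[z0,z0,z1])] [(k0,k2,z1,[z1]),(k2,k0,z1,[z1])]),
    .old (.lp [k96,k40,k24,k24,k30,k24] [k0,k0,k28,k28,k36,k36,k36,k36,k33,k33,k36,k36] k0 [] k120 k6
    [[(k4,k60),(k7,k60)],[(k5,k60),(k2,k68)],[(k5,k32),(k2,k40)],[(k3,k40),(k0,k68)],[(k3,k32),(k0,k60)],[(k10,k24),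
    (k1,k60)],[(k10,k24),(k1,k60)],[(k6,k24),(k11,k24),(k8,k27),(k9,k27)],[(k6,k27),(k11,k27),(k8,k30),(k9,k30)],[(k6,
    k27),(k11,k27),(k8,k30),(k9,k30)],[(k6,k24),(k11,k24),(k8,k27),(k9,k27)],[(k4,k24),(k7,k24)]]
    [] k0
    [[k0,k2,k0,k0,k0,k0],[k0,k0,k0,k1,k0,k1],[k0,k0,k0,k2,k0,k2],[k0,k0,k0,k1,k1,k1],[k0,k0,k0,k1,k2,k1],[k0,k0,k0,k0,
    k2,k0],[k0,k0,k0,k0,k3,k0]]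
    [.contra [z1],.contra [y1,y1,z0,z1],.ref k11 k0 [(z1,[z0,z1]),(z2,[y1,y2,z0,z2])],.contra [z1,z1,z1,y1],
    .ref k12 k0 [(z1,[z0,z1]),(z1,[z0,z0,z1]),(z1,[y3,y6,y2,z6])],.contra [z1],.ref k12 k0 [(z1,[z0,z1]),(z1,[z0,z0,
    z1]),(z1,[y1,y3,y1,z3])]]),
    .old (.lp [k96,k30,k24,k24,k40,k24] [k0,k0,k33,k33,k36,k36,k36,k36,k28,k28,k36,k36] k0 [] k120 k6
    [[(k4,k60),(k7,k60)],[(k5,k60),(k2,k63)],[(k5,k27),(k2,k30)],[(k3,k30),(k0,k63)],[(k3,k27),(k0,k60)],[(k10,k24),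
    (k1,k60)],[(k10,k24),(k1,k60)],[(k6,k24),(k11,k24),(k8,k32),(k9,k32)],[(k6,k32),(k11,k32),(k8,k40),(k9,k40)],[(k6,
    k32),(k11,k32),(k8,k40),(k9,k40)],[(k6,k24),(k11,k24),(k8,k32),(k9,k32)],[(k4,k24),(k7,k24)]]
    [] k0
    [[k0,k2,k0,k0,k0,k0],[k0,k3,k0,k0,k0,k0],[k0,k0,k0,k1,k0,k1],[k0,k0,k0,k2,k0,k2],[k0,k0,k0,k1,k1,k1],[k0,k0,k0,k0,
    k2,k0]]
    [.contra [z1],.ref k13 k0 [(z1,[z0,z1]),(z1,[z1])],.contra [y1,y1,z1],.ref k11 k0 [(z1,[z0,z1]),(z2,[y1,y2,z2])],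
    .contra [y1,y1,z1],.contra [z1]]),
    .old (.lp [k6,k12,k6,k6,k8,k6] [k3,k3,k0,k0,k3,k3,k3,k3,k2,k2,k3,k3] k0 [] k24 k5
    [[(k4,k6),(k7,k6)],[(k5,k6),(k2,k9)],[(k5,k9),(k2,k12)],[(k0,k9),(k3,k12)],[(k0,k6),(k3,k9)],[(k1,k6),(k10,k6)],
    [(k1,k6),(k10,k6)],[(k6,k6),(k11,k6),(k8,k7),(k9,k7)],[(k6,k7),(k11,k7),(k8,k8),(k9,k8)],[(k6,k7),(k11,k7),(k8,
    k8),(k9,k8)],[(k6,k6),(k11,k6),(k8,k7),(k9,k7)],[(k4,k6),(k7,k6)]]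
    [] k0
    [[k1,k0,k1,k0,k0,k0],[k0,k0,k0,k1,k0,k1],[k0,k0,k0,k1,k1,k1],[k0,k0,k0,k0,k2,k0]]
    [.ref k14 k0 [(z1,[z1])],.ref k7 k0 [(z1,[y1,z1])],.ref k0 k0 [(z1,[y1,z1])],.contra [z1]])]⟩

/-- classes `0 0 1 2 2 1`, types `B0 B1 C0 B0 B1 C0` -/
noncomputable def cU6_1545 : CertX :=
  ⟨[k8,k9,k20,k40,k41,k20],[(false,k0,[k0,k1,k2,k3,k4,k5]),(false,k3,[k3,k4,k5,k0,k1,k2])],[[[([z1,z1,z1,z0,z0,z0],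
    z2)],[([z1,z0,z1,z0,z0,z0],z1),([z0,z3,z0,z0,z0,z0],z1),([z0,z0,z0,z1,z0,z1],z2)],[([z1,z0,z1,z0,z0,z0],z1),([z0,
    z2,z0,z0,z0,z0],z1),([z0,z0,z0,z1,z0,z1],z2)],[([z1,z0,z1,z0,z0,z0],z1),([z0,z3,z0,z0,z0,z0],z2),([z0,z0,z0,z1,z0,
    z1],z2)],[([z1,z0,z1,z0,z0,z0],z1),([z0,z1,z0,z0,z1,z0],z1)],[([z3,z0,z3,z0,z0,z0],z2),([z0,z3,z0,z0,z0,z0],z2),
    ([z0,z0,z0,z1,z0,z1],z2)],[([z1,z0,z1,z0,z0,z0],z2),([z0,z3,z0,z0,z0,z0],z2)],[([z1,z0,z1,z0,z0,z0],z2)],[]]],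
    [.old (.leafM k6 [k0,k1,k2,k3,k4,k5] [(z1,[y1,z1])] []),
    .old (.leafM k11 [k2,k4,k0,k1] [(z1,[y3,y1,y3,z3]),(z1,[z0,z1]),(z1,[z1])] [(k3,k5,z1,[z0,z0,z1]),(k5,k3,z1,[z0,z0,
    z1])]),
    .old (.leafM k12 [k0,k1,k2,k4] [(z1,[z0,z1]),(z1,[y2,y1,y2,z2]),(z1,[z1])] [(k3,k5,z1,[z0,z0,z1]),(k5,k3,z1,[z0,z0,
    z1])]),
    .old (.leafM k11 [k0,k1,k2,k4] [(z1,[z0,z1]),(z1,[y3,y1,y3,z3]),(z1,[z1])] [(k3,k5,z1,[z0,z0,z1]),(k5,k3,z1,[z0,z0,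
    z1])]),
    .old (.lp [k6,k10,k14,k8,k8,k32] [k13,k13,k11,k11,k9,k9,k12,k12,k12,k12,k0,k0] k0 [] k40 k6
    [[(k4,k10),(k10,k19)],[(k2,k8),(k5,k10)],[(k2,k10),(k5,k12)],[(k0,k8),(k3,k10)],[(k0,k10),(k3,k12)],[(k1,k10),(k7,
    k11)],[(k4,k11),(k10,k20)],[(k8,k8),(k11,k20)],[(k8,k8),(k11,k20)],[(k6,k8),(k9,k8)],[(k6,k20),(k9,k20)],[(k1,
    k19),(k7,k20)]]
    [] k0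
    [[k1,k0,k1,k0,k0,k0],[k1,k1,k1,k0,k0,k0],[k0,k2,k0,k0,k0,k0],[k0,k3,k0,k0,k0,k0],[k0,k0,k0,k0,k2,k0],[k0,k0,k0,k0,
    k3,k0],[k0,k0,k0,k0,k4,k0]]
    [.contra [y1,z2],.contra [z1,y1],.contra [z1],.ref k3 k0 [(z1,[z0,z1]),(z1,[z1]),(z1,[z0,y1,y1,z1])],.contra [z1],
    .ref k1 k0 [(z1,[z0,z1]),(z1,[y1,z0,z3]),(z1,[z0,y1,y1,z1])],.ref k2 k0 [(z1,[z0,z1]),(z2,[y1,z0,z4]),(z1,[z0,y1,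
    y1,z1])]]),
    .old (.leafM k10 [k0,k1,k2,k4] [(z1,[z0,z1]),(z1,[y1,y1,y3,z3]),(z1,[z1])] [(k3,k5,z1,[z0,z0,z1]),(k5,k3,z1,[z0,z0,
    z1])]),
    .old (.lp [k18,k40,k102,k18,k30,k30] [k42,k42,k31,k31,k0,k0,k42,k42,k36,k36,k36,k36] k0 [] k120 k6
    [[(k10,k24),(k4,k60)],[(k2,k29),(k5,k60)],[(k2,k40),(k5,k71)],[(k0,k29),(k3,k40)],[(k0,k60),(k3,k71)],[(k1,k60),
    (k7,k60)],[(k10,k24),(k4,k60)],[(k8,k24),(k11,k24)],[(k8,k30),(k11,k30)],[(k6,k24),(k9,k30)],[(k6,k24),(k9,k30)],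
    [(k1,k24),(k7,k24)]]
    [] k0
    [[k0,k2,k0,k0,k0,k0],[k0,k0,k0,k1,k0,k1],[k0,k0,k0,k2,k0,k2],[k0,k0,k0,k1,k1,k1],[k0,k0,k0,k1,k2,k1],[k0,k0,k0,k0,
    k2,k0],[k0,k0,k0,k0,k3,k0]]
    [.contra [z1],.contra [y1,y1,z0,z1],.ref k4 k1 [(z2,[z1]),(z2,[y1,y2,z0,z2])],.contra [z1,z1,z1,y1],
    .ref k5 k1 [(z1,[y3,y6,y2,z6]),(z1,[z3,z3,z1,y3]),(z1,[z0,z1])],.contra [z1],.ref k5 k1 [(z1,[y1,y3,y1,z3]),(z1,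
    [z1]),(z1,[z0,z1])]]),
    .old (.lp [k18,k30,k102,k8,k40,k40] [k42,k42,k36,k36,k0,k0,k47,k47,k31,k31,k31,k31] k0 [] k120 k6
    [[(k10,k29),(k4,k60)],[(k2,k24),(k5,k60)],[(k2,k30),(k5,k66)],[(k0,k24),(k3,k30)],[(k0,k60),(k3,k66)],[(k7,k55),
    (k1,k60)],[(k10,k24),(k4,k55)],[(k8,k24),(k11,k24)],[(k8,k40),(k11,k40)],[(k6,k24),(k9,k40)],[(k6,k24),(k9,k40)],
    [(k7,k24),(k1,k29)]]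
    [] k0
    [[k0,k2,k0,k0,k0,k0],[k0,k3,k0,k0,k0,k0],[k0,k0,k0,k1,k0,k1],[k0,k0,k0,k2,k0,k2],[k0,k0,k0,k1,k1,k1],[k0,k0,k0,k0,
    k2,k0]]
    [.contra [z1],.ref k6 k0 [(z1,[z0,z1]),(z1,[z1])],.contra [y1,y1,z1],.ref k4 k1 [(z2,[z1]),(z2,[y1,y2,z2])],
    .contra [y1,y1,z1],.contra [z1]]),
    .old (.lp [k2,k6,k4,k2,k4,k4] [k2,k2,k0,k0,k1,k1,k2,k2,k1,k1,k1,k1] k0 [] k12 k5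
    [[(k4,k3),(k10,k3)],[(k5,k3),(k2,k4)],[(k5,k5),(k2,k6)],[(k0,k4),(k3,k6)],[(k0,k3),(k3,k5)],[(k1,k3),(k7,k3)],
    [(k4,k3),(k10,k3)],[(k8,k3),(k11,k3)],[(k8,k4),(k11,k4)],[(k6,k3),(k9,k4)],[(k6,k3),(k9,k4)],[(k1,k3),(k7,k3)]]
    [] k0
    [[k1,k0,k1,k0,k0,k0],[k0,k0,k0,k1,k0,k1],[k0,k0,k0,k1,k1,k1],[k0,k0,k0,k0,k2,k0]]
    [.ref k7 k0 [(z1,[z1])],.ref k7 k1 [(z1,[z1])],.ref k0 k0 [(z1,[y1,z1])],.contra [z1]])]⟩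

/-- classes `0 0 1 2 2 1`, types `B0 B1 C0 B0 B1 C2` -/
noncomputable def cU6_1546 : CertX :=
  ⟨[k8,k9,k20,k40,k41,k22],[],[[[]]],
    [.old (.lp [k6,k12,k6,k6,k8,k6] [k3,k3,k0,k0,k3,k3,k3,k3,k2,k2,k3,k3] k0 [] k24 k5
    [[(k7,k6),(k10,k6)],[(k5,k6),(k2,k9)],[(k5,k9),(k2,k12)],[(k0,k9),(k3,k12)],[(k0,k6),(k3,k9)],[(k7,k6),(k10,k6)],
    [(k1,k6),(k4,k6)],[(k11,k6),(k8,k7)],[(k11,k7),(k8,k8)],[(k6,k7),(k9,k8)],[(k6,k6),(k9,k7)],[(k1,k6),(k4,k6)]]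
    [] k0
    [[k0,k0,k0,k0,k2,k0]]
    [.contra [z1]])]⟩

/-- classes `0 0 1 2 2 1`, types `B0 B1 C0 C0 C0 C0` -/
noncomputable def cU6_1547 : CertX :=
  ⟨[k8,k9,k20,k36,k36,k20],[(false,k0,[k0,k1,k2,k3,k4,k5])],[[[([z1,z1,z1,z0,z0,z0],z2)],[([z3,z0,z3,z0,z0,z0],z2),
    ([z0,z3,z0,z0,z0,z0],z2),([z0,z0,z0,z1,z0,z1],z2)],[([z1,z0,z1,z0,z0,z0],z1),([z0,z3,z0,z0,z0,z0],z1),([z0,z0,z0,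
    z1,z0,z1],z2)],[([z3,z3,z3,z0,z0,z0],z4),([z0,z0,z0,z1,z0,z1],z2)],[([z1,z0,z1,z0,z0,z0],z1),([z0,z2,z0,z0,z0,z0],
    z1),([z0,z0,z0,z1,z0,z1],z2)],[([z1,z0,z1,z0,z0,z0],z1),([z0,z3,z0,z0,z0,z0],z2),([z0,z0,z0,z1,z0,z1],z2)],[([z1,
    z0,z1,z0,z0,z0],z1),([z0,z1,z0,z0,z1,z0],z1)],[([z1,z1,z1,z0,z1,z0],z2)],[([z1,z0,z1,z0,z0,z0],z2),([z0,z3,z0,z0,
    z0,z0],z1),([z0,z0,z0,z1,z0,z1],z1)],[([z1,z0,z1,z0,z0,z0],z2),([z0,z3,z0,z0,z0,z0],z2),([z0,z0,z0,z1,z0,z1],z1)],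
    [([z1,z0,z1,z0,z0,z0],z2),([z0,z2,z0,z0,z0,z0],z1),([z0,z0,z0,z1,z0,z1],z1)],[([z1,z0,z1,z0,z0,z0],z2),([z0,z1,z0,
    z0,z1,z0],z1)]],[[([z1,z0,z1,z0,z0,z0],z2),([z0,z3,z0,z0,z0,z0],z2),([z0,z0,z0,z3,z0,z3],z2)],[([z1,z0,z1,z0,z0,
    z0],z2),([z0,z3,z0,z0,z0,z0],z2)],[([z1,z0,z1,z0,z0,z0],z2)],[]]],
    [.old (.leafM k4 [k0,k1,k2,k3,k4,k5] [(z1,[y1,z1])] []),
    .old (.leafM k10 [k0,k1,k2,k4] [(z1,[z0,z1]),(z1,[y1,y1,y3,z3]),(z1,[z1])] [(k3,k5,z1,[z0,z0,z1]),(k5,k3,z1,[z0,z0,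
    z1])]),
    .old (.leafM k11 [k2,k4,k0,k1] [(z1,[y3,y1,y3,z3]),(z1,[z0,z1]),(z1,[z1])] [(k3,k5,z1,[z0,z0,z1]),(k5,k3,z1,[z0,z0,
    z1])]),
    .old (.lp [k30,k30,k18,k102,k40,k18] [k36,k36,k36,k36,k42,k42,k0,k0,k31,k31,k42,k42] k0 [] k120 k6
    [[(k4,k24),(k10,k24)],[(k5,k24),(k2,k30)],[(k5,k24),(k2,k30)],[(k0,k30),(k3,k30)],[(k0,k24),(k3,k24)],[(k1,k24),
    (k7,k60)],[(k4,k60),(k10,k60)],[(k11,k60),(k9,k71)],[(k8,k40),(k6,k71)],[(k11,k29),(k9,k40)],[(k8,k29),(k6,k60)],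
    [(k1,k24),(k7,k60)]]
    [] k0
    [[k1,k0,k1,k0,k0,k0],[k2,k0,k2,k0,k0,k0],[k1,k1,k1,k0,k0,k0],[k1,k2,k1,k0,k0,k0],[k0,k2,k0,k0,k0,k0],[k0,k3,k0,k0,
    k0,k0],[k0,k0,k0,k0,k2,k0]]
    [.contra [y2,z1],.ref k2 k0 [(z2,[z1]),(z2,[y3,z2]),(z1,[z0,z0,z1])],.contra [z1,y1,y2,z2],.ref k1 k0 [(z1,[y3,
    z2]),(z1,[z3,y1]),(z1,[z0,z0,z1])],.contra [z1],.ref k1 k0 [(z1,[y1,z1]),(z1,[z1]),(z1,[z0,z0,z1])],.contra [z1]]),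
    .old (.leafM k12 [k0,k1,k2,k4] [(z1,[z0,z1]),(z1,[y2,y1,y2,z2]),(z1,[z1])] [(k3,k5,z1,[z0,z0,z1]),(k5,k3,z1,[z0,z0,
    z1])]),
    .old (.leafM k11 [k0,k1,k2,k4] [(z1,[z0,z1]),(z1,[y3,y1,y3,z3]),(z1,[z1])] [(k3,k5,z1,[z0,z0,z1]),(k5,k3,z1,[z0,z0,
    z1])]),
    .old (.lp [k8,k10,k12,k32,k8,k8] [k12,k12,k11,k11,k10,k10,k0,k0,k12,k12,k12,k12] k0 [] k40 k6
    [[(k10,k8),(k4,k10)],[(k2,k9),(k5,k10)],[(k2,k10),(k5,k11)],[(k0,k9),(k3,k10)],[(k0,k10),(k3,k11)],[(k1,k10),(k7,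
    k22)],[(k10,k20),(k4,k22)],[(k9,k20),(k11,k20)],[(k8,k8),(k6,k20)],[(k9,k8),(k11,k8)],[(k8,k8),(k6,k20)],[(k1,k8),
    (k7,k20)]]
    [] k0
    [[k1,k0,k1,k0,k0,k0],[k1,k1,k1,k0,k0,k0],[k0,k2,k0,k0,k0,k0],[k0,k3,k0,k0,k0,k0],[k0,k0,k0,k0,k2,k0],[k0,k0,k0,k0,
    k3,k0],[k0,k0,k0,k0,k4,k0]]
    [.contra [y1,z2],.contra [z1,y1],.contra [z1],.ref k5 k0 [(z1,[z0,z1]),(z1,[z1]),(z1,[z0,y1,y1,z1])],.contra [z1],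
    .ref k3 k0 [(z1,[y1,z3,z3]),(z1,[z0,y1,y1,z1])],.ref k4 k0 [(z1,[z0,z1]),(z2,[y1,z0,z4]),(z1,[z0,y1,y1,z1])]]),
    .old (.lp [k30,k40,k18,k102,k30,k18] [k36,k36,k31,k31,k42,k42,k0,k0,k36,k36,k42,k42] k0 [] k120 k6
    [[(k4,k24),(k10,k24)],[(k5,k24),(k2,k35)],[(k5,k29),(k2,k40)],[(k0,k35),(k3,k40)],[(k0,k24),(k3,k29)],[(k1,k24),
    (k7,k60)],[(k4,k60),(k10,k60)],[(k11,k60),(k9,k66)],[(k8,k30),(k6,k66)],[(k11,k24),(k9,k30)],[(k8,k24),(k6,k60)],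
    [(k1,k24),(k7,k60)]]
    [] k0
    [[k1,k0,k1,k0,k0,k0],[k2,k0,k2,k0,k0,k0],[k1,k1,k1,k0,k0,k0],[k0,k2,k0,k0,k0,k0],[k0,k0,k0,k0,k2,k0],[k0,k0,k0,k0,
    k3,k0]]
    [.contra [y1,z1],.ref k6 k0 [(z2,[z1]),(z2,[y1,z2])],.contra [y1,z1],.contra [z1],.contra [z1],.ref k3 k0 [(z1,
    [y1,z3]),(z1,[z0,y1,z1])]]),
    .old (.leafM k11 [k3,k4,k5,k1] [(z1,[y3,y1,y3,z3]),(z1,[z0,z1]),(z1,[z0,z0,z1])] [(k0,k2,z1,[z1]),(k2,k0,z1,[z1])]),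
    .old (.leafM k11 [k5,k1,k3,k4] [(z1,[z0,z1]),(z1,[y3,y1,y3,z3]),(z1,[z0,z0,z1])] [(k0,k2,z1,[z1]),(k2,k0,z1,[z1])]),
    .old (.leafM k12 [k3,k4,k5,k1] [(z1,[y2,y1,y2,z2]),(z1,[z0,z1]),(z1,[z0,z0,z1])] [(k0,k2,z1,[z1]),(k2,k0,z1,[z1])]),
    .old (.lp [k10,k8,k30,k14,k10,k6] [k10,k10,k11,k11,k0,k0,k8,k8,k10,k10,k12,k12] k0 [] k40 k6
    [[(k10,k8),(k4,k20)],[(k2,k9),(k5,k20)],[(k2,k8),(k5,k19)],[(k3,k8),(k0,k9)],[(k3,k19),(k0,k20)],[(k1,k20),(k7,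
    k22)],[(k10,k10),(k4,k22)],[(k11,k10),(k9,k12)],[(k8,k10),(k6,k12)],[(k11,k8),(k9,k10)],[(k8,k8),(k6,k10)],[(k1,
    k8),(k7,k10)]]
    [] k0
    [[k0,k2,k0,k0,k0,k0],[k0,k3,k0,k0,k0,k0],[k0,k4,k0,k0,k0,k0],[k0,k0,k0,k1,k0,k1],[k0,k0,k0,k1,k1,k1],[k0,k0,k0,k0,
    k2,k0],[k0,k0,k0,k0,k3,k0]]
    [.contra [z1],.ref k9 k0 [(z1,[z0,z1]),(z1,[z1]),(z1,[z0,y1,y1,z1])],.ref k10 k0 [(z1,[z0,z1]),(z2,[z1]),(z1,[z0,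
    y1,y1,z1])],.contra [y2,y1,y2,z2],.contra [z1,z1,z1,y1],.contra [z1],.ref k8 k0 [(z1,[z0,z1]),(z1,[y1,z0,z3]),(z1,
    [z0,y1,y1,z1])]]),
    .old (.leafM k10 [k3,k4,k5,k1] [(z1,[y3,y1,y1,z3]),(z1,[z0,z1]),(z1,[z0,z0,z1])] [(k0,k2,z1,[z1]),(k2,k0,z1,[z1])]),
    .old (.lp [k30,k40,k90,k30,k30,k18] [k30,k30,k25,k25,k0,k0,k30,k30,k30,k30,k36,k36] k0 [] k120 k6
    [[(k10,k24),(k4,k60)],[(k2,k35),(k5,k60)],[(k2,k40),(k5,k65)],[(k0,k35),(k3,k40)],[(k0,k60),(k3,k65)],[(k1,k60),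
    (k7,k60)],[(k10,k24),(k4,k60)],[(k11,k24),(k9,k30)],[(k6,k30),(k8,k30)],[(k11,k24),(k9,k30)],[(k6,k24),(k8,k24)],
    [(k1,k24),(k7,k24)]]
    [] k0
    [[k0,k2,k0,k0,k0,k0],[k0,k0,k0,k1,k0,k1],[k0,k0,k0,k2,k0,k2],[k0,k0,k0,k1,k1,k1],[k0,k0,k0,k1,k2,k1],[k0,k0,k0,k0,
    k2,k0],[k0,k0,k0,k0,k3,k0]]
    [.contra [z1],.contra [y1,y1,z0,z1],.ref k11 k0 [(z1,[z0,z1]),(z2,[y1,y2,z0,z2])],.contra [z1,z1,z1,y1],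
    .ref k12 k0 [(z1,[z0,z1]),(z1,[z0,z0,z1]),(z1,[y3,y6,y2,z6])],.contra [z1],.ref k12 k0 [(z1,[z0,z1]),(z1,[z0,z0,
    z1]),(z1,[y1,y3,y1,z3])]]),
    .old (.lp [k40,k30,k80,k40,k40,k8] [k20,k20,k25,k25,k0,k0,k20,k20,k20,k20,k36,k36] k0 [] k120 k6
    [[(k10,k24),(k4,k60)],[(k2,k35),(k5,k60)],[(k2,k30),(k5,k55)],[(k3,k30),(k0,k35)],[(k3,k55),(k0,k60)],[(k1,k60),
    (k7,k60)],[(k10,k24),(k4,k60)],[(k11,k24),(k9,k40)],[(k6,k40),(k8,k40)],[(k11,k24),(k9,k40)],[(k6,k24),(k8,k24)],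
    [(k1,k24),(k7,k24)]]
    [] k0
    [[k0,k2,k0,k0,k0,k0],[k0,k3,k0,k0,k0,k0],[k0,k0,k0,k1,k0,k1],[k0,k0,k0,k2,k0,k2],[k0,k0,k0,k1,k1,k1],[k0,k0,k0,k0,
    k2,k0]]
    [.contra [z1],.ref k13 k0 [(z1,[z0,z1]),(z1,[z1])],.contra [y1,y1,z1],.ref k11 k0 [(z1,[z0,z1]),(z2,[y1,y2,z2])],
    .contra [y1,y1,z1],.contra [z1]]),
    .old (.lp [k4,k6,k2,k4,k4,k2] [k1,k1,k0,k0,k2,k2,k1,k1,k1,k1,k2,k2] k0 [] k12 k5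
    [[(k4,k3),(k10,k3)],[(k5,k3),(k2,k5)],[(k5,k4),(k2,k6)],[(k0,k5),(k3,k6)],[(k0,k3),(k3,k4)],[(k1,k3),(k7,k3)],
    [(k4,k3),(k10,k3)],[(k11,k3),(k9,k4)],[(k6,k4),(k8,k4)],[(k11,k3),(k9,k4)],[(k6,k3),(k8,k3)],[(k1,k3),(k7,k3)]]
    [] k0
    [[k1,k0,k1,k0,k0,k0],[k0,k0,k0,k1,k0,k1],[k0,k0,k0,k1,k1,k1],[k0,k0,k0,k0,k2,k0]]
    [.ref k14 k0 [(z1,[z1])],.ref k7 k0 [(z1,[y1,z1])],.ref k0 k0 [(z1,[y1,z1])],.contra [z1]])]⟩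

/-- classes `0 0 1 2 2 1`, types `B0 B1 C0 C0 C0 C2` -/
noncomputable def cU6_1548 : CertX :=
  ⟨[k8,k9,k20,k36,k36,k22],[],[[[]]],
    [.old (.lp [k6,k12,k6,k6,k8,k6] [k3,k3,k0,k0,k3,k3,k3,k3,k2,k2,k3,k3] k0 [] k24 k5
    [[(k7,k6),(k10,k6)],[(k5,k6),(k2,k9)],[(k5,k9),(k2,k12)],[(k0,k9),(k3,k12)],[(k0,k6),(k3,k9)],[(k7,k6),(k10,k6)],
    [(k1,k6),(k4,k6)],[(k11,k6),(k9,k7)],[(k6,k7),(k8,k8)],[(k11,k7),(k9,k8)],[(k6,k6),(k8,k7)],[(k1,k6),(k4,k6)]]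
    [] k0
    [[k0,k0,k0,k0,k2,k0]]
    [.contra [z1]])]⟩

/-- classes `0 0 1 2 2 1`, types `B0 B1 C0 C0 C2 C0` -/
noncomputable def cU6_1549 : CertX :=
  ⟨[k8,k9,k20,k36,k38,k20],[(false,k0,[k0,k1,k2,k3,k4,k5])],[[[([z1,z1,z1,z0,z0,z0],z2)],[]]],
    [.old (.leafM k4 [k0,k1,k2,k3,k4,k5] [(z1,[y1,z1])] []),
    .old (.lp [k6,k10,k24,k6,k6,k6] [k9,k9,k7,k7,k0,k0,k9,k9,k9,k9,k9,k9] k0 [] k30 k6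
    [[(k10,k6),(k4,k15)],[(k2,k8),(k5,k15)],[(k2,k10),(k5,k17)],[(k0,k8),(k3,k10)],[(k0,k15),(k3,k17)],[(k1,k15),(k7,
    k15)],[(k10,k6),(k4,k15)],[(k8,k6),(k9,k6)],[(k6,k6),(k11,k6)],[(k6,k6),(k11,k6)],[(k8,k6),(k9,k6)],[(k1,k6),(k7,
    k6)]]
    [] k0
    [[k0,k2,k0,k0,k0,k0],[k0,k0,k0,k1,k1,k1]]
    [.contra [z1],.ref k0 k0 [(z1,[y1,z1])]])]⟩

/-- classes `0 0 1 2 2 1`, types `B0 B1 C0 C0 C2 C2` -/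
noncomputable def cU6_1550 : CertX :=
  ⟨[k8,k9,k20,k36,k38,k22],[],[[[]]],
    [.old (.lp [k2,k4,k2,k2,k2,k2] [k1,k1,k0,k0,k1,k1,k1,k1,k1,k1,k1,k1] k0 [] k8 k5
    [[(k7,k2),(k10,k2)],[(k5,k2),(k2,k3)],[(k5,k3),(k2,k4)],[(k0,k3),(k3,k4)],[(k0,k2),(k3,k3)],[(k7,k2),(k10,k2)],
    [(k1,k2),(k4,k2)],[(k8,k2),(k9,k2)],[(k6,k2),(k11,k2)],[(k6,k2),(k11,k2)],[(k8,k2),(k9,k2)],[(k1,k2),(k4,k2)]]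
    [] k0
    []
    [])]⟩

/-- classes `0 0 1 2 2 1`, types `B0 B1 C0 N0 N1 C0` -/
noncomputable def cU6_1551 : CertX :=
  ⟨[k8,k9,k20,k44,k45,k20],[(false,k0,[k0,k1,k2,k3,k4,k5])],[[[([z3,z0,z3,z0,z0,z0],z2),([z0,z3,z0,z0,z0,z0],z2),([z0,
    z0,z0,z1,z0,z1],z2)],[([z1,z0,z1,z0,z0,z0],z1),([z0,z3,z0,z0,z0,z0],z1),([z0,z0,z0,z1,z0,z1],z2)],[([z3,z3,z3,z0,
    z0,z0],z4),([z0,z0,z0,z1,z0,z1],z2)],[([z1,z0,z1,z0,z0,z0],z1),([z0,z2,z0,z0,z0,z0],z1),([z0,z0,z0,z1,z0,z1],z2)],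
    [([z1,z0,z1,z0,z0,z0],z1),([z0,z3,z0,z0,z0,z0],z2),([z0,z0,z0,z1,z0,z1],z2)],[([z1,z0,z1,z0,z0,z0],z1),([z0,z1,z0,
    z0,z1,z0],z1)],[([z1,z1,z1,z0,z1,z0],z2)],[([z1,z0,z1,z0,z0,z0],z2),([z0,z3,z0,z0,z0,z0],z1),([z0,z0,z0,z1,z0,z1],
    z1)],[([z1,z0,z1,z0,z0,z0],z2),([z0,z2,z0,z0,z0,z0],z1),([z0,z0,z0,z1,z0,z1],z1)],[([z1,z0,z1,z0,z0,z0],z2),([z0,
    z3,z0,z0,z0,z0],z2),([z0,z0,z0,z1,z0,z1],z1)],[([z1,z0,z1,z0,z0,z0],z2),([z0,z1,z0,z0,z1,z0],z1)],[([z1,z0,z1,z0,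
    z0,z0],z2),([z0,z3,z0,z0,z0,z0],z2),([z0,z0,z0,z3,z0,z3],z2)]],[[([z1,z0,z1,z0,z0,z0],z2),([z0,z3,z0,z0,z0,z0],
    z2)],[([z1,z0,z1,z0,z0,z0],z2)],[]]],
    [.old (.leafM k10 [k0,k1,k2,k4] [(z1,[z0,z1]),(z1,[y1,y1,y3,z3]),(z1,[z1])] [(k3,k5,z1,[z0,z0,z1]),(k5,k3,z1,[z0,z0,
    z1])]),
    .old (.leafM k11 [k2,k4,k0,k1] [(z1,[y3,y1,y3,z3]),(z1,[z0,z1]),(z1,[z1])] [(k3,k5,z1,[z0,z0,z1]),(k5,k3,z1,[z0,z0,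
    z1])]),
    .old (.lp [k30,k30,k18,k102,k40,k18] [k36,k36,k36,k36,k42,k42,k0,k0,k31,k31,k42,k42] k0 [] k120 k6
    [[(k4,k24),(k10,k24)],[(k5,k24),(k2,k30)],[(k5,k24),(k2,k30)],[(k0,k30),(k3,k30)],[(k0,k24),(k3,k24)],[(k1,k24),
    (k7,k60)],[(k4,k60),(k10,k60)],[(k11,k60)],[(k8,k40)],[(k9,k40)],[(k6,k60)],[(k1,k24),(k7,k60)]]
    [] k0
    [[k1,k0,k1,k0,k0,k0],[k2,k0,k2,k0,k0,k0],[k1,k1,k1,k0,k0,k0],[k1,k2,k1,k0,k0,k0],[k0,k2,k0,k0,k0,k0],[k0,k3,k0,k0,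
    k0,k0],[k0,k0,k0,k0,k2,k0]]
    [.contra [y2,z1],.ref k1 k0 [(z2,[z1]),(z2,[y3,z2]),(z1,[z0,z0,z1])],.contra [z1,y1,y2,z2],.ref k0 k0 [(z1,[y3,
    z2]),(z1,[z3,y1]),(z1,[z0,z0,z1])],.contra [z1],.ref k0 k0 [(z1,[y1,z1]),(z1,[z1]),(z1,[z0,z0,z1])],.contra [z1]]),
    .old (.leafM k12 [k0,k1,k2,k4] [(z1,[z0,z1]),(z1,[y2,y1,y2,z2]),(z1,[z1])] [(k3,k5,z1,[z0,z0,z1]),(k5,k3,z1,[z0,z0,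
    z1])]),
    .old (.leafM k11 [k0,k1,k2,k4] [(z1,[z0,z1]),(z1,[y3,y1,y3,z3]),(z1,[z1])] [(k3,k5,z1,[z0,z0,z1]),(k5,k3,z1,[z0,z0,
    z1])]),
    .old (.lp [k14,k10,k6,k38,k8,k2] [k12,k12,k14,k14,k16,k16,k0,k0,k15,k15,k18,k18] k0 [] k40 k6
    [[(k10,k8),(k4,k10)],[(k5,k10),(k2,k12)],[(k5,k8),(k2,k10)],[(k3,k10),(k0,k12)],[(k3,k8),(k0,k10)],[(k1,k10),(k7,
    k22)],[(k10,k20),(k4,k22)],[(k11,k20)],[(k8,k8)],[(k9,k8)],[(k6,k20)],[(k1,k8),(k7,k20)]]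
    [] k0
    [[k1,k0,k1,k0,k0,k0],[k1,k1,k1,k0,k0,k0],[k0,k2,k0,k0,k0,k0],[k0,k3,k0,k0,k0,k0],[k0,k0,k0,k0,k2,k0],[k0,k0,k0,k0,
    k3,k0],[k0,k0,k0,k0,k4,k0]]
    [.contra [y1,z2],.contra [z1,y1],.contra [z1],.ref k4 k0 [(z1,[z0,z1]),(z1,[z1]),(z1,[z0,y1,y1,z1])],.contra [z1],
    .ref k2 k0 [(z1,[y1,z3,z3]),(z1,[z0,y1,y1,z1])],.ref k3 k0 [(z1,[z0,z1]),(z2,[y1,z0,z4]),(z1,[z0,y1,y1,z1])]]),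
    .old (.lp [k40,k40,k8,k112,k30,k8] [k36,k36,k36,k36,k52,k52,k0,k0,k41,k41,k52,k52] k0 [] k120 k6
    [[(k4,k24),(k10,k24)],[(k5,k24),(k2,k40)],[(k5,k24),(k2,k40)],[(k0,k40),(k3,k40)],[(k0,k24),(k3,k24)],[(k1,k24),
    (k7,k60)],[(k4,k60),(k10,k60)],[(k11,k60)],[(k8,k30)],[(k9,k30)],[(k6,k60)],[(k1,k24),(k7,k60)]]
    [] k0
    [[k1,k0,k1,k0,k0,k0],[k2,k0,k2,k0,k0,k0],[k1,k1,k1,k0,k0,k0],[k0,k2,k0,k0,k0,k0],[k0,k0,k0,k0,k2,k0],[k0,k0,k0,k0,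
    k3,k0]]
    [.contra [y1,z1],.ref k5 k0 [(z2,[z1]),(z2,[y1,z2])],.contra [y1,z1],.contra [z1],.contra [z1],.ref k2 k0 [(z1,
    [y1,z3]),(z1,[z0,y1,z1])]]),
    .old (.leafM k11 [k3,k4,k5,k1] [(z1,[y3,y1,y3,z3]),(z1,[z0,z1]),(z1,[z0,z0,z1])] [(k0,k2,z1,[z1]),(k2,k0,z1,[z1])]),
    .old (.leafM k12 [k3,k4,k5,k1] [(z1,[y2,y1,y2,z2]),(z1,[z0,z1]),(z1,[z0,z0,z1])] [(k0,k2,z1,[z1]),(k2,k0,z1,[z1])]),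
    .old (.leafM k11 [k5,k1,k3,k4] [(z1,[z0,z1]),(z1,[y3,y1,y3,z3]),(z1,[z0,z0,z1])] [(k0,k2,z1,[z1]),(k2,k0,z1,[z1])]),
    .old (.lp [k16,k10,k24,k20,k8,k0] [k4,k4,k7,k7,k0,k0,k2,k2,k8,k8,k12,k12] k0 [] k40 k6
    [[(k10,k8),(k4,k20)],[(k2,k13),(k5,k20)],[(k2,k10),(k5,k17)],[(k3,k10),(k0,k13)],[(k3,k17),(k0,k20)],[(k1,k20),
    (k7,k22)],[(k10,k10),(k4,k22)],[(k11,k10)],[(k8,k8)],[(k9,k8)],[(k6,k10)],[(k1,k8),(k7,k10)]]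
    [] k0
    [[k0,k2,k0,k0,k0,k0],[k0,k3,k0,k0,k0,k0],[k0,k0,k0,k1,k0,k1],[k0,k0,k0,k0,k2,k0],[k0,k0,k0,k0,k3,k0],[k0,k0,k0,k0,
    k4,k0]]
    [.contra [z1],.ref k9 k0 [(z1,[z0,z1]),(z1,[z1]),(z1,[z0,y1,y1,z1])],.contra [y2,y1,y2,z2],.contra [z1],
    .ref k7 k0 [(z1,[z0,z1]),(z1,[y1,z0,z3]),(z1,[z0,y1,y1,z1])],.ref k8 k0 [(z1,[z0,z1]),(z2,[y1,z0,z4]),(z1,[z0,y1,
    y1,z1])]]),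
    .old (.leafM k10 [k3,k4,k5,k1] [(z1,[y3,y1,y1,z3]),(z1,[z0,z1]),(z1,[z0,z0,z1])] [(k0,k2,z1,[z1]),(k2,k0,z1,[z1])]),
    .old (.lp [k48,k40,k72,k48,k30,k0] [k12,k12,k16,k16,k0,k0,k12,k12,k21,k21,k36,k36] k0 [] k120 k6
    [[(k10,k24),(k4,k60)],[(k2,k44),(k5,k60)],[(k2,k40),(k5,k56)],[(k3,k40),(k0,k44)],[(k3,k56),(k0,k60)],[(k1,k60),
    (k7,k60)],[(k10,k24),(k4,k60)],[(k11,k24)],[(k8,k30)],[(k9,k30)],[(k6,k24)],[(k1,k24),(k7,k24)]]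
    [] k0
    [[k0,k2,k0,k0,k0,k0],[k0,k0,k0,k1,k0,k1],[k0,k0,k0,k2,k0,k2],[k0,k0,k0,k0,k2,k0],[k0,k0,k0,k0,k3,k0]]
    [.contra [z1],.contra [y1,y1,z0,z1],.ref k10 k0 [(z1,[z0,z1]),(z2,[y1,y2,z0,z2])],.contra [z1],.ref k11 k0 [(z1,
    [z0,z1]),(z1,[z0,z0,z1]),(z1,[y1,y3,y1,z3])]]),
    .old (.lp [k48,k30,k72,k48,k40,k0] [k12,k12,k21,k21,k0,k0,k12,k12,k16,k16,k36,k36] k0 [] k120 k6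
    [[(k10,k24),(k4,k60)],[(k2,k39),(k5,k60)],[(k2,k30),(k5,k51)],[(k3,k30),(k0,k39)],[(k3,k51),(k0,k60)],[(k1,k60),
    (k7,k60)],[(k10,k24),(k4,k60)],[(k11,k24)],[(k8,k40)],[(k9,k40)],[(k6,k24)],[(k1,k24),(k7,k24)]]
    [] k0
    [[k0,k2,k0,k0,k0,k0],[k0,k3,k0,k0,k0,k0],[k0,k0,k0,k1,k0,k1],[k0,k0,k0,k2,k0,k2],[k0,k0,k0,k0,k2,k0]]
    [.contra [z1],.ref k12 k0 [(z1,[z0,z1]),(z1,[z1])],.contra [y1,y1,z1],.ref k10 k0 [(z1,[z0,z1]),(z2,[y1,y2,z2])],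
    .contra [z1]]),
    .old (.lp [k6,k6,k0,k6,k4,k0] [k0,k0,k0,k0,k3,k3,k0,k0,k1,k1,k3,k3] k0 [] k12 k5
    [[(k4,k3),(k10,k3)],[(k5,k3),(k2,k6)],[(k5,k3),(k2,k6)],[(k0,k6),(k3,k6)],[(k0,k3),(k3,k3)],[(k1,k3),(k7,k3)],
    [(k4,k3),(k10,k3)],[(k11,k3)],[(k8,k4)],[(k9,k4)],[(k6,k3)],[(k1,k3),(k7,k3)]]
    [] k0
    [[k1,k0,k1,k0,k0,k0],[k0,k0,k0,k1,k0,k1],[k0,k0,k0,k0,k2,k0]]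
    [.ref k13 k0 [(z1,[z1])],.ref k6 k0 [(z1,[y1,z1])],.contra [z1]])]⟩

/-- classes `0 0 1 2 2 1`, types `B0 B1 C0 N0 N1 C2` -/
noncomputable def cU6_1552 : CertX :=
  ⟨[k8,k9,k20,k44,k45,k22],[],[[[]]],
    [.old (.lp [k6,k12,k6,k6,k8,k6] [k3,k3,k0,k0,k3,k3,k3,k3,k2,k2,k3,k3] k0 [] k24 k5
    [[(k7,k6),(k10,k6)],[(k5,k6),(k2,k9)],[(k5,k9),(k2,k12)],[(k0,k9),(k3,k12)],[(k0,k6),(k3,k9)],[(k7,k6),(k10,k6)],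
    [(k1,k6),(k4,k6)],[(k11,k6)],[(k8,k8)],[(k9,k8)],[(k6,k6)],[(k1,k6),(k4,k6)]]
    [] k0
    [[k0,k0,k0,k0,k2,k0]]
    [.contra [z1]])]⟩

/-- classes `0 0 1 2 2 1`, types `B0 B1 C0 N0 N2 C0` -/
noncomputable def cU6_1553 : CertX :=
  ⟨[k8,k9,k20,k44,k46,k20],[(false,k0,[k0,k1,k2,k3,k4,k5])],[[[([z1,z1,z1,z0,z0,z0],z2)],[]]],
    [.old (.leafM k6 [k0,k1,k2,k3,k4,k5] [(z1,[y1,z1])] []),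
    .old (.lp [k6,k10,k24,k6,k6,k6] [k9,k9,k7,k7,k0,k0,k9,k9,k9,k9,k9,k9] k0 [] k30 k6
    [[(k10,k6),(k4,k15)],[(k2,k8),(k5,k15)],[(k2,k10),(k5,k17)],[(k0,k8),(k3,k10)],[(k0,k15),(k3,k17)],[(k1,k15),(k7,
    k15)],[(k10,k6),(k4,k15)],[(k8,k6)],[(k11,k6)],[(k6,k6)],[(k9,k6)],[(k1,k6),(k7,k6)]]
    [] k0
    [[k0,k2,k0,k0,k0,k0],[k0,k0,k0,k1,k1,k1]]
    [.contra [z1],.ref k0 k0 [(z1,[y1,z1])]])]⟩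

/-- classes `0 0 1 2 2 1`, types `B0 B1 C0 N0 N2 C2` -/
noncomputable def cU6_1554 : CertX :=
  ⟨[k8,k9,k20,k44,k46,k22],[],[[[]]],
    [.old (.lp [k2,k4,k2,k2,k2,k2] [k1,k1,k0,k0,k1,k1,k1,k1,k1,k1,k1,k1] k0 [] k8 k5
    [[(k7,k2),(k10,k2)],[(k5,k2),(k2,k3)],[(k5,k3),(k2,k4)],[(k0,k3),(k3,k4)],[(k0,k2),(k3,k3)],[(k7,k2),(k10,k2)],
    [(k1,k2),(k4,k2)],[(k8,k2)],[(k11,k2)],[(k6,k2)],[(k9,k2)],[(k1,k2),(k4,k2)]]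
    [] k0
    []
    [])]⟩

/-- classes `0 0 1 2 2 1`, types `B0 B1 C0 S0 S0 C0` -/
noncomputable def cU6_1555 : CertX :=
  ⟨[k8,k9,k20,k32,k32,k20],[(false,k0,[k0,k1,k2,k3,k4,k5])],[[[([z1,z1,z1,z0,z0,z0],z2)],[([z3,z0,z3,z0,z0,z0],z2),
    ([z0,z3,z0,z0,z0,z0],z2),([z0,z0,z0,z1,z0,z1],z2)],[([z1,z0,z1,z0,z0,z0],z1),([z0,z3,z0,z0,z0,z0],z1),([z0,z0,z0,
    z1,z0,z1],z2)],[([z3,z3,z3,z0,z0,z0],z4),([z0,z0,z0,z1,z0,z1],z2)],[([z1,z0,z1,z0,z0,z0],z1),([z0,z2,z0,z0,z0,z0],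
    z1),([z0,z0,z0,z1,z0,z1],z2)],[([z1,z0,z1,z0,z0,z0],z1),([z0,z3,z0,z0,z0,z0],z2),([z0,z0,z0,z1,z0,z1],z2)],[([z1,
    z0,z1,z0,z0,z0],z1),([z0,z1,z0,z0,z1,z0],z1)],[([z1,z1,z1,z0,z1,z0],z2)],[([z1,z0,z1,z0,z0,z0],z2),([z0,z3,z0,z0,
    z0,z0],z1),([z0,z0,z0,z1,z0,z1],z1)],[([z1,z0,z1,z0,z0,z0],z2),([z0,z3,z0,z0,z0,z0],z2),([z0,z0,z0,z1,z0,z1],z1)],
    [([z1,z0,z1,z0,z0,z0],z2),([z0,z2,z0,z0,z0,z0],z1),([z0,z0,z0,z1,z0,z1],z1)],[([z1,z0,z1,z0,z0,z0],z2),([z0,z1,z0,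
    z0,z1,z0],z1)]],[[([z1,z0,z1,z0,z0,z0],z2),([z0,z3,z0,z0,z0,z0],z2),([z0,z0,z0,z3,z0,z3],z2)],[([z1,z0,z1,z0,z0,
    z0],z2),([z0,z3,z0,z0,z0,z0],z2)],[([z1,z0,z1,z0,z0,z0],z2)],[]]],
    [.old (.leafM k4 [k0,k1,k2,k3,k4,k5] [(z1,[y1,z1])] []),
    .old (.leafM k10 [k0,k1,k2,k4] [(z1,[z0,z1]),(z1,[y1,y1,y3,z3]),(z1,[z1])] [(k3,k5,z1,[z0,z0,z1]),(k5,k3,z1,[z0,z0,
    z1])]),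
    .old (.leafM k11 [k2,k4,k0,k1] [(z1,[y3,y1,y3,z3]),(z1,[z0,z1]),(z1,[z1])] [(k3,k5,z1,[z0,z0,z1]),(k5,k3,z1,[z0,z0,
    z1])]),
    .old (.lp [k30,k30,k18,k30,k40,k90] [k30,k30,k30,k30,k36,k36,k30,k30,k25,k25,k0,k0] k0 [] k120 k6
    [[(k4,k24),(k10,k60)],[(k5,k24),(k2,k30)],[(k5,k24),(k2,k30)],[(k0,k30),(k3,k30)],[(k0,k24),(k3,k24)],[(k1,k24),
    (k7,k24)],[(k4,k24),(k10,k60)],[(k6,k30),(k8,k35),(k9,k35),(k11,k60)],[(k6,k35),(k8,k40),(k9,k40),(k11,k65)],[(k6,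
    k35),(k8,k40),(k9,k40),(k11,k65)],[(k6,k60),(k8,k65),(k9,k65),(k11,k90)],[(k1,k60),(k7,k60)]]
    [] k0
    [[k1,k0,k1,k0,k0,k0],[k2,k0,k2,k0,k0,k0],[k1,k1,k1,k0,k0,k0],[k1,k2,k1,k0,k0,k0],[k0,k2,k0,k0,k0,k0],[k0,k3,k0,k0,
    k0,k0],[k0,k0,k0,k0,k2,k0]]
    [.contra [y2,z1],.ref k2 k0 [(z2,[z1]),(z2,[y3,z2]),(z1,[z0,z0,z1])],.contra [z1,y1,y2,z2],.ref k1 k0 [(z1,[y3,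
    z2]),(z1,[z3,y1]),(z1,[z0,z0,z1])],.contra [z1],.ref k1 k0 [(z1,[y1,z1]),(z1,[z1]),(z1,[z0,z0,z1])],.contra [z1]]),
    .old (.leafM k12 [k0,k1,k2,k4] [(z1,[z0,z1]),(z1,[y2,y1,y2,z2]),(z1,[z1])] [(k3,k5,z1,[z0,z0,z1]),(k5,k3,z1,[z0,z0,
    z1])]),
    .old (.leafM k11 [k0,k1,k2,k4] [(z1,[z0,z1]),(z1,[y3,y1,y3,z3]),(z1,[z1])] [(k3,k5,z1,[z0,z0,z1]),(k5,k3,z1,[z0,z0,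
    z1])]),
    .old (.lp [k14,k10,k6,k10,k8,k30] [k8,k8,k10,k10,k12,k12,k10,k10,k11,k11,k0,k0] k0 [] k40 k6
    [[(k4,k10),(k10,k22)],[(k5,k10),(k2,k12)],[(k5,k8),(k2,k10)],[(k3,k10),(k0,k12)],[(k3,k8),(k0,k10)],[(k7,k8),(k1,
    k10)],[(k4,k8),(k10,k20)],[(k8,k9),(k9,k9),(k6,k10),(k11,k20)],[(k8,k8),(k9,k8),(k6,k9),(k11,k19)],[(k8,k8),(k9,
    k8),(k6,k9),(k11,k19)],[(k8,k19),(k9,k19),(k6,k20),(k11,k30)],[(k7,k20),(k1,k22)]]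
    [] k0
    [[k1,k0,k1,k0,k0,k0],[k1,k1,k1,k0,k0,k0],[k0,k2,k0,k0,k0,k0],[k0,k3,k0,k0,k0,k0],[k0,k0,k0,k0,k2,k0],[k0,k0,k0,k0,
    k3,k0],[k0,k0,k0,k0,k4,k0]]
    [.contra [y1,z2],.contra [z1,y1],.contra [z1],.ref k5 k0 [(z1,[z0,z1]),(z1,[z1]),(z1,[z0,y1,y1,z1])],.contra [z1],
    .ref k3 k0 [(z1,[y1,z3,z3]),(z1,[z0,y1,y1,z1])],.ref k4 k0 [(z1,[z0,z1]),(z2,[y1,z0,z4]),(z1,[z0,y1,y1,z1])]]),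
    .old (.lp [k40,k40,k8,k40,k30,k80] [k20,k20,k20,k20,k36,k36,k20,k20,k25,k25,k0,k0] k0 [] k120 k6
    [[(k4,k24),(k10,k60)],[(k5,k24),(k2,k40)],[(k5,k24),(k2,k40)],[(k0,k40),(k3,k40)],[(k0,k24),(k3,k24)],[(k1,k24),
    (k7,k24)],[(k4,k24),(k10,k60)],[(k8,k35),(k9,k35),(k6,k40),(k11,k60)],[(k8,k30),(k9,k30),(k6,k35),(k11,k55)],[(k8,
    k30),(k9,k30),(k6,k35),(k11,k55)],[(k8,k55),(k9,k55),(k6,k60),(k11,k80)],[(k1,k60),(k7,k60)]]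
    [] k0
    [[k1,k0,k1,k0,k0,k0],[k2,k0,k2,k0,k0,k0],[k1,k1,k1,k0,k0,k0],[k0,k2,k0,k0,k0,k0],[k0,k0,k0,k0,k2,k0],[k0,k0,k0,k0,
    k3,k0]]
    [.contra [y1,z1],.ref k6 k0 [(z2,[z1]),(z2,[y1,z2])],.contra [y1,z1],.contra [z1],.contra [z1],.ref k3 k0 [(z1,
    [y1,z3]),(z1,[z0,y1,z1])]]),
    .old (.leafM k11 [k3,k4,k5,k1] [(z1,[y3,y1,y3,z3]),(z1,[z0,z1]),(z1,[z0,z0,z1])] [(k0,k2,z1,[z1]),(k2,k0,z1,[z1])]),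
    .old (.leafM k8 [k5,k1,k3,k4] [(z1,[z0,z1]),(z1,[y3,y1,y3,z3]),(z1,[z0,z0,z1])] [(k0,k2,z1,[z1]),(k2,k0,z1,[z1])]),
    .old (.leafM k9 [k5,k1,k3,k4] [(z1,[z0,z1]),(z1,[y2,y1,y2,z2]),(z1,[z0,z0,z1])] [(k0,k2,z1,[z1]),(k2,k0,z1,[z1])]),
    .old (.lp [k32,k8,k8,k8,k10,k12] [k0,k0,k12,k12,k12,k12,k12,k12,k11,k11,k10,k10] k0 [] k40 k6
    [[(k4,k20),(k10,k22)],[(k2,k20),(k5,k20)],[(k2,k8),(k5,k8)],[(k3,k8),(k0,k20)],[(k3,k8),(k0,k20)],[(k7,k8),(k1,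
    k20)],[(k4,k8),(k10,k10)],[(k6,k8),(k8,k9),(k9,k9),(k11,k10)],[(k6,k9),(k8,k10),(k9,k10),(k11,k11)],[(k6,k9),(k8,
    k10),(k9,k10),(k11,k11)],[(k6,k10),(k8,k11),(k9,k11),(k11,k12)],[(k7,k10),(k1,k22)]]
    [] k0
    [[k0,k2,k0,k0,k0,k0],[k0,k3,k0,k0,k0,k0],[k0,k4,k0,k0,k0,k0],[k0,k0,k0,k1,k0,k1],[k0,k0,k0,k1,k1,k1],[k0,k0,k0,k0,
    k2,k0],[k0,k0,k0,k0,k3,k0]]
    [.contra [z1],.ref k9 k0 [(z1,[z0,z1]),(z1,[z1]),(z1,[z0,y1,y1,z1])],.ref k10 k0 [(z1,[z0,z1]),(z2,[z1]),(z1,[z0,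
    y1,y1,z1])],.contra [y2,y1,y2,z2],.contra [z1,z1,z1,y1],.contra [z1],.ref k8 k0 [(z1,[z0,z1]),(z1,[y1,z0,z3]),(z1,
    [z0,y1,y1,z1])]]),
    .old (.leafM k10 [k3,k4,k5,k1] [(z1,[y3,y1,y1,z3]),(z1,[z0,z1]),(z1,[z0,z0,z1])] [(k0,k2,z1,[z1]),(k2,k0,z1,[z1])]),
    .old (.lp [k96,k40,k24,k24,k30,k24] [k0,k0,k28,k28,k36,k36,k36,k36,k33,k33,k36,k36] k0 [] k120 k6
    [[(k4,k60),(k10,k60)],[(k5,k60),(k2,k68)],[(k5,k32),(k2,k40)],[(k3,k40),(k0,k68)],[(k3,k32),(k0,k60)],[(k7,k24),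
    (k1,k60)],[(k4,k24),(k10,k24)],[(k6,k24),(k11,k24),(k8,k27),(k9,k27)],[(k6,k27),(k11,k27),(k8,k30),(k9,k30)],[(k6,
    k27),(k11,k27),(k8,k30),(k9,k30)],[(k6,k24),(k11,k24),(k8,k27),(k9,k27)],[(k7,k24),(k1,k60)]]
    [] k0
    [[k0,k2,k0,k0,k0,k0],[k0,k0,k0,k1,k0,k1],[k0,k0,k0,k2,k0,k2],[k0,k0,k0,k1,k1,k1],[k0,k0,k0,k1,k2,k1],[k0,k0,k0,k0,
    k2,k0],[k0,k0,k0,k0,k3,k0]]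
    [.contra [z1],.contra [y1,y1,z0,z1],.ref k11 k0 [(z1,[z0,z1]),(z2,[y1,y2,z0,z2])],.contra [z1,z1,z1,y1],
    .ref k12 k0 [(z1,[z0,z1]),(z1,[z0,z0,z1]),(z1,[y3,y6,y2,z6])],.contra [z1],.ref k12 k0 [(z1,[z0,z1]),(z1,[z0,z0,
    z1]),(z1,[y1,y3,y1,z3])]]),
    .old (.lp [k96,k30,k24,k24,k40,k24] [k0,k0,k33,k33,k36,k36,k36,k36,k28,k28,k36,k36] k0 [] k120 k6
    [[(k4,k60),(k10,k60)],[(k5,k60),(k2,k63)],[(k5,k27),(k2,k30)],[(k3,k30),(k0,k63)],[(k3,k27),(k0,k60)],[(k7,k24),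
    (k1,k60)],[(k4,k24),(k10,k24)],[(k6,k24),(k11,k24),(k8,k32),(k9,k32)],[(k6,k32),(k11,k32),(k8,k40),(k9,k40)],[(k6,
    k32),(k11,k32),(k8,k40),(k9,k40)],[(k6,k24),(k11,k24),(k8,k32),(k9,k32)],[(k7,k24),(k1,k60)]]
    [] k0
    [[k0,k2,k0,k0,k0,k0],[k0,k3,k0,k0,k0,k0],[k0,k0,k0,k1,k0,k1],[k0,k0,k0,k2,k0,k2],[k0,k0,k0,k1,k1,k1],[k0,k0,k0,k0,
    k2,k0]]
    [.contra [z1],.ref k13 k0 [(z1,[z0,z1]),(z1,[z1])],.contra [y1,y1,z1],.ref k11 k0 [(z1,[z0,z1]),(z2,[y1,y2,z2])],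
    .contra [y1,y1,z1],.contra [z1]]),
    .old (.lp [k6,k12,k6,k6,k8,k6] [k3,k3,k0,k0,k3,k3,k3,k3,k2,k2,k3,k3] k0 [] k24 k5
    [[(k4,k6),(k10,k6)],[(k5,k6),(k2,k9)],[(k5,k9),(k2,k12)],[(k0,k9),(k3,k12)],[(k0,k6),(k3,k9)],[(k1,k6),(k7,k6)],
    [(k4,k6),(k10,k6)],[(k6,k6),(k11,k6),(k8,k7),(k9,k7)],[(k6,k7),(k11,k7),(k8,k8),(k9,k8)],[(k6,k7),(k11,k7),(k8,
    k8),(k9,k8)],[(k6,k6),(k11,k6),(k8,k7),(k9,k7)],[(k1,k6),(k7,k6)]]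
    [] k0
    [[k1,k0,k1,k0,k0,k0],[k0,k0,k0,k1,k0,k1],[k0,k0,k0,k1,k1,k1],[k0,k0,k0,k0,k2,k0]]
    [.ref k14 k0 [(z1,[z1])],.ref k7 k0 [(z1,[y1,z1])],.ref k0 k0 [(z1,[y1,z1])],.contra [z1]])]⟩

/-- classes `0 0 1 2 2 1`, types `B0 B1 C0 S0 S0 C2` -/
noncomputable def cU6_1556 : CertX :=
  ⟨[k8,k9,k20,k32,k32,k22],[],[[[]]],
    [.old (.lp [k6,k8,k6,k6,k12,k6] [k3,k3,k2,k2,k3,k3,k3,k3,k0,k0,k3,k3] k0 [] k24 k5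
    [[(k7,k6),(k10,k6)],[(k5,k6),(k2,k7)],[(k5,k7),(k2,k8)],[(k0,k7),(k3,k8)],[(k0,k6),(k3,k7)],[(k7,k6),(k10,k6)],
    [(k1,k6),(k4,k6)],[(k6,k6),(k11,k6),(k8,k9),(k9,k9)],[(k6,k9),(k11,k9),(k8,k12),(k9,k12)],[(k6,k9),(k11,k9),(k8,
    k12),(k9,k12)],[(k6,k6),(k11,k6),(k8,k9),(k9,k9)],[(k1,k6),(k4,k6)]]
    [] k0
    [[k0,k2,k0,k0,k0,k0]]
    [.contra [z1]])]⟩

/-- classes `0 0 1 2 2 1`, types `B0 B1 N0 B0 B1 N1` -/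
noncomputable def cU6_1557 : CertX :=
  ⟨[k8,k9,k28,k40,k41,k29],[(false,k0,[k0,k1,k2,k3,k4,k5]),(false,k3,[k3,k4,k5,k0,k1,k2])],[[[([z1,z1,z1,z0,z0,z0],
    z2)],[([z1,z0,z1,z0,z0,z0],z1),([z0,z3,z0,z0,z0,z0],z1),([z0,z0,z0,z1,z0,z1],z2)],[([z1,z0,z1,z0,z0,z0],z1),([z0,
    z2,z0,z0,z0,z0],z1),([z0,z0,z0,z1,z0,z1],z2)],[([z1,z0,z1,z0,z0,z0],z1),([z0,z3,z0,z0,z0,z0],z2),([z0,z0,z0,z1,z0,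
    z1],z2)],[([z1,z0,z1,z0,z0,z0],z1),([z0,z1,z0,z0,z1,z0],z1)],[([z3,z0,z3,z0,z0,z0],z2),([z0,z3,z0,z0,z0,z0],z2),
    ([z0,z0,z0,z1,z0,z1],z2)],[([z1,z0,z1,z0,z0,z0],z2),([z0,z3,z0,z0,z0,z0],z2)],[([z1,z0,z1,z0,z0,z0],z2)],[]]],
    [.old (.leafM k6 [k0,k1,k2,k3,k4,k5] [(z1,[y1,z1])] []),
    .old (.leafM k11 [k2,k4,k0,k1] [(z1,[y3,y1,y3,z3]),(z1,[z0,z1]),(z1,[z1])] [(k3,k5,z1,[z0,z0,z1]),(k5,k3,z1,[z0,z0,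
    z1])]),
    .old (.leafM k12 [k0,k1,k2,k4] [(z1,[z0,z1]),(z1,[y2,y1,y2,z2]),(z1,[z1])] [(k3,k5,z1,[z0,z0,z1]),(k5,k3,z1,[z0,z0,
    z1])]),
    .old (.leafM k11 [k0,k1,k2,k4] [(z1,[z0,z1]),(z1,[y3,y1,y3,z3]),(z1,[z1])] [(k3,k5,z1,[z0,z0,z1]),(k5,k3,z1,[z0,z0,
    z1])]),
    .old (.lp [k6,k10,k14,k8,k8,k32] [k13,k13,k11,k11,k9,k9,k12,k12,k12,k12,k0,k0] k0 [] k40 k6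
    [[(k4,k10)],[(k2,k8),(k5,k10)],[(k2,k10),(k5,k12)],[(k0,k8),(k3,k10)],[(k0,k10),(k3,k12)],[(k1,k10)],[(k10,k20)],
    [(k8,k8),(k11,k20)],[(k8,k8),(k11,k20)],[(k6,k8),(k9,k8)],[(k6,k20),(k9,k20)],[(k7,k20)]]
    [] k0
    [[k1,k0,k1,k0,k0,k0],[k1,k1,k1,k0,k0,k0],[k0,k2,k0,k0,k0,k0],[k0,k3,k0,k0,k0,k0],[k0,k0,k0,k0,k2,k0],[k0,k0,k0,k0,
    k3,k0],[k0,k0,k0,k0,k4,k0]]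
    [.contra [y1,z2],.contra [z1,y1],.contra [z1],.ref k3 k0 [(z1,[z0,z1]),(z1,[z1]),(z1,[z0,y1,y1,z1])],.contra [z1],
    .ref k1 k0 [(z1,[z0,z1]),(z1,[y1,z0,z3]),(z1,[z0,y1,y1,z1])],.ref k2 k0 [(z1,[z0,z1]),(z2,[y1,z0,z4]),(z1,[z0,y1,
    y1,z1])]]),
    .old (.leafM k10 [k0,k1,k2,k4] [(z1,[z0,z1]),(z1,[y1,y1,y3,z3]),(z1,[z1])] [(k3,k5,z1,[z0,z0,z1]),(k5,k3,z1,[z0,z0,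
    z1])]),
    .old (.lp [k8,k40,k112,k18,k30,k30] [k52,k52,k36,k36,k0,k0,k47,k47,k41,k41,k41,k41] k0 [] k120 k6
    [[(k4,k60)],[(k2,k24),(k5,k60)],[(k2,k40),(k5,k76)],[(k0,k24),(k3,k40)],[(k0,k60),(k3,k76)],[(k1,k60)],[(k10,
    k24)],[(k8,k24),(k11,k24)],[(k8,k30),(k11,k30)],[(k6,k24),(k9,k30)],[(k6,k24),(k9,k30)],[(k7,k24)]]
    [] k0
    [[k0,k2,k0,k0,k0,k0],[k0,k0,k0,k1,k0,k1],[k0,k0,k0,k2,k0,k2],[k0,k0,k0,k1,k1,k1],[k0,k0,k0,k1,k2,k1],[k0,k0,k0,k0,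
    k2,k0],[k0,k0,k0,k0,k3,k0]]
    [.contra [z1],.contra [y1,y1,z0,z1],.ref k4 k1 [(z2,[z1]),(z2,[y1,y2,z0,z2])],.contra [z1,z1,z1,y1],
    .ref k5 k1 [(z1,[y3,y6,y2,z6]),(z1,[z3,z3,z1,y3]),(z1,[z0,z1])],.contra [z1],.ref k5 k1 [(z1,[y1,y3,y1,z3]),(z1,
    [z1]),(z1,[z0,z1])]]),
    .old (.lp [k18,k30,k102,k8,k40,k40] [k42,k42,k36,k36,k0,k0,k47,k47,k31,k31,k31,k31] k0 [] k120 k6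
    [[(k4,k60)],[(k2,k24),(k5,k60)],[(k2,k30),(k5,k66)],[(k0,k24),(k3,k30)],[(k0,k60),(k3,k66)],[(k1,k60)],[(k10,
    k24)],[(k8,k24),(k11,k24)],[(k8,k40),(k11,k40)],[(k6,k24),(k9,k40)],[(k6,k24),(k9,k40)],[(k7,k24)]]
    [] k0
    [[k0,k2,k0,k0,k0,k0],[k0,k3,k0,k0,k0,k0],[k0,k0,k0,k1,k0,k1],[k0,k0,k0,k2,k0,k2],[k0,k0,k0,k1,k1,k1],[k0,k0,k0,k0,
    k2,k0]]
    [.contra [z1],.ref k6 k0 [(z1,[z0,z1]),(z1,[z1])],.contra [y1,y1,z1],.ref k4 k1 [(z2,[z1]),(z2,[y1,y2,z2])],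
    .contra [y1,y1,z1],.contra [z1]]),
    .old (.lp [k0,k6,k6,k2,k4,k4] [k3,k3,k0,k0,k0,k0,k2,k2,k1,k1,k1,k1] k0 [] k12 k5
    [[(k4,k3)],[(k2,k3),(k5,k3)],[(k2,k6),(k5,k6)],[(k0,k3),(k3,k6)],[(k0,k3),(k3,k6)],[(k1,k3)],[(k10,k3)],[(k8,k3),
    (k11,k3)],[(k8,k4),(k11,k4)],[(k6,k3),(k9,k4)],[(k6,k3),(k9,k4)],[(k7,k3)]]
    [] k0
    [[k1,k0,k1,k0,k0,k0],[k0,k0,k0,k1,k0,k1],[k0,k0,k0,k1,k1,k1],[k0,k0,k0,k0,k2,k0]]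
    [.ref k7 k0 [(z1,[z1])],.ref k7 k1 [(z1,[z1])],.ref k0 k0 [(z1,[y1,z1])],.contra [z1]])]⟩

/-- classes `0 0 1 2 2 1`, types `B0 B1 N0 B0 B1 N2` -/
noncomputable def cU6_1558 : CertX :=
  ⟨[k8,k9,k28,k40,k41,k30],[],[[[]]],
    [.old (.lp [k4,k6,k2,k2,k4,k4] [k1,k1,k0,k0,k2,k2,k2,k2,k1,k1,k1,k1] k0 [] k12 k5
    [[(k7,k3)],[(k5,k3),(k2,k5)],[(k5,k4),(k2,k6)],[(k0,k5),(k3,k6)],[(k0,k3),(k3,k4)],[(k10,k3)],[(k1,k3)],[(k8,k3),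
    (k11,k3)],[(k8,k4),(k11,k4)],[(k6,k3),(k9,k4)],[(k6,k3),(k9,k4)],[(k4,k3)]]
    [] k0
    [[k0,k0,k0,k0,k2,k0]]
    [.contra [z1]])]⟩

/-- classes `0 0 1 2 2 1`, types `B0 B1 N0 C0 C0 N1` -/
noncomputable def cU6_1559 : CertX :=
  ⟨[k8,k9,k28,k36,k36,k29],[(false,k0,[k0,k1,k2,k3,k4,k5])],[[[([z1,z1,z1,z0,z0,z0],z2)],[([z3,z0,z3,z0,z0,z0],z2),
    ([z0,z3,z0,z0,z0,z0],z2),([z0,z0,z0,z1,z0,z1],z2)],[([z1,z0,z1,z0,z0,z0],z1),([z0,z3,z0,z0,z0,z0],z1),([z0,z0,z0,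
    z1,z0,z1],z2)],[([z3,z3,z3,z0,z0,z0],z4),([z0,z0,z0,z1,z0,z1],z2)],[([z1,z0,z1,z0,z0,z0],z1),([z0,z2,z0,z0,z0,z0],
    z1),([z0,z0,z0,z1,z0,z1],z2)],[([z1,z0,z1,z0,z0,z0],z1),([z0,z3,z0,z0,z0,z0],z2),([z0,z0,z0,z1,z0,z1],z2)],[([z1,
    z0,z1,z0,z0,z0],z1),([z0,z1,z0,z0,z1,z0],z1)],[([z1,z1,z1,z0,z1,z0],z2)],[([z1,z0,z1,z0,z0,z0],z2),([z0,z3,z0,z0,
    z0,z0],z1),([z0,z0,z0,z1,z0,z1],z1)],[([z1,z0,z1,z0,z0,z0],z2),([z0,z3,z0,z0,z0,z0],z2),([z0,z0,z0,z1,z0,z1],z1)],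
    [([z1,z0,z1,z0,z0,z0],z2),([z0,z2,z0,z0,z0,z0],z1),([z0,z0,z0,z1,z0,z1],z1)],[([z1,z0,z1,z0,z0,z0],z2),([z0,z1,z0,
    z0,z1,z0],z1)]],[[([z1,z0,z1,z0,z0,z0],z2),([z0,z3,z0,z0,z0,z0],z2),([z0,z0,z0,z3,z0,z3],z2)],[([z1,z0,z1,z0,z0,
    z0],z2),([z0,z3,z0,z0,z0,z0],z2)],[([z1,z0,z1,z0,z0,z0],z2)],[]]],
    [.old (.leafM k4 [k0,k1,k2,k3,k4,k5] [(z1,[y1,z1])] []),
    .old (.leafM k10 [k0,k1,k2,k4] [(z1,[z0,z1]),(z1,[y1,y1,y3,z3]),(z1,[z1])] [(k3,k5,z1,[z0,z0,z1]),(k5,k3,z1,[z0,z0,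
    z1])]),
    .old (.leafM k11 [k2,k4,k0,k1] [(z1,[y3,y1,y3,z3]),(z1,[z0,z1]),(z1,[z1])] [(k3,k5,z1,[z0,z0,z1]),(k5,k3,z1,[z0,z0,
    z1])]),
    .old (.lp [k18,k30,k30,k112,k40,k8] [k47,k47,k41,k41,k41,k41,k0,k0,k36,k36,k52,k52] k0 [] k120 k6
    [[(k4,k24)],[(k2,k24),(k5,k24)],[(k2,k30),(k5,k30)],[(k0,k24),(k3,k30)],[(k0,k24),(k3,k30)],[(k1,k24)],[(k10,
    k60)],[(k11,k60),(k9,k76)],[(k8,k40),(k6,k76)],[(k11,k24),(k9,k40)],[(k8,k24),(k6,k60)],[(k7,k60)]]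
    [] k0
    [[k1,k0,k1,k0,k0,k0],[k2,k0,k2,k0,k0,k0],[k1,k1,k1,k0,k0,k0],[k1,k2,k1,k0,k0,k0],[k0,k2,k0,k0,k0,k0],[k0,k3,k0,k0,
    k0,k0],[k0,k0,k0,k0,k2,k0]]
    [.contra [y2,z1],.ref k2 k0 [(z2,[z1]),(z2,[y3,z2]),(z1,[z0,z0,z1])],.contra [z1,y1,y2,z2],.ref k1 k0 [(z1,[y3,
    z2]),(z1,[z3,y1]),(z1,[z0,z0,z1])],.contra [z1],.ref k1 k0 [(z1,[y1,z1]),(z1,[z1]),(z1,[z0,z0,z1])],.contra [z1]]),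
    .old (.leafM k12 [k0,k1,k2,k4] [(z1,[z0,z1]),(z1,[y2,y1,y2,z2]),(z1,[z1])] [(k3,k5,z1,[z0,z0,z1]),(k5,k3,z1,[z0,z0,
    z1])]),
    .old (.leafM k11 [k0,k1,k2,k4] [(z1,[z0,z1]),(z1,[y3,y1,y3,z3]),(z1,[z1])] [(k3,k5,z1,[z0,z0,z1]),(k5,k3,z1,[z0,z0,
    z1])]),
    .old (.lp [k6,k10,k14,k32,k8,k8] [k13,k13,k11,k11,k9,k9,k0,k0,k12,k12,k12,k12] k0 [] k40 k6
    [[(k4,k10)],[(k2,k8),(k5,k10)],[(k2,k10),(k5,k12)],[(k0,k8),(k3,k10)],[(k0,k10),(k3,k12)],[(k1,k10)],[(k10,k20)],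
    [(k9,k20),(k11,k20)],[(k8,k8),(k6,k20)],[(k9,k8),(k11,k8)],[(k8,k8),(k6,k20)],[(k7,k20)]]
    [] k0
    [[k1,k0,k1,k0,k0,k0],[k1,k1,k1,k0,k0,k0],[k0,k2,k0,k0,k0,k0],[k0,k3,k0,k0,k0,k0],[k0,k0,k0,k0,k2,k0],[k0,k0,k0,k0,
    k3,k0],[k0,k0,k0,k0,k4,k0]]
    [.contra [y1,z2],.contra [z1,y1],.contra [z1],.ref k5 k0 [(z1,[z0,z1]),(z1,[z1]),(z1,[z0,y1,y1,z1])],.contra [z1],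
    .ref k3 k0 [(z1,[y1,z3,z3]),(z1,[z0,y1,y1,z1])],.ref k4 k0 [(z1,[z0,z1]),(z2,[y1,z0,z4]),(z1,[z0,y1,y1,z1])]]),
    .old (.lp [k8,k40,k40,k102,k30,k18] [k47,k47,k31,k31,k31,k31,k0,k0,k36,k36,k42,k42] k0 [] k120 k6
    [[(k4,k24)],[(k2,k24),(k5,k24)],[(k2,k40),(k5,k40)],[(k0,k24),(k3,k40)],[(k0,k24),(k3,k40)],[(k1,k24)],[(k10,
    k60)],[(k11,k60),(k9,k66)],[(k8,k30),(k6,k66)],[(k11,k24),(k9,k30)],[(k8,k24),(k6,k60)],[(k7,k60)]]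
    [] k0
    [[k1,k0,k1,k0,k0,k0],[k2,k0,k2,k0,k0,k0],[k1,k1,k1,k0,k0,k0],[k0,k2,k0,k0,k0,k0],[k0,k0,k0,k0,k2,k0],[k0,k0,k0,k0,
    k3,k0]]
    [.contra [y1,z1],.ref k6 k0 [(z2,[z1]),(z2,[y1,z2])],.contra [y1,z1],.contra [z1],.contra [z1],.ref k3 k0 [(z1,
    [y1,z3]),(z1,[z0,y1,z1])]]),
    .old (.leafM k11 [k3,k4,k5,k1] [(z1,[y3,y1,y3,z3]),(z1,[z0,z1]),(z1,[z0,z0,z1])] [(k0,k2,z1,[z1]),(k2,k0,z1,[z1])]),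
    .old (.leafM k11 [k5,k1,k3,k4] [(z1,[z0,z1]),(z1,[y3,y1,y3,z3]),(z1,[z0,z0,z1])] [(k0,k2,z1,[z1]),(k2,k0,z1,[z1])]),
    .old (.leafM k12 [k3,k4,k5,k1] [(z1,[y2,y1,y2,z2]),(z1,[z0,z1]),(z1,[z0,z0,z1])] [(k0,k2,z1,[z1]),(k2,k0,z1,[z1])]),
    .old (.lp [k8,k8,k32,k14,k10,k6] [k12,k12,k12,k12,k0,k0,k9,k9,k11,k11,k13,k13] k0 [] k40 k6
    [[(k4,k20)],[(k2,k8),(k5,k20)],[(k2,k8),(k5,k20)],[(k0,k8),(k3,k8)],[(k0,k20),(k3,k20)],[(k1,k20)],[(k10,k10)],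
    [(k11,k10),(k9,k12)],[(k8,k10),(k6,k12)],[(k11,k8),(k9,k10)],[(k8,k8),(k6,k10)],[(k7,k10)]]
    [] k0
    [[k0,k2,k0,k0,k0,k0],[k0,k3,k0,k0,k0,k0],[k0,k4,k0,k0,k0,k0],[k0,k0,k0,k1,k0,k1],[k0,k0,k0,k1,k1,k1],[k0,k0,k0,k0,
    k2,k0],[k0,k0,k0,k0,k3,k0]]
    [.contra [z1],.ref k9 k0 [(z1,[z0,z1]),(z1,[z1]),(z1,[z0,y1,y1,z1])],.ref k10 k0 [(z1,[z0,z1]),(z2,[z1]),(z1,[z0,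
    y1,y1,z1])],.contra [y2,y1,y2,z2],.contra [z1,z1,z1,y1],.contra [z1],.ref k8 k0 [(z1,[z0,z1]),(z1,[y1,z0,z3]),(z1,
    [z0,y1,y1,z1])]]),
    .old (.leafM k10 [k3,k4,k5,k1] [(z1,[y3,y1,y1,z3]),(z1,[z0,z1]),(z1,[z0,z0,z1])] [(k0,k2,z1,[z1]),(k2,k0,z1,[z1])]),
    .old (.lp [k8,k40,k112,k30,k30,k18] [k52,k52,k36,k36,k0,k0,k41,k41,k41,k41,k47,k47] k0 [] k120 k6
    [[(k4,k60)],[(k2,k24),(k5,k60)],[(k2,k40),(k5,k76)],[(k0,k24),(k3,k40)],[(k0,k60),(k3,k76)],[(k1,k60)],[(k10,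
    k24)],[(k11,k24),(k9,k30)],[(k6,k30),(k8,k30)],[(k11,k24),(k9,k30)],[(k6,k24),(k8,k24)],[(k7,k24)]]
    [] k0
    [[k0,k2,k0,k0,k0,k0],[k0,k0,k0,k1,k0,k1],[k0,k0,k0,k2,k0,k2],[k0,k0,k0,k1,k1,k1],[k0,k0,k0,k1,k2,k1],[k0,k0,k0,k0,
    k2,k0],[k0,k0,k0,k0,k3,k0]]
    [.contra [z1],.contra [y1,y1,z0,z1],.ref k11 k0 [(z1,[z0,z1]),(z2,[y1,y2,z0,z2])],.contra [z1,z1,z1,y1],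
    .ref k12 k0 [(z1,[z0,z1]),(z1,[z0,z0,z1]),(z1,[y3,y6,y2,z6])],.contra [z1],.ref k12 k0 [(z1,[z0,z1]),(z1,[z0,z0,
    z1]),(z1,[y1,y3,y1,z3])]]),
    .old (.lp [k18,k30,k102,k40,k40,k8] [k42,k42,k36,k36,k0,k0,k31,k31,k31,k31,k47,k47] k0 [] k120 k6
    [[(k4,k60)],[(k2,k24),(k5,k60)],[(k2,k30),(k5,k66)],[(k0,k24),(k3,k30)],[(k0,k60),(k3,k66)],[(k1,k60)],[(k10,
    k24)],[(k11,k24),(k9,k40)],[(k6,k40),(k8,k40)],[(k11,k24),(k9,k40)],[(k6,k24),(k8,k24)],[(k7,k24)]]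
    [] k0
    [[k0,k2,k0,k0,k0,k0],[k0,k3,k0,k0,k0,k0],[k0,k0,k0,k1,k0,k1],[k0,k0,k0,k2,k0,k2],[k0,k0,k0,k1,k1,k1],[k0,k0,k0,k0,
    k2,k0]]
    [.contra [z1],.ref k13 k0 [(z1,[z0,z1]),(z1,[z1])],.contra [y1,y1,z1],.ref k11 k0 [(z1,[z0,z1]),(z2,[y1,y2,z2])],
    .contra [y1,y1,z1],.contra [z1]]),
    .old (.lp [k0,k6,k6,k4,k4,k2] [k3,k3,k0,k0,k0,k0,k1,k1,k1,k1,k2,k2] k0 [] k12 k5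
    [[(k4,k3)],[(k2,k3),(k5,k3)],[(k2,k6),(k5,k6)],[(k0,k3),(k3,k6)],[(k0,k3),(k3,k6)],[(k1,k3)],[(k10,k3)],[(k11,k3),
    (k9,k4)],[(k6,k4),(k8,k4)],[(k11,k3),(k9,k4)],[(k6,k3),(k8,k3)],[(k7,k3)]]
    [] k0
    [[k1,k0,k1,k0,k0,k0],[k0,k0,k0,k1,k0,k1],[k0,k0,k0,k1,k1,k1],[k0,k0,k0,k0,k2,k0]]
    [.ref k14 k0 [(z1,[z1])],.ref k7 k0 [(z1,[y1,z1])],.ref k0 k0 [(z1,[y1,z1])],.contra [z1]])]⟩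

/-- classes `0 0 1 2 2 1`, types `B0 B1 N0 C0 C0 N2` -/
noncomputable def cU6_1560 : CertX :=
  ⟨[k8,k9,k28,k36,k36,k30],[],[[[]]],
    [.old (.lp [k2,k6,k4,k4,k4,k2] [k2,k2,k0,k0,k1,k1,k1,k1,k1,k1,k2,k2] k0 [] k12 k5
    [[(k7,k3)],[(k5,k3),(k2,k4)],[(k5,k5),(k2,k6)],[(k0,k4),(k3,k6)],[(k0,k3),(k3,k5)],[(k10,k3)],[(k1,k3)],[(k11,k3),
    (k9,k4)],[(k6,k4),(k8,k4)],[(k11,k3),(k9,k4)],[(k6,k3),(k8,k3)],[(k4,k3)]]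
    [] k0
    [[k0,k0,k0,k0,k2,k0]]
    [.contra [z1]])]⟩

/-- classes `0 0 1 2 2 1`, types `B0 B1 N0 C0 C2 N1` -/
noncomputable def cU6_1561 : CertX :=
  ⟨[k8,k9,k28,k36,k38,k29],[(false,k0,[k0,k1,k2,k3,k4,k5])],[[[([z1,z1,z1,z0,z0,z0],z2)],[]]],
    [.old (.leafM k4 [k0,k1,k2,k3,k4,k5] [(z1,[y1,z1])] []),
    .old (.lp [k10,k40,k110,k24,k24,k24] [k50,k50,k35,k35,k0,k0,k43,k43,k43,k43,k43,k43] k0 [] k120 k6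
    [[(k4,k60)],[(k2,k25),(k5,k60)],[(k2,k40),(k5,k75)],[(k0,k25),(k3,k40)],[(k0,k60),(k3,k75)],[(k1,k60)],[(k10,
    k24)],[(k8,k24),(k9,k24)],[(k6,k24),(k11,k24)],[(k6,k24),(k11,k24)],[(k8,k24),(k9,k24)],[(k7,k24)]]
    [] k0
    [[k0,k2,k0,k0,k0,k0],[k0,k0,k0,k1,k1,k1]]
    [.contra [z1],.ref k0 k0 [(z1,[y1,z1])]])]⟩

/-- classes `0 0 1 2 2 1`, types `B0 B1 N0 C0 C2 N2` -/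
noncomputable def cU6_1562 : CertX :=
  ⟨[k8,k9,k28,k36,k38,k30],[],[[[]]],
    [.old (.lp [k2,k4,k2,k2,k2,k2] [k1,k1,k0,k0,k1,k1,k1,k1,k1,k1,k1,k1] k0 [] k8 k5
    [[(k7,k2)],[(k5,k2),(k2,k3)],[(k5,k3),(k2,k4)],[(k0,k3),(k3,k4)],[(k0,k2),(k3,k3)],[(k10,k2)],[(k1,k2)],[(k8,k2),
    (k9,k2)],[(k6,k2),(k11,k2)],[(k6,k2),(k11,k2)],[(k8,k2),(k9,k2)],[(k4,k2)]]
    [] k0
    []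
    [])]⟩

/-- classes `0 0 1 2 2 1`, types `B0 B1 N0 N0 N1 N1` -/
noncomputable def cU6_1563 : CertX :=
  ⟨[k8,k9,k28,k44,k45,k29],[(false,k0,[k0,k1,k2,k3,k4,k5])],[[[([z3,z0,z3,z0,z0,z0],z2),([z0,z3,z0,z0,z0,z0],z2),([z0,
    z0,z0,z1,z0,z1],z2)],[([z1,z0,z1,z0,z0,z0],z1),([z0,z3,z0,z0,z0,z0],z1),([z0,z0,z0,z1,z0,z1],z2)],[([z3,z3,z3,z0,
    z0,z0],z4),([z0,z0,z0,z1,z0,z1],z2)],[([z1,z0,z1,z0,z0,z0],z1),([z0,z2,z0,z0,z0,z0],z1),([z0,z0,z0,z1,z0,z1],z2)],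
    [([z1,z0,z1,z0,z0,z0],z1),([z0,z3,z0,z0,z0,z0],z2),([z0,z0,z0,z1,z0,z1],z2)],[([z1,z0,z1,z0,z0,z0],z1),([z0,z1,z0,
    z0,z1,z0],z1)],[([z1,z1,z1,z0,z1,z0],z2)],[([z1,z0,z1,z0,z0,z0],z2),([z0,z3,z0,z0,z0,z0],z1),([z0,z0,z0,z1,z0,z1],
    z1)],[([z1,z0,z1,z0,z0,z0],z2),([z0,z2,z0,z0,z0,z0],z1),([z0,z0,z0,z1,z0,z1],z1)],[([z1,z0,z1,z0,z0,z0],z2),([z0,
    z3,z0,z0,z0,z0],z2),([z0,z0,z0,z1,z0,z1],z1)],[([z1,z0,z1,z0,z0,z0],z2),([z0,z1,z0,z0,z1,z0],z1)],[([z1,z0,z1,z0,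
    z0,z0],z2),([z0,z3,z0,z0,z0,z0],z2),([z0,z0,z0,z3,z0,z3],z2)]],[[([z1,z0,z1,z0,z0,z0],z2),([z0,z3,z0,z0,z0,z0],
    z2)],[([z1,z0,z1,z0,z0,z0],z2)],[]]],
    [.old (.leafM k10 [k0,k1,k2,k4] [(z1,[z0,z1]),(z1,[y1,y1,y3,z3]),(z1,[z1])] [(k3,k5,z1,[z0,z0,z1]),(k5,k3,z1,[z0,z0,
    z1])]),
    .old (.leafM k11 [k2,k4,k0,k1] [(z1,[y3,y1,y3,z3]),(z1,[z0,z1]),(z1,[z1])] [(k3,k5,z1,[z0,z0,z1]),(k5,k3,z1,[z0,z0,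
    z1])]),
    .old (.lp [k18,k30,k30,k120,k40,k0] [k51,k51,k45,k45,k45,k45,k0,k0,k40,k40,k60,k60] k0 [] k120 k6
    [[(k4,k24)],[(k2,k24),(k5,k24)],[(k2,k30),(k5,k30)],[(k0,k24),(k3,k30)],[(k0,k24),(k3,k30)],[(k1,k24)],[(k10,
    k60)],[(k11,k60)],[(k8,k40)],[(k9,k40)],[(k6,k60)],[(k7,k60)]]
    [] k0
    [[k1,k0,k1,k0,k0,k0],[k2,k0,k2,k0,k0,k0],[k1,k1,k1,k0,k0,k0],[k1,k2,k1,k0,k0,k0],[k0,k2,k0,k0,k0,k0],[k0,k3,k0,k0,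
    k0,k0],[k0,k0,k0,k0,k2,k0]]
    [.contra [y2,z1],.ref k1 k0 [(z2,[z1]),(z2,[y3,z2]),(z1,[z0,z0,z1])],.contra [z1,y1,y2,z2],.ref k0 k0 [(z1,[y3,
    z2]),(z1,[z3,y1]),(z1,[z0,z0,z1])],.contra [z1],.ref k0 k0 [(z1,[y1,z1]),(z1,[z1]),(z1,[z0,z0,z1])],.contra [z1]]),
    .old (.leafM k12 [k0,k1,k2,k4] [(z1,[z0,z1]),(z1,[y2,y1,y2,z2]),(z1,[z1])] [(k3,k5,z1,[z0,z0,z1]),(k5,k3,z1,[z0,z0,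
    z1])]),
    .old (.leafM k11 [k0,k1,k2,k4] [(z1,[z0,z1]),(z1,[y3,y1,y3,z3]),(z1,[z1])] [(k3,k5,z1,[z0,z0,z1]),(k5,k3,z1,[z0,z0,
    z1])]),
    .old (.lp [k6,k10,k14,k40,k8,k0] [k17,k17,k15,k15,k13,k13,k0,k0,k16,k16,k20,k20] k0 [] k40 k6
    [[(k4,k10)],[(k2,k8),(k5,k10)],[(k2,k10),(k5,k12)],[(k0,k8),(k3,k10)],[(k0,k10),(k3,k12)],[(k1,k10)],[(k10,k20)],
    [(k11,k20)],[(k8,k8)],[(k9,k8)],[(k6,k20)],[(k7,k20)]]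
    [] k0
    [[k1,k0,k1,k0,k0,k0],[k1,k1,k1,k0,k0,k0],[k0,k2,k0,k0,k0,k0],[k0,k3,k0,k0,k0,k0],[k0,k0,k0,k0,k2,k0],[k0,k0,k0,k0,
    k3,k0],[k0,k0,k0,k0,k4,k0]]
    [.contra [y1,z2],.contra [z1,y1],.contra [z1],.ref k4 k0 [(z1,[z0,z1]),(z1,[z1]),(z1,[z0,y1,y1,z1])],.contra [z1],
    .ref k2 k0 [(z1,[y1,z3,z3]),(z1,[z0,y1,y1,z1])],.ref k3 k0 [(z1,[z0,z1]),(z2,[y1,z0,z4]),(z1,[z0,y1,y1,z1])]]),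
    .old (.lp [k8,k40,k40,k120,k30,k0] [k56,k56,k40,k40,k40,k40,k0,k0,k45,k45,k60,k60] k0 [] k120 k6
    [[(k4,k24)],[(k2,k24),(k5,k24)],[(k2,k40),(k5,k40)],[(k0,k24),(k3,k40)],[(k0,k24),(k3,k40)],[(k1,k24)],[(k10,
    k60)],[(k11,k60)],[(k8,k30)],[(k9,k30)],[(k6,k60)],[(k7,k60)]]
    [] k0
    [[k1,k0,k1,k0,k0,k0],[k2,k0,k2,k0,k0,k0],[k1,k1,k1,k0,k0,k0],[k0,k2,k0,k0,k0,k0],[k0,k0,k0,k0,k2,k0],[k0,k0,k0,k0,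
    k3,k0]]
    [.contra [y1,z1],.ref k5 k0 [(z2,[z1]),(z2,[y1,z2])],.contra [y1,z1],.contra [z1],.contra [z1],.ref k2 k0 [(z1,
    [y1,z3]),(z1,[z0,y1,z1])]]),
    .old (.leafM k11 [k3,k4,k5,k1] [(z1,[y3,y1,y3,z3]),(z1,[z0,z1]),(z1,[z0,z0,z1])] [(k0,k2,z1,[z1]),(k2,k0,z1,[z1])]),
    .old (.leafM k12 [k3,k4,k5,k1] [(z1,[y2,y1,y2,z2]),(z1,[z0,z1]),(z1,[z0,z0,z1])] [(k0,k2,z1,[z1]),(k2,k0,z1,[z1])]),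
    .old (.leafM k11 [k5,k1,k3,k4] [(z1,[z0,z1]),(z1,[y3,y1,y3,z3]),(z1,[z0,z0,z1])] [(k0,k2,z1,[z1]),(k2,k0,z1,[z1])]),
    .old (.lp [k6,k10,k34,k20,k8,k0] [k14,k14,k12,k12,k0,k0,k7,k7,k13,k13,k17,k17] k0 [] k40 k6
    [[(k4,k20)],[(k2,k8),(k5,k20)],[(k2,k10),(k5,k22)],[(k0,k8),(k3,k10)],[(k0,k20),(k3,k22)],[(k1,k20)],[(k10,k10)],
    [(k11,k10)],[(k8,k8)],[(k9,k8)],[(k6,k10)],[(k7,k10)]]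
    [] k0
    [[k0,k2,k0,k0,k0,k0],[k0,k3,k0,k0,k0,k0],[k0,k0,k0,k1,k0,k1],[k0,k0,k0,k0,k2,k0],[k0,k0,k0,k0,k3,k0],[k0,k0,k0,k0,
    k4,k0]]
    [.contra [z1],.ref k9 k0 [(z1,[z0,z1]),(z1,[z1]),(z1,[z0,y1,y1,z1])],.contra [y2,y1,y2,z2],.contra [z1],
    .ref k7 k0 [(z1,[z0,z1]),(z1,[y1,z0,z3]),(z1,[z0,y1,y1,z1])],.ref k8 k0 [(z1,[z0,z1]),(z2,[y1,z0,z4]),(z1,[z0,y1,
    y1,z1])]]),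
    .old (.leafM k10 [k3,k4,k5,k1] [(z1,[y3,y1,y1,z3]),(z1,[z0,z1]),(z1,[z0,z0,z1])] [(k0,k2,z1,[z1]),(k2,k0,z1,[z1])]),
    .old (.lp [k10,k40,k110,k48,k30,k0] [k50,k50,k35,k35,k0,k0,k31,k31,k40,k40,k55,k55] k0 [] k120 k6
    [[(k4,k60)],[(k2,k25),(k5,k60)],[(k2,k40),(k5,k75)],[(k0,k25),(k3,k40)],[(k0,k60),(k3,k75)],[(k1,k60)],[(k10,
    k24)],[(k11,k24)],[(k8,k30)],[(k9,k30)],[(k6,k24)],[(k7,k24)]]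
    [] k0
    [[k0,k2,k0,k0,k0,k0],[k0,k0,k0,k1,k0,k1],[k0,k0,k0,k2,k0,k2],[k0,k0,k0,k0,k2,k0],[k0,k0,k0,k0,k3,k0]]
    [.contra [z1],.contra [y1,y1,z0,z1],.ref k10 k0 [(z1,[z0,z1]),(z2,[y1,y2,z0,z2])],.contra [z1],.ref k11 k0 [(z1,
    [z0,z1]),(z1,[z0,z0,z1]),(z1,[y1,y3,y1,z3])]]),
    .old (.lp [k18,k30,k102,k48,k40,k0] [k42,k42,k36,k36,k0,k0,k27,k27,k31,k31,k51,k51] k0 [] k120 k6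
    [[(k4,k60)],[(k2,k24),(k5,k60)],[(k2,k30),(k5,k66)],[(k0,k24),(k3,k30)],[(k0,k60),(k3,k66)],[(k1,k60)],[(k10,
    k24)],[(k11,k24)],[(k8,k40)],[(k9,k40)],[(k6,k24)],[(k7,k24)]]
    [] k0
    [[k0,k2,k0,k0,k0,k0],[k0,k3,k0,k0,k0,k0],[k0,k0,k0,k1,k0,k1],[k0,k0,k0,k2,k0,k2],[k0,k0,k0,k0,k2,k0]]
    [.contra [z1],.ref k12 k0 [(z1,[z0,z1]),(z1,[z1])],.contra [y1,y1,z1],.ref k10 k0 [(z1,[z0,z1]),(z2,[y1,y2,z2])],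
    .contra [z1]]),
    .old (.lp [k0,k6,k6,k6,k4,k0] [k3,k3,k0,k0,k0,k0,k0,k0,k1,k1,k3,k3] k0 [] k12 k5
    [[(k4,k3)],[(k2,k3),(k5,k3)],[(k2,k6),(k5,k6)],[(k0,k3),(k3,k6)],[(k0,k3),(k3,k6)],[(k1,k3)],[(k10,k3)],[(k11,
    k3)],[(k8,k4)],[(k9,k4)],[(k6,k3)],[(k7,k3)]]
    [] k0
    [[k1,k0,k1,k0,k0,k0],[k0,k0,k0,k1,k0,k1],[k0,k0,k0,k0,k2,k0]]
    [.ref k13 k0 [(z1,[z1])],.ref k6 k0 [(z1,[y1,z1])],.contra [z1]])]⟩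

/-- classes `0 0 1 2 2 1`, types `B0 B1 N0 N0 N1 N2` -/
noncomputable def cU6_1564 : CertX :=
  ⟨[k8,k9,k28,k44,k45,k30],[],[[[]]],
    [.old (.lp [k0,k6,k6,k6,k4,k0] [k3,k3,k0,k0,k0,k0,k0,k0,k1,k1,k3,k3] k0 [] k12 k5
    [[(k7,k3)],[(k2,k3),(k5,k3)],[(k2,k6),(k5,k6)],[(k0,k3),(k3,k6)],[(k0,k3),(k3,k6)],[(k10,k3)],[(k1,k3)],[(k11,
    k3)],[(k8,k4)],[(k9,k4)],[(k6,k3)],[(k4,k3)]]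
    [] k0
    [[k0,k0,k0,k0,k2,k0]]
    [.contra [z1]])]⟩

/-- classes `0 0 1 2 2 1`, types `B0 B1 N0 N0 N2 N1` -/
noncomputable def cU6_1565 : CertX :=
  ⟨[k8,k9,k28,k44,k46,k29],[(false,k0,[k0,k1,k2,k3,k4,k5])],[[[([z1,z1,z1,z0,z0,z0],z2)],[]]],
    [.old (.leafM k6 [k0,k1,k2,k3,k4,k5] [(z1,[y1,z1])] []),
    .old (.lp [k10,k40,k110,k24,k24,k24] [k50,k50,k35,k35,k0,k0,k43,k43,k43,k43,k43,k43] k0 [] k120 k6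
    [[(k4,k60)],[(k2,k25),(k5,k60)],[(k2,k40),(k5,k75)],[(k0,k25),(k3,k40)],[(k0,k60),(k3,k75)],[(k1,k60)],[(k10,
    k24)],[(k8,k24)],[(k11,k24)],[(k6,k24)],[(k9,k24)],[(k7,k24)]]
    [] k0
    [[k0,k2,k0,k0,k0,k0],[k0,k0,k0,k1,k1,k1]]
    [.contra [z1],.ref k0 k0 [(z1,[y1,z1])]])]⟩

/-- classes `0 0 1 2 2 1`, types `B0 B1 N0 N0 N2 N2` -/
noncomputable def cU6_1566 : CertX :=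
  ⟨[k8,k9,k28,k44,k46,k30],[],[[[]]],
    [.old (.lp [k2,k4,k2,k2,k2,k2] [k1,k1,k0,k0,k1,k1,k1,k1,k1,k1,k1,k1] k0 [] k8 k5
    [[(k7,k2)],[(k5,k2),(k2,k3)],[(k5,k3),(k2,k4)],[(k0,k3),(k3,k4)],[(k0,k2),(k3,k3)],[(k10,k2)],[(k1,k2)],[(k8,k2)],
    [(k11,k2)],[(k6,k2)],[(k9,k2)],[(k4,k2)]]
    [] k0
    []
    [])]⟩

/-- classes `0 0 1 2 2 1`, types `B0 B1 N0 S0 S0 N1` -/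
noncomputable def cU6_1567 : CertX :=
  ⟨[k8,k9,k28,k32,k32,k29],[(false,k0,[k0,k1,k2,k3,k4,k5])],[[[([z1,z1,z1,z0,z0,z0],z2)],[([z3,z0,z3,z0,z0,z0],z2),
    ([z0,z3,z0,z0,z0,z0],z2),([z0,z0,z0,z1,z0,z1],z2)],[([z1,z0,z1,z0,z0,z0],z1),([z0,z3,z0,z0,z0,z0],z1),([z0,z0,z0,
    z1,z0,z1],z2)],[([z3,z3,z3,z0,z0,z0],z4),([z0,z0,z0,z1,z0,z1],z2)],[([z1,z0,z1,z0,z0,z0],z1),([z0,z2,z0,z0,z0,z0],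
    z1),([z0,z0,z0,z1,z0,z1],z2)],[([z1,z0,z1,z0,z0,z0],z1),([z0,z3,z0,z0,z0,z0],z2),([z0,z0,z0,z1,z0,z1],z2)],[([z1,
    z0,z1,z0,z0,z0],z1),([z0,z1,z0,z0,z1,z0],z1)],[([z1,z1,z1,z0,z1,z0],z2)],[([z1,z0,z1,z0,z0,z0],z2),([z0,z3,z0,z0,
    z0,z0],z1),([z0,z0,z0,z1,z0,z1],z1)],[([z1,z0,z1,z0,z0,z0],z2),([z0,z3,z0,z0,z0,z0],z2),([z0,z0,z0,z1,z0,z1],z1)],
    [([z1,z0,z1,z0,z0,z0],z2),([z0,z2,z0,z0,z0,z0],z1),([z0,z0,z0,z1,z0,z1],z1)],[([z1,z0,z1,z0,z0,z0],z2),([z0,z1,z0,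
    z0,z1,z0],z1)]],[[([z1,z0,z1,z0,z0,z0],z2),([z0,z3,z0,z0,z0,z0],z2),([z0,z0,z0,z3,z0,z3],z2)],[([z1,z0,z1,z0,z0,
    z0],z2),([z0,z3,z0,z0,z0,z0],z2)],[([z1,z0,z1,z0,z0,z0],z2)],[]]],
    [.old (.leafM k4 [k0,k1,k2,k3,k4,k5] [(z1,[y1,z1])] []),
    .old (.leafM k10 [k0,k1,k2,k4] [(z1,[z0,z1]),(z1,[y1,y1,y3,z3]),(z1,[z1])] [(k3,k5,z1,[z0,z0,z1]),(k5,k3,z1,[z0,z0,
    z1])]),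
    .old (.leafM k11 [k2,k4,k0,k1] [(z1,[y3,y1,y3,z3]),(z1,[z0,z1]),(z1,[z1])] [(k3,k5,z1,[z0,z0,z1]),(k5,k3,z1,[z0,z0,
    z1])]),
    .old (.lp [k30,k30,k18,k24,k40,k96] [k33,k33,k33,k33,k39,k39,k36,k36,k28,k28,k0,k0] k0 [] k120 k6
    [[(k4,k24)],[(k5,k24),(k2,k30)],[(k5,k24),(k2,k30)],[(k0,k30),(k3,k30)],[(k0,k24),(k3,k24)],[(k1,k24)],[(k10,
    k60)],[(k6,k24),(k8,k32),(k9,k32),(k11,k60)],[(k6,k32),(k8,k40),(k9,k40),(k11,k68)],[(k6,k32),(k8,k40),(k9,k40),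
    (k11,k68)],[(k6,k60),(k8,k68),(k9,k68),(k11,k96)],[(k7,k60)]]
    [] k0
    [[k1,k0,k1,k0,k0,k0],[k2,k0,k2,k0,k0,k0],[k1,k1,k1,k0,k0,k0],[k1,k2,k1,k0,k0,k0],[k0,k2,k0,k0,k0,k0],[k0,k3,k0,k0,
    k0,k0],[k0,k0,k0,k0,k2,k0]]
    [.contra [y2,z1],.ref k2 k0 [(z2,[z1]),(z2,[y3,z2]),(z1,[z0,z0,z1])],.contra [z1,y1,y2,z2],.ref k1 k0 [(z1,[y3,
    z2]),(z1,[z3,y1]),(z1,[z0,z0,z1])],.contra [z1],.ref k1 k0 [(z1,[y1,z1]),(z1,[z1]),(z1,[z0,z0,z1])],.contra [z1]]),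
    .old (.leafM k12 [k0,k1,k2,k4] [(z1,[z0,z1]),(z1,[y2,y1,y2,z2]),(z1,[z1])] [(k3,k5,z1,[z0,z0,z1]),(k5,k3,z1,[z0,z0,
    z1])]),
    .old (.leafM k11 [k0,k1,k2,k4] [(z1,[z0,z1]),(z1,[y3,y1,y3,z3]),(z1,[z1])] [(k3,k5,z1,[z0,z0,z1]),(k5,k3,z1,[z0,z0,
    z1])]),
    .old (.lp [k14,k10,k6,k8,k8,k32] [k9,k9,k11,k11,k13,k13,k12,k12,k12,k12,k0,k0] k0 [] k40 k6
    [[(k4,k10)],[(k5,k10),(k2,k12)],[(k5,k8),(k2,k10)],[(k3,k10),(k0,k12)],[(k3,k8),(k0,k10)],[(k1,k10)],[(k10,k20)],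
    [(k6,k8),(k8,k8),(k9,k8),(k11,k20)],[(k6,k8),(k8,k8),(k9,k8),(k11,k20)],[(k6,k8),(k8,k8),(k9,k8),(k11,k20)],[(k6,
    k20),(k8,k20),(k9,k20),(k11,k32)],[(k7,k20)]]
    [] k0
    [[k1,k0,k1,k0,k0,k0],[k1,k1,k1,k0,k0,k0],[k0,k2,k0,k0,k0,k0],[k0,k3,k0,k0,k0,k0],[k0,k0,k0,k0,k2,k0],[k0,k0,k0,k0,
    k3,k0],[k0,k0,k0,k0,k4,k0]]
    [.contra [y1,z2],.contra [z1,y1],.contra [z1],.ref k5 k0 [(z1,[z0,z1]),(z1,[z1]),(z1,[z0,y1,y1,z1])],.contra [z1],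
    .ref k3 k0 [(z1,[y1,z3,z3]),(z1,[z0,y1,y1,z1])],.ref k4 k0 [(z1,[z0,z1]),(z2,[y1,z0,z4]),(z1,[z0,y1,y1,z1])]]),
    .old (.lp [k40,k40,k8,k24,k30,k96] [k28,k28,k28,k28,k44,k44,k36,k36,k33,k33,k0,k0] k0 [] k120 k6
    [[(k4,k24)],[(k5,k24),(k2,k40)],[(k5,k24),(k2,k40)],[(k0,k40),(k3,k40)],[(k0,k24),(k3,k24)],[(k1,k24)],[(k10,
    k60)],[(k6,k24),(k8,k27),(k9,k27),(k11,k60)],[(k6,k27),(k8,k30),(k9,k30),(k11,k63)],[(k6,k27),(k8,k30),(k9,k30),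
    (k11,k63)],[(k6,k60),(k8,k63),(k9,k63),(k11,k96)],[(k7,k60)]]
    [] k0
    [[k1,k0,k1,k0,k0,k0],[k2,k0,k2,k0,k0,k0],[k1,k1,k1,k0,k0,k0],[k0,k2,k0,k0,k0,k0],[k0,k0,k0,k0,k2,k0],[k0,k0,k0,k0,
    k3,k0]]
    [.contra [y1,z1],.ref k6 k0 [(z2,[z1]),(z2,[y1,z2])],.contra [y1,z1],.contra [z1],.contra [z1],.ref k3 k0 [(z1,
    [y1,z3]),(z1,[z0,y1,z1])]]),
    .old (.leafM k11 [k3,k4,k5,k1] [(z1,[y3,y1,y3,z3]),(z1,[z0,z1]),(z1,[z0,z0,z1])] [(k0,k2,z1,[z1]),(k2,k0,z1,[z1])]),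
    .old (.leafM k8 [k5,k1,k3,k4] [(z1,[z0,z1]),(z1,[y3,y1,y3,z3]),(z1,[z0,z0,z1])] [(k0,k2,z1,[z1]),(k2,k0,z1,[z1])]),
    .old (.leafM k9 [k5,k1,k3,k4] [(z1,[z0,z1]),(z1,[y2,y1,y2,z2]),(z1,[z0,z0,z1])] [(k0,k2,z1,[z1]),(k2,k0,z1,[z1])]),
    .old (.lp [k32,k8,k8,k8,k10,k12] [k0,k0,k12,k12,k12,k12,k12,k12,k11,k11,k10,k10] k0 [] k40 k6
    [[(k4,k20)],[(k2,k20),(k5,k20)],[(k2,k8),(k5,k8)],[(k3,k8),(k0,k20)],[(k3,k8),(k0,k20)],[(k1,k20)],[(k10,k10)],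
    [(k6,k8),(k8,k9),(k9,k9),(k11,k10)],[(k6,k9),(k8,k10),(k9,k10),(k11,k11)],[(k6,k9),(k8,k10),(k9,k10),(k11,k11)],
    [(k6,k10),(k8,k11),(k9,k11),(k11,k12)],[(k7,k10)]]
    [] k0
    [[k0,k2,k0,k0,k0,k0],[k0,k3,k0,k0,k0,k0],[k0,k4,k0,k0,k0,k0],[k0,k0,k0,k1,k0,k1],[k0,k0,k0,k1,k1,k1],[k0,k0,k0,k0,
    k2,k0],[k0,k0,k0,k0,k3,k0]]
    [.contra [z1],.ref k9 k0 [(z1,[z0,z1]),(z1,[z1]),(z1,[z0,y1,y1,z1])],.ref k10 k0 [(z1,[z0,z1]),(z2,[z1]),(z1,[z0,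
    y1,y1,z1])],.contra [y2,y1,y2,z2],.contra [z1,z1,z1,y1],.contra [z1],.ref k8 k0 [(z1,[z0,z1]),(z1,[y1,z0,z3]),(z1,
    [z0,y1,y1,z1])]]),
    .old (.leafM k10 [k3,k4,k5,k1] [(z1,[y3,y1,y1,z3]),(z1,[z0,z1]),(z1,[z0,z0,z1])] [(k0,k2,z1,[z1]),(k2,k0,z1,[z1])]),
    .old (.lp [k110,k40,k10,k24,k30,k24] [k0,k0,k35,k35,k50,k50,k43,k43,k40,k40,k43,k43] k0 [] k120 k6
    [[(k4,k60)],[(k5,k60),(k2,k75)],[(k5,k25),(k2,k40)],[(k3,k40),(k0,k75)],[(k3,k25),(k0,k60)],[(k1,k60)],[(k10,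
    k24)],[(k6,k24),(k11,k24),(k8,k27),(k9,k27)],[(k6,k27),(k11,k27),(k8,k30),(k9,k30)],[(k6,k27),(k11,k27),(k8,k30),
    (k9,k30)],[(k6,k24),(k11,k24),(k8,k27),(k9,k27)],[(k7,k24)]]
    [] k0
    [[k0,k2,k0,k0,k0,k0],[k0,k0,k0,k1,k0,k1],[k0,k0,k0,k2,k0,k2],[k0,k0,k0,k1,k1,k1],[k0,k0,k0,k1,k2,k1],[k0,k0,k0,k0,
    k2,k0],[k0,k0,k0,k0,k3,k0]]
    [.contra [z1],.contra [y1,y1,z0,z1],.ref k11 k0 [(z1,[z0,z1]),(z2,[y1,y2,z0,z2])],.contra [z1,z1,z1,y1],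
    .ref k12 k0 [(z1,[z0,z1]),(z1,[z0,z0,z1]),(z1,[y3,y6,y2,z6])],.contra [z1],.ref k12 k0 [(z1,[z0,z1]),(z1,[z0,z0,
    z1]),(z1,[y1,y3,y1,z3])]]),
    .old (.lp [k102,k30,k18,k24,k40,k24] [k0,k0,k36,k36,k42,k42,k39,k39,k31,k31,k39,k39] k0 [] k120 k6
    [[(k4,k60)],[(k5,k60),(k2,k66)],[(k5,k24),(k2,k30)],[(k3,k30),(k0,k66)],[(k3,k24),(k0,k60)],[(k1,k60)],[(k10,
    k24)],[(k6,k24),(k11,k24),(k8,k32),(k9,k32)],[(k6,k32),(k11,k32),(k8,k40),(k9,k40)],[(k6,k32),(k11,k32),(k8,k40),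
    (k9,k40)],[(k6,k24),(k11,k24),(k8,k32),(k9,k32)],[(k7,k24)]]
    [] k0
    [[k0,k2,k0,k0,k0,k0],[k0,k3,k0,k0,k0,k0],[k0,k0,k0,k1,k0,k1],[k0,k0,k0,k2,k0,k2],[k0,k0,k0,k1,k1,k1],[k0,k0,k0,k0,
    k2,k0]]
    [.contra [z1],.ref k13 k0 [(z1,[z0,z1]),(z1,[z1])],.contra [y1,y1,z1],.ref k11 k0 [(z1,[z0,z1]),(z2,[y1,y2,z2])],
    .contra [y1,y1,z1],.contra [z1]]),
    .old (.lp [k12,k12,k0,k6,k8,k6] [k0,k0,k0,k0,k6,k6,k3,k3,k2,k2,k3,k3] k0 [] k24 k5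
    [[(k4,k6)],[(k5,k6),(k2,k12)],[(k5,k6),(k2,k12)],[(k0,k12),(k3,k12)],[(k0,k6),(k3,k6)],[(k1,k6)],[(k10,k6)],[(k6,
    k6),(k11,k6),(k8,k7),(k9,k7)],[(k6,k7),(k11,k7),(k8,k8),(k9,k8)],[(k6,k7),(k11,k7),(k8,k8),(k9,k8)],[(k6,k6),(k11,
    k6),(k8,k7),(k9,k7)],[(k7,k6)]]
    [] k0
    [[k1,k0,k1,k0,k0,k0],[k0,k0,k0,k1,k0,k1],[k0,k0,k0,k1,k1,k1],[k0,k0,k0,k0,k2,k0]]
    [.ref k14 k0 [(z1,[z1])],.ref k7 k0 [(z1,[y1,z1])],.ref k0 k0 [(z1,[y1,z1])],.contra [z1]])]⟩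

/-- classes `0 0 1 2 2 1`, types `B0 B1 N0 S0 S0 N2` -/
noncomputable def cU6_1568 : CertX :=
  ⟨[k8,k9,k28,k32,k32,k30],[],[[[]]],
    [.old (.lp [k6,k8,k6,k6,k12,k6] [k3,k3,k2,k2,k3,k3,k3,k3,k0,k0,k3,k3] k0 [] k24 k5
    [[(k7,k6)],[(k5,k6),(k2,k7)],[(k5,k7),(k2,k8)],[(k0,k7),(k3,k8)],[(k0,k6),(k3,k7)],[(k10,k6)],[(k1,k6)],[(k6,k6),
    (k11,k6),(k8,k9),(k9,k9)],[(k6,k9),(k11,k9),(k8,k12),(k9,k12)],[(k6,k9),(k11,k9),(k8,k12),(k9,k12)],[(k6,k6),(k11,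
    k6),(k8,k9),(k9,k9)],[(k4,k6)]]
    [] k0
    [[k0,k2,k0,k0,k0,k0]]
    [.contra [z1]])]⟩

/-- classes `0 0 1 2 2 1`, types `B0 B1 S0 B0 B1 S0` -/
noncomputable def cU6_1569 : CertX :=
  ⟨[k8,k9,k16,k40,k41,k16],[(false,k0,[k0,k1,k2,k3,k4,k5]),(false,k3,[k3,k4,k5,k0,k1,k2])],[[[([z1,z1,z1,z0,z0,z0],
    z2)],[([z1,z0,z1,z0,z0,z0],z1),([z0,z3,z0,z0,z0,z0],z1),([z0,z0,z0,z1,z0,z1],z2)],[([z1,z0,z1,z0,z0,z0],z1),([z0,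
    z2,z0,z0,z0,z0],z1),([z0,z0,z0,z1,z0,z1],z2)],[([z1,z0,z1,z0,z0,z0],z1),([z0,z3,z0,z0,z0,z0],z2),([z0,z0,z0,z1,z0,
    z1],z2)],[([z1,z0,z1,z0,z0,z0],z1),([z0,z1,z0,z0,z1,z0],z1)],[([z3,z0,z3,z0,z0,z0],z2),([z0,z3,z0,z0,z0,z0],z2),
    ([z0,z0,z0,z1,z0,z1],z2)],[([z1,z0,z1,z0,z0,z0],z2),([z0,z3,z0,z0,z0,z0],z2)],[([z1,z0,z1,z0,z0,z0],z2)],[]]],
    [.old (.leafM k6 [k0,k1,k2,k3,k4,k5] [(z1,[y1,z1])] []),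
    .old (.leafM k11 [k2,k4,k0,k1] [(z1,[y3,y1,y3,z3]),(z1,[z0,z1]),(z1,[z1])] [(k3,k5,z1,[z0,z0,z1]),(k5,k3,z1,[z0,z0,
    z1])]),
    .old (.leafM k12 [k0,k1,k2,k4] [(z1,[z0,z1]),(z1,[y2,y1,y2,z2]),(z1,[z1])] [(k3,k5,z1,[z0,z0,z1]),(k5,k3,z1,[z0,z0,
    z1])]),
    .old (.leafM k11 [k0,k1,k2,k4] [(z1,[z0,z1]),(z1,[y3,y1,y3,z3]),(z1,[z1])] [(k3,k5,z1,[z0,z0,z1]),(k5,k3,z1,[z0,z0,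
    z1])]),
    .old (.lp [k12,k10,k8,k8,k8,k32] [k10,k10,k11,k11,k12,k12,k12,k12,k12,k12,k0,k0] k0 [] k40 k6
    [[(k4,k10),(k7,k10),(k1,k12),(k10,k22)],[(k5,k10),(k2,k11)],[(k5,k9),(k2,k10)],[(k3,k10),(k0,k11)],[(k3,k9),(k0,
    k10)],[(k4,k8),(k7,k8),(k1,k10),(k10,k20)],[(k4,k8),(k7,k8),(k1,k10),(k10,k20)],[(k8,k8),(k11,k20)],[(k8,k8),(k11,
    k20)],[(k6,k8),(k9,k8)],[(k6,k20),(k9,k20)],[(k4,k20),(k7,k20),(k1,k22),(k10,k32)]]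
    [] k0
    [[k1,k0,k1,k0,k0,k0],[k1,k1,k1,k0,k0,k0],[k0,k2,k0,k0,k0,k0],[k0,k3,k0,k0,k0,k0],[k0,k0,k0,k0,k2,k0],[k0,k0,k0,k0,
    k3,k0],[k0,k0,k0,k0,k4,k0]]
    [.contra [y1,z2],.contra [z1,y1],.contra [z1],.ref k3 k0 [(z1,[z0,z1]),(z1,[z1]),(z1,[z0,y1,y1,z1])],.contra [z1],
    .ref k1 k0 [(z1,[z0,z1]),(z1,[y1,z0,z3]),(z1,[z0,y1,y1,z1])],.ref k2 k0 [(z1,[z0,z1]),(z2,[y1,z0,z4]),(z1,[z0,y1,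
    y1,z1])]]),
    .old (.leafM k10 [k0,k1,k2,k4] [(z1,[z0,z1]),(z1,[y1,y1,y3,z3]),(z1,[z1])] [(k3,k5,z1,[z0,z0,z1]),(k5,k3,z1,[z0,z0,
    z1])]),
    .old (.lp [k96,k40,k24,k24,k30,k24] [k0,k0,k28,k28,k36,k36,k36,k36,k33,k33,k36,k36] k0 [] k120 k6
    [[(k4,k60),(k7,k60),(k10,k60),(k1,k96)],[(k5,k60),(k2,k68)],[(k5,k32),(k2,k40)],[(k3,k40),(k0,k68)],[(k3,k32),(k0,
    k60)],[(k4,k24),(k7,k24),(k10,k24),(k1,k60)],[(k4,k24),(k7,k24),(k10,k24),(k1,k60)],[(k11,k24),(k8,k27)],[(k11,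
    k27),(k8,k30)],[(k6,k27),(k9,k30)],[(k6,k24),(k9,k27)],[(k4,k24),(k7,k24),(k10,k24),(k1,k60)]]
    [] k0
    [[k0,k2,k0,k0,k0,k0],[k0,k0,k0,k2,k0,k2],[k0,k0,k0,k1,k0,k1],[k0,k0,k0,k1,k1,k1],[k0,k0,k0,k1,k2,k1],[k0,k0,k0,k0,
    k2,k0],[k0,k0,k0,k0,k3,k0]]
    [.contra [z1],.ref k4 k1 [(z2,[z1]),(z2,[y1,y2,z0,z2])],.contra [y1,y1,z0,z1],.contra [z1,z1,z1,y1],
    .ref k5 k1 [(z1,[y3,y6,y2,z6]),(z1,[z3,z3,z1,y3]),(z1,[z0,z1])],.contra [z1],.ref k5 k1 [(z1,[y1,y3,y1,z3]),(z1,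
    [z1]),(z1,[z0,z1])]]),
    .old (.lp [k96,k30,k24,k24,k40,k24] [k0,k0,k33,k33,k36,k36,k36,k36,k28,k28,k36,k36] k0 [] k120 k6
    [[(k4,k60),(k7,k60),(k10,k60),(k1,k96)],[(k5,k60),(k2,k63)],[(k5,k27),(k2,k30)],[(k3,k30),(k0,k63)],[(k3,k27),(k0,
    k60)],[(k4,k24),(k7,k24),(k10,k24),(k1,k60)],[(k4,k24),(k7,k24),(k10,k24),(k1,k60)],[(k11,k24),(k8,k32)],[(k11,
    k32),(k8,k40)],[(k6,k32),(k9,k40)],[(k6,k24),(k9,k32)],[(k4,k24),(k7,k24),(k10,k24),(k1,k60)]]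
    [] k0
    [[k0,k2,k0,k0,k0,k0],[k0,k3,k0,k0,k0,k0],[k0,k0,k0,k2,k0,k2],[k0,k0,k0,k1,k0,k1],[k0,k0,k0,k1,k1,k1],[k0,k0,k0,k0,
    k2,k0]]
    [.contra [z1],.ref k6 k0 [(z1,[z0,z1]),(z1,[z1])],.ref k4 k1 [(z2,[z1]),(z2,[y1,y2,z2])],.contra [y1,y1,z1],
    .contra [y1,y1,z1],.contra [z1]]),
    .old (.lp [k6,k12,k6,k6,k8,k6] [k3,k3,k0,k0,k3,k3,k3,k3,k2,k2,k3,k3] k0 [] k24 k5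
    [[(k1,k6),(k4,k6),(k7,k6),(k10,k6)],[(k5,k6),(k2,k9)],[(k5,k9),(k2,k12)],[(k0,k9),(k3,k12)],[(k0,k6),(k3,k9)],
    [(k1,k6),(k4,k6),(k7,k6),(k10,k6)],[(k1,k6),(k4,k6),(k7,k6),(k10,k6)],[(k11,k6),(k8,k7)],[(k11,k7),(k8,k8)],[(k6,
    k7),(k9,k8)],[(k6,k6),(k9,k7)],[(k1,k6),(k4,k6),(k7,k6),(k10,k6)]]
    [] k0
    [[k1,k0,k1,k0,k0,k0],[k0,k0,k0,k1,k0,k1],[k0,k0,k0,k1,k1,k1],[k0,k0,k0,k0,k2,k0]]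
    [.ref k7 k0 [(z1,[z1])],.ref k7 k1 [(z1,[z1])],.ref k0 k0 [(z1,[y1,z1])],.contra [z1]])]⟩

/-- the certificates of this file -/
noncomputable def lU6_28 : List CertX :=
  [cU6_1491, cU6_1492, cU6_1493, cU6_1494, cU6_1495, cU6_1496, cU6_1497, cU6_1498, cU6_1499, cU6_1500,
      cU6_1501, cU6_1502, cU6_1503, cU6_1504, cU6_1505, cU6_1506, cU6_1507, cU6_1508, cU6_1509, cU6_1510,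
      cU6_1511, cU6_1512, cU6_1513, cU6_1514, cU6_1515, cU6_1516, cU6_1517, cU6_1518, cU6_1519, cU6_1520,
      cU6_1521, cU6_1522, cU6_1523, cU6_1524, cU6_1525, cU6_1526, cU6_1527, cU6_1528, cU6_1529, cU6_1530,
      cU6_1531, cU6_1532, cU6_1533, cU6_1534, cU6_1535, cU6_1536, cU6_1537, cU6_1538, cU6_1539, cU6_1540,
      cU6_1541, cU6_1542, cU6_1543, cU6_1544, cU6_1545, cU6_1546, cU6_1547, cU6_1548, cU6_1549, cU6_1550,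
      cU6_1551, cU6_1552, cU6_1553, cU6_1554, cU6_1555, cU6_1556, cU6_1557, cU6_1558, cU6_1559, cU6_1560,
      cU6_1561, cU6_1562, cU6_1563, cU6_1564, cU6_1565, cU6_1566, cU6_1567, cU6_1568, cU6_1569]

theorem gU6_28 : allF (chkE 6 ttU6) lU6_28 = true := by
  decide +kernel

end Pool.Agent.Lib_MP_fa6e45
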