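import Pool.Agent.Lib_MP_fa6e45.CXT
import Pool.Agent.Lib_MP_fa6e45.HK

/-!
MP_fa6e45_co, stage 7: certificates (generated by a program).
-/

namespace Pool.Agent.Lib_MP_fa6e45

/-- classes `0 0 1 2 2 1`, types `B0 B1 S0 C0 C0 S0` -/
noncomputable def cU6_1570 : CertX :=
  ⟨[k8,k9,k16,k36,k36,k16],[(false,k0,[k0,k1,k2,k3,k4,k5])],[[[([z1,z1,z1,z0,z0,z0],z2)],[([z3,z0,z3,z0,z0,z0],z2),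
    ([z0,z3,z0,z0,z0,z0],z2),([z0,z0,z0,z1,z0,z1],z2)],[([z1,z0,z1,z0,z0,z0],z1),([z0,z3,z0,z0,z0,z0],z1),([z0,z0,z0,
    z1,z0,z1],z2)],[([z3,z3,z3,z0,z0,z0],z4),([z0,z0,z0,z1,z0,z1],z2)],[([z1,z0,z1,z0,z0,z0],z1),([z0,z2,z0,z0,z0,z0],
    z1),([z0,z0,z0,z1,z0,z1],z2)],[([z1,z0,z1,z0,z0,z0],z1),([z0,z3,z0,z0,z0,z0],z2),([z0,z0,z0,z1,z0,z1],z2)],[([z1,
    z0,z1,z0,z0,z0],z1),([z0,z1,z0,z0,z1,z0],z1)],[([z1,z1,z1,z0,z1,z0],z2)],[([z1,z0,z1,z0,z0,z0],z2),([z0,z3,z0,z0,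
    z0,z0],z1),([z0,z0,z0,z1,z0,z1],z1)],[([z1,z0,z1,z0,z0,z0],z2),([z0,z3,z0,z0,z0,z0],z2),([z0,z0,z0,z1,z0,z1],z1)],
    [([z1,z0,z1,z0,z0,z0],z2),([z0,z2,z0,z0,z0,z0],z1),([z0,z0,z0,z1,z0,z1],z1)],[([z1,z0,z1,z0,z0,z0],z2),([z0,z1,z0,
    z0,z1,z0],z1)]],[[([z1,z0,z1,z0,z0,z0],z2),([z0,z3,z0,z0,z0,z0],z2),([z0,z0,z0,z3,z0,z3],z2)],[([z1,z0,z1,z0,z0,
    z0],z2),([z0,z3,z0,z0,z0,z0],z2)],[([z1,z0,z1,z0,z0,z0],z2)],[]]],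
    [.old (.leafM k4 [k0,k1,k2,k3,k4,k5] [(z1,[y1,z1])] []),
    .old (.leafM k10 [k0,k1,k2,k4] [(z1,[z0,z1]),(z1,[y1,y1,y3,z3]),(z1,[z1])] [(k3,k5,z1,[z0,z0,z1]),(k5,k3,z1,[z0,z0,
    z1])]),
    .old (.leafM k11 [k2,k4,k0,k1] [(z1,[y3,y1,y3,z3]),(z1,[z0,z1]),(z1,[z1])] [(k3,k5,z1,[z0,z0,z1]),(k5,k3,z1,[z0,z0,
    z1])]),
    .old (.lp [k24,k30,k24,k24,k40,k96] [k36,k36,k33,k33,k36,k36,k36,k36,k28,k28,k0,k0] k0 [] k120 k6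
    [[(k1,k24),(k4,k24),(k7,k24),(k10,k60)],[(k5,k24),(k2,k27)],[(k5,k27),(k2,k30)],[(k0,k27),(k3,k30)],[(k0,k24),(k3,
    k27)],[(k1,k24),(k4,k24),(k7,k24),(k10,k60)],[(k1,k24),(k4,k24),(k7,k24),(k10,k60)],[(k9,k32),(k11,k60)],[(k6,
    k32),(k8,k40)],[(k9,k40),(k11,k68)],[(k6,k60),(k8,k68)],[(k1,k60),(k4,k60),(k7,k60),(k10,k96)]]
    [] k0
    [[k2,k0,k2,k0,k0,k0],[k1,k0,k1,k0,k0,k0],[k1,k1,k1,k0,k0,k0],[k1,k2,k1,k0,k0,k0],[k0,k2,k0,k0,k0,k0],[k0,k3,k0,k0,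
    k0,k0],[k0,k0,k0,k0,k2,k0]]
    [.ref k2 k0 [(z2,[z1]),(z2,[y3,z2]),(z1,[z0,z0,z1])],.contra [y2,z1],.contra [z1,y1,y2,z2],.ref k1 k0 [(z1,[y3,
    z2]),(z1,[z3,y1]),(z1,[z0,z0,z1])],.contra [z1],.ref k1 k0 [(z1,[y1,z1]),(z1,[z1]),(z1,[z0,z0,z1])],.contra [z1]]),
    .old (.leafM k12 [k0,k1,k2,k4] [(z1,[z0,z1]),(z1,[y2,y1,y2,z2]),(z1,[z1])] [(k3,k5,z1,[z0,z0,z1]),(k5,k3,z1,[z0,z0,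
    z1])]),
    .old (.leafM k11 [k0,k1,k2,k4] [(z1,[z0,z1]),(z1,[y3,y1,y3,z3]),(z1,[z1])] [(k3,k5,z1,[z0,z0,z1]),(k5,k3,z1,[z0,z0,
    z1])]),
    .old (.lp [k12,k10,k8,k8,k8,k32] [k10,k10,k11,k11,k12,k12,k12,k12,k12,k12,k0,k0] k0 [] k40 k6
    [[(k4,k10),(k7,k10),(k1,k12),(k10,k22)],[(k5,k10),(k2,k11)],[(k5,k9),(k2,k10)],[(k3,k10),(k0,k11)],[(k3,k9),(k0,
    k10)],[(k4,k8),(k7,k8),(k1,k10),(k10,k20)],[(k4,k8),(k7,k8),(k1,k10),(k10,k20)],[(k9,k8),(k11,k20)],[(k6,k8),(k8,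
    k8)],[(k9,k8),(k11,k20)],[(k6,k20),(k8,k20)],[(k4,k20),(k7,k20),(k1,k22),(k10,k32)]]
    [] k0
    [[k1,k0,k1,k0,k0,k0],[k1,k1,k1,k0,k0,k0],[k0,k2,k0,k0,k0,k0],[k0,k3,k0,k0,k0,k0],[k0,k0,k0,k0,k2,k0],[k0,k0,k0,k0,
    k3,k0],[k0,k0,k0,k0,k4,k0]]
    [.contra [y1,z2],.contra [z1,y1],.contra [z1],.ref k5 k0 [(z1,[z0,z1]),(z1,[z1]),(z1,[z0,y1,y1,z1])],.contra [z1],
    .ref k3 k0 [(z1,[y1,z3,z3]),(z1,[z0,y1,y1,z1])],.ref k4 k0 [(z1,[z0,z1]),(z2,[y1,z0,z4]),(z1,[z0,y1,y1,z1])]]),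
    .old (.lp [k24,k40,k24,k24,k30,k96] [k36,k36,k28,k28,k36,k36,k36,k36,k33,k33,k0,k0] k0 [] k120 k6
    [[(k1,k24),(k4,k24),(k7,k24),(k10,k60)],[(k5,k24),(k2,k32)],[(k5,k32),(k2,k40)],[(k0,k32),(k3,k40)],[(k0,k24),(k3,
    k32)],[(k1,k24),(k4,k24),(k7,k24),(k10,k60)],[(k1,k24),(k4,k24),(k7,k24),(k10,k60)],[(k9,k27),(k11,k60)],[(k6,
    k27),(k8,k30)],[(k9,k30),(k11,k63)],[(k6,k60),(k8,k63)],[(k1,k60),(k4,k60),(k7,k60),(k10,k96)]]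
    [] k0
    [[k2,k0,k2,k0,k0,k0],[k1,k0,k1,k0,k0,k0],[k1,k1,k1,k0,k0,k0],[k0,k2,k0,k0,k0,k0],[k0,k0,k0,k0,k2,k0],[k0,k0,k0,k0,
    k3,k0]]
    [.ref k6 k0 [(z2,[z1]),(z2,[y1,z2])],.contra [y1,z1],.contra [y1,z1],.contra [z1],.contra [z1],.ref k3 k0 [(z1,
    [y1,z3]),(z1,[z0,y1,z1])]]),
    .old (.leafM k11 [k3,k4,k5,k1] [(z1,[y3,y1,y3,z3]),(z1,[z0,z1]),(z1,[z0,z0,z1])] [(k0,k2,z1,[z1]),(k2,k0,z1,[z1])]),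
    .old (.leafM k11 [k5,k1,k3,k4] [(z1,[z0,z1]),(z1,[y3,y1,y3,z3]),(z1,[z0,z0,z1])] [(k0,k2,z1,[z1]),(k2,k0,z1,[z1])]),
    .old (.leafM k12 [k3,k4,k5,k1] [(z1,[y2,y1,y2,z2]),(z1,[z0,z1]),(z1,[z0,z0,z1])] [(k0,k2,z1,[z1]),(k2,k0,z1,[z1])]),
    .old (.lp [k32,k8,k8,k8,k10,k12] [k0,k0,k12,k12,k12,k12,k12,k12,k11,k11,k10,k10] k0 [] k40 k6
    [[(k4,k20),(k7,k20),(k10,k22),(k1,k32)],[(k2,k20),(k5,k20)],[(k2,k8),(k5,k8)],[(k3,k8),(k0,k20)],[(k3,k8),(k0,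
    k20)],[(k4,k8),(k7,k8),(k10,k10),(k1,k20)],[(k4,k8),(k7,k8),(k10,k10),(k1,k20)],[(k9,k9),(k11,k10)],[(k6,k9),(k8,
    k10)],[(k9,k10),(k11,k11)],[(k6,k10),(k8,k11)],[(k4,k10),(k7,k10),(k10,k12),(k1,k22)]]
    [] k0
    [[k0,k2,k0,k0,k0,k0],[k0,k3,k0,k0,k0,k0],[k0,k4,k0,k0,k0,k0],[k0,k0,k0,k1,k0,k1],[k0,k0,k0,k1,k1,k1],[k0,k0,k0,k0,
    k2,k0],[k0,k0,k0,k0,k3,k0]]
    [.contra [z1],.ref k9 k0 [(z1,[z0,z1]),(z1,[z1]),(z1,[z0,y1,y1,z1])],.ref k10 k0 [(z1,[z0,z1]),(z2,[z1]),(z1,[z0,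
    y1,y1,z1])],.contra [y2,y1,y2,z2],.contra [z1,z1,z1,y1],.contra [z1],.ref k8 k0 [(z1,[z0,z1]),(z1,[y1,z0,z3]),(z1,
    [z0,y1,y1,z1])]]),
    .old (.leafM k10 [k3,k4,k5,k1] [(z1,[y3,y1,y1,z3]),(z1,[z0,z1]),(z1,[z0,z0,z1])] [(k0,k2,z1,[z1]),(k2,k0,z1,[z1])]),
    .old (.lp [k96,k40,k24,k24,k30,k24] [k0,k0,k28,k28,k36,k36,k36,k36,k33,k33,k36,k36] k0 [] k120 k6
    [[(k4,k60),(k7,k60),(k10,k60),(k1,k96)],[(k5,k60),(k2,k68)],[(k5,k32),(k2,k40)],[(k3,k40),(k0,k68)],[(k3,k32),(k0,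
    k60)],[(k4,k24),(k7,k24),(k10,k24),(k1,k60)],[(k4,k24),(k7,k24),(k10,k24),(k1,k60)],[(k11,k24),(k9,k27)],[(k6,
    k27),(k8,k30)],[(k11,k27),(k9,k30)],[(k6,k24),(k8,k27)],[(k4,k24),(k7,k24),(k10,k24),(k1,k60)]]
    [] k0
    [[k0,k2,k0,k0,k0,k0],[k0,k0,k0,k2,k0,k2],[k0,k0,k0,k1,k0,k1],[k0,k0,k0,k1,k1,k1],[k0,k0,k0,k1,k2,k1],[k0,k0,k0,k0,
    k2,k0],[k0,k0,k0,k0,k3,k0]]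
    [.contra [z1],.ref k11 k0 [(z1,[z0,z1]),(z2,[y1,y2,z0,z2])],.contra [y1,y1,z0,z1],.contra [z1,z1,z1,y1],
    .ref k12 k0 [(z1,[z0,z1]),(z1,[z0,z0,z1]),(z1,[y3,y6,y2,z6])],.contra [z1],.ref k12 k0 [(z1,[z0,z1]),(z1,[z0,z0,
    z1]),(z1,[y1,y3,y1,z3])]]),
    .old (.lp [k96,k30,k24,k24,k40,k24] [k0,k0,k33,k33,k36,k36,k36,k36,k28,k28,k36,k36] k0 [] k120 k6
    [[(k4,k60),(k7,k60),(k10,k60),(k1,k96)],[(k5,k60),(k2,k63)],[(k5,k27),(k2,k30)],[(k3,k30),(k0,k63)],[(k3,k27),(k0,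
    k60)],[(k4,k24),(k7,k24),(k10,k24),(k1,k60)],[(k4,k24),(k7,k24),(k10,k24),(k1,k60)],[(k11,k24),(k9,k32)],[(k6,
    k32),(k8,k40)],[(k11,k32),(k9,k40)],[(k6,k24),(k8,k32)],[(k4,k24),(k7,k24),(k10,k24),(k1,k60)]]
    [] k0
    [[k0,k2,k0,k0,k0,k0],[k0,k3,k0,k0,k0,k0],[k0,k0,k0,k2,k0,k2],[k0,k0,k0,k1,k0,k1],[k0,k0,k0,k1,k1,k1],[k0,k0,k0,k0,
    k2,k0]]
    [.contra [z1],.ref k13 k0 [(z1,[z0,z1]),(z1,[z1])],.ref k11 k0 [(z1,[z0,z1]),(z2,[y1,y2,z2])],.contra [y1,y1,z1],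
    .contra [y1,y1,z1],.contra [z1]]),
    .old (.lp [k6,k12,k6,k6,k8,k6] [k3,k3,k0,k0,k3,k3,k3,k3,k2,k2,k3,k3] k0 [] k24 k5
    [[(k1,k6),(k4,k6),(k7,k6),(k10,k6)],[(k5,k6),(k2,k9)],[(k5,k9),(k2,k12)],[(k0,k9),(k3,k12)],[(k0,k6),(k3,k9)],
    [(k1,k6),(k4,k6),(k7,k6),(k10,k6)],[(k1,k6),(k4,k6),(k7,k6),(k10,k6)],[(k11,k6),(k9,k7)],[(k6,k7),(k8,k8)],[(k11,
    k7),(k9,k8)],[(k6,k6),(k8,k7)],[(k1,k6),(k4,k6),(k7,k6),(k10,k6)]]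
    [] k0
    [[k1,k0,k1,k0,k0,k0],[k0,k0,k0,k1,k0,k1],[k0,k0,k0,k1,k1,k1],[k0,k0,k0,k0,k2,k0]]
    [.ref k14 k0 [(z1,[z1])],.ref k7 k0 [(z1,[y1,z1])],.ref k0 k0 [(z1,[y1,z1])],.contra [z1]])]⟩

/-- classes `0 0 1 2 2 1`, types `B0 B1 S0 C0 C2 S0` -/
noncomputable def cU6_1571 : CertX :=
  ⟨[k8,k9,k16,k36,k38,k16],[(false,k0,[k0,k1,k2,k3,k4,k5])],[[[([z1,z1,z1,z0,z0,z0],z2)],[]]],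
    [.old (.leafM k4 [k0,k1,k2,k3,k4,k5] [(z1,[y1,z1])] []),
    .old (.lp [k138,k116,k84,k174,k0,k174] [k18,k18,k29,k29,k45,k45,k0,k0,k87,k87,k0,k0] k36 [[],[],[],[],[],[k0,k0,k0,k0,
    k0,k0,k0,k0,k0,k0,k0,k90],[],[],[],[],[k0,k0,k0,k0,k90]] (nat_lit 240) k6
    [[(k1,k102),(k7,k120),(k10,k120),(k4,k165)],[(k5,k75),(k2,k91)],[(k5,k64),(k2,k80)],[(k3,k80),(k0,k91)],[(k3,k64),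
    (k0,k75)],[(k4,k48),(k7,k93),(k10,k93),(k1,k165)],[(k10,k48),(k4,k93),(k1,k120),(k7,k138)],[(k8,k51),(k9,k51)],
    [(k6,k51),(k11,k51)],[(k6,k51),(k11,k51)],[(k8,k51),(k9,k51)],[(k7,k48),(k4,k93),(k1,k120),(k10,k138)]]
    [] k0
    [[k0,k2,k0,k0,k0,k0],[k0,k0,k0,k1,k1,k1]]
    [.contra [z1],.ref k0 k0 [(z1,[y1,z1])]])]⟩

/-- classes `0 0 1 2 2 1`, types `B0 B1 S0 N0 N1 S0` -/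
noncomputable def cU6_1572 : CertX :=
  ⟨[k8,k9,k16,k44,k45,k16],[(false,k0,[k0,k1,k2,k3,k4,k5])],[[[([z3,z0,z3,z0,z0,z0],z2),([z0,z3,z0,z0,z0,z0],z2),([z0,
    z0,z0,z1,z0,z1],z2)],[([z1,z0,z1,z0,z0,z0],z1),([z0,z3,z0,z0,z0,z0],z1),([z0,z0,z0,z1,z0,z1],z2)],[([z3,z3,z3,z0,
    z0,z0],z4),([z0,z0,z0,z1,z0,z1],z2)],[([z1,z0,z1,z0,z0,z0],z1),([z0,z2,z0,z0,z0,z0],z1),([z0,z0,z0,z1,z0,z1],z2)],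
    [([z1,z0,z1,z0,z0,z0],z1),([z0,z3,z0,z0,z0,z0],z2),([z0,z0,z0,z1,z0,z1],z2)],[([z1,z0,z1,z0,z0,z0],z1),([z0,z1,z0,
    z0,z1,z0],z1)],[([z1,z1,z1,z0,z1,z0],z2)],[([z1,z0,z1,z0,z0,z0],z2),([z0,z3,z0,z0,z0,z0],z1),([z0,z0,z0,z1,z0,z1],
    z1)],[([z1,z0,z1,z0,z0,z0],z2),([z0,z2,z0,z0,z0,z0],z1),([z0,z0,z0,z1,z0,z1],z1)],[([z1,z0,z1,z0,z0,z0],z2),([z0,
    z3,z0,z0,z0,z0],z2),([z0,z0,z0,z1,z0,z1],z1)],[([z1,z0,z1,z0,z0,z0],z2),([z0,z1,z0,z0,z1,z0],z1)],[([z1,z0,z1,z0,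
    z0,z0],z2),([z0,z3,z0,z0,z0,z0],z2),([z0,z0,z0,z3,z0,z3],z2)]],[[([z1,z0,z1,z0,z0,z0],z2),([z0,z3,z0,z0,z0,z0],
    z2)],[([z1,z0,z1,z0,z0,z0],z2)],[]]],
    [.old (.leafM k10 [k0,k1,k2,k4] [(z1,[z0,z1]),(z1,[y1,y1,y3,z3]),(z1,[z1])] [(k3,k5,z1,[z0,z0,z1]),(k5,k3,z1,[z0,z0,
    z1])]),
    .old (.leafM k11 [k2,k4,k0,k1] [(z1,[y3,y1,y3,z3]),(z1,[z0,z1]),(z1,[z1])] [(k3,k5,z1,[z0,z0,z1]),(k5,k3,z1,[z0,z0,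
    z1])]),
    .old (.lp [k24,k30,k24,k24,k40,k96] [k36,k36,k33,k33,k36,k36,k36,k36,k28,k28,k0,k0] k0 [] k120 k6
    [[(k1,k24),(k4,k24),(k7,k24),(k10,k60)],[(k5,k24),(k2,k27)],[(k5,k27),(k2,k30)],[(k0,k27),(k3,k30)],[(k0,k24),(k3,
    k27)],[(k1,k24),(k4,k24),(k7,k24),(k10,k60)],[(k1,k24),(k4,k24),(k7,k24),(k10,k60)],[(k11,k60)],[(k8,k40)],[(k9,
    k40)],[(k6,k60)],[(k1,k60),(k4,k60),(k7,k60),(k10,k96)]]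
    [] k0
    [[k2,k0,k2,k0,k0,k0],[k1,k0,k1,k0,k0,k0],[k1,k1,k1,k0,k0,k0],[k1,k2,k1,k0,k0,k0],[k0,k2,k0,k0,k0,k0],[k0,k3,k0,k0,
    k0,k0],[k0,k0,k0,k0,k2,k0]]
    [.ref k1 k0 [(z2,[z1]),(z2,[y3,z2]),(z1,[z0,z0,z1])],.contra [y2,z1],.contra [z1,y1,y2,z2],.ref k0 k0 [(z1,[y3,
    z2]),(z1,[z3,y1]),(z1,[z0,z0,z1])],.contra [z1],.ref k0 k0 [(z1,[y1,z1]),(z1,[z1]),(z1,[z0,z0,z1])],.contra [z1]]),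
    .old (.leafM k12 [k0,k1,k2,k4] [(z1,[z0,z1]),(z1,[y2,y1,y2,z2]),(z1,[z1])] [(k3,k5,z1,[z0,z0,z1]),(k5,k3,z1,[z0,z0,
    z1])]),
    .old (.leafM k11 [k0,k1,k2,k4] [(z1,[z0,z1]),(z1,[y3,y1,y3,z3]),(z1,[z1])] [(k3,k5,z1,[z0,z0,z1]),(k5,k3,z1,[z0,z0,
    z1])]),
    .old (.lp [k12,k10,k8,k8,k8,k32] [k10,k10,k11,k11,k12,k12,k12,k12,k12,k12,k0,k0] k0 [] k40 k6
    [[(k4,k10),(k7,k10),(k1,k12),(k10,k22)],[(k5,k10),(k2,k11)],[(k5,k9),(k2,k10)],[(k3,k10),(k0,k11)],[(k3,k9),(k0,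
    k10)],[(k4,k8),(k7,k8),(k1,k10),(k10,k20)],[(k4,k8),(k7,k8),(k1,k10),(k10,k20)],[(k11,k20)],[(k8,k8)],[(k9,k8)],
    [(k6,k20)],[(k4,k20),(k7,k20),(k1,k22),(k10,k32)]]
    [] k0
    [[k1,k0,k1,k0,k0,k0],[k1,k1,k1,k0,k0,k0],[k0,k2,k0,k0,k0,k0],[k0,k3,k0,k0,k0,k0],[k0,k0,k0,k0,k2,k0],[k0,k0,k0,k0,
    k3,k0],[k0,k0,k0,k0,k4,k0]]
    [.contra [y1,z2],.contra [z1,y1],.contra [z1],.ref k4 k0 [(z1,[z0,z1]),(z1,[z1]),(z1,[z0,y1,y1,z1])],.contra [z1],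
    .ref k2 k0 [(z1,[y1,z3,z3]),(z1,[z0,y1,y1,z1])],.ref k3 k0 [(z1,[z0,z1]),(z2,[y1,z0,z4]),(z1,[z0,y1,y1,z1])]]),
    .old (.lp [k24,k40,k24,k24,k30,k96] [k36,k36,k28,k28,k36,k36,k36,k36,k33,k33,k0,k0] k0 [] k120 k6
    [[(k1,k24),(k4,k24),(k7,k24),(k10,k60)],[(k5,k24),(k2,k32)],[(k5,k32),(k2,k40)],[(k0,k32),(k3,k40)],[(k0,k24),(k3,
    k32)],[(k1,k24),(k4,k24),(k7,k24),(k10,k60)],[(k1,k24),(k4,k24),(k7,k24),(k10,k60)],[(k11,k60)],[(k8,k30)],[(k9,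
    k30)],[(k6,k60)],[(k1,k60),(k4,k60),(k7,k60),(k10,k96)]]
    [] k0
    [[k2,k0,k2,k0,k0,k0],[k1,k0,k1,k0,k0,k0],[k1,k1,k1,k0,k0,k0],[k0,k2,k0,k0,k0,k0],[k0,k0,k0,k0,k2,k0],[k0,k0,k0,k0,
    k3,k0]]
    [.ref k5 k0 [(z2,[z1]),(z2,[y1,z2])],.contra [y1,z1],.contra [y1,z1],.contra [z1],.contra [z1],.ref k2 k0 [(z1,
    [y1,z3]),(z1,[z0,y1,z1])]]),
    .old (.leafM k11 [k3,k4,k5,k1] [(z1,[y3,y1,y3,z3]),(z1,[z0,z1]),(z1,[z0,z0,z1])] [(k0,k2,z1,[z1]),(k2,k0,z1,[z1])]),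
    .old (.leafM k12 [k3,k4,k5,k1] [(z1,[y2,y1,y2,z2]),(z1,[z0,z1]),(z1,[z0,z0,z1])] [(k0,k2,z1,[z1]),(k2,k0,z1,[z1])]),
    .old (.leafM k11 [k5,k1,k3,k4] [(z1,[z0,z1]),(z1,[y3,y1,y3,z3]),(z1,[z0,z0,z1])] [(k0,k2,z1,[z1]),(k2,k0,z1,[z1])]),
    .old (.lp [k32,k10,k8,k8,k8,k12] [k0,k0,k11,k11,k12,k12,k12,k12,k12,k12,k10,k10] k0 [] k40 k6
    [[(k4,k20),(k7,k20),(k10,k22),(k1,k32)],[(k5,k20),(k2,k21)],[(k5,k9),(k2,k10)],[(k3,k10),(k0,k21)],[(k3,k9),(k0,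
    k20)],[(k4,k8),(k7,k8),(k10,k10),(k1,k20)],[(k4,k8),(k7,k8),(k10,k10),(k1,k20)],[(k11,k10)],[(k8,k8)],[(k9,k8)],
    [(k6,k10)],[(k4,k10),(k7,k10),(k10,k12),(k1,k22)]]
    [] k0
    [[k0,k2,k0,k0,k0,k0],[k0,k3,k0,k0,k0,k0],[k0,k0,k0,k1,k0,k1],[k0,k0,k0,k0,k2,k0],[k0,k0,k0,k0,k3,k0],[k0,k0,k0,k0,
    k4,k0]]
    [.contra [z1],.ref k9 k0 [(z1,[z0,z1]),(z1,[z1]),(z1,[z0,y1,y1,z1])],.contra [y2,y1,y2,z2],.contra [z1],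
    .ref k7 k0 [(z1,[z0,z1]),(z1,[y1,z0,z3]),(z1,[z0,y1,y1,z1])],.ref k8 k0 [(z1,[z0,z1]),(z2,[y1,z0,z4]),(z1,[z0,y1,
    y1,z1])]]),
    .old (.leafM k10 [k3,k4,k5,k1] [(z1,[y3,y1,y1,z3]),(z1,[z0,z1]),(z1,[z0,z0,z1])] [(k0,k2,z1,[z1]),(k2,k0,z1,[z1])]),
    .old (.lp [k96,k40,k24,k24,k30,k24] [k0,k0,k28,k28,k36,k36,k36,k36,k33,k33,k36,k36] k0 [] k120 k6
    [[(k4,k60),(k7,k60),(k10,k60),(k1,k96)],[(k5,k60),(k2,k68)],[(k5,k32),(k2,k40)],[(k3,k40),(k0,k68)],[(k3,k32),(k0,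
    k60)],[(k4,k24),(k7,k24),(k10,k24),(k1,k60)],[(k4,k24),(k7,k24),(k10,k24),(k1,k60)],[(k11,k24)],[(k8,k30)],[(k9,
    k30)],[(k6,k24)],[(k4,k24),(k7,k24),(k10,k24),(k1,k60)]]
    [] k0
    [[k0,k2,k0,k0,k0,k0],[k0,k0,k0,k2,k0,k2],[k0,k0,k0,k1,k0,k1],[k0,k0,k0,k0,k2,k0],[k0,k0,k0,k0,k3,k0]]
    [.contra [z1],.ref k10 k0 [(z1,[z0,z1]),(z2,[y1,y2,z0,z2])],.contra [y1,y1,z0,z1],.contra [z1],.ref k11 k0 [(z1,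
    [z0,z1]),(z1,[z0,z0,z1]),(z1,[y1,y3,y1,z3])]]),
    .old (.lp [k96,k30,k24,k24,k40,k24] [k0,k0,k33,k33,k36,k36,k36,k36,k28,k28,k36,k36] k0 [] k120 k6
    [[(k4,k60),(k7,k60),(k10,k60),(k1,k96)],[(k5,k60),(k2,k63)],[(k5,k27),(k2,k30)],[(k3,k30),(k0,k63)],[(k3,k27),(k0,
    k60)],[(k4,k24),(k7,k24),(k10,k24),(k1,k60)],[(k4,k24),(k7,k24),(k10,k24),(k1,k60)],[(k11,k24)],[(k8,k40)],[(k9,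
    k40)],[(k6,k24)],[(k4,k24),(k7,k24),(k10,k24),(k1,k60)]]
    [] k0
    [[k0,k2,k0,k0,k0,k0],[k0,k3,k0,k0,k0,k0],[k0,k0,k0,k2,k0,k2],[k0,k0,k0,k1,k0,k1],[k0,k0,k0,k0,k2,k0]]
    [.contra [z1],.ref k12 k0 [(z1,[z0,z1]),(z1,[z1])],.ref k10 k0 [(z1,[z0,z1]),(z2,[y1,y2,z2])],.contra [y1,y1,z1],
    .contra [z1]]),
    .old (.lp [k6,k12,k6,k6,k8,k6] [k3,k3,k0,k0,k3,k3,k3,k3,k2,k2,k3,k3] k0 [] k24 k5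
    [[(k1,k6),(k4,k6),(k7,k6),(k10,k6)],[(k5,k6),(k2,k9)],[(k5,k9),(k2,k12)],[(k0,k9),(k3,k12)],[(k0,k6),(k3,k9)],
    [(k1,k6),(k4,k6),(k7,k6),(k10,k6)],[(k1,k6),(k4,k6),(k7,k6),(k10,k6)],[(k11,k6)],[(k8,k8)],[(k9,k8)],[(k6,k6)],
    [(k1,k6),(k4,k6),(k7,k6),(k10,k6)]]
    [] k0
    [[k1,k0,k1,k0,k0,k0],[k0,k0,k0,k1,k0,k1],[k0,k0,k0,k0,k2,k0]]
    [.ref k13 k0 [(z1,[z1])],.ref k6 k0 [(z1,[y1,z1])],.contra [z1]])]⟩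

/-- classes `0 0 1 2 2 1`, types `B0 B1 S0 N0 N2 S0` -/
noncomputable def cU6_1573 : CertX :=
  ⟨[k8,k9,k16,k44,k46,k16],[(false,k0,[k0,k1,k2,k3,k4,k5])],[[[([z1,z1,z1,z0,z0,z0],z2)],[]]],
    [.old (.leafM k6 [k0,k1,k2,k3,k4,k5] [(z1,[y1,z1])] []),
    .old (.lp [k24,k10,k6,k6,k6,k6] [k0,k0,k7,k7,k9,k9,k9,k9,k9,k9,k9,k9] k0 [] k30 k6
    [[(k4,k15),(k7,k15),(k10,k15),(k1,k24)],[(k5,k15),(k2,k17)],[(k5,k8),(k2,k10)],[(k3,k10),(k0,k17)],[(k3,k8),(k0,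
    k15)],[(k4,k6),(k7,k6),(k10,k6),(k1,k15)],[(k4,k6),(k7,k6),(k10,k6),(k1,k15)],[(k8,k6)],[(k11,k6)],[(k6,k6)],[(k9,
    k6)],[(k4,k6),(k7,k6),(k10,k6),(k1,k15)]]
    [] k0
    [[k0,k2,k0,k0,k0,k0],[k0,k0,k0,k1,k1,k1]]
    [.contra [z1],.ref k0 k0 [(z1,[y1,z1])]])]⟩

/-- classes `0 0 1 2 2 1`, types `B0 B1 S0 S0 S0 S0` -/
noncomputable def cU6_1574 : CertX :=
  ⟨[k8,k9,k16,k32,k32,k16],[(false,k0,[k0,k1,k2,k3,k4,k5])],[[[([z1,z1,z1,z0,z0,z0],z2)],[([z3,z0,z3,z0,z0,z0],z2),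
    ([z0,z3,z0,z0,z0,z0],z2),([z0,z0,z0,z1,z0,z1],z2)],[([z1,z0,z1,z0,z0,z0],z1),([z0,z3,z0,z0,z0,z0],z1),([z0,z0,z0,
    z1,z0,z1],z2)],[([z3,z3,z3,z0,z0,z0],z4),([z0,z0,z0,z1,z0,z1],z2)],[([z1,z0,z1,z0,z0,z0],z1),([z0,z2,z0,z0,z0,z0],
    z1),([z0,z0,z0,z1,z0,z1],z2)],[([z1,z0,z1,z0,z0,z0],z1),([z0,z3,z0,z0,z0,z0],z2),([z0,z0,z0,z1,z0,z1],z2)],[([z1,
    z0,z1,z0,z0,z0],z1),([z0,z1,z0,z0,z1,z0],z1)],[([z1,z1,z1,z0,z1,z0],z2)],[([z1,z0,z1,z0,z0,z0],z2),([z0,z3,z0,z0,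
    z0,z0],z1),([z0,z0,z0,z1,z0,z1],z1)],[([z1,z0,z1,z0,z0,z0],z2),([z0,z3,z0,z0,z0,z0],z2),([z0,z0,z0,z1,z0,z1],z1)],
    [([z1,z0,z1,z0,z0,z0],z2),([z0,z2,z0,z0,z0,z0],z1),([z0,z0,z0,z1,z0,z1],z1)],[([z1,z0,z1,z0,z0,z0],z2),([z0,z1,z0,
    z0,z1,z0],z1)]],[[([z1,z0,z1,z0,z0,z0],z2),([z0,z3,z0,z0,z0,z0],z2),([z0,z0,z0,z3,z0,z3],z2)],[([z1,z0,z1,z0,z0,
    z0],z2),([z0,z3,z0,z0,z0,z0],z2)],[([z1,z0,z1,z0,z0,z0],z2)],[]]],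
    [.old (.leafM k4 [k0,k1,k2,k3,k4,k5] [(z1,[y1,z1])] []),
    .old (.leafM k10 [k0,k1,k2,k4] [(z1,[z0,z1]),(z1,[y1,y1,y3,z3]),(z1,[z1])] [(k3,k5,z1,[z0,z0,z1]),(k5,k3,z1,[z0,z0,
    z1])]),
    .old (.leafM k11 [k2,k4,k0,k1] [(z1,[y3,y1,y3,z3]),(z1,[z0,z1]),(z1,[z1])] [(k3,k5,z1,[z0,z0,z1]),(k5,k3,z1,[z0,z0,
    z1])]),
    .old (.lp [k24,k30,k24,k60,k40,k60] [k18,k18,k15,k15,k18,k18,k0,k0,k10,k10,k0,k0] k0 [] k120 k6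
    [[(k1,k24),(k4,k24),(k7,k42),(k10,k42)],[(k5,k24),(k2,k27)],[(k5,k27),(k2,k30)],[(k0,k27),(k3,k30)],[(k0,k24),(k3,
    k27)],[(k1,k24),(k4,k24),(k7,k42),(k10,k42)],[(k1,k42),(k4,k42),(k7,k60),(k10,k60)],[(k8,k50),(k9,k50),(k6,k60),
    (k11,k60)],[(k8,k40),(k9,k40),(k6,k50),(k11,k50)],[(k8,k40),(k9,k40),(k6,k50),(k11,k50)],[(k8,k50),(k9,k50),(k6,
    k60),(k11,k60)],[(k1,k42),(k4,k42),(k7,k60),(k10,k60)]]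
    [] k0
    [[k2,k0,k2,k0,k0,k0],[k1,k0,k1,k0,k0,k0],[k1,k1,k1,k0,k0,k0],[k1,k2,k1,k0,k0,k0],[k0,k2,k0,k0,k0,k0],[k0,k3,k0,k0,
    k0,k0],[k0,k0,k0,k0,k2,k0]]
    [.ref k2 k0 [(z2,[z1]),(z2,[y3,z2]),(z1,[z0,z0,z1])],.contra [y2,z1],.contra [z1,y1,y2,z2],.ref k1 k0 [(z1,[y3,
    z2]),(z1,[z3,y1]),(z1,[z0,z0,z1])],.contra [z1],.ref k1 k0 [(z1,[y1,z1]),(z1,[z1]),(z1,[z0,z0,z1])],.contra [z1]]),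
    .old (.leafM k12 [k0,k1,k2,k4] [(z1,[z0,z1]),(z1,[y2,y1,y2,z2]),(z1,[z1])] [(k3,k5,z1,[z0,z0,z1]),(k5,k3,z1,[z0,z0,
    z1])]),
    .old (.leafM k11 [k0,k1,k2,k4] [(z1,[z0,z1]),(z1,[y3,y1,y3,z3]),(z1,[z1])] [(k3,k5,z1,[z0,z0,z1]),(k5,k3,z1,[z0,z0,
    z1])]),
    .old (.lp [k12,k10,k8,k20,k8,k20] [k4,k4,k5,k5,k6,k6,k0,k0,k6,k6,k0,k0] k0 [] k40 k6
    [[(k4,k10),(k1,k12),(k7,k16),(k10,k16)],[(k5,k10),(k2,k11)],[(k5,k9),(k2,k10)],[(k3,k10),(k0,k11)],[(k3,k9),(k0,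
    k10)],[(k4,k8),(k1,k10),(k7,k14),(k10,k14)],[(k4,k14),(k1,k16),(k7,k20),(k10,k20)],[(k8,k14),(k9,k14),(k6,k20),
    (k11,k20)],[(k8,k8),(k9,k8),(k6,k14),(k11,k14)],[(k8,k8),(k9,k8),(k6,k14),(k11,k14)],[(k8,k14),(k9,k14),(k6,k20),
    (k11,k20)],[(k4,k14),(k1,k16),(k7,k20),(k10,k20)]]
    [] k0
    [[k1,k0,k1,k0,k0,k0],[k1,k1,k1,k0,k0,k0],[k0,k2,k0,k0,k0,k0],[k0,k3,k0,k0,k0,k0],[k0,k0,k0,k0,k2,k0],[k0,k0,k0,k0,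
    k3,k0],[k0,k0,k0,k0,k4,k0]]
    [.contra [y1,z2],.contra [z1,y1],.contra [z1],.ref k5 k0 [(z1,[z0,z1]),(z1,[z1]),(z1,[z0,y1,y1,z1])],.contra [z1],
    .ref k3 k0 [(z1,[y1,z3,z3]),(z1,[z0,y1,y1,z1])],.ref k4 k0 [(z1,[z0,z1]),(z2,[y1,z0,z4]),(z1,[z0,y1,y1,z1])]]),
    .old (.lp [k24,k40,k24,k60,k30,k60] [k18,k18,k10,k10,k18,k18,k0,k0,k15,k15,k0,k0] k0 [] k120 k6
    [[(k1,k24),(k4,k24),(k7,k42),(k10,k42)],[(k5,k24),(k2,k32)],[(k5,k32),(k2,k40)],[(k0,k32),(k3,k40)],[(k0,k24),(k3,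
    k32)],[(k1,k24),(k4,k24),(k7,k42),(k10,k42)],[(k1,k42),(k4,k42),(k7,k60),(k10,k60)],[(k8,k45),(k9,k45),(k6,k60),
    (k11,k60)],[(k8,k30),(k9,k30),(k6,k45),(k11,k45)],[(k8,k30),(k9,k30),(k6,k45),(k11,k45)],[(k8,k45),(k9,k45),(k6,
    k60),(k11,k60)],[(k1,k42),(k4,k42),(k7,k60),(k10,k60)]]
    [] k0
    [[k2,k0,k2,k0,k0,k0],[k1,k0,k1,k0,k0,k0],[k1,k1,k1,k0,k0,k0],[k0,k2,k0,k0,k0,k0],[k0,k0,k0,k0,k2,k0],[k0,k0,k0,k0,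
    k3,k0]]
    [.ref k6 k0 [(z2,[z1]),(z2,[y1,z2])],.contra [y1,z1],.contra [y1,z1],.contra [z1],.contra [z1],.ref k3 k0 [(z1,
    [y1,z3]),(z1,[z0,y1,z1])]]),
    .old (.leafM k11 [k3,k4,k5,k1] [(z1,[y3,y1,y3,z3]),(z1,[z0,z1]),(z1,[z0,z0,z1])] [(k0,k2,z1,[z1]),(k2,k0,z1,[z1])]),
    .old (.leafM k8 [k5,k1,k3,k4] [(z1,[z0,z1]),(z1,[y3,y1,y3,z3]),(z1,[z0,z0,z1])] [(k0,k2,z1,[z1]),(k2,k0,z1,[z1])]),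
    .old (.leafM k9 [k5,k1,k3,k4] [(z1,[z0,z1]),(z1,[y2,y1,y2,z2]),(z1,[z0,z0,z1])] [(k0,k2,z1,[z1]),(k2,k0,z1,[z1])]),
    .old (.lp [k74,k48,k48,k120,k60,k120] [k59,k59,k72,k72,k72,k72,k72,k0,k66,k66,k26,k46] k0 [[],[],[],[],[],[k0,k0,k0,
    k0,k0,k0,k0,k0,k0,k0,k0,k118],[],[],[],[],[k0,k0,k0,k0,k118]] (nat_lit 240) k6
    [[(k1,k74),(k10,k107),(k7,k133),(k4,k179)],[(k2,k61),(k5,k61)],[(k2,k48),(k5,k48)],[(k3,k48),(k0,k61)],[(k3,k48),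
    (k0,k61)],[(k4,k48),(k10,k94),(k7,k120),(k1,k179)],[(k10,k48),(k4,k120),(k1,k133),(k7,k192)],[(k6,k48),(k8,k54),
    (k9,k54),(k11,k74)],[(k6,k54),(k8,k60),(k9,k60),(k11,k80)],[(k6,k54),(k8,k60),(k9,k60),(k11,k80)],[(k6,k74),(k8,
    k80),(k9,k80),(k11,k100)],[(k7,k48),(k4,k94),(k1,k107),(k10,k140)]]
    [] k0
    [[k0,k2,k0,k0,k0,k0],[k0,k3,k0,k0,k0,k0],[k0,k4,k0,k0,k0,k0],[k0,k0,k0,k1,k0,k1],[k0,k0,k0,k1,k1,k1],[k0,k0,k0,k0,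
    k2,k0],[k0,k0,k0,k0,k3,k0]]
    [.contra [z1],.ref k9 k0 [(z1,[z0,z1]),(z1,[z1]),(z1,[z0,y1,y1,z1])],.ref k10 k0 [(z1,[z0,z1]),(z2,[z1]),(z1,[z0,
    y1,y1,z1])],.contra [y2,y1,y2,z2],.contra [z1,z1,z1,y1],.contra [z1],.ref k8 k0 [(z1,[z0,z1]),(z1,[y1,z0,z3]),(z1,
    [z0,y1,y1,z1])]]),
    .old (.leafM k10 [k3,k4,k5,k1] [(z1,[y3,y1,y1,z3]),(z1,[z0,z1]),(z1,[z0,z0,z1])] [(k0,k2,z1,[z1]),(k2,k0,z1,[z1])]),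
    .old (.lp [(nat_lit 12880),(nat_lit 12880),(nat_lit 7728),(nat_lit 14490),(nat_lit 9660),
    (nat_lit 19320)] [(nat_lit 8740),(nat_lit 8740),(nat_lit 8740),(nat_lit 8740),(nat_lit 11316),(nat_lit 11316),
    (nat_lit 11295),(nat_lit 4575),(nat_lit 10350),(nat_lit 10350),k0,(nat_lit 11040)] k0 [[],[],[],[],[],[k0,k0,k0,
    k0,k0,k0,k0,k0,k0,k0,k0,(nat_lit 18032)],[],[],[],[],[k0,k0,k0,k0,(nat_lit 18032)]] (nat_lit 38640) k6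
    [[(k1,(nat_lit 12880)),(k7,(nat_lit 17045)),(k10,(nat_lit 21620)),(k4,(nat_lit 28336))],[(k5,(nat_lit 10304)),(k2,
    (nat_lit 12880))],[(k5,(nat_lit 10304)),(k2,(nat_lit 12880))],[(k0,(nat_lit 12880)),(k3,(nat_lit 12880))],[(k0,
    (nat_lit 10304)),(k3,(nat_lit 10304))],[(k4,(nat_lit 7728)),(k7,(nat_lit 14469)),(k10,(nat_lit 19044)),(k1,
    (nat_lit 28336))],[(k10,(nat_lit 7753)),(k4,(nat_lit 14469)),(k1,(nat_lit 17045)),(k7,(nat_lit 21210))],[(k6,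
    (nat_lit 7770)),(k11,(nat_lit 8025)),(k8,(nat_lit 8715)),(k9,(nat_lit 8715))],[(k6,(nat_lit 8715)),(k11,
    (nat_lit 8970)),(k8,(nat_lit 9660)),(k9,(nat_lit 9660))],[(k6,(nat_lit 8715)),(k11,(nat_lit 8970)),(k8,
    (nat_lit 9660)),(k9,(nat_lit 9660))],[(k6,(nat_lit 8025)),(k11,(nat_lit 8280)),(k8,(nat_lit 8970)),(k9,
    (nat_lit 8970))],[(k7,(nat_lit 7753)),(k4,(nat_lit 19044)),(k1,(nat_lit 21620)),(k10,(nat_lit 30360))]]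
    [] k0
    [[k0,k2,k0,k0,k0,k0],[k0,k0,k0,k2,k0,k0],[k0,k0,k0,k1,k0,k1],[k0,k0,k0,k2,k0,k2],[k0,k0,k0,k1,k1,k1],[k0,k0,k0,k1,
    k2,k1],[k0,k0,k0,k0,k2,k0],[k0,k0,k0,k0,k3,k0]]
    [.contra [z1],.contra [z1],.contra [y1,y1,z0,z1],.ref k11 k0 [(z1,[z0,z1]),(z2,[y1,y2,z0,z2])],.contra [z1,z1,z1,
    y1],.ref k12 k0 [(z1,[z0,z1]),(z1,[z0,z0,z1]),(z1,[y3,y6,y2,z6])],.contra [z1],.ref k12 k0 [(z1,[z0,z1]),(z1,[z0,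
    z0,z1]),(z1,[y1,y3,y1,z3])]]),
    .old (.lp [(nat_lit 630),(nat_lit 420),(nat_lit 336),(nat_lit 560),(nat_lit 560),(nat_lit 840)] [(nat_lit 345),
    (nat_lit 345),(nat_lit 450),(nat_lit 450),(nat_lit 492),(nat_lit 492),(nat_lit 492),(nat_lit 268),(nat_lit 380),
    (nat_lit 380),k0,(nat_lit 480)] k0 [[],[],[],[],[],[k0,k0,k0,k0,k0,k0,k0,k0,k0,k0,k0,(nat_lit 714)],[],[],[],[],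
    [k0,k0,k0,k0,(nat_lit 714)]] (nat_lit 1680) k6
    [[(k1,(nat_lit 630)),(k7,(nat_lit 707)),(k10,(nat_lit 975)),(k4,(nat_lit 1197))],[(k5,(nat_lit 483)),(k2,
    (nat_lit 525))],[(k5,(nat_lit 378)),(k2,(nat_lit 420))],[(k3,(nat_lit 420)),(k0,(nat_lit 525))],[(k3,
    (nat_lit 378)),(k0,(nat_lit 483))],[(k4,(nat_lit 336)),(k7,(nat_lit 560)),(k10,(nat_lit 828)),(k1,
    (nat_lit 1197))],[(k10,(nat_lit 338)),(k4,(nat_lit 560)),(k1,(nat_lit 707)),(k7,(nat_lit 784))],[(k6,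
    (nat_lit 336)),(k11,(nat_lit 348)),(k8,(nat_lit 448)),(k9,(nat_lit 448))],[(k6,(nat_lit 448)),(k11,(nat_lit 460)),
    (k8,(nat_lit 560)),(k9,(nat_lit 560))],[(k6,(nat_lit 448)),(k11,(nat_lit 460)),(k8,(nat_lit 560)),(k9,
    (nat_lit 560))],[(k6,(nat_lit 348)),(k11,(nat_lit 360)),(k8,(nat_lit 460)),(k9,(nat_lit 460))],[(k7,
    (nat_lit 338)),(k4,(nat_lit 828)),(k1,(nat_lit 975)),(k10,(nat_lit 1320))]]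
    [] k0
    [[k0,k2,k0,k0,k0,k0],[k0,k3,k0,k0,k0,k0],[k0,k0,k0,k2,k0,k0],[k0,k0,k0,k1,k0,k1],[k0,k0,k0,k2,k0,k2],[k0,k0,k0,k1,
    k1,k1],[k0,k0,k0,k0,k2,k0]]
    [.contra [z1],.ref k13 k0 [(z1,[z0,z1]),(z1,[z1])],.contra [z1],.contra [y1,y1,z1],.ref k11 k0 [(z1,[z0,z1]),(z2,
    [y1,y2,z2])],.contra [y1,y1,z1],.contra [z1]]),
    .old (.lp [k18,k24,k18,k36,k22,k20] [k10,k10,k7,k7,k10,k10,k2,k0,k8,k8,k8,k10] k0 [[],[],[],[],[],[k0,k0,k0,k0,k0,k0,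
    k0,k0,k0,k0,k0,k12],[k0,k0,k0,k0,k0,k0,k0,k0,k6,k10],[],[k0,k0,k0,k0,k0,k0,k0,k10],[k0,k0,k0,k0,k0,k0,k0,k6],[k0,
    k0,k0,k0,k12]] k72 k5
    [[(k1,k18),(k10,k20),(k7,k28),(k4,k30)],[(k5,k18),(k2,k21)],[(k5,k21),(k2,k24)],[(k0,k21),(k3,k24)],[(k0,k18),(k3,
    k21)],[(k4,k18),(k10,k20),(k7,k28),(k1,k30)],[(k10,k18),(k1,k28),(k4,k28),(k7,k38)],[(k8,k18),(k11,k20),(k9,k28),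
    (k6,k34)],[(k9,k22),(k6,k28),(k8,k28),(k11,k30)],[(k6,k18),(k11,k20),(k8,k22),(k9,k28)],[(k11,k18),(k6,k20),(k8,
    k20),(k9,k30)],[(k7,k18),(k1,k20),(k4,k20),(k10,k22)]]
    [] k0
    [[k1,k0,k1,k0,k0,k0],[k0,k2,k0,k0,k0,k0],[k0,k0,k0,k1,k0,k1],[k0,k0,k0,k1,k1,k1],[k0,k0,k0,k0,k2,k0],[k0,k0,k0,k0,
    k0,k2]]
    [.ref k14 k0 [(z1,[z1])],.contra [z1],.ref k7 k0 [(z1,[y1,z1])],.ref k0 k0 [(z1,[y1,z1])],.contra [z1],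
    .contra [z1]])]⟩

/-- classes `0 0 1 2 2 1`, types `C0 C0 B0 C0 C0 B1` -/
noncomputable def cU6_1575 : CertX :=
  ⟨[k4,k4,k24,k36,k36,k25],[(false,k0,[k0,k1,k2,k3,k4,k5]),(false,k3,[k3,k4,k5,k0,k1,k2])],[[[([z1,z1,z1,z0,z0,z0],
    z2)],[([z1,z0,z1,z0,z0,z0],z1),([z0,z3,z0,z0,z0,z0],z1),([z0,z0,z0,z1,z0,z1],z2)],[([z1,z0,z1,z0,z0,z0],z1),([z0,
    z2,z0,z0,z0,z0],z1),([z0,z0,z0,z1,z0,z1],z2)],[([z1,z0,z1,z0,z0,z0],z1),([z0,z3,z0,z0,z0,z0],z2),([z0,z0,z0,z1,z0,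
    z1],z2)],[([z1,z0,z1,z0,z0,z0],z1),([z0,z1,z0,z0,z1,z0],z1)],[([z3,z0,z3,z0,z0,z0],z2),([z0,z3,z0,z0,z0,z0],z2),
    ([z0,z0,z0,z1,z0,z1],z2)],[([z1,z0,z1,z0,z0,z0],z2),([z0,z3,z0,z0,z0,z0],z2)],[([z1,z0,z1,z0,z0,z0],z2)],[]]],
    [.old (.leafM k0 [k2,k3,k4,k5,k0,k1] [(z1,[y1,z1])] []),
    .old (.leafM k11 [k2,k4,k0,k1] [(z1,[y3,y1,y3,z3]),(z1,[z0,z1]),(z1,[z1])] [(k3,k5,z1,[z0,z0,z1]),(k5,k3,z1,[z0,z0,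
    z1])]),
    .old (.leafM k12 [k0,k1,k2,k4] [(z1,[z0,z1]),(z1,[y2,y1,y2,z2]),(z1,[z1])] [(k3,k5,z1,[z0,z0,z1]),(k5,k3,z1,[z0,z0,
    z1])]),
    .old (.leafM k11 [k0,k1,k2,k4] [(z1,[z0,z1]),(z1,[y3,y1,y3,z3]),(z1,[z1])] [(k3,k5,z1,[z0,z0,z1]),(k5,k3,z1,[z0,z0,
    z1])]),
    .old (.lp [k6,k10,k14,k32,k8,k8] [k13,k13,k11,k11,k9,k9,k0,k0,k12,k12,k12,k12] k0 [] k40 k6
    [[(k4,k10),(k7,k19)],[(k3,k8),(k5,k10)],[(k0,k8),(k2,k10)],[(k3,k10),(k5,k12)],[(k0,k10),(k2,k12)],[(k1,k10),(k10,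
    k11)],[(k1,k19),(k10,k20)],[(k9,k20),(k11,k20)],[(k8,k8),(k6,k20)],[(k9,k8),(k11,k8)],[(k8,k8),(k6,k20)],[(k4,
    k11),(k7,k20)]]
    [] k0
    [[k1,k0,k1,k0,k0,k0],[k1,k1,k1,k0,k0,k0],[k0,k2,k0,k0,k0,k0],[k0,k3,k0,k0,k0,k0],[k0,k0,k0,k0,k2,k0],[k0,k0,k0,k0,
    k3,k0],[k0,k0,k0,k0,k4,k0]]
    [.contra [y1,z2],.contra [z1,y1],.contra [z1],.ref k3 k0 [(z1,[z0,z1]),(z1,[z1]),(z1,[z0,y1,y1,z1])],.contra [z1],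
    .ref k1 k0 [(z1,[z0,z1]),(z1,[y1,z0,z3]),(z1,[z0,y1,y1,z1])],.ref k2 k0 [(z1,[z0,z1]),(z2,[y1,z0,z4]),(z1,[z0,y1,
    y1,z1])]]),
    .old (.leafM k10 [k0,k1,k2,k4] [(z1,[z0,z1]),(z1,[y1,y1,y3,z3]),(z1,[z1])] [(k3,k5,z1,[z0,z0,z1]),(k5,k3,z1,[z0,z0,
    z1])]),
    .old (.lp [k18,k40,k102,k30,k30,k18] [k42,k42,k31,k31,k0,k0,k36,k36,k36,k36,k42,k42] k0 [] k120 k6
    [[(k7,k24),(k4,k60)],[(k3,k29),(k5,k60)],[(k0,k29),(k2,k40)],[(k3,k40),(k5,k71)],[(k0,k60),(k2,k71)],[(k1,k60),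
    (k10,k60)],[(k1,k24),(k10,k24)],[(k11,k24),(k9,k30)],[(k6,k30),(k8,k30)],[(k11,k24),(k9,k30)],[(k6,k24),(k8,k24)],
    [(k7,k24),(k4,k60)]]
    [] k0
    [[k0,k2,k0,k0,k0,k0],[k0,k0,k0,k1,k0,k1],[k0,k0,k0,k2,k0,k2],[k0,k0,k0,k1,k1,k1],[k0,k0,k0,k1,k2,k1],[k0,k0,k0,k0,
    k2,k0],[k0,k0,k0,k0,k3,k0]]
    [.contra [z1],.contra [y1,y1,z0,z1],.ref k4 k1 [(z2,[z1]),(z2,[y1,y2,z0,z2])],.contra [z1,z1,z1,y1],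
    .ref k5 k1 [(z1,[y3,y6,y2,z6]),(z1,[z3,z3,z1,y3]),(z1,[z0,z1])],.contra [z1],.ref k5 k1 [(z1,[y1,y3,y1,z3]),(z1,
    [z1]),(z1,[z0,z1])]]),
    .old (.lp [k18,k30,k102,k40,k40,k8] [k42,k42,k36,k36,k0,k0,k31,k31,k31,k31,k47,k47] k0 [] k120 k6
    [[(k7,k29),(k4,k60)],[(k3,k24),(k5,k60)],[(k0,k24),(k2,k30)],[(k3,k30),(k5,k66)],[(k0,k60),(k2,k66)],[(k10,k55),
    (k1,k60)],[(k10,k24),(k1,k29)],[(k11,k24),(k9,k40)],[(k6,k40),(k8,k40)],[(k11,k24),(k9,k40)],[(k6,k24),(k8,k24)],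
    [(k7,k24),(k4,k55)]]
    [] k0
    [[k0,k2,k0,k0,k0,k0],[k0,k3,k0,k0,k0,k0],[k0,k0,k0,k1,k0,k1],[k0,k0,k0,k2,k0,k2],[k0,k0,k0,k1,k1,k1],[k0,k0,k0,k0,
    k2,k0]]
    [.contra [z1],.ref k6 k0 [(z1,[z0,z1]),(z1,[z1])],.contra [y1,y1,z1],.ref k4 k1 [(z2,[z1]),(z2,[y1,y2,z2])],
    .contra [y1,y1,z1],.contra [z1]]),
    .old (.lp [k2,k6,k4,k4,k4,k2] [k2,k2,k0,k0,k1,k1,k1,k1,k1,k1,k2,k2] k0 [] k12 k5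
    [[(k4,k3),(k7,k3)],[(k5,k3),(k3,k4)],[(k0,k4),(k2,k6)],[(k5,k5),(k3,k6)],[(k0,k3),(k2,k5)],[(k1,k3),(k10,k3)],
    [(k1,k3),(k10,k3)],[(k11,k3),(k9,k4)],[(k6,k4),(k8,k4)],[(k11,k3),(k9,k4)],[(k6,k3),(k8,k3)],[(k4,k3),(k7,k3)]]
    [] k0
    [[k1,k0,k1,k0,k0,k0],[k0,k0,k0,k1,k0,k1],[k0,k0,k0,k1,k1,k1],[k0,k0,k0,k0,k2,k0]]
    [.ref k7 k0 [(z1,[z1])],.ref k7 k1 [(z1,[z1])],.ref k0 k0 [(z1,[y1,z1])],.contra [z1]])]⟩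

/-- classes `0 0 1 2 2 1`, types `C0 C0 B0 C0 C2 B1` -/
noncomputable def cU6_1576 : CertX :=
  ⟨[k4,k4,k24,k36,k38,k25],[(false,k0,[k0,k1,k2,k3,k4,k5])],[[[([z1,z1,z1,z0,z0,z0],z2)],[]]],
    [.old (.leafM k0 [k2,k3,k4,k5,k0,k1] [(z1,[y1,z1])] []),
    .old (.lp [k6,k10,k24,k6,k6,k6] [k9,k9,k7,k7,k0,k0,k9,k9,k9,k9,k9,k9] k0 [] k30 k6
    [[(k7,k6),(k4,k15)],[(k3,k8),(k5,k15)],[(k0,k8),(k2,k10)],[(k3,k10),(k5,k17)],[(k0,k15),(k2,k17)],[(k1,k15),(k10,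
    k15)],[(k1,k6),(k10,k6)],[(k8,k6),(k9,k6)],[(k6,k6),(k11,k6)],[(k6,k6),(k11,k6)],[(k8,k6),(k9,k6)],[(k7,k6),(k4,
    k15)]]
    [] k0
    [[k0,k2,k0,k0,k0,k0],[k0,k0,k0,k1,k1,k1]]
    [.contra [z1],.ref k0 k0 [(z1,[y1,z1])]])]⟩

/-- classes `0 0 1 2 2 1`, types `C0 C0 B0 N0 N1 B1` -/
noncomputable def cU6_1577 : CertX :=
  ⟨[k4,k4,k24,k44,k45,k25],[(false,k0,[k0,k1,k2,k3,k4,k5])],[[[([z3,z0,z3,z0,z0,z0],z2),([z0,z3,z0,z0,z0,z0],z2),([z0,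
    z0,z0,z1,z0,z1],z2)],[([z1,z0,z1,z0,z0,z0],z1),([z0,z3,z0,z0,z0,z0],z1),([z0,z0,z0,z1,z0,z1],z2)],[([z3,z3,z3,z0,
    z0,z0],z4),([z0,z0,z0,z1,z0,z1],z2)],[([z1,z0,z1,z0,z0,z0],z1),([z0,z2,z0,z0,z0,z0],z1),([z0,z0,z0,z1,z0,z1],z2)],
    [([z1,z0,z1,z0,z0,z0],z1),([z0,z3,z0,z0,z0,z0],z2),([z0,z0,z0,z1,z0,z1],z2)],[([z1,z0,z1,z0,z0,z0],z1),([z0,z1,z0,
    z0,z1,z0],z1)],[([z1,z1,z1,z0,z1,z0],z2)],[([z1,z0,z1,z0,z0,z0],z2),([z0,z3,z0,z0,z0,z0],z1),([z0,z0,z0,z1,z0,z1],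
    z1)],[([z1,z0,z1,z0,z0,z0],z2),([z0,z2,z0,z0,z0,z0],z1),([z0,z0,z0,z1,z0,z1],z1)],[([z1,z0,z1,z0,z0,z0],z2),([z0,
    z3,z0,z0,z0,z0],z2),([z0,z0,z0,z1,z0,z1],z1)],[([z1,z0,z1,z0,z0,z0],z2),([z0,z1,z0,z0,z1,z0],z1)],[([z1,z0,z1,z0,
    z0,z0],z2),([z0,z3,z0,z0,z0,z0],z2),([z0,z0,z0,z3,z0,z3],z2)]],[[([z1,z0,z1,z0,z0,z0],z2),([z0,z3,z0,z0,z0,z0],
    z2)],[([z1,z0,z1,z0,z0,z0],z2)],[]]],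
    [.old (.leafM k10 [k0,k1,k2,k4] [(z1,[z0,z1]),(z1,[y1,y1,y3,z3]),(z1,[z1])] [(k3,k5,z1,[z0,z0,z1]),(k5,k3,z1,[z0,z0,
    z1])]),
    .old (.leafM k11 [k2,k4,k0,k1] [(z1,[y3,y1,y3,z3]),(z1,[z0,z1]),(z1,[z1])] [(k3,k5,z1,[z0,z0,z1]),(k5,k3,z1,[z0,z0,
    z1])]),
    .old (.lp [k18,k30,k30,k102,k40,k18] [k42,k42,k36,k36,k36,k36,k0,k0,k31,k31,k42,k42] k0 [] k120 k6
    [[(k4,k24),(k7,k60)],[(k3,k24),(k5,k24)],[(k0,k24),(k2,k30)],[(k3,k30),(k5,k30)],[(k0,k24),(k2,k30)],[(k1,k24),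
    (k10,k24)],[(k1,k60),(k10,k60)],[(k11,k60)],[(k8,k40)],[(k9,k40)],[(k6,k60)],[(k4,k24),(k7,k60)]]
    [] k0
    [[k1,k0,k1,k0,k0,k0],[k2,k0,k2,k0,k0,k0],[k1,k1,k1,k0,k0,k0],[k1,k2,k1,k0,k0,k0],[k0,k2,k0,k0,k0,k0],[k0,k3,k0,k0,
    k0,k0],[k0,k0,k0,k0,k2,k0]]
    [.contra [y2,z1],.ref k1 k0 [(z2,[z1]),(z2,[y3,z2]),(z1,[z0,z0,z1])],.contra [z1,y1,y2,z2],.ref k0 k0 [(z1,[y3,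
    z2]),(z1,[z3,y1]),(z1,[z0,z0,z1])],.contra [z1],.ref k0 k0 [(z1,[y1,z1]),(z1,[z1]),(z1,[z0,z0,z1])],.contra [z1]]),
    .old (.leafM k12 [k0,k1,k2,k4] [(z1,[z0,z1]),(z1,[y2,y1,y2,z2]),(z1,[z1])] [(k3,k5,z1,[z0,z0,z1]),(k5,k3,z1,[z0,z0,
    z1])]),
    .old (.leafM k11 [k0,k1,k2,k4] [(z1,[z0,z1]),(z1,[y3,y1,y3,z3]),(z1,[z1])] [(k3,k5,z1,[z0,z0,z1]),(k5,k3,z1,[z0,z0,
    z1])]),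
    .old (.lp [k6,k10,k14,k38,k8,k2] [k16,k16,k14,k14,k12,k12,k0,k0,k15,k15,k18,k18] k0 [] k40 k6
    [[(k4,k10),(k7,k22)],[(k3,k8),(k5,k10)],[(k0,k8),(k2,k10)],[(k3,k10),(k5,k12)],[(k0,k10),(k2,k12)],[(k10,k8),(k1,
    k10)],[(k10,k20),(k1,k22)],[(k11,k20)],[(k8,k8)],[(k9,k8)],[(k6,k20)],[(k4,k8),(k7,k20)]]
    [] k0
    [[k1,k0,k1,k0,k0,k0],[k1,k1,k1,k0,k0,k0],[k0,k2,k0,k0,k0,k0],[k0,k3,k0,k0,k0,k0],[k0,k0,k0,k0,k2,k0],[k0,k0,k0,k0,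
    k3,k0],[k0,k0,k0,k0,k4,k0]]
    [.contra [y1,z2],.contra [z1,y1],.contra [z1],.ref k4 k0 [(z1,[z0,z1]),(z1,[z1]),(z1,[z0,y1,y1,z1])],.contra [z1],
    .ref k2 k0 [(z1,[y1,z3,z3]),(z1,[z0,y1,y1,z1])],.ref k3 k0 [(z1,[z0,z1]),(z2,[y1,z0,z4]),(z1,[z0,y1,y1,z1])]]),
    .old (.lp [k8,k40,k40,k112,k30,k8] [k52,k52,k36,k36,k36,k36,k0,k0,k41,k41,k52,k52] k0 [] k120 k6
    [[(k4,k24),(k7,k60)],[(k3,k24),(k5,k24)],[(k0,k24),(k2,k40)],[(k3,k40),(k5,k40)],[(k0,k24),(k2,k40)],[(k1,k24),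
    (k10,k24)],[(k1,k60),(k10,k60)],[(k11,k60)],[(k8,k30)],[(k9,k30)],[(k6,k60)],[(k4,k24),(k7,k60)]]
    [] k0
    [[k1,k0,k1,k0,k0,k0],[k2,k0,k2,k0,k0,k0],[k1,k1,k1,k0,k0,k0],[k0,k2,k0,k0,k0,k0],[k0,k0,k0,k0,k2,k0],[k0,k0,k0,k0,
    k3,k0]]
    [.contra [y1,z1],.ref k5 k0 [(z2,[z1]),(z2,[y1,z2])],.contra [y1,z1],.contra [z1],.contra [z1],.ref k2 k0 [(z1,
    [y1,z3]),(z1,[z0,y1,z1])]]),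
    .old (.leafM k11 [k3,k4,k5,k1] [(z1,[y3,y1,y3,z3]),(z1,[z0,z1]),(z1,[z0,z0,z1])] [(k0,k2,z1,[z1]),(k2,k0,z1,[z1])]),
    .old (.leafM k12 [k3,k4,k5,k1] [(z1,[y2,y1,y2,z2]),(z1,[z0,z1]),(z1,[z0,z0,z1])] [(k0,k2,z1,[z1]),(k2,k0,z1,[z1])]),
    .old (.leafM k11 [k5,k1,k3,k4] [(z1,[z0,z1]),(z1,[y3,y1,y3,z3]),(z1,[z0,z0,z1])] [(k0,k2,z1,[z1]),(k2,k0,z1,[z1])]),
    .old (.lp [k6,k10,k34,k20,k8,k0] [k14,k14,k12,k12,k0,k0,k7,k7,k13,k13,k17,k17] k0 [] k40 k6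
    [[(k7,k13),(k4,k20)],[(k3,k8),(k5,k20)],[(k0,k8),(k2,k10)],[(k3,k10),(k5,k22)],[(k0,k20),(k2,k22)],[(k10,k17),(k1,
    k20)],[(k10,k10),(k1,k13)],[(k11,k10)],[(k8,k8)],[(k9,k8)],[(k6,k10)],[(k7,k10),(k4,k17)]]
    [] k0
    [[k0,k2,k0,k0,k0,k0],[k0,k3,k0,k0,k0,k0],[k0,k0,k0,k1,k0,k1],[k0,k0,k0,k0,k2,k0],[k0,k0,k0,k0,k3,k0],[k0,k0,k0,k0,
    k4,k0]]
    [.contra [z1],.ref k9 k0 [(z1,[z0,z1]),(z1,[z1]),(z1,[z0,y1,y1,z1])],.contra [y2,y1,y2,z2],.contra [z1],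
    .ref k7 k0 [(z1,[z0,z1]),(z1,[y1,z0,z3]),(z1,[z0,y1,y1,z1])],.ref k8 k0 [(z1,[z0,z1]),(z2,[y1,z0,z4]),(z1,[z0,y1,
    y1,z1])]]),
    .old (.leafM k10 [k3,k4,k5,k1] [(z1,[y3,y1,y1,z3]),(z1,[z0,z1]),(z1,[z0,z0,z1])] [(k0,k2,z1,[z1]),(k2,k0,z1,[z1])]),
    .old (.lp [k10,k40,k110,k48,k30,k0] [k50,k50,k35,k35,k0,k0,k31,k31,k40,k40,k55,k55] k0 [] k120 k6
    [[(k7,k29),(k4,k60)],[(k3,k25),(k5,k60)],[(k0,k25),(k2,k40)],[(k3,k40),(k5,k75)],[(k0,k60),(k2,k75)],[(k10,k55),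
    (k1,k60)],[(k10,k24),(k1,k29)],[(k11,k24)],[(k8,k30)],[(k9,k30)],[(k6,k24)],[(k7,k24),(k4,k55)]]
    [] k0
    [[k0,k2,k0,k0,k0,k0],[k0,k0,k0,k1,k0,k1],[k0,k0,k0,k2,k0,k2],[k0,k0,k0,k0,k2,k0],[k0,k0,k0,k0,k3,k0]]
    [.contra [z1],.contra [y1,y1,z0,z1],.ref k10 k0 [(z1,[z0,z1]),(z2,[y1,y2,z0,z2])],.contra [z1],.ref k11 k0 [(z1,
    [z0,z1]),(z1,[z0,z0,z1]),(z1,[y1,y3,y1,z3])]]),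
    .old (.lp [k18,k30,k102,k48,k40,k0] [k42,k42,k36,k36,k0,k0,k27,k27,k31,k31,k51,k51] k0 [] k120 k6
    [[(k7,k33),(k4,k60)],[(k3,k24),(k5,k60)],[(k0,k24),(k2,k30)],[(k3,k30),(k5,k66)],[(k0,k60),(k2,k66)],[(k10,k51),
    (k1,k60)],[(k10,k24),(k1,k33)],[(k11,k24)],[(k8,k40)],[(k9,k40)],[(k6,k24)],[(k7,k24),(k4,k51)]]
    [] k0
    [[k0,k2,k0,k0,k0,k0],[k0,k3,k0,k0,k0,k0],[k0,k0,k0,k1,k0,k1],[k0,k0,k0,k2,k0,k2],[k0,k0,k0,k0,k2,k0]]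
    [.contra [z1],.ref k12 k0 [(z1,[z0,z1]),(z1,[z1])],.contra [y1,y1,z1],.ref k10 k0 [(z1,[z0,z1]),(z2,[y1,y2,z2])],
    .contra [z1]]),
    .old (.lp [k0,k6,k6,k6,k4,k0] [k3,k3,k0,k0,k0,k0,k0,k0,k1,k1,k3,k3] k0 [] k12 k5
    [[(k4,k3),(k7,k3)],[(k3,k3),(k5,k3)],[(k0,k3),(k2,k6)],[(k3,k6),(k5,k6)],[(k0,k3),(k2,k6)],[(k1,k3),(k10,k3)],
    [(k1,k3),(k10,k3)],[(k11,k3)],[(k8,k4)],[(k9,k4)],[(k6,k3)],[(k4,k3),(k7,k3)]]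
    [] k0
    [[k1,k0,k1,k0,k0,k0],[k0,k0,k0,k1,k0,k1],[k0,k0,k0,k0,k2,k0]]
    [.ref k13 k0 [(z1,[z1])],.ref k6 k0 [(z1,[y1,z1])],.contra [z1]])]⟩

/-- classes `0 0 1 2 2 1`, types `C0 C0 B0 N0 N2 B1` -/
noncomputable def cU6_1578 : CertX :=
  ⟨[k4,k4,k24,k44,k46,k25],[(false,k0,[k0,k1,k2,k3,k4,k5])],[[[([z1,z1,z1,z0,z0,z0],z2)],[]]],
    [.old (.leafM k4 [k3,k4,k5,k0,k1,k2] [(z1,[z1])] []),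
    .old (.lp [k6,k10,k24,k6,k6,k6] [k9,k9,k7,k7,k0,k0,k9,k9,k9,k9,k9,k9] k0 [] k30 k6
    [[(k7,k6),(k4,k15)],[(k3,k8),(k5,k15)],[(k0,k8),(k2,k10)],[(k3,k10),(k5,k17)],[(k0,k15),(k2,k17)],[(k1,k15),(k10,
    k15)],[(k1,k6),(k10,k6)],[(k8,k6)],[(k11,k6)],[(k6,k6)],[(k9,k6)],[(k7,k6),(k4,k15)]]
    [] k0
    [[k0,k2,k0,k0,k0,k0],[k0,k0,k0,k1,k1,k1]]
    [.contra [z1],.ref k0 k0 [(z1,[y1,z1])]])]⟩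

/-- classes `0 0 1 2 2 1`, types `C0 C0 B0 S0 S0 B1` -/
noncomputable def cU6_1579 : CertX :=
  ⟨[k4,k4,k24,k32,k32,k25],[(false,k0,[k0,k1,k2,k3,k4,k5])],[[[([z1,z1,z1,z0,z0,z0],z2)],[([z3,z0,z3,z0,z0,z0],z2),
    ([z0,z3,z0,z0,z0,z0],z2),([z0,z0,z0,z1,z0,z1],z2)],[([z1,z0,z1,z0,z0,z0],z1),([z0,z3,z0,z0,z0,z0],z1),([z0,z0,z0,
    z1,z0,z1],z2)],[([z3,z3,z3,z0,z0,z0],z4),([z0,z0,z0,z1,z0,z1],z2)],[([z1,z0,z1,z0,z0,z0],z1),([z0,z2,z0,z0,z0,z0],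
    z1),([z0,z0,z0,z1,z0,z1],z2)],[([z1,z0,z1,z0,z0,z0],z1),([z0,z3,z0,z0,z0,z0],z2),([z0,z0,z0,z1,z0,z1],z2)],[([z1,
    z0,z1,z0,z0,z0],z1),([z0,z1,z0,z0,z1,z0],z1)],[([z1,z1,z1,z0,z1,z0],z2)],[([z1,z0,z1,z0,z0,z0],z2),([z0,z3,z0,z0,
    z0,z0],z1),([z0,z0,z0,z1,z0,z1],z1)],[([z1,z0,z1,z0,z0,z0],z2),([z0,z3,z0,z0,z0,z0],z2),([z0,z0,z0,z1,z0,z1],z1)],
    [([z1,z0,z1,z0,z0,z0],z2),([z0,z2,z0,z0,z0,z0],z1),([z0,z0,z0,z1,z0,z1],z1)],[([z1,z0,z1,z0,z0,z0],z2),([z0,z1,z0,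
    z0,z1,z0],z1)]],[[([z1,z0,z1,z0,z0,z0],z2),([z0,z3,z0,z0,z0,z0],z2),([z0,z0,z0,z3,z0,z3],z2)],[([z1,z0,z1,z0,z0,
    z0],z2),([z0,z3,z0,z0,z0,z0],z2)],[([z1,z0,z1,z0,z0,z0],z2)],[]]],
    [.old (.leafM k0 [k2,k3,k4,k5,k0,k1] [(z1,[y1,z1])] []),
    .old (.leafM k10 [k0,k1,k2,k4] [(z1,[z0,z1]),(z1,[y1,y1,y3,z3]),(z1,[z1])] [(k3,k5,z1,[z0,z0,z1]),(k5,k3,z1,[z0,z0,
    z1])]),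
    .old (.leafM k11 [k2,k4,k0,k1] [(z1,[y3,y1,y3,z3]),(z1,[z0,z1]),(z1,[z1])] [(k3,k5,z1,[z0,z0,z1]),(k5,k3,z1,[z0,z0,
    z1])]),
    .old (.lp [k30,k30,k18,k24,k40,k96] [k33,k33,k33,k33,k39,k39,k36,k36,k28,k28,k0,k0] k0 [] k120 k6
    [[(k4,k24),(k7,k27)],[(k5,k24),(k3,k30)],[(k0,k30),(k2,k30)],[(k5,k24),(k3,k30)],[(k0,k24),(k2,k24)],[(k1,k24),
    (k10,k57)],[(k1,k27),(k10,k60)],[(k6,k24),(k8,k32),(k9,k32),(k11,k60)],[(k6,k32),(k8,k40),(k9,k40),(k11,k68)],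
    [(k6,k32),(k8,k40),(k9,k40),(k11,k68)],[(k6,k60),(k8,k68),(k9,k68),(k11,k96)],[(k4,k57),(k7,k60)]]
    [] k0
    [[k1,k0,k1,k0,k0,k0],[k2,k0,k2,k0,k0,k0],[k1,k1,k1,k0,k0,k0],[k1,k2,k1,k0,k0,k0],[k0,k2,k0,k0,k0,k0],[k0,k3,k0,k0,
    k0,k0],[k0,k0,k0,k0,k2,k0]]
    [.contra [y2,z1],.ref k2 k0 [(z2,[z1]),(z2,[y3,z2]),(z1,[z0,z0,z1])],.contra [z1,y1,y2,z2],.ref k1 k0 [(z1,[y3,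
    z2]),(z1,[z3,y1]),(z1,[z0,z0,z1])],.contra [z1],.ref k1 k0 [(z1,[y1,z1]),(z1,[z1]),(z1,[z0,z0,z1])],.contra [z1]]),
    .old (.leafM k12 [k0,k1,k2,k4] [(z1,[z0,z1]),(z1,[y2,y1,y2,z2]),(z1,[z1])] [(k3,k5,z1,[z0,z0,z1]),(k5,k3,z1,[z0,z0,
    z1])]),
    .old (.leafM k11 [k0,k1,k2,k4] [(z1,[z0,z1]),(z1,[y3,y1,y3,z3]),(z1,[z1])] [(k3,k5,z1,[z0,z0,z1]),(k5,k3,z1,[z0,z0,
    z1])]),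
    .old (.lp [k14,k10,k6,k8,k8,k32] [k9,k9,k11,k11,k13,k13,k12,k12,k12,k12,k0,k0] k0 [] k40 k6
    [[(k4,k10),(k7,k11)],[(k5,k10),(k3,k12)],[(k2,k10),(k0,k12)],[(k5,k8),(k3,k10)],[(k2,k8),(k0,k10)],[(k1,k10),(k10,
    k19)],[(k1,k11),(k10,k20)],[(k6,k8),(k8,k8),(k9,k8),(k11,k20)],[(k6,k8),(k8,k8),(k9,k8),(k11,k20)],[(k6,k8),(k8,
    k8),(k9,k8),(k11,k20)],[(k6,k20),(k8,k20),(k9,k20),(k11,k32)],[(k4,k19),(k7,k20)]]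
    [] k0
    [[k1,k0,k1,k0,k0,k0],[k1,k1,k1,k0,k0,k0],[k0,k2,k0,k0,k0,k0],[k0,k3,k0,k0,k0,k0],[k0,k0,k0,k0,k2,k0],[k0,k0,k0,k0,
    k3,k0],[k0,k0,k0,k0,k4,k0]]
    [.contra [y1,z2],.contra [z1,y1],.contra [z1],.ref k5 k0 [(z1,[z0,z1]),(z1,[z1]),(z1,[z0,y1,y1,z1])],.contra [z1],
    .ref k3 k0 [(z1,[y1,z3,z3]),(z1,[z0,y1,y1,z1])],.ref k4 k0 [(z1,[z0,z1]),(z2,[y1,z0,z4]),(z1,[z0,y1,y1,z1])]]),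
    .old (.lp [k40,k40,k8,k24,k30,k96] [k28,k28,k28,k28,k44,k44,k36,k36,k33,k33,k0,k0] k0 [] k120 k6
    [[(k4,k24),(k7,k32)],[(k5,k24),(k3,k40)],[(k0,k40),(k2,k40)],[(k5,k24),(k3,k40)],[(k0,k24),(k2,k24)],[(k1,k24),
    (k10,k52)],[(k1,k32),(k10,k60)],[(k6,k24),(k8,k27),(k9,k27),(k11,k60)],[(k6,k27),(k8,k30),(k9,k30),(k11,k63)],
    [(k6,k27),(k8,k30),(k9,k30),(k11,k63)],[(k6,k60),(k8,k63),(k9,k63),(k11,k96)],[(k4,k52),(k7,k60)]]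
    [] k0
    [[k1,k0,k1,k0,k0,k0],[k2,k0,k2,k0,k0,k0],[k1,k1,k1,k0,k0,k0],[k0,k2,k0,k0,k0,k0],[k0,k0,k0,k0,k2,k0],[k0,k0,k0,k0,
    k3,k0]]
    [.contra [y1,z1],.ref k6 k0 [(z2,[z1]),(z2,[y1,z2])],.contra [y1,z1],.contra [z1],.contra [z1],.ref k3 k0 [(z1,
    [y1,z3]),(z1,[z0,y1,z1])]]),
    .old (.leafM k11 [k3,k4,k5,k1] [(z1,[y3,y1,y3,z3]),(z1,[z0,z1]),(z1,[z0,z0,z1])] [(k0,k2,z1,[z1]),(k2,k0,z1,[z1])]),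
    .old (.leafM k8 [k5,k1,k3,k4] [(z1,[z0,z1]),(z1,[y3,y1,y3,z3]),(z1,[z0,z0,z1])] [(k0,k2,z1,[z1]),(k2,k0,z1,[z1])]),
    .old (.leafM k9 [k5,k1,k3,k4] [(z1,[z0,z1]),(z1,[y2,y1,y2,z2]),(z1,[z0,z0,z1])] [(k0,k2,z1,[z1]),(k2,k0,z1,[z1])]),
    .old (.lp [k32,k8,k8,k8,k10,k12] [k0,k0,k12,k12,k12,k12,k12,k12,k11,k11,k10,k10] k0 [] k40 k6
    [[(k4,k20),(k7,k20)],[(k3,k20),(k5,k20)],[(k2,k8),(k0,k20)],[(k3,k8),(k5,k8)],[(k2,k8),(k0,k20)],[(k10,k10),(k1,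
    k20)],[(k10,k10),(k1,k20)],[(k6,k8),(k8,k9),(k9,k9),(k11,k10)],[(k6,k9),(k8,k10),(k9,k10),(k11,k11)],[(k6,k9),(k8,
    k10),(k9,k10),(k11,k11)],[(k6,k10),(k8,k11),(k9,k11),(k11,k12)],[(k4,k10),(k7,k10)]]
    [] k0
    [[k0,k2,k0,k0,k0,k0],[k0,k3,k0,k0,k0,k0],[k0,k4,k0,k0,k0,k0],[k0,k0,k0,k1,k0,k1],[k0,k0,k0,k1,k1,k1],[k0,k0,k0,k0,
    k2,k0],[k0,k0,k0,k0,k3,k0]]
    [.contra [z1],.ref k9 k0 [(z1,[z0,z1]),(z1,[z1]),(z1,[z0,y1,y1,z1])],.ref k10 k0 [(z1,[z0,z1]),(z2,[z1]),(z1,[z0,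
    y1,y1,z1])],.contra [y2,y1,y2,z2],.contra [z1,z1,z1,y1],.contra [z1],.ref k8 k0 [(z1,[z0,z1]),(z1,[y1,z0,z3]),(z1,
    [z0,y1,y1,z1])]]),
    .old (.leafM k10 [k3,k4,k5,k1] [(z1,[y3,y1,y1,z3]),(z1,[z0,z1]),(z1,[z0,z0,z1])] [(k0,k2,z1,[z1]),(k2,k0,z1,[z1])]),
    .old (.lp [k96,k40,k24,k24,k30,k24] [k0,k0,k28,k28,k36,k36,k36,k36,k33,k33,k36,k36] k0 [] k120 k6
    [[(k4,k60),(k7,k60)],[(k5,k60),(k3,k68)],[(k2,k40),(k0,k68)],[(k5,k32),(k3,k40)],[(k2,k32),(k0,k60)],[(k10,k24),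
    (k1,k60)],[(k10,k24),(k1,k60)],[(k6,k24),(k11,k24),(k8,k27),(k9,k27)],[(k6,k27),(k11,k27),(k8,k30),(k9,k30)],[(k6,
    k27),(k11,k27),(k8,k30),(k9,k30)],[(k6,k24),(k11,k24),(k8,k27),(k9,k27)],[(k4,k24),(k7,k24)]]
    [] k0
    [[k0,k2,k0,k0,k0,k0],[k0,k0,k0,k1,k0,k1],[k0,k0,k0,k2,k0,k2],[k0,k0,k0,k1,k1,k1],[k0,k0,k0,k1,k2,k1],[k0,k0,k0,k0,
    k2,k0],[k0,k0,k0,k0,k3,k0]]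
    [.contra [z1],.contra [y1,y1,z0,z1],.ref k11 k0 [(z1,[z0,z1]),(z2,[y1,y2,z0,z2])],.contra [z1,z1,z1,y1],
    .ref k12 k0 [(z1,[z0,z1]),(z1,[z0,z0,z1]),(z1,[y3,y6,y2,z6])],.contra [z1],.ref k12 k0 [(z1,[z0,z1]),(z1,[z0,z0,
    z1]),(z1,[y1,y3,y1,z3])]]),
    .old (.lp [k96,k30,k24,k24,k40,k24] [k0,k0,k33,k33,k36,k36,k36,k36,k28,k28,k36,k36] k0 [] k120 k6
    [[(k4,k60),(k7,k60)],[(k5,k60),(k3,k63)],[(k2,k30),(k0,k63)],[(k5,k27),(k3,k30)],[(k2,k27),(k0,k60)],[(k10,k24),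
    (k1,k60)],[(k10,k24),(k1,k60)],[(k6,k24),(k11,k24),(k8,k32),(k9,k32)],[(k6,k32),(k11,k32),(k8,k40),(k9,k40)],[(k6,
    k32),(k11,k32),(k8,k40),(k9,k40)],[(k6,k24),(k11,k24),(k8,k32),(k9,k32)],[(k4,k24),(k7,k24)]]
    [] k0
    [[k0,k2,k0,k0,k0,k0],[k0,k3,k0,k0,k0,k0],[k0,k0,k0,k1,k0,k1],[k0,k0,k0,k2,k0,k2],[k0,k0,k0,k1,k1,k1],[k0,k0,k0,k0,
    k2,k0]]
    [.contra [z1],.ref k13 k0 [(z1,[z0,z1]),(z1,[z1])],.contra [y1,y1,z1],.ref k11 k0 [(z1,[z0,z1]),(z2,[y1,y2,z2])],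
    .contra [y1,y1,z1],.contra [z1]]),
    .old (.lp [k6,k12,k6,k6,k8,k6] [k3,k3,k0,k0,k3,k3,k3,k3,k2,k2,k3,k3] k0 [] k24 k5
    [[(k4,k6),(k7,k6)],[(k5,k6),(k3,k9)],[(k0,k9),(k2,k12)],[(k5,k9),(k3,k12)],[(k0,k6),(k2,k9)],[(k1,k6),(k10,k6)],
    [(k1,k6),(k10,k6)],[(k6,k6),(k11,k6),(k8,k7),(k9,k7)],[(k6,k7),(k11,k7),(k8,k8),(k9,k8)],[(k6,k7),(k11,k7),(k8,
    k8),(k9,k8)],[(k6,k6),(k11,k6),(k8,k7),(k9,k7)],[(k4,k6),(k7,k6)]]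
    [] k0
    [[k1,k0,k1,k0,k0,k0],[k0,k0,k0,k1,k0,k1],[k0,k0,k0,k1,k1,k1],[k0,k0,k0,k0,k2,k0]]
    [.ref k14 k0 [(z1,[z1])],.ref k7 k0 [(z1,[y1,z1])],.ref k0 k0 [(z1,[y1,z1])],.contra [z1]])]⟩

/-- classes `0 0 1 2 2 1`, types `C0 C0 C0 C0 C0 C0` -/
noncomputable def cU6_1580 : CertX :=
  ⟨[k4,k4,k20,k36,k36,k20],[(false,k0,[k0,k1,k2,k3,k4,k5]),(false,k3,[k3,k4,k5,k0,k1,k2])],[[[([z1,z1,z1,z0,z0,z0],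
    z2)],[([z1,z0,z1,z0,z0,z0],z1),([z0,z3,z0,z0,z0,z0],z1),([z0,z0,z0,z1,z0,z1],z2)],[([z1,z0,z1,z0,z0,z0],z1),([z0,
    z2,z0,z0,z0,z0],z1),([z0,z0,z0,z1,z0,z1],z2)],[([z1,z0,z1,z0,z0,z0],z1),([z0,z3,z0,z0,z0,z0],z2),([z0,z0,z0,z1,z0,
    z1],z2)],[([z1,z0,z1,z0,z0,z0],z1),([z0,z1,z0,z0,z1,z0],z1)],[([z3,z0,z3,z0,z0,z0],z2),([z0,z3,z0,z0,z0,z0],z2),
    ([z0,z0,z0,z1,z0,z1],z2)],[([z1,z0,z1,z0,z0,z0],z2),([z0,z3,z0,z0,z0,z0],z2)],[([z1,z0,z1,z0,z0,z0],z2)],[]]],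
    [.old (.leafM k0 [k2,k3,k4,k5,k0,k1] [(z1,[y1,z1])] []),
    .old (.leafM k11 [k2,k4,k0,k1] [(z1,[y3,y1,y3,z3]),(z1,[z0,z1]),(z1,[z1])] [(k3,k5,z1,[z0,z0,z1]),(k5,k3,z1,[z0,z0,
    z1])]),
    .old (.leafM k12 [k0,k1,k2,k4] [(z1,[z0,z1]),(z1,[y2,y1,y2,z2]),(z1,[z1])] [(k3,k5,z1,[z0,z0,z1]),(k5,k3,z1,[z0,z0,
    z1])]),
    .old (.leafM k11 [k0,k1,k2,k4] [(z1,[z0,z1]),(z1,[y3,y1,y3,z3]),(z1,[z1])] [(k3,k5,z1,[z0,z0,z1]),(k5,k3,z1,[z0,z0,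
    z1])]),
    .old (.lp [k14,k10,k6,k32,k8,k8] [k9,k9,k11,k11,k13,k13,k0,k0,k12,k12,k12,k12] k0 [] k40 k6
    [[(k4,k10),(k10,k11)],[(k5,k10),(k3,k12)],[(k2,k10),(k0,k12)],[(k5,k8),(k3,k10)],[(k2,k8),(k0,k10)],[(k1,k10),(k7,
    k19)],[(k4,k19),(k10,k20)],[(k9,k20),(k11,k20)],[(k8,k8),(k6,k20)],[(k9,k8),(k11,k8)],[(k8,k8),(k6,k20)],[(k1,
    k11),(k7,k20)]]
    [] k0
    [[k1,k0,k1,k0,k0,k0],[k1,k1,k1,k0,k0,k0],[k0,k2,k0,k0,k0,k0],[k0,k3,k0,k0,k0,k0],[k0,k0,k0,k0,k2,k0],[k0,k0,k0,k0,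
    k3,k0],[k0,k0,k0,k0,k4,k0]]
    [.contra [y1,z2],.contra [z1,y1],.contra [z1],.ref k3 k0 [(z1,[z0,z1]),(z1,[z1]),(z1,[z0,y1,y1,z1])],.contra [z1],
    .ref k1 k0 [(z1,[z0,z1]),(z1,[y1,z0,z3]),(z1,[z0,y1,y1,z1])],.ref k2 k0 [(z1,[z0,z1]),(z2,[y1,z0,z4]),(z1,[z0,y1,
    y1,z1])]]),
    .old (.leafM k10 [k0,k1,k2,k4] [(z1,[z0,z1]),(z1,[y1,y1,y3,z3]),(z1,[z1])] [(k3,k5,z1,[z0,z0,z1]),(k5,k3,z1,[z0,z0,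
    z1])]),
    .old (.lp [k102,k40,k18,k30,k30,k18] [k0,k0,k31,k31,k42,k42,k36,k36,k36,k36,k42,k42] k0 [] k120 k6
    [[(k4,k60),(k10,k60)],[(k5,k60),(k3,k71)],[(k2,k40),(k0,k71)],[(k5,k29),(k3,k40)],[(k2,k29),(k0,k60)],[(k7,k24),
    (k1,k60)],[(k4,k24),(k10,k24)],[(k11,k24),(k9,k30)],[(k6,k30),(k8,k30)],[(k11,k24),(k9,k30)],[(k6,k24),(k8,k24)],
    [(k7,k24),(k1,k60)]]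
    [] k0
    [[k0,k2,k0,k0,k0,k0],[k0,k0,k0,k1,k0,k1],[k0,k0,k0,k2,k0,k2],[k0,k0,k0,k1,k1,k1],[k0,k0,k0,k1,k2,k1],[k0,k0,k0,k0,
    k2,k0],[k0,k0,k0,k0,k3,k0]]
    [.contra [z1],.contra [y1,y1,z0,z1],.ref k4 k1 [(z2,[z1]),(z2,[y1,y2,z0,z2])],.contra [z1,z1,z1,y1],
    .ref k5 k1 [(z1,[y3,y6,y2,z6]),(z1,[z3,z3,z1,y3]),(z1,[z0,z1])],.contra [z1],.ref k5 k1 [(z1,[y1,y3,y1,z3]),(z1,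
    [z1]),(z1,[z0,z1])]]),
    .old (.lp [k102,k30,k18,k40,k40,k8] [k0,k0,k36,k36,k42,k42,k31,k31,k31,k31,k47,k47] k0 [] k120 k6
    [[(k10,k55),(k4,k60)],[(k5,k60),(k3,k66)],[(k2,k30),(k0,k66)],[(k5,k24),(k3,k30)],[(k2,k24),(k0,k60)],[(k7,k29),
    (k1,k60)],[(k10,k24),(k4,k29)],[(k11,k24),(k9,k40)],[(k6,k40),(k8,k40)],[(k11,k24),(k9,k40)],[(k6,k24),(k8,k24)],
    [(k7,k24),(k1,k55)]]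
    [] k0
    [[k0,k2,k0,k0,k0,k0],[k0,k3,k0,k0,k0,k0],[k0,k0,k0,k1,k0,k1],[k0,k0,k0,k2,k0,k2],[k0,k0,k0,k1,k1,k1],[k0,k0,k0,k0,
    k2,k0]]
    [.contra [z1],.ref k6 k0 [(z1,[z0,z1]),(z1,[z1])],.contra [y1,y1,z1],.ref k4 k1 [(z2,[z1]),(z2,[y1,y2,z2])],
    .contra [y1,y1,z1],.contra [z1]]),
    .old (.lp [k4,k6,k2,k4,k4,k2] [k1,k1,k0,k0,k2,k2,k1,k1,k1,k1,k2,k2] k0 [] k12 k5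
    [[(k4,k3),(k10,k3)],[(k5,k3),(k3,k5)],[(k0,k5),(k2,k6)],[(k5,k4),(k3,k6)],[(k0,k3),(k2,k4)],[(k1,k3),(k7,k3)],
    [(k4,k3),(k10,k3)],[(k11,k3),(k9,k4)],[(k6,k4),(k8,k4)],[(k11,k3),(k9,k4)],[(k6,k3),(k8,k3)],[(k1,k3),(k7,k3)]]
    [] k0
    [[k1,k0,k1,k0,k0,k0],[k0,k0,k0,k1,k0,k1],[k0,k0,k0,k1,k1,k1],[k0,k0,k0,k0,k2,k0]]
    [.ref k7 k0 [(z1,[z1])],.ref k7 k1 [(z1,[z1])],.ref k0 k0 [(z1,[y1,z1])],.contra [z1]])]⟩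

/-- classes `0 0 1 2 2 1`, types `C0 C0 C0 C0 C0 C2` -/
noncomputable def cU6_1581 : CertX :=
  ⟨[k4,k4,k20,k36,k36,k22],[],[[[]]],
    [.old (.lp [k6,k8,k6,k6,k12,k6] [k3,k3,k2,k2,k3,k3,k3,k3,k0,k0,k3,k3] k0 [] k24 k5
    [[(k7,k6),(k10,k6)],[(k5,k6),(k3,k7)],[(k0,k7),(k2,k8)],[(k5,k7),(k3,k8)],[(k0,k6),(k2,k7)],[(k7,k6),(k10,k6)],
    [(k1,k6),(k4,k6)],[(k11,k6),(k9,k9)],[(k6,k9),(k8,k12)],[(k11,k9),(k9,k12)],[(k6,k6),(k8,k9)],[(k1,k6),(k4,k6)]]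
    [] k0
    [[k0,k2,k0,k0,k0,k0]]
    [.contra [z1]])]⟩

/-- classes `0 0 1 2 2 1`, types `C0 C0 C0 C0 C2 C0` -/
noncomputable def cU6_1582 : CertX :=
  ⟨[k4,k4,k20,k36,k38,k20],[(false,k0,[k0,k1,k2,k3,k4,k5])],[[[([z1,z1,z1,z0,z0,z0],z2)],[]]],
    [.old (.leafM k0 [k2,k3,k4,k5,k0,k1] [(z1,[y1,z1])] []),
    .old (.lp [k24,k10,k6,k6,k6,k6] [k0,k0,k7,k7,k9,k9,k9,k9,k9,k9,k9,k9] k0 [] k30 k6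
    [[(k4,k15),(k10,k15)],[(k5,k15),(k3,k17)],[(k2,k10),(k0,k17)],[(k5,k8),(k3,k10)],[(k2,k8),(k0,k15)],[(k7,k6),(k1,
    k15)],[(k4,k6),(k10,k6)],[(k8,k6),(k9,k6)],[(k6,k6),(k11,k6)],[(k6,k6),(k11,k6)],[(k8,k6),(k9,k6)],[(k7,k6),(k1,
    k15)]]
    [] k0
    [[k0,k2,k0,k0,k0,k0],[k0,k0,k0,k1,k1,k1]]
    [.contra [z1],.ref k0 k0 [(z1,[y1,z1])]])]⟩

/-- classes `0 0 1 2 2 1`, types `C0 C0 C0 C0 C2 C2` -/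
noncomputable def cU6_1583 : CertX :=
  ⟨[k4,k4,k20,k36,k38,k22],[],[[[]]],
    [.old (.lp [k2,k4,k2,k2,k2,k2] [k1,k1,k0,k0,k1,k1,k1,k1,k1,k1,k1,k1] k0 [] k8 k5
    [[(k7,k2),(k10,k2)],[(k5,k2),(k3,k3)],[(k0,k3),(k2,k4)],[(k5,k3),(k3,k4)],[(k0,k2),(k2,k3)],[(k7,k2),(k10,k2)],
    [(k1,k2),(k4,k2)],[(k8,k2),(k9,k2)],[(k6,k2),(k11,k2)],[(k6,k2),(k11,k2)],[(k8,k2),(k9,k2)],[(k1,k2),(k4,k2)]]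
    [] k0
    []
    [])]⟩

/-- classes `0 0 1 2 2 1`, types `C0 C0 C0 N0 N1 C0` -/
noncomputable def cU6_1584 : CertX :=
  ⟨[k4,k4,k20,k44,k45,k20],[(false,k0,[k0,k1,k2,k3,k4,k5])],[[[([z3,z0,z3,z0,z0,z0],z2),([z0,z3,z0,z0,z0,z0],z2),([z0,
    z0,z0,z1,z0,z1],z2)],[([z1,z0,z1,z0,z0,z0],z1),([z0,z3,z0,z0,z0,z0],z1),([z0,z0,z0,z1,z0,z1],z2)],[([z3,z3,z3,z0,
    z0,z0],z4),([z0,z0,z0,z1,z0,z1],z2)],[([z1,z0,z1,z0,z0,z0],z1),([z0,z2,z0,z0,z0,z0],z1),([z0,z0,z0,z1,z0,z1],z2)],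
    [([z1,z0,z1,z0,z0,z0],z1),([z0,z3,z0,z0,z0,z0],z2),([z0,z0,z0,z1,z0,z1],z2)],[([z1,z0,z1,z0,z0,z0],z1),([z0,z1,z0,
    z0,z1,z0],z1)],[([z1,z1,z1,z0,z1,z0],z2)],[([z1,z0,z1,z0,z0,z0],z2),([z0,z3,z0,z0,z0,z0],z1),([z0,z0,z0,z1,z0,z1],
    z1)],[([z1,z0,z1,z0,z0,z0],z2),([z0,z2,z0,z0,z0,z0],z1),([z0,z0,z0,z1,z0,z1],z1)],[([z1,z0,z1,z0,z0,z0],z2),([z0,
    z3,z0,z0,z0,z0],z2),([z0,z0,z0,z1,z0,z1],z1)],[([z1,z0,z1,z0,z0,z0],z2),([z0,z1,z0,z0,z1,z0],z1)],[([z1,z0,z1,z0,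
    z0,z0],z2),([z0,z3,z0,z0,z0,z0],z2),([z0,z0,z0,z3,z0,z3],z2)]],[[([z1,z0,z1,z0,z0,z0],z2),([z0,z3,z0,z0,z0,z0],
    z2)],[([z1,z0,z1,z0,z0,z0],z2)],[]]],
    [.old (.leafM k10 [k0,k1,k2,k4] [(z1,[z0,z1]),(z1,[y1,y1,y3,z3]),(z1,[z1])] [(k3,k5,z1,[z0,z0,z1]),(k5,k3,z1,[z0,z0,
    z1])]),
    .old (.leafM k11 [k2,k4,k0,k1] [(z1,[y3,y1,y3,z3]),(z1,[z0,z1]),(z1,[z1])] [(k3,k5,z1,[z0,z0,z1]),(k5,k3,z1,[z0,z0,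
    z1])]),
    .old (.lp [k30,k30,k18,k102,k40,k18] [k36,k36,k36,k36,k42,k42,k0,k0,k31,k31,k42,k42] k0 [] k120 k6
    [[(k4,k24),(k10,k24)],[(k5,k24),(k3,k30)],[(k0,k30),(k2,k30)],[(k5,k24),(k3,k30)],[(k0,k24),(k2,k24)],[(k1,k24),
    (k7,k60)],[(k4,k60),(k10,k60)],[(k11,k60)],[(k8,k40)],[(k9,k40)],[(k6,k60)],[(k1,k24),(k7,k60)]]
    [] k0
    [[k1,k0,k1,k0,k0,k0],[k2,k0,k2,k0,k0,k0],[k1,k1,k1,k0,k0,k0],[k1,k2,k1,k0,k0,k0],[k0,k2,k0,k0,k0,k0],[k0,k3,k0,k0,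
    k0,k0],[k0,k0,k0,k0,k2,k0]]
    [.contra [y2,z1],.ref k1 k0 [(z2,[z1]),(z2,[y3,z2]),(z1,[z0,z0,z1])],.contra [z1,y1,y2,z2],.ref k0 k0 [(z1,[y3,
    z2]),(z1,[z3,y1]),(z1,[z0,z0,z1])],.contra [z1],.ref k0 k0 [(z1,[y1,z1]),(z1,[z1]),(z1,[z0,z0,z1])],.contra [z1]]),
    .old (.leafM k12 [k0,k1,k2,k4] [(z1,[z0,z1]),(z1,[y2,y1,y2,z2]),(z1,[z1])] [(k3,k5,z1,[z0,z0,z1]),(k5,k3,z1,[z0,z0,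
    z1])]),
    .old (.leafM k11 [k0,k1,k2,k4] [(z1,[z0,z1]),(z1,[y3,y1,y3,z3]),(z1,[z1])] [(k3,k5,z1,[z0,z0,z1]),(k5,k3,z1,[z0,z0,
    z1])]),
    .old (.lp [k14,k10,k6,k38,k8,k2] [k12,k12,k14,k14,k16,k16,k0,k0,k15,k15,k18,k18] k0 [] k40 k6
    [[(k10,k8),(k4,k10)],[(k5,k10),(k3,k12)],[(k2,k10),(k0,k12)],[(k5,k8),(k3,k10)],[(k2,k8),(k0,k10)],[(k1,k10),(k7,
    k22)],[(k10,k20),(k4,k22)],[(k11,k20)],[(k8,k8)],[(k9,k8)],[(k6,k20)],[(k1,k8),(k7,k20)]]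
    [] k0
    [[k1,k0,k1,k0,k0,k0],[k1,k1,k1,k0,k0,k0],[k0,k2,k0,k0,k0,k0],[k0,k3,k0,k0,k0,k0],[k0,k0,k0,k0,k2,k0],[k0,k0,k0,k0,
    k3,k0],[k0,k0,k0,k0,k4,k0]]
    [.contra [y1,z2],.contra [z1,y1],.contra [z1],.ref k4 k0 [(z1,[z0,z1]),(z1,[z1]),(z1,[z0,y1,y1,z1])],.contra [z1],
    .ref k2 k0 [(z1,[y1,z3,z3]),(z1,[z0,y1,y1,z1])],.ref k3 k0 [(z1,[z0,z1]),(z2,[y1,z0,z4]),(z1,[z0,y1,y1,z1])]]),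
    .old (.lp [k40,k40,k8,k112,k30,k8] [k36,k36,k36,k36,k52,k52,k0,k0,k41,k41,k52,k52] k0 [] k120 k6
    [[(k4,k24),(k10,k24)],[(k5,k24),(k3,k40)],[(k0,k40),(k2,k40)],[(k5,k24),(k3,k40)],[(k0,k24),(k2,k24)],[(k1,k24),
    (k7,k60)],[(k4,k60),(k10,k60)],[(k11,k60)],[(k8,k30)],[(k9,k30)],[(k6,k60)],[(k1,k24),(k7,k60)]]
    [] k0
    [[k1,k0,k1,k0,k0,k0],[k2,k0,k2,k0,k0,k0],[k1,k1,k1,k0,k0,k0],[k0,k2,k0,k0,k0,k0],[k0,k0,k0,k0,k2,k0],[k0,k0,k0,k0,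
    k3,k0]]
    [.contra [y1,z1],.ref k5 k0 [(z2,[z1]),(z2,[y1,z2])],.contra [y1,z1],.contra [z1],.contra [z1],.ref k2 k0 [(z1,
    [y1,z3]),(z1,[z0,y1,z1])]]),
    .old (.leafM k11 [k3,k4,k5,k1] [(z1,[y3,y1,y3,z3]),(z1,[z0,z1]),(z1,[z0,z0,z1])] [(k0,k2,z1,[z1]),(k2,k0,z1,[z1])]),
    .old (.leafM k12 [k3,k4,k5,k1] [(z1,[y2,y1,y2,z2]),(z1,[z0,z1]),(z1,[z0,z0,z1])] [(k0,k2,z1,[z1]),(k2,k0,z1,[z1])]),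
    .old (.leafM k11 [k5,k1,k3,k4] [(z1,[z0,z1]),(z1,[y3,y1,y3,z3]),(z1,[z0,z0,z1])] [(k0,k2,z1,[z1]),(k2,k0,z1,[z1])]),
    .old (.lp [k34,k10,k6,k20,k8,k0] [k0,k0,k12,k12,k14,k14,k7,k7,k13,k13,k17,k17] k0 [] k40 k6
    [[(k10,k17),(k4,k20)],[(k5,k20),(k3,k22)],[(k2,k10),(k0,k22)],[(k5,k8),(k3,k10)],[(k2,k8),(k0,k20)],[(k7,k13),(k1,
    k20)],[(k10,k10),(k4,k13)],[(k11,k10)],[(k8,k8)],[(k9,k8)],[(k6,k10)],[(k7,k10),(k1,k17)]]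
    [] k0
    [[k0,k2,k0,k0,k0,k0],[k0,k3,k0,k0,k0,k0],[k0,k0,k0,k1,k0,k1],[k0,k0,k0,k0,k2,k0],[k0,k0,k0,k0,k3,k0],[k0,k0,k0,k0,
    k4,k0]]
    [.contra [z1],.ref k9 k0 [(z1,[z0,z1]),(z1,[z1]),(z1,[z0,y1,y1,z1])],.contra [y2,y1,y2,z2],.contra [z1],
    .ref k7 k0 [(z1,[z0,z1]),(z1,[y1,z0,z3]),(z1,[z0,y1,y1,z1])],.ref k8 k0 [(z1,[z0,z1]),(z2,[y1,z0,z4]),(z1,[z0,y1,
    y1,z1])]]),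
    .old (.leafM k10 [k3,k4,k5,k1] [(z1,[y3,y1,y1,z3]),(z1,[z0,z1]),(z1,[z0,z0,z1])] [(k0,k2,z1,[z1]),(k2,k0,z1,[z1])]),
    .old (.lp [k110,k40,k10,k48,k30,k0] [k0,k0,k35,k35,k50,k50,k31,k31,k40,k40,k55,k55] k0 [] k120 k6
    [[(k10,k55),(k4,k60)],[(k5,k60),(k3,k75)],[(k2,k40),(k0,k75)],[(k5,k25),(k3,k40)],[(k2,k25),(k0,k60)],[(k7,k29),
    (k1,k60)],[(k10,k24),(k4,k29)],[(k11,k24)],[(k8,k30)],[(k9,k30)],[(k6,k24)],[(k7,k24),(k1,k55)]]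
    [] k0
    [[k0,k2,k0,k0,k0,k0],[k0,k0,k0,k1,k0,k1],[k0,k0,k0,k2,k0,k2],[k0,k0,k0,k0,k2,k0],[k0,k0,k0,k0,k3,k0]]
    [.contra [z1],.contra [y1,y1,z0,z1],.ref k10 k0 [(z1,[z0,z1]),(z2,[y1,y2,z0,z2])],.contra [z1],.ref k11 k0 [(z1,
    [z0,z1]),(z1,[z0,z0,z1]),(z1,[y1,y3,y1,z3])]]),
    .old (.lp [k102,k30,k18,k48,k40,k0] [k0,k0,k36,k36,k42,k42,k27,k27,k31,k31,k51,k51] k0 [] k120 k6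
    [[(k10,k51),(k4,k60)],[(k5,k60),(k3,k66)],[(k2,k30),(k0,k66)],[(k5,k24),(k3,k30)],[(k2,k24),(k0,k60)],[(k7,k33),
    (k1,k60)],[(k10,k24),(k4,k33)],[(k11,k24)],[(k8,k40)],[(k9,k40)],[(k6,k24)],[(k7,k24),(k1,k51)]]
    [] k0
    [[k0,k2,k0,k0,k0,k0],[k0,k3,k0,k0,k0,k0],[k0,k0,k0,k1,k0,k1],[k0,k0,k0,k2,k0,k2],[k0,k0,k0,k0,k2,k0]]
    [.contra [z1],.ref k12 k0 [(z1,[z0,z1]),(z1,[z1])],.contra [y1,y1,z1],.ref k10 k0 [(z1,[z0,z1]),(z2,[y1,y2,z2])],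
    .contra [z1]]),
    .old (.lp [k6,k6,k0,k6,k4,k0] [k0,k0,k0,k0,k3,k3,k0,k0,k1,k1,k3,k3] k0 [] k12 k5
    [[(k4,k3),(k10,k3)],[(k5,k3),(k3,k6)],[(k0,k6),(k2,k6)],[(k5,k3),(k3,k6)],[(k0,k3),(k2,k3)],[(k1,k3),(k7,k3)],
    [(k4,k3),(k10,k3)],[(k11,k3)],[(k8,k4)],[(k9,k4)],[(k6,k3)],[(k1,k3),(k7,k3)]]
    [] k0
    [[k1,k0,k1,k0,k0,k0],[k0,k0,k0,k1,k0,k1],[k0,k0,k0,k0,k2,k0]]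
    [.ref k13 k0 [(z1,[z1])],.ref k6 k0 [(z1,[y1,z1])],.contra [z1]])]⟩

/-- classes `0 0 1 2 2 1`, types `C0 C0 C0 N0 N1 C2` -/
noncomputable def cU6_1585 : CertX :=
  ⟨[k4,k4,k20,k44,k45,k22],[],[[[]]],
    [.old (.lp [k6,k8,k6,k6,k12,k6] [k3,k3,k2,k2,k3,k3,k3,k3,k0,k0,k3,k3] k0 [] k24 k5
    [[(k7,k6),(k10,k6)],[(k5,k6),(k3,k7)],[(k0,k7),(k2,k8)],[(k5,k7),(k3,k8)],[(k0,k6),(k2,k7)],[(k7,k6),(k10,k6)],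
    [(k1,k6),(k4,k6)],[(k11,k6)],[(k8,k12)],[(k9,k12)],[(k6,k6)],[(k1,k6),(k4,k6)]]
    [] k0
    [[k0,k2,k0,k0,k0,k0]]
    [.contra [z1]])]⟩

/-- classes `0 0 1 2 2 1`, types `C0 C0 C0 N0 N2 C0` -/
noncomputable def cU6_1586 : CertX :=
  ⟨[k4,k4,k20,k44,k46,k20],[(false,k0,[k0,k1,k2,k3,k4,k5])],[[[([z1,z1,z1,z0,z0,z0],z2)],[]]],
    [.old (.leafM k4 [k3,k4,k5,k0,k1,k2] [(z1,[z1])] []),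
    .old (.lp [k24,k10,k6,k6,k6,k6] [k0,k0,k7,k7,k9,k9,k9,k9,k9,k9,k9,k9] k0 [] k30 k6
    [[(k4,k15),(k10,k15)],[(k5,k15),(k3,k17)],[(k2,k10),(k0,k17)],[(k5,k8),(k3,k10)],[(k2,k8),(k0,k15)],[(k7,k6),(k1,
    k15)],[(k4,k6),(k10,k6)],[(k8,k6)],[(k11,k6)],[(k6,k6)],[(k9,k6)],[(k7,k6),(k1,k15)]]
    [] k0
    [[k0,k2,k0,k0,k0,k0],[k0,k0,k0,k1,k1,k1]]
    [.contra [z1],.ref k0 k0 [(z1,[y1,z1])]])]⟩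

/-- classes `0 0 1 2 2 1`, types `C0 C0 C0 N0 N2 C2` -/
noncomputable def cU6_1587 : CertX :=
  ⟨[k4,k4,k20,k44,k46,k22],[],[[[]]],
    [.old (.lp [k2,k4,k2,k2,k2,k2] [k1,k1,k0,k0,k1,k1,k1,k1,k1,k1,k1,k1] k0 [] k8 k5
    [[(k7,k2),(k10,k2)],[(k5,k2),(k3,k3)],[(k0,k3),(k2,k4)],[(k5,k3),(k3,k4)],[(k0,k2),(k2,k3)],[(k7,k2),(k10,k2)],
    [(k1,k2),(k4,k2)],[(k8,k2)],[(k11,k2)],[(k6,k2)],[(k9,k2)],[(k1,k2),(k4,k2)]]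
    [] k0
    []
    [])]⟩

/-- classes `0 0 1 2 2 1`, types `C0 C0 C0 S0 S0 C0` -/
noncomputable def cU6_1588 : CertX :=
  ⟨[k4,k4,k20,k32,k32,k20],[(false,k0,[k0,k1,k2,k3,k4,k5])],[[[([z1,z1,z1,z0,z0,z0],z2)],[([z3,z0,z3,z0,z0,z0],z2),
    ([z0,z3,z0,z0,z0,z0],z2),([z0,z0,z0,z1,z0,z1],z2)],[([z1,z0,z1,z0,z0,z0],z1),([z0,z3,z0,z0,z0,z0],z1),([z0,z0,z0,
    z1,z0,z1],z2)],[([z3,z3,z3,z0,z0,z0],z4),([z0,z0,z0,z1,z0,z1],z2)],[([z1,z0,z1,z0,z0,z0],z1),([z0,z2,z0,z0,z0,z0],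
    z1),([z0,z0,z0,z1,z0,z1],z2)],[([z1,z0,z1,z0,z0,z0],z1),([z0,z3,z0,z0,z0,z0],z2),([z0,z0,z0,z1,z0,z1],z2)],[([z1,
    z0,z1,z0,z0,z0],z1),([z0,z1,z0,z0,z1,z0],z1)],[([z1,z1,z1,z0,z1,z0],z2)],[([z1,z0,z1,z0,z0,z0],z2),([z0,z3,z0,z0,
    z0,z0],z1),([z0,z0,z0,z1,z0,z1],z1)],[([z1,z0,z1,z0,z0,z0],z2),([z0,z3,z0,z0,z0,z0],z2),([z0,z0,z0,z1,z0,z1],z1)],
    [([z1,z0,z1,z0,z0,z0],z2),([z0,z2,z0,z0,z0,z0],z1),([z0,z0,z0,z1,z0,z1],z1)],[([z1,z0,z1,z0,z0,z0],z2),([z0,z1,z0,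
    z0,z1,z0],z1)]],[[([z1,z0,z1,z0,z0,z0],z2),([z0,z3,z0,z0,z0,z0],z2),([z0,z0,z0,z3,z0,z3],z2)],[([z1,z0,z1,z0,z0,
    z0],z2),([z0,z3,z0,z0,z0,z0],z2)],[([z1,z0,z1,z0,z0,z0],z2)],[]]],
    [.old (.leafM k0 [k2,k3,k4,k5,k0,k1] [(z1,[y1,z1])] []),
    .old (.leafM k10 [k0,k1,k2,k4] [(z1,[z0,z1]),(z1,[y1,y1,y3,z3]),(z1,[z1])] [(k3,k5,z1,[z0,z0,z1]),(k5,k3,z1,[z0,z0,
    z1])]),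
    .old (.leafM k11 [k2,k4,k0,k1] [(z1,[y3,y1,y3,z3]),(z1,[z0,z1]),(z1,[z1])] [(k3,k5,z1,[z0,z0,z1]),(k5,k3,z1,[z0,z0,
    z1])]),
    .old (.lp [k30,k30,k18,k30,k40,k90] [k30,k30,k30,k30,k36,k36,k30,k30,k25,k25,k0,k0] k0 [] k120 k6
    [[(k4,k24),(k10,k60)],[(k5,k24),(k3,k30)],[(k0,k30),(k2,k30)],[(k5,k24),(k3,k30)],[(k0,k24),(k2,k24)],[(k1,k24),
    (k7,k24)],[(k4,k24),(k10,k60)],[(k6,k30),(k8,k35),(k9,k35),(k11,k60)],[(k6,k35),(k8,k40),(k9,k40),(k11,k65)],[(k6,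
    k35),(k8,k40),(k9,k40),(k11,k65)],[(k6,k60),(k8,k65),(k9,k65),(k11,k90)],[(k1,k60),(k7,k60)]]
    [] k0
    [[k1,k0,k1,k0,k0,k0],[k2,k0,k2,k0,k0,k0],[k1,k1,k1,k0,k0,k0],[k1,k2,k1,k0,k0,k0],[k0,k2,k0,k0,k0,k0],[k0,k3,k0,k0,
    k0,k0],[k0,k0,k0,k0,k2,k0]]
    [.contra [y2,z1],.ref k2 k0 [(z2,[z1]),(z2,[y3,z2]),(z1,[z0,z0,z1])],.contra [z1,y1,y2,z2],.ref k1 k0 [(z1,[y3,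
    z2]),(z1,[z3,y1]),(z1,[z0,z0,z1])],.contra [z1],.ref k1 k0 [(z1,[y1,z1]),(z1,[z1]),(z1,[z0,z0,z1])],.contra [z1]]),
    .old (.leafM k12 [k0,k1,k2,k4] [(z1,[z0,z1]),(z1,[y2,y1,y2,z2]),(z1,[z1])] [(k3,k5,z1,[z0,z0,z1]),(k5,k3,z1,[z0,z0,
    z1])]),
    .old (.leafM k11 [k0,k1,k2,k4] [(z1,[z0,z1]),(z1,[y3,y1,y3,z3]),(z1,[z1])] [(k3,k5,z1,[z0,z0,z1]),(k5,k3,z1,[z0,z0,
    z1])]),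
    .old (.lp [k14,k10,k6,k10,k8,k30] [k8,k8,k10,k10,k12,k12,k10,k10,k11,k11,k0,k0] k0 [] k40 k6
    [[(k4,k10),(k10,k22)],[(k5,k10),(k3,k12)],[(k2,k10),(k0,k12)],[(k5,k8),(k3,k10)],[(k2,k8),(k0,k10)],[(k7,k8),(k1,
    k10)],[(k4,k8),(k10,k20)],[(k8,k9),(k9,k9),(k6,k10),(k11,k20)],[(k8,k8),(k9,k8),(k6,k9),(k11,k19)],[(k8,k8),(k9,
    k8),(k6,k9),(k11,k19)],[(k8,k19),(k9,k19),(k6,k20),(k11,k30)],[(k7,k20),(k1,k22)]]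
    [] k0
    [[k1,k0,k1,k0,k0,k0],[k1,k1,k1,k0,k0,k0],[k0,k2,k0,k0,k0,k0],[k0,k3,k0,k0,k0,k0],[k0,k0,k0,k0,k2,k0],[k0,k0,k0,k0,
    k3,k0],[k0,k0,k0,k0,k4,k0]]
    [.contra [y1,z2],.contra [z1,y1],.contra [z1],.ref k5 k0 [(z1,[z0,z1]),(z1,[z1]),(z1,[z0,y1,y1,z1])],.contra [z1],
    .ref k3 k0 [(z1,[y1,z3,z3]),(z1,[z0,y1,y1,z1])],.ref k4 k0 [(z1,[z0,z1]),(z2,[y1,z0,z4]),(z1,[z0,y1,y1,z1])]]),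
    .old (.lp [k40,k40,k8,k40,k30,k80] [k20,k20,k20,k20,k36,k36,k20,k20,k25,k25,k0,k0] k0 [] k120 k6
    [[(k4,k24),(k10,k60)],[(k5,k24),(k3,k40)],[(k0,k40),(k2,k40)],[(k5,k24),(k3,k40)],[(k0,k24),(k2,k24)],[(k1,k24),
    (k7,k24)],[(k4,k24),(k10,k60)],[(k8,k35),(k9,k35),(k6,k40),(k11,k60)],[(k8,k30),(k9,k30),(k6,k35),(k11,k55)],[(k8,
    k30),(k9,k30),(k6,k35),(k11,k55)],[(k8,k55),(k9,k55),(k6,k60),(k11,k80)],[(k1,k60),(k7,k60)]]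
    [] k0
    [[k1,k0,k1,k0,k0,k0],[k2,k0,k2,k0,k0,k0],[k1,k1,k1,k0,k0,k0],[k0,k2,k0,k0,k0,k0],[k0,k0,k0,k0,k2,k0],[k0,k0,k0,k0,
    k3,k0]]
    [.contra [y1,z1],.ref k6 k0 [(z2,[z1]),(z2,[y1,z2])],.contra [y1,z1],.contra [z1],.contra [z1],.ref k3 k0 [(z1,
    [y1,z3]),(z1,[z0,y1,z1])]]),
    .old (.leafM k11 [k3,k4,k5,k1] [(z1,[y3,y1,y3,z3]),(z1,[z0,z1]),(z1,[z0,z0,z1])] [(k0,k2,z1,[z1]),(k2,k0,z1,[z1])]),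
    .old (.leafM k8 [k5,k1,k3,k4] [(z1,[z0,z1]),(z1,[y3,y1,y3,z3]),(z1,[z0,z0,z1])] [(k0,k2,z1,[z1]),(k2,k0,z1,[z1])]),
    .old (.leafM k9 [k5,k1,k3,k4] [(z1,[z0,z1]),(z1,[y2,y1,y2,z2]),(z1,[z0,z0,z1])] [(k0,k2,z1,[z1]),(k2,k0,z1,[z1])]),
    .old (.lp [k32,k8,k8,k8,k10,k12] [k0,k0,k12,k12,k12,k12,k12,k12,k11,k11,k10,k10] k0 [] k40 k6
    [[(k4,k20),(k10,k22)],[(k3,k20),(k5,k20)],[(k2,k8),(k0,k20)],[(k3,k8),(k5,k8)],[(k2,k8),(k0,k20)],[(k7,k8),(k1,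
    k20)],[(k4,k8),(k10,k10)],[(k6,k8),(k8,k9),(k9,k9),(k11,k10)],[(k6,k9),(k8,k10),(k9,k10),(k11,k11)],[(k6,k9),(k8,
    k10),(k9,k10),(k11,k11)],[(k6,k10),(k8,k11),(k9,k11),(k11,k12)],[(k7,k10),(k1,k22)]]
    [] k0
    [[k0,k2,k0,k0,k0,k0],[k0,k3,k0,k0,k0,k0],[k0,k4,k0,k0,k0,k0],[k0,k0,k0,k1,k0,k1],[k0,k0,k0,k1,k1,k1],[k0,k0,k0,k0,
    k2,k0],[k0,k0,k0,k0,k3,k0]]
    [.contra [z1],.ref k9 k0 [(z1,[z0,z1]),(z1,[z1]),(z1,[z0,y1,y1,z1])],.ref k10 k0 [(z1,[z0,z1]),(z2,[z1]),(z1,[z0,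
    y1,y1,z1])],.contra [y2,y1,y2,z2],.contra [z1,z1,z1,y1],.contra [z1],.ref k8 k0 [(z1,[z0,z1]),(z1,[y1,z0,z3]),(z1,
    [z0,y1,y1,z1])]]),
    .old (.leafM k10 [k3,k4,k5,k1] [(z1,[y3,y1,y1,z3]),(z1,[z0,z1]),(z1,[z0,z0,z1])] [(k0,k2,z1,[z1]),(k2,k0,z1,[z1])]),
    .old (.lp [k96,k40,k24,k24,k30,k24] [k0,k0,k28,k28,k36,k36,k36,k36,k33,k33,k36,k36] k0 [] k120 k6
    [[(k4,k60),(k10,k60)],[(k5,k60),(k3,k68)],[(k2,k40),(k0,k68)],[(k5,k32),(k3,k40)],[(k2,k32),(k0,k60)],[(k7,k24),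
    (k1,k60)],[(k4,k24),(k10,k24)],[(k6,k24),(k11,k24),(k8,k27),(k9,k27)],[(k6,k27),(k11,k27),(k8,k30),(k9,k30)],[(k6,
    k27),(k11,k27),(k8,k30),(k9,k30)],[(k6,k24),(k11,k24),(k8,k27),(k9,k27)],[(k7,k24),(k1,k60)]]
    [] k0
    [[k0,k2,k0,k0,k0,k0],[k0,k0,k0,k1,k0,k1],[k0,k0,k0,k2,k0,k2],[k0,k0,k0,k1,k1,k1],[k0,k0,k0,k1,k2,k1],[k0,k0,k0,k0,
    k2,k0],[k0,k0,k0,k0,k3,k0]]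
    [.contra [z1],.contra [y1,y1,z0,z1],.ref k11 k0 [(z1,[z0,z1]),(z2,[y1,y2,z0,z2])],.contra [z1,z1,z1,y1],
    .ref k12 k0 [(z1,[z0,z1]),(z1,[z0,z0,z1]),(z1,[y3,y6,y2,z6])],.contra [z1],.ref k12 k0 [(z1,[z0,z1]),(z1,[z0,z0,
    z1]),(z1,[y1,y3,y1,z3])]]),
    .old (.lp [k96,k30,k24,k24,k40,k24] [k0,k0,k33,k33,k36,k36,k36,k36,k28,k28,k36,k36] k0 [] k120 k6
    [[(k4,k60),(k10,k60)],[(k5,k60),(k3,k63)],[(k2,k30),(k0,k63)],[(k5,k27),(k3,k30)],[(k2,k27),(k0,k60)],[(k7,k24),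
    (k1,k60)],[(k4,k24),(k10,k24)],[(k6,k24),(k11,k24),(k8,k32),(k9,k32)],[(k6,k32),(k11,k32),(k8,k40),(k9,k40)],[(k6,
    k32),(k11,k32),(k8,k40),(k9,k40)],[(k6,k24),(k11,k24),(k8,k32),(k9,k32)],[(k7,k24),(k1,k60)]]
    [] k0
    [[k0,k2,k0,k0,k0,k0],[k0,k3,k0,k0,k0,k0],[k0,k0,k0,k1,k0,k1],[k0,k0,k0,k2,k0,k2],[k0,k0,k0,k1,k1,k1],[k0,k0,k0,k0,
    k2,k0]]
    [.contra [z1],.ref k13 k0 [(z1,[z0,z1]),(z1,[z1])],.contra [y1,y1,z1],.ref k11 k0 [(z1,[z0,z1]),(z2,[y1,y2,z2])],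
    .contra [y1,y1,z1],.contra [z1]]),
    .old (.lp [k6,k12,k6,k6,k8,k6] [k3,k3,k0,k0,k3,k3,k3,k3,k2,k2,k3,k3] k0 [] k24 k5
    [[(k4,k6),(k10,k6)],[(k5,k6),(k3,k9)],[(k0,k9),(k2,k12)],[(k5,k9),(k3,k12)],[(k0,k6),(k2,k9)],[(k1,k6),(k7,k6)],
    [(k4,k6),(k10,k6)],[(k6,k6),(k11,k6),(k8,k7),(k9,k7)],[(k6,k7),(k11,k7),(k8,k8),(k9,k8)],[(k6,k7),(k11,k7),(k8,
    k8),(k9,k8)],[(k6,k6),(k11,k6),(k8,k7),(k9,k7)],[(k1,k6),(k7,k6)]]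
    [] k0
    [[k1,k0,k1,k0,k0,k0],[k0,k0,k0,k1,k0,k1],[k0,k0,k0,k1,k1,k1],[k0,k0,k0,k0,k2,k0]]
    [.ref k14 k0 [(z1,[z1])],.ref k7 k0 [(z1,[y1,z1])],.ref k0 k0 [(z1,[y1,z1])],.contra [z1]])]⟩

/-- classes `0 0 1 2 2 1`, types `C0 C0 C0 S0 S0 C2` -/
noncomputable def cU6_1589 : CertX :=
  ⟨[k4,k4,k20,k32,k32,k22],[],[[[]]],
    [.old (.lp [k6,k8,k6,k6,k12,k6] [k3,k3,k2,k2,k3,k3,k3,k3,k0,k0,k3,k3] k0 [] k24 k5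
    [[(k7,k6),(k10,k6)],[(k5,k6),(k3,k7)],[(k0,k7),(k2,k8)],[(k5,k7),(k3,k8)],[(k0,k6),(k2,k7)],[(k7,k6),(k10,k6)],
    [(k1,k6),(k4,k6)],[(k6,k6),(k11,k6),(k8,k9),(k9,k9)],[(k6,k9),(k11,k9),(k8,k12),(k9,k12)],[(k6,k9),(k11,k9),(k8,
    k12),(k9,k12)],[(k6,k6),(k11,k6),(k8,k9),(k9,k9)],[(k1,k6),(k4,k6)]]
    [] k0
    [[k0,k2,k0,k0,k0,k0]]
    [.contra [z1]])]⟩

/-- classes `0 0 1 2 2 1`, types `C0 C0 N0 C0 C0 N1` -/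
noncomputable def cU6_1590 : CertX :=
  ⟨[k4,k4,k28,k36,k36,k29],[(false,k0,[k0,k1,k2,k3,k4,k5]),(false,k3,[k3,k4,k5,k0,k1,k2])],[[[([z1,z1,z1,z0,z0,z0],
    z2)],[([z1,z0,z1,z0,z0,z0],z1),([z0,z3,z0,z0,z0,z0],z1),([z0,z0,z0,z1,z0,z1],z2)],[([z1,z0,z1,z0,z0,z0],z1),([z0,
    z2,z0,z0,z0,z0],z1),([z0,z0,z0,z1,z0,z1],z2)],[([z1,z0,z1,z0,z0,z0],z1),([z0,z3,z0,z0,z0,z0],z2),([z0,z0,z0,z1,z0,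
    z1],z2)],[([z1,z0,z1,z0,z0,z0],z1),([z0,z1,z0,z0,z1,z0],z1)],[([z3,z0,z3,z0,z0,z0],z2),([z0,z3,z0,z0,z0,z0],z2),
    ([z0,z0,z0,z1,z0,z1],z2)],[([z1,z0,z1,z0,z0,z0],z2),([z0,z3,z0,z0,z0,z0],z2)],[([z1,z0,z1,z0,z0,z0],z2)],[]]],
    [.old (.leafM k0 [k2,k3,k4,k5,k0,k1] [(z1,[y1,z1])] []),
    .old (.leafM k11 [k2,k4,k0,k1] [(z1,[y3,y1,y3,z3]),(z1,[z0,z1]),(z1,[z1])] [(k3,k5,z1,[z0,z0,z1]),(k5,k3,z1,[z0,z0,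
    z1])]),
    .old (.leafM k12 [k0,k1,k2,k4] [(z1,[z0,z1]),(z1,[y2,y1,y2,z2]),(z1,[z1])] [(k3,k5,z1,[z0,z0,z1]),(k5,k3,z1,[z0,z0,
    z1])]),
    .old (.leafM k11 [k0,k1,k2,k4] [(z1,[z0,z1]),(z1,[y3,y1,y3,z3]),(z1,[z1])] [(k3,k5,z1,[z0,z0,z1]),(k5,k3,z1,[z0,z0,
    z1])]),
    .old (.lp [k14,k10,k6,k32,k8,k8] [k9,k9,k11,k11,k13,k13,k0,k0,k12,k12,k12,k12] k0 [] k40 k6
    [[(k4,k10)],[(k5,k10),(k3,k12)],[(k2,k10),(k0,k12)],[(k5,k8),(k3,k10)],[(k2,k8),(k0,k10)],[(k1,k10)],[(k10,k20)],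
    [(k9,k20),(k11,k20)],[(k8,k8),(k6,k20)],[(k9,k8),(k11,k8)],[(k8,k8),(k6,k20)],[(k7,k20)]]
    [] k0
    [[k1,k0,k1,k0,k0,k0],[k1,k1,k1,k0,k0,k0],[k0,k2,k0,k0,k0,k0],[k0,k3,k0,k0,k0,k0],[k0,k0,k0,k0,k2,k0],[k0,k0,k0,k0,
    k3,k0],[k0,k0,k0,k0,k4,k0]]
    [.contra [y1,z2],.contra [z1,y1],.contra [z1],.ref k3 k0 [(z1,[z0,z1]),(z1,[z1]),(z1,[z0,y1,y1,z1])],.contra [z1],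
    .ref k1 k0 [(z1,[z0,z1]),(z1,[y1,z0,z3]),(z1,[z0,y1,y1,z1])],.ref k2 k0 [(z1,[z0,z1]),(z2,[y1,z0,z4]),(z1,[z0,y1,
    y1,z1])]]),
    .old (.leafM k10 [k0,k1,k2,k4] [(z1,[z0,z1]),(z1,[y1,y1,y3,z3]),(z1,[z1])] [(k3,k5,z1,[z0,z0,z1]),(k5,k3,z1,[z0,z0,
    z1])]),
    .old (.lp [k112,k40,k8,k30,k30,k18] [k0,k0,k36,k36,k52,k52,k41,k41,k41,k41,k47,k47] k0 [] k120 k6
    [[(k4,k60)],[(k5,k60),(k3,k76)],[(k2,k40),(k0,k76)],[(k5,k24),(k3,k40)],[(k2,k24),(k0,k60)],[(k1,k60)],[(k10,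
    k24)],[(k11,k24),(k9,k30)],[(k6,k30),(k8,k30)],[(k11,k24),(k9,k30)],[(k6,k24),(k8,k24)],[(k7,k24)]]
    [] k0
    [[k0,k2,k0,k0,k0,k0],[k0,k0,k0,k1,k0,k1],[k0,k0,k0,k2,k0,k2],[k0,k0,k0,k1,k1,k1],[k0,k0,k0,k1,k2,k1],[k0,k0,k0,k0,
    k2,k0],[k0,k0,k0,k0,k3,k0]]
    [.contra [z1],.contra [y1,y1,z0,z1],.ref k4 k1 [(z2,[z1]),(z2,[y1,y2,z0,z2])],.contra [z1,z1,z1,y1],
    .ref k5 k1 [(z1,[y3,y6,y2,z6]),(z1,[z3,z3,z1,y3]),(z1,[z0,z1])],.contra [z1],.ref k5 k1 [(z1,[y1,y3,y1,z3]),(z1,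
    [z1]),(z1,[z0,z1])]]),
    .old (.lp [k102,k30,k18,k40,k40,k8] [k0,k0,k36,k36,k42,k42,k31,k31,k31,k31,k47,k47] k0 [] k120 k6
    [[(k4,k60)],[(k5,k60),(k3,k66)],[(k2,k30),(k0,k66)],[(k5,k24),(k3,k30)],[(k2,k24),(k0,k60)],[(k1,k60)],[(k10,
    k24)],[(k11,k24),(k9,k40)],[(k6,k40),(k8,k40)],[(k11,k24),(k9,k40)],[(k6,k24),(k8,k24)],[(k7,k24)]]
    [] k0
    [[k0,k2,k0,k0,k0,k0],[k0,k3,k0,k0,k0,k0],[k0,k0,k0,k1,k0,k1],[k0,k0,k0,k2,k0,k2],[k0,k0,k0,k1,k1,k1],[k0,k0,k0,k0,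
    k2,k0]]
    [.contra [z1],.ref k6 k0 [(z1,[z0,z1]),(z1,[z1])],.contra [y1,y1,z1],.ref k4 k1 [(z2,[z1]),(z2,[y1,y2,z2])],
    .contra [y1,y1,z1],.contra [z1]]),
    .old (.lp [k6,k6,k0,k4,k4,k2] [k0,k0,k0,k0,k3,k3,k1,k1,k1,k1,k2,k2] k0 [] k12 k5
    [[(k4,k3)],[(k5,k3),(k3,k6)],[(k0,k6),(k2,k6)],[(k5,k3),(k3,k6)],[(k0,k3),(k2,k3)],[(k1,k3)],[(k10,k3)],[(k11,k3),
    (k9,k4)],[(k6,k4),(k8,k4)],[(k11,k3),(k9,k4)],[(k6,k3),(k8,k3)],[(k7,k3)]]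
    [] k0
    [[k1,k0,k1,k0,k0,k0],[k0,k0,k0,k1,k0,k1],[k0,k0,k0,k1,k1,k1],[k0,k0,k0,k0,k2,k0]]
    [.ref k7 k0 [(z1,[z1])],.ref k7 k1 [(z1,[z1])],.ref k0 k0 [(z1,[y1,z1])],.contra [z1]])]⟩

/-- classes `0 0 1 2 2 1`, types `C0 C0 N0 C0 C0 N2` -/
noncomputable def cU6_1591 : CertX :=
  ⟨[k4,k4,k28,k36,k36,k30],[],[[[]]],
    [.old (.lp [k4,k4,k2,k2,k6,k4] [k1,k1,k1,k1,k2,k2,k2,k2,k0,k0,k1,k1] k0 [] k12 k5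
    [[(k7,k3)],[(k5,k3),(k3,k4)],[(k0,k4),(k2,k4)],[(k5,k3),(k3,k4)],[(k0,k3),(k2,k3)],[(k10,k3)],[(k1,k3)],[(k11,k3),
    (k9,k4)],[(k6,k4),(k8,k6)],[(k11,k5),(k9,k6)],[(k6,k3),(k8,k5)],[(k4,k3)]]
    [] k0
    [[k0,k2,k0,k0,k0,k0]]
    [.contra [z1]])]⟩

/-- classes `0 0 1 2 2 1`, types `C0 C0 N0 C0 C2 N1` -/
noncomputable def cU6_1592 : CertX :=
  ⟨[k4,k4,k28,k36,k38,k29],[(false,k0,[k0,k1,k2,k3,k4,k5])],[[[([z1,z1,z1,z0,z0,z0],z2)],[]]],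
    [.old (.leafM k0 [k2,k3,k4,k5,k0,k1] [(z1,[y1,z1])] []),
    .old (.lp [k110,k40,k10,k24,k24,k24] [k0,k0,k35,k35,k50,k50,k43,k43,k43,k43,k43,k43] k0 [] k120 k6
    [[(k4,k60)],[(k5,k60),(k3,k75)],[(k2,k40),(k0,k75)],[(k5,k25),(k3,k40)],[(k2,k25),(k0,k60)],[(k1,k60)],[(k10,
    k24)],[(k8,k24),(k9,k24)],[(k6,k24),(k11,k24)],[(k6,k24),(k11,k24)],[(k8,k24),(k9,k24)],[(k7,k24)]]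
    [] k0
    [[k0,k2,k0,k0,k0,k0],[k0,k0,k0,k1,k1,k1]]
    [.contra [z1],.ref k0 k0 [(z1,[y1,z1])]])]⟩

/-- classes `0 0 1 2 2 1`, types `C0 C0 N0 C0 C2 N2` -/
noncomputable def cU6_1593 : CertX :=
  ⟨[k4,k4,k28,k36,k38,k30],[],[[[]]],
    [.old (.lp [k2,k4,k2,k2,k2,k2] [k1,k1,k0,k0,k1,k1,k1,k1,k1,k1,k1,k1] k0 [] k8 k5
    [[(k7,k2)],[(k5,k2),(k3,k3)],[(k0,k3),(k2,k4)],[(k5,k3),(k3,k4)],[(k0,k2),(k2,k3)],[(k10,k2)],[(k1,k2)],[(k8,k2),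
    (k9,k2)],[(k6,k2),(k11,k2)],[(k6,k2),(k11,k2)],[(k8,k2),(k9,k2)],[(k4,k2)]]
    [] k0
    []
    [])]⟩

/-- classes `0 0 1 2 2 1`, types `C0 C0 N0 N0 N1 N1` -/
noncomputable def cU6_1594 : CertX :=
  ⟨[k4,k4,k28,k44,k45,k29],[(false,k0,[k0,k1,k2,k3,k4,k5])],[[[([z3,z0,z3,z0,z0,z0],z2),([z0,z3,z0,z0,z0,z0],z2),([z0,
    z0,z0,z1,z0,z1],z2)],[([z1,z0,z1,z0,z0,z0],z1),([z0,z3,z0,z0,z0,z0],z1),([z0,z0,z0,z1,z0,z1],z2)],[([z3,z3,z3,z0,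
    z0,z0],z4),([z0,z0,z0,z1,z0,z1],z2)],[([z1,z0,z1,z0,z0,z0],z1),([z0,z2,z0,z0,z0,z0],z1),([z0,z0,z0,z1,z0,z1],z2)],
    [([z1,z0,z1,z0,z0,z0],z1),([z0,z3,z0,z0,z0,z0],z2),([z0,z0,z0,z1,z0,z1],z2)],[([z1,z0,z1,z0,z0,z0],z1),([z0,z1,z0,
    z0,z1,z0],z1)],[([z1,z1,z1,z0,z1,z0],z2)],[([z1,z0,z1,z0,z0,z0],z2),([z0,z3,z0,z0,z0,z0],z1),([z0,z0,z0,z1,z0,z1],
    z1)],[([z1,z0,z1,z0,z0,z0],z2),([z0,z2,z0,z0,z0,z0],z1),([z0,z0,z0,z1,z0,z1],z1)],[([z1,z0,z1,z0,z0,z0],z2),([z0,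
    z3,z0,z0,z0,z0],z2),([z0,z0,z0,z1,z0,z1],z1)],[([z1,z0,z1,z0,z0,z0],z2),([z0,z1,z0,z0,z1,z0],z1)],[([z1,z0,z1,z0,
    z0,z0],z2),([z0,z3,z0,z0,z0,z0],z2),([z0,z0,z0,z3,z0,z3],z2)]],[[([z1,z0,z1,z0,z0,z0],z2),([z0,z3,z0,z0,z0,z0],
    z2)],[([z1,z0,z1,z0,z0,z0],z2)],[]]],
    [.old (.leafM k10 [k0,k1,k2,k4] [(z1,[z0,z1]),(z1,[y1,y1,y3,z3]),(z1,[z1])] [(k3,k5,z1,[z0,z0,z1]),(k5,k3,z1,[z0,z0,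
    z1])]),
    .old (.leafM k11 [k2,k4,k0,k1] [(z1,[y3,y1,y3,z3]),(z1,[z0,z1]),(z1,[z1])] [(k3,k5,z1,[z0,z0,z1]),(k5,k3,z1,[z0,z0,
    z1])]),
    .old (.lp [k30,k30,k18,k120,k40,k0] [k45,k45,k45,k45,k51,k51,k0,k0,k40,k40,k60,k60] k0 [] k120 k6
    [[(k4,k24)],[(k5,k24),(k3,k30)],[(k0,k30),(k2,k30)],[(k5,k24),(k3,k30)],[(k0,k24),(k2,k24)],[(k1,k24)],[(k10,
    k60)],[(k11,k60)],[(k8,k40)],[(k9,k40)],[(k6,k60)],[(k7,k60)]]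
    [] k0
    [[k1,k0,k1,k0,k0,k0],[k2,k0,k2,k0,k0,k0],[k1,k1,k1,k0,k0,k0],[k1,k2,k1,k0,k0,k0],[k0,k2,k0,k0,k0,k0],[k0,k3,k0,k0,
    k0,k0],[k0,k0,k0,k0,k2,k0]]
    [.contra [y2,z1],.ref k1 k0 [(z2,[z1]),(z2,[y3,z2]),(z1,[z0,z0,z1])],.contra [z1,y1,y2,z2],.ref k0 k0 [(z1,[y3,
    z2]),(z1,[z3,y1]),(z1,[z0,z0,z1])],.contra [z1],.ref k0 k0 [(z1,[y1,z1]),(z1,[z1]),(z1,[z0,z0,z1])],.contra [z1]]),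
    .old (.leafM k12 [k0,k1,k2,k4] [(z1,[z0,z1]),(z1,[y2,y1,y2,z2]),(z1,[z1])] [(k3,k5,z1,[z0,z0,z1]),(k5,k3,z1,[z0,z0,
    z1])]),
    .old (.leafM k11 [k0,k1,k2,k4] [(z1,[z0,z1]),(z1,[y3,y1,y3,z3]),(z1,[z1])] [(k3,k5,z1,[z0,z0,z1]),(k5,k3,z1,[z0,z0,
    z1])]),
    .old (.lp [k14,k10,k6,k40,k8,k0] [k13,k13,k15,k15,k17,k17,k0,k0,k16,k16,k20,k20] k0 [] k40 k6
    [[(k4,k10)],[(k5,k10),(k3,k12)],[(k2,k10),(k0,k12)],[(k5,k8),(k3,k10)],[(k2,k8),(k0,k10)],[(k1,k10)],[(k10,k20)],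
    [(k11,k20)],[(k8,k8)],[(k9,k8)],[(k6,k20)],[(k7,k20)]]
    [] k0
    [[k1,k0,k1,k0,k0,k0],[k1,k1,k1,k0,k0,k0],[k0,k2,k0,k0,k0,k0],[k0,k3,k0,k0,k0,k0],[k0,k0,k0,k0,k2,k0],[k0,k0,k0,k0,
    k3,k0],[k0,k0,k0,k0,k4,k0]]
    [.contra [y1,z2],.contra [z1,y1],.contra [z1],.ref k4 k0 [(z1,[z0,z1]),(z1,[z1]),(z1,[z0,y1,y1,z1])],.contra [z1],
    .ref k2 k0 [(z1,[y1,z3,z3]),(z1,[z0,y1,y1,z1])],.ref k3 k0 [(z1,[z0,z1]),(z2,[y1,z0,z4]),(z1,[z0,y1,y1,z1])]]),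
    .old (.lp [k40,k40,k8,k120,k30,k0] [k40,k40,k40,k40,k56,k56,k0,k0,k45,k45,k60,k60] k0 [] k120 k6
    [[(k4,k24)],[(k5,k24),(k3,k40)],[(k0,k40),(k2,k40)],[(k5,k24),(k3,k40)],[(k0,k24),(k2,k24)],[(k1,k24)],[(k10,
    k60)],[(k11,k60)],[(k8,k30)],[(k9,k30)],[(k6,k60)],[(k7,k60)]]
    [] k0
    [[k1,k0,k1,k0,k0,k0],[k2,k0,k2,k0,k0,k0],[k1,k1,k1,k0,k0,k0],[k0,k2,k0,k0,k0,k0],[k0,k0,k0,k0,k2,k0],[k0,k0,k0,k0,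
    k3,k0]]
    [.contra [y1,z1],.ref k5 k0 [(z2,[z1]),(z2,[y1,z2])],.contra [y1,z1],.contra [z1],.contra [z1],.ref k2 k0 [(z1,
    [y1,z3]),(z1,[z0,y1,z1])]]),
    .old (.leafM k11 [k3,k4,k5,k1] [(z1,[y3,y1,y3,z3]),(z1,[z0,z1]),(z1,[z0,z0,z1])] [(k0,k2,z1,[z1]),(k2,k0,z1,[z1])]),
    .old (.leafM k12 [k3,k4,k5,k1] [(z1,[y2,y1,y2,z2]),(z1,[z0,z1]),(z1,[z0,z0,z1])] [(k0,k2,z1,[z1]),(k2,k0,z1,[z1])]),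
    .old (.leafM k11 [k5,k1,k3,k4] [(z1,[z0,z1]),(z1,[y3,y1,y3,z3]),(z1,[z0,z0,z1])] [(k0,k2,z1,[z1]),(k2,k0,z1,[z1])]),
    .old (.lp [k34,k10,k6,k20,k8,k0] [k0,k0,k12,k12,k14,k14,k7,k7,k13,k13,k17,k17] k0 [] k40 k6
    [[(k4,k20)],[(k5,k20),(k3,k22)],[(k2,k10),(k0,k22)],[(k5,k8),(k3,k10)],[(k2,k8),(k0,k20)],[(k1,k20)],[(k10,k10)],
    [(k11,k10)],[(k8,k8)],[(k9,k8)],[(k6,k10)],[(k7,k10)]]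
    [] k0
    [[k0,k2,k0,k0,k0,k0],[k0,k3,k0,k0,k0,k0],[k0,k0,k0,k1,k0,k1],[k0,k0,k0,k0,k2,k0],[k0,k0,k0,k0,k3,k0],[k0,k0,k0,k0,
    k4,k0]]
    [.contra [z1],.ref k9 k0 [(z1,[z0,z1]),(z1,[z1]),(z1,[z0,y1,y1,z1])],.contra [y2,y1,y2,z2],.contra [z1],
    .ref k7 k0 [(z1,[z0,z1]),(z1,[y1,z0,z3]),(z1,[z0,y1,y1,z1])],.ref k8 k0 [(z1,[z0,z1]),(z2,[y1,z0,z4]),(z1,[z0,y1,
    y1,z1])]]),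
    .old (.leafM k10 [k3,k4,k5,k1] [(z1,[y3,y1,y1,z3]),(z1,[z0,z1]),(z1,[z0,z0,z1])] [(k0,k2,z1,[z1]),(k2,k0,z1,[z1])]),
    .old (.lp [k110,k40,k10,k48,k30,k0] [k0,k0,k35,k35,k50,k50,k31,k31,k40,k40,k55,k55] k0 [] k120 k6
    [[(k4,k60)],[(k5,k60),(k3,k75)],[(k2,k40),(k0,k75)],[(k5,k25),(k3,k40)],[(k2,k25),(k0,k60)],[(k1,k60)],[(k10,
    k24)],[(k11,k24)],[(k8,k30)],[(k9,k30)],[(k6,k24)],[(k7,k24)]]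
    [] k0
    [[k0,k2,k0,k0,k0,k0],[k0,k0,k0,k1,k0,k1],[k0,k0,k0,k2,k0,k2],[k0,k0,k0,k0,k2,k0],[k0,k0,k0,k0,k3,k0]]
    [.contra [z1],.contra [y1,y1,z0,z1],.ref k10 k0 [(z1,[z0,z1]),(z2,[y1,y2,z0,z2])],.contra [z1],.ref k11 k0 [(z1,
    [z0,z1]),(z1,[z0,z0,z1]),(z1,[y1,y3,y1,z3])]]),
    .old (.lp [k102,k30,k18,k48,k40,k0] [k0,k0,k36,k36,k42,k42,k27,k27,k31,k31,k51,k51] k0 [] k120 k6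
    [[(k4,k60)],[(k5,k60),(k3,k66)],[(k2,k30),(k0,k66)],[(k5,k24),(k3,k30)],[(k2,k24),(k0,k60)],[(k1,k60)],[(k10,
    k24)],[(k11,k24)],[(k8,k40)],[(k9,k40)],[(k6,k24)],[(k7,k24)]]
    [] k0
    [[k0,k2,k0,k0,k0,k0],[k0,k3,k0,k0,k0,k0],[k0,k0,k0,k1,k0,k1],[k0,k0,k0,k2,k0,k2],[k0,k0,k0,k0,k2,k0]]
    [.contra [z1],.ref k12 k0 [(z1,[z0,z1]),(z1,[z1])],.contra [y1,y1,z1],.ref k10 k0 [(z1,[z0,z1]),(z2,[y1,y2,z2])],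
    .contra [z1]]),
    .old (.lp [k6,k6,k0,k6,k4,k0] [k0,k0,k0,k0,k3,k3,k0,k0,k1,k1,k3,k3] k0 [] k12 k5
    [[(k4,k3)],[(k5,k3),(k3,k6)],[(k0,k6),(k2,k6)],[(k5,k3),(k3,k6)],[(k0,k3),(k2,k3)],[(k1,k3)],[(k10,k3)],[(k11,
    k3)],[(k8,k4)],[(k9,k4)],[(k6,k3)],[(k7,k3)]]
    [] k0
    [[k1,k0,k1,k0,k0,k0],[k0,k0,k0,k1,k0,k1],[k0,k0,k0,k0,k2,k0]]
    [.ref k13 k0 [(z1,[z1])],.ref k6 k0 [(z1,[y1,z1])],.contra [z1]])]⟩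

/-- classes `0 0 1 2 2 1`, types `C0 C0 N0 N0 N1 N2` -/
noncomputable def cU6_1595 : CertX :=
  ⟨[k4,k4,k28,k44,k45,k30],[],[[[]]],
    [.old (.lp [k4,k4,k2,k2,k6,k4] [k1,k1,k1,k1,k2,k2,k2,k2,k0,k0,k1,k1] k0 [] k12 k5
    [[(k7,k3)],[(k5,k3),(k3,k4)],[(k0,k4),(k2,k4)],[(k5,k3),(k3,k4)],[(k0,k3),(k2,k3)],[(k10,k3)],[(k1,k3)],[(k11,
    k3)],[(k8,k6)],[(k9,k6)],[(k6,k3)],[(k4,k3)]]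
    [] k0
    [[k0,k2,k0,k0,k0,k0]]
    [.contra [z1]])]⟩

/-- classes `0 0 1 2 2 1`, types `C0 C0 N0 N0 N2 N1` -/
noncomputable def cU6_1596 : CertX :=
  ⟨[k4,k4,k28,k44,k46,k29],[(false,k0,[k0,k1,k2,k3,k4,k5])],[[[([z1,z1,z1,z0,z0,z0],z2)],[]]],
    [.old (.leafM k4 [k3,k4,k5,k0,k1,k2] [(z1,[z1])] []),
    .old (.lp [k110,k40,k10,k24,k24,k24] [k0,k0,k35,k35,k50,k50,k43,k43,k43,k43,k43,k43] k0 [] k120 k6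
    [[(k4,k60)],[(k5,k60),(k3,k75)],[(k2,k40),(k0,k75)],[(k5,k25),(k3,k40)],[(k2,k25),(k0,k60)],[(k1,k60)],[(k10,
    k24)],[(k8,k24)],[(k11,k24)],[(k6,k24)],[(k9,k24)],[(k7,k24)]]
    [] k0
    [[k0,k2,k0,k0,k0,k0],[k0,k0,k0,k1,k1,k1]]
    [.contra [z1],.ref k0 k0 [(z1,[y1,z1])]])]⟩

/-- classes `0 0 1 2 2 1`, types `C0 C0 N0 N0 N2 N2` -/
noncomputable def cU6_1597 : CertX :=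
  ⟨[k4,k4,k28,k44,k46,k30],[],[[[]]],
    [.old (.lp [k2,k4,k2,k2,k2,k2] [k1,k1,k0,k0,k1,k1,k1,k1,k1,k1,k1,k1] k0 [] k8 k5
    [[(k7,k2)],[(k5,k2),(k3,k3)],[(k0,k3),(k2,k4)],[(k5,k3),(k3,k4)],[(k0,k2),(k2,k3)],[(k10,k2)],[(k1,k2)],[(k8,k2)],
    [(k11,k2)],[(k6,k2)],[(k9,k2)],[(k4,k2)]]
    [] k0
    []
    [])]⟩

/-- classes `0 0 1 2 2 1`, types `C0 C0 N0 S0 S0 N1` -/
noncomputable def cU6_1598 : CertX :=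
  ⟨[k4,k4,k28,k32,k32,k29],[(false,k0,[k0,k1,k2,k3,k4,k5])],[[[([z1,z1,z1,z0,z0,z0],z2)],[([z3,z0,z3,z0,z0,z0],z2),
    ([z0,z3,z0,z0,z0,z0],z2),([z0,z0,z0,z1,z0,z1],z2)],[([z1,z0,z1,z0,z0,z0],z1),([z0,z3,z0,z0,z0,z0],z1),([z0,z0,z0,
    z1,z0,z1],z2)],[([z3,z3,z3,z0,z0,z0],z4),([z0,z0,z0,z1,z0,z1],z2)],[([z1,z0,z1,z0,z0,z0],z1),([z0,z2,z0,z0,z0,z0],
    z1),([z0,z0,z0,z1,z0,z1],z2)],[([z1,z0,z1,z0,z0,z0],z1),([z0,z3,z0,z0,z0,z0],z2),([z0,z0,z0,z1,z0,z1],z2)],[([z1,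
    z0,z1,z0,z0,z0],z1),([z0,z1,z0,z0,z1,z0],z1)],[([z1,z1,z1,z0,z1,z0],z2)],[([z1,z0,z1,z0,z0,z0],z2),([z0,z3,z0,z0,
    z0,z0],z1),([z0,z0,z0,z1,z0,z1],z1)],[([z1,z0,z1,z0,z0,z0],z2),([z0,z3,z0,z0,z0,z0],z2),([z0,z0,z0,z1,z0,z1],z1)],
    [([z1,z0,z1,z0,z0,z0],z2),([z0,z2,z0,z0,z0,z0],z1),([z0,z0,z0,z1,z0,z1],z1)],[([z1,z0,z1,z0,z0,z0],z2),([z0,z1,z0,
    z0,z1,z0],z1)]],[[([z1,z0,z1,z0,z0,z0],z2),([z0,z3,z0,z0,z0,z0],z2),([z0,z0,z0,z3,z0,z3],z2)],[([z1,z0,z1,z0,z0,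
    z0],z2),([z0,z3,z0,z0,z0,z0],z2)],[([z1,z0,z1,z0,z0,z0],z2)],[]]],
    [.old (.leafM k0 [k2,k3,k4,k5,k0,k1] [(z1,[y1,z1])] []),
    .old (.leafM k10 [k0,k1,k2,k4] [(z1,[z0,z1]),(z1,[y1,y1,y3,z3]),(z1,[z1])] [(k3,k5,z1,[z0,z0,z1]),(k5,k3,z1,[z0,z0,
    z1])]),
    .old (.leafM k11 [k2,k4,k0,k1] [(z1,[y3,y1,y3,z3]),(z1,[z0,z1]),(z1,[z1])] [(k3,k5,z1,[z0,z0,z1]),(k5,k3,z1,[z0,z0,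
    z1])]),
    .old (.lp [k30,k30,k18,k24,k40,k96] [k33,k33,k33,k33,k39,k39,k36,k36,k28,k28,k0,k0] k0 [] k120 k6
    [[(k4,k24)],[(k5,k24),(k3,k30)],[(k0,k30),(k2,k30)],[(k5,k24),(k3,k30)],[(k0,k24),(k2,k24)],[(k1,k24)],[(k10,
    k60)],[(k6,k24),(k8,k32),(k9,k32),(k11,k60)],[(k6,k32),(k8,k40),(k9,k40),(k11,k68)],[(k6,k32),(k8,k40),(k9,k40),
    (k11,k68)],[(k6,k60),(k8,k68),(k9,k68),(k11,k96)],[(k7,k60)]]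
    [] k0
    [[k1,k0,k1,k0,k0,k0],[k2,k0,k2,k0,k0,k0],[k1,k1,k1,k0,k0,k0],[k1,k2,k1,k0,k0,k0],[k0,k2,k0,k0,k0,k0],[k0,k3,k0,k0,
    k0,k0],[k0,k0,k0,k0,k2,k0]]
    [.contra [y2,z1],.ref k2 k0 [(z2,[z1]),(z2,[y3,z2]),(z1,[z0,z0,z1])],.contra [z1,y1,y2,z2],.ref k1 k0 [(z1,[y3,
    z2]),(z1,[z3,y1]),(z1,[z0,z0,z1])],.contra [z1],.ref k1 k0 [(z1,[y1,z1]),(z1,[z1]),(z1,[z0,z0,z1])],.contra [z1]]),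
    .old (.leafM k12 [k0,k1,k2,k4] [(z1,[z0,z1]),(z1,[y2,y1,y2,z2]),(z1,[z1])] [(k3,k5,z1,[z0,z0,z1]),(k5,k3,z1,[z0,z0,
    z1])]),
    .old (.leafM k11 [k0,k1,k2,k4] [(z1,[z0,z1]),(z1,[y3,y1,y3,z3]),(z1,[z1])] [(k3,k5,z1,[z0,z0,z1]),(k5,k3,z1,[z0,z0,
    z1])]),
    .old (.lp [k14,k10,k6,k8,k8,k32] [k9,k9,k11,k11,k13,k13,k12,k12,k12,k12,k0,k0] k0 [] k40 k6
    [[(k4,k10)],[(k5,k10),(k3,k12)],[(k2,k10),(k0,k12)],[(k5,k8),(k3,k10)],[(k2,k8),(k0,k10)],[(k1,k10)],[(k10,k20)],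
    [(k6,k8),(k8,k8),(k9,k8),(k11,k20)],[(k6,k8),(k8,k8),(k9,k8),(k11,k20)],[(k6,k8),(k8,k8),(k9,k8),(k11,k20)],[(k6,
    k20),(k8,k20),(k9,k20),(k11,k32)],[(k7,k20)]]
    [] k0
    [[k1,k0,k1,k0,k0,k0],[k1,k1,k1,k0,k0,k0],[k0,k2,k0,k0,k0,k0],[k0,k3,k0,k0,k0,k0],[k0,k0,k0,k0,k2,k0],[k0,k0,k0,k0,
    k3,k0],[k0,k0,k0,k0,k4,k0]]
    [.contra [y1,z2],.contra [z1,y1],.contra [z1],.ref k5 k0 [(z1,[z0,z1]),(z1,[z1]),(z1,[z0,y1,y1,z1])],.contra [z1],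
    .ref k3 k0 [(z1,[y1,z3,z3]),(z1,[z0,y1,y1,z1])],.ref k4 k0 [(z1,[z0,z1]),(z2,[y1,z0,z4]),(z1,[z0,y1,y1,z1])]]),
    .old (.lp [k40,k40,k8,k24,k30,k96] [k28,k28,k28,k28,k44,k44,k36,k36,k33,k33,k0,k0] k0 [] k120 k6
    [[(k4,k24)],[(k5,k24),(k3,k40)],[(k0,k40),(k2,k40)],[(k5,k24),(k3,k40)],[(k0,k24),(k2,k24)],[(k1,k24)],[(k10,
    k60)],[(k6,k24),(k8,k27),(k9,k27),(k11,k60)],[(k6,k27),(k8,k30),(k9,k30),(k11,k63)],[(k6,k27),(k8,k30),(k9,k30),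
    (k11,k63)],[(k6,k60),(k8,k63),(k9,k63),(k11,k96)],[(k7,k60)]]
    [] k0
    [[k1,k0,k1,k0,k0,k0],[k2,k0,k2,k0,k0,k0],[k1,k1,k1,k0,k0,k0],[k0,k2,k0,k0,k0,k0],[k0,k0,k0,k0,k2,k0],[k0,k0,k0,k0,
    k3,k0]]
    [.contra [y1,z1],.ref k6 k0 [(z2,[z1]),(z2,[y1,z2])],.contra [y1,z1],.contra [z1],.contra [z1],.ref k3 k0 [(z1,
    [y1,z3]),(z1,[z0,y1,z1])]]),
    .old (.leafM k11 [k3,k4,k5,k1] [(z1,[y3,y1,y3,z3]),(z1,[z0,z1]),(z1,[z0,z0,z1])] [(k0,k2,z1,[z1]),(k2,k0,z1,[z1])]),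
    .old (.leafM k8 [k5,k1,k3,k4] [(z1,[z0,z1]),(z1,[y3,y1,y3,z3]),(z1,[z0,z0,z1])] [(k0,k2,z1,[z1]),(k2,k0,z1,[z1])]),
    .old (.leafM k9 [k5,k1,k3,k4] [(z1,[z0,z1]),(z1,[y2,y1,y2,z2]),(z1,[z0,z0,z1])] [(k0,k2,z1,[z1]),(k2,k0,z1,[z1])]),
    .old (.lp [k32,k8,k8,k8,k10,k12] [k0,k0,k12,k12,k12,k12,k12,k12,k11,k11,k10,k10] k0 [] k40 k6
    [[(k4,k20)],[(k3,k20),(k5,k20)],[(k2,k8),(k0,k20)],[(k3,k8),(k5,k8)],[(k2,k8),(k0,k20)],[(k1,k20)],[(k10,k10)],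
    [(k6,k8),(k8,k9),(k9,k9),(k11,k10)],[(k6,k9),(k8,k10),(k9,k10),(k11,k11)],[(k6,k9),(k8,k10),(k9,k10),(k11,k11)],
    [(k6,k10),(k8,k11),(k9,k11),(k11,k12)],[(k7,k10)]]
    [] k0
    [[k0,k2,k0,k0,k0,k0],[k0,k3,k0,k0,k0,k0],[k0,k4,k0,k0,k0,k0],[k0,k0,k0,k1,k0,k1],[k0,k0,k0,k1,k1,k1],[k0,k0,k0,k0,
    k2,k0],[k0,k0,k0,k0,k3,k0]]
    [.contra [z1],.ref k9 k0 [(z1,[z0,z1]),(z1,[z1]),(z1,[z0,y1,y1,z1])],.ref k10 k0 [(z1,[z0,z1]),(z2,[z1]),(z1,[z0,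
    y1,y1,z1])],.contra [y2,y1,y2,z2],.contra [z1,z1,z1,y1],.contra [z1],.ref k8 k0 [(z1,[z0,z1]),(z1,[y1,z0,z3]),(z1,
    [z0,y1,y1,z1])]]),
    .old (.leafM k10 [k3,k4,k5,k1] [(z1,[y3,y1,y1,z3]),(z1,[z0,z1]),(z1,[z0,z0,z1])] [(k0,k2,z1,[z1]),(k2,k0,z1,[z1])]),
    .old (.lp [k110,k40,k10,k24,k30,k24] [k0,k0,k35,k35,k50,k50,k43,k43,k40,k40,k43,k43] k0 [] k120 k6
    [[(k4,k60)],[(k5,k60),(k3,k75)],[(k2,k40),(k0,k75)],[(k5,k25),(k3,k40)],[(k2,k25),(k0,k60)],[(k1,k60)],[(k10,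
    k24)],[(k6,k24),(k11,k24),(k8,k27),(k9,k27)],[(k6,k27),(k11,k27),(k8,k30),(k9,k30)],[(k6,k27),(k11,k27),(k8,k30),
    (k9,k30)],[(k6,k24),(k11,k24),(k8,k27),(k9,k27)],[(k7,k24)]]
    [] k0
    [[k0,k2,k0,k0,k0,k0],[k0,k0,k0,k1,k0,k1],[k0,k0,k0,k2,k0,k2],[k0,k0,k0,k1,k1,k1],[k0,k0,k0,k1,k2,k1],[k0,k0,k0,k0,
    k2,k0],[k0,k0,k0,k0,k3,k0]]
    [.contra [z1],.contra [y1,y1,z0,z1],.ref k11 k0 [(z1,[z0,z1]),(z2,[y1,y2,z0,z2])],.contra [z1,z1,z1,y1],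
    .ref k12 k0 [(z1,[z0,z1]),(z1,[z0,z0,z1]),(z1,[y3,y6,y2,z6])],.contra [z1],.ref k12 k0 [(z1,[z0,z1]),(z1,[z0,z0,
    z1]),(z1,[y1,y3,y1,z3])]]),
    .old (.lp [k102,k30,k18,k24,k40,k24] [k0,k0,k36,k36,k42,k42,k39,k39,k31,k31,k39,k39] k0 [] k120 k6
    [[(k4,k60)],[(k5,k60),(k3,k66)],[(k2,k30),(k0,k66)],[(k5,k24),(k3,k30)],[(k2,k24),(k0,k60)],[(k1,k60)],[(k10,
    k24)],[(k6,k24),(k11,k24),(k8,k32),(k9,k32)],[(k6,k32),(k11,k32),(k8,k40),(k9,k40)],[(k6,k32),(k11,k32),(k8,k40),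
    (k9,k40)],[(k6,k24),(k11,k24),(k8,k32),(k9,k32)],[(k7,k24)]]
    [] k0
    [[k0,k2,k0,k0,k0,k0],[k0,k3,k0,k0,k0,k0],[k0,k0,k0,k1,k0,k1],[k0,k0,k0,k2,k0,k2],[k0,k0,k0,k1,k1,k1],[k0,k0,k0,k0,
    k2,k0]]
    [.contra [z1],.ref k13 k0 [(z1,[z0,z1]),(z1,[z1])],.contra [y1,y1,z1],.ref k11 k0 [(z1,[z0,z1]),(z2,[y1,y2,z2])],
    .contra [y1,y1,z1],.contra [z1]]),
    .old (.lp [k12,k12,k0,k6,k8,k6] [k0,k0,k0,k0,k6,k6,k3,k3,k2,k2,k3,k3] k0 [] k24 k5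
    [[(k4,k6)],[(k5,k6),(k3,k12)],[(k0,k12),(k2,k12)],[(k5,k6),(k3,k12)],[(k0,k6),(k2,k6)],[(k1,k6)],[(k10,k6)],[(k6,
    k6),(k11,k6),(k8,k7),(k9,k7)],[(k6,k7),(k11,k7),(k8,k8),(k9,k8)],[(k6,k7),(k11,k7),(k8,k8),(k9,k8)],[(k6,k6),(k11,
    k6),(k8,k7),(k9,k7)],[(k7,k6)]]
    [] k0
    [[k1,k0,k1,k0,k0,k0],[k0,k0,k0,k1,k0,k1],[k0,k0,k0,k1,k1,k1],[k0,k0,k0,k0,k2,k0]]
    [.ref k14 k0 [(z1,[z1])],.ref k7 k0 [(z1,[y1,z1])],.ref k0 k0 [(z1,[y1,z1])],.contra [z1]])]⟩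

/-- classes `0 0 1 2 2 1`, types `C0 C0 N0 S0 S0 N2` -/
noncomputable def cU6_1599 : CertX :=
  ⟨[k4,k4,k28,k32,k32,k30],[],[[[]]],
    [.old (.lp [k6,k8,k6,k6,k12,k6] [k3,k3,k2,k2,k3,k3,k3,k3,k0,k0,k3,k3] k0 [] k24 k5
    [[(k7,k6)],[(k5,k6),(k3,k7)],[(k0,k7),(k2,k8)],[(k5,k7),(k3,k8)],[(k0,k6),(k2,k7)],[(k10,k6)],[(k1,k6)],[(k6,k6),
    (k11,k6),(k8,k9),(k9,k9)],[(k6,k9),(k11,k9),(k8,k12),(k9,k12)],[(k6,k9),(k11,k9),(k8,k12),(k9,k12)],[(k6,k6),(k11,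
    k6),(k8,k9),(k9,k9)],[(k4,k6)]]
    [] k0
    [[k0,k2,k0,k0,k0,k0]]
    [.contra [z1]])]⟩

/-- classes `0 0 1 2 2 1`, types `C0 C0 S0 C0 C0 S0` -/
noncomputable def cU6_1600 : CertX :=
  ⟨[k4,k4,k16,k36,k36,k16],[(false,k0,[k0,k1,k2,k3,k4,k5]),(false,k3,[k3,k4,k5,k0,k1,k2])],[[[([z1,z1,z1,z0,z0,z0],
    z2)],[([z1,z0,z1,z0,z0,z0],z1),([z0,z3,z0,z0,z0,z0],z1),([z0,z0,z0,z1,z0,z1],z2)],[([z1,z0,z1,z0,z0,z0],z1),([z0,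
    z2,z0,z0,z0,z0],z1),([z0,z0,z0,z1,z0,z1],z2)],[([z1,z0,z1,z0,z0,z0],z1),([z0,z3,z0,z0,z0,z0],z2),([z0,z0,z0,z1,z0,
    z1],z2)],[([z1,z0,z1,z0,z0,z0],z1),([z0,z1,z0,z0,z1,z0],z1)],[([z3,z0,z3,z0,z0,z0],z2),([z0,z3,z0,z0,z0,z0],z2),
    ([z0,z0,z0,z1,z0,z1],z2)],[([z1,z0,z1,z0,z0,z0],z2),([z0,z3,z0,z0,z0,z0],z2)],[([z1,z0,z1,z0,z0,z0],z2)],[]]],
    [.old (.leafM k0 [k2,k3,k4,k5,k0,k1] [(z1,[y1,z1])] []),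
    .old (.leafM k11 [k2,k4,k0,k1] [(z1,[y3,y1,y3,z3]),(z1,[z0,z1]),(z1,[z1])] [(k3,k5,z1,[z0,z0,z1]),(k5,k3,z1,[z0,z0,
    z1])]),
    .old (.leafM k12 [k0,k1,k2,k4] [(z1,[z0,z1]),(z1,[y2,y1,y2,z2]),(z1,[z1])] [(k3,k5,z1,[z0,z0,z1]),(k5,k3,z1,[z0,z0,
    z1])]),
    .old (.leafM k11 [k0,k1,k2,k4] [(z1,[z0,z1]),(z1,[y3,y1,y3,z3]),(z1,[z1])] [(k3,k5,z1,[z0,z0,z1]),(k5,k3,z1,[z0,z0,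
    z1])]),
    .old (.lp [k12,k10,k8,k8,k8,k32] [k10,k10,k11,k11,k12,k12,k12,k12,k12,k12,k0,k0] k0 [] k40 k6
    [[(k4,k10),(k7,k10),(k1,k12),(k10,k22)],[(k5,k10),(k3,k11)],[(k2,k10),(k0,k11)],[(k5,k9),(k3,k10)],[(k2,k9),(k0,
    k10)],[(k4,k8),(k7,k8),(k1,k10),(k10,k20)],[(k4,k8),(k7,k8),(k1,k10),(k10,k20)],[(k9,k8),(k11,k20)],[(k6,k8),(k8,
    k8)],[(k9,k8),(k11,k20)],[(k6,k20),(k8,k20)],[(k4,k20),(k7,k20),(k1,k22),(k10,k32)]]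
    [] k0
    [[k1,k0,k1,k0,k0,k0],[k1,k1,k1,k0,k0,k0],[k0,k2,k0,k0,k0,k0],[k0,k3,k0,k0,k0,k0],[k0,k0,k0,k0,k2,k0],[k0,k0,k0,k0,
    k3,k0],[k0,k0,k0,k0,k4,k0]]
    [.contra [y1,z2],.contra [z1,y1],.contra [z1],.ref k3 k0 [(z1,[z0,z1]),(z1,[z1]),(z1,[z0,y1,y1,z1])],.contra [z1],
    .ref k1 k0 [(z1,[z0,z1]),(z1,[y1,z0,z3]),(z1,[z0,y1,y1,z1])],.ref k2 k0 [(z1,[z0,z1]),(z2,[y1,z0,z4]),(z1,[z0,y1,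
    y1,z1])]]),
    .old (.leafM k10 [k0,k1,k2,k4] [(z1,[z0,z1]),(z1,[y1,y1,y3,z3]),(z1,[z1])] [(k3,k5,z1,[z0,z0,z1]),(k5,k3,z1,[z0,z0,
    z1])]),
    .old (.lp [k96,k40,k24,k24,k30,k24] [k0,k0,k28,k28,k36,k36,k36,k36,k33,k33,k36,k36] k0 [] k120 k6
    [[(k4,k60),(k7,k60),(k10,k60),(k1,k96)],[(k5,k60),(k3,k68)],[(k2,k40),(k0,k68)],[(k5,k32),(k3,k40)],[(k2,k32),(k0,
    k60)],[(k4,k24),(k7,k24),(k10,k24),(k1,k60)],[(k4,k24),(k7,k24),(k10,k24),(k1,k60)],[(k11,k24),(k9,k27)],[(k6,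
    k27),(k8,k30)],[(k11,k27),(k9,k30)],[(k6,k24),(k8,k27)],[(k4,k24),(k7,k24),(k10,k24),(k1,k60)]]
    [] k0
    [[k0,k2,k0,k0,k0,k0],[k0,k0,k0,k2,k0,k2],[k0,k0,k0,k1,k0,k1],[k0,k0,k0,k1,k1,k1],[k0,k0,k0,k1,k2,k1],[k0,k0,k0,k0,
    k2,k0],[k0,k0,k0,k0,k3,k0]]
    [.contra [z1],.ref k4 k1 [(z2,[z1]),(z2,[y1,y2,z0,z2])],.contra [y1,y1,z0,z1],.contra [z1,z1,z1,y1],
    .ref k5 k1 [(z1,[y3,y6,y2,z6]),(z1,[z3,z3,z1,y3]),(z1,[z0,z1])],.contra [z1],.ref k5 k1 [(z1,[y1,y3,y1,z3]),(z1,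
    [z1]),(z1,[z0,z1])]]),
    .old (.lp [k96,k30,k24,k24,k40,k24] [k0,k0,k33,k33,k36,k36,k36,k36,k28,k28,k36,k36] k0 [] k120 k6
    [[(k4,k60),(k7,k60),(k10,k60),(k1,k96)],[(k5,k60),(k3,k63)],[(k2,k30),(k0,k63)],[(k5,k27),(k3,k30)],[(k2,k27),(k0,
    k60)],[(k4,k24),(k7,k24),(k10,k24),(k1,k60)],[(k4,k24),(k7,k24),(k10,k24),(k1,k60)],[(k11,k24),(k9,k32)],[(k6,
    k32),(k8,k40)],[(k11,k32),(k9,k40)],[(k6,k24),(k8,k32)],[(k4,k24),(k7,k24),(k10,k24),(k1,k60)]]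
    [] k0
    [[k0,k2,k0,k0,k0,k0],[k0,k3,k0,k0,k0,k0],[k0,k0,k0,k2,k0,k2],[k0,k0,k0,k1,k0,k1],[k0,k0,k0,k1,k1,k1],[k0,k0,k0,k0,
    k2,k0]]
    [.contra [z1],.ref k6 k0 [(z1,[z0,z1]),(z1,[z1])],.ref k4 k1 [(z2,[z1]),(z2,[y1,y2,z2])],.contra [y1,y1,z1],
    .contra [y1,y1,z1],.contra [z1]]),
    .old (.lp [k6,k8,k6,k6,k12,k6] [k3,k3,k2,k2,k3,k3,k3,k3,k0,k0,k3,k3] k0 [] k24 k5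
    [[(k1,k6),(k4,k6),(k7,k6),(k10,k6)],[(k5,k6),(k3,k7)],[(k0,k7),(k2,k8)],[(k5,k7),(k3,k8)],[(k0,k6),(k2,k7)],[(k1,
    k6),(k4,k6),(k7,k6),(k10,k6)],[(k1,k6),(k4,k6),(k7,k6),(k10,k6)],[(k11,k6),(k9,k9)],[(k6,k9),(k8,k12)],[(k11,k9),
    (k9,k12)],[(k6,k6),(k8,k9)],[(k1,k6),(k4,k6),(k7,k6),(k10,k6)]]
    [] k0
    [[k1,k0,k1,k0,k0,k0],[k1,k1,k1,k0,k0,k0],[k0,k2,k0,k0,k0,k0],[k0,k0,k0,k1,k0,k1]]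
    [.ref k7 k0 [(z1,[z1])],.ref k0 k0 [(z1,[z1])],.contra [z1],.ref k7 k1 [(z1,[z1])]])]⟩

/-- classes `0 0 1 2 2 1`, types `C0 C0 S0 C0 C2 S0` -/
noncomputable def cU6_1601 : CertX :=
  ⟨[k4,k4,k16,k36,k38,k16],[(false,k0,[k0,k1,k2,k3,k4,k5])],[[[([z1,z1,z1,z0,z0,z0],z2)],[]]],
    [.old (.leafM k0 [k2,k3,k4,k5,k0,k1] [(z1,[y1,z1])] []),
    .old (.lp [k138,k116,k84,k174,k0,k174] [k18,k18,k29,k29,k45,k45,k0,k0,k87,k87,k0,k0] k36 [[],[],[],[],[],[k0,k0,k0,k0,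
    k0,k0,k0,k0,k0,k0,k0,k90],[],[],[],[],[k0,k0,k0,k0,k90]] (nat_lit 240) k6
    [[(k1,k102),(k7,k120),(k10,k120),(k4,k165)],[(k5,k75),(k3,k91)],[(k2,k80),(k0,k91)],[(k5,k64),(k3,k80)],[(k2,k64),
    (k0,k75)],[(k4,k48),(k7,k93),(k10,k93),(k1,k165)],[(k10,k48),(k4,k93),(k1,k120),(k7,k138)],[(k8,k51),(k9,k51)],
    [(k6,k51),(k11,k51)],[(k6,k51),(k11,k51)],[(k8,k51),(k9,k51)],[(k7,k48),(k4,k93),(k1,k120),(k10,k138)]]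
    [] k0
    [[k0,k2,k0,k0,k0,k0],[k0,k0,k0,k1,k1,k1]]
    [.contra [z1],.ref k0 k0 [(z1,[y1,z1])]])]⟩

/-- classes `0 0 1 2 2 1`, types `C0 C0 S0 N0 N1 S0` -/
noncomputable def cU6_1602 : CertX :=
  ⟨[k4,k4,k16,k44,k45,k16],[(false,k0,[k0,k1,k2,k3,k4,k5])],[[[([z3,z0,z3,z0,z0,z0],z2),([z0,z3,z0,z0,z0,z0],z2),([z0,
    z0,z0,z1,z0,z1],z2)],[([z1,z0,z1,z0,z0,z0],z1),([z0,z3,z0,z0,z0,z0],z1),([z0,z0,z0,z1,z0,z1],z2)],[([z3,z3,z3,z0,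
    z0,z0],z4),([z0,z0,z0,z1,z0,z1],z2)],[([z1,z0,z1,z0,z0,z0],z1),([z0,z2,z0,z0,z0,z0],z1),([z0,z0,z0,z1,z0,z1],z2)],
    [([z1,z0,z1,z0,z0,z0],z1),([z0,z3,z0,z0,z0,z0],z2),([z0,z0,z0,z1,z0,z1],z2)],[([z1,z0,z1,z0,z0,z0],z1),([z0,z1,z0,
    z0,z1,z0],z1)],[([z1,z1,z1,z0,z1,z0],z2)],[([z1,z0,z1,z0,z0,z0],z2),([z0,z3,z0,z0,z0,z0],z1),([z0,z0,z0,z1,z0,z1],
    z1)],[([z1,z0,z1,z0,z0,z0],z2),([z0,z3,z0,z0,z0,z0],z2),([z0,z0,z0,z3,z0,z3],z2)],[([z1,z0,z1,z0,z0,z0],z2),([z0,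
    z3,z0,z3,z0,z3],z4)],[([z1,z0,z1,z0,z0,z0],z2),([z0,z2,z0,z0,z0,z0],z1),([z0,z0,z0,z1,z0,z1],z1)],[([z1,z0,z1,z0,
    z0,z0],z2),([z0,z3,z0,z0,z0,z0],z2),([z0,z0,z0,z1,z0,z1],z1)]],[[([z1,z0,z1,z0,z0,z0],z2),([z0,z1,z0,z0,z1,z0],
    z1)],[([z1,z0,z1,z0,z0,z0],z2)],[]]],
    [.old (.leafM k10 [k0,k1,k2,k4] [(z1,[z0,z1]),(z1,[y1,y1,y3,z3]),(z1,[z1])] [(k3,k5,z1,[z0,z0,z1]),(k5,k3,z1,[z0,z0,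
    z1])]),
    .old (.leafM k11 [k2,k4,k0,k1] [(z1,[y3,y1,y3,z3]),(z1,[z0,z1]),(z1,[z1])] [(k3,k5,z1,[z0,z0,z1]),(k5,k3,z1,[z0,z0,
    z1])]),
    .old (.lp [k24,k30,k24,k24,k40,k96] [k36,k36,k33,k33,k36,k36,k36,k36,k28,k28,k0,k0] k0 [] k120 k6
    [[(k1,k24),(k4,k24),(k7,k24),(k10,k60)],[(k5,k24),(k3,k27)],[(k0,k27),(k2,k30)],[(k5,k27),(k3,k30)],[(k0,k24),(k2,
    k27)],[(k1,k24),(k4,k24),(k7,k24),(k10,k60)],[(k1,k24),(k4,k24),(k7,k24),(k10,k60)],[(k11,k60)],[(k8,k40)],[(k9,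
    k40)],[(k6,k60)],[(k1,k60),(k4,k60),(k7,k60),(k10,k96)]]
    [] k0
    [[k2,k0,k2,k0,k0,k0],[k1,k0,k1,k0,k0,k0],[k1,k1,k1,k0,k0,k0],[k1,k2,k1,k0,k0,k0],[k0,k2,k0,k0,k0,k0],[k0,k3,k0,k0,
    k0,k0],[k0,k0,k0,k0,k2,k0]]
    [.ref k1 k0 [(z2,[z1]),(z2,[y3,z2]),(z1,[z0,z0,z1])],.contra [y2,z1],.contra [z1,y1,y2,z2],.ref k0 k0 [(z1,[y3,
    z2]),(z1,[z3,y1]),(z1,[z0,z0,z1])],.contra [z1],.ref k0 k0 [(z1,[y1,z1]),(z1,[z1]),(z1,[z0,z0,z1])],.contra [z1]]),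
    .old (.leafM k12 [k0,k1,k2,k4] [(z1,[z0,z1]),(z1,[y2,y1,y2,z2]),(z1,[z1])] [(k3,k5,z1,[z0,z0,z1]),(k5,k3,z1,[z0,z0,
    z1])]),
    .old (.leafM k11 [k0,k1,k2,k4] [(z1,[z0,z1]),(z1,[y3,y1,y3,z3]),(z1,[z1])] [(k3,k5,z1,[z0,z0,z1]),(k5,k3,z1,[z0,z0,
    z1])]),
    .old (.lp [k12,k10,k8,k8,k8,k32] [k10,k10,k11,k11,k12,k12,k12,k12,k12,k12,k0,k0] k0 [] k40 k6
    [[(k4,k10),(k7,k10),(k1,k12),(k10,k22)],[(k5,k10),(k3,k11)],[(k2,k10),(k0,k11)],[(k5,k9),(k3,k10)],[(k2,k9),(k0,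
    k10)],[(k4,k8),(k7,k8),(k1,k10),(k10,k20)],[(k4,k8),(k7,k8),(k1,k10),(k10,k20)],[(k11,k20)],[(k8,k8)],[(k9,k8)],
    [(k6,k20)],[(k4,k20),(k7,k20),(k1,k22),(k10,k32)]]
    [] k0
    [[k1,k0,k1,k0,k0,k0],[k1,k1,k1,k0,k0,k0],[k0,k2,k0,k0,k0,k0],[k0,k3,k0,k0,k0,k0],[k0,k0,k0,k0,k2,k0],[k0,k0,k0,k0,
    k3,k0],[k0,k0,k0,k0,k4,k0]]
    [.contra [y1,z2],.contra [z1,y1],.contra [z1],.ref k4 k0 [(z1,[z0,z1]),(z1,[z1]),(z1,[z0,y1,y1,z1])],.contra [z1],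
    .ref k2 k0 [(z1,[y1,z3,z3]),(z1,[z0,y1,y1,z1])],.ref k3 k0 [(z1,[z0,z1]),(z2,[y1,z0,z4]),(z1,[z0,y1,y1,z1])]]),
    .old (.lp [k24,k40,k24,k24,k30,k96] [k36,k36,k28,k28,k36,k36,k36,k36,k33,k33,k0,k0] k0 [] k120 k6
    [[(k1,k24),(k4,k24),(k7,k24),(k10,k60)],[(k5,k24),(k3,k32)],[(k0,k32),(k2,k40)],[(k5,k32),(k3,k40)],[(k0,k24),(k2,
    k32)],[(k1,k24),(k4,k24),(k7,k24),(k10,k60)],[(k1,k24),(k4,k24),(k7,k24),(k10,k60)],[(k11,k60)],[(k8,k30)],[(k9,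
    k30)],[(k6,k60)],[(k1,k60),(k4,k60),(k7,k60),(k10,k96)]]
    [] k0
    [[k2,k0,k2,k0,k0,k0],[k1,k0,k1,k0,k0,k0],[k1,k1,k1,k0,k0,k0],[k0,k2,k0,k0,k0,k0],[k0,k0,k0,k0,k2,k0],[k0,k0,k0,k0,
    k3,k0]]
    [.ref k5 k0 [(z2,[z1]),(z2,[y1,z2])],.contra [y1,z1],.contra [y1,z1],.contra [z1],.contra [z1],.ref k2 k0 [(z1,
    [y1,z3]),(z1,[z0,y1,z1])]]),
    .old (.leafM k11 [k3,k4,k5,k1] [(z1,[y3,y1,y3,z3]),(z1,[z0,z1]),(z1,[z0,z0,z1])] [(k0,k2,z1,[z1]),(k2,k0,z1,[z1])]),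
    .old (.leafM k10 [k3,k4,k5,k1] [(z1,[y3,y1,y1,z3]),(z1,[z0,z1]),(z1,[z0,z0,z1])] [(k0,k2,z1,[z1]),(k2,k0,z1,[z1])]),
    .old (.lp [k96,k30,k24,k24,k40,k24] [k0,k0,k33,k33,k36,k36,k36,k36,k28,k28,k36,k36] k0 [] k120 k6
    [[(k4,k60),(k7,k60),(k10,k60),(k1,k96)],[(k5,k60),(k3,k63)],[(k2,k30),(k0,k63)],[(k5,k27),(k3,k30)],[(k2,k27),(k0,
    k60)],[(k4,k24),(k7,k24),(k10,k24),(k1,k60)],[(k4,k24),(k7,k24),(k10,k24),(k1,k60)],[(k11,k24)],[(k8,k40)],[(k9,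
    k40)],[(k6,k24)],[(k4,k24),(k7,k24),(k10,k24),(k1,k60)]]
    [] k0
    [[k0,k2,k0,k0,k0,k0],[k0,k3,k0,k0,k0,k0],[k0,k0,k0,k2,k0,k2],[k0,k0,k0,k1,k0,k1],[k0,k0,k0,k0,k2,k0]]
    [.contra [z1],.ref k8 k0 [(z1,[z0,z1]),(z1,[z1]),(z1,[y1,z0,z1])],.ref k7 k0 [(z1,[z0,z1]),(z2,[y3,z0,z2]),(z2,
    [z1])],.contra [y3,z1,z1],.contra [z1]]),
    .old (.leafM k12 [k3,k4,k5,k1] [(z1,[y2,y1,y2,z2]),(z1,[z0,z1]),(z1,[z0,z0,z1])] [(k0,k2,z1,[z1]),(k2,k0,z1,[z1])]),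
    .old (.leafM k11 [k5,k1,k3,k4] [(z1,[z0,z1]),(z1,[y3,y1,y3,z3]),(z1,[z0,z0,z1])] [(k0,k2,z1,[z1]),(k2,k0,z1,[z1])]),
    .old (.lp [k32,k10,k8,k8,k8,k12] [k0,k0,k11,k11,k12,k12,k12,k12,k12,k12,k10,k10] k0 [] k40 k6
    [[(k4,k20),(k7,k20),(k10,k22),(k1,k32)],[(k5,k20),(k3,k21)],[(k2,k10),(k0,k21)],[(k5,k9),(k3,k10)],[(k2,k9),(k0,
    k20)],[(k4,k8),(k7,k8),(k10,k10),(k1,k20)],[(k4,k8),(k7,k8),(k10,k10),(k1,k20)],[(k11,k10)],[(k8,k8)],[(k9,k8)],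
    [(k6,k10)],[(k4,k10),(k7,k10),(k10,k12),(k1,k22)]]
    [] k0
    [[k0,k2,k0,k0,k0,k0],[k0,k3,k0,k0,k0,k0],[k0,k0,k0,k1,k0,k1],[k0,k0,k0,k0,k2,k0],[k0,k0,k0,k0,k3,k0],[k0,k0,k0,k0,
    k4,k0]]
    [.contra [z1],.ref k11 k0 [(z1,[z0,z1]),(z1,[z1]),(z1,[z0,y1,y1,z1])],.contra [y2,y1,y2,z2],.contra [z1],
    .ref k9 k0 [(z1,[z0,z1]),(z1,[y1,y3,z0,z3])],.ref k10 k0 [(z1,[z0,z1]),(z2,[y1,z0,z4]),(z1,[z0,y1,y1,z1])]]),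
    .old (.lp [k96,k40,k24,k24,k30,k24] [k0,k0,k28,k28,k36,k36,k36,k36,k33,k33,k36,k36] k0 [] k120 k6
    [[(k4,k60),(k7,k60),(k10,k60),(k1,k96)],[(k5,k60),(k3,k68)],[(k2,k40),(k0,k68)],[(k5,k32),(k3,k40)],[(k2,k32),(k0,
    k60)],[(k4,k24),(k7,k24),(k10,k24),(k1,k60)],[(k4,k24),(k7,k24),(k10,k24),(k1,k60)],[(k11,k24)],[(k8,k30)],[(k9,
    k30)],[(k6,k24)],[(k4,k24),(k7,k24),(k10,k24),(k1,k60)]]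
    [] k0
    [[k0,k2,k0,k0,k0,k0],[k0,k0,k0,k2,k0,k2],[k0,k0,k0,k1,k0,k1],[k0,k0,k0,k0,k2,k0],[k0,k0,k0,k0,k3,k0]]
    [.contra [z1],.ref k12 k0 [(z1,[z0,z1]),(z2,[y1,y2,z2])],.contra [y1,y1,z1],.contra [z1],.ref k9 k0 [(z1,[z0,z1]),
    (z1,[y1,y3,z3])]]),
    .old (.lp [k6,k12,k6,k6,k8,k6] [k3,k3,k0,k0,k3,k3,k3,k3,k2,k2,k3,k3] k0 [] k24 k5
    [[(k1,k6),(k4,k6),(k7,k6),(k10,k6)],[(k5,k6),(k3,k9)],[(k0,k9),(k2,k12)],[(k5,k9),(k3,k12)],[(k0,k6),(k2,k9)],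
    [(k1,k6),(k4,k6),(k7,k6),(k10,k6)],[(k1,k6),(k4,k6),(k7,k6),(k10,k6)],[(k11,k6)],[(k8,k8)],[(k9,k8)],[(k6,k6)],
    [(k1,k6),(k4,k6),(k7,k6),(k10,k6)]]
    [] k0
    [[k1,k0,k1,k0,k0,k0],[k0,k0,k0,k1,k0,k1],[k0,k0,k0,k0,k2,k0]]
    [.ref k13 k0 [(z1,[z1])],.ref k6 k0 [(z1,[y1,z1])],.contra [z1]])]⟩

/-- classes `0 0 1 2 2 1`, types `C0 C0 S0 N0 N2 S0` -/
noncomputable def cU6_1603 : CertX :=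
  ⟨[k4,k4,k16,k44,k46,k16],[(false,k0,[k0,k1,k2,k3,k4,k5])],[[[([z1,z1,z1,z0,z0,z0],z2)],[]]],
    [.old (.leafM k4 [k3,k4,k5,k0,k1,k2] [(z1,[z1])] []),
    .old (.lp [k24,k10,k6,k6,k6,k6] [k0,k0,k7,k7,k9,k9,k9,k9,k9,k9,k9,k9] k0 [] k30 k6
    [[(k4,k15),(k7,k15),(k10,k15),(k1,k24)],[(k5,k15),(k3,k17)],[(k2,k10),(k0,k17)],[(k5,k8),(k3,k10)],[(k2,k8),(k0,
    k15)],[(k4,k6),(k7,k6),(k10,k6),(k1,k15)],[(k4,k6),(k7,k6),(k10,k6),(k1,k15)],[(k8,k6)],[(k11,k6)],[(k6,k6)],[(k9,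
    k6)],[(k4,k6),(k7,k6),(k10,k6),(k1,k15)]]
    [] k0
    [[k0,k2,k0,k0,k0,k0],[k0,k0,k0,k1,k1,k1]]
    [.contra [z1],.ref k0 k0 [(z1,[y1,z1])]])]⟩

/-- classes `0 0 1 2 2 1`, types `C0 C0 S0 S0 S0 S0` -/
noncomputable def cU6_1604 : CertX :=
  ⟨[k4,k4,k16,k32,k32,k16],[(false,k0,[k0,k1,k2,k3,k4,k5])],[[[([z1,z1,z1,z0,z0,z0],z2)],[([z3,z0,z3,z0,z0,z0],z2),
    ([z0,z3,z0,z0,z0,z0],z2),([z0,z0,z0,z1,z0,z1],z2)],[([z1,z0,z1,z0,z0,z0],z1),([z0,z3,z0,z0,z0,z0],z1),([z0,z0,z0,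
    z1,z0,z1],z2)],[([z3,z3,z3,z0,z0,z0],z4),([z0,z0,z0,z1,z0,z1],z2)],[([z1,z0,z1,z0,z0,z0],z1),([z0,z2,z0,z0,z0,z0],
    z1),([z0,z0,z0,z1,z0,z1],z2)],[([z1,z0,z1,z0,z0,z0],z1),([z0,z3,z0,z0,z0,z0],z2),([z0,z0,z0,z1,z0,z1],z2)],[([z1,
    z0,z1,z0,z0,z0],z1),([z0,z1,z0,z0,z1,z0],z1)],[([z1,z1,z1,z0,z1,z0],z2)],[([z1,z0,z1,z0,z0,z0],z2),([z0,z3,z0,z0,
    z0,z0],z1),([z0,z0,z0,z1,z0,z1],z1)],[([z1,z0,z1,z0,z0,z0],z2),([z0,z3,z0,z0,z0,z0],z2),([z0,z0,z0,z1,z0,z1],z1)],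
    [([z1,z0,z1,z0,z0,z0],z2),([z0,z2,z0,z0,z0,z0],z1),([z0,z0,z0,z1,z0,z1],z1)],[([z1,z0,z1,z0,z0,z0],z2),([z0,z1,z0,
    z0,z1,z0],z1)]],[[([z1,z0,z1,z0,z0,z0],z2),([z0,z3,z0,z0,z0,z0],z2),([z0,z0,z0,z3,z0,z3],z2)],[([z1,z0,z1,z0,z0,
    z0],z2),([z0,z3,z0,z0,z0,z0],z2)],[([z1,z0,z1,z0,z0,z0],z2)],[]]],
    [.old (.leafM k0 [k2,k3,k4,k5,k0,k1] [(z1,[y1,z1])] []),
    .old (.leafM k10 [k0,k1,k2,k4] [(z1,[z0,z1]),(z1,[y1,y1,y3,z3]),(z1,[z1])] [(k3,k5,z1,[z0,z0,z1]),(k5,k3,z1,[z0,z0,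
    z1])]),
    .old (.leafM k11 [k2,k4,k0,k1] [(z1,[y3,y1,y3,z3]),(z1,[z0,z1]),(z1,[z1])] [(k3,k5,z1,[z0,z0,z1]),(k5,k3,z1,[z0,z0,
    z1])]),
    .old (.lp [k24,k30,k24,k60,k40,k60] [k18,k18,k15,k15,k18,k18,k0,k0,k10,k10,k0,k0] k0 [] k120 k6
    [[(k1,k24),(k4,k24),(k7,k42),(k10,k42)],[(k5,k24),(k3,k27)],[(k0,k27),(k2,k30)],[(k5,k27),(k3,k30)],[(k0,k24),(k2,
    k27)],[(k1,k24),(k4,k24),(k7,k42),(k10,k42)],[(k1,k42),(k4,k42),(k7,k60),(k10,k60)],[(k8,k50),(k9,k50),(k6,k60),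
    (k11,k60)],[(k8,k40),(k9,k40),(k6,k50),(k11,k50)],[(k8,k40),(k9,k40),(k6,k50),(k11,k50)],[(k8,k50),(k9,k50),(k6,
    k60),(k11,k60)],[(k1,k42),(k4,k42),(k7,k60),(k10,k60)]]
    [] k0
    [[k2,k0,k2,k0,k0,k0],[k1,k0,k1,k0,k0,k0],[k1,k1,k1,k0,k0,k0],[k1,k2,k1,k0,k0,k0],[k0,k2,k0,k0,k0,k0],[k0,k3,k0,k0,
    k0,k0],[k0,k0,k0,k0,k2,k0]]
    [.ref k2 k0 [(z2,[z1]),(z2,[y3,z2]),(z1,[z0,z0,z1])],.contra [y2,z1],.contra [z1,y1,y2,z2],.ref k1 k0 [(z1,[y3,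
    z2]),(z1,[z3,y1]),(z1,[z0,z0,z1])],.contra [z1],.ref k1 k0 [(z1,[y1,z1]),(z1,[z1]),(z1,[z0,z0,z1])],.contra [z1]]),
    .old (.leafM k12 [k0,k1,k2,k4] [(z1,[z0,z1]),(z1,[y2,y1,y2,z2]),(z1,[z1])] [(k3,k5,z1,[z0,z0,z1]),(k5,k3,z1,[z0,z0,
    z1])]),
    .old (.leafM k11 [k0,k1,k2,k4] [(z1,[z0,z1]),(z1,[y3,y1,y3,z3]),(z1,[z1])] [(k3,k5,z1,[z0,z0,z1]),(k5,k3,z1,[z0,z0,
    z1])]),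
    .old (.lp [k8,k10,k12,k20,k8,k20] [k6,k6,k5,k5,k4,k4,k0,k0,k6,k6,k0,k0] k0 [] k40 k6
    [[(k1,k8),(k4,k10),(k7,k14),(k10,k14)],[(k3,k9),(k5,k10)],[(k0,k9),(k2,k10)],[(k3,k10),(k5,k11)],[(k0,k10),(k2,
    k11)],[(k1,k10),(k4,k12),(k7,k16),(k10,k16)],[(k1,k14),(k4,k16),(k7,k20),(k10,k20)],[(k8,k14),(k9,k14),(k6,k20),
    (k11,k20)],[(k8,k8),(k9,k8),(k6,k14),(k11,k14)],[(k8,k8),(k9,k8),(k6,k14),(k11,k14)],[(k8,k14),(k9,k14),(k6,k20),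
    (k11,k20)],[(k1,k14),(k4,k16),(k7,k20),(k10,k20)]]
    [] k0
    [[k1,k0,k1,k0,k0,k0],[k1,k1,k1,k0,k0,k0],[k0,k2,k0,k0,k0,k0],[k0,k3,k0,k0,k0,k0],[k0,k0,k0,k0,k2,k0],[k0,k0,k0,k0,
    k3,k0],[k0,k0,k0,k0,k4,k0]]
    [.contra [y1,z2],.contra [z1,y1],.contra [z1],.ref k5 k0 [(z1,[z0,z1]),(z1,[z1]),(z1,[z0,y1,y1,z1])],.contra [z1],
    .ref k3 k0 [(z1,[y1,z3,z3]),(z1,[z0,y1,y1,z1])],.ref k4 k0 [(z1,[z0,z1]),(z2,[y1,z0,z4]),(z1,[z0,y1,y1,z1])]]),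
    .old (.lp [k24,k40,k24,k60,k30,k60] [k18,k18,k10,k10,k18,k18,k0,k0,k15,k15,k0,k0] k0 [] k120 k6
    [[(k1,k24),(k4,k24),(k7,k42),(k10,k42)],[(k5,k24),(k3,k32)],[(k0,k32),(k2,k40)],[(k5,k32),(k3,k40)],[(k0,k24),(k2,
    k32)],[(k1,k24),(k4,k24),(k7,k42),(k10,k42)],[(k1,k42),(k4,k42),(k7,k60),(k10,k60)],[(k8,k45),(k9,k45),(k6,k60),
    (k11,k60)],[(k8,k30),(k9,k30),(k6,k45),(k11,k45)],[(k8,k30),(k9,k30),(k6,k45),(k11,k45)],[(k8,k45),(k9,k45),(k6,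
    k60),(k11,k60)],[(k1,k42),(k4,k42),(k7,k60),(k10,k60)]]
    [] k0
    [[k2,k0,k2,k0,k0,k0],[k1,k0,k1,k0,k0,k0],[k1,k1,k1,k0,k0,k0],[k0,k2,k0,k0,k0,k0],[k0,k0,k0,k0,k2,k0],[k0,k0,k0,k0,
    k3,k0]]
    [.ref k6 k0 [(z2,[z1]),(z2,[y1,z2])],.contra [y1,z1],.contra [y1,z1],.contra [z1],.contra [z1],.ref k3 k0 [(z1,
    [y1,z3]),(z1,[z0,y1,z1])]]),
    .old (.leafM k11 [k3,k4,k5,k1] [(z1,[y3,y1,y3,z3]),(z1,[z0,z1]),(z1,[z0,z0,z1])] [(k0,k2,z1,[z1]),(k2,k0,z1,[z1])]),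
    .old (.leafM k8 [k5,k1,k3,k4] [(z1,[z0,z1]),(z1,[y3,y1,y3,z3]),(z1,[z0,z0,z1])] [(k0,k2,z1,[z1]),(k2,k0,z1,[z1])]),
    .old (.leafM k9 [k5,k1,k3,k4] [(z1,[z0,z1]),(z1,[y2,y1,y2,z2]),(z1,[z0,z0,z1])] [(k0,k2,z1,[z1]),(k2,k0,z1,[z1])]),
    .old (.lp [k168,k168,(nat_lit 252),(nat_lit 420),(nat_lit 210),(nat_lit 420)] [(nat_lit 246),(nat_lit 246),
    (nat_lit 246),(nat_lit 246),(nat_lit 204),(nat_lit 204),(nat_lit 240),k0,(nat_lit 225),(nat_lit 225),k50,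
    k190] k0 [[],[],[],[],[],[k0,k0,k0,k0,k0,k0,k0,k0,k0,k0,k0,(nat_lit 420)],[],[],[],[],[k0,k0,k0,k0,
    (nat_lit 420)]] (nat_lit 840) k6
    [[(k1,k168),(k10,(nat_lit 364)),(k7,(nat_lit 414)),(k4,(nat_lit 630))],[(k3,k168),(k5,(nat_lit 210))],[(k0,k168),
    (k2,k168)],[(k3,k168),(k5,(nat_lit 210))],[(k0,(nat_lit 210)),(k2,(nat_lit 210))],[(k4,(nat_lit 252)),(k10,
    (nat_lit 406)),(k7,(nat_lit 456)),(k1,(nat_lit 630))],[(k10,k190),(k1,(nat_lit 414)),(k4,(nat_lit 456)),(k7,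
    (nat_lit 660))],[(k6,k180),(k8,k195),(k9,k195),(k11,(nat_lit 230))],[(k6,k195),(k8,(nat_lit 210)),(k9,
    (nat_lit 210)),(k11,(nat_lit 245))],[(k6,k195),(k8,(nat_lit 210)),(k9,(nat_lit 210)),(k11,(nat_lit 245))],[(k6,
    (nat_lit 230)),(k8,(nat_lit 245)),(k9,(nat_lit 245)),(k11,(nat_lit 280))],[(k7,k190),(k1,(nat_lit 364)),(k4,
    (nat_lit 406)),(k10,(nat_lit 560))]]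
    [] k0
    [[k0,k2,k0,k0,k0,k0],[k0,k3,k0,k0,k0,k0],[k0,k4,k0,k0,k0,k0],[k0,k0,k0,k1,k0,k1],[k0,k0,k0,k1,k1,k1],[k0,k0,k0,k0,
    k2,k0],[k0,k0,k0,k0,k3,k0]]
    [.contra [z1],.ref k9 k0 [(z1,[z0,z1]),(z1,[z1]),(z1,[z0,y1,y1,z1])],.ref k10 k0 [(z1,[z0,z1]),(z2,[z1]),(z1,[z0,
    y1,y1,z1])],.contra [y2,y1,y2,z2],.contra [z1,z1,z1,y1],.contra [z1],.ref k8 k0 [(z1,[z0,z1]),(z1,[y1,z0,z3]),(z1,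
    [z0,y1,y1,z1])]]),
    .old (.leafM k10 [k3,k4,k5,k1] [(z1,[y3,y1,y1,z3]),(z1,[z0,z1]),(z1,[z0,z0,z1])] [(k0,k2,z1,[z1]),(k2,k0,z1,[z1])]),
    .old (.lp [(nat_lit 7728),(nat_lit 12880),(nat_lit 12880),(nat_lit 14490),(nat_lit 9660),
    (nat_lit 19320)] [(nat_lit 11316),(nat_lit 11316),(nat_lit 8740),(nat_lit 8740),(nat_lit 8740),(nat_lit 8740),
    (nat_lit 11295),(nat_lit 4575),(nat_lit 10350),(nat_lit 10350),k0,(nat_lit 11040)] k0 [[],[],[],[],[],[k0,k0,k0,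
    k0,k0,k0,k0,k0,k0,k0,k0,(nat_lit 18032)],[],[],[],[],[k0,k0,k0,k0,(nat_lit 18032)]] (nat_lit 38640) k6
    [[(k1,(nat_lit 7728)),(k7,(nat_lit 14469)),(k10,(nat_lit 19044)),(k4,(nat_lit 28336))],[(k3,(nat_lit 10304)),(k5,
    (nat_lit 10304))],[(k0,(nat_lit 10304)),(k2,(nat_lit 12880))],[(k3,(nat_lit 12880)),(k5,(nat_lit 12880))],[(k0,
    (nat_lit 10304)),(k2,(nat_lit 12880))],[(k4,(nat_lit 12880)),(k7,(nat_lit 17045)),(k10,(nat_lit 21620)),(k1,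
    (nat_lit 28336))],[(k10,(nat_lit 7753)),(k1,(nat_lit 14469)),(k4,(nat_lit 17045)),(k7,(nat_lit 21210))],[(k6,
    (nat_lit 7770)),(k11,(nat_lit 8025)),(k8,(nat_lit 8715)),(k9,(nat_lit 8715))],[(k6,(nat_lit 8715)),(k11,
    (nat_lit 8970)),(k8,(nat_lit 9660)),(k9,(nat_lit 9660))],[(k6,(nat_lit 8715)),(k11,(nat_lit 8970)),(k8,
    (nat_lit 9660)),(k9,(nat_lit 9660))],[(k6,(nat_lit 8025)),(k11,(nat_lit 8280)),(k8,(nat_lit 8970)),(k9,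
    (nat_lit 8970))],[(k7,(nat_lit 7753)),(k1,(nat_lit 19044)),(k4,(nat_lit 21620)),(k10,(nat_lit 30360))]]
    [] k0
    [[k0,k2,k0,k0,k0,k0],[k0,k0,k0,k2,k0,k0],[k0,k0,k0,k1,k0,k1],[k0,k0,k0,k2,k0,k2],[k0,k0,k0,k1,k1,k1],[k0,k0,k0,k1,
    k2,k1],[k0,k0,k0,k0,k2,k0],[k0,k0,k0,k0,k3,k0]]
    [.contra [z1],.contra [z1],.contra [y1,y1,z0,z1],.ref k11 k0 [(z1,[z0,z1]),(z2,[y1,y2,z0,z2])],.contra [z1,z1,z1,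
    y1],.ref k12 k0 [(z1,[z0,z1]),(z1,[z0,z0,z1]),(z1,[y3,y6,y2,z6])],.contra [z1],.ref k12 k0 [(z1,[z0,z1]),(z1,[z0,
    z0,z1]),(z1,[y1,y3,y1,z3])]]),
    .old (.lp [(nat_lit 2352),(nat_lit 2940),(nat_lit 2450),(nat_lit 5880),(nat_lit 3920),(nat_lit 5880)] [(nat_lit 3528),
    (nat_lit 3528),(nat_lit 3234),(nat_lit 3234),(nat_lit 3479),(nat_lit 3479),(nat_lit 3528),k0,(nat_lit 2744),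
    (nat_lit 2744),k84,(nat_lit 3444)] k0 [[],[],[],[],[],[k0,k0,k0,k0,k0,k0,k0,k0,k0,k0,k0,(nat_lit 6960)],[],[],[],
    [],[k0,k0,k0,k0,(nat_lit 6960)]] (nat_lit 11760) k6
    [[(k1,(nat_lit 2352)),(k10,(nat_lit 5796)),(k7,(nat_lit 5880)),(k4,(nat_lit 9361))],[(k5,(nat_lit 2401)),(k3,
    (nat_lit 2646))],[(k0,(nat_lit 2646)),(k2,(nat_lit 2940))],[(k5,(nat_lit 2695)),(k3,(nat_lit 2940))],[(k0,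
    (nat_lit 2401)),(k2,(nat_lit 2695))],[(k4,(nat_lit 2450)),(k10,(nat_lit 5845)),(k7,(nat_lit 5929)),(k1,
    (nat_lit 9361))],[(k10,(nat_lit 2364)),(k1,(nat_lit 5880)),(k4,(nat_lit 5929)),(k7,(nat_lit 9408))],[(k6,
    (nat_lit 2352)),(k11,(nat_lit 2436)),(k8,(nat_lit 3136)),(k9,(nat_lit 3136))],[(k6,(nat_lit 3136)),(k11,
    (nat_lit 3220)),(k8,(nat_lit 3920)),(k9,(nat_lit 3920))],[(k6,(nat_lit 3136)),(k11,(nat_lit 3220)),(k8,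
    (nat_lit 3920)),(k9,(nat_lit 3920))],[(k6,(nat_lit 2436)),(k11,(nat_lit 2520)),(k8,(nat_lit 3220)),(k9,
    (nat_lit 3220))],[(k7,(nat_lit 2364)),(k1,(nat_lit 5796)),(k4,(nat_lit 5845)),(k10,(nat_lit 9240))]]
    [] k0
    [[k2,k0,k2,k0,k0,k0],[k0,k2,k0,k0,k0,k0],[k0,k3,k0,k0,k0,k0],[k0,k0,k0,k1,k0,k1],[k0,k0,k0,k2,k0,k2],[k0,k0,k0,k1,
    k1,k1],[k0,k0,k0,k0,k2,k0]]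
    [.contra [z1,y1],.contra [z1],.ref k13 k0 [(z1,[z0,z1]),(z1,[z1])],.contra [y1,y1,z1],.ref k11 k0 [(z1,[z0,z1]),
    (z2,[y1,y2,z2])],.contra [y1,y1,z1],.contra [z1]]),
    .old (.lp [k18,k24,k18,k36,k22,k20] [k10,k10,k7,k7,k10,k10,k2,k0,k8,k8,k8,k10] k0 [[],[],[],[],[],[k0,k0,k0,k0,k0,k0,
    k0,k0,k0,k0,k0,k12],[k0,k0,k0,k0,k0,k0,k0,k0,k6,k10],[],[k0,k0,k0,k0,k0,k0,k0,k10],[k0,k0,k0,k0,k0,k0,k0,k6],[k0,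
    k0,k0,k0,k12]] k72 k5
    [[(k1,k18),(k10,k20),(k7,k28),(k4,k30)],[(k5,k18),(k3,k21)],[(k0,k21),(k2,k24)],[(k5,k21),(k3,k24)],[(k0,k18),(k2,
    k21)],[(k4,k18),(k10,k20),(k7,k28),(k1,k30)],[(k10,k18),(k1,k28),(k4,k28),(k7,k38)],[(k8,k18),(k11,k20),(k9,k28),
    (k6,k34)],[(k9,k22),(k6,k28),(k8,k28),(k11,k30)],[(k6,k18),(k11,k20),(k8,k22),(k9,k28)],[(k11,k18),(k6,k20),(k8,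
    k20),(k9,k30)],[(k7,k18),(k1,k20),(k4,k20),(k10,k22)]]
    [] k0
    [[k1,k0,k1,k0,k0,k0],[k0,k2,k0,k0,k0,k0],[k0,k0,k0,k1,k0,k1],[k0,k0,k0,k1,k1,k1],[k0,k0,k0,k0,k2,k0],[k0,k0,k0,k0,
    k0,k2]]
    [.ref k14 k0 [(z1,[z1])],.contra [z1],.ref k7 k0 [(z1,[y1,z1])],.ref k0 k0 [(z1,[y1,z1])],.contra [z1],
    .contra [z1]])]⟩

/-- classes `0 0 1 2 2 1`, types `C0 C2 B0 C0 C2 B1` -/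
noncomputable def cU6_1605 : CertX :=
  ⟨[k4,k6,k24,k36,k38,k25],[(false,k0,[k0,k1,k2,k3,k4,k5])],[[[([z1,z1,z1,z0,z0,z0],z2)],[]]],
    [.old (.leafM k0 [k2,k3,k4,k5,k0,k1] [(z1,[y1,z1])] []),
    .old (.lp [k4,k0,k4,k2,k2,k2] [k0,k0,k2,k2,k0,k0,k1,k1,k1,k1,k1,k1] k0 [] k8 k5
    [[(k7,k3),(k4,k4)],[(k2,k2),(k3,k2)],[(k0,k2),(k5,k2)],[(k0,k2),(k5,k2)],[(k2,k2),(k3,k2)],[(k10,k3),(k1,k4)],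
    [(k10,k2),(k1,k3)],[(k8,k2),(k9,k2)],[(k6,k2),(k11,k2)],[(k6,k2),(k11,k2)],[(k8,k2),(k9,k2)],[(k7,k2),(k4,k3)]]
    [] k0
    [[k0,k0,k0,k1,k1,k1]]
    [.ref k0 k0 [(z1,[y1,z1])]])]⟩

/-- classes `0 0 1 2 2 1`, types `C0 C2 B0 N0 N1 B1` -/
noncomputable def cU6_1606 : CertX :=
  ⟨[k4,k6,k24,k44,k45,k25],[(false,k0,[k0,k1,k2,k3,k4,k5])],[[[([z1,z1,z1,z0,z1,z0],z2)],[]]],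
    [.old (.lp [k6,k6,k6,k24,k10,k6] [k9,k9,k9,k9,k9,k9,k0,k0,k7,k7,k9,k9] k0 [] k30 k6
    [[(k4,k6),(k7,k15)],[(k2,k6),(k3,k6)],[(k0,k6),(k5,k6)],[(k0,k6),(k5,k6)],[(k2,k6),(k3,k6)],[(k1,k6),(k10,k6)],
    [(k1,k15),(k10,k15)],[(k11,k15)],[(k8,k10)],[(k9,k10)],[(k6,k15)],[(k4,k6),(k7,k15)]]
    [] k0
    [[k1,k1,k1,k0,k0,k0],[k0,k0,k0,k0,k2,k0]]
    [.contra [y1,z1],.contra [z1]]),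
    .old (.lp [k6,k0,k6,k6,k4,k0] [k0,k0,k3,k3,k0,k0,k0,k0,k1,k1,k3,k3] k0 [] k12 k5
    [[(k4,k6),(k7,k6)],[(k2,k3),(k3,k3)],[(k0,k3),(k5,k3)],[(k0,k3),(k5,k3)],[(k2,k3),(k3,k3)],[(k10,k3),(k1,k6)],
    [(k10,k3),(k1,k6)],[(k11,k3)],[(k8,k4)],[(k9,k4)],[(k6,k3)],[(k4,k3),(k7,k3)]]
    [] k0
    [[k0,k0,k0,k1,k0,k1],[k0,k0,k0,k0,k2,k0]]
    [.ref k0 k0 [(z1,[y1,z1])],.contra [z1]])]⟩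

/-- classes `0 0 1 2 2 1`, types `C0 C2 B0 N0 N2 B1` -/
noncomputable def cU6_1607 : CertX :=
  ⟨[k4,k6,k24,k44,k46,k25],[(false,k0,[k0,k1,k2,k3,k4,k5])],[[[([z1,z1,z1,z0,z0,z0],z2)],[]]],
    [.old (.leafM k4 [k3,k4,k5,k0,k1,k2] [(z1,[z1])] []),
    .old (.lp [k4,k0,k4,k2,k2,k2] [k0,k0,k2,k2,k0,k0,k1,k1,k1,k1,k1,k1] k0 [] k8 k5
    [[(k7,k3),(k4,k4)],[(k2,k2),(k3,k2)],[(k0,k2),(k5,k2)],[(k0,k2),(k5,k2)],[(k2,k2),(k3,k2)],[(k10,k3),(k1,k4)],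
    [(k10,k2),(k1,k3)],[(k8,k2)],[(k11,k2)],[(k6,k2)],[(k9,k2)],[(k7,k2),(k4,k3)]]
    [] k0
    [[k0,k0,k0,k1,k1,k1]]
    [.ref k0 k0 [(z1,[y1,z1])]])]⟩

/-- classes `0 0 1 2 2 1`, types `C0 C2 B0 S0 S0 B1` -/
noncomputable def cU6_1608 : CertX :=
  ⟨[k4,k6,k24,k32,k32,k25],[(false,k0,[k0,k1,k2,k3,k4,k5])],[[[([z1,z1,z1,z0,z0,z0],z2)],[]]],
    [.old (.leafM k0 [k2,k3,k4,k5,k0,k1] [(z1,[y1,z1])] []),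
    .old (.lp [k6,k6,k6,k6,k10,k24] [k9,k9,k9,k9,k9,k9,k9,k9,k7,k7,k0,k0] k0 [] k30 k6
    [[(k4,k6),(k7,k6)],[(k2,k6),(k3,k6)],[(k0,k6),(k5,k6)],[(k0,k6),(k5,k6)],[(k2,k6),(k3,k6)],[(k1,k6),(k10,k15)],
    [(k1,k6),(k10,k15)],[(k6,k6),(k8,k8),(k9,k8),(k11,k15)],[(k6,k8),(k8,k10),(k9,k10),(k11,k17)],[(k6,k8),(k8,k10),
    (k9,k10),(k11,k17)],[(k6,k15),(k8,k17),(k9,k17),(k11,k24)],[(k4,k15),(k7,k15)]]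
    [] k0
    [[k1,k1,k1,k0,k0,k0],[k0,k0,k0,k0,k2,k0]]
    [.ref k0 k0 [(z1,[z1])],.contra [z1]])]⟩

/-- classes `0 0 1 2 2 1`, types `C0 C2 C0 C0 C2 C0` -/
noncomputable def cU6_1609 : CertX :=
  ⟨[k4,k6,k20,k36,k38,k20],[(false,k0,[k0,k1,k2,k3,k4,k5])],[[[([z1,z1,z1,z0,z0,z0],z2)],[]]],
    [.old (.leafM k0 [k2,k3,k4,k5,k0,k1] [(z1,[y1,z1])] []),
    .old (.lp [k4,k2,k2,k2,k2,k2] [k0,k0,k1,k1,k1,k1,k1,k1,k1,k1,k1,k1] k0 [] k8 k5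
    [[(k4,k3),(k10,k3)],[(k2,k3),(k3,k3)],[(k5,k2),(k0,k3)],[(k5,k2),(k0,k3)],[(k2,k2),(k3,k2)],[(k7,k2),(k1,k3)],
    [(k4,k2),(k10,k2)],[(k8,k2),(k9,k2)],[(k6,k2),(k11,k2)],[(k6,k2),(k11,k2)],[(k8,k2),(k9,k2)],[(k7,k2),(k1,k3)]]
    [] k0
    [[k0,k0,k0,k1,k1,k1]]
    [.ref k0 k0 [(z1,[y1,z1])]])]⟩

/-- classes `0 0 1 2 2 1`, types `C0 C2 C0 C0 C2 C2` -/
noncomputable def cU6_1610 : CertX :=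
  ⟨[k4,k6,k20,k36,k38,k22],[],[[[]]],
    [.old (.lp [k2,k0,k2,k0,k2,k0] [k0,k0,k1,k1,k0,k0,k1,k1,k0,k0,k1,k1] k0 [] k4 k5
    [[(k7,k1),(k10,k1)],[(k2,k1),(k3,k1)],[(k0,k1),(k5,k1)],[(k0,k1),(k5,k1)],[(k2,k1),(k3,k1)],[(k7,k1),(k10,k1)],
    [(k1,k1),(k4,k1)],[(k8,k1),(k9,k1)],[(k6,k1),(k11,k1)],[(k6,k1),(k11,k1)],[(k8,k1),(k9,k1)],[(k1,k1),(k4,k1)]]
    [] k0
    []
    [])]⟩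

/-- classes `0 0 1 2 2 1`, types `C0 C2 C0 N0 N1 C0` -/
noncomputable def cU6_1611 : CertX :=
  ⟨[k4,k6,k20,k44,k45,k20],[(false,k0,[k0,k1,k2,k3,k4,k5])],[[[([z1,z1,z1,z0,z1,z0],z2)],[]]],
    [.old (.lp [k6,k6,k6,k24,k10,k6] [k9,k9,k9,k9,k9,k9,k0,k0,k7,k7,k9,k9] k0 [] k30 k6
    [[(k4,k6),(k10,k6)],[(k2,k6),(k3,k6)],[(k0,k6),(k5,k6)],[(k0,k6),(k5,k6)],[(k2,k6),(k3,k6)],[(k1,k6),(k7,k15)],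
    [(k4,k15),(k10,k15)],[(k11,k15)],[(k8,k10)],[(k9,k10)],[(k6,k15)],[(k1,k6),(k7,k15)]]
    [] k0
    [[k1,k1,k1,k0,k0,k0],[k0,k0,k0,k0,k2,k0]]
    [.contra [y1,z1],.contra [z1]]),
    .old (.lp [k6,k6,k0,k6,k4,k0] [k0,k0,k0,k0,k3,k3,k0,k0,k1,k1,k3,k3] k0 [] k12 k5
    [[(k4,k3),(k10,k3)],[(k2,k6),(k3,k6)],[(k5,k3),(k0,k6)],[(k5,k3),(k0,k6)],[(k2,k3),(k3,k3)],[(k1,k3),(k7,k3)],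
    [(k4,k3),(k10,k3)],[(k11,k3)],[(k8,k4)],[(k9,k4)],[(k6,k3)],[(k1,k3),(k7,k3)]]
    [] k0
    [[k0,k0,k0,k1,k0,k1],[k0,k0,k0,k0,k2,k0]]
    [.ref k0 k0 [(z1,[y1,z1])],.contra [z1]])]⟩

/-- classes `0 0 1 2 2 1`, types `C0 C2 C0 N0 N1 C2` -/
noncomputable def cU6_1612 : CertX :=
  ⟨[k4,k6,k20,k44,k45,k22],[],[[[]]],
    [.old (.lp [k2,k2,k2,k2,k4,k2] [k1,k1,k1,k1,k1,k1,k1,k1,k0,k0,k1,k1] k0 [] k8 k5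
    [[(k7,k2),(k10,k2)],[(k2,k2),(k3,k2)],[(k0,k2),(k5,k2)],[(k0,k2),(k5,k2)],[(k2,k2),(k3,k2)],[(k7,k2),(k10,k2)],
    [(k1,k2),(k4,k2)],[(k11,k2)],[(k8,k4)],[(k9,k4)],[(k6,k2)],[(k1,k2),(k4,k2)]]
    [] k0
    []
    [])]⟩

/-- classes `0 0 1 2 2 1`, types `C0 C2 C0 N0 N2 C0` -/
noncomputable def cU6_1613 : CertX :=
  ⟨[k4,k6,k20,k44,k46,k20],[(false,k0,[k0,k1,k2,k3,k4,k5])],[[[([z1,z1,z1,z0,z0,z0],z2)],[]]],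
    [.old (.leafM k4 [k3,k4,k5,k0,k1,k2] [(z1,[z1])] []),
    .old (.lp [k4,k2,k2,k2,k2,k2] [k0,k0,k1,k1,k1,k1,k1,k1,k1,k1,k1,k1] k0 [] k8 k5
    [[(k4,k3),(k10,k3)],[(k2,k3),(k3,k3)],[(k5,k2),(k0,k3)],[(k5,k2),(k0,k3)],[(k2,k2),(k3,k2)],[(k7,k2),(k1,k3)],
    [(k4,k2),(k10,k2)],[(k8,k2)],[(k11,k2)],[(k6,k2)],[(k9,k2)],[(k7,k2),(k1,k3)]]
    [] k0
    [[k0,k0,k0,k1,k1,k1]]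
    [.ref k0 k0 [(z1,[y1,z1])]])]⟩

/-- classes `0 0 1 2 2 1`, types `C0 C2 C0 N0 N2 C2` -/
noncomputable def cU6_1614 : CertX :=
  ⟨[k4,k6,k20,k44,k46,k22],[],[[[]]],
    [.old (.lp [k2,k0,k2,k0,k2,k0] [k0,k0,k1,k1,k0,k0,k1,k1,k0,k0,k1,k1] k0 [] k4 k5
    [[(k7,k1),(k10,k1)],[(k2,k1),(k3,k1)],[(k0,k1),(k5,k1)],[(k0,k1),(k5,k1)],[(k2,k1),(k3,k1)],[(k7,k1),(k10,k1)],
    [(k1,k1),(k4,k1)],[(k8,k1)],[(k11,k1)],[(k6,k1)],[(k9,k1)],[(k1,k1),(k4,k1)]]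
    [] k0
    []
    [])]⟩

/-- classes `0 0 1 2 2 1`, types `C0 C2 C0 S0 S0 C0` -/
noncomputable def cU6_1615 : CertX :=
  ⟨[k4,k6,k20,k32,k32,k20],[(false,k0,[k0,k1,k2,k3,k4,k5])],[[[([z1,z1,z1,z0,z0,z0],z2)],[]]],
    [.old (.leafM k0 [k2,k3,k4,k5,k0,k1] [(z1,[y1,z1])] []),
    .old (.lp [k6,k6,k6,k6,k10,k24] [k9,k9,k9,k9,k9,k9,k9,k9,k7,k7,k0,k0] k0 [] k30 k6
    [[(k4,k6),(k10,k15)],[(k2,k6),(k3,k6)],[(k0,k6),(k5,k6)],[(k0,k6),(k5,k6)],[(k2,k6),(k3,k6)],[(k1,k6),(k7,k6)],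
    [(k4,k6),(k10,k15)],[(k6,k6),(k8,k8),(k9,k8),(k11,k15)],[(k6,k8),(k8,k10),(k9,k10),(k11,k17)],[(k6,k8),(k8,k10),
    (k9,k10),(k11,k17)],[(k6,k15),(k8,k17),(k9,k17),(k11,k24)],[(k1,k15),(k7,k15)]]
    [] k0
    [[k1,k1,k1,k0,k0,k0],[k0,k0,k0,k0,k2,k0]]
    [.ref k0 k0 [(z1,[z1])],.contra [z1]])]⟩

/-- classes `0 0 1 2 2 1`, types `C0 C2 C0 S0 S0 C2` -/
noncomputable def cU6_1616 : CertX :=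
  ⟨[k4,k6,k20,k32,k32,k22],[],[[[]]],
    [.old (.lp [k2,k2,k2,k2,k4,k2] [k1,k1,k1,k1,k1,k1,k1,k1,k0,k0,k1,k1] k0 [] k8 k5
    [[(k7,k2),(k10,k2)],[(k2,k2),(k3,k2)],[(k0,k2),(k5,k2)],[(k0,k2),(k5,k2)],[(k2,k2),(k3,k2)],[(k7,k2),(k10,k2)],
    [(k1,k2),(k4,k2)],[(k6,k2),(k11,k2),(k8,k3),(k9,k3)],[(k6,k3),(k11,k3),(k8,k4),(k9,k4)],[(k6,k3),(k11,k3),(k8,k4),
    (k9,k4)],[(k6,k2),(k11,k2),(k8,k3),(k9,k3)],[(k1,k2),(k4,k2)]]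
    [] k0
    []
    [])]⟩

/-- the certificates of this file -/
noncomputable def lU6_29 : List CertX :=
  [cU6_1570, cU6_1571, cU6_1572, cU6_1573, cU6_1574, cU6_1575, cU6_1576, cU6_1577, cU6_1578, cU6_1579,
      cU6_1580, cU6_1581, cU6_1582, cU6_1583, cU6_1584, cU6_1585, cU6_1586, cU6_1587, cU6_1588, cU6_1589,
      cU6_1590, cU6_1591, cU6_1592, cU6_1593, cU6_1594, cU6_1595, cU6_1596, cU6_1597, cU6_1598, cU6_1599,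
      cU6_1600, cU6_1601, cU6_1602, cU6_1603, cU6_1604, cU6_1605, cU6_1606, cU6_1607, cU6_1608, cU6_1609,
      cU6_1610, cU6_1611, cU6_1612, cU6_1613, cU6_1614, cU6_1615, cU6_1616]

theorem gU6_29 : allF (chkE 6 ttU6) lU6_29 = true := by
  decide +kernel

end Pool.Agent.Lib_MP_fa6e45
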