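import Pool.Agent.Lib_MP_fa6e45.CXT
import Pool.Agent.Lib_MP_fa6e45.HK

/-!
MP_fa6e45_co, stage 7: certificates (generated by a program).
-/

namespace Pool.Agent.Lib_MP_fa6e45

/-- classes `0 0 0 0 0 0`, types `C0 C0 C0 C0 C0 C0` -/
noncomputable def cU6_3_w : List ℕ := [k4,k4,k4,k4,k4,k4]

/-- symmetries -/
noncomputable def cU6_3_s : List (Bool × ℕ × List ℕ) :=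
  [(false,k3,[k3,k4,k5,k0,k1,k2]),(false,k1,[k1,k2,k3,k4,k5,k0]),(false,k0,[k0,k1,k2,k3,k4,k5]),(true,k2,[k2,k1,k0,k5,
    k4,k3]),(false,k2,[k2,k3,k4,k5,k0,k1]),(true,k4,[k4,k3,k2,k1,k0,k5]),(false,k5,[k5,k0,k1,k2,k3,k4]),(true,k3,[k3,
    k2,k1,k0,k5,k4]),(true,k0,[k0,k5,k4,k3,k2,k1]),(false,k4,[k4,k5,k0,k1,k2,k3]),(true,k1,[k1,k0,k5,k4,k3,k2]),(true,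
    k5,[k5,k4,k3,k2,k1,k0])]

/-- equations of the nodes, part 0 -/
noncomputable def cU6_3_D0 : List (List (List Eqn)) :=
  [[[([z1,z0,z0,z0,z0,z1],z2)],[([z1,z0,z0,z1,z0,z0],z2)],[([z1,z0,z1,z0,z1,z0],z2)],[([z1,z0,z0,z0,z1,z1],z2)],[([z3,
    z0,z0,z0,z0,z0],z2),([z0,z3,z0,z0,z0,z3],z2),([z0,z0,z1,z0,z1,z0],z2)],[([z3,z0,z0,z0,z0,z0],z1),([z0,z1,z0,z0,z0,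
    z1],z1),([z0,z0,z1,z0,z1,z0],z2)],[([z3,z0,z0,z0,z0,y9],y2),([z0,z1,z0,z0,z0,z2],z2),([z0,z0,z3,z0,z0,z0],z2),
    ([z0,z0,z0,z1,z0,y2],z0)],[([z3,z0,z0,z0,z0,y3],y2),([z0,z6,z0,z0,z0,z3],z8),([z0,z0,z3,z0,z0,z0],z2),([z0,z0,z0,
    z6,z0,y3],z4)],[([z3,z0,z0,z0,z0,y6],y2),([z0,z3,z0,z0,z0,z3],z4),([z0,z0,z3,z0,z0,z0],z2),([z0,z0,z0,z3,z0,y3],
    z2)],[([z3,z0,z0,z0,z0,y3],y2),([z0,z1,z0,z0,z0,z3],z4),([z0,z0,z1,z0,z0,y2],y2),([z0,z0,z0,z1,z0,z1],z2)],[([z3,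
    z0,z0,z0,z0,y3],y2),([z0,z1,z0,z0,z0,z2],z2),([z0,z0,z2,z0,z0,y1],z2),([z0,z0,z0,z3,z0,z0],z2)],[([z1,z0,z0,z0,z0,
    y2],y2),([z0,z1,z0,z0,z0,z1],z2),([z0,z0,z3,z0,z0,z0],z2),([z0,z0,z0,z1,z0,y1],z0)]],
    [[([z1,z0,z0,z0,z0,y4],y2),([z0,z1,z0,z0,z0,z2],z2),([z0,z0,z3,z0,z0,z0],z2),([z0,z0,z0,z1,z0,y2],z0)],[([z3,z0,
    z0,z0,z0,z0],z2),([z0,z1,z0,z0,z0,z1],z2),([z0,z0,z1,z0,z0,y2],y2)],[([z3,z0,z0,z0,z0,y6],z4),([z0,z3,z0,z0,z0,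
    z0],z2),([z0,z0,z3,z0,z0,z6],z2),([z0,z0,z0,z3,z0,y3],z2)],[([z3,z0,z0,z0,z0,z0],z1),([z0,z2,z0,z0,z0,z1],z2),
    ([z0,z0,z2,z0,z0,y1],z0),([z0,z0,z0,z1,z0,z1],z2)],[([z3,z0,z0,z0,z0,y3],y2),([z0,z3,z0,z0,z0,z6],z10),([z0,z0,z3,
    z0,z0,z0],z2),([z0,z0,z0,z3,z0,y6],y4)],[([z3,z0,z0,z0,z0,y6],y2),([z0,z1,z0,z0,z0,z3],z2),([z0,z0,z1,z0,z0,y2],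
    z0),([z0,z0,z0,z3,z0,z0],z2)],[([z3,z0,z0,z0,z0,y3],y2),([z0,z1,z0,z0,z0,z2],z2),([z0,z0,z1,z0,z0,y4],y2),([z0,z0,
    z0,z3,z0,z0],z2)],[([z3,z0,z0,z0,z0,y3],y2),([z0,z2,z0,z0,z0,z3],z4),([z0,z0,z2,z0,z0,y1],z0),([z0,z0,z0,z1,z0,
    z1],z2)],[([z3,z0,z0,z0,z0,y3],y2),([z0,z1,z0,z0,z0,z4],z4),([z0,z0,z3,z0,z0,z0],z2),([z0,z0,z0,z1,z0,y4],y2)],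
    [([z1,z0,z0,z0,z0,y2],z0),([z0,z3,z0,z0,z0,z9],z4),([z0,z0,z1,z0,z0,y2],z0),([z0,z0,z0,z3,z0,z0],z2)],[([z9,z0,z0,
    z0,z0,z0],z4),([z0,z9,z0,z0,z0,z0],z10),([z0,z0,z3,z0,z0,z0],z2),([z0,z0,z0,z9,z0,z0],z8)],[([z1,z0,z0,z0,z0,y2],
    z0),([z0,z3,z0,z0,z0,z0],z2),([z0,z0,z1,z0,z0,z2],z2),([z0,z0,z0,z1,z0,y1],z0)]],
    [[([z1,z0,z0,z0,z0,y4],y2),([z0,z3,z0,z0,z0,z15],z10),([z0,z0,z1,z0,z0,y2],z0),([z0,z0,z0,z3,z0,z0],z2)],[([z3,z0,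
    z0,z0,z0,z0],z2),([z0,z1,z0,z0,z0,z1],z2),([z0,z0,z2,z0,z0,y1],z0)],[([z3,z0,z0,z0,z0,z0],z1),([z0,z1,z0,z0,z0,
    z1],z2),([z0,z0,z1,z0,z0,y1],y1),([z0,z0,z0,z1,z0,z1],z2)],[([z1,z0,z0,z0,y1,z0],z0),([z0,z1,z0,z0,z0,z1],z2),
    ([z0,z0,z1,z0,z2,y1],z0)],[([z1,z0,z0,z0,y1,z0],z0),([z0,z3,z0,z0,z0,z0],z2),([z0,z0,z1,z0,z1,z0],z2),([z0,z0,z0,
    z3,z3,z0],z2)],[([z3,z0,z0,z0,z0,y6],y2),([z0,z1,z0,z0,z0,z1],z2),([z0,z0,z3,z0,z0,z0],z2),([z0,z0,z0,z1,z0,y1],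
    z0)],[([z3,z0,z0,z0,z0,y6],y10),([z0,z1,z0,z0,z0,z1],z2),([z0,z0,z3,z0,z0,z3],z8),([z0,z0,z0,z1,z0,z1],z2)],[([z3,
    z0,z0,z0,z0,y6],y2),([z0,z3,z0,z0,z0,z0],z2),([z0,z0,z3,z0,z0,z6],z8),([z0,z0,z0,z1,z0,z3],z2)],[([z3,z0,z0,z0,z0,
    y3],y2),([z0,z1,z0,z0,z0,z2],z2),([z0,z0,z3,z0,z0,y3],y2),([z0,z0,z0,z3,z0,z0],z2)],[([z1,z0,z0,z0,z0,y2],z0),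
    ([z0,z3,z0,z0,z0,z0],z2),([z0,z0,z1,z0,z0,z2],z2),([z0,z0,z0,z3,z0,y3],y2)],[([z3,z0,z0,z0,z0,y6],y2),([z0,z1,z0,
    z0,z0,z3],z2),([z0,z0,z3,z0,z0,y6],y2),([z0,z0,z0,z3,z0,z0],z2)],[([z2,z0,z0,z0,z0,z0],z1),([z0,z1,z0,z0,z0,z1],
    z2),([z0,z0,z6,z0,z0,y6],y7),([z0,z0,z0,z1,z0,z1],z2)]],
    [[([z1,z0,z0,z0,z0,y2],z0),([z0,z3,z0,z0,z0,z0],z2),([z0,z0,z1,z0,z0,z2],z2),([z0,z0,z0,z3,z0,z9],z4)],[([z1,z0,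
    z0,z0,z0,y2],y2),([z0,z1,z0,z0,z0,z1],z2),([z0,z0,z3,z0,z0,z3],z4),([z0,z0,z0,z1,z0,z1],z2)],[([z1,z0,z0,z0,y1,
    z0],z0),([z0,z3,z0,z0,z0,z0],z2),([z0,z0,z1,z0,z1,z0],z2)],[([z3,z0,z0,z0,z0,y6],y4),([z0,z3,z0,z0,z0,z0],z2),
    ([z0,z0,z3,z0,z0,z6],z10),([z0,z0,z0,z1,z0,z2],z2)],[([z1,z0,z0,z0,y2,z0],z0),([z0,z3,z0,z0,z0,z0],z2),([z0,z0,z1,
    z0,z2,z0],z2),([z0,z0,z0,z3,z3,z0],z2)],[([z3,z0,z0,z0,z0,y3],y2),([z0,z1,z0,z0,z0,z2],z2),([z0,z0,z3,z0,z0,y6],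
    y4),([z0,z0,z0,z3,z0,z0],z2)],[([z3,z0,z0,z0,z0,z0],z2),([z0,z2,z0,z0,z0,z1],z2),([z0,z0,z6,z0,z0,y3],y2),([z0,z0,
    z0,z1,z0,z1],z2)],[([z1,z0,z0,z0,z0,y2],z0),([z0,z3,z0,z0,z0,z0],z2),([z0,z0,z1,z0,z0,z2],z2),([z0,z0,z0,z3,z0,
    z6],z4)],[([z9,z0,z0,z0,z0,z0],z4),([z0,z9,z0,z0,z0,z9],z8),([z0,z0,z9,z0,z0,z0],z8),([z0,z0,z0,z3,z0,z0],z2)],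
    [([z5,z0,z0,z0,z0,z0],z2),([z0,z15,z0,z0,z0,z15],z14),([z0,z0,z5,z0,z0,z0],z4),([z0,z0,z0,z3,z0,z0],z2)],[([z1,z0,
    z0,z0,y2,z0],z0),([z0,z3,z0,z0,z0,z0],z2),([z0,z0,z1,z0,z2,z0],z2)],[([z9,z0,z0,z0,z0,z0],z2),([z0,z9,z0,z0,z0,
    z0],z8),([z0,z0,z9,z0,z0,z0],z2),([z0,z0,z0,z1,z0,z1],z2)]],
    [[([z3,z0,z0,z0,z0,y6],z2),([z0,z3,z0,z0,z0,z0],z2),([z0,z0,z3,z0,z0,z6],z4),([z0,z0,z0,z3,z0,z6],z2)],[([z3,z0,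
    z0,z0,z0,y3],y2),([z0,z3,z0,z0,z0,z3],z4),([z0,z0,z3,z0,z0,z0],z2),([z0,z0,z0,z3,z0,y3],z2)],[([z3,z0,z0,z0,z0,
    y6],y2),([z0,z3,z0,z0,z0,z3],z4),([z0,z0,z3,z0,z0,z3],z2),([z0,z0,z0,z1,z0,z1],z2)],[([z3,z0,z0,z0,z0,y3],y2),
    ([z0,z1,z0,z1,z0,z0],z2),([z0,z0,z3,z0,z0,z0],z2)],[([z3,z0,z0,z0,z0,y6],z2),([z0,z3,z0,z0,z0,z0],z2),([z0,z0,z3,
    z0,z0,z6],z4),([z0,z0,z0,z3,z0,y3],z2)],[([z3,z0,z0,z0,y3,z0],y2),([z0,z3,z0,z0,z3,z0],z4),([z0,z0,z1,z0,z1,z0],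
    z2),([z0,z0,z0,z3,z0,z0],z2)],[([z3,z0,z0,z0,z0,y6],y2),([z0,z3,z0,z0,z0,z0],z2),([z0,z0,z3,z0,z0,z6],z8),([z0,z0,
    z0,z3,z0,y3],y2)],[([z3,z0,z0,z0,z0,z0],z1),([z0,z3,z0,z0,z0,z3],z4),([z0,z0,z3,z0,z0,y3],y1),([z0,z0,z0,z1,z0,
    z1],z2)],[([z3,z0,z0,z0,y3,z0],y2),([z0,z1,z0,z0,z1,z1],z2),([z0,z0,z1,z0,z1,z0],z2)],[([z3,z0,z0,z0,z0,y6],y2),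
    ([z0,z3,z0,z0,z0,z3],z2),([z0,z0,z3,z0,z0,z3],z4),([z0,z0,z0,z1,z0,z1],z2)],[([z3,z0,z0,z0,z0,y3],y2),([z0,z1,z0,
    z0,z0,z2],z2),([z0,z0,z1,z0,z0,y3],y2),([z0,z0,z0,z3,z0,z0],z2)],[([z3,z0,z0,z0,z0,y3],y2),([z0,z1,z0,z0,z0,z2],
    z2),([z0,z0,z1,z0,z1,z0],z2)]],
    [[([z1,z0,z0,z0,y1,y1],z0),([z0,z3,z0,z0,z0,z0],z2),([z0,z0,z1,z0,z1,z1],z2)],[([z1,z0,z0,z0,y2,z0],y2),([z0,z3,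
    z0,z0,z6,z3],z10),([z0,z0,z1,z0,z1,z0],z2)],[([z3,z0,z0,z0,z0,z0],z2),([z0,z1,z0,z0,z0,z1],z2)],[([z1,z0,z0,z0,y1,
    y1],z0),([z0,z2,z0,z0,z1,z1],z2),([z0,z0,z1,z0,z1,z1],z2)],[([z1,z0,z0,z0,y2,z0],z0),([z0,z1,z0,z0,y1,z0],z0),
    ([z0,z0,z1,z0,z2,z0],z2)],[([z3,z0,z0,z0,y6,z0],z2),([z0,z3,z0,z0,z3,z0],z2),([z0,z0,z3,z0,z6,z0],z4),([z0,z0,z0,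
    z3,z0,z0],z2)],[([z1,z0,z0,z0,z0,y3],y2),([z0,z1,z0,z0,z0,z2],z2),([z0,z0,z2,z0,z0,z3],z4),([z0,z0,z0,z1,z0,z1],
    z2)],[([z1,z0,z0,z0,z0,y2],z0),([z0,z1,z0,z0,z0,z6],z2),([z0,z0,z1,z0,z0,y2],z0),([z0,z0,z0,z1,z0,y3],z0)],[([z1,
    z0,z0,z0,y2,z2],z2),([z0,z1,z0,z0,z1,y1],z0),([z0,z0,z1,z0,z2,y2],z0)],[([z1,z0,z0,z0,z0,y6],y4),([z0,z1,z0,z0,z0,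
    y3],y2),([z0,z0,z1,z0,z0,z6],z6),([z0,z0,z0,z1,z0,z2],z2)],[([z1,z0,z0,z0,z0,y2],z0),([z0,z1,z0,z0,z0,z4],z2),
    ([z0,z0,z1,z0,z0,z5],z2),([z0,z0,z0,z1,z0,y8],y2)],[([z1,z0,z0,z0,z0,y4],y2),([z0,z1,z0,z0,z0,y2],y1),([z0,z0,z1,
    z0,z0,z4],z4),([z0,z0,z0,z1,z0,z2],z2)]],
    [[([z1,z0,z0,z0,z0,y4],y2),([z0,z1,z0,z0,z0,y6],y2),([z0,z0,z1,z0,z0,z3],z2),([z0,z0,z0,z1,z0,z6],z4)],[([z5,z0,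
    z0,z0,y10,z0],z2),([z0,z5,z0,z0,z5,z0],z4),([z0,z0,z5,z0,z10,z0],z8),([z0,z0,z0,z5,z0,z0],z4)],[([z3,z0,z0,z0,z0,
    y6],y4),([z0,z3,z0,z0,z0,y3],y2),([z0,z0,z3,z0,z0,z6],z10),([z0,z0,z0,z1,z0,z2],z2)],[([z1,z0,z0,z0,z0,y4],y2),
    ([z0,z1,z0,z0,z0,z2],z2),([z0,z0,z1,z0,z0,y6],y2),([z0,z0,z0,z1,z0,z3],z2)],[([z1,z0,z0,z0,z0,y6],y4),([z0,z1,z0,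
    z0,z0,z2],z2),([z0,z0,z1,z0,z0,y10],y6),([z0,z0,z0,z1,z0,z5],z4)],[([z2,z0,z0,z0,y4,z0],z1),([z0,z4,z0,z0,z4,z0],
    z3),([z0,z0,z2,z0,z4,z0],z3),([z0,z0,z0,z4,z0,z0],z3)],[([z1,z0,z0,z0,y2,y1],z0),([z0,z2,z0,z0,z2,z1],z2),([z0,z0,
    z1,z0,z2,z1],z2)],[([z3,z0,z0,z0,z0,z0],z1),([z0,z1,z0,z0,z0,z1],z2),([z0,z0,z1,z0,z1,z0],z1)],[([z1,z0,z0,z0,z0,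
    y4],y2),([z0,z1,z0,z0,z0,z2],z2),([z0,z0,z1,z0,z0,z4],z4),([z0,z0,z0,z1,z0,z1],z1)],[([z1,z0,z0,z0,z0,y3],y1),
    ([z0,z1,z0,z0,z0,y2],z0),([z0,z0,z1,z0,z0,z1],z1),([z0,z0,z0,z1,z0,z2],z2)],[([z1,z0,z0,z0,y2,z0],z0),([z0,z1,z0,
    z0,z1,z0],z1),([z0,z0,z1,z0,z2,z0],z2)],[([z1,z0,z0,z0,z0,y2],y2),([z0,z1,z0,z0,z0,z1],z2),([z0,z0,z2,z0,z0,z3],
    z4),([z0,z0,z0,z1,z0,z1],z2)]],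
    [[([z1,z0,z0,z0,z0,y4],y2),([z0,z1,z0,z0,z0,z3],z2),([z0,z0,z1,z0,z0,y4],y2),([z0,z0,z0,z1,z0,z2],z2)],[([z1,z0,
    z0,z0,z0,y2],z0),([z0,z2,z0,z0,z0,z0],z1),([z0,z0,z1,z0,z0,z2],z2),([z0,z0,z0,z2,z0,y2],y1)],[([z1,z0,z0,z0,z0,
    y2],z0),([z0,z1,z0,z0,z0,z1],z1),([z0,z0,z1,z0,z0,z2],z2),([z0,z0,z0,z1,z0,y2],y1)],[([z2,z0,z0,z0,z0,y5],y2),
    ([z0,z1,z0,z0,z0,z1],z2),([z0,z0,z2,z0,z0,z1],z2),([z0,z0,z0,z1,z0,y1],z0)],[([z2,z0,z0,z0,z0,z0],z1),([z0,z4,z0,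
    z0,z0,z0],z3),([z0,z0,z2,z0,z0,z0],z3),([z0,z0,z0,z4,z0,z4],z3)],[([z1,z0,z0,z0,y1,z0],z0),([z0,z2,z0,z0,z1,z0],
    z2),([z0,z0,z1,z0,z1,z0],z2)],[([z1,z0,z0,z0,z0,y3],y2),([z0,z2,z0,z0,z0,z3],z4),([z0,z0,z1,z0,z0,z2],z2),([z0,z0,
    z0,z1,z0,z1],z2)],[([z1,z0,z0,z0,z0,y2],z0),([z0,z1,z0,z2,z0,z2],z2),([z0,z0,z1,y1,z0,y1],z0)],[([z2,z0,z0,z0,y3,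
    z2],z0),([z0,z1,z0,z0,z2,z0],z2),([z0,z0,z1,z0,z1,z0],z2)],[([z1,z0,z0,z0,z0,y6],y4),([z0,z1,z0,z0,z0,z5],z4),
    ([z0,z0,z1,z0,z0,y4],y2),([z0,z0,z0,z1,z0,z2],z2)],[([z1,z0,z0,z0,z0,y2],z0),([z0,z2,z0,z0,z0,z1],z2),([z0,z0,z1,
    z0,z0,y2],z0),([z0,z0,z0,z2,z0,z5],z2)],[([z1,z0,z0,z0,y4,y4],y2),([z0,z1,z0,z0,z2,z2],z2),([z0,z0,z1,z0,z4,z4],
    z4)]],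
    [[([z1,z0,z0,z0,z0,y2],z0),([z0,z1,z0,z0,z0,z4],z2),([z0,z0,z1,z0,z0,y6],y2),([z0,z0,z0,z1,z0,z3],z2)],[([z9,z0,
    z0,z0,z0,z0],z4),([z0,z9,z0,z0,z0,z0],z8),([z0,z0,z9,z9,z0,z0],z8),([z0,z0,z0,z0,z3,z0],z2)],[([z2,z0,z0,z0,z0,
    y5],y4),([z0,z2,z0,z0,z0,z3],z4),([z0,z0,z2,z0,z0,z3],z4),([z0,z0,z0,z1,z0,z1],z2)],[([z1,z0,z0,z0,y1,y1],z0),
    ([z0,z2,z0,z0,y1,y1],z0),([z0,z0,z1,z0,z1,z1],z2)],[([z1,z0,z0,z0,z0,y2],z0),([z0,z1,z0,z0,z0,z1],z1),([z0,z0,z1,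
    z0,z0,y2],z0),([z0,z0,z0,z1,z0,z2],z1)],[([z5,z0,z0,z0,z0,z0],z2),([z0,z5,z0,z0,z0,z0],z4),([z0,z0,z5,z0,z5,z0],
    z4),([z0,z0,z0,z5,z0,z0],z4)],[([z1,z0,z0,z0,y1,z0],z0),([z0,z2,z0,z0,y1,z0],z0),([z0,z0,z1,z0,z1,z0],z2)],[([z1,
    z0,z0,z0,z0,y4],z0),([z0,z1,z0,z0,z0,y2],z0),([z0,z0,z1,z0,z0,z4],z2),([z0,z0,z0,z1,z0,y3],z0)],[([z1,z0,z0,z0,z0,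
    y2],z0),([z0,z2,z0,z0,z0,y3],z0),([z0,z0,z1,z0,z0,z3],z2),([z0,z0,z0,z2,z0,y1],z0)],[([z1,z0,z0,z0,z0,y2],z0),
    ([z0,z1,z0,z0,z0,z4],z2),([z0,z0,z1,z0,z0,z3],z2),([z0,z0,z0,z1,z0,y6],y2)],[([z1,z0,z0,z0,z0,y3],y1),([z0,z1,z0,
    z0,z0,z3],z2),([z0,z0,z1,z0,z0,y2],z0),([z0,z0,z0,z1,z0,z1],z1)],[([z2,z0,z0,z0,y3,z0],y2),([z0,z1,z0,z0,z1,z1],
    z2),([z0,z0,z1,z0,z1,z0],z2)]],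
    [[([z1,z0,z0,z0,z0,y2],z0),([z0,z1,z1,z0,z0,z5],z4),([z0,z0,z0,z1,z0,y4],y2)],[([z1,z0,z0,y2,y2,y2],y2),([z0,z1,
    z0,z1,z1,z1],z2)],[([z3,z0,z0,z0,y3,z0],y2),([z0,z3,z0,z0,z0,z0],z2),([z0,z0,z1,z0,z2,z0],z2),([z0,z0,z0,z3,z0,
    z0],z2)],[([z2,z0,z0,z0,y2,z0],y1),([z0,z2,z0,z0,z0,z0],z1),([z0,z0,z1,z0,z2,z0],z2),([z0,z0,z0,z2,z0,z0],z1)],
    [([z5,z0,z0,z0,y5,z0],y2),([z0,z5,z0,z0,z0,z0],z2),([z0,z0,z1,z0,z2,z0],z2),([z0,z0,z0,z5,z0,z0],z2)],[([z1,z0,z0,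
    z0,z0,y4],y2),([z0,z1,z0,z0,z0,y5],y4),([z0,z0,z1,z0,z0,z4],z4),([z0,z0,z0,z1,z0,z2],z2)],[([z1,z0,z0,z0,z0,y4],
    y2),([z0,z1,z0,z0,z0,z2],z2),([z0,z0,z1,z0,z0,y4],y2),([z0,z0,z0,z1,z0,z3],z2)],[([z1,z0,z0,z0,z0,y2],y1),([z0,z1,
    z0,z0,z0,z2],z2),([z0,z0,z1,z0,z0,y2],y1),([z0,z0,z0,z1,z0,z1],z1)],[([z1,z0,z0,z0,z0,y4],y2),([z0,z1,z0,z0,z0,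
    y1],z0),([z0,z0,z1,z0,z0,z2],z2),([z0,z0,z0,z1,z0,z1],z2)],[([z1,z0,z0,z0,z0,y3],z0),([z0,z1,z0,z0,z0,y4],y2),
    ([z0,z0,z1,z0,z0,z3],z2),([z0,z0,z0,z1,z0,z2],z2)],[([z1,z0,z0,z0,z0,y5],y2),([z0,z1,z0,z0,z0,y6],y4),([z0,z0,z1,
    z0,z0,z5],z4),([z0,z0,z0,z1,z0,z2],z2)],[([z1,z0,z0,z0,z0,y2],y3),([z0,z1,z0,z0,z0,z1],z2),([z0,z0,z1,z0,z0,z2],
    z4),([z0,z0,z0,z1,z0,z1],z2)]],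
    [[([z1,z0,z0,z0,z0,y3],z0),([z0,z1,z0,z0,z0,z1],z2),([z0,z0,z1,z0,z0,y2],z0),([z0,z0,z0,z1,z0,y1],z0)],[([z1,z0,
    z0,z0,z0,y3],z0),([z0,z1,z0,z0,z0,z2],z2),([z0,z0,z1,z0,z0,z3],z2),([z0,z0,z0,z1,z0,y4],y2)],[([z2,z0,z0,z0,z0,
    y2],y1),([z0,z1,z0,z0,z0,z2],z2),([z0,z0,z2,z0,z0,y2],y1),([z0,z0,z0,z2,z0,z0],z1)],[([z5,z0,z0,z0,z0,y5],y2),
    ([z0,z1,z0,z0,z0,z2],z2),([z0,z0,z5,z0,z0,y5],y2),([z0,z0,z0,z5,z0,z0],z2)],[([z1,z0,z0,z0,y1,y1],y2),([z0,z1,z0,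
    z0,z0,z1],z2),([z0,z0,z1,z0,z2,z0],z2)],[([z3,z0,z0,z0,z0,y8],y6),([z0,z1,z0,z0,z0,z2],z2),([z0,z0,z3,z0,z0,z4],
    z6),([z0,z0,z0,z1,z0,z1],z2)],[([z2,z0,z0,z0,z0,y3],z0),([z0,z1,z0,z0,z0,z2],z2),([z0,z0,z1,z0,z0,y3],y2),([z0,z0,
    z0,z1,z0,z2],z2)],[([z1,z0,z0,z0,z0,y4],y4),([z0,z1,z0,z0,z0,y2],y2),([z0,z0,z1,z0,z0,z4],z5),([z0,z0,z0,z1,z0,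
    z1],z2)],[([z3,z0,z0,z0,y3,z0],y2),([z0,z3,z0,z0,z0,z0],z2),([z0,z0,z1,z0,z2,z0],z2),([z0,z0,z0,z3,z0,z0],z4)],
    [([z1,z0,z0,z0,y2,z0],y2),([z0,z2,z0,z0,z4,z1],z6),([z0,z0,z1,z0,z1,z0],z2)],[([z3,z0,z0,z0,z0,y6],y4),([z0,z1,z0,
    z0,z0,z2],z2),([z0,z0,z3,z0,z0,y3],y2),([z0,z0,z0,z3,z0,z0],z2)],[([z1,z0,z0,z0,z0,y6],y2),([z0,z1,z0,z0,z0,z2],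
    z2),([z0,z0,z1,z0,z0,z6],z4),([z0,z0,z0,z1,z0,y4],y2)]],
    [[([z1,z0,z0,z0,z0,y4],y2),([z0,z1,z0,z0,z0,y3],y2),([z0,z0,z1,z0,z0,z2],z2),([z0,z0,z0,z1,z0,z2],z2)],[([z1,z0,
    z0,z0,z0,y6],y4),([z0,z1,z0,z0,z0,z2],z2),([z0,z0,z1,z0,z0,y3],y2),([z0,z0,z0,z1,z0,z2],z2)],[([z1,z0,z0,z0,z0,
    y6],y2),([z0,z1,z0,z0,z0,y2],z0),([z0,z0,z1,z0,z0,z3],z2),([z0,z0,z0,z1,z0,z2],z2)],[([z5,z0,z0,z0,y5,z0],y2),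
    ([z0,z5,z0,z0,z0,z0],z2),([z0,z0,z1,z0,z2,z0],z2),([z0,z0,z0,z5,z0,z0],z4)],[([z1,z0,z0,z0,z0,y8],y2),([z0,z1,z0,
    z0,z0,y2],z0),([z0,z0,z1,z0,z0,z4],z2),([z0,z0,z0,z1,z0,z2],z2)],[([z3,z0,z0,z0,y3,z0],y1),([z0,z3,z0,z0,z0,z0],
    z1),([z0,z0,z1,z0,z2,z0],z2),([z0,z0,z0,z3,z0,z0],z2)],[([z1,z0,z0,z0,y2,z0],z0),([z0,z2,z0,z0,z0,z1],z2),([z0,z0,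
    z1,z0,z2,z0],z2)],[([z3,z0,z0,z0,z0,y6],y2),([z0,z3,z0,z0,z0,z0],z2),([z0,z0,z3,z0,z0,z3],z2),([z0,z0,z0,z1,z0,
    z1],z2)],[([z3,z0,z0,z0,z0,y3],y2),([z0,z1,z0,z0,z0,z1],z2),([z0,z0,z3,z0,z0,y3],y4),([z0,z0,z0,z3,z0,z0],z2)],
    [([z3,z0,z0,z0,y3,z0],y2),([z0,z3,z0,z0,z0,z0],z2),([z0,z0,z1,z0,z2,z0],z2)],[([z1,z0,z0,z0,z0,y4],y2),([z0,z1,z0,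
    z0,z0,z2],z2),([z0,z0,z1,z0,z0,z5],z4),([z0,z0,z0,z1,z0,y6],y4)],[([z3,z0,z0,z0,y6,z0],y2),([z0,z3,z0,z0,z3,z0],
    z2),([z0,z0,z1,z0,z2,z0],z2),([z0,z0,z0,z3,z0,z0],z4)]],
    [[([z1,z0,z0,z0,y2,y1],z0),([z0,z1,z0,z0,y1,y1],z0),([z0,z0,z1,z0,z2,z1],z2)],[([z1,z0,z0,z0,z0,y4],z0),([z0,z1,
    z0,z0,z0,y3],z0),([z0,z0,z1,z0,z0,z4],z2),([z0,z0,z0,z1,z0,z6],z2)],[([z1,z0,z0,z0,z0,y3],y2),([z0,z1,z0,z0,z0,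
    z2],z2),([z0,z0,z2,z0,z0,y1],z0),([z0,z0,z0,z1,z0,z1],z2)],[([z1,z0,z0,z0,y1,y2],z0),([z0,z1,z0,z0,y1,y1],z0),
    ([z0,z0,z1,z0,z1,z2],z2)],[([z1,z0,z0,z0,z0,y6],y2),([z0,z1,z0,z0,z0,z2],z2),([z0,z0,z1,z0,z0,z3],z2),([z0,z0,z0,
    z1,z0,y4],y2)],[([z1,z0,z0,z0,y4,z0],y2),([z0,z1,z0,z0,z3,z0],z2),([z0,z0,z1,z0,z2,z0],z2)],[([z1,z0,z0,z0,z0,y2],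
    z0),([z0,z1,z0,z0,z0,z1],z2),([z0,z0,z1,z0,z0,z1],z1),([z0,z0,z0,z1,z0,y1],z0)],[([z1,z0,z0,z0,y2,z0],y1),([z0,z1,
    z0,z0,z1,z0],z1),([z0,z0,z1,z0,z2,z0],z2)],[([z2,z0,z0,z0,z0,z0],z1),([z0,z1,z0,z0,z0,z1],z2),([z0,z0,z4,z0,z0,
    y4],y5),([z0,z0,z0,z1,z0,z1],z2)],[([z1,z0,z0,z0,z0,y4],y2),([z0,z1,z0,z0,z0,z1],z2),([z0,z0,z1,z0,z0,z2],z2),
    ([z0,z0,z0,z1,z0,y1],z0)],[([z2,z0,z0,z0,z0,y3],y2),([z0,z2,z0,z0,z0,z1],z2),([z0,z0,z2,z0,z0,y3],y2),([z0,z0,z0,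
    z1,z0,z2],z2)],[([z1,z0,z0,z0,y1,y1],z0),([z0,z1,z0,z0,z0,z1],z2),([z0,z0,z1,z0,z2,z2],z2)]],
    [[([z1,z0,z0,z0,z0,y8],y4),([z0,z1,z0,z0,z0,z3],z2),([z0,z0,z1,z0,z0,y4],y2),([z0,z0,z0,z1,z0,z2],z2)],[([z1,z0,
    z0,z0,z0,y6],y2),([z0,z1,z0,z0,z0,z2],z2),([z0,z0,z1,z0,z0,z3],z2),([z0,z0,z0,z1,z0,y2],z0)],[([z1,z0,z0,z0,y2,
    z0],z0),([z0,z1,z0,z0,y1,y1],z0),([z0,z0,z1,z0,z2,z0],z2)],[([z3,z0,z0,z0,y6,z0],y2),([z0,z3,z0,z0,z3,z0],z2),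
    ([z0,z0,z1,z0,z2,z0],z2),([z0,z0,z0,z3,z0,z0],z2)],[([z1,z0,z0,z0,z0,y5],y2),([z0,z1,z0,z0,z0,z2],z2),([z0,z0,z1,
    z0,z0,y4],y2),([z0,z0,z0,z1,z0,z3],z2)],[([z1,z0,z0,z0,z0,y3],y1),([z0,z1,z0,z0,z0,z2],z2),([z0,z0,z1,z0,z0,y2],
    y1),([z0,z0,z0,z1,z0,z1],z1)],[([z1,z0,z0,z0,y2,y1],y2),([z0,z1,z0,z0,z1,z1],z2),([z0,z0,z1,z0,z2,z0],z2)],[([z1,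
    z0,z0,y1,y1,z0],z0),([z0,z1,z0,z0,z0,z1],z2)],[([z1,z0,z0,z0,z0,y4],y2),([z0,z1,z0,z0,z0,y6],y4),([z0,z0,z1,z0,z0,
    z2],z2),([z0,z0,z0,z1,z0,z5],z4)],[([z1,z0,z0,z0,y2,y1],y2),([z0,z1,z0,z0,z2,z0],z2),([z0,z0,z1,z0,z1,z1],z2)],
    [([z2,z0,z0,z0,y2,y1],z0),([z0,z1,z0,z0,z0,z1],z2),([z0,z0,z2,z0,z0,y1],z0)],[([z1,z0,z0,z0,y1,y2],y2),([z0,z1,z0,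
    z0,z0,z1],z2),([z0,z0,z1,z0,z0,y2],y2)]],
    [[([z1,z0,z0,z0,z1,z0],z2),([z0,z1,z0,z1,z0,y1],z0)],[([z1,z0,z0,z0,y1,z0],z0),([z0,z3,z0,z0,z0,z0],z1),([z0,z0,
    z1,z0,z1,z0],z2),([z0,z0,z0,z1,z1,z0],z1)],[([z1,z0,z0,z0,y1,z0],z0),([z0,z9,z0,z0,z0,z0],z4),([z0,z0,z1,z0,z1,
    z0],z2),([z0,z0,z0,z9,z9,z0],z8)],[([z1,z0,z0,z0,y1,z0],z0),([z0,z2,z0,z0,z0,z0],z1),([z0,z0,z1,z0,z1,z0],z2),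
    ([z0,z0,z0,z6,z6,z0],z5)],[([z1,z0,z0,z0,y1,z0],z0),([z0,z3,z0,z0,y3,z0],y2),([z0,z0,z1,z0,z1,z0],z2),([z0,z0,z0,
    z1,z2,z0],z2)],[([z1,z0,z0,z0,y1,z0],z0),([z0,z3,z0,z3,z3,z0],z4),([z0,z0,z1,z0,z1,z0],z2)],[([z1,z0,z0,z0,z0,y2],
    z1),([z0,z2,z0,z0,z0,z0],z1),([z0,z0,z1,z0,z0,z2],z1),([z0,z0,z0,z2,z0,y2],z1)],[([z1,z0,z0,z0,z0,y3],z0),([z0,z2,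
    z0,z0,z0,z3],z2),([z0,z0,z1,z0,z0,y3],z0),([z0,z0,z0,z2,z0,z5],z2)],[([z1,z0,z0,z0,z0,y2],y2),([z0,z1,z0,z0,z0,
    z1],z2),([z0,z0,z2,z0,z0,y1],z0),([z0,z0,z0,z1,z0,z1],z2)],[([z1,z0,z0,z0,z0,y6],y2),([z0,z1,z0,z0,z0,z3],z2),
    ([z0,z0,z1,z0,z0,y6],y2),([z0,z0,z0,z1,z0,z4],z2)],[([z3,z0,z0,z0,z0,y4],z2),([z0,z3,z0,z0,z0,z2],z2),([z0,z0,z3,
    z0,z0,y4],z2),([z0,z0,z0,z3,z0,z5],z2)],[([z2,z0,z0,z0,z0,z1],z2),([z0,z1,z0,z0,z0,y1],z0),([z0,z0,z2,z0,z2,z1],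
    z2)]],
    [[([z1,z0,z0,z0,z0,y2],y3),([z0,z1,z0,z0,z0,z1],z2),([z0,z0,z2,z0,z0,z2],z5),([z0,z0,z0,z1,z0,z1],z2)],[([z1,z0,
    z0,z0,y1,z0],z0),([z0,z2,z0,z0,z0,z0],z1),([z0,z0,z1,z0,z1,z0],z2),([z0,z0,z0,z4,z4,z0],z3)],[([z3,z0,z0,z0,y3,
    z0],y2),([z0,z3,z0,z0,z0,z0],z4),([z0,z0,z1,z0,z2,z0],z2),([z0,z0,z0,z3,z0,z0],z2)],[([z1,z0,z0,z0,z0,y4],z0),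
    ([z0,z1,z0,z0,z0,y6],y2),([z0,z0,z1,z0,z0,z4],z2),([z0,z0,z0,z1,z0,z3],z2)],[([z1,z0,z0,z0,z0,y6],y2),([z0,z1,z0,
    z0,z0,z1],z2),([z0,z0,z1,z0,z0,z4],z2),([z0,z0,z0,z1,z0,y1],z0)],[([z1,z0,z0,z0,z0,y2],y1),([z0,z1,z0,z0,z0,z1],
    z1),([z0,z0,z1,z0,z0,z2],z3),([z0,z0,z0,z1,z0,z2],z2)],[([z1,z0,z0,z0,y1,y1],z0),([z0,z1,z0,z0,z0,y1],z0),([z0,z0,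
    z1,z0,z2,z2],z2)],[([z1,z0,z0,z0,z0,y3],y4),([z0,z1,z0,z0,z0,z1],z2),([z0,z0,z1,z0,z0,z3],z5),([z0,z0,z0,z1,z0,
    z1],z2)],[([z1,z0,z0,z0,z0,y2],y2),([z0,z1,z0,z0,z0,z1],z2),([z0,z0,z1,z0,z0,z2],z3),([z0,z0,z0,z1,z0,z1],z2)],
    [([z1,z0,z0,z0,y1,z0],z0),([z0,z1,z0,z0,z0,z1],z1),([z0,z0,z1,z0,z1,z0],z2)],[([z3,z0,z0,z0,y6,z0],y2),([z0,z3,z0,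
    z0,z0,z0],z2),([z0,z0,z1,z0,z3,z0],z2),([z0,z0,z0,z3,z0,z0],z2)],[([z1,z0,z0,z0,z0,y6],y2),([z0,z1,z0,z0,z0,y8],
    y4),([z0,z0,z1,z0,z0,z6],z4),([z0,z0,z0,z1,z0,z3],z2)]],
    [[([z1,z0,z0,z0,z0,y6],y4),([z0,z1,z0,z0,z0,y1],z0),([z0,z0,z1,z0,z0,z2],z2),([z0,z0,z0,z1,z0,z1],z2)],[([z2,z0,
    z0,z0,z0,y4],y1),([z0,z1,z0,z0,z0,z3],z2),([z0,z0,z2,z0,z0,y4],y1),([z0,z0,z0,z2,z0,z0],z1)],[([z1,z0,z0,z0,y2,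
    y1],y2),([z0,z1,z0,z0,z0,z1],z2),([z0,z0,z1,z0,z3,z0],z2)],[([z2,z0,z0,z0,z0,z0],z1),([z0,z3,z0,z0,z0,z0],z2),
    ([z0,z0,z6,z0,z6,z0],z5),([z0,z0,z0,z3,z0,z0],z2)],[([z1,z0,z0,z0,z0,y2],y2),([z0,z1,z0,z0,z0,z1],z2),([z0,z0,z2,
    z0,z0,z2],z3),([z0,z0,z0,z1,z0,z1],z2)],[([z2,z0,z0,z0,z0,z0],z1),([z0,z4,z0,z0,z0,z0],z3),([z0,z0,z4,z0,z4,z0],
    z3),([z0,z0,z0,z4,z0,z0],z3)],[([z1,z0,z0,z0,y1,z0],z0),([z0,z2,z0,z0,z0,z0],z1),([z0,z0,z1,z0,z1,z0],z2)],[([z1,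
    z0,z0,z0,y1,z0],z0),([z0,z1,z0,z0,y1,z1],z0),([z0,z0,z1,z0,z1,z0],z2)],[([z3,z0,z0,z0,z0,z0],z2),([z0,z3,z0,z3,z0,
    z3],z4),([z0,z0,z3,z0,z0,z0],z2)],[([z1,z0,z0,z0,y1,z0],z0),([z0,z1,z0,z1,z1,z1],z2)],[([z2,z0,z0,z0,z0,y2],y1),
    ([z0,z2,z0,z0,z0,z2],z3),([z0,z0,z2,z0,z0,z0],z1),([z0,z0,z0,z2,z0,y2],z1)],[([z5,z0,z0,z0,z0,y5],y2),([z0,z5,z0,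
    z0,z0,z5],z8),([z0,z0,z5,z0,z0,z0],z2),([z0,z0,z0,z5,z0,y5],z2)]],
    [[([z1,z0,z0,z0,z0,y4],z0),([z0,z1,z0,z0,z0,z6],z2),([z0,z0,z1,z0,z0,y3],z0),([z0,z0,z0,z1,z0,y2],z0)],[([z3,z0,
    z0,z0,z0,y6],z2),([z0,z3,z0,z0,z0,z6],z2),([z0,z0,z3,z0,z0,y3],z2),([z0,z0,z0,z3,z0,z0],z2)],[([z3,z0,z0,z0,z0,
    y3],y2),([z0,z3,z0,z0,z0,z0],z2),([z0,z0,z3,z0,z0,z0],z2),([z0,z0,z0,z1,z0,z1],z2)],[([z3,z0,z0,z0,y6,z0],y2),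
    ([z0,z3,z0,z0,z3,z0],z4),([z0,z0,z3,z0,z6,z0],z4),([z0,z0,z0,z3,z0,z0],z2)],[([z1,z0,z0,z0,y2,z2],z2),([z0,z1,z0,
    z0,z1,y1],z0),([z0,z0,z1,z0,z2,y1],z0)],[([z3,z0,z0,z0,z0,y3],y4),([z0,z1,z0,z0,z0,z1],z2),([z0,z0,z3,z0,z0,y3],
    y2),([z0,z0,z0,z3,z0,z6],z10)],[([z1,z0,z0,z0,z0,y6],y2),([z0,z1,z0,z0,z0,z3],z2),([z0,z0,z1,z0,z0,y2],z0),([z0,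
    z0,z0,z1,z0,z4],z2)],[([z2,z0,z0,z0,z0,y4],z1),([z0,z2,z0,z0,z0,z0],z1),([z0,z0,z2,z0,z0,z4],z3),([z0,z0,z0,z2,z0,
    y2],z1)],[([z1,z0,z0,z0,y2,y1],y2),([z0,z1,z0,z0,z0,z1],z2),([z0,z0,z1,z0,z1,z1],z2)],[([z3,z0,z0,z0,z0,y6],y4),
    ([z0,z3,z0,z0,z0,z0],z2),([z0,z0,z3,z0,z0,z3],z4),([z0,z0,z0,z1,z0,z1],z2)],[([z1,z0,z0,z0,z0,y3],z0),([z0,z1,z0,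
    z0,z0,y1],z0),([z0,z0,z1,z0,z0,y2],z0),([z0,z0,z0,z1,z0,z4],z2)],[([z1,z0,z0,z0,z0,y3],z0),([z0,z1,z0,z0,z0,y2],
    z0),([z0,z0,z1,z0,z0,z4],z2),([z0,z0,z0,z1,z0,y1],z0)]],
    [[([z3,z0,z0,z0,z0,y3],y2),([z0,z1,z0,z0,z0,z1],z2),([z0,z0,z3,z0,z0,y3],y2),([z0,z0,z0,z3,z0,z6],z8)],[([z2,z0,
    z0,z0,y2,z0],y1),([z0,z2,z0,z0,z2,z0],z3),([z0,z0,z1,z0,z1,z0],z2),([z0,z0,z0,z2,z0,z0],z1)],[([z1,z0,z0,z0,y1,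
    y1],z0),([z0,z1,z0,z0,z0,y1],z0),([z0,z0,z1,z0,z1,z1],z2)],[([z1,z0,z0,z0,z0,y3],y1),([z0,z1,z0,z0,z0,z1],z1),
    ([z0,z0,z1,z0,z0,z3],z3),([z0,z0,z0,z1,z0,y2],y1)],[([z3,z0,z0,z0,z0,z0],z1),([z0,z1,z0,z0,z0,z1],z2),([z0,z0,z3,
    z0,z0,y3],y2),([z0,z0,z0,z3,z0,z3],z5)],[([z1,z0,z0,z0,y1,y1],y1),([z0,z1,z0,z0,z0,z1],z2),([z0,z0,z1,z0,z1,z1],
    z2)],[([z1,z0,z0,z0,y1,z0],z0),([z0,z1,z0,z0,y2,z0],z0),([z0,z0,z1,z0,z2,z1],z2)],[([z1,z0,z0,y1,z0,y1],z0),([z0,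
    z1,z0,z1,z1,z1],z2)],[([z1,z0,z0,z0,z0,y4],y2),([z0,z1,z0,z0,z0,z2],z2),([z0,z0,z1,z0,z0,y8],y4),([z0,z0,z0,z1,z0,
    z3],z2)],[([z2,z0,z0,z0,y3,z0],y2),([z0,z1,z0,z0,z0,z1],z2),([z0,z0,z2,z0,z1,z0],z2)],[([z1,z0,z0,z0,z0,y4],z0),
    ([z0,z1,z0,z0,z0,z1],z1),([z0,z0,z1,z0,z0,z2],z1),([z0,z0,z0,z1,z0,y2],z0)],[([z2,z0,z0,z0,z0,y2],y1),([z0,z1,z0,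
    z0,z0,z2],z2),([z0,z0,z1,z0,z0,y2],y1),([z0,z0,z0,z2,z0,z0],z1)]],
    [[([z1,z0,z0,z0,z0,y6],y2),([z0,z1,z0,z0,z0,y2],z0),([z0,z0,z1,z0,z0,z4],z2),([z0,z0,z0,z1,z0,z2],z2)],[([z1,z0,
    z0,z0,z0,y4],y2),([z0,z1,z0,z0,z0,y3],y2),([z0,z0,z1,z0,z0,z4],z4),([z0,z0,z0,z1,z0,z2],z2)],[([z1,z0,z0,z0,z0,
    y6],y2),([z0,z1,z0,z0,z0,y4],y2),([z0,z0,z1,z0,z0,z6],z4),([z0,z0,z0,z1,z0,z2],z2)],[([z1,z0,z0,z0,y2,z0],z0),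
    ([z0,z3,z0,z0,z3,z0],z2),([z0,z0,z1,z0,z2,z0],z2),([z0,z0,z0,z3,z0,z0],z2)],[([z1,z0,z0,z0,y2,z0],z0),([z0,z2,z0,
    z0,z2,z1],z2),([z0,z0,z1,z0,z2,z0],z2)],[([z1,z0,z0,z1,z0,z1],z2),([z0,z1,z0,z0,z1,z1],z2)],[([z1,z0,z0,z0,z0,y2],
    y1),([z0,z1,z0,z0,z0,z1],z1),([z0,z0,z2,z0,z0,z2],z3),([z0,z0,z0,z1,z0,z1],z2)],[([z1,z0,z0,z0,z0,y3],z0),([z0,z1,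
    z0,z0,z0,y8],y2),([z0,z0,z1,z0,z0,z5],z2),([z0,z0,z0,z1,z0,z4],z2)],[([z1,z0,z0,z0,z0,y6],y6),([z0,z1,z0,z0,z0,
    z5],z6),([z0,z0,z1,z0,z0,z3],z4),([z0,z0,z0,z1,z0,z1],z2)],[([z1,z0,z0,z0,z0,y4],z0),([z0,z1,z0,z0,z0,y3],z0),
    ([z0,z0,z1,z0,z0,y2],z0),([z0,z0,z0,z1,z0,z6],z2)],[([z1,z0,z0,z0,y2,y2],y2),([z0,z1,z0,z0,z2,z1],z2),([z0,z0,z1,
    z0,z1,z1],z2)],[([z1,z0,z0,z0,z0,y6],y6),([z0,z1,z0,z0,z0,y2],y2),([z0,z0,z1,z0,z0,z3],z4),([z0,z0,z0,z1,z0,z1],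
    z2)]]]

/-- equations of the nodes, part 1 -/
noncomputable def cU6_3_D1 : List (List (List Eqn)) :=
  [[[([z5,z0,z0,z0,y5,z0],y2),([z0,z5,z0,z0,z0,z0],z6),([z0,z0,z1,z0,z2,z0],z2),([z0,z0,z0,z5,z0,z0],z2)],[([z1,z0,z0,
    z0,y2,z0],y2),([z0,z2,z0,z0,z0,z1],z2),([z0,z0,z1,z0,z1,z0],z2)],[([z1,z0,z0,z0,y1,z0],y1),([z0,z3,z0,z0,z0,z0],
    z2),([z0,z0,z1,z0,z1,z0],z2),([z0,z0,z0,z3,z3,z0],z5)],[([z1,z0,z0,z0,z0,y2],z0),([z0,z1,z0,z0,z0,z1],z1),([z0,z0,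
    z1,z0,z0,y1],z0),([z0,z0,z0,z1,z0,y1],z1)],[([z1,z0,z0,z0,y1,y1],y1),([z0,z1,z0,z0,z0,z1],z2),([z0,z0,z1,z0,z2,
    z0],z2)],[([z3,z0,z0,z0,z0,z0],z2),([z0,z3,z0,z0,z3,z0],z2),([z0,z0,z3,z0,z0,z0],z2)],[([z2,z0,z0,z0,z1,z0],z2),
    ([z0,z1,z0,z1,z0,z0],z2)],[([z1,z0,z1,z0,z0,z0],z1),([z0,z2,z0,z0,z0,z0],z1),([z0,z0,z0,z1,z0,z1],z2)],[([z1,z0,
    z0,z0,y2,z0],z0),([z0,z3,z0,z0,z0,z0],z4),([z0,z0,z1,z0,z1,z0],z1),([z0,z0,z0,z1,z2,z0],z1)],[([z1,z0,z0,z0,y2,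
    z0],z0),([z0,z1,z0,z0,z0,z1],z2),([z0,z0,z1,z0,z1,z0],z1)],[([z1,z0,z0,z0,y1,y1],z0),([z0,z1,z0,z1,z0,z0],z2)],
    [([z1,z0,z0,z0,y1,y1],y1),([z0,z1,z0,z0,z1,z0],z1),([z0,z0,z1,z0,z1,z1],z2)]],
    [[([z1,z0,z0,z0,z1,z0],z1),([z0,z1,z0,z1,z0,z0],z2)],[([z1,z0,y1,z0,y1,z0],z0),([z0,z1,z2,z0,z2,z0],z2)],[([z1,z0,
    z0,z0,y1,y1],z0),([z0,z1,z0,z1,z1,z1],z2)],[([z1,z0,z0,y2,z0,z0],z0),([z0,z1,z0,z1,z1,z1],z2)],[([z1,z0,z0,y2,z1,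
    z1],z0),([z0,z1,z0,z1,z0,z0],z2)],[([z1,z0,z0,y2,z0,z0],y2),([z0,z1,z0,z1,z0,z0],z2)],[([z1,z0,z0,z0,z1,z0],z2)],
    [([z3,z0,z0,z0,y6,z0],y2),([z0,z3,z0,z0,z3,z0],z4),([z0,z0,z1,z0,z2,z0],z2),([z0,z0,z0,z3,z0,z0],z2)],[([z1,z0,z0,
    z0,y2,z1],z0),([z0,z1,z0,z0,z1,y2],z0),([z0,z0,z1,z0,z2,z0],z2)],[([z1,z0,z0,z0,z0,y4],y2),([z0,z1,z0,z0,z0,z2],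
    z2),([z0,z0,z2,z0,z0,z1],z2),([z0,z0,z0,z2,z0,z1],z2)],[([z1,z0,z0,z0,y4,z0],y2),([z0,z1,z0,z0,z6,z2],z6),([z0,z0,
    z1,z0,z2,z0],z2)],[([z1,z0,z0,z0,y5,z1],y2),([z0,z1,z0,z0,z8,z0],z6),([z0,z0,z1,z0,z2,z0],z2)]],
    [[([z1,z0,z0,y2,z0,y2],y2),([z0,z1,z0,z2,z0,z0],z2),([z0,z0,z1,z1,z0,z1],z2)],[([z1,z0,z0,y2,z2,z2],z2),([z0,z1,
    z0,z2,z0,z0],z2)],[([z1,z0,z0,z0,y2,z1],z0),([z0,z1,z0,z0,y1,z0],z0),([z0,z0,z1,z0,z2,z0],z2)],[([z1,z0,z0,z0,z0,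
    y16],y10),([z0,z1,z0,z0,z0,z11],z8),([z0,z0,z1,z0,z0,y4],y2),([z0,z0,z0,z1,z0,z2],z2)],[([z2,z0,z0,z0,z0,y5],y2),
    ([z0,z2,z0,z0,z0,z1],z2),([z0,z0,z4,z0,z0,y1],z2),([z0,z0,z0,z1,z0,z2],z2)],[([z1,z0,z0,z0,y4,z0],y2),([z0,z1,z0,
    z0,y3,y1],y2),([z0,z0,z1,z0,z2,z0],z2)],[([z3,z0,z0,z0,z0,y6],y2),([z0,z1,z0,z0,z0,z2],z2),([z0,z0,z3,z0,z0,z3],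
    z4),([z0,z0,z0,z3,z0,z0],z2)],[([z1,z0,z0,z0,y2,y2],y2),([z0,z1,z0,z0,z0,z2],z2),([z0,z0,z1,z0,z1,z1],z2)],[([z1,
    z0,z0,z0,y5,z1],y2),([z0,z1,z0,z0,y4,z0],y2),([z0,z0,z1,z0,z2,z0],z2)],[([z1,z0,z0,z0,y3,z2],z0),([z0,z1,z0,z0,y2,
    z1],z0),([z0,z0,z1,z0,z2,z0],z2)],[([z2,z0,z0,z0,z1,z0],z2),([z0,z2,z2,z0,z1,z1],z4)],[([z1,z0,z0,y2,z0,y2],y2),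
    ([z0,z2,z0,z4,z0,z3],z6),([z0,z0,z1,z1,z0,z1],z2)]],
    [[([z1,z0,z0,z0,z0,y1],z0),([z0,z1,z0,z0,z1,y2],z0),([z0,z0,z1,z0,z0,z2],z2)],[([z1,z0,z0,z0,y1,z0],z0),([z0,z2,
    z0,z0,z1,z0],z2),([z0,z0,z1,z0,z1,z1],z2)],[([z1,z0,z0,z0,y2,z1],z0),([z0,z1,z0,z0,z1,z1],z2),([z0,z0,z1,z0,z2,
    z0],z2)],[([z1,z0,z0,y2,z0,y2],y2),([z0,z1,z0,z2,z1,z2],z4)],[([z1,z0,z0,z0,y2,y2],y2),([z0,z1,z0,z0,y2,y2],y2),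
    ([z0,z0,z1,z0,z1,z1],z2)],[([z1,z0,z0,z0,z0,y1],z0),([z0,z1,z0,z1,z1,z0],z2)],[([z1,z0,z0,z0,y2,y2],y2),([z0,z1,
    z0,z0,z0,y1],z0),([z0,z0,z1,z0,z1,z1],z2)],[([z3,z0,z0,z0,z0,y6],y2),([z0,z3,z0,z0,z0,z0],z2),([z0,z0,z3,z0,z0,
    z0],z2),([z0,z0,z0,z1,z0,z2],z2)],[([z1,z0,z0,z0,y2,z1],z0),([z0,z1,z0,z0,y2,z1],z0),([z0,z0,z1,z0,z2,z0],z2)],
    [([z1,z0,z0,y2,z1,z0],z0),([z0,z1,z0,z2,z0,z0],z2)],[([z1,z0,z0,z0,y2,z1],z0),([z0,z1,z0,z1,z1,z0],z2)],[([z2,z0,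
    z0,z0,z1,z0],z2)]],
    [[([z1,z0,z0,z0,z0,y1],z0),([z0,z1,z0,z0,z1,z1],z2)],[([z1,z0,z0,z0,y1,z0],z0),([z0,z1,z0,z0,z2,z0],z2)],[([z1,z0,
    z0,z0,y1,z0],z0),([z0,z1,z0,z1,z1,z0],z2)],[([z1,z0,z0,z1,z0,z1],z2)],[([z1,z0,y1,y1,y1,y1],y2)],[]]]

/-- equations of the nodes -/
noncomputable def cU6_3_D : List (List (List Eqn)) :=
  cU6_3_D0 ++ cU6_3_D1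

end Pool.Agent.Lib_MP_fa6e45
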