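import Pool.Agent.Lib_MP_fa6e45.CXT
import Pool.Agent.Lib_MP_fa6e45.HK

/-!
MP_fa6e45_co, stage 7: certificates (generated by a program).
-/

namespace Pool.Agent.Lib_MP_fa6e45

/-- classes `0 0 0 0 0 0`, types `C0 C0 C0 C0 C0 C2` -/
noncomputable def cU6_4 : CertX :=
  ⟨[k4,k4,k4,k4,k4,k6],[(true,k5,[k5,k4,k3,k2,k1,k0]),(false,k0,[k0,k1,k2,k3,k4,k5])],[[[([z1,z0,z0,z1,z1,z1],z2)],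
    [([z1,z1,z0,z0,z1,z1],z2)],[([z1,z0,z1,z1,z0,z1],z2)],[([z1,z0,z0,z0,z0,z1],z2)],[([z1,z0,z0,z0,z1,z1],z2)],[([z1,
    z0,z0,z0,y2,z1],z0),([z0,z1,z0,z0,y1,z0],z0),([z0,z0,z1,z0,z2,z0],z2)],[([z1,z0,z0,z0,y2,z1],z0),([z0,z1,z1,z0,z1,
    z0],z2)],[([z1,z0,z0,z0,y1,z1],z0),([z0,z2,z0,z0,z1,z0],z2),([z0,z0,z1,z0,z1,z0],z2)],[([z1,z0,z0,z0,y1,z1],z0),
    ([z0,z1,z0,z1,z1,z0],z2)],[([z1,z0,z0,z1,z0,z1],z2)],[]]],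
    [.old (.leafM k0 [k0,k3,k4,k5] [] [(k1,k2,z1,[y1,z1]),(k2,k1,z1,[y1,z1])]),
    .old (.leafM k0 [k0,k1,k4,k5] [] [(k2,k3,z1,[y1,z1]),(k3,k2,z1,[y1,z1])]),
    .old (.leafM k6 [k0,k2,k3,k5] [] [(k1,k4,z1,[y1,z1]),(k4,k1,z1,[y1,z1])]),
    .old (.leafM k0 [k1,k2,k3,k4] [] [(k5,k0,z1,[z1]),(k0,k5,z1,[z1])]),
    .old (.leafM k0 [k0,k1,k2,k3,k4,k5] [(z1,[y1,z1])] []),
    .old (.tor k6 false k0 [(z1,[y1,y1,y1,z1]),(z1,[z0,z2,z1]),(z1,[z0,y1,y1,z1]),(z1,[z1,z0,z1])]),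
    .old (.lp [(nat_lit 42558),(nat_lit 27680),(nat_lit 29064),(nat_lit 29756),(nat_lit 26988),(nat_lit 9342)] [k0,
    (nat_lit 14880),(nat_lit 14879),(nat_lit 14879),(nat_lit 14187),(nat_lit 14187),(nat_lit 13841),(nat_lit 13841),
    (nat_lit 15225),(nat_lit 15225),(nat_lit 23529),(nat_lit 24567)] k0 [[k0,k0,k0,k0,k0,k0,(nat_lit 25604)],[k0,k0,
    k0,k0,k0,(nat_lit 2768),k0,k0,k0,k0,(nat_lit 2768)],[k0,k0,k0,k0,k0,k0,k0,k0,(nat_lit 1384),k0,k0,(nat_lit 2076)],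
    [k0,k0,k0,k0,k0,k0,k0,(nat_lit 692)],[(nat_lit 2768)],[k0,k0,k0,k0,k0,k0,k0,k0,k0,(nat_lit 2076)],[k0,k0,
    (nat_lit 692),k0,k0,k0,k0,k0,(nat_lit 1384)],[k0,(nat_lit 25604),k0,k0,k0,k0,k0,k0,k0,k0,(nat_lit 1384)],[k0,k0,
    k0,k0,(nat_lit 2076),k0,k0,k0,k0,k0,k0,(nat_lit 2076)],[k0,k0,k0,(nat_lit 1384),k0,k0,k0,(nat_lit 1384)],[k0,k0,
    k0,(nat_lit 2076),k0,k0,k0,k0,k0,(nat_lit 2076)],[(nat_lit 2768),k0,k0,k0,k0,k0,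
    (nat_lit 1384)]] (nat_lit 83040) k6
    [[(k10,(nat_lit 19029)),(k11,(nat_lit 20067)),(k3,(nat_lit 24911)),(k9,(nat_lit 25949)),(k7,(nat_lit 28717)),(k5,
    (nat_lit 30447))],[(k9,(nat_lit 16609)),(k11,(nat_lit 32871)),(k10,(nat_lit 36677)),(k3,(nat_lit 42559)),(k5,
    (nat_lit 43251)),(k7,(nat_lit 46365))],[(k1,(nat_lit 24911)),(k4,(nat_lit 25604)),(k8,(nat_lit 27334)),(k2,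
    (nat_lit 27680)),(k0,(nat_lit 42559)),(k6,(nat_lit 54322))],[(k11,(nat_lit 16608)),(k10,(nat_lit 16954)),(k3,
    (nat_lit 27680)),(k9,(nat_lit 28026)),(k5,(nat_lit 28372)),(k7,(nat_lit 28718))],[(k2,(nat_lit 28372)),(k6,
    (nat_lit 28718)),(k4,(nat_lit 29064)),(k8,(nat_lit 29410)),(k1,(nat_lit 30447)),(k0,(nat_lit 43251))],[(k10,
    (nat_lit 19722)),(k11,(nat_lit 20760)),(k3,(nat_lit 25604)),(k9,(nat_lit 28026)),(k5,(nat_lit 29064)),(k7,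
    (nat_lit 29410))],[(k8,(nat_lit 26296)),(k1,(nat_lit 28717)),(k2,(nat_lit 28718)),(k4,(nat_lit 29410)),(k6,
    (nat_lit 29756)),(k0,(nat_lit 46365))],[(k11,(nat_lit 17646)),(k10,(nat_lit 21452)),(k9,(nat_lit 28372)),(k5,
    (nat_lit 28718)),(k7,(nat_lit 29756)),(k3,(nat_lit 54322))],[(k0,(nat_lit 16609)),(k1,(nat_lit 25949)),(k2,
    (nat_lit 28026)),(k4,(nat_lit 28026)),(k6,(nat_lit 28372)),(k8,(nat_lit 28372))],[(k10,(nat_lit 16608)),(k11,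
    (nat_lit 17646)),(k7,(nat_lit 26296)),(k3,(nat_lit 27334)),(k9,(nat_lit 28372)),(k5,(nat_lit 29410))],[(k2,
    (nat_lit 16608)),(k6,(nat_lit 17646)),(k8,(nat_lit 17646)),(k1,(nat_lit 20067)),(k4,(nat_lit 20760)),(k0,
    (nat_lit 32871))],[(k8,(nat_lit 16608)),(k2,(nat_lit 16954)),(k1,(nat_lit 19029)),(k4,(nat_lit 19722)),(k6,
    (nat_lit 21452)),(k0,(nat_lit 36677))]]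
    [] k0
    [[k1,k1,k0,k0,k0,k1],[k1,k1,k0,k0,k1,k1],[k1,k0,k0,k1,k1,k1],[k1,k0,k0,k0,k1,k1],[k1,k0,k0,k0,k2,k1],[k1,k0,k0,k0,
    k0,k1],[k0,k2,k0,k0,k0,k0],[k0,k2,k1,k0,k0,k0],[k0,k1,k1,k0,k0,k0],[k0,k1,k0,k0,k1,k0],[k0,k0,k2,k0,k0,k0],[k0,k0,
    k1,k1,k0,k0],[k0,k0,k1,k0,k1,k0],[k0,k0,k0,k2,k0,k0],[k0,k0,k0,k1,k1,k0],[k0,k0,k0,k0,k2,k0]]
    [.ref k4 k0 [(z1,[z1])],.ref k1 k1 [(z1,[z1])],.contra [z1,z0,z1,y1],.ref k4 k1 [(z1,[z1])],.contra [y1,y1,y2,z2],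
    .contra [z1,y1],.contra [z1],.ref k5 k1 [(z1,[z0,z1]),(z1,[z1,z0,y1]),(z1,[y1,z0,z2])],.contra [y1,z0,z1],
    .contra [y1,z0,z1],.contra [z1],.ref k1 k1 [(z1,[y1,z0,z0,z1])],.contra [y1,z0,z1],.contra [z1],.contra [y1,y1,y1,
    z1],.contra [z1]]),
    .old (.tor k4 false k0 [(z1,[y2,y1,y2,z2]),(z1,[z0,z0,z1]),(z1,[z1,z0,z1]),(z1,[z1,z1])]),
    .old (.lp [k16,k42,k50,k40,k36,k54] [k29,k29,k16,k16,k12,k12,k17,k17,k19,k19,k20,k0] k0 [[k0,k0,k0,k0,k0,k0,k2],[],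
    [k0,k0,k0,k0,k0,k0,k0,k0,k34],[k0,k0,k0,k0,k0,k2],[k0,k0,k2],[],[k0,k0,k0,k0,k0,k0,k0,k0,k24],[k0,k2,k0,k0,k0,k0,
    k0,k0,k0,k0,k2],[],[k0,k0,k0,k34,k0,k0,k0,k24],[],[k0,k0,k0,k0,k0,k0,k2]] k120 k6
    [[(k9,k24),(k10,k25),(k7,k28),(k3,k29),(k5,k33),(k11,k45)],[(k9,k24),(k10,k25),(k7,k28),(k3,k29),(k5,k33),(k11,
    k45)],[(k0,k29),(k1,k29),(k8,k39),(k2,k42),(k6,k43),(k4,k46)],[(k11,k24),(k10,k38),(k9,k39),(k3,k42),(k7,k43),(k5,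
    k46)],[(k0,k33),(k1,k33),(k6,k45),(k2,k46),(k4,k48),(k8,k77)],[(k10,k42),(k9,k43),(k7,k45),(k3,k46),(k5,k48),(k11,
    k62)],[(k0,k28),(k1,k28),(k8,k38),(k6,k40),(k2,k43),(k4,k45)],[(k11,k33),(k9,k38),(k10,k39),(k7,k40),(k3,k43),(k5,
    k45)],[(k0,k24),(k1,k24),(k6,k38),(k2,k39),(k4,k43),(k8,k60)],[(k10,k35),(k7,k38),(k3,k39),(k11,k55),(k9,k60),(k5,
    k77)],[(k2,k24),(k6,k33),(k0,k45),(k1,k45),(k8,k55),(k4,k62)],[(k0,k25),(k1,k25),(k8,k35),(k2,k38),(k6,k39),(k4,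
    k42)]]
    [] k0
    [[k1,k1,k0,k0,k0,k1],[k1,k1,k0,k0,k1,k1],[k1,k0,k0,k1,k0,k1],[k1,k0,k0,k0,k1,k1],[k1,k0,k0,k0,k0,k1],[k0,k2,k0,k0,
    k0,k0],[k0,k1,k1,k0,k0,k0],[k0,k1,k0,k1,k0,k0],[k0,k1,k0,k0,k1,k0],[k0,k0,k2,k0,k0,k0],[k0,k0,k1,k1,k0,k0],[k0,k0,
    k0,k2,k0,k0],[k0,k0,k0,k2,k1,k0],[k0,k0,k0,k1,k1,k0]]
    [.contra [y1,z1,z1],.ref k1 k1 [(z1,[z1])],.contra [y1,z1,z1],.contra [y1,y1,y2,z2],.contra [y1,z0,y1,z1],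
    .contra [z1],.ref k0 k1 [(z1,[y1,z0,z0,z1])],.contra [y1,z0,z1],.contra [y1,z0,z1],.contra [z1],.ref k1 k1 [(z1,
    [y1,z0,z0,z1])],.contra [z1],.ref k7 k1 [(z1,[z0,z1]),(z1,[y1,z0,z2]),(z1,[z0,y1,y1,z1])],.contra [y1,z0,z1]]),
    .old (.lp [k34,k40,k44,k44,k40,k36] [k5,k5,k2,k2,k0,k0,k0,k0,k2,k2,k4,k4] k0 [[k0,k0,k2,k0,k0,k0,k4],[k0,k0,k0,k0,k0,
    k6,k0,k0,k0,k0,k6],[k0,k0,k0,k0,k0,k0,k0,k0,k2,k0,k0,k6],[k0,k2],[k6],[k0,k0,k0,k0,k0,k0,k0,k0,k0,k8],[],[k0,k4,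
    k0,k0,k0,k0,k0,k0,k0,k0,k6],[k0,k0,k0,k0,k8,k0,k0,k0,k0,k0,k0,k8],[k0,k0,k0,k2],[k0,k0,k0,k6,k0,k0,k0,k0,k0,k8],
    [k6,k0,k0,k0,k0,k0,k6]] k120 k5
    [[(k3,k31),(k9,k31),(k10,k35),(k7,k39),(k11,k43),(k5,k45)],[(k9,k33),(k11,k35),(k3,k37),(k5,k37),(k10,k41),(k7,
    k45)],[(k1,k31),(k4,k36),(k0,k37),(k8,k40),(k2,k42),(k6,k46)],[(k10,k32),(k11,k36),(k9,k40),(k3,k42),(k5,k42),(k7,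
    k42)],[(k0,k37),(k2,k42),(k4,k44),(k6,k44),(k8,k44),(k1,k45)],[(k3,k36),(k10,k40),(k9,k42),(k5,k44),(k7,k44),(k11,
    k48)],[(k8,k34),(k1,k39),(k2,k42),(k4,k44),(k6,k44),(k0,k45)],[(k11,k40),(k9,k42),(k5,k44),(k7,k44),(k3,k46),(k10,
    k46)],[(k1,k31),(k0,k33),(k2,k40),(k8,k40),(k4,k42),(k6,k42)],[(k10,k30),(k7,k34),(k11,k38),(k3,k40),(k9,k40),(k5,
    k44)],[(k0,k35),(k2,k36),(k8,k38),(k6,k40),(k1,k43),(k4,k48)],[(k8,k30),(k2,k32),(k1,k35),(k4,k40),(k0,k41),(k6,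
    k46)]]
    [] k0
    [[k1,k1,k0,k0,k0,k1],[k1,k0,k0,k0,k1,k1],[k1,k0,k0,k0,k0,k1],[k0,k2,k0,k0,k0,k0],[k0,k1,k1,k0,k0,k0],[k0,k1,k0,k1,
    k0,k0],[k0,k1,k0,k0,k1,k0],[k0,k0,k2,k0,k0,k0],[k0,k0,k1,k1,k0,k0],[k0,k0,k1,k0,k1,k0],[k0,k0,k0,k2,k0,k0],[k0,k0,
    k0,k1,k1,k0],[k0,k0,k0,k1,k2,k0],[k0,k0,k0,k0,k2,k0]]
    [.ref k4 k0 [(z1,[z1])],.ref k4 k1 [(z1,[z1])],.contra [y1,z1],.contra [z1],.contra [y1,y1,z1],.ref k8 k0 [(z1,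
    [y1,z1]),(z1,[z0,y1,z1])],.contra [y1,y1,z1],.contra [z1],.ref k1 k1 [(z1,[y1,z0,z1])],.contra [y1,y1,z1],
    .contra [z1],.ref k0 k0 [(z1,[y1,z0,z1])],.ref k6 k1 [(z1,[y1,z1]),(z1,[z0,y1,z1])],.contra [z1]]),
    .old (.lp [k28,k82,k82,k112,k82,k92] [k58,k64,k34,k34,k34,k34,k19,k19,k68,k0,k34,k24] k0 [[k0,k0,k0,k0,k0,k0,k44],[],
    [k0,k0,k0,k0,k0,k0,k0,k0,k44],[k0,k0,k0,k0,k0,k2],[k0,k0,k2],[k0,k0,k0,k0,k0,k0,k0,k32],[k0,k0,k0,k0,k32],[k0,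
    k44],[],[k0,k0,k0,k44]] (nat_lit 240) k6
    [[(k3,k52),(k5,k52),(k10,k52),(k11,k62),(k7,k67),(k9,k86)],[(k9,k48),(k3,k58),(k5,k58),(k10,k58),(k11,k68),(k7,
    k73)],[(k8,k48),(k1,k52),(k0,k58),(k2,k82),(k4,k82),(k6,k141)],[(k11,k48),(k3,k82),(k5,k82),(k10,k82),(k7,k99),
    (k9,k116)],[(k1,k52),(k0,k58),(k4,k80),(k2,k82),(k8,k92),(k6,k97)],[(k5,k80),(k3,k82),(k10,k82),(k11,k92),(k7,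
    k97),(k9,k148)],[(k8,k63),(k1,k67),(k0,k73),(k6,k80),(k4,k97),(k2,k99)],[(k7,k80),(k5,k97),(k10,k97),(k11,k107),
    (k9,k131),(k3,k141)],[(k0,k48),(k8,k82),(k1,k86),(k2,k116),(k6,k131),(k4,k148)],[(k3,k48),(k10,k48),(k11,k58),(k7,
    k63),(k9,k82),(k5,k92)],[(k2,k48),(k8,k58),(k1,k62),(k0,k68),(k4,k92),(k6,k107)],[(k8,k48),(k1,k52),(k0,k58),(k2,
    k82),(k4,k82),(k6,k97)]]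
    [] k0
    [[k1,k1,k0,k0,k0,k1],[k1,k1,k0,k0,k1,k1],[k1,k0,k1,k0,k0,k1],[k1,k0,k0,k1,k0,k1],[k1,k0,k0,k0,k1,k1],[k1,k0,k0,k0,
    k0,k1],[k0,k2,k0,k0,k0,k0],[k0,k1,k1,k0,k0,k0],[k0,k1,k0,k0,k1,k0],[k0,k0,k2,k0,k0,k0],[k0,k0,k1,k1,k0,k0],[k0,k0,
    k0,k2,k0,k0],[k0,k0,k0,k1,k1,k0],[k0,k0,k0,k0,k2,k0]]
    [.ref k4 k0 [(z1,[z1])],.ref k1 k1 [(z1,[z1])],.ref k9 k0 [(z1,[z1])],.ref k9 k1 [(z1,[z1])],.ref k4 k1 [(z1,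
    [z1])],.ref k3 k1 [(z1,[z1])],.contra [z1],.ref k0 k1 [(z1,[y1,z1])],.ref k2 k1 [(z1,[y1,z1])],.contra [z1],
    .ref k1 k1 [(z1,[y1,z1])],.contra [z1],.ref k0 k0 [(z1,[y1,z1])],.contra [z1]])]⟩

/-- classes `0 0 0 0 0 0`, types `C0 C0 C0 C0 C2 C2` -/
noncomputable def cU6_5 : CertX :=
  ⟨[k4,k4,k4,k4,k6,k6],[(true,k4,[k4,k3,k2,k1,k0,k5]),(false,k0,[k0,k1,k2,k3,k4,k5])],[[[([z1,z0,z1,z1,z1,z0],z2)],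
    [([z1,z1,z0,z1,z1,z0],z2)],[([z1,z0,z0,z1,z1,z1],z2)],[([z1,z0,z0,z0,z1,z1],z2)],[([z1,z0,z0,z0,z1,z0],z2)],[([z1,
    z0,z0,z1,z1,z0],z2)],[([z1,z0,z1,z0,z1,z0],z2)],[([z3,z0,z0,z0,z3,z0],z2),([z0,z1,z0,z1,z0,z0],z2),([z0,z0,z3,z0,
    z0,z0],z2)],[([z1,z0,z0,z0,z1,z0],z1),([z0,z1,z0,z1,z0,z0],z2),([z0,z0,z3,z0,z0,z0],z2)],[([z3,z0,z0,z0,z3,z3],
    z4),([z0,z1,z0,z1,z0,z0],z2)],[([z1,z0,z0,z0,z1,z0],z1),([z0,z1,z0,z1,z0,z0],z2),([z0,z0,z3,z0,z0,z0],z1)],[([z1,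
    z0,z0,z0,z1,z0],z1),([z0,z1,z0,z1,z0,z0],z2),([z0,z0,z2,z0,z0,z0],z1)]],[[([z1,z0,z0,z0,z1,z0],z1),([z0,z1,z0,z1,
    z0,z0],z2)],[([z1,z0,z1,z0,z1,z1],z2)],[]]],
    [.old (.leafM k1 [k2,k3,k4,k0] [] [(k5,k1,z1,[y1,z1]),(k1,k5,z1,[y1,z1])]),
    .old (.leafM k2 [k0,k1,k3,k4] [] [(k2,k5,z1,[y1,z1]),(k5,k2,z1,[y1,z1])]),
    .old (.leafM k0 [k0,k3,k4,k5] [] [(k1,k2,z1,[y1,z1]),(k2,k1,z1,[y1,z1])]),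
    .old (.leafM k0 [k0,k1,k2,k3,k4,k5] [(z1,[y1,z1])] []),
    .old (.leafM k1 [k1,k2,k3,k5] [] [(k4,k0,z1,[z1]),(k0,k4,z1,[z1])]),
    .old (.leafM k3 [k4,k5,k0,k1,k2,k3] [(z1,[y1,z1])] []),
    .old (.leafM k5 [k2,k3,k4,k5,k0,k1] [(z1,[y1,z1]),(z1,[z1])] []),
    .old (.leafM k10 [k0,k2,k4,k5] [(z1,[z0,z0,z1]),(z1,[y1,y3,y1,z3]),(z1,[z1])] [(k1,k3,z1,[z0,z1]),(k3,k1,z1,[z0,z1])]),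
    .old (.leafM k11 [k0,k2,k4,k5] [(z1,[z0,z0,z1]),(z1,[y3,y3,y1,z3]),(z1,[z1])] [(k1,k3,z1,[z0,z1]),(k3,k1,z1,[z0,z1])]),
    .old (.lp [k50,k118,k82,k120,k46,k62] [k35,k35,k1,k1,k19,k19,k0,k0,k37,k37,k29,k29] k0 [[],[],[k0,k0,k0,k0,k0,k0,k0,
    k0,k0,k34],[k0,k0,k0,k0,k0,k2],[k0,k0,k2],[],[],[],[k0,k0,k0,k34]] (nat_lit 240) k6
    [[(k8,k48),(k9,k48),(k10,k56),(k5,k66),(k3,k84),(k7,k85)],[(k8,k48),(k9,k48),(k10,k56),(k5,k66),(k3,k84),(k7,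
    k85)],[(k0,k84),(k1,k84),(k11,k90),(k4,k100),(k2,k118),(k6,k119)],[(k8,k48),(k9,k82),(k10,k90),(k5,k100),(k3,
    k118),(k7,k121)],[(k0,k66),(k1,k66),(k4,k80),(k2,k100),(k6,k101),(k11,k106)],[(k8,k64),(k9,k64),(k10,k72),(k5,
    k80),(k3,k100),(k7,k101)],[(k0,k85),(k1,k85),(k11,k91),(k4,k101),(k6,k120),(k2,k121)],[(k8,k83),(k9,k83),(k10,
    k91),(k5,k101),(k3,k119),(k7,k120)],[(k0,k48),(k1,k48),(k11,k54),(k4,k64),(k2,k82),(k6,k83)],[(k0,k48),(k1,k48),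
    (k2,k48),(k11,k54),(k4,k64),(k6,k83)],[(k8,k54),(k9,k54),(k10,k62),(k3,k90),(k7,k91),(k5,k106)],[(k0,k56),(k1,
    k56),(k11,k62),(k4,k72),(k2,k90),(k6,k91)]]
    [] k0
    [[k1,k1,k0,k0,k1,k0],[k1,k0,k1,k0,k1,k0],[k1,k0,k0,k1,k1,k0],[k1,k0,k0,k0,k1,k0],[k2,k0,k0,k0,k2,k0],[k1,k0,k0,k0,
    k1,k1],[k1,k0,k0,k0,k1,k2],[k0,k2,k0,k0,k0,k0],[k0,k1,k1,k0,k0,k0],[k0,k1,k0,k0,k0,k1],[k0,k0,k2,k0,k0,k0],[k0,k0,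
    k1,k1,k0,k0],[k0,k0,k1,k0,k0,k1],[k0,k0,k0,k1,k0,k1],[k0,k0,k0,k0,k0,k2],[k0,k0,k0,k0,k0,k3]]
    [.ref k5 k0 [(z1,[z1])],.contra [y1,z0,y1,z1],.ref k5 k1 [(z1,[z1])],.contra [y1,z0,y1,z1],.ref k8 k1 [(z2,[z1]),
    (z1,[z0,z0,z1]),(z1,[z0,y1,y3,z3])],.contra [z1,y1,y2,z2],.ref k7 k1 [(z1,[y3,z2]),(z1,[z0,z0,z1]),(z1,[z0,y1,y3,
    z3])],.contra [z1],.ref k2 k1 [(z1,[y1,z0,z0,z1])],.ref k0 k1 [(z1,[y1,z0,z0,z1])],.contra [z1],.ref k2 k0 [(z1,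
    [y1,z0,z0,z1])],.contra [y1,z0,y1,z1],.ref k0 k0 [(z1,[y1,z0,z0,z1])],.contra [z1],.ref k7 k1 [(z1,[y1,z1]),(z1,
    [z0,z0,z1]),(z1,[z0,y1,y3,z3])]]),
    .old (.leafM k11 [k4,k5,k0,k2] [(z1,[y3,y3,y1,z3]),(z1,[z0,z0,z1]),(z1,[z1])] [(k1,k3,z1,[z0,z1]),(k3,k1,z1,[z0,z1])]),
    .old (.leafM k12 [k0,k2,k4,k5] [(z1,[z0,z0,z1]),(z1,[y2,y2,y1,z2]),(z1,[z1])] [(k1,k3,z1,[z0,z1]),(k3,k1,z1,[z0,z1])]),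
    .old (.lp [k16,k56,k34,k56,k44,k32] [k20,k20,k0,k0,k11,k11,k0,k0,k6,k6,k12,k12] k0 [[k0,k0,k0,k0,k4],[],[k0,k0,k0,k0,
    k0,k0,k4,k0,k0,k26],[k0,k0,k0,k0,k0,k8],[k0,k0,k8],[k0,k4,k0,k0,k0,k0,k0,k0,k0,k0,k2],[],[k0,k0,k0,k4],[k0,k0,k0,
    k26],[],[],[k0,k0,k0,k0,k2]] k120 k6
    [[(k10,k24),(k5,k25),(k8,k30),(k9,k30),(k7,k34),(k3,k36)],[(k10,k24),(k5,k25),(k8,k30),(k9,k30),(k7,k32),(k3,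
    k36)],[(k0,k36),(k1,k36),(k11,k44),(k4,k49),(k2,k56),(k6,k56)],[(k8,k24),(k10,k44),(k5,k45),(k9,k46),(k3,k56),(k7,
    k64)],[(k0,k25),(k1,k25),(k4,k26),(k2,k45),(k6,k49),(k11,k59)],[(k5,k26),(k10,k35),(k8,k39),(k9,k39),(k7,k45),(k3,
    k49)],[(k0,k32),(k1,k34),(k11,k44),(k4,k45),(k6,k56),(k2,k64)],[(k10,k44),(k5,k49),(k8,k50),(k9,k50),(k3,k56),(k7,
    k56)],[(k0,k30),(k1,k30),(k11,k38),(k4,k39),(k2,k46),(k6,k50)],[(k2,k24),(k0,k30),(k1,k30),(k11,k38),(k4,k39),(k6,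
    k50)],[(k10,k32),(k8,k38),(k9,k38),(k3,k44),(k7,k44),(k5,k59)],[(k0,k24),(k1,k24),(k11,k32),(k4,k35),(k2,k44),(k6,
    k44)]]
    [] k0
    [[k1,k1,k0,k0,k1,k0],[k1,k0,k1,k0,k1,k0],[k1,k0,k0,k1,k1,k0],[k1,k0,k0,k0,k1,k0],[k1,k0,k0,k0,k1,k1],[k0,k2,k0,k0,
    k0,k0],[k0,k1,k1,k0,k0,k0],[k0,k1,k0,k0,k0,k1],[k0,k0,k2,k0,k0,k0],[k0,k0,k3,k0,k0,k0],[k0,k0,k4,k0,k0,k0],[k0,k0,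
    k1,k1,k0,k0],[k0,k0,k1,k0,k0,k1],[k0,k0,k0,k2,k0,k0],[k0,k0,k0,k1,k0,k1],[k0,k0,k0,k0,k0,k2],[k0,k0,k0,k0,k0,k3]]
    [.contra [z1,y1],.contra [z1,y1],.contra [y1,z1,z1],.contra [y2,z2,z1],.contra [z1,y1],.contra [z1],
    .ref k2 k1 [(z1,[y1,z0,z0,z1])],.ref k0 k1 [(z1,[y1,z0,z0,z1])],.contra [z1],.ref k9 k1 [(z1,[y1,z0,y3,z3]),(z1,
    [z0,z0,z1])],.ref k11 k1 [(z1,[z0,z1]),(z1,[z0,z0,z1]),(z2,[z1])],.ref k2 k0 [(z1,[y1,z0,z0,z1])],.contra [y2,y2,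
    y1,z2],.contra [y1,z0,z2],.ref k0 k0 [(z1,[y1,z0,z0,z1])],.contra [z1],.ref k10 k1 [(z1,[z0,z1]),(z1,[z0,z0,z1]),
    (z1,[y1,y3,y3,z3])]]),
    .old (.lp [k80,k124,k96,k82,k16,k80] [k22,k22,k0,k0,k14,k14,k21,k21,k54,k54,k22,k22] k0 [[k0,k0,k0,k0,k20],[],[k0,k0,
    k0,k0,k0,k0,k0,k0,k0,k2],[k0,k0,k0,k0,k0,k34],[k0,k0,k34],[k0,k20],[],[],[k0,k0,k0,k2]] (nat_lit 240) k6
    [[(k8,k48),(k9,k48),(k10,k80),(k7,k81),(k5,k88),(k3,k102)],[(k8,k48),(k9,k48),(k7,k61),(k10,k80),(k5,k88),(k3,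
    k102)],[(k0,k102),(k1,k102),(k11,k102),(k6,k103),(k2,k124),(k4,k130)],[(k8,k68),(k9,k70),(k10,k102),(k5,k110),(k3,
    k124),(k7,k137)],[(k4,k62),(k0,k88),(k1,k88),(k6,k89),(k11,k90),(k2,k110)],[(k8,k56),(k9,k56),(k5,k62),(k10,k88),
    (k7,k89),(k3,k130)],[(k0,k61),(k1,k81),(k11,k81),(k6,k82),(k4,k89),(k2,k137)],[(k8,k49),(k9,k49),(k10,k81),(k7,
    k82),(k5,k89),(k3,k103)],[(k0,k48),(k1,k48),(k11,k48),(k6,k49),(k4,k56),(k2,k70)],[(k0,k48),(k1,k48),(k11,k48),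
    (k6,k49),(k4,k56),(k2,k68)],[(k8,k48),(k9,k48),(k10,k80),(k7,k81),(k5,k90),(k3,k102)],[(k0,k80),(k1,k80),(k11,
    k80),(k6,k81),(k4,k88),(k2,k102)]]
    [] k0
    [[k1,k1,k0,k0,k1,k0],[k1,k0,k1,k0,k1,k0],[k1,k0,k0,k1,k1,k0],[k1,k0,k0,k0,k1,k0],[k2,k0,k0,k0,k2,k0],[k1,k0,k0,k0,
    k1,k1],[k1,k0,k0,k1,k1,k1],[k0,k1,k0,k0,k0,k1],[k0,k0,k2,k0,k0,k0],[k0,k0,k3,k0,k0,k0],[k0,k0,k1,k1,k0,k0],[k0,k0,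
    k1,k0,k0,k1],[k0,k0,k0,k2,k0,k0],[k0,k0,k0,k1,k0,k1],[k0,k0,k0,k0,k0,k2]]
    [.ref k5 k0 [(z1,[z1])],.contra [y1,z1],.ref k5 k1 [(z1,[z1])],.contra [y1,z1],.ref k12 k1 [(z2,[z1]),(z1,[z0,y1,
    z1])],.contra [y1,z1],.ref k2 k1 [(z1,[z1])],.ref k0 k1 [(z1,[y1,z0,z1])],.contra [z1],.ref k9 k1 [(z1,[y1,z3]),
    (z1,[z0,y1,z1])],.ref k2 k0 [(z1,[y1,z0,z1])],.contra [y1,z1],.contra [y1,y2,z2],.ref k0 k0 [(z1,[y1,z0,z1])],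
    .contra [z1]]),
    .old (.lp [k98,k116,k122,k116,k82,k180] [k41,k41,k32,k32,k29,k29,k32,k32,k49,k49,k0,k0] k0 [[k0,k0,k12],[],[],[k0,
    k12],[k0,k0,k0,k0,k0,k0,k12],[],[],[k0,k0,k0,k0,k0,k12]] (nat_lit 360) k5
    [[(k8,k90),(k9,k90),(k3,k107),(k7,k107),(k5,k110),(k10,k139)],[(k8,k90),(k9,k90),(k5,k98),(k3,k107),(k7,k107),
    (k10,k139)],[(k0,k107),(k1,k107),(k6,k116),(k4,k119),(k2,k128),(k11,k148)],[(k8,k99),(k9,k99),(k7,k116),(k5,k119),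
    (k3,k128),(k10,k148)],[(k0,k98),(k1,k110),(k2,k119),(k6,k119),(k4,k122),(k11,k151)],[(k9,k90),(k8,k102),(k3,k119),
    (k7,k119),(k5,k122),(k10,k151)],[(k0,k107),(k1,k107),(k2,k116),(k4,k119),(k6,k128),(k11,k148)],[(k8,k99),(k9,k99),
    (k3,k116),(k5,k119),(k7,k128),(k10,k148)],[(k0,k90),(k1,k90),(k4,k90),(k2,k99),(k6,k99),(k11,k131)],[(k0,k90),(k1,
    k90),(k2,k99),(k6,k99),(k4,k102),(k11,k131)],[(k8,k131),(k9,k131),(k3,k148),(k7,k148),(k5,k151),(k10,k180)],[(k0,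
    k139),(k1,k139),(k2,k148),(k6,k148),(k4,k151),(k11,k180)]]
    [] k0
    [[k1,k1,k0,k0,k1,k0],[k1,k0,k1,k0,k1,k0],[k1,k0,k0,k1,k1,k0],[k1,k0,k0,k0,k1,k0],[k0,k2,k0,k0,k0,k0],[k0,k1,k1,k0,
    k0,k0],[k0,k1,k1,k1,k0,k0],[k0,k1,k0,k1,k0,k0],[k0,k1,k0,k0,k0,k1],[k0,k0,k2,k0,k0,k0],[k0,k0,k1,k1,k0,k0],[k0,k0,
    k1,k0,k0,k1],[k0,k0,k0,k2,k0,k0],[k0,k0,k0,k1,k0,k1]]
    [.ref k5 k0 [(z1,[z1])],.ref k6 k1 [(z1,[z1])],.ref k5 k1 [(z1,[z1])],.ref k4 k1 [(z1,[z1])],.contra [z1],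
    .ref k2 k1 [(z1,[y1,z1])],.ref k3 k1 [(z1,[y1,z1])],.ref k13 k1 [(z1,[y1,z1])],.ref k0 k1 [(z1,[y1,z1])],
    .contra [z1],.ref k2 k0 [(z1,[y1,z1])],.ref k1 k1 [(z1,[y1,z1])],.contra [z1],.ref k0 k0 [(z1,[y1,z1])]])]⟩

/-- classes `0 0 0 0 0 0`, types `C0 C0 C0 C2 C0 C2` -/
noncomputable def cU6_6 : CertX :=
  ⟨[k4,k4,k4,k6,k4,k6],[(true,k3,[k3,k2,k1,k0,k5,k4]),(false,k0,[k0,k1,k2,k3,k4,k5])],[[[([z1,z1,z1,z1,z0,z0],z2)],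
    [([z1,z0,z0,z0,z0,z1],z2)],[([z1,z0,z1,z1,z0,z0],z2)],[([z1,z0,z0,z1,z1,z1],z2)],[([z1,z0,z0,z1,z0,z0],z2)],[([z1,
    z1,z0,z0,z0,z1],z2)],[]]],
    [.old (.leafM k0 [k0,k1,k2,k3] [] [(k4,k5,z1,[y1,z1]),(k5,k4,z1,[y1,z1])]),
    .old (.leafM k0 [k1,k2,k3,k4] [] [(k5,k0,z1,[z1]),(k0,k5,z1,[z1])]),
    .old (.leafM k3 [k5,k0,k1,k2,k3,k4] [(z1,[z1])] []),
    .old (.leafM k0 [k0,k3,k4,k5] [] [(k1,k2,z1,[y1,z1]),(k2,k1,z1,[y1,z1])]),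
    .old (.leafM k2 [k1,k2,k4,k5] [] [(k3,k0,z1,[z1]),(k0,k3,z1,[z1])]),
    .old (.leafM k0 [k1,k2,k3,k4,k5,k0] [(z1,[y1,z1])] []),
    .old (.lp [k18,k18,k18,k10,k20,k10] [k1,k1,k1,k1,k1,k1,k5,k5,k0,k0,k5,k5] k0 [[],[k0,k0,k0,k2],[k2,k0,k0,k0,k0,k0,k0,
    k0,k0,k0,k0,k2],[],[],[],[],[],[],[],[k0,k0,k0,k2]] k48 k5
    [[(k6,k14),(k7,k14),(k10,k14),(k11,k14),(k3,k18),(k5,k20)],[(k6,k14),(k7,k14),(k10,k14),(k11,k14),(k3,k18),(k5,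
    k20)],[(k2,k16),(k0,k18),(k1,k18),(k4,k18),(k8,k19),(k9,k19)],[(k10,k12),(k6,k14),(k7,k14),(k11,k14),(k3,k16),(k5,
    k18)],[(k2,k18),(k4,k18),(k8,k19),(k9,k19),(k0,k20),(k1,k20)],[(k6,k14),(k7,k14),(k10,k14),(k11,k14),(k3,k18),(k5,
    k18)],[(k0,k14),(k1,k14),(k2,k14),(k4,k14),(k8,k15),(k9,k15)],[(k0,k14),(k1,k14),(k2,k14),(k4,k14),(k8,k15),(k9,
    k15)],[(k6,k15),(k7,k15),(k10,k15),(k11,k15),(k3,k19),(k5,k19)],[(k6,k15),(k7,k15),(k10,k15),(k11,k15),(k3,k19),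
    (k5,k19)],[(k0,k14),(k1,k14),(k2,k14),(k4,k14),(k8,k15),(k9,k15)],[(k2,k12),(k0,k14),(k1,k14),(k4,k14),(k8,k15),
    (k9,k15)]]
    [] k0
    [[k1,k1,k0,k1,k0,k0],[k1,k1,k0,k0,k0,k1],[k1,k0,k0,k1,k0,k0],[k1,k0,k0,k0,k0,k1],[k0,k2,k0,k0,k0,k0],[k0,k1,k1,k0,
    k0,k0],[k0,k1,k0,k0,k1,k1],[k0,k0,k2,k0,k0,k0],[k0,k0,k0,k1,k1,k0],[k0,k0,k0,k0,k1,k1]]
    [.ref k2 k0 [(z1,[z1])],.ref k5 k1 [(z1,[z1])],.ref k4 k1 [(z1,[z1])],.ref k1 k1 [(z1,[z1])],.contra [z1],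
    .ref k3 k1 [(z1,[y1,z1])],.ref k2 k1 [(z1,[y1,z1])],.contra [z1],.ref k1 k0 [(z1,[z1])],.ref k0 k1 [(z1,[y1,
    z1])]])]⟩

/-- classes `0 0 0 0 0 0`, types `C0 C0 C0 C2 C2 C2` -/
noncomputable def cU6_7 : CertX :=
  ⟨[k4,k4,k4,k6,k6,k6],[(false,k0,[k0,k1,k2,k3,k4,k5]),(true,k3,[k3,k2,k1,k0,k5,k4]),(false,k3,[k3,k4,k5,k0,k1,k2]),
    (true,k0,[k0,k5,k4,k3,k2,k1])],[[[([z1,z0,z0,z1,z1,z1],z2)],[([z1,z0,z1,z1,z0,z1],z2)],[([z1,z0,z1,z1,z1,z0],z2)],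
    [([z1,z0,z0,z1,z0,z1],z2)],[([z1,z0,z0,z1,z0,z0],z2)],[]]],
    [.old (.leafM k0 [k0,k3,k4,k5] [] [(k1,k2,z1,[y1,z1]),(k2,k1,z1,[y1,z1])]),
    .old (.leafM k2 [k2,k3,k5,k0] [] [(k4,k1,z1,[y1,z1]),(k1,k4,z1,[y1,z1])]),
    .old (.leafM k1 [k2,k3,k4,k0] [] [(k5,k1,z1,[y1,z1]),(k1,k5,z1,[y1,z1])]),
    .old (.leafM k3 [k2,k3,k4,k5,k0,k1] [(z1,[z1])] []),
    .old (.leafM k2 [k1,k2,k4,k5] [] [(k3,k0,z1,[z1]),(k0,k3,z1,[z1])]),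
    .old (.lp [(nat_lit 4425),(nat_lit 3600),(nat_lit 3600),(nat_lit 2596),(nat_lit 3422),(nat_lit 3422)] [(nat_lit 1239),
    k0,(nat_lit 1032),(nat_lit 1032),(nat_lit 1032),(nat_lit 1032),(nat_lit 1534),(nat_lit 1534),(nat_lit 1121),
    (nat_lit 1121),(nat_lit 1121),(nat_lit 1121)] k0 [[],[],[],[],[],[],[k0,k0,k0,k0,k0,k0,k0,k0,(nat_lit 354)],[],
    [k0,k0,k0,k0,k0,k0,k0,k0,k0,k0,(nat_lit 1888)],[k0,k0,k0,k0,k0,k0,k0,(nat_lit 354)],[],[k0,k0,k0,k0,k0,k0,k0,k0,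
    k0,(nat_lit 1888)]] (nat_lit 10620) k5
    [[(k8,(nat_lit 2655)),(k6,(nat_lit 4130)),(k7,(nat_lit 4130)),(k10,(nat_lit 4543)),(k3,(nat_lit 4632)),(k5,
    (nat_lit 4632))],[(k6,(nat_lit 2891)),(k7,(nat_lit 2891)),(k8,(nat_lit 3304)),(k10,(nat_lit 3304)),(k3,
    (nat_lit 3393)),(k5,(nat_lit 3393))],[(k0,(nat_lit 3393)),(k9,(nat_lit 3511)),(k11,(nat_lit 3511)),(k2,
    (nat_lit 3600)),(k4,(nat_lit 3600)),(k1,(nat_lit 4632))],[(k6,(nat_lit 3098)),(k7,(nat_lit 3098)),(k8,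
    (nat_lit 3511)),(k10,(nat_lit 3511)),(k3,(nat_lit 3600)),(k5,(nat_lit 3600))],[(k0,(nat_lit 3393)),(k9,
    (nat_lit 3511)),(k11,(nat_lit 3511)),(k2,(nat_lit 3600)),(k4,(nat_lit 3600)),(k1,(nat_lit 4632))],[(k6,
    (nat_lit 3098)),(k7,(nat_lit 3098)),(k8,(nat_lit 3511)),(k10,(nat_lit 3511)),(k3,(nat_lit 3600)),(k5,
    (nat_lit 3600))],[(k0,(nat_lit 2891)),(k9,(nat_lit 3009)),(k11,(nat_lit 3009)),(k2,(nat_lit 3098)),(k4,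
    (nat_lit 3098)),(k1,(nat_lit 4130))],[(k11,(nat_lit 2655)),(k0,(nat_lit 2891)),(k9,(nat_lit 3009)),(k2,
    (nat_lit 3098)),(k4,(nat_lit 3098)),(k1,(nat_lit 4130))],[(k6,(nat_lit 3009)),(k7,(nat_lit 3009)),(k10,
    (nat_lit 3422)),(k3,(nat_lit 3511)),(k5,(nat_lit 3511)),(k8,(nat_lit 3776))],[(k1,(nat_lit 2655)),(k0,
    (nat_lit 3304)),(k11,(nat_lit 3422)),(k2,(nat_lit 3511)),(k4,(nat_lit 3511)),(k9,(nat_lit 3776))],[(k6,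
    (nat_lit 2655)),(k7,(nat_lit 3009)),(k8,(nat_lit 3422)),(k3,(nat_lit 3511)),(k5,(nat_lit 3511)),(k10,
    (nat_lit 5310))],[(k0,(nat_lit 3304)),(k9,(nat_lit 3422)),(k2,(nat_lit 3511)),(k4,(nat_lit 3511)),(k1,
    (nat_lit 4543)),(k11,(nat_lit 5310))]]
    [] k0
    [[k1,k0,k0,k1,k0,k0],[k1,k0,k0,k1,k1,k0],[k1,k0,k0,k1,k0,k1],[k0,k2,k0,k0,k0,k0],[k0,k1,k1,k0,k0,k0],[k0,k1,k0,k0,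
    k1,k0],[k0,k1,k0,k0,k1,k1],[k0,k1,k0,k0,k0,k1],[k0,k0,k2,k0,k0,k0],[k0,k0,k1,k0,k1,k0],[k0,k0,k1,k0,k1,k1],[k0,k0,
    k1,k0,k0,k1],[k0,k0,k0,k0,k2,k0],[k0,k0,k0,k0,k1,k1]]
    [.ref k4 k0 [(z1,[z1])],.ref k3 k1 [(z1,[z1])],.ref k3 k0 [(z1,[z1])],.contra [z1],.ref k0 k0 [(z1,[y1,z1])],
    .ref k1 k0 [(z1,[y1,z1])],.ref k3 k2 [(z1,[y1,z1])],.ref k2 k0 [(z1,[y1,z1])],.contra [z1],.ref k2 k2 [(z1,[y1,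
    z1])],.ref k3 k3 [(z1,[y1,z1])],.ref k1 k3 [(z1,[y1,z1])],.contra [z1],.ref k0 k2 [(z1,[y1,z1])]])]⟩

/-- classes `0 0 0 0 0 0`, types `C0 C0 C2 C0 C0 C2` -/
noncomputable def cU6_8 : CertX :=
  ⟨[k4,k4,k6,k4,k4,k6],[(false,k0,[k0,k1,k2,k3,k4,k5]),(true,k2,[k2,k1,k0,k5,k4,k3]),(false,k3,[k3,k4,k5,k0,k1,k2])],
    [[[([z1,z0,z1,z0,z0,z0],z2)],[([z1,z0,z0,z0,z0,z1],z2)],[([z1,z0,z1,z1,z0,z1],z2)],[([z1,z0,z0,z0,z1,z1],z2)],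
    [([z1,z0,z1,z0,z1,z0],z2)],[([z1,z1,z1,z0,z0,z0],z2)],[]]],
    [.old (.leafM k1 [k3,k4,k5,k1] [] [(k0,k2,z1,[z1]),(k2,k0,z1,[z1])]),
    .old (.leafM k0 [k1,k2,k3,k4] [] [(k5,k0,z1,[z1]),(k0,k5,z1,[z1])]),
    .old (.leafM k5 [k0,k2,k3,k5] [] [(k1,k4,z1,[y1,z1]),(k4,k1,z1,[y1,z1])]),
    .old (.leafM k0 [k0,k1,k2,k3,k4,k5] [(z1,[y1,z1])] []),
    .old (.leafM k1 [k0,k1,k2,k3,k4,k5] [(z1,[y1,z1]),(z1,[z1])] []),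
    .old (.leafM k0 [k2,k3,k4,k5,k0,k1] [(z1,[y1,z1])] []),
    .old (.lp [k8,k8,k4,k10,k10,k6] [k1,k1,k1,k1,k3,k3,k0,k0,k0,k0,k2,k2] k0 [] k24 k5
    [[(k4,k6),(k5,k6),(k10,k7),(k11,k7),(k3,k8),(k9,k9)],[(k4,k6),(k5,k6),(k10,k7),(k11,k7),(k3,k8),(k9,k9)],[(k0,k8),
    (k1,k8),(k2,k8),(k6,k9),(k7,k9),(k8,k9)],[(k4,k6),(k5,k6),(k10,k7),(k11,k7),(k3,k8),(k9,k9)],[(k0,k6),(k1,k6),(k2,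
    k6),(k6,k7),(k7,k7),(k8,k7)],[(k0,k6),(k1,k6),(k2,k6),(k6,k7),(k7,k7),(k8,k7)],[(k4,k7),(k5,k7),(k10,k8),(k11,k8),
    (k3,k9),(k9,k10)],[(k4,k7),(k5,k7),(k10,k8),(k11,k8),(k3,k9),(k9,k10)],[(k0,k9),(k1,k9),(k2,k9),(k6,k10),(k7,k10),
    (k8,k10)],[(k4,k7),(k5,k7),(k10,k8),(k11,k8),(k3,k9),(k9,k10)],[(k0,k7),(k1,k7),(k2,k7),(k6,k8),(k7,k8),(k8,k8)],
    [(k0,k7),(k1,k7),(k2,k7),(k6,k8),(k7,k8),(k8,k8)]]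
    [] k0
    [[k1,k1,k1,k0,k0,k0],[k1,k1,k0,k0,k0,k1],[k1,k0,k1,k0,k0,k0],[k1,k0,k1,k0,k1,k0],[k1,k0,k0,k0,k0,k1],[k0,k2,k0,k0,
    k0,k0],[k0,k1,k1,k1,k0,k0],[k0,k1,k0,k0,k1,k0],[k0,k0,k1,k1,k0,k0],[k0,k0,k0,k1,k0,k1],[k0,k0,k0,k0,k2,k0]]
    [.ref k5 k0 [(z1,[z1])],.ref k3 k1 [(z1,[y1,z1])],.ref k0 k0 [(z1,[z1])],.ref k4 k0 [(z1,[z1])],.ref k1 k0 [(z1,
    [z1])],.contra [z1],.ref k3 k0 [(z1,[y1,z1])],.ref k2 k0 [(z1,[y1,z1])],.ref k1 k2 [(z1,[z1])],.ref k0 k2 [(z1,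
    [z1])],.contra [z1]])]⟩

/-- classes `0 0 0 0 0 0`, types `C0 C0 C2 C0 C2 C2` -/
noncomputable def cU6_9 : CertX :=
  ⟨[k4,k4,k6,k4,k6,k6],[(true,k0,[k0,k5,k4,k3,k2,k1]),(false,k0,[k0,k1,k2,k3,k4,k5])],[[[([z1,z1,z0,z0,z1,z1],z2)],
    [([z1,z0,z1,z0,z0,z1],z2)],[([z1,z0,z1,z1,z1,z0],z2)],[([z1,z0,z0,z0,z1,z1],z2)],[([z1,z0,z0,z0,z1,z0],z2)],[]]],
    [.old (.leafM k0 [k0,k1,k4,k5] [] [(k2,k3,z1,[y1,z1]),(k3,k2,z1,[y1,z1])]),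
    .old (.leafM k3 [k0,k1,k2,k3,k4,k5] [(z1,[y1,z1])] []),
    .old (.leafM k1 [k2,k3,k4,k0] [] [(k5,k1,z1,[y1,z1]),(k1,k5,z1,[y1,z1])]),
    .old (.leafM k0 [k0,k1,k2,k3,k4,k5] [(z1,[y1,z1])] []),
    .old (.leafM k1 [k1,k2,k3,k5] [] [(k4,k0,z1,[z1]),(k0,k4,z1,[z1])]),
    .old (.lp [k4,k4,k2,k4,k4,k4] [k0,k0,k0,k0,k1,k1,k0,k0,k0,k0,k0,k0] k0 [] k12 k5
    [[(k4,k3),(k5,k3),(k3,k4),(k8,k4),(k9,k4),(k10,k4)],[(k4,k3),(k5,k3),(k3,k4),(k8,k4),(k9,k4),(k10,k4)],[(k0,k4),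
    (k1,k4),(k2,k4),(k6,k4),(k7,k4),(k11,k4)],[(k4,k3),(k5,k3),(k3,k4),(k8,k4),(k9,k4),(k10,k4)],[(k0,k3),(k1,k3),(k2,
    k3),(k6,k3),(k7,k3),(k11,k3)],[(k0,k3),(k1,k3),(k2,k3),(k6,k3),(k7,k3),(k11,k3)],[(k4,k3),(k5,k3),(k3,k4),(k8,k4),
    (k9,k4),(k10,k4)],[(k4,k3),(k5,k3),(k3,k4),(k8,k4),(k9,k4),(k10,k4)],[(k0,k4),(k1,k4),(k2,k4),(k6,k4),(k7,k4),
    (k11,k4)],[(k0,k4),(k1,k4),(k2,k4),(k6,k4),(k7,k4),(k11,k4)],[(k4,k3),(k5,k3),(k3,k4),(k8,k4),(k9,k4),(k10,k4)],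
    [(k0,k4),(k1,k4),(k2,k4),(k6,k4),(k7,k4),(k11,k4)]]
    [] k0
    [[k1,k1,k1,k0,k0,k0],[k1,k0,k1,k0,k0,k0],[k1,k0,k1,k0,k0,k1],[k1,k0,k0,k0,k1,k0],[k0,k2,k0,k0,k0,k0],[k0,k1,k1,k1,
    k0,k0],[k0,k1,k0,k0,k0,k1],[k0,k0,k1,k1,k0,k0],[k0,k0,k1,k1,k0,k1],[k0,k0,k0,k1,k1,k0],[k0,k0,k0,k0,k0,k2]]
    [.ref k3 k0 [(z1,[z1])],.ref k4 k0 [(z1,[z1])],.ref k1 k1 [(z1,[z1])],.ref k4 k1 [(z1,[z1])],.contra [z1],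
    .ref k3 k1 [(z1,[y1,z1])],.ref k2 k1 [(z1,[y1,z1])],.ref k0 k1 [(z1,[y1,z1])],.ref k1 k0 [(z1,[y1,z1])],
    .ref k0 k0 [(z1,[y1,z1])],.contra [z1]])]⟩

/-- classes `0 0 0 0 0 0`, types `C0 C2 C0 C2 C0 C2` -/
noncomputable def cU6_10 : CertX :=
  ⟨[k4,k6,k4,k6,k4,k6],[(false,k5,[k5,k0,k1,k2,k3,k4]),(false,k0,[k0,k1,k2,k3,k4,k5]),(false,k4,[k4,k5,k0,k1,k2,k3]),
    (false,k2,[k2,k3,k4,k5,k0,k1]),(false,k3,[k3,k4,k5,k0,k1,k2]),(false,k1,[k1,k2,k3,k4,k5,k0])],[[[([z1,z0,z0,z0,z0,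
    z1],z2)],[([z1,z0,z0,z1,z0,z0],z2)],[]]],
    [.old (.leafM k0 [k1,k2,k3,k4] [] [(k5,k0,z1,[z1]),(k0,k5,z1,[z1])]),
    .old (.leafM k2 [k1,k2,k4,k5] [] [(k3,k0,z1,[z1]),(k0,k3,z1,[z1])]),
    .old (.lp [k0,k2,k0,k2,k0,k2] [k1,k1,k0,k0,k1,k1,k0,k0,k1,k1,k0,k0] k0 [] k4 k5
    [[(k2,k1),(k3,k1),(k6,k1),(k7,k1),(k10,k1),(k11,k1)],[(k2,k1),(k3,k1),(k6,k1),(k7,k1),(k10,k1),(k11,k1)],[(k0,k1),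
    (k1,k1),(k4,k1),(k5,k1),(k8,k1),(k9,k1)],[(k0,k1),(k1,k1),(k4,k1),(k5,k1),(k8,k1),(k9,k1)],[(k2,k1),(k3,k1),(k6,
    k1),(k7,k1),(k10,k1),(k11,k1)],[(k2,k1),(k3,k1),(k6,k1),(k7,k1),(k10,k1),(k11,k1)],[(k0,k1),(k1,k1),(k4,k1),(k5,
    k1),(k8,k1),(k9,k1)],[(k0,k1),(k1,k1),(k4,k1),(k5,k1),(k8,k1),(k9,k1)],[(k2,k1),(k3,k1),(k6,k1),(k7,k1),(k10,k1),
    (k11,k1)],[(k2,k1),(k3,k1),(k6,k1),(k7,k1),(k10,k1),(k11,k1)],[(k0,k1),(k1,k1),(k4,k1),(k5,k1),(k8,k1),(k9,k1)],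
    [(k0,k1),(k1,k1),(k4,k1),(k5,k1),(k8,k1),(k9,k1)]]
    [] k0
    [[k1,k1,k0,k0,k0,k0],[k1,k0,k0,k1,k0,k0],[k1,k0,k0,k0,k0,k1],[k0,k1,k1,k0,k0,k0],[k0,k1,k0,k0,k1,k0],[k0,k0,k1,k1,
    k0,k0],[k0,k0,k1,k0,k0,k1],[k0,k0,k0,k1,k1,k0],[k0,k0,k0,k0,k1,k1]]
    [.ref k0 k0 [(z1,[z1])],.ref k1 k1 [(z1,[z1])],.ref k0 k1 [(z1,[z1])],.ref k0 k2 [(z1,[z1])],.ref k1 k3 [(z1,
    [z1])],.ref k0 k4 [(z1,[z1])],.ref k1 k5 [(z1,[z1])],.ref k0 k3 [(z1,[z1])],.ref k0 k5 [(z1,[z1])]])]⟩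

/-- classes `0 0 0 0 0 0`, types `N0 N0 N0 N1 N1 N1` -/
noncomputable def cU6_11 : CertX :=
  ⟨[k12,k12,k12,k13,k13,k13],[(false,k3,[k3,k4,k5,k0,k1,k2]),(false,k0,[k0,k1,k2,k3,k4,k5]),(true,k0,[k0,k5,k4,k3,k2,
    k1]),(true,k3,[k3,k2,k1,k0,k5,k4])],[[[([z1,z0,z1,z1,z0,z1],z2)],[([z1,z0,z1,z0,z1,z0],z2)],[([z3,z0,z0,z0,z0,z0],
    z1),([z0,z1,z0,z0,z0,z1],z1),([z0,z0,z1,z0,z1,z0],z2)],[([z3,z0,z0,z0,z0,z0],z1),([z0,z1,z0,z0,z0,z1],z2),([z0,z0,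
    z1,z0,z1,z0],z1)],[([z2,z0,z0,z0,z0,z0],z1),([z0,z1,z0,z0,z0,z1],z1),([z0,z0,z1,z0,z1,z0],z2)],[([z1,z0,z0,z0,y1,
    z1],z0),([z0,z1,z0,z0,z0,z1],z1),([z0,z0,z1,z0,z1,z0],z2)],[([z1,z0,z0,z1,z0,z0],z1),([z0,z1,z0,z0,z0,z1],z1)],
    [([z1,z0,z0,y1,z0,z0],z0),([z0,z1,z0,z1,z1,z0],z2)],[([z3,z0,z0,z0,z0,z0],z2),([z0,z3,z0,z0,z3,z0],z4),([z0,z0,z1,
    z0,z1,z0],z2)],[([z1,z0,z0,z0,y1,z1],z0),([z0,z1,z0,z1,z1,z0],z2)],[([z3,z0,z0,z0,z0,z0],z2),([z0,z3,z0,z0,z0,z3],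
    z2),([z0,z0,z1,z0,z1,z0],z2)],[([z3,z0,z0,z0,z0,z0],z2),([z0,z1,z0,z0,z0,z1],z2)]],[[([z1,z0,z1,z1,z1,z0],z2)],
    [([z1,z0,z1,z0,z0,z1],z2)],[]]],
    [.old (.leafM k5 [k0,k2,k3,k5] [] [(k1,k4,z1,[y1,z1]),(k4,k1,z1,[y1,z1])]),
    .old (.leafM k1 [k0,k1,k2,k3,k4,k5] [(z1,[y1,z1]),(z1,[z1])] []),
    .old (.leafM k11 [k1,k3,k5,k0] [(z1,[y1,y3,y3,z3]),(z1,[z1]),(z1,[z0,z1])] [(k2,k4,z1,[z0,z0,z1]),(k4,k2,z1,[z0,z0,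
    z1])]),
    .old (.leafM k11 [k2,k3,k4,k0] [(z1,[y1,y3,y3,z3]),(z1,[z1]),(z1,[z0,z0,z1])] [(k5,k1,z1,[z0,z1]),(k1,k5,z1,[z0,z1])]),
    .old (.leafM k12 [k1,k3,k5,k0] [(z1,[y1,y2,y2,z2]),(z1,[z1]),(z1,[z0,z1])] [(k2,k4,z1,[z0,z0,z1]),(k4,k2,z1,[z0,z0,
    z1])]),
    .old (.lp [k48,k36,k68,k60,k146,k112] [k49,k49,k55,k55,k39,k39,k43,k43,k0,k0,k17,k17] k0 [[],[k0,k0,k0,k0,k0,k0,k0,k0,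
    k0,k38],[k0,k0,k0,k0,k0,k0,k0,k0,k26],[k0,k0,k0,k0,k0,k0,k0,k0,k0,k0,k0,k6],[],[],[],[],[k38],[k0,k0,k0,k26],[k0,
    k0,k6]] (nat_lit 240) k6
    [[(k0,k48),(k2,k48),(k4,k58)],[(k1,k48),(k9,k97),(k11,k118)],[(k6,k48),(k8,k53),(k10,k74)],[(k1,k48),(k11,k48),
    (k9,k91)],[(k6,k64),(k10,k84),(k8,k133)],[(k1,k58),(k11,k90),(k9,k107)],[(k6,k60),(k10,k86),(k8,k103)],[(k3,k48),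
    (k7,k60),(k5,k64)],[(k2,k91),(k0,k97),(k4,k107)],[(k3,k53),(k7,k103),(k5,k133)],[(k2,k48),(k4,k90),(k0,k118)],
    [(k3,k74),(k5,k84),(k7,k86)]]
    [] k0
    [[k2,k0,k0,k0,k0,k0],[k3,k0,k0,k0,k0,k0],[k4,k0,k0,k0,k0,k0],[k1,k1,k0,k0,k1,k0],[k0,k1,k0,k1,k0,k1],[k0,k1,k0,k0,
    k1,k0],[k0,k1,k0,k0,k0,k1],[k0,k0,k1,k0,k0,k1],[k0,k0,k0,k2,k0,k0],[k0,k0,k0,k3,k0,k0]]
    [.contra [z1],.ref k3 k0 [(z1,[y1,z0,y3,y3,z3]),(z1,[z0,z0,z0,z1]),(z1,[z0,z0,z1])],.ref k4 k1 [(z2,[z1]),(z1,[z0,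
    z0,z1]),(z1,[z0,z0,z0,z1])],.ref k4 k1 [(z1,[z1,z1,y1]),(z1,[z0,z0,z1]),(z1,[z0,z0,z0,z1])],.contra [z1,z0,y1],
    .contra [z1,z1,y1],.contra [y1,z0,z0,y1,z1],.contra [z1,y1,y1,y2,z1],.contra [z1],.ref k2 k1 [(z1,[y1,z0,y3,y3,
    z3]),(z1,[z0,z0,z1]),(z1,[z0,z0,z0,z1])]]),
    .old (.lp [k66,(nat_lit 252),k126,k86,(nat_lit 218),k192] [k106,k106,k12,k14,k76,k76,k96,k96,k0,k60,k86,k0] k0 [[],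
    [k0,k0,k0,k0,k0,k0,k0,k0,k0,k0,k0,k30],[k0,k0,k0,k0,k0,k0,k0,k0,k170],[k0,k0,k0,k0,k0,k0,k0,k10],[k0,k0,k0,k0,k0,
    k0,k34],[k0,k0,k0,k0,k0,k0,k0,k0,k0,k86],[k0,k0,k10],[k0,k0,k0,k0,k0,k34],[k0,k0,k0,k0,k86],[k0,k0,k0,k170],
    [k30]] (nat_lit 480) k6
    [[(k0,k96),(k4,k96),(k2,k160)],[(k1,k96),(k9,k112),(k11,k172)],[(k10,k148),(k6,k168),(k8,(nat_lit 264))],[(k11,
    k96),(k1,k160),(k9,(nat_lit 216))],[(k6,k96),(k10,k116),(k8,(nat_lit 372))],[(k1,k96),(k9,k108),(k11,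
    (nat_lit 288))],[(k8,k96),(k10,k96),(k6,k120)],[(k5,k96),(k7,k120),(k3,k168)],[(k4,k108),(k0,k112),(k2,
    (nat_lit 216))],[(k7,k96),(k3,(nat_lit 264)),(k5,(nat_lit 372))],[(k2,k96),(k0,k172),(k4,(nat_lit 288))],[(k7,
    k96),(k5,k116),(k3,k148)]]
    [] k0
    [[k2,k0,k0,k0,k0,k0],[k3,k0,k0,k0,k0,k0],[k4,k0,k0,k0,k0,k0],[k1,k0,k1,k1,k1,k0],[k1,k0,k1,k1,k0,k1],[k1,k0,k1,k0,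
    k0,k1],[k0,k1,k0,k1,k0,k1],[k0,k1,k0,k0,k0,k1],[k0,k0,k1,k2,k1,k0],[k0,k0,k1,k1,k1,k0],[k0,k0,k1,k0,k0,k1],[k0,k0,
    k0,k2,k0,k0],[k0,k0,k0,k3,k0,k0]]
    [.contra [z1],.ref k3 k0 [(z1,[y1,z3]),(z1,[z0,y1,y1,z1]),(z1,[z0,z0,z1])],.ref k4 k1 [(z2,[z1]),(z1,[z0,z0,z1]),
    (z1,[z0,y1,y1,z1])],.contra [z1,z1,z1,y1],.ref k0 k1 [(z1,[z1])],.ref k5 k1 [(z1,[z1,z1,z1,y1]),(z1,[z0,z0,z1]),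
    (z1,[z0,y1,y1,z1])],.contra [z1,z0,y1],.contra [y1,z1,z1],.contra [y1,z1,y1,z1],.contra [y1,z0,y1,z1],
    .ref k0 k2 [(z1,[y1,z0,z0,z1])],.contra [z1],.ref k2 k1 [(z1,[y1,z3]),(z1,[z0,z0,z1]),(z1,[z0,y1,y1,z1])]]),
    .old (.tor k0 false k0 [(z1,[y1,y1,z1]),(z1,[z0,z1]),(z1,[z0,y1,z1]),(z1,[z1,z1])]),
    .old (.lp [k80,k64,k136,k60,k94,k44] [k28,k28,k36,k36,k0,k0,k38,k38,k21,k21,k50,k42] k0 [[k0,k0,k0,k0,k0,k0,k22],[k0,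
    k0,k0,k0,k0,k0,k0,k0,k0,k14],[k0,k0,k0,k0,k0,k0,k0,k0,k10],[k0,k0,k0,k0,k0,k0,k0,k0,k0,k0,k0,k38],[k0,k0,k0,k0,k0,
    k0,k0,k0,k0,k0,k60],[],[],[k0,k22],[k14],[k0,k0,k0,k10],[k0,k0,k38],[k0,k0,k0,k0,k0,k60]] (nat_lit 240) k6
    [[(k4,k48),(k0,k80),(k2,k110)],[(k9,k65),(k1,k80),(k11,k80)],[(k10,k50),(k8,k65),(k6,k84)],[(k11,k48),(k9,k79),
    (k1,k110)],[(k10,k48),(k6,k98),(k8,k125)],[(k1,k48),(k11,k94),(k9,k115)],[(k6,k60),(k8,k77),(k10,k108)],[(k7,k60),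
    (k3,k84),(k5,k98)],[(k0,k65),(k2,k79),(k4,k115)],[(k3,k65),(k7,k77),(k5,k125)],[(k2,k48),(k0,k80),(k4,k94)],[(k5,
    k48),(k3,k50),(k7,k108)]]
    [] k0
    [[k2,k0,k0,k0,k0,k0],[k1,k0,k1,k0,k1,k0],[k1,k0,k1,k0,k0,k1],[k0,k1,k0,k0,k1,k0],[k0,k1,k0,k0,k0,k1],[k0,k2,k0,k0,
    k0,k2],[k0,k0,k1,k0,k0,k1],[k0,k0,k0,k2,k0,k0],[k0,k0,k0,k3,k0,k0]]
    [.contra [z1],.contra [y1,z1,z0,z1],.ref k7 k1 [(z3,[z3,z1,z1,z0,y3]),(z1,[y1,z0,z0,z0,z1])],.contra [z3,z2,y1],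
    .contra [y1,z0,z0,y1,z1],.ref k6 k1 [(z2,[y1,z0,z0,y2,z2]),(z2,[z1])],.contra [y3,y1,y1,z0,z3],.contra [z1],
    .ref k7 k1 [(z3,[y1,z1]),(z3,[z1,z0,z1])]]),
    .old (.lp [(nat_lit 5610),(nat_lit 1496),(nat_lit 4488),(nat_lit 7480),(nat_lit 15300),
    (nat_lit 10472)] [(nat_lit 4845),(nat_lit 4845),(nat_lit 6902),(nat_lit 6902),(nat_lit 5406),(nat_lit 5406),
    (nat_lit 3910),(nat_lit 3910),k0,k0,(nat_lit 3734),(nat_lit 1094)] k0 [[],[k0,k0,k0,k0,k0,k0,k0,k0,k0,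
    (nat_lit 3366)],[k0,k0,k0,k0,k0,k0,k0,k0,(nat_lit 2805)],[k0,k0,k0,k0,k0,k0,k0,k0,k0,k0,k0,(nat_lit 1496)],[],[],
    [],[],[(nat_lit 3366)],[k0,k0,k0,(nat_lit 2805)],[k0,k0,(nat_lit 1496)]] (nat_lit 22440) k6
    [[(k2,(nat_lit 5049)),(k4,(nat_lit 5049)),(k0,(nat_lit 5610))],[(k1,(nat_lit 5610)),(k9,(nat_lit 10455)),(k11,
    (nat_lit 12727))],[(k6,(nat_lit 4488)),(k10,(nat_lit 4664)),(k8,(nat_lit 5032))],[(k11,(nat_lit 4499)),(k1,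
    (nat_lit 5049)),(k9,(nat_lit 8398))],[(k10,(nat_lit 4664)),(k6,(nat_lit 5984)),(k8,(nat_lit 12699))],[(k1,
    (nat_lit 5049)),(k11,(nat_lit 8800)),(k9,(nat_lit 9894))],[(k6,(nat_lit 7480)),(k10,(nat_lit 7656)),(k8,
    (nat_lit 11390))],[(k3,(nat_lit 4488)),(k5,(nat_lit 5984)),(k7,(nat_lit 7480))],[(k2,(nat_lit 8398)),(k4,
    (nat_lit 9894)),(k0,(nat_lit 10455))],[(k3,(nat_lit 5032)),(k7,(nat_lit 11390)),(k5,(nat_lit 12699))],[(k2,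
    (nat_lit 4499)),(k4,(nat_lit 8800)),(k0,(nat_lit 12727))],[(k3,(nat_lit 4664)),(k5,(nat_lit 4664)),(k7,
    (nat_lit 7656))]]
    [] k0
    [[k2,k0,k0,k0,k0,k0],[k3,k0,k0,k0,k0,k0],[k1,k1,k0,k0,k1,k0],[k0,k1,k0,k1,k0,k1],[k0,k1,k0,k0,k1,k0],[k0,k1,k0,k0,
    k0,k1],[k0,k2,k0,k0,k0,k2],[k0,k0,k1,k0,k0,k1],[k0,k0,k0,k2,k0,k0]]
    [.contra [z1],.ref k8 k2 [(z1,[z1]),(z1,[y1,z0,y3,z3]),(z1,[z0,y1,y1,z1])],.ref k7 k1 [(z1,[z1,z0,y1]),(z1,[z0,z0,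
    z1])],.contra [y1,z1,z1],.contra [y1,z0,z1],.contra [y1,z1,z1],.ref k6 k1 [(z2,[y1,z2,z2]),(z2,[z1])],.contra [y1,
    z0,y1,z1],.contra [z1]]),
    .old (.leafM k10 [k1,k3,k5,k0] [(z1,[y1,y1,y3,z3]),(z1,[z1]),(z1,[z0,z1])] [(k2,k4,z1,[z0,z0,z1]),(k4,k2,z1,[z0,z0,
    z1])]),
    .old (.lp [k62,k137,k81,k60,k99,k39] [k48,k48,k0,k21,k52,k25,k49,k49,k3,k56,k61,k58] k0 [[k0,k0,k0,k0,k0,k0,k0,k0,k4],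
    [k0,k0,k0,k0,k0,k0,k0,k0,k0,k0,k0,k18],[k0,k0,k0,k0,k0,k0,k0,k0,k0,k0,k62],[k0,k0,k0,k0,k0,k0,k0,k0,k0,k82],[],[],
    [],[],[k0,k0,k82],[k0,k4],[k18],[k0,k0,k0,k62]] (nat_lit 240) k6
    [[(k2,k48),(k4,k58),(k0,k80)],[(k11,k48),(k9,k54),(k1,k80)],[(k10,k58),(k6,k88),(k8,k138)],[(k1,k48),(k9,k102),
    (k11,k182)],[(k8,k48),(k6,k84),(k10,k134)],[(k11,k48),(k9,k50),(k1,k58)],[(k10,k48),(k6,k60),(k8,k106)],[(k7,k60),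
    (k5,k84),(k3,k88)],[(k4,k50),(k0,k54),(k2,k102)],[(k5,k48),(k7,k106),(k3,k138)],[(k0,k48),(k4,k48),(k2,k182)],
    [(k7,k48),(k3,k58),(k5,k134)]]
    [] k0
    [[k2,k0,k0,k0,k0,k0],[k2,k1,k0,k0,k0,k1],[k1,k1,k0,k1,k0,k1],[k1,k1,k0,k0,k0,k1],[k1,k0,k1,k1,k0,k1],[k1,k0,k1,k0,
    k1,k0],[k0,k0,k1,k1,k0,k1],[k0,k0,k1,k0,k1,k0],[k0,k0,k2,k0,k2,k0],[k0,k0,k1,k0,k0,k1],[k0,k0,k0,k2,k0,k0],[k0,k0,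
    k0,k3,k0,k0]]
    [.contra [z1],.contra [y1,z2,z1],.contra [z1,z0,y1],.contra [y1,z1,z1],.ref k0 k1 [(z1,[z1])],.contra [y1,z0,y1,
    z1],.ref k9 k0 [(z1,[z1,z0,y1]),(z1,[y1,z0,z0,z1])],.contra [y1,z0,y1,z1],.ref k6 k0 [(z2,[y1,z0,y2,z2]),(z2,
    [z1])],.ref k0 k2 [(z1,[y1,z0,z0,z1])],.contra [z1],.ref k10 k0 [(z1,[z1]),(z1,[y1,y1,y3,z3]),(z1,[z0,z0,z1])]]),
    .old (.lp [k60,k120,k40,k80,k68,k110] [k30,k30,k0,k0,k44,k36,k20,k20,k26,k26,k5,k5] k0 [[],[k0,k0,k0,k0,k0,k0,k0,k52],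
    [k0,k0,k0,k0,k0,k0,k46],[k0,k0,k0,k0,k0,k0,k0,k0,k0,k10],[k0,k0,k0,k0,k0,k0,k0,k0,k6],[k0,k0,k0,k0,k0,k0,k0,k0,k0,
    k0,k0,k30],[k52],[k0,k0,k0,k46],[k0,k0,k10],[k0,k0,k0,k0,k0,k6],[k0,k0,k0,k0,k30]] (nat_lit 240) k6
    [[(k0,k60),(k4,k76),(k2,k90)],[(k1,k60),(k11,k85),(k9,k116)],[(k6,k48),(k8,k94),(k10,k115)],[(k9,k48),(k1,k90),
    (k11,k125)],[(k8,k48),(k10,k79),(k6,k110)],[(k9,k50),(k11,k65),(k1,k76)],[(k10,k65),(k6,k80),(k8,k80)],[(k3,k48),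
    (k7,k80),(k5,k110)],[(k2,k48),(k4,k50),(k0,k116)],[(k5,k48),(k7,k80),(k3,k94)],[(k4,k65),(k0,k85),(k2,k125)],[(k7,
    k65),(k5,k79),(k3,k115)]]
    [] k0
    [[k2,k0,k0,k0,k0,k0],[k3,k0,k0,k0,k0,k0],[k0,k1,k0,k1,k1,k0],[k0,k1,k0,k1,k0,k1],[k0,k1,k0,k0,k1,k0],[k0,k0,k1,k0,
    k1,k0],[k0,k0,k2,k0,k2,k0],[k0,k0,k1,k0,k0,k1],[k0,k0,k0,k2,k0,k0]]
    [.contra [z1],.ref k11 k1 [(z1,[z1]),(z1,[z0,y1,z1])],.ref k9 k3 [(z1,[z1,z1,y1]),(z1,[y1,z0,z1])],.contra [z1,z1,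
    y1],.ref k0 k1 [(z1,[y1,z0,z1])],.contra [y1,z1],.ref k6 k0 [(z2,[y1,z2]),(z2,[z1])],.ref k0 k2 [(z1,[y1,z0,z1])],
    .contra [z1]]),
    .old (.lp [k24,k6,k4,k20,k20,k20] [k0,k0,k9,k9,k10,k10,k2,k2,k2,k2,k2,k2] k0 [[k0,k0,k0,k0,k0,k0,k2],[],[],[],[],[k0,
    k0,k0,k0,k0,k0,k0,k4],[k0,k0,k0,k0,k4],[k0,k2]] k48 k5
    [[(k4,k14),(k2,k15),(k0,k24)],[(k9,k20),(k11,k22),(k1,k24)],[(k8,k13),(k10,k13),(k6,k15)],[(k9,k13),(k11,k13),(k1,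
    k15)],[(k6,k12),(k8,k12),(k10,k12)],[(k11,k12),(k1,k14),(k9,k16)],[(k6,k16),(k8,k20),(k10,k20)],[(k5,k12),(k3,
    k15),(k7,k16)],[(k2,k13),(k4,k16),(k0,k20)],[(k5,k12),(k3,k13),(k7,k20)],[(k4,k12),(k2,k13),(k0,k22)],[(k5,k12),
    (k3,k13),(k7,k20)]]
    [] k0
    [[k1,k0,k1,k0,k1,k0],[k0,k1,k0,k0,k1,k0],[k0,k1,k0,k0,k0,k1],[k0,k0,k1,k1,k0,k1],[k0,k0,k1,k0,k1,k0],[k0,k0,k1,k0,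
    k0,k1],[k0,k0,k0,k2,k0,k0]]
    [.ref k1 k1 [(z1,[z1])],.contra [y1,y1,z1],.ref k12 k1 [(z1,[y1,z0,z1])],.ref k7 k1 [(z1,[y1,z1]),(z1,[z0,y1,
    z1])],.ref k12 k0 [(z1,[y1,z0,z1])],.contra [y1,z1],.contra [z1]]),
    .old (.lp [k24,k6,k4,k20,k20,k20] [k0,k0,k9,k9,k10,k10,k2,k2,k2,k2,k2,k2] k0 [[k0,k0,k0,k0,k0,k0,k2],[],[],[],[],[k0,
    k0,k0,k0,k0,k0,k0,k4],[k0,k0,k0,k0,k4],[k0,k2]] k48 k5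
    [[(k4,k14),(k2,k15),(k0,k24)],[(k9,k20),(k11,k22),(k1,k24)],[(k8,k13),(k10,k13),(k6,k15)],[(k9,k13),(k11,k13),(k1,
    k15)],[(k6,k12),(k8,k12),(k10,k12)],[(k11,k12),(k1,k14),(k9,k16)],[(k6,k16),(k8,k20),(k10,k20)],[(k5,k12),(k3,
    k15),(k7,k16)],[(k2,k13),(k4,k16),(k0,k20)],[(k5,k12),(k3,k13),(k7,k20)],[(k4,k12),(k2,k13),(k0,k22)],[(k5,k12),
    (k3,k13),(k7,k20)]]
    [] k0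
    [[k1,k0,k1,k0,k1,k0],[k0,k1,k0,k0,k1,k0],[k0,k1,k0,k0,k0,k1],[k0,k0,k1,k1,k0,k1],[k0,k0,k1,k0,k1,k0],[k0,k0,k1,k0,
    k0,k1],[k0,k0,k0,k2,k0,k0]]
    [.ref k1 k1 [(z1,[z1])],.ref k0 k1 [(z1,[y1,z1])],.ref k12 k1 [(z1,[y1,z1])],.ref k13 k0 [(z1,[z1])],
    .ref k12 k0 [(z1,[y1,z1])],.ref k0 k2 [(z1,[y1,z1])],.contra [z1]])]⟩

/-- classes `0 0 0 0 0 0`, types `N0 N0 N0 N1 N1 N2` -/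
noncomputable def cU6_12 : CertX :=
  ⟨[k12,k12,k12,k13,k13,k14],[(false,k0,[k0,k1,k2,k3,k4,k5])],[[[([z1,z0,z1,z1,z0,z1],z2)],[([z1,z1,z0,z1,z0,z1],z2)],
    []]],
    [.old (.leafM k6 [k0,k2,k3,k5] [] [(k1,k4,z1,[y1,z1]),(k4,k1,z1,[y1,z1])]),
    .old (.lp [k18,k30,k70,k40,k50,k30] [k35,k35,k29,k29,k18,k0,k24,k24,k19,k19,k29,k29] k0 [[k0,k0,k0,k0,k0,k0,k4],[],
    [k0,k0,k0,k0,k0,k0,k0,k0,k0,k0,k0,k2],[k0,k0,k0,k0,k0,k0,k0,k40],[],[],[k0,k0,k40],[k0,k4],[],[],[k0,k0,k0,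
    k2]] k120 k6
    [[(k3,k24),(k7,k29),(k5,k55)],[(k10,k24),(k11,k24),(k9,k30)],[(k1,k24),(k6,k39),(k8,k40)],[(k10,k28),(k11,k30),
    (k9,k80)],[(k6,k24),(k1,k55),(k8,k69)],[(k10,k41),(k11,k41),(k9,k51)],[(k1,k29),(k6,k40),(k8,k45)],[(k5,k24),(k3,
    k39),(k7,k40)],[(k0,k30),(k4,k51),(k2,k80)],[(k3,k40),(k7,k45),(k5,k69)],[(k0,k24),(k2,k30),(k4,k41)],[(k0,k24),
    (k2,k28),(k4,k41)]]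
    [] k0
    [[k1,k1,k0,k0,k0,k1],[k1,k0,k1,k1,k0,k1],[k0,k0,k0,k2,k0,k0]]
    [.contra [y1,z1],.ref k0 k0 [(z1,[z1])],.contra [z1]]),
    .old (.lp [k12,k12,k14,k16,k16,k24] [k6,k6,k6,k6,k5,k5,k4,k4,k4,k4,k0,k0] k0 [[k0,k0,k0,k0,k0,k0,k2],[],[],[],[k0,k0,
    k0,k0,k0,k0,k0,k0,k2],[],[],[k0,k2],[],[k0,k0,k0,k0,k0,k2]] k48 k5
    [[(k3,k12),(k5,k13),(k7,k14)],[(k9,k12),(k10,k18),(k11,k18)],[(k1,k12),(k8,k14),(k6,k16)],[(k9,k14),(k10,k18),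
    (k11,k18)],[(k1,k13),(k6,k15),(k8,k15)],[(k9,k15),(k11,k17),(k10,k19)],[(k1,k14),(k6,k16),(k8,k18)],[(k5,k15),(k3,
    k16),(k7,k16)],[(k0,k12),(k2,k14),(k4,k15)],[(k3,k14),(k5,k15),(k7,k18)],[(k4,k17),(k0,k18),(k2,k18)],[(k0,k18),
    (k2,k18),(k4,k19)]]
    [] k0
    [[k0,k1,k0,k0,k1,k0],[k0,k0,k1,k0,k1,k0],[k0,k0,k0,k2,k0,k0]]
    [.ref k0 k0 [(z1,[y1,z1])],.ref k1 k0 [(z1,[y1,z1])],.contra [z1]])]⟩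

/-- classes `0 0 0 0 0 0`, types `N0 N0 N0 N1 N2 N1` -/
noncomputable def cU6_13 : CertX :=
  ⟨[k12,k12,k12,k13,k14,k13],[],[[[]]],
    [.old (.lp [k4,k2,k2,k6,k4,k4] [k1,k1,k2,k2,k2,k2,k0,k0,k1,k1,k1,k1] k0 [] k12 k5
    [[(k2,k3),(k4,k3),(k0,k4)],[(k1,k4),(k8,k4),(k9,k4)],[(k10,k3),(k11,k3),(k6,k4)],[(k1,k3),(k8,k3),(k9,k3)],[(k10,
    k3),(k11,k3),(k6,k4)],[(k1,k3),(k8,k3),(k9,k3)],[(k10,k5),(k11,k5),(k6,k6)],[(k3,k4),(k5,k4),(k7,k6)],[(k2,k3),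
    (k4,k3),(k0,k4)],[(k2,k3),(k4,k3),(k0,k4)],[(k3,k3),(k5,k3),(k7,k5)],[(k3,k3),(k5,k3),(k7,k5)]]
    [] k0
    [[k2,k0,k0,k0,k0,k0]]
    [.contra [z1]])]⟩

/-- classes `0 0 0 0 0 0`, types `N0 N0 N0 N1 N2 N2` -/
noncomputable def cU6_14 : CertX :=
  ⟨[k12,k12,k12,k13,k14,k14],[(false,k0,[k0,k1,k2,k3,k4,k5])],[[[([z1,z1,z0,z1,z1,z0],z2)],[([z1,z0,z1,z0,z1,z0],z2)],
    []]],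
    [.old (.leafM k6 [k0,k1,k3,k4] [] [(k2,k5,z1,[y1,z1]),(k5,k2,z1,[y1,z1])]),
    .old (.leafM k5 [k2,k3,k4,k5,k0,k1] [(z1,[y1,z1]),(z1,[z1])] []),
    .old (.lp [(nat_lit 5280),(nat_lit 18216),(nat_lit 6900),(nat_lit 10120),(nat_lit 6900),
    (nat_lit 12144)] [(nat_lit 6468),(nat_lit 6468),k0,k0,(nat_lit 5658),(nat_lit 5658),(nat_lit 4048),(nat_lit 4048),
    (nat_lit 5658),(nat_lit 5658),(nat_lit 3036),(nat_lit 3036)] k0 [[k0,k0,k0,k0,k0,k0,k0,k0,k0,k0,k0,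
    (nat_lit 1265)],[],[k0,k0,k0,k0,k0,k0,(nat_lit 1265)],[],[],[],[],[k0,k0,k0,(nat_lit 1265)],[],[],[k0,
    (nat_lit 1265)]] (nat_lit 30360) k6
    [[(k5,(nat_lit 6090)),(k7,(nat_lit 7700)),(k3,(nat_lit 13013))],[(k8,(nat_lit 6090)),(k9,(nat_lit 6090)),(k10,
    (nat_lit 7447))],[(k1,(nat_lit 13013)),(k6,(nat_lit 14168)),(k11,(nat_lit 15180))],[(k9,(nat_lit 11293)),(k8,
    (nat_lit 12558)),(k10,(nat_lit 15180))],[(k1,(nat_lit 6090)),(k11,(nat_lit 9522)),(k6,(nat_lit 9775))],[(k8,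
    (nat_lit 6900)),(k9,(nat_lit 6900)),(k10,(nat_lit 9522))],[(k1,(nat_lit 7700)),(k6,(nat_lit 10120)),(k11,
    (nat_lit 11132))],[(k5,(nat_lit 9775)),(k7,(nat_lit 10120)),(k3,(nat_lit 14168))],[(k0,(nat_lit 6090)),(k4,
    (nat_lit 6900)),(k2,(nat_lit 11293))],[(k0,(nat_lit 6090)),(k4,(nat_lit 6900)),(k2,(nat_lit 12558))],[(k5,
    (nat_lit 9522)),(k7,(nat_lit 11132)),(k3,(nat_lit 15180))],[(k0,(nat_lit 7447)),(k4,(nat_lit 9522)),(k2,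
    (nat_lit 15180))]]
    [] k0
    [[k1,k0,k1,k0,k1,k0],[k0,k0,k1,k0,k0,k1],[k0,k0,k0,k2,k0,k0]]
    [.ref k1 k0 [(z1,[z1])],.ref k0 k0 [(z1,[y1,z1])],.contra [z1]])]⟩

/-- classes `0 0 0 0 0 0`, types `N0 N0 N0 N2 N1 N2` -/
noncomputable def cU6_15 : CertX :=
  ⟨[k12,k12,k12,k14,k13,k14],[(false,k0,[k0,k1,k2,k3,k4,k5])],[[[([z1,z0,z0,z1,z0,z0],z2)],[([z1,z1,z0,z0,z0,z1],z2)],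
    []]],
    [.old (.leafM k6 [k1,k2,k4,k5] [] [(k3,k0,z1,[z1]),(k0,k3,z1,[z1])]),
    .old (.leafM k6 [k2,k3,k4,k5,k0,k1] [(z1,[z1])] []),
    .old (.lp [k6,k6,k6,k6,k12,k10] [k3,k3,k3,k3,k3,k3,k3,k3,k0,k0,k1,k1] k0 [[],[],[k0,k0,k0,k0,k0,k0,k0,k0,k0,k0,k0,k2],
    [],[],[],[],[],[],[],[k0,k0,k0,k2]] k24 k5
    [[(k3,k6),(k7,k6),(k5,k8)],[(k6,k6),(k10,k8),(k11,k8)],[(k1,k6),(k8,k9),(k9,k9)],[(k6,k6),(k10,k6),(k11,k8)],[(k1,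
    k8),(k8,k9),(k9,k9)],[(k6,k6),(k10,k8),(k11,k8)],[(k1,k6),(k8,k9),(k9,k9)],[(k0,k6),(k2,k6),(k4,k6)],[(k3,k9),(k5,
    k9),(k7,k9)],[(k3,k9),(k5,k9),(k7,k9)],[(k0,k8),(k2,k8),(k4,k8)],[(k2,k6),(k0,k8),(k4,k8)]]
    [] k0
    [[k1,k1,k0,k0,k0,k1],[k1,k0,k0,k1,k0,k0]]
    [.ref k1 k0 [(z1,[z1])],.ref k0 k0 [(z1,[z1])]])]⟩

/-- classes `0 0 0 0 0 0`, types `N0 N0 N0 N2 N2 N2` -/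
noncomputable def cU6_16 : CertX :=
  ⟨[k12,k12,k12,k14,k14,k14],[(false,k0,[k0,k1,k2,k3,k4,k5]),(false,k3,[k3,k4,k5,k0,k1,k2]),(true,k0,[k0,k5,k4,k3,k2,
    k1])],[[[([z1,z0,z1,z1,z1,z0],z2)],[([z1,z0,z0,z1,z0,z0],z1),([z0,z1,z0,z0,z1,z0],z1)],[([z1,z0,z1,z1,z0,z1],z2)],
    [([z1,z0,z0,z1,z0,z0],z2),([z0,z1,z0,z0,z1,z0],z1)],[([z1,z0,z0,z1,z0,z0],z2)],[]]],
    [.old (.leafM k3 [k2,k3,k4,k0] [] [(k5,k1,z1,[y1,z1]),(k1,k5,z1,[y1,z1])]),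
    .old (.leafM k7 [k0,k1,k3,k4] [(z1,[z0,z1])] [(k2,k5,z1,[y1,y1,z1]),(k5,k2,z1,[y1,y1,z1])]),
    .old (.lp [k50,k66,k6,k90,k154,k94] [k52,k52,k44,k44,k74,k74,k32,k32,k0,k0,k30,k30] k0 [[k0,k0,k0,k0,k0,k0,k0,k20],[],
    [k0,k0,k0,k0,k0,k0,k0,k0,k0,k0,k0,k20],[],[],[],[k0,k20],[],[],[],[k0,k0,k0,k20]] (nat_lit 240) k6
    [[(k5,k48),(k3,k58),(k7,k70)],[(k6,k50),(k10,k72),(k8,k102)],[(k1,k58),(k11,k80),(k9,k130)],[(k10,k60),(k6,k78),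
    (k8,k110)],[(k1,k48),(k11,k50),(k9,k80)],[(k6,k48),(k10,k50),(k8,k80)],[(k1,k70),(k11,k92),(k9,k122)],[(k4,k48),
    (k0,k50),(k2,k78)],[(k5,k80),(k7,k122),(k3,k130)],[(k4,k80),(k0,k102),(k2,k110)],[(k5,k50),(k3,k80),(k7,k92)],
    [(k4,k50),(k2,k60),(k0,k72)]]
    [] k0
    [[k1,k0,k0,k1,k0,k0],[k0,k1,k0,k0,k0,k1],[k0,k0,k1,k0,k1,k0],[k0,k0,k1,k0,k0,k1],[k0,k0,k2,k0,k0,k2]]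
    [.contra [y1,z1],.ref k0 k0 [(z1,[y1,z0,z1])],.ref k0 k1 [(z1,[y1,z0,z1])],.contra [y1,z1],.ref k1 k2 [(z2,[y1,
    z2]),(z2,[z1])]]),
    .old (.leafM k7 [k1,k2,k4,k5] [(z1,[y1,y1,z1])] [(k3,k0,z1,[z1]),(k0,k3,z1,[z1])]),
    .old (.lp [k48,k18,k0,k70,k42,k52] [k11,k11,k26,k26,k35,k35,k0,k0,k14,k14,k9,k9] k0 [[],[],[k0,k0,k0,k0,k0,k0,k0,k20],
    [],[k0,k0,k0,k0,k0,k0,k0,k0,k0,k0,k0,k2],[k0,k0,k0,k0,k0,k0,k0,k0,k8],[k0,k0,k0,k20],[],[],[k0,k0,k0,k0,k8],[k0,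
    k0,k0,k0,k0,k2]] k120 k6
    [[(k5,k24),(k3,k33),(k7,k61)],[(k8,k45),(k10,k50),(k6,k59)],[(k9,k30),(k1,k33),(k11,k35)],[(k6,k24),(k8,k30),(k10,
    k35)],[(k1,k24),(k11,k26),(k9,k41)],[(k10,k24),(k8,k29),(k6,k35)],[(k11,k53),(k9,k56),(k1,k61)],[(k2,k24),(k4,
    k35),(k0,k59)],[(k3,k30),(k5,k41),(k7,k56)],[(k4,k29),(k2,k30),(k0,k45)],[(k5,k26),(k3,k35),(k7,k53)],[(k4,k24),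
    (k2,k35),(k0,k50)]]
    [] k0
    [[k0,k1,k0,k0,k1,k0],[k0,k1,k0,k0,k0,k1],[k0,k0,k1,k0,k1,k0],[k0,k0,k1,k0,k0,k1],[k0,k0,k2,k0,k0,k2]]
    [.contra [y1,y1,z1],.contra [y1,y1,z1],.contra [y1,y1,z1],.contra [y1,y1,z1],.ref k3 k0 [(z1,[z0,z1]),(z2,[y1,y2,
    z2])]]),
    .old (.lp [k2,k2,k2,k2,k2,k2] [k0,k0,k0,k0,k0,k0,k0,k0,k0,k0,k0,k0] k0 [] k8 k5
    [[(k3,k2),(k5,k2),(k7,k2)],[(k6,k2),(k8,k2),(k10,k2)],[(k1,k2),(k9,k2),(k11,k2)],[(k6,k2),(k8,k2),(k10,k2)],[(k1,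
    k2),(k9,k2),(k11,k2)],[(k6,k2),(k8,k2),(k10,k2)],[(k1,k2),(k9,k2),(k11,k2)],[(k0,k2),(k2,k2),(k4,k2)],[(k3,k2),
    (k5,k2),(k7,k2)],[(k0,k2),(k2,k2),(k4,k2)],[(k3,k2),(k5,k2),(k7,k2)],[(k0,k2),(k2,k2),(k4,k2)]]
    [] k0
    [[k1,k0,k0,k1,k0,k0],[k0,k1,k0,k0,k1,k0],[k0,k1,k0,k0,k0,k1],[k0,k0,k1,k0,k1,k0],[k0,k0,k1,k0,k0,k1]]
    [.ref k4 k0 [(z1,[z1])],.ref k2 k0 [(z1,[y1,z1])],.ref k0 k0 [(z1,[y1,z1])],.ref k0 k1 [(z1,[y1,z1])],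
    .ref k2 k2 [(z1,[y1,z1])]])]⟩

/-- classes `0 0 0 0 0 0`, types `N0 N0 N1 N0 N1 N1` -/
noncomputable def cU6_17 : CertX :=
  ⟨[k12,k12,k13,k12,k13,k13],[(false,k0,[k0,k1,k2,k3,k4,k5]),(true,k0,[k0,k5,k4,k3,k2,k1])],[[[([z1,z0,z0,z1,z0,z0],
    z2)],[([z1,z0,z0,z0,y2,z0],y2),([z0,z1,z0,z0,z1,z1],z2),([z0,z0,z1,z0,z1,z0],z2)],[([z3,z0,z0,z0,y3,z0],y2),([z0,
    z1,z0,z0,z1,z1],z2),([z0,z0,z1,z0,z1,z0],z2)],[([z1,z0,z0,z1,y1,z0],z0),([z0,z1,z0,z0,z1,z1],z2)],[([z3,z0,z0,z0,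
    z0,z0],z1),([z0,z1,z0,z0,z0,z1],z1),([z0,z0,z1,z0,z1,z0],z2)],[([z3,z0,z0,z0,z0,z0],z2),([z0,z1,z0,z0,z0,z1],z1),
    ([z0,z0,z1,z0,z1,z0],z2)],[([z2,z0,z0,z0,z0,z0],z1),([z0,z1,z0,z0,z0,z1],z1),([z0,z0,z1,z0,z1,z0],z2)],[([z1,z0,
    z0,z1,z0,z0],z1),([z0,z1,z0,z0,z0,z1],z1)],[([z3,z0,z0,z0,z0,z0],z2),([z0,z3,z0,z0,z0,z3],z2),([z0,z0,z1,z0,z1,
    z0],z2)],[([z3,z0,z0,z0,z0,z0],z2),([z0,z3,z0,z3,z0,z3],z4)],[([z1,z1,z0,z1,z0,z1],z2)],[([z3,z0,z0,z0,z0,z0],z1),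
    ([z0,z1,z0,z0,z0,z1],z2),([z0,z0,z1,z0,z1,z0],z1)]],[[([z3,z0,z0,z0,z0,z0],z2),([z0,z1,z0,z0,z0,z1],z2),([z0,z0,
    z3,z0,z3,z0],z2)],[([z3,z0,z0,z0,y3,z0],y2),([z0,z1,z0,z0,z0,z1],z2),([z0,z0,z1,z0,z2,z0],z2)],[([z3,z0,z3,z0,z3,
    z0],z4),([z0,z1,z0,z0,z0,z1],z2)],[([z3,z0,z0,z0,z0,z0],z2),([z0,z1,z0,z0,z0,z1],z2),([z0,z0,z1,z0,z1,z0],z1)],
    [([z3,z0,z0,z0,z0,z0],z2),([z0,z1,z0,z0,z0,z1],z2),([z0,z0,z2,z0,z1,z0],z2)],[([z3,z0,z0,z0,z0,z0],z2),([z0,z1,z0,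
    z0,z0,z1],z2)],[([z2,z0,z0,z0,z0,z0],z1),([z0,z1,z0,z0,z0,z1],z2),([z0,z0,z1,z0,z1,z0],z1)],[([z2,z0,z0,z0,z0,z0],
    z1),([z0,z1,z0,z0,z0,z1],z2)],[([z1,z0,z1,z1,z1,z0],z2)],[([z3,z0,z0,z0,z0,z0],z2),([z0,z1,z0,z1,z0,z1],z2),([z0,
    z0,z3,z0,z0,z0],z2)],[([z3,z0,z0,z0,z0,z0],z2),([z0,z1,z0,z1,z0,z1],z2)],[([z3,z0,z0,z0,z0,z0],z2)]],[[]]],
    [.old (.leafM k5 [k1,k2,k4,k5] [] [(k3,k0,z1,[z1]),(k0,k3,z1,[z1])]),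
    .old (.tor k15 false k0 [(z1,[z0,z0,z1]),(z1,[z0,z1]),(z1,[y1,y2,y2,z2]),(z1,[z1,z1,z1])]),
    .old (.lp [k62,k26,k80,k80,k160,k70] [k49,k49,k67,k67,k40,k40,k40,k40,k0,k0,k45,k45] k0 [[],[k0,k0,k0,k0,k0,k0,k0,k0,
    k0,k16],[],[k0,k0,k0,k0,k0,k0,k0,k0,k0,k0,k0,k4],[],[],[],[],[k16],[],[k0,k0,k4]] (nat_lit 240) k6
    [[(k2,k48),(k0,k62),(k6,k71)],[(k1,k62),(k7,k71),(k11,k82)],[(k10,k48),(k4,k53),(k8,k77)],[(k1,k48),(k11,k48),(k7,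
    k53)],[(k10,k71),(k4,k80),(k8,k120)],[(k3,k53),(k5,k80),(k9,k120)],[(k2,k53),(k0,k71),(k6,k80)],[(k1,k71),(k11,
    k75),(k7,k80)],[(k10,k115),(k4,k120),(k8,k160)],[(k3,k77),(k5,k120),(k9,k160)],[(k2,k48),(k6,k75),(k0,k82)],[(k3,
    k48),(k5,k71),(k9,k115)]]
    [] k0
    [[k2,k0,k0,k0,k0,k0],[k3,k0,k0,k0,k0,k0],[k2,k0,k0,k1,k0,k0],[k1,k1,k0,k0,k0,k1],[k1,k0,k0,k1,k0,k0],[k1,k0,k0,k2,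
    k0,k0],[k0,k1,k1,k0,k0,k1],[k0,k1,k0,k0,k0,k1],[k0,k2,k0,k0,k0,k2],[k0,k1,k0,k1,k0,k1],[k0,k0,k2,k0,k0,k0],[k0,k0,
    k0,k2,k0,k0]]
    [.contra [z1],.ref k1 k0 [(z3,[y1,z2]),(z1,[z0,z0,z1]),(z1,[z0,z0,z0,z1])],.ref k1 k0 [(z2,[y1,z1,y1,y1,z1]),(z1,
    [z0,z0,z1]),(z1,[z0,z0,z0,z1])],.contra [z1,y1,y3,y2,z2],.contra [y1,z0,y1,z0,z1],.ref k1 k0 [(z1,[y1,z0,y2,y2,
    z2]),(z1,[z0,z0,z1]),(z1,[z0,z0,z0,z1])],.contra [z1,z0,y1,z1],.contra [y2,z1,z2,z1],.contra [z1,z0,y2,z2],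
    .contra [y1,z0,z0,y1,z1],.contra [z1],.contra [z1]]),
    .old (.lp [k80,k48,k80,k82,k140,k48] [k30,k30,k46,k46,k30,k30,k29,k29,k0,k0,k46,k46] k0 [[k0,k0,k0,k0,k0,k0,k0,k0,k4],
    [k0,k0,k0,k0,k0,k16],[],[],[k16],[k0,k0,k0,k0,k0,k0,k0,k20],[k0,k0,k0,k0,k20],[],[],[k0,k4]] (nat_lit 240) k6
    [[(k2,k64),(k0,k80),(k6,k81)],[(k11,k60),(k1,k80),(k7,k97)],[(k4,k48),(k10,k48),(k8,k98)],[(k11,k48),(k1,k64),(k7,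
    k65)],[(k10,k64),(k4,k80),(k8,k110)],[(k3,k48),(k5,k80),(k9,k130)],[(k6,k62),(k2,k65),(k0,k97)],[(k7,k62),(k11,
    k65),(k1,k81)],[(k10,k94),(k4,k130),(k8,k140)],[(k3,k98),(k5,k110),(k9,k140)],[(k2,k48),(k0,k60),(k6,k65)],[(k3,
    k48),(k5,k64),(k9,k94)]]
    [] k0
    [[k2,k0,k0,k0,k0,k0],[k1,k1,k1,k0,k0,k1],[k1,k1,k0,k0,k0,k1],[k1,k0,k0,k1,k0,k0],[k0,k1,k1,k0,k0,k1],[k0,k1,k0,k0,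
    k0,k1],[k0,k2,k0,k0,k0,k2],[k0,k1,k0,k1,k0,k1],[k0,k0,k2,k0,k0,k0],[k0,k0,k0,k2,k0,k0],[k0,k0,k0,k3,k0,k0]]
    [.contra [z1],.ref k1 k0 [(z1,[z1,z1,z0,y1]),(z1,[z0,z0,z1]),(z1,[z0,y1,y1,z1])],.contra [y1,z1,z1],.contra [y1,
    z0,y1,z1],.contra [z1,y1,y2,z1],.contra [y1,z1,z1],.contra [z1,y2,y4,z2],.contra [y1,z1,z1],.contra [z1],
    .contra [z1],.ref k2 k0 [(z1,[y1,z3]),(z1,[z0,z0,z1]),(z1,[z0,y1,y1,z1])]]),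
    .old (.leafM k11 [k1,k3,k5,k0] [(z1,[y1,y3,y3,z3]),(z1,[z1]),(z1,[z0,z1])] [(k2,k4,z1,[z0,z0,z1]),(k4,k2,z1,[z0,z0,
    z1])]),
    .old (.leafM k11 [k5,k0,k1,k3] [(z1,[z1]),(z1,[y1,y3,y3,z3]),(z1,[z0,z1])] [(k2,k4,z1,[z0,z0,z1]),(k4,k2,z1,[z0,z0,
    z1])]),
    .old (.leafM k12 [k1,k3,k5,k0] [(z1,[y1,y2,y2,z2]),(z1,[z1]),(z1,[z0,z1])] [(k2,k4,z1,[z0,z0,z1]),(k4,k2,z1,[z0,z0,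
    z1])]),
    .old (.lp [k78,k140,k172,k90,k180,k54] [k51,k51,k20,k20,k4,k4,k45,k45,k0,k0,k63,k63] k0 [[k0,k0,k0,k0,k2],[k0,k0,k0,
    k0,k0,k0,k0,k0,k0,k88],[k0,k0,k0,k0,k0,k0,k0,k0,k8],[k0,k0,k0,k0,k0,k22],[k0,k0,k22],[k0,k2],[],[k0,k0,k0,k0,k0,
    k0,k0,k0,k0,k0,k0,k38],[k88],[k0,k0,k0,k8],[k0,k0,k0,k0,k0,k0,k38]] (nat_lit 360) k6
    [[(k0,k78),(k2,k109),(k6,k122)],[(k1,k78),(k7,k82),(k11,k154)],[(k8,k72),(k10,k97),(k4,k158)],[(k11,k89),(k1,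
    k109),(k7,k137)],[(k10,k113),(k4,k150),(k8,k184)],[(k5,k150),(k3,k158),(k9,k176)],[(k0,k82),(k6,k90),(k2,k137)],
    [(k11,k72),(k7,k90),(k1,k122)],[(k10,k79),(k4,k176),(k8,k180)],[(k3,k72),(k9,k180),(k5,k184)],[(k6,k72),(k2,k89),
    (k0,k154)],[(k9,k79),(k3,k97),(k5,k113)]]
    [] k0
    [[k2,k0,k0,k0,k0,k0],[k3,k0,k0,k0,k0,k0],[k4,k0,k0,k0,k0,k0],[k2,k0,k0,k1,k0,k0],[k1,k0,k0,k1,k0,k0],[k1,k0,k0,k2,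
    k0,k0],[k0,k1,k0,k0,k1,k1],[k0,k1,k0,k0,k0,k1],[k0,k1,k0,k1,k0,k1],[k0,k0,k2,k0,k0,k0],[k0,k0,k0,k2,k0,k0],[k0,k0,
    k0,k3,k0,k0]]
    [.contra [z1],.ref k5 k0 [(z1,[z1]),(z1,[z0,z0,z1]),(z1,[z0,y1,y1,z1])],.ref k6 k0 [(z2,[z1]),(z1,[z0,z0,z1]),(z1,
    [z0,y1,y1,z1])],.contra [z1,y1],.contra [y1,z2],.contra [z1,y1],.contra [y1,y1,z0,z1],.contra [y1,z1,z1],
    .contra [z1,z0,y1],.contra [z1],.contra [z1],.ref k4 k0 [(z1,[y1,z3]),(z1,[z0,z0,z1]),(z1,[z0,y1,y1,z1])]]),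
    .old (.leafM k10 [k1,k3,k5,k0] [(z1,[y1,y1,y3,z3]),(z1,[z1]),(z1,[z0,z1])] [(k2,k4,z1,[z0,z0,z1]),(k4,k2,z1,[z0,z0,
    z1])]),
    .old (.lp [(nat_lit 236),k60,k198,k122,(nat_lit 240),k100] [k2,k2,k85,k95,k21,k21,k59,k59,k0,k0,k123,k17] k0 [[k0,k0,
    k0,k0,k0,k0,k0,k0,k0,k0,k76],[k0,k0,k0,k0,k0,k0,k0,k0,k0,k8],[k0,k0,k0,k0,k0,k0,k0,k0,k42],[],[],[],[],[],[k8],
    [k0,k0,k0,k42],[],[k0,k76]] (nat_lit 480) k6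
    [[(k2,k153),(k0,k160),(k6,k179)],[(k1,k160),(k7,k179),(k11,(nat_lit 229))],[(k10,k98),(k4,k124),(k8,k137)],[(k7,
    k96),(k11,k96),(k1,k153)],[(k10,k96),(k4,k198),(k8,(nat_lit 261))],[(k3,k124),(k5,k198),(k9,(nat_lit 219))],[(k2,
    k96),(k6,k122),(k0,k179)],[(k7,k122),(k11,k164),(k1,k179)],[(k10,k117),(k4,(nat_lit 219)),(k8,(nat_lit 240))],
    [(k3,k137),(k9,(nat_lit 240)),(k5,(nat_lit 261))],[(k2,k96),(k6,k164),(k0,(nat_lit 229))],[(k5,k96),(k3,k98),(k9,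
    k117)]]
    [] k0
    [[k2,k0,k0,k0,k0,k0],[k1,k0,k0,k1,k0,k0],[k0,k1,k1,k0,k0,k1],[k0,k1,k0,k0,k1,k1],[k0,k1,k0,k0,k0,k1],[k0,k2,k0,k0,
    k0,k2],[k0,k1,k0,k1,k0,k1],[k0,k0,k2,k0,k0,k0],[k0,k0,k0,k2,k0,k0],[k0,k0,k0,k3,k0,k0]]
    [.contra [z1],.contra [y3,z1,z1],.ref k3 k1 [(z3,[y3,z1,z1]),(z1,[z1])],.ref k3 k0 [(z3,[y3,z1,z1]),(z1,[z1])],
    .contra [y3,z1,z1],.ref k7 k0 [(z6,[y3,z2,z2]),(z2,[z1])],.contra [z3,z2,y1],.contra [z1],.contra [z1],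
    .ref k8 k0 [(z1,[z0,z1]),(z1,[y1,z0,z1]),(z3,[z0,y1,y1,z3])]]),
    .old (.lp [k50,k14,k60,k40,k52,k23] [k5,k5,k23,k23,k0,k0,k10,k10,k4,k4,k32,k5] k0 [[k0,k0,k0,k0,k0,k0,k0,k0,k0,k0,
    k20],[k0,k0,k0,k0,k0,k0,k0,k0,k0,k9],[k0,k0,k0,k0,k0,k0,k0,k0,k8],[k0,k0,k0,k0,k0,k0,k0,k0,k0,k0,k0,k4],[],[],[],
    [],[k9],[k0,k0,k0,k8],[k0,k0,k4],[k0,k20]] k120 k6
    [[(k0,k30),(k2,k36),(k6,k45)],[(k1,k30),(k7,k45),(k11,k59)],[(k8,k24),(k10,k25),(k4,k37)],[(k11,k24),(k7,k27),(k1,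
    k36)],[(k10,k24),(k4,k60),(k8,k64)],[(k3,k37),(k9,k56),(k5,k60)],[(k2,k27),(k6,k40),(k0,k45)],[(k7,k40),(k1,k45),
    (k11,k45)],[(k10,k24),(k8,k52),(k4,k56)],[(k3,k24),(k9,k52),(k5,k64)],[(k2,k24),(k6,k45),(k0,k59)],[(k5,k24),(k9,
    k24),(k3,k25)]]
    [] k0
    [[k2,k0,k0,k0,k0,k0],[k3,k0,k0,k0,k0,k0],[k1,k0,k0,k1,k0,k0],[k0,k1,k1,k0,k0,k1],[k0,k1,k0,k0,k1,k1],[k0,k1,k0,k0,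
    k0,k1],[k0,k2,k0,k0,k0,k2],[k0,k1,k0,k1,k0,k1],[k0,k0,k0,k2,k0,k0],[k0,k0,k0,k0,k2,k0]]
    [.contra [z1],.ref k9 k0 [(z1,[z1]),(z1,[y1,z3])],.contra [y1,z1],.ref k3 k1 [(z1,[y1,z1]),(z1,[z1])],
    .ref k3 k0 [(z1,[y1,z1]),(z1,[z1])],.contra [y1,z1],.ref k7 k0 [(z2,[y1,z2]),(z2,[z1])],.contra [y1,z1],
    .contra [z1],.contra [y1,y2,z2]]),
    .old (.leafM k11 [k2,k3,k4,k0] [(z1,[y1,y3,y3,z3]),(z1,[z1]),(z1,[z0,z0,z1])] [(k5,k1,z1,[z0,z1]),(k1,k5,z1,[z0,z1])]),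
    .old (.leafM k10 [k2,k3,k4,k0] [(z1,[y1,y3,y1,z3]),(z1,[z1]),(z1,[z0,z0,z1])] [(k5,k1,z1,[z0,z1]),(k1,k5,z1,[z0,z1])]),
    .old (.lp [k24,k58,k40,k40,k38,k39] [k19,k19,k2,k2,k19,k3,k11,k11,k12,k12,k23,k0] k0 [[],[k0,k0,k0,k0,k0,k5],[k0,k0,
    k0,k0,k25],[k0,k0,k0,k0,k0,k0,k0,k0,k0,k23],[k5],[k0,k0,k0,k25],[k0,k0,k0,k0,k0,k0,k0,k0,k27],[k0,k0,k0,k0,k0,k0,
    k0,k0,k0,k0,k0,k3],[k0,k0,k23],[k0,k0,k0,k0,k0,k0,k0,k27],[k0,k0,k0,k0,k0,k0,k3]] k120 k6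
    [[(k0,k24),(k6,k35),(k2,k41)],[(k1,k24),(k7,k37),(k11,k43)],[(k4,k36),(k10,k37),(k8,k48)],[(k7,k24),(k1,k41),(k11,
    k83)],[(k8,k24),(k10,k36),(k4,k65)],[(k9,k31),(k3,k36),(k5,k65)],[(k2,k24),(k0,k37),(k6,k40)],[(k11,k24),(k1,k35),
    (k7,k40)],[(k10,k24),(k4,k31),(k8,k65)],[(k5,k24),(k3,k48),(k9,k65)],[(k6,k24),(k0,k43),(k2,k83)],[(k9,k24),(k5,
    k36),(k3,k37)]]
    [] k0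
    [[k2,k0,k0,k0,k0,k0],[k3,k0,k0,k0,k0,k0],[k4,k0,k0,k0,k0,k0],[k2,k0,k0,k1,k0,k0],[k1,k0,k0,k1,k0,k0],[k1,k0,k0,k2,
    k0,k0],[k0,k1,k0,k1,k0,k1],[k0,k0,k1,k0,k1,k0],[k0,k0,k2,k0,k2,k0],[k0,k0,k0,k2,k0,k0]]
    [.contra [z1],.contra [y1,z2,z0,z3],.contra [y1,z2,z0,z3],.contra [y1,z1,y1,z1,z1],.contra [y1,z1,y1,z1,z1],
    .contra [y1,z0,y2,y1,z2],.contra [y1,y1,y2,y3,z3],.contra [y1,z1,z0,z2],.contra [y1,z0,z0,z2],.contra [z1]]),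
    .old (.lp [k30,k44,k22,k40,k42,k61] [k18,k18,k11,k11,k29,k15,k13,k13,k12,k12,k5,k0] k0 [[],[],[k0,k0,k0,k0,k18],[k0,
    k0,k0,k0,k0,k0,k0,k0,k0,k15],[],[k0,k0,k0,k18],[k0,k0,k0,k0,k0,k0,k0,k0,k29],[k0,k0,k0,k0,k0,k0,k0,k0,k0,k0,k0,
    k20],[k0,k0,k15],[k0,k0,k0,k0,k0,k0,k0,k29],[k0,k0,k0,k0,k0,k0,k20]] k120 k6
    [[(k0,k30),(k2,k37),(k6,k55)],[(k1,k30),(k7,k35),(k11,k48)],[(k4,k26),(k8,k43),(k10,k50)],[(k7,k24),(k1,k37),(k11,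
    k70)],[(k8,k24),(k4,k40),(k10,k46)],[(k9,k25),(k3,k26),(k5,k40)],[(k2,k24),(k0,k35),(k6,k40)],[(k11,k24),(k7,k40),
    (k1,k55)],[(k4,k25),(k10,k29),(k8,k71)],[(k5,k24),(k3,k43),(k9,k71)],[(k6,k24),(k0,k48),(k2,k70)],[(k9,k29),(k5,
    k46),(k3,k50)]]
    [] k0
    [[k2,k0,k0,k0,k0,k0],[k3,k0,k0,k0,k0,k0],[k1,k0,k0,k1,k0,k0],[k0,k1,k0,k1,k0,k1],[k0,k0,k2,k0,k0,k0],[k0,k0,k2,k0,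
    k1,k0],[k0,k0,k1,k0,k1,k0],[k0,k0,k2,k0,k2,k0],[k0,k0,k0,k2,k0,k0]]
    [.contra [z1],.ref k12 k0 [(z1,[z1]),(z1,[z0,z0,z1]),(z1,[y1,z1])],.contra [y1,z0,y1,z1],.contra [y1,y1,y2,z3],
    .contra [z1],.ref k13 k1 [(z1,[y3,z1]),(z1,[z0,z0,z1]),(z1,[z1])],.contra [y1,z0,y1,z1],.ref k11 k0 [(z2,[y3,z2]),
    (z1,[z0,z0,z1]),(z2,[z1])],.contra [z1]]),
    .old (.leafM k11 [k4,k0,k2,k3] [(z1,[z1]),(z1,[y1,y3,y3,z3]),(z1,[z0,z0,z1])] [(k5,k1,z1,[z0,z1]),(k1,k5,z1,[z0,z1])]),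
    .old (.lp [(nat_lit 240),(nat_lit 404),(nat_lit 278),k180,k172,k160] [k94,k94,k12,k12,k150,k0,k124,k124,k128,k128,
    k149,k119] k0 [[],[k0,k0,k0,k0,k0,k113],[k0,k0,k0,k0,k148],[k0,k0,k0,k0,k0,k0,k0,k0,k0,k156],[k113],[k0,k0,k0,
    k148],[k0,k0,k0,k0,k0,k0,k0,k0,k41],[k0,k0,k0,k0,k0,k0,k0,k0,k0,k0,k0,k7],[k0,k0,k156],[k0,k0,k0,k0,k0,k0,k0,k41],
    [k0,k0,k0,k0,k0,k0,k7]] (nat_lit 720) k6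
    [[(k6,(nat_lit 217)),(k0,(nat_lit 240)),(k2,(nat_lit 322))],[(k11,(nat_lit 215)),(k1,(nat_lit 240)),(k7,
    (nat_lit 323))],[(k4,k153),(k10,(nat_lit 267)),(k8,(nat_lit 288))],[(k7,k144),(k1,(nat_lit 322)),(k11,
    (nat_lit 453))],[(k8,k144),(k10,(nat_lit 279)),(k4,(nat_lit 426))],[(k9,k150),(k3,k153),(k5,(nat_lit 426))],[(k2,
    k144),(k6,k180),(k0,(nat_lit 323))],[(k11,k144),(k7,k180),(k1,(nat_lit 217))],[(k10,k144),(k4,k150),(k8,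
    (nat_lit 213))],[(k5,k144),(k9,(nat_lit 213)),(k3,(nat_lit 288))],[(k6,k144),(k0,(nat_lit 215)),(k2,
    (nat_lit 453))],[(k9,k144),(k3,(nat_lit 267)),(k5,(nat_lit 279))]]
    [] k0
    [[k2,k0,k0,k0,k0,k0],[k1,k0,k0,k1,k0,k0],[k0,k1,k0,k1,k0,k1],[k0,k0,k1,k0,k1,k0],[k0,k0,k2,k0,k2,k0],[k0,k0,k1,k0,
    k2,k0],[k0,k0,k0,k2,k0,k0],[k0,k0,k0,k3,k0,k0],[k0,k0,k0,k0,k2,k0],[k0,k0,k0,k0,k3,k0]]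
    [.contra [z1],.contra [y2,z1,y2,y1,z2],.contra [z1,z0,y1],.contra [y1,z0,z0,z1],.contra [y1,z0,z0,z2],.contra [y1,
    y1,y3,y1,z3],.contra [z1],.contra [y2,y1,y6,y3,z6],.contra [z1],.contra [y1,y2,y6,y3,z6]]),
    .old (.lp [k40,k34,k32,k30,k42,k61] [k18,k18,k21,k21,k31,k13,k23,k23,k14,k20,k15,k0] k0 [[],[],[k0,k0,k0,k0,k8],[k0,
    k0,k0,k0,k0,k0,k0,k0,k0,k25],[],[k0,k0,k0,k8],[k0,k0,k0,k0,k0,k0,k0,k0,k29],[k0,k0,k0,k0,k0,k0,k0,k0,k0,k0,k0,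
    k10],[k0,k0,k25],[k0,k0,k0,k0,k0,k0,k0,k29],[k0,k0,k0,k0,k0,k0,k10]] k120 k6
    [[(k2,k37),(k0,k40),(k6,k45)],[(k7,k35),(k1,k40),(k11,k58)],[(k4,k24),(k10,k40),(k8,k41)],[(k7,k24),(k1,k37),(k11,
    k80)],[(k8,k24),(k4,k40),(k10,k48)],[(k3,k24),(k9,k25),(k5,k40)],[(k2,k24),(k6,k30),(k0,k35)],[(k11,k24),(k7,k30),
    (k1,k45)],[(k4,k25),(k10,k31),(k8,k71)],[(k5,k24),(k3,k41),(k9,k71)],[(k6,k24),(k0,k58),(k2,k80)],[(k9,k31),(k3,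
    k40),(k5,k48)]]
    [] k0
    [[k2,k0,k0,k0,k0,k0],[k1,k0,k0,k1,k0,k0],[k1,k0,k0,k2,k0,k0],[k0,k1,k0,k1,k0,k1],[k0,k1,k0,k2,k0,k1],[k0,k0,k2,k0,
    k0,k0],[k0,k0,k2,k0,k1,k0],[k0,k0,k1,k0,k1,k0],[k0,k0,k2,k0,k2,k0],[k0,k0,k0,k2,k0,k0],[k0,k0,k0,k3,k0,k0]]
    [.contra [z1],.contra [y1,z0,y1,z1],.ref k14 k0 [(z2,[y3,z1,y6,z6]),(z1,[z0,z0,z1])],.contra [z1,z0,y1],
    .contra [z1,z0,y1],.contra [z1],.ref k16 k0 [(z1,[z0,z1]),(z1,[z0,z0,z1]),(z1,[z1])],.contra [y1,z0,y1,z1],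
    .ref k15 k0 [(z1,[z0,z1]),(z1,[z0,z0,z1]),(z2,[z1])],.contra [z1],.ref k14 k0 [(z1,[y1,z0,y3,z3]),(z1,[z0,z0,
    z1])]]),
    .old (.leafM k12 [k2,k3,k4,k0] [(z1,[y1,y2,y2,z2]),(z1,[z1]),(z1,[z0,z0,z1])] [(k5,k1,z1,[z0,z1]),(k1,k5,z1,[z0,z1])]),
    .old (.lp [k60,k104,k82,k48,k86,k98] [k22,k22,k0,k0,k13,k9,k28,k28,k9,k9,k3,k3] k0 [[],[k0,k0,k0,k0,k0,k40],[k0,k0,k0,
    k0,k28],[k0,k0,k0,k0,k0,k0,k0,k0,k0,k38],[k40],[k0,k0,k0,k28],[k0,k0,k0,k0,k0,k0,k0,k0,k24],[k0,k0,k0,k0,k0,k0,k0,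
    k0,k0,k0,k0,k44],[k0,k0,k38],[k0,k0,k0,k0,k0,k0,k0,k24],[k0,k0,k0,k0,k0,k0,k44]] (nat_lit 240) k6
    [[(k0,k60),(k2,k82),(k6,k98)],[(k1,k60),(k11,k79),(k7,k94)],[(k4,k51),(k8,k95),(k10,k101)],[(k7,k48),(k1,k82),
    (k11,k139)],[(k8,k48),(k10,k92),(k4,k110)],[(k3,k51),(k9,k82),(k5,k110)],[(k2,k48),(k6,k48),(k0,k94)],[(k7,k48),
    (k11,k49),(k1,k98)],[(k10,k48),(k4,k82),(k8,k110)],[(k5,k48),(k3,k95),(k9,k110)],[(k6,k49),(k0,k79),(k2,k139)],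
    [(k9,k48),(k5,k92),(k3,k101)]]
    [] k0
    [[k2,k0,k0,k0,k0,k0],[k3,k0,k0,k0,k0,k0],[k1,k0,k0,k1,k0,k0],[k0,k1,k0,k1,k0,k1],[k0,k0,k2,k0,k0,k0],[k0,k0,k1,k0,
    k1,k0],[k0,k0,k0,k2,k0,k0],[k0,k0,k0,k3,k0,k0],[k0,k0,k0,k4,k0,k0],[k0,k0,k0,k0,k2,k0]]
    [.contra [z1],.contra [z1,y1],.contra [y1,z0,y1,z1],.contra [z1,z0,y1],.contra [z1],.contra [y1,z0,y1,z1],
    .contra [z1],.ref k14 k0 [(z1,[y1,z0,y3,z3]),(z1,[z0,z0,z1])],.ref k18 k0 [(z1,[z0,z1]),(z1,[z0,z0,z1]),(z4,[y1,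
    y2,y4,z4])],.contra [z1]]),
    .old (.lp [k144,(nat_lit 308),(nat_lit 230),k180,(nat_lit 262),(nat_lit 310)] [k83,k83,k1,k1,k40,k40,k65,k65,k24,k24,
    k0,k0] k0 [[],[k0,k0,k0,k0,k0,k110],[k0,k0,k0,k0,k100],[k0,k0,k0,k0,k0,k0,k0,k0,k0,k102],[k110],[k0,k0,k0,k100],
    [k0,k0,k0,k0,k0,k0,k0,k0,k98],[k0,k0,k0,k0,k0,k0,k0,k0,k0,k0,k0,k142],[k0,k0,k102],[k0,k0,k0,k0,k0,k0,k0,k98],[k0,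
    k0,k0,k0,k0,k0,k142]] (nat_lit 720) k6
    [[(k0,k144),(k2,(nat_lit 226)),(k6,(nat_lit 304))],[(k1,k144),(k11,(nat_lit 227)),(k7,(nat_lit 272))],[(k4,k159),
    (k8,(nat_lit 285)),(k10,(nat_lit 309))],[(k7,k144),(k1,(nat_lit 226)),(k11,(nat_lit 411))],[(k8,k144),(k10,
    (nat_lit 270)),(k4,(nat_lit 330))],[(k3,k159),(k9,(nat_lit 246)),(k5,(nat_lit 330))],[(k2,k144),(k6,k180),(k0,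
    (nat_lit 272))],[(k11,k147),(k7,k180),(k1,(nat_lit 304))],[(k10,k144),(k4,(nat_lit 246)),(k8,(nat_lit 360))],[(k5,
    k144),(k3,(nat_lit 285)),(k9,(nat_lit 360))],[(k6,k147),(k0,(nat_lit 227)),(k2,(nat_lit 411))],[(k9,k144),(k5,
    (nat_lit 270)),(k3,(nat_lit 309))]]
    [] k0
    [[k2,k0,k0,k0,k0,k0],[k3,k0,k0,k0,k0,k0],[k4,k0,k0,k0,k0,k0],[k1,k0,k0,k1,k0,k0],[k0,k1,k0,k1,k0,k1],[k0,k0,k2,k0,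
    k0,k0],[k0,k0,k1,k0,k1,k0],[k0,k0,k0,k2,k0,k0],[k0,k0,k0,k3,k0,k0]]
    [.contra [z1],.ref k17 k0 [(z1,[z1]),(z1,[z0,y1,z1])],.ref k19 k0 [(z2,[z1]),(z1,[z0,y1,z1])],.contra [y1,z1],
    .contra [z1,z1,y1],.contra [z1],.contra [y1,z1],.contra [z1],.ref k14 k0 [(z1,[y1,z3]),(z1,[z0,y1,z1])]]),
    .old (.leafM k2 [k1,k2,k3,k4,k5,k0] [(z1,[z0,z0,z1]),(z1,[y1,y3,y1,z3]),(z1,[z1])] []),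
    .old (.lp [k40,k28,k32,k40,k42,k56] [k8,k8,k14,k14,k12,k12,k8,k8,k7,k7,k0,k0] k0 [[],[],[k0,k0,k0,k0,k0,k0,k0,k0,k0,
    k0,k4],[],[],[],[k0,k0,k0,k0,k0,k0,k0,k0,k4],[],[],[k0,k0,k0,k0,k0,k0,k0,k4],[],[k0,k0,k0,k4]] k120 k5
    [[(k2,k30),(k0,k40),(k6,k40)],[(k1,k40),(k7,k40),(k11,k48)],[(k4,k30),(k8,k35),(k10,k42)],[(k1,k30),(k7,k34),(k11,
    k42)],[(k4,k32),(k8,k37),(k10,k48)],[(k3,k30),(k5,k32),(k9,k37)],[(k2,k34),(k0,k40),(k6,k40)],[(k1,k40),(k7,k40),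
    (k11,k44)],[(k4,k37),(k8,k46),(k10,k49)],[(k3,k35),(k5,k37),(k9,k46)],[(k2,k42),(k6,k44),(k0,k48)],[(k3,k42),(k5,
    k48),(k9,k49)]]
    [] k0
    [[k2,k0,k0,k0,k0,k0],[k1,k0,k0,k1,k0,k0],[k0,k1,k0,k0,k0,k1],[k0,k0,k2,k0,k0,k0],[k0,k0,k3,k0,k0,k0],[k0,k0,k2,k0,
    k1,k0],[k0,k0,k1,k0,k1,k0],[k0,k0,k0,k2,k0,k0],[k0,k0,k0,k0,k2,k0]]
    [.contra [z1],.ref k0 k0 [(z1,[z1])],.contra [y1,z0,z1],.contra [z1],.ref k21 k0 [(z1,[z0,z1]),(z1,[z0,z0,z1]),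
    (z1,[z1])],.ref k21 k0 [(z1,[z0,z1]),(z1,[z0,z0,z1]),(z1,[z3,z1,z3,y3])],.contra [z1,z1,z1,y1],.contra [z1],
    .contra [z1]]),
    .old (.lp [k80,k56,k78,k80,k78,k104] [k22,k22,k34,k34,k23,k23,k22,k22,k23,k23,k20,k0] k0 [[],[],[k0,k0,k0,k0,k8],[k0,
    k0,k0,k0,k0,k0,k0,k0,k0,k2],[],[k0,k0,k0,k8],[k0,k0,k0,k0,k0,k0,k0,k0,k42],[],[k0,k0,k2],[k0,k0,k0,k0,k0,k0,k0,
    k42]] (nat_lit 240) k5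
    [[(k2,k68),(k0,k80),(k6,k80)],[(k1,k80),(k7,k80),(k11,k102)],[(k4,k67),(k8,k67),(k10,k70)],[(k7,k60),(k1,k68),
    (k11,k92)],[(k8,k76),(k10,k81),(k4,k86)],[(k3,k67),(k9,k78),(k5,k86)],[(k2,k60),(k0,k80),(k6,k80)],[(k11,k60),(k1,
    k80),(k7,k80)],[(k4,k78),(k10,k81),(k8,k120)],[(k3,k67),(k5,k76),(k9,k120)],[(k6,k60),(k2,k92),(k0,k102)],[(k3,
    k70),(k5,k81),(k9,k81)]]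
    [] k0
    [[k2,k0,k0,k0,k0,k0],[k1,k0,k0,k1,k0,k0],[k0,k1,k0,k0,k0,k1],[k0,k1,k0,k1,k0,k1],[k0,k0,k2,k0,k0,k0],[k0,k0,k1,k0,
    k1,k0],[k0,k0,k0,k2,k0,k0]]
    [.contra [z1],.ref k0 k0 [(z1,[z1])],.ref k20 k0 [(z1,[y1,z0,z1])],.ref k22 k0 [(z1,[z0,z1]),(z1,[z1])],
    .contra [z1],.ref k10 k0 [(z1,[y1,z0,z1])],.contra [z1]]),
    .old (.lp [k64,k72,k70,k80,k86,k104] [k20,k20,k16,k16,k17,k17,k12,k12,k9,k9,k0,k0] k0 [[],[k0,k0,k0,k0,k0,k8],[k0,k0,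
    k0,k0,k16],[k0,k0,k0,k0,k0,k0,k0,k0,k0,k2],[k8],[k0,k0,k0,k16],[],[k0,k0,k0,k0,k0,k0,k0,k0,k0,k0,k0,k24],[k0,k0,
    k2],[],[k0,k0,k0,k0,k0,k0,k24]] (nat_lit 240) k5
    [[(k0,k64),(k2,k68),(k6,k96)],[(k1,k64),(k7,k80),(k11,k84)],[(k4,k63),(k8,k79),(k10,k88)],[(k7,k60),(k1,k68),(k11,
    k90)],[(k8,k76),(k4,k86),(k10,k87)],[(k3,k63),(k9,k78),(k5,k86)],[(k2,k60),(k0,k80),(k6,k80)],[(k7,k80),(k11,k92),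
    (k1,k96)],[(k10,k71),(k4,k78),(k8,k86)],[(k5,k76),(k3,k79),(k9,k86)],[(k0,k84),(k2,k90),(k6,k92)],[(k9,k71),(k5,
    k87),(k3,k88)]]
    [] k0
    [[k2,k0,k0,k0,k0,k0],[k3,k0,k0,k0,k0,k0],[k1,k0,k0,k1,k0,k0],[k0,k1,k0,k0,k0,k1],[k0,k0,k2,k0,k0,k0],[k0,k0,k1,k0,
    k1,k0],[k0,k0,k0,k2,k0,k0],[k0,k0,k0,k0,k2,k0]]
    [.contra [z1],.ref k23 k0 [(z1,[z1])],.ref k0 k0 [(z1,[z1])],.ref k20 k0 [(z1,[y1,z1])],.contra [z1],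
    .ref k10 k0 [(z1,[y1,z1])],.contra [z1],.contra [z1]])]⟩

/-- classes `0 0 0 0 0 0`, types `N0 N0 N1 N0 N1 N2` -/
noncomputable def cU6_18 : CertX :=
  ⟨[k12,k12,k13,k12,k13,k14],[(false,k0,[k0,k1,k2,k3,k4,k5])],[[[([z1,z1,z0,z1,z0,z1],z2)],[]]],
    [.old (.lp [(nat_lit 2112),(nat_lit 2760),(nat_lit 4554),(nat_lit 4554),(nat_lit 7084),(nat_lit 2760)] [(nat_lit 2486),
    (nat_lit 2486),(nat_lit 2162),(nat_lit 2162),(nat_lit 1265),(nat_lit 1265),(nat_lit 1265),(nat_lit 1265),k0,k0,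
    (nat_lit 2162),(nat_lit 2162)] k0 [[],[],[],[],[],[k0,k0,k0,k0,k0,k0,k0,(nat_lit 506)],[k0,k0,k0,k0,
    (nat_lit 506)]] (nat_lit 12144) k6
    [[(k3,(nat_lit 2436)),(k5,(nat_lit 3333)),(k9,(nat_lit 4598))],[(k10,(nat_lit 2436)),(k11,(nat_lit 2436)),(k7,
    (nat_lit 3333))],[(k1,(nat_lit 2436)),(k4,(nat_lit 3657)),(k8,(nat_lit 4922))],[(k10,(nat_lit 2760)),(k11,
    (nat_lit 2760)),(k7,(nat_lit 3657))],[(k1,(nat_lit 3333)),(k4,(nat_lit 4554)),(k8,(nat_lit 5819))],[(k3,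
    (nat_lit 3657)),(k5,(nat_lit 4554)),(k9,(nat_lit 6325))],[(k0,(nat_lit 3333)),(k2,(nat_lit 3657)),(k6,
    (nat_lit 4048))],[(k10,(nat_lit 3657)),(k11,(nat_lit 3657)),(k7,(nat_lit 4048))],[(k1,(nat_lit 4598)),(k4,
    (nat_lit 6325)),(k8,(nat_lit 7084))],[(k3,(nat_lit 4922)),(k5,(nat_lit 5819)),(k9,(nat_lit 7084))],[(k0,
    (nat_lit 2436)),(k2,(nat_lit 2760)),(k6,(nat_lit 3657))],[(k0,(nat_lit 2436)),(k2,(nat_lit 2760)),(k6,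
    (nat_lit 3657))]]
    [] k0
    [[k1,k1,k0,k0,k0,k1],[k0,k0,k2,k0,k0,k0],[k0,k0,k0,k2,k0,k0]]
    [.contra [y1,z1],.contra [z1],.contra [z1]]),
    .old (.lp [k90,k150,k150,k150,k160,(nat_lit 240)] [k83,k83,k53,k53,k53,k53,k53,k53,k48,k48,k16,k0] k0 [[],[],[k0,k0,
    k0,k0,k30],[],[k0,k0,k0,k0,k0,k0,k10],[k0,k0,k0,k30],[k0,k0,k0,k0,k0,k0,k0,k0,k80],[k0,k0,k0,k0,k0,k10],[],[k0,k0,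
    k0,k0,k0,k0,k0,k80]] (nat_lit 480) k5
    [[(k3,k120),(k5,k120),(k9,k125)],[(k7,k120),(k10,k157),(k11,k173)],[(k1,k120),(k4,k150),(k8,k155)],[(k7,k120),
    (k10,k187),(k11,(nat_lit 203))],[(k1,k120),(k8,k155),(k4,k180)],[(k9,k145),(k3,k150),(k5,k180)],[(k0,k120),(k2,
    k120),(k6,k160)],[(k11,k123),(k7,k160),(k10,k187)],[(k1,k125),(k4,k145),(k8,(nat_lit 240))],[(k3,k155),(k5,k155),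
    (k9,(nat_lit 240))],[(k6,k123),(k0,k173),(k2,(nat_lit 203))],[(k0,k157),(k2,k187),(k6,k187)]]
    [] k0
    [[k0,k0,k2,k0,k0,k0],[k0,k0,k1,k0,k1,k0],[k0,k0,k0,k2,k0,k0]]
    [.contra [z1],.ref k0 k0 [(z1,[y1,z1])],.contra [z1]])]⟩

/-- classes `0 0 0 0 0 0`, types `N0 N0 N1 N0 N2 N1` -/
noncomputable def cU6_19 : CertX :=
  ⟨[k12,k12,k13,k12,k14,k13],[(false,k0,[k0,k1,k2,k3,k4,k5])],[[[([z1,z0,z0,z1,z0,z0],z2)],[]]],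
    [.old (.leafM k6 [k2,k4,k5,k1] [] [(k3,k0,z1,[z1]),(k0,k3,z1,[z1])]),
    .old (.lp [k40,k20,k60,k40,k38,k40] [k10,k10,k20,k20,k0,k0,k10,k10,k13,k9,k10,k10] k0 [[k0,k0,k0,k0,k0,k0,k0,k0,k0,
    k2],[],[],[k0,k0,k0,k0,k0,k0,k0,k0,k20],[k0,k0,k0,k0,k0,k0,k20],[],[k0,k0,k0,k0,k0,k0,k0,k0,k0,k2],[k0,k0,k0,k0,
    k0,k20],[k0,k2,k0,k0,k0,k0,k0,k2],[k0,k0,k20]] k120 k5
    [[(k2,k30),(k0,k40),(k6,k40)],[(k8,k35),(k1,k40),(k7,k40)],[(k10,k30),(k11,k32),(k4,k40)],[(k1,k30),(k7,k30),(k8,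
    k47)],[(k11,k30),(k10,k50),(k4,k60)],[(k9,k31),(k3,k40),(k5,k60)],[(k2,k30),(k0,k40),(k6,k60)],[(k8,k35),(k1,k40),
    (k7,k60)],[(k4,k31),(k10,k41),(k11,k43)],[(k0,k35),(k6,k35),(k2,k47)],[(k5,k30),(k3,k32),(k9,k43)],[(k3,k30),(k9,
    k41),(k5,k50)]]
    [] k0
    [[k2,k0,k0,k0,k0,k0],[k1,k0,k0,k1,k0,k0]]
    [.contra [z1],.ref k0 k0 [(z1,[z1])]])]⟩

/-- classes `0 0 0 0 0 0`, types `N0 N0 N1 N0 N2 N2` -/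
noncomputable def cU6_20 : CertX :=
  ⟨[k12,k12,k13,k12,k14,k14],[(false,k0,[k0,k1,k2,k3,k4,k5])],[[[([z1,z0,z1,z1,z1,z0],z2)],[([z1,z0,z0,z0,z1,z0],z2)],
    []]],
    [.old (.lp [k22,k18,k42,k38,k34,k84] [k62,k54,k60,k60,k54,k42,k50,k50,k52,k52,k0,k54] k0 [[],[],[k0,k0,k0,k0,k0,k0,k0,
    k0,k0,k2],[k0,k0,k0,k0,k0,k0,k0,k0,k0,k0,k18],[k0,k0,k0,k0,k0,k0,k2],[],[k0,k0,k0,k0,k0,k0,k0,k0,k0,k0,k0,k64],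
    [k0,k0,k0,k0,k0,k2,k0,k0,k4],[k0,k0,k0,k2],[k0,k0,k0,k0,k0,k0,k4],[k0,k0,k0,k0,k0,k0,k0,k64],[k0,k0,k18]] k120 k6
    [[(k3,k24),(k5,k24),(k9,k96)],[(k8,k24),(k7,k26),(k10,k76)],[(k1,k24),(k4,k24),(k11,k24)],[(k8,k24),(k7,k28),(k10,
    k96)],[(k1,k24),(k4,k42),(k11,k44)],[(k3,k24),(k9,k30),(k5,k42)],[(k0,k26),(k2,k28),(k6,k40)],[(k10,k24),(k7,k40),
    (k8,k40)],[(k11,k28),(k4,k30),(k1,k96)],[(k0,k24),(k2,k24),(k6,k40)],[(k3,k24),(k9,k28),(k5,k44)],[(k6,k24),(k0,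
    k76),(k2,k96)]]
    [] k0
    [[k1,k0,k1,k0,k1,k0],[k0,k1,k0,k1,k0,k1],[k0,k1,k0,k2,k0,k1],[k0,k0,k2,k0,k0,k0],[k0,k0,k0,k2,k0,k0]]
    [.contra [y1,z1],.contra [z1,z1,y1],.contra [z1,z1,y1],.contra [z1],.contra [z1]]),
    .old (.lp [k48,k48,k80,k48,k186,k60] [k69,k69,k69,k69,k53,k53,k69,k69,k0,k0,k63,k63] k0 [[],[],[k0,k0,k0,k0,k0,k0,k0,
    k0,k0,k40],[k0,k0,k0,k0,k0,k0,k0,k0,k0,k0,k12],[k0,k0,k0,k0,k0,k0,k42],[],[k0,k0,k0,k0,k0,k0,k0,k0,k0,k0,k0,k6],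
    [k0,k0,k0,k0,k0,k42],[k0,k0,k0,k40],[],[k0,k0,k0,k0,k0,k0,k0,k6],[k0,k0,k12]] (nat_lit 240) k6
    [[(k3,k48),(k5,k52),(k9,k123)],[(k7,k48),(k10,k54),(k8,k117)],[(k1,k48),(k11,k54),(k4,k64)],[(k7,k48),(k10,k66),
    (k8,k77)],[(k1,k52),(k4,k80),(k11,k110)],[(k3,k64),(k5,k80),(k9,k91)],[(k0,k48),(k2,k48),(k6,k90)],[(k10,k48),(k7,
    k90),(k8,k117)],[(k4,k91),(k1,k123),(k11,k123)],[(k2,k77),(k0,k117),(k6,k117)],[(k3,k54),(k5,k110),(k9,k123)],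
    [(k6,k48),(k0,k54),(k2,k66)]]
    [] k0
    [[k0,k1,k0,k0,k0,k1],[k0,k1,k0,k1,k0,k1],[k0,k0,k2,k0,k0,k0],[k0,k0,k0,k2,k0,k0]]
    [.contra [y1,y1,z1],.contra [y1,y1,z1],.contra [z1],.contra [z1]]),
    .old (.lp [k10,k14,k16,k20,k18,k14] [k5,k5,k3,k3,k2,k2,k0,k0,k1,k1,k3,k3] k0 [[],[],[k0,k0,k0,k0,k0,k0,k0,k0,k0,k4],
    [],[],[k0,k0,k0,k0,k0,k0,k0,k4],[k0,k0,k0,k0,k4],[],[k0,k0,k0,k4]] k48 k5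
    [[(k3,k12),(k5,k13),(k9,k14)],[(k10,k12),(k8,k14),(k7,k15)],[(k1,k12),(k11,k14),(k4,k15)],[(k8,k12),(k10,k14),(k7,
    k17)],[(k1,k13),(k4,k16),(k11,k19)],[(k3,k15),(k5,k16),(k9,k21)],[(k0,k15),(k6,k16),(k2,k17)],[(k7,k16),(k10,k17),
    (k8,k19)],[(k1,k14),(k11,k16),(k4,k21)],[(k2,k12),(k0,k14),(k6,k19)],[(k3,k14),(k9,k16),(k5,k19)],[(k0,k12),(k2,
    k14),(k6,k17)]]
    [] k0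
    [[k1,k0,k0,k0,k1,k0],[k0,k1,k0,k0,k0,k1],[k0,k0,k2,k0,k0,k0],[k0,k0,k0,k2,k0,k0]]
    [.ref k1 k0 [(z1,[z1])],.ref k0 k0 [(z1,[y1,z1])],.contra [z1],.contra [z1]])]⟩

/-- classes `0 0 0 0 0 0`, types `N0 N0 N1 N1 N0 N2` -/
noncomputable def cU6_21 : CertX :=
  ⟨[k12,k12,k13,k13,k12,k14],[(false,k0,[k0,k1,k2,k3,k4,k5])],[[[([z1,z0,z1,z0,z1,z1],z2)],[]]],
    [.old (.lp [k72,k72,k80,k132,k90,k24] [k30,k30,k30,k30,k26,k26,k0,k0,k25,k17,k54,k54] k0 [[k0,k0,k0,k0,k0,k0,k36],[k0,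
    k0,k0,k0,k0,k0,k0,k0,k0,k0,k24],[],[],[],[k0,k0,k0,k0,k0,k0,k0,k0,k0,k40],[k0,k0,k0,k0,k0,k0,k0,k0,k30],[k0,k36],
    [k0,k0,k0,k0,k40],[k0,k0,k0,k0,k0,k0,k0,k30],[],[k24]] (nat_lit 240) k6
    [[(k3,k48),(k11,k48),(k5,k76)],[(k9,k49),(k10,k72),(k7,k102)],[(k1,k48),(k4,k76),(k6,k138)],[(k10,k48),(k9,k85),
    (k7,k102)],[(k1,k76),(k4,k80),(k6,k106)],[(k3,k76),(k5,k80),(k11,k92)],[(k8,k67),(k0,k102),(k2,k102)],[(k11,k48),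
    (k5,k106),(k3,k138)],[(k0,k49),(k2,k85),(k8,k120)],[(k10,k53),(k7,k67),(k9,k120)],[(k1,k48),(k6,k48),(k4,k92)],
    [(k2,k48),(k8,k53),(k0,k72)]]
    [] k0
    [[k1,k0,k0,k0,k0,k1],[k1,k0,k0,k0,k1,k1],[k0,k0,k2,k0,k0,k0]]
    [.contra [y1,z1],.contra [y1,z1],.contra [z1]]),
    .old (.lp [k42,k56,k40,k22,k40,k38] [k16,k16,k18,k0,k17,k17,k26,k26,k14,k20,k18,k18] k0 [[k0,k0,k0,k0,k2],[k0,k0,k0,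
    k0,k0,k0,k0,k0,k0,k0,k28],[],[],[k0,k0,k0,k0,k0,k0,k0,k0,k2],[k0,k2],[],[],[k0,k0,k0,k0,k0,k0,k0,k0,k0,k0,k0,k12],
    [k0,k0,k0,k0,k0,k2],[k0,k0,k0,k0,k0,k0,k0,k0,k0,k12],[k28]] k120 k5
    [[(k3,k30),(k5,k41),(k11,k52)],[(k7,k30),(k9,k38),(k10,k68)],[(k1,k30),(k6,k48),(k4,k59)],[(k7,k30),(k9,k36),(k10,
    k38)],[(k6,k31),(k4,k40),(k1,k41)],[(k11,k37),(k5,k40),(k3,k59)],[(k0,k30),(k2,k30),(k8,k36)],[(k11,k30),(k5,k31),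
    (k3,k48)],[(k2,k36),(k0,k38),(k8,k40)],[(k10,k30),(k7,k36),(k9,k40)],[(k6,k30),(k4,k37),(k1,k52)],[(k8,k30),(k2,
    k38),(k0,k68)]]
    [] k0
    [[k0,k1,k0,k1,k0,k0],[k0,k0,k2,k0,k0,k0],[k0,k0,k0,k0,k2,k0]]
    [.ref k0 k0 [(z1,[y1,z1])],.contra [z1],.contra [z1]])]⟩

/-- classes `0 0 0 0 0 0`, types `N0 N0 N1 N1 N2 N3` -/
noncomputable def cU6_22 : CertX :=
  ⟨[k12,k12,k13,k13,k14,k15],[(false,k0,[k0,k1,k2,k3,k4,k5])],[[[([z1,z1,z0,z1,z1,z0],z2)],[([z3,z0,z0,z0,z3,z0],z2),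
    ([z0,z1,z0,z1,z0,z0],z2),([z0,z0,z3,z0,z0,z0],z2)],[([z1,z0,z0,z0,z1,z0],z1),([z0,z1,z0,z1,z0,z0],z2),([z0,z0,z3,
    z0,z0,z0],z2)],[([z3,z0,z0,z0,z3,z3],z4),([z0,z1,z0,z1,z0,z0],z2)],[([z1,z0,z0,z0,z1,z0],z1),([z0,z1,z0,z1,z0,z0],
    z2),([z0,z0,z3,z0,z0,z0],z1)],[([z1,z0,z0,z0,z1,z0],z1),([z0,z1,z0,z1,z0,z0],z2),([z0,z0,z2,z0,z0,z0],z1)],[([z1,
    z0,z0,z0,z1,z0],z1),([z0,z1,z0,z1,z0,z0],z2)],[([z1,z0,z1,z0,z1,z1],z2)],[([z1,z0,z0,z0,z1,z0],z2),([z0,z3,z0,z3,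
    z0,z0],z2),([z0,z0,z3,z0,z0,z0],z2)],[([z1,z0,z0,z0,z1,z0],z2),([z0,z1,z0,z1,z0,z0],z1),([z0,z0,z3,z0,z0,z0],z2)],
    [([z1,z0,z0,z0,z1,z0],z2),([z0,z3,z0,z3,z0,z3],z4)],[([z1,z0,z0,z0,z1,z0],z2),([z0,z1,z0,z1,z0,z0],z1),([z0,z0,z3,
    z0,z0,z0],z1)]],[[([z1,z0,z0,z0,z1,z0],z2),([z0,z1,z0,z1,z0,z0],z1),([z0,z0,z2,z0,z0,z0],z1)],[([z1,z0,z0,z0,z1,
    z0],z2),([z0,z1,z0,z1,z0,z0],z1)],[([z1,z0,z0,z0,z1,z0],z2)],[]]],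
    [.old (.leafM k6 [k0,k1,k3,k4] [] [(k2,k5,z1,[y1,z1]),(k5,k2,z1,[y1,z1])]),
    .old (.leafM k10 [k0,k2,k4,k5] [(z1,[z0,z0,z1]),(z1,[y1,y3,y1,z3]),(z1,[z1])] [(k1,k3,z1,[z0,z1]),(k3,k1,z1,[z0,z1])]),
    .old (.leafM k11 [k0,k2,k4,k5] [(z1,[z0,z0,z1]),(z1,[y3,y3,y1,z3]),(z1,[z1])] [(k1,k3,z1,[z0,z1]),(k3,k1,z1,[z0,z1])]),
    .old (.lp [k0,(nat_lit 828),(nat_lit 460),(nat_lit 552),(nat_lit 552),(nat_lit 360)] [(nat_lit 414),(nat_lit 414),k0,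
    k0,k184,k184,k138,k138,k138,k138,(nat_lit 234),(nat_lit 234)] k0 [[],[],[k0,k0,k0,k0,k0,k0,k0,k0,k0,
    (nat_lit 207)],[],[],[],[],[],[k0,k0,k0,(nat_lit 207)]] (nat_lit 1380) k6
    [[(k7,(nat_lit 276)),(k8,(nat_lit 276)),(k9,(nat_lit 276))],[(k7,(nat_lit 276)),(k8,(nat_lit 276)),(k9,
    (nat_lit 276))],[(k11,(nat_lit 594)),(k4,(nat_lit 644)),(k6,(nat_lit 690))],[(k8,(nat_lit 483)),(k7,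
    (nat_lit 690)),(k9,(nat_lit 690))],[(k4,(nat_lit 460)),(k6,(nat_lit 506)),(k11,(nat_lit 617))],[(k10,
    (nat_lit 410)),(k5,(nat_lit 460)),(k3,(nat_lit 644))],[(k0,(nat_lit 276)),(k1,(nat_lit 276)),(k2,(nat_lit 690))],
    [(k10,(nat_lit 456)),(k5,(nat_lit 506)),(k3,(nat_lit 690))],[(k0,(nat_lit 276)),(k1,(nat_lit 276)),(k2,
    (nat_lit 690))],[(k0,(nat_lit 276)),(k1,(nat_lit 276)),(k2,(nat_lit 483))],[(k10,(nat_lit 360)),(k3,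
    (nat_lit 594)),(k5,(nat_lit 617))],[(k11,(nat_lit 360)),(k4,(nat_lit 410)),(k6,(nat_lit 456))]]
    [] k0
    [[k1,k0,k0,k0,k1,k0],[k2,k0,k0,k0,k2,k0],[k0,k0,k2,k0,k0,k0],[k0,k0,k1,k0,k0,k1],[k0,k0,k0,k0,k0,k2],[k0,k0,k0,k0,
    k0,k3]]
    [.contra [y1,z0,y1,z1],.ref k2 k0 [(z2,[z1]),(z1,[z0,z0,z1]),(z1,[z0,y1,y3,z3])],.contra [z1],.contra [y1,z0,y1,
    z1],.contra [z1],.ref k1 k0 [(z1,[y1,z1]),(z1,[z0,z0,z1]),(z1,[z0,y1,y3,z3])]]),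
    .old (.leafM k11 [k4,k5,k0,k2] [(z1,[y3,y3,y1,z3]),(z1,[z0,z0,z1]),(z1,[z1])] [(k1,k3,z1,[z0,z1]),(k3,k1,z1,[z0,z1])]),
    .old (.leafM k12 [k0,k2,k4,k5] [(z1,[z0,z0,z1]),(z1,[y2,y2,y1,z2]),(z1,[z1])] [(k1,k3,z1,[z0,z1]),(k3,k1,z1,[z0,z1])]),
    .old (.lp [k0,k144,k50,k96,k120,k60] [k72,k72,k0,k0,k47,k47,k24,k24,k12,k12,k42,k42] k0 [[],[],[k0,k0,k0,k0,k0,k0,k0,
    k0,k0,k80],[],[],[],[],[],[k0,k0,k0,k80]] (nat_lit 240) k6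
    [[(k7,k48),(k8,k60),(k9,k60)],[(k7,k48),(k8,k60),(k9,k60)],[(k4,k97),(k11,k102),(k6,k120)],[(k8,k52),(k7,k120),
    (k9,k132)],[(k4,k50),(k6,k73),(k11,k135)],[(k5,k50),(k10,k55),(k3,k97)],[(k0,k48),(k1,k48),(k2,k120)],[(k5,k73),
    (k10,k78),(k3,k120)],[(k0,k60),(k1,k60),(k2,k132)],[(k2,k52),(k0,k60),(k1,k60)],[(k10,k60),(k3,k102),(k5,k135)],
    [(k4,k55),(k11,k60),(k6,k78)]]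
    [] k0
    [[k1,k0,k0,k0,k1,k0],[k0,k0,k2,k0,k0,k0],[k0,k0,k3,k0,k0,k0],[k0,k0,k4,k0,k0,k0],[k0,k0,k1,k0,k0,k1],[k0,k0,k0,k0,
    k0,k2],[k0,k0,k0,k0,k0,k3]]
    [.contra [y2,z2,z1],.contra [z1],.ref k3 k0 [(z1,[y1,z0,y3,z3]),(z1,[z0,z0,z1])],.ref k5 k0 [(z1,[z0,z1]),(z1,[z0,
    z0,z1]),(z2,[z1])],.contra [y2,y2,y1,z2],.contra [z1],.ref k4 k0 [(z1,[z0,z1]),(z1,[z0,z0,z1]),(z1,[y1,y3,y3,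
    z3])]]),
    .old (.lp [k0,(nat_lit 828),(nat_lit 360),(nat_lit 552),(nat_lit 552),(nat_lit 460)] [(nat_lit 414),(nat_lit 414),k0,
    k0,(nat_lit 234),(nat_lit 234),k138,k138,k138,k138,k184,k184] k0 [[],[],[k0,k0,k0,k0,k0,k0,k0,k0,k0,
    (nat_lit 207)],[],[],[],[],[],[k0,k0,k0,(nat_lit 207)]] (nat_lit 1380) k6
    [[(k7,(nat_lit 276)),(k8,(nat_lit 276)),(k9,(nat_lit 276))],[(k7,(nat_lit 276)),(k8,(nat_lit 276)),(k9,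
    (nat_lit 276))],[(k4,(nat_lit 594)),(k11,(nat_lit 644)),(k6,(nat_lit 690))],[(k8,(nat_lit 483)),(k7,
    (nat_lit 690)),(k9,(nat_lit 690))],[(k4,(nat_lit 360)),(k6,(nat_lit 456)),(k11,(nat_lit 617))],[(k5,
    (nat_lit 360)),(k10,(nat_lit 410)),(k3,(nat_lit 594))],[(k0,(nat_lit 276)),(k1,(nat_lit 276)),(k2,(nat_lit 690))],
    [(k5,(nat_lit 456)),(k10,(nat_lit 506)),(k3,(nat_lit 690))],[(k0,(nat_lit 276)),(k1,(nat_lit 276)),(k2,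
    (nat_lit 690))],[(k0,(nat_lit 276)),(k1,(nat_lit 276)),(k2,(nat_lit 483))],[(k10,(nat_lit 460)),(k5,
    (nat_lit 617)),(k3,(nat_lit 644))],[(k4,(nat_lit 410)),(k11,(nat_lit 460)),(k6,(nat_lit 506))]]
    [] k0
    [[k1,k0,k0,k0,k1,k0],[k2,k0,k0,k0,k2,k0],[k0,k0,k2,k0,k0,k0],[k0,k0,k3,k0,k0,k0],[k0,k0,k1,k0,k0,k1],[k0,k0,k0,k0,
    k0,k2]]
    [.contra [y1,z1],.ref k6 k0 [(z2,[z1]),(z1,[z0,y1,z1])],.contra [z1],.ref k3 k0 [(z1,[y1,z3]),(z1,[z0,y1,z1])],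
    .contra [y1,z1],.contra [z1]]),
    .old (.leafM k10 [k1,k2,k3,k5] [(z1,[z0,z0,z1]),(z1,[y3,y1,y1,z3]),(z1,[z0,z1])] [(k4,k0,z1,[z1]),(k0,k4,z1,[z1])]),
    .old (.leafM k11 [k1,k2,k3,k5] [(z1,[z0,z0,z1]),(z1,[y3,y3,y1,z3]),(z1,[z0,z1])] [(k4,k0,z1,[z1]),(k0,k4,z1,[z1])]),
    .old (.lp [k38,k0,k120,k58,(nat_lit 202),k60] [k82,k82,k120,k82,k41,k41,k72,k72,k0,k0,k71,k71] k0 [[],[],[k0,k0,k0,k0,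
    k0,k0,k24],[k0,k0,k0,k0,k0,k38],[k0,k0,k38],[],[],[k0,k0,k0,k24]] (nat_lit 240) k6
    [[(k7,k48),(k8,k120),(k9,k120)],[(k7,k48),(k8,k120),(k9,k120)],[(k6,k48),(k11,k49),(k4,k79)],[(k7,k48),(k9,k58),
    (k8,k82)],[(k4,k82),(k11,k90),(k6,k113)],[(k3,k79),(k5,k82),(k10,k90)],[(k0,k48),(k1,k48),(k2,k48)],[(k3,k48),
    (k10,k59),(k5,k113)],[(k2,k58),(k0,k120),(k1,k120)],[(k2,k82),(k0,k120),(k1,k120)],[(k3,k49),(k10,k60),(k5,k90)],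
    [(k6,k59),(k11,k60),(k4,k90)]]
    [] k0
    [[k0,k1,k0,k1,k0,k0],[k0,k2,k0,k2,k0,k0],[k0,k1,k0,k1,k0,k1],[k0,k1,k0,k1,k0,k2],[k0,k0,k2,k0,k0,k0],[k0,k0,k1,k0,
    k0,k1],[k0,k0,k0,k0,k0,k2],[k0,k0,k0,k0,k0,k3]]
    [.contra [y1,y1,z0,z1],.ref k9 k0 [(z1,[z0,z1]),(z2,[z1]),(z1,[z0,y3,y1,z3])],.contra [z1,y2,y1,z2],
    .ref k8 k0 [(z1,[z0,z1]),(z1,[y3,z0,z2]),(z1,[z0,y3,y1,z3])],.contra [z1],.contra [y1,y1,z0,z1],.contra [z1],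
    .ref k8 k0 [(z1,[z0,z1]),(z1,[y1,z0,z1]),(z1,[z0,y3,y1,z3])]]),
    .old (.leafM k11 [k3,k5,k1,k2] [(z1,[y3,y3,y1,z3]),(z1,[z0,z0,z1]),(z1,[z0,z1])] [(k4,k0,z1,[z1]),(k0,k4,z1,[z1])]),
    .old (.leafM k12 [k1,k2,k3,k5] [(z1,[z0,z0,z1]),(z1,[y2,y2,y1,z2]),(z1,[z0,z1])] [(k4,k0,z1,[z1]),(k0,k4,z1,[z1])]),
    .old (.lp [(nat_lit 3358),k0,(nat_lit 8760),(nat_lit 3650),(nat_lit 14162),(nat_lit 4380)] [(nat_lit 5402),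
    (nat_lit 5402),(nat_lit 8761),(nat_lit 5401),(nat_lit 2701),(nat_lit 2701),(nat_lit 5256),(nat_lit 5256),k0,k0,
    (nat_lit 4891),(nat_lit 4891)] k0 [[],[],[k0,k0,k0,k0,k0,k0,k0,k0,k0,(nat_lit 730)],[k0,k0,k0,k0,k0,
    (nat_lit 5110)],[k0,k0,(nat_lit 5110)],[],[],[],[k0,k0,k0,(nat_lit 730)]] (nat_lit 17520) k6
    [[(k7,(nat_lit 3504)),(k8,(nat_lit 8760)),(k9,(nat_lit 8760))],[(k7,(nat_lit 3504)),(k8,(nat_lit 8760)),(k9,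
    (nat_lit 8760))],[(k6,(nat_lit 3505)),(k11,(nat_lit 3870)),(k4,(nat_lit 6060))],[(k8,(nat_lit 4671)),(k7,
    (nat_lit 5255)),(k9,(nat_lit 5401))],[(k4,(nat_lit 3650)),(k6,(nat_lit 6205)),(k11,(nat_lit 7300))],[(k5,
    (nat_lit 3650)),(k3,(nat_lit 6060)),(k10,(nat_lit 6570))],[(k0,(nat_lit 3504)),(k1,(nat_lit 3504)),(k2,
    (nat_lit 5255))],[(k3,(nat_lit 3505)),(k10,(nat_lit 4015)),(k5,(nat_lit 6205))],[(k2,(nat_lit 5401)),(k0,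
    (nat_lit 8760)),(k1,(nat_lit 8760))],[(k2,(nat_lit 4671)),(k0,(nat_lit 8760)),(k1,(nat_lit 8760))],[(k3,
    (nat_lit 3870)),(k10,(nat_lit 4380)),(k5,(nat_lit 7300))],[(k6,(nat_lit 4015)),(k11,(nat_lit 4380)),(k4,
    (nat_lit 6570))]]
    [] k0
    [[k0,k1,k0,k1,k0,k0],[k0,k1,k0,k1,k0,k1],[k0,k0,k2,k0,k0,k0],[k0,k0,k3,k0,k0,k0],[k0,k0,k4,k0,k0,k0],[k0,k0,k1,k0,
    k0,k1],[k0,k0,k0,k0,k0,k2],[k0,k0,k0,k0,k0,k3]]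
    [.contra [y1,z0,z2],.contra [z1,z0,y1],.contra [z1],.ref k10 k0 [(z1,[z0,z1]),(z1,[y1,y3,z0,z3])],
    .ref k12 k0 [(z1,[z0,z1]),(z1,[z0,z0,z1]),(z2,[z1])],.contra [y1,y1,z0,z1],.contra [z1],.ref k11 k0 [(z1,[z0,z1]),
    (z1,[z0,z0,z1]),(z1,[y1,y3,y3,z3])]]),
    .old (.lp [k38,k0,k100,k58,(nat_lit 202),k80] [k90,k90,k128,k90,k59,k59,k80,k80,k16,k0,k69,k69] k0 [[],[],[k0,k0,k0,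
    k0,k0,k0,k42],[k0,k0,k0,k0,k0,k40],[k0,k0,k40],[],[],[k0,k0,k0,k42]] (nat_lit 240) k6
    [[(k7,k48),(k8,k112),(k9,k128)],[(k7,k48),(k8,k112),(k9,k128)],[(k6,k48),(k11,k59),(k4,k69)],[(k9,k48),(k7,k50),
    (k8,k74)],[(k4,k60),(k11,k90),(k6,k121)],[(k5,k60),(k3,k69),(k10,k90)],[(k0,k48),(k1,k48),(k2,k50)],[(k3,k48),
    (k10,k69),(k5,k121)],[(k2,k48),(k0,k128),(k1,k128)],[(k2,k74),(k0,k112),(k1,k112)],[(k3,k59),(k10,k80),(k5,k90)],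
    [(k6,k69),(k11,k80),(k4,k90)]]
    [] k0
    [[k0,k1,k0,k1,k0,k0],[k0,k2,k0,k2,k0,k0],[k0,k1,k0,k1,k0,k1],[k0,k0,k2,k0,k0,k0],[k0,k0,k3,k0,k0,k0],[k0,k0,k1,k0,
    k0,k1],[k0,k0,k0,k0,k0,k2]]
    [.contra [y1,y1,z1],.ref k13 k0 [(z1,[z0,z1]),(z2,[z1])],.contra [y1,y1,z1],.contra [z1],.ref k10 k0 [(z1,[z0,
    z1]),(z1,[y1,y3,z3])],.contra [y1,y1,z1],.contra [z1]]),
    .old (.lp [k2,k8,k16,k22,k22,k24] [k11,k11,k8,k8,k4,k4,k1,k1,k1,k1,k0,k0] k0 [[],[],[k0,k0,k0,k0,k0,k0,k2],[],[],[],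
    [],[k0,k0,k0,k2]] k48 k5
    [[(k7,k12),(k8,k12),(k9,k12)],[(k7,k12),(k8,k12),(k9,k12)],[(k4,k12),(k6,k15),(k11,k16)],[(k9,k13),(k7,k15),(k8,
    k15)],[(k4,k16),(k11,k20),(k6,k21)],[(k3,k12),(k5,k16),(k10,k20)],[(k0,k12),(k1,k12),(k2,k15)],[(k3,k15),(k5,k21),
    (k10,k23)],[(k0,k12),(k1,k12),(k2,k13)],[(k0,k12),(k1,k12),(k2,k15)],[(k3,k16),(k5,k20),(k10,k24)],[(k4,k20),(k6,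
    k23),(k11,k24)]]
    [] k0
    [[k1,k0,k0,k0,k1,k0],[k0,k1,k0,k1,k0,k0],[k0,k0,k2,k0,k0,k0],[k0,k0,k1,k0,k0,k1]]
    [.ref k14 k0 [(z1,[z1])],.ref k7 k0 [(z1,[y1,z1])],.contra [z1],.ref k0 k0 [(z1,[y1,z1])]])]⟩

/-- classes `0 0 0 0 0 0`, types `N0 N0 N1 N1 N3 N2` -/
noncomputable def cU6_23 : CertX :=
  ⟨[k12,k12,k13,k13,k15,k14],[(false,k0,[k0,k1,k2,k3,k4,k5])],[[[([z1,z0,z1,z0,z1,z0],z2)],[([z3,z0,z0,z0,z3,z0],z2),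
    ([z0,z1,z0,z1,z0,z0],z2),([z0,z0,z3,z0,z0,z0],z2)],[([z1,z0,z0,z0,z1,z0],z1),([z0,z1,z0,z1,z0,z0],z2),([z0,z0,z3,
    z0,z0,z0],z2)],[([z3,z0,z0,z0,z3,z3],z4),([z0,z1,z0,z1,z0,z0],z2)],[([z1,z0,z0,z0,z1,z0],z1),([z0,z1,z0,z1,z0,z0],
    z2),([z0,z0,z3,z0,z0,z0],z1)],[([z1,z0,z0,z0,z1,z0],z1),([z0,z1,z0,z1,z0,z0],z2),([z0,z0,z2,z0,z0,z0],z1)],[([z1,
    z0,z0,z0,z1,z0],z1),([z0,z1,z0,z1,z0,z0],z2)],[([z1,z0,z1,z0,z1,z1],z2)],[([z1,z0,z0,z0,z1,z0],z2),([z0,z3,z0,z3,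
    z0,z0],z2),([z0,z0,z3,z0,z0,z0],z2)],[([z1,z0,z0,z0,z1,z0],z2),([z0,z1,z0,z1,z0,z0],z1),([z0,z0,z3,z0,z0,z0],z2)],
    [([z1,z0,z0,z0,z1,z0],z2),([z0,z3,z0,z3,z0,z3],z4)],[([z1,z0,z0,z0,z1,z0],z2),([z0,z1,z0,z1,z0,z0],z1),([z0,z0,z3,
    z0,z0,z0],z1)]],[[([z1,z0,z0,z0,z1,z0],z2),([z0,z1,z0,z1,z0,z0],z1),([z0,z0,z2,z0,z0,z0],z1)],[([z1,z0,z0,z0,z1,
    z0],z2),([z0,z1,z0,z1,z0,z0],z1)],[([z1,z0,z0,z0,z1,z0],z2)],[]]],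
    [.old (.leafM k5 [k2,k3,k4,k5,k0,k1] [(z1,[y1,z1]),(z1,[z1])] []),
    .old (.leafM k10 [k0,k2,k4,k5] [(z1,[z0,z0,z1]),(z1,[y1,y3,y1,z3]),(z1,[z1])] [(k1,k3,z1,[z0,z1]),(k3,k1,z1,[z0,z1])]),
    .old (.leafM k11 [k0,k2,k4,k5] [(z1,[z0,z0,z1]),(z1,[y3,y3,y1,z3]),(z1,[z1])] [(k1,k3,z1,[z0,z1]),(k3,k1,z1,[z0,z1])]),
    .old (.lp [k35,k49,k80,k188,k66,k60] [k76,k77,k76,k63,k54,k54,k0,k0,k61,k61,k64,k64] k0 [[k0,k0,k0,k0,k0,k0,k3],[],[],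
    [],[],[],[k0,k0,k0,k0,k0,k0,k0,k0,k0,k79],[k0,k3],[k0,k0,k0,k0,k0,k0,k0,k79]] (nat_lit 240) k6
    [[(k3,k48),(k8,k50),(k5,k57)],[(k9,k48),(k10,k48),(k7,k112)],[(k1,k48),(k4,k71),(k6,k128)],[(k10,k48),(k9,k51),
    (k7,k112)],[(k1,k57),(k4,k80),(k6,k134)],[(k3,k71),(k8,k73),(k5,k80)],[(k0,k112),(k2,k112),(k11,k124)],[(k8,k48),
    (k3,k128),(k5,k134)],[(k0,k48),(k2,k51),(k11,k142)],[(k6,k48),(k1,k50),(k4,k73)],[(k10,k60),(k7,k124),(k9,k142)],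
    [(k0,k48),(k2,k48),(k11,k60)]]
    [] k0
    [[k1,k0,k1,k0,k1,k0],[k1,k0,k0,k0,k1,k0],[k2,k0,k0,k0,k2,k0],[k0,k0,k2,k0,k0,k0],[k0,k0,k0,k0,k0,k2],[k0,k0,k0,k0,
    k0,k3]]
    [.contra [y1,z0,y1,z1],.contra [y1,z0,y1,z1],.ref k2 k0 [(z2,[z1]),(z1,[z0,z0,z1]),(z1,[z0,y1,y3,z3])],
    .contra [z1],.contra [z1],.ref k1 k0 [(z1,[y1,z1]),(z1,[z0,z0,z1]),(z1,[z0,y1,y3,z3])]]),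
    .old (.leafM k11 [k4,k5,k0,k2] [(z1,[y3,y3,y1,z3]),(z1,[z0,z0,z1]),(z1,[z1])] [(k1,k3,z1,[z0,z1]),(k3,k1,z1,[z0,z1])]),
    .old (.leafM k12 [k0,k2,k4,k5] [(z1,[z0,z0,z1]),(z1,[y2,y2,y1,z2]),(z1,[z1])] [(k1,k3,z1,[z0,z1]),(k3,k1,z1,[z0,z1])]),
    .old (.lp [k36,k158,k48,k60,k108,k60] [k61,k61,k0,k0,k55,k55,k49,k49,k25,k25,k49,k49] k0 [[k0,k0,k0,k0,k0,k0,k22],[],
    [k0,k0,k0,k0,k0,k0,k0,k0,k0,k0,k0,k22],[],[],[],[k0,k0,k0,k0,k0,k0,k0,k0,k0,k36],[k0,k22],[k0,k0,k0,k0,k0,k0,k0,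
    k36],[],[k0,k0,k0,k22]] (nat_lit 240) k6
    [[(k5,k64),(k8,k72),(k3,k97)],[(k7,k48),(k10,k48),(k9,k50)],[(k1,k97),(k4,k103),(k6,k131)],[(k10,k87),(k7,k109),
    (k9,k133)],[(k4,k48),(k6,k54),(k1,k64)],[(k5,k48),(k8,k78),(k3,k103)],[(k0,k48),(k11,k60),(k2,k109)],[(k8,k48),
    (k5,k54),(k3,k131)],[(k0,k50),(k11,k120),(k2,k133)],[(k6,k48),(k1,k72),(k4,k78)],[(k7,k60),(k10,k60),(k9,k120)],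
    [(k0,k48),(k11,k60),(k2,k87)]]
    [] k0
    [[k1,k0,k1,k0,k1,k0],[k1,k0,k0,k0,k1,k0],[k0,k0,k2,k0,k0,k0],[k0,k0,k3,k0,k0,k0],[k0,k0,k4,k0,k0,k0],[k0,k0,k0,k0,
    k0,k2],[k0,k0,k0,k0,k0,k3]]
    [.contra [z1,y1],.contra [y2,z2,z1],.contra [z1],.ref k3 k0 [(z1,[y1,z0,y3,z3]),(z1,[z0,z0,z1])],.ref k5 k0 [(z1,
    [z0,z1]),(z1,[z0,z0,z1]),(z2,[z1])],.contra [z1],.ref k4 k0 [(z1,[z0,z1]),(z1,[z0,z0,z1]),(z1,[y1,y3,y3,z3])]]),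
    .old (.lp [k16,k106,k60,k132,k84,k80] [k58,k58,k13,k13,k36,k36,k0,k0,k24,k24,k26,k26] k0 [[k0,k0,k0,k0,k0,k0,k2],[],
    [k0,k0,k0,k0,k0,k0,k0,k0,k0,k0,k0,k22],[],[],[],[k0,k0,k0,k0,k0,k0,k0,k0,k0,k60],[k0,k2],[k0,k0,k0,k0,k0,k0,k0,
    k60],[],[k0,k0,k0,k22]] (nat_lit 240) k6
    [[(k8,k50),(k5,k60),(k3,k61)],[(k9,k48),(k10,k48),(k7,k74)],[(k1,k61),(k4,k83),(k6,k121)],[(k10,k71),(k9,k95),(k7,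
    k119)],[(k1,k60),(k4,k60),(k6,k96)],[(k5,k60),(k8,k72),(k3,k83)],[(k0,k74),(k11,k106),(k2,k119)],[(k8,k48),(k5,
    k96),(k3,k121)],[(k0,k48),(k2,k95),(k11,k142)],[(k6,k48),(k1,k50),(k4,k72)],[(k10,k80),(k7,k106),(k9,k142)],[(k0,
    k48),(k2,k71),(k11,k80)]]
    [] k0
    [[k1,k0,k1,k0,k1,k0],[k1,k0,k0,k0,k1,k0],[k2,k0,k0,k0,k2,k0],[k0,k0,k2,k0,k0,k0],[k0,k0,k3,k0,k0,k0],[k0,k0,k0,k0,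
    k0,k2]]
    [.contra [y1,z1],.contra [y1,z1],.ref k6 k0 [(z2,[z1]),(z1,[z0,y1,z1])],.contra [z1],.ref k3 k0 [(z1,[y1,z3]),(z1,
    [z0,y1,z1])],.contra [z1]]),
    .old (.leafM k10 [k1,k2,k3,k5] [(z1,[z0,z0,z1]),(z1,[y3,y1,y1,z3]),(z1,[z0,z1])] [(k4,k0,z1,[z1]),(k0,k4,z1,[z1])]),
    .old (.leafM k11 [k1,k2,k3,k5] [(z1,[z0,z0,z1]),(z1,[y3,y3,y1,z3]),(z1,[z0,z1])] [(k4,k0,z1,[z1]),(k0,k4,z1,[z1])]),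
    .old (.lp [(nat_lit 1104),(nat_lit 1104),(nat_lit 1840),(nat_lit 1150),(nat_lit 4416),(nat_lit 1380)] [(nat_lit 1656),
    (nat_lit 1656),(nat_lit 1656),(nat_lit 1656),(nat_lit 1288),(nat_lit 1288),(nat_lit 1633),(nat_lit 1633),k0,k0,
    (nat_lit 1518),(nat_lit 1518)] k0 [[],[],[k0,k0,k0,k0,k0,k0,(nat_lit 1440)],[],[k0,k0,k0,k0,k0,k0,k0,k0,k0,
    (nat_lit 1920)],[],[],[k0,k0,k0,(nat_lit 1440)],[k0,k0,k0,k0,k0,(nat_lit 1920)]] (nat_lit 5520) k6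
    [[(k3,(nat_lit 1104)),(k5,(nat_lit 1472)),(k8,(nat_lit 2760))],[(k7,(nat_lit 1127)),(k10,(nat_lit 1242)),(k9,
    (nat_lit 2760))],[(k1,(nat_lit 1104)),(k6,(nat_lit 1127)),(k4,(nat_lit 1472))],[(k7,(nat_lit 1127)),(k10,
    (nat_lit 1242)),(k9,(nat_lit 1320))],[(k1,(nat_lit 1472)),(k4,(nat_lit 1840)),(k6,(nat_lit 2935))],[(k8,
    (nat_lit 1208)),(k3,(nat_lit 1472)),(k5,(nat_lit 1840))],[(k0,(nat_lit 1127)),(k2,(nat_lit 1127)),(k11,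
    (nat_lit 3185))],[(k3,(nat_lit 1127)),(k8,(nat_lit 2783)),(k5,(nat_lit 2935))],[(k2,(nat_lit 1320)),(k0,
    (nat_lit 2760)),(k11,(nat_lit 2898))],[(k4,(nat_lit 1208)),(k1,(nat_lit 2760)),(k6,(nat_lit 2783))],[(k10,
    (nat_lit 1380)),(k9,(nat_lit 2898)),(k7,(nat_lit 3185))],[(k0,(nat_lit 1242)),(k2,(nat_lit 1242)),(k11,
    (nat_lit 1380))]]
    [] k0
    [[k1,k0,k1,k0,k1,k0],[k0,k1,k0,k1,k0,k0],[k0,k2,k0,k2,k0,k0],[k0,k0,k2,k0,k0,k0],[k0,k0,k0,k0,k0,k2],[k0,k0,k0,k0,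
    k0,k3]]
    [.contra [y1,y2,y1,z3],.contra [y1,y1,z0,z1],.ref k9 k0 [(z1,[z0,z1]),(z2,[z1]),(z1,[z0,y3,y1,z3])],.contra [z1],
    .contra [z1],.ref k8 k0 [(z1,[z0,z1]),(z1,[y1,z0,z1]),(z1,[z0,y3,y1,z3])]]),
    .old (.leafM k11 [k3,k5,k1,k2] [(z1,[y3,y3,y1,z3]),(z1,[z0,z0,z1]),(z1,[z0,z1])] [(k4,k0,z1,[z1]),(k0,k4,z1,[z1])]),
    .old (.leafM k12 [k1,k2,k3,k5] [(z1,[z0,z0,z1]),(z1,[y2,y2,y1,z2]),(z1,[z0,z1])] [(k4,k0,z1,[z1]),(k0,k4,z1,[z1])]),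
    .old (.lp [k48,k74,k48,k48,k192,k60] [k72,k72,k59,k59,k72,k72,k72,k72,k0,k0,k66,k66] k0 [[],[],[k0,k0,k0,k0,k0,k0,
    k70],[],[k0,k0,k0,k0,k0,k0,k0,k0,k0,k58],[],[],[k0,k0,k0,k70],[k0,k0,k0,k0,k0,k58]] (nat_lit 240) k6
    [[(k5,k48),(k3,k61),(k8,k120)],[(k7,k48),(k10,k54),(k9,k120)],[(k1,k61),(k4,k61),(k6,k61)],[(k7,k61),(k9,k63),
    (k10,k67)],[(k1,k48),(k4,k48),(k6,k118)],[(k5,k48),(k3,k61),(k8,k62)],[(k0,k48),(k2,k61),(k11,k112)],[(k3,k61),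
    (k5,k118),(k8,k120)],[(k2,k63),(k0,k120),(k11,k126)],[(k4,k62),(k1,k120),(k6,k120)],[(k10,k60),(k7,k112),(k9,
    k126)],[(k0,k54),(k11,k60),(k2,k67)]]
    [] k0
    [[k1,k0,k1,k0,k1,k0],[k0,k1,k0,k1,k0,k0],[k0,k0,k2,k0,k0,k0],[k0,k0,k3,k0,k0,k0],[k0,k0,k4,k0,k0,k0],[k0,k0,k0,k0,
    k0,k2],[k0,k0,k0,k0,k0,k3]]
    [.contra [y1,z0,y1,z1],.contra [y1,z0,z2],.contra [z1],.ref k10 k0 [(z1,[z0,z1]),(z1,[y1,y3,z0,z3])],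
    .ref k12 k0 [(z1,[z0,z1]),(z1,[z0,z0,z1]),(z2,[z1])],.contra [z1],.ref k11 k0 [(z1,[z0,z1]),(z1,[z0,z0,z1]),(z1,
    [y1,y3,y3,z3])]]),
    .old (.lp [k46,k50,k60,k50,k192,k80] [k80,k80,k78,k78,k73,k73,k78,k78,k14,k0,k63,k63] k0 [[],[k0,k0,k0,k0,k0,k0,k0,
    k2],[k0,k0,k0,k0,k0,k0,k80],[],[k0,k0,k0,k0,k0,k0,k0,k0,k0,k62],[],[k2],[k0,k0,k0,k80],[k0,k0,k0,k0,k0,
    k62]] (nat_lit 240) k6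
    [[(k3,k48),(k5,k53),(k8,k112)],[(k7,k48),(k10,k63),(k9,k128)],[(k1,k48),(k6,k48),(k4,k55)],[(k9,k48),(k7,k50),
    (k10,k65)],[(k1,k53),(k4,k60),(k6,k135)],[(k3,k55),(k8,k57),(k5,k60)],[(k0,k48),(k2,k50),(k11,k127)],[(k3,k48),
    (k8,k114),(k5,k135)],[(k2,k48),(k0,k128),(k11,k143)],[(k4,k57),(k1,k112),(k6,k114)],[(k10,k80),(k7,k127),(k9,
    k143)],[(k0,k63),(k2,k65),(k11,k80)]]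
    [] k0
    [[k1,k0,k1,k0,k1,k0],[k0,k1,k0,k1,k0,k0],[k0,k2,k0,k2,k0,k0],[k0,k0,k2,k0,k0,k0],[k0,k0,k3,k0,k0,k0],[k0,k0,k0,k0,
    k0,k2]]
    [.contra [z1,y1],.contra [y1,y1,z1],.ref k13 k0 [(z1,[z0,z1]),(z2,[z1])],.contra [z1],.ref k10 k0 [(z1,[z0,z1]),
    (z1,[y1,y3,z3])],.contra [z1]]),
    .old (.lp [k12,k12,k24,k12,k12,k22] [k6,k6,k6,k6,k0,k0,k6,k6,k6,k6,k1,k1] k0 [[],[],[],[],[k0,k0,k0,k0,k0,k0,k0,k0,k0,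
    k2],[],[],[],[k0,k0,k0,k0,k0,k2],[k0,k0,k0,k0,k0,k0,k0,k0,k0,k0,k0,k2],[k0,k0,k0,k0,k0,k0,k0,k0,k2]] k48 k5
    [[(k3,k12),(k8,k14),(k5,k18)],[(k7,k12),(k9,k12),(k10,k17)],[(k1,k12),(k6,k12),(k4,k18)],[(k7,k12),(k9,k12),(k10,
    k17)],[(k1,k18),(k6,k18),(k4,k24)],[(k8,k16),(k3,k18),(k5,k24)],[(k0,k12),(k2,k12),(k11,k19)],[(k3,k12),(k8,k12),
    (k5,k18)],[(k0,k12),(k2,k12),(k11,k17)],[(k6,k12),(k1,k14),(k4,k16)],[(k9,k17),(k7,k19),(k10,k20)],[(k0,k17),(k2,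
    k17),(k11,k20)]]
    [] k0
    [[k1,k0,k1,k0,k1,k0],[k1,k0,k0,k0,k1,k0],[k0,k1,k0,k1,k0,k0],[k0,k0,k0,k0,k0,k2]]
    [.ref k0 k0 [(z1,[z1])],.ref k14 k0 [(z1,[z1])],.ref k7 k0 [(z1,[y1,z1])],.contra [z1]])]⟩

/-- classes `0 0 0 0 0 0`, types `N0 N0 N1 N2 N0 N2` -/
noncomputable def cU6_24 : CertX :=
  ⟨[k12,k12,k13,k14,k12,k14],[(false,k0,[k0,k1,k2,k3,k4,k5])],[[[([z1,z0,z0,z0,z0,z1],z2),([z0,z1,z1,z1,z0,y1],z0)],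
    [([z1,z1,z1,z1,z0,z0],z2)],[([z1,z0,z0,z0,z0,z1],z2),([z0,z1,z0,z1,z0,y1],z0)],[([z1,z0,z0,z0,z0,z1],z2)],[]]],
    [.old (.lp [k22,k26,k40,k30,k22,k98] [k38,k38,k36,k36,k29,k29,k34,k34,k38,k38,k0,k0] k0 [[k0,k0,k0,k0,k2],[],[k0,k0,k0,
    k0,k0,k0,k0,k0,k0,k0,k0,k2],[],[],[k0,k2],[],[],[],[],[k0,k0,k0,k2]] k120 k6
    [[(k3,k24),(k5,k33),(k11,k60)],[(k7,k24),(k6,k26),(k10,k60)],[(k1,k24),(k9,k24),(k4,k35)],[(k6,k28),(k7,k28),(k10,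
    k60)],[(k9,k31),(k1,k33),(k4,k40)],[(k3,k35),(k5,k40),(k11,k69)],[(k0,k24),(k8,k26),(k2,k28)],[(k0,k26),(k8,k26),
    (k2,k28)],[(k3,k24),(k5,k31),(k11,k60)],[(k6,k26),(k7,k26),(k10,k60)],[(k1,k60),(k9,k60),(k4,k69)],[(k0,k60),(k2,
    k60),(k8,k60)]]
    [] k0
    [[k1,k1,k0,k1,k0,k0],[k0,k1,k0,k1,k1,k0],[k0,k0,k2,k0,k0,k0]]
    [.contra [y1,z1,z1],.contra [y1,y1,z0,z1],.contra [z1]]),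
    .old (.lp [k54,k54,k80,k66,k120,k102] [k33,k33,k33,k33,k20,k20,k27,k27,k0,k0,k9,k9] k0 [[k0,k0,k0,k0,k0,k0,k0,k0,k0,
    k0,k0,k6],[],[k0,k0,k0,k0,k0,k0,k0,k0,k0,k0,k0,k10],[],[],[],[],[],[],[k0,k0,k0,k0,k0,k0,k0,k0,k0,k0,k18],[k0,k6,
    k0,k10],[k0,k0,k0,k0,k0,k0,k0,k0,k18]] (nat_lit 240) k5
    [[(k3,k60),(k11,k60),(k5,k77)],[(k6,k60),(k7,k60),(k10,k72)],[(k1,k60),(k4,k67),(k9,k87)],[(k6,k60),(k7,k60),(k10,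
    k68)],[(k1,k77),(k4,k80),(k9,k100)],[(k3,k67),(k5,k80),(k11,k91)],[(k0,k60),(k2,k60),(k8,k93)],[(k0,k60),(k2,k60),
    (k8,k93)],[(k3,k87),(k5,k100),(k11,k111)],[(k6,k93),(k7,k93),(k10,k129)],[(k1,k60),(k4,k91),(k9,k111)],[(k2,k68),
    (k0,k72),(k8,k129)]]
    [] k0
    [[k1,k1,k0,k1,k0,k0],[k1,k0,k0,k0,k0,k1],[k0,k0,k2,k0,k0,k0]]
    [.contra [y1,z1],.ref k0 k0 [(z1,[z1]),(z1,[y1,z1])],.contra [z1]]),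
    .old (.tor k1 false k0 [(z1,[y1,y1,z1]),(z1,[y1,z0,z1]),(z1,[z1]),(z1,[z1,z1])]),
    .old (.lp [k66,k24,k40,k36,k24,k48] [k0,k0,k21,k21,k13,k13,k15,k15,k21,k21,k9,k9] k0 [[k0,k0,k0,k0,k0,k0,k0,k6],[],[],
    [],[],[],[k0,k6],[],[k0,k0,k0,k0,k0,k0,k0,k0,k0,k0,k0,k6],[],[k0,k0,k0,k0,k0,k0,k0,k0,k0,k6]] k120 k5
    [[(k3,k45),(k5,k53),(k11,k63)],[(k6,k45),(k7,k51),(k10,k57)],[(k9,k30),(k4,k32),(k1,k45)],[(k6,k30),(k7,k30),(k10,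
    k36)],[(k9,k32),(k4,k40),(k1,k53)],[(k3,k32),(k5,k40),(k11,k44)],[(k2,k30),(k8,k30),(k0,k51)],[(k2,k30),(k8,k30),
    (k0,k45)],[(k3,k30),(k5,k32),(k11,k36)],[(k6,k30),(k7,k30),(k10,k30)],[(k9,k36),(k4,k44),(k1,k63)],[(k8,k30),(k2,
    k36),(k0,k57)]]
    [] k0
    [[k0,k1,k0,k1,k1,k0],[k0,k0,k2,k0,k0,k0],[k0,k0,k1,k0,k1,k1],[k0,k0,k0,k0,k1,k1]]
    [.contra [y1,y1,z1],.contra [z1],.ref k2 k0 [(z1,[z0,z1]),(z1,[y1,y1,z1])],.ref k1 k0 [(z1,[y1,z0,z1])]]),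
    .old (.lp [k6,k22,k16,k20,k8,k22] [k8,k8,k0,k0,k3,k3,k1,k1,k7,k7,k0,k0] k0 [[],[],[k0,k0,k0,k0,k0,k0,k0,k0,k0,k0,k0,
    k2],[],[],[k0,k0,k0,k0,k0,k0,k0,k0,k0,k2],[],[],[k0,k0,k0,k0,k2],[],[k0,k0,k0,k2]] k48 k5
    [[(k5,k13),(k3,k14),(k11,k14)],[(k6,k13),(k7,k13),(k10,k14)],[(k1,k14),(k9,k15),(k4,k19)],[(k10,k20),(k6,k21),(k7,
    k21)],[(k9,k12),(k1,k13),(k4,k16)],[(k5,k16),(k3,k19),(k11,k21)],[(k8,k12),(k0,k13),(k2,k21)],[(k0,k13),(k8,k14),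
    (k2,k21)],[(k5,k12),(k3,k15),(k11,k15)],[(k7,k12),(k6,k14),(k10,k15)],[(k1,k14),(k9,k15),(k4,k21)],[(k0,k14),(k8,
    k15),(k2,k20)]]
    [] k0
    [[k1,k0,k0,k0,k0,k1],[k0,k0,k2,k0,k0,k0],[k0,k0,k0,k0,k1,k1]]
    [.ref k3 k0 [(z1,[z1])],.contra [z1],.ref k1 k0 [(z1,[y1,z1])]])]⟩

/-- classes `0 0 0 0 0 0`, types `N0 N0 N1 N2 N1 N3` -/
noncomputable def cU6_25 : CertX :=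
  ⟨[k12,k12,k13,k14,k13,k15],[(false,k0,[k0,k1,k2,k3,k4,k5])],[[[([z1,z0,z0,z1,z0,z0],z2)],[]]],
    [.old (.leafM k5 [k1,k2,k4,k5] [] [(k3,k0,z1,[z1]),(k0,k3,z1,[z1])]),
    .old (.lp [k0,k4,k4,k6,k2,k6] [k3,k3,k1,k1,k1,k1,k0,k0,k2,k2,k0,k0] k0 [[],[],[k0,k0,k0,k0,k2],[],[],[k0,k0,k0,
    k2]] k12 k5
    [[(k6,k3),(k7,k3),(k11,k3)],[(k6,k3),(k7,k3),(k11,k3)],[(k8,k3),(k9,k3),(k4,k4)],[(k7,k3),(k6,k5),(k11,k5)],[(k8,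
    k3),(k9,k3),(k4,k6)],[(k3,k4),(k10,k5),(k5,k6)],[(k0,k3),(k1,k3),(k2,k3)],[(k0,k3),(k1,k3),(k2,k5)],[(k3,k3),(k5,
    k3),(k10,k4)],[(k3,k3),(k5,k3),(k10,k4)],[(k0,k3),(k1,k3),(k2,k5)],[(k8,k4),(k9,k4),(k4,k5)]]
    [] k0
    [[k1,k0,k0,k1,k0,k0]]
    [.ref k0 k0 [(z1,[z1])]])]⟩

/-- classes `0 0 0 0 0 0`, types `N0 N0 N1 N2 N2 N3` -/
noncomputable def cU6_26 : CertX :=
  ⟨[k12,k12,k13,k14,k14,k15],[(false,k0,[k0,k1,k2,k3,k4,k5])],[[[([z1,z0,z0,z1,z0,z0],z2)],[([z1,z0,z0,z1,z0,z0],z1),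
    ([z0,z1,z0,z0,z1,z0],z1)],[([z1,z1,z0,z1,z1,z0],z2)],[([z1,z0,z0,z1,z0,z0],z1),([z0,z1,z0,z0,z1,z0],z2)],[([z1,z0,
    z1,z1,z0,z1],z2)],[]]],
    [.old (.leafM k6 [k2,k4,k5,k1] [] [(k3,k0,z1,[z1]),(k0,k3,z1,[z1])]),
    .old (.leafM k7 [k0,k1,k3,k4] [(z1,[z0,z1])] [(k2,k5,z1,[y1,y1,z1]),(k5,k2,z1,[y1,y1,z1])]),
    .old (.lp [k0,k0,(nat_lit 3680),(nat_lit 3312),(nat_lit 4968),(nat_lit 4320)] [(nat_lit 2484),(nat_lit 2484),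
    (nat_lit 2484),(nat_lit 2484),(nat_lit 644),(nat_lit 644),(nat_lit 828),(nat_lit 828),k0,k0,(nat_lit 324),
    (nat_lit 324)] k0 [[],[],[k0,k0,k0,k0,k0,k0,k0,k0,k0,(nat_lit 345)],[],[],[],[],[],[k0,k0,k0,
    (nat_lit 345)]] (nat_lit 8280) k6
    [[(k6,(nat_lit 1656)),(k7,(nat_lit 1656)),(k8,(nat_lit 2484))],[(k6,(nat_lit 1656)),(k7,(nat_lit 1656)),(k8,
    (nat_lit 2484))],[(k4,(nat_lit 1840)),(k11,(nat_lit 2160)),(k9,(nat_lit 2484))],[(k6,(nat_lit 1656)),(k7,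
    (nat_lit 1656)),(k8,(nat_lit 2139))],[(k4,(nat_lit 3680)),(k9,(nat_lit 4324)),(k11,(nat_lit 4345))],[(k3,
    (nat_lit 1840)),(k5,(nat_lit 3680)),(k10,(nat_lit 4000))],[(k0,(nat_lit 1656)),(k1,(nat_lit 1656)),(k2,
    (nat_lit 1656))],[(k0,(nat_lit 1656)),(k1,(nat_lit 1656)),(k2,(nat_lit 1656))],[(k3,(nat_lit 2484)),(k5,
    (nat_lit 4324)),(k10,(nat_lit 4644))],[(k2,(nat_lit 2139)),(k0,(nat_lit 2484)),(k1,(nat_lit 2484))],[(k3,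
    (nat_lit 2160)),(k10,(nat_lit 4320)),(k5,(nat_lit 4345))],[(k4,(nat_lit 4000)),(k11,(nat_lit 4320)),(k9,
    (nat_lit 4644))]]
    [] k0
    [[k1,k0,k0,k1,k0,k0],[k2,k0,k0,k2,k0,k0],[k0,k1,k0,k0,k1,k0],[k0,k0,k2,k0,k0,k0]]
    [.contra [y1,z1],.ref k1 k0 [(z2,[z1]),(z2,[y1,z2])],.contra [y1,z1],.contra [z1]]),
    .old (.leafM k7 [k0,k2,k3,k5] [(z1,[y1,y1,z1])] [(k1,k4,z1,[z0,z1]),(k4,k1,z1,[z0,z1])]),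
    .old (.lp [k18,k66,k94,k102,k160,k30] [k130,k106,k94,k94,k80,k80,k76,k76,k0,k94,k112,k112] k0 [[],[],[k0,k0,k0,k0,
    k36],[k0,k0,k0,k0,k0,k0,k0,k0,k14],[],[k0,k0,k0,k36],[],[],[k0,k0,k0,k0,k0,k0,k0,k0,k0,k0,k100],[k0,k0,k14],[],
    [k0,k0,k0,k0,k0,k0,k0,k0,k0,k100]] (nat_lit 240) k6
    [[(k8,k48),(k6,k72),(k7,k72)],[(k6,k48),(k7,k48),(k8,k124)],[(k11,k48),(k9,k66),(k4,k80)],[(k7,k48),(k6,k84),(k8,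
    k174)],[(k11,k48),(k9,k80),(k4,k130)],[(k10,k62),(k3,k80),(k5,k130)],[(k0,k48),(k2,k48),(k1,k72)],[(k0,k48),(k1,
    k72),(k2,k84)],[(k10,k48),(k3,k66),(k5,k80)],[(k1,k48),(k0,k124),(k2,k174)],[(k3,k48),(k5,k48),(k10,k130)],[(k9,
    k48),(k4,k62),(k11,k130)]]
    [] k0
    [[k1,k0,k0,k1,k0,k0],[k1,k1,k0,k1,k1,k0],[k0,k0,k1,k0,k0,k1],[k0,k0,k2,k0,k0,k2]]
    [.contra [y1,z1],.contra [z1,z1,y1],.contra [y1,z1],.ref k3 k0 [(z2,[y1,z2]),(z1,[z0,y1,z1])]]),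
    .old (.lp [k4,k4,k8,k8,k12,k10] [k4,k4,k4,k4,k2,k2,k2,k2,k0,k0,k1,k1] k0 [[],[],[],[],[],[],[],[],[k0,k0,k0,k0,k0,k0,
    k0,k0,k0,k0,k2],[],[],[k0,k0,k0,k0,k0,k0,k0,k0,k0,k2]] k24 k5
    [[(k6,k6),(k7,k6),(k8,k6)],[(k6,k6),(k7,k6),(k8,k8)],[(k4,k6),(k11,k7),(k9,k8)],[(k6,k6),(k7,k6),(k8,k8)],[(k4,
    k8),(k11,k9),(k9,k10)],[(k3,k6),(k5,k8),(k10,k9)],[(k0,k6),(k1,k6),(k2,k6)],[(k0,k6),(k1,k6),(k2,k6)],[(k3,k8),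
    (k5,k10),(k10,k11)],[(k1,k6),(k0,k8),(k2,k8)],[(k3,k7),(k5,k9),(k10,k12)],[(k4,k9),(k9,k11),(k11,k12)]]
    [] k0
    [[k1,k0,k0,k1,k0,k0],[k0,k1,k0,k0,k1,k0],[k0,k0,k2,k0,k0,k0],[k0,k0,k1,k0,k0,k1]]
    [.ref k0 k0 [(z1,[z1])],.ref k4 k0 [(z1,[y1,z1])],.contra [z1],.ref k2 k0 [(z1,[y1,z1])]])]⟩

/-- classes `0 0 0 0 0 0`, types `N0 N0 N1 N2 N3 N1` -/
noncomputable def cU6_27 : CertX :=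
  ⟨[k12,k12,k13,k14,k15,k13],[(false,k0,[k0,k1,k2,k3,k4,k5])],[[[([z3,z0,z0,z0,z0,z0],z2),([z0,z1,z0,z1,z0,z1],z2),
    ([z0,z0,z3,z0,z0,z0],z2)],[([z3,z0,z0,z0,z0,z0],z2),([z0,z1,z0,z1,z0,z1],z2)],[([z1,z0,z1,z0,z1,z0],z2)],[]]],
    [.old (.leafM k2 [k1,k2,k3,k4,k5,k0] [(z1,[z0,z0,z1]),(z1,[y1,y3,y1,z3]),(z1,[z1])] []),
    .old (.lp [k16,k16,k12,k8,k18,k24] [k4,k4,k4,k4,k6,k6,k8,k8,k3,k3,k0,k0] k0 [] k48 k5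
    [[(k0,k16),(k2,k16),(k11,k20)],[(k6,k12),(k7,k12),(k1,k16)],[(k4,k14),(k9,k17),(k10,k20)],[(k6,k12),(k7,k12),(k1,
    k16)],[(k4,k12),(k9,k15),(k10,k18)],[(k5,k12),(k3,k14),(k8,k15)],[(k0,k12),(k2,k12),(k11,k16)],[(k0,k12),(k2,k12),
    (k11,k16)],[(k5,k15),(k3,k17),(k8,k18)],[(k4,k15),(k9,k18),(k10,k21)],[(k6,k16),(k7,k16),(k1,k20)],[(k5,k18),(k3,
    k20),(k8,k21)]]
    [] k0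
    [[k2,k0,k0,k0,k0,k0],[k0,k0,k2,k0,k0,k0],[k0,k0,k3,k0,k0,k0],[k0,k0,k2,k0,k1,k0],[k0,k0,k1,k0,k1,k0],[k0,k0,k0,k0,
    k2,k0]]
    [.contra [z1],.contra [z1],.ref k0 k0 [(z1,[z0,z1]),(z1,[z0,z0,z1]),(z1,[z1])],.ref k0 k0 [(z1,[z0,z1]),(z1,[z0,
    z0,z1]),(z1,[z3,z1,z3,y3])],.contra [z1,z1,z1,y1],.contra [z1]]),
    .old (.lp [k6,k6,k8,k6,k8,k12] [k3,k3,k3,k3,k2,k2,k3,k3,k2,k2,k0,k0] k0 [] k24 k5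
    [[(k0,k6),(k2,k6),(k11,k9)],[(k1,k6),(k6,k6),(k7,k6)],[(k4,k7),(k9,k7),(k10,k9)],[(k1,k6),(k6,k6),(k7,k6)],[(k4,
    k8),(k9,k8),(k10,k10)],[(k3,k7),(k5,k8),(k8,k8)],[(k0,k6),(k2,k6),(k11,k9)],[(k0,k6),(k2,k6),(k11,k9)],[(k3,k7),
    (k5,k8),(k8,k8)],[(k4,k8),(k9,k8),(k10,k10)],[(k1,k9),(k6,k9),(k7,k9)],[(k3,k9),(k5,k10),(k8,k10)]]
    [] k0
    [[k2,k0,k0,k0,k0,k0],[k3,k0,k0,k0,k0,k0],[k0,k0,k2,k0,k0,k0],[k0,k0,k1,k0,k1,k0],[k0,k0,k0,k0,k2,k0]]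
    [.contra [z1],.ref k1 k0 [(z1,[z1]),(z1,[z0,y1,z1])],.contra [z1],.contra [y1,z1],.contra [z1]]),
    .old (.lp [k90,k44,k120,k52,k120,k44] [k15,k15,k38,k38,k0,k0,k34,k34,k0,k0,k38,k38] k0 [[k0,k0,k0,k0,k0,k0,k0,k0,k0,
    k0,k10],[],[],[],[],[],[],[],[],[],[],[k0,k10]] (nat_lit 240) k6
    [[(k2,k67),(k11,k67),(k0,k80)],[(k6,k71),(k7,k71),(k1,k80)],[(k10,k54),(k4,k82),(k9,k82)],[(k6,k48),(k7,k48),(k1,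
    k67)],[(k10,k82),(k4,k120),(k9,k120)],[(k3,k82),(k5,k120),(k8,k120)],[(k2,k48),(k11,k48),(k0,k71)],[(k2,k48),(k11,
    k48),(k0,k71)],[(k3,k82),(k5,k120),(k8,k120)],[(k10,k82),(k4,k120),(k9,k120)],[(k6,k48),(k7,k48),(k1,k67)],[(k3,
    k54),(k5,k82),(k8,k82)]]
    [] k0
    [[k2,k0,k0,k0,k0,k0],[k0,k1,k0,k1,k0,k1]]
    [.contra [z1],.ref k2 k0 [(z1,[y1,z1])]])]⟩

/-- classes `0 0 0 0 0 0`, types `N0 N0 N1 N2 N3 N2` -/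
noncomputable def cU6_28 : CertX :=
  ⟨[k12,k12,k13,k14,k15,k14],[(false,k0,[k0,k1,k2,k3,k4,k5])],[[[([z1,z1,z0,z1,z0,z1],z2)],[]]],
    [.old (.leafM k3 [k1,k3,k5,k0] [] [(k2,k4,z1,[y1,z1]),(k4,k2,z1,[y1,z1])]),
    .old (.lp [k46,k22,k40,k38,k50,k42] [k2,k2,k14,k14,k5,k5,k6,k6,k0,k0,k4,k4] k0 [[k0,k0,k0,k0,k0,k0,k0,k0,k0,k0,k0,
    k14],[],[],[],[],[],[k0,k0,k0,k0,k0,k0,k0,k0,k10],[],[k0,k0,k0,k0,k0,k0,k0,k0,k0,k0,k18],[k0,k0,k0,k0,k0,k0,k0,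
    k10],[k0,k14],[k0,k0,k0,k0,k0,k0,k0,k0,k0,k18]] k120 k5
    [[(k8,k30),(k5,k43),(k3,k48)],[(k10,k30),(k6,k42),(k7,k42)],[(k4,k31),(k9,k36),(k1,k48)],[(k6,k30),(k7,k30),(k10,
    k32)],[(k4,k40),(k1,k43),(k9,k45)],[(k3,k31),(k5,k40),(k8,k45)],[(k2,k30),(k11,k40),(k0,k42)],[(k2,k30),(k11,k30),
    (k0,k42)],[(k3,k36),(k5,k45),(k8,k60)],[(k1,k30),(k4,k45),(k9,k60)],[(k6,k30),(k7,k40),(k10,k60)],[(k0,k30),(k2,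
    k32),(k11,k60)]]
    [] k0
    [[k0,k0,k2,k0,k0,k0],[k0,k0,k1,k0,k1,k0]]
    [.contra [z1],.ref k0 k0 [(z1,[y1,z1])]])]⟩

/-- classes `0 0 0 0 0 0`, types `N0 N0 N1 N3 N1 N2` -/
noncomputable def cU6_29 : CertX :=
  ⟨[k12,k12,k13,k15,k13,k14],[(false,k0,[k0,k1,k2,k3,k4,k5])],[[[([z1,z0,z0,z1,z0,z0],z2)],[([z1,z1,z0,z0,z0,z1],z2)],
    [([z1,z0,z1,z0,y1,z0],z0),([z0,z1,z0,z0,z1,z1],z2)],[([z1,z0,z1,z1,z0,z0],z2)],[]]],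
    [.old (.leafM k5 [k1,k2,k4,k5] [] [(k3,k0,z1,[z1]),(k0,k3,z1,[z1])]),
    .old (.leafM k6 [k2,k3,k4,k5,k0,k1] [(z1,[z1])] []),
    .old (.tor k1 false k2 [(z1,[z0,y1,z1]),(z1,[z1,z1]),(z1,[y1,y1,z1]),(z1,[z0,z1])]),
    .old (.lp [k6,k6,k12,k6,k6,k10] [k3,k3,k3,k3,k0,k0,k3,k3,k3,k3,k1,k1] k0 [[k0,k0,k0,k0,k0,k0,k0,k0,k2],[],[],[],[],[],
    [],[],[],[k0,k2]] k24 k5
    [[(k3,k6),(k6,k6),(k5,k9)],[(k7,k6),(k11,k6),(k10,k8)],[(k1,k6),(k8,k8),(k4,k9)],[(k7,k6),(k10,k8),(k11,k8)],[(k1,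
    k9),(k8,k9),(k4,k12)],[(k3,k9),(k6,k9),(k5,k12)],[(k0,k6),(k2,k6),(k9,k6)],[(k1,k6),(k8,k6),(k4,k9)],[(k7,k6),
    (k10,k8),(k11,k8)],[(k6,k6),(k3,k8),(k5,k9)],[(k0,k6),(k2,k8),(k9,k8)],[(k0,k8),(k2,k8),(k9,k8)]]
    [] k0
    [[k1,k1,k0,k0,k0,k1],[k1,k0,k0,k1,k0,k0],[k0,k0,k0,k1,k1,k0]]
    [.ref k1 k0 [(z1,[z1])],.contra [y1,z1],.ref k2 k0 [(z1,[y1,z1]),(z1,[z0,y1,z1])]]),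
    .old (.lp [k36,k36,k40,k52,k82,k36] [k23,k23,k23,k23,k21,k21,k15,k15,k0,k0,k23,k23] k0 [[],[],[k0,k0,k0,k0,k8],[],[k0,
    k0,k0,k0,k0,k0,k0,k10],[k0,k0,k0,k8],[k0,k0,k0,k0,k0,k10]] k144 k5
    [[(k3,k36),(k5,k38),(k6,k44)],[(k10,k36),(k11,k36),(k7,k44)],[(k1,k36),(k4,k38),(k8,k59)],[(k7,k36),(k10,k36),
    (k11,k36)],[(k1,k38),(k4,k48),(k8,k61)],[(k6,k36),(k3,k38),(k5,k48)],[(k2,k36),(k0,k44),(k9,k77)],[(k4,k36),(k1,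
    k44),(k8,k67)],[(k10,k59),(k11,k59),(k7,k77)],[(k3,k59),(k5,k61),(k6,k67)],[(k0,k36),(k2,k36),(k9,k59)],[(k0,k36),
    (k2,k36),(k9,k59)]]
    [] k0
    [[k1,k1,k0,k0,k0,k1],[k1,k0,k1,k1,k0,k0],[k1,k0,k0,k1,k0,k0],[k0,k0,k2,k0,k0,k0]]
    [.ref k1 k0 [(z1,[z1])],.ref k3 k0 [(z1,[z1])],.ref k0 k0 [(z1,[z1])],.contra [z1]])]⟩

/-- classes `0 0 0 0 0 0`, types `N0 N0 N1 N3 N2 N2` -/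
noncomputable def cU6_30 : CertX :=
  ⟨[k12,k12,k13,k15,k14,k14],[(false,k0,[k0,k1,k2,k3,k4,k5]),(true,k0,[k0,k5,k4,k3,k2,k1])],[[[([z1,z0,z1,z1,z1,z0],
    z2)],[([z1,z0,z0,z1,z0,z0],z2)],[([z1,z0,z0,z1,z1,z0],z2),([z0,z1,z0,z0,z1,z1],z2)],[([z1,z0,z0,z1,z1,z0],z2)],
    []]],
    [.old (.leafM k3 [k2,k3,k4,k0] [] [(k5,k1,z1,[y1,z1]),(k1,k5,z1,[y1,z1])]),
    .old (.leafM k6 [k2,k4,k5,k1] [] [(k3,k0,z1,[z1]),(k0,k3,z1,[z1])]),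
    .old (.tor k21 false k0 [(z1,[z0,z1]),(z1,[y1,z0,z1]),(z1,[z1]),(z1,[z0,y1,z1])]),
    .old (.lp [k6,k6,k10,k8,k10,k6] [k2,k2,k2,k2,k0,k0,k0,k2,k0,k0,k2,k2] k0 [[],[],[k0,k0,k0,k0,k0,k0,k0,k0,k0,k2],[],[],
    [],[k0,k0,k0,k0,k0,k0,k0,k0,k2],[],[k0,k0,k0,k2],[k0,k0,k0,k0,k0,k0,k0,k2]] k24 k5
    [[(k3,k6),(k5,k8),(k6,k8)],[(k7,k6),(k10,k6),(k8,k8)],[(k1,k6),(k11,k6),(k4,k8)],[(k7,k6),(k8,k6),(k10,k6)],[(k1,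
    k8),(k4,k10),(k11,k10)],[(k3,k8),(k5,k10),(k6,k10)],[(k0,k6),(k2,k6),(k9,k8)],[(k11,k6),(k1,k8),(k4,k10)],[(k7,
    k8),(k10,k8),(k8,k12)],[(k2,k6),(k0,k8),(k9,k12)],[(k3,k6),(k6,k6),(k5,k10)],[(k0,k6),(k2,k6),(k9,k8)]]
    [] k0
    [[k1,k0,k0,k1,k0,k0],[k0,k1,k0,k0,k0,k1],[k0,k1,k0,k0,k1,k1],[k0,k0,k2,k0,k0,k0]]
    [.contra [y1,z1],.contra [y1,y1,z1],.ref k2 k0 [(z1,[z0,z1]),(z1,[z1])],.contra [z1]]),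
    .old (.lp [k6,k6,k10,k8,k10,k6] [k2,k2,k2,k2,k0,k0,k0,k2,k0,k0,k2,k2] k0 [[],[],[k0,k0,k0,k0,k0,k0,k0,k0,k0,k2],[],[],
    [],[k0,k0,k0,k0,k0,k0,k0,k0,k2],[],[k0,k0,k0,k2],[k0,k0,k0,k0,k0,k0,k0,k2]] k24 k5
    [[(k3,k6),(k5,k8),(k6,k8)],[(k7,k6),(k10,k6),(k8,k8)],[(k1,k6),(k11,k6),(k4,k8)],[(k7,k6),(k8,k6),(k10,k6)],[(k1,
    k8),(k4,k10),(k11,k10)],[(k3,k8),(k5,k10),(k6,k10)],[(k0,k6),(k2,k6),(k9,k8)],[(k11,k6),(k1,k8),(k4,k10)],[(k7,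
    k8),(k10,k8),(k8,k12)],[(k2,k6),(k0,k8),(k9,k12)],[(k3,k6),(k6,k6),(k5,k10)],[(k0,k6),(k2,k6),(k9,k8)]]
    [] k0
    [[k1,k0,k0,k1,k0,k0],[k0,k1,k0,k0,k0,k1],[k0,k1,k0,k0,k1,k1],[k0,k0,k2,k0,k0,k0]]
    [.ref k1 k0 [(z1,[z1])],.ref k0 k0 [(z1,[y1,z1])],.ref k3 k1 [(z1,[y1,z1])],.contra [z1]])]⟩

/-- classes `0 0 0 0 0 0`, types `N0 N0 N2 N0 N1 N2` -/
noncomputable def cU6_31 : CertX :=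
  ⟨[k12,k12,k14,k12,k13,k14],[(false,k0,[k0,k1,k2,k3,k4,k5])],[[[([z1,z0,z1,z0,z1,z0],z2)],[([z1,z1,z0,z0,z0,z1],z2)],
    []]],
    [.old (.leafM k5 [k0,k1,k2,k3,k4,k5] [(z1,[y1,z1]),(z1,[z1])] []),
    .old (.leafM k6 [k2,k3,k4,k5,k0,k1] [(z1,[z1])] []),
    .old (.lp [k62,k44,k178,k52,k80,k54] [k58,k58,k67,k67,k0,k0,k63,k63,k49,k49,k62,k62] k0 [[k0,k0,k0,k0,k0,k0,k0,k0,
    k10],[],[k0,k0,k0,k0,k0,k10],[],[k0,k0,k0,k10],[],[],[],[],[k0,k10]] (nat_lit 240) k6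
    [[(k3,k53),(k9,k71),(k5,k120)],[(k11,k48),(k10,k58),(k4,k120)],[(k7,k48),(k1,k53),(k8,k72)],[(k10,k49),(k11,k49),
    (k4,k101)],[(k1,k120),(k7,k125),(k8,k129)],[(k2,k101),(k6,k115),(k0,k120)],[(k3,k48),(k9,k66),(k5,k125)],[(k10,
    k53),(k11,k53),(k4,k115)],[(k7,k66),(k1,k71),(k8,k80)],[(k3,k72),(k9,k80),(k5,k129)],[(k0,k48),(k2,k49),(k6,k53)],
    [(k2,k49),(k6,k53),(k0,k58)]]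
    [] k0
    [[k1,k1,k0,k0,k0,k1],[k0,k1,k0,k1,k0,k1],[k0,k0,k0,k0,k2,k0]]
    [.ref k1 k0 [(z1,[z1])],.ref k0 k0 [(z1,[y1,z1])],.contra [z1]])]⟩

/-- classes `0 0 0 0 0 0`, types `N0 N0 N2 N0 N2 N2` -/
noncomputable def cU6_32 : CertX :=
  ⟨[k12,k12,k14,k12,k14,k14],[(true,k0,[k0,k5,k4,k3,k2,k1]),(false,k0,[k0,k1,k2,k3,k4,k5])],[[[([z1,z0,z1,z1,z1,z0],
    z2)],[([z1,z0,z0,z0,z1,z0],z2)],[([z1,z1,z0,z0,z1,z1],z2),([z0,z0,z1,z0,y1,z0],z0)],[([z1,z1,z0,z0,z1,z1],z2)],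
    []]],
    [.old (.leafM k3 [k2,k3,k4,k0] [] [(k5,k1,z1,[y1,z1]),(k1,k5,z1,[y1,z1])]),
    .old (.leafM k3 [k1,k2,k3,k5] [] [(k4,k0,z1,[z1]),(k0,k4,z1,[z1])]),
    .old (.tor k3 false k5 [(z1,[y1,y1,z1]),(z1,[y1,z0,z1]),(z1,[z1]),(z1,[z1,z1])]),
    .old (.lp [k6,k6,k14,k6,k6,k6] [k4,k4,k4,k4,k0,k0,k4,k4,k4,k4,k4,k4] k0 [[],[],[k0,k0,k0,k0,k0,k4],[],[k0,k0,k0,
    k4]] k24 k5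
    [[(k3,k6),(k9,k6),(k5,k10)],[(k8,k6),(k10,k6),(k4,k10)],[(k1,k6),(k7,k6),(k11,k6)],[(k4,k6),(k8,k6),(k10,k6)],
    [(k1,k10),(k11,k10),(k7,k14)],[(k2,k6),(k0,k10),(k6,k10)],[(k3,k6),(k9,k6),(k5,k14)],[(k8,k6),(k10,k6),(k4,k10)],
    [(k1,k6),(k7,k6),(k11,k6)],[(k0,k6),(k2,k6),(k6,k6)],[(k3,k6),(k9,k6),(k5,k10)],[(k0,k6),(k2,k6),(k6,k6)]]
    [] k0
    [[k1,k0,k1,k0,k0,k0],[k1,k0,k0,k0,k1,k0],[k0,k1,k0,k0,k0,k1],[k0,k0,k0,k1,k1,k0]]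
    [.ref k1 k0 [(z1,[z1])],.contra [y1,z1],.contra [y1,z1],.ref k2 k1 [(z1,[z0,z1]),(z1,[y1,y1,z1])]]),
    .old (.lp [k6,k6,k14,k6,k6,k6] [k4,k4,k4,k4,k0,k0,k4,k4,k4,k4,k4,k4] k0 [[],[],[k0,k0,k0,k0,k0,k4],[],[k0,k0,k0,
    k4]] k24 k5
    [[(k3,k6),(k9,k6),(k5,k10)],[(k8,k6),(k10,k6),(k4,k10)],[(k1,k6),(k7,k6),(k11,k6)],[(k4,k6),(k8,k6),(k10,k6)],
    [(k1,k10),(k11,k10),(k7,k14)],[(k2,k6),(k0,k10),(k6,k10)],[(k3,k6),(k9,k6),(k5,k14)],[(k8,k6),(k10,k6),(k4,k10)],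
    [(k1,k6),(k7,k6),(k11,k6)],[(k0,k6),(k2,k6),(k6,k6)],[(k3,k6),(k9,k6),(k5,k10)],[(k0,k6),(k2,k6),(k6,k6)]]
    [] k0
    [[k1,k0,k1,k0,k0,k0],[k1,k0,k0,k0,k1,k0],[k0,k1,k0,k0,k0,k1],[k0,k0,k0,k1,k1,k0]]
    [.ref k1 k0 [(z1,[z1])],.ref k1 k1 [(z1,[z1])],.ref k0 k1 [(z1,[y1,z1])],.ref k3 k0 [(z1,[y1,z1])]])]⟩

/-- classes `0 0 0 0 0 0`, types `N0 N0 N2 N1 N1 N3` -/
noncomputable def cU6_33 : CertX :=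
  ⟨[k12,k12,k14,k13,k13,k15],[(false,k0,[k0,k1,k2,k3,k4,k5])],[[[([z1,z0,z1,z1,z0,z1],z2)],[([z1,z0,z1,z0,z1,z0],z2)],
    [([z1,z0,z0,z0,z1,z1],z2)],[]]],
    [.old (.leafM k5 [k0,k2,k3,k5] [] [(k1,k4,z1,[y1,z1]),(k4,k1,z1,[y1,z1])]),
    .old (.leafM k1 [k0,k1,k2,k3,k4,k5] [(z1,[y1,z1]),(z1,[z1])] []),
    .old (.leafM k6 [k1,k2,k3,k4,k5,k0] [(z1,[z1])] []),
    .old (.lp [k2,k2,k4,k2,k2,k2] [k1,k1,k1,k1,k0,k0,k1,k1,k1,k1,k1,k1] k0 [] k8 k5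
    [[(k9,k2),(k11,k2),(k4,k3)],[(k9,k2),(k11,k2),(k4,k3)],[(k6,k2),(k7,k2),(k8,k2)],[(k9,k2),(k11,k2),(k4,k3)],[(k6,
    k3),(k7,k3),(k8,k3)],[(k0,k3),(k1,k3),(k2,k3)],[(k3,k2),(k10,k2),(k5,k3)],[(k3,k2),(k10,k2),(k5,k3)],[(k0,k2),(k1,
    k2),(k2,k2)],[(k3,k2),(k10,k2),(k5,k3)],[(k0,k2),(k1,k2),(k2,k2)],[(k6,k2),(k7,k2),(k8,k2)]]
    [] k0
    [[k1,k0,k0,k0,k1,k1],[k0,k1,k0,k1,k0,k1],[k0,k1,k0,k0,k1,k0]]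
    [.ref k2 k0 [(z1,[z1])],.ref k1 k0 [(z1,[y1,z1])],.ref k0 k0 [(z1,[y1,z1])]])]⟩

/-- classes `0 0 0 0 0 0`, types `N0 N0 N2 N1 N2 N3` -/
noncomputable def cU6_34 : CertX :=
  ⟨[k12,k12,k14,k13,k14,k15],[(false,k0,[k0,k1,k2,k3,k4,k5])],[[[([z1,z0,z0,z0,z1,z0],z2)],[]]],
    [.old (.leafM k3 [k1,k2,k3,k5] [] [(k4,k0,z1,[z1]),(k0,k4,z1,[z1])]),
    .old (.lp [k0,k4,k6,k2,k6,k4] [k3,k3,k1,k1,k0,k0,k2,k2,k0,k0,k1,k1] k0 [] k12 k5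
    [[(k4,k3),(k8,k3),(k9,k3)],[(k4,k3),(k8,k3),(k9,k3)],[(k6,k3),(k7,k3),(k11,k4)],[(k4,k5),(k8,k5),(k9,k5)],[(k6,
    k4),(k7,k4),(k11,k5)],[(k0,k3),(k1,k3),(k2,k5)],[(k3,k3),(k10,k3),(k5,k4)],[(k3,k3),(k10,k3),(k5,k4)],[(k0,k3),
    (k1,k3),(k2,k5)],[(k0,k3),(k1,k3),(k2,k5)],[(k3,k4),(k10,k4),(k5,k5)],[(k6,k3),(k7,k3),(k11,k4)]]
    [] k0
    [[k1,k0,k0,k0,k1,k0],[k0,k0,k0,k0,k0,k2]]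
    [.ref k0 k0 [(z1,[z1])],.contra [z1]])]⟩

/-- classes `0 0 0 0 0 0`, types `N0 N0 N2 N1 N3 N2` -/
noncomputable def cU6_35 : CertX :=
  ⟨[k12,k12,k14,k13,k15,k14],[(false,k0,[k0,k1,k2,k3,k4,k5])],[[[([z1,z0,z1,z0,z0,z0],z2)],[([z1,z0,z0,z0,z1,z0],z2)],
    []]],
    [.old (.leafM k3 [k3,k4,k5,k1] [] [(k0,k2,z1,[z1]),(k2,k0,z1,[z1])]),
    .old (.lp [k86,k48,k48,k48,k154,k86] [k34,k34,k53,k53,k53,k53,k53,k53,k0,k0,k34,k34] k0 [[],[k0,k0,k0,k0,k0,k0,k0,k0,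
    k0,k0,k10],[],[],[],[k0,k0,k0,k0,k0,k0,k0,k0,k0,k10],[],[],[k0,k0,k0,k0,k10],[],[],[k10]] (nat_lit 240) k6
    [[(k3,k57),(k5,k67),(k8,k120)],[(k4,k67),(k10,k96),(k9,k120)],[(k6,k48),(k7,k48),(k1,k57)],[(k4,k48),(k10,k67),
    (k9,k101)],[(k6,k48),(k7,k48),(k1,k67)],[(k2,k48),(k0,k67),(k11,k77)],[(k3,k48),(k5,k48),(k8,k91)],[(k3,k48),(k5,
    k48),(k8,k101)],[(k2,k101),(k0,k120),(k11,k120)],[(k7,k91),(k6,k101),(k1,k120)],[(k4,k77),(k10,k86),(k9,k120)],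
    [(k2,k67),(k11,k86),(k0,k96)]]
    [] k0
    [[k1,k0,k1,k0,k0,k0],[k0,k1,k1,k1,k0,k0],[k0,k0,k0,k0,k0,k2]]
    [.ref k0 k0 [(z1,[z1])],.contra [y1,y1,z1],.contra [z1]]),
    .old (.lp [k4,k12,k8,k4,k8,k10] [k4,k4,k0,k0,k2,k2,k4,k4,k2,k2,k1,k1] k0 [[],[k0,k0,k0,k0,k0,k0,k0,k0,k0,k0,k2],[],[],
    [],[],[],[],[],[],[],[k2]] k24 k5
    [[(k3,k6),(k5,k6),(k8,k6)],[(k4,k6),(k9,k6),(k10,k9)],[(k1,k6),(k6,k8),(k7,k8)],[(k4,k10),(k9,k10),(k10,k11)],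
    [(k1,k6),(k6,k6),(k7,k6)],[(k0,k6),(k11,k9),(k2,k10)],[(k5,k6),(k8,k6),(k3,k8)],[(k5,k6),(k8,k6),(k3,k8)],[(k0,
    k6),(k11,k9),(k2,k10)],[(k1,k6),(k6,k6),(k7,k6)],[(k4,k9),(k9,k9),(k10,k10)],[(k0,k9),(k11,k10),(k2,k11)]]
    [] k0
    [[k1,k0,k1,k0,k0,k0],[k1,k0,k0,k0,k1,k0],[k0,k0,k0,k0,k0,k2]]
    [.ref k0 k0 [(z1,[z1])],.ref k1 k0 [(z1,[z1])],.contra [z1]])]⟩

/-- the certificates of this file -/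
noncomputable def lU6_3 : List CertX :=
  [cU6_4, cU6_5, cU6_6, cU6_7, cU6_8, cU6_9, cU6_10, cU6_11, cU6_12, cU6_13, cU6_14, cU6_15, cU6_16, cU6_17,
      cU6_18, cU6_19, cU6_20, cU6_21, cU6_22, cU6_23, cU6_24, cU6_25, cU6_26, cU6_27, cU6_28, cU6_29, cU6_30,
      cU6_31, cU6_32, cU6_33, cU6_34, cU6_35]

theorem gU6_3 : allF (chkE 6 ttU6) lU6_3 = true := by
  decide +kernel

end Pool.Agent.Lib_MP_fa6e45
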