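import Pool.Agent.Lib_MP_fa6e45.CXT
import Pool.Agent.Lib_MP_fa6e45.HK

/-!
MP_fa6e45_co, stage 7: certificates (generated by a program).
-/

namespace Pool.Agent.Lib_MP_fa6e45

/-- classes `0 0 1 2 2 1`, types `C0 C2 N0 C0 C2 N1` -/
noncomputable def cU6_1617 : CertX :=
  ⟨[k4,k6,k28,k36,k38,k29],[(false,k0,[k0,k1,k2,k3,k4,k5])],[[[([z1,z1,z1,z0,z0,z0],z2)],[]]],
    [.old (.leafM k0 [k2,k3,k4,k5,k0,k1] [(z1,[y1,z1])] []),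
    .old (.lp [k4,k4,k0,k2,k2,k2] [k0,k0,k0,k0,k2,k2,k1,k1,k1,k1,k1,k1] k0 [] k8 k5
    [[(k4,k2)],[(k2,k4),(k3,k4)],[(k5,k2),(k0,k4)],[(k5,k2),(k0,k4)],[(k2,k2),(k3,k2)],[(k1,k2)],[(k10,k2)],[(k8,k2),
    (k9,k2)],[(k6,k2),(k11,k2)],[(k6,k2),(k11,k2)],[(k8,k2),(k9,k2)],[(k7,k2)]]
    [] k0
    [[k0,k0,k0,k1,k1,k1]]
    [.ref k0 k0 [(z1,[y1,z1])]])]⟩

/-- classes `0 0 1 2 2 1`, types `C0 C2 N0 C0 C2 N2` -/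
noncomputable def cU6_1618 : CertX :=
  ⟨[k4,k6,k28,k36,k38,k30],[],[[[]]],
    [.old (.lp [k2,k0,k2,k0,k2,k0] [k0,k0,k1,k1,k0,k0,k1,k1,k0,k0,k1,k1] k0 [] k4 k5
    [[(k7,k1)],[(k2,k1),(k3,k1)],[(k0,k1),(k5,k1)],[(k0,k1),(k5,k1)],[(k2,k1),(k3,k1)],[(k10,k1)],[(k1,k1)],[(k8,k1),
    (k9,k1)],[(k6,k1),(k11,k1)],[(k6,k1),(k11,k1)],[(k8,k1),(k9,k1)],[(k4,k1)]]
    [] k0
    []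
    [])]⟩

/-- classes `0 0 1 2 2 1`, types `C0 C2 N0 N0 N1 N1` -/
noncomputable def cU6_1619 : CertX :=
  ⟨[k4,k6,k28,k44,k45,k29],[(false,k0,[k0,k1,k2,k3,k4,k5])],[[[([z1,z1,z1,z0,z1,z0],z2)],[]]],
    [.old (.lp [k6,k6,k6,k30,k10,k0] [k12,k12,k12,k12,k12,k12,k0,k0,k10,k10,k15,k15] k0 [] k30 k6
    [[(k4,k6)],[(k2,k6),(k3,k6)],[(k0,k6),(k5,k6)],[(k0,k6),(k5,k6)],[(k2,k6),(k3,k6)],[(k1,k6)],[(k10,k15)],[(k11,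
    k15)],[(k8,k10)],[(k9,k10)],[(k6,k15)],[(k7,k15)]]
    [] k0
    [[k1,k1,k1,k0,k0,k0],[k0,k0,k0,k0,k2,k0]]
    [.contra [y1,z1],.contra [z1]]),
    .old (.lp [k6,k6,k0,k6,k4,k0] [k0,k0,k0,k0,k3,k3,k0,k0,k1,k1,k3,k3] k0 [] k12 k5
    [[(k4,k3)],[(k2,k6),(k3,k6)],[(k5,k3),(k0,k6)],[(k5,k3),(k0,k6)],[(k2,k3),(k3,k3)],[(k1,k3)],[(k10,k3)],[(k11,
    k3)],[(k8,k4)],[(k9,k4)],[(k6,k3)],[(k7,k3)]]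
    [] k0
    [[k0,k0,k0,k1,k0,k1],[k0,k0,k0,k0,k2,k0]]
    [.ref k0 k0 [(z1,[y1,z1])],.contra [z1]])]⟩

/-- classes `0 0 1 2 2 1`, types `C0 C2 N0 N0 N1 N2` -/
noncomputable def cU6_1620 : CertX :=
  ⟨[k4,k6,k28,k44,k45,k30],[],[[[]]],
    [.old (.lp [k2,k2,k2,k2,k4,k2] [k1,k1,k1,k1,k1,k1,k1,k1,k0,k0,k1,k1] k0 [] k8 k5
    [[(k7,k2)],[(k2,k2),(k3,k2)],[(k0,k2),(k5,k2)],[(k0,k2),(k5,k2)],[(k2,k2),(k3,k2)],[(k10,k2)],[(k1,k2)],[(k11,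
    k2)],[(k8,k4)],[(k9,k4)],[(k6,k2)],[(k4,k2)]]
    [] k0
    []
    [])]⟩

/-- classes `0 0 1 2 2 1`, types `C0 C2 N0 N0 N2 N1` -/
noncomputable def cU6_1621 : CertX :=
  ⟨[k4,k6,k28,k44,k46,k29],[(false,k0,[k0,k1,k2,k3,k4,k5])],[[[([z1,z1,z1,z0,z0,z0],z2)],[]]],
    [.old (.leafM k4 [k3,k4,k5,k0,k1,k2] [(z1,[z1])] []),
    .old (.lp [k4,k4,k0,k2,k2,k2] [k0,k0,k0,k0,k2,k2,k1,k1,k1,k1,k1,k1] k0 [] k8 k5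
    [[(k4,k2)],[(k2,k4),(k3,k4)],[(k5,k2),(k0,k4)],[(k5,k2),(k0,k4)],[(k2,k2),(k3,k2)],[(k1,k2)],[(k10,k2)],[(k8,k2)],
    [(k11,k2)],[(k6,k2)],[(k9,k2)],[(k7,k2)]]
    [] k0
    [[k0,k0,k0,k1,k1,k1]]
    [.ref k0 k0 [(z1,[y1,z1])]])]⟩

/-- classes `0 0 1 2 2 1`, types `C0 C2 N0 N0 N2 N2` -/
noncomputable def cU6_1622 : CertX :=
  ⟨[k4,k6,k28,k44,k46,k30],[],[[[]]],
    [.old (.lp [k2,k0,k2,k0,k2,k0] [k0,k0,k1,k1,k0,k0,k1,k1,k0,k0,k1,k1] k0 [] k4 k5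
    [[(k7,k1)],[(k2,k1),(k3,k1)],[(k0,k1),(k5,k1)],[(k0,k1),(k5,k1)],[(k2,k1),(k3,k1)],[(k10,k1)],[(k1,k1)],[(k8,k1)],
    [(k11,k1)],[(k6,k1)],[(k9,k1)],[(k4,k1)]]
    [] k0
    []
    [])]⟩

/-- classes `0 0 1 2 2 1`, types `C0 C2 N0 S0 S0 N1` -/
noncomputable def cU6_1623 : CertX :=
  ⟨[k4,k6,k28,k32,k32,k29],[(false,k0,[k0,k1,k2,k3,k4,k5])],[[[([z1,z1,z1,z0,z0,z0],z2)],[]]],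
    [.old (.leafM k0 [k2,k3,k4,k5,k0,k1] [(z1,[y1,z1])] []),
    .old (.lp [k6,k6,k6,k6,k10,k24] [k9,k9,k9,k9,k9,k9,k9,k9,k7,k7,k0,k0] k0 [] k30 k6
    [[(k4,k6)],[(k2,k6),(k3,k6)],[(k0,k6),(k5,k6)],[(k0,k6),(k5,k6)],[(k2,k6),(k3,k6)],[(k1,k6)],[(k10,k15)],[(k6,k6),
    (k8,k8),(k9,k8),(k11,k15)],[(k6,k8),(k8,k10),(k9,k10),(k11,k17)],[(k6,k8),(k8,k10),(k9,k10),(k11,k17)],[(k6,k15),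
    (k8,k17),(k9,k17),(k11,k24)],[(k7,k15)]]
    [] k0
    [[k1,k1,k1,k0,k0,k0],[k0,k0,k0,k0,k2,k0]]
    [.ref k0 k0 [(z1,[z1])],.contra [z1]])]⟩

/-- classes `0 0 1 2 2 1`, types `C0 C2 N0 S0 S0 N2` -/
noncomputable def cU6_1624 : CertX :=
  ⟨[k4,k6,k28,k32,k32,k30],[],[[[]]],
    [.old (.lp [k2,k2,k2,k2,k4,k2] [k1,k1,k1,k1,k1,k1,k1,k1,k0,k0,k1,k1] k0 [] k8 k5
    [[(k7,k2)],[(k2,k2),(k3,k2)],[(k0,k2),(k5,k2)],[(k0,k2),(k5,k2)],[(k2,k2),(k3,k2)],[(k10,k2)],[(k1,k2)],[(k6,k2),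
    (k11,k2),(k8,k3),(k9,k3)],[(k6,k3),(k11,k3),(k8,k4),(k9,k4)],[(k6,k3),(k11,k3),(k8,k4),(k9,k4)],[(k6,k2),(k11,k2),
    (k8,k3),(k9,k3)],[(k4,k2)]]
    [] k0
    []
    [])]⟩

/-- classes `0 0 1 2 2 1`, types `C0 C2 S0 C0 C2 S0` -/
noncomputable def cU6_1625 : CertX :=
  ⟨[k4,k6,k16,k36,k38,k16],[(false,k0,[k0,k1,k2,k3,k4,k5]),(true,k5,[k5,k4,k3,k2,k1,k0])],[[[([z1,z1,z1,z0,z0,z0],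
    z2)],[([z1,z0,y1,y1,y1,y1],y2)],[]]],
    [.old (.leafM k0 [k2,k3,k4,k5,k0,k1] [(z1,[y1,z1])] []),
    .old (.lp [k10,k6,k6,k8,k8,k8] [k0,k0,k2,k2,k2,k2,k1,k1,k1,k1,k1,k1] k0 [[],[],[],[],[],[k0,k0,k0,k0,k0,k0,k0,k0,k0,
    k0,k0,k2],[],[],[],[],[k0,k0,k0,k0,k2]] k24 k5
    [[(k7,k9),(k10,k9),(k1,k10),(k4,k10)],[(k2,k8),(k3,k8)],[(k5,k6),(k0,k8)],[(k5,k6),(k0,k8)],[(k2,k6),(k3,k6)],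
    [(k4,k6),(k7,k7),(k10,k7),(k1,k10)],[(k10,k6),(k4,k7),(k7,k8),(k1,k9)],[(k8,k8),(k9,k8)],[(k6,k8),(k11,k8)],[(k6,
    k8),(k11,k8)],[(k8,k8),(k9,k8)],[(k7,k6),(k4,k7),(k10,k8),(k1,k9)]]
    [] k0
    [[k0,k1,k2,k0,k0,k0],[k0,k0,k0,k1,k1,k1]]
    [.ref k0 k0 [(z2,[z1,z1,z1])],.ref k0 k0 [(z1,[y1,z0,z1])]]),
    .old (.lp [k4,k8,k4,k6,k4,k4] [k2,k2,k0,k0,k2,k2,k1,k1,k2,k2,k2,k2] k0 [] k16 k5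
    [[(k1,k4),(k4,k4),(k10,k4),(k7,k5)],[(k2,k6),(k3,k6)],[(k0,k6),(k5,k6)],[(k0,k6),(k5,k6)],[(k2,k6),(k3,k6)],[(k1,
    k4),(k4,k4),(k10,k4),(k7,k5)],[(k1,k5),(k4,k5),(k10,k5),(k7,k6)],[(k8,k5),(k9,k5)],[(k11,k4),(k6,k5)],[(k11,k4),
    (k6,k5)],[(k8,k4),(k9,k4)],[(k1,k4),(k4,k4),(k10,k4),(k7,k5)]]
    [] k0
    [[k0,k0,k0,k1,k1,k1],[k0,k0,k0,k0,k1,k2]]
    [.ref k0 k0 [(z1,[y1,z1])],.ref k1 k1 [(z1,[z1,y1])]])]⟩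

/-- classes `0 0 1 2 2 1`, types `C0 C2 S0 N0 N1 S0` -/
noncomputable def cU6_1626 : CertX :=
  ⟨[k4,k6,k16,k44,k45,k16],[(false,k0,[k0,k1,k2,k3,k4,k5])],[[[([z1,z1,z1,z0,z1,z0],z2)],[]]],
    [.old (.lp [k174,k0,k174,k84,k116,k138] [k0,k0,k87,k87,k0,k0,k45,k45,k29,k29,k18,k18] k36 [[],[],[],[],[k0,k0,k0,k0,k0,
    k0,k0,k0,k0,k0,k90],[],[],[],[],[],[],[k0,k0,k0,k0,k0,k90]] (nat_lit 240) k6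
    [[(k4,k48),(k7,k93),(k10,k120),(k1,k138)],[(k2,k51),(k3,k51)],[(k0,k51),(k5,k51)],[(k0,k51),(k5,k51)],[(k2,k51),
    (k3,k51)],[(k1,k48),(k7,k93),(k10,k120),(k4,k138)],[(k7,k48),(k1,k93),(k4,k93),(k10,k165)],[(k11,k75)],[(k8,k80)],
    [(k9,k80)],[(k6,k75)],[(k10,k102),(k1,k120),(k4,k120),(k7,k165)]]
    [] k0
    [[k1,k1,k1,k0,k0,k0],[k0,k0,k0,k0,k2,k0]]
    [.contra [y1,z1],.contra [z1]]),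
    .old (.lp [k6,k12,k6,k6,k8,k6] [k3,k3,k0,k0,k3,k3,k3,k3,k2,k2,k3,k3] k0 [] k24 k5
    [[(k1,k6),(k4,k6),(k7,k6),(k10,k6)],[(k2,k9),(k3,k9)],[(k0,k9),(k5,k9)],[(k0,k9),(k5,k9)],[(k2,k9),(k3,k9)],[(k1,
    k6),(k4,k6),(k7,k6),(k10,k6)],[(k1,k6),(k4,k6),(k7,k6),(k10,k6)],[(k11,k6)],[(k8,k8)],[(k9,k8)],[(k6,k6)],[(k1,
    k6),(k4,k6),(k7,k6),(k10,k6)]]
    [] k0
    [[k0,k0,k0,k1,k0,k1],[k0,k0,k0,k0,k2,k0]]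
    [.ref k0 k0 [(z1,[y1,z1])],.contra [z1]])]⟩

/-- classes `0 0 1 2 2 1`, types `C0 C2 S0 N0 N2 S0` -/
noncomputable def cU6_1627 : CertX :=
  ⟨[k4,k6,k16,k44,k46,k16],[(false,k0,[k0,k1,k2,k3,k4,k5])],[[[([z1,z1,z1,z0,z0,z0],z2)],[]]],
    [.old (.leafM k4 [k3,k4,k5,k0,k1,k2] [(z1,[z1])] []),
    .old (.lp [k2,k4,k2,k2,k2,k2] [k1,k1,k0,k0,k1,k1,k1,k1,k1,k1,k1,k1] k0 [] k8 k5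
    [[(k1,k2),(k4,k2),(k7,k2),(k10,k2)],[(k2,k3),(k3,k3)],[(k0,k3),(k5,k3)],[(k0,k3),(k5,k3)],[(k2,k3),(k3,k3)],[(k1,
    k2),(k4,k2),(k7,k2),(k10,k2)],[(k1,k2),(k4,k2),(k7,k2),(k10,k2)],[(k8,k2)],[(k11,k2)],[(k6,k2)],[(k9,k2)],[(k1,
    k2),(k4,k2),(k7,k2),(k10,k2)]]
    [] k0
    [[k0,k0,k0,k1,k1,k1]]
    [.ref k0 k0 [(z1,[y1,z1])]])]⟩

/-- classes `0 0 1 2 2 1`, types `C0 C2 S0 S0 S0 S0` -/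
noncomputable def cU6_1628 : CertX :=
  ⟨[k4,k6,k16,k32,k32,k16],[(false,k0,[k0,k1,k2,k3,k4,k5]),(true,k2,[k2,k1,k0,k5,k4,k3])],[[[([z1,z1,z1,z0,z0,z0],
    z2)],[([z1,z0,y1,y1,y1,y1],y2)],[]]],
    [.old (.leafM k0 [k2,k3,k4,k5,k0,k1] [(z1,[y1,z1])] []),
    .old (.lp [(nat_lit 264),k132,k132,(nat_lit 220),(nat_lit 220),(nat_lit 330)] [k110,k0,k121,k121,k121,k121,k77,k77,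
    k77,k77,k22,k22] k0 [[],[],[],[],[k0,k0,k0,k0,k0,k0,k0,k0,k0,k0,k120],[],[],[],[],[],[],[k0,k0,k0,k0,k0,
    k120]] (nat_lit 660) k6
    [[(k4,k133),(k7,(nat_lit 297)),(k10,(nat_lit 352)),(k1,(nat_lit 374))],[(k2,k143),(k3,k143)],[(k5,k132),(k0,
    k143)],[(k5,k132),(k0,k143)],[(k2,k132),(k3,k132)],[(k4,k132),(k1,k133),(k7,k176),(k10,(nat_lit 231))],[(k4,k176),
    (k7,(nat_lit 220)),(k1,(nat_lit 297)),(k10,(nat_lit 395))],[(k6,(nat_lit 220)),(k8,(nat_lit 220)),(k9,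
    (nat_lit 220)),(k11,(nat_lit 275))],[(k6,(nat_lit 220)),(k8,(nat_lit 220)),(k9,(nat_lit 220)),(k11,
    (nat_lit 275))],[(k6,(nat_lit 220)),(k8,(nat_lit 220)),(k9,(nat_lit 220)),(k11,(nat_lit 275))],[(k6,
    (nat_lit 275)),(k8,(nat_lit 275)),(k9,(nat_lit 275)),(k11,(nat_lit 330))],[(k4,(nat_lit 231)),(k10,(nat_lit 330)),
    (k1,(nat_lit 352)),(k7,(nat_lit 395))]]
    [] k0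
    [[k1,k1,k1,k0,k0,k0],[k0,k1,k2,k0,k0,k0],[k0,k0,k0,k2,k0,k0],[k0,k0,k0,k0,k2,k0]]
    [.ref k0 k0 [(z1,[z1])],.ref k0 k0 [(z2,[z1,z1,z1])],.contra [z1],.contra [z1]]),
    .old (.lp [(nat_lit 264),k132,k132,(nat_lit 220),(nat_lit 220),(nat_lit 330)] [k110,k0,k121,k121,k121,k121,k77,k77,
    k77,k77,k22,k22] k0 [[],[],[],[],[k0,k0,k0,k0,k0,k0,k0,k0,k0,k0,k120],[],[],[],[],[],[],[k0,k0,k0,k0,k0,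
    k120]] (nat_lit 660) k6
    [[(k4,k133),(k7,(nat_lit 297)),(k10,(nat_lit 352)),(k1,(nat_lit 374))],[(k2,k143),(k3,k143)],[(k5,k132),(k0,
    k143)],[(k5,k132),(k0,k143)],[(k2,k132),(k3,k132)],[(k4,k132),(k1,k133),(k7,k176),(k10,(nat_lit 231))],[(k4,k176),
    (k7,(nat_lit 220)),(k1,(nat_lit 297)),(k10,(nat_lit 395))],[(k6,(nat_lit 220)),(k8,(nat_lit 220)),(k9,
    (nat_lit 220)),(k11,(nat_lit 275))],[(k6,(nat_lit 220)),(k8,(nat_lit 220)),(k9,(nat_lit 220)),(k11,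
    (nat_lit 275))],[(k6,(nat_lit 220)),(k8,(nat_lit 220)),(k9,(nat_lit 220)),(k11,(nat_lit 275))],[(k6,
    (nat_lit 275)),(k8,(nat_lit 275)),(k9,(nat_lit 275)),(k11,(nat_lit 330))],[(k4,(nat_lit 231)),(k10,(nat_lit 330)),
    (k1,(nat_lit 352)),(k7,(nat_lit 395))]]
    [] k0
    [[k1,k1,k1,k0,k0,k0],[k0,k1,k2,k0,k0,k0],[k0,k0,k0,k2,k0,k0],[k0,k0,k0,k0,k2,k0]]
    [.ref k0 k0 [(z1,[z1])],.ref k1 k1 [(z1,[z1,y1])],.contra [z1],.contra [z1]])]⟩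

/-- classes `0 0 1 2 2 1`, types `N0 N1 B0 N0 N1 B1` -/
noncomputable def cU6_1629 : CertX :=
  ⟨[k12,k13,k24,k44,k45,k25],[(false,k3,[k3,k4,k5,k0,k1,k2]),(false,k0,[k0,k1,k2,k3,k4,k5])],[[[([z1,z0,z1,z0,z0,z0],
    z1),([z0,z3,z0,z0,z0,z0],z2),([z0,z0,z0,z1,z0,z1],z2)],[([z3,z0,z3,z0,z0,z0],z2),([z0,z3,z0,z0,z0,z0],z2),([z0,z0,
    z0,z1,z0,z1],z2)],[([z1,z0,z1,z0,z0,z0],z2),([z0,z3,z0,z3,z0,z3],z4)],[([z1,z0,z1,z0,z0,z0],z1),([z0,z3,z0,z0,z0,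
    z0],z1),([z0,z0,z0,z1,z0,z1],z2)],[([z1,z0,z1,z0,z0,z0],z1),([z0,z2,z0,z0,z0,z0],z1),([z0,z0,z0,z1,z0,z1],z2)],
    [([z1,z0,z1,z0,z0,z0],z1),([z0,z1,z0,z0,z1,z0],z1)],[([z1,z0,z1,z0,z0,z0],z2)],[]]],
    [.old (.leafM k11 [k0,k1,k2,k4] [(z1,[z0,z1]),(z1,[y3,y1,y3,z3]),(z1,[z1])] [(k3,k5,z1,[z0,z0,z1]),(k5,k3,z1,[z0,z0,
    z1])]),
    .old (.leafM k10 [k0,k1,k2,k4] [(z1,[z0,z1]),(z1,[y1,y1,y3,z3]),(z1,[z1])] [(k3,k5,z1,[z0,z0,z1]),(k5,k3,z1,[z0,z0,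
    z1])]),
    .old (.lp [k0,k30,k120,k48,k40,k0] [k60,k60,k45,k45,k0,k0,k36,k36,k40,k40,k60,k60] k0 [] k120 k6
    [[(k7,k24),(k4,k60)],[(k5,k60)],[(k2,k30)],[(k3,k30)],[(k0,k60)],[(k1,k60),(k10,k60)],[(k1,k24),(k10,k24)],[(k11,
    k24)],[(k8,k40)],[(k9,k40)],[(k6,k24)],[(k7,k24),(k4,k60)]]
    [] k0
    [[k0,k2,k0,k0,k0,k0],[k0,k3,k0,k0,k0,k0],[k0,k0,k0,k1,k0,k1],[k0,k0,k0,k2,k0,k2],[k0,k0,k0,k0,k2,k0]]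
    [.contra [z1],.ref k1 k0 [(z1,[y1,z0,z1]),(z1,[z0,y3,y1,z3]),(z1,[z0,z1])],.contra [y3,z1,z1],.ref k0 k0 [(z2,
    [z1]),(z1,[z0,y3,y1,z3]),(z1,[z0,z1])],.contra [z1]]),
    .old (.leafM k11 [k2,k4,k0,k1] [(z1,[y3,y1,y3,z3]),(z1,[z0,z1]),(z1,[z1])] [(k3,k5,z1,[z0,z0,z1]),(k5,k3,z1,[z0,z0,
    z1])]),
    .old (.leafM k12 [k0,k1,k2,k4] [(z1,[z0,z1]),(z1,[y2,y1,y2,z2]),(z1,[z1])] [(k3,k5,z1,[z0,z0,z1]),(k5,k3,z1,[z0,z0,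
    z1])]),
    .old (.lp [k0,k10,k20,k40,k8,k0] [k20,k20,k15,k15,k10,k10,k0,k0,k16,k16,k20,k20] k0 [] k40 k6
    [[(k4,k10),(k7,k20)],[(k5,k10)],[(k2,k10)],[(k3,k10)],[(k0,k10)],[(k1,k10),(k10,k10)],[(k1,k20),(k10,k20)],[(k11,
    k20)],[(k8,k8)],[(k9,k8)],[(k6,k20)],[(k4,k10),(k7,k20)]]
    [] k0
    [[k1,k0,k1,k0,k0,k0],[k0,k2,k0,k0,k0,k0],[k0,k3,k0,k0,k0,k0],[k0,k0,k0,k0,k2,k0],[k0,k0,k0,k0,k3,k0],[k0,k0,k0,k0,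
    k4,k0]]
    [.contra [y1,z2],.contra [z1],.ref k2 k0 [(z1,[z0,y1,y1,z1]),(z1,[y1,z3,z3])],.contra [z1],.ref k3 k1 [(z1,[z0,
    z1]),(z1,[y1,z0,z3]),(z1,[z0,y1,y1,z1])],.ref k4 k1 [(z1,[z0,z1]),(z2,[y1,z0,z4]),(z1,[z0,y1,y1,z1])]]),
    .old (.lp [k0,k40,k120,k48,k30,k0] [k60,k60,k40,k40,k0,k0,k36,k36,k45,k45,k60,k60] k0 [] k120 k6
    [[(k7,k24),(k4,k60)],[(k5,k60)],[(k2,k40)],[(k3,k40)],[(k0,k60)],[(k1,k60),(k10,k60)],[(k1,k24),(k10,k24)],[(k11,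
    k24)],[(k8,k30)],[(k9,k30)],[(k6,k24)],[(k7,k24),(k4,k60)]]
    [] k0
    [[k0,k2,k0,k0,k0,k0],[k0,k0,k0,k1,k0,k1],[k0,k0,k0,k2,k0,k2],[k0,k0,k0,k0,k2,k0],[k0,k0,k0,k0,k3,k0]]
    [.contra [z1],.contra [y1,y1,z1],.ref k5 k0 [(z2,[z1]),(z2,[y1,y2,z2])],.contra [z1],.ref k2 k1 [(z1,[z0,z1]),(z1,
    [y1,y3,z3])]]),
    .old (.lp [k0,k6,k6,k6,k4,k0] [k3,k3,k0,k0,k0,k0,k0,k0,k1,k1,k3,k3] k0 [] k12 k5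
    [[(k4,k3),(k7,k3)],[(k5,k3)],[(k2,k6)],[(k3,k6)],[(k0,k3)],[(k1,k3),(k10,k3)],[(k1,k3),(k10,k3)],[(k11,k3)],[(k8,
    k4)],[(k9,k4)],[(k6,k3)],[(k4,k3),(k7,k3)]]
    [] k0
    [[k1,k0,k1,k0,k0,k0],[k0,k0,k0,k1,k0,k1],[k0,k0,k0,k0,k2,k0]]
    [.ref k6 k1 [(z1,[z1])],.ref k6 k0 [(z1,[z1])],.contra [z1]])]⟩

/-- classes `0 0 1 2 2 1`, types `N0 N1 B0 N0 N2 B1` -/
noncomputable def cU6_1630 : CertX :=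
  ⟨[k12,k13,k24,k44,k46,k25],[(false,k0,[k0,k1,k2,k3,k4,k5])],[[[([z1,z0,z1,z0,z0,z0],z2)],[]]],
    [.old (.lp [k6,k10,k24,k6,k6,k6] [k9,k9,k7,k7,k0,k0,k9,k9,k9,k9,k9,k9] k0 [] k30 k6
    [[(k7,k6),(k4,k15)],[(k5,k15)],[(k2,k10)],[(k3,k10)],[(k0,k15)],[(k1,k15),(k10,k15)],[(k1,k6),(k10,k6)],[(k8,k6)],
    [(k11,k6)],[(k6,k6)],[(k9,k6)],[(k7,k6),(k4,k15)]]
    [] k0
    [[k0,k2,k0,k0,k0,k0],[k0,k0,k0,k1,k1,k1]]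
    [.contra [z1],.contra [y1,y1,z1]]),
    .old (.lp [k0,k4,k6,k6,k6,k0] [k3,k3,k1,k1,k0,k0,k0,k0,k0,k0,k3,k3] k0 [] k12 k5
    [[(k4,k3),(k7,k3)],[(k5,k3)],[(k2,k4)],[(k3,k4)],[(k0,k3)],[(k1,k3),(k10,k3)],[(k1,k3),(k10,k3)],[(k8,k6)],[(k11,
    k3)],[(k6,k6)],[(k9,k3)],[(k4,k3),(k7,k3)]]
    [] k0
    [[k1,k0,k1,k0,k0,k0],[k0,k2,k0,k0,k0,k0]]
    [.ref k0 k0 [(z1,[z1])],.contra [z1]])]⟩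

/-- classes `0 0 1 2 2 1`, types `N0 N1 B0 S0 S0 B1` -/
noncomputable def cU6_1631 : CertX :=
  ⟨[k12,k13,k24,k32,k32,k25],[(false,k0,[k0,k1,k2,k3,k4,k5])],[[[([z3,z0,z3,z0,z0,z0],z2),([z0,z3,z0,z0,z0,z0],z2),
    ([z0,z0,z0,z1,z0,z1],z2)],[([z1,z0,z1,z0,z0,z0],z1),([z0,z3,z0,z0,z0,z0],z2),([z0,z0,z0,z1,z0,z1],z2)],[([z3,z0,
    z3,z0,z3,z0],z4),([z0,z3,z0,z0,z0,z0],z2)],[([z1,z0,z1,z0,z0,z0],z1),([z0,z3,z0,z0,z0,z0],z1),([z0,z0,z0,z1,z0,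
    z1],z2)],[([z1,z0,z1,z0,z0,z0],z1),([z0,z2,z0,z0,z0,z0],z1),([z0,z0,z0,z1,z0,z1],z2)],[([z1,z0,z1,z0,z0,z0],z1),
    ([z0,z1,z0,z0,z1,z0],z1)],[([z1,z1,z1,z0,z1,z0],z2)],[([z1,z0,z1,z0,z0,z0],z2),([z0,z3,z0,z0,z0,z0],z1),([z0,z0,
    z0,z1,z0,z1],z1)],[([z1,z0,z1,z0,z0,z0],z2),([z0,z3,z0,z0,z0,z0],z2),([z0,z0,z0,z1,z0,z1],z1)],[([z1,z0,z1,z0,z0,
    z0],z2),([z0,z2,z0,z0,z0,z0],z1),([z0,z0,z0,z1,z0,z1],z1)],[([z1,z0,z1,z0,z0,z0],z2),([z0,z1,z0,z0,z1,z0],z1)],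
    [([z1,z0,z1,z0,z0,z0],z2),([z0,z3,z0,z0,z0,z0],z2),([z0,z0,z0,z3,z0,z3],z2)]],[[([z1,z0,z1,z0,z0,z0],z2),([z0,z3,
    z0,z0,z0,z0],z2)],[([z1,z0,z1,z0,z0,z0],z2)],[]]],
    [.old (.leafM k10 [k0,k1,k2,k4] [(z1,[z0,z1]),(z1,[y1,y1,y3,z3]),(z1,[z1])] [(k3,k5,z1,[z0,z0,z1]),(k5,k3,z1,[z0,z0,
    z1])]),
    .old (.leafM k11 [k0,k1,k2,k4] [(z1,[z0,z1]),(z1,[y3,y1,y3,z3]),(z1,[z1])] [(k3,k5,z1,[z0,z0,z1]),(k5,k3,z1,[z0,z0,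
    z1])]),
    .old (.lp [k48,k40,k0,k24,k30,k96] [k24,k24,k28,k28,k48,k48,k36,k36,k33,k33,k0,k0] k0 [] k120 k6
    [[(k4,k24),(k7,k36)],[(k5,k24)],[(k2,k40)],[(k3,k40)],[(k0,k24)],[(k1,k24),(k10,k48)],[(k1,k36),(k10,k60)],[(k6,
    k24),(k8,k27),(k9,k27),(k11,k60)],[(k6,k27),(k8,k30),(k9,k30),(k11,k63)],[(k6,k27),(k8,k30),(k9,k30),(k11,k63)],
    [(k6,k60),(k8,k63),(k9,k63),(k11,k96)],[(k4,k48),(k7,k60)]]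
    [] k0
    [[k1,k0,k1,k0,k0,k0],[k2,k0,k2,k0,k0,k0],[k0,k2,k0,k0,k0,k0],[k0,k0,k0,k0,k2,k0],[k0,k0,k0,k0,k3,k0]]
    [.contra [y3,z1,z1],.ref k1 k0 [(z2,[z1]),(z1,[z0,z0,z1]),(z3,[z0,y1,y1,z3])],.contra [z1],.contra [z1],
    .ref k0 k0 [(z1,[y1,z1]),(z1,[z0,z0,z1]),(z3,[z0,y1,y1,z3])]]),
    .old (.leafM k11 [k2,k4,k0,k1] [(z1,[y3,y1,y3,z3]),(z1,[z0,z1]),(z1,[z1])] [(k3,k5,z1,[z0,z0,z1]),(k5,k3,z1,[z0,z0,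
    z1])]),
    .old (.leafM k12 [k0,k1,k2,k4] [(z1,[z0,z1]),(z1,[y2,y1,y2,z2]),(z1,[z1])] [(k3,k5,z1,[z0,z0,z1]),(k5,k3,z1,[z0,z0,
    z1])]),
    .old (.lp [k20,k8,k0,k8,k10,k32] [k6,k6,k12,k12,k16,k16,k12,k12,k11,k11,k0,k0] k0 [] k40 k6
    [[(k4,k10),(k7,k14)],[(k5,k10)],[(k2,k8)],[(k3,k8)],[(k0,k10)],[(k1,k10),(k10,k16)],[(k1,k14),(k10,k20)],[(k6,k8),
    (k8,k9),(k9,k9),(k11,k20)],[(k6,k9),(k8,k10),(k9,k10),(k11,k21)],[(k6,k9),(k8,k10),(k9,k10),(k11,k21)],[(k6,k20),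
    (k8,k21),(k9,k21),(k11,k32)],[(k4,k16),(k7,k20)]]
    [] k0
    [[k1,k0,k1,k0,k0,k0],[k0,k2,k0,k0,k0,k0],[k0,k3,k0,k0,k0,k0],[k0,k4,k0,k0,k0,k0],[k0,k0,k0,k0,k2,k0],[k0,k0,k0,k0,
    k3,k0]]
    [.contra [y1,z2],.contra [z1],.ref k2 k0 [(z1,[y1,z3,z3]),(z1,[z1])],.ref k4 k0 [(z1,[z0,z1]),(z2,[z1]),(z1,[z0,
    y1,y1,z1])],.contra [z1],.ref k3 k0 [(z1,[z0,z1]),(z1,[y1,z0,z3]),(z1,[z0,y1,y1,z1])]]),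
    .old (.lp [k48,k30,k0,k24,k40,k96] [k24,k24,k33,k33,k48,k48,k36,k36,k28,k28,k0,k0] k0 [] k120 k6
    [[(k4,k24),(k7,k36)],[(k5,k24)],[(k2,k30)],[(k3,k30)],[(k0,k24)],[(k1,k24),(k10,k48)],[(k1,k36),(k10,k60)],[(k6,
    k24),(k8,k32),(k9,k32),(k11,k60)],[(k6,k32),(k8,k40),(k9,k40),(k11,k68)],[(k6,k32),(k8,k40),(k9,k40),(k11,k68)],
    [(k6,k60),(k8,k68),(k9,k68),(k11,k96)],[(k4,k48),(k7,k60)]]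
    [] k0
    [[k1,k0,k1,k0,k0,k0],[k2,k0,k2,k0,k0,k0],[k0,k2,k0,k0,k0,k0],[k0,k3,k0,k0,k0,k0],[k0,k0,k0,k0,k2,k0]]
    [.contra [y1,z1],.ref k5 k0 [(z2,[z1]),(z2,[y1,z2])],.contra [z1],.ref k2 k0 [(z1,[y1,z3]),(z1,[z1])],
    .contra [z1]]),
    .old (.leafM k11 [k3,k4,k5,k1] [(z1,[y3,y1,y3,z3]),(z1,[z0,z1]),(z1,[z0,z0,z1])] [(k0,k2,z1,[z1]),(k2,k0,z1,[z1])]),
    .old (.leafM k8 [k5,k1,k3,k4] [(z1,[z0,z1]),(z1,[y3,y1,y3,z3]),(z1,[z0,z0,z1])] [(k0,k2,z1,[z1]),(k2,k0,z1,[z1])]),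
    .old (.leafM k9 [k5,k1,k3,k4] [(z1,[z0,z1]),(z1,[y2,y1,y2,z2]),(z1,[z0,z0,z1])] [(k0,k2,z1,[z1]),(k2,k0,z1,[z1])]),
    .old (.lp [k36,k8,k4,k8,k10,k12] [k0,k0,k14,k14,k16,k16,k14,k14,k13,k13,k12,k12] k0 [] k40 k6
    [[(k4,k20),(k7,k22)],[(k5,k20)],[(k2,k8)],[(k3,k8)],[(k0,k20)],[(k10,k8),(k1,k20)],[(k10,k10),(k1,k22)],[(k6,k8),
    (k8,k9),(k9,k9),(k11,k10)],[(k6,k9),(k8,k10),(k9,k10),(k11,k11)],[(k6,k9),(k8,k10),(k9,k10),(k11,k11)],[(k6,k10),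
    (k8,k11),(k9,k11),(k11,k12)],[(k4,k8),(k7,k10)]]
    [] k0
    [[k0,k2,k0,k0,k0,k0],[k0,k3,k0,k0,k0,k0],[k0,k4,k0,k0,k0,k0],[k0,k0,k0,k1,k0,k1],[k0,k0,k0,k1,k1,k1],[k0,k0,k0,k0,
    k2,k0],[k0,k0,k0,k0,k3,k0]]
    [.contra [z1],.ref k8 k0 [(z1,[z0,z1]),(z1,[z1]),(z1,[z0,y1,y1,z1])],.ref k9 k0 [(z1,[z0,z1]),(z2,[z1]),(z1,[z0,
    y1,y1,z1])],.contra [y2,y1,y2,z2],.contra [z1,z1,z1,y1],.contra [z1],.ref k7 k0 [(z1,[z0,z1]),(z1,[y1,z0,z3]),(z1,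
    [z0,y1,y1,z1])]]),
    .old (.leafM k10 [k3,k4,k5,k1] [(z1,[y3,y1,y1,z3]),(z1,[z0,z1]),(z1,[z0,z0,z1])] [(k0,k2,z1,[z1]),(k2,k0,z1,[z1])]),
    .old (.lp [k96,k40,k24,k24,k30,k24] [k0,k0,k28,k28,k36,k36,k36,k36,k33,k33,k36,k36] k0 [] k120 k6
    [[(k4,k60),(k7,k60)],[(k5,k60)],[(k2,k40)],[(k3,k40)],[(k0,k60)],[(k10,k24),(k1,k60)],[(k10,k24),(k1,k60)],[(k6,
    k24),(k11,k24),(k8,k27),(k9,k27)],[(k6,k27),(k11,k27),(k8,k30),(k9,k30)],[(k6,k27),(k11,k27),(k8,k30),(k9,k30)],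
    [(k6,k24),(k11,k24),(k8,k27),(k9,k27)],[(k4,k24),(k7,k24)]]
    [] k0
    [[k0,k2,k0,k0,k0,k0],[k0,k0,k0,k1,k0,k1],[k0,k0,k0,k2,k0,k2],[k0,k0,k0,k1,k1,k1],[k0,k0,k0,k1,k2,k1],[k0,k0,k0,k0,
    k2,k0],[k0,k0,k0,k0,k3,k0]]
    [.contra [z1],.contra [y1,y1,z0,z1],.ref k10 k0 [(z1,[z0,z1]),(z2,[y1,y2,z0,z2])],.contra [z1,z1,z1,y1],
    .ref k11 k0 [(z1,[z0,z1]),(z1,[z0,z0,z1]),(z1,[y3,y6,y2,z6])],.contra [z1],.ref k11 k0 [(z1,[z0,z1]),(z1,[z0,z0,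
    z1]),(z1,[y1,y3,y1,z3])]]),
    .old (.lp [k96,k30,k24,k24,k40,k24] [k0,k0,k33,k33,k36,k36,k36,k36,k28,k28,k36,k36] k0 [] k120 k6
    [[(k4,k60),(k7,k60)],[(k5,k60)],[(k2,k30)],[(k3,k30)],[(k0,k60)],[(k10,k24),(k1,k60)],[(k10,k24),(k1,k60)],[(k6,
    k24),(k11,k24),(k8,k32),(k9,k32)],[(k6,k32),(k11,k32),(k8,k40),(k9,k40)],[(k6,k32),(k11,k32),(k8,k40),(k9,k40)],
    [(k6,k24),(k11,k24),(k8,k32),(k9,k32)],[(k4,k24),(k7,k24)]]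
    [] k0
    [[k0,k2,k0,k0,k0,k0],[k0,k3,k0,k0,k0,k0],[k0,k0,k0,k1,k0,k1],[k0,k0,k0,k2,k0,k2],[k0,k0,k0,k1,k1,k1],[k0,k0,k0,k0,
    k2,k0]]
    [.contra [z1],.ref k12 k0 [(z1,[z0,z1]),(z1,[z1])],.contra [y1,y1,z1],.ref k10 k0 [(z1,[z0,z1]),(z2,[y1,y2,z2])],
    .contra [y1,y1,z1],.contra [z1]]),
    .old (.lp [k6,k8,k6,k6,k12,k6] [k3,k3,k2,k2,k3,k3,k3,k3,k0,k0,k3,k3] k0 [] k24 k5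
    [[(k4,k6),(k7,k6)],[(k5,k6)],[(k2,k8)],[(k3,k8)],[(k0,k6)],[(k1,k6),(k10,k6)],[(k1,k6),(k10,k6)],[(k6,k6),(k11,
    k6),(k8,k9),(k9,k9)],[(k6,k9),(k11,k9),(k8,k12),(k9,k12)],[(k6,k9),(k11,k9),(k8,k12),(k9,k12)],[(k6,k6),(k11,k6),
    (k8,k9),(k9,k9)],[(k4,k6),(k7,k6)]]
    [] k0
    [[k1,k0,k1,k0,k0,k0],[k0,k2,k0,k0,k0,k0],[k0,k0,k0,k1,k0,k1]]
    [.ref k13 k0 [(z1,[z1])],.contra [z1],.ref k6 k0 [(z1,[y1,z1])]])]⟩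

/-- classes `0 0 1 2 2 1`, types `N0 N1 C0 N0 N1 C0` -/
noncomputable def cU6_1632 : CertX :=
  ⟨[k12,k13,k20,k44,k45,k20],[(false,k0,[k0,k1,k2,k3,k4,k5]),(false,k3,[k3,k4,k5,k0,k1,k2])],[[[([z1,z0,z1,z0,z0,z0],
    z1),([z0,z3,z0,z0,z0,z0],z1),([z0,z0,z0,z1,z0,z1],z2)],[([z1,z0,z1,z0,z0,z0],z1),([z0,z2,z0,z0,z0,z0],z1),([z0,z0,
    z0,z1,z0,z1],z2)],[([z1,z0,z1,z0,z0,z0],z1),([z0,z3,z0,z0,z0,z0],z2),([z0,z0,z0,z1,z0,z1],z2)],[([z1,z0,z1,z0,z0,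
    z0],z1),([z0,z1,z0,z0,z1,z0],z1)],[([z3,z0,z3,z0,z0,z0],z2),([z0,z3,z0,z0,z0,z0],z2),([z0,z0,z0,z1,z0,z1],z2)],
    [([z1,z0,z1,z0,z0,z0],z2),([z0,z3,z0,z0,z0,z0],z2)],[([z1,z0,z1,z0,z0,z0],z2)],[]]],
    [.old (.leafM k11 [k2,k4,k0,k1] [(z1,[y3,y1,y3,z3]),(z1,[z0,z1]),(z1,[z1])] [(k3,k5,z1,[z0,z0,z1]),(k5,k3,z1,[z0,z0,
    z1])]),
    .old (.leafM k12 [k0,k1,k2,k4] [(z1,[z0,z1]),(z1,[y2,y1,y2,z2]),(z1,[z1])] [(k3,k5,z1,[z0,z0,z1]),(k5,k3,z1,[z0,z0,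
    z1])]),
    .old (.leafM k11 [k0,k1,k2,k4] [(z1,[z0,z1]),(z1,[y3,y1,y3,z3]),(z1,[z1])] [(k3,k5,z1,[z0,z0,z1]),(k5,k3,z1,[z0,z0,
    z1])]),
    .old (.lp [k20,k10,k0,k40,k8,k0] [k10,k10,k15,k15,k20,k20,k0,k0,k16,k16,k20,k20] k0 [] k40 k6
    [[(k4,k10),(k10,k10)],[(k5,k10)],[(k2,k10)],[(k3,k10)],[(k0,k10)],[(k1,k10),(k7,k20)],[(k4,k20),(k10,k20)],[(k11,
    k20)],[(k8,k8)],[(k9,k8)],[(k6,k20)],[(k1,k10),(k7,k20)]]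
    [] k0
    [[k1,k0,k1,k0,k0,k0],[k0,k2,k0,k0,k0,k0],[k0,k3,k0,k0,k0,k0],[k0,k0,k0,k0,k2,k0],[k0,k0,k0,k0,k3,k0],[k0,k0,k0,k0,
    k4,k0]]
    [.contra [y1,z2],.contra [z1],.ref k2 k0 [(z1,[z0,z1]),(z1,[z1]),(z1,[z0,y1,y1,z1])],.contra [z1],.ref k0 k0 [(z1,
    [z0,z1]),(z1,[y1,z0,z3]),(z1,[z0,y1,y1,z1])],.ref k1 k0 [(z1,[z0,z1]),(z2,[y1,z0,z4]),(z1,[z0,y1,y1,z1])]]),
    .old (.leafM k10 [k0,k1,k2,k4] [(z1,[z0,z1]),(z1,[y1,y1,y3,z3]),(z1,[z1])] [(k3,k5,z1,[z0,z0,z1]),(k5,k3,z1,[z0,z0,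
    z1])]),
    .old (.lp [k120,k40,k0,k48,k30,k0] [k0,k0,k40,k40,k60,k60,k36,k36,k45,k45,k60,k60] k0 [] k120 k6
    [[(k4,k60),(k10,k60)],[(k5,k60)],[(k2,k40)],[(k3,k40)],[(k0,k60)],[(k7,k24),(k1,k60)],[(k4,k24),(k10,k24)],[(k11,
    k24)],[(k8,k30)],[(k9,k30)],[(k6,k24)],[(k7,k24),(k1,k60)]]
    [] k0
    [[k0,k2,k0,k0,k0,k0],[k0,k0,k0,k1,k0,k1],[k0,k0,k0,k2,k0,k2],[k0,k0,k0,k0,k2,k0],[k0,k0,k0,k0,k3,k0]]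
    [.contra [z1],.contra [y1,y1,z0,z1],.ref k3 k1 [(z2,[z1]),(z2,[y1,y2,z0,z2])],.contra [z1],.ref k4 k1 [(z1,[y1,y3,
    y1,z3]),(z1,[z1]),(z1,[z0,z1])]]),
    .old (.lp [k120,k30,k0,k48,k40,k0] [k0,k0,k45,k45,k60,k60,k36,k36,k40,k40,k60,k60] k0 [] k120 k6
    [[(k4,k60),(k10,k60)],[(k5,k60)],[(k2,k30)],[(k3,k30)],[(k0,k60)],[(k7,k24),(k1,k60)],[(k4,k24),(k10,k24)],[(k11,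
    k24)],[(k8,k40)],[(k9,k40)],[(k6,k24)],[(k7,k24),(k1,k60)]]
    [] k0
    [[k0,k2,k0,k0,k0,k0],[k0,k3,k0,k0,k0,k0],[k0,k0,k0,k1,k0,k1],[k0,k0,k0,k2,k0,k2],[k0,k0,k0,k0,k2,k0]]
    [.contra [z1],.ref k5 k0 [(z1,[z0,z1]),(z1,[z1])],.contra [y1,y1,z1],.ref k3 k1 [(z2,[z1]),(z2,[y1,y2,z2])],
    .contra [z1]]),
    .old (.lp [k6,k6,k0,k6,k4,k0] [k0,k0,k0,k0,k3,k3,k0,k0,k1,k1,k3,k3] k0 [] k12 k5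
    [[(k4,k3),(k10,k3)],[(k5,k3)],[(k2,k6)],[(k3,k6)],[(k0,k3)],[(k1,k3),(k7,k3)],[(k4,k3),(k10,k3)],[(k11,k3)],[(k8,
    k4)],[(k9,k4)],[(k6,k3)],[(k1,k3),(k7,k3)]]
    [] k0
    [[k1,k0,k1,k0,k0,k0],[k0,k0,k0,k1,k0,k1],[k0,k0,k0,k0,k2,k0]]
    [.ref k6 k0 [(z1,[z1])],.ref k6 k1 [(z1,[z1])],.contra [z1]])]⟩

/-- classes `0 0 1 2 2 1`, types `N0 N1 C0 N0 N1 C2` -/
noncomputable def cU6_1633 : CertX :=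
  ⟨[k12,k13,k20,k44,k45,k22],[],[[[]]],
    [.old (.lp [k6,k8,k6,k6,k12,k6] [k3,k3,k2,k2,k3,k3,k3,k3,k0,k0,k3,k3] k0 [] k24 k5
    [[(k7,k6),(k10,k6)],[(k5,k6)],[(k2,k8)],[(k3,k8)],[(k0,k6)],[(k7,k6),(k10,k6)],[(k1,k6),(k4,k6)],[(k11,k6)],[(k8,
    k12)],[(k9,k12)],[(k6,k6)],[(k1,k6),(k4,k6)]]
    [] k0
    [[k0,k2,k0,k0,k0,k0]]
    [.contra [z1]])]⟩

/-- classes `0 0 1 2 2 1`, types `N0 N1 C0 N0 N2 C0` -/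
noncomputable def cU6_1634 : CertX :=
  ⟨[k12,k13,k20,k44,k46,k20],[(false,k0,[k0,k1,k2,k3,k4,k5])],[[[([z1,z0,z1,z0,z0,z0],z2)],[]]],
    [.old (.lp [k24,k10,k6,k6,k6,k6] [k0,k0,k7,k7,k9,k9,k9,k9,k9,k9,k9,k9] k0 [] k30 k6
    [[(k4,k15),(k10,k15)],[(k5,k15)],[(k2,k10)],[(k3,k10)],[(k0,k15)],[(k7,k6),(k1,k15)],[(k4,k6),(k10,k6)],[(k8,k6)],
    [(k11,k6)],[(k6,k6)],[(k9,k6)],[(k7,k6),(k1,k15)]]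
    [] k0
    [[k0,k2,k0,k0,k0,k0],[k0,k0,k0,k1,k1,k1]]
    [.contra [z1],.contra [y1,y1,z1]]),
    .old (.lp [k6,k4,k0,k6,k6,k0] [k0,k0,k1,k1,k3,k3,k0,k0,k0,k0,k3,k3] k0 [] k12 k5
    [[(k4,k3),(k10,k3)],[(k5,k3)],[(k2,k4)],[(k3,k4)],[(k0,k3)],[(k1,k3),(k7,k3)],[(k4,k3),(k10,k3)],[(k8,k6)],[(k11,
    k3)],[(k6,k6)],[(k9,k3)],[(k1,k3),(k7,k3)]]
    [] k0
    [[k1,k0,k1,k0,k0,k0],[k0,k2,k0,k0,k0,k0]]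
    [.ref k0 k0 [(z1,[z1])],.contra [z1]])]⟩

/-- classes `0 0 1 2 2 1`, types `N0 N1 C0 N0 N2 C2` -/
noncomputable def cU6_1635 : CertX :=
  ⟨[k12,k13,k20,k44,k46,k22],[],[[[]]],
    [.old (.lp [k2,k4,k2,k2,k2,k2] [k1,k1,k0,k0,k1,k1,k1,k1,k1,k1,k1,k1] k0 [] k8 k5
    [[(k7,k2),(k10,k2)],[(k5,k2)],[(k2,k4)],[(k3,k4)],[(k0,k2)],[(k7,k2),(k10,k2)],[(k1,k2),(k4,k2)],[(k8,k2)],[(k11,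
    k2)],[(k6,k2)],[(k9,k2)],[(k1,k2),(k4,k2)]]
    [] k0
    []
    [])]⟩

/-- classes `0 0 1 2 2 1`, types `N0 N1 C0 S0 S0 C0` -/
noncomputable def cU6_1636 : CertX :=
  ⟨[k12,k13,k20,k32,k32,k20],[(false,k0,[k0,k1,k2,k3,k4,k5])],[[[([z3,z0,z3,z0,z0,z0],z2),([z0,z3,z0,z0,z0,z0],z2),
    ([z0,z0,z0,z1,z0,z1],z2)],[([z1,z0,z1,z0,z0,z0],z1),([z0,z3,z0,z0,z0,z0],z1),([z0,z0,z0,z1,z0,z1],z2)],[([z3,z3,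
    z3,z0,z0,z0],z4),([z0,z0,z0,z1,z0,z1],z2)],[([z1,z0,z1,z0,z0,z0],z1),([z0,z2,z0,z0,z0,z0],z1),([z0,z0,z0,z1,z0,
    z1],z2)],[([z1,z0,z1,z0,z0,z0],z1),([z0,z3,z0,z0,z0,z0],z2),([z0,z0,z0,z1,z0,z1],z2)],[([z1,z0,z1,z0,z0,z0],z1),
    ([z0,z1,z0,z0,z1,z0],z1)],[([z1,z1,z1,z0,z1,z0],z2)],[([z1,z0,z1,z0,z0,z0],z2),([z0,z3,z0,z0,z0,z0],z1),([z0,z0,
    z0,z1,z0,z1],z1)],[([z1,z0,z1,z0,z0,z0],z2),([z0,z3,z0,z0,z0,z0],z2),([z0,z0,z0,z1,z0,z1],z1)],[([z1,z0,z1,z0,z0,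
    z0],z2),([z0,z2,z0,z0,z0,z0],z1),([z0,z0,z0,z1,z0,z1],z1)],[([z1,z0,z1,z0,z0,z0],z2),([z0,z1,z0,z0,z1,z0],z1)],
    [([z1,z0,z1,z0,z0,z0],z2),([z0,z3,z0,z0,z0,z0],z2),([z0,z0,z0,z3,z0,z3],z2)]],[[([z1,z0,z1,z0,z0,z0],z2),([z0,z3,
    z0,z0,z0,z0],z2)],[([z1,z0,z1,z0,z0,z0],z2)],[]]],
    [.old (.leafM k10 [k0,k1,k2,k4] [(z1,[z0,z1]),(z1,[y1,y1,y3,z3]),(z1,[z1])] [(k3,k5,z1,[z0,z0,z1]),(k5,k3,z1,[z0,z0,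
    z1])]),
    .old (.leafM k11 [k2,k4,k0,k1] [(z1,[y3,y1,y3,z3]),(z1,[z0,z1]),(z1,[z1])] [(k3,k5,z1,[z0,z0,z1]),(k5,k3,z1,[z0,z0,
    z1])]),
    .old (.lp [k48,k30,k0,k48,k40,k72] [k12,k12,k21,k21,k36,k36,k12,k12,k16,k16,k0,k0] k0 [] k120 k6
    [[(k4,k24),(k10,k60)],[(k5,k24)],[(k2,k30)],[(k3,k30)],[(k0,k24)],[(k1,k24),(k7,k24)],[(k4,k24),(k10,k60)],[(k8,
    k44),(k9,k44),(k6,k48),(k11,k60)],[(k8,k40),(k9,k40),(k6,k44),(k11,k56)],[(k8,k40),(k9,k40),(k6,k44),(k11,k56)],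
    [(k8,k56),(k9,k56),(k6,k60),(k11,k72)],[(k1,k60),(k7,k60)]]
    [] k0
    [[k1,k0,k1,k0,k0,k0],[k2,k0,k2,k0,k0,k0],[k0,k2,k0,k0,k0,k0],[k0,k3,k0,k0,k0,k0],[k0,k0,k0,k0,k2,k0]]
    [.contra [y2,z1],.ref k1 k0 [(z2,[z1]),(z2,[y3,z2]),(z1,[z0,z0,z1])],.contra [z1],.ref k0 k0 [(z1,[y1,z1]),(z1,
    [z1]),(z1,[z0,z0,z1])],.contra [z1]]),
    .old (.leafM k12 [k0,k1,k2,k4] [(z1,[z0,z1]),(z1,[y2,y1,y2,z2]),(z1,[z1])] [(k3,k5,z1,[z0,z0,z1]),(k5,k3,z1,[z0,z0,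
    z1])]),
    .old (.leafM k11 [k0,k1,k2,k4] [(z1,[z0,z1]),(z1,[y3,y1,y3,z3]),(z1,[z1])] [(k3,k5,z1,[z0,z0,z1]),(k5,k3,z1,[z0,z0,
    z1])]),
    .old (.lp [k20,k10,k0,k16,k8,k24] [k2,k2,k7,k7,k12,k12,k4,k4,k8,k8,k0,k0] k0 [] k40 k6
    [[(k4,k10),(k10,k22)],[(k5,k10)],[(k2,k10)],[(k3,k10)],[(k0,k10)],[(k7,k8),(k1,k10)],[(k4,k8),(k10,k20)],[(k8,
    k12),(k9,k12),(k6,k16),(k11,k20)],[(k8,k8),(k9,k8),(k6,k12),(k11,k16)],[(k8,k8),(k9,k8),(k6,k12),(k11,k16)],[(k8,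
    k16),(k9,k16),(k6,k20),(k11,k24)],[(k7,k20),(k1,k22)]]
    [] k0
    [[k1,k0,k1,k0,k0,k0],[k0,k2,k0,k0,k0,k0],[k0,k3,k0,k0,k0,k0],[k0,k0,k0,k0,k2,k0],[k0,k0,k0,k0,k3,k0],[k0,k0,k0,k0,
    k4,k0]]
    [.contra [y1,z2],.contra [z1],.ref k4 k0 [(z1,[z0,z1]),(z1,[z1]),(z1,[z0,y1,y1,z1])],.contra [z1],.ref k2 k0 [(z1,
    [y1,z3,z3]),(z1,[z0,y1,y1,z1])],.ref k3 k0 [(z1,[z0,z1]),(z2,[y1,z0,z4]),(z1,[z0,y1,y1,z1])]]),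
    .old (.lp [k48,k40,k0,k48,k30,k72] [k12,k12,k16,k16,k36,k36,k12,k12,k21,k21,k0,k0] k0 [] k120 k6
    [[(k4,k24),(k10,k60)],[(k5,k24)],[(k2,k40)],[(k3,k40)],[(k0,k24)],[(k1,k24),(k7,k24)],[(k4,k24),(k10,k60)],[(k8,
    k39),(k9,k39),(k6,k48),(k11,k60)],[(k8,k30),(k9,k30),(k6,k39),(k11,k51)],[(k8,k30),(k9,k30),(k6,k39),(k11,k51)],
    [(k8,k51),(k9,k51),(k6,k60),(k11,k72)],[(k1,k60),(k7,k60)]]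
    [] k0
    [[k1,k0,k1,k0,k0,k0],[k2,k0,k2,k0,k0,k0],[k0,k2,k0,k0,k0,k0],[k0,k0,k0,k0,k2,k0],[k0,k0,k0,k0,k3,k0]]
    [.contra [y1,z1],.ref k5 k0 [(z2,[z1]),(z2,[y1,z2])],.contra [z1],.contra [z1],.ref k2 k0 [(z1,[y1,z3]),(z1,[z0,
    y1,z1])]]),
    .old (.leafM k11 [k3,k4,k5,k1] [(z1,[y3,y1,y3,z3]),(z1,[z0,z1]),(z1,[z0,z0,z1])] [(k0,k2,z1,[z1]),(k2,k0,z1,[z1])]),
    .old (.leafM k8 [k5,k1,k3,k4] [(z1,[z0,z1]),(z1,[y3,y1,y3,z3]),(z1,[z0,z0,z1])] [(k0,k2,z1,[z1]),(k2,k0,z1,[z1])]),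
    .old (.leafM k9 [k5,k1,k3,k4] [(z1,[z0,z1]),(z1,[y2,y1,y2,z2]),(z1,[z0,z0,z1])] [(k0,k2,z1,[z1]),(k2,k0,z1,[z1])]),
    .old (.lp [k36,k8,k4,k12,k10,k8] [k0,k0,k14,k14,k16,k16,k12,k12,k13,k13,k14,k14] k0 [] k40 k6
    [[(k4,k20),(k10,k22)],[(k5,k20)],[(k2,k8)],[(k3,k8)],[(k0,k20)],[(k7,k8),(k1,k20)],[(k4,k8),(k10,k10)],[(k11,k10),
    (k8,k11),(k9,k11),(k6,k12)],[(k11,k9),(k8,k10),(k9,k10),(k6,k11)],[(k11,k9),(k8,k10),(k9,k10),(k6,k11)],[(k11,k8),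
    (k8,k9),(k9,k9),(k6,k10)],[(k7,k10),(k1,k22)]]
    [] k0
    [[k0,k2,k0,k0,k0,k0],[k0,k3,k0,k0,k0,k0],[k0,k4,k0,k0,k0,k0],[k0,k0,k0,k1,k0,k1],[k0,k0,k0,k1,k1,k1],[k0,k0,k0,k0,
    k2,k0],[k0,k0,k0,k0,k3,k0]]
    [.contra [z1],.ref k8 k0 [(z1,[z0,z1]),(z1,[z1]),(z1,[z0,y1,y1,z1])],.ref k9 k0 [(z1,[z0,z1]),(z2,[z1]),(z1,[z0,
    y1,y1,z1])],.contra [y2,y1,y2,z2],.contra [z1,z1,z1,y1],.contra [z1],.ref k7 k0 [(z1,[z0,z1]),(z1,[y1,z0,z3]),(z1,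
    [z0,y1,y1,z1])]]),
    .old (.leafM k10 [k3,k4,k5,k1] [(z1,[y3,y1,y1,z3]),(z1,[z0,z1]),(z1,[z0,z0,z1])] [(k0,k2,z1,[z1]),(k2,k0,z1,[z1])]),
    .old (.lp [k96,k40,k24,k24,k30,k24] [k0,k0,k28,k28,k36,k36,k36,k36,k33,k33,k36,k36] k0 [] k120 k6
    [[(k4,k60),(k10,k60)],[(k5,k60)],[(k2,k40)],[(k3,k40)],[(k0,k60)],[(k7,k24),(k1,k60)],[(k4,k24),(k10,k24)],[(k6,
    k24),(k11,k24),(k8,k27),(k9,k27)],[(k6,k27),(k11,k27),(k8,k30),(k9,k30)],[(k6,k27),(k11,k27),(k8,k30),(k9,k30)],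
    [(k6,k24),(k11,k24),(k8,k27),(k9,k27)],[(k7,k24),(k1,k60)]]
    [] k0
    [[k0,k2,k0,k0,k0,k0],[k0,k0,k0,k1,k0,k1],[k0,k0,k0,k2,k0,k2],[k0,k0,k0,k1,k1,k1],[k0,k0,k0,k1,k2,k1],[k0,k0,k0,k0,
    k2,k0],[k0,k0,k0,k0,k3,k0]]
    [.contra [z1],.contra [y1,y1,z0,z1],.ref k10 k0 [(z1,[z0,z1]),(z2,[y1,y2,z0,z2])],.contra [z1,z1,z1,y1],
    .ref k11 k0 [(z1,[z0,z1]),(z1,[z0,z0,z1]),(z1,[y3,y6,y2,z6])],.contra [z1],.ref k11 k0 [(z1,[z0,z1]),(z1,[z0,z0,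
    z1]),(z1,[y1,y3,y1,z3])]]),
    .old (.lp [k96,k30,k24,k24,k40,k24] [k0,k0,k33,k33,k36,k36,k36,k36,k28,k28,k36,k36] k0 [] k120 k6
    [[(k4,k60),(k10,k60)],[(k5,k60)],[(k2,k30)],[(k3,k30)],[(k0,k60)],[(k7,k24),(k1,k60)],[(k4,k24),(k10,k24)],[(k6,
    k24),(k11,k24),(k8,k32),(k9,k32)],[(k6,k32),(k11,k32),(k8,k40),(k9,k40)],[(k6,k32),(k11,k32),(k8,k40),(k9,k40)],
    [(k6,k24),(k11,k24),(k8,k32),(k9,k32)],[(k7,k24),(k1,k60)]]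
    [] k0
    [[k0,k2,k0,k0,k0,k0],[k0,k3,k0,k0,k0,k0],[k0,k0,k0,k1,k0,k1],[k0,k0,k0,k2,k0,k2],[k0,k0,k0,k1,k1,k1],[k0,k0,k0,k0,
    k2,k0]]
    [.contra [z1],.ref k12 k0 [(z1,[z0,z1]),(z1,[z1])],.contra [y1,y1,z1],.ref k10 k0 [(z1,[z0,z1]),(z2,[y1,y2,z2])],
    .contra [y1,y1,z1],.contra [z1]]),
    .old (.lp [k6,k8,k6,k6,k12,k6] [k3,k3,k2,k2,k3,k3,k3,k3,k0,k0,k3,k3] k0 [] k24 k5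
    [[(k4,k6),(k10,k6)],[(k5,k6)],[(k2,k8)],[(k3,k8)],[(k0,k6)],[(k1,k6),(k7,k6)],[(k4,k6),(k10,k6)],[(k6,k6),(k11,
    k6),(k8,k9),(k9,k9)],[(k6,k9),(k11,k9),(k8,k12),(k9,k12)],[(k6,k9),(k11,k9),(k8,k12),(k9,k12)],[(k6,k6),(k11,k6),
    (k8,k9),(k9,k9)],[(k1,k6),(k7,k6)]]
    [] k0
    [[k1,k0,k1,k0,k0,k0],[k0,k2,k0,k0,k0,k0],[k0,k0,k0,k1,k0,k1]]
    [.ref k13 k0 [(z1,[z1])],.contra [z1],.ref k6 k0 [(z1,[y1,z1])]])]⟩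

/-- classes `0 0 1 2 2 1`, types `N0 N1 C0 S0 S0 C2` -/
noncomputable def cU6_1637 : CertX :=
  ⟨[k12,k13,k20,k32,k32,k22],[],[[[]]],
    [.old (.lp [k6,k8,k6,k6,k12,k6] [k3,k3,k2,k2,k3,k3,k3,k3,k0,k0,k3,k3] k0 [] k24 k5
    [[(k7,k6),(k10,k6)],[(k5,k6)],[(k2,k8)],[(k3,k8)],[(k0,k6)],[(k7,k6),(k10,k6)],[(k1,k6),(k4,k6)],[(k6,k6),(k11,
    k6),(k8,k9),(k9,k9)],[(k6,k9),(k11,k9),(k8,k12),(k9,k12)],[(k6,k9),(k11,k9),(k8,k12),(k9,k12)],[(k6,k6),(k11,k6),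
    (k8,k9),(k9,k9)],[(k1,k6),(k4,k6)]]
    [] k0
    [[k0,k2,k0,k0,k0,k0]]
    [.contra [z1]])]⟩

/-- classes `0 0 1 2 2 1`, types `N0 N1 N0 N0 N1 N1` -/
noncomputable def cU6_1638 : CertX :=
  ⟨[k12,k13,k28,k44,k45,k29],[(false,k0,[k0,k1,k2,k3,k4,k5]),(false,k3,[k3,k4,k5,k0,k1,k2])],[[[([z1,z0,z1,z0,z0,z0],
    z1),([z0,z3,z0,z0,z0,z0],z1),([z0,z0,z0,z1,z0,z1],z2)],[([z1,z0,z1,z0,z0,z0],z1),([z0,z2,z0,z0,z0,z0],z1),([z0,z0,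
    z0,z1,z0,z1],z2)],[([z1,z0,z1,z0,z0,z0],z1),([z0,z3,z0,z0,z0,z0],z2),([z0,z0,z0,z1,z0,z1],z2)],[([z1,z0,z1,z0,z0,
    z0],z1),([z0,z1,z0,z0,z1,z0],z1)],[([z3,z0,z3,z0,z0,z0],z2),([z0,z3,z0,z0,z0,z0],z2),([z0,z0,z0,z1,z0,z1],z2)],
    [([z1,z0,z1,z0,z0,z0],z2),([z0,z3,z0,z0,z0,z0],z2)],[([z1,z0,z1,z0,z0,z0],z2)],[]]],
    [.old (.leafM k11 [k2,k4,k0,k1] [(z1,[y3,y1,y3,z3]),(z1,[z0,z1]),(z1,[z1])] [(k3,k5,z1,[z0,z0,z1]),(k5,k3,z1,[z0,z0,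
    z1])]),
    .old (.leafM k12 [k0,k1,k2,k4] [(z1,[z0,z1]),(z1,[y2,y1,y2,z2]),(z1,[z1])] [(k3,k5,z1,[z0,z0,z1]),(k5,k3,z1,[z0,z0,
    z1])]),
    .old (.leafM k11 [k0,k1,k2,k4] [(z1,[z0,z1]),(z1,[y3,y1,y3,z3]),(z1,[z1])] [(k3,k5,z1,[z0,z0,z1]),(k5,k3,z1,[z0,z0,
    z1])]),
    .old (.lp [k20,k10,k0,k40,k8,k0] [k10,k10,k15,k15,k20,k20,k0,k0,k16,k16,k20,k20] k0 [] k40 k6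
    [[(k4,k10)],[(k5,k10)],[(k2,k10)],[(k3,k10)],[(k0,k10)],[(k1,k10)],[(k10,k20)],[(k11,k20)],[(k8,k8)],[(k9,k8)],
    [(k6,k20)],[(k7,k20)]]
    [] k0
    [[k1,k0,k1,k0,k0,k0],[k0,k2,k0,k0,k0,k0],[k0,k3,k0,k0,k0,k0],[k0,k0,k0,k0,k2,k0],[k0,k0,k0,k0,k3,k0],[k0,k0,k0,k0,
    k4,k0]]
    [.contra [y1,z2],.contra [z1],.ref k2 k0 [(z1,[z0,z1]),(z1,[z1]),(z1,[z0,y1,y1,z1])],.contra [z1],.ref k0 k0 [(z1,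
    [z0,z1]),(z1,[y1,z0,z3]),(z1,[z0,y1,y1,z1])],.ref k1 k0 [(z1,[z0,z1]),(z2,[y1,z0,z4]),(z1,[z0,y1,y1,z1])]]),
    .old (.leafM k10 [k0,k1,k2,k4] [(z1,[z0,z1]),(z1,[y1,y1,y3,z3]),(z1,[z1])] [(k3,k5,z1,[z0,z0,z1]),(k5,k3,z1,[z0,z0,
    z1])]),
    .old (.lp [k120,k40,k0,k48,k30,k0] [k0,k0,k40,k40,k60,k60,k36,k36,k45,k45,k60,k60] k0 [] k120 k6
    [[(k4,k60)],[(k5,k60)],[(k2,k40)],[(k3,k40)],[(k0,k60)],[(k1,k60)],[(k10,k24)],[(k11,k24)],[(k8,k30)],[(k9,k30)],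
    [(k6,k24)],[(k7,k24)]]
    [] k0
    [[k0,k2,k0,k0,k0,k0],[k0,k0,k0,k1,k0,k1],[k0,k0,k0,k2,k0,k2],[k0,k0,k0,k0,k2,k0],[k0,k0,k0,k0,k3,k0]]
    [.contra [z1],.contra [y1,y1,z0,z1],.ref k3 k1 [(z2,[z1]),(z2,[y1,y2,z0,z2])],.contra [z1],.ref k4 k1 [(z1,[y1,y3,
    y1,z3]),(z1,[z1]),(z1,[z0,z1])]]),
    .old (.lp [k120,k30,k0,k48,k40,k0] [k0,k0,k45,k45,k60,k60,k36,k36,k40,k40,k60,k60] k0 [] k120 k6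
    [[(k4,k60)],[(k5,k60)],[(k2,k30)],[(k3,k30)],[(k0,k60)],[(k1,k60)],[(k10,k24)],[(k11,k24)],[(k8,k40)],[(k9,k40)],
    [(k6,k24)],[(k7,k24)]]
    [] k0
    [[k0,k2,k0,k0,k0,k0],[k0,k3,k0,k0,k0,k0],[k0,k0,k0,k1,k0,k1],[k0,k0,k0,k2,k0,k2],[k0,k0,k0,k0,k2,k0]]
    [.contra [z1],.ref k5 k0 [(z1,[z0,z1]),(z1,[z1])],.contra [y1,y1,z1],.ref k3 k1 [(z2,[z1]),(z2,[y1,y2,z2])],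
    .contra [z1]]),
    .old (.lp [k6,k6,k0,k6,k4,k0] [k0,k0,k0,k0,k3,k3,k0,k0,k1,k1,k3,k3] k0 [] k12 k5
    [[(k4,k3)],[(k5,k3)],[(k2,k6)],[(k3,k6)],[(k0,k3)],[(k1,k3)],[(k10,k3)],[(k11,k3)],[(k8,k4)],[(k9,k4)],[(k6,k3)],
    [(k7,k3)]]
    [] k0
    [[k1,k0,k1,k0,k0,k0],[k0,k0,k0,k1,k0,k1],[k0,k0,k0,k0,k2,k0]]
    [.ref k6 k0 [(z1,[z1])],.ref k6 k1 [(z1,[z1])],.contra [z1]])]⟩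

/-- classes `0 0 1 2 2 1`, types `N0 N1 N0 N0 N1 N2` -/
noncomputable def cU6_1639 : CertX :=
  ⟨[k12,k13,k28,k44,k45,k30],[],[[[]]],
    [.old (.lp [k6,k4,k0,k0,k6,k6] [k0,k0,k1,k1,k3,k3,k3,k3,k0,k0,k0,k0] k0 [] k12 k5
    [[(k7,k3)],[(k5,k3)],[(k2,k4)],[(k3,k4)],[(k0,k3)],[(k10,k3)],[(k1,k3)],[(k11,k3)],[(k8,k6)],[(k9,k6)],[(k6,k3)],
    [(k4,k3)]]
    [] k0
    [[k0,k2,k0,k0,k0,k0]]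
    [.contra [z1]])]⟩

/-- classes `0 0 1 2 2 1`, types `N0 N1 N0 N0 N2 N1` -/
noncomputable def cU6_1640 : CertX :=
  ⟨[k12,k13,k28,k44,k46,k29],[(false,k0,[k0,k1,k2,k3,k4,k5])],[[[([z1,z0,z1,z0,z0,z0],z2)],[]]],
    [.old (.lp [k30,k10,k0,k6,k6,k6] [k0,k0,k10,k10,k15,k15,k12,k12,k12,k12,k12,k12] k0 [] k30 k6
    [[(k4,k15)],[(k5,k15)],[(k2,k10)],[(k3,k10)],[(k0,k15)],[(k1,k15)],[(k10,k6)],[(k8,k6)],[(k11,k6)],[(k6,k6)],[(k9,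
    k6)],[(k7,k6)]]
    [] k0
    [[k0,k2,k0,k0,k0,k0],[k0,k0,k0,k1,k1,k1]]
    [.contra [z1],.contra [y1,y1,z1]]),
    .old (.lp [k6,k4,k0,k6,k6,k0] [k0,k0,k1,k1,k3,k3,k0,k0,k0,k0,k3,k3] k0 [] k12 k5
    [[(k4,k3)],[(k5,k3)],[(k2,k4)],[(k3,k4)],[(k0,k3)],[(k1,k3)],[(k10,k3)],[(k8,k6)],[(k11,k3)],[(k6,k6)],[(k9,k3)],
    [(k7,k3)]]
    [] k0
    [[k1,k0,k1,k0,k0,k0],[k0,k2,k0,k0,k0,k0]]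
    [.ref k0 k0 [(z1,[z1])],.contra [z1]])]⟩

/-- classes `0 0 1 2 2 1`, types `N0 N1 N0 N0 N2 N2` -/
noncomputable def cU6_1641 : CertX :=
  ⟨[k12,k13,k28,k44,k46,k30],[],[[[]]],
    [.old (.lp [k2,k4,k2,k2,k2,k2] [k1,k1,k0,k0,k1,k1,k1,k1,k1,k1,k1,k1] k0 [] k8 k5
    [[(k7,k2)],[(k5,k2)],[(k2,k4)],[(k3,k4)],[(k0,k2)],[(k10,k2)],[(k1,k2)],[(k8,k2)],[(k11,k2)],[(k6,k2)],[(k9,k2)],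
    [(k4,k2)]]
    [] k0
    []
    [])]⟩

/-- classes `0 0 1 2 2 1`, types `N0 N1 N0 S0 S0 N1` -/
noncomputable def cU6_1642 : CertX :=
  ⟨[k12,k13,k28,k32,k32,k29],[(false,k0,[k0,k1,k2,k3,k4,k5])],[[[([z3,z0,z3,z0,z0,z0],z2),([z0,z3,z0,z0,z0,z0],z2),
    ([z0,z0,z0,z1,z0,z1],z2)],[([z1,z0,z1,z0,z0,z0],z1),([z0,z3,z0,z0,z0,z0],z1),([z0,z0,z0,z1,z0,z1],z2)],[([z3,z3,
    z3,z0,z0,z0],z4),([z0,z0,z0,z1,z0,z1],z2)],[([z1,z0,z1,z0,z0,z0],z1),([z0,z2,z0,z0,z0,z0],z1),([z0,z0,z0,z1,z0,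
    z1],z2)],[([z1,z0,z1,z0,z0,z0],z1),([z0,z3,z0,z0,z0,z0],z2),([z0,z0,z0,z1,z0,z1],z2)],[([z1,z0,z1,z0,z0,z0],z1),
    ([z0,z1,z0,z0,z1,z0],z1)],[([z1,z1,z1,z0,z1,z0],z2)],[([z1,z0,z1,z0,z0,z0],z2),([z0,z3,z0,z0,z0,z0],z1),([z0,z0,
    z0,z1,z0,z1],z1)],[([z1,z0,z1,z0,z0,z0],z2),([z0,z3,z0,z0,z0,z0],z2),([z0,z0,z0,z1,z0,z1],z1)],[([z1,z0,z1,z0,z0,
    z0],z2),([z0,z2,z0,z0,z0,z0],z1),([z0,z0,z0,z1,z0,z1],z1)],[([z1,z0,z1,z0,z0,z0],z2),([z0,z1,z0,z0,z1,z0],z1)],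
    [([z1,z0,z1,z0,z0,z0],z2),([z0,z3,z0,z0,z0,z0],z2),([z0,z0,z0,z3,z0,z3],z2)]],[[([z1,z0,z1,z0,z0,z0],z2),([z0,z3,
    z0,z0,z0,z0],z2)],[([z1,z0,z1,z0,z0,z0],z2)],[]]],
    [.old (.leafM k10 [k0,k1,k2,k4] [(z1,[z0,z1]),(z1,[y1,y1,y3,z3]),(z1,[z1])] [(k3,k5,z1,[z0,z0,z1]),(k5,k3,z1,[z0,z0,
    z1])]),
    .old (.leafM k11 [k2,k4,k0,k1] [(z1,[y3,y1,y3,z3]),(z1,[z0,z1]),(z1,[z1])] [(k3,k5,z1,[z0,z0,z1]),(k5,k3,z1,[z0,z0,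
    z1])]),
    .old (.lp [k48,k30,k0,k24,k40,k96] [k24,k24,k33,k33,k48,k48,k36,k36,k28,k28,k0,k0] k0 [] k120 k6
    [[(k4,k24)],[(k5,k24)],[(k2,k30)],[(k3,k30)],[(k0,k24)],[(k1,k24)],[(k10,k60)],[(k6,k24),(k8,k32),(k9,k32),(k11,
    k60)],[(k6,k32),(k8,k40),(k9,k40),(k11,k68)],[(k6,k32),(k8,k40),(k9,k40),(k11,k68)],[(k6,k60),(k8,k68),(k9,k68),
    (k11,k96)],[(k7,k60)]]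
    [] k0
    [[k1,k0,k1,k0,k0,k0],[k2,k0,k2,k0,k0,k0],[k0,k2,k0,k0,k0,k0],[k0,k3,k0,k0,k0,k0],[k0,k0,k0,k0,k2,k0]]
    [.contra [y2,z1],.ref k1 k0 [(z2,[z1]),(z2,[y3,z2]),(z1,[z0,z0,z1])],.contra [z1],.ref k0 k0 [(z1,[y1,z1]),(z1,
    [z1]),(z1,[z0,z0,z1])],.contra [z1]]),
    .old (.leafM k12 [k0,k1,k2,k4] [(z1,[z0,z1]),(z1,[y2,y1,y2,z2]),(z1,[z1])] [(k3,k5,z1,[z0,z0,z1]),(k5,k3,z1,[z0,z0,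
    z1])]),
    .old (.leafM k11 [k0,k1,k2,k4] [(z1,[z0,z1]),(z1,[y3,y1,y3,z3]),(z1,[z1])] [(k3,k5,z1,[z0,z0,z1]),(k5,k3,z1,[z0,z0,
    z1])]),
    .old (.lp [k20,k10,k0,k8,k8,k32] [k6,k6,k11,k11,k16,k16,k12,k12,k12,k12,k0,k0] k0 [] k40 k6
    [[(k4,k10)],[(k5,k10)],[(k2,k10)],[(k3,k10)],[(k0,k10)],[(k1,k10)],[(k10,k20)],[(k6,k8),(k8,k8),(k9,k8),(k11,
    k20)],[(k6,k8),(k8,k8),(k9,k8),(k11,k20)],[(k6,k8),(k8,k8),(k9,k8),(k11,k20)],[(k6,k20),(k8,k20),(k9,k20),(k11,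
    k32)],[(k7,k20)]]
    [] k0
    [[k1,k0,k1,k0,k0,k0],[k0,k2,k0,k0,k0,k0],[k0,k3,k0,k0,k0,k0],[k0,k0,k0,k0,k2,k0],[k0,k0,k0,k0,k3,k0],[k0,k0,k0,k0,
    k4,k0]]
    [.contra [y1,z2],.contra [z1],.ref k4 k0 [(z1,[z0,z1]),(z1,[z1]),(z1,[z0,y1,y1,z1])],.contra [z1],.ref k2 k0 [(z1,
    [y1,z3,z3]),(z1,[z0,y1,y1,z1])],.ref k3 k0 [(z1,[z0,z1]),(z2,[y1,z0,z4]),(z1,[z0,y1,y1,z1])]]),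
    .old (.lp [k48,k40,k0,k24,k30,k96] [k24,k24,k28,k28,k48,k48,k36,k36,k33,k33,k0,k0] k0 [] k120 k6
    [[(k4,k24)],[(k5,k24)],[(k2,k40)],[(k3,k40)],[(k0,k24)],[(k1,k24)],[(k10,k60)],[(k6,k24),(k8,k27),(k9,k27),(k11,
    k60)],[(k6,k27),(k8,k30),(k9,k30),(k11,k63)],[(k6,k27),(k8,k30),(k9,k30),(k11,k63)],[(k6,k60),(k8,k63),(k9,k63),
    (k11,k96)],[(k7,k60)]]
    [] k0
    [[k1,k0,k1,k0,k0,k0],[k2,k0,k2,k0,k0,k0],[k0,k2,k0,k0,k0,k0],[k0,k0,k0,k0,k2,k0],[k0,k0,k0,k0,k3,k0]]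
    [.contra [y1,z1],.ref k5 k0 [(z2,[z1]),(z2,[y1,z2])],.contra [z1],.contra [z1],.ref k2 k0 [(z1,[y1,z3]),(z1,[z0,
    y1,z1])]]),
    .old (.leafM k11 [k3,k4,k5,k1] [(z1,[y3,y1,y3,z3]),(z1,[z0,z1]),(z1,[z0,z0,z1])] [(k0,k2,z1,[z1]),(k2,k0,z1,[z1])]),
    .old (.leafM k8 [k5,k1,k3,k4] [(z1,[z0,z1]),(z1,[y3,y1,y3,z3]),(z1,[z0,z0,z1])] [(k0,k2,z1,[z1]),(k2,k0,z1,[z1])]),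
    .old (.leafM k9 [k5,k1,k3,k4] [(z1,[z0,z1]),(z1,[y2,y1,y2,z2]),(z1,[z0,z0,z1])] [(k0,k2,z1,[z1]),(k2,k0,z1,[z1])]),
    .old (.lp [k40,k8,k0,k8,k10,k12] [k0,k0,k16,k16,k20,k20,k16,k16,k15,k15,k14,k14] k0 [] k40 k6
    [[(k4,k20)],[(k5,k20)],[(k2,k8)],[(k3,k8)],[(k0,k20)],[(k1,k20)],[(k10,k10)],[(k6,k8),(k8,k9),(k9,k9),(k11,k10)],
    [(k6,k9),(k8,k10),(k9,k10),(k11,k11)],[(k6,k9),(k8,k10),(k9,k10),(k11,k11)],[(k6,k10),(k8,k11),(k9,k11),(k11,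
    k12)],[(k7,k10)]]
    [] k0
    [[k0,k2,k0,k0,k0,k0],[k0,k3,k0,k0,k0,k0],[k0,k4,k0,k0,k0,k0],[k0,k0,k0,k1,k0,k1],[k0,k0,k0,k1,k1,k1],[k0,k0,k0,k0,
    k2,k0],[k0,k0,k0,k0,k3,k0]]
    [.contra [z1],.ref k8 k0 [(z1,[z0,z1]),(z1,[z1]),(z1,[z0,y1,y1,z1])],.ref k9 k0 [(z1,[z0,z1]),(z2,[z1]),(z1,[z0,
    y1,y1,z1])],.contra [y2,y1,y2,z2],.contra [z1,z1,z1,y1],.contra [z1],.ref k7 k0 [(z1,[z0,z1]),(z1,[y1,z0,z3]),(z1,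
    [z0,y1,y1,z1])]]),
    .old (.leafM k10 [k3,k4,k5,k1] [(z1,[y3,y1,y1,z3]),(z1,[z0,z1]),(z1,[z0,z0,z1])] [(k0,k2,z1,[z1]),(k2,k0,z1,[z1])]),
    .old (.lp [k120,k40,k0,k24,k30,k24] [k0,k0,k40,k40,k60,k60,k48,k48,k45,k45,k48,k48] k0 [] k120 k6
    [[(k4,k60)],[(k5,k60)],[(k2,k40)],[(k3,k40)],[(k0,k60)],[(k1,k60)],[(k10,k24)],[(k6,k24),(k11,k24),(k8,k27),(k9,
    k27)],[(k6,k27),(k11,k27),(k8,k30),(k9,k30)],[(k6,k27),(k11,k27),(k8,k30),(k9,k30)],[(k6,k24),(k11,k24),(k8,k27),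
    (k9,k27)],[(k7,k24)]]
    [] k0
    [[k0,k2,k0,k0,k0,k0],[k0,k0,k0,k1,k0,k1],[k0,k0,k0,k2,k0,k2],[k0,k0,k0,k1,k1,k1],[k0,k0,k0,k1,k2,k1],[k0,k0,k0,k0,
    k2,k0],[k0,k0,k0,k0,k3,k0]]
    [.contra [z1],.contra [y1,y1,z0,z1],.ref k10 k0 [(z1,[z0,z1]),(z2,[y1,y2,z0,z2])],.contra [z1,z1,z1,y1],
    .ref k11 k0 [(z1,[z0,z1]),(z1,[z0,z0,z1]),(z1,[y3,y6,y2,z6])],.contra [z1],.ref k11 k0 [(z1,[z0,z1]),(z1,[z0,z0,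
    z1]),(z1,[y1,y3,y1,z3])]]),
    .old (.lp [k120,k30,k0,k24,k40,k24] [k0,k0,k45,k45,k60,k60,k48,k48,k40,k40,k48,k48] k0 [] k120 k6
    [[(k4,k60)],[(k5,k60)],[(k2,k30)],[(k3,k30)],[(k0,k60)],[(k1,k60)],[(k10,k24)],[(k6,k24),(k11,k24),(k8,k32),(k9,
    k32)],[(k6,k32),(k11,k32),(k8,k40),(k9,k40)],[(k6,k32),(k11,k32),(k8,k40),(k9,k40)],[(k6,k24),(k11,k24),(k8,k32),
    (k9,k32)],[(k7,k24)]]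
    [] k0
    [[k0,k2,k0,k0,k0,k0],[k0,k3,k0,k0,k0,k0],[k0,k0,k0,k1,k0,k1],[k0,k0,k0,k2,k0,k2],[k0,k0,k0,k1,k1,k1],[k0,k0,k0,k0,
    k2,k0]]
    [.contra [z1],.ref k12 k0 [(z1,[z0,z1]),(z1,[z1])],.contra [y1,y1,z1],.ref k10 k0 [(z1,[z0,z1]),(z2,[y1,y2,z2])],
    .contra [y1,y1,z1],.contra [z1]]),
    .old (.lp [k12,k8,k0,k6,k12,k6] [k0,k0,k2,k2,k6,k6,k3,k3,k0,k0,k3,k3] k0 [] k24 k5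
    [[(k4,k6)],[(k5,k6)],[(k2,k8)],[(k3,k8)],[(k0,k6)],[(k1,k6)],[(k10,k6)],[(k6,k6),(k11,k6),(k8,k9),(k9,k9)],[(k6,
    k9),(k11,k9),(k8,k12),(k9,k12)],[(k6,k9),(k11,k9),(k8,k12),(k9,k12)],[(k6,k6),(k11,k6),(k8,k9),(k9,k9)],[(k7,k6)]]
    [] k0
    [[k1,k0,k1,k0,k0,k0],[k0,k2,k0,k0,k0,k0],[k0,k0,k0,k1,k0,k1]]
    [.ref k13 k0 [(z1,[z1])],.contra [z1],.ref k6 k0 [(z1,[y1,z1])]])]⟩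

/-- classes `0 0 1 2 2 1`, types `N0 N1 N0 S0 S0 N2` -/
noncomputable def cU6_1643 : CertX :=
  ⟨[k12,k13,k28,k32,k32,k30],[],[[[]]],
    [.old (.lp [k6,k8,k6,k6,k12,k6] [k3,k3,k2,k2,k3,k3,k3,k3,k0,k0,k3,k3] k0 [] k24 k5
    [[(k7,k6)],[(k5,k6)],[(k2,k8)],[(k3,k8)],[(k0,k6)],[(k10,k6)],[(k1,k6)],[(k6,k6),(k11,k6),(k8,k9),(k9,k9)],[(k6,
    k9),(k11,k9),(k8,k12),(k9,k12)],[(k6,k9),(k11,k9),(k8,k12),(k9,k12)],[(k6,k6),(k11,k6),(k8,k9),(k9,k9)],[(k4,k6)]]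
    [] k0
    [[k0,k2,k0,k0,k0,k0]]
    [.contra [z1]])]⟩

/-- classes `0 0 1 2 2 1`, types `N0 N1 S0 N0 N1 S0` -/
noncomputable def cU6_1644 : CertX :=
  ⟨[k12,k13,k16,k44,k45,k16],[(false,k3,[k3,k4,k5,k0,k1,k2]),(false,k0,[k0,k1,k2,k3,k4,k5])],[[[([z1,z0,z1,z0,z0,z0],
    z1),([z0,z3,z0,z0,z0,z0],z2),([z0,z0,z0,z1,z0,z1],z2)],[([z3,z0,z3,z0,z0,z0],z2),([z0,z3,z0,z0,z0,z0],z2),([z0,z0,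
    z0,z1,z0,z1],z2)],[([z1,z0,z1,z0,z0,z0],z2),([z0,z3,z0,z3,z0,z3],z4)],[([z1,z0,z1,z0,z0,z0],z1),([z0,z3,z0,z0,z0,
    z0],z1),([z0,z0,z0,z1,z0,z1],z2)],[([z1,z0,z1,z0,z0,z0],z1),([z0,z2,z0,z0,z0,z0],z1),([z0,z0,z0,z1,z0,z1],z2)],
    [([z1,z0,z1,z0,z0,z0],z1),([z0,z1,z0,z0,z1,z0],z1)],[([z1,z0,z1,z0,z0,z0],z2)],[]]],
    [.old (.leafM k11 [k0,k1,k2,k4] [(z1,[z0,z1]),(z1,[y3,y1,y3,z3]),(z1,[z1])] [(k3,k5,z1,[z0,z0,z1]),(k5,k3,z1,[z0,z0,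
    z1])]),
    .old (.leafM k10 [k0,k1,k2,k4] [(z1,[z0,z1]),(z1,[y1,y1,y3,z3]),(z1,[z1])] [(k3,k5,z1,[z0,z0,z1]),(k5,k3,z1,[z0,z0,
    z1])]),
    .old (.lp [k96,k30,k24,k24,k40,k24] [k0,k0,k33,k33,k36,k36,k36,k36,k28,k28,k36,k36] k0 [] k120 k6
    [[(k4,k60),(k7,k60),(k10,k60),(k1,k96)],[(k5,k60)],[(k2,k30)],[(k3,k30)],[(k0,k60)],[(k4,k24),(k7,k24),(k10,k24),
    (k1,k60)],[(k4,k24),(k7,k24),(k10,k24),(k1,k60)],[(k11,k24)],[(k8,k40)],[(k9,k40)],[(k6,k24)],[(k4,k24),(k7,k24),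
    (k10,k24),(k1,k60)]]
    [] k0
    [[k0,k2,k0,k0,k0,k0],[k0,k3,k0,k0,k0,k0],[k0,k0,k0,k2,k0,k2],[k0,k0,k0,k1,k0,k1],[k0,k0,k0,k0,k2,k0]]
    [.contra [z1],.ref k1 k0 [(z1,[y1,z0,z1]),(z1,[z0,y3,y1,z3]),(z1,[z0,z1])],.ref k0 k0 [(z2,[z1]),(z1,[z0,y3,y1,
    z3]),(z1,[z0,z1])],.contra [y3,z1,z1],.contra [z1]]),
    .old (.leafM k11 [k2,k4,k0,k1] [(z1,[y3,y1,y3,z3]),(z1,[z0,z1]),(z1,[z1])] [(k3,k5,z1,[z0,z0,z1]),(k5,k3,z1,[z0,z0,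
    z1])]),
    .old (.leafM k12 [k0,k1,k2,k4] [(z1,[z0,z1]),(z1,[y2,y1,y2,z2]),(z1,[z1])] [(k3,k5,z1,[z0,z0,z1]),(k5,k3,z1,[z0,z0,
    z1])]),
    .old (.lp [k12,k10,k8,k8,k8,k32] [k10,k10,k11,k11,k12,k12,k12,k12,k12,k12,k0,k0] k0 [] k40 k6
    [[(k4,k10),(k7,k10),(k1,k12),(k10,k22)],[(k5,k10)],[(k2,k10)],[(k3,k10)],[(k0,k10)],[(k4,k8),(k7,k8),(k1,k10),
    (k10,k20)],[(k4,k8),(k7,k8),(k1,k10),(k10,k20)],[(k11,k20)],[(k8,k8)],[(k9,k8)],[(k6,k20)],[(k4,k20),(k7,k20),(k1,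
    k22),(k10,k32)]]
    [] k0
    [[k1,k0,k1,k0,k0,k0],[k0,k2,k0,k0,k0,k0],[k0,k3,k0,k0,k0,k0],[k0,k0,k0,k0,k2,k0],[k0,k0,k0,k0,k3,k0],[k0,k0,k0,k0,
    k4,k0]]
    [.contra [y1,z2],.contra [z1],.ref k2 k0 [(z1,[z0,y1,y1,z1]),(z1,[y1,z3,z3])],.contra [z1],.ref k3 k1 [(z1,[z0,
    z1]),(z1,[y1,z0,z3]),(z1,[z0,y1,y1,z1])],.ref k4 k1 [(z1,[z0,z1]),(z2,[y1,z0,z4]),(z1,[z0,y1,y1,z1])]]),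
    .old (.lp [k96,k40,k24,k24,k30,k24] [k0,k0,k28,k28,k36,k36,k36,k36,k33,k33,k36,k36] k0 [] k120 k6
    [[(k4,k60),(k7,k60),(k10,k60),(k1,k96)],[(k5,k60)],[(k2,k40)],[(k3,k40)],[(k0,k60)],[(k4,k24),(k7,k24),(k10,k24),
    (k1,k60)],[(k4,k24),(k7,k24),(k10,k24),(k1,k60)],[(k11,k24)],[(k8,k30)],[(k9,k30)],[(k6,k24)],[(k4,k24),(k7,k24),
    (k10,k24),(k1,k60)]]
    [] k0
    [[k0,k2,k0,k0,k0,k0],[k0,k0,k0,k2,k0,k2],[k0,k0,k0,k1,k0,k1],[k0,k0,k0,k0,k2,k0],[k0,k0,k0,k0,k3,k0]]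
    [.contra [z1],.ref k5 k0 [(z2,[z1]),(z2,[y1,y2,z2])],.contra [y1,y1,z1],.contra [z1],.ref k2 k1 [(z1,[z0,z1]),(z1,
    [y1,y3,z3])]]),
    .old (.lp [k6,k8,k6,k6,k12,k6] [k3,k3,k2,k2,k3,k3,k3,k3,k0,k0,k3,k3] k0 [] k24 k5
    [[(k1,k6),(k4,k6),(k7,k6),(k10,k6)],[(k5,k6)],[(k2,k8)],[(k3,k8)],[(k0,k6)],[(k1,k6),(k4,k6),(k7,k6),(k10,k6)],
    [(k1,k6),(k4,k6),(k7,k6),(k10,k6)],[(k11,k6)],[(k8,k12)],[(k9,k12)],[(k6,k6)],[(k1,k6),(k4,k6),(k7,k6),(k10,k6)]]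
    [] k0
    [[k1,k0,k1,k0,k0,k0],[k0,k2,k0,k0,k0,k0],[k0,k0,k0,k1,k0,k1]]
    [.ref k6 k1 [(z1,[z1])],.contra [z1],.ref k6 k0 [(z1,[z1])]])]⟩

/-- classes `0 0 1 2 2 1`, types `N0 N1 S0 N0 N2 S0` -/
noncomputable def cU6_1645 : CertX :=
  ⟨[k12,k13,k16,k44,k46,k16],[(false,k0,[k0,k1,k2,k3,k4,k5])],[[[([z1,z0,z1,z0,z0,z0],z2)],[]]],
    [.old (.lp [k24,k10,k6,k6,k6,k6] [k0,k0,k7,k7,k9,k9,k9,k9,k9,k9,k9,k9] k0 [] k30 k6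
    [[(k4,k15),(k7,k15),(k10,k15),(k1,k24)],[(k5,k15)],[(k2,k10)],[(k3,k10)],[(k0,k15)],[(k4,k6),(k7,k6),(k10,k6),(k1,
    k15)],[(k4,k6),(k7,k6),(k10,k6),(k1,k15)],[(k8,k6)],[(k11,k6)],[(k6,k6)],[(k9,k6)],[(k4,k6),(k7,k6),(k10,k6),(k1,
    k15)]]
    [] k0
    [[k0,k2,k0,k0,k0,k0],[k0,k0,k0,k1,k1,k1]]
    [.contra [z1],.contra [y1,y1,z1]]),
    .old (.lp [k6,k8,k6,k6,k6,k12] [k3,k3,k2,k2,k3,k3,k3,k3,k3,k3,k0,k0] k0 [] k24 k5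
    [[(k1,k6),(k4,k6),(k7,k6),(k10,k9)],[(k5,k6)],[(k2,k8)],[(k3,k8)],[(k0,k6)],[(k1,k6),(k4,k6),(k7,k6),(k10,k9)],
    [(k1,k6),(k4,k6),(k7,k6),(k10,k9)],[(k8,k6)],[(k11,k9)],[(k6,k6)],[(k9,k9)],[(k1,k9),(k4,k9),(k7,k9),(k10,k12)]]
    [] k0
    [[k1,k0,k1,k0,k0,k0],[k0,k2,k0,k0,k0,k0]]
    [.ref k0 k0 [(z1,[z1])],.contra [z1]])]⟩

/-- classes `0 0 1 2 2 1`, types `N0 N1 S0 S0 S0 S0` -/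
noncomputable def cU6_1646 : CertX :=
  ⟨[k12,k13,k16,k32,k32,k16],[(false,k0,[k0,k1,k2,k3,k4,k5])],[[[([z3,z0,z3,z0,z0,z0],z2),([z0,z3,z0,z0,z0,z0],z2),
    ([z0,z0,z0,z1,z0,z1],z2)],[([z1,z0,z1,z0,z0,z0],z1),([z0,z3,z0,z0,z0,z0],z2),([z0,z0,z0,z1,z0,z1],z2)],[([z3,z0,
    z3,z0,z3,z0],z4),([z0,z3,z0,z0,z0,z0],z2)],[([z1,z0,z1,z0,z0,z0],z1),([z0,z3,z0,z0,z0,z0],z1),([z0,z0,z0,z1,z0,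
    z1],z2)],[([z1,z0,z1,z0,z0,z0],z1),([z0,z2,z0,z0,z0,z0],z1),([z0,z0,z0,z1,z0,z1],z2)],[([z1,z0,z1,z0,z0,z0],z1),
    ([z0,z1,z0,z0,z1,z0],z1)],[([z1,z1,z1,z0,z1,z0],z2)],[([z1,z0,z1,z0,z0,z0],z2),([z0,z3,z0,z0,z0,z0],z1),([z0,z0,
    z0,z1,z0,z1],z1)],[([z1,z0,z1,z0,z0,z0],z2),([z0,z3,z0,z0,z0,z0],z2),([z0,z0,z0,z1,z0,z1],z1)],[([z1,z0,z1,z0,z0,
    z0],z2),([z0,z2,z0,z0,z0,z0],z1),([z0,z0,z0,z1,z0,z1],z1)],[([z1,z0,z1,z0,z0,z0],z2),([z0,z1,z0,z0,z1,z0],z1)],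
    [([z1,z0,z1,z0,z0,z0],z2),([z0,z3,z0,z0,z0,z0],z2),([z0,z0,z0,z3,z0,z3],z2)]],[[([z1,z0,z1,z0,z0,z0],z2),([z0,z3,
    z0,z0,z0,z0],z2)],[([z1,z0,z1,z0,z0,z0],z2)],[]]],
    [.old (.leafM k10 [k0,k1,k2,k4] [(z1,[z0,z1]),(z1,[y1,y1,y3,z3]),(z1,[z1])] [(k3,k5,z1,[z0,z0,z1]),(k5,k3,z1,[z0,z0,
    z1])]),
    .old (.leafM k11 [k0,k1,k2,k4] [(z1,[z0,z1]),(z1,[y3,y1,y3,z3]),(z1,[z1])] [(k3,k5,z1,[z0,z0,z1]),(k5,k3,z1,[z0,z0,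
    z1])]),
    .old (.lp [k24,k40,k24,k60,k30,k60] [k18,k18,k10,k10,k18,k18,k0,k0,k15,k15,k0,k0] k0 [] k120 k6
    [[(k1,k24),(k4,k24),(k7,k42),(k10,k42)],[(k5,k24)],[(k2,k40)],[(k3,k40)],[(k0,k24)],[(k1,k24),(k4,k24),(k7,k42),
    (k10,k42)],[(k1,k42),(k4,k42),(k7,k60),(k10,k60)],[(k8,k45),(k9,k45),(k6,k60),(k11,k60)],[(k8,k30),(k9,k30),(k6,
    k45),(k11,k45)],[(k8,k30),(k9,k30),(k6,k45),(k11,k45)],[(k8,k45),(k9,k45),(k6,k60),(k11,k60)],[(k1,k42),(k4,k42),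
    (k7,k60),(k10,k60)]]
    [] k0
    [[k2,k0,k2,k0,k0,k0],[k1,k0,k1,k0,k0,k0],[k0,k2,k0,k0,k0,k0],[k0,k0,k0,k0,k2,k0],[k0,k0,k0,k0,k3,k0]]
    [.ref k1 k0 [(z2,[z1]),(z1,[z0,z0,z1]),(z3,[z0,y1,y1,z3])],.contra [y3,z1,z1],.contra [z1],.contra [z1],
    .ref k0 k0 [(z1,[y1,z1]),(z1,[z0,z0,z1]),(z3,[z0,y1,y1,z3])]]),
    .old (.leafM k11 [k2,k4,k0,k1] [(z1,[y3,y1,y3,z3]),(z1,[z0,z1]),(z1,[z1])] [(k3,k5,z1,[z0,z0,z1]),(k5,k3,z1,[z0,z0,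
    z1])]),
    .old (.leafM k12 [k0,k1,k2,k4] [(z1,[z0,z1]),(z1,[y2,y1,y2,z2]),(z1,[z1])] [(k3,k5,z1,[z0,z0,z1]),(k5,k3,z1,[z0,z0,
    z1])]),
    .old (.lp [k8,k8,k12,k20,k10,k20] [k6,k6,k6,k6,k4,k4,k0,k0,k5,k5,k0,k0] k0 [] k40 k6
    [[(k1,k8),(k4,k10),(k7,k14),(k10,k14)],[(k5,k10)],[(k2,k8)],[(k3,k8)],[(k0,k10)],[(k1,k10),(k4,k12),(k7,k16),(k10,
    k16)],[(k1,k14),(k4,k16),(k7,k20),(k10,k20)],[(k8,k15),(k9,k15),(k6,k20),(k11,k20)],[(k8,k10),(k9,k10),(k6,k15),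
    (k11,k15)],[(k8,k10),(k9,k10),(k6,k15),(k11,k15)],[(k8,k15),(k9,k15),(k6,k20),(k11,k20)],[(k1,k14),(k4,k16),(k7,
    k20),(k10,k20)]]
    [] k0
    [[k1,k0,k1,k0,k0,k0],[k0,k2,k0,k0,k0,k0],[k0,k3,k0,k0,k0,k0],[k0,k4,k0,k0,k0,k0],[k0,k0,k0,k0,k2,k0],[k0,k0,k0,k0,
    k3,k0]]
    [.contra [y1,z2],.contra [z1],.ref k2 k0 [(z1,[y1,z3,z3]),(z1,[z1])],.ref k4 k0 [(z1,[z0,z1]),(z2,[z1]),(z1,[z0,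
    y1,y1,z1])],.contra [z1],.ref k3 k0 [(z1,[z0,z1]),(z1,[y1,z0,z3]),(z1,[z0,y1,y1,z1])]]),
    .old (.lp [k24,k30,k24,k60,k40,k60] [k18,k18,k15,k15,k18,k18,k0,k0,k10,k10,k0,k0] k0 [] k120 k6
    [[(k1,k24),(k4,k24),(k7,k42),(k10,k42)],[(k5,k24)],[(k2,k30)],[(k3,k30)],[(k0,k24)],[(k1,k24),(k4,k24),(k7,k42),
    (k10,k42)],[(k1,k42),(k4,k42),(k7,k60),(k10,k60)],[(k8,k50),(k9,k50),(k6,k60),(k11,k60)],[(k8,k40),(k9,k40),(k6,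
    k50),(k11,k50)],[(k8,k40),(k9,k40),(k6,k50),(k11,k50)],[(k8,k50),(k9,k50),(k6,k60),(k11,k60)],[(k1,k42),(k4,k42),
    (k7,k60),(k10,k60)]]
    [] k0
    [[k2,k0,k2,k0,k0,k0],[k1,k0,k1,k0,k0,k0],[k0,k2,k0,k0,k0,k0],[k0,k3,k0,k0,k0,k0],[k0,k0,k0,k0,k2,k0]]
    [.ref k5 k0 [(z2,[z1]),(z2,[y1,z2])],.contra [y1,z1],.contra [z1],.ref k2 k0 [(z1,[y1,z3]),(z1,[z1])],
    .contra [z1]]),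
    .old (.leafM k11 [k3,k4,k5,k1] [(z1,[y3,y1,y3,z3]),(z1,[z0,z1]),(z1,[z0,z0,z1])] [(k0,k2,z1,[z1]),(k2,k0,z1,[z1])]),
    .old (.leafM k8 [k5,k1,k3,k4] [(z1,[z0,z1]),(z1,[y3,y1,y3,z3]),(z1,[z0,z0,z1])] [(k0,k2,z1,[z1]),(k2,k0,z1,[z1])]),
    .old (.leafM k9 [k5,k1,k3,k4] [(z1,[z0,z1]),(z1,[y2,y1,y2,z2]),(z1,[z0,z0,z1])] [(k0,k2,z1,[z1]),(k2,k0,z1,[z1])]),
    .old (.lp [k168,k168,(nat_lit 252),(nat_lit 420),(nat_lit 210),(nat_lit 420)] [(nat_lit 246),(nat_lit 246),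
    (nat_lit 246),(nat_lit 246),(nat_lit 204),(nat_lit 204),(nat_lit 240),k0,(nat_lit 225),(nat_lit 225),k50,
    k190] k0 [[],[],[],[],[],[k0,k0,k0,k0,k0,k0,k0,k0,k0,k0,k0,(nat_lit 420)],[],[],[],[],[k0,k0,k0,k0,
    (nat_lit 420)]] (nat_lit 840) k6
    [[(k1,k168),(k10,(nat_lit 364)),(k7,(nat_lit 414)),(k4,(nat_lit 630))],[(k5,(nat_lit 210))],[(k2,k168)],[(k3,
    k168)],[(k0,(nat_lit 210))],[(k4,(nat_lit 252)),(k10,(nat_lit 406)),(k7,(nat_lit 456)),(k1,(nat_lit 630))],[(k10,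
    k190),(k1,(nat_lit 414)),(k4,(nat_lit 456)),(k7,(nat_lit 660))],[(k6,k180),(k8,k195),(k9,k195),(k11,
    (nat_lit 230))],[(k6,k195),(k8,(nat_lit 210)),(k9,(nat_lit 210)),(k11,(nat_lit 245))],[(k6,k195),(k8,
    (nat_lit 210)),(k9,(nat_lit 210)),(k11,(nat_lit 245))],[(k6,(nat_lit 230)),(k8,(nat_lit 245)),(k9,(nat_lit 245)),
    (k11,(nat_lit 280))],[(k7,k190),(k1,(nat_lit 364)),(k4,(nat_lit 406)),(k10,(nat_lit 560))]]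
    [] k0
    [[k0,k2,k0,k0,k0,k0],[k0,k3,k0,k0,k0,k0],[k0,k4,k0,k0,k0,k0],[k0,k0,k0,k1,k0,k1],[k0,k0,k0,k1,k1,k1],[k0,k0,k0,k0,
    k2,k0],[k0,k0,k0,k0,k3,k0]]
    [.contra [z1],.ref k8 k0 [(z1,[z0,z1]),(z1,[z1]),(z1,[z0,y1,y1,z1])],.ref k9 k0 [(z1,[z0,z1]),(z2,[z1]),(z1,[z0,
    y1,y1,z1])],.contra [y2,y1,y2,z2],.contra [z1,z1,z1,y1],.contra [z1],.ref k7 k0 [(z1,[z0,z1]),(z1,[y1,z0,z3]),(z1,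
    [z0,y1,y1,z1])]]),
    .old (.leafM k10 [k3,k4,k5,k1] [(z1,[y3,y1,y1,z3]),(z1,[z0,z1]),(z1,[z0,z0,z1])] [(k0,k2,z1,[z1]),(k2,k0,z1,[z1])]),
    .old (.lp [(nat_lit 7728),(nat_lit 12880),(nat_lit 12880),(nat_lit 14490),(nat_lit 9660),
    (nat_lit 19320)] [(nat_lit 11316),(nat_lit 11316),(nat_lit 8740),(nat_lit 8740),(nat_lit 8740),(nat_lit 8740),
    (nat_lit 11295),(nat_lit 4575),(nat_lit 10350),(nat_lit 10350),k0,(nat_lit 11040)] k0 [[],[],[],[],[],[k0,k0,k0,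
    k0,k0,k0,k0,k0,k0,k0,k0,(nat_lit 18032)],[],[],[],[],[k0,k0,k0,k0,(nat_lit 18032)]] (nat_lit 38640) k6
    [[(k1,(nat_lit 7728)),(k7,(nat_lit 14469)),(k10,(nat_lit 19044)),(k4,(nat_lit 28336))],[(k5,(nat_lit 10304))],
    [(k2,(nat_lit 12880))],[(k3,(nat_lit 12880))],[(k0,(nat_lit 10304))],[(k4,(nat_lit 12880)),(k7,(nat_lit 17045)),
    (k10,(nat_lit 21620)),(k1,(nat_lit 28336))],[(k10,(nat_lit 7753)),(k1,(nat_lit 14469)),(k4,(nat_lit 17045)),(k7,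
    (nat_lit 21210))],[(k6,(nat_lit 7770)),(k11,(nat_lit 8025)),(k8,(nat_lit 8715)),(k9,(nat_lit 8715))],[(k6,
    (nat_lit 8715)),(k11,(nat_lit 8970)),(k8,(nat_lit 9660)),(k9,(nat_lit 9660))],[(k6,(nat_lit 8715)),(k11,
    (nat_lit 8970)),(k8,(nat_lit 9660)),(k9,(nat_lit 9660))],[(k6,(nat_lit 8025)),(k11,(nat_lit 8280)),(k8,
    (nat_lit 8970)),(k9,(nat_lit 8970))],[(k7,(nat_lit 7753)),(k1,(nat_lit 19044)),(k4,(nat_lit 21620)),(k10,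
    (nat_lit 30360))]]
    [] k0
    [[k0,k2,k0,k0,k0,k0],[k0,k0,k0,k2,k0,k0],[k0,k0,k0,k1,k0,k1],[k0,k0,k0,k2,k0,k2],[k0,k0,k0,k1,k1,k1],[k0,k0,k0,k1,
    k2,k1],[k0,k0,k0,k0,k2,k0],[k0,k0,k0,k0,k3,k0]]
    [.contra [z1],.contra [z1],.contra [y1,y1,z0,z1],.ref k10 k0 [(z1,[z0,z1]),(z2,[y1,y2,z0,z2])],.contra [z1,z1,z1,
    y1],.ref k11 k0 [(z1,[z0,z1]),(z1,[z0,z0,z1]),(z1,[y3,y6,y2,z6])],.contra [z1],.ref k11 k0 [(z1,[z0,z1]),(z1,[z0,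
    z0,z1]),(z1,[y1,y3,y1,z3])]]),
    .old (.lp [(nat_lit 2352),(nat_lit 2940),(nat_lit 2450),(nat_lit 5880),(nat_lit 3920),(nat_lit 5880)] [(nat_lit 3528),
    (nat_lit 3528),(nat_lit 3234),(nat_lit 3234),(nat_lit 3479),(nat_lit 3479),(nat_lit 3528),k0,(nat_lit 2744),
    (nat_lit 2744),k84,(nat_lit 3444)] k0 [[],[],[],[],[],[k0,k0,k0,k0,k0,k0,k0,k0,k0,k0,k0,(nat_lit 6960)],[],[],[],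
    [],[k0,k0,k0,k0,(nat_lit 6960)]] (nat_lit 11760) k6
    [[(k1,(nat_lit 2352)),(k10,(nat_lit 5796)),(k7,(nat_lit 5880)),(k4,(nat_lit 9361))],[(k5,(nat_lit 2401))],[(k2,
    (nat_lit 2940))],[(k3,(nat_lit 2940))],[(k0,(nat_lit 2401))],[(k4,(nat_lit 2450)),(k10,(nat_lit 5845)),(k7,
    (nat_lit 5929)),(k1,(nat_lit 9361))],[(k10,(nat_lit 2364)),(k1,(nat_lit 5880)),(k4,(nat_lit 5929)),(k7,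
    (nat_lit 9408))],[(k6,(nat_lit 2352)),(k11,(nat_lit 2436)),(k8,(nat_lit 3136)),(k9,(nat_lit 3136))],[(k6,
    (nat_lit 3136)),(k11,(nat_lit 3220)),(k8,(nat_lit 3920)),(k9,(nat_lit 3920))],[(k6,(nat_lit 3136)),(k11,
    (nat_lit 3220)),(k8,(nat_lit 3920)),(k9,(nat_lit 3920))],[(k6,(nat_lit 2436)),(k11,(nat_lit 2520)),(k8,
    (nat_lit 3220)),(k9,(nat_lit 3220))],[(k7,(nat_lit 2364)),(k1,(nat_lit 5796)),(k4,(nat_lit 5845)),(k10,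
    (nat_lit 9240))]]
    [] k0
    [[k2,k0,k2,k0,k0,k0],[k0,k2,k0,k0,k0,k0],[k0,k3,k0,k0,k0,k0],[k0,k0,k0,k1,k0,k1],[k0,k0,k0,k2,k0,k2],[k0,k0,k0,k1,
    k1,k1],[k0,k0,k0,k0,k2,k0]]
    [.contra [z1,y1],.contra [z1],.ref k12 k0 [(z1,[z0,z1]),(z1,[z1])],.contra [y1,y1,z1],.ref k10 k0 [(z1,[z0,z1]),
    (z2,[y1,y2,z2])],.contra [y1,y1,z1],.contra [z1]]),
    .old (.lp [k6,k8,k6,k6,k12,k6] [k3,k3,k2,k2,k3,k3,k3,k3,k0,k0,k3,k3] k0 [] k24 k5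
    [[(k1,k6),(k4,k6),(k7,k6),(k10,k6)],[(k5,k6)],[(k2,k8)],[(k3,k8)],[(k0,k6)],[(k1,k6),(k4,k6),(k7,k6),(k10,k6)],
    [(k1,k6),(k4,k6),(k7,k6),(k10,k6)],[(k6,k6),(k11,k6),(k8,k9),(k9,k9)],[(k6,k9),(k11,k9),(k8,k12),(k9,k12)],[(k6,
    k9),(k11,k9),(k8,k12),(k9,k12)],[(k6,k6),(k11,k6),(k8,k9),(k9,k9)],[(k1,k6),(k4,k6),(k7,k6),(k10,k6)]]
    [] k0
    [[k1,k0,k1,k0,k0,k0],[k0,k2,k0,k0,k0,k0],[k0,k0,k0,k2,k0,k0],[k0,k0,k0,k1,k0,k1],[k0,k0,k0,k0,k0,k2]]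
    [.ref k13 k0 [(z1,[z1])],.contra [z1],.contra [z1],.ref k6 k0 [(z1,[y1,z1])],.contra [z1]])]⟩

/-- classes `0 0 1 2 2 1`, types `N0 N2 B0 N0 N2 B1` -/
noncomputable def cU6_1647 : CertX :=
  ⟨[k12,k14,k24,k44,k46,k25],[(false,k0,[k0,k1,k2,k3,k4,k5])],[[[([z1,z1,z1,z0,z0,z0],z2)],[]]],
    [.old (.leafM k6 [k0,k1,k2,k3,k4,k5] [(z1,[y1,z1])] []),
    .old (.lp [k4,k0,k4,k2,k2,k2] [k0,k0,k2,k2,k0,k0,k1,k1,k1,k1,k1,k1] k0 [] k8 k5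
    [[(k7,k3),(k4,k4)],[(k2,k2)],[(k5,k2)],[(k0,k2)],[(k3,k2)],[(k10,k3),(k1,k4)],[(k10,k2),(k1,k3)],[(k8,k2)],[(k11,
    k2)],[(k6,k2)],[(k9,k2)],[(k7,k2),(k4,k3)]]
    [] k0
    [[k0,k0,k0,k1,k1,k1]]
    [.ref k0 k0 [(z1,[y1,z1])]])]⟩

/-- classes `0 0 1 2 2 1`, types `N0 N2 B0 S0 S0 B1` -/
noncomputable def cU6_1648 : CertX :=
  ⟨[k12,k14,k24,k32,k32,k25],[(false,k0,[k0,k1,k2,k3,k4,k5])],[[[([z1,z1,z1,z0,z0,z0],z2)],[]]],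
    [.old (.leafM k4 [k0,k1,k2,k3,k4,k5] [(z1,[y1,z1])] []),
    .old (.lp [k6,k6,k6,k6,k10,k24] [k9,k9,k9,k9,k9,k9,k9,k9,k7,k7,k0,k0] k0 [] k30 k6
    [[(k4,k6),(k7,k6)],[(k2,k6)],[(k5,k6)],[(k0,k6)],[(k3,k6)],[(k1,k6),(k10,k15)],[(k1,k6),(k10,k15)],[(k6,k6),(k8,
    k8),(k9,k8),(k11,k15)],[(k6,k8),(k8,k10),(k9,k10),(k11,k17)],[(k6,k8),(k8,k10),(k9,k10),(k11,k17)],[(k6,k15),(k8,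
    k17),(k9,k17),(k11,k24)],[(k4,k15),(k7,k15)]]
    [] k0
    [[k1,k1,k1,k0,k0,k0],[k0,k0,k0,k0,k2,k0]]
    [.ref k0 k0 [(z1,[z1])],.contra [z1]])]⟩

/-- classes `0 0 1 2 2 1`, types `N0 N2 C0 N0 N2 C0` -/
noncomputable def cU6_1649 : CertX :=
  ⟨[k12,k14,k20,k44,k46,k20],[(false,k0,[k0,k1,k2,k3,k4,k5])],[[[([z1,z1,z1,z0,z0,z0],z2)],[]]],
    [.old (.leafM k6 [k0,k1,k2,k3,k4,k5] [(z1,[y1,z1])] []),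
    .old (.lp [k4,k2,k2,k2,k2,k2] [k0,k0,k1,k1,k1,k1,k1,k1,k1,k1,k1,k1] k0 [] k8 k5
    [[(k4,k3),(k10,k3)],[(k2,k3)],[(k5,k2)],[(k0,k3)],[(k3,k2)],[(k7,k2),(k1,k3)],[(k4,k2),(k10,k2)],[(k8,k2)],[(k11,
    k2)],[(k6,k2)],[(k9,k2)],[(k7,k2),(k1,k3)]]
    [] k0
    [[k0,k0,k0,k1,k1,k1]]
    [.ref k0 k0 [(z1,[y1,z1])]])]⟩

/-- classes `0 0 1 2 2 1`, types `N0 N2 C0 N0 N2 C2` -/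
noncomputable def cU6_1650 : CertX :=
  ⟨[k12,k14,k20,k44,k46,k22],[],[[[]]],
    [.old (.lp [k2,k0,k2,k0,k2,k0] [k0,k0,k1,k1,k0,k0,k1,k1,k0,k0,k1,k1] k0 [] k4 k5
    [[(k7,k1),(k10,k1)],[(k2,k1)],[(k5,k1)],[(k0,k1)],[(k3,k1)],[(k7,k1),(k10,k1)],[(k1,k1),(k4,k1)],[(k8,k1)],[(k11,
    k1)],[(k6,k1)],[(k9,k1)],[(k1,k1),(k4,k1)]]
    [] k0
    []
    [])]⟩

/-- classes `0 0 1 2 2 1`, types `N0 N2 C0 S0 S0 C0` -/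
noncomputable def cU6_1651 : CertX :=
  ⟨[k12,k14,k20,k32,k32,k20],[(false,k0,[k0,k1,k2,k3,k4,k5])],[[[([z1,z1,z1,z0,z0,z0],z2)],[]]],
    [.old (.leafM k4 [k0,k1,k2,k3,k4,k5] [(z1,[y1,z1])] []),
    .old (.lp [k6,k6,k6,k6,k10,k24] [k9,k9,k9,k9,k9,k9,k9,k9,k7,k7,k0,k0] k0 [] k30 k6
    [[(k4,k6),(k10,k15)],[(k2,k6)],[(k5,k6)],[(k0,k6)],[(k3,k6)],[(k1,k6),(k7,k6)],[(k4,k6),(k10,k15)],[(k6,k6),(k8,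
    k8),(k9,k8),(k11,k15)],[(k6,k8),(k8,k10),(k9,k10),(k11,k17)],[(k6,k8),(k8,k10),(k9,k10),(k11,k17)],[(k6,k15),(k8,
    k17),(k9,k17),(k11,k24)],[(k1,k15),(k7,k15)]]
    [] k0
    [[k1,k1,k1,k0,k0,k0],[k0,k0,k0,k0,k2,k0]]
    [.ref k0 k0 [(z1,[z1])],.contra [z1]])]⟩

/-- classes `0 0 1 2 2 1`, types `N0 N2 C0 S0 S0 C2` -/
noncomputable def cU6_1652 : CertX :=
  ⟨[k12,k14,k20,k32,k32,k22],[],[[[]]],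
    [.old (.lp [k2,k2,k2,k2,k4,k2] [k1,k1,k1,k1,k1,k1,k1,k1,k0,k0,k1,k1] k0 [] k8 k5
    [[(k7,k2),(k10,k2)],[(k2,k2)],[(k5,k2)],[(k0,k2)],[(k3,k2)],[(k7,k2),(k10,k2)],[(k1,k2),(k4,k2)],[(k6,k2),(k11,
    k2),(k8,k3),(k9,k3)],[(k6,k3),(k11,k3),(k8,k4),(k9,k4)],[(k6,k3),(k11,k3),(k8,k4),(k9,k4)],[(k6,k2),(k11,k2),(k8,
    k3),(k9,k3)],[(k1,k2),(k4,k2)]]
    [] k0
    []
    [])]⟩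

/-- classes `0 0 1 2 2 1`, types `N0 N2 N0 N0 N2 N1` -/
noncomputable def cU6_1653 : CertX :=
  ⟨[k12,k14,k28,k44,k46,k29],[(false,k0,[k0,k1,k2,k3,k4,k5])],[[[([z1,z1,z1,z0,z0,z0],z2)],[]]],
    [.old (.leafM k6 [k0,k1,k2,k3,k4,k5] [(z1,[y1,z1])] []),
    .old (.lp [k4,k4,k0,k2,k2,k2] [k0,k0,k0,k0,k2,k2,k1,k1,k1,k1,k1,k1] k0 [] k8 k5
    [[(k4,k2)],[(k2,k4)],[(k5,k2)],[(k0,k4)],[(k3,k2)],[(k1,k2)],[(k10,k2)],[(k8,k2)],[(k11,k2)],[(k6,k2)],[(k9,k2)],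
    [(k7,k2)]]
    [] k0
    [[k0,k0,k0,k1,k1,k1]]
    [.ref k0 k0 [(z1,[y1,z1])]])]⟩

/-- classes `0 0 1 2 2 1`, types `N0 N2 N0 N0 N2 N2` -/
noncomputable def cU6_1654 : CertX :=
  ⟨[k12,k14,k28,k44,k46,k30],[],[[[]]],
    [.old (.lp [k2,k0,k2,k0,k2,k0] [k0,k0,k1,k1,k0,k0,k1,k1,k0,k0,k1,k1] k0 [] k4 k5
    [[(k7,k1)],[(k2,k1)],[(k5,k1)],[(k0,k1)],[(k3,k1)],[(k10,k1)],[(k1,k1)],[(k8,k1)],[(k11,k1)],[(k6,k1)],[(k9,k1)],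
    [(k4,k1)]]
    [] k0
    []
    [])]⟩

/-- classes `0 0 1 2 2 1`, types `N0 N2 N0 S0 S0 N1` -/
noncomputable def cU6_1655 : CertX :=
  ⟨[k12,k14,k28,k32,k32,k29],[(false,k0,[k0,k1,k2,k3,k4,k5])],[[[([z1,z1,z1,z0,z0,z0],z2)],[]]],
    [.old (.leafM k4 [k0,k1,k2,k3,k4,k5] [(z1,[y1,z1])] []),
    .old (.lp [k6,k6,k6,k6,k10,k24] [k9,k9,k9,k9,k9,k9,k9,k9,k7,k7,k0,k0] k0 [] k30 k6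
    [[(k4,k6)],[(k2,k6)],[(k5,k6)],[(k0,k6)],[(k3,k6)],[(k1,k6)],[(k10,k15)],[(k6,k6),(k8,k8),(k9,k8),(k11,k15)],[(k6,
    k8),(k8,k10),(k9,k10),(k11,k17)],[(k6,k8),(k8,k10),(k9,k10),(k11,k17)],[(k6,k15),(k8,k17),(k9,k17),(k11,k24)],
    [(k7,k15)]]
    [] k0
    [[k1,k1,k1,k0,k0,k0],[k0,k0,k0,k0,k2,k0]]
    [.ref k0 k0 [(z1,[z1])],.contra [z1]])]⟩

/-- classes `0 0 1 2 2 1`, types `N0 N2 N0 S0 S0 N2` -/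
noncomputable def cU6_1656 : CertX :=
  ⟨[k12,k14,k28,k32,k32,k30],[],[[[]]],
    [.old (.lp [k2,k2,k2,k2,k4,k2] [k1,k1,k1,k1,k1,k1,k1,k1,k0,k0,k1,k1] k0 [] k8 k5
    [[(k7,k2)],[(k2,k2)],[(k5,k2)],[(k0,k2)],[(k3,k2)],[(k10,k2)],[(k1,k2)],[(k6,k2),(k11,k2),(k8,k3),(k9,k3)],[(k6,
    k3),(k11,k3),(k8,k4),(k9,k4)],[(k6,k3),(k11,k3),(k8,k4),(k9,k4)],[(k6,k2),(k11,k2),(k8,k3),(k9,k3)],[(k4,k2)]]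
    [] k0
    []
    [])]⟩

/-- classes `0 0 1 2 2 1`, types `N0 N2 S0 N0 N2 S0` -/
noncomputable def cU6_1657 : CertX :=
  ⟨[k12,k14,k16,k44,k46,k16],[(false,k0,[k0,k1,k2,k3,k4,k5])],[[[([z1,z1,z1,z0,z0,z0],z2)],[]]],
    [.old (.leafM k6 [k0,k1,k2,k3,k4,k5] [(z1,[y1,z1])] []),
    .old (.lp [k4,k2,k2,k2,k2,k2] [k0,k0,k1,k1,k1,k1,k1,k1,k1,k1,k1,k1] k0 [] k8 k5
    [[(k4,k3),(k7,k3),(k10,k3),(k1,k4)],[(k2,k3)],[(k5,k2)],[(k0,k3)],[(k3,k2)],[(k4,k2),(k7,k2),(k10,k2),(k1,k3)],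
    [(k4,k2),(k7,k2),(k10,k2),(k1,k3)],[(k8,k2)],[(k11,k2)],[(k6,k2)],[(k9,k2)],[(k4,k2),(k7,k2),(k10,k2),(k1,k3)]]
    [] k0
    [[k0,k0,k0,k1,k1,k1]]
    [.ref k0 k0 [(z1,[y1,z1])]])]⟩

/-- classes `0 0 1 2 2 1`, types `N0 N2 S0 S0 S0 S0` -/
noncomputable def cU6_1658 : CertX :=
  ⟨[k12,k14,k16,k32,k32,k16],[(false,k0,[k0,k1,k2,k3,k4,k5])],[[[([z1,z1,z1,z0,z0,z0],z2)],[]]],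
    [.old (.leafM k4 [k0,k1,k2,k3,k4,k5] [(z1,[y1,z1])] []),
    .old (.lp [k12,k12,k12,k30,k20,k30] [k9,k9,k9,k9,k9,k9,k0,k0,k5,k5,k0,k0] k0 [] k60 k6
    [[(k1,k12),(k4,k12),(k7,k21),(k10,k21)],[(k2,k12)],[(k5,k12)],[(k0,k12)],[(k3,k12)],[(k1,k12),(k4,k12),(k7,k21),
    (k10,k21)],[(k1,k21),(k4,k21),(k7,k30),(k10,k30)],[(k8,k25),(k9,k25),(k6,k30),(k11,k30)],[(k8,k20),(k9,k20),(k6,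
    k25),(k11,k25)],[(k8,k20),(k9,k20),(k6,k25),(k11,k25)],[(k8,k25),(k9,k25),(k6,k30),(k11,k30)],[(k1,k21),(k4,k21),
    (k7,k30),(k10,k30)]]
    [] k0
    [[k1,k1,k1,k0,k0,k0],[k0,k0,k0,k0,k2,k0]]
    [.ref k0 k0 [(z1,[z1])],.contra [z1]])]⟩

/-- classes `0 0 1 2 2 1`, types `S0 S0 B0 S0 S0 B1` -/
noncomputable def cU6_1659 : CertX :=
  ⟨[k0,k0,k24,k32,k32,k25],[(false,k0,[k0,k1,k2,k3,k4,k5]),(false,k3,[k3,k4,k5,k0,k1,k2])],[[[([z1,z1,z1,z0,z0,z0],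
    z2)],[([z1,z0,z1,z0,z0,z0],z1),([z0,z3,z0,z0,z0,z0],z1),([z0,z0,z0,z1,z0,z1],z2)],[([z1,z0,z1,z0,z0,z0],z1),([z0,
    z2,z0,z0,z0,z0],z1),([z0,z0,z0,z1,z0,z1],z2)],[([z1,z0,z1,z0,z0,z0],z1),([z0,z3,z0,z0,z0,z0],z2),([z0,z0,z0,z1,z0,
    z1],z2)],[([z1,z0,z1,z0,z0,z0],z1),([z0,z1,z0,z0,z1,z0],z1)],[([z3,z0,z3,z0,z0,z0],z2),([z0,z3,z0,z0,z0,z0],z2),
    ([z0,z0,z0,z1,z0,z1],z2)],[([z1,z0,z1,z0,z0,z0],z2),([z0,z3,z0,z0,z0,z0],z2)],[([z1,z0,z1,z0,z0,z0],z2)],[]]],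
    [.old (.leafM k0 [k2,k3,k4,k5,k0,k1] [(z1,[y1,z1])] []),
    .old (.leafM k8 [k2,k4,k0,k1] [(z1,[y3,y1,y3,z3]),(z1,[z0,z1]),(z1,[z1])] [(k3,k5,z1,[z0,z0,z1]),(k5,k3,z1,[z0,z0,
    z1])]),
    .old (.leafM k9 [k2,k4,k0,k1] [(z1,[y2,y1,y2,z2]),(z1,[z0,z1]),(z1,[z1])] [(k3,k5,z1,[z0,z0,z1]),(k5,k3,z1,[z0,z0,
    z1])]),
    .old (.leafM k11 [k0,k1,k2,k4] [(z1,[z0,z1]),(z1,[y3,y1,y3,z3]),(z1,[z1])] [(k3,k5,z1,[z0,z0,z1]),(k5,k3,z1,[z0,z0,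
    z1])]),
    .old (.lp [k12,k10,k8,k28,k8,k12] [k8,k8,k9,k9,k10,k10,k0,k0,k10,k10,k8,k8] k0 [] k40 k6
    [[(k4,k10),(k7,k20)],[(k5,k10),(k2,k11),(k3,k11),(k0,k12)],[(k5,k9),(k2,k10),(k3,k10),(k0,k11)],[(k5,k9),(k2,k10),
    (k3,k10),(k0,k11)],[(k5,k8),(k2,k9),(k3,k9),(k0,k10)],[(k1,k10),(k10,k10)],[(k1,k20),(k10,k20)],[(k8,k18),(k9,
    k18),(k11,k20),(k6,k28)],[(k8,k8),(k9,k8),(k11,k10),(k6,k18)],[(k8,k8),(k9,k8),(k11,k10),(k6,k18)],[(k8,k10),(k9,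
    k10),(k11,k12),(k6,k20)],[(k4,k10),(k7,k20)]]
    [] k0
    [[k1,k0,k1,k0,k0,k0],[k1,k1,k1,k0,k0,k0],[k0,k2,k0,k0,k0,k0],[k0,k3,k0,k0,k0,k0],[k0,k0,k0,k0,k2,k0],[k0,k0,k0,k0,
    k3,k0],[k0,k0,k0,k0,k4,k0]]
    [.contra [y1,z2],.contra [z1,y1],.contra [z1],.ref k3 k0 [(z1,[z0,z1]),(z1,[z1]),(z1,[z0,y1,y1,z1])],.contra [z1],
    .ref k1 k0 [(z1,[z0,z1]),(z1,[y1,z0,z3]),(z1,[z0,y1,y1,z1])],.ref k2 k0 [(z1,[z0,z1]),(z2,[y1,z0,z4]),(z1,[z0,y1,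
    y1,z1])]]),
    .old (.leafM k10 [k0,k1,k2,k4] [(z1,[z0,z1]),(z1,[y1,y1,y3,z3]),(z1,[z1])] [(k3,k5,z1,[z0,z0,z1]),(k5,k3,z1,[z0,z0,
    z1])]),
    .old (.lp [k84,k40,k36,k24,k30,k24] [k0,k0,k22,k22,k24,k24,k30,k30,k27,k27,k30,k30] k0 [] k120 k6
    [[(k7,k54),(k4,k60)],[(k5,k60),(k2,k62),(k3,k62),(k0,k84)],[(k5,k38),(k2,k40),(k3,k40),(k0,k62)],[(k5,k38),(k2,
    k40),(k3,k40),(k0,k62)],[(k5,k36),(k2,k38),(k3,k38),(k0,k60)],[(k10,k30),(k1,k60)],[(k10,k24),(k1,k54)],[(k6,k24),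
    (k11,k24),(k8,k27),(k9,k27)],[(k6,k27),(k11,k27),(k8,k30),(k9,k30)],[(k6,k27),(k11,k27),(k8,k30),(k9,k30)],[(k6,
    k24),(k11,k24),(k8,k27),(k9,k27)],[(k7,k24),(k4,k30)]]
    [] k0
    [[k0,k2,k0,k0,k0,k0],[k0,k0,k0,k1,k0,k1],[k0,k0,k0,k2,k0,k2],[k0,k0,k0,k1,k1,k1],[k0,k0,k0,k1,k2,k1],[k0,k0,k0,k0,
    k2,k0],[k0,k0,k0,k0,k3,k0]]
    [.contra [z1],.contra [y1,y1,z0,z1],.ref k4 k1 [(z2,[z1]),(z2,[y1,y2,z0,z2])],.contra [z1,z1,z1,y1],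
    .ref k5 k1 [(z1,[y3,y6,y2,z6]),(z1,[z3,z3,z1,y3]),(z1,[z0,z1])],.contra [z1],.ref k5 k1 [(z1,[y1,y3,y1,z3]),(z1,
    [z1]),(z1,[z0,z1])]]),
    .old (.lp [k84,k30,k36,k24,k40,k24] [k0,k0,k27,k27,k24,k24,k30,k30,k22,k22,k30,k30] k0 [] k120 k6
    [[(k7,k54),(k4,k60)],[(k2,k57),(k3,k57),(k5,k60),(k0,k84)],[(k2,k30),(k3,k30),(k5,k33),(k0,k57)],[(k2,k30),(k3,
    k30),(k5,k33),(k0,k57)],[(k2,k33),(k3,k33),(k5,k36),(k0,k60)],[(k10,k30),(k1,k60)],[(k10,k24),(k1,k54)],[(k6,k24),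
    (k11,k24),(k8,k32),(k9,k32)],[(k6,k32),(k11,k32),(k8,k40),(k9,k40)],[(k6,k32),(k11,k32),(k8,k40),(k9,k40)],[(k6,
    k24),(k11,k24),(k8,k32),(k9,k32)],[(k7,k24),(k4,k30)]]
    [] k0
    [[k0,k2,k0,k0,k0,k0],[k0,k3,k0,k0,k0,k0],[k0,k0,k0,k1,k0,k1],[k0,k0,k0,k2,k0,k2],[k0,k0,k0,k1,k1,k1],[k0,k0,k0,k0,
    k2,k0]]
    [.contra [z1],.ref k6 k0 [(z1,[z0,z1]),(z1,[z1])],.contra [y1,y1,z1],.ref k4 k1 [(z2,[z1]),(z2,[y1,y2,z2])],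
    .contra [y1,y1,z1],.contra [z1]]),
    .old (.lp [k6,k12,k6,k6,k8,k6] [k3,k3,k0,k0,k3,k3,k3,k3,k2,k2,k3,k3] k0 [] k24 k5
    [[(k4,k6),(k7,k6)],[(k0,k6),(k5,k6),(k2,k9),(k3,k9)],[(k0,k9),(k5,k9),(k2,k12),(k3,k12)],[(k0,k9),(k5,k9),(k2,
    k12),(k3,k12)],[(k0,k6),(k5,k6),(k2,k9),(k3,k9)],[(k1,k6),(k10,k6)],[(k1,k6),(k10,k6)],[(k6,k6),(k11,k6),(k8,k7),
    (k9,k7)],[(k6,k7),(k11,k7),(k8,k8),(k9,k8)],[(k6,k7),(k11,k7),(k8,k8),(k9,k8)],[(k6,k6),(k11,k6),(k8,k7),(k9,k7)],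
    [(k4,k6),(k7,k6)]]
    [] k0
    [[k1,k0,k1,k0,k0,k0],[k0,k0,k0,k1,k0,k1],[k0,k0,k0,k1,k1,k1],[k0,k0,k0,k0,k2,k0]]
    [.ref k7 k0 [(z1,[z1])],.ref k7 k1 [(z1,[z1])],.ref k0 k0 [(z1,[y1,z1])],.contra [z1]])]⟩

/-- classes `0 0 1 2 2 1`, types `S0 S0 C0 S0 S0 C0` -/
noncomputable def cU6_1660 : CertX :=
  ⟨[k0,k0,k20,k32,k32,k20],[(false,k0,[k0,k1,k2,k3,k4,k5]),(false,k3,[k3,k4,k5,k0,k1,k2])],[[[([z1,z1,z1,z0,z0,z0],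
    z2)],[([z1,z0,z1,z0,z0,z0],z1),([z0,z3,z0,z0,z0,z0],z1),([z0,z0,z0,z1,z0,z1],z2)],[([z1,z0,z1,z0,z0,z0],z1),([z0,
    z2,z0,z0,z0,z0],z1),([z0,z0,z0,z1,z0,z1],z2)],[([z1,z0,z1,z0,z0,z0],z1),([z0,z3,z0,z0,z0,z0],z2),([z0,z0,z0,z1,z0,
    z1],z2)],[([z1,z0,z1,z0,z0,z0],z1),([z0,z1,z0,z0,z1,z0],z1)],[([z3,z0,z3,z0,z0,z0],z2),([z0,z3,z0,z0,z0,z0],z2),
    ([z0,z0,z0,z1,z0,z1],z2)],[([z1,z0,z1,z0,z0,z0],z2),([z0,z3,z0,z0,z0,z0],z2)],[([z1,z0,z1,z0,z0,z0],z2)],[]]],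
    [.old (.leafM k0 [k2,k3,k4,k5,k0,k1] [(z1,[y1,z1])] []),
    .old (.leafM k8 [k2,k4,k0,k1] [(z1,[y3,y1,y3,z3]),(z1,[z0,z1]),(z1,[z1])] [(k3,k5,z1,[z0,z0,z1]),(k5,k3,z1,[z0,z0,
    z1])]),
    .old (.leafM k9 [k2,k4,k0,k1] [(z1,[y2,y1,y2,z2]),(z1,[z0,z1]),(z1,[z1])] [(k3,k5,z1,[z0,z0,z1]),(k5,k3,z1,[z0,z0,
    z1])]),
    .old (.leafM k11 [k0,k1,k2,k4] [(z1,[z0,z1]),(z1,[y3,y1,y3,z3]),(z1,[z1])] [(k3,k5,z1,[z0,z0,z1]),(k5,k3,z1,[z0,z0,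
    z1])]),
    .old (.lp [k8,k10,k12,k8,k8,k32] [k12,k12,k11,k11,k10,k10,k12,k12,k12,k12,k0,k0] k0 [] k40 k6
    [[(k4,k10),(k10,k20)],[(k0,k8),(k2,k9),(k3,k9),(k5,k10)],[(k0,k9),(k2,k10),(k3,k10),(k5,k11)],[(k0,k9),(k2,k10),
    (k3,k10),(k5,k11)],[(k0,k10),(k2,k11),(k3,k11),(k5,k12)],[(k1,k10),(k7,k10)],[(k4,k10),(k10,k20)],[(k6,k8),(k8,
    k8),(k9,k8),(k11,k20)],[(k6,k8),(k8,k8),(k9,k8),(k11,k20)],[(k6,k8),(k8,k8),(k9,k8),(k11,k20)],[(k6,k20),(k8,k20),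
    (k9,k20),(k11,k32)],[(k1,k20),(k7,k20)]]
    [] k0
    [[k1,k0,k1,k0,k0,k0],[k1,k1,k1,k0,k0,k0],[k0,k2,k0,k0,k0,k0],[k0,k3,k0,k0,k0,k0],[k0,k0,k0,k0,k2,k0],[k0,k0,k0,k0,
    k3,k0],[k0,k0,k0,k0,k4,k0]]
    [.contra [y1,z2],.contra [z1,y1],.contra [z1],.ref k3 k0 [(z1,[z0,z1]),(z1,[z1]),(z1,[z0,y1,y1,z1])],.contra [z1],
    .ref k1 k0 [(z1,[z0,z1]),(z1,[y1,z0,z3]),(z1,[z0,y1,y1,z1])],.ref k2 k0 [(z1,[z0,z1]),(z2,[y1,z0,z4]),(z1,[z0,y1,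
    y1,z1])]]),
    .old (.leafM k10 [k0,k1,k2,k4] [(z1,[z0,z1]),(z1,[y1,y1,y3,z3]),(z1,[z1])] [(k3,k5,z1,[z0,z0,z1]),(k5,k3,z1,[z0,z0,
    z1])]),
    .old (.lp [k36,k40,k84,k24,k30,k24] [k24,k24,k22,k22,k0,k0,k30,k30,k27,k27,k30,k30] k0 [] k120 k6
    [[(k10,k30),(k4,k60)],[(k0,k36),(k2,k38),(k3,k38),(k5,k60)],[(k0,k38),(k2,k40),(k3,k40),(k5,k62)],[(k0,k38),(k2,
    k40),(k3,k40),(k5,k62)],[(k0,k60),(k2,k62),(k3,k62),(k5,k84)],[(k7,k54),(k1,k60)],[(k10,k24),(k4,k54)],[(k6,k24),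
    (k11,k24),(k8,k27),(k9,k27)],[(k6,k27),(k11,k27),(k8,k30),(k9,k30)],[(k6,k27),(k11,k27),(k8,k30),(k9,k30)],[(k6,
    k24),(k11,k24),(k8,k27),(k9,k27)],[(k7,k24),(k1,k30)]]
    [] k0
    [[k0,k2,k0,k0,k0,k0],[k0,k0,k0,k1,k0,k1],[k0,k0,k0,k2,k0,k2],[k0,k0,k0,k1,k1,k1],[k0,k0,k0,k1,k2,k1],[k0,k0,k0,k0,
    k2,k0],[k0,k0,k0,k0,k3,k0]]
    [.contra [z1],.contra [y1,y1,z0,z1],.ref k4 k1 [(z2,[z1]),(z2,[y1,y2,z0,z2])],.contra [z1,z1,z1,y1],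
    .ref k5 k1 [(z1,[y3,y6,y2,z6]),(z1,[z3,z3,z1,y3]),(z1,[z0,z1])],.contra [z1],.ref k5 k1 [(z1,[y1,y3,y1,z3]),(z1,
    [z1]),(z1,[z0,z1])]]),
    .old (.lp [k36,k30,k84,k24,k40,k24] [k24,k24,k27,k27,k0,k0,k30,k30,k22,k22,k30,k30] k0 [] k120 k6
    [[(k10,k30),(k4,k60)],[(k2,k33),(k3,k33),(k0,k36),(k5,k60)],[(k2,k30),(k3,k30),(k0,k33),(k5,k57)],[(k2,k30),(k3,
    k30),(k0,k33),(k5,k57)],[(k2,k57),(k3,k57),(k0,k60),(k5,k84)],[(k7,k54),(k1,k60)],[(k10,k24),(k4,k54)],[(k6,k24),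
    (k11,k24),(k8,k32),(k9,k32)],[(k6,k32),(k11,k32),(k8,k40),(k9,k40)],[(k6,k32),(k11,k32),(k8,k40),(k9,k40)],[(k6,
    k24),(k11,k24),(k8,k32),(k9,k32)],[(k7,k24),(k1,k30)]]
    [] k0
    [[k0,k2,k0,k0,k0,k0],[k0,k3,k0,k0,k0,k0],[k0,k0,k0,k1,k0,k1],[k0,k0,k0,k2,k0,k2],[k0,k0,k0,k1,k1,k1],[k0,k0,k0,k0,
    k2,k0]]
    [.contra [z1],.ref k6 k0 [(z1,[z0,z1]),(z1,[z1])],.contra [y1,y1,z1],.ref k4 k1 [(z2,[z1]),(z2,[y1,y2,z2])],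
    .contra [y1,y1,z1],.contra [z1]]),
    .old (.lp [k6,k12,k6,k6,k8,k6] [k3,k3,k0,k0,k3,k3,k3,k3,k2,k2,k3,k3] k0 [] k24 k5
    [[(k4,k6),(k10,k6)],[(k0,k6),(k5,k6),(k2,k9),(k3,k9)],[(k0,k9),(k5,k9),(k2,k12),(k3,k12)],[(k0,k9),(k5,k9),(k2,
    k12),(k3,k12)],[(k0,k6),(k5,k6),(k2,k9),(k3,k9)],[(k1,k6),(k7,k6)],[(k4,k6),(k10,k6)],[(k6,k6),(k11,k6),(k8,k7),
    (k9,k7)],[(k6,k7),(k11,k7),(k8,k8),(k9,k8)],[(k6,k7),(k11,k7),(k8,k8),(k9,k8)],[(k6,k6),(k11,k6),(k8,k7),(k9,k7)],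
    [(k1,k6),(k7,k6)]]
    [] k0
    [[k1,k0,k1,k0,k0,k0],[k0,k0,k0,k1,k0,k1],[k0,k0,k0,k1,k1,k1],[k0,k0,k0,k0,k2,k0]]
    [.ref k7 k0 [(z1,[z1])],.ref k7 k1 [(z1,[z1])],.ref k0 k0 [(z1,[y1,z1])],.contra [z1]])]⟩

/-- classes `0 0 1 2 2 1`, types `S0 S0 C0 S0 S0 C2` -/
noncomputable def cU6_1661 : CertX :=
  ⟨[k0,k0,k20,k32,k32,k22],[],[[[]]],
    [.old (.lp [k6,k8,k6,k6,k12,k6] [k3,k3,k2,k2,k3,k3,k3,k3,k0,k0,k3,k3] k0 [] k24 k5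
    [[(k7,k6),(k10,k6)],[(k0,k6),(k5,k6),(k2,k7),(k3,k7)],[(k0,k7),(k5,k7),(k2,k8),(k3,k8)],[(k0,k7),(k5,k7),(k2,k8),
    (k3,k8)],[(k0,k6),(k5,k6),(k2,k7),(k3,k7)],[(k7,k6),(k10,k6)],[(k1,k6),(k4,k6)],[(k6,k6),(k11,k6),(k8,k9),(k9,
    k9)],[(k6,k9),(k11,k9),(k8,k12),(k9,k12)],[(k6,k9),(k11,k9),(k8,k12),(k9,k12)],[(k6,k6),(k11,k6),(k8,k9),(k9,k9)],
    [(k1,k6),(k4,k6)]]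
    [] k0
    [[k0,k2,k0,k0,k0,k0]]
    [.contra [z1]])]⟩

/-- classes `0 0 1 2 2 1`, types `S0 S0 N0 S0 S0 N1` -/
noncomputable def cU6_1662 : CertX :=
  ⟨[k0,k0,k28,k32,k32,k29],[(false,k0,[k0,k1,k2,k3,k4,k5]),(false,k3,[k3,k4,k5,k0,k1,k2])],[[[([z1,z1,z1,z0,z0,z0],
    z2)],[([z1,z0,z1,z0,z0,z0],z1),([z0,z3,z0,z0,z0,z0],z1),([z0,z0,z0,z1,z0,z1],z2)],[([z1,z0,z1,z0,z0,z0],z1),([z0,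
    z2,z0,z0,z0,z0],z1),([z0,z0,z0,z1,z0,z1],z2)],[([z1,z0,z1,z0,z0,z0],z1),([z0,z3,z0,z0,z0,z0],z2),([z0,z0,z0,z1,z0,
    z1],z2)],[([z1,z0,z1,z0,z0,z0],z1),([z0,z1,z0,z0,z1,z0],z1)],[([z3,z0,z3,z0,z0,z0],z2),([z0,z3,z0,z0,z0,z0],z2),
    ([z0,z0,z0,z1,z0,z1],z2)],[([z1,z0,z1,z0,z0,z0],z2),([z0,z3,z0,z0,z0,z0],z2)],[([z1,z0,z1,z0,z0,z0],z2)],[]]],
    [.old (.leafM k0 [k2,k3,k4,k5,k0,k1] [(z1,[y1,z1])] []),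
    .old (.leafM k8 [k2,k4,k0,k1] [(z1,[y3,y1,y3,z3]),(z1,[z0,z1]),(z1,[z1])] [(k3,k5,z1,[z0,z0,z1]),(k5,k3,z1,[z0,z0,
    z1])]),
    .old (.leafM k9 [k2,k4,k0,k1] [(z1,[y2,y1,y2,z2]),(z1,[z0,z1]),(z1,[z1])] [(k3,k5,z1,[z0,z0,z1]),(k5,k3,z1,[z0,z0,
    z1])]),
    .old (.leafM k11 [k0,k1,k2,k4] [(z1,[z0,z1]),(z1,[y3,y1,y3,z3]),(z1,[z1])] [(k3,k5,z1,[z0,z0,z1]),(k5,k3,z1,[z0,z0,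
    z1])]),
    .old (.lp [k8,k10,k12,k8,k8,k32] [k12,k12,k11,k11,k10,k10,k12,k12,k12,k12,k0,k0] k0 [] k40 k6
    [[(k4,k10)],[(k0,k8),(k2,k9),(k3,k9),(k5,k10)],[(k0,k9),(k2,k10),(k3,k10),(k5,k11)],[(k0,k9),(k2,k10),(k3,k10),
    (k5,k11)],[(k0,k10),(k2,k11),(k3,k11),(k5,k12)],[(k1,k10)],[(k10,k20)],[(k6,k8),(k8,k8),(k9,k8),(k11,k20)],[(k6,
    k8),(k8,k8),(k9,k8),(k11,k20)],[(k6,k8),(k8,k8),(k9,k8),(k11,k20)],[(k6,k20),(k8,k20),(k9,k20),(k11,k32)],[(k7,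
    k20)]]
    [] k0
    [[k1,k0,k1,k0,k0,k0],[k1,k1,k1,k0,k0,k0],[k0,k2,k0,k0,k0,k0],[k0,k3,k0,k0,k0,k0],[k0,k0,k0,k0,k2,k0],[k0,k0,k0,k0,
    k3,k0],[k0,k0,k0,k0,k4,k0]]
    [.contra [y1,z2],.contra [z1,y1],.contra [z1],.ref k3 k0 [(z1,[z0,z1]),(z1,[z1]),(z1,[z0,y1,y1,z1])],.contra [z1],
    .ref k1 k0 [(z1,[z0,z1]),(z1,[y1,z0,z3]),(z1,[z0,y1,y1,z1])],.ref k2 k0 [(z1,[z0,z1]),(z2,[y1,z0,z4]),(z1,[z0,y1,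
    y1,z1])]]),
    .old (.leafM k10 [k0,k1,k2,k4] [(z1,[z0,z1]),(z1,[y1,y1,y3,z3]),(z1,[z1])] [(k3,k5,z1,[z0,z0,z1]),(k5,k3,z1,[z0,z0,
    z1])]),
    .old (.lp [k24,k40,k96,k24,k30,k24] [k36,k36,k28,k28,k0,k0,k36,k36,k33,k33,k36,k36] k0 [] k120 k6
    [[(k4,k60)],[(k0,k24),(k2,k32),(k3,k32),(k5,k60)],[(k0,k32),(k2,k40),(k3,k40),(k5,k68)],[(k0,k32),(k2,k40),(k3,
    k40),(k5,k68)],[(k0,k60),(k2,k68),(k3,k68),(k5,k96)],[(k1,k60)],[(k10,k24)],[(k6,k24),(k11,k24),(k8,k27),(k9,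
    k27)],[(k6,k27),(k11,k27),(k8,k30),(k9,k30)],[(k6,k27),(k11,k27),(k8,k30),(k9,k30)],[(k6,k24),(k11,k24),(k8,k27),
    (k9,k27)],[(k7,k24)]]
    [] k0
    [[k0,k2,k0,k0,k0,k0],[k0,k0,k0,k1,k0,k1],[k0,k0,k0,k2,k0,k2],[k0,k0,k0,k1,k1,k1],[k0,k0,k0,k1,k2,k1],[k0,k0,k0,k0,
    k2,k0],[k0,k0,k0,k0,k3,k0]]
    [.contra [z1],.contra [y1,y1,z0,z1],.ref k4 k1 [(z2,[z1]),(z2,[y1,y2,z0,z2])],.contra [z1,z1,z1,y1],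
    .ref k5 k1 [(z1,[y3,y6,y2,z6]),(z1,[z3,z3,z1,y3]),(z1,[z0,z1])],.contra [z1],.ref k5 k1 [(z1,[y1,y3,y1,z3]),(z1,
    [z1]),(z1,[z0,z1])]]),
    .old (.lp [k24,k30,k96,k24,k40,k24] [k36,k36,k33,k33,k0,k0,k36,k36,k28,k28,k36,k36] k0 [] k120 k6
    [[(k4,k60)],[(k0,k24),(k2,k27),(k3,k27),(k5,k60)],[(k0,k27),(k2,k30),(k3,k30),(k5,k63)],[(k0,k27),(k2,k30),(k3,
    k30),(k5,k63)],[(k0,k60),(k2,k63),(k3,k63),(k5,k96)],[(k1,k60)],[(k10,k24)],[(k6,k24),(k11,k24),(k8,k32),(k9,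
    k32)],[(k6,k32),(k11,k32),(k8,k40),(k9,k40)],[(k6,k32),(k11,k32),(k8,k40),(k9,k40)],[(k6,k24),(k11,k24),(k8,k32),
    (k9,k32)],[(k7,k24)]]
    [] k0
    [[k0,k2,k0,k0,k0,k0],[k0,k3,k0,k0,k0,k0],[k0,k0,k0,k1,k0,k1],[k0,k0,k0,k2,k0,k2],[k0,k0,k0,k1,k1,k1],[k0,k0,k0,k0,
    k2,k0]]
    [.contra [z1],.ref k6 k0 [(z1,[z0,z1]),(z1,[z1])],.contra [y1,y1,z1],.ref k4 k1 [(z2,[z1]),(z2,[y1,y2,z2])],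
    .contra [y1,y1,z1],.contra [z1]]),
    .old (.lp [k6,k12,k6,k6,k8,k6] [k3,k3,k0,k0,k3,k3,k3,k3,k2,k2,k3,k3] k0 [] k24 k5
    [[(k4,k6)],[(k0,k6),(k5,k6),(k2,k9),(k3,k9)],[(k0,k9),(k5,k9),(k2,k12),(k3,k12)],[(k0,k9),(k5,k9),(k2,k12),(k3,
    k12)],[(k0,k6),(k5,k6),(k2,k9),(k3,k9)],[(k1,k6)],[(k10,k6)],[(k6,k6),(k11,k6),(k8,k7),(k9,k7)],[(k6,k7),(k11,k7),
    (k8,k8),(k9,k8)],[(k6,k7),(k11,k7),(k8,k8),(k9,k8)],[(k6,k6),(k11,k6),(k8,k7),(k9,k7)],[(k7,k6)]]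
    [] k0
    [[k1,k0,k1,k0,k0,k0],[k0,k0,k0,k1,k0,k1],[k0,k0,k0,k1,k1,k1],[k0,k0,k0,k0,k2,k0]]
    [.ref k7 k0 [(z1,[z1])],.ref k7 k1 [(z1,[z1])],.ref k0 k0 [(z1,[y1,z1])],.contra [z1]])]⟩

/-- classes `0 0 1 2 2 1`, types `S0 S0 N0 S0 S0 N2` -/
noncomputable def cU6_1663 : CertX :=
  ⟨[k0,k0,k28,k32,k32,k30],[],[[[]]],
    [.old (.lp [k6,k8,k6,k6,k12,k6] [k3,k3,k2,k2,k3,k3,k3,k3,k0,k0,k3,k3] k0 [] k24 k5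
    [[(k7,k6)],[(k0,k6),(k5,k6),(k2,k7),(k3,k7)],[(k0,k7),(k5,k7),(k2,k8),(k3,k8)],[(k0,k7),(k5,k7),(k2,k8),(k3,k8)],
    [(k0,k6),(k5,k6),(k2,k7),(k3,k7)],[(k10,k6)],[(k1,k6)],[(k6,k6),(k11,k6),(k8,k9),(k9,k9)],[(k6,k9),(k11,k9),(k8,
    k12),(k9,k12)],[(k6,k9),(k11,k9),(k8,k12),(k9,k12)],[(k6,k6),(k11,k6),(k8,k9),(k9,k9)],[(k4,k6)]]
    [] k0
    [[k0,k2,k0,k0,k0,k0]]
    [.contra [z1]])]⟩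

/-- classes `0 0 1 2 2 3`, types `B0 B1 C0 B0 B1 C0` -/
noncomputable def cU6_1664 : CertX :=
  ⟨[k8,k9,k20,k40,k41,k52],[],[[[]]],
    [.old (.lp [k4,k6,k2,k4,k4,k2] [k1,k1,k0,k0,k2,k2,k1,k1,k1,k1,k2,k2] k0 [] k12 k5
    [[(k10,k3)],[(k5,k3),(k2,k5)],[(k5,k4),(k2,k6)],[(k0,k5),(k3,k6)],[(k0,k3),(k3,k4)],[(k7,k3)],[(k4,k3)],[(k11,k3),
    (k8,k4)],[(k11,k3),(k8,k4)],[(k6,k4),(k9,k4)],[(k6,k3),(k9,k3)],[(k1,k3)]]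
    [] k0
    [[k0,k0,k0,k0,k2,k0]]
    [.contra [z1]])]⟩

/-- classes `0 0 1 2 2 3`, types `B0 B1 C0 B0 B1 S0` -/
noncomputable def cU6_1665 : CertX :=
  ⟨[k8,k9,k20,k40,k41,k48],[],[[[]]],
    [.old (.lp [k6,k12,k6,k6,k8,k6] [k3,k3,k0,k0,k3,k3,k3,k3,k2,k2,k3,k3] k0 [] k24 k5
    [[(k1,k6),(k10,k6)],[(k5,k6),(k2,k9)],[(k5,k9),(k2,k12)],[(k0,k9),(k3,k12)],[(k0,k6),(k3,k9)],[(k7,k6)],[(k4,k6)],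
    [(k11,k6),(k8,k7)],[(k11,k7),(k8,k8)],[(k6,k7),(k9,k8)],[(k6,k6),(k9,k7)],[(k1,k6),(k10,k6)]]
    [] k0
    [[k0,k0,k0,k0,k2,k0]]
    [.contra [z1]])]⟩

/-- classes `0 0 1 2 2 3`, types `B0 B1 C0 C0 C0 C0` -/
noncomputable def cU6_1666 : CertX :=
  ⟨[k8,k9,k20,k36,k36,k52],[],[[[]]],
    [.old (.lp [k4,k4,k2,k4,k6,k2] [k1,k1,k1,k1,k2,k2,k1,k1,k0,k0,k2,k2] k0 [] k12 k5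
    [[(k10,k3)],[(k5,k3),(k2,k4)],[(k5,k3),(k2,k4)],[(k0,k4),(k3,k4)],[(k0,k3),(k3,k3)],[(k7,k3)],[(k4,k3)],[(k11,k3),
    (k9,k5)],[(k6,k5),(k8,k6)],[(k11,k4),(k9,k6)],[(k6,k3),(k8,k4)],[(k1,k3)]]
    [] k0
    [[k0,k2,k0,k0,k0,k0]]
    [.contra [z1]])]⟩

/-- classes `0 0 1 2 2 3`, types `B0 B1 C0 C0 C0 S0` -/
noncomputable def cU6_1667 : CertX :=
  ⟨[k8,k9,k20,k36,k36,k48],[],[[[]]],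
    [.old (.lp [k6,k12,k6,k6,k8,k6] [k3,k3,k0,k0,k3,k3,k3,k3,k2,k2,k3,k3] k0 [] k24 k5
    [[(k1,k6),(k10,k6)],[(k5,k6),(k2,k9)],[(k5,k9),(k2,k12)],[(k0,k9),(k3,k12)],[(k0,k6),(k3,k9)],[(k7,k6)],[(k4,k6)],
    [(k11,k6),(k9,k7)],[(k6,k7),(k8,k8)],[(k11,k7),(k9,k8)],[(k6,k6),(k8,k7)],[(k1,k6),(k10,k6)]]
    [] k0
    [[k0,k0,k0,k0,k2,k0]]
    [.contra [z1]])]⟩

/-- classes `0 0 1 2 2 3`, types `B0 B1 C0 C0 C2 C0` -/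
noncomputable def cU6_1668 : CertX :=
  ⟨[k8,k9,k20,k36,k38,k52],[],[[[]]],
    [.old (.lp [k2,k4,k2,k2,k2,k2] [k1,k1,k0,k0,k1,k1,k1,k1,k1,k1,k1,k1] k0 [] k8 k5
    [[(k10,k2)],[(k5,k2),(k2,k3)],[(k5,k3),(k2,k4)],[(k0,k3),(k3,k4)],[(k0,k2),(k3,k3)],[(k7,k2)],[(k4,k2)],[(k8,k2),
    (k9,k2)],[(k6,k2),(k11,k2)],[(k6,k2),(k11,k2)],[(k8,k2),(k9,k2)],[(k1,k2)]]
    [] k0
    []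
    [])]⟩

/-- classes `0 0 1 2 2 3`, types `B0 B1 C0 C0 C2 S0` -/
noncomputable def cU6_1669 : CertX :=
  ⟨[k8,k9,k20,k36,k38,k48],[],[[[]]],
    [.old (.lp [k4,k8,k4,k4,k4,k6] [k2,k2,k0,k0,k2,k2,k2,k2,k2,k2,k1,k1] k0 [] k16 k5
    [[(k1,k4),(k10,k5)],[(k5,k4),(k2,k6)],[(k5,k6),(k2,k8)],[(k0,k6),(k3,k8)],[(k0,k4),(k3,k6)],[(k7,k4)],[(k4,k4)],
    [(k8,k4),(k9,k4)],[(k6,k4),(k11,k5)],[(k6,k4),(k11,k5)],[(k8,k5),(k9,k5)],[(k1,k5),(k10,k6)]]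
    [] k0
    []
    [])]⟩

/-- classes `0 0 1 2 2 3`, types `B0 B1 C0 N0 N1 C0` -/
noncomputable def cU6_1670 : CertX :=
  ⟨[k8,k9,k20,k44,k45,k52],[],[[[]]],
    [.old (.lp [k4,k4,k2,k4,k6,k2] [k1,k1,k1,k1,k2,k2,k1,k1,k0,k0,k2,k2] k0 [] k12 k5
    [[(k10,k3)],[(k5,k3),(k2,k4)],[(k5,k3),(k2,k4)],[(k0,k4),(k3,k4)],[(k0,k3),(k3,k3)],[(k7,k3)],[(k4,k3)],[(k11,
    k3)],[(k8,k6)],[(k9,k6)],[(k6,k3)],[(k1,k3)]]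
    [] k0
    [[k0,k2,k0,k0,k0,k0]]
    [.contra [z1]])]⟩

/-- classes `0 0 1 2 2 3`, types `B0 B1 C0 N0 N1 S0` -/
noncomputable def cU6_1671 : CertX :=
  ⟨[k8,k9,k20,k44,k45,k48],[],[[[]]],
    [.old (.lp [k6,k12,k6,k6,k8,k6] [k3,k3,k0,k0,k3,k3,k3,k3,k2,k2,k3,k3] k0 [] k24 k5
    [[(k1,k6),(k10,k6)],[(k5,k6),(k2,k9)],[(k5,k9),(k2,k12)],[(k0,k9),(k3,k12)],[(k0,k6),(k3,k9)],[(k7,k6)],[(k4,k6)],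
    [(k11,k6)],[(k8,k8)],[(k9,k8)],[(k6,k6)],[(k1,k6),(k10,k6)]]
    [] k0
    [[k0,k0,k0,k0,k2,k0]]
    [.contra [z1]])]⟩

/-- classes `0 0 1 2 2 3`, types `B0 B1 C0 N0 N2 C0` -/
noncomputable def cU6_1672 : CertX :=
  ⟨[k8,k9,k20,k44,k46,k52],[],[[[]]],
    [.old (.lp [k2,k4,k2,k2,k2,k2] [k1,k1,k0,k0,k1,k1,k1,k1,k1,k1,k1,k1] k0 [] k8 k5
    [[(k10,k2)],[(k5,k2),(k2,k3)],[(k5,k3),(k2,k4)],[(k0,k3),(k3,k4)],[(k0,k2),(k3,k3)],[(k7,k2)],[(k4,k2)],[(k8,k2)],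
    [(k11,k2)],[(k6,k2)],[(k9,k2)],[(k1,k2)]]
    [] k0
    []
    [])]⟩

/-- classes `0 0 1 2 2 3`, types `B0 B1 C0 N0 N2 S0` -/
noncomputable def cU6_1673 : CertX :=
  ⟨[k8,k9,k20,k44,k46,k48],[],[[[]]],
    [.old (.lp [k2,k4,k2,k2,k2,k2] [k1,k1,k0,k0,k1,k1,k1,k1,k1,k1,k1,k1] k0 [] k8 k5
    [[(k1,k2),(k10,k2)],[(k5,k2),(k2,k3)],[(k5,k3),(k2,k4)],[(k0,k3),(k3,k4)],[(k0,k2),(k3,k3)],[(k7,k2)],[(k4,k2)],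
    [(k8,k2)],[(k11,k2)],[(k6,k2)],[(k9,k2)],[(k1,k2),(k10,k2)]]
    [] k0
    []
    [])]⟩

/-- classes `0 0 1 2 2 3`, types `B0 B1 C0 S0 S0 C0` -/
noncomputable def cU6_1674 : CertX :=
  ⟨[k8,k9,k20,k32,k32,k52],[],[[[]]],
    [.old (.lp [k6,k8,k6,k6,k12,k6] [k3,k3,k2,k2,k3,k3,k3,k3,k0,k0,k3,k3] k0 [] k24 k5
    [[(k10,k6)],[(k5,k6),(k2,k7)],[(k5,k7),(k2,k8)],[(k0,k7),(k3,k8)],[(k0,k6),(k3,k7)],[(k7,k6)],[(k4,k6)],[(k6,k6),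
    (k11,k6),(k8,k9),(k9,k9)],[(k6,k9),(k11,k9),(k8,k12),(k9,k12)],[(k6,k9),(k11,k9),(k8,k12),(k9,k12)],[(k6,k6),(k11,
    k6),(k8,k9),(k9,k9)],[(k1,k6)]]
    [] k0
    [[k0,k2,k0,k0,k0,k0]]
    [.contra [z1]])]⟩

/-- classes `0 0 1 2 2 3`, types `B0 B1 C0 S0 S0 S0` -/
noncomputable def cU6_1675 : CertX :=
  ⟨[k8,k9,k20,k32,k32,k48],[],[[[]]],
    [.old (.lp [k6,k8,k6,k6,k12,k6] [k3,k3,k2,k2,k3,k3,k3,k3,k0,k0,k3,k3] k0 [] k24 k5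
    [[(k1,k6),(k10,k6)],[(k5,k6),(k2,k7)],[(k5,k7),(k2,k8)],[(k0,k7),(k3,k8)],[(k0,k6),(k3,k7)],[(k7,k6)],[(k4,k6)],
    [(k6,k6),(k11,k6),(k8,k9),(k9,k9)],[(k6,k9),(k11,k9),(k8,k12),(k9,k12)],[(k6,k9),(k11,k9),(k8,k12),(k9,k12)],[(k6,
    k6),(k11,k6),(k8,k9),(k9,k9)],[(k1,k6),(k10,k6)]]
    [] k0
    [[k0,k2,k0,k0,k0,k0],[k0,k0,k0,k0,k0,k2]]
    [.contra [z1],.contra [z1]])]⟩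

/-- classes `0 0 1 2 2 3`, types `B0 B1 S0 B0 B1 S0` -/
noncomputable def cU6_1676 : CertX :=
  ⟨[k8,k9,k16,k40,k41,k48],[],[[[]]],
    [.old (.lp [k6,k12,k6,k6,k8,k6] [k3,k3,k0,k0,k3,k3,k3,k3,k2,k2,k3,k3] k0 [] k24 k5
    [[(k1,k6),(k10,k6)],[(k5,k6),(k2,k9)],[(k5,k9),(k2,k12)],[(k0,k9),(k3,k12)],[(k0,k6),(k3,k9)],[(k4,k6),(k7,k6)],
    [(k4,k6),(k7,k6)],[(k11,k6),(k8,k7)],[(k11,k7),(k8,k8)],[(k6,k7),(k9,k8)],[(k6,k6),(k9,k7)],[(k1,k6),(k10,k6)]]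
    [] k0
    [[k0,k0,k0,k0,k2,k0]]
    [.contra [z1]])]⟩

/-- classes `0 0 1 2 2 3`, types `B0 B1 S0 C0 C0 S0` -/
noncomputable def cU6_1677 : CertX :=
  ⟨[k8,k9,k16,k36,k36,k48],[],[[[]]],
    [.old (.lp [k6,k12,k6,k6,k8,k6] [k3,k3,k0,k0,k3,k3,k3,k3,k2,k2,k3,k3] k0 [] k24 k5
    [[(k1,k6),(k10,k6)],[(k5,k6),(k2,k9)],[(k5,k9),(k2,k12)],[(k0,k9),(k3,k12)],[(k0,k6),(k3,k9)],[(k4,k6),(k7,k6)],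
    [(k4,k6),(k7,k6)],[(k11,k6),(k9,k7)],[(k6,k7),(k8,k8)],[(k11,k7),(k9,k8)],[(k6,k6),(k8,k7)],[(k1,k6),(k10,k6)]]
    [] k0
    [[k0,k0,k0,k0,k2,k0]]
    [.contra [z1]])]⟩

/-- classes `0 0 1 2 2 3`, types `B0 B1 S0 C0 C2 S0` -/
noncomputable def cU6_1678 : CertX :=
  ⟨[k8,k9,k16,k36,k38,k48],[],[[[]]],
    [.old (.lp [k6,k8,k6,k12,k0,k12] [k3,k3,k2,k2,k3,k3,k0,k0,k6,k6,k0,k0] k0 [] k24 k5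
    [[(k1,k6),(k10,k9)],[(k5,k6),(k2,k7)],[(k5,k7),(k2,k8)],[(k0,k7),(k3,k8)],[(k0,k6),(k3,k7)],[(k4,k6),(k7,k9)],
    [(k4,k9),(k7,k12)],[(k8,k6),(k9,k6)],[(k6,k6),(k11,k6)],[(k6,k6),(k11,k6)],[(k8,k6),(k9,k6)],[(k1,k9),(k10,k12)]]
    [] k0
    [[k0,k2,k0,k0,k0,k0]]
    [.contra [z1]])]⟩

/-- classes `0 0 1 2 2 3`, types `B0 B1 S0 N0 N1 S0` -/
noncomputable def cU6_1679 : CertX :=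
  ⟨[k8,k9,k16,k44,k45,k48],[],[[[]]],
    [.old (.lp [k6,k12,k6,k6,k8,k6] [k3,k3,k0,k0,k3,k3,k3,k3,k2,k2,k3,k3] k0 [] k24 k5
    [[(k1,k6),(k10,k6)],[(k5,k6),(k2,k9)],[(k5,k9),(k2,k12)],[(k0,k9),(k3,k12)],[(k0,k6),(k3,k9)],[(k4,k6),(k7,k6)],
    [(k4,k6),(k7,k6)],[(k11,k6)],[(k8,k8)],[(k9,k8)],[(k6,k6)],[(k1,k6),(k10,k6)]]
    [] k0
    [[k0,k0,k0,k0,k2,k0]]
    [.contra [z1]])]⟩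

/-- classes `0 0 1 2 2 3`, types `B0 B1 S0 N0 N2 S0` -/
noncomputable def cU6_1680 : CertX :=
  ⟨[k8,k9,k16,k44,k46,k48],[],[[[]]],
    [.old (.lp [k2,k4,k2,k2,k2,k2] [k1,k1,k0,k0,k1,k1,k1,k1,k1,k1,k1,k1] k0 [] k8 k5
    [[(k1,k2),(k10,k2)],[(k5,k2),(k2,k3)],[(k5,k3),(k2,k4)],[(k0,k3),(k3,k4)],[(k0,k2),(k3,k3)],[(k4,k2),(k7,k2)],
    [(k4,k2),(k7,k2)],[(k8,k2)],[(k11,k2)],[(k6,k2)],[(k9,k2)],[(k1,k2),(k10,k2)]]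
    [] k0
    []
    [])]⟩

/-- classes `0 0 1 2 2 3`, types `B0 B1 S0 S0 S0 S0` -/
noncomputable def cU6_1681 : CertX :=
  ⟨[k8,k9,k16,k32,k32,k48],[],[[[]]],
    [.old (.lp [k6,k8,k6,k6,k8,k12] [k3,k3,k2,k2,k3,k3,k3,k3,k2,k2,k0,k0] k0 [[],[],[],[],[],[],[],[k0,k0,k0,k0,k0,k0,k0,
    k0,k4],[],[k0,k0,k0,k0,k0,k0,k4]] k24 k5
    [[(k1,k6),(k10,k9)],[(k5,k6),(k2,k7)],[(k5,k7),(k2,k8)],[(k0,k7),(k3,k8)],[(k0,k6),(k3,k7)],[(k4,k6),(k7,k6)],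
    [(k4,k6),(k7,k6)],[(k6,k6),(k9,k7),(k11,k9),(k8,k11)],[(k11,k6),(k6,k7),(k8,k8),(k9,k8)],[(k8,k8),(k9,k8),(k11,
    k10),(k6,k11)],[(k9,k6),(k6,k9),(k8,k10),(k11,k12)],[(k1,k9),(k10,k12)]]
    [] k0
    [[k0,k2,k0,k0,k0,k0],[k0,k0,k0,k2,k0,k0],[k0,k0,k0,k0,k2,k0]]
    [.contra [z1],.contra [z1],.contra [z1]])]⟩

/-- classes `0 0 1 2 2 3`, types `C0 C0 C0 C0 C0 C0` -/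
noncomputable def cU6_1682 : CertX :=
  ⟨[k4,k4,k20,k36,k36,k52],[],[[[]]],
    [.old (.lp [k2,k6,k4,k2,k4,k4] [k2,k2,k0,k0,k1,k1,k2,k2,k1,k1,k1,k1] k0 [] k12 k5
    [[(k10,k3)],[(k5,k3),(k3,k4)],[(k0,k4),(k2,k6)],[(k5,k5),(k3,k6)],[(k0,k3),(k2,k5)],[(k7,k3)],[(k4,k3)],[(k9,k3),
    (k11,k3)],[(k6,k3),(k8,k4)],[(k9,k4),(k11,k4)],[(k6,k3),(k8,k4)],[(k1,k3)]]
    [] k0
    [[k0,k0,k0,k0,k2,k0]]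
    [.contra [z1]])]⟩

/-- classes `0 0 1 2 2 3`, types `C0 C0 C0 C0 C0 S0` -/
noncomputable def cU6_1683 : CertX :=
  ⟨[k4,k4,k20,k36,k36,k48],[],[[[]]],
    [.old (.lp [k6,k8,k6,k6,k12,k6] [k3,k3,k2,k2,k3,k3,k3,k3,k0,k0,k3,k3] k0 [] k24 k5
    [[(k1,k6),(k10,k6)],[(k5,k6),(k3,k7)],[(k0,k7),(k2,k8)],[(k5,k7),(k3,k8)],[(k0,k6),(k2,k7)],[(k7,k6)],[(k4,k6)],
    [(k11,k6),(k9,k9)],[(k6,k9),(k8,k12)],[(k11,k9),(k9,k12)],[(k6,k6),(k8,k9)],[(k1,k6),(k10,k6)]]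
    [] k0
    [[k0,k2,k0,k0,k0,k0]]
    [.contra [z1]])]⟩

/-- classes `0 0 1 2 2 3`, types `C0 C0 C0 C0 C2 C0` -/
noncomputable def cU6_1684 : CertX :=
  ⟨[k4,k4,k20,k36,k38,k52],[],[[[]]],
    [.old (.lp [k2,k4,k2,k2,k2,k2] [k1,k1,k0,k0,k1,k1,k1,k1,k1,k1,k1,k1] k0 [] k8 k5
    [[(k10,k2)],[(k5,k2),(k3,k3)],[(k0,k3),(k2,k4)],[(k5,k3),(k3,k4)],[(k0,k2),(k2,k3)],[(k7,k2)],[(k4,k2)],[(k8,k2),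
    (k9,k2)],[(k6,k2),(k11,k2)],[(k6,k2),(k11,k2)],[(k8,k2),(k9,k2)],[(k1,k2)]]
    [] k0
    []
    [])]⟩

/-- classes `0 0 1 2 2 3`, types `C0 C0 C0 C0 C2 S0` -/
noncomputable def cU6_1685 : CertX :=
  ⟨[k4,k4,k20,k36,k38,k48],[],[[[]]],
    [.old (.lp [k4,k8,k4,k4,k4,k6] [k2,k2,k0,k0,k2,k2,k2,k2,k2,k2,k1,k1] k0 [] k16 k5
    [[(k1,k4),(k10,k5)],[(k5,k4),(k3,k6)],[(k0,k6),(k2,k8)],[(k5,k6),(k3,k8)],[(k0,k4),(k2,k6)],[(k7,k4)],[(k4,k4)],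
    [(k8,k4),(k9,k4)],[(k6,k4),(k11,k5)],[(k6,k4),(k11,k5)],[(k8,k5),(k9,k5)],[(k1,k5),(k10,k6)]]
    [] k0
    []
    [])]⟩

/-- classes `0 0 1 2 2 3`, types `C0 C0 C0 N0 N1 C0` -/
noncomputable def cU6_1686 : CertX :=
  ⟨[k4,k4,k20,k44,k45,k52],[],[[[]]],
    [.old (.lp [k0,k6,k6,k0,k4,k6] [k3,k3,k0,k0,k0,k0,k3,k3,k1,k1,k0,k0] k0 [] k12 k5
    [[(k10,k3)],[(k3,k3),(k5,k3)],[(k0,k3),(k2,k6)],[(k3,k6),(k5,k6)],[(k0,k3),(k2,k6)],[(k7,k3)],[(k4,k3)],[(k11,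
    k3)],[(k8,k4)],[(k9,k4)],[(k6,k3)],[(k1,k3)]]
    [] k0
    [[k0,k0,k0,k0,k2,k0]]
    [.contra [z1]])]⟩

/-- classes `0 0 1 2 2 3`, types `C0 C0 C0 N0 N1 S0` -/
noncomputable def cU6_1687 : CertX :=
  ⟨[k4,k4,k20,k44,k45,k48],[],[[[]]],
    [.old (.lp [k6,k8,k6,k6,k12,k6] [k3,k3,k2,k2,k3,k3,k3,k3,k0,k0,k3,k3] k0 [] k24 k5
    [[(k1,k6),(k10,k6)],[(k5,k6),(k3,k7)],[(k0,k7),(k2,k8)],[(k5,k7),(k3,k8)],[(k0,k6),(k2,k7)],[(k7,k6)],[(k4,k6)],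
    [(k11,k6)],[(k8,k12)],[(k9,k12)],[(k6,k6)],[(k1,k6),(k10,k6)]]
    [] k0
    [[k0,k2,k0,k0,k0,k0]]
    [.contra [z1]])]⟩

/-- classes `0 0 1 2 2 3`, types `C0 C0 C0 N0 N2 C0` -/
noncomputable def cU6_1688 : CertX :=
  ⟨[k4,k4,k20,k44,k46,k52],[],[[[]]],
    [.old (.lp [k2,k4,k2,k2,k2,k2] [k1,k1,k0,k0,k1,k1,k1,k1,k1,k1,k1,k1] k0 [] k8 k5
    [[(k10,k2)],[(k5,k2),(k3,k3)],[(k0,k3),(k2,k4)],[(k5,k3),(k3,k4)],[(k0,k2),(k2,k3)],[(k7,k2)],[(k4,k2)],[(k8,k2)],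
    [(k11,k2)],[(k6,k2)],[(k9,k2)],[(k1,k2)]]
    [] k0
    []
    [])]⟩

/-- classes `0 0 1 2 2 3`, types `C0 C0 C0 N0 N2 S0` -/
noncomputable def cU6_1689 : CertX :=
  ⟨[k4,k4,k20,k44,k46,k48],[],[[[]]],
    [.old (.lp [k2,k4,k2,k2,k2,k2] [k1,k1,k0,k0,k1,k1,k1,k1,k1,k1,k1,k1] k0 [] k8 k5
    [[(k1,k2),(k10,k2)],[(k5,k2),(k3,k3)],[(k0,k3),(k2,k4)],[(k5,k3),(k3,k4)],[(k0,k2),(k2,k3)],[(k7,k2)],[(k4,k2)],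
    [(k8,k2)],[(k11,k2)],[(k6,k2)],[(k9,k2)],[(k1,k2),(k10,k2)]]
    [] k0
    []
    [])]⟩

/-- classes `0 0 1 2 2 3`, types `C0 C0 C0 S0 S0 C0` -/
noncomputable def cU6_1690 : CertX :=
  ⟨[k4,k4,k20,k32,k32,k52],[],[[[]]],
    [.old (.lp [k6,k12,k6,k6,k8,k6] [k3,k3,k0,k0,k3,k3,k3,k3,k2,k2,k3,k3] k0 [] k24 k5
    [[(k10,k6)],[(k5,k6),(k3,k9)],[(k0,k9),(k2,k12)],[(k5,k9),(k3,k12)],[(k0,k6),(k2,k9)],[(k7,k6)],[(k4,k6)],[(k6,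
    k6),(k11,k6),(k8,k7),(k9,k7)],[(k6,k7),(k11,k7),(k8,k8),(k9,k8)],[(k6,k7),(k11,k7),(k8,k8),(k9,k8)],[(k6,k6),(k11,
    k6),(k8,k7),(k9,k7)],[(k1,k6)]]
    [] k0
    [[k0,k0,k0,k0,k2,k0]]
    [.contra [z1]])]⟩

/-- classes `0 0 1 2 2 3`, types `C0 C0 C0 S0 S0 S0` -/
noncomputable def cU6_1691 : CertX :=
  ⟨[k4,k4,k20,k32,k32,k48],[],[[[]]],
    [.old (.lp [k6,k8,k6,k6,k12,k6] [k3,k3,k2,k2,k3,k3,k3,k3,k0,k0,k3,k3] k0 [] k24 k5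
    [[(k1,k6),(k10,k6)],[(k5,k6),(k3,k7)],[(k0,k7),(k2,k8)],[(k5,k7),(k3,k8)],[(k0,k6),(k2,k7)],[(k7,k6)],[(k4,k6)],
    [(k6,k6),(k11,k6),(k8,k9),(k9,k9)],[(k6,k9),(k11,k9),(k8,k12),(k9,k12)],[(k6,k9),(k11,k9),(k8,k12),(k9,k12)],[(k6,
    k6),(k11,k6),(k8,k9),(k9,k9)],[(k1,k6),(k10,k6)]]
    [] k0
    [[k0,k2,k0,k0,k0,k0],[k0,k0,k0,k0,k0,k2]]
    [.contra [z1],.contra [z1]])]⟩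

/-- classes `0 0 1 2 2 3`, types `C0 C0 S0 C0 C0 S0` -/
noncomputable def cU6_1692 : CertX :=
  ⟨[k4,k4,k16,k36,k36,k48],[],[[[]]],
    [.old (.lp [k6,k12,k6,k6,k8,k6] [k3,k3,k0,k0,k3,k3,k3,k3,k2,k2,k3,k3] k0 [] k24 k5
    [[(k1,k6),(k10,k6)],[(k5,k6),(k3,k9)],[(k0,k9),(k2,k12)],[(k5,k9),(k3,k12)],[(k0,k6),(k2,k9)],[(k4,k6),(k7,k6)],
    [(k4,k6),(k7,k6)],[(k11,k6),(k9,k7)],[(k6,k7),(k8,k8)],[(k11,k7),(k9,k8)],[(k6,k6),(k8,k7)],[(k1,k6),(k10,k6)]]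
    [] k0
    [[k0,k0,k0,k0,k2,k0]]
    [.contra [z1]])]⟩

/-- classes `0 0 1 2 2 3`, types `C0 C0 S0 C0 C2 S0` -/
noncomputable def cU6_1693 : CertX :=
  ⟨[k4,k4,k16,k36,k38,k48],[],[[[]]],
    [.old (.lp [k6,k8,k6,k12,k0,k12] [k3,k3,k2,k2,k3,k3,k0,k0,k6,k6,k0,k0] k0 [] k24 k5
    [[(k1,k6),(k10,k9)],[(k5,k6),(k3,k7)],[(k0,k7),(k2,k8)],[(k5,k7),(k3,k8)],[(k0,k6),(k2,k7)],[(k4,k6),(k7,k9)],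
    [(k4,k9),(k7,k12)],[(k8,k6),(k9,k6)],[(k6,k6),(k11,k6)],[(k6,k6),(k11,k6)],[(k8,k6),(k9,k6)],[(k1,k9),(k10,k12)]]
    [] k0
    [[k0,k2,k0,k0,k0,k0]]
    [.contra [z1]])]⟩

/-- classes `0 0 1 2 2 3`, types `C0 C0 S0 N0 N1 S0` -/
noncomputable def cU6_1694 : CertX :=
  ⟨[k4,k4,k16,k44,k45,k48],[],[[[]]],
    [.old (.lp [k6,k12,k6,k6,k8,k6] [k3,k3,k0,k0,k3,k3,k3,k3,k2,k2,k3,k3] k0 [] k24 k5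
    [[(k1,k6),(k10,k6)],[(k5,k6),(k3,k9)],[(k0,k9),(k2,k12)],[(k5,k9),(k3,k12)],[(k0,k6),(k2,k9)],[(k4,k6),(k7,k6)],
    [(k4,k6),(k7,k6)],[(k11,k6)],[(k8,k8)],[(k9,k8)],[(k6,k6)],[(k1,k6),(k10,k6)]]
    [] k0
    [[k0,k0,k0,k0,k2,k0]]
    [.contra [z1]])]⟩

/-- classes `0 0 1 2 2 3`, types `C0 C0 S0 N0 N2 S0` -/
noncomputable def cU6_1695 : CertX :=
  ⟨[k4,k4,k16,k44,k46,k48],[],[[[]]],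
    [.old (.lp [k2,k4,k2,k2,k2,k2] [k1,k1,k0,k0,k1,k1,k1,k1,k1,k1,k1,k1] k0 [] k8 k5
    [[(k1,k2),(k10,k2)],[(k5,k2),(k3,k3)],[(k0,k3),(k2,k4)],[(k5,k3),(k3,k4)],[(k0,k2),(k2,k3)],[(k4,k2),(k7,k2)],
    [(k4,k2),(k7,k2)],[(k8,k2)],[(k11,k2)],[(k6,k2)],[(k9,k2)],[(k1,k2),(k10,k2)]]
    [] k0
    []
    [])]⟩

/-- classes `0 0 1 2 2 3`, types `C0 C0 S0 S0 S0 S0` -/
noncomputable def cU6_1696 : CertX :=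
  ⟨[k4,k4,k16,k32,k32,k48],[],[[[]]],
    [.old (.lp [k6,k8,k6,k6,k12,k6] [k3,k3,k2,k2,k3,k3,k3,k3,k0,k0,k3,k3] k0 [] k24 k5
    [[(k1,k6),(k10,k6)],[(k5,k6),(k3,k7)],[(k0,k7),(k2,k8)],[(k5,k7),(k3,k8)],[(k0,k6),(k2,k7)],[(k4,k6),(k7,k6)],
    [(k4,k6),(k7,k6)],[(k6,k6),(k11,k6),(k8,k9),(k9,k9)],[(k6,k9),(k11,k9),(k8,k12),(k9,k12)],[(k6,k9),(k11,k9),(k8,
    k12),(k9,k12)],[(k6,k6),(k11,k6),(k8,k9),(k9,k9)],[(k1,k6),(k10,k6)]]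
    [] k0
    [[k0,k2,k0,k0,k0,k0],[k0,k0,k0,k2,k0,k0],[k0,k0,k0,k0,k0,k2]]
    [.contra [z1],.contra [z1],.contra [z1]])]⟩

/-- classes `0 0 1 2 2 3`, types `C0 C2 C0 C0 C2 C0` -/
noncomputable def cU6_1697 : CertX :=
  ⟨[k4,k6,k20,k36,k38,k52],[],[[[]]],
    [.old (.lp [k0,k2,k0,k2,k0,k2] [k1,k1,k0,k0,k1,k1,k0,k0,k1,k1,k0,k0] k0 [] k4 k5
    [[(k10,k1)],[(k2,k1),(k3,k1)],[(k0,k1),(k5,k1)],[(k0,k1),(k5,k1)],[(k2,k1),(k3,k1)],[(k7,k1)],[(k4,k1)],[(k8,k1),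
    (k9,k1)],[(k6,k1),(k11,k1)],[(k6,k1),(k11,k1)],[(k8,k1),(k9,k1)],[(k1,k1)]]
    [] k0
    []
    [])]⟩

/-- classes `0 0 1 2 2 3`, types `C0 C2 C0 C0 C2 S0` -/
noncomputable def cU6_1698 : CertX :=
  ⟨[k4,k6,k20,k36,k38,k48],[],[[[]]],
    [.old (.lp [k2,k4,k0,k4,k0,k4] [k1,k1,k0,k0,k2,k2,k0,k0,k2,k2,k0,k0] k0 [] k8 k5
    [[(k1,k2),(k10,k3)],[(k2,k3),(k3,k3)],[(k5,k2),(k0,k3)],[(k5,k2),(k0,k3)],[(k2,k2),(k3,k2)],[(k7,k2)],[(k4,k2)],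
    [(k8,k2),(k9,k2)],[(k6,k2),(k11,k2)],[(k6,k2),(k11,k2)],[(k8,k2),(k9,k2)],[(k1,k3),(k10,k4)]]
    [] k0
    []
    [])]⟩

/-- classes `0 0 1 2 2 3`, types `C0 C2 C0 N0 N1 C0` -/
noncomputable def cU6_1699 : CertX :=
  ⟨[k4,k6,k20,k44,k45,k52],[],[[[]]],
    [.old (.lp [k2,k2,k2,k2,k4,k2] [k1,k1,k1,k1,k1,k1,k1,k1,k0,k0,k1,k1] k0 [] k8 k5
    [[(k10,k2)],[(k2,k2),(k3,k2)],[(k0,k2),(k5,k2)],[(k0,k2),(k5,k2)],[(k2,k2),(k3,k2)],[(k7,k2)],[(k4,k2)],[(k11,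
    k2)],[(k8,k4)],[(k9,k4)],[(k6,k2)],[(k1,k2)]]
    [] k0
    []
    [])]⟩

/-- classes `0 0 1 2 2 3`, types `C0 C2 C0 N0 N1 S0` -/
noncomputable def cU6_1700 : CertX :=
  ⟨[k4,k6,k20,k44,k45,k48],[],[[[]]],
    [.old (.lp [k6,k4,k4,k4,k8,k4] [k1,k1,k2,k2,k2,k2,k2,k2,k0,k0,k2,k2] k0 [] k16 k5
    [[(k10,k5),(k1,k6)],[(k2,k5),(k3,k5)],[(k5,k4),(k0,k5)],[(k5,k4),(k0,k5)],[(k2,k4),(k3,k4)],[(k7,k4)],[(k4,k4)],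
    [(k11,k4)],[(k8,k8)],[(k9,k8)],[(k6,k4)],[(k10,k4),(k1,k5)]]
    [] k0
    []
    [])]⟩

/-- classes `0 0 1 2 2 3`, types `C0 C2 C0 N0 N2 C0` -/
noncomputable def cU6_1701 : CertX :=
  ⟨[k4,k6,k20,k44,k46,k52],[],[[[]]],
    [.old (.lp [k0,k2,k0,k2,k0,k2] [k1,k1,k0,k0,k1,k1,k0,k0,k1,k1,k0,k0] k0 [] k4 k5
    [[(k10,k1)],[(k2,k1),(k3,k1)],[(k0,k1),(k5,k1)],[(k0,k1),(k5,k1)],[(k2,k1),(k3,k1)],[(k7,k1)],[(k4,k1)],[(k8,k1)],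
    [(k11,k1)],[(k6,k1)],[(k9,k1)],[(k1,k1)]]
    [] k0
    []
    [])]⟩

/-- classes `0 0 1 2 2 3`, types `C0 C2 C0 N0 N2 S0` -/
noncomputable def cU6_1702 : CertX :=
  ⟨[k4,k6,k20,k44,k46,k48],[],[[[]]],
    [.old (.lp [k6,k4,k4,k4,k4,k4] [k0,k0,k1,k1,k1,k1,k1,k1,k1,k1,k1,k1] k0 [] k16 k5
    [[(k10,k5),(k1,k6)],[(k2,k5),(k3,k5)],[(k5,k4),(k0,k5)],[(k5,k4),(k0,k5)],[(k2,k4),(k3,k4)],[(k7,k4)],[(k4,k4)],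
    [(k8,k4)],[(k11,k4)],[(k6,k4)],[(k9,k4)],[(k10,k4),(k1,k5)]]
    [] k0
    []
    [])]⟩

/-- classes `0 0 1 2 2 3`, types `C0 C2 C0 S0 S0 C0` -/
noncomputable def cU6_1703 : CertX :=
  ⟨[k4,k6,k20,k32,k32,k52],[],[[[]]],
    [.old (.lp [k2,k2,k2,k2,k4,k2] [k1,k1,k1,k1,k1,k1,k1,k1,k0,k0,k1,k1] k0 [] k8 k5
    [[(k10,k2)],[(k2,k2),(k3,k2)],[(k0,k2),(k5,k2)],[(k0,k2),(k5,k2)],[(k2,k2),(k3,k2)],[(k7,k2)],[(k4,k2)],[(k6,k2),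
    (k11,k2),(k8,k3),(k9,k3)],[(k6,k3),(k11,k3),(k8,k4),(k9,k4)],[(k6,k3),(k11,k3),(k8,k4),(k9,k4)],[(k6,k2),(k11,k2),
    (k8,k3),(k9,k3)],[(k1,k2)]]
    [] k0
    []
    [])]⟩

/-- classes `0 0 1 2 2 3`, types `C0 C2 C0 S0 S0 S0` -/
noncomputable def cU6_1704 : CertX :=
  ⟨[k4,k6,k20,k32,k32,k48],[],[[[]]],
    [.old (.lp [k6,k4,k4,k4,k8,k4] [k1,k1,k2,k2,k2,k2,k2,k2,k0,k0,k2,k2] k0 [] k16 k5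
    [[(k10,k5),(k1,k6)],[(k2,k5),(k3,k5)],[(k5,k4),(k0,k5)],[(k5,k4),(k0,k5)],[(k2,k4),(k3,k4)],[(k7,k4)],[(k4,k4)],
    [(k6,k4),(k11,k4),(k8,k6),(k9,k6)],[(k6,k6),(k11,k6),(k8,k8),(k9,k8)],[(k6,k6),(k11,k6),(k8,k8),(k9,k8)],[(k6,k4),
    (k11,k4),(k8,k6),(k9,k6)],[(k10,k4),(k1,k5)]]
    [] k0
    [[k0,k0,k0,k0,k0,k2]]
    [.contra [z1]])]⟩

/-- classes `0 0 1 2 2 3`, types `C0 C2 S0 C0 C2 S0` -/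
noncomputable def cU6_1705 : CertX :=
  ⟨[k4,k6,k16,k36,k38,k48],[(false,k0,[k0,k1,k2,k3,k4,k5]),(true,k5,[k5,k4,k3,k2,k1,k0])],[[[([z1,z0,y1,z0,z0,z0],z0),
    ([z0,z1,z2,z0,z0,z0],z2),([z0,z0,z0,z1,z0,y1],z0)],[([z1,z0,y1,y1,z0,z1],z0),([z0,z1,z2,z2,z0,y2],z2)],[([z1,z0,
    y1,y1,y1,y1],y2)],[]]],
    [.old (.tor k11 false k0 [(z1,[y1,y1,y1,z1]),(z1,[y1,y1,z1,z1]),(z1,[z0,z1]),(z1,[z2,z1])]),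
    .old (.lp [k8,k0,k8,k4,k4,k6] [k0,k0,k4,k4,k0,k0,k2,k2,k2,k2,k1,k1] k0 [] k16 k5
    [[(k10,k7),(k1,k8)],[(k2,k4),(k3,k4)],[(k0,k4),(k5,k4)],[(k0,k4),(k5,k4)],[(k2,k4),(k3,k4)],[(k7,k6),(k4,k8)],
    [(k7,k4),(k4,k6)],[(k8,k4),(k9,k4)],[(k6,k4),(k11,k5)],[(k6,k4),(k11,k5)],[(k8,k5),(k9,k5)],[(k10,k6),(k1,k7)]]
    [] k0
    [[k0,k0,k0,k2,k1,k0]]
    [.ref k0 k0 [(z2,[z1,z3,z1,y1]),(z1,[y1,y1,z0,z1]),(z2,[z1,z1,z1,y1])]]),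
    .old (.lp [k8,k0,k8,k6,k4,k4] [k0,k0,k4,k4,k0,k0,k1,k1,k2,k2,k2,k2] k0 [] k16 k5
    [[(k10,k6),(k1,k8)],[(k2,k4),(k3,k4)],[(k0,k4),(k5,k4)],[(k0,k4),(k5,k4)],[(k2,k4),(k3,k4)],[(k7,k7),(k4,k8)],
    [(k7,k6),(k4,k7)],[(k8,k5),(k9,k5)],[(k11,k4),(k6,k5)],[(k11,k4),(k6,k5)],[(k8,k4),(k9,k4)],[(k10,k4),(k1,k6)]]
    [] k0
    [[k0,k0,k0,k0,k1,k2]]
    [.ref k1 k0 [(z1,[z1,z1]),(z1,[y2,y1,z1])]]),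
    .old (.lp [k8,k0,k8,k6,k4,k4] [k0,k0,k4,k4,k0,k0,k1,k1,k2,k2,k2,k2] k0 [] k16 k5
    [[(k10,k6),(k1,k8)],[(k2,k4),(k3,k4)],[(k0,k4),(k5,k4)],[(k0,k4),(k5,k4)],[(k2,k4),(k3,k4)],[(k7,k7),(k4,k8)],
    [(k7,k6),(k4,k7)],[(k8,k5),(k9,k5)],[(k11,k4),(k6,k5)],[(k11,k4),(k6,k5)],[(k8,k4),(k9,k4)],[(k10,k4),(k1,k6)]]
    [] k0
    [[k0,k0,k0,k0,k1,k2]]
    [.ref k2 k1 [(z1,[z1,y1])]])]⟩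

/-- classes `0 0 1 2 2 3`, types `C0 C2 S0 N0 N1 S0` -/
noncomputable def cU6_1706 : CertX :=
  ⟨[k4,k6,k16,k44,k45,k48],[],[[[]]],
    [.old (.lp [k12,k0,k12,k6,k8,k6] [k0,k0,k6,k6,k0,k0,k3,k3,k2,k2,k3,k3] k0 [] k24 k5
    [[(k10,k9),(k1,k12)],[(k2,k6),(k3,k6)],[(k0,k6),(k5,k6)],[(k0,k6),(k5,k6)],[(k2,k6),(k3,k6)],[(k7,k9),(k4,k12)],
    [(k7,k6),(k4,k9)],[(k11,k6)],[(k8,k8)],[(k9,k8)],[(k6,k6)],[(k10,k6),(k1,k9)]]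
    [] k0
    [[k0,k0,k0,k0,k2,k0]]
    [.contra [z1]])]⟩

/-- classes `0 0 1 2 2 3`, types `C0 C2 S0 N0 N2 S0` -/
noncomputable def cU6_1707 : CertX :=
  ⟨[k4,k6,k16,k44,k46,k48],[],[[[]]],
    [.old (.lp [k4,k0,k4,k2,k2,k2] [k0,k0,k2,k2,k0,k0,k1,k1,k1,k1,k1,k1] k0 [] k8 k5
    [[(k10,k3),(k1,k4)],[(k2,k2),(k3,k2)],[(k0,k2),(k5,k2)],[(k0,k2),(k5,k2)],[(k2,k2),(k3,k2)],[(k7,k3),(k4,k4)],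
    [(k7,k2),(k4,k3)],[(k8,k2)],[(k11,k2)],[(k6,k2)],[(k9,k2)],[(k10,k2),(k1,k3)]]
    [] k0
    []
    [])]⟩

/-- classes `0 0 1 2 2 3`, types `C0 C2 S0 S0 S0 S0` -/
noncomputable def cU6_1708 : CertX :=
  ⟨[k4,k6,k16,k32,k32,k48],[(false,k0,[k0,k1,k2,k3,k4,k5])],[[[([z1,z0,y1,z0,z0,z0],z0),([z0,z1,z2,z0,z0,z0],z2),([z0,
    z0,z0,z1,z0,y1],z0)],[([z1,z1,z1,z0,z0,z0],z2),([z0,z0,z0,z1,z0,y1],z0)],[([z2,z2,z2,z0,z1,z2],z6)],[]]],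
    [.old (.tor k11 false k0 [(z1,[y1,y1,y1,z1]),(z1,[y1,y1,z1,z1]),(z1,[z0,z1]),(z1,[z2,z1])]),
    .old (.lp [k4,k4,k6,k4,k8,k4] [k2,k2,k2,k2,k1,k1,k2,k2,k0,k0,k2,k2] k0 [] k16 k5
    [[(k1,k4),(k10,k4)],[(k2,k4),(k3,k4)],[(k0,k4),(k5,k5)],[(k0,k4),(k5,k5)],[(k2,k5),(k3,k5)],[(k7,k5),(k4,k6)],
    [(k7,k4),(k4,k5)],[(k6,k4),(k11,k4),(k8,k6),(k9,k6)],[(k6,k6),(k11,k6),(k8,k8),(k9,k8)],[(k6,k6),(k11,k6),(k8,k8),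
    (k9,k8)],[(k6,k4),(k11,k4),(k8,k6),(k9,k6)],[(k1,k4),(k10,k4)]]
    [] k0
    [[k2,k1,k0,k0,k0,k0],[k0,k0,k0,k2,k0,k0],[k0,k0,k0,k0,k0,k2]]
    [.ref k0 k0 [(z1,[z1,y1]),(z1,[y1,z2]),(z1,[z0,z0,z1])],.contra [z1],.contra [z1,z0,z2]]),
    .old (.lp [k6,k12,k6,k8,k8,k6] [k3,k3,k0,k0,k3,k3,k2,k2,k2,k2,k3,k3] k0 [] k24 k5
    [[(k1,k6),(k10,k6)],[(k2,k9),(k3,k9)],[(k0,k9),(k5,k9)],[(k0,k9),(k5,k9)],[(k2,k9),(k3,k9)],[(k4,k6),(k7,k7)],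
    [(k4,k7),(k7,k8)],[(k11,k7),(k6,k8),(k8,k8),(k9,k8)],[(k11,k7),(k6,k8),(k8,k8),(k9,k8)],[(k11,k7),(k6,k8),(k8,k8),
    (k9,k8)],[(k11,k6),(k6,k7),(k8,k7),(k9,k7)],[(k1,k6),(k10,k6)]]
    [] k0
    [[k0,k0,k0,k2,k0,k0],[k0,k0,k0,k0,k2,k0],[k0,k0,k0,k0,k1,k2],[k0,k0,k0,k0,k0,k2]]
    [.contra [z1],.contra [z1],.ref k1 k0 [(z2,[y1,z1]),(z2,[y1,y1,z2])],.contra [z1]]),
    .old (.lp [k6,k12,k6,k6,k8,k8] [k3,k3,k0,k0,k3,k3,k3,k3,k2,k2,k2,k2] k0 [] k24 k5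
    [[(k1,k6),(k10,k7)],[(k2,k9),(k3,k9)],[(k0,k9),(k5,k9)],[(k0,k9),(k5,k9)],[(k2,k9),(k3,k9)],[(k4,k6),(k7,k6)],
    [(k4,k6),(k7,k6)],[(k6,k6),(k8,k7),(k9,k7),(k11,k7)],[(k6,k7),(k8,k8),(k9,k8),(k11,k8)],[(k6,k7),(k8,k8),(k9,k8),
    (k11,k8)],[(k6,k7),(k8,k8),(k9,k8),(k11,k8)],[(k1,k7),(k10,k8)]]
    [] k0
    [[k0,k0,k0,k2,k0,k0],[k0,k0,k0,k2,k1,k0],[k0,k0,k0,k0,k2,k0],[k0,k0,k0,k0,k0,k2]]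
    [.contra [z1],.ref k2 k0 [(z1,[y1,z2])],.contra [z1],.contra [z1]])]⟩

/-- classes `0 0 1 2 2 3`, types `N0 N1 C0 N0 N1 C0` -/
noncomputable def cU6_1709 : CertX :=
  ⟨[k12,k13,k20,k44,k45,k52],[],[[[]]],
    [.old (.lp [k0,k6,k6,k0,k4,k6] [k3,k3,k0,k0,k0,k0,k3,k3,k1,k1,k0,k0] k0 [] k12 k5
    [[(k10,k3)],[(k5,k3)],[(k2,k6)],[(k3,k6)],[(k0,k3)],[(k7,k3)],[(k4,k3)],[(k11,k3)],[(k8,k4)],[(k9,k4)],[(k6,k3)],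
    [(k1,k3)]]
    [] k0
    [[k0,k0,k0,k0,k2,k0]]
    [.contra [z1]])]⟩

/-- classes `0 0 1 2 2 3`, types `N0 N1 C0 N0 N1 S0` -/
noncomputable def cU6_1710 : CertX :=
  ⟨[k12,k13,k20,k44,k45,k48],[],[[[]]],
    [.old (.lp [k6,k8,k6,k6,k12,k6] [k3,k3,k2,k2,k3,k3,k3,k3,k0,k0,k3,k3] k0 [] k24 k5
    [[(k1,k6),(k10,k6)],[(k5,k6)],[(k2,k8)],[(k3,k8)],[(k0,k6)],[(k7,k6)],[(k4,k6)],[(k11,k6)],[(k8,k12)],[(k9,k12)],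
    [(k6,k6)],[(k1,k6),(k10,k6)]]
    [] k0
    [[k0,k2,k0,k0,k0,k0]]
    [.contra [z1]])]⟩

/-- classes `0 0 1 2 2 3`, types `N0 N1 C0 N0 N2 C0` -/
noncomputable def cU6_1711 : CertX :=
  ⟨[k12,k13,k20,k44,k46,k52],[],[[[]]],
    [.old (.lp [k2,k4,k2,k2,k2,k2] [k1,k1,k0,k0,k1,k1,k1,k1,k1,k1,k1,k1] k0 [] k8 k5
    [[(k10,k2)],[(k5,k2)],[(k2,k4)],[(k3,k4)],[(k0,k2)],[(k7,k2)],[(k4,k2)],[(k8,k2)],[(k11,k2)],[(k6,k2)],[(k9,k2)],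
    [(k1,k2)]]
    [] k0
    []
    [])]⟩

/-- classes `0 0 1 2 2 3`, types `N0 N1 C0 N0 N2 S0` -/
noncomputable def cU6_1712 : CertX :=
  ⟨[k12,k13,k20,k44,k46,k48],[],[[[]]],
    [.old (.lp [k2,k4,k2,k2,k2,k2] [k1,k1,k0,k0,k1,k1,k1,k1,k1,k1,k1,k1] k0 [] k8 k5
    [[(k1,k2),(k10,k2)],[(k5,k2)],[(k2,k4)],[(k3,k4)],[(k0,k2)],[(k7,k2)],[(k4,k2)],[(k8,k2)],[(k11,k2)],[(k6,k2)],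
    [(k9,k2)],[(k1,k2),(k10,k2)]]
    [] k0
    []
    [])]⟩

/-- classes `0 0 1 2 2 3`, types `N0 N1 C0 S0 S0 C0` -/
noncomputable def cU6_1713 : CertX :=
  ⟨[k12,k13,k20,k32,k32,k52],[],[[[]]],
    [.old (.lp [k6,k12,k6,k6,k8,k6] [k3,k3,k0,k0,k3,k3,k3,k3,k2,k2,k3,k3] k0 [] k24 k5
    [[(k10,k6)],[(k5,k6)],[(k2,k12)],[(k3,k12)],[(k0,k6)],[(k7,k6)],[(k4,k6)],[(k6,k6),(k11,k6),(k8,k7),(k9,k7)],[(k6,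
    k7),(k11,k7),(k8,k8),(k9,k8)],[(k6,k7),(k11,k7),(k8,k8),(k9,k8)],[(k6,k6),(k11,k6),(k8,k7),(k9,k7)],[(k1,k6)]]
    [] k0
    [[k0,k0,k0,k0,k2,k0]]
    [.contra [z1]])]⟩

/-- classes `0 0 1 2 2 3`, types `N0 N1 C0 S0 S0 S0` -/
noncomputable def cU6_1714 : CertX :=
  ⟨[k12,k13,k20,k32,k32,k48],[],[[[]]],
    [.old (.lp [k6,k8,k6,k6,k12,k6] [k3,k3,k2,k2,k3,k3,k3,k3,k0,k0,k3,k3] k0 [] k24 k5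
    [[(k1,k6),(k10,k6)],[(k5,k6)],[(k2,k8)],[(k3,k8)],[(k0,k6)],[(k7,k6)],[(k4,k6)],[(k6,k6),(k11,k6),(k8,k9),(k9,
    k9)],[(k6,k9),(k11,k9),(k8,k12),(k9,k12)],[(k6,k9),(k11,k9),(k8,k12),(k9,k12)],[(k6,k6),(k11,k6),(k8,k9),(k9,k9)],
    [(k1,k6),(k10,k6)]]
    [] k0
    [[k0,k2,k0,k0,k0,k0],[k0,k0,k0,k0,k0,k2]]
    [.contra [z1],.contra [z1]])]⟩

/-- classes `0 0 1 2 2 3`, types `N0 N1 S0 N0 N1 S0` -/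
noncomputable def cU6_1715 : CertX :=
  ⟨[k12,k13,k16,k44,k45,k48],[],[[[]]],
    [.old (.lp [k6,k12,k6,k6,k8,k6] [k3,k3,k0,k0,k3,k3,k3,k3,k2,k2,k3,k3] k0 [] k24 k5
    [[(k1,k6),(k10,k6)],[(k5,k6)],[(k2,k12)],[(k3,k12)],[(k0,k6)],[(k4,k6),(k7,k6)],[(k4,k6),(k7,k6)],[(k11,k6)],[(k8,
    k8)],[(k9,k8)],[(k6,k6)],[(k1,k6),(k10,k6)]]
    [] k0
    [[k0,k0,k0,k0,k2,k0]]
    [.contra [z1]])]⟩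

/-- classes `0 0 1 2 2 3`, types `N0 N1 S0 N0 N2 S0` -/
noncomputable def cU6_1716 : CertX :=
  ⟨[k12,k13,k16,k44,k46,k48],[],[[[]]],
    [.old (.lp [k2,k4,k2,k2,k2,k2] [k1,k1,k0,k0,k1,k1,k1,k1,k1,k1,k1,k1] k0 [] k8 k5
    [[(k1,k2),(k10,k2)],[(k5,k2)],[(k2,k4)],[(k3,k4)],[(k0,k2)],[(k4,k2),(k7,k2)],[(k4,k2),(k7,k2)],[(k8,k2)],[(k11,
    k2)],[(k6,k2)],[(k9,k2)],[(k1,k2),(k10,k2)]]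
    [] k0
    []
    [])]⟩

/-- classes `0 0 1 2 2 3`, types `N0 N1 S0 S0 S0 S0` -/
noncomputable def cU6_1717 : CertX :=
  ⟨[k12,k13,k16,k32,k32,k48],[],[[[]]],
    [.old (.lp [k6,k8,k6,k6,k12,k6] [k3,k3,k2,k2,k3,k3,k3,k3,k0,k0,k3,k3] k0 [] k24 k5
    [[(k1,k6),(k10,k6)],[(k5,k6)],[(k2,k8)],[(k3,k8)],[(k0,k6)],[(k4,k6),(k7,k6)],[(k4,k6),(k7,k6)],[(k6,k6),(k11,k6),
    (k8,k9),(k9,k9)],[(k6,k9),(k11,k9),(k8,k12),(k9,k12)],[(k6,k9),(k11,k9),(k8,k12),(k9,k12)],[(k6,k6),(k11,k6),(k8,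
    k9),(k9,k9)],[(k1,k6),(k10,k6)]]
    [] k0
    [[k0,k2,k0,k0,k0,k0],[k0,k0,k0,k2,k0,k0],[k0,k0,k0,k0,k0,k2]]
    [.contra [z1],.contra [z1],.contra [z1]])]⟩

/-- classes `0 0 1 2 2 3`, types `N0 N2 C0 N0 N2 C0` -/
noncomputable def cU6_1718 : CertX :=
  ⟨[k12,k14,k20,k44,k46,k52],[],[[[]]],
    [.old (.lp [k0,k2,k0,k2,k0,k2] [k1,k1,k0,k0,k1,k1,k0,k0,k1,k1,k0,k0] k0 [] k4 k5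
    [[(k10,k1)],[(k2,k1)],[(k5,k1)],[(k0,k1)],[(k3,k1)],[(k7,k1)],[(k4,k1)],[(k8,k1)],[(k11,k1)],[(k6,k1)],[(k9,k1)],
    [(k1,k1)]]
    [] k0
    []
    [])]⟩

/-- classes `0 0 1 2 2 3`, types `N0 N2 C0 N0 N2 S0` -/
noncomputable def cU6_1719 : CertX :=
  ⟨[k12,k14,k20,k44,k46,k48],[],[[[]]],
    [.old (.lp [k2,k2,k2,k2,k2,k2] [k0,k0,k0,k0,k0,k0,k0,k0,k0,k0,k0,k0] k0 [] k8 k5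
    [[(k1,k2),(k10,k2)],[(k2,k2)],[(k5,k2)],[(k0,k2)],[(k3,k2)],[(k7,k2)],[(k4,k2)],[(k8,k2)],[(k11,k2)],[(k6,k2)],
    [(k9,k2)],[(k1,k2),(k10,k2)]]
    [] k0
    []
    [])]⟩

/-- classes `0 0 1 2 2 3`, types `N0 N2 C0 S0 S0 C0` -/
noncomputable def cU6_1720 : CertX :=
  ⟨[k12,k14,k20,k32,k32,k52],[],[[[]]],
    [.old (.lp [k2,k2,k2,k2,k4,k2] [k1,k1,k1,k1,k1,k1,k1,k1,k0,k0,k1,k1] k0 [] k8 k5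
    [[(k10,k2)],[(k2,k2)],[(k5,k2)],[(k0,k2)],[(k3,k2)],[(k7,k2)],[(k4,k2)],[(k6,k2),(k11,k2),(k8,k3),(k9,k3)],[(k6,
    k3),(k11,k3),(k8,k4),(k9,k4)],[(k6,k3),(k11,k3),(k8,k4),(k9,k4)],[(k6,k2),(k11,k2),(k8,k3),(k9,k3)],[(k1,k2)]]
    [] k0
    []
    [])]⟩

/-- classes `0 0 1 2 2 3`, types `N0 N2 C0 S0 S0 S0` -/
noncomputable def cU6_1721 : CertX :=
  ⟨[k12,k14,k20,k32,k32,k48],[],[[[]]],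
    [.old (.lp [k2,k2,k2,k2,k4,k2] [k1,k1,k1,k1,k1,k1,k1,k1,k0,k0,k1,k1] k0 [] k8 k5
    [[(k1,k2),(k10,k2)],[(k2,k2)],[(k5,k2)],[(k0,k2)],[(k3,k2)],[(k7,k2)],[(k4,k2)],[(k6,k2),(k11,k2),(k8,k3),(k9,
    k3)],[(k6,k3),(k11,k3),(k8,k4),(k9,k4)],[(k6,k3),(k11,k3),(k8,k4),(k9,k4)],[(k6,k2),(k11,k2),(k8,k3),(k9,k3)],
    [(k1,k2),(k10,k2)]]
    [] k0
    [[k0,k0,k0,k0,k0,k2]]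
    [.contra [z1]])]⟩

/-- classes `0 0 1 2 2 3`, types `N0 N2 S0 N0 N2 S0` -/
noncomputable def cU6_1722 : CertX :=
  ⟨[k12,k14,k16,k44,k46,k48],[],[[[]]],
    [.old (.lp [k2,k2,k2,k2,k2,k2] [k0,k0,k0,k0,k0,k0,k0,k0,k0,k0,k0,k0] k0 [] k8 k5
    [[(k1,k2),(k10,k2)],[(k2,k2)],[(k5,k2)],[(k0,k2)],[(k3,k2)],[(k4,k2),(k7,k2)],[(k4,k2),(k7,k2)],[(k8,k2)],[(k11,
    k2)],[(k6,k2)],[(k9,k2)],[(k1,k2),(k10,k2)]]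
    [] k0
    []
    [])]⟩

/-- classes `0 0 1 2 2 3`, types `N0 N2 S0 S0 S0 S0` -/
noncomputable def cU6_1723 : CertX :=
  ⟨[k12,k14,k16,k32,k32,k48],[],[[[]]],
    [.old (.lp [k2,k2,k2,k2,k4,k2] [k1,k1,k1,k1,k1,k1,k1,k1,k0,k0,k1,k1] k0 [] k8 k5
    [[(k1,k2),(k10,k2)],[(k2,k2)],[(k5,k2)],[(k0,k2)],[(k3,k2)],[(k4,k2),(k7,k2)],[(k4,k2),(k7,k2)],[(k6,k2),(k11,k2),
    (k8,k3),(k9,k3)],[(k6,k3),(k11,k3),(k8,k4),(k9,k4)],[(k6,k3),(k11,k3),(k8,k4),(k9,k4)],[(k6,k2),(k11,k2),(k8,k3),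
    (k9,k3)],[(k1,k2),(k10,k2)]]
    [] k0
    [[k0,k0,k0,k2,k0,k0],[k0,k0,k0,k0,k0,k2]]
    [.contra [z1],.contra [z1]])]⟩

/-- classes `0 0 1 2 2 3`, types `S0 S0 C0 S0 S0 C0` -/
noncomputable def cU6_1724 : CertX :=
  ⟨[k0,k0,k20,k32,k32,k52],[],[[[]]],
    [.old (.lp [k6,k8,k6,k6,k12,k6] [k3,k3,k2,k2,k3,k3,k3,k3,k0,k0,k3,k3] k0 [] k24 k5
    [[(k10,k6)],[(k0,k6),(k5,k6),(k2,k7),(k3,k7)],[(k0,k7),(k5,k7),(k2,k8),(k3,k8)],[(k0,k7),(k5,k7),(k2,k8),(k3,k8)],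
    [(k0,k6),(k5,k6),(k2,k7),(k3,k7)],[(k7,k6)],[(k4,k6)],[(k6,k6),(k11,k6),(k8,k9),(k9,k9)],[(k6,k9),(k11,k9),(k8,
    k12),(k9,k12)],[(k6,k9),(k11,k9),(k8,k12),(k9,k12)],[(k6,k6),(k11,k6),(k8,k9),(k9,k9)],[(k1,k6)]]
    [] k0
    [[k0,k2,k0,k0,k0,k0]]
    [.contra [z1]])]⟩

/-- classes `0 0 1 2 2 3`, types `S0 S0 C0 S0 S0 S0` -/
noncomputable def cU6_1725 : CertX :=
  ⟨[k0,k0,k20,k32,k32,k48],[],[[[]]],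
    [.old (.lp [k8,k8,k6,k6,k12,k6] [k2,k2,k2,k2,k3,k3,k3,k3,k0,k0,k3,k3] k0 [] k24 k5
    [[(k10,k7),(k1,k8)],[(k5,k7),(k0,k8),(k2,k8),(k3,k8)],[(k5,k7),(k0,k8),(k2,k8),(k3,k8)],[(k5,k7),(k0,k8),(k2,k8),
    (k3,k8)],[(k5,k6),(k0,k7),(k2,k7),(k3,k7)],[(k7,k6)],[(k4,k6)],[(k6,k6),(k11,k6),(k8,k9),(k9,k9)],[(k6,k9),(k11,
    k9),(k8,k12),(k9,k12)],[(k6,k9),(k11,k9),(k8,k12),(k9,k12)],[(k6,k6),(k11,k6),(k8,k9),(k9,k9)],[(k10,k6),(k1,k7)]]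
    [] k0
    [[k2,k0,k0,k0,k0,k0],[k0,k2,k0,k0,k0,k0],[k0,k0,k0,k0,k0,k2]]
    [.contra [z1],.contra [z1],.contra [z1]])]⟩

/-- classes `0 0 1 2 3 1`, types `B0 B1 B0 C0 C0 B1` -/
noncomputable def cU6_1726 : CertX :=
  ⟨[k8,k9,k24,k36,k52,k25],[(false,k0,[k0,k1,k2,k3,k4,k5])],[[[([z1,z1,z1,z0,z0,z0],z2)],[]]],
    [.old (.leafM k4 [k0,k1,k2,k3,k4,k5] [(z1,[y1,z1])] []),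
    .old (.lp [k6,k10,k24,k6,k6,k6] [k9,k9,k7,k7,k0,k0,k9,k9,k9,k9,k9,k9] k0 [] k30 k6
    [[(k7,k6),(k4,k15)],[(k2,k8),(k5,k15)],[(k2,k10),(k5,k17)],[(k0,k8),(k3,k10)],[(k0,k15),(k3,k17)],[(k1,k15),(k10,
    k15)],[(k1,k6),(k10,k6)],[(k9,k6)],[(k6,k6)],[(k11,k6)],[(k8,k6)],[(k7,k6),(k4,k15)]]
    [] k0
    [[k0,k2,k0,k0,k0,k0],[k0,k0,k0,k1,k1,k1]]
    [.contra [z1],.ref k0 k0 [(z1,[y1,z1])]])]⟩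

/-- classes `0 0 1 2 3 1`, types `B0 B1 B0 C0 S0 B1` -/
noncomputable def cU6_1727 : CertX :=
  ⟨[k8,k9,k24,k36,k48,k25],[(false,k0,[k0,k1,k2,k3,k4,k5])],[[[([z1,z1,z1,z0,z0,z0],z2)],[]]],
    [.old (.leafM k4 [k0,k1,k2,k3,k4,k5] [(z1,[y1,z1])] []),
    .old (.lp [k6,k10,k24,k6,k6,k6] [k9,k9,k7,k7,k0,k0,k9,k9,k9,k9,k9,k9] k0 [] k30 k6
    [[(k7,k6),(k4,k15)],[(k2,k8),(k5,k15)],[(k2,k10),(k5,k17)],[(k0,k8),(k3,k10)],[(k0,k15),(k3,k17)],[(k1,k15),(k10,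
    k15)],[(k1,k6),(k10,k6)],[(k9,k6)],[(k6,k6)],[(k8,k6),(k11,k6)],[(k8,k6),(k11,k6)],[(k7,k6),(k4,k15)]]
    [] k0
    [[k0,k2,k0,k0,k0,k0],[k0,k0,k0,k1,k1,k1]]
    [.contra [z1],.ref k0 k0 [(z1,[y1,z1])]])]⟩

/-- classes `0 0 1 2 3 1`, types `B0 B1 B0 S0 S0 B1` -/
noncomputable def cU6_1728 : CertX :=
  ⟨[k8,k9,k24,k32,k48,k25],[(false,k0,[k0,k1,k2,k3,k4,k5])],[[[([z1,z1,z1,z0,z0,z0],z2)],[([z1,z0,z1,z0,z0,z0],z2),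
    ([z0,z2,z0,z0,z0,z0],z1),([z0,z0,z0,z1,z0,z1],z1)],[([z1,z0,z1,z0,z0,z0],z2),([z0,z3,z0,z0,z0,z0],z2),([z0,z0,z0,
    z1,z0,z1],z1)],[([z1,z0,z1,z0,z0,z0],z2),([z0,z1,z0,z0,z1,z0],z1)],[([z1,z0,z1,z0,z0,z0],z2)],[]]],
    [.old (.leafM k4 [k0,k1,k2,k3,k4,k5] [(z1,[y1,z1])] []),
    .old (.leafM k9 [k5,k1,k3,k4] [(z1,[z0,z1]),(z1,[y2,y1,y2,z2]),(z1,[z0,z0,z1])] [(k0,k2,z1,[z1]),(k2,k0,z1,[z1])]),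
    .old (.leafM k8 [k5,k1,k3,k4] [(z1,[z0,z1]),(z1,[y3,y1,y3,z3]),(z1,[z0,z0,z1])] [(k0,k2,z1,[z1]),(k2,k0,z1,[z1])]),
    .old (.lp [k34,k10,k6,k8,k8,k12] [k0,k0,k12,k12,k14,k14,k13,k13,k13,k13,k11,k11] k0 [] k40 k6
    [[(k4,k20),(k7,k21)],[(k5,k20),(k2,k22)],[(k5,k8),(k2,k10)],[(k3,k10),(k0,k22)],[(k3,k8),(k0,k20)],[(k10,k9),(k1,
    k20)],[(k10,k10),(k1,k21)],[(k6,k8),(k9,k8)],[(k6,k8),(k9,k8)],[(k8,k8),(k11,k10)],[(k8,k10),(k11,k12)],[(k4,k9),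
    (k7,k10)]]
    [] k0
    [[k0,k2,k0,k0,k0,k0],[k0,k3,k0,k0,k0,k0],[k0,k0,k0,k1,k1,k1],[k0,k0,k0,k0,k2,k0],[k0,k0,k0,k0,k4,k0]]
    [.contra [z1],.ref k2 k0 [(z1,[z0,z1]),(z1,[z1]),(z1,[z0,y1,y1,z1])],.contra [z1,z1,z1,y1],.contra [z1],
    .ref k1 k0 [(z1,[z0,z1]),(z2,[y1,z0,z4]),(z1,[z0,y1,y1,z1])]]),
    .old (.lp [k96,k40,k24,k24,k30,k24] [k0,k0,k28,k28,k36,k36,k36,k36,k33,k33,k36,k36] k0 [] k120 k6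
    [[(k4,k60),(k7,k60)],[(k5,k60),(k2,k68)],[(k5,k32),(k2,k40)],[(k3,k40),(k0,k68)],[(k3,k32),(k0,k60)],[(k10,k24),
    (k1,k60)],[(k10,k24),(k1,k60)],[(k6,k24),(k9,k27)],[(k6,k27),(k9,k30)],[(k11,k27),(k8,k30)],[(k11,k24),(k8,k27)],
    [(k4,k24),(k7,k24)]]
    [] k0
    [[k0,k2,k0,k0,k0,k0],[k0,k0,k0,k1,k1,k1],[k0,k0,k0,k2,k0,k2],[k0,k0,k0,k0,k2,k0]]
    [.contra [z1],.contra [y1,y1,z1],.ref k3 k0 [(z1,[z0,z1]),(z2,[y1,y2,z2])],.contra [z1]]),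
    .old (.lp [k6,k8,k6,k6,k12,k6] [k3,k3,k2,k2,k3,k3,k3,k3,k0,k0,k3,k3] k0 [] k24 k5
    [[(k4,k6),(k7,k6)],[(k5,k6),(k2,k7)],[(k5,k7),(k2,k8)],[(k0,k7),(k3,k8)],[(k0,k6),(k3,k7)],[(k1,k6),(k10,k6)],
    [(k1,k6),(k10,k6)],[(k6,k6),(k9,k9)],[(k6,k9),(k9,k12)],[(k11,k9),(k8,k12)],[(k11,k6),(k8,k9)],[(k4,k6),(k7,k6)]]
    [] k0
    [[k1,k0,k1,k0,k0,k0],[k1,k1,k1,k0,k0,k0],[k0,k2,k0,k0,k0,k0]]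
    [.ref k4 k0 [(z1,[z1])],.ref k0 k0 [(z1,[z1])],.contra [z1]])]⟩

/-- the certificates of this file -/
noncomputable def lU6_30 : List CertX :=
  [cU6_1617, cU6_1618, cU6_1619, cU6_1620, cU6_1621, cU6_1622, cU6_1623, cU6_1624, cU6_1625, cU6_1626,
      cU6_1627, cU6_1628, cU6_1629, cU6_1630, cU6_1631, cU6_1632, cU6_1633, cU6_1634, cU6_1635, cU6_1636,
      cU6_1637, cU6_1638, cU6_1639, cU6_1640, cU6_1641, cU6_1642, cU6_1643, cU6_1644, cU6_1645, cU6_1646,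
      cU6_1647, cU6_1648, cU6_1649, cU6_1650, cU6_1651, cU6_1652, cU6_1653, cU6_1654, cU6_1655, cU6_1656,
      cU6_1657, cU6_1658, cU6_1659, cU6_1660, cU6_1661, cU6_1662, cU6_1663, cU6_1664, cU6_1665, cU6_1666,
      cU6_1667, cU6_1668, cU6_1669, cU6_1670, cU6_1671, cU6_1672, cU6_1673, cU6_1674, cU6_1675, cU6_1676,
      cU6_1677, cU6_1678, cU6_1679, cU6_1680, cU6_1681, cU6_1682, cU6_1683, cU6_1684, cU6_1685, cU6_1686,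
      cU6_1687, cU6_1688, cU6_1689, cU6_1690, cU6_1691, cU6_1692, cU6_1693, cU6_1694, cU6_1695, cU6_1696,
      cU6_1697, cU6_1698, cU6_1699, cU6_1700, cU6_1701, cU6_1702, cU6_1703, cU6_1704, cU6_1705, cU6_1706,
      cU6_1707, cU6_1708, cU6_1709, cU6_1710, cU6_1711, cU6_1712, cU6_1713, cU6_1714, cU6_1715, cU6_1716,
      cU6_1717, cU6_1718, cU6_1719, cU6_1720, cU6_1721, cU6_1722, cU6_1723, cU6_1724, cU6_1725, cU6_1726,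
      cU6_1727, cU6_1728]

theorem gU6_30 : allF (chkE 6 ttU6) lU6_30 = true := by
  decide +kernel

end Pool.Agent.Lib_MP_fa6e45
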