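import Pool.Agent.Lib_MP_fa6e45.CXT
import Pool.Agent.Lib_MP_fa6e45.HK

/-!
MP_fa6e45_co, stage 7: certificates (generated by a program).
-/

namespace Pool.Agent.Lib_MP_fa6e45

/-- classes `0 0 1 2 3 1`, types `B0 B1 C0 C0 C0 C0` -/
noncomputable def cU6_1729 : CertX :=
  ⟨[k8,k9,k20,k36,k52,k20],[(false,k0,[k0,k1,k2,k3,k4,k5])],[[[([z1,z1,z1,z0,z0,z0],z2)],[]]],
    [.old (.leafM k4 [k0,k1,k2,k3,k4,k5] [(z1,[y1,z1])] []),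
    .old (.lp [k24,k10,k6,k6,k6,k6] [k0,k0,k7,k7,k9,k9,k9,k9,k9,k9,k9,k9] k0 [] k30 k6
    [[(k4,k15),(k10,k15)],[(k5,k15),(k2,k17)],[(k5,k8),(k2,k10)],[(k3,k10),(k0,k17)],[(k3,k8),(k0,k15)],[(k7,k6),(k1,
    k15)],[(k4,k6),(k10,k6)],[(k9,k6)],[(k6,k6)],[(k11,k6)],[(k8,k6)],[(k7,k6),(k1,k15)]]
    [] k0
    [[k0,k2,k0,k0,k0,k0],[k0,k0,k0,k1,k1,k1]]
    [.contra [z1],.ref k0 k0 [(z1,[y1,z1])]])]⟩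

/-- classes `0 0 1 2 3 1`, types `B0 B1 C0 C0 C0 C2` -/
noncomputable def cU6_1730 : CertX :=
  ⟨[k8,k9,k20,k36,k52,k22],[],[[[]]],
    [.old (.lp [k2,k4,k2,k2,k2,k2] [k1,k1,k0,k0,k1,k1,k1,k1,k1,k1,k1,k1] k0 [] k8 k5
    [[(k7,k2),(k10,k2)],[(k5,k2),(k2,k3)],[(k5,k3),(k2,k4)],[(k0,k3),(k3,k4)],[(k0,k2),(k3,k3)],[(k7,k2),(k10,k2)],
    [(k1,k2),(k4,k2)],[(k9,k2)],[(k6,k2)],[(k11,k2)],[(k8,k2)],[(k1,k2),(k4,k2)]]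
    [] k0
    []
    [])]⟩

/-- classes `0 0 1 2 3 1`, types `B0 B1 C0 C0 S0 C0` -/
noncomputable def cU6_1731 : CertX :=
  ⟨[k8,k9,k20,k36,k48,k20],[(false,k0,[k0,k1,k2,k3,k4,k5])],[[[([z1,z1,z1,z0,z0,z0],z2)],[]]],
    [.old (.leafM k4 [k0,k1,k2,k3,k4,k5] [(z1,[y1,z1])] []),
    .old (.lp [k6,k10,k24,k6,k6,k6] [k9,k9,k7,k7,k0,k0,k9,k9,k9,k9,k9,k9] k0 [] k30 k6
    [[(k10,k6),(k4,k15)],[(k2,k8),(k5,k15)],[(k2,k10),(k5,k17)],[(k0,k8),(k3,k10)],[(k0,k15),(k3,k17)],[(k1,k15),(k7,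
    k15)],[(k10,k6),(k4,k15)],[(k9,k6)],[(k6,k6)],[(k8,k6),(k11,k6)],[(k8,k6),(k11,k6)],[(k1,k6),(k7,k6)]]
    [] k0
    [[k0,k2,k0,k0,k0,k0],[k0,k0,k0,k1,k1,k1]]
    [.contra [z1],.ref k0 k0 [(z1,[y1,z1])]])]⟩

/-- classes `0 0 1 2 3 1`, types `B0 B1 C0 C0 S0 C2` -/
noncomputable def cU6_1732 : CertX :=
  ⟨[k8,k9,k20,k36,k48,k22],[],[[[]]],
    [.old (.lp [k2,k4,k2,k2,k2,k2] [k1,k1,k0,k0,k1,k1,k1,k1,k1,k1,k1,k1] k0 [] k8 k5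
    [[(k7,k2),(k10,k2)],[(k5,k2),(k2,k3)],[(k5,k3),(k2,k4)],[(k0,k3),(k3,k4)],[(k0,k2),(k3,k3)],[(k7,k2),(k10,k2)],
    [(k1,k2),(k4,k2)],[(k9,k2)],[(k6,k2)],[(k8,k2),(k11,k2)],[(k8,k2),(k11,k2)],[(k1,k2),(k4,k2)]]
    [] k0
    []
    [])]⟩

/-- classes `0 0 1 2 3 1`, types `B0 B1 C0 S0 S0 C0` -/
noncomputable def cU6_1733 : CertX :=
  ⟨[k8,k9,k20,k32,k48,k20],[(false,k0,[k0,k1,k2,k3,k4,k5])],[[[([z1,z1,z1,z0,z0,z0],z2)],[([z1,z0,z1,z0,z0,z0],z2),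
    ([z0,z2,z0,z0,z0,z0],z1),([z0,z0,z0,z1,z0,z1],z1)],[([z1,z0,z1,z0,z0,z0],z2),([z0,z3,z0,z0,z0,z0],z2),([z0,z0,z0,
    z1,z0,z1],z1)],[([z1,z0,z1,z0,z0,z0],z2),([z0,z1,z0,z0,z1,z0],z1)],[([z1,z0,z1,z0,z0,z0],z2)],[]]],
    [.old (.leafM k4 [k0,k1,k2,k3,k4,k5] [(z1,[y1,z1])] []),
    .old (.leafM k9 [k5,k1,k3,k4] [(z1,[z0,z1]),(z1,[y2,y1,y2,z2]),(z1,[z0,z0,z1])] [(k0,k2,z1,[z1]),(k2,k0,z1,[z1])]),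
    .old (.leafM k8 [k5,k1,k3,k4] [(z1,[z0,z1]),(z1,[y3,y1,y3,z3]),(z1,[z0,z0,z1])] [(k0,k2,z1,[z1]),(k2,k0,z1,[z1])]),
    .old (.lp [k6,k10,k34,k8,k8,k12] [k14,k14,k12,k12,k0,k0,k13,k13,k13,k13,k11,k11] k0 [] k40 k6
    [[(k10,k9),(k4,k20)],[(k2,k8),(k5,k20)],[(k2,k10),(k5,k22)],[(k0,k8),(k3,k10)],[(k0,k20),(k3,k22)],[(k1,k20),(k7,
    k21)],[(k10,k10),(k4,k21)],[(k6,k8),(k9,k8)],[(k6,k8),(k9,k8)],[(k8,k8),(k11,k10)],[(k8,k10),(k11,k12)],[(k1,k9),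
    (k7,k10)]]
    [] k0
    [[k0,k2,k0,k0,k0,k0],[k0,k3,k0,k0,k0,k0],[k0,k0,k0,k1,k1,k1],[k0,k0,k0,k0,k2,k0],[k0,k0,k0,k0,k4,k0]]
    [.contra [z1],.ref k2 k0 [(z1,[z0,z1]),(z1,[z1]),(z1,[z0,y1,y1,z1])],.contra [z1,z1,z1,y1],.contra [z1],
    .ref k1 k0 [(z1,[z0,z1]),(z2,[y1,z0,z4]),(z1,[z0,y1,y1,z1])]]),
    .old (.lp [k24,k40,k96,k24,k30,k24] [k36,k36,k28,k28,k0,k0,k36,k36,k33,k33,k36,k36] k0 [] k120 k6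
    [[(k10,k24),(k4,k60)],[(k2,k32),(k5,k60)],[(k2,k40),(k5,k68)],[(k0,k32),(k3,k40)],[(k0,k60),(k3,k68)],[(k1,k60),
    (k7,k60)],[(k10,k24),(k4,k60)],[(k6,k24),(k9,k27)],[(k6,k27),(k9,k30)],[(k11,k27),(k8,k30)],[(k11,k24),(k8,k27)],
    [(k1,k24),(k7,k24)]]
    [] k0
    [[k0,k2,k0,k0,k0,k0],[k0,k0,k0,k1,k1,k1],[k0,k0,k0,k2,k0,k2],[k0,k0,k0,k0,k2,k0]]
    [.contra [z1],.contra [y1,y1,z1],.ref k3 k0 [(z1,[z0,z1]),(z2,[y1,y2,z2])],.contra [z1]]),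
    .old (.lp [k2,k4,k2,k2,k2,k2] [k1,k1,k0,k0,k1,k1,k1,k1,k1,k1,k1,k1] k0 [] k8 k5
    [[(k4,k2),(k10,k2)],[(k5,k2),(k2,k3)],[(k5,k3),(k2,k4)],[(k0,k3),(k3,k4)],[(k0,k2),(k3,k3)],[(k1,k2),(k7,k2)],
    [(k4,k2),(k10,k2)],[(k6,k2),(k9,k2)],[(k6,k2),(k9,k2)],[(k8,k2),(k11,k2)],[(k8,k2),(k11,k2)],[(k1,k2),(k7,k2)]]
    [] k0
    [[k1,k0,k1,k0,k0,k0],[k0,k0,k0,k1,k1,k1],[k0,k0,k0,k0,k2,k0]]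
    [.ref k4 k0 [(z1,[z1])],.ref k0 k0 [(z1,[y1,z1])],.contra [z1]])]⟩

/-- classes `0 0 1 2 3 1`, types `B0 B1 C0 S0 S0 C2` -/
noncomputable def cU6_1734 : CertX :=
  ⟨[k8,k9,k20,k32,k48,k22],[],[[[]]],
    [.old (.lp [k2,k4,k2,k2,k2,k2] [k1,k1,k0,k0,k1,k1,k1,k1,k1,k1,k1,k1] k0 [] k8 k5
    [[(k7,k2),(k10,k2)],[(k5,k2),(k2,k3)],[(k5,k3),(k2,k4)],[(k0,k3),(k3,k4)],[(k0,k2),(k3,k3)],[(k7,k2),(k10,k2)],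
    [(k1,k2),(k4,k2)],[(k6,k2),(k9,k2)],[(k6,k2),(k9,k2)],[(k8,k2),(k11,k2)],[(k8,k2),(k11,k2)],[(k1,k2),(k4,k2)]]
    [] k0
    [[k0,k0,k0,k0,k2,k0]]
    [.contra [z1]])]⟩

/-- classes `0 0 1 2 3 1`, types `B0 B1 N0 C0 C0 N1` -/
noncomputable def cU6_1735 : CertX :=
  ⟨[k8,k9,k28,k36,k52,k29],[(false,k0,[k0,k1,k2,k3,k4,k5])],[[[([z1,z1,z1,z0,z0,z0],z2)],[]]],
    [.old (.leafM k4 [k0,k1,k2,k3,k4,k5] [(z1,[y1,z1])] []),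
    .old (.lp [k110,k40,k10,k24,k24,k24] [k0,k0,k35,k35,k50,k50,k43,k43,k43,k43,k43,k43] k0 [] k120 k6
    [[(k4,k60)],[(k5,k60),(k2,k75)],[(k5,k25),(k2,k40)],[(k3,k40),(k0,k75)],[(k3,k25),(k0,k60)],[(k1,k60)],[(k10,
    k24)],[(k9,k24)],[(k6,k24)],[(k11,k24)],[(k8,k24)],[(k7,k24)]]
    [] k0
    [[k0,k2,k0,k0,k0,k0],[k0,k0,k0,k1,k1,k1]]
    [.contra [z1],.ref k0 k0 [(z1,[y1,z1])]])]⟩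

/-- classes `0 0 1 2 3 1`, types `B0 B1 N0 C0 C0 N2` -/
noncomputable def cU6_1736 : CertX :=
  ⟨[k8,k9,k28,k36,k52,k30],[],[[[]]],
    [.old (.lp [k2,k4,k2,k2,k2,k2] [k1,k1,k0,k0,k1,k1,k1,k1,k1,k1,k1,k1] k0 [] k8 k5
    [[(k7,k2)],[(k5,k2),(k2,k3)],[(k5,k3),(k2,k4)],[(k0,k3),(k3,k4)],[(k0,k2),(k3,k3)],[(k10,k2)],[(k1,k2)],[(k9,k2)],
    [(k6,k2)],[(k11,k2)],[(k8,k2)],[(k4,k2)]]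
    [] k0
    []
    [])]⟩

/-- classes `0 0 1 2 3 1`, types `B0 B1 N0 C0 S0 N1` -/
noncomputable def cU6_1737 : CertX :=
  ⟨[k8,k9,k28,k36,k48,k29],[(false,k0,[k0,k1,k2,k3,k4,k5])],[[[([z1,z1,z1,z0,z0,z0],z2)],[]]],
    [.old (.leafM k4 [k0,k1,k2,k3,k4,k5] [(z1,[y1,z1])] []),
    .old (.lp [k10,k40,k110,k24,k24,k24] [k50,k50,k35,k35,k0,k0,k43,k43,k43,k43,k43,k43] k0 [] k120 k6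
    [[(k4,k60)],[(k2,k25),(k5,k60)],[(k2,k40),(k5,k75)],[(k0,k25),(k3,k40)],[(k0,k60),(k3,k75)],[(k1,k60)],[(k10,
    k24)],[(k9,k24)],[(k6,k24)],[(k8,k24),(k11,k24)],[(k8,k24),(k11,k24)],[(k7,k24)]]
    [] k0
    [[k0,k2,k0,k0,k0,k0],[k0,k0,k0,k1,k1,k1]]
    [.contra [z1],.ref k0 k0 [(z1,[y1,z1])]])]⟩

/-- classes `0 0 1 2 3 1`, types `B0 B1 N0 C0 S0 N2` -/
noncomputable def cU6_1738 : CertX :=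
  ⟨[k8,k9,k28,k36,k48,k30],[],[[[]]],
    [.old (.lp [k2,k4,k2,k2,k2,k2] [k1,k1,k0,k0,k1,k1,k1,k1,k1,k1,k1,k1] k0 [] k8 k5
    [[(k7,k2)],[(k5,k2),(k2,k3)],[(k5,k3),(k2,k4)],[(k0,k3),(k3,k4)],[(k0,k2),(k3,k3)],[(k10,k2)],[(k1,k2)],[(k9,k2)],
    [(k6,k2)],[(k8,k2),(k11,k2)],[(k8,k2),(k11,k2)],[(k4,k2)]]
    [] k0
    []
    [])]⟩

/-- classes `0 0 1 2 3 1`, types `B0 B1 N0 S0 S0 N1` -/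
noncomputable def cU6_1739 : CertX :=
  ⟨[k8,k9,k28,k32,k48,k29],[(false,k0,[k0,k1,k2,k3,k4,k5])],[[[([z1,z1,z1,z0,z0,z0],z2)],[([z1,z0,z1,z0,z0,z0],z2),
    ([z0,z2,z0,z0,z0,z0],z1),([z0,z0,z0,z1,z0,z1],z1)],[([z1,z0,z1,z0,z0,z0],z2),([z0,z3,z0,z0,z0,z0],z2),([z0,z0,z0,
    z1,z0,z1],z1)],[([z1,z0,z1,z0,z0,z0],z2),([z0,z1,z0,z0,z1,z0],z1)],[([z1,z0,z1,z0,z0,z0],z2)],[]]],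
    [.old (.leafM k4 [k0,k1,k2,k3,k4,k5] [(z1,[y1,z1])] []),
    .old (.leafM k9 [k5,k1,k3,k4] [(z1,[z0,z1]),(z1,[y2,y1,y2,z2]),(z1,[z0,z0,z1])] [(k0,k2,z1,[z1]),(k2,k0,z1,[z1])]),
    .old (.leafM k8 [k5,k1,k3,k4] [(z1,[z0,z1]),(z1,[y3,y1,y3,z3]),(z1,[z0,z0,z1])] [(k0,k2,z1,[z1]),(k2,k0,z1,[z1])]),
    .old (.lp [k6,k10,k34,k8,k8,k12] [k14,k14,k12,k12,k0,k0,k13,k13,k13,k13,k11,k11] k0 [] k40 k6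
    [[(k4,k20)],[(k2,k8),(k5,k20)],[(k2,k10),(k5,k22)],[(k0,k8),(k3,k10)],[(k0,k20),(k3,k22)],[(k1,k20)],[(k10,k10)],
    [(k6,k8),(k9,k8)],[(k6,k8),(k9,k8)],[(k8,k8),(k11,k10)],[(k8,k10),(k11,k12)],[(k7,k10)]]
    [] k0
    [[k0,k2,k0,k0,k0,k0],[k0,k3,k0,k0,k0,k0],[k0,k0,k0,k1,k1,k1],[k0,k0,k0,k0,k2,k0],[k0,k0,k0,k0,k4,k0]]
    [.contra [z1],.ref k2 k0 [(z1,[z0,z1]),(z1,[z1]),(z1,[z0,y1,y1,z1])],.contra [z1,z1,z1,y1],.contra [z1],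
    .ref k1 k0 [(z1,[z0,z1]),(z2,[y1,z0,z4]),(z1,[z0,y1,y1,z1])]]),
    .old (.lp [k10,k40,k110,k24,k30,k24] [k50,k50,k35,k35,k0,k0,k43,k43,k40,k40,k43,k43] k0 [] k120 k6
    [[(k4,k60)],[(k2,k25),(k5,k60)],[(k2,k40),(k5,k75)],[(k0,k25),(k3,k40)],[(k0,k60),(k3,k75)],[(k1,k60)],[(k10,
    k24)],[(k6,k24),(k9,k27)],[(k6,k27),(k9,k30)],[(k11,k27),(k8,k30)],[(k11,k24),(k8,k27)],[(k7,k24)]]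
    [] k0
    [[k0,k2,k0,k0,k0,k0],[k0,k0,k0,k1,k1,k1],[k0,k0,k0,k2,k0,k2],[k0,k0,k0,k0,k2,k0]]
    [.contra [z1],.contra [y1,y1,z1],.ref k3 k0 [(z1,[z0,z1]),(z2,[y1,y2,z2])],.contra [z1]]),
    .old (.lp [k0,k4,k4,k2,k2,k2] [k2,k2,k0,k0,k0,k0,k1,k1,k1,k1,k1,k1] k0 [] k8 k5
    [[(k4,k2)],[(k2,k2),(k5,k2)],[(k2,k4),(k5,k4)],[(k0,k2),(k3,k4)],[(k0,k2),(k3,k4)],[(k1,k2)],[(k10,k2)],[(k6,k2),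
    (k9,k2)],[(k6,k2),(k9,k2)],[(k8,k2),(k11,k2)],[(k8,k2),(k11,k2)],[(k7,k2)]]
    [] k0
    [[k1,k0,k1,k0,k0,k0],[k0,k0,k0,k1,k1,k1],[k0,k0,k0,k0,k2,k0]]
    [.ref k4 k0 [(z1,[z1])],.ref k0 k0 [(z1,[y1,z1])],.contra [z1]])]⟩

/-- classes `0 0 1 2 3 1`, types `B0 B1 N0 S0 S0 N2` -/
noncomputable def cU6_1740 : CertX :=
  ⟨[k8,k9,k28,k32,k48,k30],[],[[[]]],
    [.old (.lp [k2,k4,k2,k2,k2,k2] [k1,k1,k0,k0,k1,k1,k1,k1,k1,k1,k1,k1] k0 [] k8 k5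
    [[(k7,k2)],[(k5,k2),(k2,k3)],[(k5,k3),(k2,k4)],[(k0,k3),(k3,k4)],[(k0,k2),(k3,k3)],[(k10,k2)],[(k1,k2)],[(k6,k2),
    (k9,k2)],[(k6,k2),(k9,k2)],[(k8,k2),(k11,k2)],[(k8,k2),(k11,k2)],[(k4,k2)]]
    [] k0
    [[k0,k0,k0,k0,k2,k0]]
    [.contra [z1]])]⟩

/-- classes `0 0 1 2 3 1`, types `B0 B1 S0 C0 C0 S0` -/
noncomputable def cU6_1741 : CertX :=
  ⟨[k8,k9,k16,k36,k52,k16],[(false,k0,[k0,k1,k2,k3,k4,k5])],[[[([z1,z1,z1,z0,z0,z0],z2)],[]]],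
    [.old (.leafM k4 [k0,k1,k2,k3,k4,k5] [(z1,[y1,z1])] []),
    .old (.lp [k24,k10,k6,k6,k6,k6] [k0,k0,k7,k7,k9,k9,k9,k9,k9,k9,k9,k9] k0 [] k30 k6
    [[(k4,k15),(k7,k15),(k10,k15),(k1,k24)],[(k5,k15),(k2,k17)],[(k5,k8),(k2,k10)],[(k3,k10),(k0,k17)],[(k3,k8),(k0,
    k15)],[(k4,k6),(k7,k6),(k10,k6),(k1,k15)],[(k4,k6),(k7,k6),(k10,k6),(k1,k15)],[(k9,k6)],[(k6,k6)],[(k11,k6)],[(k8,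
    k6)],[(k4,k6),(k7,k6),(k10,k6),(k1,k15)]]
    [] k0
    [[k0,k2,k0,k0,k0,k0],[k0,k0,k0,k1,k1,k1]]
    [.contra [z1],.ref k0 k0 [(z1,[y1,z1])]])]⟩

/-- classes `0 0 1 2 3 1`, types `B0 B1 S0 C0 S0 S0` -/
noncomputable def cU6_1742 : CertX :=
  ⟨[k8,k9,k16,k36,k48,k16],[(false,k0,[k0,k1,k2,k3,k4,k5])],[[[([z1,z1,z1,z0,z0,z0],z2)],[]]],
    [.old (.leafM k4 [k0,k1,k2,k3,k4,k5] [(z1,[y1,z1])] []),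
    .old (.lp [(nat_lit 360),(nat_lit 280),k168,(nat_lit 252),k168,(nat_lit 420)] [k135,k135,k175,k175,(nat_lit 231),
    (nat_lit 231),(nat_lit 231),k147,(nat_lit 231),(nat_lit 231),k0,(nat_lit 210)] k0 [[],[],[],[],[],[k0,k0,k0,k0,k0,
    k0,k0,k0,k0,k0,k0,(nat_lit 315)],[],[],[],[],[k0,k0,k0,k0,(nat_lit 315)]] (nat_lit 840) k6
    [[(k7,(nat_lit 348)),(k1,(nat_lit 360)),(k10,(nat_lit 495)),(k4,(nat_lit 579))],[(k5,(nat_lit 264)),(k2,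
    (nat_lit 320))],[(k5,(nat_lit 224)),(k2,(nat_lit 280))],[(k3,(nat_lit 280)),(k0,(nat_lit 320))],[(k3,
    (nat_lit 224)),(k0,(nat_lit 264))],[(k4,k168),(k7,(nat_lit 252)),(k10,(nat_lit 399)),(k1,(nat_lit 579))],[(k10,
    k168),(k4,(nat_lit 252)),(k7,(nat_lit 336)),(k1,(nat_lit 348))],[(k9,k168)],[(k6,k168)],[(k8,k168),(k11,k189)],
    [(k8,k189),(k11,(nat_lit 210))],[(k7,k168),(k4,(nat_lit 399)),(k1,(nat_lit 495)),(k10,(nat_lit 630))]]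
    [] k0
    [[k0,k2,k0,k0,k0,k0],[k0,k0,k0,k1,k1,k1]]
    [.contra [z1],.ref k0 k0 [(z1,[y1,z1])]])]⟩

/-- classes `0 0 1 2 3 1`, types `B0 B1 S0 S0 S0 S0` -/
noncomputable def cU6_1743 : CertX :=
  ⟨[k8,k9,k16,k32,k48,k16],[(false,k0,[k0,k1,k2,k3,k4,k5])],[[[([z1,z1,z1,z0,z0,z0],z2)],[([z1,z0,z1,z0,z0,z0],z2),
    ([z0,z3,z0,z0,z0,z0],z2),([z0,z0,z0,z1,z0,z1],z1)],[([z1,z0,z1,z0,z0,z0],z2),([z0,z2,z0,z0,z0,z0],z1),([z0,z0,z0,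
    z1,z0,z1],z1)],[([z1,z0,z1,z0,z0,z0],z2),([z0,z1,z0,z0,z1,z0],z1)],[([z1,z0,z1,z0,z0,z0],z2)],[]]],
    [.old (.leafM k4 [k0,k1,k2,k3,k4,k5] [(z1,[y1,z1])] []),
    .old (.leafM k8 [k5,k1,k3,k4] [(z1,[z0,z1]),(z1,[y3,y1,y3,z3]),(z1,[z0,z0,z1])] [(k0,k2,z1,[z1]),(k2,k0,z1,[z1])]),
    .old (.leafM k9 [k5,k1,k3,k4] [(z1,[z0,z1]),(z1,[y2,y1,y2,z2]),(z1,[z0,z0,z1])] [(k0,k2,z1,[z1]),(k2,k0,z1,[z1])]),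
    .old (.lp [k74,k48,k48,k120,k60,k120] [k59,k59,k72,k72,k72,k72,k72,k0,k66,k66,k26,k46] k0 [[],[],[],[],[],[k0,k0,k0,
    k0,k0,k0,k0,k0,k0,k0,k0,k118],[],[],[],[],[k0,k0,k0,k0,k118]] (nat_lit 240) k6
    [[(k1,k74),(k10,k107),(k7,k133),(k4,k179)],[(k2,k61),(k5,k61)],[(k2,k48),(k5,k48)],[(k3,k48),(k0,k61)],[(k3,k48),
    (k0,k61)],[(k4,k48),(k10,k94),(k7,k120),(k1,k179)],[(k10,k48),(k4,k120),(k1,k133),(k7,k192)],[(k6,k48),(k9,k54)],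
    [(k6,k54),(k9,k60)],[(k8,k60),(k11,k80)],[(k8,k80),(k11,k100)],[(k7,k48),(k4,k94),(k1,k107),(k10,k140)]]
    [] k0
    [[k0,k2,k0,k0,k0,k0],[k0,k3,k0,k0,k0,k0],[k0,k4,k0,k0,k0,k0],[k0,k0,k0,k1,k1,k1],[k0,k0,k0,k0,k2,k0]]
    [.contra [z1],.ref k1 k0 [(z1,[z0,z1]),(z1,[z1]),(z1,[z0,y1,y1,z1])],.ref k2 k0 [(z1,[z0,z1]),(z2,[z1]),(z1,[z0,
    y1,y1,z1])],.contra [z1,z1,z1,y1],.contra [z1]]),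
    .old (.lp [k110,k80,k48,k60,k60,k120] [k39,k39,k54,k54,k70,k70,k70,k58,k64,k64,k0,k68] k0 [[],[],[],[],[],[k0,k0,k0,
    k0,k0,k0,k0,k0,k0,k0,k0,k82],[],[],[],[],[k0,k0,k0,k0,k82]] (nat_lit 240) k6
    [[(k7,k91),(k1,k110),(k10,k149),(k4,k161)],[(k5,k79),(k2,k95)],[(k5,k64),(k2,k80)],[(k3,k80),(k0,k95)],[(k3,k64),
    (k0,k79)],[(k4,k48),(k7,k60),(k10,k118),(k1,k161)],[(k10,k48),(k4,k60),(k7,k72),(k1,k91)],[(k6,k48),(k9,k54)],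
    [(k6,k54),(k9,k60)],[(k11,k56),(k8,k60)],[(k11,k52),(k8,k56)],[(k7,k48),(k4,k118),(k1,k149),(k10,k188)]]
    [] k0
    [[k0,k2,k0,k0,k0,k0],[k0,k0,k0,k2,k0,k0],[k0,k0,k0,k1,k1,k1],[k0,k0,k0,k2,k0,k2],[k0,k0,k0,k0,k2,k0]]
    [.contra [z1],.contra [z1],.contra [y1,y1,z1],.ref k3 k0 [(z1,[z0,z1]),(z2,[y1,y2,z2])],.contra [z1]]),
    .old (.lp [k8,k8,k6,k6,k6,k12] [k2,k2,k2,k2,k3,k3,k3,k3,k3,k3,k0,k0] k0 [[],[],[],[],[],[k0,k0,k0,k0,k0,k0,k0,k0,k0,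
    k0,k0,k2],[],[],[],[],[k0,k0,k0,k0,k2]] k24 k5
    [[(k7,k7),(k1,k8),(k4,k9),(k10,k10)],[(k5,k7),(k2,k8)],[(k5,k7),(k2,k8)],[(k0,k8),(k3,k8)],[(k0,k7),(k3,k7)],[(k4,
    k6),(k7,k6),(k1,k9),(k10,k9)],[(k4,k6),(k7,k6),(k1,k7),(k10,k7)],[(k6,k6),(k9,k6)],[(k6,k6),(k9,k6)],[(k8,k6),
    (k11,k9)],[(k8,k9),(k11,k12)],[(k7,k7),(k4,k9),(k1,k10),(k10,k12)]]
    [] k0
    [[k1,k0,k1,k0,k0,k0],[k0,k2,k0,k0,k0,k0],[k0,k0,k0,k2,k0,k0],[k0,k0,k0,k1,k1,k1],[k0,k0,k0,k0,k2,k0]]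
    [.ref k4 k0 [(z1,[z1])],.contra [z1],.contra [z1],.ref k0 k0 [(z1,[y1,z1])],.contra [z1]])]⟩

/-- classes `0 0 1 2 3 1`, types `C0 C0 B0 C0 C0 B1` -/
noncomputable def cU6_1744 : CertX :=
  ⟨[k4,k4,k24,k36,k52,k25],[(false,k0,[k0,k1,k2,k3,k4,k5])],[[[([z1,z1,z1,z0,z0,z0],z2)],[]]],
    [.old (.leafM k0 [k2,k3,k4,k5,k0,k1] [(z1,[y1,z1])] []),
    .old (.lp [k24,k10,k6,k6,k6,k6] [k0,k0,k7,k7,k9,k9,k9,k9,k9,k9,k9,k9] k0 [] k30 k6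
    [[(k4,k15),(k7,k15)],[(k5,k15),(k3,k17)],[(k2,k10),(k0,k17)],[(k5,k8),(k3,k10)],[(k2,k8),(k0,k15)],[(k10,k6),(k1,
    k15)],[(k10,k6),(k1,k15)],[(k9,k6)],[(k6,k6)],[(k11,k6)],[(k8,k6)],[(k4,k6),(k7,k6)]]
    [] k0
    [[k0,k2,k0,k0,k0,k0],[k0,k0,k0,k1,k1,k1]]
    [.contra [z1],.ref k0 k0 [(z1,[y1,z1])]])]⟩

/-- classes `0 0 1 2 3 1`, types `C0 C0 B0 C0 S0 B1` -/
noncomputable def cU6_1745 : CertX :=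
  ⟨[k4,k4,k24,k36,k48,k25],[(false,k0,[k0,k1,k2,k3,k4,k5])],[[[([z1,z1,z1,z0,z0,z0],z2)],[]]],
    [.old (.leafM k0 [k2,k3,k4,k5,k0,k1] [(z1,[y1,z1])] []),
    .old (.lp [k6,k10,k24,k6,k6,k6] [k9,k9,k7,k7,k0,k0,k9,k9,k9,k9,k9,k9] k0 [] k30 k6
    [[(k7,k6),(k4,k15)],[(k3,k8),(k5,k15)],[(k0,k8),(k2,k10)],[(k3,k10),(k5,k17)],[(k0,k15),(k2,k17)],[(k1,k15),(k10,
    k15)],[(k1,k6),(k10,k6)],[(k9,k6)],[(k6,k6)],[(k8,k6),(k11,k6)],[(k8,k6),(k11,k6)],[(k7,k6),(k4,k15)]]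
    [] k0
    [[k0,k2,k0,k0,k0,k0],[k0,k0,k0,k1,k1,k1]]
    [.contra [z1],.ref k0 k0 [(z1,[y1,z1])]])]⟩

/-- classes `0 0 1 2 3 1`, types `C0 C0 B0 S0 S0 B1` -/
noncomputable def cU6_1746 : CertX :=
  ⟨[k4,k4,k24,k32,k48,k25],[(false,k0,[k0,k1,k2,k3,k4,k5])],[[[([z1,z1,z1,z0,z0,z0],z2)],[([z1,z0,z1,z0,z0,z0],z2),
    ([z0,z2,z0,z0,z0,z0],z1),([z0,z0,z0,z1,z0,z1],z1)],[([z1,z0,z1,z0,z0,z0],z2),([z0,z3,z0,z0,z0,z0],z2),([z0,z0,z0,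
    z1,z0,z1],z1)],[([z1,z0,z1,z0,z0,z0],z2),([z0,z1,z0,z0,z1,z0],z1)],[([z1,z0,z1,z0,z0,z0],z2)],[]]],
    [.old (.leafM k0 [k2,k3,k4,k5,k0,k1] [(z1,[y1,z1])] []),
    .old (.leafM k9 [k5,k1,k3,k4] [(z1,[z0,z1]),(z1,[y2,y1,y2,z2]),(z1,[z0,z0,z1])] [(k0,k2,z1,[z1]),(k2,k0,z1,[z1])]),
    .old (.leafM k8 [k5,k1,k3,k4] [(z1,[z0,z1]),(z1,[y3,y1,y3,z3]),(z1,[z0,z0,z1])] [(k0,k2,z1,[z1]),(k2,k0,z1,[z1])]),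
    .old (.lp [k8,k10,k32,k8,k8,k12] [k12,k12,k11,k11,k0,k0,k12,k12,k12,k12,k10,k10] k0 [] k40 k6
    [[(k7,k8),(k4,k20)],[(k3,k9),(k5,k20)],[(k0,k9),(k2,k10)],[(k3,k10),(k5,k21)],[(k0,k20),(k2,k21)],[(k1,k20),(k10,
    k22)],[(k1,k8),(k10,k10)],[(k6,k8),(k9,k8)],[(k6,k8),(k9,k8)],[(k8,k8),(k11,k10)],[(k8,k10),(k11,k12)],[(k7,k10),
    (k4,k22)]]
    [] k0
    [[k0,k2,k0,k0,k0,k0],[k0,k3,k0,k0,k0,k0],[k0,k0,k0,k1,k1,k1],[k0,k0,k0,k0,k2,k0],[k0,k0,k0,k0,k4,k0]]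
    [.contra [z1],.ref k2 k0 [(z1,[z0,z1]),(z1,[z1]),(z1,[z0,y1,y1,z1])],.contra [z1,z1,z1,y1],.contra [z1],
    .ref k1 k0 [(z1,[z0,z1]),(z2,[y1,z0,z4]),(z1,[z0,y1,y1,z1])]]),
    .old (.lp [k24,k40,k96,k24,k30,k24] [k36,k36,k28,k28,k0,k0,k36,k36,k33,k33,k36,k36] k0 [] k120 k6
    [[(k7,k24),(k4,k60)],[(k3,k32),(k5,k60)],[(k0,k32),(k2,k40)],[(k3,k40),(k5,k68)],[(k0,k60),(k2,k68)],[(k1,k60),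
    (k10,k60)],[(k1,k24),(k10,k24)],[(k6,k24),(k9,k27)],[(k6,k27),(k9,k30)],[(k11,k27),(k8,k30)],[(k11,k24),(k8,k27)],
    [(k7,k24),(k4,k60)]]
    [] k0
    [[k0,k2,k0,k0,k0,k0],[k0,k0,k0,k1,k1,k1],[k0,k0,k0,k2,k0,k2],[k0,k0,k0,k0,k2,k0]]
    [.contra [z1],.contra [y1,y1,z1],.ref k3 k0 [(z1,[z0,z1]),(z2,[y1,y2,z2])],.contra [z1]]),
    .old (.lp [k2,k4,k2,k2,k2,k2] [k1,k1,k0,k0,k1,k1,k1,k1,k1,k1,k1,k1] k0 [] k8 k5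
    [[(k4,k2),(k7,k2)],[(k5,k2),(k3,k3)],[(k0,k3),(k2,k4)],[(k5,k3),(k3,k4)],[(k0,k2),(k2,k3)],[(k1,k2),(k10,k2)],
    [(k1,k2),(k10,k2)],[(k6,k2),(k9,k2)],[(k6,k2),(k9,k2)],[(k8,k2),(k11,k2)],[(k8,k2),(k11,k2)],[(k4,k2),(k7,k2)]]
    [] k0
    [[k1,k0,k1,k0,k0,k0],[k0,k0,k0,k1,k1,k1],[k0,k0,k0,k0,k2,k0]]
    [.ref k4 k0 [(z1,[z1])],.ref k0 k0 [(z1,[y1,z1])],.contra [z1]])]⟩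

/-- classes `0 0 1 2 3 1`, types `C0 C0 C0 C0 C0 C0` -/
noncomputable def cU6_1747 : CertX :=
  ⟨[k4,k4,k20,k36,k52,k20],[(false,k0,[k0,k1,k2,k3,k4,k5])],[[[([z1,z1,z1,z0,z0,z0],z2)],[]]],
    [.old (.leafM k0 [k2,k3,k4,k5,k0,k1] [(z1,[y1,z1])] []),
    .old (.lp [k24,k10,k6,k6,k6,k6] [k0,k0,k7,k7,k9,k9,k9,k9,k9,k9,k9,k9] k0 [] k30 k6
    [[(k4,k15),(k10,k15)],[(k5,k15),(k3,k17)],[(k2,k10),(k0,k17)],[(k5,k8),(k3,k10)],[(k2,k8),(k0,k15)],[(k7,k6),(k1,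
    k15)],[(k4,k6),(k10,k6)],[(k9,k6)],[(k6,k6)],[(k11,k6)],[(k8,k6)],[(k7,k6),(k1,k15)]]
    [] k0
    [[k0,k2,k0,k0,k0,k0],[k0,k0,k0,k1,k1,k1]]
    [.contra [z1],.ref k0 k0 [(z1,[y1,z1])]])]⟩

/-- classes `0 0 1 2 3 1`, types `C0 C0 C0 C0 C0 C2` -/
noncomputable def cU6_1748 : CertX :=
  ⟨[k4,k4,k20,k36,k52,k22],[],[[[]]],
    [.old (.lp [k2,k4,k2,k2,k2,k2] [k1,k1,k0,k0,k1,k1,k1,k1,k1,k1,k1,k1] k0 [] k8 k5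
    [[(k7,k2),(k10,k2)],[(k5,k2),(k3,k3)],[(k0,k3),(k2,k4)],[(k5,k3),(k3,k4)],[(k0,k2),(k2,k3)],[(k7,k2),(k10,k2)],
    [(k1,k2),(k4,k2)],[(k9,k2)],[(k6,k2)],[(k11,k2)],[(k8,k2)],[(k1,k2),(k4,k2)]]
    [] k0
    []
    [])]⟩

/-- classes `0 0 1 2 3 1`, types `C0 C0 C0 C0 S0 C0` -/
noncomputable def cU6_1749 : CertX :=
  ⟨[k4,k4,k20,k36,k48,k20],[(false,k0,[k0,k1,k2,k3,k4,k5])],[[[([z1,z1,z1,z0,z0,z0],z2)],[]]],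
    [.old (.leafM k0 [k2,k3,k4,k5,k0,k1] [(z1,[y1,z1])] []),
    .old (.lp [k24,k10,k6,k6,k6,k6] [k0,k0,k7,k7,k9,k9,k9,k9,k9,k9,k9,k9] k0 [] k30 k6
    [[(k4,k15),(k10,k15)],[(k5,k15),(k3,k17)],[(k2,k10),(k0,k17)],[(k5,k8),(k3,k10)],[(k2,k8),(k0,k15)],[(k7,k6),(k1,
    k15)],[(k4,k6),(k10,k6)],[(k9,k6)],[(k6,k6)],[(k8,k6),(k11,k6)],[(k8,k6),(k11,k6)],[(k7,k6),(k1,k15)]]
    [] k0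
    [[k0,k2,k0,k0,k0,k0],[k0,k0,k0,k1,k1,k1]]
    [.contra [z1],.ref k0 k0 [(z1,[y1,z1])]])]⟩

/-- classes `0 0 1 2 3 1`, types `C0 C0 C0 C0 S0 C2` -/
noncomputable def cU6_1750 : CertX :=
  ⟨[k4,k4,k20,k36,k48,k22],[],[[[]]],
    [.old (.lp [k2,k4,k2,k2,k2,k2] [k1,k1,k0,k0,k1,k1,k1,k1,k1,k1,k1,k1] k0 [] k8 k5
    [[(k7,k2),(k10,k2)],[(k5,k2),(k3,k3)],[(k0,k3),(k2,k4)],[(k5,k3),(k3,k4)],[(k0,k2),(k2,k3)],[(k7,k2),(k10,k2)],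
    [(k1,k2),(k4,k2)],[(k9,k2)],[(k6,k2)],[(k8,k2),(k11,k2)],[(k8,k2),(k11,k2)],[(k1,k2),(k4,k2)]]
    [] k0
    []
    [])]⟩

/-- classes `0 0 1 2 3 1`, types `C0 C0 C0 S0 S0 C0` -/
noncomputable def cU6_1751 : CertX :=
  ⟨[k4,k4,k20,k32,k48,k20],[(false,k0,[k0,k1,k2,k3,k4,k5])],[[[([z1,z1,z1,z0,z0,z0],z2)],[([z1,z0,z1,z0,z0,z0],z2),
    ([z0,z2,z0,z0,z0,z0],z1),([z0,z0,z0,z1,z0,z1],z1)],[([z1,z0,z1,z0,z0,z0],z2),([z0,z3,z0,z0,z0,z0],z2),([z0,z0,z0,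
    z1,z0,z1],z1)],[([z1,z0,z1,z0,z0,z0],z2),([z0,z1,z0,z0,z1,z0],z1)],[([z1,z0,z1,z0,z0,z0],z2)],[]]],
    [.old (.leafM k0 [k2,k3,k4,k5,k0,k1] [(z1,[y1,z1])] []),
    .old (.leafM k9 [k5,k1,k3,k4] [(z1,[z0,z1]),(z1,[y2,y1,y2,z2]),(z1,[z0,z0,z1])] [(k0,k2,z1,[z1]),(k2,k0,z1,[z1])]),
    .old (.leafM k8 [k5,k1,k3,k4] [(z1,[z0,z1]),(z1,[y3,y1,y3,z3]),(z1,[z0,z0,z1])] [(k0,k2,z1,[z1]),(k2,k0,z1,[z1])]),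
    .old (.lp [k8,k10,k32,k12,k8,k8] [k12,k12,k11,k11,k0,k0,k10,k10,k12,k12,k12,k12] k0 [] k40 k6
    [[(k10,k8),(k4,k20)],[(k3,k9),(k5,k20)],[(k0,k9),(k2,k10)],[(k3,k10),(k5,k21)],[(k0,k20),(k2,k21)],[(k1,k20),(k7,
    k22)],[(k10,k10),(k4,k22)],[(k9,k10),(k6,k12)],[(k9,k8),(k6,k10)],[(k8,k8),(k11,k8)],[(k8,k8),(k11,k8)],[(k1,k8),
    (k7,k10)]]
    [] k0
    [[k0,k2,k0,k0,k0,k0],[k0,k3,k0,k0,k0,k0],[k0,k0,k0,k1,k1,k1],[k0,k0,k0,k0,k2,k0],[k0,k0,k0,k0,k4,k0]]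
    [.contra [z1],.ref k2 k0 [(z1,[z0,z1]),(z1,[z1]),(z1,[z0,y1,y1,z1])],.contra [z1,z1,z1,y1],.contra [z1],
    .ref k1 k0 [(z1,[z0,z1]),(z2,[y1,z0,z4]),(z1,[z0,y1,y1,z1])]]),
    .old (.lp [k24,k40,k96,k24,k30,k24] [k36,k36,k28,k28,k0,k0,k36,k36,k33,k33,k36,k36] k0 [] k120 k6
    [[(k10,k24),(k4,k60)],[(k3,k32),(k5,k60)],[(k0,k32),(k2,k40)],[(k3,k40),(k5,k68)],[(k0,k60),(k2,k68)],[(k1,k60),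
    (k7,k60)],[(k10,k24),(k4,k60)],[(k6,k24),(k9,k27)],[(k6,k27),(k9,k30)],[(k11,k27),(k8,k30)],[(k11,k24),(k8,k27)],
    [(k1,k24),(k7,k24)]]
    [] k0
    [[k0,k2,k0,k0,k0,k0],[k0,k0,k0,k1,k1,k1],[k0,k0,k0,k2,k0,k2],[k0,k0,k0,k0,k2,k0]]
    [.contra [z1],.contra [y1,y1,z1],.ref k3 k0 [(z1,[z0,z1]),(z2,[y1,y2,z2])],.contra [z1]]),
    .old (.lp [k6,k8,k6,k6,k12,k6] [k3,k3,k2,k2,k3,k3,k3,k3,k0,k0,k3,k3] k0 [] k24 k5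
    [[(k4,k6),(k10,k6)],[(k5,k6),(k3,k7)],[(k0,k7),(k2,k8)],[(k5,k7),(k3,k8)],[(k0,k6),(k2,k7)],[(k1,k6),(k7,k6)],
    [(k4,k6),(k10,k6)],[(k6,k6),(k9,k9)],[(k6,k9),(k9,k12)],[(k11,k9),(k8,k12)],[(k11,k6),(k8,k9)],[(k1,k6),(k7,k6)]]
    [] k0
    [[k1,k0,k1,k0,k0,k0],[k1,k1,k1,k0,k0,k0],[k0,k2,k0,k0,k0,k0]]
    [.ref k4 k0 [(z1,[z1])],.ref k0 k0 [(z1,[z1])],.contra [z1]])]⟩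

/-- classes `0 0 1 2 3 1`, types `C0 C0 C0 S0 S0 C2` -/
noncomputable def cU6_1752 : CertX :=
  ⟨[k4,k4,k20,k32,k48,k22],[],[[[]]],
    [.old (.lp [k2,k4,k2,k2,k2,k2] [k1,k1,k0,k0,k1,k1,k1,k1,k1,k1,k1,k1] k0 [] k8 k5
    [[(k7,k2),(k10,k2)],[(k5,k2),(k3,k3)],[(k0,k3),(k2,k4)],[(k5,k3),(k3,k4)],[(k0,k2),(k2,k3)],[(k7,k2),(k10,k2)],
    [(k1,k2),(k4,k2)],[(k6,k2),(k9,k2)],[(k6,k2),(k9,k2)],[(k8,k2),(k11,k2)],[(k8,k2),(k11,k2)],[(k1,k2),(k4,k2)]]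
    [] k0
    [[k0,k0,k0,k0,k2,k0]]
    [.contra [z1]])]⟩

/-- classes `0 0 1 2 3 1`, types `C0 C0 N0 C0 C0 N1` -/
noncomputable def cU6_1753 : CertX :=
  ⟨[k4,k4,k28,k36,k52,k29],[(false,k0,[k0,k1,k2,k3,k4,k5])],[[[([z1,z1,z1,z0,z0,z0],z2)],[]]],
    [.old (.leafM k0 [k2,k3,k4,k5,k0,k1] [(z1,[y1,z1])] []),
    .old (.lp [k110,k40,k10,k24,k24,k24] [k0,k0,k35,k35,k50,k50,k43,k43,k43,k43,k43,k43] k0 [] k120 k6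
    [[(k4,k60)],[(k5,k60),(k3,k75)],[(k2,k40),(k0,k75)],[(k5,k25),(k3,k40)],[(k2,k25),(k0,k60)],[(k1,k60)],[(k10,
    k24)],[(k9,k24)],[(k6,k24)],[(k11,k24)],[(k8,k24)],[(k7,k24)]]
    [] k0
    [[k0,k2,k0,k0,k0,k0],[k0,k0,k0,k1,k1,k1]]
    [.contra [z1],.ref k0 k0 [(z1,[y1,z1])]])]⟩

/-- classes `0 0 1 2 3 1`, types `C0 C0 N0 C0 C0 N2` -/
noncomputable def cU6_1754 : CertX :=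
  ⟨[k4,k4,k28,k36,k52,k30],[],[[[]]],
    [.old (.lp [k2,k4,k2,k2,k2,k2] [k1,k1,k0,k0,k1,k1,k1,k1,k1,k1,k1,k1] k0 [] k8 k5
    [[(k7,k2)],[(k5,k2),(k3,k3)],[(k0,k3),(k2,k4)],[(k5,k3),(k3,k4)],[(k0,k2),(k2,k3)],[(k10,k2)],[(k1,k2)],[(k9,k2)],
    [(k6,k2)],[(k11,k2)],[(k8,k2)],[(k4,k2)]]
    [] k0
    []
    [])]⟩

/-- classes `0 0 1 2 3 1`, types `C0 C0 N0 C0 S0 N1` -/
noncomputable def cU6_1755 : CertX :=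
  ⟨[k4,k4,k28,k36,k48,k29],[(false,k0,[k0,k1,k2,k3,k4,k5])],[[[([z1,z1,z1,z0,z0,z0],z2)],[]]],
    [.old (.leafM k0 [k2,k3,k4,k5,k0,k1] [(z1,[y1,z1])] []),
    .old (.lp [k110,k40,k10,k24,k24,k24] [k0,k0,k35,k35,k50,k50,k43,k43,k43,k43,k43,k43] k0 [] k120 k6
    [[(k4,k60)],[(k5,k60),(k3,k75)],[(k2,k40),(k0,k75)],[(k5,k25),(k3,k40)],[(k2,k25),(k0,k60)],[(k1,k60)],[(k10,
    k24)],[(k9,k24)],[(k6,k24)],[(k8,k24),(k11,k24)],[(k8,k24),(k11,k24)],[(k7,k24)]]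
    [] k0
    [[k0,k2,k0,k0,k0,k0],[k0,k0,k0,k1,k1,k1]]
    [.contra [z1],.ref k0 k0 [(z1,[y1,z1])]])]⟩

/-- classes `0 0 1 2 3 1`, types `C0 C0 N0 C0 S0 N2` -/
noncomputable def cU6_1756 : CertX :=
  ⟨[k4,k4,k28,k36,k48,k30],[],[[[]]],
    [.old (.lp [k2,k4,k2,k2,k2,k2] [k1,k1,k0,k0,k1,k1,k1,k1,k1,k1,k1,k1] k0 [] k8 k5
    [[(k7,k2)],[(k5,k2),(k3,k3)],[(k0,k3),(k2,k4)],[(k5,k3),(k3,k4)],[(k0,k2),(k2,k3)],[(k10,k2)],[(k1,k2)],[(k9,k2)],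
    [(k6,k2)],[(k8,k2),(k11,k2)],[(k8,k2),(k11,k2)],[(k4,k2)]]
    [] k0
    []
    [])]⟩

/-- classes `0 0 1 2 3 1`, types `C0 C0 N0 S0 S0 N1` -/
noncomputable def cU6_1757 : CertX :=
  ⟨[k4,k4,k28,k32,k48,k29],[(false,k0,[k0,k1,k2,k3,k4,k5])],[[[([z1,z1,z1,z0,z0,z0],z2)],[([z1,z0,z1,z0,z0,z0],z2),
    ([z0,z2,z0,z0,z0,z0],z1),([z0,z0,z0,z1,z0,z1],z1)],[([z1,z0,z1,z0,z0,z0],z2),([z0,z3,z0,z0,z0,z0],z2),([z0,z0,z0,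
    z1,z0,z1],z1)],[([z1,z0,z1,z0,z0,z0],z2),([z0,z1,z0,z0,z1,z0],z1)],[([z1,z0,z1,z0,z0,z0],z2)],[]]],
    [.old (.leafM k0 [k2,k3,k4,k5,k0,k1] [(z1,[y1,z1])] []),
    .old (.leafM k9 [k5,k1,k3,k4] [(z1,[z0,z1]),(z1,[y2,y1,y2,z2]),(z1,[z0,z0,z1])] [(k0,k2,z1,[z1]),(k2,k0,z1,[z1])]),
    .old (.leafM k8 [k5,k1,k3,k4] [(z1,[z0,z1]),(z1,[y3,y1,y3,z3]),(z1,[z0,z0,z1])] [(k0,k2,z1,[z1]),(k2,k0,z1,[z1])]),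
    .old (.lp [k6,k10,k34,k12,k8,k8] [k14,k14,k12,k12,k0,k0,k11,k11,k13,k13,k13,k13] k0 [] k40 k6
    [[(k4,k20)],[(k3,k8),(k5,k20)],[(k0,k8),(k2,k10)],[(k3,k10),(k5,k22)],[(k0,k20),(k2,k22)],[(k1,k20)],[(k10,k10)],
    [(k9,k10),(k6,k12)],[(k9,k8),(k6,k10)],[(k8,k8),(k11,k8)],[(k8,k8),(k11,k8)],[(k7,k10)]]
    [] k0
    [[k0,k2,k0,k0,k0,k0],[k0,k3,k0,k0,k0,k0],[k0,k0,k0,k1,k1,k1],[k0,k0,k0,k0,k2,k0],[k0,k0,k0,k0,k4,k0]]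
    [.contra [z1],.ref k2 k0 [(z1,[z0,z1]),(z1,[z1]),(z1,[z0,y1,y1,z1])],.contra [z1,z1,z1,y1],.contra [z1],
    .ref k1 k0 [(z1,[z0,z1]),(z2,[y1,z0,z4]),(z1,[z0,y1,y1,z1])]]),
    .old (.lp [k10,k40,k110,k24,k30,k24] [k50,k50,k35,k35,k0,k0,k43,k43,k40,k40,k43,k43] k0 [] k120 k6
    [[(k4,k60)],[(k3,k25),(k5,k60)],[(k0,k25),(k2,k40)],[(k3,k40),(k5,k75)],[(k0,k60),(k2,k75)],[(k1,k60)],[(k10,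
    k24)],[(k6,k24),(k9,k27)],[(k6,k27),(k9,k30)],[(k11,k27),(k8,k30)],[(k11,k24),(k8,k27)],[(k7,k24)]]
    [] k0
    [[k0,k2,k0,k0,k0,k0],[k0,k0,k0,k1,k1,k1],[k0,k0,k0,k2,k0,k2],[k0,k0,k0,k0,k2,k0]]
    [.contra [z1],.contra [y1,y1,z1],.ref k3 k0 [(z1,[z0,z1]),(z2,[y1,y2,z2])],.contra [z1]]),
    .old (.lp [k4,k8,k8,k6,k12,k6] [k4,k4,k2,k2,k2,k2,k3,k3,k0,k0,k3,k3] k0 [] k24 k5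
    [[(k4,k6)],[(k3,k6),(k5,k6)],[(k0,k6),(k2,k8)],[(k3,k8),(k5,k8)],[(k0,k6),(k2,k8)],[(k1,k6)],[(k10,k6)],[(k6,k6),
    (k9,k9)],[(k6,k9),(k9,k12)],[(k11,k9),(k8,k12)],[(k11,k6),(k8,k9)],[(k7,k6)]]
    [] k0
    [[k1,k0,k1,k0,k0,k0],[k1,k1,k1,k0,k0,k0],[k0,k2,k0,k0,k0,k0]]
    [.ref k4 k0 [(z1,[z1])],.ref k0 k0 [(z1,[z1])],.contra [z1]])]⟩

/-- classes `0 0 1 2 3 1`, types `C0 C0 N0 S0 S0 N2` -/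
noncomputable def cU6_1758 : CertX :=
  ⟨[k4,k4,k28,k32,k48,k30],[],[[[]]],
    [.old (.lp [k2,k4,k2,k2,k2,k2] [k1,k1,k0,k0,k1,k1,k1,k1,k1,k1,k1,k1] k0 [] k8 k5
    [[(k7,k2)],[(k5,k2),(k3,k3)],[(k0,k3),(k2,k4)],[(k5,k3),(k3,k4)],[(k0,k2),(k2,k3)],[(k10,k2)],[(k1,k2)],[(k6,k2),
    (k9,k2)],[(k6,k2),(k9,k2)],[(k8,k2),(k11,k2)],[(k8,k2),(k11,k2)],[(k4,k2)]]
    [] k0
    [[k0,k0,k0,k0,k2,k0]]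
    [.contra [z1]])]⟩

/-- classes `0 0 1 2 3 1`, types `C0 C0 S0 C0 C0 S0` -/
noncomputable def cU6_1759 : CertX :=
  ⟨[k4,k4,k16,k36,k52,k16],[(false,k0,[k0,k1,k2,k3,k4,k5])],[[[([z1,z1,z1,z0,z0,z0],z2)],[]]],
    [.old (.leafM k0 [k2,k3,k4,k5,k0,k1] [(z1,[y1,z1])] []),
    .old (.lp [k6,k10,k24,k6,k6,k6] [k9,k9,k7,k7,k0,k0,k9,k9,k9,k9,k9,k9] k0 [] k30 k6
    [[(k1,k6),(k7,k6),(k10,k6),(k4,k15)],[(k3,k8),(k5,k15)],[(k0,k8),(k2,k10)],[(k3,k10),(k5,k17)],[(k0,k15),(k2,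
    k17)],[(k1,k15),(k7,k15),(k10,k15),(k4,k24)],[(k1,k6),(k7,k6),(k10,k6),(k4,k15)],[(k9,k6)],[(k6,k6)],[(k11,k6)],
    [(k8,k6)],[(k1,k6),(k7,k6),(k10,k6),(k4,k15)]]
    [] k0
    [[k0,k2,k0,k0,k0,k0],[k0,k0,k0,k1,k1,k1]]
    [.contra [z1],.ref k0 k0 [(z1,[y1,z1])]])]⟩

/-- classes `0 0 1 2 3 1`, types `C0 C0 S0 C0 S0 S0` -/
noncomputable def cU6_1760 : CertX :=
  ⟨[k4,k4,k16,k36,k48,k16],[(false,k0,[k0,k1,k2,k3,k4,k5])],[[[([z1,z1,z1,z0,z0,z0],z2)],[]]],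
    [.old (.leafM k0 [k2,k3,k4,k5,k0,k1] [(z1,[y1,z1])] []),
    .old (.lp [(nat_lit 360),(nat_lit 280),k168,(nat_lit 252),k168,(nat_lit 420)] [k135,k135,k175,k175,(nat_lit 231),
    (nat_lit 231),(nat_lit 231),k147,(nat_lit 231),(nat_lit 231),k0,(nat_lit 210)] k0 [[],[],[],[],[],[k0,k0,k0,k0,k0,
    k0,k0,k0,k0,k0,k0,(nat_lit 315)],[],[],[],[],[k0,k0,k0,k0,(nat_lit 315)]] (nat_lit 840) k6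
    [[(k7,(nat_lit 348)),(k1,(nat_lit 360)),(k10,(nat_lit 495)),(k4,(nat_lit 579))],[(k5,(nat_lit 264)),(k3,
    (nat_lit 320))],[(k2,(nat_lit 280)),(k0,(nat_lit 320))],[(k5,(nat_lit 224)),(k3,(nat_lit 280))],[(k2,
    (nat_lit 224)),(k0,(nat_lit 264))],[(k4,k168),(k7,(nat_lit 252)),(k10,(nat_lit 399)),(k1,(nat_lit 579))],[(k10,
    k168),(k4,(nat_lit 252)),(k7,(nat_lit 336)),(k1,(nat_lit 348))],[(k9,k168)],[(k6,k168)],[(k8,k168),(k11,k189)],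
    [(k8,k189),(k11,(nat_lit 210))],[(k7,k168),(k4,(nat_lit 399)),(k1,(nat_lit 495)),(k10,(nat_lit 630))]]
    [] k0
    [[k0,k2,k0,k0,k0,k0],[k0,k0,k0,k1,k1,k1]]
    [.contra [z1],.ref k0 k0 [(z1,[y1,z1])]])]⟩

/-- classes `0 0 1 2 3 1`, types `C0 C0 S0 S0 S0 S0` -/
noncomputable def cU6_1761 : CertX :=
  ⟨[k4,k4,k16,k32,k48,k16],[(false,k0,[k0,k1,k2,k3,k4,k5])],[[[([z1,z1,z1,z0,z0,z0],z2)],[([z1,z0,z1,z0,z0,z0],z2),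
    ([z0,z2,z0,z0,z0,z0],z1),([z0,z0,z0,z1,z0,z1],z1)],[([z1,z0,z1,z0,z0,z0],z2),([z0,z3,z0,z0,z0,z0],z2),([z0,z0,z0,
    z1,z0,z1],z1)],[([z1,z0,z1,z0,z0,z0],z2),([z0,z1,z0,z0,z1,z0],z1)],[([z1,z0,z1,z0,z0,z0],z2)],[]]],
    [.old (.leafM k0 [k2,k3,k4,k5,k0,k1] [(z1,[y1,z1])] []),
    .old (.leafM k9 [k5,k1,k3,k4] [(z1,[z0,z1]),(z1,[y2,y1,y2,z2]),(z1,[z0,z0,z1])] [(k0,k2,z1,[z1]),(k2,k0,z1,[z1])]),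
    .old (.leafM k8 [k5,k1,k3,k4] [(z1,[z0,z1]),(z1,[y3,y1,y3,z3]),(z1,[z0,z0,z1])] [(k0,k2,z1,[z1]),(k2,k0,z1,[z1])]),
    .old (.lp [(nat_lit 252),(nat_lit 210),k168,(nat_lit 420),k168,(nat_lit 420)] [(nat_lit 204),(nat_lit 204),
    (nat_lit 225),(nat_lit 225),(nat_lit 246),(nat_lit 246),(nat_lit 240),k0,(nat_lit 246),(nat_lit 246),k50,
    k190] k0 [[],[],[],[],[],[k0,k0,k0,k0,k0,k0,k0,k0,k0,k0,k0,(nat_lit 420)],[],[],[],[],[k0,k0,k0,k0,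
    (nat_lit 420)]] (nat_lit 840) k6
    [[(k1,(nat_lit 252)),(k10,(nat_lit 406)),(k7,(nat_lit 456)),(k4,(nat_lit 630))],[(k5,(nat_lit 210)),(k3,
    (nat_lit 231))],[(k2,(nat_lit 210)),(k0,(nat_lit 231))],[(k5,k189),(k3,(nat_lit 210))],[(k2,k189),(k0,
    (nat_lit 210))],[(k4,k168),(k10,(nat_lit 364)),(k7,(nat_lit 414)),(k1,(nat_lit 630))],[(k10,k190),(k4,
    (nat_lit 414)),(k1,(nat_lit 456)),(k7,(nat_lit 660))],[(k9,k174),(k6,k180)],[(k9,k168),(k6,k174)],[(k8,k168),(k11,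
    (nat_lit 224))],[(k8,(nat_lit 224)),(k11,(nat_lit 280))],[(k7,k190),(k4,(nat_lit 364)),(k1,(nat_lit 406)),(k10,
    (nat_lit 560))]]
    [] k0
    [[k0,k2,k0,k0,k0,k0],[k0,k3,k0,k0,k0,k0],[k0,k0,k0,k1,k1,k1],[k0,k0,k0,k0,k2,k0],[k0,k0,k0,k0,k4,k0]]
    [.contra [z1],.ref k2 k0 [(z1,[z0,z1]),(z1,[z1]),(z1,[z0,y1,y1,z1])],.contra [z1,z1,z1,y1],.contra [z1],
    .ref k1 k0 [(z1,[z0,z1]),(z2,[y1,z0,z4]),(z1,[z0,y1,y1,z1])]]),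
    .old (.lp [k110,k80,k48,k60,k60,k120] [k39,k39,k54,k54,k70,k70,k70,k58,k64,k64,k0,k68] k0 [[],[],[],[],[],[k0,k0,k0,
    k0,k0,k0,k0,k0,k0,k0,k0,k82],[],[],[],[],[k0,k0,k0,k0,k82]] (nat_lit 240) k6
    [[(k7,k91),(k1,k110),(k10,k149),(k4,k161)],[(k5,k79),(k3,k95)],[(k2,k80),(k0,k95)],[(k5,k64),(k3,k80)],[(k2,k64),
    (k0,k79)],[(k4,k48),(k7,k60),(k10,k118),(k1,k161)],[(k10,k48),(k4,k60),(k7,k72),(k1,k91)],[(k6,k48),(k9,k54)],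
    [(k6,k54),(k9,k60)],[(k11,k56),(k8,k60)],[(k11,k52),(k8,k56)],[(k7,k48),(k4,k118),(k1,k149),(k10,k188)]]
    [] k0
    [[k0,k2,k0,k0,k0,k0],[k0,k0,k0,k2,k0,k0],[k0,k0,k0,k1,k1,k1],[k0,k0,k0,k2,k0,k2],[k0,k0,k0,k0,k2,k0]]
    [.contra [z1],.contra [z1],.contra [y1,y1,z1],.ref k3 k0 [(z1,[z0,z1]),(z2,[y1,y2,z2])],.contra [z1]]),
    .old (.lp [k8,k8,k6,k6,k6,k12] [k2,k2,k2,k2,k3,k3,k3,k3,k3,k3,k0,k0] k0 [[],[],[],[],[],[k0,k0,k0,k0,k0,k0,k0,k0,k0,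
    k0,k0,k2],[],[],[],[],[k0,k0,k0,k0,k2]] k24 k5
    [[(k7,k7),(k1,k8),(k4,k9),(k10,k10)],[(k5,k7),(k3,k8)],[(k0,k8),(k2,k8)],[(k5,k7),(k3,k8)],[(k0,k7),(k2,k7)],[(k4,
    k6),(k7,k6),(k1,k9),(k10,k9)],[(k4,k6),(k7,k6),(k1,k7),(k10,k7)],[(k6,k6),(k9,k6)],[(k6,k6),(k9,k6)],[(k8,k6),
    (k11,k9)],[(k8,k9),(k11,k12)],[(k7,k7),(k4,k9),(k1,k10),(k10,k12)]]
    [] k0
    [[k1,k0,k1,k0,k0,k0],[k0,k2,k0,k0,k0,k0],[k0,k0,k0,k2,k0,k0],[k0,k0,k0,k1,k1,k1],[k0,k0,k0,k0,k2,k0]]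
    [.ref k4 k0 [(z1,[z1])],.contra [z1],.contra [z1],.ref k0 k0 [(z1,[y1,z1])],.contra [z1]])]⟩

/-- classes `0 0 1 2 3 1`, types `C0 C2 B0 C0 C0 B1` -/
noncomputable def cU6_1762 : CertX :=
  ⟨[k4,k6,k24,k36,k52,k25],[(false,k0,[k0,k1,k2,k3,k4,k5])],[[[([z1,z1,z1,z0,z0,z0],z2)],[]]],
    [.old (.leafM k0 [k2,k3,k4,k5,k0,k1] [(z1,[y1,z1])] []),
    .old (.lp [k4,k2,k2,k2,k2,k2] [k0,k0,k1,k1,k1,k1,k1,k1,k1,k1,k1,k1] k0 [] k8 k5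
    [[(k4,k3),(k7,k3)],[(k2,k3),(k3,k3)],[(k5,k2),(k0,k3)],[(k5,k2),(k0,k3)],[(k2,k2),(k3,k2)],[(k10,k2),(k1,k3)],
    [(k10,k2),(k1,k3)],[(k9,k2)],[(k6,k2)],[(k11,k2)],[(k8,k2)],[(k4,k2),(k7,k2)]]
    [] k0
    [[k0,k0,k0,k1,k1,k1]]
    [.ref k0 k0 [(z1,[y1,z1])]])]⟩

/-- classes `0 0 1 2 3 1`, types `C0 C2 B0 C0 S0 B1` -/
noncomputable def cU6_1763 : CertX :=
  ⟨[k4,k6,k24,k36,k48,k25],[(false,k0,[k0,k1,k2,k3,k4,k5])],[[[([z1,z1,z1,z0,z0,z0],z2)],[]]],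
    [.old (.leafM k0 [k2,k3,k4,k5,k0,k1] [(z1,[y1,z1])] []),
    .old (.lp [k4,k0,k4,k2,k2,k2] [k0,k0,k2,k2,k0,k0,k1,k1,k1,k1,k1,k1] k0 [] k8 k5
    [[(k7,k3),(k4,k4)],[(k2,k2),(k3,k2)],[(k0,k2),(k5,k2)],[(k0,k2),(k5,k2)],[(k2,k2),(k3,k2)],[(k10,k3),(k1,k4)],
    [(k10,k2),(k1,k3)],[(k9,k2)],[(k6,k2)],[(k8,k2),(k11,k2)],[(k8,k2),(k11,k2)],[(k7,k2),(k4,k3)]]
    [] k0
    [[k0,k0,k0,k1,k1,k1]]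
    [.ref k0 k0 [(z1,[y1,z1])]])]⟩

/-- classes `0 0 1 2 3 1`, types `C0 C2 B0 S0 S0 B1` -/
noncomputable def cU6_1764 : CertX :=
  ⟨[k4,k6,k24,k32,k48,k25],[(false,k0,[k0,k1,k2,k3,k4,k5])],[[[([z1,z1,z1,z0,z0,z0],z2)],[]]],
    [.old (.leafM k0 [k2,k3,k4,k5,k0,k1] [(z1,[y1,z1])] []),
    .old (.lp [k2,k2,k2,k2,k4,k2] [k1,k1,k1,k1,k1,k1,k1,k1,k0,k0,k1,k1] k0 [] k8 k5
    [[(k4,k2),(k7,k2)],[(k2,k2),(k3,k2)],[(k0,k2),(k5,k2)],[(k0,k2),(k5,k2)],[(k2,k2),(k3,k2)],[(k1,k2),(k10,k2)],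
    [(k1,k2),(k10,k2)],[(k6,k2),(k9,k3)],[(k6,k3),(k9,k4)],[(k11,k3),(k8,k4)],[(k11,k2),(k8,k3)],[(k4,k2),(k7,k2)]]
    [] k0
    [[k1,k1,k1,k0,k0,k0]]
    [.ref k0 k0 [(z1,[z1])]])]⟩

/-- classes `0 0 1 2 3 1`, types `C0 C2 C0 C0 C0 C0` -/
noncomputable def cU6_1765 : CertX :=
  ⟨[k4,k6,k20,k36,k52,k20],[(false,k0,[k0,k1,k2,k3,k4,k5])],[[[([z1,z1,z1,z0,z0,z0],z2)],[]]],
    [.old (.leafM k0 [k2,k3,k4,k5,k0,k1] [(z1,[y1,z1])] []),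
    .old (.lp [k2,k2,k2,k2,k2,k4] [k1,k1,k1,k1,k1,k1,k1,k1,k1,k1,k0,k0] k0 [] k8 k5
    [[(k4,k2),(k10,k3)],[(k2,k2),(k3,k2)],[(k0,k2),(k5,k2)],[(k0,k2),(k5,k2)],[(k2,k2),(k3,k2)],[(k1,k2),(k7,k2)],
    [(k4,k2),(k10,k3)],[(k9,k2)],[(k6,k2)],[(k11,k3)],[(k8,k3)],[(k1,k3),(k7,k3)]]
    [] k0
    [[k1,k1,k1,k0,k0,k0]]
    [.ref k0 k0 [(z1,[z1])]])]⟩

/-- classes `0 0 1 2 3 1`, types `C0 C2 C0 C0 C0 C2` -/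
noncomputable def cU6_1766 : CertX :=
  ⟨[k4,k6,k20,k36,k52,k22],[],[[[]]],
    [.old (.lp [k0,k2,k0,k2,k0,k2] [k1,k1,k0,k0,k1,k1,k0,k0,k1,k1,k0,k0] k0 [] k4 k5
    [[(k7,k1),(k10,k1)],[(k2,k1),(k3,k1)],[(k0,k1),(k5,k1)],[(k0,k1),(k5,k1)],[(k2,k1),(k3,k1)],[(k7,k1),(k10,k1)],
    [(k1,k1),(k4,k1)],[(k9,k1)],[(k6,k1)],[(k11,k1)],[(k8,k1)],[(k1,k1),(k4,k1)]]
    [] k0
    []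
    [])]⟩

/-- classes `0 0 1 2 3 1`, types `C0 C2 C0 C0 S0 C0` -/
noncomputable def cU6_1767 : CertX :=
  ⟨[k4,k6,k20,k36,k48,k20],[(false,k0,[k0,k1,k2,k3,k4,k5])],[[[([z1,z1,z1,z0,z0,z0],z2)],[]]],
    [.old (.leafM k0 [k2,k3,k4,k5,k0,k1] [(z1,[y1,z1])] []),
    .old (.lp [k4,k2,k2,k2,k2,k2] [k0,k0,k1,k1,k1,k1,k1,k1,k1,k1,k1,k1] k0 [] k8 k5
    [[(k4,k3),(k10,k3)],[(k2,k3),(k3,k3)],[(k5,k2),(k0,k3)],[(k5,k2),(k0,k3)],[(k2,k2),(k3,k2)],[(k7,k2),(k1,k3)],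
    [(k4,k2),(k10,k2)],[(k9,k2)],[(k6,k2)],[(k8,k2),(k11,k2)],[(k8,k2),(k11,k2)],[(k7,k2),(k1,k3)]]
    [] k0
    [[k0,k0,k0,k1,k1,k1]]
    [.ref k0 k0 [(z1,[y1,z1])]])]⟩

/-- classes `0 0 1 2 3 1`, types `C0 C2 C0 C0 S0 C2` -/
noncomputable def cU6_1768 : CertX :=
  ⟨[k4,k6,k20,k36,k48,k22],[],[[[]]],
    [.old (.lp [k2,k2,k2,k2,k2,k2] [k0,k0,k0,k0,k0,k0,k0,k0,k0,k0,k0,k0] k0 [] k8 k5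
    [[(k7,k2),(k10,k2)],[(k2,k2),(k3,k2)],[(k0,k2),(k5,k2)],[(k0,k2),(k5,k2)],[(k2,k2),(k3,k2)],[(k7,k2),(k10,k2)],
    [(k1,k2),(k4,k2)],[(k9,k2)],[(k6,k2)],[(k8,k2),(k11,k2)],[(k8,k2),(k11,k2)],[(k1,k2),(k4,k2)]]
    [] k0
    []
    [])]⟩

/-- classes `0 0 1 2 3 1`, types `C0 C2 C0 S0 S0 C0` -/
noncomputable def cU6_1769 : CertX :=
  ⟨[k4,k6,k20,k32,k48,k20],[(false,k0,[k0,k1,k2,k3,k4,k5])],[[[([z1,z1,z1,z0,z0,z0],z2)],[]]],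
    [.old (.leafM k0 [k2,k3,k4,k5,k0,k1] [(z1,[y1,z1])] []),
    .old (.lp [k4,k0,k4,k2,k2,k2] [k0,k0,k2,k2,k0,k0,k1,k1,k1,k1,k1,k1] k0 [] k8 k5
    [[(k10,k3),(k4,k4)],[(k2,k2),(k3,k2)],[(k0,k2),(k5,k2)],[(k0,k2),(k5,k2)],[(k2,k2),(k3,k2)],[(k7,k3),(k1,k4)],
    [(k10,k2),(k4,k3)],[(k6,k2),(k9,k2)],[(k6,k2),(k9,k2)],[(k8,k2),(k11,k2)],[(k8,k2),(k11,k2)],[(k7,k2),(k1,k3)]]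
    [] k0
    [[k0,k0,k0,k1,k1,k1],[k0,k0,k0,k0,k2,k0]]
    [.ref k0 k0 [(z1,[y1,z1])],.contra [z1]])]⟩

/-- classes `0 0 1 2 3 1`, types `C0 C2 C0 S0 S0 C2` -/
noncomputable def cU6_1770 : CertX :=
  ⟨[k4,k6,k20,k32,k48,k22],[],[[[]]],
    [.old (.lp [k2,k2,k2,k2,k4,k2] [k1,k1,k1,k1,k1,k1,k1,k1,k0,k0,k1,k1] k0 [] k8 k5
    [[(k7,k2),(k10,k2)],[(k2,k2),(k3,k2)],[(k0,k2),(k5,k2)],[(k0,k2),(k5,k2)],[(k2,k2),(k3,k2)],[(k7,k2),(k10,k2)],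
    [(k1,k2),(k4,k2)],[(k6,k2),(k9,k3)],[(k6,k3),(k9,k4)],[(k11,k3),(k8,k4)],[(k11,k2),(k8,k3)],[(k1,k2),(k4,k2)]]
    [] k0
    []
    [])]⟩

/-- classes `0 0 1 2 3 1`, types `C0 C2 N0 C0 C0 N1` -/
noncomputable def cU6_1771 : CertX :=
  ⟨[k4,k6,k28,k36,k52,k29],[(false,k0,[k0,k1,k2,k3,k4,k5])],[[[([z1,z1,z1,z0,z0,z0],z2)],[]]],
    [.old (.leafM k0 [k2,k3,k4,k5,k0,k1] [(z1,[y1,z1])] []),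
    .old (.lp [k2,k2,k2,k0,k4,k4] [k1,k1,k1,k1,k1,k1,k2,k2,k0,k0,k0,k0] k0 [] k8 k5
    [[(k4,k2)],[(k2,k2),(k3,k2)],[(k0,k2),(k5,k2)],[(k0,k2),(k5,k2)],[(k2,k2),(k3,k2)],[(k1,k2)],[(k10,k2)],[(k9,k2)],
    [(k6,k2)],[(k11,k4)],[(k8,k4)],[(k7,k2)]]
    [] k0
    [[k1,k1,k1,k0,k0,k0]]
    [.ref k0 k0 [(z1,[z1])]])]⟩

/-- classes `0 0 1 2 3 1`, types `C0 C2 N0 C0 C0 N2` -/
noncomputable def cU6_1772 : CertX :=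
  ⟨[k4,k6,k28,k36,k52,k30],[],[[[]]],
    [.old (.lp [k0,k2,k0,k2,k0,k2] [k1,k1,k0,k0,k1,k1,k0,k0,k1,k1,k0,k0] k0 [] k4 k5
    [[(k7,k1)],[(k2,k1),(k3,k1)],[(k0,k1),(k5,k1)],[(k0,k1),(k5,k1)],[(k2,k1),(k3,k1)],[(k10,k1)],[(k1,k1)],[(k9,k1)],
    [(k6,k1)],[(k11,k1)],[(k8,k1)],[(k4,k1)]]
    [] k0
    []
    [])]⟩

/-- classes `0 0 1 2 3 1`, types `C0 C2 N0 C0 S0 N1` -/
noncomputable def cU6_1773 : CertX :=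
  ⟨[k4,k6,k28,k36,k48,k29],[(false,k0,[k0,k1,k2,k3,k4,k5])],[[[([z1,z1,z1,z0,z0,z0],z2)],[]]],
    [.old (.leafM k0 [k2,k3,k4,k5,k0,k1] [(z1,[y1,z1])] []),
    .old (.lp [k4,k4,k0,k2,k2,k2] [k0,k0,k0,k0,k2,k2,k1,k1,k1,k1,k1,k1] k0 [] k8 k5
    [[(k4,k2)],[(k2,k4),(k3,k4)],[(k5,k2),(k0,k4)],[(k5,k2),(k0,k4)],[(k2,k2),(k3,k2)],[(k1,k2)],[(k10,k2)],[(k9,k2)],
    [(k6,k2)],[(k8,k2),(k11,k2)],[(k8,k2),(k11,k2)],[(k7,k2)]]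
    [] k0
    [[k0,k0,k0,k1,k1,k1]]
    [.ref k0 k0 [(z1,[y1,z1])]])]⟩

/-- classes `0 0 1 2 3 1`, types `C0 C2 N0 C0 S0 N2` -/
noncomputable def cU6_1774 : CertX :=
  ⟨[k4,k6,k28,k36,k48,k30],[],[[[]]],
    [.old (.lp [k2,k2,k2,k2,k2,k2] [k0,k0,k0,k0,k0,k0,k0,k0,k0,k0,k0,k0] k0 [] k8 k5
    [[(k7,k2)],[(k2,k2),(k3,k2)],[(k0,k2),(k5,k2)],[(k0,k2),(k5,k2)],[(k2,k2),(k3,k2)],[(k10,k2)],[(k1,k2)],[(k9,k2)],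
    [(k6,k2)],[(k8,k2),(k11,k2)],[(k8,k2),(k11,k2)],[(k4,k2)]]
    [] k0
    []
    [])]⟩

/-- classes `0 0 1 2 3 1`, types `C0 C2 N0 S0 S0 N1` -/
noncomputable def cU6_1775 : CertX :=
  ⟨[k4,k6,k28,k32,k48,k29],[(false,k0,[k0,k1,k2,k3,k4,k5])],[[[([z1,z1,z1,z0,z0,z0],z2)],[]]],
    [.old (.leafM k0 [k2,k3,k4,k5,k0,k1] [(z1,[y1,z1])] []),
    .old (.lp [k4,k0,k4,k2,k2,k2] [k0,k0,k2,k2,k0,k0,k1,k1,k1,k1,k1,k1] k0 [] k8 k5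
    [[(k4,k4)],[(k2,k2),(k3,k2)],[(k0,k2),(k5,k2)],[(k0,k2),(k5,k2)],[(k2,k2),(k3,k2)],[(k1,k4)],[(k10,k2)],[(k6,k2),
    (k9,k2)],[(k6,k2),(k9,k2)],[(k8,k2),(k11,k2)],[(k8,k2),(k11,k2)],[(k7,k2)]]
    [] k0
    [[k0,k0,k0,k1,k1,k1],[k0,k0,k0,k0,k2,k0]]
    [.ref k0 k0 [(z1,[y1,z1])],.contra [z1]])]⟩

/-- classes `0 0 1 2 3 1`, types `C0 C2 N0 S0 S0 N2` -/
noncomputable def cU6_1776 : CertX :=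
  ⟨[k4,k6,k28,k32,k48,k30],[],[[[]]],
    [.old (.lp [k2,k2,k2,k2,k4,k2] [k1,k1,k1,k1,k1,k1,k1,k1,k0,k0,k1,k1] k0 [] k8 k5
    [[(k7,k2)],[(k2,k2),(k3,k2)],[(k0,k2),(k5,k2)],[(k0,k2),(k5,k2)],[(k2,k2),(k3,k2)],[(k10,k2)],[(k1,k2)],[(k6,k2),
    (k9,k3)],[(k6,k3),(k9,k4)],[(k11,k3),(k8,k4)],[(k11,k2),(k8,k3)],[(k4,k2)]]
    [] k0
    []
    [])]⟩

/-- classes `0 0 1 2 3 1`, types `C0 C2 S0 C0 C0 S0` -/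
noncomputable def cU6_1777 : CertX :=
  ⟨[k4,k6,k16,k36,k52,k16],[(false,k0,[k0,k1,k2,k3,k4,k5])],[[[([z1,z1,z1,z0,z0,z0],z2)],[]]],
    [.old (.leafM k0 [k2,k3,k4,k5,k0,k1] [(z1,[y1,z1])] []),
    .old (.lp [k2,k4,k2,k2,k2,k2] [k1,k1,k0,k0,k1,k1,k1,k1,k1,k1,k1,k1] k0 [] k8 k5
    [[(k1,k2),(k4,k2),(k7,k2),(k10,k2)],[(k2,k3),(k3,k3)],[(k0,k3),(k5,k3)],[(k0,k3),(k5,k3)],[(k2,k3),(k3,k3)],[(k1,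
    k2),(k4,k2),(k7,k2),(k10,k2)],[(k1,k2),(k4,k2),(k7,k2),(k10,k2)],[(k9,k2)],[(k6,k2)],[(k11,k2)],[(k8,k2)],[(k1,
    k2),(k4,k2),(k7,k2),(k10,k2)]]
    [] k0
    [[k0,k0,k0,k1,k1,k1]]
    [.ref k0 k0 [(z1,[y1,z1])]])]⟩

/-- classes `0 0 1 2 3 1`, types `C0 C2 S0 C0 S0 S0` -/
noncomputable def cU6_1778 : CertX :=
  ⟨[k4,k6,k16,k36,k48,k16],[(false,k0,[k0,k1,k2,k3,k4,k5])],[[[([z1,z1,z1,z0,z0,z0],z2)],[]]],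
    [.old (.leafM k0 [k2,k3,k4,k5,k0,k1] [(z1,[y1,z1])] []),
    .old (.lp [k2,k4,k2,k2,k2,k2] [k1,k1,k0,k0,k1,k1,k1,k1,k1,k1,k1,k1] k0 [] k8 k5
    [[(k1,k2),(k4,k2),(k7,k2),(k10,k2)],[(k2,k3),(k3,k3)],[(k0,k3),(k5,k3)],[(k0,k3),(k5,k3)],[(k2,k3),(k3,k3)],[(k1,
    k2),(k4,k2),(k7,k2),(k10,k2)],[(k1,k2),(k4,k2),(k7,k2),(k10,k2)],[(k9,k2)],[(k6,k2)],[(k8,k2),(k11,k2)],[(k8,k2),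
    (k11,k2)],[(k1,k2),(k4,k2),(k7,k2),(k10,k2)]]
    [] k0
    [[k0,k0,k0,k1,k1,k1],[k0,k0,k0,k0,k0,k2]]
    [.ref k0 k0 [(z1,[y1,z1])],.contra [z1]])]⟩

/-- classes `0 0 1 2 3 1`, types `C0 C2 S0 S0 S0 S0` -/
noncomputable def cU6_1779 : CertX :=
  ⟨[k4,k6,k16,k32,k48,k16],[(false,k0,[k0,k1,k2,k3,k4,k5])],[[[([z1,z1,z1,z0,z0,z0],z2)],[]]],
    [.old (.leafM k0 [k2,k3,k4,k5,k0,k1] [(z1,[y1,z1])] []),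
    .old (.lp [k2,k4,k2,k2,k2,k2] [k1,k1,k0,k0,k1,k1,k1,k1,k1,k1,k1,k1] k0 [] k8 k5
    [[(k1,k2),(k4,k2),(k7,k2),(k10,k2)],[(k2,k3),(k3,k3)],[(k0,k3),(k5,k3)],[(k0,k3),(k5,k3)],[(k2,k3),(k3,k3)],[(k1,
    k2),(k4,k2),(k7,k2),(k10,k2)],[(k1,k2),(k4,k2),(k7,k2),(k10,k2)],[(k6,k2),(k9,k2)],[(k6,k2),(k9,k2)],[(k8,k2),
    (k11,k2)],[(k8,k2),(k11,k2)],[(k1,k2),(k4,k2),(k7,k2),(k10,k2)]]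
    [] k0
    [[k0,k0,k0,k2,k0,k0],[k0,k0,k0,k1,k1,k1],[k0,k0,k0,k0,k2,k0],[k0,k0,k0,k0,k0,k2]]
    [.contra [z1],.ref k0 k0 [(z1,[y1,z1])],.contra [z1],.contra [z1]])]⟩

/-- classes `0 0 1 2 3 1`, types `N0 N1 B0 C0 C0 B1` -/
noncomputable def cU6_1780 : CertX :=
  ⟨[k12,k13,k24,k36,k52,k25],[(false,k0,[k0,k1,k2,k3,k4,k5])],[[[([z1,z0,z1,z0,z0,z0],z2)],[]]],
    [.old (.lp [k24,k10,k6,k6,k6,k6] [k0,k0,k7,k7,k9,k9,k9,k9,k9,k9,k9,k9] k0 [] k30 k6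
    [[(k4,k15),(k7,k15)],[(k5,k15)],[(k2,k10)],[(k3,k10)],[(k0,k15)],[(k10,k6),(k1,k15)],[(k10,k6),(k1,k15)],[(k9,
    k6)],[(k6,k6)],[(k11,k6)],[(k8,k6)],[(k4,k6),(k7,k6)]]
    [] k0
    [[k0,k2,k0,k0,k0,k0],[k0,k0,k0,k1,k1,k1]]
    [.contra [z1],.contra [y1,y1,z1]]),
    .old (.lp [k6,k4,k0,k6,k0,k6] [k0,k0,k1,k1,k3,k3,k0,k0,k3,k3,k0,k0] k0 [] k12 k5
    [[(k4,k3),(k7,k6)],[(k5,k3)],[(k2,k4)],[(k3,k4)],[(k0,k3)],[(k1,k3),(k10,k3)],[(k1,k6),(k10,k6)],[(k9,k3)],[(k6,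
    k3)],[(k11,k3)],[(k8,k3)],[(k4,k3),(k7,k6)]]
    [] k0
    [[k1,k0,k1,k0,k0,k0],[k0,k2,k0,k0,k0,k0]]
    [.ref k0 k0 [(z1,[z1])],.contra [z1]])]⟩

/-- classes `0 0 1 2 3 1`, types `N0 N1 B0 C0 S0 B1` -/
noncomputable def cU6_1781 : CertX :=
  ⟨[k12,k13,k24,k36,k48,k25],[(false,k0,[k0,k1,k2,k3,k4,k5])],[[[([z1,z0,z1,z0,z0,z0],z2)],[]]],
    [.old (.lp [k6,k10,k24,k6,k6,k6] [k9,k9,k7,k7,k0,k0,k9,k9,k9,k9,k9,k9] k0 [] k30 k6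
    [[(k7,k6),(k4,k15)],[(k5,k15)],[(k2,k10)],[(k3,k10)],[(k0,k15)],[(k1,k15),(k10,k15)],[(k1,k6),(k10,k6)],[(k9,k6)],
    [(k6,k6)],[(k8,k6),(k11,k6)],[(k8,k6),(k11,k6)],[(k7,k6),(k4,k15)]]
    [] k0
    [[k0,k2,k0,k0,k0,k0],[k0,k0,k0,k1,k1,k1]]
    [.contra [z1],.contra [y1,y1,z1]]),
    .old (.lp [k0,k8,k12,k12,k6,k6] [k6,k6,k2,k2,k0,k0,k0,k0,k3,k3,k3,k3] k0 [] k24 k5
    [[(k4,k6),(k7,k6)],[(k5,k6)],[(k2,k8)],[(k3,k8)],[(k0,k6)],[(k1,k6),(k10,k9)],[(k1,k6),(k10,k9)],[(k9,k9)],[(k6,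
    k9)],[(k8,k6),(k11,k6)],[(k8,k6),(k11,k6)],[(k4,k9),(k7,k9)]]
    [] k0
    [[k1,k0,k1,k0,k0,k0],[k0,k2,k0,k0,k0,k0]]
    [.ref k0 k0 [(z1,[z1])],.contra [z1]])]⟩

/-- classes `0 0 1 2 3 1`, types `N0 N1 B0 S0 S0 B1` -/
noncomputable def cU6_1782 : CertX :=
  ⟨[k12,k13,k24,k32,k48,k25],[(false,k0,[k0,k1,k2,k3,k4,k5])],[[[([z1,z0,z1,z0,z0,z0],z2),([z0,z2,z0,z0,z0,z0],z1),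
    ([z0,z0,z0,z1,z0,z1],z1)],[([z1,z0,z1,z0,z0,z0],z2),([z0,z3,z0,z0,z0,z0],z2),([z0,z0,z0,z1,z0,z1],z1)],[([z1,z0,
    z1,z0,z0,z0],z2),([z0,z1,z0,z0,z1,z0],z1)],[([z1,z0,z1,z0,z0,z0],z2)],[]]],
    [.old (.leafM k9 [k5,k1,k3,k4] [(z1,[z0,z1]),(z1,[y2,y1,y2,z2]),(z1,[z0,z0,z1])] [(k0,k2,z1,[z1]),(k2,k0,z1,[z1])]),
    .old (.leafM k8 [k5,k1,k3,k4] [(z1,[z0,z1]),(z1,[y3,y1,y3,z3]),(z1,[z0,z0,z1])] [(k0,k2,z1,[z1]),(k2,k0,z1,[z1])]),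
    .old (.lp [k8,k10,k32,k8,k8,k12] [k12,k12,k11,k11,k0,k0,k12,k12,k12,k12,k10,k10] k0 [] k40 k6
    [[(k7,k8),(k4,k20)],[(k5,k20)],[(k2,k10)],[(k3,k10)],[(k0,k20)],[(k1,k20),(k10,k22)],[(k1,k8),(k10,k10)],[(k6,k8),
    (k9,k8)],[(k6,k8),(k9,k8)],[(k8,k8),(k11,k10)],[(k8,k10),(k11,k12)],[(k7,k10),(k4,k22)]]
    [] k0
    [[k0,k2,k0,k0,k0,k0],[k0,k3,k0,k0,k0,k0],[k0,k0,k0,k1,k1,k1],[k0,k0,k0,k0,k2,k0],[k0,k0,k0,k0,k4,k0]]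
    [.contra [z1],.ref k1 k0 [(z1,[z0,z1]),(z1,[z1]),(z1,[z0,y1,y1,z1])],.contra [z1,z1,z1,y1],.contra [z1],
    .ref k0 k0 [(z1,[z0,z1]),(z2,[y1,z0,z4]),(z1,[z0,y1,y1,z1])]]),
    .old (.lp [k24,k40,k96,k24,k30,k24] [k36,k36,k28,k28,k0,k0,k36,k36,k33,k33,k36,k36] k0 [] k120 k6
    [[(k7,k24),(k4,k60)],[(k5,k60)],[(k2,k40)],[(k3,k40)],[(k0,k60)],[(k1,k60),(k10,k60)],[(k1,k24),(k10,k24)],[(k6,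
    k24),(k9,k27)],[(k6,k27),(k9,k30)],[(k11,k27),(k8,k30)],[(k11,k24),(k8,k27)],[(k7,k24),(k4,k60)]]
    [] k0
    [[k0,k2,k0,k0,k0,k0],[k0,k0,k0,k1,k1,k1],[k0,k0,k0,k2,k0,k2],[k0,k0,k0,k0,k2,k0]]
    [.contra [z1],.contra [y1,y1,z1],.ref k2 k0 [(z1,[z0,z1]),(z2,[y1,y2,z2])],.contra [z1]]),
    .old (.lp [k6,k8,k6,k6,k12,k6] [k3,k3,k2,k2,k3,k3,k3,k3,k0,k0,k3,k3] k0 [] k24 k5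
    [[(k4,k6),(k7,k6)],[(k5,k6)],[(k2,k8)],[(k3,k8)],[(k0,k6)],[(k1,k6),(k10,k6)],[(k1,k6),(k10,k6)],[(k6,k6),(k9,
    k9)],[(k6,k9),(k9,k12)],[(k11,k9),(k8,k12)],[(k11,k6),(k8,k9)],[(k4,k6),(k7,k6)]]
    [] k0
    [[k1,k0,k1,k0,k0,k0],[k0,k2,k0,k0,k0,k0]]
    [.ref k3 k0 [(z1,[z1])],.contra [z1]])]⟩

/-- classes `0 0 1 2 3 1`, types `N0 N1 C0 C0 C0 C0` -/
noncomputable def cU6_1783 : CertX :=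
  ⟨[k12,k13,k20,k36,k52,k20],[(false,k0,[k0,k1,k2,k3,k4,k5])],[[[([z1,z0,z1,z0,z0,z0],z2)],[]]],
    [.old (.lp [k24,k10,k6,k6,k6,k6] [k0,k0,k7,k7,k9,k9,k9,k9,k9,k9,k9,k9] k0 [] k30 k6
    [[(k4,k15),(k10,k15)],[(k5,k15)],[(k2,k10)],[(k3,k10)],[(k0,k15)],[(k7,k6),(k1,k15)],[(k4,k6),(k10,k6)],[(k9,k6)],
    [(k6,k6)],[(k11,k6)],[(k8,k6)],[(k7,k6),(k1,k15)]]
    [] k0
    [[k0,k2,k0,k0,k0,k0],[k0,k0,k0,k1,k1,k1]]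
    [.contra [z1],.contra [y1,y1,z1]]),
    .old (.lp [k0,k4,k6,k0,k6,k6] [k3,k3,k1,k1,k0,k0,k3,k3,k0,k0,k0,k0] k0 [] k12 k5
    [[(k4,k3),(k10,k3)],[(k5,k3)],[(k2,k4)],[(k3,k4)],[(k0,k3)],[(k1,k3),(k7,k3)],[(k4,k3),(k10,k3)],[(k9,k3)],[(k6,
    k3)],[(k11,k6)],[(k8,k6)],[(k1,k3),(k7,k3)]]
    [] k0
    [[k1,k0,k1,k0,k0,k0],[k0,k2,k0,k0,k0,k0]]
    [.ref k0 k0 [(z1,[z1])],.contra [z1]])]⟩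

/-- classes `0 0 1 2 3 1`, types `N0 N1 C0 C0 C0 C2` -/
noncomputable def cU6_1784 : CertX :=
  ⟨[k12,k13,k20,k36,k52,k22],[],[[[]]],
    [.old (.lp [k2,k4,k2,k2,k2,k2] [k1,k1,k0,k0,k1,k1,k1,k1,k1,k1,k1,k1] k0 [] k8 k5
    [[(k7,k2),(k10,k2)],[(k5,k2)],[(k2,k4)],[(k3,k4)],[(k0,k2)],[(k7,k2),(k10,k2)],[(k1,k2),(k4,k2)],[(k9,k2)],[(k6,
    k2)],[(k11,k2)],[(k8,k2)],[(k1,k2),(k4,k2)]]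
    [] k0
    []
    [])]⟩

/-- classes `0 0 1 2 3 1`, types `N0 N1 C0 C0 S0 C0` -/
noncomputable def cU6_1785 : CertX :=
  ⟨[k12,k13,k20,k36,k48,k20],[(false,k0,[k0,k1,k2,k3,k4,k5])],[[[([z1,z0,z1,z0,z0,z0],z2)],[]]],
    [.old (.lp [k24,k10,k6,k6,k6,k6] [k0,k0,k7,k7,k9,k9,k9,k9,k9,k9,k9,k9] k0 [] k30 k6
    [[(k4,k15),(k10,k15)],[(k5,k15)],[(k2,k10)],[(k3,k10)],[(k0,k15)],[(k7,k6),(k1,k15)],[(k4,k6),(k10,k6)],[(k9,k6)],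
    [(k6,k6)],[(k8,k6),(k11,k6)],[(k8,k6),(k11,k6)],[(k7,k6),(k1,k15)]]
    [] k0
    [[k0,k2,k0,k0,k0,k0],[k0,k0,k0,k1,k1,k1]]
    [.contra [z1],.contra [y1,y1,z1]]),
    .old (.lp [k12,k8,k0,k12,k6,k6] [k0,k0,k2,k2,k6,k6,k0,k0,k3,k3,k3,k3] k0 [] k24 k5
    [[(k4,k6),(k10,k9)],[(k5,k6)],[(k2,k8)],[(k3,k8)],[(k0,k6)],[(k1,k6),(k7,k6)],[(k4,k6),(k10,k9)],[(k9,k9)],[(k6,
    k9)],[(k8,k6),(k11,k6)],[(k8,k6),(k11,k6)],[(k1,k9),(k7,k9)]]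
    [] k0
    [[k1,k0,k1,k0,k0,k0],[k0,k2,k0,k0,k0,k0]]
    [.ref k0 k0 [(z1,[z1])],.contra [z1]])]⟩

/-- classes `0 0 1 2 3 1`, types `N0 N1 C0 C0 S0 C2` -/
noncomputable def cU6_1786 : CertX :=
  ⟨[k12,k13,k20,k36,k48,k22],[],[[[]]],
    [.old (.lp [k2,k4,k2,k2,k2,k2] [k1,k1,k0,k0,k1,k1,k1,k1,k1,k1,k1,k1] k0 [] k8 k5
    [[(k7,k2),(k10,k2)],[(k5,k2)],[(k2,k4)],[(k3,k4)],[(k0,k2)],[(k7,k2),(k10,k2)],[(k1,k2),(k4,k2)],[(k9,k2)],[(k6,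
    k2)],[(k8,k2),(k11,k2)],[(k8,k2),(k11,k2)],[(k1,k2),(k4,k2)]]
    [] k0
    []
    [])]⟩

/-- classes `0 0 1 2 3 1`, types `N0 N1 C0 S0 S0 C0` -/
noncomputable def cU6_1787 : CertX :=
  ⟨[k12,k13,k20,k32,k48,k20],[(false,k0,[k0,k1,k2,k3,k4,k5])],[[[([z1,z0,z1,z0,z0,z0],z2),([z0,z2,z0,z0,z0,z0],z1),
    ([z0,z0,z0,z1,z0,z1],z1)],[([z1,z0,z1,z0,z0,z0],z2),([z0,z3,z0,z0,z0,z0],z2),([z0,z0,z0,z1,z0,z1],z1)],[([z1,z0,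
    z1,z0,z0,z0],z2),([z0,z1,z0,z0,z1,z0],z1)],[([z1,z0,z1,z0,z0,z0],z2)],[]]],
    [.old (.leafM k9 [k5,k1,k3,k4] [(z1,[z0,z1]),(z1,[y2,y1,y2,z2]),(z1,[z0,z0,z1])] [(k0,k2,z1,[z1]),(k2,k0,z1,[z1])]),
    .old (.leafM k8 [k5,k1,k3,k4] [(z1,[z0,z1]),(z1,[y3,y1,y3,z3]),(z1,[z0,z0,z1])] [(k0,k2,z1,[z1]),(k2,k0,z1,[z1])]),
    .old (.lp [k8,k10,k32,k12,k8,k8] [k12,k12,k11,k11,k0,k0,k10,k10,k12,k12,k12,k12] k0 [] k40 k6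
    [[(k10,k8),(k4,k20)],[(k5,k20)],[(k2,k10)],[(k3,k10)],[(k0,k20)],[(k1,k20),(k7,k22)],[(k10,k10),(k4,k22)],[(k9,
    k10),(k6,k12)],[(k9,k8),(k6,k10)],[(k8,k8),(k11,k8)],[(k8,k8),(k11,k8)],[(k1,k8),(k7,k10)]]
    [] k0
    [[k0,k2,k0,k0,k0,k0],[k0,k3,k0,k0,k0,k0],[k0,k0,k0,k1,k1,k1],[k0,k0,k0,k0,k2,k0],[k0,k0,k0,k0,k4,k0]]
    [.contra [z1],.ref k1 k0 [(z1,[z0,z1]),(z1,[z1]),(z1,[z0,y1,y1,z1])],.contra [z1,z1,z1,y1],.contra [z1],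
    .ref k0 k0 [(z1,[z0,z1]),(z2,[y1,z0,z4]),(z1,[z0,y1,y1,z1])]]),
    .old (.lp [k24,k40,k96,k24,k30,k24] [k36,k36,k28,k28,k0,k0,k36,k36,k33,k33,k36,k36] k0 [] k120 k6
    [[(k10,k24),(k4,k60)],[(k5,k60)],[(k2,k40)],[(k3,k40)],[(k0,k60)],[(k1,k60),(k7,k60)],[(k10,k24),(k4,k60)],[(k6,
    k24),(k9,k27)],[(k6,k27),(k9,k30)],[(k11,k27),(k8,k30)],[(k11,k24),(k8,k27)],[(k1,k24),(k7,k24)]]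
    [] k0
    [[k0,k2,k0,k0,k0,k0],[k0,k0,k0,k1,k1,k1],[k0,k0,k0,k2,k0,k2],[k0,k0,k0,k0,k2,k0]]
    [.contra [z1],.contra [y1,y1,z1],.ref k2 k0 [(z1,[z0,z1]),(z2,[y1,y2,z2])],.contra [z1]]),
    .old (.lp [k6,k8,k6,k6,k12,k6] [k3,k3,k2,k2,k3,k3,k3,k3,k0,k0,k3,k3] k0 [] k24 k5
    [[(k4,k6),(k10,k6)],[(k5,k6)],[(k2,k8)],[(k3,k8)],[(k0,k6)],[(k1,k6),(k7,k6)],[(k4,k6),(k10,k6)],[(k6,k6),(k9,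
    k9)],[(k6,k9),(k9,k12)],[(k11,k9),(k8,k12)],[(k11,k6),(k8,k9)],[(k1,k6),(k7,k6)]]
    [] k0
    [[k1,k0,k1,k0,k0,k0],[k0,k2,k0,k0,k0,k0]]
    [.ref k3 k0 [(z1,[z1])],.contra [z1]])]⟩

/-- classes `0 0 1 2 3 1`, types `N0 N1 C0 S0 S0 C2` -/
noncomputable def cU6_1788 : CertX :=
  ⟨[k12,k13,k20,k32,k48,k22],[],[[[]]],
    [.old (.lp [k2,k4,k2,k2,k2,k2] [k1,k1,k0,k0,k1,k1,k1,k1,k1,k1,k1,k1] k0 [] k8 k5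
    [[(k7,k2),(k10,k2)],[(k5,k2)],[(k2,k4)],[(k3,k4)],[(k0,k2)],[(k7,k2),(k10,k2)],[(k1,k2),(k4,k2)],[(k6,k2),(k9,
    k2)],[(k6,k2),(k9,k2)],[(k8,k2),(k11,k2)],[(k8,k2),(k11,k2)],[(k1,k2),(k4,k2)]]
    [] k0
    [[k0,k0,k0,k0,k2,k0]]
    [.contra [z1]])]⟩

/-- classes `0 0 1 2 3 1`, types `N0 N1 N0 C0 C0 N1` -/
noncomputable def cU6_1789 : CertX :=
  ⟨[k12,k13,k28,k36,k52,k29],[(false,k0,[k0,k1,k2,k3,k4,k5])],[[[([z1,z0,z1,z0,z0,z0],z2)],[]]],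
    [.old (.lp [k30,k10,k0,k6,k6,k6] [k0,k0,k10,k10,k15,k15,k12,k12,k12,k12,k12,k12] k0 [] k30 k6
    [[(k4,k15)],[(k5,k15)],[(k2,k10)],[(k3,k10)],[(k0,k15)],[(k1,k15)],[(k10,k6)],[(k9,k6)],[(k6,k6)],[(k11,k6)],[(k8,
    k6)],[(k7,k6)]]
    [] k0
    [[k0,k2,k0,k0,k0,k0],[k0,k0,k0,k1,k1,k1]]
    [.contra [z1],.contra [y1,y1,z1]]),
    .old (.lp [k6,k4,k0,k0,k6,k6] [k0,k0,k1,k1,k3,k3,k3,k3,k0,k0,k0,k0] k0 [] k12 k5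
    [[(k4,k3)],[(k5,k3)],[(k2,k4)],[(k3,k4)],[(k0,k3)],[(k1,k3)],[(k10,k3)],[(k9,k3)],[(k6,k3)],[(k11,k6)],[(k8,k6)],
    [(k7,k3)]]
    [] k0
    [[k1,k0,k1,k0,k0,k0],[k0,k2,k0,k0,k0,k0]]
    [.ref k0 k0 [(z1,[z1])],.contra [z1]])]⟩

/-- classes `0 0 1 2 3 1`, types `N0 N1 N0 C0 C0 N2` -/
noncomputable def cU6_1790 : CertX :=
  ⟨[k12,k13,k28,k36,k52,k30],[],[[[]]],
    [.old (.lp [k2,k4,k2,k2,k2,k2] [k1,k1,k0,k0,k1,k1,k1,k1,k1,k1,k1,k1] k0 [] k8 k5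
    [[(k7,k2)],[(k5,k2)],[(k2,k4)],[(k3,k4)],[(k0,k2)],[(k10,k2)],[(k1,k2)],[(k9,k2)],[(k6,k2)],[(k11,k2)],[(k8,k2)],
    [(k4,k2)]]
    [] k0
    []
    [])]⟩

/-- classes `0 0 1 2 3 1`, types `N0 N1 N0 C0 S0 N1` -/
noncomputable def cU6_1791 : CertX :=
  ⟨[k12,k13,k28,k36,k48,k29],[(false,k0,[k0,k1,k2,k3,k4,k5])],[[[([z1,z0,z1,z0,z0,z0],z2)],[]]],
    [.old (.lp [k30,k10,k0,k6,k6,k6] [k0,k0,k10,k10,k15,k15,k12,k12,k12,k12,k12,k12] k0 [] k30 k6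
    [[(k4,k15)],[(k5,k15)],[(k2,k10)],[(k3,k10)],[(k0,k15)],[(k1,k15)],[(k10,k6)],[(k9,k6)],[(k6,k6)],[(k8,k6),(k11,
    k6)],[(k8,k6),(k11,k6)],[(k7,k6)]]
    [] k0
    [[k0,k2,k0,k0,k0,k0],[k0,k0,k0,k1,k1,k1]]
    [.contra [z1],.contra [y1,y1,z1]]),
    .old (.lp [k12,k8,k0,k12,k6,k6] [k0,k0,k2,k2,k6,k6,k0,k0,k3,k3,k3,k3] k0 [] k24 k5
    [[(k4,k6)],[(k5,k6)],[(k2,k8)],[(k3,k8)],[(k0,k6)],[(k1,k6)],[(k10,k9)],[(k9,k9)],[(k6,k9)],[(k8,k6),(k11,k6)],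
    [(k8,k6),(k11,k6)],[(k7,k9)]]
    [] k0
    [[k1,k0,k1,k0,k0,k0],[k0,k2,k0,k0,k0,k0]]
    [.ref k0 k0 [(z1,[z1])],.contra [z1]])]⟩

/-- classes `0 0 1 2 3 1`, types `N0 N1 N0 C0 S0 N2` -/
noncomputable def cU6_1792 : CertX :=
  ⟨[k12,k13,k28,k36,k48,k30],[],[[[]]],
    [.old (.lp [k2,k4,k2,k2,k2,k2] [k1,k1,k0,k0,k1,k1,k1,k1,k1,k1,k1,k1] k0 [] k8 k5
    [[(k7,k2)],[(k5,k2)],[(k2,k4)],[(k3,k4)],[(k0,k2)],[(k10,k2)],[(k1,k2)],[(k9,k2)],[(k6,k2)],[(k8,k2),(k11,k2)],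
    [(k8,k2),(k11,k2)],[(k4,k2)]]
    [] k0
    []
    [])]⟩

/-- classes `0 0 1 2 3 1`, types `N0 N1 N0 S0 S0 N1` -/
noncomputable def cU6_1793 : CertX :=
  ⟨[k12,k13,k28,k32,k48,k29],[(false,k0,[k0,k1,k2,k3,k4,k5])],[[[([z1,z0,z1,z0,z0,z0],z2),([z0,z2,z0,z0,z0,z0],z1),
    ([z0,z0,z0,z1,z0,z1],z1)],[([z1,z0,z1,z0,z0,z0],z2),([z0,z3,z0,z0,z0,z0],z2),([z0,z0,z0,z1,z0,z1],z1)],[([z1,z0,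
    z1,z0,z0,z0],z2),([z0,z1,z0,z0,z1,z0],z1)],[([z1,z0,z1,z0,z0,z0],z2)],[]]],
    [.old (.leafM k9 [k5,k1,k3,k4] [(z1,[z0,z1]),(z1,[y2,y1,y2,z2]),(z1,[z0,z0,z1])] [(k0,k2,z1,[z1]),(k2,k0,z1,[z1])]),
    .old (.leafM k8 [k5,k1,k3,k4] [(z1,[z0,z1]),(z1,[y3,y1,y3,z3]),(z1,[z0,z0,z1])] [(k0,k2,z1,[z1]),(k2,k0,z1,[z1])]),
    .old (.lp [k0,k10,k40,k12,k8,k8] [k20,k20,k15,k15,k0,k0,k14,k14,k16,k16,k16,k16] k0 [] k40 k6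
    [[(k4,k20)],[(k5,k20)],[(k2,k10)],[(k3,k10)],[(k0,k20)],[(k1,k20)],[(k10,k10)],[(k9,k10),(k6,k12)],[(k9,k8),(k6,
    k10)],[(k8,k8),(k11,k8)],[(k8,k8),(k11,k8)],[(k7,k10)]]
    [] k0
    [[k0,k2,k0,k0,k0,k0],[k0,k3,k0,k0,k0,k0],[k0,k0,k0,k1,k1,k1],[k0,k0,k0,k0,k2,k0],[k0,k0,k0,k0,k4,k0]]
    [.contra [z1],.ref k1 k0 [(z1,[z0,z1]),(z1,[z1]),(z1,[z0,y1,y1,z1])],.contra [z1,z1,z1,y1],.contra [z1],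
    .ref k0 k0 [(z1,[z0,z1]),(z2,[y1,z0,z4]),(z1,[z0,y1,y1,z1])]]),
    .old (.lp [k0,k40,k120,k24,k30,k24] [k60,k60,k40,k40,k0,k0,k48,k48,k45,k45,k48,k48] k0 [] k120 k6
    [[(k4,k60)],[(k5,k60)],[(k2,k40)],[(k3,k40)],[(k0,k60)],[(k1,k60)],[(k10,k24)],[(k6,k24),(k9,k27)],[(k6,k27),(k9,
    k30)],[(k11,k27),(k8,k30)],[(k11,k24),(k8,k27)],[(k7,k24)]]
    [] k0
    [[k0,k2,k0,k0,k0,k0],[k0,k0,k0,k1,k1,k1],[k0,k0,k0,k2,k0,k2],[k0,k0,k0,k0,k2,k0]]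
    [.contra [z1],.contra [y1,y1,z1],.ref k2 k0 [(z1,[z0,z1]),(z2,[y1,y2,z2])],.contra [z1]]),
    .old (.lp [k0,k8,k12,k6,k12,k6] [k6,k6,k2,k2,k0,k0,k3,k3,k0,k0,k3,k3] k0 [] k24 k5
    [[(k4,k6)],[(k5,k6)],[(k2,k8)],[(k3,k8)],[(k0,k6)],[(k1,k6)],[(k10,k6)],[(k6,k6),(k9,k9)],[(k6,k9),(k9,k12)],
    [(k11,k9),(k8,k12)],[(k11,k6),(k8,k9)],[(k7,k6)]]
    [] k0
    [[k1,k0,k1,k0,k0,k0],[k0,k2,k0,k0,k0,k0]]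
    [.ref k3 k0 [(z1,[z1])],.contra [z1]])]⟩

/-- classes `0 0 1 2 3 1`, types `N0 N1 N0 S0 S0 N2` -/
noncomputable def cU6_1794 : CertX :=
  ⟨[k12,k13,k28,k32,k48,k30],[],[[[]]],
    [.old (.lp [k2,k4,k2,k2,k2,k2] [k1,k1,k0,k0,k1,k1,k1,k1,k1,k1,k1,k1] k0 [] k8 k5
    [[(k7,k2)],[(k5,k2)],[(k2,k4)],[(k3,k4)],[(k0,k2)],[(k10,k2)],[(k1,k2)],[(k6,k2),(k9,k2)],[(k6,k2),(k9,k2)],[(k8,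
    k2),(k11,k2)],[(k8,k2),(k11,k2)],[(k4,k2)]]
    [] k0
    [[k0,k0,k0,k0,k2,k0]]
    [.contra [z1]])]⟩

/-- classes `0 0 1 2 3 1`, types `N0 N1 S0 C0 C0 S0` -/
noncomputable def cU6_1795 : CertX :=
  ⟨[k12,k13,k16,k36,k52,k16],[(false,k0,[k0,k1,k2,k3,k4,k5])],[[[([z1,z0,z1,z0,z0,z0],z2)],[]]],
    [.old (.lp [k6,k10,k24,k6,k6,k6] [k9,k9,k7,k7,k0,k0,k9,k9,k9,k9,k9,k9] k0 [] k30 k6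
    [[(k1,k6),(k7,k6),(k10,k6),(k4,k15)],[(k5,k15)],[(k2,k10)],[(k3,k10)],[(k0,k15)],[(k1,k15),(k7,k15),(k10,k15),(k4,
    k24)],[(k1,k6),(k7,k6),(k10,k6),(k4,k15)],[(k9,k6)],[(k6,k6)],[(k11,k6)],[(k8,k6)],[(k1,k6),(k7,k6),(k10,k6),(k4,
    k15)]]
    [] k0
    [[k0,k2,k0,k0,k0,k0],[k0,k0,k0,k1,k1,k1]]
    [.contra [z1],.contra [y1,y1,z1]]),
    .old (.lp [k6,k8,k6,k12,k0,k12] [k3,k3,k2,k2,k3,k3,k0,k0,k6,k6,k0,k0] k0 [] k24 k5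
    [[(k1,k6),(k4,k6),(k7,k9),(k10,k9)],[(k5,k6)],[(k2,k8)],[(k3,k8)],[(k0,k6)],[(k1,k6),(k4,k6),(k7,k9),(k10,k9)],
    [(k1,k9),(k4,k9),(k7,k12),(k10,k12)],[(k9,k6)],[(k6,k6)],[(k11,k6)],[(k8,k6)],[(k1,k9),(k4,k9),(k7,k12),(k10,
    k12)]]
    [] k0
    [[k1,k0,k1,k0,k0,k0],[k0,k2,k0,k0,k0,k0]]
    [.ref k0 k0 [(z1,[z1])],.contra [z1]])]⟩

/-- classes `0 0 1 2 3 1`, types `N0 N1 S0 C0 S0 S0` -/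
noncomputable def cU6_1796 : CertX :=
  ⟨[k12,k13,k16,k36,k48,k16],[(false,k0,[k0,k1,k2,k3,k4,k5])],[[[([z1,z0,z1,z0,z0,z0],z2)],[]]],
    [.old (.lp [(nat_lit 360),(nat_lit 280),k168,(nat_lit 252),k168,(nat_lit 420)] [k135,k135,k175,k175,(nat_lit 231),
    (nat_lit 231),(nat_lit 231),k147,(nat_lit 231),(nat_lit 231),k0,(nat_lit 210)] k0 [[],[],[],[],[],[k0,k0,k0,k0,k0,
    k0,k0,k0,k0,k0,k0,(nat_lit 315)],[],[],[],[],[k0,k0,k0,k0,(nat_lit 315)]] (nat_lit 840) k6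
    [[(k7,(nat_lit 348)),(k1,(nat_lit 360)),(k10,(nat_lit 495)),(k4,(nat_lit 579))],[(k5,(nat_lit 264))],[(k2,
    (nat_lit 280))],[(k3,(nat_lit 280))],[(k0,(nat_lit 264))],[(k4,k168),(k7,(nat_lit 252)),(k10,(nat_lit 399)),(k1,
    (nat_lit 579))],[(k10,k168),(k4,(nat_lit 252)),(k7,(nat_lit 336)),(k1,(nat_lit 348))],[(k9,k168)],[(k6,k168)],
    [(k8,k168),(k11,k189)],[(k8,k189),(k11,(nat_lit 210))],[(k7,k168),(k4,(nat_lit 399)),(k1,(nat_lit 495)),(k10,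
    (nat_lit 630))]]
    [] k0
    [[k0,k2,k0,k0,k0,k0],[k0,k0,k0,k1,k1,k1]]
    [.contra [z1],.contra [y1,y1,z1]]),
    .old (.lp [k6,k8,k6,k6,k6,k12] [k3,k3,k2,k2,k3,k3,k3,k3,k3,k3,k0,k0] k0 [] k24 k5
    [[(k1,k6),(k4,k6),(k7,k6),(k10,k9)],[(k5,k6)],[(k2,k8)],[(k3,k8)],[(k0,k6)],[(k1,k6),(k4,k6),(k7,k6),(k10,k9)],
    [(k1,k6),(k4,k6),(k7,k6),(k10,k9)],[(k9,k6)],[(k6,k6)],[(k8,k6),(k11,k9)],[(k8,k9),(k11,k12)],[(k1,k9),(k4,k9),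
    (k7,k9),(k10,k12)]]
    [] k0
    [[k1,k0,k1,k0,k0,k0],[k0,k2,k0,k0,k0,k0]]
    [.ref k0 k0 [(z1,[z1])],.contra [z1]])]⟩

/-- classes `0 0 1 2 3 1`, types `N0 N1 S0 S0 S0 S0` -/
noncomputable def cU6_1797 : CertX :=
  ⟨[k12,k13,k16,k32,k48,k16],[(false,k0,[k0,k1,k2,k3,k4,k5])],[[[([z1,z0,z1,z0,z0,z0],z2),([z0,z2,z0,z0,z0,z0],z1),
    ([z0,z0,z0,z1,z0,z1],z1)],[([z1,z0,z1,z0,z0,z0],z2),([z0,z3,z0,z0,z0,z0],z2),([z0,z0,z0,z1,z0,z1],z1)],[([z1,z0,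
    z1,z0,z0,z0],z2),([z0,z1,z0,z0,z1,z0],z1)],[([z1,z0,z1,z0,z0,z0],z2)],[]]],
    [.old (.leafM k9 [k5,k1,k3,k4] [(z1,[z0,z1]),(z1,[y2,y1,y2,z2]),(z1,[z0,z0,z1])] [(k0,k2,z1,[z1]),(k2,k0,z1,[z1])]),
    .old (.leafM k8 [k5,k1,k3,k4] [(z1,[z0,z1]),(z1,[y3,y1,y3,z3]),(z1,[z0,z0,z1])] [(k0,k2,z1,[z1]),(k2,k0,z1,[z1])]),
    .old (.lp [(nat_lit 252),(nat_lit 210),k168,(nat_lit 420),k168,(nat_lit 420)] [(nat_lit 204),(nat_lit 204),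
    (nat_lit 225),(nat_lit 225),(nat_lit 246),(nat_lit 246),(nat_lit 240),k0,(nat_lit 246),(nat_lit 246),k50,
    k190] k0 [[],[],[],[],[],[k0,k0,k0,k0,k0,k0,k0,k0,k0,k0,k0,(nat_lit 420)],[],[],[],[],[k0,k0,k0,k0,
    (nat_lit 420)]] (nat_lit 840) k6
    [[(k1,(nat_lit 252)),(k10,(nat_lit 406)),(k7,(nat_lit 456)),(k4,(nat_lit 630))],[(k5,(nat_lit 210))],[(k2,
    (nat_lit 210))],[(k3,(nat_lit 210))],[(k0,(nat_lit 210))],[(k4,k168),(k10,(nat_lit 364)),(k7,(nat_lit 414)),(k1,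
    (nat_lit 630))],[(k10,k190),(k4,(nat_lit 414)),(k1,(nat_lit 456)),(k7,(nat_lit 660))],[(k9,k174),(k6,k180)],[(k9,
    k168),(k6,k174)],[(k8,k168),(k11,(nat_lit 224))],[(k8,(nat_lit 224)),(k11,(nat_lit 280))],[(k7,k190),(k4,
    (nat_lit 364)),(k1,(nat_lit 406)),(k10,(nat_lit 560))]]
    [] k0
    [[k0,k2,k0,k0,k0,k0],[k0,k3,k0,k0,k0,k0],[k0,k0,k0,k1,k1,k1],[k0,k0,k0,k0,k2,k0],[k0,k0,k0,k0,k4,k0]]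
    [.contra [z1],.ref k1 k0 [(z1,[z0,z1]),(z1,[z1]),(z1,[z0,y1,y1,z1])],.contra [z1,z1,z1,y1],.contra [z1],
    .ref k0 k0 [(z1,[z0,z1]),(z2,[y1,z0,z4]),(z1,[z0,y1,y1,z1])]]),
    .old (.lp [(nat_lit 2450),(nat_lit 3920),(nat_lit 2352),(nat_lit 5880),(nat_lit 2940),(nat_lit 5880)] [(nat_lit 3479),
    (nat_lit 3479),(nat_lit 2744),(nat_lit 2744),(nat_lit 3528),(nat_lit 3528),(nat_lit 3528),k0,(nat_lit 3234),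
    (nat_lit 3234),k84,(nat_lit 3444)] k0 [[],[],[],[],[],[k0,k0,k0,k0,k0,k0,k0,k0,k0,k0,k0,(nat_lit 6960)],[],[],[],
    [],[k0,k0,k0,k0,(nat_lit 6960)]] (nat_lit 11760) k6
    [[(k1,(nat_lit 2450)),(k10,(nat_lit 5845)),(k7,(nat_lit 5929)),(k4,(nat_lit 9361))],[(k5,(nat_lit 2401))],[(k2,
    (nat_lit 3920))],[(k3,(nat_lit 3920))],[(k0,(nat_lit 2401))],[(k4,(nat_lit 2352)),(k10,(nat_lit 5796)),(k7,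
    (nat_lit 5880)),(k1,(nat_lit 9361))],[(k10,(nat_lit 2364)),(k4,(nat_lit 5880)),(k1,(nat_lit 5929)),(k7,
    (nat_lit 9408))],[(k6,(nat_lit 2352)),(k9,(nat_lit 2646))],[(k6,(nat_lit 2646)),(k9,(nat_lit 2940))],[(k11,
    (nat_lit 2730)),(k8,(nat_lit 2940))],[(k11,(nat_lit 2520)),(k8,(nat_lit 2730))],[(k7,(nat_lit 2364)),(k4,
    (nat_lit 5796)),(k1,(nat_lit 5845)),(k10,(nat_lit 9240))]]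
    [] k0
    [[k2,k0,k2,k0,k0,k0],[k0,k2,k0,k0,k0,k0],[k0,k0,k0,k1,k1,k1],[k0,k0,k0,k2,k0,k2],[k0,k0,k0,k0,k2,k0]]
    [.contra [z1,y1],.contra [z1],.contra [y1,y1,z1],.ref k2 k0 [(z1,[z0,z1]),(z2,[y1,y2,z2])],.contra [z1]]),
    .old (.lp [k6,k8,k6,k6,k6,k12] [k3,k3,k2,k2,k3,k3,k3,k3,k3,k3,k0,k0] k0 [] k24 k5
    [[(k1,k6),(k4,k6),(k7,k6),(k10,k9)],[(k5,k6)],[(k2,k8)],[(k3,k8)],[(k0,k6)],[(k1,k6),(k4,k6),(k7,k6),(k10,k9)],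
    [(k1,k6),(k4,k6),(k7,k6),(k10,k9)],[(k6,k6),(k9,k6)],[(k6,k6),(k9,k6)],[(k8,k6),(k11,k9)],[(k8,k9),(k11,k12)],
    [(k1,k9),(k4,k9),(k7,k9),(k10,k12)]]
    [] k0
    [[k1,k0,k1,k0,k0,k0],[k0,k2,k0,k0,k0,k0],[k0,k0,k0,k2,k0,k0],[k0,k0,k0,k0,k2,k0]]
    [.ref k3 k0 [(z1,[z1])],.contra [z1],.contra [z1],.contra [z1]])]⟩

/-- classes `0 0 1 2 3 1`, types `N0 N2 B0 C0 C0 B1` -/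
noncomputable def cU6_1798 : CertX :=
  ⟨[k12,k14,k24,k36,k52,k25],[(false,k0,[k0,k1,k2,k3,k4,k5])],[[[([z1,z1,z1,z0,z0,z0],z2)],[]]],
    [.old (.leafM k4 [k0,k1,k2,k3,k4,k5] [(z1,[y1,z1])] []),
    .old (.lp [k4,k2,k2,k2,k2,k2] [k0,k0,k1,k1,k1,k1,k1,k1,k1,k1,k1,k1] k0 [] k8 k5
    [[(k4,k3),(k7,k3)],[(k2,k3)],[(k5,k2)],[(k0,k3)],[(k3,k2)],[(k10,k2),(k1,k3)],[(k10,k2),(k1,k3)],[(k9,k2)],[(k6,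
    k2)],[(k11,k2)],[(k8,k2)],[(k4,k2),(k7,k2)]]
    [] k0
    [[k0,k0,k0,k1,k1,k1]]
    [.ref k0 k0 [(z1,[y1,z1])]])]⟩

/-- classes `0 0 1 2 3 1`, types `N0 N2 B0 C0 S0 B1` -/
noncomputable def cU6_1799 : CertX :=
  ⟨[k12,k14,k24,k36,k48,k25],[(false,k0,[k0,k1,k2,k3,k4,k5])],[[[([z1,z1,z1,z0,z0,z0],z2)],[]]],
    [.old (.leafM k4 [k0,k1,k2,k3,k4,k5] [(z1,[y1,z1])] []),
    .old (.lp [k4,k0,k4,k2,k2,k2] [k0,k0,k2,k2,k0,k0,k1,k1,k1,k1,k1,k1] k0 [] k8 k5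
    [[(k7,k3),(k4,k4)],[(k2,k2)],[(k5,k2)],[(k0,k2)],[(k3,k2)],[(k10,k3),(k1,k4)],[(k10,k2),(k1,k3)],[(k9,k2)],[(k6,
    k2)],[(k8,k2),(k11,k2)],[(k8,k2),(k11,k2)],[(k7,k2),(k4,k3)]]
    [] k0
    [[k0,k0,k0,k1,k1,k1]]
    [.ref k0 k0 [(z1,[y1,z1])]])]⟩

/-- classes `0 0 1 2 3 1`, types `N0 N2 B0 S0 S0 B1` -/
noncomputable def cU6_1800 : CertX :=
  ⟨[k12,k14,k24,k32,k48,k25],[(false,k0,[k0,k1,k2,k3,k4,k5])],[[[([z1,z1,z1,z0,z0,z0],z2)],[]]],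
    [.old (.leafM k4 [k0,k1,k2,k3,k4,k5] [(z1,[y1,z1])] []),
    .old (.lp [k2,k2,k2,k2,k4,k2] [k1,k1,k1,k1,k1,k1,k1,k1,k0,k0,k1,k1] k0 [] k8 k5
    [[(k4,k2),(k7,k2)],[(k2,k2)],[(k5,k2)],[(k0,k2)],[(k3,k2)],[(k1,k2),(k10,k2)],[(k1,k2),(k10,k2)],[(k6,k2),(k9,
    k3)],[(k6,k3),(k9,k4)],[(k11,k3),(k8,k4)],[(k11,k2),(k8,k3)],[(k4,k2),(k7,k2)]]
    [] k0
    [[k1,k1,k1,k0,k0,k0]]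
    [.ref k0 k0 [(z1,[z1])]])]⟩

/-- classes `0 0 1 2 3 1`, types `N0 N2 C0 C0 C0 C0` -/
noncomputable def cU6_1801 : CertX :=
  ⟨[k12,k14,k20,k36,k52,k20],[(false,k0,[k0,k1,k2,k3,k4,k5])],[[[([z1,z1,z1,z0,z0,z0],z2)],[]]],
    [.old (.leafM k4 [k0,k1,k2,k3,k4,k5] [(z1,[y1,z1])] []),
    .old (.lp [k2,k2,k2,k2,k2,k4] [k1,k1,k1,k1,k1,k1,k1,k1,k1,k1,k0,k0] k0 [] k8 k5
    [[(k4,k2),(k10,k3)],[(k2,k2)],[(k5,k2)],[(k0,k2)],[(k3,k2)],[(k1,k2),(k7,k2)],[(k4,k2),(k10,k3)],[(k9,k2)],[(k6,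
    k2)],[(k11,k3)],[(k8,k3)],[(k1,k3),(k7,k3)]]
    [] k0
    [[k1,k1,k1,k0,k0,k0]]
    [.ref k0 k0 [(z1,[z1])]])]⟩

/-- classes `0 0 1 2 3 1`, types `N0 N2 C0 C0 C0 C2` -/
noncomputable def cU6_1802 : CertX :=
  ⟨[k12,k14,k20,k36,k52,k22],[],[[[]]],
    [.old (.lp [k0,k2,k0,k2,k0,k2] [k1,k1,k0,k0,k1,k1,k0,k0,k1,k1,k0,k0] k0 [] k4 k5
    [[(k7,k1),(k10,k1)],[(k2,k1)],[(k5,k1)],[(k0,k1)],[(k3,k1)],[(k7,k1),(k10,k1)],[(k1,k1),(k4,k1)],[(k9,k1)],[(k6,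
    k1)],[(k11,k1)],[(k8,k1)],[(k1,k1),(k4,k1)]]
    [] k0
    []
    [])]⟩

/-- classes `0 0 1 2 3 1`, types `N0 N2 C0 C0 S0 C0` -/
noncomputable def cU6_1803 : CertX :=
  ⟨[k12,k14,k20,k36,k48,k20],[(false,k0,[k0,k1,k2,k3,k4,k5])],[[[([z1,z1,z1,z0,z0,z0],z2)],[]]],
    [.old (.leafM k4 [k0,k1,k2,k3,k4,k5] [(z1,[y1,z1])] []),
    .old (.lp [k4,k2,k2,k2,k2,k2] [k0,k0,k1,k1,k1,k1,k1,k1,k1,k1,k1,k1] k0 [] k8 k5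
    [[(k4,k3),(k10,k3)],[(k2,k3)],[(k5,k2)],[(k0,k3)],[(k3,k2)],[(k7,k2),(k1,k3)],[(k4,k2),(k10,k2)],[(k9,k2)],[(k6,
    k2)],[(k8,k2),(k11,k2)],[(k8,k2),(k11,k2)],[(k7,k2),(k1,k3)]]
    [] k0
    [[k0,k0,k0,k1,k1,k1]]
    [.ref k0 k0 [(z1,[y1,z1])]])]⟩

/-- classes `0 0 1 2 3 1`, types `N0 N2 C0 C0 S0 C2` -/
noncomputable def cU6_1804 : CertX :=
  ⟨[k12,k14,k20,k36,k48,k22],[],[[[]]],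
    [.old (.lp [k2,k2,k2,k2,k2,k2] [k0,k0,k0,k0,k0,k0,k0,k0,k0,k0,k0,k0] k0 [] k8 k5
    [[(k7,k2),(k10,k2)],[(k2,k2)],[(k5,k2)],[(k0,k2)],[(k3,k2)],[(k7,k2),(k10,k2)],[(k1,k2),(k4,k2)],[(k9,k2)],[(k6,
    k2)],[(k8,k2),(k11,k2)],[(k8,k2),(k11,k2)],[(k1,k2),(k4,k2)]]
    [] k0
    []
    [])]⟩

/-- classes `0 0 1 2 3 1`, types `N0 N2 C0 S0 S0 C0` -/
noncomputable def cU6_1805 : CertX :=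
  ⟨[k12,k14,k20,k32,k48,k20],[(false,k0,[k0,k1,k2,k3,k4,k5])],[[[([z1,z1,z1,z0,z0,z0],z2)],[]]],
    [.old (.leafM k4 [k0,k1,k2,k3,k4,k5] [(z1,[y1,z1])] []),
    .old (.lp [k4,k0,k4,k2,k2,k2] [k0,k0,k2,k2,k0,k0,k1,k1,k1,k1,k1,k1] k0 [] k8 k5
    [[(k10,k3),(k4,k4)],[(k2,k2)],[(k5,k2)],[(k0,k2)],[(k3,k2)],[(k7,k3),(k1,k4)],[(k10,k2),(k4,k3)],[(k6,k2),(k9,
    k2)],[(k6,k2),(k9,k2)],[(k8,k2),(k11,k2)],[(k8,k2),(k11,k2)],[(k7,k2),(k1,k3)]]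
    [] k0
    [[k0,k0,k0,k1,k1,k1],[k0,k0,k0,k0,k2,k0]]
    [.ref k0 k0 [(z1,[y1,z1])],.contra [z1]])]⟩

/-- classes `0 0 1 2 3 1`, types `N0 N2 C0 S0 S0 C2` -/
noncomputable def cU6_1806 : CertX :=
  ⟨[k12,k14,k20,k32,k48,k22],[],[[[]]],
    [.old (.lp [k2,k2,k2,k2,k4,k2] [k1,k1,k1,k1,k1,k1,k1,k1,k0,k0,k1,k1] k0 [] k8 k5
    [[(k7,k2),(k10,k2)],[(k2,k2)],[(k5,k2)],[(k0,k2)],[(k3,k2)],[(k7,k2),(k10,k2)],[(k1,k2),(k4,k2)],[(k6,k2),(k9,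
    k3)],[(k6,k3),(k9,k4)],[(k11,k3),(k8,k4)],[(k11,k2),(k8,k3)],[(k1,k2),(k4,k2)]]
    [] k0
    []
    [])]⟩

/-- classes `0 0 1 2 3 1`, types `N0 N2 N0 C0 C0 N1` -/
noncomputable def cU6_1807 : CertX :=
  ⟨[k12,k14,k28,k36,k52,k29],[(false,k0,[k0,k1,k2,k3,k4,k5])],[[[([z1,z1,z1,z0,z0,z0],z2)],[]]],
    [.old (.leafM k4 [k0,k1,k2,k3,k4,k5] [(z1,[y1,z1])] []),
    .old (.lp [k2,k2,k2,k0,k4,k4] [k1,k1,k1,k1,k1,k1,k2,k2,k0,k0,k0,k0] k0 [] k8 k5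
    [[(k4,k2)],[(k2,k2)],[(k5,k2)],[(k0,k2)],[(k3,k2)],[(k1,k2)],[(k10,k2)],[(k9,k2)],[(k6,k2)],[(k11,k4)],[(k8,k4)],
    [(k7,k2)]]
    [] k0
    [[k1,k1,k1,k0,k0,k0]]
    [.ref k0 k0 [(z1,[z1])]])]⟩

/-- classes `0 0 1 2 3 1`, types `N0 N2 N0 C0 C0 N2` -/
noncomputable def cU6_1808 : CertX :=
  ⟨[k12,k14,k28,k36,k52,k30],[],[[[]]],
    [.old (.lp [k0,k2,k0,k2,k0,k2] [k1,k1,k0,k0,k1,k1,k0,k0,k1,k1,k0,k0] k0 [] k4 k5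
    [[(k7,k1)],[(k2,k1)],[(k5,k1)],[(k0,k1)],[(k3,k1)],[(k10,k1)],[(k1,k1)],[(k9,k1)],[(k6,k1)],[(k11,k1)],[(k8,k1)],
    [(k4,k1)]]
    [] k0
    []
    [])]⟩

/-- classes `0 0 1 2 3 1`, types `N0 N2 N0 C0 S0 N1` -/
noncomputable def cU6_1809 : CertX :=
  ⟨[k12,k14,k28,k36,k48,k29],[(false,k0,[k0,k1,k2,k3,k4,k5])],[[[([z1,z1,z1,z0,z0,z0],z2)],[]]],
    [.old (.leafM k4 [k0,k1,k2,k3,k4,k5] [(z1,[y1,z1])] []),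
    .old (.lp [k4,k4,k0,k2,k2,k2] [k0,k0,k0,k0,k2,k2,k1,k1,k1,k1,k1,k1] k0 [] k8 k5
    [[(k4,k2)],[(k2,k4)],[(k5,k2)],[(k0,k4)],[(k3,k2)],[(k1,k2)],[(k10,k2)],[(k9,k2)],[(k6,k2)],[(k8,k2),(k11,k2)],
    [(k8,k2),(k11,k2)],[(k7,k2)]]
    [] k0
    [[k0,k0,k0,k1,k1,k1]]
    [.ref k0 k0 [(z1,[y1,z1])]])]⟩

/-- classes `0 0 1 2 3 1`, types `N0 N2 N0 C0 S0 N2` -/
noncomputable def cU6_1810 : CertX :=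
  ⟨[k12,k14,k28,k36,k48,k30],[],[[[]]],
    [.old (.lp [k2,k2,k2,k2,k2,k2] [k0,k0,k0,k0,k0,k0,k0,k0,k0,k0,k0,k0] k0 [] k8 k5
    [[(k7,k2)],[(k2,k2)],[(k5,k2)],[(k0,k2)],[(k3,k2)],[(k10,k2)],[(k1,k2)],[(k9,k2)],[(k6,k2)],[(k8,k2),(k11,k2)],
    [(k8,k2),(k11,k2)],[(k4,k2)]]
    [] k0
    []
    [])]⟩

/-- classes `0 0 1 2 3 1`, types `N0 N2 N0 S0 S0 N1` -/
noncomputable def cU6_1811 : CertX :=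
  ⟨[k12,k14,k28,k32,k48,k29],[(false,k0,[k0,k1,k2,k3,k4,k5])],[[[([z1,z1,z1,z0,z0,z0],z2)],[]]],
    [.old (.leafM k4 [k0,k1,k2,k3,k4,k5] [(z1,[y1,z1])] []),
    .old (.lp [k4,k0,k4,k2,k2,k2] [k0,k0,k2,k2,k0,k0,k1,k1,k1,k1,k1,k1] k0 [] k8 k5
    [[(k4,k4)],[(k2,k2)],[(k5,k2)],[(k0,k2)],[(k3,k2)],[(k1,k4)],[(k10,k2)],[(k6,k2),(k9,k2)],[(k6,k2),(k9,k2)],[(k8,
    k2),(k11,k2)],[(k8,k2),(k11,k2)],[(k7,k2)]]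
    [] k0
    [[k0,k0,k0,k1,k1,k1],[k0,k0,k0,k0,k2,k0]]
    [.ref k0 k0 [(z1,[y1,z1])],.contra [z1]])]⟩

/-- classes `0 0 1 2 3 1`, types `N0 N2 N0 S0 S0 N2` -/
noncomputable def cU6_1812 : CertX :=
  ⟨[k12,k14,k28,k32,k48,k30],[],[[[]]],
    [.old (.lp [k2,k2,k2,k2,k4,k2] [k1,k1,k1,k1,k1,k1,k1,k1,k0,k0,k1,k1] k0 [] k8 k5
    [[(k7,k2)],[(k2,k2)],[(k5,k2)],[(k0,k2)],[(k3,k2)],[(k10,k2)],[(k1,k2)],[(k6,k2),(k9,k3)],[(k6,k3),(k9,k4)],[(k11,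
    k3),(k8,k4)],[(k11,k2),(k8,k3)],[(k4,k2)]]
    [] k0
    []
    [])]⟩

/-- classes `0 0 1 2 3 1`, types `N0 N2 S0 C0 C0 S0` -/
noncomputable def cU6_1813 : CertX :=
  ⟨[k12,k14,k16,k36,k52,k16],[(false,k0,[k0,k1,k2,k3,k4,k5])],[[[([z1,z1,z1,z0,z0,z0],z2)],[]]],
    [.old (.leafM k4 [k0,k1,k2,k3,k4,k5] [(z1,[y1,z1])] []),
    .old (.lp [k2,k2,k2,k4,k0,k4] [k1,k1,k1,k1,k1,k1,k0,k0,k2,k2,k0,k0] k0 [] k8 k5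
    [[(k1,k2),(k4,k2),(k7,k3),(k10,k3)],[(k2,k2)],[(k5,k2)],[(k0,k2)],[(k3,k2)],[(k1,k2),(k4,k2),(k7,k3),(k10,k3)],
    [(k1,k3),(k4,k3),(k7,k4),(k10,k4)],[(k9,k2)],[(k6,k2)],[(k11,k2)],[(k8,k2)],[(k1,k3),(k4,k3),(k7,k4),(k10,k4)]]
    [] k0
    [[k1,k1,k1,k0,k0,k0]]
    [.ref k0 k0 [(z1,[z1])]])]⟩

/-- classes `0 0 1 2 3 1`, types `N0 N2 S0 C0 S0 S0` -/
noncomputable def cU6_1814 : CertX :=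
  ⟨[k12,k14,k16,k36,k48,k16],[(false,k0,[k0,k1,k2,k3,k4,k5])],[[[([z1,z1,z1,z0,z0,z0],z2)],[]]],
    [.old (.leafM k4 [k0,k1,k2,k3,k4,k5] [(z1,[y1,z1])] []),
    .old (.lp [k8,k6,k6,k6,k6,k12] [k4,k4,k5,k5,k5,k5,k5,k5,k5,k5,k0,k4] k0 [[],[],[],[],[],[k0,k0,k0,k0,k0,k0,k0,k0,k0,
    k0,k0,k4],[],[],[],[],[k0,k0,k0,k0,k4]] k24 k5
    [[(k7,k7),(k1,k8),(k4,k11),(k10,k12)],[(k2,k7)],[(k5,k6)],[(k0,k7)],[(k3,k6)],[(k4,k6),(k7,k6),(k1,k11),(k10,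
    k11)],[(k4,k6),(k7,k6),(k1,k7),(k10,k7)],[(k9,k6)],[(k6,k6)],[(k8,k6),(k11,k7)],[(k8,k7),(k11,k8)],[(k7,k7),(k4,
    k11),(k1,k12),(k10,k16)]]
    [] k0
    [[k0,k0,k0,k1,k1,k1]]
    [.ref k0 k0 [(z1,[y1,z1])]])]⟩

/-- classes `0 0 1 2 3 1`, types `N0 N2 S0 S0 S0 S0` -/
noncomputable def cU6_1815 : CertX :=
  ⟨[k12,k14,k16,k32,k48,k16],[(false,k0,[k0,k1,k2,k3,k4,k5])],[[[([z1,z1,z1,z0,z0,z0],z2)],[]]],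
    [.old (.leafM k4 [k0,k1,k2,k3,k4,k5] [(z1,[y1,z1])] []),
    .old (.lp [k8,k6,k6,k6,k6,k12] [k4,k4,k5,k5,k5,k5,k5,k5,k5,k5,k0,k4] k0 [[],[],[],[],[],[k0,k0,k0,k0,k0,k0,k0,k0,k0,
    k0,k0,k4],[],[],[],[],[k0,k0,k0,k0,k4]] k24 k5
    [[(k7,k7),(k1,k8),(k4,k11),(k10,k12)],[(k2,k7)],[(k5,k6)],[(k0,k7)],[(k3,k6)],[(k4,k6),(k7,k6),(k1,k11),(k10,
    k11)],[(k4,k6),(k7,k6),(k1,k7),(k10,k7)],[(k6,k6),(k9,k6)],[(k6,k6),(k9,k6)],[(k8,k6),(k11,k7)],[(k8,k7),(k11,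
    k8)],[(k7,k7),(k4,k11),(k1,k12),(k10,k16)]]
    [] k0
    [[k0,k0,k0,k2,k0,k0],[k0,k0,k0,k1,k1,k1],[k0,k0,k0,k0,k2,k0]]
    [.contra [z1],.ref k0 k0 [(z1,[y1,z1])],.contra [z1]])]⟩

/-- classes `0 0 1 2 3 1`, types `S0 S0 B0 C0 C0 B1` -/
noncomputable def cU6_1816 : CertX :=
  ⟨[k0,k0,k24,k36,k52,k25],[(false,k0,[k0,k1,k2,k3,k4,k5])],[[[([z1,z1,z1,z0,z0,z0],z2)],[]]],
    [.old (.leafM k0 [k2,k3,k4,k5,k0,k1] [(z1,[y1,z1])] []),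
    .old (.lp [k24,k10,k6,k6,k6,k6] [k0,k0,k7,k7,k9,k9,k9,k9,k9,k9,k9,k9] k0 [] k30 k6
    [[(k4,k15),(k7,k15)],[(k5,k15),(k2,k17),(k3,k17),(k0,k24)],[(k5,k8),(k2,k10),(k3,k10),(k0,k17)],[(k5,k8),(k2,k10),
    (k3,k10),(k0,k17)],[(k5,k6),(k2,k8),(k3,k8),(k0,k15)],[(k10,k6),(k1,k15)],[(k10,k6),(k1,k15)],[(k9,k6)],[(k6,k6)],
    [(k11,k6)],[(k8,k6)],[(k4,k6),(k7,k6)]]
    [] k0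
    [[k0,k2,k0,k0,k0,k0],[k0,k0,k0,k1,k1,k1]]
    [.contra [z1],.ref k0 k0 [(z1,[y1,z1])]])]⟩

/-- classes `0 0 1 2 3 1`, types `S0 S0 B0 C0 S0 B1` -/
noncomputable def cU6_1817 : CertX :=
  ⟨[k0,k0,k24,k36,k48,k25],[(false,k0,[k0,k1,k2,k3,k4,k5])],[[[([z1,z1,z1,z0,z0,z0],z2)],[]]],
    [.old (.leafM k0 [k2,k3,k4,k5,k0,k1] [(z1,[y1,z1])] []),
    .old (.lp [k42,k20,k18,k12,k12,k12] [k0,k0,k11,k11,k12,k12,k15,k15,k15,k15,k15,k15] k0 [] k60 k6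
    [[(k7,k27),(k4,k30)],[(k5,k30),(k2,k31),(k3,k31),(k0,k42)],[(k5,k19),(k2,k20),(k3,k20),(k0,k31)],[(k5,k19),(k2,
    k20),(k3,k20),(k0,k31)],[(k5,k18),(k2,k19),(k3,k19),(k0,k30)],[(k10,k15),(k1,k30)],[(k10,k12),(k1,k27)],[(k9,
    k12)],[(k6,k12)],[(k8,k12),(k11,k12)],[(k8,k12),(k11,k12)],[(k7,k12),(k4,k15)]]
    [] k0
    [[k0,k2,k0,k0,k0,k0],[k0,k0,k0,k1,k1,k1]]
    [.contra [z1],.ref k0 k0 [(z1,[y1,z1])]])]⟩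

/-- classes `0 0 1 2 3 1`, types `S0 S0 B0 S0 S0 B1` -/
noncomputable def cU6_1818 : CertX :=
  ⟨[k0,k0,k24,k32,k48,k25],[(false,k0,[k0,k1,k2,k3,k4,k5])],[[[([z1,z1,z1,z0,z0,z0],z2)],[([z1,z0,z1,z0,z0,z0],z2),
    ([z0,z2,z0,z0,z0,z0],z1),([z0,z0,z0,z1,z0,z1],z1)],[([z1,z0,z1,z0,z0,z0],z2),([z0,z3,z0,z0,z0,z0],z2),([z0,z0,z0,
    z1,z0,z1],z1)],[([z1,z0,z1,z0,z0,z0],z2),([z0,z1,z0,z0,z1,z0],z1)],[([z1,z0,z1,z0,z0,z0],z2)],[]]],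
    [.old (.leafM k0 [k2,k3,k4,k5,k0,k1] [(z1,[y1,z1])] []),
    .old (.leafM k9 [k5,k1,k3,k4] [(z1,[z0,z1]),(z1,[y2,y1,y2,z2]),(z1,[z0,z0,z1])] [(k0,k2,z1,[z1]),(k2,k0,z1,[z1])]),
    .old (.leafM k8 [k5,k1,k3,k4] [(z1,[z0,z1]),(z1,[y3,y1,y3,z3]),(z1,[z0,z0,z1])] [(k0,k2,z1,[z1]),(k2,k0,z1,[z1])]),
    .old (.lp [k32,k10,k8,k8,k8,k12] [k0,k0,k11,k11,k12,k12,k12,k12,k12,k12,k10,k10] k0 [] k40 k6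
    [[(k4,k20),(k7,k20)],[(k5,k20),(k2,k21),(k3,k21),(k0,k32)],[(k5,k9),(k2,k10),(k3,k10),(k0,k21)],[(k5,k9),(k2,k10),
    (k3,k10),(k0,k21)],[(k5,k8),(k2,k9),(k3,k9),(k0,k20)],[(k10,k10),(k1,k20)],[(k10,k10),(k1,k20)],[(k6,k8),(k9,k8)],
    [(k6,k8),(k9,k8)],[(k8,k8),(k11,k10)],[(k8,k10),(k11,k12)],[(k4,k10),(k7,k10)]]
    [] k0
    [[k0,k2,k0,k0,k0,k0],[k0,k3,k0,k0,k0,k0],[k0,k0,k0,k1,k1,k1],[k0,k0,k0,k0,k2,k0],[k0,k0,k0,k0,k4,k0]]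
    [.contra [z1],.ref k2 k0 [(z1,[z0,z1]),(z1,[z1]),(z1,[z0,y1,y1,z1])],.contra [z1,z1,z1,y1],.contra [z1],
    .ref k1 k0 [(z1,[z0,z1]),(z2,[y1,z0,z4]),(z1,[z0,y1,y1,z1])]]),
    .old (.lp [k84,k40,k36,k24,k30,k24] [k0,k0,k22,k22,k24,k24,k30,k30,k27,k27,k30,k30] k0 [] k120 k6
    [[(k7,k54),(k4,k60)],[(k5,k60),(k2,k62),(k3,k62),(k0,k84)],[(k5,k38),(k2,k40),(k3,k40),(k0,k62)],[(k5,k38),(k2,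
    k40),(k3,k40),(k0,k62)],[(k5,k36),(k2,k38),(k3,k38),(k0,k60)],[(k10,k30),(k1,k60)],[(k10,k24),(k1,k54)],[(k6,k24),
    (k9,k27)],[(k6,k27),(k9,k30)],[(k11,k27),(k8,k30)],[(k11,k24),(k8,k27)],[(k7,k24),(k4,k30)]]
    [] k0
    [[k0,k2,k0,k0,k0,k0],[k0,k0,k0,k1,k1,k1],[k0,k0,k0,k2,k0,k2],[k0,k0,k0,k0,k2,k0]]
    [.contra [z1],.contra [y1,y1,z1],.ref k3 k0 [(z1,[z0,z1]),(z2,[y1,y2,z2])],.contra [z1]]),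
    .old (.lp [k2,k4,k2,k2,k2,k2] [k1,k1,k0,k0,k1,k1,k1,k1,k1,k1,k1,k1] k0 [] k8 k5
    [[(k4,k2),(k7,k2)],[(k0,k2),(k5,k2),(k2,k3),(k3,k3)],[(k0,k3),(k5,k3),(k2,k4),(k3,k4)],[(k0,k3),(k5,k3),(k2,k4),
    (k3,k4)],[(k0,k2),(k5,k2),(k2,k3),(k3,k3)],[(k1,k2),(k10,k2)],[(k1,k2),(k10,k2)],[(k6,k2),(k9,k2)],[(k6,k2),(k9,
    k2)],[(k8,k2),(k11,k2)],[(k8,k2),(k11,k2)],[(k4,k2),(k7,k2)]]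
    [] k0
    [[k1,k0,k1,k0,k0,k0],[k0,k0,k0,k1,k1,k1],[k0,k0,k0,k0,k2,k0]]
    [.ref k4 k0 [(z1,[z1])],.ref k0 k0 [(z1,[y1,z1])],.contra [z1]])]⟩

/-- classes `0 0 1 2 3 1`, types `S0 S0 C0 C0 C0 C0` -/
noncomputable def cU6_1819 : CertX :=
  ⟨[k0,k0,k20,k36,k52,k20],[(false,k0,[k0,k1,k2,k3,k4,k5])],[[[([z1,z1,z1,z0,z0,z0],z2)],[]]],
    [.old (.leafM k0 [k2,k3,k4,k5,k0,k1] [(z1,[y1,z1])] []),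
    .old (.lp [k6,k10,k24,k6,k6,k6] [k9,k9,k7,k7,k0,k0,k9,k9,k9,k9,k9,k9] k0 [] k30 k6
    [[(k10,k6),(k4,k15)],[(k0,k6),(k2,k8),(k3,k8),(k5,k15)],[(k0,k8),(k2,k10),(k3,k10),(k5,k17)],[(k0,k8),(k2,k10),
    (k3,k10),(k5,k17)],[(k0,k15),(k2,k17),(k3,k17),(k5,k24)],[(k1,k15),(k7,k15)],[(k10,k6),(k4,k15)],[(k9,k6)],[(k6,
    k6)],[(k11,k6)],[(k8,k6)],[(k1,k6),(k7,k6)]]
    [] k0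
    [[k0,k2,k0,k0,k0,k0],[k0,k0,k0,k1,k1,k1]]
    [.contra [z1],.ref k0 k0 [(z1,[y1,z1])]])]⟩

/-- classes `0 0 1 2 3 1`, types `S0 S0 C0 C0 C0 C2` -/
noncomputable def cU6_1820 : CertX :=
  ⟨[k0,k0,k20,k36,k52,k22],[],[[[]]],
    [.old (.lp [k2,k4,k2,k2,k2,k2] [k1,k1,k0,k0,k1,k1,k1,k1,k1,k1,k1,k1] k0 [] k8 k5
    [[(k7,k2),(k10,k2)],[(k0,k2),(k5,k2),(k2,k3),(k3,k3)],[(k0,k3),(k5,k3),(k2,k4),(k3,k4)],[(k0,k3),(k5,k3),(k2,k4),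
    (k3,k4)],[(k0,k2),(k5,k2),(k2,k3),(k3,k3)],[(k7,k2),(k10,k2)],[(k1,k2),(k4,k2)],[(k9,k2)],[(k6,k2)],[(k11,k2)],
    [(k8,k2)],[(k1,k2),(k4,k2)]]
    [] k0
    []
    [])]⟩

/-- classes `0 0 1 2 3 1`, types `S0 S0 C0 C0 S0 C0` -/
noncomputable def cU6_1821 : CertX :=
  ⟨[k0,k0,k20,k36,k48,k20],[(false,k0,[k0,k1,k2,k3,k4,k5])],[[[([z1,z1,z1,z0,z0,z0],z2)],[]]],
    [.old (.leafM k0 [k2,k3,k4,k5,k0,k1] [(z1,[y1,z1])] []),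
    .old (.lp [k24,k10,k6,k6,k6,k6] [k0,k0,k7,k7,k9,k9,k9,k9,k9,k9,k9,k9] k0 [] k30 k6
    [[(k4,k15),(k10,k15)],[(k5,k15),(k2,k17),(k3,k17),(k0,k24)],[(k5,k8),(k2,k10),(k3,k10),(k0,k17)],[(k5,k8),(k2,
    k10),(k3,k10),(k0,k17)],[(k5,k6),(k2,k8),(k3,k8),(k0,k15)],[(k7,k6),(k1,k15)],[(k4,k6),(k10,k6)],[(k9,k6)],[(k6,
    k6)],[(k8,k6),(k11,k6)],[(k8,k6),(k11,k6)],[(k7,k6),(k1,k15)]]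
    [] k0
    [[k0,k2,k0,k0,k0,k0],[k0,k0,k0,k1,k1,k1]]
    [.contra [z1],.ref k0 k0 [(z1,[y1,z1])]])]⟩

/-- classes `0 0 1 2 3 1`, types `S0 S0 C0 C0 S0 C2` -/
noncomputable def cU6_1822 : CertX :=
  ⟨[k0,k0,k20,k36,k48,k22],[],[[[]]],
    [.old (.lp [k2,k4,k2,k2,k2,k2] [k1,k1,k0,k0,k1,k1,k1,k1,k1,k1,k1,k1] k0 [] k8 k5
    [[(k7,k2),(k10,k2)],[(k0,k2),(k5,k2),(k2,k3),(k3,k3)],[(k0,k3),(k5,k3),(k2,k4),(k3,k4)],[(k0,k3),(k5,k3),(k2,k4),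
    (k3,k4)],[(k0,k2),(k5,k2),(k2,k3),(k3,k3)],[(k7,k2),(k10,k2)],[(k1,k2),(k4,k2)],[(k9,k2)],[(k6,k2)],[(k8,k2),(k11,
    k2)],[(k8,k2),(k11,k2)],[(k1,k2),(k4,k2)]]
    [] k0
    []
    [])]⟩

/-- classes `0 0 1 2 3 1`, types `S0 S0 C0 S0 S0 C0` -/
noncomputable def cU6_1823 : CertX :=
  ⟨[k0,k0,k20,k32,k48,k20],[(false,k0,[k0,k1,k2,k3,k4,k5])],[[[([z1,z1,z1,z0,z0,z0],z2)],[([z1,z0,z1,z0,z0,z0],z2),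
    ([z0,z2,z0,z0,z0,z0],z1),([z0,z0,z0,z1,z0,z1],z1)],[([z1,z0,z1,z0,z0,z0],z2),([z0,z3,z0,z0,z0,z0],z2),([z0,z0,z0,
    z1,z0,z1],z1)],[([z1,z0,z1,z0,z0,z0],z2),([z0,z1,z0,z0,z1,z0],z1)],[([z1,z0,z1,z0,z0,z0],z2)],[]]],
    [.old (.leafM k0 [k2,k3,k4,k5,k0,k1] [(z1,[y1,z1])] []),
    .old (.leafM k9 [k5,k1,k3,k4] [(z1,[z0,z1]),(z1,[y2,y1,y2,z2]),(z1,[z0,z0,z1])] [(k0,k2,z1,[z1]),(k2,k0,z1,[z1])]),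
    .old (.leafM k8 [k5,k1,k3,k4] [(z1,[z0,z1]),(z1,[y3,y1,y3,z3]),(z1,[z0,z0,z1])] [(k0,k2,z1,[z1]),(k2,k0,z1,[z1])]),
    .old (.lp [k32,k10,k8,k12,k8,k8] [k0,k0,k11,k11,k12,k12,k10,k10,k12,k12,k12,k12] k0 [] k40 k6
    [[(k4,k20),(k10,k20)],[(k5,k20),(k2,k21),(k3,k21),(k0,k32)],[(k5,k9),(k2,k10),(k3,k10),(k0,k21)],[(k5,k9),(k2,
    k10),(k3,k10),(k0,k21)],[(k5,k8),(k2,k9),(k3,k9),(k0,k20)],[(k7,k10),(k1,k20)],[(k4,k10),(k10,k10)],[(k9,k10),(k6,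
    k12)],[(k9,k8),(k6,k10)],[(k8,k8),(k11,k8)],[(k8,k8),(k11,k8)],[(k7,k10),(k1,k20)]]
    [] k0
    [[k0,k2,k0,k0,k0,k0],[k0,k3,k0,k0,k0,k0],[k0,k0,k0,k1,k1,k1],[k0,k0,k0,k0,k2,k0],[k0,k0,k0,k0,k4,k0]]
    [.contra [z1],.ref k2 k0 [(z1,[z0,z1]),(z1,[z1]),(z1,[z0,y1,y1,z1])],.contra [z1,z1,z1,y1],.contra [z1],
    .ref k1 k0 [(z1,[z0,z1]),(z2,[y1,z0,z4]),(z1,[z0,y1,y1,z1])]]),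
    .old (.lp [k84,k40,k36,k24,k30,k24] [k0,k0,k22,k22,k24,k24,k30,k30,k27,k27,k30,k30] k0 [] k120 k6
    [[(k10,k54),(k4,k60)],[(k5,k60),(k2,k62),(k3,k62),(k0,k84)],[(k5,k38),(k2,k40),(k3,k40),(k0,k62)],[(k5,k38),(k2,
    k40),(k3,k40),(k0,k62)],[(k5,k36),(k2,k38),(k3,k38),(k0,k60)],[(k7,k30),(k1,k60)],[(k10,k24),(k4,k30)],[(k6,k24),
    (k9,k27)],[(k6,k27),(k9,k30)],[(k11,k27),(k8,k30)],[(k11,k24),(k8,k27)],[(k7,k24),(k1,k54)]]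
    [] k0
    [[k0,k2,k0,k0,k0,k0],[k0,k0,k0,k1,k1,k1],[k0,k0,k0,k2,k0,k2],[k0,k0,k0,k0,k2,k0]]
    [.contra [z1],.contra [y1,y1,z1],.ref k3 k0 [(z1,[z0,z1]),(z2,[y1,y2,z2])],.contra [z1]]),
    .old (.lp [k2,k4,k2,k2,k2,k2] [k1,k1,k0,k0,k1,k1,k1,k1,k1,k1,k1,k1] k0 [] k8 k5
    [[(k4,k2),(k10,k2)],[(k0,k2),(k5,k2),(k2,k3),(k3,k3)],[(k0,k3),(k5,k3),(k2,k4),(k3,k4)],[(k0,k3),(k5,k3),(k2,k4),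
    (k3,k4)],[(k0,k2),(k5,k2),(k2,k3),(k3,k3)],[(k1,k2),(k7,k2)],[(k4,k2),(k10,k2)],[(k6,k2),(k9,k2)],[(k6,k2),(k9,
    k2)],[(k8,k2),(k11,k2)],[(k8,k2),(k11,k2)],[(k1,k2),(k7,k2)]]
    [] k0
    [[k1,k0,k1,k0,k0,k0],[k0,k0,k0,k1,k1,k1],[k0,k0,k0,k0,k2,k0]]
    [.ref k4 k0 [(z1,[z1])],.ref k0 k0 [(z1,[y1,z1])],.contra [z1]])]⟩

/-- classes `0 0 1 2 3 1`, types `S0 S0 C0 S0 S0 C2` -/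
noncomputable def cU6_1824 : CertX :=
  ⟨[k0,k0,k20,k32,k48,k22],[],[[[]]],
    [.old (.lp [k6,k8,k6,k6,k12,k6] [k3,k3,k2,k2,k3,k3,k3,k3,k0,k0,k3,k3] k0 [] k24 k5
    [[(k7,k6),(k10,k6)],[(k0,k6),(k5,k6),(k2,k7),(k3,k7)],[(k0,k7),(k5,k7),(k2,k8),(k3,k8)],[(k0,k7),(k5,k7),(k2,k8),
    (k3,k8)],[(k0,k6),(k5,k6),(k2,k7),(k3,k7)],[(k7,k6),(k10,k6)],[(k1,k6),(k4,k6)],[(k6,k6),(k9,k9)],[(k6,k9),(k9,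
    k12)],[(k11,k9),(k8,k12)],[(k11,k6),(k8,k9)],[(k1,k6),(k4,k6)]]
    [] k0
    [[k0,k2,k0,k0,k0,k0]]
    [.contra [z1]])]⟩

/-- classes `0 0 1 2 3 1`, types `S0 S0 N0 C0 C0 N1` -/
noncomputable def cU6_1825 : CertX :=
  ⟨[k0,k0,k28,k36,k52,k29],[(false,k0,[k0,k1,k2,k3,k4,k5])],[[[([z1,z1,z1,z0,z0,z0],z2)],[]]],
    [.old (.leafM k0 [k2,k3,k4,k5,k0,k1] [(z1,[y1,z1])] []),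
    .old (.lp [k6,k10,k24,k6,k6,k6] [k9,k9,k7,k7,k0,k0,k9,k9,k9,k9,k9,k9] k0 [] k30 k6
    [[(k4,k15)],[(k0,k6),(k2,k8),(k3,k8),(k5,k15)],[(k0,k8),(k2,k10),(k3,k10),(k5,k17)],[(k0,k8),(k2,k10),(k3,k10),
    (k5,k17)],[(k0,k15),(k2,k17),(k3,k17),(k5,k24)],[(k1,k15)],[(k10,k6)],[(k9,k6)],[(k6,k6)],[(k11,k6)],[(k8,k6)],
    [(k7,k6)]]
    [] k0
    [[k0,k2,k0,k0,k0,k0],[k0,k0,k0,k1,k1,k1]]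
    [.contra [z1],.ref k0 k0 [(z1,[y1,z1])]])]⟩

/-- classes `0 0 1 2 3 1`, types `S0 S0 N0 C0 C0 N2` -/
noncomputable def cU6_1826 : CertX :=
  ⟨[k0,k0,k28,k36,k52,k30],[],[[[]]],
    [.old (.lp [k2,k4,k2,k2,k2,k2] [k1,k1,k0,k0,k1,k1,k1,k1,k1,k1,k1,k1] k0 [] k8 k5
    [[(k7,k2)],[(k0,k2),(k5,k2),(k2,k3),(k3,k3)],[(k0,k3),(k5,k3),(k2,k4),(k3,k4)],[(k0,k3),(k5,k3),(k2,k4),(k3,k4)],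
    [(k0,k2),(k5,k2),(k2,k3),(k3,k3)],[(k10,k2)],[(k1,k2)],[(k9,k2)],[(k6,k2)],[(k11,k2)],[(k8,k2)],[(k4,k2)]]
    [] k0
    []
    [])]⟩

/-- classes `0 0 1 2 3 1`, types `S0 S0 N0 C0 S0 N1` -/
noncomputable def cU6_1827 : CertX :=
  ⟨[k0,k0,k28,k36,k48,k29],[(false,k0,[k0,k1,k2,k3,k4,k5])],[[[([z1,z1,z1,z0,z0,z0],z2)],[]]],
    [.old (.leafM k0 [k2,k3,k4,k5,k0,k1] [(z1,[y1,z1])] []),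
    .old (.lp [k24,k10,k6,k6,k6,k6] [k0,k0,k7,k7,k9,k9,k9,k9,k9,k9,k9,k9] k0 [] k30 k6
    [[(k4,k15)],[(k5,k15),(k2,k17),(k3,k17),(k0,k24)],[(k5,k8),(k2,k10),(k3,k10),(k0,k17)],[(k5,k8),(k2,k10),(k3,k10),
    (k0,k17)],[(k5,k6),(k2,k8),(k3,k8),(k0,k15)],[(k1,k15)],[(k10,k6)],[(k9,k6)],[(k6,k6)],[(k8,k6),(k11,k6)],[(k8,
    k6),(k11,k6)],[(k7,k6)]]
    [] k0
    [[k0,k2,k0,k0,k0,k0],[k0,k0,k0,k1,k1,k1]]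
    [.contra [z1],.ref k0 k0 [(z1,[y1,z1])]])]⟩

/-- classes `0 0 1 2 3 1`, types `S0 S0 N0 C0 S0 N2` -/
noncomputable def cU6_1828 : CertX :=
  ⟨[k0,k0,k28,k36,k48,k30],[],[[[]]],
    [.old (.lp [k2,k4,k2,k2,k2,k2] [k1,k1,k0,k0,k1,k1,k1,k1,k1,k1,k1,k1] k0 [] k8 k5
    [[(k7,k2)],[(k0,k2),(k5,k2),(k2,k3),(k3,k3)],[(k0,k3),(k5,k3),(k2,k4),(k3,k4)],[(k0,k3),(k5,k3),(k2,k4),(k3,k4)],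
    [(k0,k2),(k5,k2),(k2,k3),(k3,k3)],[(k10,k2)],[(k1,k2)],[(k9,k2)],[(k6,k2)],[(k8,k2),(k11,k2)],[(k8,k2),(k11,k2)],
    [(k4,k2)]]
    [] k0
    []
    [])]⟩

/-- classes `0 0 1 2 3 1`, types `S0 S0 N0 S0 S0 N1` -/
noncomputable def cU6_1829 : CertX :=
  ⟨[k0,k0,k28,k32,k48,k29],[(false,k0,[k0,k1,k2,k3,k4,k5])],[[[([z1,z1,z1,z0,z0,z0],z2)],[([z1,z0,z1,z0,z0,z0],z2),
    ([z0,z2,z0,z0,z0,z0],z1),([z0,z0,z0,z1,z0,z1],z1)],[([z1,z0,z1,z0,z0,z0],z2),([z0,z3,z0,z0,z0,z0],z2),([z0,z0,z0,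
    z1,z0,z1],z1)],[([z1,z0,z1,z0,z0,z0],z2),([z0,z1,z0,z0,z1,z0],z1)],[([z1,z0,z1,z0,z0,z0],z2)],[]]],
    [.old (.leafM k0 [k2,k3,k4,k5,k0,k1] [(z1,[y1,z1])] []),
    .old (.leafM k9 [k5,k1,k3,k4] [(z1,[z0,z1]),(z1,[y2,y1,y2,z2]),(z1,[z0,z0,z1])] [(k0,k2,z1,[z1]),(k2,k0,z1,[z1])]),
    .old (.leafM k8 [k5,k1,k3,k4] [(z1,[z0,z1]),(z1,[y3,y1,y3,z3]),(z1,[z0,z0,z1])] [(k0,k2,z1,[z1]),(k2,k0,z1,[z1])]),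
    .old (.lp [k32,k10,k8,k8,k8,k12] [k0,k0,k11,k11,k12,k12,k12,k12,k12,k12,k10,k10] k0 [] k40 k6
    [[(k4,k20)],[(k5,k20),(k2,k21),(k3,k21),(k0,k32)],[(k5,k9),(k2,k10),(k3,k10),(k0,k21)],[(k5,k9),(k2,k10),(k3,k10),
    (k0,k21)],[(k5,k8),(k2,k9),(k3,k9),(k0,k20)],[(k1,k20)],[(k10,k10)],[(k6,k8),(k9,k8)],[(k6,k8),(k9,k8)],[(k8,k8),
    (k11,k10)],[(k8,k10),(k11,k12)],[(k7,k10)]]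
    [] k0
    [[k0,k2,k0,k0,k0,k0],[k0,k3,k0,k0,k0,k0],[k0,k0,k0,k1,k1,k1],[k0,k0,k0,k0,k2,k0],[k0,k0,k0,k0,k4,k0]]
    [.contra [z1],.ref k2 k0 [(z1,[z0,z1]),(z1,[z1]),(z1,[z0,y1,y1,z1])],.contra [z1,z1,z1,y1],.contra [z1],
    .ref k1 k0 [(z1,[z0,z1]),(z2,[y1,z0,z4]),(z1,[z0,y1,y1,z1])]]),
    .old (.lp [k96,k40,k24,k24,k30,k24] [k0,k0,k28,k28,k36,k36,k36,k36,k33,k33,k36,k36] k0 [] k120 k6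
    [[(k4,k60)],[(k5,k60),(k2,k68),(k3,k68),(k0,k96)],[(k5,k32),(k2,k40),(k3,k40),(k0,k68)],[(k5,k32),(k2,k40),(k3,
    k40),(k0,k68)],[(k5,k24),(k2,k32),(k3,k32),(k0,k60)],[(k1,k60)],[(k10,k24)],[(k6,k24),(k9,k27)],[(k6,k27),(k9,
    k30)],[(k11,k27),(k8,k30)],[(k11,k24),(k8,k27)],[(k7,k24)]]
    [] k0
    [[k0,k2,k0,k0,k0,k0],[k0,k0,k0,k1,k1,k1],[k0,k0,k0,k2,k0,k2],[k0,k0,k0,k0,k2,k0]]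
    [.contra [z1],.contra [y1,y1,z1],.ref k3 k0 [(z1,[z0,z1]),(z2,[y1,y2,z2])],.contra [z1]]),
    .old (.lp [k2,k4,k2,k2,k2,k2] [k1,k1,k0,k0,k1,k1,k1,k1,k1,k1,k1,k1] k0 [] k8 k5
    [[(k4,k2)],[(k0,k2),(k5,k2),(k2,k3),(k3,k3)],[(k0,k3),(k5,k3),(k2,k4),(k3,k4)],[(k0,k3),(k5,k3),(k2,k4),(k3,k4)],
    [(k0,k2),(k5,k2),(k2,k3),(k3,k3)],[(k1,k2)],[(k10,k2)],[(k6,k2),(k9,k2)],[(k6,k2),(k9,k2)],[(k8,k2),(k11,k2)],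
    [(k8,k2),(k11,k2)],[(k7,k2)]]
    [] k0
    [[k1,k0,k1,k0,k0,k0],[k0,k0,k0,k1,k1,k1],[k0,k0,k0,k0,k2,k0]]
    [.ref k4 k0 [(z1,[z1])],.ref k0 k0 [(z1,[y1,z1])],.contra [z1]])]⟩

/-- classes `0 0 1 2 3 1`, types `S0 S0 N0 S0 S0 N2` -/
noncomputable def cU6_1830 : CertX :=
  ⟨[k0,k0,k28,k32,k48,k30],[],[[[]]],
    [.old (.lp [k6,k8,k6,k6,k12,k6] [k3,k3,k2,k2,k3,k3,k3,k3,k0,k0,k3,k3] k0 [] k24 k5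
    [[(k7,k6)],[(k0,k6),(k5,k6),(k2,k7),(k3,k7)],[(k0,k7),(k5,k7),(k2,k8),(k3,k8)],[(k0,k7),(k5,k7),(k2,k8),(k3,k8)],
    [(k0,k6),(k5,k6),(k2,k7),(k3,k7)],[(k10,k6)],[(k1,k6)],[(k6,k6),(k9,k9)],[(k6,k9),(k9,k12)],[(k11,k9),(k8,k12)],
    [(k11,k6),(k8,k9)],[(k4,k6)]]
    [] k0
    [[k0,k2,k0,k0,k0,k0]]
    [.contra [z1]])]⟩

/-- classes `0 0 1 2 3 1`, types `S0 S0 S0 C0 C0 S0` -/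
noncomputable def cU6_1831 : CertX :=
  ⟨[k0,k0,k16,k36,k52,k16],[(false,k0,[k0,k1,k2,k3,k4,k5])],[[[([z1,z1,z1,z0,z0,z0],z2)],[]]],
    [.old (.leafM k0 [k2,k3,k4,k5,k0,k1] [(z1,[y1,z1])] []),
    .old (.lp [k30,k20,k30,k12,k12,k12] [k0,k0,k5,k5,k0,k0,k9,k9,k9,k9,k9,k9] k0 [] k60 k6
    [[(k7,k21),(k10,k21),(k1,k30),(k4,k30)],[(k2,k25),(k3,k25),(k0,k30),(k5,k30)],[(k2,k20),(k3,k20),(k0,k25),(k5,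
    k25)],[(k2,k20),(k3,k20),(k0,k25),(k5,k25)],[(k2,k25),(k3,k25),(k0,k30),(k5,k30)],[(k7,k21),(k10,k21),(k1,k30),
    (k4,k30)],[(k7,k12),(k10,k12),(k1,k21),(k4,k21)],[(k9,k12)],[(k6,k12)],[(k11,k12)],[(k8,k12)],[(k7,k12),(k10,k12),
    (k1,k21),(k4,k21)]]
    [] k0
    [[k0,k2,k0,k0,k0,k0],[k0,k0,k0,k1,k1,k1]]
    [.contra [z1],.ref k0 k0 [(z1,[y1,z1])]])]⟩

/-- classes `0 0 1 2 3 1`, types `S0 S0 S0 C0 S0 S0` -/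
noncomputable def cU6_1832 : CertX :=
  ⟨[k0,k0,k16,k36,k48,k16],[(false,k0,[k0,k1,k2,k3,k4,k5])],[[[([z1,z1,z1,z0,z0,z0],z2)],[]]],
    [.old (.leafM k0 [k2,k3,k4,k5,k0,k1] [(z1,[y1,z1])] []),
    .old (.lp [k80,k80,k130,k72,k48,k60] [k25,k25,k25,k25,k0,k0,k41,k17,k41,k41,k35,k35] k0 [[],[],[],[],[],[k0,k0,k0,k0,
    k0,k0,k0,k0,k0,k0,k0,k30],[],[],[],[],[k0,k0,k0,k0,k30]] (nat_lit 240) k6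
    [[(k10,k70),(k1,k80),(k7,k88),(k4,k135)],[(k0,k80),(k2,k80),(k3,k80),(k5,k105)],[(k0,k80),(k2,k80),(k3,k80),(k5,
    k105)],[(k0,k80),(k2,k80),(k3,k80),(k5,k105)],[(k0,k105),(k2,k105),(k3,k105),(k5,k130)],[(k10,k95),(k7,k113),(k4,
    k130),(k1,k135)],[(k10,k48),(k1,k88),(k7,k96),(k4,k113)],[(k9,k48)],[(k6,k48)],[(k8,k48),(k11,k54)],[(k8,k54),
    (k11,k60)],[(k7,k48),(k10,k60),(k1,k70),(k4,k95)]]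
    [] k0
    [[k2,k0,k0,k0,k0,k0],[k0,k2,k0,k0,k0,k0],[k0,k0,k0,k1,k1,k1],[k0,k0,k0,k0,k0,k2]]
    [.contra [z1],.contra [z1],.ref k0 k0 [(z1,[y1,z1])],.contra [z1]])]⟩

/-- classes `0 0 1 2 3 4`, types `B0 B1 C0 C0 C0 C0` -/
noncomputable def cU6_1833 : CertX :=
  ⟨[k8,k9,k20,k36,k52,k68],[],[[[]]],
    [.old (.lp [k2,k4,k2,k2,k2,k2] [k1,k1,k0,k0,k1,k1,k1,k1,k1,k1,k1,k1] k0 [] k8 k5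
    [[(k10,k2)],[(k5,k2),(k2,k3)],[(k5,k3),(k2,k4)],[(k0,k3),(k3,k4)],[(k0,k2),(k3,k3)],[(k7,k2)],[(k4,k2)],[(k9,k2)],
    [(k6,k2)],[(k11,k2)],[(k8,k2)],[(k1,k2)]]
    [] k0
    []
    [])]⟩

/-- classes `0 0 1 2 3 4`, types `B0 B1 C0 C0 C0 S0` -/
noncomputable def cU6_1834 : CertX :=
  ⟨[k8,k9,k20,k36,k52,k64],[],[[[]]],
    [.old (.lp [k2,k4,k2,k2,k2,k2] [k1,k1,k0,k0,k1,k1,k1,k1,k1,k1,k1,k1] k0 [] k8 k5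
    [[(k1,k2),(k10,k2)],[(k5,k2),(k2,k3)],[(k5,k3),(k2,k4)],[(k0,k3),(k3,k4)],[(k0,k2),(k3,k3)],[(k7,k2)],[(k4,k2)],
    [(k9,k2)],[(k6,k2)],[(k11,k2)],[(k8,k2)],[(k1,k2),(k10,k2)]]
    [] k0
    []
    [])]⟩

/-- classes `0 0 1 2 3 4`, types `B0 B1 C0 C0 S0 C0` -/
noncomputable def cU6_1835 : CertX :=
  ⟨[k8,k9,k20,k36,k48,k68],[],[[[]]],
    [.old (.lp [k2,k4,k2,k2,k2,k2] [k1,k1,k0,k0,k1,k1,k1,k1,k1,k1,k1,k1] k0 [] k8 k5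
    [[(k10,k2)],[(k5,k2),(k2,k3)],[(k5,k3),(k2,k4)],[(k0,k3),(k3,k4)],[(k0,k2),(k3,k3)],[(k7,k2)],[(k4,k2)],[(k9,k2)],
    [(k6,k2)],[(k8,k2),(k11,k2)],[(k8,k2),(k11,k2)],[(k1,k2)]]
    [] k0
    []
    [])]⟩

/-- classes `0 0 1 2 3 4`, types `B0 B1 C0 C0 S0 S0` -/
noncomputable def cU6_1836 : CertX :=
  ⟨[k8,k9,k20,k36,k48,k64],[],[[[]]],
    [.old (.lp [k2,k4,k2,k2,k2,k2] [k1,k1,k0,k0,k1,k1,k1,k1,k1,k1,k1,k1] k0 [] k8 k5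
    [[(k1,k2),(k10,k2)],[(k5,k2),(k2,k3)],[(k5,k3),(k2,k4)],[(k0,k3),(k3,k4)],[(k0,k2),(k3,k3)],[(k7,k2)],[(k4,k2)],
    [(k9,k2)],[(k6,k2)],[(k8,k2),(k11,k2)],[(k8,k2),(k11,k2)],[(k1,k2),(k10,k2)]]
    [] k0
    [[k0,k0,k0,k0,k0,k2]]
    [.contra [z1]])]⟩

/-- classes `0 0 1 2 3 4`, types `B0 B1 C0 S0 C0 S0` -/
noncomputable def cU6_1837 : CertX :=
  ⟨[k8,k9,k20,k32,k52,k64],[],[[[]]],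
    [.old (.lp [k2,k4,k2,k2,k2,k2] [k1,k1,k0,k0,k1,k1,k1,k1,k1,k1,k1,k1] k0 [] k8 k5
    [[(k1,k2),(k10,k2)],[(k5,k2),(k2,k3)],[(k5,k3),(k2,k4)],[(k0,k3),(k3,k4)],[(k0,k2),(k3,k3)],[(k7,k2)],[(k4,k2)],
    [(k6,k2),(k9,k2)],[(k6,k2),(k9,k2)],[(k11,k2)],[(k8,k2)],[(k1,k2),(k10,k2)]]
    [] k0
    []
    [])]⟩

/-- classes `0 0 1 2 3 4`, types `B0 B1 C0 S0 S0 C0` -/
noncomputable def cU6_1838 : CertX :=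
  ⟨[k8,k9,k20,k32,k48,k68],[],[[[]]],
    [.old (.lp [k2,k4,k2,k2,k2,k2] [k1,k1,k0,k0,k1,k1,k1,k1,k1,k1,k1,k1] k0 [] k8 k5
    [[(k10,k2)],[(k5,k2),(k2,k3)],[(k5,k3),(k2,k4)],[(k0,k3),(k3,k4)],[(k0,k2),(k3,k3)],[(k7,k2)],[(k4,k2)],[(k6,k2),
    (k9,k2)],[(k6,k2),(k9,k2)],[(k8,k2),(k11,k2)],[(k8,k2),(k11,k2)],[(k1,k2)]]
    [] k0
    [[k0,k0,k0,k0,k2,k0]]
    [.contra [z1]])]⟩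

/-- classes `0 0 1 2 3 4`, types `B0 B1 C0 S0 S0 S0` -/
noncomputable def cU6_1839 : CertX :=
  ⟨[k8,k9,k20,k32,k48,k64],[],[[[]]],
    [.old (.lp [k2,k4,k2,k2,k2,k2] [k1,k1,k0,k0,k1,k1,k1,k1,k1,k1,k1,k1] k0 [] k8 k5
    [[(k1,k2),(k10,k2)],[(k5,k2),(k2,k3)],[(k5,k3),(k2,k4)],[(k0,k3),(k3,k4)],[(k0,k2),(k3,k3)],[(k7,k2)],[(k4,k2)],
    [(k6,k2),(k9,k2)],[(k6,k2),(k9,k2)],[(k8,k2),(k11,k2)],[(k8,k2),(k11,k2)],[(k1,k2),(k10,k2)]]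
    [] k0
    [[k0,k0,k0,k0,k2,k0],[k0,k0,k0,k0,k0,k2]]
    [.contra [z1],.contra [z1]])]⟩

/-- classes `0 0 1 2 3 4`, types `B0 B1 S0 C0 C0 S0` -/
noncomputable def cU6_1840 : CertX :=
  ⟨[k8,k9,k16,k36,k52,k64],[],[[[]]],
    [.old (.lp [k2,k4,k2,k2,k2,k2] [k1,k1,k0,k0,k1,k1,k1,k1,k1,k1,k1,k1] k0 [] k8 k5
    [[(k1,k2),(k10,k2)],[(k5,k2),(k2,k3)],[(k5,k3),(k2,k4)],[(k0,k3),(k3,k4)],[(k0,k2),(k3,k3)],[(k4,k2),(k7,k2)],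
    [(k4,k2),(k7,k2)],[(k9,k2)],[(k6,k2)],[(k11,k2)],[(k8,k2)],[(k1,k2),(k10,k2)]]
    [] k0
    []
    [])]⟩

/-- classes `0 0 1 2 3 4`, types `B0 B1 S0 C0 S0 S0` -/
noncomputable def cU6_1841 : CertX :=
  ⟨[k8,k9,k16,k36,k48,k64],[],[[[]]],
    [.old (.lp [k2,k4,k2,k2,k2,k2] [k1,k1,k0,k0,k1,k1,k1,k1,k1,k1,k1,k1] k0 [] k8 k5
    [[(k1,k2),(k10,k2)],[(k5,k2),(k2,k3)],[(k5,k3),(k2,k4)],[(k0,k3),(k3,k4)],[(k0,k2),(k3,k3)],[(k4,k2),(k7,k2)],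
    [(k4,k2),(k7,k2)],[(k9,k2)],[(k6,k2)],[(k8,k2),(k11,k2)],[(k8,k2),(k11,k2)],[(k1,k2),(k10,k2)]]
    [] k0
    [[k0,k0,k0,k0,k0,k2]]
    [.contra [z1]])]⟩

/-- classes `0 0 1 2 3 4`, types `B0 B1 S0 S0 S0 S0` -/
noncomputable def cU6_1842 : CertX :=
  ⟨[k8,k9,k16,k32,k48,k64],[],[[[]]],
    [.old (.lp [k2,k4,k2,k2,k2,k2] [k1,k1,k0,k0,k1,k1,k1,k1,k1,k1,k1,k1] k0 [] k8 k5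
    [[(k1,k2),(k10,k2)],[(k5,k2),(k2,k3)],[(k5,k3),(k2,k4)],[(k0,k3),(k3,k4)],[(k0,k2),(k3,k3)],[(k4,k2),(k7,k2)],
    [(k4,k2),(k7,k2)],[(k6,k2),(k9,k2)],[(k6,k2),(k9,k2)],[(k8,k2),(k11,k2)],[(k8,k2),(k11,k2)],[(k1,k2),(k10,k2)]]
    [] k0
    [[k0,k0,k0,k2,k0,k0],[k0,k0,k0,k0,k2,k0],[k0,k0,k0,k0,k0,k2]]
    [.contra [z1],.contra [z1],.contra [z1]])]⟩

/-- classes `0 0 1 2 3 4`, types `C0 C0 C0 C0 C0 C0` -/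
noncomputable def cU6_1843 : CertX :=
  ⟨[k4,k4,k20,k36,k52,k68],[],[[[]]],
    [.old (.lp [k2,k4,k2,k2,k2,k2] [k1,k1,k0,k0,k1,k1,k1,k1,k1,k1,k1,k1] k0 [] k8 k5
    [[(k10,k2)],[(k5,k2),(k3,k3)],[(k0,k3),(k2,k4)],[(k5,k3),(k3,k4)],[(k0,k2),(k2,k3)],[(k7,k2)],[(k4,k2)],[(k9,k2)],
    [(k6,k2)],[(k11,k2)],[(k8,k2)],[(k1,k2)]]
    [] k0
    []
    [])]⟩

/-- classes `0 0 1 2 3 4`, types `C0 C0 C0 C0 C0 S0` -/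
noncomputable def cU6_1844 : CertX :=
  ⟨[k4,k4,k20,k36,k52,k64],[],[[[]]],
    [.old (.lp [k2,k4,k2,k2,k2,k2] [k1,k1,k0,k0,k1,k1,k1,k1,k1,k1,k1,k1] k0 [] k8 k5
    [[(k1,k2),(k10,k2)],[(k5,k2),(k3,k3)],[(k0,k3),(k2,k4)],[(k5,k3),(k3,k4)],[(k0,k2),(k2,k3)],[(k7,k2)],[(k4,k2)],
    [(k9,k2)],[(k6,k2)],[(k11,k2)],[(k8,k2)],[(k1,k2),(k10,k2)]]
    [] k0
    []
    [])]⟩

/-- classes `0 0 1 2 3 4`, types `C0 C0 C0 C0 S0 C0` -/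
noncomputable def cU6_1845 : CertX :=
  ⟨[k4,k4,k20,k36,k48,k68],[],[[[]]],
    [.old (.lp [k2,k4,k2,k2,k2,k2] [k1,k1,k0,k0,k1,k1,k1,k1,k1,k1,k1,k1] k0 [] k8 k5
    [[(k10,k2)],[(k5,k2),(k3,k3)],[(k0,k3),(k2,k4)],[(k5,k3),(k3,k4)],[(k0,k2),(k2,k3)],[(k7,k2)],[(k4,k2)],[(k9,k2)],
    [(k6,k2)],[(k8,k2),(k11,k2)],[(k8,k2),(k11,k2)],[(k1,k2)]]
    [] k0
    []
    [])]⟩

/-- classes `0 0 1 2 3 4`, types `C0 C0 C0 C0 S0 S0` -/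
noncomputable def cU6_1846 : CertX :=
  ⟨[k4,k4,k20,k36,k48,k64],[],[[[]]],
    [.old (.lp [k6,k8,k6,k6,k6,k12] [k3,k3,k2,k2,k3,k3,k3,k3,k3,k3,k0,k0] k0 [] k24 k5
    [[(k1,k6),(k10,k9)],[(k5,k6),(k3,k7)],[(k0,k7),(k2,k8)],[(k5,k7),(k3,k8)],[(k0,k6),(k2,k7)],[(k7,k6)],[(k4,k6)],
    [(k9,k6)],[(k6,k6)],[(k8,k6),(k11,k9)],[(k8,k9),(k11,k12)],[(k1,k9),(k10,k12)]]
    [] k0
    [[k0,k2,k0,k0,k0,k0]]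
    [.contra [z1]])]⟩

/-- classes `0 0 1 2 3 4`, types `C0 C0 C0 S0 C0 S0` -/
noncomputable def cU6_1847 : CertX :=
  ⟨[k4,k4,k20,k32,k52,k64],[],[[[]]],
    [.old (.lp [k2,k4,k2,k2,k2,k2] [k1,k1,k0,k0,k1,k1,k1,k1,k1,k1,k1,k1] k0 [] k8 k5
    [[(k1,k2),(k10,k2)],[(k5,k2),(k3,k3)],[(k0,k3),(k2,k4)],[(k5,k3),(k3,k4)],[(k0,k2),(k2,k3)],[(k7,k2)],[(k4,k2)],
    [(k6,k2),(k9,k2)],[(k6,k2),(k9,k2)],[(k11,k2)],[(k8,k2)],[(k1,k2),(k10,k2)]]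
    [] k0
    []
    [])]⟩

/-- classes `0 0 1 2 3 4`, types `C0 C0 C0 S0 S0 C0` -/
noncomputable def cU6_1848 : CertX :=
  ⟨[k4,k4,k20,k32,k48,k68],[],[[[]]],
    [.old (.lp [k6,k8,k6,k6,k12,k6] [k3,k3,k2,k2,k3,k3,k3,k3,k0,k0,k3,k3] k0 [] k24 k5
    [[(k10,k6)],[(k5,k6),(k3,k7)],[(k0,k7),(k2,k8)],[(k5,k7),(k3,k8)],[(k0,k6),(k2,k7)],[(k7,k6)],[(k4,k6)],[(k6,k6),
    (k9,k9)],[(k6,k9),(k9,k12)],[(k11,k9),(k8,k12)],[(k11,k6),(k8,k9)],[(k1,k6)]]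
    [] k0
    [[k0,k2,k0,k0,k0,k0]]
    [.contra [z1]])]⟩

/-- classes `0 0 1 2 3 4`, types `C0 C0 C0 S0 S0 S0` -/
noncomputable def cU6_1849 : CertX :=
  ⟨[k4,k4,k20,k32,k48,k64],[],[[[]]],
    [.old (.lp [k6,k8,k6,k6,k12,k6] [k3,k3,k2,k2,k3,k3,k3,k3,k0,k0,k3,k3] k0 [] k24 k5
    [[(k1,k6),(k10,k6)],[(k5,k6),(k3,k7)],[(k0,k7),(k2,k8)],[(k5,k7),(k3,k8)],[(k0,k6),(k2,k7)],[(k7,k6)],[(k4,k6)],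
    [(k6,k6),(k9,k9)],[(k6,k9),(k9,k12)],[(k11,k9),(k8,k12)],[(k11,k6),(k8,k9)],[(k1,k6),(k10,k6)]]
    [] k0
    [[k0,k2,k0,k0,k0,k0],[k0,k0,k0,k0,k0,k2]]
    [.contra [z1],.contra [z1]])]⟩

/-- classes `0 0 1 2 3 4`, types `C0 C0 S0 C0 C0 S0` -/
noncomputable def cU6_1850 : CertX :=
  ⟨[k4,k4,k16,k36,k52,k64],[],[[[]]],
    [.old (.lp [k2,k4,k2,k2,k2,k2] [k1,k1,k0,k0,k1,k1,k1,k1,k1,k1,k1,k1] k0 [] k8 k5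
    [[(k1,k2),(k10,k2)],[(k5,k2),(k3,k3)],[(k0,k3),(k2,k4)],[(k5,k3),(k3,k4)],[(k0,k2),(k2,k3)],[(k4,k2),(k7,k2)],
    [(k4,k2),(k7,k2)],[(k9,k2)],[(k6,k2)],[(k11,k2)],[(k8,k2)],[(k1,k2),(k10,k2)]]
    [] k0
    []
    [])]⟩

/-- classes `0 0 1 2 3 4`, types `C0 C0 S0 C0 S0 S0` -/
noncomputable def cU6_1851 : CertX :=
  ⟨[k4,k4,k16,k36,k48,k64],[],[[[]]],
    [.old (.lp [k2,k4,k2,k2,k2,k2] [k1,k1,k0,k0,k1,k1,k1,k1,k1,k1,k1,k1] k0 [] k8 k5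
    [[(k1,k2),(k10,k2)],[(k5,k2),(k3,k3)],[(k0,k3),(k2,k4)],[(k5,k3),(k3,k4)],[(k0,k2),(k2,k3)],[(k4,k2),(k7,k2)],
    [(k4,k2),(k7,k2)],[(k9,k2)],[(k6,k2)],[(k8,k2),(k11,k2)],[(k8,k2),(k11,k2)],[(k1,k2),(k10,k2)]]
    [] k0
    [[k0,k0,k0,k0,k0,k2]]
    [.contra [z1]])]⟩

/-- classes `0 0 1 2 3 4`, types `C0 C0 S0 S0 S0 S0` -/
noncomputable def cU6_1852 : CertX :=
  ⟨[k4,k4,k16,k32,k48,k64],[],[[[]]],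
    [.old (.lp [k2,k4,k2,k2,k2,k2] [k1,k1,k0,k0,k1,k1,k1,k1,k1,k1,k1,k1] k0 [] k8 k5
    [[(k1,k2),(k10,k2)],[(k5,k2),(k3,k3)],[(k0,k3),(k2,k4)],[(k5,k3),(k3,k4)],[(k0,k2),(k2,k3)],[(k4,k2),(k7,k2)],
    [(k4,k2),(k7,k2)],[(k6,k2),(k9,k2)],[(k6,k2),(k9,k2)],[(k8,k2),(k11,k2)],[(k8,k2),(k11,k2)],[(k1,k2),(k10,k2)]]
    [] k0
    [[k0,k0,k0,k2,k0,k0],[k0,k0,k0,k0,k2,k0],[k0,k0,k0,k0,k0,k2]]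
    [.contra [z1],.contra [z1],.contra [z1]])]⟩

/-- classes `0 0 1 2 3 4`, types `C0 C2 C0 C0 C0 C0` -/
noncomputable def cU6_1853 : CertX :=
  ⟨[k4,k6,k20,k36,k52,k68],[],[[[]]],
    [.old (.lp [k0,k2,k0,k2,k0,k2] [k1,k1,k0,k0,k1,k1,k0,k0,k1,k1,k0,k0] k0 [] k4 k5
    [[(k10,k1)],[(k2,k1),(k3,k1)],[(k0,k1),(k5,k1)],[(k0,k1),(k5,k1)],[(k2,k1),(k3,k1)],[(k7,k1)],[(k4,k1)],[(k9,k1)],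
    [(k6,k1)],[(k11,k1)],[(k8,k1)],[(k1,k1)]]
    [] k0
    []
    [])]⟩

/-- classes `0 0 1 2 3 4`, types `C0 C2 C0 C0 C0 S0` -/
noncomputable def cU6_1854 : CertX :=
  ⟨[k4,k6,k20,k36,k52,k64],[],[[[]]],
    [.old (.lp [k6,k4,k4,k4,k4,k4] [k0,k0,k1,k1,k1,k1,k1,k1,k1,k1,k1,k1] k0 [] k16 k5
    [[(k10,k5),(k1,k6)],[(k2,k5),(k3,k5)],[(k5,k4),(k0,k5)],[(k5,k4),(k0,k5)],[(k2,k4),(k3,k4)],[(k7,k4)],[(k4,k4)],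
    [(k9,k4)],[(k6,k4)],[(k11,k4)],[(k8,k4)],[(k10,k4),(k1,k5)]]
    [] k0
    []
    [])]⟩

/-- classes `0 0 1 2 3 4`, types `C0 C2 C0 C0 S0 C0` -/
noncomputable def cU6_1855 : CertX :=
  ⟨[k4,k6,k20,k36,k48,k68],[],[[[]]],
    [.old (.lp [k2,k2,k2,k2,k2,k2] [k0,k0,k0,k0,k0,k0,k0,k0,k0,k0,k0,k0] k0 [] k8 k5
    [[(k10,k2)],[(k2,k2),(k3,k2)],[(k0,k2),(k5,k2)],[(k0,k2),(k5,k2)],[(k2,k2),(k3,k2)],[(k7,k2)],[(k4,k2)],[(k9,k2)],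
    [(k6,k2)],[(k8,k2),(k11,k2)],[(k8,k2),(k11,k2)],[(k1,k2)]]
    [] k0
    []
    [])]⟩

/-- classes `0 0 1 2 3 4`, types `C0 C2 C0 C0 S0 S0` -/
noncomputable def cU6_1856 : CertX :=
  ⟨[k4,k6,k20,k36,k48,k64],[],[[[]]],
    [.old (.lp [k6,k4,k4,k4,k4,k8] [k1,k1,k2,k2,k2,k2,k2,k2,k2,k2,k0,k0] k0 [] k16 k5
    [[(k1,k6),(k10,k7)],[(k2,k5),(k3,k5)],[(k5,k4),(k0,k5)],[(k5,k4),(k0,k5)],[(k2,k4),(k3,k4)],[(k7,k4)],[(k4,k4)],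
    [(k9,k4)],[(k6,k4)],[(k8,k4),(k11,k6)],[(k8,k6),(k11,k8)],[(k1,k7),(k10,k8)]]
    [] k0
    []
    [])]⟩

/-- classes `0 0 1 2 3 4`, types `C0 C2 C0 S0 C0 S0` -/
noncomputable def cU6_1857 : CertX :=
  ⟨[k4,k6,k20,k32,k52,k64],[],[[[]]],
    [.old (.lp [k6,k4,k4,k4,k4,k4] [k0,k0,k1,k1,k1,k1,k1,k1,k1,k1,k1,k1] k0 [] k16 k5
    [[(k10,k5),(k1,k6)],[(k2,k5),(k3,k5)],[(k5,k4),(k0,k5)],[(k5,k4),(k0,k5)],[(k2,k4),(k3,k4)],[(k7,k4)],[(k4,k4)],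
    [(k6,k4),(k9,k4)],[(k6,k4),(k9,k4)],[(k11,k4)],[(k8,k4)],[(k10,k4),(k1,k5)]]
    [] k0
    []
    [])]⟩

/-- classes `0 0 1 2 3 4`, types `C0 C2 C0 S0 S0 C0` -/
noncomputable def cU6_1858 : CertX :=
  ⟨[k4,k6,k20,k32,k48,k68],[],[[[]]],
    [.old (.lp [k2,k2,k2,k2,k4,k2] [k1,k1,k1,k1,k1,k1,k1,k1,k0,k0,k1,k1] k0 [] k8 k5
    [[(k10,k2)],[(k2,k2),(k3,k2)],[(k0,k2),(k5,k2)],[(k0,k2),(k5,k2)],[(k2,k2),(k3,k2)],[(k7,k2)],[(k4,k2)],[(k6,k2),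
    (k9,k3)],[(k6,k3),(k9,k4)],[(k11,k3),(k8,k4)],[(k11,k2),(k8,k3)],[(k1,k2)]]
    [] k0
    []
    [])]⟩

/-- classes `0 0 1 2 3 4`, types `C0 C2 C0 S0 S0 S0` -/
noncomputable def cU6_1859 : CertX :=
  ⟨[k4,k6,k20,k32,k48,k64],[],[[[]]],
    [.old (.lp [k6,k4,k4,k4,k8,k4] [k1,k1,k2,k2,k2,k2,k2,k2,k0,k0,k2,k2] k0 [] k16 k5
    [[(k10,k5),(k1,k6)],[(k2,k5),(k3,k5)],[(k5,k4),(k0,k5)],[(k5,k4),(k0,k5)],[(k2,k4),(k3,k4)],[(k7,k4)],[(k4,k4)],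
    [(k6,k4),(k9,k6)],[(k6,k6),(k9,k8)],[(k11,k6),(k8,k8)],[(k11,k4),(k8,k6)],[(k10,k4),(k1,k5)]]
    [] k0
    [[k0,k0,k0,k0,k0,k2]]
    [.contra [z1]])]⟩

/-- classes `0 0 1 2 3 4`, types `C0 C2 S0 C0 C0 S0` -/
noncomputable def cU6_1860 : CertX :=
  ⟨[k4,k6,k16,k36,k52,k64],[],[[[]]],
    [.old (.lp [k4,k0,k4,k2,k2,k2] [k0,k0,k2,k2,k0,k0,k1,k1,k1,k1,k1,k1] k0 [] k8 k5
    [[(k10,k3),(k1,k4)],[(k2,k2),(k3,k2)],[(k0,k2),(k5,k2)],[(k0,k2),(k5,k2)],[(k2,k2),(k3,k2)],[(k7,k3),(k4,k4)],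
    [(k7,k2),(k4,k3)],[(k9,k2)],[(k6,k2)],[(k11,k2)],[(k8,k2)],[(k10,k2),(k1,k3)]]
    [] k0
    []
    [])]⟩

/-- classes `0 0 1 2 3 4`, types `C0 C2 S0 C0 S0 S0` -/
noncomputable def cU6_1861 : CertX :=
  ⟨[k4,k6,k16,k36,k48,k64],[],[[[]]],
    [.old (.lp [k4,k0,k4,k2,k2,k2] [k0,k0,k2,k2,k0,k0,k1,k1,k1,k1,k1,k1] k0 [] k8 k5
    [[(k10,k3),(k1,k4)],[(k2,k2),(k3,k2)],[(k0,k2),(k5,k2)],[(k0,k2),(k5,k2)],[(k2,k2),(k3,k2)],[(k7,k3),(k4,k4)],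
    [(k7,k2),(k4,k3)],[(k9,k2)],[(k6,k2)],[(k8,k2),(k11,k2)],[(k8,k2),(k11,k2)],[(k10,k2),(k1,k3)]]
    [] k0
    [[k0,k0,k0,k0,k0,k2]]
    [.contra [z1]])]⟩

/-- classes `0 0 1 2 3 4`, types `C0 C2 S0 S0 S0 S0` -/
noncomputable def cU6_1862 : CertX :=
  ⟨[k4,k6,k16,k32,k48,k64],[],[[[]]],
    [.old (.lp [k2,k4,k2,k2,k2,k2] [k1,k1,k0,k0,k1,k1,k1,k1,k1,k1,k1,k1] k0 [] k8 k5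
    [[(k1,k2),(k10,k2)],[(k2,k3),(k3,k3)],[(k0,k3),(k5,k3)],[(k0,k3),(k5,k3)],[(k2,k3),(k3,k3)],[(k4,k2),(k7,k2)],
    [(k4,k2),(k7,k2)],[(k6,k2),(k9,k2)],[(k6,k2),(k9,k2)],[(k8,k2),(k11,k2)],[(k8,k2),(k11,k2)],[(k1,k2),(k10,k2)]]
    [] k0
    [[k0,k0,k0,k2,k0,k0],[k0,k0,k0,k0,k2,k0],[k0,k0,k0,k0,k0,k2]]
    [.contra [z1],.contra [z1],.contra [z1]])]⟩

/-- classes `0 0 1 2 3 4`, types `N0 N1 C0 C0 C0 C0` -/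
noncomputable def cU6_1863 : CertX :=
  ⟨[k12,k13,k20,k36,k52,k68],[],[[[]]],
    [.old (.lp [k2,k4,k2,k2,k2,k2] [k1,k1,k0,k0,k1,k1,k1,k1,k1,k1,k1,k1] k0 [] k8 k5
    [[(k10,k2)],[(k5,k2)],[(k2,k4)],[(k3,k4)],[(k0,k2)],[(k7,k2)],[(k4,k2)],[(k9,k2)],[(k6,k2)],[(k11,k2)],[(k8,k2)],
    [(k1,k2)]]
    [] k0
    []
    [])]⟩

/-- classes `0 0 1 2 3 4`, types `N0 N1 C0 C0 C0 S0` -/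
noncomputable def cU6_1864 : CertX :=
  ⟨[k12,k13,k20,k36,k52,k64],[],[[[]]],
    [.old (.lp [k2,k4,k2,k2,k2,k2] [k1,k1,k0,k0,k1,k1,k1,k1,k1,k1,k1,k1] k0 [] k8 k5
    [[(k1,k2),(k10,k2)],[(k5,k2)],[(k2,k4)],[(k3,k4)],[(k0,k2)],[(k7,k2)],[(k4,k2)],[(k9,k2)],[(k6,k2)],[(k11,k2)],
    [(k8,k2)],[(k1,k2),(k10,k2)]]
    [] k0
    []
    [])]⟩

/-- classes `0 0 1 2 3 4`, types `N0 N1 C0 C0 S0 C0` -/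
noncomputable def cU6_1865 : CertX :=
  ⟨[k12,k13,k20,k36,k48,k68],[],[[[]]],
    [.old (.lp [k2,k4,k2,k2,k2,k2] [k1,k1,k0,k0,k1,k1,k1,k1,k1,k1,k1,k1] k0 [] k8 k5
    [[(k10,k2)],[(k5,k2)],[(k2,k4)],[(k3,k4)],[(k0,k2)],[(k7,k2)],[(k4,k2)],[(k9,k2)],[(k6,k2)],[(k8,k2),(k11,k2)],
    [(k8,k2),(k11,k2)],[(k1,k2)]]
    [] k0
    []
    [])]⟩

/-- classes `0 0 1 2 3 4`, types `N0 N1 C0 C0 S0 S0` -/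
noncomputable def cU6_1866 : CertX :=
  ⟨[k12,k13,k20,k36,k48,k64],[],[[[]]],
    [.old (.lp [k6,k8,k6,k6,k6,k12] [k3,k3,k2,k2,k3,k3,k3,k3,k3,k3,k0,k0] k0 [] k24 k5
    [[(k1,k6),(k10,k9)],[(k5,k6)],[(k2,k8)],[(k3,k8)],[(k0,k6)],[(k7,k6)],[(k4,k6)],[(k9,k6)],[(k6,k6)],[(k8,k6),(k11,
    k9)],[(k8,k9),(k11,k12)],[(k1,k9),(k10,k12)]]
    [] k0
    [[k0,k2,k0,k0,k0,k0]]
    [.contra [z1]])]⟩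

/-- classes `0 0 1 2 3 4`, types `N0 N1 C0 S0 C0 S0` -/
noncomputable def cU6_1867 : CertX :=
  ⟨[k12,k13,k20,k32,k52,k64],[],[[[]]],
    [.old (.lp [k2,k4,k2,k2,k2,k2] [k1,k1,k0,k0,k1,k1,k1,k1,k1,k1,k1,k1] k0 [] k8 k5
    [[(k1,k2),(k10,k2)],[(k5,k2)],[(k2,k4)],[(k3,k4)],[(k0,k2)],[(k7,k2)],[(k4,k2)],[(k6,k2),(k9,k2)],[(k6,k2),(k9,
    k2)],[(k11,k2)],[(k8,k2)],[(k1,k2),(k10,k2)]]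
    [] k0
    []
    [])]⟩

/-- classes `0 0 1 2 3 4`, types `N0 N1 C0 S0 S0 C0` -/
noncomputable def cU6_1868 : CertX :=
  ⟨[k12,k13,k20,k32,k48,k68],[],[[[]]],
    [.old (.lp [k6,k8,k6,k6,k12,k6] [k3,k3,k2,k2,k3,k3,k3,k3,k0,k0,k3,k3] k0 [] k24 k5
    [[(k10,k6)],[(k5,k6)],[(k2,k8)],[(k3,k8)],[(k0,k6)],[(k7,k6)],[(k4,k6)],[(k6,k6),(k9,k9)],[(k6,k9),(k9,k12)],
    [(k11,k9),(k8,k12)],[(k11,k6),(k8,k9)],[(k1,k6)]]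
    [] k0
    [[k0,k2,k0,k0,k0,k0]]
    [.contra [z1]])]⟩

/-- classes `0 0 1 2 3 4`, types `N0 N1 C0 S0 S0 S0` -/
noncomputable def cU6_1869 : CertX :=
  ⟨[k12,k13,k20,k32,k48,k64],[],[[[]]],
    [.old (.lp [k6,k8,k6,k6,k12,k6] [k3,k3,k2,k2,k3,k3,k3,k3,k0,k0,k3,k3] k0 [] k24 k5
    [[(k1,k6),(k10,k6)],[(k5,k6)],[(k2,k8)],[(k3,k8)],[(k0,k6)],[(k7,k6)],[(k4,k6)],[(k6,k6),(k9,k9)],[(k6,k9),(k9,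
    k12)],[(k11,k9),(k8,k12)],[(k11,k6),(k8,k9)],[(k1,k6),(k10,k6)]]
    [] k0
    [[k0,k2,k0,k0,k0,k0],[k0,k0,k0,k0,k0,k2]]
    [.contra [z1],.contra [z1]])]⟩

/-- classes `0 0 1 2 3 4`, types `N0 N1 S0 C0 C0 S0` -/
noncomputable def cU6_1870 : CertX :=
  ⟨[k12,k13,k16,k36,k52,k64],[],[[[]]],
    [.old (.lp [k2,k4,k2,k2,k2,k2] [k1,k1,k0,k0,k1,k1,k1,k1,k1,k1,k1,k1] k0 [] k8 k5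
    [[(k1,k2),(k10,k2)],[(k5,k2)],[(k2,k4)],[(k3,k4)],[(k0,k2)],[(k4,k2),(k7,k2)],[(k4,k2),(k7,k2)],[(k9,k2)],[(k6,
    k2)],[(k11,k2)],[(k8,k2)],[(k1,k2),(k10,k2)]]
    [] k0
    []
    [])]⟩

/-- classes `0 0 1 2 3 4`, types `N0 N1 S0 C0 S0 S0` -/
noncomputable def cU6_1871 : CertX :=
  ⟨[k12,k13,k16,k36,k48,k64],[],[[[]]],
    [.old (.lp [k2,k4,k2,k2,k2,k2] [k1,k1,k0,k0,k1,k1,k1,k1,k1,k1,k1,k1] k0 [] k8 k5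
    [[(k1,k2),(k10,k2)],[(k5,k2)],[(k2,k4)],[(k3,k4)],[(k0,k2)],[(k4,k2),(k7,k2)],[(k4,k2),(k7,k2)],[(k9,k2)],[(k6,
    k2)],[(k8,k2),(k11,k2)],[(k8,k2),(k11,k2)],[(k1,k2),(k10,k2)]]
    [] k0
    [[k0,k0,k0,k0,k0,k2]]
    [.contra [z1]])]⟩

/-- classes `0 0 1 2 3 4`, types `N0 N1 S0 S0 S0 S0` -/
noncomputable def cU6_1872 : CertX :=
  ⟨[k12,k13,k16,k32,k48,k64],[],[[[]]],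
    [.old (.lp [k2,k4,k2,k2,k2,k2] [k1,k1,k0,k0,k1,k1,k1,k1,k1,k1,k1,k1] k0 [] k8 k5
    [[(k1,k2),(k10,k2)],[(k5,k2)],[(k2,k4)],[(k3,k4)],[(k0,k2)],[(k4,k2),(k7,k2)],[(k4,k2),(k7,k2)],[(k6,k2),(k9,k2)],
    [(k6,k2),(k9,k2)],[(k8,k2),(k11,k2)],[(k8,k2),(k11,k2)],[(k1,k2),(k10,k2)]]
    [] k0
    [[k0,k0,k0,k2,k0,k0],[k0,k0,k0,k0,k2,k0],[k0,k0,k0,k0,k0,k2]]
    [.contra [z1],.contra [z1],.contra [z1]])]⟩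

/-- classes `0 0 1 2 3 4`, types `N0 N2 C0 C0 C0 C0` -/
noncomputable def cU6_1873 : CertX :=
  ⟨[k12,k14,k20,k36,k52,k68],[],[[[]]],
    [.old (.lp [k0,k2,k0,k2,k0,k2] [k1,k1,k0,k0,k1,k1,k0,k0,k1,k1,k0,k0] k0 [] k4 k5
    [[(k10,k1)],[(k2,k1)],[(k5,k1)],[(k0,k1)],[(k3,k1)],[(k7,k1)],[(k4,k1)],[(k9,k1)],[(k6,k1)],[(k11,k1)],[(k8,k1)],
    [(k1,k1)]]
    [] k0
    []
    [])]⟩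

/-- classes `0 0 1 2 3 4`, types `N0 N2 C0 C0 C0 S0` -/
noncomputable def cU6_1874 : CertX :=
  ⟨[k12,k14,k20,k36,k52,k64],[],[[[]]],
    [.old (.lp [k2,k2,k2,k2,k2,k2] [k0,k0,k0,k0,k0,k0,k0,k0,k0,k0,k0,k0] k0 [] k8 k5
    [[(k1,k2),(k10,k2)],[(k2,k2)],[(k5,k2)],[(k0,k2)],[(k3,k2)],[(k7,k2)],[(k4,k2)],[(k9,k2)],[(k6,k2)],[(k11,k2)],
    [(k8,k2)],[(k1,k2),(k10,k2)]]
    [] k0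
    []
    [])]⟩

/-- classes `0 0 1 2 3 4`, types `N0 N2 C0 C0 S0 C0` -/
noncomputable def cU6_1875 : CertX :=
  ⟨[k12,k14,k20,k36,k48,k68],[],[[[]]],
    [.old (.lp [k2,k2,k2,k2,k2,k2] [k0,k0,k0,k0,k0,k0,k0,k0,k0,k0,k0,k0] k0 [] k8 k5
    [[(k10,k2)],[(k2,k2)],[(k5,k2)],[(k0,k2)],[(k3,k2)],[(k7,k2)],[(k4,k2)],[(k9,k2)],[(k6,k2)],[(k8,k2),(k11,k2)],
    [(k8,k2),(k11,k2)],[(k1,k2)]]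
    [] k0
    []
    [])]⟩

/-- classes `0 0 1 2 3 4`, types `N0 N2 C0 C0 S0 S0` -/
noncomputable def cU6_1876 : CertX :=
  ⟨[k12,k14,k20,k36,k48,k64],[],[[[]]],
    [.old (.lp [k2,k2,k2,k2,k2,k4] [k1,k1,k1,k1,k1,k1,k1,k1,k1,k1,k0,k0] k0 [] k8 k5
    [[(k1,k2),(k10,k3)],[(k2,k2)],[(k5,k2)],[(k0,k2)],[(k3,k2)],[(k7,k2)],[(k4,k2)],[(k9,k2)],[(k6,k2)],[(k8,k2),(k11,
    k3)],[(k8,k3),(k11,k4)],[(k1,k3),(k10,k4)]]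
    [] k0
    []
    [])]⟩

/-- classes `0 0 1 2 3 4`, types `N0 N2 C0 S0 C0 S0` -/
noncomputable def cU6_1877 : CertX :=
  ⟨[k12,k14,k20,k32,k52,k64],[],[[[]]],
    [.old (.lp [k2,k2,k2,k2,k2,k2] [k0,k0,k0,k0,k0,k0,k0,k0,k0,k0,k0,k0] k0 [] k8 k5
    [[(k1,k2),(k10,k2)],[(k2,k2)],[(k5,k2)],[(k0,k2)],[(k3,k2)],[(k7,k2)],[(k4,k2)],[(k6,k2),(k9,k2)],[(k6,k2),(k9,
    k2)],[(k11,k2)],[(k8,k2)],[(k1,k2),(k10,k2)]]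
    [] k0
    []
    [])]⟩

/-- classes `0 0 1 2 3 4`, types `N0 N2 C0 S0 S0 C0` -/
noncomputable def cU6_1878 : CertX :=
  ⟨[k12,k14,k20,k32,k48,k68],[],[[[]]],
    [.old (.lp [k2,k2,k2,k2,k4,k2] [k1,k1,k1,k1,k1,k1,k1,k1,k0,k0,k1,k1] k0 [] k8 k5
    [[(k10,k2)],[(k2,k2)],[(k5,k2)],[(k0,k2)],[(k3,k2)],[(k7,k2)],[(k4,k2)],[(k6,k2),(k9,k3)],[(k6,k3),(k9,k4)],[(k11,
    k3),(k8,k4)],[(k11,k2),(k8,k3)],[(k1,k2)]]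
    [] k0
    []
    [])]⟩

/-- classes `0 0 1 2 3 4`, types `N0 N2 C0 S0 S0 S0` -/
noncomputable def cU6_1879 : CertX :=
  ⟨[k12,k14,k20,k32,k48,k64],[],[[[]]],
    [.old (.lp [k2,k2,k2,k2,k4,k2] [k1,k1,k1,k1,k1,k1,k1,k1,k0,k0,k1,k1] k0 [] k8 k5
    [[(k1,k2),(k10,k2)],[(k2,k2)],[(k5,k2)],[(k0,k2)],[(k3,k2)],[(k7,k2)],[(k4,k2)],[(k6,k2),(k9,k3)],[(k6,k3),(k9,
    k4)],[(k11,k3),(k8,k4)],[(k11,k2),(k8,k3)],[(k1,k2),(k10,k2)]]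
    [] k0
    [[k0,k0,k0,k0,k0,k2]]
    [.contra [z1]])]⟩

/-- classes `0 0 1 2 3 4`, types `N0 N2 S0 C0 C0 S0` -/
noncomputable def cU6_1880 : CertX :=
  ⟨[k12,k14,k16,k36,k52,k64],[],[[[]]],
    [.old (.lp [k2,k2,k2,k2,k2,k2] [k0,k0,k0,k0,k0,k0,k0,k0,k0,k0,k0,k0] k0 [] k8 k5
    [[(k1,k2),(k10,k2)],[(k2,k2)],[(k5,k2)],[(k0,k2)],[(k3,k2)],[(k4,k2),(k7,k2)],[(k4,k2),(k7,k2)],[(k9,k2)],[(k6,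
    k2)],[(k11,k2)],[(k8,k2)],[(k1,k2),(k10,k2)]]
    [] k0
    []
    [])]⟩

/-- classes `0 0 1 2 3 4`, types `N0 N2 S0 C0 S0 S0` -/
noncomputable def cU6_1881 : CertX :=
  ⟨[k12,k14,k16,k36,k48,k64],[],[[[]]],
    [.old (.lp [k2,k2,k2,k2,k2,k4] [k1,k1,k1,k1,k1,k1,k1,k1,k1,k1,k0,k0] k0 [] k8 k5
    [[(k1,k2),(k10,k3)],[(k2,k2)],[(k5,k2)],[(k0,k2)],[(k3,k2)],[(k4,k2),(k7,k2)],[(k4,k2),(k7,k2)],[(k9,k2)],[(k6,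
    k2)],[(k8,k2),(k11,k3)],[(k8,k3),(k11,k4)],[(k1,k3),(k10,k4)]]
    [] k0
    []
    [])]⟩

/-- classes `0 0 1 2 3 4`, types `N0 N2 S0 S0 S0 S0` -/
noncomputable def cU6_1882 : CertX :=
  ⟨[k12,k14,k16,k32,k48,k64],[],[[[]]],
    [.old (.lp [k2,k2,k2,k4,k2,k2] [k1,k1,k1,k1,k1,k1,k0,k0,k1,k1,k1,k1] k0 [] k8 k5
    [[(k1,k2),(k10,k2)],[(k2,k2)],[(k5,k2)],[(k0,k2)],[(k3,k2)],[(k4,k2),(k7,k3)],[(k4,k3),(k7,k4)],[(k9,k3),(k6,k4)],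
    [(k9,k2),(k6,k3)],[(k8,k2),(k11,k2)],[(k8,k2),(k11,k2)],[(k1,k2),(k10,k2)]]
    [] k0
    [[k0,k0,k0,k0,k2,k0],[k0,k0,k0,k0,k0,k2]]
    [.contra [z1],.contra [z1]])]⟩

/-- classes `0 0 1 2 3 4`, types `S0 S0 C0 C0 C0 C0` -/
noncomputable def cU6_1883 : CertX :=
  ⟨[k0,k0,k20,k36,k52,k68],[],[[[]]],
    [.old (.lp [k2,k4,k2,k2,k2,k2] [k1,k1,k0,k0,k1,k1,k1,k1,k1,k1,k1,k1] k0 [] k8 k5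
    [[(k10,k2)],[(k0,k2),(k5,k2),(k2,k3),(k3,k3)],[(k0,k3),(k5,k3),(k2,k4),(k3,k4)],[(k0,k3),(k5,k3),(k2,k4),(k3,k4)],
    [(k0,k2),(k5,k2),(k2,k3),(k3,k3)],[(k7,k2)],[(k4,k2)],[(k9,k2)],[(k6,k2)],[(k11,k2)],[(k8,k2)],[(k1,k2)]]
    [] k0
    []
    [])]⟩

/-- classes `0 0 1 2 3 4`, types `S0 S0 C0 C0 C0 S0` -/
noncomputable def cU6_1884 : CertX :=
  ⟨[k0,k0,k20,k36,k52,k64],[],[[[]]],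
    [.old (.lp [k2,k4,k2,k2,k2,k2] [k1,k1,k0,k0,k1,k1,k1,k1,k1,k1,k1,k1] k0 [] k8 k5
    [[(k1,k2),(k10,k2)],[(k0,k2),(k5,k2),(k2,k3),(k3,k3)],[(k0,k3),(k5,k3),(k2,k4),(k3,k4)],[(k0,k3),(k5,k3),(k2,k4),
    (k3,k4)],[(k0,k2),(k5,k2),(k2,k3),(k3,k3)],[(k7,k2)],[(k4,k2)],[(k9,k2)],[(k6,k2)],[(k11,k2)],[(k8,k2)],[(k1,k2),
    (k10,k2)]]
    [] k0
    [[k2,k0,k0,k0,k0,k0]]
    [.contra [z1]])]⟩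

/-- classes `0 0 1 2 3 4`, types `S0 S0 C0 C0 S0 C0` -/
noncomputable def cU6_1885 : CertX :=
  ⟨[k0,k0,k20,k36,k48,k68],[],[[[]]],
    [.old (.lp [k2,k4,k2,k2,k2,k2] [k1,k1,k0,k0,k1,k1,k1,k1,k1,k1,k1,k1] k0 [] k8 k5
    [[(k10,k2)],[(k0,k2),(k5,k2),(k2,k3),(k3,k3)],[(k0,k3),(k5,k3),(k2,k4),(k3,k4)],[(k0,k3),(k5,k3),(k2,k4),(k3,k4)],
    [(k0,k2),(k5,k2),(k2,k3),(k3,k3)],[(k7,k2)],[(k4,k2)],[(k9,k2)],[(k6,k2)],[(k8,k2),(k11,k2)],[(k8,k2),(k11,k2)],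
    [(k1,k2)]]
    [] k0
    []
    [])]⟩

/-- classes `0 0 1 2 3 4`, types `S0 S0 C0 C0 S0 S0` -/
noncomputable def cU6_1886 : CertX :=
  ⟨[k0,k0,k20,k36,k48,k64],[],[[[]]],
    [.old (.lp [k12,k8,k6,k6,k6,k6] [k0,k0,k2,k2,k3,k3,k3,k3,k3,k3,k3,k3] k0 [] k24 k5
    [[(k10,k9),(k1,k12)],[(k5,k9),(k2,k10),(k3,k10),(k0,k12)],[(k5,k7),(k2,k8),(k3,k8),(k0,k10)],[(k5,k7),(k2,k8),(k3,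
    k8),(k0,k10)],[(k5,k6),(k2,k7),(k3,k7),(k0,k9)],[(k7,k6)],[(k4,k6)],[(k9,k6)],[(k6,k6)],[(k8,k6),(k11,k6)],[(k8,
    k6),(k11,k6)],[(k10,k6),(k1,k9)]]
    [] k0
    [[k0,k2,k0,k0,k0,k0],[k0,k0,k0,k0,k0,k2]]
    [.contra [z1],.contra [z1]])]⟩

/-- classes `0 0 1 2 3 4`, types `S0 S0 C0 S0 C0 S0` -/
noncomputable def cU6_1887 : CertX :=
  ⟨[k0,k0,k20,k32,k52,k64],[],[[[]]],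
    [.old (.lp [k12,k8,k6,k6,k6,k6] [k0,k0,k2,k2,k3,k3,k3,k3,k3,k3,k3,k3] k0 [] k24 k5
    [[(k10,k9),(k1,k12)],[(k5,k9),(k2,k10),(k3,k10),(k0,k12)],[(k5,k7),(k2,k8),(k3,k8),(k0,k10)],[(k5,k7),(k2,k8),(k3,
    k8),(k0,k10)],[(k5,k6),(k2,k7),(k3,k7),(k0,k9)],[(k7,k6)],[(k4,k6)],[(k6,k6),(k9,k6)],[(k6,k6),(k9,k6)],[(k11,
    k6)],[(k8,k6)],[(k10,k6),(k1,k9)]]
    [] k0
    [[k0,k2,k0,k0,k0,k0]]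
    [.contra [z1]])]⟩

/-- classes `0 0 1 2 3 4`, types `S0 S0 C0 S0 S0 C0` -/
noncomputable def cU6_1888 : CertX :=
  ⟨[k0,k0,k20,k32,k48,k68],[],[[[]]],
    [.old (.lp [k2,k4,k2,k2,k2,k2] [k1,k1,k0,k0,k1,k1,k1,k1,k1,k1,k1,k1] k0 [] k8 k5
    [[(k10,k2)],[(k0,k2),(k5,k2),(k2,k3),(k3,k3)],[(k0,k3),(k5,k3),(k2,k4),(k3,k4)],[(k0,k3),(k5,k3),(k2,k4),(k3,k4)],
    [(k0,k2),(k5,k2),(k2,k3),(k3,k3)],[(k7,k2)],[(k4,k2)],[(k6,k2),(k9,k2)],[(k6,k2),(k9,k2)],[(k8,k2),(k11,k2)],[(k8,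
    k2),(k11,k2)],[(k1,k2)]]
    [] k0
    [[k0,k0,k0,k0,k2,k0]]
    [.contra [z1]])]⟩

/-- classes `0 0 1 2 3 4`, types `S0 S0 C0 S0 S0 S0` -/
noncomputable def cU6_1889 : CertX :=
  ⟨[k0,k0,k20,k32,k48,k64],[],[[[]]],
    [.old (.lp [k12,k8,k6,k6,k6,k6] [k0,k0,k2,k2,k3,k3,k3,k3,k3,k3,k3,k3] k0 [] k24 k5
    [[(k10,k9),(k1,k12)],[(k5,k9),(k2,k10),(k3,k10),(k0,k12)],[(k5,k7),(k2,k8),(k3,k8),(k0,k10)],[(k5,k7),(k2,k8),(k3,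
    k8),(k0,k10)],[(k5,k6),(k2,k7),(k3,k7),(k0,k9)],[(k7,k6)],[(k4,k6)],[(k6,k6),(k9,k6)],[(k6,k6),(k9,k6)],[(k8,k6),
    (k11,k6)],[(k8,k6),(k11,k6)],[(k10,k6),(k1,k9)]]
    [] k0
    [[k0,k2,k0,k0,k0,k0],[k0,k0,k0,k0,k2,k0],[k0,k0,k0,k0,k0,k2]]
    [.contra [z1],.contra [z1],.contra [z1]])]⟩

/-- classes `0 0 1 2 3 4`, types `S0 S0 S0 C0 C0 S0` -/
noncomputable def cU6_1890 : CertX :=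
  ⟨[k0,k0,k16,k36,k52,k64],[],[[[]]],
    [.old (.lp [k12,k8,k6,k6,k6,k6] [k0,k0,k2,k2,k3,k3,k3,k3,k3,k3,k3,k3] k0 [[k0,k0,k0,k4],[],[k0,k4]] k24 k5
    [[(k10,k9),(k1,k12)],[(k2,k6),(k5,k9),(k3,k10),(k0,k12)],[(k2,k8),(k3,k8),(k0,k10),(k5,k11)],[(k0,k6),(k5,k7),(k2,
    k8),(k3,k8)],[(k5,k6),(k2,k7),(k0,k9),(k3,k11)],[(k4,k6),(k7,k6)],[(k4,k6),(k7,k6)],[(k9,k6)],[(k6,k6)],[(k11,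
    k6)],[(k8,k6)],[(k10,k6),(k1,k9)]]
    [] k0
    [[k0,k2,k0,k0,k0,k0],[k0,k0,k2,k0,k0,k0]]
    [.contra [z1],.contra [z1]])]⟩

/-- classes `0 0 1 2 3 4`, types `S0 S0 S0 C0 S0 S0` -/
noncomputable def cU6_1891 : CertX :=
  ⟨[k0,k0,k16,k36,k48,k64],[],[[[]]],
    [.old (.lp [k12,k8,k6,k6,k6,k6] [k0,k0,k2,k2,k3,k3,k3,k3,k3,k3,k3,k3] k0 [[k0,k0,k0,k4],[],[k0,k4]] k24 k5
    [[(k10,k9),(k1,k12)],[(k2,k6),(k5,k9),(k3,k10),(k0,k12)],[(k2,k8),(k3,k8),(k0,k10),(k5,k11)],[(k0,k6),(k5,k7),(k2,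
    k8),(k3,k8)],[(k5,k6),(k2,k7),(k0,k9),(k3,k11)],[(k4,k6),(k7,k6)],[(k4,k6),(k7,k6)],[(k9,k6)],[(k6,k6)],[(k8,k6),
    (k11,k6)],[(k8,k6),(k11,k6)],[(k10,k6),(k1,k9)]]
    [] k0
    [[k0,k2,k0,k0,k0,k0],[k0,k0,k2,k0,k0,k0],[k0,k0,k0,k0,k0,k2]]
    [.contra [z1],.contra [z1],.contra [z1]])]⟩

/-- the certificates of this file -/
noncomputable def lU6_31 : List CertX :=
  [cU6_1729, cU6_1730, cU6_1731, cU6_1732, cU6_1733, cU6_1734, cU6_1735, cU6_1736, cU6_1737, cU6_1738,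
      cU6_1739, cU6_1740, cU6_1741, cU6_1742, cU6_1743, cU6_1744, cU6_1745, cU6_1746, cU6_1747, cU6_1748,
      cU6_1749, cU6_1750, cU6_1751, cU6_1752, cU6_1753, cU6_1754, cU6_1755, cU6_1756, cU6_1757, cU6_1758,
      cU6_1759, cU6_1760, cU6_1761, cU6_1762, cU6_1763, cU6_1764, cU6_1765, cU6_1766, cU6_1767, cU6_1768,
      cU6_1769, cU6_1770, cU6_1771, cU6_1772, cU6_1773, cU6_1774, cU6_1775, cU6_1776, cU6_1777, cU6_1778,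
      cU6_1779, cU6_1780, cU6_1781, cU6_1782, cU6_1783, cU6_1784, cU6_1785, cU6_1786, cU6_1787, cU6_1788,
      cU6_1789, cU6_1790, cU6_1791, cU6_1792, cU6_1793, cU6_1794, cU6_1795, cU6_1796, cU6_1797, cU6_1798,
      cU6_1799, cU6_1800, cU6_1801, cU6_1802, cU6_1803, cU6_1804, cU6_1805, cU6_1806, cU6_1807, cU6_1808,
      cU6_1809, cU6_1810, cU6_1811, cU6_1812, cU6_1813, cU6_1814, cU6_1815, cU6_1816, cU6_1817, cU6_1818,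
      cU6_1819, cU6_1820, cU6_1821, cU6_1822, cU6_1823, cU6_1824, cU6_1825, cU6_1826, cU6_1827, cU6_1828,
      cU6_1829, cU6_1830, cU6_1831, cU6_1832, cU6_1833, cU6_1834, cU6_1835, cU6_1836, cU6_1837, cU6_1838,
      cU6_1839, cU6_1840, cU6_1841, cU6_1842, cU6_1843, cU6_1844, cU6_1845, cU6_1846, cU6_1847, cU6_1848,
      cU6_1849, cU6_1850, cU6_1851, cU6_1852, cU6_1853, cU6_1854, cU6_1855, cU6_1856, cU6_1857, cU6_1858,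
      cU6_1859, cU6_1860, cU6_1861, cU6_1862, cU6_1863, cU6_1864, cU6_1865, cU6_1866, cU6_1867, cU6_1868,
      cU6_1869, cU6_1870, cU6_1871, cU6_1872, cU6_1873, cU6_1874, cU6_1875, cU6_1876, cU6_1877, cU6_1878,
      cU6_1879, cU6_1880, cU6_1881, cU6_1882, cU6_1883, cU6_1884, cU6_1885, cU6_1886, cU6_1887, cU6_1888,
      cU6_1889, cU6_1890, cU6_1891]

theorem gU6_31 : allF (chkE 6 ttU6) lU6_31 = true := by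
  decide +kernel

end Pool.Agent.Lib_MP_fa6e45
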