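import Pool.Agent.Lib_MP_fa6e45.CXT
import Pool.Agent.Lib_MP_fa6e45.HK

/-!
MP_fa6e45_co, stage 7: certificates (generated by a program).
-/

namespace Pool.Agent.Lib_MP_fa6e45

/-- classes `0 1 0 1 0 1`, types `C0 C0 C0 C0 C0 C0` -/
noncomputable def cU6_1892 : CertX :=
  ⟨[k4,k20,k4,k20,k4,k20],[(false,k5,[k5,k0,k1,k2,k3,k4]),(false,k0,[k0,k1,k2,k3,k4,k5]),(false,k3,[k3,k4,k5,k0,k1,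
    k2]),(false,k2,[k2,k3,k4,k5,k0,k1]),(false,k1,[k1,k2,k3,k4,k5,k0]),(false,k4,[k4,k5,k0,k1,k2,k3])],[[[([z1,z0,z0,
    z0,z0,z1],z2)],[([z1,z0,z0,z0,z0,z1],z1),([z0,z1,z0,z0,z1,z0],z2)],[([z1,z0,z0,z1,z0,z0],z2)],[]]],
    [.old (.leafM k0 [k1,k2,k3,k4] [] [(k5,k0,z1,[z1]),(k0,k5,z1,[z1])]),
    .old (.leafM k4 [k0,k2,k3,k5] [(z1,[y1,y1,z1])] [(k1,k4,z1,[z0,z1]),(k4,k1,z1,[z0,z1])]),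
    .old (.lp [k10,k12,k0,k14,k0,k10] [k2,k2,k1,k1,k7,k7,k0,k0,k7,k7,k2,k2] k0 [[k0,k0,k0,k0,k0,k0,k0,k0,k2],[],[k0,k0,k0,
    k0,k0,k0,k0,k0,k0,k0,k4],[],[],[],[],[],[],[k0,k2],[],[k0,k0,k0,k4]] k24 k6
    [[(k2,k7),(k10,k10),(k6,k12)],[(k11,k8),(k3,k11),(k7,k12)],[(k4,k6),(k8,k8),(k0,k11)],[(k5,k6),(k9,k6),(k1,k7)],
    [(k2,k6),(k6,k7),(k10,k9)],[(k11,k5),(k3,k6),(k7,k7)],[(k4,k7),(k8,k7),(k0,k12)],[(k5,k7),(k9,k7),(k1,k12)],[(k10,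
    k5),(k2,k6),(k6,k7)],[(k11,k5),(k7,k7),(k3,k8)],[(k4,k5),(k8,k5),(k0,k8)],[(k9,k5),(k5,k9),(k1,k10)]]
    [] k0
    [[k1,k1,k0,k0,k0,k0],[k1,k0,k0,k0,k0,k1],[k0,k1,k1,k0,k0,k0],[k0,k1,k0,k0,k1,k0],[k0,k0,k1,k1,k0,k0],[k0,k0,k1,k0,
    k0,k1],[k0,k0,k0,k1,k1,k0],[k0,k0,k0,k0,k1,k1],[k0,k0,k0,k0,k2,k2]]
    [.ref k0 k0 [(z1,[z1])],.ref k0 k1 [(z1,[z1])],.contra [y1,y1,z1],.contra [y1,y1,z1],.ref k0 k2 [(z1,[z1])],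
    .contra [y1,y1,z1],.ref k0 k3 [(z1,[z1])],.contra [y1,y1,z1],.ref k1 k4 [(z2,[z1]),(z1,[z0,z1])]]),
    .old (.lp [k0,k2,k0,k2,k0,k2] [k1,k1,k0,k0,k1,k1,k0,k0,k1,k1,k0,k0] k0 [] k4 k5
    [[(k2,k1),(k6,k1),(k10,k1)],[(k3,k1),(k7,k1),(k11,k1)],[(k0,k1),(k4,k1),(k8,k1)],[(k1,k1),(k5,k1),(k9,k1)],[(k2,
    k1),(k6,k1),(k10,k1)],[(k3,k1),(k7,k1),(k11,k1)],[(k0,k1),(k4,k1),(k8,k1)],[(k1,k1),(k5,k1),(k9,k1)],[(k2,k1),(k6,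
    k1),(k10,k1)],[(k3,k1),(k7,k1),(k11,k1)],[(k0,k1),(k4,k1),(k8,k1)],[(k1,k1),(k5,k1),(k9,k1)]]
    [] k0
    [[k1,k1,k0,k0,k0,k0],[k1,k0,k0,k1,k0,k0],[k1,k0,k0,k0,k0,k1],[k0,k1,k1,k0,k0,k0],[k0,k1,k0,k0,k1,k0],[k0,k0,k1,k1,
    k0,k0],[k0,k0,k1,k0,k0,k1],[k0,k0,k0,k1,k1,k0],[k0,k0,k0,k0,k1,k1]]
    [.ref k0 k0 [(z1,[z1])],.ref k2 k1 [(z1,[z1])],.ref k0 k1 [(z1,[z1])],.ref k0 k5 [(z1,[z1])],.ref k2 k3 [(z1,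
    [z1])],.ref k0 k2 [(z1,[z1])],.ref k2 k4 [(z1,[z1])],.ref k0 k3 [(z1,[z1])],.ref k0 k4 [(z1,[z1])]])]⟩

/-- classes `0 1 0 1 0 1`, types `C0 C0 C0 C0 C0 C2` -/
noncomputable def cU6_1893 : CertX :=
  ⟨[k4,k20,k4,k20,k4,k22],[(false,k0,[k0,k1,k2,k3,k4,k5]),(true,k5,[k5,k4,k3,k2,k1,k0])],[[[([z1,z0,z0,z1,z1,z1],z2)],
    [([z1,z1,z0,z0,z1,z1],z2)],[([z1,z0,z0,z0,z0,z1],z2)],[([z1,z0,z0,z0,z0,z1],z1),([z0,z1,z0,z0,z1,z0],z2)],[([z1,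
    z0,z1,z1,z0,z1],z2)],[]]],
    [.old (.leafM k0 [k0,k3,k4,k5] [] [(k1,k2,z1,[y1,z1]),(k2,k1,z1,[y1,z1])]),
    .old (.leafM k0 [k0,k1,k4,k5] [] [(k2,k3,z1,[y1,z1]),(k3,k2,z1,[y1,z1])]),
    .old (.leafM k0 [k1,k2,k3,k4] [] [(k5,k0,z1,[z1]),(k0,k5,z1,[z1])]),
    .old (.leafM k4 [k0,k2,k3,k5] [(z1,[y1,y1,z1])] [(k1,k4,z1,[z0,z1]),(k4,k1,z1,[z0,z1])]),
    .old (.lp [k50,k190,k10,k110,k46,k54] [k70,k70,k0,k0,k90,k90,k40,k40,k72,k72,k68,k68] k0 [[k0,k0,k0,k0,k0,k0,k0,k0,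
    k4],[],[k0,k0,k0,k0,k0,k0,k0,k0,k0,k0,k0,k20],[],[],[k0,k0,k0,k0,k0,k0,k0,k0,k0,k16],[],[],[k0,k0,k0,k0,k16],[k0,
    k4],[k0,k0,k0,k20]] (nat_lit 240) k6
    [[(k9,k48),(k5,k50),(k10,k52)],[(k11,k48),(k7,k80),(k3,k120)],[(k4,k100),(k0,k120),(k8,k122)],[(k5,k100),(k10,
    k102),(k9,k118)],[(k1,k50),(k6,k60),(k2,k100)],[(k11,k48),(k7,k60),(k3,k100)],[(k4,k60),(k8,k62),(k0,k80)],[(k5,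
    k60),(k9,k78),(k10,k82)],[(k1,k48),(k6,k78),(k2,k118)],[(k11,k50),(k7,k62),(k3,k122)],[(k0,k48),(k4,k48),(k8,
    k50)],[(k1,k52),(k6,k82),(k2,k102)]]
    [] k0
    [[k1,k0,k0,k0,k0,k1],[k2,k0,k0,k0,k0,k2],[k0,k1,k1,k0,k0,k0],[k0,k0,k1,k1,k0,k0],[k0,k0,k0,k1,k1,k0]]
    [.contra [y1,z1],.ref k3 k0 [(z2,[z1]),(z1,[z0,y1,z1])],.ref k0 k0 [(z1,[y1,z0,z1])],.contra [y1,z1],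
    .ref k0 k1 [(z1,[y1,z0,z1])]]),
    .old (.lp [k2,k2,k2,k2,k2,k2] [k0,k0,k0,k0,k0,k0,k0,k0,k0,k0,k0,k0] k0 [] k8 k5
    [[(k5,k2),(k9,k2),(k10,k2)],[(k3,k2),(k7,k2),(k11,k2)],[(k0,k2),(k4,k2),(k8,k2)],[(k5,k2),(k9,k2),(k10,k2)],[(k1,
    k2),(k2,k2),(k6,k2)],[(k3,k2),(k7,k2),(k11,k2)],[(k0,k2),(k4,k2),(k8,k2)],[(k5,k2),(k9,k2),(k10,k2)],[(k1,k2),(k2,
    k2),(k6,k2)],[(k3,k2),(k7,k2),(k11,k2)],[(k0,k2),(k4,k2),(k8,k2)],[(k1,k2),(k2,k2),(k6,k2)]]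
    [] k0
    [[k1,k0,k0,k0,k0,k1],[k0,k1,k1,k0,k0,k0],[k0,k1,k0,k0,k1,k0],[k0,k0,k1,k1,k0,k0],[k0,k0,k0,k1,k1,k0]]
    [.ref k2 k0 [(z1,[z1])],.ref k0 k0 [(z1,[y1,z1])],.ref k4 k0 [(z1,[y1,z1])],.ref k1 k0 [(z1,[y1,z1])],
    .ref k0 k1 [(z1,[y1,z1])]])]⟩

/-- classes `0 1 0 1 0 1`, types `C0 C0 C0 C0 C2 C2` -/
noncomputable def cU6_1894 : CertX :=
  ⟨[k4,k20,k4,k20,k6,k22],[(false,k0,[k0,k1,k2,k3,k4,k5]),(true,k4,[k4,k3,k2,k1,k0,k5])],[[[([z1,z0,z1,z1,z1,z0],z2)],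
    [([z1,z0,z0,z1,z1,z1],z2)],[([z1,z0,z0,z0,z1,z0],z2)],[]]],
    [.old (.leafM k1 [k2,k3,k4,k0] [] [(k5,k1,z1,[y1,z1]),(k1,k5,z1,[y1,z1])]),
    .old (.leafM k0 [k0,k3,k4,k5] [] [(k1,k2,z1,[y1,z1]),(k2,k1,z1,[y1,z1])]),
    .old (.leafM k1 [k1,k2,k3,k5] [] [(k4,k0,z1,[z1]),(k0,k4,z1,[z1])]),
    .old (.lp [k2,k2,k2,k2,k2,k2] [k0,k0,k0,k0,k0,k0,k0,k0,k0,k0,k0,k0] k0 [] k8 k5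
    [[(k5,k2),(k9,k2),(k10,k2)],[(k3,k2),(k7,k2),(k8,k2)],[(k0,k2),(k4,k2),(k11,k2)],[(k5,k2),(k9,k2),(k10,k2)],[(k1,
    k2),(k2,k2),(k6,k2)],[(k3,k2),(k7,k2),(k8,k2)],[(k0,k2),(k4,k2),(k11,k2)],[(k5,k2),(k9,k2),(k10,k2)],[(k1,k2),(k2,
    k2),(k6,k2)],[(k0,k2),(k4,k2),(k11,k2)],[(k3,k2),(k7,k2),(k8,k2)],[(k1,k2),(k2,k2),(k6,k2)]]
    [] k0
    [[k1,k0,k0,k0,k1,k0],[k0,k1,k1,k0,k0,k0],[k0,k1,k0,k0,k0,k1],[k0,k0,k1,k1,k0,k0],[k0,k0,k0,k1,k0,k1]]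
    [.ref k2 k0 [(z1,[z1])],.ref k1 k0 [(z1,[y1,z1])],.ref k0 k0 [(z1,[y1,z1])],.ref k1 k1 [(z1,[y1,z1])],
    .ref k0 k1 [(z1,[y1,z1])]])]⟩

/-- classes `0 1 0 1 0 1`, types `C0 C0 C0 C2 C2 C2` -/
noncomputable def cU6_1895 : CertX :=
  ⟨[k4,k20,k4,k22,k6,k22],[(false,k0,[k0,k1,k2,k3,k4,k5]),(false,k3,[k3,k4,k5,k0,k1,k2])],[[[([z1,z0,z0,z1,z1,z1],
    z2)],[([z1,z0,z1,z1,z1,z0],z2)],[([z1,z0,z0,z1,z0,z0],z2),([z0,z1,z1,z0,z0,z0],z1)],[([z1,z0,z0,z1,z0,z0],z2)],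
    []]],
    [.old (.leafM k0 [k0,k3,k4,k5] [] [(k1,k2,z1,[y1,z1]),(k2,k1,z1,[y1,z1])]),
    .old (.leafM k1 [k2,k3,k4,k0] [] [(k5,k1,z1,[y1,z1]),(k1,k5,z1,[y1,z1])]),
    .old (.leafM k4 [k2,k4,k5,k1] [(z1,[y1,y1,z1])] [(k3,k0,z1,[z1]),(k0,k3,z1,[z1])]),
    .old (.lp [k70,k62,k0,k48,k28,k22] [k0,k0,k4,k4,k35,k35,k11,k11,k21,k21,k24,k24] k0 [[k0,k0,k0,k0,k0,k0,k0,k0,k0,k25],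
    [k0,k0,k0,k0,k0,k2],[k0,k0,k0,k0,k0,k0,k0,k31],[k0,k0,k0,k0,k0,k0,k0,k0,k0,k0,k11],[k2],[k0,k0,k0,k0,k0,k0,k0,k0,
    k11],[k0,k0,k0,k31],[],[k0,k25],[k0,k0,k0,k0,k11],[],[k0,k0,k11]] k120 k6
    [[(k5,k24),(k10,k46),(k6,k59)],[(k8,k24),(k7,k61),(k3,k66)],[(k4,k29),(k0,k66),(k11,k67)],[(k6,k24),(k5,k31),(k10,
    k53)],[(k1,k24),(k2,k31),(k9,k45)],[(k7,k24),(k8,k25),(k3,k29)],[(k4,k24),(k11,k24),(k0,k61)],[(k2,k24),(k9,k38),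
    (k1,k59)],[(k10,k25),(k6,k38),(k5,k45)],[(k0,k24),(k4,k25),(k11,k25)],[(k7,k24),(k8,k25),(k3,k67)],[(k9,k25),(k1,
    k46),(k2,k53)]]
    [] k0
    [[k1,k0,k1,k1,k1,k0],[k0,k1,k1,k0,k0,k0],[k0,k0,k1,k0,k1,k0],[k0,k0,k0,k0,k1,k1],[k0,k0,k0,k0,k2,k2]]
    [.contra [z1,y1],.contra [y1,y1,z1],.contra [y1,y1,z1],.contra [y1,y1,z1],.ref k2 k0 [(z1,[z0,z1]),(z2,[y1,y2,
    z2])]]),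
    .old (.lp [k2,k2,k2,k2,k2,k2] [k0,k0,k0,k0,k0,k0,k0,k0,k0,k0,k0,k0] k0 [] k8 k5
    [[(k5,k2),(k6,k2),(k10,k2)],[(k3,k2),(k7,k2),(k8,k2)],[(k0,k2),(k4,k2),(k11,k2)],[(k5,k2),(k6,k2),(k10,k2)],[(k1,
    k2),(k2,k2),(k9,k2)],[(k3,k2),(k7,k2),(k8,k2)],[(k0,k2),(k4,k2),(k11,k2)],[(k1,k2),(k2,k2),(k9,k2)],[(k5,k2),(k6,
    k2),(k10,k2)],[(k0,k2),(k4,k2),(k11,k2)],[(k3,k2),(k7,k2),(k8,k2)],[(k1,k2),(k2,k2),(k9,k2)]]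
    [] k0
    [[k1,k0,k0,k1,k0,k0],[k0,k1,k1,k0,k0,k0],[k0,k1,k0,k0,k0,k1],[k0,k0,k1,k0,k1,k0],[k0,k0,k0,k0,k1,k1]]
    [.ref k3 k0 [(z1,[z1])],.ref k0 k0 [(z1,[y1,z1])],.ref k1 k0 [(z1,[y1,z1])],.ref k1 k1 [(z1,[y1,z1])],
    .ref k0 k1 [(z1,[y1,z1])]])]⟩

/-- classes `0 1 0 1 0 1`, types `C0 S0 C0 S0 C0 S0` -/
noncomputable def cU6_1896 : CertX :=
  ⟨[k4,k16,k4,k16,k4,k16],[(false,k0,[k0,k1,k2,k3,k4,k5]),(false,k4,[k4,k5,k0,k1,k2,k3]),(false,k2,[k2,k3,k4,k5,k0,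
    k1])],[[[([z1,z1,z0,z0,z0,z0],z2)],[([z1,z0,z0,z0,z0,z1],z2)],[([z1,z0,z0,z0,z0,z1],z1),([z0,z1,z0,z0,z1,z0],z2)],
    [([z1,z0,z0,z1,z0,z0],z2)],[]]],
    [.old (.leafM k0 [k2,k3,k4,k5] [] [(k0,k1,z1,[z1]),(k1,k0,z1,[z1])]),
    .old (.leafM k0 [k1,k2,k3,k4] [] [(k5,k0,z1,[z1]),(k0,k5,z1,[z1])]),
    .old (.leafM k4 [k0,k2,k3,k5] [(z1,[y1,y1,z1])] [(k1,k4,z1,[z0,z1]),(k4,k1,z1,[z0,z1])]),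
    .old (.lp [(nat_lit 9568),(nat_lit 3900),(nat_lit 3588),(nat_lit 6900),(nat_lit 3588),(nat_lit 6900)] [k0,k0,
    (nat_lit 2834),(nat_lit 2834),(nat_lit 2990),(nat_lit 2990),(nat_lit 1334),(nat_lit 1334),(nat_lit 2990),
    (nat_lit 2990),(nat_lit 1334),(nat_lit 1334)] k0 [[k0,k0,k0,k0,k0,k0,k0,k0,(nat_lit 2990)],[],[],[],[],[],[],[k0,
    k0,k0,k0,k0,k0,k0,k0,k0,k0,k0,(nat_lit 1495)],[],[k0,(nat_lit 2990)],[k0,k0,k0,k0,k0,k0,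
    (nat_lit 1495)]] (nat_lit 17940) k6
    [[(k5,(nat_lit 6578)),(k9,(nat_lit 6578)),(k2,(nat_lit 6734)),(k10,(nat_lit 8234)),(k1,(nat_lit 9568)),(k6,
    (nat_lit 9729))],[(k11,(nat_lit 5244)),(k3,(nat_lit 6734)),(k7,(nat_lit 8234))],[(k4,(nat_lit 3744)),(k0,
    (nat_lit 6734)),(k8,(nat_lit 6734))],[(k5,(nat_lit 3744)),(k9,(nat_lit 3744)),(k2,(nat_lit 3900)),(k6,
    (nat_lit 5400)),(k10,(nat_lit 5400)),(k1,(nat_lit 6734))],[(k5,(nat_lit 3588)),(k9,(nat_lit 3588)),(k2,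
    (nat_lit 3744)),(k6,(nat_lit 5244)),(k10,(nat_lit 5244)),(k1,(nat_lit 6578))],[(k3,(nat_lit 3744)),(k7,
    (nat_lit 5244)),(k11,(nat_lit 5244))],[(k4,(nat_lit 5244)),(k8,(nat_lit 5244)),(k0,(nat_lit 8234))],[(k5,
    (nat_lit 5244)),(k9,(nat_lit 5244)),(k2,(nat_lit 5400)),(k6,(nat_lit 6900)),(k10,(nat_lit 6900)),(k1,
    (nat_lit 9729))],[(k5,(nat_lit 3588)),(k9,(nat_lit 3588)),(k2,(nat_lit 3744)),(k10,(nat_lit 3749)),(k6,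
    (nat_lit 5244)),(k1,(nat_lit 6578))],[(k7,(nat_lit 5244)),(k11,(nat_lit 5244)),(k3,(nat_lit 6734))],[(k0,
    (nat_lit 5244)),(k4,(nat_lit 5244)),(k8,(nat_lit 5244))],[(k9,(nat_lit 3749)),(k5,(nat_lit 5244)),(k2,
    (nat_lit 5400)),(k6,(nat_lit 6900)),(k10,(nat_lit 6900)),(k1,(nat_lit 8234))]]
    [] k0
    [[k1,k1,k0,k0,k0,k0],[k1,k0,k0,k0,k0,k1],[k0,k1,k1,k0,k0,k0],[k0,k2,k2,k0,k0,k0],[k0,k1,k0,k0,k1,k0],[k0,k0,k1,k1,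
    k0,k0],[k0,k0,k1,k0,k0,k1],[k0,k0,k0,k1,k1,k0],[k0,k0,k0,k0,k1,k1]]
    [.ref k0 k0 [(z1,[z1])],.ref k1 k0 [(z1,[z1])],.contra [y1,y1,z1],.ref k2 k1 [(z2,[z1]),(z1,[z0,z1])],.contra [y1,
    y1,z1],.ref k0 k1 [(z1,[z1])],.contra [y1,y1,z1],.ref k1 k2 [(z1,[z1])],.contra [y1,y1,z1]]),
    .old (.lp [k2,k2,k2,k2,k2,k2] [k0,k0,k0,k0,k0,k0,k0,k0,k0,k0,k0,k0] k0 [] k8 k5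
    [[(k1,k2),(k2,k2),(k5,k2),(k6,k2),(k9,k2),(k10,k2)],[(k3,k2),(k7,k2),(k11,k2)],[(k0,k2),(k4,k2),(k8,k2)],[(k1,k2),
    (k2,k2),(k5,k2),(k6,k2),(k9,k2),(k10,k2)],[(k1,k2),(k2,k2),(k5,k2),(k6,k2),(k9,k2),(k10,k2)],[(k3,k2),(k7,k2),
    (k11,k2)],[(k0,k2),(k4,k2),(k8,k2)],[(k1,k2),(k2,k2),(k5,k2),(k6,k2),(k9,k2),(k10,k2)],[(k1,k2),(k2,k2),(k5,k2),
    (k6,k2),(k9,k2),(k10,k2)],[(k3,k2),(k7,k2),(k11,k2)],[(k0,k2),(k4,k2),(k8,k2)],[(k1,k2),(k2,k2),(k5,k2),(k6,k2),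
    (k9,k2),(k10,k2)]]
    [] k0
    [[k1,k1,k0,k0,k0,k0],[k1,k0,k0,k1,k0,k0],[k1,k0,k0,k0,k0,k1],[k0,k1,k1,k0,k0,k0],[k0,k1,k0,k0,k1,k0],[k0,k0,k1,k1,
    k0,k0],[k0,k0,k1,k0,k0,k1],[k0,k0,k0,k1,k1,k0],[k0,k0,k0,k0,k1,k1]]
    [.ref k0 k0 [(z1,[z1])],.ref k3 k0 [(z1,[z1])],.ref k1 k0 [(z1,[z1])],.ref k1 k1 [(z1,[z1])],.ref k3 k2 [(z1,
    [z1])],.ref k0 k1 [(z1,[z1])],.ref k3 k1 [(z1,[z1])],.ref k1 k2 [(z1,[z1])],.ref k0 k2 [(z1,[z1])]])]⟩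

/-- classes `0 1 0 1 0 1`, types `C0 S0 C0 S0 C2 S0` -/
noncomputable def cU6_1897 : CertX :=
  ⟨[k4,k16,k4,k16,k6,k16],[(false,k0,[k0,k1,k2,k3,k4,k5]),(true,k3,[k3,k2,k1,k0,k5,k4])],[[[([z1,z1,z1,z1,z0,z0],z2)],
    [([z1,z0,z0,z0,z1,z0],z2)],[([z1,z0,z1,z1,z1,z0],z2)],[([z1,z1,z0,z0,z0,z0],z2)],[([z1,z0,z0,z1,z1,z1],z2)],[([z1,
    z0,z0,z1,z0,z0],z2),([z0,z1,z1,z0,z0,z0],z1)],[([z1,z0,z0,z1,z0,z0],z2)],[]]],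
    [.old (.leafM k0 [k0,k1,k2,k3] [] [(k4,k5,z1,[y1,z1]),(k5,k4,z1,[y1,z1])]),
    .old (.leafM k1 [k1,k2,k3,k5] [] [(k4,k0,z1,[z1]),(k0,k4,z1,[z1])]),
    .old (.leafM k1 [k2,k3,k4,k0] [] [(k5,k1,z1,[y1,z1]),(k1,k5,z1,[y1,z1])]),
    .old (.leafM k0 [k2,k3,k4,k5] [] [(k0,k1,z1,[z1]),(k1,k0,z1,[z1])]),
    .old (.leafM k0 [k0,k3,k4,k5] [] [(k1,k2,z1,[y1,z1]),(k2,k1,z1,[y1,z1])]),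
    .old (.leafM k4 [k2,k4,k5,k1] [(z1,[y1,y1,z1])] [(k3,k0,z1,[z1]),(k0,k3,z1,[z1])]),
    .old (.lp [(nat_lit 28842),(nat_lit 10488),(nat_lit 11400),(nat_lit 19320),(nat_lit 19320),(nat_lit 11400)] [k0,k0,
    (nat_lit 9177),(nat_lit 9177),(nat_lit 8721),(nat_lit 8721),(nat_lit 4761),(nat_lit 4761),(nat_lit 4761),
    (nat_lit 4761),(nat_lit 8721),(nat_lit 8721)] k0 [[k0,k0,k0,k0,k0,k0,k0,k0,k0,(nat_lit 8740)],[],[],[],[],[],[],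
    [k0,k0,k0,k0,k0,k0,k0,k0,k0,k0,k0,(nat_lit 4370)],[k0,(nat_lit 8740)],[],[k0,k0,k0,k0,k0,k0,
    (nat_lit 4370)]] (nat_lit 52440) k6
    [[(k2,(nat_lit 19665)),(k5,(nat_lit 20121)),(k10,(nat_lit 20121)),(k9,(nat_lit 24081)),(k6,(nat_lit 28451)),(k1,
    (nat_lit 28842))],[(k8,(nat_lit 15341)),(k3,(nat_lit 19665)),(k7,(nat_lit 24081))],[(k4,(nat_lit 10944)),(k0,
    (nat_lit 19665)),(k11,(nat_lit 19684))],[(k2,(nat_lit 10488)),(k5,(nat_lit 10944)),(k10,(nat_lit 10944)),(k6,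
    (nat_lit 14904)),(k9,(nat_lit 14904)),(k1,(nat_lit 19665))],[(k2,(nat_lit 10944)),(k5,(nat_lit 11400)),(k10,
    (nat_lit 11400)),(k6,(nat_lit 15360)),(k9,(nat_lit 15360)),(k1,(nat_lit 20121))],[(k3,(nat_lit 10944)),(k7,
    (nat_lit 15360)),(k8,(nat_lit 15360))],[(k4,(nat_lit 15360)),(k11,(nat_lit 15360)),(k0,(nat_lit 24081))],[(k2,
    (nat_lit 14904)),(k5,(nat_lit 15360)),(k10,(nat_lit 15360)),(k6,(nat_lit 19320)),(k9,(nat_lit 19320)),(k1,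
    (nat_lit 28451))],[(k10,(nat_lit 10990)),(k2,(nat_lit 14904)),(k5,(nat_lit 15360)),(k6,(nat_lit 19320)),(k9,
    (nat_lit 19320)),(k1,(nat_lit 24081))],[(k0,(nat_lit 15341)),(k4,(nat_lit 15360)),(k11,(nat_lit 15360))],[(k7,
    (nat_lit 15360)),(k8,(nat_lit 15360)),(k3,(nat_lit 19684))],[(k2,(nat_lit 10944)),(k9,(nat_lit 10990)),(k5,
    (nat_lit 11400)),(k10,(nat_lit 11400)),(k6,(nat_lit 15360)),(k1,(nat_lit 20121))]]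
    [] k0
    [[k1,k1,k0,k0,k0,k0],[k1,k0,k0,k0,k1,k0],[k0,k1,k1,k0,k0,k0],[k0,k2,k2,k0,k0,k0],[k0,k1,k0,k0,k0,k1],[k0,k0,k1,k1,
    k0,k0],[k0,k0,k1,k0,k1,k0],[k0,k0,k0,k1,k0,k1],[k0,k0,k0,k0,k1,k1]]
    [.ref k3 k0 [(z1,[z1])],.ref k1 k0 [(z1,[z1])],.contra [y1,y1,z1],.ref k5 k0 [(z1,[z0,z1]),(z2,[z1])],.contra [y1,
    y1,z1],.ref k3 k1 [(z1,[z1])],.contra [y1,y1,z1],.ref k1 k1 [(z1,[z1])],.contra [y1,y1,z1]]),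
    .old (.lp [k2,k2,k2,k2,k2,k2] [k0,k0,k0,k0,k0,k0,k0,k0,k0,k0,k0,k0] k0 [] k8 k5
    [[(k1,k2),(k2,k2),(k5,k2),(k6,k2),(k9,k2),(k10,k2)],[(k3,k2),(k7,k2),(k8,k2)],[(k0,k2),(k4,k2),(k11,k2)],[(k1,k2),
    (k2,k2),(k5,k2),(k6,k2),(k9,k2),(k10,k2)],[(k1,k2),(k2,k2),(k5,k2),(k6,k2),(k9,k2),(k10,k2)],[(k3,k2),(k7,k2),(k8,
    k2)],[(k0,k2),(k4,k2),(k11,k2)],[(k1,k2),(k2,k2),(k5,k2),(k6,k2),(k9,k2),(k10,k2)],[(k1,k2),(k2,k2),(k5,k2),(k6,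
    k2),(k9,k2),(k10,k2)],[(k0,k2),(k4,k2),(k11,k2)],[(k3,k2),(k7,k2),(k8,k2)],[(k1,k2),(k2,k2),(k5,k2),(k6,k2),(k9,
    k2),(k10,k2)]]
    [] k0
    [[k1,k1,k0,k0,k0,k0],[k1,k0,k0,k1,k0,k0],[k1,k0,k0,k0,k1,k0],[k0,k1,k1,k0,k0,k0],[k0,k1,k0,k0,k0,k1],[k0,k0,k1,k1,
    k0,k0],[k0,k0,k1,k0,k1,k0],[k0,k0,k0,k1,k0,k1],[k0,k0,k0,k0,k1,k1]]
    [.ref k3 k0 [(z1,[z1])],.ref k6 k0 [(z1,[z1])],.ref k1 k0 [(z1,[z1])],.ref k4 k0 [(z1,[y1,z1])],.ref k2 k0 [(z1,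
    [y1,z1])],.ref k3 k1 [(z1,[z1])],.ref k2 k1 [(z1,[y1,z1])],.ref k1 k1 [(z1,[z1])],.ref k0 k0 [(z1,[y1,z1])]])]⟩

/-- classes `0 1 0 1 0 2`, types `C0 B0 C0 B1 C0 C0` -/
noncomputable def cU6_1898 : CertX :=
  ⟨[k4,k24,k4,k25,k4,k36],[(false,k0,[k0,k1,k2,k3,k4,k5])],[[[([z1,z1,z0,z0,z1,z1],z2)],[([z1,z0,z0,z0,z0,z1],z2)],
    [([z1,z0,z0,z0,z0,z1],z1),([z0,z1,z0,z0,z1,z0],z2)],[([z1,z0,z1,z1,z0,z1],z2)],[]]],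
    [.old (.leafM k0 [k0,k1,k4,k5] [] [(k2,k3,z1,[y1,z1]),(k3,k2,z1,[y1,z1])]),
    .old (.leafM k2 [k2,k3,k4,k1] [] [(k5,k0,z1,[z1]),(k0,k5,z1,[z1])]),
    .old (.leafM k4 [k0,k2,k3,k5] [(z1,[y1,y1,z1])] [(k1,k4,z1,[z0,z1]),(k4,k1,z1,[z0,z1])]),
    .old (.lp [k132,(nat_lit 480),k132,k132,k132,(nat_lit 264)] [k174,k174,k0,k0,k174,k174,k174,k174,k174,k174,k108,
    k108] k0 [[k0,k0,k0,k0,k0,k0,k0,k0,k55],[],[],[],[],[],[],[],[],[k0,k55]] (nat_lit 660) k6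
    [[(k10,k198)],[(k7,k132),(k11,k143),(k3,(nat_lit 306))],[(k0,(nat_lit 306)),(k4,(nat_lit 306)),(k8,
    (nat_lit 361))],[(k6,(nat_lit 306)),(k9,(nat_lit 306))],[(k6,k132),(k9,k132)],[(k7,k132),(k11,k198),(k3,
    (nat_lit 306))],[(k0,k132),(k4,k132),(k8,k132)],[(k5,k132),(k2,(nat_lit 306))],[(k5,k132),(k2,(nat_lit 306))],
    [(k7,k132),(k11,k198),(k3,(nat_lit 361))],[(k0,k143),(k4,k198),(k8,k198)],[(k1,k198)]]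
    [] k0
    [[k1,k0,k0,k0,k0,k1],[k0,k0,k1,k1,k0,k0],[k0,k0,k2,k2,k0,k0]]
    [.contra [y1,z1],.contra [y1,z1],.ref k2 k0 [(z2,[y1,z2]),(z1,[z0,y1,z1])]]),
    .old (.lp [k2,k2,k2,k2,k2,k2] [k0,k0,k0,k0,k0,k0,k0,k0,k0,k0,k0,k0] k0 [] k8 k5
    [[(k10,k2)],[(k3,k2),(k7,k2),(k11,k2)],[(k0,k2),(k4,k2),(k8,k2)],[(k6,k2),(k9,k2)],[(k6,k2),(k9,k2)],[(k3,k2),(k7,
    k2),(k11,k2)],[(k0,k2),(k4,k2),(k8,k2)],[(k2,k2),(k5,k2)],[(k2,k2),(k5,k2)],[(k3,k2),(k7,k2),(k11,k2)],[(k0,k2),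
    (k4,k2),(k8,k2)],[(k1,k2)]]
    [] k0
    [[k1,k0,k0,k0,k0,k1],[k0,k1,k0,k0,k1,k0],[k0,k0,k1,k1,k0,k0]]
    [.ref k1 k0 [(z1,[z1])],.ref k3 k0 [(z1,[y1,z1])],.ref k0 k0 [(z1,[y1,z1])]])]⟩

/-- classes `0 1 0 1 0 2`, types `C0 B0 C0 B1 C0 S0` -/
noncomputable def cU6_1899 : CertX :=
  ⟨[k4,k24,k4,k25,k4,k32],[(false,k0,[k0,k1,k2,k3,k4,k5])],[[[([z1,z1,z0,z0,z1,z1],z2)],[([z1,z0,z0,z0,z0,z1],z2)],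
    [([z1,z0,z0,z0,z0,z1],z1),([z0,z1,z0,z0,z1,z0],z2)],[([z1,z0,z1,z1,z0,z1],z2)],[]]],
    [.old (.leafM k0 [k0,k1,k4,k5] [] [(k2,k3,z1,[y1,z1]),(k3,k2,z1,[y1,z1])]),
    .old (.leafM k2 [k2,k3,k4,k1] [] [(k5,k0,z1,[z1]),(k0,k5,z1,[z1])]),
    .old (.leafM k4 [k0,k2,k3,k5] [(z1,[y1,y1,z1])] [(k1,k4,z1,[z0,z1]),(k4,k1,z1,[z0,z1])]),
    .old (.lp [k36,k86,k24,k24,k24,k36] [k25,k25,k0,k0,k31,k31,k31,k31,k31,k31,k25,k25] k0 [[k0,k0,k0,k0,k0,k0,k0,k0,k10],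
    [],[],[],[],[],[],[],[],[k0,k10]] k120 k6
    [[(k1,k36),(k10,k36)],[(k11,k26),(k7,k30),(k3,k61)],[(k4,k55),(k0,k61),(k8,k65)],[(k6,k55),(k9,k55)],[(k6,k24),
    (k9,k24)],[(k7,k24),(k11,k30),(k3,k55)],[(k4,k24),(k8,k24),(k0,k30)],[(k5,k24),(k2,k55)],[(k5,k24),(k2,k55)],[(k7,
    k24),(k11,k30),(k3,k65)],[(k0,k26),(k4,k30),(k8,k30)],[(k1,k36),(k10,k36)]]
    [] k0
    [[k1,k0,k0,k0,k0,k1],[k0,k0,k1,k1,k0,k0],[k0,k0,k2,k2,k0,k0]]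
    [.contra [y1,z1],.contra [y1,z1],.ref k2 k0 [(z2,[y1,z2]),(z1,[z0,y1,z1])]]),
    .old (.lp [k2,k2,k2,k2,k2,k2] [k0,k0,k0,k0,k0,k0,k0,k0,k0,k0,k0,k0] k0 [] k8 k5
    [[(k1,k2),(k10,k2)],[(k3,k2),(k7,k2),(k11,k2)],[(k0,k2),(k4,k2),(k8,k2)],[(k6,k2),(k9,k2)],[(k6,k2),(k9,k2)],[(k3,
    k2),(k7,k2),(k11,k2)],[(k0,k2),(k4,k2),(k8,k2)],[(k2,k2),(k5,k2)],[(k2,k2),(k5,k2)],[(k3,k2),(k7,k2),(k11,k2)],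
    [(k0,k2),(k4,k2),(k8,k2)],[(k1,k2),(k10,k2)]]
    [] k0
    [[k1,k0,k0,k0,k0,k1],[k0,k1,k0,k0,k1,k0],[k0,k0,k1,k1,k0,k0]]
    [.ref k1 k0 [(z1,[z1])],.ref k3 k0 [(z1,[y1,z1])],.ref k0 k0 [(z1,[y1,z1])]])]⟩

/-- classes `0 1 0 1 0 2`, types `C0 B0 C0 B1 C2 C0` -/
noncomputable def cU6_1900 : CertX :=
  ⟨[k4,k24,k4,k25,k6,k36],[(false,k0,[k0,k1,k2,k3,k4,k5])],[[[([z1,z1,z0,z1,z0,z1],z2)],[([z1,z1,z0,z0,z1,z1],z2)],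
    []]],
    [.old (.leafM k1 [k5,k0,k1,k3] [] [(k2,k4,z1,[y1,z1]),(k4,k2,z1,[y1,z1])]),
    .old (.leafM k0 [k0,k1,k4,k5] [] [(k2,k3,z1,[y1,z1]),(k3,k2,z1,[y1,z1])]),
    .old (.lp [k2,k2,k2,k2,k2,k2] [k0,k0,k0,k0,k0,k0,k0,k0,k0,k0,k0,k0] k0 [] k8 k5
    [[(k10,k2)],[(k3,k2),(k7,k2),(k8,k2)],[(k0,k2),(k4,k2),(k11,k2)],[(k6,k2),(k9,k2)],[(k6,k2),(k9,k2)],[(k3,k2),(k7,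
    k2),(k8,k2)],[(k0,k2),(k4,k2),(k11,k2)],[(k2,k2),(k5,k2)],[(k2,k2),(k5,k2)],[(k0,k2),(k4,k2),(k11,k2)],[(k3,k2),
    (k7,k2),(k8,k2)],[(k1,k2)]]
    [] k0
    [[k0,k0,k1,k1,k0,k0],[k0,k0,k1,k0,k1,k0]]
    [.ref k1 k0 [(z1,[y1,z1])],.ref k0 k0 [(z1,[y1,z1])]])]⟩

/-- classes `0 1 0 1 0 2`, types `C0 B0 C0 B1 C2 S0` -/
noncomputable def cU6_1901 : CertX :=
  ⟨[k4,k24,k4,k25,k6,k32],[(false,k0,[k0,k1,k2,k3,k4,k5])],[[[([z1,z1,z0,z1,z0,z1],z2)],[([z1,z1,z0,z0,z1,z1],z2)],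
    []]],
    [.old (.leafM k1 [k5,k0,k1,k3] [] [(k2,k4,z1,[y1,z1]),(k4,k2,z1,[y1,z1])]),
    .old (.leafM k0 [k0,k1,k4,k5] [] [(k2,k3,z1,[y1,z1]),(k3,k2,z1,[y1,z1])]),
    .old (.lp [k2,k2,k2,k2,k2,k2] [k0,k0,k0,k0,k0,k0,k0,k0,k0,k0,k0,k0] k0 [] k8 k5
    [[(k1,k2),(k10,k2)],[(k3,k2),(k7,k2),(k8,k2)],[(k0,k2),(k4,k2),(k11,k2)],[(k6,k2),(k9,k2)],[(k6,k2),(k9,k2)],[(k3,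
    k2),(k7,k2),(k8,k2)],[(k0,k2),(k4,k2),(k11,k2)],[(k2,k2),(k5,k2)],[(k2,k2),(k5,k2)],[(k0,k2),(k4,k2),(k11,k2)],
    [(k3,k2),(k7,k2),(k8,k2)],[(k1,k2),(k10,k2)]]
    [] k0
    [[k0,k0,k1,k1,k0,k0],[k0,k0,k1,k0,k1,k0]]
    [.ref k1 k0 [(z1,[y1,z1])],.ref k0 k0 [(z1,[y1,z1])]])]⟩

/-- classes `0 1 0 1 0 2`, types `C0 B0 C2 B1 C0 C0` -/
noncomputable def cU6_1902 : CertX :=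
  ⟨[k4,k24,k6,k25,k4,k36],[(false,k0,[k0,k1,k2,k3,k4,k5]),(true,k5,[k5,k4,k3,k2,k1,k0])],[[[([z1,z0,z1,z0,z1,z1],z2)],
    [([z1,z1,z0,z0,z1,z1],z2)],[([z1,z0,z0,z0,z0,z1],z2)],[([z1,z0,z0,z0,z0,z1],z1),([z0,z1,z0,z0,z1,z0],z2)],[([z1,
    z0,z1,z1,z0,z1],z2)],[]]],
    [.old (.leafM k1 [k4,k5,k0,k2] [] [(k1,k3,z1,[y1,z1]),(k3,k1,z1,[y1,z1])]),
    .old (.leafM k0 [k0,k1,k4,k5] [] [(k2,k3,z1,[y1,z1]),(k3,k2,z1,[y1,z1])]),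
    .old (.leafM k2 [k2,k3,k4,k1] [] [(k5,k0,z1,[z1]),(k0,k5,z1,[z1])]),
    .old (.leafM k4 [k0,k2,k3,k5] [(z1,[y1,y1,z1])] [(k1,k4,z1,[z0,z1]),(k4,k1,z1,[z0,z1])]),
    .old (.lp [k0,k18,k10,k0,k4,k14] [k9,k9,k0,k0,k4,k4,k9,k9,k7,k7,k2,k2] k0 [[k0,k0,k0,k0,k0,k0,k0,k0,k2],[],[],[],[],
    [],[],[],[],[k0,k2]] k24 k6
    [[(k10,k7)],[(k4,k5),(k11,k5),(k3,k9)],[(k0,k9),(k7,k9),(k8,k13)],[(k6,k9),(k9,k11)],[(k6,k5),(k9,k7)],[(k0,k5),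
    (k7,k5),(k8,k7)],[(k4,k5),(k11,k7),(k3,k9)],[(k5,k5),(k2,k9)],[(k5,k7),(k2,k11)],[(k4,k7),(k11,k9),(k3,k13)],[(k0,
    k5),(k7,k7),(k8,k9)],[(k1,k7)]]
    [] k0
    [[k1,k0,k0,k0,k0,k1],[k0,k1,k0,k1,k0,k0],[k0,k0,k1,k1,k0,k0],[k0,k0,k2,k2,k0,k0],[k0,k0,k1,k0,k1,k0]]
    [.contra [y1,z1],.ref k0 k0 [(z1,[y1,z0,z1])],.contra [y1,z1],.ref k3 k0 [(z2,[y1,z2]),(z1,[z0,y1,z1])],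
    .ref k0 k1 [(z1,[y1,z0,z1])]]),
    .old (.lp [k0,k2,k2,k0,k0,k2] [k1,k1,k0,k0,k0,k0,k1,k1,k1,k1,k0,k0] k0 [] k4 k5
    [[(k10,k1)],[(k3,k1),(k4,k1),(k11,k1)],[(k0,k1),(k7,k1),(k8,k1)],[(k6,k1),(k9,k1)],[(k6,k1),(k9,k1)],[(k0,k1),(k7,
    k1),(k8,k1)],[(k3,k1),(k4,k1),(k11,k1)],[(k2,k1),(k5,k1)],[(k2,k1),(k5,k1)],[(k3,k1),(k4,k1),(k11,k1)],[(k0,k1),
    (k7,k1),(k8,k1)],[(k1,k1)]]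
    [] k0
    [[k1,k0,k0,k0,k0,k1],[k0,k1,k0,k1,k0,k0],[k0,k1,k0,k0,k1,k0],[k0,k0,k1,k1,k0,k0],[k0,k0,k1,k0,k1,k0]]
    [.ref k2 k0 [(z1,[z1])],.ref k0 k0 [(z1,[y1,z1])],.ref k4 k0 [(z1,[y1,z1])],.ref k1 k0 [(z1,[y1,z1])],
    .ref k0 k1 [(z1,[y1,z1])]])]⟩

/-- classes `0 1 0 1 0 2`, types `C0 B0 C2 B1 C0 S0` -/
noncomputable def cU6_1903 : CertX :=
  ⟨[k4,k24,k6,k25,k4,k32],[(false,k0,[k0,k1,k2,k3,k4,k5]),(true,k5,[k5,k4,k3,k2,k1,k0])],[[[([z1,z0,z1,z0,z1,z1],z2)],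
    [([z1,z1,z0,z0,z1,z1],z2)],[([z1,z0,z0,z0,z0,z1],z2)],[([z1,z0,z0,z0,z0,z1],z1),([z0,z1,z0,z0,z1,z0],z2)],[([z1,
    z0,z1,z1,z0,z1],z2)],[]]],
    [.old (.leafM k1 [k4,k5,k0,k2] [] [(k1,k3,z1,[y1,z1]),(k3,k1,z1,[y1,z1])]),
    .old (.leafM k0 [k0,k1,k4,k5] [] [(k2,k3,z1,[y1,z1]),(k3,k2,z1,[y1,z1])]),
    .old (.leafM k2 [k2,k3,k4,k1] [] [(k5,k0,z1,[z1]),(k0,k5,z1,[z1])]),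
    .old (.leafM k4 [k0,k2,k3,k5] [(z1,[y1,y1,z1])] [(k1,k4,z1,[z0,z1]),(k4,k1,z1,[z0,z1])]),
    .old (.lp [k24,k86,k48,k0,k24,k48] [k31,k31,k0,k0,k19,k19,k43,k43,k31,k31,k19,k19] k0 [[k0,k0,k0,k0,k0,k0,k0,k0,k10],
    [],[],[],[],[],[],[],[],[k0,k10]] k120 k6
    [[(k1,k24),(k10,k36)],[(k11,k26),(k4,k36),(k3,k55)],[(k7,k43),(k0,k55),(k8,k65)],[(k6,k43),(k9,k55)],[(k6,k24),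
    (k9,k36)],[(k7,k24),(k0,k36),(k8,k36)],[(k4,k24),(k11,k24),(k3,k43)],[(k5,k24),(k2,k43)],[(k5,k36),(k2,k55)],[(k4,
    k36),(k11,k36),(k3,k65)],[(k7,k24),(k0,k26),(k8,k36)],[(k1,k36),(k10,k48)]]
    [] k0
    [[k1,k0,k0,k0,k0,k1],[k0,k1,k0,k1,k0,k0],[k0,k0,k1,k1,k0,k0],[k0,k0,k2,k2,k0,k0],[k0,k0,k1,k0,k1,k0]]
    [.contra [y1,z1],.ref k0 k0 [(z1,[y1,z0,z1])],.contra [y1,z1],.ref k3 k0 [(z2,[y1,z2]),(z1,[z0,y1,z1])],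
    .ref k0 k1 [(z1,[y1,z0,z1])]]),
    .old (.lp [k2,k2,k2,k2,k2,k2] [k0,k0,k0,k0,k0,k0,k0,k0,k0,k0,k0,k0] k0 [] k8 k5
    [[(k1,k2),(k10,k2)],[(k3,k2),(k4,k2),(k11,k2)],[(k0,k2),(k7,k2),(k8,k2)],[(k6,k2),(k9,k2)],[(k6,k2),(k9,k2)],[(k0,
    k2),(k7,k2),(k8,k2)],[(k3,k2),(k4,k2),(k11,k2)],[(k2,k2),(k5,k2)],[(k2,k2),(k5,k2)],[(k3,k2),(k4,k2),(k11,k2)],
    [(k0,k2),(k7,k2),(k8,k2)],[(k1,k2),(k10,k2)]]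
    [] k0
    [[k1,k0,k0,k0,k0,k1],[k0,k1,k0,k1,k0,k0],[k0,k1,k0,k0,k1,k0],[k0,k0,k1,k1,k0,k0],[k0,k0,k1,k0,k1,k0]]
    [.ref k2 k0 [(z1,[z1])],.ref k0 k0 [(z1,[y1,z1])],.ref k4 k0 [(z1,[y1,z1])],.ref k1 k0 [(z1,[y1,z1])],
    .ref k0 k1 [(z1,[y1,z1])]])]⟩

/-- classes `0 1 0 1 0 2`, types `C0 C0 C0 C0 C0 C0` -/
noncomputable def cU6_1904 : CertX :=
  ⟨[k4,k20,k4,k20,k4,k36],[(false,k0,[k0,k1,k2,k3,k4,k5]),(true,k5,[k5,k4,k3,k2,k1,k0])],[[[([z1,z0,z0,z1,z1,z1],z2)],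
    [([z1,z1,z0,z0,z1,z1],z2)],[([z1,z0,z0,z0,z0,z1],z2)],[([z1,z0,z0,z0,z0,z1],z1),([z0,z1,z0,z0,z1,z0],z2)],[([z1,
    z0,z1,z1,z0,z1],z2)],[]]],
    [.old (.leafM k0 [k0,k3,k4,k5] [] [(k1,k2,z1,[y1,z1]),(k2,k1,z1,[y1,z1])]),
    .old (.leafM k0 [k0,k1,k4,k5] [] [(k2,k3,z1,[y1,z1]),(k3,k2,z1,[y1,z1])]),
    .old (.leafM k0 [k1,k2,k3,k4] [] [(k5,k0,z1,[z1]),(k0,k5,z1,[z1])]),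
    .old (.leafM k4 [k0,k2,k3,k5] [(z1,[y1,y1,z1])] [(k1,k4,z1,[z0,z1]),(k4,k1,z1,[z0,z1])]),
    .old (.lp [k22,k70,k0,k50,k40,k48] [k24,k24,k0,k0,k35,k35,k10,k10,k15,k15,k11,k11] k0 [[k0,k0,k0,k0,k0,k0,k0,k0,k10],
    [],[],[],[],[],[],[],[],[k0,k10]] k120 k6
    [[(k10,k35)],[(k11,k25),(k7,k36),(k3,k46)],[(k4,k35),(k0,k46),(k8,k65)],[(k5,k35),(k9,k55)],[(k6,k25),(k2,k35)],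
    [(k11,k24),(k7,k25),(k3,k35)],[(k4,k25),(k0,k36),(k8,k45)],[(k5,k25),(k9,k45)],[(k6,k45),(k2,k55)],[(k11,k44),(k7,
    k45),(k3,k65)],[(k4,k24),(k0,k25),(k8,k44)],[(k1,k35)]]
    [] k0
    [[k1,k0,k0,k0,k0,k1],[k0,k1,k1,k0,k0,k0],[k0,k0,k1,k1,k0,k0],[k0,k0,k2,k2,k0,k0],[k0,k0,k0,k1,k1,k0]]
    [.contra [y1,z1],.ref k0 k0 [(z1,[y1,z0,z1])],.contra [y1,z1],.ref k3 k0 [(z2,[y1,z2]),(z1,[z0,y1,z1])],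
    .ref k0 k1 [(z1,[y1,z0,z1])]]),
    .old (.lp [k0,k2,k0,k2,k0,k2] [k1,k1,k0,k0,k1,k1,k0,k0,k1,k1,k0,k0] k0 [] k4 k5
    [[(k10,k1)],[(k3,k1),(k7,k1),(k11,k1)],[(k0,k1),(k4,k1),(k8,k1)],[(k5,k1),(k9,k1)],[(k2,k1),(k6,k1)],[(k3,k1),(k7,
    k1),(k11,k1)],[(k0,k1),(k4,k1),(k8,k1)],[(k5,k1),(k9,k1)],[(k2,k1),(k6,k1)],[(k3,k1),(k7,k1),(k11,k1)],[(k0,k1),
    (k4,k1),(k8,k1)],[(k1,k1)]]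
    [] k0
    [[k1,k0,k0,k0,k0,k1],[k0,k1,k1,k0,k0,k0],[k0,k1,k0,k0,k1,k0],[k0,k0,k1,k1,k0,k0],[k0,k0,k0,k1,k1,k0]]
    [.ref k2 k0 [(z1,[z1])],.ref k0 k0 [(z1,[y1,z1])],.ref k4 k0 [(z1,[y1,z1])],.ref k1 k0 [(z1,[y1,z1])],
    .ref k0 k1 [(z1,[y1,z1])]])]⟩

/-- classes `0 1 0 1 0 2`, types `C0 C0 C0 C0 C0 S0` -/
noncomputable def cU6_1905 : CertX :=
  ⟨[k4,k20,k4,k20,k4,k32],[(false,k0,[k0,k1,k2,k3,k4,k5]),(true,k5,[k5,k4,k3,k2,k1,k0])],[[[([z1,z0,z0,z1,z1,z1],z2)],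
    [([z1,z1,z0,z0,z1,z1],z2)],[([z1,z0,z0,z0,z0,z1],z2)],[([z1,z0,z0,z0,z0,z1],z1),([z0,z1,z0,z0,z1,z0],z2)],[([z1,
    z0,z1,z1,z0,z1],z2)],[]]],
    [.old (.leafM k0 [k0,k3,k4,k5] [] [(k1,k2,z1,[y1,z1]),(k2,k1,z1,[y1,z1])]),
    .old (.leafM k0 [k0,k1,k4,k5] [] [(k2,k3,z1,[y1,z1]),(k3,k2,z1,[y1,z1])]),
    .old (.leafM k0 [k1,k2,k3,k4] [] [(k5,k0,z1,[z1]),(k0,k5,z1,[z1])]),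
    .old (.leafM k4 [k0,k2,k3,k5] [(z1,[y1,y1,z1])] [(k1,k4,z1,[z0,z1]),(k4,k1,z1,[z0,z1])]),
    .old (.lp [k24,k88,k2,k48,k22,k46] [k32,k32,k0,k0,k43,k43,k20,k20,k33,k33,k21,k21] k0 [[k0,k0,k0,k0,k0,k0,k0,k0,k10],
    [],[],[],[],[],[],[],[],[k0,k10]] k120 k6
    [[(k1,k24),(k10,k35)],[(k11,k25),(k7,k36),(k3,k56)],[(k4,k45),(k0,k56),(k8,k65)],[(k5,k45),(k9,k55)],[(k6,k25),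
    (k2,k45)],[(k11,k24),(k7,k25),(k3,k45)],[(k4,k25),(k8,k35),(k0,k36)],[(k5,k25),(k9,k35)],[(k6,k35),(k2,k55)],
    [(k11,k34),(k7,k35),(k3,k65)],[(k4,k24),(k0,k25),(k8,k34)],[(k1,k35),(k10,k46)]]
    [] k0
    [[k1,k0,k0,k0,k0,k1],[k0,k1,k1,k0,k0,k0],[k0,k0,k1,k1,k0,k0],[k0,k0,k2,k2,k0,k0],[k0,k0,k0,k1,k1,k0]]
    [.contra [y1,z1],.ref k0 k0 [(z1,[y1,z0,z1])],.contra [y1,z1],.ref k3 k0 [(z2,[y1,z2]),(z1,[z0,y1,z1])],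
    .ref k0 k1 [(z1,[y1,z0,z1])]]),
    .old (.lp [k2,k2,k2,k2,k2,k2] [k0,k0,k0,k0,k0,k0,k0,k0,k0,k0,k0,k0] k0 [] k8 k5
    [[(k1,k2),(k10,k2)],[(k3,k2),(k7,k2),(k11,k2)],[(k0,k2),(k4,k2),(k8,k2)],[(k5,k2),(k9,k2)],[(k2,k2),(k6,k2)],[(k3,
    k2),(k7,k2),(k11,k2)],[(k0,k2),(k4,k2),(k8,k2)],[(k5,k2),(k9,k2)],[(k2,k2),(k6,k2)],[(k3,k2),(k7,k2),(k11,k2)],
    [(k0,k2),(k4,k2),(k8,k2)],[(k1,k2),(k10,k2)]]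
    [] k0
    [[k1,k0,k0,k0,k0,k1],[k0,k1,k1,k0,k0,k0],[k0,k1,k0,k0,k1,k0],[k0,k0,k1,k1,k0,k0],[k0,k0,k0,k1,k1,k0]]
    [.ref k2 k0 [(z1,[z1])],.ref k0 k0 [(z1,[y1,z1])],.ref k4 k0 [(z1,[y1,z1])],.ref k1 k0 [(z1,[y1,z1])],
    .ref k0 k1 [(z1,[y1,z1])]])]⟩

/-- classes `0 1 0 1 0 2`, types `C0 C0 C0 C0 C2 C0` -/
noncomputable def cU6_1906 : CertX :=
  ⟨[k4,k20,k4,k20,k6,k36],[(false,k0,[k0,k1,k2,k3,k4,k5])],[[[([z1,z1,z0,z0,z1,z1],z2)],[([z1,z0,z0,z1,z1,z1],z2)],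
    []]],
    [.old (.leafM k0 [k0,k1,k4,k5] [] [(k2,k3,z1,[y1,z1]),(k3,k2,z1,[y1,z1])]),
    .old (.leafM k0 [k0,k3,k4,k5] [] [(k1,k2,z1,[y1,z1]),(k2,k1,z1,[y1,z1])]),
    .old (.lp [k2,k2,k2,k2,k2,k2] [k0,k0,k0,k0,k0,k0,k0,k0,k0,k0,k0,k0] k0 [] k8 k5
    [[(k10,k2)],[(k3,k2),(k7,k2),(k8,k2)],[(k0,k2),(k4,k2),(k11,k2)],[(k5,k2),(k9,k2)],[(k2,k2),(k6,k2)],[(k3,k2),(k7,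
    k2),(k8,k2)],[(k0,k2),(k4,k2),(k11,k2)],[(k5,k2),(k9,k2)],[(k2,k2),(k6,k2)],[(k0,k2),(k4,k2),(k11,k2)],[(k3,k2),
    (k7,k2),(k8,k2)],[(k1,k2)]]
    [] k0
    [[k0,k1,k1,k0,k0,k0],[k0,k0,k1,k1,k0,k0]]
    [.ref k1 k0 [(z1,[y1,z1])],.ref k0 k0 [(z1,[y1,z1])]])]⟩

/-- classes `0 1 0 1 0 2`, types `C0 C0 C0 C0 C2 S0` -/
noncomputable def cU6_1907 : CertX :=
  ⟨[k4,k20,k4,k20,k6,k32],[(false,k0,[k0,k1,k2,k3,k4,k5])],[[[([z1,z1,z0,z0,z1,z1],z2)],[([z1,z0,z0,z1,z1,z1],z2)],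
    []]],
    [.old (.leafM k0 [k0,k1,k4,k5] [] [(k2,k3,z1,[y1,z1]),(k3,k2,z1,[y1,z1])]),
    .old (.leafM k0 [k0,k3,k4,k5] [] [(k1,k2,z1,[y1,z1]),(k2,k1,z1,[y1,z1])]),
    .old (.lp [k2,k2,k2,k2,k2,k2] [k0,k0,k0,k0,k0,k0,k0,k0,k0,k0,k0,k0] k0 [] k8 k5
    [[(k1,k2),(k10,k2)],[(k3,k2),(k7,k2),(k8,k2)],[(k0,k2),(k4,k2),(k11,k2)],[(k5,k2),(k9,k2)],[(k2,k2),(k6,k2)],[(k3,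
    k2),(k7,k2),(k8,k2)],[(k0,k2),(k4,k2),(k11,k2)],[(k5,k2),(k9,k2)],[(k2,k2),(k6,k2)],[(k0,k2),(k4,k2),(k11,k2)],
    [(k3,k2),(k7,k2),(k8,k2)],[(k1,k2),(k10,k2)]]
    [] k0
    [[k0,k1,k1,k0,k0,k0],[k0,k0,k1,k1,k0,k0]]
    [.ref k1 k0 [(z1,[y1,z1])],.ref k0 k0 [(z1,[y1,z1])]])]⟩

/-- classes `0 1 0 1 0 2`, types `C0 C0 C0 C2 C0 C0` -/
noncomputable def cU6_1908 : CertX :=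
  ⟨[k4,k20,k4,k22,k4,k36],[(false,k0,[k0,k1,k2,k3,k4,k5]),(true,k5,[k5,k4,k3,k2,k1,k0])],[[[([z1,z0,z0,z1,z1,z1],z2)],
    [([z1,z0,z0,z0,z0,z1],z2)],[]]],
    [.old (.leafM k0 [k0,k3,k4,k5] [] [(k1,k2,z1,[y1,z1]),(k2,k1,z1,[y1,z1])]),
    .old (.leafM k0 [k1,k2,k3,k4] [] [(k5,k0,z1,[z1]),(k0,k5,z1,[z1])]),
    .old (.lp [k2,k2,k2,k2,k2,k2] [k0,k0,k0,k0,k0,k0,k0,k0,k0,k0,k0,k0] k0 [] k8 k5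
    [[(k10,k2)],[(k3,k2),(k7,k2),(k11,k2)],[(k0,k2),(k4,k2),(k8,k2)],[(k5,k2),(k6,k2)],[(k2,k2),(k9,k2)],[(k3,k2),(k7,
    k2),(k11,k2)],[(k0,k2),(k4,k2),(k8,k2)],[(k2,k2),(k9,k2)],[(k5,k2),(k6,k2)],[(k3,k2),(k7,k2),(k11,k2)],[(k0,k2),
    (k4,k2),(k8,k2)],[(k1,k2)]]
    [] k0
    [[k1,k0,k0,k0,k0,k1],[k0,k1,k1,k0,k0,k0],[k0,k0,k0,k1,k1,k0]]
    [.ref k1 k0 [(z1,[z1])],.ref k0 k0 [(z1,[y1,z1])],.ref k0 k1 [(z1,[y1,z1])]])]⟩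

/-- classes `0 1 0 1 0 2`, types `C0 C0 C0 C2 C0 S0` -/
noncomputable def cU6_1909 : CertX :=
  ⟨[k4,k20,k4,k22,k4,k32],[(false,k0,[k0,k1,k2,k3,k4,k5]),(true,k5,[k5,k4,k3,k2,k1,k0])],[[[([z1,z0,z0,z1,z1,z1],z2)],
    [([z1,z0,z0,z0,z0,z1],z2)],[]]],
    [.old (.leafM k0 [k0,k3,k4,k5] [] [(k1,k2,z1,[y1,z1]),(k2,k1,z1,[y1,z1])]),
    .old (.leafM k0 [k1,k2,k3,k4] [] [(k5,k0,z1,[z1]),(k0,k5,z1,[z1])]),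
    .old (.lp [k2,k2,k2,k2,k2,k2] [k0,k0,k0,k0,k0,k0,k0,k0,k0,k0,k0,k0] k0 [] k8 k5
    [[(k1,k2),(k10,k2)],[(k3,k2),(k7,k2),(k11,k2)],[(k0,k2),(k4,k2),(k8,k2)],[(k5,k2),(k6,k2)],[(k2,k2),(k9,k2)],[(k3,
    k2),(k7,k2),(k11,k2)],[(k0,k2),(k4,k2),(k8,k2)],[(k2,k2),(k9,k2)],[(k5,k2),(k6,k2)],[(k3,k2),(k7,k2),(k11,k2)],
    [(k0,k2),(k4,k2),(k8,k2)],[(k1,k2),(k10,k2)]]
    [] k0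
    [[k1,k0,k0,k0,k0,k1],[k0,k1,k1,k0,k0,k0],[k0,k0,k0,k1,k1,k0]]
    [.ref k1 k0 [(z1,[z1])],.ref k0 k0 [(z1,[y1,z1])],.ref k0 k1 [(z1,[y1,z1])]])]⟩

/-- classes `0 1 0 1 0 2`, types `C0 C0 C0 C2 C2 C0` -/
noncomputable def cU6_1910 : CertX :=
  ⟨[k4,k20,k4,k22,k6,k36],[(false,k0,[k0,k1,k2,k3,k4,k5])],[[[([z1,z1,z0,z1,z0,z1],z2)],[([z1,z0,z0,z1,z1,z1],z2)],
    []]],
    [.old (.leafM k1 [k5,k0,k1,k3] [] [(k2,k4,z1,[y1,z1]),(k4,k2,z1,[y1,z1])]),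
    .old (.leafM k0 [k0,k3,k4,k5] [] [(k1,k2,z1,[y1,z1]),(k2,k1,z1,[y1,z1])]),
    .old (.lp [k2,k2,k2,k2,k2,k2] [k0,k0,k0,k0,k0,k0,k0,k0,k0,k0,k0,k0] k0 [] k8 k5
    [[(k10,k2)],[(k3,k2),(k7,k2),(k8,k2)],[(k0,k2),(k4,k2),(k11,k2)],[(k5,k2),(k6,k2)],[(k2,k2),(k9,k2)],[(k3,k2),(k7,
    k2),(k8,k2)],[(k0,k2),(k4,k2),(k11,k2)],[(k2,k2),(k9,k2)],[(k5,k2),(k6,k2)],[(k0,k2),(k4,k2),(k11,k2)],[(k3,k2),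
    (k7,k2),(k8,k2)],[(k1,k2)]]
    [] k0
    [[k0,k1,k1,k0,k0,k0],[k0,k0,k1,k0,k1,k0]]
    [.ref k1 k0 [(z1,[y1,z1])],.ref k0 k0 [(z1,[y1,z1])]])]⟩

/-- classes `0 1 0 1 0 2`, types `C0 C0 C0 C2 C2 S0` -/
noncomputable def cU6_1911 : CertX :=
  ⟨[k4,k20,k4,k22,k6,k32],[(false,k0,[k0,k1,k2,k3,k4,k5])],[[[([z1,z1,z0,z1,z0,z1],z2)],[([z1,z0,z0,z1,z1,z1],z2)],
    []]],
    [.old (.leafM k1 [k5,k0,k1,k3] [] [(k2,k4,z1,[y1,z1]),(k4,k2,z1,[y1,z1])]),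
    .old (.leafM k0 [k0,k3,k4,k5] [] [(k1,k2,z1,[y1,z1]),(k2,k1,z1,[y1,z1])]),
    .old (.lp [k2,k2,k2,k2,k2,k2] [k0,k0,k0,k0,k0,k0,k0,k0,k0,k0,k0,k0] k0 [] k8 k5
    [[(k1,k2),(k10,k2)],[(k3,k2),(k7,k2),(k8,k2)],[(k0,k2),(k4,k2),(k11,k2)],[(k5,k2),(k6,k2)],[(k2,k2),(k9,k2)],[(k3,
    k2),(k7,k2),(k8,k2)],[(k0,k2),(k4,k2),(k11,k2)],[(k2,k2),(k9,k2)],[(k5,k2),(k6,k2)],[(k0,k2),(k4,k2),(k11,k2)],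
    [(k3,k2),(k7,k2),(k8,k2)],[(k1,k2),(k10,k2)]]
    [] k0
    [[k0,k1,k1,k0,k0,k0],[k0,k0,k1,k0,k1,k0]]
    [.ref k1 k0 [(z1,[y1,z1])],.ref k0 k0 [(z1,[y1,z1])]])]⟩

/-- classes `0 1 0 1 0 2`, types `C0 C0 C2 C0 C0 C0` -/
noncomputable def cU6_1912 : CertX :=
  ⟨[k4,k20,k6,k20,k4,k36],[(false,k0,[k0,k1,k2,k3,k4,k5])],[[[([z1,z1,z0,z0,z1,z1],z2)],[([z1,z0,z0,z0,z0,z1],z2)],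
    [([z1,z0,z0,z0,z0,z1],z1),([z0,z1,z0,z0,z1,z0],z2)],[([z1,z0,z1,z1,z0,z1],z2)],[]]],
    [.old (.leafM k0 [k0,k1,k4,k5] [] [(k2,k3,z1,[y1,z1]),(k3,k2,z1,[y1,z1])]),
    .old (.leafM k0 [k1,k2,k3,k4] [] [(k5,k0,z1,[z1]),(k0,k5,z1,[z1])]),
    .old (.leafM k4 [k0,k2,k3,k5] [(z1,[y1,y1,z1])] [(k1,k4,z1,[z0,z1]),(k4,k1,z1,[z0,z1])]),
    .old (.lp [k60,k48,k0,k50,k72,k0] [k6,k6,k12,k12,k36,k36,k11,k11,k0,k0,k36,k36] k0 [[],[],[],[],[k0,k0,k0,k0,k0,k0,k0,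
    k0,k0,k10],[],[],[],[k0,k0,k0,k0,k0,k10]] k120 k6
    [[(k10,k30)],[(k4,k30),(k11,k30),(k3,k54)],[(k7,k49),(k0,k54),(k8,k60)],[(k5,k24),(k9,k60)],[(k2,k24),(k6,k25)],
    [(k7,k25),(k8,k26),(k0,k30)],[(k4,k25),(k11,k35),(k3,k49)],[(k5,k25),(k9,k61)],[(k2,k60),(k6,k61)],[(k4,k26),(k11,
    k36),(k3,k60)],[(k0,k30),(k7,k35),(k8,k36)],[(k1,k30)]]
    [] k0
    [[k1,k0,k0,k0,k0,k1],[k0,k0,k1,k1,k0,k0],[k0,k0,k2,k2,k0,k0]]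
    [.contra [y1,z1],.contra [y1,z1],.ref k2 k0 [(z2,[y1,z2]),(z1,[z0,y1,z1])]]),
    .old (.lp [k2,k2,k2,k2,k2,k2] [k0,k0,k0,k0,k0,k0,k0,k0,k0,k0,k0,k0] k0 [] k8 k5
    [[(k10,k2)],[(k3,k2),(k4,k2),(k11,k2)],[(k0,k2),(k7,k2),(k8,k2)],[(k5,k2),(k9,k2)],[(k2,k2),(k6,k2)],[(k0,k2),(k7,
    k2),(k8,k2)],[(k3,k2),(k4,k2),(k11,k2)],[(k5,k2),(k9,k2)],[(k2,k2),(k6,k2)],[(k3,k2),(k4,k2),(k11,k2)],[(k0,k2),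
    (k7,k2),(k8,k2)],[(k1,k2)]]
    [] k0
    [[k1,k0,k0,k0,k0,k1],[k0,k1,k0,k0,k1,k0],[k0,k0,k1,k1,k0,k0]]
    [.ref k1 k0 [(z1,[z1])],.ref k3 k0 [(z1,[y1,z1])],.ref k0 k0 [(z1,[y1,z1])]])]⟩

/-- classes `0 1 0 1 0 2`, types `C0 C0 C2 C0 C0 S0` -/
noncomputable def cU6_1913 : CertX :=
  ⟨[k4,k20,k6,k20,k4,k32],[(false,k0,[k0,k1,k2,k3,k4,k5])],[[[([z1,z1,z0,z0,z1,z1],z2)],[([z1,z0,z0,z0,z0,z1],z2)],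
    [([z1,z0,z0,z0,z0,z1],z1),([z0,z1,z0,z0,z1,z0],z2)],[([z1,z0,z1,z1,z0,z1],z2)],[]]],
    [.old (.leafM k0 [k0,k1,k4,k5] [] [(k2,k3,z1,[y1,z1]),(k3,k2,z1,[y1,z1])]),
    .old (.leafM k0 [k1,k2,k3,k4] [] [(k5,k0,z1,[z1]),(k0,k5,z1,[z1])]),
    .old (.leafM k4 [k0,k2,k3,k5] [(z1,[y1,y1,z1])] [(k1,k4,z1,[z0,z1]),(k4,k1,z1,[z0,z1])]),
    .old (.lp [k24,k88,k34,k26,k30,k28] [k32,k32,k0,k0,k27,k27,k31,k31,k29,k29,k30,k30] k0 [[k0,k0,k0,k0,k0,k0,k0,k0,k2],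
    [],[],[],[k0,k0,k0,k0,k0,k0,k0,k0,k0,k8],[],[],[],[k0,k0,k0,k0,k0,k8],[k0,k2]] k120 k6
    [[(k1,k24),(k10,k26)],[(k11,k24),(k4,k29),(k3,k56)],[(k0,k56),(k7,k57),(k8,k61)],[(k9,k59),(k5,k61)],[(k6,k30),
    (k2,k61)],[(k8,k24),(k0,k29),(k7,k30)],[(k4,k30),(k11,k35),(k3,k57)],[(k9,k28),(k5,k30)],[(k6,k28),(k2,k59)],[(k4,
    k24),(k11,k29),(k3,k61)],[(k0,k24),(k8,k29),(k7,k35)],[(k1,k26),(k10,k28)]]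
    [] k0
    [[k2,k0,k0,k0,k0,k2],[k1,k0,k0,k0,k0,k1],[k0,k0,k1,k1,k0,k0]]
    [.ref k2 k0 [(z2,[z1]),(z1,[z0,y1,z1])],.contra [y1,z1],.contra [y1,z1]]),
    .old (.lp [k2,k2,k2,k2,k2,k2] [k0,k0,k0,k0,k0,k0,k0,k0,k0,k0,k0,k0] k0 [] k8 k5
    [[(k1,k2),(k10,k2)],[(k3,k2),(k4,k2),(k11,k2)],[(k0,k2),(k7,k2),(k8,k2)],[(k5,k2),(k9,k2)],[(k2,k2),(k6,k2)],[(k0,
    k2),(k7,k2),(k8,k2)],[(k3,k2),(k4,k2),(k11,k2)],[(k5,k2),(k9,k2)],[(k2,k2),(k6,k2)],[(k3,k2),(k4,k2),(k11,k2)],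
    [(k0,k2),(k7,k2),(k8,k2)],[(k1,k2),(k10,k2)]]
    [] k0
    [[k1,k0,k0,k0,k0,k1],[k0,k1,k0,k0,k1,k0],[k0,k0,k1,k1,k0,k0]]
    [.ref k1 k0 [(z1,[z1])],.ref k3 k0 [(z1,[y1,z1])],.ref k0 k0 [(z1,[y1,z1])]])]⟩

/-- classes `0 1 0 1 0 2`, types `C0 C0 C2 C2 C0 C0` -/
noncomputable def cU6_1914 : CertX :=
  ⟨[k4,k20,k6,k22,k4,k36],[(false,k0,[k0,k1,k2,k3,k4,k5]),(true,k5,[k5,k4,k3,k2,k1,k0])],[[[([z1,z0,z1,z0,z1,z1],z2)],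
    [([z1,z0,z0,z0,z0,z1],z2)],[]]],
    [.old (.leafM k1 [k4,k5,k0,k2] [] [(k1,k3,z1,[y1,z1]),(k3,k1,z1,[y1,z1])]),
    .old (.leafM k0 [k1,k2,k3,k4] [] [(k5,k0,z1,[z1]),(k0,k5,z1,[z1])]),
    .old (.lp [k2,k2,k2,k2,k2,k2] [k0,k0,k0,k0,k0,k0,k0,k0,k0,k0,k0,k0] k0 [] k8 k5
    [[(k10,k2)],[(k3,k2),(k4,k2),(k11,k2)],[(k0,k2),(k7,k2),(k8,k2)],[(k5,k2),(k6,k2)],[(k2,k2),(k9,k2)],[(k0,k2),(k7,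
    k2),(k8,k2)],[(k3,k2),(k4,k2),(k11,k2)],[(k2,k2),(k9,k2)],[(k5,k2),(k6,k2)],[(k3,k2),(k4,k2),(k11,k2)],[(k0,k2),
    (k7,k2),(k8,k2)],[(k1,k2)]]
    [] k0
    [[k1,k0,k0,k0,k0,k1],[k0,k1,k0,k1,k0,k0],[k0,k0,k1,k0,k1,k0]]
    [.ref k1 k0 [(z1,[z1])],.ref k0 k0 [(z1,[y1,z1])],.ref k0 k1 [(z1,[y1,z1])]])]⟩

/-- classes `0 1 0 1 0 2`, types `C0 C0 C2 C2 C0 S0` -/
noncomputable def cU6_1915 : CertX :=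
  ⟨[k4,k20,k6,k22,k4,k32],[(false,k0,[k0,k1,k2,k3,k4,k5]),(true,k5,[k5,k4,k3,k2,k1,k0])],[[[([z1,z0,z1,z0,z1,z1],z2)],
    [([z1,z0,z0,z0,z0,z1],z2)],[]]],
    [.old (.leafM k1 [k4,k5,k0,k2] [] [(k1,k3,z1,[y1,z1]),(k3,k1,z1,[y1,z1])]),
    .old (.leafM k0 [k1,k2,k3,k4] [] [(k5,k0,z1,[z1]),(k0,k5,z1,[z1])]),
    .old (.lp [k2,k2,k2,k2,k2,k2] [k0,k0,k0,k0,k0,k0,k0,k0,k0,k0,k0,k0] k0 [] k8 k5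
    [[(k1,k2),(k10,k2)],[(k3,k2),(k4,k2),(k11,k2)],[(k0,k2),(k7,k2),(k8,k2)],[(k5,k2),(k6,k2)],[(k2,k2),(k9,k2)],[(k0,
    k2),(k7,k2),(k8,k2)],[(k3,k2),(k4,k2),(k11,k2)],[(k2,k2),(k9,k2)],[(k5,k2),(k6,k2)],[(k3,k2),(k4,k2),(k11,k2)],
    [(k0,k2),(k7,k2),(k8,k2)],[(k1,k2),(k10,k2)]]
    [] k0
    [[k1,k0,k0,k0,k0,k1],[k0,k1,k0,k1,k0,k0],[k0,k0,k1,k0,k1,k0]]
    [.ref k1 k0 [(z1,[z1])],.ref k0 k0 [(z1,[y1,z1])],.ref k0 k1 [(z1,[y1,z1])]])]⟩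

/-- classes `0 1 0 1 0 2`, types `C0 N0 C0 N1 C0 C0` -/
noncomputable def cU6_1916 : CertX :=
  ⟨[k4,k28,k4,k29,k4,k36],[(false,k0,[k0,k1,k2,k3,k4,k5])],[[[([z1,z1,z0,z0,z1,z1],z2)],[([z1,z0,z0,z0,z0,z1],z1),
    ([z0,z1,z0,z0,z1,z0],z2)],[([z1,z0,z1,z1,z0,z1],z2)],[([z1,z0,z0,z0,z0,z1],z2),([z0,z1,z0,z0,z1,z0],z1)],[([z1,z0,
    z0,z0,z0,z1],z2)],[]]],
    [.old (.leafM k0 [k0,k1,k4,k5] [] [(k2,k3,z1,[y1,z1]),(k3,k2,z1,[y1,z1])]),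
    .old (.leafM k4 [k0,k2,k3,k5] [(z1,[y1,y1,z1])] [(k1,k4,z1,[z0,z1]),(k4,k1,z1,[z0,z1])]),
    .old (.lp [k22,k48,k0,k50,k62,k48] [k20,k20,k7,k7,k31,k31,k6,k6,k0,k0,k7,k7] k0 [[k0,k0,k0,k0,k0,k0,k0,k0,k10],[],[],
    [],[],[],[],[],[],[k0,k10]] k120 k6
    [[(k10,k35)],[(k11,k25),(k3,k35),(k7,k36)],[(k4,k24),(k0,k35),(k8,k65)],[(k9,k55)],[(k6,k25)],[(k3,k24),(k11,k24),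
    (k7,k25)],[(k4,k25),(k0,k36),(k8,k56)],[(k5,k25)],[(k2,k55)],[(k11,k55),(k7,k56),(k3,k65)],[(k4,k24),(k0,k25),(k8,
    k55)],[(k1,k35)]]
    [] k0
    [[k1,k0,k0,k0,k0,k1],[k0,k0,k1,k1,k0,k0],[k0,k0,k2,k2,k0,k0]]
    [.contra [y1,z1],.contra [y1,z1],.ref k1 k0 [(z2,[y1,z2]),(z1,[z0,y1,z1])]]),
    .old (.leafM k4 [k1,k2,k3,k4] [(z1,[y1,y1,z1])] [(k5,k0,z1,[z1]),(k0,k5,z1,[z1])]),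
    .old (.lp [(nat_lit 14076),(nat_lit 5520),k0,(nat_lit 12240),(nat_lit 3910),(nat_lit 9384)] [k0,k0,(nat_lit 4278),
    (nat_lit 4278),(nat_lit 7038),(nat_lit 7038),(nat_lit 918),(nat_lit 918),(nat_lit 5083),(nat_lit 5083),
    (nat_lit 2346),(nat_lit 2346)] k0 [[k0,k0,k0,k0,(nat_lit 1955)],[],[],[],[],[k0,
    (nat_lit 1955)]] (nat_lit 23460) k6
    [[(k10,(nat_lit 11730))],[(k3,(nat_lit 9798)),(k7,(nat_lit 11203)),(k11,(nat_lit 11730))],[(k4,(nat_lit 4715)),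
    (k8,(nat_lit 4715)),(k0,(nat_lit 9798))],[(k9,(nat_lit 4715))],[(k6,(nat_lit 6120))],[(k11,(nat_lit 4692)),(k3,
    (nat_lit 4715)),(k7,(nat_lit 6120))],[(k4,(nat_lit 6120)),(k8,(nat_lit 8075)),(k0,(nat_lit 11203))],[(k5,
    (nat_lit 6120))],[(k2,(nat_lit 4715))],[(k3,(nat_lit 4715)),(k11,(nat_lit 6647)),(k7,(nat_lit 8075))],[(k4,
    (nat_lit 4692)),(k8,(nat_lit 6647)),(k0,(nat_lit 11730))],[(k1,(nat_lit 11730))]]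
    [] k0
    [[k0,k1,k0,k0,k1,k0],[k0,k2,k0,k0,k2,k0],[k0,k0,k1,k1,k0,k0]]
    [.contra [y1,y1,z1],.ref k3 k0 [(z1,[z0,z1]),(z2,[z1])],.contra [y1,y1,z1]]),
    .old (.lp [k0,k2,k0,k2,k0,k2] [k1,k1,k0,k0,k1,k1,k0,k0,k1,k1,k0,k0] k0 [] k4 k5
    [[(k10,k1)],[(k3,k1),(k7,k1),(k11,k1)],[(k0,k1),(k4,k1),(k8,k1)],[(k9,k1)],[(k6,k1)],[(k3,k1),(k7,k1),(k11,k1)],
    [(k0,k1),(k4,k1),(k8,k1)],[(k5,k1)],[(k2,k1)],[(k3,k1),(k7,k1),(k11,k1)],[(k0,k1),(k4,k1),(k8,k1)],[(k1,k1)]]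
    [] k0
    [[k1,k0,k0,k0,k0,k1],[k0,k1,k0,k0,k1,k0],[k0,k0,k1,k1,k0,k0]]
    [.ref k4 k0 [(z1,[z1])],.ref k2 k0 [(z1,[y1,z1])],.ref k0 k0 [(z1,[y1,z1])]])]⟩

/-- classes `0 1 0 1 0 2`, types `C0 N0 C0 N1 C0 S0` -/
noncomputable def cU6_1917 : CertX :=
  ⟨[k4,k28,k4,k29,k4,k32],[(false,k0,[k0,k1,k2,k3,k4,k5])],[[[([z1,z1,z0,z0,z1,z1],z2)],[([z1,z0,z0,z0,z0,z1],z1),
    ([z0,z1,z0,z0,z1,z0],z2)],[([z1,z0,z1,z1,z0,z1],z2)],[([z1,z0,z0,z0,z0,z1],z2),([z0,z1,z0,z0,z1,z0],z1)],[([z1,z0,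
    z0,z0,z0,z1],z2)],[]]],
    [.old (.leafM k0 [k0,k1,k4,k5] [] [(k2,k3,z1,[y1,z1]),(k3,k2,z1,[y1,z1])]),
    .old (.leafM k4 [k0,k2,k3,k5] [(z1,[y1,y1,z1])] [(k1,k4,z1,[z0,z1]),(k4,k1,z1,[z0,z1])]),
    .old (.lp [k24,k110,k0,k48,k0,k48] [k43,k43,k0,k0,k55,k55,k31,k31,k55,k55,k31,k31] k0 [[k0,k0,k0,k0,k0,k0,k0,k0,k10],
    [],[],[],[],[],[],[],[],[k0,k10]] k120 k6
    [[(k1,k24),(k10,k36)],[(k11,k26),(k7,k36),(k3,k67)],[(k4,k55),(k8,k65),(k0,k67)],[(k9,k55)],[(k6,k24)],[(k7,k24),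
    (k11,k24),(k3,k55)],[(k4,k24),(k8,k24),(k0,k36)],[(k5,k24)],[(k2,k55)],[(k7,k24),(k11,k24),(k3,k65)],[(k4,k24),
    (k8,k24),(k0,k26)],[(k1,k36),(k10,k48)]]
    [] k0
    [[k1,k0,k0,k0,k0,k1],[k0,k0,k1,k1,k0,k0],[k0,k0,k2,k2,k0,k0]]
    [.contra [y1,z1],.contra [y1,z1],.ref k1 k0 [(z2,[y1,z2]),(z1,[z0,y1,z1])]]),
    .old (.leafM k4 [k1,k2,k3,k4] [(z1,[y1,y1,z1])] [(k5,k0,z1,[z1]),(k0,k5,z1,[z1])]),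
    .old (.lp [(nat_lit 408),(nat_lit 850),(nat_lit 544),(nat_lit 480),k0,(nat_lit 1632)] [(nat_lit 612),(nat_lit 612),
    (nat_lit 391),(nat_lit 391),(nat_lit 544),(nat_lit 544),(nat_lit 576),(nat_lit 576),(nat_lit 816),(nat_lit 816),
    k0,k0] k0 [[],[],[],[],[k0,k0,k0,k0,k0,k0,k0,k0,k170],[],[],[],[],[k0,k0,k0,k0,k0,k170]] (nat_lit 2040) k6
    [[(k1,(nat_lit 408)),(k10,(nat_lit 1020))],[(k7,(nat_lit 444)),(k3,(nat_lit 629)),(k11,(nat_lit 1020))],[(k8,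
    (nat_lit 425)),(k0,(nat_lit 629)),(k4,(nat_lit 697))],[(k9,(nat_lit 425))],[(k6,(nat_lit 512))],[(k7,
    (nat_lit 512)),(k3,(nat_lit 697)),(k11,(nat_lit 918))],[(k8,(nat_lit 410)),(k0,(nat_lit 444)),(k4,(nat_lit 512))],
    [(k5,(nat_lit 512))],[(k2,(nat_lit 425))],[(k7,(nat_lit 410)),(k3,(nat_lit 425)),(k11,(nat_lit 816))],[(k8,
    (nat_lit 816)),(k4,(nat_lit 918)),(k0,(nat_lit 1020))],[(k1,(nat_lit 1020)),(k10,(nat_lit 1632))]]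
    [] k0
    [[k0,k1,k0,k0,k1,k0],[k0,k2,k0,k0,k2,k0],[k0,k0,k1,k1,k0,k0]]
    [.contra [y1,y1,z1],.ref k3 k0 [(z1,[z0,z1]),(z2,[z1])],.contra [y1,y1,z1]]),
    .old (.lp [k2,k2,k2,k2,k2,k2] [k0,k0,k0,k0,k0,k0,k0,k0,k0,k0,k0,k0] k0 [] k8 k5
    [[(k1,k2),(k10,k2)],[(k3,k2),(k7,k2),(k11,k2)],[(k0,k2),(k4,k2),(k8,k2)],[(k9,k2)],[(k6,k2)],[(k3,k2),(k7,k2),
    (k11,k2)],[(k0,k2),(k4,k2),(k8,k2)],[(k5,k2)],[(k2,k2)],[(k3,k2),(k7,k2),(k11,k2)],[(k0,k2),(k4,k2),(k8,k2)],[(k1,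
    k2),(k10,k2)]]
    [] k0
    [[k1,k0,k0,k0,k0,k1],[k0,k1,k0,k0,k1,k0],[k0,k0,k1,k1,k0,k0]]
    [.ref k4 k0 [(z1,[z1])],.ref k2 k0 [(z1,[y1,z1])],.ref k0 k0 [(z1,[y1,z1])]])]⟩

/-- classes `0 1 0 1 0 2`, types `C0 N0 C0 N1 C2 C0` -/
noncomputable def cU6_1918 : CertX :=
  ⟨[k4,k28,k4,k29,k6,k36],[(false,k0,[k0,k1,k2,k3,k4,k5])],[[[([z1,z1,z0,z0,z1,z1],z2)],[]]],
    [.old (.leafM k0 [k0,k1,k4,k5] [] [(k2,k3,z1,[y1,z1]),(k3,k2,z1,[y1,z1])]),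
    .old (.lp [k2,k2,k2,k2,k2,k2] [k0,k0,k0,k0,k0,k0,k0,k0,k0,k0,k0,k0] k0 [] k8 k5
    [[(k10,k2)],[(k3,k2),(k7,k2),(k8,k2)],[(k0,k2),(k4,k2),(k11,k2)],[(k9,k2)],[(k6,k2)],[(k3,k2),(k7,k2),(k8,k2)],
    [(k0,k2),(k4,k2),(k11,k2)],[(k5,k2)],[(k2,k2)],[(k0,k2),(k4,k2),(k11,k2)],[(k3,k2),(k7,k2),(k8,k2)],[(k1,k2)]]
    [] k0
    [[k0,k0,k1,k1,k0,k0]]
    [.ref k0 k0 [(z1,[y1,z1])]])]⟩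

/-- classes `0 1 0 1 0 2`, types `C0 N0 C0 N1 C2 S0` -/
noncomputable def cU6_1919 : CertX :=
  ⟨[k4,k28,k4,k29,k6,k32],[(false,k0,[k0,k1,k2,k3,k4,k5])],[[[([z1,z1,z0,z0,z1,z1],z2)],[]]],
    [.old (.leafM k0 [k0,k1,k4,k5] [] [(k2,k3,z1,[y1,z1]),(k3,k2,z1,[y1,z1])]),
    .old (.lp [k2,k2,k2,k2,k2,k2] [k0,k0,k0,k0,k0,k0,k0,k0,k0,k0,k0,k0] k0 [] k8 k5
    [[(k1,k2),(k10,k2)],[(k3,k2),(k7,k2),(k8,k2)],[(k0,k2),(k4,k2),(k11,k2)],[(k9,k2)],[(k6,k2)],[(k3,k2),(k7,k2),(k8,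
    k2)],[(k0,k2),(k4,k2),(k11,k2)],[(k5,k2)],[(k2,k2)],[(k0,k2),(k4,k2),(k11,k2)],[(k3,k2),(k7,k2),(k8,k2)],[(k1,k2),
    (k10,k2)]]
    [] k0
    [[k0,k0,k1,k1,k0,k0]]
    [.ref k0 k0 [(z1,[y1,z1])]])]⟩

/-- classes `0 1 0 1 0 2`, types `C0 N0 C0 N2 C0 C0` -/
noncomputable def cU6_1920 : CertX :=
  ⟨[k4,k28,k4,k30,k4,k36],[(false,k0,[k0,k1,k2,k3,k4,k5])],[[[([z1,z0,z0,z0,z0,z1],z2)],[]]],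
    [.old (.leafM k2 [k2,k3,k4,k1] [] [(k5,k0,z1,[z1]),(k0,k5,z1,[z1])]),
    .old (.lp [k2,k2,k2,k2,k2,k2] [k0,k0,k0,k0,k0,k0,k0,k0,k0,k0,k0,k0] k0 [] k8 k5
    [[(k10,k2)],[(k3,k2),(k7,k2),(k11,k2)],[(k0,k2),(k4,k2),(k8,k2)],[(k6,k2)],[(k9,k2)],[(k3,k2),(k7,k2),(k11,k2)],
    [(k0,k2),(k4,k2),(k8,k2)],[(k2,k2)],[(k5,k2)],[(k3,k2),(k7,k2),(k11,k2)],[(k0,k2),(k4,k2),(k8,k2)],[(k1,k2)]]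
    [] k0
    [[k1,k0,k0,k0,k0,k1]]
    [.ref k0 k0 [(z1,[z1])]])]⟩

/-- classes `0 1 0 1 0 2`, types `C0 N0 C0 N2 C0 S0` -/
noncomputable def cU6_1921 : CertX :=
  ⟨[k4,k28,k4,k30,k4,k32],[(false,k0,[k0,k1,k2,k3,k4,k5])],[[[([z1,z0,z0,z0,z0,z1],z2)],[]]],
    [.old (.leafM k2 [k2,k3,k4,k1] [] [(k5,k0,z1,[z1]),(k0,k5,z1,[z1])]),
    .old (.lp [k2,k2,k2,k2,k2,k2] [k0,k0,k0,k0,k0,k0,k0,k0,k0,k0,k0,k0] k0 [] k8 k5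
    [[(k1,k2),(k10,k2)],[(k3,k2),(k7,k2),(k11,k2)],[(k0,k2),(k4,k2),(k8,k2)],[(k6,k2)],[(k9,k2)],[(k3,k2),(k7,k2),
    (k11,k2)],[(k0,k2),(k4,k2),(k8,k2)],[(k2,k2)],[(k5,k2)],[(k3,k2),(k7,k2),(k11,k2)],[(k0,k2),(k4,k2),(k8,k2)],[(k1,
    k2),(k10,k2)]]
    [] k0
    [[k1,k0,k0,k0,k0,k1]]
    [.ref k0 k0 [(z1,[z1])]])]⟩

/-- classes `0 1 0 1 0 2`, types `C0 N0 C0 N2 C2 C0` -/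
noncomputable def cU6_1922 : CertX :=
  ⟨[k4,k28,k4,k30,k6,k36],[(false,k0,[k0,k1,k2,k3,k4,k5])],[[[([z1,z1,z0,z1,z0,z1],z2)],[]]],
    [.old (.leafM k1 [k5,k0,k1,k3] [] [(k2,k4,z1,[y1,z1]),(k4,k2,z1,[y1,z1])]),
    .old (.lp [k2,k2,k2,k2,k2,k2] [k0,k0,k0,k0,k0,k0,k0,k0,k0,k0,k0,k0] k0 [] k8 k5
    [[(k10,k2)],[(k3,k2),(k7,k2),(k8,k2)],[(k0,k2),(k4,k2),(k11,k2)],[(k6,k2)],[(k9,k2)],[(k3,k2),(k7,k2),(k8,k2)],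
    [(k0,k2),(k4,k2),(k11,k2)],[(k2,k2)],[(k5,k2)],[(k0,k2),(k4,k2),(k11,k2)],[(k3,k2),(k7,k2),(k8,k2)],[(k1,k2)]]
    [] k0
    [[k0,k0,k1,k0,k1,k0]]
    [.ref k0 k0 [(z1,[y1,z1])]])]⟩

/-- classes `0 1 0 1 0 2`, types `C0 N0 C0 N2 C2 S0` -/
noncomputable def cU6_1923 : CertX :=
  ⟨[k4,k28,k4,k30,k6,k32],[(false,k0,[k0,k1,k2,k3,k4,k5])],[[[([z1,z1,z0,z1,z0,z1],z2)],[]]],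
    [.old (.leafM k1 [k5,k0,k1,k3] [] [(k2,k4,z1,[y1,z1]),(k4,k2,z1,[y1,z1])]),
    .old (.lp [k2,k2,k2,k2,k2,k2] [k0,k0,k0,k0,k0,k0,k0,k0,k0,k0,k0,k0] k0 [] k8 k5
    [[(k1,k2),(k10,k2)],[(k3,k2),(k7,k2),(k8,k2)],[(k0,k2),(k4,k2),(k11,k2)],[(k6,k2)],[(k9,k2)],[(k3,k2),(k7,k2),(k8,
    k2)],[(k0,k2),(k4,k2),(k11,k2)],[(k2,k2)],[(k5,k2)],[(k0,k2),(k4,k2),(k11,k2)],[(k3,k2),(k7,k2),(k8,k2)],[(k1,k2),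
    (k10,k2)]]
    [] k0
    [[k0,k0,k1,k0,k1,k0]]
    [.ref k0 k0 [(z1,[y1,z1])]])]⟩

/-- classes `0 1 0 1 0 2`, types `C0 N0 C2 N1 C0 C0` -/
noncomputable def cU6_1924 : CertX :=
  ⟨[k4,k28,k6,k29,k4,k36],[(false,k0,[k0,k1,k2,k3,k4,k5])],[[[([z1,z1,z0,z0,z1,z1],z2)],[([z1,z0,z0,z0,z0,z1],z1),
    ([z0,z1,z0,z0,z1,z0],z2)],[([z1,z0,z1,z1,z0,z1],z2)],[([z1,z0,z0,z0,z0,z1],z2),([z0,z1,z0,z0,z1,z0],z1)],[([z1,z0,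
    z0,z0,z0,z1],z2)],[]]],
    [.old (.leafM k0 [k0,k1,k4,k5] [] [(k2,k3,z1,[y1,z1]),(k3,k2,z1,[y1,z1])]),
    .old (.leafM k4 [k0,k2,k3,k5] [(z1,[y1,y1,z1])] [(k1,k4,z1,[z0,z1]),(k4,k1,z1,[z0,z1])]),
    .old (.lp [k12,k0,k0,k10,k24,k0] [k6,k6,k12,k12,k12,k12,k7,k7,k0,k0,k12,k12] k0 [[],[],[],[],[k0,k0,k0,k0,k0,k0,k0,k0,
    k0,k2],[],[],[],[k0,k0,k0,k0,k0,k2]] k24 k6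
    [[(k10,k6)],[(k3,k6),(k4,k6),(k11,k6)],[(k7,k5),(k0,k6),(k8,k12)],[(k9,k12)],[(k6,k5)],[(k7,k5),(k0,k6),(k8,k10)],
    [(k3,k5),(k4,k5),(k11,k7)],[(k5,k5)],[(k2,k12)],[(k4,k10),(k3,k12),(k11,k12)],[(k0,k6),(k7,k7),(k8,k12)],[(k1,
    k6)]]
    [] k0
    [[k1,k0,k0,k0,k0,k1],[k0,k0,k1,k1,k0,k0],[k0,k0,k2,k2,k0,k0]]
    [.contra [y1,z1],.contra [y1,z1],.ref k1 k0 [(z2,[y1,z2]),(z1,[z0,y1,z1])]]),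
    .old (.leafM k4 [k1,k2,k3,k4] [(z1,[y1,y1,z1])] [(k5,k0,z1,[z1]),(k0,k5,z1,[z1])]),
    .old (.lp [(nat_lit 1380),k0,k0,(nat_lit 720),(nat_lit 552),k0] [k0,k0,(nat_lit 690),(nat_lit 690),(nat_lit 690),
    (nat_lit 690),(nat_lit 330),(nat_lit 330),(nat_lit 414),(nat_lit 414),(nat_lit 690),(nat_lit 690)] k0 [[k0,k0,k0,
    k0,k0,k115],[],[],[],[k0,k115]] (nat_lit 1380) k6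
    [[(k10,(nat_lit 690))],[(k4,(nat_lit 575)),(k3,(nat_lit 690)),(k11,(nat_lit 690))],[(k8,(nat_lit 276)),(k7,
    (nat_lit 475)),(k0,(nat_lit 690))],[(k9,(nat_lit 276))],[(k6,(nat_lit 360))],[(k8,(nat_lit 276)),(k7,
    (nat_lit 360)),(k0,(nat_lit 575))],[(k4,(nat_lit 360)),(k11,(nat_lit 360)),(k3,(nat_lit 475))],[(k5,
    (nat_lit 360))],[(k2,(nat_lit 276))],[(k3,(nat_lit 276)),(k4,(nat_lit 276)),(k11,(nat_lit 276))],[(k8,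
    (nat_lit 276)),(k7,(nat_lit 360)),(k0,(nat_lit 690))],[(k1,(nat_lit 690))]]
    [] k0
    [[k0,k1,k0,k0,k1,k0],[k0,k2,k0,k0,k2,k0],[k0,k0,k1,k1,k0,k0]]
    [.contra [y1,y1,z1],.ref k3 k0 [(z1,[z0,z1]),(z2,[z1])],.contra [y1,y1,z1]]),
    .old (.lp [k2,k0,k0,k2,k2,k0] [k0,k0,k1,k1,k1,k1,k0,k0,k0,k0,k1,k1] k0 [] k4 k5
    [[(k10,k1)],[(k3,k1),(k4,k1),(k11,k1)],[(k0,k1),(k7,k1),(k8,k1)],[(k9,k1)],[(k6,k1)],[(k0,k1),(k7,k1),(k8,k1)],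
    [(k3,k1),(k4,k1),(k11,k1)],[(k5,k1)],[(k2,k1)],[(k3,k1),(k4,k1),(k11,k1)],[(k0,k1),(k7,k1),(k8,k1)],[(k1,k1)]]
    [] k0
    [[k1,k0,k0,k0,k0,k1],[k0,k1,k0,k0,k1,k0],[k0,k0,k1,k1,k0,k0]]
    [.ref k4 k0 [(z1,[z1])],.ref k2 k0 [(z1,[y1,z1])],.ref k0 k0 [(z1,[y1,z1])]])]⟩

/-- classes `0 1 0 1 0 2`, types `C0 N0 C2 N1 C0 S0` -/
noncomputable def cU6_1925 : CertX :=
  ⟨[k4,k28,k6,k29,k4,k32],[(false,k0,[k0,k1,k2,k3,k4,k5])],[[[([z1,z1,z0,z0,z1,z1],z2)],[([z1,z0,z0,z0,z0,z1],z1),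
    ([z0,z1,z0,z0,z1,z0],z2)],[([z1,z0,z1,z1,z0,z1],z2)],[([z1,z0,z0,z0,z0,z1],z2),([z0,z1,z0,z0,z1,z0],z1)],[([z1,z0,
    z0,z0,z0,z1],z2)],[]]],
    [.old (.leafM k0 [k0,k1,k4,k5] [] [(k2,k3,z1,[y1,z1]),(k3,k2,z1,[y1,z1])]),
    .old (.leafM k4 [k0,k2,k3,k5] [(z1,[y1,y1,z1])] [(k1,k4,z1,[z0,z1]),(k4,k1,z1,[z0,z1])]),
    .old (.lp [k24,k98,k56,k4,k20,k28] [k37,k37,k0,k0,k21,k21,k47,k47,k39,k39,k35,k35] k0 [[k0,k0,k0,k0,k0,k0,k0,k0,k2],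
    [],[],[],[k0,k0,k0,k0,k0,k0,k0,k0,k0,k8],[],[],[],[k0,k0,k0,k0,k0,k8],[k0,k2]] k120 k6
    [[(k1,k24),(k10,k26)],[(k11,k24),(k4,k40),(k3,k61)],[(k7,k51),(k0,k61),(k8,k61)],[(k9,k59)],[(k6,k30)],[(k7,k30),
    (k8,k30),(k0,k40)],[(k11,k24),(k4,k30),(k3,k51)],[(k5,k30)],[(k2,k59)],[(k11,k24),(k4,k30),(k3,k61)],[(k0,k24),
    (k7,k24),(k8,k24)],[(k1,k26),(k10,k28)]]
    [] k0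
    [[k2,k0,k0,k0,k0,k2],[k1,k0,k0,k0,k0,k1],[k0,k0,k1,k1,k0,k0]]
    [.ref k1 k0 [(z2,[z1]),(z1,[z0,y1,z1])],.contra [y1,z1],.contra [y1,z1]]),
    .old (.leafM k4 [k1,k2,k3,k4] [(z1,[y1,y1,z1])] [(k5,k0,z1,[z1]),(k0,k5,z1,[z1])]),
    .old (.lp [k24,k50,k60,k0,k0,k96] [k36,k36,k23,k23,k18,k18,k48,k48,k48,k48,k0,k0] k0 [[k0,k0,k0,k0,k0,k10],[],[],[],
    [k0,k10]] k120 k6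
    [[(k1,k24),(k10,k60)],[(k4,k32),(k3,k37),(k11,k60)],[(k8,k25),(k7,k35),(k0,k37)],[(k9,k25)],[(k6,k30)],[(k7,k30),
    (k8,k30),(k0,k32)],[(k4,k30),(k3,k35),(k11,k48)],[(k5,k30)],[(k2,k25)],[(k3,k25),(k4,k30),(k11,k48)],[(k7,k48),
    (k8,k48),(k0,k60)],[(k1,k60),(k10,k96)]]
    [] k0
    [[k0,k1,k0,k0,k1,k0],[k0,k2,k0,k0,k2,k0],[k0,k0,k1,k1,k0,k0]]
    [.contra [y1,y1,z1],.ref k3 k0 [(z1,[z0,z1]),(z2,[z1])],.contra [y1,y1,z1]]),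
    .old (.lp [k2,k2,k2,k2,k2,k2] [k0,k0,k0,k0,k0,k0,k0,k0,k0,k0,k0,k0] k0 [] k8 k5
    [[(k1,k2),(k10,k2)],[(k3,k2),(k4,k2),(k11,k2)],[(k0,k2),(k7,k2),(k8,k2)],[(k9,k2)],[(k6,k2)],[(k0,k2),(k7,k2),(k8,
    k2)],[(k3,k2),(k4,k2),(k11,k2)],[(k5,k2)],[(k2,k2)],[(k3,k2),(k4,k2),(k11,k2)],[(k0,k2),(k7,k2),(k8,k2)],[(k1,k2),
    (k10,k2)]]
    [] k0
    [[k1,k0,k0,k0,k0,k1],[k0,k1,k0,k0,k1,k0],[k0,k0,k1,k1,k0,k0]]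
    [.ref k4 k0 [(z1,[z1])],.ref k2 k0 [(z1,[y1,z1])],.ref k0 k0 [(z1,[y1,z1])]])]⟩

/-- classes `0 1 0 1 0 2`, types `C0 N0 C2 N2 C0 C0` -/
noncomputable def cU6_1926 : CertX :=
  ⟨[k4,k28,k6,k30,k4,k36],[(false,k0,[k0,k1,k2,k3,k4,k5]),(true,k5,[k5,k4,k3,k2,k1,k0])],[[[([z1,z0,z1,z0,z1,z1],z2)],
    [([z1,z0,z0,z0,z0,z1],z2)],[]]],
    [.old (.leafM k1 [k4,k5,k0,k2] [] [(k1,k3,z1,[y1,z1]),(k3,k1,z1,[y1,z1])]),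
    .old (.leafM k2 [k2,k3,k4,k1] [] [(k5,k0,z1,[z1]),(k0,k5,z1,[z1])]),
    .old (.lp [k2,k0,k0,k2,k2,k0] [k0,k0,k1,k1,k1,k1,k0,k0,k0,k0,k1,k1] k0 [] k4 k5
    [[(k10,k1)],[(k3,k1),(k4,k1),(k11,k1)],[(k0,k1),(k7,k1),(k8,k1)],[(k6,k1)],[(k9,k1)],[(k0,k1),(k7,k1),(k8,k1)],
    [(k3,k1),(k4,k1),(k11,k1)],[(k2,k1)],[(k5,k1)],[(k3,k1),(k4,k1),(k11,k1)],[(k0,k1),(k7,k1),(k8,k1)],[(k1,k1)]]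
    [] k0
    [[k1,k0,k0,k0,k0,k1],[k0,k1,k0,k1,k0,k0],[k0,k0,k1,k0,k1,k0]]
    [.ref k1 k0 [(z1,[z1])],.ref k0 k0 [(z1,[y1,z1])],.ref k0 k1 [(z1,[y1,z1])]])]⟩

/-- classes `0 1 0 1 0 2`, types `C0 N0 C2 N2 C0 S0` -/
noncomputable def cU6_1927 : CertX :=
  ⟨[k4,k28,k6,k30,k4,k32],[(false,k0,[k0,k1,k2,k3,k4,k5]),(true,k5,[k5,k4,k3,k2,k1,k0])],[[[([z1,z0,z1,z0,z1,z1],z2)],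
    [([z1,z0,z0,z0,z0,z1],z2)],[]]],
    [.old (.leafM k1 [k4,k5,k0,k2] [] [(k1,k3,z1,[y1,z1]),(k3,k1,z1,[y1,z1])]),
    .old (.leafM k2 [k2,k3,k4,k1] [] [(k5,k0,z1,[z1]),(k0,k5,z1,[z1])]),
    .old (.lp [k2,k2,k2,k2,k2,k2] [k0,k0,k0,k0,k0,k0,k0,k0,k0,k0,k0,k0] k0 [] k8 k5
    [[(k1,k2),(k10,k2)],[(k3,k2),(k4,k2),(k11,k2)],[(k0,k2),(k7,k2),(k8,k2)],[(k6,k2)],[(k9,k2)],[(k0,k2),(k7,k2),(k8,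
    k2)],[(k3,k2),(k4,k2),(k11,k2)],[(k2,k2)],[(k5,k2)],[(k3,k2),(k4,k2),(k11,k2)],[(k0,k2),(k7,k2),(k8,k2)],[(k1,k2),
    (k10,k2)]]
    [] k0
    [[k1,k0,k0,k0,k0,k1],[k0,k1,k0,k1,k0,k0],[k0,k0,k1,k0,k1,k0]]
    [.ref k1 k0 [(z1,[z1])],.ref k0 k0 [(z1,[y1,z1])],.ref k0 k1 [(z1,[y1,z1])]])]⟩

/-- classes `0 1 0 1 0 2`, types `C0 S0 C0 S0 C0 C0` -/
noncomputable def cU6_1928 : CertX :=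
  ⟨[k4,k16,k4,k16,k4,k36],[(false,k0,[k0,k1,k2,k3,k4,k5]),(true,k5,[k5,k4,k3,k2,k1,k0])],[[[([z1,z0,z0,z1,z1,z1],z2)],
    [([z1,z1,z0,z0,z1,z1],z2)],[([z1,z0,z0,z0,z0,z1],z2)],[([z1,z0,z0,z0,z0,z1],z1),([z0,z1,z0,z0,z1,z0],z2)],[([z1,
    z0,z1,z1,z0,z1],z2)],[]]],
    [.old (.leafM k0 [k0,k3,k4,k5] [] [(k1,k2,z1,[y1,z1]),(k2,k1,z1,[y1,z1])]),
    .old (.leafM k0 [k0,k1,k4,k5] [] [(k2,k3,z1,[y1,z1]),(k3,k2,z1,[y1,z1])]),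
    .old (.leafM k0 [k1,k2,k3,k4] [] [(k5,k0,z1,[z1]),(k0,k5,z1,[z1])]),
    .old (.leafM k4 [k0,k2,k3,k5] [(z1,[y1,y1,z1])] [(k1,k4,z1,[z0,z1]),(k4,k1,z1,[z0,z1])]),
    .old (.lp [(nat_lit 480),(nat_lit 396),(nat_lit 264),(nat_lit 396),(nat_lit 924),k110] [(nat_lit 222),(nat_lit 222),
    (nat_lit 264),(nat_lit 264),(nat_lit 330),(nat_lit 330),(nat_lit 264),(nat_lit 264),k0,k0,(nat_lit 407),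
    (nat_lit 407)] k0 [[],[],[],[],[],[k0,k0,k0,k0,k0,k0,k0,k0,k0,k110],[],[],[k0,k0,k0,k0,k110]] (nat_lit 1320) k6
    [[(k10,(nat_lit 295))],[(k11,(nat_lit 295)),(k3,(nat_lit 438)),(k7,(nat_lit 438))],[(k4,(nat_lit 330)),(k0,
    (nat_lit 438)),(k8,(nat_lit 660))],[(k5,(nat_lit 330)),(k2,(nat_lit 396)),(k6,(nat_lit 396)),(k9,(nat_lit 660))],
    [(k5,(nat_lit 264)),(k2,(nat_lit 330)),(k6,(nat_lit 330)),(k9,(nat_lit 594))],[(k11,(nat_lit 297)),(k3,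
    (nat_lit 330)),(k7,(nat_lit 330))],[(k4,(nat_lit 330)),(k0,(nat_lit 438)),(k8,(nat_lit 550))],[(k5,(nat_lit 330)),
    (k2,(nat_lit 396)),(k6,(nat_lit 396)),(k9,(nat_lit 660))],[(k5,(nat_lit 594)),(k2,(nat_lit 660)),(k6,
    (nat_lit 660)),(k9,(nat_lit 924))],[(k11,(nat_lit 517)),(k7,(nat_lit 550)),(k3,(nat_lit 660))],[(k0,
    (nat_lit 295)),(k4,(nat_lit 297)),(k8,(nat_lit 517))],[(k1,(nat_lit 295))]]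
    [] k0
    [[k1,k0,k0,k0,k0,k1],[k2,k0,k0,k0,k0,k2],[k0,k1,k1,k0,k0,k0],[k0,k0,k1,k1,k0,k0],[k0,k0,k0,k1,k1,k0]]
    [.contra [y1,z1],.ref k3 k0 [(z2,[z1]),(z1,[z0,y1,z1])],.ref k0 k0 [(z1,[y1,z0,z1])],.contra [y1,z1],
    .ref k0 k1 [(z1,[y1,z0,z1])]]),
    .old (.lp [k2,k2,k2,k2,k2,k2] [k0,k0,k0,k0,k0,k0,k0,k0,k0,k0,k0,k0] k0 [] k8 k5
    [[(k10,k2)],[(k3,k2),(k7,k2),(k11,k2)],[(k0,k2),(k4,k2),(k8,k2)],[(k2,k2),(k5,k2),(k6,k2),(k9,k2)],[(k2,k2),(k5,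
    k2),(k6,k2),(k9,k2)],[(k3,k2),(k7,k2),(k11,k2)],[(k0,k2),(k4,k2),(k8,k2)],[(k2,k2),(k5,k2),(k6,k2),(k9,k2)],[(k2,
    k2),(k5,k2),(k6,k2),(k9,k2)],[(k3,k2),(k7,k2),(k11,k2)],[(k0,k2),(k4,k2),(k8,k2)],[(k1,k2)]]
    [] k0
    [[k1,k0,k0,k0,k0,k1],[k0,k1,k1,k0,k0,k0],[k0,k1,k0,k0,k1,k0],[k0,k0,k1,k1,k0,k0],[k0,k0,k0,k1,k1,k0]]
    [.ref k2 k0 [(z1,[z1])],.ref k0 k0 [(z1,[y1,z1])],.ref k4 k0 [(z1,[y1,z1])],.ref k1 k0 [(z1,[y1,z1])],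
    .ref k0 k1 [(z1,[y1,z1])]])]⟩

/-- classes `0 1 0 1 0 2`, types `C0 S0 C0 S0 C0 S0` -/
noncomputable def cU6_1929 : CertX :=
  ⟨[k4,k16,k4,k16,k4,k32],[(false,k0,[k0,k1,k2,k3,k4,k5]),(true,k5,[k5,k4,k3,k2,k1,k0])],[[[([z1,z0,z0,z1,z1,z1],z2)],
    [([z1,z1,z0,z0,z1,z1],z2)],[([z1,z0,z0,z0,z0,z1],z2)],[([z1,z0,z0,z0,z0,z1],z1),([z0,z1,z0,z0,z1,z0],z2)],[([z1,
    z0,z1,z1,z0,z1],z2)],[]]],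
    [.old (.leafM k0 [k0,k3,k4,k5] [] [(k1,k2,z1,[y1,z1]),(k2,k1,z1,[y1,z1])]),
    .old (.leafM k0 [k0,k1,k4,k5] [] [(k2,k3,z1,[y1,z1]),(k3,k2,z1,[y1,z1])]),
    .old (.leafM k0 [k1,k2,k3,k4] [] [(k5,k0,z1,[z1]),(k0,k5,z1,[z1])]),
    .old (.leafM k4 [k0,k2,k3,k5] [(z1,[y1,y1,z1])] [(k1,k4,z1,[z0,z1]),(k4,k1,z1,[z0,z1])]),
    .old (.lp [k36,k54,k36,k54,k126,k40] [k45,k45,k36,k36,k45,k45,k36,k36,k0,k0,k43,k43] k0 [[],[],[],[],[],[k0,k0,k0,k0,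
    k0,k0,k0,k0,k0,k15],[],[],[k0,k0,k0,k0,k15]] k180 k6
    [[(k1,k36),(k10,k38)],[(k11,k38),(k3,k45),(k7,k45)],[(k0,k45),(k4,k45),(k8,k90)],[(k5,k45),(k2,k54),(k6,k54),(k9,
    k90)],[(k5,k36),(k2,k45),(k6,k45),(k9,k81)],[(k3,k45),(k7,k45),(k11,k53)],[(k0,k45),(k4,k45),(k8,k75)],[(k5,k45),
    (k2,k54),(k6,k54),(k9,k90)],[(k5,k81),(k2,k90),(k6,k90),(k9,k126)],[(k7,k75),(k11,k83),(k3,k90)],[(k0,k38),(k4,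
    k53),(k8,k83)],[(k1,k38),(k10,k40)]]
    [] k0
    [[k2,k0,k0,k0,k0,k2],[k1,k0,k0,k0,k0,k1],[k0,k1,k1,k0,k0,k0],[k0,k0,k1,k1,k0,k0],[k0,k0,k0,k1,k1,k0]]
    [.ref k3 k0 [(z2,[z1]),(z1,[z0,y1,z1])],.contra [y1,z1],.ref k0 k0 [(z1,[y1,z0,z1])],.contra [y1,z1],
    .ref k0 k1 [(z1,[y1,z0,z1])]]),
    .old (.lp [k2,k2,k2,k2,k2,k2] [k0,k0,k0,k0,k0,k0,k0,k0,k0,k0,k0,k0] k0 [] k8 k5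
    [[(k1,k2),(k10,k2)],[(k3,k2),(k7,k2),(k11,k2)],[(k0,k2),(k4,k2),(k8,k2)],[(k2,k2),(k5,k2),(k6,k2),(k9,k2)],[(k2,
    k2),(k5,k2),(k6,k2),(k9,k2)],[(k3,k2),(k7,k2),(k11,k2)],[(k0,k2),(k4,k2),(k8,k2)],[(k2,k2),(k5,k2),(k6,k2),(k9,
    k2)],[(k2,k2),(k5,k2),(k6,k2),(k9,k2)],[(k3,k2),(k7,k2),(k11,k2)],[(k0,k2),(k4,k2),(k8,k2)],[(k1,k2),(k10,k2)]]
    [] k0
    [[k1,k0,k0,k0,k0,k1],[k0,k1,k1,k0,k0,k0],[k0,k1,k0,k0,k1,k0],[k0,k0,k1,k1,k0,k0],[k0,k0,k0,k1,k1,k0]]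
    [.ref k2 k0 [(z1,[z1])],.ref k0 k0 [(z1,[y1,z1])],.ref k4 k0 [(z1,[y1,z1])],.ref k1 k0 [(z1,[y1,z1])],
    .ref k0 k1 [(z1,[y1,z1])]])]⟩

/-- classes `0 1 0 1 0 2`, types `C0 S0 C0 S0 C2 C0` -/
noncomputable def cU6_1930 : CertX :=
  ⟨[k4,k16,k4,k16,k6,k36],[(false,k0,[k0,k1,k2,k3,k4,k5])],[[[([z1,z1,z0,z1,z0,z1],z2)],[([z1,z1,z0,z0,z1,z1],z2)],
    [([z1,z0,z0,z1,z1,z1],z2)],[]]],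
    [.old (.leafM k1 [k5,k0,k1,k3] [] [(k2,k4,z1,[y1,z1]),(k4,k2,z1,[y1,z1])]),
    .old (.leafM k0 [k0,k1,k4,k5] [] [(k2,k3,z1,[y1,z1]),(k3,k2,z1,[y1,z1])]),
    .old (.leafM k0 [k0,k3,k4,k5] [] [(k1,k2,z1,[y1,z1]),(k2,k1,z1,[y1,z1])]),
    .old (.lp [k2,k2,k2,k2,k2,k2] [k0,k0,k0,k0,k0,k0,k0,k0,k0,k0,k0,k0] k0 [] k8 k5
    [[(k10,k2)],[(k3,k2),(k7,k2),(k8,k2)],[(k0,k2),(k4,k2),(k11,k2)],[(k2,k2),(k5,k2),(k6,k2),(k9,k2)],[(k2,k2),(k5,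
    k2),(k6,k2),(k9,k2)],[(k3,k2),(k7,k2),(k8,k2)],[(k0,k2),(k4,k2),(k11,k2)],[(k2,k2),(k5,k2),(k6,k2),(k9,k2)],[(k2,
    k2),(k5,k2),(k6,k2),(k9,k2)],[(k0,k2),(k4,k2),(k11,k2)],[(k3,k2),(k7,k2),(k8,k2)],[(k1,k2)]]
    [] k0
    [[k0,k1,k1,k0,k0,k0],[k0,k0,k1,k1,k0,k0],[k0,k0,k1,k0,k1,k0]]
    [.ref k2 k0 [(z1,[y1,z1])],.ref k1 k0 [(z1,[y1,z1])],.ref k0 k0 [(z1,[y1,z1])]])]⟩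

/-- classes `0 1 0 1 0 2`, types `C0 S0 C0 S0 C2 S0` -/
noncomputable def cU6_1931 : CertX :=
  ⟨[k4,k16,k4,k16,k6,k32],[(false,k0,[k0,k1,k2,k3,k4,k5])],[[[([z1,z1,z0,z1,z0,z1],z2)],[([z1,z1,z0,z0,z1,z1],z2)],
    [([z1,z0,z0,z1,z1,z1],z2)],[]]],
    [.old (.leafM k1 [k5,k0,k1,k3] [] [(k2,k4,z1,[y1,z1]),(k4,k2,z1,[y1,z1])]),
    .old (.leafM k0 [k0,k1,k4,k5] [] [(k2,k3,z1,[y1,z1]),(k3,k2,z1,[y1,z1])]),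
    .old (.leafM k0 [k0,k3,k4,k5] [] [(k1,k2,z1,[y1,z1]),(k2,k1,z1,[y1,z1])]),
    .old (.lp [k2,k2,k2,k2,k2,k2] [k0,k0,k0,k0,k0,k0,k0,k0,k0,k0,k0,k0] k0 [] k8 k5
    [[(k1,k2),(k10,k2)],[(k3,k2),(k7,k2),(k8,k2)],[(k0,k2),(k4,k2),(k11,k2)],[(k2,k2),(k5,k2),(k6,k2),(k9,k2)],[(k2,
    k2),(k5,k2),(k6,k2),(k9,k2)],[(k3,k2),(k7,k2),(k8,k2)],[(k0,k2),(k4,k2),(k11,k2)],[(k2,k2),(k5,k2),(k6,k2),(k9,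
    k2)],[(k2,k2),(k5,k2),(k6,k2),(k9,k2)],[(k0,k2),(k4,k2),(k11,k2)],[(k3,k2),(k7,k2),(k8,k2)],[(k1,k2),(k10,k2)]]
    [] k0
    [[k0,k1,k1,k0,k0,k0],[k0,k0,k1,k1,k0,k0],[k0,k0,k1,k0,k1,k0]]
    [.ref k2 k0 [(z1,[y1,z1])],.ref k1 k0 [(z1,[y1,z1])],.ref k0 k0 [(z1,[y1,z1])]])]⟩

/-- classes `0 1 0 1 0 2`, types `C0 S0 C2 S0 C0 C0` -/
noncomputable def cU6_1932 : CertX :=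
  ⟨[k4,k16,k6,k16,k4,k36],[(false,k0,[k0,k1,k2,k3,k4,k5]),(true,k5,[k5,k4,k3,k2,k1,k0])],[[[([z1,z0,z1,z0,z1,z1],z2)],
    [([z1,z1,z0,z0,z1,z1],z2)],[([z1,z0,z0,z0,z0,z1],z2)],[([z1,z0,z0,z0,z0,z1],z1),([z0,z1,z0,z0,z1,z0],z2)],[([z1,
    z0,z1,z1,z0,z1],z2)],[]]],
    [.old (.leafM k1 [k4,k5,k0,k2] [] [(k1,k3,z1,[y1,z1]),(k3,k1,z1,[y1,z1])]),
    .old (.leafM k0 [k0,k1,k4,k5] [] [(k2,k3,z1,[y1,z1]),(k3,k2,z1,[y1,z1])]),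
    .old (.leafM k0 [k1,k2,k3,k4] [] [(k5,k0,z1,[z1]),(k0,k5,z1,[z1])]),
    .old (.leafM k4 [k0,k2,k3,k5] [(z1,[y1,y1,z1])] [(k1,k4,z1,[z0,z1]),(k4,k1,z1,[z0,z1])]),
    .old (.lp [k52,k24,k24,k36,k94,k0] [k21,k21,k35,k35,k35,k35,k29,k29,k0,k0,k47,k47] k0 [[k0,k0,k0,k0,k0,k0,k0,k0,k2],
    [],[],[],[k0,k0,k0,k0,k0,k0,k0,k0,k0,k8],[],[],[],[k0,k0,k0,k0,k0,k8],[k0,k2]] k120 k6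
    [[(k10,k26)],[(k11,k24),(k3,k38),(k4,k38)],[(k7,k30),(k0,k38),(k8,k61)],[(k2,k24),(k5,k24),(k6,k30),(k9,k59)],
    [(k2,k24),(k5,k24),(k6,k30),(k9,k59)],[(k7,k30),(k0,k38),(k8,k51)],[(k11,k26),(k3,k30),(k4,k30)],[(k2,k30),(k5,
    k30),(k6,k36),(k9,k65)],[(k2,k59),(k5,k59),(k6,k65),(k9,k94)],[(k11,k47),(k4,k51),(k3,k61)],[(k0,k24),(k7,k26),
    (k8,k47)],[(k1,k26)]]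
    [] k0
    [[k1,k0,k0,k0,k0,k1],[k2,k0,k0,k0,k0,k2],[k0,k1,k0,k1,k0,k0],[k0,k0,k1,k1,k0,k0],[k0,k0,k1,k0,k1,k0]]
    [.contra [y1,z1],.ref k3 k0 [(z2,[z1]),(z1,[z0,y1,z1])],.ref k0 k0 [(z1,[y1,z0,z1])],.contra [y1,z1],
    .ref k0 k1 [(z1,[y1,z0,z1])]]),
    .old (.lp [k2,k2,k2,k2,k2,k2] [k0,k0,k0,k0,k0,k0,k0,k0,k0,k0,k0,k0] k0 [] k8 k5
    [[(k10,k2)],[(k3,k2),(k4,k2),(k11,k2)],[(k0,k2),(k7,k2),(k8,k2)],[(k2,k2),(k5,k2),(k6,k2),(k9,k2)],[(k2,k2),(k5,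
    k2),(k6,k2),(k9,k2)],[(k0,k2),(k7,k2),(k8,k2)],[(k3,k2),(k4,k2),(k11,k2)],[(k2,k2),(k5,k2),(k6,k2),(k9,k2)],[(k2,
    k2),(k5,k2),(k6,k2),(k9,k2)],[(k3,k2),(k4,k2),(k11,k2)],[(k0,k2),(k7,k2),(k8,k2)],[(k1,k2)]]
    [] k0
    [[k1,k0,k0,k0,k0,k1],[k0,k1,k0,k1,k0,k0],[k0,k1,k0,k0,k1,k0],[k0,k0,k1,k1,k0,k0],[k0,k0,k1,k0,k1,k0]]
    [.ref k2 k0 [(z1,[z1])],.ref k0 k0 [(z1,[y1,z1])],.ref k4 k0 [(z1,[y1,z1])],.ref k1 k0 [(z1,[y1,z1])],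
    .ref k0 k1 [(z1,[y1,z1])]])]⟩

/-- classes `0 1 0 1 0 2`, types `C0 S0 C2 S0 C0 S0` -/
noncomputable def cU6_1933 : CertX :=
  ⟨[k4,k16,k6,k16,k4,k32],[(false,k0,[k0,k1,k2,k3,k4,k5]),(true,k5,[k5,k4,k3,k2,k1,k0])],[[[([z1,z0,z1,z0,z1,z1],z2)],
    [([z1,z1,z0,z0,z1,z1],z2)],[([z1,z0,z0,z0,z0,z1],z2)],[([z1,z0,z0,z0,z0,z1],z1),([z0,z1,z0,z0,z1,z0],z2)],[([z1,
    z0,z1,z1,z0,z1],z2)],[]]],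
    [.old (.leafM k1 [k4,k5,k0,k2] [] [(k1,k3,z1,[y1,z1]),(k3,k1,z1,[y1,z1])]),
    .old (.leafM k0 [k0,k1,k4,k5] [] [(k2,k3,z1,[y1,z1]),(k3,k2,z1,[y1,z1])]),
    .old (.leafM k0 [k1,k2,k3,k4] [] [(k5,k0,z1,[z1]),(k0,k5,z1,[z1])]),
    .old (.leafM k4 [k0,k2,k3,k5] [(z1,[y1,y1,z1])] [(k1,k4,z1,[z0,z1]),(k4,k1,z1,[z0,z1])]),
    .old (.lp [k56,k64,k64,k66,k172,k48] [k58,k58,k54,k54,k54,k54,k53,k53,k0,k0,k62,k62] k0 [[k0,k0,k0,k0,k0,k0,k0,k0,k4],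
    [],[k0,k0,k0,k0,k0,k0,k0,k10],[],[k0,k0,k0,k0,k0,k0,k0,k0,k0,k6],[],[k0,k0,k0,k10],[],[k0,k0,k0,k0,k0,k6],[k0,
    k4]] (nat_lit 240) k6
    [[(k10,k52),(k1,k56)],[(k11,k48),(k3,k60),(k4,k60)],[(k0,k60),(k7,k65),(k8,k122)],[(k6,k55),(k2,k64),(k5,k64),(k9,
    k118)],[(k2,k64),(k5,k64),(k6,k65),(k9,k128)],[(k0,k60),(k7,k65),(k8,k112)],[(k11,k63),(k3,k65),(k4,k65)],[(k2,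
    k55),(k5,k65),(k6,k66),(k9,k119)],[(k2,k118),(k6,k119),(k5,k128),(k9,k172)],[(k11,k110),(k4,k112),(k3,k122)],[(k0,
    k48),(k7,k63),(k8,k110)],[(k10,k48),(k1,k52)]]
    [] k0
    [[k2,k0,k0,k0,k0,k2],[k1,k0,k0,k0,k0,k1],[k1,k1,k0,k1,k0,k1],[k0,k1,k0,k1,k0,k0],[k0,k0,k1,k1,k0,k0]]
    [.ref k3 k0 [(z2,[z1]),(z1,[z0,y1,z1])],.contra [y1,z1],.ref k0 k1 [(z1,[z1])],.ref k0 k0 [(z1,[y1,z0,z1])],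
    .contra [y1,z1]]),
    .old (.lp [k2,k2,k2,k2,k2,k2] [k0,k0,k0,k0,k0,k0,k0,k0,k0,k0,k0,k0] k0 [] k8 k5
    [[(k1,k2),(k10,k2)],[(k3,k2),(k4,k2),(k11,k2)],[(k0,k2),(k7,k2),(k8,k2)],[(k2,k2),(k5,k2),(k6,k2),(k9,k2)],[(k2,
    k2),(k5,k2),(k6,k2),(k9,k2)],[(k0,k2),(k7,k2),(k8,k2)],[(k3,k2),(k4,k2),(k11,k2)],[(k2,k2),(k5,k2),(k6,k2),(k9,
    k2)],[(k2,k2),(k5,k2),(k6,k2),(k9,k2)],[(k3,k2),(k4,k2),(k11,k2)],[(k0,k2),(k7,k2),(k8,k2)],[(k1,k2),(k10,k2)]]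
    [] k0
    [[k1,k0,k0,k0,k0,k1],[k0,k1,k0,k1,k0,k0],[k0,k1,k0,k0,k1,k0],[k0,k0,k1,k1,k0,k0],[k0,k0,k1,k0,k1,k0]]
    [.ref k2 k0 [(z1,[z1])],.ref k0 k0 [(z1,[y1,z1])],.ref k4 k0 [(z1,[y1,z1])],.ref k1 k0 [(z1,[y1,z1])],
    .ref k0 k1 [(z1,[y1,z1])]])]⟩

/-- classes `0 1 0 1 0 2`, types `S0 B0 S0 B1 S0 C0` -/
noncomputable def cU6_1934 : CertX :=
  ⟨[k0,k24,k0,k25,k0,k36],[(false,k0,[k0,k1,k2,k3,k4,k5]),(true,k5,[k5,k4,k3,k2,k1,k0])],[[[([z1,z0,z1,z0,z1,z1],z2)],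
    [([z1,z1,z0,z0,z1,z1],z2)],[([z1,z0,z0,z0,z0,z1],z2)],[([z1,z0,z0,z0,z0,z1],z1),([z0,z1,z0,z0,z1,z0],z2)],[([z1,
    z0,z1,z1,z0,z1],z2)],[]]],
    [.old (.leafM k1 [k4,k5,k0,k2] [] [(k1,k3,z1,[y1,z1]),(k3,k1,z1,[y1,z1])]),
    .old (.leafM k0 [k0,k1,k4,k5] [] [(k2,k3,z1,[y1,z1]),(k3,k2,z1,[y1,z1])]),
    .old (.leafM k2 [k2,k3,k4,k1] [] [(k5,k0,z1,[z1]),(k0,k5,z1,[z1])]),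
    .old (.leafM k4 [k0,k2,k3,k5] [(z1,[y1,y1,z1])] [(k1,k4,z1,[z0,z1]),(k4,k1,z1,[z0,z1])]),
    .old (.lp [(nat_lit 262200),(nat_lit 374946),(nat_lit 148200),(nat_lit 136344),(nat_lit 251160),
    (nat_lit 136344)] [(nat_lit 56373),(nat_lit 56373),k0,k0,(nat_lit 113373),(nat_lit 113373),(nat_lit 119301),
    (nat_lit 119301),(nat_lit 61893),(nat_lit 61893),(nat_lit 119301),(nat_lit 119301)] k0 [[k0,k0,k0,k0,k0,k0,k0,k0,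
    (nat_lit 56810)],[],[],[],[],[],[],[],[],[k0,(nat_lit 56810)]] (nat_lit 681720) k6
    [[(k10,(nat_lit 199272))],[(k11,(nat_lit 142462)),(k7,(nat_lit 199272)),(k4,(nat_lit 205200)),(k8,
    (nat_lit 256680)),(k0,(nat_lit 262200)),(k3,(nat_lit 318573))],[(k7,(nat_lit 255645)),(k11,(nat_lit 255645)),(k4,
    (nat_lit 261573)),(k0,(nat_lit 318573)),(k8,(nat_lit 369863)),(k3,(nat_lit 374946))],[(k6,(nat_lit 255645)),(k9,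
    (nat_lit 313053))],[(k6,(nat_lit 142272)),(k9,(nat_lit 199680))],[(k7,(nat_lit 142272)),(k11,(nat_lit 142272)),
    (k4,(nat_lit 148200)),(k8,(nat_lit 199680)),(k0,(nat_lit 205200)),(k3,(nat_lit 261573))],[(k7,(nat_lit 136344)),
    (k11,(nat_lit 136344)),(k4,(nat_lit 142272)),(k8,(nat_lit 193752)),(k0,(nat_lit 199272)),(k3,(nat_lit 255645))],
    [(k5,(nat_lit 142272)),(k2,(nat_lit 255645))],[(k5,(nat_lit 199680)),(k2,(nat_lit 313053))],[(k7,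
    (nat_lit 193752)),(k11,(nat_lit 193752)),(k4,(nat_lit 199680)),(k8,(nat_lit 251160)),(k0,(nat_lit 256680)),(k3,
    (nat_lit 369863))],[(k7,(nat_lit 136344)),(k11,(nat_lit 136344)),(k4,(nat_lit 142272)),(k0,(nat_lit 142462)),(k8,
    (nat_lit 193752)),(k3,(nat_lit 255645))],[(k1,(nat_lit 199272))]]
    [] k0
    [[k1,k0,k0,k0,k0,k1],[k0,k1,k0,k1,k0,k0],[k0,k0,k1,k1,k0,k0],[k0,k0,k2,k2,k0,k0],[k0,k0,k1,k0,k1,k0]]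
    [.contra [y1,z1],.ref k0 k0 [(z1,[y1,z0,z1])],.contra [y1,z1],.ref k3 k0 [(z2,[y1,z2]),(z1,[z0,y1,z1])],
    .ref k0 k1 [(z1,[y1,z0,z1])]]),
    .old (.lp [k2,k2,k2,k2,k2,k2] [k0,k0,k0,k0,k0,k0,k0,k0,k0,k0,k0,k0] k0 [] k8 k5
    [[(k10,k2)],[(k0,k2),(k3,k2),(k4,k2),(k7,k2),(k8,k2),(k11,k2)],[(k0,k2),(k3,k2),(k4,k2),(k7,k2),(k8,k2),(k11,k2)],
    [(k6,k2),(k9,k2)],[(k6,k2),(k9,k2)],[(k0,k2),(k3,k2),(k4,k2),(k7,k2),(k8,k2),(k11,k2)],[(k0,k2),(k3,k2),(k4,k2),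
    (k7,k2),(k8,k2),(k11,k2)],[(k2,k2),(k5,k2)],[(k2,k2),(k5,k2)],[(k0,k2),(k3,k2),(k4,k2),(k7,k2),(k8,k2),(k11,k2)],
    [(k0,k2),(k3,k2),(k4,k2),(k7,k2),(k8,k2),(k11,k2)],[(k1,k2)]]
    [] k0
    [[k1,k0,k0,k0,k0,k1],[k0,k1,k0,k1,k0,k0],[k0,k1,k0,k0,k1,k0],[k0,k0,k1,k1,k0,k0],[k0,k0,k1,k0,k1,k0]]
    [.ref k2 k0 [(z1,[z1])],.ref k0 k0 [(z1,[y1,z1])],.ref k4 k0 [(z1,[y1,z1])],.ref k1 k0 [(z1,[y1,z1])],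
    .ref k0 k1 [(z1,[y1,z1])]])]⟩

/-- classes `0 1 0 1 0 2`, types `S0 B0 S0 B1 S0 S0` -/
noncomputable def cU6_1935 : CertX :=
  ⟨[k0,k24,k0,k25,k0,k32],[(false,k0,[k0,k1,k2,k3,k4,k5]),(true,k5,[k5,k4,k3,k2,k1,k0])],[[[([z1,z0,z1,z0,z1,z1],z2)],
    [([z1,z1,z0,z0,z1,z1],z2)],[([z1,z0,z0,z0,z0,z1],z2)],[([z1,z0,z0,z0,z0,z1],z1),([z0,z1,z0,z0,z1,z0],z2)],[([z1,
    z0,z1,z1,z0,z1],z2)],[]]],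
    [.old (.leafM k1 [k4,k5,k0,k2] [] [(k1,k3,z1,[y1,z1]),(k3,k1,z1,[y1,z1])]),
    .old (.leafM k0 [k0,k1,k4,k5] [] [(k2,k3,z1,[y1,z1]),(k3,k2,z1,[y1,z1])]),
    .old (.leafM k2 [k2,k3,k4,k1] [] [(k5,k0,z1,[z1]),(k0,k5,z1,[z1])]),
    .old (.leafM k4 [k0,k2,k3,k5] [(z1,[y1,y1,z1])] [(k1,k4,z1,[z0,z1]),(k4,k1,z1,[z0,z1])]),
    .old (.lp [k36,k48,k24,k24,k48,k50] [k17,k17,k11,k11,k23,k23,k23,k23,k11,k11,k20,k0] k0 [[k0,k0,k0,k0,k0,k0,k0,k0,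
    k24],[],[],[],[],[],[],[],[k0,k0,k0,k0,k0,k0,k0,k0,k0,k20],[k0,k24]] k120 k6
    [[(k10,k33),(k1,k36)],[(k11,k29),(k4,k30),(k7,k30),(k0,k36),(k3,k42),(k8,k42)],[(k4,k36),(k7,k36),(k0,k42),(k3,
    k48),(k11,k59),(k8,k72)],[(k6,k36),(k9,k48)],[(k6,k24),(k9,k36)],[(k4,k24),(k7,k24),(k0,k30),(k3,k36),(k8,k36),
    (k11,k47)],[(k4,k24),(k7,k24),(k0,k30),(k3,k36),(k8,k36),(k11,k47)],[(k5,k24),(k2,k36)],[(k5,k36),(k2,k48)],[(k8,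
    k28),(k4,k36),(k7,k36),(k0,k42),(k11,k59),(k3,k72)],[(k0,k29),(k4,k47),(k7,k47),(k3,k59),(k8,k59),(k11,k90)],
    [(k10,k30),(k1,k33)]]
    [] k0
    [[k2,k0,k0,k0,k0,k0],[k1,k0,k0,k0,k0,k1],[k0,k1,k0,k1,k0,k0],[k0,k0,k1,k1,k0,k0],[k0,k0,k2,k2,k0,k0],[k0,k0,k1,k0,
    k1,k0]]
    [.contra [z1],.contra [y1,z1],.ref k0 k0 [(z1,[y1,z0,z1])],.contra [y1,z1],.ref k3 k0 [(z2,[y1,z2]),(z1,[z0,y1,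
    z1])],.ref k0 k1 [(z1,[y1,z0,z1])]]),
    .old (.lp [k4,k2,k2,k2,k2,k2] [k0,k0,k1,k1,k1,k1,k1,k1,k1,k1,k1,k1] k0 [] k8 k5
    [[(k10,k3),(k1,k4)],[(k3,k3),(k4,k3),(k7,k3),(k8,k3),(k11,k3),(k0,k4)],[(k3,k2),(k4,k2),(k7,k2),(k8,k2),(k11,k2),
    (k0,k3)],[(k6,k2),(k9,k2)],[(k6,k2),(k9,k2)],[(k3,k2),(k4,k2),(k7,k2),(k8,k2),(k11,k2),(k0,k3)],[(k3,k2),(k4,k2),
    (k7,k2),(k8,k2),(k11,k2),(k0,k3)],[(k2,k2),(k5,k2)],[(k2,k2),(k5,k2)],[(k3,k2),(k4,k2),(k7,k2),(k8,k2),(k11,k2),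
    (k0,k3)],[(k3,k2),(k4,k2),(k7,k2),(k8,k2),(k11,k2),(k0,k3)],[(k10,k2),(k1,k3)]]
    [] k0
    [[k1,k0,k0,k0,k0,k1],[k0,k1,k0,k1,k0,k0],[k0,k1,k0,k0,k1,k0],[k0,k0,k1,k1,k0,k0],[k0,k0,k1,k0,k1,k0],[k0,k0,k0,k0,
    k0,k2]]
    [.ref k2 k0 [(z1,[z1])],.ref k0 k0 [(z1,[y1,z1])],.ref k4 k0 [(z1,[y1,z1])],.ref k1 k0 [(z1,[y1,z1])],
    .ref k0 k1 [(z1,[y1,z1])],.contra [z1]])]⟩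

/-- classes `0 1 0 1 0 2`, types `S0 C0 S0 C0 S0 C0` -/
noncomputable def cU6_1936 : CertX :=
  ⟨[k0,k20,k0,k20,k0,k36],[(false,k0,[k0,k1,k2,k3,k4,k5]),(true,k5,[k5,k4,k3,k2,k1,k0])],[[[([z1,z0,z0,z1,z1,z1],z2)],
    [([z1,z1,z0,z0,z1,z1],z2)],[([z1,z0,z0,z0,z0,z1],z2)],[([z1,z0,z0,z0,z0,z1],z1),([z0,z1,z0,z0,z1,z0],z2)],[([z1,
    z0,z1,z1,z0,z1],z2)],[]]],
    [.old (.leafM k0 [k0,k3,k4,k5] [] [(k1,k2,z1,[y1,z1]),(k2,k1,z1,[y1,z1])]),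
    .old (.leafM k0 [k0,k1,k4,k5] [] [(k2,k3,z1,[y1,z1]),(k3,k2,z1,[y1,z1])]),
    .old (.leafM k0 [k1,k2,k3,k4] [] [(k5,k0,z1,[z1]),(k0,k5,z1,[z1])]),
    .old (.leafM k4 [k0,k2,k3,k5] [(z1,[y1,y1,z1])] [(k1,k4,z1,[z0,z1]),(k4,k1,z1,[z0,z1])]),
    .old (.lp [(nat_lit 262200),(nat_lit 374946),(nat_lit 136344),(nat_lit 148200),(nat_lit 251160),
    (nat_lit 136344)] [(nat_lit 56373),(nat_lit 56373),k0,k0,(nat_lit 119301),(nat_lit 119301),(nat_lit 113373),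
    (nat_lit 113373),(nat_lit 61893),(nat_lit 61893),(nat_lit 119301),(nat_lit 119301)] k0 [[k0,k0,k0,k0,k0,k0,k0,k0,
    (nat_lit 56810)],[],[],[],[],[],[],[],[],[k0,(nat_lit 56810)]] (nat_lit 681720) k6
    [[(k10,(nat_lit 199272))],[(k11,(nat_lit 142462)),(k4,(nat_lit 199272)),(k7,(nat_lit 205200)),(k8,
    (nat_lit 256680)),(k0,(nat_lit 262200)),(k3,(nat_lit 318573))],[(k4,(nat_lit 255645)),(k11,(nat_lit 255645)),(k7,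
    (nat_lit 261573)),(k0,(nat_lit 318573)),(k8,(nat_lit 369863)),(k3,(nat_lit 374946))],[(k5,(nat_lit 255645)),(k9,
    (nat_lit 313053))],[(k6,(nat_lit 142272)),(k2,(nat_lit 255645))],[(k4,(nat_lit 136344)),(k11,(nat_lit 136344)),
    (k7,(nat_lit 142272)),(k8,(nat_lit 193752)),(k0,(nat_lit 199272)),(k3,(nat_lit 255645))],[(k4,(nat_lit 142272)),
    (k11,(nat_lit 142272)),(k7,(nat_lit 148200)),(k8,(nat_lit 199680)),(k0,(nat_lit 205200)),(k3,(nat_lit 261573))],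
    [(k5,(nat_lit 142272)),(k9,(nat_lit 199680))],[(k6,(nat_lit 199680)),(k2,(nat_lit 313053))],[(k4,
    (nat_lit 193752)),(k11,(nat_lit 193752)),(k7,(nat_lit 199680)),(k8,(nat_lit 251160)),(k0,(nat_lit 256680)),(k3,
    (nat_lit 369863))],[(k4,(nat_lit 136344)),(k11,(nat_lit 136344)),(k7,(nat_lit 142272)),(k0,(nat_lit 142462)),(k8,
    (nat_lit 193752)),(k3,(nat_lit 255645))],[(k1,(nat_lit 199272))]]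
    [] k0
    [[k1,k0,k0,k0,k0,k1],[k0,k1,k1,k0,k0,k0],[k0,k0,k1,k1,k0,k0],[k0,k0,k2,k2,k0,k0],[k0,k0,k0,k1,k1,k0]]
    [.contra [y1,z1],.ref k0 k0 [(z1,[y1,z0,z1])],.contra [y1,z1],.ref k3 k0 [(z2,[y1,z2]),(z1,[z0,y1,z1])],
    .ref k0 k1 [(z1,[y1,z0,z1])]]),
    .old (.lp [k2,k2,k2,k2,k2,k2] [k0,k0,k0,k0,k0,k0,k0,k0,k0,k0,k0,k0] k0 [] k8 k5
    [[(k10,k2)],[(k0,k2),(k3,k2),(k4,k2),(k7,k2),(k8,k2),(k11,k2)],[(k0,k2),(k3,k2),(k4,k2),(k7,k2),(k8,k2),(k11,k2)],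
    [(k5,k2),(k9,k2)],[(k2,k2),(k6,k2)],[(k0,k2),(k3,k2),(k4,k2),(k7,k2),(k8,k2),(k11,k2)],[(k0,k2),(k3,k2),(k4,k2),
    (k7,k2),(k8,k2),(k11,k2)],[(k5,k2),(k9,k2)],[(k2,k2),(k6,k2)],[(k0,k2),(k3,k2),(k4,k2),(k7,k2),(k8,k2),(k11,k2)],
    [(k0,k2),(k3,k2),(k4,k2),(k7,k2),(k8,k2),(k11,k2)],[(k1,k2)]]
    [] k0
    [[k1,k0,k0,k0,k0,k1],[k0,k1,k1,k0,k0,k0],[k0,k1,k0,k0,k1,k0],[k0,k0,k1,k1,k0,k0],[k0,k0,k0,k1,k1,k0]]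
    [.ref k2 k0 [(z1,[z1])],.ref k0 k0 [(z1,[y1,z1])],.ref k4 k0 [(z1,[y1,z1])],.ref k1 k0 [(z1,[y1,z1])],
    .ref k0 k1 [(z1,[y1,z1])]])]⟩

/-- classes `0 1 0 1 0 2`, types `S0 C0 S0 C0 S0 S0` -/
noncomputable def cU6_1937 : CertX :=
  ⟨[k0,k20,k0,k20,k0,k32],[(false,k0,[k0,k1,k2,k3,k4,k5]),(true,k5,[k5,k4,k3,k2,k1,k0])],[[[([z1,z0,z0,z1,z1,z1],z2)],
    [([z1,z1,z0,z0,z1,z1],z2)],[([z1,z0,z0,z0,z0,z1],z2)],[([z1,z0,z0,z0,z0,z1],z1),([z0,z1,z0,z0,z1,z0],z2)],[([z1,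
    z0,z1,z1,z0,z1],z2)],[]]],
    [.old (.leafM k0 [k0,k3,k4,k5] [] [(k1,k2,z1,[y1,z1]),(k2,k1,z1,[y1,z1])]),
    .old (.leafM k0 [k0,k1,k4,k5] [] [(k2,k3,z1,[y1,z1]),(k3,k2,z1,[y1,z1])]),
    .old (.leafM k0 [k1,k2,k3,k4] [] [(k5,k0,z1,[z1]),(k0,k5,z1,[z1])]),
    .old (.leafM k4 [k0,k2,k3,k5] [(z1,[y1,y1,z1])] [(k1,k4,z1,[z0,z1]),(k4,k1,z1,[z0,z1])]),
    .old (.lp [(nat_lit 6874010),(nat_lit 5768400),(nat_lit 2999568),(nat_lit 3260400),(nat_lit 5525520),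
    (nat_lit 4374370)] [k0,(nat_lit 1249820),(nat_lit 1177715),(nat_lit 1177715),(nat_lit 2562131),(nat_lit 2562131),
    (nat_lit 2431715),(nat_lit 2431715),(nat_lit 1299155),(nat_lit 1299155),(nat_lit 2556450),
    (nat_lit 1193010)] k0 [[k0,k0,k0,k0,k0,k0,k0,k0,(nat_lit 3749460)],[(nat_lit 1249820)],[],[],[],[],[],[],[],[k0,
    (nat_lit 3749460)]] (nat_lit 14997840) k6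
    [[(k10,(nat_lit 4317560)),(k1,(nat_lit 5624190))],[(k11,(nat_lit 3181360)),(k4,(nat_lit 5561699)),(k7,
    (nat_lit 5692115)),(k8,(nat_lit 6824675)),(k3,(nat_lit 6946115)),(k0,(nat_lit 9373650))],[(k4,(nat_lit 4383984)),
    (k7,(nat_lit 4514400)),(k3,(nat_lit 4518580)),(k11,(nat_lit 5753105)),(k0,(nat_lit 6946115)),(k8,
    (nat_lit 9396420))],[(k5,(nat_lit 4383984)),(k9,(nat_lit 5646960))],[(k6,(nat_lit 3129984)),(k2,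
    (nat_lit 4383984))],[(k4,(nat_lit 2999568)),(k7,(nat_lit 3129984)),(k8,(nat_lit 4262544)),(k11,(nat_lit 4368689)),
    (k3,(nat_lit 4383984)),(k0,(nat_lit 5561699))],[(k4,(nat_lit 3129984)),(k7,(nat_lit 3260400)),(k8,
    (nat_lit 4392960)),(k11,(nat_lit 4499105)),(k3,(nat_lit 4514400)),(k0,(nat_lit 5692115))],[(k5,(nat_lit 3129984)),
    (k9,(nat_lit 4392960))],[(k6,(nat_lit 4392960)),(k2,(nat_lit 5646960))],[(k4,(nat_lit 4262544)),(k7,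
    (nat_lit 4392960)),(k8,(nat_lit 5525520)),(k11,(nat_lit 5631665)),(k0,(nat_lit 6824675)),(k3,(nat_lit 9396420))],
    [(k0,(nat_lit 3181360)),(k4,(nat_lit 4368689)),(k7,(nat_lit 4499105)),(k8,(nat_lit 5631665)),(k11,
    (nat_lit 5737810)),(k3,(nat_lit 5753105))],[(k10,(nat_lit 3010930)),(k1,(nat_lit 4317560))]]
    [] k0
    [[k1,k0,k0,k0,k0,k1],[k0,k1,k1,k0,k0,k0],[k0,k0,k1,k1,k0,k0],[k0,k0,k2,k2,k0,k0],[k0,k0,k0,k1,k1,k0],[k0,k0,k0,k0,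
    k0,k2]]
    [.contra [y1,z1],.ref k0 k0 [(z1,[y1,z0,z1])],.contra [y1,z1],.ref k3 k0 [(z2,[y1,z2]),(z1,[z0,y1,z1])],
    .ref k0 k1 [(z1,[y1,z0,z1])],.contra [z1]]),
    .old (.lp [k2,k2,k2,k2,k2,k4] [k1,k1,k1,k1,k1,k1,k1,k1,k1,k1,k0,k0] k0 [] k8 k5
    [[(k1,k2),(k10,k3)],[(k0,k2),(k3,k2),(k4,k2),(k7,k2),(k8,k2),(k11,k3)],[(k0,k2),(k3,k2),(k4,k2),(k7,k2),(k8,k2),
    (k11,k3)],[(k5,k2),(k9,k2)],[(k2,k2),(k6,k2)],[(k0,k2),(k3,k2),(k4,k2),(k7,k2),(k8,k2),(k11,k3)],[(k0,k2),(k3,k2),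
    (k4,k2),(k7,k2),(k8,k2),(k11,k3)],[(k5,k2),(k9,k2)],[(k2,k2),(k6,k2)],[(k0,k2),(k3,k2),(k4,k2),(k7,k2),(k8,k2),
    (k11,k3)],[(k0,k3),(k3,k3),(k4,k3),(k7,k3),(k8,k3),(k11,k4)],[(k1,k3),(k10,k4)]]
    [] k0
    [[k2,k0,k0,k0,k0,k0],[k1,k0,k0,k0,k0,k1],[k0,k1,k1,k0,k0,k0],[k0,k1,k0,k0,k1,k0],[k0,k0,k1,k1,k0,k0],[k0,k0,k0,k1,
    k1,k0]]
    [.contra [z1],.ref k2 k0 [(z1,[z1])],.ref k0 k0 [(z1,[y1,z1])],.ref k4 k0 [(z1,[y1,z1])],.ref k1 k0 [(z1,[y1,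
    z1])],.ref k0 k1 [(z1,[y1,z1])]])]⟩

/-- classes `0 1 0 1 0 2`, types `S0 C0 S0 C2 S0 C0` -/
noncomputable def cU6_1938 : CertX :=
  ⟨[k0,k20,k0,k22,k0,k36],[(false,k0,[k0,k1,k2,k3,k4,k5]),(true,k5,[k5,k4,k3,k2,k1,k0])],[[[([z1,z0,z0,z1,z1,z1],z2)],
    [([z1,z0,z1,z0,z1,z1],z2)],[([z1,z0,z0,z0,z0,z1],z2)],[]]],
    [.old (.leafM k0 [k0,k3,k4,k5] [] [(k1,k2,z1,[y1,z1]),(k2,k1,z1,[y1,z1])]),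
    .old (.leafM k1 [k4,k5,k0,k2] [] [(k1,k3,z1,[y1,z1]),(k3,k1,z1,[y1,z1])]),
    .old (.leafM k0 [k1,k2,k3,k4] [] [(k5,k0,z1,[z1]),(k0,k5,z1,[z1])]),
    .old (.lp [k2,k2,k2,k2,k2,k2] [k0,k0,k0,k0,k0,k0,k0,k0,k0,k0,k0,k0] k0 [] k8 k5
    [[(k10,k2)],[(k0,k2),(k3,k2),(k4,k2),(k7,k2),(k8,k2),(k11,k2)],[(k0,k2),(k3,k2),(k4,k2),(k7,k2),(k8,k2),(k11,k2)],
    [(k5,k2),(k6,k2)],[(k2,k2),(k9,k2)],[(k0,k2),(k3,k2),(k4,k2),(k7,k2),(k8,k2),(k11,k2)],[(k0,k2),(k3,k2),(k4,k2),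
    (k7,k2),(k8,k2),(k11,k2)],[(k2,k2),(k9,k2)],[(k5,k2),(k6,k2)],[(k0,k2),(k3,k2),(k4,k2),(k7,k2),(k8,k2),(k11,k2)],
    [(k0,k2),(k3,k2),(k4,k2),(k7,k2),(k8,k2),(k11,k2)],[(k1,k2)]]
    [] k0
    [[k1,k0,k0,k0,k0,k1],[k0,k1,k1,k0,k0,k0],[k0,k1,k0,k1,k0,k0],[k0,k0,k1,k0,k1,k0],[k0,k0,k0,k1,k1,k0]]
    [.ref k2 k0 [(z1,[z1])],.ref k0 k0 [(z1,[y1,z1])],.ref k1 k0 [(z1,[y1,z1])],.ref k1 k1 [(z1,[y1,z1])],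
    .ref k0 k1 [(z1,[y1,z1])]])]⟩

/-- classes `0 1 0 1 0 2`, types `S0 C0 S0 C2 S0 S0` -/
noncomputable def cU6_1939 : CertX :=
  ⟨[k0,k20,k0,k22,k0,k32],[(false,k0,[k0,k1,k2,k3,k4,k5]),(true,k5,[k5,k4,k3,k2,k1,k0])],[[[([z1,z0,z0,z1,z1,z1],z2)],
    [([z1,z0,z1,z0,z1,z1],z2)],[([z1,z0,z0,z0,z0,z1],z2)],[]]],
    [.old (.leafM k0 [k0,k3,k4,k5] [] [(k1,k2,z1,[y1,z1]),(k2,k1,z1,[y1,z1])]),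
    .old (.leafM k1 [k4,k5,k0,k2] [] [(k1,k3,z1,[y1,z1]),(k3,k1,z1,[y1,z1])]),
    .old (.leafM k0 [k1,k2,k3,k4] [] [(k5,k0,z1,[z1]),(k0,k5,z1,[z1])]),
    .old (.lp [k4,k2,k2,k2,k2,k2] [k0,k0,k1,k1,k1,k1,k1,k1,k1,k1,k1,k1] k0 [] k8 k5
    [[(k10,k3),(k1,k4)],[(k3,k3),(k4,k3),(k7,k3),(k8,k3),(k11,k3),(k0,k4)],[(k3,k2),(k4,k2),(k7,k2),(k8,k2),(k11,k2),
    (k0,k3)],[(k5,k2),(k6,k2)],[(k2,k2),(k9,k2)],[(k3,k2),(k4,k2),(k7,k2),(k8,k2),(k11,k2),(k0,k3)],[(k3,k2),(k4,k2),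
    (k7,k2),(k8,k2),(k11,k2),(k0,k3)],[(k2,k2),(k9,k2)],[(k5,k2),(k6,k2)],[(k3,k2),(k4,k2),(k7,k2),(k8,k2),(k11,k2),
    (k0,k3)],[(k3,k2),(k4,k2),(k7,k2),(k8,k2),(k11,k2),(k0,k3)],[(k10,k2),(k1,k3)]]
    [] k0
    [[k1,k0,k0,k0,k0,k1],[k0,k1,k1,k0,k0,k0],[k0,k1,k0,k1,k0,k0],[k0,k0,k1,k0,k1,k0],[k0,k0,k0,k1,k1,k0],[k0,k0,k0,k0,
    k0,k2]]
    [.ref k2 k0 [(z1,[z1])],.ref k0 k0 [(z1,[y1,z1])],.ref k1 k0 [(z1,[y1,z1])],.ref k1 k1 [(z1,[y1,z1])],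
    .ref k0 k1 [(z1,[y1,z1])],.contra [z1]])]⟩

/-- classes `0 1 0 1 0 2`, types `S0 N0 S0 N1 S0 C0` -/
noncomputable def cU6_1940 : CertX :=
  ⟨[k0,k28,k0,k29,k0,k36],[(false,k0,[k0,k1,k2,k3,k4,k5])],[[[([z1,z1,z0,z0,z1,z1],z2)],[([z1,z0,z0,z0,z0,z1],z1),
    ([z0,z1,z0,z0,z1,z0],z2)],[([z1,z0,z1,z1,z0,z1],z2)],[([z1,z0,z0,z0,z0,z1],z2),([z0,z1,z0,z0,z1,z0],z1)],[([z1,z0,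
    z0,z0,z0,z1],z2)],[]]],
    [.old (.leafM k0 [k0,k1,k4,k5] [] [(k2,k3,z1,[y1,z1]),(k3,k2,z1,[y1,z1])]),
    .old (.leafM k4 [k0,k2,k3,k5] [(z1,[y1,y1,z1])] [(k1,k4,z1,[z0,z1]),(k4,k1,z1,[z0,z1])]),
    .old (.lp [k46,k86,k24,k26,k24,k24] [k20,k20,k0,k0,k31,k31,k30,k30,k31,k31,k31,k31] k0 [[k0,k0,k0,k0,k0,k0,k0,k0,k10],
    [],[],[],[],[],[],[],[],[k0,k10]] k120 k6
    [[(k10,k35)],[(k11,k25),(k4,k35),(k8,k35),(k7,k36),(k0,k46),(k3,k66)],[(k4,k55),(k11,k55),(k7,k56),(k8,k65),(k0,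
    k66),(k3,k86)],[(k9,k55)],[(k6,k25)],[(k4,k24),(k8,k24),(k11,k24),(k7,k25),(k0,k35),(k3,k55)],[(k4,k25),(k8,k25),
    (k11,k25),(k7,k26),(k0,k36),(k3,k56)],[(k5,k25)],[(k2,k55)],[(k4,k24),(k8,k24),(k11,k24),(k7,k25),(k0,k35),(k3,
    k65)],[(k4,k24),(k8,k24),(k11,k24),(k0,k25),(k7,k25),(k3,k55)],[(k1,k35)]]
    [] k0
    [[k1,k0,k0,k0,k0,k1],[k0,k0,k1,k1,k0,k0],[k0,k0,k2,k2,k0,k0]]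
    [.contra [y1,z1],.contra [y1,z1],.ref k1 k0 [(z2,[y1,z2]),(z1,[z0,y1,z1])]]),
    .old (.leafM k4 [k1,k2,k3,k4] [(z1,[y1,y1,z1])] [(k5,k0,z1,[z1]),(k0,k5,z1,[z1])]),
    .old (.lp [k86,k48,k24,k24,k24,k24] [k0,k0,k19,k19,k31,k31,k31,k31,k31,k31,k31,k31] k0 [[],[k0,k0,k0,k0,k0,k0,k0,k0,
    k0,k10],[],[],[],[],[],[],[k10]] k120 k6
    [[(k10,k55)],[(k4,k55),(k7,k55),(k8,k55),(k11,k65),(k3,k67),(k0,k86)],[(k8,k26),(k4,k36),(k7,k36),(k11,k36),(k3,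
    k48),(k0,k67)],[(k9,k36)],[(k6,k24)],[(k4,k24),(k7,k24),(k8,k24),(k11,k24),(k3,k36),(k0,k55)],[(k4,k24),(k7,k24),
    (k8,k24),(k11,k24),(k3,k36),(k0,k55)],[(k5,k24)],[(k2,k36)],[(k4,k24),(k7,k24),(k8,k24),(k11,k24),(k3,k26),(k0,
    k55)],[(k4,k24),(k7,k24),(k8,k24),(k11,k24),(k3,k36),(k0,k65)],[(k1,k55)]]
    [] k0
    [[k0,k1,k0,k0,k1,k0],[k0,k0,k1,k1,k0,k0],[k0,k0,k2,k2,k0,k0]]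
    [.contra [y1,y1,z1],.contra [y1,y1,z1],.ref k3 k0 [(z1,[z0,z1]),(z2,[y1,y2,z2])]]),
    .old (.lp [k2,k2,k2,k2,k2,k2] [k0,k0,k0,k0,k0,k0,k0,k0,k0,k0,k0,k0] k0 [] k8 k5
    [[(k10,k2)],[(k0,k2),(k3,k2),(k4,k2),(k7,k2),(k8,k2),(k11,k2)],[(k0,k2),(k3,k2),(k4,k2),(k7,k2),(k8,k2),(k11,k2)],
    [(k9,k2)],[(k6,k2)],[(k0,k2),(k3,k2),(k4,k2),(k7,k2),(k8,k2),(k11,k2)],[(k0,k2),(k3,k2),(k4,k2),(k7,k2),(k8,k2),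
    (k11,k2)],[(k5,k2)],[(k2,k2)],[(k0,k2),(k3,k2),(k4,k2),(k7,k2),(k8,k2),(k11,k2)],[(k0,k2),(k3,k2),(k4,k2),(k7,k2),
    (k8,k2),(k11,k2)],[(k1,k2)]]
    [] k0
    [[k1,k0,k0,k0,k0,k1],[k0,k1,k0,k0,k1,k0],[k0,k0,k1,k1,k0,k0]]
    [.ref k4 k0 [(z1,[z1])],.ref k2 k0 [(z1,[y1,z1])],.ref k0 k0 [(z1,[y1,z1])]])]⟩

/-- classes `0 1 0 1 0 2`, types `S0 N0 S0 N1 S0 S0` -/
noncomputable def cU6_1941 : CertX :=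
  ⟨[k0,k28,k0,k29,k0,k32],[(false,k0,[k0,k1,k2,k3,k4,k5])],[[[([z1,z1,z0,z0,z1,z1],z2)],[([z1,z0,z0,z0,z0,z1],z1),
    ([z0,z1,z0,z0,z1,z0],z2)],[([z1,z0,z1,z1,z0,z1],z2)],[([z1,z0,z0,z0,z0,z1],z2),([z0,z1,z0,z0,z1,z0],z1)],[([z1,z0,
    z0,z0,z0,z1],z2)],[]]],
    [.old (.leafM k0 [k0,k1,k4,k5] [] [(k2,k3,z1,[y1,z1]),(k3,k2,z1,[y1,z1])]),
    .old (.leafM k4 [k0,k2,k3,k5] [(z1,[y1,y1,z1])] [(k1,k4,z1,[z0,z1]),(k4,k1,z1,[z0,z1])]),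
    .old (.lp [k30,k14,k12,k12,k22,k25] [k2,k6,k12,k12,k13,k13,k13,k13,k8,k8,k13,k0] k0 [[k0,k0,k0,k0,k0,k0,k0,k0,k24],[],
    [],[],[],[],[],[],[k0,k0,k0,k0,k0,k0,k0,k0,k0,k10],[k0,k24]] k60 k6
    [[(k10,k19),(k1,k26)],[(k11,k12),(k4,k23),(k7,k23),(k3,k24),(k8,k28),(k0,k34)],[(k4,k13),(k7,k13),(k3,k14),(k0,
    k24),(k11,k26),(k8,k42)],[(k9,k18)],[(k6,k12)],[(k4,k12),(k7,k12),(k3,k13),(k8,k17),(k0,k23),(k11,k25)],[(k4,k12),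
    (k7,k12),(k3,k13),(k8,k17),(k0,k23),(k11,k25)],[(k5,k12)],[(k2,k18)],[(k8,k12),(k4,k17),(k7,k17),(k0,k28),(k11,
    k30),(k3,k42)],[(k0,k12),(k4,k25),(k7,k25),(k3,k26),(k8,k30),(k11,k48)],[(k10,k12),(k1,k19)]]
    [] k0
    [[k1,k0,k0,k0,k0,k1],[k0,k0,k1,k1,k0,k0],[k0,k0,k2,k2,k0,k0]]
    [.contra [y1,z1],.contra [y1,z1],.ref k1 k0 [(z2,[y1,z2]),(z1,[z0,y1,z1])]]),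
    .old (.leafM k4 [k1,k2,k3,k4] [(z1,[y1,y1,z1])] [(k5,k0,z1,[z1]),(k0,k5,z1,[z1])]),
    .old (.lp [k60,k38,k24,k24,k24,k60] [k0,k0,k11,k11,k18,k18,k18,k18,k18,k18,k0,k0] k0 [[k0,k0,k0,k0,k10,k10],[],[],[],
    [k0,k10],[k0,k10]] k120 k6
    [[(k1,k60),(k10,k60)],[(k4,k32),(k7,k32),(k8,k42),(k3,k49),(k0,k60),(k11,k60)],[(k8,k31),(k3,k38),(k4,k41),(k7,
    k41),(k0,k49),(k11,k49)],[(k9,k31)],[(k6,k24)],[(k4,k24),(k7,k24),(k8,k24),(k0,k32),(k3,k41),(k11,k42)],[(k4,k24),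
    (k7,k24),(k8,k24),(k0,k32),(k3,k41),(k11,k42)],[(k5,k24)],[(k2,k31)],[(k4,k24),(k7,k24),(k8,k24),(k3,k31),(k0,
    k42),(k11,k42)],[(k4,k42),(k7,k42),(k8,k42),(k3,k49),(k0,k60),(k11,k60)],[(k1,k60),(k10,k60)]]
    [] k0
    [[k0,k1,k0,k0,k1,k0],[k0,k0,k1,k1,k0,k0],[k0,k0,k2,k2,k0,k0]]
    [.contra [y1,y1,z1],.contra [y1,y1,z1],.ref k3 k0 [(z1,[z0,z1]),(z2,[y1,y2,z2])]]),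
    .old (.lp [k2,k2,k2,k2,k2,k4] [k1,k1,k1,k1,k1,k1,k1,k1,k1,k1,k0,k0] k0 [] k8 k5
    [[(k1,k2),(k10,k3)],[(k0,k2),(k3,k2),(k4,k2),(k7,k2),(k8,k2),(k11,k3)],[(k0,k2),(k3,k2),(k4,k2),(k7,k2),(k8,k2),
    (k11,k3)],[(k9,k2)],[(k6,k2)],[(k0,k2),(k3,k2),(k4,k2),(k7,k2),(k8,k2),(k11,k3)],[(k0,k2),(k3,k2),(k4,k2),(k7,k2),
    (k8,k2),(k11,k3)],[(k5,k2)],[(k2,k2)],[(k0,k2),(k3,k2),(k4,k2),(k7,k2),(k8,k2),(k11,k3)],[(k0,k3),(k3,k3),(k4,k3),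
    (k7,k3),(k8,k3),(k11,k4)],[(k1,k3),(k10,k4)]]
    [] k0
    [[k2,k0,k0,k0,k0,k0],[k1,k0,k0,k0,k0,k1],[k0,k1,k0,k0,k1,k0],[k0,k0,k1,k1,k0,k0]]
    [.contra [z1],.ref k4 k0 [(z1,[z1])],.ref k2 k0 [(z1,[y1,z1])],.ref k0 k0 [(z1,[y1,z1])]])]⟩

/-- classes `0 1 0 1 0 2`, types `S0 N0 S0 N2 S0 C0` -/
noncomputable def cU6_1942 : CertX :=
  ⟨[k0,k28,k0,k30,k0,k36],[(false,k0,[k0,k1,k2,k3,k4,k5]),(true,k5,[k5,k4,k3,k2,k1,k0])],[[[([z1,z0,z1,z0,z1,z1],z2)],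
    [([z1,z0,z0,z0,z0,z1],z2)],[]]],
    [.old (.leafM k1 [k4,k5,k0,k2] [] [(k1,k3,z1,[y1,z1]),(k3,k1,z1,[y1,z1])]),
    .old (.leafM k2 [k2,k3,k4,k1] [] [(k5,k0,z1,[z1]),(k0,k5,z1,[z1])]),
    .old (.lp [k2,k2,k2,k2,k2,k2] [k0,k0,k0,k0,k0,k0,k0,k0,k0,k0,k0,k0] k0 [] k8 k5
    [[(k10,k2)],[(k0,k2),(k3,k2),(k4,k2),(k7,k2),(k8,k2),(k11,k2)],[(k0,k2),(k3,k2),(k4,k2),(k7,k2),(k8,k2),(k11,k2)],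
    [(k6,k2)],[(k9,k2)],[(k0,k2),(k3,k2),(k4,k2),(k7,k2),(k8,k2),(k11,k2)],[(k0,k2),(k3,k2),(k4,k2),(k7,k2),(k8,k2),
    (k11,k2)],[(k2,k2)],[(k5,k2)],[(k0,k2),(k3,k2),(k4,k2),(k7,k2),(k8,k2),(k11,k2)],[(k0,k2),(k3,k2),(k4,k2),(k7,k2),
    (k8,k2),(k11,k2)],[(k1,k2)]]
    [] k0
    [[k1,k0,k0,k0,k0,k1],[k0,k1,k0,k1,k0,k0],[k0,k0,k1,k0,k1,k0]]
    [.ref k1 k0 [(z1,[z1])],.ref k0 k0 [(z1,[y1,z1])],.ref k0 k1 [(z1,[y1,z1])]])]⟩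

/-- classes `0 1 0 1 0 2`, types `S0 N0 S0 N2 S0 S0` -/
noncomputable def cU6_1943 : CertX :=
  ⟨[k0,k28,k0,k30,k0,k32],[(false,k0,[k0,k1,k2,k3,k4,k5]),(true,k5,[k5,k4,k3,k2,k1,k0])],[[[([z1,z0,z1,z0,z1,z1],z2)],
    [([z1,z0,z0,z0,z0,z1],z2)],[]]],
    [.old (.leafM k1 [k4,k5,k0,k2] [] [(k1,k3,z1,[y1,z1]),(k3,k1,z1,[y1,z1])]),
    .old (.leafM k2 [k2,k3,k4,k1] [] [(k5,k0,z1,[z1]),(k0,k5,z1,[z1])]),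
    .old (.lp [k4,k2,k2,k2,k2,k2] [k0,k0,k1,k1,k1,k1,k1,k1,k1,k1,k1,k1] k0 [] k8 k5
    [[(k10,k3),(k1,k4)],[(k3,k3),(k4,k3),(k7,k3),(k8,k3),(k11,k3),(k0,k4)],[(k3,k2),(k4,k2),(k7,k2),(k8,k2),(k11,k2),
    (k0,k3)],[(k6,k2)],[(k9,k2)],[(k3,k2),(k4,k2),(k7,k2),(k8,k2),(k11,k2),(k0,k3)],[(k3,k2),(k4,k2),(k7,k2),(k8,k2),
    (k11,k2),(k0,k3)],[(k2,k2)],[(k5,k2)],[(k3,k2),(k4,k2),(k7,k2),(k8,k2),(k11,k2),(k0,k3)],[(k3,k2),(k4,k2),(k7,k2),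
    (k8,k2),(k11,k2),(k0,k3)],[(k10,k2),(k1,k3)]]
    [] k0
    [[k1,k0,k0,k0,k0,k1],[k0,k1,k0,k1,k0,k0],[k0,k0,k1,k0,k1,k0],[k0,k0,k0,k0,k0,k2]]
    [.ref k1 k0 [(z1,[z1])],.ref k0 k0 [(z1,[y1,z1])],.ref k0 k1 [(z1,[y1,z1])],.contra [z1]])]⟩

/-- classes `0 1 0 1 0 2`, types `S0 S0 S0 S0 S0 C0` -/
noncomputable def cU6_1944 : CertX :=
  ⟨[k0,k16,k0,k16,k0,k36],[(false,k0,[k0,k1,k2,k3,k4,k5]),(true,k5,[k5,k4,k3,k2,k1,k0])],[[[([z1,z0,z0,z1,z1,z1],z2)],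
    [([z1,z0,z1,z0,z1,z1],z2)],[([z1,z1,z0,z0,z1,z1],z2)],[([z1,z0,z0,z0,z0,z1],z2)],[([z1,z0,z0,z0,z0,z1],z1),([z0,
    z1,z0,z0,z1,z0],z2)],[([z1,z0,z1,z1,z0,z1],z2)],[]]],
    [.old (.leafM k0 [k0,k3,k4,k5] [] [(k1,k2,z1,[y1,z1]),(k2,k1,z1,[y1,z1])]),
    .old (.leafM k1 [k4,k5,k0,k2] [] [(k1,k3,z1,[y1,z1]),(k3,k1,z1,[y1,z1])]),
    .old (.leafM k0 [k0,k1,k4,k5] [] [(k2,k3,z1,[y1,z1]),(k3,k2,z1,[y1,z1])]),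
    .old (.leafM k0 [k1,k2,k3,k4] [] [(k5,k0,z1,[z1]),(k0,k5,z1,[z1])]),
    .old (.leafM k4 [k0,k2,k3,k5] [(z1,[y1,y1,z1])] [(k1,k4,z1,[z0,z1]),(k4,k1,z1,[z0,z1])]),
    .old (.lp [k80,k180,k90,k90,k180,k72] [k50,k50,k0,k0,k45,k45,k45,k45,k0,k0,k54,k54] k0 [[],[],[],[],[k0,k0,k0,k0,k0,
    k0,k0,k0,k0,k30],[k0,k0,k0,k0,k0,k0,k0,k0,k0,k30],[],[],[k0,k0,k0,k0,k30,k30]] (nat_lit 360) k6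
    [[(k10,k76)],[(k11,k76),(k0,k80),(k4,k85),(k7,k85),(k3,k130),(k8,k130)],[(k11,k126),(k0,k130),(k4,k135),(k7,k135),
    (k3,k180),(k8,k180)],[(k5,k135),(k6,k135),(k2,k180),(k9,k180)],[(k5,k90),(k6,k90),(k2,k135),(k9,k135)],[(k0,k85),
    (k4,k90),(k7,k90),(k8,k105),(k11,k111),(k3,k135)],[(k0,k85),(k4,k90),(k7,k90),(k8,k105),(k11,k111),(k3,k135)],
    [(k5,k90),(k6,k90),(k2,k135),(k9,k135)],[(k5,k135),(k6,k135),(k2,k180),(k9,k180)],[(k4,k105),(k7,k105),(k11,k126),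
    (k0,k130),(k3,k180),(k8,k180)],[(k11,k72),(k0,k76),(k4,k111),(k7,k111),(k3,k126),(k8,k126)],[(k1,k76)]]
    [] k0
    [[k1,k0,k0,k0,k0,k1],[k2,k0,k0,k0,k0,k2],[k0,k1,k1,k0,k0,k0],[k0,k1,k0,k1,k0,k0],[k0,k0,k2,k0,k0,k0],[k0,k0,k1,k1,
    k0,k0],[k0,k0,k1,k0,k1,k0],[k0,k0,k0,k2,k0,k0],[k0,k0,k0,k1,k1,k0]]
    [.contra [y1,z1],.ref k4 k0 [(z2,[z1]),(z1,[z0,y1,z1])],.ref k0 k0 [(z1,[y1,z0,z1])],.ref k1 k0 [(z1,[y1,z0,z1])],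
    .contra [z1],.contra [y1,z1],.ref k1 k1 [(z1,[y1,z0,z1])],.contra [z1],.ref k0 k1 [(z1,[y1,z0,z1])]]),
    .old (.lp [k2,k2,k2,k2,k4,k2] [k1,k1,k1,k1,k1,k1,k1,k1,k0,k0,k1,k1] k0 [] k8 k5
    [[(k10,k2)],[(k0,k2),(k3,k2),(k4,k2),(k7,k2),(k11,k2),(k8,k3)],[(k0,k2),(k3,k2),(k4,k2),(k7,k2),(k11,k2),(k8,k3)],
    [(k2,k2),(k5,k2),(k6,k2),(k9,k3)],[(k2,k2),(k5,k2),(k6,k2),(k9,k3)],[(k0,k2),(k3,k2),(k4,k2),(k7,k2),(k11,k2),(k8,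
    k3)],[(k0,k2),(k3,k2),(k4,k2),(k7,k2),(k11,k2),(k8,k3)],[(k2,k2),(k5,k2),(k6,k2),(k9,k3)],[(k2,k3),(k5,k3),(k6,
    k3),(k9,k4)],[(k0,k3),(k3,k3),(k4,k3),(k7,k3),(k11,k3),(k8,k4)],[(k0,k2),(k3,k2),(k4,k2),(k7,k2),(k11,k2),(k8,
    k3)],[(k1,k2)]]
    [] k0
    [[k1,k0,k0,k0,k0,k1],[k0,k2,k0,k0,k0,k0],[k0,k1,k1,k0,k0,k0],[k0,k1,k0,k1,k0,k0],[k0,k1,k0,k0,k1,k0],[k0,k0,k2,k0,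
    k0,k0],[k0,k0,k1,k1,k0,k0],[k0,k0,k1,k0,k1,k0],[k0,k0,k0,k2,k0,k0],[k0,k0,k0,k1,k1,k0]]
    [.ref k3 k0 [(z1,[z1])],.contra [z1],.ref k0 k0 [(z1,[y1,z1])],.ref k1 k0 [(z1,[y1,z1])],.ref k5 k0 [(z1,[y1,
    z1])],.contra [z1],.ref k2 k0 [(z1,[y1,z1])],.ref k1 k1 [(z1,[y1,z1])],.contra [z1],.ref k0 k1 [(z1,[y1,z1])]])]⟩

/-- classes `0 1 0 1 2 3`, types `B0 B0 B1 B1 C0 C0` -/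
noncomputable def cU6_1945 : CertX :=
  ⟨[k8,k24,k9,k25,k36,k52],[(false,k0,[k0,k1,k2,k3,k4,k5])],[[[([z1,z0,z1,z0,z1,z1],z2)],[]]],
    [.old (.leafM k1 [k4,k5,k0,k2] [] [(k1,k3,z1,[y1,z1]),(k3,k1,z1,[y1,z1])]),
    .old (.lp [k2,k2,k2,k2,k2,k2] [k0,k0,k0,k0,k0,k0,k0,k0,k0,k0,k0,k0] k0 [] k8 k5
    [[(k10,k2)],[(k4,k2),(k7,k2)],[(k4,k2),(k7,k2)],[(k6,k2),(k9,k2)],[(k6,k2),(k9,k2)],[(k0,k2),(k3,k2)],[(k0,k2),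
    (k3,k2)],[(k2,k2),(k5,k2)],[(k2,k2),(k5,k2)],[(k11,k2)],[(k8,k2)],[(k1,k2)]]
    [] k0
    [[k0,k1,k0,k1,k0,k0]]
    [.ref k0 k0 [(z1,[y1,z1])]])]⟩

/-- classes `0 1 0 1 2 3`, types `B0 B0 B1 B1 C0 S0` -/
noncomputable def cU6_1946 : CertX :=
  ⟨[k8,k24,k9,k25,k36,k48],[(false,k0,[k0,k1,k2,k3,k4,k5])],[[[([z1,z0,z1,z0,z1,z1],z2)],[]]],
    [.old (.leafM k1 [k4,k5,k0,k2] [] [(k1,k3,z1,[y1,z1]),(k3,k1,z1,[y1,z1])]),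
    .old (.lp [k2,k2,k2,k2,k2,k2] [k0,k0,k0,k0,k0,k0,k0,k0,k0,k0,k0,k0] k0 [] k8 k5
    [[(k1,k2),(k10,k2)],[(k4,k2),(k7,k2)],[(k4,k2),(k7,k2)],[(k6,k2),(k9,k2)],[(k6,k2),(k9,k2)],[(k0,k2),(k3,k2)],
    [(k0,k2),(k3,k2)],[(k2,k2),(k5,k2)],[(k2,k2),(k5,k2)],[(k11,k2)],[(k8,k2)],[(k1,k2),(k10,k2)]]
    [] k0
    [[k0,k1,k0,k1,k0,k0]]
    [.ref k0 k0 [(z1,[y1,z1])]])]⟩

/-- classes `0 1 0 1 2 3`, types `B0 B0 B1 B1 S0 S0` -/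
noncomputable def cU6_1947 : CertX :=
  ⟨[k8,k24,k9,k25,k32,k48],[(false,k0,[k0,k1,k2,k3,k4,k5])],[[[([z1,z0,z1,z0,z1,z1],z2)],[]]],
    [.old (.leafM k1 [k4,k5,k0,k2] [] [(k1,k3,z1,[y1,z1]),(k3,k1,z1,[y1,z1])]),
    .old (.lp [k2,k2,k2,k2,k2,k4] [k1,k1,k1,k1,k1,k1,k1,k1,k1,k1,k0,k0] k0 [] k8 k5
    [[(k1,k2),(k10,k3)],[(k4,k2),(k7,k2)],[(k4,k2),(k7,k2)],[(k6,k2),(k9,k2)],[(k6,k2),(k9,k2)],[(k0,k2),(k3,k2)],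
    [(k0,k2),(k3,k2)],[(k2,k2),(k5,k2)],[(k2,k2),(k5,k2)],[(k8,k2),(k11,k3)],[(k8,k3),(k11,k4)],[(k1,k3),(k10,k4)]]
    [] k0
    [[k0,k1,k0,k1,k0,k0]]
    [.ref k0 k0 [(z1,[y1,z1])]])]⟩

/-- classes `0 1 0 1 2 3`, types `B0 C0 B1 C0 C0 C0` -/
noncomputable def cU6_1948 : CertX :=
  ⟨[k8,k20,k9,k20,k36,k52],[(false,k0,[k0,k1,k2,k3,k4,k5])],[[[([z1,z0,z0,z1,z1,z1],z2)],[]]],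
    [.old (.leafM k0 [k0,k3,k4,k5] [] [(k1,k2,z1,[y1,z1]),(k2,k1,z1,[y1,z1])]),
    .old (.lp [k2,k2,k2,k2,k2,k2] [k0,k0,k0,k0,k0,k0,k0,k0,k0,k0,k0,k0] k0 [] k8 k5
    [[(k10,k2)],[(k4,k2),(k7,k2)],[(k4,k2),(k7,k2)],[(k5,k2),(k9,k2)],[(k2,k2),(k6,k2)],[(k0,k2),(k3,k2)],[(k0,k2),
    (k3,k2)],[(k5,k2),(k9,k2)],[(k2,k2),(k6,k2)],[(k11,k2)],[(k8,k2)],[(k1,k2)]]
    [] k0
    [[k0,k1,k1,k0,k0,k0]]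
    [.ref k0 k0 [(z1,[y1,z1])]])]⟩

/-- classes `0 1 0 1 2 3`, types `B0 C0 B1 C0 C0 S0` -/
noncomputable def cU6_1949 : CertX :=
  ⟨[k8,k20,k9,k20,k36,k48],[(false,k0,[k0,k1,k2,k3,k4,k5])],[[[([z1,z0,z0,z1,z1,z1],z2)],[]]],
    [.old (.leafM k0 [k0,k3,k4,k5] [] [(k1,k2,z1,[y1,z1]),(k2,k1,z1,[y1,z1])]),
    .old (.lp [k2,k2,k2,k2,k2,k2] [k0,k0,k0,k0,k0,k0,k0,k0,k0,k0,k0,k0] k0 [] k8 k5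
    [[(k1,k2),(k10,k2)],[(k4,k2),(k7,k2)],[(k4,k2),(k7,k2)],[(k5,k2),(k9,k2)],[(k2,k2),(k6,k2)],[(k0,k2),(k3,k2)],
    [(k0,k2),(k3,k2)],[(k5,k2),(k9,k2)],[(k2,k2),(k6,k2)],[(k11,k2)],[(k8,k2)],[(k1,k2),(k10,k2)]]
    [] k0
    [[k0,k1,k1,k0,k0,k0]]
    [.ref k0 k0 [(z1,[y1,z1])]])]⟩

/-- classes `0 1 0 1 2 3`, types `B0 C0 B1 C0 S0 C0` -/
noncomputable def cU6_1950 : CertX :=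
  ⟨[k8,k20,k9,k20,k32,k52],[(false,k0,[k0,k1,k2,k3,k4,k5])],[[[([z1,z0,z0,z1,z1,z1],z2)],[]]],
    [.old (.leafM k0 [k0,k3,k4,k5] [] [(k1,k2,z1,[y1,z1]),(k2,k1,z1,[y1,z1])]),
    .old (.lp [k2,k2,k2,k2,k2,k2] [k0,k0,k0,k0,k0,k0,k0,k0,k0,k0,k0,k0] k0 [] k8 k5
    [[(k10,k2)],[(k4,k2),(k7,k2)],[(k4,k2),(k7,k2)],[(k5,k2),(k9,k2)],[(k2,k2),(k6,k2)],[(k0,k2),(k3,k2)],[(k0,k2),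
    (k3,k2)],[(k5,k2),(k9,k2)],[(k2,k2),(k6,k2)],[(k8,k2),(k11,k2)],[(k8,k2),(k11,k2)],[(k1,k2)]]
    [] k0
    [[k0,k1,k1,k0,k0,k0]]
    [.ref k0 k0 [(z1,[y1,z1])]])]⟩

/-- classes `0 1 0 1 2 3`, types `B0 C0 B1 C0 S0 S0` -/
noncomputable def cU6_1951 : CertX :=
  ⟨[k8,k20,k9,k20,k32,k48],[(false,k0,[k0,k1,k2,k3,k4,k5])],[[[([z1,z0,z0,z1,z1,z1],z2)],[]]],
    [.old (.leafM k0 [k0,k3,k4,k5] [] [(k1,k2,z1,[y1,z1]),(k2,k1,z1,[y1,z1])]),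
    .old (.lp [k2,k2,k2,k2,k2,k4] [k1,k1,k1,k1,k1,k1,k1,k1,k1,k1,k0,k0] k0 [] k8 k5
    [[(k1,k2),(k10,k3)],[(k4,k2),(k7,k2)],[(k4,k2),(k7,k2)],[(k5,k2),(k9,k2)],[(k2,k2),(k6,k2)],[(k0,k2),(k3,k2)],
    [(k0,k2),(k3,k2)],[(k5,k2),(k9,k2)],[(k2,k2),(k6,k2)],[(k8,k2),(k11,k3)],[(k8,k3),(k11,k4)],[(k1,k3),(k10,k4)]]
    [] k0
    [[k0,k1,k1,k0,k0,k0]]
    [.ref k0 k0 [(z1,[y1,z1])]])]⟩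

/-- classes `0 1 0 1 2 3`, types `B0 C0 B1 C2 C0 C0` -/
noncomputable def cU6_1952 : CertX :=
  ⟨[k8,k20,k9,k22,k36,k52],[(false,k0,[k0,k1,k2,k3,k4,k5])],[[[([z1,z0,z1,z0,z1,z1],z2)],[([z1,z0,z0,z1,z1,z1],z2)],
    []]],
    [.old (.leafM k1 [k4,k5,k0,k2] [] [(k1,k3,z1,[y1,z1]),(k3,k1,z1,[y1,z1])]),
    .old (.leafM k0 [k0,k3,k4,k5] [] [(k1,k2,z1,[y1,z1]),(k2,k1,z1,[y1,z1])]),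
    .old (.lp [k2,k2,k0,k0,k2,k0] [k0,k0,k0,k0,k1,k1,k1,k1,k0,k0,k1,k1] k0 [] k4 k5
    [[(k10,k1)],[(k4,k1),(k7,k1)],[(k4,k1),(k7,k1)],[(k5,k1),(k6,k1)],[(k2,k1),(k9,k1)],[(k0,k1),(k3,k1)],[(k0,k1),
    (k3,k1)],[(k2,k1),(k9,k1)],[(k5,k1),(k6,k1)],[(k11,k1)],[(k8,k1)],[(k1,k1)]]
    [] k0
    [[k0,k1,k1,k0,k0,k0],[k0,k1,k0,k1,k0,k0]]
    [.ref k1 k0 [(z1,[y1,z1])],.ref k0 k0 [(z1,[y1,z1])]])]⟩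

/-- classes `0 1 0 1 2 3`, types `B0 C0 B1 C2 C0 S0` -/
noncomputable def cU6_1953 : CertX :=
  ⟨[k8,k20,k9,k22,k36,k48],[(false,k0,[k0,k1,k2,k3,k4,k5])],[[[([z1,z0,z1,z0,z1,z1],z2)],[([z1,z0,z0,z1,z1,z1],z2)],
    []]],
    [.old (.leafM k1 [k4,k5,k0,k2] [] [(k1,k3,z1,[y1,z1]),(k3,k1,z1,[y1,z1])]),
    .old (.leafM k0 [k0,k3,k4,k5] [] [(k1,k2,z1,[y1,z1]),(k2,k1,z1,[y1,z1])]),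
    .old (.lp [k2,k2,k2,k2,k2,k2] [k0,k0,k0,k0,k0,k0,k0,k0,k0,k0,k0,k0] k0 [] k8 k5
    [[(k1,k2),(k10,k2)],[(k4,k2),(k7,k2)],[(k4,k2),(k7,k2)],[(k5,k2),(k6,k2)],[(k2,k2),(k9,k2)],[(k0,k2),(k3,k2)],
    [(k0,k2),(k3,k2)],[(k2,k2),(k9,k2)],[(k5,k2),(k6,k2)],[(k11,k2)],[(k8,k2)],[(k1,k2),(k10,k2)]]
    [] k0
    [[k0,k1,k1,k0,k0,k0],[k0,k1,k0,k1,k0,k0]]
    [.ref k1 k0 [(z1,[y1,z1])],.ref k0 k0 [(z1,[y1,z1])]])]⟩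

/-- classes `0 1 0 1 2 3`, types `B0 C0 B1 C2 S0 C0` -/
noncomputable def cU6_1954 : CertX :=
  ⟨[k8,k20,k9,k22,k32,k52],[(false,k0,[k0,k1,k2,k3,k4,k5])],[[[([z1,z0,z1,z0,z1,z1],z2)],[([z1,z0,z0,z1,z1,z1],z2)],
    []]],
    [.old (.leafM k1 [k4,k5,k0,k2] [] [(k1,k3,z1,[y1,z1]),(k3,k1,z1,[y1,z1])]),
    .old (.leafM k0 [k0,k3,k4,k5] [] [(k1,k2,z1,[y1,z1]),(k2,k1,z1,[y1,z1])]),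
    .old (.lp [k2,k2,k2,k2,k2,k2] [k0,k0,k0,k0,k0,k0,k0,k0,k0,k0,k0,k0] k0 [] k8 k5
    [[(k10,k2)],[(k4,k2),(k7,k2)],[(k4,k2),(k7,k2)],[(k5,k2),(k6,k2)],[(k2,k2),(k9,k2)],[(k0,k2),(k3,k2)],[(k0,k2),
    (k3,k2)],[(k2,k2),(k9,k2)],[(k5,k2),(k6,k2)],[(k8,k2),(k11,k2)],[(k8,k2),(k11,k2)],[(k1,k2)]]
    [] k0
    [[k0,k1,k1,k0,k0,k0],[k0,k1,k0,k1,k0,k0]]
    [.ref k1 k0 [(z1,[y1,z1])],.ref k0 k0 [(z1,[y1,z1])]])]⟩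

/-- classes `0 1 0 1 2 3`, types `B0 C0 B1 C2 S0 S0` -/
noncomputable def cU6_1955 : CertX :=
  ⟨[k8,k20,k9,k22,k32,k48],[(false,k0,[k0,k1,k2,k3,k4,k5])],[[[([z1,z0,z1,z0,z1,z1],z2)],[([z1,z0,z0,z1,z1,z1],z2)],
    []]],
    [.old (.leafM k1 [k4,k5,k0,k2] [] [(k1,k3,z1,[y1,z1]),(k3,k1,z1,[y1,z1])]),
    .old (.leafM k0 [k0,k3,k4,k5] [] [(k1,k2,z1,[y1,z1]),(k2,k1,z1,[y1,z1])]),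
    .old (.lp [k2,k2,k2,k2,k2,k4] [k1,k1,k1,k1,k1,k1,k1,k1,k1,k1,k0,k0] k0 [] k8 k5
    [[(k1,k2),(k10,k3)],[(k4,k2),(k7,k2)],[(k4,k2),(k7,k2)],[(k5,k2),(k6,k2)],[(k2,k2),(k9,k2)],[(k0,k2),(k3,k2)],
    [(k0,k2),(k3,k2)],[(k2,k2),(k9,k2)],[(k5,k2),(k6,k2)],[(k8,k2),(k11,k3)],[(k8,k3),(k11,k4)],[(k1,k3),(k10,k4)]]
    [] k0
    [[k0,k1,k1,k0,k0,k0],[k0,k1,k0,k1,k0,k0]]
    [.ref k1 k0 [(z1,[y1,z1])],.ref k0 k0 [(z1,[y1,z1])]])]⟩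

/-- classes `0 1 0 1 2 3`, types `B0 N0 B1 N1 C0 C0` -/
noncomputable def cU6_1956 : CertX :=
  ⟨[k8,k28,k9,k29,k36,k52],[],[[[]]],
    [.old (.lp [k2,k2,k2,k2,k2,k2] [k0,k0,k0,k0,k0,k0,k0,k0,k0,k0,k0,k0] k0 [] k8 k5
    [[(k10,k2)],[(k4,k2),(k7,k2)],[(k4,k2),(k7,k2)],[(k9,k2)],[(k6,k2)],[(k0,k2),(k3,k2)],[(k0,k2),(k3,k2)],[(k5,k2)],
    [(k2,k2)],[(k11,k2)],[(k8,k2)],[(k1,k2)]]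
    [] k0
    []
    [])]⟩

/-- classes `0 1 0 1 2 3`, types `B0 N0 B1 N1 C0 S0` -/
noncomputable def cU6_1957 : CertX :=
  ⟨[k8,k28,k9,k29,k36,k48],[],[[[]]],
    [.old (.lp [k2,k2,k2,k2,k2,k2] [k0,k0,k0,k0,k0,k0,k0,k0,k0,k0,k0,k0] k0 [] k8 k5
    [[(k1,k2),(k10,k2)],[(k4,k2),(k7,k2)],[(k4,k2),(k7,k2)],[(k9,k2)],[(k6,k2)],[(k0,k2),(k3,k2)],[(k0,k2),(k3,k2)],
    [(k5,k2)],[(k2,k2)],[(k11,k2)],[(k8,k2)],[(k1,k2),(k10,k2)]]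
    [] k0
    []
    [])]⟩

/-- classes `0 1 0 1 2 3`, types `B0 N0 B1 N1 S0 C0` -/
noncomputable def cU6_1958 : CertX :=
  ⟨[k8,k28,k9,k29,k32,k52],[],[[[]]],
    [.old (.lp [k2,k2,k2,k2,k2,k2] [k0,k0,k0,k0,k0,k0,k0,k0,k0,k0,k0,k0] k0 [] k8 k5
    [[(k10,k2)],[(k4,k2),(k7,k2)],[(k4,k2),(k7,k2)],[(k9,k2)],[(k6,k2)],[(k0,k2),(k3,k2)],[(k0,k2),(k3,k2)],[(k5,k2)],
    [(k2,k2)],[(k8,k2),(k11,k2)],[(k8,k2),(k11,k2)],[(k1,k2)]]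
    [] k0
    []
    [])]⟩

/-- classes `0 1 0 1 2 3`, types `B0 N0 B1 N1 S0 S0` -/
noncomputable def cU6_1959 : CertX :=
  ⟨[k8,k28,k9,k29,k32,k48],[],[[[]]],
    [.old (.lp [k2,k2,k2,k2,k2,k4] [k1,k1,k1,k1,k1,k1,k1,k1,k1,k1,k0,k0] k0 [] k8 k5
    [[(k1,k2),(k10,k3)],[(k4,k2),(k7,k2)],[(k4,k2),(k7,k2)],[(k9,k2)],[(k6,k2)],[(k0,k2),(k3,k2)],[(k0,k2),(k3,k2)],
    [(k5,k2)],[(k2,k2)],[(k8,k2),(k11,k3)],[(k8,k3),(k11,k4)],[(k1,k3),(k10,k4)]]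
    [] k0
    []
    [])]⟩

/-- classes `0 1 0 1 2 3`, types `B0 N0 B1 N2 C0 C0` -/
noncomputable def cU6_1960 : CertX :=
  ⟨[k8,k28,k9,k30,k36,k52],[(false,k0,[k0,k1,k2,k3,k4,k5])],[[[([z1,z0,z1,z0,z1,z1],z2)],[]]],
    [.old (.leafM k1 [k4,k5,k0,k2] [] [(k1,k3,z1,[y1,z1]),(k3,k1,z1,[y1,z1])]),
    .old (.lp [k2,k2,k0,k0,k2,k0] [k0,k0,k0,k0,k1,k1,k1,k1,k0,k0,k1,k1] k0 [] k4 k5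
    [[(k10,k1)],[(k4,k1),(k7,k1)],[(k4,k1),(k7,k1)],[(k6,k1)],[(k9,k1)],[(k0,k1),(k3,k1)],[(k0,k1),(k3,k1)],[(k2,k1)],
    [(k5,k1)],[(k11,k1)],[(k8,k1)],[(k1,k1)]]
    [] k0
    [[k0,k1,k0,k1,k0,k0]]
    [.ref k0 k0 [(z1,[y1,z1])]])]⟩

/-- classes `0 1 0 1 2 3`, types `B0 N0 B1 N2 C0 S0` -/
noncomputable def cU6_1961 : CertX :=
  ⟨[k8,k28,k9,k30,k36,k48],[(false,k0,[k0,k1,k2,k3,k4,k5])],[[[([z1,z0,z1,z0,z1,z1],z2)],[]]],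
    [.old (.leafM k1 [k4,k5,k0,k2] [] [(k1,k3,z1,[y1,z1]),(k3,k1,z1,[y1,z1])]),
    .old (.lp [k2,k2,k2,k2,k2,k2] [k0,k0,k0,k0,k0,k0,k0,k0,k0,k0,k0,k0] k0 [] k8 k5
    [[(k1,k2),(k10,k2)],[(k4,k2),(k7,k2)],[(k4,k2),(k7,k2)],[(k6,k2)],[(k9,k2)],[(k0,k2),(k3,k2)],[(k0,k2),(k3,k2)],
    [(k2,k2)],[(k5,k2)],[(k11,k2)],[(k8,k2)],[(k1,k2),(k10,k2)]]
    [] k0
    [[k0,k1,k0,k1,k0,k0]]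
    [.ref k0 k0 [(z1,[y1,z1])]])]⟩

/-- classes `0 1 0 1 2 3`, types `B0 N0 B1 N2 S0 C0` -/
noncomputable def cU6_1962 : CertX :=
  ⟨[k8,k28,k9,k30,k32,k52],[(false,k0,[k0,k1,k2,k3,k4,k5])],[[[([z1,z0,z1,z0,z1,z1],z2)],[]]],
    [.old (.leafM k1 [k4,k5,k0,k2] [] [(k1,k3,z1,[y1,z1]),(k3,k1,z1,[y1,z1])]),
    .old (.lp [k2,k2,k2,k2,k2,k2] [k0,k0,k0,k0,k0,k0,k0,k0,k0,k0,k0,k0] k0 [] k8 k5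
    [[(k10,k2)],[(k4,k2),(k7,k2)],[(k4,k2),(k7,k2)],[(k6,k2)],[(k9,k2)],[(k0,k2),(k3,k2)],[(k0,k2),(k3,k2)],[(k2,k2)],
    [(k5,k2)],[(k8,k2),(k11,k2)],[(k8,k2),(k11,k2)],[(k1,k2)]]
    [] k0
    [[k0,k1,k0,k1,k0,k0]]
    [.ref k0 k0 [(z1,[y1,z1])]])]⟩

/-- classes `0 1 0 1 2 3`, types `B0 N0 B1 N2 S0 S0` -/
noncomputable def cU6_1963 : CertX :=
  ⟨[k8,k28,k9,k30,k32,k48],[(false,k0,[k0,k1,k2,k3,k4,k5])],[[[([z1,z0,z1,z0,z1,z1],z2)],[]]],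
    [.old (.leafM k1 [k4,k5,k0,k2] [] [(k1,k3,z1,[y1,z1]),(k3,k1,z1,[y1,z1])]),
    .old (.lp [k2,k2,k2,k2,k2,k4] [k1,k1,k1,k1,k1,k1,k1,k1,k1,k1,k0,k0] k0 [] k8 k5
    [[(k1,k2),(k10,k3)],[(k4,k2),(k7,k2)],[(k4,k2),(k7,k2)],[(k6,k2)],[(k9,k2)],[(k0,k2),(k3,k2)],[(k0,k2),(k3,k2)],
    [(k2,k2)],[(k5,k2)],[(k8,k2),(k11,k3)],[(k8,k3),(k11,k4)],[(k1,k3),(k10,k4)]]
    [] k0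
    [[k0,k1,k0,k1,k0,k0]]
    [.ref k0 k0 [(z1,[y1,z1])]])]⟩

/-- classes `0 1 0 1 2 3`, types `B0 S0 B1 S0 C0 C0` -/
noncomputable def cU6_1964 : CertX :=
  ⟨[k8,k16,k9,k16,k36,k52],[(false,k0,[k0,k1,k2,k3,k4,k5])],[[[([z1,z0,z1,z0,z1,z1],z2)],[([z1,z0,z0,z1,z1,z1],z2)],
    []]],
    [.old (.leafM k1 [k4,k5,k0,k2] [] [(k1,k3,z1,[y1,z1]),(k3,k1,z1,[y1,z1])]),
    .old (.leafM k0 [k0,k3,k4,k5] [] [(k1,k2,z1,[y1,z1]),(k2,k1,z1,[y1,z1])]),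
    .old (.lp [k2,k2,k2,k2,k2,k2] [k0,k0,k0,k0,k0,k0,k0,k0,k0,k0,k0,k0] k0 [] k8 k5
    [[(k10,k2)],[(k4,k2),(k7,k2)],[(k4,k2),(k7,k2)],[(k2,k2),(k5,k2),(k6,k2),(k9,k2)],[(k2,k2),(k5,k2),(k6,k2),(k9,
    k2)],[(k0,k2),(k3,k2)],[(k0,k2),(k3,k2)],[(k2,k2),(k5,k2),(k6,k2),(k9,k2)],[(k2,k2),(k5,k2),(k6,k2),(k9,k2)],
    [(k11,k2)],[(k8,k2)],[(k1,k2)]]
    [] k0
    [[k0,k1,k1,k0,k0,k0],[k0,k1,k0,k1,k0,k0]]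
    [.ref k1 k0 [(z1,[y1,z1])],.ref k0 k0 [(z1,[y1,z1])]])]⟩

/-- classes `0 1 0 1 2 3`, types `B0 S0 B1 S0 C0 S0` -/
noncomputable def cU6_1965 : CertX :=
  ⟨[k8,k16,k9,k16,k36,k48],[(false,k0,[k0,k1,k2,k3,k4,k5])],[[[([z1,z0,z1,z0,z1,z1],z2)],[([z1,z0,z0,z1,z1,z1],z2)],
    []]],
    [.old (.leafM k1 [k4,k5,k0,k2] [] [(k1,k3,z1,[y1,z1]),(k3,k1,z1,[y1,z1])]),
    .old (.leafM k0 [k0,k3,k4,k5] [] [(k1,k2,z1,[y1,z1]),(k2,k1,z1,[y1,z1])]),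
    .old (.lp [k2,k2,k2,k2,k2,k2] [k0,k0,k0,k0,k0,k0,k0,k0,k0,k0,k0,k0] k0 [] k8 k5
    [[(k1,k2),(k10,k2)],[(k4,k2),(k7,k2)],[(k4,k2),(k7,k2)],[(k2,k2),(k5,k2),(k6,k2),(k9,k2)],[(k2,k2),(k5,k2),(k6,
    k2),(k9,k2)],[(k0,k2),(k3,k2)],[(k0,k2),(k3,k2)],[(k2,k2),(k5,k2),(k6,k2),(k9,k2)],[(k2,k2),(k5,k2),(k6,k2),(k9,
    k2)],[(k11,k2)],[(k8,k2)],[(k1,k2),(k10,k2)]]
    [] k0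
    [[k0,k1,k1,k0,k0,k0],[k0,k1,k0,k1,k0,k0]]
    [.ref k1 k0 [(z1,[y1,z1])],.ref k0 k0 [(z1,[y1,z1])]])]⟩

/-- classes `0 1 0 1 2 3`, types `B0 S0 B1 S0 S0 C0` -/
noncomputable def cU6_1966 : CertX :=
  ⟨[k8,k16,k9,k16,k32,k52],[(false,k0,[k0,k1,k2,k3,k4,k5])],[[[([z1,z0,z1,z0,z1,z1],z2)],[([z1,z0,z0,z1,z1,z1],z2)],
    []]],
    [.old (.leafM k1 [k4,k5,k0,k2] [] [(k1,k3,z1,[y1,z1]),(k3,k1,z1,[y1,z1])]),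
    .old (.leafM k0 [k0,k3,k4,k5] [] [(k1,k2,z1,[y1,z1]),(k2,k1,z1,[y1,z1])]),
    .old (.lp [k2,k2,k2,k2,k4,k2] [k1,k1,k1,k1,k1,k1,k1,k1,k0,k0,k1,k1] k0 [] k8 k5
    [[(k10,k2)],[(k4,k2),(k7,k2)],[(k4,k2),(k7,k2)],[(k2,k2),(k5,k2),(k6,k2),(k9,k3)],[(k2,k2),(k5,k2),(k6,k2),(k9,
    k3)],[(k0,k2),(k3,k2)],[(k0,k2),(k3,k2)],[(k2,k2),(k5,k2),(k6,k2),(k9,k3)],[(k2,k3),(k5,k3),(k6,k3),(k9,k4)],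
    [(k11,k3),(k8,k4)],[(k11,k2),(k8,k3)],[(k1,k2)]]
    [] k0
    [[k0,k1,k1,k0,k0,k0],[k0,k1,k0,k1,k0,k0]]
    [.ref k1 k0 [(z1,[y1,z1])],.ref k0 k0 [(z1,[y1,z1])]])]⟩

/-- classes `0 1 0 1 2 3`, types `B0 S0 B1 S0 S0 S0` -/
noncomputable def cU6_1967 : CertX :=
  ⟨[k8,k16,k9,k16,k32,k48],[(false,k0,[k0,k1,k2,k3,k4,k5])],[[[([z1,z0,z1,z0,z1,z1],z2)],[([z1,z0,z0,z1,z1,z1],z2)],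
    []]],
    [.old (.leafM k1 [k4,k5,k0,k2] [] [(k1,k3,z1,[y1,z1]),(k3,k1,z1,[y1,z1])]),
    .old (.leafM k0 [k0,k3,k4,k5] [] [(k1,k2,z1,[y1,z1]),(k2,k1,z1,[y1,z1])]),
    .old (.lp [k2,k2,k2,k2,k4,k2] [k1,k1,k1,k1,k1,k1,k1,k1,k0,k0,k1,k1] k0 [] k8 k5
    [[(k1,k2),(k10,k2)],[(k4,k2),(k7,k2)],[(k4,k2),(k7,k2)],[(k2,k2),(k5,k2),(k6,k2),(k9,k3)],[(k2,k2),(k5,k2),(k6,
    k2),(k9,k3)],[(k0,k2),(k3,k2)],[(k0,k2),(k3,k2)],[(k2,k2),(k5,k2),(k6,k2),(k9,k3)],[(k2,k3),(k5,k3),(k6,k3),(k9,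
    k4)],[(k11,k3),(k8,k4)],[(k11,k2),(k8,k3)],[(k1,k2),(k10,k2)]]
    [] k0
    [[k0,k1,k1,k0,k0,k0],[k0,k1,k0,k1,k0,k0],[k0,k0,k0,k0,k0,k2]]
    [.ref k1 k0 [(z1,[y1,z1])],.ref k0 k0 [(z1,[y1,z1])],.contra [z1]])]⟩

/-- classes `0 1 0 1 2 3`, types `C0 C0 C0 C0 C0 C0` -/
noncomputable def cU6_1968 : CertX :=
  ⟨[k4,k20,k4,k20,k36,k52],[(false,k0,[k0,k1,k2,k3,k4,k5]),(true,k4,[k4,k3,k2,k1,k0,k5])],[[[([z1,z0,z0,z1,z1,z1],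
    z2)],[]]],
    [.old (.leafM k0 [k0,k3,k4,k5] [] [(k1,k2,z1,[y1,z1]),(k2,k1,z1,[y1,z1])]),
    .old (.lp [k0,k2,k0,k2,k0,k2] [k1,k1,k0,k0,k1,k1,k0,k0,k1,k1,k0,k0] k0 [] k4 k5
    [[(k10,k1)],[(k3,k1),(k7,k1)],[(k0,k1),(k4,k1)],[(k5,k1),(k9,k1)],[(k2,k1),(k6,k1)],[(k3,k1),(k7,k1)],[(k0,k1),
    (k4,k1)],[(k5,k1),(k9,k1)],[(k2,k1),(k6,k1)],[(k11,k1)],[(k8,k1)],[(k1,k1)]]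
    [] k0
    [[k0,k1,k1,k0,k0,k0],[k0,k0,k1,k1,k0,k0]]
    [.ref k0 k0 [(z1,[y1,z1])],.ref k0 k1 [(z1,[y1,z1])]])]⟩

/-- classes `0 1 0 1 2 3`, types `C0 C0 C0 C0 C0 S0` -/
noncomputable def cU6_1969 : CertX :=
  ⟨[k4,k20,k4,k20,k36,k48],[(false,k0,[k0,k1,k2,k3,k4,k5])],[[[([z1,z1,z0,z0,z1,z1],z2)],[([z1,z0,z0,z1,z1,z1],z2)],
    []]],
    [.old (.leafM k0 [k0,k1,k4,k5] [] [(k2,k3,z1,[y1,z1]),(k3,k2,z1,[y1,z1])]),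
    .old (.leafM k0 [k0,k3,k4,k5] [] [(k1,k2,z1,[y1,z1]),(k2,k1,z1,[y1,z1])]),
    .old (.lp [k2,k2,k2,k2,k2,k2] [k0,k0,k0,k0,k0,k0,k0,k0,k0,k0,k0,k0] k0 [] k8 k5
    [[(k1,k2),(k10,k2)],[(k3,k2),(k7,k2)],[(k0,k2),(k4,k2)],[(k5,k2),(k9,k2)],[(k2,k2),(k6,k2)],[(k3,k2),(k7,k2)],
    [(k0,k2),(k4,k2)],[(k5,k2),(k9,k2)],[(k2,k2),(k6,k2)],[(k11,k2)],[(k8,k2)],[(k1,k2),(k10,k2)]]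
    [] k0
    [[k0,k1,k1,k0,k0,k0],[k0,k0,k1,k1,k0,k0]]
    [.ref k1 k0 [(z1,[y1,z1])],.ref k0 k0 [(z1,[y1,z1])]])]⟩

/-- classes `0 1 0 1 2 3`, types `C0 C0 C0 C0 S0 S0` -/
noncomputable def cU6_1970 : CertX :=
  ⟨[k4,k20,k4,k20,k32,k48],[(false,k0,[k0,k1,k2,k3,k4,k5]),(true,k4,[k4,k3,k2,k1,k0,k5])],[[[([z1,z0,z0,z1,z1,z1],
    z2)],[]]],
    [.old (.leafM k0 [k0,k3,k4,k5] [] [(k1,k2,z1,[y1,z1]),(k2,k1,z1,[y1,z1])]),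
    .old (.lp [k2,k2,k2,k2,k2,k4] [k1,k1,k1,k1,k1,k1,k1,k1,k1,k1,k0,k0] k0 [] k8 k5
    [[(k1,k2),(k10,k3)],[(k3,k2),(k7,k2)],[(k0,k2),(k4,k2)],[(k5,k2),(k9,k2)],[(k2,k2),(k6,k2)],[(k3,k2),(k7,k2)],
    [(k0,k2),(k4,k2)],[(k5,k2),(k9,k2)],[(k2,k2),(k6,k2)],[(k8,k2),(k11,k3)],[(k8,k3),(k11,k4)],[(k1,k3),(k10,k4)]]
    [] k0
    [[k0,k1,k1,k0,k0,k0],[k0,k0,k1,k1,k0,k0]]
    [.ref k0 k0 [(z1,[y1,z1])],.ref k0 k1 [(z1,[y1,z1])]])]⟩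

/-- classes `0 1 0 1 2 3`, types `C0 C0 C0 C2 C0 C0` -/
noncomputable def cU6_1971 : CertX :=
  ⟨[k4,k20,k4,k22,k36,k52],[(false,k0,[k0,k1,k2,k3,k4,k5])],[[[([z1,z0,z0,z1,z1,z1],z2)],[]]],
    [.old (.leafM k0 [k0,k3,k4,k5] [] [(k1,k2,z1,[y1,z1]),(k2,k1,z1,[y1,z1])]),
    .old (.lp [k2,k2,k2,k2,k2,k2] [k0,k0,k0,k0,k0,k0,k0,k0,k0,k0,k0,k0] k0 [] k8 k5
    [[(k10,k2)],[(k3,k2),(k7,k2)],[(k0,k2),(k4,k2)],[(k5,k2),(k6,k2)],[(k2,k2),(k9,k2)],[(k3,k2),(k7,k2)],[(k0,k2),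
    (k4,k2)],[(k2,k2),(k9,k2)],[(k5,k2),(k6,k2)],[(k11,k2)],[(k8,k2)],[(k1,k2)]]
    [] k0
    [[k0,k1,k1,k0,k0,k0]]
    [.ref k0 k0 [(z1,[y1,z1])]])]⟩

/-- classes `0 1 0 1 2 3`, types `C0 C0 C0 C2 C0 S0` -/
noncomputable def cU6_1972 : CertX :=
  ⟨[k4,k20,k4,k22,k36,k48],[(false,k0,[k0,k1,k2,k3,k4,k5])],[[[([z1,z0,z0,z1,z1,z1],z2)],[]]],
    [.old (.leafM k0 [k0,k3,k4,k5] [] [(k1,k2,z1,[y1,z1]),(k2,k1,z1,[y1,z1])]),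
    .old (.lp [k2,k2,k2,k2,k2,k2] [k0,k0,k0,k0,k0,k0,k0,k0,k0,k0,k0,k0] k0 [] k8 k5
    [[(k1,k2),(k10,k2)],[(k3,k2),(k7,k2)],[(k0,k2),(k4,k2)],[(k5,k2),(k6,k2)],[(k2,k2),(k9,k2)],[(k3,k2),(k7,k2)],
    [(k0,k2),(k4,k2)],[(k2,k2),(k9,k2)],[(k5,k2),(k6,k2)],[(k11,k2)],[(k8,k2)],[(k1,k2),(k10,k2)]]
    [] k0
    [[k0,k1,k1,k0,k0,k0]]
    [.ref k0 k0 [(z1,[y1,z1])]])]⟩

/-- classes `0 1 0 1 2 3`, types `C0 C0 C0 C2 S0 C0` -/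
noncomputable def cU6_1973 : CertX :=
  ⟨[k4,k20,k4,k22,k32,k52],[(false,k0,[k0,k1,k2,k3,k4,k5])],[[[([z1,z0,z0,z1,z1,z1],z2)],[]]],
    [.old (.leafM k0 [k0,k3,k4,k5] [] [(k1,k2,z1,[y1,z1]),(k2,k1,z1,[y1,z1])]),
    .old (.lp [k2,k2,k2,k2,k2,k2] [k0,k0,k0,k0,k0,k0,k0,k0,k0,k0,k0,k0] k0 [] k8 k5
    [[(k10,k2)],[(k3,k2),(k7,k2)],[(k0,k2),(k4,k2)],[(k5,k2),(k6,k2)],[(k2,k2),(k9,k2)],[(k3,k2),(k7,k2)],[(k0,k2),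
    (k4,k2)],[(k2,k2),(k9,k2)],[(k5,k2),(k6,k2)],[(k8,k2),(k11,k2)],[(k8,k2),(k11,k2)],[(k1,k2)]]
    [] k0
    [[k0,k1,k1,k0,k0,k0]]
    [.ref k0 k0 [(z1,[y1,z1])]])]⟩

/-- classes `0 1 0 1 2 3`, types `C0 C0 C0 C2 S0 S0` -/
noncomputable def cU6_1974 : CertX :=
  ⟨[k4,k20,k4,k22,k32,k48],[(false,k0,[k0,k1,k2,k3,k4,k5])],[[[([z1,z0,z0,z1,z1,z1],z2)],[]]],
    [.old (.leafM k0 [k0,k3,k4,k5] [] [(k1,k2,z1,[y1,z1]),(k2,k1,z1,[y1,z1])]),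
    .old (.lp [k2,k2,k2,k2,k2,k4] [k1,k1,k1,k1,k1,k1,k1,k1,k1,k1,k0,k0] k0 [] k8 k5
    [[(k1,k2),(k10,k3)],[(k3,k2),(k7,k2)],[(k0,k2),(k4,k2)],[(k5,k2),(k6,k2)],[(k2,k2),(k9,k2)],[(k3,k2),(k7,k2)],
    [(k0,k2),(k4,k2)],[(k2,k2),(k9,k2)],[(k5,k2),(k6,k2)],[(k8,k2),(k11,k3)],[(k8,k3),(k11,k4)],[(k1,k3),(k10,k4)]]
    [] k0
    [[k0,k1,k1,k0,k0,k0]]
    [.ref k0 k0 [(z1,[y1,z1])]])]⟩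

/-- classes `0 1 0 1 2 3`, types `C0 C0 C2 C2 C0 C0` -/
noncomputable def cU6_1975 : CertX :=
  ⟨[k4,k20,k6,k22,k36,k52],[(false,k0,[k0,k1,k2,k3,k4,k5])],[[[([z1,z0,z1,z0,z1,z1],z2)],[]]],
    [.old (.leafM k1 [k4,k5,k0,k2] [] [(k1,k3,z1,[y1,z1]),(k3,k1,z1,[y1,z1])]),
    .old (.lp [k2,k2,k2,k2,k2,k2] [k0,k0,k0,k0,k0,k0,k0,k0,k0,k0,k0,k0] k0 [] k8 k5
    [[(k10,k2)],[(k3,k2),(k4,k2)],[(k0,k2),(k7,k2)],[(k5,k2),(k6,k2)],[(k2,k2),(k9,k2)],[(k0,k2),(k7,k2)],[(k3,k2),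
    (k4,k2)],[(k2,k2),(k9,k2)],[(k5,k2),(k6,k2)],[(k11,k2)],[(k8,k2)],[(k1,k2)]]
    [] k0
    [[k0,k1,k0,k1,k0,k0]]
    [.ref k0 k0 [(z1,[y1,z1])]])]⟩

/-- classes `0 1 0 1 2 3`, types `C0 C0 C2 C2 C0 S0` -/
noncomputable def cU6_1976 : CertX :=
  ⟨[k4,k20,k6,k22,k36,k48],[(false,k0,[k0,k1,k2,k3,k4,k5])],[[[([z1,z0,z1,z0,z1,z1],z2)],[]]],
    [.old (.leafM k1 [k4,k5,k0,k2] [] [(k1,k3,z1,[y1,z1]),(k3,k1,z1,[y1,z1])]),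
    .old (.lp [k2,k2,k2,k2,k2,k2] [k0,k0,k0,k0,k0,k0,k0,k0,k0,k0,k0,k0] k0 [] k8 k5
    [[(k1,k2),(k10,k2)],[(k3,k2),(k4,k2)],[(k0,k2),(k7,k2)],[(k5,k2),(k6,k2)],[(k2,k2),(k9,k2)],[(k0,k2),(k7,k2)],
    [(k3,k2),(k4,k2)],[(k2,k2),(k9,k2)],[(k5,k2),(k6,k2)],[(k11,k2)],[(k8,k2)],[(k1,k2),(k10,k2)]]
    [] k0
    [[k0,k1,k0,k1,k0,k0]]
    [.ref k0 k0 [(z1,[y1,z1])]])]⟩

/-- classes `0 1 0 1 2 3`, types `C0 C0 C2 C2 S0 S0` -/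
noncomputable def cU6_1977 : CertX :=
  ⟨[k4,k20,k6,k22,k32,k48],[(false,k0,[k0,k1,k2,k3,k4,k5])],[[[([z1,z0,z1,z0,z1,z1],z2)],[]]],
    [.old (.leafM k1 [k4,k5,k0,k2] [] [(k1,k3,z1,[y1,z1]),(k3,k1,z1,[y1,z1])]),
    .old (.lp [k2,k2,k2,k2,k2,k4] [k1,k1,k1,k1,k1,k1,k1,k1,k1,k1,k0,k0] k0 [] k8 k5
    [[(k1,k2),(k10,k3)],[(k3,k2),(k4,k2)],[(k0,k2),(k7,k2)],[(k5,k2),(k6,k2)],[(k2,k2),(k9,k2)],[(k0,k2),(k7,k2)],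
    [(k3,k2),(k4,k2)],[(k2,k2),(k9,k2)],[(k5,k2),(k6,k2)],[(k8,k2),(k11,k3)],[(k8,k3),(k11,k4)],[(k1,k3),(k10,k4)]]
    [] k0
    [[k0,k1,k0,k1,k0,k0]]
    [.ref k0 k0 [(z1,[y1,z1])]])]⟩

/-- classes `0 1 0 1 2 3`, types `C0 N0 C0 N1 C0 C0` -/
noncomputable def cU6_1978 : CertX :=
  ⟨[k4,k28,k4,k29,k36,k52],[(false,k0,[k0,k1,k2,k3,k4,k5])],[[[([z1,z1,z0,z0,z1,z1],z2)],[]]],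
    [.old (.leafM k0 [k0,k1,k4,k5] [] [(k2,k3,z1,[y1,z1]),(k3,k2,z1,[y1,z1])]),
    .old (.lp [k0,k2,k0,k2,k0,k2] [k1,k1,k0,k0,k1,k1,k0,k0,k1,k1,k0,k0] k0 [] k4 k5
    [[(k10,k1)],[(k3,k1),(k7,k1)],[(k0,k1),(k4,k1)],[(k9,k1)],[(k6,k1)],[(k3,k1),(k7,k1)],[(k0,k1),(k4,k1)],[(k5,k1)],
    [(k2,k1)],[(k11,k1)],[(k8,k1)],[(k1,k1)]]
    [] k0
    [[k0,k0,k1,k1,k0,k0]]
    [.ref k0 k0 [(z1,[y1,z1])]])]⟩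

/-- classes `0 1 0 1 2 3`, types `C0 N0 C0 N1 C0 S0` -/
noncomputable def cU6_1979 : CertX :=
  ⟨[k4,k28,k4,k29,k36,k48],[(false,k0,[k0,k1,k2,k3,k4,k5])],[[[([z1,z1,z0,z0,z1,z1],z2)],[]]],
    [.old (.leafM k0 [k0,k1,k4,k5] [] [(k2,k3,z1,[y1,z1]),(k3,k2,z1,[y1,z1])]),
    .old (.lp [k2,k2,k2,k2,k2,k2] [k0,k0,k0,k0,k0,k0,k0,k0,k0,k0,k0,k0] k0 [] k8 k5
    [[(k1,k2),(k10,k2)],[(k3,k2),(k7,k2)],[(k0,k2),(k4,k2)],[(k9,k2)],[(k6,k2)],[(k3,k2),(k7,k2)],[(k0,k2),(k4,k2)],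
    [(k5,k2)],[(k2,k2)],[(k11,k2)],[(k8,k2)],[(k1,k2),(k10,k2)]]
    [] k0
    [[k0,k0,k1,k1,k0,k0]]
    [.ref k0 k0 [(z1,[y1,z1])]])]⟩

/-- classes `0 1 0 1 2 3`, types `C0 N0 C0 N1 S0 C0` -/
noncomputable def cU6_1980 : CertX :=
  ⟨[k4,k28,k4,k29,k32,k52],[(false,k0,[k0,k1,k2,k3,k4,k5])],[[[([z1,z1,z0,z0,z1,z1],z2)],[]]],
    [.old (.leafM k0 [k0,k1,k4,k5] [] [(k2,k3,z1,[y1,z1]),(k3,k2,z1,[y1,z1])]),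
    .old (.lp [k2,k2,k2,k2,k2,k2] [k0,k0,k0,k0,k0,k0,k0,k0,k0,k0,k0,k0] k0 [] k8 k5
    [[(k10,k2)],[(k3,k2),(k7,k2)],[(k0,k2),(k4,k2)],[(k9,k2)],[(k6,k2)],[(k3,k2),(k7,k2)],[(k0,k2),(k4,k2)],[(k5,k2)],
    [(k2,k2)],[(k8,k2),(k11,k2)],[(k8,k2),(k11,k2)],[(k1,k2)]]
    [] k0
    [[k0,k0,k1,k1,k0,k0]]
    [.ref k0 k0 [(z1,[y1,z1])]])]⟩

/-- classes `0 1 0 1 2 3`, types `C0 N0 C0 N1 S0 S0` -/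
noncomputable def cU6_1981 : CertX :=
  ⟨[k4,k28,k4,k29,k32,k48],[(false,k0,[k0,k1,k2,k3,k4,k5])],[[[([z1,z1,z0,z0,z1,z1],z2)],[]]],
    [.old (.leafM k0 [k0,k1,k4,k5] [] [(k2,k3,z1,[y1,z1]),(k3,k2,z1,[y1,z1])]),
    .old (.lp [k2,k2,k2,k2,k2,k4] [k1,k1,k1,k1,k1,k1,k1,k1,k1,k1,k0,k0] k0 [] k8 k5
    [[(k1,k2),(k10,k3)],[(k3,k2),(k7,k2)],[(k0,k2),(k4,k2)],[(k9,k2)],[(k6,k2)],[(k3,k2),(k7,k2)],[(k0,k2),(k4,k2)],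
    [(k5,k2)],[(k2,k2)],[(k8,k2),(k11,k3)],[(k8,k3),(k11,k4)],[(k1,k3),(k10,k4)]]
    [] k0
    [[k0,k0,k1,k1,k0,k0]]
    [.ref k0 k0 [(z1,[y1,z1])]])]⟩

/-- classes `0 1 0 1 2 3`, types `C0 N0 C0 N2 C0 C0` -/
noncomputable def cU6_1982 : CertX :=
  ⟨[k4,k28,k4,k30,k36,k52],[],[[[]]],
    [.old (.lp [k2,k2,k2,k2,k2,k2] [k0,k0,k0,k0,k0,k0,k0,k0,k0,k0,k0,k0] k0 [] k8 k5
    [[(k10,k2)],[(k3,k2),(k7,k2)],[(k0,k2),(k4,k2)],[(k6,k2)],[(k9,k2)],[(k3,k2),(k7,k2)],[(k0,k2),(k4,k2)],[(k2,k2)],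
    [(k5,k2)],[(k11,k2)],[(k8,k2)],[(k1,k2)]]
    [] k0
    []
    [])]⟩

/-- classes `0 1 0 1 2 3`, types `C0 N0 C0 N2 C0 S0` -/
noncomputable def cU6_1983 : CertX :=
  ⟨[k4,k28,k4,k30,k36,k48],[],[[[]]],
    [.old (.lp [k2,k2,k2,k2,k2,k2] [k0,k0,k0,k0,k0,k0,k0,k0,k0,k0,k0,k0] k0 [] k8 k5
    [[(k1,k2),(k10,k2)],[(k3,k2),(k7,k2)],[(k0,k2),(k4,k2)],[(k6,k2)],[(k9,k2)],[(k3,k2),(k7,k2)],[(k0,k2),(k4,k2)],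
    [(k2,k2)],[(k5,k2)],[(k11,k2)],[(k8,k2)],[(k1,k2),(k10,k2)]]
    [] k0
    []
    [])]⟩

/-- classes `0 1 0 1 2 3`, types `C0 N0 C0 N2 S0 C0` -/
noncomputable def cU6_1984 : CertX :=
  ⟨[k4,k28,k4,k30,k32,k52],[],[[[]]],
    [.old (.lp [k2,k2,k2,k2,k2,k2] [k0,k0,k0,k0,k0,k0,k0,k0,k0,k0,k0,k0] k0 [] k8 k5
    [[(k10,k2)],[(k3,k2),(k7,k2)],[(k0,k2),(k4,k2)],[(k6,k2)],[(k9,k2)],[(k3,k2),(k7,k2)],[(k0,k2),(k4,k2)],[(k2,k2)],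
    [(k5,k2)],[(k8,k2),(k11,k2)],[(k8,k2),(k11,k2)],[(k1,k2)]]
    [] k0
    []
    [])]⟩

/-- classes `0 1 0 1 2 3`, types `C0 N0 C0 N2 S0 S0` -/
noncomputable def cU6_1985 : CertX :=
  ⟨[k4,k28,k4,k30,k32,k48],[],[[[]]],
    [.old (.lp [k2,k2,k2,k2,k2,k4] [k1,k1,k1,k1,k1,k1,k1,k1,k1,k1,k0,k0] k0 [] k8 k5
    [[(k1,k2),(k10,k3)],[(k3,k2),(k7,k2)],[(k0,k2),(k4,k2)],[(k6,k2)],[(k9,k2)],[(k3,k2),(k7,k2)],[(k0,k2),(k4,k2)],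
    [(k2,k2)],[(k5,k2)],[(k8,k2),(k11,k3)],[(k8,k3),(k11,k4)],[(k1,k3),(k10,k4)]]
    [] k0
    []
    [])]⟩

/-- the certificates of this file -/
noncomputable def lU6_32 : List CertX :=
  [cU6_1892, cU6_1893, cU6_1894, cU6_1895, cU6_1896, cU6_1897, cU6_1898, cU6_1899, cU6_1900, cU6_1901,
      cU6_1902, cU6_1903, cU6_1904, cU6_1905, cU6_1906, cU6_1907, cU6_1908, cU6_1909, cU6_1910, cU6_1911,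
      cU6_1912, cU6_1913, cU6_1914, cU6_1915, cU6_1916, cU6_1917, cU6_1918, cU6_1919, cU6_1920, cU6_1921,
      cU6_1922, cU6_1923, cU6_1924, cU6_1925, cU6_1926, cU6_1927, cU6_1928, cU6_1929, cU6_1930, cU6_1931,
      cU6_1932, cU6_1933, cU6_1934, cU6_1935, cU6_1936, cU6_1937, cU6_1938, cU6_1939, cU6_1940, cU6_1941,
      cU6_1942, cU6_1943, cU6_1944, cU6_1945, cU6_1946, cU6_1947, cU6_1948, cU6_1949, cU6_1950, cU6_1951,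
      cU6_1952, cU6_1953, cU6_1954, cU6_1955, cU6_1956, cU6_1957, cU6_1958, cU6_1959, cU6_1960, cU6_1961,
      cU6_1962, cU6_1963, cU6_1964, cU6_1965, cU6_1966, cU6_1967, cU6_1968, cU6_1969, cU6_1970, cU6_1971,
      cU6_1972, cU6_1973, cU6_1974, cU6_1975, cU6_1976, cU6_1977, cU6_1978, cU6_1979, cU6_1980, cU6_1981,
      cU6_1982, cU6_1983, cU6_1984, cU6_1985]

theorem gU6_32 : allF (chkE 6 ttU6) lU6_32 = true := by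
  decide +kernel

end Pool.Agent.Lib_MP_fa6e45
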