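import Pool.Agent.Lib_MP_fa6e45.CXT
import Pool.Agent.Lib_MP_fa6e45.HK

/-!
MP_fa6e45_co, stage 7: certificates (generated by a program).
-/

namespace Pool.Agent.Lib_MP_fa6e45

/-- classes `0 1 0 1 2 3`, types `C0 N0 C2 N1 C0 C0` -/
noncomputable def cU6_1986 : CertX :=
  ⟨[k4,k28,k6,k29,k36,k52],[(false,k0,[k0,k1,k2,k3,k4,k5])],[[[([z1,z1,z0,z0,z1,z1],z2)],[]]],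
    [.old (.leafM k0 [k0,k1,k4,k5] [] [(k2,k3,z1,[y1,z1]),(k3,k2,z1,[y1,z1])]),
    .old (.lp [k0,k2,k2,k0,k0,k2] [k1,k1,k0,k0,k0,k0,k1,k1,k1,k1,k0,k0] k0 [] k4 k5
    [[(k10,k1)],[(k3,k1),(k4,k1)],[(k0,k1),(k7,k1)],[(k9,k1)],[(k6,k1)],[(k0,k1),(k7,k1)],[(k3,k1),(k4,k1)],[(k5,k1)],
    [(k2,k1)],[(k11,k1)],[(k8,k1)],[(k1,k1)]]
    [] k0
    [[k0,k0,k1,k1,k0,k0]]
    [.ref k0 k0 [(z1,[y1,z1])]])]⟩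

/-- classes `0 1 0 1 2 3`, types `C0 N0 C2 N1 C0 S0` -/
noncomputable def cU6_1987 : CertX :=
  ⟨[k4,k28,k6,k29,k36,k48],[(false,k0,[k0,k1,k2,k3,k4,k5])],[[[([z1,z1,z0,z0,z1,z1],z2)],[]]],
    [.old (.leafM k0 [k0,k1,k4,k5] [] [(k2,k3,z1,[y1,z1]),(k3,k2,z1,[y1,z1])]),
    .old (.lp [k2,k2,k2,k2,k2,k2] [k0,k0,k0,k0,k0,k0,k0,k0,k0,k0,k0,k0] k0 [] k8 k5
    [[(k1,k2),(k10,k2)],[(k3,k2),(k4,k2)],[(k0,k2),(k7,k2)],[(k9,k2)],[(k6,k2)],[(k0,k2),(k7,k2)],[(k3,k2),(k4,k2)],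
    [(k5,k2)],[(k2,k2)],[(k11,k2)],[(k8,k2)],[(k1,k2),(k10,k2)]]
    [] k0
    [[k0,k0,k1,k1,k0,k0]]
    [.ref k0 k0 [(z1,[y1,z1])]])]⟩

/-- classes `0 1 0 1 2 3`, types `C0 N0 C2 N1 S0 C0` -/
noncomputable def cU6_1988 : CertX :=
  ⟨[k4,k28,k6,k29,k32,k52],[(false,k0,[k0,k1,k2,k3,k4,k5])],[[[([z1,z1,z0,z0,z1,z1],z2)],[]]],
    [.old (.leafM k0 [k0,k1,k4,k5] [] [(k2,k3,z1,[y1,z1]),(k3,k2,z1,[y1,z1])]),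
    .old (.lp [k2,k2,k2,k2,k2,k2] [k0,k0,k0,k0,k0,k0,k0,k0,k0,k0,k0,k0] k0 [] k8 k5
    [[(k10,k2)],[(k3,k2),(k4,k2)],[(k0,k2),(k7,k2)],[(k9,k2)],[(k6,k2)],[(k0,k2),(k7,k2)],[(k3,k2),(k4,k2)],[(k5,k2)],
    [(k2,k2)],[(k8,k2),(k11,k2)],[(k8,k2),(k11,k2)],[(k1,k2)]]
    [] k0
    [[k0,k0,k1,k1,k0,k0]]
    [.ref k0 k0 [(z1,[y1,z1])]])]⟩

/-- classes `0 1 0 1 2 3`, types `C0 N0 C2 N1 S0 S0` -/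
noncomputable def cU6_1989 : CertX :=
  ⟨[k4,k28,k6,k29,k32,k48],[(false,k0,[k0,k1,k2,k3,k4,k5])],[[[([z1,z1,z0,z0,z1,z1],z2)],[]]],
    [.old (.leafM k0 [k0,k1,k4,k5] [] [(k2,k3,z1,[y1,z1]),(k3,k2,z1,[y1,z1])]),
    .old (.lp [k2,k2,k2,k2,k2,k4] [k1,k1,k1,k1,k1,k1,k1,k1,k1,k1,k0,k0] k0 [] k8 k5
    [[(k1,k2),(k10,k3)],[(k3,k2),(k4,k2)],[(k0,k2),(k7,k2)],[(k9,k2)],[(k6,k2)],[(k0,k2),(k7,k2)],[(k3,k2),(k4,k2)],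
    [(k5,k2)],[(k2,k2)],[(k8,k2),(k11,k3)],[(k8,k3),(k11,k4)],[(k1,k3),(k10,k4)]]
    [] k0
    [[k0,k0,k1,k1,k0,k0]]
    [.ref k0 k0 [(z1,[y1,z1])]])]⟩

/-- classes `0 1 0 1 2 3`, types `C0 N0 C2 N2 C0 C0` -/
noncomputable def cU6_1990 : CertX :=
  ⟨[k4,k28,k6,k30,k36,k52],[(false,k0,[k0,k1,k2,k3,k4,k5])],[[[([z1,z0,z1,z0,z1,z1],z2)],[]]],
    [.old (.leafM k1 [k4,k5,k0,k2] [] [(k1,k3,z1,[y1,z1]),(k3,k1,z1,[y1,z1])]),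
    .old (.lp [k0,k2,k2,k0,k0,k2] [k1,k1,k0,k0,k0,k0,k1,k1,k1,k1,k0,k0] k0 [] k4 k5
    [[(k10,k1)],[(k3,k1),(k4,k1)],[(k0,k1),(k7,k1)],[(k6,k1)],[(k9,k1)],[(k0,k1),(k7,k1)],[(k3,k1),(k4,k1)],[(k2,k1)],
    [(k5,k1)],[(k11,k1)],[(k8,k1)],[(k1,k1)]]
    [] k0
    [[k0,k1,k0,k1,k0,k0]]
    [.ref k0 k0 [(z1,[y1,z1])]])]⟩

/-- classes `0 1 0 1 2 3`, types `C0 N0 C2 N2 C0 S0` -/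
noncomputable def cU6_1991 : CertX :=
  ⟨[k4,k28,k6,k30,k36,k48],[(false,k0,[k0,k1,k2,k3,k4,k5])],[[[([z1,z0,z1,z0,z1,z1],z2)],[]]],
    [.old (.leafM k1 [k4,k5,k0,k2] [] [(k1,k3,z1,[y1,z1]),(k3,k1,z1,[y1,z1])]),
    .old (.lp [k2,k2,k2,k2,k2,k2] [k0,k0,k0,k0,k0,k0,k0,k0,k0,k0,k0,k0] k0 [] k8 k5
    [[(k1,k2),(k10,k2)],[(k3,k2),(k4,k2)],[(k0,k2),(k7,k2)],[(k6,k2)],[(k9,k2)],[(k0,k2),(k7,k2)],[(k3,k2),(k4,k2)],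
    [(k2,k2)],[(k5,k2)],[(k11,k2)],[(k8,k2)],[(k1,k2),(k10,k2)]]
    [] k0
    [[k0,k1,k0,k1,k0,k0]]
    [.ref k0 k0 [(z1,[y1,z1])]])]⟩

/-- classes `0 1 0 1 2 3`, types `C0 N0 C2 N2 S0 C0` -/
noncomputable def cU6_1992 : CertX :=
  ⟨[k4,k28,k6,k30,k32,k52],[(false,k0,[k0,k1,k2,k3,k4,k5])],[[[([z1,z0,z1,z0,z1,z1],z2)],[]]],
    [.old (.leafM k1 [k4,k5,k0,k2] [] [(k1,k3,z1,[y1,z1]),(k3,k1,z1,[y1,z1])]),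
    .old (.lp [k2,k2,k2,k2,k2,k2] [k0,k0,k0,k0,k0,k0,k0,k0,k0,k0,k0,k0] k0 [] k8 k5
    [[(k10,k2)],[(k3,k2),(k4,k2)],[(k0,k2),(k7,k2)],[(k6,k2)],[(k9,k2)],[(k0,k2),(k7,k2)],[(k3,k2),(k4,k2)],[(k2,k2)],
    [(k5,k2)],[(k8,k2),(k11,k2)],[(k8,k2),(k11,k2)],[(k1,k2)]]
    [] k0
    [[k0,k1,k0,k1,k0,k0]]
    [.ref k0 k0 [(z1,[y1,z1])]])]⟩

/-- classes `0 1 0 1 2 3`, types `C0 N0 C2 N2 S0 S0` -/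
noncomputable def cU6_1993 : CertX :=
  ⟨[k4,k28,k6,k30,k32,k48],[(false,k0,[k0,k1,k2,k3,k4,k5])],[[[([z1,z0,z1,z0,z1,z1],z2)],[]]],
    [.old (.leafM k1 [k4,k5,k0,k2] [] [(k1,k3,z1,[y1,z1]),(k3,k1,z1,[y1,z1])]),
    .old (.lp [k2,k2,k2,k2,k2,k4] [k1,k1,k1,k1,k1,k1,k1,k1,k1,k1,k0,k0] k0 [] k8 k5
    [[(k1,k2),(k10,k3)],[(k3,k2),(k4,k2)],[(k0,k2),(k7,k2)],[(k6,k2)],[(k9,k2)],[(k0,k2),(k7,k2)],[(k3,k2),(k4,k2)],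
    [(k2,k2)],[(k5,k2)],[(k8,k2),(k11,k3)],[(k8,k3),(k11,k4)],[(k1,k3),(k10,k4)]]
    [] k0
    [[k0,k1,k0,k1,k0,k0]]
    [.ref k0 k0 [(z1,[y1,z1])]])]⟩

/-- classes `0 1 0 1 2 3`, types `C0 S0 C0 S0 C0 C0` -/
noncomputable def cU6_1994 : CertX :=
  ⟨[k4,k16,k4,k16,k36,k52],[(false,k0,[k0,k1,k2,k3,k4,k5])],[[[([z1,z1,z0,z0,z1,z1],z2)],[([z1,z0,z0,z1,z1,z1],z2)],
    []]],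
    [.old (.leafM k0 [k0,k1,k4,k5] [] [(k2,k3,z1,[y1,z1]),(k3,k2,z1,[y1,z1])]),
    .old (.leafM k0 [k0,k3,k4,k5] [] [(k1,k2,z1,[y1,z1]),(k2,k1,z1,[y1,z1])]),
    .old (.lp [k2,k2,k2,k2,k2,k2] [k0,k0,k0,k0,k0,k0,k0,k0,k0,k0,k0,k0] k0 [] k8 k5
    [[(k10,k2)],[(k3,k2),(k7,k2)],[(k0,k2),(k4,k2)],[(k2,k2),(k5,k2),(k6,k2),(k9,k2)],[(k2,k2),(k5,k2),(k6,k2),(k9,
    k2)],[(k3,k2),(k7,k2)],[(k0,k2),(k4,k2)],[(k2,k2),(k5,k2),(k6,k2),(k9,k2)],[(k2,k2),(k5,k2),(k6,k2),(k9,k2)],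
    [(k11,k2)],[(k8,k2)],[(k1,k2)]]
    [] k0
    [[k0,k1,k1,k0,k0,k0],[k0,k0,k1,k1,k0,k0]]
    [.ref k1 k0 [(z1,[y1,z1])],.ref k0 k0 [(z1,[y1,z1])]])]⟩

/-- classes `0 1 0 1 2 3`, types `C0 S0 C0 S0 C0 S0` -/
noncomputable def cU6_1995 : CertX :=
  ⟨[k4,k16,k4,k16,k36,k48],[(false,k0,[k0,k1,k2,k3,k4,k5])],[[[([z1,z1,z0,z0,z1,z1],z2)],[([z1,z0,z0,z1,z1,z1],z2)],
    []]],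
    [.old (.leafM k0 [k0,k1,k4,k5] [] [(k2,k3,z1,[y1,z1]),(k3,k2,z1,[y1,z1])]),
    .old (.leafM k0 [k0,k3,k4,k5] [] [(k1,k2,z1,[y1,z1]),(k2,k1,z1,[y1,z1])]),
    .old (.lp [k2,k2,k2,k2,k2,k2] [k0,k0,k0,k0,k0,k0,k0,k0,k0,k0,k0,k0] k0 [] k8 k5
    [[(k1,k2),(k10,k2)],[(k3,k2),(k7,k2)],[(k0,k2),(k4,k2)],[(k2,k2),(k5,k2),(k6,k2),(k9,k2)],[(k2,k2),(k5,k2),(k6,
    k2),(k9,k2)],[(k3,k2),(k7,k2)],[(k0,k2),(k4,k2)],[(k2,k2),(k5,k2),(k6,k2),(k9,k2)],[(k2,k2),(k5,k2),(k6,k2),(k9,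
    k2)],[(k11,k2)],[(k8,k2)],[(k1,k2),(k10,k2)]]
    [] k0
    [[k0,k1,k1,k0,k0,k0],[k0,k0,k1,k1,k0,k0]]
    [.ref k1 k0 [(z1,[y1,z1])],.ref k0 k0 [(z1,[y1,z1])]])]⟩

/-- classes `0 1 0 1 2 3`, types `C0 S0 C0 S0 S0 C0` -/
noncomputable def cU6_1996 : CertX :=
  ⟨[k4,k16,k4,k16,k32,k52],[(false,k0,[k0,k1,k2,k3,k4,k5])],[[[([z1,z1,z0,z0,z1,z1],z2)],[([z1,z0,z0,z1,z1,z1],z2)],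
    []]],
    [.old (.leafM k0 [k0,k1,k4,k5] [] [(k2,k3,z1,[y1,z1]),(k3,k2,z1,[y1,z1])]),
    .old (.leafM k0 [k0,k3,k4,k5] [] [(k1,k2,z1,[y1,z1]),(k2,k1,z1,[y1,z1])]),
    .old (.lp [k2,k2,k2,k2,k4,k2] [k1,k1,k1,k1,k1,k1,k1,k1,k0,k0,k1,k1] k0 [] k8 k5
    [[(k10,k2)],[(k3,k2),(k7,k2)],[(k0,k2),(k4,k2)],[(k2,k2),(k5,k2),(k6,k2),(k9,k3)],[(k2,k2),(k5,k2),(k6,k2),(k9,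
    k3)],[(k3,k2),(k7,k2)],[(k0,k2),(k4,k2)],[(k2,k2),(k5,k2),(k6,k2),(k9,k3)],[(k2,k3),(k5,k3),(k6,k3),(k9,k4)],
    [(k11,k3),(k8,k4)],[(k11,k2),(k8,k3)],[(k1,k2)]]
    [] k0
    [[k0,k1,k1,k0,k0,k0],[k0,k0,k1,k1,k0,k0]]
    [.ref k1 k0 [(z1,[y1,z1])],.ref k0 k0 [(z1,[y1,z1])]])]⟩

/-- classes `0 1 0 1 2 3`, types `C0 S0 C0 S0 S0 S0` -/
noncomputable def cU6_1997 : CertX :=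
  ⟨[k4,k16,k4,k16,k32,k48],[(false,k0,[k0,k1,k2,k3,k4,k5])],[[[([z1,z1,z0,z0,z1,z1],z2)],[([z1,z0,z0,z1,z1,z1],z2)],
    []]],
    [.old (.leafM k0 [k0,k1,k4,k5] [] [(k2,k3,z1,[y1,z1]),(k3,k2,z1,[y1,z1])]),
    .old (.leafM k0 [k0,k3,k4,k5] [] [(k1,k2,z1,[y1,z1]),(k2,k1,z1,[y1,z1])]),
    .old (.lp [k2,k2,k2,k2,k4,k2] [k1,k1,k1,k1,k1,k1,k1,k1,k0,k0,k1,k1] k0 [] k8 k5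
    [[(k1,k2),(k10,k2)],[(k3,k2),(k7,k2)],[(k0,k2),(k4,k2)],[(k2,k2),(k5,k2),(k6,k2),(k9,k3)],[(k2,k2),(k5,k2),(k6,
    k2),(k9,k3)],[(k3,k2),(k7,k2)],[(k0,k2),(k4,k2)],[(k2,k2),(k5,k2),(k6,k2),(k9,k3)],[(k2,k3),(k5,k3),(k6,k3),(k9,
    k4)],[(k11,k3),(k8,k4)],[(k11,k2),(k8,k3)],[(k1,k2),(k10,k2)]]
    [] k0
    [[k0,k1,k1,k0,k0,k0],[k0,k0,k1,k1,k0,k0],[k0,k0,k0,k0,k0,k2]]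
    [.ref k1 k0 [(z1,[y1,z1])],.ref k0 k0 [(z1,[y1,z1])],.contra [z1]])]⟩

/-- classes `0 1 0 1 2 3`, types `C0 S0 C2 S0 C0 C0` -/
noncomputable def cU6_1998 : CertX :=
  ⟨[k4,k16,k6,k16,k36,k52],[(false,k0,[k0,k1,k2,k3,k4,k5])],[[[([z1,z1,z0,z0,z1,z1],z2)],[([z1,z0,z1,z0,z1,z1],z2)],
    []]],
    [.old (.leafM k0 [k0,k1,k4,k5] [] [(k2,k3,z1,[y1,z1]),(k3,k2,z1,[y1,z1])]),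
    .old (.leafM k1 [k4,k5,k0,k2] [] [(k1,k3,z1,[y1,z1]),(k3,k1,z1,[y1,z1])]),
    .old (.lp [k2,k2,k2,k2,k2,k2] [k0,k0,k0,k0,k0,k0,k0,k0,k0,k0,k0,k0] k0 [] k8 k5
    [[(k10,k2)],[(k3,k2),(k4,k2)],[(k0,k2),(k7,k2)],[(k2,k2),(k5,k2),(k6,k2),(k9,k2)],[(k2,k2),(k5,k2),(k6,k2),(k9,
    k2)],[(k0,k2),(k7,k2)],[(k3,k2),(k4,k2)],[(k2,k2),(k5,k2),(k6,k2),(k9,k2)],[(k2,k2),(k5,k2),(k6,k2),(k9,k2)],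
    [(k11,k2)],[(k8,k2)],[(k1,k2)]]
    [] k0
    [[k0,k1,k0,k1,k0,k0],[k0,k0,k1,k1,k0,k0]]
    [.ref k1 k0 [(z1,[y1,z1])],.ref k0 k0 [(z1,[y1,z1])]])]⟩

/-- classes `0 1 0 1 2 3`, types `C0 S0 C2 S0 C0 S0` -/
noncomputable def cU6_1999 : CertX :=
  ⟨[k4,k16,k6,k16,k36,k48],[(false,k0,[k0,k1,k2,k3,k4,k5])],[[[([z1,z1,z0,z0,z1,z1],z2)],[([z1,z0,z1,z0,z1,z1],z2)],
    []]],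
    [.old (.leafM k0 [k0,k1,k4,k5] [] [(k2,k3,z1,[y1,z1]),(k3,k2,z1,[y1,z1])]),
    .old (.leafM k1 [k4,k5,k0,k2] [] [(k1,k3,z1,[y1,z1]),(k3,k1,z1,[y1,z1])]),
    .old (.lp [k2,k2,k2,k2,k2,k2] [k0,k0,k0,k0,k0,k0,k0,k0,k0,k0,k0,k0] k0 [] k8 k5
    [[(k1,k2),(k10,k2)],[(k3,k2),(k4,k2)],[(k0,k2),(k7,k2)],[(k2,k2),(k5,k2),(k6,k2),(k9,k2)],[(k2,k2),(k5,k2),(k6,
    k2),(k9,k2)],[(k0,k2),(k7,k2)],[(k3,k2),(k4,k2)],[(k2,k2),(k5,k2),(k6,k2),(k9,k2)],[(k2,k2),(k5,k2),(k6,k2),(k9,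
    k2)],[(k11,k2)],[(k8,k2)],[(k1,k2),(k10,k2)]]
    [] k0
    [[k0,k1,k0,k1,k0,k0],[k0,k0,k1,k1,k0,k0]]
    [.ref k1 k0 [(z1,[y1,z1])],.ref k0 k0 [(z1,[y1,z1])]])]⟩

/-- classes `0 1 0 1 2 3`, types `C0 S0 C2 S0 S0 C0` -/
noncomputable def cU6_2000 : CertX :=
  ⟨[k4,k16,k6,k16,k32,k52],[(false,k0,[k0,k1,k2,k3,k4,k5])],[[[([z1,z1,z0,z0,z1,z1],z2)],[([z1,z0,z1,z0,z1,z1],z2)],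
    []]],
    [.old (.leafM k0 [k0,k1,k4,k5] [] [(k2,k3,z1,[y1,z1]),(k3,k2,z1,[y1,z1])]),
    .old (.leafM k1 [k4,k5,k0,k2] [] [(k1,k3,z1,[y1,z1]),(k3,k1,z1,[y1,z1])]),
    .old (.lp [k2,k2,k2,k2,k4,k2] [k1,k1,k1,k1,k1,k1,k1,k1,k0,k0,k1,k1] k0 [] k8 k5
    [[(k10,k2)],[(k3,k2),(k4,k2)],[(k0,k2),(k7,k2)],[(k2,k2),(k5,k2),(k6,k2),(k9,k3)],[(k2,k2),(k5,k2),(k6,k2),(k9,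
    k3)],[(k0,k2),(k7,k2)],[(k3,k2),(k4,k2)],[(k2,k2),(k5,k2),(k6,k2),(k9,k3)],[(k2,k3),(k5,k3),(k6,k3),(k9,k4)],
    [(k11,k3),(k8,k4)],[(k11,k2),(k8,k3)],[(k1,k2)]]
    [] k0
    [[k0,k1,k0,k1,k0,k0],[k0,k0,k1,k1,k0,k0]]
    [.ref k1 k0 [(z1,[y1,z1])],.ref k0 k0 [(z1,[y1,z1])]])]⟩

/-- classes `0 1 0 1 2 3`, types `C0 S0 C2 S0 S0 S0` -/
noncomputable def cU6_2001 : CertX :=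
  ⟨[k4,k16,k6,k16,k32,k48],[(false,k0,[k0,k1,k2,k3,k4,k5])],[[[([z1,z1,z0,z0,z1,z1],z2)],[([z1,z0,z1,z0,z1,z1],z2)],
    []]],
    [.old (.leafM k0 [k0,k1,k4,k5] [] [(k2,k3,z1,[y1,z1]),(k3,k2,z1,[y1,z1])]),
    .old (.leafM k1 [k4,k5,k0,k2] [] [(k1,k3,z1,[y1,z1]),(k3,k1,z1,[y1,z1])]),
    .old (.lp [k2,k2,k2,k2,k4,k2] [k1,k1,k1,k1,k1,k1,k1,k1,k0,k0,k1,k1] k0 [] k8 k5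
    [[(k1,k2),(k10,k2)],[(k3,k2),(k4,k2)],[(k0,k2),(k7,k2)],[(k2,k2),(k5,k2),(k6,k2),(k9,k3)],[(k2,k2),(k5,k2),(k6,
    k2),(k9,k3)],[(k0,k2),(k7,k2)],[(k3,k2),(k4,k2)],[(k2,k2),(k5,k2),(k6,k2),(k9,k3)],[(k2,k3),(k5,k3),(k6,k3),(k9,
    k4)],[(k11,k3),(k8,k4)],[(k11,k2),(k8,k3)],[(k1,k2),(k10,k2)]]
    [] k0
    [[k0,k1,k0,k1,k0,k0],[k0,k0,k1,k1,k0,k0],[k0,k0,k0,k0,k0,k2]]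
    [.ref k1 k0 [(z1,[y1,z1])],.ref k0 k0 [(z1,[y1,z1])],.contra [z1]])]⟩

/-- classes `0 1 0 1 2 3`, types `N0 N0 N1 N1 C0 C0` -/
noncomputable def cU6_2002 : CertX :=
  ⟨[k12,k28,k13,k29,k36,k52],[],[[[]]],
    [.old (.lp [k0,k2,k0,k2,k0,k2] [k1,k1,k0,k0,k1,k1,k0,k0,k1,k1,k0,k0] k0 [] k4 k5
    [[(k10,k1)],[(k7,k1)],[(k4,k1)],[(k9,k1)],[(k6,k1)],[(k3,k1)],[(k0,k1)],[(k5,k1)],[(k2,k1)],[(k11,k1)],[(k8,k1)],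
    [(k1,k1)]]
    [] k0
    []
    [])]⟩

/-- classes `0 1 0 1 2 3`, types `N0 N0 N1 N1 C0 S0` -/
noncomputable def cU6_2003 : CertX :=
  ⟨[k12,k28,k13,k29,k36,k48],[],[[[]]],
    [.old (.lp [k2,k2,k2,k2,k2,k2] [k0,k0,k0,k0,k0,k0,k0,k0,k0,k0,k0,k0] k0 [] k8 k5
    [[(k1,k2),(k10,k2)],[(k7,k2)],[(k4,k2)],[(k9,k2)],[(k6,k2)],[(k3,k2)],[(k0,k2)],[(k5,k2)],[(k2,k2)],[(k11,k2)],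
    [(k8,k2)],[(k1,k2),(k10,k2)]]
    [] k0
    []
    [])]⟩

/-- classes `0 1 0 1 2 3`, types `N0 N0 N1 N1 S0 S0` -/
noncomputable def cU6_2004 : CertX :=
  ⟨[k12,k28,k13,k29,k32,k48],[],[[[]]],
    [.old (.lp [k2,k2,k2,k2,k2,k4] [k1,k1,k1,k1,k1,k1,k1,k1,k1,k1,k0,k0] k0 [] k8 k5
    [[(k1,k2),(k10,k3)],[(k7,k2)],[(k4,k2)],[(k9,k2)],[(k6,k2)],[(k3,k2)],[(k0,k2)],[(k5,k2)],[(k2,k2)],[(k8,k2),(k11,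
    k3)],[(k8,k3),(k11,k4)],[(k1,k3),(k10,k4)]]
    [] k0
    []
    [])]⟩

/-- classes `0 1 0 1 2 3`, types `N0 N0 N1 N2 C0 C0` -/
noncomputable def cU6_2005 : CertX :=
  ⟨[k12,k28,k13,k30,k36,k52],[],[[[]]],
    [.old (.lp [k2,k2,k0,k0,k2,k0] [k0,k0,k0,k0,k1,k1,k1,k1,k0,k0,k1,k1] k0 [] k4 k5
    [[(k10,k1)],[(k7,k1)],[(k4,k1)],[(k6,k1)],[(k9,k1)],[(k3,k1)],[(k0,k1)],[(k2,k1)],[(k5,k1)],[(k11,k1)],[(k8,k1)],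
    [(k1,k1)]]
    [] k0
    []
    [])]⟩

/-- classes `0 1 0 1 2 3`, types `N0 N0 N1 N2 C0 S0` -/
noncomputable def cU6_2006 : CertX :=
  ⟨[k12,k28,k13,k30,k36,k48],[],[[[]]],
    [.old (.lp [k2,k2,k2,k2,k2,k2] [k0,k0,k0,k0,k0,k0,k0,k0,k0,k0,k0,k0] k0 [] k8 k5
    [[(k1,k2),(k10,k2)],[(k7,k2)],[(k4,k2)],[(k6,k2)],[(k9,k2)],[(k3,k2)],[(k0,k2)],[(k2,k2)],[(k5,k2)],[(k11,k2)],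
    [(k8,k2)],[(k1,k2),(k10,k2)]]
    [] k0
    []
    [])]⟩

/-- classes `0 1 0 1 2 3`, types `N0 N0 N1 N2 S0 C0` -/
noncomputable def cU6_2007 : CertX :=
  ⟨[k12,k28,k13,k30,k32,k52],[],[[[]]],
    [.old (.lp [k2,k2,k2,k2,k2,k2] [k0,k0,k0,k0,k0,k0,k0,k0,k0,k0,k0,k0] k0 [] k8 k5
    [[(k10,k2)],[(k7,k2)],[(k4,k2)],[(k6,k2)],[(k9,k2)],[(k3,k2)],[(k0,k2)],[(k2,k2)],[(k5,k2)],[(k8,k2),(k11,k2)],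
    [(k8,k2),(k11,k2)],[(k1,k2)]]
    [] k0
    []
    [])]⟩

/-- classes `0 1 0 1 2 3`, types `N0 N0 N1 N2 S0 S0` -/
noncomputable def cU6_2008 : CertX :=
  ⟨[k12,k28,k13,k30,k32,k48],[],[[[]]],
    [.old (.lp [k2,k2,k2,k2,k2,k4] [k1,k1,k1,k1,k1,k1,k1,k1,k1,k1,k0,k0] k0 [] k8 k5
    [[(k1,k2),(k10,k3)],[(k7,k2)],[(k4,k2)],[(k6,k2)],[(k9,k2)],[(k3,k2)],[(k0,k2)],[(k2,k2)],[(k5,k2)],[(k8,k2),(k11,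
    k3)],[(k8,k3),(k11,k4)],[(k1,k3),(k10,k4)]]
    [] k0
    []
    [])]⟩

/-- classes `0 1 0 1 2 3`, types `N0 N0 N2 N2 C0 C0` -/
noncomputable def cU6_2009 : CertX :=
  ⟨[k12,k28,k14,k30,k36,k52],[(false,k0,[k0,k1,k2,k3,k4,k5])],[[[([z1,z0,z1,z0,z1,z1],z2)],[]]],
    [.old (.leafM k1 [k4,k5,k0,k2] [] [(k1,k3,z1,[y1,z1]),(k3,k1,z1,[y1,z1])]),
    .old (.lp [k2,k2,k0,k0,k2,k0] [k0,k0,k0,k0,k1,k1,k1,k1,k0,k0,k1,k1] k0 [] k4 k5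
    [[(k10,k1)],[(k4,k1)],[(k7,k1)],[(k6,k1)],[(k9,k1)],[(k0,k1)],[(k3,k1)],[(k2,k1)],[(k5,k1)],[(k11,k1)],[(k8,k1)],
    [(k1,k1)]]
    [] k0
    [[k0,k1,k0,k1,k0,k0]]
    [.ref k0 k0 [(z1,[y1,z1])]])]⟩

/-- classes `0 1 0 1 2 3`, types `N0 N0 N2 N2 C0 S0` -/
noncomputable def cU6_2010 : CertX :=
  ⟨[k12,k28,k14,k30,k36,k48],[(false,k0,[k0,k1,k2,k3,k4,k5])],[[[([z1,z0,z1,z0,z1,z1],z2)],[]]],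
    [.old (.leafM k1 [k4,k5,k0,k2] [] [(k1,k3,z1,[y1,z1]),(k3,k1,z1,[y1,z1])]),
    .old (.lp [k2,k0,k2,k4,k2,k2] [k1,k1,k2,k2,k1,k1,k0,k0,k1,k1,k1,k1] k0 [] k8 k5
    [[(k1,k2),(k10,k2)],[(k4,k2)],[(k7,k2)],[(k6,k2)],[(k9,k2)],[(k0,k2)],[(k3,k2)],[(k2,k2)],[(k5,k2)],[(k11,k2)],
    [(k8,k2)],[(k1,k2),(k10,k2)]]
    [] k0
    [[k0,k1,k0,k1,k0,k0]]
    [.ref k0 k0 [(z1,[y1,z1])]])]⟩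

/-- classes `0 1 0 1 2 3`, types `N0 N0 N2 N2 S0 S0` -/
noncomputable def cU6_2011 : CertX :=
  ⟨[k12,k28,k14,k30,k32,k48],[(false,k0,[k0,k1,k2,k3,k4,k5])],[[[([z1,z0,z1,z0,z1,z1],z2)],[]]],
    [.old (.leafM k1 [k4,k5,k0,k2] [] [(k1,k3,z1,[y1,z1]),(k3,k1,z1,[y1,z1])]),
    .old (.lp [k2,k0,k2,k4,k2,k4] [k1,k1,k2,k2,k1,k1,k0,k0,k1,k1,k0,k0] k0 [] k8 k5
    [[(k1,k2),(k10,k3)],[(k4,k2)],[(k7,k2)],[(k6,k2)],[(k9,k2)],[(k0,k2)],[(k3,k2)],[(k2,k2)],[(k5,k2)],[(k8,k2),(k11,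
    k3)],[(k8,k3),(k11,k4)],[(k1,k3),(k10,k4)]]
    [] k0
    [[k0,k1,k0,k1,k0,k0]]
    [.ref k0 k0 [(z1,[y1,z1])]])]⟩

/-- classes `0 1 0 1 2 3`, types `N0 S0 N1 S0 C0 C0` -/
noncomputable def cU6_2012 : CertX :=
  ⟨[k12,k16,k13,k16,k36,k52],[(false,k0,[k0,k1,k2,k3,k4,k5])],[[[([z1,z0,z0,z1,z1,z1],z2)],[]]],
    [.old (.leafM k0 [k0,k3,k4,k5] [] [(k1,k2,z1,[y1,z1]),(k2,k1,z1,[y1,z1])]),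
    .old (.lp [k2,k2,k2,k2,k2,k2] [k0,k0,k0,k0,k0,k0,k0,k0,k0,k0,k0,k0] k0 [] k8 k5
    [[(k10,k2)],[(k7,k2)],[(k4,k2)],[(k2,k2),(k5,k2),(k6,k2),(k9,k2)],[(k2,k2),(k5,k2),(k6,k2),(k9,k2)],[(k3,k2)],
    [(k0,k2)],[(k2,k2),(k5,k2),(k6,k2),(k9,k2)],[(k2,k2),(k5,k2),(k6,k2),(k9,k2)],[(k11,k2)],[(k8,k2)],[(k1,k2)]]
    [] k0
    [[k0,k1,k1,k0,k0,k0]]
    [.ref k0 k0 [(z1,[y1,z1])]])]⟩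

/-- classes `0 1 0 1 2 3`, types `N0 S0 N1 S0 C0 S0` -/
noncomputable def cU6_2013 : CertX :=
  ⟨[k12,k16,k13,k16,k36,k48],[(false,k0,[k0,k1,k2,k3,k4,k5])],[[[([z1,z0,z0,z1,z1,z1],z2)],[]]],
    [.old (.leafM k0 [k0,k3,k4,k5] [] [(k1,k2,z1,[y1,z1]),(k2,k1,z1,[y1,z1])]),
    .old (.lp [k2,k2,k2,k2,k2,k2] [k0,k0,k0,k0,k0,k0,k0,k0,k0,k0,k0,k0] k0 [] k8 k5
    [[(k1,k2),(k10,k2)],[(k7,k2)],[(k4,k2)],[(k2,k2),(k5,k2),(k6,k2),(k9,k2)],[(k2,k2),(k5,k2),(k6,k2),(k9,k2)],[(k3,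
    k2)],[(k0,k2)],[(k2,k2),(k5,k2),(k6,k2),(k9,k2)],[(k2,k2),(k5,k2),(k6,k2),(k9,k2)],[(k11,k2)],[(k8,k2)],[(k1,k2),
    (k10,k2)]]
    [] k0
    [[k0,k1,k1,k0,k0,k0]]
    [.ref k0 k0 [(z1,[y1,z1])]])]⟩

/-- classes `0 1 0 1 2 3`, types `N0 S0 N1 S0 S0 C0` -/
noncomputable def cU6_2014 : CertX :=
  ⟨[k12,k16,k13,k16,k32,k52],[(false,k0,[k0,k1,k2,k3,k4,k5])],[[[([z1,z0,z0,z1,z1,z1],z2)],[]]],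
    [.old (.leafM k0 [k0,k3,k4,k5] [] [(k1,k2,z1,[y1,z1]),(k2,k1,z1,[y1,z1])]),
    .old (.lp [k2,k2,k2,k2,k4,k2] [k1,k1,k1,k1,k1,k1,k1,k1,k0,k0,k1,k1] k0 [] k8 k5
    [[(k10,k2)],[(k7,k2)],[(k4,k2)],[(k2,k2),(k5,k2),(k6,k2),(k9,k3)],[(k2,k2),(k5,k2),(k6,k2),(k9,k3)],[(k3,k2)],
    [(k0,k2)],[(k2,k2),(k5,k2),(k6,k2),(k9,k3)],[(k2,k3),(k5,k3),(k6,k3),(k9,k4)],[(k11,k3),(k8,k4)],[(k11,k2),(k8,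
    k3)],[(k1,k2)]]
    [] k0
    [[k0,k1,k1,k0,k0,k0]]
    [.ref k0 k0 [(z1,[y1,z1])]])]⟩

/-- classes `0 1 0 1 2 3`, types `N0 S0 N1 S0 S0 S0` -/
noncomputable def cU6_2015 : CertX :=
  ⟨[k12,k16,k13,k16,k32,k48],[(false,k0,[k0,k1,k2,k3,k4,k5])],[[[([z1,z0,z0,z1,z1,z1],z2)],[]]],
    [.old (.leafM k0 [k0,k3,k4,k5] [] [(k1,k2,z1,[y1,z1]),(k2,k1,z1,[y1,z1])]),
    .old (.lp [k2,k2,k2,k2,k4,k2] [k1,k1,k1,k1,k1,k1,k1,k1,k0,k0,k1,k1] k0 [] k8 k5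
    [[(k1,k2),(k10,k2)],[(k7,k2)],[(k4,k2)],[(k2,k2),(k5,k2),(k6,k2),(k9,k3)],[(k2,k2),(k5,k2),(k6,k2),(k9,k3)],[(k3,
    k2)],[(k0,k2)],[(k2,k2),(k5,k2),(k6,k2),(k9,k3)],[(k2,k3),(k5,k3),(k6,k3),(k9,k4)],[(k11,k3),(k8,k4)],[(k11,k2),
    (k8,k3)],[(k1,k2),(k10,k2)]]
    [] k0
    [[k0,k1,k1,k0,k0,k0],[k0,k0,k0,k0,k0,k2]]
    [.ref k0 k0 [(z1,[y1,z1])],.contra [z1]])]⟩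

/-- classes `0 1 0 1 2 3`, types `N0 S0 N2 S0 C0 C0` -/
noncomputable def cU6_2016 : CertX :=
  ⟨[k12,k16,k14,k16,k36,k52],[(false,k0,[k0,k1,k2,k3,k4,k5])],[[[([z1,z0,z1,z0,z1,z1],z2)],[]]],
    [.old (.leafM k1 [k4,k5,k0,k2] [] [(k1,k3,z1,[y1,z1]),(k3,k1,z1,[y1,z1])]),
    .old (.lp [k2,k2,k2,k2,k2,k2] [k0,k0,k0,k0,k0,k0,k0,k0,k0,k0,k0,k0] k0 [] k8 k5
    [[(k10,k2)],[(k4,k2)],[(k7,k2)],[(k2,k2),(k5,k2),(k6,k2),(k9,k2)],[(k2,k2),(k5,k2),(k6,k2),(k9,k2)],[(k0,k2)],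
    [(k3,k2)],[(k2,k2),(k5,k2),(k6,k2),(k9,k2)],[(k2,k2),(k5,k2),(k6,k2),(k9,k2)],[(k11,k2)],[(k8,k2)],[(k1,k2)]]
    [] k0
    [[k0,k1,k0,k1,k0,k0]]
    [.ref k0 k0 [(z1,[y1,z1])]])]⟩

/-- classes `0 1 0 1 2 3`, types `N0 S0 N2 S0 C0 S0` -/
noncomputable def cU6_2017 : CertX :=
  ⟨[k12,k16,k14,k16,k36,k48],[(false,k0,[k0,k1,k2,k3,k4,k5])],[[[([z1,z0,z1,z0,z1,z1],z2)],[]]],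
    [.old (.leafM k1 [k4,k5,k0,k2] [] [(k1,k3,z1,[y1,z1]),(k3,k1,z1,[y1,z1])]),
    .old (.lp [k2,k2,k2,k2,k2,k2] [k0,k0,k0,k0,k0,k0,k0,k0,k0,k0,k0,k0] k0 [] k8 k5
    [[(k1,k2),(k10,k2)],[(k4,k2)],[(k7,k2)],[(k2,k2),(k5,k2),(k6,k2),(k9,k2)],[(k2,k2),(k5,k2),(k6,k2),(k9,k2)],[(k0,
    k2)],[(k3,k2)],[(k2,k2),(k5,k2),(k6,k2),(k9,k2)],[(k2,k2),(k5,k2),(k6,k2),(k9,k2)],[(k11,k2)],[(k8,k2)],[(k1,k2),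
    (k10,k2)]]
    [] k0
    [[k0,k1,k0,k1,k0,k0]]
    [.ref k0 k0 [(z1,[y1,z1])]])]⟩

/-- classes `0 1 0 1 2 3`, types `N0 S0 N2 S0 S0 C0` -/
noncomputable def cU6_2018 : CertX :=
  ⟨[k12,k16,k14,k16,k32,k52],[(false,k0,[k0,k1,k2,k3,k4,k5])],[[[([z1,z0,z1,z0,z1,z1],z2)],[]]],
    [.old (.leafM k1 [k4,k5,k0,k2] [] [(k1,k3,z1,[y1,z1]),(k3,k1,z1,[y1,z1])]),
    .old (.lp [k2,k2,k2,k2,k4,k2] [k1,k1,k1,k1,k1,k1,k1,k1,k0,k0,k1,k1] k0 [] k8 k5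
    [[(k10,k2)],[(k4,k2)],[(k7,k2)],[(k2,k2),(k5,k2),(k6,k2),(k9,k3)],[(k2,k2),(k5,k2),(k6,k2),(k9,k3)],[(k0,k2)],
    [(k3,k2)],[(k2,k2),(k5,k2),(k6,k2),(k9,k3)],[(k2,k3),(k5,k3),(k6,k3),(k9,k4)],[(k11,k3),(k8,k4)],[(k11,k2),(k8,
    k3)],[(k1,k2)]]
    [] k0
    [[k0,k1,k0,k1,k0,k0]]
    [.ref k0 k0 [(z1,[y1,z1])]])]⟩

/-- classes `0 1 0 1 2 3`, types `N0 S0 N2 S0 S0 S0` -/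
noncomputable def cU6_2019 : CertX :=
  ⟨[k12,k16,k14,k16,k32,k48],[(false,k0,[k0,k1,k2,k3,k4,k5])],[[[([z1,z0,z1,z0,z1,z1],z2)],[]]],
    [.old (.leafM k1 [k4,k5,k0,k2] [] [(k1,k3,z1,[y1,z1]),(k3,k1,z1,[y1,z1])]),
    .old (.lp [k2,k2,k2,k2,k4,k2] [k1,k1,k1,k1,k1,k1,k1,k1,k0,k0,k1,k1] k0 [] k8 k5
    [[(k1,k2),(k10,k2)],[(k4,k2)],[(k7,k2)],[(k2,k2),(k5,k2),(k6,k2),(k9,k3)],[(k2,k2),(k5,k2),(k6,k2),(k9,k3)],[(k0,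
    k2)],[(k3,k2)],[(k2,k2),(k5,k2),(k6,k2),(k9,k3)],[(k2,k3),(k5,k3),(k6,k3),(k9,k4)],[(k11,k3),(k8,k4)],[(k11,k2),
    (k8,k3)],[(k1,k2),(k10,k2)]]
    [] k0
    [[k0,k1,k0,k1,k0,k0],[k0,k0,k0,k0,k0,k2]]
    [.ref k0 k0 [(z1,[y1,z1])],.contra [z1]])]⟩

/-- classes `0 1 0 1 2 3`, types `S0 S0 S0 S0 C0 C0` -/
noncomputable def cU6_2020 : CertX :=
  ⟨[k0,k16,k0,k16,k36,k52],[(false,k0,[k0,k1,k2,k3,k4,k5]),(true,k4,[k4,k3,k2,k1,k0,k5])],[[[([z1,z0,z0,z1,z1,z1],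
    z2)],[([z1,z0,z1,z0,z1,z1],z2)],[]]],
    [.old (.leafM k0 [k0,k3,k4,k5] [] [(k1,k2,z1,[y1,z1]),(k2,k1,z1,[y1,z1])]),
    .old (.leafM k1 [k4,k5,k0,k2] [] [(k1,k3,z1,[y1,z1]),(k3,k1,z1,[y1,z1])]),
    .old (.lp [k2,k4,k2,k2,k2,k2] [k1,k1,k0,k0,k1,k1,k1,k1,k1,k1,k1,k1] k0 [] k8 k5
    [[(k10,k2)],[(k0,k2),(k4,k2),(k7,k2),(k3,k3)],[(k0,k3),(k4,k3),(k7,k3),(k3,k4)],[(k5,k3),(k6,k3),(k9,k3),(k2,k4)],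
    [(k5,k2),(k6,k2),(k9,k2),(k2,k3)],[(k0,k2),(k4,k2),(k7,k2),(k3,k3)],[(k0,k2),(k4,k2),(k7,k2),(k3,k3)],[(k5,k2),
    (k6,k2),(k9,k2),(k2,k3)],[(k5,k2),(k6,k2),(k9,k2),(k2,k3)],[(k11,k2)],[(k8,k2)],[(k1,k2)]]
    [] k0
    [[k0,k1,k1,k0,k0,k0],[k0,k1,k0,k1,k0,k0],[k0,k0,k2,k0,k0,k0],[k0,k0,k1,k1,k0,k0],[k0,k0,k0,k2,k0,k0]]
    [.ref k0 k0 [(z1,[y1,z1])],.ref k1 k0 [(z1,[y1,z1])],.contra [z1],.ref k0 k1 [(z1,[y1,z1])],.contra [z1]])]⟩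

/-- classes `0 1 0 1 2 3`, types `S0 S0 S0 S0 C0 S0` -/
noncomputable def cU6_2021 : CertX :=
  ⟨[k0,k16,k0,k16,k36,k48],[(false,k0,[k0,k1,k2,k3,k4,k5])],[[[([z1,z1,z0,z0,z1,z1],z2)],[([z1,z0,z1,z0,z1,z1],z2)],
    [([z1,z0,z0,z1,z1,z1],z2)],[]]],
    [.old (.leafM k0 [k0,k1,k4,k5] [] [(k2,k3,z1,[y1,z1]),(k3,k2,z1,[y1,z1])]),
    .old (.leafM k1 [k4,k5,k0,k2] [] [(k1,k3,z1,[y1,z1]),(k3,k1,z1,[y1,z1])]),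
    .old (.leafM k0 [k0,k3,k4,k5] [] [(k1,k2,z1,[y1,z1]),(k2,k1,z1,[y1,z1])]),
    .old (.lp [k2,k2,k4,k2,k2,k2] [k1,k1,k1,k1,k0,k0,k1,k1,k1,k1,k1,k1] k0 [] k8 k5
    [[(k1,k2),(k10,k2)],[(k0,k2),(k3,k2),(k7,k2),(k4,k3)],[(k0,k2),(k3,k2),(k7,k2),(k4,k3)],[(k2,k2),(k6,k2),(k9,k2),
    (k5,k3)],[(k2,k3),(k6,k3),(k9,k3),(k5,k4)],[(k0,k3),(k3,k3),(k7,k3),(k4,k4)],[(k0,k2),(k3,k2),(k7,k2),(k4,k3)],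
    [(k2,k2),(k6,k2),(k9,k2),(k5,k3)],[(k2,k2),(k6,k2),(k9,k2),(k5,k3)],[(k11,k2)],[(k8,k2)],[(k1,k2),(k10,k2)]]
    [] k0
    [[k2,k0,k0,k0,k0,k0],[k0,k2,k0,k0,k0,k0],[k0,k1,k1,k0,k0,k0],[k0,k1,k0,k1,k0,k0],[k0,k0,k1,k1,k0,k0],[k0,k0,k0,k2,
    k0,k0]]
    [.contra [z1],.contra [z1],.ref k2 k0 [(z1,[y1,z1])],.ref k1 k0 [(z1,[y1,z1])],.ref k0 k0 [(z1,[y1,z1])],
    .contra [z1]])]⟩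

/-- classes `0 1 0 2 0 3`, types `C0 C0 C0 C0 C0 C0` -/
noncomputable def cU6_2022 : CertX :=
  ⟨[k4,k20,k4,k36,k4,k52],[(false,k0,[k0,k1,k2,k3,k4,k5]),(false,k4,[k4,k5,k0,k1,k2,k3]),(false,k2,[k2,k3,k4,k5,k0,
    k1])],[[[([z1,z0,z0,z0,z0,z1],z2)],[]]],
    [.old (.leafM k0 [k1,k2,k3,k4] [] [(k5,k0,z1,[z1]),(k0,k5,z1,[z1])]),
    .old (.lp [k2,k0,k2,k0,k2,k0] [k0,k0,k1,k1,k0,k0,k1,k1,k0,k0,k1,k1] k0 [] k4 k5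
    [[(k10,k1)],[(k3,k1),(k7,k1),(k11,k1)],[(k0,k1),(k4,k1),(k8,k1)],[(k5,k1)],[(k2,k1)],[(k3,k1),(k7,k1),(k11,k1)],
    [(k0,k1),(k4,k1),(k8,k1)],[(k9,k1)],[(k6,k1)],[(k3,k1),(k7,k1),(k11,k1)],[(k0,k1),(k4,k1),(k8,k1)],[(k1,k1)]]
    [] k0
    [[k1,k0,k0,k0,k0,k1],[k0,k1,k1,k0,k0,k0],[k0,k0,k0,k1,k1,k0]]
    [.ref k0 k0 [(z1,[z1])],.ref k0 k1 [(z1,[z1])],.ref k0 k2 [(z1,[z1])]])]⟩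

/-- classes `0 1 0 2 0 3`, types `C0 C0 C0 C0 C0 S0` -/
noncomputable def cU6_2023 : CertX :=
  ⟨[k4,k20,k4,k36,k4,k48],[(false,k0,[k0,k1,k2,k3,k4,k5]),(true,k5,[k5,k4,k3,k2,k1,k0])],[[[([z1,z0,z0,z1,z1,z1],z2)],
    [([z1,z0,z0,z0,z0,z1],z2)],[]]],
    [.old (.leafM k0 [k0,k3,k4,k5] [] [(k1,k2,z1,[y1,z1]),(k2,k1,z1,[y1,z1])]),
    .old (.leafM k0 [k1,k2,k3,k4] [] [(k5,k0,z1,[z1]),(k0,k5,z1,[z1])]),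
    .old (.lp [k2,k2,k2,k2,k2,k2] [k0,k0,k0,k0,k0,k0,k0,k0,k0,k0,k0,k0] k0 [] k8 k5
    [[(k1,k2),(k10,k2)],[(k3,k2),(k7,k2),(k11,k2)],[(k0,k2),(k4,k2),(k8,k2)],[(k5,k2)],[(k2,k2)],[(k3,k2),(k7,k2),
    (k11,k2)],[(k0,k2),(k4,k2),(k8,k2)],[(k9,k2)],[(k6,k2)],[(k3,k2),(k7,k2),(k11,k2)],[(k0,k2),(k4,k2),(k8,k2)],[(k1,
    k2),(k10,k2)]]
    [] k0
    [[k1,k0,k0,k0,k0,k1],[k0,k1,k1,k0,k0,k0],[k0,k0,k0,k1,k1,k0]]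
    [.ref k1 k0 [(z1,[z1])],.ref k0 k0 [(z1,[y1,z1])],.ref k0 k1 [(z1,[y1,z1])]])]⟩

/-- classes `0 1 0 2 0 3`, types `C0 C0 C0 C0 C2 C0` -/
noncomputable def cU6_2024 : CertX :=
  ⟨[k4,k20,k4,k36,k6,k52],[(false,k0,[k0,k1,k2,k3,k4,k5])],[[[([z1,z0,z0,z1,z1,z1],z2)],[]]],
    [.old (.leafM k0 [k0,k3,k4,k5] [] [(k1,k2,z1,[y1,z1]),(k2,k1,z1,[y1,z1])]),
    .old (.lp [k2,k2,k2,k2,k2,k2] [k0,k0,k0,k0,k0,k0,k0,k0,k0,k0,k0,k0] k0 [] k8 k5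
    [[(k10,k2)],[(k3,k2),(k7,k2),(k8,k2)],[(k0,k2),(k4,k2),(k11,k2)],[(k5,k2)],[(k2,k2)],[(k3,k2),(k7,k2),(k8,k2)],
    [(k0,k2),(k4,k2),(k11,k2)],[(k9,k2)],[(k6,k2)],[(k0,k2),(k4,k2),(k11,k2)],[(k3,k2),(k7,k2),(k8,k2)],[(k1,k2)]]
    [] k0
    [[k0,k1,k1,k0,k0,k0]]
    [.ref k0 k0 [(z1,[y1,z1])]])]⟩

/-- classes `0 1 0 2 0 3`, types `C0 C0 C0 C0 C2 S0` -/
noncomputable def cU6_2025 : CertX :=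
  ⟨[k4,k20,k4,k36,k6,k48],[(false,k0,[k0,k1,k2,k3,k4,k5])],[[[([z1,z0,z0,z1,z1,z1],z2)],[]]],
    [.old (.leafM k0 [k0,k3,k4,k5] [] [(k1,k2,z1,[y1,z1]),(k2,k1,z1,[y1,z1])]),
    .old (.lp [k2,k2,k2,k2,k2,k2] [k0,k0,k0,k0,k0,k0,k0,k0,k0,k0,k0,k0] k0 [] k8 k5
    [[(k1,k2),(k10,k2)],[(k3,k2),(k7,k2),(k8,k2)],[(k0,k2),(k4,k2),(k11,k2)],[(k5,k2)],[(k2,k2)],[(k3,k2),(k7,k2),(k8,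
    k2)],[(k0,k2),(k4,k2),(k11,k2)],[(k9,k2)],[(k6,k2)],[(k0,k2),(k4,k2),(k11,k2)],[(k3,k2),(k7,k2),(k8,k2)],[(k1,k2),
    (k10,k2)]]
    [] k0
    [[k0,k1,k1,k0,k0,k0]]
    [.ref k0 k0 [(z1,[y1,z1])]])]⟩

/-- classes `0 1 0 2 0 3`, types `C0 C0 C0 S0 C0 S0` -/
noncomputable def cU6_2026 : CertX :=
  ⟨[k4,k20,k4,k32,k4,k48],[(false,k0,[k0,k1,k2,k3,k4,k5]),(true,k3,[k3,k2,k1,k0,k5,k4])],[[[([z1,z0,z0,z0,z0,z1],z2)],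
    [([z1,z0,z0,z1,z1,z1],z2)],[]]],
    [.old (.leafM k0 [k1,k2,k3,k4] [] [(k5,k0,z1,[z1]),(k0,k5,z1,[z1])]),
    .old (.leafM k0 [k0,k3,k4,k5] [] [(k1,k2,z1,[y1,z1]),(k2,k1,z1,[y1,z1])]),
    .old (.lp [k2,k2,k2,k2,k2,k2] [k0,k0,k0,k0,k0,k0,k0,k0,k0,k0,k0,k0] k0 [] k8 k5
    [[(k1,k2),(k10,k2)],[(k3,k2),(k7,k2),(k11,k2)],[(k0,k2),(k4,k2),(k8,k2)],[(k5,k2)],[(k2,k2)],[(k3,k2),(k7,k2),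
    (k11,k2)],[(k0,k2),(k4,k2),(k8,k2)],[(k6,k2),(k9,k2)],[(k6,k2),(k9,k2)],[(k3,k2),(k7,k2),(k11,k2)],[(k0,k2),(k4,
    k2),(k8,k2)],[(k1,k2),(k10,k2)]]
    [] k0
    [[k1,k0,k0,k0,k0,k1],[k0,k1,k1,k0,k0,k0],[k0,k0,k0,k1,k1,k0]]
    [.ref k0 k0 [(z1,[z1])],.ref k1 k0 [(z1,[y1,z1])],.ref k0 k1 [(z1,[z1])]])]⟩

/-- classes `0 1 0 2 0 3`, types `C0 C0 C0 S0 C2 S0` -/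
noncomputable def cU6_2027 : CertX :=
  ⟨[k4,k20,k4,k32,k6,k48],[(false,k0,[k0,k1,k2,k3,k4,k5])],[[[([z1,z0,z0,z1,z1,z1],z2)],[]]],
    [.old (.leafM k0 [k0,k3,k4,k5] [] [(k1,k2,z1,[y1,z1]),(k2,k1,z1,[y1,z1])]),
    .old (.lp [k2,k2,k2,k2,k2,k2] [k0,k0,k0,k0,k0,k0,k0,k0,k0,k0,k0,k0] k0 [] k8 k5
    [[(k1,k2),(k10,k2)],[(k3,k2),(k7,k2),(k8,k2)],[(k0,k2),(k4,k2),(k11,k2)],[(k5,k2)],[(k2,k2)],[(k3,k2),(k7,k2),(k8,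
    k2)],[(k0,k2),(k4,k2),(k11,k2)],[(k6,k2),(k9,k2)],[(k6,k2),(k9,k2)],[(k0,k2),(k4,k2),(k11,k2)],[(k3,k2),(k7,k2),
    (k8,k2)],[(k1,k2),(k10,k2)]]
    [] k0
    [[k0,k1,k1,k0,k0,k0]]
    [.ref k0 k0 [(z1,[y1,z1])]])]⟩

/-- classes `0 1 0 2 0 3`, types `C0 C0 C2 C0 C0 S0` -/
noncomputable def cU6_2028 : CertX :=
  ⟨[k4,k20,k6,k36,k4,k48],[(false,k0,[k0,k1,k2,k3,k4,k5])],[[[([z1,z0,z0,z0,z0,z1],z2)],[]]],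
    [.old (.leafM k0 [k1,k2,k3,k4] [] [(k5,k0,z1,[z1]),(k0,k5,z1,[z1])]),
    .old (.lp [k2,k2,k2,k2,k2,k2] [k0,k0,k0,k0,k0,k0,k0,k0,k0,k0,k0,k0] k0 [] k8 k5
    [[(k1,k2),(k10,k2)],[(k3,k2),(k4,k2),(k11,k2)],[(k0,k2),(k7,k2),(k8,k2)],[(k5,k2)],[(k2,k2)],[(k0,k2),(k7,k2),(k8,
    k2)],[(k3,k2),(k4,k2),(k11,k2)],[(k9,k2)],[(k6,k2)],[(k3,k2),(k4,k2),(k11,k2)],[(k0,k2),(k7,k2),(k8,k2)],[(k1,k2),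
    (k10,k2)]]
    [] k0
    [[k1,k0,k0,k0,k0,k1]]
    [.ref k0 k0 [(z1,[z1])]])]⟩

/-- classes `0 1 0 2 0 3`, types `C0 C0 C2 S0 C0 S0` -/
noncomputable def cU6_2029 : CertX :=
  ⟨[k4,k20,k6,k32,k4,k48],[(false,k0,[k0,k1,k2,k3,k4,k5])],[[[([z1,z0,z0,z0,z0,z1],z2)],[]]],
    [.old (.leafM k0 [k1,k2,k3,k4] [] [(k5,k0,z1,[z1]),(k0,k5,z1,[z1])]),
    .old (.lp [k2,k2,k2,k2,k2,k2] [k0,k0,k0,k0,k0,k0,k0,k0,k0,k0,k0,k0] k0 [] k8 k5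
    [[(k1,k2),(k10,k2)],[(k3,k2),(k4,k2),(k11,k2)],[(k0,k2),(k7,k2),(k8,k2)],[(k5,k2)],[(k2,k2)],[(k0,k2),(k7,k2),(k8,
    k2)],[(k3,k2),(k4,k2),(k11,k2)],[(k6,k2),(k9,k2)],[(k6,k2),(k9,k2)],[(k3,k2),(k4,k2),(k11,k2)],[(k0,k2),(k7,k2),
    (k8,k2)],[(k1,k2),(k10,k2)]]
    [] k0
    [[k1,k0,k0,k0,k0,k1]]
    [.ref k0 k0 [(z1,[z1])]])]⟩

/-- classes `0 1 0 2 0 3`, types `C0 S0 C0 S0 C0 S0` -/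
noncomputable def cU6_2030 : CertX :=
  ⟨[k4,k16,k4,k32,k4,k48],[(false,k0,[k0,k1,k2,k3,k4,k5]),(false,k4,[k4,k5,k0,k1,k2,k3]),(false,k2,[k2,k3,k4,k5,k0,
    k1])],[[[([z1,z0,z0,z0,z0,z1],z2)],[]]],
    [.old (.leafM k0 [k1,k2,k3,k4] [] [(k5,k0,z1,[z1]),(k0,k5,z1,[z1])]),
    .old (.lp [k2,k2,k2,k2,k2,k2] [k0,k0,k0,k0,k0,k0,k0,k0,k0,k0,k0,k0] k0 [] k8 k5
    [[(k1,k2),(k10,k2)],[(k3,k2),(k7,k2),(k11,k2)],[(k0,k2),(k4,k2),(k8,k2)],[(k2,k2),(k5,k2)],[(k2,k2),(k5,k2)],[(k3,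
    k2),(k7,k2),(k11,k2)],[(k0,k2),(k4,k2),(k8,k2)],[(k6,k2),(k9,k2)],[(k6,k2),(k9,k2)],[(k3,k2),(k7,k2),(k11,k2)],
    [(k0,k2),(k4,k2),(k8,k2)],[(k1,k2),(k10,k2)]]
    [] k0
    [[k1,k0,k0,k0,k0,k1],[k0,k1,k1,k0,k0,k0],[k0,k0,k0,k1,k1,k0]]
    [.ref k0 k0 [(z1,[z1])],.ref k0 k1 [(z1,[z1])],.ref k0 k2 [(z1,[z1])]])]⟩

/-- classes `0 1 0 2 0 3`, types `C0 S0 C0 S0 C2 S0` -/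
noncomputable def cU6_2031 : CertX :=
  ⟨[k4,k16,k4,k32,k6,k48],[(false,k0,[k0,k1,k2,k3,k4,k5])],[[[([z1,z0,z0,z1,z1,z1],z2)],[]]],
    [.old (.leafM k0 [k0,k3,k4,k5] [] [(k1,k2,z1,[y1,z1]),(k2,k1,z1,[y1,z1])]),
    .old (.lp [k2,k2,k2,k2,k2,k2] [k0,k0,k0,k0,k0,k0,k0,k0,k0,k0,k0,k0] k0 [] k8 k5
    [[(k1,k2),(k10,k2)],[(k3,k2),(k7,k2),(k8,k2)],[(k0,k2),(k4,k2),(k11,k2)],[(k2,k2),(k5,k2)],[(k2,k2),(k5,k2)],[(k3,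
    k2),(k7,k2),(k8,k2)],[(k0,k2),(k4,k2),(k11,k2)],[(k6,k2),(k9,k2)],[(k6,k2),(k9,k2)],[(k0,k2),(k4,k2),(k11,k2)],
    [(k3,k2),(k7,k2),(k8,k2)],[(k1,k2),(k10,k2)]]
    [] k0
    [[k0,k1,k1,k0,k0,k0]]
    [.ref k0 k0 [(z1,[y1,z1])]])]⟩

/-- classes `0 1 0 2 0 3`, types `S0 C0 S0 C0 S0 C0` -/
noncomputable def cU6_2032 : CertX :=
  ⟨[k0,k20,k0,k36,k0,k52],[(false,k0,[k0,k1,k2,k3,k4,k5]),(false,k4,[k4,k5,k0,k1,k2,k3]),(false,k2,[k2,k3,k4,k5,k0,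
    k1])],[[[([z1,z0,z0,z0,z0,z1],z2)],[]]],
    [.old (.leafM k0 [k1,k2,k3,k4] [] [(k5,k0,z1,[z1]),(k0,k5,z1,[z1])]),
    .old (.lp [k2,k2,k2,k2,k2,k2] [k0,k0,k0,k0,k0,k0,k0,k0,k0,k0,k0,k0] k0 [] k8 k5
    [[(k10,k2)],[(k0,k2),(k3,k2),(k4,k2),(k7,k2),(k8,k2),(k11,k2)],[(k0,k2),(k3,k2),(k4,k2),(k7,k2),(k8,k2),(k11,k2)],
    [(k5,k2)],[(k2,k2)],[(k0,k2),(k3,k2),(k4,k2),(k7,k2),(k8,k2),(k11,k2)],[(k0,k2),(k3,k2),(k4,k2),(k7,k2),(k8,k2),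
    (k11,k2)],[(k9,k2)],[(k6,k2)],[(k0,k2),(k3,k2),(k4,k2),(k7,k2),(k8,k2),(k11,k2)],[(k0,k2),(k3,k2),(k4,k2),(k7,k2),
    (k8,k2),(k11,k2)],[(k1,k2)]]
    [] k0
    [[k1,k0,k0,k0,k0,k1],[k0,k1,k1,k0,k0,k0],[k0,k0,k0,k1,k1,k0]]
    [.ref k0 k0 [(z1,[z1])],.ref k0 k1 [(z1,[z1])],.ref k0 k2 [(z1,[z1])]])]⟩

/-- classes `0 1 0 2 0 3`, types `S0 C0 S0 C0 S0 S0` -/
noncomputable def cU6_2033 : CertX :=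
  ⟨[k0,k20,k0,k36,k0,k48],[(false,k0,[k0,k1,k2,k3,k4,k5]),(true,k5,[k5,k4,k3,k2,k1,k0])],[[[([z1,z0,z0,z1,z1,z1],z2)],
    [([z1,z0,z0,z0,z0,z1],z2)],[]]],
    [.old (.leafM k0 [k0,k3,k4,k5] [] [(k1,k2,z1,[y1,z1]),(k2,k1,z1,[y1,z1])]),
    .old (.leafM k0 [k1,k2,k3,k4] [] [(k5,k0,z1,[z1]),(k0,k5,z1,[z1])]),
    .old (.lp [k4,k2,k2,k2,k2,k2] [k0,k0,k1,k1,k1,k1,k1,k1,k1,k1,k1,k1] k0 [] k8 k5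
    [[(k10,k3),(k1,k4)],[(k3,k3),(k4,k3),(k7,k3),(k8,k3),(k11,k3),(k0,k4)],[(k3,k2),(k4,k2),(k7,k2),(k8,k2),(k11,k2),
    (k0,k3)],[(k5,k2)],[(k2,k2)],[(k3,k2),(k4,k2),(k7,k2),(k8,k2),(k11,k2),(k0,k3)],[(k3,k2),(k4,k2),(k7,k2),(k8,k2),
    (k11,k2),(k0,k3)],[(k9,k2)],[(k6,k2)],[(k3,k2),(k4,k2),(k7,k2),(k8,k2),(k11,k2),(k0,k3)],[(k3,k2),(k4,k2),(k7,k2),
    (k8,k2),(k11,k2),(k0,k3)],[(k10,k2),(k1,k3)]]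
    [] k0
    [[k1,k0,k0,k0,k0,k1],[k0,k1,k1,k0,k0,k0],[k0,k0,k0,k1,k1,k0],[k0,k0,k0,k0,k0,k2]]
    [.ref k1 k0 [(z1,[z1])],.ref k0 k0 [(z1,[y1,z1])],.ref k0 k1 [(z1,[y1,z1])],.contra [z1]])]⟩

/-- classes `0 1 0 2 0 3`, types `S0 C0 S0 S0 S0 S0` -/
noncomputable def cU6_2034 : CertX :=
  ⟨[k0,k20,k0,k32,k0,k48],[(false,k0,[k0,k1,k2,k3,k4,k5]),(true,k3,[k3,k2,k1,k0,k5,k4])],[[[([z1,z0,z0,z0,z0,z1],z2)],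
    [([z1,z0,z0,z1,z1,z1],z2)],[]]],
    [.old (.leafM k0 [k1,k2,k3,k4] [] [(k5,k0,z1,[z1]),(k0,k5,z1,[z1])]),
    .old (.leafM k0 [k0,k3,k4,k5] [] [(k1,k2,z1,[y1,z1]),(k2,k1,z1,[y1,z1])]),
    .old (.lp [k2,k2,k2,k4,k2,k2] [k1,k1,k1,k1,k1,k1,k0,k0,k1,k1,k1,k1] k0 [] k8 k5
    [[(k1,k2),(k10,k2)],[(k0,k2),(k3,k2),(k4,k2),(k8,k2),(k11,k2),(k7,k3)],[(k0,k2),(k3,k2),(k4,k2),(k8,k2),(k11,k2),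
    (k7,k3)],[(k5,k2)],[(k2,k2)],[(k0,k2),(k3,k2),(k4,k2),(k8,k2),(k11,k2),(k7,k3)],[(k0,k3),(k3,k3),(k4,k3),(k8,k3),
    (k11,k3),(k7,k4)],[(k9,k3),(k6,k4)],[(k9,k2),(k6,k3)],[(k0,k2),(k3,k2),(k4,k2),(k8,k2),(k11,k2),(k7,k3)],[(k0,k2),
    (k3,k2),(k4,k2),(k8,k2),(k11,k2),(k7,k3)],[(k1,k2),(k10,k2)]]
    [] k0
    [[k2,k0,k0,k0,k0,k0],[k1,k0,k0,k0,k0,k1],[k0,k1,k1,k0,k0,k0],[k0,k0,k0,k1,k1,k0],[k0,k0,k0,k0,k2,k0],[k0,k0,k0,k0,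
    k0,k2]]
    [.contra [z1],.ref k0 k0 [(z1,[z1])],.ref k1 k0 [(z1,[y1,z1])],.ref k0 k1 [(z1,[z1])],.contra [z1],.contra [z1]])]⟩

/-- classes `0 1 0 2 1 2`, types `B0 B0 B1 B0 B1 B1` -/
noncomputable def cU6_2035 : CertX :=
  ⟨[k8,k24,k9,k40,k25,k41],[(false,k0,[k0,k1,k2,k3,k4,k5])],[[[([z1,z0,z1,z0,z1,z0],z2)],[([z1,z0,z0,z1,z0,z0],z2)],
    []]],
    [.old (.leafM k5 [k0,k1,k2,k3,k4,k5] [(z1,[y1,z1]),(z1,[z1])] []),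
    .old (.leafM k5 [k1,k2,k4,k5] [] [(k3,k0,z1,[z1]),(k0,k3,z1,[z1])]),
    .old (.lp [k4,k2,k2,k2,k2,k2] [k0,k0,k1,k1,k1,k1,k1,k1,k1,k1,k1,k1] k0 [] k8 k5
    [[(k6,k3),(k9,k3)],[(k4,k3),(k7,k3)],[(k4,k2),(k7,k2)],[(k8,k2),(k11,k2)],[(k8,k2),(k11,k2)],[(k3,k2),(k0,k3)],
    [(k3,k2),(k0,k3)],[(k10,k2),(k1,k3)],[(k10,k2),(k1,k3)],[(k2,k2),(k5,k2)],[(k2,k2),(k5,k2)],[(k6,k2),(k9,k2)]]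
    [] k0
    [[k1,k0,k0,k1,k0,k0],[k0,k1,k0,k1,k0,k1]]
    [.ref k1 k0 [(z1,[z1])],.ref k0 k0 [(z1,[y1,z1])]])]⟩

/-- classes `0 1 0 2 1 2`, types `B0 B0 B1 C0 B1 C0` -/
noncomputable def cU6_2036 : CertX :=
  ⟨[k8,k24,k9,k36,k25,k36],[(false,k0,[k0,k1,k2,k3,k4,k5])],[[[([z1,z0,z0,z1,z0,z0],z2)],[([z1,z0,z1,z0,z0,z1],z2)],
    []]],
    [.old (.leafM k5 [k1,k2,k4,k5] [] [(k3,k0,z1,[z1]),(k0,k3,z1,[z1])]),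
    .old (.leafM k3 [k0,k1,k2,k3,k4,k5] [(z1,[y1,z1])] []),
    .old (.lp [k2,k4,k2,k2,k2,k2] [k1,k1,k0,k0,k1,k1,k1,k1,k1,k1,k1,k1] k0 [] k8 k5
    [[(k6,k2),(k10,k2)],[(k4,k2),(k7,k2)],[(k4,k3),(k7,k3)],[(k8,k3),(k11,k3)],[(k8,k2),(k11,k2)],[(k0,k2),(k3,k3)],
    [(k0,k2),(k3,k3)],[(k1,k2),(k9,k2)],[(k6,k2),(k10,k2)],[(k5,k2),(k2,k3)],[(k5,k2),(k2,k3)],[(k1,k2),(k9,k2)]]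
    [] k0
    [[k1,k0,k0,k1,k0,k0],[k1,k0,k1,k0,k0,k1]]
    [.ref k0 k0 [(z1,[z1])],.ref k1 k0 [(z1,[z1])]])]⟩

/-- classes `0 1 0 2 1 2`, types `B0 B0 B1 C0 B1 C2` -/
noncomputable def cU6_2037 : CertX :=
  ⟨[k8,k24,k9,k36,k25,k38],[(false,k0,[k0,k1,k2,k3,k4,k5])],[[[([z1,z0,z1,z0,z1,z0],z2)],[([z1,z0,z1,z0,z0,z1],z2)],
    []]],
    [.old (.leafM k5 [k0,k1,k2,k3,k4,k5] [(z1,[y1,z1]),(z1,[z1])] []),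
    .old (.leafM k3 [k0,k1,k2,k3,k4,k5] [(z1,[y1,z1])] []),
    .old (.lp [k2,k2,k4,k2,k2,k2] [k1,k1,k1,k1,k0,k0,k1,k1,k1,k1,k1,k1] k0 [] k8 k5
    [[(k9,k2),(k10,k2)],[(k7,k2),(k4,k3)],[(k7,k2),(k4,k3)],[(k8,k2),(k11,k2)],[(k8,k3),(k11,k3)],[(k0,k3),(k3,k3)],
    [(k0,k2),(k3,k2)],[(k9,k2),(k10,k2)],[(k1,k2),(k6,k2)],[(k2,k2),(k5,k3)],[(k2,k2),(k5,k3)],[(k1,k2),(k6,k2)]]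
    [] k0
    [[k0,k1,k0,k1,k1,k0],[k0,k1,k0,k1,k0,k1]]
    [.ref k1 k0 [(z1,[y1,z1])],.ref k0 k0 [(z1,[y1,z1])]])]⟩

/-- classes `0 1 0 2 1 2`, types `B0 B0 B1 N0 B1 N1` -/
noncomputable def cU6_2038 : CertX :=
  ⟨[k8,k24,k9,k44,k25,k45],[(false,k0,[k0,k1,k2,k3,k4,k5])],[[[([z1,z0,z0,z1,z0,z0],z2)],[]]],
    [.old (.leafM k5 [k1,k2,k4,k5] [] [(k3,k0,z1,[z1]),(k0,k3,z1,[z1])]),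
    .old (.lp [k2,k2,k2,k2,k2,k2] [k0,k0,k0,k0,k0,k0,k0,k0,k0,k0,k0,k0] k0 [] k8 k5
    [[(k6,k2)],[(k4,k2),(k7,k2)],[(k4,k2),(k7,k2)],[(k8,k2),(k11,k2)],[(k8,k2),(k11,k2)],[(k0,k2),(k3,k2)],[(k0,k2),
    (k3,k2)],[(k1,k2)],[(k10,k2)],[(k2,k2),(k5,k2)],[(k2,k2),(k5,k2)],[(k9,k2)]]
    [] k0
    [[k1,k0,k0,k1,k0,k0]]
    [.ref k0 k0 [(z1,[z1])]])]⟩

/-- classes `0 1 0 2 1 2`, types `B0 B0 B1 N0 B1 N2` -/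
noncomputable def cU6_2039 : CertX :=
  ⟨[k8,k24,k9,k44,k25,k46],[(false,k0,[k0,k1,k2,k3,k4,k5])],[[[([z1,z0,z1,z0,z1,z0],z2)],[]]],
    [.old (.leafM k5 [k0,k1,k2,k3,k4,k5] [(z1,[y1,z1]),(z1,[z1])] []),
    .old (.lp [k2,k2,k4,k2,k2,k2] [k1,k1,k1,k1,k0,k0,k1,k1,k1,k1,k1,k1] k0 [] k8 k5
    [[(k9,k2)],[(k7,k2),(k4,k3)],[(k7,k2),(k4,k3)],[(k8,k2),(k11,k2)],[(k8,k3),(k11,k3)],[(k0,k3),(k3,k3)],[(k0,k2),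
    (k3,k2)],[(k10,k2)],[(k1,k2)],[(k2,k2),(k5,k3)],[(k2,k2),(k5,k3)],[(k6,k2)]]
    [] k0
    [[k0,k1,k0,k1,k0,k1]]
    [.ref k0 k0 [(z1,[y1,z1])]])]⟩

/-- classes `0 1 0 2 1 2`, types `B0 B0 B1 S0 B1 S0` -/
noncomputable def cU6_2040 : CertX :=
  ⟨[k8,k24,k9,k32,k25,k32],[(false,k0,[k0,k1,k2,k3,k4,k5])],[[[([z1,z0,z1,z0,z1,z0],z2)],[([z1,z0,z0,z1,z0,z0],z2)],
    [([z1,z0,z1,z0,z0,z1],z2)],[]]],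
    [.old (.leafM k5 [k0,k1,k2,k3,k4,k5] [(z1,[y1,z1]),(z1,[z1])] []),
    .old (.leafM k5 [k1,k2,k4,k5] [] [(k3,k0,z1,[z1]),(k0,k3,z1,[z1])]),
    .old (.leafM k3 [k0,k1,k2,k3,k4,k5] [(z1,[y1,z1])] []),
    .old (.lp [k2,k2,k2,k2,k4,k2] [k1,k1,k1,k1,k1,k1,k1,k1,k0,k0,k1,k1] k0 [] k8 k5
    [[(k1,k2),(k6,k2),(k10,k2),(k9,k3)],[(k4,k2),(k7,k2)],[(k4,k2),(k7,k2)],[(k11,k2),(k8,k3)],[(k11,k2),(k8,k3)],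
    [(k0,k2),(k3,k2)],[(k0,k2),(k3,k2)],[(k1,k2),(k6,k2),(k10,k2),(k9,k3)],[(k1,k3),(k6,k3),(k10,k3),(k9,k4)],[(k2,
    k3),(k5,k3)],[(k2,k2),(k5,k2)],[(k1,k2),(k6,k2),(k10,k2),(k9,k3)]]
    [] k0
    [[k1,k0,k0,k1,k0,k0],[k1,k0,k1,k0,k0,k1],[k0,k1,k0,k1,k0,k1]]
    [.ref k1 k0 [(z1,[z1])],.ref k2 k0 [(z1,[z1])],.ref k0 k0 [(z1,[y1,z1])]])]⟩

/-- classes `0 1 0 2 1 2`, types `B0 C0 B1 B0 C0 B1` -/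
noncomputable def cU6_2041 : CertX :=
  ⟨[k8,k20,k9,k40,k20,k41],[(false,k0,[k0,k1,k2,k3,k4,k5]),(false,k3,[k3,k4,k5,k0,k1,k2])],[[[([z1,z0,z0,z1,z1,z1],
    z2)],[([z1,z0,z1,z0,z1,z0],z2)],[([z1,z0,z0,z1,z0,z0],z2)],[]]],
    [.old (.leafM k2 [k0,k3,k4,k5] [] [(k1,k2,z1,[y1,z1]),(k2,k1,z1,[y1,z1])]),
    .old (.leafM k5 [k0,k1,k2,k3,k4,k5] [(z1,[y1,z1]),(z1,[z1])] []),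
    .old (.leafM k5 [k1,k2,k4,k5] [] [(k3,k0,z1,[z1]),(k0,k3,z1,[z1])]),
    .old (.lp [k2,k2,k4,k2,k2,k2] [k1,k1,k1,k1,k0,k0,k1,k1,k1,k1,k1,k1] k0 [] k8 k5
    [[(k6,k2),(k9,k2)],[(k7,k2),(k4,k3)],[(k7,k2),(k4,k3)],[(k11,k2),(k5,k3)],[(k2,k3),(k8,k3)],[(k0,k3),(k3,k3)],
    [(k0,k2),(k3,k2)],[(k1,k2),(k10,k2)],[(k1,k2),(k10,k2)],[(k11,k2),(k5,k3)],[(k2,k2),(k8,k2)],[(k6,k2),(k9,k2)]]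
    [] k0
    [[k1,k0,k0,k1,k0,k0],[k0,k1,k1,k0,k0,k0],[k0,k1,k0,k1,k0,k1],[k0,k0,k0,k0,k1,k1]]
    [.ref k2 k0 [(z1,[z1])],.ref k0 k0 [(z1,[y1,z1])],.ref k1 k0 [(z1,[y1,z1])],.ref k0 k1 [(z1,[y1,z1])]])]⟩

/-- classes `0 1 0 2 1 2`, types `B0 C0 B1 B0 C2 B1` -/
noncomputable def cU6_2042 : CertX :=
  ⟨[k8,k20,k9,k40,k22,k41],[(false,k0,[k0,k1,k2,k3,k4,k5]),(false,k3,[k3,k4,k5,k0,k1,k2])],[[[([z1,z0,z0,z1,z1,z1],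
    z2)],[([z1,z0,z0,z1,z0,z0],z2)],[]]],
    [.old (.leafM k2 [k0,k3,k4,k5] [] [(k1,k2,z1,[y1,z1]),(k2,k1,z1,[y1,z1])]),
    .old (.leafM k6 [k2,k4,k5,k1] [] [(k3,k0,z1,[z1]),(k0,k3,z1,[z1])]),
    .old (.lp [k2,k2,k0,k0,k0,k2] [k0,k0,k0,k0,k1,k1,k1,k1,k1,k1,k0,k0] k0 [] k4 k5
    [[(k6,k1),(k9,k1)],[(k4,k1),(k7,k1)],[(k4,k1),(k7,k1)],[(k5,k1),(k8,k1)],[(k2,k1),(k11,k1)],[(k0,k1),(k3,k1)],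
    [(k0,k1),(k3,k1)],[(k1,k1),(k10,k1)],[(k1,k1),(k10,k1)],[(k2,k1),(k11,k1)],[(k5,k1),(k8,k1)],[(k6,k1),(k9,k1)]]
    [] k0
    [[k1,k0,k0,k1,k0,k0],[k0,k1,k1,k0,k0,k0],[k0,k0,k0,k0,k1,k1]]
    [.ref k1 k0 [(z1,[z1])],.ref k0 k0 [(z1,[y1,z1])],.ref k0 k1 [(z1,[y1,z1])]])]⟩

/-- classes `0 1 0 2 1 2`, types `B0 C0 B1 C0 C0 C0` -/
noncomputable def cU6_2043 : CertX :=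
  ⟨[k8,k20,k9,k36,k20,k36],[(false,k0,[k0,k1,k2,k3,k4,k5])],[[[([z1,z1,z1,z1,z0,z0],z2)],[([z1,z0,z0,z1,z1,z1],z2)],
    [([z1,z0,z0,z1,z0,z0],z2)],[]]],
    [.old (.leafM k2 [k1,k2,k3,k0] [] [(k4,k5,z1,[y1,z1]),(k5,k4,z1,[y1,z1])]),
    .old (.leafM k0 [k0,k3,k4,k5] [] [(k1,k2,z1,[y1,z1]),(k2,k1,z1,[y1,z1])]),
    .old (.leafM k5 [k1,k2,k4,k5] [] [(k3,k0,z1,[z1]),(k0,k3,z1,[z1])]),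
    .old (.lp [k0,k0,k2,k2,k0,k2] [k1,k1,k1,k1,k0,k0,k0,k0,k1,k1,k0,k0] k0 [] k4 k5
    [[(k6,k1),(k10,k1)],[(k4,k1),(k7,k1)],[(k4,k1),(k7,k1)],[(k5,k1),(k11,k1)],[(k2,k1),(k8,k1)],[(k0,k1),(k3,k1)],
    [(k0,k1),(k3,k1)],[(k1,k1),(k9,k1)],[(k6,k1),(k10,k1)],[(k5,k1),(k11,k1)],[(k2,k1),(k8,k1)],[(k1,k1),(k9,k1)]]
    [] k0
    [[k1,k0,k0,k1,k0,k0],[k0,k1,k1,k0,k0,k0],[k0,k0,k0,k0,k1,k1]]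
    [.ref k2 k0 [(z1,[z1])],.ref k1 k0 [(z1,[y1,z1])],.ref k0 k0 [(z1,[y1,z1])]])]⟩

/-- classes `0 1 0 2 1 2`, types `B0 C0 B1 C0 C0 C2` -/
noncomputable def cU6_2044 : CertX :=
  ⟨[k8,k20,k9,k36,k20,k38],[(false,k0,[k0,k1,k2,k3,k4,k5])],[[[([z1,z0,z1,z0,z1,z0],z2)],[([z1,z0,z0,z1,z1,z1],z2)],
    []]],
    [.old (.leafM k5 [k0,k1,k2,k3,k4,k5] [(z1,[y1,z1]),(z1,[z1])] []),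
    .old (.leafM k0 [k0,k3,k4,k5] [] [(k1,k2,z1,[y1,z1]),(k2,k1,z1,[y1,z1])]),
    .old (.lp [k2,k2,k4,k2,k2,k2] [k1,k1,k1,k1,k0,k0,k1,k1,k1,k1,k1,k1] k0 [] k8 k5
    [[(k9,k2),(k10,k2)],[(k7,k2),(k4,k3)],[(k7,k2),(k4,k3)],[(k11,k2),(k5,k3)],[(k2,k3),(k8,k3)],[(k0,k3),(k3,k3)],
    [(k0,k2),(k3,k2)],[(k9,k2),(k10,k2)],[(k1,k2),(k6,k2)],[(k11,k2),(k5,k3)],[(k2,k2),(k8,k2)],[(k1,k2),(k6,k2)]]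
    [] k0
    [[k0,k1,k1,k0,k0,k0],[k0,k1,k0,k1,k0,k1]]
    [.ref k1 k0 [(z1,[y1,z1])],.ref k0 k0 [(z1,[y1,z1])]])]⟩

/-- classes `0 1 0 2 1 2`, types `B0 C0 B1 C0 C2 C0` -/
noncomputable def cU6_2045 : CertX :=
  ⟨[k8,k20,k9,k36,k22,k36],[(false,k0,[k0,k1,k2,k3,k4,k5])],[[[([z1,z1,z1,z1,z0,z0],z2)],[([z1,z0,z1,z0,z0,z1],z2)],
    [([z1,z0,z0,z1,z1,z1],z2)],[([z1,z0,z0,z1,z0,z0],z2)],[]]],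
    [.old (.leafM k2 [k1,k2,k3,k0] [] [(k4,k5,z1,[y1,z1]),(k5,k4,z1,[y1,z1])]),
    .old (.leafM k3 [k0,k1,k2,k3,k4,k5] [(z1,[y1,z1])] []),
    .old (.leafM k0 [k0,k3,k4,k5] [] [(k1,k2,z1,[y1,z1]),(k2,k1,z1,[y1,z1])]),
    .old (.leafM k6 [k2,k4,k5,k1] [] [(k3,k0,z1,[z1]),(k0,k3,z1,[z1])]),
    .old (.lp [k2,k2,k4,k2,k2,k2] [k1,k1,k1,k1,k0,k0,k1,k1,k1,k1,k1,k1] k0 [] k8 k5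
    [[(k6,k2),(k10,k2)],[(k7,k2),(k4,k3)],[(k7,k2),(k4,k3)],[(k8,k2),(k5,k3)],[(k2,k3),(k11,k3)],[(k0,k3),(k3,k3)],
    [(k0,k2),(k3,k2)],[(k1,k2),(k9,k2)],[(k6,k2),(k10,k2)],[(k2,k2),(k11,k2)],[(k8,k2),(k5,k3)],[(k1,k2),(k9,k2)]]
    [] k0
    [[k1,k0,k0,k1,k0,k0],[k0,k1,k1,k0,k0,k0],[k0,k1,k0,k1,k1,k0],[k0,k0,k0,k0,k1,k1]]
    [.ref k3 k0 [(z1,[z1])],.ref k2 k0 [(z1,[y1,z1])],.ref k1 k0 [(z1,[y1,z1])],.ref k0 k0 [(z1,[y1,z1])]])]⟩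

/-- classes `0 1 0 2 1 2`, types `B0 C0 B1 C0 C2 C2` -/
noncomputable def cU6_2046 : CertX :=
  ⟨[k8,k20,k9,k36,k22,k38],[(false,k0,[k0,k1,k2,k3,k4,k5])],[[[([z1,z0,z0,z1,z1,z1],z2)],[([z1,z0,z1,z0,z0,z1],z2)],
    []]],
    [.old (.leafM k0 [k0,k3,k4,k5] [] [(k1,k2,z1,[y1,z1]),(k2,k1,z1,[y1,z1])]),
    .old (.leafM k3 [k0,k1,k2,k3,k4,k5] [(z1,[y1,z1])] []),
    .old (.lp [k2,k2,k2,k4,k2,k2] [k1,k1,k1,k1,k1,k1,k0,k0,k1,k1,k1,k1] k0 [] k8 k5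
    [[(k9,k2),(k10,k2)],[(k4,k2),(k7,k3)],[(k4,k2),(k7,k3)],[(k5,k2),(k8,k2)],[(k2,k2),(k11,k2)],[(k0,k2),(k3,k2)],
    [(k0,k3),(k3,k3)],[(k9,k3),(k10,k3)],[(k1,k2),(k6,k3)],[(k2,k2),(k11,k2)],[(k5,k2),(k8,k2)],[(k1,k2),(k6,k3)]]
    [] k0
    [[k1,k0,k1,k0,k0,k1],[k0,k1,k1,k0,k0,k0]]
    [.ref k1 k0 [(z1,[z1])],.ref k0 k0 [(z1,[y1,z1])]])]⟩

/-- classes `0 1 0 2 1 2`, types `B0 C0 B1 N0 C0 N1` -/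
noncomputable def cU6_2047 : CertX :=
  ⟨[k8,k20,k9,k44,k20,k45],[(false,k0,[k0,k1,k2,k3,k4,k5])],[[[([z1,z1,z1,z1,z0,z0],z2)],[([z1,z0,z0,z1,z0,z0],z2)],
    [([z1,z0,z0,z1,z0,z0],z1),([z0,z1,z1,z0,z0,z0],z2)],[([z1,z0,z0,z1,z1,z1],z2)],[]]],
    [.old (.leafM k2 [k1,k2,k3,k0] [] [(k4,k5,z1,[y1,z1]),(k5,k4,z1,[y1,z1])]),
    .old (.leafM k5 [k1,k2,k4,k5] [] [(k3,k0,z1,[z1]),(k0,k3,z1,[z1])]),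
    .old (.leafM k4 [k3,k4,k5,k0] [(z1,[y1,y1,z1])] [(k1,k2,z1,[z0,z1]),(k2,k1,z1,[z0,z1])]),
    .old (.lp [k0,k0,k20,k8,k2,k8] [k10,k10,k10,k10,k0,k0,k6,k6,k9,k9,k6,k6] k0 [] k20 k6
    [[(k6,k4)],[(k7,k4),(k4,k10)],[(k7,k4),(k4,k10)],[(k11,k4),(k5,k10)],[(k2,k10),(k8,k11)],[(k0,k10),(k3,k10)],[(k0,
    k4),(k3,k4)],[(k1,k4)],[(k10,k5)],[(k11,k5),(k5,k11)],[(k2,k4),(k8,k5)],[(k9,k5)]]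
    [] k0
    [[k1,k0,k0,k1,k0,k0],[k2,k0,k0,k2,k0,k0],[k0,k0,k0,k0,k1,k1]]
    [.contra [y1,z1],.ref k2 k0 [(z2,[z1]),(z1,[z0,y1,z1])],.contra [y1,z1]]),
    .old (.lp [k0,k0,k2,k2,k0,k2] [k1,k1,k1,k1,k0,k0,k0,k0,k1,k1,k0,k0] k0 [] k4 k5
    [[(k6,k1)],[(k4,k1),(k7,k1)],[(k4,k1),(k7,k1)],[(k5,k1),(k11,k1)],[(k2,k1),(k8,k1)],[(k0,k1),(k3,k1)],[(k0,k1),
    (k3,k1)],[(k1,k1)],[(k10,k1)],[(k5,k1),(k11,k1)],[(k2,k1),(k8,k1)],[(k9,k1)]]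
    [] k0
    [[k1,k0,k0,k1,k0,k0],[k0,k1,k1,k0,k0,k0],[k0,k0,k0,k0,k1,k1]]
    [.ref k1 k0 [(z1,[z1])],.ref k3 k0 [(z1,[y1,z1])],.ref k0 k0 [(z1,[y1,z1])]])]⟩

/-- classes `0 1 0 2 1 2`, types `B0 C0 B1 N0 C0 N2` -/
noncomputable def cU6_2048 : CertX :=
  ⟨[k8,k20,k9,k44,k20,k46],[(false,k0,[k0,k1,k2,k3,k4,k5])],[[[([z1,z0,z1,z0,z1,z0],z2)],[([z1,z0,z0,z1,z1,z1],z2)],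
    []]],
    [.old (.leafM k5 [k0,k1,k2,k3,k4,k5] [(z1,[y1,z1]),(z1,[z1])] []),
    .old (.leafM k2 [k0,k3,k4,k5] [] [(k1,k2,z1,[y1,z1]),(k2,k1,z1,[y1,z1])]),
    .old (.lp [k2,k2,k4,k2,k2,k2] [k1,k1,k1,k1,k0,k0,k1,k1,k1,k1,k1,k1] k0 [] k8 k5
    [[(k9,k2)],[(k7,k2),(k4,k3)],[(k7,k2),(k4,k3)],[(k11,k2),(k5,k3)],[(k2,k3),(k8,k3)],[(k0,k3),(k3,k3)],[(k0,k2),
    (k3,k2)],[(k10,k2)],[(k1,k2)],[(k11,k2),(k5,k3)],[(k2,k2),(k8,k2)],[(k6,k2)]]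
    [] k0
    [[k0,k1,k1,k0,k0,k0],[k0,k1,k0,k1,k0,k1]]
    [.ref k1 k0 [(z1,[y1,z1])],.ref k0 k0 [(z1,[y1,z1])]])]⟩

/-- classes `0 1 0 2 1 2`, types `B0 C0 B1 N0 C2 N1` -/
noncomputable def cU6_2049 : CertX :=
  ⟨[k8,k20,k9,k44,k22,k45],[(false,k0,[k0,k1,k2,k3,k4,k5])],[[[([z1,z1,z1,z1,z0,z0],z2)],[([z1,z0,z0,z1,z0,z0],z2)],
    [([z1,z0,z0,z1,z0,z0],z1),([z0,z1,z1,z0,z0,z0],z2)],[([z1,z0,z0,z1,z1,z1],z2)],[]]],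
    [.old (.leafM k2 [k1,k2,k3,k0] [] [(k4,k5,z1,[y1,z1]),(k5,k4,z1,[y1,z1])]),
    .old (.leafM k6 [k2,k4,k5,k1] [] [(k3,k0,z1,[z1]),(k0,k3,z1,[z1])]),
    .old (.leafM k4 [k3,k4,k5,k0] [(z1,[y1,y1,z1])] [(k1,k2,z1,[z0,z1]),(k2,k1,z1,[z0,z1])]),
    .old (.lp [k0,k0,k20,k8,k10,k0] [k10,k10,k10,k10,k0,k0,k6,k6,k5,k5,k10,k10] k0 [] k20 k6
    [[(k6,k4)],[(k7,k4),(k4,k10)],[(k7,k4),(k4,k10)],[(k8,k5),(k5,k10)],[(k2,k10),(k11,k10)],[(k0,k10),(k3,k10)],[(k0,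
    k4),(k3,k4)],[(k1,k4)],[(k10,k5)],[(k2,k5),(k11,k5)],[(k8,k5),(k5,k10)],[(k9,k5)]]
    [] k0
    [[k1,k0,k0,k1,k0,k0],[k2,k0,k0,k2,k0,k0],[k0,k0,k0,k0,k1,k1]]
    [.contra [y1,z1],.ref k2 k0 [(z2,[z1]),(z1,[z0,y1,z1])],.contra [y1,z1]]),
    .old (.lp [k0,k0,k2,k2,k2,k0] [k1,k1,k1,k1,k0,k0,k0,k0,k0,k0,k1,k1] k0 [] k4 k5
    [[(k6,k1)],[(k4,k1),(k7,k1)],[(k4,k1),(k7,k1)],[(k5,k1),(k8,k1)],[(k2,k1),(k11,k1)],[(k0,k1),(k3,k1)],[(k0,k1),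
    (k3,k1)],[(k1,k1)],[(k10,k1)],[(k2,k1),(k11,k1)],[(k5,k1),(k8,k1)],[(k9,k1)]]
    [] k0
    [[k1,k0,k0,k1,k0,k0],[k0,k1,k1,k0,k0,k0],[k0,k0,k0,k0,k1,k1]]
    [.ref k1 k0 [(z1,[z1])],.ref k3 k0 [(z1,[y1,z1])],.ref k0 k0 [(z1,[y1,z1])]])]⟩

/-- classes `0 1 0 2 1 2`, types `B0 C0 B1 N0 C2 N2` -/
noncomputable def cU6_2050 : CertX :=
  ⟨[k8,k20,k9,k44,k22,k46],[(false,k0,[k0,k1,k2,k3,k4,k5])],[[[([z1,z0,z0,z1,z1,z1],z2)],[]]],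
    [.old (.leafM k2 [k0,k3,k4,k5] [] [(k1,k2,z1,[y1,z1]),(k2,k1,z1,[y1,z1])]),
    .old (.lp [k0,k0,k2,k2,k2,k0] [k1,k1,k1,k1,k0,k0,k0,k0,k0,k0,k1,k1] k0 [] k4 k5
    [[(k9,k1)],[(k4,k1),(k7,k1)],[(k4,k1),(k7,k1)],[(k5,k1),(k8,k1)],[(k2,k1),(k11,k1)],[(k0,k1),(k3,k1)],[(k0,k1),
    (k3,k1)],[(k10,k1)],[(k1,k1)],[(k2,k1),(k11,k1)],[(k5,k1),(k8,k1)],[(k6,k1)]]
    [] k0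
    [[k0,k1,k1,k0,k0,k0]]
    [.ref k0 k0 [(z1,[y1,z1])]])]⟩

/-- classes `0 1 0 2 1 2`, types `B0 C0 B1 S0 C0 S0` -/
noncomputable def cU6_2051 : CertX :=
  ⟨[k8,k20,k9,k32,k20,k32],[(false,k0,[k0,k1,k2,k3,k4,k5])],[[[([z1,z1,z1,z1,z0,z0],z2)],[([z1,z0,z1,z0,z1,z0],z2)],
    [([z1,z0,z0,z1,z1,z1],z2)],[([z1,z0,z0,z1,z0,z0],z2)],[]]],
    [.old (.leafM k2 [k1,k2,k3,k0] [] [(k4,k5,z1,[y1,z1]),(k5,k4,z1,[y1,z1])]),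
    .old (.leafM k5 [k0,k1,k2,k3,k4,k5] [(z1,[y1,z1]),(z1,[z1])] []),
    .old (.leafM k0 [k0,k3,k4,k5] [] [(k1,k2,z1,[y1,z1]),(k2,k1,z1,[y1,z1])]),
    .old (.leafM k5 [k1,k2,k4,k5] [] [(k3,k0,z1,[z1]),(k0,k3,z1,[z1])]),
    .old (.lp [k4,k2,k2,k2,k2,k2] [k0,k0,k1,k1,k1,k1,k1,k1,k1,k1,k1,k1] k0 [] k8 k5
    [[(k6,k3),(k9,k3),(k10,k3),(k1,k4)],[(k4,k3),(k7,k3)],[(k4,k2),(k7,k2)],[(k5,k2),(k11,k2)],[(k2,k2),(k8,k2)],[(k3,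
    k2),(k0,k3)],[(k3,k2),(k0,k3)],[(k6,k2),(k9,k2),(k10,k2),(k1,k3)],[(k6,k2),(k9,k2),(k10,k2),(k1,k3)],[(k5,k2),
    (k11,k2)],[(k2,k2),(k8,k2)],[(k6,k2),(k9,k2),(k10,k2),(k1,k3)]]
    [] k0
    [[k1,k0,k0,k1,k0,k0],[k0,k1,k1,k0,k0,k0],[k0,k1,k0,k1,k0,k1],[k0,k0,k0,k0,k1,k1]]
    [.ref k3 k0 [(z1,[z1])],.ref k2 k0 [(z1,[y1,z1])],.ref k1 k0 [(z1,[y1,z1])],.ref k0 k0 [(z1,[y1,z1])]])]⟩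

/-- classes `0 1 0 2 1 2`, types `B0 C0 B1 S0 C2 S0` -/
noncomputable def cU6_2052 : CertX :=
  ⟨[k8,k20,k9,k32,k22,k32],[(false,k0,[k0,k1,k2,k3,k4,k5])],[[[([z1,z1,z1,z1,z0,z0],z2)],[([z1,z0,z1,z0,z0,z1],z2)],
    [([z1,z0,z0,z1,z1,z1],z2)],[([z1,z0,z0,z1,z0,z0],z2)],[]]],
    [.old (.leafM k2 [k1,k2,k3,k0] [] [(k4,k5,z1,[y1,z1]),(k5,k4,z1,[y1,z1])]),
    .old (.leafM k3 [k0,k1,k2,k3,k4,k5] [(z1,[y1,z1])] []),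
    .old (.leafM k0 [k0,k3,k4,k5] [] [(k1,k2,z1,[y1,z1]),(k2,k1,z1,[y1,z1])]),
    .old (.leafM k6 [k2,k4,k5,k1] [] [(k3,k0,z1,[z1]),(k0,k3,z1,[z1])]),
    .old (.lp [k4,k2,k2,k2,k2,k2] [k0,k0,k1,k1,k1,k1,k1,k1,k1,k1,k1,k1] k0 [] k8 k5
    [[(k6,k3),(k9,k3),(k10,k3),(k1,k4)],[(k4,k3),(k7,k3)],[(k4,k2),(k7,k2)],[(k5,k2),(k8,k2)],[(k2,k2),(k11,k2)],[(k3,
    k2),(k0,k3)],[(k3,k2),(k0,k3)],[(k6,k2),(k9,k2),(k10,k2),(k1,k3)],[(k6,k2),(k9,k2),(k10,k2),(k1,k3)],[(k2,k2),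
    (k11,k2)],[(k5,k2),(k8,k2)],[(k6,k2),(k9,k2),(k10,k2),(k1,k3)]]
    [] k0
    [[k1,k0,k0,k1,k0,k0],[k0,k1,k1,k0,k0,k0],[k0,k1,k0,k1,k1,k0],[k0,k0,k0,k0,k1,k1]]
    [.ref k3 k0 [(z1,[z1])],.ref k2 k0 [(z1,[y1,z1])],.ref k1 k0 [(z1,[y1,z1])],.ref k0 k0 [(z1,[y1,z1])]])]⟩

/-- classes `0 1 0 2 1 2`, types `B0 N0 B1 B0 N1 B1` -/
noncomputable def cU6_2053 : CertX :=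
  ⟨[k8,k28,k9,k40,k29,k41],[(false,k0,[k0,k1,k2,k3,k4,k5])],[[[([z1,z0,z1,z0,z1,z0],z2)],[([z1,z0,z0,z1,z0,z0],z2)],
    []]],
    [.old (.leafM k5 [k0,k1,k2,k3,k4,k5] [(z1,[y1,z1]),(z1,[z1])] []),
    .old (.leafM k5 [k1,k2,k4,k5] [] [(k3,k0,z1,[z1]),(k0,k3,z1,[z1])]),
    .old (.lp [k2,k2,k4,k2,k2,k2] [k1,k1,k1,k1,k0,k0,k1,k1,k1,k1,k1,k1] k0 [] k8 k5
    [[(k6,k2),(k9,k2)],[(k7,k2),(k4,k3)],[(k7,k2),(k4,k3)],[(k11,k2)],[(k8,k3)],[(k0,k3),(k3,k3)],[(k0,k2),(k3,k2)],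
    [(k1,k2),(k10,k2)],[(k1,k2),(k10,k2)],[(k5,k3)],[(k2,k2)],[(k6,k2),(k9,k2)]]
    [] k0
    [[k1,k0,k0,k1,k0,k0],[k0,k1,k0,k1,k0,k1]]
    [.ref k1 k0 [(z1,[z1])],.ref k0 k0 [(z1,[y1,z1])]])]⟩

/-- classes `0 1 0 2 1 2`, types `B0 N0 B1 B0 N2 B1` -/
noncomputable def cU6_2054 : CertX :=
  ⟨[k8,k28,k9,k40,k30,k41],[(false,k0,[k0,k1,k2,k3,k4,k5])],[[[([z1,z0,z0,z1,z0,z0],z2)],[]]],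
    [.old (.leafM k6 [k2,k4,k5,k1] [] [(k3,k0,z1,[z1]),(k0,k3,z1,[z1])]),
    .old (.lp [k2,k2,k0,k0,k0,k2] [k0,k0,k0,k0,k1,k1,k1,k1,k1,k1,k0,k0] k0 [] k4 k5
    [[(k6,k1),(k9,k1)],[(k4,k1),(k7,k1)],[(k4,k1),(k7,k1)],[(k8,k1)],[(k11,k1)],[(k0,k1),(k3,k1)],[(k0,k1),(k3,k1)],
    [(k1,k1),(k10,k1)],[(k1,k1),(k10,k1)],[(k2,k1)],[(k5,k1)],[(k6,k1),(k9,k1)]]
    [] k0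
    [[k1,k0,k0,k1,k0,k0]]
    [.ref k0 k0 [(z1,[z1])]])]⟩

/-- classes `0 1 0 2 1 2`, types `B0 N0 B1 C0 N1 C0` -/
noncomputable def cU6_2055 : CertX :=
  ⟨[k8,k28,k9,k36,k29,k36],[(false,k0,[k0,k1,k2,k3,k4,k5])],[[[([z1,z0,z0,z1,z0,z0],z2)],[]]],
    [.old (.leafM k5 [k1,k2,k4,k5] [] [(k3,k0,z1,[z1]),(k0,k3,z1,[z1])]),
    .old (.lp [k0,k0,k2,k2,k0,k2] [k1,k1,k1,k1,k0,k0,k0,k0,k1,k1,k0,k0] k0 [] k4 k5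
    [[(k6,k1),(k10,k1)],[(k4,k1),(k7,k1)],[(k4,k1),(k7,k1)],[(k11,k1)],[(k8,k1)],[(k0,k1),(k3,k1)],[(k0,k1),(k3,k1)],
    [(k1,k1),(k9,k1)],[(k6,k1),(k10,k1)],[(k5,k1)],[(k2,k1)],[(k1,k1),(k9,k1)]]
    [] k0
    [[k1,k0,k0,k1,k0,k0]]
    [.ref k0 k0 [(z1,[z1])]])]⟩

/-- classes `0 1 0 2 1 2`, types `B0 N0 B1 C0 N1 C2` -/
noncomputable def cU6_2056 : CertX :=
  ⟨[k8,k28,k9,k36,k29,k38],[(false,k0,[k0,k1,k2,k3,k4,k5])],[[[([z1,z0,z1,z0,z1,z0],z2)],[]]],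
    [.old (.leafM k5 [k0,k1,k2,k3,k4,k5] [(z1,[y1,z1]),(z1,[z1])] []),
    .old (.lp [k2,k2,k4,k2,k2,k2] [k1,k1,k1,k1,k0,k0,k1,k1,k1,k1,k1,k1] k0 [] k8 k5
    [[(k9,k2),(k10,k2)],[(k7,k2),(k4,k3)],[(k7,k2),(k4,k3)],[(k11,k2)],[(k8,k3)],[(k0,k3),(k3,k3)],[(k0,k2),(k3,k2)],
    [(k9,k2),(k10,k2)],[(k1,k2),(k6,k2)],[(k5,k3)],[(k2,k2)],[(k1,k2),(k6,k2)]]
    [] k0
    [[k0,k1,k0,k1,k0,k1]]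
    [.ref k0 k0 [(z1,[y1,z1])]])]⟩

/-- classes `0 1 0 2 1 2`, types `B0 N0 B1 C0 N2 C0` -/
noncomputable def cU6_2057 : CertX :=
  ⟨[k8,k28,k9,k36,k30,k36],[(false,k0,[k0,k1,k2,k3,k4,k5])],[[[([z1,z0,z1,z0,z0,z1],z2)],[([z1,z0,z0,z1,z0,z0],z2)],
    []]],
    [.old (.leafM k3 [k0,k1,k2,k3,k4,k5] [(z1,[y1,z1])] []),
    .old (.leafM k6 [k2,k4,k5,k1] [] [(k3,k0,z1,[z1]),(k0,k3,z1,[z1])]),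
    .old (.lp [k2,k2,k4,k2,k2,k2] [k1,k1,k1,k1,k0,k0,k1,k1,k1,k1,k1,k1] k0 [] k8 k5
    [[(k6,k2),(k10,k2)],[(k7,k2),(k4,k3)],[(k7,k2),(k4,k3)],[(k8,k2)],[(k11,k3)],[(k0,k3),(k3,k3)],[(k0,k2),(k3,k2)],
    [(k1,k2),(k9,k2)],[(k6,k2),(k10,k2)],[(k2,k2)],[(k5,k3)],[(k1,k2),(k9,k2)]]
    [] k0
    [[k1,k0,k0,k1,k0,k0],[k0,k1,k0,k1,k1,k0]]
    [.ref k1 k0 [(z1,[z1])],.ref k0 k0 [(z1,[y1,z1])]])]⟩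

/-- classes `0 1 0 2 1 2`, types `B0 N0 B1 C0 N2 C2` -/
noncomputable def cU6_2058 : CertX :=
  ⟨[k8,k28,k9,k36,k30,k38],[(false,k0,[k0,k1,k2,k3,k4,k5])],[[[([z1,z0,z1,z0,z0,z1],z2)],[]]],
    [.old (.leafM k3 [k0,k1,k2,k3,k4,k5] [(z1,[y1,z1])] []),
    .old (.lp [k2,k2,k2,k4,k2,k2] [k1,k1,k1,k1,k1,k1,k0,k0,k1,k1,k1,k1] k0 [] k8 k5
    [[(k9,k2),(k10,k2)],[(k4,k2),(k7,k3)],[(k4,k2),(k7,k3)],[(k8,k2)],[(k11,k2)],[(k0,k2),(k3,k2)],[(k0,k3),(k3,k3)],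
    [(k9,k3),(k10,k3)],[(k1,k2),(k6,k3)],[(k2,k2)],[(k5,k2)],[(k1,k2),(k6,k3)]]
    [] k0
    [[k1,k0,k1,k0,k0,k1]]
    [.ref k0 k0 [(z1,[z1])]])]⟩

/-- classes `0 1 0 2 1 2`, types `B0 N0 B1 N0 N1 N1` -/
noncomputable def cU6_2059 : CertX :=
  ⟨[k8,k28,k9,k44,k29,k45],[(false,k0,[k0,k1,k2,k3,k4,k5])],[[[([z1,z0,z0,z1,z0,z0],z2)],[]]],
    [.old (.leafM k5 [k1,k2,k4,k5] [] [(k3,k0,z1,[z1]),(k0,k3,z1,[z1])]),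
    .old (.lp [k0,k0,k2,k2,k0,k2] [k1,k1,k1,k1,k0,k0,k0,k0,k1,k1,k0,k0] k0 [] k4 k5
    [[(k6,k1)],[(k4,k1),(k7,k1)],[(k4,k1),(k7,k1)],[(k11,k1)],[(k8,k1)],[(k0,k1),(k3,k1)],[(k0,k1),(k3,k1)],[(k1,k1)],
    [(k10,k1)],[(k5,k1)],[(k2,k1)],[(k9,k1)]]
    [] k0
    [[k1,k0,k0,k1,k0,k0]]
    [.ref k0 k0 [(z1,[z1])]])]⟩

/-- classes `0 1 0 2 1 2`, types `B0 N0 B1 N0 N1 N2` -/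
noncomputable def cU6_2060 : CertX :=
  ⟨[k8,k28,k9,k44,k29,k46],[(false,k0,[k0,k1,k2,k3,k4,k5])],[[[([z1,z0,z1,z0,z1,z0],z2)],[]]],
    [.old (.leafM k5 [k0,k1,k2,k3,k4,k5] [(z1,[y1,z1]),(z1,[z1])] []),
    .old (.lp [k2,k2,k4,k2,k2,k2] [k1,k1,k1,k1,k0,k0,k1,k1,k1,k1,k1,k1] k0 [] k8 k5
    [[(k9,k2)],[(k7,k2),(k4,k3)],[(k7,k2),(k4,k3)],[(k11,k2)],[(k8,k3)],[(k0,k3),(k3,k3)],[(k0,k2),(k3,k2)],[(k10,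
    k2)],[(k1,k2)],[(k5,k3)],[(k2,k2)],[(k6,k2)]]
    [] k0
    [[k0,k1,k0,k1,k0,k1]]
    [.ref k0 k0 [(z1,[y1,z1])]])]⟩

/-- classes `0 1 0 2 1 2`, types `B0 N0 B1 N0 N2 N1` -/
noncomputable def cU6_2061 : CertX :=
  ⟨[k8,k28,k9,k44,k30,k45],[(false,k0,[k0,k1,k2,k3,k4,k5])],[[[([z1,z0,z0,z1,z0,z0],z2)],[]]],
    [.old (.leafM k6 [k2,k4,k5,k1] [] [(k3,k0,z1,[z1]),(k0,k3,z1,[z1])]),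
    .old (.lp [k0,k0,k2,k2,k2,k0] [k1,k1,k1,k1,k0,k0,k0,k0,k0,k0,k1,k1] k0 [] k4 k5
    [[(k6,k1)],[(k4,k1),(k7,k1)],[(k4,k1),(k7,k1)],[(k8,k1)],[(k11,k1)],[(k0,k1),(k3,k1)],[(k0,k1),(k3,k1)],[(k1,k1)],
    [(k10,k1)],[(k2,k1)],[(k5,k1)],[(k9,k1)]]
    [] k0
    [[k1,k0,k0,k1,k0,k0]]
    [.ref k0 k0 [(z1,[z1])]])]⟩

/-- classes `0 1 0 2 1 2`, types `B0 N0 B1 N0 N2 N2` -/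
noncomputable def cU6_2062 : CertX :=
  ⟨[k8,k28,k9,k44,k30,k46],[],[[[]]],
    [.old (.lp [k0,k0,k2,k2,k2,k0] [k1,k1,k1,k1,k0,k0,k0,k0,k0,k0,k1,k1] k0 [] k4 k5
    [[(k9,k1)],[(k4,k1),(k7,k1)],[(k4,k1),(k7,k1)],[(k8,k1)],[(k11,k1)],[(k0,k1),(k3,k1)],[(k0,k1),(k3,k1)],[(k10,
    k1)],[(k1,k1)],[(k2,k1)],[(k5,k1)],[(k6,k1)]]
    [] k0
    []
    [])]⟩

/-- classes `0 1 0 2 1 2`, types `B0 N0 B1 S0 N1 S0` -/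
noncomputable def cU6_2063 : CertX :=
  ⟨[k8,k28,k9,k32,k29,k32],[(false,k0,[k0,k1,k2,k3,k4,k5])],[[[([z1,z0,z1,z0,z1,z0],z2)],[([z1,z0,z0,z1,z0,z0],z2)],
    []]],
    [.old (.leafM k5 [k0,k1,k2,k3,k4,k5] [(z1,[y1,z1]),(z1,[z1])] []),
    .old (.leafM k5 [k1,k2,k4,k5] [] [(k3,k0,z1,[z1]),(k0,k3,z1,[z1])]),
    .old (.lp [k4,k2,k2,k2,k2,k2] [k0,k0,k1,k1,k1,k1,k1,k1,k1,k1,k1,k1] k0 [] k8 k5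
    [[(k6,k3),(k9,k3),(k10,k3),(k1,k4)],[(k4,k3),(k7,k3)],[(k4,k2),(k7,k2)],[(k11,k2)],[(k8,k2)],[(k3,k2),(k0,k3)],
    [(k3,k2),(k0,k3)],[(k6,k2),(k9,k2),(k10,k2),(k1,k3)],[(k6,k2),(k9,k2),(k10,k2),(k1,k3)],[(k5,k2)],[(k2,k2)],[(k6,
    k2),(k9,k2),(k10,k2),(k1,k3)]]
    [] k0
    [[k1,k0,k0,k1,k0,k0],[k0,k1,k0,k1,k0,k1]]
    [.ref k1 k0 [(z1,[z1])],.ref k0 k0 [(z1,[y1,z1])]])]⟩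

/-- classes `0 1 0 2 1 2`, types `B0 N0 B1 S0 N2 S0` -/
noncomputable def cU6_2064 : CertX :=
  ⟨[k8,k28,k9,k32,k30,k32],[(false,k0,[k0,k1,k2,k3,k4,k5])],[[[([z1,z0,z1,z0,z0,z1],z2)],[([z1,z0,z0,z1,z0,z0],z2)],
    []]],
    [.old (.leafM k3 [k0,k1,k2,k3,k4,k5] [(z1,[y1,z1])] []),
    .old (.leafM k6 [k2,k4,k5,k1] [] [(k3,k0,z1,[z1]),(k0,k3,z1,[z1])]),
    .old (.lp [k4,k2,k2,k2,k2,k2] [k0,k0,k1,k1,k1,k1,k1,k1,k1,k1,k1,k1] k0 [] k8 k5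
    [[(k6,k3),(k9,k3),(k10,k3),(k1,k4)],[(k4,k3),(k7,k3)],[(k4,k2),(k7,k2)],[(k8,k2)],[(k11,k2)],[(k3,k2),(k0,k3)],
    [(k3,k2),(k0,k3)],[(k6,k2),(k9,k2),(k10,k2),(k1,k3)],[(k6,k2),(k9,k2),(k10,k2),(k1,k3)],[(k2,k2)],[(k5,k2)],[(k6,
    k2),(k9,k2),(k10,k2),(k1,k3)]]
    [] k0
    [[k1,k0,k0,k1,k0,k0],[k0,k1,k0,k1,k1,k0]]
    [.ref k1 k0 [(z1,[z1])],.ref k0 k0 [(z1,[y1,z1])]])]⟩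

/-- classes `0 1 0 2 1 2`, types `B0 S0 B1 B0 S0 B1` -/
noncomputable def cU6_2065 : CertX :=
  ⟨[k8,k16,k9,k40,k16,k41],[(false,k0,[k0,k1,k2,k3,k4,k5]),(false,k3,[k3,k4,k5,k0,k1,k2])],[[[([z1,z0,z0,z1,z1,z1],
    z2)],[([z1,z0,z1,z0,z1,z0],z2)],[([z1,z0,z0,z1,z0,z0],z2)],[]]],
    [.old (.leafM k2 [k0,k3,k4,k5] [] [(k1,k2,z1,[y1,z1]),(k2,k1,z1,[y1,z1])]),
    .old (.leafM k5 [k0,k1,k2,k3,k4,k5] [(z1,[y1,z1]),(z1,[z1])] []),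
    .old (.leafM k5 [k1,k2,k4,k5] [] [(k3,k0,z1,[z1]),(k0,k3,z1,[z1])]),
    .old (.lp [k4,k2,k2,k2,k2,k2] [k0,k0,k1,k1,k1,k1,k1,k1,k1,k1,k1,k1] k0 [] k8 k5
    [[(k6,k3),(k9,k3)],[(k4,k3),(k7,k3)],[(k4,k2),(k7,k2)],[(k2,k2),(k5,k2),(k8,k2),(k11,k2)],[(k2,k2),(k5,k2),(k8,
    k2),(k11,k2)],[(k3,k2),(k0,k3)],[(k3,k2),(k0,k3)],[(k10,k2),(k1,k3)],[(k10,k2),(k1,k3)],[(k2,k2),(k5,k2),(k8,k2),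
    (k11,k2)],[(k2,k2),(k5,k2),(k8,k2),(k11,k2)],[(k6,k2),(k9,k2)]]
    [] k0
    [[k1,k0,k0,k1,k0,k0],[k0,k1,k1,k0,k0,k0],[k0,k1,k0,k1,k0,k1],[k0,k0,k0,k0,k1,k1]]
    [.ref k2 k0 [(z1,[z1])],.ref k0 k0 [(z1,[y1,z1])],.ref k1 k0 [(z1,[y1,z1])],.ref k0 k1 [(z1,[y1,z1])]])]⟩

/-- classes `0 1 0 2 1 2`, types `B0 S0 B1 C0 S0 C0` -/
noncomputable def cU6_2066 : CertX :=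
  ⟨[k8,k16,k9,k36,k16,k36],[(false,k0,[k0,k1,k2,k3,k4,k5])],[[[([z1,z1,z1,z1,z0,z0],z2)],[([z1,z0,z0,z1,z1,z1],z2)],
    [([z1,z0,z0,z1,z0,z0],z2)],[([z1,z0,z1,z0,z0,z1],z2)],[]]],
    [.old (.leafM k2 [k1,k2,k3,k0] [] [(k4,k5,z1,[y1,z1]),(k5,k4,z1,[y1,z1])]),
    .old (.leafM k0 [k0,k3,k4,k5] [] [(k1,k2,z1,[y1,z1]),(k2,k1,z1,[y1,z1])]),
    .old (.leafM k5 [k1,k2,k4,k5] [] [(k3,k0,z1,[z1]),(k0,k3,z1,[z1])]),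
    .old (.leafM k3 [k0,k1,k2,k3,k4,k5] [(z1,[y1,z1])] []),
    .old (.lp [k2,k2,k2,k2,k4,k2] [k1,k1,k1,k1,k1,k1,k1,k1,k0,k0,k1,k1] k0 [] k8 k5
    [[(k6,k2),(k10,k2)],[(k4,k2),(k7,k2)],[(k4,k2),(k7,k2)],[(k2,k2),(k5,k2),(k11,k2),(k8,k3)],[(k2,k2),(k5,k2),(k11,
    k2),(k8,k3)],[(k0,k2),(k3,k2)],[(k0,k2),(k3,k2)],[(k1,k2),(k9,k3)],[(k6,k3),(k10,k3)],[(k2,k3),(k5,k3),(k11,k3),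
    (k8,k4)],[(k2,k2),(k5,k2),(k11,k2),(k8,k3)],[(k1,k2),(k9,k3)]]
    [] k0
    [[k1,k0,k0,k1,k0,k0],[k1,k0,k1,k0,k0,k1],[k0,k1,k1,k0,k0,k0],[k0,k0,k0,k0,k1,k1]]
    [.ref k2 k0 [(z1,[z1])],.ref k3 k0 [(z1,[z1])],.ref k1 k0 [(z1,[y1,z1])],.ref k0 k0 [(z1,[y1,z1])]])]⟩

/-- classes `0 1 0 2 1 2`, types `B0 S0 B1 C0 S0 C2` -/
noncomputable def cU6_2067 : CertX :=
  ⟨[k8,k16,k9,k36,k16,k38],[(false,k0,[k0,k1,k2,k3,k4,k5])],[[[([z1,z0,z1,z0,z1,z0],z2)],[([z1,z0,z1,z0,z0,z1],z2)],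
    [([z1,z0,z0,z1,z1,z1],z2)],[]]],
    [.old (.leafM k5 [k0,k1,k2,k3,k4,k5] [(z1,[y1,z1]),(z1,[z1])] []),
    .old (.leafM k3 [k0,k1,k2,k3,k4,k5] [(z1,[y1,z1])] []),
    .old (.leafM k0 [k0,k3,k4,k5] [] [(k1,k2,z1,[y1,z1]),(k2,k1,z1,[y1,z1])]),
    .old (.lp [k4,k2,k2,k2,k2,k2] [k0,k0,k1,k1,k1,k1,k1,k1,k1,k1,k1,k1] k0 [] k8 k5
    [[(k9,k3),(k10,k3)],[(k4,k3),(k7,k3)],[(k4,k2),(k7,k2)],[(k2,k2),(k5,k2),(k8,k2),(k11,k2)],[(k2,k2),(k5,k2),(k8,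
    k2),(k11,k2)],[(k3,k2),(k0,k3)],[(k3,k2),(k0,k3)],[(k9,k2),(k10,k2)],[(k6,k2),(k1,k3)],[(k2,k2),(k5,k2),(k8,k2),
    (k11,k2)],[(k2,k2),(k5,k2),(k8,k2),(k11,k2)],[(k6,k2),(k1,k3)]]
    [] k0
    [[k0,k1,k1,k0,k0,k0],[k0,k1,k0,k1,k1,k0],[k0,k1,k0,k1,k0,k1]]
    [.ref k2 k0 [(z1,[y1,z1])],.ref k1 k0 [(z1,[y1,z1])],.ref k0 k0 [(z1,[y1,z1])]])]⟩

/-- classes `0 1 0 2 1 2`, types `B0 S0 B1 N0 S0 N1` -/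
noncomputable def cU6_2068 : CertX :=
  ⟨[k8,k16,k9,k44,k16,k45],[(false,k0,[k0,k1,k2,k3,k4,k5])],[[[([z1,z1,z1,z1,z0,z0],z2)],[([z1,z0,z0,z1,z0,z0],z2)],
    [([z1,z0,z0,z1,z0,z0],z1),([z0,z1,z1,z0,z0,z0],z2)],[([z1,z0,z0,z1,z1,z1],z2)],[]]],
    [.old (.leafM k2 [k1,k2,k3,k0] [] [(k4,k5,z1,[y1,z1]),(k5,k4,z1,[y1,z1])]),
    .old (.leafM k5 [k1,k2,k4,k5] [] [(k3,k0,z1,[z1]),(k0,k3,z1,[z1])]),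
    .old (.leafM k4 [k3,k4,k5,k0] [(z1,[y1,y1,z1])] [(k1,k2,z1,[z0,z1]),(k2,k1,z1,[z0,z1])]),
    .old (.lp [k10,k16,k4,k0,k4,k4] [k3,k3,k0,k0,k6,k6,k8,k8,k6,k6,k6,k6] k0 [] k20 k6
    [[(k6,k5)],[(k7,k5),(k4,k7)],[(k7,k8),(k4,k10)],[(k5,k10),(k8,k10),(k11,k10),(k2,k16)],[(k5,k4),(k8,k4),(k11,k4),
    (k2,k10)],[(k0,k7),(k3,k10)],[(k0,k5),(k3,k8)],[(k1,k5)],[(k10,k4)],[(k5,k4),(k8,k4),(k11,k4),(k2,k10)],[(k5,k4),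
    (k8,k4),(k11,k4),(k2,k10)],[(k9,k4)]]
    [] k0
    [[k1,k0,k0,k1,k0,k0],[k0,k0,k0,k0,k1,k1],[k0,k0,k0,k0,k2,k2]]
    [.contra [y1,z1],.contra [y1,z1],.ref k2 k0 [(z2,[y1,z2]),(z1,[z0,y1,z1])]]),
    .old (.lp [k2,k2,k2,k2,k2,k2] [k0,k0,k0,k0,k0,k0,k0,k0,k0,k0,k0,k0] k0 [] k8 k5
    [[(k6,k2)],[(k4,k2),(k7,k2)],[(k4,k2),(k7,k2)],[(k2,k2),(k5,k2),(k8,k2),(k11,k2)],[(k2,k2),(k5,k2),(k8,k2),(k11,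
    k2)],[(k0,k2),(k3,k2)],[(k0,k2),(k3,k2)],[(k1,k2)],[(k10,k2)],[(k2,k2),(k5,k2),(k8,k2),(k11,k2)],[(k2,k2),(k5,k2),
    (k8,k2),(k11,k2)],[(k9,k2)]]
    [] k0
    [[k1,k0,k0,k1,k0,k0],[k0,k1,k1,k0,k0,k0],[k0,k0,k0,k0,k1,k1]]
    [.ref k1 k0 [(z1,[z1])],.ref k3 k0 [(z1,[y1,z1])],.ref k0 k0 [(z1,[y1,z1])]])]⟩

/-- classes `0 1 0 2 1 2`, types `B0 S0 B1 N0 S0 N2` -/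
noncomputable def cU6_2069 : CertX :=
  ⟨[k8,k16,k9,k44,k16,k46],[(false,k0,[k0,k1,k2,k3,k4,k5])],[[[([z1,z0,z0,z1,z1,z1],z2)],[([z1,z0,z1,z0,z1,z0],z2)],
    []]],
    [.old (.leafM k2 [k0,k3,k4,k5] [] [(k1,k2,z1,[y1,z1]),(k2,k1,z1,[y1,z1])]),
    .old (.leafM k5 [k0,k1,k2,k3,k4,k5] [(z1,[y1,z1]),(z1,[z1])] []),
    .old (.lp [k2,k2,k2,k2,k2,k4] [k1,k1,k1,k1,k1,k1,k1,k1,k1,k1,k0,k0] k0 [] k8 k5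
    [[(k9,k2)],[(k4,k2),(k7,k2)],[(k4,k2),(k7,k2)],[(k2,k2),(k5,k2),(k8,k2),(k11,k3)],[(k2,k2),(k5,k2),(k8,k2),(k11,
    k3)],[(k0,k2),(k3,k2)],[(k0,k2),(k3,k2)],[(k10,k3)],[(k1,k2)],[(k2,k2),(k5,k2),(k8,k2),(k11,k3)],[(k2,k3),(k5,k3),
    (k8,k3),(k11,k4)],[(k6,k3)]]
    [] k0
    [[k1,k0,k1,k0,k1,k0],[k0,k1,k1,k0,k0,k0]]
    [.ref k1 k0 [(z1,[z1])],.ref k0 k0 [(z1,[y1,z1])]])]⟩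

/-- classes `0 1 0 2 1 2`, types `B0 S0 B1 S0 S0 S0` -/
noncomputable def cU6_2070 : CertX :=
  ⟨[k8,k16,k9,k32,k16,k32],[(false,k0,[k0,k1,k2,k3,k4,k5])],[[[([z1,z1,z1,z1,z0,z0],z2)],[([z1,z0,z0,z1,z1,z1],z2)],
    [([z1,z0,z0,z1,z0,z0],z2)],[([z1,z0,z1,z0,z0,z1],z2)],[([z1,z0,z1,z0,z1,z0],z2)],[]]],
    [.old (.leafM k2 [k1,k2,k3,k0] [] [(k4,k5,z1,[y1,z1]),(k5,k4,z1,[y1,z1])]),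
    .old (.leafM k0 [k0,k3,k4,k5] [] [(k1,k2,z1,[y1,z1]),(k2,k1,z1,[y1,z1])]),
    .old (.leafM k5 [k1,k2,k4,k5] [] [(k3,k0,z1,[z1]),(k0,k3,z1,[z1])]),
    .old (.leafM k3 [k0,k1,k2,k3,k4,k5] [(z1,[y1,z1])] []),
    .old (.leafM k5 [k0,k1,k2,k3,k4,k5] [(z1,[y1,z1]),(z1,[z1])] []),
    .old (.lp [k6,k8,k6,k6,k12,k6] [k3,k3,k2,k2,k3,k3,k3,k3,k0,k0,k3,k3] k0 [[],[],[],[k0,k0,k0,k0,k0,k0,k0,k0,k0,k3],[],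
    [],[],[k0,k0,k0,k0,k0,k0,k0,k0,k0,k0,k2],[k0,k0,k3],[],[],[k0,k0,k0,k0,k0,k0,k2]] k24 k5
    [[(k1,k6),(k6,k6),(k10,k6),(k9,k7)],[(k4,k6),(k7,k6)],[(k4,k7),(k7,k7)],[(k5,k7),(k2,k8),(k8,k10),(k11,k10)],[(k5,
    k6),(k8,k6),(k11,k6),(k2,k7)],[(k0,k6),(k3,k7)],[(k0,k6),(k3,k7)],[(k1,k6),(k6,k6),(k10,k8),(k9,k9)],[(k1,k7),(k6,
    k9),(k10,k9),(k9,k12)],[(k5,k6),(k11,k9),(k2,k10),(k8,k12)],[(k5,k6),(k11,k6),(k8,k9),(k2,k10)],[(k1,k6),(k10,k6),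
    (k6,k8),(k9,k9)]]
    [] k0
    [[k1,k0,k0,k1,k0,k0],[k1,k0,k1,k0,k1,k0],[k1,k0,k1,k0,k0,k1],[k0,k1,k1,k0,k0,k0],[k0,k0,k0,k0,k1,k1],[k0,k0,k0,k0,
    k0,k2]]
    [.ref k2 k0 [(z1,[z1])],.ref k4 k0 [(z1,[z1])],.ref k3 k0 [(z1,[z1])],.ref k1 k0 [(z1,[y1,z1])],.ref k0 k0 [(z1,
    [y1,z1])],.contra [z1]])]⟩

/-- classes `0 1 0 2 1 2`, types `C0 B0 C0 C0 B1 C0` -/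
noncomputable def cU6_2071 : CertX :=
  ⟨[k4,k24,k4,k36,k25,k36],[(false,k0,[k0,k1,k2,k3,k4,k5])],[[[([z1,z0,z0,z1,z0,z0],z2)],[([z1,z1,z0,z0,z0,z1],z2)],
    []]],
    [.old (.leafM k5 [k1,k2,k4,k5] [] [(k3,k0,z1,[z1]),(k0,k3,z1,[z1])]),
    .old (.leafM k0 [k1,k2,k3,k4,k5,k0] [(z1,[y1,z1])] []),
    .old (.lp [k2,k2,k2,k4,k2,k2] [k1,k1,k1,k1,k1,k1,k0,k0,k1,k1,k1,k1] k0 [] k8 k5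
    [[(k10,k2),(k6,k3)],[(k3,k2),(k7,k3)],[(k0,k2),(k4,k2)],[(k8,k2),(k11,k2)],[(k8,k2),(k11,k2)],[(k3,k2),(k7,k3)],
    [(k0,k3),(k4,k3)],[(k1,k3),(k9,k3)],[(k10,k2),(k6,k3)],[(k2,k2),(k5,k2)],[(k2,k2),(k5,k2)],[(k1,k2),(k9,k2)]]
    [] k0
    [[k1,k0,k0,k1,k0,k0],[k1,k1,k0,k0,k0,k1]]
    [.ref k0 k0 [(z1,[z1])],.ref k1 k0 [(z1,[z1])]])]⟩

/-- classes `0 1 0 2 1 2`, types `C0 B0 C0 C0 B1 C2` -/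
noncomputable def cU6_2072 : CertX :=
  ⟨[k4,k24,k4,k36,k25,k38],[(false,k0,[k0,k1,k2,k3,k4,k5])],[[[([z1,z1,z0,z0,z0,z1],z2)],[([z1,z1,z0,z0,z1,z0],z2)],
    []]],
    [.old (.leafM k0 [k1,k2,k3,k4,k5,k0] [(z1,[y1,z1])] []),
    .old (.leafM k3 [k3,k4,k5,k0,k1,k2] [(z1,[z1])] []),
    .old (.lp [k2,k2,k2,k4,k2,k2] [k1,k1,k1,k1,k1,k1,k0,k0,k1,k1,k1,k1] k0 [] k8 k5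
    [[(k9,k2),(k10,k2)],[(k3,k2),(k7,k3)],[(k0,k2),(k4,k2)],[(k8,k2),(k11,k2)],[(k8,k2),(k11,k2)],[(k3,k2),(k7,k3)],
    [(k0,k3),(k4,k3)],[(k9,k3),(k10,k3)],[(k1,k2),(k6,k3)],[(k2,k2),(k5,k2)],[(k2,k2),(k5,k2)],[(k1,k2),(k6,k3)]]
    [] k0
    [[k1,k1,k0,k0,k1,k0],[k1,k1,k0,k0,k0,k1]]
    [.ref k1 k0 [(z1,[z1])],.ref k0 k0 [(z1,[z1])]])]⟩

/-- classes `0 1 0 2 1 2`, types `C0 B0 C0 N0 B1 N1` -/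
noncomputable def cU6_2073 : CertX :=
  ⟨[k4,k24,k4,k44,k25,k45],[(false,k0,[k0,k1,k2,k3,k4,k5])],[[[([z1,z0,z0,z1,z0,z0],z2)],[]]],
    [.old (.leafM k5 [k1,k2,k4,k5] [] [(k3,k0,z1,[z1]),(k0,k3,z1,[z1])]),
    .old (.lp [k2,k2,k2,k2,k2,k2] [k0,k0,k0,k0,k0,k0,k0,k0,k0,k0,k0,k0] k0 [] k8 k5
    [[(k6,k2)],[(k3,k2),(k7,k2)],[(k0,k2),(k4,k2)],[(k8,k2),(k11,k2)],[(k8,k2),(k11,k2)],[(k3,k2),(k7,k2)],[(k0,k2),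
    (k4,k2)],[(k1,k2)],[(k10,k2)],[(k2,k2),(k5,k2)],[(k2,k2),(k5,k2)],[(k9,k2)]]
    [] k0
    [[k1,k0,k0,k1,k0,k0]]
    [.ref k0 k0 [(z1,[z1])]])]⟩

/-- classes `0 1 0 2 1 2`, types `C0 B0 C0 N0 B1 N2` -/
noncomputable def cU6_2074 : CertX :=
  ⟨[k4,k24,k4,k44,k25,k46],[(false,k0,[k0,k1,k2,k3,k4,k5])],[[[([z1,z1,z0,z0,z1,z0],z2)],[]]],
    [.old (.leafM k3 [k3,k4,k5,k0,k1,k2] [(z1,[z1])] []),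
    .old (.lp [k2,k2,k2,k4,k2,k2] [k1,k1,k1,k1,k1,k1,k0,k0,k1,k1,k1,k1] k0 [] k8 k5
    [[(k9,k2)],[(k3,k2),(k7,k3)],[(k0,k2),(k4,k2)],[(k8,k2),(k11,k2)],[(k8,k2),(k11,k2)],[(k3,k2),(k7,k3)],[(k0,k3),
    (k4,k3)],[(k10,k3)],[(k1,k2)],[(k2,k2),(k5,k2)],[(k2,k2),(k5,k2)],[(k6,k3)]]
    [] k0
    [[k1,k1,k0,k0,k1,k0]]
    [.ref k0 k0 [(z1,[z1])]])]⟩

/-- classes `0 1 0 2 1 2`, types `C0 B0 C0 S0 B1 S0` -/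
noncomputable def cU6_2075 : CertX :=
  ⟨[k4,k24,k4,k32,k25,k32],[(false,k0,[k0,k1,k2,k3,k4,k5])],[[[([z1,z1,z0,z0,z1,z0],z2)],[([z1,z0,z0,z1,z0,z0],z2)],
    [([z1,z1,z0,z0,z0,z1],z2)],[]]],
    [.old (.leafM k3 [k3,k4,k5,k0,k1,k2] [(z1,[z1])] []),
    .old (.leafM k5 [k1,k2,k4,k5] [] [(k3,k0,z1,[z1]),(k0,k3,z1,[z1])]),
    .old (.leafM k0 [k1,k2,k3,k4,k5,k0] [(z1,[y1,z1])] []),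
    .old (.lp [k2,k2,k2,k2,k4,k2] [k1,k1,k1,k1,k1,k1,k1,k1,k0,k0,k1,k1] k0 [] k8 k5
    [[(k1,k2),(k6,k2),(k10,k2),(k9,k3)],[(k3,k2),(k7,k2)],[(k0,k2),(k4,k2)],[(k11,k2),(k8,k3)],[(k11,k2),(k8,k3)],
    [(k3,k2),(k7,k2)],[(k0,k2),(k4,k2)],[(k1,k2),(k6,k2),(k10,k2),(k9,k3)],[(k1,k3),(k6,k3),(k10,k3),(k9,k4)],[(k2,
    k3),(k5,k3)],[(k2,k2),(k5,k2)],[(k1,k2),(k6,k2),(k10,k2),(k9,k3)]]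
    [] k0
    [[k1,k0,k0,k1,k0,k0],[k1,k1,k0,k0,k0,k1],[k0,k0,k1,k1,k0,k1]]
    [.ref k1 k0 [(z1,[z1])],.ref k2 k0 [(z1,[z1])],.ref k0 k0 [(z1,[y1,z1])]])]⟩

/-- classes `0 1 0 2 1 2`, types `C0 B0 C2 C0 B1 C2` -/
noncomputable def cU6_2076 : CertX :=
  ⟨[k4,k24,k6,k36,k25,k38],[(false,k3,[k3,k4,k5,k0,k1,k2]),(false,k0,[k0,k1,k2,k3,k4,k5])],[[[([z1,z0,z1,z0,z1,z0],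
    z2)],[([z1,z0,z1,z0,z0,z1],z2)],[([z1,z1,z0,z0,z0,z1],z2)],[]]],
    [.old (.leafM k5 [k0,k1,k2,k3,k4,k5] [(z1,[y1,z1]),(z1,[z1])] []),
    .old (.leafM k3 [k0,k1,k2,k3,k4,k5] [(z1,[y1,z1])] []),
    .old (.leafM k0 [k1,k2,k3,k4,k5,k0] [(z1,[y1,z1])] []),
    .old (.lp [k4,k4,k6,k6,k6,k4] [k1,k1,k1,k1,k0,k0,k0,k0,k0,k0,k1,k1] k0 [] k16 k5
    [[(k10,k4),(k9,k5)],[(k3,k4),(k4,k5)],[(k0,k4),(k7,k5)],[(k11,k4),(k8,k5)],[(k11,k5),(k8,k6)],[(k0,k5),(k7,k6)],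
    [(k3,k5),(k4,k6)],[(k10,k5),(k9,k6)],[(k1,k5),(k6,k6)],[(k2,k5),(k5,k6)],[(k2,k4),(k5,k5)],[(k1,k4),(k6,k5)]]
    [] k0
    [[k1,k1,k0,k0,k1,k0],[k1,k1,k0,k0,k0,k1],[k1,k0,k1,k0,k0,k1],[k0,k1,k0,k1,k0,k1]]
    [.ref k1 k0 [(z1,[y1,z1])],.ref k2 k1 [(z1,[z1])],.ref k1 k1 [(z1,[z1])],.ref k0 k1 [(z1,[y1,z1])]])]⟩

/-- classes `0 1 0 2 1 2`, types `C0 B0 C2 N0 B1 N1` -/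
noncomputable def cU6_2077 : CertX :=
  ⟨[k4,k24,k6,k44,k25,k45],[],[[[]]],
    [.old (.lp [k2,k2,k2,k2,k2,k2] [k0,k0,k0,k0,k0,k0,k0,k0,k0,k0,k0,k0] k0 [] k8 k5
    [[(k6,k2)],[(k3,k2),(k4,k2)],[(k0,k2),(k7,k2)],[(k8,k2),(k11,k2)],[(k8,k2),(k11,k2)],[(k0,k2),(k7,k2)],[(k3,k2),
    (k4,k2)],[(k1,k2)],[(k10,k2)],[(k2,k2),(k5,k2)],[(k2,k2),(k5,k2)],[(k9,k2)]]
    [] k0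
    []
    [])]⟩

/-- classes `0 1 0 2 1 2`, types `C0 B0 C2 N0 B1 N2` -/
noncomputable def cU6_2078 : CertX :=
  ⟨[k4,k24,k6,k44,k25,k46],[(false,k0,[k0,k1,k2,k3,k4,k5])],[[[([z1,z0,z1,z0,z1,z0],z2)],[([z1,z1,z0,z0,z1,z0],z2)],
    []]],
    [.old (.leafM k5 [k0,k1,k2,k3,k4,k5] [(z1,[y1,z1]),(z1,[z1])] []),
    .old (.leafM k3 [k3,k4,k5,k0,k1,k2] [(z1,[z1])] []),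
    .old (.lp [k2,k2,k2,k4,k2,k2] [k1,k1,k1,k1,k1,k1,k0,k0,k1,k1,k1,k1] k0 [] k8 k5
    [[(k9,k2)],[(k3,k2),(k4,k2)],[(k0,k2),(k7,k3)],[(k8,k2),(k11,k2)],[(k8,k2),(k11,k2)],[(k0,k2),(k7,k3)],[(k3,k3),
    (k4,k3)],[(k10,k3)],[(k1,k2)],[(k2,k2),(k5,k2)],[(k2,k2),(k5,k2)],[(k6,k3)]]
    [] k0
    [[k1,k1,k0,k0,k1,k0],[k1,k0,k1,k0,k1,k0]]
    [.ref k1 k0 [(z1,[z1])],.ref k0 k0 [(z1,[z1])]])]⟩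

/-- classes `0 1 0 2 1 2`, types `C0 B0 C2 S0 B1 S0` -/
noncomputable def cU6_2079 : CertX :=
  ⟨[k4,k24,k6,k32,k25,k32],[(false,k0,[k0,k1,k2,k3,k4,k5])],[[[([z1,z1,z0,z0,z1,z0],z2)],[([z1,z0,z1,z0,z1,z0],z2)],
    [([z1,z0,z1,z0,z0,z1],z2)],[([z1,z1,z0,z0,z0,z1],z2)],[]]],
    [.old (.leafM k3 [k3,k4,k5,k0,k1,k2] [(z1,[z1])] []),
    .old (.leafM k5 [k0,k1,k2,k3,k4,k5] [(z1,[y1,z1]),(z1,[z1])] []),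
    .old (.leafM k3 [k0,k1,k2,k3,k4,k5] [(z1,[y1,z1])] []),
    .old (.leafM k0 [k1,k2,k3,k4,k5,k0] [(z1,[y1,z1])] []),
    .old (.lp [k6,k4,k6,k4,k6,k4] [k0,k0,k1,k1,k0,k0,k1,k1,k0,k0,k1,k1] k0 [] k16 k5
    [[(k6,k5),(k10,k5),(k1,k6),(k9,k6)],[(k3,k5),(k4,k6)],[(k7,k4),(k0,k5)],[(k11,k4),(k8,k5)],[(k11,k5),(k8,k6)],
    [(k7,k5),(k0,k6)],[(k3,k4),(k4,k5)],[(k6,k4),(k10,k4),(k1,k5),(k9,k5)],[(k6,k5),(k10,k5),(k1,k6),(k9,k6)],[(k2,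
    k5),(k5,k6)],[(k2,k4),(k5,k5)],[(k6,k4),(k10,k4),(k1,k5),(k9,k5)]]
    [] k0
    [[k1,k1,k0,k0,k0,k1],[k0,k1,k0,k1,k1,k0],[k0,k1,k0,k1,k0,k1],[k0,k0,k1,k1,k0,k1]]
    [.ref k3 k0 [(z1,[z1])],.ref k2 k0 [(z1,[y1,z1])],.ref k1 k0 [(z1,[y1,z1])],.ref k0 k0 [(z1,[y1,z1])]])]⟩

/-- classes `0 1 0 2 1 2`, types `C0 C0 C0 C0 C0 C0` -/
noncomputable def cU6_2080 : CertX :=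
  ⟨[k4,k20,k4,k36,k20,k36],[(false,k0,[k0,k1,k2,k3,k4,k5]),(false,k3,[k3,k4,k5,k0,k1,k2])],[[[([z1,z0,z0,z1,z1,z1],
    z2)],[([z1,z1,z0,z0,z0,z1],z2)],[([z1,z0,z0,z1,z0,z0],z2)],[]]],
    [.old (.leafM k0 [k0,k3,k4,k5] [] [(k1,k2,z1,[y1,z1]),(k2,k1,z1,[y1,z1])]),
    .old (.leafM k0 [k1,k2,k3,k4,k5,k0] [(z1,[y1,z1])] []),
    .old (.leafM k5 [k1,k2,k4,k5] [] [(k3,k0,z1,[z1]),(k0,k3,z1,[z1])]),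
    .old (.lp [k4,k2,k2,k2,k2,k2] [k0,k0,k1,k1,k1,k1,k1,k1,k1,k1,k1,k1] k0 [] k8 k5
    [[(k6,k3),(k10,k3)],[(k3,k3),(k7,k3)],[(k4,k2),(k0,k3)],[(k5,k2),(k11,k2)],[(k2,k2),(k8,k2)],[(k3,k2),(k7,k2)],
    [(k4,k2),(k0,k3)],[(k9,k2),(k1,k3)],[(k6,k2),(k10,k2)],[(k5,k2),(k11,k2)],[(k2,k2),(k8,k2)],[(k9,k2),(k1,k3)]]
    [] k0
    [[k1,k0,k0,k1,k0,k0],[k0,k1,k1,k0,k0,k0],[k0,k0,k1,k1,k1,k0],[k0,k0,k0,k0,k1,k1]]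
    [.ref k2 k0 [(z1,[z1])],.ref k0 k0 [(z1,[y1,z1])],.ref k1 k0 [(z1,[y1,z1])],.ref k0 k1 [(z1,[y1,z1])]])]⟩

/-- classes `0 1 0 2 1 2`, types `C0 C0 C0 C0 C0 C2` -/
noncomputable def cU6_2081 : CertX :=
  ⟨[k4,k20,k4,k36,k20,k38],[(false,k0,[k0,k1,k2,k3,k4,k5])],[[[([z1,z1,z0,z0,z0,z1],z2)],[([z1,z0,z0,z1,z1,z1],z2)],
    []]],
    [.old (.leafM k0 [k1,k2,k3,k4,k5,k0] [(z1,[y1,z1])] []),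
    .old (.leafM k0 [k0,k3,k4,k5] [] [(k1,k2,z1,[y1,z1]),(k2,k1,z1,[y1,z1])]),
    .old (.lp [k4,k2,k2,k2,k2,k2] [k0,k0,k1,k1,k1,k1,k1,k1,k1,k1,k1,k1] k0 [] k8 k5
    [[(k9,k3),(k10,k3)],[(k3,k3),(k7,k3)],[(k4,k2),(k0,k3)],[(k5,k2),(k11,k2)],[(k2,k2),(k8,k2)],[(k3,k2),(k7,k2)],
    [(k4,k2),(k0,k3)],[(k9,k2),(k10,k2)],[(k6,k2),(k1,k3)],[(k5,k2),(k11,k2)],[(k2,k2),(k8,k2)],[(k6,k2),(k1,k3)]]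
    [] k0
    [[k0,k1,k1,k0,k0,k0],[k0,k0,k1,k1,k1,k0]]
    [.ref k1 k0 [(z1,[y1,z1])],.ref k0 k0 [(z1,[y1,z1])]])]⟩

/-- classes `0 1 0 2 1 2`, types `C0 C0 C0 C0 C2 C0` -/
noncomputable def cU6_2082 : CertX :=
  ⟨[k4,k20,k4,k36,k22,k36],[(false,k0,[k0,k1,k2,k3,k4,k5]),(false,k3,[k3,k4,k5,k0,k1,k2])],[[[([z1,z0,z0,z1,z1,z1],
    z2)],[([z1,z0,z0,z1,z0,z0],z2)],[]]],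
    [.old (.leafM k0 [k0,k3,k4,k5] [] [(k1,k2,z1,[y1,z1]),(k2,k1,z1,[y1,z1])]),
    .old (.leafM k6 [k2,k4,k5,k1] [] [(k3,k0,z1,[z1]),(k0,k3,z1,[z1])]),
    .old (.lp [k2,k0,k2,k0,k2,k0] [k0,k0,k1,k1,k0,k0,k1,k1,k0,k0,k1,k1] k0 [] k4 k5
    [[(k6,k1),(k10,k1)],[(k3,k1),(k7,k1)],[(k0,k1),(k4,k1)],[(k5,k1),(k8,k1)],[(k2,k1),(k11,k1)],[(k3,k1),(k7,k1)],
    [(k0,k1),(k4,k1)],[(k1,k1),(k9,k1)],[(k6,k1),(k10,k1)],[(k2,k1),(k11,k1)],[(k5,k1),(k8,k1)],[(k1,k1),(k9,k1)]]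
    [] k0
    [[k1,k0,k0,k1,k0,k0],[k0,k1,k1,k0,k0,k0],[k0,k0,k0,k0,k1,k1]]
    [.ref k1 k0 [(z1,[z1])],.ref k0 k0 [(z1,[y1,z1])],.ref k0 k1 [(z1,[y1,z1])]])]⟩

/-- classes `0 1 0 2 1 2`, types `C0 C0 C0 C0 C2 C2` -/
noncomputable def cU6_2083 : CertX :=
  ⟨[k4,k20,k4,k36,k22,k38],[(false,k0,[k0,k1,k2,k3,k4,k5])],[[[([z1,z1,z0,z0,z1,z0],z2)],[([z1,z0,z0,z1,z1,z1],z2)],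
    []]],
    [.old (.leafM k3 [k3,k4,k5,k0,k1,k2] [(z1,[z1])] []),
    .old (.leafM k0 [k0,k3,k4,k5] [] [(k1,k2,z1,[y1,z1]),(k2,k1,z1,[y1,z1])]),
    .old (.lp [k4,k2,k2,k2,k2,k2] [k0,k0,k1,k1,k1,k1,k1,k1,k1,k1,k1,k1] k0 [] k8 k5
    [[(k9,k3),(k10,k3)],[(k3,k3),(k7,k3)],[(k4,k2),(k0,k3)],[(k5,k2),(k8,k2)],[(k2,k2),(k11,k2)],[(k3,k2),(k7,k2)],
    [(k4,k2),(k0,k3)],[(k9,k2),(k10,k2)],[(k6,k2),(k1,k3)],[(k2,k2),(k11,k2)],[(k5,k2),(k8,k2)],[(k6,k2),(k1,k3)]]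
    [] k0
    [[k0,k1,k1,k0,k0,k0],[k0,k0,k1,k1,k0,k1]]
    [.ref k1 k0 [(z1,[y1,z1])],.ref k0 k0 [(z1,[y1,z1])]])]⟩

/-- classes `0 1 0 2 1 2`, types `C0 C0 C0 N0 C0 N1` -/
noncomputable def cU6_2084 : CertX :=
  ⟨[k4,k20,k4,k44,k20,k45],[(false,k0,[k0,k1,k2,k3,k4,k5])],[[[([z1,z1,z1,z1,z0,z0],z2)],[([z1,z0,z0,z1,z0,z0],z2)],
    [([z1,z0,z0,z1,z0,z0],z1),([z0,z1,z1,z0,z0,z0],z2)],[([z1,z0,z0,z1,z1,z1],z2)],[]]],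
    [.old (.leafM k0 [k0,k1,k2,k3] [] [(k4,k5,z1,[y1,z1]),(k5,k4,z1,[y1,z1])]),
    .old (.leafM k5 [k1,k2,k4,k5] [] [(k3,k0,z1,[z1]),(k0,k3,z1,[z1])]),
    .old (.leafM k4 [k3,k4,k5,k0] [(z1,[y1,y1,z1])] [(k1,k2,z1,[z0,z1]),(k2,k1,z1,[z0,z1])]),
    .old (.lp [k0,k20,k0,k8,k10,k0] [k10,k10,k0,k0,k10,k10,k6,k6,k5,k5,k10,k10] k0 [] k20 k6
    [[(k6,k4)],[(k7,k4),(k3,k10)],[(k0,k10),(k4,k10)],[(k5,k10),(k11,k10)],[(k8,k5),(k2,k10)],[(k7,k4),(k3,k10)],[(k0,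
    k4),(k4,k4)],[(k1,k4)],[(k10,k5)],[(k5,k5),(k11,k5)],[(k8,k5),(k2,k10)],[(k9,k5)]]
    [] k0
    [[k1,k0,k0,k1,k0,k0],[k2,k0,k0,k2,k0,k0],[k0,k0,k0,k0,k1,k1]]
    [.contra [y1,z1],.ref k2 k0 [(z2,[z1]),(z1,[z0,y1,z1])],.contra [y1,z1]]),
    .old (.lp [k0,k2,k0,k2,k2,k0] [k1,k1,k0,k0,k1,k1,k0,k0,k0,k0,k1,k1] k0 [] k4 k5
    [[(k6,k1)],[(k3,k1),(k7,k1)],[(k0,k1),(k4,k1)],[(k5,k1),(k11,k1)],[(k2,k1),(k8,k1)],[(k3,k1),(k7,k1)],[(k0,k1),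
    (k4,k1)],[(k1,k1)],[(k10,k1)],[(k5,k1),(k11,k1)],[(k2,k1),(k8,k1)],[(k9,k1)]]
    [] k0
    [[k1,k0,k0,k1,k0,k0],[k0,k1,k1,k0,k0,k0],[k0,k0,k0,k0,k1,k1]]
    [.ref k1 k0 [(z1,[z1])],.ref k3 k0 [(z1,[y1,z1])],.ref k0 k0 [(z1,[y1,z1])]])]⟩

/-- classes `0 1 0 2 1 2`, types `C0 C0 C0 N0 C0 N2` -/
noncomputable def cU6_2085 : CertX :=
  ⟨[k4,k20,k4,k44,k20,k46],[(false,k0,[k0,k1,k2,k3,k4,k5])],[[[([z1,z0,z0,z1,z1,z1],z2)],[]]],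
    [.old (.leafM k2 [k0,k3,k4,k5] [] [(k1,k2,z1,[y1,z1]),(k2,k1,z1,[y1,z1])]),
    .old (.lp [k0,k2,k0,k2,k2,k0] [k1,k1,k0,k0,k1,k1,k0,k0,k0,k0,k1,k1] k0 [] k4 k5
    [[(k9,k1)],[(k3,k1),(k7,k1)],[(k0,k1),(k4,k1)],[(k5,k1),(k11,k1)],[(k2,k1),(k8,k1)],[(k3,k1),(k7,k1)],[(k0,k1),
    (k4,k1)],[(k10,k1)],[(k1,k1)],[(k5,k1),(k11,k1)],[(k2,k1),(k8,k1)],[(k6,k1)]]
    [] k0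
    [[k0,k1,k1,k0,k0,k0]]
    [.ref k0 k0 [(z1,[y1,z1])]])]⟩

/-- classes `0 1 0 2 1 2`, types `C0 C0 C0 N0 C2 N1` -/
noncomputable def cU6_2086 : CertX :=
  ⟨[k4,k20,k4,k44,k22,k45],[(false,k0,[k0,k1,k2,k3,k4,k5])],[[[([z1,z1,z1,z1,z0,z0],z2)],[([z1,z0,z0,z1,z0,z0],z2)],
    [([z1,z0,z0,z1,z0,z0],z1),([z0,z1,z1,z0,z0,z0],z2)],[([z1,z0,z0,z1,z1,z1],z2)],[]]],
    [.old (.leafM k0 [k0,k1,k2,k3] [] [(k4,k5,z1,[y1,z1]),(k5,k4,z1,[y1,z1])]),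
    .old (.leafM k6 [k2,k4,k5,k1] [] [(k3,k0,z1,[z1]),(k0,k3,z1,[z1])]),
    .old (.leafM k4 [k3,k4,k5,k0] [(z1,[y1,y1,z1])] [(k1,k2,z1,[z0,z1]),(k2,k1,z1,[z0,z1])]),
    .old (.lp [k8,k12,k8,k0,k10,k0] [k2,k2,k0,k0,k2,k2,k6,k6,k1,k1,k6,k6] k0 [] k20 k6
    [[(k6,k4)],[(k7,k4),(k3,k10)],[(k0,k10),(k4,k10)],[(k5,k10),(k8,k11)],[(k11,k4),(k2,k10)],[(k7,k4),(k3,k10)],[(k0,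
    k4),(k4,k4)],[(k1,k4)],[(k10,k5)],[(k11,k5),(k2,k11)],[(k5,k4),(k8,k5)],[(k9,k5)]]
    [] k0
    [[k1,k0,k0,k1,k0,k0],[k2,k0,k0,k2,k0,k0],[k0,k0,k0,k0,k1,k1]]
    [.contra [y1,z1],.ref k2 k0 [(z2,[z1]),(z1,[z0,y1,z1])],.contra [y1,z1]]),
    .old (.lp [k2,k0,k2,k0,k2,k0] [k0,k0,k1,k1,k0,k0,k1,k1,k0,k0,k1,k1] k0 [] k4 k5
    [[(k6,k1)],[(k3,k1),(k7,k1)],[(k0,k1),(k4,k1)],[(k5,k1),(k8,k1)],[(k2,k1),(k11,k1)],[(k3,k1),(k7,k1)],[(k0,k1),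
    (k4,k1)],[(k1,k1)],[(k10,k1)],[(k2,k1),(k11,k1)],[(k5,k1),(k8,k1)],[(k9,k1)]]
    [] k0
    [[k1,k0,k0,k1,k0,k0],[k0,k1,k1,k0,k0,k0],[k0,k0,k0,k0,k1,k1]]
    [.ref k1 k0 [(z1,[z1])],.ref k3 k0 [(z1,[y1,z1])],.ref k0 k0 [(z1,[y1,z1])]])]⟩

/-- classes `0 1 0 2 1 2`, types `C0 C0 C0 N0 C2 N2` -/
noncomputable def cU6_2087 : CertX :=
  ⟨[k4,k20,k4,k44,k22,k46],[(false,k0,[k0,k1,k2,k3,k4,k5])],[[[([z1,z1,z0,z0,z1,z0],z2)],[([z1,z0,z0,z1,z1,z1],z2)],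
    []]],
    [.old (.leafM k3 [k3,k4,k5,k0,k1,k2] [(z1,[z1])] []),
    .old (.leafM k2 [k0,k3,k4,k5] [] [(k1,k2,z1,[y1,z1]),(k2,k1,z1,[y1,z1])]),
    .old (.lp [k4,k2,k2,k2,k2,k2] [k0,k0,k1,k1,k1,k1,k1,k1,k1,k1,k1,k1] k0 [] k8 k5
    [[(k9,k3)],[(k3,k3),(k7,k3)],[(k4,k2),(k0,k3)],[(k5,k2),(k8,k2)],[(k2,k2),(k11,k2)],[(k3,k2),(k7,k2)],[(k4,k2),
    (k0,k3)],[(k10,k2)],[(k1,k3)],[(k2,k2),(k11,k2)],[(k5,k2),(k8,k2)],[(k6,k2)]]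
    [] k0
    [[k0,k1,k1,k0,k0,k0],[k0,k0,k1,k1,k0,k1]]
    [.ref k1 k0 [(z1,[y1,z1])],.ref k0 k0 [(z1,[y1,z1])]])]⟩

/-- classes `0 1 0 2 1 2`, types `C0 C0 C0 S0 C0 S0` -/
noncomputable def cU6_2088 : CertX :=
  ⟨[k4,k20,k4,k32,k20,k32],[(false,k0,[k0,k1,k2,k3,k4,k5])],[[[([z1,z1,z1,z1,z0,z0],z2)],[([z1,z1,z0,z0,z0,z1],z2)],
    [([z1,z0,z0,z1,z1,z1],z2)],[([z1,z0,z0,z1,z0,z0],z2)],[]]],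
    [.old (.leafM k0 [k0,k1,k2,k3] [] [(k4,k5,z1,[y1,z1]),(k5,k4,z1,[y1,z1])]),
    .old (.leafM k0 [k1,k2,k3,k4,k5,k0] [(z1,[y1,z1])] []),
    .old (.leafM k0 [k0,k3,k4,k5] [] [(k1,k2,z1,[y1,z1]),(k2,k1,z1,[y1,z1])]),
    .old (.leafM k5 [k1,k2,k4,k5] [] [(k3,k0,z1,[z1]),(k0,k3,z1,[z1])]),
    .old (.lp [k4,k2,k2,k2,k2,k2] [k0,k0,k1,k1,k1,k1,k1,k1,k1,k1,k1,k1] k0 [] k8 k5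
    [[(k6,k3),(k9,k3),(k10,k3),(k1,k4)],[(k3,k3),(k7,k3)],[(k4,k2),(k0,k3)],[(k5,k2),(k11,k2)],[(k2,k2),(k8,k2)],[(k3,
    k2),(k7,k2)],[(k4,k2),(k0,k3)],[(k6,k2),(k9,k2),(k10,k2),(k1,k3)],[(k6,k2),(k9,k2),(k10,k2),(k1,k3)],[(k5,k2),
    (k11,k2)],[(k2,k2),(k8,k2)],[(k6,k2),(k9,k2),(k10,k2),(k1,k3)]]
    [] k0
    [[k1,k0,k0,k1,k0,k0],[k0,k1,k1,k0,k0,k0],[k0,k0,k1,k1,k1,k0],[k0,k0,k0,k0,k1,k1]]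
    [.ref k3 k0 [(z1,[z1])],.ref k2 k0 [(z1,[y1,z1])],.ref k1 k0 [(z1,[y1,z1])],.ref k0 k0 [(z1,[y1,z1])]])]⟩

/-- classes `0 1 0 2 1 2`, types `C0 C0 C0 S0 C2 S0` -/
noncomputable def cU6_2089 : CertX :=
  ⟨[k4,k20,k4,k32,k22,k32],[(false,k0,[k0,k1,k2,k3,k4,k5])],[[[([z1,z1,z1,z1,z0,z0],z2)],[([z1,z0,z0,z1,z1,z1],z2)],
    [([z1,z0,z0,z1,z0,z0],z2)],[([z1,z1,z0,z0,z1,z0],z2)],[]]],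
    [.old (.leafM k0 [k0,k1,k2,k3] [] [(k4,k5,z1,[y1,z1]),(k5,k4,z1,[y1,z1])]),
    .old (.leafM k0 [k0,k3,k4,k5] [] [(k1,k2,z1,[y1,z1]),(k2,k1,z1,[y1,z1])]),
    .old (.leafM k6 [k2,k4,k5,k1] [] [(k3,k0,z1,[z1]),(k0,k3,z1,[z1])]),
    .old (.leafM k3 [k3,k4,k5,k0,k1,k2] [(z1,[z1])] []),
    .old (.lp [k2,k2,k2,k2,k2,k4] [k1,k1,k1,k1,k1,k1,k1,k1,k1,k1,k0,k0] k0 [] k8 k5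
    [[(k1,k2),(k6,k2),(k9,k2),(k10,k3)],[(k3,k2),(k7,k2)],[(k0,k2),(k4,k2)],[(k5,k2),(k8,k2)],[(k2,k2),(k11,k3)],[(k3,
    k2),(k7,k2)],[(k0,k2),(k4,k2)],[(k1,k2),(k6,k2),(k9,k2),(k10,k3)],[(k1,k2),(k6,k2),(k9,k2),(k10,k3)],[(k2,k2),
    (k11,k3)],[(k5,k3),(k8,k3)],[(k1,k3),(k6,k3),(k9,k3),(k10,k4)]]
    [] k0
    [[k1,k0,k0,k1,k0,k0],[k1,k1,k0,k0,k1,k0],[k0,k1,k1,k0,k0,k0],[k0,k0,k0,k0,k1,k1]]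
    [.ref k2 k0 [(z1,[z1])],.ref k3 k0 [(z1,[z1])],.ref k1 k0 [(z1,[y1,z1])],.ref k0 k0 [(z1,[y1,z1])]])]⟩

/-- classes `0 1 0 2 1 2`, types `C0 C0 C2 C0 C0 C2` -/
noncomputable def cU6_2090 : CertX :=
  ⟨[k4,k20,k6,k36,k20,k38],[(false,k0,[k0,k1,k2,k3,k4,k5])],[[[([z1,z1,z0,z0,z0,z1],z2)],[([z1,z0,z1,z0,z1,z0],z2)],
    []]],
    [.old (.leafM k0 [k1,k2,k3,k4,k5,k0] [(z1,[y1,z1])] []),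
    .old (.leafM k5 [k0,k1,k2,k3,k4,k5] [(z1,[y1,z1]),(z1,[z1])] []),
    .old (.lp [k4,k2,k2,k2,k2,k2] [k0,k0,k1,k1,k1,k1,k1,k1,k1,k1,k1,k1] k0 [] k8 k5
    [[(k9,k3),(k10,k3)],[(k3,k3),(k4,k3)],[(k7,k2),(k0,k3)],[(k5,k2),(k11,k2)],[(k2,k2),(k8,k2)],[(k7,k2),(k0,k3)],
    [(k3,k2),(k4,k2)],[(k9,k2),(k10,k2)],[(k6,k2),(k1,k3)],[(k5,k2),(k11,k2)],[(k2,k2),(k8,k2)],[(k6,k2),(k1,k3)]]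
    [] k0
    [[k0,k1,k0,k1,k0,k1],[k0,k0,k1,k1,k1,k0]]
    [.ref k1 k0 [(z1,[y1,z1])],.ref k0 k0 [(z1,[y1,z1])]])]⟩

/-- classes `0 1 0 2 1 2`, types `C0 C0 C2 C0 C2 C2` -/
noncomputable def cU6_2091 : CertX :=
  ⟨[k4,k20,k6,k36,k22,k38],[(false,k3,[k3,k4,k5,k0,k1,k2]),(false,k0,[k0,k1,k2,k3,k4,k5])],[[[([z1,z0,z1,z0,z0,z1],
    z2)],[]]],
    [.old (.leafM k3 [k0,k1,k2,k3,k4,k5] [(z1,[y1,z1])] []),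
    .old (.lp [k2,k2,k2,k2,k2,k4] [k1,k1,k1,k1,k1,k1,k1,k1,k1,k1,k0,k0] k0 [] k8 k5
    [[(k9,k2),(k10,k3)],[(k3,k2),(k4,k2)],[(k0,k2),(k7,k2)],[(k5,k2),(k8,k2)],[(k2,k2),(k11,k3)],[(k0,k2),(k7,k2)],
    [(k3,k2),(k4,k2)],[(k9,k2),(k10,k3)],[(k1,k2),(k6,k2)],[(k2,k2),(k11,k3)],[(k5,k3),(k8,k3)],[(k1,k3),(k6,k3)]]
    [] k0
    [[k1,k1,k0,k0,k1,k0],[k0,k1,k0,k1,k1,k0]]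
    [.ref k0 k0 [(z1,[y1,z1])],.ref k0 k1 [(z1,[y1,z1])]])]⟩

/-- classes `0 1 0 2 1 2`, types `C0 C0 C2 N0 C0 N1` -/
noncomputable def cU6_2092 : CertX :=
  ⟨[k4,k20,k6,k44,k20,k45],[(false,k0,[k0,k1,k2,k3,k4,k5])],[[[([z1,z1,z1,z1,z0,z0],z2)],[]]],
    [.old (.leafM k0 [k0,k1,k2,k3] [] [(k4,k5,z1,[y1,z1]),(k5,k4,z1,[y1,z1])]),
    .old (.lp [k2,k2,k2,k2,k2,k2] [k0,k0,k0,k0,k0,k0,k0,k0,k0,k0,k0,k0] k0 [] k8 k5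
    [[(k6,k2)],[(k3,k2),(k4,k2)],[(k0,k2),(k7,k2)],[(k5,k2),(k11,k2)],[(k2,k2),(k8,k2)],[(k0,k2),(k7,k2)],[(k3,k2),
    (k4,k2)],[(k1,k2)],[(k10,k2)],[(k5,k2),(k11,k2)],[(k2,k2),(k8,k2)],[(k9,k2)]]
    [] k0
    [[k0,k0,k0,k0,k1,k1]]
    [.ref k0 k0 [(z1,[y1,z1])]])]⟩

/-- classes `0 1 0 2 1 2`, types `C0 C0 C2 N0 C0 N2` -/
noncomputable def cU6_2093 : CertX :=
  ⟨[k4,k20,k6,k44,k20,k46],[(false,k0,[k0,k1,k2,k3,k4,k5])],[[[([z1,z0,z1,z0,z1,z0],z2)],[]]],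
    [.old (.leafM k5 [k0,k1,k2,k3,k4,k5] [(z1,[y1,z1]),(z1,[z1])] []),
    .old (.lp [k4,k2,k2,k2,k2,k2] [k0,k0,k1,k1,k1,k1,k1,k1,k1,k1,k1,k1] k0 [] k8 k5
    [[(k9,k3)],[(k3,k3),(k4,k3)],[(k7,k2),(k0,k3)],[(k5,k2),(k11,k2)],[(k2,k2),(k8,k2)],[(k7,k2),(k0,k3)],[(k3,k2),
    (k4,k2)],[(k10,k2)],[(k1,k3)],[(k5,k2),(k11,k2)],[(k2,k2),(k8,k2)],[(k6,k2)]]
    [] k0
    [[k0,k1,k0,k1,k0,k1]]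
    [.ref k0 k0 [(z1,[y1,z1])]])]⟩

/-- classes `0 1 0 2 1 2`, types `C0 C0 C2 N0 C2 N1` -/
noncomputable def cU6_2094 : CertX :=
  ⟨[k4,k20,k6,k44,k22,k45],[(false,k0,[k0,k1,k2,k3,k4,k5])],[[[([z1,z1,z1,z1,z0,z0],z2)],[]]],
    [.old (.leafM k0 [k0,k1,k2,k3] [] [(k4,k5,z1,[y1,z1]),(k5,k4,z1,[y1,z1])]),
    .old (.lp [k2,k2,k2,k2,k2,k2] [k0,k0,k0,k0,k0,k0,k0,k0,k0,k0,k0,k0] k0 [] k8 k5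
    [[(k6,k2)],[(k3,k2),(k4,k2)],[(k0,k2),(k7,k2)],[(k5,k2),(k8,k2)],[(k2,k2),(k11,k2)],[(k0,k2),(k7,k2)],[(k3,k2),
    (k4,k2)],[(k1,k2)],[(k10,k2)],[(k2,k2),(k11,k2)],[(k5,k2),(k8,k2)],[(k9,k2)]]
    [] k0
    [[k0,k0,k0,k0,k1,k1]]
    [.ref k0 k0 [(z1,[y1,z1])]])]⟩

/-- classes `0 1 0 2 1 2`, types `C0 C0 C2 N0 C2 N2` -/
noncomputable def cU6_2095 : CertX :=
  ⟨[k4,k20,k6,k44,k22,k46],[(false,k0,[k0,k1,k2,k3,k4,k5])],[[[([z1,z1,z0,z0,z1,z0],z2)],[]]],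
    [.old (.leafM k3 [k3,k4,k5,k0,k1,k2] [(z1,[z1])] []),
    .old (.lp [k4,k2,k2,k2,k2,k2] [k0,k0,k1,k1,k1,k1,k1,k1,k1,k1,k1,k1] k0 [] k8 k5
    [[(k9,k3)],[(k3,k3),(k4,k3)],[(k7,k2),(k0,k3)],[(k5,k2),(k8,k2)],[(k2,k2),(k11,k2)],[(k7,k2),(k0,k3)],[(k3,k2),
    (k4,k2)],[(k10,k2)],[(k1,k3)],[(k2,k2),(k11,k2)],[(k5,k2),(k8,k2)],[(k6,k2)]]
    [] k0
    [[k0,k0,k1,k1,k0,k1]]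
    [.ref k0 k0 [(z1,[y1,z1])]])]⟩

/-- classes `0 1 0 2 1 2`, types `C0 C0 C2 S0 C0 S0` -/
noncomputable def cU6_2096 : CertX :=
  ⟨[k4,k20,k6,k32,k20,k32],[(false,k0,[k0,k1,k2,k3,k4,k5])],[[[([z1,z1,z1,z1,z0,z0],z2)],[([z1,z0,z1,z0,z1,z0],z2)],
    [([z1,z1,z0,z0,z0,z1],z2)],[]]],
    [.old (.leafM k0 [k0,k1,k2,k3] [] [(k4,k5,z1,[y1,z1]),(k5,k4,z1,[y1,z1])]),
    .old (.leafM k5 [k0,k1,k2,k3,k4,k5] [(z1,[y1,z1]),(z1,[z1])] []),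
    .old (.leafM k0 [k1,k2,k3,k4,k5,k0] [(z1,[y1,z1])] []),
    .old (.lp [k2,k2,k2,k4,k2,k2] [k1,k1,k1,k1,k1,k1,k0,k0,k1,k1,k1,k1] k0 [] k8 k5
    [[(k1,k2),(k9,k2),(k10,k2),(k6,k3)],[(k3,k2),(k4,k2)],[(k0,k2),(k7,k3)],[(k5,k2),(k11,k2)],[(k2,k2),(k8,k2)],[(k0,
    k2),(k7,k3)],[(k3,k3),(k4,k3)],[(k1,k3),(k9,k3),(k10,k3),(k6,k4)],[(k1,k2),(k9,k2),(k10,k2),(k6,k3)],[(k5,k2),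
    (k11,k2)],[(k2,k2),(k8,k2)],[(k1,k2),(k9,k2),(k10,k2),(k6,k3)]]
    [] k0
    [[k1,k0,k1,k0,k1,k0],[k1,k1,k0,k0,k0,k1],[k0,k0,k0,k0,k1,k1]]
    [.ref k1 k0 [(z1,[z1])],.ref k2 k0 [(z1,[z1])],.ref k0 k0 [(z1,[y1,z1])]])]⟩

/-- classes `0 1 0 2 1 2`, types `C0 C0 C2 S0 C2 S0` -/
noncomputable def cU6_2097 : CertX :=
  ⟨[k4,k20,k6,k32,k22,k32],[(false,k0,[k0,k1,k2,k3,k4,k5])],[[[([z1,z1,z1,z1,z0,z0],z2)],[([z1,z0,z1,z0,z0,z1],z2)],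
    [([z1,z1,z0,z0,z1,z0],z2)],[]]],
    [.old (.leafM k0 [k0,k1,k2,k3] [] [(k4,k5,z1,[y1,z1]),(k5,k4,z1,[y1,z1])]),
    .old (.leafM k3 [k0,k1,k2,k3,k4,k5] [(z1,[y1,z1])] []),
    .old (.leafM k3 [k3,k4,k5,k0,k1,k2] [(z1,[z1])] []),
    .old (.lp [k2,k2,k2,k2,k2,k4] [k1,k1,k1,k1,k1,k1,k1,k1,k1,k1,k0,k0] k0 [] k8 k5
    [[(k1,k2),(k6,k2),(k9,k2),(k10,k3)],[(k3,k2),(k4,k2)],[(k0,k2),(k7,k2)],[(k5,k2),(k8,k2)],[(k2,k2),(k11,k3)],[(k0,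
    k2),(k7,k2)],[(k3,k2),(k4,k2)],[(k1,k2),(k6,k2),(k9,k2),(k10,k3)],[(k1,k2),(k6,k2),(k9,k2),(k10,k3)],[(k2,k2),
    (k11,k3)],[(k5,k3),(k8,k3)],[(k1,k3),(k6,k3),(k9,k3),(k10,k4)]]
    [] k0
    [[k1,k1,k0,k0,k1,k0],[k0,k1,k0,k1,k1,k0],[k0,k0,k0,k0,k1,k1]]
    [.ref k2 k0 [(z1,[z1])],.ref k1 k0 [(z1,[y1,z1])],.ref k0 k0 [(z1,[y1,z1])]])]⟩

/-- classes `0 1 0 2 1 2`, types `C0 N0 C0 C0 N1 C0` -/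
noncomputable def cU6_2098 : CertX :=
  ⟨[k4,k28,k4,k36,k29,k36],[(false,k0,[k0,k1,k2,k3,k4,k5])],[[[([z1,z1,z0,z0,z0,z1],z2)],[([z1,z0,z0,z1,z0,z0],z2)],
    []]],
    [.old (.leafM k0 [k1,k2,k3,k4,k5,k0] [(z1,[y1,z1])] []),
    .old (.leafM k5 [k1,k2,k4,k5] [] [(k3,k0,z1,[z1]),(k0,k3,z1,[z1])]),
    .old (.lp [k4,k2,k2,k2,k2,k2] [k0,k0,k1,k1,k1,k1,k1,k1,k1,k1,k1,k1] k0 [] k8 k5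
    [[(k6,k3),(k10,k3)],[(k3,k3),(k7,k3)],[(k4,k2),(k0,k3)],[(k11,k2)],[(k8,k2)],[(k3,k2),(k7,k2)],[(k4,k2),(k0,k3)],
    [(k9,k2),(k1,k3)],[(k6,k2),(k10,k2)],[(k5,k2)],[(k2,k2)],[(k9,k2),(k1,k3)]]
    [] k0
    [[k1,k0,k0,k1,k0,k0],[k0,k0,k1,k1,k1,k0]]
    [.ref k1 k0 [(z1,[z1])],.ref k0 k0 [(z1,[y1,z1])]])]⟩

/-- classes `0 1 0 2 1 2`, types `C0 N0 C0 C0 N1 C2` -/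
noncomputable def cU6_2099 : CertX :=
  ⟨[k4,k28,k4,k36,k29,k38],[(false,k0,[k0,k1,k2,k3,k4,k5])],[[[([z1,z1,z0,z0,z0,z1],z2)],[]]],
    [.old (.leafM k0 [k1,k2,k3,k4,k5,k0] [(z1,[y1,z1])] []),
    .old (.lp [k4,k2,k2,k2,k2,k2] [k0,k0,k1,k1,k1,k1,k1,k1,k1,k1,k1,k1] k0 [] k8 k5
    [[(k9,k3),(k10,k3)],[(k3,k3),(k7,k3)],[(k4,k2),(k0,k3)],[(k11,k2)],[(k8,k2)],[(k3,k2),(k7,k2)],[(k4,k2),(k0,k3)],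
    [(k9,k2),(k10,k2)],[(k6,k2),(k1,k3)],[(k5,k2)],[(k2,k2)],[(k6,k2),(k1,k3)]]
    [] k0
    [[k0,k0,k1,k1,k1,k0]]
    [.ref k0 k0 [(z1,[y1,z1])]])]⟩

/-- classes `0 1 0 2 1 2`, types `C0 N0 C0 C0 N2 C0` -/
noncomputable def cU6_2100 : CertX :=
  ⟨[k4,k28,k4,k36,k30,k36],[(false,k0,[k0,k1,k2,k3,k4,k5])],[[[([z1,z0,z0,z1,z0,z0],z2)],[]]],
    [.old (.leafM k6 [k2,k4,k5,k1] [] [(k3,k0,z1,[z1]),(k0,k3,z1,[z1])]),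
    .old (.lp [k2,k0,k2,k0,k2,k0] [k0,k0,k1,k1,k0,k0,k1,k1,k0,k0,k1,k1] k0 [] k4 k5
    [[(k6,k1),(k10,k1)],[(k3,k1),(k7,k1)],[(k0,k1),(k4,k1)],[(k8,k1)],[(k11,k1)],[(k3,k1),(k7,k1)],[(k0,k1),(k4,k1)],
    [(k1,k1),(k9,k1)],[(k6,k1),(k10,k1)],[(k2,k1)],[(k5,k1)],[(k1,k1),(k9,k1)]]
    [] k0
    [[k1,k0,k0,k1,k0,k0]]
    [.ref k0 k0 [(z1,[z1])]])]⟩

/-- classes `0 1 0 2 1 2`, types `C0 N0 C0 C0 N2 C2` -/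
noncomputable def cU6_2101 : CertX :=
  ⟨[k4,k28,k4,k36,k30,k38],[(false,k0,[k0,k1,k2,k3,k4,k5])],[[[([z1,z1,z0,z0,z1,z0],z2)],[]]],
    [.old (.leafM k3 [k3,k4,k5,k0,k1,k2] [(z1,[z1])] []),
    .old (.lp [k4,k2,k2,k2,k2,k2] [k0,k0,k1,k1,k1,k1,k1,k1,k1,k1,k1,k1] k0 [] k8 k5
    [[(k9,k3),(k10,k3)],[(k3,k3),(k7,k3)],[(k4,k2),(k0,k3)],[(k8,k2)],[(k11,k2)],[(k3,k2),(k7,k2)],[(k4,k2),(k0,k3)],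
    [(k9,k2),(k10,k2)],[(k6,k2),(k1,k3)],[(k2,k2)],[(k5,k2)],[(k6,k2),(k1,k3)]]
    [] k0
    [[k0,k0,k1,k1,k0,k1]]
    [.ref k0 k0 [(z1,[y1,z1])]])]⟩

/-- classes `0 1 0 2 1 2`, types `C0 N0 C0 N0 N1 N1` -/
noncomputable def cU6_2102 : CertX :=
  ⟨[k4,k28,k4,k44,k29,k45],[(false,k0,[k0,k1,k2,k3,k4,k5])],[[[([z1,z0,z0,z1,z0,z0],z2)],[]]],
    [.old (.leafM k5 [k1,k2,k4,k5] [] [(k3,k0,z1,[z1]),(k0,k3,z1,[z1])]),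
    .old (.lp [k0,k2,k0,k2,k2,k0] [k1,k1,k0,k0,k1,k1,k0,k0,k0,k0,k1,k1] k0 [] k4 k5
    [[(k6,k1)],[(k3,k1),(k7,k1)],[(k0,k1),(k4,k1)],[(k11,k1)],[(k8,k1)],[(k3,k1),(k7,k1)],[(k0,k1),(k4,k1)],[(k1,k1)],
    [(k10,k1)],[(k5,k1)],[(k2,k1)],[(k9,k1)]]
    [] k0
    [[k1,k0,k0,k1,k0,k0]]
    [.ref k0 k0 [(z1,[z1])]])]⟩

/-- classes `0 1 0 2 1 2`, types `C0 N0 C0 N0 N1 N2` -/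
noncomputable def cU6_2103 : CertX :=
  ⟨[k4,k28,k4,k44,k29,k46],[],[[[]]],
    [.old (.lp [k0,k2,k0,k2,k2,k0] [k1,k1,k0,k0,k1,k1,k0,k0,k0,k0,k1,k1] k0 [] k4 k5
    [[(k9,k1)],[(k3,k1),(k7,k1)],[(k0,k1),(k4,k1)],[(k11,k1)],[(k8,k1)],[(k3,k1),(k7,k1)],[(k0,k1),(k4,k1)],[(k10,
    k1)],[(k1,k1)],[(k5,k1)],[(k2,k1)],[(k6,k1)]]
    [] k0
    []
    [])]⟩

/-- classes `0 1 0 2 1 2`, types `C0 N0 C0 N0 N2 N1` -/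
noncomputable def cU6_2104 : CertX :=
  ⟨[k4,k28,k4,k44,k30,k45],[(false,k0,[k0,k1,k2,k3,k4,k5])],[[[([z1,z0,z0,z1,z0,z0],z2)],[]]],
    [.old (.leafM k6 [k2,k4,k5,k1] [] [(k3,k0,z1,[z1]),(k0,k3,z1,[z1])]),
    .old (.lp [k2,k0,k2,k0,k2,k0] [k0,k0,k1,k1,k0,k0,k1,k1,k0,k0,k1,k1] k0 [] k4 k5
    [[(k6,k1)],[(k3,k1),(k7,k1)],[(k0,k1),(k4,k1)],[(k8,k1)],[(k11,k1)],[(k3,k1),(k7,k1)],[(k0,k1),(k4,k1)],[(k1,k1)],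
    [(k10,k1)],[(k2,k1)],[(k5,k1)],[(k9,k1)]]
    [] k0
    [[k1,k0,k0,k1,k0,k0]]
    [.ref k0 k0 [(z1,[z1])]])]⟩

/-- classes `0 1 0 2 1 2`, types `C0 N0 C0 N0 N2 N2` -/
noncomputable def cU6_2105 : CertX :=
  ⟨[k4,k28,k4,k44,k30,k46],[(false,k0,[k0,k1,k2,k3,k4,k5])],[[[([z1,z1,z0,z0,z1,z0],z2)],[]]],
    [.old (.leafM k3 [k3,k4,k5,k0,k1,k2] [(z1,[z1])] []),
    .old (.lp [k4,k2,k2,k2,k2,k2] [k0,k0,k1,k1,k1,k1,k1,k1,k1,k1,k1,k1] k0 [] k8 k5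
    [[(k9,k3)],[(k3,k3),(k7,k3)],[(k4,k2),(k0,k3)],[(k8,k2)],[(k11,k2)],[(k3,k2),(k7,k2)],[(k4,k2),(k0,k3)],[(k10,
    k2)],[(k1,k3)],[(k2,k2)],[(k5,k2)],[(k6,k2)]]
    [] k0
    [[k0,k0,k1,k1,k0,k1]]
    [.ref k0 k0 [(z1,[y1,z1])]])]⟩

/-- classes `0 1 0 2 1 2`, types `C0 N0 C0 S0 N1 S0` -/
noncomputable def cU6_2106 : CertX :=
  ⟨[k4,k28,k4,k32,k29,k32],[(false,k0,[k0,k1,k2,k3,k4,k5])],[[[([z1,z1,z0,z0,z0,z1],z2)],[([z1,z0,z0,z1,z0,z0],z2)],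
    []]],
    [.old (.leafM k0 [k1,k2,k3,k4,k5,k0] [(z1,[y1,z1])] []),
    .old (.leafM k5 [k1,k2,k4,k5] [] [(k3,k0,z1,[z1]),(k0,k3,z1,[z1])]),
    .old (.lp [k4,k2,k2,k2,k2,k2] [k0,k0,k1,k1,k1,k1,k1,k1,k1,k1,k1,k1] k0 [] k8 k5
    [[(k6,k3),(k9,k3),(k10,k3),(k1,k4)],[(k3,k3),(k7,k3)],[(k4,k2),(k0,k3)],[(k11,k2)],[(k8,k2)],[(k3,k2),(k7,k2)],
    [(k4,k2),(k0,k3)],[(k6,k2),(k9,k2),(k10,k2),(k1,k3)],[(k6,k2),(k9,k2),(k10,k2),(k1,k3)],[(k5,k2)],[(k2,k2)],[(k6,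
    k2),(k9,k2),(k10,k2),(k1,k3)]]
    [] k0
    [[k1,k0,k0,k1,k0,k0],[k0,k0,k1,k1,k1,k0]]
    [.ref k1 k0 [(z1,[z1])],.ref k0 k0 [(z1,[y1,z1])]])]⟩

/-- classes `0 1 0 2 1 2`, types `C0 N0 C0 S0 N2 S0` -/
noncomputable def cU6_2107 : CertX :=
  ⟨[k4,k28,k4,k32,k30,k32],[(false,k0,[k0,k1,k2,k3,k4,k5])],[[[([z1,z0,z0,z1,z0,z0],z2)],[([z1,z1,z0,z0,z1,z0],z2)],
    []]],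
    [.old (.leafM k6 [k2,k4,k5,k1] [] [(k3,k0,z1,[z1]),(k0,k3,z1,[z1])]),
    .old (.leafM k3 [k3,k4,k5,k0,k1,k2] [(z1,[z1])] []),
    .old (.lp [k2,k2,k2,k2,k2,k4] [k1,k1,k1,k1,k1,k1,k1,k1,k1,k1,k0,k0] k0 [] k8 k5
    [[(k1,k2),(k6,k2),(k9,k2),(k10,k3)],[(k3,k2),(k7,k2)],[(k0,k2),(k4,k2)],[(k8,k2)],[(k11,k3)],[(k3,k2),(k7,k2)],
    [(k0,k2),(k4,k2)],[(k1,k2),(k6,k2),(k9,k2),(k10,k3)],[(k1,k2),(k6,k2),(k9,k2),(k10,k3)],[(k2,k2)],[(k5,k3)],[(k1,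
    k3),(k6,k3),(k9,k3),(k10,k4)]]
    [] k0
    [[k1,k0,k0,k1,k0,k0],[k1,k1,k0,k0,k1,k0]]
    [.ref k0 k0 [(z1,[z1])],.ref k1 k0 [(z1,[z1])]])]⟩

/-- classes `0 1 0 2 1 2`, types `C0 N0 C2 C0 N1 C2` -/
noncomputable def cU6_2108 : CertX :=
  ⟨[k4,k28,k6,k36,k29,k38],[(false,k0,[k0,k1,k2,k3,k4,k5])],[[[([z1,z1,z0,z0,z0,z1],z2)],[([z1,z0,z1,z0,z1,z0],z2)],
    []]],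
    [.old (.leafM k0 [k1,k2,k3,k4,k5,k0] [(z1,[y1,z1])] []),
    .old (.leafM k5 [k0,k1,k2,k3,k4,k5] [(z1,[y1,z1]),(z1,[z1])] []),
    .old (.lp [k4,k2,k2,k2,k2,k2] [k0,k0,k1,k1,k1,k1,k1,k1,k1,k1,k1,k1] k0 [] k8 k5
    [[(k9,k3),(k10,k3)],[(k3,k3),(k4,k3)],[(k7,k2),(k0,k3)],[(k11,k2)],[(k8,k2)],[(k7,k2),(k0,k3)],[(k3,k2),(k4,k2)],
    [(k9,k2),(k10,k2)],[(k6,k2),(k1,k3)],[(k5,k2)],[(k2,k2)],[(k6,k2),(k1,k3)]]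
    [] k0
    [[k0,k1,k0,k1,k0,k1],[k0,k0,k1,k1,k1,k0]]
    [.ref k1 k0 [(z1,[y1,z1])],.ref k0 k0 [(z1,[y1,z1])]])]⟩

/-- classes `0 1 0 2 1 2`, types `C0 N0 C2 C0 N2 C2` -/
noncomputable def cU6_2109 : CertX :=
  ⟨[k4,k28,k6,k36,k30,k38],[(false,k3,[k3,k4,k5,k0,k1,k2]),(false,k0,[k0,k1,k2,k3,k4,k5])],[[[([z1,z0,z1,z0,z0,z1],
    z2)],[]]],
    [.old (.leafM k3 [k0,k1,k2,k3,k4,k5] [(z1,[y1,z1])] []),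
    .old (.lp [k2,k2,k2,k2,k2,k4] [k1,k1,k1,k1,k1,k1,k1,k1,k1,k1,k0,k0] k0 [] k8 k5
    [[(k9,k2),(k10,k3)],[(k3,k2),(k4,k2)],[(k0,k2),(k7,k2)],[(k8,k2)],[(k11,k3)],[(k0,k2),(k7,k2)],[(k3,k2),(k4,k2)],
    [(k9,k2),(k10,k3)],[(k1,k2),(k6,k2)],[(k2,k2)],[(k5,k3)],[(k1,k3),(k6,k3)]]
    [] k0
    [[k1,k1,k0,k0,k1,k0],[k0,k1,k0,k1,k1,k0]]
    [.ref k0 k0 [(z1,[y1,z1])],.ref k0 k1 [(z1,[y1,z1])]])]⟩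

/-- classes `0 1 0 2 1 2`, types `C0 N0 C2 N0 N1 N1` -/
noncomputable def cU6_2110 : CertX :=
  ⟨[k4,k28,k6,k44,k29,k45],[],[[[]]],
    [.old (.lp [k2,k2,k2,k2,k2,k2] [k0,k0,k0,k0,k0,k0,k0,k0,k0,k0,k0,k0] k0 [] k8 k5
    [[(k6,k2)],[(k3,k2),(k4,k2)],[(k0,k2),(k7,k2)],[(k11,k2)],[(k8,k2)],[(k0,k2),(k7,k2)],[(k3,k2),(k4,k2)],[(k1,k2)],
    [(k10,k2)],[(k5,k2)],[(k2,k2)],[(k9,k2)]]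
    [] k0
    []
    [])]⟩

/-- classes `0 1 0 2 1 2`, types `C0 N0 C2 N0 N1 N2` -/
noncomputable def cU6_2111 : CertX :=
  ⟨[k4,k28,k6,k44,k29,k46],[(false,k0,[k0,k1,k2,k3,k4,k5])],[[[([z1,z0,z1,z0,z1,z0],z2)],[]]],
    [.old (.leafM k5 [k0,k1,k2,k3,k4,k5] [(z1,[y1,z1]),(z1,[z1])] []),
    .old (.lp [k4,k2,k2,k2,k2,k2] [k0,k0,k1,k1,k1,k1,k1,k1,k1,k1,k1,k1] k0 [] k8 k5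
    [[(k9,k3)],[(k3,k3),(k4,k3)],[(k7,k2),(k0,k3)],[(k11,k2)],[(k8,k2)],[(k7,k2),(k0,k3)],[(k3,k2),(k4,k2)],[(k10,
    k2)],[(k1,k3)],[(k5,k2)],[(k2,k2)],[(k6,k2)]]
    [] k0
    [[k0,k1,k0,k1,k0,k1]]
    [.ref k0 k0 [(z1,[y1,z1])]])]⟩

/-- classes `0 1 0 2 1 2`, types `C0 N0 C2 N0 N2 N1` -/
noncomputable def cU6_2112 : CertX :=
  ⟨[k4,k28,k6,k44,k30,k45],[],[[[]]],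
    [.old (.lp [k2,k2,k2,k2,k2,k2] [k0,k0,k0,k0,k0,k0,k0,k0,k0,k0,k0,k0] k0 [] k8 k5
    [[(k6,k2)],[(k3,k2),(k4,k2)],[(k0,k2),(k7,k2)],[(k8,k2)],[(k11,k2)],[(k0,k2),(k7,k2)],[(k3,k2),(k4,k2)],[(k1,k2)],
    [(k10,k2)],[(k2,k2)],[(k5,k2)],[(k9,k2)]]
    [] k0
    []
    [])]⟩

/-- classes `0 1 0 2 1 2`, types `C0 N0 C2 N0 N2 N2` -/
noncomputable def cU6_2113 : CertX :=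
  ⟨[k4,k28,k6,k44,k30,k46],[(false,k0,[k0,k1,k2,k3,k4,k5])],[[[([z1,z1,z0,z0,z1,z0],z2)],[]]],
    [.old (.leafM k3 [k3,k4,k5,k0,k1,k2] [(z1,[z1])] []),
    .old (.lp [k4,k2,k2,k2,k2,k2] [k0,k0,k1,k1,k1,k1,k1,k1,k1,k1,k1,k1] k0 [] k8 k5
    [[(k9,k3)],[(k3,k3),(k4,k3)],[(k7,k2),(k0,k3)],[(k8,k2)],[(k11,k2)],[(k7,k2),(k0,k3)],[(k3,k2),(k4,k2)],[(k10,
    k2)],[(k1,k3)],[(k2,k2)],[(k5,k2)],[(k6,k2)]]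
    [] k0
    [[k0,k0,k1,k1,k0,k1]]
    [.ref k0 k0 [(z1,[y1,z1])]])]⟩

/-- classes `0 1 0 2 1 2`, types `C0 N0 C2 S0 N1 S0` -/
noncomputable def cU6_2114 : CertX :=
  ⟨[k4,k28,k6,k32,k29,k32],[(false,k0,[k0,k1,k2,k3,k4,k5])],[[[([z1,z0,z1,z0,z1,z0],z2)],[([z1,z1,z0,z0,z0,z1],z2)],
    []]],
    [.old (.leafM k5 [k0,k1,k2,k3,k4,k5] [(z1,[y1,z1]),(z1,[z1])] []),
    .old (.leafM k0 [k1,k2,k3,k4,k5,k0] [(z1,[y1,z1])] []),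
    .old (.lp [k2,k2,k2,k4,k2,k2] [k1,k1,k1,k1,k1,k1,k0,k0,k1,k1,k1,k1] k0 [] k8 k5
    [[(k1,k2),(k9,k2),(k10,k2),(k6,k3)],[(k3,k2),(k4,k2)],[(k0,k2),(k7,k3)],[(k11,k2)],[(k8,k2)],[(k0,k2),(k7,k3)],
    [(k3,k3),(k4,k3)],[(k1,k3),(k9,k3),(k10,k3),(k6,k4)],[(k1,k2),(k9,k2),(k10,k2),(k6,k3)],[(k5,k2)],[(k2,k2)],[(k1,
    k2),(k9,k2),(k10,k2),(k6,k3)]]
    [] k0
    [[k1,k0,k1,k0,k1,k0],[k1,k1,k0,k0,k0,k1]]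
    [.ref k0 k0 [(z1,[z1])],.ref k1 k0 [(z1,[z1])]])]⟩

/-- classes `0 1 0 2 1 2`, types `C0 N0 C2 S0 N2 S0` -/
noncomputable def cU6_2115 : CertX :=
  ⟨[k4,k28,k6,k32,k30,k32],[(false,k0,[k0,k1,k2,k3,k4,k5])],[[[([z1,z0,z1,z0,z0,z1],z2)],[([z1,z1,z0,z0,z1,z0],z2)],
    []]],
    [.old (.leafM k3 [k0,k1,k2,k3,k4,k5] [(z1,[y1,z1])] []),
    .old (.leafM k3 [k3,k4,k5,k0,k1,k2] [(z1,[z1])] []),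
    .old (.lp [k2,k2,k2,k2,k2,k4] [k1,k1,k1,k1,k1,k1,k1,k1,k1,k1,k0,k0] k0 [] k8 k5
    [[(k1,k2),(k6,k2),(k9,k2),(k10,k3)],[(k3,k2),(k4,k2)],[(k0,k2),(k7,k2)],[(k8,k2)],[(k11,k3)],[(k0,k2),(k7,k2)],
    [(k3,k2),(k4,k2)],[(k1,k2),(k6,k2),(k9,k2),(k10,k3)],[(k1,k2),(k6,k2),(k9,k2),(k10,k3)],[(k2,k2)],[(k5,k3)],[(k1,
    k3),(k6,k3),(k9,k3),(k10,k4)]]
    [] k0
    [[k1,k1,k0,k0,k1,k0],[k0,k1,k0,k1,k1,k0]]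
    [.ref k1 k0 [(z1,[z1])],.ref k0 k0 [(z1,[y1,z1])]])]⟩

/-- classes `0 1 0 2 1 2`, types `C0 S0 C0 C0 S0 C0` -/
noncomputable def cU6_2116 : CertX :=
  ⟨[k4,k16,k4,k36,k16,k36],[(false,k0,[k0,k1,k2,k3,k4,k5]),(false,k3,[k3,k4,k5,k0,k1,k2])],[[[([z1,z0,z0,z1,z1,z1],
    z2)],[([z1,z1,z0,z0,z0,z1],z2)],[([z1,z0,z0,z1,z0,z0],z2)],[]]],
    [.old (.leafM k0 [k0,k3,k4,k5] [] [(k1,k2,z1,[y1,z1]),(k2,k1,z1,[y1,z1])]),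
    .old (.leafM k0 [k1,k2,k3,k4,k5,k0] [(z1,[y1,z1])] []),
    .old (.leafM k5 [k1,k2,k4,k5] [] [(k3,k0,z1,[z1]),(k0,k3,z1,[z1])]),
    .old (.lp [k4,k2,k2,k2,k2,k2] [k0,k0,k1,k1,k1,k1,k1,k1,k1,k1,k1,k1] k0 [] k8 k5
    [[(k6,k3),(k10,k3)],[(k3,k3),(k7,k3)],[(k4,k2),(k0,k3)],[(k2,k2),(k5,k2),(k8,k2),(k11,k2)],[(k2,k2),(k5,k2),(k8,
    k2),(k11,k2)],[(k3,k2),(k7,k2)],[(k4,k2),(k0,k3)],[(k9,k2),(k1,k3)],[(k6,k2),(k10,k2)],[(k2,k2),(k5,k2),(k8,k2),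
    (k11,k2)],[(k2,k2),(k5,k2),(k8,k2),(k11,k2)],[(k9,k2),(k1,k3)]]
    [] k0
    [[k1,k0,k0,k1,k0,k0],[k0,k1,k1,k0,k0,k0],[k0,k0,k1,k1,k1,k0],[k0,k0,k0,k0,k1,k1]]
    [.ref k2 k0 [(z1,[z1])],.ref k0 k0 [(z1,[y1,z1])],.ref k1 k0 [(z1,[y1,z1])],.ref k0 k1 [(z1,[y1,z1])]])]⟩

/-- classes `0 1 0 2 1 2`, types `C0 S0 C0 C0 S0 C2` -/
noncomputable def cU6_2117 : CertX :=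
  ⟨[k4,k16,k4,k36,k16,k38],[(false,k0,[k0,k1,k2,k3,k4,k5])],[[[([z1,z1,z0,z0,z1,z0],z2)],[([z1,z1,z0,z0,z0,z1],z2)],
    [([z1,z0,z0,z1,z1,z1],z2)],[]]],
    [.old (.leafM k3 [k3,k4,k5,k0,k1,k2] [(z1,[z1])] []),
    .old (.leafM k0 [k1,k2,k3,k4,k5,k0] [(z1,[y1,z1])] []),
    .old (.leafM k0 [k0,k3,k4,k5] [] [(k1,k2,z1,[y1,z1]),(k2,k1,z1,[y1,z1])]),
    .old (.lp [k4,k2,k2,k2,k2,k2] [k0,k0,k1,k1,k1,k1,k1,k1,k1,k1,k1,k1] k0 [] k8 k5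
    [[(k9,k3),(k10,k3)],[(k3,k3),(k7,k3)],[(k4,k2),(k0,k3)],[(k2,k2),(k5,k2),(k8,k2),(k11,k2)],[(k2,k2),(k5,k2),(k8,
    k2),(k11,k2)],[(k3,k2),(k7,k2)],[(k4,k2),(k0,k3)],[(k9,k2),(k10,k2)],[(k6,k2),(k1,k3)],[(k2,k2),(k5,k2),(k8,k2),
    (k11,k2)],[(k2,k2),(k5,k2),(k8,k2),(k11,k2)],[(k6,k2),(k1,k3)]]
    [] k0
    [[k0,k1,k1,k0,k0,k0],[k0,k0,k1,k1,k1,k0],[k0,k0,k1,k1,k0,k1]]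
    [.ref k2 k0 [(z1,[y1,z1])],.ref k1 k0 [(z1,[y1,z1])],.ref k0 k0 [(z1,[y1,z1])]])]⟩

/-- classes `0 1 0 2 1 2`, types `C0 S0 C0 N0 S0 N1` -/
noncomputable def cU6_2118 : CertX :=
  ⟨[k4,k16,k4,k44,k16,k45],[(false,k0,[k0,k1,k2,k3,k4,k5])],[[[([z1,z1,z1,z1,z0,z0],z2)],[([z1,z0,z0,z1,z0,z0],z2)],
    [([z1,z0,z0,z1,z0,z0],z1),([z0,z1,z1,z0,z0,z0],z2)],[([z1,z0,z0,z1,z1,z1],z2)],[]]],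
    [.old (.leafM k0 [k0,k1,k2,k3] [] [(k4,k5,z1,[y1,z1]),(k5,k4,z1,[y1,z1])]),
    .old (.leafM k5 [k1,k2,k4,k5] [] [(k3,k0,z1,[z1]),(k0,k3,z1,[z1])]),
    .old (.leafM k4 [k3,k4,k5,k0] [(z1,[y1,y1,z1])] [(k1,k2,z1,[z0,z1]),(k2,k1,z1,[z0,z1])]),
    .old (.lp [k10,k12,k8,k0,k4,k4] [k1,k1,k0,k0,k2,k2,k6,k6,k4,k4,k4,k4] k0 [] k20 k6
    [[(k6,k5)],[(k7,k5),(k3,k11)],[(k4,k10),(k0,k11)],[(k8,k8),(k11,k8),(k5,k10),(k2,k12)],[(k8,k6),(k11,k6),(k5,k8),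
    (k2,k10)],[(k7,k4),(k3,k10)],[(k4,k4),(k0,k5)],[(k1,k5)],[(k10,k4)],[(k8,k4),(k11,k4),(k5,k6),(k2,k8)],[(k8,k4),
    (k11,k4),(k5,k6),(k2,k8)],[(k9,k4)]]
    [] k0
    [[k1,k0,k0,k1,k0,k0],[k0,k0,k0,k0,k1,k1],[k0,k0,k0,k0,k2,k2]]
    [.contra [y1,z1],.contra [y1,z1],.ref k2 k0 [(z2,[y1,z2]),(z1,[z0,y1,z1])]]),
    .old (.lp [k2,k2,k2,k2,k2,k2] [k0,k0,k0,k0,k0,k0,k0,k0,k0,k0,k0,k0] k0 [] k8 k5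
    [[(k6,k2)],[(k3,k2),(k7,k2)],[(k0,k2),(k4,k2)],[(k2,k2),(k5,k2),(k8,k2),(k11,k2)],[(k2,k2),(k5,k2),(k8,k2),(k11,
    k2)],[(k3,k2),(k7,k2)],[(k0,k2),(k4,k2)],[(k1,k2)],[(k10,k2)],[(k2,k2),(k5,k2),(k8,k2),(k11,k2)],[(k2,k2),(k5,k2),
    (k8,k2),(k11,k2)],[(k9,k2)]]
    [] k0
    [[k1,k0,k0,k1,k0,k0],[k0,k1,k1,k0,k0,k0],[k0,k0,k0,k0,k1,k1]]
    [.ref k1 k0 [(z1,[z1])],.ref k3 k0 [(z1,[y1,z1])],.ref k0 k0 [(z1,[y1,z1])]])]⟩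

/-- classes `0 1 0 2 1 2`, types `C0 S0 C0 N0 S0 N2` -/
noncomputable def cU6_2119 : CertX :=
  ⟨[k4,k16,k4,k44,k16,k46],[(false,k0,[k0,k1,k2,k3,k4,k5])],[[[([z1,z1,z0,z0,z1,z0],z2)],[([z1,z0,z0,z1,z1,z1],z2)],
    []]],
    [.old (.leafM k3 [k3,k4,k5,k0,k1,k2] [(z1,[z1])] []),
    .old (.leafM k2 [k0,k3,k4,k5] [] [(k1,k2,z1,[y1,z1]),(k2,k1,z1,[y1,z1])]),
    .old (.lp [k4,k2,k2,k2,k2,k2] [k0,k0,k1,k1,k1,k1,k1,k1,k1,k1,k1,k1] k0 [] k8 k5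
    [[(k9,k3)],[(k3,k3),(k7,k3)],[(k4,k2),(k0,k3)],[(k2,k2),(k5,k2),(k8,k2),(k11,k2)],[(k2,k2),(k5,k2),(k8,k2),(k11,
    k2)],[(k3,k2),(k7,k2)],[(k4,k2),(k0,k3)],[(k10,k2)],[(k1,k3)],[(k2,k2),(k5,k2),(k8,k2),(k11,k2)],[(k2,k2),(k5,k2),
    (k8,k2),(k11,k2)],[(k6,k2)]]
    [] k0
    [[k0,k1,k1,k0,k0,k0],[k0,k0,k1,k1,k0,k1]]
    [.ref k1 k0 [(z1,[y1,z1])],.ref k0 k0 [(z1,[y1,z1])]])]⟩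

/-- classes `0 1 0 2 1 2`, types `C0 S0 C0 S0 S0 S0` -/
noncomputable def cU6_2120 : CertX :=
  ⟨[k4,k16,k4,k32,k16,k32],[(false,k0,[k0,k1,k2,k3,k4,k5])],[[[([z1,z1,z1,z1,z0,z0],z2)],[([z1,z0,z0,z1,z1,z1],z2)],
    [([z1,z0,z0,z1,z0,z0],z2)],[([z1,z1,z0,z0,z0,z1],z2)],[([z1,z1,z0,z0,z1,z0],z2)],[]]],
    [.old (.leafM k0 [k0,k1,k2,k3] [] [(k4,k5,z1,[y1,z1]),(k5,k4,z1,[y1,z1])]),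
    .old (.leafM k0 [k0,k3,k4,k5] [] [(k1,k2,z1,[y1,z1]),(k2,k1,z1,[y1,z1])]),
    .old (.leafM k5 [k1,k2,k4,k5] [] [(k3,k0,z1,[z1]),(k0,k3,z1,[z1])]),
    .old (.leafM k0 [k1,k2,k3,k4,k5,k0] [(z1,[y1,z1])] []),
    .old (.leafM k3 [k3,k4,k5,k0,k1,k2] [(z1,[z1])] []),
    .old (.lp [k6,k6,k6,k6,k8,k12] [k5,k5,k5,k5,k5,k5,k5,k5,k4,k4,k4,k0] k0 [[],[],[k0,k0,k0,k0,k0,k0,k0,k0,k4],[],[],[],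
    [],[],[],[k0,k0,k0,k4]] k24 k5
    [[(k1,k6),(k6,k6),(k9,k7),(k10,k7)],[(k3,k6),(k7,k6)],[(k0,k6),(k4,k6)],[(k2,k6),(k5,k6),(k8,k7),(k11,k7)],[(k2,
    k6),(k5,k6),(k8,k11),(k11,k11)],[(k3,k6),(k7,k6)],[(k0,k6),(k4,k6)],[(k1,k6),(k6,k6),(k9,k7),(k10,k7)],[(k1,k7),
    (k6,k7),(k9,k8),(k10,k8)],[(k2,k7),(k8,k8),(k5,k11),(k11,k12)],[(k2,k7),(k5,k11),(k8,k12),(k11,k16)],[(k1,k7),(k6,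
    k7),(k9,k8),(k10,k8)]]
    [] k0
    [[k1,k0,k0,k1,k0,k0],[k1,k1,k0,k0,k1,k0],[k1,k1,k0,k0,k0,k1],[k0,k1,k1,k0,k0,k0],[k0,k0,k0,k0,k2,k0],[k0,k0,k0,k0,
    k1,k1]]
    [.ref k2 k0 [(z1,[z1])],.ref k4 k0 [(z1,[z1])],.ref k3 k0 [(z1,[z1])],.ref k1 k0 [(z1,[y1,z1])],.contra [z1],
    .ref k0 k0 [(z1,[y1,z1])]])]⟩

/-- classes `0 1 0 2 1 2`, types `C0 S0 C2 C0 S0 C2` -/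
noncomputable def cU6_2121 : CertX :=
  ⟨[k4,k16,k6,k36,k16,k38],[(false,k0,[k0,k1,k2,k3,k4,k5]),(false,k3,[k3,k4,k5,k0,k1,k2])],[[[([z1,z0,z1,z0,z0,z1],
    z2)],[([z1,z0,z1,z0,z1,z0],z2)],[([z1,z1,z0,z0,z0,z1],z2)],[]]],
    [.old (.leafM k3 [k0,k1,k2,k3,k4,k5] [(z1,[y1,z1])] []),
    .old (.leafM k5 [k0,k1,k2,k3,k4,k5] [(z1,[y1,z1]),(z1,[z1])] []),
    .old (.leafM k0 [k1,k2,k3,k4,k5,k0] [(z1,[y1,z1])] []),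
    .old (.lp [k6,k4,k6,k4,k6,k4] [k0,k0,k1,k1,k0,k0,k1,k1,k0,k0,k1,k1] k0 [] k16 k5
    [[(k10,k5),(k9,k6)],[(k3,k5),(k4,k6)],[(k7,k4),(k0,k5)],[(k2,k4),(k11,k4),(k5,k5),(k8,k5)],[(k2,k5),(k11,k5),(k5,
    k6),(k8,k6)],[(k7,k5),(k0,k6)],[(k3,k4),(k4,k5)],[(k10,k4),(k9,k5)],[(k6,k5),(k1,k6)],[(k2,k5),(k11,k5),(k5,k6),
    (k8,k6)],[(k2,k4),(k11,k4),(k5,k5),(k8,k5)],[(k6,k4),(k1,k5)]]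
    [] k0
    [[k1,k1,k0,k0,k0,k1],[k0,k1,k0,k1,k1,k0],[k0,k1,k0,k1,k0,k1],[k0,k0,k1,k1,k0,k1]]
    [.ref k2 k0 [(z1,[z1])],.ref k0 k0 [(z1,[y1,z1])],.ref k1 k0 [(z1,[y1,z1])],.ref k0 k1 [(z1,[z1])]])]⟩

/-- classes `0 1 0 2 1 2`, types `C0 S0 C2 N0 S0 N1` -/
noncomputable def cU6_2122 : CertX :=
  ⟨[k4,k16,k6,k44,k16,k45],[(false,k0,[k0,k1,k2,k3,k4,k5])],[[[([z1,z1,z1,z1,z0,z0],z2)],[]]],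
    [.old (.leafM k0 [k0,k1,k2,k3] [] [(k4,k5,z1,[y1,z1]),(k5,k4,z1,[y1,z1])]),
    .old (.lp [k2,k2,k2,k2,k2,k2] [k0,k0,k0,k0,k0,k0,k0,k0,k0,k0,k0,k0] k0 [] k8 k5
    [[(k6,k2)],[(k3,k2),(k4,k2)],[(k0,k2),(k7,k2)],[(k2,k2),(k5,k2),(k8,k2),(k11,k2)],[(k2,k2),(k5,k2),(k8,k2),(k11,
    k2)],[(k0,k2),(k7,k2)],[(k3,k2),(k4,k2)],[(k1,k2)],[(k10,k2)],[(k2,k2),(k5,k2),(k8,k2),(k11,k2)],[(k2,k2),(k5,k2),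
    (k8,k2),(k11,k2)],[(k9,k2)]]
    [] k0
    [[k0,k0,k0,k0,k1,k1]]
    [.ref k0 k0 [(z1,[y1,z1])]])]⟩

/-- classes `0 1 0 2 1 2`, types `C0 S0 C2 N0 S0 N2` -/
noncomputable def cU6_2123 : CertX :=
  ⟨[k4,k16,k6,k44,k16,k46],[(false,k0,[k0,k1,k2,k3,k4,k5])],[[[([z1,z1,z0,z0,z1,z0],z2)],[([z1,z0,z1,z0,z1,z0],z2)],
    []]],
    [.old (.leafM k3 [k3,k4,k5,k0,k1,k2] [(z1,[z1])] []),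
    .old (.leafM k5 [k0,k1,k2,k3,k4,k5] [(z1,[y1,z1]),(z1,[z1])] []),
    .old (.lp [k4,k2,k2,k2,k2,k2] [k0,k0,k1,k1,k1,k1,k1,k1,k1,k1,k1,k1] k0 [] k8 k5
    [[(k9,k3)],[(k3,k3),(k4,k3)],[(k7,k2),(k0,k3)],[(k2,k2),(k5,k2),(k8,k2),(k11,k2)],[(k2,k2),(k5,k2),(k8,k2),(k11,
    k2)],[(k7,k2),(k0,k3)],[(k3,k2),(k4,k2)],[(k10,k2)],[(k1,k3)],[(k2,k2),(k5,k2),(k8,k2),(k11,k2)],[(k2,k2),(k5,k2),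
    (k8,k2),(k11,k2)],[(k6,k2)]]
    [] k0
    [[k0,k1,k0,k1,k0,k1],[k0,k0,k1,k1,k0,k1]]
    [.ref k1 k0 [(z1,[y1,z1])],.ref k0 k0 [(z1,[y1,z1])]])]⟩

/-- classes `0 1 0 2 1 2`, types `C0 S0 C2 S0 S0 S0` -/
noncomputable def cU6_2124 : CertX :=
  ⟨[k4,k16,k6,k32,k16,k32],[(false,k0,[k0,k1,k2,k3,k4,k5])],[[[([z1,z1,z1,z1,z0,z0],z2)],[([z1,z1,z0,z0,z0,z1],z2)],
    [([z1,z0,z1,z0,z0,z1],z2)],[([z1,z0,z1,z0,z1,z0],z2)],[([z1,z1,z0,z0,z1,z0],z2)],[]]],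
    [.old (.leafM k0 [k0,k1,k2,k3] [] [(k4,k5,z1,[y1,z1]),(k5,k4,z1,[y1,z1])]),
    .old (.leafM k0 [k1,k2,k3,k4,k5,k0] [(z1,[y1,z1])] []),
    .old (.leafM k3 [k0,k1,k2,k3,k4,k5] [(z1,[y1,z1])] []),
    .old (.leafM k5 [k0,k1,k2,k3,k4,k5] [(z1,[y1,z1]),(z1,[z1])] []),
    .old (.leafM k3 [k3,k4,k5,k0,k1,k2] [(z1,[z1])] []),
    .old (.lp [k2,k2,k2,k2,k2,k4] [k1,k1,k1,k1,k1,k1,k1,k1,k1,k1,k0,k0] k0 [] k8 k5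
    [[(k1,k2),(k6,k2),(k9,k2),(k10,k3)],[(k3,k2),(k4,k2)],[(k0,k2),(k7,k2)],[(k2,k2),(k5,k2),(k8,k2),(k11,k3)],[(k2,
    k2),(k5,k2),(k8,k2),(k11,k3)],[(k0,k2),(k7,k2)],[(k3,k2),(k4,k2)],[(k1,k2),(k6,k2),(k9,k2),(k10,k3)],[(k1,k2),(k6,
    k2),(k9,k2),(k10,k3)],[(k2,k2),(k5,k2),(k8,k2),(k11,k3)],[(k2,k3),(k5,k3),(k8,k3),(k11,k4)],[(k1,k3),(k6,k3),(k9,
    k3),(k10,k4)]]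
    [] k0
    [[k1,k1,k0,k0,k1,k0],[k1,k0,k1,k0,k1,k0],[k0,k1,k0,k1,k1,k0],[k0,k0,k1,k1,k1,k0],[k0,k0,k0,k0,k2,k0],[k0,k0,k0,k0,
    k1,k1]]
    [.ref k4 k0 [(z1,[z1])],.ref k3 k0 [(z1,[z1])],.ref k2 k0 [(z1,[y1,z1])],.ref k1 k0 [(z1,[y1,z1])],.contra [z1],
    .ref k0 k0 [(z1,[y1,z1])]])]⟩

/-- classes `0 1 0 2 1 2`, types `N0 B0 N1 N0 B1 N1` -/
noncomputable def cU6_2125 : CertX :=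
  ⟨[k12,k24,k13,k44,k25,k45],[(false,k0,[k0,k1,k2,k3,k4,k5])],[[[([z1,z0,z0,z1,z0,z0],z2)],[]]],
    [.old (.leafM k5 [k1,k2,k4,k5] [] [(k3,k0,z1,[z1]),(k0,k3,z1,[z1])]),
    .old (.lp [k0,k2,k2,k4,k2,k2] [k2,k2,k1,k1,k1,k1,k0,k0,k1,k1,k1,k1] k0 [] k8 k5
    [[(k6,k2)],[(k7,k2)],[(k4,k2)],[(k8,k2),(k11,k2)],[(k8,k2),(k11,k2)],[(k3,k2)],[(k0,k2)],[(k1,k2)],[(k10,k2)],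
    [(k2,k2),(k5,k2)],[(k2,k2),(k5,k2)],[(k9,k2)]]
    [] k0
    [[k1,k0,k0,k1,k0,k0]]
    [.ref k0 k0 [(z1,[z1])]])]⟩

/-- classes `0 1 0 2 1 2`, types `N0 B0 N1 N0 B1 N2` -/
noncomputable def cU6_2126 : CertX :=
  ⟨[k12,k24,k13,k44,k25,k46],[],[[[]]],
    [.old (.lp [k2,k2,k2,k2,k2,k2] [k0,k0,k0,k0,k0,k0,k0,k0,k0,k0,k0,k0] k0 [] k8 k5
    [[(k9,k2)],[(k7,k2)],[(k4,k2)],[(k8,k2),(k11,k2)],[(k8,k2),(k11,k2)],[(k3,k2)],[(k0,k2)],[(k10,k2)],[(k1,k2)],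
    [(k2,k2),(k5,k2)],[(k2,k2),(k5,k2)],[(k6,k2)]]
    [] k0
    []
    [])]⟩

/-- classes `0 1 0 2 1 2`, types `N0 B0 N1 S0 B1 S0` -/
noncomputable def cU6_2127 : CertX :=
  ⟨[k12,k24,k13,k32,k25,k32],[(false,k0,[k0,k1,k2,k3,k4,k5])],[[[([z1,z0,z0,z1,z0,z0],z2)],[]]],
    [.old (.leafM k5 [k1,k2,k4,k5] [] [(k3,k0,z1,[z1]),(k0,k3,z1,[z1])]),
    .old (.lp [k2,k2,k2,k2,k2,k2] [k0,k0,k0,k0,k0,k0,k0,k0,k0,k0,k0,k0] k0 [] k8 k5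
    [[(k1,k2),(k6,k2),(k9,k2),(k10,k2)],[(k7,k2)],[(k4,k2)],[(k8,k2),(k11,k2)],[(k8,k2),(k11,k2)],[(k3,k2)],[(k0,k2)],
    [(k1,k2),(k6,k2),(k9,k2),(k10,k2)],[(k1,k2),(k6,k2),(k9,k2),(k10,k2)],[(k2,k2),(k5,k2)],[(k2,k2),(k5,k2)],[(k1,
    k2),(k6,k2),(k9,k2),(k10,k2)]]
    [] k0
    [[k1,k0,k0,k1,k0,k0]]
    [.ref k0 k0 [(z1,[z1])]])]⟩

/-- classes `0 1 0 2 1 2`, types `N0 B0 N2 N0 B1 N2` -/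
noncomputable def cU6_2128 : CertX :=
  ⟨[k12,k24,k14,k44,k25,k46],[(false,k0,[k0,k1,k2,k3,k4,k5])],[[[([z1,z0,z1,z0,z1,z0],z2)],[]]],
    [.old (.leafM k5 [k0,k1,k2,k3,k4,k5] [(z1,[y1,z1]),(z1,[z1])] []),
    .old (.lp [k2,k2,k2,k4,k2,k2] [k1,k1,k1,k1,k1,k1,k0,k0,k1,k1,k1,k1] k0 [] k8 k5
    [[(k9,k2)],[(k4,k2)],[(k7,k3)],[(k8,k2),(k11,k2)],[(k8,k2),(k11,k2)],[(k0,k2)],[(k3,k3)],[(k10,k3)],[(k1,k2)],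
    [(k2,k2),(k5,k2)],[(k2,k2),(k5,k2)],[(k6,k3)]]
    [] k0
    [[k1,k0,k1,k0,k1,k0]]
    [.ref k0 k0 [(z1,[z1])]])]⟩

/-- classes `0 1 0 2 1 2`, types `N0 B0 N2 S0 B1 S0` -/
noncomputable def cU6_2129 : CertX :=
  ⟨[k12,k24,k14,k32,k25,k32],[(false,k0,[k0,k1,k2,k3,k4,k5])],[[[([z1,z0,z1,z0,z1,z0],z2)],[([z1,z0,z1,z0,z0,z1],z2)],
    []]],
    [.old (.leafM k5 [k0,k1,k2,k3,k4,k5] [(z1,[y1,z1]),(z1,[z1])] []),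
    .old (.leafM k3 [k0,k1,k2,k3,k4,k5] [(z1,[y1,z1])] []),
    .old (.lp [k2,k2,k2,k2,k4,k2] [k1,k1,k1,k1,k1,k1,k1,k1,k0,k0,k1,k1] k0 [] k8 k5
    [[(k1,k2),(k6,k2),(k10,k2),(k9,k3)],[(k4,k2)],[(k7,k2)],[(k11,k2),(k8,k3)],[(k11,k2),(k8,k3)],[(k0,k2)],[(k3,k2)],
    [(k1,k2),(k6,k2),(k10,k2),(k9,k3)],[(k1,k3),(k6,k3),(k10,k3),(k9,k4)],[(k2,k3),(k5,k3)],[(k2,k2),(k5,k2)],[(k1,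
    k2),(k6,k2),(k10,k2),(k9,k3)]]
    [] k0
    [[k1,k0,k1,k0,k0,k1],[k0,k1,k0,k1,k0,k1]]
    [.ref k1 k0 [(z1,[z1])],.ref k0 k0 [(z1,[y1,z1])]])]⟩

/-- classes `0 1 0 2 1 2`, types `N0 C0 N1 N0 C0 N1` -/
noncomputable def cU6_2130 : CertX :=
  ⟨[k12,k20,k13,k44,k20,k45],[(false,k3,[k3,k4,k5,k0,k1,k2]),(false,k0,[k0,k1,k2,k3,k4,k5])],[[[([z1,z0,z0,z1,z0,z0],
    z2)],[([z1,z0,z0,z1,z0,z0],z1),([z0,z1,z1,z0,z0,z0],z1)],[([z1,z0,z0,z1,z1,z1],z2)],[]]],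
    [.old (.leafM k5 [k1,k2,k4,k5] [] [(k3,k0,z1,[z1]),(k0,k3,z1,[z1])]),
    .old (.leafM k4 [k0,k1,k2,k3] [(z1,[z0,z1])] [(k4,k5,z1,[y1,y1,z1]),(k5,k4,z1,[y1,y1,z1])]),
    .old (.lp [k10,k20,k0,k0,k8,k0] [k5,k5,k0,k0,k10,k10,k10,k10,k6,k6,k10,k10] k0 [] k20 k6
    [[(k6,k5)],[(k7,k5)],[(k4,k10)],[(k5,k10),(k11,k10)],[(k8,k4),(k2,k10)],[(k3,k10)],[(k0,k5)],[(k1,k5)],[(k10,k4)],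
    [(k5,k4),(k11,k4)],[(k8,k4),(k2,k10)],[(k9,k4)]]
    [] k0
    [[k1,k0,k0,k1,k0,k0],[k0,k0,k0,k0,k1,k1],[k0,k0,k0,k0,k2,k2]]
    [.contra [y1,z1],.contra [y1,z1],.ref k1 k0 [(z2,[y1,z2]),(z2,[z1])]]),
    .old (.lp [k2,k2,k0,k0,k2,k0] [k0,k0,k0,k0,k1,k1,k1,k1,k0,k0,k1,k1] k0 [] k4 k5
    [[(k6,k1)],[(k7,k1)],[(k4,k1)],[(k5,k1),(k11,k1)],[(k2,k1),(k8,k1)],[(k3,k1)],[(k0,k1)],[(k1,k1)],[(k10,k1)],[(k5,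
    k1),(k11,k1)],[(k2,k1),(k8,k1)],[(k9,k1)]]
    [] k0
    [[k1,k0,k0,k1,k0,k0],[k0,k1,k1,k0,k0,k0],[k0,k0,k0,k0,k1,k1]]
    [.ref k0 k1 [(z1,[z1])],.ref k2 k1 [(z1,[y1,z1])],.ref k2 k0 [(z1,[y1,z1])]])]⟩

/-- classes `0 1 0 2 1 2`, types `N0 C0 N1 N0 C0 N2` -/
noncomputable def cU6_2131 : CertX :=
  ⟨[k12,k20,k13,k44,k20,k46],[(false,k0,[k0,k1,k2,k3,k4,k5])],[[[([z1,z0,z0,z1,z1,z1],z2)],[]]],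
    [.old (.leafM k2 [k0,k3,k4,k5] [] [(k1,k2,z1,[y1,z1]),(k2,k1,z1,[y1,z1])]),
    .old (.lp [k0,k2,k0,k2,k2,k0] [k1,k1,k0,k0,k1,k1,k0,k0,k0,k0,k1,k1] k0 [] k4 k5
    [[(k9,k1)],[(k7,k1)],[(k4,k1)],[(k5,k1),(k11,k1)],[(k2,k1),(k8,k1)],[(k3,k1)],[(k0,k1)],[(k10,k1)],[(k1,k1)],[(k5,
    k1),(k11,k1)],[(k2,k1),(k8,k1)],[(k6,k1)]]
    [] k0
    [[k0,k1,k1,k0,k0,k0]]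
    [.ref k0 k0 [(z1,[y1,z1])]])]⟩

/-- classes `0 1 0 2 1 2`, types `N0 C0 N1 N0 C2 N1` -/
noncomputable def cU6_2132 : CertX :=
  ⟨[k12,k20,k13,k44,k22,k45],[(false,k3,[k3,k4,k5,k0,k1,k2]),(false,k0,[k0,k1,k2,k3,k4,k5])],[[[([z1,z0,z0,z1,z0,z0],
    z2)],[([z1,z0,z0,z1,z0,z0],z1),([z0,z1,z1,z0,z0,z0],z1)],[([z1,z0,z0,z1,z1,z1],z2)],[]]],
    [.old (.leafM k6 [k2,k4,k5,k1] [] [(k3,k0,z1,[z1]),(k0,k3,z1,[z1])]),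
    .old (.leafM k4 [k0,k1,k2,k3] [(z1,[z0,z1])] [(k4,k5,z1,[y1,y1,z1]),(k5,k4,z1,[y1,y1,z1])]),
    .old (.lp [k10,k20,k0,k0,k0,k8] [k5,k5,k0,k0,k10,k10,k10,k10,k10,k10,k6,k6] k0 [] k20 k6
    [[(k6,k5)],[(k7,k5)],[(k4,k10)],[(k5,k10),(k8,k10)],[(k11,k4),(k2,k10)],[(k3,k10)],[(k0,k5)],[(k1,k5)],[(k10,k4)],
    [(k11,k4),(k2,k10)],[(k5,k4),(k8,k4)],[(k9,k4)]]
    [] k0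
    [[k1,k0,k0,k1,k0,k0],[k0,k0,k0,k0,k1,k1],[k0,k0,k0,k0,k2,k2]]
    [.contra [y1,z1],.contra [y1,z1],.ref k1 k0 [(z2,[y1,z2]),(z2,[z1])]]),
    .old (.lp [k2,k2,k0,k0,k0,k2] [k0,k0,k0,k0,k1,k1,k1,k1,k1,k1,k0,k0] k0 [] k4 k5
    [[(k6,k1)],[(k7,k1)],[(k4,k1)],[(k5,k1),(k8,k1)],[(k2,k1),(k11,k1)],[(k3,k1)],[(k0,k1)],[(k1,k1)],[(k10,k1)],[(k2,
    k1),(k11,k1)],[(k5,k1),(k8,k1)],[(k9,k1)]]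
    [] k0
    [[k1,k0,k0,k1,k0,k0],[k0,k1,k1,k0,k0,k0],[k0,k0,k0,k0,k1,k1]]
    [.ref k0 k1 [(z1,[z1])],.ref k2 k1 [(z1,[y1,z1])],.ref k2 k0 [(z1,[y1,z1])]])]⟩

/-- classes `0 1 0 2 1 2`, types `N0 C0 N1 N0 C2 N2` -/
noncomputable def cU6_2133 : CertX :=
  ⟨[k12,k20,k13,k44,k22,k46],[(false,k0,[k0,k1,k2,k3,k4,k5])],[[[([z1,z0,z0,z1,z1,z1],z2)],[]]],
    [.old (.leafM k2 [k0,k3,k4,k5] [] [(k1,k2,z1,[y1,z1]),(k2,k1,z1,[y1,z1])]),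
    .old (.lp [k2,k2,k0,k0,k0,k2] [k0,k0,k0,k0,k1,k1,k1,k1,k1,k1,k0,k0] k0 [] k4 k5
    [[(k9,k1)],[(k7,k1)],[(k4,k1)],[(k5,k1),(k8,k1)],[(k2,k1),(k11,k1)],[(k3,k1)],[(k0,k1)],[(k10,k1)],[(k1,k1)],[(k2,
    k1),(k11,k1)],[(k5,k1),(k8,k1)],[(k6,k1)]]
    [] k0
    [[k0,k1,k1,k0,k0,k0]]
    [.ref k0 k0 [(z1,[y1,z1])]])]⟩

/-- classes `0 1 0 2 1 2`, types `N0 C0 N1 S0 C0 S0` -/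
noncomputable def cU6_2134 : CertX :=
  ⟨[k12,k20,k13,k32,k20,k32],[(false,k0,[k0,k1,k2,k3,k4,k5])],[[[([z1,z0,z0,z1,z1,z1],z2)],[([z1,z0,z0,z1,z0,z0],z2)],
    [([z1,z0,z0,z1,z0,z0],z1),([z0,z1,z1,z0,z0,z0],z1)],[([z1,z1,z1,z1,z0,z0],z2)],[]]],
    [.old (.leafM k0 [k0,k3,k4,k5] [] [(k1,k2,z1,[y1,z1]),(k2,k1,z1,[y1,z1])]),
    .old (.leafM k5 [k1,k2,k4,k5] [] [(k3,k0,z1,[z1]),(k0,k3,z1,[z1])]),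
    .old (.leafM k4 [k0,k1,k2,k3] [(z1,[z0,z1])] [(k4,k5,z1,[y1,y1,z1]),(k5,k4,z1,[y1,y1,z1])]),
    .old (.lp [k6,k8,k0,k4,k8,k12] [k3,k3,k2,k2,k6,k6,k4,k4,k2,k2,k0,k0] k0 [] k20 k6
    [[(k6,k5),(k1,k6),(k9,k7),(k10,k9)],[(k7,k5)],[(k4,k4)],[(k5,k4),(k11,k10)],[(k2,k4),(k8,k4)],[(k3,k4)],[(k0,k5)],
    [(k6,k4),(k1,k5),(k9,k6),(k10,k8)],[(k6,k6),(k1,k7),(k9,k8),(k10,k10)],[(k5,k4),(k11,k10)],[(k2,k10),(k8,k10)],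
    [(k6,k8),(k1,k9),(k9,k10),(k10,k12)]]
    [] k0
    [[k1,k0,k0,k1,k0,k0],[k0,k1,k1,k0,k0,k0],[k0,k2,k2,k0,k0,k0]]
    [.contra [y1,z1],.contra [y1,z1],.ref k2 k0 [(z2,[y1,z2]),(z2,[z1])]]),
    .old (.lp [k2,k2,k2,k2,k2,k2] [k0,k0,k0,k0,k0,k0,k0,k0,k0,k0,k0,k0] k0 [] k8 k5
    [[(k1,k2),(k6,k2),(k9,k2),(k10,k2)],[(k7,k2)],[(k4,k2)],[(k5,k2),(k11,k2)],[(k2,k2),(k8,k2)],[(k3,k2)],[(k0,k2)],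
    [(k1,k2),(k6,k2),(k9,k2),(k10,k2)],[(k1,k2),(k6,k2),(k9,k2),(k10,k2)],[(k5,k2),(k11,k2)],[(k2,k2),(k8,k2)],[(k1,
    k2),(k6,k2),(k9,k2),(k10,k2)]]
    [] k0
    [[k1,k0,k0,k1,k0,k0],[k0,k1,k1,k0,k0,k0],[k0,k0,k0,k0,k1,k1]]
    [.ref k1 k0 [(z1,[z1])],.ref k0 k0 [(z1,[y1,z1])],.ref k3 k0 [(z1,[y1,z1])]])]⟩

/-- the certificates of this file -/
noncomputable def lU6_33 : List CertX :=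
  [cU6_1986, cU6_1987, cU6_1988, cU6_1989, cU6_1990, cU6_1991, cU6_1992, cU6_1993, cU6_1994, cU6_1995,
      cU6_1996, cU6_1997, cU6_1998, cU6_1999, cU6_2000, cU6_2001, cU6_2002, cU6_2003, cU6_2004, cU6_2005,
      cU6_2006, cU6_2007, cU6_2008, cU6_2009, cU6_2010, cU6_2011, cU6_2012, cU6_2013, cU6_2014, cU6_2015,
      cU6_2016, cU6_2017, cU6_2018, cU6_2019, cU6_2020, cU6_2021, cU6_2022, cU6_2023, cU6_2024, cU6_2025,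
      cU6_2026, cU6_2027, cU6_2028, cU6_2029, cU6_2030, cU6_2031, cU6_2032, cU6_2033, cU6_2034, cU6_2035,
      cU6_2036, cU6_2037, cU6_2038, cU6_2039, cU6_2040, cU6_2041, cU6_2042, cU6_2043, cU6_2044, cU6_2045,
      cU6_2046, cU6_2047, cU6_2048, cU6_2049, cU6_2050, cU6_2051, cU6_2052, cU6_2053, cU6_2054, cU6_2055,
      cU6_2056, cU6_2057, cU6_2058, cU6_2059, cU6_2060, cU6_2061, cU6_2062, cU6_2063, cU6_2064, cU6_2065,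
      cU6_2066, cU6_2067, cU6_2068, cU6_2069, cU6_2070, cU6_2071, cU6_2072, cU6_2073, cU6_2074, cU6_2075,
      cU6_2076, cU6_2077, cU6_2078, cU6_2079, cU6_2080, cU6_2081, cU6_2082, cU6_2083, cU6_2084, cU6_2085,
      cU6_2086, cU6_2087, cU6_2088, cU6_2089, cU6_2090, cU6_2091, cU6_2092, cU6_2093, cU6_2094, cU6_2095,
      cU6_2096, cU6_2097, cU6_2098, cU6_2099, cU6_2100, cU6_2101, cU6_2102, cU6_2103, cU6_2104, cU6_2105,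
      cU6_2106, cU6_2107, cU6_2108, cU6_2109, cU6_2110, cU6_2111, cU6_2112, cU6_2113, cU6_2114, cU6_2115,
      cU6_2116, cU6_2117, cU6_2118, cU6_2119, cU6_2120, cU6_2121, cU6_2122, cU6_2123, cU6_2124, cU6_2125,
      cU6_2126, cU6_2127, cU6_2128, cU6_2129, cU6_2130, cU6_2131, cU6_2132, cU6_2133, cU6_2134]

theorem gU6_33 : allF (chkE 6 ttU6) lU6_33 = true := by
  decide +kernel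

end Pool.Agent.Lib_MP_fa6e45
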