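import Pool.Agent.Lib_MP_fa6e45.CXT
import Pool.Agent.Lib_MP_fa6e45.HK

/-!
MP_fa6e45_co, stage 7: certificates (generated by a program).
-/

namespace Pool.Agent.Lib_MP_fa6e45

/-- classes `0 1 0 2 1 2`, types `N0 C0 N1 S0 C2 S0` -/
noncomputable def cU6_2135 : CertX :=
  ⟨[k12,k20,k13,k32,k22,k32],[(false,k0,[k0,k1,k2,k3,k4,k5])],[[[([z1,z0,z0,z1,z1,z1],z2)],[([z1,z0,z0,z1,z0,z0],z2)],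
    [([z1,z0,z0,z1,z0,z0],z1),([z0,z1,z1,z0,z0,z0],z1)],[([z1,z1,z1,z1,z0,z0],z2)],[]]],
    [.old (.leafM k0 [k0,k3,k4,k5] [] [(k1,k2,z1,[y1,z1]),(k2,k1,z1,[y1,z1])]),
    .old (.leafM k6 [k2,k4,k5,k1] [] [(k3,k0,z1,[z1]),(k0,k3,z1,[z1])]),
    .old (.leafM k4 [k0,k1,k2,k3] [(z1,[z0,z1])] [(k4,k5,z1,[y1,y1,z1]),(k5,k4,z1,[y1,y1,z1])]),
    .old (.lp [k6,k8,k0,k4,k4,k16] [k5,k5,k4,k4,k8,k8,k6,k6,k6,k6,k0,k0] k0 [] k20 k6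
    [[(k6,k5),(k9,k5),(k1,k6),(k10,k11)],[(k7,k5)],[(k4,k4)],[(k5,k4),(k8,k6)],[(k2,k4),(k11,k8)],[(k3,k4)],[(k0,k5)],
    [(k6,k4),(k9,k4),(k1,k5),(k10,k10)],[(k6,k4),(k9,k4),(k1,k5),(k10,k10)],[(k2,k6),(k11,k10)],[(k5,k8),(k8,k10)],
    [(k6,k10),(k9,k10),(k1,k11),(k10,k16)]]
    [] k0
    [[k1,k0,k0,k1,k0,k0],[k0,k1,k1,k0,k0,k0],[k0,k2,k2,k0,k0,k0]]
    [.contra [y1,z1],.contra [y1,z1],.ref k2 k0 [(z2,[y1,z2]),(z2,[z1])]]),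
    .old (.lp [k2,k2,k2,k2,k2,k2] [k0,k0,k0,k0,k0,k0,k0,k0,k0,k0,k0,k0] k0 [] k8 k5
    [[(k1,k2),(k6,k2),(k9,k2),(k10,k2)],[(k7,k2)],[(k4,k2)],[(k5,k2),(k8,k2)],[(k2,k2),(k11,k2)],[(k3,k2)],[(k0,k2)],
    [(k1,k2),(k6,k2),(k9,k2),(k10,k2)],[(k1,k2),(k6,k2),(k9,k2),(k10,k2)],[(k2,k2),(k11,k2)],[(k5,k2),(k8,k2)],[(k1,
    k2),(k6,k2),(k9,k2),(k10,k2)]]
    [] k0
    [[k1,k0,k0,k1,k0,k0],[k0,k1,k1,k0,k0,k0],[k0,k0,k0,k0,k1,k1]]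
    [.ref k1 k0 [(z1,[z1])],.ref k0 k0 [(z1,[y1,z1])],.ref k3 k0 [(z1,[y1,z1])]])]⟩

/-- classes `0 1 0 2 1 2`, types `N0 C0 N2 N0 C0 N2` -/
noncomputable def cU6_2136 : CertX :=
  ⟨[k12,k20,k14,k44,k20,k46],[(false,k0,[k0,k1,k2,k3,k4,k5])],[[[([z1,z0,z1,z0,z1,z0],z2)],[]]],
    [.old (.leafM k5 [k0,k1,k2,k3,k4,k5] [(z1,[y1,z1]),(z1,[z1])] []),
    .old (.lp [k4,k2,k2,k2,k2,k2] [k0,k0,k1,k1,k1,k1,k1,k1,k1,k1,k1,k1] k0 [] k8 k5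
    [[(k9,k3)],[(k4,k3)],[(k7,k2)],[(k5,k2),(k11,k2)],[(k2,k2),(k8,k2)],[(k0,k3)],[(k3,k2)],[(k10,k2)],[(k1,k3)],[(k5,
    k2),(k11,k2)],[(k2,k2),(k8,k2)],[(k6,k2)]]
    [] k0
    [[k0,k1,k0,k1,k0,k1]]
    [.ref k0 k0 [(z1,[y1,z1])]])]⟩

/-- classes `0 1 0 2 1 2`, types `N0 C0 N2 N0 C2 N2` -/
noncomputable def cU6_2137 : CertX :=
  ⟨[k12,k20,k14,k44,k22,k46],[],[[[]]],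
    [.old (.lp [k2,k2,k0,k0,k0,k2] [k0,k0,k0,k0,k1,k1,k1,k1,k1,k1,k0,k0] k0 [] k4 k5
    [[(k9,k1)],[(k4,k1)],[(k7,k1)],[(k5,k1),(k8,k1)],[(k2,k1),(k11,k1)],[(k0,k1)],[(k3,k1)],[(k10,k1)],[(k1,k1)],[(k2,
    k1),(k11,k1)],[(k5,k1),(k8,k1)],[(k6,k1)]]
    [] k0
    []
    [])]⟩

/-- classes `0 1 0 2 1 2`, types `N0 C0 N2 S0 C0 S0` -/
noncomputable def cU6_2138 : CertX :=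
  ⟨[k12,k20,k14,k32,k20,k32],[(false,k0,[k0,k1,k2,k3,k4,k5])],[[[([z1,z1,z1,z1,z0,z0],z2)],[([z1,z0,z1,z0,z1,z0],z2)],
    []]],
    [.old (.leafM k2 [k1,k2,k3,k0] [] [(k4,k5,z1,[y1,z1]),(k5,k4,z1,[y1,z1])]),
    .old (.leafM k5 [k0,k1,k2,k3,k4,k5] [(z1,[y1,z1]),(z1,[z1])] []),
    .old (.lp [k2,k4,k2,k2,k2,k2] [k1,k1,k0,k0,k1,k1,k1,k1,k1,k1,k1,k1] k0 [] k8 k5
    [[(k1,k2),(k6,k2),(k9,k2),(k10,k2)],[(k4,k2)],[(k7,k3)],[(k5,k3),(k11,k3)],[(k8,k2),(k2,k3)],[(k0,k2)],[(k3,k3)],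
    [(k1,k2),(k6,k2),(k9,k2),(k10,k2)],[(k1,k2),(k6,k2),(k9,k2),(k10,k2)],[(k5,k2),(k11,k2)],[(k8,k2),(k2,k3)],[(k1,
    k2),(k6,k2),(k9,k2),(k10,k2)]]
    [] k0
    [[k1,k0,k1,k0,k1,k0],[k0,k0,k0,k0,k1,k1]]
    [.ref k1 k0 [(z1,[z1])],.ref k0 k0 [(z1,[y1,z1])]])]⟩

/-- classes `0 1 0 2 1 2`, types `N0 C0 N2 S0 C2 S0` -/
noncomputable def cU6_2139 : CertX :=
  ⟨[k12,k20,k14,k32,k22,k32],[(false,k0,[k0,k1,k2,k3,k4,k5])],[[[([z1,z1,z1,z1,z0,z0],z2)],[([z1,z0,z1,z0,z0,z1],z2)],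
    []]],
    [.old (.leafM k2 [k1,k2,k3,k0] [] [(k4,k5,z1,[y1,z1]),(k5,k4,z1,[y1,z1])]),
    .old (.leafM k3 [k0,k1,k2,k3,k4,k5] [(z1,[y1,z1])] []),
    .old (.lp [k4,k2,k2,k2,k2,k2] [k0,k0,k1,k1,k1,k1,k1,k1,k1,k1,k1,k1] k0 [] k8 k5
    [[(k6,k3),(k9,k3),(k10,k3),(k1,k4)],[(k4,k3)],[(k7,k2)],[(k5,k2),(k8,k2)],[(k2,k2),(k11,k2)],[(k0,k3)],[(k3,k2)],
    [(k6,k2),(k9,k2),(k10,k2),(k1,k3)],[(k6,k2),(k9,k2),(k10,k2),(k1,k3)],[(k2,k2),(k11,k2)],[(k5,k2),(k8,k2)],[(k6,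
    k2),(k9,k2),(k10,k2),(k1,k3)]]
    [] k0
    [[k0,k1,k0,k1,k1,k0],[k0,k0,k0,k0,k1,k1]]
    [.ref k1 k0 [(z1,[y1,z1])],.ref k0 k0 [(z1,[y1,z1])]])]⟩

/-- classes `0 1 0 2 1 2`, types `N0 N0 N1 N0 N1 N1` -/
noncomputable def cU6_2140 : CertX :=
  ⟨[k12,k28,k13,k44,k29,k45],[(false,k0,[k0,k1,k2,k3,k4,k5])],[[[([z1,z0,z0,z1,z0,z0],z2)],[]]],
    [.old (.leafM k5 [k1,k2,k4,k5] [] [(k3,k0,z1,[z1]),(k0,k3,z1,[z1])]),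
    .old (.lp [k2,k2,k0,k0,k2,k0] [k0,k0,k0,k0,k1,k1,k1,k1,k0,k0,k1,k1] k0 [] k4 k5
    [[(k6,k1)],[(k7,k1)],[(k4,k1)],[(k11,k1)],[(k8,k1)],[(k3,k1)],[(k0,k1)],[(k1,k1)],[(k10,k1)],[(k5,k1)],[(k2,k1)],
    [(k9,k1)]]
    [] k0
    [[k1,k0,k0,k1,k0,k0]]
    [.ref k0 k0 [(z1,[z1])]])]⟩

/-- classes `0 1 0 2 1 2`, types `N0 N0 N1 N0 N1 N2` -/
noncomputable def cU6_2141 : CertX :=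
  ⟨[k12,k28,k13,k44,k29,k46],[],[[[]]],
    [.old (.lp [k0,k2,k0,k2,k2,k0] [k1,k1,k0,k0,k1,k1,k0,k0,k0,k0,k1,k1] k0 [] k4 k5
    [[(k9,k1)],[(k7,k1)],[(k4,k1)],[(k11,k1)],[(k8,k1)],[(k3,k1)],[(k0,k1)],[(k10,k1)],[(k1,k1)],[(k5,k1)],[(k2,k1)],
    [(k6,k1)]]
    [] k0
    []
    [])]⟩

/-- classes `0 1 0 2 1 2`, types `N0 N0 N1 N0 N2 N1` -/
noncomputable def cU6_2142 : CertX :=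
  ⟨[k12,k28,k13,k44,k30,k45],[(false,k0,[k0,k1,k2,k3,k4,k5])],[[[([z1,z0,z0,z1,z0,z0],z2)],[]]],
    [.old (.leafM k6 [k2,k4,k5,k1] [] [(k3,k0,z1,[z1]),(k0,k3,z1,[z1])]),
    .old (.lp [k2,k2,k0,k0,k0,k2] [k0,k0,k0,k0,k1,k1,k1,k1,k1,k1,k0,k0] k0 [] k4 k5
    [[(k6,k1)],[(k7,k1)],[(k4,k1)],[(k8,k1)],[(k11,k1)],[(k3,k1)],[(k0,k1)],[(k1,k1)],[(k10,k1)],[(k2,k1)],[(k5,k1)],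
    [(k9,k1)]]
    [] k0
    [[k1,k0,k0,k1,k0,k0]]
    [.ref k0 k0 [(z1,[z1])]])]⟩

/-- classes `0 1 0 2 1 2`, types `N0 N0 N1 N0 N2 N2` -/
noncomputable def cU6_2143 : CertX :=
  ⟨[k12,k28,k13,k44,k30,k46],[],[[[]]],
    [.old (.lp [k2,k2,k0,k0,k0,k2] [k0,k0,k0,k0,k1,k1,k1,k1,k1,k1,k0,k0] k0 [] k4 k5
    [[(k9,k1)],[(k7,k1)],[(k4,k1)],[(k8,k1)],[(k11,k1)],[(k3,k1)],[(k0,k1)],[(k10,k1)],[(k1,k1)],[(k2,k1)],[(k5,k1)],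
    [(k6,k1)]]
    [] k0
    []
    [])]⟩

/-- classes `0 1 0 2 1 2`, types `N0 N0 N1 S0 N1 S0` -/
noncomputable def cU6_2144 : CertX :=
  ⟨[k12,k28,k13,k32,k29,k32],[(false,k0,[k0,k1,k2,k3,k4,k5])],[[[([z1,z0,z0,z1,z0,z0],z2)],[]]],
    [.old (.leafM k5 [k1,k2,k4,k5] [] [(k3,k0,z1,[z1]),(k0,k3,z1,[z1])]),
    .old (.lp [k2,k2,k2,k2,k2,k2] [k0,k0,k0,k0,k0,k0,k0,k0,k0,k0,k0,k0] k0 [] k8 k5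
    [[(k1,k2),(k6,k2),(k9,k2),(k10,k2)],[(k7,k2)],[(k4,k2)],[(k11,k2)],[(k8,k2)],[(k3,k2)],[(k0,k2)],[(k1,k2),(k6,k2),
    (k9,k2),(k10,k2)],[(k1,k2),(k6,k2),(k9,k2),(k10,k2)],[(k5,k2)],[(k2,k2)],[(k1,k2),(k6,k2),(k9,k2),(k10,k2)]]
    [] k0
    [[k1,k0,k0,k1,k0,k0]]
    [.ref k0 k0 [(z1,[z1])]])]⟩

/-- classes `0 1 0 2 1 2`, types `N0 N0 N1 S0 N2 S0` -/
noncomputable def cU6_2145 : CertX :=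
  ⟨[k12,k28,k13,k32,k30,k32],[(false,k0,[k0,k1,k2,k3,k4,k5])],[[[([z1,z0,z0,z1,z0,z0],z2)],[]]],
    [.old (.leafM k6 [k2,k4,k5,k1] [] [(k3,k0,z1,[z1]),(k0,k3,z1,[z1])]),
    .old (.lp [k2,k2,k2,k2,k2,k2] [k0,k0,k0,k0,k0,k0,k0,k0,k0,k0,k0,k0] k0 [] k8 k5
    [[(k1,k2),(k6,k2),(k9,k2),(k10,k2)],[(k7,k2)],[(k4,k2)],[(k8,k2)],[(k11,k2)],[(k3,k2)],[(k0,k2)],[(k1,k2),(k6,k2),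
    (k9,k2),(k10,k2)],[(k1,k2),(k6,k2),(k9,k2),(k10,k2)],[(k2,k2)],[(k5,k2)],[(k1,k2),(k6,k2),(k9,k2),(k10,k2)]]
    [] k0
    [[k1,k0,k0,k1,k0,k0]]
    [.ref k0 k0 [(z1,[z1])]])]⟩

/-- classes `0 1 0 2 1 2`, types `N0 N0 N2 N0 N1 N2` -/
noncomputable def cU6_2146 : CertX :=
  ⟨[k12,k28,k14,k44,k29,k46],[(false,k0,[k0,k1,k2,k3,k4,k5])],[[[([z1,z0,z1,z0,z1,z0],z2)],[]]],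
    [.old (.leafM k5 [k0,k1,k2,k3,k4,k5] [(z1,[y1,z1]),(z1,[z1])] []),
    .old (.lp [k4,k2,k0,k2,k4,k2] [k0,k0,k1,k1,k2,k2,k1,k1,k0,k0,k1,k1] k0 [] k8 k5
    [[(k9,k4)],[(k4,k2)],[(k7,k2)],[(k11,k2)],[(k8,k2)],[(k0,k2)],[(k3,k2)],[(k10,k2)],[(k1,k4)],[(k5,k2)],[(k2,k2)],
    [(k6,k2)]]
    [] k0
    [[k0,k1,k0,k1,k0,k1]]
    [.ref k0 k0 [(z1,[y1,z1])]])]⟩

/-- classes `0 1 0 2 1 2`, types `N0 N0 N2 N0 N2 N2` -/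
noncomputable def cU6_2147 : CertX :=
  ⟨[k12,k28,k14,k44,k30,k46],[],[[[]]],
    [.old (.lp [k2,k2,k0,k0,k0,k2] [k0,k0,k0,k0,k1,k1,k1,k1,k1,k1,k0,k0] k0 [] k4 k5
    [[(k9,k1)],[(k4,k1)],[(k7,k1)],[(k8,k1)],[(k11,k1)],[(k0,k1)],[(k3,k1)],[(k10,k1)],[(k1,k1)],[(k2,k1)],[(k5,k1)],
    [(k6,k1)]]
    [] k0
    []
    [])]⟩

/-- classes `0 1 0 2 1 2`, types `N0 N0 N2 S0 N1 S0` -/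
noncomputable def cU6_2148 : CertX :=
  ⟨[k12,k28,k14,k32,k29,k32],[(false,k0,[k0,k1,k2,k3,k4,k5])],[[[([z1,z0,z1,z0,z1,z0],z2)],[]]],
    [.old (.leafM k5 [k0,k1,k2,k3,k4,k5] [(z1,[y1,z1]),(z1,[z1])] []),
    .old (.lp [k2,k4,k2,k2,k2,k2] [k1,k1,k0,k0,k1,k1,k1,k1,k1,k1,k1,k1] k0 [] k8 k5
    [[(k1,k2),(k6,k2),(k9,k2),(k10,k2)],[(k4,k2)],[(k7,k3)],[(k11,k3)],[(k8,k2)],[(k0,k2)],[(k3,k3)],[(k1,k2),(k6,k2),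
    (k9,k2),(k10,k2)],[(k1,k2),(k6,k2),(k9,k2),(k10,k2)],[(k5,k2)],[(k2,k3)],[(k1,k2),(k6,k2),(k9,k2),(k10,k2)]]
    [] k0
    [[k1,k0,k1,k0,k1,k0]]
    [.ref k0 k0 [(z1,[z1])]])]⟩

/-- classes `0 1 0 2 1 2`, types `N0 N0 N2 S0 N2 S0` -/
noncomputable def cU6_2149 : CertX :=
  ⟨[k12,k28,k14,k32,k30,k32],[(false,k0,[k0,k1,k2,k3,k4,k5])],[[[([z1,z0,z1,z0,z0,z1],z2)],[]]],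
    [.old (.leafM k3 [k0,k1,k2,k3,k4,k5] [(z1,[y1,z1])] []),
    .old (.lp [k4,k2,k0,k2,k2,k4] [k0,k0,k1,k1,k2,k2,k1,k1,k1,k1,k0,k0] k0 [] k8 k5
    [[(k6,k3),(k9,k3),(k1,k4),(k10,k4)],[(k4,k2)],[(k7,k2)],[(k8,k2)],[(k11,k2)],[(k0,k2)],[(k3,k2)],[(k6,k2),(k9,k2),
    (k1,k3),(k10,k3)],[(k6,k2),(k9,k2),(k1,k3),(k10,k3)],[(k2,k2)],[(k5,k2)],[(k6,k3),(k9,k3),(k1,k4),(k10,k4)]]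
    [] k0
    [[k0,k1,k0,k1,k1,k0]]
    [.ref k0 k0 [(z1,[y1,z1])]])]⟩

/-- classes `0 1 0 2 1 2`, types `N0 S0 N1 N0 S0 N1` -/
noncomputable def cU6_2150 : CertX :=
  ⟨[k12,k16,k13,k44,k16,k45],[(false,k3,[k3,k4,k5,k0,k1,k2]),(false,k0,[k0,k1,k2,k3,k4,k5])],[[[([z1,z0,z0,z1,z0,z0],
    z2)],[([z1,z0,z0,z1,z0,z0],z1),([z0,z1,z1,z0,z0,z0],z1)],[([z1,z0,z0,z1,z1,z1],z2)],[]]],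
    [.old (.leafM k5 [k1,k2,k4,k5] [] [(k3,k0,z1,[z1]),(k0,k3,z1,[z1])]),
    .old (.leafM k4 [k0,k1,k2,k3] [(z1,[z0,z1])] [(k4,k5,z1,[y1,y1,z1]),(k5,k4,z1,[y1,y1,z1])]),
    .old (.lp [k10,k16,k4,k0,k4,k4] [k3,k3,k0,k0,k6,k6,k8,k8,k6,k6,k6,k6] k0 [] k20 k6
    [[(k6,k5)],[(k7,k5)],[(k4,k10)],[(k5,k10),(k8,k10),(k11,k10),(k2,k16)],[(k5,k4),(k8,k4),(k11,k4),(k2,k10)],[(k3,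
    k10)],[(k0,k5)],[(k1,k5)],[(k10,k4)],[(k5,k4),(k8,k4),(k11,k4),(k2,k10)],[(k5,k4),(k8,k4),(k11,k4),(k2,k10)],[(k9,
    k4)]]
    [] k0
    [[k1,k0,k0,k1,k0,k0],[k0,k0,k0,k0,k1,k1],[k0,k0,k0,k0,k2,k2]]
    [.contra [y1,z1],.contra [y1,z1],.ref k1 k0 [(z2,[y1,z2]),(z2,[z1])]]),
    .old (.lp [k4,k2,k2,k0,k2,k2] [k0,k0,k1,k1,k1,k1,k2,k2,k1,k1,k1,k1] k0 [] k8 k5
    [[(k6,k2)],[(k7,k2)],[(k4,k2)],[(k2,k2),(k5,k2),(k8,k2),(k11,k2)],[(k2,k2),(k5,k2),(k8,k2),(k11,k2)],[(k3,k2)],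
    [(k0,k2)],[(k1,k2)],[(k10,k2)],[(k2,k2),(k5,k2),(k8,k2),(k11,k2)],[(k2,k2),(k5,k2),(k8,k2),(k11,k2)],[(k9,k2)]]
    [] k0
    [[k1,k0,k0,k1,k0,k0],[k0,k1,k1,k0,k0,k0],[k0,k0,k0,k0,k1,k1]]
    [.ref k0 k1 [(z1,[z1])],.ref k2 k1 [(z1,[y1,z1])],.ref k2 k0 [(z1,[y1,z1])]])]⟩

/-- classes `0 1 0 2 1 2`, types `N0 S0 N1 N0 S0 N2` -/
noncomputable def cU6_2151 : CertX :=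
  ⟨[k12,k16,k13,k44,k16,k46],[(false,k0,[k0,k1,k2,k3,k4,k5])],[[[([z1,z0,z0,z1,z1,z1],z2)],[]]],
    [.old (.leafM k2 [k0,k3,k4,k5] [] [(k1,k2,z1,[y1,z1]),(k2,k1,z1,[y1,z1])]),
    .old (.lp [k2,k2,k2,k2,k2,k2] [k0,k0,k0,k0,k0,k0,k0,k0,k0,k0,k0,k0] k0 [] k8 k5
    [[(k9,k2)],[(k7,k2)],[(k4,k2)],[(k2,k2),(k5,k2),(k8,k2),(k11,k2)],[(k2,k2),(k5,k2),(k8,k2),(k11,k2)],[(k3,k2)],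
    [(k0,k2)],[(k10,k2)],[(k1,k2)],[(k2,k2),(k5,k2),(k8,k2),(k11,k2)],[(k2,k2),(k5,k2),(k8,k2),(k11,k2)],[(k6,k2)]]
    [] k0
    [[k0,k1,k1,k0,k0,k0]]
    [.ref k0 k0 [(z1,[y1,z1])]])]⟩

/-- classes `0 1 0 2 1 2`, types `N0 S0 N1 S0 S0 S0` -/
noncomputable def cU6_2152 : CertX :=
  ⟨[k12,k16,k13,k32,k16,k32],[(false,k0,[k0,k1,k2,k3,k4,k5])],[[[([z1,z0,z0,z1,z1,z1],z2)],[([z1,z0,z0,z1,z0,z0],z2)],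
    [([z1,z0,z0,z1,z0,z0],z1),([z0,z1,z1,z0,z0,z0],z1)],[([z1,z1,z1,z1,z0,z0],z2)],[]]],
    [.old (.leafM k0 [k0,k3,k4,k5] [] [(k1,k2,z1,[y1,z1]),(k2,k1,z1,[y1,z1])]),
    .old (.leafM k5 [k1,k2,k4,k5] [] [(k3,k0,z1,[z1]),(k0,k3,z1,[z1])]),
    .old (.leafM k4 [k0,k1,k2,k3] [(z1,[z0,z1])] [(k4,k5,z1,[y1,y1,z1]),(k5,k4,z1,[y1,y1,z1])]),
    .old (.lp [k4,k4,k4,k6,k10,k10] [k3,k3,k3,k3,k3,k3,k2,k2,k0,k0,k0,k0] k0 [] k20 k6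
    [[(k1,k4),(k6,k5),(k9,k7),(k10,k7)],[(k7,k5)],[(k4,k4)],[(k2,k4),(k5,k4),(k8,k7),(k11,k7)],[(k2,k4),(k5,k4),(k8,
    k7),(k11,k7)],[(k3,k4)],[(k0,k5)],[(k1,k5),(k6,k6),(k9,k8),(k10,k8)],[(k1,k7),(k6,k8),(k9,k10),(k10,k10)],[(k2,
    k7),(k5,k7),(k8,k10),(k11,k10)],[(k2,k7),(k5,k7),(k8,k10),(k11,k10)],[(k1,k7),(k6,k8),(k9,k10),(k10,k10)]]
    [] k0
    [[k1,k0,k0,k1,k0,k0],[k0,k1,k1,k0,k0,k0],[k0,k2,k2,k0,k0,k0]]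
    [.contra [y1,z1],.contra [y1,z1],.ref k2 k0 [(z2,[y1,z2]),(z2,[z1])]]),
    .old (.lp [k2,k2,k2,k2,k2,k4] [k1,k1,k1,k1,k1,k1,k1,k1,k1,k1,k0,k0] k0 [] k8 k5
    [[(k1,k2),(k6,k2),(k9,k2),(k10,k3)],[(k7,k2)],[(k4,k2)],[(k2,k2),(k5,k2),(k8,k2),(k11,k3)],[(k2,k2),(k5,k2),(k8,
    k2),(k11,k3)],[(k3,k2)],[(k0,k2)],[(k1,k2),(k6,k2),(k9,k2),(k10,k3)],[(k1,k2),(k6,k2),(k9,k2),(k10,k3)],[(k2,k2),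
    (k5,k2),(k8,k2),(k11,k3)],[(k2,k3),(k5,k3),(k8,k3),(k11,k4)],[(k1,k3),(k6,k3),(k9,k3),(k10,k4)]]
    [] k0
    [[k1,k0,k0,k1,k0,k0],[k0,k1,k1,k0,k0,k0],[k0,k0,k0,k0,k2,k0],[k0,k0,k0,k0,k1,k1]]
    [.ref k1 k0 [(z1,[z1])],.ref k0 k0 [(z1,[y1,z1])],.contra [z1],.ref k3 k0 [(z1,[y1,z1])]])]⟩

/-- classes `0 1 0 2 1 2`, types `N0 S0 N2 N0 S0 N2` -/
noncomputable def cU6_2153 : CertX :=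
  ⟨[k12,k16,k14,k44,k16,k46],[(false,k0,[k0,k1,k2,k3,k4,k5])],[[[([z1,z0,z1,z0,z1,z0],z2)],[]]],
    [.old (.leafM k5 [k0,k1,k2,k3,k4,k5] [(z1,[y1,z1]),(z1,[z1])] []),
    .old (.lp [k4,k2,k2,k2,k2,k2] [k0,k0,k1,k1,k1,k1,k1,k1,k1,k1,k1,k1] k0 [] k8 k5
    [[(k9,k3)],[(k4,k3)],[(k7,k2)],[(k2,k2),(k5,k2),(k8,k2),(k11,k2)],[(k2,k2),(k5,k2),(k8,k2),(k11,k2)],[(k0,k3)],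
    [(k3,k2)],[(k10,k2)],[(k1,k3)],[(k2,k2),(k5,k2),(k8,k2),(k11,k2)],[(k2,k2),(k5,k2),(k8,k2),(k11,k2)],[(k6,k2)]]
    [] k0
    [[k0,k1,k0,k1,k0,k1]]
    [.ref k0 k0 [(z1,[y1,z1])]])]⟩

/-- classes `0 1 0 2 1 2`, types `N0 S0 N2 S0 S0 S0` -/
noncomputable def cU6_2154 : CertX :=
  ⟨[k12,k16,k14,k32,k16,k32],[(false,k0,[k0,k1,k2,k3,k4,k5])],[[[([z1,z1,z1,z1,z0,z0],z2)],[([z1,z0,z1,z0,z1,z0],z2)],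
    [([z1,z0,z1,z0,z0,z1],z2)],[]]],
    [.old (.leafM k2 [k1,k2,k3,k0] [] [(k4,k5,z1,[y1,z1]),(k5,k4,z1,[y1,z1])]),
    .old (.leafM k5 [k0,k1,k2,k3,k4,k5] [(z1,[y1,z1]),(z1,[z1])] []),
    .old (.leafM k3 [k0,k1,k2,k3,k4,k5] [(z1,[y1,z1])] []),
    .old (.lp [k6,k6,k6,k6,k10,k10] [k2,k2,k2,k2,k2,k2,k2,k2,k0,k0,k0,k0] k0 [[],[],[k0,k0,k0,k0,k0,k0,k0,k0,k2],[k0,k0,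
    k0,k0,k0,k0,k0,k0,k2],[],[],[],[],[k0,k0,k0,k0,k0,k0,k0,k0,k0,k4],[k0,k0,k2,k2]] k24 k5
    [[(k1,k6),(k6,k6),(k9,k8),(k10,k8)],[(k4,k6)],[(k7,k6)],[(k2,k6),(k5,k6),(k11,k6),(k8,k10)],[(k2,k6),(k5,k6),(k11,
    k6),(k8,k10)],[(k0,k6)],[(k3,k6)],[(k1,k6),(k6,k6),(k9,k8),(k10,k8)],[(k1,k8),(k6,k8),(k9,k10),(k10,k10)],[(k8,
    k6),(k2,k10),(k5,k10),(k11,k10)],[(k2,k6),(k5,k6),(k8,k10),(k11,k14)],[(k1,k8),(k6,k8),(k9,k10),(k10,k10)]]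
    [] k0
    [[k1,k0,k1,k0,k0,k1],[k0,k1,k0,k1,k0,k1],[k0,k0,k0,k0,k2,k0],[k0,k0,k0,k0,k1,k1]]
    [.ref k2 k0 [(z1,[z1])],.ref k1 k0 [(z1,[y1,z1])],.contra [z1],.ref k0 k0 [(z1,[y1,z1])]])]⟩

/-- classes `0 1 0 2 1 2`, types `S0 B0 S0 S0 B1 S0` -/
noncomputable def cU6_2155 : CertX :=
  ⟨[k0,k24,k0,k32,k25,k32],[(false,k0,[k0,k1,k2,k3,k4,k5]),(false,k3,[k3,k4,k5,k0,k1,k2])],[[[([z1,z1,z0,z0,z0,z1],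
    z2)],[([z1,z0,z1,z0,z0,z1],z2)],[([z1,z0,z0,z1,z0,z0],z2)],[([z1,z0,z1,z0,z1,z0],z2)],[]]],
    [.old (.leafM k0 [k1,k2,k3,k4,k5,k0] [(z1,[y1,z1])] []),
    .old (.leafM k3 [k0,k1,k2,k3,k4,k5] [(z1,[y1,z1])] []),
    .old (.leafM k5 [k1,k2,k4,k5] [] [(k3,k0,z1,[z1]),(k0,k3,z1,[z1])]),
    .old (.leafM k5 [k0,k1,k2,k3,k4,k5] [(z1,[y1,z1]),(z1,[z1])] []),
    .old (.lp [k12,k6,k6,k8,k6,k6] [k2,k0,k4,k4,k4,k4,k3,k3,k4,k4,k4,k4] k0 [[],[],[],[],[],[],[],[k0,k0,k0,k0,k0,k0,k0,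
    k0,k0,k0,k4],[],[],[],[k0,k0,k0,k0,k0,k0,k4]] k24 k5
    [[(k9,k6),(k10,k10),(k6,k11),(k1,k14)],[(k3,k8),(k4,k8),(k7,k9),(k0,k10)],[(k3,k6),(k4,k6),(k7,k7),(k0,k8)],[(k8,
    k6),(k11,k6)],[(k8,k6),(k11,k6)],[(k3,k6),(k4,k6),(k7,k7),(k0,k8)],[(k3,k7),(k4,k7),(k7,k8),(k0,k9)],[(k9,k7),(k6,
    k8),(k1,k11),(k10,k11)],[(k1,k6),(k9,k6),(k10,k6),(k6,k7)],[(k2,k6),(k5,k6)],[(k2,k6),(k5,k6)],[(k9,k6),(k10,k6),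
    (k1,k10),(k6,k11)]]
    [] k0
    [[k1,k0,k0,k1,k0,k0],[k1,k1,k0,k0,k1,k0],[k1,k0,k1,k0,k1,k0],[k0,k1,k0,k1,k1,k0],[k0,k0,k1,k1,k1,k0],[k0,k0,k0,k2,
    k0,k0]]
    [.ref k2 k0 [(z1,[z1])],.ref k1 k1 [(z1,[y1,z1])],.ref k3 k0 [(z1,[z1])],.ref k1 k0 [(z1,[y1,z1])],
    .ref k0 k0 [(z1,[y1,z1])],.contra [z1]])]⟩

/-- classes `0 1 0 2 1 2`, types `S0 C0 S0 S0 C0 S0` -/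
noncomputable def cU6_2156 : CertX :=
  ⟨[k0,k20,k0,k32,k20,k32],[(false,k0,[k0,k1,k2,k3,k4,k5]),(false,k3,[k3,k4,k5,k0,k1,k2])],[[[([z1,z0,z0,z1,z1,z1],
    z2)],[([z1,z0,z1,z0,z1,z0],z2)],[([z1,z0,z0,z1,z0,z0],z2)],[([z1,z1,z0,z0,z0,z1],z2)],[]]],
    [.old (.leafM k0 [k0,k3,k4,k5] [] [(k1,k2,z1,[y1,z1]),(k2,k1,z1,[y1,z1])]),
    .old (.leafM k5 [k0,k1,k2,k3,k4,k5] [(z1,[y1,z1]),(z1,[z1])] []),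
    .old (.leafM k5 [k1,k2,k4,k5] [] [(k3,k0,z1,[z1]),(k0,k3,z1,[z1])]),
    .old (.leafM k0 [k1,k2,k3,k4,k5,k0] [(z1,[y1,z1])] []),
    .old (.lp [k6,k6,k6,k12,k8,k6] [k3,k3,k3,k3,k3,k3,k0,k0,k2,k2,k3,k3] k0 [[],[k0,k0,k0,k0,k2],[],[],[],[k2],[k0,k0,k0,
    k0,k0,k0,k0,k0,k0,k0,k0,k3],[],[],[],[k0,k0,k0,k0,k0,k0,k0,k3]] k24 k5
    [[(k1,k6),(k10,k6),(k6,k9),(k9,k10)],[(k0,k6),(k3,k6),(k4,k8),(k7,k9)],[(k0,k6),(k3,k6),(k4,k6),(k7,k7)],[(k5,k6),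
    (k11,k6)],[(k2,k6),(k8,k7)],[(k3,k6),(k4,k6),(k0,k8),(k7,k9)],[(k3,k7),(k0,k9),(k4,k9),(k7,k12)],[(k10,k6),(k1,
    k9),(k9,k10),(k6,k12)],[(k10,k7),(k9,k8),(k1,k10),(k6,k10)],[(k5,k7),(k11,k7)],[(k2,k6),(k8,k7)],[(k1,k6),(k6,k6),
    (k10,k6),(k9,k7)]]
    [] k0
    [[k2,k0,k0,k0,k0,k0],[k1,k0,k0,k1,k0,k0],[k1,k1,k0,k0,k0,k1],[k0,k1,k1,k0,k0,k0],[k0,k1,k0,k1,k0,k1],[k0,k0,k0,k0,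
    k1,k1]]
    [.contra [z1],.ref k2 k0 [(z1,[z1])],.ref k3 k0 [(z1,[z1])],.ref k0 k0 [(z1,[y1,z1])],.ref k1 k0 [(z1,[y1,z1])],
    .ref k0 k1 [(z1,[y1,z1])]])]⟩

/-- classes `0 1 0 2 1 2`, types `S0 C0 S0 S0 C2 S0` -/
noncomputable def cU6_2157 : CertX :=
  ⟨[k0,k20,k0,k32,k22,k32],[(false,k0,[k0,k1,k2,k3,k4,k5]),(false,k3,[k3,k4,k5,k0,k1,k2])],[[[([z1,z0,z0,z1,z1,z1],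
    z2)],[([z1,z0,z1,z0,z0,z1],z2)],[([z1,z0,z0,z1,z0,z0],z2)],[]]],
    [.old (.leafM k0 [k0,k3,k4,k5] [] [(k1,k2,z1,[y1,z1]),(k2,k1,z1,[y1,z1])]),
    .old (.leafM k3 [k0,k1,k2,k3,k4,k5] [(z1,[y1,z1])] []),
    .old (.leafM k6 [k2,k4,k5,k1] [] [(k3,k0,z1,[z1]),(k0,k3,z1,[z1])]),
    .old (.lp [k12,k6,k6,k6,k6,k8] [k4,k0,k5,k5,k5,k5,k5,k5,k5,k5,k4,k4] k0 [[],[],[],[],[],[],[],[k0,k0,k0,k0,k0,k0,k0,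
    k0,k0,k0,k4],[],[],[],[k0,k0,k0,k0,k0,k0,k4]] k24 k5
    [[(k9,k7),(k6,k11),(k10,k12),(k1,k16)],[(k3,k7),(k4,k7),(k7,k7),(k0,k8)],[(k3,k6),(k4,k6),(k7,k6),(k0,k7)],[(k5,
    k6),(k8,k6)],[(k2,k6),(k11,k7)],[(k3,k6),(k4,k6),(k7,k6),(k0,k7)],[(k3,k6),(k4,k6),(k7,k6),(k0,k7)],[(k6,k6),(k9,
    k6),(k1,k11),(k10,k11)],[(k6,k6),(k9,k6),(k1,k7),(k10,k7)],[(k2,k6),(k11,k7)],[(k5,k7),(k8,k7)],[(k9,k7),(k10,k8),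
    (k6,k11),(k1,k12)]]
    [] k0
    [[k1,k0,k0,k1,k0,k0],[k1,k1,k0,k0,k1,k0],[k0,k1,k1,k0,k0,k0],[k0,k1,k0,k1,k1,k0],[k0,k0,k0,k2,k0,k0],[k0,k0,k0,k0,
    k1,k1]]
    [.ref k2 k0 [(z1,[z1])],.ref k1 k1 [(z1,[y1,z1])],.ref k0 k0 [(z1,[y1,z1])],.ref k1 k0 [(z1,[y1,z1])],
    .contra [z1],.ref k0 k1 [(z1,[y1,z1])]])]⟩

/-- classes `0 1 0 2 1 2`, types `S0 N0 S0 S0 N1 S0` -/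
noncomputable def cU6_2158 : CertX :=
  ⟨[k0,k28,k0,k32,k29,k32],[(false,k0,[k0,k1,k2,k3,k4,k5])],[[[([z1,z0,z1,z0,z1,z0],z2)],[([z1,z0,z0,z1,z0,z0],z2)],
    [([z1,z1,z0,z0,z0,z1],z2)],[]]],
    [.old (.leafM k5 [k0,k1,k2,k3,k4,k5] [(z1,[y1,z1]),(z1,[z1])] []),
    .old (.leafM k5 [k1,k2,k4,k5] [] [(k3,k0,z1,[z1]),(k0,k3,z1,[z1])]),
    .old (.leafM k0 [k1,k2,k3,k4,k5,k0] [(z1,[y1,z1])] []),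
    .old (.lp [k6,k6,k6,k12,k8,k6] [k3,k3,k3,k3,k3,k3,k0,k0,k2,k2,k3,k3] k0 [[],[k0,k0,k0,k0,k2],[],[],[],[k2],[k0,k0,k0,
    k0,k0,k0,k0,k0,k0,k0,k0,k3],[],[],[],[k0,k0,k0,k0,k0,k0,k0,k3]] k24 k5
    [[(k1,k6),(k10,k6),(k6,k9),(k9,k10)],[(k0,k6),(k3,k6),(k4,k8),(k7,k9)],[(k0,k6),(k3,k6),(k4,k6),(k7,k7)],[(k11,
    k6)],[(k8,k7)],[(k3,k6),(k4,k6),(k0,k8),(k7,k9)],[(k3,k7),(k0,k9),(k4,k9),(k7,k12)],[(k10,k6),(k1,k9),(k9,k10),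
    (k6,k12)],[(k10,k7),(k9,k8),(k1,k10),(k6,k10)],[(k5,k7)],[(k2,k6)],[(k1,k6),(k6,k6),(k10,k6),(k9,k7)]]
    [] k0
    [[k2,k0,k0,k0,k0,k0],[k1,k0,k0,k1,k0,k0],[k1,k1,k0,k0,k0,k1],[k0,k1,k0,k1,k0,k1]]
    [.contra [z1],.ref k1 k0 [(z1,[z1])],.ref k2 k0 [(z1,[z1])],.ref k0 k0 [(z1,[y1,z1])]])]⟩

/-- classes `0 1 0 2 1 2`, types `S0 N0 S0 S0 N2 S0` -/
noncomputable def cU6_2159 : CertX :=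
  ⟨[k0,k28,k0,k32,k30,k32],[(false,k0,[k0,k1,k2,k3,k4,k5]),(false,k3,[k3,k4,k5,k0,k1,k2])],[[[([z1,z0,z1,z0,z0,z1],
    z2)],[([z1,z0,z0,z1,z0,z0],z2)],[]]],
    [.old (.leafM k3 [k0,k1,k2,k3,k4,k5] [(z1,[y1,z1])] []),
    .old (.leafM k6 [k2,k4,k5,k1] [] [(k3,k0,z1,[z1]),(k0,k3,z1,[z1])]),
    .old (.lp [k4,k2,k2,k2,k2,k2] [k0,k0,k1,k1,k1,k1,k1,k1,k1,k1,k1,k1] k0 [] k8 k5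
    [[(k6,k3),(k9,k3),(k10,k3),(k1,k4)],[(k3,k3),(k4,k3),(k7,k3),(k0,k4)],[(k3,k2),(k4,k2),(k7,k2),(k0,k3)],[(k8,k2)],
    [(k11,k2)],[(k3,k2),(k4,k2),(k7,k2),(k0,k3)],[(k3,k2),(k4,k2),(k7,k2),(k0,k3)],[(k6,k2),(k9,k2),(k10,k2),(k1,k3)],
    [(k6,k2),(k9,k2),(k10,k2),(k1,k3)],[(k2,k2)],[(k5,k2)],[(k6,k2),(k9,k2),(k10,k2),(k1,k3)]]
    [] k0
    [[k1,k0,k0,k1,k0,k0],[k0,k1,k0,k1,k1,k0],[k0,k0,k1,k1,k0,k1],[k0,k0,k0,k2,k0,k0]]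
    [.ref k1 k0 [(z1,[z1])],.ref k0 k0 [(z1,[y1,z1])],.ref k0 k1 [(z1,[z1])],.contra [z1]])]⟩

/-- classes `0 1 0 2 1 3`, types `B0 B0 B1 C0 B1 C0` -/
noncomputable def cU6_2160 : CertX :=
  ⟨[k8,k24,k9,k36,k25,k52],[(false,k0,[k0,k1,k2,k3,k4,k5])],[[[([z1,z0,z1,z0,z0,z1],z2)],[]]],
    [.old (.leafM k3 [k0,k1,k2,k3,k4,k5] [(z1,[y1,z1])] []),
    .old (.lp [k2,k2,k4,k2,k2,k2] [k1,k1,k1,k1,k0,k0,k1,k1,k1,k1,k1,k1] k0 [] k8 k5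
    [[(k10,k2)],[(k7,k2),(k4,k3)],[(k7,k2),(k4,k3)],[(k8,k2),(k11,k2)],[(k8,k3),(k11,k3)],[(k0,k3),(k3,k3)],[(k0,k2),
    (k3,k2)],[(k9,k2)],[(k6,k2)],[(k2,k2),(k5,k3)],[(k2,k2),(k5,k3)],[(k1,k2)]]
    [] k0
    [[k0,k1,k0,k1,k1,k0]]
    [.ref k0 k0 [(z1,[y1,z1])]])]⟩

/-- classes `0 1 0 2 1 3`, types `B0 B0 B1 C0 B1 S0` -/
noncomputable def cU6_2161 : CertX :=
  ⟨[k8,k24,k9,k36,k25,k48],[(false,k0,[k0,k1,k2,k3,k4,k5])],[[[([z1,z0,z1,z0,z0,z1],z2)],[]]],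
    [.old (.leafM k3 [k0,k1,k2,k3,k4,k5] [(z1,[y1,z1])] []),
    .old (.lp [k2,k2,k2,k2,k2,k4] [k1,k1,k1,k1,k1,k1,k1,k1,k1,k1,k0,k0] k0 [] k8 k5
    [[(k1,k2),(k10,k3)],[(k4,k2),(k7,k2)],[(k4,k2),(k7,k2)],[(k8,k2),(k11,k3)],[(k8,k2),(k11,k3)],[(k0,k2),(k3,k2)],
    [(k0,k2),(k3,k2)],[(k9,k2)],[(k6,k2)],[(k2,k2),(k5,k2)],[(k2,k3),(k5,k3)],[(k1,k3),(k10,k4)]]
    [] k0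
    [[k0,k1,k0,k1,k1,k0]]
    [.ref k0 k0 [(z1,[y1,z1])]])]⟩

/-- classes `0 1 0 2 1 3`, types `B0 B0 B1 S0 B1 S0` -/
noncomputable def cU6_2162 : CertX :=
  ⟨[k8,k24,k9,k32,k25,k48],[(false,k0,[k0,k1,k2,k3,k4,k5])],[[[([z1,z0,z1,z0,z0,z1],z2)],[]]],
    [.old (.leafM k3 [k0,k1,k2,k3,k4,k5] [(z1,[y1,z1])] []),
    .old (.lp [k4,k2,k2,k2,k2,k2] [k0,k0,k1,k1,k1,k1,k1,k1,k1,k1,k1,k1] k0 [] k8 k5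
    [[(k10,k3),(k1,k4)],[(k4,k3),(k7,k3)],[(k4,k2),(k7,k2)],[(k8,k2),(k11,k2)],[(k8,k2),(k11,k2)],[(k3,k2),(k0,k3)],
    [(k3,k2),(k0,k3)],[(k6,k2),(k9,k2)],[(k6,k2),(k9,k2)],[(k2,k2),(k5,k2)],[(k2,k2),(k5,k2)],[(k10,k2),(k1,k3)]]
    [] k0
    [[k0,k1,k0,k1,k1,k0]]
    [.ref k0 k0 [(z1,[y1,z1])]])]⟩

/-- classes `0 1 0 2 1 3`, types `B0 C0 B1 C0 C0 C0` -/
noncomputable def cU6_2163 : CertX :=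
  ⟨[k8,k20,k9,k36,k20,k52],[(false,k0,[k0,k1,k2,k3,k4,k5])],[[[([z1,z0,z0,z1,z1,z1],z2)],[]]],
    [.old (.leafM k0 [k0,k3,k4,k5] [] [(k1,k2,z1,[y1,z1]),(k2,k1,z1,[y1,z1])]),
    .old (.lp [k2,k2,k0,k0,k2,k0] [k0,k0,k0,k0,k1,k1,k1,k1,k0,k0,k1,k1] k0 [] k4 k5
    [[(k10,k1)],[(k4,k1),(k7,k1)],[(k4,k1),(k7,k1)],[(k5,k1),(k11,k1)],[(k2,k1),(k8,k1)],[(k0,k1),(k3,k1)],[(k0,k1),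
    (k3,k1)],[(k9,k1)],[(k6,k1)],[(k5,k1),(k11,k1)],[(k2,k1),(k8,k1)],[(k1,k1)]]
    [] k0
    [[k0,k1,k1,k0,k0,k0]]
    [.ref k0 k0 [(z1,[y1,z1])]])]⟩

/-- classes `0 1 0 2 1 3`, types `B0 C0 B1 C0 C0 S0` -/
noncomputable def cU6_2164 : CertX :=
  ⟨[k8,k20,k9,k36,k20,k48],[(false,k0,[k0,k1,k2,k3,k4,k5])],[[[([z1,z0,z0,z1,z1,z1],z2)],[]]],
    [.old (.leafM k0 [k0,k3,k4,k5] [] [(k1,k2,z1,[y1,z1]),(k2,k1,z1,[y1,z1])]),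
    .old (.lp [k2,k2,k2,k2,k2,k2] [k0,k0,k0,k0,k0,k0,k0,k0,k0,k0,k0,k0] k0 [] k8 k5
    [[(k1,k2),(k10,k2)],[(k4,k2),(k7,k2)],[(k4,k2),(k7,k2)],[(k5,k2),(k11,k2)],[(k2,k2),(k8,k2)],[(k0,k2),(k3,k2)],
    [(k0,k2),(k3,k2)],[(k9,k2)],[(k6,k2)],[(k5,k2),(k11,k2)],[(k2,k2),(k8,k2)],[(k1,k2),(k10,k2)]]
    [] k0
    [[k0,k1,k1,k0,k0,k0]]
    [.ref k0 k0 [(z1,[y1,z1])]])]⟩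

/-- classes `0 1 0 2 1 3`, types `B0 C0 B1 C0 C2 C0` -/
noncomputable def cU6_2165 : CertX :=
  ⟨[k8,k20,k9,k36,k22,k52],[(false,k0,[k0,k1,k2,k3,k4,k5])],[[[([z1,z0,z1,z0,z0,z1],z2)],[([z1,z0,z0,z1,z1,z1],z2)],
    []]],
    [.old (.leafM k3 [k0,k1,k2,k3,k4,k5] [(z1,[y1,z1])] []),
    .old (.leafM k0 [k0,k3,k4,k5] [] [(k1,k2,z1,[y1,z1]),(k2,k1,z1,[y1,z1])]),
    .old (.lp [k4,k2,k2,k2,k2,k2] [k0,k0,k1,k1,k1,k1,k1,k1,k1,k1,k1,k1] k0 [] k8 k5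
    [[(k10,k3)],[(k4,k3),(k7,k3)],[(k4,k2),(k7,k2)],[(k5,k2),(k8,k2)],[(k2,k2),(k11,k2)],[(k3,k2),(k0,k3)],[(k3,k2),
    (k0,k3)],[(k9,k2)],[(k6,k2)],[(k2,k2),(k11,k2)],[(k5,k2),(k8,k2)],[(k1,k3)]]
    [] k0
    [[k0,k1,k1,k0,k0,k0],[k0,k1,k0,k1,k1,k0]]
    [.ref k1 k0 [(z1,[y1,z1])],.ref k0 k0 [(z1,[y1,z1])]])]⟩

/-- classes `0 1 0 2 1 3`, types `B0 C0 B1 C0 C2 S0` -/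
noncomputable def cU6_2166 : CertX :=
  ⟨[k8,k20,k9,k36,k22,k48],[(false,k0,[k0,k1,k2,k3,k4,k5])],[[[([z1,z0,z0,z1,z1,z1],z2)],[([z1,z0,z1,z0,z0,z1],z2)],
    []]],
    [.old (.leafM k0 [k0,k3,k4,k5] [] [(k1,k2,z1,[y1,z1]),(k2,k1,z1,[y1,z1])]),
    .old (.leafM k3 [k0,k1,k2,k3,k4,k5] [(z1,[y1,z1])] []),
    .old (.lp [k2,k2,k2,k4,k2,k2] [k1,k1,k1,k1,k1,k1,k0,k0,k1,k1,k1,k1] k0 [] k8 k5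
    [[(k1,k2),(k10,k2)],[(k4,k2),(k7,k3)],[(k4,k2),(k7,k3)],[(k5,k2),(k8,k2)],[(k2,k2),(k11,k2)],[(k0,k2),(k3,k2)],
    [(k0,k3),(k3,k3)],[(k9,k3)],[(k6,k3)],[(k2,k2),(k11,k2)],[(k5,k2),(k8,k2)],[(k1,k2),(k10,k2)]]
    [] k0
    [[k1,k0,k1,k0,k0,k1],[k0,k1,k1,k0,k0,k0]]
    [.ref k1 k0 [(z1,[z1])],.ref k0 k0 [(z1,[y1,z1])]])]⟩

/-- classes `0 1 0 2 1 3`, types `B0 C0 B1 S0 C0 S0` -/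
noncomputable def cU6_2167 : CertX :=
  ⟨[k8,k20,k9,k32,k20,k48],[(false,k0,[k0,k1,k2,k3,k4,k5])],[[[([z1,z0,z0,z1,z1,z1],z2)],[]]],
    [.old (.leafM k0 [k0,k3,k4,k5] [] [(k1,k2,z1,[y1,z1]),(k2,k1,z1,[y1,z1])]),
    .old (.lp [k2,k2,k2,k2,k2,k2] [k0,k0,k0,k0,k0,k0,k0,k0,k0,k0,k0,k0] k0 [] k8 k5
    [[(k1,k2),(k10,k2)],[(k4,k2),(k7,k2)],[(k4,k2),(k7,k2)],[(k5,k2),(k11,k2)],[(k2,k2),(k8,k2)],[(k0,k2),(k3,k2)],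
    [(k0,k2),(k3,k2)],[(k6,k2),(k9,k2)],[(k6,k2),(k9,k2)],[(k5,k2),(k11,k2)],[(k2,k2),(k8,k2)],[(k1,k2),(k10,k2)]]
    [] k0
    [[k0,k1,k1,k0,k0,k0]]
    [.ref k0 k0 [(z1,[y1,z1])]])]⟩

/-- classes `0 1 0 2 1 3`, types `B0 C0 B1 S0 C2 S0` -/
noncomputable def cU6_2168 : CertX :=
  ⟨[k8,k20,k9,k32,k22,k48],[(false,k0,[k0,k1,k2,k3,k4,k5])],[[[([z1,z0,z1,z0,z0,z1],z2)],[([z1,z0,z0,z1,z1,z1],z2)],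
    []]],
    [.old (.leafM k3 [k0,k1,k2,k3,k4,k5] [(z1,[y1,z1])] []),
    .old (.leafM k0 [k0,k3,k4,k5] [] [(k1,k2,z1,[y1,z1]),(k2,k1,z1,[y1,z1])]),
    .old (.lp [k2,k2,k2,k2,k2,k4] [k1,k1,k1,k1,k1,k1,k1,k1,k1,k1,k0,k0] k0 [] k8 k5
    [[(k1,k2),(k10,k3)],[(k4,k2),(k7,k2)],[(k4,k2),(k7,k2)],[(k5,k2),(k8,k2)],[(k2,k2),(k11,k3)],[(k0,k2),(k3,k2)],
    [(k0,k2),(k3,k2)],[(k6,k2),(k9,k2)],[(k6,k2),(k9,k2)],[(k2,k2),(k11,k3)],[(k5,k3),(k8,k3)],[(k1,k3),(k10,k4)]]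
    [] k0
    [[k0,k1,k1,k0,k0,k0],[k0,k1,k0,k1,k1,k0]]
    [.ref k1 k0 [(z1,[y1,z1])],.ref k0 k0 [(z1,[y1,z1])]])]⟩

/-- classes `0 1 0 2 1 3`, types `B0 N0 B1 C0 N1 C0` -/
noncomputable def cU6_2169 : CertX :=
  ⟨[k8,k28,k9,k36,k29,k52],[],[[[]]],
    [.old (.lp [k2,k2,k0,k0,k2,k0] [k0,k0,k0,k0,k1,k1,k1,k1,k0,k0,k1,k1] k0 [] k4 k5
    [[(k10,k1)],[(k4,k1),(k7,k1)],[(k4,k1),(k7,k1)],[(k11,k1)],[(k8,k1)],[(k0,k1),(k3,k1)],[(k0,k1),(k3,k1)],[(k9,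
    k1)],[(k6,k1)],[(k5,k1)],[(k2,k1)],[(k1,k1)]]
    [] k0
    []
    [])]⟩

/-- classes `0 1 0 2 1 3`, types `B0 N0 B1 C0 N1 S0` -/
noncomputable def cU6_2170 : CertX :=
  ⟨[k8,k28,k9,k36,k29,k48],[],[[[]]],
    [.old (.lp [k2,k2,k2,k2,k2,k2] [k0,k0,k0,k0,k0,k0,k0,k0,k0,k0,k0,k0] k0 [] k8 k5
    [[(k1,k2),(k10,k2)],[(k4,k2),(k7,k2)],[(k4,k2),(k7,k2)],[(k11,k2)],[(k8,k2)],[(k0,k2),(k3,k2)],[(k0,k2),(k3,k2)],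
    [(k9,k2)],[(k6,k2)],[(k5,k2)],[(k2,k2)],[(k1,k2),(k10,k2)]]
    [] k0
    []
    [])]⟩

/-- classes `0 1 0 2 1 3`, types `B0 N0 B1 C0 N2 C0` -/
noncomputable def cU6_2171 : CertX :=
  ⟨[k8,k28,k9,k36,k30,k52],[(false,k0,[k0,k1,k2,k3,k4,k5])],[[[([z1,z0,z1,z0,z0,z1],z2)],[]]],
    [.old (.leafM k3 [k0,k1,k2,k3,k4,k5] [(z1,[y1,z1])] []),
    .old (.lp [k4,k2,k2,k2,k2,k2] [k0,k0,k1,k1,k1,k1,k1,k1,k1,k1,k1,k1] k0 [] k8 k5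
    [[(k10,k3)],[(k4,k3),(k7,k3)],[(k4,k2),(k7,k2)],[(k8,k2)],[(k11,k2)],[(k3,k2),(k0,k3)],[(k3,k2),(k0,k3)],[(k9,
    k2)],[(k6,k2)],[(k2,k2)],[(k5,k2)],[(k1,k3)]]
    [] k0
    [[k0,k1,k0,k1,k1,k0]]
    [.ref k0 k0 [(z1,[y1,z1])]])]⟩

/-- classes `0 1 0 2 1 3`, types `B0 N0 B1 C0 N2 S0` -/
noncomputable def cU6_2172 : CertX :=
  ⟨[k8,k28,k9,k36,k30,k48],[(false,k0,[k0,k1,k2,k3,k4,k5])],[[[([z1,z0,z1,z0,z0,z1],z2)],[]]],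
    [.old (.leafM k3 [k0,k1,k2,k3,k4,k5] [(z1,[y1,z1])] []),
    .old (.lp [k2,k2,k2,k4,k2,k2] [k1,k1,k1,k1,k1,k1,k0,k0,k1,k1,k1,k1] k0 [] k8 k5
    [[(k1,k2),(k10,k2)],[(k4,k2),(k7,k3)],[(k4,k2),(k7,k3)],[(k8,k2)],[(k11,k2)],[(k0,k2),(k3,k2)],[(k0,k3),(k3,k3)],
    [(k9,k3)],[(k6,k3)],[(k2,k2)],[(k5,k2)],[(k1,k2),(k10,k2)]]
    [] k0
    [[k1,k0,k1,k0,k0,k1]]
    [.ref k0 k0 [(z1,[z1])]])]⟩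

/-- classes `0 1 0 2 1 3`, types `B0 N0 B1 S0 N1 S0` -/
noncomputable def cU6_2173 : CertX :=
  ⟨[k8,k28,k9,k32,k29,k48],[],[[[]]],
    [.old (.lp [k2,k2,k2,k2,k2,k2] [k0,k0,k0,k0,k0,k0,k0,k0,k0,k0,k0,k0] k0 [] k8 k5
    [[(k1,k2),(k10,k2)],[(k4,k2),(k7,k2)],[(k4,k2),(k7,k2)],[(k11,k2)],[(k8,k2)],[(k0,k2),(k3,k2)],[(k0,k2),(k3,k2)],
    [(k6,k2),(k9,k2)],[(k6,k2),(k9,k2)],[(k5,k2)],[(k2,k2)],[(k1,k2),(k10,k2)]]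
    [] k0
    []
    [])]⟩

/-- classes `0 1 0 2 1 3`, types `B0 N0 B1 S0 N2 S0` -/
noncomputable def cU6_2174 : CertX :=
  ⟨[k8,k28,k9,k32,k30,k48],[(false,k0,[k0,k1,k2,k3,k4,k5])],[[[([z1,z0,z1,z0,z0,z1],z2)],[]]],
    [.old (.leafM k3 [k0,k1,k2,k3,k4,k5] [(z1,[y1,z1])] []),
    .old (.lp [k2,k2,k2,k2,k2,k4] [k1,k1,k1,k1,k1,k1,k1,k1,k1,k1,k0,k0] k0 [] k8 k5
    [[(k1,k2),(k10,k3)],[(k4,k2),(k7,k2)],[(k4,k2),(k7,k2)],[(k8,k2)],[(k11,k3)],[(k0,k2),(k3,k2)],[(k0,k2),(k3,k2)],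
    [(k6,k2),(k9,k2)],[(k6,k2),(k9,k2)],[(k2,k2)],[(k5,k3)],[(k1,k3),(k10,k4)]]
    [] k0
    [[k0,k1,k0,k1,k1,k0]]
    [.ref k0 k0 [(z1,[y1,z1])]])]⟩

/-- classes `0 1 0 2 1 3`, types `B0 S0 B1 C0 S0 C0` -/
noncomputable def cU6_2175 : CertX :=
  ⟨[k8,k16,k9,k36,k16,k52],[(false,k0,[k0,k1,k2,k3,k4,k5])],[[[([z1,z0,z1,z0,z0,z1],z2)],[([z1,z0,z0,z1,z1,z1],z2)],
    []]],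
    [.old (.leafM k3 [k0,k1,k2,k3,k4,k5] [(z1,[y1,z1])] []),
    .old (.leafM k0 [k0,k3,k4,k5] [] [(k1,k2,z1,[y1,z1]),(k2,k1,z1,[y1,z1])]),
    .old (.lp [k4,k2,k2,k2,k2,k2] [k0,k0,k1,k1,k1,k1,k1,k1,k1,k1,k1,k1] k0 [] k8 k5
    [[(k10,k3)],[(k4,k3),(k7,k3)],[(k4,k2),(k7,k2)],[(k2,k2),(k5,k2),(k8,k2),(k11,k2)],[(k2,k2),(k5,k2),(k8,k2),(k11,
    k2)],[(k3,k2),(k0,k3)],[(k3,k2),(k0,k3)],[(k9,k2)],[(k6,k2)],[(k2,k2),(k5,k2),(k8,k2),(k11,k2)],[(k2,k2),(k5,k2),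
    (k8,k2),(k11,k2)],[(k1,k3)]]
    [] k0
    [[k0,k1,k1,k0,k0,k0],[k0,k1,k0,k1,k1,k0]]
    [.ref k1 k0 [(z1,[y1,z1])],.ref k0 k0 [(z1,[y1,z1])]])]⟩

/-- classes `0 1 0 2 1 3`, types `B0 S0 B1 C0 S0 S0` -/
noncomputable def cU6_2176 : CertX :=
  ⟨[k8,k16,k9,k36,k16,k48],[(false,k0,[k0,k1,k2,k3,k4,k5])],[[[([z1,z0,z0,z1,z1,z1],z2)],[([z1,z0,z1,z0,z0,z1],z2)],
    []]],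
    [.old (.leafM k0 [k0,k3,k4,k5] [] [(k1,k2,z1,[y1,z1]),(k2,k1,z1,[y1,z1])]),
    .old (.leafM k3 [k0,k1,k2,k3,k4,k5] [(z1,[y1,z1])] []),
    .old (.lp [k6,k6,k6,k6,k8,k12] [k5,k5,k5,k5,k5,k5,k5,k5,k4,k4,k4,k0] k0 [[],[],[],[k0,k0,k0,k0,k0,k0,k0,k0,k4],[],[],
    [],[],[],[k0,k0,k4]] k24 k5
    [[(k1,k6),(k10,k7)],[(k4,k6),(k7,k6)],[(k4,k6),(k7,k6)],[(k2,k6),(k5,k6),(k8,k11),(k11,k11)],[(k2,k6),(k5,k6),(k8,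
    k7),(k11,k7)],[(k0,k6),(k3,k6)],[(k0,k6),(k3,k6)],[(k9,k7)],[(k6,k7)],[(k5,k7),(k8,k8),(k2,k11),(k11,k12)],[(k5,
    k7),(k2,k11),(k8,k12),(k11,k16)],[(k1,k7),(k10,k8)]]
    [] k0
    [[k1,k0,k1,k0,k0,k1],[k0,k1,k1,k0,k0,k0]]
    [.ref k1 k0 [(z1,[z1])],.ref k0 k0 [(z1,[y1,z1])]])]⟩

/-- classes `0 1 0 2 1 3`, types `B0 S0 B1 S0 S0 S0` -/
noncomputable def cU6_2177 : CertX :=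
  ⟨[k8,k16,k9,k32,k16,k48],[(false,k0,[k0,k1,k2,k3,k4,k5])],[[[([z1,z0,z1,z0,z0,z1],z2)],[([z1,z0,z0,z1,z1,z1],z2)],
    []]],
    [.old (.leafM k3 [k0,k1,k2,k3,k4,k5] [(z1,[y1,z1])] []),
    .old (.leafM k0 [k0,k3,k4,k5] [] [(k1,k2,z1,[y1,z1]),(k2,k1,z1,[y1,z1])]),
    .old (.lp [k6,k6,k6,k6,k12,k8] [k5,k5,k5,k5,k5,k5,k5,k5,k0,k4,k4,k4] k0 [[],[],[k0,k0,k0,k0,k0,k0,k0,k0,k0,k4],[],[],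
    [],[],[],[k0,k0,k0,k4]] k24 k5
    [[(k1,k6),(k10,k7)],[(k4,k6),(k7,k6)],[(k4,k6),(k7,k6)],[(k2,k6),(k5,k6),(k8,k7),(k11,k7)],[(k2,k6),(k5,k6),(k8,
    k11),(k11,k11)],[(k0,k6),(k3,k6)],[(k0,k6),(k3,k6)],[(k6,k6),(k9,k7)],[(k6,k7),(k9,k8)],[(k2,k7),(k5,k11),(k11,
    k12),(k8,k16)],[(k2,k7),(k11,k8),(k5,k11),(k8,k12)],[(k1,k7),(k10,k8)]]
    [] k0
    [[k0,k1,k1,k0,k0,k0],[k0,k1,k0,k1,k1,k0],[k0,k0,k0,k0,k0,k2]]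
    [.ref k1 k0 [(z1,[y1,z1])],.ref k0 k0 [(z1,[y1,z1])],.contra [z1]])]⟩

/-- classes `0 1 0 2 1 3`, types `C0 B0 C0 C0 B1 C0` -/
noncomputable def cU6_2178 : CertX :=
  ⟨[k4,k24,k4,k36,k25,k52],[(false,k0,[k0,k1,k2,k3,k4,k5])],[[[([z1,z1,z0,z0,z0,z1],z2)],[]]],
    [.old (.leafM k0 [k1,k2,k3,k4,k5,k0] [(z1,[y1,z1])] []),
    .old (.lp [k4,k2,k2,k2,k2,k2] [k0,k0,k1,k1,k1,k1,k1,k1,k1,k1,k1,k1] k0 [] k8 k5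
    [[(k10,k3)],[(k3,k3),(k7,k3)],[(k4,k2),(k0,k3)],[(k8,k2),(k11,k2)],[(k8,k2),(k11,k2)],[(k3,k2),(k7,k2)],[(k4,k2),
    (k0,k3)],[(k9,k2)],[(k6,k2)],[(k2,k2),(k5,k2)],[(k2,k2),(k5,k2)],[(k1,k3)]]
    [] k0
    [[k0,k0,k1,k1,k1,k0]]
    [.ref k0 k0 [(z1,[y1,z1])]])]⟩

/-- classes `0 1 0 2 1 3`, types `C0 B0 C0 C0 B1 S0` -/
noncomputable def cU6_2179 : CertX :=
  ⟨[k4,k24,k4,k36,k25,k48],[(false,k0,[k0,k1,k2,k3,k4,k5])],[[[([z1,z1,z0,z0,z0,z1],z2)],[]]],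
    [.old (.leafM k0 [k1,k2,k3,k4,k5,k0] [(z1,[y1,z1])] []),
    .old (.lp [k2,k2,k2,k4,k2,k2] [k1,k1,k1,k1,k1,k1,k0,k0,k1,k1,k1,k1] k0 [] k8 k5
    [[(k1,k2),(k10,k2)],[(k3,k2),(k7,k3)],[(k0,k2),(k4,k2)],[(k8,k2),(k11,k2)],[(k8,k2),(k11,k2)],[(k3,k2),(k7,k3)],
    [(k0,k3),(k4,k3)],[(k9,k3)],[(k6,k3)],[(k2,k2),(k5,k2)],[(k2,k2),(k5,k2)],[(k1,k2),(k10,k2)]]
    [] k0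
    [[k1,k1,k0,k0,k0,k1]]
    [.ref k0 k0 [(z1,[z1])]])]⟩

/-- classes `0 1 0 2 1 3`, types `C0 B0 C0 S0 B1 S0` -/
noncomputable def cU6_2180 : CertX :=
  ⟨[k4,k24,k4,k32,k25,k48],[(false,k0,[k0,k1,k2,k3,k4,k5])],[[[([z1,z1,z0,z0,z0,z1],z2)],[]]],
    [.old (.leafM k0 [k1,k2,k3,k4,k5,k0] [(z1,[y1,z1])] []),
    .old (.lp [k2,k4,k2,k2,k2,k2] [k1,k1,k0,k0,k1,k1,k1,k1,k1,k1,k1,k1] k0 [] k8 k5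
    [[(k1,k2),(k10,k2)],[(k7,k2),(k3,k3)],[(k0,k3),(k4,k3)],[(k8,k3),(k11,k3)],[(k8,k2),(k11,k2)],[(k7,k2),(k3,k3)],
    [(k0,k2),(k4,k2)],[(k6,k2),(k9,k2)],[(k6,k2),(k9,k2)],[(k5,k2),(k2,k3)],[(k5,k2),(k2,k3)],[(k1,k2),(k10,k2)]]
    [] k0
    [[k0,k0,k1,k1,k1,k0]]
    [.ref k0 k0 [(z1,[y1,z1])]])]⟩

/-- classes `0 1 0 2 1 3`, types `C0 B0 C2 C0 B1 C0` -/
noncomputable def cU6_2181 : CertX :=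
  ⟨[k4,k24,k6,k36,k25,k52],[(false,k0,[k0,k1,k2,k3,k4,k5])],[[[([z1,z1,z0,z0,z0,z1],z2)],[([z1,z0,z1,z0,z0,z1],z2)],
    []]],
    [.old (.leafM k0 [k1,k2,k3,k4,k5,k0] [(z1,[y1,z1])] []),
    .old (.leafM k3 [k0,k1,k2,k3,k4,k5] [(z1,[y1,z1])] []),
    .old (.lp [k4,k2,k2,k2,k2,k2] [k0,k0,k1,k1,k1,k1,k1,k1,k1,k1,k1,k1] k0 [] k8 k5
    [[(k10,k3)],[(k3,k3),(k4,k3)],[(k7,k2),(k0,k3)],[(k8,k2),(k11,k2)],[(k8,k2),(k11,k2)],[(k7,k2),(k0,k3)],[(k3,k2),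
    (k4,k2)],[(k9,k2)],[(k6,k2)],[(k2,k2),(k5,k2)],[(k2,k2),(k5,k2)],[(k1,k3)]]
    [] k0
    [[k0,k1,k0,k1,k1,k0],[k0,k0,k1,k1,k1,k0]]
    [.ref k1 k0 [(z1,[y1,z1])],.ref k0 k0 [(z1,[y1,z1])]])]⟩

/-- classes `0 1 0 2 1 3`, types `C0 B0 C2 C0 B1 S0` -/
noncomputable def cU6_2182 : CertX :=
  ⟨[k4,k24,k6,k36,k25,k48],[(false,k0,[k0,k1,k2,k3,k4,k5])],[[[([z1,z0,z1,z0,z0,z1],z2)],[([z1,z1,z0,z0,z0,z1],z2)],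
    []]],
    [.old (.leafM k3 [k0,k1,k2,k3,k4,k5] [(z1,[y1,z1])] []),
    .old (.leafM k0 [k1,k2,k3,k4,k5,k0] [(z1,[y1,z1])] []),
    .old (.lp [k2,k2,k4,k2,k2,k2] [k1,k1,k1,k1,k0,k0,k1,k1,k1,k1,k1,k1] k0 [] k8 k5
    [[(k1,k2),(k10,k2)],[(k3,k2),(k4,k3)],[(k0,k2),(k7,k2)],[(k8,k2),(k11,k2)],[(k8,k3),(k11,k3)],[(k0,k3),(k7,k3)],
    [(k3,k2),(k4,k3)],[(k9,k2)],[(k6,k2)],[(k2,k2),(k5,k3)],[(k2,k2),(k5,k3)],[(k1,k2),(k10,k2)]]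
    [] k0
    [[k1,k1,k0,k0,k0,k1],[k0,k1,k0,k1,k1,k0]]
    [.ref k1 k0 [(z1,[z1])],.ref k0 k0 [(z1,[y1,z1])]])]⟩

/-- classes `0 1 0 2 1 3`, types `C0 B0 C2 S0 B1 S0` -/
noncomputable def cU6_2183 : CertX :=
  ⟨[k4,k24,k6,k32,k25,k48],[(false,k0,[k0,k1,k2,k3,k4,k5])],[[[([z1,z0,z1,z0,z0,z1],z2)],[([z1,z1,z0,z0,z0,z1],z2)],
    []]],
    [.old (.leafM k3 [k0,k1,k2,k3,k4,k5] [(z1,[y1,z1])] []),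
    .old (.leafM k0 [k1,k2,k3,k4,k5,k0] [(z1,[y1,z1])] []),
    .old (.lp [k2,k2,k4,k2,k2,k2] [k1,k1,k1,k1,k0,k0,k1,k1,k1,k1,k1,k1] k0 [] k8 k5
    [[(k1,k2),(k10,k2)],[(k3,k2),(k4,k3)],[(k0,k2),(k7,k2)],[(k8,k2),(k11,k2)],[(k8,k3),(k11,k3)],[(k0,k3),(k7,k3)],
    [(k3,k2),(k4,k3)],[(k6,k2),(k9,k2)],[(k6,k2),(k9,k2)],[(k2,k2),(k5,k3)],[(k2,k2),(k5,k3)],[(k1,k2),(k10,k2)]]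
    [] k0
    [[k1,k1,k0,k0,k0,k1],[k0,k1,k0,k1,k1,k0]]
    [.ref k1 k0 [(z1,[z1])],.ref k0 k0 [(z1,[y1,z1])]])]⟩

/-- classes `0 1 0 2 1 3`, types `C0 C0 C0 C0 C0 C0` -/
noncomputable def cU6_2184 : CertX :=
  ⟨[k4,k20,k4,k36,k20,k52],[(false,k0,[k0,k1,k2,k3,k4,k5])],[[[([z1,z1,z0,z0,z0,z1],z2)],[([z1,z0,z0,z1,z1,z1],z2)],
    []]],
    [.old (.leafM k0 [k1,k2,k3,k4,k5,k0] [(z1,[y1,z1])] []),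
    .old (.leafM k0 [k0,k3,k4,k5] [] [(k1,k2,z1,[y1,z1]),(k2,k1,z1,[y1,z1])]),
    .old (.lp [k2,k2,k2,k2,k2,k4] [k1,k1,k1,k1,k1,k1,k1,k1,k1,k1,k0,k0] k0 [] k8 k5
    [[(k10,k3)],[(k3,k2),(k7,k2)],[(k0,k2),(k4,k2)],[(k5,k2),(k11,k3)],[(k2,k2),(k8,k2)],[(k3,k2),(k7,k2)],[(k0,k2),
    (k4,k2)],[(k9,k2)],[(k6,k2)],[(k5,k2),(k11,k3)],[(k2,k3),(k8,k3)],[(k1,k3)]]
    [] k0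
    [[k0,k1,k1,k0,k0,k0],[k0,k0,k1,k1,k1,k0]]
    [.ref k1 k0 [(z1,[y1,z1])],.ref k0 k0 [(z1,[y1,z1])]])]⟩

/-- classes `0 1 0 2 1 3`, types `C0 C0 C0 C0 C0 S0` -/
noncomputable def cU6_2185 : CertX :=
  ⟨[k4,k20,k4,k36,k20,k48],[(false,k0,[k0,k1,k2,k3,k4,k5])],[[[([z1,z1,z0,z0,z0,z1],z2)],[([z1,z0,z0,z1,z1,z1],z2)],
    []]],
    [.old (.leafM k0 [k1,k2,k3,k4,k5,k0] [(z1,[y1,z1])] []),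
    .old (.leafM k0 [k0,k3,k4,k5] [] [(k1,k2,z1,[y1,z1]),(k2,k1,z1,[y1,z1])]),
    .old (.lp [k4,k2,k2,k2,k2,k2] [k0,k0,k1,k1,k1,k1,k1,k1,k1,k1,k1,k1] k0 [] k8 k5
    [[(k10,k3),(k1,k4)],[(k3,k3),(k7,k3)],[(k4,k2),(k0,k3)],[(k5,k2),(k11,k2)],[(k2,k2),(k8,k2)],[(k3,k2),(k7,k2)],
    [(k4,k2),(k0,k3)],[(k9,k2)],[(k6,k2)],[(k5,k2),(k11,k2)],[(k2,k2),(k8,k2)],[(k10,k2),(k1,k3)]]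
    [] k0
    [[k0,k1,k1,k0,k0,k0],[k0,k0,k1,k1,k1,k0]]
    [.ref k1 k0 [(z1,[y1,z1])],.ref k0 k0 [(z1,[y1,z1])]])]⟩

/-- classes `0 1 0 2 1 3`, types `C0 C0 C0 C0 C2 C0` -/
noncomputable def cU6_2186 : CertX :=
  ⟨[k4,k20,k4,k36,k22,k52],[(false,k0,[k0,k1,k2,k3,k4,k5])],[[[([z1,z0,z0,z1,z1,z1],z2)],[]]],
    [.old (.leafM k0 [k0,k3,k4,k5] [] [(k1,k2,z1,[y1,z1]),(k2,k1,z1,[y1,z1])]),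
    .old (.lp [k0,k2,k0,k2,k0,k2] [k1,k1,k0,k0,k1,k1,k0,k0,k1,k1,k0,k0] k0 [] k4 k5
    [[(k10,k1)],[(k3,k1),(k7,k1)],[(k0,k1),(k4,k1)],[(k5,k1),(k8,k1)],[(k2,k1),(k11,k1)],[(k3,k1),(k7,k1)],[(k0,k1),
    (k4,k1)],[(k9,k1)],[(k6,k1)],[(k2,k1),(k11,k1)],[(k5,k1),(k8,k1)],[(k1,k1)]]
    [] k0
    [[k0,k1,k1,k0,k0,k0]]
    [.ref k0 k0 [(z1,[y1,z1])]])]⟩

/-- classes `0 1 0 2 1 3`, types `C0 C0 C0 C0 C2 S0` -/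
noncomputable def cU6_2187 : CertX :=
  ⟨[k4,k20,k4,k36,k22,k48],[(false,k0,[k0,k1,k2,k3,k4,k5])],[[[([z1,z0,z0,z1,z1,z1],z2)],[]]],
    [.old (.leafM k0 [k0,k3,k4,k5] [] [(k1,k2,z1,[y1,z1]),(k2,k1,z1,[y1,z1])]),
    .old (.lp [k2,k2,k2,k2,k2,k2] [k0,k0,k0,k0,k0,k0,k0,k0,k0,k0,k0,k0] k0 [] k8 k5
    [[(k1,k2),(k10,k2)],[(k3,k2),(k7,k2)],[(k0,k2),(k4,k2)],[(k5,k2),(k8,k2)],[(k2,k2),(k11,k2)],[(k3,k2),(k7,k2)],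
    [(k0,k2),(k4,k2)],[(k9,k2)],[(k6,k2)],[(k2,k2),(k11,k2)],[(k5,k2),(k8,k2)],[(k1,k2),(k10,k2)]]
    [] k0
    [[k0,k1,k1,k0,k0,k0]]
    [.ref k0 k0 [(z1,[y1,z1])]])]⟩

/-- classes `0 1 0 2 1 3`, types `C0 C0 C0 S0 C0 S0` -/
noncomputable def cU6_2188 : CertX :=
  ⟨[k4,k20,k4,k32,k20,k48],[(false,k0,[k0,k1,k2,k3,k4,k5])],[[[([z1,z0,z0,z1,z1,z1],z2)],[([z1,z1,z0,z0,z0,z1],z2)],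
    []]],
    [.old (.leafM k0 [k0,k3,k4,k5] [] [(k1,k2,z1,[y1,z1]),(k2,k1,z1,[y1,z1])]),
    .old (.leafM k0 [k1,k2,k3,k4,k5,k0] [(z1,[y1,z1])] []),
    .old (.lp [k2,k2,k2,k4,k2,k2] [k1,k1,k1,k1,k1,k1,k0,k0,k1,k1,k1,k1] k0 [] k8 k5
    [[(k1,k2),(k10,k2)],[(k3,k2),(k7,k3)],[(k0,k2),(k4,k2)],[(k5,k2),(k11,k2)],[(k2,k2),(k8,k2)],[(k3,k2),(k7,k3)],
    [(k0,k3),(k4,k3)],[(k9,k3),(k6,k4)],[(k9,k2),(k6,k3)],[(k5,k2),(k11,k2)],[(k2,k2),(k8,k2)],[(k1,k2),(k10,k2)]]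
    [] k0
    [[k1,k1,k0,k0,k0,k1],[k0,k1,k1,k0,k0,k0]]
    [.ref k1 k0 [(z1,[z1])],.ref k0 k0 [(z1,[y1,z1])]])]⟩

/-- classes `0 1 0 2 1 3`, types `C0 C0 C0 S0 C2 S0` -/
noncomputable def cU6_2189 : CertX :=
  ⟨[k4,k20,k4,k32,k22,k48],[(false,k0,[k0,k1,k2,k3,k4,k5])],[[[([z1,z0,z0,z1,z1,z1],z2)],[]]],
    [.old (.leafM k0 [k0,k3,k4,k5] [] [(k1,k2,z1,[y1,z1]),(k2,k1,z1,[y1,z1])]),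
    .old (.lp [k2,k2,k2,k2,k2,k2] [k0,k0,k0,k0,k0,k0,k0,k0,k0,k0,k0,k0] k0 [] k8 k5
    [[(k1,k2),(k10,k2)],[(k3,k2),(k7,k2)],[(k0,k2),(k4,k2)],[(k5,k2),(k8,k2)],[(k2,k2),(k11,k2)],[(k3,k2),(k7,k2)],
    [(k0,k2),(k4,k2)],[(k6,k2),(k9,k2)],[(k6,k2),(k9,k2)],[(k2,k2),(k11,k2)],[(k5,k2),(k8,k2)],[(k1,k2),(k10,k2)]]
    [] k0
    [[k0,k1,k1,k0,k0,k0]]
    [.ref k0 k0 [(z1,[y1,z1])]])]⟩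

/-- classes `0 1 0 2 1 3`, types `C0 C0 C2 C0 C0 C0` -/
noncomputable def cU6_2190 : CertX :=
  ⟨[k4,k20,k6,k36,k20,k52],[(false,k0,[k0,k1,k2,k3,k4,k5])],[[[([z1,z1,z0,z0,z0,z1],z2)],[]]],
    [.old (.leafM k0 [k1,k2,k3,k4,k5,k0] [(z1,[y1,z1])] []),
    .old (.lp [k2,k2,k2,k2,k4,k2] [k1,k1,k1,k1,k1,k1,k1,k1,k0,k0,k1,k1] k0 [] k8 k5
    [[(k10,k2)],[(k3,k2),(k4,k2)],[(k0,k2),(k7,k2)],[(k5,k2),(k11,k2)],[(k2,k2),(k8,k3)],[(k0,k2),(k7,k2)],[(k3,k2),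
    (k4,k2)],[(k9,k3)],[(k6,k3)],[(k5,k3),(k11,k3)],[(k2,k2),(k8,k3)],[(k1,k2)]]
    [] k0
    [[k1,k1,k0,k0,k0,k1]]
    [.ref k0 k0 [(z1,[z1])]])]⟩

/-- classes `0 1 0 2 1 3`, types `C0 C0 C2 C0 C0 S0` -/
noncomputable def cU6_2191 : CertX :=
  ⟨[k4,k20,k6,k36,k20,k48],[(false,k0,[k0,k1,k2,k3,k4,k5])],[[[([z1,z1,z0,z0,z0,z1],z2)],[]]],
    [.old (.leafM k0 [k1,k2,k3,k4,k5,k0] [(z1,[y1,z1])] []),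
    .old (.lp [k4,k2,k2,k2,k2,k2] [k0,k0,k1,k1,k1,k1,k1,k1,k1,k1,k1,k1] k0 [] k8 k5
    [[(k10,k3),(k1,k4)],[(k3,k3),(k4,k3)],[(k7,k2),(k0,k3)],[(k5,k2),(k11,k2)],[(k2,k2),(k8,k2)],[(k7,k2),(k0,k3)],
    [(k3,k2),(k4,k2)],[(k9,k2)],[(k6,k2)],[(k5,k2),(k11,k2)],[(k2,k2),(k8,k2)],[(k10,k2),(k1,k3)]]
    [] k0
    [[k0,k0,k1,k1,k1,k0]]
    [.ref k0 k0 [(z1,[y1,z1])]])]⟩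

/-- classes `0 1 0 2 1 3`, types `C0 C0 C2 C0 C2 C0` -/
noncomputable def cU6_2192 : CertX :=
  ⟨[k4,k20,k6,k36,k22,k52],[(false,k0,[k0,k1,k2,k3,k4,k5])],[[[([z1,z0,z1,z0,z0,z1],z2)],[]]],
    [.old (.leafM k3 [k0,k1,k2,k3,k4,k5] [(z1,[y1,z1])] []),
    .old (.lp [k2,k2,k2,k2,k2,k4] [k1,k1,k1,k1,k1,k1,k1,k1,k1,k1,k0,k0] k0 [] k8 k5
    [[(k10,k3)],[(k3,k2),(k4,k2)],[(k0,k2),(k7,k2)],[(k5,k2),(k8,k2)],[(k2,k2),(k11,k3)],[(k0,k2),(k7,k2)],[(k3,k2),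
    (k4,k2)],[(k9,k2)],[(k6,k2)],[(k2,k2),(k11,k3)],[(k5,k3),(k8,k3)],[(k1,k3)]]
    [] k0
    [[k0,k1,k0,k1,k1,k0]]
    [.ref k0 k0 [(z1,[y1,z1])]])]⟩

/-- classes `0 1 0 2 1 3`, types `C0 C0 C2 C0 C2 S0` -/
noncomputable def cU6_2193 : CertX :=
  ⟨[k4,k20,k6,k36,k22,k48],[(false,k0,[k0,k1,k2,k3,k4,k5])],[[[([z1,z0,z1,z0,z0,z1],z2)],[]]],
    [.old (.leafM k3 [k0,k1,k2,k3,k4,k5] [(z1,[y1,z1])] []),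
    .old (.lp [k4,k2,k2,k2,k2,k2] [k0,k0,k1,k1,k1,k1,k1,k1,k1,k1,k1,k1] k0 [] k8 k5
    [[(k10,k3),(k1,k4)],[(k3,k3),(k4,k3)],[(k7,k2),(k0,k3)],[(k5,k2),(k8,k2)],[(k2,k2),(k11,k2)],[(k7,k2),(k0,k3)],
    [(k3,k2),(k4,k2)],[(k9,k2)],[(k6,k2)],[(k2,k2),(k11,k2)],[(k5,k2),(k8,k2)],[(k10,k2),(k1,k3)]]
    [] k0
    [[k0,k1,k0,k1,k1,k0]]
    [.ref k0 k0 [(z1,[y1,z1])]])]⟩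

/-- classes `0 1 0 2 1 3`, types `C0 C0 C2 S0 C0 S0` -/
noncomputable def cU6_2194 : CertX :=
  ⟨[k4,k20,k6,k32,k20,k48],[(false,k0,[k0,k1,k2,k3,k4,k5])],[[[([z1,z1,z0,z0,z0,z1],z2)],[]]],
    [.old (.leafM k0 [k1,k2,k3,k4,k5,k0] [(z1,[y1,z1])] []),
    .old (.lp [k2,k2,k2,k4,k2,k2] [k1,k1,k1,k1,k1,k1,k0,k0,k1,k1,k1,k1] k0 [] k8 k5
    [[(k1,k2),(k10,k2)],[(k3,k2),(k4,k2)],[(k0,k2),(k7,k3)],[(k5,k2),(k11,k2)],[(k2,k2),(k8,k2)],[(k0,k2),(k7,k3)],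
    [(k3,k3),(k4,k3)],[(k9,k3),(k6,k4)],[(k9,k2),(k6,k3)],[(k5,k2),(k11,k2)],[(k2,k2),(k8,k2)],[(k1,k2),(k10,k2)]]
    [] k0
    [[k1,k1,k0,k0,k0,k1]]
    [.ref k0 k0 [(z1,[z1])]])]⟩

/-- classes `0 1 0 2 1 3`, types `C0 C0 C2 S0 C2 S0` -/
noncomputable def cU6_2195 : CertX :=
  ⟨[k4,k20,k6,k32,k22,k48],[(false,k0,[k0,k1,k2,k3,k4,k5])],[[[([z1,z0,z1,z0,z0,z1],z2)],[]]],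
    [.old (.leafM k3 [k0,k1,k2,k3,k4,k5] [(z1,[y1,z1])] []),
    .old (.lp [k2,k2,k4,k2,k2,k2] [k1,k1,k1,k1,k0,k0,k1,k1,k1,k1,k1,k1] k0 [] k8 k5
    [[(k1,k2),(k10,k2)],[(k3,k2),(k4,k3)],[(k0,k2),(k7,k2)],[(k8,k2),(k5,k3)],[(k2,k3),(k11,k3)],[(k0,k3),(k7,k3)],
    [(k3,k2),(k4,k3)],[(k6,k2),(k9,k2)],[(k6,k2),(k9,k2)],[(k2,k2),(k11,k2)],[(k8,k2),(k5,k3)],[(k1,k2),(k10,k2)]]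
    [] k0
    [[k0,k1,k0,k1,k1,k0]]
    [.ref k0 k0 [(z1,[y1,z1])]])]⟩

/-- classes `0 1 0 2 1 3`, types `C0 N0 C0 C0 N1 C0` -/
noncomputable def cU6_2196 : CertX :=
  ⟨[k4,k28,k4,k36,k29,k52],[(false,k0,[k0,k1,k2,k3,k4,k5])],[[[([z1,z1,z0,z0,z0,z1],z2)],[]]],
    [.old (.leafM k0 [k1,k2,k3,k4,k5,k0] [(z1,[y1,z1])] []),
    .old (.lp [k2,k2,k2,k2,k2,k4] [k1,k1,k1,k1,k1,k1,k1,k1,k1,k1,k0,k0] k0 [] k8 k5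
    [[(k10,k3)],[(k3,k2),(k7,k2)],[(k0,k2),(k4,k2)],[(k11,k3)],[(k8,k2)],[(k3,k2),(k7,k2)],[(k0,k2),(k4,k2)],[(k9,
    k2)],[(k6,k2)],[(k5,k2)],[(k2,k3)],[(k1,k3)]]
    [] k0
    [[k0,k0,k1,k1,k1,k0]]
    [.ref k0 k0 [(z1,[y1,z1])]])]⟩

/-- classes `0 1 0 2 1 3`, types `C0 N0 C0 C0 N1 S0` -/
noncomputable def cU6_2197 : CertX :=
  ⟨[k4,k28,k4,k36,k29,k48],[(false,k0,[k0,k1,k2,k3,k4,k5])],[[[([z1,z1,z0,z0,z0,z1],z2)],[]]],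
    [.old (.leafM k0 [k1,k2,k3,k4,k5,k0] [(z1,[y1,z1])] []),
    .old (.lp [k4,k2,k2,k2,k2,k2] [k0,k0,k1,k1,k1,k1,k1,k1,k1,k1,k1,k1] k0 [] k8 k5
    [[(k10,k3),(k1,k4)],[(k3,k3),(k7,k3)],[(k4,k2),(k0,k3)],[(k11,k2)],[(k8,k2)],[(k3,k2),(k7,k2)],[(k4,k2),(k0,k3)],
    [(k9,k2)],[(k6,k2)],[(k5,k2)],[(k2,k2)],[(k10,k2),(k1,k3)]]
    [] k0
    [[k0,k0,k1,k1,k1,k0]]
    [.ref k0 k0 [(z1,[y1,z1])]])]⟩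

/-- classes `0 1 0 2 1 3`, types `C0 N0 C0 C0 N2 C0` -/
noncomputable def cU6_2198 : CertX :=
  ⟨[k4,k28,k4,k36,k30,k52],[],[[[]]],
    [.old (.lp [k0,k2,k0,k2,k0,k2] [k1,k1,k0,k0,k1,k1,k0,k0,k1,k1,k0,k0] k0 [] k4 k5
    [[(k10,k1)],[(k3,k1),(k7,k1)],[(k0,k1),(k4,k1)],[(k8,k1)],[(k11,k1)],[(k3,k1),(k7,k1)],[(k0,k1),(k4,k1)],[(k9,
    k1)],[(k6,k1)],[(k2,k1)],[(k5,k1)],[(k1,k1)]]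
    [] k0
    []
    [])]⟩

/-- classes `0 1 0 2 1 3`, types `C0 N0 C0 C0 N2 S0` -/
noncomputable def cU6_2199 : CertX :=
  ⟨[k4,k28,k4,k36,k30,k48],[],[[[]]],
    [.old (.lp [k2,k2,k2,k2,k2,k2] [k0,k0,k0,k0,k0,k0,k0,k0,k0,k0,k0,k0] k0 [] k8 k5
    [[(k1,k2),(k10,k2)],[(k3,k2),(k7,k2)],[(k0,k2),(k4,k2)],[(k8,k2)],[(k11,k2)],[(k3,k2),(k7,k2)],[(k0,k2),(k4,k2)],
    [(k9,k2)],[(k6,k2)],[(k2,k2)],[(k5,k2)],[(k1,k2),(k10,k2)]]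
    [] k0
    []
    [])]⟩

/-- classes `0 1 0 2 1 3`, types `C0 N0 C0 S0 N1 S0` -/
noncomputable def cU6_2200 : CertX :=
  ⟨[k4,k28,k4,k32,k29,k48],[(false,k0,[k0,k1,k2,k3,k4,k5])],[[[([z1,z1,z0,z0,z0,z1],z2)],[]]],
    [.old (.leafM k0 [k1,k2,k3,k4,k5,k0] [(z1,[y1,z1])] []),
    .old (.lp [k2,k2,k2,k4,k2,k2] [k1,k1,k1,k1,k1,k1,k0,k0,k1,k1,k1,k1] k0 [] k8 k5
    [[(k1,k2),(k10,k2)],[(k3,k2),(k7,k3)],[(k0,k2),(k4,k2)],[(k11,k2)],[(k8,k2)],[(k3,k2),(k7,k3)],[(k0,k3),(k4,k3)],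
    [(k9,k3),(k6,k4)],[(k9,k2),(k6,k3)],[(k5,k2)],[(k2,k2)],[(k1,k2),(k10,k2)]]
    [] k0
    [[k1,k1,k0,k0,k0,k1]]
    [.ref k0 k0 [(z1,[z1])]])]⟩

/-- classes `0 1 0 2 1 3`, types `C0 N0 C0 S0 N2 S0` -/
noncomputable def cU6_2201 : CertX :=
  ⟨[k4,k28,k4,k32,k30,k48],[],[[[]]],
    [.old (.lp [k2,k2,k2,k2,k2,k2] [k0,k0,k0,k0,k0,k0,k0,k0,k0,k0,k0,k0] k0 [] k8 k5
    [[(k1,k2),(k10,k2)],[(k3,k2),(k7,k2)],[(k0,k2),(k4,k2)],[(k8,k2)],[(k11,k2)],[(k3,k2),(k7,k2)],[(k0,k2),(k4,k2)],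
    [(k6,k2),(k9,k2)],[(k6,k2),(k9,k2)],[(k2,k2)],[(k5,k2)],[(k1,k2),(k10,k2)]]
    [] k0
    []
    [])]⟩

/-- classes `0 1 0 2 1 3`, types `C0 N0 C2 C0 N1 C0` -/
noncomputable def cU6_2202 : CertX :=
  ⟨[k4,k28,k6,k36,k29,k52],[(false,k0,[k0,k1,k2,k3,k4,k5])],[[[([z1,z1,z0,z0,z0,z1],z2)],[]]],
    [.old (.leafM k0 [k1,k2,k3,k4,k5,k0] [(z1,[y1,z1])] []),
    .old (.lp [k2,k2,k2,k2,k4,k2] [k1,k1,k1,k1,k1,k1,k1,k1,k0,k0,k1,k1] k0 [] k8 k5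
    [[(k10,k2)],[(k3,k2),(k4,k2)],[(k0,k2),(k7,k2)],[(k11,k2)],[(k8,k3)],[(k0,k2),(k7,k2)],[(k3,k2),(k4,k2)],[(k9,
    k3)],[(k6,k3)],[(k5,k3)],[(k2,k2)],[(k1,k2)]]
    [] k0
    [[k1,k1,k0,k0,k0,k1]]
    [.ref k0 k0 [(z1,[z1])]])]⟩

/-- classes `0 1 0 2 1 3`, types `C0 N0 C2 C0 N1 S0` -/
noncomputable def cU6_2203 : CertX :=
  ⟨[k4,k28,k6,k36,k29,k48],[(false,k0,[k0,k1,k2,k3,k4,k5])],[[[([z1,z1,z0,z0,z0,z1],z2)],[]]],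
    [.old (.leafM k0 [k1,k2,k3,k4,k5,k0] [(z1,[y1,z1])] []),
    .old (.lp [k4,k2,k2,k2,k2,k2] [k0,k0,k1,k1,k1,k1,k1,k1,k1,k1,k1,k1] k0 [] k8 k5
    [[(k10,k3),(k1,k4)],[(k3,k3),(k4,k3)],[(k7,k2),(k0,k3)],[(k11,k2)],[(k8,k2)],[(k7,k2),(k0,k3)],[(k3,k2),(k4,k2)],
    [(k9,k2)],[(k6,k2)],[(k5,k2)],[(k2,k2)],[(k10,k2),(k1,k3)]]
    [] k0
    [[k0,k0,k1,k1,k1,k0]]
    [.ref k0 k0 [(z1,[y1,z1])]])]⟩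

/-- classes `0 1 0 2 1 3`, types `C0 N0 C2 C0 N2 C0` -/
noncomputable def cU6_2204 : CertX :=
  ⟨[k4,k28,k6,k36,k30,k52],[(false,k0,[k0,k1,k2,k3,k4,k5])],[[[([z1,z0,z1,z0,z0,z1],z2)],[]]],
    [.old (.leafM k3 [k0,k1,k2,k3,k4,k5] [(z1,[y1,z1])] []),
    .old (.lp [k2,k2,k2,k2,k2,k4] [k1,k1,k1,k1,k1,k1,k1,k1,k1,k1,k0,k0] k0 [] k8 k5
    [[(k10,k3)],[(k3,k2),(k4,k2)],[(k0,k2),(k7,k2)],[(k8,k2)],[(k11,k3)],[(k0,k2),(k7,k2)],[(k3,k2),(k4,k2)],[(k9,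
    k2)],[(k6,k2)],[(k2,k2)],[(k5,k3)],[(k1,k3)]]
    [] k0
    [[k0,k1,k0,k1,k1,k0]]
    [.ref k0 k0 [(z1,[y1,z1])]])]⟩

/-- classes `0 1 0 2 1 3`, types `C0 N0 C2 C0 N2 S0` -/
noncomputable def cU6_2205 : CertX :=
  ⟨[k4,k28,k6,k36,k30,k48],[(false,k0,[k0,k1,k2,k3,k4,k5])],[[[([z1,z0,z1,z0,z0,z1],z2)],[]]],
    [.old (.leafM k3 [k0,k1,k2,k3,k4,k5] [(z1,[y1,z1])] []),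
    .old (.lp [k4,k2,k2,k2,k2,k2] [k0,k0,k1,k1,k1,k1,k1,k1,k1,k1,k1,k1] k0 [] k8 k5
    [[(k10,k3),(k1,k4)],[(k3,k3),(k4,k3)],[(k7,k2),(k0,k3)],[(k8,k2)],[(k11,k2)],[(k7,k2),(k0,k3)],[(k3,k2),(k4,k2)],
    [(k9,k2)],[(k6,k2)],[(k2,k2)],[(k5,k2)],[(k10,k2),(k1,k3)]]
    [] k0
    [[k0,k1,k0,k1,k1,k0]]
    [.ref k0 k0 [(z1,[y1,z1])]])]⟩

/-- classes `0 1 0 2 1 3`, types `C0 N0 C2 S0 N1 S0` -/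
noncomputable def cU6_2206 : CertX :=
  ⟨[k4,k28,k6,k32,k29,k48],[(false,k0,[k0,k1,k2,k3,k4,k5])],[[[([z1,z1,z0,z0,z0,z1],z2)],[]]],
    [.old (.leafM k0 [k1,k2,k3,k4,k5,k0] [(z1,[y1,z1])] []),
    .old (.lp [k2,k2,k2,k4,k2,k2] [k1,k1,k1,k1,k1,k1,k0,k0,k1,k1,k1,k1] k0 [] k8 k5
    [[(k1,k2),(k10,k2)],[(k3,k2),(k4,k2)],[(k0,k2),(k7,k3)],[(k11,k2)],[(k8,k2)],[(k0,k2),(k7,k3)],[(k3,k3),(k4,k3)],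
    [(k9,k3),(k6,k4)],[(k9,k2),(k6,k3)],[(k5,k2)],[(k2,k2)],[(k1,k2),(k10,k2)]]
    [] k0
    [[k1,k1,k0,k0,k0,k1]]
    [.ref k0 k0 [(z1,[z1])]])]⟩

/-- classes `0 1 0 2 1 3`, types `C0 N0 C2 S0 N2 S0` -/
noncomputable def cU6_2207 : CertX :=
  ⟨[k4,k28,k6,k32,k30,k48],[(false,k0,[k0,k1,k2,k3,k4,k5])],[[[([z1,z0,z1,z0,z0,z1],z2)],[]]],
    [.old (.leafM k3 [k0,k1,k2,k3,k4,k5] [(z1,[y1,z1])] []),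
    .old (.lp [k2,k2,k4,k2,k2,k2] [k1,k1,k1,k1,k0,k0,k1,k1,k1,k1,k1,k1] k0 [] k8 k5
    [[(k1,k2),(k10,k2)],[(k3,k2),(k4,k3)],[(k0,k2),(k7,k2)],[(k8,k2)],[(k11,k3)],[(k0,k3),(k7,k3)],[(k3,k2),(k4,k3)],
    [(k6,k2),(k9,k2)],[(k6,k2),(k9,k2)],[(k2,k2)],[(k5,k3)],[(k1,k2),(k10,k2)]]
    [] k0
    [[k0,k1,k0,k1,k1,k0]]
    [.ref k0 k0 [(z1,[y1,z1])]])]⟩

/-- classes `0 1 0 2 1 3`, types `C0 S0 C0 C0 S0 C0` -/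
noncomputable def cU6_2208 : CertX :=
  ⟨[k4,k16,k4,k36,k16,k52],[(false,k0,[k0,k1,k2,k3,k4,k5])],[[[([z1,z1,z0,z0,z0,z1],z2)],[([z1,z0,z0,z1,z1,z1],z2)],
    []]],
    [.old (.leafM k0 [k1,k2,k3,k4,k5,k0] [(z1,[y1,z1])] []),
    .old (.leafM k0 [k0,k3,k4,k5] [] [(k1,k2,z1,[y1,z1]),(k2,k1,z1,[y1,z1])]),
    .old (.lp [k2,k4,k2,k2,k2,k2] [k1,k1,k0,k0,k1,k1,k1,k1,k1,k1,k1,k1] k0 [] k8 k5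
    [[(k10,k2)],[(k7,k2),(k3,k3)],[(k0,k3),(k4,k3)],[(k5,k3),(k8,k3),(k11,k3),(k2,k4)],[(k5,k2),(k8,k2),(k11,k2),(k2,
    k3)],[(k7,k2),(k3,k3)],[(k0,k2),(k4,k2)],[(k9,k2)],[(k6,k2)],[(k5,k2),(k8,k2),(k11,k2),(k2,k3)],[(k5,k2),(k8,k2),
    (k11,k2),(k2,k3)],[(k1,k2)]]
    [] k0
    [[k0,k1,k1,k0,k0,k0],[k0,k0,k1,k1,k1,k0]]
    [.ref k1 k0 [(z1,[y1,z1])],.ref k0 k0 [(z1,[y1,z1])]])]⟩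

/-- classes `0 1 0 2 1 3`, types `C0 S0 C0 C0 S0 S0` -/
noncomputable def cU6_2209 : CertX :=
  ⟨[k4,k16,k4,k36,k16,k48],[(false,k0,[k0,k1,k2,k3,k4,k5])],[[[([z1,z1,z0,z0,z0,z1],z2)],[([z1,z0,z0,z1,z1,z1],z2)],
    []]],
    [.old (.leafM k0 [k1,k2,k3,k4,k5,k0] [(z1,[y1,z1])] []),
    .old (.leafM k0 [k0,k3,k4,k5] [] [(k1,k2,z1,[y1,z1]),(k2,k1,z1,[y1,z1])]),
    .old (.lp [k2,k2,k2,k2,k2,k4] [k1,k1,k1,k1,k1,k1,k1,k1,k1,k1,k0,k0] k0 [] k8 k5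
    [[(k1,k2),(k10,k3)],[(k3,k2),(k7,k2)],[(k0,k2),(k4,k2)],[(k2,k2),(k5,k2),(k8,k2),(k11,k3)],[(k2,k2),(k5,k2),(k8,
    k2),(k11,k3)],[(k3,k2),(k7,k2)],[(k0,k2),(k4,k2)],[(k9,k2)],[(k6,k2)],[(k2,k2),(k5,k2),(k8,k2),(k11,k3)],[(k2,k3),
    (k5,k3),(k8,k3),(k11,k4)],[(k1,k3),(k10,k4)]]
    [] k0
    [[k0,k1,k1,k0,k0,k0],[k0,k0,k1,k1,k1,k0]]
    [.ref k1 k0 [(z1,[y1,z1])],.ref k0 k0 [(z1,[y1,z1])]])]⟩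

/-- classes `0 1 0 2 1 3`, types `C0 S0 C0 S0 S0 S0` -/
noncomputable def cU6_2210 : CertX :=
  ⟨[k4,k16,k4,k32,k16,k48],[(false,k0,[k0,k1,k2,k3,k4,k5])],[[[([z1,z1,z0,z0,z0,z1],z2)],[([z1,z0,z0,z1,z1,z1],z2)],
    []]],
    [.old (.leafM k0 [k1,k2,k3,k4,k5,k0] [(z1,[y1,z1])] []),
    .old (.leafM k0 [k0,k3,k4,k5] [] [(k1,k2,z1,[y1,z1]),(k2,k1,z1,[y1,z1])]),
    .old (.lp [k8,k6,k6,k6,k12,k6] [k4,k4,k5,k5,k5,k5,k5,k5,k0,k4,k5,k5] k0 [[],[],[],[k0,k0,k0,k0,k0,k0,k0,k0,k0,k4],[],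
    [],[],[],[k0,k0,k4]] k24 k5
    [[(k10,k7),(k1,k8)],[(k3,k7),(k7,k7)],[(k4,k6),(k0,k7)],[(k2,k6),(k5,k6),(k11,k10),(k8,k11)],[(k2,k6),(k5,k6),
    (k11,k6),(k8,k7)],[(k3,k6),(k7,k6)],[(k4,k6),(k0,k7)],[(k6,k6),(k9,k7)],[(k6,k7),(k9,k8)],[(k5,k7),(k2,k11),(k11,
    k11),(k8,k16)],[(k5,k6),(k11,k6),(k2,k10),(k8,k11)],[(k10,k6),(k1,k7)]]
    [] k0
    [[k0,k1,k1,k0,k0,k0],[k0,k0,k1,k1,k1,k0],[k0,k0,k0,k0,k0,k2]]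
    [.ref k1 k0 [(z1,[y1,z1])],.ref k0 k0 [(z1,[y1,z1])],.contra [z1]])]⟩

/-- classes `0 1 0 2 1 3`, types `C0 S0 C2 C0 S0 C0` -/
noncomputable def cU6_2211 : CertX :=
  ⟨[k4,k16,k6,k36,k16,k52],[(false,k0,[k0,k1,k2,k3,k4,k5])],[[[([z1,z0,z1,z0,z0,z1],z2)],[([z1,z1,z0,z0,z0,z1],z2)],
    []]],
    [.old (.leafM k3 [k0,k1,k2,k3,k4,k5] [(z1,[y1,z1])] []),
    .old (.leafM k0 [k1,k2,k3,k4,k5,k0] [(z1,[y1,z1])] []),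
    .old (.lp [k2,k2,k2,k4,k2,k2] [k1,k1,k1,k1,k1,k1,k0,k0,k1,k1,k1,k1] k0 [] k8 k5
    [[(k10,k2)],[(k3,k2),(k4,k2)],[(k0,k2),(k7,k3)],[(k2,k2),(k5,k2),(k8,k2),(k11,k2)],[(k2,k2),(k5,k2),(k8,k2),(k11,
    k2)],[(k0,k2),(k7,k3)],[(k3,k3),(k4,k3)],[(k9,k3)],[(k6,k3)],[(k2,k2),(k5,k2),(k8,k2),(k11,k2)],[(k2,k2),(k5,k2),
    (k8,k2),(k11,k2)],[(k1,k2)]]
    [] k0
    [[k1,k1,k0,k0,k0,k1],[k1,k0,k1,k0,k0,k1]]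
    [.ref k1 k0 [(z1,[z1])],.ref k0 k0 [(z1,[z1])]])]⟩

/-- classes `0 1 0 2 1 3`, types `C0 S0 C2 C0 S0 S0` -/
noncomputable def cU6_2212 : CertX :=
  ⟨[k4,k16,k6,k36,k16,k48],[(false,k0,[k0,k1,k2,k3,k4,k5])],[[[([z1,z0,z1,z0,z0,z1],z2)],[([z1,z1,z0,z0,z0,z1],z2)],
    []]],
    [.old (.leafM k3 [k0,k1,k2,k3,k4,k5] [(z1,[y1,z1])] []),
    .old (.leafM k0 [k1,k2,k3,k4,k5,k0] [(z1,[y1,z1])] []),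
    .old (.lp [k6,k6,k6,k6,k10,k10] [k2,k2,k2,k2,k2,k2,k2,k2,k0,k0,k0,k0] k0 [[],[],[k0,k0,k0,k0,k0,k0,k0,k0,k2],[k0,k0,
    k0,k0,k0,k0,k0,k0,k2],[],[],[],[],[k0,k0,k0,k0,k0,k0,k0,k0,k0,k4],[k0,k0,k2,k2]] k24 k5
    [[(k1,k6),(k10,k8)],[(k3,k6),(k4,k6)],[(k0,k6),(k7,k6)],[(k2,k6),(k5,k6),(k11,k6),(k8,k10)],[(k2,k6),(k5,k6),(k11,
    k6),(k8,k10)],[(k0,k6),(k7,k6)],[(k3,k6),(k4,k6)],[(k9,k8)],[(k6,k8)],[(k8,k6),(k2,k10),(k5,k10),(k11,k10)],[(k2,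
    k6),(k5,k6),(k8,k10),(k11,k14)],[(k1,k8),(k10,k10)]]
    [] k0
    [[k1,k1,k0,k0,k0,k1],[k1,k0,k1,k0,k0,k1]]
    [.ref k1 k0 [(z1,[z1])],.ref k0 k0 [(z1,[z1])]])]⟩

/-- classes `0 1 0 2 1 3`, types `C0 S0 C2 S0 S0 S0` -/
noncomputable def cU6_2213 : CertX :=
  ⟨[k4,k16,k6,k32,k16,k48],[(false,k0,[k0,k1,k2,k3,k4,k5])],[[[([z1,z0,z1,z0,z0,z1],z2)],[([z1,z1,z0,z0,z0,z1],z2)],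
    []]],
    [.old (.leafM k3 [k0,k1,k2,k3,k4,k5] [(z1,[y1,z1])] []),
    .old (.leafM k0 [k1,k2,k3,k4,k5,k0] [(z1,[y1,z1])] []),
    .old (.lp [k2,k2,k2,k2,k4,k2] [k1,k1,k1,k1,k1,k1,k1,k1,k0,k0,k1,k1] k0 [] k8 k5
    [[(k1,k2),(k10,k2)],[(k3,k2),(k4,k2)],[(k0,k2),(k7,k2)],[(k2,k2),(k5,k2),(k11,k2),(k8,k3)],[(k2,k2),(k5,k2),(k11,
    k2),(k8,k3)],[(k0,k2),(k7,k2)],[(k3,k2),(k4,k2)],[(k6,k2),(k9,k3)],[(k6,k3),(k9,k4)],[(k2,k3),(k5,k3),(k11,k3),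
    (k8,k4)],[(k2,k2),(k5,k2),(k11,k2),(k8,k3)],[(k1,k2),(k10,k2)]]
    [] k0
    [[k1,k1,k0,k0,k0,k1],[k1,k0,k1,k0,k0,k1],[k0,k0,k0,k0,k0,k2]]
    [.ref k1 k0 [(z1,[z1])],.ref k0 k0 [(z1,[z1])],.contra [z1]])]⟩

/-- classes `0 1 0 2 1 3`, types `N0 B0 N1 C0 B1 C0` -/
noncomputable def cU6_2214 : CertX :=
  ⟨[k12,k24,k13,k36,k25,k52],[],[[[]]],
    [.old (.lp [k2,k2,k2,k2,k2,k2] [k0,k0,k0,k0,k0,k0,k0,k0,k0,k0,k0,k0] k0 [] k8 k5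
    [[(k10,k2)],[(k7,k2)],[(k4,k2)],[(k8,k2),(k11,k2)],[(k8,k2),(k11,k2)],[(k3,k2)],[(k0,k2)],[(k9,k2)],[(k6,k2)],
    [(k2,k2),(k5,k2)],[(k2,k2),(k5,k2)],[(k1,k2)]]
    [] k0
    []
    [])]⟩

/-- classes `0 1 0 2 1 3`, types `N0 B0 N1 C0 B1 S0` -/
noncomputable def cU6_2215 : CertX :=
  ⟨[k12,k24,k13,k36,k25,k48],[],[[[]]],
    [.old (.lp [k2,k2,k2,k2,k2,k2] [k0,k0,k0,k0,k0,k0,k0,k0,k0,k0,k0,k0] k0 [] k8 k5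
    [[(k1,k2),(k10,k2)],[(k7,k2)],[(k4,k2)],[(k8,k2),(k11,k2)],[(k8,k2),(k11,k2)],[(k3,k2)],[(k0,k2)],[(k9,k2)],[(k6,
    k2)],[(k2,k2),(k5,k2)],[(k2,k2),(k5,k2)],[(k1,k2),(k10,k2)]]
    [] k0
    []
    [])]⟩

/-- classes `0 1 0 2 1 3`, types `N0 B0 N1 S0 B1 S0` -/
noncomputable def cU6_2216 : CertX :=
  ⟨[k12,k24,k13,k32,k25,k48],[],[[[]]],
    [.old (.lp [k2,k2,k2,k2,k2,k2] [k0,k0,k0,k0,k0,k0,k0,k0,k0,k0,k0,k0] k0 [] k8 k5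
    [[(k1,k2),(k10,k2)],[(k7,k2)],[(k4,k2)],[(k8,k2),(k11,k2)],[(k8,k2),(k11,k2)],[(k3,k2)],[(k0,k2)],[(k6,k2),(k9,
    k2)],[(k6,k2),(k9,k2)],[(k2,k2),(k5,k2)],[(k2,k2),(k5,k2)],[(k1,k2),(k10,k2)]]
    [] k0
    []
    [])]⟩

/-- classes `0 1 0 2 1 3`, types `N0 B0 N2 C0 B1 C0` -/
noncomputable def cU6_2217 : CertX :=
  ⟨[k12,k24,k14,k36,k25,k52],[(false,k0,[k0,k1,k2,k3,k4,k5])],[[[([z1,z0,z1,z0,z0,z1],z2)],[]]],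
    [.old (.leafM k3 [k0,k1,k2,k3,k4,k5] [(z1,[y1,z1])] []),
    .old (.lp [k4,k2,k2,k2,k2,k2] [k0,k0,k1,k1,k1,k1,k1,k1,k1,k1,k1,k1] k0 [] k8 k5
    [[(k10,k3)],[(k4,k3)],[(k7,k2)],[(k8,k2),(k11,k2)],[(k8,k2),(k11,k2)],[(k0,k3)],[(k3,k2)],[(k9,k2)],[(k6,k2)],
    [(k2,k2),(k5,k2)],[(k2,k2),(k5,k2)],[(k1,k3)]]
    [] k0
    [[k0,k1,k0,k1,k1,k0]]
    [.ref k0 k0 [(z1,[y1,z1])]])]⟩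

/-- classes `0 1 0 2 1 3`, types `N0 B0 N2 C0 B1 S0` -/
noncomputable def cU6_2218 : CertX :=
  ⟨[k12,k24,k14,k36,k25,k48],[(false,k0,[k0,k1,k2,k3,k4,k5])],[[[([z1,z0,z1,z0,z0,z1],z2)],[]]],
    [.old (.leafM k3 [k0,k1,k2,k3,k4,k5] [(z1,[y1,z1])] []),
    .old (.lp [k2,k2,k2,k4,k2,k2] [k1,k1,k1,k1,k1,k1,k0,k0,k1,k1,k1,k1] k0 [] k8 k5
    [[(k1,k2),(k10,k2)],[(k4,k2)],[(k7,k3)],[(k8,k2),(k11,k2)],[(k8,k2),(k11,k2)],[(k0,k2)],[(k3,k3)],[(k9,k3)],[(k6,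
    k3)],[(k2,k2),(k5,k2)],[(k2,k2),(k5,k2)],[(k1,k2),(k10,k2)]]
    [] k0
    [[k1,k0,k1,k0,k0,k1]]
    [.ref k0 k0 [(z1,[z1])]])]⟩

/-- classes `0 1 0 2 1 3`, types `N0 B0 N2 S0 B1 S0` -/
noncomputable def cU6_2219 : CertX :=
  ⟨[k12,k24,k14,k32,k25,k48],[(false,k0,[k0,k1,k2,k3,k4,k5])],[[[([z1,z0,z1,z0,z0,z1],z2)],[]]],
    [.old (.leafM k3 [k0,k1,k2,k3,k4,k5] [(z1,[y1,z1])] []),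
    .old (.lp [k2,k2,k2,k2,k2,k4] [k1,k1,k1,k1,k1,k1,k1,k1,k1,k1,k0,k0] k0 [] k8 k5
    [[(k1,k2),(k10,k3)],[(k4,k2)],[(k7,k2)],[(k8,k2),(k11,k3)],[(k8,k2),(k11,k3)],[(k0,k2)],[(k3,k2)],[(k6,k2),(k9,
    k2)],[(k6,k2),(k9,k2)],[(k2,k2),(k5,k2)],[(k2,k3),(k5,k3)],[(k1,k3),(k10,k4)]]
    [] k0
    [[k0,k1,k0,k1,k1,k0]]
    [.ref k0 k0 [(z1,[y1,z1])]])]⟩

/-- classes `0 1 0 2 1 3`, types `N0 C0 N1 C0 C0 C0` -/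
noncomputable def cU6_2220 : CertX :=
  ⟨[k12,k20,k13,k36,k20,k52],[(false,k0,[k0,k1,k2,k3,k4,k5])],[[[([z1,z0,z0,z1,z1,z1],z2)],[]]],
    [.old (.leafM k0 [k0,k3,k4,k5] [] [(k1,k2,z1,[y1,z1]),(k2,k1,z1,[y1,z1])]),
    .old (.lp [k2,k2,k0,k0,k2,k0] [k0,k0,k0,k0,k1,k1,k1,k1,k0,k0,k1,k1] k0 [] k4 k5
    [[(k10,k1)],[(k7,k1)],[(k4,k1)],[(k5,k1),(k11,k1)],[(k2,k1),(k8,k1)],[(k3,k1)],[(k0,k1)],[(k9,k1)],[(k6,k1)],[(k5,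
    k1),(k11,k1)],[(k2,k1),(k8,k1)],[(k1,k1)]]
    [] k0
    [[k0,k1,k1,k0,k0,k0]]
    [.ref k0 k0 [(z1,[y1,z1])]])]⟩

/-- classes `0 1 0 2 1 3`, types `N0 C0 N1 C0 C0 S0` -/
noncomputable def cU6_2221 : CertX :=
  ⟨[k12,k20,k13,k36,k20,k48],[(false,k0,[k0,k1,k2,k3,k4,k5])],[[[([z1,z0,z0,z1,z1,z1],z2)],[]]],
    [.old (.leafM k0 [k0,k3,k4,k5] [] [(k1,k2,z1,[y1,z1]),(k2,k1,z1,[y1,z1])]),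
    .old (.lp [k2,k2,k2,k2,k2,k2] [k0,k0,k0,k0,k0,k0,k0,k0,k0,k0,k0,k0] k0 [] k8 k5
    [[(k1,k2),(k10,k2)],[(k7,k2)],[(k4,k2)],[(k5,k2),(k11,k2)],[(k2,k2),(k8,k2)],[(k3,k2)],[(k0,k2)],[(k9,k2)],[(k6,
    k2)],[(k5,k2),(k11,k2)],[(k2,k2),(k8,k2)],[(k1,k2),(k10,k2)]]
    [] k0
    [[k0,k1,k1,k0,k0,k0]]
    [.ref k0 k0 [(z1,[y1,z1])]])]⟩

/-- classes `0 1 0 2 1 3`, types `N0 C0 N1 C0 C2 C0` -/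
noncomputable def cU6_2222 : CertX :=
  ⟨[k12,k20,k13,k36,k22,k52],[(false,k0,[k0,k1,k2,k3,k4,k5])],[[[([z1,z0,z0,z1,z1,z1],z2)],[]]],
    [.old (.leafM k0 [k0,k3,k4,k5] [] [(k1,k2,z1,[y1,z1]),(k2,k1,z1,[y1,z1])]),
    .old (.lp [k0,k2,k0,k2,k0,k2] [k1,k1,k0,k0,k1,k1,k0,k0,k1,k1,k0,k0] k0 [] k4 k5
    [[(k10,k1)],[(k7,k1)],[(k4,k1)],[(k5,k1),(k8,k1)],[(k2,k1),(k11,k1)],[(k3,k1)],[(k0,k1)],[(k9,k1)],[(k6,k1)],[(k2,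
    k1),(k11,k1)],[(k5,k1),(k8,k1)],[(k1,k1)]]
    [] k0
    [[k0,k1,k1,k0,k0,k0]]
    [.ref k0 k0 [(z1,[y1,z1])]])]⟩

/-- classes `0 1 0 2 1 3`, types `N0 C0 N1 C0 C2 S0` -/
noncomputable def cU6_2223 : CertX :=
  ⟨[k12,k20,k13,k36,k22,k48],[(false,k0,[k0,k1,k2,k3,k4,k5])],[[[([z1,z0,z0,z1,z1,z1],z2)],[]]],
    [.old (.leafM k0 [k0,k3,k4,k5] [] [(k1,k2,z1,[y1,z1]),(k2,k1,z1,[y1,z1])]),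
    .old (.lp [k2,k2,k2,k2,k2,k2] [k0,k0,k0,k0,k0,k0,k0,k0,k0,k0,k0,k0] k0 [] k8 k5
    [[(k1,k2),(k10,k2)],[(k7,k2)],[(k4,k2)],[(k5,k2),(k8,k2)],[(k2,k2),(k11,k2)],[(k3,k2)],[(k0,k2)],[(k9,k2)],[(k6,
    k2)],[(k2,k2),(k11,k2)],[(k5,k2),(k8,k2)],[(k1,k2),(k10,k2)]]
    [] k0
    [[k0,k1,k1,k0,k0,k0]]
    [.ref k0 k0 [(z1,[y1,z1])]])]⟩

/-- classes `0 1 0 2 1 3`, types `N0 C0 N1 S0 C0 S0` -/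
noncomputable def cU6_2224 : CertX :=
  ⟨[k12,k20,k13,k32,k20,k48],[(false,k0,[k0,k1,k2,k3,k4,k5])],[[[([z1,z0,z0,z1,z1,z1],z2)],[]]],
    [.old (.leafM k0 [k0,k3,k4,k5] [] [(k1,k2,z1,[y1,z1]),(k2,k1,z1,[y1,z1])]),
    .old (.lp [k2,k2,k2,k2,k2,k2] [k0,k0,k0,k0,k0,k0,k0,k0,k0,k0,k0,k0] k0 [] k8 k5
    [[(k1,k2),(k10,k2)],[(k7,k2)],[(k4,k2)],[(k5,k2),(k11,k2)],[(k2,k2),(k8,k2)],[(k3,k2)],[(k0,k2)],[(k6,k2),(k9,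
    k2)],[(k6,k2),(k9,k2)],[(k5,k2),(k11,k2)],[(k2,k2),(k8,k2)],[(k1,k2),(k10,k2)]]
    [] k0
    [[k0,k1,k1,k0,k0,k0]]
    [.ref k0 k0 [(z1,[y1,z1])]])]⟩

/-- classes `0 1 0 2 1 3`, types `N0 C0 N1 S0 C2 S0` -/
noncomputable def cU6_2225 : CertX :=
  ⟨[k12,k20,k13,k32,k22,k48],[(false,k0,[k0,k1,k2,k3,k4,k5])],[[[([z1,z0,z0,z1,z1,z1],z2)],[]]],
    [.old (.leafM k0 [k0,k3,k4,k5] [] [(k1,k2,z1,[y1,z1]),(k2,k1,z1,[y1,z1])]),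
    .old (.lp [k2,k2,k2,k2,k2,k2] [k0,k0,k0,k0,k0,k0,k0,k0,k0,k0,k0,k0] k0 [] k8 k5
    [[(k1,k2),(k10,k2)],[(k7,k2)],[(k4,k2)],[(k5,k2),(k8,k2)],[(k2,k2),(k11,k2)],[(k3,k2)],[(k0,k2)],[(k6,k2),(k9,
    k2)],[(k6,k2),(k9,k2)],[(k2,k2),(k11,k2)],[(k5,k2),(k8,k2)],[(k1,k2),(k10,k2)]]
    [] k0
    [[k0,k1,k1,k0,k0,k0]]
    [.ref k0 k0 [(z1,[y1,z1])]])]⟩

/-- classes `0 1 0 2 1 3`, types `N0 C0 N2 C0 C0 C0` -/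
noncomputable def cU6_2226 : CertX :=
  ⟨[k12,k20,k14,k36,k20,k52],[],[[[]]],
    [.old (.lp [k2,k2,k0,k0,k2,k0] [k0,k0,k0,k0,k1,k1,k1,k1,k0,k0,k1,k1] k0 [] k4 k5
    [[(k10,k1)],[(k4,k1)],[(k7,k1)],[(k5,k1),(k11,k1)],[(k2,k1),(k8,k1)],[(k0,k1)],[(k3,k1)],[(k9,k1)],[(k6,k1)],[(k5,
    k1),(k11,k1)],[(k2,k1),(k8,k1)],[(k1,k1)]]
    [] k0
    []
    [])]⟩

/-- classes `0 1 0 2 1 3`, types `N0 C0 N2 C0 C0 S0` -/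
noncomputable def cU6_2227 : CertX :=
  ⟨[k12,k20,k14,k36,k20,k48],[],[[[]]],
    [.old (.lp [k2,k2,k2,k2,k2,k2] [k0,k0,k0,k0,k0,k0,k0,k0,k0,k0,k0,k0] k0 [] k8 k5
    [[(k1,k2),(k10,k2)],[(k4,k2)],[(k7,k2)],[(k5,k2),(k11,k2)],[(k2,k2),(k8,k2)],[(k0,k2)],[(k3,k2)],[(k9,k2)],[(k6,
    k2)],[(k5,k2),(k11,k2)],[(k2,k2),(k8,k2)],[(k1,k2),(k10,k2)]]
    [] k0
    []
    [])]⟩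

/-- classes `0 1 0 2 1 3`, types `N0 C0 N2 C0 C2 C0` -/
noncomputable def cU6_2228 : CertX :=
  ⟨[k12,k20,k14,k36,k22,k52],[(false,k0,[k0,k1,k2,k3,k4,k5])],[[[([z1,z0,z1,z0,z0,z1],z2)],[]]],
    [.old (.leafM k3 [k0,k1,k2,k3,k4,k5] [(z1,[y1,z1])] []),
    .old (.lp [k2,k2,k2,k2,k2,k4] [k1,k1,k1,k1,k1,k1,k1,k1,k1,k1,k0,k0] k0 [] k8 k5
    [[(k10,k3)],[(k4,k2)],[(k7,k2)],[(k5,k2),(k8,k2)],[(k2,k2),(k11,k3)],[(k0,k2)],[(k3,k2)],[(k9,k2)],[(k6,k2)],[(k2,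
    k2),(k11,k3)],[(k5,k3),(k8,k3)],[(k1,k3)]]
    [] k0
    [[k0,k1,k0,k1,k1,k0]]
    [.ref k0 k0 [(z1,[y1,z1])]])]⟩

/-- classes `0 1 0 2 1 3`, types `N0 C0 N2 C0 C2 S0` -/
noncomputable def cU6_2229 : CertX :=
  ⟨[k12,k20,k14,k36,k22,k48],[(false,k0,[k0,k1,k2,k3,k4,k5])],[[[([z1,z0,z1,z0,z0,z1],z2)],[]]],
    [.old (.leafM k3 [k0,k1,k2,k3,k4,k5] [(z1,[y1,z1])] []),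
    .old (.lp [k4,k2,k2,k2,k2,k2] [k0,k0,k1,k1,k1,k1,k1,k1,k1,k1,k1,k1] k0 [] k8 k5
    [[(k10,k3),(k1,k4)],[(k4,k3)],[(k7,k2)],[(k5,k2),(k8,k2)],[(k2,k2),(k11,k2)],[(k0,k3)],[(k3,k2)],[(k9,k2)],[(k6,
    k2)],[(k2,k2),(k11,k2)],[(k5,k2),(k8,k2)],[(k10,k2),(k1,k3)]]
    [] k0
    [[k0,k1,k0,k1,k1,k0]]
    [.ref k0 k0 [(z1,[y1,z1])]])]⟩

/-- classes `0 1 0 2 1 3`, types `N0 C0 N2 S0 C0 S0` -/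
noncomputable def cU6_2230 : CertX :=
  ⟨[k12,k20,k14,k32,k20,k48],[],[[[]]],
    [.old (.lp [k2,k2,k2,k2,k2,k2] [k0,k0,k0,k0,k0,k0,k0,k0,k0,k0,k0,k0] k0 [] k8 k5
    [[(k1,k2),(k10,k2)],[(k4,k2)],[(k7,k2)],[(k5,k2),(k11,k2)],[(k2,k2),(k8,k2)],[(k0,k2)],[(k3,k2)],[(k6,k2),(k9,
    k2)],[(k6,k2),(k9,k2)],[(k5,k2),(k11,k2)],[(k2,k2),(k8,k2)],[(k1,k2),(k10,k2)]]
    [] k0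
    []
    [])]⟩

/-- classes `0 1 0 2 1 3`, types `N0 C0 N2 S0 C2 S0` -/
noncomputable def cU6_2231 : CertX :=
  ⟨[k12,k20,k14,k32,k22,k48],[(false,k0,[k0,k1,k2,k3,k4,k5])],[[[([z1,z0,z1,z0,z0,z1],z2)],[]]],
    [.old (.leafM k3 [k0,k1,k2,k3,k4,k5] [(z1,[y1,z1])] []),
    .old (.lp [k2,k2,k4,k2,k2,k2] [k1,k1,k1,k1,k0,k0,k1,k1,k1,k1,k1,k1] k0 [] k8 k5
    [[(k1,k2),(k10,k2)],[(k4,k3)],[(k7,k2)],[(k8,k2),(k5,k3)],[(k2,k3),(k11,k3)],[(k0,k3)],[(k3,k2)],[(k6,k2),(k9,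
    k2)],[(k6,k2),(k9,k2)],[(k2,k2),(k11,k2)],[(k8,k2),(k5,k3)],[(k1,k2),(k10,k2)]]
    [] k0
    [[k0,k1,k0,k1,k1,k0]]
    [.ref k0 k0 [(z1,[y1,z1])]])]⟩

/-- classes `0 1 0 2 1 3`, types `N0 N0 N1 C0 N1 C0` -/
noncomputable def cU6_2232 : CertX :=
  ⟨[k12,k28,k13,k36,k29,k52],[],[[[]]],
    [.old (.lp [k2,k2,k0,k0,k2,k0] [k0,k0,k0,k0,k1,k1,k1,k1,k0,k0,k1,k1] k0 [] k4 k5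
    [[(k10,k1)],[(k7,k1)],[(k4,k1)],[(k11,k1)],[(k8,k1)],[(k3,k1)],[(k0,k1)],[(k9,k1)],[(k6,k1)],[(k5,k1)],[(k2,k1)],
    [(k1,k1)]]
    [] k0
    []
    [])]⟩

/-- classes `0 1 0 2 1 3`, types `N0 N0 N1 C0 N1 S0` -/
noncomputable def cU6_2233 : CertX :=
  ⟨[k12,k28,k13,k36,k29,k48],[],[[[]]],
    [.old (.lp [k2,k2,k2,k2,k2,k2] [k0,k0,k0,k0,k0,k0,k0,k0,k0,k0,k0,k0] k0 [] k8 k5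
    [[(k1,k2),(k10,k2)],[(k7,k2)],[(k4,k2)],[(k11,k2)],[(k8,k2)],[(k3,k2)],[(k0,k2)],[(k9,k2)],[(k6,k2)],[(k5,k2)],
    [(k2,k2)],[(k1,k2),(k10,k2)]]
    [] k0
    []
    [])]⟩

/-- classes `0 1 0 2 1 3`, types `N0 N0 N1 C0 N2 C0` -/
noncomputable def cU6_2234 : CertX :=
  ⟨[k12,k28,k13,k36,k30,k52],[],[[[]]],
    [.old (.lp [k0,k2,k0,k2,k0,k2] [k1,k1,k0,k0,k1,k1,k0,k0,k1,k1,k0,k0] k0 [] k4 k5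
    [[(k10,k1)],[(k7,k1)],[(k4,k1)],[(k8,k1)],[(k11,k1)],[(k3,k1)],[(k0,k1)],[(k9,k1)],[(k6,k1)],[(k2,k1)],[(k5,k1)],
    [(k1,k1)]]
    [] k0
    []
    [])]⟩

/-- classes `0 1 0 2 1 3`, types `N0 N0 N1 C0 N2 S0` -/
noncomputable def cU6_2235 : CertX :=
  ⟨[k12,k28,k13,k36,k30,k48],[],[[[]]],
    [.old (.lp [k2,k2,k2,k2,k2,k2] [k0,k0,k0,k0,k0,k0,k0,k0,k0,k0,k0,k0] k0 [] k8 k5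
    [[(k1,k2),(k10,k2)],[(k7,k2)],[(k4,k2)],[(k8,k2)],[(k11,k2)],[(k3,k2)],[(k0,k2)],[(k9,k2)],[(k6,k2)],[(k2,k2)],
    [(k5,k2)],[(k1,k2),(k10,k2)]]
    [] k0
    []
    [])]⟩

/-- classes `0 1 0 2 1 3`, types `N0 N0 N1 S0 N1 S0` -/
noncomputable def cU6_2236 : CertX :=
  ⟨[k12,k28,k13,k32,k29,k48],[],[[[]]],
    [.old (.lp [k2,k2,k2,k2,k2,k2] [k0,k0,k0,k0,k0,k0,k0,k0,k0,k0,k0,k0] k0 [] k8 k5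
    [[(k1,k2),(k10,k2)],[(k7,k2)],[(k4,k2)],[(k11,k2)],[(k8,k2)],[(k3,k2)],[(k0,k2)],[(k6,k2),(k9,k2)],[(k6,k2),(k9,
    k2)],[(k5,k2)],[(k2,k2)],[(k1,k2),(k10,k2)]]
    [] k0
    []
    [])]⟩

/-- classes `0 1 0 2 1 3`, types `N0 N0 N1 S0 N2 S0` -/
noncomputable def cU6_2237 : CertX :=
  ⟨[k12,k28,k13,k32,k30,k48],[],[[[]]],
    [.old (.lp [k2,k2,k2,k2,k2,k2] [k0,k0,k0,k0,k0,k0,k0,k0,k0,k0,k0,k0] k0 [] k8 k5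
    [[(k1,k2),(k10,k2)],[(k7,k2)],[(k4,k2)],[(k8,k2)],[(k11,k2)],[(k3,k2)],[(k0,k2)],[(k6,k2),(k9,k2)],[(k6,k2),(k9,
    k2)],[(k2,k2)],[(k5,k2)],[(k1,k2),(k10,k2)]]
    [] k0
    []
    [])]⟩

/-- classes `0 1 0 2 1 3`, types `N0 N0 N2 C0 N1 C0` -/
noncomputable def cU6_2238 : CertX :=
  ⟨[k12,k28,k14,k36,k29,k52],[],[[[]]],
    [.old (.lp [k2,k2,k0,k0,k2,k0] [k0,k0,k0,k0,k1,k1,k1,k1,k0,k0,k1,k1] k0 [] k4 k5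
    [[(k10,k1)],[(k4,k1)],[(k7,k1)],[(k11,k1)],[(k8,k1)],[(k0,k1)],[(k3,k1)],[(k9,k1)],[(k6,k1)],[(k5,k1)],[(k2,k1)],
    [(k1,k1)]]
    [] k0
    []
    [])]⟩

/-- classes `0 1 0 2 1 3`, types `N0 N0 N2 C0 N1 S0` -/
noncomputable def cU6_2239 : CertX :=
  ⟨[k12,k28,k14,k36,k29,k48],[],[[[]]],
    [.old (.lp [k2,k2,k2,k2,k2,k2] [k0,k0,k0,k0,k0,k0,k0,k0,k0,k0,k0,k0] k0 [] k8 k5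
    [[(k1,k2),(k10,k2)],[(k4,k2)],[(k7,k2)],[(k11,k2)],[(k8,k2)],[(k0,k2)],[(k3,k2)],[(k9,k2)],[(k6,k2)],[(k5,k2)],
    [(k2,k2)],[(k1,k2),(k10,k2)]]
    [] k0
    []
    [])]⟩

/-- classes `0 1 0 2 1 3`, types `N0 N0 N2 C0 N2 C0` -/
noncomputable def cU6_2240 : CertX :=
  ⟨[k12,k28,k14,k36,k30,k52],[(false,k0,[k0,k1,k2,k3,k4,k5])],[[[([z1,z0,z1,z0,z0,z1],z2)],[]]],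
    [.old (.leafM k3 [k0,k1,k2,k3,k4,k5] [(z1,[y1,z1])] []),
    .old (.lp [k4,k2,k0,k2,k2,k4] [k0,k0,k1,k1,k2,k2,k1,k1,k1,k1,k0,k0] k0 [] k8 k5
    [[(k10,k4)],[(k4,k2)],[(k7,k2)],[(k8,k2)],[(k11,k2)],[(k0,k2)],[(k3,k2)],[(k9,k2)],[(k6,k2)],[(k2,k2)],[(k5,k2)],
    [(k1,k4)]]
    [] k0
    [[k0,k1,k0,k1,k1,k0]]
    [.ref k0 k0 [(z1,[y1,z1])]])]⟩

/-- classes `0 1 0 2 1 3`, types `N0 N0 N2 C0 N2 S0` -/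
noncomputable def cU6_2241 : CertX :=
  ⟨[k12,k28,k14,k36,k30,k48],[(false,k0,[k0,k1,k2,k3,k4,k5])],[[[([z1,z0,z1,z0,z0,z1],z2)],[]]],
    [.old (.leafM k3 [k0,k1,k2,k3,k4,k5] [(z1,[y1,z1])] []),
    .old (.lp [k4,k2,k0,k2,k2,k4] [k0,k0,k1,k1,k2,k2,k1,k1,k1,k1,k0,k0] k0 [] k8 k5
    [[(k1,k4),(k10,k4)],[(k4,k2)],[(k7,k2)],[(k8,k2)],[(k11,k2)],[(k0,k2)],[(k3,k2)],[(k9,k2)],[(k6,k2)],[(k2,k2)],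
    [(k5,k2)],[(k1,k4),(k10,k4)]]
    [] k0
    [[k0,k1,k0,k1,k1,k0]]
    [.ref k0 k0 [(z1,[y1,z1])]])]⟩

/-- classes `0 1 0 2 1 3`, types `N0 N0 N2 S0 N1 S0` -/
noncomputable def cU6_2242 : CertX :=
  ⟨[k12,k28,k14,k32,k29,k48],[],[[[]]],
    [.old (.lp [k2,k2,k2,k2,k2,k2] [k0,k0,k0,k0,k0,k0,k0,k0,k0,k0,k0,k0] k0 [] k8 k5
    [[(k1,k2),(k10,k2)],[(k4,k2)],[(k7,k2)],[(k11,k2)],[(k8,k2)],[(k0,k2)],[(k3,k2)],[(k6,k2),(k9,k2)],[(k6,k2),(k9,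
    k2)],[(k5,k2)],[(k2,k2)],[(k1,k2),(k10,k2)]]
    [] k0
    []
    [])]⟩

/-- classes `0 1 0 2 1 3`, types `N0 N0 N2 S0 N2 S0` -/
noncomputable def cU6_2243 : CertX :=
  ⟨[k12,k28,k14,k32,k30,k48],[(false,k0,[k0,k1,k2,k3,k4,k5])],[[[([z1,z0,z1,z0,z0,z1],z2)],[]]],
    [.old (.leafM k3 [k0,k1,k2,k3,k4,k5] [(z1,[y1,z1])] []),
    .old (.lp [k2,k2,k4,k2,k2,k2] [k1,k1,k1,k1,k0,k0,k1,k1,k1,k1,k1,k1] k0 [] k8 k5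
    [[(k1,k2),(k10,k2)],[(k4,k3)],[(k7,k2)],[(k8,k2)],[(k11,k3)],[(k0,k3)],[(k3,k2)],[(k6,k2),(k9,k2)],[(k6,k2),(k9,
    k2)],[(k2,k2)],[(k5,k3)],[(k1,k2),(k10,k2)]]
    [] k0
    [[k0,k1,k0,k1,k1,k0]]
    [.ref k0 k0 [(z1,[y1,z1])]])]⟩

/-- classes `0 1 0 2 1 3`, types `N0 S0 N1 C0 S0 C0` -/
noncomputable def cU6_2244 : CertX :=
  ⟨[k12,k16,k13,k36,k16,k52],[(false,k0,[k0,k1,k2,k3,k4,k5])],[[[([z1,z0,z0,z1,z1,z1],z2)],[]]],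
    [.old (.leafM k0 [k0,k3,k4,k5] [] [(k1,k2,z1,[y1,z1]),(k2,k1,z1,[y1,z1])]),
    .old (.lp [k2,k2,k2,k2,k2,k2] [k0,k0,k0,k0,k0,k0,k0,k0,k0,k0,k0,k0] k0 [] k8 k5
    [[(k10,k2)],[(k7,k2)],[(k4,k2)],[(k2,k2),(k5,k2),(k8,k2),(k11,k2)],[(k2,k2),(k5,k2),(k8,k2),(k11,k2)],[(k3,k2)],
    [(k0,k2)],[(k9,k2)],[(k6,k2)],[(k2,k2),(k5,k2),(k8,k2),(k11,k2)],[(k2,k2),(k5,k2),(k8,k2),(k11,k2)],[(k1,k2)]]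
    [] k0
    [[k0,k1,k1,k0,k0,k0]]
    [.ref k0 k0 [(z1,[y1,z1])]])]⟩

/-- classes `0 1 0 2 1 3`, types `N0 S0 N1 C0 S0 S0` -/
noncomputable def cU6_2245 : CertX :=
  ⟨[k12,k16,k13,k36,k16,k48],[(false,k0,[k0,k1,k2,k3,k4,k5])],[[[([z1,z0,z0,z1,z1,z1],z2)],[]]],
    [.old (.leafM k0 [k0,k3,k4,k5] [] [(k1,k2,z1,[y1,z1]),(k2,k1,z1,[y1,z1])]),
    .old (.lp [k2,k2,k2,k2,k2,k4] [k1,k1,k1,k1,k1,k1,k1,k1,k1,k1,k0,k0] k0 [] k8 k5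
    [[(k1,k2),(k10,k3)],[(k7,k2)],[(k4,k2)],[(k2,k2),(k5,k2),(k8,k2),(k11,k3)],[(k2,k2),(k5,k2),(k8,k2),(k11,k3)],
    [(k3,k2)],[(k0,k2)],[(k9,k2)],[(k6,k2)],[(k2,k2),(k5,k2),(k8,k2),(k11,k3)],[(k2,k3),(k5,k3),(k8,k3),(k11,k4)],
    [(k1,k3),(k10,k4)]]
    [] k0
    [[k0,k1,k1,k0,k0,k0]]
    [.ref k0 k0 [(z1,[y1,z1])]])]⟩

/-- classes `0 1 0 2 1 3`, types `N0 S0 N1 S0 S0 S0` -/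
noncomputable def cU6_2246 : CertX :=
  ⟨[k12,k16,k13,k32,k16,k48],[(false,k0,[k0,k1,k2,k3,k4,k5])],[[[([z1,z0,z0,z1,z1,z1],z2)],[]]],
    [.old (.leafM k0 [k0,k3,k4,k5] [] [(k1,k2,z1,[y1,z1]),(k2,k1,z1,[y1,z1])]),
    .old (.lp [k2,k2,k2,k2,k4,k2] [k1,k1,k1,k1,k1,k1,k1,k1,k0,k0,k1,k1] k0 [] k8 k5
    [[(k1,k2),(k10,k2)],[(k7,k2)],[(k4,k2)],[(k2,k2),(k5,k2),(k11,k2),(k8,k3)],[(k2,k2),(k5,k2),(k11,k2),(k8,k3)],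
    [(k3,k2)],[(k0,k2)],[(k6,k2),(k9,k3)],[(k6,k3),(k9,k4)],[(k2,k3),(k5,k3),(k11,k3),(k8,k4)],[(k2,k2),(k5,k2),(k11,
    k2),(k8,k3)],[(k1,k2),(k10,k2)]]
    [] k0
    [[k0,k1,k1,k0,k0,k0],[k0,k0,k0,k0,k0,k2]]
    [.ref k0 k0 [(z1,[y1,z1])],.contra [z1]])]⟩

/-- classes `0 1 0 2 1 3`, types `N0 S0 N2 C0 S0 C0` -/
noncomputable def cU6_2247 : CertX :=
  ⟨[k12,k16,k14,k36,k16,k52],[(false,k0,[k0,k1,k2,k3,k4,k5])],[[[([z1,z0,z1,z0,z0,z1],z2)],[]]],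
    [.old (.leafM k3 [k0,k1,k2,k3,k4,k5] [(z1,[y1,z1])] []),
    .old (.lp [k2,k4,k2,k2,k2,k2] [k1,k1,k0,k0,k1,k1,k1,k1,k1,k1,k1,k1] k0 [] k8 k5
    [[(k10,k2)],[(k4,k2)],[(k7,k3)],[(k5,k3),(k8,k3),(k11,k3),(k2,k4)],[(k5,k2),(k8,k2),(k11,k2),(k2,k3)],[(k0,k2)],
    [(k3,k3)],[(k9,k2)],[(k6,k2)],[(k5,k2),(k8,k2),(k11,k2),(k2,k3)],[(k5,k2),(k8,k2),(k11,k2),(k2,k3)],[(k1,k2)]]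
    [] k0
    [[k1,k0,k1,k0,k0,k1]]
    [.ref k0 k0 [(z1,[z1])]])]⟩

/-- classes `0 1 0 2 1 3`, types `N0 S0 N2 C0 S0 S0` -/
noncomputable def cU6_2248 : CertX :=
  ⟨[k12,k16,k14,k36,k16,k48],[(false,k0,[k0,k1,k2,k3,k4,k5])],[[[([z1,z0,z1,z0,z0,z1],z2)],[]]],
    [.old (.leafM k3 [k0,k1,k2,k3,k4,k5] [(z1,[y1,z1])] []),
    .old (.lp [k2,k2,k2,k2,k2,k4] [k1,k1,k1,k1,k1,k1,k1,k1,k1,k1,k0,k0] k0 [] k8 k5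
    [[(k1,k2),(k10,k3)],[(k4,k2)],[(k7,k2)],[(k2,k2),(k5,k2),(k8,k2),(k11,k3)],[(k2,k2),(k5,k2),(k8,k2),(k11,k3)],
    [(k0,k2)],[(k3,k2)],[(k9,k2)],[(k6,k2)],[(k2,k2),(k5,k2),(k8,k2),(k11,k3)],[(k2,k3),(k5,k3),(k8,k3),(k11,k4)],
    [(k1,k3),(k10,k4)]]
    [] k0
    [[k0,k1,k0,k1,k1,k0]]
    [.ref k0 k0 [(z1,[y1,z1])]])]⟩

/-- classes `0 1 0 2 1 3`, types `N0 S0 N2 S0 S0 S0` -/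
noncomputable def cU6_2249 : CertX :=
  ⟨[k12,k16,k14,k32,k16,k48],[(false,k0,[k0,k1,k2,k3,k4,k5])],[[[([z1,z0,z1,z0,z0,z1],z2)],[]]],
    [.old (.leafM k3 [k0,k1,k2,k3,k4,k5] [(z1,[y1,z1])] []),
    .old (.lp [k2,k2,k2,k2,k4,k2] [k1,k1,k1,k1,k1,k1,k1,k1,k0,k0,k1,k1] k0 [] k8 k5
    [[(k1,k2),(k10,k2)],[(k4,k2)],[(k7,k2)],[(k2,k2),(k5,k2),(k11,k2),(k8,k3)],[(k2,k2),(k5,k2),(k11,k2),(k8,k3)],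
    [(k0,k2)],[(k3,k2)],[(k6,k2),(k9,k3)],[(k6,k3),(k9,k4)],[(k2,k3),(k5,k3),(k11,k3),(k8,k4)],[(k2,k2),(k5,k2),(k11,
    k2),(k8,k3)],[(k1,k2),(k10,k2)]]
    [] k0
    [[k1,k0,k1,k0,k0,k1],[k0,k0,k0,k0,k0,k2]]
    [.ref k0 k0 [(z1,[z1])],.contra [z1]])]⟩

/-- classes `0 1 0 2 1 3`, types `S0 B0 S0 C0 B1 C0` -/
noncomputable def cU6_2250 : CertX :=
  ⟨[k0,k24,k0,k36,k25,k52],[(false,k0,[k0,k1,k2,k3,k4,k5])],[[[([z1,z1,z0,z0,z0,z1],z2)],[([z1,z0,z1,z0,z0,z1],z2)],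
    []]],
    [.old (.leafM k0 [k1,k2,k3,k4,k5,k0] [(z1,[y1,z1])] []),
    .old (.leafM k3 [k0,k1,k2,k3,k4,k5] [(z1,[y1,z1])] []),
    .old (.lp [k2,k4,k2,k2,k2,k2] [k1,k1,k0,k0,k1,k1,k1,k1,k1,k1,k1,k1] k0 [] k8 k5
    [[(k10,k2)],[(k0,k2),(k4,k2),(k7,k2),(k3,k3)],[(k0,k3),(k4,k3),(k7,k3),(k3,k4)],[(k8,k3),(k11,k3)],[(k8,k2),(k11,
    k2)],[(k0,k2),(k4,k2),(k7,k2),(k3,k3)],[(k0,k2),(k4,k2),(k7,k2),(k3,k3)],[(k9,k2)],[(k6,k2)],[(k5,k2),(k2,k3)],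
    [(k5,k2),(k2,k3)],[(k1,k2)]]
    [] k0
    [[k1,k0,k1,k0,k0,k1],[k0,k0,k1,k1,k1,k0]]
    [.ref k1 k0 [(z1,[z1])],.ref k0 k0 [(z1,[y1,z1])]])]⟩

/-- classes `0 1 0 2 1 3`, types `S0 B0 S0 C0 B1 S0` -/
noncomputable def cU6_2251 : CertX :=
  ⟨[k0,k24,k0,k36,k25,k48],[(false,k0,[k0,k1,k2,k3,k4,k5])],[[[([z1,z0,z1,z0,z0,z1],z2)],[([z1,z1,z0,z0,z0,z1],z2)],
    []]],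
    [.old (.leafM k3 [k0,k1,k2,k3,k4,k5] [(z1,[y1,z1])] []),
    .old (.leafM k0 [k1,k2,k3,k4,k5,k0] [(z1,[y1,z1])] []),
    .old (.lp [k2,k2,k2,k2,k4,k2] [k1,k1,k1,k1,k1,k1,k1,k1,k0,k0,k1,k1] k0 [] k8 k5
    [[(k1,k2),(k10,k2)],[(k0,k2),(k3,k2),(k4,k2),(k7,k2)],[(k0,k2),(k3,k2),(k4,k2),(k7,k2)],[(k11,k2),(k8,k3)],[(k11,
    k2),(k8,k3)],[(k0,k2),(k3,k2),(k4,k2),(k7,k2)],[(k0,k2),(k3,k2),(k4,k2),(k7,k2)],[(k9,k3)],[(k6,k3)],[(k2,k3),(k5,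
    k3)],[(k2,k2),(k5,k2)],[(k1,k2),(k10,k2)]]
    [] k0
    [[k2,k0,k0,k0,k0,k0],[k1,k1,k0,k0,k0,k1],[k1,k0,k1,k0,k0,k1]]
    [.contra [z1],.ref k1 k0 [(z1,[z1])],.ref k0 k0 [(z1,[z1])]])]⟩

/-- classes `0 1 0 2 1 3`, types `S0 B0 S0 S0 B1 S0` -/
noncomputable def cU6_2252 : CertX :=
  ⟨[k0,k24,k0,k32,k25,k48],[(false,k0,[k0,k1,k2,k3,k4,k5])],[[[([z1,z0,z1,z0,z0,z1],z2)],[([z1,z1,z0,z0,z0,z1],z2)],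
    []]],
    [.old (.leafM k3 [k0,k1,k2,k3,k4,k5] [(z1,[y1,z1])] []),
    .old (.leafM k0 [k1,k2,k3,k4,k5,k0] [(z1,[y1,z1])] []),
    .old (.lp [k2,k2,k2,k4,k2,k2] [k1,k1,k1,k1,k1,k1,k0,k0,k1,k1,k1,k1] k0 [] k8 k5
    [[(k1,k2),(k10,k2)],[(k0,k2),(k3,k2),(k4,k2),(k7,k3)],[(k0,k2),(k3,k2),(k4,k2),(k7,k3)],[(k8,k2),(k11,k2)],[(k8,
    k2),(k11,k2)],[(k0,k2),(k3,k2),(k4,k2),(k7,k3)],[(k0,k3),(k3,k3),(k4,k3),(k7,k4)],[(k9,k3),(k6,k4)],[(k9,k2),(k6,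
    k3)],[(k2,k2),(k5,k2)],[(k2,k2),(k5,k2)],[(k1,k2),(k10,k2)]]
    [] k0
    [[k2,k0,k0,k0,k0,k0],[k1,k1,k0,k0,k0,k1],[k1,k0,k1,k0,k0,k1]]
    [.contra [z1],.ref k1 k0 [(z1,[z1])],.ref k0 k0 [(z1,[z1])]])]⟩

/-- classes `0 1 0 2 1 3`, types `S0 C0 S0 C0 C0 C0` -/
noncomputable def cU6_2253 : CertX :=
  ⟨[k0,k20,k0,k36,k20,k52],[(false,k0,[k0,k1,k2,k3,k4,k5])],[[[([z1,z1,z0,z0,z0,z1],z2)],[([z1,z0,z0,z1,z1,z1],z2)],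
    []]],
    [.old (.leafM k0 [k1,k2,k3,k4,k5,k0] [(z1,[y1,z1])] []),
    .old (.leafM k0 [k0,k3,k4,k5] [] [(k1,k2,z1,[y1,z1]),(k2,k1,z1,[y1,z1])]),
    .old (.lp [k2,k4,k2,k2,k2,k2] [k1,k1,k0,k0,k1,k1,k1,k1,k1,k1,k1,k1] k0 [] k8 k5
    [[(k10,k2)],[(k0,k2),(k4,k2),(k7,k2),(k3,k3)],[(k0,k3),(k4,k3),(k7,k3),(k3,k4)],[(k5,k3),(k11,k3)],[(k8,k2),(k2,
    k3)],[(k0,k2),(k4,k2),(k7,k2),(k3,k3)],[(k0,k2),(k4,k2),(k7,k2),(k3,k3)],[(k9,k2)],[(k6,k2)],[(k5,k2),(k11,k2)],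
    [(k8,k2),(k2,k3)],[(k1,k2)]]
    [] k0
    [[k0,k1,k1,k0,k0,k0],[k0,k0,k1,k1,k1,k0]]
    [.ref k1 k0 [(z1,[y1,z1])],.ref k0 k0 [(z1,[y1,z1])]])]⟩

/-- classes `0 1 0 2 1 3`, types `S0 C0 S0 C0 C0 S0` -/
noncomputable def cU6_2254 : CertX :=
  ⟨[k0,k20,k0,k36,k20,k48],[(false,k0,[k0,k1,k2,k3,k4,k5])],[[[([z1,z1,z0,z0,z0,z1],z2)],[([z1,z0,z0,z1,z1,z1],z2)],
    []]],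
    [.old (.leafM k0 [k1,k2,k3,k4,k5,k0] [(z1,[y1,z1])] []),
    .old (.leafM k0 [k0,k3,k4,k5] [] [(k1,k2,z1,[y1,z1]),(k2,k1,z1,[y1,z1])]),
    .old (.lp [k4,k2,k2,k2,k2,k2] [k0,k0,k1,k1,k1,k1,k1,k1,k1,k1,k1,k1] k0 [] k8 k5
    [[(k10,k3),(k1,k4)],[(k3,k3),(k4,k3),(k7,k3),(k0,k4)],[(k3,k2),(k4,k2),(k7,k2),(k0,k3)],[(k5,k2),(k11,k2)],[(k2,
    k2),(k8,k2)],[(k3,k2),(k4,k2),(k7,k2),(k0,k3)],[(k3,k2),(k4,k2),(k7,k2),(k0,k3)],[(k9,k2)],[(k6,k2)],[(k5,k2),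
    (k11,k2)],[(k2,k2),(k8,k2)],[(k10,k2),(k1,k3)]]
    [] k0
    [[k0,k1,k1,k0,k0,k0],[k0,k0,k1,k1,k1,k0]]
    [.ref k1 k0 [(z1,[y1,z1])],.ref k0 k0 [(z1,[y1,z1])]])]⟩

/-- classes `0 1 0 2 1 3`, types `S0 C0 S0 C0 C2 C0` -/
noncomputable def cU6_2255 : CertX :=
  ⟨[k0,k20,k0,k36,k22,k52],[(false,k0,[k0,k1,k2,k3,k4,k5])],[[[([z1,z0,z1,z0,z0,z1],z2)],[([z1,z0,z0,z1,z1,z1],z2)],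
    []]],
    [.old (.leafM k3 [k0,k1,k2,k3,k4,k5] [(z1,[y1,z1])] []),
    .old (.leafM k0 [k0,k3,k4,k5] [] [(k1,k2,z1,[y1,z1]),(k2,k1,z1,[y1,z1])]),
    .old (.lp [k2,k2,k2,k2,k2,k4] [k1,k1,k1,k1,k1,k1,k1,k1,k1,k1,k0,k0] k0 [] k8 k5
    [[(k10,k3)],[(k0,k2),(k3,k2),(k4,k2),(k7,k2)],[(k0,k2),(k3,k2),(k4,k2),(k7,k2)],[(k5,k2),(k8,k2)],[(k2,k2),(k11,
    k3)],[(k0,k2),(k3,k2),(k4,k2),(k7,k2)],[(k0,k2),(k3,k2),(k4,k2),(k7,k2)],[(k9,k2)],[(k6,k2)],[(k2,k2),(k11,k3)],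
    [(k5,k3),(k8,k3)],[(k1,k3)]]
    [] k0
    [[k0,k1,k1,k0,k0,k0],[k0,k1,k0,k1,k1,k0]]
    [.ref k1 k0 [(z1,[y1,z1])],.ref k0 k0 [(z1,[y1,z1])]])]⟩

/-- classes `0 1 0 2 1 3`, types `S0 C0 S0 C0 C2 S0` -/
noncomputable def cU6_2256 : CertX :=
  ⟨[k0,k20,k0,k36,k22,k48],[(false,k0,[k0,k1,k2,k3,k4,k5])],[[[([z1,z0,z1,z0,z0,z1],z2)],[([z1,z0,z0,z1,z1,z1],z2)],
    []]],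
    [.old (.leafM k3 [k0,k1,k2,k3,k4,k5] [(z1,[y1,z1])] []),
    .old (.leafM k0 [k0,k3,k4,k5] [] [(k1,k2,z1,[y1,z1]),(k2,k1,z1,[y1,z1])]),
    .old (.lp [k4,k2,k2,k2,k2,k2] [k0,k0,k1,k1,k1,k1,k1,k1,k1,k1,k1,k1] k0 [] k8 k5
    [[(k10,k3),(k1,k4)],[(k3,k3),(k4,k3),(k7,k3),(k0,k4)],[(k3,k2),(k4,k2),(k7,k2),(k0,k3)],[(k5,k2),(k8,k2)],[(k2,
    k2),(k11,k2)],[(k3,k2),(k4,k2),(k7,k2),(k0,k3)],[(k3,k2),(k4,k2),(k7,k2),(k0,k3)],[(k9,k2)],[(k6,k2)],[(k2,k2),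
    (k11,k2)],[(k5,k2),(k8,k2)],[(k10,k2),(k1,k3)]]
    [] k0
    [[k0,k1,k1,k0,k0,k0],[k0,k1,k0,k1,k1,k0]]
    [.ref k1 k0 [(z1,[y1,z1])],.ref k0 k0 [(z1,[y1,z1])]])]⟩

/-- classes `0 1 0 2 1 3`, types `S0 C0 S0 S0 C0 S0` -/
noncomputable def cU6_2257 : CertX :=
  ⟨[k0,k20,k0,k32,k20,k48],[(false,k0,[k0,k1,k2,k3,k4,k5])],[[[([z1,z1,z0,z0,z0,z1],z2)],[([z1,z0,z0,z1,z1,z1],z2)],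
    []]],
    [.old (.leafM k0 [k1,k2,k3,k4,k5,k0] [(z1,[y1,z1])] []),
    .old (.leafM k0 [k0,k3,k4,k5] [] [(k1,k2,z1,[y1,z1]),(k2,k1,z1,[y1,z1])]),
    .old (.lp [k4,k2,k2,k2,k2,k2] [k0,k0,k1,k1,k1,k1,k1,k1,k1,k1,k1,k1] k0 [] k8 k5
    [[(k10,k3),(k1,k4)],[(k3,k3),(k4,k3),(k7,k3),(k0,k4)],[(k3,k2),(k4,k2),(k7,k2),(k0,k3)],[(k5,k2),(k11,k2)],[(k2,
    k2),(k8,k2)],[(k3,k2),(k4,k2),(k7,k2),(k0,k3)],[(k3,k2),(k4,k2),(k7,k2),(k0,k3)],[(k6,k2),(k9,k2)],[(k6,k2),(k9,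
    k2)],[(k5,k2),(k11,k2)],[(k2,k2),(k8,k2)],[(k10,k2),(k1,k3)]]
    [] k0
    [[k0,k1,k1,k0,k0,k0],[k0,k0,k1,k1,k1,k0],[k0,k0,k0,k2,k0,k0]]
    [.ref k1 k0 [(z1,[y1,z1])],.ref k0 k0 [(z1,[y1,z1])],.contra [z1]])]⟩

/-- classes `0 1 0 2 1 3`, types `S0 C0 S0 S0 C2 S0` -/
noncomputable def cU6_2258 : CertX :=
  ⟨[k0,k20,k0,k32,k22,k48],[(false,k0,[k0,k1,k2,k3,k4,k5])],[[[([z1,z0,z1,z0,z0,z1],z2)],[([z1,z0,z0,z1,z1,z1],z2)],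
    []]],
    [.old (.leafM k3 [k0,k1,k2,k3,k4,k5] [(z1,[y1,z1])] []),
    .old (.leafM k0 [k0,k3,k4,k5] [] [(k1,k2,z1,[y1,z1]),(k2,k1,z1,[y1,z1])]),
    .old (.lp [k4,k2,k2,k2,k2,k2] [k0,k0,k1,k1,k1,k1,k1,k1,k1,k1,k1,k1] k0 [] k8 k5
    [[(k10,k3),(k1,k4)],[(k3,k3),(k4,k3),(k7,k3),(k0,k4)],[(k3,k2),(k4,k2),(k7,k2),(k0,k3)],[(k5,k2),(k8,k2)],[(k2,
    k2),(k11,k2)],[(k3,k2),(k4,k2),(k7,k2),(k0,k3)],[(k3,k2),(k4,k2),(k7,k2),(k0,k3)],[(k6,k2),(k9,k2)],[(k6,k2),(k9,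
    k2)],[(k2,k2),(k11,k2)],[(k5,k2),(k8,k2)],[(k10,k2),(k1,k3)]]
    [] k0
    [[k0,k1,k1,k0,k0,k0],[k0,k1,k0,k1,k1,k0],[k0,k0,k0,k2,k0,k0]]
    [.ref k1 k0 [(z1,[y1,z1])],.ref k0 k0 [(z1,[y1,z1])],.contra [z1]])]⟩

/-- classes `0 1 0 2 1 3`, types `S0 N0 S0 C0 N1 C0` -/
noncomputable def cU6_2259 : CertX :=
  ⟨[k0,k28,k0,k36,k29,k52],[(false,k0,[k0,k1,k2,k3,k4,k5])],[[[([z1,z1,z0,z0,z0,z1],z2)],[]]],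
    [.old (.leafM k0 [k1,k2,k3,k4,k5,k0] [(z1,[y1,z1])] []),
    .old (.lp [k2,k4,k2,k2,k2,k2] [k1,k1,k0,k0,k1,k1,k1,k1,k1,k1,k1,k1] k0 [] k8 k5
    [[(k10,k2)],[(k0,k2),(k4,k2),(k7,k2),(k3,k3)],[(k0,k3),(k4,k3),(k7,k3),(k3,k4)],[(k11,k3)],[(k8,k2)],[(k0,k2),(k4,
    k2),(k7,k2),(k3,k3)],[(k0,k2),(k4,k2),(k7,k2),(k3,k3)],[(k9,k2)],[(k6,k2)],[(k5,k2)],[(k2,k3)],[(k1,k2)]]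
    [] k0
    [[k0,k0,k1,k1,k1,k0]]
    [.ref k0 k0 [(z1,[y1,z1])]])]⟩

/-- classes `0 1 0 2 1 3`, types `S0 N0 S0 C0 N1 S0` -/
noncomputable def cU6_2260 : CertX :=
  ⟨[k0,k28,k0,k36,k29,k48],[(false,k0,[k0,k1,k2,k3,k4,k5])],[[[([z1,z1,z0,z0,z0,z1],z2)],[]]],
    [.old (.leafM k0 [k1,k2,k3,k4,k5,k0] [(z1,[y1,z1])] []),
    .old (.lp [k4,k2,k2,k2,k2,k2] [k0,k0,k1,k1,k1,k1,k1,k1,k1,k1,k1,k1] k0 [] k8 k5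
    [[(k10,k3),(k1,k4)],[(k3,k3),(k4,k3),(k7,k3),(k0,k4)],[(k3,k2),(k4,k2),(k7,k2),(k0,k3)],[(k11,k2)],[(k8,k2)],[(k3,
    k2),(k4,k2),(k7,k2),(k0,k3)],[(k3,k2),(k4,k2),(k7,k2),(k0,k3)],[(k9,k2)],[(k6,k2)],[(k5,k2)],[(k2,k2)],[(k10,k2),
    (k1,k3)]]
    [] k0
    [[k0,k0,k1,k1,k1,k0]]
    [.ref k0 k0 [(z1,[y1,z1])]])]⟩

/-- classes `0 1 0 2 1 3`, types `S0 N0 S0 C0 N2 C0` -/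
noncomputable def cU6_2261 : CertX :=
  ⟨[k0,k28,k0,k36,k30,k52],[(false,k0,[k0,k1,k2,k3,k4,k5])],[[[([z1,z0,z1,z0,z0,z1],z2)],[]]],
    [.old (.leafM k3 [k0,k1,k2,k3,k4,k5] [(z1,[y1,z1])] []),
    .old (.lp [k2,k2,k2,k2,k2,k4] [k1,k1,k1,k1,k1,k1,k1,k1,k1,k1,k0,k0] k0 [] k8 k5
    [[(k10,k3)],[(k0,k2),(k3,k2),(k4,k2),(k7,k2)],[(k0,k2),(k3,k2),(k4,k2),(k7,k2)],[(k8,k2)],[(k11,k3)],[(k0,k2),(k3,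
    k2),(k4,k2),(k7,k2)],[(k0,k2),(k3,k2),(k4,k2),(k7,k2)],[(k9,k2)],[(k6,k2)],[(k2,k2)],[(k5,k3)],[(k1,k3)]]
    [] k0
    [[k0,k1,k0,k1,k1,k0]]
    [.ref k0 k0 [(z1,[y1,z1])]])]⟩

/-- classes `0 1 0 2 1 3`, types `S0 N0 S0 C0 N2 S0` -/
noncomputable def cU6_2262 : CertX :=
  ⟨[k0,k28,k0,k36,k30,k48],[(false,k0,[k0,k1,k2,k3,k4,k5])],[[[([z1,z0,z1,z0,z0,z1],z2)],[]]],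
    [.old (.leafM k3 [k0,k1,k2,k3,k4,k5] [(z1,[y1,z1])] []),
    .old (.lp [k4,k2,k2,k2,k2,k2] [k0,k0,k1,k1,k1,k1,k1,k1,k1,k1,k1,k1] k0 [] k8 k5
    [[(k10,k3),(k1,k4)],[(k3,k3),(k4,k3),(k7,k3),(k0,k4)],[(k3,k2),(k4,k2),(k7,k2),(k0,k3)],[(k8,k2)],[(k11,k2)],[(k3,
    k2),(k4,k2),(k7,k2),(k0,k3)],[(k3,k2),(k4,k2),(k7,k2),(k0,k3)],[(k9,k2)],[(k6,k2)],[(k2,k2)],[(k5,k2)],[(k10,k2),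
    (k1,k3)]]
    [] k0
    [[k0,k1,k0,k1,k1,k0]]
    [.ref k0 k0 [(z1,[y1,z1])]])]⟩

/-- classes `0 1 0 2 1 3`, types `S0 N0 S0 S0 N1 S0` -/
noncomputable def cU6_2263 : CertX :=
  ⟨[k0,k28,k0,k32,k29,k48],[(false,k0,[k0,k1,k2,k3,k4,k5])],[[[([z1,z1,z0,z0,z0,z1],z2)],[]]],
    [.old (.leafM k0 [k1,k2,k3,k4,k5,k0] [(z1,[y1,z1])] []),
    .old (.lp [k4,k2,k2,k2,k2,k2] [k0,k0,k1,k1,k1,k1,k1,k1,k1,k1,k1,k1] k0 [] k8 k5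
    [[(k10,k3),(k1,k4)],[(k3,k3),(k4,k3),(k7,k3),(k0,k4)],[(k3,k2),(k4,k2),(k7,k2),(k0,k3)],[(k11,k2)],[(k8,k2)],[(k3,
    k2),(k4,k2),(k7,k2),(k0,k3)],[(k3,k2),(k4,k2),(k7,k2),(k0,k3)],[(k6,k2),(k9,k2)],[(k6,k2),(k9,k2)],[(k5,k2)],[(k2,
    k2)],[(k10,k2),(k1,k3)]]
    [] k0
    [[k0,k0,k1,k1,k1,k0],[k0,k0,k0,k2,k0,k0]]
    [.ref k0 k0 [(z1,[y1,z1])],.contra [z1]])]⟩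

/-- classes `0 1 0 2 1 3`, types `S0 N0 S0 S0 N2 S0` -/
noncomputable def cU6_2264 : CertX :=
  ⟨[k0,k28,k0,k32,k30,k48],[(false,k0,[k0,k1,k2,k3,k4,k5])],[[[([z1,z0,z1,z0,z0,z1],z2)],[]]],
    [.old (.leafM k3 [k0,k1,k2,k3,k4,k5] [(z1,[y1,z1])] []),
    .old (.lp [k12,k6,k6,k6,k8,k6] [k0,k4,k5,k5,k5,k5,k5,k5,k4,k4,k5,k5] k0 [[k0,k0,k0,k0,k0,k4],[],[],[],[k0,k4]] k24 k5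
    [[(k10,k7),(k1,k8)],[(k4,k7),(k3,k11),(k7,k11),(k0,k16)],[(k3,k6),(k4,k6),(k7,k10),(k0,k11)],[(k8,k7)],[(k11,k6)],
    [(k3,k6),(k4,k6),(k7,k6),(k0,k7)],[(k4,k6),(k7,k6),(k3,k10),(k0,k11)],[(k6,k6),(k9,k7)],[(k6,k7),(k9,k8)],[(k2,
    k7)],[(k5,k6)],[(k10,k6),(k1,k7)]]
    [] k0
    [[k1,k0,k1,k0,k0,k1],[k0,k0,k0,k2,k0,k0]]
    [.ref k0 k0 [(z1,[z1])],.contra [z1]])]⟩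

/-- classes `0 1 0 2 1 3`, types `S0 S0 S0 C0 S0 C0` -/
noncomputable def cU6_2265 : CertX :=
  ⟨[k0,k16,k0,k36,k16,k52],[(false,k0,[k0,k1,k2,k3,k4,k5])],[[[([z1,z0,z1,z0,z0,z1],z2)],[([z1,z0,z0,z1,z1,z1],z2)],
    [([z1,z1,z0,z0,z0,z1],z2)],[]]],
    [.old (.leafM k3 [k0,k1,k2,k3,k4,k5] [(z1,[y1,z1])] []),
    .old (.leafM k0 [k0,k3,k4,k5] [] [(k1,k2,z1,[y1,z1]),(k2,k1,z1,[y1,z1])]),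
    .old (.leafM k0 [k1,k2,k3,k4,k5,k0] [(z1,[y1,z1])] []),
    .old (.lp [k6,k10,k10,k6,k6,k6] [k2,k2,k0,k0,k0,k0,k2,k2,k2,k2,k2,k2] k0 [[],[],[k0,k0,k0,k0,k0,k0,k0,k0,k2,k2],[k0,
    k0,k4],[],[],[],[],[k0,k0,k0,k2],[k0,k0,k0,k2]] k24 k5
    [[(k10,k6)],[(k0,k6),(k7,k6),(k3,k8),(k4,k8)],[(k0,k8),(k7,k8),(k3,k10),(k4,k10)],[(k8,k6),(k11,k6),(k5,k10),(k2,
    k14)],[(k5,k6),(k2,k10),(k8,k10),(k11,k10)],[(k0,k8),(k7,k8),(k3,k10),(k4,k10)],[(k0,k6),(k7,k6),(k3,k8),(k4,k8)],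
    [(k9,k6)],[(k6,k6)],[(k2,k6),(k8,k6),(k11,k6),(k5,k10)],[(k2,k6),(k8,k6),(k11,k6),(k5,k10)],[(k1,k6)]]
    [] k0
    [[k1,k1,k0,k0,k0,k1],[k0,k1,k1,k0,k0,k0],[k0,k1,k0,k1,k1,k0],[k0,k0,k2,k0,k0,k0]]
    [.ref k2 k0 [(z1,[z1])],.ref k1 k0 [(z1,[y1,z1])],.ref k0 k0 [(z1,[y1,z1])],.contra [z1]])]⟩

/-- classes `0 1 0 2 1 3`, types `S0 S0 S0 C0 S0 S0` -/
noncomputable def cU6_2266 : CertX :=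
  ⟨[k0,k16,k0,k36,k16,k48],[(false,k0,[k0,k1,k2,k3,k4,k5])],[[[([z1,z0,z0,z1,z1,z1],z2)],[([z1,z0,z1,z0,z0,z1],z2)],
    [([z1,z1,z0,z0,z0,z1],z2)],[]]],
    [.old (.leafM k0 [k0,k3,k4,k5] [] [(k1,k2,z1,[y1,z1]),(k2,k1,z1,[y1,z1])]),
    .old (.leafM k3 [k0,k1,k2,k3,k4,k5] [(z1,[y1,z1])] []),
    .old (.leafM k0 [k1,k2,k3,k4,k5,k0] [(z1,[y1,z1])] []),
    .old (.lp [k6,k6,k12,k6,k8,k6] [k3,k3,k3,k3,k0,k0,k3,k3,k2,k2,k3,k3] k0 [[k0,k0,k0,k0,k0,k3],[],[],[k0,k0,k0,k0,k0,k0,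
    k0,k0,k2],[k0,k3],[],[],[],[],[k0,k0,k2]] k24 k5
    [[(k1,k6),(k10,k6)],[(k0,k6),(k3,k6),(k4,k6),(k7,k6)],[(k0,k6),(k3,k6),(k4,k9),(k7,k9)],[(k2,k6),(k11,k6),(k5,k9),
    (k8,k9)],[(k11,k7),(k2,k9),(k8,k10),(k5,k12)],[(k0,k6),(k3,k9),(k7,k9),(k4,k12)],[(k0,k6),(k7,k6),(k3,k9),(k4,
    k9)],[(k9,k7)],[(k6,k7)],[(k11,k7),(k8,k8),(k2,k9),(k5,k10)],[(k2,k6),(k11,k6),(k5,k7),(k8,k7)],[(k1,k6),(k10,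
    k6)]]
    [] k0
    [[k2,k0,k0,k0,k0,k0],[k1,k1,k0,k0,k0,k1],[k1,k0,k1,k0,k0,k1],[k0,k2,k0,k0,k0,k0],[k0,k1,k1,k0,k0,k0],[k0,k0,k0,k0,
    k0,k2]]
    [.contra [z1],.ref k2 k0 [(z1,[z1])],.ref k1 k0 [(z1,[z1])],.contra [z1],.ref k0 k0 [(z1,[y1,z1])],.contra [z1]])]⟩

/-- classes `0 1 0 2 3 2`, types `B0 C0 B1 B0 C0 B1` -/
noncomputable def cU6_2267 : CertX :=
  ⟨[k8,k20,k9,k40,k52,k41],[(false,k0,[k0,k1,k2,k3,k4,k5]),(false,k3,[k3,k4,k5,k0,k1,k2])],[[[([z1,z0,z0,z1,z1,z1],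
    z2)],[([z1,z0,z0,z1,z0,z0],z2),([z0,z1,z1,z0,z0,z0],z1)],[([z1,z0,z0,z1,z0,z0],z2)],[]]],
    [.old (.leafM k2 [k0,k3,k4,k5] [] [(k1,k2,z1,[y1,z1]),(k2,k1,z1,[y1,z1])]),
    .old (.leafM k4 [k2,k4,k5,k1] [(z1,[y1,y1,z1])] [(k3,k0,z1,[z1]),(k0,k3,z1,[z1])]),
    .old (.lp [k0,k0,k8,k20,k10,k0] [k10,k10,k10,k10,k6,k6,k0,k0,k5,k5,k10,k10] k0 [] k20 k6
    [[(k9,k5),(k6,k10)],[(k4,k4),(k7,k10)],[(k4,k4),(k7,k10)],[(k5,k4)],[(k2,k4)],[(k0,k4),(k3,k4)],[(k0,k10),(k3,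
    k10)],[(k1,k10),(k10,k10)],[(k1,k5),(k10,k5)],[(k11,k5)],[(k8,k5)],[(k9,k5),(k6,k10)]]
    [] k0
    [[k0,k1,k1,k0,k0,k0],[k0,k2,k2,k0,k0,k0],[k0,k0,k0,k0,k1,k1]]
    [.contra [y1,y1,z1],.ref k1 k0 [(z1,[z0,z1]),(z2,[z1])],.contra [y1,y1,z1]]),
    .old (.lp [k0,k0,k2,k2,k2,k0] [k1,k1,k1,k1,k0,k0,k0,k0,k0,k0,k1,k1] k0 [] k4 k5
    [[(k6,k1),(k9,k1)],[(k4,k1),(k7,k1)],[(k4,k1),(k7,k1)],[(k5,k1)],[(k2,k1)],[(k0,k1),(k3,k1)],[(k0,k1),(k3,k1)],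
    [(k1,k1),(k10,k1)],[(k1,k1),(k10,k1)],[(k11,k1)],[(k8,k1)],[(k6,k1),(k9,k1)]]
    [] k0
    [[k1,k0,k0,k1,k0,k0],[k0,k1,k1,k0,k0,k0],[k0,k0,k0,k0,k1,k1]]
    [.ref k2 k0 [(z1,[z1])],.ref k0 k0 [(z1,[y1,z1])],.ref k0 k1 [(z1,[y1,z1])]])]⟩

/-- classes `0 1 0 2 3 2`, types `B0 C0 B1 B0 S0 B1` -/
noncomputable def cU6_2268 : CertX :=
  ⟨[k8,k20,k9,k40,k48,k41],[(false,k0,[k0,k1,k2,k3,k4,k5])],[[[([z1,z1,z1,z1,z0,z0],z2)],[([z1,z0,z0,z1,z1,z1],z2)],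
    [([z1,z0,z0,z1,z0,z0],z2),([z0,z1,z1,z0,z0,z0],z1)],[([z1,z0,z0,z1,z0,z0],z2)],[]]],
    [.old (.leafM k2 [k1,k2,k3,k0] [] [(k4,k5,z1,[y1,z1]),(k5,k4,z1,[y1,z1])]),
    .old (.leafM k2 [k0,k3,k4,k5] [] [(k1,k2,z1,[y1,z1]),(k2,k1,z1,[y1,z1])]),
    .old (.leafM k4 [k2,k4,k5,k1] [(z1,[y1,y1,z1])] [(k3,k0,z1,[z1]),(k0,k3,z1,[z1])]),
    .old (.lp [k8,k8,k0,k12,k4,k6] [k2,k2,k2,k2,k6,k6,k0,k0,k4,k4,k3,k3] k0 [] k20 k6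
    [[(k9,k6),(k6,k10)],[(k4,k4),(k7,k10)],[(k4,k4),(k7,k10)],[(k5,k4)],[(k2,k4)],[(k0,k4),(k3,k4)],[(k0,k10),(k3,
    k10)],[(k10,k9),(k1,k10)],[(k10,k5),(k1,k6)],[(k8,k4),(k11,k5)],[(k8,k5),(k11,k6)],[(k9,k5),(k6,k9)]]
    [] k0
    [[k0,k1,k1,k0,k0,k0],[k0,k2,k2,k0,k0,k0],[k0,k0,k0,k0,k1,k1]]
    [.contra [y1,y1,z1],.ref k2 k0 [(z1,[z0,z1]),(z2,[z1])],.contra [y1,y1,z1]]),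
    .old (.lp [k2,k2,k2,k2,k2,k2] [k0,k0,k0,k0,k0,k0,k0,k0,k0,k0,k0,k0] k0 [] k8 k5
    [[(k6,k2),(k9,k2)],[(k4,k2),(k7,k2)],[(k4,k2),(k7,k2)],[(k5,k2)],[(k2,k2)],[(k0,k2),(k3,k2)],[(k0,k2),(k3,k2)],
    [(k1,k2),(k10,k2)],[(k1,k2),(k10,k2)],[(k8,k2),(k11,k2)],[(k8,k2),(k11,k2)],[(k6,k2),(k9,k2)]]
    [] k0
    [[k1,k0,k0,k1,k0,k0],[k0,k1,k1,k0,k0,k0],[k0,k0,k0,k0,k1,k1]]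
    [.ref k3 k0 [(z1,[z1])],.ref k1 k0 [(z1,[y1,z1])],.ref k0 k0 [(z1,[y1,z1])]])]⟩

/-- classes `0 1 0 2 3 2`, types `B0 C0 B1 C0 C0 C0` -/
noncomputable def cU6_2269 : CertX :=
  ⟨[k8,k20,k9,k36,k52,k36],[(false,k0,[k0,k1,k2,k3,k4,k5])],[[[([z1,z1,z1,z1,z0,z0],z2)],[([z1,z0,z0,z1,z1,z1],z2)],
    [([z1,z0,z0,z1,z0,z0],z2),([z0,z1,z1,z0,z0,z0],z1)],[([z1,z0,z0,z1,z0,z0],z2)],[]]],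
    [.old (.leafM k2 [k1,k2,k3,k0] [] [(k4,k5,z1,[y1,z1]),(k5,k4,z1,[y1,z1])]),
    .old (.leafM k0 [k0,k3,k4,k5] [] [(k1,k2,z1,[y1,z1]),(k2,k1,z1,[y1,z1])]),
    .old (.leafM k4 [k2,k4,k5,k1] [(z1,[y1,y1,z1])] [(k3,k0,z1,[z1]),(k0,k3,z1,[z1])]),
    .old (.lp [k20,k8,k0,k0,k10,k0] [k0,k0,k6,k6,k10,k10,k10,k10,k5,k5,k10,k10] k0 [] k20 k6
    [[(k6,k10),(k10,k10)],[(k4,k10),(k7,k10)],[(k4,k4),(k7,k4)],[(k5,k4)],[(k2,k4)],[(k3,k4),(k0,k10)],[(k3,k4),(k0,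
    k10)],[(k9,k5),(k1,k10)],[(k6,k5),(k10,k5)],[(k11,k5)],[(k8,k5)],[(k9,k5),(k1,k10)]]
    [] k0
    [[k0,k1,k1,k0,k0,k0],[k0,k2,k2,k0,k0,k0],[k0,k0,k0,k0,k1,k1]]
    [.contra [y1,y1,z1],.ref k2 k0 [(z1,[z0,z1]),(z2,[z1])],.contra [y1,y1,z1]]),
    .old (.lp [k2,k2,k0,k0,k2,k0] [k0,k0,k0,k0,k1,k1,k1,k1,k0,k0,k1,k1] k0 [] k4 k5
    [[(k6,k1),(k10,k1)],[(k4,k1),(k7,k1)],[(k4,k1),(k7,k1)],[(k5,k1)],[(k2,k1)],[(k0,k1),(k3,k1)],[(k0,k1),(k3,k1)],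
    [(k1,k1),(k9,k1)],[(k6,k1),(k10,k1)],[(k11,k1)],[(k8,k1)],[(k1,k1),(k9,k1)]]
    [] k0
    [[k1,k0,k0,k1,k0,k0],[k0,k1,k1,k0,k0,k0],[k0,k0,k0,k0,k1,k1]]
    [.ref k3 k0 [(z1,[z1])],.ref k1 k0 [(z1,[y1,z1])],.ref k0 k0 [(z1,[y1,z1])]])]⟩

/-- classes `0 1 0 2 3 2`, types `B0 C0 B1 C0 C0 C2` -/
noncomputable def cU6_2270 : CertX :=
  ⟨[k8,k20,k9,k36,k52,k38],[(false,k0,[k0,k1,k2,k3,k4,k5])],[[[([z1,z0,z0,z1,z1,z1],z2)],[]]],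
    [.old (.leafM k0 [k0,k3,k4,k5] [] [(k1,k2,z1,[y1,z1]),(k2,k1,z1,[y1,z1])]),
    .old (.lp [k2,k2,k2,k2,k2,k2] [k0,k0,k0,k0,k0,k0,k0,k0,k0,k0,k0,k0] k0 [] k8 k5
    [[(k9,k2),(k10,k2)],[(k4,k2),(k7,k2)],[(k4,k2),(k7,k2)],[(k5,k2)],[(k2,k2)],[(k0,k2),(k3,k2)],[(k0,k2),(k3,k2)],
    [(k9,k2),(k10,k2)],[(k1,k2),(k6,k2)],[(k11,k2)],[(k8,k2)],[(k1,k2),(k6,k2)]]
    [] k0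
    [[k0,k1,k1,k0,k0,k0]]
    [.ref k0 k0 [(z1,[y1,z1])]])]⟩

/-- classes `0 1 0 2 3 2`, types `B0 C0 B1 C0 S0 C0` -/
noncomputable def cU6_2271 : CertX :=
  ⟨[k8,k20,k9,k36,k48,k36],[(false,k0,[k0,k1,k2,k3,k4,k5])],[[[([z1,z1,z1,z1,z0,z0],z2)],[([z1,z0,z0,z1,z1,z1],z2)],
    [([z1,z0,z0,z1,z0,z0],z2),([z0,z1,z1,z0,z0,z0],z1)],[([z1,z0,z0,z1,z0,z0],z2)],[]]],
    [.old (.leafM k2 [k1,k2,k3,k0] [] [(k4,k5,z1,[y1,z1]),(k5,k4,z1,[y1,z1])]),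
    .old (.leafM k0 [k0,k3,k4,k5] [] [(k1,k2,z1,[y1,z1]),(k2,k1,z1,[y1,z1])]),
    .old (.leafM k4 [k2,k4,k5,k1] [(z1,[y1,y1,z1])] [(k3,k0,z1,[z1]),(k0,k3,z1,[z1])]),
    .old (.lp [k2,k0,k8,k18,k4,k6] [k8,k8,k9,k9,k5,k5,k0,k0,k7,k7,k6,k6] k0 [] k20 k6
    [[(k10,k4),(k6,k10)],[(k4,k5),(k7,k10)],[(k4,k4),(k7,k9)],[(k5,k4)],[(k2,k4)],[(k3,k4),(k0,k5)],[(k3,k9),(k0,
    k10)],[(k1,k10),(k9,k11)],[(k10,k5),(k6,k11)],[(k8,k4),(k11,k5)],[(k8,k5),(k11,k6)],[(k1,k4),(k9,k5)]]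
    [] k0
    [[k0,k1,k1,k0,k0,k0],[k0,k2,k2,k0,k0,k0],[k0,k0,k0,k0,k1,k1]]
    [.contra [y1,y1,z1],.ref k2 k0 [(z1,[z0,z1]),(z2,[z1])],.contra [y1,y1,z1]]),
    .old (.lp [k2,k2,k2,k2,k2,k2] [k0,k0,k0,k0,k0,k0,k0,k0,k0,k0,k0,k0] k0 [] k8 k5
    [[(k6,k2),(k10,k2)],[(k4,k2),(k7,k2)],[(k4,k2),(k7,k2)],[(k5,k2)],[(k2,k2)],[(k0,k2),(k3,k2)],[(k0,k2),(k3,k2)],
    [(k1,k2),(k9,k2)],[(k6,k2),(k10,k2)],[(k8,k2),(k11,k2)],[(k8,k2),(k11,k2)],[(k1,k2),(k9,k2)]]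
    [] k0
    [[k1,k0,k0,k1,k0,k0],[k0,k1,k1,k0,k0,k0],[k0,k0,k0,k0,k1,k1]]
    [.ref k3 k0 [(z1,[z1])],.ref k1 k0 [(z1,[y1,z1])],.ref k0 k0 [(z1,[y1,z1])]])]⟩

/-- classes `0 1 0 2 3 2`, types `B0 C0 B1 C0 S0 C2` -/
noncomputable def cU6_2272 : CertX :=
  ⟨[k8,k20,k9,k36,k48,k38],[(false,k0,[k0,k1,k2,k3,k4,k5])],[[[([z1,z0,z0,z1,z1,z1],z2)],[]]],
    [.old (.leafM k0 [k0,k3,k4,k5] [] [(k1,k2,z1,[y1,z1]),(k2,k1,z1,[y1,z1])]),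
    .old (.lp [k2,k2,k2,k2,k2,k2] [k0,k0,k0,k0,k0,k0,k0,k0,k0,k0,k0,k0] k0 [] k8 k5
    [[(k9,k2),(k10,k2)],[(k4,k2),(k7,k2)],[(k4,k2),(k7,k2)],[(k5,k2)],[(k2,k2)],[(k0,k2),(k3,k2)],[(k0,k2),(k3,k2)],
    [(k9,k2),(k10,k2)],[(k1,k2),(k6,k2)],[(k8,k2),(k11,k2)],[(k8,k2),(k11,k2)],[(k1,k2),(k6,k2)]]
    [] k0
    [[k0,k1,k1,k0,k0,k0]]
    [.ref k0 k0 [(z1,[y1,z1])]])]⟩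

/-- classes `0 1 0 2 3 2`, types `B0 C0 B1 N0 C0 N1` -/
noncomputable def cU6_2273 : CertX :=
  ⟨[k8,k20,k9,k44,k52,k45],[(false,k0,[k0,k1,k2,k3,k4,k5])],[[[([z1,z1,z1,z1,z0,z0],z2)],[([z1,z0,z0,z1,z0,z0],z1),
    ([z0,z1,z1,z0,z0,z0],z2)],[([z1,z0,z0,z1,z1,z1],z2)],[([z1,z0,z0,z1,z0,z0],z2),([z0,z1,z1,z0,z0,z0],z1)],[([z1,z0,
    z0,z1,z0,z0],z2)],[]]],
    [.old (.leafM k2 [k1,k2,k3,k0] [] [(k4,k5,z1,[y1,z1]),(k5,k4,z1,[y1,z1])]),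
    .old (.leafM k4 [k3,k4,k5,k0] [(z1,[y1,y1,z1])] [(k1,k2,z1,[z0,z1]),(k2,k1,z1,[z0,z1])]),
    .old (.lp [k10,k20,k0,k0,k8,k0] [k5,k5,k0,k0,k10,k10,k10,k10,k6,k6,k10,k10] k0 [] k20 k6
    [[(k6,k5)],[(k4,k5),(k7,k5)],[(k4,k10),(k7,k10)],[(k5,k10)],[(k2,k10)],[(k0,k5),(k3,k10)],[(k0,k5),(k3,k10)],[(k1,
    k5)],[(k10,k4)],[(k11,k4)],[(k8,k4)],[(k9,k4)]]
    [] k0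
    [[k1,k0,k0,k1,k0,k0],[k0,k0,k0,k0,k1,k1],[k0,k0,k0,k0,k2,k2]]
    [.contra [y1,z1],.contra [y1,z1],.ref k1 k0 [(z2,[y1,z2]),(z1,[z0,y1,z1])]]),
    .old (.leafM k4 [k2,k4,k5,k1] [(z1,[y1,y1,z1])] [(k3,k0,z1,[z1]),(k0,k3,z1,[z1])]),
    .old (.lp [k20,k10,k0,k0,k8,k0] [k0,k0,k5,k5,k10,k10,k10,k10,k6,k6,k10,k10] k0 [] k20 k6
    [[(k6,k10)],[(k4,k10),(k7,k10)],[(k4,k5),(k7,k5)],[(k5,k5)],[(k2,k5)],[(k3,k5),(k0,k10)],[(k3,k5),(k0,k10)],[(k1,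
    k10)],[(k10,k4)],[(k11,k4)],[(k8,k4)],[(k9,k4)]]
    [] k0
    [[k0,k1,k1,k0,k0,k0],[k0,k0,k0,k0,k1,k1],[k0,k0,k0,k0,k2,k2]]
    [.contra [y1,y1,z1],.contra [y1,y1,z1],.ref k3 k0 [(z1,[z0,z1]),(z2,[y1,y2,z2])]]),
    .old (.lp [k2,k2,k0,k0,k2,k0] [k0,k0,k0,k0,k1,k1,k1,k1,k0,k0,k1,k1] k0 [] k4 k5
    [[(k6,k1)],[(k4,k1),(k7,k1)],[(k4,k1),(k7,k1)],[(k5,k1)],[(k2,k1)],[(k0,k1),(k3,k1)],[(k0,k1),(k3,k1)],[(k1,k1)],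
    [(k10,k1)],[(k11,k1)],[(k8,k1)],[(k9,k1)]]
    [] k0
    [[k1,k0,k0,k1,k0,k0],[k0,k1,k1,k0,k0,k0],[k0,k0,k0,k0,k1,k1]]
    [.ref k4 k0 [(z1,[z1])],.ref k2 k0 [(z1,[y1,z1])],.ref k0 k0 [(z1,[y1,z1])]])]⟩

/-- classes `0 1 0 2 3 2`, types `B0 C0 B1 N0 C0 N2` -/
noncomputable def cU6_2274 : CertX :=
  ⟨[k8,k20,k9,k44,k52,k46],[(false,k0,[k0,k1,k2,k3,k4,k5])],[[[([z1,z0,z0,z1,z1,z1],z2)],[]]],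
    [.old (.leafM k2 [k0,k3,k4,k5] [] [(k1,k2,z1,[y1,z1]),(k2,k1,z1,[y1,z1])]),
    .old (.lp [k2,k2,k0,k0,k0,k2] [k0,k0,k0,k0,k1,k1,k1,k1,k1,k1,k0,k0] k0 [] k4 k5
    [[(k9,k1)],[(k4,k1),(k7,k1)],[(k4,k1),(k7,k1)],[(k5,k1)],[(k2,k1)],[(k0,k1),(k3,k1)],[(k0,k1),(k3,k1)],[(k10,k1)],
    [(k1,k1)],[(k11,k1)],[(k8,k1)],[(k6,k1)]]
    [] k0
    [[k0,k1,k1,k0,k0,k0]]
    [.ref k0 k0 [(z1,[y1,z1])]])]⟩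

/-- classes `0 1 0 2 3 2`, types `B0 C0 B1 N0 S0 N1` -/
noncomputable def cU6_2275 : CertX :=
  ⟨[k8,k20,k9,k44,k48,k45],[(false,k0,[k0,k1,k2,k3,k4,k5])],[[[([z1,z1,z1,z1,z0,z0],z2)],[([z1,z0,z0,z1,z0,z0],z1),
    ([z0,z1,z1,z0,z0,z0],z2)],[([z1,z0,z0,z1,z1,z1],z2)],[([z1,z0,z0,z1,z0,z0],z2),([z0,z1,z1,z0,z0,z0],z1)],[([z1,z0,
    z0,z1,z0,z0],z2)],[]]],
    [.old (.leafM k2 [k1,k2,k3,k0] [] [(k4,k5,z1,[y1,z1]),(k5,k4,z1,[y1,z1])]),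
    .old (.leafM k4 [k3,k4,k5,k0] [(z1,[y1,y1,z1])] [(k1,k2,z1,[z0,z1]),(k2,k1,z1,[z0,z1])]),
    .old (.lp [k0,k0,k20,k10,k4,k4] [k10,k10,k10,k10,k0,k0,k5,k5,k8,k8,k8,k8] k0 [] k20 k6
    [[(k6,k5)],[(k7,k5),(k4,k10)],[(k7,k5),(k4,k10)],[(k5,k10)],[(k2,k10)],[(k0,k10),(k3,k10)],[(k0,k5),(k3,k5)],[(k1,
    k5)],[(k10,k4)],[(k8,k4),(k11,k4)],[(k8,k4),(k11,k4)],[(k9,k4)]]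
    [] k0
    [[k1,k0,k0,k1,k0,k0],[k0,k0,k0,k0,k1,k1],[k0,k0,k0,k0,k2,k2]]
    [.contra [y1,z1],.contra [y1,z1],.ref k1 k0 [(z2,[y1,z2]),(z1,[z0,y1,z1])]]),
    .old (.leafM k4 [k2,k4,k5,k1] [(z1,[y1,y1,z1])] [(k3,k0,z1,[z1]),(k0,k3,z1,[z1])]),
    .old (.lp [k0,k0,k10,k20,k4,k4] [k10,k10,k10,k10,k5,k5,k0,k0,k8,k8,k8,k8] k0 [] k20 k6
    [[(k6,k10)],[(k4,k5),(k7,k10)],[(k4,k5),(k7,k10)],[(k5,k5)],[(k2,k5)],[(k0,k5),(k3,k5)],[(k0,k10),(k3,k10)],[(k1,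
    k10)],[(k10,k4)],[(k8,k4),(k11,k4)],[(k8,k4),(k11,k4)],[(k9,k4)]]
    [] k0
    [[k0,k1,k1,k0,k0,k0],[k0,k0,k0,k0,k1,k1],[k0,k0,k0,k0,k2,k2]]
    [.contra [y1,y1,z1],.contra [y1,y1,z1],.ref k3 k0 [(z1,[z0,z1]),(z2,[y1,y2,z2])]]),
    .old (.lp [k0,k0,k4,k4,k2,k2] [k2,k2,k2,k2,k0,k0,k0,k0,k1,k1,k1,k1] k0 [] k8 k5
    [[(k6,k2)],[(k4,k2),(k7,k2)],[(k4,k2),(k7,k2)],[(k5,k2)],[(k2,k2)],[(k0,k2),(k3,k2)],[(k0,k2),(k3,k2)],[(k1,k2)],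
    [(k10,k2)],[(k8,k2),(k11,k2)],[(k8,k2),(k11,k2)],[(k9,k2)]]
    [] k0
    [[k1,k0,k0,k1,k0,k0],[k0,k1,k1,k0,k0,k0],[k0,k0,k0,k0,k1,k1]]
    [.ref k4 k0 [(z1,[z1])],.ref k2 k0 [(z1,[y1,z1])],.ref k0 k0 [(z1,[y1,z1])]])]⟩

/-- classes `0 1 0 2 3 2`, types `B0 C0 B1 N0 S0 N2` -/
noncomputable def cU6_2276 : CertX :=
  ⟨[k8,k20,k9,k44,k48,k46],[(false,k0,[k0,k1,k2,k3,k4,k5])],[[[([z1,z0,z0,z1,z1,z1],z2)],[]]],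
    [.old (.leafM k2 [k0,k3,k4,k5] [] [(k1,k2,z1,[y1,z1]),(k2,k1,z1,[y1,z1])]),
    .old (.lp [k2,k2,k2,k2,k2,k2] [k0,k0,k0,k0,k0,k0,k0,k0,k0,k0,k0,k0] k0 [] k8 k5
    [[(k9,k2)],[(k4,k2),(k7,k2)],[(k4,k2),(k7,k2)],[(k5,k2)],[(k2,k2)],[(k0,k2),(k3,k2)],[(k0,k2),(k3,k2)],[(k10,k2)],
    [(k1,k2)],[(k8,k2),(k11,k2)],[(k8,k2),(k11,k2)],[(k6,k2)]]
    [] k0
    [[k0,k1,k1,k0,k0,k0]]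
    [.ref k0 k0 [(z1,[y1,z1])]])]⟩

/-- classes `0 1 0 2 3 2`, types `B0 C0 B1 S0 C0 S0` -/
noncomputable def cU6_2277 : CertX :=
  ⟨[k8,k20,k9,k32,k52,k32],[(false,k0,[k0,k1,k2,k3,k4,k5])],[[[([z1,z1,z1,z1,z0,z0],z2)],[([z1,z0,z0,z1,z1,z1],z2)],
    [([z1,z0,z0,z1,z0,z0],z2),([z0,z1,z1,z0,z0,z0],z1)],[([z1,z0,z0,z1,z0,z0],z2)],[]]],
    [.old (.leafM k2 [k1,k2,k3,k0] [] [(k4,k5,z1,[y1,z1]),(k5,k4,z1,[y1,z1])]),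
    .old (.leafM k0 [k0,k3,k4,k5] [] [(k1,k2,z1,[y1,z1]),(k2,k1,z1,[y1,z1])]),
    .old (.leafM k4 [k2,k4,k5,k1] [(z1,[y1,y1,z1])] [(k3,k0,z1,[z1]),(k0,k3,z1,[z1])]),
    .old (.lp [k16,k10,k0,k4,k4,k4] [k0,k0,k3,k3,k8,k8,k6,k6,k6,k6,k6,k6] k0 [] k20 k6
    [[(k6,k10),(k9,k10),(k10,k10),(k1,k16)],[(k4,k8),(k7,k10)],[(k4,k5),(k7,k7)],[(k5,k5)],[(k2,k5)],[(k3,k5),(k0,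
    k8)],[(k3,k7),(k0,k10)],[(k6,k4),(k9,k4),(k10,k4),(k1,k10)],[(k6,k4),(k9,k4),(k10,k4),(k1,k10)],[(k11,k4)],[(k8,
    k4)],[(k6,k4),(k9,k4),(k10,k4),(k1,k10)]]
    [] k0
    [[k0,k1,k1,k0,k0,k0],[k0,k0,k0,k0,k2,k2],[k0,k0,k0,k0,k1,k1]]
    [.contra [y1,y1,z1],.ref k2 k0 [(z1,[z0,z1]),(z2,[y1,y2,z2])],.contra [y1,y1,z1]]),
    .old (.lp [k2,k2,k2,k2,k2,k2] [k0,k0,k0,k0,k0,k0,k0,k0,k0,k0,k0,k0] k0 [] k8 k5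
    [[(k1,k2),(k6,k2),(k9,k2),(k10,k2)],[(k4,k2),(k7,k2)],[(k4,k2),(k7,k2)],[(k5,k2)],[(k2,k2)],[(k0,k2),(k3,k2)],
    [(k0,k2),(k3,k2)],[(k1,k2),(k6,k2),(k9,k2),(k10,k2)],[(k1,k2),(k6,k2),(k9,k2),(k10,k2)],[(k11,k2)],[(k8,k2)],[(k1,
    k2),(k6,k2),(k9,k2),(k10,k2)]]
    [] k0
    [[k1,k0,k0,k1,k0,k0],[k0,k1,k1,k0,k0,k0],[k0,k0,k0,k0,k1,k1]]
    [.ref k3 k0 [(z1,[z1])],.ref k1 k0 [(z1,[y1,z1])],.ref k0 k0 [(z1,[y1,z1])]])]⟩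

/-- classes `0 1 0 2 3 2`, types `B0 C0 B1 S0 S0 S0` -/
noncomputable def cU6_2278 : CertX :=
  ⟨[k8,k20,k9,k32,k48,k32],[(false,k0,[k0,k1,k2,k3,k4,k5])],[[[([z1,z1,z1,z1,z0,z0],z2)],[([z1,z0,z0,z1,z1,z1],z2)],
    [([z1,z0,z0,z1,z0,z0],z2),([z0,z1,z1,z0,z0,z0],z1)],[([z1,z0,z0,z1,z0,z0],z2)],[]]],
    [.old (.leafM k2 [k1,k2,k3,k0] [] [(k4,k5,z1,[y1,z1]),(k5,k4,z1,[y1,z1])]),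
    .old (.leafM k0 [k0,k3,k4,k5] [] [(k1,k2,z1,[y1,z1]),(k2,k1,z1,[y1,z1])]),
    .old (.leafM k4 [k2,k4,k5,k1] [(z1,[y1,y1,z1])] [(k3,k0,z1,[z1]),(k0,k3,z1,[z1])]),
    .old (.lp [k38,k38,k10,k24,k60,k60] [k29,k29,k29,k29,k43,k43,k36,k36,k36,k0,k14,k22] k0 [[],[],[],[],[],[],[],[k0,k0,
    k0,k0,k0,k0,k0,k0,k0,k0,k0,k58],[],[],[k0,k0,k0,k0,k0,k0,k58]] k120 k6
    [[(k1,k38),(k10,k53),(k9,k67),(k6,k89)],[(k4,k24),(k7,k31)],[(k4,k24),(k7,k31)],[(k5,k24)],[(k2,k24)],[(k0,k24),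
    (k3,k24)],[(k0,k31),(k3,k31)],[(k6,k24),(k10,k46),(k9,k60),(k1,k89)],[(k10,k24),(k6,k60),(k1,k67),(k9,k96)],[(k8,
    k24),(k11,k38)],[(k8,k38),(k11,k52)],[(k9,k24),(k6,k46),(k1,k53),(k10,k68)]]
    [] k0
    [[k0,k1,k1,k0,k0,k0],[k0,k2,k2,k0,k0,k0],[k0,k0,k0,k0,k1,k1]]
    [.contra [y1,y1,z1],.ref k2 k0 [(z1,[z0,z1]),(z2,[z1])],.contra [y1,y1,z1]]),
    .old (.lp [k2,k2,k2,k2,k4,k2] [k1,k1,k1,k1,k1,k1,k1,k1,k0,k0,k1,k1] k0 [] k8 k5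
    [[(k1,k2),(k6,k2),(k10,k2),(k9,k3)],[(k4,k2),(k7,k2)],[(k4,k2),(k7,k2)],[(k5,k2)],[(k2,k2)],[(k0,k2),(k3,k2)],
    [(k0,k2),(k3,k2)],[(k1,k2),(k6,k2),(k10,k2),(k9,k3)],[(k1,k3),(k6,k3),(k10,k3),(k9,k4)],[(k11,k3),(k8,k4)],[(k11,
    k2),(k8,k3)],[(k1,k2),(k6,k2),(k10,k2),(k9,k3)]]
    [] k0
    [[k1,k0,k0,k1,k0,k0],[k0,k1,k1,k0,k0,k0],[k0,k0,k0,k0,k1,k1],[k0,k0,k0,k0,k0,k2]]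
    [.ref k3 k0 [(z1,[z1])],.ref k1 k0 [(z1,[y1,z1])],.ref k0 k0 [(z1,[y1,z1])],.contra [z1]])]⟩

/-- classes `0 1 0 2 3 2`, types `B0 S0 B1 B0 S0 B1` -/
noncomputable def cU6_2279 : CertX :=
  ⟨[k8,k16,k9,k40,k48,k41],[(false,k0,[k0,k1,k2,k3,k4,k5]),(false,k3,[k3,k4,k5,k0,k1,k2])],[[[([z1,z0,z0,z1,z1,z1],
    z2)],[([z1,z0,z0,z1,z0,z0],z2),([z0,z1,z1,z0,z0,z0],z1)],[([z1,z0,z0,z1,z0,z0],z2)],[]]],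
    [.old (.leafM k2 [k0,k3,k4,k5] [] [(k1,k2,z1,[y1,z1]),(k2,k1,z1,[y1,z1])]),
    .old (.leafM k4 [k2,k4,k5,k1] [(z1,[y1,y1,z1])] [(k3,k0,z1,[z1]),(k0,k3,z1,[z1])]),
    .old (.lp [k16,k6,k4,k4,k4,k4] [k0,k0,k5,k5,k6,k6,k6,k6,k6,k6,k6,k6] k0 [] k20 k6
    [[(k6,k10),(k9,k10)],[(k4,k10),(k7,k10)],[(k4,k5),(k7,k5)],[(k5,k5),(k2,k6)],[(k5,k4),(k2,k5)],[(k3,k5),(k0,k10)],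
    [(k3,k5),(k0,k10)],[(k10,k4),(k1,k10)],[(k10,k4),(k1,k10)],[(k8,k4),(k11,k4)],[(k8,k4),(k11,k4)],[(k6,k4),(k9,
    k4)]]
    [] k0
    [[k0,k1,k1,k0,k0,k0],[k0,k0,k0,k0,k1,k1],[k0,k0,k0,k0,k2,k2]]
    [.contra [y1,y1,z1],.contra [y1,y1,z1],.ref k1 k0 [(z1,[z0,z1]),(z2,[y1,y2,z2])]]),
    .old (.lp [k2,k2,k2,k2,k2,k2] [k0,k0,k0,k0,k0,k0,k0,k0,k0,k0,k0,k0] k0 [] k8 k5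
    [[(k6,k2),(k9,k2)],[(k4,k2),(k7,k2)],[(k4,k2),(k7,k2)],[(k2,k2),(k5,k2)],[(k2,k2),(k5,k2)],[(k0,k2),(k3,k2)],[(k0,
    k2),(k3,k2)],[(k1,k2),(k10,k2)],[(k1,k2),(k10,k2)],[(k8,k2),(k11,k2)],[(k8,k2),(k11,k2)],[(k6,k2),(k9,k2)]]
    [] k0
    [[k1,k0,k0,k1,k0,k0],[k0,k1,k1,k0,k0,k0],[k0,k0,k0,k0,k1,k1]]
    [.ref k2 k0 [(z1,[z1])],.ref k0 k0 [(z1,[y1,z1])],.ref k0 k1 [(z1,[y1,z1])]])]⟩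

/-- classes `0 1 0 2 3 2`, types `B0 S0 B1 C0 C0 C0` -/
noncomputable def cU6_2280 : CertX :=
  ⟨[k8,k16,k9,k36,k52,k36],[(false,k0,[k0,k1,k2,k3,k4,k5])],[[[([z1,z1,z1,z1,z0,z0],z2)],[([z1,z0,z0,z1,z1,z1],z2)],
    [([z1,z0,z0,z1,z0,z0],z2),([z0,z1,z1,z0,z0,z0],z1)],[([z1,z0,z0,z1,z0,z0],z2)],[]]],
    [.old (.leafM k2 [k1,k2,k3,k0] [] [(k4,k5,z1,[y1,z1]),(k5,k4,z1,[y1,z1])]),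
    .old (.leafM k0 [k0,k3,k4,k5] [] [(k1,k2,z1,[y1,z1]),(k2,k1,z1,[y1,z1])]),
    .old (.leafM k4 [k2,k4,k5,k1] [(z1,[y1,y1,z1])] [(k3,k0,z1,[z1]),(k0,k3,z1,[z1])]),
    .old (.lp [k4,k4,k4,k16,k6,k4] [k6,k6,k6,k6,k6,k6,k0,k0,k5,k5,k6,k6] k0 [] k20 k6
    [[(k10,k4),(k6,k10)],[(k4,k4),(k7,k10)],[(k4,k4),(k7,k10)],[(k2,k4),(k5,k4)],[(k2,k4),(k5,k4)],[(k0,k4),(k3,k4)],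
    [(k0,k10),(k3,k10)],[(k1,k10),(k9,k11)],[(k10,k5),(k6,k11)],[(k11,k5)],[(k8,k5)],[(k1,k4),(k9,k5)]]
    [] k0
    [[k0,k1,k1,k0,k0,k0],[k0,k2,k2,k0,k0,k0],[k0,k0,k0,k0,k1,k1]]
    [.contra [y1,y1,z1],.ref k2 k0 [(z1,[z0,z1]),(z2,[z1])],.contra [y1,y1,z1]]),
    .old (.lp [k2,k2,k2,k2,k2,k2] [k0,k0,k0,k0,k0,k0,k0,k0,k0,k0,k0,k0] k0 [] k8 k5
    [[(k6,k2),(k10,k2)],[(k4,k2),(k7,k2)],[(k4,k2),(k7,k2)],[(k2,k2),(k5,k2)],[(k2,k2),(k5,k2)],[(k0,k2),(k3,k2)],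
    [(k0,k2),(k3,k2)],[(k1,k2),(k9,k2)],[(k6,k2),(k10,k2)],[(k11,k2)],[(k8,k2)],[(k1,k2),(k9,k2)]]
    [] k0
    [[k1,k0,k0,k1,k0,k0],[k0,k1,k1,k0,k0,k0],[k0,k0,k0,k0,k1,k1]]
    [.ref k3 k0 [(z1,[z1])],.ref k1 k0 [(z1,[y1,z1])],.ref k0 k0 [(z1,[y1,z1])]])]⟩

/-- classes `0 1 0 2 3 2`, types `B0 S0 B1 C0 C0 C2` -/
noncomputable def cU6_2281 : CertX :=
  ⟨[k8,k16,k9,k36,k52,k38],[(false,k0,[k0,k1,k2,k3,k4,k5])],[[[([z1,z0,z0,z1,z1,z1],z2)],[]]],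
    [.old (.leafM k0 [k0,k3,k4,k5] [] [(k1,k2,z1,[y1,z1]),(k2,k1,z1,[y1,z1])]),
    .old (.lp [k2,k2,k2,k2,k2,k2] [k0,k0,k0,k0,k0,k0,k0,k0,k0,k0,k0,k0] k0 [] k8 k5
    [[(k9,k2),(k10,k2)],[(k4,k2),(k7,k2)],[(k4,k2),(k7,k2)],[(k2,k2),(k5,k2)],[(k2,k2),(k5,k2)],[(k0,k2),(k3,k2)],
    [(k0,k2),(k3,k2)],[(k9,k2),(k10,k2)],[(k1,k2),(k6,k2)],[(k11,k2)],[(k8,k2)],[(k1,k2),(k6,k2)]]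
    [] k0
    [[k0,k1,k1,k0,k0,k0]]
    [.ref k0 k0 [(z1,[y1,z1])]])]⟩

/-- classes `0 1 0 2 3 2`, types `B0 S0 B1 C0 S0 C0` -/
noncomputable def cU6_2282 : CertX :=
  ⟨[k8,k16,k9,k36,k48,k36],[(false,k0,[k0,k1,k2,k3,k4,k5])],[[[([z1,z1,z1,z1,z0,z0],z2)],[([z1,z0,z0,z1,z1,z1],z2)],
    [([z1,z0,z0,z1,z0,z0],z2),([z0,z1,z1,z0,z0,z0],z1)],[([z1,z0,z0,z1,z0,z0],z2)],[]]],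
    [.old (.leafM k2 [k1,k2,k3,k0] [] [(k4,k5,z1,[y1,z1]),(k5,k4,z1,[y1,z1])]),
    .old (.leafM k0 [k0,k3,k4,k5] [] [(k1,k2,z1,[y1,z1]),(k2,k1,z1,[y1,z1])]),
    .old (.leafM k4 [k2,k4,k5,k1] [(z1,[y1,y1,z1])] [(k3,k0,z1,[z1]),(k0,k3,z1,[z1])]),
    .old (.lp [k4,k4,k4,k16,k4,k6] [k6,k6,k6,k6,k6,k6,k0,k0,k6,k6,k5,k5] k0 [] k20 k6
    [[(k10,k5),(k6,k10)],[(k4,k4),(k7,k10)],[(k4,k4),(k7,k10)],[(k2,k4),(k5,k4)],[(k2,k4),(k5,k4)],[(k0,k4),(k3,k4)],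
    [(k0,k10),(k3,k10)],[(k1,k10),(k9,k10)],[(k10,k5),(k6,k10)],[(k8,k4),(k11,k5)],[(k8,k5),(k11,k6)],[(k1,k5),(k9,
    k5)]]
    [] k0
    [[k0,k1,k1,k0,k0,k0],[k0,k2,k2,k0,k0,k0],[k0,k0,k0,k0,k1,k1]]
    [.contra [y1,y1,z1],.ref k2 k0 [(z1,[z0,z1]),(z2,[z1])],.contra [y1,y1,z1]]),
    .old (.lp [k2,k2,k2,k2,k2,k2] [k0,k0,k0,k0,k0,k0,k0,k0,k0,k0,k0,k0] k0 [] k8 k5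
    [[(k6,k2),(k10,k2)],[(k4,k2),(k7,k2)],[(k4,k2),(k7,k2)],[(k2,k2),(k5,k2)],[(k2,k2),(k5,k2)],[(k0,k2),(k3,k2)],
    [(k0,k2),(k3,k2)],[(k1,k2),(k9,k2)],[(k6,k2),(k10,k2)],[(k8,k2),(k11,k2)],[(k8,k2),(k11,k2)],[(k1,k2),(k9,k2)]]
    [] k0
    [[k1,k0,k0,k1,k0,k0],[k0,k1,k1,k0,k0,k0],[k0,k0,k0,k0,k1,k1]]
    [.ref k3 k0 [(z1,[z1])],.ref k1 k0 [(z1,[y1,z1])],.ref k0 k0 [(z1,[y1,z1])]])]⟩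

/-- classes `0 1 0 2 3 2`, types `B0 S0 B1 C0 S0 C2` -/
noncomputable def cU6_2283 : CertX :=
  ⟨[k8,k16,k9,k36,k48,k38],[(false,k0,[k0,k1,k2,k3,k4,k5])],[[[([z1,z0,z0,z1,z1,z1],z2)],[]]],
    [.old (.leafM k0 [k0,k3,k4,k5] [] [(k1,k2,z1,[y1,z1]),(k2,k1,z1,[y1,z1])]),
    .old (.lp [k2,k2,k2,k2,k2,k2] [k0,k0,k0,k0,k0,k0,k0,k0,k0,k0,k0,k0] k0 [] k8 k5
    [[(k9,k2),(k10,k2)],[(k4,k2),(k7,k2)],[(k4,k2),(k7,k2)],[(k2,k2),(k5,k2)],[(k2,k2),(k5,k2)],[(k0,k2),(k3,k2)],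
    [(k0,k2),(k3,k2)],[(k9,k2),(k10,k2)],[(k1,k2),(k6,k2)],[(k8,k2),(k11,k2)],[(k8,k2),(k11,k2)],[(k1,k2),(k6,k2)]]
    [] k0
    [[k0,k1,k1,k0,k0,k0]]
    [.ref k0 k0 [(z1,[y1,z1])]])]⟩

/-- classes `0 1 0 2 3 2`, types `B0 S0 B1 N0 C0 N1` -/
noncomputable def cU6_2284 : CertX :=
  ⟨[k8,k16,k9,k44,k52,k45],[(false,k0,[k0,k1,k2,k3,k4,k5])],[[[([z1,z1,z1,z1,z0,z0],z2)],[([z1,z0,z0,z1,z0,z0],z1),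
    ([z0,z1,z1,z0,z0,z0],z2)],[([z1,z0,z0,z1,z1,z1],z2)],[([z1,z0,z0,z1,z0,z0],z2),([z0,z1,z1,z0,z0,z0],z1)],[([z1,z0,
    z0,z1,z0,z0],z2)],[]]],
    [.old (.leafM k2 [k1,k2,k3,k0] [] [(k4,k5,z1,[y1,z1]),(k5,k4,z1,[y1,z1])]),
    .old (.leafM k4 [k3,k4,k5,k0] [(z1,[y1,y1,z1])] [(k1,k2,z1,[z0,z1]),(k2,k1,z1,[z0,z1])]),
    .old (.lp [k0,k4,k16,k10,k8,k0] [k8,k8,k6,k6,k0,k0,k3,k3,k4,k4,k8,k8] k0 [] k20 k6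
    [[(k6,k5)],[(k7,k5),(k4,k8)],[(k7,k7),(k4,k10)],[(k2,k4),(k5,k10)],[(k2,k10),(k5,k16)],[(k0,k8),(k3,k10)],[(k0,
    k5),(k3,k7)],[(k1,k5)],[(k10,k4)],[(k11,k4)],[(k8,k4)],[(k9,k4)]]
    [] k0
    [[k1,k0,k0,k1,k0,k0],[k0,k0,k0,k0,k1,k1],[k0,k0,k0,k0,k2,k2]]
    [.contra [y1,z1],.contra [y1,z1],.ref k1 k0 [(z2,[y1,z2]),(z1,[z0,y1,z1])]]),
    .old (.leafM k4 [k2,k4,k5,k1] [(z1,[y1,y1,z1])] [(k3,k0,z1,[z1]),(k0,k3,z1,[z1])]),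
    .old (.lp [k2,k4,k6,k18,k8,k0] [k8,k8,k7,k7,k6,k6,k0,k0,k5,k5,k9,k9] k0 [] k20 k6
    [[(k6,k10)],[(k4,k4),(k7,k10)],[(k4,k5),(k7,k11)],[(k2,k4),(k5,k5)],[(k2,k5),(k5,k6)],[(k0,k4),(k3,k5)],[(k0,k10),
    (k3,k11)],[(k1,k10)],[(k10,k4)],[(k11,k4)],[(k8,k4)],[(k9,k4)]]
    [] k0
    [[k0,k1,k1,k0,k0,k0],[k0,k0,k0,k0,k1,k1],[k0,k0,k0,k0,k2,k2]]
    [.contra [y1,y1,z1],.contra [y1,y1,z1],.ref k3 k0 [(z1,[z0,z1]),(z2,[y1,y2,z2])]]),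
    .old (.lp [k2,k2,k2,k2,k4,k0] [k1,k1,k1,k1,k1,k1,k1,k1,k0,k0,k2,k2] k0 [] k8 k5
    [[(k6,k2)],[(k4,k2),(k7,k2)],[(k4,k2),(k7,k2)],[(k2,k2),(k5,k2)],[(k2,k2),(k5,k2)],[(k0,k2),(k3,k2)],[(k0,k2),(k3,
    k2)],[(k1,k2)],[(k10,k2)],[(k11,k2)],[(k8,k2)],[(k9,k2)]]
    [] k0
    [[k1,k0,k0,k1,k0,k0],[k0,k1,k1,k0,k0,k0],[k0,k0,k0,k0,k1,k1]]
    [.ref k4 k0 [(z1,[z1])],.ref k2 k0 [(z1,[y1,z1])],.ref k0 k0 [(z1,[y1,z1])]])]⟩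

/-- classes `0 1 0 2 3 2`, types `B0 S0 B1 N0 C0 N2` -/
noncomputable def cU6_2285 : CertX :=
  ⟨[k8,k16,k9,k44,k52,k46],[(false,k0,[k0,k1,k2,k3,k4,k5])],[[[([z1,z0,z0,z1,z1,z1],z2)],[]]],
    [.old (.leafM k2 [k0,k3,k4,k5] [] [(k1,k2,z1,[y1,z1]),(k2,k1,z1,[y1,z1])]),
    .old (.lp [k2,k2,k2,k2,k2,k2] [k0,k0,k0,k0,k0,k0,k0,k0,k0,k0,k0,k0] k0 [] k8 k5
    [[(k9,k2)],[(k4,k2),(k7,k2)],[(k4,k2),(k7,k2)],[(k2,k2),(k5,k2)],[(k2,k2),(k5,k2)],[(k0,k2),(k3,k2)],[(k0,k2),(k3,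
    k2)],[(k10,k2)],[(k1,k2)],[(k11,k2)],[(k8,k2)],[(k6,k2)]]
    [] k0
    [[k0,k1,k1,k0,k0,k0]]
    [.ref k0 k0 [(z1,[y1,z1])]])]⟩

/-- classes `0 1 0 2 3 2`, types `B0 S0 B1 N0 S0 N1` -/
noncomputable def cU6_2286 : CertX :=
  ⟨[k8,k16,k9,k44,k48,k45],[(false,k0,[k0,k1,k2,k3,k4,k5])],[[[([z1,z1,z1,z1,z0,z0],z2)],[([z1,z0,z0,z1,z0,z0],z1),
    ([z0,z1,z1,z0,z0,z0],z2)],[([z1,z0,z0,z1,z1,z1],z2)],[([z1,z0,z0,z1,z0,z0],z2),([z0,z1,z1,z0,z0,z0],z1)],[([z1,z0,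
    z0,z1,z0,z0],z2)],[]]],
    [.old (.leafM k2 [k1,k2,k3,k0] [] [(k4,k5,z1,[y1,z1]),(k5,k4,z1,[y1,z1])]),
    .old (.leafM k4 [k3,k4,k5,k0] [(z1,[y1,y1,z1])] [(k1,k2,z1,[z0,z1]),(k2,k1,z1,[z0,z1])]),
    .old (.lp [k4,k16,k4,k4,k4,k6] [k6,k6,k0,k0,k6,k6,k6,k6,k6,k6,k5,k5] k0 [] k20 k6
    [[(k6,k4)],[(k4,k4),(k7,k4)],[(k4,k10),(k7,k10)],[(k5,k10),(k2,k16)],[(k5,k4),(k2,k10)],[(k0,k4),(k3,k10)],[(k0,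
    k4),(k3,k10)],[(k1,k4)],[(k10,k5)],[(k8,k4),(k11,k5)],[(k8,k5),(k11,k6)],[(k9,k5)]]
    [] k0
    [[k1,k0,k0,k1,k0,k0],[k2,k0,k0,k2,k0,k0],[k0,k0,k0,k0,k1,k1]]
    [.contra [y1,z1],.ref k1 k0 [(z2,[z1]),(z1,[z0,y1,z1])],.contra [y1,z1]]),
    .old (.leafM k4 [k2,k4,k5,k1] [(z1,[y1,y1,z1])] [(k3,k0,z1,[z1]),(k0,k3,z1,[z1])]),
    .old (.lp [k4,k4,k4,k16,k4,k6] [k6,k6,k6,k6,k6,k6,k0,k0,k6,k6,k5,k5] k0 [] k20 k6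
    [[(k6,k10)],[(k4,k4),(k7,k10)],[(k4,k4),(k7,k10)],[(k2,k4),(k5,k4)],[(k2,k4),(k5,k4)],[(k0,k4),(k3,k4)],[(k0,k10),
    (k3,k10)],[(k1,k10)],[(k10,k5)],[(k8,k4),(k11,k5)],[(k8,k5),(k11,k6)],[(k9,k5)]]
    [] k0
    [[k0,k1,k1,k0,k0,k0],[k0,k2,k2,k0,k0,k0],[k0,k0,k0,k0,k1,k1]]
    [.contra [y1,y1,z1],.ref k3 k0 [(z1,[z0,z1]),(z2,[z1])],.contra [y1,y1,z1]]),
    .old (.lp [k2,k2,k2,k2,k2,k2] [k0,k0,k0,k0,k0,k0,k0,k0,k0,k0,k0,k0] k0 [] k8 k5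
    [[(k6,k2)],[(k4,k2),(k7,k2)],[(k4,k2),(k7,k2)],[(k2,k2),(k5,k2)],[(k2,k2),(k5,k2)],[(k0,k2),(k3,k2)],[(k0,k2),(k3,
    k2)],[(k1,k2)],[(k10,k2)],[(k8,k2),(k11,k2)],[(k8,k2),(k11,k2)],[(k9,k2)]]
    [] k0
    [[k1,k0,k0,k1,k0,k0],[k0,k1,k1,k0,k0,k0],[k0,k0,k0,k0,k1,k1]]
    [.ref k4 k0 [(z1,[z1])],.ref k2 k0 [(z1,[y1,z1])],.ref k0 k0 [(z1,[y1,z1])]])]⟩

/-- classes `0 1 0 2 3 2`, types `B0 S0 B1 N0 S0 N2` -/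
noncomputable def cU6_2287 : CertX :=
  ⟨[k8,k16,k9,k44,k48,k46],[(false,k0,[k0,k1,k2,k3,k4,k5])],[[[([z1,z0,z0,z1,z1,z1],z2)],[]]],
    [.old (.leafM k2 [k0,k3,k4,k5] [] [(k1,k2,z1,[y1,z1]),(k2,k1,z1,[y1,z1])]),
    .old (.lp [k2,k2,k2,k2,k2,k2] [k0,k0,k0,k0,k0,k0,k0,k0,k0,k0,k0,k0] k0 [] k8 k5
    [[(k9,k2)],[(k4,k2),(k7,k2)],[(k4,k2),(k7,k2)],[(k2,k2),(k5,k2)],[(k2,k2),(k5,k2)],[(k0,k2),(k3,k2)],[(k0,k2),(k3,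
    k2)],[(k10,k2)],[(k1,k2)],[(k8,k2),(k11,k2)],[(k8,k2),(k11,k2)],[(k6,k2)]]
    [] k0
    [[k0,k1,k1,k0,k0,k0]]
    [.ref k0 k0 [(z1,[y1,z1])]])]⟩

/-- classes `0 1 0 2 3 2`, types `B0 S0 B1 S0 C0 S0` -/
noncomputable def cU6_2288 : CertX :=
  ⟨[k8,k16,k9,k32,k52,k32],[(false,k0,[k0,k1,k2,k3,k4,k5])],[[[([z1,z1,z1,z1,z0,z0],z2)],[([z1,z0,z0,z1,z1,z1],z2)],
    [([z1,z0,z0,z1,z0,z0],z2),([z0,z1,z1,z0,z0,z0],z1)],[([z1,z0,z0,z1,z0,z0],z2)],[]]],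
    [.old (.leafM k2 [k1,k2,k3,k0] [] [(k4,k5,z1,[y1,z1]),(k5,k4,z1,[y1,z1])]),
    .old (.leafM k0 [k0,k3,k4,k5] [] [(k1,k2,z1,[y1,z1]),(k2,k1,z1,[y1,z1])]),
    .old (.leafM k4 [k2,k4,k5,k1] [(z1,[y1,y1,z1])] [(k3,k0,z1,[z1]),(k0,k3,z1,[z1])]),
    .old (.lp [k14,k4,k4,k6,k6,k4] [k0,k0,k5,k5,k5,k5,k4,k4,k4,k4,k5,k5] k0 [] k20 k6
    [[(k10,k9),(k6,k10),(k9,k10),(k1,k14)],[(k4,k9),(k7,k10)],[(k4,k4),(k7,k5)],[(k2,k4),(k5,k4)],[(k2,k4),(k5,k4)],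
    [(k3,k4),(k0,k9)],[(k3,k5),(k0,k10)],[(k10,k5),(k6,k6),(k9,k6),(k1,k10)],[(k10,k5),(k6,k6),(k9,k6),(k1,k10)],
    [(k11,k5)],[(k8,k5)],[(k10,k4),(k6,k5),(k9,k5),(k1,k9)]]
    [] k0
    [[k0,k1,k1,k0,k0,k0],[k0,k2,k2,k0,k0,k0],[k0,k0,k0,k0,k1,k1]]
    [.contra [y1,y1,z1],.ref k2 k0 [(z1,[z0,z1]),(z2,[z1])],.contra [y1,y1,z1]]),
    .old (.lp [k2,k2,k2,k2,k2,k2] [k0,k0,k0,k0,k0,k0,k0,k0,k0,k0,k0,k0] k0 [] k8 k5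
    [[(k1,k2),(k6,k2),(k9,k2),(k10,k2)],[(k4,k2),(k7,k2)],[(k4,k2),(k7,k2)],[(k2,k2),(k5,k2)],[(k2,k2),(k5,k2)],[(k0,
    k2),(k3,k2)],[(k0,k2),(k3,k2)],[(k1,k2),(k6,k2),(k9,k2),(k10,k2)],[(k1,k2),(k6,k2),(k9,k2),(k10,k2)],[(k11,k2)],
    [(k8,k2)],[(k1,k2),(k6,k2),(k9,k2),(k10,k2)]]
    [] k0
    [[k1,k0,k0,k1,k0,k0],[k0,k1,k1,k0,k0,k0],[k0,k0,k0,k0,k1,k1]]
    [.ref k3 k0 [(z1,[z1])],.ref k1 k0 [(z1,[y1,z1])],.ref k0 k0 [(z1,[y1,z1])]])]⟩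

/-- the certificates of this file -/
noncomputable def lU6_34 : List CertX :=
  [cU6_2135, cU6_2136, cU6_2137, cU6_2138, cU6_2139, cU6_2140, cU6_2141, cU6_2142, cU6_2143, cU6_2144,
      cU6_2145, cU6_2146, cU6_2147, cU6_2148, cU6_2149, cU6_2150, cU6_2151, cU6_2152, cU6_2153, cU6_2154,
      cU6_2155, cU6_2156, cU6_2157, cU6_2158, cU6_2159, cU6_2160, cU6_2161, cU6_2162, cU6_2163, cU6_2164,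
      cU6_2165, cU6_2166, cU6_2167, cU6_2168, cU6_2169, cU6_2170, cU6_2171, cU6_2172, cU6_2173, cU6_2174,
      cU6_2175, cU6_2176, cU6_2177, cU6_2178, cU6_2179, cU6_2180, cU6_2181, cU6_2182, cU6_2183, cU6_2184,
      cU6_2185, cU6_2186, cU6_2187, cU6_2188, cU6_2189, cU6_2190, cU6_2191, cU6_2192, cU6_2193, cU6_2194,
      cU6_2195, cU6_2196, cU6_2197, cU6_2198, cU6_2199, cU6_2200, cU6_2201, cU6_2202, cU6_2203, cU6_2204,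
      cU6_2205, cU6_2206, cU6_2207, cU6_2208, cU6_2209, cU6_2210, cU6_2211, cU6_2212, cU6_2213, cU6_2214,
      cU6_2215, cU6_2216, cU6_2217, cU6_2218, cU6_2219, cU6_2220, cU6_2221, cU6_2222, cU6_2223, cU6_2224,
      cU6_2225, cU6_2226, cU6_2227, cU6_2228, cU6_2229, cU6_2230, cU6_2231, cU6_2232, cU6_2233, cU6_2234,
      cU6_2235, cU6_2236, cU6_2237, cU6_2238, cU6_2239, cU6_2240, cU6_2241, cU6_2242, cU6_2243, cU6_2244,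
      cU6_2245, cU6_2246, cU6_2247, cU6_2248, cU6_2249, cU6_2250, cU6_2251, cU6_2252, cU6_2253, cU6_2254,
      cU6_2255, cU6_2256, cU6_2257, cU6_2258, cU6_2259, cU6_2260, cU6_2261, cU6_2262, cU6_2263, cU6_2264,
      cU6_2265, cU6_2266, cU6_2267, cU6_2268, cU6_2269, cU6_2270, cU6_2271, cU6_2272, cU6_2273, cU6_2274,
      cU6_2275, cU6_2276, cU6_2277, cU6_2278, cU6_2279, cU6_2280, cU6_2281, cU6_2282, cU6_2283, cU6_2284,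
      cU6_2285, cU6_2286, cU6_2287, cU6_2288]

theorem gU6_34 : allF (chkE 6 ttU6) lU6_34 = true := by
  decide +kernel

end Pool.Agent.Lib_MP_fa6e45
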