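import Pool.Agent.Lib_MP_fa6e45.CXT
import Pool.Agent.Lib_MP_fa6e45.HK

/-!
MP_fa6e45_co, stage 7: certificates (generated by a program).
-/

namespace Pool.Agent.Lib_MP_fa6e45

/-- classes `0 1 0 2 3 2`, types `B0 S0 B1 S0 S0 S0` -/
noncomputable def cU6_2289 : CertX :=
  ⟨[k8,k16,k9,k32,k48,k32],[(false,k0,[k0,k1,k2,k3,k4,k5])],[[[([z1,z1,z1,z1,z0,z0],z2)],[([z1,z0,z0,z1,z1,z1],z2)],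
    [([z1,z0,z0,z1,z0,z0],z2),([z0,z1,z1,z0,z0,z0],z1)],[([z1,z0,z0,z1,z0,z0],z2)],[]]],
    [.old (.leafM k2 [k1,k2,k3,k0] [] [(k4,k5,z1,[y1,z1]),(k5,k4,z1,[y1,z1])]),
    .old (.leafM k0 [k0,k3,k4,k5] [] [(k1,k2,z1,[y1,z1]),(k2,k1,z1,[y1,z1])]),
    .old (.leafM k4 [k2,k4,k5,k1] [(z1,[y1,y1,z1])] [(k3,k0,z1,[z1]),(k0,k3,z1,[z1])]),
    .old (.lp [k28,k12,k12,k18,k15,k30] [k3,k3,k11,k11,k11,k11,k8,k8,k11,k8,k0,k4] k0 [[],[],[],[],[],[],[],[k0,k0,k0,k0,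
    k0,k0,k0,k0,k0,k0,k0,k14],[],[],[k0,k0,k0,k0,k0,k0,k14]] k60 k6
    [[(k9,k23),(k1,k28),(k10,k31),(k6,k37)],[(k4,k20),(k7,k23)],[(k4,k12),(k7,k15)],[(k2,k12),(k5,k12)],[(k2,k12),(k5,
    k12)],[(k3,k12),(k0,k20)],[(k3,k15),(k0,k23)],[(k6,k18),(k9,k18),(k10,k26),(k1,k37)],[(k10,k12),(k6,k18),(k9,k18),
    (k1,k23)],[(k8,k12),(k11,k19)],[(k8,k19),(k11,k26)],[(k9,k12),(k6,k26),(k1,k31),(k10,k34)]]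
    [] k0
    [[k0,k1,k1,k0,k0,k0],[k0,k2,k2,k0,k0,k0],[k0,k0,k0,k0,k2,k0],[k0,k0,k0,k0,k1,k1]]
    [.contra [y1,y1,z1],.ref k2 k0 [(z1,[z0,z1]),(z2,[z1])],.contra [z1],.contra [y1,y1,z1]]),
    .old (.lp [k2,k2,k2,k2,k2,k4] [k1,k1,k1,k1,k1,k1,k1,k1,k1,k1,k0,k0] k0 [] k8 k5
    [[(k1,k2),(k6,k2),(k9,k2),(k10,k3)],[(k4,k2),(k7,k2)],[(k4,k2),(k7,k2)],[(k2,k2),(k5,k2)],[(k2,k2),(k5,k2)],[(k0,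
    k2),(k3,k2)],[(k0,k2),(k3,k2)],[(k1,k2),(k6,k2),(k9,k2),(k10,k3)],[(k1,k2),(k6,k2),(k9,k2),(k10,k3)],[(k8,k2),
    (k11,k3)],[(k8,k3),(k11,k4)],[(k1,k3),(k6,k3),(k9,k3),(k10,k4)]]
    [] k0
    [[k1,k0,k0,k1,k0,k0],[k0,k1,k1,k0,k0,k0],[k0,k0,k0,k0,k2,k0],[k0,k0,k0,k0,k1,k1]]
    [.ref k3 k0 [(z1,[z1])],.ref k1 k0 [(z1,[y1,z1])],.contra [z1],.ref k0 k0 [(z1,[y1,z1])]])]⟩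

/-- classes `0 1 0 2 3 2`, types `C0 C0 C0 C0 C0 C0` -/
noncomputable def cU6_2290 : CertX :=
  ⟨[k4,k20,k4,k36,k52,k36],[(false,k0,[k0,k1,k2,k3,k4,k5]),(false,k3,[k3,k4,k5,k0,k1,k2])],[[[([z1,z0,z0,z1,z1,z1],
    z2)],[([z1,z0,z0,z1,z0,z0],z2),([z0,z1,z1,z0,z0,z0],z1)],[([z1,z0,z0,z1,z0,z0],z2)],[]]],
    [.old (.leafM k0 [k0,k3,k4,k5] [] [(k1,k2,z1,[y1,z1]),(k2,k1,z1,[y1,z1])]),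
    .old (.leafM k4 [k2,k4,k5,k1] [(z1,[y1,y1,z1])] [(k3,k0,z1,[z1]),(k0,k3,z1,[z1])]),
    .old (.lp [k12,k10,k0,k8,k0,k8] [k0,k0,k1,k1,k6,k6,k2,k2,k6,k6,k2,k2] k0 [] k20 k6
    [[(k6,k10),(k10,k10)],[(k7,k10),(k3,k11)],[(k4,k5),(k0,k11)],[(k5,k5)],[(k2,k5)],[(k7,k4),(k3,k5)],[(k4,k4),(k0,
    k10)],[(k9,k4),(k1,k10)],[(k6,k4),(k10,k4)],[(k11,k4)],[(k8,k4)],[(k9,k4),(k1,k10)]]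
    [] k0
    [[k0,k1,k1,k0,k0,k0],[k0,k0,k0,k0,k1,k1],[k0,k0,k0,k0,k2,k2]]
    [.contra [y1,y1,z1],.contra [y1,y1,z1],.ref k1 k0 [(z1,[z0,z1]),(z2,[y1,y2,z2])]]),
    .old (.lp [k0,k2,k0,k2,k0,k2] [k1,k1,k0,k0,k1,k1,k0,k0,k1,k1,k0,k0] k0 [] k4 k5
    [[(k6,k1),(k10,k1)],[(k3,k1),(k7,k1)],[(k0,k1),(k4,k1)],[(k5,k1)],[(k2,k1)],[(k3,k1),(k7,k1)],[(k0,k1),(k4,k1)],
    [(k1,k1),(k9,k1)],[(k6,k1),(k10,k1)],[(k11,k1)],[(k8,k1)],[(k1,k1),(k9,k1)]]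
    [] k0
    [[k1,k0,k0,k1,k0,k0],[k0,k1,k1,k0,k0,k0],[k0,k0,k0,k0,k1,k1]]
    [.ref k2 k0 [(z1,[z1])],.ref k0 k0 [(z1,[y1,z1])],.ref k0 k1 [(z1,[y1,z1])]])]⟩

/-- classes `0 1 0 2 3 2`, types `C0 C0 C0 C0 C0 C2` -/
noncomputable def cU6_2291 : CertX :=
  ⟨[k4,k20,k4,k36,k52,k38],[(false,k0,[k0,k1,k2,k3,k4,k5])],[[[([z1,z0,z0,z1,z1,z1],z2)],[]]],
    [.old (.leafM k0 [k0,k3,k4,k5] [] [(k1,k2,z1,[y1,z1]),(k2,k1,z1,[y1,z1])]),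
    .old (.lp [k2,k2,k2,k2,k2,k2] [k0,k0,k0,k0,k0,k0,k0,k0,k0,k0,k0,k0] k0 [] k8 k5
    [[(k9,k2),(k10,k2)],[(k3,k2),(k7,k2)],[(k0,k2),(k4,k2)],[(k5,k2)],[(k2,k2)],[(k3,k2),(k7,k2)],[(k0,k2),(k4,k2)],
    [(k9,k2),(k10,k2)],[(k1,k2),(k6,k2)],[(k11,k2)],[(k8,k2)],[(k1,k2),(k6,k2)]]
    [] k0
    [[k0,k1,k1,k0,k0,k0]]
    [.ref k0 k0 [(z1,[y1,z1])]])]⟩

/-- classes `0 1 0 2 3 2`, types `C0 C0 C0 C0 S0 C0` -/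
noncomputable def cU6_2292 : CertX :=
  ⟨[k4,k20,k4,k36,k48,k36],[(false,k0,[k0,k1,k2,k3,k4,k5])],[[[([z1,z1,z1,z1,z0,z0],z2)],[([z1,z0,z0,z1,z1,z1],z2)],
    [([z1,z0,z0,z1,z0,z0],z2),([z0,z1,z1,z0,z0,z0],z1)],[([z1,z0,z0,z1,z0,z0],z2)],[]]],
    [.old (.leafM k0 [k0,k1,k2,k3] [] [(k4,k5,z1,[y1,z1]),(k5,k4,z1,[y1,z1])]),
    .old (.leafM k0 [k0,k3,k4,k5] [] [(k1,k2,z1,[y1,z1]),(k2,k1,z1,[y1,z1])]),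
    .old (.leafM k4 [k2,k4,k5,k1] [(z1,[y1,y1,z1])] [(k3,k0,z1,[z1]),(k0,k3,z1,[z1])]),
    .old (.lp [k12,k8,k0,k8,k6,k4] [k0,k0,k2,k2,k6,k6,k2,k2,k3,k3,k4,k4] k0 [] k20 k6
    [[(k10,k8),(k6,k10)],[(k3,k10),(k7,k10)],[(k4,k4),(k0,k10)],[(k5,k4)],[(k2,k4)],[(k3,k4),(k7,k4)],[(k4,k4),(k0,
    k10)],[(k9,k7),(k1,k10)],[(k10,k5),(k6,k7)],[(k11,k5),(k8,k6)],[(k11,k4),(k8,k5)],[(k9,k5),(k1,k8)]]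
    [] k0
    [[k0,k1,k1,k0,k0,k0],[k0,k2,k2,k0,k0,k0],[k0,k0,k0,k0,k1,k1]]
    [.contra [y1,y1,z1],.ref k2 k0 [(z1,[z0,z1]),(z2,[z1])],.contra [y1,y1,z1]]),
    .old (.lp [k2,k2,k2,k2,k2,k2] [k0,k0,k0,k0,k0,k0,k0,k0,k0,k0,k0,k0] k0 [] k8 k5
    [[(k6,k2),(k10,k2)],[(k3,k2),(k7,k2)],[(k0,k2),(k4,k2)],[(k5,k2)],[(k2,k2)],[(k3,k2),(k7,k2)],[(k0,k2),(k4,k2)],
    [(k1,k2),(k9,k2)],[(k6,k2),(k10,k2)],[(k8,k2),(k11,k2)],[(k8,k2),(k11,k2)],[(k1,k2),(k9,k2)]]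
    [] k0
    [[k1,k0,k0,k1,k0,k0],[k0,k1,k1,k0,k0,k0],[k0,k0,k0,k0,k1,k1]]
    [.ref k3 k0 [(z1,[z1])],.ref k1 k0 [(z1,[y1,z1])],.ref k0 k0 [(z1,[y1,z1])]])]⟩

/-- classes `0 1 0 2 3 2`, types `C0 C0 C0 C0 S0 C2` -/
noncomputable def cU6_2293 : CertX :=
  ⟨[k4,k20,k4,k36,k48,k38],[(false,k0,[k0,k1,k2,k3,k4,k5])],[[[([z1,z0,z0,z1,z1,z1],z2)],[]]],
    [.old (.leafM k0 [k0,k3,k4,k5] [] [(k1,k2,z1,[y1,z1]),(k2,k1,z1,[y1,z1])]),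
    .old (.lp [k2,k2,k2,k2,k2,k2] [k0,k0,k0,k0,k0,k0,k0,k0,k0,k0,k0,k0] k0 [] k8 k5
    [[(k9,k2),(k10,k2)],[(k3,k2),(k7,k2)],[(k0,k2),(k4,k2)],[(k5,k2)],[(k2,k2)],[(k3,k2),(k7,k2)],[(k0,k2),(k4,k2)],
    [(k9,k2),(k10,k2)],[(k1,k2),(k6,k2)],[(k8,k2),(k11,k2)],[(k8,k2),(k11,k2)],[(k1,k2),(k6,k2)]]
    [] k0
    [[k0,k1,k1,k0,k0,k0]]
    [.ref k0 k0 [(z1,[y1,z1])]])]⟩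

/-- classes `0 1 0 2 3 2`, types `C0 C0 C0 N0 C0 N1` -/
noncomputable def cU6_2294 : CertX :=
  ⟨[k4,k20,k4,k44,k52,k45],[(false,k0,[k0,k1,k2,k3,k4,k5])],[[[([z1,z1,z1,z1,z0,z0],z2)],[([z1,z0,z0,z1,z0,z0],z1),
    ([z0,z1,z1,z0,z0,z0],z2)],[([z1,z0,z0,z1,z1,z1],z2)],[([z1,z0,z0,z1,z0,z0],z2),([z0,z1,z1,z0,z0,z0],z1)],[([z1,z0,
    z0,z1,z0,z0],z2)],[]]],
    [.old (.leafM k0 [k0,k1,k2,k3] [] [(k4,k5,z1,[y1,z1]),(k5,k4,z1,[y1,z1])]),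
    .old (.leafM k4 [k3,k4,k5,k0] [(z1,[y1,y1,z1])] [(k1,k2,z1,[z0,z1]),(k2,k1,z1,[z0,z1])]),
    .old (.lp [k0,k20,k0,k8,k0,k10] [k10,k10,k0,k0,k10,k10,k6,k6,k10,k10,k5,k5] k0 [] k20 k6
    [[(k6,k4)],[(k7,k4),(k3,k10)],[(k0,k10),(k4,k10)],[(k5,k10)],[(k2,k10)],[(k7,k4),(k3,k10)],[(k0,k4),(k4,k4)],[(k1,
    k4)],[(k10,k5)],[(k11,k5)],[(k8,k5)],[(k9,k5)]]
    [] k0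
    [[k1,k0,k0,k1,k0,k0],[k2,k0,k0,k2,k0,k0],[k0,k0,k0,k0,k1,k1]]
    [.contra [y1,z1],.ref k1 k0 [(z2,[z1]),(z1,[z0,y1,z1])],.contra [y1,z1]]),
    .old (.leafM k4 [k2,k4,k5,k1] [(z1,[y1,y1,z1])] [(k3,k0,z1,[z1]),(k0,k3,z1,[z1])]),
    .old (.lp [k12,k8,k0,k8,k0,k10] [k0,k0,k2,k2,k6,k6,k2,k2,k6,k6,k1,k1] k0 [] k20 k6
    [[(k6,k10)],[(k3,k10),(k7,k10)],[(k4,k4),(k0,k10)],[(k5,k4)],[(k2,k4)],[(k3,k4),(k7,k4)],[(k4,k4),(k0,k10)],[(k1,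
    k10)],[(k10,k5)],[(k11,k5)],[(k8,k5)],[(k9,k5)]]
    [] k0
    [[k0,k1,k1,k0,k0,k0],[k0,k2,k2,k0,k0,k0],[k0,k0,k0,k0,k1,k1]]
    [.contra [y1,y1,z1],.ref k3 k0 [(z1,[z0,z1]),(z2,[z1])],.contra [y1,y1,z1]]),
    .old (.lp [k0,k2,k0,k2,k0,k2] [k1,k1,k0,k0,k1,k1,k0,k0,k1,k1,k0,k0] k0 [] k4 k5
    [[(k6,k1)],[(k3,k1),(k7,k1)],[(k0,k1),(k4,k1)],[(k5,k1)],[(k2,k1)],[(k3,k1),(k7,k1)],[(k0,k1),(k4,k1)],[(k1,k1)],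
    [(k10,k1)],[(k11,k1)],[(k8,k1)],[(k9,k1)]]
    [] k0
    [[k1,k0,k0,k1,k0,k0],[k0,k1,k1,k0,k0,k0],[k0,k0,k0,k0,k1,k1]]
    [.ref k4 k0 [(z1,[z1])],.ref k2 k0 [(z1,[y1,z1])],.ref k0 k0 [(z1,[y1,z1])]])]⟩

/-- classes `0 1 0 2 3 2`, types `C0 C0 C0 N0 C0 N2` -/
noncomputable def cU6_2295 : CertX :=
  ⟨[k4,k20,k4,k44,k52,k46],[(false,k0,[k0,k1,k2,k3,k4,k5])],[[[([z1,z0,z0,z1,z1,z1],z2)],[]]],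
    [.old (.leafM k2 [k0,k3,k4,k5] [] [(k1,k2,z1,[y1,z1]),(k2,k1,z1,[y1,z1])]),
    .old (.lp [k0,k2,k0,k2,k2,k0] [k1,k1,k0,k0,k1,k1,k0,k0,k0,k0,k1,k1] k0 [] k4 k5
    [[(k9,k1)],[(k3,k1),(k7,k1)],[(k0,k1),(k4,k1)],[(k5,k1)],[(k2,k1)],[(k3,k1),(k7,k1)],[(k0,k1),(k4,k1)],[(k10,k1)],
    [(k1,k1)],[(k11,k1)],[(k8,k1)],[(k6,k1)]]
    [] k0
    [[k0,k1,k1,k0,k0,k0]]
    [.ref k0 k0 [(z1,[y1,z1])]])]⟩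

/-- classes `0 1 0 2 3 2`, types `C0 C0 C0 N0 S0 N1` -/
noncomputable def cU6_2296 : CertX :=
  ⟨[k4,k20,k4,k44,k48,k45],[(false,k0,[k0,k1,k2,k3,k4,k5])],[[[([z1,z1,z1,z1,z0,z0],z2)],[([z1,z0,z0,z1,z0,z0],z1),
    ([z0,z1,z1,z0,z0,z0],z2)],[([z1,z0,z0,z1,z1,z1],z2)],[([z1,z0,z0,z1,z0,z0],z2),([z0,z1,z1,z0,z0,z0],z1)],[([z1,z0,
    z0,z1,z0,z0],z2)],[]]],
    [.old (.leafM k0 [k0,k1,k2,k3] [] [(k4,k5,z1,[y1,z1]),(k5,k4,z1,[y1,z1])]),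
    .old (.leafM k4 [k3,k4,k5,k0] [(z1,[y1,y1,z1])] [(k1,k2,z1,[z0,z1]),(k2,k1,z1,[z0,z1])]),
    .old (.lp [k2,k20,k0,k8,k4,k4] [k9,k9,k0,k0,k10,k10,k6,k6,k8,k8,k8,k8] k0 [] k20 k6
    [[(k6,k5)],[(k7,k5),(k3,k11)],[(k4,k10),(k0,k11)],[(k5,k10)],[(k2,k10)],[(k7,k4),(k3,k10)],[(k4,k4),(k0,k5)],[(k1,
    k5)],[(k10,k4)],[(k8,k4),(k11,k4)],[(k8,k4),(k11,k4)],[(k9,k4)]]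
    [] k0
    [[k1,k0,k0,k1,k0,k0],[k0,k0,k0,k0,k1,k1],[k0,k0,k0,k0,k2,k2]]
    [.contra [y1,z1],.contra [y1,z1],.ref k1 k0 [(z2,[y1,z2]),(z1,[z0,y1,z1])]]),
    .old (.leafM k4 [k2,k4,k5,k1] [(z1,[y1,y1,z1])] [(k3,k0,z1,[z1]),(k0,k3,z1,[z1])]),
    .old (.lp [k12,k10,k0,k8,k4,k4] [k0,k0,k1,k1,k6,k6,k2,k2,k4,k4,k4,k4] k0 [] k20 k6
    [[(k6,k10)],[(k7,k10),(k3,k11)],[(k4,k5),(k0,k11)],[(k5,k5)],[(k2,k5)],[(k7,k4),(k3,k5)],[(k4,k4),(k0,k10)],[(k1,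
    k10)],[(k10,k4)],[(k8,k4),(k11,k4)],[(k8,k4),(k11,k4)],[(k9,k4)]]
    [] k0
    [[k0,k1,k1,k0,k0,k0],[k0,k0,k0,k0,k1,k1],[k0,k0,k0,k0,k2,k2]]
    [.contra [y1,y1,z1],.contra [y1,y1,z1],.ref k3 k0 [(z1,[z0,z1]),(z2,[y1,y2,z2])]]),
    .old (.lp [k0,k4,k0,k4,k2,k2] [k2,k2,k0,k0,k2,k2,k0,k0,k1,k1,k1,k1] k0 [] k8 k5
    [[(k6,k2)],[(k3,k2),(k7,k2)],[(k0,k2),(k4,k2)],[(k5,k2)],[(k2,k2)],[(k3,k2),(k7,k2)],[(k0,k2),(k4,k2)],[(k1,k2)],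
    [(k10,k2)],[(k8,k2),(k11,k2)],[(k8,k2),(k11,k2)],[(k9,k2)]]
    [] k0
    [[k1,k0,k0,k1,k0,k0],[k0,k1,k1,k0,k0,k0],[k0,k0,k0,k0,k1,k1]]
    [.ref k4 k0 [(z1,[z1])],.ref k2 k0 [(z1,[y1,z1])],.ref k0 k0 [(z1,[y1,z1])]])]⟩

/-- classes `0 1 0 2 3 2`, types `C0 C0 C0 N0 S0 N2` -/
noncomputable def cU6_2297 : CertX :=
  ⟨[k4,k20,k4,k44,k48,k46],[(false,k0,[k0,k1,k2,k3,k4,k5])],[[[([z1,z0,z0,z1,z1,z1],z2)],[]]],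
    [.old (.leafM k2 [k0,k3,k4,k5] [] [(k1,k2,z1,[y1,z1]),(k2,k1,z1,[y1,z1])]),
    .old (.lp [k2,k2,k2,k2,k2,k2] [k0,k0,k0,k0,k0,k0,k0,k0,k0,k0,k0,k0] k0 [] k8 k5
    [[(k9,k2)],[(k3,k2),(k7,k2)],[(k0,k2),(k4,k2)],[(k5,k2)],[(k2,k2)],[(k3,k2),(k7,k2)],[(k0,k2),(k4,k2)],[(k10,k2)],
    [(k1,k2)],[(k8,k2),(k11,k2)],[(k8,k2),(k11,k2)],[(k6,k2)]]
    [] k0
    [[k0,k1,k1,k0,k0,k0]]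
    [.ref k0 k0 [(z1,[y1,z1])]])]⟩

/-- classes `0 1 0 2 3 2`, types `C0 C0 C0 S0 C0 S0` -/
noncomputable def cU6_2298 : CertX :=
  ⟨[k4,k20,k4,k32,k52,k32],[(false,k0,[k0,k1,k2,k3,k4,k5])],[[[([z1,z1,z1,z1,z0,z0],z2)],[([z1,z0,z0,z1,z1,z1],z2)],
    [([z1,z0,z0,z1,z0,z0],z2),([z0,z1,z1,z0,z0,z0],z1)],[([z1,z0,z0,z1,z0,z0],z2)],[]]],
    [.old (.leafM k0 [k0,k1,k2,k3] [] [(k4,k5,z1,[y1,z1]),(k5,k4,z1,[y1,z1])]),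
    .old (.leafM k0 [k0,k3,k4,k5] [] [(k1,k2,z1,[y1,z1]),(k2,k1,z1,[y1,z1])]),
    .old (.leafM k4 [k2,k4,k5,k1] [(z1,[y1,y1,z1])] [(k3,k0,z1,[z1]),(k0,k3,z1,[z1])]),
    .old (.lp [k4,k8,k0,k16,k4,k6] [k6,k6,k4,k4,k8,k8,k0,k0,k6,k6,k5,k5] k0 [] k20 k6
    [[(k1,k4),(k9,k4),(k10,k5),(k6,k10)],[(k3,k6),(k7,k10)],[(k4,k4),(k0,k6)],[(k5,k4)],[(k2,k4)],[(k3,k4),(k7,k8)],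
    [(k4,k8),(k0,k10)],[(k1,k10),(k9,k10),(k10,k11),(k6,k16)],[(k1,k4),(k9,k4),(k10,k5),(k6,k10)],[(k11,k5)],[(k8,
    k5)],[(k1,k5),(k9,k5),(k10,k6),(k6,k11)]]
    [] k0
    [[k0,k1,k1,k0,k0,k0],[k0,k2,k2,k0,k0,k0],[k0,k0,k0,k0,k1,k1]]
    [.contra [y1,y1,z1],.ref k2 k0 [(z1,[z0,z1]),(z2,[z1])],.contra [y1,y1,z1]]),
    .old (.lp [k2,k2,k2,k2,k2,k2] [k0,k0,k0,k0,k0,k0,k0,k0,k0,k0,k0,k0] k0 [] k8 k5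
    [[(k1,k2),(k6,k2),(k9,k2),(k10,k2)],[(k3,k2),(k7,k2)],[(k0,k2),(k4,k2)],[(k5,k2)],[(k2,k2)],[(k3,k2),(k7,k2)],
    [(k0,k2),(k4,k2)],[(k1,k2),(k6,k2),(k9,k2),(k10,k2)],[(k1,k2),(k6,k2),(k9,k2),(k10,k2)],[(k11,k2)],[(k8,k2)],[(k1,
    k2),(k6,k2),(k9,k2),(k10,k2)]]
    [] k0
    [[k1,k0,k0,k1,k0,k0],[k0,k1,k1,k0,k0,k0],[k0,k0,k0,k0,k1,k1]]
    [.ref k3 k0 [(z1,[z1])],.ref k1 k0 [(z1,[y1,z1])],.ref k0 k0 [(z1,[y1,z1])]])]⟩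

/-- classes `0 1 0 2 3 2`, types `C0 C0 C0 S0 S0 S0` -/
noncomputable def cU6_2299 : CertX :=
  ⟨[k4,k20,k4,k32,k48,k32],[(false,k0,[k0,k1,k2,k3,k4,k5])],[[[([z1,z1,z1,z1,z0,z0],z2)],[([z1,z0,z0,z1,z1,z1],z2)],
    [([z1,z0,z0,z1,z0,z0],z2),([z0,z1,z1,z0,z0,z0],z1)],[([z1,z0,z0,z1,z0,z0],z2)],[]]],
    [.old (.leafM k0 [k0,k1,k2,k3] [] [(k4,k5,z1,[y1,z1]),(k5,k4,z1,[y1,z1])]),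
    .old (.leafM k0 [k0,k3,k4,k5] [] [(k1,k2,z1,[y1,z1]),(k2,k1,z1,[y1,z1])]),
    .old (.leafM k4 [k2,k4,k5,k1] [(z1,[y1,y1,z1])] [(k3,k0,z1,[z1]),(k0,k3,z1,[z1])]),
    .old (.lp [(nat_lit 720),(nat_lit 504),(nat_lit 336),(nat_lit 336),(nat_lit 840),(nat_lit 490)] [(nat_lit 312),
    (nat_lit 312),(nat_lit 420),(nat_lit 420),(nat_lit 504),(nat_lit 504),(nat_lit 504),(nat_lit 504),(nat_lit 504),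
    k0,(nat_lit 357),(nat_lit 497)] k0 [[],[],[],[],[],[],[],[k0,k0,k0,k0,k0,k0,k0,k0,k0,k0,k0,(nat_lit 630)],[],[],
    [k0,k0,k0,k0,k0,k0,(nat_lit 630)]] (nat_lit 1680) k6
    [[(k10,(nat_lit 675)),(k1,(nat_lit 720)),(k9,(nat_lit 1032)),(k6,(nat_lit 1158))],[(k7,(nat_lit 528)),(k3,
    (nat_lit 612))],[(k4,(nat_lit 420)),(k0,(nat_lit 612))],[(k5,(nat_lit 420))],[(k2,(nat_lit 420))],[(k7,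
    (nat_lit 336)),(k3,(nat_lit 420))],[(k4,(nat_lit 336)),(k0,(nat_lit 528))],[(k6,(nat_lit 336)),(k10,
    (nat_lit 483)),(k9,(nat_lit 840)),(k1,(nat_lit 1158))],[(k10,(nat_lit 357)),(k6,(nat_lit 840)),(k1,
    (nat_lit 1032)),(k9,(nat_lit 1344))],[(k8,(nat_lit 336)),(k11,(nat_lit 343))],[(k8,(nat_lit 343)),(k11,
    (nat_lit 350))],[(k9,(nat_lit 357)),(k6,(nat_lit 483)),(k10,(nat_lit 630)),(k1,(nat_lit 675))]]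
    [] k0
    [[k0,k1,k1,k0,k0,k0],[k0,k0,k0,k0,k1,k1],[k0,k0,k0,k0,k2,k2],[k0,k0,k0,k0,k0,k2]]
    [.contra [y1,y1,z1],.contra [y1,y1,z1],.ref k2 k0 [(z1,[z0,z1]),(z2,[y1,y2,z2])],.contra [z1]]),
    .old (.lp [k2,k2,k2,k2,k4,k2] [k1,k1,k1,k1,k1,k1,k1,k1,k0,k0,k1,k1] k0 [] k8 k5
    [[(k1,k2),(k6,k2),(k10,k2),(k9,k3)],[(k3,k2),(k7,k2)],[(k0,k2),(k4,k2)],[(k5,k2)],[(k2,k2)],[(k3,k2),(k7,k2)],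
    [(k0,k2),(k4,k2)],[(k1,k2),(k6,k2),(k10,k2),(k9,k3)],[(k1,k3),(k6,k3),(k10,k3),(k9,k4)],[(k11,k3),(k8,k4)],[(k11,
    k2),(k8,k3)],[(k1,k2),(k6,k2),(k10,k2),(k9,k3)]]
    [] k0
    [[k1,k0,k0,k1,k0,k0],[k0,k1,k1,k0,k0,k0],[k0,k0,k0,k0,k1,k1],[k0,k0,k0,k0,k0,k2]]
    [.ref k3 k0 [(z1,[z1])],.ref k1 k0 [(z1,[y1,z1])],.ref k0 k0 [(z1,[y1,z1])],.contra [z1]])]⟩

/-- classes `0 1 0 2 3 2`, types `C0 C0 C2 C0 C0 C2` -/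
noncomputable def cU6_2300 : CertX :=
  ⟨[k4,k20,k6,k36,k52,k38],[],[[[]]],
    [.old (.lp [k2,k2,k2,k2,k2,k2] [k0,k0,k0,k0,k0,k0,k0,k0,k0,k0,k0,k0] k0 [] k8 k5
    [[(k9,k2),(k10,k2)],[(k3,k2),(k4,k2)],[(k0,k2),(k7,k2)],[(k5,k2)],[(k2,k2)],[(k0,k2),(k7,k2)],[(k3,k2),(k4,k2)],
    [(k9,k2),(k10,k2)],[(k1,k2),(k6,k2)],[(k11,k2)],[(k8,k2)],[(k1,k2),(k6,k2)]]
    [] k0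
    []
    [])]⟩

/-- classes `0 1 0 2 3 2`, types `C0 C0 C2 C0 S0 C0` -/
noncomputable def cU6_2301 : CertX :=
  ⟨[k4,k20,k6,k36,k48,k36],[(false,k0,[k0,k1,k2,k3,k4,k5])],[[[([z1,z1,z1,z1,z0,z0],z2)],[]]],
    [.old (.leafM k0 [k0,k1,k2,k3] [] [(k4,k5,z1,[y1,z1]),(k5,k4,z1,[y1,z1])]),
    .old (.lp [k2,k2,k2,k2,k2,k2] [k0,k0,k0,k0,k0,k0,k0,k0,k0,k0,k0,k0] k0 [] k8 k5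
    [[(k6,k2),(k10,k2)],[(k3,k2),(k4,k2)],[(k0,k2),(k7,k2)],[(k5,k2)],[(k2,k2)],[(k0,k2),(k7,k2)],[(k3,k2),(k4,k2)],
    [(k1,k2),(k9,k2)],[(k6,k2),(k10,k2)],[(k8,k2),(k11,k2)],[(k8,k2),(k11,k2)],[(k1,k2),(k9,k2)]]
    [] k0
    [[k0,k0,k0,k0,k1,k1]]
    [.ref k0 k0 [(z1,[y1,z1])]])]⟩

/-- classes `0 1 0 2 3 2`, types `C0 C0 C2 C0 S0 C2` -/
noncomputable def cU6_2302 : CertX :=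
  ⟨[k4,k20,k6,k36,k48,k38],[],[[[]]],
    [.old (.lp [k2,k2,k2,k2,k2,k2] [k0,k0,k0,k0,k0,k0,k0,k0,k0,k0,k0,k0] k0 [] k8 k5
    [[(k9,k2),(k10,k2)],[(k3,k2),(k4,k2)],[(k0,k2),(k7,k2)],[(k5,k2)],[(k2,k2)],[(k0,k2),(k7,k2)],[(k3,k2),(k4,k2)],
    [(k9,k2),(k10,k2)],[(k1,k2),(k6,k2)],[(k8,k2),(k11,k2)],[(k8,k2),(k11,k2)],[(k1,k2),(k6,k2)]]
    [] k0
    []
    [])]⟩

/-- classes `0 1 0 2 3 2`, types `C0 C0 C2 N0 C0 N1` -/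
noncomputable def cU6_2303 : CertX :=
  ⟨[k4,k20,k6,k44,k52,k45],[(false,k0,[k0,k1,k2,k3,k4,k5])],[[[([z1,z1,z1,z1,z0,z0],z2)],[]]],
    [.old (.leafM k0 [k0,k1,k2,k3] [] [(k4,k5,z1,[y1,z1]),(k5,k4,z1,[y1,z1])]),
    .old (.lp [k2,k2,k2,k2,k0,k4] [k1,k1,k1,k1,k1,k1,k1,k1,k2,k2,k0,k0] k0 [] k8 k5
    [[(k6,k2)],[(k3,k2),(k4,k2)],[(k0,k2),(k7,k2)],[(k5,k2)],[(k2,k2)],[(k0,k2),(k7,k2)],[(k3,k2),(k4,k2)],[(k1,k2)],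
    [(k10,k2)],[(k11,k2)],[(k8,k2)],[(k9,k2)]]
    [] k0
    [[k0,k0,k0,k0,k1,k1]]
    [.ref k0 k0 [(z1,[y1,z1])]])]⟩

/-- classes `0 1 0 2 3 2`, types `C0 C0 C2 N0 C0 N2` -/
noncomputable def cU6_2304 : CertX :=
  ⟨[k4,k20,k6,k44,k52,k46],[],[[[]]],
    [.old (.lp [k2,k2,k2,k2,k2,k2] [k0,k0,k0,k0,k0,k0,k0,k0,k0,k0,k0,k0] k0 [] k8 k5
    [[(k9,k2)],[(k3,k2),(k4,k2)],[(k0,k2),(k7,k2)],[(k5,k2)],[(k2,k2)],[(k0,k2),(k7,k2)],[(k3,k2),(k4,k2)],[(k10,k2)],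
    [(k1,k2)],[(k11,k2)],[(k8,k2)],[(k6,k2)]]
    [] k0
    []
    [])]⟩

/-- classes `0 1 0 2 3 2`, types `C0 C0 C2 N0 S0 N1` -/
noncomputable def cU6_2305 : CertX :=
  ⟨[k4,k20,k6,k44,k48,k45],[(false,k0,[k0,k1,k2,k3,k4,k5])],[[[([z1,z1,z1,z1,z0,z0],z2)],[]]],
    [.old (.leafM k0 [k0,k1,k2,k3] [] [(k4,k5,z1,[y1,z1]),(k5,k4,z1,[y1,z1])]),
    .old (.lp [k2,k2,k2,k2,k2,k2] [k0,k0,k0,k0,k0,k0,k0,k0,k0,k0,k0,k0] k0 [] k8 k5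
    [[(k6,k2)],[(k3,k2),(k4,k2)],[(k0,k2),(k7,k2)],[(k5,k2)],[(k2,k2)],[(k0,k2),(k7,k2)],[(k3,k2),(k4,k2)],[(k1,k2)],
    [(k10,k2)],[(k8,k2),(k11,k2)],[(k8,k2),(k11,k2)],[(k9,k2)]]
    [] k0
    [[k0,k0,k0,k0,k1,k1]]
    [.ref k0 k0 [(z1,[y1,z1])]])]⟩

/-- classes `0 1 0 2 3 2`, types `C0 C0 C2 N0 S0 N2` -/
noncomputable def cU6_2306 : CertX :=
  ⟨[k4,k20,k6,k44,k48,k46],[],[[[]]],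
    [.old (.lp [k2,k2,k2,k2,k2,k2] [k0,k0,k0,k0,k0,k0,k0,k0,k0,k0,k0,k0] k0 [] k8 k5
    [[(k9,k2)],[(k3,k2),(k4,k2)],[(k0,k2),(k7,k2)],[(k5,k2)],[(k2,k2)],[(k0,k2),(k7,k2)],[(k3,k2),(k4,k2)],[(k10,k2)],
    [(k1,k2)],[(k8,k2),(k11,k2)],[(k8,k2),(k11,k2)],[(k6,k2)]]
    [] k0
    []
    [])]⟩

/-- classes `0 1 0 2 3 2`, types `C0 C0 C2 S0 C0 S0` -/
noncomputable def cU6_2307 : CertX :=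
  ⟨[k4,k20,k6,k32,k52,k32],[(false,k0,[k0,k1,k2,k3,k4,k5])],[[[([z1,z1,z1,z1,z0,z0],z2)],[]]],
    [.old (.leafM k0 [k0,k1,k2,k3] [] [(k4,k5,z1,[y1,z1]),(k5,k4,z1,[y1,z1])]),
    .old (.lp [k2,k2,k2,k2,k2,k2] [k0,k0,k0,k0,k0,k0,k0,k0,k0,k0,k0,k0] k0 [] k8 k5
    [[(k1,k2),(k6,k2),(k9,k2),(k10,k2)],[(k3,k2),(k4,k2)],[(k0,k2),(k7,k2)],[(k5,k2)],[(k2,k2)],[(k0,k2),(k7,k2)],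
    [(k3,k2),(k4,k2)],[(k1,k2),(k6,k2),(k9,k2),(k10,k2)],[(k1,k2),(k6,k2),(k9,k2),(k10,k2)],[(k11,k2)],[(k8,k2)],[(k1,
    k2),(k6,k2),(k9,k2),(k10,k2)]]
    [] k0
    [[k0,k0,k0,k0,k1,k1]]
    [.ref k0 k0 [(z1,[y1,z1])]])]⟩

/-- classes `0 1 0 2 3 2`, types `C0 C0 C2 S0 S0 S0` -/
noncomputable def cU6_2308 : CertX :=
  ⟨[k4,k20,k6,k32,k48,k32],[(false,k0,[k0,k1,k2,k3,k4,k5])],[[[([z1,z1,z1,z1,z0,z0],z2)],[]]],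
    [.old (.leafM k0 [k0,k1,k2,k3] [] [(k4,k5,z1,[y1,z1]),(k5,k4,z1,[y1,z1])]),
    .old (.lp [k2,k2,k2,k2,k4,k2] [k1,k1,k1,k1,k1,k1,k1,k1,k0,k0,k1,k1] k0 [] k8 k5
    [[(k1,k2),(k6,k2),(k10,k2),(k9,k3)],[(k3,k2),(k4,k2)],[(k0,k2),(k7,k2)],[(k5,k2)],[(k2,k2)],[(k0,k2),(k7,k2)],
    [(k3,k2),(k4,k2)],[(k1,k2),(k6,k2),(k10,k2),(k9,k3)],[(k1,k3),(k6,k3),(k10,k3),(k9,k4)],[(k11,k3),(k8,k4)],[(k11,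
    k2),(k8,k3)],[(k1,k2),(k6,k2),(k10,k2),(k9,k3)]]
    [] k0
    [[k0,k0,k0,k0,k1,k1],[k0,k0,k0,k0,k0,k2]]
    [.ref k0 k0 [(z1,[y1,z1])],.contra [z1]])]⟩

/-- classes `0 1 0 2 3 2`, types `C0 S0 C0 C0 S0 C0` -/
noncomputable def cU6_2309 : CertX :=
  ⟨[k4,k16,k4,k36,k48,k36],[(false,k0,[k0,k1,k2,k3,k4,k5]),(false,k3,[k3,k4,k5,k0,k1,k2])],[[[([z1,z0,z0,z1,z1,z1],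
    z2)],[([z1,z0,z0,z1,z0,z0],z2),([z0,z1,z1,z0,z0,z0],z1)],[([z1,z0,z0,z1,z0,z0],z2)],[]]],
    [.old (.leafM k0 [k0,k3,k4,k5] [] [(k1,k2,z1,[y1,z1]),(k2,k1,z1,[y1,z1])]),
    .old (.leafM k4 [k2,k4,k5,k1] [(z1,[y1,y1,z1])] [(k3,k0,z1,[z1]),(k0,k3,z1,[z1])]),
    .old (.lp [k4,k4,k4,k16,k6,k4] [k6,k6,k6,k6,k6,k6,k0,k0,k5,k5,k6,k6] k0 [] k20 k6
    [[(k10,k4),(k6,k10)],[(k3,k4),(k7,k10)],[(k0,k4),(k4,k4)],[(k2,k4),(k5,k4)],[(k2,k4),(k5,k4)],[(k3,k4),(k7,k10)],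
    [(k0,k10),(k4,k10)],[(k1,k10),(k9,k11)],[(k10,k5),(k6,k11)],[(k11,k5),(k8,k6)],[(k11,k4),(k8,k5)],[(k1,k4),(k9,
    k5)]]
    [] k0
    [[k0,k1,k1,k0,k0,k0],[k0,k2,k2,k0,k0,k0],[k0,k0,k0,k0,k1,k1]]
    [.contra [y1,y1,z1],.ref k1 k0 [(z1,[z0,z1]),(z2,[z1])],.contra [y1,y1,z1]]),
    .old (.lp [k2,k2,k2,k2,k2,k2] [k0,k0,k0,k0,k0,k0,k0,k0,k0,k0,k0,k0] k0 [] k8 k5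
    [[(k6,k2),(k10,k2)],[(k3,k2),(k7,k2)],[(k0,k2),(k4,k2)],[(k2,k2),(k5,k2)],[(k2,k2),(k5,k2)],[(k3,k2),(k7,k2)],
    [(k0,k2),(k4,k2)],[(k1,k2),(k9,k2)],[(k6,k2),(k10,k2)],[(k8,k2),(k11,k2)],[(k8,k2),(k11,k2)],[(k1,k2),(k9,k2)]]
    [] k0
    [[k1,k0,k0,k1,k0,k0],[k0,k1,k1,k0,k0,k0],[k0,k0,k0,k0,k1,k1]]
    [.ref k2 k0 [(z1,[z1])],.ref k0 k0 [(z1,[y1,z1])],.ref k0 k1 [(z1,[y1,z1])]])]⟩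

/-- classes `0 1 0 2 3 2`, types `C0 S0 C0 C0 S0 C2` -/
noncomputable def cU6_2310 : CertX :=
  ⟨[k4,k16,k4,k36,k48,k38],[(false,k0,[k0,k1,k2,k3,k4,k5])],[[[([z1,z0,z0,z1,z1,z1],z2)],[]]],
    [.old (.leafM k0 [k0,k3,k4,k5] [] [(k1,k2,z1,[y1,z1]),(k2,k1,z1,[y1,z1])]),
    .old (.lp [k2,k2,k2,k2,k2,k2] [k0,k0,k0,k0,k0,k0,k0,k0,k0,k0,k0,k0] k0 [] k8 k5
    [[(k9,k2),(k10,k2)],[(k3,k2),(k7,k2)],[(k0,k2),(k4,k2)],[(k2,k2),(k5,k2)],[(k2,k2),(k5,k2)],[(k3,k2),(k7,k2)],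
    [(k0,k2),(k4,k2)],[(k9,k2),(k10,k2)],[(k1,k2),(k6,k2)],[(k8,k2),(k11,k2)],[(k8,k2),(k11,k2)],[(k1,k2),(k6,k2)]]
    [] k0
    [[k0,k1,k1,k0,k0,k0]]
    [.ref k0 k0 [(z1,[y1,z1])]])]⟩

/-- classes `0 1 0 2 3 2`, types `C0 S0 C0 N0 C0 N1` -/
noncomputable def cU6_2311 : CertX :=
  ⟨[k4,k16,k4,k44,k52,k45],[(false,k0,[k0,k1,k2,k3,k4,k5])],[[[([z1,z1,z1,z1,z0,z0],z2)],[([z1,z0,z0,z1,z0,z0],z1),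
    ([z0,z1,z1,z0,z0,z0],z2)],[([z1,z0,z0,z1,z1,z1],z2)],[([z1,z0,z0,z1,z0,z0],z2),([z0,z1,z1,z0,z0,z0],z1)],[([z1,z0,
    z0,z1,z0,z0],z2)],[]]],
    [.old (.leafM k0 [k0,k1,k2,k3] [] [(k4,k5,z1,[y1,z1]),(k5,k4,z1,[y1,z1])]),
    .old (.leafM k4 [k3,k4,k5,k0] [(z1,[y1,y1,z1])] [(k1,k2,z1,[z0,z1]),(k2,k1,z1,[z0,z1])]),
    .old (.lp [k6,k16,k4,k4,k8,k0] [k5,k5,k0,k0,k6,k6,k6,k6,k4,k4,k8,k8] k0 [] k20 k6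
    [[(k6,k5)],[(k7,k5),(k3,k11)],[(k4,k10),(k0,k11)],[(k5,k10),(k2,k16)],[(k5,k4),(k2,k10)],[(k7,k4),(k3,k10)],[(k4,
    k4),(k0,k5)],[(k1,k5)],[(k10,k4)],[(k11,k4)],[(k8,k4)],[(k9,k4)]]
    [] k0
    [[k1,k0,k0,k1,k0,k0],[k0,k0,k0,k0,k1,k1],[k0,k0,k0,k0,k2,k2]]
    [.contra [y1,z1],.contra [y1,z1],.ref k1 k0 [(z2,[y1,z2]),(z1,[z0,y1,z1])]]),
    .old (.leafM k4 [k2,k4,k5,k1] [(z1,[y1,y1,z1])] [(k3,k0,z1,[z1]),(k0,k3,z1,[z1])]),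
    .old (.lp [k16,k6,k4,k4,k8,k0] [k0,k0,k5,k5,k6,k6,k6,k6,k4,k4,k8,k8] k0 [] k20 k6
    [[(k6,k10)],[(k7,k10),(k3,k11)],[(k4,k5),(k0,k11)],[(k5,k5),(k2,k6)],[(k5,k4),(k2,k5)],[(k7,k4),(k3,k5)],[(k4,k4),
    (k0,k10)],[(k1,k10)],[(k10,k4)],[(k11,k4)],[(k8,k4)],[(k9,k4)]]
    [] k0
    [[k0,k1,k1,k0,k0,k0],[k0,k0,k0,k0,k1,k1],[k0,k0,k0,k0,k2,k2]]
    [.contra [y1,y1,z1],.contra [y1,y1,z1],.ref k3 k0 [(z1,[z0,z1]),(z2,[y1,y2,z2])]]),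
    .old (.lp [k2,k2,k2,k2,k4,k0] [k1,k1,k1,k1,k1,k1,k1,k1,k0,k0,k2,k2] k0 [] k8 k5
    [[(k6,k2)],[(k3,k2),(k7,k2)],[(k0,k2),(k4,k2)],[(k2,k2),(k5,k2)],[(k2,k2),(k5,k2)],[(k3,k2),(k7,k2)],[(k0,k2),(k4,
    k2)],[(k1,k2)],[(k10,k2)],[(k11,k2)],[(k8,k2)],[(k9,k2)]]
    [] k0
    [[k1,k0,k0,k1,k0,k0],[k0,k1,k1,k0,k0,k0],[k0,k0,k0,k0,k1,k1]]
    [.ref k4 k0 [(z1,[z1])],.ref k2 k0 [(z1,[y1,z1])],.ref k0 k0 [(z1,[y1,z1])]])]⟩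

/-- classes `0 1 0 2 3 2`, types `C0 S0 C0 N0 C0 N2` -/
noncomputable def cU6_2312 : CertX :=
  ⟨[k4,k16,k4,k44,k52,k46],[(false,k0,[k0,k1,k2,k3,k4,k5])],[[[([z1,z0,z0,z1,z1,z1],z2)],[]]],
    [.old (.leafM k2 [k0,k3,k4,k5] [] [(k1,k2,z1,[y1,z1]),(k2,k1,z1,[y1,z1])]),
    .old (.lp [k2,k2,k2,k2,k2,k2] [k0,k0,k0,k0,k0,k0,k0,k0,k0,k0,k0,k0] k0 [] k8 k5
    [[(k9,k2)],[(k3,k2),(k7,k2)],[(k0,k2),(k4,k2)],[(k2,k2),(k5,k2)],[(k2,k2),(k5,k2)],[(k3,k2),(k7,k2)],[(k0,k2),(k4,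
    k2)],[(k10,k2)],[(k1,k2)],[(k11,k2)],[(k8,k2)],[(k6,k2)]]
    [] k0
    [[k0,k1,k1,k0,k0,k0]]
    [.ref k0 k0 [(z1,[y1,z1])]])]⟩

/-- classes `0 1 0 2 3 2`, types `C0 S0 C0 N0 S0 N1` -/
noncomputable def cU6_2313 : CertX :=
  ⟨[k4,k16,k4,k44,k48,k45],[(false,k0,[k0,k1,k2,k3,k4,k5])],[[[([z1,z1,z1,z1,z0,z0],z2)],[([z1,z0,z0,z1,z0,z0],z1),
    ([z0,z1,z1,z0,z0,z0],z2)],[([z1,z0,z0,z1,z1,z1],z2)],[([z1,z0,z0,z1,z0,z0],z2),([z0,z1,z1,z0,z0,z0],z1)],[([z1,z0,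
    z0,z1,z0,z0],z2)],[]]],
    [.old (.leafM k0 [k0,k1,k2,k3] [] [(k4,k5,z1,[y1,z1]),(k5,k4,z1,[y1,z1])]),
    .old (.leafM k4 [k3,k4,k5,k0] [(z1,[y1,y1,z1])] [(k1,k2,z1,[z0,z1]),(k2,k1,z1,[z0,z1])]),
    .old (.lp [k0,k8,k12,k10,k4,k4] [k6,k6,k2,k2,k0,k0,k1,k1,k4,k4,k4,k4] k0 [] k20 k6
    [[(k6,k5)],[(k3,k4),(k7,k5)],[(k0,k4),(k4,k10)],[(k2,k8),(k5,k10)],[(k2,k10),(k5,k12)],[(k3,k10),(k7,k11)],[(k0,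
    k5),(k4,k11)],[(k1,k5)],[(k10,k4)],[(k8,k4),(k11,k4)],[(k8,k4),(k11,k4)],[(k9,k4)]]
    [] k0
    [[k1,k0,k0,k1,k0,k0],[k0,k0,k0,k0,k1,k1],[k0,k0,k0,k0,k2,k2]]
    [.contra [y1,z1],.contra [y1,z1],.ref k1 k0 [(z2,[y1,z2]),(z1,[z0,y1,z1])]]),
    .old (.leafM k4 [k2,k4,k5,k1] [(z1,[y1,y1,z1])] [(k3,k0,z1,[z1]),(k0,k3,z1,[z1])]),
    .old (.lp [k2,k6,k4,k18,k4,k4] [k8,k8,k6,k6,k7,k7,k0,k0,k7,k7,k7,k7] k0 [] k20 k6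
    [[(k6,k10)],[(k3,k4),(k7,k10)],[(k0,k4),(k4,k5)],[(k5,k5),(k2,k6)],[(k5,k4),(k2,k5)],[(k3,k5),(k7,k11)],[(k0,k10),
    (k4,k11)],[(k1,k10)],[(k10,k4)],[(k8,k4),(k11,k4)],[(k8,k4),(k11,k4)],[(k9,k4)]]
    [] k0
    [[k0,k1,k1,k0,k0,k0],[k0,k0,k0,k0,k1,k1],[k0,k0,k0,k0,k2,k2]]
    [.contra [y1,y1,z1],.contra [y1,y1,z1],.ref k3 k0 [(z1,[z0,z1]),(z2,[y1,y2,z2])]]),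
    .old (.lp [k2,k2,k2,k2,k2,k2] [k0,k0,k0,k0,k0,k0,k0,k0,k0,k0,k0,k0] k0 [] k8 k5
    [[(k6,k2)],[(k3,k2),(k7,k2)],[(k0,k2),(k4,k2)],[(k2,k2),(k5,k2)],[(k2,k2),(k5,k2)],[(k3,k2),(k7,k2)],[(k0,k2),(k4,
    k2)],[(k1,k2)],[(k10,k2)],[(k8,k2),(k11,k2)],[(k8,k2),(k11,k2)],[(k9,k2)]]
    [] k0
    [[k1,k0,k0,k1,k0,k0],[k0,k1,k1,k0,k0,k0],[k0,k0,k0,k0,k1,k1]]
    [.ref k4 k0 [(z1,[z1])],.ref k2 k0 [(z1,[y1,z1])],.ref k0 k0 [(z1,[y1,z1])]])]⟩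

/-- classes `0 1 0 2 3 2`, types `C0 S0 C0 N0 S0 N2` -/
noncomputable def cU6_2314 : CertX :=
  ⟨[k4,k16,k4,k44,k48,k46],[(false,k0,[k0,k1,k2,k3,k4,k5])],[[[([z1,z0,z0,z1,z1,z1],z2)],[]]],
    [.old (.leafM k2 [k0,k3,k4,k5] [] [(k1,k2,z1,[y1,z1]),(k2,k1,z1,[y1,z1])]),
    .old (.lp [k2,k2,k2,k2,k2,k2] [k0,k0,k0,k0,k0,k0,k0,k0,k0,k0,k0,k0] k0 [] k8 k5
    [[(k9,k2)],[(k3,k2),(k7,k2)],[(k0,k2),(k4,k2)],[(k2,k2),(k5,k2)],[(k2,k2),(k5,k2)],[(k3,k2),(k7,k2)],[(k0,k2),(k4,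
    k2)],[(k10,k2)],[(k1,k2)],[(k8,k2),(k11,k2)],[(k8,k2),(k11,k2)],[(k6,k2)]]
    [] k0
    [[k0,k1,k1,k0,k0,k0]]
    [.ref k0 k0 [(z1,[y1,z1])]])]⟩

/-- classes `0 1 0 2 3 2`, types `C0 S0 C0 S0 C0 S0` -/
noncomputable def cU6_2315 : CertX :=
  ⟨[k4,k16,k4,k32,k52,k32],[(false,k0,[k0,k1,k2,k3,k4,k5])],[[[([z1,z1,z1,z1,z0,z0],z2)],[([z1,z0,z0,z1,z1,z1],z2)],
    [([z1,z0,z0,z1,z0,z0],z2),([z0,z1,z1,z0,z0,z0],z1)],[([z1,z0,z0,z1,z0,z0],z2)],[]]],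
    [.old (.leafM k0 [k0,k1,k2,k3] [] [(k4,k5,z1,[y1,z1]),(k5,k4,z1,[y1,z1])]),
    .old (.leafM k0 [k0,k3,k4,k5] [] [(k1,k2,z1,[y1,z1]),(k2,k1,z1,[y1,z1])]),
    .old (.leafM k4 [k2,k4,k5,k1] [(z1,[y1,y1,z1])] [(k3,k0,z1,[z1]),(k0,k3,z1,[z1])]),
    .old (.lp [k16,k4,k6,k4,k4,k4] [k0,k0,k6,k6,k5,k5,k6,k6,k6,k6,k6,k6] k0 [] k20 k6
    [[(k6,k10),(k9,k10),(k10,k10),(k1,k16)],[(k3,k10),(k7,k10)],[(k4,k5),(k0,k10)],[(k2,k4),(k5,k5)],[(k2,k5),(k5,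
    k6)],[(k3,k5),(k7,k5)],[(k4,k5),(k0,k10)],[(k6,k4),(k9,k4),(k10,k4),(k1,k10)],[(k6,k4),(k9,k4),(k10,k4),(k1,k10)],
    [(k11,k4)],[(k8,k4)],[(k6,k4),(k9,k4),(k10,k4),(k1,k10)]]
    [] k0
    [[k0,k1,k1,k0,k0,k0],[k0,k0,k0,k0,k2,k2],[k0,k0,k0,k0,k1,k1]]
    [.contra [y1,y1,z1],.ref k2 k0 [(z1,[z0,z1]),(z2,[y1,y2,z2])],.contra [y1,y1,z1]]),
    .old (.lp [k2,k2,k2,k2,k2,k2] [k0,k0,k0,k0,k0,k0,k0,k0,k0,k0,k0,k0] k0 [] k8 k5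
    [[(k1,k2),(k6,k2),(k9,k2),(k10,k2)],[(k3,k2),(k7,k2)],[(k0,k2),(k4,k2)],[(k2,k2),(k5,k2)],[(k2,k2),(k5,k2)],[(k3,
    k2),(k7,k2)],[(k0,k2),(k4,k2)],[(k1,k2),(k6,k2),(k9,k2),(k10,k2)],[(k1,k2),(k6,k2),(k9,k2),(k10,k2)],[(k11,k2)],
    [(k8,k2)],[(k1,k2),(k6,k2),(k9,k2),(k10,k2)]]
    [] k0
    [[k1,k0,k0,k1,k0,k0],[k0,k1,k1,k0,k0,k0],[k0,k0,k0,k0,k1,k1]]
    [.ref k3 k0 [(z1,[z1])],.ref k1 k0 [(z1,[y1,z1])],.ref k0 k0 [(z1,[y1,z1])]])]⟩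

/-- classes `0 1 0 2 3 2`, types `C0 S0 C0 S0 S0 S0` -/
noncomputable def cU6_2316 : CertX :=
  ⟨[k4,k16,k4,k32,k48,k32],[(false,k0,[k0,k1,k2,k3,k4,k5])],[[[([z1,z1,z1,z1,z0,z0],z2)],[([z1,z0,z0,z1,z1,z1],z2)],
    [([z1,z0,z0,z1,z0,z0],z2),([z0,z1,z1,z0,z0,z0],z1)],[([z1,z0,z0,z1,z0,z0],z2)],[]]],
    [.old (.leafM k0 [k0,k1,k2,k3] [] [(k4,k5,z1,[y1,z1]),(k5,k4,z1,[y1,z1])]),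
    .old (.leafM k0 [k0,k3,k4,k5] [] [(k1,k2,z1,[y1,z1]),(k2,k1,z1,[y1,z1])]),
    .old (.leafM k4 [k2,k4,k5,k1] [(z1,[y1,y1,z1])] [(k3,k0,z1,[z1]),(k0,k3,z1,[z1])]),
    .old (.lp [k28,k12,k12,k18,k15,k30] [k3,k3,k11,k11,k11,k11,k8,k8,k11,k8,k0,k4] k0 [[],[],[],[],[],[],[],[k0,k0,k0,k0,
    k0,k0,k0,k0,k0,k0,k0,k14],[],[],[k0,k0,k0,k0,k0,k0,k14]] k60 k6
    [[(k9,k23),(k1,k28),(k10,k31),(k6,k37)],[(k3,k20),(k7,k23)],[(k4,k12),(k0,k20)],[(k2,k12),(k5,k12)],[(k2,k12),(k5,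
    k12)],[(k3,k12),(k7,k15)],[(k4,k15),(k0,k23)],[(k6,k18),(k9,k18),(k10,k26),(k1,k37)],[(k10,k12),(k6,k18),(k9,k18),
    (k1,k23)],[(k8,k12),(k11,k19)],[(k8,k19),(k11,k26)],[(k9,k12),(k6,k26),(k1,k31),(k10,k34)]]
    [] k0
    [[k0,k1,k1,k0,k0,k0],[k0,k2,k2,k0,k0,k0],[k0,k0,k0,k0,k2,k0],[k0,k0,k0,k0,k1,k1]]
    [.contra [y1,y1,z1],.ref k2 k0 [(z1,[z0,z1]),(z2,[z1])],.contra [z1],.contra [y1,y1,z1]]),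
    .old (.lp [k2,k2,k2,k2,k4,k2] [k1,k1,k1,k1,k1,k1,k1,k1,k0,k0,k1,k1] k0 [] k8 k5
    [[(k1,k2),(k6,k2),(k10,k2),(k9,k3)],[(k3,k2),(k7,k2)],[(k0,k2),(k4,k2)],[(k2,k2),(k5,k2)],[(k2,k2),(k5,k2)],[(k3,
    k2),(k7,k2)],[(k0,k2),(k4,k2)],[(k1,k2),(k6,k2),(k10,k2),(k9,k3)],[(k1,k3),(k6,k3),(k10,k3),(k9,k4)],[(k11,k3),
    (k8,k4)],[(k11,k2),(k8,k3)],[(k1,k2),(k6,k2),(k10,k2),(k9,k3)]]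
    [] k0
    [[k1,k0,k0,k1,k0,k0],[k0,k1,k1,k0,k0,k0],[k0,k0,k0,k0,k1,k1],[k0,k0,k0,k0,k0,k2]]
    [.ref k3 k0 [(z1,[z1])],.ref k1 k0 [(z1,[y1,z1])],.ref k0 k0 [(z1,[y1,z1])],.contra [z1]])]⟩

/-- classes `0 1 0 2 3 2`, types `C0 S0 C2 C0 S0 C2` -/
noncomputable def cU6_2317 : CertX :=
  ⟨[k4,k16,k6,k36,k48,k38],[],[[[]]],
    [.old (.lp [k2,k2,k2,k2,k2,k2] [k0,k0,k0,k0,k0,k0,k0,k0,k0,k0,k0,k0] k0 [] k8 k5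
    [[(k9,k2),(k10,k2)],[(k3,k2),(k4,k2)],[(k0,k2),(k7,k2)],[(k2,k2),(k5,k2)],[(k2,k2),(k5,k2)],[(k0,k2),(k7,k2)],
    [(k3,k2),(k4,k2)],[(k9,k2),(k10,k2)],[(k1,k2),(k6,k2)],[(k8,k2),(k11,k2)],[(k8,k2),(k11,k2)],[(k1,k2),(k6,k2)]]
    [] k0
    []
    [])]⟩

/-- classes `0 1 0 2 3 2`, types `C0 S0 C2 N0 C0 N1` -/
noncomputable def cU6_2318 : CertX :=
  ⟨[k4,k16,k6,k44,k52,k45],[(false,k0,[k0,k1,k2,k3,k4,k5])],[[[([z1,z1,z1,z1,z0,z0],z2)],[]]],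
    [.old (.leafM k0 [k0,k1,k2,k3] [] [(k4,k5,z1,[y1,z1]),(k5,k4,z1,[y1,z1])]),
    .old (.lp [k2,k2,k2,k2,k4,k0] [k1,k1,k1,k1,k1,k1,k1,k1,k0,k0,k2,k2] k0 [] k8 k5
    [[(k6,k2)],[(k3,k2),(k4,k2)],[(k0,k2),(k7,k2)],[(k2,k2),(k5,k2)],[(k2,k2),(k5,k2)],[(k0,k2),(k7,k2)],[(k3,k2),(k4,
    k2)],[(k1,k2)],[(k10,k2)],[(k11,k2)],[(k8,k2)],[(k9,k2)]]
    [] k0
    [[k0,k0,k0,k0,k1,k1]]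
    [.ref k0 k0 [(z1,[y1,z1])]])]⟩

/-- classes `0 1 0 2 3 2`, types `C0 S0 C2 N0 C0 N2` -/
noncomputable def cU6_2319 : CertX :=
  ⟨[k4,k16,k6,k44,k52,k46],[],[[[]]],
    [.old (.lp [k2,k2,k2,k2,k2,k2] [k0,k0,k0,k0,k0,k0,k0,k0,k0,k0,k0,k0] k0 [] k8 k5
    [[(k9,k2)],[(k3,k2),(k4,k2)],[(k0,k2),(k7,k2)],[(k2,k2),(k5,k2)],[(k2,k2),(k5,k2)],[(k0,k2),(k7,k2)],[(k3,k2),(k4,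
    k2)],[(k10,k2)],[(k1,k2)],[(k11,k2)],[(k8,k2)],[(k6,k2)]]
    [] k0
    []
    [])]⟩

/-- classes `0 1 0 2 3 2`, types `C0 S0 C2 N0 S0 N1` -/
noncomputable def cU6_2320 : CertX :=
  ⟨[k4,k16,k6,k44,k48,k45],[(false,k0,[k0,k1,k2,k3,k4,k5])],[[[([z1,z1,z1,z1,z0,z0],z2)],[]]],
    [.old (.leafM k0 [k0,k1,k2,k3] [] [(k4,k5,z1,[y1,z1]),(k5,k4,z1,[y1,z1])]),
    .old (.lp [k2,k2,k2,k2,k2,k2] [k0,k0,k0,k0,k0,k0,k0,k0,k0,k0,k0,k0] k0 [] k8 k5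
    [[(k6,k2)],[(k3,k2),(k4,k2)],[(k0,k2),(k7,k2)],[(k2,k2),(k5,k2)],[(k2,k2),(k5,k2)],[(k0,k2),(k7,k2)],[(k3,k2),(k4,
    k2)],[(k1,k2)],[(k10,k2)],[(k8,k2),(k11,k2)],[(k8,k2),(k11,k2)],[(k9,k2)]]
    [] k0
    [[k0,k0,k0,k0,k1,k1]]
    [.ref k0 k0 [(z1,[y1,z1])]])]⟩

/-- classes `0 1 0 2 3 2`, types `C0 S0 C2 N0 S0 N2` -/
noncomputable def cU6_2321 : CertX :=
  ⟨[k4,k16,k6,k44,k48,k46],[],[[[]]],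
    [.old (.lp [k2,k2,k2,k2,k2,k2] [k0,k0,k0,k0,k0,k0,k0,k0,k0,k0,k0,k0] k0 [] k8 k5
    [[(k9,k2)],[(k3,k2),(k4,k2)],[(k0,k2),(k7,k2)],[(k2,k2),(k5,k2)],[(k2,k2),(k5,k2)],[(k0,k2),(k7,k2)],[(k3,k2),(k4,
    k2)],[(k10,k2)],[(k1,k2)],[(k8,k2),(k11,k2)],[(k8,k2),(k11,k2)],[(k6,k2)]]
    [] k0
    []
    [])]⟩

/-- classes `0 1 0 2 3 2`, types `C0 S0 C2 S0 C0 S0` -/
noncomputable def cU6_2322 : CertX :=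
  ⟨[k4,k16,k6,k32,k52,k32],[(false,k0,[k0,k1,k2,k3,k4,k5])],[[[([z1,z1,z1,z1,z0,z0],z2)],[]]],
    [.old (.leafM k0 [k0,k1,k2,k3] [] [(k4,k5,z1,[y1,z1]),(k5,k4,z1,[y1,z1])]),
    .old (.lp [k2,k2,k2,k2,k2,k2] [k0,k0,k0,k0,k0,k0,k0,k0,k0,k0,k0,k0] k0 [] k8 k5
    [[(k1,k2),(k6,k2),(k9,k2),(k10,k2)],[(k3,k2),(k4,k2)],[(k0,k2),(k7,k2)],[(k2,k2),(k5,k2)],[(k2,k2),(k5,k2)],[(k0,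
    k2),(k7,k2)],[(k3,k2),(k4,k2)],[(k1,k2),(k6,k2),(k9,k2),(k10,k2)],[(k1,k2),(k6,k2),(k9,k2),(k10,k2)],[(k11,k2)],
    [(k8,k2)],[(k1,k2),(k6,k2),(k9,k2),(k10,k2)]]
    [] k0
    [[k0,k0,k0,k0,k1,k1]]
    [.ref k0 k0 [(z1,[y1,z1])]])]⟩

/-- classes `0 1 0 2 3 2`, types `C0 S0 C2 S0 S0 S0` -/
noncomputable def cU6_2323 : CertX :=
  ⟨[k4,k16,k6,k32,k48,k32],[(false,k0,[k0,k1,k2,k3,k4,k5])],[[[([z1,z1,z1,z1,z0,z0],z2)],[]]],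
    [.old (.leafM k0 [k0,k1,k2,k3] [] [(k4,k5,z1,[y1,z1]),(k5,k4,z1,[y1,z1])]),
    .old (.lp [k2,k2,k2,k2,k2,k4] [k1,k1,k1,k1,k1,k1,k1,k1,k1,k1,k0,k0] k0 [] k8 k5
    [[(k1,k2),(k6,k2),(k9,k2),(k10,k3)],[(k3,k2),(k4,k2)],[(k0,k2),(k7,k2)],[(k2,k2),(k5,k2)],[(k2,k2),(k5,k2)],[(k0,
    k2),(k7,k2)],[(k3,k2),(k4,k2)],[(k1,k2),(k6,k2),(k9,k2),(k10,k3)],[(k1,k2),(k6,k2),(k9,k2),(k10,k3)],[(k8,k2),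
    (k11,k3)],[(k8,k3),(k11,k4)],[(k1,k3),(k6,k3),(k9,k3),(k10,k4)]]
    [] k0
    [[k0,k0,k0,k0,k2,k0],[k0,k0,k0,k0,k1,k1]]
    [.contra [z1],.ref k0 k0 [(z1,[y1,z1])]])]⟩

/-- classes `0 1 0 2 3 2`, types `N0 C0 N1 N0 C0 N1` -/
noncomputable def cU6_2324 : CertX :=
  ⟨[k12,k20,k13,k44,k52,k45],[(false,k3,[k3,k4,k5,k0,k1,k2]),(false,k0,[k0,k1,k2,k3,k4,k5])],[[[([z1,z0,z0,z1,z0,z0],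
    z1),([z0,z1,z1,z0,z0,z0],z1)],[([z1,z0,z0,z1,z1,z1],z2)],[([z1,z0,z0,z1,z0,z0],z2),([z0,z1,z1,z0,z0,z0],z1)],
    [([z1,z0,z0,z1,z0,z0],z2)],[]]],
    [.old (.leafM k4 [k0,k1,k2,k3] [(z1,[z0,z1])] [(k4,k5,z1,[y1,y1,z1]),(k5,k4,z1,[y1,y1,z1])]),
    .old (.lp [k8,k20,k0,k0,k0,k10] [k6,k6,k0,k0,k10,k10,k10,k10,k10,k10,k5,k5] k0 [] k20 k6
    [[(k6,k4)],[(k7,k4)],[(k4,k10)],[(k5,k10)],[(k2,k10)],[(k3,k10)],[(k0,k4)],[(k1,k4)],[(k10,k5)],[(k11,k5)],[(k8,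
    k5)],[(k9,k5)]]
    [] k0
    [[k1,k0,k0,k1,k0,k0],[k2,k0,k0,k2,k0,k0],[k0,k0,k0,k0,k1,k1]]
    [.contra [y1,z1],.ref k0 k0 [(z2,[z1]),(z2,[y1,z2])],.contra [y1,z1]]),
    .old (.leafM k4 [k2,k4,k5,k1] [(z1,[y1,y1,z1])] [(k3,k0,z1,[z1]),(k0,k3,z1,[z1])]),
    .old (.lp [k20,k8,k0,k0,k0,k10] [k0,k0,k6,k6,k10,k10,k10,k10,k10,k10,k5,k5] k0 [] k20 k6
    [[(k6,k10)],[(k7,k10)],[(k4,k4)],[(k5,k4)],[(k2,k4)],[(k3,k4)],[(k0,k10)],[(k1,k10)],[(k10,k5)],[(k11,k5)],[(k8,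
    k5)],[(k9,k5)]]
    [] k0
    [[k0,k1,k1,k0,k0,k0],[k0,k2,k2,k0,k0,k0],[k0,k0,k0,k0,k1,k1]]
    [.contra [y1,y1,z1],.ref k2 k1 [(z1,[z0,z1]),(z2,[z1])],.contra [y1,y1,z1]]),
    .old (.lp [k2,k2,k0,k0,k0,k2] [k0,k0,k0,k0,k1,k1,k1,k1,k1,k1,k0,k0] k0 [] k4 k5
    [[(k6,k1)],[(k7,k1)],[(k4,k1)],[(k5,k1)],[(k2,k1)],[(k3,k1)],[(k0,k1)],[(k1,k1)],[(k10,k1)],[(k11,k1)],[(k8,k1)],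
    [(k9,k1)]]
    [] k0
    [[k1,k0,k0,k1,k0,k0],[k0,k1,k1,k0,k0,k0],[k0,k0,k0,k0,k1,k1]]
    [.ref k3 k1 [(z1,[z1])],.ref k1 k1 [(z1,[y1,z1])],.ref k1 k0 [(z1,[y1,z1])]])]⟩

/-- classes `0 1 0 2 3 2`, types `N0 C0 N1 N0 C0 N2` -/
noncomputable def cU6_2325 : CertX :=
  ⟨[k12,k20,k13,k44,k52,k46],[(false,k0,[k0,k1,k2,k3,k4,k5])],[[[([z1,z0,z0,z1,z1,z1],z2)],[]]],
    [.old (.leafM k2 [k0,k3,k4,k5] [] [(k1,k2,z1,[y1,z1]),(k2,k1,z1,[y1,z1])]),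
    .old (.lp [k2,k2,k0,k0,k0,k2] [k0,k0,k0,k0,k1,k1,k1,k1,k1,k1,k0,k0] k0 [] k4 k5
    [[(k9,k1)],[(k7,k1)],[(k4,k1)],[(k5,k1)],[(k2,k1)],[(k3,k1)],[(k0,k1)],[(k10,k1)],[(k1,k1)],[(k11,k1)],[(k8,k1)],
    [(k6,k1)]]
    [] k0
    [[k0,k1,k1,k0,k0,k0]]
    [.ref k0 k0 [(z1,[y1,z1])]])]⟩

/-- classes `0 1 0 2 3 2`, types `N0 C0 N1 N0 S0 N1` -/
noncomputable def cU6_2326 : CertX :=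
  ⟨[k12,k20,k13,k44,k48,k45],[(false,k0,[k0,k1,k2,k3,k4,k5])],[[[([z1,z0,z0,z1,z0,z0],z1),([z0,z1,z1,z0,z0,z0],z1)],
    [([z1,z1,z1,z1,z0,z0],z2)],[([z1,z0,z0,z1,z0,z0],z1),([z0,z1,z1,z0,z0,z0],z2)],[([z1,z0,z0,z1,z1,z1],z2)],[([z1,
    z0,z0,z1,z0,z0],z2),([z0,z1,z1,z0,z0,z0],z1)],[([z1,z0,z0,z1,z0,z0],z2)],[]]],
    [.old (.leafM k4 [k0,k1,k2,k3] [(z1,[z0,z1])] [(k4,k5,z1,[y1,y1,z1]),(k5,k4,z1,[y1,y1,z1])]),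
    .old (.lp [k10,k8,k0,k0,k16,k4] [k3,k3,k4,k4,k8,k8,k8,k8,k0,k0,k6,k6] k0 [] k20 k6
    [[(k6,k5)],[(k7,k5)],[(k4,k4)],[(k5,k4)],[(k2,k4)],[(k3,k4)],[(k0,k5)],[(k1,k5)],[(k10,k10)],[(k11,k10),(k8,k16)],
    [(k11,k4),(k8,k10)],[(k9,k10)]]
    [] k0
    [[k1,k0,k0,k1,k0,k0],[k0,k1,k1,k0,k0,k0],[k0,k2,k2,k0,k0,k0]]
    [.contra [y1,z1],.contra [y1,z1],.ref k0 k0 [(z2,[y1,z2]),(z2,[z1])]]),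
    .old (.leafM k4 [k3,k4,k5,k0] [(z1,[y1,y1,z1])] [(k1,k2,z1,[z0,z1]),(k2,k1,z1,[z0,z1])]),
    .old (.lp [k10,k20,k0,k0,k4,k4] [k5,k5,k0,k0,k10,k10,k10,k10,k8,k8,k8,k8] k0 [] k20 k6
    [[(k6,k5)],[(k7,k5)],[(k4,k10)],[(k5,k10)],[(k2,k10)],[(k3,k10)],[(k0,k5)],[(k1,k5)],[(k10,k4)],[(k8,k4),(k11,
    k4)],[(k8,k4),(k11,k4)],[(k9,k4)]]
    [] k0
    [[k1,k0,k0,k1,k0,k0],[k0,k0,k0,k0,k1,k1],[k0,k0,k0,k0,k2,k2]]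
    [.contra [y1,z1],.contra [y1,z1],.ref k2 k0 [(z2,[y1,z2]),(z1,[z0,y1,z1])]]),
    .old (.leafM k4 [k2,k4,k5,k1] [(z1,[y1,y1,z1])] [(k3,k0,z1,[z1]),(k0,k3,z1,[z1])]),
    .old (.lp [k20,k10,k0,k0,k4,k4] [k0,k0,k5,k5,k10,k10,k10,k10,k8,k8,k8,k8] k0 [] k20 k6
    [[(k6,k10)],[(k7,k10)],[(k4,k5)],[(k5,k5)],[(k2,k5)],[(k3,k5)],[(k0,k10)],[(k1,k10)],[(k10,k4)],[(k8,k4),(k11,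
    k4)],[(k8,k4),(k11,k4)],[(k9,k4)]]
    [] k0
    [[k0,k1,k1,k0,k0,k0],[k0,k0,k0,k0,k1,k1],[k0,k0,k0,k0,k2,k2]]
    [.contra [y1,y1,z1],.contra [y1,y1,z1],.ref k4 k0 [(z1,[z0,z1]),(z2,[y1,y2,z2])]]),
    .old (.lp [k4,k4,k0,k0,k2,k2] [k0,k0,k0,k0,k2,k2,k2,k2,k1,k1,k1,k1] k0 [] k8 k5
    [[(k6,k2)],[(k7,k2)],[(k4,k2)],[(k5,k2)],[(k2,k2)],[(k3,k2)],[(k0,k2)],[(k1,k2)],[(k10,k2)],[(k8,k2),(k11,k2)],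
    [(k8,k2),(k11,k2)],[(k9,k2)]]
    [] k0
    [[k1,k0,k0,k1,k0,k0],[k0,k1,k1,k0,k0,k0],[k0,k0,k0,k0,k1,k1]]
    [.ref k5 k0 [(z1,[z1])],.ref k3 k0 [(z1,[y1,z1])],.ref k1 k0 [(z1,[y1,z1])]])]⟩

/-- classes `0 1 0 2 3 2`, types `N0 C0 N1 N0 S0 N2` -/
noncomputable def cU6_2327 : CertX :=
  ⟨[k12,k20,k13,k44,k48,k46],[(false,k0,[k0,k1,k2,k3,k4,k5])],[[[([z1,z0,z0,z1,z1,z1],z2)],[]]],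
    [.old (.leafM k2 [k0,k3,k4,k5] [] [(k1,k2,z1,[y1,z1]),(k2,k1,z1,[y1,z1])]),
    .old (.lp [k2,k4,k0,k2,k2,k2] [k1,k1,k0,k0,k2,k2,k1,k1,k1,k1,k1,k1] k0 [] k8 k5
    [[(k9,k2)],[(k7,k2)],[(k4,k2)],[(k5,k2)],[(k2,k2)],[(k3,k2)],[(k0,k2)],[(k10,k2)],[(k1,k2)],[(k8,k2),(k11,k2)],
    [(k8,k2),(k11,k2)],[(k6,k2)]]
    [] k0
    [[k0,k1,k1,k0,k0,k0]]
    [.ref k0 k0 [(z1,[y1,z1])]])]⟩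

/-- classes `0 1 0 2 3 2`, types `N0 C0 N1 S0 C0 S0` -/
noncomputable def cU6_2328 : CertX :=
  ⟨[k12,k20,k13,k32,k52,k32],[(false,k0,[k0,k1,k2,k3,k4,k5])],[[[([z1,z0,z0,z1,z1,z1],z2)],[([z1,z0,z0,z1,z0,z0],z1),
    ([z0,z1,z1,z0,z0,z0],z1)],[([z1,z1,z1,z1,z0,z0],z2)],[([z1,z0,z0,z1,z0,z0],z2),([z0,z1,z1,z0,z0,z0],z1)],[([z1,z0,
    z0,z1,z0,z0],z2)],[]]],
    [.old (.leafM k0 [k0,k3,k4,k5] [] [(k1,k2,z1,[y1,z1]),(k2,k1,z1,[y1,z1])]),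
    .old (.leafM k4 [k0,k1,k2,k3] [(z1,[z0,z1])] [(k4,k5,z1,[y1,y1,z1]),(k5,k4,z1,[y1,y1,z1])]),
    .old (.lp [k4,k8,k0,k6,k4,k16] [k6,k6,k4,k4,k8,k8,k5,k5,k6,k6,k0,k0] k0 [] k20 k6
    [[(k1,k4),(k9,k4),(k6,k5),(k10,k10)],[(k7,k5)],[(k4,k4)],[(k5,k4)],[(k2,k4)],[(k3,k4)],[(k0,k5)],[(k1,k5),(k9,k5),
    (k6,k6),(k10,k11)],[(k1,k4),(k9,k4),(k6,k5),(k10,k10)],[(k11,k10)],[(k8,k10)],[(k1,k10),(k9,k10),(k6,k11),(k10,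
    k16)]]
    [] k0
    [[k1,k0,k0,k1,k0,k0],[k0,k1,k1,k0,k0,k0],[k0,k2,k2,k0,k0,k0]]
    [.contra [y1,z1],.contra [y1,z1],.ref k1 k0 [(z2,[y1,z2]),(z2,[z1])]]),
    .old (.leafM k4 [k2,k4,k5,k1] [(z1,[y1,y1,z1])] [(k3,k0,z1,[z1]),(k0,k3,z1,[z1])]),
    .old (.lp [k4,k8,k0,k16,k4,k6] [k6,k6,k4,k4,k8,k8,k0,k0,k6,k6,k5,k5] k0 [] k20 k6
    [[(k1,k4),(k9,k4),(k10,k5),(k6,k10)],[(k7,k10)],[(k4,k4)],[(k5,k4)],[(k2,k4)],[(k3,k4)],[(k0,k10)],[(k1,k10),(k9,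
    k10),(k10,k11),(k6,k16)],[(k1,k4),(k9,k4),(k10,k5),(k6,k10)],[(k11,k5)],[(k8,k5)],[(k1,k5),(k9,k5),(k10,k6),(k6,
    k11)]]
    [] k0
    [[k0,k1,k1,k0,k0,k0],[k0,k2,k2,k0,k0,k0],[k0,k0,k0,k0,k1,k1]]
    [.contra [y1,y1,z1],.ref k3 k0 [(z1,[z0,z1]),(z2,[z1])],.contra [y1,y1,z1]]),
    .old (.lp [k2,k4,k0,k2,k2,k2] [k1,k1,k0,k0,k2,k2,k1,k1,k1,k1,k1,k1] k0 [] k8 k5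
    [[(k1,k2),(k6,k2),(k9,k2),(k10,k2)],[(k7,k2)],[(k4,k2)],[(k5,k2)],[(k2,k2)],[(k3,k2)],[(k0,k2)],[(k1,k2),(k6,k2),
    (k9,k2),(k10,k2)],[(k1,k2),(k6,k2),(k9,k2),(k10,k2)],[(k11,k2)],[(k8,k2)],[(k1,k2),(k6,k2),(k9,k2),(k10,k2)]]
    [] k0
    [[k1,k0,k0,k1,k0,k0],[k0,k1,k1,k0,k0,k0],[k0,k0,k0,k0,k1,k1]]
    [.ref k4 k0 [(z1,[z1])],.ref k0 k0 [(z1,[y1,z1])],.ref k2 k0 [(z1,[y1,z1])]])]⟩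

/-- classes `0 1 0 2 3 2`, types `N0 C0 N1 S0 S0 S0` -/
noncomputable def cU6_2329 : CertX :=
  ⟨[k12,k20,k13,k32,k48,k32],[(false,k0,[k0,k1,k2,k3,k4,k5])],[[[([z1,z0,z0,z1,z1,z1],z2)],[([z1,z0,z0,z1,z0,z0],z1),
    ([z0,z1,z1,z0,z0,z0],z1)],[([z1,z1,z1,z1,z0,z0],z2)],[([z1,z0,z0,z1,z0,z0],z2),([z0,z1,z1,z0,z0,z0],z1)],[([z1,z0,
    z0,z1,z0,z0],z2)],[]]],
    [.old (.leafM k0 [k0,k3,k4,k5] [] [(k1,k2,z1,[y1,z1]),(k2,k1,z1,[y1,z1])]),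
    .old (.leafM k4 [k0,k1,k2,k3] [(z1,[z0,z1])] [(k4,k5,z1,[y1,y1,z1]),(k5,k4,z1,[y1,y1,z1])]),
    .old (.lp [k6,k8,k0,k4,k10,k10] [k2,k2,k1,k1,k5,k5,k3,k3,k0,k0,k0,k0] k0 [] k20 k6
    [[(k6,k5),(k1,k6),(k9,k8),(k10,k8)],[(k7,k5)],[(k4,k4)],[(k5,k4)],[(k2,k4)],[(k3,k4)],[(k0,k5)],[(k6,k4),(k1,k5),
    (k9,k7),(k10,k7)],[(k6,k7),(k1,k8),(k9,k10),(k10,k10)],[(k8,k10),(k11,k10)],[(k8,k10),(k11,k10)],[(k6,k7),(k1,k8),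
    (k9,k10),(k10,k10)]]
    [] k0
    [[k1,k0,k0,k1,k0,k0],[k0,k1,k1,k0,k0,k0],[k0,k2,k2,k0,k0,k0]]
    [.contra [y1,z1],.contra [y1,z1],.ref k1 k0 [(z2,[y1,z2]),(z2,[z1])]]),
    .old (.leafM k4 [k2,k4,k5,k1] [(z1,[y1,y1,z1])] [(k3,k0,z1,[z1]),(k0,k3,z1,[z1])]),
    .old (.lp [(nat_lit 720),(nat_lit 840),k0,(nat_lit 336),(nat_lit 840),(nat_lit 490)] [(nat_lit 312),(nat_lit 312),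
    (nat_lit 252),(nat_lit 252),(nat_lit 672),(nat_lit 672),(nat_lit 504),(nat_lit 504),(nat_lit 504),k0,
    (nat_lit 357),(nat_lit 497)] k0 [[],[],[],[],[],[],[],[k0,k0,k0,k0,k0,k0,k0,k0,k0,k0,k0,(nat_lit 630)],[],[],[k0,
    k0,k0,k0,k0,k0,(nat_lit 630)]] (nat_lit 1680) k6
    [[(k10,(nat_lit 675)),(k1,(nat_lit 720)),(k9,(nat_lit 1032)),(k6,(nat_lit 1158))],[(k7,(nat_lit 528))],[(k4,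
    (nat_lit 420))],[(k5,(nat_lit 420))],[(k2,(nat_lit 420))],[(k3,(nat_lit 420))],[(k0,(nat_lit 528))],[(k6,
    (nat_lit 336)),(k10,(nat_lit 483)),(k9,(nat_lit 840)),(k1,(nat_lit 1158))],[(k10,(nat_lit 357)),(k6,
    (nat_lit 840)),(k1,(nat_lit 1032)),(k9,(nat_lit 1344))],[(k8,(nat_lit 336)),(k11,(nat_lit 343))],[(k8,
    (nat_lit 343)),(k11,(nat_lit 350))],[(k9,(nat_lit 357)),(k6,(nat_lit 483)),(k10,(nat_lit 630)),(k1,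
    (nat_lit 675))]]
    [] k0
    [[k0,k1,k1,k0,k0,k0],[k0,k0,k0,k0,k1,k1],[k0,k0,k0,k0,k2,k2],[k0,k0,k0,k0,k0,k2]]
    [.contra [y1,y1,z1],.contra [y1,y1,z1],.ref k3 k0 [(z1,[z0,z1]),(z2,[y1,y2,z2])],.contra [z1]]),
    .old (.lp [k2,k4,k0,k2,k4,k2] [k1,k1,k0,k0,k2,k2,k1,k1,k0,k0,k1,k1] k0 [] k8 k5
    [[(k1,k2),(k6,k2),(k10,k2),(k9,k3)],[(k7,k2)],[(k4,k2)],[(k5,k2)],[(k2,k2)],[(k3,k2)],[(k0,k2)],[(k1,k2),(k6,k2),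
    (k10,k2),(k9,k3)],[(k1,k3),(k6,k3),(k10,k3),(k9,k4)],[(k11,k3),(k8,k4)],[(k11,k2),(k8,k3)],[(k1,k2),(k6,k2),(k10,
    k2),(k9,k3)]]
    [] k0
    [[k1,k0,k0,k1,k0,k0],[k0,k1,k1,k0,k0,k0],[k0,k0,k0,k0,k1,k1],[k0,k0,k0,k0,k0,k2]]
    [.ref k4 k0 [(z1,[z1])],.ref k0 k0 [(z1,[y1,z1])],.ref k2 k0 [(z1,[y1,z1])],.contra [z1]])]⟩

/-- classes `0 1 0 2 3 2`, types `N0 C0 N2 N0 C0 N2` -/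
noncomputable def cU6_2330 : CertX :=
  ⟨[k12,k20,k14,k44,k52,k46],[],[[[]]],
    [.old (.lp [k2,k2,k0,k0,k0,k2] [k0,k0,k0,k0,k1,k1,k1,k1,k1,k1,k0,k0] k0 [] k4 k5
    [[(k9,k1)],[(k4,k1)],[(k7,k1)],[(k5,k1)],[(k2,k1)],[(k0,k1)],[(k3,k1)],[(k10,k1)],[(k1,k1)],[(k11,k1)],[(k8,k1)],
    [(k6,k1)]]
    [] k0
    []
    [])]⟩

/-- classes `0 1 0 2 3 2`, types `N0 C0 N2 N0 S0 N1` -/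
noncomputable def cU6_2331 : CertX :=
  ⟨[k12,k20,k14,k44,k48,k45],[(false,k0,[k0,k1,k2,k3,k4,k5])],[[[([z1,z1,z1,z1,z0,z0],z2)],[]]],
    [.old (.leafM k2 [k1,k2,k3,k0] [] [(k4,k5,z1,[y1,z1]),(k5,k4,z1,[y1,z1])]),
    .old (.lp [k4,k4,k0,k0,k2,k2] [k0,k0,k0,k0,k2,k2,k2,k2,k1,k1,k1,k1] k0 [] k8 k5
    [[(k6,k2)],[(k4,k2)],[(k7,k2)],[(k5,k2)],[(k2,k2)],[(k0,k2)],[(k3,k2)],[(k1,k2)],[(k10,k2)],[(k8,k2),(k11,k2)],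
    [(k8,k2),(k11,k2)],[(k9,k2)]]
    [] k0
    [[k0,k0,k0,k0,k1,k1]]
    [.ref k0 k0 [(z1,[y1,z1])]])]⟩

/-- classes `0 1 0 2 3 2`, types `N0 C0 N2 N0 S0 N2` -/
noncomputable def cU6_2332 : CertX :=
  ⟨[k12,k20,k14,k44,k48,k46],[],[[[]]],
    [.old (.lp [k2,k2,k2,k2,k2,k2] [k0,k0,k0,k0,k0,k0,k0,k0,k0,k0,k0,k0] k0 [] k8 k5
    [[(k9,k2)],[(k4,k2)],[(k7,k2)],[(k5,k2)],[(k2,k2)],[(k0,k2)],[(k3,k2)],[(k10,k2)],[(k1,k2)],[(k8,k2),(k11,k2)],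
    [(k8,k2),(k11,k2)],[(k6,k2)]]
    [] k0
    []
    [])]⟩

/-- classes `0 1 0 2 3 2`, types `N0 C0 N2 S0 C0 S0` -/
noncomputable def cU6_2333 : CertX :=
  ⟨[k12,k20,k14,k32,k52,k32],[(false,k0,[k0,k1,k2,k3,k4,k5])],[[[([z1,z1,z1,z1,z0,z0],z2)],[]]],
    [.old (.leafM k2 [k1,k2,k3,k0] [] [(k4,k5,z1,[y1,z1]),(k5,k4,z1,[y1,z1])]),
    .old (.lp [k2,k2,k2,k2,k2,k2] [k0,k0,k0,k0,k0,k0,k0,k0,k0,k0,k0,k0] k0 [] k8 k5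
    [[(k1,k2),(k6,k2),(k9,k2),(k10,k2)],[(k4,k2)],[(k7,k2)],[(k5,k2)],[(k2,k2)],[(k0,k2)],[(k3,k2)],[(k1,k2),(k6,k2),
    (k9,k2),(k10,k2)],[(k1,k2),(k6,k2),(k9,k2),(k10,k2)],[(k11,k2)],[(k8,k2)],[(k1,k2),(k6,k2),(k9,k2),(k10,k2)]]
    [] k0
    [[k0,k0,k0,k0,k1,k1]]
    [.ref k0 k0 [(z1,[y1,z1])]])]⟩

/-- classes `0 1 0 2 3 2`, types `N0 C0 N2 S0 S0 S0` -/
noncomputable def cU6_2334 : CertX :=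
  ⟨[k12,k20,k14,k32,k48,k32],[(false,k0,[k0,k1,k2,k3,k4,k5])],[[[([z1,z1,z1,z1,z0,z0],z2)],[]]],
    [.old (.leafM k2 [k1,k2,k3,k0] [] [(k4,k5,z1,[y1,z1]),(k5,k4,z1,[y1,z1])]),
    .old (.lp [k2,k2,k2,k2,k4,k2] [k1,k1,k1,k1,k1,k1,k1,k1,k0,k0,k1,k1] k0 [] k8 k5
    [[(k1,k2),(k6,k2),(k10,k2),(k9,k3)],[(k4,k2)],[(k7,k2)],[(k5,k2)],[(k2,k2)],[(k0,k2)],[(k3,k2)],[(k1,k2),(k6,k2),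
    (k10,k2),(k9,k3)],[(k1,k3),(k6,k3),(k10,k3),(k9,k4)],[(k11,k3),(k8,k4)],[(k11,k2),(k8,k3)],[(k1,k2),(k6,k2),(k10,
    k2),(k9,k3)]]
    [] k0
    [[k0,k0,k0,k0,k1,k1],[k0,k0,k0,k0,k0,k2]]
    [.ref k0 k0 [(z1,[y1,z1])],.contra [z1]])]⟩

/-- classes `0 1 0 2 3 2`, types `N0 S0 N1 N0 S0 N1` -/
noncomputable def cU6_2335 : CertX :=
  ⟨[k12,k16,k13,k44,k48,k45],[(false,k3,[k3,k4,k5,k0,k1,k2]),(false,k0,[k0,k1,k2,k3,k4,k5])],[[[([z1,z0,z0,z1,z0,z0],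
    z1),([z0,z1,z1,z0,z0,z0],z1)],[([z1,z0,z0,z1,z1,z1],z2)],[([z1,z0,z0,z1,z0,z0],z2),([z0,z1,z1,z0,z0,z0],z1)],
    [([z1,z0,z0,z1,z0,z0],z2)],[]]],
    [.old (.leafM k4 [k0,k1,k2,k3] [(z1,[z0,z1])] [(k4,k5,z1,[y1,y1,z1]),(k5,k4,z1,[y1,y1,z1])]),
    .old (.lp [k0,k4,k16,k10,k4,k4] [k8,k8,k6,k6,k0,k0,k3,k3,k6,k6,k6,k6] k0 [] k20 k6
    [[(k6,k5)],[(k7,k5)],[(k4,k10)],[(k2,k4),(k5,k10)],[(k2,k10),(k5,k16)],[(k3,k10)],[(k0,k5)],[(k1,k5)],[(k10,k4)],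
    [(k8,k4),(k11,k4)],[(k8,k4),(k11,k4)],[(k9,k4)]]
    [] k0
    [[k1,k0,k0,k1,k0,k0],[k0,k0,k0,k0,k1,k1],[k0,k0,k0,k0,k2,k2]]
    [.contra [y1,z1],.contra [y1,z1],.ref k0 k0 [(z2,[y1,z2]),(z2,[z1])]]),
    .old (.leafM k4 [k2,k4,k5,k1] [(z1,[y1,y1,z1])] [(k3,k0,z1,[z1]),(k0,k3,z1,[z1])]),
    .old (.lp [k0,k4,k6,k20,k4,k4] [k10,k10,k8,k8,k7,k7,k0,k0,k8,k8,k8,k8] k0 [] k20 k6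
    [[(k6,k10)],[(k7,k10)],[(k4,k5)],[(k2,k4),(k5,k5)],[(k2,k5),(k5,k6)],[(k3,k5)],[(k0,k10)],[(k1,k10)],[(k10,k4)],
    [(k8,k4),(k11,k4)],[(k8,k4),(k11,k4)],[(k9,k4)]]
    [] k0
    [[k0,k1,k1,k0,k0,k0],[k0,k0,k0,k0,k1,k1],[k0,k0,k0,k0,k2,k2]]
    [.contra [y1,y1,z1],.contra [y1,y1,z1],.ref k2 k1 [(z1,[z0,z1]),(z2,[y1,y2,z2])]]),
    .old (.lp [k0,k2,k2,k4,k2,k2] [k2,k2,k1,k1,k1,k1,k0,k0,k1,k1,k1,k1] k0 [] k8 k5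
    [[(k6,k2)],[(k7,k2)],[(k4,k2)],[(k2,k2),(k5,k2)],[(k2,k2),(k5,k2)],[(k3,k2)],[(k0,k2)],[(k1,k2)],[(k10,k2)],[(k8,
    k2),(k11,k2)],[(k8,k2),(k11,k2)],[(k9,k2)]]
    [] k0
    [[k1,k0,k0,k1,k0,k0],[k0,k1,k1,k0,k0,k0],[k0,k0,k0,k0,k1,k1]]
    [.ref k3 k1 [(z1,[z1])],.ref k1 k1 [(z1,[y1,z1])],.ref k1 k0 [(z1,[y1,z1])]])]⟩

/-- classes `0 1 0 2 3 2`, types `N0 S0 N1 N0 S0 N2` -/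
noncomputable def cU6_2336 : CertX :=
  ⟨[k12,k16,k13,k44,k48,k46],[(false,k0,[k0,k1,k2,k3,k4,k5])],[[[([z1,z0,z0,z1,z1,z1],z2)],[]]],
    [.old (.leafM k2 [k0,k3,k4,k5] [] [(k1,k2,z1,[y1,z1]),(k2,k1,z1,[y1,z1])]),
    .old (.lp [k2,k2,k2,k2,k2,k2] [k0,k0,k0,k0,k0,k0,k0,k0,k0,k0,k0,k0] k0 [] k8 k5
    [[(k9,k2)],[(k7,k2)],[(k4,k2)],[(k2,k2),(k5,k2)],[(k2,k2),(k5,k2)],[(k3,k2)],[(k0,k2)],[(k10,k2)],[(k1,k2)],[(k8,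
    k2),(k11,k2)],[(k8,k2),(k11,k2)],[(k6,k2)]]
    [] k0
    [[k0,k1,k1,k0,k0,k0]]
    [.ref k0 k0 [(z1,[y1,z1])]])]⟩

/-- classes `0 1 0 2 3 2`, types `N0 S0 N1 S0 C0 S0` -/
noncomputable def cU6_2337 : CertX :=
  ⟨[k12,k16,k13,k32,k52,k32],[(false,k0,[k0,k1,k2,k3,k4,k5])],[[[([z1,z0,z0,z1,z1,z1],z2)],[([z1,z0,z0,z1,z0,z0],z1),
    ([z0,z1,z1,z0,z0,z0],z1)],[([z1,z1,z1,z1,z0,z0],z2)],[([z1,z0,z0,z1,z0,z0],z2),([z0,z1,z1,z0,z0,z0],z1)],[([z1,z0,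
    z0,z1,z0,z0],z2)],[]]],
    [.old (.leafM k0 [k0,k3,k4,k5] [] [(k1,k2,z1,[y1,z1]),(k2,k1,z1,[y1,z1])]),
    .old (.leafM k4 [k0,k1,k2,k3] [(z1,[z0,z1])] [(k4,k5,z1,[y1,y1,z1]),(k5,k4,z1,[y1,y1,z1])]),
    .old (.lp [k6,k4,k4,k4,k4,k16] [k5,k5,k6,k6,k6,k6,k6,k6,k6,k6,k0,k0] k0 [] k20 k6
    [[(k6,k5),(k9,k5),(k1,k6),(k10,k11)],[(k7,k5)],[(k4,k4)],[(k2,k4),(k5,k4)],[(k2,k4),(k5,k4)],[(k3,k4)],[(k0,k5)],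
    [(k6,k4),(k9,k4),(k1,k5),(k10,k10)],[(k6,k4),(k9,k4),(k1,k5),(k10,k10)],[(k11,k10)],[(k8,k10)],[(k6,k10),(k9,k10),
    (k1,k11),(k10,k16)]]
    [] k0
    [[k1,k0,k0,k1,k0,k0],[k0,k1,k1,k0,k0,k0],[k0,k2,k2,k0,k0,k0]]
    [.contra [y1,z1],.contra [y1,z1],.ref k1 k0 [(z2,[y1,z2]),(z2,[z1])]]),
    .old (.leafM k4 [k2,k4,k5,k1] [(z1,[y1,y1,z1])] [(k3,k0,z1,[z1]),(k0,k3,z1,[z1])]),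
    .old (.lp [k16,k6,k4,k4,k4,k4] [k0,k0,k5,k5,k6,k6,k6,k6,k6,k6,k6,k6] k0 [] k20 k6
    [[(k6,k10),(k9,k10),(k10,k10),(k1,k16)],[(k7,k10)],[(k4,k5)],[(k5,k5),(k2,k6)],[(k5,k4),(k2,k5)],[(k3,k5)],[(k0,
    k10)],[(k6,k4),(k9,k4),(k10,k4),(k1,k10)],[(k6,k4),(k9,k4),(k10,k4),(k1,k10)],[(k11,k4)],[(k8,k4)],[(k6,k4),(k9,
    k4),(k10,k4),(k1,k10)]]
    [] k0
    [[k0,k1,k1,k0,k0,k0],[k0,k0,k0,k0,k2,k2],[k0,k0,k0,k0,k1,k1]]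
    [.contra [y1,y1,z1],.ref k3 k0 [(z1,[z0,z1]),(z2,[y1,y2,z2])],.contra [y1,y1,z1]]),
    .old (.lp [k2,k2,k2,k2,k2,k2] [k0,k0,k0,k0,k0,k0,k0,k0,k0,k0,k0,k0] k0 [] k8 k5
    [[(k1,k2),(k6,k2),(k9,k2),(k10,k2)],[(k7,k2)],[(k4,k2)],[(k2,k2),(k5,k2)],[(k2,k2),(k5,k2)],[(k3,k2)],[(k0,k2)],
    [(k1,k2),(k6,k2),(k9,k2),(k10,k2)],[(k1,k2),(k6,k2),(k9,k2),(k10,k2)],[(k11,k2)],[(k8,k2)],[(k1,k2),(k6,k2),(k9,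
    k2),(k10,k2)]]
    [] k0
    [[k1,k0,k0,k1,k0,k0],[k0,k1,k1,k0,k0,k0],[k0,k0,k0,k0,k1,k1]]
    [.ref k4 k0 [(z1,[z1])],.ref k0 k0 [(z1,[y1,z1])],.ref k2 k0 [(z1,[y1,z1])]])]⟩

/-- classes `0 1 0 2 3 2`, types `N0 S0 N1 S0 S0 S0` -/
noncomputable def cU6_2338 : CertX :=
  ⟨[k12,k16,k13,k32,k48,k32],[(false,k0,[k0,k1,k2,k3,k4,k5])],[[[([z1,z0,z0,z1,z1,z1],z2)],[([z1,z0,z0,z1,z0,z0],z1),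
    ([z0,z1,z1,z0,z0,z0],z1)],[([z1,z1,z1,z1,z0,z0],z2)],[([z1,z0,z0,z1,z0,z0],z2),([z0,z1,z1,z0,z0,z0],z1)],[([z1,z0,
    z0,z1,z0,z0],z2)],[]]],
    [.old (.leafM k0 [k0,k3,k4,k5] [] [(k1,k2,z1,[y1,z1]),(k2,k1,z1,[y1,z1])]),
    .old (.leafM k4 [k0,k1,k2,k3] [(z1,[z0,z1])] [(k4,k5,z1,[y1,y1,z1]),(k5,k4,z1,[y1,y1,z1])]),
    .old (.lp [k4,k6,k4,k4,k10,k10] [k3,k3,k2,k2,k3,k3,k3,k3,k0,k0,k0,k0] k0 [] k20 k6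
    [[(k1,k4),(k6,k4),(k9,k7),(k10,k7)],[(k7,k4)],[(k4,k5)],[(k5,k5),(k2,k6)],[(k5,k4),(k2,k5)],[(k3,k5)],[(k0,k4)],
    [(k1,k4),(k6,k4),(k9,k7),(k10,k7)],[(k1,k7),(k6,k7),(k9,k10),(k10,k10)],[(k8,k10),(k11,k10)],[(k8,k10),(k11,k10)],
    [(k1,k7),(k6,k7),(k9,k10),(k10,k10)]]
    [] k0
    [[k2,k0,k0,k2,k0,k0],[k1,k0,k0,k1,k0,k0],[k0,k1,k1,k0,k0,k0]]
    [.ref k1 k0 [(z2,[z1]),(z2,[y1,z2])],.contra [y1,z1],.contra [y1,z1]]),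
    .old (.leafM k4 [k2,k4,k5,k1] [(z1,[y1,y1,z1])] [(k3,k0,z1,[z1]),(k0,k3,z1,[z1])]),
    .old (.lp [k38,k24,k24,k24,k60,k60] [k29,k29,k36,k36,k36,k36,k36,k36,k36,k0,k14,k22] k0 [[],[],[],[],[],[],[],[k0,k0,
    k0,k0,k0,k0,k0,k0,k0,k0,k0,k58],[],[],[k0,k0,k0,k0,k0,k0,k58]] k120 k6
    [[(k1,k38),(k10,k53),(k9,k67),(k6,k89)],[(k7,k31)],[(k4,k24)],[(k2,k24),(k5,k24)],[(k2,k24),(k5,k24)],[(k3,k24)],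
    [(k0,k31)],[(k6,k24),(k10,k46),(k9,k60),(k1,k89)],[(k10,k24),(k6,k60),(k1,k67),(k9,k96)],[(k8,k24),(k11,k38)],
    [(k8,k38),(k11,k52)],[(k9,k24),(k6,k46),(k1,k53),(k10,k68)]]
    [] k0
    [[k0,k1,k1,k0,k0,k0],[k0,k2,k2,k0,k0,k0],[k0,k0,k0,k0,k1,k1]]
    [.contra [y1,y1,z1],.ref k3 k0 [(z1,[z0,z1]),(z2,[z1])],.contra [y1,y1,z1]]),
    .old (.lp [k2,k2,k2,k2,k4,k2] [k1,k1,k1,k1,k1,k1,k1,k1,k0,k0,k1,k1] k0 [] k8 k5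
    [[(k1,k2),(k6,k2),(k10,k2),(k9,k3)],[(k7,k2)],[(k4,k2)],[(k2,k2),(k5,k2)],[(k2,k2),(k5,k2)],[(k3,k2)],[(k0,k2)],
    [(k1,k2),(k6,k2),(k10,k2),(k9,k3)],[(k1,k3),(k6,k3),(k10,k3),(k9,k4)],[(k11,k3),(k8,k4)],[(k11,k2),(k8,k3)],[(k1,
    k2),(k6,k2),(k10,k2),(k9,k3)]]
    [] k0
    [[k1,k0,k0,k1,k0,k0],[k0,k1,k1,k0,k0,k0],[k0,k0,k0,k0,k1,k1],[k0,k0,k0,k0,k0,k2]]
    [.ref k4 k0 [(z1,[z1])],.ref k0 k0 [(z1,[y1,z1])],.ref k2 k0 [(z1,[y1,z1])],.contra [z1]])]⟩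

/-- classes `0 1 0 2 3 2`, types `N0 S0 N2 N0 S0 N2` -/
noncomputable def cU6_2339 : CertX :=
  ⟨[k12,k16,k14,k44,k48,k46],[],[[[]]],
    [.old (.lp [k2,k2,k2,k2,k2,k2] [k0,k0,k0,k0,k0,k0,k0,k0,k0,k0,k0,k0] k0 [] k8 k5
    [[(k9,k2)],[(k4,k2)],[(k7,k2)],[(k2,k2),(k5,k2)],[(k2,k2),(k5,k2)],[(k0,k2)],[(k3,k2)],[(k10,k2)],[(k1,k2)],[(k8,
    k2),(k11,k2)],[(k8,k2),(k11,k2)],[(k6,k2)]]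
    [] k0
    []
    [])]⟩

/-- classes `0 1 0 2 3 2`, types `N0 S0 N2 S0 C0 S0` -/
noncomputable def cU6_2340 : CertX :=
  ⟨[k12,k16,k14,k32,k52,k32],[(false,k0,[k0,k1,k2,k3,k4,k5])],[[[([z1,z1,z1,z1,z0,z0],z2)],[]]],
    [.old (.leafM k2 [k1,k2,k3,k0] [] [(k4,k5,z1,[y1,z1]),(k5,k4,z1,[y1,z1])]),
    .old (.lp [k2,k2,k2,k2,k2,k2] [k0,k0,k0,k0,k0,k0,k0,k0,k0,k0,k0,k0] k0 [] k8 k5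
    [[(k1,k2),(k6,k2),(k9,k2),(k10,k2)],[(k4,k2)],[(k7,k2)],[(k2,k2),(k5,k2)],[(k2,k2),(k5,k2)],[(k0,k2)],[(k3,k2)],
    [(k1,k2),(k6,k2),(k9,k2),(k10,k2)],[(k1,k2),(k6,k2),(k9,k2),(k10,k2)],[(k11,k2)],[(k8,k2)],[(k1,k2),(k6,k2),(k9,
    k2),(k10,k2)]]
    [] k0
    [[k0,k0,k0,k0,k1,k1]]
    [.ref k0 k0 [(z1,[y1,z1])]])]⟩

/-- classes `0 1 0 2 3 2`, types `N0 S0 N2 S0 S0 S0` -/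
noncomputable def cU6_2341 : CertX :=
  ⟨[k12,k16,k14,k32,k48,k32],[(false,k0,[k0,k1,k2,k3,k4,k5])],[[[([z1,z1,z1,z1,z0,z0],z2)],[]]],
    [.old (.leafM k2 [k1,k2,k3,k0] [] [(k4,k5,z1,[y1,z1]),(k5,k4,z1,[y1,z1])]),
    .old (.lp [k2,k2,k2,k2,k2,k4] [k1,k1,k1,k1,k1,k1,k1,k1,k1,k1,k0,k0] k0 [] k8 k5
    [[(k1,k2),(k6,k2),(k9,k2),(k10,k3)],[(k4,k2)],[(k7,k2)],[(k2,k2),(k5,k2)],[(k2,k2),(k5,k2)],[(k0,k2)],[(k3,k2)],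
    [(k1,k2),(k6,k2),(k9,k2),(k10,k3)],[(k1,k2),(k6,k2),(k9,k2),(k10,k3)],[(k8,k2),(k11,k3)],[(k8,k3),(k11,k4)],[(k1,
    k3),(k6,k3),(k9,k3),(k10,k4)]]
    [] k0
    [[k0,k0,k0,k0,k2,k0],[k0,k0,k0,k0,k1,k1]]
    [.contra [z1],.ref k0 k0 [(z1,[y1,z1])]])]⟩

/-- classes `0 1 0 2 3 2`, types `S0 C0 S0 S0 C0 S0` -/
noncomputable def cU6_2342 : CertX :=
  ⟨[k0,k20,k0,k32,k52,k32],[(false,k0,[k0,k1,k2,k3,k4,k5]),(false,k3,[k3,k4,k5,k0,k1,k2])],[[[([z1,z0,z0,z1,z1,z1],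
    z2)],[([z1,z0,z0,z1,z0,z0],z2),([z0,z1,z1,z0,z0,z0],z1)],[([z1,z0,z0,z1,z0,z0],z2)],[]]],
    [.old (.leafM k0 [k0,k3,k4,k5] [] [(k1,k2,z1,[y1,z1]),(k2,k1,z1,[y1,z1])]),
    .old (.leafM k4 [k2,k4,k5,k1] [(z1,[y1,y1,z1])] [(k3,k0,z1,[z1]),(k0,k3,z1,[z1])]),
    .old (.lp [k10,k4,k4,k10,k4,k6] [k0,k0,k3,k3,k3,k3,k0,k0,k3,k3,k2,k2] k0 [] k20 k6
    [[(k9,k7),(k10,k8),(k1,k10),(k6,k10)],[(k3,k7),(k4,k7),(k0,k10),(k7,k10)],[(k3,k4),(k4,k4),(k0,k7),(k7,k7)],[(k5,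
    k4)],[(k2,k4)],[(k3,k4),(k4,k4),(k0,k7),(k7,k7)],[(k3,k7),(k4,k7),(k0,k10),(k7,k10)],[(k9,k7),(k10,k8),(k1,k10),
    (k6,k10)],[(k9,k4),(k10,k5),(k1,k7),(k6,k7)],[(k11,k5)],[(k8,k5)],[(k9,k5),(k10,k6),(k1,k8),(k6,k8)]]
    [] k0
    [[k0,k2,k2,k0,k0,k0],[k0,k1,k1,k0,k0,k0],[k0,k0,k0,k0,k1,k1]]
    [.ref k1 k0 [(z1,[z0,z1]),(z2,[z1])],.contra [y1,y1,z1],.contra [y1,y1,z1]]),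
    .old (.lp [k4,k2,k2,k2,k2,k2] [k0,k0,k1,k1,k1,k1,k1,k1,k1,k1,k1,k1] k0 [] k8 k5
    [[(k6,k3),(k9,k3),(k10,k3),(k1,k4)],[(k3,k3),(k4,k3),(k7,k3),(k0,k4)],[(k3,k2),(k4,k2),(k7,k2),(k0,k3)],[(k5,k2)],
    [(k2,k2)],[(k3,k2),(k4,k2),(k7,k2),(k0,k3)],[(k3,k2),(k4,k2),(k7,k2),(k0,k3)],[(k6,k2),(k9,k2),(k10,k2),(k1,k3)],
    [(k6,k2),(k9,k2),(k10,k2),(k1,k3)],[(k11,k2)],[(k8,k2)],[(k6,k2),(k9,k2),(k10,k2),(k1,k3)]]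
    [] k0
    [[k1,k0,k0,k1,k0,k0],[k0,k1,k1,k0,k0,k0],[k0,k0,k0,k2,k0,k0],[k0,k0,k0,k0,k1,k1]]
    [.ref k2 k0 [(z1,[z1])],.ref k0 k0 [(z1,[y1,z1])],.contra [z1],.ref k0 k1 [(z1,[y1,z1])]])]⟩

/-- classes `0 1 0 2 3 2`, types `S0 C0 S0 S0 S0 S0` -/
noncomputable def cU6_2343 : CertX :=
  ⟨[k0,k20,k0,k32,k48,k32],[(false,k0,[k0,k1,k2,k3,k4,k5])],[[[([z1,z1,z1,z1,z0,z0],z2)],[([z1,z0,z0,z1,z1,z1],z2)],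
    [([z1,z0,z0,z1,z0,z0],z2),([z0,z1,z1,z0,z0,z0],z1)],[([z1,z0,z0,z1,z0,z0],z2)],[]]],
    [.old (.leafM k0 [k0,k1,k2,k3] [] [(k4,k5,z1,[y1,z1]),(k5,k4,z1,[y1,z1])]),
    .old (.leafM k0 [k0,k3,k4,k5] [] [(k1,k2,z1,[y1,z1]),(k2,k1,z1,[y1,z1])]),
    .old (.leafM k4 [k2,k4,k5,k1] [(z1,[y1,y1,z1])] [(k3,k0,z1,[z1]),(k0,k3,z1,[z1])]),
    .old (.lp [k16,k12,k12,k30,k15,k30] [k9,k9,k11,k11,k11,k11,k2,k2,k11,k8,k0,k4] k0 [[],[k0,k0,k0,k0,k4],[],[],[],[k4],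
    [],[k0,k0,k0,k0,k0,k0,k0,k0,k0,k0,k0,k14],[],[],[k0,k0,k0,k0,k0,k0,k14]] k60 k6
    [[(k1,k16),(k9,k17),(k10,k25),(k6,k37)],[(k3,k14),(k0,k16),(k4,k18),(k7,k23)],[(k3,k12),(k4,k12),(k0,k14),(k7,
    k17)],[(k5,k12)],[(k2,k12)],[(k3,k12),(k4,k12),(k0,k18),(k7,k21)],[(k3,k17),(k4,k21),(k0,k23),(k7,k30)],[(k9,k24),
    (k6,k30),(k10,k32),(k1,k37)],[(k10,k12),(k1,k17),(k9,k18),(k6,k24)],[(k8,k12),(k11,k19)],[(k8,k19),(k11,k26)],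
    [(k9,k12),(k1,k25),(k6,k32),(k10,k34)]]
    [] k0
    [[k2,k0,k0,k0,k0,k0],[k0,k2,k2,k0,k0,k0],[k0,k1,k1,k0,k0,k0],[k0,k0,k0,k0,k2,k0],[k0,k0,k0,k0,k1,k1]]
    [.contra [z1],.ref k2 k0 [(z1,[z0,z1]),(z2,[z1])],.contra [y1,y1,z1],.contra [z1],.contra [y1,y1,z1]]),
    .old (.lp [k2,k2,k2,k4,k2,k2] [k1,k1,k1,k1,k1,k1,k0,k0,k1,k1,k1,k1] k0 [] k8 k5
    [[(k1,k2),(k9,k2),(k10,k2),(k6,k3)],[(k0,k2),(k3,k2),(k4,k2),(k7,k3)],[(k0,k2),(k3,k2),(k4,k2),(k7,k3)],[(k5,k2)],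
    [(k2,k2)],[(k0,k2),(k3,k2),(k4,k2),(k7,k3)],[(k0,k3),(k3,k3),(k4,k3),(k7,k4)],[(k1,k3),(k9,k3),(k10,k3),(k6,k4)],
    [(k1,k2),(k9,k2),(k10,k2),(k6,k3)],[(k8,k2),(k11,k2)],[(k8,k2),(k11,k2)],[(k1,k2),(k9,k2),(k10,k2),(k6,k3)]]
    [] k0
    [[k2,k0,k0,k0,k0,k0],[k1,k0,k0,k1,k0,k0],[k0,k1,k1,k0,k0,k0],[k0,k0,k0,k0,k2,k0],[k0,k0,k0,k0,k1,k1],[k0,k0,k0,k0,
    k0,k2]]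
    [.contra [z1],.ref k3 k0 [(z1,[z1])],.ref k1 k0 [(z1,[y1,z1])],.contra [z1],.ref k0 k0 [(z1,[y1,z1])],
    .contra [z1]])]⟩

/-- classes `0 1 0 2 3 4`, types `B0 C0 B1 C0 C0 C0` -/
noncomputable def cU6_2344 : CertX :=
  ⟨[k8,k20,k9,k36,k52,k68],[(false,k0,[k0,k1,k2,k3,k4,k5])],[[[([z1,z0,z0,z1,z1,z1],z2)],[]]],
    [.old (.leafM k0 [k0,k3,k4,k5] [] [(k1,k2,z1,[y1,z1]),(k2,k1,z1,[y1,z1])]),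
    .old (.lp [k2,k2,k0,k0,k2,k0] [k0,k0,k0,k0,k1,k1,k1,k1,k0,k0,k1,k1] k0 [] k4 k5
    [[(k10,k1)],[(k4,k1),(k7,k1)],[(k4,k1),(k7,k1)],[(k5,k1)],[(k2,k1)],[(k0,k1),(k3,k1)],[(k0,k1),(k3,k1)],[(k9,k1)],
    [(k6,k1)],[(k11,k1)],[(k8,k1)],[(k1,k1)]]
    [] k0
    [[k0,k1,k1,k0,k0,k0]]
    [.ref k0 k0 [(z1,[y1,z1])]])]⟩

/-- classes `0 1 0 2 3 4`, types `B0 C0 B1 C0 C0 S0` -/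
noncomputable def cU6_2345 : CertX :=
  ⟨[k8,k20,k9,k36,k52,k64],[(false,k0,[k0,k1,k2,k3,k4,k5])],[[[([z1,z0,z0,z1,z1,z1],z2)],[]]],
    [.old (.leafM k0 [k0,k3,k4,k5] [] [(k1,k2,z1,[y1,z1]),(k2,k1,z1,[y1,z1])]),
    .old (.lp [k2,k2,k2,k2,k2,k2] [k0,k0,k0,k0,k0,k0,k0,k0,k0,k0,k0,k0] k0 [] k8 k5
    [[(k1,k2),(k10,k2)],[(k4,k2),(k7,k2)],[(k4,k2),(k7,k2)],[(k5,k2)],[(k2,k2)],[(k0,k2),(k3,k2)],[(k0,k2),(k3,k2)],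
    [(k9,k2)],[(k6,k2)],[(k11,k2)],[(k8,k2)],[(k1,k2),(k10,k2)]]
    [] k0
    [[k0,k1,k1,k0,k0,k0]]
    [.ref k0 k0 [(z1,[y1,z1])]])]⟩

/-- classes `0 1 0 2 3 4`, types `B0 C0 B1 C0 S0 C0` -/
noncomputable def cU6_2346 : CertX :=
  ⟨[k8,k20,k9,k36,k48,k68],[(false,k0,[k0,k1,k2,k3,k4,k5])],[[[([z1,z0,z0,z1,z1,z1],z2)],[]]],
    [.old (.leafM k0 [k0,k3,k4,k5] [] [(k1,k2,z1,[y1,z1]),(k2,k1,z1,[y1,z1])]),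
    .old (.lp [k2,k2,k2,k2,k2,k2] [k0,k0,k0,k0,k0,k0,k0,k0,k0,k0,k0,k0] k0 [] k8 k5
    [[(k10,k2)],[(k4,k2),(k7,k2)],[(k4,k2),(k7,k2)],[(k5,k2)],[(k2,k2)],[(k0,k2),(k3,k2)],[(k0,k2),(k3,k2)],[(k9,k2)],
    [(k6,k2)],[(k8,k2),(k11,k2)],[(k8,k2),(k11,k2)],[(k1,k2)]]
    [] k0
    [[k0,k1,k1,k0,k0,k0]]
    [.ref k0 k0 [(z1,[y1,z1])]])]⟩

/-- classes `0 1 0 2 3 4`, types `B0 C0 B1 C0 S0 S0` -/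
noncomputable def cU6_2347 : CertX :=
  ⟨[k8,k20,k9,k36,k48,k64],[(false,k0,[k0,k1,k2,k3,k4,k5])],[[[([z1,z0,z0,z1,z1,z1],z2)],[]]],
    [.old (.leafM k0 [k0,k3,k4,k5] [] [(k1,k2,z1,[y1,z1]),(k2,k1,z1,[y1,z1])]),
    .old (.lp [k2,k2,k2,k2,k2,k4] [k1,k1,k1,k1,k1,k1,k1,k1,k1,k1,k0,k0] k0 [] k8 k5
    [[(k1,k2),(k10,k3)],[(k4,k2),(k7,k2)],[(k4,k2),(k7,k2)],[(k5,k2)],[(k2,k2)],[(k0,k2),(k3,k2)],[(k0,k2),(k3,k2)],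
    [(k9,k2)],[(k6,k2)],[(k8,k2),(k11,k3)],[(k8,k3),(k11,k4)],[(k1,k3),(k10,k4)]]
    [] k0
    [[k0,k1,k1,k0,k0,k0]]
    [.ref k0 k0 [(z1,[y1,z1])]])]⟩

/-- classes `0 1 0 2 3 4`, types `B0 C0 B1 S0 C0 S0` -/
noncomputable def cU6_2348 : CertX :=
  ⟨[k8,k20,k9,k32,k52,k64],[(false,k0,[k0,k1,k2,k3,k4,k5])],[[[([z1,z0,z0,z1,z1,z1],z2)],[]]],
    [.old (.leafM k0 [k0,k3,k4,k5] [] [(k1,k2,z1,[y1,z1]),(k2,k1,z1,[y1,z1])]),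
    .old (.lp [k2,k2,k2,k2,k2,k2] [k0,k0,k0,k0,k0,k0,k0,k0,k0,k0,k0,k0] k0 [] k8 k5
    [[(k1,k2),(k10,k2)],[(k4,k2),(k7,k2)],[(k4,k2),(k7,k2)],[(k5,k2)],[(k2,k2)],[(k0,k2),(k3,k2)],[(k0,k2),(k3,k2)],
    [(k6,k2),(k9,k2)],[(k6,k2),(k9,k2)],[(k11,k2)],[(k8,k2)],[(k1,k2),(k10,k2)]]
    [] k0
    [[k0,k1,k1,k0,k0,k0]]
    [.ref k0 k0 [(z1,[y1,z1])]])]⟩

/-- classes `0 1 0 2 3 4`, types `B0 C0 B1 S0 S0 S0` -/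
noncomputable def cU6_2349 : CertX :=
  ⟨[k8,k20,k9,k32,k48,k64],[(false,k0,[k0,k1,k2,k3,k4,k5])],[[[([z1,z0,z0,z1,z1,z1],z2)],[]]],
    [.old (.leafM k0 [k0,k3,k4,k5] [] [(k1,k2,z1,[y1,z1]),(k2,k1,z1,[y1,z1])]),
    .old (.lp [k2,k2,k2,k2,k4,k2] [k1,k1,k1,k1,k1,k1,k1,k1,k0,k0,k1,k1] k0 [] k8 k5
    [[(k1,k2),(k10,k2)],[(k4,k2),(k7,k2)],[(k4,k2),(k7,k2)],[(k5,k2)],[(k2,k2)],[(k0,k2),(k3,k2)],[(k0,k2),(k3,k2)],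
    [(k6,k2),(k9,k3)],[(k6,k3),(k9,k4)],[(k11,k3),(k8,k4)],[(k11,k2),(k8,k3)],[(k1,k2),(k10,k2)]]
    [] k0
    [[k0,k1,k1,k0,k0,k0],[k0,k0,k0,k0,k0,k2]]
    [.ref k0 k0 [(z1,[y1,z1])],.contra [z1]])]⟩

/-- classes `0 1 0 2 3 4`, types `B0 S0 B1 C0 C0 C0` -/
noncomputable def cU6_2350 : CertX :=
  ⟨[k8,k16,k9,k36,k52,k68],[(false,k0,[k0,k1,k2,k3,k4,k5])],[[[([z1,z0,z0,z1,z1,z1],z2)],[]]],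
    [.old (.leafM k0 [k0,k3,k4,k5] [] [(k1,k2,z1,[y1,z1]),(k2,k1,z1,[y1,z1])]),
    .old (.lp [k2,k2,k2,k2,k2,k2] [k0,k0,k0,k0,k0,k0,k0,k0,k0,k0,k0,k0] k0 [] k8 k5
    [[(k10,k2)],[(k4,k2),(k7,k2)],[(k4,k2),(k7,k2)],[(k2,k2),(k5,k2)],[(k2,k2),(k5,k2)],[(k0,k2),(k3,k2)],[(k0,k2),
    (k3,k2)],[(k9,k2)],[(k6,k2)],[(k11,k2)],[(k8,k2)],[(k1,k2)]]
    [] k0
    [[k0,k1,k1,k0,k0,k0]]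
    [.ref k0 k0 [(z1,[y1,z1])]])]⟩

/-- classes `0 1 0 2 3 4`, types `B0 S0 B1 C0 C0 S0` -/
noncomputable def cU6_2351 : CertX :=
  ⟨[k8,k16,k9,k36,k52,k64],[(false,k0,[k0,k1,k2,k3,k4,k5])],[[[([z1,z0,z0,z1,z1,z1],z2)],[]]],
    [.old (.leafM k0 [k0,k3,k4,k5] [] [(k1,k2,z1,[y1,z1]),(k2,k1,z1,[y1,z1])]),
    .old (.lp [k2,k2,k2,k2,k2,k2] [k0,k0,k0,k0,k0,k0,k0,k0,k0,k0,k0,k0] k0 [] k8 k5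
    [[(k1,k2),(k10,k2)],[(k4,k2),(k7,k2)],[(k4,k2),(k7,k2)],[(k2,k2),(k5,k2)],[(k2,k2),(k5,k2)],[(k0,k2),(k3,k2)],
    [(k0,k2),(k3,k2)],[(k9,k2)],[(k6,k2)],[(k11,k2)],[(k8,k2)],[(k1,k2),(k10,k2)]]
    [] k0
    [[k0,k1,k1,k0,k0,k0]]
    [.ref k0 k0 [(z1,[y1,z1])]])]⟩

/-- classes `0 1 0 2 3 4`, types `B0 S0 B1 C0 S0 C0` -/
noncomputable def cU6_2352 : CertX :=
  ⟨[k8,k16,k9,k36,k48,k68],[(false,k0,[k0,k1,k2,k3,k4,k5])],[[[([z1,z0,z0,z1,z1,z1],z2)],[]]],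
    [.old (.leafM k0 [k0,k3,k4,k5] [] [(k1,k2,z1,[y1,z1]),(k2,k1,z1,[y1,z1])]),
    .old (.lp [k2,k2,k2,k2,k2,k2] [k0,k0,k0,k0,k0,k0,k0,k0,k0,k0,k0,k0] k0 [] k8 k5
    [[(k10,k2)],[(k4,k2),(k7,k2)],[(k4,k2),(k7,k2)],[(k2,k2),(k5,k2)],[(k2,k2),(k5,k2)],[(k0,k2),(k3,k2)],[(k0,k2),
    (k3,k2)],[(k9,k2)],[(k6,k2)],[(k8,k2),(k11,k2)],[(k8,k2),(k11,k2)],[(k1,k2)]]
    [] k0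
    [[k0,k1,k1,k0,k0,k0]]
    [.ref k0 k0 [(z1,[y1,z1])]])]⟩

/-- classes `0 1 0 2 3 4`, types `B0 S0 B1 C0 S0 S0` -/
noncomputable def cU6_2353 : CertX :=
  ⟨[k8,k16,k9,k36,k48,k64],[(false,k0,[k0,k1,k2,k3,k4,k5])],[[[([z1,z0,z0,z1,z1,z1],z2)],[]]],
    [.old (.leafM k0 [k0,k3,k4,k5] [] [(k1,k2,z1,[y1,z1]),(k2,k1,z1,[y1,z1])]),
    .old (.lp [k2,k2,k2,k2,k2,k4] [k1,k1,k1,k1,k1,k1,k1,k1,k1,k1,k0,k0] k0 [] k8 k5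
    [[(k1,k2),(k10,k3)],[(k4,k2),(k7,k2)],[(k4,k2),(k7,k2)],[(k2,k2),(k5,k2)],[(k2,k2),(k5,k2)],[(k0,k2),(k3,k2)],
    [(k0,k2),(k3,k2)],[(k9,k2)],[(k6,k2)],[(k8,k2),(k11,k3)],[(k8,k3),(k11,k4)],[(k1,k3),(k10,k4)]]
    [] k0
    [[k0,k1,k1,k0,k0,k0]]
    [.ref k0 k0 [(z1,[y1,z1])]])]⟩

/-- classes `0 1 0 2 3 4`, types `B0 S0 B1 S0 C0 S0` -/
noncomputable def cU6_2354 : CertX :=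
  ⟨[k8,k16,k9,k32,k52,k64],[(false,k0,[k0,k1,k2,k3,k4,k5])],[[[([z1,z0,z0,z1,z1,z1],z2)],[]]],
    [.old (.leafM k0 [k0,k3,k4,k5] [] [(k1,k2,z1,[y1,z1]),(k2,k1,z1,[y1,z1])]),
    .old (.lp [k2,k2,k2,k2,k2,k2] [k0,k0,k0,k0,k0,k0,k0,k0,k0,k0,k0,k0] k0 [] k8 k5
    [[(k1,k2),(k10,k2)],[(k4,k2),(k7,k2)],[(k4,k2),(k7,k2)],[(k2,k2),(k5,k2)],[(k2,k2),(k5,k2)],[(k0,k2),(k3,k2)],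
    [(k0,k2),(k3,k2)],[(k6,k2),(k9,k2)],[(k6,k2),(k9,k2)],[(k11,k2)],[(k8,k2)],[(k1,k2),(k10,k2)]]
    [] k0
    [[k0,k1,k1,k0,k0,k0]]
    [.ref k0 k0 [(z1,[y1,z1])]])]⟩

/-- classes `0 1 0 2 3 4`, types `B0 S0 B1 S0 S0 S0` -/
noncomputable def cU6_2355 : CertX :=
  ⟨[k8,k16,k9,k32,k48,k64],[(false,k0,[k0,k1,k2,k3,k4,k5])],[[[([z1,z0,z0,z1,z1,z1],z2)],[]]],
    [.old (.leafM k0 [k0,k3,k4,k5] [] [(k1,k2,z1,[y1,z1]),(k2,k1,z1,[y1,z1])]),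
    .old (.lp [k2,k2,k2,k2,k2,k4] [k1,k1,k1,k1,k1,k1,k1,k1,k1,k1,k0,k0] k0 [] k8 k5
    [[(k1,k2),(k10,k3)],[(k4,k2),(k7,k2)],[(k4,k2),(k7,k2)],[(k2,k2),(k5,k2)],[(k2,k2),(k5,k2)],[(k0,k2),(k3,k2)],
    [(k0,k2),(k3,k2)],[(k6,k2),(k9,k2)],[(k6,k2),(k9,k2)],[(k8,k2),(k11,k3)],[(k8,k3),(k11,k4)],[(k1,k3),(k10,k4)]]
    [] k0
    [[k0,k1,k1,k0,k0,k0],[k0,k0,k0,k0,k2,k0]]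
    [.ref k0 k0 [(z1,[y1,z1])],.contra [z1]])]⟩

/-- classes `0 1 0 2 3 4`, types `C0 C0 C0 C0 C0 C0` -/
noncomputable def cU6_2356 : CertX :=
  ⟨[k4,k20,k4,k36,k52,k68],[(false,k0,[k0,k1,k2,k3,k4,k5])],[[[([z1,z0,z0,z1,z1,z1],z2)],[]]],
    [.old (.leafM k0 [k0,k3,k4,k5] [] [(k1,k2,z1,[y1,z1]),(k2,k1,z1,[y1,z1])]),
    .old (.lp [k0,k2,k0,k2,k0,k2] [k1,k1,k0,k0,k1,k1,k0,k0,k1,k1,k0,k0] k0 [] k4 k5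
    [[(k10,k1)],[(k3,k1),(k7,k1)],[(k0,k1),(k4,k1)],[(k5,k1)],[(k2,k1)],[(k3,k1),(k7,k1)],[(k0,k1),(k4,k1)],[(k9,k1)],
    [(k6,k1)],[(k11,k1)],[(k8,k1)],[(k1,k1)]]
    [] k0
    [[k0,k1,k1,k0,k0,k0]]
    [.ref k0 k0 [(z1,[y1,z1])]])]⟩

/-- classes `0 1 0 2 3 4`, types `C0 C0 C0 C0 C0 S0` -/
noncomputable def cU6_2357 : CertX :=
  ⟨[k4,k20,k4,k36,k52,k64],[(false,k0,[k0,k1,k2,k3,k4,k5])],[[[([z1,z0,z0,z1,z1,z1],z2)],[]]],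
    [.old (.leafM k0 [k0,k3,k4,k5] [] [(k1,k2,z1,[y1,z1]),(k2,k1,z1,[y1,z1])]),
    .old (.lp [k2,k2,k2,k2,k2,k2] [k0,k0,k0,k0,k0,k0,k0,k0,k0,k0,k0,k0] k0 [] k8 k5
    [[(k1,k2),(k10,k2)],[(k3,k2),(k7,k2)],[(k0,k2),(k4,k2)],[(k5,k2)],[(k2,k2)],[(k3,k2),(k7,k2)],[(k0,k2),(k4,k2)],
    [(k9,k2)],[(k6,k2)],[(k11,k2)],[(k8,k2)],[(k1,k2),(k10,k2)]]
    [] k0
    [[k0,k1,k1,k0,k0,k0]]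
    [.ref k0 k0 [(z1,[y1,z1])]])]⟩

/-- classes `0 1 0 2 3 4`, types `C0 C0 C0 C0 S0 C0` -/
noncomputable def cU6_2358 : CertX :=
  ⟨[k4,k20,k4,k36,k48,k68],[(false,k0,[k0,k1,k2,k3,k4,k5])],[[[([z1,z0,z0,z1,z1,z1],z2)],[]]],
    [.old (.leafM k0 [k0,k3,k4,k5] [] [(k1,k2,z1,[y1,z1]),(k2,k1,z1,[y1,z1])]),
    .old (.lp [k2,k2,k2,k2,k2,k2] [k0,k0,k0,k0,k0,k0,k0,k0,k0,k0,k0,k0] k0 [] k8 k5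
    [[(k10,k2)],[(k3,k2),(k7,k2)],[(k0,k2),(k4,k2)],[(k5,k2)],[(k2,k2)],[(k3,k2),(k7,k2)],[(k0,k2),(k4,k2)],[(k9,k2)],
    [(k6,k2)],[(k8,k2),(k11,k2)],[(k8,k2),(k11,k2)],[(k1,k2)]]
    [] k0
    [[k0,k1,k1,k0,k0,k0]]
    [.ref k0 k0 [(z1,[y1,z1])]])]⟩

/-- classes `0 1 0 2 3 4`, types `C0 C0 C0 C0 S0 S0` -/
noncomputable def cU6_2359 : CertX :=
  ⟨[k4,k20,k4,k36,k48,k64],[(false,k0,[k0,k1,k2,k3,k4,k5])],[[[([z1,z0,z0,z1,z1,z1],z2)],[]]],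
    [.old (.leafM k0 [k0,k3,k4,k5] [] [(k1,k2,z1,[y1,z1]),(k2,k1,z1,[y1,z1])]),
    .old (.lp [k2,k2,k2,k2,k2,k4] [k1,k1,k1,k1,k1,k1,k1,k1,k1,k1,k0,k0] k0 [] k8 k5
    [[(k1,k2),(k10,k3)],[(k3,k2),(k7,k2)],[(k0,k2),(k4,k2)],[(k5,k2)],[(k2,k2)],[(k3,k2),(k7,k2)],[(k0,k2),(k4,k2)],
    [(k9,k2)],[(k6,k2)],[(k8,k2),(k11,k3)],[(k8,k3),(k11,k4)],[(k1,k3),(k10,k4)]]
    [] k0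
    [[k0,k1,k1,k0,k0,k0]]
    [.ref k0 k0 [(z1,[y1,z1])]])]⟩

/-- classes `0 1 0 2 3 4`, types `C0 C0 C0 S0 C0 S0` -/
noncomputable def cU6_2360 : CertX :=
  ⟨[k4,k20,k4,k32,k52,k64],[(false,k0,[k0,k1,k2,k3,k4,k5])],[[[([z1,z0,z0,z1,z1,z1],z2)],[]]],
    [.old (.leafM k0 [k0,k3,k4,k5] [] [(k1,k2,z1,[y1,z1]),(k2,k1,z1,[y1,z1])]),
    .old (.lp [k2,k2,k2,k2,k2,k2] [k0,k0,k0,k0,k0,k0,k0,k0,k0,k0,k0,k0] k0 [] k8 k5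
    [[(k1,k2),(k10,k2)],[(k3,k2),(k7,k2)],[(k0,k2),(k4,k2)],[(k5,k2)],[(k2,k2)],[(k3,k2),(k7,k2)],[(k0,k2),(k4,k2)],
    [(k6,k2),(k9,k2)],[(k6,k2),(k9,k2)],[(k11,k2)],[(k8,k2)],[(k1,k2),(k10,k2)]]
    [] k0
    [[k0,k1,k1,k0,k0,k0]]
    [.ref k0 k0 [(z1,[y1,z1])]])]⟩

/-- classes `0 1 0 2 3 4`, types `C0 C0 C0 S0 S0 S0` -/
noncomputable def cU6_2361 : CertX :=
  ⟨[k4,k20,k4,k32,k48,k64],[(false,k0,[k0,k1,k2,k3,k4,k5])],[[[([z1,z0,z0,z1,z1,z1],z2)],[]]],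
    [.old (.leafM k0 [k0,k3,k4,k5] [] [(k1,k2,z1,[y1,z1]),(k2,k1,z1,[y1,z1])]),
    .old (.lp [k2,k2,k2,k2,k4,k2] [k1,k1,k1,k1,k1,k1,k1,k1,k0,k0,k1,k1] k0 [] k8 k5
    [[(k1,k2),(k10,k2)],[(k3,k2),(k7,k2)],[(k0,k2),(k4,k2)],[(k5,k2)],[(k2,k2)],[(k3,k2),(k7,k2)],[(k0,k2),(k4,k2)],
    [(k6,k2),(k9,k3)],[(k6,k3),(k9,k4)],[(k11,k3),(k8,k4)],[(k11,k2),(k8,k3)],[(k1,k2),(k10,k2)]]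
    [] k0
    [[k0,k1,k1,k0,k0,k0],[k0,k0,k0,k0,k0,k2]]
    [.ref k0 k0 [(z1,[y1,z1])],.contra [z1]])]⟩

/-- classes `0 1 0 2 3 4`, types `C0 C0 C2 C0 C0 C0` -/
noncomputable def cU6_2362 : CertX :=
  ⟨[k4,k20,k6,k36,k52,k68],[],[[[]]],
    [.old (.lp [k2,k2,k2,k2,k2,k2] [k0,k0,k0,k0,k0,k0,k0,k0,k0,k0,k0,k0] k0 [] k8 k5
    [[(k10,k2)],[(k3,k2),(k4,k2)],[(k0,k2),(k7,k2)],[(k5,k2)],[(k2,k2)],[(k0,k2),(k7,k2)],[(k3,k2),(k4,k2)],[(k9,k2)],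
    [(k6,k2)],[(k11,k2)],[(k8,k2)],[(k1,k2)]]
    [] k0
    []
    [])]⟩

/-- classes `0 1 0 2 3 4`, types `C0 C0 C2 C0 C0 S0` -/
noncomputable def cU6_2363 : CertX :=
  ⟨[k4,k20,k6,k36,k52,k64],[],[[[]]],
    [.old (.lp [k2,k2,k2,k2,k2,k2] [k0,k0,k0,k0,k0,k0,k0,k0,k0,k0,k0,k0] k0 [] k8 k5
    [[(k1,k2),(k10,k2)],[(k3,k2),(k4,k2)],[(k0,k2),(k7,k2)],[(k5,k2)],[(k2,k2)],[(k0,k2),(k7,k2)],[(k3,k2),(k4,k2)],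
    [(k9,k2)],[(k6,k2)],[(k11,k2)],[(k8,k2)],[(k1,k2),(k10,k2)]]
    [] k0
    []
    [])]⟩

/-- classes `0 1 0 2 3 4`, types `C0 C0 C2 C0 S0 C0` -/
noncomputable def cU6_2364 : CertX :=
  ⟨[k4,k20,k6,k36,k48,k68],[],[[[]]],
    [.old (.lp [k2,k2,k2,k2,k2,k2] [k0,k0,k0,k0,k0,k0,k0,k0,k0,k0,k0,k0] k0 [] k8 k5
    [[(k10,k2)],[(k3,k2),(k4,k2)],[(k0,k2),(k7,k2)],[(k5,k2)],[(k2,k2)],[(k0,k2),(k7,k2)],[(k3,k2),(k4,k2)],[(k9,k2)],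
    [(k6,k2)],[(k8,k2),(k11,k2)],[(k8,k2),(k11,k2)],[(k1,k2)]]
    [] k0
    []
    [])]⟩

/-- classes `0 1 0 2 3 4`, types `C0 C0 C2 C0 S0 S0` -/
noncomputable def cU6_2365 : CertX :=
  ⟨[k4,k20,k6,k36,k48,k64],[],[[[]]],
    [.old (.lp [k2,k2,k2,k2,k2,k4] [k1,k1,k1,k1,k1,k1,k1,k1,k1,k1,k0,k0] k0 [] k8 k5
    [[(k1,k2),(k10,k3)],[(k3,k2),(k4,k2)],[(k0,k2),(k7,k2)],[(k5,k2)],[(k2,k2)],[(k0,k2),(k7,k2)],[(k3,k2),(k4,k2)],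
    [(k9,k2)],[(k6,k2)],[(k8,k2),(k11,k3)],[(k8,k3),(k11,k4)],[(k1,k3),(k10,k4)]]
    [] k0
    []
    [])]⟩

/-- classes `0 1 0 2 3 4`, types `C0 C0 C2 S0 C0 S0` -/
noncomputable def cU6_2366 : CertX :=
  ⟨[k4,k20,k6,k32,k52,k64],[],[[[]]],
    [.old (.lp [k2,k2,k2,k2,k2,k2] [k0,k0,k0,k0,k0,k0,k0,k0,k0,k0,k0,k0] k0 [] k8 k5
    [[(k1,k2),(k10,k2)],[(k3,k2),(k4,k2)],[(k0,k2),(k7,k2)],[(k5,k2)],[(k2,k2)],[(k0,k2),(k7,k2)],[(k3,k2),(k4,k2)],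
    [(k6,k2),(k9,k2)],[(k6,k2),(k9,k2)],[(k11,k2)],[(k8,k2)],[(k1,k2),(k10,k2)]]
    [] k0
    []
    [])]⟩

/-- classes `0 1 0 2 3 4`, types `C0 C0 C2 S0 S0 S0` -/
noncomputable def cU6_2367 : CertX :=
  ⟨[k4,k20,k6,k32,k48,k64],[],[[[]]],
    [.old (.lp [k2,k2,k2,k2,k4,k2] [k1,k1,k1,k1,k1,k1,k1,k1,k0,k0,k1,k1] k0 [] k8 k5
    [[(k1,k2),(k10,k2)],[(k3,k2),(k4,k2)],[(k0,k2),(k7,k2)],[(k5,k2)],[(k2,k2)],[(k0,k2),(k7,k2)],[(k3,k2),(k4,k2)],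
    [(k6,k2),(k9,k3)],[(k6,k3),(k9,k4)],[(k11,k3),(k8,k4)],[(k11,k2),(k8,k3)],[(k1,k2),(k10,k2)]]
    [] k0
    [[k0,k0,k0,k0,k0,k2]]
    [.contra [z1]])]⟩

/-- classes `0 1 0 2 3 4`, types `C0 S0 C0 C0 C0 C0` -/
noncomputable def cU6_2368 : CertX :=
  ⟨[k4,k16,k4,k36,k52,k68],[(false,k0,[k0,k1,k2,k3,k4,k5])],[[[([z1,z0,z0,z1,z1,z1],z2)],[]]],
    [.old (.leafM k0 [k0,k3,k4,k5] [] [(k1,k2,z1,[y1,z1]),(k2,k1,z1,[y1,z1])]),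
    .old (.lp [k2,k2,k2,k2,k2,k2] [k0,k0,k0,k0,k0,k0,k0,k0,k0,k0,k0,k0] k0 [] k8 k5
    [[(k10,k2)],[(k3,k2),(k7,k2)],[(k0,k2),(k4,k2)],[(k2,k2),(k5,k2)],[(k2,k2),(k5,k2)],[(k3,k2),(k7,k2)],[(k0,k2),
    (k4,k2)],[(k9,k2)],[(k6,k2)],[(k11,k2)],[(k8,k2)],[(k1,k2)]]
    [] k0
    [[k0,k1,k1,k0,k0,k0]]
    [.ref k0 k0 [(z1,[y1,z1])]])]⟩

/-- classes `0 1 0 2 3 4`, types `C0 S0 C0 C0 C0 S0` -/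
noncomputable def cU6_2369 : CertX :=
  ⟨[k4,k16,k4,k36,k52,k64],[(false,k0,[k0,k1,k2,k3,k4,k5])],[[[([z1,z0,z0,z1,z1,z1],z2)],[]]],
    [.old (.leafM k0 [k0,k3,k4,k5] [] [(k1,k2,z1,[y1,z1]),(k2,k1,z1,[y1,z1])]),
    .old (.lp [k2,k2,k2,k2,k2,k2] [k0,k0,k0,k0,k0,k0,k0,k0,k0,k0,k0,k0] k0 [] k8 k5
    [[(k1,k2),(k10,k2)],[(k3,k2),(k7,k2)],[(k0,k2),(k4,k2)],[(k2,k2),(k5,k2)],[(k2,k2),(k5,k2)],[(k3,k2),(k7,k2)],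
    [(k0,k2),(k4,k2)],[(k9,k2)],[(k6,k2)],[(k11,k2)],[(k8,k2)],[(k1,k2),(k10,k2)]]
    [] k0
    [[k0,k1,k1,k0,k0,k0]]
    [.ref k0 k0 [(z1,[y1,z1])]])]⟩

/-- classes `0 1 0 2 3 4`, types `C0 S0 C0 C0 S0 C0` -/
noncomputable def cU6_2370 : CertX :=
  ⟨[k4,k16,k4,k36,k48,k68],[(false,k0,[k0,k1,k2,k3,k4,k5])],[[[([z1,z0,z0,z1,z1,z1],z2)],[]]],
    [.old (.leafM k0 [k0,k3,k4,k5] [] [(k1,k2,z1,[y1,z1]),(k2,k1,z1,[y1,z1])]),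
    .old (.lp [k2,k2,k2,k2,k2,k2] [k0,k0,k0,k0,k0,k0,k0,k0,k0,k0,k0,k0] k0 [] k8 k5
    [[(k10,k2)],[(k3,k2),(k7,k2)],[(k0,k2),(k4,k2)],[(k2,k2),(k5,k2)],[(k2,k2),(k5,k2)],[(k3,k2),(k7,k2)],[(k0,k2),
    (k4,k2)],[(k9,k2)],[(k6,k2)],[(k8,k2),(k11,k2)],[(k8,k2),(k11,k2)],[(k1,k2)]]
    [] k0
    [[k0,k1,k1,k0,k0,k0]]
    [.ref k0 k0 [(z1,[y1,z1])]])]⟩

/-- classes `0 1 0 2 3 4`, types `C0 S0 C0 C0 S0 S0` -/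
noncomputable def cU6_2371 : CertX :=
  ⟨[k4,k16,k4,k36,k48,k64],[(false,k0,[k0,k1,k2,k3,k4,k5])],[[[([z1,z0,z0,z1,z1,z1],z2)],[]]],
    [.old (.leafM k0 [k0,k3,k4,k5] [] [(k1,k2,z1,[y1,z1]),(k2,k1,z1,[y1,z1])]),
    .old (.lp [k2,k2,k2,k2,k2,k4] [k1,k1,k1,k1,k1,k1,k1,k1,k1,k1,k0,k0] k0 [] k8 k5
    [[(k1,k2),(k10,k3)],[(k3,k2),(k7,k2)],[(k0,k2),(k4,k2)],[(k2,k2),(k5,k2)],[(k2,k2),(k5,k2)],[(k3,k2),(k7,k2)],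
    [(k0,k2),(k4,k2)],[(k9,k2)],[(k6,k2)],[(k8,k2),(k11,k3)],[(k8,k3),(k11,k4)],[(k1,k3),(k10,k4)]]
    [] k0
    [[k0,k1,k1,k0,k0,k0]]
    [.ref k0 k0 [(z1,[y1,z1])]])]⟩

/-- classes `0 1 0 2 3 4`, types `C0 S0 C0 S0 C0 S0` -/
noncomputable def cU6_2372 : CertX :=
  ⟨[k4,k16,k4,k32,k52,k64],[(false,k0,[k0,k1,k2,k3,k4,k5])],[[[([z1,z0,z0,z1,z1,z1],z2)],[]]],
    [.old (.leafM k0 [k0,k3,k4,k5] [] [(k1,k2,z1,[y1,z1]),(k2,k1,z1,[y1,z1])]),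
    .old (.lp [k2,k2,k2,k2,k2,k2] [k0,k0,k0,k0,k0,k0,k0,k0,k0,k0,k0,k0] k0 [] k8 k5
    [[(k1,k2),(k10,k2)],[(k3,k2),(k7,k2)],[(k0,k2),(k4,k2)],[(k2,k2),(k5,k2)],[(k2,k2),(k5,k2)],[(k3,k2),(k7,k2)],
    [(k0,k2),(k4,k2)],[(k6,k2),(k9,k2)],[(k6,k2),(k9,k2)],[(k11,k2)],[(k8,k2)],[(k1,k2),(k10,k2)]]
    [] k0
    [[k0,k1,k1,k0,k0,k0]]
    [.ref k0 k0 [(z1,[y1,z1])]])]⟩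

/-- classes `0 1 0 2 3 4`, types `C0 S0 C0 S0 S0 S0` -/
noncomputable def cU6_2373 : CertX :=
  ⟨[k4,k16,k4,k32,k48,k64],[(false,k0,[k0,k1,k2,k3,k4,k5])],[[[([z1,z0,z0,z1,z1,z1],z2)],[]]],
    [.old (.leafM k0 [k0,k3,k4,k5] [] [(k1,k2,z1,[y1,z1]),(k2,k1,z1,[y1,z1])]),
    .old (.lp [k2,k2,k2,k2,k4,k2] [k1,k1,k1,k1,k1,k1,k1,k1,k0,k0,k1,k1] k0 [] k8 k5
    [[(k1,k2),(k10,k2)],[(k3,k2),(k7,k2)],[(k0,k2),(k4,k2)],[(k2,k2),(k5,k2)],[(k2,k2),(k5,k2)],[(k3,k2),(k7,k2)],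
    [(k0,k2),(k4,k2)],[(k6,k2),(k9,k3)],[(k6,k3),(k9,k4)],[(k11,k3),(k8,k4)],[(k11,k2),(k8,k3)],[(k1,k2),(k10,k2)]]
    [] k0
    [[k0,k1,k1,k0,k0,k0],[k0,k0,k0,k0,k0,k2]]
    [.ref k0 k0 [(z1,[y1,z1])],.contra [z1]])]⟩

/-- classes `0 1 0 2 3 4`, types `C0 S0 C2 C0 C0 C0` -/
noncomputable def cU6_2374 : CertX :=
  ⟨[k4,k16,k6,k36,k52,k68],[],[[[]]],
    [.old (.lp [k2,k2,k2,k2,k2,k2] [k0,k0,k0,k0,k0,k0,k0,k0,k0,k0,k0,k0] k0 [] k8 k5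
    [[(k10,k2)],[(k3,k2),(k4,k2)],[(k0,k2),(k7,k2)],[(k2,k2),(k5,k2)],[(k2,k2),(k5,k2)],[(k0,k2),(k7,k2)],[(k3,k2),
    (k4,k2)],[(k9,k2)],[(k6,k2)],[(k11,k2)],[(k8,k2)],[(k1,k2)]]
    [] k0
    []
    [])]⟩

/-- classes `0 1 0 2 3 4`, types `C0 S0 C2 C0 C0 S0` -/
noncomputable def cU6_2375 : CertX :=
  ⟨[k4,k16,k6,k36,k52,k64],[],[[[]]],
    [.old (.lp [k2,k2,k2,k2,k2,k2] [k0,k0,k0,k0,k0,k0,k0,k0,k0,k0,k0,k0] k0 [] k8 k5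
    [[(k1,k2),(k10,k2)],[(k3,k2),(k4,k2)],[(k0,k2),(k7,k2)],[(k2,k2),(k5,k2)],[(k2,k2),(k5,k2)],[(k0,k2),(k7,k2)],
    [(k3,k2),(k4,k2)],[(k9,k2)],[(k6,k2)],[(k11,k2)],[(k8,k2)],[(k1,k2),(k10,k2)]]
    [] k0
    []
    [])]⟩

/-- classes `0 1 0 2 3 4`, types `C0 S0 C2 C0 S0 C0` -/
noncomputable def cU6_2376 : CertX :=
  ⟨[k4,k16,k6,k36,k48,k68],[],[[[]]],
    [.old (.lp [k2,k2,k2,k2,k2,k2] [k0,k0,k0,k0,k0,k0,k0,k0,k0,k0,k0,k0] k0 [] k8 k5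
    [[(k10,k2)],[(k3,k2),(k4,k2)],[(k0,k2),(k7,k2)],[(k2,k2),(k5,k2)],[(k2,k2),(k5,k2)],[(k0,k2),(k7,k2)],[(k3,k2),
    (k4,k2)],[(k9,k2)],[(k6,k2)],[(k8,k2),(k11,k2)],[(k8,k2),(k11,k2)],[(k1,k2)]]
    [] k0
    []
    [])]⟩

/-- classes `0 1 0 2 3 4`, types `C0 S0 C2 C0 S0 S0` -/
noncomputable def cU6_2377 : CertX :=
  ⟨[k4,k16,k6,k36,k48,k64],[],[[[]]],
    [.old (.lp [k2,k2,k2,k2,k2,k4] [k1,k1,k1,k1,k1,k1,k1,k1,k1,k1,k0,k0] k0 [] k8 k5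
    [[(k1,k2),(k10,k3)],[(k3,k2),(k4,k2)],[(k0,k2),(k7,k2)],[(k2,k2),(k5,k2)],[(k2,k2),(k5,k2)],[(k0,k2),(k7,k2)],
    [(k3,k2),(k4,k2)],[(k9,k2)],[(k6,k2)],[(k8,k2),(k11,k3)],[(k8,k3),(k11,k4)],[(k1,k3),(k10,k4)]]
    [] k0
    []
    [])]⟩

/-- classes `0 1 0 2 3 4`, types `C0 S0 C2 S0 C0 S0` -/
noncomputable def cU6_2378 : CertX :=
  ⟨[k4,k16,k6,k32,k52,k64],[],[[[]]],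
    [.old (.lp [k2,k2,k2,k2,k2,k2] [k0,k0,k0,k0,k0,k0,k0,k0,k0,k0,k0,k0] k0 [] k8 k5
    [[(k1,k2),(k10,k2)],[(k3,k2),(k4,k2)],[(k0,k2),(k7,k2)],[(k2,k2),(k5,k2)],[(k2,k2),(k5,k2)],[(k0,k2),(k7,k2)],
    [(k3,k2),(k4,k2)],[(k6,k2),(k9,k2)],[(k6,k2),(k9,k2)],[(k11,k2)],[(k8,k2)],[(k1,k2),(k10,k2)]]
    [] k0
    []
    [])]⟩

/-- classes `0 1 0 2 3 4`, types `C0 S0 C2 S0 S0 S0` -/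
noncomputable def cU6_2379 : CertX :=
  ⟨[k4,k16,k6,k32,k48,k64],[],[[[]]],
    [.old (.lp [k2,k2,k2,k2,k4,k2] [k1,k1,k1,k1,k1,k1,k1,k1,k0,k0,k1,k1] k0 [] k8 k5
    [[(k1,k2),(k10,k2)],[(k3,k2),(k4,k2)],[(k0,k2),(k7,k2)],[(k2,k2),(k5,k2)],[(k2,k2),(k5,k2)],[(k0,k2),(k7,k2)],
    [(k3,k2),(k4,k2)],[(k6,k2),(k9,k3)],[(k6,k3),(k9,k4)],[(k11,k3),(k8,k4)],[(k11,k2),(k8,k3)],[(k1,k2),(k10,k2)]]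
    [] k0
    [[k0,k0,k0,k0,k0,k2]]
    [.contra [z1]])]⟩

/-- classes `0 1 0 2 3 4`, types `N0 C0 N1 C0 C0 C0` -/
noncomputable def cU6_2380 : CertX :=
  ⟨[k12,k20,k13,k36,k52,k68],[(false,k0,[k0,k1,k2,k3,k4,k5])],[[[([z1,z0,z0,z1,z1,z1],z2)],[]]],
    [.old (.leafM k0 [k0,k3,k4,k5] [] [(k1,k2,z1,[y1,z1]),(k2,k1,z1,[y1,z1])]),
    .old (.lp [k0,k2,k0,k2,k0,k2] [k1,k1,k0,k0,k1,k1,k0,k0,k1,k1,k0,k0] k0 [] k4 k5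
    [[(k10,k1)],[(k7,k1)],[(k4,k1)],[(k5,k1)],[(k2,k1)],[(k3,k1)],[(k0,k1)],[(k9,k1)],[(k6,k1)],[(k11,k1)],[(k8,k1)],
    [(k1,k1)]]
    [] k0
    [[k0,k1,k1,k0,k0,k0]]
    [.ref k0 k0 [(z1,[y1,z1])]])]⟩

/-- classes `0 1 0 2 3 4`, types `N0 C0 N1 C0 C0 S0` -/
noncomputable def cU6_2381 : CertX :=
  ⟨[k12,k20,k13,k36,k52,k64],[(false,k0,[k0,k1,k2,k3,k4,k5])],[[[([z1,z0,z0,z1,z1,z1],z2)],[]]],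
    [.old (.leafM k0 [k0,k3,k4,k5] [] [(k1,k2,z1,[y1,z1]),(k2,k1,z1,[y1,z1])]),
    .old (.lp [k2,k4,k0,k2,k2,k2] [k1,k1,k0,k0,k2,k2,k1,k1,k1,k1,k1,k1] k0 [] k8 k5
    [[(k1,k2),(k10,k2)],[(k7,k2)],[(k4,k2)],[(k5,k2)],[(k2,k2)],[(k3,k2)],[(k0,k2)],[(k9,k2)],[(k6,k2)],[(k11,k2)],
    [(k8,k2)],[(k1,k2),(k10,k2)]]
    [] k0
    [[k0,k1,k1,k0,k0,k0]]
    [.ref k0 k0 [(z1,[y1,z1])]])]⟩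

/-- classes `0 1 0 2 3 4`, types `N0 C0 N1 C0 S0 C0` -/
noncomputable def cU6_2382 : CertX :=
  ⟨[k12,k20,k13,k36,k48,k68],[(false,k0,[k0,k1,k2,k3,k4,k5])],[[[([z1,z0,z0,z1,z1,z1],z2)],[]]],
    [.old (.leafM k0 [k0,k3,k4,k5] [] [(k1,k2,z1,[y1,z1]),(k2,k1,z1,[y1,z1])]),
    .old (.lp [k2,k4,k0,k2,k2,k2] [k1,k1,k0,k0,k2,k2,k1,k1,k1,k1,k1,k1] k0 [] k8 k5
    [[(k10,k2)],[(k7,k2)],[(k4,k2)],[(k5,k2)],[(k2,k2)],[(k3,k2)],[(k0,k2)],[(k9,k2)],[(k6,k2)],[(k8,k2),(k11,k2)],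
    [(k8,k2),(k11,k2)],[(k1,k2)]]
    [] k0
    [[k0,k1,k1,k0,k0,k0]]
    [.ref k0 k0 [(z1,[y1,z1])]])]⟩

/-- classes `0 1 0 2 3 4`, types `N0 C0 N1 C0 S0 S0` -/
noncomputable def cU6_2383 : CertX :=
  ⟨[k12,k20,k13,k36,k48,k64],[(false,k0,[k0,k1,k2,k3,k4,k5])],[[[([z1,z0,z0,z1,z1,z1],z2)],[]]],
    [.old (.leafM k0 [k0,k3,k4,k5] [] [(k1,k2,z1,[y1,z1]),(k2,k1,z1,[y1,z1])]),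
    .old (.lp [k2,k4,k0,k2,k2,k4] [k1,k1,k0,k0,k2,k2,k1,k1,k1,k1,k0,k0] k0 [] k8 k5
    [[(k1,k2),(k10,k3)],[(k7,k2)],[(k4,k2)],[(k5,k2)],[(k2,k2)],[(k3,k2)],[(k0,k2)],[(k9,k2)],[(k6,k2)],[(k8,k2),(k11,
    k3)],[(k8,k3),(k11,k4)],[(k1,k3),(k10,k4)]]
    [] k0
    [[k0,k1,k1,k0,k0,k0]]
    [.ref k0 k0 [(z1,[y1,z1])]])]⟩

/-- classes `0 1 0 2 3 4`, types `N0 C0 N1 S0 C0 S0` -/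
noncomputable def cU6_2384 : CertX :=
  ⟨[k12,k20,k13,k32,k52,k64],[(false,k0,[k0,k1,k2,k3,k4,k5])],[[[([z1,z0,z0,z1,z1,z1],z2)],[]]],
    [.old (.leafM k0 [k0,k3,k4,k5] [] [(k1,k2,z1,[y1,z1]),(k2,k1,z1,[y1,z1])]),
    .old (.lp [k2,k4,k0,k2,k2,k2] [k1,k1,k0,k0,k2,k2,k1,k1,k1,k1,k1,k1] k0 [] k8 k5
    [[(k1,k2),(k10,k2)],[(k7,k2)],[(k4,k2)],[(k5,k2)],[(k2,k2)],[(k3,k2)],[(k0,k2)],[(k6,k2),(k9,k2)],[(k6,k2),(k9,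
    k2)],[(k11,k2)],[(k8,k2)],[(k1,k2),(k10,k2)]]
    [] k0
    [[k0,k1,k1,k0,k0,k0]]
    [.ref k0 k0 [(z1,[y1,z1])]])]⟩

/-- classes `0 1 0 2 3 4`, types `N0 C0 N1 S0 S0 S0` -/
noncomputable def cU6_2385 : CertX :=
  ⟨[k12,k20,k13,k32,k48,k64],[(false,k0,[k0,k1,k2,k3,k4,k5])],[[[([z1,z0,z0,z1,z1,z1],z2)],[]]],
    [.old (.leafM k0 [k0,k3,k4,k5] [] [(k1,k2,z1,[y1,z1]),(k2,k1,z1,[y1,z1])]),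
    .old (.lp [k2,k0,k4,k2,k4,k2] [k1,k1,k2,k2,k0,k0,k1,k1,k0,k0,k1,k1] k0 [] k8 k5
    [[(k1,k2),(k10,k2)],[(k7,k2)],[(k4,k2)],[(k5,k2)],[(k2,k2)],[(k3,k2)],[(k0,k2)],[(k6,k2),(k9,k3)],[(k6,k3),(k9,
    k4)],[(k11,k3),(k8,k4)],[(k11,k2),(k8,k3)],[(k1,k2),(k10,k2)]]
    [] k0
    [[k0,k1,k1,k0,k0,k0],[k0,k0,k0,k0,k0,k2]]
    [.ref k0 k0 [(z1,[y1,z1])],.contra [z1]])]⟩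

/-- classes `0 1 0 2 3 4`, types `N0 C0 N2 C0 C0 C0` -/
noncomputable def cU6_2386 : CertX :=
  ⟨[k12,k20,k14,k36,k52,k68],[],[[[]]],
    [.old (.lp [k0,k0,k2,k2,k0,k2] [k1,k1,k1,k1,k0,k0,k0,k0,k1,k1,k0,k0] k0 [] k4 k5
    [[(k10,k1)],[(k4,k1)],[(k7,k1)],[(k5,k1)],[(k2,k1)],[(k0,k1)],[(k3,k1)],[(k9,k1)],[(k6,k1)],[(k11,k1)],[(k8,k1)],
    [(k1,k1)]]
    [] k0
    []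
    [])]⟩

/-- classes `0 1 0 2 3 4`, types `N0 C0 N2 C0 C0 S0` -/
noncomputable def cU6_2387 : CertX :=
  ⟨[k12,k20,k14,k36,k52,k64],[],[[[]]],
    [.old (.lp [k2,k2,k2,k2,k2,k2] [k0,k0,k0,k0,k0,k0,k0,k0,k0,k0,k0,k0] k0 [] k8 k5
    [[(k1,k2),(k10,k2)],[(k4,k2)],[(k7,k2)],[(k5,k2)],[(k2,k2)],[(k0,k2)],[(k3,k2)],[(k9,k2)],[(k6,k2)],[(k11,k2)],
    [(k8,k2)],[(k1,k2),(k10,k2)]]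
    [] k0
    []
    [])]⟩

/-- classes `0 1 0 2 3 4`, types `N0 C0 N2 C0 S0 C0` -/
noncomputable def cU6_2388 : CertX :=
  ⟨[k12,k20,k14,k36,k48,k68],[],[[[]]],
    [.old (.lp [k2,k2,k2,k2,k2,k2] [k0,k0,k0,k0,k0,k0,k0,k0,k0,k0,k0,k0] k0 [] k8 k5
    [[(k10,k2)],[(k4,k2)],[(k7,k2)],[(k5,k2)],[(k2,k2)],[(k0,k2)],[(k3,k2)],[(k9,k2)],[(k6,k2)],[(k8,k2),(k11,k2)],
    [(k8,k2),(k11,k2)],[(k1,k2)]]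
    [] k0
    []
    [])]⟩

/-- classes `0 1 0 2 3 4`, types `N0 C0 N2 C0 S0 S0` -/
noncomputable def cU6_2389 : CertX :=
  ⟨[k12,k20,k14,k36,k48,k64],[],[[[]]],
    [.old (.lp [k2,k2,k2,k2,k2,k4] [k1,k1,k1,k1,k1,k1,k1,k1,k1,k1,k0,k0] k0 [] k8 k5
    [[(k1,k2),(k10,k3)],[(k4,k2)],[(k7,k2)],[(k5,k2)],[(k2,k2)],[(k0,k2)],[(k3,k2)],[(k9,k2)],[(k6,k2)],[(k8,k2),(k11,
    k3)],[(k8,k3),(k11,k4)],[(k1,k3),(k10,k4)]]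
    [] k0
    []
    [])]⟩

/-- classes `0 1 0 2 3 4`, types `N0 C0 N2 S0 C0 S0` -/
noncomputable def cU6_2390 : CertX :=
  ⟨[k12,k20,k14,k32,k52,k64],[],[[[]]],
    [.old (.lp [k2,k2,k2,k2,k2,k2] [k0,k0,k0,k0,k0,k0,k0,k0,k0,k0,k0,k0] k0 [] k8 k5
    [[(k1,k2),(k10,k2)],[(k4,k2)],[(k7,k2)],[(k5,k2)],[(k2,k2)],[(k0,k2)],[(k3,k2)],[(k6,k2),(k9,k2)],[(k6,k2),(k9,
    k2)],[(k11,k2)],[(k8,k2)],[(k1,k2),(k10,k2)]]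
    [] k0
    []
    [])]⟩

/-- classes `0 1 0 2 3 4`, types `N0 C0 N2 S0 S0 S0` -/
noncomputable def cU6_2391 : CertX :=
  ⟨[k12,k20,k14,k32,k48,k64],[],[[[]]],
    [.old (.lp [k2,k2,k2,k2,k4,k2] [k1,k1,k1,k1,k1,k1,k1,k1,k0,k0,k1,k1] k0 [] k8 k5
    [[(k1,k2),(k10,k2)],[(k4,k2)],[(k7,k2)],[(k5,k2)],[(k2,k2)],[(k0,k2)],[(k3,k2)],[(k6,k2),(k9,k3)],[(k6,k3),(k9,
    k4)],[(k11,k3),(k8,k4)],[(k11,k2),(k8,k3)],[(k1,k2),(k10,k2)]]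
    [] k0
    [[k0,k0,k0,k0,k0,k2]]
    [.contra [z1]])]⟩

/-- classes `0 1 0 2 3 4`, types `N0 S0 N1 C0 C0 C0` -/
noncomputable def cU6_2392 : CertX :=
  ⟨[k12,k16,k13,k36,k52,k68],[(false,k0,[k0,k1,k2,k3,k4,k5])],[[[([z1,z0,z0,z1,z1,z1],z2)],[]]],
    [.old (.leafM k0 [k0,k3,k4,k5] [] [(k1,k2,z1,[y1,z1]),(k2,k1,z1,[y1,z1])]),
    .old (.lp [k4,k2,k2,k0,k4,k0] [k0,k0,k1,k1,k1,k1,k2,k2,k0,k0,k2,k2] k0 [] k8 k5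
    [[(k10,k2)],[(k7,k2)],[(k4,k2)],[(k2,k2),(k5,k2)],[(k2,k2),(k5,k2)],[(k3,k2)],[(k0,k2)],[(k9,k2)],[(k6,k2)],[(k11,
    k2)],[(k8,k2)],[(k1,k2)]]
    [] k0
    [[k0,k1,k1,k0,k0,k0]]
    [.ref k0 k0 [(z1,[y1,z1])]])]⟩

/-- classes `0 1 0 2 3 4`, types `N0 S0 N1 C0 C0 S0` -/
noncomputable def cU6_2393 : CertX :=
  ⟨[k12,k16,k13,k36,k52,k64],[(false,k0,[k0,k1,k2,k3,k4,k5])],[[[([z1,z0,z0,z1,z1,z1],z2)],[]]],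
    [.old (.leafM k0 [k0,k3,k4,k5] [] [(k1,k2,z1,[y1,z1]),(k2,k1,z1,[y1,z1])]),
    .old (.lp [k2,k2,k2,k2,k2,k2] [k0,k0,k0,k0,k0,k0,k0,k0,k0,k0,k0,k0] k0 [] k8 k5
    [[(k1,k2),(k10,k2)],[(k7,k2)],[(k4,k2)],[(k2,k2),(k5,k2)],[(k2,k2),(k5,k2)],[(k3,k2)],[(k0,k2)],[(k9,k2)],[(k6,
    k2)],[(k11,k2)],[(k8,k2)],[(k1,k2),(k10,k2)]]
    [] k0
    [[k0,k1,k1,k0,k0,k0]]
    [.ref k0 k0 [(z1,[y1,z1])]])]⟩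

/-- classes `0 1 0 2 3 4`, types `N0 S0 N1 C0 S0 C0` -/
noncomputable def cU6_2394 : CertX :=
  ⟨[k12,k16,k13,k36,k48,k68],[(false,k0,[k0,k1,k2,k3,k4,k5])],[[[([z1,z0,z0,z1,z1,z1],z2)],[]]],
    [.old (.leafM k0 [k0,k3,k4,k5] [] [(k1,k2,z1,[y1,z1]),(k2,k1,z1,[y1,z1])]),
    .old (.lp [k2,k2,k2,k2,k2,k2] [k0,k0,k0,k0,k0,k0,k0,k0,k0,k0,k0,k0] k0 [] k8 k5
    [[(k10,k2)],[(k7,k2)],[(k4,k2)],[(k2,k2),(k5,k2)],[(k2,k2),(k5,k2)],[(k3,k2)],[(k0,k2)],[(k9,k2)],[(k6,k2)],[(k8,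
    k2),(k11,k2)],[(k8,k2),(k11,k2)],[(k1,k2)]]
    [] k0
    [[k0,k1,k1,k0,k0,k0]]
    [.ref k0 k0 [(z1,[y1,z1])]])]⟩

/-- classes `0 1 0 2 3 4`, types `N0 S0 N1 C0 S0 S0` -/
noncomputable def cU6_2395 : CertX :=
  ⟨[k12,k16,k13,k36,k48,k64],[(false,k0,[k0,k1,k2,k3,k4,k5])],[[[([z1,z0,z0,z1,z1,z1],z2)],[]]],
    [.old (.leafM k0 [k0,k3,k4,k5] [] [(k1,k2,z1,[y1,z1]),(k2,k1,z1,[y1,z1])]),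
    .old (.lp [k2,k2,k2,k2,k2,k4] [k1,k1,k1,k1,k1,k1,k1,k1,k1,k1,k0,k0] k0 [] k8 k5
    [[(k1,k2),(k10,k3)],[(k7,k2)],[(k4,k2)],[(k2,k2),(k5,k2)],[(k2,k2),(k5,k2)],[(k3,k2)],[(k0,k2)],[(k9,k2)],[(k6,
    k2)],[(k8,k2),(k11,k3)],[(k8,k3),(k11,k4)],[(k1,k3),(k10,k4)]]
    [] k0
    [[k0,k1,k1,k0,k0,k0]]
    [.ref k0 k0 [(z1,[y1,z1])]])]⟩

/-- classes `0 1 0 2 3 4`, types `N0 S0 N1 S0 C0 S0` -/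
noncomputable def cU6_2396 : CertX :=
  ⟨[k12,k16,k13,k32,k52,k64],[(false,k0,[k0,k1,k2,k3,k4,k5])],[[[([z1,z0,z0,z1,z1,z1],z2)],[]]],
    [.old (.leafM k0 [k0,k3,k4,k5] [] [(k1,k2,z1,[y1,z1]),(k2,k1,z1,[y1,z1])]),
    .old (.lp [k2,k2,k2,k2,k2,k2] [k0,k0,k0,k0,k0,k0,k0,k0,k0,k0,k0,k0] k0 [] k8 k5
    [[(k1,k2),(k10,k2)],[(k7,k2)],[(k4,k2)],[(k2,k2),(k5,k2)],[(k2,k2),(k5,k2)],[(k3,k2)],[(k0,k2)],[(k6,k2),(k9,k2)],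
    [(k6,k2),(k9,k2)],[(k11,k2)],[(k8,k2)],[(k1,k2),(k10,k2)]]
    [] k0
    [[k0,k1,k1,k0,k0,k0]]
    [.ref k0 k0 [(z1,[y1,z1])]])]⟩

/-- classes `0 1 0 2 3 4`, types `N0 S0 N1 S0 S0 S0` -/
noncomputable def cU6_2397 : CertX :=
  ⟨[k12,k16,k13,k32,k48,k64],[(false,k0,[k0,k1,k2,k3,k4,k5])],[[[([z1,z0,z0,z1,z1,z1],z2)],[]]],
    [.old (.leafM k0 [k0,k3,k4,k5] [] [(k1,k2,z1,[y1,z1]),(k2,k1,z1,[y1,z1])]),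
    .old (.lp [k2,k2,k2,k2,k4,k2] [k1,k1,k1,k1,k1,k1,k1,k1,k0,k0,k1,k1] k0 [] k8 k5
    [[(k1,k2),(k10,k2)],[(k7,k2)],[(k4,k2)],[(k2,k2),(k5,k2)],[(k2,k2),(k5,k2)],[(k3,k2)],[(k0,k2)],[(k6,k2),(k9,k3)],
    [(k6,k3),(k9,k4)],[(k11,k3),(k8,k4)],[(k11,k2),(k8,k3)],[(k1,k2),(k10,k2)]]
    [] k0
    [[k0,k1,k1,k0,k0,k0],[k0,k0,k0,k0,k0,k2]]
    [.ref k0 k0 [(z1,[y1,z1])],.contra [z1]])]⟩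

/-- classes `0 1 0 2 3 4`, types `N0 S0 N2 C0 C0 C0` -/
noncomputable def cU6_2398 : CertX :=
  ⟨[k12,k16,k14,k36,k52,k68],[],[[[]]],
    [.old (.lp [k2,k2,k2,k2,k2,k2] [k0,k0,k0,k0,k0,k0,k0,k0,k0,k0,k0,k0] k0 [] k8 k5
    [[(k10,k2)],[(k4,k2)],[(k7,k2)],[(k2,k2),(k5,k2)],[(k2,k2),(k5,k2)],[(k0,k2)],[(k3,k2)],[(k9,k2)],[(k6,k2)],[(k11,
    k2)],[(k8,k2)],[(k1,k2)]]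
    [] k0
    []
    [])]⟩

/-- classes `0 1 0 2 3 4`, types `N0 S0 N2 C0 C0 S0` -/
noncomputable def cU6_2399 : CertX :=
  ⟨[k12,k16,k14,k36,k52,k64],[],[[[]]],
    [.old (.lp [k2,k2,k2,k2,k2,k2] [k0,k0,k0,k0,k0,k0,k0,k0,k0,k0,k0,k0] k0 [] k8 k5
    [[(k1,k2),(k10,k2)],[(k4,k2)],[(k7,k2)],[(k2,k2),(k5,k2)],[(k2,k2),(k5,k2)],[(k0,k2)],[(k3,k2)],[(k9,k2)],[(k6,
    k2)],[(k11,k2)],[(k8,k2)],[(k1,k2),(k10,k2)]]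
    [] k0
    []
    [])]⟩

/-- classes `0 1 0 2 3 4`, types `N0 S0 N2 C0 S0 C0` -/
noncomputable def cU6_2400 : CertX :=
  ⟨[k12,k16,k14,k36,k48,k68],[],[[[]]],
    [.old (.lp [k2,k2,k2,k2,k2,k2] [k0,k0,k0,k0,k0,k0,k0,k0,k0,k0,k0,k0] k0 [] k8 k5
    [[(k10,k2)],[(k4,k2)],[(k7,k2)],[(k2,k2),(k5,k2)],[(k2,k2),(k5,k2)],[(k0,k2)],[(k3,k2)],[(k9,k2)],[(k6,k2)],[(k8,
    k2),(k11,k2)],[(k8,k2),(k11,k2)],[(k1,k2)]]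
    [] k0
    []
    [])]⟩

/-- classes `0 1 0 2 3 4`, types `N0 S0 N2 C0 S0 S0` -/
noncomputable def cU6_2401 : CertX :=
  ⟨[k12,k16,k14,k36,k48,k64],[],[[[]]],
    [.old (.lp [k2,k2,k2,k2,k2,k4] [k1,k1,k1,k1,k1,k1,k1,k1,k1,k1,k0,k0] k0 [] k8 k5
    [[(k1,k2),(k10,k3)],[(k4,k2)],[(k7,k2)],[(k2,k2),(k5,k2)],[(k2,k2),(k5,k2)],[(k0,k2)],[(k3,k2)],[(k9,k2)],[(k6,
    k2)],[(k8,k2),(k11,k3)],[(k8,k3),(k11,k4)],[(k1,k3),(k10,k4)]]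
    [] k0
    []
    [])]⟩

/-- classes `0 1 0 2 3 4`, types `N0 S0 N2 S0 C0 S0` -/
noncomputable def cU6_2402 : CertX :=
  ⟨[k12,k16,k14,k32,k52,k64],[],[[[]]],
    [.old (.lp [k2,k2,k2,k2,k2,k2] [k0,k0,k0,k0,k0,k0,k0,k0,k0,k0,k0,k0] k0 [] k8 k5
    [[(k1,k2),(k10,k2)],[(k4,k2)],[(k7,k2)],[(k2,k2),(k5,k2)],[(k2,k2),(k5,k2)],[(k0,k2)],[(k3,k2)],[(k6,k2),(k9,k2)],
    [(k6,k2),(k9,k2)],[(k11,k2)],[(k8,k2)],[(k1,k2),(k10,k2)]]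
    [] k0
    []
    [])]⟩

/-- classes `0 1 0 2 3 4`, types `N0 S0 N2 S0 S0 S0` -/
noncomputable def cU6_2403 : CertX :=
  ⟨[k12,k16,k14,k32,k48,k64],[],[[[]]],
    [.old (.lp [k2,k2,k2,k2,k4,k2] [k1,k1,k1,k1,k1,k1,k1,k1,k0,k0,k1,k1] k0 [] k8 k5
    [[(k1,k2),(k10,k2)],[(k4,k2)],[(k7,k2)],[(k2,k2),(k5,k2)],[(k2,k2),(k5,k2)],[(k0,k2)],[(k3,k2)],[(k6,k2),(k9,k3)],
    [(k6,k3),(k9,k4)],[(k11,k3),(k8,k4)],[(k11,k2),(k8,k3)],[(k1,k2),(k10,k2)]]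
    [] k0
    [[k0,k0,k0,k0,k0,k2]]
    [.contra [z1]])]⟩

/-- classes `0 1 0 2 3 4`, types `S0 C0 S0 C0 C0 C0` -/
noncomputable def cU6_2404 : CertX :=
  ⟨[k0,k20,k0,k36,k52,k68],[(false,k0,[k0,k1,k2,k3,k4,k5])],[[[([z1,z0,z0,z1,z1,z1],z2)],[]]],
    [.old (.leafM k0 [k0,k3,k4,k5] [] [(k1,k2,z1,[y1,z1]),(k2,k1,z1,[y1,z1])]),
    .old (.lp [k2,k2,k2,k2,k2,k2] [k0,k0,k0,k0,k0,k0,k0,k0,k0,k0,k0,k0] k0 [] k8 k5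
    [[(k10,k2)],[(k0,k2),(k3,k2),(k4,k2),(k7,k2)],[(k0,k2),(k3,k2),(k4,k2),(k7,k2)],[(k5,k2)],[(k2,k2)],[(k0,k2),(k3,
    k2),(k4,k2),(k7,k2)],[(k0,k2),(k3,k2),(k4,k2),(k7,k2)],[(k9,k2)],[(k6,k2)],[(k11,k2)],[(k8,k2)],[(k1,k2)]]
    [] k0
    [[k0,k1,k1,k0,k0,k0]]
    [.ref k0 k0 [(z1,[y1,z1])]])]⟩

/-- classes `0 1 0 2 3 4`, types `S0 C0 S0 C0 C0 S0` -/
noncomputable def cU6_2405 : CertX :=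
  ⟨[k0,k20,k0,k36,k52,k64],[(false,k0,[k0,k1,k2,k3,k4,k5])],[[[([z1,z0,z0,z1,z1,z1],z2)],[]]],
    [.old (.leafM k0 [k0,k3,k4,k5] [] [(k1,k2,z1,[y1,z1]),(k2,k1,z1,[y1,z1])]),
    .old (.lp [k4,k2,k2,k2,k2,k2] [k0,k0,k1,k1,k1,k1,k1,k1,k1,k1,k1,k1] k0 [] k8 k5
    [[(k10,k3),(k1,k4)],[(k3,k3),(k4,k3),(k7,k3),(k0,k4)],[(k3,k2),(k4,k2),(k7,k2),(k0,k3)],[(k5,k2)],[(k2,k2)],[(k3,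
    k2),(k4,k2),(k7,k2),(k0,k3)],[(k3,k2),(k4,k2),(k7,k2),(k0,k3)],[(k9,k2)],[(k6,k2)],[(k11,k2)],[(k8,k2)],[(k10,k2),
    (k1,k3)]]
    [] k0
    [[k0,k1,k1,k0,k0,k0]]
    [.ref k0 k0 [(z1,[y1,z1])]])]⟩

/-- classes `0 1 0 2 3 4`, types `S0 C0 S0 C0 S0 C0` -/
noncomputable def cU6_2406 : CertX :=
  ⟨[k0,k20,k0,k36,k48,k68],[(false,k0,[k0,k1,k2,k3,k4,k5])],[[[([z1,z0,z0,z1,z1,z1],z2)],[]]],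
    [.old (.leafM k0 [k0,k3,k4,k5] [] [(k1,k2,z1,[y1,z1]),(k2,k1,z1,[y1,z1])]),
    .old (.lp [k2,k2,k2,k2,k2,k2] [k0,k0,k0,k0,k0,k0,k0,k0,k0,k0,k0,k0] k0 [] k8 k5
    [[(k10,k2)],[(k0,k2),(k3,k2),(k4,k2),(k7,k2)],[(k0,k2),(k3,k2),(k4,k2),(k7,k2)],[(k5,k2)],[(k2,k2)],[(k0,k2),(k3,
    k2),(k4,k2),(k7,k2)],[(k0,k2),(k3,k2),(k4,k2),(k7,k2)],[(k9,k2)],[(k6,k2)],[(k8,k2),(k11,k2)],[(k8,k2),(k11,k2)],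
    [(k1,k2)]]
    [] k0
    [[k0,k1,k1,k0,k0,k0]]
    [.ref k0 k0 [(z1,[y1,z1])]])]⟩

/-- classes `0 1 0 2 3 4`, types `S0 C0 S0 C0 S0 S0` -/
noncomputable def cU6_2407 : CertX :=
  ⟨[k0,k20,k0,k36,k48,k64],[(false,k0,[k0,k1,k2,k3,k4,k5])],[[[([z1,z0,z0,z1,z1,z1],z2)],[]]],
    [.old (.leafM k0 [k0,k3,k4,k5] [] [(k1,k2,z1,[y1,z1]),(k2,k1,z1,[y1,z1])]),
    .old (.lp [k4,k2,k2,k2,k2,k2] [k0,k0,k1,k1,k1,k1,k1,k1,k1,k1,k1,k1] k0 [] k8 k5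
    [[(k10,k3),(k1,k4)],[(k3,k3),(k4,k3),(k7,k3),(k0,k4)],[(k3,k2),(k4,k2),(k7,k2),(k0,k3)],[(k5,k2)],[(k2,k2)],[(k3,
    k2),(k4,k2),(k7,k2),(k0,k3)],[(k3,k2),(k4,k2),(k7,k2),(k0,k3)],[(k9,k2)],[(k6,k2)],[(k8,k2),(k11,k2)],[(k8,k2),
    (k11,k2)],[(k10,k2),(k1,k3)]]
    [] k0
    [[k0,k1,k1,k0,k0,k0],[k0,k0,k0,k0,k0,k2]]
    [.ref k0 k0 [(z1,[y1,z1])],.contra [z1]])]⟩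

/-- classes `0 1 0 2 3 4`, types `S0 C0 S0 S0 C0 S0` -/
noncomputable def cU6_2408 : CertX :=
  ⟨[k0,k20,k0,k32,k52,k64],[(false,k0,[k0,k1,k2,k3,k4,k5])],[[[([z1,z0,z0,z1,z1,z1],z2)],[]]],
    [.old (.leafM k0 [k0,k3,k4,k5] [] [(k1,k2,z1,[y1,z1]),(k2,k1,z1,[y1,z1])]),
    .old (.lp [k4,k2,k2,k2,k2,k2] [k0,k0,k1,k1,k1,k1,k1,k1,k1,k1,k1,k1] k0 [] k8 k5
    [[(k10,k3),(k1,k4)],[(k3,k3),(k4,k3),(k7,k3),(k0,k4)],[(k3,k2),(k4,k2),(k7,k2),(k0,k3)],[(k5,k2)],[(k2,k2)],[(k3,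
    k2),(k4,k2),(k7,k2),(k0,k3)],[(k3,k2),(k4,k2),(k7,k2),(k0,k3)],[(k6,k2),(k9,k2)],[(k6,k2),(k9,k2)],[(k11,k2)],
    [(k8,k2)],[(k10,k2),(k1,k3)]]
    [] k0
    [[k0,k1,k1,k0,k0,k0],[k0,k0,k0,k2,k0,k0]]
    [.ref k0 k0 [(z1,[y1,z1])],.contra [z1]])]⟩

/-- classes `0 1 0 2 3 4`, types `S0 C0 S0 S0 S0 S0` -/
noncomputable def cU6_2409 : CertX :=
  ⟨[k0,k20,k0,k32,k48,k64],[(false,k0,[k0,k1,k2,k3,k4,k5])],[[[([z1,z0,z0,z1,z1,z1],z2)],[]]],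
    [.old (.leafM k0 [k0,k3,k4,k5] [] [(k1,k2,z1,[y1,z1]),(k2,k1,z1,[y1,z1])]),
    .old (.lp [k2,k2,k2,k2,k2,k4] [k1,k1,k1,k1,k1,k1,k1,k1,k1,k1,k0,k0] k0 [] k8 k5
    [[(k1,k2),(k10,k3)],[(k0,k2),(k3,k2),(k4,k2),(k7,k2)],[(k0,k2),(k3,k2),(k4,k2),(k7,k2)],[(k5,k2)],[(k2,k2)],[(k0,
    k2),(k3,k2),(k4,k2),(k7,k2)],[(k0,k2),(k3,k2),(k4,k2),(k7,k2)],[(k6,k2),(k9,k2)],[(k6,k2),(k9,k2)],[(k8,k2),(k11,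
    k3)],[(k8,k3),(k11,k4)],[(k1,k3),(k10,k4)]]
    [] k0
    [[k2,k0,k0,k0,k0,k0],[k0,k1,k1,k0,k0,k0],[k0,k0,k0,k2,k0,k0],[k0,k0,k0,k0,k2,k0]]
    [.contra [z1],.ref k0 k0 [(z1,[y1,z1])],.contra [z1],.contra [z1]])]⟩

/-- classes `0 1 0 2 3 4`, types `S0 S0 S0 C0 C0 C0` -/
noncomputable def cU6_2410 : CertX :=
  ⟨[k0,k16,k0,k36,k52,k68],[(false,k0,[k0,k1,k2,k3,k4,k5])],[[[([z1,z0,z0,z1,z1,z1],z2)],[]]],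
    [.old (.leafM k0 [k0,k3,k4,k5] [] [(k1,k2,z1,[y1,z1]),(k2,k1,z1,[y1,z1])]),
    .old (.lp [k2,k4,k2,k2,k2,k2] [k1,k1,k0,k0,k1,k1,k1,k1,k1,k1,k1,k1] k0 [] k8 k5
    [[(k10,k2)],[(k0,k2),(k4,k2),(k7,k2),(k3,k3)],[(k0,k3),(k4,k3),(k7,k3),(k3,k4)],[(k5,k3),(k2,k4)],[(k5,k2),(k2,
    k3)],[(k0,k2),(k4,k2),(k7,k2),(k3,k3)],[(k0,k2),(k4,k2),(k7,k2),(k3,k3)],[(k9,k2)],[(k6,k2)],[(k11,k2)],[(k8,k2)],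
    [(k1,k2)]]
    [] k0
    [[k0,k1,k1,k0,k0,k0],[k0,k0,k2,k0,k0,k0]]
    [.ref k0 k0 [(z1,[y1,z1])],.contra [z1]])]⟩

/-- classes `0 1 0 2 3 4`, types `S0 S0 S0 C0 C0 S0` -/
noncomputable def cU6_2411 : CertX :=
  ⟨[k0,k16,k0,k36,k52,k64],[(false,k0,[k0,k1,k2,k3,k4,k5])],[[[([z1,z0,z0,z1,z1,z1],z2)],[]]],
    [.old (.leafM k0 [k0,k3,k4,k5] [] [(k1,k2,z1,[y1,z1]),(k2,k1,z1,[y1,z1])]),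
    .old (.lp [k4,k2,k2,k2,k2,k2] [k0,k0,k1,k1,k1,k1,k1,k1,k1,k1,k1,k1] k0 [] k8 k5
    [[(k10,k3),(k1,k4)],[(k3,k3),(k4,k3),(k7,k3),(k0,k4)],[(k3,k2),(k4,k2),(k7,k2),(k0,k3)],[(k2,k2),(k5,k2)],[(k2,
    k2),(k5,k2)],[(k3,k2),(k4,k2),(k7,k2),(k0,k3)],[(k3,k2),(k4,k2),(k7,k2),(k0,k3)],[(k9,k2)],[(k6,k2)],[(k11,k2)],
    [(k8,k2)],[(k10,k2),(k1,k3)]]
    [] k0
    [[k0,k2,k0,k0,k0,k0],[k0,k1,k1,k0,k0,k0],[k0,k0,k2,k0,k0,k0]]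
    [.contra [z1],.ref k0 k0 [(z1,[y1,z1])],.contra [z1]])]⟩

/-- classes `0 1 0 2 3 4`, types `S0 S0 S0 C0 S0 C0` -/
noncomputable def cU6_2412 : CertX :=
  ⟨[k0,k16,k0,k36,k48,k68],[(false,k0,[k0,k1,k2,k3,k4,k5])],[[[([z1,z0,z0,z1,z1,z1],z2)],[]]],
    [.old (.leafM k0 [k0,k3,k4,k5] [] [(k1,k2,z1,[y1,z1]),(k2,k1,z1,[y1,z1])]),
    .old (.lp [k2,k4,k2,k2,k2,k2] [k1,k1,k0,k0,k1,k1,k1,k1,k1,k1,k1,k1] k0 [] k8 k5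
    [[(k10,k2)],[(k0,k2),(k4,k2),(k7,k2),(k3,k3)],[(k0,k3),(k4,k3),(k7,k3),(k3,k4)],[(k5,k3),(k2,k4)],[(k5,k2),(k2,
    k3)],[(k0,k2),(k4,k2),(k7,k2),(k3,k3)],[(k0,k2),(k4,k2),(k7,k2),(k3,k3)],[(k9,k2)],[(k6,k2)],[(k8,k2),(k11,k2)],
    [(k8,k2),(k11,k2)],[(k1,k2)]]
    [] k0
    [[k0,k1,k1,k0,k0,k0],[k0,k0,k2,k0,k0,k0]]
    [.ref k0 k0 [(z1,[y1,z1])],.contra [z1]])]⟩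

/-- classes `0 1 0 2 3 4`, types `S0 S0 S0 C0 S0 S0` -/
noncomputable def cU6_2413 : CertX :=
  ⟨[k0,k16,k0,k36,k48,k64],[(false,k0,[k0,k1,k2,k3,k4,k5])],[[[([z1,z0,z0,z1,z1,z1],z2)],[]]],
    [.old (.leafM k0 [k0,k3,k4,k5] [] [(k1,k2,z1,[y1,z1]),(k2,k1,z1,[y1,z1])]),
    .old (.lp [k2,k2,k2,k2,k2,k4] [k1,k1,k1,k1,k1,k1,k1,k1,k1,k1,k0,k0] k0 [] k8 k5
    [[(k1,k2),(k10,k3)],[(k0,k2),(k3,k2),(k4,k2),(k7,k2)],[(k0,k2),(k3,k2),(k4,k2),(k7,k2)],[(k2,k2),(k5,k2)],[(k2,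
    k2),(k5,k2)],[(k0,k2),(k3,k2),(k4,k2),(k7,k2)],[(k0,k2),(k3,k2),(k4,k2),(k7,k2)],[(k9,k2)],[(k6,k2)],[(k8,k2),
    (k11,k3)],[(k8,k3),(k11,k4)],[(k1,k3),(k10,k4)]]
    [] k0
    [[k2,k0,k0,k0,k0,k0],[k0,k2,k0,k0,k0,k0],[k0,k1,k1,k0,k0,k0],[k0,k0,k2,k0,k0,k0]]
    [.contra [z1],.contra [z1],.ref k0 k0 [(z1,[y1,z1])],.contra [z1]])]⟩

/-- classes `0 1 0 2 3 4`, types `S0 S0 S0 S0 C0 S0` -/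
noncomputable def cU6_2414 : CertX :=
  ⟨[k0,k16,k0,k32,k52,k64],[(false,k0,[k0,k1,k2,k3,k4,k5])],[[[([z1,z0,z0,z1,z1,z1],z2)],[]]],
    [.old (.leafM k0 [k0,k3,k4,k5] [] [(k1,k2,z1,[y1,z1]),(k2,k1,z1,[y1,z1])]),
    .old (.lp [k4,k2,k2,k2,k2,k2] [k0,k0,k1,k1,k1,k1,k1,k1,k1,k1,k1,k1] k0 [] k8 k5
    [[(k10,k3),(k1,k4)],[(k3,k3),(k4,k3),(k7,k3),(k0,k4)],[(k3,k2),(k4,k2),(k7,k2),(k0,k3)],[(k2,k2),(k5,k2)],[(k2,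
    k2),(k5,k2)],[(k3,k2),(k4,k2),(k7,k2),(k0,k3)],[(k3,k2),(k4,k2),(k7,k2),(k0,k3)],[(k6,k2),(k9,k2)],[(k6,k2),(k9,
    k2)],[(k11,k2)],[(k8,k2)],[(k10,k2),(k1,k3)]]
    [] k0
    [[k0,k2,k0,k0,k0,k0],[k0,k1,k1,k0,k0,k0],[k0,k0,k2,k0,k0,k0],[k0,k0,k0,k2,k0,k0]]
    [.contra [z1],.ref k0 k0 [(z1,[y1,z1])],.contra [z1],.contra [z1]])]⟩

/-- classes `0 1 2 0 1 2`, types `B0 B0 B0 B1 B1 B1` -/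
noncomputable def cU6_2415 : CertX :=
  ⟨[k8,k24,k40,k9,k25,k41],[(false,k0,[k0,k1,k2,k3,k4,k5]),(false,k2,[k2,k3,k4,k5,k0,k1]),(false,k1,[k1,k2,k3,k4,k5,
    k0])],[[[([z1,z0,z0,z1,z0,z0],z2)],[([z1,z0,z1,z0,z1,z0],z2)],[]]],
    [.old (.leafM k6 [k1,k2,k4,k5] [] [(k3,k0,z1,[z1]),(k0,k3,z1,[z1])]),
    .old (.leafM k1 [k0,k1,k2,k3,k4,k5] [(z1,[y1,z1]),(z1,[z1])] []),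
    .old (.lp [k2,k4,k2,k2,k2,k2] [k1,k1,k0,k0,k1,k1,k1,k1,k1,k1,k1,k1] k0 [] k8 k5
    [[(k4,k2),(k7,k2)],[(k6,k2),(k9,k2)],[(k6,k3),(k9,k3)],[(k8,k3),(k11,k3)],[(k8,k2),(k11,k2)],[(k1,k2),(k10,k2)],
    [(k1,k2),(k10,k2)],[(k0,k2),(k3,k3)],[(k0,k2),(k3,k3)],[(k5,k2),(k2,k3)],[(k5,k2),(k2,k3)],[(k4,k2),(k7,k2)]]
    [] k0
    [[k1,k0,k1,k0,k1,k0],[k1,k0,k0,k1,k0,k0],[k0,k1,k0,k0,k1,k0],[k0,k0,k1,k0,k0,k1]]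
    [.ref k1 k0 [(z1,[z1])],.ref k0 k0 [(z1,[z1])],.ref k0 k1 [(z1,[z1])],.ref k0 k2 [(z1,[z1])]])]⟩

/-- classes `0 1 2 0 1 2`, types `B0 B0 C0 B1 B1 C0` -/
noncomputable def cU6_2416 : CertX :=
  ⟨[k8,k24,k36,k9,k25,k36],[(false,k0,[k0,k1,k2,k3,k4,k5])],[[[([z1,z0,z1,z1,z0,z1],z2)],[([z1,z0,z1,z0,z1,z0],z2)],
    []]],
    [.old (.leafM k2 [k2,k3,k5,k0] [] [(k4,k1,z1,[y1,z1]),(k1,k4,z1,[y1,z1])]),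
    .old (.leafM k1 [k0,k1,k2,k3,k4,k5] [(z1,[y1,z1]),(z1,[z1])] []),
    .old (.lp [k2,k4,k2,k2,k2,k2] [k1,k1,k0,k0,k1,k1,k1,k1,k1,k1,k1,k1] k0 [] k8 k5
    [[(k4,k2),(k10,k2)],[(k6,k2),(k9,k2)],[(k6,k3),(k9,k3)],[(k8,k3),(k11,k3)],[(k8,k2),(k11,k2)],[(k1,k2),(k7,k2)],
    [(k4,k2),(k10,k2)],[(k0,k2),(k3,k3)],[(k0,k2),(k3,k3)],[(k5,k2),(k2,k3)],[(k5,k2),(k2,k3)],[(k1,k2),(k7,k2)]]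
    [] k0
    [[k1,k0,k1,k0,k1,k0],[k0,k1,k0,k0,k1,k0]]
    [.ref k1 k0 [(z1,[z1])],.ref k0 k0 [(z1,[y1,z1])]])]⟩

/-- classes `0 1 2 0 1 2`, types `B0 B0 C0 B1 B1 C2` -/
noncomputable def cU6_2417 : CertX :=
  ⟨[k8,k24,k36,k9,k25,k38],[(false,k0,[k0,k1,k2,k3,k4,k5]),(true,k2,[k2,k1,k0,k5,k4,k3])],[[[([z1,z0,z0,z1,z0,z0],
    z2)],[([z1,z0,z1,z1,z0,z1],z2)],[]]],
    [.old (.leafM k6 [k1,k2,k4,k5] [] [(k3,k0,z1,[z1]),(k0,k3,z1,[z1])]),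
    .old (.leafM k2 [k2,k3,k5,k0] [] [(k4,k1,z1,[y1,z1]),(k1,k4,z1,[y1,z1])]),
    .old (.lp [k2,k2,k2,k0,k0,k0] [k0,k0,k0,k0,k0,k0,k1,k1,k1,k1,k1,k1] k0 [] k4 k5
    [[(k7,k1),(k10,k1)],[(k6,k1),(k9,k1)],[(k6,k1),(k9,k1)],[(k8,k1),(k11,k1)],[(k8,k1),(k11,k1)],[(k7,k1),(k10,k1)],
    [(k1,k1),(k4,k1)],[(k0,k1),(k3,k1)],[(k0,k1),(k3,k1)],[(k2,k1),(k5,k1)],[(k2,k1),(k5,k1)],[(k1,k1),(k4,k1)]]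
    [] k0
    [[k1,k0,k0,k1,k0,k0],[k0,k1,k0,k0,k1,k0],[k0,k0,k1,k0,k0,k1]]
    [.ref k0 k0 [(z1,[z1])],.ref k1 k0 [(z1,[y1,z1])],.ref k0 k1 [(z1,[z1])]])]⟩

/-- classes `0 1 2 0 1 2`, types `B0 B0 N0 B1 B1 N1` -/
noncomputable def cU6_2418 : CertX :=
  ⟨[k8,k24,k44,k9,k25,k45],[(false,k0,[k0,k1,k2,k3,k4,k5])],[[[([z1,z0,z1,z1,z0,z1],z2)],[([z1,z0,z1,z0,z1,z0],z2)],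
    []]],
    [.old (.leafM k6 [k2,k3,k5,k0] [] [(k4,k1,z1,[y1,z1]),(k1,k4,z1,[y1,z1])]),
    .old (.leafM k1 [k0,k1,k2,k3,k4,k5] [(z1,[y1,z1]),(z1,[z1])] []),
    .old (.lp [k2,k4,k2,k2,k2,k2] [k1,k1,k0,k0,k1,k1,k1,k1,k1,k1,k1,k1] k0 [] k8 k5
    [[(k4,k2)],[(k6,k2),(k9,k2)],[(k6,k3),(k9,k3)],[(k8,k3),(k11,k3)],[(k8,k2),(k11,k2)],[(k1,k2)],[(k10,k2)],[(k0,
    k2),(k3,k3)],[(k0,k2),(k3,k3)],[(k5,k2),(k2,k3)],[(k5,k2),(k2,k3)],[(k7,k2)]]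
    [] k0
    [[k1,k0,k1,k0,k1,k0],[k0,k1,k0,k0,k1,k0]]
    [.ref k1 k0 [(z1,[z1])],.ref k0 k0 [(z1,[y1,z1])]])]⟩

/-- classes `0 1 2 0 1 2`, types `B0 B0 N0 B1 B1 N2` -/
noncomputable def cU6_2419 : CertX :=
  ⟨[k8,k24,k44,k9,k25,k46],[(false,k0,[k0,k1,k2,k3,k4,k5]),(true,k2,[k2,k1,k0,k5,k4,k3])],[[[([z1,z0,z0,z1,z0,z0],
    z2)],[([z1,z0,z0,z1,z0,z0],z1),([z0,z1,z0,z0,z1,z0],z2)],[([z1,z0,z1,z1,z0,z1],z2)],[]]],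
    [.old (.leafM k6 [k1,k2,k4,k5] [] [(k3,k0,z1,[z1]),(k0,k3,z1,[z1])]),
    .old (.leafM k7 [k0,k2,k3,k5] [(z1,[y1,y1,z1])] [(k1,k4,z1,[z0,z1]),(k4,k1,z1,[z0,z1])]),
    .old (.lp [k8,k20,k8,k0,k0,k2] [k6,k6,k0,k0,k6,k6,k10,k10,k10,k10,k9,k9] k0 [] k20 k6
    [[(k7,k4)],[(k6,k4),(k9,k4)],[(k6,k10),(k9,k10)],[(k8,k10),(k11,k11)],[(k8,k4),(k11,k5)],[(k10,k5)],[(k1,k4)],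
    [(k0,k4),(k3,k10)],[(k0,k4),(k3,k10)],[(k5,k4),(k2,k10)],[(k5,k5),(k2,k11)],[(k4,k5)]]
    [] k0
    [[k1,k0,k0,k1,k0,k0],[k2,k0,k0,k2,k0,k0],[k0,k0,k1,k0,k0,k1]]
    [.contra [y1,z1],.ref k1 k0 [(z2,[z1]),(z1,[z0,y1,z1])],.contra [y1,z1]]),
    .old (.lp [k2,k2,k2,k0,k0,k0] [k0,k0,k0,k0,k0,k0,k1,k1,k1,k1,k1,k1] k0 [] k4 k5
    [[(k7,k1)],[(k6,k1),(k9,k1)],[(k6,k1),(k9,k1)],[(k8,k1),(k11,k1)],[(k8,k1),(k11,k1)],[(k10,k1)],[(k1,k1)],[(k0,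
    k1),(k3,k1)],[(k0,k1),(k3,k1)],[(k2,k1),(k5,k1)],[(k2,k1),(k5,k1)],[(k4,k1)]]
    [] k0
    [[k1,k0,k0,k1,k0,k0],[k0,k1,k0,k0,k1,k0],[k0,k0,k1,k0,k0,k1]]
    [.ref k0 k0 [(z1,[z1])],.ref k2 k0 [(z1,[y1,z1])],.ref k0 k1 [(z1,[z1])]])]⟩

/-- classes `0 1 2 0 1 2`, types `B0 B0 S0 B1 B1 S0` -/
noncomputable def cU6_2420 : CertX :=
  ⟨[k8,k24,k32,k9,k25,k32],[(false,k0,[k0,k1,k2,k3,k4,k5]),(true,k2,[k2,k1,k0,k5,k4,k3])],[[[([z1,z0,z0,z1,z0,z0],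
    z2)],[([z1,z0,z1,z1,z0,z1],z2)],[([z1,z0,z1,z0,z1,z0],z2)],[]]],
    [.old (.leafM k6 [k1,k2,k4,k5] [] [(k3,k0,z1,[z1]),(k0,k3,z1,[z1])]),
    .old (.leafM k2 [k2,k3,k5,k0] [] [(k4,k1,z1,[y1,z1]),(k1,k4,z1,[y1,z1])]),
    .old (.leafM k1 [k0,k1,k2,k3,k4,k5] [(z1,[y1,z1]),(z1,[z1])] []),
    .old (.lp [k4,k2,k2,k2,k2,k2] [k0,k0,k1,k1,k1,k1,k1,k1,k1,k1,k1,k1] k0 [] k8 k5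
    [[(k4,k3),(k7,k3),(k10,k3),(k1,k4)],[(k6,k3),(k9,k3)],[(k6,k2),(k9,k2)],[(k8,k2),(k11,k2)],[(k8,k2),(k11,k2)],
    [(k4,k2),(k7,k2),(k10,k2),(k1,k3)],[(k4,k2),(k7,k2),(k10,k2),(k1,k3)],[(k3,k2),(k0,k3)],[(k3,k2),(k0,k3)],[(k2,
    k2),(k5,k2)],[(k2,k2),(k5,k2)],[(k4,k2),(k7,k2),(k10,k2),(k1,k3)]]
    [] k0
    [[k1,k0,k0,k1,k0,k0],[k0,k1,k0,k1,k0,k1],[k0,k1,k0,k0,k1,k0],[k0,k0,k1,k0,k0,k1]]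
    [.ref k0 k0 [(z1,[z1])],.ref k2 k0 [(z1,[y1,z1])],.ref k1 k0 [(z1,[y1,z1])],.ref k0 k1 [(z1,[z1])]])]⟩

/-- classes `0 1 2 0 1 2`, types `B0 C0 C0 B1 C0 C0` -/
noncomputable def cU6_2421 : CertX :=
  ⟨[k8,k20,k36,k9,k20,k36],[(false,k0,[k0,k1,k2,k3,k4,k5])],[[[([z1,z0,z0,z0,z1,z1],z2)],[([z1,z0,z1,z0,z1,z0],z2)],
    []]],
    [.old (.leafM k0 [k0,k1,k2,k3,k4,k5] [(z1,[y1,z1])] []),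
    .old (.leafM k1 [k0,k1,k2,k3,k4,k5] [(z1,[y1,z1]),(z1,[z1])] []),
    .old (.lp [k2,k2,k2,k4,k2,k2] [k1,k1,k1,k1,k1,k1,k0,k0,k1,k1,k1,k1] k0 [] k8 k5
    [[(k4,k2),(k10,k2)],[(k9,k2),(k6,k3)],[(k9,k2),(k6,k3)],[(k5,k2),(k11,k2)],[(k2,k2),(k8,k2)],[(k1,k2),(k7,k3)],
    [(k4,k3),(k10,k3)],[(k0,k3),(k3,k3)],[(k0,k2),(k3,k2)],[(k5,k2),(k11,k2)],[(k2,k2),(k8,k2)],[(k1,k2),(k7,k3)]]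
    [] k0
    [[k1,k0,k1,k0,k1,k0],[k1,k0,k0,k0,k1,k1]]
    [.ref k1 k0 [(z1,[z1])],.ref k0 k0 [(z1,[z1])]])]⟩

/-- classes `0 1 2 0 1 2`, types `B0 C0 C0 B1 C0 C2` -/
noncomputable def cU6_2422 : CertX :=
  ⟨[k8,k20,k36,k9,k20,k38],[(false,k0,[k0,k1,k2,k3,k4,k5])],[[[([z1,z0,z0,z0,z1,z1],z2)],[([z1,z0,z0,z1,z0,z0],z2)],
    []]],
    [.old (.leafM k0 [k0,k1,k2,k3,k4,k5] [(z1,[y1,z1])] []),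
    .old (.leafM k2 [k1,k2,k4,k5] [] [(k3,k0,z1,[z1]),(k0,k3,z1,[z1])]),
    .old (.lp [k2,k2,k2,k4,k2,k2] [k1,k1,k1,k1,k1,k1,k0,k0,k1,k1,k1,k1] k0 [] k8 k5
    [[(k10,k2),(k7,k3)],[(k9,k2),(k6,k3)],[(k9,k2),(k6,k3)],[(k5,k2),(k11,k2)],[(k2,k2),(k8,k2)],[(k10,k2),(k7,k3)],
    [(k1,k3),(k4,k3)],[(k0,k3),(k3,k3)],[(k0,k2),(k3,k2)],[(k5,k2),(k11,k2)],[(k2,k2),(k8,k2)],[(k1,k2),(k4,k2)]]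
    [] k0
    [[k1,k0,k0,k1,k0,k0],[k1,k0,k0,k0,k1,k1]]
    [.ref k1 k0 [(z1,[z1])],.ref k0 k0 [(z1,[z1])]])]⟩

/-- classes `0 1 2 0 1 2`, types `B0 C0 C0 B1 C2 C2` -/
noncomputable def cU6_2423 : CertX :=
  ⟨[k8,k20,k36,k9,k22,k38],[(false,k0,[k0,k1,k2,k3,k4,k5]),(true,k1,[k1,k0,k5,k4,k3,k2])],[[[([z1,z1,z0,z1,z1,z0],
    z2)],[([z1,z0,z0,z1,z0,z0],z2)],[([z1,z0,z0,z0,z1,z1],z2)],[]]],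
    [.old (.leafM k6 [k0,k1,k3,k4] [] [(k2,k5,z1,[y1,z1]),(k5,k2,z1,[y1,z1])]),
    .old (.leafM k2 [k1,k2,k4,k5] [] [(k3,k0,z1,[z1]),(k0,k3,z1,[z1])]),
    .old (.leafM k0 [k0,k1,k2,k3,k4,k5] [(z1,[y1,z1])] []),
    .old (.lp [k2,k2,k2,k4,k2,k2] [k1,k1,k1,k1,k1,k1,k0,k0,k1,k1,k1,k1] k0 [] k8 k5
    [[(k10,k2),(k7,k3)],[(k9,k2),(k6,k3)],[(k9,k2),(k6,k3)],[(k5,k2),(k8,k2)],[(k2,k2),(k11,k2)],[(k10,k2),(k7,k3)],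
    [(k1,k3),(k4,k3)],[(k0,k3),(k3,k3)],[(k0,k2),(k3,k2)],[(k2,k2),(k11,k2)],[(k5,k2),(k8,k2)],[(k1,k2),(k4,k2)]]
    [] k0
    [[k1,k0,k0,k1,k0,k0],[k1,k0,k0,k0,k1,k1],[k0,k1,k0,k0,k1,k0],[k0,k0,k1,k0,k0,k1]]
    [.ref k1 k0 [(z1,[z1])],.ref k2 k0 [(z1,[z1])],.ref k1 k1 [(z1,[z1])],.ref k0 k0 [(z1,[y1,z1])]])]⟩

/-- classes `0 1 2 0 1 2`, types `B0 C0 N0 B1 C0 N1` -/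
noncomputable def cU6_2424 : CertX :=
  ⟨[k8,k20,k44,k9,k20,k45],[(false,k0,[k0,k1,k2,k3,k4,k5])],[[[([z1,z0,z1,z0,z1,z0],z2)],[]]],
    [.old (.leafM k1 [k0,k1,k2,k3,k4,k5] [(z1,[y1,z1]),(z1,[z1])] []),
    .old (.lp [k2,k2,k2,k4,k2,k2] [k1,k1,k1,k1,k1,k1,k0,k0,k1,k1,k1,k1] k0 [] k8 k5
    [[(k4,k2)],[(k9,k2),(k6,k3)],[(k9,k2),(k6,k3)],[(k5,k2),(k11,k2)],[(k2,k2),(k8,k2)],[(k1,k2)],[(k10,k3)],[(k0,k3),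
    (k3,k3)],[(k0,k2),(k3,k2)],[(k5,k2),(k11,k2)],[(k2,k2),(k8,k2)],[(k7,k3)]]
    [] k0
    [[k1,k0,k1,k0,k1,k0]]
    [.ref k0 k0 [(z1,[z1])]])]⟩

/-- classes `0 1 2 0 1 2`, types `B0 C0 N0 B1 C0 N2` -/
noncomputable def cU6_2425 : CertX :=
  ⟨[k8,k20,k44,k9,k20,k46],[(false,k0,[k0,k1,k2,k3,k4,k5])],[[[([z1,z0,z0,z1,z0,z0],z2)],[]]],
    [.old (.leafM k2 [k1,k2,k4,k5] [] [(k3,k0,z1,[z1]),(k0,k3,z1,[z1])]),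
    .old (.lp [k2,k2,k2,k2,k2,k2] [k0,k0,k0,k0,k0,k0,k0,k0,k0,k0,k0,k0] k0 [] k8 k5
    [[(k7,k2)],[(k6,k2),(k9,k2)],[(k6,k2),(k9,k2)],[(k5,k2),(k11,k2)],[(k2,k2),(k8,k2)],[(k10,k2)],[(k1,k2)],[(k0,k2),
    (k3,k2)],[(k0,k2),(k3,k2)],[(k5,k2),(k11,k2)],[(k2,k2),(k8,k2)],[(k4,k2)]]
    [] k0
    [[k1,k0,k0,k1,k0,k0]]
    [.ref k0 k0 [(z1,[z1])]])]⟩

/-- classes `0 1 2 0 1 2`, types `B0 C0 N0 B1 C2 N1` -/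
noncomputable def cU6_2426 : CertX :=
  ⟨[k8,k20,k44,k9,k22,k45],[(false,k0,[k0,k1,k2,k3,k4,k5])],[[[([z1,z0,z1,z1,z0,z1],z2)],[]]],
    [.old (.leafM k6 [k2,k3,k5,k0] [] [(k4,k1,z1,[y1,z1]),(k1,k4,z1,[y1,z1])]),
    .old (.lp [k0,k0,k2,k2,k2,k0] [k1,k1,k1,k1,k0,k0,k0,k0,k0,k0,k1,k1] k0 [] k4 k5
    [[(k4,k1)],[(k6,k1),(k9,k1)],[(k6,k1),(k9,k1)],[(k5,k1),(k8,k1)],[(k2,k1),(k11,k1)],[(k1,k1)],[(k10,k1)],[(k0,k1),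
    (k3,k1)],[(k0,k1),(k3,k1)],[(k2,k1),(k11,k1)],[(k5,k1),(k8,k1)],[(k7,k1)]]
    [] k0
    [[k0,k1,k0,k0,k1,k0]]
    [.ref k0 k0 [(z1,[y1,z1])]])]⟩

/-- classes `0 1 2 0 1 2`, types `B0 C0 N0 B1 C2 N2` -/
noncomputable def cU6_2427 : CertX :=
  ⟨[k8,k20,k44,k9,k22,k46],[(false,k0,[k0,k1,k2,k3,k4,k5])],[[[([z1,z1,z0,z1,z1,z0],z2)],[([z1,z0,z0,z1,z0,z0],z2)],
    [([z1,z0,z0,z1,z0,z0],z1),([z0,z1,z0,z0,z1,z0],z2)],[([z1,z0,z1,z1,z0,z1],z2)],[]]],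
    [.old (.leafM k6 [k0,k1,k3,k4] [] [(k2,k5,z1,[y1,z1]),(k5,k2,z1,[y1,z1])]),
    .old (.leafM k2 [k1,k2,k4,k5] [] [(k3,k0,z1,[z1]),(k0,k3,z1,[z1])]),
    .old (.leafM k7 [k0,k2,k3,k5] [(z1,[y1,y1,z1])] [(k1,k4,z1,[z0,z1]),(k4,k1,z1,[z0,z1])]),
    .old (.lp [k0,k0,k8,k10,k20,k0] [k10,k10,k10,k10,k6,k6,k5,k5,k0,k0,k10,k10] k0 [] k20 k6
    [[(k7,k5)],[(k6,k5),(k9,k10)],[(k6,k5),(k9,k10)],[(k5,k4),(k8,k10)],[(k2,k4),(k11,k4)],[(k10,k4)],[(k1,k5)],[(k0,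
    k5),(k3,k5)],[(k0,k10),(k3,k10)],[(k2,k10),(k11,k10)],[(k5,k4),(k8,k10)],[(k4,k4)]]
    [] k0
    [[k1,k0,k0,k1,k0,k0],[k0,k0,k1,k0,k0,k1],[k0,k0,k2,k0,k0,k2]]
    [.contra [y1,z1],.contra [y1,z1],.ref k2 k0 [(z2,[y1,z2]),(z1,[z0,y1,z1])]]),
    .old (.lp [k0,k0,k2,k2,k2,k0] [k1,k1,k1,k1,k0,k0,k0,k0,k0,k0,k1,k1] k0 [] k4 k5
    [[(k7,k1)],[(k6,k1),(k9,k1)],[(k6,k1),(k9,k1)],[(k5,k1),(k8,k1)],[(k2,k1),(k11,k1)],[(k10,k1)],[(k1,k1)],[(k0,k1),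
    (k3,k1)],[(k0,k1),(k3,k1)],[(k2,k1),(k11,k1)],[(k5,k1),(k8,k1)],[(k4,k1)]]
    [] k0
    [[k1,k0,k0,k1,k0,k0],[k0,k1,k0,k0,k1,k0],[k0,k0,k1,k0,k0,k1]]
    [.ref k1 k0 [(z1,[z1])],.ref k3 k0 [(z1,[y1,z1])],.ref k0 k0 [(z1,[y1,z1])]])]⟩

/-- classes `0 1 2 0 1 2`, types `B0 C0 S0 B1 C0 S0` -/
noncomputable def cU6_2428 : CertX :=
  ⟨[k8,k20,k32,k9,k20,k32],[(false,k0,[k0,k1,k2,k3,k4,k5])],[[[([z1,z0,z0,z0,z1,z1],z2)],[([z1,z0,z0,z1,z0,z0],z2)],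
    [([z1,z0,z1,z0,z1,z0],z2)],[]]],
    [.old (.leafM k0 [k0,k1,k2,k3,k4,k5] [(z1,[y1,z1])] []),
    .old (.leafM k2 [k1,k2,k4,k5] [] [(k3,k0,z1,[z1]),(k0,k3,z1,[z1])]),
    .old (.leafM k1 [k0,k1,k2,k3,k4,k5] [(z1,[y1,z1]),(z1,[z1])] []),
    .old (.lp [k2,k4,k2,k2,k2,k2] [k1,k1,k0,k0,k1,k1,k1,k1,k1,k1,k1,k1] k0 [] k8 k5
    [[(k1,k2),(k4,k2),(k7,k2),(k10,k2)],[(k6,k2),(k9,k2)],[(k6,k3),(k9,k3)],[(k5,k3),(k11,k3)],[(k8,k2),(k2,k3)],[(k1,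
    k2),(k4,k2),(k7,k2),(k10,k2)],[(k1,k2),(k4,k2),(k7,k2),(k10,k2)],[(k0,k2),(k3,k3)],[(k0,k2),(k3,k3)],[(k5,k2),
    (k11,k2)],[(k8,k2),(k2,k3)],[(k1,k2),(k4,k2),(k7,k2),(k10,k2)]]
    [] k0
    [[k1,k0,k1,k0,k1,k0],[k1,k0,k0,k1,k0,k0],[k1,k0,k0,k0,k1,k1]]
    [.ref k2 k0 [(z1,[z1])],.ref k1 k0 [(z1,[z1])],.ref k0 k0 [(z1,[z1])]])]⟩

/-- classes `0 1 2 0 1 2`, types `B0 C0 S0 B1 C2 S0` -/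
noncomputable def cU6_2429 : CertX :=
  ⟨[k8,k20,k32,k9,k22,k32],[(false,k0,[k0,k1,k2,k3,k4,k5])],[[[([z1,z1,z0,z1,z1,z0],z2)],[([z1,z0,z1,z1,z0,z1],z2)],
    [([z1,z0,z0,z0,z1,z1],z2)],[([z1,z0,z0,z1,z0,z0],z2)],[]]],
    [.old (.leafM k6 [k0,k1,k3,k4] [] [(k2,k5,z1,[y1,z1]),(k5,k2,z1,[y1,z1])]),
    .old (.leafM k2 [k2,k3,k5,k0] [] [(k4,k1,z1,[y1,z1]),(k1,k4,z1,[y1,z1])]),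
    .old (.leafM k0 [k0,k1,k2,k3,k4,k5] [(z1,[y1,z1])] []),
    .old (.leafM k2 [k1,k2,k4,k5] [] [(k3,k0,z1,[z1]),(k0,k3,z1,[z1])]),
    .old (.lp [k2,k4,k2,k2,k2,k2] [k1,k1,k0,k0,k1,k1,k1,k1,k1,k1,k1,k1] k0 [] k8 k5
    [[(k1,k2),(k4,k2),(k7,k2),(k10,k2)],[(k6,k2),(k9,k2)],[(k6,k3),(k9,k3)],[(k5,k3),(k8,k3)],[(k11,k2),(k2,k3)],[(k1,
    k2),(k4,k2),(k7,k2),(k10,k2)],[(k1,k2),(k4,k2),(k7,k2),(k10,k2)],[(k0,k2),(k3,k3)],[(k0,k2),(k3,k3)],[(k11,k2),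
    (k2,k3)],[(k5,k2),(k8,k2)],[(k1,k2),(k4,k2),(k7,k2),(k10,k2)]]
    [] k0
    [[k1,k0,k0,k1,k0,k0],[k1,k0,k0,k0,k1,k1],[k0,k1,k0,k0,k1,k0],[k0,k0,k1,k0,k0,k1]]
    [.ref k3 k0 [(z1,[z1])],.ref k2 k0 [(z1,[z1])],.ref k1 k0 [(z1,[y1,z1])],.ref k0 k0 [(z1,[y1,z1])]])]⟩

/-- classes `0 1 2 0 1 2`, types `B0 N0 N0 B1 N1 N1` -/
noncomputable def cU6_2430 : CertX :=
  ⟨[k8,k28,k44,k9,k29,k45],[(false,k0,[k0,k1,k2,k3,k4,k5])],[[[([z1,z0,z1,z0,z1,z0],z2)],[]]],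
    [.old (.leafM k1 [k0,k1,k2,k3,k4,k5] [(z1,[y1,z1]),(z1,[z1])] []),
    .old (.lp [k2,k4,k2,k4,k2,k0] [k1,k1,k0,k0,k1,k1,k0,k0,k1,k1,k2,k2] k0 [] k8 k5
    [[(k4,k2)],[(k9,k2),(k6,k3)],[(k9,k3),(k6,k4)],[(k11,k2)],[(k8,k2)],[(k1,k2)],[(k10,k2)],[(k0,k3),(k3,k4)],[(k0,
    k2),(k3,k3)],[(k5,k2)],[(k2,k2)],[(k7,k2)]]
    [] k0
    [[k1,k0,k1,k0,k1,k0]]
    [.ref k0 k0 [(z1,[z1])]])]⟩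

/-- classes `0 1 2 0 1 2`, types `B0 N0 N0 B1 N1 N2` -/
noncomputable def cU6_2431 : CertX :=
  ⟨[k8,k28,k44,k9,k29,k46],[(false,k0,[k0,k1,k2,k3,k4,k5])],[[[([z1,z0,z0,z1,z0,z0],z2)],[]]],
    [.old (.leafM k6 [k1,k2,k4,k5] [] [(k3,k0,z1,[z1]),(k0,k3,z1,[z1])]),
    .old (.lp [k0,k0,k0,k2,k2,k2] [k1,k1,k1,k1,k1,k1,k0,k0,k0,k0,k0,k0] k0 [] k4 k5
    [[(k7,k1)],[(k6,k1),(k9,k1)],[(k6,k1),(k9,k1)],[(k11,k1)],[(k8,k1)],[(k10,k1)],[(k1,k1)],[(k0,k1),(k3,k1)],[(k0,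
    k1),(k3,k1)],[(k5,k1)],[(k2,k1)],[(k4,k1)]]
    [] k0
    [[k1,k0,k0,k1,k0,k0]]
    [.ref k0 k0 [(z1,[z1])]])]⟩

/-- classes `0 1 2 0 1 2`, types `B0 N0 N0 B1 N2 N2` -/
noncomputable def cU6_2432 : CertX :=
  ⟨[k8,k28,k44,k9,k30,k46],[(true,k1,[k1,k0,k5,k4,k3,k2]),(false,k0,[k0,k1,k2,k3,k4,k5])],[[[([z1,z1,z0,z1,z1,z0],
    z2)],[([z1,z0,z0,z1,z0,z0],z1),([z0,z1,z0,z0,z1,z0],z2)],[([z1,z0,z0,z1,z0,z0],z2)],[]]],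
    [.old (.leafM k6 [k0,k1,k3,k4] [] [(k2,k5,z1,[y1,z1]),(k5,k2,z1,[y1,z1])]),
    .old (.leafM k7 [k0,k2,k3,k5] [(z1,[y1,y1,z1])] [(k1,k4,z1,[z0,z1]),(k4,k1,z1,[z0,z1])]),
    .old (.lp [k0,k0,k10,k20,k8,k0] [k10,k10,k10,k10,k5,k5,k0,k0,k6,k6,k10,k10] k0 [] k20 k6
    [[(k7,k10)],[(k9,k4),(k6,k10)],[(k9,k4),(k6,k10)],[(k8,k4)],[(k11,k5)],[(k10,k5)],[(k1,k10)],[(k0,k10),(k3,k10)],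
    [(k0,k4),(k3,k4)],[(k2,k4)],[(k5,k5)],[(k4,k5)]]
    [] k0
    [[k0,k1,k0,k0,k1,k0],[k0,k2,k0,k0,k2,k0],[k0,k0,k1,k0,k0,k1]]
    [.contra [y1,y1,z1],.ref k1 k0 [(z2,[z1]),(z1,[z0,z1])],.contra [y1,y1,z1]]),
    .old (.lp [k0,k0,k2,k2,k2,k0] [k1,k1,k1,k1,k0,k0,k0,k0,k0,k0,k1,k1] k0 [] k4 k5
    [[(k7,k1)],[(k6,k1),(k9,k1)],[(k6,k1),(k9,k1)],[(k8,k1)],[(k11,k1)],[(k10,k1)],[(k1,k1)],[(k0,k1),(k3,k1)],[(k0,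
    k1),(k3,k1)],[(k2,k1)],[(k5,k1)],[(k4,k1)]]
    [] k0
    [[k1,k0,k0,k1,k0,k0],[k0,k1,k0,k0,k1,k0],[k0,k0,k1,k0,k0,k1]]
    [.ref k2 k1 [(z1,[z1])],.ref k2 k0 [(z1,[z1])],.ref k0 k1 [(z1,[y1,z1])]])]⟩

/-- classes `0 1 2 0 1 2`, types `B0 N0 S0 B1 N1 S0` -/
noncomputable def cU6_2433 : CertX :=
  ⟨[k8,k28,k32,k9,k29,k32],[(false,k0,[k0,k1,k2,k3,k4,k5])],[[[([z1,z0,z1,z0,z1,z0],z2)],[([z1,z0,z0,z1,z0,z0],z2)],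
    []]],
    [.old (.leafM k1 [k0,k1,k2,k3,k4,k5] [(z1,[y1,z1]),(z1,[z1])] []),
    .old (.leafM k6 [k1,k2,k4,k5] [] [(k3,k0,z1,[z1]),(k0,k3,z1,[z1])]),
    .old (.lp [k4,k2,k2,k2,k2,k2] [k0,k0,k1,k1,k1,k1,k1,k1,k1,k1,k1,k1] k0 [] k8 k5
    [[(k4,k3),(k7,k3),(k10,k3),(k1,k4)],[(k6,k3),(k9,k3)],[(k6,k2),(k9,k2)],[(k11,k2)],[(k8,k2)],[(k4,k2),(k7,k2),
    (k10,k2),(k1,k3)],[(k4,k2),(k7,k2),(k10,k2),(k1,k3)],[(k3,k2),(k0,k3)],[(k3,k2),(k0,k3)],[(k5,k2)],[(k2,k2)],[(k4,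
    k2),(k7,k2),(k10,k2),(k1,k3)]]
    [] k0
    [[k1,k0,k0,k1,k0,k0],[k0,k1,k0,k1,k0,k1]]
    [.ref k1 k0 [(z1,[z1])],.ref k0 k0 [(z1,[y1,z1])]])]⟩

/-- classes `0 1 2 0 1 2`, types `B0 N0 S0 B1 N2 S0` -/
noncomputable def cU6_2434 : CertX :=
  ⟨[k8,k28,k32,k9,k30,k32],[(false,k0,[k0,k1,k2,k3,k4,k5])],[[[([z1,z1,z0,z1,z1,z0],z2)],[([z1,z0,z1,z1,z0,z1],z2)],
    [([z1,z0,z0,z1,z0,z0],z2),([z0,z1,z0,z0,z1,z0],z1)],[([z1,z0,z0,z1,z0,z0],z2)],[]]],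
    [.old (.leafM k6 [k0,k1,k3,k4] [] [(k2,k5,z1,[y1,z1]),(k5,k2,z1,[y1,z1])]),
    .old (.leafM k2 [k2,k3,k5,k0] [] [(k4,k1,z1,[y1,z1]),(k1,k4,z1,[y1,z1])]),
    .old (.leafM k7 [k1,k2,k4,k5] [(z1,[y1,y1,z1])] [(k3,k0,z1,[z1]),(k0,k3,z1,[z1])]),
    .old (.lp [k16,k4,k4,k4,k4,k6] [k0,k0,k6,k6,k6,k6,k6,k6,k6,k6,k5,k5] k0 [] k20 k6
    [[(k4,k10),(k7,k10),(k10,k11),(k1,k16)],[(k6,k10),(k9,k10)],[(k6,k4),(k9,k4)],[(k8,k4)],[(k11,k5)],[(k4,k4),(k7,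
    k4),(k10,k5),(k1,k10)],[(k4,k4),(k7,k4),(k10,k5),(k1,k10)],[(k3,k4),(k0,k10)],[(k3,k4),(k0,k10)],[(k2,k4)],[(k5,
    k5)],[(k4,k5),(k7,k5),(k10,k6),(k1,k11)]]
    [] k0
    [[k0,k1,k0,k0,k1,k0],[k0,k2,k0,k0,k2,k0],[k0,k0,k1,k0,k0,k1]]
    [.contra [y1,y1,z1],.ref k2 k0 [(z1,[z0,z1]),(z2,[z1])],.contra [y1,y1,z1]]),
    .old (.lp [k2,k2,k2,k2,k2,k2] [k0,k0,k0,k0,k0,k0,k0,k0,k0,k0,k0,k0] k0 [] k8 k5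
    [[(k1,k2),(k4,k2),(k7,k2),(k10,k2)],[(k6,k2),(k9,k2)],[(k6,k2),(k9,k2)],[(k8,k2)],[(k11,k2)],[(k1,k2),(k4,k2),(k7,
    k2),(k10,k2)],[(k1,k2),(k4,k2),(k7,k2),(k10,k2)],[(k0,k2),(k3,k2)],[(k0,k2),(k3,k2)],[(k2,k2)],[(k5,k2)],[(k1,k2),
    (k4,k2),(k7,k2),(k10,k2)]]
    [] k0
    [[k1,k0,k0,k1,k0,k0],[k0,k1,k0,k0,k1,k0],[k0,k0,k1,k0,k0,k1]]
    [.ref k3 k0 [(z1,[z1])],.ref k1 k0 [(z1,[y1,z1])],.ref k0 k0 [(z1,[y1,z1])]])]⟩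

/-- the certificates of this file -/
noncomputable def lU6_35 : List CertX :=
  [cU6_2289, cU6_2290, cU6_2291, cU6_2292, cU6_2293, cU6_2294, cU6_2295, cU6_2296, cU6_2297, cU6_2298,
      cU6_2299, cU6_2300, cU6_2301, cU6_2302, cU6_2303, cU6_2304, cU6_2305, cU6_2306, cU6_2307, cU6_2308,
      cU6_2309, cU6_2310, cU6_2311, cU6_2312, cU6_2313, cU6_2314, cU6_2315, cU6_2316, cU6_2317, cU6_2318,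
      cU6_2319, cU6_2320, cU6_2321, cU6_2322, cU6_2323, cU6_2324, cU6_2325, cU6_2326, cU6_2327, cU6_2328,
      cU6_2329, cU6_2330, cU6_2331, cU6_2332, cU6_2333, cU6_2334, cU6_2335, cU6_2336, cU6_2337, cU6_2338,
      cU6_2339, cU6_2340, cU6_2341, cU6_2342, cU6_2343, cU6_2344, cU6_2345, cU6_2346, cU6_2347, cU6_2348,
      cU6_2349, cU6_2350, cU6_2351, cU6_2352, cU6_2353, cU6_2354, cU6_2355, cU6_2356, cU6_2357, cU6_2358,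
      cU6_2359, cU6_2360, cU6_2361, cU6_2362, cU6_2363, cU6_2364, cU6_2365, cU6_2366, cU6_2367, cU6_2368,
      cU6_2369, cU6_2370, cU6_2371, cU6_2372, cU6_2373, cU6_2374, cU6_2375, cU6_2376, cU6_2377, cU6_2378,
      cU6_2379, cU6_2380, cU6_2381, cU6_2382, cU6_2383, cU6_2384, cU6_2385, cU6_2386, cU6_2387, cU6_2388,
      cU6_2389, cU6_2390, cU6_2391, cU6_2392, cU6_2393, cU6_2394, cU6_2395, cU6_2396, cU6_2397, cU6_2398,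
      cU6_2399, cU6_2400, cU6_2401, cU6_2402, cU6_2403, cU6_2404, cU6_2405, cU6_2406, cU6_2407, cU6_2408,
      cU6_2409, cU6_2410, cU6_2411, cU6_2412, cU6_2413, cU6_2414, cU6_2415, cU6_2416, cU6_2417, cU6_2418,
      cU6_2419, cU6_2420, cU6_2421, cU6_2422, cU6_2423, cU6_2424, cU6_2425, cU6_2426, cU6_2427, cU6_2428,
      cU6_2429, cU6_2430, cU6_2431, cU6_2432, cU6_2433, cU6_2434]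

theorem gU6_35 : allF (chkE 6 ttU6) lU6_35 = true := by
  decide +kernel

end Pool.Agent.Lib_MP_fa6e45
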