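import Pool.Agent.Lib_MP_fa6e45.CXT
import Pool.Agent.Lib_MP_fa6e45.HK

/-!
MP_fa6e45_co, stage 7: certificates (generated by a program).
-/

namespace Pool.Agent.Lib_MP_fa6e45

/-- classes `0 1 2 0 1 2`, types `B0 S0 S0 B1 S0 S0` -/
noncomputable def cU6_2435 : CertX :=
  ⟨[k8,k16,k32,k9,k16,k32],[(false,k0,[k0,k1,k2,k3,k4,k5]),(true,k1,[k1,k0,k5,k4,k3,k2])],[[[([z1,z1,z0,z1,z1,z0],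
    z2)],[([z1,z0,z0,z1,z0,z0],z2)],[([z1,z0,z1,z0,z1,z0],z2)],[([z1,z0,z0,z0,z1,z1],z2)],[]]],
    [.old (.leafM k6 [k0,k1,k3,k4] [] [(k2,k5,z1,[y1,z1]),(k5,k2,z1,[y1,z1])]),
    .old (.leafM k2 [k1,k2,k4,k5] [] [(k3,k0,z1,[z1]),(k0,k3,z1,[z1])]),
    .old (.leafM k1 [k0,k1,k2,k3,k4,k5] [(z1,[y1,z1]),(z1,[z1])] []),
    .old (.leafM k0 [k0,k1,k2,k3,k4,k5] [(z1,[y1,z1])] []),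
    .old (.lp [k2,k2,k4,k2,k2,k2] [k1,k1,k1,k1,k0,k0,k1,k1,k1,k1,k1,k1] k0 [] k8 k5
    [[(k1,k2),(k7,k2),(k10,k2),(k4,k3)],[(k6,k2),(k9,k2)],[(k6,k2),(k9,k2)],[(k2,k2),(k8,k2),(k11,k2),(k5,k3)],[(k2,
    k3),(k8,k3),(k11,k3),(k5,k4)],[(k1,k3),(k7,k3),(k10,k3),(k4,k4)],[(k1,k2),(k7,k2),(k10,k2),(k4,k3)],[(k0,k2),(k3,
    k2)],[(k0,k2),(k3,k2)],[(k2,k2),(k8,k2),(k11,k2),(k5,k3)],[(k2,k2),(k8,k2),(k11,k2),(k5,k3)],[(k1,k2),(k7,k2),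
    (k10,k2),(k4,k3)]]
    [] k0
    [[k1,k0,k0,k1,k0,k0],[k1,k0,k0,k0,k1,k1],[k0,k1,k0,k1,k0,k1],[k0,k1,k0,k0,k1,k0],[k0,k0,k1,k0,k0,k1],[k0,k0,k0,k0,
    k0,k2]]
    [.ref k1 k0 [(z1,[z1])],.ref k3 k0 [(z1,[z1])],.ref k2 k0 [(z1,[y1,z1])],.ref k1 k1 [(z1,[z1])],.ref k0 k0 [(z1,
    [y1,z1])],.contra [z1]])]⟩

/-- classes `0 1 2 0 1 2`, types `C0 C0 C0 C0 C0 C0` -/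
noncomputable def cU6_2436 : CertX :=
  ⟨[k4,k20,k36,k4,k20,k36],[(false,k1,[k1,k2,k3,k4,k5,k0]),(false,k0,[k0,k1,k2,k3,k4,k5]),(false,k2,[k2,k3,k4,k5,k0,
    k1])],[[[([z1,z0,z0,z0,z1,z1],z2)],[([z1,z0,z1,z0,z1,z0],z2)],[]]],
    [.old (.leafM k0 [k0,k1,k2,k3,k4,k5] [(z1,[y1,z1])] []),
    .old (.leafM k1 [k0,k1,k2,k3,k4,k5] [(z1,[y1,z1]),(z1,[z1])] []),
    .old (.lp [k6,k4,k4,k4,k6,k6] [k0,k0,k1,k1,k1,k1,k1,k1,k0,k0,k0,k0] k0 [] k16 k5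
    [[(k4,k5),(k10,k6)],[(k3,k5),(k9,k6)],[(k6,k4),(k0,k5)],[(k5,k4),(k11,k5)],[(k2,k4),(k8,k5)],[(k7,k4),(k1,k5)],
    [(k4,k4),(k10,k5)],[(k3,k4),(k9,k5)],[(k6,k5),(k0,k6)],[(k5,k5),(k11,k6)],[(k2,k5),(k8,k6)],[(k7,k5),(k1,k6)]]
    [] k0
    [[k1,k1,k1,k0,k0,k0],[k0,k1,k1,k1,k0,k0],[k0,k1,k0,k1,k0,k1],[k0,k0,k1,k1,k1,k0]]
    [.ref k0 k0 [(z1,[y1,z1])],.ref k0 k1 [(z1,[y1,z1])],.ref k1 k1 [(z1,[y1,z1])],.ref k0 k2 [(z1,[z1])]])]⟩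

/-- classes `0 1 2 0 1 2`, types `C0 C0 C0 C0 C0 C2` -/
noncomputable def cU6_2437 : CertX :=
  ⟨[k4,k20,k36,k4,k20,k38],[(false,k0,[k0,k1,k2,k3,k4,k5]),(true,k2,[k2,k1,k0,k5,k4,k3])],[[[([z1,z0,z0,z0,z1,z1],
    z2)],[]]],
    [.old (.leafM k0 [k0,k1,k2,k3,k4,k5] [(z1,[y1,z1])] []),
    .old (.lp [k4,k2,k2,k2,k2,k2] [k0,k0,k1,k1,k1,k1,k1,k1,k1,k1,k1,k1] k0 [] k8 k5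
    [[(k7,k3),(k10,k3)],[(k3,k3),(k9,k3)],[(k6,k2),(k0,k3)],[(k5,k2),(k11,k2)],[(k2,k2),(k8,k2)],[(k7,k2),(k10,k2)],
    [(k4,k2),(k1,k3)],[(k3,k2),(k9,k2)],[(k6,k2),(k0,k3)],[(k5,k2),(k11,k2)],[(k2,k2),(k8,k2)],[(k4,k2),(k1,k3)]]
    [] k0
    [[k0,k1,k1,k1,k0,k0],[k0,k0,k1,k1,k1,k0]]
    [.ref k0 k0 [(z1,[y1,z1])],.ref k0 k1 [(z1,[z1])]])]⟩

/-- classes `0 1 2 0 1 2`, types `C0 C0 C0 C0 C2 C2` -/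
noncomputable def cU6_2438 : CertX :=
  ⟨[k4,k20,k36,k4,k22,k38],[(false,k0,[k0,k1,k2,k3,k4,k5])],[[[([z1,z1,z0,z1,z1,z0],z2)],[([z1,z0,z0,z0,z1,z1],z2)],
    []]],
    [.old (.leafM k2 [k0,k1,k3,k4] [] [(k2,k5,z1,[y1,z1]),(k5,k2,z1,[y1,z1])]),
    .old (.leafM k0 [k0,k1,k2,k3,k4,k5] [(z1,[y1,z1])] []),
    .old (.lp [k4,k2,k2,k2,k2,k2] [k0,k0,k1,k1,k1,k1,k1,k1,k1,k1,k1,k1] k0 [] k8 k5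
    [[(k7,k3),(k10,k3)],[(k3,k3),(k9,k3)],[(k6,k2),(k0,k3)],[(k5,k2),(k8,k2)],[(k2,k2),(k11,k2)],[(k7,k2),(k10,k2)],
    [(k4,k2),(k1,k3)],[(k3,k2),(k9,k2)],[(k6,k2),(k0,k3)],[(k2,k2),(k11,k2)],[(k5,k2),(k8,k2)],[(k4,k2),(k1,k3)]]
    [] k0
    [[k0,k1,k1,k1,k0,k0],[k0,k0,k1,k0,k0,k1]]
    [.ref k1 k0 [(z1,[y1,z1])],.ref k0 k0 [(z1,[y1,z1])]])]⟩

/-- classes `0 1 2 0 1 2`, types `C0 C0 C0 C2 C2 C2` -/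
noncomputable def cU6_2439 : CertX :=
  ⟨[k4,k20,k36,k6,k22,k38],[(false,k0,[k0,k1,k2,k3,k4,k5]),(false,k2,[k2,k3,k4,k5,k0,k1]),(false,k1,[k1,k2,k3,k4,k5,
    k0])],[[[([z1,z0,z0,z1,z0,z0],z2)],[]]],
    [.old (.leafM k2 [k1,k2,k4,k5] [] [(k3,k0,z1,[z1]),(k0,k3,z1,[z1])]),
    .old (.lp [k2,k0,k2,k0,k2,k0] [k0,k0,k1,k1,k0,k0,k1,k1,k0,k0,k1,k1] k0 [] k4 k5
    [[(k7,k1),(k10,k1)],[(k3,k1),(k6,k1)],[(k0,k1),(k9,k1)],[(k5,k1),(k8,k1)],[(k2,k1),(k11,k1)],[(k7,k1),(k10,k1)],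
    [(k1,k1),(k4,k1)],[(k0,k1),(k9,k1)],[(k3,k1),(k6,k1)],[(k2,k1),(k11,k1)],[(k5,k1),(k8,k1)],[(k1,k1),(k4,k1)]]
    [] k0
    [[k1,k0,k0,k1,k0,k0],[k0,k1,k0,k0,k1,k0],[k0,k0,k1,k0,k0,k1]]
    [.ref k0 k0 [(z1,[z1])],.ref k0 k1 [(z1,[z1])],.ref k0 k2 [(z1,[z1])]])]⟩

/-- classes `0 1 2 0 1 2`, types `C0 C0 N0 C0 C0 N1` -/
noncomputable def cU6_2440 : CertX :=
  ⟨[k4,k20,k44,k4,k20,k45],[(false,k0,[k0,k1,k2,k3,k4,k5])],[[[([z1,z0,z1,z0,z1,z0],z2)],[([z1,z1,z1,z0,z0,z0],z2)],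
    []]],
    [.old (.leafM k1 [k0,k1,k2,k3,k4,k5] [(z1,[y1,z1]),(z1,[z1])] []),
    .old (.leafM k0 [k2,k3,k4,k5,k0,k1] [(z1,[y1,z1])] []),
    .old (.lp [k2,k2,k2,k2,k4,k2] [k1,k1,k1,k1,k1,k1,k1,k1,k0,k0,k1,k1] k0 [] k8 k5
    [[(k4,k2)],[(k3,k2),(k9,k3)],[(k0,k2),(k6,k2)],[(k5,k2),(k11,k2)],[(k2,k2),(k8,k3)],[(k1,k2)],[(k10,k2)],[(k3,k2),
    (k9,k3)],[(k0,k3),(k6,k3)],[(k5,k3),(k11,k3)],[(k2,k2),(k8,k3)],[(k7,k2)]]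
    [] k0
    [[k1,k1,k1,k0,k0,k0],[k0,k1,k0,k1,k0,k1]]
    [.ref k1 k0 [(z1,[z1])],.ref k0 k0 [(z1,[y1,z1])]])]⟩

/-- classes `0 1 2 0 1 2`, types `C0 C0 N0 C0 C0 N2` -/
noncomputable def cU6_2441 : CertX :=
  ⟨[k4,k20,k44,k4,k20,k46],[],[[[]]],
    [.old (.lp [k2,k2,k2,k2,k2,k2] [k0,k0,k0,k0,k0,k0,k0,k0,k0,k0,k0,k0] k0 [] k8 k5
    [[(k7,k2)],[(k3,k2),(k9,k2)],[(k0,k2),(k6,k2)],[(k5,k2),(k11,k2)],[(k2,k2),(k8,k2)],[(k10,k2)],[(k1,k2)],[(k3,k2),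
    (k9,k2)],[(k0,k2),(k6,k2)],[(k5,k2),(k11,k2)],[(k2,k2),(k8,k2)],[(k4,k2)]]
    [] k0
    []
    [])]⟩

/-- classes `0 1 2 0 1 2`, types `C0 C0 N0 C0 C2 N1` -/
noncomputable def cU6_2442 : CertX :=
  ⟨[k4,k20,k44,k4,k22,k45],[(false,k0,[k0,k1,k2,k3,k4,k5])],[[[([z1,z1,z1,z0,z0,z0],z2)],[]]],
    [.old (.leafM k0 [k2,k3,k4,k5,k0,k1] [(z1,[y1,z1])] []),
    .old (.lp [k2,k2,k2,k4,k2,k2] [k1,k1,k1,k1,k1,k1,k0,k0,k1,k1,k1,k1] k0 [] k8 k5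
    [[(k4,k2)],[(k3,k2),(k9,k2)],[(k0,k2),(k6,k3)],[(k5,k2),(k8,k2)],[(k2,k2),(k11,k2)],[(k1,k2)],[(k10,k3)],[(k3,k3),
    (k9,k3)],[(k0,k2),(k6,k3)],[(k2,k2),(k11,k2)],[(k5,k2),(k8,k2)],[(k7,k3)]]
    [] k0
    [[k1,k1,k1,k0,k0,k0]]
    [.ref k0 k0 [(z1,[z1])]])]⟩

/-- classes `0 1 2 0 1 2`, types `C0 C0 N0 C0 C2 N2` -/
noncomputable def cU6_2443 : CertX :=
  ⟨[k4,k20,k44,k4,k22,k46],[(false,k0,[k0,k1,k2,k3,k4,k5])],[[[([z1,z1,z0,z1,z1,z0],z2)],[]]],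
    [.old (.leafM k2 [k0,k1,k3,k4] [] [(k2,k5,z1,[y1,z1]),(k5,k2,z1,[y1,z1])]),
    .old (.lp [k2,k2,k2,k2,k2,k2] [k0,k0,k0,k0,k0,k0,k0,k0,k0,k0,k0,k0] k0 [] k8 k5
    [[(k7,k2)],[(k3,k2),(k9,k2)],[(k0,k2),(k6,k2)],[(k5,k2),(k8,k2)],[(k2,k2),(k11,k2)],[(k10,k2)],[(k1,k2)],[(k3,k2),
    (k9,k2)],[(k0,k2),(k6,k2)],[(k2,k2),(k11,k2)],[(k5,k2),(k8,k2)],[(k4,k2)]]
    [] k0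
    [[k0,k0,k1,k0,k0,k1]]
    [.ref k0 k0 [(z1,[y1,z1])]])]⟩

/-- classes `0 1 2 0 1 2`, types `C0 C0 N0 C2 C2 N1` -/
noncomputable def cU6_2444 : CertX :=
  ⟨[k4,k20,k44,k6,k22,k45],[(false,k0,[k0,k1,k2,k3,k4,k5])],[[[([z1,z1,z1,z0,z0,z0],z2)],[([z1,z0,z1,z1,z0,z1],z2)],
    []]],
    [.old (.leafM k0 [k2,k3,k4,k5,k0,k1] [(z1,[y1,z1])] []),
    .old (.leafM k6 [k2,k3,k5,k0] [] [(k4,k1,z1,[y1,z1]),(k1,k4,z1,[y1,z1])]),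
    .old (.lp [k4,k2,k2,k2,k2,k2] [k0,k0,k1,k1,k1,k1,k1,k1,k1,k1,k1,k1] k0 [] k8 k5
    [[(k4,k3)],[(k3,k3),(k6,k3)],[(k9,k2),(k0,k3)],[(k5,k2),(k8,k2)],[(k2,k2),(k11,k2)],[(k1,k3)],[(k10,k2)],[(k9,k2),
    (k0,k3)],[(k3,k2),(k6,k2)],[(k2,k2),(k11,k2)],[(k5,k2),(k8,k2)],[(k7,k2)]]
    [] k0
    [[k0,k1,k0,k0,k1,k0],[k0,k0,k0,k1,k1,k1]]
    [.ref k1 k0 [(z1,[y1,z1])],.ref k0 k0 [(z1,[y1,z1])]])]⟩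

/-- classes `0 1 2 0 1 2`, types `C0 C0 N0 C2 C2 N2` -/
noncomputable def cU6_2445 : CertX :=
  ⟨[k4,k20,k44,k6,k22,k46],[(false,k0,[k0,k1,k2,k3,k4,k5]),(true,k2,[k2,k1,k0,k5,k4,k3])],[[[([z1,z0,z0,z1,z0,z0],
    z2)],[([z1,z0,z0,z1,z0,z0],z1),([z0,z1,z0,z0,z1,z0],z2)],[([z1,z0,z1,z1,z0,z1],z2)],[]]],
    [.old (.leafM k2 [k1,k2,k4,k5] [] [(k3,k0,z1,[z1]),(k0,k3,z1,[z1])]),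
    .old (.leafM k7 [k0,k2,k3,k5] [(z1,[y1,y1,z1])] [(k1,k4,z1,[z0,z1]),(k4,k1,z1,[z0,z1])]),
    .old (.lp [k8,k8,k0,k0,k12,k10] [k2,k2,k2,k2,k6,k6,k6,k6,k0,k0,k1,k1] k0 [] k20 k6
    [[(k7,k4)],[(k6,k4),(k3,k8)],[(k0,k8),(k9,k10)],[(k5,k4),(k8,k10)],[(k2,k4),(k11,k5)],[(k10,k5)],[(k1,k4)],[(k0,
    k4),(k9,k6)],[(k6,k6),(k3,k10)],[(k2,k10),(k11,k11)],[(k5,k5),(k8,k11)],[(k4,k5)]]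
    [] k0
    [[k1,k0,k0,k1,k0,k0],[k2,k0,k0,k2,k0,k0],[k0,k0,k1,k0,k0,k1]]
    [.contra [y1,z1],.ref k1 k0 [(z2,[z1]),(z1,[z0,y1,z1])],.contra [y1,z1]]),
    .old (.lp [k2,k0,k2,k0,k2,k0] [k0,k0,k1,k1,k0,k0,k1,k1,k0,k0,k1,k1] k0 [] k4 k5
    [[(k7,k1)],[(k3,k1),(k6,k1)],[(k0,k1),(k9,k1)],[(k5,k1),(k8,k1)],[(k2,k1),(k11,k1)],[(k10,k1)],[(k1,k1)],[(k0,k1),
    (k9,k1)],[(k3,k1),(k6,k1)],[(k2,k1),(k11,k1)],[(k5,k1),(k8,k1)],[(k4,k1)]]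
    [] k0
    [[k1,k0,k0,k1,k0,k0],[k0,k1,k0,k0,k1,k0],[k0,k0,k1,k0,k0,k1]]
    [.ref k0 k0 [(z1,[z1])],.ref k2 k0 [(z1,[y1,z1])],.ref k0 k1 [(z1,[z1])]])]⟩

/-- classes `0 1 2 0 1 2`, types `C0 C0 S0 C0 C0 S0` -/
noncomputable def cU6_2446 : CertX :=
  ⟨[k4,k20,k32,k4,k20,k32],[(false,k0,[k0,k1,k2,k3,k4,k5]),(true,k2,[k2,k1,k0,k5,k4,k3])],[[[([z1,z1,z1,z0,z0,z0],
    z2)],[([z1,z0,z0,z0,z1,z1],z2)],[([z1,z0,z1,z0,z1,z0],z2)],[]]],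
    [.old (.leafM k0 [k2,k3,k4,k5,k0,k1] [(z1,[y1,z1])] []),
    .old (.leafM k0 [k0,k1,k2,k3,k4,k5] [(z1,[y1,z1])] []),
    .old (.leafM k1 [k0,k1,k2,k3,k4,k5] [(z1,[y1,z1]),(z1,[z1])] []),
    .old (.lp [k2,k4,k2,k2,k2,k2] [k1,k1,k0,k0,k1,k1,k1,k1,k1,k1,k1,k1] k0 [] k8 k5
    [[(k1,k2),(k4,k2),(k7,k2),(k10,k2)],[(k9,k2),(k3,k3)],[(k0,k3),(k6,k3)],[(k5,k3),(k11,k3)],[(k8,k2),(k2,k3)],[(k1,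
    k2),(k4,k2),(k7,k2),(k10,k2)],[(k1,k2),(k4,k2),(k7,k2),(k10,k2)],[(k9,k2),(k3,k3)],[(k0,k2),(k6,k2)],[(k5,k2),
    (k11,k2)],[(k8,k2),(k2,k3)],[(k1,k2),(k4,k2),(k7,k2),(k10,k2)]]
    [] k0
    [[k1,k0,k1,k0,k1,k0],[k1,k0,k0,k0,k1,k1],[k0,k0,k1,k1,k1,k0],[k0,k0,k0,k1,k1,k1]]
    [.ref k2 k0 [(z1,[z1])],.ref k1 k0 [(z1,[z1])],.ref k1 k1 [(z1,[z1])],.ref k0 k0 [(z1,[y1,z1])]])]⟩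

/-- classes `0 1 2 0 1 2`, types `C0 C0 S0 C0 C2 S0` -/
noncomputable def cU6_2447 : CertX :=
  ⟨[k4,k20,k32,k4,k22,k32],[(false,k0,[k0,k1,k2,k3,k4,k5])],[[[([z1,z1,z0,z1,z1,z0],z2)],[([z1,z0,z0,z0,z1,z1],z2)],
    [([z1,z1,z1,z0,z0,z0],z2)],[]]],
    [.old (.leafM k2 [k0,k1,k3,k4] [] [(k2,k5,z1,[y1,z1]),(k5,k2,z1,[y1,z1])]),
    .old (.leafM k0 [k0,k1,k2,k3,k4,k5] [(z1,[y1,z1])] []),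
    .old (.leafM k0 [k2,k3,k4,k5,k0,k1] [(z1,[y1,z1])] []),
    .old (.lp [k2,k2,k2,k2,k2,k4] [k1,k1,k1,k1,k1,k1,k1,k1,k1,k1,k0,k0] k0 [] k8 k5
    [[(k1,k2),(k4,k2),(k7,k2),(k10,k3)],[(k3,k2),(k9,k2)],[(k0,k2),(k6,k2)],[(k5,k2),(k8,k2)],[(k2,k2),(k11,k3)],[(k1,
    k2),(k4,k2),(k7,k2),(k10,k3)],[(k1,k2),(k4,k2),(k7,k2),(k10,k3)],[(k3,k2),(k9,k2)],[(k0,k2),(k6,k2)],[(k2,k2),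
    (k11,k3)],[(k5,k3),(k8,k3)],[(k1,k3),(k4,k3),(k7,k3),(k10,k4)]]
    [] k0
    [[k1,k1,k1,k0,k0,k0],[k0,k1,k1,k1,k0,k0],[k0,k0,k1,k0,k0,k1]]
    [.ref k2 k0 [(z1,[z1])],.ref k1 k0 [(z1,[y1,z1])],.ref k0 k0 [(z1,[y1,z1])]])]⟩

/-- classes `0 1 2 0 1 2`, types `C0 C0 S0 C2 C2 S0` -/
noncomputable def cU6_2448 : CertX :=
  ⟨[k4,k20,k32,k6,k22,k32],[(false,k0,[k0,k1,k2,k3,k4,k5]),(true,k2,[k2,k1,k0,k5,k4,k3])],[[[([z1,z1,z1,z0,z0,z0],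
    z2)],[([z1,z0,z0,z1,z0,z0],z2)],[([z1,z0,z1,z1,z0,z1],z2)],[]]],
    [.old (.leafM k0 [k2,k3,k4,k5,k0,k1] [(z1,[y1,z1])] []),
    .old (.leafM k2 [k1,k2,k4,k5] [] [(k3,k0,z1,[z1]),(k0,k3,z1,[z1])]),
    .old (.leafM k2 [k2,k3,k5,k0] [] [(k4,k1,z1,[y1,z1]),(k1,k4,z1,[y1,z1])]),
    .old (.lp [k4,k2,k2,k2,k2,k2] [k0,k0,k1,k1,k1,k1,k1,k1,k1,k1,k1,k1] k0 [] k8 k5
    [[(k4,k3),(k7,k3),(k10,k3),(k1,k4)],[(k3,k3),(k6,k3)],[(k9,k2),(k0,k3)],[(k5,k2),(k8,k2)],[(k2,k2),(k11,k2)],[(k4,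
    k2),(k7,k2),(k10,k2),(k1,k3)],[(k4,k2),(k7,k2),(k10,k2),(k1,k3)],[(k9,k2),(k0,k3)],[(k3,k2),(k6,k2)],[(k2,k2),
    (k11,k2)],[(k5,k2),(k8,k2)],[(k4,k2),(k7,k2),(k10,k2),(k1,k3)]]
    [] k0
    [[k1,k0,k0,k1,k0,k0],[k0,k1,k0,k0,k1,k0],[k0,k0,k1,k0,k0,k1],[k0,k0,k0,k1,k1,k1]]
    [.ref k1 k0 [(z1,[z1])],.ref k2 k0 [(z1,[y1,z1])],.ref k1 k1 [(z1,[z1])],.ref k0 k0 [(z1,[y1,z1])]])]⟩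

/-- classes `0 1 2 0 1 2`, types `C0 N0 N0 C0 N1 N1` -/
noncomputable def cU6_2449 : CertX :=
  ⟨[k4,k28,k44,k4,k29,k45],[(false,k0,[k0,k1,k2,k3,k4,k5])],[[[([z1,z0,z1,z0,z1,z0],z2)],[]]],
    [.old (.leafM k1 [k0,k1,k2,k3,k4,k5] [(z1,[y1,z1]),(z1,[z1])] []),
    .old (.lp [k2,k2,k2,k4,k2,k2] [k1,k1,k1,k1,k1,k1,k0,k0,k1,k1,k1,k1] k0 [] k8 k5
    [[(k4,k2)],[(k3,k2),(k9,k2)],[(k0,k2),(k6,k3)],[(k11,k2)],[(k8,k2)],[(k1,k2)],[(k10,k3)],[(k3,k3),(k9,k3)],[(k0,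
    k2),(k6,k3)],[(k5,k2)],[(k2,k2)],[(k7,k3)]]
    [] k0
    [[k1,k0,k1,k0,k1,k0]]
    [.ref k0 k0 [(z1,[z1])]])]⟩

/-- classes `0 1 2 0 1 2`, types `C0 N0 N0 C0 N1 N2` -/
noncomputable def cU6_2450 : CertX :=
  ⟨[k4,k28,k44,k4,k29,k46],[],[[[]]],
    [.old (.lp [k2,k2,k2,k2,k2,k2] [k0,k0,k0,k0,k0,k0,k0,k0,k0,k0,k0,k0] k0 [] k8 k5
    [[(k7,k2)],[(k3,k2),(k9,k2)],[(k0,k2),(k6,k2)],[(k11,k2)],[(k8,k2)],[(k10,k2)],[(k1,k2)],[(k3,k2),(k9,k2)],[(k0,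
    k2),(k6,k2)],[(k5,k2)],[(k2,k2)],[(k4,k2)]]
    [] k0
    []
    [])]⟩

/-- classes `0 1 2 0 1 2`, types `C0 N0 N0 C0 N2 N2` -/
noncomputable def cU6_2451 : CertX :=
  ⟨[k4,k28,k44,k4,k30,k46],[(false,k0,[k0,k1,k2,k3,k4,k5])],[[[([z1,z1,z0,z1,z1,z0],z2)],[]]],
    [.old (.leafM k2 [k0,k1,k3,k4] [] [(k2,k5,z1,[y1,z1]),(k5,k2,z1,[y1,z1])]),
    .old (.lp [k2,k2,k0,k2,k2,k4] [k1,k1,k1,k1,k2,k2,k1,k1,k1,k1,k0,k0] k0 [] k8 k5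
    [[(k7,k2)],[(k3,k2),(k9,k2)],[(k0,k2),(k6,k2)],[(k8,k2)],[(k11,k2)],[(k10,k2)],[(k1,k2)],[(k3,k2),(k9,k2)],[(k0,
    k2),(k6,k2)],[(k2,k2)],[(k5,k2)],[(k4,k2)]]
    [] k0
    [[k0,k0,k1,k0,k0,k1]]
    [.ref k0 k0 [(z1,[y1,z1])]])]⟩

/-- classes `0 1 2 0 1 2`, types `C0 N0 N0 C2 N1 N1` -/
noncomputable def cU6_2452 : CertX :=
  ⟨[k4,k28,k44,k6,k29,k45],[],[[[]]],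
    [.old (.lp [k2,k0,k0,k0,k2,k2] [k0,k0,k1,k1,k1,k1,k1,k1,k0,k0,k0,k0] k0 [] k4 k5
    [[(k4,k1)],[(k3,k1),(k6,k1)],[(k0,k1),(k9,k1)],[(k11,k1)],[(k8,k1)],[(k1,k1)],[(k10,k1)],[(k0,k1),(k9,k1)],[(k3,
    k1),(k6,k1)],[(k5,k1)],[(k2,k1)],[(k7,k1)]]
    [] k0
    []
    [])]⟩

/-- classes `0 1 2 0 1 2`, types `C0 N0 N0 C2 N1 N2` -/
noncomputable def cU6_2453 : CertX :=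
  ⟨[k4,k28,k44,k6,k29,k46],[(false,k0,[k0,k1,k2,k3,k4,k5])],[[[([z1,z0,z0,z1,z0,z0],z2)],[]]],
    [.old (.leafM k6 [k1,k2,k4,k5] [] [(k3,k0,z1,[z1]),(k0,k3,z1,[z1])]),
    .old (.lp [k2,k0,k0,k0,k2,k2] [k0,k0,k1,k1,k1,k1,k1,k1,k0,k0,k0,k0] k0 [] k4 k5
    [[(k7,k1)],[(k3,k1),(k6,k1)],[(k0,k1),(k9,k1)],[(k11,k1)],[(k8,k1)],[(k10,k1)],[(k1,k1)],[(k0,k1),(k9,k1)],[(k3,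
    k1),(k6,k1)],[(k5,k1)],[(k2,k1)],[(k4,k1)]]
    [] k0
    [[k1,k0,k0,k1,k0,k0]]
    [.ref k0 k0 [(z1,[z1])]])]⟩

/-- classes `0 1 2 0 1 2`, types `C0 N0 N0 C2 N2 N2` -/
noncomputable def cU6_2454 : CertX :=
  ⟨[k4,k28,k44,k6,k30,k46],[(true,k1,[k1,k0,k5,k4,k3,k2]),(false,k0,[k0,k1,k2,k3,k4,k5])],[[[([z1,z1,z0,z1,z1,z0],
    z2)],[([z1,z0,z0,z1,z0,z0],z1),([z0,z1,z0,z0,z1,z0],z2)],[([z1,z0,z0,z1,z0,z0],z2)],[]]],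
    [.old (.leafM k2 [k0,k1,k3,k4] [] [(k2,k5,z1,[y1,z1]),(k5,k2,z1,[y1,z1])]),
    .old (.leafM k7 [k0,k2,k3,k5] [(z1,[y1,y1,z1])] [(k1,k4,z1,[z0,z1]),(k4,k1,z1,[z0,z1])]),
    .old (.lp [k20,k0,k0,k0,k10,k8] [k0,k0,k10,k10,k10,k10,k10,k10,k5,k5,k6,k6] k0 [] k20 k6
    [[(k7,k10)],[(k3,k10),(k6,k10)],[(k9,k5),(k0,k10)],[(k8,k5)],[(k11,k4)],[(k10,k4)],[(k1,k10)],[(k9,k5),(k0,k10)],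
    [(k3,k5),(k6,k5)],[(k2,k5)],[(k5,k4)],[(k4,k4)]]
    [] k0
    [[k0,k1,k0,k0,k1,k0],[k0,k0,k1,k0,k0,k1],[k0,k0,k2,k0,k0,k2]]
    [.contra [y1,y1,z1],.contra [y1,y1,z1],.ref k1 k0 [(z2,[y1,y2,z2]),(z1,[z0,z1])]]),
    .old (.lp [k2,k0,k0,k0,k2,k2] [k0,k0,k1,k1,k1,k1,k1,k1,k0,k0,k0,k0] k0 [] k4 k5
    [[(k7,k1)],[(k3,k1),(k6,k1)],[(k0,k1),(k9,k1)],[(k8,k1)],[(k11,k1)],[(k10,k1)],[(k1,k1)],[(k0,k1),(k9,k1)],[(k3,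
    k1),(k6,k1)],[(k2,k1)],[(k5,k1)],[(k4,k1)]]
    [] k0
    [[k1,k0,k0,k1,k0,k0],[k0,k1,k0,k0,k1,k0],[k0,k0,k1,k0,k0,k1]]
    [.ref k2 k1 [(z1,[z1])],.ref k2 k0 [(z1,[z1])],.ref k0 k1 [(z1,[y1,z1])]])]⟩

/-- classes `0 1 2 0 1 2`, types `C0 N0 S0 C0 N1 S0` -/
noncomputable def cU6_2455 : CertX :=
  ⟨[k4,k28,k32,k4,k29,k32],[(false,k0,[k0,k1,k2,k3,k4,k5])],[[[([z1,z1,z0,z0,z0,z1],z2)],[([z1,z0,z1,z0,z1,z0],z2)],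
    []]],
    [.old (.leafM k0 [k1,k2,k3,k4,k5,k0] [(z1,[y1,z1])] []),
    .old (.leafM k1 [k0,k1,k2,k3,k4,k5] [(z1,[y1,z1]),(z1,[z1])] []),
    .old (.lp [k2,k4,k2,k2,k2,k2] [k1,k1,k0,k0,k1,k1,k1,k1,k1,k1,k1,k1] k0 [] k8 k5
    [[(k1,k2),(k4,k2),(k7,k2),(k10,k2)],[(k9,k2),(k3,k3)],[(k0,k3),(k6,k3)],[(k11,k3)],[(k8,k2)],[(k1,k2),(k4,k2),(k7,
    k2),(k10,k2)],[(k1,k2),(k4,k2),(k7,k2),(k10,k2)],[(k9,k2),(k3,k3)],[(k0,k2),(k6,k2)],[(k5,k2)],[(k2,k3)],[(k1,k2),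
    (k4,k2),(k7,k2),(k10,k2)]]
    [] k0
    [[k1,k0,k1,k0,k1,k0],[k0,k0,k1,k1,k1,k0]]
    [.ref k1 k0 [(z1,[z1])],.ref k0 k0 [(z1,[y1,z1])]])]⟩

/-- classes `0 1 2 0 1 2`, types `C0 N0 S0 C0 N2 S0` -/
noncomputable def cU6_2456 : CertX :=
  ⟨[k4,k28,k32,k4,k30,k32],[(false,k0,[k0,k1,k2,k3,k4,k5])],[[[([z1,z1,z0,z1,z1,z0],z2)],[]]],
    [.old (.leafM k2 [k0,k1,k3,k4] [] [(k2,k5,z1,[y1,z1]),(k5,k2,z1,[y1,z1])]),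
    .old (.lp [k2,k2,k2,k2,k2,k2] [k0,k0,k0,k0,k0,k0,k0,k0,k0,k0,k0,k0] k0 [] k8 k5
    [[(k1,k2),(k4,k2),(k7,k2),(k10,k2)],[(k3,k2),(k9,k2)],[(k0,k2),(k6,k2)],[(k8,k2)],[(k11,k2)],[(k1,k2),(k4,k2),(k7,
    k2),(k10,k2)],[(k1,k2),(k4,k2),(k7,k2),(k10,k2)],[(k3,k2),(k9,k2)],[(k0,k2),(k6,k2)],[(k2,k2)],[(k5,k2)],[(k1,k2),
    (k4,k2),(k7,k2),(k10,k2)]]
    [] k0
    [[k0,k0,k1,k0,k0,k1]]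
    [.ref k0 k0 [(z1,[y1,z1])]])]⟩

/-- classes `0 1 2 0 1 2`, types `C0 N0 S0 C2 N1 S0` -/
noncomputable def cU6_2457 : CertX :=
  ⟨[k4,k28,k32,k6,k29,k32],[(false,k0,[k0,k1,k2,k3,k4,k5])],[[[([z1,z0,z0,z1,z0,z0],z2)],[([z1,z1,z0,z0,z0,z1],z2)],
    []]],
    [.old (.leafM k6 [k1,k2,k4,k5] [] [(k3,k0,z1,[z1]),(k0,k3,z1,[z1])]),
    .old (.leafM k0 [k1,k2,k3,k4,k5,k0] [(z1,[y1,z1])] []),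
    .old (.lp [k2,k2,k2,k2,k4,k2] [k1,k1,k1,k1,k1,k1,k1,k1,k0,k0,k1,k1] k0 [] k8 k5
    [[(k1,k2),(k4,k2),(k7,k2),(k10,k2)],[(k3,k2),(k6,k2)],[(k0,k2),(k9,k3)],[(k11,k2)],[(k8,k3)],[(k1,k2),(k4,k2),(k7,
    k2),(k10,k2)],[(k1,k2),(k4,k2),(k7,k2),(k10,k2)],[(k0,k2),(k9,k3)],[(k3,k3),(k6,k3)],[(k5,k3)],[(k2,k2)],[(k1,k2),
    (k4,k2),(k7,k2),(k10,k2)]]
    [] k0
    [[k1,k0,k0,k1,k0,k0],[k1,k1,k0,k0,k0,k1]]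
    [.ref k0 k0 [(z1,[z1])],.ref k1 k0 [(z1,[z1])]])]⟩

/-- classes `0 1 2 0 1 2`, types `C0 N0 S0 C2 N2 S0` -/
noncomputable def cU6_2458 : CertX :=
  ⟨[k4,k28,k32,k6,k30,k32],[(false,k0,[k0,k1,k2,k3,k4,k5])],[[[([z1,z1,z0,z1,z1,z0],z2)],[([z1,z0,z1,z1,z0,z1],z2)],
    [([z1,z0,z0,z1,z0,z0],z2),([z0,z1,z0,z0,z1,z0],z1)],[([z1,z0,z0,z1,z0,z0],z2)],[]]],
    [.old (.leafM k2 [k0,k1,k3,k4] [] [(k2,k5,z1,[y1,z1]),(k5,k2,z1,[y1,z1])]),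
    .old (.leafM k2 [k2,k3,k5,k0] [] [(k4,k1,z1,[y1,z1]),(k1,k4,z1,[y1,z1])]),
    .old (.leafM k7 [k1,k2,k4,k5] [(z1,[y1,y1,z1])] [(k3,k0,z1,[z1]),(k0,k3,z1,[z1])]),
    .old (.lp [k16,k4,k4,k4,k4,k6] [k0,k0,k6,k6,k6,k6,k6,k6,k6,k6,k5,k5] k0 [] k20 k6
    [[(k4,k10),(k7,k10),(k10,k11),(k1,k16)],[(k3,k10),(k6,k10)],[(k9,k4),(k0,k10)],[(k8,k4)],[(k11,k5)],[(k4,k4),(k7,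
    k4),(k10,k5),(k1,k10)],[(k4,k4),(k7,k4),(k10,k5),(k1,k10)],[(k9,k4),(k0,k10)],[(k3,k4),(k6,k4)],[(k2,k4)],[(k5,
    k5)],[(k4,k5),(k7,k5),(k10,k6),(k1,k11)]]
    [] k0
    [[k0,k1,k0,k0,k1,k0],[k0,k2,k0,k0,k2,k0],[k0,k0,k1,k0,k0,k1]]
    [.contra [y1,y1,z1],.ref k2 k0 [(z1,[z0,z1]),(z2,[z1])],.contra [y1,y1,z1]]),
    .old (.lp [k2,k2,k2,k2,k2,k2] [k0,k0,k0,k0,k0,k0,k0,k0,k0,k0,k0,k0] k0 [] k8 k5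
    [[(k1,k2),(k4,k2),(k7,k2),(k10,k2)],[(k3,k2),(k6,k2)],[(k0,k2),(k9,k2)],[(k8,k2)],[(k11,k2)],[(k1,k2),(k4,k2),(k7,
    k2),(k10,k2)],[(k1,k2),(k4,k2),(k7,k2),(k10,k2)],[(k0,k2),(k9,k2)],[(k3,k2),(k6,k2)],[(k2,k2)],[(k5,k2)],[(k1,k2),
    (k4,k2),(k7,k2),(k10,k2)]]
    [] k0
    [[k1,k0,k0,k1,k0,k0],[k0,k1,k0,k0,k1,k0],[k0,k0,k1,k0,k0,k1]]
    [.ref k3 k0 [(z1,[z1])],.ref k1 k0 [(z1,[y1,z1])],.ref k0 k0 [(z1,[y1,z1])]])]⟩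

/-- classes `0 1 2 0 1 2`, types `C0 S0 S0 C0 S0 S0` -/
noncomputable def cU6_2459 : CertX :=
  ⟨[k4,k16,k32,k4,k16,k32],[(false,k0,[k0,k1,k2,k3,k4,k5]),(true,k1,[k1,k0,k5,k4,k3,k2])],[[[([z1,z1,z0,z0,z0,z1],
    z2)],[([z1,z1,z0,z1,z1,z0],z2)],[([z1,z0,z1,z0,z1,z0],z2)],[([z1,z0,z0,z0,z1,z1],z2)],[]]],
    [.old (.leafM k0 [k1,k2,k3,k4,k5,k0] [(z1,[y1,z1])] []),
    .old (.leafM k2 [k0,k1,k3,k4] [] [(k2,k5,z1,[y1,z1]),(k5,k2,z1,[y1,z1])]),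
    .old (.leafM k1 [k0,k1,k2,k3,k4,k5] [(z1,[y1,z1]),(z1,[z1])] []),
    .old (.leafM k0 [k0,k1,k2,k3,k4,k5] [(z1,[y1,z1])] []),
    .old (.lp [k2,k2,k4,k2,k2,k2] [k1,k1,k1,k1,k0,k0,k1,k1,k1,k1,k1,k1] k0 [] k8 k5
    [[(k1,k2),(k7,k2),(k10,k2),(k4,k3)],[(k3,k2),(k9,k2)],[(k0,k2),(k6,k2)],[(k2,k2),(k8,k2),(k11,k2),(k5,k3)],[(k2,
    k3),(k8,k3),(k11,k3),(k5,k4)],[(k1,k3),(k7,k3),(k10,k3),(k4,k4)],[(k1,k2),(k7,k2),(k10,k2),(k4,k3)],[(k3,k2),(k9,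
    k2)],[(k0,k2),(k6,k2)],[(k2,k2),(k8,k2),(k11,k2),(k5,k3)],[(k2,k2),(k8,k2),(k11,k2),(k5,k3)],[(k1,k2),(k7,k2),
    (k10,k2),(k4,k3)]]
    [] k0
    [[k1,k1,k0,k0,k0,k1],[k1,k0,k0,k0,k1,k1],[k0,k1,k0,k1,k0,k1],[k0,k0,k1,k0,k0,k1],[k0,k0,k0,k1,k1,k1],[k0,k0,k0,k0,
    k0,k2]]
    [.ref k0 k0 [(z1,[z1])],.ref k3 k0 [(z1,[z1])],.ref k2 k0 [(z1,[y1,z1])],.ref k1 k0 [(z1,[y1,z1])],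
    .ref k0 k1 [(z1,[y1,z1])],.contra [z1]])]⟩

/-- classes `0 1 2 0 1 2`, types `C0 S0 S0 C2 S0 S0` -/
noncomputable def cU6_2460 : CertX :=
  ⟨[k4,k16,k32,k6,k16,k32],[(false,k0,[k0,k1,k2,k3,k4,k5]),(true,k1,[k1,k0,k5,k4,k3,k2])],[[[([z1,z1,z0,z0,z0,z1],
    z2)],[([z1,z1,z0,z1,z1,z0],z2)],[([z1,z0,z0,z1,z0,z0],z2)],[]]],
    [.old (.leafM k0 [k1,k2,k3,k4,k5,k0] [(z1,[y1,z1])] []),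
    .old (.leafM k2 [k0,k1,k3,k4] [] [(k2,k5,z1,[y1,z1]),(k5,k2,z1,[y1,z1])]),
    .old (.leafM k2 [k1,k2,k4,k5] [] [(k3,k0,z1,[z1]),(k0,k3,z1,[z1])]),
    .old (.lp [k6,k6,k12,k6,k6,k8] [k5,k5,k5,k5,k4,k0,k5,k5,k5,k5,k4,k4] k0 [[],[],[],[k0,k0,k0,k0,k0,k0,k0,k0,k0,k4],[],
    [],[],[],[k0,k0,k4]] k24 k5
    [[(k1,k6),(k7,k6),(k4,k7),(k10,k7)],[(k3,k6),(k6,k6)],[(k0,k6),(k9,k6)],[(k2,k6),(k8,k6),(k5,k11),(k11,k11)],[(k8,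
    k7),(k2,k11),(k11,k12),(k5,k16)],[(k1,k7),(k7,k7),(k4,k8),(k10,k8)],[(k1,k6),(k7,k6),(k4,k7),(k10,k7)],[(k0,k6),
    (k9,k6)],[(k3,k6),(k6,k6)],[(k2,k6),(k8,k6),(k5,k7),(k11,k7)],[(k8,k7),(k11,k8),(k2,k11),(k5,k12)],[(k1,k7),(k7,
    k7),(k4,k8),(k10,k8)]]
    [] k0
    [[k1,k0,k0,k1,k0,k0],[k0,k1,k0,k0,k1,k0],[k0,k0,k1,k1,k1,k0],[k0,k0,k1,k0,k0,k1],[k0,k0,k0,k1,k1,k1],[k0,k0,k0,k0,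
    k0,k2]]
    [.ref k2 k0 [(z1,[z1])],.ref k2 k1 [(z1,[z1])],.ref k0 k0 [(z1,[y1,z1])],.ref k1 k0 [(z1,[y1,z1])],
    .ref k0 k1 [(z1,[y1,z1])],.contra [z1]])]⟩

/-- classes `0 1 2 0 1 2`, types `N0 N0 N0 N1 N1 N1` -/
noncomputable def cU6_2461 : CertX :=
  ⟨[k12,k28,k44,k13,k29,k45],[(false,k0,[k0,k1,k2,k3,k4,k5])],[[[([z1,z0,z1,z0,z1,z0],z2)],[]]],
    [.old (.leafM k1 [k0,k1,k2,k3,k4,k5] [(z1,[y1,z1]),(z1,[z1])] []),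
    .old (.lp [k2,k0,k2,k4,k2,k4] [k1,k1,k2,k2,k1,k1,k0,k0,k1,k1,k0,k0] k0 [] k8 k5
    [[(k4,k2)],[(k9,k2)],[(k6,k2)],[(k11,k2)],[(k8,k2)],[(k1,k2)],[(k10,k4)],[(k3,k2)],[(k0,k2)],[(k5,k2)],[(k2,k2)],
    [(k7,k4)]]
    [] k0
    [[k1,k0,k1,k0,k1,k0]]
    [.ref k0 k0 [(z1,[z1])]])]⟩

/-- classes `0 1 2 0 1 2`, types `N0 N0 N0 N1 N1 N2` -/
noncomputable def cU6_2462 : CertX :=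
  ⟨[k12,k28,k44,k13,k29,k46],[],[[[]]],
    [.old (.lp [k0,k0,k0,k2,k2,k2] [k1,k1,k1,k1,k1,k1,k0,k0,k0,k0,k0,k0] k0 [] k4 k5
    [[(k7,k1)],[(k9,k1)],[(k6,k1)],[(k11,k1)],[(k8,k1)],[(k10,k1)],[(k1,k1)],[(k3,k1)],[(k0,k1)],[(k5,k1)],[(k2,k1)],
    [(k4,k1)]]
    [] k0
    []
    [])]⟩

/-- classes `0 1 2 0 1 2`, types `N0 N0 N0 N1 N2 N2` -/
noncomputable def cU6_2463 : CertX :=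
  ⟨[k12,k28,k44,k13,k30,k46],[(false,k0,[k0,k1,k2,k3,k4,k5])],[[[([z1,z1,z0,z1,z1,z0],z2)],[]]],
    [.old (.leafM k6 [k0,k1,k3,k4] [] [(k2,k5,z1,[y1,z1]),(k5,k2,z1,[y1,z1])]),
    .old (.lp [k0,k0,k0,k2,k2,k2] [k1,k1,k1,k1,k1,k1,k0,k0,k0,k0,k0,k0] k0 [] k4 k5
    [[(k7,k1)],[(k9,k1)],[(k6,k1)],[(k8,k1)],[(k11,k1)],[(k10,k1)],[(k1,k1)],[(k3,k1)],[(k0,k1)],[(k2,k1)],[(k5,k1)],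
    [(k4,k1)]]
    [] k0
    [[k0,k0,k1,k0,k0,k1]]
    [.ref k0 k0 [(z1,[y1,z1])]])]⟩

/-- classes `0 1 2 0 1 2`, types `N0 N0 N0 N2 N2 N2` -/
noncomputable def cU6_2464 : CertX :=
  ⟨[k12,k28,k44,k14,k30,k46],[(false,k2,[k2,k3,k4,k5,k0,k1]),(false,k0,[k0,k1,k2,k3,k4,k5]),(false,k1,[k1,k2,k3,k4,k5,
    k0])],[[[([z1,z0,z0,z1,z0,z0],z1),([z0,z1,z0,z0,z1,z0],z1)],[([z1,z0,z0,z1,z0,z0],z2)],[]]],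
    [.old (.leafM k7 [k0,k1,k3,k4] [(z1,[z0,z1])] [(k2,k5,z1,[y1,y1,z1]),(k5,k2,z1,[y1,y1,z1])]),
    .old (.lp [k20,k0,k0,k0,k10,k8] [k0,k0,k10,k10,k10,k10,k10,k10,k5,k5,k6,k6] k0 [] k20 k6
    [[(k7,k10)],[(k6,k10)],[(k9,k5)],[(k8,k5)],[(k11,k4)],[(k10,k4)],[(k1,k10)],[(k0,k10)],[(k3,k5)],[(k2,k5)],[(k5,
    k4)],[(k4,k4)]]
    [] k0
    [[k0,k1,k0,k0,k1,k0],[k0,k0,k1,k0,k0,k1],[k0,k0,k2,k0,k0,k2]]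
    [.contra [y1,y1,z1],.contra [y1,y1,z1],.ref k0 k0 [(z2,[y1,y2,z2]),(z2,[z1])]]),
    .old (.lp [k2,k0,k0,k0,k2,k2] [k0,k0,k1,k1,k1,k1,k1,k1,k0,k0,k0,k0] k0 [] k4 k5
    [[(k7,k1)],[(k6,k1)],[(k9,k1)],[(k8,k1)],[(k11,k1)],[(k10,k1)],[(k1,k1)],[(k0,k1)],[(k3,k1)],[(k2,k1)],[(k5,k1)],
    [(k4,k1)]]
    [] k0
    [[k1,k0,k0,k1,k0,k0],[k0,k1,k0,k0,k1,k0],[k0,k0,k1,k0,k0,k1]]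
    [.ref k1 k1 [(z1,[z1])],.ref k1 k0 [(z1,[z1])],.ref k1 k2 [(z1,[z1])]])]⟩

/-- classes `0 1 2 0 1 2`, types `N0 N0 S0 N1 N1 S0` -/
noncomputable def cU6_2465 : CertX :=
  ⟨[k12,k28,k32,k13,k29,k32],[(false,k0,[k0,k1,k2,k3,k4,k5])],[[[([z1,z0,z1,z0,z1,z0],z2)],[]]],
    [.old (.leafM k1 [k0,k1,k2,k3,k4,k5] [(z1,[y1,z1]),(z1,[z1])] []),
    .old (.lp [k2,k4,k2,k2,k2,k2] [k1,k1,k0,k0,k1,k1,k1,k1,k1,k1,k1,k1] k0 [] k8 k5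
    [[(k1,k2),(k4,k2),(k7,k2),(k10,k2)],[(k9,k2)],[(k6,k3)],[(k11,k3)],[(k8,k2)],[(k1,k2),(k4,k2),(k7,k2),(k10,k2)],
    [(k1,k2),(k4,k2),(k7,k2),(k10,k2)],[(k3,k3)],[(k0,k2)],[(k5,k2)],[(k2,k3)],[(k1,k2),(k4,k2),(k7,k2),(k10,k2)]]
    [] k0
    [[k1,k0,k1,k0,k1,k0]]
    [.ref k0 k0 [(z1,[z1])]])]⟩

/-- classes `0 1 2 0 1 2`, types `N0 N0 S0 N1 N2 S0` -/
noncomputable def cU6_2466 : CertX :=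
  ⟨[k12,k28,k32,k13,k30,k32],[(false,k0,[k0,k1,k2,k3,k4,k5])],[[[([z1,z1,z0,z1,z1,z0],z2)],[]]],
    [.old (.leafM k6 [k0,k1,k3,k4] [] [(k2,k5,z1,[y1,z1]),(k5,k2,z1,[y1,z1])]),
    .old (.lp [k2,k2,k2,k2,k2,k2] [k0,k0,k0,k0,k0,k0,k0,k0,k0,k0,k0,k0] k0 [] k8 k5
    [[(k1,k2),(k4,k2),(k7,k2),(k10,k2)],[(k9,k2)],[(k6,k2)],[(k8,k2)],[(k11,k2)],[(k1,k2),(k4,k2),(k7,k2),(k10,k2)],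
    [(k1,k2),(k4,k2),(k7,k2),(k10,k2)],[(k3,k2)],[(k0,k2)],[(k2,k2)],[(k5,k2)],[(k1,k2),(k4,k2),(k7,k2),(k10,k2)]]
    [] k0
    [[k0,k0,k1,k0,k0,k1]]
    [.ref k0 k0 [(z1,[y1,z1])]])]⟩

/-- classes `0 1 2 0 1 2`, types `N0 N0 S0 N2 N2 S0` -/
noncomputable def cU6_2467 : CertX :=
  ⟨[k12,k28,k32,k14,k30,k32],[(true,k2,[k2,k1,k0,k5,k4,k3]),(false,k0,[k0,k1,k2,k3,k4,k5])],[[[([z1,z0,z1,z1,z0,z1],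
    z2)],[([z1,z0,z0,z1,z0,z0],z1),([z0,z1,z0,z0,z1,z0],z1)],[([z1,z0,z0,z1,z0,z0],z2)],[]]],
    [.old (.leafM k2 [k2,k3,k5,k0] [] [(k4,k1,z1,[y1,z1]),(k1,k4,z1,[y1,z1])]),
    .old (.leafM k7 [k0,k1,k3,k4] [(z1,[z0,z1])] [(k2,k5,z1,[y1,y1,z1]),(k5,k2,z1,[y1,y1,z1])]),
    .old (.lp [k16,k8,k4,k4,k0,k6] [k0,k0,k4,k4,k6,k6,k6,k6,k8,k8,k5,k5] k0 [] k20 k6
    [[(k4,k10),(k7,k10),(k10,k11),(k1,k16)],[(k6,k10)],[(k9,k4)],[(k8,k4)],[(k11,k5)],[(k4,k4),(k7,k4),(k10,k5),(k1,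
    k10)],[(k4,k4),(k7,k4),(k10,k5),(k1,k10)],[(k0,k10)],[(k3,k4)],[(k2,k4)],[(k5,k5)],[(k4,k5),(k7,k5),(k10,k6),(k1,
    k11)]]
    [] k0
    [[k0,k1,k0,k0,k1,k0],[k0,k2,k0,k0,k2,k0],[k0,k0,k1,k0,k0,k1]]
    [.contra [y1,y1,z1],.ref k1 k0 [(z2,[y1,y2,z2]),(z2,[z1])],.contra [y1,y1,z1]]),
    .old (.lp [k2,k4,k2,k2,k0,k2] [k1,k1,k0,k0,k1,k1,k1,k1,k2,k2,k1,k1] k0 [] k8 k5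
    [[(k1,k2),(k4,k2),(k7,k2),(k10,k2)],[(k6,k2)],[(k9,k2)],[(k8,k2)],[(k11,k2)],[(k1,k2),(k4,k2),(k7,k2),(k10,k2)],
    [(k1,k2),(k4,k2),(k7,k2),(k10,k2)],[(k0,k2)],[(k3,k2)],[(k2,k2)],[(k5,k2)],[(k1,k2),(k4,k2),(k7,k2),(k10,k2)]]
    [] k0
    [[k1,k0,k0,k1,k0,k0],[k0,k1,k0,k0,k1,k0],[k0,k0,k1,k0,k0,k1]]
    [.ref k2 k1 [(z1,[z1])],.ref k0 k1 [(z1,[y1,z1])],.ref k2 k0 [(z1,[z1])]])]⟩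

/-- classes `0 1 2 0 1 2`, types `N0 S0 S0 N1 S0 S0` -/
noncomputable def cU6_2468 : CertX :=
  ⟨[k12,k16,k32,k13,k16,k32],[(false,k0,[k0,k1,k2,k3,k4,k5])],[[[([z1,z1,z0,z1,z1,z0],z2)],[([z1,z0,z1,z0,z1,z0],z2)],
    [([z1,z0,z0,z0,z1,z1],z2)],[]]],
    [.old (.leafM k6 [k0,k1,k3,k4] [] [(k2,k5,z1,[y1,z1]),(k5,k2,z1,[y1,z1])]),
    .old (.leafM k1 [k0,k1,k2,k3,k4,k5] [(z1,[y1,z1]),(z1,[z1])] []),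
    .old (.leafM k0 [k0,k1,k2,k3,k4,k5] [(z1,[y1,z1])] []),
    .old (.lp [k2,k2,k4,k2,k2,k2] [k1,k1,k1,k1,k0,k0,k1,k1,k1,k1,k1,k1] k0 [] k8 k5
    [[(k1,k2),(k7,k2),(k10,k2),(k4,k3)],[(k9,k2)],[(k6,k2)],[(k2,k2),(k8,k2),(k11,k2),(k5,k3)],[(k2,k3),(k8,k3),(k11,
    k3),(k5,k4)],[(k1,k3),(k7,k3),(k10,k3),(k4,k4)],[(k1,k2),(k7,k2),(k10,k2),(k4,k3)],[(k3,k2)],[(k0,k2)],[(k2,k2),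
    (k8,k2),(k11,k2),(k5,k3)],[(k2,k2),(k8,k2),(k11,k2),(k5,k3)],[(k1,k2),(k7,k2),(k10,k2),(k4,k3)]]
    [] k0
    [[k1,k0,k0,k0,k1,k1],[k0,k1,k0,k1,k0,k1],[k0,k0,k1,k0,k0,k1],[k0,k0,k0,k0,k0,k2]]
    [.ref k2 k0 [(z1,[z1])],.ref k1 k0 [(z1,[y1,z1])],.ref k0 k0 [(z1,[y1,z1])],.contra [z1]])]⟩

/-- classes `0 1 2 0 1 2`, types `N0 S0 S0 N2 S0 S0` -/
noncomputable def cU6_2469 : CertX :=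
  ⟨[k12,k16,k32,k14,k16,k32],[(false,k0,[k0,k1,k2,k3,k4,k5]),(true,k1,[k1,k0,k5,k4,k3,k2])],[[[([z1,z0,z0,z1,z0,z0],
    z2)],[([z1,z0,z0,z1,z0,z0],z1),([z0,z1,z0,z0,z1,z0],z1)],[([z1,z1,z0,z1,z1,z0],z2)],[]]],
    [.old (.leafM k2 [k1,k2,k4,k5] [] [(k3,k0,z1,[z1]),(k0,k3,z1,[z1])]),
    .old (.leafM k7 [k0,k1,k3,k4] [(z1,[z0,z1])] [(k2,k5,z1,[y1,y1,z1]),(k5,k2,z1,[y1,y1,z1])]),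
    .old (.lp [k4,k4,k10,k6,k4,k10] [k3,k3,k3,k3,k0,k0,k2,k2,k3,k3,k0,k0] k0 [] k20 k6
    [[(k1,k4),(k7,k5),(k4,k7),(k10,k7)],[(k6,k5)],[(k9,k4)],[(k2,k4),(k8,k4),(k5,k7),(k11,k7)],[(k2,k7),(k8,k7),(k5,
    k10),(k11,k10)],[(k1,k7),(k7,k8),(k4,k10),(k10,k10)],[(k1,k5),(k7,k6),(k4,k8),(k10,k8)],[(k0,k5)],[(k3,k4)],[(k2,
    k4),(k8,k4),(k5,k7),(k11,k7)],[(k2,k7),(k8,k7),(k5,k10),(k11,k10)],[(k1,k7),(k7,k8),(k4,k10),(k10,k10)]]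
    [] k0
    [[k1,k0,k0,k1,k0,k0],[k0,k1,k0,k0,k1,k0],[k0,k2,k0,k0,k2,k0]]
    [.contra [y1,z1],.contra [y1,z1],.ref k1 k0 [(z2,[y1,z2]),(z2,[z1])]]),
    .old (.lp [k2,k2,k4,k2,k2,k2] [k1,k1,k1,k1,k0,k0,k1,k1,k1,k1,k1,k1] k0 [] k8 k5
    [[(k1,k2),(k7,k2),(k10,k2),(k4,k3)],[(k6,k2)],[(k9,k2)],[(k2,k2),(k8,k2),(k11,k2),(k5,k3)],[(k2,k3),(k8,k3),(k11,
    k3),(k5,k4)],[(k1,k3),(k7,k3),(k10,k3),(k4,k4)],[(k1,k2),(k7,k2),(k10,k2),(k4,k3)],[(k0,k2)],[(k3,k2)],[(k2,k2),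
    (k8,k2),(k11,k2),(k5,k3)],[(k2,k2),(k8,k2),(k11,k2),(k5,k3)],[(k1,k2),(k7,k2),(k10,k2),(k4,k3)]]
    [] k0
    [[k1,k0,k0,k1,k0,k0],[k0,k1,k0,k0,k1,k0],[k0,k0,k1,k0,k0,k1],[k0,k0,k0,k0,k0,k2]]
    [.ref k0 k0 [(z1,[z1])],.ref k0 k1 [(z1,[z1])],.ref k2 k0 [(z1,[y1,z1])],.contra [z1]])]⟩

/-- classes `0 1 2 0 1 3`, types `B0 B0 C0 B1 B1 C0` -/
noncomputable def cU6_2470 : CertX :=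
  ⟨[k8,k24,k36,k9,k25,k52],[(false,k0,[k0,k1,k2,k3,k4,k5])],[[[([z1,z0,z1,z1,z0,z1],z2)],[]]],
    [.old (.leafM k2 [k2,k3,k5,k0] [] [(k4,k1,z1,[y1,z1]),(k1,k4,z1,[y1,z1])]),
    .old (.lp [k0,k0,k0,k2,k2,k2] [k1,k1,k1,k1,k1,k1,k0,k0,k0,k0,k0,k0] k0 [] k4 k5
    [[(k10,k1)],[(k6,k1),(k9,k1)],[(k6,k1),(k9,k1)],[(k8,k1),(k11,k1)],[(k8,k1),(k11,k1)],[(k7,k1)],[(k4,k1)],[(k0,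
    k1),(k3,k1)],[(k0,k1),(k3,k1)],[(k2,k1),(k5,k1)],[(k2,k1),(k5,k1)],[(k1,k1)]]
    [] k0
    [[k0,k1,k0,k0,k1,k0]]
    [.ref k0 k0 [(z1,[y1,z1])]])]⟩

/-- classes `0 1 2 0 1 3`, types `B0 B0 C0 B1 B1 S0` -/
noncomputable def cU6_2471 : CertX :=
  ⟨[k8,k24,k36,k9,k25,k48],[(false,k0,[k0,k1,k2,k3,k4,k5])],[[[([z1,z0,z1,z1,z0,z1],z2)],[]]],
    [.old (.leafM k2 [k2,k3,k5,k0] [] [(k4,k1,z1,[y1,z1]),(k1,k4,z1,[y1,z1])]),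
    .old (.lp [k2,k2,k2,k2,k2,k2] [k0,k0,k0,k0,k0,k0,k0,k0,k0,k0,k0,k0] k0 [] k8 k5
    [[(k1,k2),(k10,k2)],[(k6,k2),(k9,k2)],[(k6,k2),(k9,k2)],[(k8,k2),(k11,k2)],[(k8,k2),(k11,k2)],[(k7,k2)],[(k4,k2)],
    [(k0,k2),(k3,k2)],[(k0,k2),(k3,k2)],[(k2,k2),(k5,k2)],[(k2,k2),(k5,k2)],[(k1,k2),(k10,k2)]]
    [] k0
    [[k0,k1,k0,k0,k1,k0]]
    [.ref k0 k0 [(z1,[y1,z1])]])]⟩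

/-- classes `0 1 2 0 1 3`, types `B0 B0 S0 B1 B1 S0` -/
noncomputable def cU6_2472 : CertX :=
  ⟨[k8,k24,k32,k9,k25,k48],[(false,k0,[k0,k1,k2,k3,k4,k5])],[[[([z1,z0,z1,z1,z0,z1],z2)],[]]],
    [.old (.leafM k2 [k2,k3,k5,k0] [] [(k4,k1,z1,[y1,z1]),(k1,k4,z1,[y1,z1])]),
    .old (.lp [k2,k2,k2,k2,k2,k2] [k0,k0,k0,k0,k0,k0,k0,k0,k0,k0,k0,k0] k0 [] k8 k5
    [[(k1,k2),(k10,k2)],[(k6,k2),(k9,k2)],[(k6,k2),(k9,k2)],[(k8,k2),(k11,k2)],[(k8,k2),(k11,k2)],[(k4,k2),(k7,k2)],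
    [(k4,k2),(k7,k2)],[(k0,k2),(k3,k2)],[(k0,k2),(k3,k2)],[(k2,k2),(k5,k2)],[(k2,k2),(k5,k2)],[(k1,k2),(k10,k2)]]
    [] k0
    [[k0,k1,k0,k0,k1,k0]]
    [.ref k0 k0 [(z1,[y1,z1])]])]⟩

/-- classes `0 1 2 0 1 3`, types `B0 C0 C0 B1 C0 C0` -/
noncomputable def cU6_2473 : CertX :=
  ⟨[k8,k20,k36,k9,k20,k52],[(false,k0,[k0,k1,k2,k3,k4,k5])],[[[([z1,z0,z0,z0,z1,z1],z2)],[]]],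
    [.old (.leafM k0 [k0,k1,k2,k3,k4,k5] [(z1,[y1,z1])] []),
    .old (.lp [k4,k2,k2,k2,k2,k2] [k0,k0,k1,k1,k1,k1,k1,k1,k1,k1,k1,k1] k0 [] k8 k5
    [[(k10,k3)],[(k6,k3),(k9,k3)],[(k6,k2),(k9,k2)],[(k5,k2),(k11,k2)],[(k2,k2),(k8,k2)],[(k7,k2)],[(k4,k2)],[(k3,k2),
    (k0,k3)],[(k3,k2),(k0,k3)],[(k5,k2),(k11,k2)],[(k2,k2),(k8,k2)],[(k1,k3)]]
    [] k0
    [[k0,k1,k1,k1,k0,k0]]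
    [.ref k0 k0 [(z1,[y1,z1])]])]⟩

/-- classes `0 1 2 0 1 3`, types `B0 C0 C0 B1 C0 S0` -/
noncomputable def cU6_2474 : CertX :=
  ⟨[k8,k20,k36,k9,k20,k48],[(false,k0,[k0,k1,k2,k3,k4,k5])],[[[([z1,z0,z0,z0,z1,z1],z2)],[]]],
    [.old (.leafM k0 [k0,k1,k2,k3,k4,k5] [(z1,[y1,z1])] []),
    .old (.lp [k2,k2,k2,k4,k2,k2] [k1,k1,k1,k1,k1,k1,k0,k0,k1,k1,k1,k1] k0 [] k8 k5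
    [[(k1,k2),(k10,k2)],[(k9,k2),(k6,k3)],[(k9,k2),(k6,k3)],[(k5,k2),(k11,k2)],[(k2,k2),(k8,k2)],[(k7,k3)],[(k4,k3)],
    [(k0,k3),(k3,k3)],[(k0,k2),(k3,k2)],[(k5,k2),(k11,k2)],[(k2,k2),(k8,k2)],[(k1,k2),(k10,k2)]]
    [] k0
    [[k1,k0,k0,k0,k1,k1]]
    [.ref k0 k0 [(z1,[z1])]])]⟩

/-- classes `0 1 2 0 1 3`, types `B0 C0 C0 B1 C2 C0` -/
noncomputable def cU6_2475 : CertX :=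
  ⟨[k8,k20,k36,k9,k22,k52],[(false,k0,[k0,k1,k2,k3,k4,k5])],[[[([z1,z0,z1,z1,z0,z1],z2)],[([z1,z0,z0,z0,z1,z1],z2)],
    []]],
    [.old (.leafM k2 [k2,k3,k5,k0] [] [(k4,k1,z1,[y1,z1]),(k1,k4,z1,[y1,z1])]),
    .old (.leafM k0 [k0,k1,k2,k3,k4,k5] [(z1,[y1,z1])] []),
    .old (.lp [k4,k2,k2,k2,k2,k2] [k0,k0,k1,k1,k1,k1,k1,k1,k1,k1,k1,k1] k0 [] k8 k5
    [[(k10,k3)],[(k6,k3),(k9,k3)],[(k6,k2),(k9,k2)],[(k5,k2),(k8,k2)],[(k2,k2),(k11,k2)],[(k7,k2)],[(k4,k2)],[(k3,k2),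
    (k0,k3)],[(k3,k2),(k0,k3)],[(k2,k2),(k11,k2)],[(k5,k2),(k8,k2)],[(k1,k3)]]
    [] k0
    [[k0,k1,k1,k1,k0,k0],[k0,k1,k0,k0,k1,k0]]
    [.ref k1 k0 [(z1,[y1,z1])],.ref k0 k0 [(z1,[y1,z1])]])]⟩

/-- classes `0 1 2 0 1 3`, types `B0 C0 C0 B1 C2 S0` -/
noncomputable def cU6_2476 : CertX :=
  ⟨[k8,k20,k36,k9,k22,k48],[(false,k0,[k0,k1,k2,k3,k4,k5])],[[[([z1,z0,z1,z1,z0,z1],z2)],[([z1,z0,z0,z0,z1,z1],z2)],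
    []]],
    [.old (.leafM k2 [k2,k3,k5,k0] [] [(k4,k1,z1,[y1,z1]),(k1,k4,z1,[y1,z1])]),
    .old (.leafM k0 [k0,k1,k2,k3,k4,k5] [(z1,[y1,z1])] []),
    .old (.lp [k2,k2,k2,k4,k2,k2] [k1,k1,k1,k1,k1,k1,k0,k0,k1,k1,k1,k1] k0 [] k8 k5
    [[(k1,k2),(k10,k2)],[(k9,k2),(k6,k3)],[(k9,k2),(k6,k3)],[(k5,k2),(k8,k2)],[(k2,k2),(k11,k2)],[(k7,k3)],[(k4,k3)],
    [(k0,k3),(k3,k3)],[(k0,k2),(k3,k2)],[(k2,k2),(k11,k2)],[(k5,k2),(k8,k2)],[(k1,k2),(k10,k2)]]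
    [] k0
    [[k1,k0,k0,k0,k1,k1],[k0,k1,k0,k0,k1,k0]]
    [.ref k1 k0 [(z1,[z1])],.ref k0 k0 [(z1,[y1,z1])]])]⟩

/-- classes `0 1 2 0 1 3`, types `B0 C0 S0 B1 C0 S0` -/
noncomputable def cU6_2477 : CertX :=
  ⟨[k8,k20,k32,k9,k20,k48],[(false,k0,[k0,k1,k2,k3,k4,k5])],[[[([z1,z0,z0,z0,z1,z1],z2)],[]]],
    [.old (.leafM k0 [k0,k1,k2,k3,k4,k5] [(z1,[y1,z1])] []),
    .old (.lp [k2,k4,k2,k2,k2,k2] [k1,k1,k0,k0,k1,k1,k1,k1,k1,k1,k1,k1] k0 [] k8 k5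
    [[(k1,k2),(k10,k2)],[(k6,k2),(k9,k2)],[(k6,k3),(k9,k3)],[(k5,k3),(k11,k3)],[(k8,k2),(k2,k3)],[(k4,k2),(k7,k2)],
    [(k4,k2),(k7,k2)],[(k0,k2),(k3,k3)],[(k0,k2),(k3,k3)],[(k5,k2),(k11,k2)],[(k8,k2),(k2,k3)],[(k1,k2),(k10,k2)]]
    [] k0
    [[k1,k0,k0,k0,k1,k1]]
    [.ref k0 k0 [(z1,[z1])]])]⟩

/-- classes `0 1 2 0 1 3`, types `B0 C0 S0 B1 C2 S0` -/
noncomputable def cU6_2478 : CertX :=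
  ⟨[k8,k20,k32,k9,k22,k48],[(false,k0,[k0,k1,k2,k3,k4,k5])],[[[([z1,z0,z1,z1,z0,z1],z2)],[([z1,z0,z0,z0,z1,z1],z2)],
    []]],
    [.old (.leafM k2 [k2,k3,k5,k0] [] [(k4,k1,z1,[y1,z1]),(k1,k4,z1,[y1,z1])]),
    .old (.leafM k0 [k0,k1,k2,k3,k4,k5] [(z1,[y1,z1])] []),
    .old (.lp [k2,k4,k2,k2,k2,k2] [k1,k1,k0,k0,k1,k1,k1,k1,k1,k1,k1,k1] k0 [] k8 k5
    [[(k1,k2),(k10,k2)],[(k6,k2),(k9,k2)],[(k6,k3),(k9,k3)],[(k5,k3),(k8,k3)],[(k11,k2),(k2,k3)],[(k4,k2),(k7,k2)],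
    [(k4,k2),(k7,k2)],[(k0,k2),(k3,k3)],[(k0,k2),(k3,k3)],[(k11,k2),(k2,k3)],[(k5,k2),(k8,k2)],[(k1,k2),(k10,k2)]]
    [] k0
    [[k1,k0,k0,k0,k1,k1],[k0,k1,k0,k0,k1,k0]]
    [.ref k1 k0 [(z1,[z1])],.ref k0 k0 [(z1,[y1,z1])]])]⟩

/-- classes `0 1 2 0 1 3`, types `B0 N0 C0 B1 N1 C0` -/
noncomputable def cU6_2479 : CertX :=
  ⟨[k8,k28,k36,k9,k29,k52],[],[[[]]],
    [.old (.lp [k0,k0,k0,k2,k2,k2] [k1,k1,k1,k1,k1,k1,k0,k0,k0,k0,k0,k0] k0 [] k4 k5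
    [[(k10,k1)],[(k6,k1),(k9,k1)],[(k6,k1),(k9,k1)],[(k11,k1)],[(k8,k1)],[(k7,k1)],[(k4,k1)],[(k0,k1),(k3,k1)],[(k0,
    k1),(k3,k1)],[(k5,k1)],[(k2,k1)],[(k1,k1)]]
    [] k0
    []
    [])]⟩

/-- classes `0 1 2 0 1 3`, types `B0 N0 C0 B1 N1 S0` -/
noncomputable def cU6_2480 : CertX :=
  ⟨[k8,k28,k36,k9,k29,k48],[],[[[]]],
    [.old (.lp [k2,k2,k2,k2,k2,k2] [k0,k0,k0,k0,k0,k0,k0,k0,k0,k0,k0,k0] k0 [] k8 k5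
    [[(k1,k2),(k10,k2)],[(k6,k2),(k9,k2)],[(k6,k2),(k9,k2)],[(k11,k2)],[(k8,k2)],[(k7,k2)],[(k4,k2)],[(k0,k2),(k3,
    k2)],[(k0,k2),(k3,k2)],[(k5,k2)],[(k2,k2)],[(k1,k2),(k10,k2)]]
    [] k0
    []
    [])]⟩

/-- classes `0 1 2 0 1 3`, types `B0 N0 C0 B1 N2 C0` -/
noncomputable def cU6_2481 : CertX :=
  ⟨[k8,k28,k36,k9,k30,k52],[(false,k0,[k0,k1,k2,k3,k4,k5])],[[[([z1,z0,z1,z1,z0,z1],z2)],[]]],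
    [.old (.leafM k2 [k2,k3,k5,k0] [] [(k4,k1,z1,[y1,z1]),(k1,k4,z1,[y1,z1])]),
    .old (.lp [k0,k0,k0,k2,k2,k2] [k1,k1,k1,k1,k1,k1,k0,k0,k0,k0,k0,k0] k0 [] k4 k5
    [[(k10,k1)],[(k6,k1),(k9,k1)],[(k6,k1),(k9,k1)],[(k8,k1)],[(k11,k1)],[(k7,k1)],[(k4,k1)],[(k0,k1),(k3,k1)],[(k0,
    k1),(k3,k1)],[(k2,k1)],[(k5,k1)],[(k1,k1)]]
    [] k0
    [[k0,k1,k0,k0,k1,k0]]
    [.ref k0 k0 [(z1,[y1,z1])]])]⟩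

/-- classes `0 1 2 0 1 3`, types `B0 N0 C0 B1 N2 S0` -/
noncomputable def cU6_2482 : CertX :=
  ⟨[k8,k28,k36,k9,k30,k48],[(false,k0,[k0,k1,k2,k3,k4,k5])],[[[([z1,z0,z1,z1,z0,z1],z2)],[]]],
    [.old (.leafM k2 [k2,k3,k5,k0] [] [(k4,k1,z1,[y1,z1]),(k1,k4,z1,[y1,z1])]),
    .old (.lp [k2,k2,k2,k2,k2,k2] [k0,k0,k0,k0,k0,k0,k0,k0,k0,k0,k0,k0] k0 [] k8 k5
    [[(k1,k2),(k10,k2)],[(k6,k2),(k9,k2)],[(k6,k2),(k9,k2)],[(k8,k2)],[(k11,k2)],[(k7,k2)],[(k4,k2)],[(k0,k2),(k3,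
    k2)],[(k0,k2),(k3,k2)],[(k2,k2)],[(k5,k2)],[(k1,k2),(k10,k2)]]
    [] k0
    [[k0,k1,k0,k0,k1,k0]]
    [.ref k0 k0 [(z1,[y1,z1])]])]⟩

/-- classes `0 1 2 0 1 3`, types `B0 N0 S0 B1 N1 S0` -/
noncomputable def cU6_2483 : CertX :=
  ⟨[k8,k28,k32,k9,k29,k48],[],[[[]]],
    [.old (.lp [k2,k2,k2,k2,k2,k2] [k0,k0,k0,k0,k0,k0,k0,k0,k0,k0,k0,k0] k0 [] k8 k5
    [[(k1,k2),(k10,k2)],[(k6,k2),(k9,k2)],[(k6,k2),(k9,k2)],[(k11,k2)],[(k8,k2)],[(k4,k2),(k7,k2)],[(k4,k2),(k7,k2)],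
    [(k0,k2),(k3,k2)],[(k0,k2),(k3,k2)],[(k5,k2)],[(k2,k2)],[(k1,k2),(k10,k2)]]
    [] k0
    []
    [])]⟩

/-- classes `0 1 2 0 1 3`, types `B0 N0 S0 B1 N2 S0` -/
noncomputable def cU6_2484 : CertX :=
  ⟨[k8,k28,k32,k9,k30,k48],[(false,k0,[k0,k1,k2,k3,k4,k5])],[[[([z1,z0,z1,z1,z0,z1],z2)],[]]],
    [.old (.leafM k2 [k2,k3,k5,k0] [] [(k4,k1,z1,[y1,z1]),(k1,k4,z1,[y1,z1])]),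
    .old (.lp [k2,k2,k2,k2,k2,k2] [k0,k0,k0,k0,k0,k0,k0,k0,k0,k0,k0,k0] k0 [] k8 k5
    [[(k1,k2),(k10,k2)],[(k6,k2),(k9,k2)],[(k6,k2),(k9,k2)],[(k8,k2)],[(k11,k2)],[(k4,k2),(k7,k2)],[(k4,k2),(k7,k2)],
    [(k0,k2),(k3,k2)],[(k0,k2),(k3,k2)],[(k2,k2)],[(k5,k2)],[(k1,k2),(k10,k2)]]
    [] k0
    [[k0,k1,k0,k0,k1,k0]]
    [.ref k0 k0 [(z1,[y1,z1])]])]⟩

/-- classes `0 1 2 0 1 3`, types `B0 S0 C0 B1 S0 C0` -/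
noncomputable def cU6_2485 : CertX :=
  ⟨[k8,k16,k36,k9,k16,k52],[(false,k0,[k0,k1,k2,k3,k4,k5])],[[[([z1,z0,z1,z1,z0,z1],z2)],[([z1,z0,z0,z0,z1,z1],z2)],
    []]],
    [.old (.leafM k2 [k2,k3,k5,k0] [] [(k4,k1,z1,[y1,z1]),(k1,k4,z1,[y1,z1])]),
    .old (.leafM k0 [k0,k1,k2,k3,k4,k5] [(z1,[y1,z1])] []),
    .old (.lp [k4,k2,k2,k2,k2,k2] [k0,k0,k1,k1,k1,k1,k1,k1,k1,k1,k1,k1] k0 [] k8 k5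
    [[(k10,k3)],[(k6,k3),(k9,k3)],[(k6,k2),(k9,k2)],[(k2,k2),(k5,k2),(k8,k2),(k11,k2)],[(k2,k2),(k5,k2),(k8,k2),(k11,
    k2)],[(k7,k2)],[(k4,k2)],[(k3,k2),(k0,k3)],[(k3,k2),(k0,k3)],[(k2,k2),(k5,k2),(k8,k2),(k11,k2)],[(k2,k2),(k5,k2),
    (k8,k2),(k11,k2)],[(k1,k3)]]
    [] k0
    [[k0,k1,k1,k1,k0,k0],[k0,k1,k0,k0,k1,k0]]
    [.ref k1 k0 [(z1,[y1,z1])],.ref k0 k0 [(z1,[y1,z1])]])]⟩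

/-- classes `0 1 2 0 1 3`, types `B0 S0 C0 B1 S0 S0` -/
noncomputable def cU6_2486 : CertX :=
  ⟨[k8,k16,k36,k9,k16,k48],[(false,k0,[k0,k1,k2,k3,k4,k5])],[[[([z1,z0,z1,z1,z0,z1],z2)],[([z1,z0,z0,z0,z1,z1],z2)],
    []]],
    [.old (.leafM k2 [k2,k3,k5,k0] [] [(k4,k1,z1,[y1,z1]),(k1,k4,z1,[y1,z1])]),
    .old (.leafM k0 [k0,k1,k2,k3,k4,k5] [(z1,[y1,z1])] []),
    .old (.lp [k2,k4,k2,k2,k2,k2] [k1,k1,k0,k0,k1,k1,k1,k1,k1,k1,k1,k1] k0 [] k8 k5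
    [[(k1,k2),(k10,k2)],[(k6,k2),(k9,k2)],[(k6,k3),(k9,k3)],[(k5,k3),(k8,k3),(k11,k3),(k2,k4)],[(k5,k2),(k8,k2),(k11,
    k2),(k2,k3)],[(k7,k2)],[(k4,k2)],[(k0,k2),(k3,k3)],[(k0,k2),(k3,k3)],[(k5,k2),(k8,k2),(k11,k2),(k2,k3)],[(k5,k2),
    (k8,k2),(k11,k2),(k2,k3)],[(k1,k2),(k10,k2)]]
    [] k0
    [[k1,k0,k0,k0,k1,k1],[k0,k1,k0,k0,k1,k0],[k0,k0,k0,k0,k0,k2]]
    [.ref k1 k0 [(z1,[z1])],.ref k0 k0 [(z1,[y1,z1])],.contra [z1]])]⟩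

/-- classes `0 1 2 0 1 3`, types `B0 S0 S0 B1 S0 S0` -/
noncomputable def cU6_2487 : CertX :=
  ⟨[k8,k16,k32,k9,k16,k48],[(false,k0,[k0,k1,k2,k3,k4,k5])],[[[([z1,z0,z1,z1,z0,z1],z2)],[([z1,z0,z0,z0,z1,z1],z2)],
    []]],
    [.old (.leafM k2 [k2,k3,k5,k0] [] [(k4,k1,z1,[y1,z1]),(k1,k4,z1,[y1,z1])]),
    .old (.leafM k0 [k0,k1,k2,k3,k4,k5] [(z1,[y1,z1])] []),
    .old (.lp [k2,k2,k2,k2,k2,k4] [k1,k1,k1,k1,k1,k1,k1,k1,k1,k1,k0,k0] k0 [] k8 k5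
    [[(k1,k2),(k10,k3)],[(k6,k2),(k9,k2)],[(k6,k2),(k9,k2)],[(k2,k2),(k5,k2),(k8,k2),(k11,k3)],[(k2,k2),(k5,k2),(k8,
    k2),(k11,k3)],[(k4,k2),(k7,k2)],[(k4,k2),(k7,k2)],[(k0,k2),(k3,k2)],[(k0,k2),(k3,k2)],[(k2,k2),(k5,k2),(k8,k2),
    (k11,k3)],[(k2,k3),(k5,k3),(k8,k3),(k11,k4)],[(k1,k3),(k10,k4)]]
    [] k0
    [[k0,k1,k1,k1,k0,k0],[k0,k1,k0,k0,k1,k0],[k0,k0,k2,k0,k0,k0]]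
    [.ref k1 k0 [(z1,[y1,z1])],.ref k0 k0 [(z1,[y1,z1])],.contra [z1]])]⟩

/-- classes `0 1 2 0 1 3`, types `C0 C0 C0 C0 C0 C0` -/
noncomputable def cU6_2488 : CertX :=
  ⟨[k4,k20,k36,k4,k20,k52],[(false,k0,[k0,k1,k2,k3,k4,k5]),(true,k2,[k2,k1,k0,k5,k4,k3])],[[[([z1,z0,z0,z0,z1,z1],
    z2)],[]]],
    [.old (.leafM k0 [k0,k1,k2,k3,k4,k5] [(z1,[y1,z1])] []),
    .old (.lp [k2,k2,k2,k2,k2,k4] [k1,k1,k1,k1,k1,k1,k1,k1,k1,k1,k0,k0] k0 [] k8 k5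
    [[(k10,k3)],[(k3,k2),(k9,k2)],[(k0,k2),(k6,k2)],[(k5,k2),(k11,k3)],[(k2,k2),(k8,k2)],[(k7,k2)],[(k4,k2)],[(k3,k2),
    (k9,k2)],[(k0,k2),(k6,k2)],[(k5,k2),(k11,k3)],[(k2,k3),(k8,k3)],[(k1,k3)]]
    [] k0
    [[k0,k1,k1,k1,k0,k0],[k0,k0,k1,k1,k1,k0]]
    [.ref k0 k0 [(z1,[y1,z1])],.ref k0 k1 [(z1,[z1])]])]⟩

/-- classes `0 1 2 0 1 3`, types `C0 C0 C0 C0 C0 S0` -/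
noncomputable def cU6_2489 : CertX :=
  ⟨[k4,k20,k36,k4,k20,k48],[(false,k0,[k0,k1,k2,k3,k4,k5]),(true,k5,[k5,k4,k3,k2,k1,k0])],[[[([z1,z0,z0,z0,z1,z1],
    z2)],[]]],
    [.old (.leafM k0 [k0,k1,k2,k3,k4,k5] [(z1,[y1,z1])] []),
    .old (.lp [k4,k2,k2,k2,k2,k2] [k0,k0,k1,k1,k1,k1,k1,k1,k1,k1,k1,k1] k0 [] k8 k5
    [[(k10,k3),(k1,k4)],[(k3,k3),(k9,k3)],[(k6,k2),(k0,k3)],[(k5,k2),(k11,k2)],[(k2,k2),(k8,k2)],[(k7,k2)],[(k4,k2)],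
    [(k3,k2),(k9,k2)],[(k6,k2),(k0,k3)],[(k5,k2),(k11,k2)],[(k2,k2),(k8,k2)],[(k10,k2),(k1,k3)]]
    [] k0
    [[k0,k1,k1,k1,k0,k0],[k0,k0,k1,k1,k1,k0]]
    [.ref k0 k0 [(z1,[y1,z1])],.ref k0 k1 [(z1,[y1,z1])]])]⟩

/-- classes `0 1 2 0 1 3`, types `C0 C0 C0 C0 C2 C0` -/
noncomputable def cU6_2490 : CertX :=
  ⟨[k4,k20,k36,k4,k22,k52],[(false,k0,[k0,k1,k2,k3,k4,k5])],[[[([z1,z0,z0,z0,z1,z1],z2)],[]]],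
    [.old (.leafM k0 [k0,k1,k2,k3,k4,k5] [(z1,[y1,z1])] []),
    .old (.lp [k2,k2,k2,k2,k2,k4] [k1,k1,k1,k1,k1,k1,k1,k1,k1,k1,k0,k0] k0 [] k8 k5
    [[(k10,k3)],[(k3,k2),(k9,k2)],[(k0,k2),(k6,k2)],[(k5,k2),(k8,k2)],[(k2,k2),(k11,k3)],[(k7,k2)],[(k4,k2)],[(k3,k2),
    (k9,k2)],[(k0,k2),(k6,k2)],[(k2,k2),(k11,k3)],[(k5,k3),(k8,k3)],[(k1,k3)]]
    [] k0
    [[k0,k1,k1,k1,k0,k0]]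
    [.ref k0 k0 [(z1,[y1,z1])]])]⟩

/-- classes `0 1 2 0 1 3`, types `C0 C0 C0 C0 C2 S0` -/
noncomputable def cU6_2491 : CertX :=
  ⟨[k4,k20,k36,k4,k22,k48],[(false,k0,[k0,k1,k2,k3,k4,k5])],[[[([z1,z0,z0,z0,z1,z1],z2)],[]]],
    [.old (.leafM k0 [k0,k1,k2,k3,k4,k5] [(z1,[y1,z1])] []),
    .old (.lp [k4,k2,k2,k2,k2,k2] [k0,k0,k1,k1,k1,k1,k1,k1,k1,k1,k1,k1] k0 [] k8 k5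
    [[(k10,k3),(k1,k4)],[(k3,k3),(k9,k3)],[(k6,k2),(k0,k3)],[(k5,k2),(k8,k2)],[(k2,k2),(k11,k2)],[(k7,k2)],[(k4,k2)],
    [(k3,k2),(k9,k2)],[(k6,k2),(k0,k3)],[(k2,k2),(k11,k2)],[(k5,k2),(k8,k2)],[(k10,k2),(k1,k3)]]
    [] k0
    [[k0,k1,k1,k1,k0,k0]]
    [.ref k0 k0 [(z1,[y1,z1])]])]⟩

/-- classes `0 1 2 0 1 3`, types `C0 C0 C0 C2 C2 C0` -/
noncomputable def cU6_2492 : CertX :=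
  ⟨[k4,k20,k36,k6,k22,k52],[(false,k0,[k0,k1,k2,k3,k4,k5])],[[[([z1,z0,z1,z1,z0,z1],z2)],[]]],
    [.old (.leafM k2 [k2,k3,k5,k0] [] [(k4,k1,z1,[y1,z1]),(k1,k4,z1,[y1,z1])]),
    .old (.lp [k0,k2,k0,k2,k0,k2] [k1,k1,k0,k0,k1,k1,k0,k0,k1,k1,k0,k0] k0 [] k4 k5
    [[(k10,k1)],[(k3,k1),(k6,k1)],[(k0,k1),(k9,k1)],[(k5,k1),(k8,k1)],[(k2,k1),(k11,k1)],[(k7,k1)],[(k4,k1)],[(k0,k1),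
    (k9,k1)],[(k3,k1),(k6,k1)],[(k2,k1),(k11,k1)],[(k5,k1),(k8,k1)],[(k1,k1)]]
    [] k0
    [[k0,k1,k0,k0,k1,k0]]
    [.ref k0 k0 [(z1,[y1,z1])]])]⟩

/-- classes `0 1 2 0 1 3`, types `C0 C0 C0 C2 C2 S0` -/
noncomputable def cU6_2493 : CertX :=
  ⟨[k4,k20,k36,k6,k22,k48],[(false,k0,[k0,k1,k2,k3,k4,k5])],[[[([z1,z0,z1,z1,z0,z1],z2)],[]]],
    [.old (.leafM k2 [k2,k3,k5,k0] [] [(k4,k1,z1,[y1,z1]),(k1,k4,z1,[y1,z1])]),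
    .old (.lp [k2,k2,k2,k2,k2,k2] [k0,k0,k0,k0,k0,k0,k0,k0,k0,k0,k0,k0] k0 [] k8 k5
    [[(k1,k2),(k10,k2)],[(k3,k2),(k6,k2)],[(k0,k2),(k9,k2)],[(k5,k2),(k8,k2)],[(k2,k2),(k11,k2)],[(k7,k2)],[(k4,k2)],
    [(k0,k2),(k9,k2)],[(k3,k2),(k6,k2)],[(k2,k2),(k11,k2)],[(k5,k2),(k8,k2)],[(k1,k2),(k10,k2)]]
    [] k0
    [[k0,k1,k0,k0,k1,k0]]
    [.ref k0 k0 [(z1,[y1,z1])]])]⟩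

/-- classes `0 1 2 0 1 3`, types `C0 C0 S0 C0 C0 S0` -/
noncomputable def cU6_2494 : CertX :=
  ⟨[k4,k20,k32,k4,k20,k48],[(true,k2,[k2,k1,k0,k5,k4,k3]),(false,k0,[k0,k1,k2,k3,k4,k5])],[[[([z1,z0,z0,z0,z1,z1],
    z2)],[]]],
    [.old (.leafM k0 [k0,k1,k2,k3,k4,k5] [(z1,[y1,z1])] []),
    .old (.lp [k2,k2,k2,k4,k2,k2] [k1,k1,k1,k1,k1,k1,k0,k0,k1,k1,k1,k1] k0 [] k8 k5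
    [[(k1,k2),(k10,k2)],[(k3,k2),(k9,k2)],[(k0,k2),(k6,k3)],[(k5,k2),(k11,k2)],[(k2,k2),(k8,k2)],[(k4,k2),(k7,k3)],
    [(k4,k3),(k7,k4)],[(k3,k3),(k9,k3)],[(k0,k2),(k6,k3)],[(k5,k2),(k11,k2)],[(k2,k2),(k8,k2)],[(k1,k2),(k10,k2)]]
    [] k0
    [[k1,k1,k0,k0,k0,k1],[k1,k0,k0,k0,k1,k1]]
    [.ref k0 k0 [(z1,[y1,z1])],.ref k0 k1 [(z1,[z1])]])]⟩

/-- classes `0 1 2 0 1 3`, types `C0 C0 S0 C0 C2 S0` -/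
noncomputable def cU6_2495 : CertX :=
  ⟨[k4,k20,k32,k4,k22,k48],[(false,k0,[k0,k1,k2,k3,k4,k5])],[[[([z1,z0,z0,z0,z1,z1],z2)],[]]],
    [.old (.leafM k0 [k0,k1,k2,k3,k4,k5] [(z1,[y1,z1])] []),
    .old (.lp [k2,k2,k2,k4,k2,k2] [k1,k1,k1,k1,k1,k1,k0,k0,k1,k1,k1,k1] k0 [] k8 k5
    [[(k1,k2),(k10,k2)],[(k3,k2),(k9,k2)],[(k0,k2),(k6,k3)],[(k5,k2),(k8,k2)],[(k2,k2),(k11,k2)],[(k4,k2),(k7,k3)],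
    [(k4,k3),(k7,k4)],[(k3,k3),(k9,k3)],[(k0,k2),(k6,k3)],[(k2,k2),(k11,k2)],[(k5,k2),(k8,k2)],[(k1,k2),(k10,k2)]]
    [] k0
    [[k1,k0,k0,k0,k1,k1]]
    [.ref k0 k0 [(z1,[z1])]])]⟩

/-- classes `0 1 2 0 1 3`, types `C0 C0 S0 C2 C2 S0` -/
noncomputable def cU6_2496 : CertX :=
  ⟨[k4,k20,k32,k6,k22,k48],[(false,k0,[k0,k1,k2,k3,k4,k5])],[[[([z1,z0,z1,z1,z0,z1],z2)],[]]],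
    [.old (.leafM k2 [k2,k3,k5,k0] [] [(k4,k1,z1,[y1,z1]),(k1,k4,z1,[y1,z1])]),
    .old (.lp [k2,k2,k2,k2,k2,k2] [k0,k0,k0,k0,k0,k0,k0,k0,k0,k0,k0,k0] k0 [] k8 k5
    [[(k1,k2),(k10,k2)],[(k3,k2),(k6,k2)],[(k0,k2),(k9,k2)],[(k5,k2),(k8,k2)],[(k2,k2),(k11,k2)],[(k4,k2),(k7,k2)],
    [(k4,k2),(k7,k2)],[(k0,k2),(k9,k2)],[(k3,k2),(k6,k2)],[(k2,k2),(k11,k2)],[(k5,k2),(k8,k2)],[(k1,k2),(k10,k2)]]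
    [] k0
    [[k0,k1,k0,k0,k1,k0]]
    [.ref k0 k0 [(z1,[y1,z1])]])]⟩

/-- classes `0 1 2 0 1 3`, types `C0 N0 C0 C0 N1 C0` -/
noncomputable def cU6_2497 : CertX :=
  ⟨[k4,k28,k36,k4,k29,k52],[(false,k0,[k0,k1,k2,k3,k4,k5])],[[[([z1,z1,z0,z0,z0,z1],z2)],[]]],
    [.old (.leafM k0 [k1,k2,k3,k4,k5,k0] [(z1,[y1,z1])] []),
    .old (.lp [k2,k2,k2,k2,k2,k4] [k1,k1,k1,k1,k1,k1,k1,k1,k1,k1,k0,k0] k0 [] k8 k5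
    [[(k10,k3)],[(k3,k2),(k9,k2)],[(k0,k2),(k6,k2)],[(k11,k3)],[(k8,k2)],[(k7,k2)],[(k4,k2)],[(k3,k2),(k9,k2)],[(k0,
    k2),(k6,k2)],[(k5,k2)],[(k2,k3)],[(k1,k3)]]
    [] k0
    [[k0,k0,k1,k1,k1,k0]]
    [.ref k0 k0 [(z1,[y1,z1])]])]⟩

/-- classes `0 1 2 0 1 3`, types `C0 N0 C0 C0 N1 S0` -/
noncomputable def cU6_2498 : CertX :=
  ⟨[k4,k28,k36,k4,k29,k48],[(false,k0,[k0,k1,k2,k3,k4,k5])],[[[([z1,z1,z0,z0,z0,z1],z2)],[]]],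
    [.old (.leafM k0 [k1,k2,k3,k4,k5,k0] [(z1,[y1,z1])] []),
    .old (.lp [k4,k2,k2,k2,k2,k2] [k0,k0,k1,k1,k1,k1,k1,k1,k1,k1,k1,k1] k0 [] k8 k5
    [[(k10,k3),(k1,k4)],[(k3,k3),(k9,k3)],[(k6,k2),(k0,k3)],[(k11,k2)],[(k8,k2)],[(k7,k2)],[(k4,k2)],[(k3,k2),(k9,
    k2)],[(k6,k2),(k0,k3)],[(k5,k2)],[(k2,k2)],[(k10,k2),(k1,k3)]]
    [] k0
    [[k0,k0,k1,k1,k1,k0]]
    [.ref k0 k0 [(z1,[y1,z1])]])]⟩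

/-- classes `0 1 2 0 1 3`, types `C0 N0 C0 C0 N2 C0` -/
noncomputable def cU6_2499 : CertX :=
  ⟨[k4,k28,k36,k4,k30,k52],[],[[[]]],
    [.old (.lp [k2,k2,k2,k2,k2,k2] [k0,k0,k0,k0,k0,k0,k0,k0,k0,k0,k0,k0] k0 [] k8 k5
    [[(k10,k2)],[(k3,k2),(k9,k2)],[(k0,k2),(k6,k2)],[(k8,k2)],[(k11,k2)],[(k7,k2)],[(k4,k2)],[(k3,k2),(k9,k2)],[(k0,
    k2),(k6,k2)],[(k2,k2)],[(k5,k2)],[(k1,k2)]]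
    [] k0
    []
    [])]⟩

/-- classes `0 1 2 0 1 3`, types `C0 N0 C0 C0 N2 S0` -/
noncomputable def cU6_2500 : CertX :=
  ⟨[k4,k28,k36,k4,k30,k48],[],[[[]]],
    [.old (.lp [k2,k2,k2,k2,k2,k2] [k0,k0,k0,k0,k0,k0,k0,k0,k0,k0,k0,k0] k0 [] k8 k5
    [[(k1,k2),(k10,k2)],[(k3,k2),(k9,k2)],[(k0,k2),(k6,k2)],[(k8,k2)],[(k11,k2)],[(k7,k2)],[(k4,k2)],[(k3,k2),(k9,
    k2)],[(k0,k2),(k6,k2)],[(k2,k2)],[(k5,k2)],[(k1,k2),(k10,k2)]]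
    [] k0
    []
    [])]⟩

/-- classes `0 1 2 0 1 3`, types `C0 N0 C0 C2 N1 C0` -/
noncomputable def cU6_2501 : CertX :=
  ⟨[k4,k28,k36,k6,k29,k52],[(false,k0,[k0,k1,k2,k3,k4,k5])],[[[([z1,z1,z0,z0,z0,z1],z2)],[]]],
    [.old (.leafM k0 [k1,k2,k3,k4,k5,k0] [(z1,[y1,z1])] []),
    .old (.lp [k2,k2,k0,k4,k4,k2] [k1,k1,k1,k1,k2,k2,k0,k0,k0,k0,k1,k1] k0 [] k8 k5
    [[(k10,k2)],[(k3,k2),(k6,k3)],[(k0,k2),(k9,k3)],[(k11,k2)],[(k8,k2)],[(k7,k2)],[(k4,k2)],[(k0,k3),(k9,k4)],[(k3,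
    k3),(k6,k4)],[(k5,k2)],[(k2,k2)],[(k1,k2)]]
    [] k0
    [[k1,k1,k0,k0,k0,k1]]
    [.ref k0 k0 [(z1,[z1])]])]⟩

/-- classes `0 1 2 0 1 3`, types `C0 N0 C0 C2 N1 S0` -/
noncomputable def cU6_2502 : CertX :=
  ⟨[k4,k28,k36,k6,k29,k48],[(false,k0,[k0,k1,k2,k3,k4,k5])],[[[([z1,z1,z0,z0,z0,z1],z2)],[]]],
    [.old (.leafM k0 [k1,k2,k3,k4,k5,k0] [(z1,[y1,z1])] []),
    .old (.lp [k4,k2,k2,k2,k2,k2] [k0,k0,k1,k1,k1,k1,k1,k1,k1,k1,k1,k1] k0 [] k8 k5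
    [[(k10,k3),(k1,k4)],[(k3,k3),(k6,k3)],[(k9,k2),(k0,k3)],[(k11,k2)],[(k8,k2)],[(k7,k2)],[(k4,k2)],[(k9,k2),(k0,
    k3)],[(k3,k2),(k6,k2)],[(k5,k2)],[(k2,k2)],[(k10,k2),(k1,k3)]]
    [] k0
    [[k0,k0,k1,k1,k1,k0]]
    [.ref k0 k0 [(z1,[y1,z1])]])]⟩

/-- classes `0 1 2 0 1 3`, types `C0 N0 C0 C2 N2 C0` -/
noncomputable def cU6_2503 : CertX :=
  ⟨[k4,k28,k36,k6,k30,k52],[(false,k0,[k0,k1,k2,k3,k4,k5])],[[[([z1,z0,z1,z1,z0,z1],z2)],[]]],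
    [.old (.leafM k2 [k2,k3,k5,k0] [] [(k4,k1,z1,[y1,z1]),(k1,k4,z1,[y1,z1])]),
    .old (.lp [k0,k2,k0,k2,k0,k2] [k1,k1,k0,k0,k1,k1,k0,k0,k1,k1,k0,k0] k0 [] k4 k5
    [[(k10,k1)],[(k3,k1),(k6,k1)],[(k0,k1),(k9,k1)],[(k8,k1)],[(k11,k1)],[(k7,k1)],[(k4,k1)],[(k0,k1),(k9,k1)],[(k3,
    k1),(k6,k1)],[(k2,k1)],[(k5,k1)],[(k1,k1)]]
    [] k0
    [[k0,k1,k0,k0,k1,k0]]
    [.ref k0 k0 [(z1,[y1,z1])]])]⟩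

/-- classes `0 1 2 0 1 3`, types `C0 N0 C0 C2 N2 S0` -/
noncomputable def cU6_2504 : CertX :=
  ⟨[k4,k28,k36,k6,k30,k48],[(false,k0,[k0,k1,k2,k3,k4,k5])],[[[([z1,z0,z1,z1,z0,z1],z2)],[]]],
    [.old (.leafM k2 [k2,k3,k5,k0] [] [(k4,k1,z1,[y1,z1]),(k1,k4,z1,[y1,z1])]),
    .old (.lp [k2,k2,k2,k2,k2,k2] [k0,k0,k0,k0,k0,k0,k0,k0,k0,k0,k0,k0] k0 [] k8 k5
    [[(k1,k2),(k10,k2)],[(k3,k2),(k6,k2)],[(k0,k2),(k9,k2)],[(k8,k2)],[(k11,k2)],[(k7,k2)],[(k4,k2)],[(k0,k2),(k9,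
    k2)],[(k3,k2),(k6,k2)],[(k2,k2)],[(k5,k2)],[(k1,k2),(k10,k2)]]
    [] k0
    [[k0,k1,k0,k0,k1,k0]]
    [.ref k0 k0 [(z1,[y1,z1])]])]⟩

/-- classes `0 1 2 0 1 3`, types `C0 N0 S0 C0 N1 S0` -/
noncomputable def cU6_2505 : CertX :=
  ⟨[k4,k28,k32,k4,k29,k48],[(false,k0,[k0,k1,k2,k3,k4,k5])],[[[([z1,z1,z0,z0,z0,z1],z2)],[]]],
    [.old (.leafM k0 [k1,k2,k3,k4,k5,k0] [(z1,[y1,z1])] []),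
    .old (.lp [k2,k2,k2,k4,k2,k2] [k1,k1,k1,k1,k1,k1,k0,k0,k1,k1,k1,k1] k0 [] k8 k5
    [[(k1,k2),(k10,k2)],[(k3,k2),(k9,k2)],[(k0,k2),(k6,k3)],[(k11,k2)],[(k8,k2)],[(k4,k2),(k7,k3)],[(k4,k3),(k7,k4)],
    [(k3,k3),(k9,k3)],[(k0,k2),(k6,k3)],[(k5,k2)],[(k2,k2)],[(k1,k2),(k10,k2)]]
    [] k0
    [[k1,k1,k0,k0,k0,k1]]
    [.ref k0 k0 [(z1,[z1])]])]⟩

/-- classes `0 1 2 0 1 3`, types `C0 N0 S0 C0 N2 S0` -/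
noncomputable def cU6_2506 : CertX :=
  ⟨[k4,k28,k32,k4,k30,k48],[],[[[]]],
    [.old (.lp [k2,k2,k2,k2,k2,k2] [k0,k0,k0,k0,k0,k0,k0,k0,k0,k0,k0,k0] k0 [] k8 k5
    [[(k1,k2),(k10,k2)],[(k3,k2),(k9,k2)],[(k0,k2),(k6,k2)],[(k8,k2)],[(k11,k2)],[(k4,k2),(k7,k2)],[(k4,k2),(k7,k2)],
    [(k3,k2),(k9,k2)],[(k0,k2),(k6,k2)],[(k2,k2)],[(k5,k2)],[(k1,k2),(k10,k2)]]
    [] k0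
    []
    [])]⟩

/-- classes `0 1 2 0 1 3`, types `C0 N0 S0 C2 N1 S0` -/
noncomputable def cU6_2507 : CertX :=
  ⟨[k4,k28,k32,k6,k29,k48],[(false,k0,[k0,k1,k2,k3,k4,k5])],[[[([z1,z1,z0,z0,z0,z1],z2)],[]]],
    [.old (.leafM k0 [k1,k2,k3,k4,k5,k0] [(z1,[y1,z1])] []),
    .old (.lp [k2,k2,k2,k4,k2,k2] [k1,k1,k1,k1,k1,k1,k0,k0,k1,k1,k1,k1] k0 [] k8 k5
    [[(k1,k2),(k10,k2)],[(k3,k2),(k6,k3)],[(k0,k2),(k9,k2)],[(k11,k2)],[(k8,k2)],[(k4,k2),(k7,k3)],[(k4,k3),(k7,k4)],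
    [(k0,k3),(k9,k3)],[(k3,k2),(k6,k3)],[(k5,k2)],[(k2,k2)],[(k1,k2),(k10,k2)]]
    [] k0
    [[k1,k1,k0,k0,k0,k1]]
    [.ref k0 k0 [(z1,[z1])]])]⟩

/-- classes `0 1 2 0 1 3`, types `C0 N0 S0 C2 N2 S0` -/
noncomputable def cU6_2508 : CertX :=
  ⟨[k4,k28,k32,k6,k30,k48],[(false,k0,[k0,k1,k2,k3,k4,k5])],[[[([z1,z0,z1,z1,z0,z1],z2)],[]]],
    [.old (.leafM k2 [k2,k3,k5,k0] [] [(k4,k1,z1,[y1,z1]),(k1,k4,z1,[y1,z1])]),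
    .old (.lp [k2,k2,k2,k2,k2,k2] [k0,k0,k0,k0,k0,k0,k0,k0,k0,k0,k0,k0] k0 [] k8 k5
    [[(k1,k2),(k10,k2)],[(k3,k2),(k6,k2)],[(k0,k2),(k9,k2)],[(k8,k2)],[(k11,k2)],[(k4,k2),(k7,k2)],[(k4,k2),(k7,k2)],
    [(k0,k2),(k9,k2)],[(k3,k2),(k6,k2)],[(k2,k2)],[(k5,k2)],[(k1,k2),(k10,k2)]]
    [] k0
    [[k0,k1,k0,k0,k1,k0]]
    [.ref k0 k0 [(z1,[y1,z1])]])]⟩

/-- classes `0 1 2 0 1 3`, types `C0 S0 C0 C0 S0 C0` -/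
noncomputable def cU6_2509 : CertX :=
  ⟨[k4,k16,k36,k4,k16,k52],[(false,k0,[k0,k1,k2,k3,k4,k5])],[[[([z1,z1,z0,z0,z0,z1],z2)],[([z1,z0,z0,z0,z1,z1],z2)],
    []]],
    [.old (.leafM k0 [k1,k2,k3,k4,k5,k0] [(z1,[y1,z1])] []),
    .old (.leafM k0 [k0,k1,k2,k3,k4,k5] [(z1,[y1,z1])] []),
    .old (.lp [k2,k4,k2,k2,k2,k2] [k1,k1,k0,k0,k1,k1,k1,k1,k1,k1,k1,k1] k0 [] k8 k5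
    [[(k10,k2)],[(k9,k2),(k3,k3)],[(k0,k3),(k6,k3)],[(k5,k3),(k8,k3),(k11,k3),(k2,k4)],[(k5,k2),(k8,k2),(k11,k2),(k2,
    k3)],[(k7,k2)],[(k4,k2)],[(k9,k2),(k3,k3)],[(k0,k2),(k6,k2)],[(k5,k2),(k8,k2),(k11,k2),(k2,k3)],[(k5,k2),(k8,k2),
    (k11,k2),(k2,k3)],[(k1,k2)]]
    [] k0
    [[k1,k0,k0,k0,k1,k1],[k0,k0,k1,k1,k1,k0]]
    [.ref k1 k0 [(z1,[z1])],.ref k0 k0 [(z1,[y1,z1])]])]⟩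

/-- classes `0 1 2 0 1 3`, types `C0 S0 C0 C0 S0 S0` -/
noncomputable def cU6_2510 : CertX :=
  ⟨[k4,k16,k36,k4,k16,k48],[(false,k0,[k0,k1,k2,k3,k4,k5])],[[[([z1,z1,z0,z0,z0,z1],z2)],[([z1,z0,z0,z0,z1,z1],z2)],
    []]],
    [.old (.leafM k0 [k1,k2,k3,k4,k5,k0] [(z1,[y1,z1])] []),
    .old (.leafM k0 [k0,k1,k2,k3,k4,k5] [(z1,[y1,z1])] []),
    .old (.lp [k2,k2,k2,k2,k2,k4] [k1,k1,k1,k1,k1,k1,k1,k1,k1,k1,k0,k0] k0 [] k8 k5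
    [[(k1,k2),(k10,k3)],[(k3,k2),(k9,k2)],[(k0,k2),(k6,k2)],[(k2,k2),(k5,k2),(k8,k2),(k11,k3)],[(k2,k2),(k5,k2),(k8,
    k2),(k11,k3)],[(k7,k2)],[(k4,k2)],[(k3,k2),(k9,k2)],[(k0,k2),(k6,k2)],[(k2,k2),(k5,k2),(k8,k2),(k11,k3)],[(k2,k3),
    (k5,k3),(k8,k3),(k11,k4)],[(k1,k3),(k10,k4)]]
    [] k0
    [[k0,k1,k1,k1,k0,k0],[k0,k0,k1,k1,k1,k0]]
    [.ref k1 k0 [(z1,[y1,z1])],.ref k0 k0 [(z1,[y1,z1])]])]⟩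

/-- classes `0 1 2 0 1 3`, types `C0 S0 C0 C2 S0 C0` -/
noncomputable def cU6_2511 : CertX :=
  ⟨[k4,k16,k36,k6,k16,k52],[(false,k0,[k0,k1,k2,k3,k4,k5])],[[[([z1,z0,z1,z1,z0,z1],z2)],[([z1,z1,z0,z0,z0,z1],z2)],
    []]],
    [.old (.leafM k2 [k2,k3,k5,k0] [] [(k4,k1,z1,[y1,z1]),(k1,k4,z1,[y1,z1])]),
    .old (.leafM k0 [k1,k2,k3,k4,k5,k0] [(z1,[y1,z1])] []),
    .old (.lp [k2,k2,k4,k2,k2,k2] [k1,k1,k1,k1,k0,k0,k1,k1,k1,k1,k1,k1] k0 [] k8 k5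
    [[(k10,k2)],[(k3,k2),(k6,k2)],[(k0,k2),(k9,k2)],[(k2,k2),(k8,k2),(k11,k2),(k5,k3)],[(k2,k3),(k8,k3),(k11,k3),(k5,
    k4)],[(k7,k3)],[(k4,k3)],[(k0,k2),(k9,k2)],[(k3,k2),(k6,k2)],[(k2,k2),(k8,k2),(k11,k2),(k5,k3)],[(k2,k2),(k8,k2),
    (k11,k2),(k5,k3)],[(k1,k2)]]
    [] k0
    [[k1,k1,k0,k0,k0,k1],[k0,k1,k0,k0,k1,k0]]
    [.ref k1 k0 [(z1,[z1])],.ref k0 k0 [(z1,[y1,z1])]])]⟩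

/-- classes `0 1 2 0 1 3`, types `C0 S0 C0 C2 S0 S0` -/
noncomputable def cU6_2512 : CertX :=
  ⟨[k4,k16,k36,k6,k16,k48],[(false,k0,[k0,k1,k2,k3,k4,k5])],[[[([z1,z1,z0,z0,z0,z1],z2)],[([z1,z0,z1,z1,z0,z1],z2)],
    []]],
    [.old (.leafM k0 [k1,k2,k3,k4,k5,k0] [(z1,[y1,z1])] []),
    .old (.leafM k2 [k2,k3,k5,k0] [] [(k4,k1,z1,[y1,z1]),(k1,k4,z1,[y1,z1])]),
    .old (.lp [k2,k2,k2,k2,k2,k4] [k1,k1,k1,k1,k1,k1,k1,k1,k1,k1,k0,k0] k0 [] k8 k5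
    [[(k1,k2),(k10,k3)],[(k3,k2),(k6,k2)],[(k0,k2),(k9,k2)],[(k2,k2),(k5,k2),(k8,k2),(k11,k3)],[(k2,k2),(k5,k2),(k8,
    k2),(k11,k3)],[(k7,k2)],[(k4,k2)],[(k0,k2),(k9,k2)],[(k3,k2),(k6,k2)],[(k2,k2),(k5,k2),(k8,k2),(k11,k3)],[(k2,k3),
    (k5,k3),(k8,k3),(k11,k4)],[(k1,k3),(k10,k4)]]
    [] k0
    [[k0,k1,k0,k0,k1,k0],[k0,k0,k1,k1,k1,k0]]
    [.ref k1 k0 [(z1,[y1,z1])],.ref k0 k0 [(z1,[y1,z1])]])]⟩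

/-- classes `0 1 2 0 1 3`, types `C0 S0 S0 C0 S0 S0` -/
noncomputable def cU6_2513 : CertX :=
  ⟨[k4,k16,k32,k4,k16,k48],[(false,k0,[k0,k1,k2,k3,k4,k5])],[[[([z1,z0,z0,z0,z1,z1],z2)],[([z1,z1,z0,z0,z0,z1],z2)],
    []]],
    [.old (.leafM k0 [k0,k1,k2,k3,k4,k5] [(z1,[y1,z1])] []),
    .old (.leafM k0 [k1,k2,k3,k4,k5,k0] [(z1,[y1,z1])] []),
    .old (.lp [k2,k2,k4,k2,k2,k2] [k1,k1,k1,k1,k0,k0,k1,k1,k1,k1,k1,k1] k0 [] k8 k5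
    [[(k1,k2),(k10,k2)],[(k3,k2),(k9,k2)],[(k0,k2),(k6,k2)],[(k2,k2),(k8,k2),(k11,k2),(k5,k3)],[(k2,k3),(k8,k3),(k11,
    k3),(k5,k4)],[(k7,k3),(k4,k4)],[(k7,k2),(k4,k3)],[(k3,k2),(k9,k2)],[(k0,k2),(k6,k2)],[(k2,k2),(k8,k2),(k11,k2),
    (k5,k3)],[(k2,k2),(k8,k2),(k11,k2),(k5,k3)],[(k1,k2),(k10,k2)]]
    [] k0
    [[k1,k1,k0,k0,k0,k1],[k1,k0,k0,k0,k1,k1],[k0,k0,k0,k0,k0,k2]]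
    [.ref k1 k0 [(z1,[z1])],.ref k0 k0 [(z1,[z1])],.contra [z1]])]⟩

/-- classes `0 1 2 0 1 3`, types `C0 S0 S0 C2 S0 S0` -/
noncomputable def cU6_2514 : CertX :=
  ⟨[k4,k16,k32,k6,k16,k48],[(false,k0,[k0,k1,k2,k3,k4,k5])],[[[([z1,z0,z1,z1,z0,z1],z2)],[([z1,z1,z0,z0,z0,z1],z2)],
    []]],
    [.old (.leafM k2 [k2,k3,k5,k0] [] [(k4,k1,z1,[y1,z1]),(k1,k4,z1,[y1,z1])]),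
    .old (.leafM k0 [k1,k2,k3,k4,k5,k0] [(z1,[y1,z1])] []),
    .old (.lp [k6,k6,k6,k6,k8,k12] [k5,k5,k5,k5,k5,k5,k5,k5,k4,k4,k4,k0] k0 [[],[],[k0,k0,k0,k0,k0,k0,k0,k0,k4],[],[],[],
    [],[],[],[k0,k0,k0,k4]] k24 k5
    [[(k1,k6),(k10,k7)],[(k3,k6),(k6,k6)],[(k0,k6),(k9,k7)],[(k2,k6),(k5,k6),(k8,k7),(k11,k7)],[(k2,k6),(k5,k6),(k8,
    k11),(k11,k11)],[(k4,k6),(k7,k6)],[(k4,k6),(k7,k6)],[(k0,k6),(k9,k7)],[(k3,k7),(k6,k7)],[(k2,k7),(k8,k8),(k5,k11),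
    (k11,k12)],[(k2,k7),(k5,k11),(k8,k12),(k11,k16)],[(k1,k7),(k10,k8)]]
    [] k0
    [[k1,k1,k0,k0,k0,k1],[k0,k1,k0,k0,k1,k0],[k0,k0,k2,k0,k0,k0]]
    [.ref k1 k0 [(z1,[z1])],.ref k0 k0 [(z1,[y1,z1])],.contra [z1]])]⟩

/-- classes `0 1 2 0 1 3`, types `N0 N0 C0 N1 N1 C0` -/
noncomputable def cU6_2515 : CertX :=
  ⟨[k12,k28,k36,k13,k29,k52],[],[[[]]],
    [.old (.lp [k0,k0,k0,k2,k2,k2] [k1,k1,k1,k1,k1,k1,k0,k0,k0,k0,k0,k0] k0 [] k4 k5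
    [[(k10,k1)],[(k9,k1)],[(k6,k1)],[(k11,k1)],[(k8,k1)],[(k7,k1)],[(k4,k1)],[(k3,k1)],[(k0,k1)],[(k5,k1)],[(k2,k1)],
    [(k1,k1)]]
    [] k0
    []
    [])]⟩

/-- classes `0 1 2 0 1 3`, types `N0 N0 C0 N1 N1 S0` -/
noncomputable def cU6_2516 : CertX :=
  ⟨[k12,k28,k36,k13,k29,k48],[],[[[]]],
    [.old (.lp [k2,k2,k2,k2,k2,k2] [k0,k0,k0,k0,k0,k0,k0,k0,k0,k0,k0,k0] k0 [] k8 k5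
    [[(k1,k2),(k10,k2)],[(k9,k2)],[(k6,k2)],[(k11,k2)],[(k8,k2)],[(k7,k2)],[(k4,k2)],[(k3,k2)],[(k0,k2)],[(k5,k2)],
    [(k2,k2)],[(k1,k2),(k10,k2)]]
    [] k0
    []
    [])]⟩

/-- classes `0 1 2 0 1 3`, types `N0 N0 C0 N1 N2 C0` -/
noncomputable def cU6_2517 : CertX :=
  ⟨[k12,k28,k36,k13,k30,k52],[],[[[]]],
    [.old (.lp [k0,k0,k0,k2,k2,k2] [k1,k1,k1,k1,k1,k1,k0,k0,k0,k0,k0,k0] k0 [] k4 k5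
    [[(k10,k1)],[(k9,k1)],[(k6,k1)],[(k8,k1)],[(k11,k1)],[(k7,k1)],[(k4,k1)],[(k3,k1)],[(k0,k1)],[(k2,k1)],[(k5,k1)],
    [(k1,k1)]]
    [] k0
    []
    [])]⟩

/-- classes `0 1 2 0 1 3`, types `N0 N0 C0 N1 N2 S0` -/
noncomputable def cU6_2518 : CertX :=
  ⟨[k12,k28,k36,k13,k30,k48],[],[[[]]],
    [.old (.lp [k2,k2,k2,k2,k2,k2] [k0,k0,k0,k0,k0,k0,k0,k0,k0,k0,k0,k0] k0 [] k8 k5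
    [[(k1,k2),(k10,k2)],[(k9,k2)],[(k6,k2)],[(k8,k2)],[(k11,k2)],[(k7,k2)],[(k4,k2)],[(k3,k2)],[(k0,k2)],[(k2,k2)],
    [(k5,k2)],[(k1,k2),(k10,k2)]]
    [] k0
    []
    [])]⟩

/-- classes `0 1 2 0 1 3`, types `N0 N0 C0 N2 N2 C0` -/
noncomputable def cU6_2519 : CertX :=
  ⟨[k12,k28,k36,k14,k30,k52],[(false,k0,[k0,k1,k2,k3,k4,k5])],[[[([z1,z0,z1,z1,z0,z1],z2)],[]]],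
    [.old (.leafM k2 [k2,k3,k5,k0] [] [(k4,k1,z1,[y1,z1]),(k1,k4,z1,[y1,z1])]),
    .old (.lp [k0,k2,k0,k2,k0,k2] [k1,k1,k0,k0,k1,k1,k0,k0,k1,k1,k0,k0] k0 [] k4 k5
    [[(k10,k1)],[(k6,k1)],[(k9,k1)],[(k8,k1)],[(k11,k1)],[(k7,k1)],[(k4,k1)],[(k0,k1)],[(k3,k1)],[(k2,k1)],[(k5,k1)],
    [(k1,k1)]]
    [] k0
    [[k0,k1,k0,k0,k1,k0]]
    [.ref k0 k0 [(z1,[y1,z1])]])]⟩

/-- classes `0 1 2 0 1 3`, types `N0 N0 C0 N2 N2 S0` -/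
noncomputable def cU6_2520 : CertX :=
  ⟨[k12,k28,k36,k14,k30,k48],[(false,k0,[k0,k1,k2,k3,k4,k5])],[[[([z1,z0,z1,z1,z0,z1],z2)],[]]],
    [.old (.leafM k2 [k2,k3,k5,k0] [] [(k4,k1,z1,[y1,z1]),(k1,k4,z1,[y1,z1])]),
    .old (.lp [k2,k0,k2,k2,k4,k2] [k1,k1,k2,k2,k1,k1,k1,k1,k0,k0,k1,k1] k0 [] k8 k5
    [[(k1,k2),(k10,k2)],[(k6,k2)],[(k9,k2)],[(k8,k2)],[(k11,k2)],[(k7,k2)],[(k4,k2)],[(k0,k2)],[(k3,k2)],[(k2,k2)],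
    [(k5,k2)],[(k1,k2),(k10,k2)]]
    [] k0
    [[k0,k1,k0,k0,k1,k0]]
    [.ref k0 k0 [(z1,[y1,z1])]])]⟩

/-- classes `0 1 2 0 1 3`, types `N0 N0 S0 N1 N1 S0` -/
noncomputable def cU6_2521 : CertX :=
  ⟨[k12,k28,k32,k13,k29,k48],[],[[[]]],
    [.old (.lp [k2,k2,k2,k2,k2,k2] [k0,k0,k0,k0,k0,k0,k0,k0,k0,k0,k0,k0] k0 [] k8 k5
    [[(k1,k2),(k10,k2)],[(k9,k2)],[(k6,k2)],[(k11,k2)],[(k8,k2)],[(k4,k2),(k7,k2)],[(k4,k2),(k7,k2)],[(k3,k2)],[(k0,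
    k2)],[(k5,k2)],[(k2,k2)],[(k1,k2),(k10,k2)]]
    [] k0
    []
    [])]⟩

/-- classes `0 1 2 0 1 3`, types `N0 N0 S0 N1 N2 S0` -/
noncomputable def cU6_2522 : CertX :=
  ⟨[k12,k28,k32,k13,k30,k48],[],[[[]]],
    [.old (.lp [k2,k2,k2,k2,k2,k2] [k0,k0,k0,k0,k0,k0,k0,k0,k0,k0,k0,k0] k0 [] k8 k5
    [[(k1,k2),(k10,k2)],[(k9,k2)],[(k6,k2)],[(k8,k2)],[(k11,k2)],[(k4,k2),(k7,k2)],[(k4,k2),(k7,k2)],[(k3,k2)],[(k0,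
    k2)],[(k2,k2)],[(k5,k2)],[(k1,k2),(k10,k2)]]
    [] k0
    []
    [])]⟩

/-- classes `0 1 2 0 1 3`, types `N0 N0 S0 N2 N2 S0` -/
noncomputable def cU6_2523 : CertX :=
  ⟨[k12,k28,k32,k14,k30,k48],[(false,k0,[k0,k1,k2,k3,k4,k5])],[[[([z1,z0,z1,z1,z0,z1],z2)],[]]],
    [.old (.leafM k2 [k2,k3,k5,k0] [] [(k4,k1,z1,[y1,z1]),(k1,k4,z1,[y1,z1])]),
    .old (.lp [k2,k0,k2,k2,k4,k2] [k1,k1,k2,k2,k1,k1,k1,k1,k0,k0,k1,k1] k0 [] k8 k5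
    [[(k1,k2),(k10,k2)],[(k6,k2)],[(k9,k2)],[(k8,k2)],[(k11,k2)],[(k4,k2),(k7,k2)],[(k4,k2),(k7,k2)],[(k0,k2)],[(k3,
    k2)],[(k2,k2)],[(k5,k2)],[(k1,k2),(k10,k2)]]
    [] k0
    [[k0,k1,k0,k0,k1,k0]]
    [.ref k0 k0 [(z1,[y1,z1])]])]⟩

/-- classes `0 1 2 0 1 3`, types `N0 S0 C0 N1 S0 C0` -/
noncomputable def cU6_2524 : CertX :=
  ⟨[k12,k16,k36,k13,k16,k52],[(false,k0,[k0,k1,k2,k3,k4,k5])],[[[([z1,z0,z0,z0,z1,z1],z2)],[]]],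
    [.old (.leafM k0 [k0,k1,k2,k3,k4,k5] [(z1,[y1,z1])] []),
    .old (.lp [k2,k4,k4,k0,k2,k2] [k1,k1,k0,k0,k0,k0,k2,k2,k1,k1,k1,k1] k0 [] k8 k5
    [[(k10,k2)],[(k9,k2)],[(k6,k2)],[(k8,k3),(k11,k3),(k2,k4),(k5,k4)],[(k8,k3),(k11,k3),(k2,k4),(k5,k4)],[(k7,k2)],
    [(k4,k2)],[(k3,k2)],[(k0,k2)],[(k8,k2),(k11,k2),(k2,k3),(k5,k3)],[(k8,k2),(k11,k2),(k2,k3),(k5,k3)],[(k1,k2)]]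
    [] k0
    [[k1,k0,k0,k0,k1,k1]]
    [.ref k0 k0 [(z1,[z1])]])]⟩

/-- classes `0 1 2 0 1 3`, types `N0 S0 C0 N1 S0 S0` -/
noncomputable def cU6_2525 : CertX :=
  ⟨[k12,k16,k36,k13,k16,k48],[(false,k0,[k0,k1,k2,k3,k4,k5])],[[[([z1,z0,z0,z0,z1,z1],z2)],[]]],
    [.old (.leafM k0 [k0,k1,k2,k3,k4,k5] [(z1,[y1,z1])] []),
    .old (.lp [k2,k2,k2,k2,k2,k4] [k1,k1,k1,k1,k1,k1,k1,k1,k1,k1,k0,k0] k0 [] k8 k5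
    [[(k1,k2),(k10,k3)],[(k9,k2)],[(k6,k2)],[(k2,k2),(k5,k2),(k8,k2),(k11,k3)],[(k2,k2),(k5,k2),(k8,k2),(k11,k3)],
    [(k7,k2)],[(k4,k2)],[(k3,k2)],[(k0,k2)],[(k2,k2),(k5,k2),(k8,k2),(k11,k3)],[(k2,k3),(k5,k3),(k8,k3),(k11,k4)],
    [(k1,k3),(k10,k4)]]
    [] k0
    [[k0,k1,k1,k1,k0,k0]]
    [.ref k0 k0 [(z1,[y1,z1])]])]⟩

/-- classes `0 1 2 0 1 3`, types `N0 S0 C0 N2 S0 C0` -/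
noncomputable def cU6_2526 : CertX :=
  ⟨[k12,k16,k36,k14,k16,k52],[(false,k0,[k0,k1,k2,k3,k4,k5])],[[[([z1,z0,z1,z1,z0,z1],z2)],[]]],
    [.old (.leafM k2 [k2,k3,k5,k0] [] [(k4,k1,z1,[y1,z1]),(k1,k4,z1,[y1,z1])]),
    .old (.lp [k2,k2,k2,k2,k2,k2] [k0,k0,k0,k0,k0,k0,k0,k0,k0,k0,k0,k0] k0 [] k8 k5
    [[(k10,k2)],[(k6,k2)],[(k9,k2)],[(k2,k2),(k5,k2),(k8,k2),(k11,k2)],[(k2,k2),(k5,k2),(k8,k2),(k11,k2)],[(k7,k2)],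
    [(k4,k2)],[(k0,k2)],[(k3,k2)],[(k2,k2),(k5,k2),(k8,k2),(k11,k2)],[(k2,k2),(k5,k2),(k8,k2),(k11,k2)],[(k1,k2)]]
    [] k0
    [[k0,k1,k0,k0,k1,k0]]
    [.ref k0 k0 [(z1,[y1,z1])]])]⟩

/-- classes `0 1 2 0 1 3`, types `N0 S0 C0 N2 S0 S0` -/
noncomputable def cU6_2527 : CertX :=
  ⟨[k12,k16,k36,k14,k16,k48],[(false,k0,[k0,k1,k2,k3,k4,k5])],[[[([z1,z0,z1,z1,z0,z1],z2)],[]]],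
    [.old (.leafM k2 [k2,k3,k5,k0] [] [(k4,k1,z1,[y1,z1]),(k1,k4,z1,[y1,z1])]),
    .old (.lp [k2,k2,k2,k2,k2,k4] [k1,k1,k1,k1,k1,k1,k1,k1,k1,k1,k0,k0] k0 [] k8 k5
    [[(k1,k2),(k10,k3)],[(k6,k2)],[(k9,k2)],[(k2,k2),(k5,k2),(k8,k2),(k11,k3)],[(k2,k2),(k5,k2),(k8,k2),(k11,k3)],
    [(k7,k2)],[(k4,k2)],[(k0,k2)],[(k3,k2)],[(k2,k2),(k5,k2),(k8,k2),(k11,k3)],[(k2,k3),(k5,k3),(k8,k3),(k11,k4)],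
    [(k1,k3),(k10,k4)]]
    [] k0
    [[k0,k1,k0,k0,k1,k0]]
    [.ref k0 k0 [(z1,[y1,z1])]])]⟩

/-- classes `0 1 2 0 1 3`, types `N0 S0 S0 N1 S0 S0` -/
noncomputable def cU6_2528 : CertX :=
  ⟨[k12,k16,k32,k13,k16,k48],[(false,k0,[k0,k1,k2,k3,k4,k5])],[[[([z1,z0,z0,z0,z1,z1],z2)],[]]],
    [.old (.leafM k0 [k0,k1,k2,k3,k4,k5] [(z1,[y1,z1])] []),
    .old (.lp [k2,k2,k4,k2,k2,k2] [k1,k1,k1,k1,k0,k0,k1,k1,k1,k1,k1,k1] k0 [] k8 k5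
    [[(k1,k2),(k10,k2)],[(k9,k2)],[(k6,k2)],[(k2,k2),(k8,k2),(k11,k2),(k5,k3)],[(k2,k3),(k8,k3),(k11,k3),(k5,k4)],
    [(k7,k3),(k4,k4)],[(k7,k2),(k4,k3)],[(k3,k2)],[(k0,k2)],[(k2,k2),(k8,k2),(k11,k2),(k5,k3)],[(k2,k2),(k8,k2),(k11,
    k2),(k5,k3)],[(k1,k2),(k10,k2)]]
    [] k0
    [[k1,k0,k0,k0,k1,k1],[k0,k0,k0,k0,k0,k2]]
    [.ref k0 k0 [(z1,[z1])],.contra [z1]])]⟩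

/-- classes `0 1 2 0 1 3`, types `N0 S0 S0 N2 S0 S0` -/
noncomputable def cU6_2529 : CertX :=
  ⟨[k12,k16,k32,k14,k16,k48],[(false,k0,[k0,k1,k2,k3,k4,k5])],[[[([z1,z0,z1,z1,z0,z1],z2)],[]]],
    [.old (.leafM k2 [k2,k3,k5,k0] [] [(k4,k1,z1,[y1,z1]),(k1,k4,z1,[y1,z1])]),
    .old (.lp [k2,k2,k4,k2,k2,k2] [k1,k1,k1,k1,k0,k0,k1,k1,k1,k1,k1,k1] k0 [] k8 k5
    [[(k1,k2),(k10,k2)],[(k6,k2)],[(k9,k2)],[(k2,k2),(k8,k2),(k11,k2),(k5,k3)],[(k2,k3),(k8,k3),(k11,k3),(k5,k4)],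
    [(k7,k3),(k4,k4)],[(k7,k2),(k4,k3)],[(k0,k2)],[(k3,k2)],[(k2,k2),(k8,k2),(k11,k2),(k5,k3)],[(k2,k2),(k8,k2),(k11,
    k2),(k5,k3)],[(k1,k2),(k10,k2)]]
    [] k0
    [[k0,k1,k0,k0,k1,k0],[k0,k0,k0,k0,k0,k2]]
    [.ref k0 k0 [(z1,[y1,z1])],.contra [z1]])]⟩

/-- classes `0 1 2 0 1 3`, types `S0 S0 C0 S0 S0 C0` -/
noncomputable def cU6_2530 : CertX :=
  ⟨[k0,k16,k36,k0,k16,k52],[(true,k2,[k2,k1,k0,k5,k4,k3]),(false,k0,[k0,k1,k2,k3,k4,k5])],[[[([z1,z0,z1,z1,z0,z1],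
    z2)],[([z1,z0,z0,z0,z1,z1],z2)],[]]],
    [.old (.leafM k2 [k2,k3,k5,k0] [] [(k4,k1,z1,[y1,z1]),(k1,k4,z1,[y1,z1])]),
    .old (.leafM k0 [k0,k1,k2,k3,k4,k5] [(z1,[y1,z1])] []),
    .old (.lp [k6,k12,k6,k6,k10,k6] [k3,k3,k0,k0,k3,k3,k3,k3,k1,k1,k3,k3] k0 [[],[k0,k0,k0,k0,k0,k0,k0,k2],[k0,k0,k0,k0,
    k0,k0,k0,k0,k2],[],[],[],[k2],[],[],[k0,k0,k0,k2]] k24 k5
    [[(k10,k6)],[(k0,k6),(k6,k6),(k3,k9),(k9,k10)],[(k6,k7),(k0,k9),(k9,k11),(k3,k12)],[(k11,k7),(k5,k9),(k8,k11),(k2,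
    k12)],[(k5,k6),(k11,k6),(k2,k9),(k8,k10)],[(k7,k6)],[(k4,k6)],[(k0,k6),(k6,k6),(k3,k7),(k9,k8)],[(k6,k8),(k0,k10),
    (k9,k10),(k3,k11)],[(k11,k8),(k5,k10),(k8,k10),(k2,k11)],[(k5,k6),(k11,k6),(k2,k7),(k8,k8)],[(k1,k6)]]
    [] k0
    [[k1,k1,k0,k0,k0,k1],[k0,k1,k1,k1,k0,k0],[k0,k1,k0,k0,k1,k0],[k0,k0,k0,k0,k2,k0]]
    [.ref k1 k0 [(z1,[y1,z1])],.ref k1 k1 [(z1,[y1,z1])],.ref k0 k1 [(z1,[y1,z1])],.contra [z1]])]⟩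

/-- classes `0 1 2 0 1 3`, types `S0 S0 C0 S0 S0 S0` -/
noncomputable def cU6_2531 : CertX :=
  ⟨[k0,k16,k36,k0,k16,k48],[(true,k5,[k5,k4,k3,k2,k1,k0]),(false,k0,[k0,k1,k2,k3,k4,k5])],[[[([z1,z0,z1,z1,z0,z1],
    z2)],[([z1,z0,z0,z0,z1,z1],z2)],[]]],
    [.old (.leafM k2 [k2,k3,k5,k0] [] [(k4,k1,z1,[y1,z1]),(k1,k4,z1,[y1,z1])]),
    .old (.leafM k0 [k0,k1,k2,k3,k4,k5] [(z1,[y1,z1])] []),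
    .old (.lp [k6,k8,k6,k6,k12,k6] [k5,k5,k4,k4,k5,k5,k5,k5,k4,k0,k5,k5] k0 [[k0,k0,k0,k0,k0,k0,k4],[],[],[],[],[],[],[k0,
    k4]] k24 k5
    [[(k1,k6),(k10,k6)],[(k0,k6),(k6,k6),(k3,k7),(k9,k7)],[(k0,k7),(k3,k8),(k6,k11),(k9,k12)],[(k5,k7),(k11,k7),(k2,
    k8),(k8,k8)],[(k5,k6),(k11,k6),(k2,k7),(k8,k7)],[(k7,k6)],[(k4,k6)],[(k0,k6),(k6,k6),(k3,k11),(k9,k11)],[(k0,k7),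
    (k6,k11),(k3,k12),(k9,k16)],[(k5,k7),(k11,k7),(k2,k8),(k8,k8)],[(k5,k6),(k11,k6),(k2,k7),(k8,k7)],[(k1,k6),(k10,
    k6)]]
    [] k0
    [[k2,k0,k0,k0,k0,k0],[k1,k1,k0,k0,k0,k1],[k1,k0,k0,k0,k1,k1],[k0,k2,k0,k0,k0,k0],[k0,k1,k0,k0,k1,k0],[k0,k0,k0,k0,
    k0,k2]]
    [.contra [z1],.ref k1 k0 [(z1,[z1])],.ref k1 k1 [(z1,[z1])],.contra [z1],.ref k0 k1 [(z1,[y1,z1])],.contra [z1]])]⟩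

/-- classes `0 1 2 0 3 4`, types `B0 C0 C0 B1 C0 C0` -/
noncomputable def cU6_2532 : CertX :=
  ⟨[k8,k20,k36,k9,k52,k68],[(false,k0,[k0,k1,k2,k3,k4,k5])],[[[([z1,z0,z0,z0,z1,z1],z2)],[]]],
    [.old (.leafM k0 [k0,k1,k2,k3,k4,k5] [(z1,[y1,z1])] []),
    .old (.lp [k2,k2,k2,k2,k2,k4] [k1,k1,k1,k1,k1,k1,k1,k1,k1,k1,k0,k0] k0 [] k8 k5
    [[(k10,k3)],[(k6,k2),(k9,k2)],[(k6,k2),(k9,k2)],[(k5,k2)],[(k2,k2)],[(k7,k2)],[(k4,k2)],[(k0,k2),(k3,k2)],[(k0,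
    k2),(k3,k2)],[(k11,k3)],[(k8,k3)],[(k1,k3)]]
    [] k0
    [[k0,k1,k1,k1,k0,k0]]
    [.ref k0 k0 [(z1,[y1,z1])]])]⟩

/-- classes `0 1 2 0 3 4`, types `B0 C0 C0 B1 C0 S0` -/
noncomputable def cU6_2533 : CertX :=
  ⟨[k8,k20,k36,k9,k52,k64],[(false,k0,[k0,k1,k2,k3,k4,k5])],[[[([z1,z0,z0,z0,z1,z1],z2)],[]]],
    [.old (.leafM k0 [k0,k1,k2,k3,k4,k5] [(z1,[y1,z1])] []),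
    .old (.lp [k4,k2,k2,k2,k2,k2] [k0,k0,k1,k1,k1,k1,k1,k1,k1,k1,k1,k1] k0 [] k8 k5
    [[(k10,k3),(k1,k4)],[(k6,k3),(k9,k3)],[(k6,k2),(k9,k2)],[(k5,k2)],[(k2,k2)],[(k7,k2)],[(k4,k2)],[(k3,k2),(k0,k3)],
    [(k3,k2),(k0,k3)],[(k11,k2)],[(k8,k2)],[(k10,k2),(k1,k3)]]
    [] k0
    [[k0,k1,k1,k1,k0,k0]]
    [.ref k0 k0 [(z1,[y1,z1])]])]⟩

/-- classes `0 1 2 0 3 4`, types `B0 C0 C0 B1 S0 S0` -/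
noncomputable def cU6_2534 : CertX :=
  ⟨[k8,k20,k36,k9,k48,k64],[(false,k0,[k0,k1,k2,k3,k4,k5])],[[[([z1,z0,z0,z0,z1,z1],z2)],[]]],
    [.old (.leafM k0 [k0,k1,k2,k3,k4,k5] [(z1,[y1,z1])] []),
    .old (.lp [k2,k2,k2,k4,k2,k2] [k1,k1,k1,k1,k1,k1,k0,k0,k1,k1,k1,k1] k0 [] k8 k5
    [[(k1,k2),(k10,k2)],[(k9,k2),(k6,k3)],[(k9,k2),(k6,k3)],[(k5,k2)],[(k2,k2)],[(k7,k3)],[(k4,k3)],[(k0,k3),(k3,k3)],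
    [(k0,k2),(k3,k2)],[(k8,k2),(k11,k2)],[(k8,k2),(k11,k2)],[(k1,k2),(k10,k2)]]
    [] k0
    [[k1,k0,k0,k0,k1,k1],[k0,k0,k0,k0,k0,k2]]
    [.ref k0 k0 [(z1,[z1])],.contra [z1]])]⟩

/-- classes `0 1 2 0 3 4`, types `B0 C0 S0 B1 C0 S0` -/
noncomputable def cU6_2535 : CertX :=
  ⟨[k8,k20,k32,k9,k52,k64],[(false,k0,[k0,k1,k2,k3,k4,k5])],[[[([z1,z0,z0,z0,z1,z1],z2)],[]]],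
    [.old (.leafM k0 [k0,k1,k2,k3,k4,k5] [(z1,[y1,z1])] []),
    .old (.lp [k2,k2,k2,k4,k2,k2] [k1,k1,k1,k1,k1,k1,k0,k0,k1,k1,k1,k1] k0 [] k8 k5
    [[(k1,k2),(k10,k2)],[(k9,k2),(k6,k3)],[(k9,k2),(k6,k3)],[(k5,k2)],[(k2,k2)],[(k4,k2),(k7,k3)],[(k4,k3),(k7,k4)],
    [(k0,k3),(k3,k3)],[(k0,k2),(k3,k2)],[(k11,k2)],[(k8,k2)],[(k1,k2),(k10,k2)]]
    [] k0
    [[k1,k0,k0,k0,k1,k1]]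
    [.ref k0 k0 [(z1,[z1])]])]⟩

/-- classes `0 1 2 0 3 4`, types `B0 C0 S0 B1 S0 C0` -/
noncomputable def cU6_2536 : CertX :=
  ⟨[k8,k20,k32,k9,k48,k68],[(false,k0,[k0,k1,k2,k3,k4,k5])],[[[([z1,z0,z0,z0,z1,z1],z2)],[]]],
    [.old (.leafM k0 [k0,k1,k2,k3,k4,k5] [(z1,[y1,z1])] []),
    .old (.lp [k2,k2,k2,k4,k2,k2] [k1,k1,k1,k1,k1,k1,k0,k0,k1,k1,k1,k1] k0 [] k8 k5
    [[(k10,k2)],[(k9,k2),(k6,k3)],[(k9,k2),(k6,k3)],[(k5,k2)],[(k2,k2)],[(k4,k2),(k7,k3)],[(k4,k3),(k7,k4)],[(k0,k3),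
    (k3,k3)],[(k0,k2),(k3,k2)],[(k8,k2),(k11,k2)],[(k8,k2),(k11,k2)],[(k1,k2)]]
    [] k0
    [[k1,k0,k0,k0,k1,k1]]
    [.ref k0 k0 [(z1,[z1])]])]⟩

/-- classes `0 1 2 0 3 4`, types `B0 C0 S0 B1 S0 S0` -/
noncomputable def cU6_2537 : CertX :=
  ⟨[k8,k20,k32,k9,k48,k64],[(false,k0,[k0,k1,k2,k3,k4,k5])],[[[([z1,z0,z0,z0,z1,z1],z2)],[]]],
    [.old (.leafM k0 [k0,k1,k2,k3,k4,k5] [(z1,[y1,z1])] []),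
    .old (.lp [k2,k4,k2,k2,k2,k2] [k1,k1,k0,k0,k1,k1,k1,k1,k1,k1,k1,k1] k0 [] k8 k5
    [[(k1,k2),(k10,k2)],[(k6,k2),(k9,k2)],[(k6,k3),(k9,k3)],[(k5,k3)],[(k2,k3)],[(k4,k2),(k7,k2)],[(k4,k2),(k7,k2)],
    [(k0,k2),(k3,k3)],[(k0,k2),(k3,k3)],[(k8,k2),(k11,k2)],[(k8,k2),(k11,k2)],[(k1,k2),(k10,k2)]]
    [] k0
    [[k1,k0,k0,k0,k1,k1],[k0,k0,k0,k0,k0,k2]]
    [.ref k0 k0 [(z1,[z1])],.contra [z1]])]⟩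

/-- classes `0 1 2 0 3 4`, types `B0 S0 S0 B1 S0 S0` -/
noncomputable def cU6_2538 : CertX :=
  ⟨[k8,k16,k32,k9,k48,k64],[(false,k0,[k0,k1,k2,k3,k4,k5])],[[[([z1,z0,z0,z0,z1,z1],z2)],[]]],
    [.old (.leafM k0 [k0,k1,k2,k3,k4,k5] [(z1,[y1,z1])] []),
    .old (.lp [k2,k2,k2,k2,k2,k4] [k1,k1,k1,k1,k1,k1,k1,k1,k1,k1,k0,k0] k0 [] k8 k5
    [[(k1,k2),(k10,k3)],[(k6,k2),(k9,k2)],[(k6,k2),(k9,k2)],[(k2,k2),(k5,k2)],[(k2,k2),(k5,k2)],[(k4,k2),(k7,k2)],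
    [(k4,k2),(k7,k2)],[(k0,k2),(k3,k2)],[(k0,k2),(k3,k2)],[(k8,k2),(k11,k3)],[(k8,k3),(k11,k4)],[(k1,k3),(k10,k4)]]
    [] k0
    [[k0,k1,k1,k1,k0,k0],[k0,k0,k2,k0,k0,k0]]
    [.ref k0 k0 [(z1,[y1,z1])],.contra [z1]])]⟩

/-- classes `0 1 2 0 3 4`, types `C0 C0 C0 C0 C0 C0` -/
noncomputable def cU6_2539 : CertX :=
  ⟨[k4,k20,k36,k4,k52,k68],[(false,k0,[k0,k1,k2,k3,k4,k5])],[[[([z1,z0,z0,z0,z1,z1],z2)],[]]],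
    [.old (.leafM k0 [k0,k1,k2,k3,k4,k5] [(z1,[y1,z1])] []),
    .old (.lp [k2,k2,k2,k2,k2,k4] [k1,k1,k1,k1,k1,k1,k1,k1,k1,k1,k0,k0] k0 [] k8 k5
    [[(k10,k3)],[(k3,k2),(k9,k2)],[(k0,k2),(k6,k2)],[(k5,k2)],[(k2,k2)],[(k7,k2)],[(k4,k2)],[(k3,k2),(k9,k2)],[(k0,
    k2),(k6,k2)],[(k11,k3)],[(k8,k3)],[(k1,k3)]]
    [] k0
    [[k0,k1,k1,k1,k0,k0]]
    [.ref k0 k0 [(z1,[y1,z1])]])]⟩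

/-- classes `0 1 2 0 3 4`, types `C0 C0 C0 C0 C0 S0` -/
noncomputable def cU6_2540 : CertX :=
  ⟨[k4,k20,k36,k4,k52,k64],[(false,k0,[k0,k1,k2,k3,k4,k5])],[[[([z1,z0,z0,z0,z1,z1],z2)],[]]],
    [.old (.leafM k0 [k0,k1,k2,k3,k4,k5] [(z1,[y1,z1])] []),
    .old (.lp [k2,k2,k2,k2,k2,k4] [k1,k1,k1,k1,k1,k1,k1,k1,k1,k1,k0,k0] k0 [] k8 k5
    [[(k1,k2),(k10,k3)],[(k3,k2),(k9,k2)],[(k0,k2),(k6,k2)],[(k5,k2)],[(k2,k2)],[(k7,k2)],[(k4,k2)],[(k3,k2),(k9,k2)],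
    [(k0,k2),(k6,k2)],[(k11,k3)],[(k8,k3)],[(k1,k3),(k10,k4)]]
    [] k0
    [[k0,k1,k1,k1,k0,k0]]
    [.ref k0 k0 [(z1,[y1,z1])]])]⟩

/-- classes `0 1 2 0 3 4`, types `C0 C0 C0 C0 S0 S0` -/
noncomputable def cU6_2541 : CertX :=
  ⟨[k4,k20,k36,k4,k48,k64],[(false,k0,[k0,k1,k2,k3,k4,k5])],[[[([z1,z0,z0,z0,z1,z1],z2)],[]]],
    [.old (.leafM k0 [k0,k1,k2,k3,k4,k5] [(z1,[y1,z1])] []),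
    .old (.lp [k2,k2,k2,k2,k2,k4] [k1,k1,k1,k1,k1,k1,k1,k1,k1,k1,k0,k0] k0 [] k8 k5
    [[(k1,k2),(k10,k3)],[(k3,k2),(k9,k2)],[(k0,k2),(k6,k2)],[(k5,k2)],[(k2,k2)],[(k7,k2)],[(k4,k2)],[(k3,k2),(k9,k2)],
    [(k0,k2),(k6,k2)],[(k8,k2),(k11,k3)],[(k8,k3),(k11,k4)],[(k1,k3),(k10,k4)]]
    [] k0
    [[k0,k1,k1,k1,k0,k0]]
    [.ref k0 k0 [(z1,[y1,z1])]])]⟩

/-- classes `0 1 2 0 3 4`, types `C0 C0 C0 C2 C0 C0` -/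
noncomputable def cU6_2542 : CertX :=
  ⟨[k4,k20,k36,k6,k52,k68],[],[[[]]],
    [.old (.lp [k0,k2,k0,k2,k0,k2] [k1,k1,k0,k0,k1,k1,k0,k0,k1,k1,k0,k0] k0 [] k4 k5
    [[(k10,k1)],[(k3,k1),(k6,k1)],[(k0,k1),(k9,k1)],[(k5,k1)],[(k2,k1)],[(k7,k1)],[(k4,k1)],[(k0,k1),(k9,k1)],[(k3,
    k1),(k6,k1)],[(k11,k1)],[(k8,k1)],[(k1,k1)]]
    [] k0
    []
    [])]⟩

/-- classes `0 1 2 0 3 4`, types `C0 C0 C0 C2 C0 S0` -/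
noncomputable def cU6_2543 : CertX :=
  ⟨[k4,k20,k36,k6,k52,k64],[],[[[]]],
    [.old (.lp [k2,k2,k2,k2,k2,k2] [k0,k0,k0,k0,k0,k0,k0,k0,k0,k0,k0,k0] k0 [] k8 k5
    [[(k1,k2),(k10,k2)],[(k3,k2),(k6,k2)],[(k0,k2),(k9,k2)],[(k5,k2)],[(k2,k2)],[(k7,k2)],[(k4,k2)],[(k0,k2),(k9,k2)],
    [(k3,k2),(k6,k2)],[(k11,k2)],[(k8,k2)],[(k1,k2),(k10,k2)]]
    [] k0
    []
    [])]⟩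

/-- classes `0 1 2 0 3 4`, types `C0 C0 C0 C2 S0 S0` -/
noncomputable def cU6_2544 : CertX :=
  ⟨[k4,k20,k36,k6,k48,k64],[],[[[]]],
    [.old (.lp [k2,k2,k2,k2,k2,k4] [k1,k1,k1,k1,k1,k1,k1,k1,k1,k1,k0,k0] k0 [] k8 k5
    [[(k1,k2),(k10,k3)],[(k3,k2),(k6,k2)],[(k0,k2),(k9,k2)],[(k5,k2)],[(k2,k2)],[(k7,k2)],[(k4,k2)],[(k0,k2),(k9,k2)],
    [(k3,k2),(k6,k2)],[(k8,k2),(k11,k3)],[(k8,k3),(k11,k4)],[(k1,k3),(k10,k4)]]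
    [] k0
    []
    [])]⟩

/-- classes `0 1 2 0 3 4`, types `C0 C0 S0 C0 C0 S0` -/
noncomputable def cU6_2545 : CertX :=
  ⟨[k4,k20,k32,k4,k52,k64],[(false,k0,[k0,k1,k2,k3,k4,k5])],[[[([z1,z0,z0,z0,z1,z1],z2)],[]]],
    [.old (.leafM k0 [k0,k1,k2,k3,k4,k5] [(z1,[y1,z1])] []),
    .old (.lp [k4,k2,k2,k2,k2,k2] [k0,k0,k1,k1,k1,k1,k1,k1,k1,k1,k1,k1] k0 [] k8 k5
    [[(k10,k3),(k1,k4)],[(k3,k3),(k9,k3)],[(k6,k2),(k0,k3)],[(k5,k2)],[(k2,k2)],[(k4,k2),(k7,k2)],[(k4,k2),(k7,k2)],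
    [(k3,k2),(k9,k2)],[(k6,k2),(k0,k3)],[(k11,k2)],[(k8,k2)],[(k10,k2),(k1,k3)]]
    [] k0
    [[k0,k1,k1,k1,k0,k0]]
    [.ref k0 k0 [(z1,[y1,z1])]])]⟩

/-- classes `0 1 2 0 3 4`, types `C0 C0 S0 C0 S0 C0` -/
noncomputable def cU6_2546 : CertX :=
  ⟨[k4,k20,k32,k4,k48,k68],[(false,k0,[k0,k1,k2,k3,k4,k5])],[[[([z1,z0,z0,z0,z1,z1],z2)],[]]],
    [.old (.leafM k0 [k0,k1,k2,k3,k4,k5] [(z1,[y1,z1])] []),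
    .old (.lp [k4,k2,k2,k2,k2,k2] [k0,k0,k1,k1,k1,k1,k1,k1,k1,k1,k1,k1] k0 [] k8 k5
    [[(k10,k3)],[(k3,k3),(k9,k3)],[(k6,k2),(k0,k3)],[(k5,k2)],[(k2,k2)],[(k4,k2),(k7,k2)],[(k4,k2),(k7,k2)],[(k3,k2),
    (k9,k2)],[(k6,k2),(k0,k3)],[(k8,k2),(k11,k2)],[(k8,k2),(k11,k2)],[(k1,k3)]]
    [] k0
    [[k0,k1,k1,k1,k0,k0]]
    [.ref k0 k0 [(z1,[y1,z1])]])]⟩

/-- classes `0 1 2 0 3 4`, types `C0 C0 S0 C0 S0 S0` -/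
noncomputable def cU6_2547 : CertX :=
  ⟨[k4,k20,k32,k4,k48,k64],[(false,k0,[k0,k1,k2,k3,k4,k5])],[[[([z1,z0,z0,z0,z1,z1],z2)],[]]],
    [.old (.leafM k0 [k0,k1,k2,k3,k4,k5] [(z1,[y1,z1])] []),
    .old (.lp [k2,k2,k2,k4,k2,k2] [k1,k1,k1,k1,k1,k1,k0,k0,k1,k1,k1,k1] k0 [] k8 k5
    [[(k1,k2),(k10,k2)],[(k3,k2),(k9,k2)],[(k0,k2),(k6,k3)],[(k5,k2)],[(k2,k2)],[(k4,k2),(k7,k3)],[(k4,k3),(k7,k4)],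
    [(k3,k3),(k9,k3)],[(k0,k2),(k6,k3)],[(k8,k2),(k11,k2)],[(k8,k2),(k11,k2)],[(k1,k2),(k10,k2)]]
    [] k0
    [[k1,k0,k0,k0,k1,k1],[k0,k0,k0,k0,k0,k2]]
    [.ref k0 k0 [(z1,[z1])],.contra [z1]])]⟩

/-- classes `0 1 2 0 3 4`, types `C0 C0 S0 C2 C0 S0` -/
noncomputable def cU6_2548 : CertX :=
  ⟨[k4,k20,k32,k6,k52,k64],[],[[[]]],
    [.old (.lp [k2,k2,k2,k2,k2,k2] [k0,k0,k0,k0,k0,k0,k0,k0,k0,k0,k0,k0] k0 [] k8 k5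
    [[(k1,k2),(k10,k2)],[(k3,k2),(k6,k2)],[(k0,k2),(k9,k2)],[(k5,k2)],[(k2,k2)],[(k4,k2),(k7,k2)],[(k4,k2),(k7,k2)],
    [(k0,k2),(k9,k2)],[(k3,k2),(k6,k2)],[(k11,k2)],[(k8,k2)],[(k1,k2),(k10,k2)]]
    [] k0
    []
    [])]⟩

/-- classes `0 1 2 0 3 4`, types `C0 C0 S0 C2 S0 C0` -/
noncomputable def cU6_2549 : CertX :=
  ⟨[k4,k20,k32,k6,k48,k68],[],[[[]]],
    [.old (.lp [k2,k2,k2,k2,k2,k2] [k0,k0,k0,k0,k0,k0,k0,k0,k0,k0,k0,k0] k0 [] k8 k5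
    [[(k10,k2)],[(k3,k2),(k6,k2)],[(k0,k2),(k9,k2)],[(k5,k2)],[(k2,k2)],[(k4,k2),(k7,k2)],[(k4,k2),(k7,k2)],[(k0,k2),
    (k9,k2)],[(k3,k2),(k6,k2)],[(k8,k2),(k11,k2)],[(k8,k2),(k11,k2)],[(k1,k2)]]
    [] k0
    []
    [])]⟩

/-- classes `0 1 2 0 3 4`, types `C0 C0 S0 C2 S0 S0` -/
noncomputable def cU6_2550 : CertX :=
  ⟨[k4,k20,k32,k6,k48,k64],[],[[[]]],
    [.old (.lp [k2,k2,k2,k2,k2,k4] [k1,k1,k1,k1,k1,k1,k1,k1,k1,k1,k0,k0] k0 [] k8 k5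
    [[(k1,k2),(k10,k3)],[(k3,k2),(k6,k2)],[(k0,k2),(k9,k2)],[(k5,k2)],[(k2,k2)],[(k4,k2),(k7,k2)],[(k4,k2),(k7,k2)],
    [(k0,k2),(k9,k2)],[(k3,k2),(k6,k2)],[(k8,k2),(k11,k3)],[(k8,k3),(k11,k4)],[(k1,k3),(k10,k4)]]
    [] k0
    []
    [])]⟩

/-- classes `0 1 2 0 3 4`, types `C0 S0 S0 C0 S0 S0` -/
noncomputable def cU6_2551 : CertX :=
  ⟨[k4,k16,k32,k4,k48,k64],[(false,k0,[k0,k1,k2,k3,k4,k5])],[[[([z1,z0,z0,z0,z1,z1],z2)],[]]],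
    [.old (.leafM k0 [k0,k1,k2,k3,k4,k5] [(z1,[y1,z1])] []),
    .old (.lp [k2,k2,k4,k2,k2,k2] [k1,k1,k1,k1,k0,k0,k1,k1,k1,k1,k1,k1] k0 [] k8 k5
    [[(k1,k2),(k10,k2)],[(k3,k2),(k9,k2)],[(k0,k2),(k6,k2)],[(k2,k2),(k5,k3)],[(k2,k3),(k5,k4)],[(k7,k3),(k4,k4)],
    [(k7,k2),(k4,k3)],[(k3,k2),(k9,k2)],[(k0,k2),(k6,k2)],[(k8,k2),(k11,k2)],[(k8,k2),(k11,k2)],[(k1,k2),(k10,k2)]]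
    [] k0
    [[k1,k0,k0,k0,k1,k1],[k0,k0,k0,k0,k0,k2]]
    [.ref k0 k0 [(z1,[z1])],.contra [z1]])]⟩

/-- classes `0 1 2 0 3 4`, types `C0 S0 S0 C2 S0 S0` -/
noncomputable def cU6_2552 : CertX :=
  ⟨[k4,k16,k32,k6,k48,k64],[],[[[]]],
    [.old (.lp [k2,k2,k4,k2,k2,k2] [k1,k1,k1,k1,k0,k0,k1,k1,k1,k1,k1,k1] k0 [] k8 k5
    [[(k1,k2),(k10,k2)],[(k3,k2),(k6,k2)],[(k0,k2),(k9,k2)],[(k2,k2),(k5,k3)],[(k2,k3),(k5,k4)],[(k7,k3),(k4,k4)],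
    [(k7,k2),(k4,k3)],[(k0,k2),(k9,k2)],[(k3,k2),(k6,k2)],[(k8,k2),(k11,k2)],[(k8,k2),(k11,k2)],[(k1,k2),(k10,k2)]]
    [] k0
    [[k0,k0,k0,k0,k0,k2]]
    [.contra [z1]])]⟩

/-- classes `0 1 2 0 3 4`, types `N0 C0 C0 N1 C0 C0` -/
noncomputable def cU6_2553 : CertX :=
  ⟨[k12,k20,k36,k13,k52,k68],[(false,k0,[k0,k1,k2,k3,k4,k5])],[[[([z1,z0,z0,z0,z1,z1],z2)],[]]],
    [.old (.leafM k0 [k0,k1,k2,k3,k4,k5] [(z1,[y1,z1])] []),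
    .old (.lp [k4,k2,k2,k2,k0,k4] [k0,k0,k1,k1,k1,k1,k1,k1,k2,k2,k0,k0] k0 [] k8 k5
    [[(k10,k4)],[(k9,k2)],[(k6,k2)],[(k5,k2)],[(k2,k2)],[(k7,k2)],[(k4,k2)],[(k3,k2)],[(k0,k2)],[(k11,k2)],[(k8,k2)],
    [(k1,k4)]]
    [] k0
    [[k0,k1,k1,k1,k0,k0]]
    [.ref k0 k0 [(z1,[y1,z1])]])]⟩

/-- classes `0 1 2 0 3 4`, types `N0 C0 C0 N1 C0 S0` -/
noncomputable def cU6_2554 : CertX :=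
  ⟨[k12,k20,k36,k13,k52,k64],[(false,k0,[k0,k1,k2,k3,k4,k5])],[[[([z1,z0,z0,z0,z1,z1],z2)],[]]],
    [.old (.leafM k0 [k0,k1,k2,k3,k4,k5] [(z1,[y1,z1])] []),
    .old (.lp [k2,k2,k2,k2,k2,k4] [k1,k1,k1,k1,k1,k1,k1,k1,k1,k1,k0,k0] k0 [] k8 k5
    [[(k1,k2),(k10,k3)],[(k9,k2)],[(k6,k2)],[(k5,k2)],[(k2,k2)],[(k7,k2)],[(k4,k2)],[(k3,k2)],[(k0,k2)],[(k11,k3)],
    [(k8,k3)],[(k1,k3),(k10,k4)]]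
    [] k0
    [[k0,k1,k1,k1,k0,k0]]
    [.ref k0 k0 [(z1,[y1,z1])]])]⟩

/-- classes `0 1 2 0 3 4`, types `N0 C0 C0 N1 S0 S0` -/
noncomputable def cU6_2555 : CertX :=
  ⟨[k12,k20,k36,k13,k48,k64],[(false,k0,[k0,k1,k2,k3,k4,k5])],[[[([z1,z0,z0,z0,z1,z1],z2)],[]]],
    [.old (.leafM k0 [k0,k1,k2,k3,k4,k5] [(z1,[y1,z1])] []),
    .old (.lp [k2,k2,k2,k2,k2,k4] [k1,k1,k1,k1,k1,k1,k1,k1,k1,k1,k0,k0] k0 [] k8 k5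
    [[(k1,k2),(k10,k3)],[(k9,k2)],[(k6,k2)],[(k5,k2)],[(k2,k2)],[(k7,k2)],[(k4,k2)],[(k3,k2)],[(k0,k2)],[(k8,k2),(k11,
    k3)],[(k8,k3),(k11,k4)],[(k1,k3),(k10,k4)]]
    [] k0
    [[k0,k1,k1,k1,k0,k0]]
    [.ref k0 k0 [(z1,[y1,z1])]])]⟩

/-- classes `0 1 2 0 3 4`, types `N0 C0 C0 N2 C0 C0` -/
noncomputable def cU6_2556 : CertX :=
  ⟨[k12,k20,k36,k14,k52,k68],[],[[[]]],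
    [.old (.lp [k0,k2,k0,k2,k0,k2] [k1,k1,k0,k0,k1,k1,k0,k0,k1,k1,k0,k0] k0 [] k4 k5
    [[(k10,k1)],[(k6,k1)],[(k9,k1)],[(k5,k1)],[(k2,k1)],[(k7,k1)],[(k4,k1)],[(k0,k1)],[(k3,k1)],[(k11,k1)],[(k8,k1)],
    [(k1,k1)]]
    [] k0
    []
    [])]⟩

/-- classes `0 1 2 0 3 4`, types `N0 C0 C0 N2 C0 S0` -/
noncomputable def cU6_2557 : CertX :=
  ⟨[k12,k20,k36,k14,k52,k64],[],[[[]]],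
    [.old (.lp [k2,k2,k2,k2,k2,k2] [k0,k0,k0,k0,k0,k0,k0,k0,k0,k0,k0,k0] k0 [] k8 k5
    [[(k1,k2),(k10,k2)],[(k6,k2)],[(k9,k2)],[(k5,k2)],[(k2,k2)],[(k7,k2)],[(k4,k2)],[(k0,k2)],[(k3,k2)],[(k11,k2)],
    [(k8,k2)],[(k1,k2),(k10,k2)]]
    [] k0
    []
    [])]⟩

/-- classes `0 1 2 0 3 4`, types `N0 C0 C0 N2 S0 S0` -/
noncomputable def cU6_2558 : CertX :=
  ⟨[k12,k20,k36,k14,k48,k64],[],[[[]]],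
    [.old (.lp [k2,k2,k2,k2,k2,k4] [k1,k1,k1,k1,k1,k1,k1,k1,k1,k1,k0,k0] k0 [] k8 k5
    [[(k1,k2),(k10,k3)],[(k6,k2)],[(k9,k2)],[(k5,k2)],[(k2,k2)],[(k7,k2)],[(k4,k2)],[(k0,k2)],[(k3,k2)],[(k8,k2),(k11,
    k3)],[(k8,k3),(k11,k4)],[(k1,k3),(k10,k4)]]
    [] k0
    []
    [])]⟩

/-- classes `0 1 2 0 3 4`, types `N0 C0 S0 N1 C0 S0` -/
noncomputable def cU6_2559 : CertX :=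
  ⟨[k12,k20,k32,k13,k52,k64],[(false,k0,[k0,k1,k2,k3,k4,k5])],[[[([z1,z0,z0,z0,z1,z1],z2)],[]]],
    [.old (.leafM k0 [k0,k1,k2,k3,k4,k5] [(z1,[y1,z1])] []),
    .old (.lp [k4,k2,k2,k2,k2,k2] [k0,k0,k1,k1,k1,k1,k1,k1,k1,k1,k1,k1] k0 [] k8 k5
    [[(k10,k3),(k1,k4)],[(k9,k3)],[(k6,k2)],[(k5,k2)],[(k2,k2)],[(k4,k2),(k7,k2)],[(k4,k2),(k7,k2)],[(k3,k2)],[(k0,
    k3)],[(k11,k2)],[(k8,k2)],[(k10,k2),(k1,k3)]]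
    [] k0
    [[k0,k1,k1,k1,k0,k0]]
    [.ref k0 k0 [(z1,[y1,z1])]])]⟩

/-- classes `0 1 2 0 3 4`, types `N0 C0 S0 N1 S0 C0` -/
noncomputable def cU6_2560 : CertX :=
  ⟨[k12,k20,k32,k13,k48,k68],[(false,k0,[k0,k1,k2,k3,k4,k5])],[[[([z1,z0,z0,z0,z1,z1],z2)],[]]],
    [.old (.leafM k0 [k0,k1,k2,k3,k4,k5] [(z1,[y1,z1])] []),
    .old (.lp [k4,k2,k2,k2,k2,k2] [k0,k0,k1,k1,k1,k1,k1,k1,k1,k1,k1,k1] k0 [] k8 k5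
    [[(k10,k3)],[(k9,k3)],[(k6,k2)],[(k5,k2)],[(k2,k2)],[(k4,k2),(k7,k2)],[(k4,k2),(k7,k2)],[(k3,k2)],[(k0,k3)],[(k8,
    k2),(k11,k2)],[(k8,k2),(k11,k2)],[(k1,k3)]]
    [] k0
    [[k0,k1,k1,k1,k0,k0]]
    [.ref k0 k0 [(z1,[y1,z1])]])]⟩

/-- classes `0 1 2 0 3 4`, types `N0 C0 S0 N1 S0 S0` -/
noncomputable def cU6_2561 : CertX :=
  ⟨[k12,k20,k32,k13,k48,k64],[(false,k0,[k0,k1,k2,k3,k4,k5])],[[[([z1,z0,z0,z0,z1,z1],z2)],[]]],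
    [.old (.leafM k0 [k0,k1,k2,k3,k4,k5] [(z1,[y1,z1])] []),
    .old (.lp [k2,k0,k4,k4,k2,k2] [k1,k1,k2,k2,k0,k0,k0,k0,k1,k1,k1,k1] k0 [] k8 k5
    [[(k1,k2),(k10,k2)],[(k9,k2)],[(k6,k2)],[(k5,k2)],[(k2,k2)],[(k4,k4),(k7,k4)],[(k4,k4),(k7,k4)],[(k3,k2)],[(k0,
    k2)],[(k8,k2),(k11,k2)],[(k8,k2),(k11,k2)],[(k1,k2),(k10,k2)]]
    [] k0
    [[k1,k0,k0,k0,k1,k1],[k0,k0,k0,k0,k0,k2]]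
    [.ref k0 k0 [(z1,[z1])],.contra [z1]])]⟩

/-- classes `0 1 2 0 3 4`, types `N0 C0 S0 N2 C0 S0` -/
noncomputable def cU6_2562 : CertX :=
  ⟨[k12,k20,k32,k14,k52,k64],[],[[[]]],
    [.old (.lp [k2,k2,k2,k2,k2,k2] [k0,k0,k0,k0,k0,k0,k0,k0,k0,k0,k0,k0] k0 [] k8 k5
    [[(k1,k2),(k10,k2)],[(k6,k2)],[(k9,k2)],[(k5,k2)],[(k2,k2)],[(k4,k2),(k7,k2)],[(k4,k2),(k7,k2)],[(k0,k2)],[(k3,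
    k2)],[(k11,k2)],[(k8,k2)],[(k1,k2),(k10,k2)]]
    [] k0
    []
    [])]⟩

/-- classes `0 1 2 0 3 4`, types `N0 C0 S0 N2 S0 C0` -/
noncomputable def cU6_2563 : CertX :=
  ⟨[k12,k20,k32,k14,k48,k68],[],[[[]]],
    [.old (.lp [k2,k2,k2,k2,k2,k2] [k0,k0,k0,k0,k0,k0,k0,k0,k0,k0,k0,k0] k0 [] k8 k5
    [[(k10,k2)],[(k6,k2)],[(k9,k2)],[(k5,k2)],[(k2,k2)],[(k4,k2),(k7,k2)],[(k4,k2),(k7,k2)],[(k0,k2)],[(k3,k2)],[(k8,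
    k2),(k11,k2)],[(k8,k2),(k11,k2)],[(k1,k2)]]
    [] k0
    []
    [])]⟩

/-- classes `0 1 2 0 3 4`, types `N0 C0 S0 N2 S0 S0` -/
noncomputable def cU6_2564 : CertX :=
  ⟨[k12,k20,k32,k14,k48,k64],[],[[[]]],
    [.old (.lp [k2,k2,k2,k2,k2,k4] [k1,k1,k1,k1,k1,k1,k1,k1,k1,k1,k0,k0] k0 [] k8 k5
    [[(k1,k2),(k10,k3)],[(k6,k2)],[(k9,k2)],[(k5,k2)],[(k2,k2)],[(k4,k2),(k7,k2)],[(k4,k2),(k7,k2)],[(k0,k2)],[(k3,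
    k2)],[(k8,k2),(k11,k3)],[(k8,k3),(k11,k4)],[(k1,k3),(k10,k4)]]
    [] k0
    []
    [])]⟩

/-- classes `0 1 2 0 3 4`, types `N0 S0 S0 N1 S0 S0` -/
noncomputable def cU6_2565 : CertX :=
  ⟨[k12,k16,k32,k13,k48,k64],[(false,k0,[k0,k1,k2,k3,k4,k5])],[[[([z1,z0,z0,z0,z1,z1],z2)],[]]],
    [.old (.leafM k0 [k0,k1,k2,k3,k4,k5] [(z1,[y1,z1])] []),
    .old (.lp [k2,k2,k4,k2,k2,k2] [k1,k1,k1,k1,k0,k0,k1,k1,k1,k1,k1,k1] k0 [] k8 k5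
    [[(k1,k2),(k10,k2)],[(k9,k2)],[(k6,k2)],[(k2,k2),(k5,k3)],[(k2,k3),(k5,k4)],[(k7,k3),(k4,k4)],[(k7,k2),(k4,k3)],
    [(k3,k2)],[(k0,k2)],[(k8,k2),(k11,k2)],[(k8,k2),(k11,k2)],[(k1,k2),(k10,k2)]]
    [] k0
    [[k1,k0,k0,k0,k1,k1],[k0,k0,k0,k0,k0,k2]]
    [.ref k0 k0 [(z1,[z1])],.contra [z1]])]⟩

/-- classes `0 1 2 0 3 4`, types `N0 S0 S0 N2 S0 S0` -/
noncomputable def cU6_2566 : CertX :=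
  ⟨[k12,k16,k32,k14,k48,k64],[],[[[]]],
    [.old (.lp [k2,k2,k4,k2,k2,k2] [k1,k1,k1,k1,k0,k0,k1,k1,k1,k1,k1,k1] k0 [] k8 k5
    [[(k1,k2),(k10,k2)],[(k6,k2)],[(k9,k2)],[(k2,k2),(k5,k3)],[(k2,k3),(k5,k4)],[(k7,k3),(k4,k4)],[(k7,k2),(k4,k3)],
    [(k0,k2)],[(k3,k2)],[(k8,k2),(k11,k2)],[(k8,k2),(k11,k2)],[(k1,k2),(k10,k2)]]
    [] k0
    [[k0,k0,k0,k0,k0,k2]]
    [.contra [z1]])]⟩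

/-- classes `0 1 2 0 3 4`, types `S0 C0 C0 S0 C0 C0` -/
noncomputable def cU6_2567 : CertX :=
  ⟨[k0,k20,k36,k0,k52,k68],[(false,k0,[k0,k1,k2,k3,k4,k5])],[[[([z1,z0,z0,z0,z1,z1],z2)],[]]],
    [.old (.leafM k0 [k0,k1,k2,k3,k4,k5] [(z1,[y1,z1])] []),
    .old (.lp [k2,k2,k2,k4,k2,k2] [k1,k1,k1,k1,k1,k1,k0,k0,k1,k1,k1,k1] k0 [] k8 k5
    [[(k10,k2)],[(k0,k2),(k3,k2),(k9,k2),(k6,k3)],[(k0,k2),(k3,k2),(k9,k2),(k6,k3)],[(k5,k2)],[(k2,k2)],[(k7,k3)],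
    [(k4,k3)],[(k0,k3),(k3,k3),(k9,k3),(k6,k4)],[(k0,k2),(k3,k2),(k9,k2),(k6,k3)],[(k11,k2)],[(k8,k2)],[(k1,k2)]]
    [] k0
    [[k1,k0,k0,k0,k1,k1]]
    [.ref k0 k0 [(z1,[z1])]])]⟩

/-- classes `0 1 2 0 3 4`, types `S0 C0 C0 S0 C0 S0` -/
noncomputable def cU6_2568 : CertX :=
  ⟨[k0,k20,k36,k0,k52,k64],[(false,k0,[k0,k1,k2,k3,k4,k5])],[[[([z1,z0,z0,z0,z1,z1],z2)],[]]],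
    [.old (.leafM k0 [k0,k1,k2,k3,k4,k5] [(z1,[y1,z1])] []),
    .old (.lp [k12,k8,k6,k6,k6,k6] [k0,k4,k4,k4,k5,k5,k5,k5,k5,k5,k5,k5] k0 [[k0,k0,k0,k0,k0,k0,k4],[],[],[],[],[],[],[k0,
    k4]] k24 k5
    [[(k10,k7),(k1,k8)],[(k9,k7),(k6,k11),(k3,k12),(k0,k16)],[(k9,k7),(k3,k8),(k6,k11),(k0,k12)],[(k5,k7)],[(k2,k7)],
    [(k7,k6)],[(k4,k6)],[(k6,k6),(k9,k6),(k0,k11),(k3,k11)],[(k6,k6),(k9,k6),(k0,k7),(k3,k7)],[(k11,k6)],[(k8,k6)],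
    [(k10,k6),(k1,k7)]]
    [] k0
    [[k1,k0,k0,k0,k1,k1]]
    [.ref k0 k0 [(z1,[z1])]])]⟩

/-- classes `0 1 2 0 3 4`, types `S0 C0 C0 S0 S0 S0` -/
noncomputable def cU6_2569 : CertX :=
  ⟨[k0,k20,k36,k0,k48,k64],[(false,k0,[k0,k1,k2,k3,k4,k5])],[[[([z1,z0,z0,z0,z1,z1],z2)],[]]],
    [.old (.leafM k0 [k0,k1,k2,k3,k4,k5] [(z1,[y1,z1])] []),
    .old (.lp [k4,k2,k2,k2,k2,k2] [k0,k0,k1,k1,k1,k1,k1,k1,k1,k1,k1,k1] k0 [] k8 k5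
    [[(k10,k3),(k1,k4)],[(k3,k3),(k6,k3),(k9,k3),(k0,k4)],[(k3,k2),(k6,k2),(k9,k2),(k0,k3)],[(k5,k2)],[(k2,k2)],[(k7,
    k2)],[(k4,k2)],[(k3,k2),(k6,k2),(k9,k2),(k0,k3)],[(k3,k2),(k6,k2),(k9,k2),(k0,k3)],[(k8,k2),(k11,k2)],[(k8,k2),
    (k11,k2)],[(k10,k2),(k1,k3)]]
    [] k0
    [[k0,k1,k1,k1,k0,k0],[k0,k0,k0,k0,k2,k0],[k0,k0,k0,k0,k0,k2]]
    [.ref k0 k0 [(z1,[y1,z1])],.contra [z1],.contra [z1]])]⟩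

/-- classes `0 1 2 0 3 4`, types `S0 C0 S0 S0 C0 S0` -/
noncomputable def cU6_2570 : CertX :=
  ⟨[k0,k20,k32,k0,k52,k64],[(false,k0,[k0,k1,k2,k3,k4,k5])],[[[([z1,z0,z0,z0,z1,z1],z2)],[]]],
    [.old (.leafM k0 [k0,k1,k2,k3,k4,k5] [(z1,[y1,z1])] []),
    .old (.lp [k4,k2,k2,k2,k2,k2] [k0,k0,k1,k1,k1,k1,k1,k1,k1,k1,k1,k1] k0 [] k8 k5
    [[(k10,k3),(k1,k4)],[(k3,k3),(k6,k3),(k9,k3),(k0,k4)],[(k3,k2),(k6,k2),(k9,k2),(k0,k3)],[(k5,k2)],[(k2,k2)],[(k4,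
    k2),(k7,k2)],[(k4,k2),(k7,k2)],[(k3,k2),(k6,k2),(k9,k2),(k0,k3)],[(k3,k2),(k6,k2),(k9,k2),(k0,k3)],[(k11,k2)],
    [(k8,k2)],[(k10,k2),(k1,k3)]]
    [] k0
    [[k0,k1,k1,k1,k0,k0],[k0,k0,k0,k2,k0,k0]]
    [.ref k0 k0 [(z1,[y1,z1])],.contra [z1]])]⟩

/-- classes `0 1 2 0 3 4`, types `S0 C0 S0 S0 S0 C0` -/
noncomputable def cU6_2571 : CertX :=
  ⟨[k0,k20,k32,k0,k48,k68],[(false,k0,[k0,k1,k2,k3,k4,k5])],[[[([z1,z0,z0,z0,z1,z1],z2)],[]]],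
    [.old (.leafM k0 [k0,k1,k2,k3,k4,k5] [(z1,[y1,z1])] []),
    .old (.lp [k2,k2,k2,k2,k4,k2] [k1,k1,k1,k1,k1,k1,k1,k1,k0,k0,k1,k1] k0 [] k8 k5
    [[(k10,k2)],[(k0,k2),(k3,k2),(k6,k2),(k9,k3)],[(k0,k2),(k3,k2),(k6,k2),(k9,k3)],[(k5,k2)],[(k2,k2)],[(k4,k2),(k7,
    k2)],[(k4,k2),(k7,k2)],[(k0,k2),(k3,k2),(k6,k2),(k9,k3)],[(k0,k3),(k3,k3),(k6,k3),(k9,k4)],[(k11,k3),(k8,k4)],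
    [(k11,k2),(k8,k3)],[(k1,k2)]]
    [] k0
    [[k0,k1,k1,k1,k0,k0],[k0,k0,k0,k2,k0,k0]]
    [.ref k0 k0 [(z1,[y1,z1])],.contra [z1]])]⟩

/-- classes `0 1 2 0 3 4`, types `S0 C0 S0 S0 S0 S0` -/
noncomputable def cU6_2572 : CertX :=
  ⟨[k0,k20,k32,k0,k48,k64],[(false,k0,[k0,k1,k2,k3,k4,k5])],[[[([z1,z0,z0,z0,z1,z1],z2)],[]]],
    [.old (.leafM k0 [k0,k1,k2,k3,k4,k5] [(z1,[y1,z1])] []),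
    .old (.lp [k12,k8,k6,k6,k6,k6] [k0,k4,k4,k4,k5,k5,k5,k5,k5,k5,k5,k5] k0 [[k0,k0,k0,k0,k0,k0,k4],[],[],[],[],[],[],[k0,
    k4]] k24 k5
    [[(k10,k7),(k1,k8)],[(k9,k7),(k6,k11),(k3,k12),(k0,k16)],[(k9,k7),(k3,k8),(k6,k11),(k0,k12)],[(k5,k7)],[(k2,k7)],
    [(k4,k6),(k7,k6)],[(k4,k6),(k7,k6)],[(k6,k6),(k9,k6),(k0,k11),(k3,k11)],[(k6,k6),(k9,k6),(k0,k7),(k3,k7)],[(k8,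
    k6),(k11,k6)],[(k8,k6),(k11,k6)],[(k10,k6),(k1,k7)]]
    [] k0
    [[k1,k0,k0,k0,k1,k1],[k0,k0,k0,k2,k0,k0],[k0,k0,k0,k0,k2,k0],[k0,k0,k0,k0,k0,k2]]
    [.ref k0 k0 [(z1,[z1])],.contra [z1],.contra [z1],.contra [z1]])]⟩

/-- classes `0 1 2 3 4 5`, types `C0 C0 C0 C0 C0 C0` -/
noncomputable def cU6_2573 : CertX :=
  ⟨[k4,k20,k36,k52,k68,k84],[],[[[]]],
    [.old (.lp [k0,k2,k0,k2,k0,k2] [k1,k1,k0,k0,k1,k1,k0,k0,k1,k1,k0,k0] k0 [] k4 k5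
    [[(k10,k1)],[(k3,k1)],[(k0,k1)],[(k5,k1)],[(k2,k1)],[(k7,k1)],[(k4,k1)],[(k9,k1)],[(k6,k1)],[(k11,k1)],[(k8,k1)],
    [(k1,k1)]]
    [] k0
    []
    [])]⟩

/-- classes `0 1 2 3 4 5`, types `C0 C0 C0 C0 C0 S0` -/
noncomputable def cU6_2574 : CertX :=
  ⟨[k4,k20,k36,k52,k68,k80],[],[[[]]],
    [.old (.lp [k2,k2,k2,k2,k2,k2] [k0,k0,k0,k0,k0,k0,k0,k0,k0,k0,k0,k0] k0 [] k8 k5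
    [[(k1,k2),(k10,k2)],[(k3,k2)],[(k0,k2)],[(k5,k2)],[(k2,k2)],[(k7,k2)],[(k4,k2)],[(k9,k2)],[(k6,k2)],[(k11,k2)],
    [(k8,k2)],[(k1,k2),(k10,k2)]]
    [] k0
    []
    [])]⟩

/-- classes `0 1 2 3 4 5`, types `C0 C0 C0 C0 S0 S0` -/
noncomputable def cU6_2575 : CertX :=
  ⟨[k4,k20,k36,k52,k64,k80],[],[[[]]],
    [.old (.lp [k2,k2,k2,k2,k2,k4] [k1,k1,k1,k1,k1,k1,k1,k1,k1,k1,k0,k0] k0 [] k8 k5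
    [[(k1,k2),(k10,k3)],[(k3,k2)],[(k0,k2)],[(k5,k2)],[(k2,k2)],[(k7,k2)],[(k4,k2)],[(k9,k2)],[(k6,k2)],[(k8,k2),(k11,
    k3)],[(k8,k3),(k11,k4)],[(k1,k3),(k10,k4)]]
    [] k0
    []
    [])]⟩

/-- classes `0 1 2 3 4 5`, types `C0 C0 C0 S0 C0 S0` -/
noncomputable def cU6_2576 : CertX :=
  ⟨[k4,k20,k36,k48,k68,k80],[],[[[]]],
    [.old (.lp [k2,k2,k2,k2,k2,k2] [k0,k0,k0,k0,k0,k0,k0,k0,k0,k0,k0,k0] k0 [] k8 k5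
    [[(k1,k2),(k10,k2)],[(k3,k2)],[(k0,k2)],[(k5,k2)],[(k2,k2)],[(k7,k2)],[(k4,k2)],[(k6,k2),(k9,k2)],[(k6,k2),(k9,
    k2)],[(k11,k2)],[(k8,k2)],[(k1,k2),(k10,k2)]]
    [] k0
    []
    [])]⟩

/-- classes `0 1 2 3 4 5`, types `C0 C0 C0 S0 S0 S0` -/
noncomputable def cU6_2577 : CertX :=
  ⟨[k4,k20,k36,k48,k64,k80],[],[[[]]],
    [.old (.lp [k2,k2,k2,k2,k4,k2] [k1,k1,k1,k1,k1,k1,k1,k1,k0,k0,k1,k1] k0 [] k8 k5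
    [[(k1,k2),(k10,k2)],[(k3,k2)],[(k0,k2)],[(k5,k2)],[(k2,k2)],[(k7,k2)],[(k4,k2)],[(k6,k2),(k9,k3)],[(k6,k3),(k9,
    k4)],[(k11,k3),(k8,k4)],[(k11,k2),(k8,k3)],[(k1,k2),(k10,k2)]]
    [] k0
    [[k0,k0,k0,k0,k0,k2]]
    [.contra [z1]])]⟩

/-- classes `0 1 2 3 4 5`, types `C0 C0 S0 C0 C0 S0` -/
noncomputable def cU6_2578 : CertX :=
  ⟨[k4,k20,k32,k52,k68,k80],[],[[[]]],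
    [.old (.lp [k2,k2,k2,k2,k2,k2] [k0,k0,k0,k0,k0,k0,k0,k0,k0,k0,k0,k0] k0 [] k8 k5
    [[(k1,k2),(k10,k2)],[(k3,k2)],[(k0,k2)],[(k5,k2)],[(k2,k2)],[(k4,k2),(k7,k2)],[(k4,k2),(k7,k2)],[(k9,k2)],[(k6,
    k2)],[(k11,k2)],[(k8,k2)],[(k1,k2),(k10,k2)]]
    [] k0
    []
    [])]⟩

/-- classes `0 1 2 3 4 5`, types `C0 C0 S0 C0 S0 S0` -/
noncomputable def cU6_2579 : CertX :=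
  ⟨[k4,k20,k32,k52,k64,k80],[],[[[]]],
    [.old (.lp [k2,k2,k2,k2,k2,k4] [k1,k1,k1,k1,k1,k1,k1,k1,k1,k1,k0,k0] k0 [] k8 k5
    [[(k1,k2),(k10,k3)],[(k3,k2)],[(k0,k2)],[(k5,k2)],[(k2,k2)],[(k4,k2),(k7,k2)],[(k4,k2),(k7,k2)],[(k9,k2)],[(k6,
    k2)],[(k8,k2),(k11,k3)],[(k8,k3),(k11,k4)],[(k1,k3),(k10,k4)]]
    [] k0
    []
    [])]⟩

/-- classes `0 1 2 3 4 5`, types `C0 C0 S0 S0 S0 S0` -/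
noncomputable def cU6_2580 : CertX :=
  ⟨[k4,k20,k32,k48,k64,k80],[],[[[]]],
    [.old (.lp [k2,k2,k2,k2,k4,k2] [k1,k1,k1,k1,k1,k1,k1,k1,k0,k0,k1,k1] k0 [] k8 k5
    [[(k1,k2),(k10,k2)],[(k3,k2)],[(k0,k2)],[(k5,k2)],[(k2,k2)],[(k4,k2),(k7,k2)],[(k4,k2),(k7,k2)],[(k6,k2),(k9,k3)],
    [(k6,k3),(k9,k4)],[(k11,k3),(k8,k4)],[(k11,k2),(k8,k3)],[(k1,k2),(k10,k2)]]
    [] k0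
    [[k0,k0,k0,k2,k0,k0],[k0,k0,k0,k0,k0,k2]]
    [.contra [z1],.contra [z1]])]⟩

/-- classes `0 1 2 3 4 5`, types `C0 S0 C0 S0 C0 S0` -/
noncomputable def cU6_2581 : CertX :=
  ⟨[k4,k16,k36,k48,k68,k80],[],[[[]]],
    [.old (.lp [k2,k2,k2,k2,k2,k2] [k0,k0,k0,k0,k0,k0,k0,k0,k0,k0,k0,k0] k0 [] k8 k5
    [[(k1,k2),(k10,k2)],[(k3,k2)],[(k0,k2)],[(k2,k2),(k5,k2)],[(k2,k2),(k5,k2)],[(k7,k2)],[(k4,k2)],[(k6,k2),(k9,k2)],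
    [(k6,k2),(k9,k2)],[(k11,k2)],[(k8,k2)],[(k1,k2),(k10,k2)]]
    [] k0
    []
    [])]⟩

/-- classes `0 1 2 3 4 5`, types `C0 S0 C0 S0 S0 S0` -/
noncomputable def cU6_2582 : CertX :=
  ⟨[k4,k16,k36,k48,k64,k80],[],[[[]]],
    [.old (.lp [k2,k2,k2,k2,k4,k2] [k1,k1,k1,k1,k1,k1,k1,k1,k0,k0,k1,k1] k0 [] k8 k5
    [[(k1,k2),(k10,k2)],[(k3,k2)],[(k0,k2)],[(k2,k2),(k5,k2)],[(k2,k2),(k5,k2)],[(k7,k2)],[(k4,k2)],[(k6,k2),(k9,k3)],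
    [(k6,k3),(k9,k4)],[(k11,k3),(k8,k4)],[(k11,k2),(k8,k3)],[(k1,k2),(k10,k2)]]
    [] k0
    [[k0,k0,k0,k0,k0,k2]]
    [.contra [z1]])]⟩

/-- classes `0 1 2 3 4 5`, types `C0 S0 S0 C0 S0 S0` -/
noncomputable def cU6_2583 : CertX :=
  ⟨[k4,k16,k32,k52,k64,k80],[],[[[]]],
    [.old (.lp [k2,k2,k4,k2,k2,k2] [k1,k1,k1,k1,k0,k0,k1,k1,k1,k1,k1,k1] k0 [] k8 k5
    [[(k1,k2),(k10,k2)],[(k3,k2)],[(k0,k2)],[(k2,k2),(k5,k3)],[(k2,k3),(k5,k4)],[(k7,k3),(k4,k4)],[(k7,k2),(k4,k3)],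
    [(k9,k2)],[(k6,k2)],[(k8,k2),(k11,k2)],[(k8,k2),(k11,k2)],[(k1,k2),(k10,k2)]]
    [] k0
    [[k0,k0,k0,k0,k0,k2]]
    [.contra [z1]])]⟩

/-- classes `0 1 2 3 4 5`, types `C0 S0 S0 S0 S0 S0` -/
noncomputable def cU6_2584 : CertX :=
  ⟨[k4,k16,k32,k48,k64,k80],[],[[[]]],
    [.old (.lp [k2,k2,k2,k4,k2,k2] [k1,k1,k1,k1,k1,k1,k0,k0,k1,k1,k1,k1] k0 [] k8 k5
    [[(k1,k2),(k10,k2)],[(k3,k2)],[(k0,k2)],[(k2,k2),(k5,k2)],[(k2,k2),(k5,k2)],[(k4,k2),(k7,k3)],[(k4,k3),(k7,k4)],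
    [(k9,k3),(k6,k4)],[(k9,k2),(k6,k3)],[(k8,k2),(k11,k2)],[(k8,k2),(k11,k2)],[(k1,k2),(k10,k2)]]
    [] k0
    [[k0,k0,k2,k0,k0,k0],[k0,k0,k0,k0,k2,k0],[k0,k0,k0,k0,k0,k2]]
    [.contra [z1],.contra [z1],.contra [z1]])]⟩

/-- the certificates of this file -/
noncomputable def lU6_36 : List CertX :=
  [cU6_2435, cU6_2436, cU6_2437, cU6_2438, cU6_2439, cU6_2440, cU6_2441, cU6_2442, cU6_2443, cU6_2444,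
      cU6_2445, cU6_2446, cU6_2447, cU6_2448, cU6_2449, cU6_2450, cU6_2451, cU6_2452, cU6_2453, cU6_2454,
      cU6_2455, cU6_2456, cU6_2457, cU6_2458, cU6_2459, cU6_2460, cU6_2461, cU6_2462, cU6_2463, cU6_2464,
      cU6_2465, cU6_2466, cU6_2467, cU6_2468, cU6_2469, cU6_2470, cU6_2471, cU6_2472, cU6_2473, cU6_2474,
      cU6_2475, cU6_2476, cU6_2477, cU6_2478, cU6_2479, cU6_2480, cU6_2481, cU6_2482, cU6_2483, cU6_2484,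
      cU6_2485, cU6_2486, cU6_2487, cU6_2488, cU6_2489, cU6_2490, cU6_2491, cU6_2492, cU6_2493, cU6_2494,
      cU6_2495, cU6_2496, cU6_2497, cU6_2498, cU6_2499, cU6_2500, cU6_2501, cU6_2502, cU6_2503, cU6_2504,
      cU6_2505, cU6_2506, cU6_2507, cU6_2508, cU6_2509, cU6_2510, cU6_2511, cU6_2512, cU6_2513, cU6_2514,
      cU6_2515, cU6_2516, cU6_2517, cU6_2518, cU6_2519, cU6_2520, cU6_2521, cU6_2522, cU6_2523, cU6_2524,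
      cU6_2525, cU6_2526, cU6_2527, cU6_2528, cU6_2529, cU6_2530, cU6_2531, cU6_2532, cU6_2533, cU6_2534,
      cU6_2535, cU6_2536, cU6_2537, cU6_2538, cU6_2539, cU6_2540, cU6_2541, cU6_2542, cU6_2543, cU6_2544,
      cU6_2545, cU6_2546, cU6_2547, cU6_2548, cU6_2549, cU6_2550, cU6_2551, cU6_2552, cU6_2553, cU6_2554,
      cU6_2555, cU6_2556, cU6_2557, cU6_2558, cU6_2559, cU6_2560, cU6_2561, cU6_2562, cU6_2563, cU6_2564,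
      cU6_2565, cU6_2566, cU6_2567, cU6_2568, cU6_2569, cU6_2570, cU6_2571, cU6_2572, cU6_2573, cU6_2574,
      cU6_2575, cU6_2576, cU6_2577, cU6_2578, cU6_2579, cU6_2580, cU6_2581, cU6_2582, cU6_2583, cU6_2584]

theorem gU6_36 : allF (chkE 6 ttU6) lU6_36 = true := by
  decide +kernel

end Pool.Agent.Lib_MP_fa6e45
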