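import Pool.Agent.Lib_MP_fa6e45.CXT
import Pool.Agent.Lib_MP_fa6e45.HK

/-!
MP_fa6e45_co, stage 7: certificates (generated by a program).
-/

namespace Pool.Agent.Lib_MP_fa6e45

/-- classes `0 0 0 0 0 0`, types `N0 N0 N2 N2 N1 N3` -/
noncomputable def cU6_36 : CertX :=
  ⟨[k12,k12,k14,k14,k13,k15],[(false,k0,[k0,k1,k2,k3,k4,k5]),(true,k4,[k4,k3,k2,k1,k0,k5])],[[[([z1,z0,z1,z0,z1,z1],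
    z2)],[([z1,z0,z0,z1,z0,z1],z2),([z0,z1,z0,z0,z1,z1],z2)],[([z1,z0,z0,z1,z0,z1],z2)],[]]],
    [.old (.leafM k3 [k0,k2,k4,k5] [] [(k1,k3,z1,[y1,z1]),(k3,k1,z1,[y1,z1])]),
    .old (.tor k2 false k0 [(z1,[z0,z1]),(z1,[y1,z0,z1]),(z1,[z1]),(z1,[z0,y1,z1])]),
    .old (.lp [k4,k4,k12,k10,k8,k8] [k4,k4,k4,k4,k0,k0,k1,k1,k2,k2,k2,k2] k0 [[],[],[],[],[k0,k0,k0,k0,k0,k0,k0,k0,k0,k0,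
    k2],[],[],[],[],[],[],[k0,k0,k0,k0,k0,k2]] k24 k5
    [[(k4,k6),(k11,k6),(k6,k7)],[(k11,k6),(k6,k7),(k4,k8)],[(k8,k6),(k9,k6),(k7,k7)],[(k11,k6),(k6,k7),(k4,k8)],[(k8,
    k10),(k9,k10),(k7,k11)],[(k1,k6),(k0,k8),(k2,k8)],[(k3,k7),(k5,k11),(k10,k11)],[(k0,k7),(k1,k7),(k2,k7)],[(k3,k6),
    (k10,k8),(k5,k10)],[(k3,k6),(k10,k8),(k5,k10)],[(k0,k6),(k1,k6),(k2,k6)],[(k8,k8),(k9,k8),(k7,k11)]]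
    [] k0
    [[k0,k1,k0,k1,k0,k0],[k0,k1,k0,k0,k1,k1]]
    [.ref k0 k0 [(z1,[y1,z0,z1])],.ref k1 k0 [(z1,[z0,z1]),(z1,[z1])]]),
    .old (.lp [k4,k4,k12,k10,k8,k8] [k4,k4,k4,k4,k0,k0,k1,k1,k2,k2,k2,k2] k0 [[],[],[],[],[k0,k0,k0,k0,k0,k0,k0,k0,k0,k0,
    k2],[],[],[],[],[],[],[k0,k0,k0,k0,k0,k2]] k24 k5
    [[(k4,k6),(k11,k6),(k6,k7)],[(k11,k6),(k6,k7),(k4,k8)],[(k8,k6),(k9,k6),(k7,k7)],[(k11,k6),(k6,k7),(k4,k8)],[(k8,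
    k10),(k9,k10),(k7,k11)],[(k1,k6),(k0,k8),(k2,k8)],[(k3,k7),(k5,k11),(k10,k11)],[(k0,k7),(k1,k7),(k2,k7)],[(k3,k6),
    (k10,k8),(k5,k10)],[(k3,k6),(k10,k8),(k5,k10)],[(k0,k6),(k1,k6),(k2,k6)],[(k8,k8),(k9,k8),(k7,k11)]]
    [] k0
    [[k0,k1,k0,k1,k0,k0],[k0,k1,k0,k0,k1,k1]]
    [.ref k0 k0 [(z1,[y1,z1])],.ref k2 k1 [(z1,[z1])]])]⟩

/-- the certificates of this file -/
noncomputable def lU6_4 : List CertX :=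
  [cU6_36]

theorem gU6_4 : allF (chkE 6 ttU6) lU6_4 = true := by
  decide +kernel

end Pool.Agent.Lib_MP_fa6e45
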