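import Pool.Agent.Lib_MP_fa6e45.CY6_5d

/-!
MP_fa6e45_co, stage 7: certificates (generated by a program).
-/

namespace Pool.Agent.Lib_MP_fa6e45

noncomputable def cU6_37_n0_0 : List XN :=
  [.old (.leafM k1 [k0,k1,k2,k3,k4,k5] [(z1,[y1,z1]),(z1,[z1])] []),
    .old (.leafM k10 [k1,k3,k5,k0] [(z1,[y1,y1,y3,z3]),(z1,[z1]),(z1,[z0,z1])] [(k2,k4,z1,[z0,z0,z1]),(k4,k2,z1,[z0,z0,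
    z1])]),
    .old (.leafM k11 [k1,k3,k5,k0] [(z1,[y1,y3,y3,z3]),(z1,[z1]),(z1,[z0,z1])] [(k2,k4,z1,[z0,z0,z1]),(k4,k2,z1,[z0,z0,
    z1])]),
    .geo true z3 k4 [(z0,z3),(z2,z0),(z6,y3),(z2,y3),(z0,z3),(z2,z0)] [(z1,[z3]),(z1,[z0,z1]),(z1,[z0,z0,z3]),(z1,[z0,z0,
    z0,z1]),(z1,[]),(z1,[y3,y1,y3,y1,
    z3])] z0 (Int.ofNat (nat_lit 699051)) (.s (.s (.l k2) (.l k1)) (.s (.l k1) (.l k1))) [⟨z0,z1,[[k0,k5],[k1,k2],[k3,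
    k4]],.bnd k0⟩],
    .geo true z6 k4 [(z0,z6),(z4,z0),(z12,y6),(z5,y6),(z0,z6),(z3,z0)] [(z1,[z6]),(z1,[z0,z2]),(z1,[z0,z0,z6]),(z1,[z0,z0,
    z0,z1]),(z1,[]),(z1,[y6,y2,y6,y1,
    z6])] z0 (Int.ofNat (nat_lit 873814)) (.s (.s (.l k2) (.l k1)) (.s (.l k1) (.l k1))) [⟨z0,z1,[[k0,k5],[k1,k2],[k3,
    k4]],.bnd k0⟩],
    .geo true z3 k5 [(y10,z6),(z6,y3),(z8,y3),(z6,y3),(z2,z0),(z0,z3)] [(z1,[z1]),(z1,[z0,z3]),(z1,[z0,z0,z1]),(z1,[z0,z0,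
    z0,z3]),(z1,[y1,y3,y1,y3,z3]),(z1,
    [])] (Int.ofNat (nat_lit 1747626)) (Int.ofNat (nat_lit 2097152)) (.s (.s (.l k1) (.l k1)) (.s (.l k1) (.s (.l k1) (.l k2)))) [⟨z2,
    z1,[[k0,k1],[k2,k3],[k4,k5]],.bnd k1⟩],
    .geo true z3 k5 [(y2,z6),(z2,z0),(z8,y6),(z6,y9),(y2,z6),(z0,z3)] [(z1,[z1]),(z1,[z0,z1]),(z1,[z0,z0,z1]),(z1,[z0,z0,
    z0,z3]),(z1,[y1,y1,y1,y3,z3]),(z1,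
    [])] (Int.ofNat (nat_lit 349525)) (Int.ofNat (nat_lit 699051)) (.s (.s (.s (.l k2) (.l k1)) (.l k1)) (.s (.l k1) (.l k1))) [⟨z1,
    z3,[[k0,k5],[k1,k2],[k3,k4]],.bnd k0⟩],
    .geo true z3 k5 [(y2,z3),(z6,y6),(y2,z3),(z2,z0),(z8,y3),(z0,z3)] [(z1,[z1]),(z1,[z0,z3]),(z1,[z0,z0,z1]),(z1,[z0,z0,
    z0,z1]),(z1,[y1,y3,y1,y1,z3]),(z1,
    [])] (Int.ofNat (nat_lit 699050)) (Int.ofNat (nat_lit 1048576)) (.s (.s (.l k2) (.l k1)) (.l k1)) [⟨z2,z3,[[k0,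
    k5],[k1,k2],[k3,k4]],.bnd k0⟩],
    .geo true z9 k4 [(z0,z9),(z6,z0),(z18,y9),(z8,y9),(z0,z9),(z4,z0)] [(z1,[z9]),(z1,[z0,z3]),(z1,[z0,z0,z9]),(z1,[z0,z0,
    z0,z1]),(z1,[]),(z1,[y9,y3,y9,y1,
    z9])] z0 (Int.ofNat (nat_lit 932068)) (.s (.s (.l k2) (.l k1)) (.s (.l k1) (.l k1))) [⟨z0,z1,[[k0,k5],[k1,k2],[k3,
    k4]],.bnd k0⟩],
    .geo true z3 k5 [(y8,z6),(z6,y3),(z6,y3),(z6,y3),(z2,z0),(z0,z3)] [(z1,[z1]),(z1,[z0,z3]),(z1,[z0,z0,z3]),(z1,[z0,z0,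
    z0,z3]),(z1,[y1,y3,y3,y3,z3]),(z1,
    [])] (Int.ofNat (nat_lit 1398101)) (Int.ofNat (nat_lit 2097152)) (.s (.s (.l k1) (.l k1)) (.s (.l k1) (.s (.l k1) (.s (.l k1) (.l k2))))) [⟨z2,
    z1,[[k0,k1],[k2,k3],[k4,k5]],.bnd k1⟩],
    .geo true z3 k5 [(z0,z3),(z6,y3),(z2,z0),(z0,z3),(z4,y6),(z0,z3)] [(z1,[z3]),(z1,[z0,z3]),(z1,[z0,z0,z1]),(z1,[z0,z0,
    z0,z3]),(z1,[y3,y3,y1,y3,z3]),(z1,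
    [])] z0 (Int.ofNat (nat_lit 699051)) (.s (.s (.s (.l k2) (.l k1)) (.s (.l k1) (.l k1))) (.s (.l k1) (.l k1))) [⟨z0,
    z1,[[k0,k1],[k2,k3],[k4,k5]],.bnd k0⟩],
    .geo true z3 k4 [(z0,z3),(z2,z0),(z6,y3),(z3,y3),(z0,z3),(z1,z0)] [(z1,[z3]),(z1,[z0,z1]),(z1,[z0,z0,z3]),(z1,[z0,z0,
    z0,z3]),(z1,[]),(z1,[y3,y1,y3,y3,
    z3])] z0 (Int.ofNat (nat_lit 1048576)) (.s (.s (.s (.l k2) (.l k1)) (.l k1)) (.s (.l k1) (.l k1))) [⟨z0,z1,[[k0,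
    k5],[k1,k2],[k3,k4]],.bnd k0⟩]]

noncomputable def cU6_37_n0_1 : List XN :=
  [.old (.lp [k62,k80,k150,k80,k62,k44] [k44,k44,k21,k49,k0,k0,k49,k21,k44,k44,k53,k53] k0 [[],[],[k0,k0,k0,k0,k0,k0,k0,
    k0,k28],[],[],[k0,k0,k0,k0,k0,k0,k0,k0,k0,k0,k0,k28],[],[],[k0,k0,k0,k0,k0,k0,k0,k0,k0,k0,k4],[k0,k0,k0,k28],[k0,
    k0,k0,k0,k28],[k0,k0,k0,k0,k0,k0,k0,k0,k0,k4]] (nat_lit 240) k6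
    [[(k8,k58),(k0,k62),(k4,k134)],[(k1,k62),(k9,k62),(k5,k106)],[(k10,k48),(k6,k52),(k2,k80)],[(k11,k48),(k3,k80),
    (k7,k108)],[(k0,k106),(k8,k134),(k4,k150)],[(k9,k106),(k1,k134),(k5,k150)],[(k10,k48),(k6,k80),(k2,k108)],[(k11,
    k48),(k3,k52),(k7,k80)],[(k0,k62),(k8,k62),(k4,k106)],[(k1,k58),(k9,k62),(k5,k134)],[(k2,k48),(k6,k48),(k10,k48)],
    [(k3,k48),(k7,k48),(k11,k48)]]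
    [] k0
    [[k2,k0,k0,k0,k0,k0],[k3,k0,k0,k0,k0,k0],[k2,k0,k0,k0,k1,k0],[k1,k0,k0,k0,k1,k0],[k1,k0,k0,k0,k2,k0],[k0,k2,k0,k0,
    k0,k0],[k0,k2,k0,k1,k0,k1],[k0,k2,k0,k0,k0,k1],[k0,k2,k0,k0,k0,k2],[k0,k1,k0,k1,k0,k0],[k0,k1,k0,k2,k0,k1],[k0,k1,
    k0,k1,k0,k1],[k0,k1,k0,k1,k0,k2],[k0,k1,k0,k0,k0,k1],[k0,k1,k0,k0,k0,k2],[k0,k1,k0,k0,k0,k3],[k0,k0,k0,k2,k0,k0],
    [k0,k0,k0,k2,k0,k1],[k0,k0,k0,k2,k0,k2],[k0,k0,k0,k1,k0,k1],[k0,k0,k0,k1,k0,k2],[k0,k0,k0,k1,k0,k3],[k0,k0,k0,k0,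
    k2,k0],[k0,k0,k0,k0,k3,k0],[k0,k0,k0,k0,k0,k2],[k0,k0,k0,k0,k0,k3],[k0,k0,k0,k0,k0,k4]]
    [.contra [z1],.ref k1 k0 [(z1,[z1,y3]),(z1,[y1,z0,y1,y3,z3]),(z1,[z0,z1,z0,z1])],.ref k1 k0 [(z1,[z1,y2]),(z1,[y1,
    y1,y1,y3,z3]),(z1,[z0,z1,z0,z1])],.contra [z1,z1],.ref k1 k0 [(z1,[z1,y1]),(z1,[y1,y2,y1,y3,z3]),(z1,[z0,z1,z0,
    z1])],.contra [z1],.ref k1 k0 [(z1,[y3,y3,z1,y3,z3]),(z1,[z3,z0,y2]),(z1,[z0,z1,z0,z1])],.ref k3 k1 [(z1,[z0,z1]),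
    (z1,[z0,z0,z1]),(z1,[z0,z0,z0,z1]),(z1,[y3,y3,z1,y3,z3])],.ref k11 k1 [(z1,[z0,z1]),(z1,[z0,z0,z1]),(z1,[z0,z0,z0,
    z1]),(z2,[y1,y2,z0,y2,z2])],.contra [y1,z0,z0,y1,z1],.ref k10 k2 [(z1,[z1,z1,z0,z1,y1]),(z1,[z0,z0,z0,z1]),(z1,
    [z0,z0,z1]),(z1,[z0,z1])],.contra [y1,z0,z0,y1,z1],.ref k9 k3 [(z1,[y3,y6,y1,y12,z6]),(z1,[z0,z0,z0,z1]),(z1,[z1,
    z1,z0,z2,y1]),(z1,[z0,z1,z0,z1])],.contra [y1,z0,z0,y1,z1],.ref k3 k1 [(z1,[z0,z1]),(z1,[z0,z0,z1]),(z1,[z0,z0,z0,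
    z1]),(z2,[y3,y6,y1,y6,z6])],.ref k8 k1 [(z1,[z0,z1]),(z1,[z0,z0,z1]),(z1,[z0,z0,z0,z1]),(z1,[y3,y9,y2,y9,z9])],
    .contra [z1],.ref k7 k0 [(z1,[y3,y3,y1,y3,z3]),(z1,[z1]),(z1,[y3,z0,y1,y3,z3]),(z1,[z0,z0,z1])],.ref k2 k0 [(z2,
    [y3,y6,y2,y6,z6]),(z2,[z1]),(z1,[z0,z1,z0,z1])],.contra [y1,z0,z0,y1,z1],.ref k5 k3 [(z1,[y3,y6,y2,y12,z6]),(z1,
    [z0,z0,z0,z1]),(z1,[z3,z3,z1,z6,y3]),(z1,[z0,z1,z0,z1])],.ref k6 k1 [(z1,[y3,z0,y1,y3,z3]),(z1,[z0,z0,z1]),(z1,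
    [z3,z3,z1,z6,y3]),(z1,[z1])],.contra [z1,z2],.ref k1 k0 [(z1,[z1]),(z1,[y1,y3,y1,y3,z3]),(z1,[z0,z1,z0,z1])],
    .contra [z1],.ref k3 k1 [(z1,[z0,z1]),(z1,[z0,z0,z1]),(z1,[z0,z0,z0,z1]),(z1,[y1,y3,y1,y3,z3])],.ref k4 k1 [(z1,
    [z0,z1]),(z1,[z0,z0,z1]),(z1,[z0,z0,z0,z1]),(z2,[y3,y12,y4,y12,z12])]]),
    .geo true z3 k5 [(y2,z3),(z6,y6),(y4,z6),(z2,z0),(z10,y6),(z0,z3)] [(z1,[z1]),(z1,[z0,z3]),(z1,[z0,z0,z1]),(z1,[z0,z0,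
    z0,z1]),(z1,[y1,y3,y1,y1,z3]),(z1,
    [])] (Int.ofNat (nat_lit 699050)) (Int.ofNat (nat_lit 1048576)) (.s (.l k2) (.l k1)) [⟨z2,z3,[[k0,k5],[k1,k2],[k3,
    k4]],.bnd k0⟩],
    .geo true z3 k5 [(y4,z6),(z2,z0),(z10,y6),(z6,y6),(y2,z3),(z0,z3)] [(z1,[z1]),(z1,[z0,z1]),(z1,[z0,z0,z1]),(z1,[z0,z0,
    z0,z3]),(z1,[y1,y1,y1,y3,z3]),(z1,
    [])] (Int.ofNat (nat_lit 699050)) (Int.ofNat (nat_lit 1048576)) (.s (.s (.s (.l k2) (.l k1)) (.l k1)) (.s (.l k1) (.l k1))) [⟨z2,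
    z3,[[k0,k5],[k1,k2],[k3,k4]],.bnd k0⟩],
    .geo true z3 k5 [(y2,z3),(z6,y6),(y6,z9),(z2,z0),(z12,y9),(z0,z3)] [(z1,[z1]),(z1,[z0,z3]),(z1,[z0,z0,z3]),(z1,[z0,z0,
    z0,z1]),(z1,[y1,y3,y3,y1,z3]),(z1,
    [])] (Int.ofNat (nat_lit 699050)) (Int.ofNat (nat_lit 1048576)) (.s (.l k2) (.l k1)) [⟨z2,z3,[[k0,k5],[k1,k2],[k3,
    k4]],.bnd k0⟩],
    .old (.lp [k48,k50,k98,k80,k120,k82] [k48,k28,k37,k37,k13,k13,k22,k22,k0,k4,k25,k17] k0 [[k0,k0,k15],[],[k0,k0,k0,k0,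
    k0,k0,k0,k0,k22],[k0,k15],[],[k0,k0,k0,k0,k0,k0,k0,k0,k0,k0,k0,k13],[],[],[k0,k0,k0,k0,k0,k0,k0,k0,k0,k0,k48],[k0,
    k0,k0,k22],[k0,k0,k0,k0,k13],[k0,k0,k0,k0,k0,k0,k0,k0,k0,k48]] (nat_lit 240) k6
    [[(k0,k48),(k8,k48),(k4,k96)],[(k1,k48),(k5,k48),(k9,k72)],[(k10,k62),(k2,k65),(k6,k65)],[(k11,k48),(k3,k65),(k7,
    k65)],[(k0,k48),(k4,k98),(k8,k133)],[(k1,k96),(k5,k98),(k9,k107)],[(k10,k64),(k2,k65),(k6,k80)],[(k3,k65),(k7,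
    k80),(k11,k85)],[(k0,k72),(k4,k107),(k8,k120)],[(k1,k48),(k9,k120),(k5,k133)],[(k2,k48),(k6,k85),(k10,k130)],[(k3,
    k62),(k7,k64),(k11,k130)]]
    [] k0
    [[k2,k0,k0,k0,k0,k0],[k3,k0,k0,k0,k0,k0],[k4,k0,k0,k0,k0,k0],[k3,k0,k0,k0,k1,k0],[k2,k0,k1,k0,k0,k0],[k2,k0,k0,k0,
    k1,k0],[k1,k0,k1,k0,k0,k0],[k1,k0,k0,k0,k1,k0],[k1,k0,k1,k0,k1,k0],[k0,k2,k0,k0,k0,k0],[k0,k3,k0,k0,k0,k0],[k0,k2,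
    k0,k1,k0,k0],[k0,k2,k0,k0,k0,k1],[k0,k1,k0,k1,k0,k0],[k0,k1,k0,k2,k0,k0],[k0,k1,k0,k1,k0,k1],[k0,k1,k0,k0,k0,k1],
    [k0,k2,k0,k0,k0,k2],[k0,k0,k2,k0,k0,k0],[k0,k0,k0,k2,k0,k0],[k0,k0,k0,k2,k0,k1],[k0,k0,k0,k1,k0,k1]]
    [.contra [z1],.contra [y1,z2,z3],.contra [y1,z2,z3],.ref k15 k1 [(z1,[z0,z1]),(z1,[z0,z0,z1]),(z1,[y1,z1,z0,z1]),
    (z1,[z0,y1,y3,y3,z3])],.ref k14 k4 [(z1,[y3,z2,z0,z3]),(z1,[z0,y1,y3,y3,z3]),(z1,[z3,y2]),(z1,[z0,z0,z1])],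
    .ref k13 k1 [(z1,[z0,z1]),(z1,[z0,z0,z1]),(z1,[y3,z2,z0,z3]),(z1,[z0,y1,y3,y3,z3])],.ref k12 k4 [(z1,[y1,z0,z0,
    z1]),(z1,[z0,y1,y3,y3,z3]),(z1,[z1])],.ref k12 k5 [(z1,[y1,z0,z0,z1]),(z1,[z0,y1,y3,y3,z3]),(z1,[z1])],
    .contra [z1,z0,z0,y1],.contra [z1],.contra [y1,z2,z3],.contra [y1,z1,z1,y1,z1],.contra [y1,z1,z2],.contra [y1,z1,
    z1,y1,z1],.contra [y1,z0,y1,y2,z2],.contra [y1,z0,z0,y1,z1],.contra [y1,z1,z2],.contra [y1,z0,z2],.contra [z1],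
    .contra [z1],.contra [z1,z1,z2,z2,y2],.contra [y1,z0,z0,y1,z1]]),
    .geo true z15 k5 [(z6,z0),(z14,y15),(z12,z0),(z10,z0),(z18,z0),(z0,z15)] [(z1,[z3]),(z1,[z0,z1]),(z1,[z0,z0,z3]),(z1,
    [z0,z0,z0,z5]),(z1,[y3,y1,y3,y5,z15]),(z1,[])] z0 (Int.ofNat (nat_lit 978671)) (.s (.l k1) (.l k1)) [],
    .old (.lp [(nat_lit 248),(nat_lit 322),(nat_lit 480),(nat_lit 316),(nat_lit 234),(nat_lit 318)] [k141,k141,k104,k104,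
    k25,k25,(nat_lit 214),k0,k148,k148,k106,k106] k0 [[],[],[],[],[k0,k0,k0,k0,k0,k0,k6],[k0,k0,k0,k0,k0,k0,k0,k0,k0,
    k0,k0,(nat_lit 232)],[k0,k0,k0,k0,k0,k0,k0,k0,k18],[k0,k0,k0,k0,k0,k6],[k0,k0,k0,k0,k0,k0,k0,k0,k0,k0,k2],[k0,k0,
    k0,k0,k0,k0,k0,k18],[k0,k0,k0,k0,(nat_lit 232)],[k0,k0,k0,k0,k0,k0,k0,k0,k0,k2]] (nat_lit 960) k6
    [[(k8,(nat_lit 239)),(k0,(nat_lit 248)),(k4,(nat_lit 596))],[(k9,(nat_lit 241)),(k1,(nat_lit 248)),(k5,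
    (nat_lit 364))],[(k6,(nat_lit 212)),(k10,(nat_lit 320)),(k2,(nat_lit 322))],[(k11,(nat_lit 320)),(k3,
    (nat_lit 322)),(k7,(nat_lit 426))],[(k8,(nat_lit 357)),(k0,(nat_lit 364)),(k4,(nat_lit 480))],[(k9,(nat_lit 351)),
    (k5,(nat_lit 480)),(k1,(nat_lit 596))],[(k10,k192),(k6,(nat_lit 322)),(k2,(nat_lit 426))],[(k11,k192),(k3,
    (nat_lit 212)),(k7,(nat_lit 322))],[(k0,(nat_lit 241)),(k8,(nat_lit 252)),(k4,(nat_lit 351))],[(k1,(nat_lit 239)),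
    (k9,(nat_lit 252)),(k5,(nat_lit 357))],[(k6,k192),(k2,(nat_lit 320)),(k10,(nat_lit 320))],[(k7,k192),(k3,
    (nat_lit 320)),(k11,(nat_lit 320))]]
    [] k0
    [[k2,k0,k0,k0,k0,k0],[k3,k0,k0,k0,k0,k0],[k2,k0,k0,k0,k1,k0],[k1,k0,k0,k0,k1,k0],[k1,k0,k1,k0,k1,k0],[k1,k0,k0,k0,
    k2,k0],[k0,k2,k0,k0,k0,k0],[k0,k1,k0,k1,k0,k0],[k0,k1,k0,k1,k0,k1],[k0,k1,k0,k0,k0,k1],[k0,k0,k1,k0,k1,k0],[k0,k0,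
    k0,k2,k0,k0],[k0,k0,k0,k2,k0,k1],[k0,k0,k0,k1,k0,k1],[k0,k0,k0,k2,k0,k2],[k0,k0,k0,k1,k0,k2],[k0,k0,k0,k0,k2,k0],
    [k0,k0,k0,k0,k3,k0],[k0,k0,k0,k0,k0,k2]]
    [.contra [z1],.ref k2 k0 [(z2,[z1,y3]),(z6,[y1,y3,y2,y6,z6]),(z1,[z0,z1,z0,z1])],.ref k17 k0 [(z1,[z1,y2]),(z1,
    [y3,y9,y5,y15,z15]),(z1,[z2,z1]),(z1,[z0,z0,z1])],.ref k1 k0 [(z1,[z1,y1]),(z1,[y1,y2,y1,y3,z3]),(z1,[z0,z1,z0,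
    z1])],.contra [z2,y1,z0,y2],.contra [z1,z1],.contra [z1],.contra [y1,y1,z0,y1,z1],.contra [y2,y1,z0,y2,z2],
    .contra [y2,y1,z0,y2,z2],.contra [y2,z1,z0,z2],.contra [z1],.ref k16 k0 [(z1,[y3,y3,y1,y3,z3]),(z1,[z1]),(z1,[z0,
    z1,z0,z1])],.contra [y2,y1,z0,y2,z2],.ref k2 k0 [(z2,[y3,y6,y2,y6,z6]),(z2,[z1]),(z1,[z0,z1,z0,z1])],
    .ref k16 k4 [(z1,[y3,y3,y1,y3,z3]),(z1,[z1]),(z1,[z0,z1,z0,z1])],.contra [z1],.ref k1 k0 [(z1,[z1]),(z1,[y1,y3,y1,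
    y3,z3]),(z1,[z0,z1,z0,z1])],.contra [z1]]),
    .old (.lp [k114,k160,(nat_lit 245),k160,k120,k160] [k106,k106,k83,k83,k81,k0,k83,k83,k103,k103,k134,k32] k0 [[k0,k0,
    k124],[k0,k0,k0,k0,k0,k0,k0,k0,k0,k0,k0,k9],[k0,k0,k0,k0,k0,k0,k0,k0,k115],[k0,k124],[],[],[],[],[],[k0,k0,k0,
    k115],[k9]] (nat_lit 480) k6
    [[(k8,k117),(k0,k123),(k4,k139)],[(k5,k96),(k9,k117),(k1,k123)],[(k10,k100),(k6,k160),(k2,(nat_lit 284))],[(k11,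
    k96),(k7,k160),(k3,(nat_lit 284))],[(k0,k96),(k4,(nat_lit 245)),(k8,(nat_lit 338))],[(k1,k139),(k9,k142),(k5,
    (nat_lit 245))],[(k10,k109),(k2,k160),(k6,k160)],[(k3,k160),(k7,k160),(k11,(nat_lit 211))],[(k0,k117),(k8,k120),
    (k4,k142)],[(k1,k117),(k9,k120),(k5,(nat_lit 338))],[(k2,k96),(k10,k160),(k6,(nat_lit 211))],[(k3,k100),(k7,k109),
    (k11,k160)]]
    [] k0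
    [[k2,k0,k0,k0,k0,k0],[k3,k0,k0,k0,k0,k0],[k2,k0,k1,k0,k0,k0],[k2,k0,k0,k0,k1,k0],[k2,k0,k1,k0,k1,k0],[k2,k0,k0,k0,
    k2,k0],[k1,k0,k1,k0,k0,k0],[k2,k0,k2,k0,k0,k0],[k1,k0,k0,k0,k1,k0],[k1,k0,k1,k0,k1,k0],[k1,k0,k0,k0,k2,k0],[k1,k0,
    k1,k0,k2,k0],[k1,k0,k0,k0,k3,k0],[k0,k1,k0,k1,k0,k0],[k0,k1,k0,k1,k0,k1],[k0,k1,k0,k0,k0,k1],[k0,k2,k0,k0,k0,k2],
    [k0,k1,k0,k0,k0,k2],[k0,k0,k0,k2,k0,k0],[k0,k0,k0,k1,k0,k1],[k0,k0,k0,k0,k2,k0],[k0,k0,k0,k0,k3,k0],[k0,k0,k0,k0,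
    k0,k2]]
    [.contra [z1],.ref k1 k1 [(z1,[z1]),(z1,[y1,z3,z1]),(z1,[z0,z0,z0,z1])],.ref k1 k1 [(z1,[z2,y1,z0,y2]),(z1,[y2,z4,
    z1,z2]),(z1,[z0,z0,z0,z1])],.ref k18 k5 [(z1,[y1,z0,z0,z1]),(z1,[z0,y3,y1,y3,z3]),(z1,[z1])],.contra [y1,z2,z0,
    z5],.contra [y1,z2,z0,z6],.contra [y1,z1,z0,z2],.contra [y1,z2,z0,z4],.ref k1 k1 [(z1,[z2,z1]),(z1,[y2,z2,z1]),
    (z1,[z0,z0,z0,z1])],.contra [y1,z1,z0,z3],.contra [y1,z1,z0,z4],.contra [z1,z1],.contra [z1,z2,z0,z1],.contra [y1,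
    z0,z0,y1,z1],.contra [z1,z1,z0,z3,y1],.contra [y3,z4,z1,z2],.ref k2 k1 [(z2,[y3,z6,z2]),(z2,[z1]),(z1,[z0,z0,z0,
    z1])],.ref k16 k1 [(z1,[y3,z3,z1]),(z1,[z1]),(z1,[z0,z0,z0,z1])],.contra [z1],.contra [y1,z0,z0,y1,z1],
    .contra [y1,z0,z0,z2],.contra [z1,z2,z0,z1],.contra [z1]]),
    .old (.lp [(nat_lit 480),(nat_lit 322),(nat_lit 248),(nat_lit 318),(nat_lit 234),(nat_lit 316)] [k26,k26,k105,k105,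
    k142,k142,(nat_lit 214),k0,k149,k149,k108,k108] k0 [[],[],[],[],[k0,k0,k0,k0,k0,k0,k2],[k0,k0,k0,k0,k0,k0,k0,k0,
    k0,k0,k0,(nat_lit 232)],[k0,k0,k0,k0,k0,k0,k0,k0,k18],[k0,k0,k0,k0,k0,k2],[k0,k0,k0,k0,k0,k0,k0,k0,k0,k0,k6],[k0,
    k0,k0,k0,k0,k0,k0,k18],[k0,k0,k0,k0,(nat_lit 232)],[k0,k0,k0,k0,k0,k0,k0,k0,k0,k6]] (nat_lit 960) k6
    [[(k8,(nat_lit 351)),(k0,(nat_lit 480)),(k4,(nat_lit 596))],[(k9,(nat_lit 357)),(k5,(nat_lit 364)),(k1,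
    (nat_lit 480))],[(k6,(nat_lit 213)),(k10,(nat_lit 319)),(k2,(nat_lit 322))],[(k11,(nat_lit 319)),(k3,
    (nat_lit 322)),(k7,(nat_lit 427))],[(k8,(nat_lit 241)),(k4,(nat_lit 248)),(k0,(nat_lit 364))],[(k9,(nat_lit 239)),
    (k5,(nat_lit 248)),(k1,(nat_lit 596))],[(k10,k192),(k6,(nat_lit 320)),(k2,(nat_lit 427))],[(k11,k192),(k3,
    (nat_lit 213)),(k7,(nat_lit 320))],[(k4,(nat_lit 239)),(k8,(nat_lit 252)),(k0,(nat_lit 357))],[(k5,(nat_lit 241)),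
    (k9,(nat_lit 252)),(k1,(nat_lit 351))],[(k6,k192),(k2,(nat_lit 319)),(k10,(nat_lit 322))],[(k7,k192),(k3,
    (nat_lit 319)),(k11,(nat_lit 322))]]
    [] k0
    [[k1,k0,k0,k0,k1,k0],[k1,k0,k1,k0,k1,k0],[k0,k2,k0,k0,k0,k0],[k0,k1,k0,k1,k0,k0],[k0,k1,k0,k1,k0,k1],[k0,k1,k0,k0,
    k0,k1],[k0,k0,k2,k0,k0,k0],[k0,k0,k3,k0,k0,k0],[k0,k0,k2,k0,k1,k0],[k0,k0,k1,k0,k1,k0],[k0,k0,k1,k0,k2,k0],[k0,k0,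
    k0,k2,k0,k0],[k0,k0,k0,k2,k0,k1],[k0,k0,k0,k1,k0,k1],[k0,k0,k0,k2,k0,k2],[k0,k0,k0,k1,k0,k2],[k0,k0,k0,k0,k2,k0],
    [k0,k0,k0,k0,k3,k0],[k0,k0,k0,k0,k0,k2]]
    [.contra [y3,z0,y1,y1,z3],.contra [z3,y1,z0,y1],.contra [z3,z2,y2],.contra [y3,y1,z0,y1,z3],.contra [y3,y1,z0,y1,
    z3],.contra [y3,y1,z0,y1,z3],.contra [y3,z2,z0,z2],.contra [y1,z2,z0,z1],.contra [z3,z1,z0,y2],.ref k1 k0 [(z1,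
    [z3,z0,z0,y1]),(z1,[y3,y1,y1,z0,z3]),(z3,[z0,z1,z0,z1])],.ref k2 k0 [(z2,[z3,z0,z0,y1]),(z6,[y3,y2,y2,y1,z6]),(z3,
    [z0,z1,z0,z1])],.contra [z1],.ref k16 k0 [(z1,[y3,y1,y1,y1,z3]),(z1,[z1]),(z3,[z0,z1,z0,z1])],.contra [y3,z0,y1,
    y1,z3],.ref k2 k0 [(z2,[y3,y2,y2,y2,z6]),(z2,[z1]),(z3,[z0,z1,z0,z1])],.ref k16 k4 [(z1,[y3,y1,y1,y1,z3]),(z1,
    [z1]),(z3,[z0,z1,z0,z1])],.contra [z1],.ref k1 k0 [(z1,[z1]),(z1,[y1,y1,y1,y1,z3]),(z3,[z0,z1,z0,z1])],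
    .contra [z1]]),
    .old (.lp [(nat_lit 322),(nat_lit 248),(nat_lit 318),(nat_lit 234),(nat_lit 316),(nat_lit 480)] [k105,k105,k142,k142,
    (nat_lit 214),k0,k149,k149,k108,k108,k26,k26] k0 [[],[],[k0,k0,k0,k0,k2],[k0,k0,k0,k0,k0,k0,k0,k0,k0,
    (nat_lit 232)],[k0,k0,k0,k0,k0,k0,k18],[k0,k0,k0,k2],[k0,k0,k0,k0,k0,k0,k0,k0,k6],[k0,k0,k0,k0,k0,k18],[k0,k0,
    (nat_lit 232)],[k0,k0,k0,k0,k0,k0,k0,k6]] (nat_lit 960) k6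
    [[(k4,(nat_lit 213)),(k8,(nat_lit 319)),(k0,(nat_lit 322))],[(k9,(nat_lit 319)),(k1,(nat_lit 322)),(k5,
    (nat_lit 427))],[(k6,(nat_lit 241)),(k2,(nat_lit 248)),(k10,(nat_lit 364))],[(k7,(nat_lit 239)),(k3,
    (nat_lit 248)),(k11,(nat_lit 596))],[(k8,k192),(k4,(nat_lit 320)),(k0,(nat_lit 427))],[(k9,k192),(k1,
    (nat_lit 213)),(k5,(nat_lit 320))],[(k2,(nat_lit 239)),(k6,(nat_lit 252)),(k10,(nat_lit 357))],[(k3,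
    (nat_lit 241)),(k7,(nat_lit 252)),(k11,(nat_lit 351))],[(k4,k192),(k0,(nat_lit 319)),(k8,(nat_lit 322))],[(k5,
    k192),(k1,(nat_lit 319)),(k9,(nat_lit 322))],[(k6,(nat_lit 351)),(k10,(nat_lit 480)),(k2,(nat_lit 596))],[(k7,
    (nat_lit 357)),(k3,(nat_lit 364)),(k11,(nat_lit 480))]]
    [] k0
    [[k2,k0,k0,k0,k0,k0],[k1,k0,k1,k0,k0,k0],[k1,k0,k1,k0,k1,k0],[k1,k0,k0,k0,k1,k0],[k0,k2,k0,k0,k0,k0],[k0,k3,k0,k0,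
    k0,k0],[k0,k2,k0,k1,k0,k0],[k0,k1,k0,k1,k0,k0],[k0,k1,k0,k2,k0,k0],[k0,k1,k0,k1,k0,k1],[k0,k0,k2,k0,k0,k0],[k0,k0,
    k2,k0,k1,k0],[k0,k0,k1,k0,k1,k0],[k0,k0,k2,k0,k2,k0],[k0,k0,k1,k0,k2,k0],[k0,k0,k0,k2,k0,k0],[k0,k0,k0,k3,k0,k0],
    [k0,k0,k0,k1,k0,k1],[k0,k0,k0,k0,k2,k0]]
    [.contra [z1],.contra [y1,z0,y1,z1],.contra [y1,z0,y1,z1],.contra [y1,z0,y1,z1],.contra [z1],.ref k20 k6 [(z1,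
    [z1]),(z1,[z0,z1]),(z1,[y1,z0,z3])],.ref k19 k2 [(z1,[z1,z0,y2]),(z1,[y3,y1,z3,z3]),(z1,[z0,z0,z1])],
    .ref k12 k7 [(z1,[y1,z0,z1]),(z1,[z0,z1]),(z1,[z1])],.ref k18 k7 [(z1,[y1,z0,z1]),(z1,[z0,z1]),(z1,[z1])],
    .contra [z1,z0,y1],.contra [z1],.ref k16 k3 [(z1,[y3,y1,y3,z3]),(z1,[z1]),(z1,[z0,z0,z1])],.contra [y1,z0,y1,z1],
    .ref k2 k3 [(z2,[y3,y2,y6,z6]),(z2,[z1]),(z1,[z0,z0,z1])],.ref k16 k2 [(z1,[y3,y1,y3,z3]),(z1,[z1]),(z1,[z0,z0,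
    z1])],.contra [z1],.ref k1 k3 [(z1,[z1]),(z1,[y1,y1,y3,z3]),(z1,[z0,z0,z1])],.ref k12 k6 [(z1,[y1,z0,z1]),(z1,[z0,
    z1]),(z1,[z1])],.contra [z1]]),
    .old (.leafM k11 [k2,k3,k4,k0] [(z1,[y1,y3,y3,z3]),(z1,[z1]),(z1,[z0,z0,z1])] [(k5,k1,z1,[z0,z1]),(k1,k5,z1,[z0,z1])]),
    .geo true z3 k4 [(z0,z3),(z1,z0),(z6,y3),(z3,y3),(z0,z3),(z2,z0)] [(z1,[z3]),(z1,[z0,z1]),(z1,[z0,z0,z3]),(z1,[z0,z0,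
    z0,z3]),(z1,[]),(z1,[y3,y1,y3,y3,
    z3])] z0 (Int.ofNat (nat_lit 1048576)) (.s (.s (.s (.l k2) (.l k1)) (.l k1)) (.s (.s (.l k1) (.l k3)) (.l k1))) [⟨z0,
    z1,[[k0,k5],[k1,k2],[k3,k4]],.bnd k0⟩,⟨z2,z3,[[k0,k3],[k1,k5],[k2,k4]],.child (.ref k22 k3 [(z1,[y1,z0,z0,z0,z3]),
    (z1,[z0,z0,z0,z1]),(z1,[z0,y1,z0,y1,y1,z1])])⟩]]

noncomputable def cU6_37_n0_2 : List XN :=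
  [.geo true z9 k4 [(z0,z9),(z4,z0),(z18,y9),(z8,y9),(z0,z9),(z6,z0)] [(z1,[z9]),(z1,[z0,z1]),(z1,[z0,z0,z9]),(z1,[z0,z0,
    z0,z1]),(z1,[]),(z1,[y9,y1,y9,y1,
    z9])] z0 (Int.ofNat (nat_lit 932068)) (.s (.s (.s (.l k2) (.l k1)) (.l k1)) (.s (.s (.l k1) (.l k1)) (.s (.l k1) (.l k1)))) [⟨z0,
    z1,[[k0,k5],[k1,k2],[k3,k4]],.bnd k0⟩],
    .geo true z6 k4 [(z0,z6),(z3,z0),(z12,y6),(z5,y6),(z0,z6),(z4,z0)] [(z1,[z6]),(z1,[z0,z3]),(z1,[z0,z0,z6]),(z1,[z0,z0,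
    z0,z1]),(z1,[]),(z1,[y6,y3,y6,y1,
    z6])] z0 (Int.ofNat (nat_lit 873814)) (.s (.s (.s (.l k2) (.l k1)) (.l k1)) (.s (.l k1) (.l k1))) [⟨z0,z1,[[k0,
    k5],[k1,k2],[k3,k4]],.bnd k0⟩],
    .geo true z3 k5 [(z2,z0),(z2,z0),(z2,z0),(z2,y3),(z4,z0),(z0,z3)] [(z1,[z1]),(z1,[z0,z1]),(z1,[z0,z0,z1]),(z1,[z0,z0,
    z0,z1]),(z1,[y1,y1,y1,y1,z3]),(z1,[])] z0 (Int.ofNat (nat_lit 699051)) (.l k2) [⟨z1,z3,[[k0,k4],[k1,k3],[k2,k5]],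
    .child (.ref k22 k3 [(z1,[y1,z0,z0,z0,z1]),(z3,[z0,y1,y1,z0,y1,z3]),(z3,[z1,z0,z1])])⟩],
    .geo true z6 k5 [(z3,z0),(z4,z0),(z3,z0),(z5,y6),(z9,z0),(z0,z6)] [(z1,[z3]),(z1,[z0,z2]),(z1,[z0,z0,z3]),(z1,[z0,z0,
    z0,z1]),(z1,[y3,y2,y3,y1,z6]),(z1,[])] z0 (Int.ofNat (nat_lit 873814)) (.s (.l k1) (.l k1)) [],
    .old (.lp [k96,k142,(nat_lit 344),k100,k136,k140] [k124,k124,k101,k101,k0,k0,k122,k122,k104,k104,k102,k102] k0 [[k0,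
    k0,k0,k0,k0,k0,k20],[k0,k0,k0,k22],[k22],[k0,k0,k0,k0,k0,k118],[k0,k0,k118],[k0,k0,k0,k0,k0,k0,k0,k0,k0,k0,k0,
    k18],[k0,k0,k0,k0,k0,k0,k0,k0,k24],[k0,k20],[k0,k0,k0,k0,k0,k0,k0,k0,k0,k0,k20],[k0,k0,k0,k0,k0,k0,k0,k24],[k0,k0,
    k0,k0,k18],[k0,k0,k0,k0,k0,k0,k0,k0,k0,k20]] (nat_lit 480) k6
    [[(k0,k96),(k8,k96),(k4,(nat_lit 238))],[(k1,k96),(k9,k96),(k5,(nat_lit 242))],[(k2,k120),(k6,k141),(k10,k141)],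
    [(k3,k120),(k11,k141),(k7,(nat_lit 239))],[(k4,(nat_lit 226)),(k8,(nat_lit 240)),(k0,(nat_lit 242))],[(k5,
    (nat_lit 226)),(k1,(nat_lit 238)),(k9,(nat_lit 240))],[(k6,k100),(k10,k102),(k2,(nat_lit 239))],[(k11,k96),(k7,
    k100),(k3,k141)],[(k0,k96),(k8,k160),(k4,(nat_lit 240))],[(k1,k96),(k9,k160),(k5,(nat_lit 240))],[(k6,k96),(k2,
    k141),(k10,k160)],[(k7,k102),(k3,k141),(k11,k160)]]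
    [] k0
    [[k2,k0,k0,k0,k0,k0],[k3,k0,k0,k0,k0,k0],[k4,k0,k0,k0,k0,k0],[k3,k0,k0,k0,k1,k0],[k2,k0,k0,k0,k1,k0],[k2,k0,k0,k0,
    k2,k0],[k1,k0,k0,k0,k1,k0],[k1,k0,k0,k0,k2,k0],[k0,k2,k0,k0,k0,k0],[k0,k3,k0,k0,k0,k0],[k0,k2,k0,k0,k0,k1],[k0,k1,
    k0,k1,k0,k0],[k0,k1,k0,k1,k0,k1],[k0,k1,k0,k0,k0,k1],[k0,k1,k0,k0,k0,k2],[k0,k0,k2,k0,k0,k0],[k0,k0,k0,k2,k0,k0],
    [k0,k0,k0,k3,k0,k0],[k0,k0,k0,k4,k0,k0],[k0,k0,k0,k3,k0,k1],[k0,k0,k0,k2,k0,k1],[k0,k0,k0,k2,k0,k2],[k0,k0,k0,k1,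
    k0,k1],[k0,k0,k0,k1,k0,k2],[k0,k0,k0,k0,k2,k0],[k0,k0,k0,k0,k0,k2]]
    [.contra [z1],.ref k26 k0 [(z1,[z1,y3]),(z1,[z0,y3,y1,y3,z3]),(z1,[z1]),(z1,[y1,z3,z1])],.ref k27 k0 [(z2,[z1,
    y4]),(z1,[z0,y3,y1,y3,z3]),(z2,[z1]),(z2,[y3,z12,z4])],.ref k27 k0 [(z2,[z1,y3]),(z1,[z0,y3,y1,y3,z3]),(z2,[z1,
    z1]),(z2,[y3,z9,z4])],.ref k26 k0 [(z1,[z1,y2]),(z1,[z0,y3,y1,y3,z3]),(z1,[z1,z1]),(z1,[y1,z2,z1])],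
    .ref k27 k0 [(z2,[z1,y2]),(z1,[z0,y3,y1,y3,z3]),(z2,[z1,z2]),(z2,[y3,z6,z4])],.contra [z1,z1],.ref k26 k0 [(z1,
    [z1,y1]),(z1,[z0,y3,y1,y3,z3]),(z1,[z1,z2]),(z1,[y1,z1,z1])],.contra [z1],.ref k21 k8 [(z1,[z1]),(z1,[z0,z1,z0,
    z1])],.ref k21 k8 [(z2,[z3,z3,z1,z3,y3]),(z1,[z0,z1,z0,z1])],.contra [y3,z4,z1,z1],.contra [y1,z0,z0,y1,z1],
    .contra [y1,z0,z0,y1,z1],.ref k21 k8 [(z1,[z3,z6,z2,z6,y6]),(z1,[z0,z1,z0,z1])],.contra [y1,z2,z0,z2],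
    .contra [z1],.ref k21 k3 [(z1,[z1]),(z1,[z0,z0,z0,z1])],.ref k25 k4 [(z1,[z0,y1]),(z2,[z1]),(z1,[z0,z1,z0,z1]),
    (z2,[y3,z12,z4])],.ref k24 k4 [(z1,[z0,y1]),(z1,[z3,z3,z1,z3,y3]),(z1,[z0,z1,z0,z1]),(z1,[y3,z6,z2,y3,z3])],
    .ref k21 k3 [(z2,[z3,z3,z1,z3,y3]),(z1,[z0,z0,z0,z1])],.ref k23 k4 [(z1,[z0,y1]),(z2,[z3,z6,z2,z6,y6]),(z1,[z0,z1,
    z0,z1]),(z2,[y1,z0,z0,y2,z2])],.contra [y1,z0,z0,y1,z1],.ref k21 k3 [(z1,[z3,z6,z2,z6,y6]),(z1,[z0,z0,z0,z1])],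
    .contra [z1,z2],.contra [z1]]),
    .geo true z6 k4 [(z3,z0),(z4,z0),(z5,y6),(z4,z0),(z0,z6),(z8,z0)] [(z1,[z3]),(z1,[z0,z2]),(z1,[z0,z0,z1]),(z1,[z0,z0,
    z0,z2]),(z1,[]),(z1,[y3,y2,y1,y2,z6])] z0 (Int.ofNat (nat_lit 873814)) (.s (.l k1) (.l k1)) [],
    .geo true z3 k4 [(y2,z3),(z2,z0),(z6,y6),(z2,z0),(z0,z3),(z4,z0)] [(z1,[z1]),(z1,[z0,z1]),(z1,[z0,z0,z3]),(z1,[z0,z0,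
    z0,z1]),(z1,[]),(z1,[y1,y1,y3,y1,z3])] (Int.ofNat (nat_lit 699050)) (Int.ofNat (nat_lit 1048576)) (.l k1) [],
    .geo true z3 k4 [(y2,z6),(z2,z0),(z6,y9),(z2,z0),(z0,z3),(z4,z0)] [(z1,[z1]),(z1,[z0,z1]),(z1,[z0,z0,z3]),(z1,[z0,z0,
    z0,z1]),(z1,[]),(z1,[y1,y1,y3,y1,
    z3])] (Int.ofNat (nat_lit 349525)) (Int.ofNat (nat_lit 699051)) (.s (.s (.l k1) (.l k1)) (.l k1)) [],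
    .geo true z3 k4 [(y2,z3),(z4,z0),(z6,y6),(z2,z0),(z0,z3),(z2,z0)] [(z1,[z1]),(z1,[z0,z1]),(z1,[z0,z0,z3]),(z1,[z0,z0,
    z0,z1]),(z1,[]),(z1,[y1,y1,y3,y1,
    z3])] (Int.ofNat (nat_lit 699050)) (Int.ofNat (nat_lit 1048576)) (.s (.l k1) (.l k1)) [],
    .geo true z3 k4 [(y2,z6),(z4,z0),(z6,y9),(z2,z0),(z0,z3),(z2,z0)] [(z1,[z1]),(z1,[z0,z1]),(z1,[z0,z0,z3]),(z1,[z0,z0,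
    z0,z1]),(z1,[]),(z1,[y1,y1,y3,y1,
    z3])] (Int.ofNat (nat_lit 349525)) (Int.ofNat (nat_lit 699051)) (.s (.s (.l k1) (.l k1)) (.s (.l k1) (.l k1))) [],
    .old (.lp [k166,k114,k166,k96,(nat_lit 296),k120] [k65,k65,k94,k88,k65,k65,k94,k106,k0,k0,k88,k88] k0 [[k0,k0,k18],
    [k0,k0,k0,k0,k0,k0,k0,k18],[k0,k0,k0,k0,k0,k0,k0,k0,k18],[k0,k18],[],[],[k18],[k0,k0,k0,k0,k0,k0,k0,k0,k0,k168],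
    [k0,k0,k0,k0,k0,k0,k168],[k0,k0,k0,k18]] (nat_lit 480) k6
    [[(k0,k166),(k4,k166),(k8,(nat_lit 231))],[(k5,k148),(k1,k166),(k9,(nat_lit 249))],[(k6,k96),(k10,k120),(k2,
    k132)],[(k7,k96),(k11,k96),(k3,k132)],[(k0,k148),(k4,k166),(k8,(nat_lit 249))],[(k1,k166),(k5,k166),(k9,
    (nat_lit 231))],[(k2,k96),(k6,k96),(k10,k102)],[(k3,k96),(k7,k96),(k11,(nat_lit 282))],[(k8,k128),(k4,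
    (nat_lit 231)),(k0,(nat_lit 249))],[(k9,k128),(k1,(nat_lit 231)),(k5,(nat_lit 249))],[(k2,k96),(k10,k120),(k6,
    (nat_lit 282))],[(k7,k102),(k3,k120),(k11,k120)]]
    [] k0
    [[k2,k0,k0,k0,k0,k0],[k1,k0,k1,k0,k0,k0],[k0,k2,k0,k0,k0,k0],[k0,k3,k0,k0,k0,k0],[k0,k3,k0,k1,k0,k0],[k0,k2,k0,k1,
    k0,k0],[k0,k2,k0,k2,k0,k0],[k0,k2,k0,k1,k0,k1],[k0,k2,k0,k0,k0,k1],[k0,k2,k0,k0,k0,k2],[k0,k1,k0,k1,k0,k0],[k0,k1,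
    k0,k2,k0,k0],[k0,k1,k0,k3,k0,k0],[k0,k1,k0,k2,k0,k1],[k0,k1,k0,k1,k0,k1],[k0,k1,k0,k1,k0,k2],[k0,k1,k0,k0,k0,k1],
    [k0,k1,k0,k0,k0,k2],[k0,k1,k0,k0,k0,k3],[k0,k0,k2,k0,k0,k0],[k0,k0,k0,k2,k0,k0],[k0,k0,k0,k3,k0,k0],[k0,k0,k0,k4,
    k0,k0],[k0,k0,k0,k1,k0,k1],[k0,k0,k0,k0,k2,k0],[k0,k0,k0,k0,k3,k0],[k0,k0,k0,k0,k0,k2],[k0,k0,k0,k0,k0,k3]]
    [.contra [z1],.contra [z3,z1,z0,y1],.contra [z1],.ref k28 k9 [(z3,[z0,z1,z0,y1]),(z1,[y1,z0,z1,z1]),(z3,[z0,y1,y1,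
    z0,z3])],.ref k33 k10 [(z1,[y3,z0,z1]),(z1,[z0,y1,y1,y1,z3]),(z1,[z1]),(z1,[z0,z0,z0,z1])],.ref k32 k10 [(z1,[y3,
    z0,z1]),(z1,[z0,y1,y1,y1,z3]),(z1,[z1]),(z1,[z0,z0,z0,z1])],.ref k22 k7 [(z2,[y3,z0,z2]),(z3,[z0,z0,y1,y1,z3]),
    (z2,[z1])],.ref k28 k9 [(z3,[z0,z1,z0,y1]),(z1,[y3,z0,z2,z1]),(z3,[z0,y1,y1,z0,z3])],.ref k32 k3 [(z1,[y3,z0,z1]),
    (z1,[z0,y1,y1,y1,z3]),(z1,[z1]),(z1,[z0,z1])],.ref k22 k3 [(z2,[y3,z0,z2]),(z3,[z0,y1,y1,z0,z3]),(z2,[z1])],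
    .contra [y3,z1,z1],.ref k30 k7 [(z1,[y3,z0,z1]),(z1,[z0,z1]),(z1,[z1]),(z1,[z0,z0,z0,z1])],.ref k31 k7 [(z1,[y3,
    z0,z1]),(z1,[z0,z1]),(z1,[z1]),(z1,[z0,z0,z0,z1])],.ref k21 k3 [(z1,[z3,z0,y1]),(z3,[z0,y1,y1,z0,z3])],
    .contra [z3,z2,y1],.ref k21 k7 [(z1,[z3,z0,y1]),(z3,[z0,z0,y1,y1,z3])],.contra [y3,z1,z1],.ref k30 k2 [(z1,[y3,z0,
    z1]),(z1,[z0,z0,z0,z1]),(z1,[z1]),(z1,[z0,z1])],.ref k31 k2 [(z1,[y3,z0,z1]),(z1,[z0,z0,z0,z1]),(z1,[z1]),(z1,[z0,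
    z1])],.contra [z3,z2,z0,y2],.contra [z1],.ref k21 k3 [(z1,[z1]),(z3,[z0,y1,y1,z0,z3])],.ref k29 k2 [(z2,[z1]),(z1,
    [z0,z0,z0,z1]),(z2,[y3,z0,z4]),(z1,[z0,z1])],.contra [y3,z1,z1],.contra [y3,z0,y2,y2,z6],.contra [y1,z1,y1,y1,z3],
    .contra [z1],.ref k21 k7 [(z1,[z1]),(z3,[z0,z0,y1,y1,z3])]]),
    .old (.leafM k12 [k3,k4,k5,k1] [(z1,[y2,y1,y2,z2]),(z1,[z0,z1]),(z1,[z0,z0,z1])] [(k0,k2,z1,[z1]),(k2,k0,z1,[z1])])]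

noncomputable def cU6_37_n0_3 : List XN :=
  [.geo true z2 k4 [(y1,z2),(z1,z0),(z4,y4),(z1,z0),(z0,z2),(z3,z0)] [(z1,[z1]),(z1,[z0,z1]),(z1,[z0,z0,z2]),(z1,[z0,z0,
    z0,z1]),(z1,[]),(z1,[y1,y1,y2,y1,
    z2])] (Int.ofNat (nat_lit 524288)) (Int.ofNat (nat_lit 1048576)) (.s (.l k1) (.l k1)) [],
    .geo true z2 k4 [(y1,z4),(z1,z0),(z4,y6),(z1,z0),(z0,z2),(z3,z0)] [(z1,[z1]),(z1,[z0,z1]),(z1,[z0,z0,z2]),(z1,[z0,z0,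
    z0,z1]),(z1,[]),(z1,[y1,y1,y2,y1,
    z2])] (Int.ofNat (nat_lit 262144)) (Int.ofNat (nat_lit 699051)) (.s (.s (.l k1) (.s (.l k1) (.l k1))) (.l k1)) [],
    .old (.lp [k60,k110,k60,k48,k152,k48] [k46,k46,k21,k21,k46,k46,k52,k52,k0,k0,k52,k52] k0 [[],[k0,k0,k0,k0,k0,k0,k0,
    k28],[k0,k0,k0,k0,k0,k0,k0,k0,k28],[],[],[],[k28],[k0,k0,k0,k0,k0,k0,k0,k0,k0,k96],[k0,k0,k0,k0,k0,k0,k96],[k0,k0,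
    k0,k28]] (nat_lit 240) k6
    [[(k0,k60),(k4,k60),(k8,k106)],[(k1,k60),(k5,k60),(k9,k134)],[(k6,k51),(k10,k79),(k2,k110)],[(k11,k51),(k7,k79),
    (k3,k110)],[(k0,k60),(k4,k60),(k8,k134)],[(k1,k60),(k5,k60),(k9,k106)],[(k6,k48),(k10,k48),(k2,k79)],[(k7,k48),
    (k3,k51),(k11,k144)],[(k8,k56),(k4,k106),(k0,k134)],[(k9,k56),(k1,k106),(k5,k134)],[(k10,k48),(k2,k51),(k6,k144)],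
    [(k7,k48),(k11,k48),(k3,k79)]]
    [] k0
    [[k2,k0,k0,k0,k0,k0],[k3,k0,k0,k0,k0,k0],[k2,k0,k1,k0,k0,k0],[k1,k0,k1,k0,k0,k0],[k1,k0,k2,k0,k0,k0],[k0,k2,k0,k0,
    k0,k0],[k0,k1,k0,k1,k0,k0],[k0,k1,k0,k2,k0,k0],[k0,k1,k0,k3,k0,k0],[k0,k1,k0,k2,k0,k1],[k0,k1,k0,k1,k0,k1],[k0,k1,
    k0,k1,k0,k2],[k0,k1,k0,k0,k0,k1],[k0,k1,k0,k0,k0,k2],[k0,k1,k0,k0,k0,k3],[k0,k0,k2,k0,k0,k0],[k0,k0,k3,k0,k0,k0],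
    [k0,k0,k0,k2,k0,k0],[k0,k0,k0,k3,k0,k0],[k0,k0,k0,k4,k0,k0],[k0,k0,k0,k1,k0,k1],[k0,k0,k0,k0,k2,k0],[k0,k0,k0,k0,
    k3,k0],[k0,k0,k0,k0,k4,k0],[k0,k0,k0,k0,k0,k2],[k0,k0,k0,k0,k0,k3],[k0,k0,k0,k0,k0,k4]]
    [.contra [z1],.contra [z1,y1],.contra [z2,y1,z0,y1],.contra [z2,z1,z0,y1],.contra [z1,z0,z0,y1],.contra [z1],
    .contra [y2,z1,z1],.ref k36 k7 [(z1,[y2,z0,z1]),(z1,[z0,z1]),(z1,[z1]),(z1,[z0,z0,z0,z1])],.ref k37 k7 [(z1,[y2,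
    z0,z1]),(z1,[z0,z1]),(z1,[z1]),(z1,[z0,z0,z0,z1])],.ref k35 k5 [(z2,[z0,y1,y1,z0,z2]),(z1,[z2,z0,y1]),(z1,[y1,z0,
    z1])],.contra [z2,z1,y1],.ref k35 k0 [(z2,[z0,z0,y1,y1,z2]),(z1,[z2,z0,y1]),(z1,[y1,z0,z1])],.contra [y2,z1,z1],
    .ref k36 k2 [(z1,[y2,z0,z1]),(z1,[z0,z0,z0,z1]),(z1,[z1]),(z1,[z0,z1])],.ref k37 k2 [(z1,[y2,z0,z1]),(z1,[z0,z0,
    z0,z1]),(z1,[z1]),(z1,[z0,z1])],.contra [z1,z1,z0,y1],.contra [z2,z1,z0,y3],.contra [z1],.ref k21 k3 [(z1,[z1]),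
    (z2,[z0,y1,y1,z0,z2])],.ref k35 k5 [(z2,[z0,y1,y1,z0,z2]),(z2,[z1]),(z4,[y1,z0,z2])],.contra [y2,z1,z1],
    .contra [y1,z0,y1,y1,z2],.contra [y2,z2,y3,y3,z6],.contra [y1,z2,y2,y2,z4],.contra [z1],.ref k21 k7 [(z1,[z1]),
    (z2,[z0,z0,y1,y1,z2])],.ref k35 k0 [(z2,[z0,z0,y1,y1,z2]),(z2,[z1]),(z4,[y1,z0,z2])]]),
    .geo true z1 k5 [(z0,z3),(y2,z4),(z2,y3),(z2,y2),(z2,y3),(z0,z1)] [(z1,[z1]),(z1,[z0,z1]),(z1,[z0,z0,z1]),(z1,[z0,z0,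
    z0,z1]),(z1,[y1,y1,y1,y1,z1]),(z1,
    [])] (Int.ofNat (nat_lit 524288)) (Int.ofNat (nat_lit 699051)) (.s (.l k1) (.l k2)) [⟨z2,z3,[[k0,k5],[k1,k2],[k3,
    k4]],.bnd k0⟩],
    .geo true z1 k5 [(y6,z4),(z2,y1),(z4,y2),(z2,y1),(z2,y1),(z0,z1)] [(z1,[z1]),(z1,[z0,z1]),(z1,[z0,z0,z1]),(z1,[z0,z0,
    z0,z1]),(z1,[y1,y1,y1,y1,z1]),(z1,
    [])] (Int.ofNat (nat_lit 1572864)) (Int.ofNat (nat_lit 2097152)) (.s (.s (.s (.l k1) (.l k1)) (.s (.l k1) (.l k1))) (.s (.s (.l k1) (.l k1)) (.s (.s (.l k1) (.l k1)) (.s (.l k1) (.s (.l k1) (.s (.l k1) (.l k2))))))) [⟨z2,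
    z1,[[k0,k1],[k2,k3],[k4,k5]],.bnd k0⟩],
    .geo true z2 k5 [(y4,z3),(z4,y2),(z0,z1),(z4,y2),(z4,y2),(z0,z2)] [(z1,[z1]),(z1,[z0,z2]),(z1,[z0,z0,z1]),(z1,[z0,z0,
    z0,z2]),(z1,[y1,y2,y1,y2,z2]),(z1,
    [])] (Int.ofNat (nat_lit 1398101)) (Int.ofNat (nat_lit 2097152)) (.s (.s (.l k1) (.l k1)) (.s (.l k1) (.s (.l k1) (.s (.l k1) (.l k2))))) [⟨z2,
    z1,[[k0,k1],[k2,k3],[k4,k5]],.bnd k1⟩],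
    .old (.lp [k110,k48,k60,k152,k60,k48] [k21,k21,k52,k52,k42,k50,k0,k0,k50,k42,k52,k52] k0 [[k0,k0,k0,k0,k0,k0,k40],[],
    [],[],[k0,k0,k0,k0,k0,k0,k0,k0,k0,k0,k40],[k0,k0,k0,k0,k0,k0,k0,k60],[k0,k0,k0,k0,k60],[k0,k40],[],[],[],[k0,k0,
    k0,k0,k0,k40]] (nat_lit 240) k6
    [[(k4,k49),(k8,k81),(k0,k110)],[(k9,k49),(k5,k81),(k1,k110)],[(k2,k48),(k10,k48),(k6,k140)],[(k3,k48),(k11,k48),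
    (k7,k100)],[(k8,k52),(k4,k60),(k0,k81)],[(k1,k49),(k5,k60),(k9,k128)],[(k6,k92),(k2,k100),(k10,k140)],[(k7,k92),
    (k11,k100),(k3,k140)],[(k0,k49),(k8,k60),(k4,k128)],[(k5,k52),(k9,k60),(k1,k81)],[(k2,k48),(k10,k48),(k6,k100)],
    [(k3,k48),(k11,k48),(k7,k140)]]
    [] k0
    [[k2,k0,k0,k0,k0,k0],[k1,k0,k1,k0,k0,k0],[k1,k0,k2,k0,k0,k0],[k1,k0,k2,k0,k1,k0],[k1,k0,k1,k0,k1,k0],[k1,k0,k1,k0,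
    k2,k0],[k1,k0,k0,k0,k1,k0],[k1,k0,k0,k0,k2,k0],[k0,k2,k0,k0,k0,k0],[k0,k3,k0,k0,k0,k0],[k0,k4,k0,k0,k0,k0],[k0,k3,
    k0,k0,k0,k1],[k0,k2,k0,k0,k0,k1],[k0,k2,k0,k0,k0,k2],[k0,k1,k0,k0,k0,k1],[k0,k1,k0,k0,k0,k2],[k0,k1,k0,k0,k0,k3],
    [k0,k0,k2,k0,k0,k0],[k0,k0,k3,k0,k0,k0],[k0,k0,k1,k0,k1,k0],[k0,k0,k0,k2,k0,k0],[k0,k0,k0,k0,k2,k0],[k0,k0,k0,k0,
    k3,k0],[k0,k0,k0,k0,k0,k2],[k0,k0,k0,k0,k0,k3],[k0,k0,k0,k0,k0,k4]]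
    [.contra [z1],.contra [y1,z2,z0,z1],.ref k21 k5 [(z1,[z2,y2,z0,y1]),(z1,[z0,y1,z0,y1,z1])],.ref k41 k0 [(z1,[y1,
    z4,z3,z5,y3]),(z1,[z0,y1,y1,y1,z1]),(z1,[y1,z4,z1,z3,y1]),(z1,[z0,y1,z0,y1,z1])],.contra [y1,z1,z1,z1],
    .ref k40 k11 [(z1,[y2,z6,z4,z7,y4]),(z1,[z0,y1,z0,y1,z1]),(z1,[z1,y2,y2,y3,z2]),(z1,[z0,y1,y1,y1,z1])],
    .contra [y1,z1,z1,z1],.ref k39 k2 [(z1,[y1,z0,y1,y1,z1]),(z1,[y2,z2,z0,z1]),(z1,[z1,y1,z1]),(z1,[z1])],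
    .contra [z1],.ref k34 k7 [(z1,[z1,z0,y3]),(z1,[y1,z3,z3,z3]),(z1,[z1])],.ref k38 k7 [(z2,[z1,z0,y4]),(z2,[y1,z4,
    z4,z4]),(z2,[z1])],.ref k38 k7 [(z2,[z1,z0,y3]),(z2,[y1,z4,z3,z4]),(z2,[z1,z0,z1])],.ref k34 k7 [(z1,[z1,z0,y2]),
    (z1,[y1,z3,z2,z3]),(z1,[z1,z0,z1])],.ref k38 k7 [(z2,[z1,z0,y2]),(z2,[y1,z4,z2,z4]),(z2,[z1,z0,z2])],.contra [z1,
    z0,z1],.ref k34 k7 [(z1,[z1,z0,y1]),(z1,[y1,z3,z1,z3]),(z1,[z1,z0,z2])],.ref k38 k7 [(z2,[z1,z0,y1]),(z2,[y1,z4,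
    z1,z4]),(z2,[z1,z0,z3])],.contra [z1],.ref k21 k5 [(z1,[z1]),(z1,[z0,y1,z0,y1,z1])],.contra [y1,z1,z1,z1],
    .contra [y1,y2,z0,y2,z2],.contra [z1],.ref k21 k0 [(z1,[z1]),(z1,[z0,y1,y1,y1,z1])],.contra [z1,z0,z2],
    .ref k34 k7 [(z1,[z1]),(z1,[y1,z3,z0,z3]),(z1,[z1,z0,z3])],.ref k38 k7 [(z2,[z1]),(z2,[y1,z4,z0,z4]),(z2,[z1,z0,
    z4])]]),
    .geo true z1 k5 [(z0,z2),(z2,y1),(z0,z1),(z0,z1),(z2,y4),(z0,z1)] [(z1,[z1]),(z1,[z0,z1]),(z1,[z0,z0,z1]),(z1,[z0,z0,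
    z0,z1]),(z1,[y1,y1,y1,y1,z1]),(z1,
    [])] z0 (Int.ofNat (nat_lit 524288)) (.s (.s (.s (.s (.l k2) (.l k1)) (.l k1)) (.s (.l k1) (.l k1))) (.s (.l k1) (.l k1))) [⟨z0,
    z1,[[k0,k1],[k2,k3],[k4,k5]],.bnd k0⟩],
    .geo true z1 k5 [(y3,z2),(z2,y1),(z4,y2),(z2,y1),(y1,z1),(z0,z1)] [(z1,[z1]),(z1,[z0,z1]),(z1,[z0,z0,z1]),(z1,[z0,z0,
    z0,z1]),(z1,[y1,y1,y1,y1,z1]),(z1,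
    [])] (Int.ofNat (nat_lit 1572864)) (Int.ofNat (nat_lit 2097152)) (.s (.s (.l k1) (.l k1)) (.s (.l k1) (.s (.l k1) (.s (.l k1) (.l k2))))) [⟨z2,
    z1,[[k0,k1],[k2,k3],[k4,k5]],.bnd k1⟩],
    .geo true z1 k5 [(z0,z3),(z2,y1),(z0,z2),(z0,z1),(z2,y6),(z0,z1)] [(z1,[z1]),(z1,[z0,z1]),(z1,[z0,z0,z1]),(z1,[z0,z0,
    z0,z1]),(z1,[y1,y1,y1,y1,z1]),(z1,
    [])] z0 (Int.ofNat (nat_lit 349526)) (.s (.s (.s (.s (.s (.l k2) (.l k1)) (.l k1)) (.l k1)) (.s (.l k1) (.l k1))) (.s (.s (.l k1) (.l k1)) (.l k1))) [⟨z0,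
    z1,[[k0,k1],[k2,k3],[k4,k5]],.bnd k0⟩],
    .geo true z2 k5 [(y1,z2),(z4,y4),(y1,z2),(z1,z0),(z5,y2),(z0,z2)] [(z1,[z1]),(z1,[z0,z2]),(z1,[z0,z0,z1]),(z1,[z0,z0,
    z0,z1]),(z1,[y1,y2,y1,y1,z2]),(z1,
    [])] (Int.ofNat (nat_lit 524288)) (Int.ofNat (nat_lit 1048576)) (.s (.s (.s (.s (.l k2) (.l k1)) (.l k1)) (.l k1)) (.l k1)) [⟨z1,
    z2,[[k0,k2],[k1,k5],[k3,k4]],.bnd k0⟩],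
    .geo true z5 k5 [(y2,z5),(z10,y10),(y2,z5),(z2,z0),(z12,y5),(z0,z5)] [(z1,[z1]),(z1,[z0,z5]),(z1,[z0,z0,z1]),(z1,[z0,
    z0,z0,z1]),(z1,[y1,y5,y1,y1,z5]),(z1,
    [])] (Int.ofNat (nat_lit 419430)) (Int.ofNat (nat_lit 1048576)) (.s (.s (.s (.s (.s (.l k2) (.l k1)) (.l k1)) (.l k1)) (.l k1)) (.l k1)) [⟨z2,
    z5,[[k0,k5],[k1,k2],[k3,k4]],.bnd k0⟩]]

noncomputable def cU6_37_n0_4 : List XN :=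
  [.old (.lp [k80,k96,k178,k96,k178,(nat_lit 330)] [k130,k120,k117,k117,k76,k76,k117,k117,k76,k76,k0,k0] k0 [[],[],[],
    [k0,k0,k0,k0,k0,k0,k0,k0,k0,k54],[k0,k0,k0,k0,k0,k0,k0,k0,k0,k0,k54],[],[],[],[k0,k0,k54],[k0,k0,k0,k0,k0,k0,k0,
    k0,k0,k0,k0,k142],[k0,k0,k0,k0,k0,k0,k0,k0,k142],[k0,k0,k0,k0,k0,k54]] (nat_lit 480) k7
    [[(k0,k80),(k4,k80),(k8,(nat_lit 276))],[(k1,k80),(k5,k124),(k9,k124)],[(k2,k96),(k6,k96),(k10,(nat_lit 213))],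
    [(k3,k96),(k7,k96),(k11,(nat_lit 267))],[(k0,k124),(k8,k124),(k4,k178)],[(k1,k80),(k5,k178),(k9,k178)],[(k2,k96),
    (k6,k96),(k10,(nat_lit 267))],[(k3,k96),(k7,k96),(k11,(nat_lit 213))],[(k0,k124),(k4,k178),(k8,k178)],[(k5,k124),
    (k9,k178),(k1,(nat_lit 276))],[(k10,k188),(k6,(nat_lit 213)),(k2,(nat_lit 267))],[(k11,k188),(k3,(nat_lit 213)),
    (k7,(nat_lit 267))]]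
    [] k0
    [[k2,k0,k0,k0,k0,k0],[k3,k0,k0,k0,k0,k0],[k4,k0,k0,k0,k0,k0],[k5,k0,k0,k0,k0,k0],[k4,k0,k1,k0,k0,k0],[k3,k0,k1,k0,
    k0,k0],[k2,k0,k1,k0,k0,k0],[k2,k0,k2,k0,k0,k0],[k2,k0,k1,k0,k1,k0],[k1,k0,k1,k0,k0,k0],[k1,k0,k2,k0,k0,k0],[k1,k0,
    k1,k0,k1,k0],[k1,k0,k0,k0,k1,k0],[k0,k2,k0,k0,k0,k0],[k0,k3,k0,k0,k0,k0],[k0,k4,k0,k0,k0,k0],[k0,k3,k0,k1,k0,k0],
    [k0,k2,k0,k1,k0,k0],[k0,k2,k0,k2,k0,k0],[k0,k1,k0,k1,k0,k0],[k0,k1,k0,k2,k0,k0],[k0,k1,k0,k3,k0,k0],[k0,k0,k2,k0,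
    k0,k0],[k0,k0,k1,k0,k1,k0],[k0,k0,k0,k2,k0,k0],[k0,k0,k0,k3,k0,k0],[k0,k0,k0,k4,k0,k0],[k0,k0,k0,k0,k2,k0],[k0,k0,
    k0,k0,k0,k2]]
    [.contra [z1],.ref k21 k1 [(z1,[z1]),(z1,[z0,z0,z1])],.ref k46 k2 [(z2,[y1,z0,y4,y4,z4]),(z1,[z0,z0,z0,z1]),(z2,
    [y1,z4,z4]),(z2,[z1])],.ref k47 k2 [(z1,[y1,z0,y5,y5,z5]),(z1,[z0,z0,z0,z1]),(z1,[y1,z5,z5]),(z1,[z1])],
    .ref k43 k0 [(z2,[z1,z0,z4,z3,y4]),(z1,[z0,y1,y1,y1,z1]),(z2,[z1,z0,z2,z1,y2]),(z1,[z0,z1,z2,z1,y1])],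
    .ref k45 k0 [(z1,[z1,z0,z3,z2,y3]),(z1,[z0,y1,y1,y1,z1]),(z1,[z1,z0,z2,z1,y2]),(z1,[z0,z1,z2,z1,y1])],.contra [y1,
    z2,z2,z1],.ref k44 k1 [(z2,[y1,z4,z0,z2]),(z1,[z0,z0,z1]),(z1,[z1,y2,z0,y1]),(z1,[z0,y1,y1,y1,z1])],
    .ref k43 k0 [(z1,[z1,z0,z2,z1,y2]),(z1,[z0,y1,y1,y1,z1]),(z1,[z1,z0,z1,z0,y1]),(z1,[z0,z1,z2,z1,y1])],.contra [y1,
    z2,z2,z1],.ref k42 k11 [(z1,[z1,z0,z1,z0,y1]),(z1,[z0,z1,z2,z1,y1]),(z1,[y1,z0,y2,z0,z2])],.contra [y1,z1,z1,z1],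
    .contra [y1,z1,z1,z1],.contra [z1],.ref k34 k8 [(z1,[z1]),(z1,[y1,z3,z3,z3]),(z1,[z1,y3,y6,y3,z3])],
    .ref k38 k8 [(z2,[z1]),(z2,[y1,z4,z4,z4]),(z2,[z1,y4,y8,y4,z4])],.ref k38 k8 [(z2,[z1,z1,z2,z1,y1]),(z2,[y1,z3,z2,
    z3,z1]),(z2,[z1,y3,y6,y3,z3])],.ref k34 k8 [(z1,[z1,z1,z2,z1,y1]),(z1,[y1,z2,z1,z2,z1]),(z1,[z1,y2,y4,y2,z2])],
    .ref k38 k8 [(z2,[z1,z2,z4,z2,y2]),(z2,[y1,z2,z0,z2,z2]),(z2,[z1,y2,y4,y2,z2])],.contra [z1,z1,z2,z1,y1],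
    .ref k34 k8 [(z1,[z1,z2,z4,z2,y2]),(z1,[y1,z1,y1,z1,z2]),(z1,[z1,y1,y2,y1,z1])],.ref k38 k8 [(z2,[z1,z3,z6,z3,
    y3]),(z2,[y1,z1,y2,z1,z3]),(z2,[z1,y1,y2,y1,z1])],.contra [z1],.contra [y1,z1,z1,z1],.contra [z1,z2,z4,z2,y2],
    .ref k34 k8 [(z1,[z1,z3,z6,z3,y3]),(z1,[y1,z0,y3,z0,z3]),(z1,[z1])],.ref k38 k8 [(z2,[z1,z4,z8,z4,y4]),(z2,[y1,z0,
    y4,z0,z4]),(z2,[z1])],.contra [z1],.contra [y1,z0,z2]]),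
    .old (.lp [k106,k124,(nat_lit 354),k124,k126,k124] [k124,k124,k115,k115,k0,k0,k115,k115,k114,k114,k115,k115] k0 [[k0,
    k0,k0,k0,k0,k0,k4],[k0,k0,k0,k4],[k4],[k0,k0,k0,k0,k0,k108],[k0,k0,k108],[k0,k0,k0,k0,k0,k0,k0,k0,k0,k0,k0,k16],
    [],[k0,k4],[],[],[k0,k0,k0,k0,k16]] (nat_lit 480) k6
    [[(k0,k106),(k8,k116),(k4,(nat_lit 246))],[(k1,k106),(k9,k112),(k5,(nat_lit 234))],[(k2,k120),(k10,k124),(k6,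
    k128)],[(k3,k120),(k11,k124),(k7,(nat_lit 232))],[(k0,(nat_lit 234)),(k8,(nat_lit 240)),(k4,(nat_lit 246))],[(k9,
    (nat_lit 240)),(k1,(nat_lit 246)),(k5,(nat_lit 246))],[(k10,k108),(k6,k124),(k2,(nat_lit 232))],[(k7,k124),(k11,
    k124),(k3,k128)],[(k0,k112),(k8,k126),(k4,(nat_lit 240))],[(k1,k116),(k9,k126),(k5,(nat_lit 240))],[(k2,k124),(k6,
    k124),(k10,k124)],[(k7,k108),(k3,k124),(k11,k124)]]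
    [] k0
    [[k2,k0,k0,k0,k0,k0],[k3,k0,k0,k0,k0,k0],[k4,k0,k0,k0,k0,k0],[k3,k0,k0,k0,k1,k0],[k2,k0,k0,k0,k1,k0],[k2,k0,k0,k0,
    k2,k0],[k1,k0,k0,k0,k1,k0],[k1,k0,k0,k0,k2,k0],[k0,k2,k0,k0,k0,k0],[k0,k3,k0,k0,k0,k0],[k0,k2,k0,k0,k0,k1],[k0,k1,
    k0,k1,k0,k0],[k0,k1,k0,k1,k0,k1],[k0,k1,k0,k0,k0,k1],[k0,k1,k0,k0,k0,k2],[k0,k0,k0,k2,k0,k0],[k0,k0,k0,k3,k0,k0],
    [k0,k0,k0,k2,k0,k1],[k0,k0,k0,k1,k0,k1],[k0,k0,k0,k2,k0,k2],[k0,k0,k0,k1,k0,k2],[k0,k0,k0,k0,k2,k0],[k0,k0,k0,k0,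
    k3,k0],[k0,k0,k0,k0,k0,k2],[k0,k0,k0,k0,k0,k3]]
    [.contra [z1],.ref k34 k0 [(z1,[z1,y3]),(z1,[y1,z0,z0,y3,z3]),(z1,[z1])],.ref k35 k1 [(z1,[z0,z1,z0,z1]),(z1,[z0,
    z0,z1]),(z4,[y1,z0,y2,y4,z4])],.ref k35 k1 [(z1,[z0,z1,z0,z1]),(z1,[z0,z0,z1]),(z4,[y1,y1,y2,y4,z4])],
    .ref k34 k0 [(z1,[z1,y2]),(z1,[y1,y1,z0,y3,z3]),(z1,[z1,z1])],.ref k35 k1 [(z1,[z0,z1,z0,z1]),(z1,[z0,z0,z1]),(z4,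
    [y1,y2,y2,y4,z4])],.contra [z1,z1],.ref k34 k0 [(z1,[z1,y1]),(z1,[y1,y2,z0,y3,z3]),(z1,[z1,z2])],.contra [z1],
    .contra [z1,z0,y1],.contra [z1,z0,y1],.contra [y1,z0,z0,y1,z1],.contra [y1,z0,z0,y1,z1],.contra [y1,z0,z0,y1,z1],
    .ref k42 k7 [(z1,[z1,z1,z0,z1,y1]),(z1,[z0,z1]),(z1,[y1,y2,z0,y2,z2])],.contra [z1],.ref k21 k3 [(z1,[z1]),(z1,
    [z0,z0,z0,z1])],.ref k48 k6 [(z1,[y1,y1,z0,y2,z1]),(z1,[z0,z1,z0,z1]),(z1,[z1])],.contra [y1,z0,z0,y1,z1],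
    .ref k35 k1 [(z1,[z0,z1,z0,z1]),(z1,[z0,z0,z1]),(z2,[z1])],.ref k42 k10 [(z1,[z1,z0,z0,z1,y1]),(z1,[z0,y1]),(z1,
    [y1,z0,z0,y2,z2])],.contra [z1,z2],.ref k34 k0 [(z1,[z1]),(z1,[y1,y3,z0,y3,z3]),(z1,[z1,z3])],.contra [z1],
    .ref k28 k1 [(z1,[z0,z1]),(z1,[y1,y3,z0,y3,z3]),(z1,[z0,z0,z0,z1])]]),
    .old (.lp [k124,k120,(nat_lit 356),k130,k108,k120] [k116,k116,k118,k118,k0,k0,k113,k113,k124,k124,k118,k118] k0 [[],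
    [],[],[k0,k0,k0,k0,k0,k116],[k0,k0,k116],[k0,k0,k0,k0,k0,k0,k0,k16],[k0,k0,k0,k0,k16],[k0,k0,k0,k0,k0,k0,k0,k0,k0,
    k2],[k0,k0,k0,k0,k0,k0,k2]] (nat_lit 480) k6
    [[(k8,k116),(k0,k124),(k4,(nat_lit 240))],[(k9,k116),(k1,k124),(k5,(nat_lit 240))],[(k2,k120),(k10,k120),(k6,
    k125)],[(k3,k120),(k11,k120),(k7,(nat_lit 241))],[(k8,(nat_lit 232)),(k0,(nat_lit 240)),(k4,(nat_lit 240))],[(k1,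
    (nat_lit 240)),(k5,(nat_lit 240)),(k9,(nat_lit 248))],[(k6,k114),(k10,k125),(k2,(nat_lit 241))],[(k7,k114),(k3,
    k125),(k11,k127)],[(k8,k106),(k0,k116),(k4,(nat_lit 248))],[(k9,k106),(k1,k116),(k5,(nat_lit 232))],[(k2,k120),
    (k10,k120),(k6,k127)],[(k3,k120),(k11,k120),(k7,k125)]]
    [] k0
    [[k2,k0,k0,k0,k0,k0],[k3,k0,k0,k0,k0,k0],[k2,k0,k0,k0,k1,k0],[k2,k0,k0,k0,k2,k0],[k1,k0,k0,k0,k1,k0],[k1,k0,k0,k0,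
    k2,k0],[k1,k0,k0,k0,k3,k0],[k0,k2,k0,k0,k0,k0],[k0,k3,k0,k0,k0,k0],[k0,k2,k0,k0,k0,k1],[k0,k1,k0,k1,k0,k0],[k0,k1,
    k0,k1,k0,k1],[k0,k1,k0,k0,k0,k1],[k0,k1,k0,k0,k0,k2],[k0,k0,k0,k2,k0,k0],[k0,k0,k0,k3,k0,k0],[k0,k0,k0,k4,k0,k0],
    [k0,k0,k0,k2,k0,k1],[k0,k0,k0,k1,k0,k1],[k0,k0,k0,k1,k0,k2],[k0,k0,k0,k0,k2,k0],[k0,k0,k0,k0,k3,k0],[k0,k0,k0,k0,
    k4,k0],[k0,k0,k0,k0,k0,k2],[k0,k0,k0,k0,k0,k3]]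
    [.contra [z1],.ref k34 k0 [(z1,[z1,y3]),(z1,[y1,z3,z3]),(z1,[z1])],.ref k34 k0 [(z1,[z1,y2]),(z1,[y1,z2,z3]),(z1,
    [z1,z1])],.ref k38 k0 [(z2,[z1,y2]),(z2,[y1,z2,z4]),(z2,[z1,z2])],.contra [z1,z1],.ref k34 k0 [(z1,[z1,y1]),(z1,
    [y1,z1,z3]),(z1,[z1,z2])],.ref k38 k0 [(z2,[z1,y1]),(z2,[y1,z1,z4]),(z2,[z1,z3])],.contra [z1],.ref k21 k8 [(z1,
    [z1]),(z1,[z0,z0,y1,z1])],.ref k48 k3 [(z1,[y1,z1,z2,y1]),(z1,[z0,y1,y1,z1]),(z1,[z1])],.contra [y1,z1,z1],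
    .contra [y1,z1,z1],.contra [y1,z1,z1],.ref k42 k7 [(z1,[z1,z0,y1]),(z1,[z0,z1]),(z1,[y1,z0,z2])],.contra [z1],
    .ref k21 k3 [(z1,[z1]),(z1,[z0,y1,y1,z1])],.ref k49 k4 [(z1,[z0,y1]),(z2,[z1]),(z1,[z0,z0,y1,z1])],
    .ref k48 k6 [(z1,[y1,z1,z2,y1]),(z1,[z0,z0,y1,z1]),(z1,[z1])],.contra [y1,z1,z1],.ref k42 k10 [(z1,[z1,y1,y1]),
    (z1,[z0,y1]),(z1,[y1,z2,z2])],.contra [z1,z2],.ref k34 k0 [(z1,[z1]),(z1,[y1,z0,z3]),(z1,[z1,z3])],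
    .ref k38 k0 [(z2,[z1]),(z2,[y1,z0,z4]),(z2,[z1,z4])],.contra [z1],.ref k28 k1 [(z1,[z0,z1]),(z1,[y1,z0,z3]),(z1,
    [z0,y1,y1,z1])]]),
    .geo true z2 k5 [(y6,z8),(z4,y4),(z5,y4),(z4,y2),(z1,z0),(z0,z2)] [(z1,[z2]),(z1,[z0,z2]),(z1,[z0,z0,z1]),(z1,[z0,z0,
    z0,z2]),(z1,[y2,y2,y1,y2,z2]),(z1,
    [])] (Int.ofNat (nat_lit 786432)) (Int.ofNat (nat_lit 1048576)) (.s (.l k1) (.l k1)) []]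

/-- the nodes with numbers from 0 -/
noncomputable def cU6_37_n0 : List XN :=
  cU6_37_n0_0 ++ (cU6_37_n0_1 ++ (cU6_37_n0_2 ++ (cU6_37_n0_3 ++ cU6_37_n0_4)))

theorem cU6_37_k0 : allI (chkX 6 cU6_37_w ttU6 cU6_37_s (blkF [] cU6_37_D)) cU6_37_n0 0 = true := by
  decide +kernel

end Pool.Agent.Lib_MP_fa6e45
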