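import Pool.Agent.Lib_MP_fa6e45.CY6_5d

/-!
MP_fa6e45_co, stage 7: certificates (generated by a program).
-/

namespace Pool.Agent.Lib_MP_fa6e45

noncomputable def cU6_37_n1_0 : List XN :=
  [.lp [(nat_lit 28126),(nat_lit 57624),(nat_lit 48020),(nat_lit 55566),(nat_lit 53508),
    (nat_lit 82320)] [(nat_lit 27097),(nat_lit 27097),(nat_lit 12348),(nat_lit 12348),(nat_lit 17150),(nat_lit 17150),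
    (nat_lit 13377),(nat_lit 13377),(nat_lit 14406),(nat_lit 14406),k0,k0] k0 [[k0,k0,k0,k0,k0,k0,(nat_lit 1372)],[k0,
    k0,k0,(nat_lit 9604)],[(nat_lit 9604)],[k0,k0,k0,k0,k0,k0,k0,k0,k0,(nat_lit 23324)],[],[],[k0,k0,k0,k0,k0,k0,k0,
    k0,(nat_lit 30870)],[k0,(nat_lit 1372)],[k0,k0,(nat_lit 23324)],[k0,k0,k0,k0,k0,k0,k0,
    (nat_lit 30870)]] (nat_lit 164640) k7
    [[(k0,(nat_lit 28126)),(k4,(nat_lit 38073)),(k8,(nat_lit 40817))],[(k1,(nat_lit 28126)),(k9,(nat_lit 39445)),(k5,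
    (nat_lit 47677))],[(k2,(nat_lit 48020)),(k6,(nat_lit 57967)),(k10,(nat_lit 69972))],[(k3,(nat_lit 48020)),(k7,
    (nat_lit 56595)),(k11,(nat_lit 93296))],[(k8,(nat_lit 27440)),(k0,(nat_lit 47677)),(k4,(nat_lit 48020))],[(k1,
    (nat_lit 38073)),(k5,(nat_lit 48020)),(k9,(nat_lit 50764))],[(k6,(nat_lit 55566)),(k2,(nat_lit 56595)),(k10,
    (nat_lit 68943))],[(k11,(nat_lit 38073)),(k7,(nat_lit 55566)),(k3,(nat_lit 57967))],[(k0,(nat_lit 39445)),(k4,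
    (nat_lit 50764)),(k8,(nat_lit 84378))],[(k5,(nat_lit 27440)),(k1,(nat_lit 40817)),(k9,(nat_lit 84378))],[(k6,
    (nat_lit 38073)),(k10,(nat_lit 82320)),(k2,(nat_lit 93296))],[(k7,(nat_lit 68943)),(k3,(nat_lit 69972)),(k11,
    (nat_lit 82320))]]
    [[k0,k0,k0,k4,k8],[k0,k0,k0,k8,k4],[k0,k0,k4,k0,k8],[k0,k0,k4,k4],[k0,k0,k4,k8,k0],[k0,k0,k8,k0,k4],[k0,k0,k8,k4,
    k0],[k0,k4,k0,k0,k8],[k0,k4,k0,k4],[k0,k4,k0,k8,k0],[k0,k4,k4,k0],[k0,k4,k8,k0,k0],[k0,k8,k0,k0,k4],[k0,k8,k0,k4,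
    k0],[k0,k8,k4,k0,k0],[k0,k8,k8,k8],[k1,k1,k1,k5,k9],[k1,k1,k1,k9,k5],[k1,k1,k5,k1,k9],[k1,k1,k5,k5],[k1,k1,k5,k9,
    k1],[k1,k1,k9,k1,k5],[k1,k1,k9,k5,k1],[k1,k5,k1,k1,k9],[k1,k5,k1,k5],[k1,k5,k1,k9,k1],[k1,k5,k5,k1],[k1,k5,k9,k1,
    k1],[k1,k9,k1,k1,k5],[k1,k9,k1,k5,k1],[k1,k9,k5,k1,k1],[k1,k9,k9,k9],[k2,k2,k6],[k2,k6,k2],[k2,k6,k6,k6],[k2,k10],
    [k3,k3,k7],[k3,k7,k3],[k3,k7,k7,k7],[k3,k11],[k4,k8,k8],[k5,k9,k9],[k6,k6,k6,k6,k6],[k6,k6,k10],[k6,k10,k6],[k7,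
    k7,k7,k7,k7],[k7,k7,k11],[k7,k11,k7]]
    ⟨[[[k0,k0,k0,k4,k8],[k0,k0,k0,k8,k4],[k0,k0,k4,k0,k8],[k0,k0,k4,k4],[k0,k0,k4,k8,k0],[k0,k0,k8,k0,k4],[k0,k0,k8,
    k4,k0],[k0,k4,k0,k0,k8],[k0,k4,k0,k4],[k0,k4,k0,k8,k0],[k0,k4,k4,k0],[k0,k4,k8,k0,k0]],
    [[k0,k8,k0,k0,k4],[k0,k8,k0,k4,k0],[k0,k8,k4,k0,k0],[k0,k8,k8,k8],[k1,k1,k1,k5,k9],[k1,k1,k1,k9,k5],[k1,k1,k5,k1,
    k9],[k1,k1,k5,k5],[k1,k1,k5,k9,k1],[k1,k1,k9,k1,k5],[k1,k1,k9,k5,k1],[k1,k5,k1,k1,k9]],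
    [[k1,k5,k1,k5],[k1,k5,k1,k9,k1],[k1,k5,k5,k1],[k1,k5,k9,k1,k1],[k1,k9,k1,k1,k5],[k1,k9,k1,k5,k1],[k1,k9,k5,k1,k1],
    [k1,k9,k9,k9],[k2,k2,k6],[k2,k6,k2],[k2,k6,k6,k6],[k2,k10]],
    [[k3,k3,k7],[k3,k7,k3],[k3,k7,k7,k7],[k3,k11],[k4,k0,k0,k0,k8],[k4,k0,k0,k4],[k4,k0,k0,k8,k0],[k4,k0,k4,k0],[k4,
    k0,k8,k0,k0],[k4,k4,k0,k0],[k4,k8,k0,k0,k0],[k4,k8,k8]],
    [[k5,k1,k1,k1,k9],[k5,k1,k1,k5],[k5,k1,k1,k9,k1],[k5,k1,k5,k1],[k5,k1,k9,k1,k1],[k5,k5,k1,k1],[k5,k9,k1,k1,k1],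
    [k5,k9,k9],[k6,k2,k2],[k6,k2,k6,k6],[k6,k6,k2,k6],[k6,k6,k6,k2]],
    [[k6,k6,k6,k6,k6],[k6,k6,k10],[k6,k10,k6],[k7,k3,k3],[k7,k3,k7,k7],[k7,k7,k3,k7],[k7,k7,k7,k3],[k7,k7,k7,k7,k7],
    [k7,k7,k11],[k7,k11,k7],[k8,k0,k0,k0,k4],[k8,k0,k0,k4,k0]],
    [[k8,k0,k4,k0,k0],[k8,k0,k8,k8],[k8,k4,k0,k0,k0],[k8,k4,k8],[k8,k8,k0,k8],[k8,k8,k4],[k8,k8,k8,k0],[k9,k1,k1,k1,
    k5],[k9,k1,k1,k5,k1],[k9,k1,k5,k1,k1],[k9,k1,k9,k9],[k9,k5,k1,k1,k1]],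
    [[k9,k5,k9],[k9,k9,k1,k9],[k9,k9,k5],[k9,k9,k9,k1],[k10,k2],[k10,k6,k6],[k11,k3],[k11,k7,k7]]],
    [[k4,k6,k9,k10,k11,k13,k14,k42,k43,k44,k45,k46],
    [k71,k72,k74,k78,k20,k22,k25,k26,k27,k29,k30,k50],
    [k51,k52,k53,k54,k80,k81,k83,k87,k33,k56,k59,k88],
    [k37,k63,k66,k90,k1,k3,k5,k8,k12,k41,k70,k77],
    [k17,k19,k21,k24,k28,k49,k79,k86,k32,k34,k57,k58],
    [k60,k62,k89,k36,k38,k64,k65,k67,k69,k91,k0,k2],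
    [k7,k15,k40,k47,k73,k75,k76,k16,k18,k23,k31,k48],
    [k55,k82,k84,k85,k35,k61,k39,k68]],
    [[k70,k40,k71,k41,k0,k42,k1,k72,k43,k2,k3,k4],
    [k44,k5,k6,k73,k79,k48,k80,k49,k16,k50,k17,k81],
    [k51,k18,k19,k20,k52,k21,k22,k82,k56,k32,k57,k88],
    [k63,k36,k64,k90,k74,k45,k7,k8,k9,k10,k11,k75],
    [k83,k53,k23,k24,k25,k26,k27,k84,k33,k58,k59,k34],
    [k60,k89,k61,k37,k65,k66,k38,k67,k91,k68,k46,k12],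
    [k13,k76,k14,k77,k78,k47,k15,k54,k28,k29,k85,k30],
    [k86,k87,k55,k31,k35,k62,k39,k69]],
    [[[k88],[k88],[k88],[k88],[k88],[k88],[k88],[k89],[k89],[k89],[k89],[k89]],
    [[],[],[],[],[k39],[k39],[k39],[k39],[k39],[k39],[k39],[k37]],
    [[k37],[k37],[k37],[k37],[k36,k38],[k36,k38],[k36,k38],[k36,k38],[k1,k3,k5,k8,k12],[k0,k2,k7,k15],[k0,k2,k7,k15],
    [k4,k6,k9,k10,k11,k13,k14]],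
    [[k50,k51,k52,k53,k54],[k49],[k49],[k48,k55],[k33],[k33],[k33],[k33],[k33],[k32,k34],[k35],[k35]],
    [[k68],[k68],[k68],[k68],[k68],[k63,k66],[k64,k65,k67,k69],[k64,k65,k67,k69],[k41],[k41],[k40,k47],[k40,k47]],
    [[k40,k47],[k40,k47],[k42,k43,k44,k45,k46],[k80,k81,k83,k87],[k80,k81,k83,k87],[k79,k86],[k79,k86],[k79,k86],[k79,
    k86],[k82,k84,k85],[k56,k59],[k56,k59]],
    [[k56,k59],[k56,k59],[k57,k58,k60,k62],[k57,k58,k60,k62],[k61],[k61],[k61],[],[],[],[],[k90]],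
    [[k90],[k91],[k91],[k91],[k70,k77],[k73,k75,k76],[k20,k22,k25,k26,k27,k29,k30],[k17,k19,k21,k24,k28]]],
    k92⟩ k3 k2 (nat_lit 686)
    [[k2,k0,k0,k0,k0,k0],[k3,k0,k0,k0,k0,k0],[k4,k0,k0,k0,k0,k0],[k5,k0,k0,k0,k0,k0],[k3,k0,k1,k0,k0,k0],[k3,k0,k0,k0,
    k1,k0],[k2,k0,k1,k0,k0,k0],[k2,k0,k1,k0,k1,k0],[k2,k0,k0,k0,k1,k0],[k1,k0,k1,k0,k0,k0],[k1,k0,k2,k0,k0,k0],[k1,k0,
    k2,k0,k1,k0],[k1,k0,k1,k0,k1,k0],[k1,k0,k0,k0,k1,k0],[k2,k0,k0,k0,k2,k0],[k1,k0,k1,k0,k2,k0],[k0,k2,k0,k0,k0,k0],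
    [k0,k3,k0,k0,k0,k0],[k0,k1,k0,k1,k0,k0],[k0,k0,k2,k0,k0,k0],[k0,k0,k3,k0,k0,k0],[k0,k0,k2,k0,k1,k0],[k0,k0,k1,k0,
    k1,k0],[k0,k0,k2,k0,k2,k0],[k0,k0,k0,k2,k0,k0],[k0,k0,k0,k1,k0,k1]]
    [.contra [z1],.contra [z4,y1],.contra [z2,y1],.contra [z4,y3],.contra [z20,y9,z0,y4],.contra [z5,y2,z0,z0,z0,y1],
    .contra [z5,y1,z0,y1],.contra [z20,y7,z0,y4,z0,y4],.contra [z20,y3,z0,z0,z0,y4],.contra [z20,z1,z0,y4],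
    .contra [z20,y3,z0,y8],.contra [y10,z3,z0,z4,z0,z2],.contra [z10,y1,z0,y2,z0,y2],.contra [z10,z1,z0,z0,z0,y2],
    .contra [z10,y3,z0,z0,z0,y4],.contra [y20,z5,z0,z4,z0,z8],.contra [z10,z1,y4],.contra [y10,z1,z6],.contra [z5,z1,
    y1,z0,y1],.contra [z10,z1,z0,y4],.contra [y10,z1,z0,z6],.contra [y20,z1,z0,z8,z0,z4],.contra [z20,z3,z0,y4,z0,y4],
    .contra [y5,z1,z0,z2,z0,z2],.contra [z10,z3,z0,z0,y4],.contra [z10,z3,z2,z2,z0,z2,y10]],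
    .geo true z5 k4 [(y2,z5),(z4,z0),(z10,y10),(z2,z0),(z0,z5),(z6,z0)] [(z1,[z1]),(z1,[z0,z1]),(z1,[z0,z0,z5]),(z1,[z0,
    z0,z0,z1]),(z1,[]),(z1,[y1,y1,y5,y1,
    z5])] (Int.ofNat (nat_lit 419430)) (Int.ofNat (nat_lit 1048576)) (.s (.s (.l k1) (.l k2)) (.l k1)) [⟨z3,z5,[[k0,
    k3],[k1,k5],[k2,k4]],.child (.ref k52 k1 [(z1,[z1,z1]),(z1,[z0,z0,z1]),(z1,[y2,z0,z0,z5]),(z1,[z0,z0,z0,z0,z1]),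
    (z1,[z1])])⟩],
    .old (.lp [(nat_lit 12446),(nat_lit 21336),(nat_lit 27940),(nat_lit 13208),(nat_lit 18034),
    (nat_lit 28702)] [(nat_lit 10288),(nat_lit 10288),(nat_lit 5843),(nat_lit 5843),(nat_lit 2541),(nat_lit 2541),
    (nat_lit 9907),(nat_lit 9907),(nat_lit 7494),(nat_lit 7494),(nat_lit 4320),k0] k0 [[k0,k0,(nat_lit 7366)],[k0,k0,
    k0,k0,k0,k0,k0,k0,k0,k0,k0,(nat_lit 2794)],[k0,k0,k0,k0,k0,k0,k0,k0,(nat_lit 14986)],[k0,(nat_lit 7366)],[],[],[],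
    [k0,k0,k0,k0,k0,k0,k0,k0,k0,(nat_lit 5842)],[k0,k0,k0,k0,k0,k0,(nat_lit 5842)],[k0,k0,k0,(nat_lit 14986)],
    [(nat_lit 2794)]] (nat_lit 60960) k6
    [[(k0,(nat_lit 15240)),(k8,(nat_lit 15240)),(k4,(nat_lit 20193))],[(k5,(nat_lit 12827)),(k1,(nat_lit 15240)),(k9,
    (nat_lit 15240))],[(k6,(nat_lit 17272)),(k10,(nat_lit 20065)),(k2,(nat_lit 28702))],[(k11,(nat_lit 12193)),(k7,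
    (nat_lit 17272)),(k3,(nat_lit 28702))],[(k0,(nat_lit 12827)),(k4,(nat_lit 27940)),(k8,(nat_lit 37973))],[(k1,
    (nat_lit 20193)),(k9,(nat_lit 22987)),(k5,(nat_lit 27940))],[(k6,(nat_lit 13208)),(k2,(nat_lit 17272)),(k10,
    (nat_lit 18795))],[(k7,(nat_lit 13208)),(k3,(nat_lit 17272)),(k11,(nat_lit 28957))],[(k8,(nat_lit 12192)),(k0,
    (nat_lit 15240)),(k4,(nat_lit 22987))],[(k9,(nat_lit 12192)),(k1,(nat_lit 15240)),(k5,(nat_lit 37973))],[(k2,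
    (nat_lit 12193)),(k10,(nat_lit 28702)),(k6,(nat_lit 28957))],[(k7,(nat_lit 18795)),(k3,(nat_lit 20065)),(k11,
    (nat_lit 28702))]]
    [] k0
    [[k2,k0,k0,k0,k0,k0],[k3,k0,k0,k0,k0,k0],[k2,k0,k1,k0,k0,k0],[k2,k0,k0,k0,k1,k0],[k2,k0,k0,k0,k2,k0],[k1,k0,k1,k0,
    k0,k0],[k1,k0,k0,k0,k1,k0],[k1,k0,k1,k0,k1,k0],[k1,k0,k0,k0,k2,k0],[k1,k0,k0,k0,k3,k0],[k0,k2,k0,k0,k0,k0],[k0,k1,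
    k0,k1,k0,k0],[k0,k1,k0,k2,k0,k0],[k0,k1,k0,k1,k0,k1],[k0,k1,k0,k0,k0,k1],[k0,k0,k2,k0,k0,k0],[k0,k0,k0,k2,k0,k0],
    [k0,k0,k0,k3,k0,k0],[k0,k0,k0,k4,k0,k0],[k0,k0,k0,k1,k0,k1],[k0,k0,k0,k0,k2,k0],[k0,k0,k0,k0,k3,k0],[k0,k0,k0,k0,
    k4,k0],[k0,k0,k0,k0,k0,k2]]
    [.contra [z1],.ref k50 k5 [(z2,[y1,z1,z0,z2]),(z1,[z0,z0,z0,y1,z1])],.ref k50 k5 [(z1,[y1,z1,z0,z2]),(z1,[z0,z0,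
    z0,y1,z1])],.ref k53 k2 [(z1,[y2,y1,y5,y5,z5]),(z1,[y1,z2,z0,z5]),(z1,[z0,z0,z1]),(z1,[z2,z1])],.contra [y1,z2,z0,
    z6],.contra [y1,z1,z0,z2],.ref k50 k5 [(z1,[y1,z0,z0,z1]),(z1,[z0,z0,z0,y1,z1])],.contra [y1,z1,z0,z3],
    .contra [y1,z1,z0,z4],.contra [z1,z2,z0,z1],.contra [z1],.contra [y1,z0,y1,y2,z2],.contra [z1,z2,z1,z6,y2],
    .contra [z1,z1,z0,z3,y1],.contra [y1,z0,z0,y1,z1],.contra [z1],.contra [z1],.ref k21 k3 [(z1,[z1]),(z1,[z0,z0,z0,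
    z1])],.ref k51 k6 [(z2,[y1,y4,y2,y12,z4]),(z1,[z0,z1,z0,z2]),(z2,[z1,z4,z4,z12,y4]),(z1,[z0,z0,z0,z1])],
    .contra [y1,z0,z0,y1,z1],.contra [y1,z0,z0,z2],.contra [z1,z2,z0,z1],.contra [z1,z3,z0,z2],.contra [z1]]),
    .geo true z5 k5 [(z2,z0),(z5,y5),(z4,z0),(z3,z0),(z6,z0),(z0,z5)] [(z1,[z1]),(z1,[z0,z5]),(z1,[z0,z0,z1]),(z1,[z0,z0,
    z0,z1]),(z1,[y1,y5,y1,y1,z5]),(z1,[])] z0 (Int.ofNat (nat_lit 1048576)) (.s (.l k1) (.l k1)) [],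
    .old (.lp [k28,k40,k48,k46,k36,k40] [k10,k10,k4,k4,k0,k0,k1,k1,k6,k6,k8,k0] k0 [[],[],[k0,k0,k0,k0,k0,k0,k0,k0,k20],
    [k0,k0,k0,k0,k0,k4],[k0,k0,k4],[k0,k0,k0,k0,k0,k0,k0,k16],[k0,k0,k0,k0,k16],[k0,k0,k0,k0,k0,k0,k0,k0,k0,k4],[k0,
    k0,k0,k0,k0,k0,k4],[k0,k0,k0,k20]] k120 k6
    [[(k0,k28),(k8,k32),(k4,k38)],[(k1,k28),(k9,k32),(k5,k38)],[(k10,k36),(k2,k40),(k6,k43)],[(k11,k24),(k3,k40),(k7,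
    k47)],[(k0,k38),(k4,k44),(k8,k62)],[(k1,k38),(k5,k44),(k9,k58)],[(k6,k30),(k10,k39),(k2,k47)],[(k7,k30),(k3,k43),
    (k11,k51)],[(k0,k32),(k8,k32),(k4,k58)],[(k1,k32),(k9,k32),(k5,k62)],[(k2,k24),(k10,k40),(k6,k51)],[(k3,k36),(k7,
    k39),(k11,k40)]]
    [] k0
    [[k2,k0,k0,k0,k0,k0],[k3,k0,k0,k0,k0,k0],[k4,k0,k0,k0,k0,k0],[k2,k0,k1,k0,k0,k0],[k2,k0,k0,k0,k1,k0],[k1,k0,k1,k0,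
    k0,k0],[k1,k0,k0,k0,k1,k0],[k1,k0,k0,k0,k2,k0],[k0,k2,k0,k0,k0,k0],[k0,k2,k0,k0,k0,k1],[k0,k1,k0,k1,k0,k0],[k0,k1,
    k0,k1,k0,k1],[k0,k1,k0,k0,k0,k1],[k0,k1,k0,k0,k0,k2],[k0,k0,k2,k0,k0,k0],[k0,k0,k0,k2,k0,k0],[k0,k0,k0,k3,k0,k0],
    [k0,k0,k0,k1,k0,k1],[k0,k0,k0,k0,k2,k0],[k0,k0,k0,k0,k3,k0],[k0,k0,k0,k0,k0,k2]]
    [.contra [z1],.ref k50 k5 [(z2,[y1,z1,z0,z2]),(z1,[z0,z0,z0,y1,z1])],.ref k35 k5 [(z1,[z0,z0,z0,z1]),(z2,[y1,z0,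
    y4,y4,z4]),(z1,[z0,z0,z1])],.ref k50 k5 [(z1,[y1,z1,z0,z2]),(z1,[z0,z0,z0,y1,z1])],.ref k55 k1 [(z1,[z2,z1]),(z1,
    [z0,z0,z1]),(z1,[y1,z2,z0,z5]),(z1,[y2,y1,y5,y5,z5])],.contra [y1,z1,z0,z2],.ref k50 k5 [(z1,[y1,z0,z0,z1]),(z1,
    [z0,z0,z0,y1,z1])],.contra [y1,z1,z0,z4],.contra [z1],.contra [z1,z0,y1],.contra [y1,z0,z0,y1,z1],.contra [z1,z1,
    z0,z3,y1],.contra [y2,z1,z2,z2],.contra [z1,z0,y1],.contra [z1],.contra [z1,z2,z2,z6,y2],.ref k21 k3 [(z1,[z1]),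
    (z1,[z0,z0,z0,z1])],.contra [y1,z0,z0,y1,z1],.contra [y1,z0,z0,z2],.contra [z1,z2,z0,z1],.contra [z1]]),
    .geo true z5 k4 [(y2,z5),(z6,z0),(z10,y10),(z2,z0),(z0,z5),(z4,z0)] [(z1,[z1]),(z1,[z0,z1]),(z1,[z0,z0,z5]),(z1,[z0,
    z0,z0,z1]),(z1,[]),(z1,[y1,y1,y5,y1,
    z5])] (Int.ofNat (nat_lit 419430)) (Int.ofNat (nat_lit 1048576)) (.s (.s (.l k1) (.l k1)) (.s (.l k1) (.l k1))) [],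
    .geo true z15 k5 [(z6,z0),(z10,z0),(z12,z0),(z14,y15),(z18,z0),(z0,z15)] [(z1,[z3]),(z1,[z0,z5]),(z1,[z0,z0,z3]),(z1,
    [z0,z0,z0,z1]),(z1,[y3,y5,y3,y1,z15]),(z1,
    [])] z0 (Int.ofNat (nat_lit 978671)) (.s (.l k1) (.s (.l k1) (.l k1))) [],
    .geo true z5 k4 [(y2,z10),(z6,z0),(z10,y15),(z2,z0),(z0,z5),(z4,z0)] [(z1,[z1]),(z1,[z0,z1]),(z1,[z0,z0,z5]),(z1,[z0,
    z0,z0,z1]),(z1,[]),(z1,[y1,y1,y5,y1,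
    z5])] (Int.ofNat (nat_lit 209715)) (Int.ofNat (nat_lit 699051)) (.s (.s (.l k1) (.l k1)) (.s (.l k1) (.l k1))) [],
    .old (.lp [k166,k120,k190,k174,k148,k160] [k41,k41,k64,k64,k29,k29,k37,k37,k50,k50,k88,k0] k0 [[],[],[k0,k0,k0,k0,k0,
    k0,k0,k0,k88],[k0,k0,k0,k0,k0,k66],[k0,k0,k66],[k0,k0,k0,k0,k0,k0,k0,k54],[k0,k0,k0,k0,k54],[k0,k0,k0,k0,k0,k0,k0,
    k0,k0,k26],[k0,k0,k0,k0,k0,k0,k26],[k0,k0,k0,k88]] (nat_lit 480) k6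
    [[(k8,k157),(k0,k166),(k4,k178)],[(k9,k157),(k1,k166),(k5,k178)],[(k10,k96),(k2,k120),(k6,k147)],[(k11,k96),(k3,
    k120),(k7,(nat_lit 213))],[(k4,k124),(k0,k178),(k8,(nat_lit 257))],[(k5,k124),(k1,k178),(k9,(nat_lit 223))],[(k6,
    k120),(k10,k123),(k2,(nat_lit 213))],[(k7,k120),(k3,k147),(k11,(nat_lit 237))],[(k8,k122),(k0,k157),(k4,
    (nat_lit 223))],[(k9,k122),(k1,k157),(k5,(nat_lit 257))],[(k2,k96),(k10,k160),(k6,(nat_lit 237))],[(k3,k96),(k7,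
    k123),(k11,k160)]]
    [] k0
    [[k2,k0,k0,k0,k0,k0],[k1,k0,k1,k0,k0,k0],[k1,k0,k0,k0,k1,k0],[k1,k0,k0,k0,k2,k0],[k0,k2,k0,k0,k0,k0],[k0,k3,k0,k0,
    k0,k0],[k0,k3,k0,k0,k0,k1],[k0,k2,k0,k0,k0,k1],[k0,k2,k0,k0,k0,k2],[k0,k1,k0,k1,k0,k0],[k0,k1,k0,k1,k0,k1],[k0,k1,
    k0,k0,k0,k1],[k0,k1,k0,k0,k0,k2],[k0,k0,k2,k0,k0,k0],[k0,k0,k3,k0,k0,k0],[k0,k0,k0,k2,k0,k0],[k0,k0,k0,k3,k0,k0],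
    [k0,k0,k0,k1,k0,k1],[k0,k0,k0,k0,k2,k0],[k0,k0,k0,k0,k3,k0],[k0,k0,k0,k0,k0,k2]]
    [.contra [z1],.contra [z15,z1,z0,y3],.contra [z15,z2,z3,z3,y15],.contra [y15,z1,y6,y6,z30],.contra [z1],
    .ref k58 k1 [(z1,[z0,z1]),(z1,[z1]),(z1,[z0,z0,z0,z1]),(z1,[y5,z0,z3])],.ref k59 k3 [(z1,[y5,z0,z1]),(z1,[z0,y1,
    y1,y1,z5]),(z1,[z1]),(z1,[z0,z1])],.ref k57 k3 [(z1,[y5,z0,z1]),(z1,[z0,y1,y1,y1,z5]),(z1,[z1]),(z1,[z0,z1])],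
    .ref k56 k1 [(z5,[z0,z3,z2,z2,y10]),(z2,[z1]),(z5,[z0,y1,y1,z0,z5])],.contra [y5,z1,z1],.contra [z15,z2,y3],
    .contra [y5,z1,z1],.ref k54 k1 [(z5,[z0,z3,z2,z2,y10]),(z1,[z1]),(z5,[z0,y1,y1,z0,z5])],.contra [z15,z2,z0,y6],
    .contra [y15,z2,z0,z9],.contra [z1],.ref k21 k3 [(z1,[z1]),(z5,[z0,y1,y1,z0,z5])],.contra [y5,z1,z1],.contra [y15,
    y4,y6,y6,z30],.contra [y15,y1,y9,y9,z45],.contra [z1]]),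
    .old (.lp [(nat_lit 4270),(nat_lit 5740),(nat_lit 8400),(nat_lit 5600),(nat_lit 3850),(nat_lit 5600)] [(nat_lit 3361),
    (nat_lit 3361),(nat_lit 2626),(nat_lit 2626),(nat_lit 2592),k0,(nat_lit 2696),(nat_lit 2696),(nat_lit 3571),
    (nat_lit 3571),(nat_lit 4936),(nat_lit 456)] k0 [[k0,k0,(nat_lit 4270)],[k0,k0,k0,k0,k0,k0,k0,k140],[k0,k0,k0,k0,
    k0,k0,k0,k0,(nat_lit 4550)],[k0,(nat_lit 4270)],[],[],[k140],[],[],[k0,k0,k0,(nat_lit 4550)]] (nat_lit 16800) k6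
    [[(k8,(nat_lit 4060)),(k0,(nat_lit 4270)),(k4,(nat_lit 5039))],[(k5,(nat_lit 3361)),(k9,(nat_lit 4200)),(k1,
    (nat_lit 4270))],[(k10,(nat_lit 3430)),(k6,(nat_lit 5530)),(k2,(nat_lit 10010))],[(k11,(nat_lit 3360)),(k7,
    (nat_lit 5670)),(k3,(nat_lit 10010))],[(k0,(nat_lit 3361)),(k4,(nat_lit 8400)),(k8,(nat_lit 11971))],[(k9,
    (nat_lit 4829)),(k1,(nat_lit 5039)),(k5,(nat_lit 8400))],[(k10,(nat_lit 3360)),(k6,(nat_lit 5600)),(k2,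
    (nat_lit 5670))],[(k3,(nat_lit 5530)),(k7,(nat_lit 5600)),(k11,(nat_lit 7840))],[(k8,(nat_lit 3850)),(k0,
    (nat_lit 4200)),(k4,(nat_lit 4829))],[(k9,(nat_lit 3850)),(k1,(nat_lit 4060)),(k5,(nat_lit 11971))],[(k2,
    (nat_lit 3360)),(k10,(nat_lit 5600)),(k6,(nat_lit 7840))],[(k7,(nat_lit 3360)),(k3,(nat_lit 3430)),(k11,
    (nat_lit 5600))]]
    [] k0
    [[k2,k0,k0,k0,k0,k0],[k3,k0,k0,k0,k0,k0],[k2,k0,k1,k0,k0,k0],[k2,k0,k0,k0,k1,k0],[k2,k0,k1,k0,k1,k0],[k2,k0,k0,k0,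
    k2,k0],[k1,k0,k1,k0,k0,k0],[k1,k0,k0,k0,k1,k0],[k1,k0,k1,k0,k1,k0],[k1,k0,k0,k0,k2,k0],[k1,k0,k1,k0,k2,k0],[k1,k0,
    k0,k0,k3,k0],[k0,k1,k0,k1,k0,k0],[k0,k1,k0,k1,k0,k1],[k0,k1,k0,k0,k0,k1],[k0,k2,k0,k0,k0,k2],[k0,k1,k0,k0,k0,k2],
    [k0,k0,k0,k2,k0,k0],[k0,k0,k0,k1,k0,k1],[k0,k0,k0,k0,k2,k0],[k0,k0,k0,k0,k3,k0],[k0,k0,k0,k0,k4,k0],[k0,k0,k0,k0,
    k0,k2]]
    [.contra [z1],.ref k50 k5 [(z2,[y1,y1,y2,z2]),(z1,[z0,z1,z1])],.ref k50 k5 [(z1,[y1,y1,y2,z2]),(z1,[z0,z1,z1])],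
    .ref k60 k1 [(z1,[z2,z1]),(z1,[y2,z4,z5]),(z1,[y1,y3,y5,z5])],.contra [y1,y3,y5,z5],.contra [y1,y4,y6,z6],
    .contra [y1,y1,y2,z2],.ref k50 k5 [(z1,[y1,y1,y1,z1]),(z1,[z0,z1,z1])],.contra [y1,y2,y3,z3],.contra [y1,y3,y4,
    z4],.contra [z1,z1],.contra [z1,z1,y1,z1],.contra [y1,z1,z1],.contra [z1,y2,y3,z2],.contra [y1,z1,z1],
    .ref k56 k1 [(z1,[z0,z1]),(z2,[z1]),(z1,[z0,y1,y1,z1])],.ref k54 k1 [(z1,[z0,z1]),(z1,[z1]),(z1,[z0,y1,y1,z1])],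
    .contra [z1],.contra [y1,z1,z1],.contra [y1,y2,y2,z2],.contra [z1,z1,y1,z1],.contra [z1,z1,y2,z2],.contra [z1]]),
    .geo true z1 k5 [(z0,z2),(z2,y2),(z0,z1),(z0,z2),(z2,y4),(z0,z1)] [(z1,[z1]),(z1,[z0,z1]),(z1,[z0,z0,z1]),(z1,[z0,z0,
    z0,z1]),(z1,[y1,y1,y1,y1,z1]),(z1,
    [])] z0 (Int.ofNat (nat_lit 524288)) (.s (.s (.s (.s (.l k2) (.l k1)) (.l k1)) (.s (.l k1) (.l k1))) (.s (.s (.l k1) (.l k1)) (.l k1))) [⟨z0,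
    z1,[[k0,k1],[k2,k3],[k4,k5]],.bnd k0⟩],
    .geo true z3 k4 [(y1,z3),(z2,z0),(z6,y6),(z1,z0),(z0,z3),(z4,z0)] [(z1,[z1]),(z1,[z0,z1]),(z1,[z0,z0,z3]),(z1,[z0,z0,
    z0,z1]),(z1,[]),(z1,[y1,y1,y3,y1,
    z3])] (Int.ofNat (nat_lit 349525)) (Int.ofNat (nat_lit 1048576)) (.s (.s (.s (.l k1) (.l k1)) (.s (.l k1) (.l k1))) (.l k1)) []]

noncomputable def cU6_37_n1_1 : List XN :=
  [.geo true z7 k4 [(y2,z7),(z4,z0),(z14,y14),(z2,z0),(z0,z7),(z10,z0)] [(z1,[z1]),(z1,[z0,z1]),(z1,[z0,z0,z7]),(z1,[z0,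
    z0,z0,z1]),(z1,[]),(z1,[y1,y1,y7,y1,
    z7])] (Int.ofNat (nat_lit 299593)) (Int.ofNat (nat_lit 1048576)) (.s (.s (.s (.l k1) (.l k1)) (.s (.l k1) (.l k1))) (.s (.l k1) (.l k1))) [],
    .geo true z4 k4 [(y1,z4),(z2,z0),(z8,y8),(z1,z0),(z0,z4),(z6,z0)] [(z1,[z1]),(z1,[z0,z2]),(z1,[z0,z0,z4]),(z1,[z0,z0,
    z0,z1]),(z1,[]),(z1,[y1,y2,y4,y1,
    z4])] (Int.ofNat (nat_lit 262144)) (Int.ofNat (nat_lit 1048576)) (.s (.s (.s (.l k1) (.l k1)) (.s (.l k1) (.l k1))) (.s (.l k1) (.l k1))) []]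

/-- the nodes with numbers from 52 -/
noncomputable def cU6_37_n1 : List XN :=
  cU6_37_n1_0 ++ cU6_37_n1_1

theorem cU6_37_k1 : allI (chkX 6 cU6_37_w ttU6 cU6_37_s (blkF [] cU6_37_D)) cU6_37_n1 52 = true := by
  decide +kernel

end Pool.Agent.Lib_MP_fa6e45
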