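import Pool.Agent.Lib_MP_fa6e45.CY6_5d

/-!
MP_fa6e45_co, stage 7: certificates (generated by a program).
-/

namespace Pool.Agent.Lib_MP_fa6e45

noncomputable def cU6_37_n2_0 : List XN :=
  [.old (.lp [(nat_lit 4368),(nat_lit 5460),(nat_lit 9100),(nat_lit 10010),(nat_lit 4368),
    (nat_lit 10192)] [(nat_lit 5461),(nat_lit 5461),(nat_lit 4369),(nat_lit 5461),(nat_lit 3095),(nat_lit 3095),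
    (nat_lit 5280),k0,(nat_lit 5461),(nat_lit 5461),(nat_lit 2549),(nat_lit 2549)] k0 [[],[],[k0,k0,k0,k0,k0,k0,k0,k0,
    (nat_lit 4004)],[k0,k0,k0,k0,k0,(nat_lit 910)],[k0,k0,(nat_lit 910)],[k0,k0,k0,k0,k0,k0,k0,k0,k0,k0,k0,
    (nat_lit 8372)],[],[],[],[k0,k0,k0,(nat_lit 4004)],[k0,k0,k0,k0,(nat_lit 8372)]] (nat_lit 21840) k6
    [[(k0,(nat_lit 4368)),(k8,(nat_lit 4368)),(k4,(nat_lit 15106))],[(k1,(nat_lit 4368)),(k9,(nat_lit 4368)),(k5,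
    (nat_lit 6734))],[(k6,(nat_lit 4549)),(k2,(nat_lit 5460)),(k10,(nat_lit 7280))],[(k11,(nat_lit 4368)),(k3,
    (nat_lit 5460)),(k7,(nat_lit 11831))],[(k0,(nat_lit 6734)),(k4,(nat_lit 8190)),(k8,(nat_lit 10738))],[(k9,
    (nat_lit 6734)),(k5,(nat_lit 8190)),(k1,(nat_lit 15106))],[(k10,(nat_lit 4369)),(k6,(nat_lit 10010)),(k2,
    (nat_lit 11831))],[(k3,(nat_lit 4549)),(k11,(nat_lit 7461)),(k7,(nat_lit 10010))],[(k0,(nat_lit 4368)),(k8,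
    (nat_lit 4368)),(k4,(nat_lit 6734))],[(k1,(nat_lit 4368)),(k9,(nat_lit 4368)),(k5,(nat_lit 10738))],[(k2,
    (nat_lit 4368)),(k6,(nat_lit 7461)),(k10,(nat_lit 10192))],[(k7,(nat_lit 4369)),(k3,(nat_lit 7280)),(k11,
    (nat_lit 10192))]]
    [] k0
    [[k2,k0,k0,k0,k0,k0],[k3,k0,k0,k0,k0,k0],[k4,k0,k0,k0,k0,k0],[k3,k0,k0,k0,k1,k0],[k2,k0,k0,k0,k1,k0],[k2,k0,k0,k0,
    k2,k0],[k1,k0,k0,k0,k1,k0],[k1,k0,k1,k0,k1,k0],[k1,k0,k0,k0,k2,k0],[k1,k0,k0,k0,k3,k0],[k0,k2,k0,k0,k0,k0],[k0,k3,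
    k0,k0,k0,k0],[k0,k2,k0,k1,k0,k1],[k0,k2,k0,k0,k0,k1],[k0,k1,k0,k1,k0,k0],[k0,k1,k0,k1,k0,k1],[k0,k1,k0,k0,k0,k1],
    [k0,k0,k2,k0,k0,k0],[k0,k0,k1,k0,k1,k0],[k0,k0,k0,k2,k0,k0],[k0,k0,k0,k1,k0,k1],[k0,k0,k0,k0,k2,k0],[k0,k0,k0,k0,
    k3,k0],[k0,k0,k0,k0,k4,k0],[k0,k0,k0,k0,k0,k2]]
    [.contra [z1],.ref k63 k6 [(z2,[y1,z9,z6,z6,y6]),(z1,[z1]),(z1,[z0,y2,y1,y2,z2]),(z2,[z1,y3])],.ref k65 k6 [(z2,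
    [y1,z12,z8,z8,y8]),(z2,[z1]),(z1,[z0,y2,y1,y2,z2]),(z2,[z1,y4])],.ref k64 k6 [(z1,[y1,z10,z7,z7,y7]),(z1,[z2,z1]),
    (z1,[z0,y2,y1,y2,z2]),(z1,[z1,y3])],.ref k61 k0 [(z1,[z1,y2,z0,y2]),(z1,[y1,z1,z0,z1,z1])],.ref k63 k6 [(z2,[y1,
    z8,z6,z6,y6]),(z1,[z1,z1]),(z1,[z0,y2,y1,y2,z2]),(z2,[z1,y2])],.ref k50 k0 [(z1,[z1,y1,z0,y1]),(z1,[y1,z0,z0,z0,
    z1])],.contra [z2,y1,z0,y2],.contra [z1,z1],.ref k61 k0 [(z1,[z1,y1,z0,y2]),(z1,[y1,z0,z0,z1,z1])],.contra [z1],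
    .ref k21 k8 [(z1,[z1]),(z1,[z0,z1,z0,z1])],.ref k62 k2 [(z1,[z1,z0,y1]),(z1,[z0,z0,z0,z1]),(z1,[z1,z1,z0,z1,y1]),
    (z1,[z0,z1])],.contra [y1,z1,z1],.contra [y1,y1,z0,y1,z1],.contra [y2,y1,z0,y2,z2],.contra [y1,z1,z1],.contra [y1,
    z2,z0,z2],.contra [y2,z1,z0,z2],.contra [z1],.contra [y2,y1,z0,y2,z2],.contra [z1],.ref k50 k0 [(z1,[z1,z0,z0,
    y1]),(z1,[y1,y1,z0,z0,z1])],.contra [z1,z2],.contra [z1]]),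
    .geo true z1 k5 [(y2,z6),(y2,z4),(z2,y3),(z2,y2),(z4,y6),(z0,z1)] [(z1,[z1]),(z1,[z0,z1]),(z1,[z0,z0,z1]),(z1,[z0,z0,
    z0,z1]),(z1,[y1,y1,y1,y1,z1]),(z1,
    [])] (Int.ofNat (nat_lit 524288)) (Int.ofNat (nat_lit 699051)) (.s (.l k1) (.s (.l k1) (.l k2))) [⟨z2,z3,[[k0,k5],
    [k1,k2],[k3,k4]],.bnd k0⟩],
    .geo true z1 k5 [(z0,z2),(y1,z2),(z1,y1),(z2,y2),(z2,y2),(z0,z1)] [(z1,[z1]),(z1,[z0,z1]),(z1,[z0,z0,z1]),(z1,[z0,z0,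
    z0,z1]),(z1,[y1,y1,y1,y1,z1]),(z1,
    [])] (Int.ofNat (nat_lit 524288)) (Int.ofNat (nat_lit 1048576)) (.s (.l k1) (.s (.l k1) (.l k2))) [⟨z1,z1,[[k0,
    k2],[k1,k4],[k3,k5]],.bnd k0⟩],
    .geo true z3 k4 [(y1,z3),(z1,z0),(z6,y6),(z2,z0),(z0,z3),(z4,z0)] [(z1,[z1]),(z1,[z0,z1]),(z1,[z0,z0,z3]),(z1,[z0,z0,
    z0,z1]),(z1,[]),(z1,[y1,y1,y3,y1,
    z3])] (Int.ofNat (nat_lit 349525)) (Int.ofNat (nat_lit 1048576)) (.s (.l k1) (.l k1)) [],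
    .old (.lp [(nat_lit 396),(nat_lit 480),(nat_lit 616),(nat_lit 440),(nat_lit 264),(nat_lit 440)] [k110,k110,k68,k68,k0,
    k0,k88,k88,k176,k176,k88,k88] k0 [[k0,k0,k0,k0,k0,k0,k0,k0,k0,k0,k55],[k0,k0,k0,k132],[k132],[k0,k0,k0,k0,k0,k55],
    [k0,k0,k55],[k0,k0,k0,k0,k0,k0,k0,k0,k0,k0,k0,k176],[k0,k0,k0,k0,k0,k0,k0,k0,k176],[],[],[k0,k0,k0,k0,k0,k0,k0,
    k176],[k0,k0,k0,k0,k176],[k0,k55]] (nat_lit 1320) k6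
    [[(k8,(nat_lit 330)),(k0,(nat_lit 341)),(k4,(nat_lit 682))],[(k9,(nat_lit 330)),(k1,(nat_lit 341)),(k5,
    (nat_lit 638))],[(k2,(nat_lit 348)),(k6,(nat_lit 460)),(k10,(nat_lit 515))],[(k3,(nat_lit 348)),(k11,
    (nat_lit 460)),(k7,(nat_lit 515))],[(k8,(nat_lit 440)),(k4,(nat_lit 561)),(k0,(nat_lit 638))],[(k9,(nat_lit 440)),
    (k5,(nat_lit 561)),(k1,(nat_lit 682))],[(k10,(nat_lit 264)),(k6,(nat_lit 440)),(k2,(nat_lit 515))],[(k11,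
    (nat_lit 264)),(k7,(nat_lit 440)),(k3,(nat_lit 460))],[(k0,(nat_lit 330)),(k4,(nat_lit 440)),(k8,(nat_lit 440))],
    [(k1,(nat_lit 330)),(k5,(nat_lit 440)),(k9,(nat_lit 440))],[(k6,(nat_lit 264)),(k10,(nat_lit 440)),(k2,
    (nat_lit 460))],[(k7,(nat_lit 264)),(k11,(nat_lit 440)),(k3,(nat_lit 515))]]
    [] k0
    [[k2,k0,k0,k0,k0,k0],[k3,k0,k0,k0,k0,k0],[k2,k0,k0,k0,k1,k0],[k1,k0,k0,k0,k1,k0],[k1,k0,k0,k0,k2,k0],[k0,k2,k0,k0,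
    k0,k0],[k0,k3,k0,k0,k0,k0],[k0,k1,k0,k1,k0,k0],[k0,k1,k0,k1,k0,k1],[k0,k1,k0,k0,k0,k1],[k0,k0,k2,k0,k0,k0],[k0,k0,
    k1,k0,k1,k0],[k0,k0,k0,k2,k0,k0],[k0,k0,k0,k2,k0,k1],[k0,k0,k0,k1,k0,k1],[k0,k0,k0,k2,k0,k2],[k0,k0,k0,k1,k0,k2],
    [k0,k0,k0,k0,k2,k0],[k0,k0,k0,k0,k0,k2]]
    [.contra [z1],.ref k69 k3 [(z2,[y1,y3,y6,y6,z6]),(z2,[z1,y3]),(z1,[z0,z0,z1]),(z1,[z1])],.ref k61 k0 [(z1,[z1,y2,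
    z0,y2]),(z1,[y1,z1,z0,z1,z1])],.ref k50 k0 [(z1,[z1,y1,z0,y1]),(z1,[y1,z0,z0,z0,z1])],.contra [z1,z1],
    .contra [z1],.ref k21 k8 [(z1,[z1]),(z1,[z0,z1,z0,z1])],.contra [y2,y1,z0,y2,z2],.contra [y2,y1,z0,y2,z2],
    .contra [y1,z0,z1],.contra [y1,z2,z0,z2],.contra [y2,z1,z0,z2],.contra [z1],.contra [y1,y1,y1,y2,z2],.contra [y2,
    y1,z0,y2,z2],.ref k68 k5 [(z1,[z1,z2,z0,z3,y2]),(z2,[z1,z0,y2]),(z2,[y1,y2,z0,y2,z2]),(z1,[z0,z0,z1])],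
    .ref k67 k5 [(z1,[z2,z2,y2,z3,y2]),(z1,[z1,z0,y2]),(z1,[y1,y1,z1,y1,z1]),(z1,[z0,z0,z1])],.contra [z1],
    .contra [z1]]),
    .geo true z3 k4 [(y1,z3),(z4,z0),(z6,y6),(z1,z0),(z0,z3),(z2,z0)] [(z1,[z1]),(z1,[z0,z1]),(z1,[z0,z0,z3]),(z1,[z0,z0,
    z0,z1]),(z1,[]),(z1,[y1,y1,y3,y1,
    z3])] (Int.ofNat (nat_lit 349525)) (Int.ofNat (nat_lit 1048576)) (.s (.s (.l k1) (.l k1)) (.s (.l k1) (.l k1))) [],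
    .old (.lp [k94,k164,k160,k152,(nat_lit 226),k160] [k66,k66,k31,k31,k33,k33,k37,k37,k0,k0,k33,k33] k0 [[],[k0,k0,k0,k0,
    k0,k0,k0,k0,k0,k0,k0,k66],[k0,k0,k0,k0,k0,k0,k0,k0,k66],[],[k0,k0,k0,k0,k0,k0,k0,k0,k0,k0,k14],[k0,k0,k0,k0,k0,k0,
    k0,k28],[k0,k0,k0,k0,k28],[k0,k0,k0,k0,k0,k0,k0,k0,k0,k30],[k0,k0,k0,k0,k0,k0,k30],[k0,k0,k0,k66],[k66],[k0,k0,k0,
    k0,k0,k14]] (nat_lit 480) k6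
    [[(k4,k113),(k0,k160),(k8,k160)],[(k5,k127),(k1,k160),(k9,k160)],[(k10,k96),(k6,k158),(k2,k164)],[(k11,k96),(k7,
    k158),(k3,k164)],[(k0,k127),(k4,k160),(k8,(nat_lit 259))],[(k1,k113),(k5,k160),(k9,(nat_lit 221))],[(k6,k124),(k2,
    k158),(k10,k170)],[(k7,k124),(k3,k158),(k11,k186)],[(k0,k160),(k8,k196),(k4,(nat_lit 221))],[(k1,k160),(k9,k196),
    (k5,(nat_lit 259))],[(k2,k96),(k10,k160),(k6,k186)],[(k3,k96),(k11,k160),(k7,k170)]]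
    [] k0
    [[k2,k0,k0,k0,k0,k0],[k2,k0,k1,k0,k0,k0],[k1,k0,k1,k0,k0,k0],[k1,k0,k2,k0,k0,k0],[k1,k0,k0,k0,k1,k0],[k0,k2,k0,k0,
    k0,k0],[k0,k2,k0,k0,k0,k1],[k0,k1,k0,k1,k0,k0],[k0,k1,k0,k2,k0,k0],[k0,k1,k0,k1,k0,k1],[k0,k1,k0,k0,k0,k1],[k0,k2,
    k0,k0,k0,k2],[k0,k1,k0,k0,k0,k2],[k0,k0,k2,k0,k0,k0],[k0,k0,k0,k2,k0,k0],[k0,k0,k0,k3,k0,k0],[k0,k0,k0,k1,k0,k1],
    [k0,k0,k0,k0,k2,k0],[k0,k0,k0,k0,k0,k2]]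
    [.contra [z1],.contra [z3,y1,z0,y1],.contra [z6,z1,z0,y2],.contra [z6,y1,z0,y4],.contra [z6,z1,z2,z2,y6],
    .contra [z1],.ref k71 k3 [(z1,[y3,z0,z1]),(z1,[z0,y1,y1,y1,z3]),(z1,[z1]),(z1,[z0,z1])],.contra [y3,z1,z1],
    .ref k70 k5 [(z3,[z0,y2,z0,z1]),(z1,[z1]),(z3,[z0,z1,y1,y1,z3])],.contra [z6,z1,y2],.contra [y3,z1,z1],
    .ref k21 k3 [(z2,[y3,z0,z2]),(z3,[z0,y1,y1,z0,z3])],.ref k66 k5 [(z3,[z0,y2,z0,z1]),(z3,[y3,z2,z2]),(z3,[z0,z1,y1,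
    y1,z3])],.contra [z3,z1,z0,y2],.contra [z1],.ref k21 k3 [(z1,[z1]),(z3,[z0,y1,y1,z0,z3])],.contra [y3,z1,z1],
    .contra [y3,y1,y2,y2,z6],.contra [z1]]),
    .old (.lp [(nat_lit 7071680),(nat_lit 4580520),(nat_lit 9384480),(nat_lit 6107360),(nat_lit 4468800),
    (nat_lit 4962230)] [(nat_lit 4187904),k0,(nat_lit 3339532),(nat_lit 3339532),(nat_lit 937552),(nat_lit 937552),
    (nat_lit 2576112),(nat_lit 2576112),(nat_lit 3395392),(nat_lit 3395392),(nat_lit 3148677),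
    (nat_lit 3148677)] k0 [[],[],[],[k0,k0,k0,k0,k0,(nat_lit 3053680)],[k0,k0,(nat_lit 3053680)],[k0,k0,k0,k0,k0,k0,
    k0,k0,k0,k0,k0,(nat_lit 1869600)],[],[],[k0,k0,k0,k0,k0,k0,k0,k0,k0,k0,(nat_lit 4198810)],[],[k0,k0,k0,k0,
    (nat_lit 1869600)],[k0,k0,k0,k0,k0,k0,k0,k0,k0,(nat_lit 4198810)]] (nat_lit 18322080) k6
    [[(k8,(nat_lit 3665382)),(k0,(nat_lit 7071680)),(k4,(nat_lit 12191632))],[(k9,(nat_lit 3676288)),(k5,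
    (nat_lit 6134128)),(k1,(nat_lit 7071680))],[(k2,(nat_lit 4580520)),(k10,(nat_lit 4771375)),(k6,
    (nat_lit 5343940))],[(k3,(nat_lit 4580520)),(k11,(nat_lit 4771375)),(k7,(nat_lit 8397620))],[(k0,
    (nat_lit 6134128)),(k4,(nat_lit 6330800)),(k8,(nat_lit 6926640))],[(k5,(nat_lit 6330800)),(k9,(nat_lit 6926640)),
    (k1,(nat_lit 12191632))],[(k10,(nat_lit 3665195)),(k6,(nat_lit 6107360)),(k2,(nat_lit 8397620))],[(k3,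
    (nat_lit 5343940)),(k11,(nat_lit 5534795)),(k7,(nat_lit 6107360))],[(k0,(nat_lit 3676288)),(k8,(nat_lit 4468800)),
    (k4,(nat_lit 6926640))],[(k1,(nat_lit 3665382)),(k9,(nat_lit 4468800)),(k5,(nat_lit 6926640))],[(k2,
    (nat_lit 4771375)),(k6,(nat_lit 5534795)),(k10,(nat_lit 9161040))],[(k7,(nat_lit 3665195)),(k3,(nat_lit 4771375)),
    (k11,(nat_lit 9161040))]]
    [] k0
    [[k2,k0,k0,k0,k0,k0],[k2,k0,k0,k0,k1,k0],[k1,k0,k0,k0,k1,k0],[k2,k0,k0,k0,k2,k0],[k1,k0,k1,k0,k1,k0],[k1,k0,k0,k0,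
    k2,k0],[k1,k0,k0,k0,k3,k0],[k0,k2,k0,k0,k0,k0],[k0,k3,k0,k0,k0,k0],[k0,k2,k0,k0,k0,k1],[k0,k1,k0,k1,k0,k0],[k0,k1,
    k0,k1,k0,k1],[k0,k1,k0,k0,k0,k1],[k0,k0,k2,k0,k0,k0],[k0,k0,k1,k0,k1,k0],[k0,k0,k0,k2,k0,k0],[k0,k0,k0,k2,k0,k1],
    [k0,k0,k0,k1,k0,k1],[k0,k0,k0,k0,k2,k0],[k0,k0,k0,k0,k3,k0],[k0,k0,k0,k0,k4,k0]]
    [.contra [z1],.ref k61 k0 [(z1,[z1,z0,z2,y2]),(z1,[y1,z0,y1,z2])],.ref k50 k0 [(z1,[z1,z0,z1,y1]),(z1,[y1,z0,z0,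
    z1])],.ref k72 k0 [(z2,[z1,y2]),(z2,[y1,z2,z6]),(z1,[z1,z1])],.contra [z2,z1,z2,y2],.contra [z1,z1],
    .ref k61 k0 [(z1,[z1,z1,z2,y2]),(z1,[y1,y1,y1,z2])],.contra [z1],.ref k21 k8 [(z1,[z1]),(z1,[z0,z0,y1,z1])],
    .ref k70 k1 [(z1,[z0,z1]),(z1,[z1]),(z1,[z0,y1,y1,z1])],.contra [y1,z0,z1],.contra [y2,z1,z2],.contra [y2,z1,z2],
    .contra [y1,z0,y2,z2],.contra [y2,y1,y2,z2],.contra [z1],.ref k66 k1 [(z1,[z0,z1]),(z1,[y1,z0,z2]),(z1,[z0,y1,y1,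
    z1])],.contra [y2,z1,z2],.contra [z1],.ref k50 k0 [(z1,[z1,z1,z1,y1]),(z1,[y1,y1,z0,z1])],.contra [z1,z2]]),
    .old (.lp [(nat_lit 1255307630),(nat_lit 926385600),(nat_lit 2432809200),(nat_lit 2173005600),(nat_lit 1341880570),
    (nat_lit 2216267264)] [(nat_lit 588750785),(nat_lit 588750785),(nat_lit 753211800),(nat_lit 753211800),k0,k0,
    (nat_lit 129901800),(nat_lit 129901800),(nat_lit 545464315),(nat_lit 545464315),(nat_lit 108270968),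
    (nat_lit 108270968)] k0 [[k0,k0,(nat_lit 121202116)],[k0,k0,k0,k0,k0,k0,k0,k0,k0,k0,k0,(nat_lit 43286470)],[],[k0,
    (nat_lit 121202116)],[k0,k0,k0,k0,k0,k0,k0,k0,k0,k0,(nat_lit 805128342)],[k0,k0,k0,k0,k0,k0,k0,
    (nat_lit 77915646)],[k0,k0,k0,k0,(nat_lit 77915646)],[],[],[],[(nat_lit 43286470)],[k0,k0,k0,k0,k0,
    (nat_lit 805128342)]] (nat_lit 5194376400) k6
    [[(k4,(nat_lit 1038930073)),(k0,(nat_lit 1298594100)),(k8,(nat_lit 1298594100))],[(k1,(nat_lit 1298594100)),(k9,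
    (nat_lit 1298594100)),(k5,(nat_lit 1722856299))],[(k2,(nat_lit 1047587716)),(k10,(nat_lit 1528039962)),(k6,
    (nat_lit 1549695600))],[(k3,(nat_lit 1047587716)),(k7,(nat_lit 1549695600)),(k11,(nat_lit 1571326432))],[(k0,
    (nat_lit 1722856299)),(k8,(nat_lit 1887344885)),(k4,(nat_lit 2432809200))],[(k1,(nat_lit 1038930073)),(k9,
    (nat_lit 1965260531)),(k5,(nat_lit 2432809200))],[(k2,(nat_lit 1549695600)),(k6,(nat_lit 2095089954)),(k10,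
    (nat_lit 2999764774))],[(k3,(nat_lit 1549695600)),(k7,(nat_lit 2095089954)),(k11,(nat_lit 2194636432))],[(k0,
    (nat_lit 1298594100)),(k8,(nat_lit 1341880570)),(k4,(nat_lit 1965260531))],[(k1,(nat_lit 1298594100)),(k9,
    (nat_lit 1341880570)),(k5,(nat_lit 1887344885))],[(k2,(nat_lit 1571326432)),(k6,(nat_lit 2194636432)),(k10,
    (nat_lit 2216267264))],[(k3,(nat_lit 1528039962)),(k11,(nat_lit 2216267264)),(k7,(nat_lit 2999764774))]]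
    [] k0
    [[k2,k0,k0,k0,k0,k0],[k3,k0,k0,k0,k0,k0],[k2,k0,k1,k0,k0,k0],[k2,k0,k0,k0,k1,k0],[k1,k0,k1,k0,k0,k0],[k1,k0,k1,k0,
    k1,k0],[k1,k0,k0,k0,k1,k0],[k1,k0,k0,k0,k2,k0],[k0,k2,k0,k0,k0,k0],[k0,k3,k0,k0,k0,k0],[k0,k4,k0,k0,k0,k0],[k0,k2,
    k0,k1,k0,k0],[k0,k2,k0,k0,k0,k1],[k0,k1,k0,k1,k0,k0],[k0,k1,k0,k0,k0,k1],[k0,k0,k2,k0,k0,k0],[k0,k0,k1,k0,k1,k0],
    [k0,k0,k0,k2,k0,k0],[k0,k0,k0,k0,k2,k0],[k0,k0,k0,k0,k3,k0],[k0,k0,k0,k0,k0,k2]]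
    [.contra [z1],.contra [y1,z3,z4],.contra [y1,z2,z2,z1],.contra [y1,z2,z3],.contra [z1,y1,z0,y1],.contra [y1,z1,z1,
    z1],.contra [y1,z2,z3],.contra [y1,z1,z2],.contra [z1],.contra [y1,z3,z4],.contra [z1,z0,y4,z6],.ref k73 k10 [(z1,
    [y1,y1,y1,y1,z1]),(z1,[z0,z1,z1,z1])],.ref k73 k3 [(z1,[y1,y1,y1,y1,z1]),(z1,[z0,z1,z1,z1])],.ref k50 k8 [(z1,[z1,
    z1,z1,z1,y1]),(z1,[y1,z0,z0,z0,z1])],.ref k50 k3 [(z1,[y1,y1,y1,y1,z1]),(z1,[z0,z1,z1,z1])],.contra [z1],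
    .contra [y1,z1,z1,z1],.contra [z1],.contra [z1],.contra [y1,z0,z1],.contra [y1,y2,y2,y2,z2]]),
    .old (.lp [(nat_lit 1040),(nat_lit 478),(nat_lit 1040),(nat_lit 1182),(nat_lit 1292),(nat_lit 1182)] [k126,k126,
    (nat_lit 407),(nat_lit 407),k126,k126,k55,k55,k0,k0,k55,k55] k0 [[k0,k0,(nat_lit 252)],[],[],[k0,(nat_lit 252)],
    [k0,k0,k0,k0,k0,k0,k0,k0,k0,k0,(nat_lit 252)],[],[],[k0,k0,k0,k0,k0,k0,k0,k0,k0,(nat_lit 504)],[k0,k0,k0,k0,k0,k0,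
    (nat_lit 504)],[],[],[k0,k0,k0,k0,k0,(nat_lit 252)]] (nat_lit 3120) k6
    [[(k4,(nat_lit 788)),(k0,(nat_lit 1040)),(k8,(nat_lit 1166))],[(k5,(nat_lit 788)),(k1,(nat_lit 1040)),(k9,
    (nat_lit 1166))],[(k2,(nat_lit 730)),(k6,(nat_lit 830)),(k10,(nat_lit 830))],[(k3,(nat_lit 730)),(k7,
    (nat_lit 830)),(k11,(nat_lit 830))],[(k0,(nat_lit 788)),(k4,(nat_lit 1040)),(k8,(nat_lit 1166))],[(k1,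
    (nat_lit 788)),(k5,(nat_lit 1040)),(k9,(nat_lit 1166))],[(k2,(nat_lit 830)),(k6,(nat_lit 1182)),(k10,
    (nat_lit 1434))],[(k3,(nat_lit 830)),(k7,(nat_lit 1182)),(k11,(nat_lit 1686))],[(k8,(nat_lit 788)),(k0,
    (nat_lit 1166)),(k4,(nat_lit 1166))],[(k9,(nat_lit 788)),(k1,(nat_lit 1166)),(k5,(nat_lit 1166))],[(k2,
    (nat_lit 830)),(k10,(nat_lit 1182)),(k6,(nat_lit 1686))],[(k3,(nat_lit 830)),(k11,(nat_lit 1182)),(k7,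
    (nat_lit 1434))]]
    [] k0
    [[k2,k0,k0,k0,k0,k0],[k2,k0,k1,k0,k0,k0],[k1,k0,k1,k0,k0,k0],[k1,k0,k2,k0,k0,k0],[k1,k0,k0,k0,k1,k0],[k0,k2,k0,k0,
    k0,k0],[k0,k3,k0,k0,k0,k0],[k0,k4,k0,k0,k0,k0],[k0,k2,k0,k1,k0,k0],[k0,k2,k0,k0,k0,k1],[k0,k1,k0,k1,k0,k0],[k0,k1,
    k0,k2,k0,k0],[k0,k1,k0,k1,k0,k1],[k0,k1,k0,k0,k0,k1],[k0,k1,k0,k0,k0,k2],[k0,k0,k2,k0,k0,k0],[k0,k0,k1,k0,k1,k0],
    [k0,k0,k0,k2,k0,k0],[k0,k0,k0,k0,k2,k0],[k0,k0,k0,k0,k3,k0],[k0,k0,k0,k0,k0,k2]]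
    [.contra [z1],.contra [z1,y1,z0,y1],.contra [y1,z2,z2,z1],.contra [z1,y1,z0,y1],.contra [z2,z1],.contra [z1],
    .contra [y1,z2,z4],.contra [z1,z0,y4,z2],.ref k73 k10 [(z1,[y1,y1,y1,y1,z1]),(z1,[z0,z1,z1,z1])],.ref k73 k3 [(z1,
    [y1,y1,y1,y1,z1]),(z1,[z0,z1,z1,z1])],.ref k50 k8 [(z1,[z1,z1,z1,z1,y1]),(z1,[y1,z0,z0,z0,z1])],.ref k61 k8 [(z1,
    [z1,z2,z2,z2,y2]),(z1,[y1,y1,y1,y1,z2])],.contra [y2,y1,z0,y2,z2],.ref k50 k3 [(z1,[y1,y1,y1,y1,z1]),(z1,[z0,z1,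
    z1,z1])],.ref k61 k6 [(z1,[z1,z2,z2,z2,y2]),(z1,[y1,y1,y1,y1,z2])],.contra [z1],.contra [z1,z0,z1,y1],
    .contra [z1],.contra [z1,z1],.ref k21 k0 [(z1,[z1]),(z1,[z0,y1,y1,y1,z1])],.contra [y1,y2,y2,y2,z2]]),
    .old (.lp [(nat_lit 4560),(nat_lit 4606),(nat_lit 3760),(nat_lit 2068),(nat_lit 3760),(nat_lit 3760)] [k23,k23,k0,k0,
    (nat_lit 423),(nat_lit 423),(nat_lit 1269),(nat_lit 1269),(nat_lit 611),(nat_lit 235),(nat_lit 423),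
    (nat_lit 423)] k0 [[k0,k0,k0,k0,k0,k0,k0,k0,k0,k0,(nat_lit 1598)],[],[],[k0,k0,k0,k0,k0,k0,k0,k0,k0,
    (nat_lit 1316)],[k0,k0,k0,k0,k0,k0,(nat_lit 1692)],[],[],[k0,k0,k0,k0,k0,(nat_lit 1692)],[k0,k0,(nat_lit 1316)],
    [],[],[k0,(nat_lit 1598)]] (nat_lit 11280) k6
    [[(k0,(nat_lit 2962)),(k8,(nat_lit 3972)),(k4,(nat_lit 4160))],[(k1,(nat_lit 2962)),(k5,(nat_lit 4160)),(k9,
    (nat_lit 4348))],[(k6,(nat_lit 3337)),(k2,(nat_lit 4606)),(k10,(nat_lit 5781))],[(k7,(nat_lit 3337)),(k3,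
    (nat_lit 4606)),(k11,(nat_lit 5499))],[(k8,(nat_lit 2256)),(k4,(nat_lit 3760)),(k0,(nat_lit 4160))],[(k9,
    (nat_lit 2256)),(k5,(nat_lit 3760)),(k1,(nat_lit 4160))],[(k10,(nat_lit 2914)),(k2,(nat_lit 3337)),(k6,
    (nat_lit 3760))],[(k11,(nat_lit 2914)),(k3,(nat_lit 3337)),(k7,(nat_lit 3760))],[(k4,(nat_lit 2256)),(k8,
    (nat_lit 3760)),(k0,(nat_lit 4348))],[(k5,(nat_lit 2256)),(k9,(nat_lit 3760)),(k1,(nat_lit 3972))],[(k6,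
    (nat_lit 2914)),(k10,(nat_lit 3760)),(k2,(nat_lit 5499))],[(k7,(nat_lit 2914)),(k11,(nat_lit 3760)),(k3,
    (nat_lit 5781))]]
    [] k0
    [[k2,k0,k0,k0,k0,k0],[k3,k0,k0,k0,k0,k0],[k1,k0,k1,k0,k0,k0],[k1,k0,k1,k0,k1,k0],[k1,k0,k0,k0,k1,k0],[k0,k2,k0,k0,
    k0,k0],[k0,k1,k0,k1,k0,k0],[k0,k1,k0,k2,k0,k0],[k0,k0,k2,k0,k0,k0],[k0,k0,k2,k0,k1,k0],[k0,k0,k1,k0,k1,k0],[k0,k0,
    k2,k0,k2,k0],[k0,k0,k1,k0,k2,k0],[k0,k0,k0,k2,k0,k0],[k0,k0,k0,k2,k0,k1],[k0,k0,k0,k1,k0,k1],[k0,k0,k0,k1,k0,k2],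
    [k0,k0,k0,k0,k2,k0],[k0,k0,k0,k0,k0,k2]]
    [.contra [z1],.ref k21 k1 [(z1,[z1]),(z1,[z0,z0,z1])],.contra [y1,z1,y1,z1],.contra [y1,z0,y1,z1],.contra [y1,z0,
    y1,z1],.contra [z1],.ref k50 k7 [(z1,[y1,z0,z1]),(z1,[z0,z0,y1,z1])],.ref k73 k7 [(z1,[y1,z0,z1]),(z1,[z0,z0,y1,
    z1])],.contra [z1],.ref k74 k4 [(z1,[z1,y2,z2,y2]),(z1,[y1,z1,y2,z2]),(z1,[z0,z1,y1,z1])],.contra [y1,z0,y1,z1],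
    .ref k75 k4 [(z2,[z1,y2,z2,y2]),(z2,[y1,z0,y2,z2]),(z1,[z0,z1,y1,z1])],.contra [y1,y1,y1,z1],.contra [z1],
    .ref k73 k6 [(z1,[y1,z0,z1]),(z1,[z0,z0,y1,z1])],.ref k50 k3 [(z1,[z1,z0,y1]),(z1,[y1,z0,z0,z1])],
    .ref k61 k3 [(z1,[z1,z0,y2]),(z1,[y1,z0,z1,z1])],.contra [z1],.contra [y1,z0,z2]]),
    .old (.lp [(nat_lit 402),(nat_lit 687),(nat_lit 788),(nat_lit 480),(nat_lit 772),(nat_lit 695)] [k197,k197,k52,k57,k4,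
    k4,k158,k158,k12,k12,k101,k0] k0 [[k0,k0,(nat_lit 211)],[k0,k0,k0,k0,k0,k0,k0,k145],[k0,k0,k0,k0,k0,k0,k0,k0,
    (nat_lit 360)],[k0,(nat_lit 211)],[],[k0,k0,k0,k0,k0,k0,k0,k0,k0,k0,k0,k153],[k145],[],[k0,k0,k0,k0,k0,k0,k0,k0,
    k0,k0,(nat_lit 203)],[k0,k0,k0,(nat_lit 360)],[k0,k0,k0,k0,k153],[k0,k0,k0,k0,k0,k0,k0,k0,k0,
    (nat_lit 203)]] (nat_lit 1920) k6
    [[(k8,(nat_lit 384)),(k0,(nat_lit 402)),(k4,(nat_lit 748))],[(k5,(nat_lit 384)),(k1,(nat_lit 402)),(k9,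
    (nat_lit 732))],[(k6,(nat_lit 436)),(k10,(nat_lit 638)),(k2,(nat_lit 898))],[(k11,(nat_lit 384)),(k7,
    (nat_lit 586)),(k3,(nat_lit 898))],[(k0,(nat_lit 384)),(k4,(nat_lit 788)),(k8,(nat_lit 1140))],[(k1,
    (nat_lit 748)),(k9,(nat_lit 780)),(k5,(nat_lit 788))],[(k10,(nat_lit 384)),(k6,(nat_lit 480)),(k2,(nat_lit 586))],
    [(k3,(nat_lit 436)),(k7,(nat_lit 480)),(k11,(nat_lit 638))],[(k0,(nat_lit 732)),(k8,(nat_lit 772)),(k4,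
    (nat_lit 780))],[(k1,(nat_lit 384)),(k9,(nat_lit 772)),(k5,(nat_lit 1140))],[(k2,(nat_lit 384)),(k6,
    (nat_lit 638)),(k10,(nat_lit 898))],[(k7,(nat_lit 384)),(k3,(nat_lit 638)),(k11,(nat_lit 898))]]
    [] k0
    [[k2,k0,k0,k0,k0,k0],[k3,k0,k0,k0,k0,k0],[k4,k0,k0,k0,k0,k0],[k2,k0,k1,k0,k0,k0],[k2,k0,k0,k0,k1,k0],[k1,k0,k1,k0,
    k0,k0],[k1,k0,k0,k0,k1,k0],[k1,k0,k1,k0,k1,k0],[k1,k0,k0,k0,k2,k0],[k0,k2,k0,k0,k0,k0],[k0,k1,k0,k1,k0,k0],[k0,k1,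
    k0,k2,k0,k0],[k0,k1,k0,k2,k0,k1],[k0,k1,k0,k1,k0,k1],[k0,k1,k0,k0,k0,k1],[k0,k0,k2,k0,k0,k0],[k0,k0,k0,k2,k0,k0],
    [k0,k0,k0,k3,k0,k0],[k0,k0,k0,k2,k0,k1],[k0,k0,k0,k1,k0,k1],[k0,k0,k0,k0,k2,k0],[k0,k0,k0,k0,k0,k2]]
    [.contra [z1],.contra [y1,z2,z2],.contra [z1,y2],.ref k73 k4 [(z1,[y1,z0,z0,z1]),(z1,[z0,z0,z0,y1,z1])],
    .ref k73 k5 [(z1,[y1,z0,z0,z1]),(z1,[z0,z0,z0,y1,z1])],.ref k50 k1 [(z1,[z1,z0,z0,y1]),(z1,[y1,z0,z0,z0,z1])],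
    .ref k50 k5 [(z1,[y1,z0,z0,z1]),(z1,[z0,z0,z0,y1,z1])],.contra [y2,z1,z1,z2],.ref k61 k9 [(z1,[z1,z0,z0,y2]),(z1,
    [y1,z0,z0,z1,z1])],.contra [z1],.contra [y2,z2,z1,y2,z2],.contra [z1,z1,z2,z2,y2],.contra [y1,y1,y1,y2,z2],
    .contra [z2,z1,z1,z2,y2],.contra [y2,z2,z3],.contra [z1],.contra [z1],.contra [z1,z1,z2,z2,y2],.contra [z1,z1,z2,
    z2,y2],.contra [z1,z1,z1,z1,y1],.contra [y1,z0,z0,z2],.contra [z1]])]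

noncomputable def cU6_37_n2_1 : List XN :=
  [.old (.lp [(nat_lit 200),k90,k192,k176,k96,(nat_lit 204)] [k2,k2,k57,k57,k6,k6,k14,k14,k54,k54,k0,k0] k0 [[k0,k0,k30],
    [k0,k0,k0,k0,k0,k0,k0,k0,k0,k0,k0,k18],[k0,k0,k0,k0,k26],[k0,k30],[k0,k0,k0,k0,k0,k0,k0,k0,k0,k0,k100],[k0,k0,k0,
    k26],[],[],[],[],[k18],[k0,k0,k0,k0,k0,k100]] (nat_lit 480) k6
    [[(k4,k96),(k8,k148),(k0,(nat_lit 218))],[(k9,k148),(k5,k166),(k1,(nat_lit 218))],[(k2,k120),(k10,k129),(k6,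
    k133)],[(k7,k107),(k3,k120),(k11,k147)],[(k8,k144),(k0,k166),(k4,(nat_lit 218))],[(k1,k96),(k9,k144),(k5,
    (nat_lit 218))],[(k2,k107),(k6,k176),(k10,(nat_lit 290))],[(k3,k133),(k7,k176),(k11,k190)],[(k8,k96),(k4,k144),
    (k0,k148)],[(k9,k96),(k5,k144),(k1,k148)],[(k2,k147),(k6,k190),(k10,(nat_lit 204))],[(k3,k129),(k11,
    (nat_lit 204)),(k7,(nat_lit 290))]]
    [] k0
    [[k2,k0,k0,k0,k0,k0],[k1,k0,k1,k0,k0,k0],[k1,k0,k1,k0,k1,k0],[k1,k0,k0,k0,k1,k0],[k1,k0,k0,k0,k2,k0],[k0,k2,k0,k0,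
    k0,k0],[k0,k3,k0,k0,k0,k0],[k0,k2,k0,k1,k0,k0],[k0,k2,k0,k0,k0,k1],[k0,k1,k0,k1,k0,k0],[k0,k1,k0,k2,k0,k0],[k0,k1,
    k0,k0,k0,k1],[k0,k1,k0,k1,k0,k1],[k0,k0,k2,k0,k0,k0],[k0,k0,k1,k0,k1,k0],[k0,k0,k1,k0,k2,k0],[k0,k0,k0,k2,k0,k0],
    [k0,k0,k0,k0,k2,k0],[k0,k0,k0,k0,k3,k0],[k0,k0,k0,k0,k4,k0],[k0,k0,k0,k0,k0,k2]]
    [.contra [z1],.contra [z3,z1,z0,y1],.contra [y3,z1,z1,z1],.contra [y3,z2,z1],.contra [y3,z1,z2],.contra [z1],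
    .contra [y1,z0,z1],.ref k73 k10 [(z3,[y3,y1,y1,y1,z3]),(z3,[z0,z1,z1,z1])],.ref k73 k3 [(z3,[y3,y1,y1,y1,z3]),(z3,
    [z0,z1,z1,z1])],.ref k21 k5 [(z1,[z0,z0,z0,z1]),(z1,[z1])],.ref k61 k8 [(z3,[z3,z2,z2,z2,y6]),(z3,[y3,y1,y1,y1,
    z6])],.ref k21 k1 [(z1,[z0,z1]),(z1,[z1])],.contra [z3,z1,z1,z1,y3],.contra [z3,z2,z0,y2],.contra [y3,z1,z1,z1],
    .contra [y3,z0,z2,z1],.contra [z1],.contra [z1],.contra [y1,z0,z1],.ref k77 k8 [(z6,[y3,y4,z4]),(z3,[z0,z2,z0,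
    z1]),(z3,[z0,y1,y1,y1,z3])],.contra [y3,y2,y2,y2,z6]]),
    .old (.lp [k98,k120,k48,k80,k92,k40] [k11,k11,k0,k0,k36,k36,k20,k20,k14,k14,k40,k40] k0 [[k0,k0,k0,k0,k0,k0,k40],[k0,
    k0,k0,k0,k0,k0,k0,k0,k0,k0,k0,k32],[k0,k0,k0,k0,k0,k0,k0,k0,k8],[],[],[],[],[k0,k40],[k0,k0,k0,k0,k0,k0,k0,k0,k0,
    k0,k40],[k0,k0,k0,k8],[k32],[k0,k0,k0,k0,k0,k0,k0,k0,k0,k40]] (nat_lit 240) k6
    [[(k8,k55),(k4,k73),(k0,k130)],[(k9,k55),(k5,k73),(k1,k130)],[(k10,k48),(k2,k120),(k6,k140)],[(k11,k72),(k7,k100),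
    (k3,k120)],[(k4,k48),(k0,k73),(k8,k78)],[(k5,k48),(k9,k70),(k1,k73)],[(k10,k60),(k6,k80),(k2,k100)],[(k11,k60),
    (k7,k80),(k3,k140)],[(k0,k55),(k4,k70),(k8,k92)],[(k1,k55),(k5,k78),(k9,k92)],[(k6,k60),(k2,k72),(k10,k80)],[(k3,
    k48),(k7,k60),(k11,k80)]]
    [] k0
    [[k1,k0,k1,k0,k0,k0],[k1,k0,k2,k0,k0,k0],[k1,k0,k1,k0,k1,k0],[k1,k0,k0,k0,k1,k0],[k2,k0,k0,k0,k2,k0],[k1,k0,k0,k0,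
    k2,k0],[k0,k1,k0,k0,k0,k1],[k0,k1,k0,k1,k0,k1],[k0,k1,k0,k0,k0,k2],[k0,k0,k2,k0,k0,k0],[k0,k0,k3,k0,k0,k0],[k0,k0,
    k4,k0,k0,k0],[k0,k0,k2,k0,k1,k0],[k0,k0,k1,k0,k1,k0],[k0,k0,k0,k2,k0,k0],[k0,k0,k0,k2,k0,k1],[k0,k0,k0,k1,k0,k1],
    [k0,k0,k0,k1,k0,k2],[k0,k0,k0,k0,k2,k0],[k0,k0,k0,k0,k0,k2]]
    [.contra [y1,z0,y1,z1],.ref k76 k11 [(z1,[z1,z0,z1,y1]),(z1,[z0,z0,z1])],.contra [y1,z0,y1,z1],.contra [y1,z1],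
    .contra [y1,z2],.ref k78 k0 [(z1,[z2,y1]),(z1,[y1,y1,y3,z3]),(z1,[y1,z2])],.ref k50 k7 [(z1,[z1,z0,y1]),(z1,[y1,
    z0,z0,z1])],.contra [z1,z0,y1],.ref k73 k2 [(z1,[y1,z0,z1]),(z1,[z0,z0,y1,z1])],.contra [z1],.ref k21 k5 [(z1,
    [z1]),(z1,[z0,z0,z1])],.ref k77 k10 [(z2,[y1,y4,y4,z4]),(z1,[z0,z1]),(z1,[z0,z0,z1])],.contra [y1,y1,y2,z2],
    .contra [y1,z0,y1,z1],.contra [y1,z0,z2],.ref k61 k10 [(z1,[z1,z0,y2]),(z1,[y1,z0,z1,z1])],.ref k50 k8 [(z1,[y1,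
    z0,z1]),(z1,[z0,z0,y1,z1])],.ref k73 k8 [(z1,[y1,z0,z1]),(z1,[z0,z0,y1,z1])],.contra [z1],.contra [z1]]),
    .old (.lp [(nat_lit 83862320),(nat_lit 86997360),(nat_lit 83862320),(nat_lit 111117574),(nat_lit 83862320),
    (nat_lit 49279920)] [(nat_lit 13627627),(nat_lit 13627627),(nat_lit 12060107),(nat_lit 12060107),
    (nat_lit 13627627),(nat_lit 13627627),k0,k0,(nat_lit 13627627),(nat_lit 13627627),(nat_lit 30918827),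
    (nat_lit 30918827)] k0 [[k0,k0,k0,k0,k0,k0,(nat_lit 33544928)],[],[],[k0,k0,k0,k0,k0,(nat_lit 19927680)],[k0,k0,
    (nat_lit 19927680)],[k0,k0,k0,k0,k0,k0,k0,(nat_lit 19927680)],[k0,k0,k0,k0,(nat_lit 19927680)],[k0,
    (nat_lit 33544928)],[k0,k0,k0,k0,k0,k0,k0,k0,k0,k0,(nat_lit 8386232)],[],[],[k0,k0,k0,k0,k0,k0,k0,k0,k0,
    (nat_lit 8386232)]] (nat_lit 251586960) k6
    [[(k8,(nat_lit 75476088)),(k0,(nat_lit 83862320)),(k4,(nat_lit 83862320))],[(k9,(nat_lit 50317392)),(k1,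
    (nat_lit 83862320)),(k5,(nat_lit 83862320))],[(k10,(nat_lit 68138640)),(k2,(nat_lit 86997360)),(k6,
    (nat_lit 132602395))],[(k11,(nat_lit 68138640)),(k3,(nat_lit 86997360)),(k7,(nat_lit 118985147))],[(k4,
    (nat_lit 63934640)),(k0,(nat_lit 83862320)),(k8,(nat_lit 83862320))],[(k5,(nat_lit 63934640)),(k1,
    (nat_lit 83862320)),(k9,(nat_lit 103790000))],[(k10,(nat_lit 80198747)),(k6,(nat_lit 91189894)),(k2,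
    (nat_lit 118985147))],[(k11,(nat_lit 80198747)),(k7,(nat_lit 91189894)),(k3,(nat_lit 132602395))],[(k0,
    (nat_lit 50317392)),(k8,(nat_lit 83862320)),(k4,(nat_lit 103790000))],[(k1,(nat_lit 75476088)),(k5,
    (nat_lit 83862320)),(k9,(nat_lit 83862320))],[(k10,(nat_lit 57666152)),(k2,(nat_lit 68138640)),(k6,
    (nat_lit 80198747))],[(k11,(nat_lit 57666152)),(k3,(nat_lit 68138640)),(k7,(nat_lit 80198747))]]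
    [] k0
    [[k2,k0,k0,k0,k0,k0],[k2,k0,k0,k0,k1,k0],[k1,k0,k1,k0,k0,k0],[k1,k0,k2,k0,k0,k0],[k1,k0,k1,k0,k1,k0],[k1,k0,k0,k0,
    k1,k0],[k1,k0,k0,k0,k2,k0],[k0,k2,k0,k0,k0,k0],[k0,k2,k0,k0,k0,k1],[k0,k1,k0,k0,k0,k1],[k0,k1,k0,k0,k0,k2],[k0,k0,
    k2,k0,k0,k0],[k0,k0,k3,k0,k0,k0],[k0,k0,k1,k0,k1,k0],[k0,k0,k0,k2,k0,k0],[k0,k0,k0,k1,k0,k1],[k0,k0,k0,k1,k0,k2],
    [k0,k0,k0,k0,k2,k0],[k0,k0,k0,k0,k0,k2],[k0,k0,k0,k0,k0,k3],[k0,k0,k0,k0,k0,k4]]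
    [.contra [z1],.contra [z1,y1],.contra [y1,z0,y1,z1],.ref k76 k11 [(z1,[z1,z0,z1,y1]),(z1,[z0,z0,z1])],.contra [z1,
    y1],.contra [y2,z2,z1],.contra [z1,y1],.contra [z1],.ref k61 k7 [(z1,[z1,z0,y2]),(z1,[y1,z0,z1,z1])],
    .ref k50 k7 [(z1,[z1,z0,y1]),(z1,[y1,z0,z0,z1])],.ref k73 k2 [(z1,[y1,z0,z1]),(z1,[z0,z0,y1,z1])],.contra [z1],
    .ref k21 k5 [(z1,[z1]),(z1,[z0,z0,z1])],.contra [y1,z0,y1,z1],.contra [y1,z0,z2],.ref k50 k8 [(z1,[y1,z0,z1]),(z1,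
    [z0,z0,y1,z1])],.ref k73 k8 [(z1,[y1,z0,z1]),(z1,[z0,z0,y1,z1])],.contra [z1],.contra [z1],.ref k22 k5 [(z1,[y1,
    y3,y3,z3]),(z1,[z0,z0,z1]),(z1,[z0,z1])],.ref k35 k8 [(z1,[z0,z0,z1]),(z2,[y1,y4,y4,z4]),(z1,[z0,z1])]]),
    .old (.lp [(nat_lit 202),k120,k120,(nat_lit 240),k116,k160] [k73,k73,k114,k114,k114,k114,k108,k0,k138,k94,k94,
    k94] k0 [[k0,k0,k0,k0,k0,k0,k0,k0,k0,k0,k40],[],[],[],[k0,k0,k0,k0,k0,k0,k44],[k0,k0,k0,k0,k0,k0,k0,k0,k0,k0,k0,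
    k158],[k0,k0,k0,k0,k0,k0,k0,k0,k46],[k0,k0,k0,k0,k0,k44],[],[k0,k0,k0,k0,k0,k0,k0,k46],[k0,k0,k0,k0,k158],[k0,
    k40]] (nat_lit 480) k6
    [[(k8,k137),(k0,k162),(k4,(nat_lit 319))],[(k5,k161),(k1,k162),(k9,k181)],[(k2,k120),(k6,k126),(k10,k180)],[(k3,
    k120),(k11,k140),(k7,(nat_lit 234))],[(k8,k96),(k4,k120),(k0,k161)],[(k9,k96),(k5,k120),(k1,(nat_lit 319))],[(k10,
    k96),(k2,(nat_lit 234)),(k6,(nat_lit 284))],[(k11,k100),(k3,k126),(k7,(nat_lit 284))],[(k4,k96),(k8,k162),(k0,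
    k181)],[(k5,k96),(k1,k137),(k9,k162)],[(k6,k100),(k2,k140),(k10,k160)],[(k7,k96),(k11,k160),(k3,k180)]]
    [] k0
    [[k2,k0,k0,k0,k0,k0],[k1,k0,k0,k0,k1,k0],[k1,k0,k1,k0,k1,k0],[k0,k2,k0,k0,k0,k0],[k0,k3,k0,k0,k0,k0],[k0,k2,k0,k0,
    k0,k1],[k0,k1,k0,k1,k0,k0],[k0,k1,k0,k1,k0,k1],[k0,k1,k0,k0,k0,k1],[k0,k0,k2,k0,k0,k0],[k0,k0,k3,k0,k0,k0],[k0,k0,
    k3,k0,k1,k0],[k0,k0,k2,k0,k1,k0],[k0,k0,k2,k0,k2,k0],[k0,k0,k1,k0,k1,k0],[k0,k0,k1,k0,k2,k0],[k0,k0,k0,k1,k0,k1],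
    [k0,k0,k0,k2,k0,k2],[k0,k0,k0,k1,k0,k2],[k0,k0,k0,k0,k2,k0],[k0,k0,k0,k0,k0,k2]]
    [.contra [z1],.ref k50 k0 [(z1,[z1,z0,z1,y1]),(z1,[y1,z0,z0,z1])],.contra [z1,z0,z1,y1],.contra [z1],
    .ref k21 k8 [(z1,[z1]),(z1,[z0,z0,y1,z1])],.ref k76 k6 [(z1,[z1,z0,y1]),(z1,[z0,z0,y1,z1])],.contra [y1,z0,z1],
    .contra [y1,z0,z1],.contra [y1,z0,z1],.contra [y1,z0,y2,z2],.contra [y1,z1,y3,z3],.contra [z1,z2,z3,y3],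
    .contra [z1,z1,z2,y2],.contra [z1,z1,z2,y2],.ref k50 k1 [(z1,[y1,z0,y1,z1]),(z1,[z0,z0,z1])],.ref k73 k1 [(z1,[y1,
    z0,y1,z1]),(z1,[z0,z0,z1])],.contra [y1,z0,z1],.ref k80 k7 [(z2,[z1]),(z1,[z0,z0,y1,z1])],.ref k79 k7 [(z1,[z1]),
    (z1,[z0,z0,y1,z1])],.contra [z1],.contra [z1]]),
    .old (.lp [k72,k84,k48,k120,k94,k60] [k26,k26,k40,k0,k38,k38,k2,k2,k15,k15,k32,k32] k0 [[k0,k0,k0,k0,k0,k0,k0,k0,k0,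
    k0,k12],[k0,k0,k0,k0,k0,k0,k0,k74],[k0,k0,k0,k0,k32],[],[k0,k0,k0,k0,k0,k0,k22],[k0,k0,k0,k32],[k74],[k0,k0,k0,k0,
    k0,k22],[],[],[],[k0,k12]] (nat_lit 240) k6
    [[(k0,k60),(k4,k60),(k8,k83)],[(k1,k60),(k5,k60),(k9,k157)],[(k6,k48),(k2,k84),(k10,k104)],[(k7,k50),(k11,k52),
    (k3,k84)],[(k0,k60),(k8,k71),(k4,k80)],[(k9,k49),(k1,k60),(k5,k80)],[(k2,k50),(k10,k90),(k6,k142)],[(k3,k48),(k11,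
    k90),(k7,k142)],[(k4,k49),(k8,k94),(k0,k157)],[(k5,k71),(k1,k83),(k9,k94)],[(k2,k52),(k10,k60),(k6,k90)],[(k11,
    k60),(k7,k90),(k3,k104)]]
    [] k0
    [[k2,k0,k0,k0,k0,k0],[k3,k0,k0,k0,k0,k0],[k2,k0,k1,k0,k0,k0],[k1,k0,k1,k0,k0,k0],[k1,k0,k2,k0,k0,k0],[k1,k0,k1,k0,
    k1,k0],[k0,k2,k0,k0,k0,k0],[k0,k2,k0,k1,k0,k0],[k0,k1,k0,k1,k0,k0],[k0,k2,k0,k2,k0,k0],[k0,k1,k0,k1,k0,k1],[k0,k1,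
    k0,k0,k0,k1],[k0,k1,k0,k0,k0,k2],[k0,k0,k2,k0,k0,k0],[k0,k0,k2,k0,k1,k0],[k0,k0,k1,k0,k1,k0],[k0,k0,k1,k0,k2,k0],
    [k0,k0,k0,k1,k0,k1],[k0,k0,k0,k0,k2,k0],[k0,k0,k0,k0,k0,k2],[k0,k0,k0,k0,k0,k3]]
    [.contra [z1],.ref k81 k9 [(z1,[z1]),(z1,[z0,y1,z1])],.ref k61 k11 [(z1,[z1,y2]),(z1,[y1,z1,z1])],
    .ref k50 k0 [(z1,[y1,z1]),(z1,[z0,y1,z1])],.ref k73 k0 [(z1,[y1,z1]),(z1,[z0,y1,z1])],.contra [z1,y1],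
    .contra [z1],.ref k79 k6 [(z1,[z1]),(z1,[z0,z1])],.contra [y1,y1,z1],.ref k80 k3 [(z2,[z1]),(z1,[z0,z1])],
    .contra [y1,y1,z1],.contra [y1,y1,z1],.ref k76 k7 [(z1,[z1,z1,y1]),(z1,[z0,z1])],.contra [z1],.ref k73 k9 [(z1,
    [y1,z1]),(z1,[z0,y1,z1])],.ref k50 k5 [(z1,[z1,y1]),(z1,[y1,z0,z1])],.ref k61 k5 [(z1,[z1,y2]),(z1,[y1,z1,z1])],
    .contra [y1,y1,z1],.contra [y1,z2],.contra [z1],.ref k21 k7 [(z1,[z1]),(z1,[z0,z1])]]),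
    .old (.lp [k12,k16,k18,k16,k16,k16] [k3,k3,k1,k1,k0,k0,k1,k1,k1,k1,k1,k1] k0 [] k48 k5
    [[(k0,k12),(k8,k14),(k4,k15)],[(k1,k12),(k9,k14),(k5,k15)],[(k2,k16),(k6,k16),(k10,k16)],[(k3,k16),(k7,k16),(k11,
    k16)],[(k0,k15),(k8,k17),(k4,k18)],[(k1,k15),(k9,k17),(k5,k18)],[(k2,k16),(k6,k16),(k10,k16)],[(k3,k16),(k7,k16),
    (k11,k16)],[(k0,k14),(k8,k16),(k4,k17)],[(k1,k14),(k9,k16),(k5,k17)],[(k2,k16),(k6,k16),(k10,k16)],[(k3,k16),(k7,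
    k16),(k11,k16)]]
    [] k0
    [[k2,k0,k0,k0,k0,k0],[k3,k0,k0,k0,k0,k0],[k2,k0,k1,k0,k0,k0],[k2,k0,k0,k0,k1,k0],[k1,k0,k1,k0,k0,k0],[k1,k0,k1,k0,
    k1,k0],[k1,k0,k0,k0,k1,k0],[k1,k0,k0,k0,k2,k0],[k0,k2,k0,k0,k0,k0],[k0,k1,k0,k1,k0,k0],[k0,k1,k0,k0,k0,k1],[k0,k0,
    k2,k0,k0,k0],[k0,k0,k1,k0,k1,k0],[k0,k0,k0,k2,k0,k0],[k0,k0,k0,k1,k0,k1],[k0,k0,k0,k0,k2,k0],[k0,k0,k0,k0,k0,k2]]
    [.contra [z1],.ref k0 k1 [(z4,[z1,y3,y4,z4])],.ref k0 k1 [(z2,[z1,y1,y1,z1])],.ref k0 k1 [(z3,[z1,y2,y3,z3])],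
    .contra [z1,z0,z1,y1],.ref k0 k1 [(z1,[z1])],.ref k82 k1 [(z1,[z1])],.ref k0 k1 [(z2,[z1,y1,y2,z2])],.contra [z1],
    .ref k82 k3 [(z1,[z1])],.ref k82 k8 [(z1,[z1])],.contra [z1],.contra [y2,y2,y3,z3],.contra [z1],.ref k82 k7 [(z1,
    [z1])],.contra [z1],.contra [z1]]),
    .old (.lp [(nat_lit 254),(nat_lit 222),(nat_lit 266),(nat_lit 222),(nat_lit 242),(nat_lit 222)] [k6,k6,k22,k22,k0,k0,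
    k22,k22,k12,k12,k22,k22] k0 [[k0,k0,k54],[],[],[k0,k54],[k0,k0,k0,k0,k0,k0,k54],[],[],[k0,k0,k0,k0,k0,k54],[k0,k0,
    k0,k0,k0,k0,k0,k0,k0,k0,k18],[],[],[k0,k0,k0,k0,k0,k0,k0,k0,k0,k18]] (nat_lit 720) k5
    [[(k8,(nat_lit 230)),(k0,(nat_lit 254)),(k4,(nat_lit 260))],[(k5,(nat_lit 206)),(k9,(nat_lit 248)),(k1,
    (nat_lit 254))],[(k6,(nat_lit 222)),(k10,(nat_lit 222)),(k2,(nat_lit 276))],[(k7,(nat_lit 222)),(k11,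
    (nat_lit 222)),(k3,(nat_lit 276))],[(k0,(nat_lit 206)),(k8,(nat_lit 254)),(k4,(nat_lit 266))],[(k9,(nat_lit 200)),
    (k1,(nat_lit 260)),(k5,(nat_lit 266))],[(k2,(nat_lit 222)),(k10,(nat_lit 222)),(k6,(nat_lit 276))],[(k3,
    (nat_lit 222)),(k11,(nat_lit 222)),(k7,(nat_lit 276))],[(k4,(nat_lit 200)),(k8,(nat_lit 242)),(k0,(nat_lit 248))],
    [(k1,(nat_lit 230)),(k9,(nat_lit 242)),(k5,(nat_lit 254))],[(k2,(nat_lit 222)),(k6,(nat_lit 222)),(k10,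
    (nat_lit 240))],[(k3,(nat_lit 222)),(k7,(nat_lit 222)),(k11,(nat_lit 240))]]
    [] k0
    [[k2,k0,k0,k0,k0,k0],[k1,k0,k1,k0,k0,k0],[k1,k0,k0,k0,k1,k0],[k1,k0,k1,k0,k1,k0],[k0,k2,k0,k0,k0,k0],[k0,k1,k0,k1,
    k0,k0],[k0,k1,k0,k1,k0,k1],[k0,k1,k0,k0,k0,k1],[k0,k1,k0,k0,k0,k2],[k0,k0,k2,k0,k0,k0],[k0,k0,k1,k0,k1,k0],[k0,k0,
    k1,k0,k2,k0],[k0,k0,k0,k2,k0,k0],[k0,k0,k0,k1,k0,k1],[k0,k0,k0,k1,k0,k2],[k0,k0,k0,k0,k2,k0],[k0,k0,k0,k0,k0,k2]]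
    [.contra [z1],.ref k82 k5 [(z1,[z1])],.contra [y1,z1],.ref k0 k1 [(z1,[z1])],.contra [z1],.contra [y1,z0,z1],
    .ref k0 k1 [(z1,[y1,z0,z0,z1])],.ref k82 k8 [(z1,[z1])],.ref k83 k2 [(z1,[y2,z0,z1]),(z1,[z1,z0,y1,z1])],
    .contra [z1],.ref k82 k0 [(z1,[z1])],.ref k83 k5 [(z1,[z1,y2]),(z1,[y1,z1,z0,z1])],.contra [z1],.ref k82 k7 [(z1,
    [z1])],.ref k0 k1 [(z2,[y1,z0,y1,z2])],.contra [z1],.contra [z1]]),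
    .old (.lp [(nat_lit 2660),(nat_lit 2280),(nat_lit 2660),(nat_lit 2660),(nat_lit 2660),(nat_lit 2940)] [(nat_lit 665),
    (nat_lit 665),(nat_lit 855),(nat_lit 855),(nat_lit 665),(nat_lit 665),(nat_lit 665),(nat_lit 665),(nat_lit 1330),
    k0,(nat_lit 525),(nat_lit 525)] k0 [[k0,k0,(nat_lit 532)],[],[],[k0,(nat_lit 532)],[k0,k0,k0,k0,k0,k0,
    (nat_lit 1330)],[k0,k0,k0,k0,k0,k0,k0,k0,k0,k0,k0,(nat_lit 532)],[],[k0,k0,k0,k0,k0,(nat_lit 1330)],[],[],[k0,k0,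
    k0,k0,(nat_lit 532)]] (nat_lit 7980) k5
    [[(k8,(nat_lit 1995)),(k0,(nat_lit 2660)),(k4,(nat_lit 3192))],[(k5,(nat_lit 2128)),(k1,(nat_lit 2660)),(k9,
    (nat_lit 3325))],[(k6,(nat_lit 2470)),(k10,(nat_lit 2610)),(k2,(nat_lit 2812))],[(k7,(nat_lit 2470)),(k11,
    (nat_lit 2610)),(k3,(nat_lit 2812))],[(k8,(nat_lit 1995)),(k0,(nat_lit 2128)),(k4,(nat_lit 2660))],[(k9,
    (nat_lit 1995)),(k5,(nat_lit 2660)),(k1,(nat_lit 3192))],[(k10,(nat_lit 2268)),(k2,(nat_lit 2470)),(k6,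
    (nat_lit 3990))],[(k3,(nat_lit 2470)),(k11,(nat_lit 2800)),(k7,(nat_lit 3990))],[(k4,(nat_lit 1995)),(k8,
    (nat_lit 2660)),(k0,(nat_lit 3325))],[(k1,(nat_lit 1995)),(k5,(nat_lit 1995)),(k9,(nat_lit 2660))],[(k2,
    (nat_lit 2610)),(k6,(nat_lit 2800)),(k10,(nat_lit 2940))],[(k7,(nat_lit 2268)),(k3,(nat_lit 2610)),(k11,
    (nat_lit 2940))]]
    [] k0
    [[k2,k0,k0,k0,k0,k0],[k1,k0,k1,k0,k0,k0],[k1,k0,k0,k0,k1,k0],[k1,k0,k1,k0,k1,k0],[k0,k2,k0,k0,k0,k0],[k0,k2,k0,k1,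
    k0,k0],[k0,k1,k0,k1,k0,k0],[k0,k1,k0,k1,k0,k1],[k0,k1,k0,k0,k0,k1],[k0,k0,k2,k0,k0,k0],[k0,k0,k2,k0,k1,k0],[k0,k0,
    k1,k0,k1,k0],[k0,k0,k1,k0,k2,k0],[k0,k0,k0,k1,k0,k1],[k0,k0,k0,k0,k2,k0],[k0,k0,k0,k0,k0,k2]]
    [.contra [z1],.ref k82 k5 [(z1,[z1])],.contra [y1,z1],.ref k0 k1 [(z1,[z1])],.contra [z1],.ref k84 k1 [(z1,[z0,
    z1]),(z1,[z1])],.ref k82 k3 [(z1,[z1])],.ref k0 k1 [(z1,[y1,z0,z1])],.ref k82 k8 [(z1,[z1])],.contra [z1],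
    .ref k0 k1 [(z2,[z1,z1])],.ref k82 k0 [(z1,[z1])],.ref k83 k5 [(z1,[z1,y2]),(z1,[y1,z1,z1])],.ref k82 k7 [(z1,
    [z1])],.contra [z1],.contra [z1]]),
    .old (.lp [(nat_lit 242),(nat_lit 222),(nat_lit 266),(nat_lit 222),(nat_lit 254),(nat_lit 222)] [k12,k12,k22,k22,k0,
    k0,k22,k22,k6,k6,k22,k22] k0 [[k0,k0,k54],[],[],[k0,k54],[k0,k0,k0,k0,k0,k0,k54],[],[],[k0,k0,k0,k0,k0,k54],[k0,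
    k0,k0,k0,k0,k0,k0,k0,k0,k0,k18],[],[],[k0,k0,k0,k0,k0,k0,k0,k0,k0,k18]] (nat_lit 720) k5
    [[(k8,(nat_lit 230)),(k0,(nat_lit 242)),(k4,(nat_lit 254))],[(k5,(nat_lit 200)),(k1,(nat_lit 242)),(k9,
    (nat_lit 248))],[(k6,(nat_lit 222)),(k10,(nat_lit 222)),(k2,(nat_lit 276))],[(k7,(nat_lit 222)),(k11,
    (nat_lit 222)),(k3,(nat_lit 276))],[(k0,(nat_lit 200)),(k8,(nat_lit 260)),(k4,(nat_lit 266))],[(k9,(nat_lit 206)),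
    (k1,(nat_lit 254)),(k5,(nat_lit 266))],[(k2,(nat_lit 222)),(k10,(nat_lit 222)),(k6,(nat_lit 276))],[(k3,
    (nat_lit 222)),(k11,(nat_lit 222)),(k7,(nat_lit 276))],[(k4,(nat_lit 206)),(k0,(nat_lit 248)),(k8,(nat_lit 254))],
    [(k1,(nat_lit 230)),(k9,(nat_lit 254)),(k5,(nat_lit 260))],[(k2,(nat_lit 222)),(k6,(nat_lit 222)),(k10,
    (nat_lit 240))],[(k3,(nat_lit 222)),(k7,(nat_lit 222)),(k11,(nat_lit 240))]]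
    [] k0
    [[k2,k0,k0,k0,k0,k0],[k2,k0,k1,k0,k0,k0],[k1,k0,k1,k0,k0,k0],[k1,k0,k0,k0,k1,k0],[k1,k0,k1,k0,k1,k0],[k0,k2,k0,k0,
    k0,k0],[k0,k1,k0,k1,k0,k0],[k0,k1,k0,k1,k0,k1],[k0,k1,k0,k0,k0,k1],[k0,k1,k0,k0,k0,k2],[k0,k0,k2,k0,k0,k0],[k0,k0,
    k1,k0,k1,k0],[k0,k0,k0,k2,k0,k0],[k0,k0,k0,k1,k0,k1],[k0,k0,k0,k1,k0,k2],[k0,k0,k0,k0,k2,k0],[k0,k0,k0,k0,k0,k2]]
    [.contra [z1],.ref k85 k9 [(z1,[z1])],.ref k82 k5 [(z1,[z1])],.ref k82 k1 [(z1,[z1])],.ref k0 k1 [(z1,[z1])],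
    .contra [z1],.ref k82 k3 [(z1,[z1])],.ref k0 k1 [(z1,[y1,z1])],.ref k82 k8 [(z1,[z1])],.ref k85 k10 [(z1,[z1])],
    .contra [z1],.ref k82 k0 [(z1,[z1])],.contra [z1],.ref k82 k7 [(z1,[z1])],.ref k85 k7 [(z1,[z1])],.contra [z1],
    .contra [z1]])]

/-- the nodes with numbers from 66 -/
noncomputable def cU6_37_n2 : List XN :=
  cU6_37_n2_0 ++ cU6_37_n2_1

theorem cU6_37_k2 : allI (chkX 6 cU6_37_w ttU6 cU6_37_s (blkF [] cU6_37_D)) cU6_37_n2 66 = true := by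
  decide +kernel

end Pool.Agent.Lib_MP_fa6e45
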