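import Pool.Agent.Lib_MP_fa6e45.CXA
import Pool.Agent.Lib_MP_fa6e45.CY6_5_0
import Pool.Agent.Lib_MP_fa6e45.CY6_5_1
import Pool.Agent.Lib_MP_fa6e45.CY6_5_2

/-!
MP_fa6e45_co, stage 7: certificates (generated by a program).
-/

namespace Pool.Agent.Lib_MP_fa6e45

/-- the certificate -/
noncomputable def cU6_37 : CertX :=
  ⟨cU6_37_w, cU6_37_s, cU6_37_D,
    cU6_37_n0 ++ (cU6_37_n1 ++ cU6_37_n2)⟩

theorem cU6_37_ok : chkE 6 ttU6 cU6_37 = true := by
  refine chkE_of (by decide +kernel) (by decide +kernel) ?_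
  refine allI_appX (k := 52) cU6_37_k0 (by decide +kernel) ?_
  refine allI_appX (k := 66) cU6_37_k1 (by decide +kernel) ?_
  exact cU6_37_k2

/-- the certificates of this file -/
noncomputable def lU6_5 : List CertX := [cU6_37]

theorem gU6_5 : allF (chkE 6 ttU6) lU6_5 = true := by
  unfold lU6_5
  change (bif chkE 6 ttU6 cU6_37 then true else false) = true
  rw [cU6_37_ok]
  rfl

end Pool.Agent.Lib_MP_fa6e45
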