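import Pool.Agent.Lib_MP_fa6e45.CXT
import Pool.Agent.Lib_MP_fa6e45.HK

/-!
MP_fa6e45_co, stage 7: certificates (generated by a program).
-/

namespace Pool.Agent.Lib_MP_fa6e45

/-- classes `0 0 0 0 0 0`, types `N0 N1 N0 N1 N0 N1` -/
noncomputable def cU6_37_w : List ℕ := [k12,k13,k12,k13,k12,k13]

/-- symmetries -/
noncomputable def cU6_37_s : List (Bool × ℕ × List ℕ) :=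
  [(false,k2,[k2,k3,k4,k5,k0,k1]),(false,k0,[k0,k1,k2,k3,k4,k5]),(true,k3,[k3,k2,k1,k0,k5,k4]),(false,k3,[k3,k4,k5,k0,
    k1,k2]),(true,k4,[k4,k3,k2,k1,k0,k5]),(false,k4,[k4,k5,k0,k1,k2,k3]),(true,k1,[k1,k0,k5,k4,k3,k2]),(false,k1,[k1,
    k2,k3,k4,k5,k0]),(false,k5,[k5,k0,k1,k2,k3,k4]),(true,k0,[k0,k5,k4,k3,k2,k1]),(true,k5,[k5,k4,k3,k2,k1,k0]),(true,
    k2,[k2,k1,k0,k5,k4,k3])]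

/-- equations of the nodes, part 0 -/
noncomputable def cU6_37_D0 : List (List (List Eqn)) :=
  [[[([z1,z0,z1,z0,z1,z0],z2)],[([z3,z0,z0,z0,z0,z0],z2),([z0,z3,z0,z0,z0,z3],z2),([z0,z0,z1,z0,z1,z0],z2)],[([z3,z0,
    z0,z0,z0,z0],z1),([z0,z1,z0,z0,z0,z1],z1),([z0,z0,z1,z0,z1,z0],z2)],[([z1,z0,z0,z0,y1,z0],z0),([z0,z3,z0,z0,z0,
    z0],z2),([z0,z0,z1,z0,z1,z0],z2),([z0,z0,z0,z3,z3,z0],z2)],[([z1,z0,z0,z0,y1,z0],z0),([z0,z3,z0,z0,z0,z0],z2),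
    ([z0,z0,z1,z0,z1,z0],z2),([z0,z0,z0,z6,z6,z0],z5)],[([z3,z0,z0,z0,z0,y6],y10),([z0,z1,z0,z0,z0,z1],z2),([z0,z0,z3,
    z0,z0,z3],z8),([z0,z0,z0,z1,z0,z1],z2)],[([z3,z0,z0,z0,z0,y6],y2),([z0,z3,z0,z0,z0,z0],z2),([z0,z0,z3,z0,z0,z6],
    z8),([z0,z0,z0,z1,z0,z3],z2)],[([z3,z0,z0,z0,z0,y3],y2),([z0,z1,z0,z0,z0,z2],z2),([z0,z0,z3,z0,z0,y3],y2),([z0,z0,
    z0,z3,z0,z0],z2)],[([z1,z0,z0,z0,y1,z0],z0),([z0,z3,z0,z0,z0,z0],z2),([z0,z0,z1,z0,z1,z0],z2),([z0,z0,z0,z9,z9,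
    z0],z8)],[([z3,z0,z0,z0,z0,y6],y8),([z0,z1,z0,z0,z0,z1],z2),([z0,z0,z1,z0,z0,z1],z2),([z0,z0,z0,z1,z0,z1],z2)],
    [([z1,z0,z0,z0,z0,y1],z0),([z0,z1,z0,z0,z0,z1],z2),([z0,z0,z3,z0,z0,z0],z2),([z0,z0,z0,z1,z0,y1],z0)],[([z1,z0,z0,
    z0,y1,z0],z0),([z0,z3,z0,z0,z0,z0],z2),([z0,z0,z1,z0,z1,z0],z2),([z0,z0,z0,z1,z1,z0],z1)]],
    [[([z1,z0,z0,z0,y1,z0],z0),([z0,z3,z0,z0,z0,z0],z2),([z0,z0,z1,z0,z1,z0],z2)],[([z3,z0,z0,z0,z0,y3],y2),([z0,z1,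
    z0,z0,z0,z2],z2),([z0,z0,z3,z0,z0,y6],y4),([z0,z0,z0,z3,z0,z0],z2)],[([z3,z0,z0,z0,z0,y6],y4),([z0,z3,z0,z0,z0,
    z0],z2),([z0,z0,z3,z0,z0,z6],z10),([z0,z0,z0,z1,z0,z2],z2)],[([z3,z0,z0,z0,z0,y3],y2),([z0,z1,z0,z0,z0,z2],z2),
    ([z0,z0,z1,z0,z0,y3],y2),([z0,z0,z0,z3,z0,z0],z2)],[([z3,z0,z0,z0,z0,y3],y2),([z0,z1,z0,z0,z0,z2],z2),([z0,z0,z1,
    z0,z1,z0],z2)],[([z5,z0,z0,z0,z0,z0],z2),([z0,z15,z0,z0,z0,z15],z14),([z0,z0,z5,z0,z0,z0],z4),([z0,z0,z0,z3,z0,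
    z0],z2)],[([z1,z0,z0,z0,y2,z0],z0),([z0,z3,z0,z0,z0,z0],z2),([z0,z0,z1,z0,z2,z0],z2)],[([z1,z0,z0,z0,y2,z0],y2),
    ([z0,z3,z0,z0,z6,z3],z10),([z0,z0,z1,z0,z1,z0],z2)],[([z3,z0,z0,z0,z0,z0],z2),([z0,z3,z0,z0,z0,z0],z2),([z0,z0,z3,
    z0,z0,z0],z4)],[([z3,z0,z0,z0,z0,z0],z2),([z0,z1,z0,z0,z0,z1],z2)],[([z3,z0,z0,z0,z0,z0],z1),([z0,z1,z0,z0,z0,z1],
    z2),([z0,z0,z1,z0,z1,z0],z1)],[([z1,z0,z0,z0,y1,z0],z0),([z0,z3,z0,z0,z0,z0],z1),([z0,z0,z1,z0,z1,z0],z2),([z0,z0,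
    z0,z1,z1,z0],z1)]],
    [[([z1,z0,z0,z0,y1,z0],z0),([z0,z9,z0,z0,z0,z0],z4),([z0,z0,z1,z0,z1,z0],z2),([z0,z0,z0,z9,z9,z0],z8)],[([z1,z0,
    z0,z0,y1,z0],z0),([z0,z2,z0,z0,z0,z0],z1),([z0,z0,z1,z0,z1,z0],z2),([z0,z0,z0,z6,z6,z0],z5)],[([z3,z0,z0,z0,z0,
    z0],z2),([z0,z3,z0,z0,z0,z0],z2),([z0,z0,z3,z0,z0,z0],z2),([z0,z0,z0,z3,z0,z3],z2)],[([z2,z0,z0,z0,z0,z0],z1),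
    ([z0,z3,z0,z0,z0,z0],z2),([z0,z0,z2,z0,z0,z0],z1),([z0,z0,z0,z6,z0,z6],z5)],[([z1,z0,z0,z0,y1,z0],z0),([z0,z3,z0,
    z3,z3,z0],z4),([z0,z0,z1,z0,z1,z0],z2)],[([z2,z0,z0,z0,z0,z0],z1),([z0,z3,z0,z0,z0,z0],z2),([z0,z0,z6,z0,z6,z0],
    z5),([z0,z0,z0,z3,z0,z0],z2)],[([z3,z0,z0,z0,y3,z0],y2),([z0,z3,z0,z0,z0,z0],z2),([z0,z0,z1,z0,z2,z0],z2),([z0,z0,
    z0,z3,z0,z0],z2)],[([z3,z0,z0,z0,y6,z0],y2),([z0,z3,z0,z0,z0,z0],z2),([z0,z0,z1,z0,z3,z0],z2),([z0,z0,z0,z3,z0,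
    z0],z2)],[([z3,z0,z0,z0,y3,z0],y2),([z0,z3,z0,z0,z0,z0],z4),([z0,z0,z1,z0,z2,z0],z2),([z0,z0,z0,z3,z0,z0],z2)],
    [([z3,z0,z0,z0,y6,z0],y2),([z0,z3,z0,z0,z0,z0],z4),([z0,z0,z1,z0,z3,z0],z2),([z0,z0,z0,z3,z0,z0],z2)],[([z3,z0,z0,
    z0,z0,z0],z2),([z0,z3,z0,z3,z0,z3],z4),([z0,z0,z3,z0,z0,z0],z2)],[([z1,z0,z1,z0,z0,z0],z2),([z0,z2,z0,z0,z0,z0],
    z1),([z0,z0,z0,z1,z0,z1],z1)]],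
    [[([z2,z0,z0,z0,y2,z0],y1),([z0,z2,z0,z0,z0,z0],z1),([z0,z0,z1,z0,z2,z0],z2),([z0,z0,z0,z2,z0,z0],z1)],[([z2,z0,
    z0,z0,y4,z0],y1),([z0,z2,z0,z0,z0,z0],z1),([z0,z0,z1,z0,z3,z0],z2),([z0,z0,z0,z2,z0,z0],z1)],[([z2,z0,z0,z0,z0,
    z0],z1),([z0,z2,z0,z2,z0,z2],z3),([z0,z0,z2,z0,z0,z0],z1)],[([z1,z0,z0,z0,z0,y3],z0),([z0,z1,z0,z0,z0,y4],y2),
    ([z0,z0,z1,z0,z0,z3],z2),([z0,z0,z0,z1,z0,z2],z2)],[([z1,z0,z0,z0,z0,y4],y6),([z0,z1,z0,z0,z0,z1],z2),([z0,z0,z1,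
    z0,z0,z2],z4),([z0,z0,z0,z1,z0,z1],z2)],[([z2,z0,z0,z0,z0,y3],y4),([z0,z1,z0,z0,z0,z1],z2),([z0,z0,z2,z0,z0,y1],
    z0),([z0,z0,z0,z1,z0,z1],z2)],[([z1,z0,z0,z0,y1,y1],z0),([z0,z1,z0,z0,z0,y1],z0),([z0,z0,z1,z0,z2,z2],z2)],[([z1,
    z0,z0,z0,z0,y2],z0),([z0,z1,z0,z0,z0,z1],z2),([z0,z0,z1,z0,z0,y1],z0),([z0,z0,z0,z1,z0,y1],z0)],[([z1,z0,z0,z0,z0,
    y2],y3),([z0,z1,z0,z0,z0,z1],z2),([z0,z0,z1,z0,z0,z2],z4),([z0,z0,z0,z1,z0,z1],z2)],[([z1,z0,z0,z0,z0,y3],z0),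
    ([z0,z1,z0,z0,z0,z1],z2),([z0,z0,z1,z0,z0,y2],z0),([z0,z0,z0,z1,z0,y1],z0)],[([z2,z0,z0,z0,z0,y2],y1),([z0,z1,z0,
    z0,z0,z2],z2),([z0,z0,z2,z0,z0,y2],y1),([z0,z0,z0,z2,z0,z0],z1)],[([z5,z0,z0,z0,z0,y5],y2),([z0,z1,z0,z0,z0,z2],
    z2),([z0,z0,z5,z0,z0,y5],y2),([z0,z0,z0,z5,z0,z0],z2)]],
    [[([z1,z0,z0,z0,y1,y1],y2),([z0,z1,z0,z0,z0,z1],z2),([z0,z0,z1,z0,z2,z0],z2)],[([z1,z0,z0,z0,y1,z0],z0),([z0,z2,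
    z0,z0,z0,z0],z1),([z0,z0,z1,z0,z1,z0],z2)],[([z1,z0,z0,z0,y1,z0],z0),([z0,z1,z0,z1,z1,z1],z2)],[([z1,z0,z0,z0,z0,
    y4],y3),([z0,z1,z0,z0,z0,z2],z2),([z0,z0,z2,z0,z0,z4],z5),([z0,z0,z0,z1,z0,z1],z2)],[([z5,z0,z0,z0,z0,z0],z1),
    ([z0,z5,z0,z0,z0,z0],z4),([z0,z0,z5,z0,z0,z0],z4),([z0,z0,z0,z5,z0,z0],z2),([z0,z0,z0,z0,z5,z0],z3)],[([z5,z0,z0,
    z0,y5,z0],y2),([z0,z5,z0,z0,z0,z0],z4),([z0,z0,z1,z0,z2,z0],z2),([z0,z0,z0,z5,z0,z0],z2)],[([z1,z0,z0,z0,y2,z0],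
    y2),([z0,z1,z0,z0,z0,z2],z2),([z0,z0,z1,z0,z1,z0],z2)],[([z5,z0,z0,z0,z0,z0],z2),([z0,z1,z0,z0,z0,z1],z1),([z0,z0,
    z5,z0,z0,z0],z4),([z0,z0,z0,z5,z0,z0],z3)],[([z1,z0,z0,z0,y2,z0],y2),([z0,z1,z0,z0,z0,z1],z1),([z0,z0,z1,z0,z1,
    z0],z2)],[([z5,z0,z0,z0,y5,z0],y2),([z0,z5,z0,z0,z0,z0],z6),([z0,z0,z1,z0,z2,z0],z2),([z0,z0,z0,z5,z0,z0],z2)],
    [([z5,z0,z0,z0,z0,z0],z2),([z0,z3,z0,z0,z0,z0],z2),([z0,z0,z5,z0,z0,z0],z4),([z0,z0,z0,z15,z0,z15],z14)],[([z5,z0,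
    z0,z0,y10,z0],y2),([z0,z5,z0,z0,z0,z0],z6),([z0,z0,z1,z0,z3,z0],z2),([z0,z0,z0,z5,z0,z0],z2)]],
    [[([z5,z0,z0,z0,z0,z0],z2),([z0,z5,z0,z5,z0,z5],z8),([z0,z0,z5,z0,z0,z0],z4)],[([z1,z0,z0,z0,y2,z0],y2),([z0,z1,
    z0,z1,z2,z1],z4)],[([z1,z0,z0,z0,z0,y2],z0),([z0,z1,z0,z0,z0,z2],z2),([z0,z0,z1,z0,z0,y1],z0),([z0,z0,z0,z1,z0,
    y2],z0)],[([z3,z0,z0,z0,y3,z0],y1),([z0,z3,z0,z0,z0,z0],z2),([z0,z0,z1,z0,z2,z0],z2),([z0,z0,z0,z3,z0,z0],z1)],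
    [([z7,z0,z0,z0,y7,z0],y2),([z0,z7,z0,z0,z0,z0],z4),([z0,z0,z1,z0,z2,z0],z2),([z0,z0,z0,z7,z0,z0],z2)],[([z4,z0,z0,
    z0,y4,z0],y1),([z0,z2,z0,z0,z0,z0],z1),([z0,z0,z1,z0,z2,z0],z2),([z0,z0,z0,z4,z0,z0],z1)],[([z1,z0,z0,z0,y2,z0],
    z0),([z0,z2,z0,z0,z2,z1],z2),([z0,z0,z1,z0,z2,z0],z2)],[([z1,z0,z0,z0,z0,y6],y2),([z0,z1,z0,z0,z0,y4],y2),([z0,z0,
    z1,z0,z0,z3],z2),([z0,z0,z0,z1,z0,z2],z2)],[([z1,z0,z0,z0,z0,y2],z0),([z0,z1,z0,z0,z0,y2],y1),([z0,z0,z1,z0,z0,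
    z1],z1),([z0,z0,z0,z1,z0,z2],z2)],[([z3,z0,z0,z0,y3,z0],y1),([z0,z3,z0,z0,z0,z0],z1),([z0,z0,z1,z0,z2,z0],z2),
    ([z0,z0,z0,z3,z0,z0],z2)],[([z1,z0,z0,z0,y2,z0],z0),([z0,z2,z0,z0,z0,z1],z2),([z0,z0,z1,z0,z2,z0],z2)],[([z3,z0,
    z0,z0,y3,z0],y1),([z0,z3,z0,z0,z0,z0],z4),([z0,z0,z1,z0,z2,z0],z2),([z0,z0,z0,z3,z0,z0],z1)]],
    [[([z3,z0,z0,z0,z0,z0],z1),([z0,z3,z0,z3,z0,z3],z5),([z0,z0,z3,z0,z0,z0],z2)],[([z1,z0,z0,z0,y2,z0],z0),([z0,z1,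
    z0,z1,z1,z1],z2)],[([z1,z0,z0,z0,y4,z0],y2),([z0,z1,z0,z0,z3,z0],z2),([z0,z0,z1,z0,z2,z0],z2)],[([z1,z0,z0,z0,y2,
    z0],y1),([z0,z1,z0,z0,z1,z0],z1),([z0,z0,z1,z0,z2,z0],z2)],[([z1,z0,z0,y1,y1,z0],z0),([z0,z1,z0,z0,z0,z1],z2)],
    [([z2,z0,z0,z0,z0,y2],y1),([z0,z1,z0,z0,z0,z2],z2),([z0,z0,z1,z0,z1,z0],z2)],[([z3,z0,z0,z0,z0,z0],z2),([z0,z3,z0,
    z0,z3,z0],z2),([z0,z0,z3,z0,z0,z0],z2)],[([z2,z0,z0,z0,z1,z0],z2),([z0,z1,z0,z1,z0,z0],z2)],[([z1,z0,z0,z0,z1,z0],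
    z1),([z0,z1,z0,z1,z0,z0],z2)],[([z3,z0,z0,z0,z0,z0],z2),([z0,z1,z0,z1,z1,z1],z2)],[([z1,z0,z0,z0,z1,z0],z2)],
    [([z1,z0,z0,z0,y4,z0],y2),([z0,z1,z0,z1,z3,z1],z4)]],
    [[([z2,z0,z0,z0,z1,z0],z2),([z0,z2,z0,z1,z0,z0],z2)],[([z2,z0,z0,z0,z1,z0],z2)],[]]]

/-- equations of the nodes -/
noncomputable def cU6_37_D : List (List (List Eqn)) :=
  cU6_37_D0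

end Pool.Agent.Lib_MP_fa6e45
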