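import Pool.Agent.Lib_MP_fa6e45.CXT
import Pool.Agent.Lib_MP_fa6e45.HK

/-!
MP_fa6e45_co, stage 7: certificates (generated by a program).
-/

namespace Pool.Agent.Lib_MP_fa6e45

/-- classes `0 0 0 0 0 0`, types `N0 N1 N0 N1 N0 N2` -/
noncomputable def cU6_38 : CertX :=
  ⟨[k12,k13,k12,k13,k12,k14],[(true,k5,[k5,k4,k3,k2,k1,k0]),(false,k0,[k0,k1,k2,k3,k4,k5])],[[[([z3,z0,z0,z0,z0,z3],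
    z2),([z0,z3,z0,z0,z0,z0],z2),([z0,z0,z3,z0,z0,z0],z2),([z0,z0,z0,z3,z0,z0],z4)],[([z1,z0,z0,z0,y1,z1],z0),([z0,z3,
    z0,z0,z3,z0],z4),([z0,z0,z1,z0,z1,z0],z2)],[([z1,z0,z0,z0,y1,z1],z0),([z0,z1,z0,z1,z1,z0],z2)],[([z3,z0,z0,z0,z0,
    z3],z2),([z0,z3,z0,z0,z0,z0],z2),([z0,z0,z3,z0,z0,z0],z2),([z0,z0,z0,z3,z0,z0],z2)],[([z2,z0,z0,z0,z1,z2],z2),
    ([z0,z2,z0,z0,y1,z0],z2),([z0,z0,z2,z0,z1,z0],z2)],[([z1,z0,z0,y1,z0,z1],z0),([z0,z1,z0,z1,z0,z0],z2)],[([z1,z0,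
    z1,z0,z1,z1],z2)],[([z1,z0,z0,z0,z1,z1],z2),([z0,z1,z0,z0,y1,z0],z0),([z0,z0,z2,z0,z1,z0],z2)],[([z2,z0,z0,y2,z1,
    z2],z2),([z0,z1,z0,z2,z0,z0],z2)],[([z1,z0,z1,y1,z1,z1],z2)],[]]],
    [.geo false z3 k5 [(z2,y3),(z2,z0),(z2,z0),(z4,z0),(z2,z0),(z0,z3)] [(z1,[z1]),(z1,[z0,z1]),(z1,[z0,z0,z1]),(z1,[z0,z0,
    z0,z1]),(z1,[y1,y1,y1,y1,z3]),(z1,[])] z0 (Int.ofNat (nat_lit 2097152)) (.s (.l k1) (.l k1)) [],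
    .old (.lp [k18,k90,k120,k88,k82,k78] [k51,k51,k15,k15,k0,k0,k16,k16,k19,k19,k21,k21] k0 [[k0,k0,k0,k0,k0,k0,k2],[],
    [k0,k0,k0,k0,k0,k0,k0,k0,k36],[k0,k0,k0,k0,k0,k60],[k0,k0,k60],[k0,k0,k0,k0,k0,k0,k0,k2],[k0,k0,k0,k0,k2],[k0,k2],
    [k0,k0,k0,k0,k0,k0,k0,k0,k0,k0,k0,k24],[k0,k0,k0,k36],[k0,k0,k0,k0,k0,k0,k0,k0,k0,k24]] (nat_lit 240) k6
    [[(k7,k53),(k3,k54),(k11,k72)],[(k9,k48),(k10,k48),(k5,k69)],[(k1,k54),(k2,k90),(k6,k91)],[(k11,k48),(k3,k90),(k7,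
    k149)],[(k4,k60),(k0,k69),(k8,k137)],[(k5,k60),(k10,k99),(k9,k103)],[(k1,k53),(k6,k86),(k2,k149)],[(k11,k83),(k7,
    k86),(k3,k91)],[(k0,k48),(k8,k82),(k4,k103)],[(k10,k56),(k9,k82),(k5,k137)],[(k2,k48),(k1,k72),(k6,k83)],[(k0,
    k48),(k8,k56),(k4,k99)]]
    [] k0
    [[k1,k1,k0,k0,k0,k1],[k1,k1,k0,k0,k1,k1],[k1,k0,k0,k1,k0,k1],[k1,k0,k0,k0,k0,k1],[k1,k0,k0,k0,k1,k1],[k0,k2,k0,k0,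
    k0,k0],[k0,k0,k2,k0,k0,k0],[k0,k0,k3,k0,k0,k0],[k0,k0,k0,k2,k0,k0],[k0,k0,k0,k0,k2,k0]]
    [.contra [z1,y3,y1,y2,z2],.ref k0 k0 [(z1,[z3,z0,y1]),(z1,[z3,y3,y1]),(z1,[z0,y3,y1,y3,z3]),(z1,[y3,z3,z1,z3])],
    .contra [y1,z0,z0,y1,z1],.contra [y1,z1,z0,z1],.contra [y1,z1,z0,z2],.contra [z1],.contra [z1],.contra [z1,z0,z1,
    y3],.contra [z1],.contra [y1,z0,z0,z2]]),
    .old (.lp [k24,k80,k114,k74,k120,k64] [k48,k48,k20,k20,k3,k3,k23,k23,k0,k0,k28,k28] k0 [[],[k0,k0,k0,k0,k0,k0,k0,k0,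
    k0,k0,k4],[k0,k0,k0,k0,k0,k0,k0,k0,k6],[k0,k0,k0,k0,k0,k12],[k0,k0,k12],[],[],[],[k0,k0,k0,k0,k0,k0,k0,k0,k0,k0,
    k0,k38],[k0,k0,k0,k6],[k0,k0,k0,k0,k0,k0,k0,k0,k0,k38],[k4]] (nat_lit 240) k6
    [[(k3,k48),(k7,k49),(k11,k82)],[(k10,k48),(k5,k69),(k9,k72)],[(k1,k48),(k6,k77),(k2,k80)],[(k11,k66),(k3,k80),(k7,
    k89)],[(k0,k69),(k4,k102),(k8,k123)],[(k10,k89),(k5,k102),(k9,k117)],[(k1,k49),(k6,k74),(k2,k89)],[(k11,k69),(k7,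
    k74),(k3,k77)],[(k0,k72),(k4,k117),(k8,k120)],[(k10,k54),(k9,k120),(k5,k123)],[(k2,k66),(k6,k69),(k1,k82)],[(k0,
    k48),(k8,k54),(k4,k89)]]
    [] k0
    [[k1,k1,k0,k0,k0,k1],[k1,k0,k0,k1,k0,k1],[k1,k0,k0,k0,k0,k1],[k1,k0,k0,k0,k1,k1],[k0,k2,k0,k0,k0,k0],[k0,k1,k0,k1,
    k0,k0],[k0,k0,k2,k0,k0,k0],[k0,k0,k0,k2,k0,k0],[k0,k0,k0,k3,k0,k0]]
    [.contra [y1,z1,z1],.contra [y1,z1,z1],.contra [y1,z0,y1,z1],.contra [y1,y1,y2,z2],.contra [z1],.contra [y1,z0,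
    z1],.contra [z1],.contra [z1],.ref k1 k1 [(z1,[z0,z1]),(z1,[y1,z0,z3]),(z1,[z0,y1,y1,z1])]]),
    .geo false z3 k5 [(z2,y3),(z2,z0),(z2,z0),(z2,z0),(z4,z0),(z0,z3)] [(z1,[z1]),(z1,[z0,z1]),(z1,[z0,z0,z1]),(z1,[z0,z0,
    z0,z1]),(z1,[y1,y1,y1,y1,z3]),(z1,[])] z0 (Int.ofNat (nat_lit 2097152)) (.s (.s (.l k1) (.l k1)) (.l k1)) [],
    .old (.lp [(nat_lit 212),k120,k118,k116,k120,k28] [k0,k40,k66,k66,k67,k67,k68,k68,k66,k66,k112,k112] k0 [[k0,k0,k0,k0,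
    k0,k0,k114],[k0,k0,k0,k0,k0,k0,k0,k0,k0,k0,k4],[],[k0,k0,k0,k0,k0,k10],[k0,k0,k10],[k0,k0,k0,k0,k0,k0,k0,k14],[k0,
    k0,k0,k0,k14],[k0,k114],[k0,k0,k0,k0,k0,k0,k0,k0,k0,k0,k0,k2],[],[k0,k0,k0,k0,k0,k0,k0,k0,k0,k2],
    [k4]] (nat_lit 360) k6
    [[(k11,k102),(k3,k142),(k7,k144)],[(k9,k72),(k10,k144),(k5,k185)],[(k2,k120),(k1,k142),(k6,(nat_lit 232))],[(k11,
    k74),(k3,k120),(k7,k128)],[(k4,k108),(k8,k119),(k0,k185)],[(k10,k73),(k5,k108),(k9,k133)],[(k6,k102),(k2,k128),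
    (k1,k144)],[(k11,k72),(k7,k102),(k3,(nat_lit 232))],[(k0,k72),(k8,k120),(k4,k133)],[(k10,k72),(k5,k119),(k9,
    k120)],[(k6,k72),(k2,k74),(k1,k102)],[(k8,k72),(k4,k73),(k0,k144)]]
    [] k0
    [[k1,k0,k0,k0,k0,k1],[k1,k0,k0,k0,k1,k1],[k0,k2,k0,k0,k0,k0],[k0,k0,k2,k0,k0,k0],[k0,k0,k3,k0,k0,k0],[k0,k0,k1,k0,
    k1,k0],[k0,k0,k0,k2,k0,k0],[k0,k0,k0,k3,k0,k0],[k0,k0,k0,k0,k2,k0]]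
    [.contra [y2,z1,z1],.contra [y2,z1,z0,z1],.contra [z1],.contra [y1,z0,z1,z1],.ref k3 k0 [(z2,[z2,z3,z0,y3]),(z1,
    [y2,z0,z0,z3]),(z2,[z2,y3,y3,y6,z6]),(z1,[z1])],.contra [y1,z0,z0,z1],.contra [y1,y1,z0,y1,z2],.ref k3 k0 [(z2,
    [z2,z6,z3,z3,y6]),(z1,[y2,y3,y3,y3,z6]),(z1,[z1]),(z2,[z2,z3,z3,z6,y6])],.contra [z1]]),
    .old (.lp [k192,(nat_lit 240),k162,k160,k156,k48] [k22,k26,k0,k0,k39,k39,k40,k40,k42,k42,k96,k96] k0 [[k0,k0,k0,k0,k0,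
    k0,k80],[],[],[],[],[k0,k0,k0,k0,k0,k0,k0,k0,k0,k0,k72],[k0,k0,k0,k0,k0,k0,k0,k0,k8],[k0,k80],[k0,k0,k0,k0,k0,k0,
    k0,k0,k0,k0,k0,k6],[k0,k0,k0,k0,k0,k0,k0,k8],[k0,k0,k0,k0,k0,k0,k0,k0,k0,k6],[k0,k0,k0,k0,k72]] (nat_lit 480) k6
    [[(k7,k102),(k11,k124),(k3,(nat_lit 214))],[(k9,k96),(k10,k122),(k5,k179)],[(k1,(nat_lit 214)),(k2,(nat_lit 240)),
    (k6,(nat_lit 280))],[(k11,k144),(k7,(nat_lit 200)),(k3,(nat_lit 240))],[(k8,k159),(k4,k162),(k0,k179)],[(k9,k159),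
    (k5,k162),(k10,k177)],[(k1,k102),(k6,k160),(k2,(nat_lit 200))],[(k11,k96),(k7,k160),(k3,(nat_lit 280))],[(k0,k96),
    (k4,k159),(k8,k164)],[(k10,k96),(k5,k159),(k9,k164)],[(k6,k96),(k1,k124),(k2,k144)],[(k8,k96),(k0,k122),(k4,
    k177)]]
    [] k0
    [[k1,k0,k0,k1,k0,k1],[k1,k0,k0,k1,k1,k1],[k1,k0,k0,k0,k0,k1],[k1,k0,k0,k0,k1,k1],[k0,k0,k2,k0,k0,k0],[k0,k0,k1,k0,
    k1,k0],[k0,k0,k0,k2,k0,k0],[k0,k0,k0,k0,k2,k0]]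
    [.contra [y1,z1,z2],.ref k4 k1 [(z1,[z1,z1]),(z1,[y1,z1,z2]),(z1,[y1,y1,y2,z2])],.contra [y1,z1,z1],.contra [y1,
    z0,y1,z1],.contra [z1],.contra [y1,y1,y1,z1],.contra [y1,z0,z2],.contra [z1]]),
    .old (.lp [k12,k64,k40,k54,k40,k28] [k26,k26,k0,k0,k12,k12,k5,k5,k12,k12,k18,k18] k0 [[k0,k0,k0,k0,k0,k0,k2],[k0,k0,
    k0,k0,k0,k0,k0,k0,k0,k0,k10],[],[],[],[],[k0,k0,k0,k0,k0,k0,k0,k0,k2],[k0,k2],[k0,k0,k0,k0,k0,k0,k0,k0,k0,k0,k0,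
    k10],[k0,k0,k0,k0,k0,k0,k0,k2],[k0,k0,k0,k0,k0,k0,k0,k0,k0,k10],[k10]] k120 k6
    [[(k3,k28),(k11,k30),(k7,k33)],[(k9,k24),(k5,k26),(k10,k30)],[(k1,k28),(k6,k61),(k2,k64)],[(k11,k46),(k7,k59),(k3,
    k64)],[(k0,k26),(k4,k40),(k8,k40)],[(k10,k34),(k5,k40),(k9,k40)],[(k1,k33),(k6,k54),(k2,k59)],[(k11,k39),(k7,k54),
    (k3,k61)],[(k0,k24),(k4,k40),(k8,k42)],[(k10,k24),(k5,k40),(k9,k42)],[(k1,k30),(k6,k39),(k2,k46)],[(k8,k24),(k0,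
    k30),(k4,k34)]]
    [] k0
    [[k1,k1,k0,k0,k0,k1],[k1,k0,k0,k1,k0,k1],[k1,k0,k0,k0,k0,k1],[k1,k0,k1,k0,k0,k1],[k1,k0,k0,k0,k1,k1],[k0,k0,k2,k0,
    k0,k0],[k0,k0,k1,k0,k1,k0],[k0,k0,k0,k2,k0,k0],[k0,k0,k0,k0,k2,k0]]
    [.ref k5 k1 [(z1,[z1,z1,y1]),(z1,[z0,y1,z1])],.ref k2 k0 [(z1,[z1,z1,y1]),(z1,[y1,z0,z1])],.contra [y1,z1],
    .contra [y1,z1],.contra [y1,z1],.contra [z1],.contra [y1,z1],.contra [y1,y2,z2],.contra [z1]]),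
    .old (.tor k26 false k0 [(z1,[z0,z0,z1]),(z1,[y2,y1,y1,z2]),(z1,[z1]),(z1,[z1,z1])]),
    .old (.lp [k40,k38,k30,k42,k50,k38] [k8,k6,k8,k8,k12,k12,k6,k6,k0,k4,k8,k8] k0 [[k0,k0,k4,k0,k0,k0,k8],[k0,k0,k0,k0,
    k0,k0,k0,k0,k0,k0,k10],[k0,k0,k0,k0,k10],[k0,k4],[],[k0,k0,k0,k10],[k0,k0,k0,k0,k0,k0,k0,k0,k10],[k0,k8],[k0,k0,
    k0,k0,k0,k0,k0,k0,k0,k0,k0,k16],[k0,k0,k0,k0,k0,k0,k0,k10],[k0,k0,k0,k0,k0,k0,k0,k0,k0,k16],[k10]] k120 k5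
    [[(k3,k30),(k7,k42),(k11,k56)],[(k5,k30),(k9,k34),(k10,k48)],[(k1,k30),(k2,k42),(k6,k48)],[(k7,k30),(k11,k38),(k3,
    k42)],[(k0,k30),(k4,k40),(k8,k42)],[(k10,k34),(k9,k38),(k5,k40)],[(k2,k30),(k1,k42),(k6,k42)],[(k11,k30),(k7,k42),
    (k3,k48)],[(k0,k34),(k4,k38),(k8,k60)],[(k10,k30),(k5,k42),(k9,k60)],[(k6,k30),(k2,k38),(k1,k56)],[(k8,k30),(k4,
    k34),(k0,k48)]]
    [] k0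
    [[k1,k1,k0,k0,k0,k1],[k1,k0,k0,k0,k0,k1],[k0,k2,k0,k0,k0,k0],[k0,k1,k0,k1,k0,k0],[k0,k0,k2,k0,k0,k0],[k0,k0,k1,k0,
    k1,k0],[k0,k0,k0,k2,k0,k0]]
    [.ref k7 k1 [(z1,[y1,z1,z1]),(z1,[z2,y1,y1]),(z1,[z0,y1,y2,z2])],.contra [y2,z1,z1],.contra [z1],.contra [y1,z0,
    z1],.contra [z1],.contra [y1,y1,y2,z2],.contra [z1]]),
    .old (.lp [k74,k72,k80,k84,k46,k120] [k23,k23,k34,k14,k20,k20,k18,k18,k37,k37,k0,k0] k0 [[k0,k0,k12],[k0,k0,k0,k0,k0,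
    k0,k0,k0,k0,k0,k23],[k0,k0,k0,k0,k0,k0,k0,k0,k26],[k0,k12],[],[],[k0,k0,k0,k0,k0,k0,k0,k0,k42],[],[k0,k0,k0,k0,k0,
    k0,k0,k0,k0,k0,k0,k23],[k0,k0,k0,k26,k0,k0,k0,k42],[k0,k0,k0,k0,k0,k0,k0,k0,k0,k23],[k23]] (nat_lit 240) k5
    [[(k3,k60),(k7,k79),(k11,k120)],[(k9,k60),(k5,k65),(k10,k120)],[(k1,k60),(k2,k84),(k6,k88)],[(k11,k60),(k7,k68),
    (k3,k84)],[(k0,k65),(k4,k80),(k8,k89)],[(k9,k63),(k5,k80),(k10,k100)],[(k2,k68),(k1,k79),(k6,k84)],[(k11,k60),(k7,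
    k84),(k3,k88)],[(k0,k60),(k4,k63),(k8,k88)],[(k10,k60),(k9,k88),(k5,k89)],[(k2,k60),(k6,k60),(k1,k120)],[(k8,k60),
    (k4,k100),(k0,k120)]]
    [] k0
    [[k0,k2,k0,k0,k0,k0],[k0,k1,k0,k1,k0,k0],[k0,k0,k2,k0,k0,k0],[k0,k0,k2,k0,k1,k0],[k0,k0,k1,k0,k1,k0],[k0,k0,k0,k2,
    k0,k0],[k0,k0,k0,k0,k2,k0]]
    [.contra [z1],.contra [y1,y1,z1],.contra [z1],.ref k8 k0 [(z1,[y2,z1,z1]),(z1,[z1])],.ref k6 k0 [(z1,[y1,z0,z1])],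
    .contra [z1],.contra [z1]]),
    .old (.lp [(nat_lit 270),(nat_lit 244),(nat_lit 294),(nat_lit 280),k150,(nat_lit 428)] [k79,k79,k108,k76,k67,k67,k74,
    k74,k139,k139,k0,k0] k0 [[k0,k0,k72],[k0,k0,k0,k0,k0,k0,k0,k0,k0,k0,k63],[k0,k0,k0,k0,k0,k0,k0,k0,k102],[k0,k72],
    [],[],[k0,k0,k0,k0,k0,k0,k0,k0,k144],[],[k0,k0,k0,k0,k0,k0,k0,k0,k0,k0,k0,k79],[k0,k0,k0,k102,k0,k0,k0,k144],[k0,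
    k0,k0,k0,k0,k0,k0,k0,k0,k79],[k63]] (nat_lit 840) k5
    [[(k3,(nat_lit 210)),(k7,(nat_lit 275)),(k11,(nat_lit 428))],[(k5,(nat_lit 210)),(k9,(nat_lit 210)),(k10,
    (nat_lit 412))],[(k1,(nat_lit 210)),(k6,(nat_lit 278)),(k2,(nat_lit 316))],[(k11,(nat_lit 218)),(k7,
    (nat_lit 246)),(k3,(nat_lit 316))],[(k0,(nat_lit 210)),(k4,(nat_lit 294)),(k8,(nat_lit 324))],[(k9,(nat_lit 222)),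
    (k5,(nat_lit 294)),(k10,(nat_lit 361))],[(k2,(nat_lit 246)),(k1,(nat_lit 275)),(k6,(nat_lit 280))],[(k11,
    (nat_lit 210)),(k3,(nat_lit 278)),(k7,(nat_lit 280))],[(k0,(nat_lit 210)),(k4,(nat_lit 222)),(k8,(nat_lit 294))],
    [(k10,(nat_lit 210)),(k9,(nat_lit 294)),(k5,(nat_lit 324))],[(k6,(nat_lit 210)),(k2,(nat_lit 218)),(k1,
    (nat_lit 428))],[(k8,(nat_lit 210)),(k4,(nat_lit 361)),(k0,(nat_lit 412))]]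
    [] k0
    [[k0,k2,k0,k0,k0,k0],[k0,k1,k0,k1,k0,k0],[k0,k1,k0,k2,k0,k0],[k0,k0,k2,k0,k0,k0],[k0,k0,k1,k0,k1,k0],[k0,k0,k0,k2,
    k0,k0],[k0,k0,k0,k0,k2,k0]]
    [.contra [z1],.ref k6 k1 [(z1,[y1,z1])],.ref k9 k1 [(z1,[y1,z1])],.contra [z1],.ref k6 k0 [(z1,[y1,z1])],
    .contra [z1],.contra [z1]])]⟩

/-- classes `0 0 0 0 0 0`, types `N0 N1 N0 N1 N2 N3` -/
noncomputable def cU6_39 : CertX :=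
  ⟨[k12,k13,k12,k13,k14,k15],[(false,k0,[k0,k1,k2,k3,k4,k5]),(true,k4,[k4,k3,k2,k1,k0,k5])],[[[([z1,z0,z1,z0,z1,z0],
    z2)],[([z3,z0,z0,z0,z3,z0],z2),([z0,z3,z0,z0,z0,z0],z2),([z0,z0,z3,z0,z0,z0],z2),([z0,z0,z0,z3,z0,z0],z2)],[([z1,
    z0,z0,z0,z1,z0],z1),([z0,z2,z0,z0,z0,z0],z1),([z0,z0,z2,z0,z0,z0],z1),([z0,z0,z0,z2,z0,z0],z1)],[([z1,z0,z0,z0,z1,
    y2],y2),([z0,z1,z0,z0,z0,z1],z2),([z0,z0,z1,z0,z0,z1],z2)],[([z1,z0,z0,z0,z1,z0],z1),([z0,z3,z0,z0,z0,z0],z1),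
    ([z0,z0,z3,z0,z0,z0],z2),([z0,z0,z0,z3,z0,z0],z1)],[([z1,z0,z0,z0,z1,z0],z1),([z0,z1,z0,z0,z0,z1],z2),([z0,z0,z1,
    z0,z0,y1],y1)],[([z1,z0,z1,z0,z1,y1],z0),([z0,z1,z0,z0,z0,z1],z2)],[([z3,z0,z0,z0,z3,z0],z2),([z0,z1,z0,z1,z0,z0],
    z2),([z0,z0,z3,z0,z0,z0],z2)],[([z1,z0,z0,z0,z1,z0],z1),([z0,z1,z0,z1,z0,z0],z2),([z0,z0,z3,z0,z0,z0],z2)],[([z3,
    z0,z0,z0,z3,z3],z4),([z0,z1,z0,z0,z0,y1],z0),([z0,z0,z3,z0,z0,z0],z2)],[([z1,z0,z0,z0,z1,z0],z1),([z0,z1,z0,z1,z0,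
    z0],z2),([z0,z0,z2,z0,z0,z0],z1)],[([z1,z0,z0,z0,z1,z2],z2),([z0,z1,z0,z0,z0,y1],z0),([z0,z0,z1,z0,z0,y1],z0)]],
    [[([z1,z0,z0,z0,z1,z0],z1),([z0,z1,z0,z1,z0,z0],z2),([z0,z0,z3,z0,z0,z0],z1)],[([z1,z0,z0,z0,z1,z0],z1),([z0,z1,
    z0,z0,z0,y1],z0),([z0,z0,z1,z0,z0,z1],z1)],[([z1,z0,z1,z0,z1,z1],z2),([z0,z1,z0,z0,z0,y1],z0)],[([z1,z0,z1,z1,z1,
    z0],z2)],[([z3,z0,z0,z0,z3,z3],z4),([z0,z1,z0,z1,z0,z0],z2)],[([z1,z0,z0,z0,z1,z0],z1),([z0,z1,z0,z1,z0,z0],z2)],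
    [([z1,z0,z1,z0,z1,z1],z2)],[([z1,z0,z0,z0,z1,z0],z2),([z0,z3,z0,z0,z0,y3],y2),([z0,z0,z3,z0,z0,z0],z2)],[([z1,z0,
    z0,z0,z1,z0],z2),([z0,z1,z0,z0,z0,y4],y2),([z0,z0,z1,z0,z0,z3],z2)],[([z1,z0,z0,z0,z1,z0],z2),([z0,z1,z0,z1,z0,
    z0],z1),([z0,z0,z3,z0,z0,z0],z1)],[([z1,z0,z0,z0,z1,z0],z2),([z0,z1,z0,z0,z0,y2],y1),([z0,z0,z1,z0,z0,z1],z1)],
    [([z1,z0,z0,z0,z1,z0],z2),([z0,z1,z0,z0,z0,z2],z2)]],[[([z1,z0,z0,z0,z1,z0],z2),([z0,z3,z0,z3,z0,z0],z2),([z0,z0,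
    z3,z0,z0,z0],z2)],[([z1,z0,z0,z0,z1,z0],z2),([z0,z1,z0,z1,z0,z0],z1),([z0,z0,z3,z0,z0,z0],z2)],[([z1,z0,z0,z0,z1,
    z0],z2),([z0,z3,z0,z0,z0,y3],z2),([z0,z0,z3,z0,z0,z0],z2)],[([z1,z0,z0,z0,z1,z0],z2),([z0,z3,z0,z3,z0,z3],z4)],
    [([z1,z0,z0,z0,z1,z0],z2),([z0,z2,z0,z1,z0,z0],z2),([z0,z0,z6,z3,z0,z0],z2)],[([z1,z0,z0,z0,z1,z0],z2),([z0,z2,z0,
    z1,z0,z0],z2)],[([z1,z0,z0,z0,z1,z0],z2),([z0,z1,z0,z1,z0,z0],z1),([z0,z0,z2,z0,z0,z0],z1)],[([z1,z0,z0,z0,z1,z0],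
    z2),([z0,z1,z0,z1,z0,z0],z1)],[([z1,z0,z0,z0,z1,z0],z2)],[]]],
    [.old (.leafM k5 [k2,k3,k4,k5,k0,k1] [(z1,[y1,z1]),(z1,[z1])] []),
    .old (.tor k18 false k0 [(z3,[y1,y1,y1,z0,z3]),(z3,[y1,z0,y1,y1,z3]),(z3,[z0,z2,z0,z1]),(z3,[z1,z0,z2]),(z3,[z2,z0,
    z1])]),
    .geo false z2 k4 [(z2,y2),(z1,z0),(z1,z0),(z1,z0),(z0,z2),(z3,z0)] [(z1,[z2]),(z1,[z0,z1]),(z1,[z0,z0,z1]),(z1,[z0,z0,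
    z0,z1]),(z1,[]),(z1,[y2,y1,y1,y1,
    z2])] z0 (Int.ofNat (nat_lit 2097152)) (.s (.s (.l k1) (.l k1)) (.s (.l k1) (.l k1))) [],
    .old (.lp [k30,k120,k162,k124,k162,(nat_lit 360)] [k165,k165,k120,k120,k99,k99,k118,k118,k99,k99,k0,k0] k0 [[],[],[],
    [],[k0,k0,k0,k0,k0,k0,k36],[],[],[k0,k0,k0,k0,k0,k36]] (nat_lit 480) k6
    [[(k5,k96),(k8,k96),(k9,k96)],[(k5,k96),(k8,k96),(k9,k96)],[(k2,k120),(k6,k122),(k11,(nat_lit 240))],[(k3,k120),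
    (k7,k122),(k10,(nat_lit 240))],[(k0,k96),(k1,k96),(k4,k162)],[(k9,k126),(k5,k162),(k8,k162)],[(k2,k122),(k6,k160),
    (k11,(nat_lit 242))],[(k3,k122),(k7,k160),(k10,(nat_lit 242))],[(k0,k96),(k1,k96),(k4,k126)],[(k0,k96),(k1,k96),
    (k4,k162)],[(k3,(nat_lit 240)),(k7,(nat_lit 242)),(k10,(nat_lit 360))],[(k2,(nat_lit 240)),(k6,(nat_lit 242)),
    (k11,(nat_lit 360))]]
    [] k0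
    [[k1,k0,k1,k0,k1,k0],[k1,k0,k0,k0,k1,k0],[k2,k0,k0,k0,k2,k0],[k0,k2,k0,k0,k0,k0],[k0,k3,k0,k0,k0,k0],[k0,k2,k0,k1,
    k0,k0],[k0,k1,k0,k1,k0,k0],[k0,k1,k0,k2,k0,k0],[k0,k0,k2,k0,k0,k0],[k0,k0,k0,k2,k0,k0]]
    [.contra [y1,z1,z1,z1],.contra [y1,z1,z2],.ref k2 k0 [(z2,[z1]),(z2,[y1,z2,z4]),(z2,[y1,z2,z0,z4]),(z2,[y1,y2,y4,
    y4,z4])],.contra [z1],.ref k1 k0 [(z1,[y2,z3,z6]),(z1,[z1]),(z1,[z1,z0,y3,z3]),(z1,[z1,y3,y6,y3,z3])],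
    .ref k1 k0 [(z1,[y2,z1,z2,y2,z2]),(z1,[z1,z1,z2,z1,y1]),(z1,[z1,z1,y1,z4,y1]),(z1,[z1,y2,y4,y2,z2])],.contra [z1,
    z1,z2,z1,y1],.ref k1 k0 [(z1,[y2,y1,y2,y4,z4]),(z1,[z1,z2,z4,z2,y2]),(z1,[z1,z2,z1,z5,y2]),(z1,[z1,y1,y2,y1,z1])],
    .contra [z1,z0,z2,y2],.contra [z1,z2,z4,z2,y2]]),
    .geo false z3 k4 [(z3,y3),(z1,z0),(z2,z0),(z1,z0),(z0,z3),(z5,z0)] [(z1,[z3]),(z1,[z0,z1]),(z1,[z0,z0,z1]),(z1,[z0,z0,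
    z0,z1]),(z1,[]),(z1,[y3,y1,y1,y1,
    z3])] z0 (Int.ofNat (nat_lit 2097152)) (.s (.s (.l k1) (.l k1)) (.s (.l k1) (.l k1))) [],
    .old (.lp [(nat_lit 690),(nat_lit 960),(nat_lit 414),(nat_lit 960),(nat_lit 690),(nat_lit 1800)] [(nat_lit 555),
    (nat_lit 555),(nat_lit 420),(nat_lit 420),(nat_lit 693),(nat_lit 693),(nat_lit 420),(nat_lit 420),(nat_lit 555),
    (nat_lit 555),k0,k0] k0 [[k0,k0,k0,k0,k0,k0,k115],[],[k0,k0,k0,k0,k138],[],[],[k0,k0,k0,k138],[],[k0,k115],[],[k0,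
    k0,k0,k0,k0,k0,k0,k0,k0,k0,k0,k115],[k0,k0,k0,k0,k0,k0,k0,k0,k115]] (nat_lit 2760) k6
    [[(k5,(nat_lit 552)),(k9,(nat_lit 690)),(k8,(nat_lit 805))],[(k5,(nat_lit 552)),(k9,(nat_lit 575)),(k8,
    (nat_lit 690))],[(k2,(nat_lit 960)),(k6,(nat_lit 1075)),(k11,(nat_lit 1380))],[(k7,(nat_lit 822)),(k3,
    (nat_lit 960)),(k10,(nat_lit 1380))],[(k0,(nat_lit 552)),(k1,(nat_lit 552)),(k4,(nat_lit 552))],[(k5,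
    (nat_lit 552)),(k8,(nat_lit 552)),(k9,(nat_lit 552))],[(k2,(nat_lit 822)),(k6,(nat_lit 960)),(k11,
    (nat_lit 1380))],[(k7,(nat_lit 960)),(k3,(nat_lit 1075)),(k10,(nat_lit 1380))],[(k4,(nat_lit 552)),(k0,
    (nat_lit 575)),(k1,(nat_lit 690))],[(k4,(nat_lit 552)),(k0,(nat_lit 690)),(k1,(nat_lit 805))],[(k3,
    (nat_lit 1380)),(k7,(nat_lit 1380)),(k10,(nat_lit 1685))],[(k2,(nat_lit 1380)),(k6,(nat_lit 1380)),(k11,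
    (nat_lit 1685))]]
    [] k0
    [[k1,k0,k2,k0,k1,k0],[k1,k0,k1,k0,k1,k0],[k1,k0,k0,k0,k1,k0],[k0,k2,k0,k0,k0,k0],[k0,k1,k0,k1,k0,k0],[k0,k0,k2,k0,
    k0,k0],[k0,k0,k3,k0,k0,k0],[k0,k0,k4,k0,k0,k0],[k0,k0,k0,k2,k0,k0]]
    [.ref k3 k0 [(z1,[y1,z2,z0,z2]),(z1,[z0,z0,z1]),(z1,[z1,y1,z0,y1])],.contra [z1,y1],.contra [y1,z1,z1,z1],
    .contra [z1],.contra [z1,z1,z2,z1,y1],.contra [z1],.ref k4 k0 [(z1,[z0,z1]),(z1,[y1,z0,z3,z3]),(z1,[z1]),(z1,[y1,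
    y3,y3,z0,z3])],.ref k3 k0 [(z2,[y1,z2,z0,z4]),(z1,[z0,z0,z1]),(z2,[z1,z0,z0,y2])],.contra [z1,z2,z4,z2,y2]]),
    .old (.lp [k46,k90,k50,k90,k50,k150] [k52,k52,k30,k30,k50,k50,k30,k30,k50,k50,k0,k0] k0 [[],[],[k0,k0,k0,k0,k30],[],
    [],[k0,k0,k0,k30]] (nat_lit 240) k6
    [[(k5,k48),(k8,k48),(k9,k48)],[(k5,k48),(k8,k48),(k9,k48)],[(k2,k90),(k6,k90),(k11,k120)],[(k7,k60),(k3,k90),(k10,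
    k120)],[(k0,k48),(k1,k48),(k4,k80)],[(k8,k50),(k9,k50),(k5,k80)],[(k2,k60),(k6,k90),(k11,k120)],[(k3,k90),(k7,
    k90),(k10,k120)],[(k0,k48),(k1,k48),(k4,k50)],[(k0,k48),(k1,k48),(k4,k50)],[(k3,k120),(k7,k120),(k10,k150)],[(k2,
    k120),(k6,k120),(k11,k150)]]
    [] k0
    [[k1,k0,k2,k0,k1,k0],[k1,k0,k1,k0,k1,k0],[k1,k0,k0,k0,k1,k0],[k2,k0,k0,k0,k2,k0],[k0,k2,k0,k0,k0,k0],[k0,k1,k0,k1,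
    k0,k0],[k0,k0,k2,k0,k0,k0],[k0,k0,k0,k2,k0,k0]]
    [.ref k3 k0 [(z1,[y1,z2]),(z1,[z0,z0,z1]),(z1,[z1,y1])],.contra [y1,z1,z1],.contra [y1,z1,z1],.ref k5 k0 [(z2,
    [z1]),(z1,[z0,z0,z1]),(z2,[y1,z2])],.contra [z1],.contra [z1,z1,z2,y1],.contra [z1],.contra [z1,z2,z4,y2]]),
    .old (.leafM k10 [k0,k2,k4,k5] [(z1,[z0,z0,z1]),(z1,[y1,y3,y1,z3]),(z1,[z1])] [(k1,k3,z1,[z0,z1]),(k3,k1,z1,[z0,z1])]),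
    .old (.leafM k11 [k0,k2,k4,k5] [(z1,[z0,z0,z1]),(z1,[y3,y3,y1,z3]),(z1,[z1])] [(k1,k3,z1,[z0,z1]),(k3,k1,z1,[z0,z1])]),
    .old (.lp [k32,k178,k160,(nat_lit 302),k160,k124] [k135,k135,k62,k62,k71,k71,k0,k0,k71,k71,k89,k89] k0 [[],[],[],[],
    [k0,k0,k0,k0,k0,k0,k0,k0,k0,k54],[],[],[],[k0,k0,k0,k0,k0,k54]] (nat_lit 480) k6
    [[(k5,k96),(k8,k96),(k9,k96)],[(k5,k96),(k8,k96),(k9,k96)],[(k11,k151),(k2,k178),(k6,(nat_lit 240))],[(k10,k151),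
    (k3,k178),(k7,(nat_lit 240))],[(k0,k96),(k1,k96),(k4,k160)],[(k8,k106),(k5,k160),(k9,k160)],[(k2,(nat_lit 240)),
    (k11,(nat_lit 267)),(k6,(nat_lit 302))],[(k10,(nat_lit 213)),(k3,(nat_lit 240)),(k7,(nat_lit 302))],[(k0,k96),(k1,
    k96),(k4,k160)],[(k0,k96),(k1,k96),(k4,k106)],[(k10,k124),(k3,k151),(k7,(nat_lit 267))],[(k11,k124),(k2,k151),(k6,
    (nat_lit 213))]]
    [] k0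
    [[k1,k0,k2,k0,k1,k0],[k1,k0,k1,k0,k1,k0],[k1,k0,k0,k0,k1,k0],[k2,k0,k0,k0,k2,k0],[k0,k2,k0,k0,k0,k0],[k0,k1,k0,k0,
    k0,k1],[k0,k1,k0,k0,k0,k2],[k0,k0,k2,k0,k0,k0],[k0,k0,k0,k0,k0,k2],[k0,k0,k0,k0,k0,k3]]
    [.ref k7 k0 [(z1,[z3,z0,z0,y2]),(z3,[z0,y1,z0,y1,z3]),(z1,[z0,z0,z0,z1])],.contra [y3,z1,z3,z1],.contra [y3,z1,z3,
    z1],.ref k8 k0 [(z2,[z1]),(z3,[z0,y1,z0,y1,z3]),(z1,[z0,z0,z0,z1])],.contra [z1],.contra [z1,z0,z1],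
    .ref k7 k0 [(z1,[y1,z1,z1]),(z3,[z0,y1,z0,y1,z3]),(z1,[z0,z0,z0,z1])],.contra [z1],.contra [z1,z0,z2],
    .ref k7 k0 [(z1,[y1,z1]),(z3,[z0,y1,z0,y1,z3]),(z1,[z0,z0,z0,z1])]]),
    .old (.leafM k12 [k0,k2,k4,k5] [(z1,[z0,z0,z1]),(z1,[y2,y2,y1,z2]),(z1,[z1])] [(k1,k3,z1,[z0,z1]),(k3,k1,z1,[z0,z1])]),
    .old (.lp [k30,k160,k162,(nat_lit 320),k162,k124] [k145,k145,k80,k80,k79,k79,k0,k0,k79,k79,k98,k98] k0 [[],[],[],[],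
    [k0,k0,k0,k0,k0,k0,k0,k0,k0,k36],[],[],[],[k0,k0,k0,k0,k0,k36]] (nat_lit 480) k6
    [[(k5,k96),(k8,k96),(k9,k96)],[(k5,k96),(k8,k96),(k9,k96)],[(k11,k142),(k2,k160),(k6,(nat_lit 240))],[(k10,k142),
    (k3,k160),(k7,(nat_lit 240))],[(k0,k96),(k1,k96),(k4,k162)],[(k8,k126),(k5,k162),(k9,k162)],[(k2,(nat_lit 240)),
    (k11,(nat_lit 258)),(k6,(nat_lit 320))],[(k10,(nat_lit 222)),(k3,(nat_lit 240)),(k7,(nat_lit 320))],[(k0,k96),(k1,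
    k96),(k4,k162)],[(k0,k96),(k1,k96),(k4,k126)],[(k10,k124),(k3,k142),(k7,(nat_lit 258))],[(k11,k124),(k2,k142),(k6,
    (nat_lit 222))]]
    [] k0
    [[k1,k0,k1,k0,k1,k0],[k1,k0,k0,k0,k1,k0],[k2,k0,k0,k0,k2,k0],[k0,k2,k0,k0,k0,k0],[k0,k2,k0,k0,k0,k1],[k0,k1,k0,k0,
    k0,k1],[k0,k1,k0,k0,k0,k2],[k0,k0,k2,k0,k0,k0],[k0,k0,k0,k0,k0,k2],[k0,k0,k0,k0,k0,k3]]
    [.contra [y1,z1,z1,z1],.contra [y1,z1,z2],.ref k10 k0 [(z2,[z1]),(z1,[z0,y1,z0,y1,z1]),(z2,[y1,z2,z0,z4])],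
    .contra [z1],.ref k7 k0 [(z1,[y2,z3,z4]),(z1,[z0,y1,z0,y1,z1]),(z1,[z1,z0,y2,z3])],.contra [z1,z0,z1],
    .ref k7 k0 [(z1,[y2,z3,z2]),(z1,[z0,y1,z0,y1,z1]),(z1,[z1,z0,y1,z3])],.contra [z1,z0,z2,y2],.contra [z1,z0,z2],
    .ref k7 k0 [(z1,[y2,z3]),(z1,[z0,y1,z0,y1,z1]),(z1,[z1,z0,z0,z3])]]),
    .old (.leafM k11 [k4,k5,k0,k2] [(z1,[y3,y3,y1,z3]),(z1,[z0,z0,z1]),(z1,[z1])] [(k1,k3,z1,[z0,z1]),(k3,k1,z1,[z0,z1])]),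
    .old (.lp [(nat_lit 2184),(nat_lit 3900),(nat_lit 2184),(nat_lit 7020),(nat_lit 3276),(nat_lit 3120)] [(nat_lit 2418),
    (nat_lit 2418),(nat_lit 1560),(nat_lit 1560),(nat_lit 2418),(nat_lit 2418),k0,k0,(nat_lit 1417),(nat_lit 2327),
    (nat_lit 1950),(nat_lit 1950)] k0 [[],[],[],[],[k0,k0,k0,k0,k0,k0,k0,k0,k0,(nat_lit 840)],[],[],[],[k0,k0,k0,k0,
    k0,(nat_lit 840)]] (nat_lit 10920) k6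
    [[(k5,(nat_lit 2184)),(k9,(nat_lit 2275)),(k8,(nat_lit 3185))],[(k5,(nat_lit 2184)),(k9,(nat_lit 2275)),(k8,
    (nat_lit 3185))],[(k11,(nat_lit 3510)),(k2,(nat_lit 3900)),(k6,(nat_lit 5460))],[(k10,(nat_lit 3510)),(k3,
    (nat_lit 3900)),(k7,(nat_lit 5460))],[(k0,(nat_lit 2184)),(k1,(nat_lit 2184)),(k4,(nat_lit 2184))],[(k5,
    (nat_lit 2184)),(k9,(nat_lit 2275)),(k8,(nat_lit 2345))],[(k2,(nat_lit 5460)),(k11,(nat_lit 5910)),(k6,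
    (nat_lit 7020))],[(k10,(nat_lit 5070)),(k3,(nat_lit 5460)),(k7,(nat_lit 7020))],[(k0,(nat_lit 2275)),(k1,
    (nat_lit 2275)),(k4,(nat_lit 2275))],[(k4,(nat_lit 2345)),(k0,(nat_lit 3185)),(k1,(nat_lit 3185))],[(k10,
    (nat_lit 3120)),(k3,(nat_lit 3510)),(k7,(nat_lit 5910))],[(k11,(nat_lit 3120)),(k2,(nat_lit 3510)),(k6,
    (nat_lit 5070))]]
    [] k0
    [[k1,k0,k2,k0,k1,k0],[k1,k0,k1,k0,k1,k0],[k1,k0,k0,k0,k1,k0],[k0,k2,k0,k0,k0,k0],[k0,k1,k0,k0,k0,k1],[k0,k1,k0,k0,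
    k0,k2],[k0,k0,k2,k0,k0,k0],[k0,k0,k3,k0,k0,k0],[k0,k0,k4,k0,k0,k0],[k0,k0,k0,k0,k0,k2],[k0,k0,k0,k0,k0,k3]]
    [.ref k10 k0 [(z1,[z0,z1]),(z1,[z0,y1,z0,y1,z1]),(z1,[z1,y1])],.contra [z1,y1],.contra [y1,z1,z1,z1],.contra [z1],
    .contra [z1,z0,z1],.ref k12 k0 [(z1,[z0,z1]),(z1,[z0,y1,z0,y1,z1]),(z1,[y1,z0,z1,z3])],.contra [z1],
    .ref k8 k0 [(z1,[z0,z1]),(z1,[z0,y1,z0,y1,z1]),(z1,[z1])],.ref k10 k0 [(z1,[z0,z1]),(z1,[z0,y1,z0,y1,z1]),(z2,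
    [z1])],.contra [z1,z0,z2],.ref k12 k0 [(z1,[z0,z1]),(z1,[z0,y1,z0,y1,z1]),(z1,[y1,z0,z0,z3])]]),
    .old (.lp [k18,k40,k30,k80,k30,k40] [k31,k31,k20,k20,k25,k25,k0,k0,k25,k25,k20,k20] k0 [] k120 k6
    [[(k5,k24),(k8,k24),(k9,k24)],[(k5,k24),(k8,k24),(k9,k24)],[(k2,k40),(k11,k40),(k6,k60)],[(k3,k40),(k10,k40),(k7,
    k60)],[(k0,k24),(k1,k24),(k4,k30)],[(k5,k30),(k8,k30),(k9,k30)],[(k2,k60),(k11,k60),(k6,k80)],[(k3,k60),(k10,k60),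
    (k7,k80)],[(k0,k24),(k1,k24),(k4,k30)],[(k0,k24),(k1,k24),(k4,k30)],[(k3,k40),(k10,k40),(k7,k60)],[(k2,k40),(k11,
    k40),(k6,k60)]]
    [] k0
    [[k1,k0,k2,k0,k1,k0],[k1,k0,k1,k0,k1,k0],[k1,k0,k0,k0,k1,k0],[k2,k0,k0,k0,k2,k0],[k0,k2,k0,k0,k0,k0],[k0,k1,k0,k0,
    k0,k1],[k0,k0,k2,k0,k0,k0],[k0,k0,k3,k0,k0,k0],[k0,k0,k0,k0,k0,k2]]
    [.ref k11 k0 [(z1,[y1,z2]),(z1,[z0,z0,z1]),(z1,[z1,y1])],.contra [y1,z1,z1],.contra [y1,z1,z1],.ref k13 k0 [(z2,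
    [z1]),(z1,[z0,z0,z1]),(z2,[y1,z2])],.contra [z1],.contra [z1,z0,z1],.contra [z1],.ref k9 k0 [(z1,[y1,z3]),(z1,[z0,
    z0,z1]),(z1,[z1])],.contra [z1,z0,z2]]),
    .old (.lp [k80,k100,k84,k66,k40,k100] [k10,k10,k0,k0,k8,k8,k17,k17,k30,k30,k0,k0] k0 [[k0,k0,k0,k0,k0,k0,k0,k0,k0,k6],
    [],[k0,k0,k0,k0,k6],[k0,k0,k0,k0,k0,k0,k0,k0,k0,k0,k34],[k0,k0,k0,k0,k0,k0,k14],[k0,k0,k0,k6],[k0,k0,k0,k0,k0,k0,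
    k0,k0,k0,k0,k0,k6],[k0,k0,k0,k0,k0,k14],[k0,k6],[],[k0,k0,k0,k0,k0,k0,k0,k6],[k0,k0,k34]] (nat_lit 240) k6
    [[(k5,k48),(k8,k60),(k9,k66)],[(k8,k54),(k9,k60),(k5,k82)],[(k6,k83),(k2,k100),(k11,k106)],[(k7,k77),(k3,k100),
    (k10,k134)],[(k1,k48),(k0,k82),(k4,k90)],[(k9,k48),(k8,k62),(k5,k90)],[(k2,k77),(k6,k80),(k11,k83)],[(k10,k77),
    (k7,k80),(k3,k83)],[(k4,k48),(k0,k60),(k1,k66)],[(k0,k54),(k1,k60),(k4,k62)],[(k7,k83),(k10,k100),(k3,k106)],[(k6,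
    k77),(k11,k100),(k2,k134)]]
    [] k0
    [[k1,k0,k1,k0,k1,k0],[k1,k0,k0,k0,k1,k0],[k0,k2,k0,k0,k0,k0],[k0,k1,k0,k1,k0,k0],[k0,k0,k2,k0,k0,k0],[k0,k0,k0,k2,
    k0,k0],[k0,k0,k0,k1,k0,k1],[k0,k0,k0,k0,k0,k2]]
    [.contra [y1,z1],.contra [y1,z1],.contra [z1],.ref k14 k1 [(z1,[y1,z0,z1]),(z1,[z1,z1,y1])],.contra [z1],
    .contra [z1],.ref k6 k0 [(z1,[y1,z1]),(z1,[z0,y1,z1])],.contra [y1,y2,z2]]),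
    .old (.lp [k8,k60,k40,k60,k40,k30] [k26,k26,k0,k0,k10,k10,k0,k0,k10,k10,k15,k15] k0 [] k120 k6
    [[(k5,k24),(k8,k24),(k9,k24)],[(k5,k24),(k8,k24),(k9,k24)],[(k11,k45),(k2,k60),(k6,k60)],[(k10,k45),(k3,k60),(k7,
    k60)],[(k0,k24),(k1,k24),(k4,k40)],[(k5,k40),(k8,k40),(k9,k40)],[(k11,k45),(k2,k60),(k6,k60)],[(k10,k45),(k3,k60),
    (k7,k60)],[(k0,k24),(k1,k24),(k4,k40)],[(k0,k24),(k1,k24),(k4,k40)],[(k10,k30),(k3,k45),(k7,k45)],[(k11,k30),(k2,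
    k45),(k6,k45)]]
    [] k0
    [[k1,k0,k1,k0,k1,k0],[k1,k0,k0,k0,k1,k0],[k2,k0,k0,k0,k2,k0],[k0,k1,k0,k0,k0,k1],[k0,k0,k2,k0,k0,k0],[k0,k0,k0,k1,
    k0,k1],[k0,k0,k0,k0,k0,k2],[k0,k0,k0,k0,k0,k3]]
    [.contra [y1,z0,y1,z1],.contra [y1,z0,y1,z1],.ref k8 k0 [(z2,[z1]),(z1,[z0,z0,z1]),(z1,[z0,y1,y3,z3])],
    .ref k15 k0 [(z1,[y1,z0,z0,z1])],.contra [z1],.ref k15 k1 [(z1,[y1,z0,z0,z1])],.contra [z1],.ref k7 k0 [(z1,[y1,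
    z1]),(z1,[z0,z0,z1]),(z1,[z0,y1,y3,z3])]]),
    .old (.lp [(nat_lit 5460),(nat_lit 21658),(nat_lit 13260),(nat_lit 21658),(nat_lit 17850),
    (nat_lit 12376)] [(nat_lit 8099),(nat_lit 8099),k0,k0,(nat_lit 4199),(nat_lit 4199),k0,k0,(nat_lit 1904),
    (nat_lit 1904),(nat_lit 4641),(nat_lit 4641)] k0 [[],[],[],[k0,k0,k0,k0,k0,(nat_lit 3094)],[k0,k0,
    (nat_lit 3094)]] (nat_lit 46410) k6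
    [[(k5,(nat_lit 9360)),(k8,(nat_lit 11655)),(k9,(nat_lit 11655))],[(k5,(nat_lit 9360)),(k8,(nat_lit 11655)),(k9,
    (nat_lit 11655))],[(k11,(nat_lit 17017)),(k2,(nat_lit 21658)),(k6,(nat_lit 21658))],[(k10,(nat_lit 17017)),(k3,
    (nat_lit 21658)),(k7,(nat_lit 24752))],[(k0,(nat_lit 9360)),(k1,(nat_lit 9360)),(k4,(nat_lit 10166))],[(k5,
    (nat_lit 10166)),(k8,(nat_lit 15555)),(k9,(nat_lit 15555))],[(k11,(nat_lit 17017)),(k6,(nat_lit 21658)),(k2,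
    (nat_lit 24752))],[(k10,(nat_lit 17017)),(k3,(nat_lit 21658)),(k7,(nat_lit 21658))],[(k0,(nat_lit 11655)),(k1,
    (nat_lit 11655)),(k4,(nat_lit 15555))],[(k0,(nat_lit 11655)),(k1,(nat_lit 11655)),(k4,(nat_lit 15555))],[(k10,
    (nat_lit 12376)),(k3,(nat_lit 17017)),(k7,(nat_lit 17017))],[(k11,(nat_lit 12376)),(k2,(nat_lit 17017)),(k6,
    (nat_lit 17017))]]
    [] k0
    [[k1,k0,k1,k0,k1,k0],[k1,k0,k0,k0,k1,k0],[k0,k2,k0,k0,k0,k0],[k0,k1,k0,k0,k0,k1],[k0,k0,k2,k0,k0,k0],[k0,k0,k3,k0,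
    k0,k0],[k0,k0,k4,k0,k0,k0],[k0,k0,k0,k2,k0,k0],[k0,k0,k0,k1,k0,k1],[k0,k0,k0,k0,k0,k2],[k0,k0,k0,k0,k0,k3]]
    [.contra [z1,y1],.contra [y2,z2,z1],.contra [z1],.ref k15 k0 [(z1,[y1,z0,z0,z1])],.contra [z1],.ref k16 k0 [(z1,
    [y1,z0,y3,z3]),(z1,[z0,z0,z1])],.ref k10 k0 [(z1,[z0,z1]),(z1,[z0,z0,z1]),(z2,[z1])],.contra [y1,z0,z2],
    .ref k15 k1 [(z1,[y1,z0,z0,z1])],.contra [z1],.ref k12 k0 [(z1,[z0,z1]),(z1,[z0,z0,z1]),(z1,[y1,y3,y3,z3])]]),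
    .old (.lp [k14,k100,k82,k120,k82,k80] [k53,k53,k10,k10,k19,k19,k0,k0,k19,k19,k20,k20] k0 [[],[],[],[k0,k0,k0,k0,k0,
    k20],[k0,k0,k20]] (nat_lit 240) k6
    [[(k5,k48),(k8,k48),(k9,k48)],[(k5,k48),(k8,k48),(k9,k48)],[(k11,k90),(k2,k100),(k6,k110)],[(k10,k90),(k3,k100),
    (k7,k130)],[(k0,k48),(k1,k48),(k4,k62)],[(k5,k62),(k8,k82),(k9,k82)],[(k11,k100),(k6,k120),(k2,k130)],[(k10,k100),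
    (k3,k110),(k7,k120)],[(k0,k48),(k1,k48),(k4,k82)],[(k0,k48),(k1,k48),(k4,k82)],[(k10,k80),(k3,k90),(k7,k100)],
    [(k11,k80),(k2,k90),(k6,k100)]]
    [] k0
    [[k1,k0,k1,k0,k1,k0],[k1,k0,k0,k0,k1,k0],[k2,k0,k0,k0,k2,k0],[k0,k2,k0,k0,k0,k0],[k0,k1,k0,k0,k0,k1],[k0,k0,k2,k0,
    k0,k0],[k0,k0,k3,k0,k0,k0],[k0,k0,k0,k1,k0,k1],[k0,k0,k0,k0,k0,k2]]
    [.contra [y1,z1],.contra [y1,z1],.ref k17 k0 [(z2,[z1]),(z1,[z0,y1,z1])],.contra [z1],.ref k15 k0 [(z1,[y1,z0,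
    z1])],.contra [z1],.ref k16 k0 [(z1,[y1,z3]),(z1,[z0,y1,z1])],.ref k15 k1 [(z1,[y1,z0,z1])],.contra [z1]]),
    .old (.lp [k118,k82,k12,k82,k122,k62] [k34,k0,k25,k45,k70,k70,k59,k11,k0,k30,k45,k45] k0 [[],[],[k0,k0,k0,k0,k68],[k0,
    k0,k0,k0,k0,k0,k0,k0,k0,k0,k34],[k0,k0,k0,k0,k0,k0,k0,k0,k0,k34],[k0,k0,k0,k68],[],[],[k0,k0,k0,k0,k0,k34],[],[],
    [k0,k0,k34]] (nat_lit 240) k6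
    [[(k5,k48),(k9,k122),(k8,k152)],[(k5,k48),(k9,k88),(k8,k118)],[(k6,k48),(k11,k62),(k2,k82)],[(k7,k48),(k3,k82),
    (k10,k116)],[(k0,k48),(k1,k48),(k4,k80)],[(k8,k48),(k9,k52),(k5,k80)],[(k2,k48),(k6,k82),(k11,k130)],[(k3,k48),
    (k10,k48),(k7,k82)],[(k4,k52),(k0,k88),(k1,k122)],[(k4,k48),(k0,k118),(k1,k152)],[(k3,k62),(k10,k62),(k7,k130)],
    [(k6,k48),(k11,k62),(k2,k116)]]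
    [] k0
    [[k1,k0,k1,k0,k1,k0],[k1,k0,k2,k0,k1,k0],[k0,k2,k0,k0,k0,k0],[k0,k2,k0,k1,k0,k0],[k0,k1,k0,k1,k0,k0],[k0,k2,k0,k2,
    k0,k0],[k0,k1,k0,k2,k0,k0],[k0,k1,k0,k0,k0,k1],[k0,k1,k0,k1,k0,k1],[k0,k1,k0,k1,k0,k2],[k0,k0,k2,k0,k0,k0],[k0,k0,
    k0,k2,k0,k0],[k0,k0,k0,k1,k0,k1],[k0,k0,k0,k0,k0,k2],[k0,k0,k0,k0,k0,k3]]
    [.contra [y1,z1,z0,z1],.contra [y1,z1,z0,z2],.contra [z1],.contra [z3,z3,y1,z5,y3],.contra [y3,y3,z1,z1,z3],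
    .contra [y3,y6,z2,y1,z6],.contra [y3,y6,z2,y1,z6],.contra [y3,y6,z1,y2,z6],.contra [z1,z1,z0,z1,y1],.contra [z3,
    z3,z1,z1,y3],.contra [z1],.contra [z1],.contra [y1,y1,z0,z0,z1],.contra [z1],.contra [z1,z0,z1]]),
    .old (.lp [k94,k58,k6,k112,k146,k62] [k26,k26,k44,k44,k70,k70,k22,k12,k0,k0,k42,k42] k0 [[k0,k0,k2],[],[k0,k0,k0,k0,
    k42],[k0,k2],[k0,k0,k0,k0,k0,k0,k0,k0,k0,k4],[k0,k0,k0,k42],[],[],[k0,k0,k0,k0,k0,k4]] (nat_lit 240) k6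
    [[(k5,k50),(k8,k120),(k9,k120)],[(k5,k48),(k8,k120),(k9,k120)],[(k2,k60),(k11,k60),(k6,k80)],[(k7,k48),(k3,k60),
    (k10,k60)],[(k0,k48),(k4,k48),(k1,k50)],[(k5,k48),(k8,k72),(k9,k76)],[(k2,k48),(k11,k96),(k6,k112)],[(k3,k80),
    (k10,k82),(k7,k112)],[(k4,k76),(k0,k120),(k1,k120)],[(k4,k72),(k0,k120),(k1,k120)],[(k3,k60),(k10,k62),(k7,k96)],
    [(k2,k60),(k11,k62),(k6,k82)]]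
    [] k0
    [[k0,k2,k0,k0,k0,k0],[k0,k3,k0,k0,k0,k0],[k0,k2,k0,k1,k0,k0],[k0,k2,k0,k0,k0,k1],[k0,k1,k0,k1,k0,k0],[k0,k1,k0,k1,
    k0,k1],[k0,k1,k0,k0,k0,k1],[k0,k1,k0,k0,k0,k2],[k0,k0,k2,k0,k0,k0],[k0,k0,k3,k0,k0,k0],[k0,k0,k4,k0,k0,k0],[k0,k0,
    k0,k2,k0,k0],[k0,k0,k0,k1,k0,k1],[k0,k0,k0,k0,k0,k2],[k0,k0,k0,k0,k0,k3]]
    [.contra [z1],.contra [y1,z0,z3,z4],.contra [y1,y1,z1,z1,z1],.contra [y1,z0,z2,z3],.contra [z1,z1,z0,z1,y1],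
    .contra [y1,y1,z0,z0,z1],.contra [y1,z0,z2,z3],.contra [y1,z0,z1,z2],.contra [z1],.contra [y1,z0,z3,z4],
    .contra [z1,y6,y6,y10,z6],.contra [z1],.contra [y1,y1,z0,z0,z1],.contra [z1],.contra [y1,z0,z0,z1]]),
    .old (.leafM k11 [k3,k5,k1,k2] [(z1,[y3,y3,y1,z3]),(z1,[z0,z0,z1]),(z1,[z0,z1])] [(k4,k0,z1,[z1]),(k0,k4,z1,[z1])]),
    .old (.lp [k56,k40,k4,k40,k64,k34] [k12,k0,k14,k14,k32,k32,k18,k10,k0,k4,k17,k17] k0 [[],[],[k0,k0,k0,k0,k20],[k0,k0,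
    k0,k0,k0,k0,k0,k0,k0,k0,k12],[k0,k0,k0,k0,k0,k0,k0,k0,k0,k12],[k0,k0,k0,k20],[],[],[k0,k0,k0,k0,k0,k12],[],[],[k0,
    k0,k12]] k120 k6
    [[(k5,k24),(k9,k64),(k8,k68)],[(k5,k24),(k9,k52),(k8,k56)],[(k6,k36),(k11,k37),(k2,k40)],[(k7,k24),(k3,k40),(k10,
    k49)],[(k0,k24),(k1,k24),(k4,k24)],[(k5,k24),(k8,k24),(k9,k32)],[(k2,k24),(k6,k40),(k11,k53)],[(k10,k33),(k3,k36),
    (k7,k40)],[(k4,k32),(k0,k52),(k1,k64)],[(k4,k24),(k0,k56),(k1,k68)],[(k10,k34),(k3,k37),(k7,k53)],[(k6,k33),(k11,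
    k34),(k2,k49)]]
    [] k0
    [[k1,k0,k1,k0,k1,k0],[k1,k0,k2,k0,k1,k0],[k0,k2,k0,k0,k0,k0],[k0,k2,k0,k1,k0,k0],[k0,k1,k0,k1,k0,k0],[k0,k1,k0,k2,
    k0,k0],[k0,k1,k0,k0,k0,k1],[k0,k1,k0,k1,k0,k1],[k0,k0,k2,k0,k0,k0],[k0,k0,k3,k0,k0,k0],[k0,k0,k4,k0,k0,k0],[k0,k0,
    k0,k2,k0,k0],[k0,k0,k0,k1,k0,k1],[k0,k0,k0,k0,k0,k2],[k0,k0,k0,k0,k0,k3]]
    [.contra [y2,z2,z1,z2],.contra [y1,z1,z1,z2],.contra [z1],.contra [z1,z1,z0,z1,y1],.contra [y1,y1,z1,z1,z1],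
    .contra [z1,z1,z0,z1,y1],.contra [z2,z0,z1],.contra [z2,z2,z1,z2,y2],.contra [z1],.contra [y1,z0,z2,z4],
    .contra [z1,y2,y2,y6,z2],.contra [z1],.contra [z1,z1,z1,z2,y1],.contra [z1,z0,z1],.ref k21 k0 [(z1,[z0,z1]),(z1,
    [z0,y1,z0,y1,z1]),(z1,[y1,z0,z0,z3])]]),
    .old (.lp [k100,k82,k0,k82,k144,k82] [k40,k40,k49,k49,k90,k90,k79,k19,k36,k0,k49,k49] k2 [[],[],[k0,k0,k0,k0,k62],[],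
    [k0,k0,k0,k0,k0,k0,k40],[k0,k0,k0,k62],[],[k0,k0,k0,k0,k0,k40]] (nat_lit 240) k6
    [[(k5,k48),(k8,k102),(k9,k138)],[(k5,k48),(k8,k102),(k9,k138)],[(k6,k50),(k2,k80),(k11,k80)],[(k7,k48),(k3,k80),
    (k10,k80)],[(k0,k48),(k1,k48),(k4,k60)],[(k9,k48),(k8,k52),(k5,k60)],[(k2,k48),(k11,k110),(k6,k120)],[(k3,k50),
    (k10,k50),(k7,k120)],[(k4,k48),(k0,k138),(k1,k138)],[(k4,k52),(k0,k102),(k1,k102)],[(k3,k80),(k10,k80),(k7,k110)],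
    [(k6,k50),(k2,k80),(k11,k80)]]
    [] k0
    [[k1,k0,k1,k0,k1,k0],[k1,k0,k2,k0,k1,k0],[k0,k2,k0,k0,k0,k0],[k0,k2,k0,k1,k0,k0],[k0,k1,k0,k1,k0,k0],[k0,k2,k0,k2,
    k0,k0],[k0,k1,k0,k2,k0,k0],[k0,k1,k0,k0,k0,k1],[k0,k1,k0,k1,k0,k1],[k0,k0,k2,k0,k0,k0],[k0,k0,k3,k0,k0,k0],[k0,k0,
    k0,k1,k0,k1],[k0,k0,k0,k0,k0,k2]]
    [.contra [z1,y1],.contra [z1,y1],.contra [z1],.ref k20 k1 [(z1,[z0,z1]),(z1,[z1,z0,y2]),(z1,[y1,y1,z1,z1])],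
    .contra [y1,y2,y1,z2],.ref k22 k1 [(z1,[z0,z1]),(z2,[z1,z0,y2]),(z2,[y1,y2,z0,z2])],.contra [y1,y2,y1,z2],
    .contra [y1,y1,z0,z1],.contra [y1,y1,z0,z1],.contra [z1],.ref k19 k1 [(z1,[z0,z1]),(z1,[y1,y3,y3,z3]),(z1,[z1])],
    .contra [y1,y1,z0,z1],.contra [z1]]),
    .old (.leafM k10 [k1,k2,k3,k5] [(z1,[z0,z0,z1]),(z1,[y3,y1,y1,z3]),(z1,[z0,z1])] [(k4,k0,z1,[z1]),(k0,k4,z1,[z1])]),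
    .old (.leafM k11 [k1,k2,k3,k5] [(z1,[z0,z0,z1]),(z1,[y3,y3,y1,z3]),(z1,[z0,z1])] [(k4,k0,z1,[z1]),(k0,k4,z1,[z1])]),
    .old (.lp [(nat_lit 758),(nat_lit 510),k104,(nat_lit 510),(nat_lit 682),(nat_lit 310)] [k0,(nat_lit 286),
    (nat_lit 235),(nat_lit 299),(nat_lit 470),(nat_lit 470),(nat_lit 389),k145,(nat_lit 286),k76,(nat_lit 367),
    (nat_lit 367)] k0 [[k0,k0,(nat_lit 286)],[],[k0,k0,k0,k0,(nat_lit 376)],[k0,(nat_lit 286)],[k0,k0,k0,k0,k0,k0,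
    (nat_lit 210)],[k0,k0,k0,(nat_lit 376)],[],[k0,k0,k0,k0,k0,(nat_lit 210)]] (nat_lit 1440) k6
    [[(k5,(nat_lit 288)),(k8,(nat_lit 472)),(k9,(nat_lit 682))],[(k5,(nat_lit 288)),(k8,(nat_lit 758)),(k9,
    (nat_lit 968))],[(k6,(nat_lit 356)),(k11,(nat_lit 378)),(k2,(nat_lit 796))],[(k7,(nat_lit 288)),(k10,
    (nat_lit 442)),(k3,(nat_lit 796))],[(k0,(nat_lit 288)),(k1,(nat_lit 288)),(k4,(nat_lit 480))],[(k8,(nat_lit 288)),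
    (k9,(nat_lit 288)),(k5,(nat_lit 480))],[(k2,(nat_lit 288)),(k11,(nat_lit 532)),(k6,(nat_lit 720))],[(k10,
    (nat_lit 288)),(k3,(nat_lit 356)),(k7,(nat_lit 720))],[(k4,(nat_lit 288)),(k1,(nat_lit 682)),(k0,(nat_lit 968))],
    [(k4,(nat_lit 288)),(k1,(nat_lit 472)),(k0,(nat_lit 758))],[(k10,(nat_lit 310)),(k3,(nat_lit 378)),(k7,
    (nat_lit 532))],[(k6,(nat_lit 288)),(k11,(nat_lit 310)),(k2,(nat_lit 442))]]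
    [] k0
    [[k1,k0,k2,k0,k1,k0],[k1,k0,k1,k0,k1,k0],[k0,k1,k0,k1,k0,k0],[k0,k2,k0,k2,k0,k0],[k0,k1,k0,k2,k0,k0],[k0,k1,k0,k1,
    k0,k1],[k0,k1,k0,k0,k0,k1],[k0,k1,k0,k0,k0,k2],[k0,k1,k0,k1,k0,k2],[k0,k0,k2,k0,k0,k0],[k0,k0,k0,k1,k0,k1],[k0,k0,
    k0,k1,k0,k2],[k0,k0,k0,k0,k0,k2],[k0,k0,k0,k0,k0,k3],[k0,k0,k0,k0,k0,k4]]
    [.contra [y1,z1,z0,z2],.contra [y1,z1,z0,z1],.contra [y3,y3,z1,y1,z3],.contra [y3,y6,z2,y2,z6],.contra [y3,y6,y1,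
    y2,z6],.contra [z1,z1,z0,z1,y1],.contra [y1,y1,z0,z0,z1],.contra [y6,y9,y1,y2,z9],.contra [y6,y9,y1,y2,z9],
    .contra [z1],.contra [y1,y1,z0,z0,z1],.contra [z3,z3,z1,z5,y3],.contra [z1],.contra [y2,y3,y1,z0,z3],.contra [y3,
    y6,y2,y1,z6]]),
    .old (.lp [(nat_lit 10384),(nat_lit 10620),(nat_lit 944),(nat_lit 9600),(nat_lit 17936),
    (nat_lit 7080)] [(nat_lit 7080),(nat_lit 7080),(nat_lit 5546),(nat_lit 8378),(nat_lit 11800),(nat_lit 11800),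
    (nat_lit 10127),(nat_lit 4817),(nat_lit 6608),k0,(nat_lit 8732),(nat_lit 8732)] k0 [[],[],[k0,k0,k0,k0,
    (nat_lit 8496)],[],[k0,k0,k0,k0,k0,k0,(nat_lit 7080)],[k0,k0,k0,(nat_lit 8496)],[],[k0,k0,k0,k0,k0,
    (nat_lit 7080)]] (nat_lit 28320) k6
    [[(k5,(nat_lit 5664)),(k8,(nat_lit 10856)),(k9,(nat_lit 17464))],[(k5,(nat_lit 5664)),(k8,(nat_lit 10856)),(k9,
    (nat_lit 17464))],[(k6,(nat_lit 6039)),(k11,(nat_lit 7434)),(k2,(nat_lit 10620))],[(k7,(nat_lit 5685)),(k10,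
    (nat_lit 10266)),(k3,(nat_lit 10620))],[(k0,(nat_lit 5664)),(k1,(nat_lit 5664)),(k4,(nat_lit 9440))],[(k9,
    (nat_lit 5664)),(k8,(nat_lit 6136)),(k5,(nat_lit 9440))],[(k2,(nat_lit 5685)),(k11,(nat_lit 10995)),(k6,
    (nat_lit 16680))],[(k10,(nat_lit 5685)),(k3,(nat_lit 6039)),(k7,(nat_lit 16680))],[(k4,(nat_lit 5664)),(k0,
    (nat_lit 17464)),(k1,(nat_lit 17464))],[(k4,(nat_lit 6136)),(k0,(nat_lit 10856)),(k1,(nat_lit 10856))],[(k10,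
    (nat_lit 7080)),(k3,(nat_lit 7434)),(k7,(nat_lit 10995))],[(k6,(nat_lit 5685)),(k11,(nat_lit 7080)),(k2,
    (nat_lit 10266))]]
    [] k0
    [[k1,k0,k2,k0,k1,k0],[k1,k0,k1,k0,k1,k0],[k0,k2,k0,k0,k0,k0],[k0,k2,k0,k1,k0,k0],[k0,k1,k0,k1,k0,k0],[k0,k2,k0,k2,
    k0,k0],[k0,k1,k0,k1,k0,k1],[k0,k1,k0,k0,k0,k1],[k0,k1,k0,k0,k0,k2],[k0,k1,k0,k1,k0,k2],[k0,k0,k2,k0,k0,k0],[k0,k0,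
    k0,k1,k0,k1],[k0,k0,k0,k1,k0,k2],[k0,k0,k0,k0,k0,k2],[k0,k0,k0,k0,k0,k3]]
    [.contra [y1,y5,y2,z6],.contra [y1,y2,y1,z3],.contra [z1],.ref k26 k0 [(z1,[z0,z1]),(z1,[z3,z0,y1]),(z1,[z0,y3,y1,
    z3])],.contra [y1,y1,z0,z1],.ref k25 k0 [(z1,[z0,z1]),(z2,[z1]),(z1,[z0,y3,y1,z3])],.contra [z1,y2,y1,z2],
    .contra [y1,y1,z0,z1],.ref k23 k0 [(z1,[z0,z1]),(z1,[z1])],.ref k24 k0 [(z1,[z0,z1]),(z1,[y3,z0,z2]),(z1,[z0,y3,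
    y1,z3])],.contra [z1],.contra [y1,y1,z0,z1],.ref k23 k1 [(z1,[z0,z1]),(z1,[z1])],.contra [z1],.ref k24 k0 [(z1,
    [z0,z1]),(z1,[y1,z0,z1]),(z1,[z0,y3,y1,z3])]]),
    .old (.lp [k118,k64,k44,k50,k122,k80] [k4,k70,k64,k64,k74,k74,k71,k71,k70,k0,k56,k56] k0 [[k0,k0,k66],[],[k0,k0,k0,k0,
    k4],[k0,k66],[k0,k0,k0,k0,k0,k0,k70],[k0,k0,k0,k4],[],[k0,k0,k0,k0,k0,k70]] (nat_lit 240) k6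
    [[(k5,k48),(k8,k52),(k9,k122)],[(k5,k48),(k8,k118),(k9,k188)],[(k6,k57),(k11,k72),(k2,k130)],[(k7,k53),(k10,k72),
    (k3,k130)],[(k0,k48),(k1,k48),(k4,k48)],[(k5,k48),(k8,k48),(k9,k48)],[(k2,k53),(k11,k65),(k6,k120)],[(k3,k57),
    (k10,k65),(k7,k120)],[(k4,k48),(k1,k122),(k0,k188)],[(k4,k48),(k1,k52),(k0,k118)],[(k7,k65),(k3,k72),(k10,k80)],
    [(k6,k65),(k2,k72),(k11,k80)]]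
    [] k0
    [[k1,k0,k2,k0,k1,k0],[k1,k0,k1,k0,k1,k0],[k0,k1,k0,k1,k0,k0],[k0,k2,k0,k2,k0,k0],[k0,k1,k0,k2,k0,k0],[k0,k1,k0,k1,
    k0,k1],[k0,k1,k0,k0,k0,k1],[k0,k1,k0,k0,k0,k2],[k0,k0,k2,k0,k0,k0],[k0,k0,k3,k0,k0,k0],[k0,k0,k4,k0,k0,k0],[k0,k0,
    k0,k1,k0,k1],[k0,k0,k0,k1,k0,k2],[k0,k0,k0,k0,k0,k2]]
    [.contra [z1,y1],.contra [z1,y1],.contra [y1,z0,z1],.contra [y1,z0,z2],.contra [y2,z0,z1,z1],.contra [y1,y1,z0,z0,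
    z1],.contra [y1,y1,z0,z0,z1],.contra [z2,z4,z1,z1,y4],.contra [z1],.contra [y1,z0,z0,z1],.contra [y1,z0,z0,z1],
    .contra [y1,y1,z0,z0,z1],.contra [y1,y2,y1,z0,z2],.contra [z1]]),
    .old (.lp [k62,k32,k22,k32,k58,k32] [k0,k28,k29,k29,k34,k34,k29,k29,k32,k0,k29,k29] k0 [[k0,k0,k32],[],[k0,k0,k0,k0,
    k8],[k0,k32],[k0,k0,k0,k0,k0,k0,k32],[k0,k0,k0,k8],[],[k0,k0,k0,k0,k0,k32]] k120 k6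
    [[(k5,k28),(k8,k30),(k9,k62)],[(k5,k24),(k8,k58),(k9,k90)],[(k6,k32),(k11,k32),(k2,k64)],[(k7,k24),(k10,k32),(k3,
    k64)],[(k0,k24),(k1,k28),(k4,k30)],[(k8,k24),(k9,k24),(k5,k30)],[(k2,k24),(k11,k32),(k6,k64)],[(k3,k32),(k10,k32),
    (k7,k64)],[(k4,k24),(k1,k62),(k0,k90)],[(k4,k24),(k1,k30),(k0,k58)],[(k3,k32),(k7,k32),(k10,k32)],[(k2,k32),(k6,
    k32),(k11,k32)]]
    [] k0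
    [[k1,k0,k2,k0,k1,k0],[k1,k0,k1,k0,k1,k0],[k0,k1,k0,k1,k0,k0],[k0,k2,k0,k2,k0,k0],[k0,k1,k0,k1,k0,k1],[k0,k1,k0,k0,
    k0,k1],[k0,k1,k0,k0,k0,k2],[k0,k0,k2,k0,k0,k0],[k0,k0,k3,k0,k0,k0],[k0,k0,k0,k1,k0,k1],[k0,k0,k0,k1,k0,k2],[k0,k0,
    k0,k0,k0,k2],[k0,k0,k0,k0,k0,k3]]
    [.contra [z1,y1],.contra [z1,y1],.contra [y1,z0,z1],.contra [y1,z0,z2],.contra [y1,y1,z0,z1],.contra [y1,y1,z0,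
    z1],.ref k23 k0 [(z1,[z0,z1]),(z1,[z1])],.contra [z1],.ref k27 k0 [(z1,[z0,z1]),(z1,[y1,y3,z0,z3])],.contra [y1,
    y1,z0,z1],.contra [y1,y2,y1,z2],.contra [z1],.ref k28 k0 [(z1,[z0,z1]),(z1,[z0,z0,z1]),(z1,[y2,y6,y3,z6])]]),
    .old (.leafM k12 [k1,k2,k3,k5] [(z1,[z0,z0,z1]),(z1,[y2,y2,y1,z2]),(z1,[z0,z1])] [(k4,k0,z1,[z1]),(k0,k4,z1,[z1])]),
    .old (.lp [k56,k40,k4,k40,k64,k34] [k12,k0,k14,k14,k32,k32,k18,k10,k0,k4,k17,k17] k0 [[],[],[k0,k0,k0,k0,k20],[k0,k0,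
    k0,k0,k0,k0,k0,k0,k0,k0,k12],[k0,k0,k0,k0,k0,k0,k0,k0,k0,k12],[k0,k0,k0,k20],[],[],[k0,k0,k0,k0,k0,k12],[],[],[k0,
    k0,k12]] k120 k6
    [[(k5,k24),(k9,k64),(k8,k68)],[(k5,k24),(k9,k52),(k8,k56)],[(k6,k36),(k11,k37),(k2,k40)],[(k7,k24),(k3,k40),(k10,
    k49)],[(k0,k24),(k1,k24),(k4,k24)],[(k5,k24),(k8,k24),(k9,k32)],[(k2,k24),(k6,k40),(k11,k53)],[(k10,k33),(k3,k36),
    (k7,k40)],[(k4,k32),(k0,k52),(k1,k64)],[(k4,k24),(k0,k56),(k1,k68)],[(k10,k34),(k3,k37),(k7,k53)],[(k6,k33),(k11,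
    k34),(k2,k49)]]
    [] k0
    [[k1,k0,k1,k0,k1,k0],[k1,k0,k2,k0,k1,k0],[k0,k2,k0,k0,k0,k0],[k0,k2,k0,k1,k0,k0],[k0,k1,k0,k1,k0,k0],[k0,k1,k0,k2,
    k0,k0],[k0,k1,k0,k0,k0,k1],[k0,k1,k0,k1,k0,k1],[k0,k0,k2,k0,k0,k0],[k0,k0,k3,k0,k0,k0],[k0,k0,k4,k0,k0,k0],[k0,k0,
    k0,k2,k0,k0],[k0,k0,k0,k1,k0,k1],[k0,k0,k0,k0,k0,k2],[k0,k0,k0,k0,k0,k3]]
    [.contra [y1,z0,y1,z1],.contra [y1,y1,y2,z2],.contra [z1],.contra [z1,z0,y1],.contra [y1,z0,z2],.contra [z1,z0,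
    y1],.contra [y1,y1,z0,z1],.contra [z1,z0,y1],.contra [z1],.ref k27 k0 [(z1,[z0,z1]),(z1,[y1,y3,z0,z3])],
    .ref k30 k0 [(z1,[z0,z1]),(z1,[z0,z0,z1]),(z2,[z1])],.contra [z1],.contra [y1,y1,z0,z1],.contra [z1],
    .ref k21 k0 [(z1,[z0,z1]),(z1,[z0,z0,z1]),(z1,[y1,y3,y3,z3])]]),
    .old (.lp [(nat_lit 197886),(nat_lit 202960),(nat_lit 45666),(nat_lit 154800),(nat_lit 410994),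
    (nat_lit 202960)] [(nat_lit 202960),(nat_lit 202960),(nat_lit 200423),(nat_lit 200423),(nat_lit 279070),
    (nat_lit 279070),(nat_lit 274063),(nat_lit 174943),(nat_lit 192812),k0,(nat_lit 200423),(nat_lit 200423)] k0 [[],
    [],[k0,k0,k0,k0,(nat_lit 106554)],[],[k0,k0,k0,k0,k0,k0,(nat_lit 202960)],[k0,k0,k0,(nat_lit 106554)],[],[k0,k0,
    k0,k0,k0,(nat_lit 202960)]] (nat_lit 608880) k6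
    [[(k5,(nat_lit 121776)),(k8,(nat_lit 208034)),(k9,(nat_lit 400846))],[(k5,(nat_lit 121776)),(k8,(nat_lit 208034)),
    (k9,(nat_lit 400846))],[(k6,(nat_lit 129320)),(k2,(nat_lit 202960)),(k11,(nat_lit 202960))],[(k7,
    (nat_lit 121886)),(k3,(nat_lit 202960)),(k10,(nat_lit 202960))],[(k0,(nat_lit 121776)),(k1,(nat_lit 121776)),(k4,
    (nat_lit 152220))],[(k9,(nat_lit 121776)),(k8,(nat_lit 131924)),(k5,(nat_lit 152220))],[(k2,(nat_lit 121886)),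
    (k11,(nat_lit 228440)),(k6,(nat_lit 357760))],[(k3,(nat_lit 129320)),(k10,(nat_lit 129320)),(k7,
    (nat_lit 357760))],[(k4,(nat_lit 121776)),(k0,(nat_lit 400846)),(k1,(nat_lit 400846))],[(k4,(nat_lit 131924)),(k0,
    (nat_lit 208034)),(k1,(nat_lit 208034))],[(k3,(nat_lit 202960)),(k10,(nat_lit 202960)),(k7,(nat_lit 228440))],
    [(k6,(nat_lit 129320)),(k2,(nat_lit 202960)),(k11,(nat_lit 202960))]]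
    [] k0
    [[k1,k0,k2,k0,k1,k0],[k1,k0,k1,k0,k1,k0],[k0,k2,k0,k0,k0,k0],[k0,k2,k0,k1,k0,k0],[k0,k1,k0,k1,k0,k0],[k0,k2,k0,k2,
    k0,k0],[k0,k1,k0,k1,k0,k1],[k0,k1,k0,k0,k0,k1],[k0,k0,k2,k0,k0,k0],[k0,k0,k3,k0,k0,k0],[k0,k0,k0,k1,k0,k1],[k0,k0,
    k0,k1,k0,k2],[k0,k0,k0,k0,k0,k2]]
    [.contra [z1,y1],.contra [z1,y1],.contra [z1],.ref k29 k0 [(z1,[z0,z1]),(z1,[z1])],.contra [y1,y1,z1],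
    .ref k31 k0 [(z1,[z0,z1]),(z2,[z1])],.contra [y1,y1,z1],.contra [y1,y1,z1],.contra [z1],.ref k27 k0 [(z1,[z0,z1]),
    (z1,[y1,y3,z3])],.contra [y1,y1,z1],.ref k23 k1 [(z1,[z0,z1]),(z1,[z1])],.contra [z1]]),
    .old (.lp [k14,k112,k126,k112,k160,k140] [k87,k87,k38,k38,k31,k31,k38,k38,k0,k28,k24,k24] k0 [[],[],[],[],[k0,k0,k0,
    k0,k0,k0,k0,k0,k0,k84],[],[],[],[k0,k0,k0,k0,k0,k84]] (nat_lit 336) k6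
    [[(k5,k70),(k9,k73),(k8,k101)],[(k5,k70),(k9,k73),(k8,k101)],[(k2,k112),(k6,k112),(k11,k126)],[(k3,k112),(k7,
    k112),(k10,k126)],[(k0,k70),(k1,k70),(k4,k126)],[(k8,k73),(k5,k126),(k9,k129)],[(k2,k112),(k6,k112),(k11,
    (nat_lit 210))],[(k3,k112),(k7,k112),(k10,k126)],[(k0,k73),(k1,k73),(k4,k129)],[(k4,k73),(k0,k101),(k1,k101)],
    [(k3,k126),(k10,k140),(k7,(nat_lit 210))],[(k2,k126),(k6,k126),(k11,k140)]]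
    [] k0
    [[k1,k0,k1,k0,k1,k0],[k1,k0,k0,k0,k1,k0],[k0,k2,k0,k0,k0,k0],[k0,k1,k0,k1,k0,k0],[k0,k1,k0,k0,k0,k1],[k0,k0,k2,k0,
    k0,k0],[k0,k0,k0,k2,k0,k0],[k0,k0,k0,k0,k0,k2]]
    [.ref k0 k0 [(z1,[z1])],.ref k32 k0 [(z1,[z1])],.contra [z1],.ref k18 k0 [(z1,[y1,z1])],.ref k15 k0 [(z1,[y1,
    z1])],.contra [z1],.contra [z1],.contra [z1]])]⟩

/-- classes `0 0 0 0 0 0`, types `N0 N1 N0 N1 N3 N2` -/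
noncomputable def cU6_40 : CertX :=
  ⟨[k12,k13,k12,k13,k15,k14],[(false,k0,[k0,k1,k2,k3,k4,k5]),(true,k4,[k4,k3,k2,k1,k0,k5])],[[[([z1,z1,z0,z1,z1,z0],
    z2)],[([z3,z0,z0,z0,z3,z0],z2),([z0,z1,z0,z1,z0,z0],z2),([z0,z0,z3,z0,z0,z0],z2)],[([z1,z0,z0,z0,z1,z0],z1),([z0,
    z1,z0,z1,z0,z0],z2),([z0,z0,z3,z0,z0,z0],z1)],[([z3,z0,z3,z0,z3,z0],z4),([z0,z1,z0,z1,z0,z0],z2)],[([z1,z0,z0,z0,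
    z1,z0],z2),([z0,z3,z0,z3,z0,z0],z2),([z0,z0,z3,z0,z0,z0],z2)],[([z1,z0,z0,z0,z1,z0],z2),([z0,z1,z0,z1,z0,z0],z1),
    ([z0,z0,z3,z0,z0,z0],z1)],[([z1,z0,z0,z0,z1,z0],z2),([z0,z2,z0,z1,z0,z0],z2),([z0,z0,z6,z3,z0,z0],z2)],[([z1,z0,
    z0,z0,z1,z0],z2),([z0,z3,z3,z3,z0,z0],z4)],[([z1,z0,z1,z0,z1,z0],z2),([z0,z3,z0,z0,z0,z0],z2),([z0,z0,z0,z3,z0,
    z0],z2)],[([z1,z0,z1,z0,z1,z0],z2),([z0,z3,z0,z3,z0,z0],z4)],[([z3,z3,z3,z3,z3,z0],z10)],[([z2,z0,z0,z0,z2,z1],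
    z2),([z0,z2,z0,z0,z0,y1],z2),([z0,z0,z2,z0,z0,z1],z2)]],[[([z2,z0,z0,z0,z2,z1],z2),([z0,z1,z0,z1,z0,z0],z2)],
    [([z1,z0,z0,z0,z1,z0],z1),([z0,z1,z0,z1,z0,z0],z2),([z0,z0,z3,z0,z0,z0],z2)],[([z3,z0,z0,z0,z3,z3],z4),([z0,z3,z0,
    z0,z0,y3],z2),([z0,z0,z3,z0,z0,z0],z2)],[([z3,z0,z0,z0,z3,z3],z4),([z0,z1,z0,z1,z0,z0],z2)],[([z1,z0,z0,y1,z1,z0],
    z0),([z0,z1,z0,z1,z0,z0],z2)],[([z1,z0,z0,z0,z1,z0],z1),([z0,z1,z0,z1,z0,z0],z2),([z0,z0,z2,z0,z0,z0],z1)],[([z1,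
    z0,z0,z0,z1,z0],z1),([z0,z1,z0,z1,z0,z0],z2)],[([z1,z0,z1,z0,z1,z1],z2)],[([z1,z0,z0,z0,z1,z0],z2),([z0,z3,z0,z0,
    z0,y3],z2),([z0,z0,z3,z0,z0,z0],z2)],[([z1,z0,z0,z0,z1,z0],z2),([z0,z2,z0,z1,z0,z0],z2)],[([z1,z0,z0,z0,z1,z0],
    z2),([z0,z1,z0,z1,z0,z0],z1),([z0,z0,z3,z0,z0,z0],z2)],[([z1,z0,z0,z0,z1,z0],z2),([z0,z1,z0,z1,z0,z0],z1),([z0,z0,
    z2,z0,z0,z0],z1)]],[[([z1,z0,z0,z0,z1,z0],z2),([z0,z1,z0,z1,z0,z0],z1)],[([z1,z0,z0,z0,z1,z0],z2)],[]]],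
    [.old (.leafM k6 [k0,k1,k3,k4] [] [(k2,k5,z1,[y1,z1]),(k5,k2,z1,[y1,z1])]),
    .old (.leafM k10 [k0,k2,k4,k5] [(z1,[z0,z0,z1]),(z1,[y1,y3,y1,z3]),(z1,[z1])] [(k1,k3,z1,[z0,z1]),(k3,k1,z1,[z0,z1])]),
    .old (.leafM k11 [k4,k5,k0,k2] [(z1,[y3,y3,y1,z3]),(z1,[z0,z0,z1]),(z1,[z1])] [(k1,k3,z1,[z0,z1]),(k3,k1,z1,[z0,z1])]),
    .old (.lp [k62,k118,k60,k122,k56,k60] [k39,k21,k2,k2,k31,k31,k0,k0,k33,k33,k31,k31] k0 [[k0,k0,k0,k0,k0,k0,k0,k0,k0,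
    k0,k0,k4],[k0,k0,k0,k22],[k22],[],[],[k0,k0,k0,k0,k0,k0,k0,k26],[k0,k0,k0,k0,k26],[],[k0,k0,k0,k0,k0,k0,k0,k0,k0,
    k0,k20],[],[k0,k4],[k0,k0,k0,k0,k0,k0,k0,k0,k0,k20]] (nat_lit 240) k6
    [[(k8,k48),(k7,k101),(k3,k103)],[(k10,k48),(k9,k50),(k5,k74)],[(k2,k96),(k1,k103),(k6,k120)],[(k8,k87),(k3,k96),
    (k7,k120)],[(k4,k60),(k11,k60),(k0,k74)],[(k5,k60),(k10,k60),(k9,k84)],[(k6,k96),(k1,k101),(k2,k120)],[(k8,k89),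
    (k7,k96),(k3,k120)],[(k0,k50),(k11,k58),(k4,k84)],[(k1,k48),(k2,k87),(k6,k89)],[(k9,k58),(k5,k60),(k10,k80)],[(k0,
    k48),(k4,k60),(k11,k80)]]
    [] k0
    [[k1,k0,k0,k0,k1,k0],[k2,k0,k0,k0,k2,k0],[k1,k0,k1,k0,k1,k0],[k1,k0,k0,k0,k1,k1],[k1,k0,k0,k0,k1,k2],[k0,k2,k0,k0,
    k0,k0],[k0,k0,k2,k0,k0,k0],[k0,k0,k3,k0,k0,k0],[k0,k0,k2,k0,k0,k1],[k0,k0,k1,k0,k0,k1],[k0,k0,k1,k0,k0,k2],[k0,k0,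
    k0,k2,k0,k0],[k0,k0,k0,k0,k0,k2]]
    [.contra [y3,z1,z1],.ref k2 k0 [(z2,[z1]),(z1,[z0,z0,z1]),(z2,[y3,z2])],.contra [z1,y1,y2,z2],.contra [y1,z0,y1,
    z1],.ref k1 k0 [(z1,[z3,z2,z6,y6]),(z1,[z0,z0,z1]),(z1,[y3,y1,y6,z6])],.contra [z1],.contra [z1],.ref k1 k0 [(z1,
    [y1,z1]),(z1,[z0,z0,z1]),(z1,[z1])],.ref k1 k0 [(z2,[y3,z1,y3,z3]),(z1,[z0,z0,z1]),(z2,[z3,z1,z3,y3])],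
    .contra [y1,z0,y1,z1],.ref k1 k0 [(z1,[y3,y1,y6,z6]),(z1,[z0,z0,z1]),(z1,[z3,z2,z6,y6])],.contra [y1,z0,z2],
    .contra [z1]]),
    .old (.leafM k10 [k1,k2,k3,k5] [(z1,[z0,z0,z1]),(z1,[y3,y1,y1,z3]),(z1,[z0,z1])] [(k4,k0,z1,[z1]),(k0,k4,z1,[z1])]),
    .old (.leafM k11 [k3,k5,k1,k2] [(z1,[y3,y3,y1,z3]),(z1,[z0,z0,z1]),(z1,[z0,z1])] [(k4,k0,z1,[z1]),(k0,k4,z1,[z1])]),
    .old (.lp [(nat_lit 56686500),(nat_lit 56434560),(nat_lit 31744440),(nat_lit 29099070),(nat_lit 36756720),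
    (nat_lit 42325920)] [(nat_lit 2485485),(nat_lit 2485485),(nat_lit 2611455),(nat_lit 2611455),(nat_lit 14956515),
    (nat_lit 14956515),k0,(nat_lit 32558400),(nat_lit 12450375),(nat_lit 12450375),(nat_lit 9665775),
    (nat_lit 9665775)] k0 [[k0,k0,(nat_lit 18811520)],[k0,k0,k0,k0,k0,k0,k0,(nat_lit 33611760)],[k0,k0,k0,k0,k0,k0,k0,
    k0,k0,(nat_lit 21162960)],[k0,(nat_lit 18811520)],[k0,k0,k0,k0,k0,k0,(nat_lit 8465184)],[],[(nat_lit 33611760)],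
    [k0,k0,k0,k0,k0,(nat_lit 8465184)],[k0,k0,k0,(nat_lit 21162960)]] (nat_lit 126977760) k6
    [[(k7,(nat_lit 26613585)),(k8,(nat_lit 46721610)),(k3,(nat_lit 56560530))],[(k5,(nat_lit 25403950)),(k10,
    (nat_lit 49506210)),(k9,(nat_lit 80333370))],[(k6,(nat_lit 25434255)),(k1,(nat_lit 56560530)),(k2,
    (nat_lit 75246080))],[(k8,(nat_lit 25432680)),(k7,(nat_lit 26487615)),(k3,(nat_lit 75246080))],[(k0,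
    (nat_lit 25403950)),(k4,(nat_lit 31744440)),(k11,(nat_lit 58198140))],[(k9,(nat_lit 25785396)),(k5,
    (nat_lit 31744440)),(k10,(nat_lit 37035180))],[(k2,(nat_lit 26487615)),(k1,(nat_lit 26613585)),(k6,
    (nat_lit 37564254))],[(k3,(nat_lit 25434255)),(k7,(nat_lit 37564254)),(k8,(nat_lit 49207095))],[(k4,
    (nat_lit 25785396)),(k11,(nat_lit 39541320)),(k0,(nat_lit 80333370))],[(k2,(nat_lit 25432680)),(k1,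
    (nat_lit 46721610)),(k6,(nat_lit 49207095))],[(k9,(nat_lit 39541320)),(k10,(nat_lit 42325920)),(k5,
    (nat_lit 58198140))],[(k4,(nat_lit 37035180)),(k11,(nat_lit 42325920)),(k0,(nat_lit 49506210))]]
    [] k0
    [[k1,k0,k1,k0,k1,k0],[k0,k1,k0,k1,k0,k0],[k0,k2,k0,k2,k0,k0],[k0,k1,k0,k2,k0,k0],[k0,k0,k2,k0,k0,k0],[k0,k0,k3,k0,
    k0,k0],[k0,k0,k1,k0,k0,k1],[k0,k0,k0,k2,k0,k0],[k0,k0,k0,k3,k0,k0],[k0,k0,k0,k0,k0,k2]]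
    [.contra [z1,y1],.contra [y1,z0,z1],.contra [y1,z0,z2],.contra [y2,z0,z1,z1],.contra [z1],.contra [y1,z0,z0,z1],
    .contra [y1,y1,z0,z0,z1],.contra [z1],.contra [y1,z0,z0,z1],.contra [z1]]),
    .old (.lp [k18,k40,k30,k34,k77,k40] [k37,k37,k38,k14,k31,k31,k29,k29,k15,k0,k26,k26] k0 [[],[k0,k0,k0,k0,k0,k0,k0,
    k25],[k0,k0,k0,k0,k0,k0,k0,k0,k0,k8],[],[k0,k0,k0,k0,k0,k0,k37],[k0,k0,k0,k0,k0,k0,k0,k0,k0,k0,k2],[k25],[k0,k0,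
    k0,k0,k0,k37],[k0,k0,k0,k8],[],[],[k0,k0,k0,k0,k2]] k120 k6
    [[(k7,k24),(k8,k40),(k3,k41)],[(k5,k24),(k10,k29),(k9,k80)],[(k6,k24),(k2,k40),(k1,k41)],[(k7,k25),(k8,k31),(k3,
    k40)],[(k0,k24),(k4,k30),(k11,k43)],[(k9,k24),(k5,k30),(k10,k37)],[(k1,k24),(k2,k25),(k6,k71)],[(k3,k24),(k8,k48),
    (k7,k71)],[(k4,k24),(k11,k66),(k0,k80)],[(k2,k31),(k1,k40),(k6,k48)],[(k10,k40),(k5,k43),(k9,k66)],[(k0,k29),(k4,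
    k37),(k11,k40)]]
    [] k0
    [[k1,k0,k1,k0,k1,k0],[k1,k0,k2,k0,k1,k0],[k0,k2,k0,k0,k0,k0],[k0,k2,k0,k1,k0,k0],[k0,k1,k0,k1,k0,k0],[k0,k2,k0,k2,
    k0,k0],[k0,k0,k2,k0,k0,k0],[k0,k0,k3,k0,k0,k0],[k0,k0,k2,k0,k0,k1],[k0,k0,k1,k0,k0,k1],[k0,k0,k0,k0,k0,k2]]
    [.contra [z1,y1],.contra [z1,y1],.contra [z1],.ref k6 k0 [(z1,[z0,z1]),(z1,[z1]),(z1,[y3,z0,z2])],.contra [y2,z0,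
    z1],.ref k5 k0 [(z1,[z0,z1]),(z2,[z1]),(z2,[y3,z0,z2])],.contra [z1],.ref k4 k0 [(z1,[z0,z1]),(z1,[y1,z0,z1]),(z1,
    [z1])],.ref k4 k0 [(z1,[z0,z1]),(z2,[y3,y3,z1,z3]),(z2,[z3,z3,z1,y3])],.contra [y1,y1,z0,z1],.contra [z1]]),
    .old (.leafM k2 [k0,k1,k2,k3,k4,k5] [(z1,[z0,z1]),(z1,[z0,z0,z1]),(z1,[y3,y1,y1,z3])] []),
    .old (.lp [k28,k32,k40,k42,k56,k40] [k14,k14,k12,k12,k8,k8,k7,k7,k0,k0,k8,k8] k0 [[k0,k0,k0,k0,k0,k0,k0,k0,k0,k0,k0,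
    k4],[],[],[],[k0,k0,k0,k0,k0,k0,k4],[],[],[k0,k0,k0,k0,k0,k4],[],[],[k0,k4]] k120 k5
    [[(k3,k34),(k7,k35),(k8,k42)],[(k10,k30),(k5,k34),(k9,k42)],[(k2,k32),(k1,k34),(k6,k37)],[(k3,k32),(k7,k37),(k8,
    k44)],[(k0,k34),(k4,k40),(k11,k40)],[(k5,k40),(k10,k40),(k9,k44)],[(k1,k35),(k2,k37),(k6,k46)],[(k3,k37),(k7,k46),
    (k8,k49)],[(k0,k42),(k4,k44),(k11,k48)],[(k1,k42),(k2,k44),(k6,k49)],[(k5,k40),(k10,k40),(k9,k48)],[(k0,k30),(k4,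
    k40),(k11,k40)]]
    [] k0
    [[k1,k0,k0,k0,k1,k0],[k0,k2,k0,k0,k0,k0],[k0,k3,k0,k0,k0,k0],[k0,k2,k0,k1,k0,k0],[k0,k1,k0,k1,k0,k0],[k0,k0,k2,k0,
    k0,k0],[k0,k0,k1,k0,k0,k1],[k0,k0,k0,k2,k0,k0],[k0,k0,k0,k0,k0,k2]]
    [.contra [y1,z1],.contra [z1],.ref k8 k0 [(z1,[z0,z1]),(z1,[z1]),(z1,[y1,z0,z1])],.ref k8 k0 [(z1,[z0,z1]),(z1,
    [z3,z0,y1]),(z1,[y3,z0,z2])],.contra [z1,y2,y1,z2],.contra [z1],.ref k0 k0 [(z1,[y1,z0,z0,z1])],.contra [z1],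
    .contra [z1]]),
    .old (.lp [k111,k78,k80,k78,k49,k80] [k0,k13,k23,k23,k22,k22,k23,k23,k41,k34,k22,k22] k0 [[k0,k0,k42],[k0,k0,k0,k0,k0,
    k0,k0,k2],[],[k0,k42],[k0,k0,k0,k0,k0,k0,k8],[],[k2],[k0,k0,k0,k0,k0,k8]] (nat_lit 240) k5
    [[(k8,k70),(k3,k88),(k7,k88)],[(k5,k60),(k9,k92),(k10,k102)],[(k6,k76),(k1,k88),(k2,k120)],[(k8,k60),(k7,k78),(k3,
    k120)],[(k0,k60),(k4,k80),(k11,k80)],[(k9,k60),(k5,k80),(k10,k80)],[(k2,k78),(k6,k86),(k1,k88)],[(k8,k60),(k3,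
    k76),(k7,k86)],[(k4,k60),(k11,k68),(k0,k92)],[(k2,k60),(k6,k60),(k1,k70)],[(k9,k68),(k5,k80),(k10,k80)],[(k4,k80),
    (k11,k80),(k0,k102)]]
    [] k0
    [[k1,k0,k0,k0,k1,k0],[k1,k0,k1,k0,k1,k0],[k0,k1,k0,k1,k0,k0],[k0,k0,k2,k0,k0,k0],[k0,k0,k1,k0,k0,k1],[k0,k0,k0,k2,
    k0,k0],[k0,k0,k0,k0,k0,k2]]
    [.ref k7 k0 [(z1,[z1]),(z1,[y3,z1])],.ref k9 k0 [(z1,[z1]),(z1,[y3,z1])],.ref k3 k0 [(z1,[y3,z1]),(z1,[z1])],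
    .contra [z1],.ref k0 k0 [(z1,[y1,z0,z1])],.contra [z1],.contra [z1]]),
    .old (.tor k22 false k0 [(z1,[z0,z0,z1]),(z2,[y1,z0,y1,z2]),(z2,[z0,y1,y1,z2]),(z2,[z1,z1])]),
    .old (.lp [k16,k80,k82,k140,k80,k80] [k62,k62,k30,k30,k29,k29,k0,k0,k30,k30,k30,k30] k0 [[],[],[k0,k0,k0,k0,k0,k0,k0,
    k0,k0,k16],[k0,k0,k0,k0,k0,k20],[k0,k0,k20],[],[],[k0,k0,k0,k0,k0,k0,k0,k0,k4],[k0,k0,k0,k16],[k0,k0,k0,k0,k0,k0,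
    k4]] (nat_lit 240) k6
    [[(k3,k48),(k8,k48),(k7,k78)],[(k9,k48),(k10,k48),(k5,k49)],[(k1,k48),(k2,k80),(k6,k110)],[(k8,k64),(k3,k80),(k7,
    k130)],[(k0,k49),(k4,k62),(k11,k97)],[(k5,k62),(k9,k81),(k10,k81)],[(k1,k78),(k2,k130),(k6,k140)],[(k3,k110),(k8,
    k114),(k7,k140)],[(k0,k48),(k11,k76),(k4,k81)],[(k1,k48),(k2,k64),(k6,k114)],[(k9,k76),(k10,k80),(k5,k97)],[(k0,
    k48),(k11,k80),(k4,k81)]]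
    [] k0
    [[k1,k1,k0,k0,k1,k0],[k1,k1,k0,k0,k1,k1],[k1,k0,k0,k0,k1,k0],[k2,k0,k0,k0,k2,k0],[k1,k0,k1,k0,k1,k0],[k1,k0,k0,k0,
    k1,k1],[k0,k2,k0,k0,k0,k0],[k0,k0,k2,k0,k0,k0],[k0,k0,k3,k0,k0,k0],[k0,k0,k1,k0,k0,k1],[k0,k0,k0,k0,k0,k2]]
    [.ref k11 k0 [(z1,[z0,z1]),(z1,[z2,y1]),(z1,[z0,y1,y2,z2])],.ref k11 k1 [(z1,[z0,z1]),(z1,[y2,z1,z2]),(z1,[z0,y1,
    y2,z2])],.contra [y2,z1,z1],.contra [z1,y2,y2,z2],.contra [z1,y1,y1,z1],.contra [y1,z0,y1,z1],.contra [z1],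
    .contra [z1],.ref k10 k0 [(z1,[z2,z3,z6,y3])],.contra [y1,y1,y2,z2],.contra [z1]]),
    .old (.leafM k11 [k0,k2,k4,k5] [(z1,[z0,z0,z1]),(z1,[y3,y3,y1,z3]),(z1,[z1])] [(k1,k3,z1,[z0,z1]),(k3,k1,z1,[z0,z1])]),
    .old (.lp [k30,k158,k80,k82,k66,k62] [k64,k64,k0,k0,k39,k39,k38,k38,k46,k46,k48,k48] k0 [[],[k0,k0,k0,k0,k0,k0,k0,k0,
    k0,k0,k2],[],[],[],[],[k0,k0,k0,k0,k0,k0,k0,k0,k0,k18],[],[k0,k0,k0,k0,k0,k0,k0,k18],[],[],[k2]] (nat_lit 240) k6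
    [[(k8,k48),(k7,k56),(k3,k92)],[(k9,k48),(k10,k48),(k5,k55)],[(k1,k92),(k6,k120),(k2,k158)],[(k8,k112),(k7,k120),
    (k3,k158)],[(k0,k55),(k11,k71),(k4,k80)],[(k10,k71),(k9,k73),(k5,k80)],[(k1,k56),(k6,k82),(k2,k120)],[(k8,k56),
    (k7,k82),(k3,k120)],[(k0,k48),(k4,k73),(k11,k82)],[(k1,k48),(k6,k56),(k2,k112)],[(k10,k62),(k5,k71),(k9,k82)],
    [(k0,k48),(k11,k62),(k4,k71)]]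
    [] k0
    [[k1,k0,k0,k1,k1,k0],[k1,k0,k0,k0,k1,k0],[k2,k0,k0,k0,k2,k0],[k1,k0,k1,k0,k1,k0],[k1,k0,k0,k0,k1,k1],[k0,k0,k2,k0,
    k0,k0],[k0,k0,k2,k0,k0,k1],[k0,k0,k1,k0,k0,k1],[k0,k0,k1,k0,k0,k2],[k0,k0,k0,k2,k0,k0],[k0,k0,k0,k0,k0,k2],[k0,k0,
    k0,k0,k0,k3]]
    [.contra [y3,z0,z1,y1,z3],.contra [y3,z1,z1],.contra [y3,z2,z2],.contra [y3,z1,z0,z1],.contra [z3,y1,z0,z2],
    .contra [z1],.ref k10 k0 [(z1,[y3,z0,z0,z2,z3])],.contra [y3,y1,y1,z0,z3],.ref k10 k0 [(z2,[y3,z0,z0,z1,z6])],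
    .contra [y3,y2,z0,y2,z6],.contra [z1],.ref k10 k0 [(z1,[y1,z0,z0,z0,z3])]]),
    .old (.lp [k26,k80,k80,k160,k70,k62] [k67,k67,k40,k40,k40,k40,k0,k0,k45,k45,k49,k49] k0 [[],[k0,k0,k0,k0,k0,k0,k0,k0,
    k0,k0,k4],[],[],[],[],[k0,k0,k0,k0,k0,k0,k0,k0,k0,k16],[],[k0,k0,k0,k0,k0,k0,k0,k16],[],[],[k4]] (nat_lit 240) k6
    [[(k8,k48),(k3,k49),(k7,k93)],[(k9,k48),(k10,k48),(k5,k53)],[(k1,k49),(k2,k80),(k6,k120)],[(k8,k75),(k3,k80),(k7,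
    k120)],[(k0,k53),(k11,k71),(k4,k80)],[(k10,k71),(k9,k75),(k5,k80)],[(k1,k93),(k2,k120),(k6,k160)],[(k8,k99),(k3,
    k120),(k7,k160)],[(k0,k48),(k4,k75),(k11,k82)],[(k1,k48),(k2,k75),(k6,k99)],[(k10,k62),(k5,k71),(k9,k82)],[(k0,
    k48),(k11,k62),(k4,k71)]]
    [] k0
    [[k1,k1,k0,k0,k1,k0],[k1,k0,k0,k0,k1,k0],[k2,k0,k0,k0,k2,k0],[k1,k0,k1,k0,k1,k0],[k1,k0,k0,k0,k1,k1],[k0,k2,k0,k0,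
    k0,k0],[k0,k0,k2,k0,k0,k0],[k0,k0,k2,k0,k0,k1],[k0,k0,k1,k0,k0,k1],[k0,k0,k1,k0,k0,k2],[k0,k0,k0,k0,k0,k2],[k0,k0,
    k0,k0,k0,k3]]
    [.ref k14 k0 [(z1,[z0,z1]),(z1,[z3,y1]),(z1,[z0,y1,y3,z3])],.contra [y1,z0,y1,z1],.ref k13 k0 [(z2,[z1]),(z1,[z0,
    z0,z1]),(z1,[z0,y1,y3,z3])],.contra [y1,z0,y1,z1],.contra [z1,y1,y2,z2],.contra [z1],.contra [z1],
    .ref k10 k0 [(z1,[y3,y2,y6,z9])],.contra [y1,z0,y1,z1],.ref k10 k0 [(z2,[y3,y1,y3,z9])],.contra [z1],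
    .ref k10 k0 [(z1,[y1,z0,z0,z3])]]),
    .old (.lp [k20,k142,k80,k80,k76,k80] [k61,k61,k0,k0,k31,k31,k31,k31,k33,k33,k31,k31] k0 [[k0,k0,k0,k0,k0,k0,k0,k0,k0,
    k0,k0,k2],[k0,k0,k0,k2],[k2],[k0,k0,k0,k0,k0,k18],[k0,k0,k18],[],[],[],[],[],[k0,k2]] (nat_lit 240) k6
    [[(k8,k48),(k7,k50),(k3,k83)],[(k9,k48),(k10,k48),(k5,k52)],[(k1,k83),(k6,k111),(k2,k140)],[(k8,k109),(k7,k129),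
    (k3,k140)],[(k0,k52),(k4,k62),(k11,k80)],[(k5,k62),(k9,k78),(k10,k80)],[(k1,k50),(k6,k80),(k2,k129)],[(k8,k78),
    (k7,k80),(k3,k111)],[(k0,k48),(k4,k78),(k11,k78)],[(k1,k48),(k6,k78),(k2,k109)],[(k9,k78),(k5,k80),(k10,k80)],
    [(k0,k48),(k4,k80),(k11,k80)]]
    [] k0
    [[k1,k0,k0,k1,k1,k0],[k1,k0,k0,k0,k1,k0],[k2,k0,k0,k0,k2,k0],[k1,k0,k1,k0,k1,k0],[k1,k0,k0,k0,k1,k1],[k0,k0,k2,k0,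
    k0,k0],[k0,k0,k3,k0,k0,k0],[k0,k0,k2,k0,k0,k1],[k0,k0,k1,k0,k0,k1],[k0,k0,k0,k2,k0,k0],[k0,k0,k0,k0,k0,k2]]
    [.contra [y1,z1,z2],.contra [y1,z1,z1],.contra [y1,z2,z2],.contra [y1,z0,y1,z1],.contra [y1,z0,y1,z1],
    .contra [z1],.ref k15 k0 [(z1,[y1,z0,y3,z3]),(z1,[z0,z0,z1])],.ref k12 k0 [(z1,[y1,z0,y2,z2]),(z1,[z0,z0,z1])],
    .contra [y1,y1,y1,z1],.contra [y1,z0,z2],.contra [z1]]),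
    .old (.leafM k12 [k0,k2,k4,k5] [(z1,[z0,z0,z1]),(z1,[y2,y2,y1,z2]),(z1,[z1])] [(k1,k3,z1,[z0,z1]),(k3,k1,z1,[z0,z1])]),
    .old (.lp [k78,k166,k170,(nat_lit 240),k70,(nat_lit 232)] [k96,k96,k52,k52,k50,k50,k30,k0,k122,k78,k19,k19] k0 [[],[],
    [],[k0,k0,k0,k0,k0,k74],[k0,k0,k74],[k0,k0,k0,k0,k0,k0,k0,k0,k0,k0,k78],[],[],[],[k0,k0,k0,k0,k0,k0,k0,k0,k0,k0,
    k0,k100],[k0,k0,k0,k0,k0,k0,k0,k0,k100],[k0,k0,k0,k0,k78]] (nat_lit 480) k6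
    [[(k7,k96),(k3,k122),(k8,k152)],[(k9,k96),(k5,k124),(k10,k155)],[(k1,k122),(k2,k166),(k6,k188)],[(k8,k96),(k3,
    k166),(k7,(nat_lit 292))],[(k4,k96),(k0,k124),(k11,(nat_lit 201))],[(k5,k96),(k9,k142),(k10,(nat_lit 279))],[(k1,
    k96),(k6,(nat_lit 240)),(k2,(nat_lit 292))],[(k8,k118),(k3,k188),(k7,(nat_lit 240))],[(k0,k96),(k4,k142),(k11,
    k173)],[(k2,k96),(k6,k118),(k1,k152)],[(k10,k132),(k9,k173),(k5,(nat_lit 201))],[(k11,k132),(k0,k155),(k4,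
    (nat_lit 279))]]
    [] k0
    [[k1,k1,k0,k0,k1,k0],[k1,k1,k0,k1,k1,k0],[k1,k0,k0,k1,k1,k0],[k1,k0,k0,k0,k1,k0],[k1,k0,k1,k0,k1,k0],[k0,k2,k0,k0,
    k0,k0],[k0,k0,k2,k0,k0,k0],[k0,k0,k3,k0,k0,k0],[k0,k0,k4,k0,k0,k0],[k0,k0,k0,k0,k0,k2],[k0,k0,k0,k0,k0,k3]]
    [.contra [z1,y1],.contra [z2,y2,y1],.contra [y1,z1,z1],.contra [y2,z2,z1],.contra [z1,y1],.contra [z1],
    .contra [z1],.ref k15 k0 [(z1,[y1,z0,y3,z3]),(z1,[z0,z0,z1])],.ref k17 k0 [(z1,[z0,z1]),(z1,[z0,z0,z1]),(z2,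
    [z1])],.contra [z1],.ref k10 k0 [(z1,[y1,z0,z0,z3])]]),
    .old (.lp [k20,k142,k80,k80,k76,k80] [k61,k61,k0,k0,k31,k31,k31,k31,k33,k33,k31,k31] k0 [[k0,k0,k0,k0,k0,k0,k0,k0,k0,
    k0,k0,k2],[k0,k0,k0,k2],[k2],[k0,k0,k0,k0,k0,k18],[k0,k0,k18],[],[],[],[],[],[k0,k2]] (nat_lit 240) k6
    [[(k8,k48),(k7,k50),(k3,k83)],[(k9,k48),(k10,k48),(k5,k52)],[(k1,k83),(k6,k111),(k2,k140)],[(k8,k109),(k7,k129),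
    (k3,k140)],[(k0,k52),(k4,k62),(k11,k80)],[(k5,k62),(k9,k78),(k10,k80)],[(k1,k50),(k6,k80),(k2,k129)],[(k8,k78),
    (k7,k80),(k3,k111)],[(k0,k48),(k4,k78),(k11,k78)],[(k1,k48),(k6,k78),(k2,k109)],[(k9,k78),(k5,k80),(k10,k80)],
    [(k0,k48),(k4,k80),(k11,k80)]]
    [] k0
    [[k1,k0,k0,k1,k1,k0],[k1,k0,k0,k0,k1,k0],[k2,k0,k0,k0,k2,k0],[k1,k0,k1,k0,k1,k0],[k1,k0,k0,k0,k1,k1],[k0,k0,k2,k0,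
    k0,k0],[k0,k0,k3,k0,k0,k0],[k0,k0,k2,k0,k0,k1],[k0,k0,k1,k0,k0,k1],[k0,k0,k0,k2,k0,k0],[k0,k0,k0,k0,k0,k2]]
    [.ref k16 k1 [(z1,[z1,z1,y1]),(z1,[z0,y1,z1])],.contra [y1,z1],.ref k18 k0 [(z2,[z1]),(z1,[z0,y1,z1])],
    .contra [y1,z1],.contra [y1,z1],.contra [z1],.ref k15 k0 [(z1,[y1,z3]),(z1,[z0,y1,z1])],.ref k12 k0 [(z1,[y1,z2]),
    (z1,[z0,y1,z1])],.contra [y1,z1],.contra [y1,y2,z2],.contra [z1]]),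
    .old (.lp [(nat_lit 13566),(nat_lit 24276),(nat_lit 19040),(nat_lit 16660),(nat_lit 28800),
    (nat_lit 11424)] [(nat_lit 9282),(nat_lit 12852),(nat_lit 11424),k0,(nat_lit 8330),(nat_lit 8330),(nat_lit 9520),
    (nat_lit 9520),(nat_lit 5235),(nat_lit 1665),(nat_lit 12138),(nat_lit 12138)] k0 [[k0,k0,(nat_lit 6664)],[k0,k0,
    k0,k0,k0,k0,k0,(nat_lit 14756)],[k0,k0,k0,k0,k0,k0,k0,k0,k0,(nat_lit 7616)],[k0,(nat_lit 6664)],[k0,k0,k0,k0,k0,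
    k0,(nat_lit 14280)],[],[(nat_lit 14756)],[k0,k0,k0,k0,k0,(nat_lit 14280)],[k0,k0,k0,
    (nat_lit 7616)]] (nat_lit 57120) k6
    [[(k7,(nat_lit 13328)),(k8,(nat_lit 17613)),(k3,(nat_lit 22848))],[(k5,(nat_lit 11424)),(k10,(nat_lit 14280)),(k9,
    (nat_lit 39509))],[(k6,(nat_lit 11424)),(k1,(nat_lit 22848)),(k2,(nat_lit 30940))],[(k8,(nat_lit 11425)),(k7,
    (nat_lit 14756)),(k3,(nat_lit 30940))],[(k0,(nat_lit 11424)),(k4,(nat_lit 19040)),(k11,(nat_lit 22848))],[(k9,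
    (nat_lit 11425)),(k10,(nat_lit 15232)),(k5,(nat_lit 19040))],[(k1,(nat_lit 13328)),(k2,(nat_lit 14756)),(k6,
    (nat_lit 30940))],[(k3,(nat_lit 11424)),(k8,(nat_lit 20945)),(k7,(nat_lit 30940))],[(k4,(nat_lit 11425)),(k11,
    (nat_lit 21897)),(k0,(nat_lit 39509))],[(k2,(nat_lit 11425)),(k1,(nat_lit 17613)),(k6,(nat_lit 20945))],[(k10,
    (nat_lit 11424)),(k9,(nat_lit 21897)),(k5,(nat_lit 22848))],[(k11,(nat_lit 11424)),(k0,(nat_lit 14280)),(k4,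
    (nat_lit 15232))]]
    [] k0
    [[k1,k0,k1,k0,k1,k0],[k1,k0,k0,k0,k1,k1],[k0,k1,k0,k1,k0,k0],[k0,k2,k0,k2,k0,k0],[k0,k0,k2,k0,k0,k0],[k0,k0,k1,k0,
    k0,k1],[k0,k0,k1,k0,k0,k2],[k0,k0,k0,k0,k0,k2],[k0,k0,k0,k0,k0,k3],[k0,k0,k0,k0,k0,k4]]
    [.contra [y1,z1,z0,z1],.contra [z1,y1],.contra [y3,y3,z1,y1,z3],.contra [y3,y6,z2,y2,z6],.contra [z1],.contra [y6,
    y3,y1,z4,z3],.contra [y3,y3,y1,z1,z3],.contra [z1],.contra [y2,y3,y1,z0,z3],.contra [y3,y6,y2,y1,z6]]),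
    .old (.lp [k63,k36,k30,k36,k43,k30] [k0,k7,k19,k15,k20,k20,k17,k17,k27,k0,k20,k20] k0 [[k0,k0,k26],[k0,k0,k0,k0,k0,k0,
    k0,k14],[],[k0,k26],[k0,k0,k0,k0,k0,k0,k26],[],[k14],[k0,k0,k0,k0,k0,k26]] k120 k6
    [[(k8,k36),(k7,k46),(k3,k48)],[(k5,k24),(k10,k50),(k9,k84)],[(k6,k24),(k1,k48),(k2,k62)],[(k8,k24),(k7,k34),(k3,
    k62)],[(k0,k24),(k4,k30),(k11,k30)],[(k9,k24),(k5,k30),(k10,k30)],[(k2,k34),(k1,k46),(k6,k62)],[(k3,k24),(k8,k26),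
    (k7,k62)],[(k4,k24),(k11,k50),(k0,k84)],[(k2,k24),(k6,k26),(k1,k36)],[(k5,k30),(k10,k30),(k9,k50)],[(k4,k30),(k11,
    k30),(k0,k50)]]
    [] k0
    [[k1,k0,k1,k0,k1,k0],[k1,k0,k2,k0,k1,k0],[k0,k1,k0,k1,k0,k0],[k0,k2,k0,k2,k0,k0],[k0,k0,k2,k0,k0,k0],[k0,k0,k3,k0,
    k0,k0],[k0,k0,k2,k0,k0,k1],[k0,k0,k1,k0,k0,k1],[k0,k0,k1,k0,k0,k2],[k0,k0,k0,k0,k0,k2],[k0,k0,k0,k0,k0,k3]]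
    [.contra [z1,y1],.contra [z1,y1],.contra [y1,z0,z1],.contra [y1,z0,z2],.contra [z1],.ref k20 k0 [(z1,[z0,z1]),(z1,
    [z1,z3,z3,y3]),(z1,[z1])],.contra [y1,y2,y1,z2],.contra [y1,y1,z0,z1],.contra [y1,y2,y1,z2],.contra [z1],
    .ref k10 k0 [(z1,[y1,z0,z0,z3])]]),
    .old (.leafM k11 [k1,k2,k3,k5] [(z1,[z0,z0,z1]),(z1,[y3,y3,y1,z3]),(z1,[z0,z1])] [(k4,k0,z1,[z1]),(k0,k4,z1,[z1])]),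
    .old (.leafM k12 [k1,k2,k3,k5] [(z1,[z0,z0,z1]),(z1,[y2,y2,y1,z2]),(z1,[z0,z1])] [(k4,k0,z1,[z1]),(k0,k4,z1,[z1])]),
    .old (.lp [k126,k46,k50,k98,k90,k60] [k0,k0,k40,k40,k38,k38,k14,k14,k18,k18,k33,k33] k0 [[k0,k0,k34],[k0,k0,k0,k0,k0,
    k0,k0,k24],[k0,k0,k0,k0,k0,k0,k0,k0,k0,k16],[k0,k34],[k0,k0,k0,k0,k0,k0,k22],[k0,k0,k0,k0,k0,k0,k0,k0,k0,k0,k64],
    [k24],[k0,k0,k0,k0,k0,k22],[k0,k0,k0,k16],[],[],[k0,k0,k0,k0,k64]] (nat_lit 240) k6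
    [[(k7,k48),(k3,k86),(k8,k108)],[(k5,k54),(k10,k93),(k9,k132)],[(k6,k48),(k2,k80),(k1,k86)],[(k8,k52),(k7,k72),(k3,
    k80)],[(k4,k50),(k0,k54),(k11,k71)],[(k9,k48),(k5,k50),(k10,k119)],[(k1,k48),(k2,k72),(k6,k120)],[(k3,k48),(k8,
    k94),(k7,k120)],[(k4,k48),(k11,k75),(k0,k132)],[(k2,k52),(k6,k94),(k1,k108)],[(k10,k60),(k5,k71),(k9,k75)],[(k11,
    k60),(k0,k93),(k4,k119)]]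
    [] k0
    [[k1,k0,k1,k0,k1,k0],[k0,k2,k0,k0,k0,k0],[k0,k2,k0,k1,k0,k0],[k0,k1,k0,k1,k0,k0],[k0,k0,k2,k0,k0,k0],[k0,k0,k3,k0,
    k0,k0],[k0,k0,k4,k0,k0,k0],[k0,k0,k1,k0,k0,k1],[k0,k0,k0,k0,k0,k2],[k0,k0,k0,k0,k0,k3]]
    [.contra [y1,z0,y1,z1],.contra [z1],.contra [z1,z0,y1],.contra [y1,z0,z2],.contra [z1],.ref k22 k0 [(z1,[z0,z1]),
    (z1,[z0,z0,z1]),(z1,[z1])],.ref k23 k0 [(z1,[z0,z1]),(z1,[z0,z0,z1]),(z2,[z1])],.contra [y1,y1,z0,z1],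
    .contra [z1],.ref k10 k0 [(z1,[y1,z0,z0,z3])]]),
    .old (.lp [(nat_lit 7676),(nat_lit 5050),(nat_lit 8080),(nat_lit 8888),(nat_lit 12524),
    (nat_lit 6060)] [(nat_lit 2424),(nat_lit 2424),(nat_lit 5657),(nat_lit 1817),(nat_lit 2222),(nat_lit 2222),
    (nat_lit 1818),(nat_lit 1818),k0,k0,(nat_lit 3232),(nat_lit 3232)] k0 [[k0,k0,(nat_lit 3030)],[k0,k0,k0,k0,k0,k0,
    k0,(nat_lit 4040)],[k0,k0,k0,k0,k0,k0,k0,k0,k0,(nat_lit 606)],[k0,(nat_lit 3030)],[k0,k0,k0,k0,k0,k0,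
    (nat_lit 5454)],[k0,k0,k0,k0,k0,k0,k0,k0,k0,k0,(nat_lit 3434)],[(nat_lit 4040)],[k0,k0,k0,k0,k0,(nat_lit 5454)],
    [k0,k0,k0,(nat_lit 606)],[],[],[k0,k0,k0,k0,(nat_lit 3434)]] (nat_lit 24240) k6
    [[(k7,(nat_lit 4848)),(k3,(nat_lit 8283)),(k8,(nat_lit 10100))],[(k5,(nat_lit 4848)),(k10,(nat_lit 6868)),(k9,
    (nat_lit 14140))],[(k6,(nat_lit 4849)),(k2,(nat_lit 8080)),(k1,(nat_lit 8283))],[(k7,(nat_lit 5049)),(k8,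
    (nat_lit 6261)),(k3,(nat_lit 8080))],[(k0,(nat_lit 4848)),(k11,(nat_lit 7676)),(k4,(nat_lit 8080))],[(k9,
    (nat_lit 4848)),(k5,(nat_lit 8080)),(k10,(nat_lit 10504))],[(k1,(nat_lit 4848)),(k2,(nat_lit 5049)),(k6,
    (nat_lit 14342))],[(k3,(nat_lit 4849)),(k8,(nat_lit 10706)),(k7,(nat_lit 14342))],[(k4,(nat_lit 4848)),(k11,
    (nat_lit 9292)),(k0,(nat_lit 14140))],[(k2,(nat_lit 6261)),(k1,(nat_lit 10100)),(k6,(nat_lit 10706))],[(k10,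
    (nat_lit 6060)),(k5,(nat_lit 7676)),(k9,(nat_lit 9292))],[(k11,(nat_lit 6060)),(k0,(nat_lit 6868)),(k4,
    (nat_lit 10504))]]
    [] k0
    [[k1,k0,k1,k0,k1,k0],[k0,k2,k0,k0,k0,k0],[k0,k2,k0,k1,k0,k0],[k0,k1,k0,k1,k0,k0],[k0,k2,k0,k2,k0,k0],[k0,k0,k2,k0,
    k0,k0],[k0,k0,k1,k0,k0,k1],[k0,k0,k0,k0,k0,k2],[k0,k0,k0,k0,k0,k3]]
    [.contra [z1,y1],.contra [z1],.ref k21 k0 [(z1,[z0,z1]),(z1,[z1])],.contra [y1,y1,z1],.ref k24 k0 [(z1,[z0,z1]),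
    (z2,[z1])],.contra [z1],.contra [y1,y1,z1],.contra [z1],.ref k10 k0 [(z1,[y1,z0,z3])]]),
    .old (.lp [k66,k86,k80,k70,k110,k64] [k22,k22,k12,k12,k15,k15,k20,k20,k0,k0,k23,k23] k0 [[],[k0,k0,k0,k0,k0,k0,k0,k2],
    [k0,k0,k0,k0,k0,k0,k0,k0,k0,k24],[],[k0,k0,k0,k0,k0,k0,k16],[k0,k0,k0,k0,k0,k0,k0,k0,k0,k0,k8],[k2],[k0,k0,k0,k0,
    k0,k16],[k0,k0,k0,k24],[],[],[k0,k0,k0,k0,k8]] (nat_lit 240) k5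
    [[(k7,k60),(k3,k76),(k8,k88)],[(k10,k65),(k5,k73),(k9,k90)],[(k1,k76),(k6,k76),(k2,k86)],[(k8,k74),(k7,k78),(k3,
    k86)],[(k0,k73),(k4,k80),(k11,k96)],[(k9,k79),(k5,k80),(k10,k80)],[(k1,k60),(k2,k78),(k6,k86)],[(k3,k76),(k7,k86),
    (k8,k90)],[(k4,k79),(k11,k87),(k0,k90)],[(k2,k74),(k1,k88),(k6,k90)],[(k10,k64),(k9,k87),(k5,k96)],[(k11,k64),(k0,
    k65),(k4,k80)]]
    [] k0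
    [[k1,k0,k0,k0,k1,k0],[k0,k2,k0,k0,k0,k0],[k0,k1,k0,k1,k0,k0],[k0,k0,k2,k0,k0,k0],[k0,k0,k1,k0,k0,k1],[k0,k0,k0,k2,
    k0,k0],[k0,k0,k0,k0,k0,k2],[k0,k0,k0,k0,k0,k3]]
    [.ref k25 k0 [(z1,[z1])],.contra [z1],.ref k19 k0 [(z1,[y1,z1])],.contra [z1],.ref k0 k0 [(z1,[y1,z1])],
    .contra [z1],.contra [z1],.ref k10 k0 [(z1,[y1,z3])]])]⟩

/-- classes `0 0 0 0 0 0`, types `N0 N1 N0 N2 N0 N2` -/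
noncomputable def cU6_41 : CertX :=
  ⟨[k12,k13,k12,k14,k12,k14],[(false,k0,[k0,k1,k2,k3,k4,k5]),(true,k3,[k3,k2,k1,k0,k5,k4])],[[[([z1,z1,z0,z0,z0,z1],
    z2)],[([z1,z0,z0,z1,z0,z0],z2)],[([z1,z0,z0,z0,z0,z1],z1),([z0,z3,z0,z0,z0,z0],z1),([z0,z0,z3,z0,z0,z0],z2),([z0,
    z0,z0,z1,z0,y1],z0)],[([z1,z0,z0,z0,z0,z1],z1),([z0,z3,z0,z0,z0,z0],z2),([z0,z0,z3,z0,z0,z0],z1),([z0,z0,z0,z1,z0,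
    y1],z0)],[([z1,z0,z0,z0,z0,z1],z1),([z0,z2,z0,z0,z0,z0],z1),([z0,z0,z2,z0,z0,z0],z1),([z0,z0,z0,z1,z0,y1],z0)],
    [([z1,z0,z0,z0,z0,z1],z1),([z0,z1,z1,z0,z0,z0],z1),([z0,z0,z0,z1,z0,y1],z0)],[([z3,z0,z0,z0,z0,z3],z2),([z0,z3,z0,
    z0,z0,z0],z2),([z0,z0,z3,z0,z0,z0],z2),([z0,z0,z0,z1,z0,y1],z0)],[([z1,z0,z0,z0,z0,z1],z2),([z0,z3,z0,z3,z0,y3],
    y2),([z0,z0,z3,z0,z0,z0],z2)],[([z1,z0,z0,z0,z0,z1],z2),([z0,z1,z1,z1,z0,y1],z0)],[([z3,z0,z0,z0,z0,z3],z4),([z0,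
    z3,z0,z0,z0,z0],z1),([z0,z0,z3,z0,z0,z0],z2),([z0,z0,z0,z3,z0,y3],y1)],[([z3,z0,z0,z0,z0,z3],z4),([z0,z1,z0,z1,z0,
    y1],z0),([z0,z0,z3,z0,z0,z0],z2)],[([z1,z0,z0,z1,z0,z0],z1),([z0,z1,z0,z1,z0,y1],z0),([z0,z0,z1,y1,z0,z1],z1)]],
    [[([z1,z0,z1,z0,z0,z1],z2),([z0,z1,z0,z1,z0,y1],z0)],[([z1,z1,z1,z1,z0,z0],z2)],[([z1,z0,z0,z0,y2,y1],y2),([z0,z1,
    z0,z0,z1,z1],z2),([z0,z0,z1,z0,z1,z1],z2)],[([z1,z0,z0,z0,z0,z1],z2),([z0,z1,z0,z0,z1,z1],z2)],[([z1,z0,z0,z0,z0,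
    z1],z2)],[([z1,z0,z1,z1,z0,z0],z2)],[]]],
    [.old (.leafM k6 [k2,k3,k4,k5,k0,k1] [(z1,[z1])] []),
    .old (.leafM k6 [k1,k2,k4,k5] [] [(k3,k0,z1,[z1]),(k0,k3,z1,[z1])]),
    .geo false z3 k5 [(z3,y3),(z1,z0),(z2,z0),(z0,z3),(z6,y3),(z0,z3)] [(z1,[z3]),(z1,[z0,z1]),(z1,[z0,z0,z1]),(z1,[z0,z0,
    z0,z3]),(z1,[y3,y1,y1,y3,z3]),(z1,
    [])] z0 (Int.ofNat (nat_lit 2097152)) (.s (.s (.s (.l k1) (.l k1)) (.l k1)) (.l k1)) [],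
    .geo false z3 k5 [(z3,y3),(z2,z0),(z1,z0),(z0,z3),(z6,y3),(z0,z3)] [(z1,[z3]),(z1,[z0,z1]),(z1,[z0,z0,z1]),(z1,[z0,z0,
    z0,z3]),(z1,[y3,y1,y1,y3,z3]),(z1,[])] z0 (Int.ofNat (nat_lit 2097152)) (.s (.s (.l k1) (.l k1)) (.l k1)) [],
    .geo false z2 k5 [(z2,y2),(z1,z0),(z1,z0),(z0,z2),(z4,y2),(z0,z2)] [(z1,[z2]),(z1,[z0,z1]),(z1,[z0,z0,z1]),(z1,[z0,z0,
    z0,z2]),(z1,[y2,y1,y1,y2,z2]),(z1,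
    [])] z0 (Int.ofNat (nat_lit 2097152)) (.s (.s (.s (.l k1) (.l k1)) (.l k1)) (.l k1)) [],
    .old (.lp [k22,k26,k28,k42,k76,k44] [k27,k27,k25,k25,k24,k24,k17,k17,k0,k0,k16,k16] k0 [[k0,k0,k0,k0,k0,k0,k0,k0,k0,
    k0,k0,k6],[],[k0,k0,k0,k0,k2],[k0,k0,k0,k0,k0,k0,k0,k0,k0,k28],[k0,k0,k0,k0,k0,k0,k0,k2],[k0,k0,k0,k2],[k0,k0,k0,
    k0,k0,k2],[],[k0,k0,k28],[],[k0,k6]] k120 k6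
    [[(k3,k30),(k7,k32),(k11,k33)],[(k5,k25),(k10,k27),(k6,k32)],[(k2,k26),(k1,k30),(k9,k51)],[(k3,k26),(k7,k32),(k11,
    k63)],[(k8,k24),(k0,k25),(k4,k30)],[(k5,k30),(k6,k33),(k10,k36)],[(k1,k32),(k2,k32),(k9,k61)],[(k0,k32),(k4,k33),
    (k8,k59)],[(k3,k51),(k11,k60),(k7,k61)],[(k5,k24),(k6,k59),(k10,k60)],[(k1,k33),(k9,k60),(k2,k63)],[(k0,k27),(k4,
    k36),(k8,k60)]]
    [] k0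
    [[k1,k1,k0,k1,k0,k0],[k1,k0,k0,k1,k0,k0],[k1,k0,k1,k1,k0,k0],[k1,k0,k0,k0,k0,k1],[k1,k0,k1,k0,k0,k1],[k0,k2,k0,k0,
    k0,k0],[k0,k3,k0,k0,k0,k0],[k0,k4,k0,k0,k0,k0],[k0,k0,k2,k0,k0,k0],[k0,k0,k3,k0,k0,k0],[k0,k0,k1,k1,k1,k0]]
    [.contra [z1,y1,z0,y1],.contra [y1,z1,z1,z1],.contra [z1,y1,z0,y1],.contra [y1,z1,z1],.contra [z1,y1],
    .contra [z1],.ref k3 k0 [(z1,[z0,z1]),(z1,[z1]),(z1,[y1,z0,z3]),(z1,[z0,z0,z0,z1])],.ref k4 k0 [(z1,[z0,z1]),(z2,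
    [z1]),(z2,[y1,z0,z4]),(z1,[z0,z0,z0,z1])],.contra [z1],.ref k2 k0 [(z1,[z0,z1]),(z1,[y1,z0,z3]),(z1,[z1]),(z1,[z0,
    z0,z0,z1])],.contra [y1,y1,z0,z0,z1]]),
    .geo false z3 k5 [(z2,y3),(z2,z0),(z2,z0),(z0,z3),(z6,y3),(z0,z3)] [(z1,[z1]),(z1,[z0,z1]),(z1,[z0,z0,z1]),(z1,[z0,z0,
    z0,z3]),(z1,[y1,y1,y1,y3,z3]),(z1,[])] z0 (Int.ofNat (nat_lit 2097152)) (.s (.s (.l k1) (.l k1)) (.l k1)) [],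
    .old (.lp [k150,(nat_lit 240),(nat_lit 320),(nat_lit 252),k144,(nat_lit 810)] [(nat_lit 330),(nat_lit 330),
    (nat_lit 285),(nat_lit 285),(nat_lit 245),(nat_lit 245),(nat_lit 279),(nat_lit 279),(nat_lit 333),(nat_lit 333),
    k0,k0] k0 [[],[],[],[],[k0,k0,k0,k0,k0,k0,k0,k0,k0,k0,k0,(nat_lit 234)],[k0,k0,k0,k0,k0,k0,k4],[k0,k0,k0,k0,k0,k0,
    k0,k0,k0,k6],[k0,k0,k0,k0,k4],[k0,k0,k0,k0,k0,k0,k0,k6],[],[k0,k0,k0,k0,k0,(nat_lit 234)]] (nat_lit 960) k6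
    [[(k3,k195),(k7,(nat_lit 435)),(k11,(nat_lit 480))],[(k6,(nat_lit 201)),(k5,(nat_lit 235)),(k10,(nat_lit 480))],
    [(k9,k192),(k1,k195),(k2,(nat_lit 240))],[(k3,(nat_lit 240)),(k7,(nat_lit 246)),(k11,(nat_lit 525))],[(k8,
    (nat_lit 232)),(k0,(nat_lit 235)),(k4,(nat_lit 320))],[(k6,(nat_lit 290)),(k5,(nat_lit 320)),(k10,(nat_lit 331))],
    [(k9,k194),(k2,(nat_lit 246)),(k1,(nat_lit 435))],[(k8,k192),(k0,(nat_lit 201)),(k4,(nat_lit 290))],[(k3,k192),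
    (k7,k194),(k11,(nat_lit 483))],[(k6,k192),(k5,(nat_lit 232)),(k10,(nat_lit 477))],[(k1,(nat_lit 480)),(k9,
    (nat_lit 483)),(k2,(nat_lit 525))],[(k4,(nat_lit 331)),(k8,(nat_lit 477)),(k0,(nat_lit 480))]]
    [] k0
    [[k1,k2,k0,k1,k0,k0],[k1,k1,k0,k1,k0,k0],[k1,k0,k0,k1,k0,k0],[k0,k2,k0,k0,k0,k0],[k0,k3,k0,k0,k0,k0],[k0,k2,k0,k1,
    k1,k0],[k0,k1,k0,k1,k1,k0],[k0,k0,k2,k0,k0,k0],[k0,k0,k1,k1,k1,k0],[k0,k0,k0,k1,k1,k0],[k0,k0,k0,k2,k2,k0]]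
    [.ref k6 k1 [(z1,[y3,z0,z1,y1,z3]),(z1,[z0,z0,z0,z1]),(z1,[z3,y3,y1]),(z3,[z0,z6,z1,z1,y3])],.contra [z3,y3,y1,
    z2],.contra [y3,z3,z1,z1],.contra [z1],.ref k6 k1 [(z1,[y1,y3,z0,y1,z3]),(z1,[z0,z0,z0,z1]),(z1,[z1]),(z3,[z0,z6,
    z1,z1,y3])],.ref k6 k1 [(z1,[y3,y6,z0,y2,z6]),(z1,[z0,z0,z0,z1]),(z1,[z3,z3,z0,z1,y3]),(z3,[z0,z6,z1,z1,y3])],
    .contra [z1,z1,z0,z1,y1],.contra [z1],.contra [y1,y1,z0,z0,z1],.contra [y1,y1,z0,z0,z1],.ref k5 k1 [(z2,[z1]),(z2,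
    [y1,y2,z0,z0,z2]),(z3,[z0,z6,z1,z1,y3])]]),
    .old (.lp [k136,(nat_lit 320),(nat_lit 248),(nat_lit 254),k134,(nat_lit 824)] [(nat_lit 344),(nat_lit 344),
    (nat_lit 252),(nat_lit 252),(nat_lit 288),(nat_lit 288),(nat_lit 285),(nat_lit 285),(nat_lit 345),(nat_lit 345),
    k0,k0] k0 [[],[],[k0,k0,k0,k0,k0,k0,k0,k0,k76],[],[k0,k0,k0,k0,k0,k0,k0,k0,k0,k0,k0,(nat_lit 320)],[k0,k0,k0,k0,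
    k0,k0,k2],[k0,k0,k0,k0,k0,k0,k0,k0,k0,k2],[k0,k0,k0,k0,k2],[k0,k0,k0,k0,k0,k0,k0,k2],[k0,k0,k0,k76],[k0,k0,k0,k0,
    k0,(nat_lit 320)]] (nat_lit 960) k6
    [[(k3,(nat_lit 228)),(k11,(nat_lit 480)),(k7,(nat_lit 515))],[(k5,k192),(k6,k195),(k10,(nat_lit 480))],[(k9,
    (nat_lit 227)),(k1,(nat_lit 228)),(k2,(nat_lit 320))],[(k7,(nat_lit 287)),(k3,(nat_lit 320)),(k11,(nat_lit 496))],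
    [(k0,k192),(k4,(nat_lit 248)),(k8,(nat_lit 267))],[(k10,(nat_lit 216)),(k5,(nat_lit 248)),(k6,(nat_lit 253))],
    [(k9,k192),(k2,(nat_lit 287)),(k1,(nat_lit 515))],[(k8,k192),(k0,k195),(k4,(nat_lit 253))],[(k7,k192),(k3,
    (nat_lit 227)),(k11,(nat_lit 481))],[(k6,k192),(k5,(nat_lit 267)),(k10,(nat_lit 479))],[(k1,(nat_lit 480)),(k9,
    (nat_lit 481)),(k2,(nat_lit 496))],[(k4,(nat_lit 216)),(k8,(nat_lit 479)),(k0,(nat_lit 480))]]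
    [] k0
    [[k1,k1,k0,k1,k0,k0],[k1,k0,k0,k1,k0,k0],[k1,k0,k1,k0,k0,k1],[k0,k2,k0,k0,k0,k0],[k0,k1,k0,k1,k1,k0],[k0,k0,k2,k0,
    k0,k0],[k0,k0,k3,k0,k0,k0],[k0,k0,k1,k1,k1,k0],[k0,k0,k0,k1,k1,k0],[k0,k0,k0,k2,k2,k0]]
    [.contra [y1,z1,z1],.contra [y1,z1,z1],.contra [z1,y1],.contra [z1],.contra [y1,y1,z0,z1],.contra [z1],
    .ref k7 k0 [(z1,[z0,z1]),(z1,[y1,z0,z3]),(z1,[z1])],.contra [y1,y1,z0,z1],.contra [y1,y1,z0,z1],.ref k5 k1 [(z2,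
    [z1]),(z2,[y1,y2,z0,z2]),(z1,[z0,z2,z1,y1])]]),
    .geo false z3 k5 [(z4,y3),(z1,z0),(z2,z0),(y1,z3),(z6,y3),(z0,z3)] [(z1,[z1]),(z1,[z0,z1]),(z1,[z0,z0,z1]),(z1,[z0,z0,
    z0,z1]),(z1,[y1,y1,y1,y1,z3]),(z1,[])] z0 (Int.ofNat (nat_lit 2097152)) (.s (.s (.l k1) (.l k1)) (.l k1)) [],
    .old (.lp [k66,k126,k160,k126,(nat_lit 228),(nat_lit 252)] [k93,k93,k63,k63,k46,k46,k63,k63,k12,k12,k0,k0] k0 [[],[k0,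
    k0,k0,k4],[k4],[k0,k0,k0,k0,k0,k0,k0,k0,k0,k36],[],[],[],[],[k0,k0,k36]] (nat_lit 480) k6
    [[(k3,k96),(k7,k96),(k11,k159)],[(k6,k96),(k5,k117),(k10,k159)],[(k1,k96),(k2,k122),(k9,k177)],[(k3,k122),(k7,
    k126),(k11,(nat_lit 225))],[(k0,k117),(k8,k158),(k4,k160)],[(k6,k143),(k5,k160),(k10,(nat_lit 206))],[(k1,k96),
    (k2,k126),(k9,k177)],[(k0,k96),(k4,k143),(k8,k177)],[(k3,k177),(k7,k177),(k11,(nat_lit 240))],[(k5,k158),(k6,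
    k177),(k10,(nat_lit 240))],[(k1,k159),(k2,(nat_lit 225)),(k9,(nat_lit 240))],[(k0,k159),(k4,(nat_lit 206)),(k8,
    (nat_lit 240))]]
    [] k0
    [[k1,k2,k0,k1,k0,k0],[k1,k1,k0,k1,k0,k0],[k1,k0,k0,k1,k0,k0],[k2,k0,k0,k2,k0,k0],[k1,k0,k1,k1,k0,k0],[k1,k0,k0,k0,
    k0,k1],[k0,k2,k0,k0,k0,k0],[k0,k3,k0,k0,k0,k0],[k0,k0,k2,k0,k0,k0],[k0,k0,k1,k1,k1,k0],[k0,k0,k0,k1,k1,k0]]
    [.ref k0 k0 [(z1,[z1,z0,y1])],.contra [z3,y1,y3,z2],.contra [y3,z1,z3,z1],.ref k9 k0 [(z1,[z0,z1]),(z2,[y3,z2,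
    z6]),(z1,[z0,z0,z0,z1]),(z2,[z3,y2])],.contra [y3,z1,z3,z1],.contra [z3,y1,z0,z2],.contra [z1],.ref k0 k0 [(z3,
    [z1,z1])],.contra [z1],.ref k0 k0 [(z1,[y1,z0,z0,z0,z1])],.contra [y3,y1,z0,y1,z3]]),
    .old (.lp [k28,k68,k60,k94,k82,k144] [k58,k58,k38,k38,k42,k42,k25,k25,k31,k31,k0,k0] k0 [[],[k0,k0,k0,k18],[k18],[],
    [],[k0,k0,k0,k0,k0,k0,k40],[k0,k0,k0,k0,k0,k0,k0,k0,k0,k4],[k0,k0,k0,k0,k40],[k0,k0,k0,k0,k0,k0,k0,k4],[k0,k0,k0,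
    k0,k0,k0,k0,k0,k0,k0,k10],[],[k0,k0,k0,k0,k0,k0,k0,k0,k10]] (nat_lit 240) k6
    [[(k3,k48),(k7,k61),(k11,k76)],[(k6,k61),(k5,k62),(k10,k86)],[(k1,k48),(k2,k50),(k9,k75)],[(k3,k50),(k7,k81),(k11,
    k106)],[(k4,k60),(k0,k62),(k8,k71)],[(k5,k60),(k10,k102),(k6,k117)],[(k9,k48),(k1,k61),(k2,k81)],[(k0,k61),(k8,
    k84),(k4,k117)],[(k7,k48),(k3,k75),(k11,k117)],[(k5,k71),(k6,k84),(k10,k123)],[(k1,k76),(k2,k106),(k9,k117)],[(k0,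
    k86),(k4,k102),(k8,k123)]]
    [] k0
    [[k1,k1,k0,k1,k0,k0],[k1,k0,k0,k1,k0,k0],[k1,k0,k0,k0,k0,k1],[k0,k2,k0,k0,k0,k0],[k0,k3,k0,k0,k0,k0],[k0,k4,k0,k0,
    k0,k0],[k0,k0,k2,k0,k0,k0],[k0,k0,k3,k0,k0,k0],[k0,k0,k1,k1,k1,k0],[k0,k0,k0,k1,k1,k0]]
    [.contra [z1,y1],.contra [y1,z1,z1,z1],.contra [z1,y1,z1],.contra [z1],.ref k10 k1 [(z1,[y1,y3,z0,y3,z3]),(z1,[z0,
    z2,z1,z2,y1]),(z1,[z1])],.ref k0 k0 [(z2,[z1,z2,y2])],.contra [z1],.ref k10 k0 [(z1,[y1,z3,z0,z3]),(z1,[z0,z0,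
    z1]),(z1,[z1])],.ref k0 k0 [(z1,[y1,z0,z0,z0,z1])],.contra [z1,z1,z1,z2,y1]]),
    .old (.lp [k66,k126,k160,k126,(nat_lit 228),(nat_lit 252)] [k93,k93,k63,k63,k46,k46,k63,k63,k12,k12,k0,k0] k0 [[],[k0,
    k0,k0,k4],[k4],[k0,k0,k0,k0,k0,k0,k0,k0,k0,k36],[],[],[],[],[k0,k0,k36]] (nat_lit 480) k6
    [[(k3,k96),(k7,k96),(k11,k159)],[(k6,k96),(k5,k117),(k10,k159)],[(k1,k96),(k2,k122),(k9,k177)],[(k3,k122),(k7,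
    k126),(k11,(nat_lit 225))],[(k0,k117),(k8,k158),(k4,k160)],[(k6,k143),(k5,k160),(k10,(nat_lit 206))],[(k1,k96),
    (k2,k126),(k9,k177)],[(k0,k96),(k4,k143),(k8,k177)],[(k3,k177),(k7,k177),(k11,(nat_lit 240))],[(k5,k158),(k6,
    k177),(k10,(nat_lit 240))],[(k1,k159),(k2,(nat_lit 225)),(k9,(nat_lit 240))],[(k0,k159),(k4,(nat_lit 206)),(k8,
    (nat_lit 240))]]
    [] k0
    [[k1,k2,k0,k1,k0,k0],[k1,k1,k0,k1,k0,k0],[k1,k0,k0,k1,k0,k0],[k2,k0,k0,k2,k0,k0],[k1,k0,k1,k1,k0,k0],[k1,k0,k0,k0,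
    k0,k1],[k0,k2,k0,k0,k0,k0],[k0,k3,k0,k0,k0,k0],[k0,k0,k2,k0,k0,k0],[k0,k0,k1,k1,k1,k0],[k0,k0,k0,k1,k1,k0]]
    [.ref k0 k0 [(z1,[z1,z0,y1])],.contra [y1,z1,z1],.contra [y1,z1,z1],.ref k11 k0 [(z2,[z1]),(z1,[z0,z0,z1]),(z2,
    [y1,z2])],.contra [y1,z1,z1],.contra [y1,z1],.contra [z1],.ref k10 k1 [(z1,[y1,y3,z0,z3]),(z1,[z0,z2,z1,y1]),(z1,
    [z1])],.contra [z1],.ref k0 k0 [(z1,[y1,z0,z0,z1])],.contra [y1,y1,z0,z1]]),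
    .old (.lp [k10,k20,k20,k17,k30,k22] [k10,k10,k5,k5,k5,k5,k5,k8,k0,k0,k4,k4] k0 [[],[],[],[k0,k0,k0,k0,k0,k0,k0,k0,k0,
    k8],[k0,k0,k0,k0,k0,k0,k0,k0,k0,k0,k0,k6],[k0,k0,k0,k0,k0,k0,k7],[k0,k0,k0,k0,k0,k0,k0,k0,k0,k7],[k0,k0,k0,k0,k7],
    [k0,k0,k8,k0,k0,k0,k0,k7],[k0,k0,k0,k0,k0,k0,k0,k0,k0,k0,k1],[k0,k0,k0,k0,k0,k6],[k0,k0,k0,k0,k0,k0,k0,k0,
    k1]] k60 k5
    [[(k3,k15),(k11,k15),(k7,k18)],[(k5,k15),(k6,k15),(k10,k16)],[(k1,k15),(k2,k20),(k9,k25)],[(k7,k17),(k3,k20),(k11,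
    k29)],[(k0,k15),(k8,k17),(k4,k20)],[(k10,k15),(k5,k20),(k6,k27)],[(k9,k15),(k2,k17),(k1,k18)],[(k0,k15),(k8,k18),
    (k4,k27)],[(k7,k15),(k3,k25),(k11,k33)],[(k5,k17),(k6,k18),(k10,k27)],[(k1,k15),(k2,k29),(k9,k33)],[(k4,k15),(k0,
    k16),(k8,k27)]]
    [] k0
    [[k1,k1,k0,k1,k0,k0],[k1,k0,k0,k1,k0,k0],[k1,k0,k0,k0,k0,k1],[k1,k0,k1,k0,k0,k1],[k0,k2,k0,k0,k0,k0],[k0,k0,k2,k0,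
    k0,k0],[k0,k0,k1,k1,k1,k0],[k0,k0,k0,k1,k1,k0]]
    [.contra [y1,z1],.contra [y1,z1],.ref k8 k0 [(z1,[z1]),(z1,[y1,z1])],.ref k12 k0 [(z1,[z1]),(z1,[y1,z1])],
    .contra [z1],.contra [z1],.ref k0 k0 [(z1,[y1,z0,z1])],.ref k8 k1 [(z1,[z1]),(z1,[y1,z1])]]),
    .old (.tor k27 false k0 [(z1,[y1,y1,y1,z1]),(z1,[z0,z0,z1]),(z1,[z0,y1,z0,z1]),(z1,[z1,z2])]),
    .old (.lp [k31,k20,k22,k7,k24,k15] [k0,k3,k7,k7,k6,k6,k13,k14,k5,k5,k9,k10] k0 [[k0,k0,k0,k0,k0,k0,k0,k6],[k0,k0,k0,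
    k0,k0,k0,k0,k0,k0,k0,k9],[],[k0,k0,k0,k0,k0,k2],[k0,k0,k2],[],[k0,k6],[k0,k0,k0,k0,k0,k0,k0,k0,k1],[k0,k0,k0,k0,
    k0,k0,k0,k0,k0,k0,k0,k5],[k0,k0,k0,k0,k0,k0,k1],[k0,k0,k0,k0,k0,k0,k0,k0,k0,k5],[k9]] k60 k5
    [[(k3,k15),(k7,k17),(k11,k26)],[(k6,k15),(k5,k28),(k10,k34)],[(k1,k15),(k2,k20),(k9,k28)],[(k7,k15),(k11,k17),(k3,
    k20)],[(k4,k20),(k8,k23),(k0,k28)],[(k6,k15),(k10,k19),(k5,k20)],[(k2,k15),(k9,k15),(k1,k17)],[(k0,k15),(k4,k15),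
    (k8,k17)],[(k7,k15),(k11,k18),(k3,k28)],[(k10,k15),(k6,k17),(k5,k23)],[(k2,k17),(k9,k18),(k1,k26)],[(k8,k15),(k4,
    k19),(k0,k34)]]
    [] k0
    [[k1,k1,k0,k1,k0,k0],[k1,k0,k0,k1,k0,k0],[k0,k2,k0,k0,k0,k0],[k0,k0,k2,k0,k0,k0],[k0,k0,k1,k1,k1,k0],[k0,k0,k0,k1,
    k1,k0],[k0,k0,k0,k0,k1,k1]]
    [.ref k14 k1 [(z1,[z1,y1,y1]),(z1,[y1,z0,z0,z1]),(z1,[z0,z0,z1])],.contra [y1,z0,y1,z1],.contra [z1],.contra [z1],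
    .contra [y1,y1,z0,z1],.contra [y1,y1,z0,z1],.contra [y1,z0,z1]]),
    .old (.lp [k60,k30,k40,k30,k30,k48] [k0,k0,k15,k15,k10,k10,k15,k15,k15,k15,k3,k9] k0 [[k0,k0,k10],[],[k0,k0,k0,k0,k0,
    k0,k0,k0,k2],[k0,k10],[],[],[],[],[k0,k0,k0,k0,k0,k0,k0,k0,k0,k0,k0,k12],[k0,k0,k0,k2],[k0,k0,k0,k0,k0,k0,k0,k0,
    k0,k12]] k120 k5
    [[(k3,k45),(k7,k45),(k11,k63)],[(k5,k40),(k6,k45),(k10,k57)],[(k9,k30),(k2,k40),(k1,k45)],[(k7,k30),(k11,k34),(k3,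
    k40)],[(k8,k37),(k0,k40),(k4,k40)],[(k6,k35),(k5,k40),(k10,k47)],[(k2,k30),(k9,k30),(k1,k45)],[(k8,k30),(k4,k35),
    (k0,k45)],[(k3,k30),(k7,k30),(k11,k36)],[(k6,k30),(k10,k30),(k5,k37)],[(k2,k34),(k9,k36),(k1,k63)],[(k8,k30),(k4,
    k47),(k0,k57)]]
    [] k0
    [[k1,k0,k0,k1,k0,k0],[k0,k2,k0,k0,k0,k0],[k0,k1,k0,k1,k1,k0],[k0,k1,k0,k0,k1,k1],[k0,k0,k2,k0,k0,k0],[k0,k0,k1,k1,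
    k1,k0],[k0,k0,k0,k1,k1,k0],[k0,k0,k0,k0,k1,k1]]
    [.ref k1 k0 [(z1,[z1])],.contra [z1],.contra [y1,y1,z1],.ref k15 k0 [(z1,[z0,z1]),(z1,[z1])],.contra [z1],
    .contra [y1,y1,z1],.contra [y1,y1,z1],.ref k13 k0 [(z1,[y1,z0,z1])]]),
    .old (.lp [k2,k22,k22,k22,k2,k24] [k11,k11,k1,k1,k1,k1,k1,k1,k11,k11,k0,k0] k0 [[],[k0,k0,k0,k2],[k2],[k0,k0,k0,k0,k0,
    k2],[k0,k0,k2]] k48 k5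
    [[(k3,k12),(k7,k12),(k11,k13)],[(k6,k12),(k10,k13),(k5,k14)],[(k1,k12),(k9,k12),(k2,k20)],[(k3,k20),(k11,k23),(k7,
    k24)],[(k8,k12),(k0,k14),(k4,k20)],[(k5,k20),(k6,k22),(k10,k23)],[(k1,k12),(k9,k12),(k2,k24)],[(k0,k12),(k8,k12),
    (k4,k22)],[(k3,k12),(k7,k12),(k11,k13)],[(k5,k12),(k6,k12),(k10,k13)],[(k1,k13),(k9,k13),(k2,k23)],[(k0,k13),(k8,
    k13),(k4,k23)]]
    [] k0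
    [[k1,k0,k0,k1,k0,k0],[k1,k0,k0,k0,k0,k1],[k0,k2,k0,k0,k0,k0],[k0,k0,k2,k0,k0,k0],[k0,k0,k1,k1,k1,k0],[k0,k0,k0,k1,
    k1,k0],[k0,k0,k0,k0,k1,k1]]
    [.contra [y1,z1],.ref k16 k0 [(z1,[z1])],.contra [z1],.contra [z1],.ref k0 k0 [(z1,[y1,z0,z1])],.ref k16 k1 [(z1,
    [z1])],.contra [y1,y1,z1]]),
    .old (.lp [k31,k20,k22,k7,k24,k15] [k0,k3,k7,k7,k6,k6,k13,k14,k5,k5,k9,k10] k0 [[k0,k0,k0,k0,k0,k0,k0,k6],[k0,k0,k0,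
    k0,k0,k0,k0,k0,k0,k0,k9],[],[k0,k0,k0,k0,k0,k2],[k0,k0,k2],[],[k0,k6],[k0,k0,k0,k0,k0,k0,k0,k0,k1],[k0,k0,k0,k0,
    k0,k0,k0,k0,k0,k0,k0,k5],[k0,k0,k0,k0,k0,k0,k1],[k0,k0,k0,k0,k0,k0,k0,k0,k0,k5],[k9]] k60 k5
    [[(k3,k15),(k7,k17),(k11,k26)],[(k6,k15),(k5,k28),(k10,k34)],[(k1,k15),(k2,k20),(k9,k28)],[(k7,k15),(k11,k17),(k3,
    k20)],[(k4,k20),(k8,k23),(k0,k28)],[(k6,k15),(k10,k19),(k5,k20)],[(k2,k15),(k9,k15),(k1,k17)],[(k0,k15),(k4,k15),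
    (k8,k17)],[(k7,k15),(k11,k18),(k3,k28)],[(k10,k15),(k6,k17),(k5,k23)],[(k2,k17),(k9,k18),(k1,k26)],[(k8,k15),(k4,
    k19),(k0,k34)]]
    [] k0
    [[k1,k1,k0,k1,k0,k0],[k1,k0,k0,k1,k0,k0],[k0,k2,k0,k0,k0,k0],[k0,k0,k2,k0,k0,k0],[k0,k0,k1,k1,k1,k0],[k0,k0,k0,k1,
    k1,k0],[k0,k0,k0,k0,k1,k1]]
    [.ref k17 k1 [(z1,[z1])],.ref k1 k0 [(z1,[z1])],.contra [z1],.contra [z1],.ref k0 k0 [(z1,[y1,z1])],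
    .ref k16 k1 [(z1,[z1])],.ref k13 k0 [(z1,[y1,z1])]])]⟩

/-- classes `0 0 0 0 0 0`, types `N0 N1 N0 N2 N1 N3` -/
noncomputable def cU6_42 : CertX :=
  ⟨[k12,k13,k12,k14,k13,k15],[],[[[]]],
    [.old (.lp [k4,k4,k6,k2,k4,k2] [k1,k1,k1,k1,k0,k0,k2,k2,k1,k1,k2,k2] k0 [[k0,k0,k2],[],[],[k0,k2]] k12 k5
    [[(k6,k3),(k11,k3),(k5,k5)],[(k5,k3),(k6,k3),(k11,k3)],[(k8,k4),(k9,k4),(k2,k6)],[(k7,k3),(k10,k3),(k3,k6)],[(k0,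
    k3),(k1,k5),(k4,k6)],[(k6,k4),(k11,k4),(k5,k6)],[(k2,k3),(k8,k3),(k9,k3)],[(k0,k3),(k1,k3),(k4,k4)],[(k7,k3),(k10,
    k3),(k3,k4)],[(k7,k3),(k10,k3),(k3,k4)],[(k0,k3),(k1,k3),(k4,k4)],[(k2,k3),(k8,k3),(k9,k3)]]
    [] k0
    []
    [])]⟩

/-- classes `0 0 0 0 0 0`, types `N0 N1 N0 N2 N3 N2` -/
noncomputable def cU6_43 : CertX :=
  ⟨[k12,k13,k12,k14,k15,k14],[(false,k3,[k3,k4,k5,k0,k1,k2]),(true,k3,[k3,k2,k1,k0,k5,k4]),(true,k0,[k0,k5,k4,k3,k2,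
    k1]),(false,k0,[k0,k1,k2,k3,k4,k5])],[[[([z1,z0,z0,z1,z0,z0],z1),([z0,z1,z0,z0,z1,z0],z1)],[([z3,z0,z0,z3,z0,z0],
    z2),([z0,z3,z0,z0,z0,z0],z2),([z0,z0,z3,z0,z0,z0],z2),([z0,z0,z0,z0,z3,z0],z2)],[([z1,z0,z0,z1,z0,y1],z0),([z0,z1,
    z0,z0,z0,y1],z0),([z0,z0,z1,z0,z0,z1],z2)],[([z1,z0,z0,z1,z0,y1],z0),([z0,z1,z0,z0,z0,z1],z2),([z0,z0,z1,z0,z0,
    z2],z2)],[([z1,z0,z0,z1,y1,z0],z0),([z0,z1,z0,z0,z2,z0],z2)],[([z1,z0,z0,z1,y1,z0],z0),([z0,z1,z0,z0,z1,z0],z2)],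
    [([z1,z0,z1,z1,z0,z1],z2)],[([z1,z0,z0,z1,z0,y2],z0),([z0,z1,z0,z0,z0,y1],z0),([z0,z0,z1,z0,z0,z2],z2)],[([z2,z0,
    z0,z2,z0,y1],z2),([z0,z1,z0,z0,z0,y1],z0),([z0,z0,z2,z0,z0,z1],z2)],[([z1,z0,z0,z1,y1,y1],z0),([z0,z1,z0,z0,z2,
    z0],z2)],[([z2,z0,z0,z2,y2,z1],z2),([z0,z1,z0,z0,z2,z0],z2)],[([z1,z0,z1,z1,y1,z1],z2)]],[[([z1,z0,z0,z1,z0,z0],
    z2),([z0,z1,z0,z0,z1,z0],z1)],[([z1,z0,z0,z1,z0,z0],z2)],[([z1,z0,z0,z1,z0,z1],z2)],[]]],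
    [.old (.leafM k7 [k0,k1,k3,k4] [(z1,[z0,z1])] [(k2,k5,z1,[y1,y1,z1]),(k5,k2,z1,[y1,y1,z1])]),
    .geo false z3 k3 [(z2,y3),(z2,z0),(z2,z0),(z0,z3),(z2,z0),(z4,z0)] [(z1,[z1]),(z1,[z0,z1]),(z1,[z0,z0,z1]),(z1,[]),
    (z1,[z0,z0,z0,z1]),(z1,[y1,y1,y1,y1,z3])] z0 (Int.ofNat (nat_lit 2097152)) (.s (.s (.l k1) (.l k1)) (.l k1)) [],
    .old (.lp [k140,(nat_lit 392),(nat_lit 570),(nat_lit 252),(nat_lit 320),(nat_lit 244)] [(nat_lit 215),(nat_lit 215),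
    k89,k89,k0,k0,k159,k159,k125,k125,k163,k163] k0 [[],[],[k0,k0,k0,k0,k0,k0,k0,k0,k0,k144],[k0,k0,k0,k0,k0,k176],
    [k0,k0,k176],[k0,k0,k0,k0,k0,k0,k0,k0,k0,k0,k2],[],[],[k0,k0,k0,k144],[k0,k0,k0,k0,k0,k0,k0,k0,k0,k0,k0,k4],[k0,
    k0,k0,k0,k0,k0,k0,k0,k4],[k0,k0,k0,k0,k2]] (nat_lit 960) k6
    [[(k7,k194),(k8,(nat_lit 234)),(k3,(nat_lit 266))],[(k10,k192),(k6,k196),(k5,(nat_lit 355))],[(k1,(nat_lit 266)),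
    (k9,(nat_lit 356)),(k2,(nat_lit 392))],[(k8,(nat_lit 212)),(k3,(nat_lit 392)),(k7,(nat_lit 498))],[(k0,
    (nat_lit 355)),(k4,(nat_lit 394)),(k11,(nat_lit 551))],[(k5,(nat_lit 394)),(k10,(nat_lit 409)),(k6,
    (nat_lit 411))],[(k1,k194),(k9,(nat_lit 286)),(k2,(nat_lit 498))],[(k0,k196),(k11,(nat_lit 248)),(k4,
    (nat_lit 411))],[(k7,(nat_lit 286)),(k8,(nat_lit 320)),(k3,(nat_lit 356))],[(k2,(nat_lit 212)),(k1,(nat_lit 234)),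
    (k9,(nat_lit 320))],[(k10,(nat_lit 240)),(k6,(nat_lit 248)),(k5,(nat_lit 551))],[(k0,k192),(k11,(nat_lit 240)),
    (k4,(nat_lit 409))]]
    [] k0
    [[k1,k0,k0,k1,k0,k0],[k2,k0,k0,k2,k0,k0],[k1,k0,k0,k1,k0,k1],[k1,k0,k0,k1,k0,k2],[k1,k0,k0,k1,k1,k0],[k0,k2,k0,k0,
    k0,k0],[k0,k1,k0,k0,k1,k0],[k0,k1,k0,k0,k2,k0],[k0,k0,k2,k0,k0,k0],[k0,k0,k0,k0,k2,k0],[k0,k0,k0,k0,k0,k2],[k0,k0,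
    k0,k0,k0,k3]]
    [.contra [y1,z1,z0,z1],.contra [z1,y2,z2],.contra [z1,y1,z2],.ref k1 k0 [(z1,[z1,z2]),(z1,[y2,y1,y3,y3,z3]),(z1,
    [z1,y1]),(z1,[z1,y1,z3])],.contra [y1,z0,z0,y1,z1],.contra [z1],.contra [y1,y1,z1,y1,z1],.ref k1 k0 [(z1,[y1,z1,
    y1,y2,z2]),(z1,[z2,z1,y1,z1,y1]),(z1,[y1,y2,y1,y2,z2]),(z1,[y1,y2,z2,y2,z2])],.contra [y1,z0,z2,z2],.contra [z1],
    .contra [z1,z0,z2],.ref k1 k0 [(z1,[z1,z3]),(z1,[y2,y3,y3,y3,z3]),(z1,[z1]),(z1,[z1,z0,z3])]]),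
    .old (.lp [k48,k144,k66,k48,k92,k78] [k48,k48,k0,k0,k39,k39,k48,k48,k26,k26,k33,k33] k0 [[],[k0,k0,k0,k8],[k8],[k0,k0,
    k0,k0,k0,k0,k0,k0,k4],[],[k0,k0,k0,k0,k0,k0,k4],[],[k0,k0,k0,k0,k4],[k0,k0,k0,k0,k0,k0,k0,k0,k0,k0,k22],[k0,k0,
    k4],[],[k0,k0,k0,k0,k0,k0,k0,k0,k0,k22]] (nat_lit 240) k6
    [[(k7,k48),(k8,k48),(k3,k96)],[(k6,k48),(k10,k63),(k5,k65)],[(k1,k96),(k9,k118),(k2,k136)],[(k7,k96),(k8,k122),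
    (k3,k136)],[(k0,k65),(k4,k66),(k11,k68)],[(k6,k61),(k5,k66),(k10,k72)],[(k1,k48),(k9,k66),(k2,k96)],[(k0,k48),(k4,
    k61),(k11,k63)],[(k7,k66),(k8,k92),(k3,k118)],[(k1,k48),(k9,k92),(k2,k122)],[(k6,k63),(k5,k68),(k10,k100)],[(k0,
    k63),(k4,k72),(k11,k100)]]
    [] k0
    [[k1,k0,k0,k1,k0,k0],[k2,k0,k0,k2,k0,k0],[k1,k0,k1,k1,k0,k0],[k1,k0,k0,k1,k0,k1],[k1,k0,k0,k1,k1,k0],[k0,k0,k2,k0,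
    k0,k0],[k0,k0,k3,k0,k0,k0],[k0,k0,k2,k0,k0,k1],[k0,k0,k1,k0,k0,k1],[k0,k0,k0,k0,k2,k0],[k0,k0,k0,k0,k0,k2]]
    [.contra [y1,z1,z1],.contra [y1,z2,z2],.contra [y1,z2,z0,z1],.contra [y1,z1,z2],.contra [y1,z0,z1,y1,z1],
    .contra [z1],.ref k2 k1 [(z1,[z0,z2,z1,z1,y1]),(z2,[z1,z2,z2,z1,y2]),(z1,[z0,y1,z0,y1,z1])],.ref k2 k1 [(z1,[z0,
    z2,z1,z1,y1]),(z1,[z1,z1,z1,z0,y1]),(z1,[z0,y1,z0,y1,z1])],.contra [y1,z1,z0,z1],.contra [y1,y2,z0,y2,z2],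
    .contra [y1,z0,z2]]),
    .old (.lp [k7,k30,k20,k14,k22,k26] [k13,k10,k0,k0,k5,k5,k8,k8,k4,k4,k2,k2] k0 [[k0,k0,k0,k0,k0,k0,k0,k0,k0,k0,k0,k1],
    [k0,k0,k0,k0,k0,k0,k8],[k0,k0,k0,k0,k0,k0,k0,k0,k0,k14],[],[],[],[k0,k0,k0,k0,k0,k0,k0,k0,k8],[k8],[k0,k0,k0,k14],
    [k0,k0,k0,k0,k0,k0,k0,k8],[k0,k1]] k60 k6
    [[(k7,k12),(k8,k16),(k3,k21)],[(k5,k12),(k10,k14),(k6,k17)],[(k9,k18),(k1,k21),(k2,k30)],[(k8,k12),(k7,k22),(k3,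
    k30)],[(k0,k12),(k4,k20),(k11,k37)],[(k6,k17),(k5,k20),(k10,k23)],[(k1,k12),(k9,k18),(k2,k22)],[(k11,k12),(k0,
    k17),(k4,k17)],[(k3,k18),(k7,k18),(k8,k30)],[(k2,k12),(k1,k16),(k9,k30)],[(k6,k12),(k10,k26),(k5,k37)],[(k0,k14),
    (k4,k23),(k11,k26)]]
    [] k0
    [[k1,k0,k0,k1,k0,k0],[k2,k0,k0,k2,k0,k0],[k1,k0,k1,k1,k0,k0],[k1,k0,k0,k1,k0,k1],[k1,k0,k1,k1,k0,k1],[k1,k0,k0,k1,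
    k1,k0],[k0,k1,k0,k0,k1,k0],[k0,k0,k2,k0,k0,k0],[k0,k0,k0,k0,k0,k2]]
    [.contra [y1,z2,z1],.contra [z1,y2],.ref k3 k1 [(z1,[z0,z1]),(z1,[z1,y1]),(z1,[z0,z0,z1])],.ref k2 k0 [(z1,[z1,z1,
    z1,y1]),(z1,[z1,z0,z1,y1]),(z1,[z0,y1,y1,z1])],.contra [z1,z1,z1,y1],.contra [z1,y1],.contra [y1,z1,z1],
    .contra [z1],.contra [y1,y2,y2,z2]]),
    .old (.lp [k36,k54,k40,k32,k60,k16] [k12,k12,k3,k3,k10,k10,k14,k14,k0,k0,k22,k22] k0 [[k0,k0,k0,k0,k0,k0,k0,k2],[k0,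
    k0,k0,k8],[k8],[k0,k0,k0,k0,k0,k0,k0,k0,k4],[k0,k0,k0,k0,k0,k0,k0,k0,k0,k0,k0,k4],[],[k0,k2],[],[k0,k0,k0,k0,k0,
    k0,k0,k0,k0,k0,k24],[k0,k0,k4],[k0,k0,k0,k0,k0,k4],[k0,k0,k0,k0,k0,k0,k0,k0,k0,k24]] k120 k6
    [[(k8,k24),(k7,k38),(k3,k45)],[(k10,k26),(k6,k32),(k5,k46)],[(k1,k45),(k2,k46),(k9,k59)],[(k7,k43),(k3,k46),(k8,
    k61)],[(k11,k24),(k4,k40),(k0,k46)],[(k10,k24),(k6,k36),(k5,k40)],[(k1,k38),(k2,k43),(k9,k46)],[(k11,k24),(k0,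
    k32),(k4,k36)],[(k7,k46),(k3,k59),(k8,k60)],[(k1,k24),(k9,k60),(k2,k61)],[(k5,k24),(k6,k24),(k10,k40)],[(k4,k24),
    (k0,k26),(k11,k40)]]
    [] k0
    [[k1,k0,k0,k1,k0,k0],[k1,k0,k0,k1,k0,k1],[k1,k0,k0,k1,k1,k0],[k0,k2,k0,k0,k0,k0],[k0,k0,k2,k0,k0,k0],[k0,k0,k2,k0,
    k0,k1],[k0,k0,k1,k0,k0,k1],[k0,k0,k2,k0,k0,k2],[k0,k0,k1,k0,k0,k2],[k0,k0,k0,k0,k0,k2]]
    [.contra [y1,z1,z1],.contra [y1,z0,y1,z1],.contra [y1,z1,z2],.contra [z1],.contra [z1],.ref k4 k2 [(z1,[y1,z0,y1,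
    z1]),(z1,[z1])],.contra [y1,z0,y1,z1],.contra [z1,z2,z4,y2],.ref k4 k1 [(z1,[y1,z0,y1,z1]),(z1,[z1])],
    .contra [z1]]),
    .old (.lp [k14,k76,k38,k32,k42,k36] [k31,k31,k0,k0,k19,k19,k21,k23,k17,k17,k20,k20] k0 [[],[],[k0,k0,k0,k0,k2],[k0,k0,
    k0,k0,k0,k0,k0,k0,k2],[k0,k0,k0,k0,k0,k0,k0,k0,k0,k0,k0,k2],[k0,k0,k0,k2],[],[],[k0,k0,k0,k0,k0,k0,k0,k0,k0,k0,
    k4],[k0,k0,k2],[k0,k0,k0,k0,k0,k2],[k0,k0,k0,k0,k0,k0,k0,k0,k0,k4]] k120 k6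
    [[(k7,k24),(k8,k24),(k3,k45)],[(k6,k24),(k10,k25),(k5,k26)],[(k1,k45),(k9,k59),(k2,k76)],[(k7,k51),(k8,k61),(k3,
    k76)],[(k0,k26),(k11,k35),(k4,k40)],[(k10,k35),(k6,k36),(k5,k40)],[(k1,k24),(k9,k36),(k2,k51)],[(k0,k24),(k11,
    k35),(k4,k36)],[(k7,k36),(k8,k42),(k3,k59)],[(k1,k24),(k9,k42),(k2,k61)],[(k5,k35),(k6,k35),(k10,k40)],[(k0,k25),
    (k4,k35),(k11,k40)]]
    [] k0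
    [[k1,k0,k0,k1,k0,k0],[k2,k0,k0,k2,k0,k0],[k1,k0,k1,k1,k0,k0],[k1,k0,k0,k1,k0,k1],[k1,k0,k0,k1,k1,k0],[k0,k0,k2,k0,
    k0,k0],[k0,k0,k2,k0,k0,k1],[k0,k0,k1,k0,k0,k1],[k0,k0,k1,k0,k0,k2],[k0,k0,k0,k0,k2,k0],[k0,k0,k0,k0,k0,k2]]
    [.contra [y1,z1],.ref k0 k2 [(z2,[z1]),(z2,[y1,z2])],.contra [y1,z1],.contra [y1,z1],.ref k5 k0 [(z1,[z1,z1,y1]),
    (z1,[z0,y1,z1])],.contra [z1],.ref k4 k2 [(z1,[y1,z1]),(z1,[z1])],.contra [y1,z1],.ref k4 k1 [(z1,[y1,z1]),(z1,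
    [z1])],.contra [y1,y2,z2],.contra [z1]]),
    .old (.tor k23 false k0 [(z1,[z0,z0,z1]),(z1,[y1,z1,y1,z1]),(z1,[z0,y1,y1,z1]),(z1,[z1,z0,z1])]),
    .old (.lp [k26,k40,k44,k48,k46,k34] [k14,k14,k7,k7,k5,k5,k0,k6,k4,k4,k10,k10] k0 [[],[k0,k0,k0,k0,k0,k0,k6],[],[],[k0,
    k0,k0,k0,k0,k0,k0,k0,k0,k0,k0,k2],[],[k0,k0,k0,k0,k0,k0,k0,k0,k14],[k6],[k0,k0,k0,k0,k0,k0,k0,k0,k0,k0,k6],[k0,k0,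
    k0,k0,k0,k0,k0,k14],[k0,k0,k0,k0,k0,k2],[k0,k0,k0,k0,k0,k0,k0,k0,k0,k6]] k120 k5
    [[(k8,k30),(k3,k33),(k7,k36)],[(k10,k30),(k5,k35),(k6,k46)],[(k1,k33),(k9,k37),(k2,k40)],[(k3,k40),(k7,k41),(k8,
    k43)],[(k0,k35),(k11,k39),(k4,k44)],[(k10,k37),(k5,k44),(k6,k49)],[(k1,k36),(k2,k41),(k9,k44)],[(k11,k30),(k0,
    k46),(k4,k49)],[(k3,k37),(k7,k44),(k8,k60)],[(k1,k30),(k2,k43),(k9,k60)],[(k6,k30),(k5,k39),(k10,k40)],[(k0,k30),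
    (k4,k37),(k11,k40)]]
    [] k0
    [[k1,k0,k0,k1,k0,k0],[k1,k0,k0,k1,k0,k1],[k0,k2,k0,k0,k0,k0],[k0,k1,k0,k0,k1,k0],[k0,k0,k2,k0,k0,k0],[k0,k0,k1,k0,
    k0,k1],[k0,k0,k1,k0,k0,k2],[k0,k0,k0,k0,k0,k2]]
    [.contra [y2,z1,z0,z1],.ref k7 k3 [(z1,[y1,z1]),(z1,[z0,z0,z1]),(z2,[z2,y1,z0,z1])],.contra [z1],.contra [z2,z1,
    z0,z3,y2],.contra [z1],.contra [y1,z0,z0,z1],.ref k7 k3 [(z2,[y2,z1,z0,z1]),(z1,[z0,z0,z1]),(z1,[z1])],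
    .contra [z1,z0,z2]]),
    .old (.lp [k28,k50,k48,k64,k44,k48] [k26,k26,k15,k15,k16,k16,k0,k16,k18,k18,k16,k16] k0 [[k0,k0,k0,k0,k0,k0,k0,k0,k0,
    k0,k0,k2],[],[],[],[],[k0,k0,k0,k0,k0,k0,k4],[k0,k0,k0,k0,k0,k0,k0,k0,k28],[k0,k0,k0,k0,k4],[],[k0,k0,k0,k0,k0,k0,
    k0,k28],[k0,k2]] k144 k5
    [[(k8,k36),(k7,k38),(k3,k41)],[(k10,k36),(k5,k38),(k6,k54)],[(k1,k41),(k9,k47),(k2,k50)],[(k8,k47),(k7,k49),(k3,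
    k50)],[(k0,k38),(k4,k48),(k11,k48)],[(k5,k48),(k10,k48),(k6,k68)],[(k1,k38),(k9,k42),(k2,k49)],[(k11,k36),(k0,
    k54),(k4,k68)],[(k7,k42),(k3,k47),(k8,k72)],[(k1,k36),(k2,k47),(k9,k72)],[(k6,k36),(k5,k48),(k10,k48)],[(k0,k36),
    (k4,k48),(k11,k48)]]
    [] k0
    [[k1,k0,k0,k1,k0,k0],[k1,k0,k0,k1,k0,k1],[k1,k0,k0,k1,k1,k0],[k0,k2,k0,k0,k0,k0],[k0,k1,k0,k0,k1,k0],[k0,k0,k2,k0,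
    k0,k0],[k0,k0,k1,k0,k0,k1],[k0,k0,k0,k0,k0,k2]]
    [.contra [y2,z1,z0,z1],.ref k8 k0 [(z1,[z2,z1,z1,y1]),(z1,[z1,z0,z1,y1]),(z1,[z0,y1,y1,z1])],.ref k8 k2 [(z1,[z2,
    z0,y1]),(z1,[z1,y1,y1]),(z1,[z0,z0,z1])],.contra [z1],.contra [y1,z0,z1],.contra [z1],.contra [y1,y1,y1,z1],
    .contra [z1]]),
    .old (.lp [k26,k40,k44,k48,k46,k34] [k14,k14,k7,k7,k5,k5,k0,k6,k4,k4,k10,k10] k0 [[],[k0,k0,k0,k0,k0,k0,k6],[],[],[k0,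
    k0,k0,k0,k0,k0,k0,k0,k0,k0,k0,k2],[],[k0,k0,k0,k0,k0,k0,k0,k0,k14],[k6],[k0,k0,k0,k0,k0,k0,k0,k0,k0,k0,k6],[k0,k0,
    k0,k0,k0,k0,k0,k14],[k0,k0,k0,k0,k0,k2],[k0,k0,k0,k0,k0,k0,k0,k0,k0,k6]] k120 k5
    [[(k8,k30),(k3,k33),(k7,k36)],[(k10,k30),(k5,k35),(k6,k46)],[(k1,k33),(k9,k37),(k2,k40)],[(k3,k40),(k7,k41),(k8,
    k43)],[(k0,k35),(k11,k39),(k4,k44)],[(k10,k37),(k5,k44),(k6,k49)],[(k1,k36),(k2,k41),(k9,k44)],[(k11,k30),(k0,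
    k46),(k4,k49)],[(k3,k37),(k7,k44),(k8,k60)],[(k1,k30),(k2,k43),(k9,k60)],[(k6,k30),(k5,k39),(k10,k40)],[(k0,k30),
    (k4,k37),(k11,k40)]]
    [] k0
    [[k1,k0,k0,k1,k0,k0],[k1,k0,k0,k1,k0,k1],[k0,k2,k0,k0,k0,k0],[k0,k1,k0,k0,k1,k0],[k0,k0,k2,k0,k0,k0],[k0,k0,k1,k0,
    k0,k1],[k0,k0,k1,k0,k0,k2],[k0,k0,k0,k0,k0,k2]]
    [.contra [y2,z1,z1],.ref k7 k0 [(z1,[z1,z1,z2,y2]),(z1,[z1,z0,z1,y1]),(z1,[z0,y1,y2,z2])],.contra [z1],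
    .contra [y1,z0,z1],.contra [z1],.contra [y1,y1,y2,z2],.ref k9 k3 [(z1,[y1,z0,y1,z1]),(z1,[z0,z0,z1])],
    .contra [z1]]),
    .old (.lp [k26,k14,k20,k25,k18,k16] [k0,k12,k12,k12,k9,k9,k2,k11,k10,k10,k11,k11] k0 [[k0,k0,k17],[k0,k0,k0,k0,k0,k0,
    k3],[],[k0,k17],[k0,k0,k0,k0,k0,k0,k0,k0,k0,k0,k0,k6],[],[k0,k0,k0,k0,k0,k0,k0,k0,k13],[k3],[k0,k0,k0,k0,k0,k0,k0,
    k0,k0,k0,k4],[k0,k0,k0,k0,k0,k0,k0,k13],[k0,k0,k0,k0,k0,k6],[k0,k0,k0,k0,k0,k0,k0,k0,k0,k4]] k60 k6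
    [[(k8,k12),(k3,k14),(k7,k21)],[(k5,k12),(k10,k27),(k6,k39)],[(k9,k13),(k1,k14),(k2,k31)],[(k7,k15),(k8,k16),(k3,
    k31)],[(k0,k12),(k11,k18),(k4,k20)],[(k10,k12),(k5,k20),(k6,k27)],[(k2,k15),(k9,k17),(k1,k21)],[(k11,k12),(k4,
    k27),(k0,k39)],[(k3,k13),(k7,k17),(k8,k31)],[(k1,k12),(k2,k16),(k9,k31)],[(k6,k12),(k5,k18),(k10,k20)],[(k4,k12),
    (k11,k20),(k0,k27)]]
    [] k0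
    [[k1,k0,k1,k1,k0,k1],[k0,k1,k0,k0,k1,k0],[k0,k2,k0,k0,k2,k0],[k0,k0,k2,k0,k0,k0],[k0,k0,k2,k0,k0,k1],[k0,k0,k1,k0,
    k0,k1],[k0,k0,k1,k0,k0,k2],[k0,k0,k0,k0,k0,k2]]
    [.contra [z1,y1],.contra [y1,y1,z1],.contra [y1,y2,z2],.contra [z1],.ref k10 k3 [(z1,[y1,z2]),(z1,[z0,y1,z1])],
    .ref k6 k2 [(z1,[y1,z0,z1])],.ref k9 k3 [(z1,[y1,z1]),(z1,[z0,y1,z1])],.contra [z1]]),
    .old (.leafM k7 [k1,k2,k4,k5] [(z1,[y1,y1,z1])] [(k3,k0,z1,[z1]),(k0,k3,z1,[z1])]),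
    .old (.lp [k182,k56,k168,k160,k151,k0] [k10,k10,k73,k73,k17,k17,k21,k21,k0,k51,k101,k101] k0 [[k0,k0,k103],[k0,k0,k0,
    k0,k0,k0,k6],[k0,k0,k0,k0,k36],[k0,k103],[k0,k0,k0,k0,k0,k0,k0,k0,k0,k0,k0,k12],[k0,k0,k0,k36],[k0,k0,k0,k0,k0,k0,
    k0,k0,k8],[k6],[k0,k0,k0,k0,k0,k0,k0,k0,k0,k0,k120],[k0,k0,k0,k0,k0,k0,k0,k8],[k0,k0,k0,k0,k0,k12],[k0,k0,k0,k0,
    k0,k0,k0,k0,k0,k120]] (nat_lit 360) k6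
    [[(k8,k72),(k3,k119),(k7,k183)],[(k5,k72),(k10,k91),(k6,k177)],[(k9,k72),(k1,k119),(k2,k159)],[(k7,k72),(k8,k129),
    (k3,k159)],[(k0,k72),(k11,k84),(k4,(nat_lit 204))],[(k10,k72),(k6,k164),(k5,(nat_lit 204))],[(k2,k72),(k9,k130),
    (k1,k183)],[(k11,k72),(k4,k164),(k0,k177)],[(k3,k72),(k7,k130),(k8,k159)],[(k1,k72),(k2,k129),(k9,k159)],[(k6,
    k72),(k5,k84),(k10,k120)],[(k4,k72),(k0,k91),(k11,k120)]]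
    [] k0
    [[k1,k1,k0,k1,k0,k1],[k1,k0,k0,k1,k0,k1],[k0,k2,k0,k0,k0,k0],[k0,k1,k0,k0,k1,k0],[k0,k0,k1,k0,k0,k1],[k0,k0,k2,k0,
    k0,k2],[k0,k0,k1,k0,k0,k2],[k0,k0,k0,k0,k2,k0],[k0,k0,k0,k0,k0,k2]]
    [.contra [z1,y1],.contra [z1,y1],.contra [z1],.contra [y1,y1,z1],.contra [y1,y1,z1],.ref k12 k3 [(z1,[z0,z1]),(z2,
    [y1,y2,z2])],.ref k11 k1 [(z1,[y1,z0,z1])],.contra [z1],.contra [z1]]),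
    .old (.lp [(nat_lit 986),(nat_lit 306),(nat_lit 680),(nat_lit 748),(nat_lit 986),(nat_lit 340)] [k0,(nat_lit 240),
    (nat_lit 460),(nat_lit 460),(nat_lit 273),(nat_lit 273),(nat_lit 239),(nat_lit 239),k120,k120,(nat_lit 443),
    (nat_lit 443)] k0 [[k0,k0,(nat_lit 442)],[],[],[k0,(nat_lit 442)],[],[k0,k0,k0,k0,k0,k0,k68],[k0,k0,k0,k0,k0,k0,
    k0,k0,k34],[k0,k0,k0,k0,k68],[k0,k0,k0,k0,k0,k0,k0,k0,k0,k0,(nat_lit 340)],[k0,k0,k0,k0,k0,k0,k0,k34],[],[k0,k0,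
    k0,k0,k0,k0,k0,k0,k0,(nat_lit 340)]] (nat_lit 2040) k5
    [[(k3,(nat_lit 526)),(k8,(nat_lit 526)),(k7,(nat_lit 747))],[(k5,(nat_lit 511)),(k10,(nat_lit 783)),(k6,
    (nat_lit 987))],[(k1,(nat_lit 526)),(k9,(nat_lit 646)),(k2,(nat_lit 748))],[(k7,(nat_lit 527)),(k8,(nat_lit 646)),
    (k3,(nat_lit 748))],[(k11,(nat_lit 510)),(k0,(nat_lit 511)),(k4,(nat_lit 680))],[(k10,(nat_lit 510)),(k5,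
    (nat_lit 680)),(k6,(nat_lit 782))],[(k2,(nat_lit 527)),(k1,(nat_lit 747)),(k9,(nat_lit 799))],[(k11,
    (nat_lit 510)),(k4,(nat_lit 782)),(k0,(nat_lit 987))],[(k3,(nat_lit 646)),(k7,(nat_lit 799)),(k8,(nat_lit 1020))],
    [(k1,(nat_lit 526)),(k2,(nat_lit 646)),(k9,(nat_lit 1020))],[(k5,(nat_lit 510)),(k6,(nat_lit 510)),(k10,
    (nat_lit 680))],[(k4,(nat_lit 510)),(k11,(nat_lit 680)),(k0,(nat_lit 783))]]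
    [] k0
    [[k1,k0,k0,k1,k0,k0],[k0,k2,k0,k0,k0,k0],[k0,k1,k0,k0,k1,k0],[k0,k0,k2,k0,k0,k0],[k0,k0,k2,k0,k0,k1],[k0,k0,k1,k0,
    k0,k1],[k0,k0,k1,k0,k0,k2],[k0,k0,k0,k0,k0,k2]]
    [.contra [y1,z1],.contra [z1],.contra [y1,y1,z1],.contra [z1],.ref k11 k2 [(z1,[y1,z0,z1])],.ref k6 k2 [(z1,[y1,
    z0,z1])],.ref k11 k1 [(z1,[y1,z0,z1])],.contra [z1]]),
    .old (.lp [k26,k40,k44,k48,k46,k34] [k14,k14,k7,k7,k5,k5,k0,k6,k4,k4,k10,k10] k0 [[],[k0,k0,k0,k0,k0,k0,k6],[],[],[k0,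
    k0,k0,k0,k0,k0,k0,k0,k0,k0,k0,k2],[],[k0,k0,k0,k0,k0,k0,k0,k0,k14],[k6],[k0,k0,k0,k0,k0,k0,k0,k0,k0,k0,k6],[k0,k0,
    k0,k0,k0,k0,k0,k14],[k0,k0,k0,k0,k0,k2],[k0,k0,k0,k0,k0,k0,k0,k0,k0,k6]] k120 k5
    [[(k8,k30),(k3,k33),(k7,k36)],[(k10,k30),(k5,k35),(k6,k46)],[(k1,k33),(k9,k37),(k2,k40)],[(k3,k40),(k7,k41),(k8,
    k43)],[(k0,k35),(k11,k39),(k4,k44)],[(k10,k37),(k5,k44),(k6,k49)],[(k1,k36),(k2,k41),(k9,k44)],[(k11,k30),(k0,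
    k46),(k4,k49)],[(k3,k37),(k7,k44),(k8,k60)],[(k1,k30),(k2,k43),(k9,k60)],[(k6,k30),(k5,k39),(k10,k40)],[(k0,k30),
    (k4,k37),(k11,k40)]]
    [] k0
    [[k1,k0,k0,k1,k0,k0],[k1,k0,k0,k1,k0,k1],[k0,k2,k0,k0,k0,k0],[k0,k1,k0,k0,k1,k0],[k0,k0,k2,k0,k0,k0],[k0,k0,k1,k0,
    k0,k1],[k0,k0,k1,k0,k0,k2],[k0,k0,k0,k0,k0,k2]]
    [.ref k13 k3 [(z1,[z1])],.ref k14 k3 [(z1,[z1])],.contra [z1],.ref k6 k3 [(z1,[y1,z1])],.contra [z1],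
    .ref k6 k2 [(z1,[y1,z1])],.ref k11 k1 [(z1,[y1,z1])],.contra [z1]])]⟩

/-- classes `0 0 0 0 0 0`, types `N0 N1 N2 N0 N1 N3` -/
noncomputable def cU6_44 : CertX :=
  ⟨[k12,k13,k14,k12,k13,k15],[(false,k0,[k0,k1,k2,k3,k4,k5])],[[[([z1,z0,z1,z1,z0,z1],z2)],[([z3,z0,z3,z0,z0,z0],z2),
    ([z0,z3,z0,z0,z0,z0],z2),([z0,z0,z0,z1,z0,z1],z2)],[([z1,z0,z1,z0,z0,z0],z1),([z0,z3,z0,z0,z0,z0],z2),([z0,z0,z0,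
    z1,z0,z1],z2)],[([z3,z0,z3,z0,z3,z0],z4),([z0,z3,z0,z0,z0,z0],z2)],[([z1,z0,z1,z0,z0,z0],z1),([z0,z3,z0,z0,z0,z0],
    z1),([z0,z0,z0,z1,z0,z1],z2)],[([z1,z0,z1,z0,z0,z0],z1),([z0,z2,z0,z0,z0,z0],z1),([z0,z0,z0,z1,z0,z1],z2)],[([z1,
    z0,z1,z0,z0,z0],z1),([z0,z1,z0,z0,z1,z0],z1)],[([z1,z1,z1,z0,z1,z0],z2)],[([z1,z0,z1,z0,z0,z0],z2),([z0,z3,z0,z0,
    z0,z0],z1),([z0,z0,z0,z1,z0,z1],z1)],[([z1,z0,z1,z0,z0,z0],z2),([z0,z3,z0,z0,z0,z0],z2),([z0,z0,z0,z3,z0,z3],z2)],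
    [([z1,z0,z1,z0,z0,z0],z2),([z0,z3,z0,z3,z0,z3],z4)],[([z1,z0,z1,z0,z0,z0],z2),([z0,z2,z0,z0,z0,z0],z1),([z0,z0,z0,
    z1,z0,z1],z1)]],[[([z1,z0,z1,z0,z0,z0],z2),([z0,z3,z0,z0,z0,z0],z2),([z0,z0,z0,z1,z0,z1],z1)],[([z1,z0,z1,z0,z0,
    z0],z2),([z0,z1,z0,z0,z1,z0],z1)],[([z1,z0,z1,z0,z0,z0],z2)],[]]],
    [.old (.leafM k5 [k0,k2,k3,k5] [] [(k1,k4,z1,[y1,z1]),(k4,k1,z1,[y1,z1])]),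
    .old (.leafM k10 [k0,k1,k2,k4] [(z1,[z0,z1]),(z1,[y1,y1,y3,z3]),(z1,[z1])] [(k3,k5,z1,[z0,z0,z1]),(k5,k3,z1,[z0,z0,
    z1])]),
    .old (.leafM k11 [k0,k1,k2,k4] [(z1,[z0,z1]),(z1,[y3,y1,y3,z3]),(z1,[z1])] [(k3,k5,z1,[z0,z0,z1]),(k5,k3,z1,[z0,z0,
    z1])]),
    .old (.lp [k14,k82,k82,k14,k112,k174] [k80,k80,k46,k46,k46,k46,k80,k80,k31,k31,k0,k0] k0 [[k0,k0,k0,k0,k0,k0,k0,k0,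
    k46],[],[],[],[],[],[],[k0,k0,k0,k0,k0,k0,k0,k0,k0,k52],[k0,k0,k0,k0,k0,k0,k52],[k0,k46]] (nat_lit 240) k6
    [[(k4,k48),(k5,k48),(k11,k94)],[(k4,k48),(k5,k48),(k11,k48)],[(k7,k48),(k2,k82),(k8,k143)],[(k3,k82),(k9,k97),
    (k10,k128)],[(k0,k48),(k1,k48),(k6,k48)],[(k0,k48),(k1,k48),(k6,k48)],[(k3,k48),(k9,k63),(k10,k94)],[(k4,k48),(k5,
    k48),(k11,k146)],[(k8,k60),(k7,k63),(k2,k97)],[(k9,k60),(k3,k143),(k10,k143)],[(k0,k48),(k1,k94),(k6,k146)],[(k7,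
    k94),(k2,k128),(k8,k143)]]
    [] k0
    [[k1,k0,k1,k0,k0,k0],[k2,k0,k2,k0,k0,k0],[k1,k0,k1,k1,k0,k1],[k0,k2,k0,k0,k0,k0],[k0,k0,k0,k0,k2,k0],[k0,k0,k0,k0,
    k3,k0]]
    [.contra [y3,z1,z1],.ref k2 k0 [(z2,[z1]),(z1,[z0,z0,z1]),(z3,[z0,y1,y1,z3])],.contra [z3,z1,z1,y3],.contra [z1],
    .contra [z1],.ref k1 k0 [(z1,[y1,z1]),(z1,[z0,z0,z1]),(z3,[z0,y1,y1,z3])]]),
    .old (.leafM k11 [k2,k4,k0,k1] [(z1,[y3,y1,y3,z3]),(z1,[z0,z1]),(z1,[z1])] [(k3,k5,z1,[z0,z0,z1]),(k5,k3,z1,[z0,z0,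
    z1])]),
    .old (.leafM k12 [k0,k1,k2,k4] [(z1,[z0,z1]),(z1,[y2,y1,y2,z2]),(z1,[z1])] [(k3,k5,z1,[z0,z0,z1]),(k5,k3,z1,[z0,z0,
    z1])]),
    .old (.lp [k70,k50,k50,k46,k152,k102] [k41,k41,k51,k51,k51,k51,k53,k53,k0,k0,k25,k25] k0 [[k0,k0,k0,k0,k0,k0,k0,k0,
    k38],[],[],[],[],[],[],[k0,k0,k0,k0,k0,k0,k0,k0,k0,k92],[k0,k0,k0,k0,k0,k0,k92],[k0,k38]] (nat_lit 240) k6
    [[(k4,k60),(k5,k60),(k11,k86)],[(k11,k48),(k4,k60),(k5,k60)],[(k7,k48),(k2,k50),(k8,k139)],[(k3,k50),(k10,k76),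
    (k9,k101)],[(k6,k48),(k0,k60),(k1,k60)],[(k6,k48),(k0,k60),(k1,k60)],[(k3,k48),(k10,k74),(k9,k99)],[(k4,k48),(k5,
    k48),(k11,k166)],[(k8,k60),(k7,k99),(k2,k101)],[(k9,k60),(k10,k127),(k3,k139)],[(k0,k48),(k1,k86),(k6,k166)],[(k7,
    k74),(k2,k76),(k8,k127)]]
    [] k0
    [[k1,k0,k1,k0,k0,k0],[k1,k0,k1,k1,k0,k1],[k0,k2,k0,k0,k0,k0],[k0,k3,k0,k0,k0,k0],[k0,k4,k0,k0,k0,k0],[k0,k0,k0,k0,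
    k2,k0],[k0,k0,k0,k0,k3,k0]]
    [.contra [y1,z2],.contra [z1,z1,z1,y1],.contra [z1],.ref k3 k0 [(z1,[y1,z3,z3]),(z1,[z1])],.ref k5 k0 [(z1,[z0,
    z1]),(z2,[z1]),(z1,[z0,y1,y1,z1])],.contra [z1],.ref k4 k0 [(z1,[z0,z1]),(z1,[y1,z0,z3]),(z1,[z0,y1,y1,z1])]]),
    .old (.lp [k0,(nat_lit 2520),(nat_lit 3864),(nat_lit 1380),(nat_lit 3220),(nat_lit 8280)] [(nat_lit 4140),
    (nat_lit 4140),(nat_lit 2880),(nat_lit 2880),(nat_lit 2208),(nat_lit 2208),(nat_lit 3450),(nat_lit 3450),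
    (nat_lit 2530),(nat_lit 2530),k0,k0] k0 [[k0,k0,k0,k0,k0,k0,k0,k0,(nat_lit 1449)],[],[],[],[],[],[],[],[],[k0,
    (nat_lit 1449)]] (nat_lit 9660) k6
    [[(k4,(nat_lit 1932)),(k5,(nat_lit 1932)),(k11,(nat_lit 4140))],[(k4,(nat_lit 1932)),(k5,(nat_lit 1932)),(k11,
    (nat_lit 2691))],[(k7,(nat_lit 1950)),(k2,(nat_lit 2520)),(k8,(nat_lit 4319))],[(k3,(nat_lit 2520)),(k9,
    (nat_lit 2870)),(k10,(nat_lit 5400))],[(k0,(nat_lit 1932)),(k1,(nat_lit 1932)),(k6,(nat_lit 2622))],[(k0,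
    (nat_lit 1932)),(k1,(nat_lit 1932)),(k6,(nat_lit 2622))],[(k3,(nat_lit 1950)),(k9,(nat_lit 2300)),(k10,
    (nat_lit 4830))],[(k4,(nat_lit 2622)),(k5,(nat_lit 2622)),(k11,(nat_lit 4830))],[(k7,(nat_lit 2300)),(k2,
    (nat_lit 2870)),(k8,(nat_lit 3220))],[(k9,(nat_lit 3220)),(k3,(nat_lit 4319)),(k10,(nat_lit 5750))],[(k0,
    (nat_lit 2691)),(k1,(nat_lit 4140)),(k6,(nat_lit 4830))],[(k7,(nat_lit 4830)),(k2,(nat_lit 5400)),(k8,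
    (nat_lit 5750))]]
    [] k0
    [[k1,k0,k1,k0,k0,k0],[k2,k0,k2,k0,k0,k0],[k0,k2,k0,k0,k0,k0],[k0,k3,k0,k0,k0,k0],[k0,k1,k0,k0,k1,k0],[k0,k0,k0,k0,
    k2,k0]]
    [.contra [y1,z1],.ref k6 k0 [(z2,[z1]),(z2,[y1,z2])],.contra [z1],.ref k3 k0 [(z1,[y1,z3]),(z1,[z1])],.contra [y1,
    z1],.contra [z1]]),
    .old (.leafM k11 [k3,k4,k5,k1] [(z1,[y3,y1,y3,z3]),(z1,[z0,z1]),(z1,[z0,z0,z1])] [(k0,k2,z1,[z1]),(k2,k0,z1,[z1])]),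
    .old (.leafM k10 [k3,k4,k5,k1] [(z1,[y3,y1,y1,z3]),(z1,[z0,z1]),(z1,[z0,z0,z1])] [(k0,k2,z1,[z1]),(k2,k0,z1,[z1])]),
    .old (.lp [k126,k62,k114,k34,k80,k62] [k20,k20,k52,k52,k52,k0,k66,k66,k43,k43,k52,k52] k0 [[k0,k0,k0,k0,k0,k0,k0,k0,
    k46],[],[],[k0,k0,k0,k0,k0,k0,k0,k52],[],[],[k0,k0,k52],[],[],[k0,k46]] (nat_lit 240) k6
    [[(k4,k94),(k11,k94),(k5,k146)],[(k11,k48),(k4,k94),(k5,k146)],[(k7,k48),(k2,k62),(k8,k117)],[(k3,k62),(k10,k62),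
    (k9,k123)],[(k6,k48),(k0,k146),(k1,k146)],[(k6,k48),(k0,k94),(k1,k94)],[(k3,k48),(k10,k48),(k9,k57)],[(k4,k48),
    (k5,k48),(k11,k48)],[(k7,k57),(k8,k80),(k2,k123)],[(k10,k71),(k9,k80),(k3,k117)],[(k0,k48),(k6,k48),(k1,k94)],
    [(k7,k48),(k2,k62),(k8,k71)]]
    [] k0
    [[k1,k0,k1,k1,k0,k1],[k0,k2,k0,k0,k0,k0],[k0,k3,k0,k0,k0,k0],[k0,k2,k0,k1,k0,k1],[k0,k1,k0,k1,k0,k1],[k0,k0,k0,k1,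
    k1,k1],[k0,k0,k0,k1,k0,k1],[k0,k0,k0,k2,k0,k2],[k0,k0,k0,k0,k2,k0]]
    [.contra [z1,y1],.contra [z1],.ref k9 k0 [(z1,[z0,z1]),(z1,[z1]),(z1,[y1,z0,z1])],.ref k9 k0 [(z1,[z0,z1]),(z1,
    [z3,z0,y1]),(z1,[y3,z0,z2])],.contra [z1,y2,y1,z2],.contra [y1,y1,z0,z1],.contra [y3,z1,z1],.ref k8 k0 [(z1,[z0,
    z1]),(z2,[y3,z0,z2]),(z2,[z1])],.contra [z1]]),
    .old (.leafM k12 [k3,k4,k5,k1] [(z1,[y2,y1,y2,z2]),(z1,[z0,z1]),(z1,[z0,z0,z1])] [(k0,k2,z1,[z1]),(k2,k0,z1,[z1])]),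
    .old (.leafM k11 [k5,k1,k3,k4] [(z1,[z0,z1]),(z1,[y3,y1,y3,z3]),(z1,[z0,z0,z1])] [(k0,k2,z1,[z1]),(k2,k0,z1,[z1])]),
    .old (.lp [(nat_lit 858),(nat_lit 780),(nat_lit 2262),k0,(nat_lit 1560),(nat_lit 650)] [(nat_lit 702),(nat_lit 702),
    (nat_lit 741),(nat_lit 741),k0,k0,(nat_lit 1431),(nat_lit 831),(nat_lit 351),(nat_lit 351),(nat_lit 806),
    (nat_lit 806)] k0 [[k0,k0,k0,k0,k0,k0,k0,k0,k130],[],[],[],[],[],[],[k0,k0,k0,k0,k0,k0,k0,k0,k0,(nat_lit 910)],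
    [k0,k0,k0,k0,k0,k0,(nat_lit 910)],[k0,k130]] (nat_lit 3120) k6
    [[(k11,(nat_lit 754)),(k4,(nat_lit 1560)),(k5,(nat_lit 1560))],[(k11,(nat_lit 624)),(k4,(nat_lit 1560)),(k5,
    (nat_lit 1560))],[(k7,(nat_lit 690)),(k2,(nat_lit 780)),(k8,(nat_lit 1300))],[(k10,(nat_lit 715)),(k3,
    (nat_lit 780)),(k9,(nat_lit 1170))],[(k6,(nat_lit 831)),(k0,(nat_lit 1560)),(k1,(nat_lit 1560))],[(k6,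
    (nat_lit 831)),(k0,(nat_lit 1560)),(k1,(nat_lit 1560))],[(k10,(nat_lit 625)),(k3,(nat_lit 690)),(k9,
    (nat_lit 1080))],[(k4,(nat_lit 831)),(k5,(nat_lit 831)),(k11,(nat_lit 935))],[(k8,(nat_lit 650)),(k7,
    (nat_lit 1080)),(k2,(nat_lit 1170))],[(k9,(nat_lit 650)),(k10,(nat_lit 1105)),(k3,(nat_lit 1300))],[(k0,
    (nat_lit 624)),(k1,(nat_lit 754)),(k6,(nat_lit 935))],[(k7,(nat_lit 625)),(k2,(nat_lit 715)),(k8,(nat_lit 1105))]]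
    [] k0
    [[k0,k2,k0,k0,k0,k0],[k0,k3,k0,k0,k0,k0],[k0,k1,k0,k1,k0,k1],[k0,k1,k0,k0,k1,k0],[k0,k0,k0,k1,k0,k1],[k0,k0,k0,k0,
    k2,k0],[k0,k0,k0,k0,k3,k0],[k0,k0,k0,k0,k4,k0]]
    [.contra [z1],.ref k12 k0 [(z1,[z0,z1]),(z1,[z1]),(z1,[z0,y1,y1,z1])],.contra [z1,z1,z1,y1],.contra [y2,z1,z2],
    .contra [y2,y1,y2,z2],.contra [z1],.ref k10 k0 [(z1,[z0,z1]),(z1,[y1,y3,z0,z3])],.ref k11 k0 [(z1,[z0,z1]),(z2,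
    [y1,z0,z4]),(z1,[z0,y1,y1,z1])]]),
    .old (.lp [k72,k80,k168,k0,k82,k76] [k74,k74,k70,k70,k52,k0,k120,k100,k69,k69,k72,k72] k0 [[k0,k0,k0,k0,k0,k0,k0,k0,
    k26],[],[],[k0,k0,k0,k0,k0,k0,k0,k52],[],[],[k0,k0,k52],[k0,k0,k0,k0,k0,k0,k0,k0,k0,k20],[k0,k0,k0,k0,k0,k0,k20],
    [k0,k26]] (nat_lit 240) k6
    [[(k11,k74),(k4,k94),(k5,k146)],[(k11,k48),(k4,k94),(k5,k146)],[(k7,k50),(k2,k80),(k8,k107)],[(k10,k78),(k3,k80),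
    (k9,k133)],[(k6,k48),(k0,k146),(k1,k146)],[(k6,k48),(k0,k94),(k1,k94)],[(k10,k48),(k3,k50),(k9,k51)],[(k4,k48),
    (k5,k48),(k11,k48)],[(k7,k51),(k8,k62),(k2,k133)],[(k9,k62),(k10,k79),(k3,k107)],[(k0,k48),(k6,k48),(k1,k74)],
    [(k7,k48),(k2,k78),(k8,k79)]]
    [] k0
    [[k1,k0,k1,k1,k0,k1],[k0,k2,k0,k0,k0,k0],[k0,k1,k0,k1,k0,k1],[k0,k0,k0,k1,k1,k1],[k0,k0,k0,k1,k0,k1],[k0,k0,k0,k2,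
    k0,k2],[k0,k0,k0,k0,k2,k0],[k0,k0,k0,k0,k3,k0]]
    [.contra [z1,y1],.contra [z1],.contra [y1,y1,z1],.contra [y1,y1,z1],.contra [y1,y1,z1],.ref k13 k0 [(z1,[z0,z1]),
    (z2,[y1,y2,z2])],.contra [z1],.ref k10 k0 [(z1,[z0,z1]),(z1,[y1,y3,z3])]]),
    .old (.lp [k0,k24,k24,k4,k16,k26] [k13,k13,k1,k1,k1,k1,k11,k11,k5,k5,k0,k0] k0 [[],[],[],[],[k0,k0,k0,k0,k0,k0,k0,k2],
    [],[k0,k0,k0,k0,k0,k2]] k48 k5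
    [[(k4,k12),(k5,k12),(k11,k13)],[(k4,k12),(k5,k12),(k11,k13)],[(k7,k14),(k8,k20),(k2,k24)],[(k9,k20),(k3,k24),(k10,
    k25)],[(k0,k12),(k1,k12),(k6,k14)],[(k0,k12),(k1,k12),(k6,k12)],[(k9,k12),(k3,k14),(k10,k15)],[(k4,k12),(k5,k14),
    (k11,k15)],[(k7,k12),(k8,k16),(k2,k20)],[(k9,k16),(k3,k20),(k10,k21)],[(k0,k13),(k1,k13),(k6,k15)],[(k7,k15),(k8,
    k21),(k2,k25)]]
    [] k0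
    [[k1,k0,k1,k0,k0,k0],[k0,k1,k0,k0,k1,k0],[k0,k0,k0,k1,k0,k1],[k0,k0,k0,k0,k2,k0]]
    [.ref k14 k0 [(z1,[z1])],.ref k0 k0 [(z1,[y1,z1])],.ref k7 k0 [(z1,[y1,z1])],.contra [z1]])]⟩

/-- classes `0 0 0 0 0 0`, types `N0 N1 N2 N0 N2 N3` -/
noncomputable def cU6_45 : CertX :=
  ⟨[k12,k13,k14,k12,k14,k15],[(false,k0,[k0,k1,k2,k3,k4,k5])],[[[([z1,z0,z1,z1,z1,z0],z2)],[([z1,z0,z1,z0,z0,z0],z2)],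
    []]],
    [.old (.leafM k3 [k2,k3,k4,k0] [] [(k5,k1,z1,[y1,z1]),(k1,k5,z1,[y1,z1])]),
    .old (.leafM k3 [k3,k4,k5,k1] [] [(k0,k2,z1,[z1]),(k2,k0,z1,[z1])]),
    .old (.lp [k20,k40,k40,k20,k76,k42] [k28,k28,k18,k18,k18,k18,k28,k28,k0,k0,k17,k17] k0 [[],[],[],[],[],[],[],[k0,k0,
    k0,k0,k0,k0,k0,k0,k24],[k0,k0,k0,k0,k0,k0,k0,k0,k0,k0,k18],[k0,k0,k0,k0,k0,k0,k24],[],[k0,k0,k0,k0,k0,k0,k0,k0,k0,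
    k18]] k120 k5
    [[(k4,k30),(k5,k30),(k8,k30)],[(k4,k30),(k5,k30),(k8,k48)],[(k7,k30),(k2,k40),(k11,k41)],[(k3,k40),(k10,k41),(k9,
    k58)],[(k0,k30),(k1,k30),(k6,k30)],[(k0,k30),(k1,k30),(k6,k30)],[(k3,k30),(k10,k31),(k9,k48)],[(k4,k30),(k5,k30),
    (k8,k72)],[(k11,k35),(k7,k48),(k2,k58)],[(k1,k30),(k0,k48),(k6,k72)],[(k9,k35),(k3,k41),(k10,k60)],[(k7,k31),(k2,
    k41),(k11,k60)]]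
    [] k0
    [[k1,k0,k1,k0,k0,k0],[k0,k2,k0,k0,k0,k0],[k0,k1,k0,k0,k0,k1]]
    [.ref k1 k0 [(z1,[z1])],.contra [z1],.ref k0 k0 [(z1,[y1,z1])]])]⟩

/-- classes `0 0 0 0 0 0`, types `N0 N1 N2 N0 N3 N2` -/
noncomputable def cU6_46 : CertX :=
  ⟨[k12,k13,k14,k12,k15,k14],[],[[[]]],
    [.old (.lp [k2,k6,k4,k2,k4,k4] [k2,k2,k0,k0,k1,k1,k2,k2,k1,k1,k1,k1] k0 [] k12 k5
    [[(k8,k3),(k9,k3),(k3,k4)],[(k4,k3),(k5,k3),(k10,k3)],[(k1,k4),(k7,k4),(k2,k6)],[(k8,k5),(k9,k5),(k3,k6)],[(k0,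
    k3),(k6,k3),(k11,k4)],[(k0,k3),(k6,k3),(k11,k4)],[(k8,k3),(k9,k3),(k3,k4)],[(k4,k3),(k5,k3),(k10,k3)],[(k1,k3),
    (k7,k3),(k2,k5)],[(k1,k3),(k7,k3),(k2,k5)],[(k4,k4),(k5,k4),(k10,k4)],[(k0,k3),(k6,k3),(k11,k4)]]
    [] k0
    [[k0,k0,k0,k0,k0,k2]]
    [.contra [z1]])]⟩

/-- classes `0 0 0 0 0 0`, types `N0 N1 N2 N1 N0 N3` -/
noncomputable def cU6_47 : CertX :=
  ⟨[k12,k13,k14,k13,k12,k15],[(false,k3,[k3,k4,k5,k0,k1,k2]),(false,k0,[k0,k1,k2,k3,k4,k5])],[[[([z1,z0,z1,z0,z1,z0],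
    z2)],[([z1,z0,z1,z0,z0,z0],z1),([z0,z3,z0,z0,z0,z0],z2),([z0,z0,z0,z1,z0,z1],z2)],[([z3,z0,z3,z0,z0,z0],z2),([z0,
    z3,z0,z0,z0,z0],z2),([z0,z0,z0,z1,z0,z1],z2)],[([z1,z0,z1,z0,z0,z0],z2),([z0,z3,z0,z3,z0,z3],z4)],[([z1,z0,z1,z0,
    z0,z0],z1),([z0,z3,z0,z0,z0,z0],z1),([z0,z0,z0,z1,z0,z1],z2)],[([z1,z0,z1,z0,z0,z0],z1),([z0,z2,z0,z0,z0,z0],z1),
    ([z0,z0,z0,z1,z0,z1],z2)],[([z1,z0,z1,z0,z0,z0],z1),([z0,z1,z0,z0,z1,z0],z1)],[([z1,z0,z1,z0,z0,z0],z2)],[]]],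
    [.old (.leafM k1 [k0,k1,k2,k3,k4,k5] [(z1,[y1,z1]),(z1,[z1])] []),
    .old (.leafM k11 [k0,k1,k2,k4] [(z1,[z0,z1]),(z1,[y3,y1,y3,z3]),(z1,[z1])] [(k3,k5,z1,[z0,z0,z1]),(k5,k3,z1,[z0,z0,
    z1])]),
    .old (.leafM k10 [k0,k1,k2,k4] [(z1,[z0,z1]),(z1,[y1,y1,y3,z3]),(z1,[z1])] [(k3,k5,z1,[z0,z0,z1]),(k5,k3,z1,[z0,z0,
    z1])]),
    .old (.lp [k8,k30,k112,k18,k40,k30] [k52,k52,k41,k41,k0,k0,k47,k47,k36,k36,k41,k41] k0 [] k120 k6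
    [[(k9,k24),(k4,k60),(k5,k60)],[(k9,k24),(k4,k60),(k5,k60)],[(k6,k24),(k7,k24),(k2,k30)],[(k3,k30),(k10,k30),(k11,
    k30)],[(k0,k60),(k1,k60),(k8,k76)],[(k0,k60),(k1,k60),(k8,k76)],[(k3,k24),(k10,k24),(k11,k24)],[(k3,k24),(k10,
    k24),(k11,k24)],[(k0,k24),(k1,k24),(k8,k40)],[(k9,k40),(k4,k76),(k5,k76)],[(k6,k24),(k7,k24),(k2,k30)],[(k6,k24),
    (k7,k24),(k2,k30)]]
    [] k0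
    [[k0,k2,k0,k0,k0,k0],[k0,k3,k0,k0,k0,k0],[k0,k2,k0,k1,k0,k1],[k0,k1,k0,k1,k0,k1],[k0,k0,k0,k1,k0,k1],[k0,k0,k0,k2,
    k0,k2],[k0,k0,k0,k0,k2,k0]]
    [.contra [z1],.ref k2 k0 [(z1,[y1,z0,z1]),(z1,[z0,y3,y1,z3]),(z1,[z0,z1])],.ref k2 k0 [(z1,[y3,z0,z2]),(z1,[z0,y3,
    y1,z3]),(z1,[z0,z1])],.contra [z1,y2,y1,z2],.contra [y3,z1,z1],.ref k1 k0 [(z2,[z1]),(z1,[z0,y3,y1,z3]),(z1,[z0,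
    z1])],.contra [z1]]),
    .old (.leafM k11 [k2,k4,k0,k1] [(z1,[y3,y1,y3,z3]),(z1,[z0,z1]),(z1,[z1])] [(k3,k5,z1,[z0,z0,z1]),(k5,k3,z1,[z0,z0,
    z1])]),
    .old (.leafM k12 [k0,k1,k2,k4] [(z1,[z0,z1]),(z1,[y2,y1,y2,z2]),(z1,[z1])] [(k3,k5,z1,[z0,z0,z1]),(k5,k3,z1,[z0,z0,
    z1])]),
    .old (.lp [k6,k8,k14,k8,k10,k32] [k13,k13,k12,k12,k9,k9,k12,k12,k11,k11,k0,k0] k0 [] k40 k6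
    [[(k9,k8),(k4,k10),(k5,k10)],[(k9,k8),(k4,k10),(k5,k10)],[(k2,k8),(k6,k8),(k7,k8)],[(k3,k8),(k10,k20),(k11,k20)],
    [(k0,k10),(k1,k10),(k8,k12)],[(k0,k10),(k1,k10),(k8,k12)],[(k3,k8),(k10,k20),(k11,k20)],[(k3,k8),(k10,k20),(k11,
    k20)],[(k0,k8),(k1,k8),(k8,k10)],[(k9,k10),(k4,k12),(k5,k12)],[(k2,k20),(k6,k20),(k7,k20)],[(k2,k20),(k6,k20),(k7,
    k20)]]
    [] k0
    [[k1,k0,k1,k0,k0,k0],[k1,k0,k1,k0,k1,k0],[k0,k2,k0,k0,k0,k0],[k0,k3,k0,k0,k0,k0],[k0,k4,k0,k0,k0,k0],[k0,k0,k0,k0,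
    k2,k0],[k0,k0,k0,k0,k3,k0]]
    [.contra [y1,z2],.contra [z1,y1],.contra [z1],.ref k3 k0 [(z1,[z0,y1,y1,z1]),(z1,[y1,z3,z3])],.ref k5 k1 [(z1,[z0,
    z1]),(z2,[z1]),(z1,[z0,y1,y1,z1])],.contra [z1],.ref k4 k1 [(z1,[z0,z1]),(z1,[y1,z0,z3]),(z1,[z0,y1,y1,z1])]]),
    .old (.lp [k18,k40,k102,k8,k30,k40] [k42,k42,k31,k31,k0,k0,k47,k47,k36,k36,k31,k31] k0 [] k120 k6
    [[(k9,k24),(k4,k60),(k5,k60)],[(k9,k24),(k4,k60),(k5,k60)],[(k6,k24),(k7,k24),(k2,k40)],[(k3,k40),(k10,k40),(k11,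
    k40)],[(k0,k60),(k1,k60),(k8,k66)],[(k0,k60),(k1,k60),(k8,k66)],[(k3,k24),(k10,k24),(k11,k24)],[(k3,k24),(k10,
    k24),(k11,k24)],[(k0,k24),(k1,k24),(k8,k30)],[(k9,k30),(k4,k66),(k5,k66)],[(k6,k24),(k7,k24),(k2,k40)],[(k6,k24),
    (k7,k24),(k2,k40)]]
    [] k0
    [[k0,k2,k0,k0,k0,k0],[k0,k1,k0,k1,k0,k1],[k0,k0,k0,k1,k0,k1],[k0,k0,k0,k2,k0,k2],[k0,k0,k0,k0,k2,k0],[k0,k0,k0,k0,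
    k3,k0]]
    [.contra [z1],.contra [y1,y1,z1],.contra [y1,y1,z1],.ref k6 k0 [(z2,[z1]),(z2,[y1,y2,z2])],.contra [z1],
    .ref k3 k1 [(z1,[z0,z1]),(z1,[y1,y3,z3])]]),
    .old (.lp [k0,k4,k6,k2,k6,k4] [k3,k3,k1,k1,k0,k0,k2,k2,k0,k0,k1,k1] k0 [] k12 k5
    [[(k4,k3),(k5,k3),(k9,k3)],[(k4,k3),(k5,k3),(k9,k3)],[(k6,k3),(k7,k3),(k2,k4)],[(k3,k4),(k10,k4),(k11,k4)],[(k0,
    k3),(k1,k3),(k8,k6)],[(k0,k3),(k1,k3),(k8,k6)],[(k3,k3),(k10,k3),(k11,k3)],[(k3,k3),(k10,k3),(k11,k3)],[(k0,k3),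
    (k1,k3),(k8,k6)],[(k4,k6),(k5,k6),(k9,k6)],[(k6,k3),(k7,k3),(k2,k4)],[(k6,k3),(k7,k3),(k2,k4)]]
    [] k0
    [[k1,k0,k1,k0,k0,k0],[k0,k2,k0,k0,k0,k0],[k0,k1,k0,k1,k0,k1],[k0,k0,k0,k1,k0,k1]]
    [.ref k7 k1 [(z1,[z1])],.contra [z1],.ref k0 k1 [(z1,[y1,z1])],.ref k7 k0 [(z1,[z1])]])]⟩

/-- the certificates of this file -/
noncomputable def lU6_6 : List CertX :=
  [cU6_38, cU6_39, cU6_40, cU6_41, cU6_42, cU6_43, cU6_44, cU6_45, cU6_46, cU6_47]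

theorem gU6_6 : allF (chkE 6 ttU6) lU6_6 = true := by
  decide +kernel

end Pool.Agent.Lib_MP_fa6e45
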