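import Pool.Agent.Lib_MP_fa6e45.CXT
import Pool.Agent.Lib_MP_fa6e45.HK

/-!
MP_fa6e45_co, stage 7: certificates (generated by a program).
-/

namespace Pool.Agent.Lib_MP_fa6e45

/-- classes `0 0 0 0 0 0`, types `N0 N1 N3 N1 N0 N2` -/
noncomputable def cU6_48 : CertX :=
  ⟨[k12,k13,k15,k13,k12,k14],[(false,k3,[k3,k4,k5,k0,k1,k2]),(false,k0,[k0,k1,k2,k3,k4,k5]),(true,k2,[k2,k1,k0,k5,k4,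
    k3]),(true,k5,[k5,k4,k3,k2,k1,k0])],[[[([z1,z0,z0,z0,z1,z1],z2)],[([z1,z0,z1,z0,z1,z0],z2)],[([z1,z0,z1,z0,z0,z0],
    z1),([z0,z3,z0,z0,z0,z0],z2),([z0,z0,z0,z1,z0,z1],z2)],[([z3,z0,z3,z0,z0,z0],z2),([z0,z3,z0,z0,z0,z0],z2),([z0,z0,
    z0,z1,z0,z1],z2)],[([z1,z0,z0,y1,z0,z0],z0),([z0,z3,z0,z3,z0,z3],z4),([z0,z0,z1,z1,z0,z0],z2)],[([z1,z0,z1,z0,z0,
    z0],z2),([z0,z3,z0,z3,z0,z3],z4)],[([z1,z0,z1,z0,z0,z0],z1),([z0,z3,z0,z0,z0,z0],z1),([z0,z0,z0,z1,z0,z1],z2)],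
    [([z1,z0,z1,z0,z0,z0],z1),([z0,z2,z0,z0,z0,z0],z1),([z0,z0,z0,z1,z0,z1],z2)],[([z1,z0,z0,z0,z0,z1],z1),([z0,z1,z0,
    z0,z1,z0],z1),([z0,z0,z1,z0,z0,y1],z0)],[([z1,z0,z1,z0,z0,z0],z1),([z0,z1,z0,z0,z1,z0],z1)],[([z1,z0,z0,y1,z0,z0],
    z0),([z0,z1,z0,z1,z1,z1],z2)],[([z1,z0,z1,z0,z0,z0],z2)]],[[([z1,z0,z0,z0,z0,z1],z1),([z0,z3,z0,z0,z0,z0],z1),
    ([z0,z0,z3,z0,z0,y3],z2),([z0,z0,z0,z3,z0,z3],z4)],[([z1,z0,z0,z0,z0,z1],z2),([z0,z3,z0,z0,z0,z0],z2),([z0,z0,z3,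
    z0,z0,y3],y2)],[([z1,z0,z0,z0,z0,z1],z1),([z0,z1,z0,z0,z1,z0],z1),([z0,z0,z1,z0,y1,y1],z0)],[([z1,z0,z0,z0,z0,z1],
    z2),([z0,z1,z1,z0,z0,y1],z0)],[([z1,z0,z0,z0,z0,z1],z2)],[([z1,z1,z1,z0,z0,z0],z2)],[]]],
    [.old (.leafM k6 [k1,k2,k3,k4,k5,k0] [(z1,[z1])] []),
    .old (.leafM k1 [k0,k1,k2,k3,k4,k5] [(z1,[y1,z1]),(z1,[z1])] []),
    .old (.leafM k11 [k0,k1,k2,k4] [(z1,[z0,z1]),(z1,[y3,y1,y3,z3]),(z1,[z1])] [(k3,k5,z1,[z0,z0,z1]),(k5,k3,z1,[z0,z0,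
    z1])]),
    .old (.leafM k10 [k0,k1,k2,k4] [(z1,[z0,z1]),(z1,[y1,y1,y3,z3]),(z1,[z1])] [(k3,k5,z1,[z0,z0,z1]),(k5,k3,z1,[z0,z0,
    z1])]),
    .old (.lp [k102,k22,k134,k76,k20,k124] [k19,k19,k59,k59,k3,k3,k32,k32,k60,k60,k16,k0] k0 [[k0,k0,k38],[k0,k0,k0,k0,k0,
    k0,k0,k0,k0,k0,k14],[k0,k0,k0,k0,k0,k30],[k0,k38],[k0,k0,k0,k30],[k0,k0,k0,k0,k0,k0,k0,k0,k0,k0,k0,k42],[k0,k0,k0,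
    k0,k0,k0,k0,k0,k60],[],[],[k0,k0,k0,k0,k0,k0,k0,k60],[k0,k0,k0,k0,k42],[k14]] (nat_lit 240) k6
    [[(k3,k48),(k11,k121),(k4,k160)],[(k9,k61),(k5,k80),(k10,k119)],[(k1,k48),(k6,k49),(k2,k60)],[(k4,k48),(k3,k60),
    (k11,k81)],[(k8,k77),(k0,k80),(k7,k135)],[(k2,k48),(k6,k105),(k1,k160)],[(k9,k48),(k10,k50),(k5,k135)],[(k11,k48),
    (k3,k49),(k4,k105)],[(k7,k48),(k0,k61),(k8,k80)],[(k10,k64),(k5,k77),(k9,k80)],[(k6,k48),(k2,k81),(k1,k121)],[(k7,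
    k50),(k8,k64),(k0,k119)]]
    [] k0
    [[k1,k2,k1,k0,k0,k0],[k1,k1,k1,k0,k0,k0],[k1,k1,k1,k0,k1,k0],[k0,k2,k0,k0,k0,k0],[k0,k3,k0,k0,k0,k0],[k0,k1,k1,k1,
    k0,k0],[k0,k1,k1,k1,k1,k0],[k0,k1,k0,k1,k0,k1],[k0,k0,k1,k1,k1,k0],[k0,k0,k0,k1,k1,k1],[k0,k0,k0,k1,k0,k1],[k0,k0,
    k0,k2,k0,k2],[k0,k0,k0,k0,k2,k0]]
    [.contra [z1,y1,z0,y1],.contra [z1,y1,z0,y1],.contra [z3,z1,z1,z1,y3],.contra [z1],.ref k3 k0 [(z1,[y1,z0,z1]),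
    (z1,[z0,y3,y1,y3,z3]),(z1,[z0,z1,z0,z1])],.contra [z1,z0,z0,y1],.contra [z3,z4,z1,z1,y3],.contra [z1,y2,y1,y2,z2],
    .contra [y1,y3,y1,y2,z3],.contra [y1,y1,z0,y1,z1],.contra [y3,z1,z1,z1],.ref k2 k0 [(z2,[z1]),(z1,[z0,y3,y1,y3,
    z3]),(z1,[z0,z1,z0,z1])],.contra [z1]]),
    .old (.lp [k102,k22,k134,k76,k20,k124] [k19,k19,k59,k59,k3,k3,k32,k32,k60,k60,k16,k0] k0 [[k0,k0,k38],[k0,k0,k0,k0,k0,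
    k0,k0,k0,k0,k0,k14],[k0,k0,k0,k0,k0,k30],[k0,k38],[k0,k0,k0,k30],[k0,k0,k0,k0,k0,k0,k0,k0,k0,k0,k0,k42],[k0,k0,k0,
    k0,k0,k0,k0,k0,k60],[],[],[k0,k0,k0,k0,k0,k0,k0,k60],[k0,k0,k0,k0,k42],[k14]] (nat_lit 240) k6
    [[(k3,k48),(k11,k121),(k4,k160)],[(k9,k61),(k5,k80),(k10,k119)],[(k1,k48),(k6,k49),(k2,k60)],[(k4,k48),(k3,k60),
    (k11,k81)],[(k8,k77),(k0,k80),(k7,k135)],[(k2,k48),(k6,k105),(k1,k160)],[(k9,k48),(k10,k50),(k5,k135)],[(k11,k48),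
    (k3,k49),(k4,k105)],[(k7,k48),(k0,k61),(k8,k80)],[(k10,k64),(k5,k77),(k9,k80)],[(k6,k48),(k2,k81),(k1,k121)],[(k7,
    k50),(k8,k64),(k0,k119)]]
    [] k0
    [[k1,k2,k1,k0,k0,k0],[k1,k1,k1,k0,k0,k0],[k1,k1,k1,k0,k1,k0],[k0,k2,k0,k0,k0,k0],[k0,k3,k0,k0,k0,k0],[k0,k1,k1,k1,
    k0,k0],[k0,k1,k1,k1,k1,k0],[k0,k1,k0,k1,k0,k1],[k0,k0,k1,k1,k1,k0],[k0,k0,k0,k1,k1,k1],[k0,k0,k0,k1,k0,k1],[k0,k0,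
    k0,k2,k0,k2],[k0,k0,k0,k0,k2,k0]]
    [.contra [z1,y1],.contra [z1,y1],.contra [z3,z1,z1,y3],.contra [z1],.ref k3 k0 [(z1,[y1,z0,z1]),(z1,[z0,y3,y1,
    z3]),(z1,[z0,z1])],.ref k0 k1 [(z1,[y1,z0,z0,z1])],.ref k4 k2 [(z1,[z1,z1,z0,y1]),(z1,[z0,z0,z1]),(z1,[y1,z0,z0,
    z1])],.contra [z1,y2,y1,z2],.ref k0 k2 [(z1,[z1])],.contra [y1,y1,z0,z1],.contra [y3,z1,z1],.ref k2 k0 [(z2,[z1]),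
    (z1,[z0,y3,y1,z3]),(z1,[z0,z1])],.contra [z1]]),
    .old (.leafM k11 [k2,k4,k0,k1] [(z1,[y3,y1,y3,z3]),(z1,[z0,z1]),(z1,[z1])] [(k3,k5,z1,[z0,z0,z1]),(k5,k3,z1,[z0,z0,
    z1])]),
    .old (.leafM k12 [k0,k1,k2,k4] [(z1,[z0,z1]),(z1,[y2,y1,y2,z2]),(z1,[z1])] [(k3,k5,z1,[z0,z0,z1]),(k5,k3,z1,[z0,z0,
    z1])]),
    .old (.lp [k82,k48,k60,k128,k60,k98] [k23,k23,k40,k40,k34,k34,k0,k0,k34,k34,k1,k29] k0 [[k0,k0,k0,k0,k0,k0,k0,k0,k0,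
    k0,k0,k56],[k0,k0,k0,k0,k0,k0,k0,k4],[k0,k0,k0,k0,k0,k6],[k0,k0,k0,k0,k0,k0,k0,k0,k0,k12],[k0,k0,k0,k6,k0,k0,k0,
    k0,k0,k0,k14],[k0,k0,k0,k0,k0,k0,k46],[k4],[k0,k0,k0,k0,k46],[k0,k0,k12],[],[k0,k56],[k0,k0,k0,k0,k0,
    k14]] (nat_lit 240) k6
    [[(k4,k57),(k11,k76),(k3,k121)],[(k10,k48),(k5,k71),(k9,k75)],[(k2,k48),(k6,k84),(k1,k121)],[(k3,k48),(k4,k48),
    (k11,k71)],[(k8,k48),(k0,k71),(k7,k100)],[(k2,k48),(k1,k57),(k6,k140)],[(k9,k48),(k5,k100),(k10,k141)],[(k3,k84),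
    (k11,k99),(k4,k140)],[(k7,k48),(k8,k60),(k0,k75)],[(k5,k48),(k9,k60),(k10,k93)],[(k2,k71),(k1,k76),(k6,k99)],[(k0,
    k48),(k8,k93),(k7,k141)]]
    [] k0
    [[k1,k0,k1,k0,k0,k0],[k1,k0,k1,k0,k1,k0],[k1,k0,k0,k0,k0,k1],[k0,k2,k0,k0,k0,k0],[k0,k3,k0,k0,k0,k0],[k0,k4,k0,k0,
    k0,k0],[k0,k1,k1,k1,k0,k0],[k0,k1,k1,k1,k1,k0],[k0,k0,k1,k1,k1,k0],[k0,k0,k0,k0,k2,k0],[k0,k0,k0,k0,k3,k0]]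
    [.contra [y1,z2,z0,z2],.contra [z1,y1,z0,y1],.contra [y1,z2,z0,z1],.contra [z1],.ref k5 k0 [(z1,[z0,y1,y1,y1,z1]),
    (z1,[y1,z3,z3,z3])],.ref k7 k1 [(z1,[z0,z1,z0,z1]),(z2,[z1]),(z1,[z0,y1,y1,y1,z1])],.contra [y1,y1,z0,z0,z1],
    .contra [z1,z2,z0,z1,y1],.contra [y1,y1,z0,z0,z1],.contra [z1],.ref k6 k1 [(z1,[z0,z1,z0,z1]),(z1,[y1,z0,z3]),(z1,
    [z0,y1,y1,y1,z1])]]),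
    .old (.lp [k134,k10,k86,k124,k20,k96] [k1,k1,k63,k63,k25,k25,k12,k0,k58,k58,k20,k20] k0 [[k0,k0,k38],[],[],[k0,k38],
    [k0,k0,k0,k0,k0,k0,k0,k0,k0,k0,k60],[k0,k0,k0,k0,k0,k0,k30],[k0,k0,k0,k0,k0,k0,k0,k0,k40],[k0,k0,k0,k0,k30],[k0,
    k0,k0,k0,k0,k0,k0,k0,k0,k0,k0,k10],[k0,k0,k0,k0,k0,k0,k0,k40],[k0,k0,k0,k0,k0,k0,k0,k0,k0,k10],[k0,k0,k0,k0,k0,
    k60]] (nat_lit 240) k6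
    [[(k4,k50),(k3,k72),(k11,k125)],[(k5,k72),(k9,k77),(k10,k115)],[(k2,k48),(k6,k61),(k1,k72)],[(k3,k48),(k4,k48),
    (k11,k53)],[(k8,k53),(k0,k72),(k7,k111)],[(k2,k48),(k1,k50),(k6,k129)],[(k9,k48),(k5,k111),(k10,k176)],[(k3,k61),
    (k11,k64),(k4,k129)],[(k7,k48),(k8,k60),(k0,k77)],[(k10,k48),(k5,k53),(k9,k60)],[(k2,k53),(k6,k64),(k1,k125)],
    [(k8,k48),(k0,k115),(k7,k176)]]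
    [] k0
    [[k1,k1,k1,k0,k0,k0],[k1,k0,k1,k0,k0,k0],[k1,k0,k1,k0,k1,k0],[k0,k2,k0,k0,k0,k0],[k0,k3,k0,k0,k0,k0],[k0,k4,k0,k0,
    k0,k0],[k0,k1,k1,k1,k0,k0],[k0,k1,k1,k1,k1,k0],[k0,k1,k0,k1,k1,k1],[k0,k0,k1,k1,k1,k0],[k0,k0,k0,k1,k2,k1],[k0,k0,
    k0,k1,k1,k1],[k0,k0,k0,k0,k2,k0],[k0,k0,k0,k0,k3,k0]]
    [.contra [z1,y1],.contra [y1,z2],.contra [z1,y1],.contra [z1],.ref k5 k0 [(z1,[z0,y1,y1,z1]),(z1,[y1,z3,z3])],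
    .ref k7 k1 [(z1,[z0,z1]),(z2,[z1]),(z1,[z0,y1,y1,z1])],.ref k0 k1 [(z1,[y1,z0,z0,z1])],.ref k8 k2 [(z1,[z1,z0,
    y1]),(z1,[z0,z0,z1]),(z1,[y1,z1,z1])],.contra [z1,z2,z0,y1],.ref k0 k2 [(z1,[z1])],.contra [y1,y1,z1,z1],
    .contra [y1,y1,z0,z1],.contra [z1],.ref k6 k1 [(z1,[z0,z1]),(z1,[y1,z0,z3]),(z1,[z0,y1,y1,z1])]]),
    .old (.lp [(nat_lit 304),k66,(nat_lit 404),(nat_lit 225),k60,(nat_lit 375)] [k64,k64,k183,k183,k14,k14,k105,k102,k186,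
    k186,k0,k57] k0 [[k0,k0,k174],[k0,k0,k0,k0,k0,k0,k0,k0,k0,k0,k41],[k0,k0,k0,k0,k0,k91],[k0,k174],[k0,k0,k0,k91],
    [k0,k0,k0,k0,k0,k0,k0,k0,k0,k0,k0,k186],[k0,k0,k0,k0,k0,k0,k0,k0,k120],[],[],[k0,k0,k0,k0,k0,k0,k0,k120],[k0,k0,
    k0,k0,k186],[k41]] (nat_lit 720) k6
    [[(k3,k144),(k11,(nat_lit 311)),(k4,(nat_lit 540))],[(k5,k180),(k9,k182),(k10,(nat_lit 409))],[(k1,k144),(k6,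
    k144),(k2,(nat_lit 240))],[(k4,k144),(k11,k192),(k3,(nat_lit 240))],[(k0,k180),(k8,(nat_lit 232)),(k7,
    (nat_lit 407))],[(k2,k144),(k6,(nat_lit 313)),(k1,(nat_lit 540))],[(k9,k144),(k10,k144),(k5,(nat_lit 407))],[(k3,
    k144),(k11,k150),(k4,(nat_lit 313))],[(k7,k144),(k8,k180),(k0,k182)],[(k9,k180),(k5,(nat_lit 232)),(k10,
    (nat_lit 246))],[(k6,k150),(k2,k192),(k1,(nat_lit 311))],[(k7,k144),(k8,(nat_lit 246)),(k0,(nat_lit 409))]]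
    [] k0
    [[k1,k2,k1,k0,k0,k0],[k1,k1,k1,k0,k0,k0],[k1,k1,k1,k0,k1,k0],[k0,k2,k0,k0,k0,k0],[k0,k1,k1,k1,k0,k0],[k0,k1,k1,k1,
    k1,k0],[k0,k1,k0,k1,k0,k1],[k0,k0,k1,k1,k1,k0],[k0,k0,k0,k1,k1,k1],[k0,k0,k0,k1,k0,k1],[k0,k0,k0,k2,k0,k2],[k0,k0,
    k0,k0,k2,k0],[k0,k0,k0,k0,k3,k0]]
    [.contra [z1,z0,z1,y1],.contra [z1,z0,z1,y1],.contra [z1,z0,z1,y1],.contra [z1],.contra [z1,z1,z1,y1],.contra [z1,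
    z1,z1,y1],.contra [y1,z0,z1],.contra [z1,z1,z1,y1],.contra [y1,z0,z1],.contra [y1,z0,z1],.ref k9 k0 [(z2,[z1]),
    (z2,[y1,z0,z2])],.contra [z1],.ref k5 k1 [(z1,[z0,z0,y1,z1]),(z1,[y1,z0,z3])]]),
    .old (.lp [(nat_lit 304),k66,(nat_lit 404),(nat_lit 225),k60,(nat_lit 375)] [k64,k64,k183,k183,k14,k14,k105,k102,k186,
    k186,k0,k57] k0 [[k0,k0,k174],[k0,k0,k0,k0,k0,k0,k0,k0,k0,k0,k41],[k0,k0,k0,k0,k0,k91],[k0,k174],[k0,k0,k0,k91],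
    [k0,k0,k0,k0,k0,k0,k0,k0,k0,k0,k0,k186],[k0,k0,k0,k0,k0,k0,k0,k0,k120],[],[],[k0,k0,k0,k0,k0,k0,k0,k120],[k0,k0,
    k0,k0,k186],[k41]] (nat_lit 720) k6
    [[(k3,k144),(k11,(nat_lit 311)),(k4,(nat_lit 540))],[(k5,k180),(k9,k182),(k10,(nat_lit 409))],[(k1,k144),(k6,
    k144),(k2,(nat_lit 240))],[(k4,k144),(k11,k192),(k3,(nat_lit 240))],[(k0,k180),(k8,(nat_lit 232)),(k7,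
    (nat_lit 407))],[(k2,k144),(k6,(nat_lit 313)),(k1,(nat_lit 540))],[(k9,k144),(k10,k144),(k5,(nat_lit 407))],[(k3,
    k144),(k11,k150),(k4,(nat_lit 313))],[(k7,k144),(k8,k180),(k0,k182)],[(k9,k180),(k5,(nat_lit 232)),(k10,
    (nat_lit 246))],[(k6,k150),(k2,k192),(k1,(nat_lit 311))],[(k7,k144),(k8,(nat_lit 246)),(k0,(nat_lit 409))]]
    [] k0
    [[k1,k2,k1,k0,k0,k0],[k1,k1,k1,k0,k0,k0],[k1,k1,k1,k0,k1,k0],[k0,k2,k0,k0,k0,k0],[k0,k1,k1,k1,k0,k0],[k0,k1,k1,k1,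
    k1,k0],[k0,k1,k0,k1,k0,k1],[k0,k0,k1,k1,k1,k0],[k0,k0,k0,k1,k1,k1],[k0,k0,k0,k1,k0,k1],[k0,k0,k0,k2,k0,k2],[k0,k0,
    k0,k0,k2,k0],[k0,k0,k0,k0,k3,k0]]
    [.contra [z1,y1],.contra [z1,y1],.contra [z1,y1],.contra [z1],.ref k0 k1 [(z1,[y1,z0,z1])],.ref k10 k2 [(z1,[z1,
    z1,y1]),(z1,[z0,y1,z1])],.contra [y1,y1,z1],.ref k0 k2 [(z1,[z1])],.contra [y1,y1,z1],.contra [y1,y1,z1],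
    .ref k9 k0 [(z2,[z1]),(z2,[y1,y2,z2])],.contra [z1],.ref k5 k1 [(z1,[z0,z1]),(z1,[y1,y3,z3])]]),
    .geo false z3 k5 [(z3,y3),(z1,z0),(z2,z3),(z4,y3),(z2,z0),(z0,z3)] [(z1,[z3]),(z1,[z0,z1]),(z1,[z0,z0,z1]),(z1,[z0,z0,
    z0,z1]),(z1,[y3,y1,y1,y1,z3]),(z1,
    [])] z0 (Int.ofNat (nat_lit 2097152)) (.s (.s (.l k1) (.l k1)) (.s (.l k1) (.l k1))) [],
    .old (.lp [k186,k160,k132,k64,k124,(nat_lit 292)] [k53,k53,k66,k66,k80,k80,k114,k114,k84,k84,k0,k0] k0 [[],[],[k0,k0,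
    k0,k0,k0,k0,k0,k0,k36],[k0,k0,k0,k0,k2],[k0,k0,k0,k0,k0,k0,k0,k2],[k0,k0,k2],[k0,k0,k0,k0,k0,k2],[],[k0,k0,k0,k0,
    k0,k0,k0,k0,k0,k0,k0,k2],[k0,k0,k0,k36],[k0,k0,k0,k0,k0,k0,k0,k0,k0,k2]] (nat_lit 480) k6
    [[(k4,k159),(k3,k173),(k11,(nat_lit 241))],[(k9,k155),(k5,k159),(k10,(nat_lit 239))],[(k6,k112),(k2,k160),(k1,
    k173)],[(k4,k148),(k3,k160),(k11,k190)],[(k7,k96),(k0,k159),(k8,k164)],[(k6,k96),(k2,k148),(k1,k159)],[(k5,k96),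
    (k9,k96),(k10,k178)],[(k4,k96),(k3,k112),(k11,k178)],[(k7,k96),(k8,k124),(k0,k155)],[(k9,k124),(k5,k164),(k10,
    (nat_lit 206))],[(k6,k178),(k2,k190),(k1,(nat_lit 241))],[(k7,k178),(k8,(nat_lit 206)),(k0,(nat_lit 239))]]
    [] k0
    [[k1,k0,k1,k0,k0,k0],[k1,k0,k1,k0,k1,k0],[k0,k2,k0,k0,k0,k0],[k0,k1,k1,k1,k0,k0],[k0,k0,k1,k1,k0,k0],[k0,k0,k2,k2,
    k0,k0],[k0,k0,k1,k1,k1,k0],[k0,k0,k0,k1,k0,k1],[k0,k0,k0,k0,k2,k0],[k0,k0,k0,k0,k3,k0]]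
    [.contra [z3,y3,z2,y1],.ref k1 k1 [(z1,[z1])],.contra [z1],.contra [y1,y1,z0,z0,z1],.contra [y1,y1,z0,z0,z1],
    .ref k12 k0 [(z2,[z1]),(z2,[y3,y6,y2,z0,z6]),(z1,[z0,z0,z0,y1]),(z1,[z0,z3,z0,z1])],.contra [z1,z1,z1,z0,y1],
    .contra [y3,y3,y1,y1,z3],.contra [z1],.ref k1 k1 [(z3,[z1,z3,z0,z1])]]),
    .old (.lp [k82,k48,k60,k128,k60,k98] [k23,k23,k40,k40,k34,k34,k0,k0,k34,k34,k1,k29] k0 [[k0,k0,k0,k0,k0,k0,k0,k0,k0,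
    k0,k0,k56],[k0,k0,k0,k0,k0,k0,k0,k4],[k0,k0,k0,k0,k0,k6],[k0,k0,k0,k0,k0,k0,k0,k0,k0,k12],[k0,k0,k0,k6,k0,k0,k0,
    k0,k0,k0,k14],[k0,k0,k0,k0,k0,k0,k46],[k4],[k0,k0,k0,k0,k46],[k0,k0,k12],[],[k0,k56],[k0,k0,k0,k0,k0,
    k14]] (nat_lit 240) k6
    [[(k4,k57),(k11,k76),(k3,k121)],[(k10,k48),(k5,k71),(k9,k75)],[(k2,k48),(k6,k84),(k1,k121)],[(k3,k48),(k4,k48),
    (k11,k71)],[(k8,k48),(k0,k71),(k7,k100)],[(k2,k48),(k1,k57),(k6,k140)],[(k9,k48),(k5,k100),(k10,k141)],[(k3,k84),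
    (k11,k99),(k4,k140)],[(k7,k48),(k8,k60),(k0,k75)],[(k5,k48),(k9,k60),(k10,k93)],[(k2,k71),(k1,k76),(k6,k99)],[(k0,
    k48),(k8,k93),(k7,k141)]]
    [] k0
    [[k1,k0,k1,k0,k0,k0],[k1,k0,k1,k0,k1,k0],[k1,k0,k0,k0,k0,k1],[k0,k2,k0,k0,k0,k0],[k0,k3,k0,k0,k0,k0],[k0,k4,k0,k0,
    k0,k0],[k0,k1,k1,k1,k0,k0],[k0,k1,k1,k1,k1,k0],[k0,k0,k1,k1,k1,k0],[k0,k0,k0,k0,k2,k0],[k0,k0,k0,k0,k3,k0]]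
    [.contra [z1,y1,z0,y1],.ref k1 k1 [(z1,[z1])],.contra [y2,z3,z1,z1],.contra [z1],.ref k13 k2 [(z1,[z0,y1,y1,z0,
    z1]),(z1,[z1]),(z1,[y1,z6,z6,z3,y3])],.ref k1 k1 [(z2,[y1,z2,z4,z2])],.contra [y1,y1,z0,z0,z1],.contra [z2,z3,z1,
    z1,y2],.contra [y1,y1,z0,z0,z1],.contra [z1],.ref k13 k0 [(z1,[z0,y1,y1,z0,z1]),(z1,[z1]),(z1,[y1,z0,z0,y3])]]),
    .old (.lp [k186,k160,k132,k64,k124,(nat_lit 292)] [k53,k53,k66,k66,k80,k80,k114,k114,k84,k84,k0,k0] k0 [[],[],[k0,k0,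
    k0,k0,k0,k0,k0,k0,k36],[k0,k0,k0,k0,k2],[k0,k0,k0,k0,k0,k0,k0,k2],[k0,k0,k2],[k0,k0,k0,k0,k0,k2],[],[k0,k0,k0,k0,
    k0,k0,k0,k0,k0,k0,k0,k2],[k0,k0,k0,k36],[k0,k0,k0,k0,k0,k0,k0,k0,k0,k2]] (nat_lit 480) k6
    [[(k4,k159),(k3,k173),(k11,(nat_lit 241))],[(k9,k155),(k5,k159),(k10,(nat_lit 239))],[(k6,k112),(k2,k160),(k1,
    k173)],[(k4,k148),(k3,k160),(k11,k190)],[(k7,k96),(k0,k159),(k8,k164)],[(k6,k96),(k2,k148),(k1,k159)],[(k5,k96),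
    (k9,k96),(k10,k178)],[(k4,k96),(k3,k112),(k11,k178)],[(k7,k96),(k8,k124),(k0,k155)],[(k9,k124),(k5,k164),(k10,
    (nat_lit 206))],[(k6,k178),(k2,k190),(k1,(nat_lit 241))],[(k7,k178),(k8,(nat_lit 206)),(k0,(nat_lit 239))]]
    [] k0
    [[k1,k0,k1,k0,k0,k0],[k1,k0,k1,k0,k1,k0],[k0,k2,k0,k0,k0,k0],[k0,k1,k1,k1,k0,k0],[k0,k0,k1,k1,k0,k0],[k0,k0,k2,k2,
    k0,k0],[k0,k0,k1,k1,k1,k0],[k0,k0,k0,k1,k0,k1],[k0,k0,k0,k0,k2,k0],[k0,k0,k0,k0,k3,k0]]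
    [.contra [y1,z1,z1],.ref k1 k1 [(z1,[z1])],.contra [z1],.contra [y1,y1,z0,z1],.contra [y1,y1,z0,z1],
    .ref k14 k0 [(z2,[z1]),(z2,[y1,y2,z0,z2]),(z1,[z0,z0,y1])],.contra [y1,y1,z0,z1],.contra [y1,y1,y1,z1],
    .contra [z1],.ref k13 k3 [(z1,[z0,z1]),(z1,[z1]),(z1,[y1,y6,y3,z3])]]),
    .old (.lp [k76,k120,k104,k68,k120,(nat_lit 226)] [k75,k75,k53,k53,k61,k61,k79,k79,k53,k53,k0,k0] k0 [[],[k0,k0,k0,k0,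
    k0,k0,k0,k0,k0,k0,k8],[k0,k0,k0,k0,k0,k4],[],[k0,k0,k0,k4],[k0,k0,k0,k0,k0,k0,k4],[],[k0,k0,k0,k0,k4],[k0,k0,k0,
    k0,k0,k0,k0,k0,k0,k0,k0,k50],[],[k0,k0,k0,k0,k0,k0,k0,k0,k0,k50],[k8]] (nat_lit 360) k5
    [[(k3,k90),(k4,k90),(k11,(nat_lit 201))],[(k5,k90),(k9,k98),(k10,k159)],[(k1,k90),(k6,k94),(k2,k120)],[(k4,k108),
    (k3,k120),(k11,k173)],[(k0,k90),(k7,k90),(k8,k112)],[(k1,k90),(k6,k90),(k2,k108)],[(k5,k90),(k9,k90),(k10,k147)],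
    [(k4,k90),(k3,k94),(k11,k147)],[(k7,k90),(k0,k98),(k8,k120)],[(k5,k112),(k9,k120),(k10,k123)],[(k6,k147),(k2,
    k173),(k1,(nat_lit 201))],[(k8,k123),(k7,k147),(k0,k159)]]
    [] k0
    [[k1,k1,k1,k0,k0,k0],[k1,k0,k1,k0,k0,k0],[k1,k0,k1,k0,k1,k0],[k0,k2,k0,k0,k0,k0],[k0,k1,k1,k1,k0,k0],[k0,k0,k1,k1,
    k0,k0],[k0,k0,k1,k1,k1,k0],[k0,k0,k0,k1,k0,k1],[k0,k0,k0,k0,k2,k0]]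
    [.ref k15 k1 [(z1,[z0,z1]),(z1,[z1,y1])],.ref k11 k1 [(z1,[z1])],.ref k1 k1 [(z1,[z1])],.contra [z1],.contra [y1,
    y1,z1],.contra [y1,y1,z1],.contra [y1,y1,z1],.ref k11 k0 [(z1,[z1])],.contra [z1]]),
    .old (.lp [k2,k22,k22,k2,k24,k22] [k11,k11,k1,k1,k1,k1,k11,k11,k0,k0,k1,k1] k0 [[],[k0,k0,k0,k2],[k2],[k0,k0,k0,k0,k0,
    k0,k0,k0,k0,k2],[],[],[],[],[k0,k0,k2]] k48 k5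
    [[(k3,k12),(k4,k12),(k11,k12)],[(k10,k12),(k9,k13),(k5,k14)],[(k1,k12),(k6,k12),(k2,k20)],[(k3,k20),(k4,k22),(k11,
    k24)],[(k7,k12),(k0,k14),(k8,k21)],[(k1,k12),(k6,k12),(k2,k22)],[(k5,k12),(k10,k12),(k9,k13)],[(k3,k12),(k4,k12),
    (k11,k12)],[(k0,k13),(k7,k13),(k8,k24)],[(k5,k21),(k10,k23),(k9,k24)],[(k1,k12),(k6,k12),(k2,k24)],[(k0,k12),(k7,
    k12),(k8,k23)]]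
    [] k0
    [[k1,k0,k1,k0,k0,k0],[k1,k0,k1,k0,k1,k0],[k1,k0,k0,k0,k0,k1],[k0,k2,k0,k0,k0,k0],[k0,k1,k1,k1,k0,k0],[k0,k0,k1,k1,
    k0,k0],[k0,k0,k1,k1,k1,k0],[k0,k0,k0,k1,k0,k1]]
    [.contra [y1,z1],.ref k1 k1 [(z1,[z1])],.ref k16 k1 [(z1,[z1])],.contra [z1],.ref k0 k1 [(z1,[y1,z0,z1])],
    .ref k16 k0 [(z1,[z1])],.ref k0 k2 [(z1,[z1])],.contra [y1,y1,z1]]),
    .old (.lp [k16,k40,k52,k42,k40,k48] [k18,k18,k6,k6,k0,k0,k5,k5,k6,k6,k2,k2] k0 [[k0,k0,k0,k0,k0,k0,k0,k0,k0,k0,k0,k2],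
    [k0,k0,k0,k0,k0,k0,k0,k2],[k0,k0,k0,k0,k0,k16],[k0,k0,k0,k0,k0,k0,k0,k0,k0,k16],[k0,k0,k0,k16],[k0,k0,k0,k0,k0,k0,
    k10],[k2],[k0,k0,k0,k0,k10],[k0,k0,k16],[],[k0,k2]] k120 k5
    [[(k3,k30),(k11,k32),(k4,k34)],[(k9,k30),(k10,k30),(k5,k34)],[(k1,k30),(k6,k39),(k2,k40)],[(k4,k30),(k3,k40),(k11,
    k60)],[(k8,k30),(k0,k34),(k7,k63)],[(k2,k30),(k1,k34),(k6,k57)],[(k9,k31),(k10,k45),(k5,k63)],[(k3,k39),(k11,k45),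
    (k4,k57)],[(k0,k30),(k7,k31),(k8,k40)],[(k5,k30),(k9,k40),(k10,k44)],[(k1,k32),(k6,k45),(k2,k60)],[(k0,k30),(k8,
    k44),(k7,k45)]]
    [] k0
    [[k1,k1,k1,k0,k0,k0],[k1,k0,k1,k0,k0,k0],[k1,k0,k1,k0,k1,k0],[k1,k0,k0,k0,k0,k1],[k1,k0,k0,k0,k1,k1],[k0,k2,k0,k0,
    k0,k0],[k0,k0,k1,k1,k1,k0],[k0,k0,k0,k1,k0,k1],[k0,k0,k0,k0,k2,k0]]
    [.ref k17 k1 [(z1,[z1])],.ref k11 k1 [(z1,[z1])],.ref k1 k1 [(z1,[z1])],.ref k16 k1 [(z1,[z1])],.ref k0 k1 [(z1,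
    [z1])],.contra [z1],.ref k0 k2 [(z1,[z1])],.ref k11 k0 [(z1,[z1])],.contra [z1]])]⟩

/-- classes `0 0 0 0 0 0`, types `N0 N1 N3 N1 N3 N2` -/
noncomputable def cU6_49 : CertX :=
  ⟨[k12,k13,k15,k13,k15,k14],[(false,k0,[k0,k1,k2,k3,k4,k5]),(true,k0,[k0,k5,k4,k3,k2,k1])],[[[([z1,z1,z0,z0,z1,z1],
    z2),([z0,z0,z1,z0,y1,z0],z0)],[([z1,z0,z0,z0,z1,z1],z2),([z0,z1,z0,z0,z0,y1],z0),([z0,z0,z1,z0,y1,z1],z0)],[([z1,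
    z0,z0,z0,z1,z1],z2),([z0,z1,z1,z0,y1,z0],z0)],[([z1,z1,z0,z0,z1,z1],z2)],[([z2,z0,z0,z0,z2,z0],z3),([z0,z2,z0,z0,
    z0,z0],z1),([z0,z0,z2,z0,y2,z0],z1),([z0,z0,z0,z1,z1,z0],z1)],[([z3,z0,z0,z0,z3,z0],z4),([z0,z3,z0,z0,z0,z0],z2),
    ([z0,z0,z3,z0,y3,z0],z2),([z0,z0,z0,z1,z1,z0],z1)],[([z1,z0,z0,z0,z1,y1],z1),([z0,z1,z0,z0,z0,z1],z1),([z0,z0,z1,
    z0,y1,z1],z1)],[([z3,z0,z0,z0,z3,z0],z4),([z0,z3,z0,z0,z0,z0],z2),([z0,z0,z3,z0,y3,z0],z2),([z0,z0,z0,z3,z3,z0],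
    z2)],[([z3,z0,z0,z0,z3,z0],z4),([z0,z3,z0,z0,z0,z0],z2),([z0,z0,z3,z0,y3,z0],z2)],[([z1,z0,z0,y1,z0,y1],z0),([z0,
    z1,z0,z1,z1,z1],z2)],[([z1,z0,z0,z0,z1,z0],z2),([z0,z1,z0,z0,z0,y1],z0),([z0,z0,z1,z0,y1,z0],z0)],[([z1,z0,z0,z0,
    z1,z0],z2),([z0,z3,z0,z0,z0,z0],z1),([z0,z0,z1,z0,y1,z0],z0),([z0,z0,z0,z1,z1,z0],z1)]],[[([z1,z0,z0,z0,z1,z0],
    z2),([z0,z3,z0,z0,z0,z0],z2),([z0,z0,z1,z0,y1,z0],z0)],[([z1,z0,z0,z0,z1,z0],z2),([z0,z2,z0,z0,z0,z0],z1),([z0,z0,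
    z1,z0,y1,z0],z0)],[([z1,z0,z0,z0,z1,z0],z2),([z0,z1,z0,z1,z1,z1],z2)],[([z1,z0,z0,z0,z1,z0],z2)],[([z1,z0,z0,y1,
    z0,z0],z0),([z0,z1,z0,z1,z1,z0],z2)],[([z1,z0,z0,z0,z1,z1],z2),([z0,z1,z0,z0,z0,y1],z0)],[([z1,z0,z0,z0,z1,z1],
    z2)],[([z1,z0,z1,z0,z0,z1],z2)],[]]],
    [.old (.tor k3 false k5 [(z1,[y1,y1,z1]),(z1,[y1,z0,z1]),(z1,[z1]),(z1,[z1,z1])]),
    .old (.tor k35 false k0 [(z1,[z1]),(z1,[z0,z1]),(z1,[z0,z0,z1]),(z1,[y1,y1,y1,z1])]),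
    .old (.lp [k18,k20,k12,k28,k21,k20] [k8,k8,k7,k7,k11,k11,k0,k6,k4,k9,k7,k7] k0 [[],[k0,k0,k0,k0,k0,k0,k0,k0,k0,k0,k4],
    [k0,k0,k0,k0,k0,k0,k0,k0,k0,k8],[],[k0,k0,k0,k0,k0,k0,k0,k8],[],[k0,k0,k0,k0,k0,k8],[k0,k0,k0,k0,k0,k0,k0,k0,k3],
    [k0,k0,k0,k8],[k0,k0,k0,k0,k0,k0,k3],[],[k4]] k60 k5
    [[(k3,k15),(k4,k15),(k8,k22)],[(k5,k15),(k9,k17),(k10,k23)],[(k1,k15),(k2,k20),(k6,k27)],[(k8,k15),(k4,k16),(k3,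
    k20)],[(k0,k15),(k7,k17),(k11,k24)],[(k1,k15),(k6,k15),(k2,k16)],[(k5,k17),(k10,k21),(k9,k27)],[(k4,k15),(k3,k27),
    (k8,k33)],[(k11,k15),(k0,k17),(k7,k27)],[(k2,k15),(k1,k22),(k6,k33)],[(k9,k15),(k10,k20),(k5,k24)],[(k11,k20),(k7,
    k21),(k0,k23)]]
    [] k0
    [[k1,k1,k1,k0,k0,k0],[k1,k1,k0,k0,k1,k0],[k1,k0,k1,k0,k0,k0],[k1,k0,k0,k0,k1,k0],[k0,k2,k0,k0,k0,k0],[k0,k0,k1,k1,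
    k0,k0],[k0,k0,k0,k0,k0,k2]]
    [.contra [y1,z1,z1],.ref k1 k0 [(z1,[z0,z1]),(z1,[z1,y1]),(z1,[y1,z1,z1])],.contra [y1,z1,z1],.contra [y1,z1],
    .contra [z1],.contra [y1,y1,z0,z1],.contra [z1]]),
    .old (.lp [k102,k80,k116,k76,k42,k60] [k7,k7,k18,k18,k0,k0,k22,k18,k37,k37,k28,k28] k0 [[],[],[k0,k0,k0,k0,k0,k50],
    [k0,k0,k0,k0,k0,k0,k0,k0,k40],[k0,k0,k0,k50,k0,k0,k0,k2],[k0,k0,k0,k0,k0,k0,k0,k0,k0,k0,k0,k22],[k0,k0,k0,k0,k0,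
    k2],[],[k0,k0,k0,k0,k0,k0,k0,k0,k0,k0,k24],[k0,k0,k40],[k0,k0,k0,k0,k22],[k0,k0,k0,k0,k0,k0,k0,k0,k0,
    k24]] (nat_lit 240) k6
    [[(k8,k48),(k3,k91),(k4,k131)],[(k9,k72),(k10,k81),(k5,k109)],[(k6,k76),(k2,k80),(k1,k91)],[(k4,k48),(k3,k80),(k8,
    k101)],[(k11,k48),(k0,k109),(k7,k148)],[(k2,k48),(k6,k92),(k1,k131)],[(k10,k48),(k9,k63),(k5,k148)],[(k8,k57),(k3,
    k76),(k4,k92)],[(k11,k51),(k7,k63),(k0,k72)],[(k1,k48),(k6,k57),(k2,k101)],[(k5,k48),(k9,k51),(k10,k84)],[(k7,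
    k48),(k0,k81),(k11,k84)]]
    [] k0
    [[k1,k0,k0,k0,k1,k0],[k1,k0,k0,k0,k1,k1],[k0,k2,k0,k0,k0,k0],[k0,k1,k1,k1,k0,k1],[k0,k0,k1,k1,k0,k1],[k0,k0,k0,k1,
    k1,k0],[k0,k0,k0,k1,k1,k1],[k0,k0,k0,k0,k0,k2]]
    [.contra [y1,z1],.contra [y1,z1],.contra [z1],.contra [z1,z1,y1],.contra [z1,z1,y1],.ref k0 k0 [(z1,[z0,z1]),(z1,
    [y1,y1,z1])],.ref k2 k1 [(z1,[y1,z0,z1]),(z1,[z1,z1,y1])],.contra [z1]]),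
    .geo false z2 k4 [(z3,y2),(z1,z0),(z1,z2),(z2,y2),(z0,z2),(z1,z0)] [(z1,[z1]),(z1,[z0,z1]),(z1,[z0,z0,z1]),(z1,[z0,z0,
    z0,z2]),(z1,[]),(z1,[y1,y1,y1,y2,
    z2])] z0 (Int.ofNat (nat_lit 2097152)) (.s (.s (.l k1) (.s (.l k1) (.s (.l k1) (.l k2)))) (.s (.s (.s (.l k2) (.l k1)) (.l k1)) (.l k1))) [⟨z1,
    z1,[[k0,k3],[k1,k5],[k2,k4]],.sub k2 k2 [[k2,k3]]⟩],
    .geo false z3 k4 [(z4,y3),(z2,z0),(z2,z3),(z3,y3),(z0,z3),(z1,z0)] [(z1,[z1]),(z1,[z0,z1]),(z1,[z0,z0,z1]),(z1,[z0,z0,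
    z0,z3]),(z1,[]),(z1,[y1,y1,y1,y3,
    z3])] z0 (Int.ofNat (nat_lit 2097152)) (.s (.s (.l k1) (.s (.l k1) (.l k1))) (.s (.s (.l k1) (.l k1)) (.l k1))) [],
    .old (.lp [k94,k80,k146,k58,k62,k38] [k40,k12,k33,k33,k0,k0,k44,k44,k42,k42,k54,k54] k0 [[k0,k0,k0,k0,k0,k0,k0,k0,k0,
    k0,k0,k2],[],[k0,k0,k0,k0,k0,k36],[k0,k0,k0,k0,k0,k0,k0,k0,k2],[k0,k0,k0,k36],[],[],[],[k0,k0,k0,k0,k0,k0,k0,k0,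
    k0,k0,k44],[k0,k0,k2],[k0,k2],[k0,k0,k0,k0,k0,k0,k0,k0,k0,k44]] (nat_lit 240) k6
    [[(k8,k48),(k3,k103),(k4,k134)],[(k10,k50),(k9,k64),(k5,k106)],[(k6,k69),(k2,k80),(k1,k103)],[(k8,k73),(k4,k77),
    (k3,k80)],[(k11,k90),(k0,k106),(k7,k138)],[(k2,k77),(k6,k102),(k1,k134)],[(k10,k48),(k9,k60),(k5,k138)],[(k8,k60),
    (k3,k69),(k4,k102)],[(k11,k50),(k7,k60),(k0,k64)],[(k1,k48),(k6,k60),(k2,k73)],[(k9,k50),(k10,k82),(k5,k90)],[(k7,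
    k48),(k0,k50),(k11,k82)]]
    [] k0
    [[k1,k0,k0,k0,k1,k0],[k2,k0,k0,k0,k2,k0],[k1,k0,k0,k1,k2,k0],[k1,k0,k0,k0,k1,k1],[k1,k0,k0,k0,k1,k2],[k0,k2,k0,k0,
    k0,k0],[k0,k1,k0,k1,k1,k0],[k0,k0,k0,k1,k1,k0],[k0,k0,k0,k1,k1,k1],[k0,k0,k0,k0,k0,k2]]
    [.contra [z1,y1],.contra [y1,z2,z2],.contra [y1,z0,z0,y1,z1],.ref k4 k0 [(z1,[z1,z1]),(z1,[y1,z1,z2]),(z1,[y1,z1,
    z0,z2]),(z1,[z0,y1,y1,y1,z1])],.ref k5 k0 [(z1,[z1,z2]),(z1,[y1,z1,z3]),(z1,[y1,z1,z0,z3]),(z1,[z0,y1,y1,y1,z1])],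
    .contra [z1],.contra [z1,z1,z1,z1,y1],.contra [y2,y1,y2,y1,z2],.contra [z1,z1,z1,z1,y1],.contra [z1]]),
    .geo false z3 k4 [(z4,y3),(z2,z0),(z2,z3),(z2,y3),(z0,z3),(z2,z0)] [(z1,[z1]),(z1,[z0,z1]),(z1,[z0,z0,z1]),(z1,[z0,z0,
    z0,z1]),(z1,[]),(z1,[y1,y1,y1,y1,
    z3])] z0 (Int.ofNat (nat_lit 2097152)) (.s (.s (.l k1) (.l k1)) (.s (.l k1) (.l k1))) [],
    .old (.lp [k42,k40,k78,k18,k30,k30] [k18,k18,k19,k19,k0,k0,k30,k30,k24,k24,k24,k24] k0 [[k0,k0,k0,k0,k0,k0,k0,k0,k0,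
    k0,k0,k6],[],[k0,k0,k0,k0,k0,k24],[k0,k0,k0,k0,k0,k0,k0,k0,k2],[k0,k0,k0,k24],[],[],[],[k0,k0,k0,k0,k0,k0,k0,k0,
    k0,k0,k12],[k0,k0,k2],[k0,k6],[k0,k0,k0,k0,k0,k0,k0,k0,k0,k12]] k120 k6
    [[(k8,k24),(k3,k47),(k4,k60)],[(k10,k30),(k9,k36),(k5,k60)],[(k6,k29),(k2,k40),(k1,k47)],[(k4,k35),(k8,k37),(k3,
    k40)],[(k11,k52),(k0,k60),(k7,k72)],[(k2,k35),(k6,k48),(k1,k60)],[(k9,k24),(k10,k24),(k5,k72)],[(k8,k24),(k3,k29),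
    (k4,k48)],[(k7,k24),(k11,k30),(k0,k36)],[(k1,k24),(k6,k24),(k2,k37)],[(k9,k30),(k10,k42),(k5,k52)],[(k7,k24),(k0,
    k30),(k11,k42)]]
    [] k0
    [[k1,k0,k0,k0,k1,k0],[k1,k0,k0,k1,k2,k0],[k1,k0,k0,k0,k1,k1],[k0,k2,k0,k0,k0,k0],[k0,k1,k0,k1,k1,k0],[k0,k0,k0,k1,
    k1,k0],[k0,k0,k0,k2,k2,k0],[k0,k0,k0,k1,k1,k1],[k0,k0,k0,k0,k0,k2]]
    [.contra [z3,y1,z2],.ref k7 k0 [(z1,[z0,z1]),(z1,[z0,z0,z1]),(z1,[z0,z0,z0,z1]),(z1,[z3,y1])],.ref k7 k0 [(z1,[z0,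
    z1]),(z1,[z0,z0,z1]),(z1,[z0,z0,z0,z1]),(z1,[y3,z0,y1,y1,z3])],.contra [z1],.contra [y3,y1,z0,y1,z3],.contra [y3,
    y1,z0,y1,z3],.ref k6 k0 [(z6,[z3,z4,z2,z2,y6]),(z6,[y3,y2,z0,y2,z6]),(z6,[y3,y2,y2,z0,z6])],.contra [z3,z1,z3,z1,
    y3],.contra [z1]]),
    .old (.lp [k188,k120,(nat_lit 292),k71,k128,k160] [k56,k56,k90,k90,k0,k8,k114,k115,k86,k86,k70,k70] k0 [[],[],[k0,k0,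
    k0,k0,k0,k114],[k0,k0,k0,k0,k0,k0,k0,k0,k44],[k0,k0,k0,k114],[k0,k0,k0,k0,k0,k0,k3],[k0,k0,k0,k0,k0,k0,k0,k0,k0,
    k4],[k0,k0,k0,k0,k3],[k0,k0,k0,k0,k0,k0,k0,k4],[k0,k0,k44]] (nat_lit 480) k6
    [[(k3,k154),(k8,k158),(k4,(nat_lit 244))],[(k9,k158),(k10,k174),(k5,(nat_lit 236))],[(k6,k96),(k2,k120),(k1,
    k154)],[(k4,k96),(k3,k120),(k8,k168)],[(k11,k178),(k0,(nat_lit 236)),(k7,(nat_lit 291))],[(k2,k96),(k6,k189),(k1,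
    (nat_lit 244))],[(k9,k96),(k10,k115),(k5,(nat_lit 291))],[(k3,k96),(k8,k96),(k4,k189)],[(k7,k96),(k11,k148),(k0,
    k158)],[(k6,k96),(k1,k158),(k2,k168)],[(k9,k148),(k10,k160),(k5,k178)],[(k7,k115),(k11,k160),(k0,k174)]]
    [] k0
    [[k1,k0,k0,k0,k1,k0],[k0,k2,k0,k0,k0,k0],[k0,k3,k0,k0,k0,k0],[k0,k1,k0,k1,k1,k0],[k0,k0,k0,k1,k1,k0],[k0,k0,k0,k2,
    k2,k0],[k0,k0,k0,k1,k1,k1],[k0,k0,k0,k0,k0,k2]]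
    [.contra [y1,z1,z1],.contra [z1],.ref k8 k0 [(z1,[y1,z3,z3]),(z1,[z1]),(z1,[z1,y3,y6,z3])],.contra [y1,z0,z1],
    .contra [y1,z0,z1],.ref k6 k0 [(z2,[z1,z2]),(z2,[y1,z0,z2]),(z2,[y1,y2,y2,z2])],.contra [y1,z0,z1],.contra [z1]]),
    .old (.tor k24 false k0 [(z1,[y1,y1,y1,z1]),(z1,[y1,z1,z0,z1]),(z1,[z1]),(z1,[z1,z0,z1])]),
    .geo false z3 k4 [(z6,y3),(z1,z0),(z0,z3),(z3,y3),(z0,z3),(z2,z0)] [(z1,[z3]),(z1,[z0,z1]),(z1,[z0,z0,z3]),(z1,[z0,z0,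
    z0,z3]),(z1,[]),(z1,[y3,y1,y3,y3,
    z3])] z0 (Int.ofNat (nat_lit 2097152)) (.s (.s (.s (.s (.l k2) (.l k1)) (.l k1)) (.l k1)) (.s (.l k1) (.s (.l k1) (.s (.l k1) (.l k3))))) [⟨z0,
    z1,[[k0,k5],[k1,k2],[k3,k4]],.sub k1 k2 [[k1,k2]]⟩,⟨z2,z1,[[k0,k5],[k1,k2],[k3,k4]],.sub k1 k2 [[k1,k2]]⟩],
    .old (.lp [(nat_lit 354),k160,k128,k64,k128,k124] [k0,k0,k97,k97,k113,k113,k145,k145,k113,k113,k115,k115] k0 [[k0,k0,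
    k0,k0,k0,k0,k2],[],[],[],[k0,k0,k0,k0,k0,k0,k0,k0,k0,k0,k2],[],[],[k0,k2],[],[],[],[k0,k0,k0,k0,k0,
    k2]] (nat_lit 480) k6
    [[(k4,(nat_lit 239)),(k8,(nat_lit 241)),(k3,(nat_lit 257))],[(k9,(nat_lit 239)),(k10,(nat_lit 239)),(k5,
    (nat_lit 241))],[(k6,k114),(k2,k160),(k1,(nat_lit 257))],[(k4,k144),(k8,k144),(k3,k160)],[(k7,k96),(k11,k126),(k0,
    (nat_lit 241))],[(k6,k96),(k2,k144),(k1,(nat_lit 239))],[(k5,k96),(k9,k96),(k10,k96)],[(k4,k96),(k8,k96),(k3,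
    k114)],[(k7,k96),(k11,k126),(k0,(nat_lit 239))],[(k6,k96),(k2,k144),(k1,(nat_lit 241))],[(k10,k124),(k5,k126),(k9,
    k126)],[(k7,k96),(k11,k124),(k0,(nat_lit 239))]]
    [] k0
    [[k0,k2,k0,k0,k0,k0],[k0,k1,k1,k1,k0,k0],[k0,k1,k0,k1,k1,k0],[k0,k0,k1,k1,k0,k0],[k0,k0,k2,k2,k0,k0],[k0,k0,k1,k2,
    k1,k0],[k0,k0,k1,k1,k0,k1],[k0,k0,k1,k1,k0,k2],[k0,k0,k0,k1,k1,k0],[k0,k0,k0,k2,k2,k0],[k0,k0,k0,k1,k1,k1],[k0,k0,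
    k0,k1,k1,k2],[k0,k0,k0,k0,k0,k2],[k0,k0,k0,k0,k0,k3]]
    [.contra [z1],.contra [y1,y1,z0,z0,z1],.contra [y1,y1,z0,y1,z1],.contra [y1,y1,z0,z0,z1],.ref k11 k1 [(z1,[z0,z1,
    z0,z1]),(z2,[y3,y6,y2,z0,z6]),(z1,[z0,z0,z0,y1]),(z2,[z1])],.ref k11 k1 [(z1,[z0,z1,z0,z1]),(z2,[y3,y6,y2,y3,z6]),
    (z1,[z0,z0,z0,y1]),(z2,[z1,z0,z0,z1])],.contra [z1,z1,z1,z0,y1],.ref k10 k0 [(z1,[z0,z1]),(z1,[y1,y1,z0,z0,z1]),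
    (z1,[z0,z0,z0,z1])],.contra [y1,y1,z0,y1,z1],.ref k11 k1 [(z1,[z0,z1,z0,z1]),(z2,[y3,y6,y2,y6,z6]),(z1,[z0,z0,z0,
    y1]),(z2,[z1,z0,z0,z2])],.contra [z1,z1,z1,z1,y1],.ref k10 k0 [(z1,[z0,z1]),(z1,[y1,y1,z0,y1,z1]),(z1,[z0,z0,z0,
    z1])],.contra [z1],.ref k10 k0 [(z1,[z0,z1]),(z3,[y1,z0,z1]),(z1,[z0,z0,z0,z1])]]),
    .old (.lp [k160,k62,k82,k34,k80,k60] [k0,k0,k49,k49,k39,k39,k63,k63,k40,k40,k50,k50] k0 [[],[],[],[],[k0,k0,k0,k0,k0,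
    k0,k0,k0,k0,k0,k2],[k0,k0,k0,k0,k0,k0,k4],[k0,k0,k0,k0,k0,k0,k0,k0,k0,k2],[k0,k0,k0,k0,k4],[k0,k0,k0,k0,k0,k0,k0,
    k2],[],[],[k0,k0,k0,k0,k0,k2]] (nat_lit 240) k6
    [[(k3,k111),(k4,k119),(k8,k120)],[(k10,k110),(k9,k120),(k5,k121)],[(k6,k48),(k2,k62),(k1,k111)],[(k3,k62),(k8,
    k71),(k4,k72)],[(k7,k58),(k11,k71),(k0,k121)],[(k6,k62),(k2,k72),(k1,k119)],[(k10,k49),(k9,k53),(k5,k58)],[(k3,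
    k48),(k8,k55),(k4,k62)],[(k7,k53),(k11,k72),(k0,k120)],[(k6,k55),(k2,k71),(k1,k120)],[(k10,k60),(k5,k71),(k9,
    k72)],[(k7,k49),(k11,k60),(k0,k110)]]
    [] k0
    [[k0,k2,k0,k0,k0,k0],[k0,k3,k0,k0,k0,k0],[k0,k2,k0,k1,k1,k0],[k0,k1,k1,k1,k0,k0],[k0,k1,k0,k1,k1,k0],[k0,k0,k1,k1,
    k0,k0],[k0,k0,k1,k2,k1,k0],[k0,k0,k1,k1,k0,k1],[k0,k0,k0,k1,k1,k0],[k0,k0,k0,k2,k2,k0],[k0,k0,k0,k1,k1,k1],[k0,k0,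
    k0,k1,k1,k2],[k0,k0,k0,k0,k0,k2],[k0,k0,k0,k0,k0,k3]]
    [.contra [z1],.contra [z1,z0,y1],.ref k10 k0 [(z1,[z0,z1]),(z1,[z1,z1,z0,z1,y1]),(z1,[z0,z0,z0,z1])],.contra [y1,
    y1,z0,z0,z1],.contra [y1,y1,z0,y1,z1],.contra [y1,y1,z0,z0,z1],.ref k10 k0 [(z1,[z0,z1]),(z2,[z1,z2,z2,z1,y2]),
    (z1,[z0,z0,z0,z1])],.contra [z1,z1,z1,z0,y1],.contra [y1,y1,z0,y1,z1],.ref k10 k0 [(z1,[z0,z1]),(z2,[z1,z2,z2,z2,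
    y2]),(z1,[z0,z0,z0,z1])],.contra [z1,z1,z1,z1,y1],.ref k10 k0 [(z1,[z0,z1]),(z1,[y1,y1,z0,y1,z1]),(z1,[z0,z0,z0,
    z1])],.contra [z1],.ref k12 k1 [(z1,[z0,z1,z0,z1]),(z1,[z1]),(z1,[z0,z0,z0,y1])]]),
    .old (.lp [k80,k26,k42,k18,k42,k30] [k0,k0,k27,k27,k19,k19,k31,k31,k19,k19,k25,k25] k0 [[k0,k0,k0,k0,k0,k0,k2],[],[],
    [],[k0,k0,k0,k0,k0,k0,k0,k0,k0,k0,k2],[],[],[k0,k2],[],[],[],[k0,k0,k0,k0,k0,k2]] k120 k6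
    [[(k3,k53),(k4,k59),(k8,k61)],[(k10,k55),(k9,k59),(k5,k61)],[(k6,k24),(k2,k26),(k1,k53)],[(k3,k26),(k4,k34),(k8,
    k34)],[(k7,k30),(k11,k36),(k0,k61)],[(k6,k30),(k2,k34),(k1,k59)],[(k10,k26),(k5,k30),(k9,k30)],[(k3,k24),(k4,k30),
    (k8,k30)],[(k7,k30),(k11,k36),(k0,k59)],[(k6,k30),(k2,k34),(k1,k61)],[(k10,k30),(k5,k36),(k9,k36)],[(k7,k26),(k11,
    k30),(k0,k55)]]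
    [] k0
    [[k0,k2,k0,k0,k0,k0],[k0,k3,k0,k0,k0,k0],[k0,k4,k0,k0,k0,k0],[k0,k2,k1,k1,k0,k0],[k0,k2,k0,k1,k1,k0],[k0,k1,k1,k1,
    k0,k0],[k0,k1,k0,k1,k1,k0],[k0,k0,k1,k1,k0,k0],[k0,k0,k1,k1,k0,k1],[k0,k0,k0,k1,k1,k0],[k0,k0,k0,k1,k1,k1],[k0,k0,
    k0,k0,k0,k2],[k0,k0,k0,k0,k0,k3]]
    [.contra [z1],.ref k12 k0 [(z1,[z0,z1]),(z1,[z1]),(z1,[z0,y1,y1,z1])],.ref k13 k0 [(z1,[z0,z1]),(z2,[z1]),(z1,[z0,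
    y1,y1,z1])],.ref k10 k0 [(z1,[z0,z1]),(z1,[z1,z1,z0,y1]),(z1,[z0,y1,y1,z1])],.ref k10 k0 [(z1,[z0,z1]),(z1,[z1,z0,
    y1]),(z1,[z0,y1,y1,z1])],.contra [y1,y1,z0,z1],.contra [y1,z0,z1],.contra [y1,y1,z0,z1],.contra [y1,y1,z0,z1],
    .contra [y1,z0,z1],.contra [y1,z0,z1],.contra [z1],.ref k12 k1 [(z1,[z0,z0,y1,z1]),(z1,[z1]),(z1,[z0,z1,z1,y1])]]),
    .old (.lp [(nat_lit 11700),(nat_lit 5148),(nat_lit 1716),(nat_lit 6006),(nat_lit 3432),(nat_lit 5720)] [k0,k0,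
    (nat_lit 3276),(nat_lit 3276),(nat_lit 4992),(nat_lit 4992),(nat_lit 2847),(nat_lit 2847),(nat_lit 4134),
    (nat_lit 4134),(nat_lit 2990),(nat_lit 2990)] k0 [[k0,k0,(nat_lit 1320)],[k0,k0,k0,k0,k0,k0,k0,(nat_lit 2145)],
    [k0,k0,k0,k0,k0,k0,k0,k0,k0,(nat_lit 715)],[k0,(nat_lit 1320)],[k0,k0,k0,k0,k0,k0,k0,k0,k0,k0,(nat_lit 2340)],[k0,
    k0,k0,k0,k0,k0,(nat_lit 858)],[(nat_lit 2145)],[k0,k0,k0,k0,(nat_lit 858)],[k0,k0,k0,(nat_lit 715)],[],[],[k0,k0,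
    k0,k0,k0,(nat_lit 2340)]] (nat_lit 17160) k6
    [[(k4,(nat_lit 4368)),(k8,(nat_lit 7566)),(k3,(nat_lit 8424))],[(k5,(nat_lit 5388)),(k10,(nat_lit 8710)),(k9,
    (nat_lit 9711))],[(k6,(nat_lit 3432)),(k2,(nat_lit 6468)),(k1,(nat_lit 8424))],[(k4,(nat_lit 3432)),(k8,
    (nat_lit 3575)),(k3,(nat_lit 6468))],[(k7,(nat_lit 3861)),(k11,(nat_lit 4433)),(k0,(nat_lit 5388))],[(k2,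
    (nat_lit 3432)),(k1,(nat_lit 4368)),(k6,(nat_lit 4719))],[(k5,(nat_lit 3861)),(k9,(nat_lit 3861)),(k10,
    (nat_lit 8203))],[(k3,(nat_lit 3432)),(k4,(nat_lit 4719)),(k8,(nat_lit 4719))],[(k7,(nat_lit 3861)),(k11,
    (nat_lit 4576)),(k0,(nat_lit 9711))],[(k2,(nat_lit 3575)),(k6,(nat_lit 4719)),(k1,(nat_lit 7566))],[(k5,
    (nat_lit 4433)),(k9,(nat_lit 4576)),(k10,(nat_lit 5720))],[(k11,(nat_lit 5720)),(k7,(nat_lit 8203)),(k0,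
    (nat_lit 8710))]]
    [] k0
    [[k1,k0,k1,k0,k0,k0],[k0,k2,k0,k0,k0,k0],[k0,k1,k1,k1,k0,k0],[k0,k1,k0,k1,k1,k0],[k0,k0,k1,k1,k0,k0],[k0,k0,k0,k1,
    k1,k0],[k0,k0,k0,k0,k0,k2]]
    [.ref k14 k0 [(z1,[z0,z1]),(z1,[y1,z0,z1])],.contra [z1],.contra [y1,y1,z1],.ref k9 k1 [(z1,[y1,z1]),(z1,[z0,y1,
    z1])],.contra [y1,y1,z1],.ref k3 k1 [(z1,[y1,z0,z1])],.contra [z1]]),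
    .old (.tor k2 false k2 [(z1,[y1,y1,z1]),(z1,[z0,y1,z1]),(z1,[z0,z1]),(z1,[z1,z1])]),
    .old (.lp [k6,k10,k8,k6,k8,k8] [k3,k1,k0,k0,k1,k1,k1,k3,k1,k1,k1,k1] k0 [[],[],[],[],[k0,k0,k0,k0,k0,k0,k0,k0,k0,k0,
    k2],[],[k0,k0,k0,k0,k0,k0,k0,k0,k0,k2],[],[k0,k0,k0,k0,k0,k0,k0,k2],[],[],[k0,k0,k0,k0,k0,k2]] k24 k5
    [[(k4,k6),(k8,k8),(k3,k9)],[(k5,k6),(k9,k6),(k10,k6)],[(k1,k9),(k6,k9),(k2,k10)],[(k4,k9),(k8,k9),(k3,k10)],[(k0,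
    k6),(k7,k6),(k11,k8)],[(k1,k6),(k6,k8),(k2,k9)],[(k5,k6),(k9,k6),(k10,k8)],[(k8,k6),(k4,k8),(k3,k9)],[(k0,k6),(k7,
    k6),(k11,k10)],[(k6,k6),(k1,k8),(k2,k9)],[(k5,k8),(k10,k8),(k9,k10)],[(k0,k6),(k7,k8),(k11,k8)]]
    [] k0
    [[k1,k0,k1,k0,k0,k0],[k1,k0,k1,k0,k0,k1],[k1,k0,k0,k0,k1,k0],[k0,k2,k0,k0,k0,k0],[k0,k0,k1,k1,k0,k0],[k0,k0,k0,k1,
    k1,k0],[k0,k0,k0,k0,k0,k2]]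
    [.ref k15 k1 [(z1,[z1])],.ref k16 k0 [(z1,[z1,z1,z1,y1]),(z1,[y1,z0,z0,z1])],.contra [y1,z1,z1],.contra [z1],
    .contra [y1,y1,z0,z1],.ref k3 k1 [(z1,[y1,z0,z0,z1])],.contra [z1,z0,z2]]),
    .old (.lp [k5,k8,k10,k4,k9,k10] [k2,k3,k1,k1,k0,k0,k3,k3,k1,k0,k0,k0] k0 [[k0,k0,k0,k0,k0,k0,k2],[],[],[k0,k0,k0,k0,
    k1],[k0,k0,k0,k0,k0,k0,k0,k1,k0,k0,k1],[k0,k0,k1],[k0,k0,k0,k0,k0,k1],[k0,k2],[],[],[],[k0,k0,k0,k0,k0,k1]] k24 k5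
    [[(k3,k6),(k4,k6),(k8,k6)],[(k9,k6),(k5,k8),(k10,k8)],[(k1,k6),(k2,k8),(k6,k8)],[(k3,k8),(k8,k8),(k4,k10)],[(k7,
    k6),(k0,k8),(k11,k10)],[(k1,k6),(k6,k6),(k2,k10)],[(k5,k6),(k9,k8),(k10,k8)],[(k4,k6),(k8,k6),(k3,k8)],[(k0,k6),
    (k7,k8),(k11,k10)],[(k1,k6),(k6,k6),(k2,k8)],[(k5,k10),(k9,k10),(k10,k10)],[(k0,k8),(k7,k8),(k11,k10)]]
    [] k0
    [[k1,k1,k0,k0,k1,k0],[k1,k0,k1,k0,k0,k0],[k1,k0,k0,k0,k1,k0],[k0,k2,k0,k0,k0,k0],[k0,k0,k1,k1,k0,k0],[k0,k0,k0,k1,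
    k1,k0],[k0,k0,k0,k0,k0,k2]]
    [.ref k17 k0 [(z1,[z0,z1]),(z1,[z1,y1])],.ref k15 k1 [(z1,[z1])],.contra [y1,z1],.contra [z1],.contra [y1,y1,z1],
    .ref k3 k1 [(z1,[y1,z0,z1])],.contra [z1]]),
    .old (.lp [k5,k8,k10,k4,k9,k10] [k2,k3,k1,k1,k0,k0,k3,k3,k1,k0,k0,k0] k0 [[k0,k0,k0,k0,k0,k0,k2],[],[],[k0,k0,k0,k0,
    k1],[k0,k0,k0,k0,k0,k0,k0,k1,k0,k0,k1],[k0,k0,k1],[k0,k0,k0,k0,k0,k1],[k0,k2],[],[],[],[k0,k0,k0,k0,k0,k1]] k24 k5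
    [[(k3,k6),(k4,k6),(k8,k6)],[(k9,k6),(k5,k8),(k10,k8)],[(k1,k6),(k2,k8),(k6,k8)],[(k3,k8),(k8,k8),(k4,k10)],[(k7,
    k6),(k0,k8),(k11,k10)],[(k1,k6),(k6,k6),(k2,k10)],[(k5,k6),(k9,k8),(k10,k8)],[(k4,k6),(k8,k6),(k3,k8)],[(k0,k6),
    (k7,k8),(k11,k10)],[(k1,k6),(k6,k6),(k2,k8)],[(k5,k10),(k9,k10),(k10,k10)],[(k0,k8),(k7,k8),(k11,k10)]]
    [] k0
    [[k1,k1,k0,k0,k1,k0],[k1,k0,k1,k0,k0,k0],[k1,k0,k0,k0,k1,k0],[k0,k2,k0,k0,k0,k0],[k0,k0,k1,k1,k0,k0],[k0,k0,k0,k1,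
    k1,k0],[k0,k0,k0,k0,k0,k2]]
    [.ref k16 k0 [(z1,[z1,z1,y1]),(z1,[z0,y1,z1])],.contra [y1,z1],.ref k15 k0 [(z1,[z1])],.contra [z1],
    .ref k3 k0 [(z1,[y1,z0,z1])],.contra [y1,y1,z1],.contra [z1]]),
    .old (.lp [k18,k20,k26,k23,k12,k20] [k4,k4,k3,k3,k0,k0,k2,k1,k7,k7,k3,k3] k0 [[k0,k0,k0,k0,k0,k0,k0,k0,k0,k0,k0,k4],
    [],[k0,k0,k0,k0,k0,k8],[k0,k0,k0,k0,k0,k0,k0,k0,k8],[k0,k0,k0,k8,k0,k0,k0,k0,k0,k0,k5],[k0,k0,k0,k0,k0,k0,k3],[],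
    [k0,k0,k0,k0,k3],[],[k0,k0,k8],[k0,k4],[k0,k0,k0,k0,k0,k5]] k60 k5
    [[(k8,k15),(k4,k17),(k3,k23)],[(k9,k15),(k10,k15),(k5,k22)],[(k2,k20),(k6,k21),(k1,k23)],[(k4,k15),(k3,k20),(k8,
    k24)],[(k11,k15),(k0,k22),(k7,k33)],[(k2,k15),(k1,k17),(k6,k27)],[(k9,k15),(k10,k27),(k5,k33)],[(k8,k17),(k3,k21),
    (k4,k27)],[(k0,k15),(k7,k15),(k11,k16)],[(k1,k15),(k6,k17),(k2,k24)],[(k5,k15),(k9,k16),(k10,k20)],[(k0,k15),(k11,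
    k20),(k7,k27)]]
    [] k0
    [[k1,k0,k1,k0,k0,k0],[k1,k0,k1,k0,k0,k1],[k1,k0,k0,k0,k1,k0],[k1,k0,k0,k0,k1,k1],[k0,k2,k0,k0,k0,k0],[k0,k0,k0,k1,
    k1,k0],[k0,k0,k0,k0,k0,k2]]
    [.ref k15 k1 [(z1,[z1])],.ref k19 k0 [(z1,[z1])],.ref k15 k0 [(z1,[z1])],.ref k18 k0 [(z1,[z1])],.contra [z1],
    .ref k3 k1 [(z1,[y1,z1])],.contra [z1]])]⟩

/-- classes `0 0 0 0 0 0`, types `N0 N2 N0 N2 N0 N2` -/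
noncomputable def cU6_50 : CertX :=
  ⟨[k12,k14,k12,k14,k12,k14],[(false,k0,[k0,k1,k2,k3,k4,k5]),(true,k1,[k1,k0,k5,k4,k3,k2]),(false,k1,[k1,k2,k3,k4,k5,
    k0]),(true,k0,[k0,k5,k4,k3,k2,k1]),(true,k5,[k5,k4,k3,k2,k1,k0]),(false,k5,[k5,k0,k1,k2,k3,k4]),(false,k3,[k3,k4,
    k5,k0,k1,k2]),(false,k2,[k2,k3,k4,k5,k0,k1]),(false,k4,[k4,k5,k0,k1,k2,k3])],[[[([z1,z0,z0,z0,z0,z1],z2),([z0,z1,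
    z0,z0,z0,y1],z0)],[([z1,z0,z0,z1,z0,z0],z1),([z0,z1,z0,z0,z1,z0],z2)],[([z1,z0,z0,z0,y1,z0],z0),([z0,z1,z0,z0,z1,
    z0],z2)],[([z1,z0,z0,z0,z0,z1],z2)],[([z1,z0,z0,z1,z0,z0],z2)],[]]],
    [.old (.tor k3 false k2 [(z1,[z1,z1]),(z1,[z1]),(z1,[y1,z0,z1]),(z1,[y1,y1,z1])]),
    .old (.leafM k7 [k0,k2,k3,k5] [(z1,[y1,y1,z1])] [(k1,k4,z1,[z0,z1]),(k4,k1,z1,[z0,z1])]),
    .old (.lp [k2,k20,k0,k10,k2,k12] [k8,k10,k0,k0,k10,k10,k5,k5,k9,k9,k4,k4] k0 [[k0,k0,k0,k0,k0,k0,k0,k2],[k0,k0,k2],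
    [k0,k0,k0,k0,k0,k4],[k2],[k0,k0,k0,k4],[],[k0,k2],[k0,k0,k0,k0,k0,k0,k0,k0,k2],[],[k0,k0,k0,k0,k0,k0,k2]] k24 k6
    [[(k7,k5),(k11,k6),(k3,k10)],[(k6,k5),(k10,k8),(k2,k14)],[(k5,k8),(k1,k10),(k9,k13)],[(k4,k6),(k8,k11),(k0,k14)],
    [(k11,k6),(k3,k8),(k7,k9)],[(k6,k5),(k2,k6),(k10,k6)],[(k1,k5),(k9,k6),(k5,k9)],[(k0,k5),(k4,k5),(k8,k8)],[(k11,
    k5),(k7,k6),(k3,k13)],[(k10,k7),(k6,k8),(k2,k11)],[(k9,k5),(k1,k6),(k5,k6)],[(k4,k6),(k8,k7),(k0,k8)]]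
    [] k0
    [[k1,k0,k0,k1,k0,k0],[k2,k0,k0,k2,k0,k0],[k1,k0,k0,k0,k0,k1],[k0,k1,k1,k0,k0,k0],[k0,k0,k1,k1,k0,k0],[k0,k0,k1,k0,
    k0,k1],[k0,k0,k0,k1,k1,k0],[k0,k0,k0,k0,k1,k1]]
    [.contra [y1,z0,y1,z1],.ref k1 k0 [(z2,[z1]),(z1,[z0,z0,z1])],.contra [y1,z0,y1,z1],.ref k0 k1 [(z1,[z1]),(z1,[y1,
    z1,z1])],.contra [y1,z0,y1,z1],.contra [y1,z0,y1,z1],.contra [y1,y1,y1,z1],.contra [y1,y1,y1,z1]]),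
    .old (.lp [k0,k6,k0,k6,k0,k10] [k5,k5,k2,k2,k5,k5,k2,k2,k5,k5,k0,k0] k0 [[],[],[],[],[],[],[],[],[k0,k0,k0,k0,k0,k0,
    k0,k0,k0,k0,k0,k2],[],[k0,k0,k0,k0,k0,k0,k0,k0,k0,k2]] k12 k5
    [[(k3,k3),(k7,k3),(k11,k7)],[(k2,k3),(k6,k3),(k10,k5)],[(k1,k3),(k5,k3),(k9,k3)],[(k0,k3),(k4,k3),(k8,k3)],[(k3,
    k3),(k7,k3),(k11,k5)],[(k2,k3),(k6,k3),(k10,k5)],[(k1,k3),(k5,k3),(k9,k3)],[(k0,k3),(k4,k3),(k8,k3)],[(k3,k3),(k7,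
    k3),(k11,k5)],[(k2,k3),(k6,k3),(k10,k3)],[(k5,k5),(k9,k5),(k1,k7)],[(k8,k3),(k0,k5),(k4,k5)]]
    [] k0
    [[k1,k1,k0,k0,k0,k0],[k1,k0,k0,k1,k0,k0],[k0,k1,k1,k0,k0,k0],[k0,k1,k0,k0,k1,k0],[k0,k0,k1,k1,k0,k0],[k0,k0,k1,k0,
    k0,k1],[k0,k0,k0,k1,k1,k0],[k0,k0,k0,k0,k1,k1]]
    [.ref k0 k0 [(z1,[z0,z1]),(z1,[z1,y1])],.ref k2 k2 [(z1,[y1,z1]),(z1,[z1])],.contra [y1,y1,z1],.contra [y1,y1,z1],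
    .contra [y1,y1,z1],.ref k2 k3 [(z1,[y1,z1]),(z1,[z1])],.contra [y1,y1,z1],.ref k0 k4 [(z1,[z0,z1]),(z1,[z1,y1])]]),
    .old (.lp [k20,k22,k0,k26,k0,k26] [k3,k3,k2,k2,k13,k13,k0,k0,k13,k13,k0,k0] k0 [[k0,k0,k0,k4],[k0,k0,k0,k0,k0,k0,k0,
    k0,k0,k0,k2],[k0,k4],[],[k0,k0,k0,k0,k0,k0,k0,k0,k0,k0,k0,k2],[],[],[],[],[],[k0,k0,k0,k0,k0,k2],[k2]] k48 k6
    [[(k3,k19),(k11,k23),(k7,k25)],[(k2,k17),(k6,k23),(k10,k25)],[(k9,k11),(k5,k15),(k1,k19)],[(k4,k11),(k8,k11),(k0,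
    k17)],[(k7,k13),(k11,k13),(k3,k15)],[(k2,k11),(k10,k11),(k6,k13)],[(k5,k13),(k9,k13),(k1,k25)],[(k4,k13),(k8,k13),
    (k0,k23)],[(k3,k11),(k7,k13),(k11,k13)],[(k2,k11),(k6,k13),(k10,k13)],[(k5,k13),(k9,k13),(k1,k23)],[(k4,k11),(k8,
    k13),(k0,k25)]]
    [] k0
    [[k1,k1,k0,k0,k0,k0],[k0,k1,k1,k0,k0,k0],[k0,k1,k0,k0,k1,k0],[k0,k2,k0,k0,k2,k0],[k0,k0,k1,k1,k0,k0],[k0,k0,k1,k0,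
    k0,k1],[k0,k0,k0,k1,k1,k0],[k0,k0,k0,k0,k1,k1]]
    [.ref k3 k5 [(z1,[z1])],.contra [y1,y1,z1],.contra [y1,y1,z1],.ref k1 k2 [(z2,[y1,y2,z2]),(z1,[z0,z1])],
    .ref k3 k6 [(z1,[z1])],.contra [y1,y1,z1],.ref k3 k7 [(z1,[z1])],.contra [y1,y1,z1]]),
    .old (.lp [k0,k6,k0,k6,k0,k10] [k5,k5,k2,k2,k5,k5,k2,k2,k5,k5,k0,k0] k0 [[],[],[],[],[],[],[],[],[k0,k0,k0,k0,k0,k0,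
    k0,k0,k0,k0,k0,k2],[],[k0,k0,k0,k0,k0,k0,k0,k0,k0,k2]] k12 k5
    [[(k3,k3),(k7,k3),(k11,k7)],[(k2,k3),(k6,k3),(k10,k5)],[(k1,k3),(k5,k3),(k9,k3)],[(k0,k3),(k4,k3),(k8,k3)],[(k3,
    k3),(k7,k3),(k11,k5)],[(k2,k3),(k6,k3),(k10,k5)],[(k1,k3),(k5,k3),(k9,k3)],[(k0,k3),(k4,k3),(k8,k3)],[(k3,k3),(k7,
    k3),(k11,k5)],[(k2,k3),(k6,k3),(k10,k3)],[(k5,k5),(k9,k5),(k1,k7)],[(k8,k3),(k0,k5),(k4,k5)]]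
    [] k0
    [[k1,k1,k0,k0,k0,k0],[k1,k0,k0,k1,k0,k0],[k0,k1,k1,k0,k0,k0],[k0,k1,k0,k0,k1,k0],[k0,k0,k1,k1,k0,k0],[k0,k0,k1,k0,
    k0,k1],[k0,k0,k0,k1,k1,k0],[k0,k0,k0,k0,k1,k1]]
    [.ref k3 k5 [(z1,[z1])],.ref k4 k0 [(z1,[z1])],.ref k3 k8 [(z1,[z1])],.ref k4 k7 [(z1,[z1])],.ref k3 k6 [(z1,
    [z1])],.ref k4 k2 [(z1,[z1])],.ref k3 k7 [(z1,[z1])],.ref k3 k2 [(z1,[z1])]])]⟩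

/-- classes `0 0 0 0 0 0`, types `N0 N2 N0 N2 N1 N3` -/
noncomputable def cU6_51 : CertX :=
  ⟨[k12,k14,k12,k14,k13,k15],[(false,k0,[k0,k1,k2,k3,k4,k5])],[[[([z1,z1,z0,z1,z1,z0],z2)],[([z1,z0,z0,z1,z1,z1],z2),
    ([z0,z1,z0,y1,z0,z0],z0)],[([z1,z0,z0,z1,z1,z1],z2)],[]]],
    [.old (.leafM k6 [k1,k3,k4,k0] [] [(k2,k5,z1,[y1,z1]),(k5,k2,z1,[y1,z1])]),
    .old (.tor k3 false k0 [(z1,[y1,y1,z1]),(z1,[y1,z0,z1]),(z1,[z1]),(z1,[z1,z1])]),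
    .old (.lp [k0,k10,k0,k6,k0,k6] [k5,k5,k0,k0,k5,k5,k2,k2,k5,k5,k2,k2] k0 [[k0,k0,k0,k2],[],[k0,k2]] k12 k5
    [[(k6,k3),(k11,k3),(k2,k5)],[(k2,k3),(k6,k3),(k11,k3)],[(k8,k5),(k9,k5),(k5,k7)],[(k0,k3),(k1,k5),(k4,k5)],[(k7,
    k3),(k10,k3),(k3,k7)],[(k6,k3),(k11,k3),(k2,k5)],[(k5,k3),(k8,k3),(k9,k3)],[(k0,k3),(k1,k3),(k4,k3)],[(k7,k3),
    (k10,k3),(k3,k5)],[(k7,k3),(k10,k3),(k3,k5)],[(k0,k3),(k1,k3),(k4,k3)],[(k5,k3),(k8,k3),(k9,k3)]]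
    [] k0
    [[k0,k0,k1,k1,k0,k0],[k0,k0,k1,k0,k0,k1]]
    [.ref k1 k0 [(z1,[z0,z1]),(z1,[y1,y1,z1])],.ref k0 k0 [(z1,[y1,z0,z1])]]),
    .old (.lp [k0,k6,k4,k6,k0,k6] [k3,k3,k0,k0,k1,k1,k0,k0,k3,k3,k0,k0] k0 [[],[],[k0,k0,k0,k0,k0,k2],[],[k0,k0,k0,
    k2]] k12 k5
    [[(k2,k3),(k6,k3),(k11,k3)],[(k2,k3),(k6,k3),(k11,k3)],[(k8,k3),(k9,k3),(k5,k5)],[(k0,k3),(k1,k3),(k4,k3)],[(k3,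
    k5),(k10,k5),(k7,k7)],[(k2,k3),(k6,k5),(k11,k5)],[(k8,k3),(k9,k3),(k5,k7)],[(k0,k3),(k1,k3),(k4,k5)],[(k3,k3),(k7,
    k3),(k10,k3)],[(k3,k3),(k7,k3),(k10,k3)],[(k0,k3),(k1,k3),(k4,k5)],[(k8,k3),(k9,k3),(k5,k5)]]
    [] k0
    [[k0,k1,k1,k0,k0,k0],[k0,k0,k1,k0,k0,k1]]
    [.ref k2 k0 [(z1,[y1,z1])],.ref k0 k0 [(z1,[y1,z1])]])]⟩

/-- classes `0 0 0 0 0 0`, types `N0 N2 N1 N2 N0 N3` -/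
noncomputable def cU6_52 : CertX :=
  ⟨[k12,k14,k13,k14,k12,k15],[(false,k0,[k0,k1,k2,k3,k4,k5]),(true,k2,[k2,k1,k0,k5,k4,k3])],[[[([z1,z0,z0,z1,z0,z0],
    z2)],[([z1,z0,z0,z1,z0,z0],z1),([z0,z1,z0,z0,z1,z0],z2)],[([z1,z0,z1,z1,z0,z1],z2)],[]]],
    [.old (.leafM k6 [k2,k4,k5,k1] [] [(k3,k0,z1,[z1]),(k0,k3,z1,[z1])]),
    .old (.leafM k7 [k0,k2,k3,k5] [(z1,[y1,y1,z1])] [(k1,k4,z1,[z0,z1]),(k4,k1,z1,[z0,z1])]),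
    .old (.lp [k0,k10,k0,k8,k10,k10] [k5,k5,k0,k0,k5,k5,k1,k1,k0,k0,k0,k0] k0 [] k20 k6
    [[(k6,k4),(k7,k4),(k2,k5)],[(k6,k4),(k7,k4),(k2,k5)],[(k4,k5),(k5,k5),(k9,k10)],[(k0,k5),(k1,k5),(k8,k10)],[(k3,
    k5),(k10,k5),(k11,k5)],[(k3,k5),(k10,k5),(k11,k5)],[(k0,k4),(k1,k4),(k8,k9)],[(k0,k4),(k1,k4),(k8,k9)],[(k3,k10),
    (k10,k10),(k11,k10)],[(k6,k9),(k7,k9),(k2,k10)],[(k4,k5),(k5,k5),(k9,k10)],[(k4,k5),(k5,k5),(k9,k10)]]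
    [] k0
    [[k1,k0,k0,k1,k0,k0],[k2,k0,k0,k2,k0,k0],[k0,k0,k1,k0,k0,k1]]
    [.contra [y1,z1],.ref k1 k0 [(z2,[z1]),(z1,[z0,y1,z1])],.contra [y1,z1]]),
    .old (.lp [k0,k2,k0,k2,k0,k2] [k1,k1,k0,k0,k1,k1,k0,k0,k1,k1,k0,k0] k0 [] k4 k5
    [[(k2,k1),(k6,k1),(k7,k1)],[(k2,k1),(k6,k1),(k7,k1)],[(k4,k1),(k5,k1),(k9,k1)],[(k0,k1),(k1,k1),(k8,k1)],[(k3,k1),
    (k10,k1),(k11,k1)],[(k3,k1),(k10,k1),(k11,k1)],[(k0,k1),(k1,k1),(k8,k1)],[(k0,k1),(k1,k1),(k8,k1)],[(k3,k1),(k10,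
    k1),(k11,k1)],[(k2,k1),(k6,k1),(k7,k1)],[(k4,k1),(k5,k1),(k9,k1)],[(k4,k1),(k5,k1),(k9,k1)]]
    [] k0
    [[k1,k0,k0,k1,k0,k0],[k0,k1,k0,k0,k1,k0],[k0,k0,k1,k0,k0,k1]]
    [.ref k0 k0 [(z1,[z1])],.ref k2 k0 [(z1,[y1,z1])],.ref k0 k1 [(z1,[z1])]])]⟩

/-- classes `0 0 0 0 0 1`, types `C0 C0 C0 C0 C0 C0` -/
noncomputable def cU6_53 : CertX :=
  ⟨[k4,k4,k4,k4,k4,k20],[(false,k0,[k0,k1,k2,k3,k4,k5]),(true,k5,[k5,k4,k3,k2,k1,k0])],[[[([z1,z0,z0,z1,z1,z1],z2)],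
    [([z1,z1,z0,z0,z1,z1],z2)],[([z1,z0,z0,z0,z0,z1],z2)],[([z1,z0,z0,z0,z1,z1],z2)],[([z2,z0,z0,z0,y1,z2],z0),([z0,
    z1,z0,z0,z1,z0],z2),([z0,z0,z1,z0,z1,z0],z2)],[([z1,z0,z0,z0,z0,z1],z1),([z0,z1,z0,z0,z1,z0],z2)],[([z1,z0,z0,z1,
    y1,z1],z0),([z0,z1,z0,z0,z1,z0],z2)],[([z1,z0,z0,z0,y1,z1],z0),([z0,z2,z0,z0,z1,z0],z2),([z0,z0,z1,z0,z1,z0],z2)],
    [([z1,z0,z0,z0,y1,z1],z0),([z0,z1,z0,z1,z1,z0],z2)],[([z1,z0,z1,z0,z1,z1],z2)],[([z1,z0,z1,z1,z0,z1],z2)],[([z1,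
    z0,z0,z0,y2,z1],z0),([z0,z1,z0,z0,y1,z0],z0),([z0,z0,z1,z0,z2,z0],z2)]],[[([z1,z0,z0,z1,z0,z1],z2),([z0,z1,z0,z0,
    y1,z0],z0)],[([z1,z0,z0,z1,z0,z1],z2)],[]]],
    [.old (.leafM k0 [k0,k3,k4,k5] [] [(k1,k2,z1,[y1,z1]),(k2,k1,z1,[y1,z1])]),
    .old (.leafM k0 [k0,k1,k4,k5] [] [(k2,k3,z1,[y1,z1]),(k3,k2,z1,[y1,z1])]),
    .old (.leafM k0 [k1,k2,k3,k4] [] [(k5,k0,z1,[z1]),(k0,k5,z1,[z1])]),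
    .old (.leafM k0 [k0,k1,k2,k3,k4,k5] [(z1,[y1,z1])] []),
    .old (.tor k5 false k0 [(z1,[z0,z0,z1]),(z1,[y1,y2,y1,z2]),(z1,[z0,z1]),(z1,[z1,z1])]),
    .old (.leafM k4 [k0,k2,k3,k5] [(z1,[y1,y1,z1])] [(k1,k4,z1,[z0,z1]),(k4,k1,z1,[z0,z1])]),
    .old (.lp [k26,k98,k98,k70,k116,k70] [k45,k45,k9,k9,k9,k9,k23,k23,k0,k0,k23,k23] k0 [[k0,k0,k0,k0,k0,k0,k12],[],[k0,
    k0,k0,k0,k0,k0,k0,k0,k36],[k0,k0,k0,k0,k0,k0,k0,k26],[k0,k0,k0,k0,k0,k0,k10],[k0,k0,k0,k0,k0,k0,k0,k0,k0,k2],[k0,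
    k0,k26,k0,k0,k0,k0,k0,k4],[k0,k12,k0,k0,k0,k10],[k0,k0,k0,k0,k2],[k0,k0,k0,k36,k0,k0,k0,k4]] (nat_lit 240) k6
    [[(k10,k48)],[(k7,k48),(k11,k48),(k9,k59),(k3,k62),(k5,k62)],[(k0,k62),(k6,k96),(k2,k98),(k4,k98),(k8,k107)],
    [(k11,k48),(k7,k84),(k3,k98),(k5,k98),(k9,k133)],[(k6,k58),(k0,k62),(k2,k98),(k4,k98),(k8,k143)],[(k7,k84),(k11,
    k86),(k9,k97),(k3,k98),(k5,k98)],[(k0,k48),(k6,k80),(k2,k84),(k4,k84),(k8,k91)],[(k5,k58),(k11,k66),(k7,k80),(k9,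
    k93),(k3,k96)],[(k0,k59),(k6,k93),(k4,k97),(k8,k120),(k2,k133)],[(k7,k91),(k11,k93),(k3,k107),(k9,k120),(k5,
    k143)],[(k0,k48),(k2,k48),(k6,k66),(k4,k86),(k8,k93)],[(k1,k48)]]
    [] k0
    [[k1,k0,k0,k0,k0,k1],[k2,k0,k0,k0,k0,k2],[k1,k1,k0,k0,k0,k1],[k1,k0,k1,k0,k0,k1],[k1,k0,k0,k1,k0,k1],[k1,k0,k0,k0,
    k1,k1],[k0,k2,k0,k0,k0,k0],[k0,k1,k1,k0,k0,k0],[k0,k1,k0,k1,k0,k0],[k0,k0,k2,k0,k0,k0],[k0,k0,k1,k1,k0,k0],[k0,k0,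
    k1,k2,k0,k0],[k0,k0,k0,k2,k0,k0],[k0,k0,k0,k1,k1,k0]]
    [.contra [y1,z1,z1],.ref k5 k0 [(z2,[z1]),(z1,[z0,z0,z1])],.contra [y1,z1,z1],.contra [y1,z0,y1,z1],.contra [y1,
    z1,z1],.ref k3 k0 [(z1,[z1])],.contra [z1],.contra [z1,z1,z2,y1],.contra [y1,z1,z1],.contra [z1,z2,z4,y2],
    .contra [y1,z0,y1,z1],.ref k4 k0 [(z1,[y1,z1,y1,z1]),(z1,[z0,z0,z1]),(z1,[z0,y1,y1,z1])],.contra [z1],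
    .ref k0 k1 [(z1,[y1,z0,z0,z1])]]),
    .old (.tor k4 false k0 [(z1,[y2,y1,y2,z2]),(z1,[z0,z0,z1]),(z1,[z1,z0,z1]),(z1,[z1,z1])]),
    .old (.lp [k8,k40,k50,k42,k50,k48] [k21,k21,k5,k5,k0,k0,k4,k4,k0,k0,k1,k1] k0 [[k0,k0,k0,k0,k0,k0,k2],[k0,k0,k0,k0,k0,
    k0,k0,k0,k0,k4],[k0,k0,k0,k0,k0,k0,k0,k0,k20],[],[],[k0,k0,k0,k0,k0,k0,k0,k0,k0,k14],[k0,k0,k0,k0,k0,k0,k0,k0,
    k10],[k0,k2],[k4,k0,k0,k0,k14],[k0,k0,k0,k20,k0,k0,k0,k10]] k120 k6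
    [[(k10,k28)],[(k3,k24),(k7,k25),(k9,k27),(k5,k29),(k11,k32)],[(k0,k24),(k2,k40),(k8,k41),(k6,k43),(k4,k45)],[(k11,
    k24),(k3,k40),(k7,k41),(k5,k45),(k9,k45)],[(k0,k29),(k2,k45),(k6,k46),(k4,k50),(k8,k70)],[(k3,k45),(k7,k46),(k5,
    k50),(k9,k50),(k11,k63)],[(k0,k25),(k8,k32),(k2,k41),(k6,k42),(k4,k46)],[(k11,k35),(k7,k42),(k3,k43),(k5,k46),(k9,
    k46)],[(k0,k27),(k2,k45),(k6,k46),(k4,k50),(k8,k60)],[(k7,k32),(k3,k41),(k11,k49),(k9,k60),(k5,k70)],[(k2,k24),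
    (k0,k32),(k6,k35),(k8,k49),(k4,k63)],[(k1,k28)]]
    [] k0
    [[k1,k0,k0,k0,k0,k1],[k1,k1,k0,k0,k0,k1],[k1,k2,k0,k0,k0,k1],[k1,k0,k0,k1,k0,k1],[k1,k0,k0,k0,k1,k1],[k0,k2,k0,k0,
    k0,k0],[k0,k1,k1,k0,k0,k0],[k0,k1,k0,k1,k0,k0],[k0,k1,k0,k0,k1,k0],[k0,k0,k2,k0,k0,k0],[k0,k0,k1,k1,k0,k0],[k0,k0,
    k0,k2,k0,k0],[k0,k0,k0,k1,k1,k0]]
    [.contra [y1,z0,y1,z1],.contra [y1,z1,z1],.ref k7 k0 [(z1,[z0,z1]),(z1,[z1,y1]),(z1,[z0,y1,y1,z1])],.contra [y1,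
    z1,z1],.contra [y1,y1,y2,z2],.contra [z1],.ref k0 k0 [(z1,[y1,z0,z0,z1])],.contra [y1,z0,z1],.contra [y1,z0,z1],
    .contra [z1],.ref k1 k0 [(z1,[y1,z0,z0,z1])],.contra [z1],.contra [y1,z0,z1]]),
    .old (.lp [k28,k74,k42,k44,k38,k12] [k27,k19,k0,k0,k16,k16,k15,k15,k18,k18,k31,k31] k0 [[k0,k0,k0,k0,k4],[k0,k0,k0,k0,
    k0,k0,k0,k0,k0,k20],[],[k0,k0,k0,k0,k0,k2],[k0,k0,k2],[k0,k4],[k0,k0,k0,k0,k0,k0,k0,k0,k4],[],[k20],[k0,k0,k0,k0,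
    k0,k0,k0,k4]] k120 k6
    [[(k10,k24)],[(k7,k28),(k9,k29),(k5,k31),(k11,k36),(k3,k47)],[(k8,k36),(k0,k47),(k6,k59),(k4,k62),(k2,k74)],[(k11,
    k43),(k9,k56),(k5,k58),(k7,k61),(k3,k74)],[(k0,k31),(k4,k40),(k8,k40),(k6,k43),(k2,k58)],[(k11,k27),(k5,k40),(k9,
    k40),(k7,k43),(k3,k62)],[(k0,k28),(k8,k41),(k4,k43),(k6,k44),(k2,k61)],[(k11,k24),(k9,k41),(k5,k43),(k7,k44),(k3,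
    k59)],[(k0,k29),(k4,k40),(k6,k41),(k8,k42),(k2,k56)],[(k11,k25),(k3,k36),(k5,k40),(k7,k41),(k9,k42)],[(k6,k24),
    (k8,k25),(k4,k27),(k0,k36),(k2,k43)],[(k1,k24)]]
    [] k0
    [[k1,k0,k0,k0,k0,k1],[k1,k1,k0,k0,k0,k1],[k1,k0,k1,k0,k0,k1],[k1,k0,k0,k1,k0,k1],[k1,k0,k0,k1,k1,k1],[k1,k0,k0,k0,
    k1,k1],[k0,k1,k0,k0,k1,k0],[k0,k0,k2,k0,k0,k0],[k0,k0,k1,k1,k0,k0],[k0,k0,k1,k0,k1,k0],[k0,k0,k0,k2,k0,k0],[k0,k0,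
    k0,k1,k1,k0],[k0,k0,k0,k0,k2,k0]]
    [.contra [y1,z1],.ref k3 k1 [(z1,[z1])],.contra [y1,z1],.ref k8 k1 [(z1,[z1,z1,y1]),(z1,[y1,z0,z1])],
    .ref k0 k0 [(z1,[z1])],.contra [y1,z1],.ref k6 k1 [(z1,[y1,z1]),(z1,[z1])],.contra [z1],.ref k1 k0 [(z1,[y1,z0,
    z1])],.contra [y1,z1],.contra [y1,y2,z2],.ref k0 k1 [(z1,[y1,z0,z1])],.contra [z1]]),
    .old (.lp [k30,k54,k52,k18,k60,k24] [k15,k15,k3,k3,k4,k4,k21,k21,k0,k0,k21,k15] k0 [[k0,k0,k0,k0,k0,k0,k0,k0,k6],[k0,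
    k0,k0,k6],[k6],[k0,k0,k0,k0,k0,k0,k0,k0,k0,k12],[k0,k0,k0,k0,k0,k0,k32],[k0,k0,k0,k0,k0,k0,k0,k0,k0,k8],[],[k0,k0,
    k0,k0,k0,k32],[k0,k0,k12,k0,k8],[k0,k6]] k120 k6
    [[(k10,k24)],[(k7,k24),(k11,k24),(k3,k42),(k9,k45),(k5,k47)],[(k6,k36),(k0,k42),(k2,k48),(k4,k53),(k8,k63)],[(k7,
    k36),(k3,k48),(k5,k53),(k11,k54),(k9,k57)],[(k6,k35),(k8,k44),(k0,k47),(k4,k52),(k2,k53)],[(k9,k24),(k7,k35),(k11,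
    k49),(k5,k52),(k3,k53)],[(k0,k24),(k8,k31),(k4,k35),(k2,k36),(k6,k50)],[(k11,k24),(k5,k35),(k3,k36),(k9,k39),(k7,
    k50)],[(k4,k24),(k6,k39),(k0,k45),(k2,k57),(k8,k60)],[(k7,k31),(k5,k44),(k11,k45),(k9,k60),(k3,k63)],[(k0,k24),
    (k6,k24),(k8,k45),(k4,k49),(k2,k54)],[(k1,k24)]]
    [] k0
    [[k1,k0,k0,k0,k0,k1],[k2,k0,k0,k0,k0,k2],[k1,k0,k0,k1,k0,k1],[k1,k0,k0,k0,k1,k1],[k0,k2,k0,k0,k0,k0],[k0,k1,k1,k0,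
    k0,k0],[k0,k1,k0,k1,k0,k0],[k0,k0,k2,k0,k0,k0],[k0,k0,k1,k1,k0,k0],[k0,k0,k1,k1,k1,k0],[k0,k0,k1,k0,k1,k0],[k0,k0,
    k0,k2,k0,k0],[k0,k0,k0,k1,k1,k0]]
    [.contra [y1,z1],.ref k5 k0 [(z2,[z1]),(z1,[z0,y1,z1])],.contra [y1,z1],.ref k3 k0 [(z1,[z1])],.contra [z1],
    .ref k0 k0 [(z1,[y1,z0,z1])],.ref k9 k0 [(z1,[y1,z0,z1])],.contra [z1],.contra [y1,z1],.ref k3 k1 [(z1,[y1,z0,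
    z1])],.ref k9 k1 [(z1,[y1,z0,z1])],.contra [z1],.ref k0 k1 [(z1,[y1,z0,z1])]]),
    .old (.tor k6 false k0 [(z1,[y1,y1,y1,z1]),(z1,[z0,z2,z1]),(z1,[z0,y1,y1,z1]),(z1,[z1,z0,z1])]),
    .old (.lp [k46,k42,k44,k44,k40,k22] [k0,k0,k2,k2,k1,k1,k1,k1,k3,k3,k12,k12] k0 [[k0,k0,k0,k0,k0,k0,k2],[k0,k0,k0,k0,
    k0,k8],[k0,k0,k0,k0,k0,k0,k0,k0,k2],[],[k8],[k0,k0,k0,k0,k0,k0,k0,k0,k0,k8],[],[k0,k2],[k0,k0,k0,k0,k8],[k0,k0,k0,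
    k2]] k120 k5
    [[(k10,k34)],[(k11,k34),(k9,k41),(k3,k44),(k5,k45),(k7,k53)],[(k4,k35),(k8,k41),(k2,k42),(k0,k44),(k6,k45)],[(k11,
    k30),(k9,k41),(k3,k42),(k5,k43),(k7,k43)],[(k2,k43),(k4,k44),(k6,k44),(k8,k44),(k0,k45)],[(k3,k35),(k11,k41),(k9,
    k42),(k5,k44),(k7,k44)],[(k8,k34),(k2,k43),(k4,k44),(k6,k44),(k0,k53)],[(k11,k33),(k9,k42),(k5,k44),(k7,k44),(k3,
    k45)],[(k8,k40),(k0,k41),(k2,k41),(k4,k42),(k6,k42)],[(k11,k31),(k7,k34),(k9,k40),(k3,k41),(k5,k44)],[(k2,k30),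
    (k8,k31),(k6,k33),(k0,k34),(k4,k41)],[(k1,k34)]]
    [] k0
    [[k1,k0,k0,k0,k0,k1],[k1,k1,k0,k0,k0,k1],[k1,k0,k0,k0,k1,k1],[k0,k2,k0,k0,k0,k0],[k0,k1,k1,k0,k0,k0],[k0,k1,k0,k1,
    k0,k0],[k0,k1,k0,k0,k1,k0],[k0,k0,k2,k0,k0,k0],[k0,k0,k1,k1,k0,k0],[k0,k0,k1,k0,k1,k0],[k0,k0,k0,k2,k0,k0],[k0,k0,
    k0,k1,k1,k0],[k0,k0,k0,k1,k2,k0],[k0,k0,k0,k0,k2,k0]]
    [.contra [y1,z1],.ref k3 k0 [(z1,[z1,z0,y1])],.ref k3 k0 [(z1,[z1])],.contra [z1],.contra [y1,y1,z1,z1],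
    .ref k0 k1 [(z1,[y1,z0,z1,z1])],.contra [z1,z0,z1],.contra [z1],.ref k1 k0 [(z1,[y1,z0,z0,z1])],.contra [y1,y1,z0,
    z1],.contra [z1],.ref k0 k1 [(z1,[y1,z0,z0,z1])],.ref k11 k0 [(z1,[y1,z1]),(z1,[z0,z0,z1]),(z1,[z0,y1,y1,z1])],
    .contra [z1,z0,z2]]),
    .old (.lp [k44,k40,k44,k44,k42,k24] [k0,k0,k2,k2,k0,k0,k0,k0,k1,k1,k10,k10] k0 [[k0,k0,k0,k0,k0,k0,k2],[k0,k0,k0,k0,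
    k0,k8],[k0,k0,k0,k0,k0,k0,k0,k0,k2],[],[k8],[k0,k0,k0,k0,k0,k0,k0,k0,k0,k8],[],[k0,k2],[k0,k0,k0,k0,k8],[k0,k0,k0,
    k2]] k120 k5
    [[(k10,k34)],[(k11,k34),(k9,k41),(k3,k42),(k5,k44),(k7,k52)],[(k4,k34),(k2,k40),(k8,k41),(k0,k42),(k6,k44)],[(k11,
    k30),(k3,k40),(k9,k41),(k5,k42),(k7,k42)],[(k2,k42),(k0,k44),(k4,k44),(k6,k44),(k8,k45)],[(k3,k34),(k11,k42),(k9,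
    k43),(k5,k44),(k7,k44)],[(k8,k35),(k2,k42),(k4,k44),(k6,k44),(k0,k52)],[(k11,k34),(k9,k43),(k3,k44),(k5,k44),(k7,
    k44)],[(k0,k41),(k2,k41),(k8,k42),(k4,k43),(k6,k43)],[(k11,k33),(k7,k35),(k3,k41),(k9,k42),(k5,k45)],[(k2,k30),
    (k8,k33),(k0,k34),(k6,k34),(k4,k42)],[(k1,k34)]]
    [] k0
    [[k1,k0,k0,k0,k0,k1],[k1,k1,k0,k0,k0,k1],[k1,k0,k0,k0,k1,k1],[k0,k2,k0,k0,k0,k0],[k0,k2,k1,k0,k0,k0],[k0,k1,k1,k0,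
    k0,k0],[k0,k1,k0,k1,k0,k0],[k0,k1,k0,k0,k1,k0],[k0,k0,k2,k0,k0,k0],[k0,k0,k1,k1,k0,k0],[k0,k0,k1,k0,k1,k0],[k0,k0,
    k0,k2,k0,k0],[k0,k0,k0,k1,k1,k0],[k0,k0,k0,k0,k2,k0]]
    [.contra [y1,z1],.ref k3 k1 [(z1,[z1])],.ref k3 k0 [(z1,[z1])],.contra [z1],.ref k12 k0 [(z1,[z0,z1]),(z1,[z1,z1,
    y1])],.contra [y1,y1,z1],.ref k9 k0 [(z1,[y1,z0,z1])],.contra [y1,y1,z1],.contra [z1],.ref k1 k0 [(z1,[y1,z0,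
    z1])],.contra [y1,y1,z1],.contra [z1],.ref k0 k1 [(z1,[y1,z0,z1])],.contra [z1]]),
    .old (.lp [(nat_lit 503880),(nat_lit 881790),(nat_lit 678300),(nat_lit 649740),(nat_lit 503880),
    (nat_lit 293930)] [(nat_lit 188955),(nat_lit 188955),k0,k0,(nat_lit 101745),(nat_lit 101745),(nat_lit 116025),
    (nat_lit 116025),(nat_lit 188955),(nat_lit 188955),(nat_lit 293930),(nat_lit 293930)] k0 [[k0,k0,k0,k0,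
    (nat_lit 207480),k0,(nat_lit 146965)],[k0,k0,k0,(nat_lit 293930),k0,k0,k0,k0,k0,(nat_lit 88179)],
    [(nat_lit 293930)],[k0,k0,k0,k0,k0,(nat_lit 88179)],[k0,k0,(nat_lit 88179)],[k0,(nat_lit 207480)],[k0,k0,k0,k0,k0,
    k0,k0,k0,(nat_lit 117572)],[k0,(nat_lit 146965)],[(nat_lit 88179)],[k0,k0,k0,k0,k0,k0,k0,
    (nat_lit 117572)]] (nat_lit 1763580) k6
    [[(k10,(nat_lit 398905))],[(k9,(nat_lit 356915)),(k7,(nat_lit 369330)),(k11,(nat_lit 487084)),(k3,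
    (nat_lit 692835)),(k5,(nat_lit 885020))],[(k2,(nat_lit 587860)),(k8,(nat_lit 604656)),(k0,(nat_lit 692835)),(k6,
    (nat_lit 912730)),(k4,(nat_lit 987525))],[(k3,(nat_lit 587860)),(k11,(nat_lit 587860)),(k9,(nat_lit 692835)),(k5,
    (nat_lit 780045)),(k7,(nat_lit 853944))],[(k4,(nat_lit 590121)),(k8,(nat_lit 591090)),(k6,(nat_lit 664020)),(k2,
    (nat_lit 780045)),(k0,(nat_lit 885020))],[(k11,(nat_lit 486115)),(k5,(nat_lit 590121)),(k9,(nat_lit 591090)),(k7,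
    (nat_lit 664020)),(k3,(nat_lit 987525))],[(k0,(nat_lit 369330)),(k8,(nat_lit 576810)),(k6,(nat_lit 649740)),(k4,
    (nat_lit 664020)),(k2,(nat_lit 853944))],[(k11,(nat_lit 354263)),(k9,(nat_lit 576810)),(k7,(nat_lit 649740)),(k5,
    (nat_lit 664020)),(k3,(nat_lit 912730))],[(k0,(nat_lit 356915)),(k6,(nat_lit 576810)),(k4,(nat_lit 591090)),(k8,
    (nat_lit 621452)),(k2,(nat_lit 692835))],[(k11,(nat_lit 398905)),(k7,(nat_lit 576810)),(k5,(nat_lit 591090)),(k3,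
    (nat_lit 604656)),(k9,(nat_lit 621452))],[(k6,(nat_lit 354263)),(k8,(nat_lit 398905)),(k4,(nat_lit 486115)),(k0,
    (nat_lit 487084)),(k2,(nat_lit 587860))],[(k1,(nat_lit 398905))]]
    [] k0
    [[k1,k0,k0,k0,k0,k1],[k1,k1,k0,k0,k0,k1],[k1,k0,k0,k1,k0,k1],[k1,k0,k0,k1,k1,k1],[k1,k0,k0,k0,k1,k1],[k0,k2,k0,k0,
    k0,k0],[k0,k1,k0,k0,k1,k0],[k0,k0,k2,k0,k0,k0],[k0,k0,k1,k1,k0,k0],[k0,k0,k1,k0,k1,k0],[k0,k0,k0,k2,k0,k0],[k0,k0,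
    k0,k1,k1,k0],[k0,k0,k0,k0,k2,k0]]
    [.ref k2 k0 [(z1,[z1])],.ref k3 k1 [(z1,[z1])],.ref k13 k0 [(z1,[z1])],.ref k0 k0 [(z1,[z1])],.ref k3 k0 [(z1,
    [z1])],.contra [z1],.ref k10 k0 [(z1,[y1,z1])],.contra [z1],.ref k1 k0 [(z1,[y1,z1])],.ref k9 k1 [(z1,[y1,z1])],
    .contra [z1],.ref k0 k1 [(z1,[y1,z1])],.contra [z1]])]⟩

/-- classes `0 0 0 0 0 1`, types `C0 C0 C0 C0 C0 S0` -/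
noncomputable def cU6_54 : CertX :=
  ⟨[k4,k4,k4,k4,k4,k16],[(false,k0,[k0,k1,k2,k3,k4,k5]),(true,k5,[k5,k4,k3,k2,k1,k0])],[[[([z1,z0,z0,z1,z1,z1],z2)],
    [([z1,z1,z0,z0,z1,z1],z2)],[([z1,z0,z0,z0,z0,z1],z2)],[([z1,z0,z0,z0,z1,z1],z2)],[([z2,z0,z0,z0,y1,z2],z0),([z0,
    z1,z0,z0,z1,z0],z2),([z0,z0,z1,z0,z1,z0],z2)],[([z1,z0,z0,z0,z0,z1],z1),([z0,z1,z0,z0,z1,z0],z2)],[([z1,z0,z0,z1,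
    y1,z1],z0),([z0,z1,z0,z0,z1,z0],z2)],[([z1,z0,z0,z0,y1,z1],z0),([z0,z2,z0,z0,z1,z0],z2),([z0,z0,z1,z0,z1,z0],z2)],
    [([z1,z0,z0,z0,y1,z1],z0),([z0,z1,z0,z1,z1,z0],z2)],[([z1,z0,z1,z0,z1,z1],z2)],[([z1,z0,z1,z1,z0,z1],z2)],[([z1,
    z0,z0,z0,y2,z1],z0),([z0,z1,z0,z0,y1,z0],z0),([z0,z0,z1,z0,z2,z0],z2)]],[[([z1,z0,z0,z0,y2,z1],z0),([z0,z1,z1,z0,
    z1,z0],z2)],[([z1,z0,z0,z1,z0,z1],z2)],[]]],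
    [.old (.leafM k0 [k0,k3,k4,k5] [] [(k1,k2,z1,[y1,z1]),(k2,k1,z1,[y1,z1])]),
    .old (.leafM k0 [k0,k1,k4,k5] [] [(k2,k3,z1,[y1,z1]),(k3,k2,z1,[y1,z1])]),
    .old (.leafM k0 [k1,k2,k3,k4] [] [(k5,k0,z1,[z1]),(k0,k5,z1,[z1])]),
    .old (.leafM k0 [k0,k1,k2,k3,k4,k5] [(z1,[y1,z1])] []),
    .old (.tor k5 false k0 [(z1,[z0,z0,z1]),(z1,[y1,y2,y1,z2]),(z1,[z0,z1]),(z1,[z1,z1])]),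
    .old (.leafM k4 [k0,k2,k3,k5] [(z1,[y1,y1,z1])] [(k1,k4,z1,[z0,z1]),(k4,k1,z1,[z0,z1])]),
    .old (.lp [k74,k196,k196,k154,(nat_lit 240),k96] [k94,k72,k22,k22,k22,k22,k43,k43,k0,k0,k72,k72] k0 [[k0,k0,k0,k0,k0,
    k0,k10],[k0,k0,k0,k0,k0,k0,k0,k0,k0,k22],[k0,k0,k0,k0,k0,k0,k0,k0,k50],[k0,k0,k0,k0,k0,k0,k0,k66],[k0,k0,k0,k0,k0,
    k0,k6],[k0,k0,k0,k0,k0,k0,k0,k0,k0,k26],[k0,k0,k66],[k0,k10,k0,k0,k0,k6],[k22,k0,k0,k0,k26],[k0,k0,k0,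
    k50]] (nat_lit 480) k6
    [[(k1,k96),(k10,k96)],[(k11,k96),(k7,k103),(k3,k124),(k5,k124),(k9,k136)],[(k0,k124),(k6,k185),(k2,k196),(k4,
    k196),(k8,k196)],[(k11,k96),(k7,k175),(k3,k196),(k5,k196),(k9,(nat_lit 284))],[(k6,k109),(k0,k124),(k2,k196),(k4,
    k196),(k8,(nat_lit 268))],[(k11,k172),(k7,k175),(k3,k196),(k5,k196),(k9,(nat_lit 212))],[(k0,k103),(k6,k160),(k8,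
    k171),(k2,k175),(k4,k175)],[(k5,k109),(k11,k125),(k7,k160),(k3,k185),(k9,k197)],[(k0,k136),(k6,k197),(k4,
    (nat_lit 212)),(k8,(nat_lit 240)),(k2,(nat_lit 284))],[(k11,k168),(k7,k171),(k3,k196),(k9,(nat_lit 240)),(k5,
    (nat_lit 268))],[(k0,k96),(k2,k96),(k6,k125),(k8,k168),(k4,k172)],[(k1,k96),(k10,k96)]]
    [] k0
    [[k2,k0,k0,k0,k0,k2],[k1,k0,k0,k0,k0,k1],[k1,k1,k0,k0,k0,k1],[k1,k0,k1,k0,k0,k1],[k1,k0,k0,k1,k0,k1],[k1,k0,k0,k0,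
    k1,k1],[k0,k2,k0,k0,k0,k0],[k0,k1,k1,k0,k0,k0],[k0,k1,k0,k1,k0,k0],[k0,k0,k2,k0,k0,k0],[k0,k0,k1,k1,k0,k0],[k0,k0,
    k1,k2,k0,k0],[k0,k0,k0,k2,k0,k0],[k0,k0,k0,k1,k1,k0]]
    [.ref k5 k0 [(z2,[z1]),(z1,[z0,z0,z1])],.contra [y1,z1,z1],.contra [y1,z1,z1],.contra [y1,z0,y1,z1],.contra [y1,
    z1,z1],.ref k3 k0 [(z1,[z1])],.contra [z1],.contra [z1,z1,z2,y1],.contra [y1,z1,z1],.contra [z1,z2,z4,y2],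
    .contra [y1,z0,y1,z1],.ref k4 k0 [(z1,[y1,z1,y1,z1]),(z1,[z0,z0,z1]),(z1,[z0,y1,y1,z1])],.contra [z1],
    .ref k0 k1 [(z1,[y1,z0,z0,z1])]]),
    .old (.tor k4 false k0 [(z1,[y2,y1,y2,z2]),(z1,[z0,z0,z1]),(z1,[z1,z0,z1]),(z1,[z1,z1])]),
    .old (.lp [k21,k42,k50,k40,k60,k25] [k21,k18,k9,k9,k5,k5,k10,k10,k0,k0,k18,k17] k0 [[k0,k0,k0,k0,k0,k0,k2],[k0,k0,k0,
    k0,k0,k0,k0,k0,k0,k14],[k0,k0,k0,k0,k0,k0,k0,k0,k10],[],[],[k0,k0,k0,k0,k0,k0,k0,k0,k0,k24],[],[k0,k2],[k14,k0,k0,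
    k0,k24],[k0,k0,k0,k10]] k120 k6
    [[(k1,k24),(k10,k24)],[(k7,k29),(k3,k30),(k5,k34),(k11,k36),(k9,k37)],[(k0,k30),(k8,k37),(k2,k42),(k6,k43),(k4,
    k46)],[(k11,k24),(k7,k41),(k3,k42),(k5,k46),(k9,k51)],[(k0,k34),(k6,k45),(k2,k46),(k4,k50),(k8,k65)],[(k7,k45),
    (k3,k46),(k5,k50),(k9,k55),(k11,k62)],[(k8,k26),(k0,k29),(k6,k40),(k2,k41),(k4,k45)],[(k11,k33),(k7,k40),(k3,k43),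
    (k5,k45),(k9,k50)],[(k0,k37),(k6,k50),(k2,k51),(k4,k55),(k8,k60)],[(k7,k26),(k3,k37),(k11,k43),(k9,k60),(k5,k65)],
    [(k2,k24),(k6,k33),(k0,k36),(k8,k43),(k4,k62)],[(k1,k24),(k10,k24)]]
    [] k0
    [[k1,k0,k0,k0,k0,k1],[k1,k1,k0,k0,k0,k1],[k1,k0,k0,k1,k0,k1],[k1,k0,k0,k0,k1,k1],[k0,k2,k0,k0,k0,k0],[k0,k1,k1,k0,
    k0,k0],[k0,k1,k0,k1,k0,k0],[k0,k1,k0,k0,k1,k0],[k0,k0,k2,k0,k0,k0],[k0,k0,k1,k1,k0,k0],[k0,k0,k0,k2,k0,k0],[k0,k0,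
    k0,k2,k1,k0],[k0,k0,k0,k1,k1,k0]]
    [.contra [y1,z0,y1,z1],.contra [y1,z1,z1],.contra [y1,z1,z1],.contra [y1,y1,y2,z2],.contra [z1],.ref k0 k0 [(z1,
    [y1,z0,z0,z1])],.contra [y1,z0,z1],.contra [y1,z0,z1],.contra [z1],.ref k1 k0 [(z1,[y1,z0,z0,z1])],.contra [z1],
    .ref k7 k0 [(z1,[z0,z1]),(z1,[y1,z0,z2]),(z1,[z0,y1,y1,z1])],.contra [y1,z0,z1]]),
    .old (.lp [k18,k74,k42,k44,k38,k22] [k31,k25,k0,k0,k16,k16,k15,k15,k18,k18,k24,k28] k0 [[k0,k0,k0,k0,k4],[k0,k0,k0,k0,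
    k0,k0,k0,k0,k0,k20],[],[k0,k0,k0,k0,k0,k2],[k0,k0,k2],[k0,k4],[k0,k0,k0,k0,k0,k0,k0,k0,k4],[],[k20],[k0,k0,k0,k0,
    k0,k0,k0,k4]] k120 k6
    [[(k1,k24),(k10,k25)],[(k7,k24),(k9,k25),(k5,k27),(k11,k35),(k3,k43)],[(k8,k36),(k0,k43),(k6,k59),(k4,k62),(k2,
    k74)],[(k11,k46),(k9,k56),(k5,k58),(k7,k61),(k3,k74)],[(k0,k27),(k4,k40),(k8,k40),(k6,k43),(k2,k58)],[(k11,k30),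
    (k5,k40),(k9,k40),(k7,k43),(k3,k62)],[(k0,k24),(k8,k41),(k4,k43),(k6,k44),(k2,k61)],[(k11,k27),(k9,k41),(k5,k43),
    (k7,k44),(k3,k59)],[(k0,k25),(k4,k40),(k6,k41),(k8,k42),(k2,k56)],[(k11,k28),(k3,k36),(k5,k40),(k7,k41),(k9,k42)],
    [(k6,k27),(k8,k28),(k4,k30),(k0,k35),(k2,k46)],[(k1,k25),(k10,k26)]]
    [] k0
    [[k1,k0,k0,k0,k0,k1],[k1,k1,k0,k0,k0,k1],[k1,k0,k1,k0,k0,k1],[k1,k0,k0,k1,k0,k1],[k1,k0,k0,k1,k1,k1],[k1,k0,k0,k0,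
    k1,k1],[k0,k1,k0,k0,k1,k0],[k0,k0,k2,k0,k0,k0],[k0,k0,k1,k1,k0,k0],[k0,k0,k1,k0,k1,k0],[k0,k0,k0,k2,k0,k0],[k0,k0,
    k0,k1,k1,k0],[k0,k0,k0,k0,k2,k0]]
    [.contra [y1,z1],.ref k3 k1 [(z1,[z1])],.contra [y1,z1],.ref k8 k1 [(z1,[z1,z1,y1]),(z1,[y1,z0,z1])],
    .ref k0 k0 [(z1,[z1])],.contra [y1,z1],.ref k6 k1 [(z1,[y1,z1]),(z1,[z1])],.contra [z1],.ref k1 k0 [(z1,[y1,z0,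
    z1])],.contra [y1,z1],.contra [y1,y2,z2],.ref k0 k1 [(z1,[y1,z0,z1])],.contra [z1]]),
    .old (.lp [k24,k66,k44,k26,k52,k26] [k21,k21,k0,k0,k11,k11,k20,k20,k7,k7,k21,k19] k0 [[k0,k0,k0,k0,k0,k0,k0,k0,k2],[],
    [k0,k0,k0,k0,k16],[k0,k0,k0,k0,k0,k0,k0,k0,k0,k4],[k0,k0,k0,k0,k0,k0,k24],[k0,k0,k0,k16],[],[k0,k0,k0,k0,k0,k24],
    [k0,k0,k4],[k0,k2]] k120 k6
    [[(k1,k24),(k10,k24)],[(k11,k24),(k7,k25),(k5,k34),(k9,k38),(k3,k45)],[(k0,k45),(k6,k46),(k4,k55),(k8,k61),(k2,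
    k66)],[(k7,k30),(k11,k51),(k5,k55),(k9,k59),(k3,k66)],[(k0,k34),(k6,k35),(k8,k44),(k2,k55),(k4,k60)],[(k9,k24),
    (k7,k35),(k11,k36),(k3,k55),(k5,k60)],[(k0,k25),(k2,k30),(k4,k35),(k8,k39),(k6,k50)],[(k11,k27),(k5,k35),(k9,k39),
    (k3,k46),(k7,k50)],[(k4,k24),(k0,k38),(k6,k39),(k8,k52),(k2,k59)],[(k7,k39),(k11,k40),(k5,k44),(k9,k52),(k3,k61)],
    [(k0,k24),(k6,k27),(k4,k36),(k8,k40),(k2,k51)],[(k1,k24),(k10,k24)]]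
    [] k0
    [[k2,k0,k0,k0,k0,k2],[k1,k0,k0,k0,k0,k1],[k1,k0,k1,k0,k0,k1],[k1,k0,k0,k1,k0,k1],[k1,k0,k0,k0,k1,k1],[k0,k1,k1,k0,
    k0,k0],[k0,k1,k0,k1,k0,k0],[k0,k0,k1,k1,k0,k0],[k0,k0,k1,k1,k1,k0],[k0,k0,k1,k0,k1,k0],[k0,k0,k0,k2,k0,k0],[k0,k0,
    k0,k1,k1,k0],[k0,k0,k0,k0,k2,k0]]
    [.ref k5 k0 [(z2,[z1]),(z1,[z0,y1,z1])],.contra [y1,z1],.contra [y1,z1],.contra [y1,z1],.ref k3 k0 [(z1,[z1])],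
    .ref k0 k0 [(z1,[y1,z0,z1])],.ref k9 k0 [(z1,[y1,z0,z1])],.contra [y1,z1],.ref k3 k1 [(z1,[y1,z0,z1])],
    .ref k9 k1 [(z1,[y1,z0,z1])],.contra [z1],.ref k0 k1 [(z1,[y1,z0,z1])],.contra [y1,y2,z2]]),
    .old (.tor k6 false k0 [(z1,[y1,y1,y1,z1]),(z1,[z0,z2,z1]),(z1,[z0,y1,y1,z1]),(z1,[z1,z0,z1])]),
    .old (.lp [k38,k40,k44,k44,k42,k30] [k3,k3,k2,k2,k0,k0,k0,k0,k1,k1,k7,k7] k0 [[k0,k0,k0,k0,k0,k0,k2],[k0,k0,k0,k0,k0,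
    k8],[k0,k0,k0,k0,k0,k0,k0,k0,k2],[],[k8],[k0,k0,k0,k0,k0,k0,k0,k0,k0,k8],[],[k0,k2],[k0,k0,k0,k0,k8],[k0,k0,k0,
    k2]] k120 k5
    [[(k10,k34),(k1,k38)],[(k11,k34),(k9,k38),(k3,k39),(k5,k41),(k7,k49)],[(k4,k34),(k0,k39),(k2,k40),(k8,k41),(k6,
    k44)],[(k11,k33),(k3,k40),(k9,k41),(k5,k42),(k7,k42)],[(k0,k41),(k2,k42),(k4,k44),(k6,k44),(k8,k45)],[(k3,k34),
    (k9,k43),(k5,k44),(k7,k44),(k11,k45)],[(k8,k35),(k2,k42),(k4,k44),(k6,k44),(k0,k49)],[(k11,k37),(k9,k43),(k3,k44),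
    (k5,k44),(k7,k44)],[(k0,k38),(k2,k41),(k8,k42),(k4,k43),(k6,k43)],[(k7,k35),(k11,k36),(k3,k41),(k9,k42),(k5,k45)],
    [(k2,k33),(k0,k34),(k8,k36),(k6,k37),(k4,k45)],[(k10,k30),(k1,k34)]]
    [] k0
    [[k1,k0,k0,k0,k0,k1],[k1,k1,k0,k0,k0,k1],[k1,k0,k0,k0,k1,k1],[k0,k2,k0,k0,k0,k0],[k0,k2,k1,k0,k0,k0],[k0,k1,k1,k0,
    k0,k0],[k0,k1,k0,k1,k0,k0],[k0,k1,k0,k0,k1,k0],[k0,k0,k2,k0,k0,k0],[k0,k0,k1,k1,k0,k0],[k0,k0,k1,k0,k1,k0],[k0,k0,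
    k0,k2,k0,k0],[k0,k0,k0,k1,k1,k0],[k0,k0,k0,k0,k2,k0]]
    [.contra [z1,y1],.ref k3 k1 [(z1,[z1])],.ref k3 k0 [(z1,[z1])],.contra [z1],.ref k11 k0 [(z1,[z0,z1]),(z1,[z1,z0,
    y1]),(z1,[y1,z0,z2])],.contra [y1,z0,z1],.ref k9 k0 [(z1,[y1,z0,z0,z1])],.contra [y1,z0,z1],.contra [z1],
    .ref k1 k0 [(z1,[y1,z0,z0,z1])],.contra [y1,z0,z1],.contra [z1],.contra [y1,y1,y1,z1],.contra [z1]]),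
    .old (.lp [k38,k42,k44,k44,k40,k30] [k3,k3,k1,k1,k0,k0,k0,k0,k2,k2,k7,k7] k0 [[k0,k0,k0,k0,k0,k0,k2],[k0,k0,k0,k0,k0,
    k8],[k0,k0,k0,k0,k0,k0,k0,k0,k2],[],[k8],[k0,k0,k0,k0,k0,k0,k0,k0,k0,k8],[],[k0,k2],[k0,k0,k0,k0,k8],[k0,k0,k0,
    k2]] k120 k5
    [[(k10,k34),(k1,k38)],[(k11,k34),(k9,k37),(k3,k40),(k5,k41),(k7,k49)],[(k4,k35),(k0,k40),(k8,k41),(k2,k42),(k6,
    k45)],[(k11,k34),(k9,k41),(k3,k42),(k5,k43),(k7,k43)],[(k0,k41),(k2,k43),(k4,k44),(k6,k44),(k8,k44)],[(k3,k35),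
    (k9,k42),(k5,k44),(k7,k44),(k11,k45)],[(k8,k34),(k2,k43),(k4,k44),(k6,k44),(k0,k49)],[(k11,k37),(k9,k42),(k5,k44),
    (k7,k44),(k3,k45)],[(k0,k37),(k8,k40),(k2,k41),(k4,k42),(k6,k42)],[(k7,k34),(k11,k35),(k9,k40),(k3,k41),(k5,k44)],
    [(k0,k34),(k2,k34),(k8,k35),(k6,k37),(k4,k45)],[(k10,k30),(k1,k34)]]
    [] k0
    [[k1,k0,k0,k0,k0,k1],[k1,k1,k0,k0,k0,k1],[k1,k0,k0,k0,k1,k1],[k0,k2,k0,k0,k0,k0],[k0,k1,k1,k0,k0,k0],[k0,k1,k0,k1,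
    k0,k0],[k0,k1,k0,k0,k1,k0],[k0,k0,k2,k0,k0,k0],[k0,k0,k1,k1,k0,k0],[k0,k0,k1,k0,k1,k0],[k0,k0,k0,k2,k0,k0],[k0,k0,
    k0,k1,k1,k0],[k0,k0,k0,k1,k2,k0],[k0,k0,k0,k0,k2,k0]]
    [.contra [y1,z1],.ref k3 k1 [(z1,[z1])],.ref k3 k0 [(z1,[z1])],.contra [z1],.contra [y1,y1,z1],.ref k9 k0 [(z1,
    [y1,z0,z1])],.contra [y1,y1,z1],.contra [z1],.ref k1 k0 [(z1,[y1,z0,z1])],.contra [y1,y1,z1],.contra [z1],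
    .ref k0 k1 [(z1,[y1,z0,z1])],.ref k12 k0 [(z1,[y1,z1]),(z1,[z0,y1,z1])],.contra [z1]]),
    .old (.lp [(nat_lit 510),(nat_lit 952),(nat_lit 850),(nat_lit 816),(nat_lit 510),(nat_lit 408)] [(nat_lit 221),
    (nat_lit 221),k0,k0,k51,k51,k68,k68,(nat_lit 221),(nat_lit 221),(nat_lit 272),(nat_lit 272)] k0 [[k0,k0,k0,k0,
    (nat_lit 240),k0,k102],[k0,k0,k0,(nat_lit 272),k0,k0,k0,k0,k0,k102],[(nat_lit 272)],[k0,k0,k0,k0,k0,k170],[k0,k0,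
    k170],[k0,(nat_lit 240)],[k0,k0,k0,k0,k0,k0,k0,k0,(nat_lit 204)],[k0,k102],[k102],[k0,k0,k0,k0,k0,k0,k0,
    (nat_lit 204)]] (nat_lit 2040) k6
    [[(k10,(nat_lit 459)),(k1,(nat_lit 510))],[(k9,(nat_lit 408)),(k7,(nat_lit 423)),(k11,(nat_lit 561)),(k3,
    (nat_lit 731)),(k5,(nat_lit 952))],[(k8,(nat_lit 629)),(k2,(nat_lit 680)),(k0,(nat_lit 731)),(k6,(nat_lit 986)),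
    (k4,(nat_lit 1141))],[(k3,(nat_lit 680)),(k11,(nat_lit 680)),(k9,(nat_lit 731)),(k5,(nat_lit 901)),(k7,
    (nat_lit 1054))],[(k4,(nat_lit 680)),(k8,(nat_lit 680)),(k6,(nat_lit 833)),(k2,(nat_lit 901)),(k0,(nat_lit 952))],
    [(k11,(nat_lit 629)),(k5,(nat_lit 680)),(k9,(nat_lit 680)),(k7,(nat_lit 833)),(k3,(nat_lit 1141))],[(k0,
    (nat_lit 423)),(k8,(nat_lit 663)),(k6,(nat_lit 816)),(k4,(nat_lit 833)),(k2,(nat_lit 1054))],[(k11,(nat_lit 408)),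
    (k9,(nat_lit 663)),(k7,(nat_lit 816)),(k5,(nat_lit 833)),(k3,(nat_lit 986))],[(k0,(nat_lit 408)),(k6,
    (nat_lit 663)),(k4,(nat_lit 680)),(k8,(nat_lit 714)),(k2,(nat_lit 731))],[(k11,(nat_lit 459)),(k3,(nat_lit 629)),
    (k7,(nat_lit 663)),(k5,(nat_lit 680)),(k9,(nat_lit 714))],[(k6,(nat_lit 408)),(k8,(nat_lit 459)),(k0,
    (nat_lit 561)),(k4,(nat_lit 629)),(k2,(nat_lit 680))],[(k10,(nat_lit 408)),(k1,(nat_lit 459))]]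
    [] k0
    [[k1,k0,k0,k0,k0,k1],[k1,k1,k0,k0,k0,k1],[k1,k0,k0,k1,k0,k1],[k1,k0,k0,k1,k1,k1],[k1,k0,k0,k0,k1,k1],[k0,k2,k0,k0,
    k0,k0],[k0,k1,k0,k0,k1,k0],[k0,k0,k2,k0,k0,k0],[k0,k0,k1,k1,k0,k0],[k0,k0,k1,k0,k1,k0],[k0,k0,k0,k2,k0,k0],[k0,k0,
    k0,k1,k1,k0],[k0,k0,k0,k0,k2,k0]]
    [.ref k2 k0 [(z1,[z1])],.ref k3 k1 [(z1,[z1])],.ref k13 k0 [(z1,[z1])],.ref k0 k0 [(z1,[z1])],.ref k3 k0 [(z1,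
    [z1])],.contra [z1],.ref k10 k0 [(z1,[y1,z1])],.contra [z1],.ref k1 k0 [(z1,[y1,z1])],.ref k9 k1 [(z1,[y1,z1])],
    .contra [z1],.ref k0 k1 [(z1,[y1,z1])],.contra [z1]])]⟩

/-- classes `0 0 0 0 0 1`, types `C0 C0 C0 C0 C2 C0` -/
noncomputable def cU6_55 : CertX :=
  ⟨[k4,k4,k4,k4,k6,k20],[(false,k0,[k0,k1,k2,k3,k4,k5])],[[[([z1,z0,z0,z1,z1,z1],z2)],[([z1,z0,z0,z0,z1,z1],z2)],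
    [([z1,z1,z0,z0,z1,z1],z2)],[]]],
    [.old (.leafM k0 [k0,k3,k4,k5] [] [(k1,k2,z1,[y1,z1]),(k2,k1,z1,[y1,z1])]),
    .old (.leafM k0 [k0,k1,k2,k3,k4,k5] [(z1,[y1,z1])] []),
    .old (.leafM k0 [k0,k1,k4,k5] [] [(k2,k3,z1,[y1,z1]),(k3,k2,z1,[y1,z1])]),
    .old (.lp [(nat_lit 2760),(nat_lit 4048),(nat_lit 4554),(nat_lit 7590),(nat_lit 2760),(nat_lit 2112)] [(nat_lit 2415),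
    (nat_lit 2415),(nat_lit 1771),(nat_lit 1771),(nat_lit 1518),(nat_lit 1518),k0,k0,(nat_lit 2415),(nat_lit 2415),
    (nat_lit 2739),(nat_lit 2739)] k0 [[],[],[],[k0,k0,k0,k0,k0,(nat_lit 506)],[k0,k0,
    (nat_lit 506)]] (nat_lit 12144) k6
    [[(k10,(nat_lit 2436))],[(k8,(nat_lit 2760)),(k9,(nat_lit 2760)),(k3,(nat_lit 3404)),(k5,(nat_lit 3657)),(k7,
    (nat_lit 5175))],[(k11,(nat_lit 3080)),(k0,(nat_lit 3404)),(k2,(nat_lit 4048)),(k4,(nat_lit 4301)),(k6,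
    (nat_lit 5819))],[(k8,(nat_lit 3404)),(k9,(nat_lit 3404)),(k3,(nat_lit 4048)),(k5,(nat_lit 4301)),(k7,
    (nat_lit 6325))],[(k11,(nat_lit 3333)),(k0,(nat_lit 3657)),(k4,(nat_lit 4048)),(k2,(nat_lit 4301)),(k6,
    (nat_lit 6072))],[(k8,(nat_lit 3657)),(k9,(nat_lit 3657)),(k5,(nat_lit 4048)),(k3,(nat_lit 4301)),(k7,
    (nat_lit 6072))],[(k11,(nat_lit 4851)),(k0,(nat_lit 5175)),(k4,(nat_lit 6072)),(k2,(nat_lit 6325)),(k6,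
    (nat_lit 7590))],[(k8,(nat_lit 5175)),(k9,(nat_lit 5175)),(k3,(nat_lit 5819)),(k5,(nat_lit 6072)),(k7,
    (nat_lit 7590))],[(k11,(nat_lit 2436)),(k0,(nat_lit 2760)),(k2,(nat_lit 3404)),(k4,(nat_lit 3657)),(k6,
    (nat_lit 5175))],[(k11,(nat_lit 2436)),(k0,(nat_lit 2760)),(k2,(nat_lit 3404)),(k4,(nat_lit 3657)),(k6,
    (nat_lit 5175))],[(k8,(nat_lit 2436)),(k9,(nat_lit 2436)),(k3,(nat_lit 3080)),(k5,(nat_lit 3333)),(k7,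
    (nat_lit 4851))],[(k1,(nat_lit 2436))]]
    [] k0
    [[k1,k1,k0,k0,k1,k1],[k1,k0,k0,k0,k1,k1],[k0,k2,k0,k0,k0,k0],[k0,k1,k1,k0,k0,k0],[k0,k0,k2,k0,k0,k0]]
    [.ref k2 k0 [(z1,[z1])],.ref k1 k0 [(z1,[z1])],.contra [z1],.ref k0 k0 [(z1,[y1,z1])],.contra [z1]])]⟩

/-- classes `0 0 0 0 0 1`, types `C0 C0 C0 C0 C2 S0` -/
noncomputable def cU6_56 : CertX :=
  ⟨[k4,k4,k4,k4,k6,k16],[(false,k0,[k0,k1,k2,k3,k4,k5])],[[[([z1,z1,z0,z0,z1,z1],z2)],[([z1,z0,z0,z1,z1,z1],z2)],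
    [([z1,z0,z0,z0,z1,z1],z2)],[([z2,z0,z0,z1,z0,y2],z0),([z0,z1,z0,z1,z0,z0],z2),([z0,z0,z2,y1,z0,z0],z0)],[([z1,z0,
    z1,z0,z0,y1],z0),([z0,z1,z0,z1,z0,z0],z2)],[([z2,z0,z0,z0,z1,z0],z2),([z0,z1,z0,z0,z1,z2],z2),([z0,z0,z2,z0,z1,
    z2],z2)],[([z2,z0,z0,z0,z1,z0],z2),([z0,z1,z0,z1,z0,z0],z2)],[([z1,z0,z1,z0,z1,z1],z2)],[]]],
    [.old (.leafM k0 [k0,k1,k4,k5] [] [(k2,k3,z1,[y1,z1]),(k3,k2,z1,[y1,z1])]),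
    .old (.leafM k0 [k0,k3,k4,k5] [] [(k1,k2,z1,[y1,z1]),(k2,k1,z1,[y1,z1])]),
    .old (.leafM k0 [k0,k1,k2,k3,k4,k5] [(z1,[y1,z1])] []),
    .old (.tor k29 false k0 [(z2,[y1,y2,y1,z2]),(z1,[z0,z1]),(z1,[z0,z1,z1]),(z2,[z1,y2,y1,z2])]),
    .old (.lp [k11,k22,k20,k30,k25,k11] [k10,k9,k4,k4,k5,k5,k0,k0,k5,k0,k9,k10] k0 [[k0,k0,k0,k0,k0,k0,k8],[k0,k0,k0,k0,
    k0,k4],[],[],[k4],[k0,k0,k0,k0,k0,k0,k0,k0,k1],[k0,k0,k0,k0,k0,k0,k0,k0,k0,k13],[k0,k8],[k0,k0,k0,k0,k0,k0,k0,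
    k13],[k0,k0,k0,k0,k1]] k60 k6
    [[(k1,k12),(k10,k12)],[(k9,k12),(k5,k15),(k8,k15),(k3,k16),(k7,k24)],[(k0,k16),(k11,k16),(k4,k17),(k2,k22),(k6,
    k34)],[(k5,k21),(k8,k21),(k3,k22),(k7,k26),(k9,k26)],[(k0,k15),(k11,k15),(k4,k20),(k2,k21),(k6,k25)],[(k3,k17),
    (k5,k20),(k8,k21),(k7,k25),(k9,k25)],[(k11,k19),(k0,k24),(k4,k25),(k2,k26),(k6,k30)],[(k8,k12),(k5,k25),(k7,k30),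
    (k9,k30),(k3,k34)],[(k0,k12),(k4,k25),(k2,k26),(k6,k30),(k11,k33)],[(k6,k12),(k0,k15),(k11,k15),(k2,k21),(k4,
    k21)],[(k5,k15),(k8,k15),(k3,k16),(k7,k19),(k9,k33)],[(k1,k12),(k10,k12)]]
    [] k0
    [[k2,k0,k0,k0,k1,k0],[k1,k0,k0,k1,k1,k1],[k1,k0,k0,k0,k1,k1],[k0,k2,k0,k0,k0,k0],[k0,k1,k1,k0,k0,k0],[k0,k1,k2,k0,
    k0,k0],[k0,k0,k2,k0,k0,k0],[k0,k0,k1,k1,k0,k0]]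
    [.contra [y1,z1,y1,z1],.ref k1 k0 [(z1,[z1])],.contra [y1,z0,y1,z1],.contra [z1],.ref k1 k0 [(z1,[y1,z0,z0,z1])],
    .ref k3 k0 [(z1,[y1,z2,z1]),(z1,[z0,z0,z1]),(z1,[z1,z0,y1])],.contra [z1],.ref k0 k0 [(z1,[y1,z0,z0,z1])]]),
    .old (.tor k28 false k0 [(z2,[y1,y2,z1,z2]),(z1,[z0,z1]),(z2,[y1,z0,y1,z2]),(z1,[z1])]),
    .old (.lp [k58,k119,k80,k120,k50,k52] [k66,k66,k71,k0,k55,k55,k35,k35,k65,k75,k71,k67] k0 [[k0,k0,k0,k0,k41,k0,k1],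
    [k0,k0,k0,k0,k0,k0,k0,k0,k75],[k0,k0,k0,k0,k0,k0,k0,k0,k0,k6],[k0,k0,k0,k0,k0,k0,k0,k4],[],[k0,k41],[k0,k0,k4],
    [k0,k1],[k0,k0,k0,k6],[k75]] (nat_lit 240) k6
    [[(k10,k53),(k1,k58)],[(k7,k48),(k9,k48),(k5,k69),(k3,k124),(k8,k134)],[(k11,k48),(k2,k119),(k0,k124),(k6,k156),
    (k4,k176)],[(k8,k48),(k9,k48),(k5,k64),(k7,k84),(k3,k119)],[(k2,k64),(k0,k69),(k11,k74),(k4,k80),(k6,k96)],[(k9,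
    k60),(k8,k70),(k5,k80),(k7,k100),(k3,k176)],[(k0,k48),(k2,k84),(k11,k88),(k4,k100),(k6,k120)],[(k9,k80),(k8,k90),
    (k5,k96),(k7,k120),(k3,k156)],[(k0,k48),(k2,k48),(k11,k48),(k4,k60),(k6,k80)],[(k2,k48),(k11,k58),(k4,k70),(k6,
    k90),(k0,k134)],[(k3,k48),(k9,k48),(k8,k58),(k5,k74),(k7,k88)],[(k10,k48),(k1,k53)]]
    [] k0
    [[k1,k1,k0,k0,k1,k1],[k1,k0,k0,k0,k1,k1],[k1,k0,k0,k1,k1,k1],[k0,k2,k0,k0,k0,k0],[k0,k1,k0,k0,k1,k2],[k0,k0,k2,k0,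
    k0,k0],[k0,k0,k1,k1,k0,k0],[k0,k0,k0,k0,k1,k2]]
    [.ref k0 k0 [(z1,[z1])],.contra [y1,z0,y1,z1],.ref k1 k0 [(z1,[z1])],.contra [z1],.ref k5 k0 [(z1,[z0,z1]),(z1,
    [z1]),(z1,[z0,y1,y2,z2])],.contra [z1],.ref k0 k0 [(z1,[y1,z0,z0,z1])],.contra [y1,y1,y2,z2]]),
    .old (.lp [k30,k74,k42,k44,k20,k28] [k22,k22,k0,k0,k16,k16,k15,k15,k27,k27,k23,k23] k0 [[k0,k0,k0,k0,k4],[],[k0,k0,k0,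
    k0,k0,k0,k0,k0,k0,k2],[k0,k0,k0,k0,k0,k2],[k0,k0,k2],[k0,k4],[],[],[k0,k0,k0,k2]] k120 k6
    [[(k10,k29),(k1,k30)],[(k8,k25),(k9,k25),(k7,k33),(k5,k36),(k3,k52)],[(k11,k51),(k0,k52),(k6,k59),(k4,k62),(k2,
    k74)],[(k8,k45),(k9,k47),(k5,k58),(k7,k61),(k3,k74)],[(k0,k36),(k11,k37),(k4,k40),(k6,k43),(k2,k58)],[(k8,k31),
    (k9,k31),(k5,k40),(k7,k43),(k3,k62)],[(k0,k33),(k11,k36),(k4,k43),(k6,k44),(k2,k61)],[(k8,k32),(k9,k32),(k5,k43),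
    (k7,k44),(k3,k59)],[(k11,k24),(k0,k25),(k4,k31),(k6,k32),(k2,k47)],[(k11,k24),(k0,k25),(k4,k31),(k6,k32),(k2,
    k45)],[(k8,k24),(k9,k24),(k7,k36),(k5,k37),(k3,k51)],[(k10,k28),(k1,k29)]]
    [] k0
    [[k2,k0,k0,k0,k1,k0],[k1,k0,k0,k0,k1,k1],[k1,k0,k0,k1,k1,k1],[k0,k0,k2,k0,k0,k0],[k0,k0,k1,k1,k0,k0],[k0,k0,k0,k2,
    k0,k0],[k0,k0,k0,k0,k1,k2]]
    [.ref k6 k0 [(z1,[z1]),(z1,[z0,y1,z1])],.contra [y1,z1],.ref k1 k0 [(z1,[z1])],.contra [z1],.ref k0 k0 [(z1,[y1,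
    z0,z1])],.contra [y1,y2,z2],.ref k4 k0 [(z1,[y1,z1]),(z1,[z0,y1,z1])]]),
    .old (.lp [k8,k8,k8,k8,k7,k8] [k0,k2,k1,k1,k2,k0,k1,k1,k2,k1,k1,k1] k0 [[k0,k0,k4],[k0,k0,k0,k0,k0,k0,k0,k1],[],[k0,
    k4],[k0,k0,k0,k0,k0,k0,k1],[],[k1,k0,k0,k0,k0,k0,k0,k0,k0,k1],[k0,k0,k0,k0,k0,k1],[k0,k0,k0,k0,k0,k0,k0,
    k1]] k24 k5
    [[(k1,k6),(k10,k7)],[(k5,k6),(k8,k8),(k3,k9),(k7,k9),(k9,k10)],[(k4,k7),(k6,k7),(k11,k8),(k0,k9),(k2,k12)],[(k8,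
    k7),(k7,k8),(k9,k8),(k5,k9),(k3,k12)],[(k0,k6),(k4,k8),(k2,k9),(k6,k9),(k11,k9)],[(k8,k6),(k9,k6),(k3,k7),(k7,k7),
    (k5,k8)],[(k4,k7),(k2,k8),(k11,k8),(k0,k9),(k6,k9)],[(k8,k6),(k3,k7),(k9,k8),(k5,k9),(k7,k9)],[(k4,k6),(k2,k8),
    (k6,k8),(k11,k9),(k0,k10)],[(k4,k6),(k6,k6),(k2,k7),(k11,k7),(k0,k8)],[(k8,k7),(k3,k8),(k7,k8),(k5,k9),(k9,k9)],
    [(k1,k7),(k10,k8)]]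
    [] k0
    [[k0,k1,k1,k0,k0,k0],[k0,k1,k0,k1,k0,k0],[k0,k1,k1,k1,k0,k0],[k0,k0,k2,k0,k0,k0],[k0,k0,k1,k1,k0,k0],[k0,k0,k0,k2,
    k0,k0]]
    [.ref k1 k0 [(z1,[y1,z1])],.ref k7 k0 [(z1,[y1,z1])],.ref k2 k0 [(z1,[y1,z1])],.contra [z1],.ref k0 k0 [(z1,[y1,
    z1])],.contra [z1]])]⟩

/-- classes `0 0 0 0 0 1`, types `C0 C0 C0 C2 C0 C0` -/
noncomputable def cU6_57 : CertX :=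
  ⟨[k4,k4,k4,k6,k4,k20],[(false,k0,[k0,k1,k2,k3,k4,k5])],[[[([z1,z1,z1,z0,z0,z1],z2)],[([z1,z0,z0,z1,z1,z1],z2)],
    [([z1,z0,z0,z0,z0,z1],z2)],[([z1,z1,z0,z0,z0,z1],z2)],[]]],
    [.old (.leafM k0 [k0,k1,k2,k5] [] [(k3,k4,z1,[y1,z1]),(k4,k3,z1,[y1,z1])]),
    .old (.leafM k0 [k0,k3,k4,k5] [] [(k1,k2,z1,[y1,z1]),(k2,k1,z1,[y1,z1])]),
    .old (.leafM k0 [k1,k2,k3,k4] [] [(k5,k0,z1,[z1]),(k0,k5,z1,[z1])]),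
    .old (.leafM k0 [k1,k2,k3,k4,k5,k0] [(z1,[y1,z1])] []),
    .old (.lp [k22,k18,k18,k12,k18,k6] [k0,k0,k2,k2,k2,k2,k5,k5,k2,k2,k8,k8] k0 [[],[k0,k0,k0,k2],[k2]] k48 k5
    [[(k10,k14)],[(k11,k14),(k6,k17),(k7,k17),(k3,k20),(k5,k22)],[(k2,k16),(k4,k18),(k8,k18),(k9,k18),(k0,k20)],[(k11,
    k12),(k6,k15),(k7,k15),(k3,k16),(k5,k18)],[(k2,k18),(k4,k18),(k8,k18),(k9,k18),(k0,k22)],[(k11,k12),(k6,k15),(k7,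
    k15),(k3,k18),(k5,k18)],[(k2,k15),(k4,k15),(k8,k15),(k9,k15),(k0,k17)],[(k2,k15),(k4,k15),(k8,k15),(k9,k15),(k0,
    k17)],[(k11,k12),(k6,k15),(k7,k15),(k3,k18),(k5,k18)],[(k11,k12),(k6,k15),(k7,k15),(k3,k18),(k5,k18)],[(k2,k12),
    (k4,k12),(k8,k12),(k9,k12),(k0,k14)],[(k1,k14)]]
    [] k0
    [[k1,k0,k0,k0,k0,k1],[k1,k1,k0,k0,k0,k1],[k0,k2,k0,k0,k0,k0],[k0,k1,k1,k0,k0,k0],[k0,k0,k2,k0,k0,k0],[k0,k0,k0,k1,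
    k1,k0]]
    [.ref k2 k0 [(z1,[z1])],.ref k3 k0 [(z1,[z1])],.contra [z1],.ref k1 k0 [(z1,[y1,z1])],.contra [z1],
    .ref k0 k0 [(z1,[y1,z1])]])]⟩

/-- classes `0 0 0 0 0 1`, types `C0 C0 C0 C2 C0 S0` -/
noncomputable def cU6_58 : CertX :=
  ⟨[k4,k4,k4,k6,k4,k16],[(false,k0,[k0,k1,k2,k3,k4,k5])],[[[([z1,z1,z1,z0,z0,z1],z2)],[([z1,z1,z0,z0,z0,z1],z2)],
    [([z1,z0,z0,z1,z1,z1],z2)],[([z1,z0,z0,z0,z0,z1],z2)],[([z2,z0,z0,z1,z0,z0],z2),([z0,z1,z0,z1,z0,y2],z0),([z0,z0,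
    z2,y1,z0,z2],z2)],[([z2,z0,z0,z1,z0,z0],z2),([z0,z1,z0,z1,z2,z2],z4)],[([z1,z0,y1,z1,z1,z1],z2)],[]]],
    [.old (.leafM k0 [k0,k1,k2,k5] [] [(k3,k4,z1,[y1,z1]),(k4,k3,z1,[y1,z1])]),
    .old (.leafM k0 [k1,k2,k3,k4,k5,k0] [(z1,[y1,z1])] []),
    .old (.leafM k0 [k0,k3,k4,k5] [] [(k1,k2,z1,[y1,z1]),(k2,k1,z1,[y1,z1])]),
    .old (.leafM k0 [k1,k2,k3,k4] [] [(k5,k0,z1,[z1]),(k0,k5,z1,[z1])]),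
    .old (.tor k25 false k0 [(z2,[y1,y2,y1,z2]),(z2,[y1,z0,y1,z2]),(z1,[z0,z1,z1]),(z1,[z1])]),
    .old (.lp [k8,k10,k8,k8,k6,k6] [k1,k1,k0,k0,k1,k1,k1,k1,k2,k2,k2,k2] k0 [[],[k0,k0,k0,k2],[k2]] k24 k5
    [[(k10,k7),(k1,k8)],[(k11,k7),(k6,k8),(k7,k8),(k3,k9),(k5,k10)],[(k2,k8),(k8,k8),(k9,k8),(k0,k9),(k4,k9)],[(k3,
    k8),(k11,k8),(k5,k9),(k6,k9),(k7,k9)],[(k8,k7),(k9,k7),(k4,k8),(k2,k9),(k0,k10)],[(k11,k7),(k5,k8),(k6,k8),(k7,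
    k8),(k3,k9)],[(k8,k7),(k9,k7),(k0,k8),(k4,k8),(k2,k9)],[(k8,k7),(k9,k7),(k0,k8),(k4,k8),(k2,k9)],[(k11,k6),(k5,
    k7),(k6,k7),(k7,k7),(k3,k8)],[(k11,k6),(k5,k7),(k6,k7),(k7,k7),(k3,k8)],[(k8,k6),(k9,k6),(k0,k7),(k4,k7),(k2,k8)],
    [(k10,k6),(k1,k7)]]
    [] k0
    [[k1,k0,k0,k0,k0,k1],[k0,k2,k0,k0,k0,k0],[k0,k1,k1,k0,k0,k0],[k0,k0,k2,k0,k0,k0],[k0,k0,k1,k1,k1,k0],[k0,k0,k0,k1,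
    k1,k0],[k0,k0,k0,k0,k1,k2]]
    [.ref k3 k0 [(z1,[z1])],.contra [z1],.contra [y1,y1,y1,z2],.contra [z1],.ref k1 k0 [(z1,[y1,z0,z0,z1])],
    .ref k0 k0 [(z1,[y1,z0,z0,z1])],.ref k4 k0 [(z1,[z0,z1]),(z1,[y2,z0,z1]),(z1,[z2,y1,y2,z2])]]),
    .old (.lp [k6,k10,k8,k6,k8,k8] [k2,k2,k0,k0,k1,k1,k2,k2,k1,k1,k1,k1] k0 [[],[k0,k0,k0,k2],[k2]] k24 k5
    [[(k1,k6),(k10,k7)],[(k6,k6),(k7,k6),(k11,k7),(k3,k8),(k5,k9)],[(k0,k8),(k2,k8),(k4,k9),(k8,k9),(k9,k9)],[(k3,k8),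
    (k6,k8),(k7,k8),(k5,k9),(k11,k9)],[(k4,k8),(k8,k8),(k9,k8),(k0,k9),(k2,k9)],[(k6,k7),(k7,k7),(k5,k8),(k11,k8),(k3,
    k9)],[(k0,k6),(k4,k7),(k8,k7),(k9,k7),(k2,k8)],[(k0,k6),(k4,k7),(k8,k7),(k9,k7),(k2,k8)],[(k6,k7),(k7,k7),(k5,k8),
    (k11,k8),(k3,k9)],[(k6,k7),(k7,k7),(k5,k8),(k11,k8),(k3,k9)],[(k0,k7),(k4,k8),(k8,k8),(k9,k8),(k2,k9)],[(k1,k7),
    (k10,k8)]]
    [] k0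
    [[k2,k0,k0,k1,k0,k0],[k1,k0,k0,k0,k0,k1],[k0,k2,k0,k0,k0,k0],[k0,k1,k1,k0,k0,k0],[k0,k0,k2,k0,k0,k0],[k0,k0,k1,k1,
    k1,k0],[k0,k0,k0,k1,k1,k0]]
    [.ref k5 k0 [(z1,[z1]),(z1,[y1,z1,z1])],.ref k3 k0 [(z1,[z1])],.contra [z1],.contra [y1,y1,z1],.contra [z1],
    .ref k1 k0 [(z1,[y1,z0,z1])],.ref k0 k0 [(z1,[y1,z0,z1])]]),
    .old (.lp [k12,k20,k16,k18,k8,k20] [k6,k6,k4,k0,k4,k4,k3,k3,k8,k8,k2,k2] k0 [[k0,k0,k0,k0,k0,k0,k0,k2,k2],[k0,k0,k0,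
    k0,k0,k8],[],[],[k8],[],[k0,k2],[],[],[k0,k2]] k48 k5
    [[(k1,k12),(k10,k16)],[(k6,k13),(k5,k14),(k11,k14),(k3,k18),(k7,k23)],[(k4,k12),(k0,k18),(k8,k18),(k9,k18),(k2,
    k20)],[(k5,k16),(k6,k17),(k7,k17),(k11,k18),(k3,k20)],[(k8,k12),(k9,k12),(k0,k14),(k2,k16),(k4,k16)],[(k3,k12),
    (k5,k16),(k6,k17),(k7,k17),(k11,k18)],[(k8,k13),(k9,k13),(k2,k17),(k4,k17),(k0,k23)],[(k0,k13),(k8,k13),(k9,k13),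
    (k2,k17),(k4,k17)],[(k5,k12),(k6,k13),(k7,k13),(k11,k14),(k3,k18)],[(k5,k12),(k6,k13),(k7,k13),(k11,k14),(k3,
    k18)],[(k0,k14),(k8,k14),(k9,k14),(k2,k18),(k4,k18)],[(k1,k16),(k10,k20)]]
    [] k0
    [[k1,k0,k0,k0,k0,k1],[k0,k2,k0,k0,k0,k0],[k0,k1,k1,k0,k0,k0],[k0,k1,k2,k0,k0,k0],[k0,k0,k2,k0,k0,k0],[k0,k0,k1,k1,
    k1,k0],[k0,k0,k0,k1,k1,k0]]
    [.ref k3 k0 [(z1,[z1])],.contra [z1],.ref k2 k0 [(z1,[y1,z1])],.ref k6 k0 [(z1,[y1,z1])],.contra [z1],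
    .ref k1 k0 [(z1,[y1,z1])],.ref k0 k0 [(z1,[y1,z1])]])]⟩

/-- classes `0 0 0 0 0 1`, types `C0 C0 C0 C2 C2 C0` -/
noncomputable def cU6_59 : CertX :=
  ⟨[k4,k4,k4,k6,k6,k20],[(false,k0,[k0,k1,k2,k3,k4,k5])],[[[([z1,z1,z0,z1,z0,z1],z2)],[([z1,z0,z1,z1,z0,z1],z2)],
    [([z1,z0,z0,z1,z1,z1],z2)],[([z1,z0,z0,z1,z0,z1],z2)],[]]],
    [.old (.leafM k1 [k5,k0,k1,k3] [] [(k2,k4,z1,[y1,z1]),(k4,k2,z1,[y1,z1])]),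
    .old (.leafM k2 [k2,k3,k5,k0] [] [(k4,k1,z1,[y1,z1]),(k1,k4,z1,[y1,z1])]),
    .old (.leafM k0 [k0,k3,k4,k5] [] [(k1,k2,z1,[y1,z1]),(k2,k1,z1,[y1,z1])]),
    .old (.leafM k3 [k2,k3,k4,k5,k0,k1] [(z1,[z1])] []),
    .old (.lp [k6,k8,k8,k6,k12,k6] [k3,k3,k2,k2,k2,k2,k3,k3,k0,k0,k3,k3] k0 [] k24 k5
    [[(k10,k6)],[(k6,k6),(k7,k6),(k3,k7),(k5,k7),(k8,k9)],[(k0,k7),(k11,k7),(k2,k8),(k4,k8),(k9,k10)],[(k6,k7),(k7,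
    k7),(k3,k8),(k5,k8),(k8,k10)],[(k0,k7),(k11,k7),(k2,k8),(k4,k8),(k9,k10)],[(k6,k7),(k7,k7),(k3,k8),(k5,k8),(k8,
    k10)],[(k0,k6),(k11,k6),(k2,k7),(k4,k7),(k9,k9)],[(k0,k6),(k11,k6),(k2,k7),(k4,k7),(k9,k9)],[(k6,k9),(k7,k9),(k3,
    k10),(k5,k10),(k8,k12)],[(k0,k9),(k11,k9),(k2,k10),(k4,k10),(k9,k12)],[(k6,k6),(k7,k6),(k3,k7),(k5,k7),(k8,k9)],
    [(k1,k6)]]
    [] k0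
    [[k1,k0,k0,k1,k0,k1],[k0,k2,k0,k0,k0,k0],[k0,k1,k1,k0,k0,k0],[k0,k1,k0,k0,k1,k0],[k0,k0,k2,k0,k0,k0],[k0,k0,k1,k0,
    k1,k0]]
    [.ref k3 k0 [(z1,[z1])],.contra [z1],.ref k2 k0 [(z1,[y1,z1])],.ref k1 k0 [(z1,[y1,z1])],.contra [z1],
    .ref k0 k0 [(z1,[y1,z1])]])]⟩

/-- classes `0 0 0 0 0 1`, types `C0 C0 C0 C2 C2 S0` -/
noncomputable def cU6_60 : CertX :=
  ⟨[k4,k4,k4,k6,k6,k16],[(false,k0,[k0,k1,k2,k3,k4,k5])],[[[([z1,z1,z0,z1,z0,z1],z2)],[([z1,z0,z1,z1,z0,z1],z2)],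
    [([z1,z0,z0,z1,z1,z1],z2)],[([z1,z0,z0,z1,z0,z1],z2)],[]]],
    [.old (.leafM k1 [k5,k0,k1,k3] [] [(k2,k4,z1,[y1,z1]),(k4,k2,z1,[y1,z1])]),
    .old (.leafM k2 [k2,k3,k5,k0] [] [(k4,k1,z1,[y1,z1]),(k1,k4,z1,[y1,z1])]),
    .old (.leafM k0 [k0,k3,k4,k5] [] [(k1,k2,z1,[y1,z1]),(k2,k1,z1,[y1,z1])]),
    .old (.leafM k3 [k2,k3,k4,k5,k0,k1] [(z1,[z1])] []),
    .old (.lp [k72,k84,k84,k84,k80,k74] [k12,k24,k12,k12,k24,k0,k24,k0,k14,k14,k17,k17] k0 [[k0,k0,k36],[k0,k0,k0,k0,k0,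
    k12],[k0,k0,k0,k0,k36,k0,k0,k4],[k0,k36],[k12,k0,k0,k0,k0,k0,k0,k0,k0,k8],[k0,k0,k0,k36],[k0,k0,k0,k4],[],[k0,k0,
    k0,k0,k0,k8]] (nat_lit 240) k5
    [[(k1,k60),(k10,k67)],[(k5,k60),(k6,k72),(k8,k82),(k3,k84),(k7,k108)],[(k4,k60),(k11,k79),(k9,k82),(k0,k84),(k2,
    k120)],[(k7,k60),(k6,k68),(k8,k82),(k5,k96),(k3,k120)],[(k0,k60),(k11,k91),(k2,k96),(k9,k98),(k4,k120)],[(k3,k60),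
    (k6,k60),(k8,k62),(k7,k84),(k5,k120)],[(k2,k60),(k4,k84),(k9,k94),(k11,k99),(k0,k108)],[(k4,k60),(k11,k67),(k2,
    k68),(k9,k70),(k0,k72)],[(k6,k70),(k8,k80),(k3,k82),(k7,k94),(k5,k98)],[(k4,k62),(k11,k77),(k9,k80),(k0,k82),(k2,
    k82)],[(k6,k67),(k8,k77),(k3,k79),(k5,k91),(k7,k99)],[(k1,k67),(k10,k74)]]
    [] k0
    [[k1,k0,k0,k1,k0,k1],[k0,k1,k1,k0,k0,k0],[k0,k1,k0,k0,k1,k0],[k0,k0,k1,k0,k1,k0],[k0,k0,k0,k0,k2,k0]]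
    [.ref k3 k0 [(z1,[z1])],.ref k2 k0 [(z1,[y1,z1])],.ref k1 k0 [(z1,[y1,z1])],.ref k0 k0 [(z1,[y1,z1])],
    .contra [z1]])]⟩

/-- classes `0 0 0 0 0 1`, types `C0 C0 C2 C0 C0 C0` -/
noncomputable def cU6_61 : CertX :=
  ⟨[k4,k4,k6,k4,k4,k20],[(false,k0,[k0,k1,k2,k3,k4,k5]),(true,k5,[k5,k4,k3,k2,k1,k0])],[[[([z1,z1,z0,z0,z1,z1],z2)],
    [([z1,z0,z0,z0,z0,z1],z2)],[([z1,z0,z0,z0,z1,z1],z2)],[([z1,z0,z0,z0,z0,z1],z1),([z0,z1,z0,z0,z1,z0],z2)],[([z1,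
    z0,z1,z1,z0,z1],z2)],[]]],
    [.old (.leafM k0 [k0,k1,k4,k5] [] [(k2,k3,z1,[y1,z1]),(k3,k2,z1,[y1,z1])]),
    .old (.leafM k0 [k1,k2,k3,k4] [] [(k5,k0,z1,[z1]),(k0,k5,z1,[z1])]),
    .old (.leafM k0 [k0,k1,k2,k3,k4,k5] [(z1,[y1,z1])] []),
    .old (.leafM k4 [k0,k2,k3,k5] [(z1,[y1,y1,z1])] [(k1,k4,z1,[z0,z1]),(k4,k1,z1,[z0,z1])]),
    .old (.lp [k110,k110,k0,k130,k120,k0] [k10,k10,k10,k10,k65,k65,k0,k0,k5,k5,k69,k61] k0 [[k0,k0,k0,k0,k0,k0,k0,k0,k10],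
    [],[],[],[],[],[],[],[],[k0,k10]] (nat_lit 240) k6
    [[(k10,k51)],[(k11,k49),(k4,k55),(k5,k55),(k3,k110),(k9,k115)],[(k0,k110),(k2,k110),(k6,k120),(k7,k120),(k8,
    k125)],[(k4,k55),(k5,k55),(k11,k59),(k3,k110),(k9,k115)],[(k0,k55),(k2,k55),(k8,k60),(k6,k65),(k7,k65)],[(k0,k55),
    (k2,k55),(k8,k60),(k6,k65),(k7,k65)],[(k4,k65),(k5,k65),(k11,k69),(k3,k120),(k9,k125)],[(k4,k65),(k5,k65),(k11,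
    k69),(k3,k120),(k9,k125)],[(k0,k115),(k2,k115),(k8,k120),(k6,k125),(k7,k125)],[(k4,k60),(k5,k60),(k11,k64),(k9,
    k120),(k3,k125)],[(k0,k49),(k2,k59),(k8,k64),(k6,k69),(k7,k69)],[(k1,k51)]]
    [] k0
    [[k1,k0,k0,k0,k0,k1],[k2,k0,k0,k0,k0,k2],[k1,k1,k0,k0,k0,k1],[k1,k0,k0,k0,k1,k1],[k0,k2,k0,k0,k0,k0],[k0,k0,k1,k1,
    k0,k0]]
    [.contra [y1,z1],.ref k3 k0 [(z2,[z1]),(z1,[z0,y1,z1])],.ref k2 k1 [(z1,[z1])],.ref k2 k0 [(z1,[z1])],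
    .contra [z1],.contra [y1,z1]]),
    .old (.lp [k8,k10,k8,k8,k8,k4] [k1,k1,k0,k0,k1,k1,k1,k1,k1,k1,k3,k3] k0 [[k0,k0,k2],[],[],[k0,k2]] k24 k5
    [[(k10,k6)],[(k5,k6),(k11,k6),(k4,k8),(k9,k8),(k3,k9)],[(k0,k9),(k6,k9),(k7,k9),(k8,k9),(k2,k12)],[(k11,k7),(k4,
    k9),(k5,k9),(k9,k9),(k3,k12)],[(k0,k6),(k6,k8),(k7,k8),(k8,k8),(k2,k9)],[(k0,k8),(k6,k8),(k7,k8),(k8,k8),(k2,k9)],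
    [(k11,k6),(k4,k8),(k5,k8),(k9,k8),(k3,k9)],[(k11,k6),(k4,k8),(k5,k8),(k9,k8),(k3,k9)],[(k0,k8),(k6,k8),(k7,k8),
    (k8,k8),(k2,k9)],[(k11,k6),(k4,k8),(k5,k8),(k9,k8),(k3,k9)],[(k0,k6),(k6,k6),(k7,k6),(k8,k6),(k2,k7)],[(k1,k6)]]
    [] k0
    [[k1,k0,k0,k0,k0,k1],[k1,k1,k0,k0,k0,k1],[k1,k0,k0,k0,k1,k1],[k0,k1,k0,k0,k1,k0],[k0,k0,k1,k1,k0,k0],[k0,k0,k0,k0,
    k2,k0]]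
    [.ref k1 k0 [(z1,[z1])],.ref k2 k1 [(z1,[z1])],.ref k2 k0 [(z1,[z1])],.ref k4 k0 [(z1,[y1,z1])],.ref k0 k0 [(z1,
    [y1,z1])],.contra [z1]])]⟩

/-- classes `0 0 0 0 0 1`, types `C0 C0 C2 C0 C0 S0` -/
noncomputable def cU6_62 : CertX :=
  ⟨[k4,k4,k6,k4,k4,k16],[(false,k0,[k0,k1,k2,k3,k4,k5]),(true,k5,[k5,k4,k3,k2,k1,k0])],[[[([z1,z1,z0,z0,z1,z1],z2)],
    [([z1,z0,z0,z0,z1,z1],z2)],[([z1,z0,z0,z0,z0,z1],z2)],[([z1,z0,z0,z0,z0,z1],z1),([z0,z1,z0,z0,z1,z0],z2)],[([z1,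
    z0,z1,z1,z0,z1],z2)],[]]],
    [.old (.leafM k0 [k0,k1,k4,k5] [] [(k2,k3,z1,[y1,z1]),(k3,k2,z1,[y1,z1])]),
    .old (.leafM k0 [k0,k1,k2,k3,k4,k5] [(z1,[y1,z1])] []),
    .old (.leafM k0 [k1,k2,k3,k4] [] [(k5,k0,z1,[z1]),(k0,k5,z1,[z1])]),
    .old (.leafM k4 [k0,k2,k3,k5] [(z1,[y1,y1,z1])] [(k1,k4,z1,[z0,z1]),(k4,k1,z1,[z0,z1])]),
    .old (.lp [k40,k110,k130,k0,k100,k90] [k62,k54,k23,k23,k0,k26,k76,k80,k28,k28,k54,k12] k0 [[k0,k0,k0,k0,k0,k0,k0,k0,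
    k30],[k0,k0,k0,k30],[k30],[],[k0,k0,k0,k0,k0,k0,k0,k0,k0,k80],[],[k0,k0,k0,k0,k0,k0,k0,k0,k20],[],[k0,k0,k0,k0,k0,
    k80],[k0,k30,k0,k0,k0,k0,k0,k20]] (nat_lit 240) k6
    [[(k1,k48),(k10,k48)],[(k11,k52),(k9,k66),(k3,k71),(k4,k94),(k5,k98)],[(k7,k53),(k6,k57),(k0,k71),(k2,k80),(k8,
    k135)],[(k3,k80),(k9,k105),(k5,k107),(k11,k121),(k4,k133)],[(k7,k50),(k6,k54),(k0,k98),(k8,k102),(k2,k107)],[(k8,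
    k48),(k7,k76),(k6,k80),(k0,k94),(k2,k133)],[(k9,k48),(k5,k50),(k3,k53),(k4,k76),(k11,k144)],[(k11,k48),(k9,k52),
    (k5,k54),(k3,k57),(k4,k80)],[(k7,k48),(k6,k52),(k0,k66),(k2,k105),(k8,k120)],[(k4,k48),(k5,k102),(k11,k116),(k9,
    k120),(k3,k135)],[(k6,k48),(k0,k52),(k8,k116),(k2,k121),(k7,k144)],[(k1,k48),(k10,k48)]]
    [] k0
    [[k2,k0,k0,k0,k0,k2],[k1,k0,k0,k0,k0,k1],[k1,k0,k0,k0,k1,k1],[k0,k2,k0,k0,k0,k0],[k0,k0,k1,k1,k0,k0],[k0,k0,k1,k1,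
    k1,k0]]
    [.ref k3 k0 [(z2,[z1]),(z1,[z0,y1,z1])],.contra [y1,z1],.ref k1 k0 [(z1,[z1])],.contra [z1],.contra [y1,z1],
    .ref k1 k1 [(z1,[y1,z0,z1])]]),
    .old (.lp [k36,k40,k44,k40,k35,k44] [k11,k11,k9,k9,k1,k13,k3,k15,k10,k13,k14,k0] k0 [[k0,k0,k0,k0,k0,k0,k0,k0,k5],[k0,
    k0,k0,k0,k4],[],[],[k0,k0,k0,k0,k0,k0,k0,k0,k0,k17],[k4],[k0,k0,k0,k0,k0,k0,k0,k0,k25],[],[k0,k0,k0,k0,k0,k17],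
    [k0,k5,k0,k0,k0,k0,k0,k25]] k120 k5
    [[(k10,k33),(k1,k36)],[(k5,k34),(k9,k34),(k3,k38),(k11,k42),(k4,k50)],[(k7,k30),(k0,k38),(k2,k40),(k8,k44),(k6,
    k46)],[(k5,k36),(k9,k36),(k3,k40),(k4,k48),(k11,k49)],[(k7,k30),(k0,k34),(k8,k35),(k2,k36),(k6,k42)],[(k8,k30),
    (k7,k42),(k2,k48),(k0,k50),(k6,k54)],[(k3,k30),(k5,k30),(k9,k30),(k4,k42),(k11,k60)],[(k11,k30),(k5,k42),(k9,k42),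
    (k3,k46),(k4,k54)],[(k7,k30),(k0,k34),(k2,k36),(k6,k42),(k8,k60)],[(k4,k30),(k5,k35),(k3,k44),(k11,k48),(k9,k60)],
    [(k6,k30),(k0,k42),(k8,k48),(k2,k49),(k7,k60)],[(k10,k30),(k1,k33)]]
    [] k0
    [[k1,k0,k0,k0,k0,k1],[k1,k0,k0,k0,k1,k1],[k0,k2,k0,k0,k0,k0],[k0,k1,k0,k0,k1,k0],[k0,k0,k1,k1,k0,k0],[k0,k0,k1,k1,
    k1,k0]]
    [.ref k2 k0 [(z1,[z1])],.ref k1 k0 [(z1,[z1])],.contra [z1],.ref k4 k0 [(z1,[y1,z1])],.ref k0 k0 [(z1,[y1,z1])],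
    .ref k1 k1 [(z1,[y1,z1])]])]⟩

/-- classes `0 0 0 0 0 1`, types `C0 C0 C2 C0 C2 C0` -/
noncomputable def cU6_63 : CertX :=
  ⟨[k4,k4,k6,k4,k6,k20],[(false,k0,[k0,k1,k2,k3,k4,k5])],[[[([z1,z1,z1,z0,z0,z1],z2)],[([z1,z1,z0,z0,z1,z1],z2)],
    [([z1,z0,z0,z0,z1,z1],z2)],[([z1,z0,z1,z0,z0,z1],z2)],[]]],
    [.old (.leafM k0 [k0,k1,k2,k5] [] [(k3,k4,z1,[y1,z1]),(k4,k3,z1,[y1,z1])]),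
    .old (.leafM k0 [k0,k1,k4,k5] [] [(k2,k3,z1,[y1,z1]),(k3,k2,z1,[y1,z1])]),
    .old (.leafM k0 [k0,k1,k2,k3,k4,k5] [(z1,[y1,z1])] []),
    .old (.leafM k3 [k0,k1,k2,k3,k4,k5] [(z1,[y1,z1])] []),
    .old (.lp [k10,k10,k6,k6,k8,k6] [k0,k0,k0,k0,k2,k2,k2,k2,k1,k1,k2,k2] k0 [[k0,k0,k2],[],[],[k0,k2]] k24 k5
    [[(k10,k8)],[(k5,k6),(k4,k8),(k8,k9),(k9,k9),(k3,k10)],[(k6,k8),(k7,k8),(k11,k8),(k0,k10),(k2,k12)],[(k4,k8),(k5,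
    k8),(k8,k9),(k9,k9),(k3,k12)],[(k0,k6),(k6,k6),(k7,k6),(k11,k6),(k2,k8)],[(k6,k6),(k7,k6),(k11,k6),(k0,k8),(k2,
    k8)],[(k4,k6),(k5,k6),(k8,k7),(k9,k7),(k3,k8)],[(k4,k6),(k5,k6),(k8,k7),(k9,k7),(k3,k8)],[(k6,k7),(k7,k7),(k11,
    k7),(k0,k9),(k2,k9)],[(k6,k7),(k7,k7),(k11,k7),(k0,k9),(k2,k9)],[(k4,k6),(k5,k6),(k8,k7),(k9,k7),(k3,k8)],[(k1,
    k8)]]
    [] k0
    [[k1,k0,k1,k0,k0,k1],[k0,k1,k1,k1,k0,k0],[k0,k0,k1,k1,k0,k0],[k0,k0,k0,k1,k1,k0]]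
    [.ref k3 k0 [(z1,[z1])],.ref k2 k0 [(z1,[y1,z1])],.ref k1 k0 [(z1,[y1,z1])],.ref k0 k0 [(z1,[y1,z1])]])]⟩

/-- classes `0 0 0 0 0 1`, types `C0 C0 C2 C0 C2 S0` -/
noncomputable def cU6_64 : CertX :=
  ⟨[k4,k4,k6,k4,k6,k16],[(false,k0,[k0,k1,k2,k3,k4,k5])],[[[([z1,z1,z1,z0,z0,z1],z2)],[([z1,z1,z0,z0,z1,z1],z2)],
    [([z1,z0,z1,z0,z0,z1],z2)],[([z1,z0,z0,z0,z1,z1],z2)],[]]],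
    [.old (.leafM k0 [k0,k1,k2,k5] [] [(k3,k4,z1,[y1,z1]),(k4,k3,z1,[y1,z1])]),
    .old (.leafM k0 [k0,k1,k4,k5] [] [(k2,k3,z1,[y1,z1]),(k3,k2,z1,[y1,z1])]),
    .old (.leafM k3 [k0,k1,k2,k3,k4,k5] [(z1,[y1,z1])] []),
    .old (.leafM k0 [k0,k1,k2,k3,k4,k5] [(z1,[y1,z1])] []),
    .old (.lp [k10,k8,k4,k8,k4,k10] [k0,k0,k1,k1,k3,k3,k1,k1,k3,k3,k0,k0] k0 [] k24 k5
    [[(k1,k10),(k10,k10)],[(k4,k7),(k5,k7),(k8,k7),(k9,k7),(k3,k9)],[(k2,k8),(k6,k8),(k7,k8),(k0,k9),(k11,k9)],[(k4,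
    k6),(k5,k6),(k8,k6),(k9,k6),(k3,k8)],[(k2,k6),(k6,k6),(k7,k6),(k0,k7),(k11,k7)],[(k2,k6),(k6,k6),(k7,k6),(k0,k7),
    (k11,k7)],[(k4,k6),(k5,k6),(k8,k6),(k9,k6),(k3,k8)],[(k4,k6),(k5,k6),(k8,k6),(k9,k6),(k3,k8)],[(k2,k6),(k6,k6),
    (k7,k6),(k0,k7),(k11,k7)],[(k2,k6),(k6,k6),(k7,k6),(k0,k7),(k11,k7)],[(k4,k7),(k5,k7),(k8,k7),(k9,k7),(k3,k9)],
    [(k1,k10),(k10,k10)]]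
    [] k0
    [[k0,k2,k0,k0,k0,k0],[k0,k1,k1,k1,k0,k0],[k0,k1,k0,k1,k1,k0],[k0,k0,k1,k1,k0,k0],[k0,k0,k0,k1,k1,k0]]
    [.contra [z1],.ref k3 k0 [(z1,[y1,z1])],.ref k2 k0 [(z1,[y1,z1])],.ref k1 k0 [(z1,[y1,z1])],.ref k0 k0 [(z1,[y1,
    z1])]])]⟩

/-- classes `0 0 0 0 0 1`, types `C0 C0 C2 C2 C0 C0` -/
noncomputable def cU6_65 : CertX :=
  ⟨[k4,k4,k6,k6,k4,k20],[(false,k0,[k0,k1,k2,k3,k4,k5])],[[[([z1,z1,z0,z1,z0,z1],z2)],[([z1,z0,z1,z0,z1,z1],z2)],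
    [([z1,z0,z0,z0,z0,z1],z2)],[([z1,z0,z0,z1,z0,z1],z2)],[([z1,z1,z0,z0,z0,z1],z2)],[]]],
    [.old (.leafM k1 [k5,k0,k1,k3] [] [(k2,k4,z1,[y1,z1]),(k4,k2,z1,[y1,z1])]),
    .old (.leafM k1 [k4,k5,k0,k2] [] [(k1,k3,z1,[y1,z1]),(k3,k1,z1,[y1,z1])]),
    .old (.leafM k0 [k1,k2,k3,k4] [] [(k5,k0,z1,[z1]),(k0,k5,z1,[z1])]),
    .old (.leafM k3 [k2,k3,k4,k5,k0,k1] [(z1,[z1])] []),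
    .old (.leafM k0 [k1,k2,k3,k4,k5,k0] [(z1,[y1,z1])] []),
    .old (.lp [k8,k10,k8,k8,k8,k4] [k1,k1,k0,k0,k1,k1,k1,k1,k1,k1,k3,k3] k0 [[k0,k0,k2],[],[],[k0,k2]] k24 k5
    [[(k10,k6)],[(k5,k6),(k11,k6),(k4,k8),(k6,k8),(k3,k9)],[(k0,k9),(k7,k9),(k8,k9),(k9,k9),(k2,k12)],[(k11,k7),(k4,
    k9),(k5,k9),(k6,k9),(k3,k12)],[(k0,k6),(k7,k8),(k8,k8),(k9,k8),(k2,k9)],[(k0,k8),(k7,k8),(k8,k8),(k9,k8),(k2,k9)],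
    [(k11,k6),(k4,k8),(k5,k8),(k6,k8),(k3,k9)],[(k0,k8),(k7,k8),(k8,k8),(k9,k8),(k2,k9)],[(k11,k6),(k4,k8),(k5,k8),
    (k6,k8),(k3,k9)],[(k11,k6),(k4,k8),(k5,k8),(k6,k8),(k3,k9)],[(k0,k6),(k7,k6),(k8,k6),(k9,k6),(k2,k7)],[(k1,k6)]]
    [] k0
    [[k1,k0,k0,k0,k0,k1],[k1,k1,k0,k0,k0,k1],[k1,k0,k0,k1,k0,k1],[k0,k1,k0,k1,k0,k0],[k0,k0,k1,k0,k1,k0],[k0,k0,k0,k2,
    k0,k0]]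
    [.ref k2 k0 [(z1,[z1])],.ref k4 k0 [(z1,[z1])],.ref k3 k0 [(z1,[z1])],.ref k1 k0 [(z1,[y1,z1])],.ref k0 k0 [(z1,
    [y1,z1])],.contra [z1]])]⟩

/-- classes `0 0 0 0 0 1`, types `C0 C0 C2 C2 C0 S0` -/
noncomputable def cU6_66 : CertX :=
  ⟨[k4,k4,k6,k6,k4,k16],[(false,k0,[k0,k1,k2,k3,k4,k5])],[[[([z1,z1,z0,z1,z0,z1],z2)],[([z1,z1,z0,z0,z0,z1],z2)],
    [([z1,z0,z1,z0,z1,z1],z2)],[([z1,z0,z0,z0,z0,z1],z2)],[([z1,z0,z0,z1,z0,z1],z2)],[]]],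
    [.old (.leafM k1 [k5,k0,k1,k3] [] [(k2,k4,z1,[y1,z1]),(k4,k2,z1,[y1,z1])]),
    .old (.leafM k0 [k1,k2,k3,k4,k5,k0] [(z1,[y1,z1])] []),
    .old (.leafM k1 [k4,k5,k0,k2] [] [(k1,k3,z1,[y1,z1]),(k3,k1,z1,[y1,z1])]),
    .old (.leafM k0 [k1,k2,k3,k4] [] [(k5,k0,z1,[z1]),(k0,k5,z1,[z1])]),
    .old (.leafM k3 [k2,k3,k4,k5,k0,k1] [(z1,[z1])] []),
    .old (.lp [k16,k24,k8,k16,k16,k14] [k4,k4,k0,k0,k8,k8,k4,k4,k4,k4,k5,k5] k0 [[],[k0,k0,k0,k0,k8],[],[],[],[k8],[k0,k0,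
    k0,k0,k0,k0,k0,k0,k0,k4],[],[k0,k0,k0,k0,k0,k0,k0,k4]] k48 k5
    [[(k10,k15),(k1,k16)],[(k5,k12),(k11,k15),(k6,k16),(k3,k20),(k4,k20)],[(k7,k12),(k0,k20),(k8,k20),(k9,k20),(k2,
    k24)],[(k4,k16),(k5,k16),(k11,k19),(k6,k20),(k3,k24)],[(k0,k12),(k7,k12),(k8,k12),(k9,k12),(k2,k16)],[(k7,k12),
    (k8,k12),(k9,k12),(k2,k16),(k0,k20)],[(k3,k12),(k4,k12),(k5,k12),(k11,k15),(k6,k16)],[(k8,k12),(k0,k16),(k7,k16),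
    (k9,k16),(k2,k20)],[(k4,k12),(k5,k12),(k6,k16),(k11,k19),(k3,k20)],[(k4,k12),(k5,k12),(k6,k12),(k11,k15),(k3,
    k20)],[(k0,k15),(k7,k15),(k8,k15),(k2,k19),(k9,k19)],[(k10,k14),(k1,k15)]]
    [] k0
    [[k1,k0,k0,k0,k0,k1],[k1,k0,k0,k1,k0,k1],[k0,k1,k0,k1,k0,k0],[k0,k0,k1,k1,k1,k0],[k0,k0,k1,k0,k1,k0],[k0,k0,k0,k2,
    k0,k0]]
    [.ref k3 k0 [(z1,[z1])],.ref k4 k0 [(z1,[z1])],.ref k2 k0 [(z1,[y1,z1])],.ref k1 k0 [(z1,[y1,z1])],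
    .ref k0 k0 [(z1,[y1,z1])],.contra [z1]])]⟩

/-- classes `0 0 0 0 0 1`, types `C0 C2 C0 C0 C2 C0` -/
noncomputable def cU6_67 : CertX :=
  ⟨[k4,k6,k4,k4,k6,k20],[(false,k0,[k0,k1,k2,k3,k4,k5])],[[[([z1,z1,z0,z1,z0,z1],z2)],[([z1,z0,z0,z1,z1,z1],z2)],
    [([z1,z0,z0,z0,z1,z1],z2)],[([z1,z1,z0,z0,z0,z1],z2)],[]]],
    [.old (.leafM k1 [k5,k0,k1,k3] [] [(k2,k4,z1,[y1,z1]),(k4,k2,z1,[y1,z1])]),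
    .old (.leafM k0 [k0,k3,k4,k5] [] [(k1,k2,z1,[y1,z1]),(k2,k1,z1,[y1,z1])]),
    .old (.leafM k0 [k0,k1,k2,k3,k4,k5] [(z1,[y1,z1])] []),
    .old (.leafM k0 [k1,k2,k3,k4,k5,k0] [(z1,[y1,z1])] []),
    .old (.lp [k8,k8,k4,k10,k12,k4] [k2,k2,k2,k2,k4,k4,k1,k1,k0,k0,k4,k4] k0 [[],[],[],[],[k0,k0,k0,k0,k0,k0,k2],[],[],
    [k0,k0,k0,k0,k0,k2]] k24 k5
    [[(k10,k6)],[(k2,k8),(k3,k8),(k7,k9),(k8,k10),(k9,k10)],[(k4,k6),(k5,k6),(k11,k6),(k0,k8),(k6,k9)],[(k4,k6),(k5,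
    k6),(k11,k6),(k0,k8),(k6,k9)],[(k2,k6),(k3,k6),(k7,k7),(k8,k8),(k9,k8)],[(k2,k6),(k3,k6),(k9,k6),(k7,k7),(k8,k8)],
    [(k4,k7),(k5,k7),(k11,k7),(k0,k9),(k6,k12)],[(k2,k9),(k3,k9),(k8,k11),(k9,k11),(k7,k12)],[(k4,k6),(k5,k8),(k11,
    k8),(k0,k10),(k6,k11)],[(k4,k8),(k5,k8),(k11,k8),(k0,k10),(k6,k11)],[(k2,k6),(k3,k6),(k7,k7),(k8,k8),(k9,k8)],
    [(k1,k6)]]
    [] k0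
    [[k1,k1,k0,k0,k0,k1],[k0,k1,k1,k0,k0,k0],[k0,k1,k1,k1,k0,k0],[k0,k0,k1,k0,k1,k0]]
    [.ref k3 k0 [(z1,[z1])],.ref k1 k0 [(z1,[y1,z1])],.ref k2 k0 [(z1,[y1,z1])],.ref k0 k0 [(z1,[y1,z1])]])]⟩

/-- classes `0 0 0 0 0 1`, types `C0 C2 C0 C0 C2 S0` -/
noncomputable def cU6_68 : CertX :=
  ⟨[k4,k6,k4,k4,k6,k16],[(false,k0,[k0,k1,k2,k3,k4,k5])],[[[([z1,z1,z0,z1,z0,z1],z2)],[([z1,z0,z0,z1,z1,z1],z2)],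
    [([z1,z0,z0,z0,z1,z1],z2)],[([z1,z1,z0,z0,z0,z1],z2)],[]]],
    [.old (.leafM k1 [k5,k0,k1,k3] [] [(k2,k4,z1,[y1,z1]),(k4,k2,z1,[y1,z1])]),
    .old (.leafM k0 [k0,k3,k4,k5] [] [(k1,k2,z1,[y1,z1]),(k2,k1,z1,[y1,z1])]),
    .old (.leafM k0 [k0,k1,k2,k3,k4,k5] [(z1,[y1,z1])] []),
    .old (.leafM k0 [k1,k2,k3,k4,k5,k0] [(z1,[y1,z1])] []),
    .old (.lp [(nat_lit 320),k90,(nat_lit 270),(nat_lit 270),k180,(nat_lit 288)] [k0,k0,k115,k115,k25,k25,k25,k25,k70,k70,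
    k16,k16] k0 [[k0,k0,k0,k0,k0,k0,k0,k0,k0,k60],[],[],[],[],[],[],[],[k0,k60]] (nat_lit 720) k5
    [[(k10,(nat_lit 304)),(k1,(nat_lit 320))],[(k8,k190),(k2,(nat_lit 205)),(k3,(nat_lit 205)),(k9,(nat_lit 250)),(k7,
    (nat_lit 295))],[(k4,k180),(k5,k180),(k6,k180),(k0,(nat_lit 205)),(k11,(nat_lit 249))],[(k4,k180),(k5,k180),(k6,
    k180),(k11,k189),(k0,(nat_lit 205))],[(k2,k180),(k3,k180),(k8,(nat_lit 225)),(k9,(nat_lit 225)),(k7,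
    (nat_lit 270))],[(k2,k180),(k3,k180),(k8,(nat_lit 225)),(k9,(nat_lit 225)),(k7,(nat_lit 270))],[(k4,
    (nat_lit 270)),(k5,(nat_lit 270)),(k6,(nat_lit 270)),(k11,(nat_lit 279)),(k0,(nat_lit 295))],[(k2,k180),(k3,k180),
    (k8,(nat_lit 225)),(k9,(nat_lit 225)),(k7,(nat_lit 270))],[(k4,(nat_lit 225)),(k5,(nat_lit 225)),(k6,
    (nat_lit 225)),(k11,(nat_lit 234)),(k0,(nat_lit 250))],[(k0,k190),(k4,(nat_lit 225)),(k5,(nat_lit 225)),(k6,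
    (nat_lit 225)),(k11,(nat_lit 234))],[(k2,k189),(k8,(nat_lit 234)),(k9,(nat_lit 234)),(k3,(nat_lit 249)),(k7,
    (nat_lit 279))],[(k10,(nat_lit 288)),(k1,(nat_lit 304))]]
    [] k0
    [[k1,k1,k0,k0,k0,k1],[k0,k1,k1,k0,k0,k0],[k0,k1,k1,k1,k0,k0],[k0,k0,k1,k0,k1,k0],[k0,k0,k0,k2,k0,k0]]
    [.ref k3 k0 [(z1,[z1])],.ref k1 k0 [(z1,[y1,z1])],.ref k2 k0 [(z1,[y1,z1])],.ref k0 k0 [(z1,[y1,z1])],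
    .contra [z1]])]⟩

/-- classes `0 0 0 0 0 1`, types `C0 C2 C0 C2 C0 C0` -/
noncomputable def cU6_69 : CertX :=
  ⟨[k4,k6,k4,k6,k4,k20],[(false,k0,[k0,k1,k2,k3,k4,k5]),(true,k5,[k5,k4,k3,k2,k1,k0])],[[[([z1,z0,z0,z1,z1,z1],z2)],
    [([z1,z1,z0,z0,z1,z1],z2)],[([z1,z0,z1,z1,z0,z1],z2)],[([z1,z0,z0,z0,z0,z1],z2)],[]]],
    [.old (.leafM k0 [k0,k3,k4,k5] [] [(k1,k2,z1,[y1,z1]),(k2,k1,z1,[y1,z1])]),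
    .old (.leafM k0 [k0,k1,k4,k5] [] [(k2,k3,z1,[y1,z1]),(k3,k2,z1,[y1,z1])]),
    .old (.leafM k2 [k2,k3,k5,k0] [] [(k4,k1,z1,[y1,z1]),(k1,k4,z1,[y1,z1])]),
    .old (.leafM k0 [k1,k2,k3,k4] [] [(k5,k0,z1,[z1]),(k0,k5,z1,[z1])]),
    .old (.lp [k0,k2,k0,k2,k0,k2] [k1,k1,k0,k0,k1,k1,k0,k0,k1,k1,k0,k0] k0 [] k4 k5
    [[(k10,k1)],[(k2,k1),(k3,k1),(k6,k1),(k7,k1),(k11,k1)],[(k0,k1),(k4,k1),(k5,k1),(k8,k1),(k9,k1)],[(k0,k1),(k4,k1),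
    (k5,k1),(k8,k1),(k9,k1)],[(k2,k1),(k3,k1),(k6,k1),(k7,k1),(k11,k1)],[(k2,k1),(k3,k1),(k6,k1),(k7,k1),(k11,k1)],
    [(k0,k1),(k4,k1),(k5,k1),(k8,k1),(k9,k1)],[(k0,k1),(k4,k1),(k5,k1),(k8,k1),(k9,k1)],[(k2,k1),(k3,k1),(k6,k1),(k7,
    k1),(k11,k1)],[(k2,k1),(k3,k1),(k6,k1),(k7,k1),(k11,k1)],[(k0,k1),(k4,k1),(k5,k1),(k8,k1),(k9,k1)],[(k1,k1)]]
    [] k0
    [[k1,k0,k0,k0,k0,k1],[k0,k1,k1,k0,k0,k0],[k0,k1,k0,k0,k1,k0],[k0,k0,k1,k1,k0,k0],[k0,k0,k0,k1,k1,k0]]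
    [.ref k3 k0 [(z1,[z1])],.ref k0 k0 [(z1,[y1,z1])],.ref k2 k0 [(z1,[y1,z1])],.ref k1 k0 [(z1,[y1,z1])],
    .ref k0 k1 [(z1,[y1,z1])]])]⟩

/-- classes `0 0 0 0 0 1`, types `C0 C2 C0 C2 C0 S0` -/
noncomputable def cU6_70 : CertX :=
  ⟨[k4,k6,k4,k6,k4,k16],[(false,k0,[k0,k1,k2,k3,k4,k5]),(true,k5,[k5,k4,k3,k2,k1,k0])],[[[([z1,z0,z0,z1,z1,z1],z2)],
    [([z1,z1,z0,z0,z1,z1],z2)],[([z1,z0,z1,z1,z0,z1],z2)],[([z1,z0,z0,z0,z0,z1],z2)],[]]],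
    [.old (.leafM k0 [k0,k3,k4,k5] [] [(k1,k2,z1,[y1,z1]),(k2,k1,z1,[y1,z1])]),
    .old (.leafM k0 [k0,k1,k4,k5] [] [(k2,k3,z1,[y1,z1]),(k3,k2,z1,[y1,z1])]),
    .old (.leafM k2 [k2,k3,k5,k0] [] [(k4,k1,z1,[y1,z1]),(k1,k4,z1,[y1,z1])]),
    .old (.leafM k0 [k1,k2,k3,k4] [] [(k5,k0,z1,[z1]),(k0,k5,z1,[z1])]),
    .old (.lp [k2,k4,k0,k4,k0,k4] [k1,k1,k0,k0,k2,k2,k0,k0,k2,k2,k0,k0] k0 [] k8 k5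
    [[(k1,k2),(k10,k3)],[(k2,k3),(k3,k3),(k6,k3),(k7,k3),(k11,k3)],[(k4,k2),(k5,k2),(k8,k2),(k9,k2),(k0,k3)],[(k4,k2),
    (k5,k2),(k8,k2),(k9,k2),(k0,k3)],[(k2,k2),(k3,k2),(k6,k2),(k7,k2),(k11,k2)],[(k2,k2),(k3,k2),(k6,k2),(k7,k2),(k11,
    k2)],[(k4,k2),(k5,k2),(k8,k2),(k9,k2),(k0,k3)],[(k4,k2),(k5,k2),(k8,k2),(k9,k2),(k0,k3)],[(k2,k2),(k3,k2),(k6,k2),
    (k7,k2),(k11,k2)],[(k2,k2),(k3,k2),(k6,k2),(k7,k2),(k11,k2)],[(k4,k2),(k5,k2),(k8,k2),(k9,k2),(k0,k3)],[(k1,k3),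
    (k10,k4)]]
    [] k0
    [[k1,k0,k0,k0,k0,k1],[k0,k1,k1,k0,k0,k0],[k0,k1,k0,k0,k1,k0],[k0,k0,k1,k1,k0,k0],[k0,k0,k0,k1,k1,k0]]
    [.ref k3 k0 [(z1,[z1])],.ref k0 k0 [(z1,[y1,z1])],.ref k2 k0 [(z1,[y1,z1])],.ref k1 k0 [(z1,[y1,z1])],
    .ref k0 k1 [(z1,[y1,z1])]])]⟩

/-- classes `0 0 0 0 0 1`, types `C0 C2 C2 C2 C0 C0` -/
noncomputable def cU6_71 : CertX :=
  ⟨[k4,k6,k6,k6,k4,k20],[(false,k0,[k0,k1,k2,k3,k4,k5]),(true,k5,[k5,k4,k3,k2,k1,k0])],[[[([z1,z1,z0,z0,z1,z1],z2)],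
    [([z1,z0,z1,z1,z0,z1],z2)],[([z1,z0,z0,z0,z0,z1],z2)],[([z1,z0,z0,z1,z0,z1],z2)],[]]],
    [.old (.leafM k0 [k0,k1,k4,k5] [] [(k2,k3,z1,[y1,z1]),(k3,k2,z1,[y1,z1])]),
    .old (.leafM k2 [k2,k3,k5,k0] [] [(k4,k1,z1,[y1,z1]),(k1,k4,z1,[y1,z1])]),
    .old (.leafM k0 [k1,k2,k3,k4] [] [(k5,k0,z1,[z1]),(k0,k5,z1,[z1])]),
    .old (.leafM k3 [k2,k3,k4,k5,k0,k1] [(z1,[z1])] []),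
    .old (.lp [k2,k6,k4,k4,k2,k4] [k2,k2,k0,k0,k1,k1,k1,k1,k2,k2,k1,k1] k0 [] k12 k5
    [[(k10,k3)],[(k4,k3),(k6,k3),(k11,k3),(k2,k4),(k3,k4)],[(k0,k4),(k8,k4),(k9,k4),(k5,k5),(k7,k5)],[(k0,k4),(k8,k4),
    (k9,k4),(k5,k5),(k7,k5)],[(k4,k4),(k6,k4),(k11,k4),(k2,k5),(k3,k5)],[(k0,k3),(k8,k3),(k9,k3),(k5,k4),(k7,k4)],
    [(k4,k4),(k6,k4),(k11,k4),(k2,k5),(k3,k5)],[(k0,k3),(k8,k3),(k9,k3),(k5,k4),(k7,k4)],[(k4,k3),(k6,k3),(k11,k3),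
    (k2,k4),(k3,k4)],[(k4,k3),(k6,k3),(k11,k3),(k2,k4),(k3,k4)],[(k0,k3),(k8,k3),(k9,k3),(k5,k4),(k7,k4)],[(k1,k3)]]
    [] k0
    [[k1,k0,k0,k0,k0,k1],[k1,k0,k1,k0,k0,k1],[k1,k0,k0,k1,k0,k1],[k0,k1,k0,k0,k1,k0],[k0,k0,k2,k0,k0,k0],[k0,k0,k1,k1,
    k0,k0],[k0,k0,k0,k2,k0,k0]]
    [.ref k2 k0 [(z1,[z1])],.ref k3 k1 [(z1,[z1])],.ref k3 k0 [(z1,[z1])],.ref k1 k0 [(z1,[y1,z1])],.contra [z1],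
    .ref k0 k0 [(z1,[y1,z1])],.contra [z1]])]⟩

/-- classes `0 0 0 0 0 1`, types `C0 C2 C2 C2 C0 S0` -/
noncomputable def cU6_72 : CertX :=
  ⟨[k4,k6,k6,k6,k4,k16],[(false,k0,[k0,k1,k2,k3,k4,k5]),(true,k5,[k5,k4,k3,k2,k1,k0])],[[[([z1,z1,z0,z0,z1,z1],z2)],
    [([z1,z0,z1,z1,z0,z1],z2)],[([z1,z0,z0,z1,z0,z1],z2)],[([z1,z0,z0,z0,z0,z1],z2)],[]]],
    [.old (.leafM k0 [k0,k1,k4,k5] [] [(k2,k3,z1,[y1,z1]),(k3,k2,z1,[y1,z1])]),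
    .old (.leafM k2 [k2,k3,k5,k0] [] [(k4,k1,z1,[y1,z1]),(k1,k4,z1,[y1,z1])]),
    .old (.leafM k3 [k2,k3,k4,k5,k0,k1] [(z1,[z1])] []),
    .old (.leafM k0 [k1,k2,k3,k4] [] [(k5,k0,z1,[z1]),(k0,k5,z1,[z1])]),
    .old (.lp [k16,k16,k18,k14,k16,k14] [k3,k3,k0,k6,k2,k2,k4,k4,k2,k4,k4,k4] k0 [[],[],[k0,k0,k0,k0,k6],[],[k0,k0,k0,k0,
    k0,k0,k2],[k0,k0,k0,k6],[k0,k0,k0,k0,k0,k0,k0,k0,k0,k4],[k0,k0,k0,k0,k0,k2],[k0,k0,k0,k0,k0,k0,k0,k4]] k48 k5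
    [[(k10,k15),(k1,k16)],[(k3,k13),(k6,k15),(k11,k15),(k4,k17),(k2,k19)],[(k7,k12),(k9,k12),(k0,k13),(k5,k14),(k8,
    k14)],[(k7,k12),(k9,k18),(k0,k19),(k5,k20),(k8,k20)],[(k3,k14),(k6,k16),(k11,k16),(k2,k20),(k4,k24)],[(k9,k14),
    (k7,k16),(k0,k17),(k8,k18),(k5,k24)],[(k2,k12),(k3,k12),(k11,k14),(k4,k16),(k6,k16)],[(k8,k12),(k9,k14),(k0,k15),
    (k5,k16),(k7,k16)],[(k3,k12),(k4,k14),(k6,k14),(k2,k18),(k11,k18)],[(k6,k12),(k3,k14),(k11,k16),(k4,k18),(k2,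
    k20)],[(k7,k14),(k0,k15),(k5,k16),(k8,k16),(k9,k18)],[(k10,k14),(k1,k15)]]
    [] k0
    [[k1,k0,k0,k0,k0,k1],[k1,k0,k0,k1,k0,k1],[k0,k1,k0,k1,k1,k0],[k0,k1,k0,k0,k1,k0],[k0,k0,k1,k1,k0,k0],[k0,k0,k0,k2,
    k0,k0]]
    [.ref k3 k0 [(z1,[z1])],.ref k2 k0 [(z1,[z1])],.ref k2 k1 [(z1,[y1,z1])],.ref k1 k0 [(z1,[y1,z1])],
    .ref k0 k0 [(z1,[y1,z1])],.contra [z1]])]⟩

/-- classes `0 0 0 0 0 1`, types `S0 S0 S0 S0 S0 C0` -/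
noncomputable def cU6_73 : CertX :=
  ⟨[k0,k0,k0,k0,k0,k20],[(false,k0,[k0,k1,k2,k3,k4,k5]),(true,k5,[k5,k4,k3,k2,k1,k0])],[[[([z1,z0,z0,z1,z1,z1],z2)],
    [([z1,z0,z1,z0,z1,z1],z2)],[([z1,z1,z0,z0,z1,z1],z2)],[([z1,z0,z1,z1,z0,z1],z2)],[([z1,z0,z0,z1,z0,z1],z2)],[([z1,
    z0,z0,z0,z1,z1],z2)],[([z1,z0,z0,z0,z0,z1],z2)],[]]],
    [.old (.leafM k0 [k0,k3,k4,k5] [] [(k1,k2,z1,[y1,z1]),(k2,k1,z1,[y1,z1])]),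
    .old (.leafM k1 [k4,k5,k0,k2] [] [(k1,k3,z1,[y1,z1]),(k3,k1,z1,[y1,z1])]),
    .old (.leafM k0 [k0,k1,k4,k5] [] [(k2,k3,z1,[y1,z1]),(k3,k2,z1,[y1,z1])]),
    .old (.leafM k2 [k2,k3,k5,k0] [] [(k4,k1,z1,[y1,z1]),(k1,k4,z1,[y1,z1])]),
    .old (.leafM k3 [k2,k3,k4,k5,k0,k1] [(z1,[z1])] []),
    .old (.leafM k0 [k0,k1,k2,k3,k4,k5] [(z1,[y1,z1])] []),
    .old (.leafM k0 [k1,k2,k3,k4] [] [(k5,k0,z1,[z1]),(k0,k5,z1,[z1])]),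
    .old (.lp [k16,k21,k22,k22,k22,k16] [k4,k4,k3,k0,k1,k1,k1,k1,k1,k1,k5,k3] k0 [[k0,k1,k0,k0,k0,k0,k0,k1],[k0,k0,k0,k0,
    k1,k0,k0,k6,k6],[k0,k0,k0,k0,k0,k0,k0,k0,k0,k5],[k0,k0,k3,k0,k0,k2],[k0,k0,k2,k0,k0,k1],[k1,k0,k0,k0,k0,k0,k0,k0,
    k0,k6],[k6,k1],[],[k0,k0,k0,k5,k6],[k6]] k60 k5
    [[(k10,k15)],[(k0,k15),(k2,k17),(k11,k17),(k6,k18),(k5,k19),(k7,k19),(k3,k20),(k4,k20),(k8,k25),(k9,k25)],[(k11,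
    k15),(k6,k17),(k0,k20),(k2,k21),(k7,k22),(k4,k23),(k5,k23),(k8,k23),(k9,k24),(k3,k25)],[(k8,k15),(k0,k17),(k11,
    k18),(k4,k20),(k5,k20),(k6,k20),(k9,k20),(k2,k21),(k3,k21),(k7,k22)],[(k0,k19),(k5,k19),(k2,k20),(k4,k20),(k6,
    k22),(k7,k22),(k8,k22),(k9,k22),(k3,k23),(k11,k25)],[(k0,k20),(k2,k20),(k5,k20),(k4,k21),(k6,k22),(k7,k22),(k8,
    k22),(k9,k22),(k3,k23),(k11,k26)],[(k8,k16),(k0,k19),(k11,k20),(k2,k22),(k3,k22),(k4,k22),(k5,k22),(k6,k22),(k9,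
    k22),(k7,k23)],[(k3,k17),(k0,k18),(k2,k20),(k11,k20),(k4,k22),(k5,k22),(k6,k22),(k7,k22),(k8,k22),(k9,k22)],[(k2,
    k20),(k11,k20),(k4,k22),(k5,k22),(k6,k22),(k7,k22),(k8,k22),(k9,k22),(k3,k24),(k0,k25)],[(k2,k15),(k7,k16),(k11,
    k20),(k4,k22),(k5,k22),(k6,k22),(k8,k22),(k9,k22),(k3,k23),(k0,k25)],[(k3,k15),(k0,k17),(k2,k18),(k11,k18),(k6,
    k20),(k7,k20),(k8,k20),(k9,k20),(k5,k25),(k4,k26)],[(k1,k15)]]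
    [] k0
    [[k1,k0,k0,k0,k0,k1],[k1,k1,k0,k0,k0,k1],[k1,k0,k0,k1,k0,k1],[k0,k2,k0,k0,k0,k0],[k0,k1,k1,k0,k0,k0],[k0,k1,k0,k1,
    k0,k0],[k0,k1,k1,k1,k0,k0],[k0,k1,k0,k1,k1,k0],[k0,k1,k0,k0,k1,k0],[k0,k0,k2,k0,k0,k0],[k0,k0,k1,k1,k0,k0],[k0,k0,
    k1,k0,k1,k0],[k0,k0,k0,k2,k0,k0],[k0,k0,k0,k1,k1,k0],[k0,k0,k0,k0,k2,k0]]
    [.ref k6 k0 [(z1,[z1])],.ref k5 k1 [(z1,[z1])],.ref k4 k0 [(z1,[z1])],.contra [z1],.ref k0 k0 [(z1,[y1,z1])],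
    .ref k1 k0 [(z1,[y1,z1])],.ref k5 k0 [(z1,[y1,z1])],.ref k4 k1 [(z1,[y1,z1])],.ref k3 k0 [(z1,[y1,z1])],
    .contra [z1],.ref k2 k0 [(z1,[y1,z1])],.ref k1 k1 [(z1,[y1,z1])],.contra [z1],.ref k0 k1 [(z1,[y1,z1])],
    .contra [z1]])]⟩

/-- classes `0 0 0 0 1 1`, types `B0 B0 B1 B1 B0 B1` -/
noncomputable def cU6_74 : CertX :=
  ⟨[k8,k8,k9,k9,k24,k25],[(false,k0,[k0,k1,k2,k3,k4,k5])],[[[([z1,z0,z1,z0,z1,z1],z2)],[([z1,z0,z0,z0,z1,z1],z2)],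
    [([z1,z0,z0,z0,z1,z0],z2),([z0,z3,z0,z3,z0,z0],z2),([z0,z0,z3,z0,z0,z0],z2)],[([z1,z0,z0,z0,z1,z0],z2),([z0,z1,z0,
    z1,z0,z0],z1),([z0,z0,z3,z0,z0,z0],z1)],[([z1,z0,z0,z0,z1,z0],z2),([z0,z3,z3,z3,z0,z0],z4)],[([z1,z0,z0,z0,z1,z0],
    z2),([z0,z1,z0,z1,z0,z0],z1),([z0,z0,z2,z0,z0,z0],z1)],[([z1,z0,z0,z0,z1,z0],z2),([z0,z1,z0,z1,z0,z0],z1),([z0,z0,
    z3,z0,z0,z0],z2)],[([z1,z0,z0,z0,z1,z0],z2),([z0,z1,z0,z1,z0,z0],z1)],[([z1,z0,z0,z0,z1,z0],z2)],[]]],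
    [.old (.leafM k3 [k0,k2,k4,k5] [] [(k1,k3,z1,[y1,z1]),(k3,k1,z1,[y1,z1])]),
    .old (.leafM k6 [k1,k2,k3,k4,k5,k0] [(z1,[z1])] []),
    .old (.leafM k10 [k1,k2,k3,k5] [(z1,[z0,z0,z1]),(z1,[y3,y1,y1,z3]),(z1,[z0,z1])] [(k4,k0,z1,[z1]),(k0,k4,z1,[z1])]),
    .old (.leafM k11 [k3,k5,k1,k2] [(z1,[y3,y3,y1,z3]),(z1,[z0,z0,z1]),(z1,[z0,z1])] [(k4,k0,z1,[z1]),(k0,k4,z1,[z1])]),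
    .old (.lp [k102,k30,k30,k18,k18,k40] [k0,k0,k36,k36,k36,k36,k42,k42,k42,k42,k31,k31] k0 [] k120 k6
    [[(k8,k60),(k11,k71)],[(k6,k60),(k7,k60),(k9,k60),(k4,k66)],[(k6,k24),(k7,k24),(k9,k24),(k4,k30)],[(k6,k24),(k7,
    k24),(k9,k24),(k4,k30)],[(k6,k24),(k7,k24),(k9,k24),(k4,k30)],[(k2,k30),(k3,k30),(k5,k30),(k0,k66)],[(k2,k24),(k3,
    k24),(k5,k24),(k0,k60)],[(k2,k24),(k3,k24),(k5,k24),(k0,k60)],[(k2,k24),(k3,k24),(k5,k24),(k0,k60)],[(k10,k29),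
    (k1,k60)],[(k10,k40),(k1,k71)],[(k8,k29),(k11,k40)]]
    [] k0
    [[k0,k1,k2,k1,k0,k0],[k0,k1,k1,k1,k0,k0],[k0,k1,k0,k1,k0,k0],[k0,k2,k0,k2,k0,k0],[k0,k0,k2,k0,k0,k0],[k0,k0,k3,k0,
    k0,k0],[k0,k0,k0,k0,k0,k2]]
    [.ref k2 k0 [(z1,[z0,z1]),(z1,[y3,z0,z2]),(z1,[z3,z0,y1])],.contra [z1,y2,y1,z2],.contra [y2,z0,z1],
    .ref k3 k0 [(z1,[z0,z1]),(z2,[z1]),(z2,[y3,z0,z2])],.contra [z1],.ref k2 k0 [(z1,[z0,z1]),(z1,[y1,z0,z1]),(z1,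
    [z1])],.contra [z1]]),
    .old (.leafM k12 [k1,k2,k3,k5] [(z1,[z0,z0,z1]),(z1,[y2,y2,y1,z2]),(z1,[z0,z1])] [(k4,k0,z1,[z1]),(k0,k4,z1,[z1])]),
    .old (.leafM k11 [k1,k2,k3,k5] [(z1,[z0,z0,z1]),(z1,[y3,y3,y1,z3]),(z1,[z0,z1])] [(k4,k0,z1,[z1]),(k0,k4,z1,[z1])]),
    .old (.lp [k32,k14,k10,k6,k8,k8] [k0,k0,k9,k9,k11,k11,k13,k13,k12,k12,k12,k12] k0 [] k40 k6
    [[(k8,k20),(k11,k20)],[(k6,k19),(k7,k19),(k9,k20),(k4,k21)],[(k6,k10),(k7,k10),(k9,k11),(k4,k12)],[(k6,k10),(k7,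
    k10),(k9,k11),(k4,k12)],[(k6,k8),(k7,k8),(k9,k9),(k4,k10)],[(k5,k10),(k2,k12),(k3,k12),(k0,k21)],[(k5,k8),(k2,
    k10),(k3,k10),(k0,k19)],[(k5,k8),(k2,k10),(k3,k10),(k0,k19)],[(k5,k9),(k2,k11),(k3,k11),(k0,k20)],[(k10,k8),(k1,
    k20)],[(k10,k8),(k1,k20)],[(k8,k8),(k11,k8)]]
    [] k0
    [[k0,k1,k1,k1,k0,k0],[k0,k1,k0,k1,k0,k0],[k0,k0,k2,k0,k0,k0],[k0,k0,k3,k0,k0,k0],[k0,k0,k0,k0,k0,k2],[k0,k0,k0,k0,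
    k0,k3],[k0,k0,k0,k0,k0,k4]]
    [.contra [z1,z0,y1],.contra [y1,z0,z2],.contra [z1],.ref k6 k0 [(z1,[z0,z1]),(z1,[z0,z0,z1]),(z1,[z1])],
    .contra [z1],.ref k4 k0 [(z1,[z0,z1]),(z1,[y1,y3,z0,z3])],.ref k5 k0 [(z1,[z0,z1]),(z1,[z0,z0,z1]),(z2,[y1,y4,y4,
    z4])]]),
    .old (.lp [k102,k40,k40,k8,k18,k30] [k0,k0,k31,k31,k31,k31,k47,k47,k42,k42,k36,k36] k0 [] k120 k6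
    [[(k8,k60),(k11,k66)],[(k6,k55),(k7,k55),(k9,k60),(k4,k71)],[(k6,k24),(k7,k24),(k9,k29),(k4,k40)],[(k6,k24),(k7,
    k24),(k9,k29),(k4,k40)],[(k6,k24),(k7,k24),(k9,k29),(k4,k40)],[(k2,k40),(k3,k40),(k5,k40),(k0,k71)],[(k2,k24),(k3,
    k24),(k5,k24),(k0,k55)],[(k2,k24),(k3,k24),(k5,k24),(k0,k55)],[(k2,k29),(k3,k29),(k5,k29),(k0,k60)],[(k10,k24),
    (k1,k60)],[(k10,k30),(k1,k66)],[(k8,k24),(k11,k30)]]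
    [] k0
    [[k0,k1,k1,k1,k0,k0],[k0,k1,k0,k1,k0,k0],[k0,k2,k0,k2,k0,k0],[k0,k0,k2,k0,k0,k0],[k0,k0,k0,k0,k0,k2],[k0,k0,k0,k0,
    k0,k3]]
    [.contra [y1,y1,z1],.contra [y1,y1,z1],.ref k7 k0 [(z1,[z0,z1]),(z2,[z1])],.contra [z1],.contra [z1],
    .ref k4 k0 [(z1,[z0,z1]),(z1,[y1,y3,z3])]]),
    .old (.lp [k4,k4,k6,k2,k2,k4] [k1,k1,k1,k1,k0,k0,k2,k2,k2,k2,k1,k1] k0 [] k12 k5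
    [[(k8,k3),(k11,k4)],[(k6,k3),(k7,k3),(k9,k3),(k4,k5)],[(k6,k3),(k7,k3),(k9,k3),(k4,k5)],[(k6,k3),(k7,k3),(k9,k3),
    (k4,k5)],[(k6,k4),(k7,k4),(k9,k4),(k4,k6)],[(k0,k5),(k2,k5),(k3,k5),(k5,k6)],[(k0,k3),(k2,k3),(k3,k3),(k5,k4)],
    [(k0,k3),(k2,k3),(k3,k3),(k5,k4)],[(k0,k3),(k2,k3),(k3,k3),(k5,k4)],[(k1,k3),(k10,k3)],[(k1,k4),(k10,k4)],[(k8,
    k3),(k11,k4)]]
    [] k0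
    [[k1,k0,k0,k0,k1,k0],[k1,k0,k0,k0,k1,k1],[k0,k1,k0,k1,k0,k0],[k0,k0,k0,k0,k0,k2]]
    [.ref k8 k0 [(z1,[z1])],.ref k1 k0 [(z1,[z1])],.ref k0 k0 [(z1,[y1,z1])],.contra [z1]])]⟩

/-- classes `0 0 0 0 1 1`, types `B0 B0 B1 B1 C0 C0` -/
noncomputable def cU6_75 : CertX :=
  ⟨[k8,k8,k9,k9,k20,k20],[(false,k0,[k0,k1,k2,k3,k4,k5])],[[[([z1,z0,z1,z0,z1,z1],z2)],[([z1,z0,z0,z0,z1,z1],z2)],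
    [([z1,z0,z0,z0,z1,z0],z2),([z0,z3,z0,z3,z0,z0],z2),([z0,z0,z3,z0,z0,z0],z2)],[([z1,z0,z0,z0,z1,z0],z2),([z0,z1,z0,
    z1,z0,z0],z1),([z0,z0,z3,z0,z0,z0],z1)],[([z1,z0,z0,z0,z1,z0],z2),([z0,z3,z3,z3,z0,z0],z4)],[([z1,z0,z0,z0,z1,z0],
    z2),([z0,z1,z0,z1,z0,z0],z1),([z0,z0,z2,z0,z0,z0],z1)],[([z1,z0,z0,z0,z1,z0],z2),([z0,z1,z0,z1,z0,z0],z1),([z0,z0,
    z3,z0,z0,z0],z2)],[([z1,z0,z0,z0,z1,z0],z2),([z0,z1,z0,z1,z0,z0],z1)],[([z1,z0,z0,z0,z1,z0],z2)],[]]],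
    [.old (.leafM k1 [k4,k5,k0,k2] [] [(k1,k3,z1,[y1,z1]),(k3,k1,z1,[y1,z1])]),
    .old (.leafM k4 [k1,k2,k3,k4,k5,k0] [(z1,[z1])] []),
    .old (.leafM k10 [k1,k2,k3,k5] [(z1,[z0,z0,z1]),(z1,[y3,y1,y1,z3]),(z1,[z0,z1])] [(k4,k0,z1,[z1]),(k0,k4,z1,[z1])]),
    .old (.leafM k11 [k3,k5,k1,k2] [(z1,[y3,y3,y1,z3]),(z1,[z0,z0,z1]),(z1,[z0,z1])] [(k4,k0,z1,[z1]),(k0,k4,z1,[z1])]),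
    .old (.lp [k18,k18,k30,k30,k102,k40] [k42,k42,k42,k42,k36,k36,k36,k36,k0,k0,k31,k31] k0 [] k120 k6
    [[(k10,k29),(k8,k60)],[(k4,k24),(k6,k24),(k7,k24),(k9,k60)],[(k4,k24),(k6,k24),(k7,k24),(k9,k60)],[(k4,k24),(k6,
    k24),(k7,k24),(k9,k60)],[(k4,k30),(k6,k30),(k7,k30),(k9,k66)],[(k0,k24),(k2,k24),(k3,k24),(k5,k30)],[(k0,k24),(k2,
    k24),(k3,k24),(k5,k30)],[(k0,k24),(k2,k24),(k3,k24),(k5,k30)],[(k0,k60),(k2,k60),(k3,k60),(k5,k66)],[(k1,k60),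
    (k11,k71)],[(k10,k40),(k8,k71)],[(k1,k29),(k11,k40)]]
    [] k0
    [[k0,k1,k2,k1,k0,k0],[k0,k1,k1,k1,k0,k0],[k0,k1,k0,k1,k0,k0],[k0,k2,k0,k2,k0,k0],[k0,k0,k2,k0,k0,k0],[k0,k0,k3,k0,
    k0,k0],[k0,k0,k0,k0,k0,k2]]
    [.ref k2 k0 [(z1,[z0,z1]),(z1,[y3,z0,z2]),(z1,[z3,z0,y1])],.contra [z1,y2,y1,z2],.contra [y2,z0,z1],
    .ref k3 k0 [(z1,[z0,z1]),(z2,[z1]),(z2,[y3,z0,z2])],.contra [z1],.ref k2 k0 [(z1,[z0,z1]),(z1,[y1,z0,z1]),(z1,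
    [z1])],.contra [z1]]),
    .old (.leafM k12 [k1,k2,k3,k5] [(z1,[z0,z0,z1]),(z1,[y2,y2,y1,z2]),(z1,[z0,z1])] [(k4,k0,z1,[z1]),(k0,k4,z1,[z1])]),
    .old (.leafM k11 [k1,k2,k3,k5] [(z1,[z0,z0,z1]),(z1,[y3,y3,y1,z3]),(z1,[z0,z1])] [(k4,k0,z1,[z1]),(k0,k4,z1,[z1])]),
    .old (.lp [k8,k12,k10,k8,k32,k8] [k12,k12,k10,k10,k11,k11,k12,k12,k0,k0,k12,k12] k0 [] k40 k6
    [[(k10,k8),(k8,k20)],[(k6,k8),(k7,k8),(k4,k9),(k9,k20)],[(k6,k10),(k7,k10),(k4,k11),(k9,k22)],[(k6,k10),(k7,k10),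
    (k4,k11),(k9,k22)],[(k6,k9),(k7,k9),(k4,k10),(k9,k21)],[(k0,k9),(k5,k10),(k2,k11),(k3,k11)],[(k0,k8),(k5,k9),(k2,
    k10),(k3,k10)],[(k0,k8),(k5,k9),(k2,k10),(k3,k10)],[(k0,k20),(k5,k21),(k2,k22),(k3,k22)],[(k1,k20),(k11,k20)],
    [(k10,k8),(k8,k20)],[(k1,k8),(k11,k8)]]
    [] k0
    [[k0,k1,k1,k1,k0,k0],[k0,k1,k0,k1,k0,k0],[k0,k0,k2,k0,k0,k0],[k0,k0,k3,k0,k0,k0],[k0,k0,k0,k0,k0,k2],[k0,k0,k0,k0,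
    k0,k3],[k0,k0,k0,k0,k0,k4]]
    [.contra [z1,z0,y1],.contra [y1,z0,z2],.contra [z1],.ref k6 k0 [(z1,[z0,z1]),(z1,[z0,z0,z1]),(z1,[z1])],
    .contra [z1],.ref k4 k0 [(z1,[z0,z1]),(z1,[y1,y3,z0,z3])],.ref k5 k0 [(z1,[z0,z1]),(z1,[z0,z0,z1]),(z2,[y1,y4,y4,
    z4])]]),
    .old (.lp [k18,k18,k40,k30,k102,k30] [k42,k42,k42,k42,k31,k31,k36,k36,k0,k0,k36,k36] k0 [] k120 k6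
    [[(k10,k24),(k8,k60)],[(k6,k24),(k7,k24),(k4,k29),(k9,k60)],[(k6,k24),(k7,k24),(k4,k29),(k9,k60)],[(k6,k24),(k7,
    k24),(k4,k29),(k9,k60)],[(k6,k35),(k7,k35),(k4,k40),(k9,k71)],[(k0,k29),(k2,k29),(k3,k29),(k5,k40)],[(k0,k24),(k2,
    k24),(k3,k24),(k5,k35)],[(k0,k24),(k2,k24),(k3,k24),(k5,k35)],[(k0,k60),(k2,k60),(k3,k60),(k5,k71)],[(k1,k60),
    (k11,k66)],[(k10,k30),(k8,k66)],[(k1,k24),(k11,k30)]]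
    [] k0
    [[k0,k1,k1,k1,k0,k0],[k0,k1,k0,k1,k0,k0],[k0,k2,k0,k2,k0,k0],[k0,k0,k2,k0,k0,k0],[k0,k0,k0,k0,k0,k2],[k0,k0,k0,k0,
    k0,k3]]
    [.contra [y1,y1,z1],.contra [y1,y1,z1],.ref k7 k0 [(z1,[z0,z1]),(z2,[z1])],.contra [z1],.contra [z1],
    .ref k4 k0 [(z1,[z0,z1]),(z1,[y1,y3,z3])]]),
    .old (.lp [k2,k2,k6,k4,k4,k4] [k2,k2,k2,k2,k0,k0,k1,k1,k1,k1,k1,k1] k0 [] k12 k5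
    [[(k8,k3),(k10,k3)],[(k6,k3),(k7,k3),(k9,k3),(k4,k4)],[(k6,k3),(k7,k3),(k9,k3),(k4,k4)],[(k6,k3),(k7,k3),(k9,k3),
    (k4,k4)],[(k6,k5),(k7,k5),(k9,k5),(k4,k6)],[(k0,k4),(k2,k4),(k3,k4),(k5,k6)],[(k0,k3),(k2,k3),(k3,k3),(k5,k5)],
    [(k0,k3),(k2,k3),(k3,k3),(k5,k5)],[(k0,k3),(k2,k3),(k3,k3),(k5,k5)],[(k1,k3),(k11,k4)],[(k8,k4),(k10,k4)],[(k1,
    k3),(k11,k4)]]
    [] k0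
    [[k1,k0,k0,k0,k1,k0],[k1,k0,k0,k0,k1,k1],[k0,k1,k0,k1,k0,k0],[k0,k0,k0,k0,k0,k2]]
    [.ref k8 k0 [(z1,[z1])],.ref k1 k0 [(z1,[z1])],.ref k0 k0 [(z1,[y1,z1])],.contra [z1]])]⟩

/-- the certificates of this file -/
noncomputable def lU6_7 : List CertX :=
  [cU6_48, cU6_49, cU6_50, cU6_51, cU6_52, cU6_53, cU6_54, cU6_55, cU6_56, cU6_57, cU6_58, cU6_59, cU6_60,
      cU6_61, cU6_62, cU6_63, cU6_64, cU6_65, cU6_66, cU6_67, cU6_68, cU6_69, cU6_70, cU6_71, cU6_72, cU6_73,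
      cU6_74, cU6_75]

theorem gU6_7 : allF (chkE 6 ttU6) lU6_7 = true := by
  decide +kernel

end Pool.Agent.Lib_MP_fa6e45
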