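import Pool.Agent.Lib_MP_fa6e45.CXT
import Pool.Agent.Lib_MP_fa6e45.HK

/-!
MP_fa6e45_co, stage 7: certificates (generated by a program).
-/

namespace Pool.Agent.Lib_MP_fa6e45

/-- classes `0 0 0 0 1 1`, types `B0 B0 B1 B1 C0 C2` -/
noncomputable def cU6_76 : CertX :=
  ⟨[k8,k8,k9,k9,k20,k22],[(false,k0,[k0,k1,k2,k3,k4,k5])],[[[([z1,z0,z1,z0,z1,z1],z2)],[([z1,z0,z0,z0,z1,z1],z2)],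
    []]],
    [.old (.leafM k1 [k4,k5,k0,k2] [] [(k1,k3,z1,[y1,z1]),(k3,k1,z1,[y1,z1])]),
    .old (.leafM k4 [k1,k2,k3,k4,k5,k0] [(z1,[z1])] []),
    .old (.lp [k2,k2,k4,k2,k2,k2] [k1,k1,k1,k1,k0,k0,k1,k1,k1,k1,k1,k1] k0 [] k8 k5
    [[(k10,k2),(k11,k2)],[(k6,k2),(k7,k2),(k9,k2),(k4,k3)],[(k6,k2),(k7,k2),(k9,k2),(k4,k3)],[(k6,k2),(k7,k2),(k9,k2),
    (k4,k3)],[(k6,k3),(k7,k3),(k9,k3),(k4,k4)],[(k0,k3),(k2,k3),(k3,k3),(k5,k4)],[(k0,k2),(k2,k2),(k3,k2),(k5,k3)],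
    [(k0,k2),(k2,k2),(k3,k2),(k5,k3)],[(k0,k2),(k2,k2),(k3,k2),(k5,k3)],[(k10,k2),(k11,k2)],[(k1,k2),(k8,k2)],[(k1,
    k2),(k8,k2)]]
    [] k0
    [[k1,k0,k0,k0,k1,k1],[k0,k1,k0,k1,k0,k0]]
    [.ref k1 k0 [(z1,[z1])],.ref k0 k0 [(z1,[y1,z1])]])]⟩

/-- classes `0 0 0 0 1 1`, types `B0 B0 B1 B1 N0 N1` -/
noncomputable def cU6_77 : CertX :=
  ⟨[k8,k8,k9,k9,k28,k29],[(false,k0,[k0,k1,k2,k3,k4,k5])],[[[([z3,z0,z0,z0,z3,z0],z2),([z0,z1,z0,z1,z0,z0],z2),([z0,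
    z0,z3,z0,z0,z0],z2)],[([z1,z0,z0,z0,z1,z0],z1),([z0,z1,z0,z1,z0,z0],z2),([z0,z0,z3,z0,z0,z0],z1)],[([z3,z0,z3,z0,
    z3,z0],z4),([z0,z1,z0,z1,z0,z0],z2)],[([z1,z0,z0,z0,z1,z0],z1),([z0,z1,z0,z1,z0,z0],z2),([z0,z0,z2,z0,z0,z0],z1)],
    [([z1,z0,z0,z0,z1,z0],z1),([z0,z1,z0,z1,z0,z0],z2),([z0,z0,z3,z0,z0,z0],z2)],[([z1,z0,z0,z0,z1,z0],z1),([z0,z1,z0,
    z1,z0,z0],z2)],[([z1,z0,z1,z0,z1,z1],z2)],[([z1,z0,z0,z0,z1,z0],z2),([z0,z3,z0,z3,z0,z0],z2),([z0,z0,z3,z0,z0,z0],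
    z2)],[([z1,z0,z0,z0,z1,z0],z2),([z0,z1,z0,z1,z0,z0],z1),([z0,z0,z3,z0,z0,z0],z1)],[([z1,z0,z0,z0,z1,z0],z2),([z0,
    z3,z3,z3,z0,z0],z4)],[([z1,z0,z0,z0,z1,z0],z2),([z0,z1,z0,z1,z0,z0],z1),([z0,z0,z2,z0,z0,z0],z1)],[([z1,z0,z0,z0,
    z1,z0],z2),([z0,z1,z0,z1,z0,z0],z1),([z0,z0,z3,z0,z0,z0],z2)]],[[([z1,z0,z0,z0,z1,z0],z2),([z0,z1,z0,z1,z0,z0],
    z1)],[([z1,z0,z0,z0,z1,z0],z2)],[]]],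
    [.old (.leafM k10 [k0,k2,k4,k5] [(z1,[z0,z0,z1]),(z1,[y1,y3,y1,z3]),(z1,[z1])] [(k1,k3,z1,[z0,z1]),(k3,k1,z1,[z0,z1])]),
    .old (.leafM k11 [k4,k5,k0,k2] [(z1,[y3,y3,y1,z3]),(z1,[z0,z0,z1]),(z1,[z1])] [(k1,k3,z1,[z0,z1]),(k3,k1,z1,[z0,z1])]),
    .old (.lp [k18,k90,k30,k30,k30,k40] [k36,k36,k0,k0,k30,k30,k30,k30,k30,k30,k25,k25] k0 [] k120 k6
    [[(k8,k24)],[(k4,k24),(k6,k24),(k7,k24),(k9,k24)],[(k4,k60),(k6,k60),(k7,k60),(k9,k60)],[(k4,k60),(k6,k60),(k7,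
    k60),(k9,k60)],[(k4,k30),(k6,k30),(k7,k30),(k9,k30)],[(k0,k24),(k5,k30),(k2,k60),(k3,k60)],[(k0,k24),(k5,k30),(k2,
    k60),(k3,k60)],[(k0,k24),(k5,k30),(k2,k60),(k3,k60)],[(k0,k24),(k5,k30),(k2,k60),(k3,k60)],[(k1,k24)],[(k10,k40)],
    [(k11,k40)]]
    [] k0
    [[k1,k0,k0,k0,k1,k0],[k2,k0,k0,k0,k2,k0],[k1,k0,k1,k0,k1,k0],[k1,k0,k2,k0,k1,k0],[k0,k0,k2,k0,k0,k0],[k0,k0,k3,k0,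
    k0,k0],[k0,k0,k0,k0,k0,k2]]
    [.contra [y3,z1,z1],.ref k1 k0 [(z2,[z1]),(z1,[z0,z0,z1]),(z2,[y3,z2])],.contra [z1,y1,y2,z2],.ref k0 k0 [(z1,[y3,
    z2]),(z1,[z0,z0,z1]),(z1,[z3,y1])],.contra [z1],.ref k0 k0 [(z1,[y1,z1]),(z1,[z0,z0,z1]),(z1,[z1])],.contra [z1]]),
    .old (.leafM k12 [k0,k2,k4,k5] [(z1,[z0,z0,z1]),(z1,[y2,y2,y1,z2]),(z1,[z1])] [(k1,k3,z1,[z0,z1]),(k3,k1,z1,[z0,z1])]),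
    .old (.leafM k11 [k0,k2,k4,k5] [(z1,[z0,z0,z1]),(z1,[y3,y3,y1,z3]),(z1,[z1])] [(k1,k3,z1,[z0,z1]),(k3,k1,z1,[z0,z1])]),
    .old (.lp [k6,k30,k10,k10,k14,k8] [k12,k12,k0,k0,k10,k10,k10,k10,k8,k8,k11,k11] k0 [] k40 k6
    [[(k8,k10)],[(k4,k8),(k6,k8),(k7,k8),(k9,k10)],[(k4,k20),(k6,k20),(k7,k20),(k9,k22)],[(k4,k20),(k6,k20),(k7,k20),
    (k9,k22)],[(k4,k10),(k6,k10),(k7,k10),(k9,k12)],[(k0,k8),(k5,k10),(k2,k20),(k3,k20)],[(k0,k8),(k5,k10),(k2,k20),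
    (k3,k20)],[(k0,k8),(k5,k10),(k2,k20),(k3,k20)],[(k0,k10),(k5,k12),(k2,k22),(k3,k22)],[(k1,k10)],[(k10,k8)],[(k11,
    k8)]]
    [] k0
    [[k1,k0,k0,k0,k1,k0],[k1,k0,k1,k0,k1,k0],[k0,k0,k2,k0,k0,k0],[k0,k0,k3,k0,k0,k0],[k0,k0,k0,k0,k0,k2],[k0,k0,k0,k0,
    k0,k3],[k0,k0,k0,k0,k0,k4]]
    [.contra [y2,z2,z1],.contra [z1,y1],.contra [z1],.ref k4 k0 [(z1,[z0,z1]),(z1,[z0,z0,z1]),(z1,[z1])],.contra [z1],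
    .ref k2 k0 [(z1,[y1,z0,y3,z3]),(z1,[z0,z0,z1])],.ref k3 k0 [(z1,[z0,z1]),(z1,[z0,z0,z1]),(z2,[y1,y4,y4,z4])]]),
    .old (.lp [k8,k80,k40,k40,k40,k30] [k36,k36,k0,k0,k20,k20,k20,k20,k20,k20,k25,k25] k0 [] k120 k6
    [[(k8,k24)],[(k4,k24),(k6,k24),(k7,k24),(k9,k24)],[(k4,k60),(k6,k60),(k7,k60),(k9,k60)],[(k4,k60),(k6,k60),(k7,
    k60),(k9,k60)],[(k4,k40),(k6,k40),(k7,k40),(k9,k40)],[(k0,k24),(k5,k40),(k2,k60),(k3,k60)],[(k0,k24),(k5,k40),(k2,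
    k60),(k3,k60)],[(k0,k24),(k5,k40),(k2,k60),(k3,k60)],[(k0,k24),(k5,k40),(k2,k60),(k3,k60)],[(k1,k24)],[(k10,k30)],
    [(k11,k30)]]
    [] k0
    [[k1,k0,k0,k0,k1,k0],[k2,k0,k0,k0,k2,k0],[k1,k0,k1,k0,k1,k0],[k0,k0,k2,k0,k0,k0],[k0,k0,k0,k0,k0,k2],[k0,k0,k0,k0,
    k0,k3]]
    [.contra [y1,z1],.ref k5 k0 [(z2,[z1]),(z1,[z0,y1,z1])],.contra [y1,z1],.contra [z1],.contra [z1],.ref k2 k0 [(z1,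
    [y1,z3]),(z1,[z0,y1,z1])]]),
    .old (.leafM k10 [k1,k2,k3,k5] [(z1,[z0,z0,z1]),(z1,[y3,y1,y1,z3]),(z1,[z0,z1])] [(k4,k0,z1,[z1]),(k0,k4,z1,[z1])]),
    .old (.leafM k11 [k3,k5,k1,k2] [(z1,[y3,y3,y1,z3]),(z1,[z0,z0,z1]),(z1,[z0,z1])] [(k4,k0,z1,[z1]),(k0,k4,z1,[z1])]),
    .old (.lp [k18,k18,k30,k30,k102,k40] [k42,k42,k42,k42,k36,k36,k36,k36,k0,k0,k31,k31] k0 [] k120 k6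
    [[(k8,k60)],[(k4,k24),(k6,k24),(k7,k24),(k9,k60)],[(k4,k24),(k6,k24),(k7,k24),(k9,k60)],[(k4,k24),(k6,k24),(k7,
    k24),(k9,k60)],[(k4,k30),(k6,k30),(k7,k30),(k9,k66)],[(k0,k24),(k2,k24),(k3,k24),(k5,k30)],[(k0,k24),(k2,k24),(k3,
    k24),(k5,k30)],[(k0,k24),(k2,k24),(k3,k24),(k5,k30)],[(k0,k60),(k2,k60),(k3,k60),(k5,k66)],[(k1,k60)],[(k10,k40)],
    [(k11,k40)]]
    [] k0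
    [[k0,k1,k2,k1,k0,k0],[k0,k1,k1,k1,k0,k0],[k0,k1,k0,k1,k0,k0],[k0,k2,k0,k2,k0,k0],[k0,k0,k2,k0,k0,k0],[k0,k0,k3,k0,
    k0,k0],[k0,k0,k0,k0,k0,k2]]
    [.ref k7 k0 [(z1,[z0,z1]),(z1,[y3,z0,z2]),(z1,[z3,z0,y1])],.contra [z1,y2,y1,z2],.contra [y2,z0,z1],
    .ref k8 k0 [(z1,[z0,z1]),(z2,[z1]),(z2,[y3,z0,z2])],.contra [z1],.ref k7 k0 [(z1,[z0,z1]),(z1,[y1,z0,z1]),(z1,
    [z1])],.contra [z1]]),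
    .old (.leafM k12 [k1,k2,k3,k5] [(z1,[z0,z0,z1]),(z1,[y2,y2,y1,z2]),(z1,[z0,z1])] [(k4,k0,z1,[z1]),(k0,k4,z1,[z1])]),
    .old (.leafM k11 [k1,k2,k3,k5] [(z1,[z0,z0,z1]),(z1,[y3,y3,y1,z3]),(z1,[z0,z1])] [(k4,k0,z1,[z1]),(k0,k4,z1,[z1])]),
    .old (.lp [k6,k10,k10,k10,k34,k8] [k14,k14,k12,k12,k12,k12,k12,k12,k0,k0,k13,k13] k0 [] k40 k6
    [[(k8,k20)],[(k4,k8),(k6,k8),(k7,k8),(k9,k20)],[(k4,k10),(k6,k10),(k7,k10),(k9,k22)],[(k4,k10),(k6,k10),(k7,k10),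
    (k9,k22)],[(k4,k10),(k6,k10),(k7,k10),(k9,k22)],[(k0,k8),(k2,k10),(k3,k10),(k5,k10)],[(k0,k8),(k2,k10),(k3,k10),
    (k5,k10)],[(k0,k8),(k2,k10),(k3,k10),(k5,k10)],[(k0,k20),(k2,k22),(k3,k22),(k5,k22)],[(k1,k20)],[(k10,k8)],[(k11,
    k8)]]
    [] k0
    [[k0,k1,k1,k1,k0,k0],[k0,k1,k0,k1,k0,k0],[k0,k0,k2,k0,k0,k0],[k0,k0,k3,k0,k0,k0],[k0,k0,k0,k0,k0,k2],[k0,k0,k0,k0,
    k0,k3],[k0,k0,k0,k0,k0,k4]]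
    [.contra [z1,z0,y1],.contra [y1,z0,z2],.contra [z1],.ref k11 k0 [(z1,[z0,z1]),(z1,[z0,z0,z1]),(z1,[z1])],
    .contra [z1],.ref k9 k0 [(z1,[z0,z1]),(z1,[y1,y3,z0,z3])],.ref k10 k0 [(z1,[z0,z1]),(z1,[z0,z0,z1]),(z2,[y1,y4,y4,
    z4])]]),
    .old (.lp [k8,k8,k40,k40,k112,k30] [k52,k52,k52,k52,k36,k36,k36,k36,k0,k0,k41,k41] k0 [] k120 k6
    [[(k8,k60)],[(k4,k24),(k6,k24),(k7,k24),(k9,k60)],[(k4,k24),(k6,k24),(k7,k24),(k9,k60)],[(k4,k24),(k6,k24),(k7,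
    k24),(k9,k60)],[(k4,k40),(k6,k40),(k7,k40),(k9,k76)],[(k0,k24),(k2,k24),(k3,k24),(k5,k40)],[(k0,k24),(k2,k24),(k3,
    k24),(k5,k40)],[(k0,k24),(k2,k24),(k3,k24),(k5,k40)],[(k0,k60),(k2,k60),(k3,k60),(k5,k76)],[(k1,k60)],[(k10,k30)],
    [(k11,k30)]]
    [] k0
    [[k0,k1,k1,k1,k0,k0],[k0,k1,k0,k1,k0,k0],[k0,k2,k0,k2,k0,k0],[k0,k0,k2,k0,k0,k0],[k0,k0,k0,k0,k0,k2],[k0,k0,k0,k0,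
    k0,k3]]
    [.contra [y1,y1,z1],.contra [y1,y1,z1],.ref k12 k0 [(z1,[z0,z1]),(z2,[z1])],.contra [z1],.contra [z1],
    .ref k9 k0 [(z1,[z0,z1]),(z1,[y1,y3,z3])]]),
    .old (.lp [k0,k0,k6,k6,k6,k4] [k3,k3,k3,k3,k0,k0,k0,k0,k0,k0,k1,k1] k0 [] k12 k5
    [[(k8,k3)],[(k4,k3),(k6,k3),(k7,k3),(k9,k3)],[(k4,k3),(k6,k3),(k7,k3),(k9,k3)],[(k4,k3),(k6,k3),(k7,k3),(k9,k3)],
    [(k4,k6),(k6,k6),(k7,k6),(k9,k6)],[(k0,k3),(k2,k3),(k3,k3),(k5,k6)],[(k0,k3),(k2,k3),(k3,k3),(k5,k6)],[(k0,k3),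
    (k2,k3),(k3,k3),(k5,k6)],[(k0,k3),(k2,k3),(k3,k3),(k5,k6)],[(k1,k3)],[(k10,k4)],[(k11,k4)]]
    [] k0
    [[k1,k0,k0,k0,k1,k0],[k0,k1,k0,k1,k0,k0],[k0,k0,k0,k0,k0,k2]]
    [.ref k13 k0 [(z1,[z1])],.ref k6 k0 [(z1,[y1,z1])],.contra [z1]])]⟩

/-- classes `0 0 0 0 1 1`, types `B0 B0 B1 B1 N0 N2` -/
noncomputable def cU6_78 : CertX :=
  ⟨[k8,k8,k9,k9,k28,k30],[(false,k0,[k0,k1,k2,k3,k4,k5])],[[[([z1,z0,z1,z0,z1,z1],z2)],[([z1,z0,z0,z0,z1,z1],z2)],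
    []]],
    [.old (.leafM k3 [k0,k2,k4,k5] [] [(k1,k3,z1,[y1,z1]),(k3,k1,z1,[y1,z1])]),
    .old (.leafM k6 [k1,k2,k3,k4,k5,k0] [(z1,[z1])] []),
    .old (.lp [k2,k2,k4,k2,k2,k2] [k1,k1,k1,k1,k0,k0,k1,k1,k1,k1,k1,k1] k0 [] k8 k5
    [[(k11,k2)],[(k6,k2),(k7,k2),(k9,k2),(k4,k3)],[(k6,k2),(k7,k2),(k9,k2),(k4,k3)],[(k6,k2),(k7,k2),(k9,k2),(k4,k3)],
    [(k6,k3),(k7,k3),(k9,k3),(k4,k4)],[(k0,k3),(k2,k3),(k3,k3),(k5,k4)],[(k0,k2),(k2,k2),(k3,k2),(k5,k3)],[(k0,k2),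
    (k2,k2),(k3,k2),(k5,k3)],[(k0,k2),(k2,k2),(k3,k2),(k5,k3)],[(k10,k2)],[(k1,k2)],[(k8,k2)]]
    [] k0
    [[k1,k0,k0,k0,k1,k1],[k0,k1,k0,k1,k0,k0]]
    [.ref k1 k0 [(z1,[z1])],.ref k0 k0 [(z1,[y1,z1])]])]⟩

/-- classes `0 0 0 0 1 1`, types `B0 B0 B1 B1 S0 S0` -/
noncomputable def cU6_79 : CertX :=
  ⟨[k8,k8,k9,k9,k16,k16],[(false,k0,[k0,k1,k2,k3,k4,k5])],[[[([z1,z0,z1,z0,z1,z1],z2)],[([z1,z0,z0,z0,z1,z1],z2)],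
    [([z1,z0,z0,z0,z1,z0],z2),([z0,z3,z0,z3,z0,z0],z2),([z0,z0,z3,z0,z0,z0],z2)],[([z1,z0,z0,z0,z1,z0],z2),([z0,z1,z0,
    z1,z0,z0],z1),([z0,z0,z3,z0,z0,z0],z1)],[([z1,z0,z0,z0,z1,z0],z2),([z0,z3,z3,z3,z0,z0],z4)],[([z1,z0,z0,z0,z1,z0],
    z2),([z0,z1,z0,z1,z0,z0],z1),([z0,z0,z2,z0,z0,z0],z1)],[([z1,z0,z0,z0,z1,z0],z2),([z0,z1,z0,z1,z0,z0],z1),([z0,z0,
    z3,z0,z0,z0],z2)],[([z1,z0,z0,z0,z1,z0],z2),([z0,z1,z0,z1,z0,z0],z1)],[([z1,z0,z0,z0,z1,z0],z2)],[]]],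
    [.old (.leafM k1 [k4,k5,k0,k2] [] [(k1,k3,z1,[y1,z1]),(k3,k1,z1,[y1,z1])]),
    .old (.leafM k4 [k1,k2,k3,k4,k5,k0] [(z1,[z1])] []),
    .old (.leafM k10 [k1,k2,k3,k5] [(z1,[z0,z0,z1]),(z1,[y3,y1,y1,z3]),(z1,[z0,z1])] [(k4,k0,z1,[z1]),(k0,k4,z1,[z1])]),
    .old (.leafM k11 [k3,k5,k1,k2] [(z1,[y3,y3,y1,z3]),(z1,[z0,z0,z1]),(z1,[z0,z1])] [(k4,k0,z1,[z1]),(k0,k4,z1,[z1])]),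
    .old (.lp [k150,k60,k60,k36,k90,k80] [k0,k0,k45,k45,k45,k45,k57,k57,k30,k30,k35,k35] k0 [] (nat_lit 240) k6
    [[(k10,k115),(k11,k115),(k8,k120),(k1,k150)],[(k6,k93),(k7,k93),(k4,k105),(k9,k120)],[(k6,k48),(k7,k48),(k4,k60),
    (k9,k75)],[(k6,k48),(k7,k48),(k4,k60),(k9,k75)],[(k6,k48),(k7,k48),(k4,k60),(k9,k75)],[(k2,k60),(k3,k60),(k5,k60),
    (k0,k105)],[(k2,k48),(k3,k48),(k5,k48),(k0,k93)],[(k2,k48),(k3,k48),(k5,k48),(k0,k93)],[(k2,k75),(k3,k75),(k5,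
    k75),(k0,k120)],[(k10,k85),(k11,k85),(k8,k90),(k1,k120)],[(k10,k80),(k11,k80),(k8,k85),(k1,k115)],[(k10,k80),(k11,
    k80),(k8,k85),(k1,k115)]]
    [] k0
    [[k0,k1,k2,k1,k0,k0],[k0,k1,k1,k1,k0,k0],[k0,k1,k0,k1,k0,k0],[k0,k2,k0,k2,k0,k0],[k0,k0,k2,k0,k0,k0],[k0,k0,k3,k0,
    k0,k0],[k0,k0,k0,k0,k0,k2]]
    [.ref k2 k0 [(z1,[z0,z1]),(z1,[y3,z0,z2]),(z1,[z3,z0,y1])],.contra [z1,y2,y1,z2],.contra [y2,z0,z1],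
    .ref k3 k0 [(z1,[z0,z1]),(z2,[z1]),(z2,[y3,z0,z2])],.contra [z1],.ref k2 k0 [(z1,[z0,z1]),(z1,[y1,z0,z1]),(z1,
    [z1])],.contra [z1]]),
    .old (.leafM k12 [k1,k2,k3,k5] [(z1,[z0,z0,z1]),(z1,[y2,y2,y1,z2]),(z1,[z0,z1])] [(k4,k0,z1,[z1]),(k0,k4,z1,[z1])]),
    .old (.leafM k11 [k1,k2,k3,k5] [(z1,[z0,z0,z1]),(z1,[y3,y3,y1,z3]),(z1,[z0,z1])] [(k4,k0,z1,[z1]),(k0,k4,z1,[z1])]),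
    .old (.lp [k54,k28,k20,k12,k26,k16] [k0,k0,k13,k13,k17,k17,k21,k21,k14,k14,k19,k19] k0 [] k80 k6
    [[(k10,k35),(k11,k35),(k8,k40),(k1,k54)],[(k6,k33),(k7,k33),(k4,k37),(k9,k40)],[(k6,k20),(k7,k20),(k4,k24),(k9,
    k27)],[(k6,k20),(k7,k20),(k4,k24),(k9,k27)],[(k6,k16),(k7,k16),(k4,k20),(k9,k23)],[(k5,k20),(k2,k24),(k3,k24),(k0,
    k37)],[(k5,k16),(k2,k20),(k3,k20),(k0,k33)],[(k5,k16),(k2,k20),(k3,k20),(k0,k33)],[(k5,k23),(k2,k27),(k3,k27),(k0,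
    k40)],[(k10,k21),(k11,k21),(k8,k26),(k1,k40)],[(k10,k16),(k11,k16),(k8,k21),(k1,k35)],[(k10,k16),(k11,k16),(k8,
    k21),(k1,k35)]]
    [] k0
    [[k0,k1,k1,k1,k0,k0],[k0,k1,k0,k1,k0,k0],[k0,k0,k2,k0,k0,k0],[k0,k0,k3,k0,k0,k0],[k0,k0,k0,k0,k0,k2],[k0,k0,k0,k0,
    k0,k3],[k0,k0,k0,k0,k0,k4]]
    [.contra [z1,z0,y1],.contra [y1,z0,z2],.contra [z1],.ref k6 k0 [(z1,[z0,z1]),(z1,[z0,z0,z1]),(z1,[z1])],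
    .contra [z1],.ref k4 k0 [(z1,[z0,z1]),(z1,[y1,y3,z0,z3])],.ref k5 k0 [(z1,[z0,z1]),(z1,[z0,z0,z1]),(z2,[y1,y4,y4,
    z4])]]),
    .old (.lp [k80,k40,k40,k8,k40,k30] [k0,k0,k20,k20,k20,k20,k36,k36,k20,k20,k25,k25] k0 [] k120 k6
    [[(k10,k55),(k11,k55),(k8,k60),(k1,k80)],[(k6,k44),(k7,k44),(k4,k60),(k9,k60)],[(k6,k24),(k7,k24),(k4,k40),(k9,
    k40)],[(k6,k24),(k7,k24),(k4,k40),(k9,k40)],[(k6,k24),(k7,k24),(k4,k40),(k9,k40)],[(k2,k40),(k3,k40),(k5,k40),(k0,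
    k60)],[(k2,k24),(k3,k24),(k5,k24),(k0,k44)],[(k2,k24),(k3,k24),(k5,k24),(k0,k44)],[(k2,k40),(k3,k40),(k5,k40),(k0,
    k60)],[(k10,k35),(k11,k35),(k8,k40),(k1,k60)],[(k10,k30),(k11,k30),(k8,k35),(k1,k55)],[(k10,k30),(k11,k30),(k8,
    k35),(k1,k55)]]
    [] k0
    [[k0,k1,k1,k1,k0,k0],[k0,k1,k0,k1,k0,k0],[k0,k2,k0,k2,k0,k0],[k0,k0,k2,k0,k0,k0],[k0,k0,k0,k0,k0,k2],[k0,k0,k0,k0,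
    k0,k3]]
    [.contra [y1,y1,z1],.contra [y1,y1,z1],.ref k7 k0 [(z1,[z0,z1]),(z2,[z1])],.contra [z1],.contra [z1],
    .ref k4 k0 [(z1,[z0,z1]),(z1,[y1,y3,z3])]]),
    .old (.lp [k10,k8,k8,k4,k8,k8] [k0,k0,k1,k1,k1,k1,k3,k3,k1,k1,k1,k1] k0 [] k24 k5
    [[(k8,k9),(k10,k9),(k11,k9),(k1,k10)],[(k6,k7),(k7,k7),(k4,k9),(k9,k9)],[(k6,k6),(k7,k6),(k4,k8),(k9,k8)],[(k6,
    k6),(k7,k6),(k4,k8),(k9,k8)],[(k6,k6),(k7,k6),(k4,k8),(k9,k8)],[(k2,k8),(k3,k8),(k5,k8),(k0,k9)],[(k2,k6),(k3,k6),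
    (k5,k6),(k0,k7)],[(k2,k6),(k3,k6),(k5,k6),(k0,k7)],[(k2,k8),(k3,k8),(k5,k8),(k0,k9)],[(k8,k8),(k10,k8),(k11,k8),
    (k1,k9)],[(k8,k8),(k10,k8),(k11,k8),(k1,k9)],[(k8,k8),(k10,k8),(k11,k8),(k1,k9)]]
    [] k0
    [[k1,k0,k0,k0,k1,k0],[k0,k1,k1,k1,k0,k0],[k0,k1,k0,k1,k0,k0],[k0,k0,k2,k0,k0,k0],[k0,k0,k0,k0,k0,k2]]
    [.ref k8 k0 [(z1,[z1])],.ref k1 k0 [(z1,[y1,z1])],.ref k0 k0 [(z1,[y1,z1])],.contra [z1],.contra [z1]])]⟩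

/-- classes `0 0 0 0 1 1`, types `B0 B1 B0 B1 B0 B1` -/
noncomputable def cU6_80 : CertX :=
  ⟨[k8,k9,k8,k9,k24,k25],[(false,k0,[k0,k1,k2,k3,k4,k5]),(true,k4,[k4,k3,k2,k1,k0,k5])],[[[([z1,z0,z0,z0,z1,z1],z2)],
    [([z1,z0,z0,z1,z1,z1],z2),([z0,z1,z0,y1,z0,z0],z0)],[([z3,z0,z0,z0,z3,z0],z2),([z0,z1,z0,z1,z0,z0],z2),([z0,z0,z3,
    z0,z0,z0],z2)],[([z1,z0,z0,z0,z1,z0],z1),([z0,z1,z0,z1,z0,z0],z2),([z0,z0,z3,z0,z0,z0],z1)],[([z3,z0,z0,y3,z3,z0],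
    y2),([z0,z1,z0,z1,z0,z0],z2),([z0,z0,z1,z1,z0,z0],z2)],[([z3,z0,z0,z3,z3,z0],z4),([z0,z3,z0,z0,z0,z0],z2),([z0,z0,
    z3,z0,z0,z0],z4)],[([z3,z0,z0,z3,z3,z0],z4),([z0,z3,z0,y3,z0,z0],z2),([z0,z0,z3,z3,z0,z0],z4)],[([z3,z0,z0,z3,z3,
    z0],z4),([z0,z1,z1,z0,z0,z0],z2)],[([z1,z0,z0,y1,z1,z0],z0),([z0,z1,z0,z1,z0,z0],z2),([z0,z0,z3,z3,z0,z0],z4)],
    [([z3,z0,z3,z0,z3,z0],z4),([z0,z1,z0,z1,z0,z0],z2)],[([z1,z0,z0,z0,z1,z0],z2),([z0,z3,z0,z3,z0,z0],z2),([z0,z0,z3,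
    z0,z0,z0],z2)],[([z1,z0,z0,z0,z1,z0],z2),([z0,z1,z0,z1,z0,z0],z1),([z0,z0,z3,z0,z0,z0],z1)]],[[([z1,z0,z0,z0,z1,
    z0],z2),([z0,z6,z0,z3,z0,z0],z2),([z0,z0,z2,z1,z0,z0],z2)],[([z1,z0,z0,z0,z1,z0],z2),([z0,z2,z0,z1,z0,z0],z2),
    ([z0,z0,z6,z3,z0,z0],z2)],[([z1,z0,z0,z0,z1,z0],z2),([z0,z3,z3,z3,z0,z0],z4)],[([z1,z0,z1,z0,z1,z0],z2),([z0,z3,
    z0,z0,z0,z0],z2),([z0,z0,z0,z3,z0,z0],z2)],[([z3,z0,z0,y3,z3,z0],z2),([z0,z3,z0,z3,z0,z0],z4),([z0,z0,z3,z3,z0,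
    z0],z4)],[([z1,z0,z1,z0,z1,z0],z2),([z0,z3,z0,z3,z0,z0],z4)],[([z1,z0,z0,z1,z1,z0],z2),([z0,z3,z3,z0,z0,z0],z4)],
    [([z3,z3,z3,z3,z3,z0],z10)],[([z1,z0,z0,z0,z1,z0],z1),([z0,z1,z0,z1,z0,z0],z2),([z0,z0,z2,z0,z0,z0],z1)],[([z1,z0,
    z0,z0,z1,z2],z2),([z0,z1,z0,z0,z0,y1],z0),([z0,z0,z1,z0,z0,y1],z0)],[([z1,z0,z0,z0,z1,z0],z1),([z0,z1,z0,z1,z0,
    z0],z2),([z0,z0,z3,z0,z0,z0],z2)],[([z1,z0,z0,z0,z1,z0],z1),([z0,z1,z0,z0,z0,y1],z1),([z0,z0,z1,z0,z0,z1],z1)]],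
    [[([z1,z0,z0,y1,z1,z1],z0),([z0,z1,z0,z1,z0,z0],z2)],[([z1,z0,z0,z1,z1,z1],z2)],[([z1,z0,z0,z0,z1,z2],z2),([z0,z1,
    z0,z0,z0,y2],z0),([z0,z0,z1,z0,z0,y1],z0)],[([z1,z0,z0,z0,z1,z2],z2),([z0,z1,z0,z1,z0,z0],z2)],[([z1,z0,z0,z0,z1,
    z0],z1),([z0,z1,z0,z1,z0,z0],z2)],[([z1,z0,z1,z0,z1,z1],z2)],[([z1,z0,z0,z0,z1,z0],z2),([z0,z3,z0,z0,z0,z0],z2),
    ([z0,z0,z3,z0,z0,z3],z2)],[([z1,z0,z0,z0,z1,z0],z2),([z0,z2,z0,z1,z0,z0],z2)],[([z1,z0,z0,z0,z1,z0],z2),([z0,z1,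
    z0,z1,z0,z0],z1),([z0,z0,z2,z0,z0,z0],z1)],[([z1,z0,z0,z0,z1,z0],z2),([z0,z1,z0,z1,z0,z0],z1),([z0,z0,z3,z0,z0,
    z0],z2)],[([z1,z0,z0,z0,z1,z0],z2),([z0,z1,z0,z1,z0,z0],z1)],[([z1,z0,z0,z0,z1,z0],z2)]],[[([z1,z0,z0,z1,z1,z0],
    z2)],[]]],
    [.old (.leafM k6 [k1,k2,k3,k4,k5,k0] [(z1,[z1])] []),
    .old (.tor k3 false k0 [(z1,[y1,y1,z1]),(z1,[y1,z0,z1]),(z1,[z1]),(z1,[z1,z1])]),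
    .old (.leafM k10 [k0,k2,k4,k5] [(z1,[z0,z0,z1]),(z1,[y1,y3,y1,z3]),(z1,[z1])] [(k1,k3,z1,[z0,z1]),(k3,k1,z1,[z0,z1])]),
    .old (.leafM k11 [k4,k5,k0,k2] [(z1,[y3,y3,y1,z3]),(z1,[z0,z0,z1]),(z1,[z1])] [(k1,k3,z1,[z0,z1]),(k3,k1,z1,[z0,z1])]),
    .old (.lp [(nat_lit 11960),(nat_lit 11960),(nat_lit 12480),(nat_lit 20930),(nat_lit 2392),
    (nat_lit 11960)] [(nat_lit 4485),(nat_lit 4485),(nat_lit 4485),(nat_lit 4485),(nat_lit 4225),(nat_lit 4225),k0,k0,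
    (nat_lit 9269),(nat_lit 9269),(nat_lit 4485),(nat_lit 4485)] k0 [[k0,k0,k0,(nat_lit 2392)],[],[k0,(nat_lit 2392)],
    [k0,k0,k0,k0,k0,(nat_lit 2990)],[k0,k0,(nat_lit 2990)],[k0,k0,k0,k0,k0,k0,(nat_lit 2760)],[],[k0,k0,k0,k0,
    (nat_lit 2760)]] (nat_lit 35880) k6
    [[(k8,(nat_lit 7176)),(k11,(nat_lit 11960))],[(k9,(nat_lit 7176)),(k2,(nat_lit 9568)),(k5,(nat_lit 12220)),(k6,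
    (nat_lit 16445))],[(k9,(nat_lit 7176)),(k2,(nat_lit 11960)),(k5,(nat_lit 14612)),(k6,(nat_lit 16445))],[(k0,
    (nat_lit 9568)),(k3,(nat_lit 11960)),(k4,(nat_lit 12220)),(k7,(nat_lit 19435))],[(k4,(nat_lit 9490)),(k0,
    (nat_lit 12220)),(k3,(nat_lit 14612)),(k7,(nat_lit 16705))],[(k9,(nat_lit 7436)),(k5,(nat_lit 9490)),(k2,
    (nat_lit 12220)),(k6,(nat_lit 19465))],[(k9,(nat_lit 8901)),(k5,(nat_lit 16705)),(k2,(nat_lit 19435)),(k6,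
    (nat_lit 20930))],[(k0,(nat_lit 16445)),(k3,(nat_lit 16445)),(k4,(nat_lit 19465)),(k7,(nat_lit 20930))],[(k0,
    (nat_lit 7176)),(k3,(nat_lit 7176)),(k4,(nat_lit 7436)),(k7,(nat_lit 8901))],[(k1,(nat_lit 7176)),(k10,
    (nat_lit 7176))],[(k1,(nat_lit 11960)),(k10,(nat_lit 11960))],[(k8,(nat_lit 7176)),(k11,(nat_lit 11960))]]
    [] k0
    [[k1,k0,k0,k0,k1,k0],[k2,k0,k0,k0,k2,k0],[k1,k1,k0,k0,k1,k0],[k1,k0,k1,k0,k1,k0],[k1,k0,k0,k1,k1,k0],[k1,k0,k0,k0,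
    k1,k1],[k0,k2,k0,k0,k0,k0],[k0,k1,k1,k0,k0,k0],[k0,k0,k2,k0,k0,k0],[k0,k0,k3,k0,k0,k0],[k0,k0,k0,k0,k0,k2]]
    [.contra [y3,z1,z4],.ref k3 k0 [(z2,[z1]),(z1,[z0,z0,z1]),(z2,[y3,z2,z0,z6])],.contra [z1,y1,y3,y2,z2],
    .contra [z1,y1,y2,y3,z2],.ref k2 k0 [(z2,[z3,z1]),(z1,[z0,z0,z1]),(z2,[y3,z1,z0,z6])],.contra [y1,z0,z0,y1,z1],
    .contra [z1],.contra [z1,z0,z1,y1],.contra [z1,z0,z2,y2],.ref k2 k0 [(z1,[y1,z1,z0,z3]),(z1,[z0,z0,z1]),(z1,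
    [z1])],.contra [z1]]),
    .old (.lp [k8,k8,k12,k7,k4,k8] [k2,k2,k2,k2,k0,k0,k3,k2,k4,k4,k2,k2] k0 [[k0,k0,k0,k2],[],[k0,k2],[k0,k0,k0,k0,k2,k2],
    [k0,k0,k2],[k0,k0,k2]] k24 k5
    [[(k8,k6),(k11,k8)],[(k2,k6),(k9,k6),(k6,k7),(k5,k10)],[(k9,k6),(k6,k7),(k2,k8),(k5,k12)],[(k0,k6),(k3,k8),(k7,
    k10),(k4,k12)],[(k7,k8),(k0,k10),(k4,k10),(k3,k12)],[(k9,k8),(k6,k9),(k5,k10),(k2,k12)],[(k9,k6),(k6,k7),(k5,k8),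
    (k2,k10)],[(k0,k7),(k3,k7),(k7,k7),(k4,k9)],[(k0,k6),(k3,k6),(k7,k6),(k4,k8)],[(k1,k6),(k10,k6)],[(k1,k8),(k10,
    k8)],[(k8,k6),(k11,k8)]]
    [] k0
    [[k1,k0,k0,k0,k1,k0],[k1,k1,k0,k0,k1,k0],[k1,k0,k0,k1,k1,k0],[k1,k0,k0,k0,k1,k1],[k0,k2,k0,k0,k0,k0],[k0,k1,k0,k1,
    k0,k0],[k0,k0,k2,k0,k0,k0],[k0,k0,k1,k1,k0,k0],[k0,k0,k0,k2,k0,k0],[k0,k0,k0,k3,k0,k0],[k0,k0,k0,k0,k0,k2]]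
    [.contra [y3,z1,z1],.contra [y3,z1,z1],.contra [z3,y1,z2],.contra [y3,z0,y1,y1,z3],.contra [z1],.contra [y3,z1,
    z1],.contra [y3,z0,z2,z2],.ref k1 k0 [(z3,[z0,z0,y1,y1,z3]),(z3,[y3,z0,z1,z1])],.contra [z1],.ref k1 k0 [(z3,[z0,
    z0,y1,y1,z3]),(z3,[y1,z0,z1])],.contra [z3,z2,z4,z2,y6]]),
    .old (.lp [k66,k120,k104,k54,k54,k80] [k27,k27,k0,k0,k8,k8,k33,k33,k33,k33,k20,k20] k0 [[],[k0,k0,k0,k28],[k28],[k0,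
    k0,k0,k0,k16],[k0,k0,k0,k0,k0,k0,k12,k6],[k0,k0,k16],[k0,k0,k0,k0,k0,k6],[k0,k0,k0,k0,k0,k12]] (nat_lit 240) k5
    [[(k8,k60),(k11,k73)],[(k6,k60),(k9,k60),(k2,k93),(k5,k113)],[(k6,k87),(k9,k87),(k2,k92),(k5,k112)],[(k7,k87),(k3,
    k92),(k0,k93),(k4,k128)],[(k7,k63),(k4,k104),(k3,k112),(k0,k113)],[(k9,k67),(k6,k73),(k5,k104),(k2,k128)],[(k9,
    k60),(k5,k63),(k6,k66),(k2,k87)],[(k0,k60),(k7,k66),(k4,k73),(k3,k87)],[(k0,k60),(k7,k60),(k4,k67),(k3,k87)],[(k1,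
    k60),(k10,k67)],[(k1,k73),(k10,k80)],[(k8,k67),(k11,k80)]]
    [] k0
    [[k1,k0,k0,k0,k1,k0],[k1,k0,k0,k1,k1,k0],[k1,k0,k0,k0,k1,k1],[k0,k2,k0,k0,k0,k0],[k0,k1,k0,k1,k0,k0],[k0,k0,k2,k0,
    k0,k0],[k0,k0,k1,k1,k0,k0],[k0,k0,k1,k2,k0,k0],[k0,k0,k0,k2,k0,k0],[k0,k0,k0,k3,k0,k0],[k0,k0,k0,k0,k0,k2]]
    [.contra [y3,z1,z1],.contra [z3,y3,y2,y2,z6],.contra [y3,z0,y1,y1,z3],.contra [z1],.ref k2 k0 [(z2,[y3,z2,z1]),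
    (z1,[z1]),(z2,[y3,z0,z1,z2])],.contra [y3,z0,z2,z2],.contra [z3,y2,y2,y3,z6],.ref k2 k0 [(z1,[y3,z1,z0,z1]),(z3,
    [z6,z0,z1,y2]),(z1,[y3,z0,z0,z2])],.contra [z1],.ref k2 k0 [(z1,[y1,z1]),(z3,[z2,z0,z1]),(z1,[y1,z0,z0,z1])],
    .contra [z1]]),
    .old (.lp [k16,k16,k22,k16,k8,k16] [k3,k3,k3,k3,k0,k0,k3,k3,k7,k7,k3,k3] k0 [[k0,k0,k0,k4],[k0,k0,k0,k2],[k2,k4],[k0,
    k0,k0,k0,k6,k2],[k0,k0,k2],[k0,k0,k6]] k48 k5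
    [[(k8,k12),(k11,k16)],[(k2,k12),(k9,k12),(k6,k16),(k5,k21)],[(k9,k12),(k2,k14),(k6,k16),(k5,k23)],[(k0,k12),(k3,
    k14),(k7,k18),(k4,k25)],[(k7,k13),(k4,k20),(k0,k21),(k3,k23)],[(k9,k15),(k6,k19),(k5,k20),(k2,k25)],[(k9,k12),(k5,
    k13),(k6,k16),(k2,k18)],[(k0,k16),(k3,k16),(k7,k16),(k4,k19)],[(k0,k12),(k3,k12),(k7,k12),(k4,k15)],[(k1,k12),
    (k10,k12)],[(k1,k16),(k10,k16)],[(k8,k12),(k11,k16)]]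
    [] k0
    [[k1,k0,k0,k0,k1,k0],[k1,k1,k0,k0,k1,k0],[k1,k0,k0,k1,k1,k0],[k1,k0,k0,k0,k1,k1],[k0,k2,k0,k0,k0,k0],[k0,k3,k0,k0,
    k0,k0],[k0,k1,k0,k1,k0,k0],[k0,k0,k2,k0,k0,k0],[k0,k0,k1,k1,k0,k0],[k0,k0,k0,k2,k0,k0],[k0,k0,k0,k0,k0,k2]]
    [.contra [y3,z1,z1],.ref k6 k0 [(z1,[z0,z1]),(z1,[z3,y1]),(z1,[y3,z1,z3])],.contra [z1,y1,y2,z2],.contra [y1,z0,
    y1,z1],.contra [z1],.ref k5 k0 [(z1,[z0,z1]),(z1,[z1]),(z1,[y1,z0,z3])],.ref k4 k1 [(z1,[y3,z1]),(z1,[z1]),(z1,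
    [z0,z0,z1])],.contra [y1,z0,z2],.ref k1 k0 [(z1,[z0,z0,y1,z1]),(z1,[y1,z0,z1])],.contra [z1],.contra [z1]]),
    .old (.lp [k190,(nat_lit 356),k182,(nat_lit 360),k106,(nat_lit 240)] [k85,k85,k2,k2,k89,k89,k0,k0,k127,k127,k60,
    k60] k0 [[k0,k0,k0,k0,k0,k0,k4,k68],[k0,k0,k0,k60],[k60],[],[],[],[k0,k68],[k0,k4]] (nat_lit 720) k6
    [[(k8,k148),(k11,(nat_lit 215))],[(k9,k144),(k6,(nat_lit 207)),(k5,(nat_lit 246)),(k2,(nat_lit 273))],[(k5,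
    (nat_lit 269)),(k2,(nat_lit 296)),(k9,(nat_lit 299)),(k6,(nat_lit 362))],[(k4,(nat_lit 269)),(k0,(nat_lit 273)),
    (k3,(nat_lit 296)),(k7,(nat_lit 358))],[(k4,k182),(k0,(nat_lit 246)),(k3,(nat_lit 269)),(k7,(nat_lit 271))],[(k9,
    k144),(k5,k182),(k2,(nat_lit 269)),(k6,(nat_lit 271))],[(k9,(nat_lit 233)),(k5,(nat_lit 271)),(k2,(nat_lit 358)),
    (k6,(nat_lit 360))],[(k0,(nat_lit 207)),(k4,(nat_lit 271)),(k7,(nat_lit 360)),(k3,(nat_lit 362))],[(k0,k144),(k4,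
    k144),(k7,(nat_lit 233)),(k3,(nat_lit 299))],[(k1,k148),(k10,k173)],[(k1,(nat_lit 215)),(k10,(nat_lit 240))],[(k8,
    k173),(k11,(nat_lit 240))]]
    [] k0
    [[k1,k0,k0,k0,k1,k0],[k2,k0,k0,k0,k2,k0],[k1,k0,k1,k0,k1,k0],[k1,k0,k0,k1,k1,k0],[k1,k0,k0,k0,k1,k1],[k0,k2,k0,k0,
    k0,k0],[k0,k1,k1,k0,k0,k0],[k0,k0,k2,k0,k0,k0],[k0,k0,k3,k0,k0,k0],[k0,k0,k1,k1,k0,k0],[k0,k0,k0,k0,k0,k2]]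
    [.contra [y1,z1,z1],.contra [y1,z2,z2],.contra [z1,y3,y2,y1,z2],.contra [y1,z1,z2],.contra [y1,z0,y1,z0,z1],
    .contra [z1],.ref k7 k0 [(z1,[y3,z3,z3,z1]),(z1,[z1])],.contra [z1],.ref k7 k0 [(z1,[y2,z3,z0,z2]),(z3,[z2,z0,z3,
    y1])],.contra [z1,y2,y2,y1,z2],.contra [z1]]),
    .old (.lp [k80,k84,k74,k144,k16,k80] [k32,k32,k30,k30,k35,k35,k0,k0,k64,k64,k32,k32] k0 [[k0,k0,k0,k20],[],[k0,k20],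
    [k0,k0,k0,k0,k0,k12],[k0,k0,k12],[k0,k0,k0,k0,k0,k0,k0,k8],[k0,k0,k0,k0,k8]] (nat_lit 240) k6
    [[(k8,k48),(k11,k80)],[(k9,k48),(k2,k62),(k5,k77),(k6,k112)],[(k9,k50),(k2,k84),(k5,k99),(k6,k114)],[(k0,k62),(k4,
    k79),(k3,k84),(k7,k126)],[(k4,k62),(k0,k77),(k3,k99),(k7,k109)],[(k9,k53),(k5,k62),(k2,k79),(k6,k109)],[(k9,k80),
    (k5,k109),(k2,k126),(k6,k136)],[(k4,k109),(k0,k112),(k3,k114),(k7,k136)],[(k0,k48),(k3,k50),(k4,k53),(k7,k80)],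
    [(k1,k48),(k10,k48)],[(k1,k80),(k10,k80)],[(k8,k48),(k11,k80)]]
    [] k0
    [[k1,k0,k0,k0,k1,k0],[k2,k0,k0,k0,k2,k0],[k1,k1,k0,k0,k1,k0],[k1,k0,k1,k0,k1,k0],[k1,k0,k0,k0,k1,k1],[k0,k2,k0,k0,
    k0,k0],[k0,k1,k1,k0,k0,k0],[k0,k0,k2,k0,k0,k0],[k0,k0,k3,k0,k0,k0],[k0,k0,k1,k1,k0,k0],[k0,k0,k0,k0,k0,k2]]
    [.contra [y3,z1,z1],.ref k3 k0 [(z2,[z1]),(z1,[z0,z0,z1]),(z2,[y3,z2])],.ref k8 k0 [(z1,[z1,z0,y1]),(z1,[z0,z0,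
    z1]),(z1,[y3,z1,z3])],.contra [z1,y1,y2,z2],.contra [y1,z0,y1,z1],.contra [z1],.ref k7 k0 [(z1,[y3,z1,z3]),(z1,
    [z1])],.contra [z1],.ref k2 k0 [(z1,[y1,z1]),(z1,[z0,z0,z1]),(z1,[z1])],.ref k7 k1 [(z1,[y3,z1,z3]),(z1,[z1])],
    .contra [z1]]),
    .old (.leafM k10 [k1,k2,k3,k5] [(z1,[z0,z0,z1]),(z1,[y3,y1,y1,z3]),(z1,[z0,z1])] [(k4,k0,z1,[z1]),(k0,k4,z1,[z1])]),
    .old (.leafM k11 [k3,k5,k1,k2] [(z1,[y3,y3,y1,z3]),(z1,[z0,z0,z1]),(z1,[z0,z1])] [(k4,k0,z1,[z1]),(k0,k4,z1,[z1])]),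
    .old (.lp [k109,k82,k62,k116,k29,k80] [k28,k41,k68,k28,k58,k58,k0,k62,k81,k68,k49,k49] k0 [[k0,k0,k0,k34],[k0,k0,k0,
    k0,k0,k0,k0,k102],[k0,k34],[],[k0,k0,k0,k0,k0,k0,k4],[],[k102],[k0,k0,k0,k0,k0,k4]] (nat_lit 240) k6
    [[(k8,k56),(k11,k88)],[(k2,k48),(k5,k92),(k6,k150),(k9,k184)],[(k6,k48),(k2,k82),(k9,k82),(k5,k126)],[(k0,k48),
    (k7,k48),(k4,k52),(k3,k82)],[(k7,k58),(k4,k62),(k0,k92),(k3,k126)],[(k9,k48),(k2,k52),(k5,k62),(k6,k120)],[(k2,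
    k48),(k9,k48),(k5,k58),(k6,k120)],[(k3,k48),(k4,k120),(k7,k120),(k0,k150)],[(k4,k48),(k7,k48),(k3,k82),(k0,k184)],
    [(k10,k48),(k1,k56)],[(k10,k80),(k1,k88)],[(k8,k48),(k11,k80)]]
    [] k0
    [[k1,k1,k0,k0,k1,k0],[k1,k0,k1,k0,k1,k0],[k1,k1,k0,k1,k1,k0],[k0,k2,k0,k0,k0,k0],[k0,k2,k0,k1,k0,k0],[k0,k1,k1,k0,
    k0,k0],[k0,k1,k0,k1,k0,k0],[k0,k2,k0,k2,k0,k0],[k0,k1,k1,k1,k0,k0],[k0,k1,k2,k1,k0,k0],[k0,k1,k0,k2,k0,k0],[k0,k0,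
    k2,k0,k0,k0],[k0,k0,k3,k0,k0,k0],[k0,k0,k1,k1,k0,k0],[k0,k0,k0,k0,k0,k2]]
    [.contra [z1,y1],.contra [z1,y1],.contra [z1,y1],.contra [z1],.contra [z1,y4,y1,y2,z4],.contra [y2,z0,z1,z1],
    .contra [y6,z0,z1,z5],.contra [y2,z0,z1,z1],.contra [z2,y4,y1,y3,z4],.contra [z1,z0,z0,y1],.contra [y2,z0,z1,z1],
    .contra [z1],.contra [z2,z0,z1,y3],.contra [y1,z0,z0,z1],.contra [z1]]),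
    .old (.lp [k70,k41,k30,k45,k13,k40] [k0,k8,k30,k7,k24,k24,k10,k23,k35,k30,k19,k19] k0 [[k0,k0,k30],[k0,k0,k0,k0,k0,k0,
    k0,k37],[],[k0,k30],[],[],[k37]] k120 k6
    [[(k8,k35),(k11,k51)],[(k5,k24),(k2,k48),(k6,k68),(k9,k85)],[(k6,k24),(k9,k41),(k5,k47),(k2,k71)],[(k4,k24),(k7,
    k25),(k0,k48),(k3,k71)],[(k0,k24),(k4,k30),(k7,k31),(k3,k47)],[(k2,k24),(k9,k24),(k5,k30),(k6,k44)],[(k2,k25),(k9,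
    k25),(k5,k31),(k6,k45)],[(k3,k24),(k4,k44),(k7,k45),(k0,k68)],[(k4,k24),(k7,k25),(k3,k41),(k0,k85)],[(k10,k24),
    (k1,k35)],[(k10,k40),(k1,k51)],[(k8,k24),(k11,k40)]]
    [] k0
    [[k1,k0,k1,k0,k1,k0],[k1,k0,k2,k0,k1,k0],[k0,k1,k1,k0,k0,k0],[k0,k1,k2,k0,k0,k0],[k0,k1,k1,k1,k0,k0],[k0,k1,k0,k1,
    k0,k0],[k0,k2,k0,k2,k0,k0],[k0,k1,k2,k1,k0,k0],[k0,k1,k0,k2,k0,k0],[k0,k0,k2,k0,k0,k0],[k0,k0,k3,k0,k0,k0],[k0,k0,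
    k2,k1,k0,k0],[k0,k0,k1,k1,k0,k0],[k0,k0,k0,k2,k0,k0],[k0,k0,k0,k0,k0,k2]]
    [.contra [z1,y1],.contra [z1,y1],.contra [y2,z0,z1,z1],.contra [y2,z0,z1,z1],.contra [z2,y4,y3,y1,z4],.contra [y1,
    z0,z1],.contra [y1,z0,z2],.contra [y2,z0,z1,z1],.contra [y2,z0,z1,z1],.contra [z1],.contra [y1,z0,z0,z1],
    .contra [z1,y4,y2,y1,z4],.contra [y6,z0,z5,z1],.contra [z1],.contra [z1]]),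
    .old (.lp [k24,k45,k30,k60,k40,k40] [k35,k35,k35,k14,k32,k32,k0,k34,k27,k27,k27,k27] k0 [[],[k0,k0,k0,k0,k0,k0,k0,
    k56],[],[],[k0,k0,k0,k0,k0,k0,k11],[],[k56],[k0,k0,k0,k0,k0,k11]] k120 k6
    [[(k8,k32),(k11,k32)],[(k2,k24),(k5,k27),(k6,k59),(k9,k88)],[(k6,k24),(k2,k45),(k5,k48),(k9,k53)],[(k0,k24),(k7,
    k25),(k4,k27),(k3,k45)],[(k0,k27),(k7,k28),(k4,k30),(k3,k48)],[(k9,k24),(k2,k27),(k5,k30),(k6,k62)],[(k2,k25),(k5,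
    k28),(k9,k33),(k6,k71)],[(k3,k24),(k0,k59),(k4,k62),(k7,k71)],[(k4,k24),(k7,k33),(k3,k53),(k0,k88)],[(k1,k32),
    (k10,k40)],[(k1,k32),(k10,k40)],[(k8,k40),(k11,k40)]]
    [] k0
    [[k1,k1,k0,k0,k1,k0],[k1,k0,k1,k0,k1,k0],[k1,k0,k2,k0,k1,k0],[k1,k1,k0,k1,k1,k0],[k0,k2,k0,k0,k0,k0],[k0,k2,k0,k1,
    k0,k0],[k0,k1,k1,k0,k0,k0],[k0,k1,k2,k0,k0,k0],[k0,k1,k0,k1,k0,k0],[k0,k2,k0,k2,k0,k0],[k0,k1,k1,k1,k0,k0],[k0,k1,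
    k2,k1,k0,k0],[k0,k0,k2,k0,k0,k0],[k0,k0,k3,k0,k0,k0],[k0,k0,k1,k1,k0,k0],[k0,k0,k0,k0,k0,k2]]
    [.contra [z1,y1],.contra [z1,y1],.contra [z1,y1],.contra [z1,y1],.contra [z1],.ref k13 k0 [(z1,[z0,z1]),(z1,[z1]),
    (z1,[y3,z0,z2])],.contra [y2,z0,z1],.ref k12 k1 [(z1,[z0,z1]),(z1,[y3,z0,z2]),(z1,[z1])],.contra [y2,z0,z1],
    .ref k11 k0 [(z1,[z0,z1]),(z2,[z1]),(z2,[y3,z0,z2])],.contra [z1,y2,y1,z2],.ref k10 k0 [(z1,[z0,z1]),(z1,[y3,z0,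
    z2]),(z1,[z3,z0,y1])],.contra [z1],.ref k10 k0 [(z1,[z0,z1]),(z1,[y1,z0,z1]),(z1,[z1])],.contra [y2,z0,z1],
    .contra [z1]]),
    .old (.leafM k2 [k0,k1,k2,k3,k4,k5] [(z1,[z0,z1]),(z1,[z0,z0,z1]),(z1,[y3,y1,y1,z3])] []),
    .old (.lp [k20,k18,k16,k16,k8,k16] [k0,k0,k1,k1,k2,k2,k2,k2,k6,k6,k2,k2] k0 [[k0,k0,k0,k0,k0,k0,k0,k4],[k0,k0,k0,k4],
    [k4],[],[],[],[k0,k4]] k48 k5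
    [[(k8,k14),(k11,k18)],[(k6,k14),(k9,k14),(k2,k19),(k5,k22)],[(k2,k14),(k5,k17),(k6,k17),(k9,k17)],[(k3,k14),(k4,
    k17),(k7,k17),(k0,k19)],[(k4,k16),(k7,k16),(k3,k17),(k0,k22)],[(k9,k12),(k5,k16),(k6,k16),(k2,k17)],[(k9,k12),(k5,
    k16),(k6,k16),(k2,k17)],[(k0,k14),(k4,k16),(k7,k16),(k3,k17)],[(k4,k12),(k7,k12),(k0,k14),(k3,k17)],[(k10,k12),
    (k1,k14)],[(k10,k16),(k1,k18)],[(k8,k12),(k11,k16)]]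
    [] k0
    [[k1,k0,k0,k0,k1,k0],[k1,k0,k0,k1,k1,k0],[k1,k0,k0,k0,k1,k1],[k0,k2,k0,k0,k0,k0],[k0,k3,k0,k0,k0,k0],[k0,k1,k1,k0,
    k0,k0],[k0,k1,k0,k1,k0,k0],[k0,k0,k2,k0,k0,k0],[k0,k0,k1,k1,k0,k0],[k0,k0,k0,k2,k0,k0],[k0,k0,k0,k0,k0,k2]]
    [.contra [y3,z1,z1],.ref k0 k0 [(z6,[z3,y1,y2,y2,z6])],.ref k0 k0 [(z1,[z1])],.contra [z1],.ref k0 k0 [(z3,[y1,z0,
    z0,y1,z3])],.contra [z3,z0,z1,y1],.contra [z3,y2,y3,y2,z6],.contra [z3,z0,z2,y2],.contra [z3,y2,y2,y3,z6],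
    .contra [z1],.contra [z1]]),
    .old (.lp [k24,k40,k52,k46,k36,k40] [k14,k14,k6,k6,k0,k0,k3,k3,k8,k8,k6,k6] k0 [[k0,k0,k4,k6],[k0,k0,k0,k0,k0,k0,k14],
    [k0,k6,k0,k0,k0,k22],[k0,k4],[k0,k0,k0,k22],[k0,k0,k0,k0,k0,k0,k0,k12],[k0,k0,k0,k0,k12],[k14]] k120 k6
    [[(k8,k30),(k11,k32)],[(k2,k26),(k9,k30),(k5,k34),(k6,k49)],[(k9,k24),(k6,k43),(k2,k44),(k5,k52)],[(k4,k24),(k0,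
    k26),(k7,k43),(k3,k44)],[(k0,k34),(k3,k52),(k4,k52),(k7,k71)],[(k2,k24),(k6,k49),(k5,k52),(k9,k56)],[(k6,k34),(k9,
    k41),(k2,k43),(k5,k71)],[(k7,k34),(k3,k43),(k0,k49),(k4,k49)],[(k3,k24),(k0,k30),(k7,k41),(k4,k56)],[(k1,k30),
    (k10,k38)],[(k1,k32),(k10,k40)],[(k8,k38),(k11,k40)]]
    [] k0
    [[k1,k0,k0,k0,k1,k0],[k1,k1,k0,k0,k1,k0],[k1,k1,k1,k0,k1,k0],[k1,k0,k0,k0,k1,k1],[k0,k2,k0,k0,k0,k0],[k0,k1,k1,k0,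
    k0,k0],[k0,k1,k0,k1,k0,k0],[k0,k0,k2,k0,k0,k0],[k0,k0,k0,k2,k0,k0],[k0,k0,k0,k3,k0,k0],[k0,k0,k0,k0,k0,k2]]
    [.contra [y1,z1],.ref k16 k0 [(z1,[z3,z0,y1]),(z1,[z0,z0,z1]),(z1,[y3,z3,z1])],.contra [z1,y1],.ref k0 k0 [(z1,
    [z1])],.contra [z1],.ref k7 k0 [(z1,[y3,z3,z1]),(z1,[z1])],.contra [z1,y2,y1,z2],.contra [z1],.contra [z1],
    .ref k15 k0 [(z1,[z0,z1]),(z1,[y1,z0,z1]),(z1,[z1])],.contra [z1]]),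
    .old (.lp [k53,k44,k34,k44,k23,k40] [k0,k5,k7,k7,k12,k12,k7,k7,k19,k16,k9,k9] k0 [[k0,k0,k16],[k0,k0,k0,k0,k0,k0,k0,
    k4],[k0,k0,k0,k0,k8],[k0,k16],[],[k0,k0,k0,k8],[k4]] k120 k5
    [[(k8,k34),(k11,k44)],[(k5,k30),(k9,k46),(k2,k51),(k6,k51)],[(k9,k35),(k5,k39),(k6,k40),(k2,k60)],[(k7,k36),(k4,
    k39),(k0,k51),(k3,k60)],[(k0,k30),(k3,k39),(k7,k39),(k4,k42)],[(k9,k30),(k2,k39),(k6,k39),(k5,k42)],[(k9,k35),(k2,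
    k36),(k5,k39),(k6,k44)],[(k4,k39),(k3,k40),(k7,k44),(k0,k51)],[(k4,k30),(k3,k35),(k7,k35),(k0,k46)],[(k10,k30),
    (k1,k34)],[(k10,k40),(k1,k44)],[(k8,k30),(k11,k40)]]
    [] k0
    [[k1,k0,k0,k0,k1,k0],[k1,k0,k1,k0,k1,k0],[k0,k1,k1,k0,k0,k0],[k0,k1,k1,k1,k0,k0],[k0,k1,k0,k1,k0,k0],[k0,k0,k2,k0,
    k0,k0],[k0,k0,k1,k1,k0,k0],[k0,k0,k0,k2,k0,k0],[k0,k0,k0,k0,k0,k2]]
    [.contra [y1,z1],.ref k17 k0 [(z1,[z1]),(z1,[y3,z3,z1])],.contra [z1,y2,y1,z2],.ref k0 k0 [(z1,[y1,z0,z0,z1])],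
    .ref k9 k0 [(z1,[y3,z3,z1]),(z1,[z1])],.contra [z1],.ref k7 k1 [(z1,[y3,z3,z1]),(z1,[z1])],.contra [z1],
    .contra [z1]]),
    .old (.lp [k10,k19,k30,k20,k20,k20] [k10,k10,k4,k7,k0,k0,k5,k5,k5,k5,k5,k5] k0 [[k0,k0,k2,k1],[],[k0,k1],[k0,k2,k0,k0,
    k10],[k0,k0,k0,k0,k0,k0,k10,k10],[k0,k0,k10],[k0,k0,k0,k0,k0,k10],[k0,k0,k0,k0,k0,k10]] k60 k5
    [[(k8,k15),(k11,k15)],[(k2,k15),(k6,k15),(k9,k15),(k5,k18)],[(k6,k18),(k9,k18),(k2,k21),(k5,k24)],[(k0,k15),(k3,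
    k21),(k7,k21),(k4,k36)],[(k7,k15),(k0,k18),(k3,k24),(k4,k30)],[(k6,k15),(k9,k15),(k5,k30),(k2,k36)],[(k5,k15),(k2,
    k21),(k6,k30),(k9,k30)],[(k0,k15),(k4,k15),(k3,k18),(k7,k30)],[(k0,k15),(k4,k15),(k3,k18),(k7,k30)],[(k1,k15),
    (k10,k20)],[(k1,k15),(k10,k20)],[(k8,k20),(k11,k20)]]
    [] k0
    [[k1,k0,k0,k0,k1,k0],[k1,k1,k0,k0,k1,k0],[k1,k0,k1,k0,k1,k0],[k1,k0,k0,k0,k1,k1],[k0,k2,k0,k0,k0,k0],[k0,k1,k0,k1,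
    k0,k0],[k0,k0,k1,k1,k0,k0],[k0,k0,k0,k0,k0,k2]]
    [.ref k14 k0 [(z1,[z1]),(z1,[y3,z1])],.ref k18 k1 [(z1,[z1]),(z1,[y3,z1])],.ref k17 k0 [(z1,[z1]),(z1,[y3,z1])],
    .ref k0 k0 [(z1,[z1])],.contra [z1],.ref k9 k0 [(z1,[y3,z1]),(z1,[z1])],.ref k7 k1 [(z1,[y3,z1]),(z1,[z1])],
    .contra [z1]]),
    .old (.leafM k12 [k0,k2,k4,k5] [(z1,[z0,z0,z1]),(z1,[y2,y2,y1,z2]),(z1,[z1])] [(k1,k3,z1,[z0,z1]),(k3,k1,z1,[z0,z1])]),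
    .old (.lp [k74,k90,k70,k130,k46,k60] [k28,k28,k20,k20,k30,k30,k0,k0,k42,k42,k35,k35] k0 [[k0,k0,k0,k30],[],[k0,k30],
    [k0,k0,k0,k0,k0,k20],[k0,k0,k20],[k0,k0,k0,k0,k0,k0,k40],[],[k0,k0,k0,k0,k40]] (nat_lit 240) k6
    [[(k8,k60),(k11,k67)],[(k2,k52),(k9,k60),(k5,k72),(k6,k102)],[(k9,k68),(k2,k90),(k5,k110),(k6,k110)],[(k0,k52),
    (k4,k80),(k3,k90),(k7,k130)],[(k4,k50),(k0,k72),(k7,k100),(k3,k110)],[(k5,k50),(k9,k58),(k2,k80),(k6,k140)],[(k9,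
    k48),(k5,k100),(k2,k130),(k6,k130)],[(k0,k102),(k3,k110),(k7,k130),(k4,k140)],[(k7,k48),(k4,k58),(k0,k60),(k3,
    k68)],[(k10,k53),(k1,k60)],[(k10,k60),(k1,k67)],[(k8,k53),(k11,k60)]]
    [] k0
    [[k1,k0,k0,k0,k1,k0],[k1,k1,k0,k0,k1,k0],[k1,k0,k1,k0,k1,k0],[k1,k0,k0,k1,k1,k0],[k1,k0,k0,k0,k1,k1],[k0,k2,k0,k0,
    k0,k0],[k0,k1,k1,k0,k0,k0],[k0,k0,k2,k0,k0,k0],[k0,k0,k3,k0,k0,k0],[k0,k0,k4,k0,k0,k0],[k0,k0,k0,k0,k0,k2],[k0,k0,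
    k0,k0,k0,k3]]
    [.contra [y1,z1,z2],.contra [y1,z1,z2],.contra [y1,z1,z1,z1],.ref k19 k0 [(z1,[z1,z0,z1,z1,z2])],.contra [y1,z1,
    z1],.contra [z1],.contra [z1,z0,z1,y1],.contra [z1,z0,z2,y2],.ref k19 k0 [(z1,[y1,z0,z0,z3,z3])],.ref k20 k0 [(z2,
    [y1,z2,z0,z4]),(z1,[z0,y1,z0,y1,z1]),(z2,[z1])],.contra [z1,z0,z2],.ref k19 k0 [(z1,[y1,z0,z0,z0,z3])]]),
    .old (.leafM k11 [k0,k2,k4,k5] [(z1,[z0,z0,z1]),(z1,[y3,y3,y1,z3]),(z1,[z1])] [(k1,k3,z1,[z0,z1]),(k3,k1,z1,[z0,z1])]),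
    .old (.lp [k94,k100,k70,k120,k26,k60] [k1,k25,k1,k19,k25,k25,k0,k0,k47,k47,k30,k30] k0 [[k0,k0,k0,k70],[],[k0,k70],
    [k0,k0,k0,k0,k0,k20],[k0,k0,k20],[],[],[],[],[k0,k0,k0,k0,k0,k0,k0,k0,k0,k0,k5],[],[k0,k0,k0,k0,k0,k0,k0,k0,
    k5]] (nat_lit 240) k6
    [[(k8,k48),(k11,k60)],[(k2,k48),(k9,k72),(k5,k94),(k6,k119)],[(k9,k54),(k2,k100),(k6,k101),(k5,k146)],[(k0,k48),
    (k4,k94),(k3,k100),(k7,k139)],[(k4,k50),(k0,k94),(k7,k95),(k3,k146)],[(k9,k48),(k5,k50),(k2,k94),(k6,k95)],[(k9,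
    k73),(k5,k95),(k6,k120),(k2,k139)],[(k4,k95),(k3,k101),(k0,k119),(k7,k120)],[(k4,k48),(k3,k54),(k0,k72),(k7,k73)],
    [(k1,k48),(k10,k48)],[(k1,k60),(k10,k60)],[(k8,k48),(k11,k60)]]
    [] k0
    [[k1,k0,k0,k0,k1,k0],[k1,k1,k0,k0,k1,k0],[k1,k0,k1,k0,k1,k0],[k1,k0,k0,k0,k1,k1],[k1,k1,k0,k0,k1,k1],[k0,k2,k0,k0,
    k0,k0],[k0,k0,k2,k0,k0,k0],[k0,k0,k3,k0,k0,k0],[k0,k0,k4,k0,k0,k0],[k0,k0,k1,k1,k0,k0],[k0,k0,k0,k0,k0,k2],[k0,k0,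
    k0,k0,k0,k3]]
    [.contra [y2,z2,z1,z1],.contra [z1,y1],.contra [y1,z1,z1,z1],.contra [z1,y1],.contra [z1,y1,z1],.contra [z1],
    .contra [y1,z0,z2,z2],.ref k22 k0 [(z1,[z0,z1]),(z1,[z0,y1,z0,y1,z1]),(z1,[z1])],.ref k20 k0 [(z1,[z0,z1]),(z1,
    [z0,y1,z0,y1,z1]),(z2,[z1])],.contra [y1,y1,z1,z0,z1],.contra [z1],.ref k19 k0 [(z1,[y1,z0,z0,z0,z3])]]),
    .old (.lp [(nat_lit 316),(nat_lit 402),(nat_lit 404),(nat_lit 788),k180,(nat_lit 300)] [(nat_lit 236),(nat_lit 236),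
    k193,k193,k192,k192,k0,k0,(nat_lit 304),(nat_lit 304),(nat_lit 244),(nat_lit 244)] k0 [[k0,k0,k0,k0,k0,k0,k8,k2],
    [],[k0,k0,k0,k0,k0,k8],[k0,k0,k0,k0,k0,k2],[k0,k0,k2,k8],[],[k0,k2],[k0,k8]] (nat_lit 1200) k6
    [[(k8,(nat_lit 248)),(k11,(nat_lit 308))],[(k9,(nat_lit 240)),(k2,(nat_lit 359)),(k5,(nat_lit 360)),(k6,
    (nat_lit 550))],[(k9,(nat_lit 293)),(k2,(nat_lit 402)),(k5,(nat_lit 403)),(k6,(nat_lit 603))],[(k0,(nat_lit 359)),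
    (k4,(nat_lit 395)),(k3,(nat_lit 402)),(k7,(nat_lit 597))],[(k0,(nat_lit 360)),(k4,(nat_lit 402)),(k3,
    (nat_lit 403)),(k7,(nat_lit 604))],[(k9,(nat_lit 292)),(k2,(nat_lit 395)),(k5,(nat_lit 402)),(k6,(nat_lit 596))],
    [(k9,(nat_lit 484)),(k2,(nat_lit 597)),(k5,(nat_lit 604)),(k6,(nat_lit 788))],[(k0,(nat_lit 550)),(k4,
    (nat_lit 596)),(k3,(nat_lit 603)),(k7,(nat_lit 788))],[(k0,(nat_lit 240)),(k4,(nat_lit 292)),(k3,(nat_lit 293)),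
    (k7,(nat_lit 484))],[(k10,(nat_lit 240)),(k1,(nat_lit 248))],[(k10,(nat_lit 300)),(k1,(nat_lit 308))],[(k8,
    (nat_lit 240)),(k11,(nat_lit 300))]]
    [] k0
    [[k1,k0,k0,k0,k1,k0],[k2,k0,k0,k0,k2,k0],[k1,k1,k0,k0,k1,k0],[k1,k0,k1,k0,k1,k0],[k1,k0,k0,k0,k1,k1],[k1,k0,k0,k0,
    k1,k2],[k0,k2,k0,k0,k0,k0],[k0,k1,k1,k0,k0,k0],[k0,k0,k2,k0,k0,k0],[k0,k0,k0,k0,k0,k2],[k0,k0,k0,k0,k0,k3]]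
    [.contra [y1,z1,z1],.ref k23 k1 [(z2,[z1]),(z2,[z1,y2]),(z2,[y1,z0,y2,z2])],.contra [y1,z1,z1],.contra [y1,z0,y1,
    z1],.contra [y1,z1,z1],.ref k21 k0 [(z1,[z1]),(z1,[y1,z1,z1]),(z1,[y1,z0,y1,z1])],.contra [z1],.contra [z1,z1,z2,
    y1],.contra [z1,z2,z4,y2],.contra [z1],.ref k19 k0 [(z1,[y1,z0,z0,z3])]]),
    .old (.lp [k13,k22,k24,k10,k13,k12] [k5,k6,k1,k1,k0,k0,k7,k7,k6,k5,k6,k6] k0 [[],[k0,k0,k0,k4],[k4],[k0,k0,k0,k0,k2],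
    [k0,k0,k0,k0,k0,k0,k6],[k0,k0,k2],[],[k0,k0,k0,k0,k0,k6]] k48 k5
    [[(k8,k12),(k11,k12)],[(k6,k12),(k9,k14),(k2,k18),(k5,k23)],[(k6,k16),(k2,k18),(k9,k18),(k5,k23)],[(k7,k16),(k0,
    k18),(k3,k18),(k4,k25)],[(k7,k15),(k0,k23),(k3,k23),(k4,k24)],[(k9,k13),(k6,k17),(k5,k24),(k2,k25)],[(k9,k12),(k5,
    k15),(k2,k16),(k6,k16)],[(k0,k12),(k3,k16),(k7,k16),(k4,k17)],[(k7,k12),(k4,k13),(k0,k14),(k3,k18)],[(k1,k12),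
    (k10,k12)],[(k1,k12),(k10,k12)],[(k8,k12),(k11,k12)]]
    [] k0
    [[k1,k0,k0,k0,k1,k0],[k1,k0,k0,k1,k1,k0],[k1,k0,k0,k0,k1,k1],[k0,k2,k0,k0,k0,k0],[k0,k1,k0,k1,k0,k0],[k0,k0,k1,k1,
    k0,k0],[k0,k0,k0,k2,k0,k0],[k0,k0,k0,k0,k0,k2],[k0,k0,k0,k0,k0,k3]]
    [.contra [y1,z1],.contra [y1,z1],.contra [y1,z1],.contra [z1],.ref k24 k1 [(z1,[y1,z1]),(z1,[z1])],
    .ref k1 k0 [(z1,[z0,z1]),(z1,[y1,y1,z1])],.contra [z1],.contra [z1],.ref k19 k0 [(z1,[y1,z0,z3])]]),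
    .old (.lp [k80,k96,k82,k124,k16,k80] [k22,k22,k14,k14,k21,k21,k0,k0,k54,k54,k22,k22] k0 [[k0,k0,k0,k0,k0,k0,k0,k48],
    [],[k0,k0,k0,k0,k0,k34],[k0,k0,k0,k0,k0,k20],[k0,k0,k20,k34],[],[k0,k48]] (nat_lit 240) k6
    [[(k8,k48),(k11,k80)],[(k9,k48),(k6,k54),(k5,k81),(k2,k88)],[(k5,k89),(k2,k96),(k9,k104),(k6,k110)],[(k4,k55),(k0,
    k88),(k3,k96),(k7,k130)],[(k4,k62),(k0,k81),(k3,k89),(k7,k137)],[(k9,k49),(k2,k55),(k5,k62),(k6,k103)],[(k9,k70),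
    (k6,k124),(k2,k130),(k5,k137)],[(k0,k54),(k4,k103),(k3,k110),(k7,k124)],[(k0,k48),(k4,k49),(k7,k70),(k3,k104)],
    [(k1,k48),(k10,k48)],[(k1,k80),(k10,k80)],[(k8,k48),(k11,k80)]]
    [] k0
    [[k1,k0,k0,k0,k1,k0],[k2,k0,k0,k0,k2,k0],[k1,k0,k1,k0,k1,k0],[k1,k0,k0,k1,k1,k0],[k1,k0,k0,k0,k1,k1],[k0,k2,k0,k0,
    k0,k0],[k0,k1,k1,k0,k0,k0],[k0,k1,k2,k0,k0,k0],[k0,k0,k2,k0,k0,k0],[k0,k0,k3,k0,k0,k0],[k0,k0,k0,k0,k0,k2]]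
    [.contra [y1,z1,z1],.contra [y1,z2,z2],.contra [y2,z2,z1,z2],.contra [y1,z0,z1,y1,z1],.contra [y2,z2,z1],
    .contra [z1],.ref k19 k0 [(z1,[y1,z0,z1,z1,z3])],.contra [z1,z0,z1,y2],.contra [z1],.ref k19 k0 [(z1,[y1,z0,z0,z3,
    z3])],.contra [z1,z0,z0,z2]]),
    .old (.lp [k84,k120,k60,k118,k16,k80] [k18,k18,k0,k0,k30,k30,k1,k1,k52,k52,k20,k20] k0 [[k0,k0,k0,k0,k0,k0,k2],[k0,k0,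
    k20],[k0,k0,k0,k0,k0,k24],[k20],[k0,k0,k0,k24,k0,k0,k0,k22],[k0,k0,k0,k0,k0,k0,k0,k20],[k0,k0,k0,k0,k20,k22],[k0,
    k2]] (nat_lit 240) k6
    [[(k8,k50),(k11,k82)],[(k9,k48),(k5,k72),(k6,k101),(k2,k122)],[(k9,k68),(k5,k70),(k2,k120),(k6,k121)],[(k4,k66),
    (k7,k119),(k3,k120),(k0,k122)],[(k4,k60),(k3,k70),(k0,k72),(k7,k113)],[(k9,k58),(k5,k60),(k2,k66),(k6,k67)],[(k9,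
    k89),(k6,k98),(k5,k113),(k2,k119)],[(k4,k67),(k7,k98),(k0,k101),(k3,k121)],[(k0,k48),(k4,k58),(k3,k68),(k7,k89)],
    [(k10,k48),(k1,k50)],[(k10,k80),(k1,k82)],[(k8,k48),(k11,k80)]]
    [] k0
    [[k1,k0,k0,k0,k1,k0],[k2,k0,k0,k0,k2,k0],[k1,k0,k1,k0,k1,k0],[k1,k0,k0,k0,k1,k1],[k0,k1,k1,k0,k0,k0],[k0,k1,k2,k0,
    k0,k0],[k0,k0,k2,k0,k0,k0],[k0,k0,k3,k0,k0,k0],[k0,k0,k1,k1,k0,k0],[k0,k0,k0,k2,k0,k0],[k0,k0,k0,k0,k0,k2]]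
    [.contra [y1,y1,y2,z2],.ref k20 k0 [(z2,[z1]),(z1,[z0,z0,z1]),(z2,[y1,y2,y4,z4])],.contra [y1,y1,y2,z2],
    .contra [y1,z0,y1,z1],.ref k25 k0 [(z1,[y1,z0,z0,z1])],.ref k26 k1 [(z1,[z0,z1]),(z1,[y1,y2,y1,z2]),(z1,[z0,y1,y1,
    z1])],.contra [z1],.ref k19 k0 [(z1,[y1,y3,y3,z6])],.ref k25 k1 [(z1,[y1,z0,z0,z1])],.contra [y1,z0,z2],
    .contra [z1,y2,y2,z2]]),
    .old (.lp [k30,k50,k54,k60,k11,k30] [k15,k15,k5,k5,k3,k3,k0,k0,k21,k28,k15,k15] k0 [[k0,k0,k0,k16],[k0,k0,k0,k0,k0,k0,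
    k0,k19],[k0,k16],[k0,k0,k0,k0,k0,k29],[k0,k0,k29],[k0,k0,k0,k0,k0,k0,k6],[k19],[k0,k0,k0,k0,k6]] k120 k6
    [[(k8,k24),(k11,k30)],[(k2,k24),(k9,k36),(k5,k42),(k6,k45)],[(k9,k27),(k6,k36),(k2,k50),(k5,k68)],[(k0,k24),(k3,
    k50),(k4,k52),(k7,k84)],[(k4,k25),(k0,k42),(k7,k57),(k3,k68)],[(k5,k25),(k9,k29),(k2,k52),(k6,k63)],[(k9,k26),(k5,
    k57),(k6,k60),(k2,k84)],[(k3,k36),(k0,k45),(k7,k60),(k4,k63)],[(k7,k26),(k3,k27),(k4,k29),(k0,k36)],[(k1,k24),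
    (k10,k24)],[(k1,k30),(k10,k30)],[(k8,k24),(k11,k30)]]
    [] k0
    [[k1,k0,k0,k0,k1,k0],[k1,k1,k0,k0,k1,k0],[k1,k0,k1,k0,k1,k0],[k1,k0,k0,k1,k1,k0],[k1,k1,k0,k1,k1,k0],[k1,k0,k0,k0,
    k1,k1],[k1,k1,k0,k0,k1,k1],[k0,k2,k0,k0,k0,k0],[k0,k0,k2,k0,k0,k0],[k0,k0,k3,k0,k0,k0],[k0,k0,k4,k0,k0,k0],[k0,k0,
    k0,k0,k0,k2],[k0,k0,k0,k0,k0,k3]]
    [.contra [y2,z2,z1],.contra [z1,y1],.contra [z1,y1],.contra [y1,z1,z1],.contra [z2,y2,y1],.contra [z1,y1],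
    .ref k25 k1 [(z1,[z1])],.contra [z1],.contra [z1],.ref k22 k0 [(z1,[z0,z1]),(z1,[z0,z0,z1]),(z1,[z1])],
    .ref k27 k0 [(z2,[y1,y2,y4,z4]),(z1,[z0,z0,z1])],.contra [z1],.ref k19 k0 [(z1,[y1,z0,z0,z3])]]),
    .old (.lp [k64,k128,k80,k110,k36,k60] [k32,k32,k0,k0,k24,k24,k9,k9,k46,k46,k34,k34] k0 [[k0,k0,k0,k0,k0,k0,k2],[k0,k0,
    k12],[],[k12],[k0,k0,k0,k0,k0,k0,k0,k30],[],[k0,k0,k0,k0,k0,k30],[k0,k2]] (nat_lit 240) k6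
    [[(k8,k50),(k11,k62)],[(k9,k48),(k5,k72),(k6,k87),(k2,k108)],[(k9,k82),(k5,k92),(k6,k121),(k2,k128)],[(k4,k104),
    (k0,k108),(k7,k119),(k3,k128)],[(k0,k72),(k4,k80),(k3,k92),(k7,k95)],[(k9,k58),(k6,k65),(k5,k80),(k2,k104)],[(k5,
    k95),(k9,k103),(k6,k110),(k2,k119)],[(k4,k65),(k0,k87),(k7,k110),(k3,k121)],[(k0,k48),(k4,k58),(k3,k82),(k7,
    k103)],[(k10,k48),(k1,k50)],[(k10,k60),(k1,k62)],[(k8,k48),(k11,k60)]]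
    [] k0
    [[k1,k0,k0,k0,k1,k0],[k2,k0,k0,k0,k2,k0],[k1,k0,k1,k0,k1,k0],[k1,k0,k0,k0,k1,k1],[k1,k0,k0,k0,k1,k2],[k0,k1,k1,k0,
    k0,k0],[k0,k0,k2,k0,k0,k0],[k0,k0,k1,k1,k0,k0],[k0,k0,k0,k2,k0,k0],[k0,k0,k0,k0,k0,k2],[k0,k0,k0,k0,k0,k3]]
    [.contra [y1,z1],.ref k28 k0 [(z2,[z1]),(z1,[z0,y1,z1])],.contra [y1,z1],.contra [y1,z1],.ref k27 k0 [(z1,[z1]),
    (z1,[z0,y1,z1])],.ref k25 k0 [(z1,[y1,z0,z1])],.contra [z1],.ref k25 k1 [(z1,[y1,z0,z1])],.contra [y1,y2,z2],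
    .contra [z1],.ref k19 k0 [(z1,[y1,z0,z3])]]),
    .old (.lp [k32,k56,k32,k56,k32,k30] [k32,k32,k40,k0,k32,k32,k15,k25,k32,k32,k33,k33] k0 [[k0,k0,k8],[k0,k0,k0,k0,k0,
    k0,k0,k56],[],[k0,k8],[k0,k0,k0,k0,k0,k0,k8],[],[k56],[k0,k0,k0,k0,k0,k8]] k120 k6
    [[(k11,k31),(k8,k32)],[(k2,k24),(k5,k24),(k6,k49),(k9,k88)],[(k6,k25),(k2,k64),(k5,k64),(k9,k64)],[(k0,k24),(k4,
    k24),(k7,k31),(k3,k64)],[(k0,k24),(k4,k32),(k7,k39),(k3,k64)],[(k2,k24),(k9,k24),(k5,k32),(k6,k49)],[(k2,k31),(k5,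
    k39),(k9,k39),(k6,k64)],[(k3,k25),(k0,k49),(k4,k49),(k7,k64)],[(k4,k24),(k7,k39),(k3,k64),(k0,k88)],[(k10,k31),
    (k1,k32)],[(k10,k30),(k1,k31)],[(k11,k30),(k8,k31)]]
    [] k0
    [[k1,k0,k1,k0,k1,k0],[k1,k0,k2,k0,k1,k0],[k1,k0,k1,k0,k1,k1],[k0,k1,k1,k0,k0,k0],[k0,k1,k0,k1,k0,k0],[k0,k2,k0,k2,
    k0,k0],[k0,k1,k1,k1,k0,k0],[k0,k0,k2,k0,k0,k0],[k0,k0,k3,k0,k0,k0],[k0,k0,k1,k1,k0,k0],[k0,k0,k0,k0,k0,k2],[k0,k0,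
    k0,k0,k0,k3]]
    [.contra [z1,y1],.contra [z1,y1],.contra [y3,z3,z2,z1],.contra [y3,z0,z2,z1],.contra [z3,z3,z2,z1,y3],.contra [y3,
    y6,z2,y2,z6],.contra [y1,y1,z0,z0,z1],.contra [z1],.contra [y1,z0,z0,z1],.contra [y1,y1,z0,z0,z1],.contra [z1],
    .contra [y1,z0,z0,z1]]),
    .old (.lp [k142,k80,k80,k80,k36,k60] [k0,k0,k61,k1,k31,k31,k31,k31,k53,k53,k41,k41] k0 [[k0,k0,k62],[k0,k0,k0,k0,k0,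
    k0,k0,k62],[],[k0,k62],[],[],[k62]] (nat_lit 240) k6
    [[(k8,k89),(k11,k101)],[(k5,k49),(k2,k81),(k6,k111),(k9,k151)],[(k6,k48),(k9,k88),(k5,k110),(k2,k142)],[(k4,k50),
    (k7,k50),(k0,k81),(k3,k142)],[(k0,k49),(k4,k80),(k7,k80),(k3,k110)],[(k2,k50),(k9,k58),(k5,k80),(k6,k80)],[(k2,
    k50),(k9,k58),(k5,k80),(k6,k80)],[(k3,k48),(k4,k80),(k7,k80),(k0,k111)],[(k4,k58),(k7,k58),(k3,k88),(k0,k151)],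
    [(k10,k48),(k1,k89)],[(k10,k60),(k1,k101)],[(k8,k48),(k11,k60)]]
    [] k0
    [[k1,k0,k1,k0,k1,k0],[k0,k1,k1,k0,k0,k0],[k0,k1,k0,k1,k0,k0],[k0,k2,k0,k2,k0,k0],[k0,k1,k1,k1,k0,k0],[k0,k1,k0,k2,
    k0,k0],[k0,k0,k2,k0,k0,k0],[k0,k0,k1,k1,k0,k0],[k0,k0,k0,k2,k0,k0],[k0,k0,k0,k0,k0,k2],[k0,k0,k0,k0,k0,k3]]
    [.contra [z1,y1],.contra [y1,y1,z0,z1],.contra [y1,z0,z1],.contra [y1,z0,z2],.contra [y1,y1,z0,z1],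
    .ref k30 k0 [(z1,[z0,z1]),(z1,[y1,z0,z2]),(z1,[y1,y3,y1,z3])],.contra [z1],.contra [y1,y1,z0,z1],.contra [z1],
    .contra [z1],.ref k19 k0 [(z1,[y1,z0,z0,z3])]]),
    .old (.leafM k12 [k1,k2,k3,k5] [(z1,[z0,z0,z1]),(z1,[y2,y2,y1,z2]),(z1,[z0,z1])] [(k4,k0,z1,[z1]),(k0,k4,z1,[z1])]),
    .old (.leafM k11 [k1,k2,k3,k5] [(z1,[z0,z0,z1]),(z1,[y3,y3,y1,z3]),(z1,[z0,z1])] [(k4,k0,z1,[z1]),(k0,k4,z1,[z1])]),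
    .old (.lp [k128,k111,k62,k80,k50,k48] [k0,k56,k51,k22,k61,k61,k52,k52,k68,k66,k68,k68] k0 [[k0,k0,k0,k85],[k0,k0,k0,
    k0,k0,k0,k0,k62],[k0,k85,k0,k0,k0,k18],[],[k0,k0,k0,k18],[k0,k0,k0,k0,k0,k0,k18],[k62],[k0,k0,k0,k0,
    k18]] (nat_lit 240) k6
    [[(k8,k60),(k11,k60)],[(k2,k48),(k5,k123),(k6,k132),(k9,k180)],[(k6,k48),(k9,k96),(k2,k111),(k5,k186)],[(k0,k48),
    (k4,k54),(k7,k81),(k3,k111)],[(k4,k62),(k7,k89),(k0,k123),(k3,k186)],[(k2,k54),(k9,k57),(k5,k62),(k6,k89)],[(k9,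
    k48),(k6,k80),(k2,k81),(k5,k89)],[(k3,k48),(k7,k80),(k4,k89),(k0,k132)],[(k7,k48),(k4,k57),(k3,k96),(k0,k180)],
    [(k10,k48),(k1,k60)],[(k10,k48),(k1,k60)],[(k8,k48),(k11,k48)]]
    [] k0
    [[k1,k1,k0,k0,k1,k0],[k1,k1,k0,k1,k1,k0],[k0,k2,k0,k0,k0,k0],[k0,k1,k0,k1,k0,k0],[k0,k1,k1,k1,k0,k0],[k0,k1,k0,k2,
    k0,k0],[k0,k0,k2,k0,k0,k0],[k0,k0,k3,k0,k0,k0],[k0,k0,k1,k1,k0,k0],[k0,k0,k0,k2,k0,k0],[k0,k0,k0,k0,k0,k2],[k0,k0,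
    k0,k0,k0,k3],[k0,k0,k0,k0,k0,k4]]
    [.contra [y1,z1,z1],.contra [z1,y1],.contra [z1],.contra [y1,z0,z2],.contra [z1,z0,y1],.contra [z1,z0,y1],
    .contra [z1],.ref k33 k0 [(z1,[z0,z1]),(z1,[z0,z0,z1]),(z1,[z1])],.contra [y1,y1,z0,z1],.contra [z1],.contra [z1],
    .ref k19 k0 [(z1,[y1,z0,z0,z3])],.ref k32 k0 [(z1,[z0,z1]),(z1,[z0,z0,z1]),(z2,[y1,y4,y4,z4])]]),
    .old (.lp [k142,k80,k80,k80,k36,k60] [k0,k0,k61,k1,k31,k31,k31,k31,k53,k53,k41,k41] k0 [[k0,k0,k62],[k0,k0,k0,k0,k0,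
    k0,k0,k62],[],[k0,k62],[],[],[k62]] (nat_lit 240) k6
    [[(k8,k89),(k11,k101)],[(k5,k49),(k2,k81),(k6,k111),(k9,k151)],[(k6,k48),(k9,k88),(k5,k110),(k2,k142)],[(k4,k50),
    (k7,k50),(k0,k81),(k3,k142)],[(k0,k49),(k4,k80),(k7,k80),(k3,k110)],[(k2,k50),(k9,k58),(k5,k80),(k6,k80)],[(k2,
    k50),(k9,k58),(k5,k80),(k6,k80)],[(k3,k48),(k4,k80),(k7,k80),(k0,k111)],[(k4,k58),(k7,k58),(k3,k88),(k0,k151)],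
    [(k10,k48),(k1,k89)],[(k10,k60),(k1,k101)],[(k8,k48),(k11,k60)]]
    [] k0
    [[k1,k0,k1,k0,k1,k0],[k0,k1,k1,k0,k0,k0],[k0,k1,k0,k1,k0,k0],[k0,k2,k0,k2,k0,k0],[k0,k1,k1,k1,k0,k0],[k0,k1,k0,k2,
    k0,k0],[k0,k0,k2,k0,k0,k0],[k0,k0,k1,k1,k0,k0],[k0,k0,k0,k2,k0,k0],[k0,k0,k0,k0,k0,k2],[k0,k0,k0,k0,k0,k3]]
    [.contra [z1,y1],.contra [y1,y1,z1],.contra [y1,y1,z1],.ref k34 k0 [(z1,[z0,z1]),(z2,[z1])],.contra [y1,y1,z1],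
    .ref k31 k1 [(z1,[z0,z1]),(z1,[z1])],.contra [z1],.contra [y1,y1,z1],.contra [z1],.contra [z1],.ref k19 k0 [(z1,
    [y1,z0,z3])]]),
    .old (.lp [k10,k8,k8,k8,k6,k6] [k0,k0,k1,k1,k1,k1,k1,k1,k2,k2,k2,k2] k0 [] k24 k5
    [[(k8,k8),(k11,k8)],[(k9,k8),(k2,k9),(k5,k9),(k6,k9)],[(k9,k7),(k2,k8),(k5,k8),(k6,k8)],[(k3,k8),(k4,k8),(k7,k8),
    (k0,k9)],[(k3,k8),(k4,k8),(k7,k8),(k0,k9)],[(k9,k7),(k2,k8),(k5,k8),(k6,k8)],[(k9,k7),(k2,k8),(k5,k8),(k6,k8)],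
    [(k3,k8),(k4,k8),(k7,k8),(k0,k9)],[(k3,k7),(k4,k7),(k7,k7),(k0,k8)],[(k10,k6),(k1,k8)],[(k10,k6),(k1,k8)],[(k8,
    k6),(k11,k6)]]
    [] k0
    [[k1,k0,k0,k0,k1,k0],[k1,k0,k0,k0,k1,k1],[k0,k2,k0,k0,k0,k0],[k0,k1,k1,k0,k0,k0],[k0,k1,k0,k1,k0,k0],[k0,k0,k2,k0,
    k0,k0],[k0,k0,k1,k1,k0,k0],[k0,k0,k0,k2,k0,k0],[k0,k0,k0,k0,k0,k2],[k0,k0,k0,k0,k0,k3]]
    [.contra [y1,z1],.ref k0 k0 [(z1,[z1])],.contra [z1],.contra [y1,y1,z1],.ref k29 k0 [(z1,[y1,z0,z1])],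
    .contra [z1],.ref k25 k1 [(z1,[y1,z0,z1])],.contra [z1],.contra [z1],.ref k19 k0 [(z1,[y1,z0,z3])]]),
    .old (.lp [k92,k102,k88,k74,k60,k60] [k5,k5,k0,k0,k7,k7,k14,k14,k21,k21,k21,k21] k0 [[k0,k0,k0,k37,k0,k0,k0,k23],[k0,
    k0,k0,k14,k0,k0,k0,k28],[k14,k37],[k0,k0,k0,k0,k13,k4],[k0,k0,k4,k0,k0,k0,k14],[k0,k0,k13,k0,k0,k0,k7],[k28,k23],
    [k0,k0,k0,k0,k7,k14]] (nat_lit 240) k5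
    [[(k8,k76),(k11,k76)],[(k2,k60),(k6,k60),(k5,k104),(k9,k104)],[(k6,k60),(k2,k88),(k9,k104),(k5,k132)],[(k0,k60),
    (k3,k88),(k7,k92),(k4,k108)],[(k7,k68),(k4,k84),(k0,k104),(k3,k132)],[(k9,k60),(k5,k84),(k6,k88),(k2,k108)],[(k9,
    k60),(k5,k68),(k6,k88),(k2,k92)],[(k0,k60),(k3,k60),(k4,k88),(k7,k88)],[(k4,k60),(k7,k60),(k0,k104),(k3,k104)],
    [(k10,k60),(k1,k76)],[(k10,k60),(k1,k76)],[(k8,k60),(k11,k60)]]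
    [] k0
    [[k1,k0,k0,k0,k1,k0],[k1,k0,k0,k1,k1,k0],[k0,k2,k0,k0,k0,k0],[k0,k1,k0,k1,k0,k0],[k0,k1,k1,k1,k0,k0],[k0,k0,k2,k0,
    k0,k0],[k0,k0,k1,k1,k0,k0],[k0,k0,k0,k2,k0,k0],[k0,k0,k0,k0,k0,k2],[k0,k0,k0,k0,k0,k3]]
    [.ref k35 k0 [(z1,[z1])],.ref k36 k0 [(z1,[z1])],.contra [z1],.ref k29 k0 [(z1,[y1,z1])],.ref k0 k0 [(z1,[y1,
    z1])],.contra [z1],.ref k25 k1 [(z1,[y1,z1])],.contra [z1],.contra [z1],.ref k19 k0 [(z1,[y1,z3])]])]⟩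

/-- classes `0 0 0 0 1 1`, types `B0 B1 B0 B1 C0 C0` -/
noncomputable def cU6_81 : CertX :=
  ⟨[k8,k9,k8,k9,k20,k20],[(false,k0,[k0,k1,k2,k3,k4,k5]),(true,k4,[k4,k3,k2,k1,k0,k5])],[[[([z1,z0,z0,z0,z1,z1],z2)],
    [([z3,z0,z0,z0,z3,z0],z2),([z0,z1,z0,z1,z0,z0],z2),([z0,z0,z3,z0,z0,z0],z2)],[([z1,z0,z0,z0,z1,z0],z1),([z0,z1,z0,
    z1,z0,z0],z2),([z0,z0,z3,z0,z0,z0],z1)],[([z3,z0,z0,y3,z3,z0],y2),([z0,z1,z0,z1,z0,z0],z2),([z0,z0,z1,z1,z0,z0],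
    z2)],[([z1,z0,z0,y1,z1,z0],z0),([z0,z1,z0,z1,z0,z0],z2),([z0,z0,z3,z3,z0,z0],z4)],[([z3,z0,z3,z0,z3,z0],z4),([z0,
    z1,z0,z1,z0,z0],z2)],[([z1,z0,z0,z1,z1,z1],z2),([z0,z1,z0,y1,z0,z0],z0)],[([z3,z0,z0,z3,z3,z0],z4),([z0,z3,z0,z0,
    z0,z0],z2),([z0,z0,z3,z0,z0,z0],z4)],[([z3,z0,z0,z3,z3,z0],z4),([z0,z3,z0,y3,z0,z0],z2),([z0,z0,z3,z3,z0,z0],z4)],
    [([z3,z0,z0,z3,z3,z0],z4),([z0,z1,z1,z0,z0,z0],z2)],[([z1,z0,z0,z0,z1,z0],z2),([z0,z3,z0,z3,z0,z0],z2),([z0,z0,z3,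
    z0,z0,z0],z2)],[([z1,z0,z0,z0,z1,z0],z2),([z0,z1,z0,z1,z0,z0],z1),([z0,z0,z3,z0,z0,z0],z1)]],[[([z1,z0,z0,z0,z1,
    z0],z2),([z0,z6,z0,z3,z0,z0],z2),([z0,z0,z2,z1,z0,z0],z2)],[([z1,z0,z0,z0,z1,z0],z2),([z0,z2,z0,z1,z0,z0],z2),
    ([z0,z0,z6,z3,z0,z0],z2)],[([z1,z0,z0,z0,z1,z0],z2),([z0,z3,z3,z3,z0,z0],z4)],[([z1,z0,z0,z1,z1,z0],z2),([z0,z3,
    z0,z0,z0,z0],z2),([z0,z0,z3,z0,z0,z0],z2)],[([z1,z0,z0,z1,z1,z0],z2),([z0,z3,z3,z0,z0,z0],z4)],[([z1,z0,z1,z0,z1,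
    z0],z2),([z0,z3,z0,z0,z0,z0],z2),([z0,z0,z0,z3,z0,z0],z2)],[([z1,z0,z1,z0,z1,z0],z2),([z0,z3,z0,z3,z0,z0],z4)],
    [([z3,z3,z3,z3,z3,z0],z10)],[([z1,z0,z0,z0,z1,z0],z1),([z0,z1,z0,z1,z0,z0],z2),([z0,z0,z2,z0,z0,z0],z1)],[([z1,z0,
    z0,z0,z1,z2],z2),([z0,z1,z0,z0,z0,y1],z0),([z0,z0,z1,z0,z0,y1],z0)],[([z1,z0,z0,z0,z1,z0],z1),([z0,z1,z0,z1,z0,
    z0],z2),([z0,z0,z3,z0,z0,z0],z2)],[([z1,z0,z0,z0,z1,z0],z1),([z0,z1,z0,z0,z0,y1],z1),([z0,z0,z1,z0,z0,z1],z1)]],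
    [[([z1,z0,z0,y1,z1,z1],z0),([z0,z1,z0,z1,z0,z0],z2)],[([z1,z0,z0,z1,z1,z1],z2)],[([z1,z0,z0,z0,z1,z2],z2),([z0,z1,
    z0,z0,z0,y2],z0),([z0,z0,z1,z0,z0,y1],z0)],[([z1,z0,z0,z0,z1,z2],z2),([z0,z1,z0,z1,z0,z0],z2)],[([z1,z0,z0,z0,z1,
    z0],z1),([z0,z1,z0,z1,z0,z0],z2)],[([z1,z0,z1,z0,z1,z1],z2)],[([z1,z0,z0,z0,z1,z0],z2),([z0,z3,z0,z0,z0,y3],z2),
    ([z0,z0,z3,z0,z0,z0],z2)],[([z1,z0,z0,z0,z1,z0],z2),([z0,z2,z0,z1,z0,z0],z2)],[([z1,z0,z0,z0,z1,z0],z2),([z0,z1,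
    z0,z1,z0,z0],z1),([z0,z0,z2,z0,z0,z0],z1)],[([z1,z0,z0,z0,z1,z0],z2),([z0,z1,z0,z1,z0,z0],z1),([z0,z0,z3,z0,z0,
    z0],z2)],[([z1,z0,z0,z0,z1,z0],z2),([z0,z1,z0,z1,z0,z0],z1)],[([z1,z0,z0,z0,z1,z0],z2)]],[[([z1,z0,z0,z1,z1,z0],
    z2)],[]]],
    [.old (.leafM k4 [k1,k2,k3,k4,k5,k0] [(z1,[z1])] []),
    .old (.leafM k10 [k0,k2,k4,k5] [(z1,[z0,z0,z1]),(z1,[y1,y3,y1,z3]),(z1,[z1])] [(k1,k3,z1,[z0,z1]),(k3,k1,z1,[z0,z1])]),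
    .old (.leafM k11 [k4,k5,k0,k2] [(z1,[y3,y3,y1,z3]),(z1,[z0,z0,z1]),(z1,[z1])] [(k1,k3,z1,[z0,z1]),(k3,k1,z1,[z0,z1])]),
    .old (.lp [(nat_lit 1288),(nat_lit 9660),(nat_lit 6720),(nat_lit 8050),(nat_lit 6440),(nat_lit 6440)] [(nat_lit 4186),
    (nat_lit 4186),k0,k0,(nat_lit 1470),(nat_lit 1470),(nat_lit 805),(nat_lit 805),(nat_lit 1610),(nat_lit 1610),
    (nat_lit 1610),(nat_lit 1610)] k0 [[],[],[k0,k0,k0,k0,k0,(nat_lit 1932)],[k0,k0,k0,k0,k0,(nat_lit 1610)],[k0,k0,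
    (nat_lit 1610),(nat_lit 1932)],[k0,k0,k0,k0,k0,k0,(nat_lit 2760)],[],[k0,k0,k0,k0,
    (nat_lit 2760)]] (nat_lit 19320) k6
    [[(k8,(nat_lit 3864)),(k10,(nat_lit 3864))],[(k9,(nat_lit 3864)),(k5,(nat_lit 4004)),(k6,(nat_lit 4669)),(k2,
    (nat_lit 5474))],[(k9,(nat_lit 8050)),(k5,(nat_lit 8190)),(k6,(nat_lit 8855)),(k2,(nat_lit 9660))],[(k0,
    (nat_lit 5474)),(k4,(nat_lit 6258)),(k3,(nat_lit 9660)),(k7,(nat_lit 10465))],[(k0,(nat_lit 4004)),(k4,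
    (nat_lit 5110)),(k3,(nat_lit 8190)),(k7,(nat_lit 9317))],[(k5,(nat_lit 5110)),(k2,(nat_lit 6258)),(k9,
    (nat_lit 6580)),(k6,(nat_lit 10145))],[(k9,(nat_lit 4485)),(k6,(nat_lit 8050)),(k5,(nat_lit 9317)),(k2,
    (nat_lit 10465))],[(k0,(nat_lit 4669)),(k7,(nat_lit 8050)),(k3,(nat_lit 8855)),(k4,(nat_lit 10145))],[(k0,
    (nat_lit 3864)),(k7,(nat_lit 4485)),(k4,(nat_lit 6580)),(k3,(nat_lit 8050))],[(k1,(nat_lit 3864)),(k11,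
    (nat_lit 6440))],[(k8,(nat_lit 6440)),(k10,(nat_lit 6440))],[(k1,(nat_lit 3864)),(k11,(nat_lit 6440))]]
    [] k0
    [[k1,k0,k0,k0,k1,k0],[k2,k0,k0,k0,k2,k0],[k1,k1,k0,k0,k1,k0],[k1,k0,k1,k0,k1,k0],[k1,k0,k0,k1,k1,k0],[k1,k0,k0,k0,
    k1,k1],[k0,k1,k1,k0,k0,k0],[k0,k0,k2,k0,k0,k0],[k0,k0,k3,k0,k0,k0],[k0,k0,k0,k2,k0,k0],[k0,k0,k0,k0,k0,k2]]
    [.contra [y3,z1,z4],.ref k2 k0 [(z2,[z1]),(z1,[z0,z0,z1]),(z2,[y3,z2,z0,z6])],.contra [z1,y1,y3,y2,z2],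
    .contra [z1,y1,y2,y3,z2],.ref k1 k0 [(z2,[z3,z1]),(z1,[z0,z0,z1]),(z2,[y3,z1,z0,z6])],.contra [y1,z0,z0,y1,z1],
    .contra [z1,z0,z1,y1],.contra [z1,z0,z2,y2],.ref k1 k0 [(z1,[y1,z1,z0,z3]),(z1,[z0,z0,z1]),(z1,[z1])],.contra [y1,
    z0,z2],.contra [z1]]),
    .old (.lp [k64,(nat_lit 356),k182,(nat_lit 360),(nat_lit 232),(nat_lit 240)] [k148,k148,k2,k2,k89,k89,k0,k0,k64,k64,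
    k60,k60] k0 [[k0,k0,k0,k0,k0,k0,k4,k68],[k0,k0,k0,k60],[k60],[],[],[],[k0,k68],[k0,k4]] (nat_lit 720) k6
    [[(k8,k148),(k10,k152)],[(k6,k144),(k9,k144),(k5,k183),(k2,(nat_lit 210))],[(k5,(nat_lit 269)),(k2,(nat_lit 296)),
    (k6,(nat_lit 362)),(k9,(nat_lit 362))],[(k0,(nat_lit 210)),(k4,(nat_lit 269)),(k3,(nat_lit 296)),(k7,
    (nat_lit 358))],[(k4,k182),(k0,k183),(k3,(nat_lit 269)),(k7,(nat_lit 271))],[(k5,k182),(k9,(nat_lit 207)),(k2,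
    (nat_lit 269)),(k6,(nat_lit 271))],[(k5,(nat_lit 271)),(k9,(nat_lit 296)),(k2,(nat_lit 358)),(k6,(nat_lit 360))],
    [(k0,k144),(k4,(nat_lit 271)),(k7,(nat_lit 360)),(k3,(nat_lit 362))],[(k0,k144),(k4,(nat_lit 207)),(k7,
    (nat_lit 296)),(k3,(nat_lit 362))],[(k1,k148),(k11,(nat_lit 236))],[(k8,(nat_lit 236)),(k10,(nat_lit 240))],[(k1,
    k152),(k11,(nat_lit 240))]]
    [] k0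
    [[k1,k0,k0,k0,k1,k0],[k2,k0,k0,k0,k2,k0],[k1,k0,k1,k0,k1,k0],[k1,k0,k0,k1,k1,k0],[k1,k0,k0,k0,k1,k1],[k0,k2,k0,k0,
    k0,k0],[k0,k1,k1,k0,k0,k0],[k0,k0,k2,k0,k0,k0],[k0,k0,k3,k0,k0,k0],[k0,k0,k1,k1,k0,k0],[k0,k0,k0,k0,k0,k2]]
    [.contra [y1,z1,z1],.contra [y1,z2,z2],.contra [z1,y3,y2,y1,z2],.contra [y1,z1,z2],.contra [y1,z0,y1,z0,z1],
    .contra [z1],.ref k1 k0 [(z2,[y3,z6,z3,z1]),(z1,[z0,z0,z1]),(z2,[z3,z0,y3,z1])],.contra [z1],.ref k1 k0 [(z1,[y1,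
    z3,z0,z1]),(z1,[z0,z0,z1]),(z1,[z1])],.contra [z1,y2,y2,y1,z2],.contra [z1]]),
    .old (.lp [k64,(nat_lit 356),k182,(nat_lit 360),(nat_lit 232),(nat_lit 240)] [k148,k148,k2,k2,k89,k89,k0,k0,k64,k64,
    k60,k60] k0 [[k0,k0,k0,k0,k0,k0,k4,k68],[k0,k0,k0,k60],[k60],[],[],[],[k0,k68],[k0,k4]] (nat_lit 720) k6
    [[(k8,k148),(k10,k152)],[(k6,k144),(k9,k144),(k5,k183),(k2,(nat_lit 210))],[(k5,(nat_lit 269)),(k2,(nat_lit 296)),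
    (k6,(nat_lit 362)),(k9,(nat_lit 362))],[(k0,(nat_lit 210)),(k4,(nat_lit 269)),(k3,(nat_lit 296)),(k7,
    (nat_lit 358))],[(k4,k182),(k0,k183),(k3,(nat_lit 269)),(k7,(nat_lit 271))],[(k5,k182),(k9,(nat_lit 207)),(k2,
    (nat_lit 269)),(k6,(nat_lit 271))],[(k5,(nat_lit 271)),(k9,(nat_lit 296)),(k2,(nat_lit 358)),(k6,(nat_lit 360))],
    [(k0,k144),(k4,(nat_lit 271)),(k7,(nat_lit 360)),(k3,(nat_lit 362))],[(k0,k144),(k4,(nat_lit 207)),(k7,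
    (nat_lit 296)),(k3,(nat_lit 362))],[(k1,k148),(k11,(nat_lit 236))],[(k8,(nat_lit 236)),(k10,(nat_lit 240))],[(k1,
    k152),(k11,(nat_lit 240))]]
    [] k0
    [[k1,k0,k0,k0,k1,k0],[k2,k0,k0,k0,k2,k0],[k1,k0,k1,k0,k1,k0],[k1,k0,k0,k1,k1,k0],[k1,k0,k0,k0,k1,k1],[k0,k2,k0,k0,
    k0,k0],[k0,k1,k1,k0,k0,k0],[k0,k0,k2,k0,k0,k0],[k0,k0,k3,k0,k0,k0],[k0,k0,k1,k1,k0,k0],[k0,k0,k0,k0,k0,k2]]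
    [.contra [y3,z1,z1],.ref k2 k0 [(z2,[z1]),(z1,[z0,z0,z1]),(z2,[y3,z2])],.contra [z1,y1,y2,z2],.ref k4 k1 [(z1,[z1,
    z0,y1]),(z1,[z0,z0,z1]),(z1,[y3,z1,z3])],.contra [y1,z0,y1,z1],.contra [z1],.ref k3 k1 [(z1,[y3,z1]),(z1,[z0,z0,
    z1]),(z1,[z1])],.contra [z1],.ref k1 k0 [(z1,[y1,z1]),(z1,[z0,z0,z1]),(z1,[z1])],.ref k3 k0 [(z1,[y3,z1]),(z1,[z0,
    z0,z1]),(z1,[z1])],.contra [z1]]),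
    .old (.tor k7 false k0 [(z1,[y1,y1,z1]),(z1,[y1,z0,z1]),(z1,[z1]),(z1,[z1,z1])]),
    .old (.lp [k8,k8,k12,k7,k4,k8] [k2,k2,k2,k2,k0,k0,k3,k2,k4,k4,k2,k2] k0 [[k0,k0,k0,k2],[],[k0,k2],[k0,k0,k0,k0,k2,k2],
    [k0,k0,k2],[k0,k0,k2]] k24 k5
    [[(k8,k6),(k10,k8)],[(k2,k6),(k9,k6),(k6,k7),(k5,k10)],[(k9,k6),(k6,k7),(k2,k8),(k5,k12)],[(k0,k6),(k3,k8),(k7,
    k10),(k4,k12)],[(k7,k8),(k0,k10),(k4,k10),(k3,k12)],[(k9,k8),(k6,k9),(k5,k10),(k2,k12)],[(k9,k6),(k6,k7),(k5,k8),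
    (k2,k10)],[(k0,k7),(k3,k7),(k7,k7),(k4,k9)],[(k0,k6),(k3,k6),(k7,k6),(k4,k8)],[(k1,k6),(k11,k6)],[(k8,k6),(k10,
    k8)],[(k1,k8),(k11,k8)]]
    [] k0
    [[k1,k0,k0,k0,k1,k0],[k1,k1,k0,k0,k1,k0],[k1,k0,k0,k1,k1,k0],[k1,k0,k0,k0,k1,k1],[k0,k2,k0,k0,k0,k0],[k0,k1,k0,k1,
    k0,k0],[k0,k0,k2,k0,k0,k0],[k0,k0,k1,k1,k0,k0],[k0,k0,k0,k2,k0,k0],[k0,k0,k0,k3,k0,k0],[k0,k0,k0,k0,k0,k2]]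
    [.contra [y3,z1,z1],.contra [y3,z1,z1],.contra [z3,y1,z2],.contra [y3,z0,y1,y1,z3],.contra [z1],.contra [y3,z1,
    z1],.contra [y3,z0,z2,z2],.ref k6 k0 [(z3,[z0,z0,y1,y1,z3]),(z3,[y3,z0,z1,z1])],.contra [z1],.ref k6 k0 [(z3,[z0,
    z0,y1,y1,z3]),(z3,[y1,z0,z1])],.contra [z3,z2,z4,z2,y6]]),
    .old (.lp [k66,k120,k104,k54,k54,k80] [k27,k27,k0,k0,k8,k8,k33,k33,k33,k33,k20,k20] k0 [[],[k0,k0,k0,k28],[k28],[k0,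
    k0,k0,k0,k16],[k0,k0,k0,k0,k0,k0,k12,k6],[k0,k0,k16],[k0,k0,k0,k0,k0,k6],[k0,k0,k0,k0,k0,k12]] (nat_lit 240) k5
    [[(k8,k60),(k10,k73)],[(k6,k60),(k9,k60),(k2,k93),(k5,k113)],[(k6,k87),(k9,k87),(k2,k92),(k5,k112)],[(k7,k87),(k3,
    k92),(k0,k93),(k4,k128)],[(k7,k63),(k4,k104),(k3,k112),(k0,k113)],[(k9,k67),(k6,k73),(k5,k104),(k2,k128)],[(k9,
    k60),(k5,k63),(k6,k66),(k2,k87)],[(k0,k60),(k7,k66),(k4,k73),(k3,k87)],[(k0,k60),(k7,k60),(k4,k67),(k3,k87)],[(k1,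
    k60),(k11,k67)],[(k8,k67),(k10,k80)],[(k1,k73),(k11,k80)]]
    [] k0
    [[k1,k0,k0,k0,k1,k0],[k1,k0,k0,k1,k1,k0],[k1,k0,k0,k0,k1,k1],[k0,k2,k0,k0,k0,k0],[k0,k1,k0,k1,k0,k0],[k0,k0,k2,k0,
    k0,k0],[k0,k0,k1,k1,k0,k0],[k0,k0,k1,k2,k0,k0],[k0,k0,k0,k2,k0,k0],[k0,k0,k0,k3,k0,k0],[k0,k0,k0,k0,k0,k2]]
    [.contra [y3,z1,z1],.contra [z3,y3,y2,y2,z6],.contra [y3,z0,y1,y1,z3],.contra [z1],.ref k5 k0 [(z1,[y3,z1,z1,z1]),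
    (z1,[z1])],.contra [y3,z0,z2,z2],.contra [z3,y2,y2,y3,z6],.ref k5 k0 [(z1,[y6,z1,z0,z3]),(z3,[z6,z0,z1,y2])],
    .contra [z1],.ref k5 k0 [(z1,[y2,z1,z0,z1]),(z3,[z2,z0,z1])],.contra [z1]]),
    .old (.lp [k16,k16,k22,k16,k8,k16] [k3,k3,k3,k3,k0,k0,k3,k3,k7,k7,k3,k3] k0 [[k0,k0,k0,k4],[k0,k0,k0,k2],[k2,k4],[k0,
    k0,k0,k0,k6,k2],[k0,k0,k2],[k0,k0,k6]] k48 k5
    [[(k8,k12),(k10,k16)],[(k2,k12),(k9,k12),(k6,k16),(k5,k21)],[(k9,k12),(k2,k14),(k6,k16),(k5,k23)],[(k0,k12),(k3,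
    k14),(k7,k18),(k4,k25)],[(k7,k13),(k4,k20),(k0,k21),(k3,k23)],[(k9,k15),(k6,k19),(k5,k20),(k2,k25)],[(k9,k12),(k5,
    k13),(k6,k16),(k2,k18)],[(k0,k16),(k3,k16),(k7,k16),(k4,k19)],[(k0,k12),(k3,k12),(k7,k12),(k4,k15)],[(k1,k12),
    (k11,k12)],[(k8,k12),(k10,k16)],[(k1,k16),(k11,k16)]]
    [] k0
    [[k1,k0,k0,k0,k1,k0],[k1,k1,k0,k0,k1,k0],[k1,k0,k0,k1,k1,k0],[k1,k0,k0,k0,k1,k1],[k0,k2,k0,k0,k0,k0],[k0,k3,k0,k0,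
    k0,k0],[k0,k1,k0,k1,k0,k0],[k0,k0,k2,k0,k0,k0],[k0,k0,k1,k1,k0,k0],[k0,k0,k0,k2,k0,k0],[k0,k0,k0,k0,k0,k2]]
    [.contra [y3,z1,z1],.ref k8 k0 [(z1,[z0,z1]),(z1,[z3,y1]),(z1,[y3,z1,z3])],.contra [z1,y1,y2,z2],.contra [y1,z0,
    y1,z1],.contra [z1],.ref k7 k0 [(z1,[z0,z1]),(z1,[z1]),(z1,[y1,z0,z3])],.ref k5 k0 [(z1,[y3,z1,z3]),(z1,[z1])],
    .contra [y1,z0,z2],.ref k6 k0 [(z1,[z0,z0,y1,z1]),(z1,[y1,z0,z1])],.contra [z1],.contra [z1]]),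
    .old (.leafM k10 [k1,k2,k3,k5] [(z1,[z0,z0,z1]),(z1,[y3,y1,y1,z3]),(z1,[z0,z1])] [(k4,k0,z1,[z1]),(k0,k4,z1,[z1])]),
    .old (.leafM k11 [k3,k5,k1,k2] [(z1,[y3,y3,y1,z3]),(z1,[z0,z0,z1]),(z1,[z0,z1])] [(k4,k0,z1,[z1]),(k0,k4,z1,[z1])]),
    .old (.lp [k109,k82,k62,k116,k29,k80] [k28,k41,k68,k28,k58,k58,k0,k62,k81,k68,k49,k49] k0 [[k0,k0,k0,k34],[k0,k0,k0,
    k0,k0,k0,k0,k102],[k0,k34],[],[k0,k0,k0,k0,k0,k0,k4],[],[k102],[k0,k0,k0,k0,k0,k4]] (nat_lit 240) k6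
    [[(k8,k56),(k10,k88)],[(k2,k48),(k5,k92),(k6,k150),(k9,k184)],[(k6,k48),(k2,k82),(k9,k82),(k5,k126)],[(k0,k48),
    (k7,k48),(k4,k52),(k3,k82)],[(k7,k58),(k4,k62),(k0,k92),(k3,k126)],[(k9,k48),(k2,k52),(k5,k62),(k6,k120)],[(k2,
    k48),(k9,k48),(k5,k58),(k6,k120)],[(k3,k48),(k4,k120),(k7,k120),(k0,k150)],[(k4,k48),(k7,k48),(k3,k82),(k0,k184)],
    [(k11,k48),(k1,k56)],[(k8,k48),(k10,k80)],[(k11,k80),(k1,k88)]]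
    [] k0
    [[k1,k1,k0,k0,k1,k0],[k1,k0,k1,k0,k1,k0],[k1,k1,k0,k1,k1,k0],[k0,k2,k0,k0,k0,k0],[k0,k2,k0,k1,k0,k0],[k0,k1,k1,k0,
    k0,k0],[k0,k1,k0,k1,k0,k0],[k0,k2,k0,k2,k0,k0],[k0,k1,k1,k1,k0,k0],[k0,k1,k2,k1,k0,k0],[k0,k1,k0,k2,k0,k0],[k0,k0,
    k2,k0,k0,k0],[k0,k0,k3,k0,k0,k0],[k0,k0,k1,k1,k0,k0],[k0,k0,k0,k0,k0,k2]]
    [.contra [z1,y1],.contra [z1,y1],.contra [z1,y1],.contra [z1],.contra [z1,y4,y1,y2,z4],.contra [y2,z0,z1,z1],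
    .contra [y6,z0,z1,z5],.contra [y2,z0,z1,z1],.contra [z2,y4,y1,y3,z4],.contra [z1,z0,z0,y1],.contra [y2,z0,z1,z1],
    .contra [z1],.contra [z2,z0,z1,y3],.contra [y1,z0,z0,z1],.contra [z1]]),
    .old (.lp [k70,k35,k30,k38,k26,k40] [k0,k20,k36,k19,k30,k30,k23,k29,k41,k23,k25,k25] k0 [[k0,k0,k36,k6],[k0,k0,k0,k0,
    k0,k0,k0,k24],[k0,k6],[k0,k36],[],[k0,k0,k0,k0,k0,k0,k14],[k24],[k0,k0,k0,k0,k14]] k120 k6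
    [[(k8,k29),(k10,k45)],[(k5,k24),(k2,k48),(k6,k67),(k9,k91)],[(k6,k24),(k5,k47),(k9,k48),(k2,k71)],[(k4,k24),(k7,
    k25),(k0,k48),(k3,k71)],[(k0,k24),(k4,k30),(k7,k31),(k3,k47)],[(k2,k24),(k5,k30),(k9,k37),(k6,k51)],[(k9,k24),(k2,
    k25),(k5,k31),(k6,k38)],[(k3,k24),(k7,k38),(k4,k51),(k0,k67)],[(k7,k24),(k4,k37),(k3,k48),(k0,k91)],[(k11,k24),
    (k1,k29)],[(k8,k24),(k10,k40)],[(k11,k40),(k1,k45)]]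
    [] k0
    [[k1,k0,k1,k0,k1,k0],[k0,k1,k1,k0,k0,k0],[k0,k1,k2,k0,k0,k0],[k0,k1,k0,k1,k0,k0],[k0,k2,k0,k2,k0,k0],[k0,k1,k1,k1,
    k0,k0],[k0,k1,k2,k1,k0,k0],[k0,k1,k0,k2,k0,k0],[k0,k1,k1,k2,k0,k0],[k0,k0,k2,k0,k0,k0],[k0,k0,k3,k0,k0,k0],[k0,k0,
    k2,k1,k0,k0],[k0,k0,k1,k1,k0,k0],[k0,k0,k0,k2,k0,k0],[k0,k0,k0,k3,k0,k0],[k0,k0,k0,k0,k0,k2]]
    [.contra [z1,y1],.contra [y2,z0,z1,z1],.contra [y2,z0,z1,z1],.contra [y1,z0,z1],.contra [y1,z0,z2],.contra [z2,y4,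
    y3,y1,z4],.contra [y2,z0,z1,z1],.contra [y2,z0,z1,z1],.contra [y2,z0,z1,z1],.contra [z1],.contra [y1,z0,z0,z1],
    .contra [z1,y4,y2,y1,z4],.contra [y6,z0,z5,z1],.contra [z1],.contra [y1,z0,z0,z1],.contra [z1]]),
    .old (.lp [k24,k45,k30,k60,k40,k40] [k35,k35,k35,k14,k32,k32,k0,k34,k27,k27,k27,k27] k0 [[],[k0,k0,k0,k0,k0,k0,k0,
    k56],[],[],[k0,k0,k0,k0,k0,k0,k11],[],[k56],[k0,k0,k0,k0,k0,k11]] k120 k6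
    [[(k8,k32),(k10,k32)],[(k2,k24),(k5,k27),(k6,k59),(k9,k88)],[(k6,k24),(k2,k45),(k5,k48),(k9,k53)],[(k0,k24),(k7,
    k25),(k4,k27),(k3,k45)],[(k0,k27),(k7,k28),(k4,k30),(k3,k48)],[(k9,k24),(k2,k27),(k5,k30),(k6,k62)],[(k2,k25),(k5,
    k28),(k9,k33),(k6,k71)],[(k3,k24),(k0,k59),(k4,k62),(k7,k71)],[(k4,k24),(k7,k33),(k3,k53),(k0,k88)],[(k1,k32),
    (k11,k40)],[(k8,k40),(k10,k40)],[(k1,k32),(k11,k40)]]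
    [] k0
    [[k1,k1,k0,k0,k1,k0],[k1,k0,k1,k0,k1,k0],[k1,k0,k2,k0,k1,k0],[k1,k1,k0,k1,k1,k0],[k0,k2,k0,k0,k0,k0],[k0,k2,k0,k1,
    k0,k0],[k0,k1,k1,k0,k0,k0],[k0,k1,k2,k0,k0,k0],[k0,k1,k0,k1,k0,k0],[k0,k2,k0,k2,k0,k0],[k0,k1,k1,k1,k0,k0],[k0,k1,
    k2,k1,k0,k0],[k0,k0,k2,k0,k0,k0],[k0,k0,k3,k0,k0,k0],[k0,k0,k1,k1,k0,k0],[k0,k0,k0,k0,k0,k2]]
    [.contra [z1,y1],.contra [z1,y1],.contra [z1,y1],.contra [z1,y1],.contra [z1],.ref k13 k0 [(z1,[z0,z1]),(z1,[z1]),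
    (z1,[y3,z0,z2])],.contra [y2,z0,z1],.ref k12 k1 [(z1,[z0,z1]),(z1,[y3,z0,z2]),(z1,[z1])],.contra [y2,z0,z1],
    .ref k11 k0 [(z1,[z0,z1]),(z2,[z1]),(z2,[y3,z0,z2])],.contra [z1,y2,y1,z2],.ref k10 k0 [(z1,[z0,z1]),(z1,[y3,z0,
    z2]),(z1,[z3,z0,y1])],.contra [z1],.ref k10 k0 [(z1,[z0,z1]),(z1,[y1,z0,z1]),(z1,[z1])],.contra [y2,z0,z1],
    .contra [z1]]),
    .old (.lp [k53,k44,k34,k44,k23,k40] [k0,k5,k7,k7,k12,k12,k7,k7,k19,k16,k9,k9] k0 [[k0,k0,k16],[k0,k0,k0,k0,k0,k0,k0,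
    k4],[k0,k0,k0,k0,k8],[k0,k16],[],[k0,k0,k0,k8],[k4]] k120 k5
    [[(k8,k34),(k10,k44)],[(k5,k30),(k9,k46),(k2,k51),(k6,k51)],[(k9,k35),(k5,k39),(k6,k40),(k2,k60)],[(k7,k36),(k4,
    k39),(k0,k51),(k3,k60)],[(k0,k30),(k3,k39),(k7,k39),(k4,k42)],[(k9,k30),(k2,k39),(k6,k39),(k5,k42)],[(k9,k35),(k2,
    k36),(k5,k39),(k6,k44)],[(k4,k39),(k3,k40),(k7,k44),(k0,k51)],[(k4,k30),(k3,k35),(k7,k35),(k0,k46)],[(k11,k30),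
    (k1,k34)],[(k8,k30),(k10,k40)],[(k11,k40),(k1,k44)]]
    [] k0
    [[k1,k0,k0,k0,k1,k0],[k1,k0,k1,k0,k1,k0],[k0,k1,k1,k0,k0,k0],[k0,k1,k1,k1,k0,k0],[k0,k1,k0,k1,k0,k0],[k0,k0,k2,k0,
    k0,k0],[k0,k0,k1,k1,k0,k0],[k0,k0,k0,k2,k0,k0],[k0,k0,k0,k0,k0,k2]]
    [.contra [y1,z1],.ref k0 k0 [(z3,[z3,y3,y1,y2,z3])],.contra [z3,z0,z1,y1],.ref k0 k0 [(z1,[y1,z0,z0,z0,z1])],
    .ref k5 k0 [(z1,[y3,z3,z1,z1]),(z1,[z1])],.contra [z3,z0,z2,y2],.ref k5 k0 [(z1,[y3,z3,z0,z2]),(z3,[z3,z0,z1,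
    y1])],.contra [z1],.contra [z3,z6,z4,z2,y6]]),
    .old (.lp [k22,k40,k40,k38,k58,k40] [k18,k18,k9,k9,k9,k9,k10,k10,k0,k0,k9,k9] k0 [[k0,k0,k0,k0,k0,k0,k10],[],[k0,k0,
    k0,k0,k6,k6],[],[k0,k0,k0,k6,k0,k0,k0,k2],[k0,k0,k0,k6],[k0,k0,k0,k0,k0,k2],[k0,k10]] k120 k5
    [[(k10,k31),(k8,k40)],[(k6,k30),(k9,k30),(k2,k31),(k5,k31)],[(k2,k40),(k5,k40),(k6,k49),(k9,k49)],[(k0,k31),(k7,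
    k33),(k4,k34),(k3,k40)],[(k0,k31),(k3,k40),(k7,k45),(k4,k46)],[(k2,k34),(k6,k37),(k5,k46),(k9,k49)],[(k2,k33),(k6,
    k38),(k5,k45),(k9,k50)],[(k0,k30),(k4,k37),(k7,k38),(k3,k49)],[(k0,k30),(k3,k49),(k4,k49),(k7,k50)],[(k1,k40),
    (k11,k49)],[(k10,k40),(k8,k49)],[(k1,k31),(k11,k40)]]
    [] k0
    [[k1,k0,k0,k0,k1,k0],[k1,k0,k0,k0,k1,k1],[k0,k2,k0,k0,k0,k0],[k0,k2,k1,k0,k0,k0],[k0,k1,k1,k0,k0,k0],[k0,k1,k1,k1,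
    k0,k0],[k0,k1,k0,k1,k0,k0],[k0,k0,k2,k0,k0,k0],[k0,k0,k1,k1,k0,k0],[k0,k0,k0,k2,k0,k0],[k0,k0,k0,k3,k0,k0],[k0,k0,
    k0,k0,k0,k2]]
    [.contra [y1,z1],.ref k0 k0 [(z1,[z1])],.contra [z1],.ref k15 k0 [(z1,[z0,z1]),(z1,[z3,z0,y1]),(z1,[y3,z0,z2])],
    .contra [z1,y2,y1,z2],.ref k0 k0 [(z1,[y1,z0,z0,z1])],.ref k5 k0 [(z1,[y3,z3,z1]),(z1,[z1])],.contra [z1],
    .ref k9 k1 [(z1,[y3,z3,z1]),(z1,[z1])],.contra [z1],.ref k0 k0 [(z3,[y1,z0,y1,z3])],.contra [z1]]),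
    .old (.leafM k2 [k0,k1,k2,k3,k4,k5] [(z1,[z0,z1]),(z1,[z0,z0,z1]),(z1,[y3,y1,y1,z3])] []),
    .old (.lp [k10,k14,k24,k16,k14,k16] [k7,k7,k5,k5,k0,k0,k5,k3,k5,k5,k4,k4] k0 [[],[],[k0,k0,k0,k0,k0,k4],[k0,k0,k0,k0,
    k0,k4],[k0,k0,k4,k4],[k0,k0,k0,k0,k0,k0,k4],[],[k0,k0,k0,k0,k4]] k48 k5
    [[(k8,k12),(k10,k13)],[(k2,k12),(k6,k12),(k9,k12),(k5,k17)],[(k2,k14),(k6,k14),(k9,k14),(k5,k19)],[(k0,k12),(k3,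
    k14),(k4,k15),(k7,k20)],[(k0,k17),(k3,k19),(k4,k20),(k7,k25)],[(k2,k15),(k9,k19),(k5,k20),(k6,k23)],[(k9,k12),(k6,
    k16),(k2,k20),(k5,k25)],[(k0,k12),(k3,k14),(k7,k16),(k4,k23)],[(k0,k12),(k7,k12),(k3,k14),(k4,k19)],[(k1,k12),
    (k11,k15)],[(k8,k15),(k10,k16)],[(k1,k13),(k11,k16)]]
    [] k0
    [[k1,k0,k0,k0,k1,k0],[k1,k1,k0,k0,k1,k0],[k1,k0,k0,k1,k1,k0],[k1,k0,k0,k0,k1,k1],[k0,k2,k0,k0,k0,k0],[k0,k3,k0,k0,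
    k0,k0],[k0,k1,k1,k0,k0,k0],[k0,k1,k0,k1,k0,k0],[k0,k0,k2,k0,k0,k0],[k0,k0,k0,k2,k0,k0],[k0,k0,k0,k0,k0,k2]]
    [.contra [y1,z1],.ref k16 k1 [(z1,[z1]),(z1,[y3,z3,z1])],.ref k16 k0 [(z1,[z1]),(z1,[y3,z3,z1])],.ref k0 k0 [(z1,
    [z1])],.contra [z1],.ref k17 k0 [(z1,[z0,z1]),(z1,[z1]),(z1,[y1,z0,z1])],.ref k9 k0 [(z1,[y3,z3,z1]),(z1,[z1])],
    .contra [z1,y2,y1,z2],.contra [z1],.contra [z1],.contra [z1]]),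
    .old (.lp [k18,k21,k30,k18,k12,k20] [k6,k6,k2,k7,k0,k0,k6,k6,k9,k9,k5,k5] k0 [[k0,k0,k9,k0,k0,k0,k0,k3],[k0,k0,k6],
    [k0,k0,k0,k0,k0,k12],[k6,k9],[k0,k0,k0,k12,k0,k0,k3],[],[k0,k3],[k0,k0,k0,k0,k0,k3]] k60 k5
    [[(k8,k15),(k10,k19)],[(k5,k15),(k6,k15),(k9,k15),(k2,k28)],[(k5,k17),(k6,k17),(k9,k17),(k2,k30)],[(k4,k16),(k7,
    k22),(k0,k28),(k3,k30)],[(k0,k15),(k3,k17),(k4,k30),(k7,k36)],[(k2,k16),(k9,k18),(k6,k24),(k5,k30)],[(k9,k15),(k6,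
    k21),(k2,k22),(k5,k36)],[(k0,k15),(k3,k17),(k7,k21),(k4,k24)],[(k0,k15),(k7,k15),(k3,k17),(k4,k18)],[(k1,k15),
    (k11,k16)],[(k8,k16),(k10,k20)],[(k1,k19),(k11,k20)]]
    [] k0
    [[k1,k0,k0,k0,k1,k0],[k1,k0,k1,k0,k1,k0],[k1,k0,k0,k1,k1,k0],[k1,k0,k0,k0,k1,k1],[k0,k1,k1,k0,k0,k0],[k0,k1,k0,k1,
    k0,k0],[k0,k0,k0,k2,k0,k0],[k0,k0,k0,k0,k0,k2]]
    [.ref k14 k0 [(z1,[z1]),(z1,[y3,z1])],.ref k18 k0 [(z1,[z1]),(z1,[y3,z1])],.ref k16 k0 [(z1,[z1]),(z1,[y3,z1])],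
    .ref k0 k0 [(z1,[z1])],.ref k9 k0 [(z1,[y3,z1]),(z1,[z1])],.ref k5 k0 [(z1,[y3,z1]),(z1,[z1])],.contra [z1],
    .contra [z1]]),
    .old (.leafM k12 [k0,k2,k4,k5] [(z1,[z0,z0,z1]),(z1,[y2,y2,y1,z2]),(z1,[z1])] [(k1,k3,z1,[z0,z1]),(k3,k1,z1,[z0,z1])]),
    .old (.lp [(nat_lit 1288),(nat_lit 9660),(nat_lit 6720),(nat_lit 8050),(nat_lit 6440),(nat_lit 6440)] [(nat_lit 4186),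
    (nat_lit 4186),k0,k0,(nat_lit 1470),(nat_lit 1470),(nat_lit 805),(nat_lit 805),(nat_lit 1610),(nat_lit 1610),
    (nat_lit 1610),(nat_lit 1610)] k0 [[],[],[k0,k0,k0,k0,k0,(nat_lit 1932)],[k0,k0,k0,k0,k0,(nat_lit 1610)],[k0,k0,
    (nat_lit 1610),(nat_lit 1932)],[k0,k0,k0,k0,k0,k0,(nat_lit 2760)],[],[k0,k0,k0,k0,
    (nat_lit 2760)]] (nat_lit 19320) k6
    [[(k8,(nat_lit 3864)),(k10,(nat_lit 3864))],[(k9,(nat_lit 3864)),(k5,(nat_lit 4004)),(k6,(nat_lit 4669)),(k2,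
    (nat_lit 5474))],[(k9,(nat_lit 8050)),(k5,(nat_lit 8190)),(k6,(nat_lit 8855)),(k2,(nat_lit 9660))],[(k0,
    (nat_lit 5474)),(k4,(nat_lit 6258)),(k3,(nat_lit 9660)),(k7,(nat_lit 10465))],[(k0,(nat_lit 4004)),(k4,
    (nat_lit 5110)),(k3,(nat_lit 8190)),(k7,(nat_lit 9317))],[(k5,(nat_lit 5110)),(k2,(nat_lit 6258)),(k9,
    (nat_lit 6580)),(k6,(nat_lit 10145))],[(k9,(nat_lit 4485)),(k6,(nat_lit 8050)),(k5,(nat_lit 9317)),(k2,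
    (nat_lit 10465))],[(k0,(nat_lit 4669)),(k7,(nat_lit 8050)),(k3,(nat_lit 8855)),(k4,(nat_lit 10145))],[(k0,
    (nat_lit 3864)),(k7,(nat_lit 4485)),(k4,(nat_lit 6580)),(k3,(nat_lit 8050))],[(k1,(nat_lit 3864)),(k11,
    (nat_lit 6440))],[(k8,(nat_lit 6440)),(k10,(nat_lit 6440))],[(k1,(nat_lit 3864)),(k11,(nat_lit 6440))]]
    [] k0
    [[k1,k0,k0,k0,k1,k0],[k2,k0,k0,k0,k2,k0],[k1,k1,k0,k0,k1,k0],[k1,k0,k1,k0,k1,k0],[k1,k0,k0,k1,k1,k0],[k1,k0,k0,k0,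
    k1,k1],[k0,k1,k1,k0,k0,k0],[k0,k0,k2,k0,k0,k0],[k0,k0,k3,k0,k0,k0],[k0,k0,k0,k2,k0,k0],[k0,k0,k0,k0,k0,k2]]
    [.contra [y1,z1,z2],.ref k20 k0 [(z2,[z1]),(z1,[z0,y1,z0,y1,z1]),(z2,[y1,z2,z0,z4])],.contra [y1,z1,z2],
    .contra [y1,z1,z1,z1],.ref k19 k0 [(z1,[z1,z0,z1,z1,z2])],.contra [y1,z1,z1],.contra [z1,z0,z1,y1],.contra [z1,z0,
    z2,y2],.ref k19 k0 [(z1,[y1,z0,z0,z3,z3])],.contra [y1,y2,z0,y2,z2],.contra [z1,z0,z2]]),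
    .old (.leafM k11 [k0,k2,k4,k5] [(z1,[z0,z0,z1]),(z1,[y3,y3,y1,z3]),(z1,[z1])] [(k1,k3,z1,[z0,z1]),(k3,k1,z1,[z0,z1])]),
    .old (.lp [(nat_lit 6480),(nat_lit 6900),(nat_lit 4830),(nat_lit 8280),(nat_lit 1840),(nat_lit 4140)] [k72,
    (nat_lit 1728),k0,(nat_lit 1380),(nat_lit 1725),(nat_lit 1725),k0,k0,(nat_lit 3220),(nat_lit 3220),(nat_lit 2760),
    (nat_lit 1380)] k0 [[k0,k0,k0,(nat_lit 4830)],[],[k0,(nat_lit 4830)],[k0,k0,k0,k0,k0,(nat_lit 1380)],[k0,k0,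
    (nat_lit 1380)]] (nat_lit 16560) k6
    [[(k8,(nat_lit 3332)),(k10,(nat_lit 3792))],[(k2,(nat_lit 3378)),(k9,(nat_lit 4988)),(k5,(nat_lit 6483)),(k6,
    (nat_lit 8208))],[(k9,(nat_lit 3680)),(k2,(nat_lit 6900)),(k6,(nat_lit 6900)),(k5,(nat_lit 10005))],[(k0,
    (nat_lit 3378)),(k4,(nat_lit 6555)),(k3,(nat_lit 6900)),(k7,(nat_lit 9660))],[(k4,(nat_lit 3450)),(k0,
    (nat_lit 6483)),(k7,(nat_lit 6555)),(k3,(nat_lit 10005))],[(k9,(nat_lit 3335)),(k5,(nat_lit 3450)),(k2,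
    (nat_lit 6555)),(k6,(nat_lit 6555))],[(k9,(nat_lit 5060)),(k5,(nat_lit 6555)),(k6,(nat_lit 8280)),(k2,
    (nat_lit 9660))],[(k4,(nat_lit 6555)),(k3,(nat_lit 6900)),(k0,(nat_lit 8208)),(k7,(nat_lit 8280))],[(k4,
    (nat_lit 3335)),(k3,(nat_lit 3680)),(k0,(nat_lit 4988)),(k7,(nat_lit 5060))],[(k1,(nat_lit 3332)),(k11,
    (nat_lit 3680))],[(k8,(nat_lit 3680)),(k10,(nat_lit 4140))],[(k1,(nat_lit 3792)),(k11,(nat_lit 4140))]]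
    [] k0
    [[k1,k0,k0,k0,k1,k0],[k1,k1,k0,k0,k1,k0],[k1,k0,k1,k0,k1,k0],[k1,k0,k0,k0,k1,k1],[k1,k1,k0,k0,k1,k1],[k0,k2,k0,k0,
    k0,k0],[k0,k0,k2,k0,k0,k0],[k0,k0,k3,k0,k0,k0],[k0,k0,k4,k0,k0,k0],[k0,k0,k1,k1,k0,k0],[k0,k0,k0,k0,k0,k2],[k0,k0,
    k0,k0,k0,k3]]
    [.contra [y2,z2,z1,z1],.contra [z1,y1],.contra [y1,z1,z1,z1],.contra [z1,y1],.contra [z1,y1,z1],.contra [z1],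
    .contra [y1,z0,z2,z2],.ref k22 k0 [(z1,[z0,z1]),(z1,[z0,y1,z0,y1,z1]),(z1,[z1])],.ref k20 k0 [(z1,[z0,z1]),(z1,
    [z0,y1,z0,y1,z1]),(z2,[z1])],.contra [y1,y1,z1,z0,z1],.contra [z1],.ref k19 k0 [(z1,[y1,z0,z0,z0,z3])]]),
    .old (.lp [k180,(nat_lit 404),(nat_lit 404),(nat_lit 786),(nat_lit 316),(nat_lit 300)] [(nat_lit 303),(nat_lit 303),
    k191,k191,k191,k191,k0,k0,(nat_lit 235),(nat_lit 235),(nat_lit 243),(nat_lit 243)] k0 [[k0,k0,k0,k0,k0,k0,k8],[],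
    [k0,k0,k0,k0,k0,k10],[k0,k0,k0,k0,k0,k2],[k0,k0,k2,k10],[],[],[k0,k8]] (nat_lit 1200) k6
    [[(k10,(nat_lit 240)),(k8,(nat_lit 248))],[(k9,(nat_lit 240)),(k2,(nat_lit 292)),(k5,(nat_lit 292)),(k6,
    (nat_lit 483))],[(k9,(nat_lit 360)),(k2,(nat_lit 404)),(k5,(nat_lit 404)),(k6,(nat_lit 603))],[(k0,(nat_lit 292)),
    (k4,(nat_lit 394)),(k3,(nat_lit 404)),(k7,(nat_lit 597))],[(k0,(nat_lit 292)),(k4,(nat_lit 402)),(k3,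
    (nat_lit 404)),(k7,(nat_lit 605))],[(k9,(nat_lit 360)),(k2,(nat_lit 394)),(k5,(nat_lit 402)),(k6,(nat_lit 595))],
    [(k9,(nat_lit 551)),(k2,(nat_lit 597)),(k5,(nat_lit 605)),(k6,(nat_lit 786))],[(k0,(nat_lit 483)),(k4,
    (nat_lit 595)),(k3,(nat_lit 603)),(k7,(nat_lit 786))],[(k0,(nat_lit 240)),(k3,(nat_lit 360)),(k4,(nat_lit 360)),
    (k7,(nat_lit 551))],[(k1,(nat_lit 248)),(k11,(nat_lit 308))],[(k10,(nat_lit 300)),(k8,(nat_lit 308))],[(k1,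
    (nat_lit 240)),(k11,(nat_lit 300))]]
    [] k0
    [[k1,k0,k0,k0,k1,k0],[k2,k0,k0,k0,k2,k0],[k1,k1,k0,k0,k1,k0],[k1,k0,k1,k0,k1,k0],[k1,k0,k0,k0,k1,k1],[k1,k0,k0,k0,
    k1,k2],[k0,k2,k0,k0,k0,k0],[k0,k1,k1,k0,k0,k0],[k0,k0,k2,k0,k0,k0],[k0,k0,k0,k0,k0,k2],[k0,k0,k0,k0,k0,k3]]
    [.contra [y1,z1,z1],.ref k23 k1 [(z2,[z1]),(z2,[z1,y2]),(z2,[y1,z0,y2,z2])],.contra [y1,z1,z1],.contra [y1,z0,y1,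
    z1],.contra [y1,z1,z1],.ref k21 k0 [(z1,[z1]),(z1,[y1,z1,z1]),(z1,[y1,z0,y1,z1])],.contra [z1],.contra [z1,z1,z2,
    y1],.contra [z1,z2,z4,y2],.contra [z1],.ref k19 k0 [(z1,[y1,z0,z0,z3])]]),
    .old (.lp [k13,k22,k24,k10,k13,k12] [k5,k6,k1,k1,k0,k0,k7,k7,k6,k5,k6,k6] k0 [[],[k0,k0,k0,k4],[k4],[k0,k0,k0,k0,k2],
    [k0,k0,k0,k0,k0,k0,k6],[k0,k0,k2],[],[k0,k0,k0,k0,k0,k6]] k48 k5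
    [[(k8,k12),(k10,k12)],[(k6,k12),(k9,k14),(k2,k18),(k5,k23)],[(k6,k16),(k2,k18),(k9,k18),(k5,k23)],[(k7,k16),(k0,
    k18),(k3,k18),(k4,k25)],[(k7,k15),(k0,k23),(k3,k23),(k4,k24)],[(k9,k13),(k6,k17),(k5,k24),(k2,k25)],[(k9,k12),(k5,
    k15),(k2,k16),(k6,k16)],[(k0,k12),(k3,k16),(k7,k16),(k4,k17)],[(k7,k12),(k4,k13),(k0,k14),(k3,k18)],[(k1,k12),
    (k11,k12)],[(k8,k12),(k10,k12)],[(k1,k12),(k11,k12)]]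
    [] k0
    [[k1,k0,k0,k0,k1,k0],[k1,k0,k0,k1,k1,k0],[k1,k0,k0,k0,k1,k1],[k0,k2,k0,k0,k0,k0],[k0,k1,k0,k1,k0,k0],[k0,k0,k1,k1,
    k0,k0],[k0,k0,k0,k2,k0,k0],[k0,k0,k0,k0,k0,k2],[k0,k0,k0,k0,k0,k3]]
    [.contra [y1,z1],.contra [y1,z1],.contra [y1,z1],.contra [z1],.ref k24 k1 [(z1,[y1,z1]),(z1,[z1])],
    .ref k6 k0 [(z1,[z0,z1]),(z1,[y1,y1,z1])],.contra [z1],.contra [z1],.ref k19 k0 [(z1,[y1,z0,z3])]]),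
    .old (.lp [k56,k104,k78,k120,k40,k80] [k32,k32,k8,k8,k21,k21,k0,k0,k40,k40,k20,k20] k0 [[k0,k0,k0,k0,k0,k0,k0,k40],
    [k0,k0,k0,k4],[k4,k0,k0,k0,k0,k42],[k0,k0,k0,k0,k0,k16],[k0,k0,k16,k42],[],[k0,k40]] (nat_lit 240) k6
    [[(k8,k48),(k10,k68)],[(k6,k48),(k9,k48),(k5,k71),(k2,k80)],[(k5,k91),(k2,k100),(k6,k112),(k9,k112)],[(k4,k49),
    (k0,k80),(k3,k100),(k7,k128)],[(k4,k62),(k0,k71),(k3,k91),(k7,k141)],[(k2,k49),(k9,k59),(k5,k62),(k6,k99)],[(k9,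
    k80),(k6,k120),(k2,k128),(k5,k141)],[(k0,k48),(k4,k99),(k3,k112),(k7,k120)],[(k0,k48),(k4,k59),(k7,k80),(k3,
    k112)],[(k1,k48),(k11,k60)],[(k8,k60),(k10,k80)],[(k1,k68),(k11,k80)]]
    [] k0
    [[k1,k0,k0,k0,k1,k0],[k2,k0,k0,k0,k2,k0],[k1,k0,k1,k0,k1,k0],[k1,k0,k0,k1,k1,k0],[k1,k0,k0,k0,k1,k1],[k0,k2,k0,k0,
    k0,k0],[k0,k1,k1,k0,k0,k0],[k0,k1,k2,k0,k0,k0],[k0,k0,k2,k0,k0,k0],[k0,k0,k3,k0,k0,k0],[k0,k0,k0,k0,k0,k2]]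
    [.contra [y1,z1,z1],.contra [y1,z2,z2],.contra [y2,z2,z1,z2],.contra [y1,z0,z1,y1,z1],.contra [y2,z2,z1],
    .contra [z1],.ref k19 k0 [(z1,[y1,z0,z1,z1,z3])],.contra [z1,z0,z1,y2],.contra [z1],.ref k19 k0 [(z1,[y1,z0,z0,z3,
    z3])],.contra [z1,z0,z0,z2]]),
    .old (.lp [k34,k120,k62,k120,k62,k80] [k43,k43,k0,k0,k29,k29,k0,k0,k29,k29,k20,k20] k0 [[],[k0,k0,k0,k0,k0,k0,k20],[],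
    [],[k0,k0,k0,k0,k0,k0,k0,k4],[k0,k0,k0,k0,k0,k0,k0,k20],[k0,k0,k0,k0,k20,k4],[k20]] (nat_lit 240) k6
    [[(k8,k48),(k10,k57)],[(k5,k48),(k9,k48),(k2,k77),(k6,k97)],[(k9,k71),(k5,k91),(k2,k120),(k6,k120)],[(k0,k77),(k4,
    k91),(k3,k120),(k7,k120)],[(k0,k48),(k4,k62),(k3,k91),(k7,k91)],[(k5,k62),(k9,k82),(k6,k87),(k2,k91)],[(k5,k91),
    (k9,k95),(k6,k100),(k2,k120)],[(k4,k87),(k0,k97),(k7,k100),(k3,k120)],[(k0,k48),(k3,k71),(k4,k82),(k7,k95)],[(k1,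
    k48),(k11,k71)],[(k8,k71),(k10,k80)],[(k1,k57),(k11,k80)]]
    [] k0
    [[k1,k0,k0,k0,k1,k0],[k2,k0,k0,k0,k2,k0],[k1,k1,k0,k0,k1,k0],[k1,k0,k1,k0,k1,k0],[k1,k0,k0,k0,k1,k1],[k0,k1,k1,k0,
    k0,k0],[k0,k0,k2,k0,k0,k0],[k0,k0,k3,k0,k0,k0],[k0,k0,k1,k1,k0,k0],[k0,k0,k0,k2,k0,k0],[k0,k0,k0,k0,k0,k2]]
    [.contra [y1,y1,y2,z2],.ref k20 k0 [(z2,[z1]),(z1,[z0,z0,z1]),(z2,[y1,y2,y4,z4])],.ref k26 k0 [(z1,[z0,z1]),(z1,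
    [z1,y1]),(z1,[z0,y1,y1,z1])],.contra [y1,y1,y2,z2],.contra [y1,z0,y1,z1],.ref k25 k0 [(z1,[y1,z0,z0,z1])],
    .contra [z1],.ref k19 k0 [(z1,[y1,y3,y3,z6])],.ref k25 k1 [(z1,[y1,z0,z0,z1])],.contra [y1,z0,z2],.contra [z1,y2,
    y2,z2]]),
    .old (.lp [k66,k90,k70,k130,k54,k60] [k32,k32,k20,k20,k30,k30,k0,k0,k38,k38,k35,k35] k0 [[k0,k0,k0,k30],[],[k0,k30],
    [k0,k0,k0,k0,k0,k20],[k0,k0,k20],[k0,k0,k0,k0,k0,k0,k40],[],[k0,k0,k0,k0,k40]] (nat_lit 240) k6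
    [[(k8,k60),(k10,k63)],[(k2,k48),(k9,k60),(k5,k68),(k6,k98)],[(k9,k72),(k2,k90),(k5,k110),(k6,k110)],[(k0,k48),(k4,
    k80),(k3,k90),(k7,k130)],[(k4,k50),(k0,k68),(k7,k100),(k3,k110)],[(k5,k50),(k9,k62),(k2,k80),(k6,k140)],[(k9,k52),
    (k5,k100),(k2,k130),(k6,k130)],[(k0,k98),(k3,k110),(k7,k130),(k4,k140)],[(k7,k52),(k0,k60),(k4,k62),(k3,k72)],
    [(k11,k57),(k1,k60)],[(k8,k57),(k10,k60)],[(k11,k60),(k1,k63)]]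
    [] k0
    [[k1,k0,k0,k0,k1,k0],[k1,k1,k0,k0,k1,k0],[k1,k0,k1,k0,k1,k0],[k1,k0,k0,k1,k1,k0],[k1,k0,k0,k0,k1,k1],[k0,k2,k0,k0,
    k0,k0],[k0,k1,k1,k0,k0,k0],[k0,k0,k2,k0,k0,k0],[k0,k0,k3,k0,k0,k0],[k0,k0,k4,k0,k0,k0],[k0,k0,k0,k0,k0,k2],[k0,k0,
    k0,k0,k0,k3]]
    [.contra [y2,z2,z1],.contra [z1,y1],.contra [z1,y1],.contra [y1,z1,z1],.contra [z1,y1],.contra [z1],
    .ref k25 k0 [(z1,[y1,z0,z0,z1])],.contra [z1],.ref k22 k0 [(z1,[z0,z1]),(z1,[z0,z0,z1]),(z1,[z1])],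
    .ref k27 k0 [(z2,[y1,y2,y4,z4]),(z1,[z0,z0,z1])],.contra [z1],.ref k19 k0 [(z1,[y1,z0,z0,z3])]]),
    .old (.lp [k36,k118,k80,k120,k64,k60] [k42,k42,k1,k1,k20,k20,k0,k0,k28,k28,k30,k30] k0 [[k0,k0,k0,k0,k0,k0,k2],[k0,k0,
    k22],[],[k22],[k0,k0,k0,k0,k0,k0,k0,k20],[],[k0,k0,k0,k0,k0,k20],[k0,k2]] (nat_lit 240) k6
    [[(k10,k48),(k8,k50)],[(k9,k48),(k5,k58),(k6,k78),(k2,k99)],[(k5,k77),(k9,k91),(k2,k118),(k6,k121)],[(k0,k99),(k4,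
    k99),(k3,k118),(k7,k119)],[(k0,k58),(k3,k77),(k4,k80),(k7,k100)],[(k9,k72),(k5,k80),(k6,k80),(k2,k99)],[(k5,k100),
    (k9,k112),(k2,k119),(k6,k120)],[(k0,k78),(k4,k80),(k7,k120),(k3,k121)],[(k0,k48),(k4,k72),(k3,k91),(k7,k112)],
    [(k1,k50),(k11,k62)],[(k10,k60),(k8,k62)],[(k1,k48),(k11,k60)]]
    [] k0
    [[k1,k0,k0,k0,k1,k0],[k2,k0,k0,k0,k2,k0],[k1,k0,k1,k0,k1,k0],[k1,k0,k0,k0,k1,k1],[k1,k0,k0,k0,k1,k2],[k0,k2,k0,k0,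
    k0,k0],[k0,k1,k1,k0,k0,k0],[k0,k0,k2,k0,k0,k0],[k0,k0,k1,k1,k0,k0],[k0,k0,k0,k0,k0,k2],[k0,k0,k0,k0,k0,k3]]
    [.contra [y1,z1],.ref k28 k0 [(z2,[z1]),(z1,[z0,y1,z1])],.contra [y1,z1],.contra [y1,z1],.ref k27 k0 [(z1,[z1]),
    (z1,[z0,y1,z1])],.contra [z1],.ref k25 k0 [(z1,[y1,z0,z1])],.contra [z1],.ref k25 k1 [(z1,[y1,z0,z1])],
    .contra [z1],.ref k19 k0 [(z1,[y1,z0,z3])]]),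
    .old (.lp [k26,k19,k14,k33,k15,k12] [k0,k12,k14,k5,k12,k12,k2,k3,k13,k10,k13,k13] k0 [[k0,k0,k14],[k0,k0,k0,k0,k0,k0,
    k0,k19],[k0,k0,k0,k0,k6],[k0,k14],[],[k0,k0,k0,k6,k0,k0,k13],[k19],[k0,k0,k0,k0,k13]] k60 k6
    [[(k8,k13),(k10,k13)],[(k5,k12),(k2,k24),(k6,k36),(k9,k47)],[(k6,k12),(k5,k21),(k9,k23),(k2,k33)],[(k4,k12),(k7,
    k15),(k0,k24),(k3,k33)],[(k0,k12),(k4,k20),(k3,k21),(k7,k23)],[(k2,k12),(k9,k16),(k5,k20),(k6,k37)],[(k9,k12),(k2,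
    k15),(k5,k23),(k6,k33)],[(k3,k12),(k7,k33),(k0,k36),(k4,k37)],[(k7,k12),(k4,k16),(k3,k23),(k0,k47)],[(k11,k12),
    (k1,k13)],[(k8,k12),(k10,k12)],[(k11,k12),(k1,k13)]]
    [] k0
    [[k1,k0,k1,k0,k1,k0],[k1,k0,k1,k0,k1,k1],[k0,k1,k1,k0,k0,k0],[k0,k1,k2,k0,k0,k0],[k0,k1,k0,k1,k0,k0],[k0,k2,k0,k2,
    k0,k0],[k0,k1,k1,k1,k0,k0],[k0,k0,k2,k0,k0,k0],[k0,k0,k0,k0,k0,k2],[k0,k0,k0,k0,k0,k3],[k0,k0,k0,k0,k0,k4]]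
    [.contra [y1,z1,z0,z1],.contra [z3,y3,z1,y1],.contra [y6,y3,z1,z2,z3],.contra [z3,z0,y1,y2],.contra [y3,y3,z1,y1,
    z3],.contra [y3,y6,z2,y2,z6],.contra [y1,y1,z0,z0,z1],.contra [z1],.contra [z1],.contra [y2,y3,y1,z0,z3],
    .contra [y3,y6,y2,y1,z6]]),
    .old (.lp [k32,k56,k32,k56,k32,k30] [k32,k32,k40,k0,k32,k32,k15,k25,k32,k32,k33,k33] k0 [[k0,k0,k8],[k0,k0,k0,k0,k0,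
    k0,k0,k56],[],[k0,k8],[k0,k0,k0,k0,k0,k0,k8],[],[k56],[k0,k0,k0,k0,k0,k8]] k120 k6
    [[(k10,k31),(k8,k32)],[(k2,k24),(k5,k24),(k6,k49),(k9,k88)],[(k6,k25),(k2,k64),(k5,k64),(k9,k64)],[(k0,k24),(k4,
    k24),(k7,k31),(k3,k64)],[(k0,k24),(k4,k32),(k7,k39),(k3,k64)],[(k2,k24),(k9,k24),(k5,k32),(k6,k49)],[(k2,k31),(k5,
    k39),(k9,k39),(k6,k64)],[(k3,k25),(k0,k49),(k4,k49),(k7,k64)],[(k4,k24),(k7,k39),(k3,k64),(k0,k88)],[(k11,k31),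
    (k1,k32)],[(k10,k30),(k8,k31)],[(k11,k30),(k1,k31)]]
    [] k0
    [[k1,k0,k1,k0,k1,k0],[k1,k0,k2,k0,k1,k0],[k1,k0,k1,k0,k1,k1],[k0,k1,k1,k0,k0,k0],[k0,k1,k0,k1,k0,k0],[k0,k2,k0,k2,
    k0,k0],[k0,k1,k1,k1,k0,k0],[k0,k0,k2,k0,k0,k0],[k0,k0,k3,k0,k0,k0],[k0,k0,k1,k1,k0,k0],[k0,k0,k0,k0,k0,k2],[k0,k0,
    k0,k0,k0,k3]]
    [.contra [z1,y1],.contra [z1,y1],.contra [z1,z0,z1,y1],.contra [y1,y1,z0,z1],.contra [y1,z0,z1],.contra [y1,z0,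
    z2],.contra [y1,y1,z0,z1],.contra [z1],.ref k30 k0 [(z1,[z0,z1]),(z1,[z1,z3,z3,y3]),(z1,[z1])],.contra [y1,y1,z0,
    z1],.contra [z1],.ref k19 k0 [(z1,[y1,z0,z0,z3])]]),
    .old (.leafM k12 [k1,k2,k3,k5] [(z1,[z0,z0,z1]),(z1,[y2,y2,y1,z2]),(z1,[z0,z1])] [(k4,k0,z1,[z1]),(k0,k4,z1,[z1])]),
    .old (.leafM k11 [k1,k2,k3,k5] [(z1,[z0,z0,z1]),(z1,[y3,y3,y1,z3]),(z1,[z0,z1])] [(k4,k0,z1,[z1]),(k0,k4,z1,[z1])]),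
    .old (.lp [k198,k160,k124,k186,k194,k96] [k0,k0,k30,k8,k37,k37,k6,k6,k2,k2,k51,k51] k0 [[k0,k0,k0,k72],[k0,k0,k0,k0,
    k0,k0,k0,k88],[k0,k72],[],[k0,k0,k0,k0,k0,k0,k36],[k0,k0,k0,k0,k0,k0,k46],[k88],[k0,k0,k0,k0,k46,
    k36]] (nat_lit 480) k6
    [[(k10,k147),(k8,k196)],[(k2,k96),(k5,k161),(k6,k192),(k9,(nat_lit 284))],[(k6,k96),(k2,k160),(k9,k188),(k5,
    (nat_lit 225))],[(k0,k96),(k4,k131),(k3,k160),(k7,k162)],[(k4,k124),(k7,k155),(k0,k161),(k3,(nat_lit 225))],[(k9,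
    k123),(k5,k124),(k2,k131),(k6,(nat_lit 201))],[(k9,k144),(k5,k155),(k2,k162),(k6,(nat_lit 222))],[(k3,k96),(k0,
    k192),(k4,(nat_lit 201)),(k7,(nat_lit 222))],[(k4,k123),(k7,k144),(k3,k188),(k0,(nat_lit 284))],[(k11,k145),(k1,
    k196)],[(k10,k96),(k8,k145)],[(k11,k96),(k1,k147)]]
    [] k0
    [[k0,k2,k0,k0,k0,k0],[k0,k2,k0,k1,k0,k0],[k0,k1,k1,k0,k0,k0],[k0,k1,k0,k1,k0,k0],[k0,k1,k1,k1,k0,k0],[k0,k0,k2,k0,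
    k0,k0],[k0,k0,k3,k0,k0,k0],[k0,k0,k1,k1,k0,k0],[k0,k0,k0,k2,k0,k0],[k0,k0,k0,k0,k0,k2],[k0,k0,k0,k0,k0,k3],[k0,k0,
    k0,k0,k0,k4]]
    [.contra [z1],.contra [z1,z0,y1],.contra [y1,y1,z0,z1],.contra [y1,z0,z2],.contra [z1,z0,y1],.contra [z1],
    .ref k33 k0 [(z1,[z0,z1]),(z1,[z0,z0,z1]),(z1,[z1])],.contra [y1,y1,z0,z1],.contra [z1],.contra [z1],
    .ref k19 k0 [(z1,[y1,z0,z0,z3])],.ref k32 k0 [(z1,[z0,z1]),(z1,[z0,z0,z1]),(z2,[y1,y4,y4,z4])]]),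
    .old (.lp [k38,k80,k80,k80,k140,k60] [k51,k51,k41,k19,k30,k30,k11,k49,k0,k0,k40,k40] k0 [[],[k0,k0,k0,k0,k0,k0,k0,
    k62],[],[],[k0,k0,k0,k0,k0,k0,k62],[],[k62],[k0,k0,k0,k0,k0,k62]] (nat_lit 240) k6
    [[(k10,k49),(k8,k89)],[(k2,k48),(k5,k59),(k6,k78),(k9,k151)],[(k6,k48),(k2,k80),(k5,k91),(k9,k121)],[(k0,k48),(k7,
    k50),(k4,k69),(k3,k80)],[(k0,k59),(k7,k61),(k4,k80),(k3,k91)],[(k9,k48),(k2,k69),(k5,k80),(k6,k99)],[(k2,k50),(k5,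
    k61),(k9,k91),(k6,k142)],[(k3,k48),(k0,k78),(k4,k99),(k7,k142)],[(k4,k48),(k7,k91),(k3,k121),(k0,k151)],[(k1,k89),
    (k11,k100)],[(k10,k60),(k8,k100)],[(k1,k49),(k11,k60)]]
    [] k0
    [[k1,k0,k1,k0,k1,k0],[k0,k2,k0,k0,k0,k0],[k0,k2,k0,k1,k0,k0],[k0,k1,k1,k0,k0,k0],[k0,k1,k0,k1,k0,k0],[k0,k2,k0,k2,
    k0,k0],[k0,k1,k1,k1,k0,k0],[k0,k0,k2,k0,k0,k0],[k0,k0,k1,k1,k0,k0],[k0,k0,k0,k0,k0,k2],[k0,k0,k0,k0,k0,k3]]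
    [.contra [z1,y1],.contra [z1],.ref k31 k0 [(z1,[z0,z1]),(z1,[z1])],.contra [y1,y1,z1],.contra [y1,y1,z1],
    .ref k34 k0 [(z1,[z0,z1]),(z2,[z1])],.contra [y1,y1,z1],.contra [z1],.contra [y1,y1,z1],.contra [z1],
    .ref k19 k0 [(z1,[y1,z0,z3])]]),
    .old (.lp [k6,k8,k8,k8,k10,k6] [k2,k2,k1,k1,k1,k1,k1,k1,k0,k0,k2,k2] k0 [] k24 k5
    [[(k10,k6),(k8,k8)],[(k2,k7),(k5,k7),(k6,k7),(k9,k8)],[(k2,k8),(k5,k8),(k6,k8),(k9,k9)],[(k0,k7),(k3,k8),(k4,k8),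
    (k7,k8)],[(k0,k7),(k3,k8),(k4,k8),(k7,k8)],[(k2,k8),(k5,k8),(k6,k8),(k9,k9)],[(k2,k8),(k5,k8),(k6,k8),(k9,k9)],
    [(k0,k7),(k3,k8),(k4,k8),(k7,k8)],[(k0,k8),(k3,k9),(k4,k9),(k7,k9)],[(k1,k8),(k11,k8)],[(k10,k6),(k8,k8)],[(k1,
    k6),(k11,k6)]]
    [] k0
    [[k1,k0,k0,k0,k1,k0],[k1,k0,k0,k0,k1,k1],[k0,k2,k0,k0,k0,k0],[k0,k1,k1,k0,k0,k0],[k0,k1,k0,k1,k0,k0],[k0,k0,k2,k0,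
    k0,k0],[k0,k0,k1,k1,k0,k0],[k0,k0,k0,k2,k0,k0],[k0,k0,k0,k0,k0,k2],[k0,k0,k0,k0,k0,k3]]
    [.contra [y1,z1],.ref k0 k0 [(z1,[z1])],.contra [z1],.contra [y1,y1,z1],.ref k29 k0 [(z1,[y1,z0,z1])],
    .contra [z1],.ref k25 k1 [(z1,[y1,z0,z1])],.contra [z1],.contra [z1],.ref k19 k0 [(z1,[y1,z0,z3])]]),
    .old (.lp [(nat_lit 1020),(nat_lit 748),(nat_lit 748),(nat_lit 748),(nat_lit 272),(nat_lit 510)] [k0,k0,k136,k136,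
    k136,k136,k136,k136,(nat_lit 374),(nat_lit 374),(nat_lit 375),k135] k0 [[k0,k0,k0,(nat_lit 374)],[k0,k0,k0,k0,k0,
    k0,k0,(nat_lit 238)],[k0,(nat_lit 374)],[k0,k0,k0,k0,k170,k34],[k0,k0,k34],[k0,k0,k170],
    [(nat_lit 238)]] (nat_lit 2040) k5
    [[(k10,(nat_lit 645)),(k8,(nat_lit 646))],[(k2,(nat_lit 510)),(k5,(nat_lit 884)),(k6,(nat_lit 884)),(k9,
    (nat_lit 884))],[(k6,(nat_lit 510)),(k9,(nat_lit 510)),(k2,(nat_lit 748)),(k5,(nat_lit 1122))],[(k0,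
    (nat_lit 510)),(k3,(nat_lit 748)),(k7,(nat_lit 782)),(k4,(nat_lit 918))],[(k7,(nat_lit 578)),(k4,(nat_lit 714)),
    (k0,(nat_lit 884)),(k3,(nat_lit 1122))],[(k9,(nat_lit 510)),(k5,(nat_lit 714)),(k6,(nat_lit 748)),(k2,
    (nat_lit 918))],[(k9,(nat_lit 510)),(k5,(nat_lit 578)),(k6,(nat_lit 748)),(k2,(nat_lit 782))],[(k3,(nat_lit 510)),
    (k4,(nat_lit 748)),(k7,(nat_lit 748)),(k0,(nat_lit 884))],[(k3,(nat_lit 510)),(k4,(nat_lit 510)),(k7,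
    (nat_lit 510)),(k0,(nat_lit 884))],[(k11,(nat_lit 511)),(k1,(nat_lit 646))],[(k10,(nat_lit 510)),(k8,
    (nat_lit 511))],[(k11,(nat_lit 510)),(k1,(nat_lit 645))]]
    [] k0
    [[k1,k0,k0,k0,k1,k0],[k1,k1,k0,k0,k1,k0],[k0,k2,k0,k0,k0,k0],[k0,k1,k0,k1,k0,k0],[k0,k1,k1,k1,k0,k0],[k0,k0,k2,k0,
    k0,k0],[k0,k0,k1,k1,k0,k0],[k0,k0,k0,k2,k0,k0],[k0,k0,k0,k0,k0,k2],[k0,k0,k0,k0,k0,k3]]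
    [.ref k35 k0 [(z1,[z1])],.ref k36 k1 [(z1,[z1])],.contra [z1],.ref k29 k0 [(z1,[y1,z1])],.ref k0 k0 [(z1,[y1,
    z1])],.contra [z1],.ref k25 k1 [(z1,[y1,z1])],.contra [z1],.contra [z1],.ref k19 k0 [(z1,[y1,z3])]])]⟩

/-- classes `0 0 0 0 1 1`, types `B0 B1 B0 B1 C0 C2` -/
noncomputable def cU6_82 : CertX :=
  ⟨[k8,k9,k8,k9,k20,k22],[(false,k0,[k0,k1,k2,k3,k4,k5])],[[[([z1,z0,z0,z0,z1,z1],z2)],[([z1,z0,z0,z1,z1,z1],z2),([z0,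
    z1,z0,y1,z0,z0],z0)],[([z1,z0,z0,z1,z1,z1],z2)],[]]],
    [.old (.leafM k4 [k1,k2,k3,k4,k5,k0] [(z1,[z1])] []),
    .old (.tor k3 false k0 [(z1,[y1,y1,z1]),(z1,[y1,z0,z1]),(z1,[z1]),(z1,[z1,z1])]),
    .old (.lp [k42,k110,k102,k120,k42,k54] [k39,k39,k5,k5,k9,k9,k0,k0,k39,k39,k33,k33] k0 [[k0,k0,k0,k28],[k0,k0,k0,k0,k0,
    k0,k0,k6],[k0,k28],[k0,k0,k0,k0,k0,k16],[k0,k0,k16],[k0,k0,k0,k0,k0,k0,k18],[k6],[k0,k0,k0,k0,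
    k18]] (nat_lit 240) k6
    [[(k10,k48),(k11,k48)],[(k2,k48),(k9,k48),(k5,k72),(k6,k81)],[(k9,k76),(k6,k109),(k2,k110),(k5,k134)],[(k0,k48),
    (k4,k106),(k3,k110),(k7,k131)],[(k0,k72),(k4,k86),(k7,k111),(k3,k134)],[(k9,k72),(k5,k86),(k2,k106),(k6,k129)],
    [(k9,k63),(k5,k111),(k6,k120),(k2,k131)],[(k0,k81),(k3,k109),(k7,k120),(k4,k129)],[(k0,k48),(k7,k63),(k4,k72),(k3,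
    k76)],[(k10,k48),(k11,k48)],[(k1,k48),(k8,k48)],[(k1,k48),(k8,k48)]]
    [] k0
    [[k1,k0,k0,k0,k1,k1],[k1,k1,k0,k0,k1,k1],[k0,k2,k0,k0,k0,k0],[k0,k0,k2,k0,k0,k0]]
    [.contra [y1,z1],.ref k1 k0 [(z1,[z0,z1]),(z1,[z1,y1])],.contra [z1],.contra [y1,y2,z2]]),
    .old (.lp [k96,(nat_lit 220),k198,(nat_lit 234),k96,k96] [k69,k69,k7,k7,k18,k18,k0,k0,k69,k69,k69,k69] k0 [[k0,k0,k0,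
    k62,k0,k0,k0,k34],[],[k0,k62],[k0,k0,k0,k0,k0,k26],[k0,k0,k26,k0,k0,k0,k6],[k0,k0,k0,k0,k0,k0,k48],[k0,k34],[k0,
    k0,k0,k0,k48,k6]] (nat_lit 480) k6
    [[(k10,k96),(k11,k96)],[(k2,k96),(k9,k96),(k6,k131),(k5,k147)],[(k9,k192),(k2,(nat_lit 220)),(k6,(nat_lit 227)),
    (k5,(nat_lit 271))],[(k0,k96),(k4,(nat_lit 209)),(k3,(nat_lit 220)),(k7,(nat_lit 253))],[(k0,k147),(k4,k172),(k7,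
    (nat_lit 216)),(k3,(nat_lit 271))],[(k9,k141),(k5,k172),(k2,(nat_lit 209)),(k6,(nat_lit 264))],[(k9,k117),(k5,
    (nat_lit 216)),(k6,(nat_lit 240)),(k2,(nat_lit 253))],[(k0,k131),(k3,(nat_lit 227)),(k7,(nat_lit 240)),(k4,
    (nat_lit 264))],[(k0,k96),(k7,k117),(k4,k141),(k3,k192)],[(k10,k96),(k11,k96)],[(k1,k96),(k8,k96)],[(k1,k96),(k8,
    k96)]]
    [] k0
    [[k1,k0,k0,k0,k1,k1],[k1,k0,k0,k1,k1,k1],[k0,k2,k0,k0,k0,k0],[k0,k0,k2,k0,k0,k0]]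
    [.ref k0 k0 [(z1,[z1])],.ref k2 k0 [(z1,[z1])],.contra [z1],.contra [z1]])]⟩

/-- the certificates of this file -/
noncomputable def lU6_8 : List CertX :=
  [cU6_76, cU6_77, cU6_78, cU6_79, cU6_80, cU6_81, cU6_82]

theorem gU6_8 : allF (chkE 6 ttU6) lU6_8 = true := by
  decide +kernel

end Pool.Agent.Lib_MP_fa6e45
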