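import Pool.Agent.Lib_MP_fa6e45.CXT
import Pool.Agent.Lib_MP_fa6e45.HK

/-!
MP_fa6e45_co, stage 7: certificates (generated by a program).
-/

namespace Pool.Agent.Lib_MP_fa6e45

/-- classes `0 0 0 0 1 1`, types `B0 B1 B0 B1 N0 N1` -/
noncomputable def cU6_83 : CertX :=
  ⟨[k8,k9,k8,k9,k28,k29],[(false,k0,[k0,k1,k2,k3,k4,k5]),(true,k4,[k4,k3,k2,k1,k0,k5])],[[[([z3,z0,z0,z0,z3,z0],z2),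
    ([z0,z1,z0,z1,z0,z0],z2),([z0,z0,z3,z0,z0,z0],z2)],[([z1,z0,z0,z0,z1,z0],z1),([z0,z1,z0,z1,z0,z0],z2),([z0,z0,z3,
    z0,z0,z0],z1)],[([z3,z0,z0,y3,z3,z0],y2),([z0,z1,z0,z1,z0,z0],z2),([z0,z0,z1,z1,z0,z0],z2)],[([z6,z0,z0,y3,z6,z0],
    z2),([z0,z1,z0,z1,z0,z0],z2),([z0,z0,z2,z1,z0,z0],z2)],[([z1,z0,z0,y1,z1,z0],z0),([z0,z1,z0,z1,z0,z0],z2),([z0,z0,
    z3,z3,z0,z0],z4)],[([z3,z0,z3,z0,z3,z0],z4),([z0,z1,z0,z1,z0,z0],z2)],[([z1,z0,z1,z0,z1,z0],z2),([z0,z3,z0,z0,z0,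
    z0],z2),([z0,z0,z0,z3,z0,z0],z2)],[([z3,z0,z0,z3,z3,z0],z4),([z0,z1,z0,y1,z0,z0],z0),([z0,z0,z1,z1,z0,z0],z2)],
    [([z3,z0,z0,z3,z3,z0],z4),([z0,z3,z0,z0,z0,z0],z2),([z0,z0,z3,z0,z0,z0],z4)],[([z3,z0,z0,z3,z3,z0],z4),([z0,z3,z0,
    y3,z0,z0],z2),([z0,z0,z3,z3,z0,z0],z4)],[([z3,z0,z0,z3,z3,z0],z4),([z0,z1,z1,z0,z0,z0],z2)],[([z1,z0,z0,z0,z1,z0],
    z2),([z0,z3,z0,z3,z0,z0],z2),([z0,z0,z3,z0,z0,z0],z2)]],[[([z1,z0,z0,z0,z1,z0],z2),([z0,z1,z0,z1,z0,z0],z1),([z0,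
    z0,z3,z0,z0,z0],z1)],[([z1,z0,z0,z0,z1,z0],z2),([z0,z6,z0,z3,z0,z0],z2),([z0,z0,z2,z1,z0,z0],z2)],[([z1,z0,z0,z0,
    z1,z0],z2),([z0,z2,z0,z1,z0,z0],z2),([z0,z0,z6,z3,z0,z0],z2)],[([z1,z0,z0,z0,z1,z0],z2),([z0,z3,z3,z3,z0,z0],z4)],
    [([z1,z0,z0,z1,z1,z0],z2),([z0,z3,z0,z0,z0,z0],z2),([z0,z0,z3,z0,z0,z0],z2)],[([z1,z0,z0,z1,z1,z0],z2),([z0,z1,z0,
    y1,z0,z0],z0),([z0,z0,z3,z3,z0,z0],z4)],[([z1,z0,z0,z1,z1,z0],z2),([z0,z3,z3,z0,z0,z0],z4)],[([z1,z0,z1,z0,z1,z0],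
    z2),([z0,z3,z0,z3,z0,z0],z4)],[([z3,z3,z3,z3,z3,z0],z10)],[([z1,z0,z0,z0,z1,z0],z1),([z0,z2,z0,z0,z0,z0],z1),([z0,
    z0,z2,z0,z0,z0],z3),([z0,z0,z0,z2,z0,z0],z1)],[([z1,z0,z0,z0,z1,z0],z1),([z0,z1,z0,z0,z0,z1],z1),([z0,z0,z1,z0,z0,
    y1],z1)],[([z1,z0,z0,z1,z1,z1],z2),([z0,z1,z0,y1,z0,z0],z0)]],[[([z1,z0,z0,z0,z1,z0],z1),([z0,z1,z0,z1,z0,z0],z2),
    ([z0,z0,z3,z0,z0,z0],z2)],[([z1,z0,z0,z0,z1,z0],z1),([z0,z1,z0,z1,z0,z0],z2),([z0,z0,z2,z0,z0,z0],z1)],[([z1,z0,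
    z0,z0,z1,z0],z1),([z0,z1,z0,z0,z0,y1],z1),([z0,z0,z1,z0,z0,z1],z1)],[([z1,z0,z0,y1,z1,z1],z0),([z0,z1,z0,z1,z0,
    z0],z2)],[([z1,z0,z0,z1,z1,z1],z2)],[([z1,z0,z0,z0,z1,z0],z1),([z0,z1,z0,z1,z0,z0],z2)],[([z1,z0,z1,z0,z1,z1],
    z2)],[([z1,z0,z0,z0,z1,z0],z2),([z0,z3,z0,z0,z0,y3],z2),([z0,z0,z3,z0,z0,z0],z2)],[([z1,z0,z0,z0,z1,z0],z2),([z0,
    z2,z0,z1,z0,z0],z2)],[([z1,z0,z0,z0,z1,z0],z2),([z0,z1,z0,z1,z0,z0],z1),([z0,z0,z2,z0,z0,z0],z1)],[([z1,z0,z0,z0,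
    z1,z0],z2),([z0,z1,z0,z1,z0,z0],z1),([z0,z0,z3,z0,z0,z0],z2)],[([z1,z0,z0,z0,z1,z0],z2),([z0,z1,z0,z1,z0,z0],
    z1)]],[[([z1,z0,z0,z0,z1,z0],z2)],[([z1,z0,z0,z1,z1,z0],z2)],[]]],
    [.old (.leafM k10 [k0,k2,k4,k5] [(z1,[z0,z0,z1]),(z1,[y1,y3,y1,z3]),(z1,[z1])] [(k1,k3,z1,[z0,z1]),(k3,k1,z1,[z0,z1])]),
    .old (.leafM k11 [k4,k5,k0,k2] [(z1,[y3,y3,y1,z3]),(z1,[z0,z0,z1]),(z1,[z1])] [(k1,k3,z1,[z0,z1]),(k3,k1,z1,[z0,z1])]),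
    .old (.lp [(nat_lit 7176),(nat_lit 11960),(nat_lit 12480),(nat_lit 20930),(nat_lit 7176),
    (nat_lit 11960)] [(nat_lit 6877),(nat_lit 6877),(nat_lit 4485),(nat_lit 4485),(nat_lit 4225),(nat_lit 4225),k0,k0,
    (nat_lit 6877),(nat_lit 6877),(nat_lit 4485),(nat_lit 4485)] k0 [[k0,k0,k0,(nat_lit 2392)],[],[k0,(nat_lit 2392)],
    [k0,k0,k0,k0,k0,(nat_lit 2990)],[k0,k0,(nat_lit 2990)],[k0,k0,k0,k0,k0,k0,(nat_lit 2760)],[],[k0,k0,k0,k0,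
    (nat_lit 2760)]] (nat_lit 35880) k6
    [[(k8,(nat_lit 7176))],[(k2,(nat_lit 7176)),(k9,(nat_lit 7176)),(k5,(nat_lit 9828)),(k6,(nat_lit 14053))],[(k9,
    (nat_lit 9568)),(k2,(nat_lit 11960)),(k5,(nat_lit 14612)),(k6,(nat_lit 16445))],[(k0,(nat_lit 7176)),(k3,
    (nat_lit 11960)),(k4,(nat_lit 12220)),(k7,(nat_lit 19435))],[(k4,(nat_lit 9490)),(k0,(nat_lit 9828)),(k3,
    (nat_lit 14612)),(k7,(nat_lit 16705))],[(k5,(nat_lit 9490)),(k9,(nat_lit 9828)),(k2,(nat_lit 12220)),(k6,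
    (nat_lit 19465))],[(k9,(nat_lit 11293)),(k5,(nat_lit 16705)),(k2,(nat_lit 19435)),(k6,(nat_lit 20930))],[(k0,
    (nat_lit 14053)),(k3,(nat_lit 16445)),(k4,(nat_lit 19465)),(k7,(nat_lit 20930))],[(k0,(nat_lit 7176)),(k3,
    (nat_lit 9568)),(k4,(nat_lit 9828)),(k7,(nat_lit 11293))],[(k1,(nat_lit 7176))],[(k10,(nat_lit 11960))],[(k11,
    (nat_lit 11960))]]
    [] k0
    [[k1,k0,k0,k0,k1,k0],[k2,k0,k0,k0,k2,k0],[k1,k1,k0,k0,k1,k0],[k1,k0,k1,k0,k1,k0],[k1,k0,k0,k1,k1,k0],[k0,k2,k0,k0,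
    k0,k0],[k0,k1,k1,k0,k0,k0],[k0,k0,k2,k0,k0,k0],[k0,k0,k3,k0,k0,k0],[k0,k0,k0,k0,k0,k2]]
    [.contra [y3,z1,z4],.ref k1 k0 [(z2,[z1]),(z1,[z0,z0,z1]),(z2,[y3,z2,z0,z6])],.contra [z1,y1,y3,y2,z2],
    .contra [z1,y1,y2,y3,z2],.ref k0 k0 [(z2,[z3,z1]),(z1,[z0,z0,z1]),(z2,[y3,z1,z0,z6])],.contra [z1],.contra [z1,z0,
    z1,y1],.contra [z1,z0,z2,y2],.ref k0 k0 [(z1,[y1,z1,z0,z3]),(z1,[z0,z0,z1]),(z1,[z1])],.contra [z1]]),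
    .old (.lp [k138,(nat_lit 402),(nat_lit 246),(nat_lit 480),(nat_lit 330),(nat_lit 320)] [k171,k171,k39,k39,k117,k117,
    k0,k0,k111,k39,k80,k80] k0 [[k0,k0,k0,k0,k0,k0,k78],[k0,k0,k90],[],[k90],[k0,k0,k0,k0,k0,k0,k0,k12],[],[k0,k0,k0,
    k0,k0,k12],[k0,k78]] (nat_lit 960) k6
    [[(k8,k198)],[(k5,k192),(k9,k192),(k6,(nat_lit 309)),(k2,(nat_lit 360))],[(k5,(nat_lit 234)),(k2,(nat_lit 402)),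
    (k9,(nat_lit 402)),(k6,(nat_lit 519))],[(k4,(nat_lit 324)),(k0,(nat_lit 360)),(k3,(nat_lit 402)),(k7,
    (nat_lit 441))],[(k0,k192),(k3,(nat_lit 234)),(k4,(nat_lit 246)),(k7,(nat_lit 363))],[(k5,(nat_lit 246)),(k2,
    (nat_lit 324)),(k9,(nat_lit 324)),(k6,(nat_lit 351))],[(k5,(nat_lit 363)),(k2,(nat_lit 441)),(k9,(nat_lit 453)),
    (k6,(nat_lit 480))],[(k0,(nat_lit 309)),(k4,(nat_lit 351)),(k7,(nat_lit 480)),(k3,(nat_lit 519))],[(k0,k192),(k4,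
    (nat_lit 324)),(k3,(nat_lit 402)),(k7,(nat_lit 453))],[(k1,k198)],[(k10,(nat_lit 320))],[(k11,(nat_lit 320))]]
    [] k0
    [[k1,k0,k0,k0,k1,k0],[k2,k0,k0,k0,k2,k0],[k1,k0,k1,k0,k1,k0],[k0,k2,k0,k0,k0,k0],[k0,k1,k1,k0,k0,k0],[k0,k1,k2,k0,
    k0,k0],[k0,k0,k2,k0,k0,k0],[k0,k0,k3,k0,k0,k0],[k0,k0,k1,k1,k0,k0],[k0,k0,k0,k0,k0,k2]]
    [.contra [y6,z1,z0,z5],.ref k1 k0 [(z2,[z1]),(z1,[z0,z0,z1]),(z2,[y3,z1,z0,z3])],.contra [z2,y1,y4,y3,z4],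
    .contra [z1],.ref k0 k0 [(z2,[y2,z1,z2,z1]),(z1,[z0,z0,z1]),(z1,[z1,z0,y1,z1])],.contra [z1,z0,z1,y1],
    .contra [z1],.ref k0 k0 [(z2,[y2,z1,z0,z3]),(z1,[z0,z0,z1]),(z1,[z1])],.contra [y2,z0,z1,z1],.contra [z1]]),
    .old (.lp [k64,(nat_lit 356),k182,(nat_lit 360),(nat_lit 232),(nat_lit 240)] [k148,k148,k2,k2,k89,k89,k0,k0,k64,k64,
    k60,k60] k0 [[k0,k0,k0,k0,k0,k0,k4,k68],[k0,k0,k0,k60],[k60],[],[],[],[k0,k68],[k0,k4]] (nat_lit 720) k6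
    [[(k8,k148)],[(k6,k144),(k9,k144),(k5,k183),(k2,(nat_lit 210))],[(k5,(nat_lit 269)),(k2,(nat_lit 296)),(k6,
    (nat_lit 362)),(k9,(nat_lit 362))],[(k0,(nat_lit 210)),(k4,(nat_lit 269)),(k3,(nat_lit 296)),(k7,(nat_lit 358))],
    [(k4,k182),(k0,k183),(k3,(nat_lit 269)),(k7,(nat_lit 271))],[(k5,k182),(k9,(nat_lit 207)),(k2,(nat_lit 269)),(k6,
    (nat_lit 271))],[(k5,(nat_lit 271)),(k9,(nat_lit 296)),(k2,(nat_lit 358)),(k6,(nat_lit 360))],[(k0,k144),(k4,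
    (nat_lit 271)),(k7,(nat_lit 360)),(k3,(nat_lit 362))],[(k0,k144),(k4,(nat_lit 207)),(k7,(nat_lit 296)),(k3,
    (nat_lit 362))],[(k1,k148)],[(k10,(nat_lit 240))],[(k11,(nat_lit 240))]]
    [] k0
    [[k1,k0,k0,k0,k1,k0],[k2,k0,k0,k0,k2,k0],[k1,k0,k1,k0,k1,k0],[k1,k0,k0,k1,k1,k0],[k0,k2,k0,k0,k0,k0],[k0,k1,k1,k0,
    k0,k0],[k0,k0,k2,k0,k0,k0],[k0,k0,k3,k0,k0,k0],[k0,k0,k1,k1,k0,k0],[k0,k0,k0,k0,k0,k2]]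
    [.contra [y1,z1,z1],.contra [y1,z2,z2],.contra [z1,y3,y2,y1,z2],.contra [y1,z1,z2],.contra [z1],.ref k0 k0 [(z2,
    [y3,z6,z3,z1]),(z1,[z0,z0,z1]),(z2,[z3,z0,y3,z1])],.contra [z1],.ref k0 k0 [(z1,[y1,z3,z0,z1]),(z1,[z0,z0,z1]),
    (z1,[z1])],.contra [z1,y2,y2,y1,z2],.contra [z1]]),
    .old (.lp [k56,k120,k80,k102,k40,k80] [k32,k32,k0,k0,k20,k20,k9,k9,k40,k40,k20,k20] k0 [[k0,k0,k0,k40],[],[k0,k40],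
    [k0,k0,k0,k0,k0,k18],[k0,k0,k18,k0,k0,k0,k0,k42],[k0,k0,k0,k0,k0,k0,k0,k2],[k0,k0,k0,k0,k2,k42]] (nat_lit 240) k6
    [[(k8,k48)],[(k2,k48),(k9,k48),(k5,k68),(k6,k79)],[(k9,k80),(k6,k111),(k2,k120),(k5,k140)],[(k0,k48),(k4,k100),
    (k3,k120),(k7,k129)],[(k4,k62),(k0,k68),(k7,k91),(k3,k140)],[(k6,k49),(k5,k62),(k9,k62),(k2,k100)],[(k5,k91),(k6,
    k100),(k9,k113),(k2,k129)],[(k4,k49),(k0,k79),(k7,k100),(k3,k111)],[(k0,k48),(k4,k62),(k3,k80),(k7,k113)],[(k1,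
    k48)],[(k10,k80)],[(k11,k80)]]
    [] k0
    [[k1,k0,k0,k0,k1,k0],[k2,k0,k0,k0,k2,k0],[k1,k1,k0,k0,k1,k0],[k1,k0,k1,k0,k1,k0],[k0,k0,k2,k0,k0,k0],[k0,k0,k3,k0,
    k0,k0],[k0,k0,k2,k1,k0,k0],[k0,k0,k1,k1,k0,k0],[k0,k0,k0,k2,k0,k0],[k0,k0,k0,k0,k0,k2]]
    [.contra [y3,z1,z1],.ref k1 k0 [(z2,[z1]),(z1,[z0,z0,z1]),(z2,[y3,z2])],.ref k4 k0 [(z1,[z1,z0,y1]),(z1,[z0,z0,
    z1]),(z1,[y3,z1,z3])],.contra [z1,y1,y2,z2],.contra [z1],.ref k0 k0 [(z1,[y1,z1]),(z1,[z0,z0,z1]),(z1,[z1])],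
    .ref k3 k0 [(z1,[y3,z2]),(z1,[z0,z0,z1]),(z1,[z1])],.ref k2 k0 [(z1,[y3,z1]),(z1,[z0,z0,z1]),(z1,[z1])],
    .contra [y1,z0,z2],.contra [z1]]),
    .old (.leafM k2 [k0,k1,k2,k3,k4,k5] [(z1,[z0,z1]),(z1,[z0,z0,z1]),(z1,[y3,y1,y1,z3])] []),
    .old (.lp [k87,k158,k180,k172,k0,k120] [k75,k18,k11,k11,k0,k0,k4,k4,k90,k90,k30,k30] k0 [[k0,k0,k22,k22],[k0,k0,k0,k0,
    k0,k0,k0,k93],[k0,k22],[k0,k22],[k0,k0,k0,k0,k0,k0,k8],[k0,k0,k0,k0,k0,k0,k8],[k93],[k0,k0,k0,k0,k8,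
    k8]] (nat_lit 360) k6
    [[(k8,k72)],[(k2,k72),(k5,k83),(k6,k101),(k9,k108)],[(k6,k72),(k9,k79),(k2,k180),(k5,k191)],[(k0,k72),(k7,k165),
    (k4,k169),(k3,k180)],[(k0,k83),(k7,k176),(k4,k180),(k3,k191)],[(k9,k82),(k2,k169),(k5,k180),(k6,k184)],[(k9,k78),
    (k2,k165),(k5,k176),(k6,k180)],[(k3,k72),(k0,k101),(k7,k180),(k4,k184)],[(k7,k78),(k3,k79),(k4,k82),(k0,k108)],
    [(k1,k72)],[(k10,k120)],[(k11,k120)]]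
    [] k0
    [[k1,k0,k0,k0,k1,k0],[k1,k1,k0,k0,k1,k0],[k1,k0,k1,k0,k1,k0],[k1,k0,k0,k1,k1,k0],[k1,k1,k0,k1,k1,k0],[k0,k1,k0,k1,
    k0,k0],[k0,k0,k0,k0,k0,k2]]
    [.contra [y3,z1,z4,z1],.contra [z1,y1,y3,y2,z2],.ref k6 k0 [(z1,[z1]),(z2,[y3,z1,z6,z3]),(z2,[y3,z1,z0,z3])],
    .contra [z1,y1,y2,y2,z2],.ref k6 k0 [(z1,[y2,z1,z2,z1]),(z1,[z3,y1]),(z1,[z3,y1,y3])],.contra [z1,z0,z1],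
    .contra [z1]]),
    .old (.lp [k8,k8,k12,k7,k4,k8] [k2,k2,k2,k2,k0,k0,k3,k2,k4,k4,k2,k2] k0 [[k0,k0,k0,k2],[],[k0,k2],[k0,k0,k0,k0,k2,k2],
    [k0,k0,k2],[k0,k0,k2]] k24 k5
    [[(k8,k6)],[(k2,k6),(k9,k6),(k6,k7),(k5,k10)],[(k9,k6),(k6,k7),(k2,k8),(k5,k12)],[(k0,k6),(k3,k8),(k7,k10),(k4,
    k12)],[(k7,k8),(k0,k10),(k4,k10),(k3,k12)],[(k9,k8),(k6,k9),(k5,k10),(k2,k12)],[(k9,k6),(k6,k7),(k5,k8),(k2,k10)],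
    [(k0,k7),(k3,k7),(k7,k7),(k4,k9)],[(k0,k6),(k3,k6),(k7,k6),(k4,k8)],[(k1,k6)],[(k10,k8)],[(k11,k8)]]
    [] k0
    [[k1,k0,k0,k0,k1,k0],[k1,k1,k0,k0,k1,k0],[k1,k0,k0,k1,k1,k0],[k0,k2,k0,k0,k0,k0],[k0,k1,k0,k1,k0,k0],[k0,k0,k2,k0,
    k0,k0],[k0,k0,k1,k1,k0,k0],[k0,k0,k0,k2,k0,k0],[k0,k0,k0,k3,k0,k0],[k0,k0,k0,k0,k0,k2]]
    [.contra [y3,z1,z1],.contra [y3,z1,z1],.contra [z3,y1,z2],.contra [z1],.contra [y3,z1,z1],.contra [y3,z0,z2,z2],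
    .ref k6 k0 [(z3,[y3,z1,z0,z2]),(z1,[z0,z0,z1]),(z1,[z3,z0,z0,y1])],.contra [z1],.ref k6 k0 [(z3,[y1,z1,z0,z1]),
    (z1,[z0,z0,z1]),(z1,[z1])],.contra [z3,z2,z4,z2,y6]]),
    .old (.lp [k66,k120,k104,k54,k54,k80] [k27,k27,k0,k0,k8,k8,k33,k33,k33,k33,k20,k20] k0 [[],[k0,k0,k0,k28],[k28],[k0,
    k0,k0,k0,k16],[k0,k0,k0,k0,k0,k0,k12,k6],[k0,k0,k16],[k0,k0,k0,k0,k0,k6],[k0,k0,k0,k0,k0,k12]] (nat_lit 240) k5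
    [[(k8,k60)],[(k6,k60),(k9,k60),(k2,k93),(k5,k113)],[(k6,k87),(k9,k87),(k2,k92),(k5,k112)],[(k7,k87),(k3,k92),(k0,
    k93),(k4,k128)],[(k7,k63),(k4,k104),(k3,k112),(k0,k113)],[(k9,k67),(k6,k73),(k5,k104),(k2,k128)],[(k9,k60),(k5,
    k63),(k6,k66),(k2,k87)],[(k0,k60),(k7,k66),(k4,k73),(k3,k87)],[(k0,k60),(k7,k60),(k4,k67),(k3,k87)],[(k1,k60)],
    [(k10,k80)],[(k11,k80)]]
    [] k0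
    [[k1,k0,k0,k0,k1,k0],[k1,k0,k0,k1,k1,k0],[k0,k2,k0,k0,k0,k0],[k0,k1,k0,k1,k0,k0],[k0,k0,k2,k0,k0,k0],[k0,k0,k1,k1,
    k0,k0],[k0,k0,k1,k2,k0,k0],[k0,k0,k0,k2,k0,k0],[k0,k0,k0,k3,k0,k0],[k0,k0,k0,k0,k0,k2]]
    [.contra [y3,z1,z1],.contra [z3,y3,y2,y2,z6],.contra [z1],.ref k5 k0 [(z1,[y3,z1,z1,z1]),(z1,[z1])],.contra [y3,
    z0,z2,z2],.contra [z3,y2,y2,y3,z6],.ref k5 k0 [(z1,[y6,z1,z0,z3]),(z3,[z6,z0,z1,y2])],.contra [z1],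
    .ref k5 k0 [(z1,[y2,z1,z0,z1]),(z3,[z2,z0,z1])],.contra [z1]]),
    .old (.lp [k16,k16,k22,k16,k8,k16] [k3,k3,k3,k3,k0,k0,k3,k3,k7,k7,k3,k3] k0 [[k0,k0,k0,k4],[k0,k0,k0,k2],[k2,k4],[k0,
    k0,k0,k0,k6,k2],[k0,k0,k2],[k0,k0,k6]] k48 k5
    [[(k8,k12)],[(k2,k12),(k9,k12),(k6,k16),(k5,k21)],[(k9,k12),(k2,k14),(k6,k16),(k5,k23)],[(k0,k12),(k3,k14),(k7,
    k18),(k4,k25)],[(k7,k13),(k4,k20),(k0,k21),(k3,k23)],[(k9,k15),(k6,k19),(k5,k20),(k2,k25)],[(k9,k12),(k5,k13),(k6,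
    k16),(k2,k18)],[(k0,k16),(k3,k16),(k7,k16),(k4,k19)],[(k0,k12),(k3,k12),(k7,k12),(k4,k15)],[(k1,k12)],[(k10,k16)],
    [(k11,k16)]]
    [] k0
    [[k1,k0,k0,k0,k1,k0],[k1,k1,k0,k0,k1,k0],[k1,k0,k0,k1,k1,k0],[k0,k2,k0,k0,k0,k0],[k0,k3,k0,k0,k0,k0],[k0,k1,k0,k1,
    k0,k0],[k0,k0,k2,k0,k0,k0],[k0,k0,k1,k1,k0,k0],[k0,k0,k0,k2,k0,k0],[k0,k0,k0,k0,k0,k2]]
    [.contra [y3,z1,z1],.ref k9 k0 [(z1,[z0,z1]),(z1,[z3,y1]),(z1,[y3,z1,z3])],.contra [z1,y1,y2,z2],.contra [z1],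
    .ref k8 k0 [(z1,[z0,z1]),(z1,[z1]),(z1,[y1,z0,z3])],.ref k5 k0 [(z1,[y3,z1,z3]),(z1,[z1])],.contra [y1,z0,z2],
    .ref k7 k0 [(z1,[z0,z1]),(z1,[y1,z0,z1]),(z1,[z1])],.contra [z1],.contra [z1]]),
    .old (.leafM k10 [k1,k2,k3,k5] [(z1,[z0,z0,z1]),(z1,[y3,y1,y1,z3]),(z1,[z0,z1])] [(k4,k0,z1,[z1]),(k0,k4,z1,[z1])]),
    .old (.leafM k11 [k3,k5,k1,k2] [(z1,[y3,y3,y1,z3]),(z1,[z0,z0,z1]),(z1,[z0,z1])] [(k4,k0,z1,[z1]),(k0,k4,z1,[z1])]),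
    .old (.lp [k122,k82,k62,k116,k16,k80] [k28,k28,k68,k28,k58,k58,k0,k62,k94,k68,k49,k49] k0 [[k0,k0,k0,k34],[k0,k0,k0,
    k0,k0,k0,k0,k102],[k0,k34],[],[k0,k0,k0,k0,k0,k0,k4],[],[k102],[k0,k0,k0,k0,k0,k4]] (nat_lit 240) k6
    [[(k8,k56)],[(k2,k48),(k5,k92),(k6,k150),(k9,k184)],[(k6,k48),(k2,k82),(k9,k82),(k5,k126)],[(k0,k48),(k7,k48),(k4,
    k52),(k3,k82)],[(k7,k58),(k4,k62),(k0,k92),(k3,k126)],[(k9,k48),(k2,k52),(k5,k62),(k6,k120)],[(k2,k48),(k9,k48),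
    (k5,k58),(k6,k120)],[(k3,k48),(k4,k120),(k7,k120),(k0,k150)],[(k4,k48),(k7,k48),(k3,k82),(k0,k184)],[(k1,k56)],
    [(k10,k80)],[(k11,k80)]]
    [] k0
    [[k1,k1,k0,k0,k1,k0],[k1,k0,k1,k0,k1,k0],[k1,k1,k0,k1,k1,k0],[k0,k2,k0,k0,k0,k0],[k0,k2,k0,k1,k0,k0],[k0,k1,k1,k0,
    k0,k0],[k0,k1,k0,k1,k0,k0],[k0,k2,k0,k2,k0,k0],[k0,k1,k1,k1,k0,k0],[k0,k1,k2,k1,k0,k0],[k0,k1,k0,k2,k0,k0],[k0,k0,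
    k2,k0,k0,k0],[k0,k0,k3,k0,k0,k0],[k0,k0,k1,k1,k0,k0],[k0,k0,k0,k0,k0,k2]]
    [.contra [z1,y1],.contra [z1,y1],.contra [z1,y1],.contra [z1],.contra [z1,y4,y1,y2,z4],.contra [y2,z0,z1,z1],
    .contra [y6,z0,z1,z5],.contra [y2,z0,z1,z1],.contra [z2,y4,y1,y3,z4],.contra [z1,z0,z0,y1],.contra [y2,z0,z1,z1],
    .contra [z1],.contra [z2,z0,z1,y3],.contra [y1,z0,z0,z1],.contra [z1]]),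
    .old (.lp [k90,k35,k30,k38,k6,k40] [k0,k0,k36,k19,k30,k30,k23,k29,k61,k23,k25,k25] k0 [[k0,k0,k36,k6],[k0,k0,k0,k0,k0,
    k0,k0,k24],[k0,k6],[k0,k36],[],[k0,k0,k0,k0,k0,k0,k14],[k24],[k0,k0,k0,k0,k14]] k120 k6
    [[(k8,k29)],[(k5,k24),(k2,k48),(k6,k67),(k9,k91)],[(k6,k24),(k5,k47),(k9,k48),(k2,k71)],[(k4,k24),(k7,k25),(k0,
    k48),(k3,k71)],[(k0,k24),(k4,k30),(k7,k31),(k3,k47)],[(k2,k24),(k5,k30),(k9,k37),(k6,k51)],[(k9,k24),(k2,k25),(k5,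
    k31),(k6,k38)],[(k3,k24),(k7,k38),(k4,k51),(k0,k67)],[(k7,k24),(k4,k37),(k3,k48),(k0,k91)],[(k1,k29)],[(k10,k40)],
    [(k11,k40)]]
    [] k0
    [[k1,k0,k1,k0,k1,k0],[k0,k1,k1,k0,k0,k0],[k0,k1,k2,k0,k0,k0],[k0,k1,k0,k1,k0,k0],[k0,k2,k0,k2,k0,k0],[k0,k1,k1,k1,
    k0,k0],[k0,k1,k2,k1,k0,k0],[k0,k1,k0,k2,k0,k0],[k0,k1,k1,k2,k0,k0],[k0,k0,k2,k0,k0,k0],[k0,k0,k3,k0,k0,k0],[k0,k0,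
    k2,k1,k0,k0],[k0,k0,k1,k1,k0,k0],[k0,k0,k0,k2,k0,k0],[k0,k0,k0,k3,k0,k0],[k0,k0,k0,k0,k0,k2]]
    [.contra [z1,y1],.contra [y2,z0,z1,z1],.contra [y2,z0,z1,z1],.contra [y1,z0,z1],.contra [y1,z0,z2],.contra [z2,y4,
    y3,y1,z4],.contra [y2,z0,z1,z1],.contra [y2,z0,z1,z1],.contra [y2,z0,z1,z1],.contra [z1],.contra [y1,z0,z0,z1],
    .contra [z1,y4,y2,y1,z4],.contra [y6,z0,z5,z1],.contra [z1],.contra [y1,z0,z0,z1],.contra [z1]]),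
    .old (.lp [k24,k45,k30,k60,k40,k40] [k35,k35,k35,k14,k32,k32,k0,k34,k27,k27,k27,k27] k0 [[],[k0,k0,k0,k0,k0,k0,k0,
    k56],[],[],[k0,k0,k0,k0,k0,k0,k11],[],[k56],[k0,k0,k0,k0,k0,k11]] k120 k6
    [[(k8,k32)],[(k2,k24),(k5,k27),(k6,k59),(k9,k88)],[(k6,k24),(k2,k45),(k5,k48),(k9,k53)],[(k0,k24),(k7,k25),(k4,
    k27),(k3,k45)],[(k0,k27),(k7,k28),(k4,k30),(k3,k48)],[(k9,k24),(k2,k27),(k5,k30),(k6,k62)],[(k2,k25),(k5,k28),(k9,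
    k33),(k6,k71)],[(k3,k24),(k0,k59),(k4,k62),(k7,k71)],[(k4,k24),(k7,k33),(k3,k53),(k0,k88)],[(k1,k32)],[(k10,k40)],
    [(k11,k40)]]
    [] k0
    [[k1,k1,k0,k0,k1,k0],[k1,k0,k1,k0,k1,k0],[k1,k0,k2,k0,k1,k0],[k1,k1,k0,k1,k1,k0],[k0,k2,k0,k0,k0,k0],[k0,k2,k0,k1,
    k0,k0],[k0,k1,k1,k0,k0,k0],[k0,k1,k2,k0,k0,k0],[k0,k1,k0,k1,k0,k0],[k0,k2,k0,k2,k0,k0],[k0,k1,k1,k1,k0,k0],[k0,k1,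
    k2,k1,k0,k0],[k0,k0,k2,k0,k0,k0],[k0,k0,k3,k0,k0,k0],[k0,k0,k1,k1,k0,k0],[k0,k0,k0,k0,k0,k2]]
    [.contra [z1,y1],.contra [z1,y1],.contra [z1,y1],.contra [z1,y1],.contra [z1],.ref k14 k0 [(z1,[z0,z1]),(z1,[z1]),
    (z1,[y3,z0,z2])],.contra [y2,z0,z1],.ref k13 k1 [(z1,[z0,z1]),(z1,[y3,z0,z2]),(z1,[z1])],.contra [y2,z0,z1],
    .ref k12 k0 [(z1,[z0,z1]),(z2,[z1]),(z2,[y3,z0,z2])],.contra [z1,y2,y1,z2],.ref k11 k0 [(z1,[z0,z1]),(z1,[y3,z0,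
    z2]),(z1,[z3,z0,y1])],.contra [z1],.ref k11 k0 [(z1,[z0,z1]),(z1,[y1,z0,z1]),(z1,[z1])],.contra [y2,z0,z1],
    .contra [z1]]),
    .old (.lp [k8,k16,k16,k18,k20,k16] [k6,k6,k2,k2,k2,k2,k1,k1,k0,k0,k2,k2] k0 [[],[k0,k0,k0,k0,k0,k0,k2],[],[],[],[k0,
    k0,k0,k0,k0,k0,k0,k4],[k0,k0,k0,k0,k4],[k2]] k48 k5
    [[(k8,k14)],[(k2,k12),(k5,k12),(k9,k14),(k6,k15)],[(k2,k16),(k5,k16),(k9,k16),(k6,k17)],[(k0,k12),(k3,k16),(k4,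
    k16),(k7,k17)],[(k0,k12),(k3,k16),(k4,k16),(k7,k17)],[(k2,k16),(k5,k16),(k6,k17),(k9,k22)],[(k6,k14),(k2,k17),(k5,
    k17),(k9,k19)],[(k7,k14),(k0,k15),(k3,k17),(k4,k17)],[(k0,k14),(k3,k16),(k7,k19),(k4,k22)],[(k1,k14)],[(k10,k16)],
    [(k11,k16)]]
    [] k0
    [[k1,k0,k0,k0,k1,k0],[k1,k1,k0,k0,k1,k0],[k0,k2,k0,k0,k0,k0],[k0,k1,k1,k0,k0,k0],[k0,k1,k0,k1,k0,k0],[k0,k0,k2,k0,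
    k0,k0],[k0,k0,k1,k1,k0,k0],[k0,k0,k0,k2,k0,k0],[k0,k0,k0,k3,k0,k0],[k0,k0,k0,k0,k0,k2]]
    [.contra [y1,z1],.ref k6 k0 [(z3,[z3,z0,y1,z1]),(z1,[z0,z0,z1]),(z1,[y3,z3,z1])],.contra [z1],.contra [z3,z0,z1,
    y1],.ref k5 k0 [(z1,[y3,z3,z1,z1]),(z1,[z1])],.contra [z3,z0,z2,y2],.ref k5 k0 [(z1,[y3,z3,z0,z2]),(z3,[z3,z0,z1,
    y1])],.contra [z1],.ref k6 k0 [(z3,[y1,z3,z0,z1]),(z1,[z0,z0,z1]),(z1,[z1])],.contra [z3,z6,z4,z2,y6]]),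
    .old (.lp [k18,k27,k18,k24,k12,k20] [k7,k7,k0,k5,k7,k7,k4,k4,k10,k10,k6,k6] k0 [[k0,k0,k3],[k0,k0,k3],[k0,k0,k0,k0,
    k12],[k3,k3],[k0,k0,k0,k0,k0,k0,k0,k6],[k0,k0,k0,k12],[k0,k0,k0,k0,k0,k6]] k60 k5
    [[(k8,k15)],[(k5,k15),(k9,k15),(k6,k21),(k2,k28)],[(k5,k17),(k9,k17),(k6,k23),(k2,k30)],[(k7,k16),(k4,k25),(k0,
    k28),(k3,k30)],[(k0,k15),(k3,k17),(k7,k21),(k4,k30)],[(k6,k15),(k9,k15),(k2,k25),(k5,k30)],[(k2,k16),(k5,k21),(k6,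
    k24),(k9,k24)],[(k4,k15),(k0,k21),(k3,k23),(k7,k24)],[(k0,k15),(k4,k15),(k3,k17),(k7,k24)],[(k1,k15)],[(k10,k20)],
    [(k11,k20)]]
    [] k0
    [[k1,k0,k0,k0,k1,k0],[k1,k0,k1,k0,k1,k0],[k0,k1,k1,k0,k0,k0],[k0,k1,k1,k1,k0,k0],[k0,k1,k0,k1,k0,k0],[k0,k0,k1,k1,
    k0,k0],[k0,k0,k0,k2,k0,k0],[k0,k0,k0,k0,k0,k2]]
    [.contra [y1,z1,z1],.ref k6 k0 [(z1,[z1]),(z2,[y3,z3,z6,z1]),(z2,[y3,z3,z0,z1])],.contra [z1,y2,y3,y1,z2],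
    .ref k6 k0 [(z1,[y2,z1,z2,z1]),(z1,[z3,z0,z0,y1]),(z1,[z3,z0,y3,y1])],.contra [z1,z0,z1],.contra [z1,y2,y2,y1,z2],
    .contra [z1,z0,z2],.contra [z1]]),
    .old (.lp [k18,k14,k16,k16,k14,k16] [k0,k0,k2,k2,k1,k1,k1,k1,k2,k2,k1,k1] k0 [[k0,k0,k0,k4,k0,k0,k4],[],[k0,k4],[],[],
    [],[],[k0,k4]] k48 k5
    [[(k8,k16)],[(k2,k12),(k9,k12),(k5,k17),(k6,k17)],[(k2,k14),(k9,k14),(k5,k19),(k6,k19)],[(k0,k12),(k3,k14),(k4,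
    k15),(k7,k15)],[(k4,k16),(k7,k16),(k0,k17),(k3,k19)],[(k2,k15),(k9,k15),(k5,k16),(k6,k16)],[(k2,k15),(k9,k15),(k5,
    k16),(k6,k16)],[(k4,k16),(k7,k16),(k0,k17),(k3,k19)],[(k0,k12),(k3,k14),(k4,k15),(k7,k15)],[(k1,k16)],[(k10,k16)],
    [(k11,k16)]]
    [] k0
    [[k1,k0,k0,k0,k1,k0],[k1,k1,k0,k0,k1,k0],[k0,k2,k0,k0,k0,k0],[k0,k3,k0,k0,k0,k0],[k0,k1,k1,k0,k0,k0],[k0,k1,k0,k1,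
    k0,k0],[k0,k0,k2,k0,k0,k0],[k0,k0,k1,k1,k0,k0],[k0,k0,k0,k2,k0,k0],[k0,k0,k0,k0,k0,k2]]
    [.contra [y1,z1],.ref k17 k0 [(z1,[z0,z1]),(z1,[z1,y1]),(z1,[y3,z3,z1])],.contra [z1],.ref k16 k0 [(z1,[z0,z1]),
    (z1,[z1]),(z1,[y1,z0,z1])],.contra [z1,y2,y1,z2],.ref k5 k0 [(z1,[y3,z3,z1]),(z1,[z1])],.contra [z1],
    .ref k10 k1 [(z1,[y3,z3,z1]),(z1,[z1])],.contra [z1],.contra [z1]]),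
    .old (.lp [k10,k14,k24,k16,k14,k16] [k7,k7,k5,k5,k0,k0,k5,k3,k5,k5,k4,k4] k0 [[],[],[k0,k0,k0,k0,k0,k4],[k0,k0,k0,k0,
    k0,k4],[k0,k0,k4,k4],[k0,k0,k0,k0,k0,k0,k4],[],[k0,k0,k0,k0,k4]] k48 k5
    [[(k8,k12)],[(k2,k12),(k6,k12),(k9,k12),(k5,k17)],[(k2,k14),(k6,k14),(k9,k14),(k5,k19)],[(k0,k12),(k3,k14),(k4,
    k15),(k7,k20)],[(k0,k17),(k3,k19),(k4,k20),(k7,k25)],[(k2,k15),(k9,k19),(k5,k20),(k6,k23)],[(k9,k12),(k6,k16),(k2,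
    k20),(k5,k25)],[(k0,k12),(k3,k14),(k7,k16),(k4,k23)],[(k0,k12),(k7,k12),(k3,k14),(k4,k19)],[(k1,k12)],[(k10,k16)],
    [(k11,k16)]]
    [] k0
    [[k1,k0,k0,k0,k1,k0],[k1,k1,k0,k0,k1,k0],[k1,k0,k0,k1,k1,k0],[k0,k2,k0,k0,k0,k0],[k0,k3,k0,k0,k0,k0],[k0,k1,k1,k0,
    k0,k0],[k0,k1,k0,k1,k0,k0],[k0,k0,k2,k0,k0,k0],[k0,k0,k0,k2,k0,k0],[k0,k0,k0,k0,k0,k2]]
    [.contra [y1,z1],.ref k18 k1 [(z1,[z1]),(z1,[y3,z3,z1])],.ref k18 k0 [(z1,[z1]),(z1,[y3,z3,z1])],.contra [z1],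
    .ref k6 k0 [(z1,[z0,z1]),(z1,[z1]),(z1,[y1,z0,z1])],.ref k10 k0 [(z1,[y3,z3,z1]),(z1,[z1])],.contra [z1,y2,y1,z2],
    .contra [z1],.contra [z1],.contra [z1]]),
    .old (.lp [k18,k21,k30,k18,k12,k20] [k6,k6,k2,k7,k0,k0,k6,k6,k9,k9,k5,k5] k0 [[k0,k0,k9,k0,k0,k0,k0,k3],[k0,k0,k6],
    [k0,k0,k0,k0,k0,k12],[k6,k9],[k0,k0,k0,k12,k0,k0,k3],[],[k0,k3],[k0,k0,k0,k0,k0,k3]] k60 k5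
    [[(k8,k15)],[(k5,k15),(k6,k15),(k9,k15),(k2,k28)],[(k5,k17),(k6,k17),(k9,k17),(k2,k30)],[(k4,k16),(k7,k22),(k0,
    k28),(k3,k30)],[(k0,k15),(k3,k17),(k4,k30),(k7,k36)],[(k2,k16),(k9,k18),(k6,k24),(k5,k30)],[(k9,k15),(k6,k21),(k2,
    k22),(k5,k36)],[(k0,k15),(k3,k17),(k7,k21),(k4,k24)],[(k0,k15),(k7,k15),(k3,k17),(k4,k18)],[(k1,k15)],[(k10,k20)],
    [(k11,k20)]]
    [] k0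
    [[k1,k0,k0,k0,k1,k0],[k1,k0,k1,k0,k1,k0],[k1,k0,k0,k1,k1,k0],[k0,k1,k1,k0,k0,k0],[k0,k1,k0,k1,k0,k0],[k0,k0,k0,k2,
    k0,k0],[k0,k0,k0,k0,k0,k2]]
    [.ref k15 k0 [(z1,[z1]),(z1,[y3,z1])],.ref k19 k0 [(z1,[z1]),(z1,[y3,z1])],.ref k18 k0 [(z1,[z1]),(z1,[y3,z1])],
    .ref k10 k0 [(z1,[y3,z1]),(z1,[z1])],.ref k5 k0 [(z1,[y3,z1]),(z1,[z1])],.contra [z1],.contra [z1]]),
    .old (.tor k33 false k0 [(z1,[y4,y2,y2,y2,z4]),(z2,[z0,z0,z1,z1]),(z2,[z0,z1,z1]),(z2,[z2,z1,z0,z1]),(z1,[z2])]),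
    .old (.lp [k5,k60,k60,k60,k26,k24] [k36,k19,k0,k0,k0,k0,k0,k0,k17,k17,k18,k18] k0 [[],[k0,k0,k0,k0,k0,k0,k0,k29],[],
    [],[],[],[k29]] k120 k6
    [[(k8,k24)],[(k2,k24),(k5,k24),(k6,k24),(k9,k36)],[(k6,k31),(k9,k43),(k2,k60),(k5,k60)],[(k0,k24),(k3,k60),(k4,
    k60),(k7,k60)],[(k0,k24),(k3,k60),(k4,k60),(k7,k60)],[(k9,k43),(k2,k60),(k5,k60),(k6,k60)],[(k9,k43),(k2,k60),(k5,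
    k60),(k6,k60)],[(k0,k24),(k3,k31),(k4,k60),(k7,k60)],[(k0,k36),(k3,k43),(k4,k43),(k7,k43)],[(k1,k24)],[(k10,k24)],
    [(k11,k24)]]
    [] k0
    [[k1,k0,k0,k0,k1,k0],[k1,k1,k0,k0,k1,k0],[k1,k0,k1,k0,k1,k0],[k1,k0,k0,k1,k1,k0],[k0,k1,k0,k1,k0,k0],[k0,k0,k0,k0,
    k0,k2],[k0,k0,k0,k0,k0,k3],[k0,k0,k0,k0,k0,k4]]
    [.contra [y2,z2,z1,z1],.contra [z1,y1],.contra [y1,z1,z1,z1],.contra [z1,z0,z2,z1,y1],.contra [z1,z1,z2,z1,y1],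
    .contra [z1],.ref k20 k0 [(z1,[y1,z0,z0,z0,z3])],.ref k21 k0 [(z1,[z0,z1]),(z2,[y1,z0,z4]),(z2,[z1,z0,z0,z4]),(z2,
    [y1,y4,y4,y4,z4])]]),
    .old (.lp [(nat_lit 29920),(nat_lit 59840),(nat_lit 103224),(nat_lit 68816),(nat_lit 39100),
    (nat_lit 43010)] [(nat_lit 36652),(nat_lit 36652),(nat_lit 21692),(nat_lit 21692),k0,k0,(nat_lit 17204),
    (nat_lit 17204),(nat_lit 32062),(nat_lit 32062),(nat_lit 30107),(nat_lit 30107)] k0 [[k0,k0,k0,(nat_lit 10120)],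
    [],[k0,(nat_lit 10120)],[k0,k0,k0,k0,k0,(nat_lit 44880)],[k0,k0,(nat_lit 44880)]] (nat_lit 172040) k6
    [[(k8,(nat_lit 34510))],[(k9,(nat_lit 34510)),(k2,(nat_lit 34760)),(k6,(nat_lit 49368)),(k5,(nat_lit 66572))],
    [(k9,(nat_lit 49470)),(k2,(nat_lit 59840)),(k6,(nat_lit 64328)),(k5,(nat_lit 91652))],[(k0,(nat_lit 34760)),(k3,
    (nat_lit 59840)),(k4,(nat_lit 81532)),(k7,(nat_lit 109208))],[(k4,(nat_lit 58344)),(k0,(nat_lit 66572)),(k7,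
    (nat_lit 86020)),(k3,(nat_lit 91652))],[(k5,(nat_lit 58344)),(k9,(nat_lit 71162)),(k2,(nat_lit 81532)),(k6,
    (nat_lit 86020))],[(k9,(nat_lit 53958)),(k6,(nat_lit 68816)),(k5,(nat_lit 86020)),(k2,(nat_lit 109208))],[(k0,
    (nat_lit 49368)),(k3,(nat_lit 64328)),(k7,(nat_lit 68816)),(k4,(nat_lit 86020))],[(k0,(nat_lit 34510)),(k3,
    (nat_lit 49470)),(k7,(nat_lit 53958)),(k4,(nat_lit 71162))],[(k1,(nat_lit 34510))],[(k10,(nat_lit 43010))],[(k11,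
    (nat_lit 43010))]]
    [] k0
    [[k1,k0,k0,k0,k1,k0],[k2,k0,k0,k0,k2,k0],[k1,k1,k0,k0,k1,k0],[k1,k0,k0,k1,k1,k0],[k0,k2,k0,k0,k0,k0],[k0,k0,k2,k0,
    k0,k0],[k0,k0,k0,k2,k0,k0],[k0,k0,k0,k0,k0,k2],[k0,k0,k0,k0,k0,k3]]
    [.contra [y1,z1,z1],.ref k22 k0 [(z2,[z1]),(z2,[y1,z2,z2]),(z2,[z1,y4,y2,z2])],.contra [y1,z1,z1],.contra [y1,z1],
    .contra [z1],.contra [y1,y2,z0,z2],.contra [z1,z0,z2],.contra [z1],.ref k20 k0 [(z1,[y1,z0,z0,z3])]]),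
    .old (.leafM k11 [k0,k2,k4,k5] [(z1,[z0,z0,z1]),(z1,[y3,y3,y1,z3]),(z1,[z1])] [(k1,k3,z1,[z0,z1]),(k3,k1,z1,[z0,z1])]),
    .old (.leafM k12 [k0,k2,k4,k5] [(z1,[z0,z0,z1]),(z1,[y2,y2,y1,z2]),(z1,[z1])] [(k1,k3,z1,[z0,z1]),(k3,k1,z1,[z0,z1])]),
    .old (.lp [k118,k100,k70,k120,k2,k60] [k1,k1,k1,k19,k25,k25,k0,k0,k71,k47,k30,k30] k0 [[k0,k0,k0,k70],[],[k0,k70],[k0,
    k0,k0,k0,k0,k20],[k0,k0,k20]] (nat_lit 240) k6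
    [[(k8,k48)],[(k2,k48),(k9,k72),(k5,k94),(k6,k119)],[(k9,k54),(k2,k100),(k6,k101),(k5,k146)],[(k0,k48),(k4,k94),
    (k3,k100),(k7,k139)],[(k4,k50),(k0,k94),(k7,k95),(k3,k146)],[(k9,k48),(k5,k50),(k2,k94),(k6,k95)],[(k9,k73),(k5,
    k95),(k6,k120),(k2,k139)],[(k4,k95),(k3,k101),(k0,k119),(k7,k120)],[(k4,k48),(k3,k54),(k0,k72),(k7,k73)],[(k1,
    k48)],[(k10,k60)],[(k11,k60)]]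
    [] k0
    [[k1,k0,k0,k0,k1,k0],[k1,k1,k0,k0,k1,k0],[k1,k0,k1,k0,k1,k0],[k0,k2,k0,k0,k0,k0],[k0,k0,k2,k0,k0,k0],[k0,k0,k3,k0,
    k0,k0],[k0,k0,k4,k0,k0,k0],[k0,k0,k1,k1,k0,k0],[k0,k0,k0,k0,k0,k2],[k0,k0,k0,k0,k0,k3]]
    [.contra [y2,z2,z1,z1],.contra [z1,y1],.contra [y1,z1,z1,z1],.contra [z1],.contra [y1,z0,z2,z2],.ref k24 k0 [(z1,
    [z0,z1]),(z1,[z0,y1,z0,y1,z1]),(z1,[z1])],.ref k25 k0 [(z1,[z0,z1]),(z1,[z0,y1,z0,y1,z1]),(z2,[z1])],.contra [y1,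
    y1,z1,z0,z1],.contra [z1],.ref k20 k0 [(z1,[y1,z0,z0,z0,z3])]]),
    .old (.lp [k8,k40,k40,k80,k40,k30] [k36,k36,k20,k20,k20,k20,k0,k0,k20,k20,k25,k25] k0 [] k120 k6
    [[(k8,k24)],[(k2,k24),(k5,k24),(k9,k24),(k6,k44)],[(k2,k40),(k5,k40),(k9,k40),(k6,k60)],[(k0,k24),(k3,k40),(k4,
    k40),(k7,k60)],[(k0,k24),(k3,k40),(k4,k40),(k7,k60)],[(k2,k40),(k5,k40),(k9,k40),(k6,k60)],[(k2,k60),(k5,k60),(k9,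
    k60),(k6,k80)],[(k0,k44),(k3,k60),(k4,k60),(k7,k80)],[(k0,k24),(k3,k40),(k4,k40),(k7,k60)],[(k1,k24)],[(k10,k30)],
    [(k11,k30)]]
    [] k0
    [[k1,k0,k0,k0,k1,k0],[k2,k0,k0,k0,k2,k0],[k1,k1,k0,k0,k1,k0],[k1,k0,k1,k0,k1,k0],[k0,k2,k0,k0,k0,k0],[k0,k1,k1,k0,
    k0,k0],[k0,k0,k2,k0,k0,k0],[k0,k0,k0,k0,k0,k2],[k0,k0,k0,k0,k0,k3]]
    [.contra [y1,z1,z1],.ref k26 k1 [(z2,[z1]),(z2,[z1,y2]),(z2,[y1,z0,y2,z2])],.contra [y1,z1,z1],.contra [y1,z0,y1,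
    z1],.contra [z1],.contra [z1,z1,z2,y1],.contra [z1,z2,z4,y2],.contra [z1],.ref k20 k0 [(z1,[y1,z0,z0,z3])]]),
    .old (.lp [k14,k22,k24,k10,k12,k12] [k5,k5,k1,k1,k0,k0,k7,k7,k7,k5,k6,k6] k0 [[],[k0,k0,k0,k4],[k4],[k0,k0,k0,k0,k2],
    [k0,k0,k0,k0,k0,k0,k6],[k0,k0,k2],[],[k0,k0,k0,k0,k0,k6]] k48 k5
    [[(k8,k12)],[(k6,k12),(k9,k14),(k2,k18),(k5,k23)],[(k6,k16),(k2,k18),(k9,k18),(k5,k23)],[(k7,k16),(k0,k18),(k3,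
    k18),(k4,k25)],[(k7,k15),(k0,k23),(k3,k23),(k4,k24)],[(k9,k13),(k6,k17),(k5,k24),(k2,k25)],[(k9,k12),(k5,k15),(k2,
    k16),(k6,k16)],[(k0,k12),(k3,k16),(k7,k16),(k4,k17)],[(k7,k12),(k4,k13),(k0,k14),(k3,k18)],[(k1,k12)],[(k10,k12)],
    [(k11,k12)]]
    [] k0
    [[k1,k0,k0,k0,k1,k0],[k1,k0,k0,k1,k1,k0],[k0,k2,k0,k0,k0,k0],[k0,k1,k0,k1,k0,k0],[k0,k0,k1,k1,k0,k0],[k0,k0,k0,k2,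
    k0,k0],[k0,k0,k0,k0,k0,k2],[k0,k0,k0,k0,k0,k3]]
    [.contra [y1,z1],.contra [y1,z1],.contra [z1],.ref k27 k1 [(z1,[y1,z1]),(z1,[z1])],.ref k23 k0 [(z1,[z0,z1]),(z1,
    [y1,y1,z1])],.contra [z1],.contra [z1],.ref k20 k0 [(z1,[y1,z0,z3])]]),
    .old (.lp [(nat_lit 342),(nat_lit 380),(nat_lit 426),(nat_lit 480),k12,(nat_lit 240)] [k84,k54,k50,k50,k27,k27,k0,k0,
    (nat_lit 234),(nat_lit 234),k120,k120] k0 [[k0,k0,k0,k154],[k0,k0,k0,k0,k0,k0,k0,k126],[k0,k154],[k0,k0,k0,k0,k0,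
    (nat_lit 226)],[k0,k0,(nat_lit 226)],[k0,k0,k0,k0,k0,k0,k54],[k126],[k0,k0,k0,k0,k54]] (nat_lit 960) k6
    [[(k8,k192)],[(k2,k192),(k9,(nat_lit 288)),(k5,(nat_lit 369)),(k6,(nat_lit 396))],[(k9,k196),(k6,(nat_lit 304)),
    (k2,(nat_lit 380)),(k5,(nat_lit 557))],[(k0,k192),(k3,(nat_lit 380)),(k4,(nat_lit 403)),(k7,(nat_lit 656))],[(k4,
    (nat_lit 200)),(k0,(nat_lit 369)),(k7,(nat_lit 453)),(k3,(nat_lit 557))],[(k5,(nat_lit 200)),(k9,(nat_lit 219)),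
    (k2,(nat_lit 403)),(k6,(nat_lit 507))],[(k9,k192),(k5,(nat_lit 453)),(k6,(nat_lit 480)),(k2,(nat_lit 656))],[(k3,
    (nat_lit 304)),(k0,(nat_lit 396)),(k7,(nat_lit 480)),(k4,(nat_lit 507))],[(k7,k192),(k3,k196),(k4,(nat_lit 219)),
    (k0,(nat_lit 288))],[(k1,k192)],[(k10,(nat_lit 240))],[(k11,(nat_lit 240))]]
    [] k0
    [[k1,k0,k0,k0,k1,k0],[k1,k1,k0,k0,k1,k0],[k1,k0,k1,k0,k1,k0],[k1,k0,k0,k1,k1,k0],[k1,k1,k0,k1,k1,k0],[k0,k2,k0,k0,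
    k0,k0],[k0,k0,k2,k0,k0,k0],[k0,k0,k3,k0,k0,k0],[k0,k0,k4,k0,k0,k0],[k0,k0,k0,k0,k0,k2],[k0,k0,k0,k0,k0,k3]]
    [.contra [y2,z2,z1],.contra [z1,y1],.contra [z1,y1],.contra [y1,z1,z1],.contra [z2,y2,y1],.contra [z1],
    .contra [z1],.ref k24 k0 [(z1,[z0,z1]),(z1,[z0,z0,z1]),(z1,[z1])],.ref k25 k0 [(z1,[z0,z1]),(z1,[z0,z0,z1]),(z2,
    [z1])],.contra [z1],.ref k20 k0 [(z1,[y1,z0,z0,z3])]]),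
    .old (.lp [k36,k138,k60,k120,k64,k60] [k51,k51,k0,k0,k39,k39,k9,k9,k37,k37,k39,k39] k0 [[k0,k0,k0,k0,k0,k0,k2],[k0,k0,
    k2],[k0,k0,k0,k0,k20],[k2],[k0,k0,k0,k0,k0,k0,k0,k20],[k0,k0,k0,k20],[k0,k0,k0,k0,k0,k20],[k0,
    k2]] (nat_lit 240) k6
    [[(k8,k50)],[(k5,k48),(k9,k48),(k6,k78),(k2,k89)],[(k5,k97),(k9,k101),(k6,k131),(k2,k138)],[(k0,k89),(k4,k99),(k7,
    k109),(k3,k138)],[(k0,k48),(k4,k80),(k7,k90),(k3,k97)],[(k9,k62),(k6,k70),(k5,k80),(k2,k99)],[(k5,k90),(k2,k109),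
    (k9,k112),(k6,k120)],[(k4,k70),(k0,k78),(k7,k120),(k3,k131)],[(k0,k48),(k4,k62),(k3,k101),(k7,k112)],[(k1,k50)],
    [(k10,k60)],[(k11,k60)]]
    [] k0
    [[k1,k0,k0,k0,k1,k0],[k2,k0,k0,k0,k2,k0],[k1,k0,k1,k0,k1,k0],[k0,k1,k1,k0,k0,k0],[k0,k0,k2,k0,k0,k0],[k0,k0,k1,k1,
    k0,k0],[k0,k0,k0,k0,k0,k2],[k0,k0,k0,k0,k0,k3]]
    [.contra [y1,z1],.ref k29 k0 [(z2,[z1]),(z1,[z0,y1,z1])],.contra [y1,z1],.ref k28 k0 [(z1,[y1,z0,z1])],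
    .contra [z1],.ref k28 k1 [(z1,[y1,z0,z1])],.contra [z1],.ref k20 k0 [(z1,[y1,z0,z3])]]),
    .old (.lp [k38,k19,k14,k33,k3,k12] [k0,k0,k14,k5,k12,k12,k2,k3,k25,k10,k13,k13] k0 [[k0,k0,k14],[k0,k0,k0,k0,k0,k0,k0,
    k19],[k0,k0,k0,k0,k6],[k0,k14],[],[k0,k0,k0,k6,k0,k0,k13],[k19],[k0,k0,k0,k0,k13]] k60 k6
    [[(k8,k13)],[(k5,k12),(k2,k24),(k6,k36),(k9,k47)],[(k6,k12),(k5,k21),(k9,k23),(k2,k33)],[(k4,k12),(k7,k15),(k0,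
    k24),(k3,k33)],[(k0,k12),(k4,k20),(k3,k21),(k7,k23)],[(k2,k12),(k9,k16),(k5,k20),(k6,k37)],[(k9,k12),(k2,k15),(k5,
    k23),(k6,k33)],[(k3,k12),(k7,k33),(k0,k36),(k4,k37)],[(k7,k12),(k4,k16),(k3,k23),(k0,k47)],[(k1,k13)],[(k10,k12)],
    [(k11,k12)]]
    [] k0
    [[k1,k0,k1,k0,k1,k0],[k0,k1,k1,k0,k0,k0],[k0,k1,k2,k0,k0,k0],[k0,k1,k0,k1,k0,k0],[k0,k2,k0,k2,k0,k0],[k0,k1,k1,k1,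
    k0,k0],[k0,k0,k2,k0,k0,k0],[k0,k0,k0,k0,k0,k2],[k0,k0,k0,k0,k0,k3],[k0,k0,k0,k0,k0,k4]]
    [.contra [y1,z1,z0,z1],.contra [y6,y3,z1,z2,z3],.contra [z3,z0,y1,y2],.contra [y3,y3,z1,y1,z3],.contra [y3,y6,z2,
    y2,z6],.contra [y1,y1,z0,z0,z1],.contra [z1],.contra [z1],.contra [y2,y3,y1,z0,z3],.contra [y3,y6,y2,y1,z6]]),
    .old (.lp [k32,k56,k32,k56,k32,k30] [k32,k32,k40,k0,k32,k32,k15,k25,k32,k32,k33,k33] k0 [[k0,k0,k8],[k0,k0,k0,k0,k0,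
    k0,k0,k56],[],[k0,k8],[k0,k0,k0,k0,k0,k0,k8],[],[k56],[k0,k0,k0,k0,k0,k8]] k120 k6
    [[(k8,k32)],[(k2,k24),(k5,k24),(k6,k49),(k9,k88)],[(k6,k25),(k2,k64),(k5,k64),(k9,k64)],[(k0,k24),(k4,k24),(k7,
    k31),(k3,k64)],[(k0,k24),(k4,k32),(k7,k39),(k3,k64)],[(k2,k24),(k9,k24),(k5,k32),(k6,k49)],[(k2,k31),(k5,k39),(k9,
    k39),(k6,k64)],[(k3,k25),(k0,k49),(k4,k49),(k7,k64)],[(k4,k24),(k7,k39),(k3,k64),(k0,k88)],[(k1,k32)],[(k10,k30)],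
    [(k11,k30)]]
    [] k0
    [[k1,k0,k1,k0,k1,k0],[k1,k0,k2,k0,k1,k0],[k0,k1,k1,k0,k0,k0],[k0,k1,k0,k1,k0,k0],[k0,k2,k0,k2,k0,k0],[k0,k1,k1,k1,
    k0,k0],[k0,k0,k2,k0,k0,k0],[k0,k0,k3,k0,k0,k0],[k0,k0,k1,k1,k0,k0],[k0,k0,k0,k0,k0,k2],[k0,k0,k0,k0,k0,k3]]
    [.contra [z1,y1],.contra [z1,y1],.contra [y1,y1,z0,z1],.contra [y1,z0,z1],.contra [y1,z0,z2],.contra [y1,y1,z0,
    z1],.contra [z1],.ref k31 k0 [(z1,[z0,z1]),(z1,[z1,z3,z3,y3]),(z1,[z1])],.contra [y1,y1,z0,z1],.contra [z1],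
    .ref k20 k0 [(z1,[y1,z0,z0,z3])]]),
    .old (.leafM k12 [k1,k2,k3,k5] [(z1,[z0,z0,z1]),(z1,[y2,y2,y1,z2]),(z1,[z0,z1])] [(k4,k0,z1,[z1]),(k0,k4,z1,[z1])]),
    .old (.leafM k11 [k1,k2,k3,k5] [(z1,[z0,z0,z1]),(z1,[y3,y3,y1,z3]),(z1,[z0,z1])] [(k4,k0,z1,[z1]),(k0,k4,z1,[z1])]),
    .old (.lp [k62,k116,k62,k116,k66,k48] [k68,k68,k82,k0,k68,k68,k38,k44,k66,k66,k75,k75] k0 [[k0,k0,k4],[k0,k0,k0,k0,k0,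
    k0,k0,k112],[],[k0,k4],[k0,k0,k0,k0,k0,k0,k4],[],[k112],[k0,k0,k0,k0,k0,k4]] (nat_lit 240) k6
    [[(k8,k64)],[(k2,k48),(k5,k58),(k6,k92),(k9,k176)],[(k6,k48),(k2,k120),(k5,k130),(k9,k132)],[(k0,k48),(k4,k48),
    (k7,k72),(k3,k120)],[(k0,k58),(k4,k62),(k7,k86),(k3,k130)],[(k2,k48),(k9,k60),(k5,k62),(k6,k92)],[(k2,k72),(k5,
    k86),(k9,k88),(k6,k120)],[(k3,k48),(k0,k92),(k4,k92),(k7,k120)],[(k4,k60),(k7,k88),(k3,k132),(k0,k176)],[(k1,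
    k64)],[(k10,k48)],[(k11,k48)]]
    [] k0
    [[k1,k0,k1,k0,k1,k0],[k0,k1,k1,k0,k0,k0],[k0,k1,k0,k1,k0,k0],[k0,k1,k1,k1,k0,k0],[k0,k0,k2,k0,k0,k0],[k0,k0,k3,k0,
    k0,k0],[k0,k0,k1,k1,k0,k0],[k0,k0,k0,k0,k0,k2],[k0,k0,k0,k0,k0,k3],[k0,k0,k0,k0,k0,k4]]
    [.contra [y1,z0,y1,z1],.contra [y1,y1,z0,z1],.contra [y1,z0,z2],.contra [z1,z0,y1],.contra [z1],.ref k34 k0 [(z1,
    [z0,z1]),(z1,[z0,z0,z1]),(z1,[z1])],.contra [y1,y1,z0,z1],.contra [z1],.ref k20 k0 [(z1,[y1,z0,z0,z3])],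
    .ref k33 k0 [(z1,[z0,z1]),(z1,[z0,z0,z1]),(z2,[y1,y4,y4,z4])]]),
    .old (.lp [k38,k80,k80,k80,k140,k60] [k51,k51,k41,k19,k30,k30,k11,k49,k0,k0,k40,k40] k0 [[],[k0,k0,k0,k0,k0,k0,k0,
    k62],[],[],[k0,k0,k0,k0,k0,k0,k62],[],[k62],[k0,k0,k0,k0,k0,k62]] (nat_lit 240) k6
    [[(k8,k89)],[(k2,k48),(k5,k59),(k6,k78),(k9,k151)],[(k6,k48),(k2,k80),(k5,k91),(k9,k121)],[(k0,k48),(k7,k50),(k4,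
    k69),(k3,k80)],[(k0,k59),(k7,k61),(k4,k80),(k3,k91)],[(k9,k48),(k2,k69),(k5,k80),(k6,k99)],[(k2,k50),(k5,k61),(k9,
    k91),(k6,k142)],[(k3,k48),(k0,k78),(k4,k99),(k7,k142)],[(k4,k48),(k7,k91),(k3,k121),(k0,k151)],[(k1,k89)],[(k10,
    k60)],[(k11,k60)]]
    [] k0
    [[k1,k0,k1,k0,k1,k0],[k0,k2,k0,k0,k0,k0],[k0,k2,k0,k1,k0,k0],[k0,k1,k1,k0,k0,k0],[k0,k1,k0,k1,k0,k0],[k0,k2,k0,k2,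
    k0,k0],[k0,k1,k1,k1,k0,k0],[k0,k0,k2,k0,k0,k0],[k0,k0,k1,k1,k0,k0],[k0,k0,k0,k0,k0,k2],[k0,k0,k0,k0,k0,k3]]
    [.contra [z1,y1],.contra [z1],.ref k32 k0 [(z1,[z0,z1]),(z1,[z1])],.contra [y1,y1,z1],.contra [y1,y1,z1],
    .ref k35 k0 [(z1,[z0,z1]),(z2,[z1])],.contra [y1,y1,z1],.contra [z1],.contra [y1,y1,z1],.contra [z1],
    .ref k20 k0 [(z1,[y1,z0,z3])]]),
    .old (.lp [k4,k8,k8,k8,k12,k6] [k4,k4,k2,k2,k2,k2,k2,k2,k0,k0,k3,k3] k0 [] k24 k5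
    [[(k8,k8)],[(k2,k6),(k5,k6),(k6,k6),(k9,k8)],[(k2,k8),(k5,k8),(k6,k8),(k9,k10)],[(k0,k6),(k3,k8),(k4,k8),(k7,k8)],
    [(k0,k6),(k3,k8),(k4,k8),(k7,k8)],[(k2,k8),(k5,k8),(k6,k8),(k9,k10)],[(k2,k8),(k5,k8),(k6,k8),(k9,k10)],[(k0,k6),
    (k3,k8),(k4,k8),(k7,k8)],[(k0,k8),(k3,k10),(k4,k10),(k7,k10)],[(k1,k8)],[(k10,k6)],[(k11,k6)]]
    [] k0
    [[k1,k0,k0,k0,k1,k0],[k0,k2,k0,k0,k0,k0],[k0,k1,k1,k0,k0,k0],[k0,k1,k0,k1,k0,k0],[k0,k0,k2,k0,k0,k0],[k0,k0,k1,k1,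
    k0,k0],[k0,k0,k0,k2,k0,k0],[k0,k0,k0,k0,k0,k2],[k0,k0,k0,k0,k0,k3]]
    [.contra [y1,z1],.contra [z1],.contra [y1,y1,z1],.ref k30 k0 [(z1,[y1,z0,z1])],.contra [z1],.ref k28 k1 [(z1,[y1,
    z0,z1])],.contra [z1],.contra [z1],.ref k20 k0 [(z1,[y1,z0,z3])]]),
    .old (.lp [k18,k18,k24,k16,k6,k12] [k3,k3,k3,k3,k0,k0,k4,k4,k9,k9,k6,k6] k0 [[k0,k0,k0,k6],[],[k0,k6],[],[k0,k0,k0,k0,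
    k0,k0,k0,k8],[],[k0,k0,k0,k0,k0,k8]] k48 k5
    [[(k8,k12)],[(k2,k12),(k9,k12),(k6,k17),(k5,k21)],[(k9,k12),(k6,k17),(k2,k18),(k5,k27)],[(k0,k12),(k7,k17),(k3,
    k18),(k4,k21)],[(k7,k20),(k0,k21),(k4,k24),(k3,k27)],[(k6,k12),(k9,k15),(k2,k21),(k5,k24)],[(k6,k16),(k2,k17),(k9,
    k19),(k5,k20)],[(k4,k12),(k7,k16),(k0,k17),(k3,k17)],[(k0,k12),(k3,k12),(k4,k15),(k7,k19)],[(k1,k12)],[(k10,k12)],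
    [(k11,k12)]]
    [] k0
    [[k1,k0,k0,k0,k1,k0],[k1,k1,k0,k0,k1,k0],[k0,k2,k0,k0,k0,k0],[k0,k1,k0,k1,k0,k0],[k0,k0,k1,k1,k0,k0],[k0,k0,k0,k2,
    k0,k0],[k0,k0,k0,k0,k0,k2],[k0,k0,k0,k0,k0,k3]]
    [.ref k36 k0 [(z1,[z1])],.ref k37 k1 [(z1,[z1])],.contra [z1],.ref k30 k0 [(z1,[y1,z1])],.ref k28 k1 [(z1,[y1,
    z1])],.contra [z1],.contra [z1],.ref k20 k0 [(z1,[y1,z3])]])]⟩

/-- classes `0 0 0 0 1 1`, types `B0 B1 B0 B1 N0 N2` -/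
noncomputable def cU6_84 : CertX :=
  ⟨[k8,k9,k8,k9,k28,k30],[(false,k0,[k0,k1,k2,k3,k4,k5])],[[[([z1,z0,z0,z0,z1,z1],z2)],[([z1,z0,z0,z1,z1,z1],z2),([z0,
    z1,z0,y1,z0,z0],z0)],[([z1,z0,z0,z1,z1,z1],z2)],[]]],
    [.old (.leafM k6 [k1,k2,k3,k4,k5,k0] [(z1,[z1])] []),
    .old (.tor k3 false k0 [(z1,[y1,y1,z1]),(z1,[y1,z0,z1]),(z1,[z1]),(z1,[z1,z1])]),
    .old (.lp [k42,k110,k102,k120,k42,k54] [k39,k39,k5,k5,k9,k9,k0,k0,k39,k39,k33,k33] k0 [[k0,k0,k0,k28],[k0,k0,k0,k0,k0,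
    k0,k0,k6],[k0,k28],[k0,k0,k0,k0,k0,k16],[k0,k0,k16],[k0,k0,k0,k0,k0,k0,k18],[k6],[k0,k0,k0,k0,
    k18]] (nat_lit 240) k6
    [[(k11,k48)],[(k2,k48),(k9,k48),(k5,k72),(k6,k81)],[(k9,k76),(k6,k109),(k2,k110),(k5,k134)],[(k0,k48),(k4,k106),
    (k3,k110),(k7,k131)],[(k0,k72),(k4,k86),(k7,k111),(k3,k134)],[(k9,k72),(k5,k86),(k2,k106),(k6,k129)],[(k9,k63),
    (k5,k111),(k6,k120),(k2,k131)],[(k0,k81),(k3,k109),(k7,k120),(k4,k129)],[(k0,k48),(k7,k63),(k4,k72),(k3,k76)],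
    [(k10,k48)],[(k1,k48)],[(k8,k48)]]
    [] k0
    [[k1,k0,k0,k0,k1,k1],[k1,k1,k0,k0,k1,k1],[k0,k2,k0,k0,k0,k0],[k0,k0,k2,k0,k0,k0]]
    [.contra [y1,z1],.ref k1 k0 [(z1,[z0,z1]),(z1,[z1,y1])],.contra [z1],.contra [y1,y2,z2]]),
    .old (.lp [k96,(nat_lit 220),k198,(nat_lit 234),k96,k96] [k69,k69,k7,k7,k18,k18,k0,k0,k69,k69,k69,k69] k0 [[k0,k0,k0,
    k62,k0,k0,k0,k34],[],[k0,k62],[k0,k0,k0,k0,k0,k26],[k0,k0,k26,k0,k0,k0,k6],[k0,k0,k0,k0,k0,k0,k48],[k0,k34],[k0,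
    k0,k0,k0,k48,k6]] (nat_lit 480) k6
    [[(k11,k96)],[(k2,k96),(k9,k96),(k6,k131),(k5,k147)],[(k9,k192),(k2,(nat_lit 220)),(k6,(nat_lit 227)),(k5,
    (nat_lit 271))],[(k0,k96),(k4,(nat_lit 209)),(k3,(nat_lit 220)),(k7,(nat_lit 253))],[(k0,k147),(k4,k172),(k7,
    (nat_lit 216)),(k3,(nat_lit 271))],[(k9,k141),(k5,k172),(k2,(nat_lit 209)),(k6,(nat_lit 264))],[(k9,k117),(k5,
    (nat_lit 216)),(k6,(nat_lit 240)),(k2,(nat_lit 253))],[(k0,k131),(k3,(nat_lit 227)),(k7,(nat_lit 240)),(k4,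
    (nat_lit 264))],[(k0,k96),(k7,k117),(k4,k141),(k3,k192)],[(k10,k96)],[(k1,k96)],[(k8,k96)]]
    [] k0
    [[k1,k0,k0,k0,k1,k1],[k1,k0,k0,k1,k1,k1],[k0,k2,k0,k0,k0,k0],[k0,k0,k2,k0,k0,k0]]
    [.ref k0 k0 [(z1,[z1])],.ref k2 k0 [(z1,[z1])],.contra [z1],.contra [z1]])]⟩

/-- classes `0 0 0 0 1 1`, types `B0 B1 B0 B1 S0 S0` -/
noncomputable def cU6_85 : CertX :=
  ⟨[k8,k9,k8,k9,k16,k16],[(false,k0,[k0,k1,k2,k3,k4,k5]),(true,k4,[k4,k3,k2,k1,k0,k5])],[[[([z1,z0,z0,z0,z1,z1],z2)],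
    [([z1,z0,z0,z1,z1,z1],z2),([z0,z1,z0,y1,z0,z0],z0)],[([z3,z0,z0,z0,z3,z0],z2),([z0,z1,z0,z1,z0,z0],z2),([z0,z0,z3,
    z0,z0,z0],z2)],[([z3,z0,z0,z0,z3,z0],z2),([z0,z3,z0,z0,z0,z0],z2),([z0,z0,z1,z1,z0,z0],z2)],[([z6,z0,z0,z3,z6,z0],
    z8),([z0,z2,z0,y1,z0,z0],z0),([z0,z0,z1,z1,z0,z0],z2)],[([z1,z0,z0,z0,z1,z0],z1),([z0,z1,z0,z1,z0,z0],z2),([z0,z0,
    z3,z0,z0,z0],z1)],[([z3,z0,z0,y3,z3,z0],y2),([z0,z1,z0,z1,z0,z0],z2),([z0,z0,z1,z1,z0,z0],z2)],[([z3,z0,z0,z3,z3,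
    z0],z4),([z0,z1,z1,z0,z0,z0],z2)],[([z1,z0,z0,y1,z1,z0],z0),([z0,z1,z0,z1,z0,z0],z2),([z0,z0,z3,z3,z0,z0],z4)],
    [([z3,z0,z3,z0,z3,z0],z4),([z0,z1,z0,z1,z0,z0],z2)],[([z1,z0,z0,z0,z1,z0],z2),([z0,z3,z0,z3,z0,z0],z2),([z0,z0,z3,
    z0,z0,z0],z2)],[([z1,z0,z0,z0,z1,z0],z2),([z0,z1,z0,z1,z0,z0],z1),([z0,z0,z3,z0,z0,z0],z1)]],[[([z1,z0,z0,z0,z1,
    z0],z2),([z0,z6,z0,z3,z0,z0],z2),([z0,z0,z2,z1,z0,z0],z2)],[([z1,z0,z0,z0,z1,z0],z2),([z0,z2,z0,z1,z0,z0],z2),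
    ([z0,z0,z6,z3,z0,z0],z2)],[([z1,z0,z0,z0,z1,z0],z2),([z0,z3,z3,z3,z0,z0],z4)],[([z1,z0,z1,z0,z1,z0],z2),([z0,z3,
    z0,z0,z0,z0],z2),([z0,z0,z0,z3,z0,z0],z2)],[([z3,z0,z0,y3,z3,z0],z2),([z0,z3,z0,z3,z0,z0],z4),([z0,z0,z3,z3,z0,
    z0],z4)],[([z1,z0,z1,z0,z1,z0],z2),([z0,z3,z0,z3,z0,z0],z4)],[([z3,z3,z3,z3,z3,z0],z10)],[([z1,z0,z0,z0,z1,z0],
    z1),([z0,z1,z0,z1,z0,z0],z2),([z0,z0,z2,z0,z0,z0],z1)],[([z1,z0,z0,z0,z1,z2],z2),([z0,z1,z0,z0,z0,y1],z0),([z0,z0,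
    z1,z0,z0,y1],z0)],[([z1,z0,z0,z0,z1,z0],z1),([z0,z1,z0,z1,z0,z0],z2),([z0,z0,z3,z0,z0,z0],z2)],[([z1,z0,z0,z0,z1,
    z0],z1),([z0,z1,z0,z0,z0,y1],z1),([z0,z0,z1,z0,z0,z1],z1)],[([z1,z0,z0,y1,z1,z1],z0),([z0,z1,z0,z1,z0,z0],z2)]],
    [[([z1,z0,z0,z0,z1,z2],z2),([z0,z1,z0,z0,z0,y2],z0),([z0,z0,z1,z0,z0,y1],z0)],[([z1,z0,z0,z0,z1,z2],z2),([z0,z1,
    z0,z1,z0,z0],z2)],[([z1,z0,z0,y1,z1,z0],z0),([z0,z1,z0,z1,z0,z0],z2)],[([z1,z0,z0,z0,z1,z0],z1),([z0,z1,z0,z1,z0,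
    z0],z2)],[([z1,z0,z1,z0,z1,z1],z2)],[([z1,z0,z0,z1,z1,z1],z2)],[([z1,z0,z0,z0,z1,z0],z2),([z0,z1,z0,z1,z0,z0],z1),
    ([z0,z0,z2,z0,z0,z0],z1)],[([z1,z0,z0,z0,z1,z0],z2),([z0,z2,z0,z1,z0,z0],z2),([z0,z0,z2,z1,z0,z0],z1)],[([z1,z0,
    z0,z0,z1,z0],z2),([z0,z2,z2,z2,z0,z0],z3)],[([z1,z0,z0,z0,z1,z0],z2),([z0,z1,z0,z1,z0,z0],z1),([z0,z0,z3,z0,z0,
    z0],z2)],[([z1,z0,z0,z0,z1,z0],z2),([z0,z3,z0,z3,z0,z3],z4)],[([z1,z0,z0,z0,z1,z0],z2)]],[[([z1,z0,z0,z1,z1,z0],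
    z2)],[]]],
    [.old (.leafM k4 [k1,k2,k3,k4,k5,k0] [(z1,[z1])] []),
    .old (.tor k3 false k0 [(z1,[y1,y1,z1]),(z1,[y1,z0,z1]),(z1,[z1]),(z1,[z1,z1])]),
    .old (.leafM k10 [k0,k2,k4,k5] [(z1,[z0,z0,z1]),(z1,[y1,y3,y1,z3]),(z1,[z1])] [(k1,k3,z1,[z0,z1]),(k3,k1,z1,[z0,z1])]),
    .old (.lp [k24,k30,k50,k28,k24,k32] [k13,k13,k10,k10,k0,k0,k11,k11,k13,k13,k9,k9] k0 [[k0,k0,k2],[],[k0,k0,k0,k0,k0,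
    k16],[k0,k2,k0,k0,k0,k10],[k0,k0,k10,k16],[k0,k0,k0,k0,k0,k0,k2],[],[k0,k0,k0,k0,k2]] k96 k5
    [[(k1,k24),(k8,k24),(k10,k28),(k11,k28)],[(k9,k24),(k6,k26),(k2,k27),(k5,k35)],[(k9,k27),(k6,k29),(k2,k32),(k5,
    k40)],[(k4,k24),(k0,k27),(k3,k32),(k7,k39)],[(k0,k35),(k3,k40),(k4,k40),(k7,k55)],[(k2,k24),(k9,k37),(k5,k40),(k6,
    k41)],[(k9,k24),(k6,k28),(k2,k39),(k5,k55)],[(k0,k26),(k7,k28),(k3,k29),(k4,k41)],[(k0,k24),(k7,k24),(k3,k27),(k4,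
    k37)],[(k1,k24),(k8,k24),(k10,k28),(k11,k28)],[(k1,k28),(k8,k28),(k10,k32),(k11,k32)],[(k1,k28),(k8,k28),(k10,
    k32),(k11,k32)]]
    [] k0
    [[k1,k0,k0,k0,k1,k0],[k1,k1,k0,k0,k1,k0],[k1,k0,k0,k1,k1,k0],[k1,k0,k0,k0,k1,k1],[k0,k2,k0,k0,k0,k0],[k0,k1,k1,k0,
    k0,k0],[k0,k1,k0,k1,k0,k0],[k0,k0,k2,k0,k0,k0],[k0,k0,k0,k2,k0,k0],[k0,k0,k0,k3,k0,k0],[k0,k0,k0,k0,k0,k2]]
    [.contra [z3,y1,z4],.contra [z3,y1,z1],.ref k2 k0 [(z1,[z0,z1]),(z3,[z3,y1,z1]),(z1,[y3,z1,z0,z3])],.contra [z1,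
    z0,z1,z1,y1],.contra [z1],.ref k1 k0 [(z1,[y1,z0,z0,z0,z1]),(z1,[z1,z0,z0,y1])],.ref k2 k0 [(z1,[z0,z1]),(z1,
    [z1]),(z1,[y3,z0,z1,z3])],.contra [z1],.contra [y1,z0,z0,z2],.ref k1 k0 [(z3,[z1,z0,y1,y3,z3]),(z3,[y1,z0,z1])],
    .contra [z3,z2,z4,z6,y6]]),
    .old (.lp [(nat_lit 3180),(nat_lit 3180),(nat_lit 6678),(nat_lit 4770),(nat_lit 3180),(nat_lit 4240)] [(nat_lit 1749),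
    (nat_lit 1749),(nat_lit 1749),(nat_lit 1749),k0,k0,(nat_lit 954),(nat_lit 954),(nat_lit 1749),(nat_lit 1749),
    (nat_lit 1219),(nat_lit 1219)] k0 [[k0,k0,(nat_lit 212)],[],[k0,k0,k0,k0,k0,(nat_lit 480)],[k0,(nat_lit 212)],[k0,
    k0,k0,(nat_lit 480)],[k0,k0,k0,k0,k0,k0,(nat_lit 795)],[],[k0,k0,k0,k0,(nat_lit 795)]] (nat_lit 12720) k5
    [[(k1,(nat_lit 3180)),(k8,(nat_lit 3180)),(k10,(nat_lit 3710)),(k11,(nat_lit 3710))],[(k2,(nat_lit 3180)),(k9,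
    (nat_lit 3180)),(k6,(nat_lit 3975)),(k5,(nat_lit 4717))],[(k9,(nat_lit 3180)),(k2,(nat_lit 3392)),(k6,
    (nat_lit 3975)),(k5,(nat_lit 4929))],[(k0,(nat_lit 3180)),(k3,(nat_lit 3392)),(k7,(nat_lit 3975)),(k4,
    (nat_lit 4449))],[(k0,(nat_lit 4717)),(k3,(nat_lit 4929)),(k7,(nat_lit 6204)),(k4,(nat_lit 6678))],[(k2,
    (nat_lit 4449)),(k9,(nat_lit 4929)),(k6,(nat_lit 6519)),(k5,(nat_lit 6678))],[(k9,(nat_lit 3180)),(k2,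
    (nat_lit 3975)),(k6,(nat_lit 4770)),(k5,(nat_lit 6204))],[(k0,(nat_lit 3975)),(k3,(nat_lit 3975)),(k7,
    (nat_lit 4770)),(k4,(nat_lit 6519))],[(k0,(nat_lit 3180)),(k3,(nat_lit 3180)),(k7,(nat_lit 3180)),(k4,
    (nat_lit 4929))],[(k1,(nat_lit 3180)),(k8,(nat_lit 3180)),(k10,(nat_lit 3710)),(k11,(nat_lit 3710))],[(k1,
    (nat_lit 3710)),(k8,(nat_lit 3710)),(k10,(nat_lit 4240)),(k11,(nat_lit 4240))],[(k1,(nat_lit 3710)),(k8,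
    (nat_lit 3710)),(k10,(nat_lit 4240)),(k11,(nat_lit 4240))]]
    [] k0
    [[k1,k0,k0,k0,k1,k0],[k1,k1,k0,k0,k1,k0],[k1,k0,k0,k1,k1,k0],[k1,k0,k0,k0,k1,k1],[k0,k2,k0,k0,k0,k0],[k0,k3,k0,k0,
    k0,k0],[k0,k2,k0,k1,k0,k0],[k0,k1,k1,k0,k0,k0],[k0,k1,k0,k1,k0,k0],[k0,k0,k0,k2,k0,k0],[k0,k0,k0,k0,k0,k2]]
    [.contra [y6,z1,z5,z2],.contra [z2,y1,y3,y4,z4],.ref k2 k0 [(z1,[y3,z1]),(z2,[z6,y1,z1]),(z1,[y6,z1,z0,z3])],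
    .contra [y1,z0,z0,y1,z1],.contra [z1],.ref k2 k0 [(z2,[y2,z1,z3]),(z1,[z1,z0,y1]),(z1,[y2,z0,z3,z3])],.contra [y1,
    z0,z1,z2],.contra [y1,z0,z1,z1],.ref k2 k0 [(z2,[y2,z1,z1]),(z1,[z1]),(z1,[y2,z0,z1,z3])],.contra [y1,z0,z0,z2],
    .contra [z1]]),
    .old (.leafM k11 [k4,k5,k0,k2] [(z1,[y3,y3,y1,z3]),(z1,[z0,z0,z1]),(z1,[z1])] [(k1,k3,z1,[z0,z1]),(k3,k1,z1,[z0,z1])]),
    .old (.lp [(nat_lit 7176),(nat_lit 11960),(nat_lit 12480),(nat_lit 20930),(nat_lit 7176),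
    (nat_lit 11960)] [(nat_lit 6877),(nat_lit 6877),(nat_lit 4485),(nat_lit 4485),(nat_lit 4225),(nat_lit 4225),k0,k0,
    (nat_lit 6877),(nat_lit 6877),(nat_lit 4485),(nat_lit 4485)] k0 [[k0,k0,k0,(nat_lit 2392)],[],[k0,(nat_lit 2392)],
    [k0,k0,k0,k0,k0,(nat_lit 2990)],[k0,k0,(nat_lit 2990)],[k0,k0,k0,k0,k0,k0,(nat_lit 2760)],[],[k0,k0,k0,k0,
    (nat_lit 2760)]] (nat_lit 35880) k6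
    [[(k1,(nat_lit 7176)),(k8,(nat_lit 7176)),(k10,(nat_lit 9568)),(k11,(nat_lit 9568))],[(k2,(nat_lit 7176)),(k9,
    (nat_lit 7176)),(k5,(nat_lit 9828)),(k6,(nat_lit 14053))],[(k9,(nat_lit 9568)),(k2,(nat_lit 11960)),(k5,
    (nat_lit 14612)),(k6,(nat_lit 16445))],[(k0,(nat_lit 7176)),(k3,(nat_lit 11960)),(k4,(nat_lit 12220)),(k7,
    (nat_lit 19435))],[(k4,(nat_lit 9490)),(k0,(nat_lit 9828)),(k3,(nat_lit 14612)),(k7,(nat_lit 16705))],[(k5,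
    (nat_lit 9490)),(k9,(nat_lit 9828)),(k2,(nat_lit 12220)),(k6,(nat_lit 19465))],[(k9,(nat_lit 11293)),(k5,
    (nat_lit 16705)),(k2,(nat_lit 19435)),(k6,(nat_lit 20930))],[(k0,(nat_lit 14053)),(k3,(nat_lit 16445)),(k4,
    (nat_lit 19465)),(k7,(nat_lit 20930))],[(k0,(nat_lit 7176)),(k3,(nat_lit 9568)),(k4,(nat_lit 9828)),(k7,
    (nat_lit 11293))],[(k1,(nat_lit 7176)),(k8,(nat_lit 7176)),(k10,(nat_lit 9568)),(k11,(nat_lit 9568))],[(k1,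
    (nat_lit 9568)),(k8,(nat_lit 9568)),(k10,(nat_lit 11960)),(k11,(nat_lit 11960))],[(k1,(nat_lit 9568)),(k8,
    (nat_lit 9568)),(k10,(nat_lit 11960)),(k11,(nat_lit 11960))]]
    [] k0
    [[k2,k0,k0,k0,k2,k0],[k1,k0,k0,k0,k1,k0],[k1,k1,k0,k0,k1,k0],[k1,k0,k1,k0,k1,k0],[k1,k0,k0,k1,k1,k0],[k1,k0,k0,k0,
    k1,k1],[k0,k2,k0,k0,k0,k0],[k0,k1,k1,k0,k0,k0],[k0,k0,k2,k0,k0,k0],[k0,k0,k3,k0,k0,k0],[k0,k0,k0,k0,k0,k2]]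
    [.ref k5 k0 [(z2,[z1]),(z1,[z0,z0,z1]),(z2,[y3,z2,z0,z6])],.contra [y3,z1,z4],.contra [z1,y1,y3,y2,z2],
    .contra [z1,y1,y2,y3,z2],.ref k2 k0 [(z2,[z3,z1]),(z1,[z0,z0,z1]),(z2,[y3,z1,z0,z6])],.contra [y1,z0,z0,y1,z1],
    .contra [z1],.contra [z1,z0,z1,y1],.contra [z1,z0,z2,y2],.ref k2 k0 [(z1,[y1,z1,z0,z3]),(z1,[z0,z0,z1]),(z1,
    [z1])],.contra [z1]]),
    .old (.lp [k126,(nat_lit 234),(nat_lit 208),k108,k120,k160] [k51,k57,k0,k0,k13,k13,k63,k63,k57,k57,k37,k37] k0 [[k0,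
    k0,k0,k0,k0,k0,k6],[k0,k0,k0,k50],[k50],[k0,k0,k0,k0,k38],[k0,k0,k0,k0,k0,k0,k24,k6],[k0,k0,k38],[k0,k0,k0,k0,k0,
    k6],[k0,k6,k0,k0,k0,k24]] (nat_lit 480) k5
    [[(k1,k120),(k8,k120),(k10,k140),(k11,k140)],[(k6,k120),(k9,k120),(k2,k183),(k5,(nat_lit 220))],[(k6,k177),(k9,
    k177),(k2,k184),(k5,(nat_lit 221))],[(k7,k171),(k0,k183),(k3,k184),(k4,(nat_lit 259))],[(k7,k120),(k4,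
    (nat_lit 208)),(k0,(nat_lit 220)),(k3,(nat_lit 221))],[(k9,k140),(k6,k152),(k5,(nat_lit 208)),(k2,(nat_lit 259))],
    [(k5,k120),(k9,k120),(k6,k132),(k2,k171)],[(k0,k120),(k7,k132),(k4,k152),(k3,k177)],[(k0,k120),(k7,k120),(k4,
    k140),(k3,k177)],[(k1,k120),(k8,k120),(k10,k140),(k11,k140)],[(k1,k140),(k8,k140),(k10,k160),(k11,k160)],[(k1,
    k140),(k8,k140),(k10,k160),(k11,k160)]]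
    [] k0
    [[k1,k0,k0,k0,k1,k0],[k1,k0,k0,k1,k1,k0],[k1,k0,k0,k0,k1,k1],[k0,k2,k0,k0,k0,k0],[k0,k1,k0,k1,k0,k0],[k0,k0,k2,k0,
    k0,k0],[k0,k0,k1,k1,k0,k0],[k0,k0,k1,k2,k0,k0],[k0,k0,k0,k2,k0,k0],[k0,k0,k0,k3,k0,k0],[k0,k0,k0,k0,k0,k2]]
    [.contra [y3,z1,z1],.contra [z1,y1,y2,z2],.contra [y1,z0,y1,z1],.contra [z1],.ref k6 k1 [(z1,[y3,z1]),(z1,[z1]),
    (z1,[z0,z0,z1])],.contra [y1,z0,z2],.ref k1 k0 [(z1,[z0,z0,y1,z1]),(z1,[y1,z0,z1])],.ref k4 k1 [(z1,[y3,z2,z3]),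
    (z1,[z1,z0,y1]),(z1,[z0,z0,z1])],.contra [z1],.ref k3 k1 [(z1,[y1,z1]),(z1,[z1]),(z1,[z0,z0,z1])],.contra [z1]]),
    .old (.lp [k152,(nat_lit 356),k182,(nat_lit 360),k144,(nat_lit 240)] [k104,k104,k2,k2,k89,k89,k0,k0,k108,k108,k60,
    k60] k0 [[k0,k0,k0,k0,k0,k0,k4,k68],[k0,k0,k0,k60],[k60],[],[],[],[k0,k68],[k0,k4]] (nat_lit 720) k6
    [[(k8,k148),(k1,k152),(k10,k196),(k11,k196)],[(k9,k144),(k6,k188),(k5,(nat_lit 227)),(k2,(nat_lit 254))],[(k5,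
    (nat_lit 269)),(k2,(nat_lit 296)),(k9,(nat_lit 318)),(k6,(nat_lit 362))],[(k0,(nat_lit 254)),(k4,(nat_lit 269)),
    (k3,(nat_lit 296)),(k7,(nat_lit 358))],[(k4,k182),(k0,(nat_lit 227)),(k3,(nat_lit 269)),(k7,(nat_lit 271))],[(k9,
    k163),(k5,k182),(k2,(nat_lit 269)),(k6,(nat_lit 271))],[(k9,(nat_lit 252)),(k5,(nat_lit 271)),(k2,(nat_lit 358)),
    (k6,(nat_lit 360))],[(k0,k188),(k4,(nat_lit 271)),(k7,(nat_lit 360)),(k3,(nat_lit 362))],[(k0,k144),(k4,k163),(k7,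
    (nat_lit 252)),(k3,(nat_lit 318))],[(k8,k144),(k1,k148),(k10,k192),(k11,k192)],[(k8,k192),(k1,k196),(k10,
    (nat_lit 240)),(k11,(nat_lit 240))],[(k8,k192),(k1,k196),(k10,(nat_lit 240)),(k11,(nat_lit 240))]]
    [] k0
    [[k2,k0,k0,k0,k2,k0],[k1,k0,k0,k0,k1,k0],[k1,k0,k1,k0,k1,k0],[k1,k0,k0,k1,k1,k0],[k1,k0,k0,k0,k1,k1],[k0,k2,k0,k0,
    k0,k0],[k0,k1,k1,k0,k0,k0],[k0,k0,k2,k0,k0,k0],[k0,k0,k3,k0,k0,k0],[k0,k0,k1,k1,k0,k0],[k0,k0,k0,k0,k0,k2]]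
    [.contra [y1,z2,z2],.contra [y1,z1,z1],.contra [z1,y3,y2,y1,z2],.contra [y1,z1,z2],.contra [y1,z0,y1,z0,z1],
    .contra [z1],.ref k7 k0 [(z1,[y3,z3,z3,z1]),(z1,[z1])],.contra [z1],.ref k7 k0 [(z1,[y2,z3,z0,z2]),(z3,[z2,z0,z3,
    y1])],.contra [z1,y2,y2,y1,z2],.contra [z1]]),
    .old (.lp [k152,(nat_lit 356),k182,(nat_lit 360),k144,(nat_lit 240)] [k104,k104,k2,k2,k89,k89,k0,k0,k108,k108,k60,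
    k60] k0 [[k0,k0,k0,k0,k0,k0,k4,k68],[k0,k0,k0,k60],[k60],[],[],[],[k0,k68],[k0,k4]] (nat_lit 720) k6
    [[(k8,k148),(k1,k152),(k10,k196),(k11,k196)],[(k9,k144),(k6,k188),(k5,(nat_lit 227)),(k2,(nat_lit 254))],[(k5,
    (nat_lit 269)),(k2,(nat_lit 296)),(k9,(nat_lit 318)),(k6,(nat_lit 362))],[(k0,(nat_lit 254)),(k4,(nat_lit 269)),
    (k3,(nat_lit 296)),(k7,(nat_lit 358))],[(k4,k182),(k0,(nat_lit 227)),(k3,(nat_lit 269)),(k7,(nat_lit 271))],[(k9,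
    k163),(k5,k182),(k2,(nat_lit 269)),(k6,(nat_lit 271))],[(k9,(nat_lit 252)),(k5,(nat_lit 271)),(k2,(nat_lit 358)),
    (k6,(nat_lit 360))],[(k0,k188),(k4,(nat_lit 271)),(k7,(nat_lit 360)),(k3,(nat_lit 362))],[(k0,k144),(k4,k163),(k7,
    (nat_lit 252)),(k3,(nat_lit 318))],[(k8,k144),(k1,k148),(k10,k192),(k11,k192)],[(k8,k192),(k1,k196),(k10,
    (nat_lit 240)),(k11,(nat_lit 240))],[(k8,k192),(k1,k196),(k10,(nat_lit 240)),(k11,(nat_lit 240))]]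
    [] k0
    [[k2,k0,k0,k0,k2,k0],[k1,k0,k0,k0,k1,k0],[k1,k0,k1,k0,k1,k0],[k1,k0,k0,k1,k1,k0],[k1,k0,k0,k0,k1,k1],[k0,k2,k0,k0,
    k0,k0],[k0,k1,k1,k0,k0,k0],[k0,k0,k2,k0,k0,k0],[k0,k0,k3,k0,k0,k0],[k0,k0,k1,k1,k0,k0],[k0,k0,k0,k0,k0,k2]]
    [.ref k5 k0 [(z2,[z1]),(z1,[z0,z0,z1]),(z2,[y3,z2])],.contra [y3,z1,z1],.contra [z1,y1,y2,z2],.ref k8 k1 [(z1,[z1,
    z0,y1]),(z1,[z0,z0,z1]),(z1,[y3,z1,z3])],.contra [y1,z0,y1,z1],.contra [z1],.ref k7 k0 [(z1,[y3,z1,z3]),(z1,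
    [z1])],.contra [z1],.ref k2 k0 [(z1,[y1,z1]),(z1,[z0,z0,z1]),(z1,[z1])],.ref k7 k1 [(z1,[y3,z1,z3]),(z1,[z1])],
    .contra [z1]]),
    .old (.leafM k10 [k1,k2,k3,k5] [(z1,[z0,z0,z1]),(z1,[y3,y1,y1,z3]),(z1,[z0,z1])] [(k4,k0,z1,[z1]),(k0,k4,z1,[z1])]),
    .old (.leafM k11 [k3,k5,k1,k2] [(z1,[y3,y3,y1,z3]),(z1,[z0,z0,z1]),(z1,[z0,z1])] [(k4,k0,z1,[z1]),(k0,k4,z1,[z1])]),
    .old (.lp [(nat_lit 52350),(nat_lit 69800),(nat_lit 43276),(nat_lit 55840),(nat_lit 56538),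
    (nat_lit 55840)] [(nat_lit 25127),(nat_lit 32807),(nat_lit 40484),k0,(nat_lit 33504),(nat_lit 33504),
    (nat_lit 18148),(nat_lit 36296),(nat_lit 38390),(nat_lit 15356),(nat_lit 27222),(nat_lit 27222)] k0 [[k0,k0,k0,
    (nat_lit 11168)],[k0,k0,k0,k0,k0,k0,k0,(nat_lit 58632)],[k0,(nat_lit 11168)],[],[k0,k0,k0,k0,k0,k0,
    (nat_lit 27920)],[k0,k0,k0,k0,k0,k0,(nat_lit 25128)],[(nat_lit 58632)],[k0,k0,k0,k0,(nat_lit 25128),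
    (nat_lit 27920)]] (nat_lit 167520) k6
    [[(k8,(nat_lit 39087)),(k1,(nat_lit 44670)),(k10,(nat_lit 50255)),(k11,(nat_lit 50255))],[(k2,(nat_lit 33505)),
    (k5,(nat_lit 51653)),(k6,(nat_lit 67009)),(k9,(nat_lit 128433))],[(k6,(nat_lit 33504)),(k2,(nat_lit 69800)),(k5,
    (nat_lit 87948)),(k9,(nat_lit 94928))],[(k7,(nat_lit 33504)),(k0,(nat_lit 33505)),(k4,(nat_lit 36296)),(k3,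
    (nat_lit 69800))],[(k7,(nat_lit 40484)),(k4,(nat_lit 43276)),(k0,(nat_lit 51653)),(k3,(nat_lit 87948))],[(k9,
    (nat_lit 33504)),(k2,(nat_lit 36296)),(k5,(nat_lit 43276)),(k6,(nat_lit 83760))],[(k2,(nat_lit 33504)),(k9,
    (nat_lit 33504)),(k5,(nat_lit 40484)),(k6,(nat_lit 83760))],[(k3,(nat_lit 33504)),(k0,(nat_lit 67009)),(k4,
    (nat_lit 83760)),(k7,(nat_lit 83760))],[(k4,(nat_lit 33504)),(k7,(nat_lit 33504)),(k3,(nat_lit 94928)),(k0,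
    (nat_lit 128433))],[(k8,(nat_lit 33504)),(k1,(nat_lit 39087)),(k10,(nat_lit 44672)),(k11,(nat_lit 44672))],[(k8,
    (nat_lit 44672)),(k1,(nat_lit 50255)),(k10,(nat_lit 55840)),(k11,(nat_lit 55840))],[(k8,(nat_lit 44672)),(k1,
    (nat_lit 50255)),(k10,(nat_lit 55840)),(k11,(nat_lit 55840))]]
    [] k0
    [[k1,k0,k1,k0,k1,k0],[k1,k0,k0,k1,k1,k0],[k1,k1,k0,k1,k1,k0],[k0,k2,k0,k0,k0,k0],[k0,k2,k0,k1,k0,k0],[k0,k1,k1,k0,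
    k0,k0],[k0,k1,k0,k1,k0,k0],[k0,k2,k0,k2,k0,k0],[k0,k1,k1,k1,k0,k0],[k0,k1,k2,k1,k0,k0],[k0,k1,k0,k2,k0,k0],[k0,k0,
    k2,k0,k0,k0],[k0,k0,k3,k0,k0,k0],[k0,k0,k1,k1,k0,k0],[k0,k0,k0,k0,k0,k2]]
    [.contra [z1,y1],.contra [y1,z1,z0,z1],.contra [z1,y1],.contra [z1],.contra [z1,y4,y1,y2,z4],.contra [y2,z0,z1,
    z1],.contra [y6,z0,z1,z5],.contra [y2,z0,z1,z1],.contra [z2,y4,y1,y3,z4],.contra [z1,z0,z0,y1],.contra [y2,z0,z1,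
    z1],.contra [z1],.contra [z2,z0,z1,y3],.contra [y1,z0,z0,z1],.contra [z1]]),
    .old (.lp [k37,k60,k30,k38,k34,k40] [k31,k34,k42,k0,k36,k36,k29,k35,k39,k29,k31,k31] k0 [[k0,k0,k11],[k0,k0,k0,k0,k0,
    k0,k0,k49],[],[k0,k11],[],[k0,k0,k0,k0,k0,k0,k14],[k49],[k0,k0,k0,k0,k14]] k120 k6
    [[(k8,k29),(k1,k34),(k10,k37),(k11,k37)],[(k5,k24),(k2,k29),(k6,k42),(k9,k91)],[(k6,k24),(k5,k66),(k2,k71),(k9,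
    k73)],[(k4,k24),(k7,k25),(k0,k29),(k3,k71)],[(k0,k24),(k4,k30),(k7,k31),(k3,k66)],[(k2,k24),(k5,k30),(k9,k37),(k6,
    k51)],[(k9,k24),(k2,k25),(k5,k31),(k6,k38)],[(k3,k24),(k7,k38),(k0,k42),(k4,k51)],[(k7,k24),(k4,k37),(k3,k73),(k0,
    k91)],[(k8,k24),(k1,k29),(k10,k32),(k11,k32)],[(k8,k32),(k1,k37),(k10,k40),(k11,k40)],[(k8,k32),(k1,k37),(k10,
    k40),(k11,k40)]]
    [] k0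
    [[k1,k0,k1,k0,k1,k0],[k1,k0,k0,k1,k1,k0],[k1,k1,k0,k1,k1,k0],[k0,k1,k1,k0,k0,k0],[k0,k1,k0,k1,k0,k0],[k0,k2,k0,k2,
    k0,k0],[k0,k1,k1,k1,k0,k0],[k0,k1,k2,k1,k0,k0],[k0,k1,k0,k2,k0,k0],[k0,k1,k1,k2,k0,k0],[k0,k0,k2,k0,k0,k0],[k0,k0,
    k3,k0,k0,k0],[k0,k0,k2,k1,k0,k0],[k0,k0,k1,k1,k0,k0],[k0,k0,k0,k2,k0,k0],[k0,k0,k0,k3,k0,k0],[k0,k0,k0,k0,k0,k2]]
    [.contra [z1,y1],.contra [y1,z1,z1],.contra [z1,y1],.contra [y2,z0,z1,z1],.contra [y1,z0,z1],.contra [y1,z0,z2],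
    .contra [z2,y4,y3,y1,z4],.contra [y2,z0,z1,z1],.contra [y2,z0,z1,z1],.contra [y2,z0,z1,z1],.contra [z1],
    .contra [y1,z0,z0,z1],.contra [z1,y4,y2,y1,z4],.contra [y6,z0,z5,z1],.contra [z1],.contra [y1,z0,z0,z1],
    .contra [z1]]),
    .old (.lp [k40,k60,k30,k45,k24,k40] [k31,k31,k42,k0,k36,k36,k22,k35,k39,k39,k31,k31] k0 [[k0,k0,k11],[k0,k0,k0,k0,k0,
    k0,k0,k56],[],[k0,k11],[],[],[k56]] k120 k6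
    [[(k8,k32),(k1,k40),(k10,k40),(k11,k40)],[(k5,k24),(k2,k29),(k6,k49),(k9,k88)],[(k6,k24),(k9,k63),(k5,k66),(k2,
    k71)],[(k4,k24),(k7,k25),(k0,k29),(k3,k71)],[(k0,k24),(k4,k30),(k7,k31),(k3,k66)],[(k2,k24),(k9,k27),(k5,k30),(k6,
    k44)],[(k2,k25),(k9,k28),(k5,k31),(k6,k45)],[(k3,k24),(k4,k44),(k7,k45),(k0,k49)],[(k4,k27),(k7,k28),(k3,k63),(k0,
    k88)],[(k8,k24),(k1,k32),(k10,k32),(k11,k32)],[(k8,k32),(k1,k40),(k10,k40),(k11,k40)],[(k8,k32),(k1,k40),(k10,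
    k40),(k11,k40)]]
    [] k0
    [[k1,k0,k1,k0,k1,k0],[k1,k0,k2,k0,k1,k0],[k1,k0,k0,k1,k1,k0],[k1,k1,k0,k1,k1,k0],[k0,k1,k1,k0,k0,k0],[k0,k1,k0,k1,
    k0,k0],[k0,k2,k0,k2,k0,k0],[k0,k1,k1,k1,k0,k0],[k0,k1,k2,k1,k0,k0],[k0,k1,k0,k2,k0,k0],[k0,k0,k2,k0,k0,k0],[k0,k0,
    k3,k0,k0,k0],[k0,k0,k2,k1,k0,k0],[k0,k0,k1,k1,k0,k0],[k0,k0,k0,k2,k0,k0],[k0,k0,k0,k0,k0,k2]]
    [.contra [z1,y1],.contra [z1,y1],.contra [z1,y1],.contra [z1,y1],.contra [y2,z0,z1],.contra [y2,z0,z1],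
    .ref k11 k0 [(z1,[z0,z1]),(z2,[z1]),(z2,[y3,z0,z2])],.contra [z1,y2,y1,z2],.ref k10 k0 [(z1,[z0,z1]),(z1,[y3,z0,
    z2]),(z1,[z3,z0,y1])],.ref k13 k1 [(z1,[z0,z1]),(z1,[z1]),(z1,[y3,z0,z2])],.contra [z1],.ref k10 k0 [(z1,[z0,z1]),
    (z1,[y1,z0,z1]),(z1,[z1])],.ref k12 k0 [(z1,[z0,z1]),(z1,[y3,z0,z2]),(z1,[z1])],.contra [y2,z0,z1],.contra [z1],
    .contra [z1]]),
    .old (.leafM k2 [k0,k1,k2,k3,k4,k5] [(z1,[z0,z1]),(z1,[z0,z0,z1]),(z1,[y3,y1,y1,z3])] []),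
    .old (.lp [k44,k42,k40,k36,k36,k40] [k0,k0,k1,k1,k2,k2,k4,k4,k4,k4,k2,k2] k0 [[],[],[k0,k0,k0,k0,k0,k2],[],[k0,k0,k0,
    k2],[k0,k0,k0,k0,k0,k0,k6],[],[k0,k0,k0,k0,k6]] k120 k5
    [[(k8,k40),(k10,k42),(k11,k42),(k1,k44)],[(k6,k40),(k9,k40),(k5,k42),(k2,k43)],[(k6,k39),(k9,k39),(k5,k41),(k2,
    k42)],[(k4,k39),(k7,k39),(k3,k42),(k0,k43)],[(k4,k40),(k7,k40),(k3,k41),(k0,k42)],[(k9,k38),(k2,k39),(k5,k40),(k6,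
    k44)],[(k9,k30),(k6,k36),(k2,k39),(k5,k40)],[(k7,k36),(k3,k39),(k0,k40),(k4,k44)],[(k7,k30),(k4,k38),(k3,k39),(k0,
    k40)],[(k8,k36),(k10,k38),(k11,k38),(k1,k40)],[(k8,k38),(k10,k40),(k11,k40),(k1,k42)],[(k8,k38),(k10,k40),(k11,
    k40),(k1,k42)]]
    [] k0
    [[k1,k0,k0,k0,k1,k0],[k1,k0,k0,k1,k1,k0],[k0,k2,k0,k0,k0,k0],[k0,k1,k1,k0,k0,k0],[k0,k1,k0,k1,k0,k0],[k0,k1,k1,k1,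
    k0,k0],[k0,k1,k0,k2,k0,k0],[k0,k0,k2,k0,k0,k0],[k0,k0,k1,k1,k0,k0],[k0,k0,k0,k2,k0,k0],[k0,k0,k0,k3,k0,k0],[k0,k0,
    k0,k0,k0,k2]]
    [.contra [y3,z1,z1],.ref k0 k0 [(z6,[z3,y1,y2,y2,z6])],.contra [z1],.contra [z3,z0,z1,y1],.contra [z3,y2,y3,y2,
    z6],.ref k0 k0 [(z1,[y1,z0,z0,z0,z1])],.ref k0 k0 [(z3,[z3,z0,y2,y1,z3])],.contra [z3,z0,z2,y2],.contra [z3,y2,y2,
    y3,z6],.contra [z1],.ref k0 k0 [(z3,[z1,z0,y1,y1,z3])],.contra [z1]]),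
    .old (.lp [k32,k58,k56,k28,k24,k40] [k13,k13,k0,k0,k1,k1,k15,k15,k17,k17,k9,k9] k0 [[k0,k0,k0,k0,k0,k0,k4,k6],[k0,k0,
    k0,k24],[k24,k0,k0,k0,k4],[k0,k0,k0,k0,k6],[k0,k0,k0,k0,k0,k0,k16,k2],[k0,k0,k6,k4],[k0,k6,k0,k0,k0,k2],[k0,k4,k0,
    k0,k0,k16]] k120 k6
    [[(k8,k28),(k1,k32),(k10,k36),(k11,k36)],[(k6,k24),(k9,k24),(k2,k45),(k5,k68)],[(k2,k34),(k6,k47),(k9,k47),(k5,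
    k57)],[(k3,k34),(k7,k39),(k0,k45),(k4,k63)],[(k7,k36),(k3,k57),(k4,k60),(k0,k68)],[(k9,k24),(k6,k40),(k5,k60),(k2,
    k63)],[(k9,k28),(k5,k36),(k2,k39),(k6,k44)],[(k0,k24),(k4,k40),(k7,k44),(k3,k47)],[(k0,k24),(k4,k24),(k7,k28),(k3,
    k47)],[(k8,k24),(k1,k28),(k10,k32),(k11,k32)],[(k8,k32),(k1,k36),(k10,k40),(k11,k40)],[(k8,k32),(k1,k36),(k10,
    k40),(k11,k40)]]
    [] k0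
    [[k2,k0,k0,k0,k2,k0],[k1,k0,k0,k0,k1,k0],[k1,k0,k1,k1,k1,k0],[k1,k0,k0,k1,k1,k0],[k1,k0,k0,k0,k1,k1],[k0,k2,k0,k0,
    k0,k0],[k0,k3,k0,k0,k0,k0],[k0,k1,k0,k1,k0,k0],[k0,k0,k1,k1,k0,k0],[k0,k0,k0,k2,k0,k0],[k0,k0,k0,k0,k0,k2]]
    [.contra [y1,z2],.contra [y1,z1],.contra [z1,y1],.ref k16 k1 [(z1,[z3,z0,y1]),(z1,[z0,z0,z1]),(z1,[y3,z3,z1])],
    .ref k0 k0 [(z1,[z1])],.contra [z1],.ref k15 k0 [(z1,[z0,z1]),(z1,[z1]),(z1,[y1,z0,z1])],.contra [z1,y2,y1,z2],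
    .ref k7 k1 [(z1,[y3,z3,z1]),(z1,[z1])],.contra [z1],.contra [z1]]),
    .old (.lp [k50,k40,k38,k40,k30,k40] [k0,k12,k11,k11,k12,k12,k11,k11,k16,k16,k11,k11] k0 [[k0,k0,k20],[],[k0,k0,k0,k0,
    k4],[k0,k20],[k0,k0,k0,k0,k0,k0,k4],[k0,k0,k0,k4],[],[k0,k0,k0,k0,k0,k4]] k120 k5
    [[(k8,k34),(k1,k38),(k10,k39),(k11,k39)],[(k5,k30),(k9,k46),(k2,k51),(k6,k51)],[(k9,k35),(k5,k39),(k6,k40),(k2,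
    k60)],[(k7,k36),(k4,k39),(k0,k51),(k3,k60)],[(k0,k30),(k3,k39),(k7,k39),(k4,k42)],[(k9,k30),(k2,k39),(k6,k39),(k5,
    k42)],[(k9,k35),(k2,k36),(k5,k39),(k6,k44)],[(k4,k39),(k3,k40),(k7,k44),(k0,k51)],[(k4,k30),(k3,k35),(k7,k35),(k0,
    k46)],[(k8,k30),(k1,k34),(k10,k35),(k11,k35)],[(k8,k35),(k1,k39),(k10,k40),(k11,k40)],[(k8,k35),(k1,k39),(k10,
    k40),(k11,k40)]]
    [] k0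
    [[k1,k0,k0,k0,k1,k0],[k1,k0,k1,k0,k1,k0],[k0,k1,k1,k0,k0,k0],[k0,k1,k1,k1,k0,k0],[k0,k1,k0,k1,k0,k0],[k0,k0,k2,k0,
    k0,k0],[k0,k0,k1,k1,k0,k0],[k0,k0,k0,k2,k0,k0],[k0,k0,k0,k0,k0,k2]]
    [.ref k14 k0 [(z1,[z1]),(z1,[y3,z1])],.ref k17 k0 [(z1,[z1]),(z1,[y3,z1])],.ref k7 k0 [(z1,[y3,z1]),(z1,[z1])],
    .ref k0 k0 [(z1,[y1,z0,z1])],.ref k9 k0 [(z1,[y3,z1]),(z1,[z1])],.contra [z1],.ref k7 k1 [(z1,[y3,z1]),(z1,[z1])],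
    .contra [z1],.contra [z1]]),
    .old (.leafM k9 [k0,k2,k4,k5] [(z1,[z0,z0,z1]),(z1,[y2,y2,y1,z2]),(z1,[z1])] [(k1,k3,z1,[z0,z1]),(k3,k1,z1,[z0,z1])]),
    .old (.lp [(nat_lit 7176),(nat_lit 11960),(nat_lit 12480),(nat_lit 20930),(nat_lit 7176),
    (nat_lit 11960)] [(nat_lit 6877),(nat_lit 6877),(nat_lit 4485),(nat_lit 4485),(nat_lit 4225),(nat_lit 4225),k0,k0,
    (nat_lit 6877),(nat_lit 6877),(nat_lit 4485),(nat_lit 4485)] k0 [[k0,k0,k0,(nat_lit 2392)],[],[k0,(nat_lit 2392)],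
    [k0,k0,k0,k0,k0,(nat_lit 2990)],[k0,k0,(nat_lit 2990)],[k0,k0,k0,k0,k0,k0,(nat_lit 2760)],[],[k0,k0,k0,k0,
    (nat_lit 2760)]] (nat_lit 35880) k6
    [[(k1,(nat_lit 7176)),(k8,(nat_lit 7176)),(k10,(nat_lit 9568)),(k11,(nat_lit 9568))],[(k2,(nat_lit 7176)),(k9,
    (nat_lit 7176)),(k5,(nat_lit 9828)),(k6,(nat_lit 14053))],[(k9,(nat_lit 9568)),(k2,(nat_lit 11960)),(k5,
    (nat_lit 14612)),(k6,(nat_lit 16445))],[(k0,(nat_lit 7176)),(k3,(nat_lit 11960)),(k4,(nat_lit 12220)),(k7,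
    (nat_lit 19435))],[(k4,(nat_lit 9490)),(k0,(nat_lit 9828)),(k3,(nat_lit 14612)),(k7,(nat_lit 16705))],[(k5,
    (nat_lit 9490)),(k9,(nat_lit 9828)),(k2,(nat_lit 12220)),(k6,(nat_lit 19465))],[(k9,(nat_lit 11293)),(k5,
    (nat_lit 16705)),(k2,(nat_lit 19435)),(k6,(nat_lit 20930))],[(k0,(nat_lit 14053)),(k3,(nat_lit 16445)),(k4,
    (nat_lit 19465)),(k7,(nat_lit 20930))],[(k0,(nat_lit 7176)),(k3,(nat_lit 9568)),(k4,(nat_lit 9828)),(k7,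
    (nat_lit 11293))],[(k1,(nat_lit 7176)),(k8,(nat_lit 7176)),(k10,(nat_lit 9568)),(k11,(nat_lit 9568))],[(k1,
    (nat_lit 9568)),(k8,(nat_lit 9568)),(k10,(nat_lit 11960)),(k11,(nat_lit 11960))],[(k1,(nat_lit 9568)),(k8,
    (nat_lit 9568)),(k10,(nat_lit 11960)),(k11,(nat_lit 11960))]]
    [] k0
    [[k2,k0,k0,k0,k2,k0],[k1,k0,k0,k0,k1,k0],[k1,k1,k0,k0,k1,k0],[k1,k0,k1,k0,k1,k0],[k1,k0,k0,k1,k1,k0],[k1,k0,k0,k0,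
    k1,k1],[k0,k2,k0,k0,k0,k0],[k0,k1,k1,k0,k0,k0],[k0,k0,k2,k0,k0,k0],[k0,k0,k3,k0,k0,k0],[k0,k0,k0,k0,k0,k2]]
    [.ref k19 k0 [(z2,[z1]),(z1,[z0,y1,z0,y1,z1]),(z2,[y1,z2,z0,z4])],.contra [y1,z1,z2],.contra [y1,z1,z2],
    .contra [y1,z1,z1,z1],.ref k18 k0 [(z1,[z1,z0,z1,z1,z2])],.contra [y1,z1,z1],.contra [z1],.contra [z1,z0,z1,y1],
    .contra [z1,z0,z2,y2],.ref k18 k0 [(z1,[y1,z0,z0,z3,z3])],.contra [z1,z0,z2]]),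
    .old (.leafM k8 [k0,k2,k4,k5] [(z1,[z0,z0,z1]),(z1,[y3,y3,y1,z3]),(z1,[z1])] [(k1,k3,z1,[z0,z1]),(k3,k1,z1,[z0,z1])]),
    .old (.lp [k48,k80,k144,k90,k48,k60] [k48,k48,k32,k32,k0,k0,k27,k27,k48,k48,k42,k42] k0 [[k0,k0,k0,k16],[k0,k0,k0,k0,
    k0,k0,k0,k24],[k0,k16],[k0,k0,k0,k0,k0,k94],[k0,k0,k94],[k0,k0,k0,k0,k0,k0,k6],[k24],[k0,k0,k0,k0,
    k6]] (nat_lit 240) k6
    [[(k1,k48),(k8,k48),(k10,k54),(k11,k54)],[(k2,k48),(k6,k69),(k9,k72),(k5,k96)],[(k6,k61),(k9,k64),(k2,k80),(k5,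
    k128)],[(k0,k48),(k3,k80),(k4,k112),(k7,k179)],[(k4,k50),(k0,k96),(k7,k117),(k3,k128)],[(k5,k50),(k9,k96),(k2,
    k112),(k6,k123)],[(k9,k63),(k6,k90),(k5,k117),(k2,k179)],[(k3,k61),(k0,k69),(k7,k90),(k4,k123)],[(k7,k63),(k3,
    k64),(k0,k72),(k4,k96)],[(k1,k48),(k8,k48),(k10,k54),(k11,k54)],[(k1,k54),(k8,k54),(k10,k60),(k11,k60)],[(k1,k54),
    (k8,k54),(k10,k60),(k11,k60)]]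
    [] k0
    [[k1,k0,k0,k0,k1,k0],[k1,k1,k0,k0,k1,k0],[k1,k0,k0,k1,k1,k0],[k1,k1,k0,k1,k1,k0],[k1,k0,k0,k0,k1,k1],[k1,k1,k0,k0,
    k1,k1],[k0,k2,k0,k0,k0,k0],[k0,k0,k2,k0,k0,k0],[k0,k0,k3,k0,k0,k0],[k0,k0,k4,k0,k0,k0],[k0,k0,k0,k2,k0,k0],[k0,k0,
    k0,k0,k0,k2],[k0,k0,k0,k0,k0,k3]]
    [.contra [y2,z2,z1,z1],.contra [z1,y1],.contra [y1,z0,z0,y1,z1],.contra [z2,z0,z1,z3,y2],.contra [z1,y1],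
    .contra [z1,y1,z1],.contra [z1],.contra [y1,z0,z2,z2],.ref k21 k0 [(z1,[z0,z1]),(z1,[z0,y1,z0,y1,z1]),(z1,[z1])],
    .ref k19 k0 [(z1,[z0,z1]),(z1,[z0,y1,z0,y1,z1]),(z2,[z1])],.contra [y1,y2,z0,y2,z2],.contra [z1],.ref k18 k0 [(z1,
    [y1,z0,z0,z0,z3])]]),
    .old (.lp [k52,k80,k98,k140,k48,k60] [k44,k44,k30,k30,k21,k21,k0,k0,k46,k46,k40,k40] k0 [[k0,k0,k0,k0,k0,k0,k2],[],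
    [k0,k0,k0,k0,k0,k2],[k0,k0,k0,k0,k0,k18],[k0,k0,k18,k2],[k0,k0,k0,k0,k0,k0,k0,k42],[k0,k0,k0,k0,k42],[k0,
    k2]] (nat_lit 240) k6
    [[(k8,k50),(k1,k52),(k10,k56),(k11,k56)],[(k9,k48),(k2,k66),(k5,k75),(k6,k96)],[(k9,k64),(k2,k80),(k5,k89),(k6,
    k112)],[(k0,k66),(k3,k80),(k4,k87),(k7,k128)],[(k0,k75),(k4,k80),(k3,k89),(k7,k121)],[(k5,k80),(k2,k87),(k9,k115),
    (k6,k119)],[(k9,k94),(k6,k98),(k5,k121),(k2,k128)],[(k0,k96),(k7,k98),(k3,k112),(k4,k119)],[(k0,k48),(k3,k64),(k7,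
    k94),(k4,k115)],[(k8,k48),(k1,k50),(k10,k54),(k11,k54)],[(k8,k54),(k1,k56),(k10,k60),(k11,k60)],[(k8,k54),(k1,
    k56),(k10,k60),(k11,k60)]]
    [] k0
    [[k2,k0,k0,k0,k2,k0],[k1,k0,k0,k0,k1,k0],[k1,k1,k0,k0,k1,k0],[k1,k0,k0,k0,k1,k1],[k1,k0,k0,k0,k1,k2],[k0,k2,k0,k0,
    k0,k0],[k0,k1,k1,k0,k0,k0],[k0,k0,k2,k0,k0,k0],[k0,k0,k0,k2,k0,k0],[k0,k0,k0,k0,k0,k2],[k0,k0,k0,k0,k0,k3]]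
    [.ref k22 k1 [(z2,[z1]),(z2,[z1,y2]),(z2,[y1,z0,y2,z2])],.contra [y1,z1,z1],.contra [y1,z1,z1],.contra [y1,z1,z1],
    .ref k20 k0 [(z1,[z1]),(z1,[y1,z1,z1]),(z1,[y1,z0,y1,z1])],.contra [z1],.contra [z1,z1,z2,y1],.contra [z1,z2,z4,
    y2],.contra [y1,z0,z2],.contra [z1],.ref k18 k0 [(z1,[y1,z0,z0,z3])]]),
    .old (.lp [k152,(nat_lit 356),k182,(nat_lit 360),k144,(nat_lit 240)] [k104,k104,k2,k2,k89,k89,k0,k0,k108,k108,k60,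
    k60] k0 [[k0,k0,k0,k0,k0,k0,k4,k68],[k0,k0,k0,k60],[k60],[],[],[],[k0,k68],[k0,k4]] (nat_lit 720) k6
    [[(k8,k148),(k1,k152),(k10,k196),(k11,k196)],[(k9,k144),(k6,k188),(k5,(nat_lit 227)),(k2,(nat_lit 254))],[(k5,
    (nat_lit 269)),(k2,(nat_lit 296)),(k9,(nat_lit 318)),(k6,(nat_lit 362))],[(k0,(nat_lit 254)),(k4,(nat_lit 269)),
    (k3,(nat_lit 296)),(k7,(nat_lit 358))],[(k4,k182),(k0,(nat_lit 227)),(k3,(nat_lit 269)),(k7,(nat_lit 271))],[(k9,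
    k163),(k5,k182),(k2,(nat_lit 269)),(k6,(nat_lit 271))],[(k9,(nat_lit 252)),(k5,(nat_lit 271)),(k2,(nat_lit 358)),
    (k6,(nat_lit 360))],[(k0,k188),(k4,(nat_lit 271)),(k7,(nat_lit 360)),(k3,(nat_lit 362))],[(k0,k144),(k4,k163),(k7,
    (nat_lit 252)),(k3,(nat_lit 318))],[(k8,k144),(k1,k148),(k10,k192),(k11,k192)],[(k8,k192),(k1,k196),(k10,
    (nat_lit 240)),(k11,(nat_lit 240))],[(k8,k192),(k1,k196),(k10,(nat_lit 240)),(k11,(nat_lit 240))]]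
    [] k0
    [[k2,k0,k0,k0,k2,k0],[k1,k0,k0,k0,k1,k0],[k1,k0,k1,k0,k1,k0],[k1,k0,k0,k1,k1,k0],[k1,k0,k0,k0,k1,k1],[k0,k2,k0,k0,
    k0,k0],[k0,k1,k1,k0,k0,k0],[k0,k0,k2,k0,k0,k0],[k0,k0,k3,k0,k0,k0],[k0,k0,k1,k1,k0,k0],[k0,k0,k0,k0,k0,k2]]
    [.contra [y1,z2,z2],.contra [y1,z1,z1],.contra [y2,z2,z1,z2],.contra [y1,z0,z1,y1,z1],.contra [y2,z2,z1],
    .contra [z1],.ref k18 k0 [(z1,[y1,z0,z1,z1,z3])],.contra [z1],.ref k18 k0 [(z1,[y1,z0,z0,z3,z3])],.contra [y2,y2,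
    y1,z0,z2],.contra [z1,z0,z0,z2]]),
    .old (.lp [k152,(nat_lit 356),k182,(nat_lit 360),k144,(nat_lit 240)] [k104,k104,k2,k2,k89,k89,k0,k0,k108,k108,k60,
    k60] k0 [[k0,k0,k0,k0,k0,k0,k4,k68],[k0,k0,k0,k60],[k60],[],[],[],[k0,k68],[k0,k4]] (nat_lit 720) k6
    [[(k8,k148),(k1,k152),(k10,k196),(k11,k196)],[(k9,k144),(k6,k188),(k5,(nat_lit 227)),(k2,(nat_lit 254))],[(k5,
    (nat_lit 269)),(k2,(nat_lit 296)),(k9,(nat_lit 318)),(k6,(nat_lit 362))],[(k0,(nat_lit 254)),(k4,(nat_lit 269)),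
    (k3,(nat_lit 296)),(k7,(nat_lit 358))],[(k4,k182),(k0,(nat_lit 227)),(k3,(nat_lit 269)),(k7,(nat_lit 271))],[(k9,
    k163),(k5,k182),(k2,(nat_lit 269)),(k6,(nat_lit 271))],[(k9,(nat_lit 252)),(k5,(nat_lit 271)),(k2,(nat_lit 358)),
    (k6,(nat_lit 360))],[(k0,k188),(k4,(nat_lit 271)),(k7,(nat_lit 360)),(k3,(nat_lit 362))],[(k0,k144),(k4,k163),(k7,
    (nat_lit 252)),(k3,(nat_lit 318))],[(k8,k144),(k1,k148),(k10,k192),(k11,k192)],[(k8,k192),(k1,k196),(k10,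
    (nat_lit 240)),(k11,(nat_lit 240))],[(k8,k192),(k1,k196),(k10,(nat_lit 240)),(k11,(nat_lit 240))]]
    [] k0
    [[k2,k0,k0,k0,k2,k0],[k1,k0,k0,k0,k1,k0],[k1,k0,k1,k0,k1,k0],[k1,k0,k0,k1,k1,k0],[k1,k0,k0,k0,k1,k1],[k0,k2,k0,k0,
    k0,k0],[k0,k1,k1,k0,k0,k0],[k0,k0,k2,k0,k0,k0],[k0,k0,k3,k0,k0,k0],[k0,k0,k1,k1,k0,k0],[k0,k0,k0,k0,k0,k2]]
    [.ref k19 k0 [(z2,[z1]),(z1,[z0,z0,z1]),(z2,[y1,y2,y4,z4])],.contra [y1,y1,y2,z2],.contra [y1,y1,y2,z2],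
    .ref k24 k1 [(z1,[z0,z1]),(z1,[z1,y1]),(z1,[z0,y1,y1,z1])],.contra [y1,z0,y1,z1],.contra [z1],.ref k23 k1 [(z1,
    [y1,z0,y1,z1]),(z1,[z0,z0,z1])],.contra [z1],.ref k18 k0 [(z1,[y1,y3,y3,z6])],.ref k23 k0 [(z1,[y1,z0,y1,z1]),(z1,
    [z0,z0,z1])],.contra [z1,y2,y2,z2]]),
    .old (.lp [k52,k158,k80,k80,k48,k60] [k53,k53,k0,k0,k39,k39,k39,k39,k55,k55,k49,k49] k0 [[k0,k0,k0,k2,k0,k0,k2],[k0,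
    k0,k0,k60],[k60,k2],[],[],[],[],[k0,k2]] (nat_lit 240) k6
    [[(k8,k50),(k1,k52),(k10,k56),(k11,k56)],[(k9,k48),(k6,k66),(k2,k103),(k5,k126)],[(k2,k98),(k9,k103),(k5,k121),
    (k6,k121)],[(k3,k98),(k0,k103),(k4,k119),(k7,k119)],[(k4,k80),(k7,k80),(k3,k121),(k0,k126)],[(k9,k64),(k5,k80),
    (k6,k80),(k2,k119)],[(k9,k64),(k5,k80),(k6,k80),(k2,k119)],[(k0,k66),(k4,k80),(k7,k80),(k3,k121)],[(k0,k48),(k4,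
    k64),(k7,k64),(k3,k103)],[(k8,k48),(k1,k50),(k10,k54),(k11,k54)],[(k8,k54),(k1,k56),(k10,k60),(k11,k60)],[(k8,
    k54),(k1,k56),(k10,k60),(k11,k60)]]
    [] k0
    [[k2,k0,k0,k0,k2,k0],[k1,k0,k0,k0,k1,k0],[k1,k0,k0,k1,k1,k0],[k1,k0,k0,k0,k1,k1],[k1,k0,k0,k0,k1,k2],[k0,k2,k0,k0,
    k0,k0],[k0,k0,k2,k0,k0,k0],[k0,k0,k1,k1,k0,k0],[k0,k0,k0,k2,k0,k0],[k0,k0,k0,k0,k0,k2],[k0,k0,k0,k0,k0,k3]]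
    [.contra [y1,z2,z2],.contra [y1,z1,z1],.contra [y1,z1,z2],.contra [y1,z0,y1,z1],.ref k25 k0 [(z1,[z1]),(z1,[z0,z0,
    z1])],.contra [z1],.contra [z1],.contra [y1,y1,y1,z1],.contra [y1,z0,z2],.contra [z1],.ref k18 k0 [(z1,[y1,z0,z0,
    z3])]]),
    .old (.lp [k48,k100,k114,k100,k48,k60] [k33,k33,k7,k7,k0,k0,k7,k7,k33,k33,k27,k27] k0 [[k0,k0,k0,k26,k0,k0,k0,k10],
    [k0,k0,k0,k0,k0,k0,k0,k24],[k0,k26],[k0,k0,k0,k0,k0,k64],[k0,k0,k64,k0,k0,k0,k20],[k0,k0,k0,k0,k0,k0,k26],[k24,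
    k10],[k0,k0,k0,k0,k26,k20]] (nat_lit 240) k6
    [[(k1,k48),(k8,k48),(k10,k54),(k11,k54)],[(k2,k48),(k6,k64),(k9,k72),(k5,k81)],[(k6,k76),(k9,k84),(k2,k100),(k5,
    k133)],[(k0,k48),(k3,k100),(k4,k107),(k7,k164)],[(k4,k50),(k0,k81),(k7,k107),(k3,k133)],[(k5,k50),(k9,k61),(k2,
    k107),(k6,k133)],[(k9,k48),(k5,k107),(k6,k120),(k2,k164)],[(k0,k64),(k3,k76),(k7,k120),(k4,k133)],[(k7,k48),(k4,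
    k61),(k0,k72),(k3,k84)],[(k1,k48),(k8,k48),(k10,k54),(k11,k54)],[(k1,k54),(k8,k54),(k10,k60),(k11,k60)],[(k1,k54),
    (k8,k54),(k10,k60),(k11,k60)]]
    [] k0
    [[k1,k0,k0,k0,k1,k0],[k1,k1,k0,k0,k1,k0],[k1,k0,k1,k0,k1,k0],[k1,k0,k0,k1,k1,k0],[k1,k1,k0,k1,k1,k0],[k1,k0,k0,k0,
    k1,k1],[k1,k0,k0,k1,k1,k1],[k0,k2,k0,k0,k0,k0],[k0,k0,k2,k0,k0,k0],[k0,k0,k3,k0,k0,k0],[k0,k0,k4,k0,k0,k0],[k0,k0,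
    k0,k0,k0,k2],[k0,k0,k0,k0,k0,k3]]
    [.contra [y2,z2,z1],.contra [z1,y1],.contra [z1,y1],.contra [y1,z1,z1],.contra [z2,y2,y1],.contra [z1,y1],
    .ref k23 k1 [(z1,[z1,z0,y1]),(z1,[z0,z0,z1])],.contra [z1],.contra [z1],.ref k21 k0 [(z1,[z0,z1]),(z1,[z0,z0,z1]),
    (z1,[z1])],.ref k25 k0 [(z2,[y1,y2,y4,z4]),(z1,[z0,z0,z1])],.contra [z1],.ref k18 k0 [(z1,[y1,z0,z0,z3])]]),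
    .old (.lp [(nat_lit 256),(nat_lit 590),(nat_lit 404),(nat_lit 600),(nat_lit 240),(nat_lit 300)] [k172,k172,k5,k5,k98,
    k98,k0,k0,k180,k180,k150,k150] k0 [[k0,k0,k0,k0,k0,k0,k8,k114],[],[k0,k0,k0,k0,k0,k196],[k0,k0,k0,k0,k0,k2],[k0,
    k0,k2,k196],[],[k0,k114],[k0,k8]] (nat_lit 1200) k6
    [[(k8,(nat_lit 248)),(k1,(nat_lit 256)),(k10,(nat_lit 278)),(k11,(nat_lit 278))],[(k9,(nat_lit 240)),(k6,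
    (nat_lit 314)),(k5,(nat_lit 330)),(k2,(nat_lit 423))],[(k5,(nat_lit 497)),(k9,(nat_lit 529)),(k2,(nat_lit 590)),
    (k6,(nat_lit 603))],[(k4,(nat_lit 301)),(k0,(nat_lit 423)),(k3,(nat_lit 590)),(k7,(nat_lit 597))],[(k0,
    (nat_lit 330)),(k4,(nat_lit 402)),(k3,(nat_lit 497)),(k7,(nat_lit 698))],[(k2,(nat_lit 301)),(k9,(nat_lit 322)),
    (k5,(nat_lit 402)),(k6,(nat_lit 502))],[(k9,(nat_lit 420)),(k2,(nat_lit 597)),(k6,(nat_lit 600)),(k5,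
    (nat_lit 698))],[(k0,(nat_lit 314)),(k4,(nat_lit 502)),(k7,(nat_lit 600)),(k3,(nat_lit 603))],[(k0,(nat_lit 240)),
    (k4,(nat_lit 322)),(k7,(nat_lit 420)),(k3,(nat_lit 529))],[(k8,(nat_lit 240)),(k1,(nat_lit 248)),(k10,
    (nat_lit 270)),(k11,(nat_lit 270))],[(k8,(nat_lit 270)),(k1,(nat_lit 278)),(k10,(nat_lit 300)),(k11,
    (nat_lit 300))],[(k8,(nat_lit 270)),(k1,(nat_lit 278)),(k10,(nat_lit 300)),(k11,(nat_lit 300))]]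
    [] k0
    [[k2,k0,k0,k0,k2,k0],[k1,k0,k0,k0,k1,k0],[k1,k0,k1,k0,k1,k0],[k1,k0,k0,k1,k1,k0],[k1,k0,k0,k0,k1,k1],[k1,k0,k0,k0,
    k1,k2],[k0,k2,k0,k0,k0,k0],[k0,k1,k1,k0,k0,k0],[k0,k0,k2,k0,k0,k0],[k0,k0,k0,k0,k0,k2],[k0,k0,k0,k0,k0,k3]]
    [.ref k27 k0 [(z2,[z1]),(z1,[z0,y1,z1])],.contra [y1,z1],.contra [y1,z1],.ref k26 k1 [(z1,[z1,z1,y1]),(z1,[z0,y1,
    z1])],.contra [y1,z1],.ref k25 k0 [(z1,[z1]),(z1,[z0,y1,z1])],.contra [z1],.ref k23 k1 [(z1,[y1,z1]),(z1,[z0,y1,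
    z1])],.contra [z1],.contra [z1],.ref k18 k0 [(z1,[y1,z0,z3])]]),
    .old (.lp [k13,k22,k24,k10,k13,k12] [k5,k6,k1,k1,k0,k0,k7,k7,k6,k5,k6,k6] k0 [[],[k0,k0,k0,k4],[k4],[k0,k0,k0,k0,k2],
    [k0,k0,k0,k0,k0,k0,k6],[k0,k0,k2],[],[k0,k0,k0,k0,k0,k6]] k48 k5
    [[(k1,k12),(k8,k12),(k10,k12),(k11,k12)],[(k6,k12),(k9,k14),(k2,k18),(k5,k23)],[(k6,k16),(k2,k18),(k9,k18),(k5,
    k23)],[(k7,k16),(k0,k18),(k3,k18),(k4,k25)],[(k7,k15),(k0,k23),(k3,k23),(k4,k24)],[(k9,k13),(k6,k17),(k5,k24),(k2,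
    k25)],[(k9,k12),(k5,k15),(k2,k16),(k6,k16)],[(k0,k12),(k3,k16),(k7,k16),(k4,k17)],[(k7,k12),(k4,k13),(k0,k14),(k3,
    k18)],[(k1,k12),(k8,k12),(k10,k12),(k11,k12)],[(k1,k12),(k8,k12),(k10,k12),(k11,k12)],[(k1,k12),(k8,k12),(k10,
    k12),(k11,k12)]]
    [] k0
    [[k1,k0,k0,k0,k1,k0],[k1,k0,k0,k1,k1,k0],[k1,k0,k0,k0,k1,k1],[k0,k2,k0,k0,k0,k0],[k0,k1,k0,k1,k0,k0],[k0,k0,k1,k1,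
    k0,k0],[k0,k0,k0,k2,k0,k0],[k0,k0,k0,k0,k0,k2],[k0,k0,k0,k0,k0,k3]]
    [.contra [y1,z1],.contra [y1,z1],.contra [y1,z1],.contra [z1],.ref k28 k0 [(z1,[y1,z0,z1])],.ref k1 k0 [(z1,[z0,
    z1]),(z1,[y1,y1,z1])],.contra [z1],.contra [z1],.ref k18 k0 [(z1,[y1,z0,z3])]]),
    .old (.leafM k12 [k1,k2,k3,k5] [(z1,[z0,z0,z1]),(z1,[y2,y2,y1,z2]),(z1,[z0,z1])] [(k4,k0,z1,[z1]),(k0,k4,z1,[z1])]),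
    .old (.lp [k82,k116,k54,k108,k58,k60] [k52,k52,k70,k0,k66,k66,k38,k40,k64,k64,k63,k63] k0 [[k0,k0,k0,k16],[k0,k0,k0,
    k0,k0,k0,k0,k100],[k0,k16],[],[k0,k0,k0,k0,k0,k0,k8],[k0,k0,k0,k0,k0,k0,k24],[k100],[k0,k0,k0,k0,k24,
    k8]] (nat_lit 240) k6
    [[(k8,k70),(k10,k71),(k11,k71),(k1,k82)],[(k2,k48),(k5,k68),(k6,k96),(k9,k170)],[(k6,k48),(k2,k116),(k9,k122),(k5,
    k136)],[(k0,k48),(k4,k50),(k7,k76),(k3,k116)],[(k4,k54),(k0,k68),(k7,k80),(k3,k136)],[(k9,k48),(k2,k50),(k5,k54),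
    (k6,k106)],[(k9,k58),(k2,k76),(k5,k80),(k6,k116)],[(k3,k48),(k0,k96),(k4,k106),(k7,k116)],[(k4,k48),(k7,k58),(k3,
    k122),(k0,k170)],[(k8,k58),(k10,k59),(k11,k59),(k1,k70)],[(k8,k59),(k10,k60),(k11,k60),(k1,k71)],[(k8,k59),(k10,
    k60),(k11,k60),(k1,k71)]]
    [] k0
    [[k1,k0,k1,k0,k1,k0],[k1,k0,k0,k1,k1,k0],[k1,k1,k0,k1,k1,k0],[k0,k2,k0,k0,k0,k0],[k0,k1,k1,k0,k0,k0],[k0,k1,k0,k1,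
    k0,k0],[k0,k1,k1,k1,k0,k0],[k0,k1,k2,k1,k0,k0],[k0,k0,k2,k0,k0,k0],[k0,k0,k3,k0,k0,k0],[k0,k0,k4,k0,k0,k0],[k0,k0,
    k1,k1,k0,k0],[k0,k0,k0,k2,k0,k0],[k0,k0,k0,k0,k0,k2],[k0,k0,k0,k0,k0,k3]]
    [.contra [y2,z2,z0,z1],.contra [y1,z1,z1],.contra [z1,y1],.contra [z1],.contra [y2,z0,z1,z2],.contra [y1,z0,z1],
    .contra [z1,y1,y1,y1,z1],.contra [z1,z0,z0,y1],.contra [z1],.contra [y1,z0,z0,z2],.contra [z1,z0,z2,y2],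
    .contra [y4,z0,z3,z2],.contra [z1],.contra [z1],.contra [z1,z2,z1,z1,y2]]),
    .old (.lp [k140,k80,k80,k70,k48,k60] [k0,k0,k55,k5,k30,k30,k35,k35,k46,k46,k40,k40] k0 [[k0,k0,k62],[k0,k0,k0,k0,k0,
    k0,k0,k52],[],[k0,k62],[k0,k0,k0,k0,k0,k0,k10],[k0,k0,k0,k0,k0,k0,k10],[k52],[k0,k0,k0,k0,k10,
    k10]] (nat_lit 240) k6
    [[(k8,k94),(k10,k100),(k11,k100),(k1,k140)],[(k5,k48),(k2,k85),(k6,k105),(k9,k146)],[(k6,k48),(k9,k89),(k5,k105),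
    (k2,k142)],[(k7,k50),(k4,k55),(k0,k85),(k3,k142)],[(k0,k48),(k7,k75),(k4,k80),(k3,k105)],[(k9,k54),(k2,k55),(k5,
    k80),(k6,k85)],[(k9,k49),(k2,k50),(k5,k75),(k6,k80)],[(k3,k48),(k7,k80),(k4,k85),(k0,k105)],[(k7,k49),(k4,k54),
    (k3,k89),(k0,k146)],[(k8,k48),(k10,k54),(k11,k54),(k1,k94)],[(k8,k54),(k10,k60),(k11,k60),(k1,k100)],[(k8,k54),
    (k10,k60),(k11,k60),(k1,k100)]]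
    [] k0
    [[k1,k0,k1,k0,k1,k0],[k0,k1,k1,k0,k0,k0],[k0,k1,k0,k1,k0,k0],[k0,k2,k0,k2,k0,k0],[k0,k1,k1,k1,k0,k0],[k0,k1,k0,k2,
    k0,k0],[k0,k0,k2,k0,k0,k0],[k0,k0,k1,k1,k0,k0],[k0,k0,k0,k2,k0,k0],[k0,k0,k0,k0,k0,k2],[k0,k0,k0,k0,k0,k3]]
    [.contra [z1,y1],.contra [y3,z0,z2],.contra [y3,z0,z2],.ref k30 k0 [(z1,[z0,z1]),(z2,[z1]),(z1,[y1,z0,z1])],
    .contra [z1,y1,y1,z1],.ref k31 k1 [(z1,[z0,z1]),(z1,[z1]),(z1,[y1,z0,z1])],.contra [z1],.contra [y3,z0,z2],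
    .contra [z1],.contra [z1],.contra [z1,z2,z1,y2]]),
    .old (.leafM k11 [k1,k2,k3,k5] [(z1,[z0,z0,z1]),(z1,[y3,y3,y1,z3]),(z1,[z0,z1])] [(k4,k0,z1,[z1]),(k0,k4,z1,[z1])]),
    .old (.lp [k34,k66,k14,k66,k34,k24] [k26,k26,k20,k0,k36,k36,k10,k10,k26,k26,k31,k31] k0 [[],[k0,k0,k0,k0,k0,k0,k0,
    k52],[k0,k0,k0,k0,k26],[],[],[k0,k0,k0,k26],[k52]] k120 k6
    [[(k10,k29),(k11,k29),(k1,k34),(k8,k34)],[(k5,k24),(k2,k40),(k6,k50),(k9,k86)],[(k6,k24),(k5,k50),(k9,k60),(k2,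
    k66)],[(k4,k30),(k7,k30),(k0,k40),(k3,k66)],[(k0,k24),(k4,k40),(k7,k40),(k3,k50)],[(k9,k24),(k2,k30),(k5,k40),(k6,
    k40)],[(k2,k30),(k5,k40),(k9,k50),(k6,k66)],[(k3,k24),(k4,k40),(k0,k50),(k7,k66)],[(k4,k24),(k7,k50),(k3,k60),(k0,
    k86)],[(k10,k29),(k11,k29),(k1,k34),(k8,k34)],[(k10,k24),(k11,k24),(k1,k29),(k8,k29)],[(k10,k24),(k11,k24),(k1,
    k29),(k8,k29)]]
    [] k0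
    [[k1,k0,k1,k0,k1,k0],[k1,k0,k1,k0,k1,k1],[k0,k1,k1,k0,k0,k0],[k0,k1,k0,k1,k0,k0],[k0,k2,k0,k2,k0,k0],[k0,k1,k1,k1,
    k0,k0],[k0,k0,k2,k0,k0,k0],[k0,k0,k1,k1,k0,k0],[k0,k0,k0,k0,k0,k2],[k0,k0,k0,k0,k0,k3],[k0,k0,k0,k0,k0,k4]]
    [.contra [y1,y2,y1,z3],.contra [z1,y1],.contra [y1,y1,z0,z1],.contra [y1,y1,z0,z1],.ref k33 k0 [(z1,[z0,z1]),(z2,
    [z1]),(z1,[z0,y3,y1,z3])],.contra [y1,y1,z0,z1],.contra [z1],.contra [y1,y1,z0,z1],.contra [z1],.ref k18 k0 [(z1,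
    [y1,z0,z0,z3])],.ref k32 k0 [(z1,[z0,z1]),(z2,[y1,y4,z0,z4])]]),
    .old (.lp [(nat_lit 1518),(nat_lit 1980),(nat_lit 1080),(nat_lit 1980),(nat_lit 828),(nat_lit 828)] [(nat_lit 875),
    (nat_lit 875),(nat_lit 1288),k0,(nat_lit 1094),(nat_lit 1094),(nat_lit 644),(nat_lit 644),(nat_lit 1220),
    (nat_lit 1220),(nat_lit 1220),(nat_lit 1220)] k0 [[],[k0,k0,k0,k0,k0,k0,k0,(nat_lit 1794)],[],[],[k0,k0,k0,k0,k0,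
    k0,k92],[],[(nat_lit 1794)],[k0,k0,k0,k0,k0,k92]] (nat_lit 4140) k6
    [[(k8,(nat_lit 1173)),(k10,(nat_lit 1173)),(k11,(nat_lit 1173)),(k1,(nat_lit 1518))],[(k2,(nat_lit 1105)),(k5,
    (nat_lit 1299)),(k6,(nat_lit 1749)),(k9,(nat_lit 2967))],[(k6,(nat_lit 830)),(k2,(nat_lit 1980)),(k9,
    (nat_lit 2048)),(k5,(nat_lit 2174))],[(k4,(nat_lit 886)),(k0,(nat_lit 1105)),(k7,(nat_lit 1336)),(k3,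
    (nat_lit 1980))],[(k4,(nat_lit 1080)),(k0,(nat_lit 1299)),(k7,(nat_lit 1530)),(k3,(nat_lit 2174))],[(k9,
    (nat_lit 862)),(k2,(nat_lit 886)),(k5,(nat_lit 1080)),(k6,(nat_lit 1530))],[(k2,(nat_lit 1336)),(k9,
    (nat_lit 1404)),(k5,(nat_lit 1530)),(k6,(nat_lit 2072))],[(k3,(nat_lit 830)),(k4,(nat_lit 1530)),(k0,
    (nat_lit 1749)),(k7,(nat_lit 2072))],[(k4,(nat_lit 862)),(k7,(nat_lit 1404)),(k3,(nat_lit 2048)),(k0,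
    (nat_lit 2967))],[(k8,(nat_lit 828)),(k10,(nat_lit 828)),(k11,(nat_lit 828)),(k1,(nat_lit 1173))],[(k8,
    (nat_lit 828)),(k10,(nat_lit 828)),(k11,(nat_lit 828)),(k1,(nat_lit 1173))],[(k8,(nat_lit 828)),(k10,
    (nat_lit 828)),(k11,(nat_lit 828)),(k1,(nat_lit 1173))]]
    [] k0
    [[k1,k0,k1,k0,k1,k0],[k0,k2,k0,k0,k0,k0],[k0,k1,k1,k0,k0,k0],[k0,k1,k0,k1,k0,k0],[k0,k1,k1,k1,k0,k0],[k0,k0,k2,k0,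
    k0,k0],[k0,k0,k3,k0,k0,k0],[k0,k0,k1,k1,k0,k0],[k0,k0,k0,k0,k0,k2],[k0,k0,k0,k0,k0,k3],[k0,k0,k0,k0,k0,k4]]
    [.contra [z1,y1],.contra [z1],.contra [y1,y1,z1],.contra [y1,y1,z1],.contra [y1,y1,z1],.contra [z1],
    .ref k34 k0 [(z1,[z0,z1]),(z1,[y1,y3,z3])],.contra [y1,y1,z1],.contra [z1],.ref k18 k0 [(z1,[y1,z0,z3])],
    .ref k32 k0 [(z1,[z0,z1]),(z2,[y1,y4,z4])]]),
    .old (.lp [k10,k8,k8,k8,k6,k6] [k0,k0,k1,k1,k1,k1,k1,k1,k2,k2,k2,k2] k0 [] k24 k5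
    [[(k8,k8),(k10,k8),(k11,k8),(k1,k10)],[(k9,k8),(k2,k9),(k5,k9),(k6,k9)],[(k9,k7),(k2,k8),(k5,k8),(k6,k8)],[(k3,
    k8),(k4,k8),(k7,k8),(k0,k9)],[(k3,k8),(k4,k8),(k7,k8),(k0,k9)],[(k9,k7),(k2,k8),(k5,k8),(k6,k8)],[(k9,k7),(k2,k8),
    (k5,k8),(k6,k8)],[(k3,k8),(k4,k8),(k7,k8),(k0,k9)],[(k3,k7),(k4,k7),(k7,k7),(k0,k8)],[(k8,k6),(k10,k6),(k11,k6),
    (k1,k8)],[(k8,k6),(k10,k6),(k11,k6),(k1,k8)],[(k8,k6),(k10,k6),(k11,k6),(k1,k8)]]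
    [] k0
    [[k1,k0,k0,k0,k1,k0],[k1,k0,k0,k0,k1,k1],[k0,k2,k0,k0,k0,k0],[k0,k1,k1,k0,k0,k0],[k0,k1,k0,k1,k0,k0],[k0,k0,k2,k0,
    k0,k0],[k0,k0,k1,k1,k0,k0],[k0,k0,k0,k2,k0,k0],[k0,k0,k0,k0,k0,k2],[k0,k0,k0,k0,k0,k3]]
    [.contra [y1,z1],.ref k0 k0 [(z1,[z1])],.contra [z1],.contra [y1,y1,z1],.ref k28 k0 [(z1,[y1,z0,z1])],
    .contra [z1],.ref k29 k1 [(z1,[y1,z0,z1])],.contra [z1],.contra [z1],.ref k18 k0 [(z1,[y1,z0,z3])]]),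
    .old (.lp [k6,k6,k12,k10,k7,k6] [k3,k3,k3,k3,k0,k0,k1,k1,k3,k2,k3,k3] k0 [[k0,k0,k2],[k0,k0,k0,k0,k0,k0,k1],[k0,k0,k0,
    k0,k0,k2],[k0,k2],[k0,k0,k0,k2],[k0,k0,k0,k0,k0,k0,k0,k1],[k0,k0,k0,k0,k1],[k1]] k24 k5
    [[(k1,k6),(k8,k6),(k10,k6),(k11,k6)],[(k2,k6),(k5,k7),(k9,k7),(k6,k9)],[(k9,k6),(k2,k8),(k6,k8),(k5,k9)],[(k0,k6),
    (k4,k7),(k3,k8),(k7,k8)],[(k0,k7),(k3,k9),(k4,k12),(k7,k13)],[(k2,k7),(k6,k11),(k9,k11),(k5,k12)],[(k2,k8),(k6,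
    k9),(k9,k9),(k5,k13)],[(k3,k8),(k0,k9),(k7,k9),(k4,k11)],[(k3,k6),(k0,k7),(k7,k9),(k4,k11)],[(k1,k6),(k8,k6),(k10,
    k6),(k11,k6)],[(k1,k6),(k8,k6),(k10,k6),(k11,k6)],[(k1,k6),(k8,k6),(k10,k6),(k11,k6)]]
    [] k0
    [[k1,k0,k0,k0,k1,k0],[k1,k1,k0,k0,k1,k0],[k1,k0,k0,k0,k1,k1],[k0,k2,k0,k0,k0,k0],[k0,k1,k1,k0,k0,k0],[k0,k1,k0,k1,
    k0,k0],[k0,k0,k0,k2,k0,k0],[k0,k0,k0,k0,k0,k2],[k0,k0,k0,k0,k0,k3]]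
    [.ref k35 k0 [(z1,[z1])],.ref k36 k1 [(z1,[z1])],.ref k0 k0 [(z1,[z1])],.contra [z1],.ref k29 k0 [(z1,[y1,z1])],
    .ref k28 k0 [(z1,[y1,z1])],.contra [z1],.contra [z1],.ref k18 k0 [(z1,[y1,z3])]])]⟩

/-- classes `0 0 0 0 1 1`, types `B0 B1 B1 B0 B0 B1` -/
noncomputable def cU6_86 : CertX :=
  ⟨[k8,k9,k9,k8,k24,k25],[(false,k0,[k0,k1,k2,k3,k4,k5])],[[[([z1,z0,z1,z0,z1,z1],z2)],[([z1,z0,z1,z0,z1,z0],z2),([z0,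
    z3,z0,z0,z0,z0],z2),([z0,z0,z0,z3,z0,z0],z2)],[([z1,z0,z1,z0,z1,z0],z2),([z0,z3,z0,z3,z0,z0],z4)],[([z1,z0,z1,z0,
    z1,z0],z2)],[]]],
    [.old (.leafM k3 [k0,k2,k4,k5] [] [(k1,k3,z1,[y1,z1]),(k3,k1,z1,[y1,z1])]),
    .old (.leafM k2 [k0,k1,k2,k3,k4,k5] [(z1,[z0,z1]),(z1,[z0,z0,z1]),(z1,[y3,y1,y1,z3])] []),
    .old (.lp [k24,k18,k12,k12,k12,k16] [k0,k0,k3,k3,k6,k6,k6,k6,k6,k6,k4,k4] k0 [] k48 k5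
    [[(k8,k18),(k11,k20)],[(k4,k18),(k5,k18),(k7,k18),(k2,k21)],[(k4,k15),(k5,k15),(k7,k15),(k2,k18)],[(k6,k15),(k9,
    k15),(k3,k18),(k0,k21)],[(k6,k12),(k9,k12),(k3,k15),(k0,k18)],[(k6,k12),(k9,k12),(k3,k15),(k0,k18)],[(k6,k12),(k9,
    k12),(k3,k15),(k0,k18)],[(k4,k12),(k5,k12),(k7,k12),(k2,k15)],[(k4,k12),(k5,k12),(k7,k12),(k2,k15)],[(k10,k14),
    (k1,k18)],[(k10,k16),(k1,k20)],[(k8,k14),(k11,k16)]]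
    [] k0
    [[k0,k2,k0,k0,k0,k0],[k0,k1,k0,k1,k0,k0],[k0,k1,k0,k2,k0,k0],[k0,k0,k0,k2,k0,k0],[k0,k0,k0,k3,k0,k0],[k0,k0,k0,k0,
    k0,k2]]
    [.contra [z1],.contra [z1,y2,y1,z2],.ref k1 k0 [(z1,[z0,z1]),(z1,[y3,z0,z2]),(z1,[z3,z0,y1])],.contra [z1],
    .ref k1 k0 [(z1,[z0,z1]),(z1,[y1,z0,z1]),(z1,[z1])],.contra [z1]]),
    .old (.lp [k12,k8,k4,k8,k8,k6] [k0,k0,k2,k2,k4,k4,k2,k2,k2,k2,k3,k3] k0 [] k24 k5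
    [[(k11,k9),(k8,k10)],[(k4,k8),(k5,k8),(k2,k10),(k7,k10)],[(k4,k6),(k5,k6),(k2,k8),(k7,k8)],[(k3,k8),(k6,k8),(k9,
    k8),(k0,k10)],[(k3,k6),(k6,k6),(k9,k6),(k0,k8)],[(k3,k6),(k6,k6),(k9,k6),(k0,k8)],[(k3,k8),(k6,k8),(k9,k8),(k0,
    k10)],[(k4,k6),(k5,k6),(k2,k8),(k7,k8)],[(k4,k6),(k5,k6),(k2,k8),(k7,k8)],[(k10,k7),(k1,k10)],[(k10,k6),(k1,k9)],
    [(k11,k6),(k8,k7)]]
    [] k0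
    [[k0,k2,k0,k0,k0,k0],[k0,k1,k0,k1,k0,k0],[k0,k0,k0,k2,k0,k0],[k0,k0,k0,k0,k0,k2],[k0,k0,k0,k0,k0,k3]]
    [.contra [z1],.contra [y1,y1,z1],.contra [z1],.contra [z1],.ref k2 k0 [(z1,[z0,z1]),(z1,[y1,y3,z3])]]),
    .old (.lp [k6,k8,k6,k8,k6,k12] [k3,k3,k2,k2,k3,k3,k2,k2,k3,k3,k0,k0] k0 [] k24 k5
    [[(k8,k6),(k11,k9)],[(k4,k6),(k5,k6),(k2,k7),(k7,k7)],[(k4,k7),(k5,k7),(k2,k8),(k7,k8)],[(k0,k7),(k9,k7),(k3,k8),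
    (k6,k8)],[(k0,k6),(k9,k6),(k3,k7),(k6,k7)],[(k0,k6),(k9,k6),(k3,k7),(k6,k7)],[(k0,k7),(k9,k7),(k3,k8),(k6,k8)],
    [(k4,k7),(k5,k7),(k2,k8),(k7,k8)],[(k4,k6),(k5,k6),(k2,k7),(k7,k7)],[(k1,k6),(k10,k9)],[(k1,k9),(k10,k12)],[(k8,
    k9),(k11,k12)]]
    [] k0
    [[k1,k0,k1,k0,k1,k0],[k0,k2,k0,k0,k0,k0],[k0,k1,k0,k1,k0,k0],[k0,k0,k0,k2,k0,k0]]
    [.ref k3 k0 [(z1,[z1])],.contra [z1],.ref k0 k0 [(z1,[y1,z1])],.contra [z1]])]⟩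

/-- classes `0 0 0 0 1 1`, types `B0 B1 B1 B0 C0 C0` -/
noncomputable def cU6_87 : CertX :=
  ⟨[k8,k9,k9,k8,k20,k20],[(false,k0,[k0,k1,k2,k3,k4,k5])],[[[([z1,z0,z1,z0,z1,z1],z2)],[([z1,z0,z1,z0,z1,z0],z2),([z0,
    z3,z0,z0,z0,z0],z2),([z0,z0,z0,z3,z0,z0],z2)],[([z1,z0,z1,z0,z1,z0],z2),([z0,z3,z0,z3,z0,z0],z4)],[([z1,z0,z1,z0,
    z1,z0],z2)],[]]],
    [.old (.leafM k1 [k4,k5,k0,k2] [] [(k1,k3,z1,[y1,z1]),(k3,k1,z1,[y1,z1])]),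
    .old (.leafM k2 [k0,k1,k2,k3,k4,k5] [(z1,[z0,z1]),(z1,[z0,z0,z1]),(z1,[y3,y1,y1,z3])] []),
    .old (.lp [k12,k12,k12,k18,k24,k16] [k6,k6,k6,k6,k6,k6,k3,k3,k0,k0,k4,k4] k0 [] k48 k5
    [[(k10,k14),(k8,k18)],[(k2,k12),(k4,k12),(k5,k12),(k7,k15)],[(k2,k12),(k4,k12),(k5,k12),(k7,k15)],[(k0,k12),(k3,
    k12),(k6,k15),(k9,k18)],[(k0,k12),(k3,k12),(k6,k15),(k9,k18)],[(k0,k12),(k3,k12),(k6,k15),(k9,k18)],[(k0,k15),(k3,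
    k15),(k6,k18),(k9,k21)],[(k2,k15),(k4,k15),(k5,k15),(k7,k18)],[(k2,k18),(k4,k18),(k5,k18),(k7,k21)],[(k1,k18),
    (k11,k20)],[(k10,k16),(k8,k20)],[(k1,k14),(k11,k16)]]
    [] k0
    [[k0,k2,k0,k0,k0,k0],[k0,k3,k0,k0,k0,k0],[k0,k2,k0,k1,k0,k0],[k0,k1,k0,k1,k0,k0],[k0,k0,k0,k2,k0,k0],[k0,k0,k0,k0,
    k0,k2]]
    [.contra [z1],.ref k1 k0 [(z1,[z0,z1]),(z1,[z1]),(z1,[y1,z0,z1])],.ref k1 k0 [(z1,[z0,z1]),(z1,[z3,z0,y1]),(z1,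
    [y3,z0,z2])],.contra [z1,y2,y1,z2],.contra [z1],.contra [z1]]),
    .old (.lp [k6,k8,k6,k8,k12,k6] [k3,k3,k2,k2,k3,k3,k2,k2,k0,k0,k3,k3] k0 [] k24 k5
    [[(k10,k6),(k8,k9)],[(k4,k6),(k5,k6),(k2,k7),(k7,k7)],[(k4,k7),(k5,k7),(k2,k8),(k7,k8)],[(k0,k7),(k3,k8),(k6,k8),
    (k9,k10)],[(k0,k6),(k3,k7),(k6,k7),(k9,k9)],[(k0,k6),(k3,k7),(k6,k7),(k9,k9)],[(k0,k7),(k3,k8),(k6,k8),(k9,k10)],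
    [(k4,k7),(k5,k7),(k2,k8),(k7,k8)],[(k4,k9),(k5,k9),(k2,k10),(k7,k10)],[(k1,k9),(k11,k9)],[(k10,k6),(k8,k9)],[(k1,
    k6),(k11,k6)]]
    [] k0
    [[k0,k2,k0,k0,k0,k0],[k0,k1,k0,k1,k0,k0],[k0,k0,k0,k2,k0,k0],[k0,k0,k0,k0,k0,k2],[k0,k0,k0,k0,k0,k3]]
    [.contra [z1],.contra [y1,y1,z1],.contra [z1],.contra [z1],.ref k2 k0 [(z1,[z0,z1]),(z1,[y1,y3,z3])]]),
    .old (.lp [k6,k12,k6,k8,k6,k8] [k3,k3,k0,k0,k3,k3,k2,k2,k3,k3,k2,k2] k0 [] k24 k5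
    [[(k8,k6),(k10,k7)],[(k4,k6),(k5,k6),(k7,k7),(k2,k9)],[(k4,k9),(k5,k9),(k7,k10),(k2,k12)],[(k0,k9),(k9,k9),(k6,
    k10),(k3,k12)],[(k0,k6),(k9,k6),(k6,k7),(k3,k9)],[(k0,k6),(k9,k6),(k6,k7),(k3,k9)],[(k0,k7),(k9,k7),(k6,k8),(k3,
    k10)],[(k4,k7),(k5,k7),(k7,k8),(k2,k10)],[(k4,k6),(k5,k6),(k7,k7),(k2,k9)],[(k1,k6),(k11,k7)],[(k8,k7),(k10,k8)],
    [(k1,k7),(k11,k8)]]
    [] k0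
    [[k1,k0,k1,k0,k1,k0],[k0,k1,k0,k1,k0,k0],[k0,k0,k0,k2,k0,k0],[k0,k0,k0,k0,k0,k2]]
    [.ref k3 k0 [(z1,[z1])],.ref k0 k0 [(z1,[y1,z1])],.contra [z1],.contra [z1]])]⟩

/-- classes `0 0 0 0 1 1`, types `B0 B1 B1 B0 C0 C2` -/
noncomputable def cU6_88 : CertX :=
  ⟨[k8,k9,k9,k8,k20,k22],[(false,k0,[k0,k1,k2,k3,k4,k5])],[[[([z1,z0,z1,z0,z1,z1],z2)],[]]],
    [.old (.leafM k1 [k4,k5,k0,k2] [] [(k1,k3,z1,[y1,z1]),(k3,k1,z1,[y1,z1])]),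
    .old (.lp [k2,k4,k4,k6,k2,k4] [k2,k2,k1,k1,k1,k1,k0,k0,k2,k2,k1,k1] k0 [] k12 k5
    [[(k10,k3),(k11,k3)],[(k2,k3),(k4,k3),(k5,k3),(k7,k4)],[(k2,k4),(k4,k4),(k5,k4),(k7,k5)],[(k0,k3),(k9,k3),(k3,k4),
    (k6,k5)],[(k0,k3),(k9,k3),(k3,k4),(k6,k5)],[(k0,k3),(k9,k3),(k3,k4),(k6,k5)],[(k0,k4),(k9,k4),(k3,k5),(k6,k6)],
    [(k2,k5),(k4,k5),(k5,k5),(k7,k6)],[(k2,k3),(k4,k3),(k5,k3),(k7,k4)],[(k10,k3),(k11,k3)],[(k1,k3),(k8,k3)],[(k1,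
    k3),(k8,k3)]]
    [] k0
    [[k0,k2,k0,k0,k0,k0],[k0,k1,k0,k1,k0,k0]]
    [.contra [z1],.ref k0 k0 [(z1,[y1,z1])]])]⟩

/-- classes `0 0 0 0 1 1`, types `B0 B1 B1 B0 N0 N1` -/
noncomputable def cU6_89 : CertX :=
  ⟨[k8,k9,k9,k8,k28,k29],[(false,k0,[k0,k1,k2,k3,k4,k5])],[[[([z1,z0,z1,z0,z1,z0],z2),([z0,z3,z0,z0,z0,z0],z2),([z0,
    z0,z0,z3,z0,z0],z2)],[([z1,z0,z1,z0,z1,z0],z2),([z0,z3,z0,z3,z0,z0],z4)],[([z1,z0,z1,z0,z1,z0],z2)],[]]],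
    [.old (.leafM k2 [k0,k1,k2,k3,k4,k5] [(z1,[z0,z1]),(z1,[z0,z0,z1]),(z1,[y3,y1,y1,z3])] []),
    .old (.lp [k12,k12,k12,k18,k24,k16] [k6,k6,k6,k6,k6,k6,k3,k3,k0,k0,k4,k4] k0 [] k48 k5
    [[(k8,k18)],[(k2,k12),(k4,k12),(k5,k12),(k7,k15)],[(k2,k12),(k4,k12),(k5,k12),(k7,k15)],[(k0,k12),(k3,k12),(k6,
    k15),(k9,k18)],[(k0,k12),(k3,k12),(k6,k15),(k9,k18)],[(k0,k12),(k3,k12),(k6,k15),(k9,k18)],[(k0,k15),(k3,k15),(k6,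
    k18),(k9,k21)],[(k2,k15),(k4,k15),(k5,k15),(k7,k18)],[(k2,k18),(k4,k18),(k5,k18),(k7,k21)],[(k1,k18)],[(k10,k16)],
    [(k11,k16)]]
    [] k0
    [[k0,k2,k0,k0,k0,k0],[k0,k3,k0,k0,k0,k0],[k0,k2,k0,k1,k0,k0],[k0,k1,k0,k1,k0,k0],[k0,k0,k0,k2,k0,k0],[k0,k0,k0,k0,
    k0,k2]]
    [.contra [z1],.ref k0 k0 [(z1,[z0,z1]),(z1,[z1]),(z1,[y1,z0,z1])],.ref k0 k0 [(z1,[z0,z1]),(z1,[z3,z0,y1]),(z1,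
    [y3,z0,z2])],.contra [z1,y2,y1,z2],.contra [z1],.contra [z1]]),
    .old (.lp [k4,k8,k8,k8,k12,k6] [k4,k4,k2,k2,k2,k2,k2,k2,k0,k0,k3,k3] k0 [] k24 k5
    [[(k8,k8)],[(k2,k6),(k4,k6),(k5,k6),(k7,k6)],[(k2,k8),(k4,k8),(k5,k8),(k7,k8)],[(k0,k6),(k3,k8),(k6,k8),(k9,k10)],
    [(k0,k6),(k3,k8),(k6,k8),(k9,k10)],[(k0,k6),(k3,k8),(k6,k8),(k9,k10)],[(k0,k6),(k3,k8),(k6,k8),(k9,k10)],[(k2,k8),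
    (k4,k8),(k5,k8),(k7,k8)],[(k2,k10),(k4,k10),(k5,k10),(k7,k10)],[(k1,k8)],[(k10,k6)],[(k11,k6)]]
    [] k0
    [[k0,k2,k0,k0,k0,k0],[k0,k1,k0,k1,k0,k0],[k0,k0,k0,k2,k0,k0],[k0,k0,k0,k0,k0,k2],[k0,k0,k0,k0,k0,k3]]
    [.contra [z1],.contra [y1,y1,z1],.contra [z1],.contra [z1],.ref k1 k0 [(z1,[z0,z1]),(z1,[y1,y3,z3])]]),
    .old (.lp [k12,k30,k12,k30,k12,k20] [k9,k9,k0,k0,k9,k9,k0,k0,k9,k9,k5,k5] k0 [] k60 k6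
    [[(k8,k12)],[(k4,k12),(k5,k12),(k2,k21),(k7,k21)],[(k4,k21),(k5,k21),(k2,k30),(k7,k30)],[(k0,k21),(k9,k21),(k3,
    k30),(k6,k30)],[(k0,k12),(k9,k12),(k3,k21),(k6,k21)],[(k0,k12),(k9,k12),(k3,k21),(k6,k21)],[(k0,k21),(k9,k21),(k3,
    k30),(k6,k30)],[(k4,k21),(k5,k21),(k2,k30),(k7,k30)],[(k4,k12),(k5,k12),(k2,k21),(k7,k21)],[(k1,k12)],[(k10,k20)],
    [(k11,k20)]]
    [] k0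
    [[k1,k0,k1,k0,k1,k0],[k0,k0,k0,k0,k0,k2]]
    [.ref k2 k0 [(z1,[z1])],.contra [z1]])]⟩

/-- classes `0 0 0 0 1 1`, types `B0 B1 B1 B0 N0 N2` -/
noncomputable def cU6_90 : CertX :=
  ⟨[k8,k9,k9,k8,k28,k30],[(false,k0,[k0,k1,k2,k3,k4,k5])],[[[([z1,z0,z1,z0,z1,z1],z2)],[]]],
    [.old (.leafM k3 [k0,k2,k4,k5] [] [(k1,k3,z1,[y1,z1]),(k3,k1,z1,[y1,z1])]),
    .old (.lp [k2,k4,k4,k6,k2,k4] [k2,k2,k1,k1,k1,k1,k0,k0,k2,k2,k1,k1] k0 [] k12 k5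
    [[(k11,k3)],[(k2,k3),(k4,k3),(k5,k3),(k7,k4)],[(k2,k4),(k4,k4),(k5,k4),(k7,k5)],[(k0,k3),(k9,k3),(k3,k4),(k6,k5)],
    [(k0,k3),(k9,k3),(k3,k4),(k6,k5)],[(k0,k3),(k9,k3),(k3,k4),(k6,k5)],[(k0,k4),(k9,k4),(k3,k5),(k6,k6)],[(k2,k5),
    (k4,k5),(k5,k5),(k7,k6)],[(k2,k3),(k4,k3),(k5,k3),(k7,k4)],[(k10,k3)],[(k1,k3)],[(k8,k3)]]
    [] k0
    [[k0,k2,k0,k0,k0,k0],[k0,k1,k0,k1,k0,k0]]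
    [.contra [z1],.ref k0 k0 [(z1,[y1,z1])]])]⟩

/-- classes `0 0 0 0 1 1`, types `B0 B1 B1 B0 S0 S0` -/
noncomputable def cU6_91 : CertX :=
  ⟨[k8,k9,k9,k8,k16,k16],[(false,k0,[k0,k1,k2,k3,k4,k5])],[[[([z1,z0,z1,z0,z1,z1],z2)],[([z1,z0,z1,z0,z1,z0],z2),([z0,
    z3,z0,z0,z0,z0],z2),([z0,z0,z0,z3,z0,z0],z2)],[([z1,z0,z1,z0,z1,z0],z2),([z0,z3,z0,z3,z0,z0],z4)],[([z3,z3,z3,z3,
    z3,z0],z10)],[]]],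
    [.old (.leafM k1 [k4,k5,k0,k2] [] [(k1,k3,z1,[y1,z1]),(k3,k1,z1,[y1,z1])]),
    .old (.leafM k2 [k0,k1,k2,k3,k4,k5] [(z1,[z0,z1]),(z1,[z0,z0,z1]),(z1,[y3,y1,y1,z3])] []),
    .old (.lp [k18,k12,k12,k18,k18,k16] [k0,k0,k3,k3,k3,k3,k0,k0,k0,k0,k1,k1] k0 [] k48 k5
    [[(k10,k17),(k11,k17),(k1,k18),(k8,k18)],[(k2,k15),(k4,k15),(k5,k15),(k7,k18)],[(k2,k12),(k4,k12),(k5,k12),(k7,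
    k15)],[(k3,k12),(k0,k15),(k6,k15),(k9,k15)],[(k3,k12),(k0,k15),(k6,k15),(k9,k15)],[(k3,k12),(k0,k15),(k6,k15),(k9,
    k15)],[(k3,k15),(k0,k18),(k6,k18),(k9,k18)],[(k2,k15),(k4,k15),(k5,k15),(k7,k18)],[(k2,k15),(k4,k15),(k5,k15),(k7,
    k18)],[(k10,k17),(k11,k17),(k1,k18),(k8,k18)],[(k10,k16),(k11,k16),(k1,k17),(k8,k17)],[(k10,k16),(k11,k16),(k1,
    k17),(k8,k17)]]
    [] k0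
    [[k0,k2,k0,k0,k0,k0],[k0,k3,k0,k0,k0,k0],[k0,k2,k0,k1,k0,k0],[k0,k1,k0,k1,k0,k0],[k0,k0,k0,k2,k0,k0],[k0,k0,k0,k0,
    k0,k2]]
    [.contra [z1],.ref k1 k0 [(z1,[z0,z1]),(z1,[z1]),(z1,[y1,z0,z1])],.ref k1 k0 [(z1,[z0,z1]),(z1,[z3,z0,y1]),(z1,
    [y3,z0,z2])],.contra [z1,y2,y1,z2],.contra [z1],.contra [z1]]),
    .old (.lp [k20,k16,k8,k16,k20,k14] [k0,k0,k2,k2,k6,k6,k2,k2,k0,k0,k3,k3] k0 [[],[],[],[],[],[],[],[],[k0,k0,k0,k0,k0,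
    k0,k0,k0,k0,k0,k6],[],[],[k0,k0,k0,k0,k0,k0,k0,k0,k0,k6]] k48 k5
    [[(k8,k14),(k10,k17),(k11,k17),(k1,k20)],[(k4,k14),(k5,k14),(k2,k18),(k7,k18)],[(k4,k12),(k5,k12),(k2,k16),(k7,
    k16)],[(k3,k16),(k6,k16),(k0,k18),(k9,k18)],[(k3,k12),(k6,k12),(k0,k14),(k9,k14)],[(k3,k12),(k6,k12),(k0,k14),(k9,
    k14)],[(k3,k16),(k6,k16),(k0,k18),(k9,k18)],[(k4,k12),(k5,k12),(k2,k16),(k7,k16)],[(k4,k14),(k5,k14),(k2,k18),(k7,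
    k18)],[(k1,k14),(k10,k17),(k11,k17),(k8,k20)],[(k11,k14),(k1,k17),(k8,k17),(k10,k20)],[(k10,k14),(k1,k17),(k8,
    k17),(k11,k20)]]
    [] k0
    [[k1,k0,k1,k0,k1,k0],[k0,k2,k0,k0,k0,k0],[k0,k1,k0,k1,k0,k0],[k0,k0,k0,k2,k0,k0],[k0,k0,k0,k0,k0,k2]]
    [.ref k2 k0 [(z1,[z1]),(z1,[y3,z1])],.contra [z1],.ref k0 k0 [(z1,[y1,z0,z1])],.contra [z1],.contra [z1]]),
    .old (.lp [k10,k8,k4,k8,k10,k6] [k0,k0,k1,k1,k3,k3,k1,k1,k0,k0,k2,k2] k0 [] k24 k5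
    [[(k10,k8),(k11,k8),(k1,k10),(k8,k10)],[(k4,k7),(k5,k7),(k2,k9),(k7,k9)],[(k4,k6),(k5,k6),(k2,k8),(k7,k8)],[(k3,
    k8),(k6,k8),(k0,k9),(k9,k9)],[(k3,k6),(k6,k6),(k0,k7),(k9,k7)],[(k3,k6),(k6,k6),(k0,k7),(k9,k7)],[(k3,k8),(k6,k8),
    (k0,k9),(k9,k9)],[(k4,k6),(k5,k6),(k2,k8),(k7,k8)],[(k4,k7),(k5,k7),(k2,k9),(k7,k9)],[(k10,k8),(k11,k8),(k1,k10),
    (k8,k10)],[(k10,k6),(k11,k6),(k1,k8),(k8,k8)],[(k10,k6),(k11,k6),(k1,k8),(k8,k8)]]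
    [] k0
    [[k0,k2,k0,k0,k0,k0],[k0,k1,k0,k1,k0,k0],[k0,k0,k0,k2,k0,k0],[k0,k0,k0,k0,k0,k2],[k0,k0,k0,k0,k0,k3]]
    [.contra [z1],.ref k0 k0 [(z1,[y1,z1])],.contra [z1],.contra [z1],.ref k3 k0 [(z1,[y1,z3])]])]⟩

/-- the certificates of this file -/
noncomputable def lU6_9 : List CertX :=
  [cU6_83, cU6_84, cU6_85, cU6_86, cU6_87, cU6_88, cU6_89, cU6_90, cU6_91]

theorem gU6_9 : allF (chkE 6 ttU6) lU6_9 = true := by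
  decide +kernel

end Pool.Agent.Lib_MP_fa6e45
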