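import Pool.Agent.Lib_MP_fa6e45.CY3_0
import Pool.Agent.Lib_MP_fa6e45.CY4_0
import Pool.Agent.Lib_MP_fa6e45.CY5_0
import Pool.Agent.Lib_MP_fa6e45.CY5_1
import Pool.Agent.Lib_MP_fa6e45.CY5_2
import Pool.Agent.Lib_MP_fa6e45.CY5_3
import Pool.Agent.Lib_MP_fa6e45.CY5_4
import Pool.Agent.Lib_MP_fa6e45.CY6_0
import Pool.Agent.Lib_MP_fa6e45.CY6_1
import Pool.Agent.Lib_MP_fa6e45.CY6_2
import Pool.Agent.Lib_MP_fa6e45.CY6_3
import Pool.Agent.Lib_MP_fa6e45.CY6_4
import Pool.Agent.Lib_MP_fa6e45.CY6_5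
import Pool.Agent.Lib_MP_fa6e45.CY6_6
import Pool.Agent.Lib_MP_fa6e45.CY6_7
import Pool.Agent.Lib_MP_fa6e45.CY6_8
import Pool.Agent.Lib_MP_fa6e45.CY6_9
import Pool.Agent.Lib_MP_fa6e45.CY6_10
import Pool.Agent.Lib_MP_fa6e45.CY6_11
import Pool.Agent.Lib_MP_fa6e45.CY6_12
import Pool.Agent.Lib_MP_fa6e45.CY6_13
import Pool.Agent.Lib_MP_fa6e45.CY6_14
import Pool.Agent.Lib_MP_fa6e45.CY6_15
import Pool.Agent.Lib_MP_fa6e45.CY6_16
import Pool.Agent.Lib_MP_fa6e45.CY6_17
import Pool.Agent.Lib_MP_fa6e45.CY6_18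
import Pool.Agent.Lib_MP_fa6e45.CY6_19
import Pool.Agent.Lib_MP_fa6e45.CY6_20
import Pool.Agent.Lib_MP_fa6e45.CY6_21
import Pool.Agent.Lib_MP_fa6e45.CY6_22
import Pool.Agent.Lib_MP_fa6e45.CY6_23
import Pool.Agent.Lib_MP_fa6e45.CY6_24
import Pool.Agent.Lib_MP_fa6e45.CY6_25
import Pool.Agent.Lib_MP_fa6e45.CY6_26
import Pool.Agent.Lib_MP_fa6e45.CY6_27
import Pool.Agent.Lib_MP_fa6e45.CY6_28
import Pool.Agent.Lib_MP_fa6e45.CY6_29
import Pool.Agent.Lib_MP_fa6e45.CY6_30
import Pool.Agent.Lib_MP_fa6e45.CY6_31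
import Pool.Agent.Lib_MP_fa6e45.CY6_32
import Pool.Agent.Lib_MP_fa6e45.CY6_33
import Pool.Agent.Lib_MP_fa6e45.CY6_34
import Pool.Agent.Lib_MP_fa6e45.CY6_35
import Pool.Agent.Lib_MP_fa6e45.CY6_36
import Pool.Agent.Lib_MP_fa6e45.CSTab
import Pool.Agent.Lib_MP_fa6e45.CX7
import Pool.Agent.Lib_MP_fa6e45.CXTg

/-!
MP_fa6e45_co, stage 7: all patterns of the tables are solved.
-/

namespace Pool.Agent.Lib_MP_fa6e45

/-- the certificates solve their patterns -/
theorem cy_sound {m : ℕ} [NeZero m] (hm : 3 ≤ m) (hm' : m ≤ 8) {tt : List TorT}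
    (htt : ∀ T ∈ tt, T.OK m) {L : List CertX} {tab : List ℕ}
    (hL : ∀ C ∈ L, chkE m tt C = true) (ht : tab = L.map fun C => encW C.w) :
    ∀ x ∈ tab, NodeU m (decW m x) [] := by
  intro x hx
  rw [ht] at hx
  obtain ⟨C, hC, rfl⟩ := List.mem_map.1 hx
  have h := chkE_sound hm hm' htt (hL C hC)
  rw [← h.1]
  intro n P S b M h1 h2
  exact h.2 P S b M h1 h2

theorem cy_all {m : ℕ} [NeZero m] {tt : List TorT} {L : List CertX}
    (h : allF (chkE m tt) L = true) : ∀ C ∈ L, chkE m tt C = true := by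
  rw [allF_eq] at h
  exact List.all_eq_true.1 h

/-- certificates for `3` arcs, part 0 -/
noncomputable def lU3g0 : List CertX :=
  lU3_0

theorem lU3g0_ok : ∀ C ∈ lU3g0, chkE 3 ttU3 C = true := by
  unfold lU3g0
  exact cy_all gU3_0

/-- all certificates for `3` arcs -/
noncomputable def lU3 : List CertX :=
  lU3g0

theorem lU3_ok : ∀ C ∈ lU3, chkE 3 ttU3 C = true := by
  unfold lU3
  exact lU3g0_ok

theorem tabU3_eq : tabT3 = lU3.map fun C => encW C.w := by
  decide +kernel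

/-- all patterns with `3` arcs are solved -/
theorem certU3 : ∀ x ∈ tabT3, NodeU 3 (decW 3 x) [] :=
  cy_sound (by norm_num) (by norm_num) ttU3_ok lU3_ok tabU3_eq

/-- certificates for `4` arcs, part 0 -/
noncomputable def lU4g0 : List CertX :=
  lU4_0

theorem lU4g0_ok : ∀ C ∈ lU4g0, chkE 4 ttU4 C = true := by
  unfold lU4g0
  exact cy_all gU4_0

/-- all certificates for `4` arcs -/
noncomputable def lU4 : List CertX :=
  lU4g0

theorem lU4_ok : ∀ C ∈ lU4, chkE 4 ttU4 C = true := by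
  unfold lU4
  exact lU4g0_ok

theorem tabU4_eq : tabT4 = lU4.map fun C => encW C.w := by
  decide +kernel

/-- all patterns with `4` arcs are solved -/
theorem certU4 : ∀ x ∈ tabT4, NodeU 4 (decW 4 x) [] :=
  cy_sound (by norm_num) (by norm_num) ttU4_ok lU4_ok tabU4_eq

/-- certificates for `5` arcs, part 0 -/
noncomputable def lU5g0 : List CertX :=
  lU5_0 ++ (lU5_1 ++ (lU5_2 ++ (lU5_3 ++ lU5_4)))

theorem lU5g0_ok : ∀ C ∈ lU5g0, chkE 5 ttU5 C = true := by
  unfold lU5g0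
  intro C hC
  rcases List.mem_append.1 hC with hC | hC
  · exact cy_all gU5_0 C hC
  rcases List.mem_append.1 hC with hC | hC
  · exact cy_all gU5_1 C hC
  rcases List.mem_append.1 hC with hC | hC
  · exact cy_all gU5_2 C hC
  rcases List.mem_append.1 hC with hC | hC
  · exact cy_all gU5_3 C hC
  exact cy_all gU5_4 C hC

/-- all certificates for `5` arcs -/
noncomputable def lU5 : List CertX :=
  lU5g0

theorem lU5_ok : ∀ C ∈ lU5, chkE 5 ttU5 C = true := by
  unfold lU5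
  exact lU5g0_ok

theorem tabU5_eq : tabT5 = lU5.map fun C => encW C.w := by
  decide +kernel

/-- all patterns with `5` arcs are solved -/
theorem certU5 : ∀ x ∈ tabT5, NodeU 5 (decW 5 x) [] :=
  cy_sound (by norm_num) (by norm_num) ttU5_ok lU5_ok tabU5_eq

/-- certificates for `6` arcs, part 0 -/
noncomputable def lU6g0 : List CertX :=
  lU6_0 ++ (lU6_1 ++ (lU6_2 ++ (lU6_3 ++ (lU6_4 ++ (lU6_5 ++ (lU6_6 ++ (lU6_7 ++ (lU6_8 ++ (lU6_9 ++ (lU6_10
    ++ (lU6_11 ++ (lU6_12 ++ (lU6_13 ++ (lU6_14 ++ lU6_15))))))))))))))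

theorem lU6g0_ok : ∀ C ∈ lU6g0, chkE 6 ttU6 C = true := by
  unfold lU6g0
  intro C hC
  rcases List.mem_append.1 hC with hC | hC
  · exact cy_all gU6_0 C hC
  rcases List.mem_append.1 hC with hC | hC
  · exact cy_all gU6_1 C hC
  rcases List.mem_append.1 hC with hC | hC
  · exact cy_all gU6_2 C hC
  rcases List.mem_append.1 hC with hC | hC
  · exact cy_all gU6_3 C hC
  rcases List.mem_append.1 hC with hC | hC
  · exact cy_all gU6_4 C hC
  rcases List.mem_append.1 hC with hC | hC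
  · exact cy_all gU6_5 C hC
  rcases List.mem_append.1 hC with hC | hC
  · exact cy_all gU6_6 C hC
  rcases List.mem_append.1 hC with hC | hC
  · exact cy_all gU6_7 C hC
  rcases List.mem_append.1 hC with hC | hC
  · exact cy_all gU6_8 C hC
  rcases List.mem_append.1 hC with hC | hC
  · exact cy_all gU6_9 C hC
  rcases List.mem_append.1 hC with hC | hC
  · exact cy_all gU6_10 C hC
  rcases List.mem_append.1 hC with hC | hC
  · exact cy_all gU6_11 C hC
  rcases List.mem_append.1 hC with hC | hC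
  · exact cy_all gU6_12 C hC
  rcases List.mem_append.1 hC with hC | hC
  · exact cy_all gU6_13 C hC
  rcases List.mem_append.1 hC with hC | hC
  · exact cy_all gU6_14 C hC
  exact cy_all gU6_15 C hC

/-- certificates for `6` arcs, part 1 -/
noncomputable def lU6g1 : List CertX :=
  lU6_16 ++ (lU6_17 ++ (lU6_18 ++ (lU6_19 ++ (lU6_20 ++ (lU6_21 ++ (lU6_22 ++ (lU6_23 ++ (lU6_24 ++ (lU6_25
    ++ (lU6_26 ++ (lU6_27 ++ (lU6_28 ++ (lU6_29 ++ (lU6_30 ++ lU6_31))))))))))))))

theorem lU6g1_ok : ∀ C ∈ lU6g1, chkE 6 ttU6 C = true := by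
  unfold lU6g1
  intro C hC
  rcases List.mem_append.1 hC with hC | hC
  · exact cy_all gU6_16 C hC
  rcases List.mem_append.1 hC with hC | hC
  · exact cy_all gU6_17 C hC
  rcases List.mem_append.1 hC with hC | hC
  · exact cy_all gU6_18 C hC
  rcases List.mem_append.1 hC with hC | hC
  · exact cy_all gU6_19 C hC
  rcases List.mem_append.1 hC with hC | hC
  · exact cy_all gU6_20 C hC
  rcases List.mem_append.1 hC with hC | hC
  · exact cy_all gU6_21 C hC
  rcases List.mem_append.1 hC with hC | hC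
  · exact cy_all gU6_22 C hC
  rcases List.mem_append.1 hC with hC | hC
  · exact cy_all gU6_23 C hC
  rcases List.mem_append.1 hC with hC | hC
  · exact cy_all gU6_24 C hC
  rcases List.mem_append.1 hC with hC | hC
  · exact cy_all gU6_25 C hC
  rcases List.mem_append.1 hC with hC | hC
  · exact cy_all gU6_26 C hC
  rcases List.mem_append.1 hC with hC | hC
  · exact cy_all gU6_27 C hC
  rcases List.mem_append.1 hC with hC | hC
  · exact cy_all gU6_28 C hC
  rcases List.mem_append.1 hC with hC | hC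
  · exact cy_all gU6_29 C hC
  rcases List.mem_append.1 hC with hC | hC
  · exact cy_all gU6_30 C hC
  exact cy_all gU6_31 C hC

/-- certificates for `6` arcs, part 2 -/
noncomputable def lU6g2 : List CertX :=
  lU6_32 ++ (lU6_33 ++ (lU6_34 ++ (lU6_35 ++ lU6_36)))

theorem lU6g2_ok : ∀ C ∈ lU6g2, chkE 6 ttU6 C = true := by
  unfold lU6g2
  intro C hC
  rcases List.mem_append.1 hC with hC | hC
  · exact cy_all gU6_32 C hC
  rcases List.mem_append.1 hC with hC | hC
  · exact cy_all gU6_33 C hC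
  rcases List.mem_append.1 hC with hC | hC
  · exact cy_all gU6_34 C hC
  rcases List.mem_append.1 hC with hC | hC
  · exact cy_all gU6_35 C hC
  exact cy_all gU6_36 C hC

/-- all certificates for `6` arcs -/
noncomputable def lU6 : List CertX :=
  lU6g0 ++ (lU6g1 ++ lU6g2)

theorem lU6_ok : ∀ C ∈ lU6, chkE 6 ttU6 C = true := by
  unfold lU6
  intro C hC
  rcases List.mem_append.1 hC with hC | hC
  · exact lU6g0_ok C hC
  rcases List.mem_append.1 hC with hC | hC
  · exact lU6g1_ok C hC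
  exact lU6g2_ok C hC

theorem tabU6_eq : tabT6 = lU6.map fun C => encW C.w := by
  decide +kernel

/-- all patterns with `6` arcs are solved -/
theorem certU6 : ∀ x ∈ tabT6, NodeU 6 (decW 6 x) [] :=
  cy_sound (by norm_num) (by norm_num) ttU6_ok lU6_ok tabU6_eq

end Pool.Agent.Lib_MP_fa6e45
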