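import Pool.Agent.Lib_MP_fa6e45.CU9
import Pool.Agent.Lib_MP_fa6e45.Y4
import Pool.Agent.Lib_MP_fa6e45.W1

/-!
MP_fa6e45_co, stage 7: corners of constant status, as a special case of the theorem on at most six active corners (at
most six corners of the polygon can be of degree at least three in all tiles). The certificates are hypotheses.
-/

open Set MeasureTheory Complex
open scoped Topology

namespace Pool.Agent.Lib_MP_fa6e45

variable {n : ℕ} {P : Polygon n} {ι : Type}

/-- at most six corners have degree at least three in all tiles -/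
theorem card_le_sixM [NeZero n] {a l : ZMod n → ℝ} (K : Comb n a l ι) (F : Finset (ZMod n))
    (h2 : ∀ c, 2 ≤ K.deg c) (h3 : ∀ c, c.2 ∈ F → 3 ≤ K.deg c) : F.card ≤ 6 := by
  have h := K.count (fun i => if i ∈ F then 3 else 2) (fun i => by split_ifs <;> omega) (fun c => by
    by_cases hc : c.2 ∈ F
    · rw [if_pos hc]
      exact h3 c hc
    · rw [if_neg hc]
      exact h2 c)
  have h4 : ∑ i : ZMod n, (1 : ℝ) / (((if i ∈ F then 3 else 2 : ℕ) : ℕ) : ℝ) =
      (n : ℝ) / 2 - (F.card : ℝ) / 6 := by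
    have h5 : ∀ i : ZMod n, (1 : ℝ) / (((if i ∈ F then 3 else 2 : ℕ) : ℕ) : ℝ) =
        1 / 2 - (if i ∈ F then (1 : ℝ) / 6 else 0) := by
      intro i
      split_ifs <;> norm_num
    rw [Finset.sum_congr rfl fun i _ => h5 i, Finset.sum_sub_distrib, Finset.sum_const,
      Finset.card_univ, ZMod.card, ← Finset.sum_filter, Finset.sum_const, Finset.filter_mem_eq_inter,
      Finset.univ_inter]
    simp only [nsmul_eq_mul]
    ring
  rw [h4] at h
  have h6 : (F.card : ℝ) ≤ 6 := by linarith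
  exact_mod_cast h6

/-- corners of degree two in all tiles or in none, more than six corners -/
theorem hom_constU (c3 : ∀ x ∈ tabT3, NodeU 3 (decW 3 x) [])
    (c4 : ∀ x ∈ tabT4, NodeU 4 (decW 4 x) []) (c5 : ∀ x ∈ tabT5, NodeU 5 (decW 5 x) [])
    (c6 : ∀ x ∈ tabT6, NodeU 6 (decW 6 x) []) [NeZero n] (hc : P.CCW) (hn : 7 ≤ n)
    (K : CombA n P.ang P.len ι) (hH : K.toComb.Hom) : HasPeriodic P := by
  classical
  obtain ⟨t0⟩ := K.nonempty
  obtain ⟨F, hFdef⟩ : ∃ F : Finset (ZMod n), F = Finset.univ.filter fun i =>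
    ∀ t, K.toComb.deg (t, i) ≠ 2 := ⟨_, rfl⟩
  have hF : ∀ c : ι × ZMod n, c.2 ∈ F ↔ K.toComb.deg c ≠ 2 := by
    intro c
    rw [hFdef, Finset.mem_filter]
    constructor
    · intro h
      exact h.2 c.1
    · intro h
      exact ⟨Finset.mem_univ _, fun t ht => h (hH c.2 ⟨t, ht⟩ c.1)⟩
  have hdeg : ∀ c, K.toComb.deg (K.nx c) = K.toComb.deg c := by
    intro c
    unfold Comb.deg
    exact Function.minimalPeriod_apply
      (Function.minimalPeriod_pos_iff_mem_periodicPts.1 (K.deg_pos c))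
  refine hom_periodicU c3 c4 c5 c6 hc hn K F ?_ (fun x => ?_) (fun x hx => ?_)
  · refine card_le_sixM K.toComb F (fun c => K.toComb.two_le c) fun c hcF => ?_
    have h2 : 2 ≤ K.toComb.deg c := K.toComb.two_le c
    have h3 := (hF c).1 hcF
    omega
  · rw [hF, hF, hdeg]
  · by_contra h
    exact hx ((hF x).2 h)

end Pool.Agent.Lib_MP_fa6e45
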