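import Pool.Agent.Lib_MP_fa6e45.CYM0

/-!
MP_fa6e45_co, stage 7: polygons with more than six corners and corners of constant status (the certificates are
hypotheses).
-/

open Set MeasureTheory Complex
open scoped Topology

namespace Pool.Agent.Lib_MP_fa6e45

variable {n : ℕ}

theorem constU_ccw (c3 : ∀ x ∈ tabT3, NodeU 3 (decW 3 x) [])
    (c4 : ∀ x ∈ tabT4, NodeU 4 (decW 4 x) []) (c5 : ∀ x ∈ tabT5, NodeU 5 (decW 5 x) [])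
    (c6 : ∀ x ∈ tabT6, NodeU 6 (decW 6 x) []) (P : Polygon n) (hc : P.CCW) (hn : 7 ≤ n)
    {𝒮 : Set (Set ℂ)} (h : P.IsTiling 𝒮)
    (he : P.EdgeToEdge 𝒮) (g : Set ℂ → ℂ ≃ᵢ ℂ) (hg : ∀ t ∈ 𝒮, t = g t '' P.region)
    (hu : ∀ i : ZMod n, ∀ s ∈ 𝒮, ∀ t ∈ 𝒮, ThreeAt 𝒮 (g s (P.vertex i)) →
      ThreeAt 𝒮 (g t (P.vertex i))) :
    ∃ 𝒯 : Set (Set ℂ), P.IsTiling 𝒯 ∧ Periodic 𝒯 := by
  haveI : NeZero n := ⟨by have := P.three_le; omega⟩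
  obtain ⟨T, hT⟩ := uniform_til P hc h he g hg hu
  obtain ⟨K, hK⟩ := T.combA hc
  refine hom_constU c3 c4 c5 c6 hc hn K ?_
  rintro i ⟨s, hs⟩ t
  rw [hK] at hs ⊢
  exact hT s t i hs

/-- a polygon with more than six corners and an edge-to-edge tiling in which every corner of the polygon has constant
status -/
theorem constU_thm (c3 : ∀ x ∈ tabT3, NodeU 3 (decW 3 x) [])
    (c4 : ∀ x ∈ tabT4, NodeU 4 (decW 4 x) []) (c5 : ∀ x ∈ tabT5, NodeU 5 (decW 5 x) [])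
    (c6 : ∀ x ∈ tabT6, NodeU 6 (decW 6 x) []) (P : Polygon n) (hn : 7 ≤ n) {𝒮 : Set (Set ℂ)}
    (h : P.IsTiling 𝒮) (he : P.EdgeToEdge 𝒮) (g : Set ℂ → ℂ ≃ᵢ ℂ)
    (hg : ∀ t ∈ 𝒮, t = g t '' P.region)
    (hu : ∀ i : ZMod n, ∀ s ∈ 𝒮, ∀ t ∈ 𝒮, ThreeAt 𝒮 (g s (P.vertex i)) →
      ThreeAt 𝒮 (g t (P.vertex i))) :
    ∃ 𝒯 : Set (Set ℂ), P.IsTiling 𝒯 ∧ Periodic 𝒯 := by
  rcases P.ccw_or with hc | hc
  · exact constU_ccw c3 c4 c5 c6 P hc hn h he g hg hu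
  have hT : ∀ 𝒯 : Set (Set ℂ), P.rev.IsTiling 𝒯 ↔ P.IsTiling 𝒯 := by
    intro 𝒯
    constructor
    · rintro ⟨h1, h2, h3⟩
      exact ⟨fun t ht => by simpa only [P.rev_region] using h1 t ht, h2, h3⟩
    · rintro ⟨h1, h2, h3⟩
      exact ⟨fun t ht => by simpa only [P.rev_region] using h1 t ht, h2, h3⟩
  have hE : P.rev.EdgeToEdge 𝒮 := by
    intro g k hg hk i j
    rw [P.rev_region] at hg hk
    have h1 := he g k hg hk (-i) (-j - 1)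
    rw [openSegment_symm] at h1
    have e1 : -j - 1 + 1 = -j := by ring
    have e2 : -(j + 1) = -j - 1 := by ring
    rw [e1] at h1
    change g (P.vertex (-i)) ∉ openSegment ℝ (k (P.vertex (-j))) (k (P.vertex (-(j + 1))))
    rw [e2]
    exact h1
  have hg' : ∀ t ∈ 𝒮, t = g t '' P.rev.region := by
    intro t ht
    rw [P.rev_region]
    exact hg t ht
  have hu' : ∀ i : ZMod n, ∀ s ∈ 𝒮, ∀ t ∈ 𝒮, ThreeAt 𝒮 (g s (P.rev.vertex i)) →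
      ThreeAt 𝒮 (g t (P.rev.vertex i)) := fun i s hs t ht => hu (-i) s hs t ht
  obtain ⟨𝒯, h1, h2⟩ := constU_ccw c3 c4 c5 c6 P.rev hc hn ((hT 𝒮).2 h) hE g hg' hu'
  exact ⟨𝒯, (hT 𝒯).1 h1, h2⟩

end Pool.Agent.Lib_MP_fa6e45
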