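import Pool.Agent.Lib_MP_fa6e45.CYM1
import Pool.Agent.Lib_MP_fa6e45.R

/-!
MP_fa6e45_co, stage 7: the main theorem, with the certificates as hypotheses.
-/

open Set MeasureTheory Complex
open scoped Topology

namespace Pool.Agent.Lib_MP_fa6e45

variable {n : ℕ}

/-- a polygon without complementary corners has at most six corners -/
theorem le_six_complU (P : Polygon n) {𝒮 : Set (Set ℂ)} (h : P.IsTiling 𝒮)
    (he : P.EdgeToEdge 𝒮) (h0 : ∀ i, ¬ P.Complementary i) : n ≤ 6 := by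
  haveI : NeZero n := ⟨by have := P.three_le; omega⟩
  have h1 := (main_thm P h he).1
  have h2 : {i : ZMod n | ¬ P.Complementary i} = Set.univ := Set.eq_univ_of_forall h0
  rw [h2, Set.ncard_univ, Nat.card_zmod] at h1
  exact h1

/-- polygons with at most `k` corners, or without complementary corners, or with corners of constant status, or with at
most six corners in a set `M` such that corners in `M` do not meet corners outside `M` and fewer than three tiles meet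
at corners outside `M` -/
theorem mainK {k : ℕ} (hk6 : 6 ≤ k) (c3 : ∀ x ∈ tabT3, NodeU 3 (decW 3 x) [])
    (c4 : ∀ x ∈ tabT4, NodeU 4 (decW 4 x) []) (c5 : ∀ x ∈ tabT5, NodeU 5 (decW 5 x) [])
    (c6 : ∀ x ∈ tabT6, NodeU 6 (decW 6 x) []) (P : Polygon n) {𝒮 : Set (Set ℂ)}
    (h : P.IsTiling 𝒮) (he : P.EdgeToEdge 𝒮)
    (hk : n ≤ k → ∃ 𝒯 : Set (Set ℂ), P.IsTiling 𝒯 ∧ Periodic 𝒯)
    (hs : n ≤ k ∨ (∀ i : ZMod n, ¬ P.Complementary i) ∨
      ∃ g : Set ℂ → ℂ ≃ᵢ ℂ, (∀ t ∈ 𝒮, t = g t '' P.region) ∧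
        ((∀ i : ZMod n, (∀ t ∈ 𝒮, ThreeAt 𝒮 (g t (P.vertex i))) ∨
            ∀ t ∈ 𝒮, ¬ ThreeAt 𝒮 (g t (P.vertex i))) ∨
          ∃ M : Finset (ZMod n), M.card ≤ 6 ∧
            (∀ s ∈ 𝒮, ∀ t ∈ 𝒮, ∀ i j : ZMod n, g s (P.vertex i) = g t (P.vertex j) →
              i ∈ M → j ∈ M) ∧
            ∀ t ∈ 𝒮, ∀ i : ZMod n, i ∉ M → ¬ ThreeAt 𝒮 (g t (P.vertex i)))) :
    ∃ 𝒯 : Set (Set ℂ), P.IsTiling 𝒯 ∧ Periodic 𝒯 := by
  rcases hs with h1 | h1 | ⟨g, hg, h1⟩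
  · exact hk h1
  · exact hk ((le_six_complU P h he h1).trans hk6)
  rcases Nat.lt_or_ge n 7 with hn | hn
  · exact hk (by omega)
  rcases h1 with h1 | ⟨M, hM6, hM, hu⟩
  · refine constU_thm c3 c4 c5 c6 P hn h he g hg fun i s hs' t ht h3 => ?_
    rcases h1 i with hi | hi
    · exact hi t ht
    · exact absurd h3 (hi s hs')
  · exact main8_thm c3 c4 c5 c6 P hn h he g hg M hM6 hM hu

end Pool.Agent.Lib_MP_fa6e45
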