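import Pool.Agent.Lib_MP_fa6e45.CVX

/-!
MP_fa6e45_co, stage 8: further nodes for polygons all of whose sides are arcs (sides in classes, any number of
classes): the polygon with the given angles does not close or is not simple. Definitions.

`D a j = c + q t` (list `lin`), the direction of side `j` is `π (α + β t) / D` (list `gdirs D lin`).
-/

open Set MeasureTheory Complex
open scoped Topology

namespace Pool.Agent.Lib_MP_fa6e45

/-- class of side `j` -/
def clW (w : List ℕ) (j : ℕ) : ℕ := w.getD j 0 / 16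

/-! ### exact sums of directions: `(c, k)` stands for `c * exp (i π k / D)` -/

/-- product -/
def zmul (A B : List (ℤ × ℤ)) : List (ℤ × ℤ) :=
  A.flatMap fun a => B.map fun b => (a.1 * b.1, a.2 + b.2)

/-- conjugate -/
def zcon (A : List (ℤ × ℤ)) : List (ℤ × ℤ) := A.map fun a => (a.1, -a.2)

/-- multiple -/
def zsc (c : ℤ) (A : List (ℤ × ℤ)) : List (ℤ × ℤ) := A.map fun a => (c * a.1, a.2)

/-- coefficient of `exp (i π k / D)` -/
def zco (D : ℤ) (A : List (ℤ × ℤ)) (k : ℤ) : ℤ :=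
  (A.map fun a => if (a.2 - k) % (2 * D) = 0 then a.1 else 0).sum

/-- the sum is `0`: it is the sum of the `c * ∑ exp (i π k / D)`, `k` congruent `s` modulo `h`, for the `(c, s, h)` in
`gr` -/
def zzB (D : ℕ) (A : List (ℤ × ℤ)) (gr : List (ℤ × ℤ × ℤ)) : Bool :=
  (gr.all fun g => decide (0 < g.2.2) && decide (g.2.2 < 2 * D) && decide ((2 * (D : ℤ)) % g.2.2 = 0)) &&
  (List.range (2 * D)).all fun k => zco D A (k : ℤ) ==
    (gr.map fun g => if ((k : ℤ) - g.2.1) % g.2.2 = 0 then g.1 else 0).sum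

/-- directions of the sides number `lo + j`, `j < k`, in the class `c` -/
def zcl (w : List ℕ) (ds : List (ℤ × ℤ)) (lo k c : ℕ) : List (ℤ × ℤ) :=
  (List.range k).flatMap fun j => if clW w (lo + j) = c then [(1, (ds.getD (lo + j) (0, 0)).1)] else []

/-- `e * Y c = al * X c + be * conj (X c)` for all classes `c < K` -/
def zrelB (D K : ℕ) (e : ℤ) (al be : List (ℤ × ℤ)) (X Y : ℕ → List (ℤ × ℤ))
    (grs : List (List (ℤ × ℤ × ℤ))) : Bool :=
  (List.range K).all fun c =>
    zzB D (zsc e (Y c) ++ (zsc (-1) (zmul al (X c)) ++ zsc (-1) (zmul be (zcon (X c))))) (grs.getD c [])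

/-! ### positive numbers -/

/-- certificate for `x + y t > 0`, see `posC` -/
structure PC where
  e : ℕ
  c : ℕ
  a : ℕ
  b : ℕ
  l : List (ℕ × Bool × ℕ)

/-- `x + y t > 0`: `p.e * (x + y t)` is `p.c + p.a * (2 ^ 20 t - s1) + p.b * (s2 - 2 ^ 20 t)` plus a combination with
natural coefficients of the numbers `D a j` (`true`) and `2 D - D a j` (`false`) -/
def posC (m : ℕ) (D : ℤ) (lin : List (ℤ × ℤ)) (s1 s2 x y : ℤ) (p : PC) : Bool :=
  decide (0 < p.e) && decide (0 < p.c + (p.l.map fun u => u.2.2).sum) &&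
  (p.l.all fun u => decide (u.1 < m)) &&
  ((p.e : ℤ) * x == (p.c : ℤ) - p.a * s1 + p.b * s2 + (p.l.map fun u => (u.2.2 : ℤ) *
    (if u.2.1 then (lin.getD u.1 (0, 0)).1 else 2 * D - (lin.getD u.1 (0, 0)).1)).sum) &&
  ((p.e : ℤ) * y == 1048576 * ((p.a : ℤ) - p.b) + (p.l.map fun u => (u.2.2 : ℤ) *
    (if u.2.1 then (lin.getD u.1 (0, 0)).2 else -(lin.getD u.1 (0, 0)).2)).sum)

/-- certificate for `|x + y t| < D` -/
structure HalfC where
  p : PC
  q : PC

/-- `|x + y t| < D` -/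
def halfB (m : ℕ) (D : ℤ) (lin : List (ℤ × ℤ)) (s1 s2 x y : ℤ) (C : HalfC) : Bool :=
  posC m D lin s1 s2 (D - x) (-y) C.p && posC m D lin s1 s2 (D + x) y C.q

/-- items of a direction test: `z2 j k`: the contributions of two sides cancel; `z1 j`: side `j` is perpendicular;
`p1`, `p2`: the contribution of a side, of two sides is positive -/
inductive ZI
  | z2 (j k : ℕ)
  | z1 (j : ℕ)
  | p1 (j : ℕ) (κ : ℤ) (C : HalfC)
  | p2 (j k : ℕ) (κ κ' : ℤ) (C C' : HalfC)

/-- sides of an item -/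
def ZI.idx : ZI → List ℕ
  | ZI.z2 j k => [j, k]
  | ZI.z1 j => [j]
  | ZI.p1 j _ _ => [j]
  | ZI.p2 j k _ _ _ _ => [j, k]

/-- positive item -/
def ZI.pos : ZI → Bool
  | ZI.z2 _ _ => false
  | ZI.z1 _ => false
  | ZI.p1 _ _ _ => true
  | ZI.p2 _ _ _ _ _ _ => true

/-- check of an item; the direction is `π (mu + nu t) / D` -/
def ziB (m : ℕ) (w : List ℕ) (D : ℤ) (lin ds : List (ℤ × ℤ)) (s1 s2 mu nu : ℤ) : ZI → Bool
  | ZI.z2 j k => clW w j == clW w k &&
      ((decide (((ds.getD j (0, 0)).1 - (ds.getD k (0, 0)).1) % (2 * D) = D) &&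
        decide ((ds.getD j (0, 0)).2 = (ds.getD k (0, 0)).2)) ||
      (decide (((ds.getD j (0, 0)).1 + (ds.getD k (0, 0)).1 - 2 * mu) % (2 * D) = D) &&
        decide ((ds.getD j (0, 0)).2 + (ds.getD k (0, 0)).2 = 2 * nu)))
  | ZI.z1 j => decide ((2 * ((ds.getD j (0, 0)).1 - mu)) % (2 * D) = D) && decide ((ds.getD j (0, 0)).2 = nu)
  | ZI.p1 j κ C => halfB m D lin s1 s2 (2 * ((ds.getD j (0, 0)).1 - mu) + 4 * D * κ)
      (2 * ((ds.getD j (0, 0)).2 - nu)) C
  | ZI.p2 j k κ κ' C C' => clW w j == clW w k && decide ((κ + κ') % 2 = 0) &&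
      halfB m D lin s1 s2 ((ds.getD j (0, 0)).1 + (ds.getD k (0, 0)).1 - 2 * mu + 2 * D * κ)
        ((ds.getD j (0, 0)).2 + (ds.getD k (0, 0)).2 - 2 * nu) C &&
      halfB m D lin s1 s2 ((ds.getD j (0, 0)).1 - (ds.getD k (0, 0)).1 + 2 * D * κ')
        ((ds.getD j (0, 0)).2 - (ds.getD k (0, 0)).2) C'

/-! ### numerical part -/

/-- lower bound for `2 ^ 30` times the sum of the `r * cos φ + s * sin φ` over the terms `(c, (r, s), φ)` in the list
with class `c` -/
def wval (D s hh : ℤ) (T : List (ℕ × (ℤ × ℤ) × (ℤ × ℤ))) (c : ℕ) : ℤ :=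
  (T.map fun x => if x.1 = c then
    (fun (g : (ℤ × ℤ) × ℤ) => x.2.1.1 * g.1.1 + x.2.1.2 * g.1.2 - (|x.2.1.1| + |x.2.1.2|) * g.2)
      (gdir D s hh x.2.2) else 0).sum

/-- the sums over all classes are positive -/
def wpos (K : ℕ) (D s hh : ℤ) (T : List (ℕ × (ℤ × ℤ) × (ℤ × ℤ))) : Bool :=
  (List.range K).all fun c => decide (0 < wval D s hh T c)

/-- terms of the scalar product of `M` with the sum of all sides -/
def wcls (m : ℕ) (w : List ℕ) (ds : List (ℤ × ℤ)) (M : ℤ × ℤ) : List (ℕ × (ℤ × ℤ) × (ℤ × ℤ)) :=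
  (List.range m).map fun j => (clW w j, M, ds.getD j (0, 0))

/-- terms of `r` times the cross product of the direction of side `q` with the sum of the sides `lo + j`, `j < k` -/
def wcrs (w : List ℕ) (ds : List (ℤ × ℤ)) (lo k q : ℕ) (r : ℤ) : List (ℕ × (ℤ × ℤ) × (ℤ × ℤ)) :=
  (List.range k).map fun j => (clW w (lo + j), (0, r),
    ((ds.getD (lo + j) (0, 0)).1 - (ds.getD q (0, 0)).1, (ds.getD (lo + j) (0, 0)).2 - (ds.getD q (0, 0)).2))

/-- the sides `p < q` cross: four numbers are positive modulo the closing relation -/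
def crsB (m : ℕ) (w : List ℕ) (K : ℕ) (D : ℤ) (ds : List (ℤ × ℤ)) (p q : ℕ) (r : ℤ)
    (M1 M2 M3 M4 : ℤ × ℤ) (s hh : ℤ) : Bool :=
  decide (p < q) && decide (q < m) && decide (0 < K) &&
  wpos K D s hh (wcrs w ds p (q - p) p r ++ wcls m w ds M1) &&
  wpos K D s hh (wcrs w ds p (q - p + 1) p (-r) ++ wcls m w ds M2) &&
  wpos K D s hh (wcrs w ds p (q - p) q r ++ wcls m w ds M3) &&
  wpos K D s hh (wcrs w ds (p + 1) (q - p - 1) q (-r) ++ wcls m w ds M4)

/-- terms of the sides which are not in the list `us` -/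
def zrest (m : ℕ) (w : List ℕ) (ds : List (ℤ × ℤ)) (mu nu : ℤ) (us : List ℕ) :
    List (ℕ × (ℤ × ℤ) × (ℤ × ℤ)) :=
  ((List.range m).filter fun j => !us.contains j).map fun j => (clW w j, (1, 0),
    ((ds.getD j (0, 0)).1 - mu, (ds.getD j (0, 0)).2 - nu))

/-- direction test: the contributions of all classes are not negative, one is positive -/
def zdirB (m : ℕ) (w : List ℕ) (K : ℕ) (D : ℤ) (lin ds : List (ℤ × ℤ)) (mu nu : ℤ) (it : List ZI)
    (s1 s2 s hh : ℤ) : Bool :=
  (it.all fun x => ziB m w D lin ds s1 s2 mu nu x) && decide ((it.flatMap ZI.idx).Nodup) &&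
  ((it.flatMap ZI.idx).all fun j => decide (j < m)) &&
  ((List.range K).all fun c =>
    decide (0 < wval D s hh (zrest m w ds mu nu (it.flatMap ZI.idx)) c) ||
      ((zrest m w ds mu nu (it.flatMap ZI.idx)).all fun x => decide (x.1 ≠ c))) &&
  ((it.any ZI.pos) || !(zrest m w ds mu nu (it.flatMap ZI.idx)).isEmpty)

/-- bisection tree -/
inductive ZL
  | bnd
  | dir (mu nu : ℤ) (it : List ZI)
  | crs (p q : ℕ) (r : ℤ) (M1 M2 M3 M4 : ℤ × ℤ)
  | spl (a b : ZL)

/-- for the parameters between `s1 / 2 ^ 20` and `s2 / 2 ^ 20` there is no polygon -/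
def ztree (m : ℕ) (w : List ℕ) (K : ℕ) (D : ℤ) (lin ds : List (ℤ × ℤ)) : ZL → ℤ → ℤ → Bool
  | ZL.bnd, s1, s2 => gbnd D lin s1 s2
  | ZL.dir mu nu it, s1, s2 =>
      zdirB m w K D lin ds mu nu it s1 s2 ((s1 + s2) / 2) ((s2 - s1) / 2 + 1)
  | ZL.crs p q r M1 M2 M3 M4, s1, s2 =>
      crsB m w K D ds p q r M1 M2 M3 M4 ((s1 + s2) / 2) ((s2 - s1) / 2 + 1)
  | ZL.spl a b, s1, s2 => ztree m w K D lin ds a s1 ((s1 + s2) / 2) && ztree m w K D lin ds b ((s1 + s2) / 2) s2

/-! ### nodes -/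

/-- exact contradictions in dimension `0`: the sum of the sides number `i`, ..., `i + k - 1` is `0`; two classes have
the same length -/
inductive ZE
  | sub (i k : ℕ)
  | eql (a b : ℕ)

/-- nodes of a certificate -/
inductive ZN
  | x (N : XN)
  | num (K : ℕ) (d : ℤ) (f : ℕ) (lin : List (ℤ × ℤ)) (cs : List (ℤ × List ℤ)) (tr : ZL)
  | exa (K d : ℕ) (lin : List (ℤ × ℤ)) (cs : List (ℤ × List ℤ)) (E : ZE) (e : ℤ)
      (al be : List (ℤ × ℤ)) (grs : List (List (ℤ × ℤ × ℤ)))

/-- common part: sides in `K` classes, the angles are described by `lin` -/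
noncomputable def zlinB (m : ℕ) (w : List ℕ) (eqs : List Eqn) (K : ℕ) (d : ℤ) (f : ℕ) (lin : List (ℤ × ℤ))
    (cs : List (ℤ × List ℤ)) : Bool :=
  strB m w && ((List.range m).all fun j => decide (clW w j < K)) && decide (0 < d) && decide (f < m) &&
    lin.length == m && gder m eqs d f lin cs

/-- exact contradiction -/
def zexaB (m : ℕ) (w : List ℕ) (K d : ℕ) (lin : List (ℤ × ℤ)) (E : ZE) (e : ℤ) (al be : List (ℤ × ℤ))
    (grs : List (List (ℤ × ℤ × ℤ))) : Bool :=
  ((gdirs d lin).all fun x => decide (x.2 = 0)) && decide (e ≠ 0) &&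
  match E with
    | ZE.sub i k => decide (0 < k) && decide (k < m) && decide (i + k ≤ m) &&
        zrelB d K e al be (zcl w (gdirs d lin) 0 m) (zcl w (gdirs d lin) i k) grs
    | ZE.eql a b => decide (a < m) && decide (b < m) && decide (clW w a ≠ clW w b) &&
        zrelB d K e al be (zcl w (gdirs d lin) 0 m)
          (fun c => (if c = clW w a then [(1, 0)] else []) ++ (if c = clW w b then [(-1, 0)] else [])) grs

/-- check of node `i` -/
noncomputable def chkZ (m : ℕ) [NeZero m] (w : List ℕ) (tt : List TorT) (sy : List (Bool × ℕ × List ℕ))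
    (D : ℕ → List Eqn) (i : ℕ) (N : ZN) : Bool :=
  match N with
    | ZN.x N => chkY m w tt sy D i N
    | ZN.num K d f lin cs tr => zlinB m w (D i ++ eqs0 m []) K d f lin cs &&
        ztree m w K d lin (gdirs d lin) tr 0 2097152
    | ZN.exa K d lin cs E e al be grs => zlinB m w (D i ++ eqs0 m []) K d 0 lin cs &&
        zexaB m w K d lin E e al be grs

/-- certificate for a word -/
structure CertZ where
  w : List ℕ
  sy : List (Bool × ℕ × List ℕ)
  D : List (List (List Eqn))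
  Ns : List ZN

/-- check of a certificate -/
noncomputable def chkZC (m : ℕ) [NeZero m] (tt : List TorT) (C : CertZ) : Bool :=
  (C.w == decW m (encW C.w)) && C.sy.all (symT m C.w) && decide (0 < C.Ns.length) &&
    (blkF [] C.D (C.Ns.length - 1)).isEmpty && allI (chkZ m C.w tt C.sy (blkF [] C.D)) C.Ns 0

end Pool.Agent.Lib_MP_fa6e45
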