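import Pool.Agent.Lib_MP_fa6e45.CZ0

/-!
MP_fa6e45_co, stage 8: soundness of the direction test (CZ0).
-/

open Set MeasureTheory Complex
open scoped Topology

namespace Pool.Agent.Lib_MP_fa6e45

open Pool.Agent.Lib_PL (cr InSector Poly)

/-! ### positive numbers -/

private theorem posC_aux {m : ℕ} {D : ℤ} {lin : List (ℤ × ℤ)} {t : ℝ}
    (hlin : ∀ j < m, 0 < ((lin.getD j (0, 0)).1 : ℝ) + (lin.getD j (0, 0)).2 * t ∧
      ((lin.getD j (0, 0)).1 : ℝ) + (lin.getD j (0, 0)).2 * t < 2 * D)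
    (l : List (ℕ × Bool × ℕ)) (hl : ∀ u ∈ l, u.1 < m) :
    0 ≤ (((l.map fun u => (u.2.2 : ℤ) * (if u.2.1 then (lin.getD u.1 (0, 0)).1 else
        2 * D - (lin.getD u.1 (0, 0)).1)).sum : ℤ) : ℝ) +
      (((l.map fun u => (u.2.2 : ℤ) * (if u.2.1 then (lin.getD u.1 (0, 0)).2 else
        -(lin.getD u.1 (0, 0)).2)).sum : ℤ) : ℝ) * t ∧
    (0 < (l.map fun u => u.2.2).sum →
      0 < (((l.map fun u => (u.2.2 : ℤ) * (if u.2.1 then (lin.getD u.1 (0, 0)).1 else
        2 * D - (lin.getD u.1 (0, 0)).1)).sum : ℤ) : ℝ) +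
      (((l.map fun u => (u.2.2 : ℤ) * (if u.2.1 then (lin.getD u.1 (0, 0)).2 else
        -(lin.getD u.1 (0, 0)).2)).sum : ℤ) : ℝ) * t) := by
  induction l with
  | nil => simp
  | cons u l ih =>
    obtain ⟨ih1, ih2⟩ := ih fun v hv => hl v (List.mem_cons_of_mem _ hv)
    have hu := hlin u.1 (hl u (List.mem_cons_self ..))
    simp only [List.map_cons, List.sum_cons]
    set A := ((l.map fun u => (u.2.2 : ℤ) * (if u.2.1 then (lin.getD u.1 (0, 0)).1 else
        2 * D - (lin.getD u.1 (0, 0)).1)).sum : ℤ)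
    set B := ((l.map fun u => (u.2.2 : ℤ) * (if u.2.1 then (lin.getD u.1 (0, 0)).2 else
        -(lin.getD u.1 (0, 0)).2)).sum : ℤ)
    have key : ∃ g : ℝ, 0 < g ∧
        ((((u.2.2 : ℤ) * (if u.2.1 then (lin.getD u.1 (0, 0)).1 else
          2 * D - (lin.getD u.1 (0, 0)).1) + A : ℤ) : ℝ) +
        (((u.2.2 : ℤ) * (if u.2.1 then (lin.getD u.1 (0, 0)).2 else -(lin.getD u.1 (0, 0)).2) + B : ℤ) : ℝ) * t =
          (u.2.2 : ℝ) * g + ((A : ℝ) + B * t)) := by
      cases hb : u.2.1
      · refine ⟨2 * D - (((lin.getD u.1 (0, 0)).1 : ℝ) + (lin.getD u.1 (0, 0)).2 * t), by linarith, ?_⟩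
        simp only [Bool.false_eq_true, if_false]
        push_cast
        ring
      · refine ⟨((lin.getD u.1 (0, 0)).1 : ℝ) + (lin.getD u.1 (0, 0)).2 * t, hu.1, ?_⟩
        simp only [if_true]
        push_cast
        ring
    obtain ⟨g, hg, he⟩ := key
    rw [he]
    have h0 : (0 : ℝ) ≤ u.2.2 := Nat.cast_nonneg _
    refine ⟨by positivity, fun h => ?_⟩
    rcases Nat.eq_zero_or_pos u.2.2 with h1 | h1
    · rw [h1, zero_add] at h
      have h2 := ih2 h
      rw [h1]
      simpa using h2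
    · have h2 : (0 : ℝ) < u.2.2 := by exact_mod_cast h1
      positivity

theorem posC_sound {m : ℕ} {D : ℤ} {lin : List (ℤ × ℤ)} {t : ℝ}
    (hlin : ∀ j < m, 0 < ((lin.getD j (0, 0)).1 : ℝ) + (lin.getD j (0, 0)).2 * t ∧
      ((lin.getD j (0, 0)).1 : ℝ) + (lin.getD j (0, 0)).2 * t < 2 * D)
    {s1 s2 : ℤ} (hs1 : (s1 : ℝ) ≤ t * 1048576) (hs2 : t * 1048576 ≤ s2)
    {x y : ℤ} {p : PC} (h : posC m D lin s1 s2 x y p = true) :
    0 < (x : ℝ) + y * t := by
  unfold posC at h
  simp only [Bool.and_eq_true, decide_eq_true_eq, List.all_eq_true, beq_iff_eq] at h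
  obtain ⟨⟨⟨⟨h1, h2⟩, h3⟩, h4⟩, h5⟩ := h
  obtain ⟨h6, h7⟩ := posC_aux hlin p.l h3
  have e1 : (p.e : ℝ) * x = (p.c : ℝ) - p.a * s1 + p.b * s2 + (((p.l.map fun u => (u.2.2 : ℤ) *
      (if u.2.1 then (lin.getD u.1 (0, 0)).1 else 2 * D - (lin.getD u.1 (0, 0)).1)).sum : ℤ) : ℝ) := by
    have := congrArg (fun z : ℤ => (z : ℝ)) h4
    push_cast at this ⊢
    exact this
  have e2 : (p.e : ℝ) * y = 1048576 * ((p.a : ℝ) - p.b) + (((p.l.map fun u => (u.2.2 : ℤ) *
      (if u.2.1 then (lin.getD u.1 (0, 0)).2 else -(lin.getD u.1 (0, 0)).2)).sum : ℤ) : ℝ) := by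
    have := congrArg (fun z : ℤ => (z : ℝ)) h5
    push_cast at this ⊢
    exact this
  have hp : (0 : ℝ) < p.e := by exact_mod_cast h1
  have h8 : (0 : ℝ) ≤ p.c := Nat.cast_nonneg _
  have h9 : (0 : ℝ) ≤ (p.a : ℝ) * (t * 1048576 - s1) := mul_nonneg (Nat.cast_nonneg _) (by linarith)
  have h10 : (0 : ℝ) ≤ (p.b : ℝ) * (s2 - t * 1048576) := mul_nonneg (Nat.cast_nonneg _) (by linarith)
  have key : 0 < (p.e : ℝ) * ((x : ℝ) + y * t) := by
    have e3 : (p.e : ℝ) * ((x : ℝ) + y * t) = (p.e : ℝ) * x + ((p.e : ℝ) * y) * t := by ring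
    rw [e3, e1, e2]
    rcases Nat.eq_zero_or_pos (p.l.map fun u => u.2.2).sum with h11 | h11
    · rw [h11, add_zero] at h2
      have h12 : (0 : ℝ) < p.c := by exact_mod_cast h2
      linarith
    · have := h7 h11
      linarith
  exact (mul_pos_iff_of_pos_left hp).1 key

theorem halfB_sound {m : ℕ} {D : ℤ} (hD : 0 < D) {lin : List (ℤ × ℤ)} {t : ℝ}
    (hlin : ∀ j < m, 0 < ((lin.getD j (0, 0)).1 : ℝ) + (lin.getD j (0, 0)).2 * t ∧
      ((lin.getD j (0, 0)).1 : ℝ) + (lin.getD j (0, 0)).2 * t < 2 * D)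
    {s1 s2 : ℤ} (hs1 : (s1 : ℝ) ≤ t * 1048576) (hs2 : t * 1048576 ≤ s2)
    {x y : ℤ} {C : HalfC} (h : halfB m D lin s1 s2 x y C = true) :
    0 < Real.cos (Real.pi * ((x : ℝ) + y * t) / (2 * D)) := by
  unfold halfB at h
  rw [Bool.and_eq_true] at h
  have h1 := posC_sound hlin hs1 hs2 h.1
  have h2 := posC_sound hlin hs1 hs2 h.2
  have hD' : (0 : ℝ) < D := by exact_mod_cast hD
  have hpi := Real.pi_pos
  push_cast at h1 h2
  apply Real.cos_pos_of_mem_Ioo
  constructor
  · rw [lt_div_iff₀ (by positivity)]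
    nlinarith
  · rw [div_lt_iff₀ (by positivity)]
    nlinarith

/-! ### the angles -/

/-- the angle `π (α + β t) / D` -/
noncomputable def zang (D : ℤ) (t : ℝ) (d : ℤ × ℤ) : ℝ := Real.pi * ((d.1 : ℝ) + d.2 * t) / D

private theorem cos_odd {x : ℝ} {k : ℤ} (h : k % 2 = 1) : Real.cos (x + k * Real.pi) = -Real.cos x := by
  obtain ⟨j, hj⟩ : ∃ j : ℤ, k = 2 * j + 1 := ⟨k / 2, by omega⟩
  have e : x + k * Real.pi = x + Real.pi + j * (2 * Real.pi) := by
    rw [hj]
    push_cast
    ring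
  rw [e, Real.cos_add_int_mul_two_pi, Real.cos_add_pi]

/-- the contribution of an item -/
private theorem ziB_sound {m : ℕ} {w : List ℕ} {D : ℤ} (hD : 0 < D) {lin ds : List (ℤ × ℤ)} {t : ℝ}
    (hlin : ∀ j < m, 0 < ((lin.getD j (0, 0)).1 : ℝ) + (lin.getD j (0, 0)).2 * t ∧
      ((lin.getD j (0, 0)).1 : ℝ) + (lin.getD j (0, 0)).2 * t < 2 * D)
    {s1 s2 : ℤ} (hs1 : (s1 : ℝ) ≤ t * 1048576) (hs2 : t * 1048576 ≤ s2)
    {l : ℕ → ℝ} (hl : ∀ c, 0 < l c) {mu nu : ℤ} {x : ZI}
    (h : ziB m w D lin ds s1 s2 mu nu x = true) :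
    0 ≤ (x.idx.map fun j => l (clW w j) *
      Real.cos (zang D t (ds.getD j (0, 0)) - zang D t (mu, nu))).sum ∧
    (x.pos = true → 0 < (x.idx.map fun j => l (clW w j) *
      Real.cos (zang D t (ds.getD j (0, 0)) - zang D t (mu, nu))).sum) := by
  have hD' : (0 : ℝ) < D := by exact_mod_cast hD
  have hD0 : (D : ℝ) ≠ 0 := hD'.ne'
  cases x with
  | z2 j k =>
    unfold ziB at h
    simp only [Bool.and_eq_true, Bool.or_eq_true, decide_eq_true_eq, beq_iff_eq] at h
    obtain ⟨h1, h2⟩ := h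
    have key : Real.cos (zang D t (ds.getD j (0, 0)) - zang D t (mu, nu)) +
        Real.cos (zang D t (ds.getD k (0, 0)) - zang D t (mu, nu)) = 0 := by
      rcases h2 with ⟨h2, h3⟩ | ⟨h2, h3⟩
      · obtain ⟨q, hq⟩ : ∃ q : ℤ, (ds.getD j (0, 0)).1 - (ds.getD k (0, 0)).1 = D * (2 * q + 1) :=
          ⟨((ds.getD j (0, 0)).1 - (ds.getD k (0, 0)).1) / (2 * D), by
            have := Int.emod_add_mul_ediv ((ds.getD j (0, 0)).1 - (ds.getD k (0, 0)).1) (2 * D)
            rw [h2] at this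
            linear_combination -this⟩
        have e : zang D t (ds.getD j (0, 0)) - zang D t (mu, nu) =
            zang D t (ds.getD k (0, 0)) - zang D t (mu, nu) + ((2 * q + 1 : ℤ) : ℝ) * Real.pi := by
          unfold zang
          have h4 : ((ds.getD j (0, 0)).1 : ℝ) = (ds.getD k (0, 0)).1 + D * ((2 * q + 1 : ℤ) : ℝ) := by
            have := congrArg (fun z : ℤ => (z : ℝ)) hq
            push_cast at this ⊢
            linarith
          have h5 : ((ds.getD j (0, 0)).2 : ℝ) = (ds.getD k (0, 0)).2 := by rw [h3]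
          rw [h4, h5]
          field_simp
          ring
        rw [e, cos_odd (by omega)]
        ring
      · obtain ⟨q, hq⟩ : ∃ q : ℤ, (ds.getD j (0, 0)).1 + (ds.getD k (0, 0)).1 - 2 * mu = D * (2 * q + 1) :=
          ⟨((ds.getD j (0, 0)).1 + (ds.getD k (0, 0)).1 - 2 * mu) / (2 * D), by
            have := Int.emod_add_mul_ediv ((ds.getD j (0, 0)).1 + (ds.getD k (0, 0)).1 - 2 * mu) (2 * D)
            rw [h2] at this
            linear_combination -this⟩
        have e : zang D t (ds.getD j (0, 0)) - zang D t (mu, nu) =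
            -(zang D t (ds.getD k (0, 0)) - zang D t (mu, nu)) + ((2 * q + 1 : ℤ) : ℝ) * Real.pi := by
          unfold zang
          have h4 : ((ds.getD j (0, 0)).1 : ℝ) = 2 * mu - (ds.getD k (0, 0)).1 + D * ((2 * q + 1 : ℤ) : ℝ) := by
            have := congrArg (fun z : ℤ => (z : ℝ)) hq
            push_cast at this ⊢
            linarith
          have h5 : ((ds.getD j (0, 0)).2 : ℝ) = 2 * nu - (ds.getD k (0, 0)).2 := by
            have := congrArg (fun z : ℤ => (z : ℝ)) h3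
            push_cast at this ⊢
            linarith
          rw [h4, h5]
          field_simp
          ring
        rw [e, cos_odd (by omega), Real.cos_neg]
        ring
    have e2 : ((ZI.z2 j k).idx.map fun j => l (clW w j) *
        Real.cos (zang D t (ds.getD j (0, 0)) - zang D t (mu, nu))).sum = 0 := by
      unfold ZI.idx
      simp only [List.map_cons, List.map_nil, List.sum_cons, List.sum_nil, add_zero]
      rw [h1, ← mul_add, key, mul_zero]
    rw [e2]
    exact ⟨le_rfl, fun h => by unfold ZI.pos at h; exact absurd h (by simp)⟩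
  | z1 j =>
    unfold ziB at h
    simp only [Bool.and_eq_true, decide_eq_true_eq] at h
    obtain ⟨h2, h3⟩ := h
    obtain ⟨q, hq⟩ : ∃ q : ℤ, 2 * ((ds.getD j (0, 0)).1 - mu) = D * (2 * q + 1) :=
      ⟨(2 * ((ds.getD j (0, 0)).1 - mu)) / (2 * D), by
        have := Int.emod_add_mul_ediv (2 * ((ds.getD j (0, 0)).1 - mu)) (2 * D)
        rw [h2] at this
        linear_combination -this⟩
    have e : zang D t (ds.getD j (0, 0)) - zang D t (mu, nu) =
        -(zang D t (ds.getD j (0, 0)) - zang D t (mu, nu)) + ((2 * q + 1 : ℤ) : ℝ) * Real.pi := by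
      unfold zang
      have h4 : (2 : ℝ) * (ds.getD j (0, 0)).1 = 2 * mu + D * ((2 * q + 1 : ℤ) : ℝ) := by
        have := congrArg (fun z : ℤ => (z : ℝ)) hq
        push_cast at this ⊢
        linarith
      have h5 : ((ds.getD j (0, 0)).2 : ℝ) = nu := by rw [h3]
      rw [h5]
      have h6 : ((ds.getD j (0, 0)).1 : ℝ) = mu + D * ((2 * q + 1 : ℤ) : ℝ) / 2 := by linarith
      rw [h6]
      field_simp
      ring
    have key : Real.cos (zang D t (ds.getD j (0, 0)) - zang D t (mu, nu)) = 0 := by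
      have h7 := congrArg Real.cos e
      rw [cos_odd (by omega), Real.cos_neg] at h7
      linarith
    have e2 : ((ZI.z1 j).idx.map fun j => l (clW w j) *
        Real.cos (zang D t (ds.getD j (0, 0)) - zang D t (mu, nu))).sum = 0 := by
      unfold ZI.idx
      simp only [List.map_cons, List.map_nil, List.sum_cons, List.sum_nil, add_zero]
      rw [key, mul_zero]
    rw [e2]
    exact ⟨le_rfl, fun h => by unfold ZI.pos at h; exact absurd h (by simp)⟩
  | p1 j κ C =>
    unfold ziB at h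
    have h1 := halfB_sound hD hlin hs1 hs2 h
    have e : Real.pi * (((2 * ((ds.getD j (0, 0)).1 - mu) + 4 * D * κ : ℤ) : ℝ) +
        ((2 * ((ds.getD j (0, 0)).2 - nu) : ℤ) : ℝ) * t) / (2 * D) =
        zang D t (ds.getD j (0, 0)) - zang D t (mu, nu) + κ * (2 * Real.pi) := by
      unfold zang
      push_cast
      field_simp
      ring
    rw [e, Real.cos_add_int_mul_two_pi] at h1
    have e2 : ((ZI.p1 j κ C).idx.map fun j => l (clW w j) *
        Real.cos (zang D t (ds.getD j (0, 0)) - zang D t (mu, nu))).sum =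
        l (clW w j) * Real.cos (zang D t (ds.getD j (0, 0)) - zang D t (mu, nu)) := by
      unfold ZI.idx
      simp only [List.map_cons, List.map_nil, List.sum_cons, List.sum_nil, add_zero]
    rw [e2]
    have h2 := mul_pos (hl (clW w j)) h1
    exact ⟨h2.le, fun _ => h2⟩
  | p2 j k κ κ' C C' =>
    unfold ziB at h
    simp only [Bool.and_eq_true, decide_eq_true_eq, beq_iff_eq] at h
    obtain ⟨⟨⟨h1, h2⟩, h3⟩, h4⟩ := h
    have h5 := halfB_sound hD hlin hs1 hs2 h3
    have h6 := halfB_sound hD hlin hs1 hs2 h4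
    set a := zang D t (ds.getD j (0, 0)) - zang D t (mu, nu) with ha
    set b := zang D t (ds.getD k (0, 0)) - zang D t (mu, nu) with hb
    have e3 : Real.pi * ((((ds.getD j (0, 0)).1 + (ds.getD k (0, 0)).1 - 2 * mu + 2 * D * κ : ℤ) : ℝ) +
        (((ds.getD j (0, 0)).2 + (ds.getD k (0, 0)).2 - 2 * nu : ℤ) : ℝ) * t) / (2 * D) =
        (a + b) / 2 + κ * Real.pi := by
      rw [ha, hb]
      unfold zang
      push_cast
      field_simp
      ring
    have e4 : Real.pi * ((((ds.getD j (0, 0)).1 - (ds.getD k (0, 0)).1 + 2 * D * κ' : ℤ) : ℝ) +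
        (((ds.getD j (0, 0)).2 - (ds.getD k (0, 0)).2 : ℤ) : ℝ) * t) / (2 * D) =
        (a - b) / 2 + κ' * Real.pi := by
      rw [ha, hb]
      unfold zang
      push_cast
      field_simp
      ring
    rw [e3] at h5
    rw [e4] at h6
    have h7 : 0 < Real.cos ((a + b) / 2) * Real.cos ((a - b) / 2) := by
      rcases Int.emod_two_eq_zero_or_one κ with h8 | h8
      · have h9 : κ' % 2 = 0 := by omega
        obtain ⟨i, hi⟩ : ∃ i : ℤ, κ = 2 * i := ⟨κ / 2, by omega⟩
        obtain ⟨i', hi'⟩ : ∃ i : ℤ, κ' = 2 * i := ⟨κ' / 2, by omega⟩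
        have e5 : (a + b) / 2 + κ * Real.pi = (a + b) / 2 + i * (2 * Real.pi) := by
          rw [hi]; push_cast; ring
        have e6 : (a - b) / 2 + κ' * Real.pi = (a - b) / 2 + i' * (2 * Real.pi) := by
          rw [hi']; push_cast; ring
        rw [e5, Real.cos_add_int_mul_two_pi] at h5
        rw [e6, Real.cos_add_int_mul_two_pi] at h6
        exact mul_pos h5 h6
      · have h9 : κ' % 2 = 1 := by omega
        rw [cos_odd h8] at h5
        rw [cos_odd h9] at h6
        have := mul_pos h5 h6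
        linarith
    have e2 : ((ZI.p2 j k κ κ' C C').idx.map fun j => l (clW w j) *
        Real.cos (zang D t (ds.getD j (0, 0)) - zang D t (mu, nu))).sum =
        l (clW w j) * (2 * (Real.cos ((a + b) / 2) * Real.cos ((a - b) / 2))) := by
      unfold ZI.idx
      simp only [List.map_cons, List.map_nil, List.sum_cons, List.sum_nil, add_zero]
      rw [← ha, ← hb, ← h1, ← mul_add, Real.cos_add_cos]
      ring
    rw [e2]
    have h10 := mul_pos (hl (clW w j)) (mul_pos two_pos h7)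
    exact ⟨h10.le, fun _ => h10⟩

/-! ### the numerical part -/

private theorem wval_le {D : ℤ} (hD : 0 < D) {t : ℝ} {s hh : ℤ} (ht : |t * 1048576 - s| ≤ hh)
    (T : List (ℕ × (ℤ × ℤ) × (ℤ × ℤ))) (c : ℕ) :
    (wval D s hh T c : ℝ) ≤ 1073741824 * (T.map fun x => if x.1 = c then
      (x.2.1.1 : ℝ) * Real.cos (zang D t x.2.2) + x.2.1.2 * Real.sin (zang D t x.2.2) else 0).sum := by
  have hD' : (0 : ℝ) < D := by exact_mod_cast hD
  induction T with
  | nil => simp [wval]
  | cons x T ih =>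
    have e1 : wval D s hh (x :: T) c = (if x.1 = c then
        (fun (g : (ℤ × ℤ) × ℤ) => x.2.1.1 * g.1.1 + x.2.1.2 * g.1.2 - (|x.2.1.1| + |x.2.1.2|) * g.2)
          (gdir D s hh x.2.2) else 0) + wval D s hh T c := by
      unfold wval
      rw [List.map_cons, List.sum_cons]
    rw [e1, List.map_cons, List.sum_cons, mul_add]
    push_cast
    refine add_le_add ?_ ih
    split_ifs with hc
    · have h1 := gdir_err (D := D) (s := s) (hh := hh) (d := x.2.2) hD (t := t)
        (φ := zang D t x.2.2) (by unfold zang; field_simp) ht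
      set g := gdir D s hh x.2.2
      have h2 : |(g.1.1 : ℝ) - 1073741824 * Real.cos (zang D t x.2.2)| ≤ g.2 := by
        have h3 := (Complex.abs_re_le_norm (gcx g.1 - 1073741824 * gz (zang D t x.2.2))).trans h1
        have h4 : (gcx g.1 - 1073741824 * gz (zang D t x.2.2)).re =
            (g.1.1 : ℝ) - 1073741824 * Real.cos (zang D t x.2.2) := by
          unfold gcx
          rw [← gz_re]
          simp
        rwa [h4] at h3
      have h3 : |(g.1.2 : ℝ) - 1073741824 * Real.sin (zang D t x.2.2)| ≤ g.2 := by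
        have h3 := (Complex.abs_im_le_norm (gcx g.1 - 1073741824 * gz (zang D t x.2.2))).trans h1
        have h4 : (gcx g.1 - 1073741824 * gz (zang D t x.2.2)).im =
            (g.1.2 : ℝ) - 1073741824 * Real.sin (zang D t x.2.2) := by
          unfold gcx
          rw [← gz_im]
          simp
        rwa [h4] at h3
      have h5 : (x.2.1.1 : ℝ) * g.1.1 - |(x.2.1.1 : ℝ)| * g.2 ≤
          1073741824 * ((x.2.1.1 : ℝ) * Real.cos (zang D t x.2.2)) := by
        have h6 : |(x.2.1.1 : ℝ) * ((g.1.1 : ℝ) - 1073741824 * Real.cos (zang D t x.2.2))| ≤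
            |(x.2.1.1 : ℝ)| * g.2 := by
          rw [abs_mul]
          exact mul_le_mul_of_nonneg_left h2 (abs_nonneg _)
        have h7 := (abs_le.1 h6).2
        linarith
      have h8 : (x.2.1.2 : ℝ) * g.1.2 - |(x.2.1.2 : ℝ)| * g.2 ≤
          1073741824 * ((x.2.1.2 : ℝ) * Real.sin (zang D t x.2.2)) := by
        have h6 : |(x.2.1.2 : ℝ) * ((g.1.2 : ℝ) - 1073741824 * Real.sin (zang D t x.2.2))| ≤
            |(x.2.1.2 : ℝ)| * g.2 := by
          rw [abs_mul]
          exact mul_le_mul_of_nonneg_left h3 (abs_nonneg _)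
        have h7 := (abs_le.1 h6).2
        linarith
      linarith
    · simp

/-- sum over the terms, class by class -/
private theorem cls_sum (T : List (ℕ × (ℤ × ℤ) × (ℤ × ℤ))) (l : ℕ → ℝ)
    (g : ℕ × (ℤ × ℤ) × (ℤ × ℤ) → ℝ) (K : ℕ) (hK : ∀ x ∈ T, x.1 < K) :
    (T.map fun x => l x.1 * g x).sum =
      ∑ c ∈ Finset.range K, l c * (T.map fun x => if x.1 = c then g x else 0).sum := by
  induction T with
  | nil => simp
  | cons x T ih =>
    have ih' := ih fun y hy => hK y (List.mem_cons_of_mem _ hy)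
    simp only [List.map_cons, List.sum_cons]
    rw [ih']
    simp only [mul_add]
    rw [Finset.sum_add_distrib]
    congr 1
    simp only [mul_ite, mul_zero]
    rw [Finset.sum_ite_eq (Finset.range K) x.1 (fun c => l c * g x),
      if_pos (Finset.mem_range.2 (hK x (List.mem_cons_self ..)))]

/-- splitting a sum over all sides -/
private theorem split_sum {m : ℕ} {us : List ℕ} (hn : us.Nodup) (hu : ∀ j ∈ us, j < m) (f : ℕ → ℝ) :
    ∑ j ∈ Finset.range m, f j = (us.map f).sum +
      (((List.range m).filter fun j => !us.contains j).map f).sum := by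
  have h1 : (((List.range m).filter fun j => !us.contains j).map f).sum =
      ∑ j ∈ (Finset.range m).filter (fun j => j ∉ us), f j := by
    have h2 : ((List.range m).filter fun j => !us.contains j).Nodup := List.Nodup.filter _ List.nodup_range
    rw [← List.sum_toFinset f h2]
    apply Finset.sum_congr _ fun _ _ => rfl
    ext j
    simp
  have h3 : (us.map f).sum = ∑ j ∈ (Finset.range m).filter (fun j => j ∈ us), f j := by
    rw [← List.sum_toFinset f hn]
    apply Finset.sum_congr _ fun _ _ => rfl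
    ext j
    simp only [List.mem_toFinset, Finset.mem_filter, Finset.mem_range]
    exact ⟨fun h => ⟨hu j h, h⟩, fun h => h.2⟩
  rw [h1, h3, Finset.sum_filter_add_sum_filter_not]

/-- the direction test -/
theorem zdirB_sound {m : ℕ} {w : List ℕ} {K : ℕ} {D : ℤ} (hD : 0 < D) {lin ds : List (ℤ × ℤ)} {t : ℝ}
    (hlin : ∀ j < m, 0 < ((lin.getD j (0, 0)).1 : ℝ) + (lin.getD j (0, 0)).2 * t ∧
      ((lin.getD j (0, 0)).1 : ℝ) + (lin.getD j (0, 0)).2 * t < 2 * D)
    {l : ℕ → ℝ} (hl : ∀ c, 0 < l c) (hK : ∀ j < m, clW w j < K)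
    (hsum : ∀ θ : ℝ, ∑ j ∈ Finset.range m, l (clW w j) * Real.cos (zang D t (ds.getD j (0, 0)) - θ) = 0)
    {mu nu : ℤ} {it : List ZI} {s1 s2 s hh : ℤ} (hs1 : (s1 : ℝ) ≤ t * 1048576) (hs2 : t * 1048576 ≤ s2)
    (ht : |t * 1048576 - s| ≤ hh)
    (h : zdirB m w K D lin ds mu nu it s1 s2 s hh = true) : False := by
  unfold zdirB at h
  simp only [Bool.and_eq_true, Bool.or_eq_true, List.all_eq_true, decide_eq_true_eq] at h
  obtain ⟨⟨⟨⟨h1, h2⟩, h3⟩, h4⟩, h5⟩ := h
  obtain ⟨T, hT⟩ : ∃ T, T = zrest m w ds mu nu (it.flatMap ZI.idx) := ⟨_, rfl⟩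
  rw [← hT] at h4 h5
  set f : ℕ → ℝ := fun j => l (clW w j) *
    Real.cos (zang D t (ds.getD j (0, 0)) - zang D t (mu, nu)) with hf
  have e0 := hsum (zang D t (mu, nu))
  change ∑ j ∈ Finset.range m, f j = 0 at e0
  rw [split_sum h2 h3 f] at e0
  -- items
  have hit : ∀ L : List ZI, (∀ x ∈ L, ziB m w D lin ds s1 s2 mu nu x = true) →
      0 ≤ ((L.flatMap ZI.idx).map f).sum ∧ (L.any ZI.pos = true → 0 < ((L.flatMap ZI.idx).map f).sum) := by
    intro L
    induction L with
    | nil => simp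
    | cons x L ih =>
      intro hL
      obtain ⟨i1, i2⟩ := ih fun y hy => hL y (List.mem_cons_of_mem _ hy)
      obtain ⟨j1, j2⟩ := ziB_sound hD hlin hs1 hs2 hl (hL x (List.mem_cons_self ..))
      rw [List.flatMap_cons, List.map_append, List.sum_append]
      refine ⟨add_nonneg j1 i1, fun h => ?_⟩
      rw [List.any_cons, Bool.or_eq_true] at h
      rcases h with h | h
      · exact add_pos_of_pos_of_nonneg (j2 h) i1
      · exact add_pos_of_nonneg_of_pos j1 (i2 h)
  obtain ⟨a1, a2⟩ := hit it h1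
  -- rest
  have hTm : ∀ x ∈ T, x.1 < K := by
    intro x hx
    rw [hT] at hx
    unfold zrest at hx
    rw [List.mem_map] at hx
    obtain ⟨j, hj, rfl⟩ := hx
    have := List.mem_range.1 (List.mem_filter.1 hj).1
    exact hK j this
  have e1 : (((List.range m).filter fun j => !(it.flatMap ZI.idx).contains j).map f).sum =
      (T.map fun x => l x.1 * ((x.2.1.1 : ℝ) * Real.cos (zang D t x.2.2) +
        x.2.1.2 * Real.sin (zang D t x.2.2))).sum := by
    rw [hT]
    unfold zrest
    rw [List.map_map]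
    congr 1
    apply List.map_congr_left
    intro j _
    have e2 : zang D t ((ds.getD j (0, 0)).1 - mu, (ds.getD j (0, 0)).2 - nu) =
        zang D t (ds.getD j (0, 0)) - zang D t (mu, nu) := by
      unfold zang
      push_cast
      ring
    simp only [hf, Function.comp_apply]
    rw [e2]
    push_cast
    ring
  rw [e1, cls_sum T l (fun x => (x.2.1.1 : ℝ) * Real.cos (zang D t x.2.2) +
        x.2.1.2 * Real.sin (zang D t x.2.2)) K hTm] at e0
  have hc : ∀ c ∈ Finset.range K, 0 ≤ l c * (T.map fun x => if x.1 = c then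
      ((x.2.1.1 : ℝ) * Real.cos (zang D t x.2.2) + x.2.1.2 * Real.sin (zang D t x.2.2)) else 0).sum := by
    intro c hc
    rcases h4 c (List.mem_range.2 (Finset.mem_range.1 hc)) with h6 | h6
    · have h7 := wval_le hD ht T c
      have h8 : (0 : ℝ) < wval D s hh T c := by exact_mod_cast h6
      have h9 : 0 < (T.map fun x => if x.1 = c then
          ((x.2.1.1 : ℝ) * Real.cos (zang D t x.2.2) + x.2.1.2 * Real.sin (zang D t x.2.2)) else 0).sum := by
        linarith
      exact (mul_pos (hl c) h9).le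
    · have h9 : (T.map fun x => if x.1 = c then
          ((x.2.1.1 : ℝ) * Real.cos (zang D t x.2.2) + x.2.1.2 * Real.sin (zang D t x.2.2)) else 0).sum = 0 := by
        apply List.sum_eq_zero
        intro y hy
        rw [List.mem_map] at hy
        obtain ⟨x, hx, rfl⟩ := hy
        rw [if_neg (h6 x hx)]
      rw [h9, mul_zero]
  have b1 := Finset.sum_nonneg hc
  rcases h5 with h5 | h5
  · have := a2 h5
    linarith
  · have h6 : ∃ x, x ∈ T := by
      cases T with
      | nil => exact absurd h5 (by simp)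
      | cons x T => exact ⟨x, List.mem_cons_self ..⟩
    obtain ⟨x, hx⟩ := h6
    have hxK := hTm x hx
    have h7 : 0 < l x.1 * (T.map fun y => if y.1 = x.1 then
        ((y.2.1.1 : ℝ) * Real.cos (zang D t y.2.2) + y.2.1.2 * Real.sin (zang D t y.2.2)) else 0).sum := by
      rcases h4 x.1 (List.mem_range.2 hxK) with h8 | h8
      · have h7 := wval_le hD ht T x.1
        have h8 : (0 : ℝ) < wval D s hh T x.1 := by exact_mod_cast h8
        have h9 : 0 < (T.map fun y => if y.1 = x.1 then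
            ((y.2.1.1 : ℝ) * Real.cos (zang D t y.2.2) + y.2.1.2 * Real.sin (zang D t y.2.2)) else 0).sum := by
          linarith
        exact mul_pos (hl _) h9
      · exact absurd rfl (h8 x hx)
    have h8 := Finset.sum_pos' hc ⟨x.1, Finset.mem_range.2 hxK, h7⟩
    linarith

theorem wpos_sound {D : ℤ} (hD : 0 < D) {t : ℝ} {s hh : ℤ} (ht : |t * 1048576 - s| ≤ hh)
    {l : ℕ → ℝ} (hl : ∀ c, 0 < l c) {K : ℕ} (hK : 0 < K) {T : List (ℕ × (ℤ × ℤ) × (ℤ × ℤ))}
    (hT : ∀ x ∈ T, x.1 < K) (h : wpos K D s hh T = true) :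
    0 < (T.map fun x => l x.1 * ((x.2.1.1 : ℝ) * Real.cos (zang D t x.2.2) +
      x.2.1.2 * Real.sin (zang D t x.2.2))).sum := by
  unfold wpos at h
  rw [List.all_eq_true] at h
  rw [cls_sum T l (fun x => (x.2.1.1 : ℝ) * Real.cos (zang D t x.2.2) +
    x.2.1.2 * Real.sin (zang D t x.2.2)) K hT]
  refine Finset.sum_pos (fun c hc => ?_) ⟨0, Finset.mem_range.2 hK⟩
  have h1 := h c (List.mem_range.2 (Finset.mem_range.1 hc))
  rw [decide_eq_true_eq] at h1
  have h2 := wval_le hD ht T c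
  have h3 : (0 : ℝ) < wval D s hh T c := by exact_mod_cast h1
  refine mul_pos (hl c) ?_
  linarith

end Pool.Agent.Lib_MP_fa6e45
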