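import Pool.Agent.Lib_MP_fa6e45.CZ1
import Pool.Agent.Lib_MP_fa6e45.CX7

/-!
MP_fa6e45_co, stage 8: two sides of the polygon which cross (soundness of `crsB`), exact relations (soundness of
`zrelB`).
-/

open Set MeasureTheory Complex
open scoped Topology

namespace Pool.Agent.Lib_MP_fa6e45

open Pool.Agent.Lib_PL (cr InSector Poly)

/-! ### crossing segments -/

private theorem cross_pt {A B C E : ℂ} {r : ℝ} (h1 : 0 < r * cr (B - A) (C - A))
    (h2 : r * cr (B - A) (E - A) < 0) (h3 : r * cr (E - C) (A - C) < 0)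
    (h4 : 0 < r * cr (E - C) (B - C)) :
    ∃ X, X ∈ segment ℝ A B ∧ X ∈ segment ℝ C E ∧ X ≠ A ∧ X ≠ B := by
  obtain ⟨d1, hd1⟩ : ∃ d, d = cr (B - A) (C - A) := ⟨_, rfl⟩
  obtain ⟨d2, hd2⟩ : ∃ d, d = cr (B - A) (E - A) := ⟨_, rfl⟩
  obtain ⟨e3, he3⟩ : ∃ d, d = cr (E - C) (A - C) := ⟨_, rfl⟩
  obtain ⟨e4, he4⟩ : ∃ d, d = cr (E - C) (B - C) := ⟨_, rfl⟩
  rw [← hd1] at h1
  rw [← hd2] at h2
  rw [← he3] at h3
  rw [← he4] at h4
  have hN : e3 - e4 = d2 - d1 := by
    rw [hd1, hd2, he3, he4]
    unfold cr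
    simp only [Complex.sub_re, Complex.sub_im]
    ring
  obtain ⟨N, hN'⟩ : ∃ N, N = d2 - d1 := ⟨_, rfl⟩
  have hrN : r * N < 0 := by rw [hN']; linarith
  have hN0 : N ≠ 0 := by
    intro h
    rw [h, mul_zero] at hrN
    exact lt_irrefl _ hrN
  have hr0 : r ≠ 0 := by
    intro h
    rw [h, zero_mul] at hrN
    exact lt_irrefl _ hrN
  have pos : ∀ x : ℝ, r * x < 0 → 0 < x / N := by
    intro x hx
    have h5 : x / N = (r * x) / (r * N) := by
      field_simp
    rw [h5]
    exact div_pos_of_neg_of_neg hx hrN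
  have t1 := pos e3 h3
  have t2 := pos (-e4) (by linarith)
  have t3 := pos (-d1) (by linarith)
  have t4 := pos d2 h2
  have u1 : e3 / N + -e4 / N = 1 := by
    rw [← add_div, hN', ← hN]
    rw [hN', ← hN] at hN0
    rw [← sub_eq_add_neg]
    exact div_self hN0
  have u2 : -d1 / N + d2 / N = 1 := by
    rw [← add_div, hN']
    rw [hN'] at hN0
    rw [neg_add_eq_sub]
    exact div_self hN0
  obtain ⟨τ, hτ⟩ : ∃ τ, τ = e3 / N := ⟨_, rfl⟩
  obtain ⟨σ, hσ⟩ : ∃ σ, σ = -d1 / N := ⟨_, rfl⟩
  have eX : (1 - τ) • A + τ • B = (1 - σ) • C + σ • E := by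
    have hτN : τ * N = e3 := by rw [hτ]; field_simp
    have hσN : σ * N = -d1 := by rw [hσ]; field_simp
    have key : (N : ℂ) * ((1 - τ) • A + τ • B) = (N : ℂ) * ((1 - σ) • C + σ • E) := by
      have e1 : ∀ x : ℝ, ∀ z w : ℂ, (N : ℂ) * ((1 - x) • z + x • w) =
          (N : ℂ) * z + ((x * N : ℝ) : ℂ) * (w - z) := by
        intro x z w
        rw [Complex.real_smul, Complex.real_smul]
        push_cast
        ring
      rw [e1, e1, hτN, hσN]
      apply Complex.ext
      · simp only [Complex.add_re, Complex.mul_re, Complex.ofReal_re, Complex.ofReal_im, Complex.sub_re,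
          Complex.sub_im, zero_mul, sub_zero]
        rw [hN', hd2, hd1, he3]
        unfold cr
        simp only [Complex.sub_re, Complex.sub_im]
        ring
      · simp only [Complex.add_im, Complex.mul_im, Complex.ofReal_re, Complex.ofReal_im, Complex.sub_re,
          Complex.sub_im, zero_mul, add_zero]
        rw [hN', hd2, hd1, he3]
        unfold cr
        simp only [Complex.sub_re, Complex.sub_im]
        ring
    have hNc : (N : ℂ) ≠ 0 := by exact_mod_cast hN0
    exact mul_left_cancel₀ hNc key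
  have hBA : B - A ≠ 0 := by
    intro h
    rw [hd1, h] at h1
    unfold cr at h1
    simp at h1
  have hτ1 : 0 < τ := by rw [hτ]; exact t1
  have hτ2 : 0 < 1 - τ := by rw [hτ]; linarith
  have hσ1 : 0 < σ := by rw [hσ]; exact t3
  have hσ2 : 0 < 1 - σ := by rw [hσ]; linarith
  refine ⟨(1 - τ) • A + τ • B, ⟨1 - τ, τ, hτ2.le, hτ1.le, by ring, rfl⟩, ?_, ?_, ?_⟩
  · rw [eX]
    exact ⟨1 - σ, σ, hσ2.le, hσ1.le, by ring, rfl⟩
  · intro h
    have h5 : (τ : ℂ) * (B - A) = 0 := by
      rw [Complex.real_smul, Complex.real_smul] at h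
      push_cast at h
      linear_combination h
    rcases mul_eq_zero.1 h5 with h6 | h6
    · have : τ = 0 := by exact_mod_cast h6
      linarith
    · exact hBA h6
  · intro h
    have h5 : ((1 - τ : ℝ) : ℂ) * (B - A) = 0 := by
      rw [Complex.real_smul, Complex.real_smul] at h
      push_cast at h ⊢
      linear_combination -h
    rcases mul_eq_zero.1 h5 with h6 | h6
    · have : (1 - τ : ℝ) = 0 := by exact_mod_cast h6
      linarith
    · exact hBA h6

private theorem cr_mul (u x y : ℂ) : cr (u * x) (u * y) = Complex.normSq u * cr x y := by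
  unfold cr
  rw [Complex.normSq_apply]
  simp only [Complex.mul_re, Complex.mul_im]
  ring

private theorem cr_real (a : ℝ) (x y : ℂ) : cr ((a : ℂ) * x) y = a * cr x y := by
  unfold cr
  simp only [Complex.mul_re, Complex.mul_im, Complex.ofReal_re, Complex.ofReal_im, zero_mul, sub_zero,
    add_zero]
  ring

private theorem cr_sum (x : ℂ) (k : ℕ) (f : ℕ → ℂ) :
    cr x (∑ j ∈ Finset.range k, f j) = ∑ j ∈ Finset.range k, cr x (f j) := by
  unfold cr
  rw [Complex.re_sum, Complex.im_sum, Finset.mul_sum, Finset.mul_sum, ← Finset.sum_sub_distrib]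

private theorem cr_gz (α β a : ℝ) : cr (gz α) ((a : ℂ) * gz β) = a * Real.sin (β - α) := by
  unfold cr
  simp only [Complex.mul_re, Complex.mul_im, Complex.ofReal_re, Complex.ofReal_im, zero_mul, sub_zero,
    add_zero, gz_re, gz_im]
  rw [Real.sin_sub]
  ring

private theorem cr_neg (x y : ℂ) : cr x (-y) = -cr x y := by
  unfold cr
  simp only [Complex.neg_re, Complex.neg_im]
  ring

private theorem lr_sum (k : ℕ) (f : ℕ → ℝ) : ((List.range k).map f).sum = ∑ j ∈ Finset.range k, f j := by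
  induction k with
  | zero => simp
  | succ k ih =>
    rw [List.range_succ, List.map_append, List.sum_append, ih, Finset.sum_range_succ]
    simp

variable {n : ℕ} {P : Polygon n} {m : ℕ} [NeZero m]

theorem V_neZ (S : Arcs P m) {i k : ℕ} (h0 : 0 < k) (hk : k < m) :
    S.V ((i + k : ℕ) : ZMod m) ≠ S.V (i : ZMod m) := by
  have hκ : ∀ k : ℕ, S.κ ((i + k : ℕ) : ZMod m) =
      S.κ (i : ZMod m) + ((∑ j ∈ Finset.range k, S.w ((i + j : ℕ) : ZMod m) : ℕ) : ZMod n) := by
    intro k
    induction k with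
    | zero => simp
    | succ k ih =>
      rw [Finset.sum_range_succ, ← Nat.add_assoc, Nat.cast_succ, S.step, ih]
      push_cast
      ring
  intro h
  have h1 := P.injective h
  rw [hκ k] at h1
  have h2 : ((∑ j ∈ Finset.range k, S.w ((i + j : ℕ) : ZMod m) : ℕ) : ZMod n) = 0 := by
    have h3 : S.κ (i : ZMod m) + ((∑ j ∈ Finset.range k, S.w ((i + j : ℕ) : ZMod m) : ℕ) : ZMod n) =
        S.κ (i : ZMod m) + 0 := by rw [h1, add_zero]
    exact add_left_cancel h3
  rw [ZMod.natCast_eq_zero_iff] at h2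
  have hinj : ∀ x < m, ∀ y < m, ((i + x : ℕ) : ZMod m) = ((i + y : ℕ) : ZMod m) → x = y := by
    intro x hx y hy hxy
    rw [Nat.cast_add, Nat.cast_add] at hxy
    have h3 : (x : ZMod m) = (y : ZMod m) := add_left_cancel hxy
    have h4 := congrArg ZMod.val h3
    rwa [ZMod.val_natCast_of_lt hx, ZMod.val_natCast_of_lt hy] at h4
  have h3 : ∑ j ∈ Finset.range k, S.w ((i + j : ℕ) : ZMod m) < n := by
    have h4 : ∑ j ∈ Finset.range k, S.w ((i + j : ℕ) : ZMod m) =
        ∑ x ∈ (Finset.range k).image (fun j => ((i + j : ℕ) : ZMod m)), S.w x := by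
      rw [Finset.sum_image]
      intro x hx y hy hxy
      exact hinj x (by have := Finset.mem_range.1 hx; omega) y (by have := Finset.mem_range.1 hy; omega) hxy
    rw [h4]
    refine lt_of_lt_of_eq (Finset.sum_lt_sum_of_subset (Finset.subset_univ _)
      (Finset.mem_univ ((i + k : ℕ) : ZMod m)) ?_ (S.w_pos _) (fun _ _ _ => Nat.zero_le _)) S.total
    intro h5
    rw [Finset.mem_image] at h5
    obtain ⟨x, hx, hxy⟩ := h5
    have h6 := Finset.mem_range.1 hx
    have := hinj x (by omega) k hk hxy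
    omega
  have h5 : 0 < ∑ j ∈ Finset.range k, S.w ((i + j : ℕ) : ZMod m) :=
    Finset.sum_pos (fun j _ => S.w_pos _) ⟨0, Finset.mem_range.2 h0⟩
  have := Nat.le_of_dvd h5 h2
  omega

theorem sum_chZ (S : Arcs P m) (i k : ℕ) :
    ∑ j ∈ Finset.range k, S.ch ((i + j : ℕ) : ZMod m) =
      S.V ((i + k : ℕ) : ZMod m) - S.V (i : ZMod m) := by
  induction k with
  | zero => simp
  | succ k ih =>
    rw [Finset.sum_range_succ, ih, ← Nat.add_assoc, Nat.cast_succ]
    unfold Arcs.ch
    ring

/-- the sides `p` and `q` do not cross -/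
theorem crsB_sound (S : Arcs P m) (hw : ∀ j, S.w j = 1) {w : List ℕ} {K : ℕ} {D : ℤ} (hD : 0 < D)
    {ds : List (ℤ × ℤ)} {t : ℝ} {l : ℕ → ℝ} (hl : ∀ c, 0 < l c) (hK : ∀ j < m, clW w j < K)
    {u : ℂ} (hu : u ≠ 0)
    (hch : ∀ j < m, S.ch (j : ZMod m) = u * ((l (clW w j) : ℂ) * gz (zang D t (ds.getD j (0, 0)))))
    (hsum : ∀ θ : ℝ, ∑ j ∈ Finset.range m, l (clW w j) * Real.cos (zang D t (ds.getD j (0, 0)) - θ) = 0)
    {p q : ℕ} {r : ℤ} {M1 M2 M3 M4 : ℤ × ℤ} {s hh : ℤ} (ht : |t * 1048576 - s| ≤ hh)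
    (h : crsB m w K D ds p q r M1 M2 M3 M4 s hh = true) : False := by
  unfold crsB at h
  simp only [Bool.and_eq_true, decide_eq_true_eq] at h
  obtain ⟨⟨⟨⟨⟨⟨hpq, hqm⟩, hK0⟩, h1⟩, h2⟩, h3⟩, h4⟩ := h
  have hcos : ∑ j ∈ Finset.range m, l (clW w j) * Real.cos (zang D t (ds.getD j (0, 0))) = 0 := by
    have := hsum 0
    simpa using this
  have hsin : ∑ j ∈ Finset.range m, l (clW w j) * Real.sin (zang D t (ds.getD j (0, 0))) = 0 := by
    have := hsum (Real.pi / 2)
    rw [← this]
    refine Finset.sum_congr rfl fun j _ => ?_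
    rw [Real.cos_sub_pi_div_two]
  -- the meaning of the four tests
  have key : ∀ (lo k q' : ℕ) (r' : ℤ) (M : ℤ × ℤ), lo + k ≤ m →
      wpos K D s hh (wcrs w ds lo k q' r' ++ wcls m w ds M) = true →
      0 < (r' : ℝ) * ∑ j ∈ Finset.range k, l (clW w (lo + j)) *
        Real.sin (zang D t (ds.getD (lo + j) (0, 0)) - zang D t (ds.getD q' (0, 0))) := by
    intro lo k q' r' M hlo h5
    have h6 := wpos_sound hD ht hl hK0 (T := wcrs w ds lo k q' r' ++ wcls m w ds M) ?_ h5
    · rw [List.map_append, List.sum_append] at h6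
      have e1 : ((wcls m w ds M).map fun x => l x.1 * ((x.2.1.1 : ℝ) * Real.cos (zang D t x.2.2) +
          x.2.1.2 * Real.sin (zang D t x.2.2))).sum = 0 := by
        unfold wcls
        rw [List.map_map, lr_sum]
        have e2 : ∀ j ∈ Finset.range m, (((fun x : ℕ × (ℤ × ℤ) × (ℤ × ℤ) => l x.1 * ((x.2.1.1 : ℝ) *
            Real.cos (zang D t x.2.2) + x.2.1.2 * Real.sin (zang D t x.2.2))) ∘
            fun j => (clW w j, M, ds.getD j (0, 0))) j) =
            (M.1 : ℝ) * (l (clW w j) * Real.cos (zang D t (ds.getD j (0, 0)))) +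
            (M.2 : ℝ) * (l (clW w j) * Real.sin (zang D t (ds.getD j (0, 0)))) := by
          intro j _
          simp only [Function.comp_apply]
          ring
        rw [Finset.sum_congr rfl e2, Finset.sum_add_distrib, ← Finset.mul_sum, ← Finset.mul_sum, hcos, hsin]
        ring
      rw [e1, add_zero] at h6
      have e3 : ((wcrs w ds lo k q' r').map fun x => l x.1 * ((x.2.1.1 : ℝ) * Real.cos (zang D t x.2.2) +
          x.2.1.2 * Real.sin (zang D t x.2.2))).sum =
          (r' : ℝ) * ∑ j ∈ Finset.range k, l (clW w (lo + j)) *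
            Real.sin (zang D t (ds.getD (lo + j) (0, 0)) - zang D t (ds.getD q' (0, 0))) := by
        unfold wcrs
        rw [List.map_map, lr_sum, Finset.mul_sum]
        refine Finset.sum_congr rfl fun j _ => ?_
        simp only [Function.comp_apply]
        have e4 : zang D t ((ds.getD (lo + j) (0, 0)).1 - (ds.getD q' (0, 0)).1,
            (ds.getD (lo + j) (0, 0)).2 - (ds.getD q' (0, 0)).2) =
            zang D t (ds.getD (lo + j) (0, 0)) - zang D t (ds.getD q' (0, 0)) := by
          unfold zang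
          push_cast
          ring
        rw [e4]
        push_cast
        ring
      rw [e3] at h6
      exact h6
    · intro x hx
      rcases List.mem_append.1 hx with hx | hx
      · unfold wcrs at hx
        rw [List.mem_map] at hx
        obtain ⟨j, hj, rfl⟩ := hx
        exact hK _ (by have := List.mem_range.1 hj; omega)
      · unfold wcls at hx
        rw [List.mem_map] at hx
        obtain ⟨j, hj, rfl⟩ := hx
        exact hK _ (List.mem_range.1 hj)
  have f1 := key p (q - p) p r M1 (by omega) h1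
  have f2 := key p (q - p + 1) p (-r) M2 (by omega) h2
  have f3 := key p (q - p) q r M3 (by omega) h3
  have f4 := key (p + 1) (q - p - 1) q (-r) M4 (by omega) h4
  -- cross products
  have hcr : ∀ (lo k q' : ℕ), lo + k ≤ m → q' < m →
      cr (S.ch (q' : ZMod m)) (S.V ((lo + k : ℕ) : ZMod m) - S.V (lo : ZMod m)) =
        Complex.normSq u * (l (clW w q') * ∑ j ∈ Finset.range k, l (clW w (lo + j)) *
          Real.sin (zang D t (ds.getD (lo + j) (0, 0)) - zang D t (ds.getD q' (0, 0)))) := by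
    intro lo k q' hlo hq'
    rw [← sum_chZ, hch q' hq', Finset.sum_congr rfl (fun j hj => hch (lo + j) (by
      have := Finset.mem_range.1 hj; omega)), ← Finset.mul_sum, cr_mul, cr_real, cr_sum]
    congr 2
    exact Finset.sum_congr rfl fun j _ => cr_gz _ _ _
  have hu' : 0 < Complex.normSq u := Complex.normSq_pos.2 hu
  have eB : S.V ((p : ZMod m) + 1) - S.V (p : ZMod m) = S.ch (p : ZMod m) := rfl
  have eE : S.V ((q : ZMod m) + 1) - S.V (q : ZMod m) = S.ch (q : ZMod m) := rfl
  have g1 := hcr p (q - p) p (by omega) (by omega)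
  have g2 := hcr p (q - p + 1) p (by omega) (by omega)
  have g3 := hcr p (q - p) q (by omega) (by omega)
  have g4 := hcr (p + 1) (q - p - 1) q (by omega) (by omega)
  have i1 : p + (q - p) = q := by omega
  have i2 : p + (q - p + 1) = q + 1 := by omega
  have i3 : p + 1 + (q - p - 1) = q := by omega
  rw [i1] at g1 g3
  rw [i2, Nat.cast_succ] at g2
  rw [i3, Nat.cast_succ] at g4
  have hlp := hl (clW w p)
  have hlq := hl (clW w q)
  obtain ⟨X, hX1, hX2, hX3, hX4⟩ := cross_pt (A := S.V (p : ZMod m)) (B := S.V ((p : ZMod m) + 1))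
    (C := S.V (q : ZMod m)) (E := S.V ((q : ZMod m) + 1)) (r := (r : ℝ))
    (by
      rw [eB, g1]
      have := mul_pos hu' (mul_pos hlp f1)
      calc (0 : ℝ) < _ := this
        _ = _ := by ring)
    (by
      rw [eB, g2]
      have := mul_pos hu' (mul_pos hlp f2)
      push_cast at this
      have e : (r : ℝ) * (Complex.normSq u * (l (clW w p) * ∑ j ∈ Finset.range (q - p + 1),
          l (clW w (p + j)) * Real.sin (zang D t (ds.getD (p + j) (0, 0)) - zang D t (ds.getD p (0, 0))))) =
          -(Complex.normSq u * (l (clW w p) * (-(r : ℝ) * ∑ j ∈ Finset.range (q - p + 1),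
          l (clW w (p + j)) * Real.sin (zang D t (ds.getD (p + j) (0, 0)) - zang D t (ds.getD p (0, 0)))))) := by
        ring
      rw [e]
      linarith)
    (by
      rw [eE]
      have e0 : S.V (p : ZMod m) - S.V (q : ZMod m) = -(S.V (q : ZMod m) - S.V (p : ZMod m)) := by ring
      rw [e0, cr_neg, g3]
      have := mul_pos hu' (mul_pos hlq f3)
      have e : (r : ℝ) * -(Complex.normSq u * (l (clW w q) * ∑ j ∈ Finset.range (q - p),
          l (clW w (p + j)) * Real.sin (zang D t (ds.getD (p + j) (0, 0)) - zang D t (ds.getD q (0, 0))))) =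
          -(Complex.normSq u * (l (clW w q) * ((r : ℝ) * ∑ j ∈ Finset.range (q - p),
          l (clW w (p + j)) * Real.sin (zang D t (ds.getD (p + j) (0, 0)) - zang D t (ds.getD q (0, 0)))))) := by
        ring
      rw [e]
      linarith)
    (by
      rw [eE]
      have e0 : S.V ((p : ZMod m) + 1) - S.V (q : ZMod m) = -(S.V (q : ZMod m) - S.V ((p : ZMod m) + 1)) := by
        ring
      rw [e0, cr_neg, g4]
      have := mul_pos hu' (mul_pos hlq f4)
      push_cast at this
      calc (0 : ℝ) < _ := this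
        _ = _ := by ring)
  have hκ : S.κ (p : ZMod m) ≠ S.κ (q : ZMod m) := by
    intro h5
    have h6 := V_neZ S (i := p) (k := q - p) (by omega) (by omega)
    rw [i1] at h6
    apply h6
    unfold Arcs.V
    rw [h5]
  have hV : ∀ j, P.vertex (S.κ j + 1) = S.V (j + 1) := by
    intro j
    unfold Arcs.V
    rw [S.step, hw j, Nat.cast_one]
  have h7 := P.simple (S.κ (p : ZMod m)) (S.κ (q : ZMod m)) hκ
  rw [hV, hV] at h7
  have h8 := h7 ⟨hX1, hX2⟩
  rcases h8.1 with h9 | h9
  · exact hX3 h9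
  · exact hX4 h9

end Pool.Agent.Lib_MP_fa6e45
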