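import Pool.Agent.Lib_MP_fa6e45.CT5

/-!
MP_fa6e45_co, stage 9: straight-side patterns with `3` sides, the list of tori (generated by a program).
-/

namespace Pool.Agent.Lib_MP_fa6e45

/-- all tables -/
def ttD3 : List TorT :=
  []

theorem ttD3_ok : ∀ T ∈ ttD3, T.OK 3 := by
  intro T hT
  simp [ttD3] at hT

end Pool.Agent.Lib_MP_fa6e45
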