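import Pool.Agent.Lib_MP_fa6e45.DQA
import Pool.Agent.Lib_MP_fa6e45.DQ3T

/-!
MP_fa6e45_co, stage 9: straight-side patterns with `3` sides, certificates (generated by a program).
-/

namespace Pool.Agent.Lib_MP_fa6e45

/-- classes `0 0 0` -/
noncomputable def cD3_0_w : List ℕ := [k0,k0,k0]

/-- symmetries -/
noncomputable def cD3_0_s : List (Bool × ℕ × List ℕ) :=
  []

/-- steps -/
noncomputable def cD3_0_t : List (ℕ × ℕ × ℕ × ℕ × ℕ × ℕ) :=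
  [(k0,k16,k0,k0,k2,k4),(k1,k34,k0,k1,k5,k4),(k2,k28,k0,k2,k4,k4),(k3,k10,k0,k3,k1,k4),(k4,k4,k0,k4,k0,k4),(k5,k22,k0,
    k5,k3,k4),(k6,k15,k1,k0,k2,k3),(k7,k33,k1,k1,k5,k3),(k8,k27,k1,k2,k4,k3),(k9,k9,k1,k3,k1,k3),(k11,k21,k1,k5,k3,
    k3),(k12,k12,k2,k0,k2,k0),(k13,k30,k2,k1,k5,k0),(k14,k24,k2,k2,k4,k0),(k17,k18,k2,k5,k3,k0),(k19,k35,k3,k1,k5,k5),
    (k20,k29,k3,k2,k4,k5),(k23,k23,k3,k5,k3,k5),(k25,k32,k4,k1,k5,k2),(k26,k26,k4,k2,k4,k2),(k31,k31,k5,k1,k5,k1)]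

/-- equations of the nodes -/
noncomputable def cD3_0_D : List (List (List (List (ℕ × ℕ)))) :=
  [[[[]]]]

/-- nodes -/
noncomputable def cD3_0_n : List (QG PN) :=
  [.q (.old []
    (.z (.x (.old (.leafM k0 [k0,k1,k2] [] [])))))]

theorem cD3_0 : NodeU 3 cD3_0_w [] :=
  nodeG_of (C := 1) (sy := cD3_0_s) (st := cD3_0_t) (D := cD3_0_D) (Ns := cD3_0_n) (by norm_num) (by norm_num)
    ttD3_ok (by decide +kernel) (by decide +kernel) (by decide +kernel)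

/-- classes `0 0 1` -/
noncomputable def cD3_1_w : List ℕ := [k0,k0,k16]

/-- symmetries -/
noncomputable def cD3_1_s : List (Bool × ℕ × List ℕ) :=
  []

/-- steps -/
noncomputable def cD3_1_t : List (ℕ × ℕ × ℕ × ℕ × ℕ × ℕ) :=
  [(k1,k34,k0,k1,k5,k4),(k4,k4,k0,k4,k0,k4),(k6,k15,k1,k0,k2,k3),(k8,k27,k1,k2,k4,k3),(k9,k9,k1,k3,k1,k3),(k11,k21,k1,
    k5,k3,k3),(k12,k12,k2,k0,k2,k0),(k14,k24,k2,k2,k4,k0),(k17,k18,k2,k5,k3,k0),(k20,k29,k3,k2,k4,k5),(k23,k23,k3,k5,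
    k3,k5),(k26,k26,k4,k2,k4,k2),(k31,k31,k5,k1,k5,k1)]

/-- equations of the nodes -/
noncomputable def cD3_1_D : List (List (List (List (ℕ × ℕ)))) :=
  [[[[]]]]

/-- nodes -/
noncomputable def cD3_1_n : List (QG PN) :=
  [.q (.old []
    (.z (.x (.old (.leafM k0 [k0,k1,k2] [] [])))))]

theorem cD3_1 : NodeU 3 cD3_1_w [] :=
  nodeG_of (C := 2) (sy := cD3_1_s) (st := cD3_1_t) (D := cD3_1_D) (Ns := cD3_1_n) (by norm_num) (by norm_num)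
    ttD3_ok (by decide +kernel) (by decide +kernel) (by decide +kernel)

/-- classes `0 1 2` -/
noncomputable def cD3_2_w : List ℕ := [k0,k16,k32]

/-- symmetries -/
noncomputable def cD3_2_s : List (Bool × ℕ × List ℕ) :=
  []

/-- steps -/
noncomputable def cD3_2_t : List (ℕ × ℕ × ℕ × ℕ × ℕ × ℕ) :=
  [(k1,k34,k0,k1,k5,k4),(k4,k4,k0,k4,k0,k4),(k6,k15,k1,k0,k2,k3),(k9,k9,k1,k3,k1,k3),(k12,k12,k2,k0,k2,k0),(k20,k29,
    k3,k2,k4,k5),(k23,k23,k3,k5,k3,k5),(k26,k26,k4,k2,k4,k2),(k31,k31,k5,k1,k5,k1)]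

/-- equations of the nodes -/
noncomputable def cD3_2_D : List (List (List (List (ℕ × ℕ)))) :=
  [[[[]]]]

/-- nodes -/
noncomputable def cD3_2_n : List (QG PN) :=
  [.q (.old []
    (.z (.x (.old (.leafM k0 [k0,k1,k2] [] [])))))]

theorem cD3_2 : NodeU 3 cD3_2_w [] :=
  nodeG_of (C := 3) (sy := cD3_2_s) (st := cD3_2_t) (D := cD3_2_D) (Ns := cD3_2_n) (by norm_num) (by norm_num)
    ttD3_ok (by decide +kernel) (by decide +kernel) (by decide +kernel)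

theorem sD3_0 : Solved 3 [cD3_0_w, cD3_1_w, cD3_2_w] :=
  Solved.cons cD3_0 (
  Solved.cons cD3_1 (
  Solved.cons cD3_2 (
  Solved.nil)))

end Pool.Agent.Lib_MP_fa6e45
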