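import Pool.Agent.Lib_MP_fa6e45.DQA
import Pool.Agent.Lib_MP_fa6e45.DQ4T

/-!
MP_fa6e45_co, stage 9: straight-side patterns with `4` sides, certificates (generated by a program).
-/

namespace Pool.Agent.Lib_MP_fa6e45

/-- classes `0 0 0 0` -/
noncomputable def cD4_0_w : List ℕ := [k0,k0,k0,k0]

/-- symmetries -/
noncomputable def cD4_0_s : List (Bool × ℕ × List ℕ) :=
  []

/-- steps -/
noncomputable def cD4_0_t : List (ℕ × ℕ × ℕ × ℕ × ℕ × ℕ) :=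
  [(k0,k22,k0,k0,k2,k6),(k1,k62,k0,k1,k7,k6),(k2,k38,k0,k2,k4,k6),(k3,k14,k0,k3,k1,k6),(k4,k54,k0,k4,k6,k6),(k5,k30,
    k0,k5,k3,k6),(k6,k6,k0,k6,k0,k6),(k7,k46,k0,k7,k5,k6),(k8,k19,k1,k0,k2,k3),(k9,k59,k1,k1,k7,k3),(k10,k35,k1,k2,k4,
    k3),(k11,k11,k1,k3,k1,k3),(k12,k51,k1,k4,k6,k3),(k13,k27,k1,k5,k3,k3),(k15,k43,k1,k7,k5,k3),(k16,k16,k2,k0,k2,k0),
    (k17,k56,k2,k1,k7,k0),(k18,k32,k2,k2,k4,k0),(k20,k48,k2,k4,k6,k0),(k21,k24,k2,k5,k3,k0),(k23,k40,k2,k7,k5,k0),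
    (k25,k61,k3,k1,k7,k5),(k26,k37,k3,k2,k4,k5),(k28,k53,k3,k4,k6,k5),(k29,k29,k3,k5,k3,k5),(k31,k45,k3,k7,k5,k5),
    (k33,k58,k4,k1,k7,k2),(k34,k34,k4,k2,k4,k2),(k36,k50,k4,k4,k6,k2),(k39,k42,k4,k7,k5,k2),(k41,k63,k5,k1,k7,k7),
    (k44,k55,k5,k4,k6,k7),(k47,k47,k5,k7,k5,k7),(k49,k60,k6,k1,k7,k4),(k52,k52,k6,k4,k6,k4),(k57,k57,k7,k1,k7,k1)]

/-- equations of the nodes -/
noncomputable def cD4_0_D : List (List (List (List (ℕ × ℕ)))) :=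
  [[[[]]]]

/-- nodes -/
noncomputable def cD4_0_n : List (QG PN) :=
  [.q (.old []
    (.z (.x (.old (.leafM k0 [k0,k1,k2,k3] [] [])))))]

theorem cD4_0 : NodeU 4 cD4_0_w [] :=
  nodeG_of (C := 1) (sy := cD4_0_s) (st := cD4_0_t) (D := cD4_0_D) (Ns := cD4_0_n) (by norm_num) (by norm_num)
    ttD4_ok (by decide +kernel) (by decide +kernel) (by decide +kernel)

/-- classes `0 0 0 1` -/
noncomputable def cD4_1_w : List ℕ := [k0,k0,k0,k16]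

/-- symmetries -/
noncomputable def cD4_1_s : List (Bool × ℕ × List ℕ) :=
  []

/-- steps -/
noncomputable def cD4_1_t : List (ℕ × ℕ × ℕ × ℕ × ℕ × ℕ) :=
  [(k1,k62,k0,k1,k7,k6),(k6,k6,k0,k6,k0,k6),(k8,k19,k1,k0,k2,k3),(k10,k35,k1,k2,k4,k3),(k11,k11,k1,k3,k1,k3),(k12,k51,
    k1,k4,k6,k3),(k13,k27,k1,k5,k3,k3),(k15,k43,k1,k7,k5,k3),(k16,k16,k2,k0,k2,k0),(k18,k32,k2,k2,k4,k0),(k20,k48,k2,
    k4,k6,k0),(k21,k24,k2,k5,k3,k0),(k23,k40,k2,k7,k5,k0),(k26,k37,k3,k2,k4,k5),(k28,k53,k3,k4,k6,k5),(k29,k29,k3,k5,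
    k3,k5),(k31,k45,k3,k7,k5,k5),(k34,k34,k4,k2,k4,k2),(k36,k50,k4,k4,k6,k2),(k39,k42,k4,k7,k5,k2),(k44,k55,k5,k4,k6,
    k7),(k47,k47,k5,k7,k5,k7),(k52,k52,k6,k4,k6,k4),(k57,k57,k7,k1,k7,k1)]

/-- equations of the nodes -/
noncomputable def cD4_1_D : List (List (List (List (ℕ × ℕ)))) :=
  [[[[]]]]

/-- nodes -/
noncomputable def cD4_1_n : List (QG PN) :=
  [.q (.old []
    (.z (.x (.old (.leafM k0 [k0,k1,k2,k3] [] [])))))]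

theorem cD4_1 : NodeU 4 cD4_1_w [] :=
  nodeG_of (C := 2) (sy := cD4_1_s) (st := cD4_1_t) (D := cD4_1_D) (Ns := cD4_1_n) (by norm_num) (by norm_num)
    ttD4_ok (by decide +kernel) (by decide +kernel) (by decide +kernel)

/-- classes `0 0 1 1` -/
noncomputable def cD4_2_w : List ℕ := [k0,k0,k16,k16]

/-- symmetries -/
noncomputable def cD4_2_s : List (Bool × ℕ × List ℕ) :=
  []

/-- steps -/
noncomputable def cD4_2_t : List (ℕ × ℕ × ℕ × ℕ × ℕ × ℕ) :=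
  [(k1,k62,k0,k1,k7,k6),(k4,k54,k0,k4,k6,k6),(k6,k6,k0,k6,k0,k6),(k7,k46,k0,k7,k5,k6),(k8,k19,k1,k0,k2,k3),(k10,k35,
    k1,k2,k4,k3),(k11,k11,k1,k3,k1,k3),(k13,k27,k1,k5,k3,k3),(k16,k16,k2,k0,k2,k0),(k18,k32,k2,k2,k4,k0),(k21,k24,k2,
    k5,k3,k0),(k26,k37,k3,k2,k4,k5),(k29,k29,k3,k5,k3,k5),(k34,k34,k4,k2,k4,k2),(k41,k63,k5,k1,k7,k7),(k44,k55,k5,k4,
    k6,k7),(k47,k47,k5,k7,k5,k7),(k49,k60,k6,k1,k7,k4),(k52,k52,k6,k4,k6,k4),(k57,k57,k7,k1,k7,k1)]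

/-- equations of the nodes -/
noncomputable def cD4_2_D : List (List (List (List (ℕ × ℕ)))) :=
  [[[[]]]]

/-- nodes -/
noncomputable def cD4_2_n : List (QG PN) :=
  [.q (.old []
    (.z (.x (.old (.leafM k0 [k0,k1,k2,k3] [] [])))))]

theorem cD4_2 : NodeU 4 cD4_2_w [] :=
  nodeG_of (C := 2) (sy := cD4_2_s) (st := cD4_2_t) (D := cD4_2_D) (Ns := cD4_2_n) (by norm_num) (by norm_num)
    ttD4_ok (by decide +kernel) (by decide +kernel) (by decide +kernel)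

/-- classes `0 0 1 2` -/
noncomputable def cD4_3_w : List ℕ := [k0,k0,k16,k32]

/-- symmetries -/
noncomputable def cD4_3_s : List (Bool × ℕ × List ℕ) :=
  []

/-- steps -/
noncomputable def cD4_3_t : List (ℕ × ℕ × ℕ × ℕ × ℕ × ℕ) :=
  [(k1,k62,k0,k1,k7,k6),(k6,k6,k0,k6,k0,k6),(k8,k19,k1,k0,k2,k3),(k10,k35,k1,k2,k4,k3),(k11,k11,k1,k3,k1,k3),(k13,k27,
    k1,k5,k3,k3),(k16,k16,k2,k0,k2,k0),(k18,k32,k2,k2,k4,k0),(k21,k24,k2,k5,k3,k0),(k26,k37,k3,k2,k4,k5),(k29,k29,k3,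
    k5,k3,k5),(k34,k34,k4,k2,k4,k2),(k44,k55,k5,k4,k6,k7),(k47,k47,k5,k7,k5,k7),(k52,k52,k6,k4,k6,k4),(k57,k57,k7,k1,
    k7,k1)]

/-- equations of the nodes -/
noncomputable def cD4_3_D : List (List (List (List (ℕ × ℕ)))) :=
  [[[[]]]]

/-- nodes -/
noncomputable def cD4_3_n : List (QG PN) :=
  [.q (.old []
    (.z (.x (.old (.leafM k0 [k0,k1,k2,k3] [] [])))))]

theorem cD4_3 : NodeU 4 cD4_3_w [] :=
  nodeG_of (C := 3) (sy := cD4_3_s) (st := cD4_3_t) (D := cD4_3_D) (Ns := cD4_3_n) (by norm_num) (by norm_num)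
    ttD4_ok (by decide +kernel) (by decide +kernel) (by decide +kernel)

/-- classes `0 1 0 1` -/
noncomputable def cD4_4_w : List ℕ := [k0,k16,k0,k16]

/-- symmetries -/
noncomputable def cD4_4_s : List (Bool × ℕ × List ℕ) :=
  []

/-- steps -/
noncomputable def cD4_4_t : List (ℕ × ℕ × ℕ × ℕ × ℕ × ℕ) :=
  [(k1,k62,k0,k1,k7,k6),(k2,k38,k0,k2,k4,k6),(k5,k30,k0,k5,k3,k6),(k6,k6,k0,k6,k0,k6),(k8,k19,k1,k0,k2,k3),(k11,k11,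
    k1,k3,k1,k3),(k12,k51,k1,k4,k6,k3),(k15,k43,k1,k7,k5,k3),(k16,k16,k2,k0,k2,k0),(k20,k48,k2,k4,k6,k0),(k23,k40,k2,
    k7,k5,k0),(k25,k61,k3,k1,k7,k5),(k26,k37,k3,k2,k4,k5),(k29,k29,k3,k5,k3,k5),(k33,k58,k4,k1,k7,k2),(k34,k34,k4,k2,
    k4,k2),(k44,k55,k5,k4,k6,k7),(k47,k47,k5,k7,k5,k7),(k52,k52,k6,k4,k6,k4),(k57,k57,k7,k1,k7,k1)]

/-- equations of the nodes -/
noncomputable def cD4_4_D : List (List (List (List (ℕ × ℕ)))) :=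
  [[[[]]]]

/-- nodes -/
noncomputable def cD4_4_n : List (QG PN) :=
  [.q (.old []
    (.z (.x (.old (.leafM k0 [k0,k1,k2,k3] [] [])))))]

theorem cD4_4 : NodeU 4 cD4_4_w [] :=
  nodeG_of (C := 2) (sy := cD4_4_s) (st := cD4_4_t) (D := cD4_4_D) (Ns := cD4_4_n) (by norm_num) (by norm_num)
    ttD4_ok (by decide +kernel) (by decide +kernel) (by decide +kernel)

/-- classes `0 1 0 2` -/
noncomputable def cD4_5_w : List ℕ := [k0,k16,k0,k32]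

/-- symmetries -/
noncomputable def cD4_5_s : List (Bool × ℕ × List ℕ) :=
  []

/-- steps -/
noncomputable def cD4_5_t : List (ℕ × ℕ × ℕ × ℕ × ℕ × ℕ) :=
  [(k1,k62,k0,k1,k7,k6),(k6,k6,k0,k6,k0,k6),(k8,k19,k1,k0,k2,k3),(k11,k11,k1,k3,k1,k3),(k12,k51,k1,k4,k6,k3),(k15,k43,
    k1,k7,k5,k3),(k16,k16,k2,k0,k2,k0),(k20,k48,k2,k4,k6,k0),(k23,k40,k2,k7,k5,k0),(k26,k37,k3,k2,k4,k5),(k29,k29,k3,
    k5,k3,k5),(k34,k34,k4,k2,k4,k2),(k44,k55,k5,k4,k6,k7),(k47,k47,k5,k7,k5,k7),(k52,k52,k6,k4,k6,k4),(k57,k57,k7,k1,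
    k7,k1)]

/-- equations of the nodes -/
noncomputable def cD4_5_D : List (List (List (List (ℕ × ℕ)))) :=
  [[[[]]]]

/-- nodes -/
noncomputable def cD4_5_n : List (QG PN) :=
  [.q (.old []
    (.z (.x (.old (.leafM k0 [k0,k1,k2,k3] [] [])))))]

theorem cD4_5 : NodeU 4 cD4_5_w [] :=
  nodeG_of (C := 3) (sy := cD4_5_s) (st := cD4_5_t) (D := cD4_5_D) (Ns := cD4_5_n) (by norm_num) (by norm_num)
    ttD4_ok (by decide +kernel) (by decide +kernel) (by decide +kernel)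

/-- classes `0 1 2 3` -/
noncomputable def cD4_6_w : List ℕ := [k0,k16,k32,k48]

/-- symmetries -/
noncomputable def cD4_6_s : List (Bool × ℕ × List ℕ) :=
  []

/-- steps -/
noncomputable def cD4_6_t : List (ℕ × ℕ × ℕ × ℕ × ℕ × ℕ) :=
  [(k1,k62,k0,k1,k7,k6),(k6,k6,k0,k6,k0,k6),(k8,k19,k1,k0,k2,k3),(k11,k11,k1,k3,k1,k3),(k16,k16,k2,k0,k2,k0),(k26,k37,
    k3,k2,k4,k5),(k29,k29,k3,k5,k3,k5),(k34,k34,k4,k2,k4,k2),(k44,k55,k5,k4,k6,k7),(k47,k47,k5,k7,k5,k7),(k52,k52,k6,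
    k4,k6,k4),(k57,k57,k7,k1,k7,k1)]

/-- equations of the nodes -/
noncomputable def cD4_6_D : List (List (List (List (ℕ × ℕ)))) :=
  [[[[]]]]

/-- nodes -/
noncomputable def cD4_6_n : List (QG PN) :=
  [.q (.old []
    (.z (.x (.old (.leafM k0 [k0,k1,k2,k3] [] [])))))]

theorem cD4_6 : NodeU 4 cD4_6_w [] :=
  nodeG_of (C := 4) (sy := cD4_6_s) (st := cD4_6_t) (D := cD4_6_D) (Ns := cD4_6_n) (by norm_num) (by norm_num)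
    ttD4_ok (by decide +kernel) (by decide +kernel) (by decide +kernel)

theorem sD4_0 : Solved 4 [cD4_0_w, cD4_1_w, cD4_2_w, cD4_3_w, cD4_4_w, cD4_5_w, cD4_6_w] :=
  Solved.cons cD4_0 (
  Solved.cons cD4_1 (
  Solved.cons cD4_2 (
  Solved.cons cD4_3 (
  Solved.cons cD4_4 (
  Solved.cons cD4_5 (
  Solved.cons cD4_6 (
  Solved.nil)))))))

end Pool.Agent.Lib_MP_fa6e45
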