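import Pool.Agent.Lib_MP_fa6e45.CT5

/-!
MP_fa6e45_co, stage 9: straight-side patterns with `5` sides, tables of tori (generated by a program).
-/

namespace Pool.Agent.Lib_MP_fa6e45

/-- the torus -/
def ttd5_6 : TT where
  k := 4
  rf := [false, true, false, true]
  tau := [7, 12, 5, 14, 16, 2, 17, 0, 19, 11, 18, 9, 1, 15, 3, 13, 4, 6, 10, 8]
  par := [0, 0, 1, 4]
  stars := [[0, 17, 7], [1, 8, 15, 13], [2, 12, 5], [3, 6, 18, 10], [4, 14, 16], [9, 11, 19]]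
  word := [[], [], [3], [1], [], [2], [2, 1, 3, 0], [], [0], [2], [3, 0], [3], [], [0], [0], [1], [], [1, 2, 0, 3],
    [1, 2], [1]]
  rank := [0, 0, 1, 2, 0, 1, 3, 0, 0, 0, 1, 0, 0, 1, 2, 1, 0, 3, 1, 0]
  just := [0, 0, 2, 4, 0, 2, 3, 0, 0, 0, 5, 0, 0, 1, 4, 1, 0, 3, 5, 0]
  gA := 8
  gB := 9
  fin := 0
  sid := [0, 1, 2, 3, 4, 2, 3, 0, 1, 5, 3, 5, 2, 1, 4, 1, 4, 0, 3, 5]
  off := [(0, 0), (0, 0), (0, 0), (0, 0), (0, 0), (0, 1), (0, 1), (0, 0), (0, 0), (0, 0), (1, 0), (0, -1), (0, 0),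
    (0, 0), (1, 0), (-1, 0), (0, 0), (0, 0), (0, 1), (-1, 0)]

/-- glued arcs and equations -/
def tord5_6 : TorT :=
  ⟨[(0, 2, false), (0, 3, false), (1, 2, true), (1, 4, false), (3, 4, true)],
    [([0, 1, 0, 0, 2], 2), ([1, 0, 2, 0, 0], 2), ([1, 1, 0, 2, 0], 2)]⟩

theorem tord5_6_ok : tord5_6.OK 5 := TT.leaf_ok (T := ttd5_6) (by decide +kernel)

/-- the torus -/
def ttd5_7 : TT where
  k := 2
  rf := [false, true]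
  tau := [2, 7, 0, 5, 9, 3, 8, 1, 6, 4]
  par := [0, 1]
  stars := [[0, 5, 3], [1, 2, 8, 7], [4, 6, 9]]
  word := [[2], [], [3], [0, 3], [0], [2, 1], [2], [], [3], [1]]
  rank := [1, 0, 1, 1, 0, 1, 0, 0, 0, 0]
  just := [1, 0, 1, 2, 0, 2, 0, 0, 0, 0]
  gA := 4
  gB := 6
  fin := 0
  sid := [0, 1, 1, 0, 2, 0, 2, 1, 1, 2]
  off := [(0, 0), (0, 0), (0, -1), (0, -1), (0, 0), (-1, 0), (-1, 1), (0, 0), (0, -1), (-1, 0)]

/-- glued arcs and equations -/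
def tord5_7 : TorT :=
  ⟨[(0, 2, true), (0, 3, false), (1, 2, false), (1, 3, true), (4, 4, false)],
    [([0, 1, 0, 0, 2], 2), ([0, 1, 2, 1, 0], 2), ([2, 0, 0, 1, 0], 2)]⟩

theorem tord5_7_ok : tord5_7.OK 5 := TT.leaf_ok (T := ttd5_7) (by decide +kernel)

/-- the torus -/
def ttd5_8 : TT where
  k := 4
  rf := [false, false, false, false]
  tau := [5, 12, 15, 8, 18, 0, 17, 10, 3, 13, 7, 16, 1, 9, 19, 2, 11, 6, 4, 14]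
  par := [0, 0, 1, 2]
  stars := [[0, 18, 6], [1, 5, 13], [2, 12, 16], [3, 15, 14, 9], [4, 8, 10, 19], [7, 17, 11]]
  word := [[], [], [], [3], [3, 0, 2], [], [0], [0], [2], [], [1], [], [], [], [2], [], [], [1], [3, 1, 2], [3]]
  rank := [0, 0, 0, 2, 3, 0, 2, 0, 2, 1, 0, 1, 0, 1, 0, 0, 1, 2, 3, 0]
  just := [0, 0, 0, 3, 4, 0, 5, 0, 3, 1, 0, 2, 0, 1, 0, 0, 2, 5, 4, 0]
  gA := 7
  gB := 14
  fin := 0
  sid := [0, 1, 2, 3, 4, 1, 0, 5, 4, 3, 4, 5, 2, 1, 3, 3, 2, 5, 0, 4]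
  off := [(0, 0), (0, 0), (0, 0), (0, 0), (0, 0), (0, 0), (0, 0), (0, 0), (0, 1), (0, 1), (-1, 1), (-1, 0), (0, 0),
    (0, 0), (0, 1), (0, 0), (0, 0), (-1, 0), (-1, 0), (-1, 0)]

/-- glued arcs and equations -/
def tord5_8 : TorT :=
  ⟨[(0, 0, true), (0, 2, true), (1, 1, true), (1, 2, true), (3, 3, true), (3, 4, true), (4, 4, true)],
    [([0, 1, 2, 0, 0], 2), ([1, 0, 0, 1, 2], 2), ([1, 1, 0, 1, 0], 2)]⟩

theorem tord5_8_ok : tord5_8.OK 5 := TT.leaf_ok (T := ttd5_8) (by decide +kernel)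

/-- the torus -/
def ttd5_9 : TT where
  k := 8
  rf := [false, false, false, true, true, true, false, true]
  tau := [6, 11, 19, 13, 7, 23, 0, 4, 20, 27, 31, 1, 24, 3, 32, 33, 25, 29, 30, 2, 8, 35, 39, 5, 12, 16, 36, 9, 38,
    17, 18, 10, 14, 15, 37, 21, 26, 34, 28, 22]
  par := [0, 0, 1, 2, 5, 9, 10, 21]
  stars := [[0, 7], [1, 6, 24, 12], [2, 11, 31, 19], [3, 15, 33, 14], [4, 13, 20, 8], [5, 28, 39, 23], [9, 21, 36,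
    27], [10, 32], [16, 26, 37, 34], [17, 25], [18, 30, 38, 29], [22, 35]]
  word := [[], [], [], [0, 2, 1], [0, 2, 1, 3], [], [], [2, 0, 3, 1], [2], [], [], [], [], [0, 3, 1], [], [0, 2, 1],
    [0], [0], [], [], [3], [], [], [], [], [1], [2], [], [], [1], [], [], [], [0, 3, 1], [0], [], [3], [1], [], []]
  rank := [0, 0, 0, 5, 6, 0, 0, 6, 1, 0, 0, 0, 1, 5, 1, 4, 1, 0, 1, 0, 1, 0, 1, 0, 1, 1, 0, 0, 2, 0, 1, 0, 1, 4, 3,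
    0, 0, 3, 2, 1]
  just := [0, 0, 0, 3, 4, 0, 0, 4, 6, 0, 0, 0, 1, 3, 7, 8, 9, 0, 2, 0, 6, 0, 11, 0, 1, 9, 0, 0, 5, 0, 2, 0, 7, 8, 10,
    0, 0, 10, 5, 11]
  gA := 17
  gB := 26
  fin := 0
  sid := [0, 1, 2, 3, 4, 5, 1, 0, 4, 6, 7, 2, 1, 4, 3, 3, 8, 9, 10, 2, 4, 6, 11, 5, 1, 9, 8, 6, 5, 10, 10, 2, 7, 3,
    8, 11, 6, 8, 10, 5]
  off := [(0, 0), (0, 0), (0, 0), (0, 0), (0, 0), (0, 0), (0, 0), (0, 0), (0, 0), (0, 0), (0, 0), (0, 0), (0, 0), (0,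
    -1), (0, -1), (0, 0), (0, 0), (0, 0), (0, 0), (0, 0), (0, -1), (0, -1), (0, 0), (0, 0), (0, 0), (-1, 0), (-1, 0),
    (0, 0), (0, 0), (-1, 0), (0, 0), (0, 0), (0, 0), (0, -1), (0, -1), (0, 0), (0, -1), (-1, -1), (-1, 0), (0, 0)]

/-- glued arcs and equations -/
def tord5_9 : TorT :=
  ⟨[(0, 1, true), (0, 3, false), (1, 1, true), (2, 4, false), (2, 4, true), (3, 3, true)],
    [([0, 2, 1, 0, 1], 2), ([1, 0, 0, 2, 1], 2), ([1, 0, 1, 0, 0], 2)]⟩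

theorem tord5_9_ok : tord5_9.OK 5 := TT.leaf_ok (T := ttd5_9) (by decide +kernel)

/-- the torus -/
def ttd5_10 : TT where
  k := 4
  rf := [false, false, false, false]
  tau := [6, 11, 12, 5, 7, 3, 0, 4, 18, 19, 16, 1, 2, 15, 17, 13, 10, 14, 8, 9]
  par := [0, 0, 1, 8]
  stars := [[0, 7], [1, 6, 3, 12], [2, 11, 16, 13], [4, 5, 19, 8], [9, 18, 14, 15], [10, 17]]
  word := [[], [], [0, 3], [0, 3], [0, 3, 1, 2], [2, 1], [], [3, 0, 2, 1], [], [1, 2], [0], [], [2, 1], [2], [0],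
    [3], [1], [1], [], [3, 0]]
  rank := [0, 0, 1, 2, 3, 2, 0, 3, 0, 2, 0, 0, 1, 0, 1, 0, 0, 1, 0, 2]
  just := [0, 0, 2, 1, 3, 1, 0, 3, 0, 4, 0, 0, 2, 0, 5, 0, 0, 5, 0, 4]
  gA := 10
  gB := 13
  fin := 0
  sid := [0, 1, 2, 1, 3, 3, 1, 0, 3, 4, 5, 2, 1, 2, 4, 4, 2, 5, 4, 3]
  off := [(0, 0), (0, 0), (0, 0), (1, -1), (0, 0), (-1, 1), (0, 0), (0, 0), (0, 0), (0, 0), (0, 0), (0, 0), (0, 0),
    (-1, 1), (1, 0), (1, -1), (-1, 0), (-1, 0), (0, 0), (0, 0)]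

/-- glued arcs and equations -/
def tord5_10 : TorT :=
  ⟨[(0, 1, true), (0, 3, true), (1, 1, true), (2, 2, true), (2, 4, true), (3, 3, true), (4, 4, true)],
    [([0, 2, 1, 1, 0], 2), ([1, 0, 0, 1, 2], 2), ([1, 0, 1, 0, 0], 2)]⟩

theorem tord5_10_ok : tord5_10.OK 5 := TT.leaf_ok (T := ttd5_10) (by decide +kernel)

end Pool.Agent.Lib_MP_fa6e45
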