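import Pool.Agent.Lib_MP_fa6e45.DQ5T0
import Pool.Agent.Lib_MP_fa6e45.DQ5T1

/-!
MP_fa6e45_co, stage 9: straight-side patterns with `5` sides, the list of tori (generated by a program).
-/

namespace Pool.Agent.Lib_MP_fa6e45

/-- tables -/
def ttD5_0 : List TorT := [tord5_0, tord5_1, tord5_2, tord5_3, tord5_4, tord5_5]

theorem ttD5_0_ok : ∀ T ∈ ttD5_0, T.OK 5 := by
  intro T hT
  simp only [ttD5_0, List.mem_cons, List.not_mem_nil, or_false] at hT
  rcases hT with rfl | rfl | rfl | rfl | rfl | rfl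
  · exact tord5_0_ok
  · exact tord5_1_ok
  · exact tord5_2_ok
  · exact tord5_3_ok
  · exact tord5_4_ok
  · exact tord5_5_ok

/-- tables -/
def ttD5_1 : List TorT := [tord5_6, tord5_7, tord5_8, tord5_9, tord5_10]

theorem ttD5_1_ok : ∀ T ∈ ttD5_1, T.OK 5 := by
  intro T hT
  simp only [ttD5_1, List.mem_cons, List.not_mem_nil, or_false] at hT
  rcases hT with rfl | rfl | rfl | rfl | rfl
  · exact tord5_6_ok
  · exact tord5_7_ok
  · exact tord5_8_ok
  · exact tord5_9_ok
  · exact tord5_10_ok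

/-- all tables -/
def ttD5 : List TorT :=
  ttD5_0 ++ ttD5_1

theorem ttD5_ok : ∀ T ∈ ttD5, T.OK 5 := by
  intro T hT
  unfold ttD5 at hT
  rcases List.mem_append.1 hT with hT | hT
  · exact ttD5_0_ok T hT
  exact ttD5_1_ok T hT

end Pool.Agent.Lib_MP_fa6e45
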