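import Pool.Agent.Lib_MP_fa6e45.CT5

/-!
MP_fa6e45_co, stage 9: straight-side patterns with `5` sides, tables of tori (generated by a program).
-/

namespace Pool.Agent.Lib_MP_fa6e45

/-- the torus -/
def ttd5_0 : TT where
  k := 8
  rf := [false, false, false, false, true, true, true, true]
  tau := [5, 12, 7, 16, 24, 0, 17, 2, 11, 29, 28, 8, 1, 25, 34, 23, 3, 6, 20, 39, 18, 38, 31, 15, 4, 13, 33, 36, 10,
    9, 35, 22, 37, 26, 14, 30, 27, 32, 21, 19]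
  par := [0, 0, 1, 3, 4, 9, 14, 19]
  stars := [[0, 20, 18, 6], [1, 5, 25, 13], [2, 12, 8], [3, 7, 17], [4, 16, 24], [9, 11, 29], [10, 30, 36, 28], [14,
    26, 34], [15, 35, 31, 23], [19, 21, 39], [22, 32, 38], [27, 37, 33]]
  word := [[], [], [2, 1], [], [], [], [0, 3], [0, 3], [0, 3], [], [2, 1], [2, 1], [], [], [], [], [], [2, 1], [1,
    2], [], [3, 0], [3, 0], [3], [], [], [], [], [0], [0, 3], [], [2], [2], [0], [], [], [3], [1], [1], [1, 2], []]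
  rank := [0, 0, 3, 0, 0, 0, 4, 3, 2, 0, 1, 2, 0, 1, 0, 1, 0, 4, 5, 0, 5, 4, 2, 1, 0, 1, 2, 0, 1, 0, 0, 2, 3, 2, 0,
    0, 0, 3, 4, 0]
  just := [0, 0, 2, 0, 0, 0, 3, 2, 5, 0, 6, 5, 0, 1, 0, 4, 0, 3, 9, 0, 9, 10, 8, 4, 0, 1, 7, 0, 6, 0, 0, 8, 11, 7, 0,
    0, 0, 11, 10, 0]
  gA := 27
  gB := 30
  fin := 0
  sid := [0, 1, 2, 3, 4, 1, 0, 3, 2, 5, 6, 5, 2, 1, 7, 8, 4, 3, 0, 9, 0, 9, 10, 8, 4, 1, 7, 11, 6, 5, 6, 8, 10, 11,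
    7, 8, 6, 11, 10, 9]
  off := [(0, 0), (0, 0), (0, 0), (0, 0), (0, 0), (0, 0), (0, 0), (1, -1), (1, -1), (0, 0), (0, 0), (-1, 1), (0, 0),
    (0, 0), (0, 0), (0, 0), (0, 0), (0, 0), (-1, 1), (0, 0), (0, 0), (1, -1), (0, 0), (0, 0), (0, 0), (0, 0), (0, 0),
    (0, 0), (1, -1), (0, 0), (0, 0), (0, 1), (0, 1), (0, 0), (0, 0), (0, 0), (0, -1), (-1, 0), (-1, 1), (0, 0)]

/-- glued arcs and equations -/
def tord5_0 : TorT :=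
  ⟨[(0, 0, true), (0, 3, false), (1, 2, true), (1, 3, true), (2, 2, true), (4, 4, false)],
    [([0, 0, 2, 1, 0], 2), ([0, 1, 0, 0, 2], 2), ([2, 1, 0, 1, 0], 2)]⟩

theorem tord5_0_ok : tord5_0.OK 5 := TT.leaf_ok (T := ttd5_0) (by decide +kernel)

/-- the torus -/
def ttd5_1 : TT where
  k := 8
  rf := [false, false, true, false, true, true, true, false]
  tau := [9, 11, 17, 22, 19, 13, 26, 33, 10, 0, 8, 1, 18, 5, 25, 39, 21, 2, 12, 4, 38, 16, 3, 35, 30, 14, 6, 32, 37,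
    34, 24, 36, 27, 7, 29, 23, 31, 28, 20, 15]
  par := [0, 0, 1, 2, 3, 6, 7, 15]
  stars := [[0, 19, 13, 5], [1, 9, 11], [2, 12, 18], [3, 17, 22], [4, 23, 35, 15], [6, 14, 26], [7, 27, 33], [8, 34,
    25, 10], [16, 39, 21], [20, 38, 29, 30], [24, 31, 36], [28, 37, 32]]
  word := [[], [], [], [], [1, 2, 0], [2], [], [], [], [], [], [], [], [3], [3], [], [], [], [], [1, 3, 0], [], [],
    [], [1, 2, 0], [1, 2], [2], [], [], [0], [2], [3, 0], [0], [], [], [3], [1, 3, 0], [1], [1], [], []]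
  rank := [0, 0, 0, 0, 5, 3, 0, 0, 1, 0, 1, 0, 1, 3, 2, 0, 1, 0, 1, 5, 2, 1, 0, 4, 3, 2, 0, 1, 0, 0, 3, 2, 1, 0, 0,
    4, 2, 0, 2, 0]
  just := [0, 0, 0, 0, 4, 5, 0, 0, 1, 0, 1, 0, 2, 5, 7, 0, 3, 0, 2, 4, 8, 3, 0, 10, 9, 7, 0, 6, 0, 0, 9, 11, 6, 0, 0,
    10, 11, 0, 8, 0]
  gA := 28
  gB := 29
  fin := 0
  sid := [0, 1, 2, 3, 4, 0, 5, 6, 7, 1, 7, 1, 2, 0, 5, 4, 8, 3, 2, 0, 9, 8, 3, 4, 10, 7, 5, 6, 11, 9, 9, 10, 11, 6,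
    7, 4, 10, 11, 9, 8]
  off := [(0, 0), (0, 0), (0, 0), (0, 0), (0, 0), (0, 0), (0, 0), (0, 0), (0, 0), (0, 0), (0, 0), (0, 0), (0, 0), (0,
    -1), (0, -1), (0, -1), (0, 0), (0, 0), (0, 0), (0, -1), (0, 0), (0, 0), (0, 0), (0, 0), (0, 0), (0, 1), (0, 0),
    (0, 0), (0, 0), (1, 0), (1, -1), (1, -1), (0, 0), (0, 0), (0, 0), (0, -1), (0, -1), (-1, 0), (0, 0), (0, 0)]

/-- glued arcs and equations -/
def tord5_1 : TorT :=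
  ⟨[(0, 3, false), (0, 4, true), (1, 1, false), (2, 2, true), (2, 3, false), (4, 4, true)],
    [([0, 0, 2, 1, 0], 2), ([0, 2, 0, 0, 1], 2), ([2, 0, 0, 1, 1], 2)]⟩

theorem tord5_1_ok : tord5_1.OK 5 := TT.leaf_ok (T := ttd5_1) (by decide +kernel)

/-- the torus -/
def ttd5_2 : TT where
  k := 8
  rf := [false, false, true, false, true, false, true, true]
  tau := [8, 11, 17, 22, 25, 19, 31, 38, 0, 29, 39, 1, 18, 30, 24, 28, 21, 2, 12, 5, 34, 16, 3, 35, 14, 4, 36, 33,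
    15, 9, 13, 6, 37, 27, 20, 23, 26, 32, 7, 10]
  par := [0, 0, 1, 2, 3, 4, 6, 7]
  stars := [[0, 25, 9], [1, 8, 39, 11], [2, 12, 18], [3, 17, 22], [4, 23, 36, 26], [5, 29, 15], [6, 19, 13, 31], [7,
    32, 38], [10, 35, 24], [14, 20, 30], [16, 28, 34, 21], [27, 37, 33]]
  word := [[], [], [], [], [], [1, 2], [], [], [], [1, 2, 0, 3], [], [], [], [3, 0], [3], [0, 3], [], [], [], [3, 0],
    [0], [], [], [2], [2], [], [2], [2], [2, 1], [2, 1, 3, 0], [1, 2], [], [], [3], [1], [3], [3], [], [], []]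
  rank := [0, 0, 0, 0, 0, 4, 0, 0, 0, 5, 1, 0, 1, 3, 2, 3, 1, 0, 1, 4, 0, 1, 0, 0, 2, 0, 1, 2, 3, 5, 3, 0, 1, 2, 0,
    0, 1, 1, 0, 1]
  just := [0, 0, 0, 0, 0, 6, 0, 0, 0, 5, 1, 0, 2, 9, 8, 10, 3, 0, 2, 6, 0, 3, 0, 0, 8, 0, 4, 11, 10, 5, 9, 0, 7, 11,
    0, 0, 4, 7, 0, 1]
  gA := 20
  gB := 23
  fin := 0
  sid := [0, 1, 2, 3, 4, 5, 6, 7, 1, 0, 8, 1, 2, 6, 9, 5, 10, 3, 2, 6, 9, 10, 3, 4, 8, 0, 4, 11, 10, 5, 9, 6, 7, 11,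
    10, 8, 4, 11, 7, 1]
  off := [(0, 0), (0, 0), (0, 0), (0, 0), (0, 0), (0, 0), (0, 0), (0, 0), (0, 0), (0, 0), (0, 0), (0, 0), (0, 0), (1,
    -1), (0, 0), (1, -1), (0, 0), (0, 0), (0, 0), (1, -1), (0, 1), (0, 0), (0, 0), (0, 0), (0, 1), (0, 0), (0, 0),
    (0, 0), (-1, 1), (0, 0), (-1, 1), (0, 0), (0, 0), (0, -1), (-1, 0), (0, 0), (0, -1), (0, -1), (0, 0), (0, 0)]

/-- glued arcs and equations -/
def tord5_2 : TorT :=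
  ⟨[(0, 3, true), (0, 4, true), (1, 1, false), (2, 2, true), (2, 3, false), (4, 4, true)],
    [([0, 0, 2, 1, 0], 2), ([0, 2, 0, 1, 1], 2), ([2, 0, 0, 0, 1], 2)]⟩

theorem tord5_2_ok : tord5_2.OK 5 := TT.leaf_ok (T := ttd5_2) (by decide +kernel)

/-- the torus -/
def ttd5_3 : TT where
  k := 4
  rf := [false, false, true, true]
  tau := [5, 11, 7, 17, 15, 0, 16, 2, 12, 10, 9, 1, 8, 18, 19, 4, 6, 3, 13, 14]
  par := [0, 0, 1, 3]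
  stars := [[0, 16, 6], [1, 5, 11], [2, 12, 8], [3, 7, 17], [4, 18, 14, 15], [9, 13, 19, 10]]
  word := [[], [], [1], [], [3, 0, 2], [], [0], [0], [0], [], [], [], [1], [1, 2], [2], [3, 1, 2], [1], [], [3, 0],
    [3]]
  rank := [0, 0, 1, 0, 3, 0, 2, 1, 0, 1, 1, 0, 0, 2, 0, 3, 2, 0, 2, 0]
  just := [0, 0, 2, 0, 4, 0, 3, 2, 0, 1, 1, 0, 0, 5, 0, 4, 3, 0, 5, 0]
  gA := 8
  gB := 14
  fin := 0
  sid := [0, 1, 2, 3, 4, 1, 0, 3, 2, 5, 5, 1, 2, 5, 4, 4, 0, 3, 4, 5]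
  off := [(0, 0), (0, 0), (0, 0), (0, 0), (0, 0), (0, 0), (0, 0), (1, 0), (1, 0), (0, 0), (0, 0), (0, 0), (0, 0),
    (-1, 0), (-1, 1), (-1, 0), (-1, 0), (0, 0), (0, 0), (0, -1)]

/-- glued arcs and equations -/
def tord5_3 : TorT :=
  ⟨[(0, 0, true), (0, 4, false), (1, 1, false), (2, 2, true), (2, 3, false), (3, 3, true), (4, 4, true)],
    [([0, 0, 2, 1, 0], 2), ([1, 0, 0, 1, 2], 2), ([1, 2, 0, 0, 0], 2)]⟩

theorem tord5_3_ok : tord5_3.OK 5 := TT.leaf_ok (T := ttd5_3) (by decide +kernel)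

/-- the torus -/
def ttd5_4 : TT where
  k := 8
  rf := [false, false, true, false, true, false, true, true]
  tau := [5, 6, 12, 19, 11, 0, 1, 22, 29, 21, 18, 4, 2, 15, 33, 13, 34, 32, 10, 3, 28, 9, 7, 25, 38, 23, 39, 37, 20,
    8, 35, 36, 17, 14, 16, 30, 31, 27, 24, 26]
  par := [0, 0, 2, 3, 7, 8, 14, 24]
  stars := [[0, 12, 2, 6], [1, 5, 22, 7], [3, 13, 15], [4, 19, 11], [8, 23, 25], [9, 29, 21], [10, 18, 33], [14, 34,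
    16], [17, 30, 36, 32], [20, 28, 38], [24, 39, 26], [27, 35, 31, 37]]
  word := [[], [1, 2], [], [], [0, 3], [], [3, 0], [], [], [1, 2], [2, 1], [2, 1], [], [], [], [], [], [0, 3], [0,
    3], [], [3, 0], [3, 0], [], [], [], [], [], [1, 2], [1, 2], [], [0], [2], [2, 1], [], [], [1], [3], [3, 0], [],
    []]
  rank := [0, 6, 0, 0, 5, 0, 6, 0, 0, 5, 4, 5, 0, 1, 0, 1, 2, 3, 4, 0, 4, 5, 0, 1, 0, 1, 2, 3, 4, 0, 0, 0, 3, 0, 2,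
    0, 0, 3, 0, 2]
  just := [0, 1, 0, 0, 3, 0, 1, 0, 0, 5, 6, 3, 0, 2, 0, 2, 7, 8, 6, 0, 9, 5, 0, 4, 0, 4, 10, 11, 9, 0, 0, 0, 8, 0, 7,
    0, 0, 11, 0, 10]
  gA := 30
  gB := 31
  fin := 0
  sid := [0, 1, 0, 2, 3, 1, 0, 1, 4, 5, 6, 3, 0, 2, 7, 2, 7, 8, 6, 3, 9, 5, 1, 4, 10, 4, 10, 11, 9, 5, 8, 11, 8, 6,
    7, 11, 8, 11, 9, 10]
  off := [(0, 0), (0, 0), (-1, 1), (0, 0), (0, 0), (0, 0), (0, 0), (1, -1), (0, 0), (0, 0), (0, 0), (-1, 1), (-1, 1),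
    (0, 0), (0, 0), (0, 0), (0, 0), (0, 0), (1, -1), (0, 0), (0, 0), (1, -1), (1, -1), (0, 0), (0, 0), (0, 0), (0,
    0), (0, 0), (-1, 1), (0, 0), (0, 0), (1, 0), (-1, 1), (0, 0), (0, 0), (0, 0), (-1, 0), (1, -1), (0, 0), (0, 0)]

/-- glued arcs and equations -/
def tord5_4 : TorT :=
  ⟨[(0, 0, true), (0, 3, false), (1, 1, true), (1, 4, false), (2, 2, false), (3, 4, true)],
    [([0, 1, 0, 0, 2], 2), ([1, 0, 0, 2, 0], 2), ([1, 1, 2, 0, 0], 2)]⟩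

theorem tord5_4_ok : tord5_4.OK 5 := TT.leaf_ok (T := ttd5_4) (by decide +kernel)

/-- the torus -/
def ttd5_5 : TT where
  k := 2
  rf := [false, false]
  tau := [2, 7, 0, 9, 5, 4, 8, 1, 6, 3]
  par := [0, 1]
  stars := [[0, 5, 3], [1, 2, 7, 8], [4, 9, 6]]
  word := [[3], [], [2], [0, 2], [0], [1], [2], [], [3], [3, 1]]
  rank := [1, 0, 1, 1, 0, 0, 0, 0, 0, 1]
  just := [1, 0, 1, 2, 0, 0, 0, 0, 0, 2]
  gA := 4
  gB := 6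
  fin := 0
  sid := [0, 1, 1, 0, 2, 0, 2, 1, 1, 2]
  off := [(0, 0), (0, 0), (0, 1), (0, 1), (0, 0), (-1, 0), (-1, 0), (0, 1), (0, 0), (-1, -1)]

/-- glued arcs and equations -/
def tord5_5 : TorT :=
  ⟨[(0, 2, true), (0, 4, true), (1, 2, true), (1, 3, true), (3, 4, true)],
    [([0, 1, 0, 0, 2], 2), ([0, 1, 2, 1, 0], 2), ([2, 0, 0, 1, 0], 2)]⟩

theorem tord5_5_ok : tord5_5.OK 5 := TT.leaf_ok (T := ttd5_5) (by decide +kernel)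

end Pool.Agent.Lib_MP_fa6e45
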