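import Pool.Agent.Lib_MP_fa6e45.DQ6T0

/-!
MP_fa6e45_co, stage 9: straight-side patterns with `6` sides, the list of tori (generated by a program).
-/

namespace Pool.Agent.Lib_MP_fa6e45

/-- tables -/
def ttD6_0 : List TorT := [tord6_0, tord6_1, tord6_2, tord6_3, tord6_4, tord6_5]

theorem ttD6_0_ok : ∀ T ∈ ttD6_0, T.OK 6 := by
  intro T hT
  simp only [ttD6_0, List.mem_cons, List.not_mem_nil, or_false] at hT
  rcases hT with rfl | rfl | rfl | rfl | rfl | rfl
  · exact tord6_0_ok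
  · exact tord6_1_ok
  · exact tord6_2_ok
  · exact tord6_3_ok
  · exact tord6_4_ok
  · exact tord6_5_ok

/-- all tables -/
def ttD6 : List TorT :=
  ttD6_0

theorem ttD6_ok : ∀ T ∈ ttD6, T.OK 6 := by
  intro T hT
  unfold ttD6 at hT
  exact ttD6_0_ok T hT

end Pool.Agent.Lib_MP_fa6e45
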