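import Pool.Agent.Lib_MP_fa6e45.CT5

/-!
MP_fa6e45_co, stage 9: straight-side patterns with `6` sides, tables of tori (generated by a program).
-/

namespace Pool.Agent.Lib_MP_fa6e45

/-- the torus -/
def ttd6_0 : TT where
  k := 2
  rf := [false, true]
  tau := [3, 9, 8, 0, 6, 11, 4, 10, 2, 1, 7, 5]
  par := [0, 1]
  stars := [[0, 6, 4], [1, 3, 9], [2, 10, 8], [5, 7, 11]]
  word := [[2], [], [3], [3], [0, 3], [0], [2, 1], [2], [2], [], [3], [1]]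
  rank := [2, 0, 1, 2, 1, 0, 1, 0, 1, 0, 0, 0]
  just := [1, 0, 2, 1, 3, 0, 3, 0, 2, 0, 0, 0]
  gA := 5
  gB := 7
  fin := 0
  sid := [0, 1, 2, 1, 0, 3, 0, 3, 2, 1, 2, 3]
  off := [(0, 0), (0, 0), (0, 0), (0, -1), (0, -1), (0, 0), (-1, 0), (-1, 1), (0, 1), (0, 0), (0, 0), (-1, 0)]

/-- glued arcs and equations -/
def tord6_0 : TorT :=
  ⟨[(0, 3, true), (0, 4, false), (1, 3, false), (1, 4, true), (2, 2, false), (5, 5, false)],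
    [([0, 0, 2, 0, 1, 0], 2), ([0, 1, 0, 0, 0, 2], 2), ([0, 1, 0, 2, 0, 0], 2), ([2, 0, 0, 0, 1, 0], 2)]⟩

theorem tord6_0_ok : tord6_0.OK 6 := TT.leaf_ok (T := ttd6_0) (by decide +kernel)

/-- the torus -/
def ttd6_1 : TT where
  k := 4
  rf := [false, false, true, true]
  tau := [7, 15, 22, 10, 20, 17, 14, 0, 12, 19, 3, 23, 8, 18, 6, 1, 21, 5, 13, 9, 4, 16, 2, 11]
  par := [0, 0, 1, 2]
  stars := [[0, 12, 8], [1, 7, 15], [2, 16, 22], [3, 23, 11], [4, 10, 20], [5, 21, 17], [6, 18, 14], [9, 13, 19]]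
  word := [[], [], [], [3], [3, 0], [3, 0], [], [], [0, 3], [0], [2], [2], [2, 1], [2], [], [], [], [1, 2], [3], [1],
    [1, 2], [], [], [3]]
  rank := [0, 0, 0, 1, 2, 3, 1, 0, 3, 0, 1, 0, 3, 2, 1, 0, 1, 3, 2, 0, 2, 1, 0, 0]
  just := [0, 0, 0, 3, 4, 5, 1, 0, 7, 0, 3, 0, 7, 6, 1, 0, 2, 5, 6, 0, 4, 2, 0, 0]
  gA := 9
  gB := 11
  fin := 0
  sid := [0, 1, 2, 3, 4, 5, 6, 1, 0, 7, 4, 3, 0, 7, 6, 1, 2, 5, 6, 7, 4, 5, 2, 3]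
  off := [(0, 0), (0, 0), (0, 0), (0, 0), (0, 0), (0, 0), (0, 0), (0, 0), (0, 0), (0, 0), (0, 1), (0, 1), (-1, 1),
    (-1, 1), (0, 0), (0, 0), (0, 0), (-1, 1), (0, -1), (-1, 0), (-1, 1), (-1, 1), (0, 0), (0, 0)]

/-- glued arcs and equations -/
def tord6_1 : TorT :=
  ⟨[(0, 1, true), (0, 2, false), (1, 3, false), (2, 4, false), (3, 4, true), (5, 5, false)],
    [([0, 0, 0, 1, 0, 2], 2), ([0, 0, 1, 0, 2, 0], 2), ([0, 2, 0, 1, 0, 0], 2), ([2, 0, 1, 0, 0, 0], 2)]⟩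

theorem tord6_1_ok : tord6_1.OK 6 := TT.leaf_ok (T := ttd6_1) (by decide +kernel)

/-- the torus -/
def ttd6_2 : TT where
  k := 4
  rf := [false, false, true, true]
  tau := [6, 12, 20, 9, 15, 23, 0, 18, 14, 3, 21, 17, 1, 19, 8, 4, 22, 11, 7, 13, 2, 10, 16, 5]
  par := [0, 0, 1, 2]
  stars := [[0, 18, 7], [1, 6, 12], [2, 13, 20], [3, 21, 10], [4, 9, 15], [5, 16, 23], [8, 19, 14], [11, 22, 17]]
  word := [[], [], [], [3], [3, 0], [3, 0, 2], [], [0], [0], [2], [2], [], [], [], [1], [1, 2], [2], [], [1], [], [],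
    [3], [3], [3, 1, 2]]
  rank := [0, 0, 0, 1, 2, 3, 0, 2, 0, 1, 0, 1, 0, 1, 0, 2, 2, 1, 2, 1, 0, 0, 2, 3]
  just := [0, 0, 0, 3, 4, 5, 0, 6, 0, 3, 0, 1, 0, 2, 0, 4, 7, 1, 6, 2, 0, 0, 7, 5]
  gA := 8
  gB := 10
  fin := 0
  sid := [0, 1, 2, 3, 4, 5, 1, 0, 6, 4, 3, 7, 1, 2, 6, 4, 5, 7, 0, 6, 2, 3, 7, 5]
  off := [(0, 0), (0, 0), (0, 0), (0, 0), (0, 0), (0, 0), (0, 0), (0, 0), (0, 0), (0, 1), (0, 1), (0, 0), (0, 0), (0,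
    0), (-1, 0), (-1, 1), (-1, 1), (0, 0), (-1, 0), (-1, 0), (0, 0), (0, 0), (0, -1), (-1, 0)]

/-- glued arcs and equations -/
def tord6_2 : TorT :=
  ⟨[(0, 0, true), (0, 1, false), (1, 1, true), (2, 2, false), (3, 3, true), (3, 4, false), (4, 4, true), (5, 5,
    false)],
    [([0, 0, 0, 0, 1, 2], 2), ([0, 0, 0, 2, 1, 0], 2), ([0, 1, 2, 0, 0, 0], 2), ([2, 1, 0, 0, 0, 0], 2)]⟩

theorem tord6_2_ok : tord6_2.OK 6 := TT.leaf_ok (T := ttd6_2) (by decide +kernel)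

/-- the torus -/
def ttd6_3 : TT where
  k := 4
  rf := [false, false, false, false]
  tau := [6, 14, 18, 9, 17, 21, 0, 20, 12, 3, 23, 15, 8, 19, 1, 11, 22, 4, 2, 13, 7, 5, 16, 10]
  par := [0, 0, 1, 2]
  stars := [[0, 21, 7], [1, 6, 15], [2, 14, 19], [3, 18, 10], [4, 9, 12], [5, 17, 22], [8, 20, 13], [11, 23, 16]]
  word := [[], [], [], [3], [3, 0], [3, 0, 2], [], [0], [0], [2], [2], [], [1], [], [], [], [2], [1, 2], [], [], [1],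
    [3, 1, 2], [3], [3]]
  rank := [0, 0, 0, 1, 2, 3, 0, 2, 0, 1, 0, 1, 0, 1, 0, 1, 2, 2, 0, 1, 2, 3, 2, 0]
  just := [0, 0, 0, 3, 4, 5, 0, 6, 0, 3, 0, 1, 0, 2, 0, 1, 7, 4, 0, 2, 6, 5, 7, 0]
  gA := 8
  gB := 10
  fin := 0
  sid := [0, 1, 2, 3, 4, 5, 1, 0, 6, 4, 3, 7, 4, 6, 2, 1, 7, 5, 3, 2, 6, 0, 5, 7]
  off := [(0, 0), (0, 0), (0, 0), (0, 0), (0, 0), (0, 0), (0, 0), (0, 0), (0, 0), (0, 1), (0, 1), (0, 0), (-1, 1),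
    (-1, 0), (0, 0), (0, 0), (0, 0), (-1, 1), (0, 0), (0, 0), (-1, 0), (-1, 0), (-1, 0), (0, -1)]

/-- glued arcs and equations -/
def tord6_3 : TorT :=
  ⟨[(0, 0, true), (0, 2, true), (1, 1, true), (1, 2, true), (3, 3, true), (3, 5, true), (4, 4, true), (4, 5, true)],
    [([0, 0, 0, 0, 1, 2], 2), ([0, 1, 2, 0, 0, 0], 2), ([1, 0, 0, 1, 1, 0], 2), ([1, 1, 0, 1, 0, 0], 2)]⟩

theorem tord6_3_ok : tord6_3.OK 6 := TT.leaf_ok (T := ttd6_3) (by decide +kernel)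

/-- the torus -/
def ttd6_4 : TT where
  k := 4
  rf := [false, false, false, false]
  tau := [7, 13, 18, 15, 11, 21, 14, 0, 20, 17, 22, 4, 19, 1, 6, 3, 23, 9, 2, 12, 8, 5, 10, 16]
  par := [0, 0, 1, 2]
  stars := [[0, 21, 8], [1, 7, 14], [2, 13, 19], [3, 18, 16], [4, 15, 6], [5, 11, 22], [9, 20, 12], [10, 17, 23]]
  word := [[], [], [], [3], [3], [3, 0, 2], [], [], [0], [0], [0, 2], [2], [], [], [], [2], [2], [1], [], [], [1],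
    [3, 1, 2], [3, 1], [3]]
  rank := [0, 0, 0, 1, 2, 3, 1, 0, 2, 0, 1, 2, 1, 0, 1, 1, 0, 0, 0, 1, 2, 3, 1, 0]
  just := [0, 0, 0, 3, 4, 5, 1, 0, 6, 0, 7, 4, 2, 0, 1, 3, 0, 0, 0, 2, 6, 5, 7, 0]
  gA := 9
  gB := 16
  fin := 0
  sid := [0, 1, 2, 3, 4, 5, 4, 1, 0, 6, 7, 5, 6, 2, 1, 4, 3, 7, 3, 2, 6, 0, 5, 7]
  off := [(0, 0), (0, 0), (0, 0), (0, 0), (0, 0), (0, 0), (0, 1), (0, 0), (0, 0), (0, 0), (0, 0), (0, 1), (-1, 0),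
    (0, 0), (0, 0), (0, 1), (0, 1), (-1, 0), (0, 0), (0, 0), (-1, 0), (-1, 0), (-1, 0), (-1, -1)]

/-- glued arcs and equations -/
def tord6_4 : TorT :=
  ⟨[(0, 1, true), (0, 2, true), (1, 1, true), (2, 2, true), (3, 3, true), (3, 5, true), (4, 4, true), (4, 5, true)],
    [([0, 0, 0, 0, 1, 2], 2), ([0, 2, 1, 0, 0, 0], 2), ([1, 0, 0, 1, 1, 0], 2), ([1, 0, 1, 1, 0, 0], 2)]⟩

theorem tord6_4_ok : tord6_4.OK 6 := TT.leaf_ok (T := ttd6_4) (by decide +kernel)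

/-- the torus -/
def ttd6_5 : TT where
  k := 4
  rf := [false, false, false, false]
  tau := [7, 13, 14, 6, 11, 8, 3, 0, 5, 21, 22, 4, 19, 1, 2, 18, 23, 20, 15, 12, 17, 9, 10, 16]
  par := [0, 0, 1, 9]
  stars := [[0, 8], [1, 7, 3, 14], [2, 13, 19, 15], [4, 6], [5, 11, 22, 9], [10, 21, 17, 23], [12, 20], [16, 18]]
  word := [[], [], [0, 3], [0, 3], [0, 3], [0, 3, 1, 2], [2, 1], [], [3, 0, 2, 1], [], [1, 2], [2, 1], [0], [], [2,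
    1], [2], [2], [0], [3], [1], [1], [], [3, 0], [3]]
  rank := [0, 0, 1, 2, 3, 4, 2, 0, 4, 0, 2, 3, 0, 0, 1, 0, 1, 1, 0, 0, 1, 0, 2, 1]
  just := [0, 0, 2, 1, 3, 4, 1, 0, 4, 0, 5, 3, 0, 0, 2, 0, 7, 6, 0, 0, 6, 0, 5, 7]
  gA := 12
  gB := 15
  fin := 0
  sid := [0, 1, 2, 1, 3, 4, 3, 1, 0, 4, 5, 4, 6, 2, 1, 2, 7, 5, 7, 2, 6, 5, 4, 5]
  off := [(0, 0), (0, 0), (0, 0), (1, -1), (0, 0), (0, 0), (-1, 1), (0, 0), (0, 0), (0, 0), (0, 0), (-1, 1), (0, 0),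
    (0, 0), (0, 0), (-1, 1), (0, 0), (1, 0), (0, -1), (-1, 0), (-1, 0), (0, 0), (0, 0), (1, -1)]

/-- glued arcs and equations -/
def tord6_5 : TorT :=
  ⟨[(0, 1, true), (0, 3, true), (1, 1, true), (2, 2, true), (2, 5, true), (3, 3, true), (4, 4, true), (4, 5, true)],
    [([0, 0, 0, 1, 1, 2], 2), ([0, 2, 1, 1, 0, 0], 2), ([1, 0, 0, 0, 1, 0], 2), ([1, 0, 1, 0, 0, 0], 2)]⟩

theorem tord6_5_ok : tord6_5.OK 6 := TT.leaf_ok (T := ttd6_5) (by decide +kernel)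

end Pool.Agent.Lib_MP_fa6e45
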