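import Pool.Agent.Lib_MP_fa6e45.DQA
import Pool.Agent.Lib_MP_fa6e45.DQ6_3_0
import Pool.Agent.Lib_MP_fa6e45.DQ6_3_1

/-!
MP_fa6e45_co, stage 9: straight-side patterns with `6` sides, a certificate (generated by a program).
-/

namespace Pool.Agent.Lib_MP_fa6e45

/-- nodes -/
noncomputable def cD6_12_n : List (QG PN) :=
  cD6_12_n0 ++ cD6_12_n1

theorem cD6_12_ok :
    allI (chkG (ckP 6 ttD6 cD6_12_w cD6_12_s) 6 cD6_12_w 2 cD6_12_s cD6_12_t (bl3 [] cD6_12_D)) cD6_12_n 0 = true := by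
  refine allI_appQ (k := 95) cD6_12_k0 (by decide +kernel) ?_
  exact cD6_12_k1

theorem cD6_12 : NodeU 6 cD6_12_w [] :=
  nodeG_of (C := 2) (sy := cD6_12_s) (st := cD6_12_t) (D := cD6_12_D) (Ns := cD6_12_n) (by norm_num) (by norm_num)
    ttD6_ok (by decide +kernel) (by decide +kernel) cD6_12_ok

theorem sD6_3 : Solved 6 [cD6_12_w] :=
  Solved.cons cD6_12 Solved.nil

end Pool.Agent.Lib_MP_fa6e45
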