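import Pool.Agent.Lib_MP_fa6e45.CT5

/-!
MP_fa6e45_co, stage 9: straight-side patterns with `7` sides, tables of tori (generated by a program).
-/

namespace Pool.Agent.Lib_MP_fa6e45

/-- the torus -/
def ttd7a_6 : TT where
  k := 4
  rf := [false, false, true, true]
  tau := [7, 14, 15, 26, 11, 12, 27, 0, 21, 22, 19, 4, 5, 20, 1, 2, 25, 24, 23, 10, 13, 8, 9, 18, 17, 16, 3, 6]
  par := [0, 0, 1, 3]
  stars := [[0, 21, 8], [1, 7, 14], [2, 15], [3, 16, 26], [4, 27, 6, 12], [5, 11, 20, 13], [9, 22], [10, 23, 19],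
    [17, 25], [18, 24]]
  word := [[], [], [], [], [0, 3], [0], [0, 2, 1], [], [2], [2], [2], [2, 1], [1], [], [], [], [], [], [], [3], [],
    [3], [3], [], [], [], [], [0, 3, 1]]
  rank := [0, 0, 1, 0, 2, 0, 3, 0, 6, 5, 0, 2, 0, 1, 0, 1, 2, 3, 4, 0, 1, 6, 5, 4, 3, 2, 0, 3]
  just := [0, 0, 2, 0, 5, 0, 4, 0, 6, 7, 0, 5, 0, 1, 0, 2, 3, 8, 9, 0, 1, 6, 7, 9, 8, 3, 0, 4]
  gA := 5
  gB := 10
  fin := 0
  sid := [0, 1, 2, 3, 4, 5, 4, 1, 0, 6, 7, 5, 4, 5, 1, 2, 3, 8, 9, 7, 5, 0, 6, 7, 9, 8, 3, 4]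
  off := [(0, 0), (0, 0), (0, 0), (0, 0), (0, 0), (0, 0), (0, 1), (0, 0), (0, 0), (0, 0), (0, 0), (-1, 1), (-1, 1),
    (-1, 0), (0, 0), (0, 0), (0, 0), (0, 0), (0, 0), (0, -1), (-1, 0), (0, -1), (0, -1), (0, -1), (0, 0), (0, 0), (0,
    0), (0, 0)]

/-- glued arcs and equations -/
def tord7a_6 : TorT :=
  ⟨[(0, 0, true), (0, 1, false), (1, 2, false), (2, 4, true), (3, 3, true), (3, 5, false), (4, 4, true), (5, 5,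
    true), (6, 6, false)],
    [([0, 0, 0, 0, 1, 1, 2], 2), ([0, 0, 0, 1, 1, 0, 0], 2), ([0, 0, 1, 1, 0, 1, 0], 2), ([0, 1, 1, 0, 0, 0, 0], 2),
    ([2, 1, 0, 0, 0, 0, 0], 2)]⟩

theorem tord7a_6_ok : tord7a_6.OK 7 := TT.leaf_ok (T := ttd7a_6) (by decide +kernel)

/-- the torus -/
def ttd7a_7 : TT where
  k := 4
  rf := [false, false, true, true]
  tau := [9, 8, 7, 20, 14, 19, 13, 2, 1, 0, 27, 21, 26, 6, 4, 18, 23, 24, 15, 5, 3, 11, 25, 16, 17, 22, 12, 10]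
  par := [0, 0, 3, 10]
  stars := [[0, 13, 27, 10], [1, 9], [2, 8], [3, 7, 6, 20], [4, 14], [5, 15, 19], [11, 21], [12, 22, 26], [16, 24,
    18], [17, 25, 23]]
  word := [[], [], [], [], [], [0, 3], [0, 3], [], [], [], [], [], [1, 2], [2, 1], [], [0, 3], [0], [2], [2, 1], [2,
    1], [], [], [1, 2], [1], [3], [3, 0], [3, 0], []]
  rank := [0, 1, 2, 0, 1, 2, 3, 2, 1, 0, 0, 1, 2, 3, 1, 1, 0, 0, 1, 2, 0, 1, 1, 0, 0, 1, 2, 0]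
  just := [0, 1, 2, 0, 4, 5, 3, 2, 1, 0, 0, 6, 7, 3, 4, 8, 0, 0, 8, 5, 0, 6, 9, 0, 0, 9, 7, 0]
  gA := 16
  gB := 17
  fin := 0
  sid := [0, 1, 2, 3, 4, 5, 3, 3, 2, 1, 0, 6, 7, 0, 4, 5, 8, 9, 8, 5, 3, 6, 7, 9, 8, 9, 7, 0]
  off := [(0, 0), (0, 0), (0, 0), (0, 0), (0, 0), (0, 0), (1, -1), (0, 0), (0, 0), (0, 0), (0, 0), (0, 0), (0, 0),
    (-1, 1), (0, 0), (0, 0), (0, 0), (0, 0), (-1, 1), (-1, 1), (0, 0), (0, 0), (0, 0), (-1, 0), (-1, 0), (0, -1), (1,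
    -1), (0, 0)]

/-- glued arcs and equations -/
def tord7a_7 : TorT :=
  ⟨[(0, 2, true), (0, 4, false), (1, 1, true), (1, 4, true), (2, 2, true), (3, 3, true), (3, 6, false), (5, 5,
    false), (6, 6, true)],
    [([0, 0, 1, 1, 1, 0, 0], 2), ([0, 1, 0, 0, 0, 2, 0], 2), ([0, 1, 1, 0, 0, 0, 0], 2), ([1, 0, 0, 0, 1, 0, 0], 2),
    ([1, 0, 0, 1, 0, 0, 2], 2)]⟩

theorem tord7a_7_ok : tord7a_7.OK 7 := TT.leaf_ok (T := ttd7a_7) (by decide +kernel)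

/-- the torus -/
def ttd7a_8 : TT where
  k := 4
  rf := [false, false, true, true]
  tau := [7, 18, 11, 10, 9, 26, 24, 0, 25, 4, 3, 2, 19, 17, 23, 22, 21, 13, 1, 12, 27, 16, 15, 14, 6, 8, 5, 20]
  par := [0, 0, 1, 5]
  stars := [[0, 25, 8], [1, 7, 18], [2, 19, 12], [3, 11], [4, 10], [5, 9, 26], [6, 27, 14, 24], [13, 20, 21, 17],
    [15, 23], [16, 22]]
  word := [[], [], [0], [0], [0], [], [3, 1, 2], [], [1], [1], [1], [1], [1], [], [2], [2], [2], [], [], [0], [0, 2],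
    [3], [3], [3], [3, 0, 2], [0], [], [3, 1]]
  rank := [0, 0, 0, 1, 2, 0, 3, 0, 3, 2, 1, 0, 1, 1, 2, 1, 0, 1, 0, 1, 2, 0, 1, 2, 3, 3, 0, 2]
  just := [0, 0, 0, 3, 4, 0, 6, 0, 5, 4, 3, 0, 2, 1, 8, 9, 0, 1, 0, 2, 7, 0, 9, 8, 6, 5, 0, 7]
  gA := 2
  gB := 16
  fin := 0
  sid := [0, 1, 2, 3, 4, 5, 6, 1, 0, 5, 4, 3, 2, 7, 6, 8, 9, 7, 1, 2, 7, 7, 9, 8, 6, 0, 5, 6]
  off := [(0, 0), (0, 0), (0, 0), (0, 0), (0, 0), (0, 0), (0, 0), (0, 0), (0, 0), (-1, 0), (-1, 0), (-1, 0), (-1, 0),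
    (0, 0), (1, 1), (0, 0), (0, 0), (0, 0), (0, 0), (0, 0), (1, 0), (0, -1), (0, -1), (0, -1), (1, 0), (1, 0), (0,
    0), (0, 0)]

/-- glued arcs and equations -/
def tord7a_8 : TorT :=
  ⟨[(0, 0, true), (0, 2, true), (1, 1, true), (1, 4, false), (2, 4, true), (3, 3, true), (3, 6, false), (5, 5,
    false), (6, 6, true)],
    [([0, 0, 0, 1, 1, 0, 0], 2), ([0, 0, 1, 0, 0, 2, 0], 2), ([0, 1, 1, 0, 0, 0, 0], 2), ([1, 0, 0, 1, 0, 0, 2], 2),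
    ([1, 1, 0, 0, 1, 0, 0], 2)]⟩

theorem tord7a_8_ok : tord7a_8.OK 7 := TT.leaf_ok (T := ttd7a_8) (by decide +kernel)

/-- the torus -/
def ttd7a_9 : TT where
  k := 4
  rf := [false, false, true, true]
  tau := [7, 14, 11, 10, 9, 18, 27, 0, 21, 4, 3, 2, 25, 20, 1, 24, 23, 22, 5, 26, 13, 8, 17, 16, 15, 12, 19, 6]
  par := [0, 0, 1, 6]
  stars := [[0, 21, 8], [1, 7, 14], [2, 15, 25, 12], [3, 11], [4, 10], [5, 9, 22, 18], [6, 19, 27], [13, 26, 20],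
    [16, 24], [17, 23]]
  word := [[], [], [2, 1], [2, 1], [2, 1], [1], [], [], [0, 3, 1, 2], [0, 3], [0, 3], [0, 3], [0], [], [], [2], [2],
    [2], [0], [0], [], [3, 0, 2, 1], [3], [3], [3], [1], [1], []]
  rank := [0, 0, 1, 2, 3, 3, 0, 0, 4, 3, 2, 1, 0, 1, 0, 0, 1, 2, 3, 2, 1, 4, 2, 1, 0, 0, 2, 0]
  just := [0, 0, 2, 3, 4, 6, 0, 0, 5, 4, 3, 2, 0, 1, 0, 0, 8, 9, 6, 7, 1, 5, 9, 8, 0, 0, 7, 0]
  gA := 12
  gB := 15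
  fin := 0
  sid := [0, 1, 2, 3, 4, 5, 6, 1, 0, 5, 4, 3, 2, 7, 1, 2, 8, 9, 5, 6, 7, 0, 5, 9, 8, 2, 7, 6]
  off := [(0, 0), (0, 0), (0, 0), (0, 0), (0, 0), (0, 0), (0, 0), (0, 0), (0, 0), (1, -1), (1, -1), (1, -1), (1, -1),
    (0, 0), (0, 0), (0, 0), (0, 0), (0, 0), (1, 0), (1, 0), (0, 0), (0, 0), (1, -1), (0, -1), (0, -1), (0, -1), (-1,
    0), (0, 0)]

/-- glued arcs and equations -/
def tord7a_9 : TorT :=
  ⟨[(0, 0, true), (0, 1, false), (1, 3, true), (2, 2, true), (2, 4, true), (3, 3, true), (4, 5, false), (5, 5, true),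
    (6, 6, false)],
    [([0, 0, 0, 0, 0, 1, 2], 2), ([0, 0, 0, 1, 1, 0, 0], 2), ([0, 0, 1, 1, 0, 0, 0], 2), ([0, 1, 1, 0, 1, 1, 0], 2),
    ([2, 1, 0, 0, 0, 0, 0], 2)]⟩

theorem tord7a_9_ok : tord7a_9.OK 7 := TT.leaf_ok (T := ttd7a_9) (by decide +kernel)

/-- the torus -/
def ttd7a_10 : TT where
  k := 4
  rf := [false, false, true, true]
  tau := [7, 14, 25, 10, 19, 12, 27, 0, 21, 18, 3, 26, 5, 20, 1, 24, 23, 22, 9, 4, 13, 8, 17, 16, 15, 2, 11, 6]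
  par := [0, 0, 1, 2]
  stars := [[0, 21, 8], [1, 7, 14], [2, 15, 25], [3, 26, 11], [4, 10, 19], [5, 20, 13], [6, 12, 27], [9, 22, 18],
    [16, 24], [17, 23]]
  word := [[], [], [], [0], [2], [2], [2, 1], [], [1, 2], [1, 2], [1], [1], [3], [], [], [], [], [], [3, 0], [3], [],
    [3, 0], [], [], [], [], [0], [0, 3]]
  rank := [0, 0, 0, 0, 0, 2, 3, 0, 4, 1, 0, 1, 2, 1, 0, 1, 2, 3, 1, 0, 1, 4, 3, 2, 1, 0, 1, 3]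
  just := [0, 0, 0, 0, 0, 5, 6, 0, 7, 4, 0, 3, 5, 1, 0, 2, 8, 9, 4, 0, 1, 7, 9, 8, 2, 0, 3, 6]
  gA := 3
  gB := 4
  fin := 0
  sid := [0, 1, 2, 3, 4, 5, 6, 1, 0, 7, 4, 3, 6, 5, 1, 2, 8, 9, 7, 4, 5, 0, 7, 9, 8, 2, 3, 6]
  off := [(0, 0), (0, 0), (0, 0), (0, 0), (0, 0), (0, 0), (0, 0), (0, 0), (0, 0), (0, 0), (-1, 0), (-1, 0), (0, -1),
    (0, -1), (0, 0), (0, 0), (0, 0), (0, 0), (1, -1), (0, -1), (0, -1), (1, -1), (1, -1), (0, 0), (0, 0), (0, 0), (0,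
    0), (1, -1)]

/-- glued arcs and equations -/
def tord7a_10 : TorT :=
  ⟨[(0, 0, true), (0, 1, false), (1, 3, true), (2, 2, true), (2, 4, false), (3, 3, true), (4, 5, false), (5, 5,
    true), (6, 6, false)],
    [([0, 0, 0, 0, 0, 1, 2], 2), ([0, 0, 0, 1, 1, 1, 0], 2), ([0, 0, 1, 1, 0, 0, 0], 2), ([0, 1, 1, 0, 1, 0, 0], 2),
    ([2, 1, 0, 0, 0, 0, 0], 2)]⟩

theorem tord7a_10_ok : tord7a_10.OK 7 := TT.leaf_ok (T := ttd7a_10) (by decide +kernel)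

/-- the torus -/
def ttd7a_11 : TT where
  k := 4
  rf := [false, false, true, true]
  tau := [7, 14, 9, 22, 23, 18, 27, 0, 21, 2, 15, 16, 25, 20, 1, 10, 11, 24, 5, 26, 13, 8, 3, 4, 17, 12, 19, 6]
  par := [0, 0, 1, 3]
  stars := [[0, 21, 8], [1, 7, 14], [2, 15, 10], [3, 9, 22], [4, 23], [5, 24, 18], [6, 19, 27], [11, 16], [12, 17,
    25], [13, 26, 20]]
  word := [[], [], [1], [], [], [3, 0], [3, 0, 2], [], [0], [0], [0], [0], [2], [], [], [1], [1], [1, 2], [1, 2],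
    [2], [], [1], [], [], [3, 0], [3], [3], [3, 1, 2]]
  rank := [0, 0, 2, 0, 1, 2, 3, 0, 3, 2, 1, 0, 0, 1, 0, 1, 0, 1, 2, 2, 1, 3, 0, 1, 1, 0, 2, 3]
  just := [0, 0, 2, 0, 4, 5, 6, 0, 3, 2, 7, 0, 0, 1, 0, 7, 0, 8, 5, 9, 1, 3, 0, 4, 8, 0, 9, 6]
  gA := 11
  gB := 12
  fin := 0
  sid := [0, 1, 2, 3, 4, 5, 6, 1, 0, 3, 2, 7, 8, 9, 1, 2, 7, 8, 5, 6, 9, 0, 3, 4, 5, 8, 9, 6]
  off := [(0, 0), (0, 0), (0, 0), (0, 0), (0, 0), (0, 0), (0, 0), (0, 0), (0, 0), (1, 0), (1, 0), (0, 0), (0, 0), (0,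
    0), (0, 0), (0, 0), (-1, 0), (-1, 0), (-1, 1), (-1, 1), (0, 0), (-1, 0), (0, 0), (0, 0), (0, 0), (0, -1), (0,
    -1), (-1, 0)]

/-- glued arcs and equations -/
def tord7a_11 : TorT :=
  ⟨[(0, 0, true), (0, 1, false), (1, 3, false), (2, 2, true), (2, 4, false), (3, 3, true), (4, 5, false), (5, 5,
    true), (6, 6, false)],
    [([0, 0, 0, 0, 0, 1, 2], 2), ([0, 0, 0, 1, 1, 1, 0], 2), ([0, 0, 1, 0, 1, 0, 0], 2), ([0, 1, 1, 1, 0, 0, 0], 2),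
    ([2, 1, 0, 0, 0, 0, 0], 2)]⟩

theorem tord7a_11_ok : tord7a_11.OK 7 := TT.leaf_ok (T := ttd7a_11) (by decide +kernel)

end Pool.Agent.Lib_MP_fa6e45
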