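import Pool.Agent.Lib_MP_fa6e45.CT5

/-!
MP_fa6e45_co, stage 9: straight-side patterns with `7` sides, tables of tori (generated by a program).
-/

namespace Pool.Agent.Lib_MP_fa6e45

/-- the torus -/
def ttd7a_60 : TT where
  k := 8
  rf := [false, false, true, false, true, true, true, false]
  tau := [7, 18, 22, 21, 15, 30, 41, 0, 46, 50, 49, 43, 37, 34, 42, 4, 29, 28, 1, 23, 55, 3, 2, 19, 54, 53, 52, 48,
    17, 16, 5, 40, 39, 38, 13, 45, 44, 12, 33, 32, 31, 6, 14, 11, 36, 35, 8, 51, 27, 10, 9, 47, 26, 25, 24, 20]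
  par := [0, 0, 1, 2, 5, 6, 8, 9]
  stars := [[0, 35, 46, 8], [1, 7, 28, 18], [2, 19, 23], [3, 22], [4, 21, 42, 15], [5, 16, 30], [6, 31, 41], [9, 47,
    51], [10, 50], [11, 49, 14, 43], [12, 44, 37], [13, 38, 34], [17, 29], [20, 55, 24], [25, 54], [26, 53], [27, 52,
    48], [32, 40], [33, 39], [36, 45]]
  word := [[], [], [], [], [1], [], [], [], [], [], [], [3, 0, 2], [0], [0], [0, 2], [0], [0], [0], [], [], [2], [],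
    [], [], [2], [2], [2], [2], [1], [1], [], [], [], [], [1], [1, 3, 0, 2], [1, 3, 0, 2], [1], [], [], [], [], [3,
    1], [3, 1, 2], [3, 1, 2, 0], [3, 1, 2, 0], [], [], [3], [], [], [], [3], [3], [3], [3]]
  rank := [0, 0, 0, 1, 1, 0, 0, 0, 0, 0, 1, 4, 4, 2, 3, 1, 0, 1, 0, 1, 2, 1, 0, 1, 1, 0, 1, 2, 1, 0, 0, 1, 2, 3, 2,
    6, 5, 4, 3, 2, 1, 0, 3, 4, 5, 6, 0, 1, 2, 1, 0, 1, 1, 0, 1, 2]
  just := [0, 0, 0, 3, 5, 0, 0, 0, 0, 0, 8, 9, 11, 1, 4, 5, 0, 12, 0, 2, 13, 3, 0, 2, 14, 0, 15, 16, 12, 0, 0, 6, 17,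
    18, 1, 19, 10, 11, 18, 17, 6, 0, 4, 9, 10, 19, 0, 7, 16, 8, 0, 7, 15, 0, 14, 13]
  gA := 16
  gB := 25
  fin := 0
  sid := [0, 1, 2, 3, 4, 5, 6, 1, 0, 7, 8, 9, 10, 11, 9, 4, 5, 12, 1, 2, 13, 4, 3, 2, 13, 14, 15, 16, 1, 12, 5, 6,
    17, 18, 11, 0, 19, 10, 11, 18, 17, 6, 4, 9, 10, 19, 0, 7, 16, 9, 8, 7, 16, 15, 14, 13]
  off := [(0, 0), (0, 0), (0, 0), (0, 0), (0, 0), (0, 0), (0, 0), (0, 0), (0, 0), (0, 0), (0, 0), (0, 0), (0, 0), (0,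
    0), (0, 1), (1, 0), (1, 0), (0, 0), (0, 0), (0, 0), (0, 0), (0, 0), (0, 0), (0, 0), (0, 0), (0, 0), (0, 0), (0,
    0), (-1, 0), (-1, 0), (0, 0), (0, 0), (0, 0), (0, 0), (-1, 0), (0, 0), (0, 0), (-1, 0), (-1, 0), (0, 0), (0, 0),
    (0, 0), (0, -1), (-1, 0), (-1, 0), (0, 0), (0, 0), (0, 0), (0, -1), (0, 0), (0, 0), (0, 0), (0, -1), (0, -1), (0,
    -1), (0, -1)]

/-- glued arcs and equations -/
def tord7a_60 : TorT :=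
  ⟨[(0, 0, true), (0, 3, true), (1, 2, true), (1, 4, false), (2, 5, false), (3, 5, true), (4, 4, true), (6, 6,
    false)],
    [([0, 0, 0, 0, 1, 1, 0], 2), ([0, 0, 0, 1, 0, 0, 2], 2), ([0, 0, 2, 0, 0, 1, 0], 2), ([0, 1, 0, 1, 0, 0, 0], 2),
    ([2, 1, 0, 0, 1, 0, 0], 2)]⟩

theorem tord7a_60_ok : tord7a_60.OK 7 := TT.leaf_ok (T := ttd7a_60) (by decide +kernel)

/-- the torus -/
def ttd7a_61 : TT where
  k := 8
  rf := [false, false, true, false, true, false, true, true]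
  tau := [10, 9, 19, 26, 25, 24, 34, 32, 36, 1, 0, 28, 44, 55, 39, 29, 43, 42, 35, 2, 27, 38, 37, 33, 5, 4, 3, 20,
    11, 15, 50, 49, 7, 23, 6, 18, 8, 22, 21, 14, 51, 48, 17, 16, 12, 54, 53, 52, 41, 31, 30, 40, 47, 46, 45, 13]
  par := [0, 0, 2, 3, 6, 8, 12, 13]
  stars := [[0, 28, 11], [1, 10], [2, 9, 36, 19], [3, 20, 27], [4, 26], [5, 25], [6, 24, 34], [7, 49, 32], [8, 33,
    23, 37], [12, 29, 16, 44], [13, 45, 55], [14, 39, 21], [15, 30, 51, 40], [17, 43], [18, 35, 42], [22, 38], [31,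
    50], [41, 52, 48], [46, 54], [47, 53]]
  word := [[], [], [], [], [], [], [], [0], [], [], [], [3, 1, 2, 0], [], [], [1], [1, 2, 0], [2], [2], [], [], [],
    [1], [1], [], [], [], [], [], [1, 3, 0, 2], [1, 3, 0], [1], [1], [1], [], [], [], [], [0], [0], [0], [2], [2],
    [3], [3], [], [], [], [], [3], [0], [0], [3], [], [], [], []]
  rank := [0, 1, 0, 0, 1, 2, 0, 0, 0, 1, 0, 8, 0, 0, 6, 7, 4, 3, 2, 0, 1, 5, 4, 3, 2, 1, 0, 1, 8, 7, 2, 1, 0, 3, 0,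
    2, 0, 4, 5, 6, 4, 0, 3, 4, 0, 1, 2, 3, 0, 1, 2, 4, 3, 2, 1, 0]
  just := [0, 1, 0, 0, 4, 5, 0, 0, 0, 1, 0, 9, 0, 0, 11, 12, 13, 14, 2, 0, 3, 15, 8, 6, 5, 4, 0, 3, 9, 12, 16, 7, 0,
    6, 0, 2, 0, 8, 15, 11, 17, 0, 14, 13, 0, 10, 18, 19, 0, 7, 16, 17, 19, 18, 10, 0]
  gA := 7
  gB := 41
  fin := 0
  sid := [0, 1, 2, 3, 4, 5, 6, 7, 8, 2, 1, 0, 9, 10, 11, 12, 9, 13, 14, 2, 3, 11, 15, 8, 6, 5, 4, 3, 0, 9, 12, 16, 7,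
    8, 6, 14, 2, 8, 15, 11, 12, 17, 14, 13, 9, 10, 18, 19, 17, 7, 16, 12, 17, 19, 18, 10]
  off := [(0, 0), (0, 0), (0, 0), (0, 0), (0, 0), (0, 0), (0, 0), (0, 0), (0, 0), (0, 0), (0, 0), (0, 0), (0, 0), (0,
    0), (0, 0), (0, 0), (0, 1), (0, 0), (0, 0), (0, 0), (0, 0), (0, 0), (0, 0), (-1, 0), (0, 0), (0, 0), (0, 0), (0,
    0), (0, 0), (0, 0), (0, -1), (0, 0), (-1, 0), (-1, 0), (0, 0), (0, 0), (0, 0), (0, 0), (1, 0), (1, 0), (1, 0),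
    (0, 0), (0, -1), (0, -1), (0, 0), (0, 0), (0, 0), (0, 0), (0, -1), (0, 0), (1, 0), (1, -1), (0, -1), (0, 0), (0,
    0), (0, 0)]

/-- glued arcs and equations -/
def tord7a_61 : TorT :=
  ⟨[(0, 3, true), (0, 4, false), (1, 1, true), (1, 2, true), (2, 5, false), (3, 5, true), (4, 4, true), (6, 6,
    false)],
    [([0, 0, 0, 0, 1, 1, 0], 2), ([0, 0, 0, 1, 0, 0, 2], 2), ([0, 1, 0, 1, 0, 0, 0], 2), ([0, 1, 2, 0, 0, 1, 0], 2),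
    ([2, 0, 0, 0, 1, 0, 0], 2)]⟩

theorem tord7a_61_ok : tord7a_61.OK 7 := TT.leaf_ok (T := ttd7a_61) (by decide +kernel)

/-- the torus -/
def ttd7a_62 : TT where
  k := 8
  rf := [false, true, true, true, false, false, false, true]
  tau := [9, 10, 7, 8, 14, 23, 20, 2, 3, 0, 1, 28, 37, 34, 4, 22, 47, 26, 25, 24, 6, 46, 15, 5, 19, 18, 17, 48, 11,
    36, 54, 40, 39, 38, 13, 53, 29, 12, 33, 32, 31, 55, 51, 52, 49, 50, 21, 16, 27, 44, 45, 42, 43, 35, 30, 41]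
  par := [0, 0, 4, 5, 11, 12, 16, 30]
  stars := [[0, 14, 4, 9], [1, 10], [2, 11, 28, 7], [3, 8], [5, 15, 23], [6, 24, 20], [12, 37, 29], [13, 34, 38],
    [16, 47, 22], [17, 27, 48], [18, 26], [19, 25], [21, 46, 51, 42], [30, 36, 54], [31, 55, 41], [32, 40], [33, 39],
    [35, 49, 44, 53], [43, 52], [45, 50]]
  word := [[], [], [3, 0], [3, 0], [], [], [2, 1], [1, 2], [1, 2], [], [], [], [], [1, 2], [], [], [], [0, 3], [0,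
    3], [0, 3], [0, 3], [], [], [], [2, 1], [2, 1], [2, 1], [2, 1], [], [], [], [3, 0], [3, 0], [3, 0], [3, 0], [],
    [], [], [1, 2], [1, 2], [1, 2], [1, 2], [0], [0], [2], [2], [], [], [0, 3], [3], [3], [1], [1], [], [], [3, 0]]
  rank := [0, 1, 8, 9, 0, 0, 7, 8, 9, 0, 1, 0, 0, 7, 0, 1, 0, 4, 5, 6, 7, 2, 1, 0, 6, 5, 4, 3, 0, 1, 0, 4, 5, 6, 7,
    2, 1, 0, 6, 5, 4, 3, 1, 0, 0, 1, 2, 0, 3, 0, 1, 1, 0, 2, 0, 3]
  just := [0, 1, 2, 3, 0, 0, 5, 2, 3, 0, 1, 0, 0, 7, 0, 4, 0, 9, 10, 11, 5, 8, 4, 0, 11, 10, 9, 12, 0, 6, 0, 14, 15,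
    16, 7, 13, 6, 0, 16, 15, 14, 17, 18, 0, 0, 19, 8, 0, 12, 0, 19, 18, 0, 13, 0, 17]
  gA := 43
  gB := 44
  fin := 0
  sid := [0, 1, 2, 3, 0, 4, 5, 2, 3, 0, 1, 2, 6, 7, 0, 4, 8, 9, 10, 11, 5, 12, 8, 4, 5, 11, 10, 9, 2, 6, 13, 14, 15,
    16, 7, 17, 13, 6, 7, 16, 15, 14, 12, 18, 17, 19, 12, 8, 9, 17, 19, 12, 18, 17, 13, 14]
  off := [(0, 0), (0, 0), (0, 0), (0, 0), (1, -1), (0, 0), (0, 0), (-1, 1), (-1, 1), (0, 0), (0, 0), (0, 0), (0, 0),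
    (0, 0), (1, -1), (0, 0), (0, 0), (0, 0), (0, 0), (0, 0), (1, -1), (0, 0), (0, 0), (0, 0), (0, 0), (-1, 1), (-1,
    1), (-1, 1), (0, 0), (0, 0), (0, 0), (0, 0), (0, 0), (0, 0), (1, -1), (0, 0), (0, 0), (0, 0), (0, 0), (-1, 1),
    (-1, 1), (-1, 1), (1, -1), (0, 0), (1, 0), (0, 0), (0, 0), (0, 0), (0, 0), (1, -1), (0, -1), (0, -1), (-1, 0),
    (0, 0), (0, 0), (0, 0)]

/-- glued arcs and equations -/
def tord7a_62 : TorT :=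
  ⟨[(0, 2, false), (0, 4, false), (1, 1, true), (1, 3, false), (2, 5, false), (3, 5, true), (4, 4, true), (6, 6,
    false)],
    [([0, 0, 0, 0, 1, 1, 0], 2), ([0, 0, 0, 1, 0, 0, 2], 2), ([0, 1, 0, 1, 0, 0, 0], 2), ([0, 1, 1, 0, 0, 1, 0], 2),
    ([2, 0, 1, 0, 1, 0, 0], 2)]⟩

theorem tord7a_62_ok : tord7a_62.OK 7 := TT.leaf_ok (T := ttd7a_62) (by decide +kernel)

/-- the torus -/
def ttd7a_63 : TT where
  k := 8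
  rf := [false, false, true, false, true, false, true, true]
  tau := [9, 8, 7, 14, 23, 18, 34, 2, 1, 0, 28, 37, 32, 20, 3, 24, 46, 22, 5, 33, 13, 45, 17, 4, 15, 47, 40, 55, 10,
    38, 53, 36, 12, 19, 6, 52, 31, 11, 29, 54, 26, 48, 51, 50, 49, 21, 16, 25, 41, 44, 43, 42, 35, 30, 39, 27]
  par := [0, 0, 3, 4, 6, 11, 16, 27]
  stars := [[0, 28, 10], [1, 9], [2, 8], [3, 7, 14], [4, 15, 24], [5, 23, 18], [6, 19, 34], [11, 29, 38], [12, 37,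
    32], [13, 33, 20], [16, 47, 25], [17, 22, 46], [21, 49, 45], [26, 48, 41], [27, 40, 55], [30, 54, 39], [31, 36,
    53], [35, 42, 52], [43, 51], [44, 50]]
  word := [[], [], [], [], [], [0], [], [], [], [], [2, 0, 3, 1], [], [1], [], [], [], [], [1], [1], [1], [], [0],
    [0], [], [], [], [3], [], [0, 2, 1, 3], [0, 2, 1, 3], [0, 2, 1], [0], [0], [0], [], [2, 1], [1], [], [2, 0, 3,
    1], [2], [2], [2], [1], [1], [1], [1], [], [], [3], [0], [0], [0], [0, 3], [0, 3, 1], [3], []]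
  rank := [0, 1, 2, 0, 0, 2, 0, 2, 1, 0, 8, 0, 4, 3, 0, 1, 0, 1, 2, 3, 3, 0, 1, 0, 1, 2, 3, 0, 8, 7, 6, 5, 4, 3, 0,
    4, 5, 0, 7, 4, 3, 0, 3, 2, 1, 0, 0, 2, 0, 1, 2, 3, 4, 6, 4, 0]
  just := [0, 1, 2, 0, 0, 5, 0, 2, 1, 0, 7, 0, 9, 3, 0, 4, 0, 11, 5, 6, 3, 0, 11, 0, 4, 10, 13, 0, 7, 15, 16, 8, 9,
    6, 0, 17, 8, 0, 15, 14, 13, 0, 18, 19, 12, 0, 0, 10, 0, 12, 19, 18, 17, 16, 14, 0]
  gA := 21
  gB := 41
  fin := 0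
  sid := [0, 1, 2, 3, 4, 5, 6, 3, 2, 1, 0, 7, 8, 9, 3, 4, 10, 11, 5, 6, 9, 12, 11, 5, 4, 10, 13, 14, 0, 7, 15, 16, 8,
    9, 6, 17, 16, 8, 7, 15, 14, 13, 17, 18, 19, 12, 11, 10, 13, 12, 19, 18, 17, 16, 15, 14]
  off := [(0, 0), (0, 0), (0, 0), (0, 0), (0, 0), (0, 0), (0, 0), (0, 0), (0, 0), (0, 0), (0, 0), (0, 0), (0, 0), (0,
    0), (0, 0), (0, 0), (0, 0), (0, 0), (-1, 0), (-1, 0), (0, 0), (0, 0), (1, 0), (0, 0), (0, 0), (0, 0), (0, 0), (0,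
    0), (0, 0), (0, 0), (0, 0), (0, 0), (1, 0), (1, 0), (0, 0), (0, 0), (-1, 0), (0, 0), (0, 0), (0, 0), (0, 1), (0,
    1), (0, -1), (0, 0), (0, 0), (-1, 0), (0, 0), (0, 0), (0, 0), (0, 0), (1, 0), (1, 0), (1, -1), (0, -1), (0, -1),
    (0, 0)]

/-- glued arcs and equations -/
def tord7a_63 : TorT :=
  ⟨[(0, 2, true), (0, 3, false), (1, 1, true), (1, 3, false), (2, 4, true), (4, 5, false), (5, 5, true), (6, 6,
    false)],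
    [([0, 0, 0, 0, 0, 1, 2], 2), ([0, 0, 1, 0, 1, 1, 0], 2), ([0, 1, 0, 1, 1, 0, 0], 2), ([0, 1, 1, 0, 0, 0, 0], 2),
    ([2, 0, 0, 1, 0, 0, 0], 2)]⟩

theorem tord7a_63_ok : tord7a_63.OK 7 := TT.leaf_ok (T := ttd7a_63) (by decide +kernel)

/-- the torus -/
def ttd7a_64 : TT where
  k := 8
  rf := [false, false, true, false, true, false, true, true]
  tau := [7, 8, 14, 15, 16, 25, 20, 0, 1, 28, 29, 30, 39, 34, 2, 3, 4, 26, 47, 24, 6, 44, 45, 46, 19, 5, 17, 48, 9,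
    10, 11, 40, 54, 38, 13, 51, 52, 53, 33, 12, 31, 55, 49, 50, 21, 22, 23, 18, 27, 42, 43, 35, 36, 37, 32, 41]
  par := [0, 0, 2, 5, 9, 12, 18, 32]
  stars := [[0, 14, 2, 8], [1, 7, 28, 9], [3, 15], [4, 16], [5, 17, 26], [6, 25, 20], [10, 29], [11, 30], [12, 31,
    40], [13, 39, 34], [18, 48, 27], [19, 24, 47], [21, 42, 50, 44], [22, 45], [23, 46], [32, 55, 41], [33, 38, 54],
    [35, 49, 43, 51], [36, 52], [37, 53]]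
  word := [[], [1, 2], [], [], [], [], [0, 3], [], [3, 0], [], [], [], [], [1, 2], [], [], [], [], [], [2, 1], [2,
    1], [0, 3], [0, 3], [0, 3], [0, 3], [], [], [], [], [], [], [], [], [3, 0], [3, 0], [1, 2], [1, 2], [1, 2], [1,
    2], [], [], [], [0], [2], [2, 1], [2, 1], [2, 1], [], [], [1], [3], [3, 0], [3, 0], [3, 0], [], []]
  rank := [0, 10, 0, 1, 2, 0, 9, 0, 10, 0, 1, 2, 0, 9, 0, 1, 2, 3, 0, 8, 9, 5, 6, 7, 8, 0, 3, 4, 0, 1, 2, 3, 0, 8, 9,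
    5, 6, 7, 8, 0, 3, 4, 0, 0, 5, 6, 7, 0, 4, 0, 0, 5, 6, 7, 0, 4]
  just := [0, 1, 0, 2, 3, 0, 5, 0, 1, 0, 6, 7, 0, 9, 0, 2, 3, 4, 0, 11, 5, 12, 13, 14, 11, 0, 4, 10, 0, 6, 7, 8, 0,
    16, 9, 17, 18, 19, 16, 0, 8, 15, 0, 0, 12, 13, 14, 0, 10, 0, 0, 17, 18, 19, 0, 15]
  gA := 42
  gB := 43
  fin := 0
  sid := [0, 1, 0, 2, 3, 4, 5, 1, 0, 1, 6, 7, 8, 9, 0, 2, 3, 4, 10, 11, 5, 12, 13, 14, 11, 5, 4, 10, 1, 6, 7, 8, 15,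
    16, 9, 17, 18, 19, 16, 9, 8, 15, 12, 17, 12, 13, 14, 11, 10, 17, 12, 17, 18, 19, 16, 15]
  off := [(0, 0), (0, 0), (-1, 1), (0, 0), (0, 0), (0, 0), (0, 0), (0, 0), (0, 0), (1, -1), (0, 0), (0, 0), (0, 0),
    (0, 0), (-1, 1), (0, 0), (0, 0), (0, 0), (0, 0), (0, 0), (-1, 1), (0, 0), (0, 0), (0, 0), (1, -1), (0, 0), (0,
    0), (0, 0), (1, -1), (0, 0), (0, 0), (0, 0), (0, 0), (0, 0), (1, -1), (0, 0), (0, 0), (0, 0), (-1, 1), (0, 0),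
    (0, 0), (0, 0), (0, 0), (1, 0), (-1, 1), (-1, 1), (-1, 1), (0, 0), (0, 0), (0, 0), (-1, 0), (1, -1), (1, -1), (1,
    -1), (0, 0), (0, 0)]

/-- glued arcs and equations -/
def tord7a_64 : TorT :=
  ⟨[(0, 0, true), (0, 2, false), (1, 1, true), (1, 3, false), (2, 4, false), (3, 5, false), (4, 5, true), (6, 6,
    false)],
    [([0, 0, 0, 0, 1, 0, 2], 2), ([0, 0, 0, 1, 0, 2, 0], 2), ([0, 0, 1, 0, 1, 0, 0], 2), ([0, 1, 0, 1, 0, 0, 0], 2),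
    ([2, 1, 1, 0, 0, 0, 0], 2)]⟩

theorem tord7a_64_ok : tord7a_64.OK 7 := TT.leaf_ok (T := ttd7a_64) (by decide +kernel)

/-- the torus -/
def ttd7a_65 : TT where
  k := 2
  rf := [false, true]
  tau := [3, 11, 10, 0, 7, 8, 13, 4, 5, 12, 2, 1, 9, 6]
  par := [0, 1]
  stars := [[0, 7, 4], [1, 3, 11], [2, 12, 10], [5, 8], [6, 9, 13]]
  word := [[2], [], [3], [3], [0], [0], [0, 2], [1], [1], [2], [2], [], [3], [3, 1]]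
  rank := [2, 0, 1, 2, 1, 0, 1, 1, 0, 0, 1, 0, 0, 1]
  just := [1, 0, 2, 1, 3, 0, 4, 3, 0, 0, 2, 0, 0, 4]
  gA := 5
  gB := 9
  fin := 0
  sid := [0, 1, 2, 1, 0, 3, 4, 0, 3, 4, 2, 1, 2, 4]
  off := [(0, 0), (0, 0), (0, 0), (0, -1), (0, -1), (0, 0), (0, 0), (-1, -1), (-1, 0), (-1, 0), (0, 1), (0, 0), (0,
    0), (-1, -1)]

/-- glued arcs and equations -/
def tord7a_65 : TorT :=
  ⟨[(0, 3, true), (0, 4, false), (1, 4, false), (1, 5, false), (2, 3, false), (2, 5, true), (6, 6, false)],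
    [([0, 0, 1, 0, 0, 0, 2], 2), ([0, 0, 1, 1, 0, 1, 0], 2), ([0, 1, 0, 0, 0, 1, 0], 2), ([0, 1, 0, 1, 1, 0, 0], 2),
    ([2, 0, 0, 0, 1, 0, 0], 2)]⟩

theorem tord7a_65_ok : tord7a_65.OK 7 := TT.leaf_ok (T := ttd7a_65) (by decide +kernel)

end Pool.Agent.Lib_MP_fa6e45
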