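import Pool.Agent.Lib_MP_fa6e45.CT5

/-!
MP_fa6e45_co, stage 9: straight-side patterns with `7` sides, tables of tori (generated by a program).
-/

namespace Pool.Agent.Lib_MP_fa6e45

/-- the torus -/
def ttd7a_66 : TT where
  k := 2
  rf := [false, true]
  tau := [11, 12, 8, 9, 10, 7, 13, 5, 2, 3, 4, 0, 1, 6]
  par := [0, 0]
  stars := [[0, 7, 5, 11], [1, 12], [2, 13, 6, 8], [3, 9], [4, 10]]
  word := [[], [], [0], [0], [0], [2, 0], [2], [1, 3], [1], [1], [1], [], [], [3]]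
  rank := [0, 1, 0, 1, 2, 2, 0, 2, 0, 1, 2, 0, 1, 0]
  just := [0, 1, 0, 3, 4, 2, 0, 2, 0, 3, 4, 0, 1, 0]
  gA := 2
  gB := 6
  fin := 0
  sid := [0, 1, 2, 3, 4, 0, 2, 0, 2, 3, 4, 0, 1, 2]
  off := [(0, 0), (0, 0), (0, 0), (0, 0), (0, 0), (1, 0), (0, 1), (0, -1), (-1, 0), (-1, 0), (-1, 0), (0, 0), (0, 0),
    (0, 0)]

/-- glued arcs and equations -/
def tord7a_66 : TorT :=
  ⟨[(0, 4, false), (0, 5, false), (1, 2, false), (1, 5, false), (2, 3, false), (3, 4, false), (6, 6, false)],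
    [([0, 0, 0, 1, 1, 0, 0], 2), ([0, 0, 1, 1, 0, 0, 0], 2), ([0, 1, 0, 0, 0, 1, 0], 2), ([0, 1, 1, 0, 0, 0, 2], 2),
    ([2, 0, 0, 0, 1, 1, 0], 2)]⟩

theorem tord7a_66_ok : tord7a_66.OK 7 := TT.leaf_ok (T := ttd7a_66) (by decide +kernel)

/-- the torus -/
def ttd7a_67 : TT where
  k := 2
  rf := [false, true]
  tau := [4, 10, 11, 9, 0, 7, 13, 5, 12, 3, 1, 2, 8, 6]
  par := [0, 1]
  stars := [[0, 7, 5], [1, 4, 10], [2, 11], [3, 12, 9], [6, 8, 13]]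
  word := [[2], [], [], [3], [3], [0, 3], [0], [2, 1], [2], [2], [], [], [3], [1]]
  rank := [3, 0, 1, 2, 3, 1, 0, 1, 0, 2, 0, 1, 0, 0]
  just := [1, 0, 2, 3, 1, 4, 0, 4, 0, 3, 0, 2, 0, 0]
  gA := 6
  gB := 8
  fin := 0
  sid := [0, 1, 2, 3, 1, 0, 4, 0, 4, 3, 1, 2, 3, 4]
  off := [(0, 0), (0, 0), (0, 0), (0, 0), (0, -1), (0, -1), (0, 0), (-1, 0), (-1, 1), (0, 1), (0, 0), (0, 0), (0, 0),
    (-1, 0)]

/-- glued arcs and equations -/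
def tord7a_67 : TorT :=
  ⟨[(0, 4, true), (0, 5, false), (1, 3, false), (1, 5, true), (2, 3, false), (2, 4, false), (6, 6, false)],
    [([0, 0, 1, 0, 1, 0, 0], 2), ([0, 0, 1, 1, 0, 1, 0], 2), ([0, 1, 0, 0, 0, 0, 2], 2), ([0, 1, 0, 1, 1, 0, 0], 2),
    ([2, 0, 0, 0, 0, 1, 0], 2)]⟩

theorem tord7a_67_ok : tord7a_67.OK 7 := TT.leaf_ok (T := ttd7a_67) (by decide +kernel)

/-- the torus -/
def ttd7a_68 : TT where
  k := 8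
  rf := [false, false, false, false, true, true, true, true]
  tau := [7, 18, 17, 10, 23, 22, 34, 0, 25, 24, 3, 16, 15, 41, 40, 12, 11, 2, 1, 35, 48, 33, 5, 4, 9, 8, 28, 55, 26,
    54, 53, 44, 43, 21, 6, 19, 47, 46, 51, 50, 14, 13, 49, 32, 31, 52, 37, 36, 20, 42, 39, 38, 45, 30, 29, 27]
  par := [0, 0, 1, 4, 6, 13, 20, 27]
  stars := [[0, 28, 26, 8], [1, 7, 35, 19], [2, 18], [3, 17, 11], [4, 10, 24], [5, 23], [6, 22, 34], [9, 25], [12,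
    16], [13, 15, 41], [14, 42, 50, 40], [20, 36, 48], [21, 49, 43, 33], [27, 29, 55], [30, 54], [31, 45, 53], [32,
    44], [37, 47], [38, 52, 46], [39, 51]]
  word := [[], [], [], [2, 1], [], [], [], [], [0, 3], [0, 3], [0, 3], [0, 3], [0, 3], [], [2, 1], [2, 1], [2, 1],
    [], [], [], [], [], [], [], [2, 1], [2, 1], [1, 2], [], [3, 0], [3, 0], [3, 0], [3], [3], [], [], [], [], [],
    [0], [0], [0, 3], [], [2], [2], [2], [0], [], [], [], [3], [1], [1], [1], [1, 2], [1, 2], []]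
  rank := [0, 0, 1, 4, 0, 1, 0, 0, 6, 5, 4, 3, 2, 0, 1, 2, 3, 1, 0, 1, 0, 2, 1, 0, 5, 6, 7, 0, 7, 6, 5, 4, 3, 2, 0,
    1, 2, 3, 1, 0, 1, 0, 0, 3, 4, 4, 3, 2, 0, 0, 0, 1, 4, 5, 6, 0]
  just := [0, 0, 2, 3, 0, 5, 0, 0, 7, 4, 3, 8, 9, 0, 10, 9, 8, 2, 0, 1, 0, 6, 5, 0, 4, 7, 13, 0, 13, 14, 15, 16, 12,
    6, 0, 1, 11, 17, 19, 0, 10, 0, 0, 12, 16, 18, 17, 11, 0, 0, 0, 19, 18, 15, 14, 0]
  gA := 39
  gB := 42
  fin := 0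
  sid := [0, 1, 2, 3, 4, 5, 6, 1, 0, 7, 4, 3, 8, 9, 10, 9, 8, 3, 2, 1, 11, 12, 6, 5, 4, 7, 0, 13, 0, 13, 14, 15, 16,
    12, 6, 1, 11, 17, 18, 19, 10, 9, 10, 12, 16, 15, 18, 17, 11, 12, 10, 19, 18, 15, 14, 13]
  off := [(0, 0), (0, 0), (0, 0), (0, 0), (0, 0), (0, 0), (0, 0), (0, 0), (0, 0), (0, 0), (1, -1), (1, -1), (0, 0),
    (0, 0), (0, 0), (-1, 1), (-1, 1), (0, 0), (0, 0), (0, 0), (0, 0), (0, 0), (0, 0), (0, 0), (0, 0), (-1, 1), (-1,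
    1), (0, 0), (0, 0), (1, -1), (0, 0), (0, 0), (0, 0), (0, 0), (0, 0), (0, 0), (0, 0), (0, 0), (0, 0), (0, 0), (1,
    -1), (0, 0), (0, 0), (0, 1), (0, 1), (0, 1), (0, 0), (0, 0), (0, 0), (0, 0), (0, -1), (-1, 0), (-1, 0), (-1, 1),
    (-1, 1), (0, 0)]

/-- glued arcs and equations -/
def tord7a_68 : TorT :=
  ⟨[(0, 0, true), (0, 5, false), (1, 4, true), (1, 5, true), (2, 3, true), (2, 4, true), (3, 3, true), (6, 6, false)],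
    [([0, 0, 0, 2, 1, 0, 0], 2), ([0, 0, 1, 0, 0, 1, 0], 2), ([0, 0, 1, 0, 1, 0, 0], 2), ([0, 1, 0, 0, 0, 0, 2], 2),
    ([2, 1, 0, 0, 0, 1, 0], 2)]⟩

theorem tord7a_68_ok : tord7a_68.OK 7 := TT.leaf_ok (T := ttd7a_68) (by decide +kernel)

/-- the torus -/
def ttd7a_69 : TT where
  k := 8
  rf := [false, false, true, false, false, true, true, true]
  tau := [7, 14, 25, 10, 31, 30, 41, 0, 35, 32, 3, 24, 23, 20, 1, 26, 47, 46, 51, 22, 13, 50, 19, 12, 11, 2, 15, 48,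
    43, 40, 5, 4, 9, 36, 55, 8, 33, 54, 53, 44, 29, 6, 49, 28, 39, 52, 17, 16, 27, 42, 21, 18, 45, 38, 37, 34]
  par := [0, 0, 1, 2, 4, 6, 16, 18]
  stars := [[0, 35, 8], [1, 7, 14], [2, 15, 26], [3, 25, 11], [4, 10, 32], [5, 31], [6, 30, 41], [9, 36, 33], [12,
    24], [13, 23, 20], [16, 48, 27], [17, 47], [18, 52, 46], [19, 22, 51], [21, 42, 50], [28, 49, 43], [29, 44, 40],
    [34, 37, 55], [38, 54], [39, 45, 53]]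
  word := [[], [], [], [1], [], [], [], [], [0, 2, 1, 3], [0], [0], [0], [0], [], [], [], [], [], [], [0], [], [1],
    [1], [1], [1], [], [], [], [2], [], [], [], [1], [2, 1, 3], [2, 1], [2, 0, 3, 1], [2, 0, 3], [2], [2], [2], [],
    [], [1], [3], [3], [], [], [], [], [0], [0], [], [], [3], [3], [0, 3]]
  rank := [0, 0, 0, 4, 0, 1, 0, 0, 6, 5, 4, 3, 2, 1, 0, 1, 0, 1, 0, 0, 1, 1, 0, 2, 3, 0, 1, 2, 3, 2, 1, 0, 5, 5, 4,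
    6, 5, 4, 3, 0, 2, 0, 3, 3, 0, 2, 1, 0, 2, 3, 1, 0, 2, 3, 4, 4]
  just := [0, 0, 0, 3, 0, 5, 0, 0, 7, 4, 3, 8, 9, 1, 0, 2, 0, 11, 0, 0, 1, 13, 0, 9, 8, 0, 2, 10, 16, 6, 5, 0, 4, 17,
    15, 7, 17, 18, 19, 0, 6, 0, 14, 16, 0, 12, 11, 0, 10, 14, 13, 0, 12, 19, 18, 15]
  gA := 19
  gB := 39
  fin := 0
  sid := [0, 1, 2, 3, 4, 5, 6, 1, 0, 7, 4, 3, 8, 9, 1, 2, 10, 11, 12, 13, 9, 14, 13, 9, 8, 3, 2, 10, 15, 16, 6, 5, 4,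
    7, 17, 0, 7, 17, 18, 19, 16, 6, 14, 15, 16, 19, 12, 11, 10, 15, 14, 13, 12, 19, 18, 17]
  off := [(0, 0), (0, 0), (0, 0), (0, 0), (0, 0), (0, 0), (0, 0), (0, 0), (0, 0), (0, 0), (1, 0), (1, 0), (0, 0), (0,
    0), (0, 0), (0, 0), (0, 0), (0, 0), (0, 0), (0, 0), (0, 0), (0, 0), (-1, 0), (-1, 0), (-1, 0), (0, 0), (0, 0),
    (0, 0), (0, 0), (0, 0), (0, 0), (0, 0), (0, 0), (-1, 0), (0, 0), (0, 0), (0, 0), (1, 0), (0, 0), (0, 0), (0, 0),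
    (0, 0), (0, 0), (0, -1), (0, -1), (0, -1), (0, 0), (0, 0), (0, 0), (1, -1), (1, 0), (0, 0), (0, 0), (0, -1), (0,
    -1), (1, -1)]

/-- glued arcs and equations -/
def tord7a_69 : TorT :=
  ⟨[(0, 0, true), (0, 1, false), (1, 5, false), (2, 4, true), (2, 5, true), (3, 3, true), (3, 4, true), (6, 6,
    false)],
    [([0, 0, 0, 1, 0, 1, 0], 2), ([0, 0, 0, 1, 2, 0, 0], 2), ([0, 0, 1, 0, 0, 0, 2], 2), ([0, 1, 1, 0, 0, 1, 0], 2),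
    ([2, 1, 0, 0, 0, 0, 0], 2)]⟩

theorem tord7a_69_ok : tord7a_69.OK 7 := TT.leaf_ok (T := ttd7a_69) (by decide +kernel)

/-- the torus -/
def ttd7a_70 : TT where
  k := 8
  rf := [false, false, true, false, false, true, true, true]
  tau := [7, 14, 15, 26, 31, 30, 41, 0, 35, 36, 33, 24, 23, 20, 1, 2, 47, 46, 39, 52, 13, 50, 51, 12, 11, 32, 3, 48,
    43, 44, 5, 4, 25, 10, 55, 8, 9, 54, 53, 18, 45, 6, 49, 28, 29, 40, 17, 16, 27, 42, 21, 22, 19, 38, 37, 34]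
  par := [0, 0, 1, 3, 4, 6, 16, 19]
  stars := [[0, 35, 8], [1, 7, 14], [2, 15], [3, 16, 48, 27], [4, 26, 32], [5, 31], [6, 30, 45, 41], [9, 36], [10,
    37, 55, 34], [11, 33, 25], [12, 24], [13, 23, 52, 20], [17, 47], [18, 40, 46], [19, 53, 39], [21, 42, 50], [22,
    51], [28, 49, 43], [29, 44], [38, 54]]
  word := [[], [], [], [], [], [], [], [], [1, 2, 0, 3], [1, 2, 0, 3], [1], [1], [1], [], [], [], [], [], [3], [],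
    [], [0], [0], [0], [0], [], [], [], [2], [2], [], [], [], [0], [2, 0], [2, 1, 3, 0], [2, 1, 3, 0], [2], [2], [2],
    [2], [], [0], [3], [3], [3], [], [], [], [1], [1], [1], [], [3], [3], [1, 3]]
  rank := [0, 0, 1, 0, 0, 1, 0, 0, 6, 5, 4, 3, 2, 1, 0, 1, 0, 1, 2, 0, 1, 1, 0, 2, 3, 1, 0, 2, 3, 2, 1, 0, 1, 4, 4,
    6, 5, 4, 3, 2, 0, 0, 3, 3, 2, 0, 1, 0, 2, 3, 1, 0, 0, 3, 4, 4]
  just := [0, 0, 2, 0, 0, 5, 0, 0, 7, 8, 9, 10, 11, 1, 0, 2, 0, 12, 13, 0, 1, 16, 0, 11, 10, 4, 0, 3, 18, 6, 5, 0, 4,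
    9, 17, 7, 8, 19, 14, 13, 0, 0, 15, 18, 6, 0, 12, 0, 3, 15, 16, 0, 0, 14, 19, 17]
  gA := 22
  gB := 40
  fin := 0
  sid := [0, 1, 2, 3, 4, 5, 6, 1, 0, 7, 8, 9, 10, 11, 1, 2, 3, 12, 13, 14, 11, 15, 16, 11, 10, 9, 4, 3, 17, 18, 6, 5,
    4, 9, 8, 0, 7, 8, 19, 14, 13, 6, 15, 17, 18, 6, 13, 12, 3, 17, 15, 16, 11, 14, 19, 8]
  off := [(0, 0), (0, 0), (0, 0), (0, 0), (0, 0), (0, 0), (0, 0), (0, 0), (0, 0), (0, 0), (0, 0), (0, 0), (0, 0), (0,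
    0), (0, 0), (0, 0), (0, 0), (0, 0), (0, 0), (0, 0), (0, 0), (0, 0), (0, 0), (1, 0), (1, 0), (1, 0), (0, 0), (0,
    0), (0, 0), (0, 0), (0, 0), (0, 0), (0, 0), (1, 0), (1, 0), (0, 0), (0, 0), (0, 0), (0, 0), (0, 1), (0, 1), (0,
    0), (0, 0), (0, -1), (0, -1), (0, -1), (0, 0), (0, 0), (0, 0), (-1, -1), (-1, 0), (-1, 0), (0, 0), (0, 0), (0,
    -1), (0, -1)]

/-- glued arcs and equations -/
def tord7a_70 : TorT :=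
  ⟨[(0, 0, true), (0, 1, false), (1, 2, false), (2, 5, true), (3, 4, true), (3, 5, true), (4, 4, true), (6, 6,
    false)],
    [([0, 0, 0, 0, 2, 1, 0], 2), ([0, 0, 0, 1, 0, 1, 0], 2), ([0, 0, 1, 1, 0, 0, 2], 2), ([0, 1, 1, 0, 0, 0, 0], 2),
    ([2, 1, 0, 0, 0, 0, 0], 2)]⟩

theorem tord7a_70_ok : tord7a_70.OK 7 := TT.leaf_ok (T := ttd7a_70) (by decide +kernel)

/-- the torus -/
def ttd7a_71 : TT where
  k := 8
  rf := [false, false, false, true, true, true, false, true]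
  tau := [8, 14, 21, 22, 30, 31, 41, 43, 0, 35, 36, 51, 52, 34, 1, 42, 49, 50, 37, 38, 27, 2, 3, 46, 47, 54, 39, 20,
    44, 45, 4, 5, 40, 53, 13, 9, 10, 18, 19, 26, 32, 6, 15, 7, 28, 29, 23, 24, 55, 16, 17, 11, 12, 33, 25, 48]
  par := [0, 0, 1, 2, 4, 6, 7, 11]
  stars := [[0, 35, 9], [1, 8, 43, 15], [2, 14, 21], [3, 22], [4, 23, 46, 30], [5, 31], [6, 32, 41], [7, 28, 44],
    [10, 36], [11, 37, 18, 51], [12, 52], [13, 53, 34], [16, 42, 49], [17, 50], [19, 38], [20, 39, 27], [24, 47],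
    [25, 55, 48], [26, 40, 33, 54], [29, 45]]
  word := [[], [], [], [], [], [], [], [], [], [1, 2, 0, 3], [1, 2, 0, 3], [], [], [3], [], [], [3, 0], [3, 0], [0,
    3], [0, 3], [], [], [], [2], [2], [0], [0, 3], [], [2], [2], [], [], [], [2], [2], [2, 1, 3, 0], [2, 1, 3, 0],
    [2, 1], [2, 1], [2, 1], [], [], [], [], [3], [3], [3], [3], [3, 0], [1, 2], [1, 2], [], [], [3], [1], [1, 2]]
  rank := [0, 0, 0, 1, 0, 1, 0, 0, 0, 8, 7, 0, 1, 1, 0, 1, 5, 6, 5, 4, 1, 0, 1, 2, 3, 0, 3, 1, 0, 1, 0, 1, 2, 2, 1,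
    8, 7, 5, 4, 3, 2, 0, 1, 0, 0, 1, 2, 3, 4, 5, 6, 0, 1, 2, 0, 4]
  just := [0, 0, 0, 3, 0, 5, 0, 0, 0, 8, 9, 0, 10, 7, 0, 1, 12, 13, 14, 15, 2, 0, 3, 4, 16, 0, 18, 2, 0, 19, 0, 5, 6,
    11, 7, 8, 9, 14, 15, 18, 6, 0, 1, 0, 0, 19, 4, 16, 17, 12, 13, 0, 10, 11, 0, 17]
  gA := 25
  gB := 28
  fin := 0
  sid := [0, 1, 2, 3, 4, 5, 6, 7, 1, 0, 8, 9, 10, 11, 2, 1, 12, 13, 9, 14, 15, 2, 3, 4, 16, 17, 18, 15, 7, 19, 4, 5,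
    6, 18, 11, 0, 8, 9, 14, 15, 18, 6, 12, 1, 7, 19, 4, 16, 17, 12, 13, 9, 10, 11, 18, 17]
  off := [(0, 0), (0, 0), (0, 0), (0, 0), (0, 0), (0, 0), (0, 0), (0, 0), (0, 0), (0, 0), (0, 0), (0, 0), (0, 0), (0,
    0), (0, 0), (0, 0), (0, 0), (0, 0), (1, -1), (0, 0), (0, 0), (0, 0), (0, 0), (0, 0), (0, 0), (0, 0), (0, 0), (0,
    0), (0, 1), (0, 0), (0, 0), (0, 0), (0, 0), (-1, 1), (0, 1), (0, 0), (0, 0), (0, 0), (-1, 1), (-1, 1), (-1, 1),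
    (0, 0), (0, 0), (0, 0), (0, 0), (0, -1), (0, -1), (0, -1), (0, -1), (-1, 1), (-1, 1), (0, 0), (0, 0), (0, 0),
    (-1, 0), (-1, 0)]

/-- glued arcs and equations -/
def tord7a_71 : TorT :=
  ⟨[(0, 1, true), (0, 2, false), (1, 3, false), (2, 4, false), (3, 5, false), (4, 5, true), (6, 6, false)],
    [([0, 0, 0, 0, 0, 4, 0], 2), ([0, 0, 0, 0, 1, 0, 2], 2), ([0, 0, 0, 1, 0, 1, 0], 2), ([0, 0, 2, 0, 2, 0, 0], 2),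
    ([0, 1, 0, 1, 0, 0, 0], 2), ([0, 4, 0, 0, 0, 0, 0], 2), ([2, 0, 1, 0, 0, 0, 0], 2)]⟩

theorem tord7a_71_ok : tord7a_71.OK 7 := TT.leaf_ok (T := ttd7a_71) (by decide +kernel)

end Pool.Agent.Lib_MP_fa6e45
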