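import Pool.Agent.Lib_MP_fa6e45.CT5

/-!
MP_fa6e45_co, stage 9: straight-side patterns with `7` sides, tables of tori (generated by a program).
-/

namespace Pool.Agent.Lib_MP_fa6e45

/-- the torus -/
def ttd7a_78 : TT where
  k := 8
  rf := [false, false, false, true, true, false, true, true]
  tau := [10, 9, 16, 19, 18, 17, 27, 25, 26, 1, 0, 21, 22, 34, 38, 37, 2, 5, 4, 3, 48, 11, 12, 29, 28, 7, 8, 6, 24,
    23, 51, 54, 53, 52, 13, 46, 47, 15, 14, 42, 43, 55, 39, 40, 50, 49, 35, 36, 20, 45, 44, 30, 33, 32, 31, 41]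
  par := [0, 0, 2, 6, 13, 14, 20, 30]
  stars := [[0, 21, 11], [1, 10], [2, 9, 27, 6, 17], [3, 16, 37, 48, 20], [4, 19], [5, 18], [7, 28, 25], [8, 26],
    [12, 22], [13, 23, 30, 52, 34], [14, 42, 39], [15, 38], [24, 29], [31, 55, 41, 44, 51], [32, 54], [33, 53], [35,
    49, 46], [36, 47], [40, 43], [45, 50]]
  word := [[], [], [], [0], [0], [0], [], [1], [1], [], [], [3, 0, 2, 1], [3, 0, 2, 1], [], [], [], [], [1], [1],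
    [1], [], [0, 3, 1, 2], [0, 3, 1, 2], [0], [0], [0], [0], [], [1], [1], [], [3, 0, 2], [3, 0, 2], [3, 0, 2], [],
    [0], [0], [], [], [], [], [0, 2], [], [], [2], [2], [1], [1], [], [3], [3], [], [3, 1, 2], [3, 1, 2], [3, 1, 2],
    [3, 1]]
  rank := [0, 1, 0, 0, 1, 2, 0, 4, 3, 1, 0, 9, 8, 0, 0, 1, 0, 2, 1, 0, 0, 9, 8, 6, 5, 4, 3, 0, 5, 6, 0, 5, 6, 7, 0,
    3, 2, 1, 0, 1, 2, 4, 1, 2, 1, 0, 3, 2, 0, 0, 1, 0, 7, 6, 5, 4]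
  just := [0, 1, 0, 0, 4, 5, 0, 7, 2, 1, 0, 8, 9, 0, 0, 11, 0, 5, 4, 0, 0, 8, 9, 12, 6, 7, 2, 0, 6, 12, 0, 13, 14,
    15, 0, 17, 3, 11, 0, 10, 18, 16, 10, 18, 19, 0, 17, 3, 0, 0, 19, 0, 15, 14, 13, 16]
  gA := 3
  gB := 45
  fin := 0
  sid := [0, 1, 2, 3, 4, 5, 2, 6, 7, 2, 1, 0, 8, 9, 10, 11, 3, 2, 5, 4, 3, 0, 8, 9, 12, 6, 7, 2, 6, 12, 9, 13, 14,
    15, 9, 16, 17, 3, 11, 10, 18, 13, 10, 18, 13, 19, 16, 17, 3, 16, 19, 13, 9, 15, 14, 13]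
  off := [(0, 0), (0, 0), (0, 0), (0, 0), (0, 0), (0, 0), (1, 0), (0, 0), (0, 0), (0, 0), (0, 0), (0, 0), (0, 0), (0,
    0), (0, 0), (0, 0), (0, 0), (0, 0), (-1, 0), (-1, 0), (-1, 0), (0, 0), (0, 0), (0, 0), (0, 0), (1, 0), (1, 0),
    (1, 0), (0, 0), (-1, 0), (-1, 0), (0, 0), (0, 0), (0, 0), (0, 0), (0, 0), (0, 0), (0, 0), (0, 0), (0, 0), (0, 0),
    (0, 1), (0, 0), (0, 0), (0, 1), (0, 0), (-1, 0), (-1, 0), (-1, 0), (-1, -1), (0, -1), (0, 0), (-1, 0), (-1, 0),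
    (-1, 0), (-1, 0)]

/-- glued arcs and equations -/
def tord7a_78 : TorT :=
  ⟨[(0, 3, true), (0, 4, false), (1, 2, true), (1, 5, false), (2, 2, true), (3, 5, true), (4, 4, true), (6, 6,
    false)],
    [([0, 0, 0, 0, 1, 1, 0], 2), ([0, 0, 2, 1, 0, 0, 2], 2), ([0, 1, 0, 0, 0, 1, 0], 2), ([0, 1, 0, 1, 0, 0, 0], 2),
    ([2, 0, 0, 0, 1, 0, 0], 2)]⟩

theorem tord7a_78_ok : tord7a_78.OK 7 := TT.leaf_ok (T := ttd7a_78) (by decide +kernel)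

/-- the torus -/
def ttd7a_79 : TT where
  k := 12
  rf := [false, false, false, true, true, true, false, false, false, false, true, false]
  tau := [10, 9, 18, 17, 16, 25, 34, 30, 31, 1, 0, 28, 36, 48, 52, 51, 4, 3, 2, 32, 27, 53, 61, 49, 50, 5, 33, 20,
    11, 47, 7, 8, 19, 26, 6, 46, 12, 42, 43, 68, 75, 83, 37, 38, 78, 77, 35, 29, 13, 23, 24, 15, 14, 21, 71, 62, 72,
    73, 64, 63, 70, 22, 55, 59, 58, 81, 80, 79, 39, 76, 60, 54, 56, 57, 82, 40, 69, 45, 44, 67, 66, 65, 74, 41]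
  par := [0, 0, 2, 5, 6, 12, 13, 14, 22, 39, 40, 41]
  stars := [[0, 28, 11], [1, 10], [2, 9, 32, 19], [3, 18], [4, 17], [5, 16, 51, 25], [6, 26, 34], [7, 48, 30], [8,
    31], [12, 29, 47, 36], [13, 37, 42], [14, 21, 53], [15, 52], [20, 33, 27], [22, 61, 71, 54], [23, 49, 62], [24,
    50], [35, 46, 77], [38, 43], [39, 68, 79, 44], [40, 76, 69], [41, 83, 75], [45, 78], [55, 72, 56], [57, 73], [58,
    74, 82, 65], [59, 64], [60, 63, 70], [66, 81], [67, 80]]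
  word := [[], [], [], [], [], [], [], [0, 3], [0, 3], [], [], [1, 2, 0, 3], [], [], [], [], [], [], [], [0, 3], [0,
    3], [2, 1], [], [], [], [], [], [2, 1], [2, 1, 3, 0], [2, 1], [2, 1], [2, 1], [2, 1], [], [], [1, 2], [], [], [],
    [], [], [], [], [], [3, 0], [3, 0], [3, 0], [0, 3], [], [], [], [], [], [0, 3], [0], [], [0], [0], [2], [2], [2],
    [], [], [3], [3], [3, 0], [3, 0], [3, 0], [], [], [3], [1], [1], [1], [], [], [], [1, 2], [1, 2], [1, 2], [1, 2],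
    [1, 2], [], []]
  rank := [0, 1, 0, 1, 2, 0, 0, 11, 10, 1, 0, 13, 0, 0, 0, 1, 2, 1, 0, 9, 8, 7, 0, 4, 3, 0, 1, 8, 13, 12, 11, 10, 9,
    1, 0, 7, 0, 1, 2, 0, 0, 0, 1, 2, 5, 6, 7, 12, 0, 4, 3, 1, 0, 7, 6, 5, 0, 1, 1, 0, 2, 0, 5, 0, 1, 2, 3, 4, 0, 1,
    2, 6, 0, 1, 1, 0, 1, 6, 5, 4, 3, 2, 1, 0]
  just := [0, 1, 0, 3, 4, 0, 0, 8, 2, 1, 0, 9, 0, 0, 0, 12, 4, 3, 0, 13, 11, 14, 0, 16, 5, 0, 6, 11, 9, 7, 8, 2, 13,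
    6, 0, 17, 0, 10, 18, 0, 0, 0, 10, 18, 19, 22, 17, 7, 0, 16, 5, 12, 0, 14, 23, 15, 0, 24, 26, 0, 27, 0, 15, 0, 26,
    25, 28, 29, 0, 20, 27, 23, 0, 24, 21, 0, 20, 22, 19, 29, 28, 25, 21, 0]
  gA := 56
  gB := 59
  fin := 0
  sid := [0, 1, 2, 3, 4, 5, 6, 7, 8, 2, 1, 0, 9, 10, 11, 12, 5, 4, 3, 2, 13, 11, 14, 15, 16, 5, 6, 13, 0, 9, 7, 8, 2,
    13, 6, 17, 9, 10, 18, 19, 20, 21, 10, 18, 19, 22, 17, 9, 7, 15, 16, 5, 12, 11, 14, 23, 23, 24, 25, 26, 27, 14,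
    15, 27, 26, 25, 28, 29, 19, 20, 27, 14, 23, 24, 25, 21, 20, 17, 22, 19, 29, 28, 25, 21]
  off := [(0, 0), (0, 0), (0, 0), (0, 0), (0, 0), (0, 0), (0, 0), (0, 0), (0, 0), (0, 0), (0, 0), (0, 0), (0, 0), (0,
    0), (0, 0), (0, 0), (0, 0), (0, 0), (0, 0), (0, 0), (0, 0), (-1, 1), (0, 0), (0, 0), (0, 0), (0, 0), (0, 0), (-1,
    1), (0, 0), (0, 0), (-1, 1), (-1, 1), (-1, 1), (-1, 1), (0, 0), (0, 0), (0, 0), (0, 0), (0, 0), (0, 0), (0, 0),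
    (0, 0), (0, 0), (0, 0), (0, 0), (0, 0), (1, -1), (1, -1), (0, 0), (0, 0), (0, 0), (0, 0), (0, 0), (0, 0), (1,
    -1), (0, 0), (0, 0), (0, 0), (0, 0), (0, 0), (0, 0), (0, 0), (0, 0), (0, -1), (0, -1), (0, -1), (0, 0), (0, 0),
    (0, 0), (0, 0), (0, -1), (0, -1), (-1, 0), (-1, 0), (-1, 0), (0, 0), (0, 0), (0, 0), (-1, 1), (-1, 1), (-1, 1),
    (-1, 1), (-1, 0), (0, 0)]

/-- glued arcs and equations -/
def tord7a_79 : TorT :=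
  ⟨[(0, 2, false), (0, 3, true), (0, 4, false), (1, 2, true), (1, 3, false), (1, 5, false), (2, 4, true), (3, 3,
    true), (4, 5, false), (5, 5, true), (6, 6, false), (6, 6, true)],
    [([0, 0, 0, 0, 0, 1, 2], 2), ([0, 0, 0, 1, 1, 0, 0], 2), ([0, 0, 2, 0, 1, 1, 0], 2), ([0, 1, 0, 1, 0, 0, 0], 2),
    ([0, 2, 0, 0, 0, 2, 0], 2), ([1, 0, 1, 0, 0, 0, 1], 2), ([2, 0, 0, 0, 1, 0, 0], 2)]⟩

theorem tord7a_79_ok : tord7a_79.OK 7 := TT.leaf_ok (T := ttd7a_79) (by decide +kernel)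

/-- the torus -/
def ttd7a_80 : TT where
  k := 8
  rf := [false, false, false, false, true, true, true, true]
  tau := [11, 10, 16, 23, 18, 8, 34, 33, 5, 17, 1, 0, 28, 41, 25, 24, 2, 9, 4, 22, 48, 47, 19, 3, 15, 14, 42, 55, 12,
    40, 52, 36, 35, 7, 6, 32, 31, 51, 44, 53, 29, 13, 26, 54, 38, 50, 49, 21, 20, 46, 45, 37, 30, 39, 43, 27]
  par := [0, 0, 2, 3, 6, 13, 20, 27]
  stars := [[0, 28, 12], [1, 11], [2, 10, 17], [3, 16, 24], [4, 23, 19], [5, 18, 9], [6, 8, 34], [7, 35, 33], [13,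
    29, 41], [14, 42, 26], [15, 25], [20, 22, 48], [21, 49, 47], [27, 43, 55], [30, 53, 40], [31, 37, 52], [32, 36],
    [38, 45, 51], [39, 54, 44], [46, 50]]
  word := [[], [], [], [], [1], [1], [], [0], [0], [], [], [], [2, 1, 3, 0], [], [], [], [], [], [0], [0], [], [1],
    [1], [], [], [], [], [], [1, 2, 0, 3], [1, 2, 0, 3], [1, 2, 0], [1], [1], [1], [], [0], [0], [2, 0], [2], [2],
    [2, 1, 3, 0], [], [], [], [3], [0], [0], [0], [], [1], [1], [1, 3], [1, 3, 0], [3], [], []]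
  rank := [0, 1, 0, 0, 1, 3, 0, 4, 3, 2, 1, 0, 9, 0, 2, 1, 0, 2, 1, 0, 0, 1, 0, 0, 1, 2, 3, 0, 9, 8, 7, 6, 5, 4, 0,
    5, 6, 4, 0, 5, 8, 0, 3, 4, 0, 3, 2, 1, 0, 2, 3, 4, 7, 5, 4, 0]
  just := [0, 1, 0, 0, 4, 5, 0, 6, 5, 2, 1, 0, 8, 0, 10, 3, 0, 2, 4, 0, 0, 11, 0, 0, 3, 10, 9, 0, 8, 14, 15, 16, 7,
    6, 0, 7, 16, 17, 0, 18, 14, 0, 9, 13, 0, 19, 12, 11, 0, 12, 19, 17, 15, 18, 13, 0]
  gA := 19
  gB := 38
  fin := 0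
  sid := [0, 1, 2, 3, 4, 5, 6, 7, 6, 5, 2, 1, 0, 8, 9, 10, 3, 2, 5, 4, 11, 12, 11, 4, 3, 10, 9, 13, 0, 8, 14, 15, 16,
    7, 6, 7, 16, 15, 17, 18, 14, 8, 9, 13, 18, 17, 19, 12, 11, 12, 19, 17, 15, 14, 18, 13]
  off := [(0, 0), (0, 0), (0, 0), (0, 0), (0, 0), (0, 0), (0, 0), (0, 0), (1, 0), (1, 0), (0, 0), (0, 0), (0, 0), (0,
    0), (0, 0), (0, 0), (0, 0), (0, 0), (1, 0), (1, 0), (0, 0), (0, 0), (-1, 0), (0, 0), (0, 0), (0, 0), (0, 0), (0,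
    0), (0, 0), (0, 0), (0, 0), (0, 0), (0, 0), (-1, 0), (0, 0), (0, 0), (1, 0), (1, 0), (0, 0), (0, 0), (0, 0), (0,
    0), (0, 0), (0, 0), (0, -1), (0, -1), (0, 0), (1, 0), (0, 0), (0, 0), (-1, 0), (-1, -1), (0, -1), (0, -1), (0,
    -1), (0, 0)]

/-- glued arcs and equations -/
def tord7a_80 : TorT :=
  ⟨[(0, 4, true), (0, 5, false), (1, 3, true), (1, 5, true), (2, 2, true), (2, 3, true), (4, 4, true), (6, 6, false)],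
    [([0, 0, 1, 0, 1, 1, 0], 2), ([0, 0, 1, 2, 0, 0, 0], 2), ([0, 1, 0, 0, 0, 0, 2], 2), ([0, 1, 0, 0, 1, 0, 0], 2),
    ([2, 0, 0, 0, 0, 1, 0], 2)]⟩

theorem tord7a_80_ok : tord7a_80.OK 7 := TT.leaf_ok (T := ttd7a_80) (by decide +kernel)

/-- the torus -/
def ttd7a_81 : TT where
  k := 2
  rf := [false, true]
  tau := [4, 9, 10, 11, 0, 7, 13, 5, 12, 1, 2, 3, 8, 6]
  par := [0, 1]
  stars := [[0, 7, 5], [1, 4, 12, 9], [2, 10], [3, 11], [6, 8, 13]]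
  word := [[2], [], [], [], [3], [0, 3], [0], [2, 1], [2], [], [], [], [3], [1]]
  rank := [3, 0, 1, 2, 3, 1, 0, 1, 0, 0, 1, 2, 0, 0]
  just := [1, 0, 2, 3, 1, 4, 0, 4, 0, 0, 2, 3, 0, 0]
  gA := 6
  gB := 8
  fin := 0
  sid := [0, 1, 2, 3, 1, 0, 4, 0, 4, 1, 2, 3, 1, 4]
  off := [(0, 0), (0, 0), (0, 0), (0, 0), (0, -1), (0, -1), (0, 0), (-1, 0), (-1, 1), (0, 0), (0, 0), (0, 0), (0,
    -1), (-1, 0)]

/-- glued arcs and equations -/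
def tord7a_81 : TorT :=
  ⟨[(0, 4, true), (0, 5, false), (1, 2, false), (1, 5, true), (2, 3, false), (3, 4, false), (6, 6, false)],
    [([0, 0, 0, 1, 1, 0, 0], 2), ([0, 0, 1, 1, 0, 0, 0], 2), ([0, 1, 0, 0, 0, 0, 2], 2), ([0, 1, 1, 0, 1, 1, 0], 2),
    ([2, 0, 0, 0, 0, 1, 0], 2)]⟩

theorem tord7a_81_ok : tord7a_81.OK 7 := TT.leaf_ok (T := ttd7a_81) (by decide +kernel)

/-- the torus -/
def ttd7a_82 : TT where
  k := 8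
  rf := [false, false, true, true, true, false, true, false]
  tau := [7, 14, 25, 33, 40, 31, 27, 0, 21, 18, 47, 54, 45, 20, 1, 24, 23, 22, 9, 46, 13, 8, 17, 16, 15, 2, 32, 6,
    42, 49, 39, 5, 26, 3, 41, 43, 52, 51, 50, 30, 4, 34, 28, 35, 53, 12, 19, 10, 55, 29, 38, 37, 36, 44, 11, 48]
  par := [0, 0, 1, 2, 3, 4, 10, 11]
  stars := [[0, 21, 8], [1, 7, 14], [2, 15, 25], [3, 26, 33], [4, 34, 41], [5, 40, 31], [6, 32, 27], [9, 22, 18],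
    [10, 19, 47], [11, 48, 55], [12, 54, 45], [13, 46, 20], [16, 24], [17, 23], [28, 43, 35], [29, 49, 42], [30, 39,
    50], [36, 44, 53], [37, 52], [38, 51]]
  word := [[], [], [], [], [], [2, 1], [2, 1], [], [1, 2], [1, 2], [], [], [3, 0], [], [], [], [], [], [3, 0], [3,
    0], [], [3, 0], [], [], [], [], [], [0, 3], [0], [0], [0, 3], [0, 3], [], [], [], [0], [2], [2], [2], [2, 1], [],
    [], [1], [1], [1, 2], [1, 2], [1, 2], [], [], [1], [3], [3], [3], [3, 0], [], []]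
  rank := [0, 0, 0, 0, 0, 5, 6, 0, 5, 4, 0, 0, 2, 1, 0, 1, 2, 3, 4, 3, 1, 5, 3, 2, 1, 0, 1, 6, 2, 3, 4, 5, 1, 0, 1,
    0, 0, 1, 2, 4, 0, 1, 2, 0, 1, 2, 3, 0, 1, 3, 2, 1, 0, 1, 0, 1]
  just := [0, 0, 0, 0, 0, 5, 6, 0, 7, 8, 0, 0, 10, 1, 0, 2, 12, 13, 8, 11, 1, 7, 13, 12, 2, 0, 3, 6, 14, 15, 16, 5,
    3, 0, 4, 0, 0, 18, 19, 16, 0, 4, 14, 0, 17, 10, 11, 0, 9, 15, 19, 18, 0, 17, 0, 9]
  gA := 35
  gB := 36
  fin := 0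
  sid := [0, 1, 2, 3, 4, 5, 6, 1, 0, 7, 8, 9, 10, 11, 1, 2, 12, 13, 7, 8, 11, 0, 7, 13, 12, 2, 3, 6, 14, 15, 16, 5,
    6, 3, 4, 14, 17, 18, 19, 16, 5, 4, 15, 14, 17, 10, 11, 8, 9, 15, 16, 19, 18, 17, 10, 9]
  off := [(0, 0), (0, 0), (0, 0), (0, 0), (0, 0), (0, 0), (0, 0), (0, 0), (0, 0), (0, 0), (0, 0), (0, 0), (0, 0), (0,
    0), (0, 0), (0, 0), (0, 0), (0, 0), (1, -1), (1, -1), (0, 0), (1, -1), (1, -1), (0, 0), (0, 0), (0, 0), (0, 0),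
    (1, -1), (0, 0), (0, 0), (0, 0), (1, -1), (1, -1), (0, 0), (0, 0), (0, 0), (0, 0), (0, 0), (0, 0), (-1, 1), (0,
    0), (0, 0), (-1, 0), (-1, 0), (-1, 0), (-1, 1), (-1, 1), (0, 0), (0, 0), (-1, 0), (-1, 0), (0, -1), (0, -1), (0,
    -1), (0, 0), (0, 0)]

/-- glued arcs and equations -/
def tord7a_82 : TorT :=
  ⟨[(0, 0, true), (0, 1, false), (1, 3, true), (2, 2, true), (2, 4, false), (3, 5, false), (4, 5, true), (6, 6,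
    false)],
    [([0, 0, 0, 0, 1, 0, 2], 2), ([0, 0, 0, 1, 0, 2, 0], 2), ([0, 0, 1, 1, 0, 0, 0], 2), ([0, 1, 1, 0, 1, 0, 0], 2),
    ([2, 1, 0, 0, 0, 0, 0], 2)]⟩

theorem tord7a_82_ok : tord7a_82.OK 7 := TT.leaf_ok (T := ttd7a_82) (by decide +kernel)

/-- the torus -/
def ttd7a_83 : TT where
  k := 6
  rf := [false, false, false, true, true, true]
  tau := [8, 14, 25, 26, 12, 18, 34, 15, 0, 39, 40, 19, 4, 27, 1, 7, 32, 33, 5, 11, 41, 31, 30, 36, 35, 2, 3, 13, 38,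
    37, 22, 21, 16, 17, 6, 24, 23, 29, 28, 9, 10, 20]
  par := [0, 0, 1, 2, 6, 9]
  stars := [[0, 28, 39, 9], [1, 8, 15], [2, 14, 35, 25], [3, 26], [4, 27, 13], [5, 12, 19], [6, 18, 34], [7, 21, 32,
    16], [10, 40], [11, 41, 20], [17, 33], [22, 31], [23, 37, 30], [24, 36], [29, 38]]
  word := [[], [], [], [], [0, 3], [0], [], [], [], [], [], [2], [2, 1], [2, 1], [], [], [1], [1], [1], [3], [3], [0,
    3, 1], [0, 3, 1], [3], [3], [], [], [0, 3], [0, 2, 1, 3], [0, 2, 1, 3], [0, 2, 1], [0, 2, 1], [0], [0], [], [2],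
    [2], [2, 0, 3, 1], [2, 0, 3, 1], [], [], [2]]
  rank := [0, 0, 0, 1, 1, 0, 0, 1, 0, 0, 1, 0, 1, 2, 0, 1, 2, 1, 0, 0, 2, 3, 4, 4, 3, 0, 1, 2, 6, 5, 4, 3, 2, 1, 0,
    3, 4, 5, 6, 0, 1, 2]
  just := [0, 0, 0, 3, 5, 0, 0, 1, 0, 0, 8, 0, 5, 4, 0, 1, 10, 6, 0, 0, 9, 7, 11, 13, 2, 0, 3, 4, 14, 12, 11, 7, 10,
    6, 0, 2, 13, 12, 14, 0, 8, 9]
  gA := 5
  gB := 11
  fin := 0
  sid := [0, 1, 2, 3, 4, 5, 6, 7, 1, 0, 8, 9, 5, 4, 2, 1, 7, 10, 6, 5, 9, 7, 11, 12, 13, 2, 3, 4, 0, 14, 12, 11, 7,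
    10, 6, 2, 13, 12, 14, 0, 8, 9]
  off := [(0, 0), (0, 0), (0, 0), (0, 0), (0, 0), (0, 0), (0, 0), (0, 0), (0, 0), (0, 0), (0, 0), (0, 0), (-1, 1),
    (-1, 1), (0, 0), (0, 0), (0, 0), (0, 0), (-1, 0), (-1, 0), (0, -1), (1, -1), (0, 0), (0, 0), (0, 0), (0, 0), (0,
    0), (0, 0), (0, 0), (0, 0), (0, 1), (0, 1), (1, 0), (1, 0), (0, 0), (0, 1), (0, 1), (0, 1), (0, 0), (0, 0), (0,
    0), (0, 0)]

/-- glued arcs and equations -/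
def tord7a_83 : TorT :=
  ⟨[(0, 1, true), (0, 3, true), (1, 2, true), (2, 4, false), (3, 5, false), (4, 5, true), (6, 6, false)],
    [([0, 0, 0, 0, 0, 3, 0], 2), ([0, 0, 0, 0, 1, 0, 2], 2), ([0, 0, 0, 1, 0, 1, 0], 2), ([0, 0, 3, 0, 0, 0, 0], 2),
    ([0, 1, 0, 1, 0, 0, 0], 2), ([0, 3, 0, 0, 0, 0, 0], 2), ([2, 0, 1, 0, 1, 0, 0], 2)]⟩

theorem tord7a_83_ok : tord7a_83.OK 7 := TT.leaf_ok (T := ttd7a_83) (by decide +kernel)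

end Pool.Agent.Lib_MP_fa6e45
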