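import Pool.Agent.Lib_MP_fa6e45.CT5

/-!
MP_fa6e45_co, stage 9: straight-side patterns with `7` sides, tables of tori (generated by a program).
-/

namespace Pool.Agent.Lib_MP_fa6e45

/-- the torus -/
def ttd7a_84 : TT where
  k := 12
  rf := [false, false, true, true, true, true, true, false, false, true, false, false]
  tau := [7, 8, 14, 15, 16, 17, 27, 0, 1, 28, 29, 30, 31, 41, 2, 3, 4, 5, 26, 46, 55, 58, 59, 60, 61, 47, 18, 6, 9,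
    10, 11, 12, 40, 67, 76, 79, 80, 81, 82, 68, 32, 13, 51, 52, 53, 54, 19, 25, 62, 57, 71, 42, 43, 44, 45, 20, 77,
    49, 21, 22, 23, 24, 48, 72, 73, 74, 75, 33, 39, 83, 78, 50, 63, 64, 65, 66, 34, 56, 70, 35, 36, 37, 38, 69]
  par := [0, 0, 2, 6, 9, 13, 19, 20, 21, 33, 34, 35]
  stars := [[0, 21, 58, 49, 14, 2, 8], [1, 7, 35, 79, 70, 28, 9], [3, 15], [4, 16], [5, 17], [6, 18, 27], [10, 29],
    [11, 30], [12, 31], [13, 32, 41], [19, 47, 26], [20, 55, 46], [22, 59], [23, 60], [24, 61], [25, 48, 62], [33,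
    68, 40], [34, 76, 67], [36, 80], [37, 81], [38, 82], [39, 69, 83], [42, 51, 71, 78, 56], [43, 52], [44, 53], [45,
    54], [50, 57, 77, 63, 72], [64, 73], [65, 74], [66, 75]]
  word := [[], [3, 0], [], [], [], [], [], [], [1, 2], [], [], [], [], [], [], [], [], [], [], [], [], [], [], [],
    [], [], [], [], [], [], [], [], [], [], [], [], [], [], [], [], [], [], [], [], [], [], [], [], [], [0, 3], [0],
    [], [], [], [], [], [2], [2, 1], [], [], [], [], [], [], [], [], [], [], [], [], [1, 2], [1], [], [], [], [], [],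
    [3], [3, 0], [], [], [], [], []]
  rank := [0, 8, 0, 1, 2, 3, 0, 0, 8, 0, 1, 2, 3, 0, 0, 1, 2, 3, 4, 0, 0, 0, 1, 2, 3, 5, 4, 0, 0, 1, 2, 3, 4, 0, 0,
    0, 1, 2, 3, 5, 4, 0, 4, 3, 2, 1, 0, 5, 6, 7, 0, 4, 3, 2, 1, 0, 0, 7, 0, 1, 2, 3, 6, 4, 3, 2, 1, 0, 5, 6, 7, 0, 4,
    3, 2, 1, 0, 0, 7, 0, 1, 2, 3, 6]
  just := [0, 1, 0, 2, 3, 4, 0, 0, 1, 0, 6, 7, 8, 0, 0, 2, 3, 4, 5, 0, 0, 0, 12, 13, 14, 10, 5, 0, 0, 6, 7, 8, 9, 0,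
    0, 0, 18, 19, 20, 16, 9, 0, 23, 24, 25, 11, 0, 10, 15, 26, 0, 23, 24, 25, 11, 0, 0, 26, 0, 12, 13, 14, 15, 27,
    28, 29, 17, 0, 16, 21, 22, 0, 27, 28, 29, 17, 0, 0, 22, 0, 18, 19, 20, 21]
  gA := 50
  gB := 56
  fin := 0
  sid := [0, 1, 0, 2, 3, 4, 5, 1, 0, 1, 6, 7, 8, 9, 0, 2, 3, 4, 5, 10, 11, 0, 12, 13, 14, 15, 10, 5, 1, 6, 7, 8, 9,
    16, 17, 1, 18, 19, 20, 21, 16, 9, 22, 23, 24, 25, 11, 10, 15, 0, 26, 22, 23, 24, 25, 11, 22, 26, 0, 12, 13, 14,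
    15, 26, 27, 28, 29, 17, 16, 21, 1, 22, 26, 27, 28, 29, 17, 26, 22, 1, 18, 19, 20, 21]
  off := [(0, 0), (0, 0), (1, -1), (0, 0), (0, 0), (0, 0), (0, 0), (0, 0), (0, 0), (-1, 1), (0, 0), (0, 0), (0, 0),
    (0, 0), (1, -1), (0, 0), (0, 0), (0, 0), (0, 0), (0, 0), (0, 0), (0, 0), (0, 0), (0, 0), (0, 0), (0, 0), (0, 0),
    (0, 0), (-1, 1), (0, 0), (0, 0), (0, 0), (0, 0), (0, 0), (0, 0), (0, 0), (0, 0), (0, 0), (0, 0), (0, 0), (0, 0),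
    (0, 0), (0, 0), (0, 0), (0, 0), (0, 0), (0, 0), (0, 0), (0, 0), (1, -1), (0, 0), (0, 0), (0, 0), (0, 0), (0, 0),
    (0, 0), (0, 0), (-1, 1), (0, 0), (0, 0), (0, 0), (0, 0), (0, 0), (-1, 0), (0, 0), (0, 0), (0, 0), (0, 0), (0, 0),
    (0, 0), (-1, 1), (-1, 0), (-1, 0), (0, 0), (0, 0), (0, 0), (0, 0), (-1, 0), (0, -1), (0, 0), (0, 0), (0, 0), (0,
    0), (0, 0)]

/-- glued arcs and equations -/
def tord7a_84 : TorT :=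
  ⟨[(0, 0, true), (0, 1, true), (0, 2, false), (1, 1, true), (1, 3, false), (2, 4, false), (3, 5, false), (4, 5,
    true), (6, 6, false)],
    [([0, 0, 0, 0, 0, 3, 0], 2), ([0, 0, 0, 0, 1, 0, 2], 2), ([0, 0, 0, 1, 0, 1, 0], 2), ([0, 0, 1, 0, 1, 0, 0], 2),
    ([0, 1, 0, 1, 0, 0, 0], 2), ([2, 2, 1, 0, 0, 0, 0], 2), ([4, 1, 2, 0, 0, 0, 0], 2)]⟩

theorem tord7a_84_ok : tord7a_84.OK 7 := TT.leaf_ok (T := ttd7a_84) (by decide +kernel)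

/-- the torus -/
def ttd7a_85 : TT where
  k := 6
  rf := [false, false, false, true, true, true]
  tau := [8, 14, 21, 22, 30, 31, 41, 15, 0, 35, 36, 23, 24, 34, 1, 7, 28, 29, 37, 38, 27, 2, 3, 11, 12, 33, 39, 20,
    16, 17, 4, 5, 40, 25, 13, 9, 10, 18, 19, 26, 32, 6]
  par := [0, 0, 1, 2, 4, 6]
  stars := [[0, 35, 9], [1, 8, 15], [2, 14, 21], [3, 22], [4, 23, 11, 37, 18, 30], [5, 31], [6, 32, 41], [7, 28, 16],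
    [10, 36], [12, 24], [13, 25, 34], [17, 29], [19, 38], [20, 39, 27], [26, 40, 33]]
  word := [[], [], [], [], [], [], [], [], [], [0, 3, 1, 2], [0, 3, 1, 2], [0, 3], [0, 3], [0], [], [], [0], [0],
    [2], [2], [], [], [], [2, 1], [2, 1], [2], [2], [], [1], [1], [], [], [], [3], [1], [3, 0, 2, 1], [3, 0, 2, 1],
    [3], [3], [3], [], []]
  rank := [0, 0, 0, 1, 0, 1, 0, 1, 0, 7, 6, 5, 4, 0, 0, 1, 2, 3, 3, 2, 1, 0, 1, 5, 4, 3, 0, 1, 2, 3, 0, 1, 2, 3, 0,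
    7, 6, 3, 2, 0, 2, 0]
  just := [0, 0, 0, 3, 0, 5, 0, 1, 0, 8, 4, 9, 10, 0, 0, 1, 7, 11, 12, 13, 2, 0, 3, 9, 10, 14, 0, 2, 7, 11, 0, 5, 6,
    14, 0, 8, 4, 12, 13, 0, 6, 0]
  gA := 13
  gB := 26
  fin := 0
  sid := [0, 1, 2, 3, 4, 5, 6, 7, 1, 0, 8, 4, 9, 10, 2, 1, 7, 11, 4, 12, 13, 2, 3, 4, 9, 10, 14, 13, 7, 11, 4, 5, 6,
    14, 10, 0, 8, 4, 12, 13, 14, 6]
  off := [(0, 0), (0, 0), (0, 0), (0, 0), (0, 0), (0, 0), (0, 0), (0, 0), (0, 0), (0, 0), (0, 0), (1, -1), (0, 0),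
    (0, 0), (0, 0), (0, 0), (0, 0), (0, 0), (1, 0), (0, 0), (0, 0), (0, 0), (0, 0), (0, 0), (-1, 1), (-1, 1), (0, 0),
    (0, 0), (-1, 0), (-1, 0), (0, 0), (0, 0), (0, 0), (0, -1), (-1, 0), (0, 0), (0, 0), (1, -1), (0, -1), (0, -1),
    (0, -1), (0, 0)]

/-- glued arcs and equations -/
def tord7a_85 : TorT :=
  ⟨[(0, 1, true), (0, 2, false), (1, 3, false), (2, 4, false), (3, 5, false), (4, 5, true), (6, 6, false)],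
    [([0, 0, 0, 0, 0, 3, 0], 2), ([0, 0, 0, 0, 1, 0, 2], 2), ([0, 0, 0, 1, 0, 1, 0], 2), ([0, 0, 3, 0, 3, 0, 0], 2),
    ([0, 1, 0, 1, 0, 0, 0], 2), ([0, 3, 0, 0, 0, 0, 0], 2), ([2, 0, 1, 0, 0, 0, 0], 2)]⟩

theorem tord7a_85_ok : tord7a_85.OK 7 := TT.leaf_ok (T := ttd7a_85) (by decide +kernel)

/-- the torus -/
def ttd7a_86 : TT where
  k := 8
  rf := [false, false, true, true, false, false, true, true]
  tau := [7, 14, 15, 10, 23, 32, 27, 0, 21, 22, 3, 16, 39, 20, 1, 2, 11, 40, 47, 38, 13, 8, 9, 4, 33, 54, 31, 6, 43,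
    44, 53, 26, 5, 24, 55, 50, 51, 46, 19, 12, 17, 48, 49, 28, 29, 52, 37, 18, 41, 42, 35, 36, 45, 30, 25, 34]
  par := [0, 0, 1, 4, 5, 12, 18, 25]
  stars := [[0, 21, 8], [1, 7, 14], [2, 15], [3, 16, 11], [4, 10, 23], [5, 24, 33], [6, 32, 27], [9, 22], [12, 17,
    40], [13, 39, 20], [18, 48, 41], [19, 38, 47], [25, 55, 34], [26, 31, 54], [28, 49, 43], [29, 44], [30, 45, 53],
    [35, 42, 50], [36, 51], [37, 52, 46]]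
  word := [[], [], [], [3], [], [], [1, 2, 0], [], [2], [2], [2], [2], [], [], [], [], [3], [3], [], [], [], [3],
    [3], [], [], [], [1, 3, 0], [1, 3, 0], [1, 2], [1, 2], [1, 2, 0], [1, 2, 0], [], [], [], [0], [0], [], [], [],
    [2], [2], [3, 0], [3, 0], [3, 0], [0], [], [], [3], [1, 2], [1], [1], [1], [1, 3, 0], [], []]
  rank := [0, 0, 1, 3, 0, 0, 7, 0, 5, 4, 3, 2, 0, 1, 0, 1, 2, 1, 0, 2, 1, 5, 4, 0, 1, 0, 6, 7, 3, 4, 5, 6, 0, 1, 2,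
    0, 1, 3, 2, 0, 1, 0, 1, 3, 4, 4, 3, 0, 0, 1, 0, 1, 4, 5, 0, 2]
  just := [0, 0, 2, 3, 0, 0, 6, 0, 7, 4, 3, 8, 0, 1, 0, 2, 8, 10, 0, 9, 1, 7, 4, 0, 5, 0, 13, 6, 14, 15, 16, 13, 0,
    5, 12, 0, 18, 11, 9, 0, 10, 0, 17, 14, 15, 19, 11, 0, 0, 17, 0, 18, 19, 16, 0, 12]
  gA := 35
  gB := 41
  fin := 0
  sid := [0, 1, 2, 3, 4, 5, 6, 1, 0, 7, 4, 3, 8, 9, 1, 2, 3, 8, 10, 11, 9, 0, 7, 4, 5, 12, 13, 6, 14, 15, 16, 13, 6,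
    5, 12, 17, 18, 19, 11, 9, 8, 10, 17, 14, 15, 16, 19, 11, 10, 14, 17, 18, 19, 16, 13, 12]
  off := [(0, 0), (0, 0), (0, 0), (0, 0), (0, 0), (0, 0), (0, 0), (0, 0), (0, 0), (0, 0), (0, 1), (0, 1), (0, 0), (0,
    0), (0, 0), (0, 0), (0, 0), (0, -1), (0, 0), (0, 0), (0, 0), (0, -1), (0, -1), (0, 0), (0, 0), (0, 0), (0, 0),
    (0, -1), (0, 0), (0, 0), (0, 0), (0, 1), (0, 0), (0, 0), (0, 0), (0, 0), (0, 0), (0, 0), (0, 0), (0, 0), (0, 0),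
    (0, 1), (0, -1), (1, -1), (1, -1), (1, -1), (0, 0), (0, 0), (0, 0), (0, 0), (-1, 0), (-1, 0), (-1, 0), (0, -1),
    (0, 0), (0, 0)]

/-- glued arcs and equations -/
def tord7a_86 : TorT :=
  ⟨[(0, 0, true), (0, 1, false), (1, 2, false), (2, 4, false), (3, 3, true), (3, 5, false), (4, 5, true), (6, 6,
    false)],
    [([0, 0, 0, 0, 1, 0, 2], 2), ([0, 0, 0, 1, 0, 2, 0], 2), ([0, 0, 1, 1, 1, 0, 0], 2), ([0, 1, 1, 0, 0, 0, 0], 2),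
    ([2, 1, 0, 0, 0, 0, 0], 2)]⟩

theorem tord7a_86_ok : tord7a_86.OK 7 := TT.leaf_ok (T := ttd7a_86) (by decide +kernel)

/-- the torus -/
def ttd7a_87 : TT where
  k := 8
  rf := [false, false, false, false, true, true, true, true]
  tau := [9, 8, 7, 18, 23, 22, 34, 2, 1, 0, 25, 16, 15, 41, 40, 12, 11, 24, 3, 35, 48, 33, 5, 4, 17, 10, 28, 55, 26,
    54, 53, 38, 45, 21, 6, 19, 47, 46, 31, 52, 14, 13, 51, 50, 49, 32, 37, 36, 20, 44, 43, 42, 39, 30, 29, 27]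
  par := [0, 0, 3, 4, 6, 13, 20, 27]
  stars := [[0, 28, 26, 10], [1, 9], [2, 8], [3, 7, 35, 19], [4, 18, 24], [5, 23], [6, 22, 34], [11, 25, 17], [12,
    16], [13, 15, 41], [14, 42, 52, 40], [20, 36, 48], [21, 49, 45, 33], [27, 29, 55], [30, 54], [31, 39, 53], [32,
    46, 38], [37, 47], [43, 51], [44, 50]]
  word := [[], [], [], [], [], [], [], [], [], [], [0, 3], [0, 3], [0, 3], [], [2, 1], [2, 1], [2, 1], [], [], [],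
    [], [], [], [], [], [2, 1], [1, 2], [], [3, 0], [3, 0], [3, 0], [3], [3], [], [], [], [], [], [2], [0], [0, 3],
    [], [2], [2], [2], [2], [], [], [], [3], [3], [3], [1], [1, 2], [1, 2], []]
  rank := [0, 1, 2, 0, 0, 1, 0, 2, 1, 0, 6, 5, 4, 0, 3, 4, 5, 1, 0, 3, 0, 2, 1, 0, 1, 6, 9, 0, 9, 8, 7, 6, 3, 2, 0,
    3, 4, 5, 6, 0, 3, 0, 2, 1, 0, 3, 5, 4, 0, 0, 1, 2, 0, 7, 8, 0]
  just := [0, 1, 2, 0, 0, 5, 0, 2, 1, 0, 7, 8, 9, 0, 10, 9, 8, 4, 0, 3, 0, 6, 5, 0, 4, 7, 13, 0, 13, 14, 15, 16, 12,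
    6, 0, 3, 11, 17, 16, 0, 10, 0, 18, 19, 0, 12, 17, 11, 0, 0, 19, 18, 0, 15, 14, 0]
  gA := 39
  gB := 44
  fin := 0
  sid := [0, 1, 2, 3, 4, 5, 6, 3, 2, 1, 0, 7, 8, 9, 10, 9, 8, 7, 4, 3, 11, 12, 6, 5, 4, 7, 0, 13, 0, 13, 14, 15, 16,
    12, 6, 3, 11, 17, 16, 15, 10, 9, 10, 18, 19, 12, 16, 17, 11, 12, 19, 18, 10, 15, 14, 13]
  off := [(0, 0), (0, 0), (0, 0), (0, 0), (0, 0), (0, 0), (0, 0), (0, 0), (0, 0), (0, 0), (0, 0), (0, 0), (0, 0), (0,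
    0), (0, 0), (-1, 1), (-1, 1), (-1, 1), (0, 0), (0, 0), (0, 0), (0, 0), (0, 0), (0, 0), (0, 0), (-1, 1), (-1, 1),
    (0, 0), (0, 0), (1, -1), (0, 0), (0, 0), (0, 0), (0, 0), (0, 0), (0, 0), (0, 0), (0, 0), (0, 1), (0, 1), (1, -1),
    (0, 0), (0, 0), (0, 0), (0, 0), (0, 1), (0, 1), (0, 0), (0, 0), (0, 0), (0, -1), (0, -1), (0, -1), (-1, 1), (-1,
    1), (0, 0)]

/-- glued arcs and equations -/
def tord7a_87 : TorT :=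
  ⟨[(0, 2, true), (0, 5, false), (1, 1, true), (1, 5, true), (2, 4, true), (3, 3, true), (3, 4, true), (6, 6, false)],
    [([0, 0, 0, 1, 2, 0, 0], 2), ([0, 0, 1, 0, 0, 1, 0], 2), ([0, 1, 0, 0, 0, 0, 2], 2), ([0, 1, 1, 0, 0, 0, 0], 2),
    ([2, 0, 0, 1, 0, 1, 0], 2)]⟩

theorem tord7a_87_ok : tord7a_87.OK 7 := TT.leaf_ok (T := ttd7a_87) (by decide +kernel)

/-- the torus -/
def ttd7a_88 : TT where
  k := 4
  rf := [false, false, false, false]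
  tau := [9, 8, 7, 19, 22, 21, 13, 2, 1, 0, 26, 15, 14, 6, 12, 11, 25, 24, 23, 3, 27, 5, 4, 18, 17, 16, 10, 20]
  par := [0, 0, 3, 4]
  stars := [[0, 13, 14, 27, 10], [1, 9], [2, 8], [3, 7, 6, 21, 20], [4, 19, 23], [5, 22], [11, 26, 16], [12, 15],
    [17, 25], [18, 24]]
  word := [[], [], [], [], [], [], [3], [], [], [], [0], [0], [0], [2], [1], [1], [], [], [], [], [2], [], [], [],
    [], [], [1], [3]]
  rank := [0, 1, 2, 0, 0, 1, 3, 2, 1, 0, 4, 0, 1, 3, 1, 0, 3, 2, 1, 0, 0, 1, 0, 1, 2, 3, 4, 0]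
  just := [0, 1, 2, 0, 0, 5, 3, 2, 1, 0, 6, 0, 7, 3, 7, 0, 8, 9, 4, 0, 0, 5, 0, 4, 9, 8, 6, 0]
  gA := 11
  gB := 20
  fin := 0
  sid := [0, 1, 2, 3, 4, 5, 3, 3, 2, 1, 0, 6, 7, 0, 0, 7, 6, 8, 9, 4, 3, 3, 5, 4, 9, 8, 6, 0]
  off := [(0, 0), (0, 0), (0, 0), (0, 0), (0, 0), (0, 0), (0, -1), (0, 0), (0, 0), (0, 0), (0, 0), (0, 0), (0, 0),
    (0, 1), (-1, 1), (-1, 0), (-1, 0), (0, 0), (0, 0), (0, 0), (0, 0), (0, -1), (0, 0), (0, 0), (0, 0), (0, 0), (-1,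
    0), (-1, 0)]

/-- glued arcs and equations -/
def tord7a_88 : TorT :=
  ⟨[(0, 2, true), (0, 5, true), (1, 1, true), (1, 4, true), (2, 4, true), (3, 3, true), (3, 5, true), (6, 6, true)],
    [([0, 0, 0, 1, 1, 0, 0], 2), ([0, 0, 1, 0, 1, 1, 0], 2), ([0, 1, 0, 0, 0, 1, 0], 2), ([0, 1, 1, 0, 0, 0, 0], 2),
    ([2, 0, 0, 1, 0, 0, 2], 2)]⟩

theorem tord7a_88_ok : tord7a_88.OK 7 := TT.leaf_ok (T := ttd7a_88) (by decide +kernel)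

/-- the torus -/
def ttd7a_89 : TT where
  k := 8
  rf := [false, false, true, true, false, true, true, false]
  tau := [7, 14, 15, 26, 33, 24, 41, 0, 35, 36, 47, 54, 45, 20, 1, 2, 39, 38, 37, 46, 13, 42, 49, 50, 5, 40, 3, 34,
    43, 44, 53, 52, 51, 4, 27, 8, 9, 18, 17, 16, 25, 6, 21, 28, 29, 12, 19, 10, 55, 22, 23, 32, 31, 30, 11, 48]
  par := [0, 0, 1, 3, 4, 6, 10, 11]
  stars := [[0, 35, 8], [1, 7, 14], [2, 15], [3, 16, 40, 26], [4, 27, 34], [5, 33, 51, 24], [6, 25, 41], [9, 36],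
    [10, 37, 19, 47], [11, 48, 55], [12, 54, 30, 45], [13, 46, 20], [17, 39], [18, 38], [21, 43, 28], [22, 49, 42],
    [23, 50], [29, 44], [31, 53], [32, 52]]
  word := [[], [], [], [], [], [2, 1], [], [], [1, 2, 0, 3], [1, 2, 0, 3], [], [], [3, 0], [], [], [], [0, 3], [0,
    3], [0, 3], [3, 0], [], [0], [0], [0], [0, 3], [0, 3], [], [], [0], [0], [2], [2], [2], [], [], [2, 1, 3, 0], [2,
    1, 3, 0], [2, 1], [2, 1], [2, 1], [2, 1], [], [1], [1], [1], [1, 2], [1, 2], [], [], [1], [1], [3], [3], [3], [],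
    []]
  rank := [0, 0, 1, 0, 0, 2, 0, 0, 8, 7, 0, 0, 5, 1, 0, 1, 4, 5, 6, 6, 1, 2, 0, 1, 2, 3, 0, 1, 3, 4, 2, 1, 0, 0, 1,
    8, 7, 6, 5, 4, 3, 0, 2, 3, 4, 5, 6, 0, 1, 0, 1, 0, 1, 2, 0, 1]
  just := [0, 0, 2, 0, 0, 5, 0, 0, 7, 8, 0, 0, 10, 1, 0, 2, 3, 12, 13, 11, 1, 15, 0, 16, 5, 6, 0, 4, 14, 17, 18, 19,
    0, 0, 4, 7, 8, 13, 12, 3, 6, 0, 15, 14, 17, 10, 11, 0, 9, 0, 16, 0, 19, 18, 0, 9]
  gA := 22
  gB := 32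
  fin := 0
  sid := [0, 1, 2, 3, 4, 5, 6, 1, 0, 7, 8, 9, 10, 11, 1, 2, 3, 12, 13, 8, 11, 14, 15, 16, 5, 6, 3, 4, 14, 17, 10, 18,
    19, 5, 4, 0, 7, 8, 13, 12, 3, 6, 15, 14, 17, 10, 11, 8, 9, 15, 16, 5, 19, 18, 10, 9]
  off := [(0, 0), (0, 0), (0, 0), (0, 0), (0, 0), (0, 0), (0, 0), (0, 0), (0, 0), (0, 0), (0, 0), (0, 0), (0, 0), (0,
    0), (0, 0), (0, 0), (0, 0), (0, 0), (0, 0), (1, -1), (0, 0), (0, 0), (0, 0), (0, 0), (1, -1), (1, -1), (0, 0),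
    (0, 0), (0, 0), (0, 0), (0, 1), (0, 0), (0, 0), (0, 0), (0, 0), (0, 0), (0, 0), (0, 0), (-1, 1), (-1, 1), (-1,
    1), (0, 0), (-1, 0), (-1, 0), (-1, 0), (-1, 1), (-1, 1), (0, 0), (0, 0), (-1, 0), (-1, 0), (0, -1), (0, -1), (0,
    -1), (0, 0), (0, 0)]

/-- glued arcs and equations -/
def tord7a_89 : TorT :=
  ⟨[(0, 0, true), (0, 1, false), (1, 2, false), (2, 4, true), (3, 3, true), (3, 5, false), (4, 5, true), (6, 6,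
    false)],
    [([0, 0, 0, 0, 1, 0, 2], 2), ([0, 0, 0, 1, 1, 0, 0], 2), ([0, 0, 1, 1, 0, 2, 0], 2), ([0, 1, 1, 0, 0, 0, 0], 2),
    ([2, 1, 0, 0, 0, 0, 0], 2)]⟩

theorem tord7a_89_ok : tord7a_89.OK 7 := TT.leaf_ok (T := ttd7a_89) (by decide +kernel)

end Pool.Agent.Lib_MP_fa6e45
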