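import Pool.Agent.Lib_MP_fa6e45.CT5

/-!
MP_fa6e45_co, stage 9: straight-side patterns with `7` sides, tables of tori (generated by a program).
-/

namespace Pool.Agent.Lib_MP_fa6e45

/-- the torus -/
def ttd7a_96 : TT where
  k := 4
  rf := [false, false, false, false]
  tau := [10, 9, 16, 22, 18, 7, 11, 5, 17, 1, 0, 6, 26, 27, 24, 23, 2, 8, 4, 21, 25, 19, 3, 15, 14, 20, 12, 13]
  par := [0, 0, 2, 3]
  stars := [[0, 11], [1, 10], [2, 9, 17], [3, 16, 23], [4, 22, 19], [5, 18, 8], [6, 7, 27, 12], [13, 26, 20, 21],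
    [14, 25], [15, 24]]
  word := [[], [], [], [], [3], [3], [3, 0, 2, 1], [2], [], [], [], [0, 3, 1, 2], [0, 3], [0], [], [], [], [], [2],
    [2], [], [3], [], [], [], [], [2, 1], [1]]
  rank := [0, 1, 0, 0, 1, 3, 5, 3, 2, 1, 0, 5, 4, 0, 2, 1, 0, 2, 1, 0, 3, 0, 0, 1, 2, 3, 4, 0]
  just := [0, 1, 0, 0, 4, 5, 6, 5, 2, 1, 0, 6, 7, 0, 9, 3, 0, 2, 4, 0, 8, 0, 0, 3, 9, 8, 7, 0]
  gA := 13
  gB := 19
  fin := 0
  sid := [0, 1, 2, 3, 4, 5, 6, 6, 5, 2, 1, 0, 6, 7, 8, 9, 3, 2, 5, 4, 7, 7, 4, 3, 9, 8, 7, 6]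
  off := [(0, 0), (0, 0), (0, 0), (0, 0), (0, 0), (0, 0), (0, 0), (0, 1), (0, 1), (0, 0), (0, 0), (0, 0), (0, 0), (0,
    0), (0, 0), (0, 0), (0, 0), (0, 0), (0, 1), (0, 1), (-1, 1), (-1, 0), (0, 0), (0, 0), (0, 0), (0, 0), (-1, 1),
    (-1, 1)]

/-- glued arcs and equations -/
def tord7a_96 : TorT :=
  ⟨[(0, 3, true), (0, 5, true), (1, 2, true), (1, 3, true), (2, 2, true), (4, 4, true), (4, 6, true), (5, 5, true),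
    (6, 6, true)],
    [([0, 0, 2, 1, 0, 0, 0], 2), ([0, 1, 0, 0, 1, 1, 0], 2), ([0, 1, 0, 1, 0, 0, 0], 2), ([1, 0, 0, 0, 0, 1, 2], 2),
    ([1, 0, 0, 0, 1, 0, 0], 2)]⟩

theorem tord7a_96_ok : tord7a_96.OK 7 := TT.leaf_ok (T := ttd7a_96) (by decide +kernel)

/-- the torus -/
def ttd7a_97 : TT where
  k := 4
  rf := [false, false, false, false]
  tau := [7, 5, 15, 14, 20, 1, 13, 0, 12, 22, 21, 27, 8, 6, 3, 2, 23, 26, 25, 24, 4, 10, 9, 16, 19, 18, 17, 11]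
  par := [0, 0, 2, 9]
  stars := [[0, 13, 8], [1, 7, 6], [2, 5, 20, 24, 16], [3, 15], [4, 14], [9, 12, 27, 17, 23], [10, 22], [11, 21],
    [18, 26], [19, 25]]
  word := [[], [0, 3], [], [], [], [2, 1], [2, 1], [], [1, 2], [], [], [], [3, 0], [0, 3], [], [], [0], [2], [2],
    [2], [], [], [], [1], [3], [3], [3], []]
  rank := [0, 3, 0, 1, 2, 3, 4, 0, 3, 0, 1, 2, 3, 4, 1, 0, 0, 1, 0, 1, 2, 1, 0, 0, 1, 0, 1, 2]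
  just := [0, 2, 0, 3, 4, 2, 1, 0, 5, 0, 6, 7, 5, 1, 3, 0, 0, 8, 0, 9, 4, 6, 0, 0, 9, 0, 8, 7]
  gA := 16
  gB := 18
  fin := 0
  sid := [0, 1, 2, 3, 4, 2, 1, 1, 0, 5, 6, 7, 5, 0, 4, 3, 2, 5, 8, 9, 2, 7, 6, 5, 2, 9, 8, 5]
  off := [(0, 0), (0, 0), (0, 0), (0, 0), (0, 0), (-1, 1), (-1, 1), (0, 0), (0, 0), (0, 0), (0, 0), (0, 0), (1, -1),
    (1, -1), (0, 0), (0, 0), (0, 0), (1, 0), (0, 0), (0, 0), (-1, 1), (0, 0), (0, 0), (0, 0), (-1, 0), (0, -1), (0,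
    -1), (1, -1)]

/-- glued arcs and equations -/
def tord7a_97 : TorT :=
  ⟨[(0, 0, true), (0, 3, true), (1, 2, true), (1, 5, true), (2, 2, true), (3, 5, true), (4, 4, true), (4, 6, true),
    (6, 6, true)],
    [([0, 0, 0, 0, 1, 1, 0], 2), ([0, 0, 2, 1, 0, 1, 1], 2), ([0, 1, 0, 1, 0, 0, 0], 2), ([1, 0, 0, 0, 1, 0, 0], 2),
    ([1, 1, 0, 0, 0, 0, 1], 2)]⟩

theorem tord7a_97_ok : tord7a_97.OK 7 := TT.leaf_ok (T := ttd7a_97) (by decide +kernel)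

/-- the torus -/
def ttd7a_98 : TT where
  k := 4
  rf := [false, false, false, false]
  tau := [9, 15, 22, 21, 27, 19, 20, 17, 16, 0, 26, 25, 24, 18, 23, 1, 8, 7, 13, 5, 6, 3, 2, 14, 12, 11, 10, 4]
  par := [0, 0, 1, 2]
  stars := [[0, 20, 5, 27, 10], [1, 9, 16], [2, 15, 23], [3, 22], [4, 21], [6, 19, 13, 24, 14], [7, 18], [8, 17],
    [11, 26], [12, 25]]
  word := [[], [], [], [], [], [0, 3], [0], [], [], [], [2], [2], [2], [], [], [], [], [], [], [2, 1], [1], [], [],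
    [], [3], [3], [3], []]
  rank := [0, 0, 0, 1, 2, 4, 0, 2, 1, 0, 1, 0, 1, 3, 1, 0, 1, 2, 3, 4, 0, 1, 0, 1, 1, 0, 1, 2]
  just := [0, 0, 0, 3, 4, 5, 0, 7, 1, 0, 8, 0, 9, 6, 2, 0, 1, 7, 6, 5, 0, 3, 0, 2, 9, 0, 8, 4]
  gA := 6
  gB := 11
  fin := 0
  sid := [0, 1, 2, 3, 4, 0, 5, 6, 7, 1, 0, 8, 9, 5, 5, 2, 1, 7, 6, 5, 0, 4, 3, 2, 5, 9, 8, 0]
  off := [(0, 0), (0, 0), (0, 0), (0, 0), (0, 0), (0, -1), (0, 0), (0, 0), (0, 0), (0, 0), (0, 0), (0, 0), (0, 0),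
    (-1, 1), (-1, 0), (0, 0), (0, 0), (0, 0), (0, 0), (-1, 1), (-1, 0), (0, 0), (0, 0), (0, 0), (-1, 0), (0, -1), (0,
    -1), (0, -1)]

/-- glued arcs and equations -/
def tord7a_98 : TorT :=
  ⟨[(0, 2, true), (0, 3, true), (1, 1, true), (1, 2, true), (3, 5, true), (4, 4, true), (4, 6, true), (5, 5, true),
    (6, 6, true)],
    [([0, 0, 0, 0, 1, 1, 0], 2), ([0, 1, 0, 1, 0, 0, 0], 2), ([0, 1, 2, 0, 0, 0, 0], 2), ([1, 0, 0, 0, 1, 0, 0], 2),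
    ([1, 0, 0, 1, 0, 1, 2], 2)]⟩

theorem tord7a_98_ok : tord7a_98.OK 7 := TT.leaf_ok (T := ttd7a_98) (by decide +kernel)

/-- the torus -/
def ttd7a_99 : TT where
  k := 8
  rf := [false, false, false, false, true, true, true, true]
  tau := [9, 15, 22, 21, 27, 19, 32, 17, 16, 0, 33, 41, 31, 18, 23, 1, 8, 7, 13, 5, 46, 3, 2, 14, 47, 55, 45, 4, 52,
    51, 35, 12, 6, 10, 53, 30, 50, 43, 42, 48, 54, 11, 38, 37, 49, 26, 20, 24, 39, 44, 36, 29, 28, 34, 40, 25]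
  par := [0, 0, 1, 2, 6, 11, 20, 25]
  stars := [[0, 33, 10], [1, 9, 16], [2, 15, 23], [3, 22], [4, 21], [5, 27, 46, 20], [6, 19, 13, 32], [7, 18], [8,
    17], [11, 34, 54, 41], [12, 35, 31], [14, 47, 24], [25, 48, 40, 55], [26, 49, 45], [28, 53], [29, 52], [30, 36,
    51], [37, 44, 50], [38, 43], [39, 42]]
  word := [[], [], [], [], [], [0], [], [], [], [], [2, 0, 3, 1], [], [1], [], [], [], [], [], [], [1], [], [], [],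
    [], [], [], [0], [], [0, 2, 1], [0, 2, 1], [0], [0], [], [0, 2, 1, 3], [0, 2, 1], [1], [2, 1], [2], [2], [2],
    [2], [], [3], [3], [1], [1], [], [], [3], [0], [0, 3], [0, 3, 1], [0, 3, 1], [0, 3, 1], [3], []]
  rank := [0, 0, 0, 1, 2, 3, 0, 2, 1, 0, 9, 0, 4, 3, 1, 0, 1, 2, 3, 3, 0, 1, 0, 1, 2, 0, 0, 2, 7, 6, 5, 4, 0, 9, 8,
    5, 2, 0, 1, 2, 3, 0, 1, 0, 1, 0, 0, 2, 2, 1, 2, 6, 7, 8, 3, 0]
  just := [0, 0, 0, 3, 4, 5, 0, 8, 1, 0, 9, 0, 6, 7, 2, 0, 1, 8, 7, 5, 0, 3, 0, 2, 11, 0, 0, 4, 15, 16, 10, 6, 0, 9,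
    14, 10, 17, 0, 18, 19, 12, 0, 18, 0, 13, 0, 0, 11, 19, 13, 17, 16, 15, 14, 12, 0]
  gA := 26
  gB := 37
  fin := 0
  sid := [0, 1, 2, 3, 4, 5, 6, 7, 8, 1, 0, 9, 10, 6, 11, 2, 1, 8, 7, 6, 5, 4, 3, 2, 11, 12, 13, 5, 14, 15, 16, 10, 6,
    0, 9, 10, 16, 17, 18, 19, 12, 9, 19, 18, 17, 13, 5, 11, 12, 13, 17, 16, 15, 14, 9, 12]
  off := [(0, 0), (0, 0), (0, 0), (0, 0), (0, 0), (0, 0), (0, 0), (0, 0), (0, 0), (0, 0), (0, 0), (0, 0), (0, 0),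
    (-1, 0), (0, 0), (0, 0), (0, 0), (0, 0), (0, 0), (-1, 0), (-1, 0), (0, 0), (0, 0), (0, 0), (0, 0), (0, 0), (0,
    0), (0, 0), (0, 0), (0, 0), (0, 0), (1, 0), (0, 0), (0, 0), (0, 0), (0, 0), (-1, 0), (0, 0), (0, 0), (0, 0), (0,
    1), (0, 0), (0, -1), (0, -1), (0, -1), (-1, 0), (-1, 0), (0, 0), (0, 0), (0, 0), (1, -1), (0, -1), (0, -1), (0,
    -1), (0, -1), (0, 0)]

/-- glued arcs and equations -/
def tord7a_99 : TorT :=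
  ⟨[(0, 2, true), (0, 3, true), (1, 1, true), (1, 2, true), (3, 5, false), (4, 6, false), (4, 6, true), (5, 5, true)],
    [([0, 0, 0, 0, 1, 1, 2], 2), ([0, 1, 0, 1, 0, 0, 0], 2), ([0, 1, 2, 0, 0, 0, 0], 2), ([1, 0, 0, 0, 1, 0, 0], 2),
    ([1, 0, 0, 1, 0, 1, 0], 2)]⟩

theorem tord7a_99_ok : tord7a_99.OK 7 := TT.leaf_ok (T := ttd7a_99) (by decide +kernel)

/-- the torus -/
def ttd7a_100 : TT where
  k := 4
  rf := [false, false, false, false]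
  tau := [7, 5, 19, 14, 20, 1, 13, 0, 12, 26, 21, 27, 8, 6, 3, 24, 23, 22, 25, 2, 4, 10, 17, 16, 15, 18, 9, 11]
  par := [0, 0, 2, 9]
  stars := [[0, 13, 8], [1, 7, 6], [2, 5, 20], [3, 19, 25, 15], [4, 14], [9, 12, 27], [10, 26, 18, 22], [11, 21],
    [16, 24], [17, 23]]
  word := [[], [0, 3], [], [2, 1], [2, 1], [2, 1], [2, 1], [], [1, 2], [], [3, 0], [3, 0], [3, 0], [0, 3], [0, 3],
    [0], [0], [0], [2], [], [0, 3], [1, 2], [1], [1], [1], [3], [], [1, 2]]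
  rank := [0, 4, 0, 2, 3, 4, 5, 0, 4, 0, 2, 3, 4, 5, 2, 1, 0, 1, 0, 0, 3, 2, 1, 0, 1, 0, 0, 3]
  just := [0, 2, 0, 3, 4, 2, 1, 0, 5, 0, 6, 7, 5, 1, 3, 8, 0, 9, 0, 0, 4, 6, 9, 0, 8, 0, 0, 7]
  gA := 16
  gB := 18
  fin := 0
  sid := [0, 1, 2, 3, 4, 2, 1, 1, 0, 5, 6, 7, 5, 0, 4, 3, 8, 9, 6, 3, 2, 7, 6, 9, 8, 3, 6, 5]
  off := [(0, 0), (0, 0), (0, 0), (0, 0), (0, 0), (-1, 1), (-1, 1), (0, 0), (0, 0), (0, 0), (0, 0), (0, 0), (1, -1),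
    (1, -1), (1, -1), (1, -1), (0, 0), (0, 0), (0, 1), (0, 0), (0, 0), (-1, 1), (-1, 1), (-1, 0), (-1, 0), (0, -1),
    (0, 0), (0, 0)]

/-- glued arcs and equations -/
def tord7a_100 : TorT :=
  ⟨[(0, 0, true), (0, 3, true), (1, 3, true), (1, 5, true), (2, 2, true), (2, 5, true), (4, 4, true), (4, 6, true),
    (6, 6, true)],
    [([0, 0, 1, 0, 0, 1, 1], 2), ([0, 0, 1, 1, 0, 0, 0], 2), ([0, 1, 0, 1, 1, 1, 0], 2), ([1, 0, 0, 0, 1, 0, 0], 2),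
    ([1, 1, 0, 0, 0, 0, 1], 2)]⟩

theorem tord7a_100_ok : tord7a_100.OK 7 := TT.leaf_ok (T := ttd7a_100) (by decide +kernel)

/-- the torus -/
def ttd7a_101 : TT where
  k := 8
  rf := [false, false, true, true, false, true, true, false]
  tau := [7, 19, 26, 28, 34, 23, 39, 0, 40, 47, 49, 55, 44, 18, 24, 38, 37, 36, 13, 1, 25, 42, 33, 5, 14, 20, 2, 53,
    3, 52, 51, 50, 48, 22, 4, 45, 17, 16, 15, 6, 8, 46, 21, 54, 12, 35, 41, 9, 32, 10, 31, 30, 29, 27, 43, 11]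
  par := [0, 0, 1, 2, 3, 6, 9, 10]
  stars := [[0, 40, 8], [1, 7, 19], [2, 20, 26], [3, 27, 53, 29], [4, 28], [5, 34, 23], [6, 24, 15, 39], [9, 41, 47],
    [10, 48, 32, 50], [11, 49], [12, 55, 44], [13, 45, 36, 18], [14, 25], [16, 38], [17, 37], [21, 43, 54], [22, 33,
    42], [30, 52], [31, 51], [35, 46]]
  word := [[], [], [], [], [], [0], [], [], [3, 0, 2, 1], [], [], [], [3, 1, 2], [], [], [1], [1], [1], [], [], [],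
    [1, 2], [1], [1], [], [], [], [2], [], [2], [2], [2], [2], [0], [], [0, 3, 1, 2], [0], [0], [0], [], [0, 3, 1,
    2], [0, 3, 1, 2], [3, 0], [3, 0, 2], [3, 0, 2], [3, 0, 2, 1], [3, 0, 2, 1], [], [3], [], [3], [3], [3], [3], [3,
    1, 2], []]
  rank := [0, 0, 0, 0, 1, 0, 0, 0, 8, 0, 0, 1, 5, 1, 2, 3, 4, 5, 1, 0, 1, 3, 2, 0, 2, 1, 0, 2, 0, 1, 0, 1, 2, 2, 1,
    6, 5, 4, 3, 0, 8, 7, 3, 4, 5, 6, 7, 0, 2, 0, 1, 0, 1, 2, 4, 1]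
  just := [0, 0, 0, 0, 4, 0, 0, 0, 7, 0, 0, 9, 10, 1, 12, 6, 13, 14, 1, 0, 2, 16, 5, 0, 12, 2, 0, 3, 0, 17, 0, 18, 8,
    5, 4, 11, 14, 13, 6, 0, 7, 19, 16, 15, 10, 11, 19, 0, 8, 0, 18, 0, 17, 3, 15, 9]
  gA := 5
  gB := 30
  fin := 0
  sid := [0, 1, 2, 3, 4, 5, 6, 1, 0, 7, 8, 9, 10, 11, 12, 6, 13, 14, 11, 1, 2, 15, 16, 5, 6, 12, 2, 3, 4, 3, 17, 18,
    8, 16, 5, 19, 11, 14, 13, 6, 0, 7, 16, 15, 10, 11, 19, 7, 8, 9, 8, 18, 17, 3, 15, 10]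
  off := [(0, 0), (0, 0), (0, 0), (0, 0), (0, 0), (0, 0), (0, 0), (0, 0), (0, 0), (0, 0), (0, 0), (0, 0), (0, 0), (0,
    0), (0, 0), (-1, 0), (0, 0), (0, 0), (0, 0), (0, 0), (0, 0), (0, 0), (0, 0), (-1, 0), (-1, 0), (0, 0), (0, 0),
    (0, 0), (0, 0), (0, 0), (0, 0), (0, 0), (0, 1), (1, 0), (0, 0), (0, 0), (1, 0), (1, 0), (1, 0), (0, 0), (0, 0),
    (0, 0), (1, -1), (1, -1), (1, 0), (1, 0), (0, 0), (0, 0), (0, 0), (0, 0), (0, 0), (0, -1), (0, -1), (0, -1), (0,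
    -1), (0, 0)]

/-- glued arcs and equations -/
def tord7a_101 : TorT :=
  ⟨[(0, 0, true), (0, 3, true), (1, 3, true), (1, 5, false), (2, 2, true), (2, 5, false), (4, 6, false), (4, 6,
    true)],
    [([0, 0, 1, 0, 0, 1, 1], 2), ([0, 0, 1, 1, 0, 0, 0], 2), ([0, 1, 0, 1, 1, 0, 1], 2), ([1, 0, 0, 0, 1, 0, 0], 2),
    ([1, 1, 0, 0, 0, 1, 0], 2)]⟩

theorem tord7a_101_ok : tord7a_101.OK 7 := TT.leaf_ok (T := ttd7a_101) (by decide +kernel)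

end Pool.Agent.Lib_MP_fa6e45
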