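import Pool.Agent.Lib_MP_fa6e45.CT5

/-!
MP_fa6e45_co, stage 9: straight-side patterns with `7` sides, tables of tori (generated by a program).
-/

namespace Pool.Agent.Lib_MP_fa6e45

/-- the torus -/
def ttd7a_102 : TT where
  k := 8
  rf := [false, false, false, false, true, true, true, true]
  tau := [7, 17, 9, 23, 34, 28, 25, 0, 24, 2, 16, 41, 35, 18, 47, 40, 10, 1, 13, 36, 46, 54, 33, 3, 8, 6, 29, 53, 5,
    26, 52, 43, 55, 22, 4, 12, 19, 45, 50, 48, 15, 11, 49, 31, 51, 37, 20, 14, 39, 42, 38, 44, 30, 27, 21, 32]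
  par := [0, 0, 1, 3, 4, 11, 14, 21]
  stars := [[0, 25, 8], [1, 7, 18], [2, 17, 10], [3, 9, 24], [4, 23, 34], [5, 28], [6, 29, 26], [11, 16, 41], [12,
    35], [13, 36, 19], [14, 47], [15, 48, 40], [20, 37, 46], [21, 54], [22, 55, 33], [27, 30, 53], [31, 44, 52], [32,
    49, 43], [38, 51, 45], [39, 42, 50]]
  word := [[], [], [3], [], [], [], [1, 2, 0], [], [2], [2], [2], [], [], [], [], [3], [3], [], [], [], [], [], [],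
    [], [3], [1, 3, 0], [1, 3, 0], [], [], [1, 2, 0], [1, 2, 0], [1, 2], [], [], [], [], [], [], [0], [2], [2], [],
    [3, 0], [3, 0], [0], [], [], [], [3], [1, 2], [1], [1], [1, 3, 0], [], [], []]
  rank := [0, 0, 3, 0, 0, 1, 7, 0, 4, 3, 2, 0, 1, 1, 0, 1, 2, 0, 1, 2, 1, 0, 1, 0, 4, 7, 6, 1, 1, 6, 5, 3, 2, 1, 0,
    1, 2, 3, 0, 0, 1, 0, 1, 3, 4, 3, 1, 0, 0, 1, 0, 4, 5, 1, 0, 2]
  just := [0, 0, 2, 0, 0, 5, 6, 0, 3, 2, 7, 0, 8, 1, 0, 11, 7, 0, 1, 9, 10, 0, 4, 0, 3, 6, 15, 13, 5, 15, 16, 17, 14,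
    4, 0, 8, 9, 12, 0, 0, 11, 0, 19, 17, 18, 12, 10, 0, 0, 19, 0, 18, 16, 13, 0, 14]
  gA := 38
  gB := 39
  fin := 0
  sid := [0, 1, 2, 3, 4, 5, 6, 1, 0, 3, 2, 7, 8, 9, 10, 11, 7, 2, 1, 9, 12, 13, 14, 4, 3, 0, 6, 15, 5, 6, 15, 16, 17,
    14, 4, 8, 9, 12, 18, 19, 11, 7, 19, 17, 16, 18, 12, 10, 11, 17, 19, 18, 16, 15, 13, 14]
  off := [(0, 0), (0, 0), (0, 0), (0, 0), (0, 0), (0, 0), (0, 0), (0, 0), (0, 0), (0, 1), (0, 1), (0, 0), (0, 0), (0,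
    0), (0, 0), (0, 0), (0, -1), (0, 0), (0, 0), (0, 0), (0, 0), (0, 0), (0, 0), (0, 0), (0, 0), (0, -1), (0, -1),
    (0, 0), (0, 0), (0, 0), (0, 1), (0, 0), (0, 0), (0, 0), (0, 0), (0, 0), (0, 0), (0, 0), (0, 0), (0, 0), (0, 1),
    (0, 0), (0, -1), (1, -1), (1, -1), (0, 0), (0, 0), (0, 0), (0, 0), (0, 0), (-1, 0), (-1, 0), (0, -1), (0, 0), (0,
    0), (0, 0)]

/-- glued arcs and equations -/
def tord7a_102 : TorT :=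
  ⟨[(0, 0, true), (0, 5, false), (1, 3, true), (1, 5, false), (2, 2, true), (2, 3, true), (4, 6, false), (4, 6,
    true)],
    [([0, 0, 1, 0, 1, 0, 1], 2), ([0, 0, 1, 2, 0, 0, 0], 2), ([0, 1, 0, 0, 0, 1, 1], 2), ([1, 0, 0, 0, 0, 1, 0], 2),
    ([1, 1, 0, 0, 1, 0, 0], 2)]⟩

theorem tord7a_102_ok : tord7a_102.OK 7 := TT.leaf_ok (T := ttd7a_102) (by decide +kernel)

/-- the torus -/
def ttd7a_103 : TT where
  k := 4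
  rf := [false, false, false, false]
  tau := [8, 15, 21, 17, 13, 23, 20, 16, 0, 19, 26, 25, 24, 4, 22, 1, 7, 3, 27, 9, 6, 2, 14, 5, 12, 11, 10, 18]
  par := [0, 0, 1, 2]
  stars := [[0, 20, 9], [1, 8, 16], [2, 15, 22], [3, 21, 18], [4, 17, 7], [5, 13, 24], [6, 23, 14], [10, 19, 27],
    [11, 26], [12, 25]]
  word := [[], [], [], [0], [0], [0, 2], [0, 2], [], [], [2, 0], [2], [2], [2], [1], [], [], [], [1], [1], [1, 3],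
    [3, 1], [], [], [3, 1], [3], [3], [3], [0]]
  rank := [0, 0, 0, 0, 2, 3, 4, 1, 0, 2, 1, 0, 1, 2, 1, 0, 1, 0, 1, 2, 4, 0, 1, 3, 1, 0, 1, 1]
  just := [0, 0, 0, 0, 4, 5, 6, 1, 0, 7, 8, 0, 9, 4, 2, 0, 1, 0, 3, 7, 6, 0, 2, 5, 9, 0, 8, 3]
  gA := 3
  gB := 11
  fin := 0
  sid := [0, 1, 2, 3, 4, 5, 6, 4, 1, 0, 7, 8, 9, 5, 6, 2, 1, 4, 3, 7, 0, 3, 2, 6, 5, 9, 8, 7]
  off := [(0, 0), (0, 0), (0, 0), (0, 0), (0, 0), (0, 0), (0, 0), (-1, 0), (0, 0), (0, 0), (0, 0), (0, 0), (0, 0),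
    (-1, 0), (-1, -1), (0, 0), (0, 0), (-1, 0), (-1, 0), (-1, -1), (-1, -1), (0, 0), (0, 0), (-1, -1), (-1, -1), (0,
    -1), (0, -1), (0, -1)]

/-- glued arcs and equations -/
def tord7a_103 : TorT :=
  ⟨[(0, 1, true), (0, 2, true), (1, 1, true), (2, 5, true), (3, 3, true), (3, 5, true), (4, 4, true), (4, 6, true),
    (6, 6, true)],
    [([0, 0, 0, 0, 1, 1, 0], 2), ([0, 0, 0, 1, 0, 1, 1], 2), ([0, 2, 1, 0, 0, 0, 0], 2), ([1, 0, 0, 1, 1, 0, 0], 2),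
    ([1, 0, 1, 0, 0, 0, 1], 2)]⟩

theorem tord7a_103_ok : tord7a_103.OK 7 := TT.leaf_ok (T := ttd7a_103) (by decide +kernel)

/-- the torus -/
def ttd7a_104 : TT where
  k := 4
  rf := [false, false, false, false]
  tau := [9, 8, 7, 16, 11, 22, 18, 2, 1, 0, 23, 4, 15, 25, 26, 12, 3, 24, 6, 21, 27, 19, 5, 10, 17, 13, 14, 20]
  par := [0, 0, 3, 5]
  stars := [[0, 18, 24, 10], [1, 9], [2, 8], [3, 7, 25, 17], [4, 16, 12], [5, 11, 23], [6, 22, 19], [13, 15, 26],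
    [14, 27], [20, 21]]
  word := [[], [], [], [], [1], [], [3], [], [], [], [0], [0], [0], [0, 2], [2], [1], [], [0, 2], [2], [2], [2], [3],
    [], [1], [3, 1], [3, 1], [3], [3]]
  rank := [0, 1, 2, 0, 1, 0, 3, 2, 1, 0, 2, 1, 0, 1, 0, 0, 0, 3, 3, 2, 1, 2, 0, 2, 3, 1, 0, 1]
  just := [0, 1, 2, 0, 4, 0, 6, 2, 1, 0, 5, 4, 0, 7, 0, 0, 0, 3, 6, 9, 8, 9, 0, 5, 3, 7, 0, 8]
  gA := 12
  gB := 14
  fin := 0
  sid := [0, 1, 2, 3, 4, 5, 6, 3, 2, 1, 0, 5, 4, 7, 8, 7, 4, 3, 0, 6, 9, 9, 6, 5, 0, 3, 7, 8]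
  off := [(0, 0), (0, 0), (0, 0), (0, 0), (0, 0), (0, 0), (0, 0), (0, 0), (0, 0), (0, 0), (0, 0), (1, 0), (1, 0), (0,
    0), (0, 0), (-1, 0), (0, 0), (0, 0), (0, 1), (0, 1), (0, 0), (0, -1), (0, 0), (0, 0), (-1, 0), (-1, -1), (-1,
    -1), (0, -1)]

/-- glued arcs and equations -/
def tord7a_104 : TorT :=
  ⟨[(0, 2, true), (0, 5, true), (1, 1, true), (1, 5, true), (2, 3, true), (3, 3, true), (4, 4, true), (4, 6, true),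
    (6, 6, true)],
    [([0, 0, 1, 0, 1, 1, 0], 2), ([0, 1, 0, 0, 0, 1, 1], 2), ([0, 1, 1, 0, 0, 0, 0], 2), ([1, 0, 0, 0, 0, 0, 1], 2),
    ([1, 0, 0, 2, 1, 0, 0], 2)]⟩

theorem tord7a_104_ok : tord7a_104.OK 7 := TT.leaf_ok (T := ttd7a_104) (by decide +kernel)

/-- the torus -/
def ttd7a_105 : TT where
  k := 8
  rf := [false, false, false, true, false, true, true, true]
  tau := [9, 8, 7, 16, 27, 21, 18, 2, 1, 0, 30, 41, 35, 32, 47, 26, 3, 31, 6, 22, 46, 5, 19, 45, 38, 48, 15, 4, 54,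
    40, 10, 17, 13, 36, 53, 12, 33, 52, 24, 55, 29, 11, 51, 50, 49, 23, 20, 14, 25, 44, 43, 42, 37, 34, 28, 39]
  par := [0, 0, 3, 4, 10, 11, 14, 28]
  stars := [[0, 18, 31, 10], [1, 9], [2, 8], [3, 7, 32, 17], [4, 16, 27], [5, 21], [6, 22, 19], [11, 30, 41], [12,
    35], [13, 36, 33], [14, 47], [15, 48, 26], [20, 23, 46], [24, 39, 49, 45], [25, 42, 52, 38], [28, 54], [29, 55,
    40], [34, 37, 53], [43, 51], [44, 50]]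
  word := [[], [], [], [], [], [], [2, 1, 3], [], [], [], [], [], [], [0], [], [], [], [0], [2, 0, 3], [2, 0, 3], [],
    [], [2, 1, 3], [2, 1, 3], [2, 1], [], [], [], [], [], [], [1], [1], [1], [], [], [0], [0], [0, 3], [], [], [],
    [2], [2], [2], [2, 0, 3], [], [], [], [3], [3], [3], [1], [], [], []]
  rank := [0, 1, 2, 0, 0, 1, 6, 2, 1, 0, 0, 0, 1, 3, 0, 1, 0, 4, 6, 5, 1, 1, 5, 4, 3, 2, 1, 0, 0, 1, 0, 4, 3, 2, 1,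
    1, 2, 0, 3, 2, 1, 0, 1, 0, 1, 4, 1, 0, 2, 1, 0, 1, 0, 1, 0, 2]
  just := [0, 1, 2, 0, 0, 5, 6, 2, 1, 0, 0, 0, 8, 9, 0, 4, 0, 3, 6, 12, 10, 5, 12, 13, 14, 11, 4, 0, 0, 7, 0, 3, 9,
    17, 15, 8, 17, 0, 14, 16, 7, 0, 18, 0, 19, 13, 10, 0, 11, 19, 0, 18, 0, 15, 0, 16]
  gA := 37
  gB := 43
  fin := 0
  sid := [0, 1, 2, 3, 4, 5, 6, 3, 2, 1, 0, 7, 8, 9, 10, 11, 4, 3, 0, 6, 12, 5, 6, 12, 13, 14, 11, 4, 15, 16, 7, 0, 3,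
    9, 17, 8, 9, 17, 14, 13, 16, 7, 14, 18, 19, 13, 12, 10, 11, 13, 19, 18, 14, 17, 15, 16]
  off := [(0, 0), (0, 0), (0, 0), (0, 0), (0, 0), (0, 0), (0, 0), (0, 0), (0, 0), (0, 0), (0, 0), (0, 0), (0, 0), (0,
    0), (0, 0), (0, 0), (0, 0), (0, 0), (1, 0), (1, 0), (0, 0), (0, 0), (0, 0), (-1, 0), (0, 0), (0, 0), (0, 0), (0,
    0), (0, 0), (0, 0), (0, 0), (0, 0), (-1, 0), (-1, 0), (0, 0), (0, 0), (0, 0), (1, 0), (1, -1), (1, -1), (0, 0),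
    (0, 0), (0, 0), (0, 0), (0, 0), (1, 0), (0, 0), (0, 0), (0, 0), (1, -1), (0, -1), (0, -1), (0, -1), (0, 0), (0,
    0), (0, 0)]

/-- glued arcs and equations -/
def tord7a_105 : TorT :=
  ⟨[(0, 2, true), (0, 5, false), (1, 1, true), (1, 5, false), (2, 3, true), (3, 3, true), (4, 6, false), (4, 6,
    true)],
    [([0, 0, 1, 0, 1, 0, 1], 2), ([0, 1, 0, 0, 0, 1, 1], 2), ([0, 1, 1, 0, 0, 0, 0], 2), ([1, 0, 0, 0, 0, 1, 0], 2),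
    ([1, 0, 0, 2, 1, 0, 0], 2)]⟩

theorem tord7a_105_ok : tord7a_105.OK 7 := TT.leaf_ok (T := ttd7a_105) (by decide +kernel)

/-- the torus -/
def ttd7a_106 : TT where
  k := 8
  rf := [false, false, true, false, false, true, true, true]
  tau := [10, 9, 14, 15, 13, 26, 33, 37, 38, 1, 0, 32, 27, 4, 2, 3, 36, 35, 46, 55, 39, 31, 30, 42, 43, 34, 5, 12,
    51, 52, 22, 21, 11, 6, 25, 17, 16, 7, 8, 20, 54, 47, 23, 24, 50, 49, 18, 41, 53, 45, 44, 28, 29, 48, 40, 19]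
  par := [0, 0, 2, 5, 6, 7, 18, 19]
  stars := [[0, 33, 11], [1, 10], [2, 9, 39, 14], [3, 15], [4, 16, 37, 7], [5, 13, 27], [6, 26, 34], [8, 38], [12,
    32, 21], [17, 36], [18, 47, 35], [19, 49, 46], [20, 40, 55], [22, 31], [23, 30, 53, 42], [24, 43], [25, 44, 51,
    28], [29, 52], [41, 48, 54], [45, 50]]
  word := [[], [], [], [], [3], [], [], [], [], [], [], [2, 0, 3, 1], [2], [2], [], [], [3], [3], [], [], [], [0, 3,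
    1], [0, 3, 1], [0], [0], [], [], [3], [0], [0], [0, 2, 1], [0, 2, 1], [0, 2, 1, 3], [], [], [2], [2], [], [], [],
    [], [2], [1], [1], [], [], [], [3], [3], [], [], [1], [1], [2], [], []]
  rank := [0, 1, 0, 1, 3, 0, 0, 0, 1, 1, 0, 7, 4, 3, 0, 1, 2, 1, 0, 0, 2, 6, 5, 4, 3, 1, 0, 4, 0, 1, 5, 6, 7, 0, 1,
    1, 2, 0, 1, 2, 3, 0, 4, 3, 2, 1, 0, 0, 4, 1, 2, 0, 1, 4, 3, 0]
  just := [0, 1, 0, 3, 4, 0, 0, 0, 7, 1, 0, 8, 5, 4, 0, 3, 9, 10, 0, 0, 2, 13, 14, 15, 16, 6, 0, 5, 0, 17, 14, 13, 8,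
    0, 6, 10, 9, 0, 7, 2, 12, 0, 15, 16, 19, 11, 0, 0, 18, 11, 19, 0, 17, 18, 12, 0]
  gA := 28
  gB := 41
  fin := 0
  sid := [0, 1, 2, 3, 4, 5, 6, 4, 7, 2, 1, 0, 8, 5, 2, 3, 4, 9, 10, 11, 12, 8, 13, 14, 15, 16, 6, 5, 16, 17, 14, 13,
    8, 0, 6, 10, 9, 4, 7, 2, 12, 18, 14, 15, 16, 19, 11, 10, 18, 11, 19, 16, 17, 14, 18, 12]
  off := [(0, 0), (0, 0), (0, 0), (0, 0), (0, 0), (0, 0), (0, 0), (0, 1), (0, 0), (0, 0), (0, 0), (0, 0), (0, 0), (0,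
    1), (0, 0), (0, 0), (0, 0), (0, 0), (0, 0), (0, 0), (0, 0), (0, -1), (0, 0), (0, 0), (0, 0), (0, 0), (0, 0), (0,
    0), (0, 0), (0, 0), (0, 1), (0, 1), (0, 0), (0, 0), (0, 0), (0, 1), (0, 1), (0, 1), (0, 0), (0, 0), (0, 0), (0,
    0), (-1, 0), (-1, 0), (-1, 0), (0, 0), (0, 0), (0, 0), (0, -1), (0, 0), (0, 0), (-1, 0), (-1, 0), (-1, 1), (0,
    0), (0, 0)]

/-- glued arcs and equations -/
def tord7a_106 : TorT :=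
  ⟨[(0, 2, false), (0, 3, true), (1, 2, true), (1, 3, false), (4, 4, true), (4, 6, true), (5, 5, true), (5, 6, true)],
    [([0, 0, 0, 0, 0, 1, 2], 2), ([0, 1, 0, 1, 0, 0, 0], 2), ([1, 0, 0, 0, 1, 1, 0], 2), ([1, 0, 2, 0, 1, 0, 0], 2)]⟩

theorem tord7a_106_ok : tord7a_106.OK 7 := TT.leaf_ok (T := ttd7a_106) (by decide +kernel)

/-- the torus -/
def ttd7a_107 : TT where
  k := 4
  rf := [false, false, false, false]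
  tau := [9, 8, 7, 14, 11, 27, 18, 2, 1, 0, 21, 4, 20, 25, 3, 24, 23, 22, 6, 26, 12, 10, 17, 16, 15, 13, 19, 5]
  par := [0, 0, 3, 5]
  stars := [[0, 18, 22, 10], [1, 9], [2, 8], [3, 7, 25, 15], [4, 14, 12], [5, 11, 21], [6, 27, 19], [13, 20, 26],
    [16, 24], [17, 23]]
  word := [[], [], [], [], [1], [], [3, 0], [], [], [], [0], [0], [0], [2], [], [2], [2], [2], [1, 2], [1, 2], [1],
    [1], [3], [3], [3], [3], [3, 0], []]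
  rank := [0, 1, 2, 0, 1, 0, 5, 2, 1, 0, 2, 1, 0, 3, 0, 0, 1, 2, 5, 4, 0, 2, 2, 1, 0, 3, 4, 0]
  just := [0, 1, 2, 0, 4, 0, 6, 2, 1, 0, 5, 4, 0, 3, 0, 0, 8, 9, 6, 7, 0, 5, 9, 8, 0, 3, 7, 0]
  gA := 12
  gB := 15
  fin := 0
  sid := [0, 1, 2, 3, 4, 5, 6, 3, 2, 1, 0, 5, 4, 7, 4, 3, 8, 9, 0, 6, 7, 5, 0, 9, 8, 3, 7, 6]
  off := [(0, 0), (0, 0), (0, 0), (0, 0), (0, 0), (0, 0), (0, 0), (0, 0), (0, 0), (0, 0), (0, 0), (1, 0), (1, 0), (0,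
    0), (0, 0), (0, 0), (0, 0), (0, 0), (-1, 1), (-1, 1), (-1, 0), (0, 0), (-1, 0), (0, -1), (0, -1), (0, -1), (0,
    -1), (0, 0)]

/-- glued arcs and equations -/
def tord7a_107 : TorT :=
  ⟨[(0, 2, true), (0, 3, true), (1, 1, true), (1, 3, true), (2, 2, true), (4, 4, true), (4, 6, true), (5, 5, true),
    (5, 6, true)],
    [([0, 0, 0, 0, 0, 1, 2], 2), ([0, 0, 1, 1, 0, 0, 0], 2), ([0, 1, 1, 0, 0, 0, 0], 2), ([1, 0, 0, 0, 1, 1, 0], 2),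
    ([1, 1, 0, 1, 1, 0, 0], 2)]⟩

theorem tord7a_107_ok : tord7a_107.OK 7 := TT.leaf_ok (T := ttd7a_107) (by decide +kernel)

end Pool.Agent.Lib_MP_fa6e45
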