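import Pool.Agent.Lib_MP_fa6e45.CT5

/-!
MP_fa6e45_co, stage 9: straight-side patterns with `7` sides, tables of tori (generated by a program).
-/

namespace Pool.Agent.Lib_MP_fa6e45

/-- the torus -/
def ttd7a_108 : TT where
  k := 4
  rf := [false, false, false, false]
  tau := [9, 8, 7, 10, 15, 25, 24, 2, 1, 0, 3, 22, 18, 17, 26, 4, 23, 13, 12, 21, 27, 19, 11, 16, 6, 5, 14, 20]
  par := [0, 0, 4, 5]
  stars := [[0, 24, 16, 4, 10], [1, 9], [2, 8], [3, 7, 17, 23, 11], [5, 15, 26], [6, 25], [12, 22, 19], [13, 18],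
    [14, 27], [20, 21]]
  word := [[], [], [], [0, 2, 1], [], [], [], [], [], [], [0, 3, 1], [0], [0], [0], [], [], [2], [1], [1], [], [],
    [], [1], [3], [], [], [], []]
  rank := [0, 1, 2, 5, 0, 0, 1, 2, 1, 0, 5, 4, 0, 1, 1, 0, 0, 1, 0, 3, 2, 3, 4, 0, 1, 0, 1, 2]
  just := [0, 1, 2, 3, 0, 0, 5, 2, 1, 0, 3, 6, 0, 7, 4, 0, 0, 7, 0, 9, 8, 9, 6, 0, 5, 0, 4, 8]
  gA := 12
  gB := 16
  fin := 0
  sid := [0, 1, 2, 3, 0, 4, 5, 3, 2, 1, 0, 3, 6, 7, 8, 4, 0, 3, 7, 6, 9, 9, 6, 3, 0, 5, 4, 8]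
  off := [(0, 0), (0, 0), (0, 0), (0, 0), (0, 1), (0, 0), (0, 0), (0, 0), (0, 0), (0, 0), (0, 0), (0, -1), (0, 0),
    (0, 0), (0, 0), (0, 0), (0, 1), (-1, 0), (-1, 0), (-1, 0), (0, 0), (0, 0), (-1, 0), (-1, -1), (0, 0), (0, 0), (0,
    0), (0, 0)]

/-- glued arcs and equations -/
def tord7a_108 : TorT :=
  ⟨[(0, 2, true), (0, 5, true), (1, 1, true), (1, 4, true), (2, 2, true), (3, 3, true), (3, 6, true), (4, 5, true),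
    (6, 6, true)],
    [([0, 0, 0, 0, 1, 0, 1], 2), ([0, 1, 0, 0, 0, 2, 0], 2), ([0, 1, 1, 0, 0, 0, 0], 2), ([1, 0, 0, 0, 0, 0, 1], 2),
    ([1, 0, 1, 2, 1, 0, 0], 2)]⟩

theorem tord7a_108_ok : tord7a_108.OK 7 := TT.leaf_ok (T := ttd7a_108) (by decide +kernel)

/-- the torus -/
def ttd7a_109 : TT where
  k := 8
  rf := [false, false, true, true, false, true, true, false]
  tau := [7, 18, 26, 27, 15, 32, 31, 0, 39, 47, 48, 36, 53, 52, 35, 4, 33, 34, 1, 25, 24, 44, 43, 42, 20, 19, 2, 3,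
    51, 50, 49, 6, 5, 16, 17, 14, 11, 54, 55, 8, 46, 45, 23, 22, 21, 41, 40, 9, 10, 30, 29, 28, 13, 12, 37, 38]
  par := [0, 0, 1, 2, 5, 8, 9, 12]
  stars := [[0, 31, 49, 39, 8], [1, 7, 52, 28, 18], [2, 19, 26], [3, 27], [4, 21, 45, 35, 15], [5, 16, 33], [6, 32],
    [9, 40, 47], [10, 48], [11, 42, 24, 14, 36], [12, 37, 54], [13, 53], [17, 34], [20, 25], [22, 44], [23, 43], [29,
    51], [30, 50], [38, 55], [41, 46]]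
  word := [[], [], [], [], [0], [], [], [], [], [], [], [3, 1, 2], [], [], [1, 2], [1], [1], [1], [], [], [], [2],
    [2], [2], [], [], [], [], [0], [0], [0], [], [], [0], [0], [3, 0], [3, 0, 2], [3, 0, 2], [3, 0, 2], [], [], [],
    [3], [3], [3], [], [], [], [], [1], [1], [1], [], [], [3, 1, 2], [3, 1, 2]]
  rank := [0, 0, 0, 1, 0, 0, 1, 0, 0, 0, 1, 4, 0, 1, 3, 0, 1, 2, 0, 1, 2, 1, 0, 1, 2, 1, 0, 1, 3, 4, 5, 1, 0, 1, 2,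
    3, 4, 5, 6, 0, 1, 2, 1, 0, 1, 2, 1, 0, 1, 5, 4, 3, 1, 0, 5, 6]
  just := [0, 0, 0, 3, 0, 0, 6, 0, 0, 0, 8, 9, 0, 11, 4, 0, 5, 12, 0, 2, 13, 14, 0, 15, 13, 2, 0, 3, 1, 16, 17, 6, 0,
    5, 12, 4, 9, 10, 18, 0, 7, 19, 15, 0, 14, 19, 7, 0, 8, 17, 16, 1, 11, 0, 10, 18]
  gA := 4
  gB := 22
  fin := 0
  sid := [0, 1, 2, 3, 4, 5, 6, 1, 0, 7, 8, 9, 10, 11, 9, 4, 5, 12, 1, 2, 13, 4, 14, 15, 9, 13, 2, 3, 1, 16, 17, 0, 6,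
    5, 12, 4, 9, 10, 18, 0, 7, 19, 9, 15, 14, 4, 19, 7, 8, 0, 17, 16, 1, 11, 10, 18]
  off := [(0, 0), (0, 0), (0, 0), (0, 0), (0, 0), (0, 0), (0, 0), (0, 0), (0, 0), (0, 0), (0, 0), (0, 0), (0, 0), (0,
    0), (0, 1), (-1, 0), (-1, 0), (0, 0), (0, 0), (0, 0), (0, 0), (0, 0), (0, 0), (0, 0), (0, 1), (0, 0), (0, 0), (0,
    0), (1, 0), (0, 0), (0, 0), (0, 0), (0, 0), (0, 0), (1, 0), (0, -1), (1, 0), (1, 0), (0, 0), (0, 0), (0, 0), (0,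
    0), (0, 0), (0, -1), (0, -1), (0, -1), (0, 0), (0, 0), (0, 0), (-1, 0), (-1, 0), (-1, 0), (0, 0), (0, 0), (0, 0),
    (-1, 0)]

/-- glued arcs and equations -/
def tord7a_109 : TorT :=
  ⟨[(0, 0, true), (0, 2, true), (1, 1, true), (1, 4, false), (2, 5, false), (3, 6, false), (3, 6, true), (4, 5,
    true)],
    [([0, 0, 0, 0, 1, 0, 1], 2), ([0, 0, 0, 1, 0, 0, 1], 2), ([0, 0, 1, 0, 0, 2, 0], 2), ([0, 1, 1, 0, 0, 0, 0], 2),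
    ([2, 1, 0, 1, 1, 0, 0], 2)]⟩

theorem tord7a_109_ok : tord7a_109.OK 7 := TT.leaf_ok (T := ttd7a_109) (by decide +kernel)

/-- the torus -/
def ttd7a_110 : TT where
  k := 8
  rf := [false, false, false, false, true, true, true, true]
  tau := [7, 14, 9, 27, 26, 30, 31, 0, 21, 2, 20, 19, 37, 38, 1, 39, 47, 48, 36, 11, 10, 8, 32, 54, 55, 29, 4, 3, 43,
    25, 5, 6, 22, 53, 52, 50, 18, 12, 13, 15, 46, 45, 49, 28, 51, 41, 40, 16, 17, 42, 35, 44, 34, 33, 23, 24]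
  par := [0, 0, 1, 3, 5, 12, 16, 23]
  stars := [[0, 32, 22, 8], [1, 7, 39, 15], [2, 14, 10], [3, 9, 21], [4, 27], [5, 26, 30], [6, 31], [11, 20], [12,
    19, 37], [13, 38], [16, 40, 47], [17, 48], [18, 42, 50, 36], [23, 33, 54], [24, 55], [25, 49, 43, 29], [28, 44,
    52], [34, 53], [35, 51, 45], [41, 46]]
  word := [[], [], [2, 1], [], [], [], [], [], [0, 3], [0, 3], [0, 3], [0, 3], [], [], [], [], [], [], [2, 1], [2,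
    1], [2, 1], [2, 1], [1, 2], [], [], [], [], [], [3], [], [], [], [3, 0], [3, 0], [3, 0], [0], [0, 3], [], [], [],
    [], [], [2], [2], [0], [], [], [], [], [3], [1], [1], [1, 2], [1, 2], [], []]
  rank := [0, 0, 5, 0, 1, 0, 1, 0, 6, 5, 4, 3, 0, 1, 0, 2, 0, 1, 2, 3, 4, 6, 8, 0, 1, 2, 1, 0, 3, 2, 0, 1, 8, 7, 6,
    0, 2, 0, 1, 2, 3, 4, 0, 3, 5, 4, 3, 0, 1, 0, 0, 5, 6, 7, 0, 1]
  just := [0, 0, 2, 0, 4, 0, 6, 0, 3, 2, 7, 8, 0, 9, 0, 1, 0, 11, 12, 8, 7, 3, 13, 0, 14, 5, 4, 0, 15, 5, 0, 6, 13,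
    17, 16, 0, 12, 0, 9, 1, 10, 19, 0, 15, 18, 19, 10, 0, 11, 0, 0, 18, 16, 17, 0, 14]
  gA := 35
  gB := 42
  fin := 0
  sid := [0, 1, 2, 3, 4, 5, 6, 1, 0, 3, 2, 7, 8, 9, 2, 1, 10, 11, 12, 8, 7, 3, 0, 13, 14, 15, 5, 4, 16, 15, 5, 6, 0,
    13, 17, 18, 12, 8, 9, 1, 10, 19, 12, 15, 16, 18, 19, 10, 11, 15, 12, 18, 16, 17, 13, 14]
  off := [(0, 0), (0, 0), (0, 0), (0, 0), (0, 0), (0, 0), (0, 0), (0, 0), (0, 0), (1, -1), (1, -1), (0, 0), (0, 0),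
    (0, 0), (0, 0), (0, 0), (0, 0), (0, 0), (0, 0), (-1, 1), (-1, 1), (0, 0), (-1, 1), (0, 0), (0, 0), (0, 0), (0,
    0), (0, 0), (0, 0), (0, 0), (0, 0), (0, 0), (0, 0), (1, -1), (0, 0), (0, 0), (1, -1), (0, 0), (0, 0), (0, 0), (0,
    0), (0, 0), (0, 0), (0, 1), (0, 1), (0, 0), (0, 0), (0, 0), (0, 0), (0, 0), (0, -1), (-1, 0), (-1, 1), (-1, 1),
    (0, 0), (0, 0)]

/-- glued arcs and equations -/
def tord7a_110 : TorT :=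
  ⟨[(0, 0, true), (0, 1, true), (1, 4, false), (2, 2, true), (2, 5, false), (3, 6, false), (3, 6, true), (4, 5,
    true)],
    [([0, 0, 0, 0, 1, 0, 1], 2), ([0, 0, 0, 1, 0, 0, 1], 2), ([0, 0, 1, 0, 0, 2, 0], 2), ([1, 0, 1, 1, 0, 0, 0], 2),
    ([1, 2, 0, 0, 1, 0, 0], 2)]⟩

theorem tord7a_110_ok : tord7a_110.OK 7 := TT.leaf_ok (T := ttd7a_110) (by decide +kernel)

/-- the torus -/
def ttd7a_111 : TT where
  k := 4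
  rf := [false, false, false, false]
  tau := [7, 14, 9, 27, 26, 15, 13, 0, 21, 2, 20, 19, 22, 6, 1, 5, 25, 24, 23, 11, 10, 8, 12, 18, 17, 16, 4, 3]
  par := [0, 0, 1, 3]
  stars := [[0, 13, 22, 8], [1, 7, 6, 15], [2, 14, 10], [3, 9, 21], [4, 27], [5, 26, 16], [11, 20], [12, 19, 23],
    [17, 25], [18, 24]]
  word := [[], [], [1], [], [], [3], [3], [], [0], [0], [0], [0], [0, 2], [2], [], [2], [2], [2], [2], [1], [1], [1],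
    [3, 1], [3], [3], [3], [], []]
  rank := [0, 0, 1, 0, 1, 2, 3, 0, 2, 1, 0, 1, 2, 3, 0, 2, 1, 0, 1, 1, 0, 2, 2, 1, 0, 1, 1, 0]
  just := [0, 0, 2, 0, 4, 5, 1, 0, 3, 2, 0, 6, 7, 1, 0, 5, 8, 0, 9, 6, 0, 3, 7, 9, 0, 8, 4, 0]
  gA := 10
  gB := 17
  fin := 0
  sid := [0, 1, 2, 3, 4, 5, 1, 1, 0, 3, 2, 6, 7, 0, 2, 1, 5, 8, 9, 7, 6, 3, 0, 7, 9, 8, 5, 4]
  off := [(0, 0), (0, 0), (0, 0), (0, 0), (0, 0), (0, 0), (0, -1), (0, 0), (0, 0), (1, 0), (1, 0), (0, 0), (0, 0),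
    (0, 1), (0, 0), (0, 0), (0, 1), (0, 0), (0, 0), (-1, 0), (-1, 0), (0, 0), (-1, 0), (-1, -1), (0, -1), (0, -1),
    (0, 0), (0, 0)]

/-- glued arcs and equations -/
def tord7a_111 : TorT :=
  ⟨[(0, 0, true), (0, 1, true), (1, 5, true), (2, 2, true), (2, 4, true), (3, 3, true), (3, 6, true), (4, 5, true),
    (6, 6, true)],
    [([0, 0, 0, 0, 1, 0, 1], 2), ([0, 0, 0, 1, 1, 0, 0], 2), ([0, 0, 1, 0, 0, 2, 0], 2), ([1, 0, 1, 1, 0, 0, 0], 2),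
    ([1, 2, 0, 0, 0, 0, 1], 2)]⟩

theorem tord7a_111_ok : tord7a_111.OK 7 := TT.leaf_ok (T := ttd7a_111) (by decide +kernel)

/-- the torus -/
def ttd7a_112 : TT where
  k := 4
  rf := [false, false, false, false]
  tau := [7, 5, 18, 20, 19, 1, 13, 0, 12, 25, 27, 26, 8, 6, 23, 22, 21, 24, 2, 4, 3, 16, 15, 14, 17, 9, 11, 10]
  par := [0, 0, 2, 9]
  stars := [[0, 13, 8], [1, 7, 6], [2, 5, 19], [3, 18, 24, 14], [4, 20], [9, 12, 26], [10, 25, 17, 21], [11, 27],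
    [15, 23], [16, 22]]
  word := [[], [0, 3], [], [2, 1], [2, 1], [2, 1], [2, 1], [], [1, 2], [], [3, 0], [3, 0], [3, 0], [0, 3], [0], [0],
    [0], [2], [], [0, 3], [0, 3], [1], [1], [1], [3], [], [1, 2], [1, 2]]
  rank := [0, 4, 0, 2, 3, 4, 5, 0, 4, 0, 2, 3, 4, 5, 1, 0, 1, 0, 0, 3, 2, 1, 0, 1, 0, 0, 3, 2]
  just := [0, 2, 0, 3, 4, 2, 1, 0, 5, 0, 6, 7, 5, 1, 8, 0, 9, 0, 0, 4, 3, 9, 0, 8, 0, 0, 7, 6]
  gA := 15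
  gB := 17
  fin := 0
  sid := [0, 1, 2, 3, 4, 2, 1, 1, 0, 5, 6, 7, 5, 0, 3, 8, 9, 6, 3, 2, 4, 6, 9, 8, 3, 6, 5, 7]
  off := [(0, 0), (0, 0), (0, 0), (0, 0), (0, 0), (-1, 1), (-1, 1), (0, 0), (0, 0), (0, 0), (0, 0), (0, 0), (1, -1),
    (1, -1), (1, -1), (0, 0), (0, 0), (0, 1), (0, 0), (0, 0), (1, -1), (-1, 1), (-1, 0), (-1, 0), (0, -1), (0, 0),
    (0, 0), (-1, 1)]

/-- glued arcs and equations -/
def tord7a_112 : TorT :=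
  ⟨[(0, 0, true), (0, 2, true), (1, 1, true), (1, 5, true), (2, 4, true), (3, 3, true), (3, 6, true), (4, 5, true),
    (6, 6, true)],
    [([0, 0, 0, 0, 1, 0, 1], 2), ([0, 0, 1, 0, 0, 2, 0], 2), ([0, 1, 1, 0, 0, 0, 0], 2), ([1, 0, 0, 2, 1, 0, 0], 2),
    ([1, 1, 0, 0, 0, 0, 1], 2)]⟩

theorem tord7a_112_ok : tord7a_112.OK 7 := TT.leaf_ok (T := ttd7a_112) (by decide +kernel)

/-- the torus -/
def ttd7a_113 : TT where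
  k := 8
  rf := [false, false, true, true, false, true, true, false]
  tau := [7, 18, 26, 34, 33, 23, 38, 0, 39, 47, 55, 54, 44, 17, 37, 36, 35, 13, 1, 25, 24, 42, 32, 5, 20, 19, 2, 52,
    51, 50, 49, 48, 22, 4, 3, 16, 15, 14, 6, 8, 46, 45, 21, 53, 12, 41, 40, 9, 31, 30, 29, 28, 27, 43, 11, 10]
  par := [0, 0, 1, 2, 3, 6, 9, 10]
  stars := [[0, 39, 8], [1, 7, 18], [2, 19, 26], [3, 27, 52, 28], [4, 34], [5, 33, 23], [6, 24, 14, 38], [9, 40, 47],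
    [10, 48, 31, 49], [11, 55], [12, 54, 44], [13, 45, 35, 17], [15, 37], [16, 36], [20, 25], [21, 43, 53], [22, 32,
    42], [29, 51], [30, 50], [41, 46]]
  word := [[], [], [], [], [], [0], [], [], [3, 0, 2, 1], [], [], [], [3, 1, 2], [], [1], [1], [1], [], [], [], [],
    [1, 2], [1], [1], [], [], [], [2], [2], [2], [2], [2], [0], [], [], [0], [0], [0], [], [0, 3, 1, 2], [0, 3, 1,
    2], [0, 3, 1, 2], [3, 0], [3, 0, 2], [3, 0, 2], [3, 0, 2, 1], [3, 0, 2, 1], [], [3], [3], [3], [3], [3], [3, 1,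
    2], [], []]
  rank := [0, 0, 0, 0, 1, 0, 0, 0, 8, 0, 0, 1, 5, 1, 3, 4, 5, 1, 0, 1, 2, 3, 2, 0, 2, 1, 0, 2, 1, 0, 1, 2, 2, 1, 0,
    5, 4, 3, 0, 8, 7, 6, 3, 4, 5, 6, 7, 0, 2, 1, 0, 1, 2, 4, 1, 0]
  just := [0, 0, 0, 0, 4, 0, 0, 0, 7, 0, 0, 9, 10, 1, 6, 12, 13, 1, 0, 2, 14, 16, 5, 0, 14, 2, 0, 3, 17, 0, 18, 8, 5,
    4, 0, 13, 12, 6, 0, 7, 19, 11, 16, 15, 10, 11, 19, 0, 8, 18, 0, 17, 3, 15, 9, 0]
  gA := 5
  gB := 29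
  fin := 0
  sid := [0, 1, 2, 3, 4, 5, 6, 1, 0, 7, 8, 9, 10, 11, 6, 12, 13, 11, 1, 2, 14, 15, 16, 5, 6, 14, 2, 3, 3, 17, 18, 8,
    16, 5, 4, 11, 13, 12, 6, 0, 7, 19, 16, 15, 10, 11, 19, 7, 8, 8, 18, 17, 3, 15, 10, 9]
  off := [(0, 0), (0, 0), (0, 0), (0, 0), (0, 0), (0, 0), (0, 0), (0, 0), (0, 0), (0, 0), (0, 0), (0, 0), (0, 0), (0,
    0), (-1, 0), (0, 0), (0, 0), (0, 0), (0, 0), (0, 0), (0, 0), (0, 0), (0, 0), (-1, 0), (-1, 0), (0, 0), (0, 0),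
    (0, 0), (0, 0), (0, 0), (0, 0), (0, 1), (1, 0), (0, 0), (0, 0), (1, 0), (1, 0), (1, 0), (0, 0), (0, 0), (0, 0),
    (0, 0), (1, -1), (1, -1), (1, 0), (1, 0), (0, 0), (0, 0), (0, 0), (0, 0), (0, -1), (0, -1), (0, -1), (0, -1), (0,
    0), (0, 0)]

/-- glued arcs and equations -/
def tord7a_113 : TorT :=
  ⟨[(0, 0, true), (0, 2, true), (1, 1, true), (1, 4, false), (2, 5, false), (3, 6, false), (3, 6, true), (4, 5,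
    true)],
    [([0, 0, 0, 0, 1, 0, 1], 2), ([0, 0, 1, 0, 0, 2, 0], 2), ([0, 1, 1, 0, 0, 0, 0], 2), ([1, 0, 0, 2, 0, 0, 1], 2),
    ([1, 1, 0, 0, 1, 0, 0], 2)]⟩

theorem tord7a_113_ok : tord7a_113.OK 7 := TT.leaf_ok (T := ttd7a_113) (by decide +kernel)

end Pool.Agent.Lib_MP_fa6e45
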