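import Pool.Agent.Lib_MP_fa6e45.CT5

/-!
MP_fa6e45_co, stage 9: straight-side patterns with `7` sides, tables of tori (generated by a program).
-/

namespace Pool.Agent.Lib_MP_fa6e45

/-- the torus -/
def ttd7a_114 : TT where
  k := 8
  rf := [false, false, false, true, false, true, true, true]
  tau := [9, 8, 7, 20, 11, 23, 24, 2, 1, 0, 34, 4, 37, 38, 39, 40, 47, 48, 35, 36, 3, 32, 33, 5, 6, 28, 29, 45, 25,
    26, 54, 55, 21, 22, 10, 18, 19, 12, 13, 14, 15, 52, 51, 50, 49, 27, 53, 16, 17, 44, 43, 42, 41, 46, 30, 31]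
  par := [0, 0, 3, 5, 10, 12, 16, 30]
  stars := [[0, 25, 28, 10], [1, 9], [2, 8], [3, 7, 39, 14], [4, 20, 37, 12], [5, 11, 34, 23], [6, 24], [13, 38],
    [15, 40], [16, 41, 53, 47], [17, 48], [18, 42, 52, 35], [19, 36], [21, 32, 49, 45], [22, 33], [26, 29], [27, 46,
    54, 30], [31, 55], [43, 51], [44, 50]]
  word := [[], [], [], [], [0], [], [], [], [], [], [], [1], [], [], [], [], [], [], [0], [0], [], [0], [0], [], [],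
    [0, 3, 1, 2], [0, 3, 1, 2], [0, 3], [3, 0, 2, 1], [3, 0, 2, 1], [], [], [1], [1], [], [1], [1], [], [], [], [],
    [1, 2], [2], [2], [2], [2, 1], [1, 2], [], [], [3], [3], [3], [3, 0], [3, 0], [], []]
  rank := [0, 1, 2, 0, 1, 0, 1, 2, 1, 0, 0, 1, 0, 1, 3, 4, 0, 1, 1, 0, 0, 3, 2, 0, 1, 7, 6, 4, 7, 6, 0, 1, 3, 2, 0,
    1, 0, 0, 1, 3, 4, 2, 0, 1, 2, 4, 5, 0, 1, 2, 1, 0, 2, 5, 0, 1]
  just := [0, 1, 2, 0, 4, 0, 6, 2, 1, 0, 0, 4, 0, 7, 3, 8, 0, 10, 12, 0, 0, 14, 5, 0, 6, 15, 16, 13, 15, 16, 0, 17,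
    14, 5, 0, 12, 0, 0, 7, 3, 8, 11, 0, 18, 19, 13, 9, 0, 10, 19, 18, 0, 11, 9, 0, 17]
  gA := 19
  gB := 42
  fin := 0
  sid := [0, 1, 2, 3, 4, 5, 6, 3, 2, 1, 0, 5, 4, 7, 3, 8, 9, 10, 11, 12, 4, 13, 14, 5, 6, 0, 15, 16, 0, 15, 16, 17,
    13, 14, 5, 11, 12, 4, 7, 3, 8, 9, 11, 18, 19, 13, 16, 9, 10, 13, 19, 18, 11, 9, 16, 17]
  off := [(0, 0), (0, 0), (0, 0), (0, 0), (0, 0), (0, 0), (0, 0), (0, 0), (0, 0), (0, 0), (0, 0), (-1, 0), (-1, 0),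
    (0, 0), (0, 0), (0, 0), (0, 0), (0, 0), (0, 0), (0, 0), (0, 0), (0, 0), (0, 0), (0, 0), (0, 0), (0, 0), (0, 0),
    (0, 0), (0, 0), (0, 0), (0, 0), (0, 0), (-1, 0), (-1, 0), (-1, 0), (-1, 0), (-1, 0), (-1, 0), (0, 0), (0, 0), (0,
    0), (0, 0), (0, 0), (0, 0), (0, 0), (-1, 1), (-1, 1), (0, 0), (0, 0), (-1, 0), (0, -1), (0, -1), (0, -1), (1,
    -1), (0, 0), (0, 0)]

/-- glued arcs and equations -/
def tord7a_114 : TorT :=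
  ⟨[(0, 2, true), (0, 4, false), (1, 1, true), (1, 5, false), (2, 5, false), (3, 6, false), (3, 6, true), (4, 4,
    true)],
    [([0, 0, 0, 1, 0, 0, 1], 2), ([0, 0, 1, 0, 1, 1, 1], 2), ([0, 1, 0, 0, 0, 1, 0], 2), ([0, 1, 1, 0, 0, 0, 0], 2),
    ([2, 0, 0, 1, 1, 0, 0], 2)]⟩

theorem tord7a_114_ok : tord7a_114.OK 7 := TT.leaf_ok (T := ttd7a_114) (by decide +kernel)

/-- the torus -/
def ttd7a_115 : TT where
  k := 8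
  rf := [false, false, false, true, true, false, true, true]
  tau := [7, 16, 26, 27, 11, 28, 38, 0, 37, 33, 34, 4, 21, 17, 47, 25, 1, 13, 22, 51, 52, 12, 18, 50, 48, 15, 2, 3,
    5, 39, 43, 55, 36, 9, 10, 54, 32, 8, 6, 29, 44, 45, 49, 30, 40, 41, 53, 14, 24, 42, 23, 19, 20, 46, 35, 31]
  par := [0, 0, 1, 2, 5, 6, 14, 19]
  stars := [[0, 38, 8], [1, 7, 17], [2, 16, 26], [3, 27], [4, 21, 12], [5, 11, 28], [6, 29, 39], [9, 37, 33], [10,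
    34], [13, 22, 18], [14, 53, 47], [15, 48, 25], [19, 23, 51], [20, 52], [24, 42, 50], [30, 44, 40], [31, 49, 43],
    [32, 36, 55], [35, 46, 54], [41, 45]]
  word := [[], [], [], [], [1], [], [], [], [0, 2, 1, 3], [0], [0], [0], [0], [], [], [], [], [], [0], [], [], [1],
    [1], [1], [], [], [], [], [], [], [2], [2, 1], [2, 1, 3], [1], [1], [2], [2, 0, 3], [2, 0, 3, 1], [], [], [2],
    [2], [1], [3], [3], [3], [], [], [], [0], [0], [], [], [], [3], [0, 3]]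
  rank := [0, 0, 0, 1, 3, 0, 0, 0, 6, 5, 4, 3, 2, 1, 0, 1, 0, 1, 0, 0, 1, 2, 0, 1, 2, 1, 0, 1, 0, 1, 2, 4, 5, 5, 4,
    3, 5, 6, 0, 1, 0, 1, 3, 2, 0, 1, 2, 0, 2, 3, 1, 0, 1, 2, 3, 4]
  just := [0, 0, 0, 3, 4, 0, 0, 0, 7, 8, 5, 4, 9, 1, 0, 2, 0, 1, 0, 0, 13, 9, 0, 12, 11, 2, 0, 3, 0, 6, 15, 16, 17,
    8, 5, 18, 17, 7, 0, 6, 0, 19, 14, 15, 0, 19, 10, 0, 11, 14, 12, 0, 13, 10, 18, 16]
  gA := 18
  gB := 40
  fin := 0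
  sid := [0, 1, 2, 3, 4, 5, 6, 1, 0, 7, 8, 5, 4, 9, 10, 11, 2, 1, 9, 12, 13, 4, 9, 12, 14, 11, 2, 3, 5, 6, 15, 16,
    17, 7, 8, 18, 17, 7, 0, 6, 15, 19, 14, 16, 15, 19, 18, 10, 11, 16, 14, 12, 13, 10, 18, 17]
  off := [(0, 0), (0, 0), (0, 0), (0, 0), (0, 0), (0, 0), (0, 0), (0, 0), (0, 0), (0, 0), (0, 0), (1, 0), (1, 0), (0,
    0), (0, 0), (0, 0), (0, 0), (0, 0), (0, 0), (0, 0), (0, 0), (0, 0), (-1, 0), (-1, 0), (0, 0), (0, 0), (0, 0), (0,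
    0), (0, 0), (0, 0), (0, 0), (0, 0), (0, 0), (-1, 0), (-1, 0), (0, 0), (1, 0), (0, 0), (0, 0), (0, 0), (0, 0), (0,
    0), (0, 0), (0, -1), (0, -1), (0, -1), (0, -1), (0, 0), (0, 0), (1, -1), (1, 0), (0, 0), (0, 0), (0, 0), (0, -1),
    (1, -1)]

/-- glued arcs and equations -/
def tord7a_115 : TorT :=
  ⟨[(0, 0, true), (0, 5, false), (1, 2, true), (1, 4, false), (2, 5, false), (3, 6, false), (3, 6, true), (4, 4,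
    true)],
    [([0, 0, 0, 1, 0, 0, 1], 2), ([0, 0, 2, 0, 0, 1, 0], 2), ([0, 1, 0, 0, 1, 0, 1], 2), ([1, 0, 0, 0, 1, 1, 0], 2),
    ([1, 1, 0, 1, 0, 0, 0], 2)]⟩

theorem tord7a_115_ok : tord7a_115.OK 7 := TT.leaf_ok (T := ttd7a_115) (by decide +kernel)

/-- the torus -/
def ttd7a_116 : TT where
  k := 4
  rf := [false, false, false, false]
  tau := [12, 14, 9, 27, 22, 7, 13, 5, 21, 2, 20, 15, 0, 6, 1, 11, 19, 24, 25, 16, 10, 8, 4, 26, 17, 18, 23, 3]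
  par := [0, 0, 1, 3]
  stars := [[0, 13], [1, 12, 15], [2, 14, 10], [3, 9, 21], [4, 27, 23], [5, 22, 8], [6, 7], [11, 20, 16], [17, 19,
    25], [18, 24, 26]]
  word := [[], [], [1], [], [3, 0, 2], [3, 0, 2, 1], [3, 0, 2, 1], [0, 3, 1, 2], [0], [0], [0], [], [], [0, 3, 1, 2],
    [], [], [0], [0, 2], [2], [1], [1], [1], [3, 1, 2], [3, 1, 2], [3, 1], [3], [3, 0, 2], []]
  rank := [0, 0, 3, 0, 3, 5, 6, 5, 4, 3, 2, 1, 0, 6, 0, 1, 0, 1, 0, 0, 2, 4, 3, 2, 1, 0, 2, 0]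
  just := [0, 0, 2, 0, 4, 5, 6, 5, 3, 2, 7, 1, 0, 6, 0, 1, 0, 8, 0, 0, 7, 3, 4, 9, 8, 0, 9, 0]
  gA := 16
  gB := 18
  fin := 0
  sid := [0, 1, 2, 3, 4, 5, 6, 6, 5, 3, 2, 7, 1, 0, 2, 1, 7, 8, 9, 8, 7, 3, 5, 4, 9, 8, 9, 4]
  off := [(0, 0), (0, 0), (0, 0), (0, 0), (0, 0), (0, 0), (0, 0), (0, 0), (0, 0), (1, 0), (1, 0), (0, 0), (0, 0), (0,
    0), (0, 0), (0, 0), (0, 0), (0, 0), (0, 0), (-1, 0), (-1, 0), (0, 0), (-1, 0), (-1, 0), (-1, -1), (-1, -1), (0,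
    -1), (0, 0)]

/-- glued arcs and equations -/
def tord7a_116 : TorT :=
  ⟨[(0, 1, true), (0, 5, true), (1, 4, true), (2, 2, true), (2, 5, true), (3, 3, true), (3, 6, true), (4, 4, true),
    (6, 6, true)],
    [([0, 0, 0, 1, 1, 1, 0], 2), ([0, 0, 1, 0, 1, 0, 1], 2), ([0, 2, 0, 0, 0, 1, 0], 2), ([1, 0, 0, 0, 0, 0, 1], 2),
    ([1, 0, 1, 1, 0, 0, 0], 2)]⟩

theorem tord7a_116_ok : tord7a_116.OK 7 := TT.leaf_ok (T := ttd7a_116) (by decide +kernel)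

/-- the torus -/
def ttd7a_117 : TT where
  k := 4
  rf := [false, false, false, false]
  tau := [9, 8, 7, 20, 15, 14, 13, 2, 1, 0, 27, 22, 21, 6, 5, 4, 25, 24, 23, 26, 3, 12, 11, 18, 17, 16, 19, 10]
  par := [0, 0, 3, 10]
  stars := [[0, 13, 21, 10], [1, 9], [2, 8], [3, 7, 6, 14], [4, 20, 26, 16], [5, 15], [11, 27, 19, 23], [12, 22],
    [17, 25], [18, 24]]
  word := [[], [], [], [], [2, 1], [2, 1], [2, 1], [], [], [], [], [3, 0], [3, 0], [0, 3], [0, 3], [0, 3], [0], [0],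
    [0], [2], [], [1, 2], [1, 2], [1], [1], [1], [3], []]
  rank := [0, 1, 2, 0, 2, 3, 4, 2, 1, 0, 0, 2, 3, 4, 3, 2, 1, 0, 1, 0, 0, 3, 2, 1, 0, 1, 0, 0]
  just := [0, 1, 2, 0, 4, 5, 3, 2, 1, 0, 0, 6, 7, 3, 5, 4, 8, 0, 9, 0, 0, 7, 6, 9, 0, 8, 0, 0]
  gA := 17
  gB := 19
  fin := 0
  sid := [0, 1, 2, 3, 4, 5, 3, 3, 2, 1, 0, 6, 7, 0, 3, 5, 4, 8, 9, 6, 4, 0, 7, 6, 9, 8, 4, 6]
  off := [(0, 0), (0, 0), (0, 0), (0, 0), (0, 0), (0, 0), (-1, 1), (0, 0), (0, 0), (0, 0), (0, 0), (0, 0), (0, 0),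
    (1, -1), (0, 0), (1, -1), (1, -1), (0, 0), (0, 0), (0, 1), (0, 0), (0, 0), (-1, 1), (-1, 1), (-1, 0), (-1, 0),
    (0, -1), (0, 0)]

/-- glued arcs and equations -/
def tord7a_117 : TorT :=
  ⟨[(0, 2, true), (0, 5, true), (1, 1, true), (1, 4, true), (2, 4, true), (3, 3, true), (3, 6, true), (5, 5, true),
    (6, 6, true)],
    [([0, 0, 0, 1, 1, 0, 0], 2), ([0, 0, 1, 0, 1, 1, 1], 2), ([0, 1, 0, 0, 0, 1, 0], 2), ([0, 1, 1, 0, 0, 0, 0], 2),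
    ([2, 0, 0, 1, 0, 0, 1], 2)]⟩

theorem tord7a_117_ok : tord7a_117.OK 7 := TT.leaf_ok (T := ttd7a_117) (by decide +kernel)

/-- the torus -/
def ttd7a_118 : TT where
  k := 4
  rf := [false, false, false, false]
  tau := [8, 15, 21, 19, 18, 17, 26, 16, 0, 25, 24, 23, 20, 27, 22, 1, 7, 5, 4, 3, 12, 2, 14, 11, 10, 9, 6, 13]
  par := [0, 0, 1, 2]
  stars := [[0, 26, 9], [1, 8, 16], [2, 15, 22], [3, 21, 13, 20], [4, 19], [5, 18], [6, 17, 7, 27], [10, 25], [11,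
    24], [12, 23, 14]]
  word := [[], [], [], [0], [0], [0], [0, 2, 1], [], [], [2], [2], [2], [2], [2, 1], [], [], [], [1], [1], [1], [3],
    [], [], [3], [3], [3], [0, 3, 1], [0, 3]]
  rank := [0, 0, 0, 0, 1, 2, 4, 1, 0, 2, 1, 0, 2, 3, 1, 0, 1, 2, 1, 0, 2, 0, 1, 0, 1, 2, 4, 3]
  just := [0, 0, 0, 0, 4, 5, 6, 1, 0, 7, 8, 0, 9, 3, 2, 0, 1, 5, 4, 0, 9, 0, 2, 0, 8, 7, 6, 3]
  gA := 3
  gB := 11
  fin := 0
  sid := [0, 1, 2, 3, 4, 5, 6, 6, 1, 0, 7, 8, 9, 3, 9, 2, 1, 6, 5, 4, 3, 3, 2, 9, 8, 7, 0, 6]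
  off := [(0, 0), (0, 0), (0, 0), (0, 0), (0, 0), (0, 0), (0, 0), (-1, 0), (0, 0), (0, 0), (0, 0), (0, 0), (0, 0),
    (-1, 1), (0, -1), (0, 0), (0, 0), (-1, 0), (-1, 0), (-1, 0), (-1, 0), (0, 0), (0, 0), (0, -1), (0, -1), (0, -1),
    (0, -1), (0, -1)]

/-- glued arcs and equations -/
def tord7a_118 : TorT :=
  ⟨[(0, 1, true), (0, 2, true), (1, 1, true), (2, 4, true), (3, 3, true), (3, 5, true), (4, 4, true), (5, 6, true),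
    (6, 6, true)],
    [([0, 0, 0, 0, 1, 1, 0], 2), ([0, 0, 0, 1, 1, 0, 0], 2), ([0, 2, 1, 0, 0, 0, 0], 2), ([1, 0, 0, 1, 0, 0, 2], 2),
    ([1, 0, 1, 0, 0, 1, 0], 2)]⟩

theorem tord7a_118_ok : tord7a_118.OK 7 := TT.leaf_ok (T := ttd7a_118) (by decide +kernel)

/-- the torus -/
def ttd7a_119 : TT where
  k := 8
  rf := [false, true, false, false, true, true, false, true]
  tau := [4, 7, 8, 13, 0, 19, 20, 1, 2, 25, 26, 23, 24, 3, 18, 28, 29, 34, 14, 5, 6, 36, 37, 11, 12, 9, 10, 38, 15,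
    16, 46, 47, 44, 45, 17, 39, 21, 22, 27, 35, 54, 55, 50, 51, 32, 33, 30, 31, 52, 53, 42, 43, 48, 49, 40, 41]
  par := [0, 1, 5, 9, 15, 21, 30, 40]
  stars := [[0, 20, 5], [1, 4, 7], [2, 8], [3, 9, 25, 13], [6, 19, 14], [10, 26], [11, 23, 38, 27], [12, 24], [15,
    18, 28], [16, 29], [17, 30, 46, 34], [21, 39, 36], [22, 37], [31, 47], [32, 44, 52, 48], [33, 45], [35, 40, 55],
    [41, 49, 54], [42, 53, 50], [43, 51]]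
  word := [[3], [], [], [2], [2], [], [0, 3, 1], [], [], [], [], [3], [3], [3], [0, 2, 1], [], [], [0, 3, 1], [0, 3,
    1], [], [0, 2, 1], [], [], [2], [2], [], [], [3], [], [], [], [], [0, 2, 1], [0, 2, 1], [0, 2, 1], [3], [], [],
    [2], [2], [], [3], [0], [0], [0, 3, 1], [0, 3, 1], [], [], [0, 2], [2], [1], [1], [3, 1], [3], [], [2]]
  rank := [7, 0, 1, 6, 7, 0, 6, 0, 1, 0, 1, 4, 5, 6, 5, 0, 1, 4, 5, 0, 6, 0, 1, 4, 5, 0, 1, 3, 0, 1, 0, 1, 2, 3, 4,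
    2, 0, 1, 3, 2, 0, 1, 0, 1, 2, 3, 0, 1, 1, 0, 0, 1, 1, 0, 0, 1]
  just := [1, 0, 2, 3, 1, 0, 4, 0, 2, 0, 5, 6, 7, 3, 8, 0, 9, 10, 8, 0, 4, 0, 12, 6, 7, 0, 5, 11, 0, 9, 0, 13, 14,
    15, 10, 16, 0, 12, 11, 16, 0, 17, 0, 19, 14, 15, 0, 13, 18, 0, 0, 19, 18, 0, 0, 17]
  gA := 42
  gB := 49
  fin := 0
  sid := [0, 1, 2, 3, 1, 0, 4, 1, 2, 3, 5, 6, 7, 3, 4, 8, 9, 10, 8, 4, 0, 11, 12, 6, 7, 3, 5, 6, 8, 9, 10, 13, 14,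
    15, 10, 16, 11, 12, 6, 11, 16, 17, 18, 19, 14, 15, 10, 13, 14, 17, 18, 19, 14, 18, 17, 16]
  off := [(0, 0), (0, 0), (0, 0), (0, 0), (0, 1), (0, 1), (0, 0), (0, 0), (0, 0), (0, 0), (0, 0), (0, 0), (0, 0), (0,
    -1), (0, 1), (0, 0), (0, 0), (0, 0), (0, -1), (0, 0), (0, 1), (0, 0), (0, 0), (0, 1), (0, 1), (0, 0), (0, 0), (0,
    0), (0, 0), (0, 0), (0, 0), (0, 0), (0, 0), (0, 0), (0, 1), (0, 0), (0, 0), (0, 0), (0, 1), (0, 1), (0, 1), (0,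
    0), (0, 0), (0, 0), (0, -1), (0, -1), (0, 0), (0, 0), (0, 0), (0, 1), (-1, 0), (-1, 0), (-1, -1), (-1, -1), (0,
    0), (0, 1)]

/-- glued arcs and equations -/
def tord7a_119 : TorT :=
  ⟨[(0, 1, false), (0, 4, true), (1, 2, false), (2, 4, false), (3, 5, false), (3, 6, false), (5, 5, true), (6, 6,
    true)],
    [([0, 0, 0, 1, 0, 1, 0], 2), ([0, 0, 1, 1, 1, 0, 1], 2), ([0, 1, 1, 0, 0, 0, 0], 2), ([1, 0, 0, 0, 0, 1, 1], 2),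
    ([1, 1, 0, 0, 1, 0, 0], 2)]⟩

theorem tord7a_119_ok : tord7a_119.OK 7 := TT.leaf_ok (T := ttd7a_119) (by decide +kernel)

end Pool.Agent.Lib_MP_fa6e45
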