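import Pool.Agent.Lib_MP_fa6e45.CT5

/-!
MP_fa6e45_co, stage 9: straight-side patterns with `7` sides, tables of tori (generated by a program).
-/

namespace Pool.Agent.Lib_MP_fa6e45

/-- the torus -/
def ttd7a_120 : TT where
  k := 4
  rf := [false, false, false, false]
  tau := [7, 18, 11, 10, 9, 24, 26, 0, 25, 4, 3, 2, 17, 19, 23, 22, 21, 12, 1, 13, 27, 16, 15, 14, 5, 8, 6, 20]
  par := [0, 0, 1, 5]
  stars := [[0, 26, 8], [1, 7, 19], [2, 18, 12], [3, 11], [4, 10], [5, 9, 25], [6, 24, 14, 27], [13, 17, 21, 20],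
    [15, 23], [16, 22]]
  word := [[], [], [0], [0], [0], [], [3, 1, 2], [], [1], [1], [1], [1], [1], [], [2], [2], [2], [0], [], [], [1, 2],
    [3], [3], [3], [], [0], [3, 0, 2], [3, 0]]
  rank := [0, 0, 0, 1, 2, 0, 3, 0, 3, 2, 1, 0, 1, 1, 2, 1, 0, 1, 0, 1, 2, 0, 1, 2, 0, 3, 3, 2]
  just := [0, 0, 0, 3, 4, 0, 6, 0, 5, 4, 3, 0, 2, 1, 8, 9, 0, 2, 0, 1, 7, 0, 9, 8, 0, 5, 6, 7]
  gA := 2
  gB := 16
  fin := 0
  sid := [0, 1, 2, 3, 4, 5, 6, 1, 0, 5, 4, 3, 2, 7, 6, 8, 9, 7, 2, 1, 7, 7, 9, 8, 6, 5, 0, 6]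
  off := [(0, 0), (0, 0), (0, 0), (0, 0), (0, 0), (0, 0), (0, 0), (0, 0), (0, 0), (-1, 0), (-1, 0), (-1, 0), (-1, 0),
    (0, 0), (0, 1), (0, 0), (0, 0), (1, 0), (0, 0), (0, 0), (0, 0), (1, -1), (0, -1), (0, -1), (0, 0), (0, 0), (1,
    0), (1, 0)]

/-- glued arcs and equations -/
def tord7a_120 : TorT :=
  ⟨[(0, 0, true), (0, 2, true), (1, 1, true), (1, 4, true), (2, 4, true), (3, 3, true), (3, 5, true), (5, 6, true),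
    (6, 6, true)],
    [([0, 0, 0, 1, 1, 0, 0], 2), ([0, 0, 1, 0, 1, 1, 0], 2), ([0, 1, 1, 0, 0, 0, 0], 2), ([1, 0, 0, 1, 0, 0, 2], 2),
    ([1, 1, 0, 0, 0, 1, 0], 2)]⟩

theorem tord7a_120_ok : tord7a_120.OK 7 := TT.leaf_ok (T := ttd7a_120) (by decide +kernel)

/-- the torus -/
def ttd7a_121 : TT where
  k := 4
  rf := [false, false, false, false]
  tau := [8, 15, 21, 27, 18, 19, 26, 16, 0, 25, 24, 23, 20, 17, 22, 1, 7, 13, 4, 5, 12, 2, 14, 11, 10, 9, 6, 3]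
  par := [0, 0, 1, 2]
  stars := [[0, 26, 9], [1, 8, 16], [2, 15, 22], [3, 21], [4, 27, 6, 19], [5, 18, 13, 20], [7, 17], [10, 25], [11,
    24], [12, 23, 14]]
  word := [[], [], [], [], [0, 3], [0], [0, 2, 1], [], [], [2], [2], [2], [2], [], [], [], [], [], [2, 1], [1], [3],
    [], [], [3], [3], [3], [0, 3, 1], []]
  rank := [0, 0, 0, 1, 3, 0, 4, 1, 0, 2, 1, 0, 2, 2, 1, 0, 1, 2, 3, 0, 2, 0, 1, 0, 1, 2, 4, 1]
  just := [0, 0, 0, 3, 5, 0, 4, 1, 0, 7, 8, 0, 9, 6, 2, 0, 1, 6, 5, 0, 9, 0, 2, 0, 8, 7, 4, 3]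
  gA := 5
  gB := 11
  fin := 0
  sid := [0, 1, 2, 3, 4, 5, 4, 6, 1, 0, 7, 8, 9, 5, 9, 2, 1, 6, 5, 4, 5, 3, 2, 9, 8, 7, 0, 4]
  off := [(0, 0), (0, 0), (0, 0), (0, 0), (0, 0), (0, 0), (0, 1), (0, 0), (0, 0), (0, 0), (0, 0), (0, 0), (0, 0),
    (-1, 1), (0, -1), (0, 0), (0, 0), (0, 0), (-1, 1), (-1, 1), (-1, 0), (0, 0), (0, 0), (0, -1), (0, -1), (0, -1),
    (0, -1), (0, 0)]

/-- glued arcs and equations -/
def tord7a_121 : TorT :=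
  ⟨[(0, 1, true), (0, 2, true), (1, 1, true), (2, 4, true), (3, 3, true), (3, 6, true), (4, 4, true), (5, 5, true),
    (5, 6, true)],
    [([0, 0, 0, 0, 1, 1, 2], 2), ([0, 0, 0, 1, 1, 0, 0], 2), ([0, 2, 1, 0, 0, 0, 0], 2), ([1, 0, 0, 1, 0, 0, 0], 2),
    ([1, 0, 1, 0, 0, 1, 0], 2)]⟩

theorem tord7a_121_ok : tord7a_121.OK 7 := TT.leaf_ok (T := ttd7a_121) (by decide +kernel)

/-- the torus -/
def ttd7a_122 : TT where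
  k := 4
  rf := [false, false, false, false]
  tau := [9, 15, 22, 17, 7, 13, 10, 4, 16, 0, 6, 25, 26, 5, 23, 1, 8, 3, 21, 27, 24, 18, 2, 14, 20, 11, 12, 19]
  par := [0, 0, 1, 2]
  stars := [[0, 10], [1, 9, 16], [2, 15, 23], [3, 22, 18], [4, 17, 8], [5, 7], [6, 13, 26, 11], [12, 25, 20, 27],
    [14, 24], [19, 21]]
  word := [[], [], [], [3], [3], [3], [3, 0, 2, 1], [2], [], [], [0, 3, 1, 2], [0, 3], [0], [2], [], [], [], [2],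
    [2], [2], [], [3], [], [], [], [2, 1], [1], [3]]
  rank := [0, 0, 0, 1, 2, 3, 4, 2, 1, 0, 4, 3, 0, 3, 1, 0, 1, 1, 0, 1, 2, 0, 0, 1, 2, 3, 0, 1]
  just := [0, 0, 0, 3, 4, 5, 6, 4, 1, 0, 6, 7, 0, 5, 2, 0, 1, 3, 0, 9, 8, 0, 0, 2, 8, 7, 0, 9]
  gA := 12
  gB := 18
  fin := 0
  sid := [0, 1, 2, 3, 4, 5, 6, 5, 4, 1, 0, 6, 7, 6, 8, 2, 1, 4, 3, 9, 7, 9, 3, 2, 8, 7, 6, 7]
  off := [(0, 0), (0, 0), (0, 0), (0, 0), (0, 0), (0, 0), (0, 0), (0, 1), (0, 1), (0, 0), (0, 0), (0, 0), (0, 0), (0,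
    1), (0, 0), (0, 0), (0, 0), (0, 1), (0, 1), (0, 0), (-1, 1), (0, -1), (0, 0), (0, 0), (0, 0), (-1, 1), (-1, 1),
    (-1, 0)]

/-- glued arcs and equations -/
def tord7a_122 : TorT :=
  ⟨[(0, 2, true), (0, 4, true), (1, 1, true), (1, 2, true), (3, 3, true), (3, 6, true), (4, 4, true), (5, 5, true),
    (5, 6, true)],
    [([0, 0, 0, 0, 1, 1, 2], 2), ([0, 1, 0, 1, 1, 0, 0], 2), ([0, 1, 2, 0, 0, 0, 0], 2), ([1, 0, 0, 0, 0, 1, 0], 2),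
    ([1, 0, 0, 1, 0, 0, 0], 2)]⟩

theorem tord7a_122_ok : tord7a_122.OK 7 := TT.leaf_ok (T := ttd7a_122) (by decide +kernel)

/-- the torus -/
def ttd7a_123 : TT where
  k := 8
  rf := [false, false, true, false, true, true, true, false]
  tau := [11, 14, 15, 24, 30, 31, 12, 36, 37, 46, 47, 0, 6, 55, 1, 2, 25, 26, 35, 41, 34, 53, 28, 29, 3, 16, 17, 54,
    22, 23, 4, 5, 42, 48, 20, 18, 7, 8, 45, 51, 52, 19, 32, 49, 50, 38, 9, 10, 33, 43, 44, 39, 40, 21, 27, 13]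
  par := [0, 0, 1, 3, 4, 7, 9, 13]
  stars := [[0, 12], [1, 11, 48, 34, 14], [2, 15], [3, 16, 25], [4, 24, 30], [5, 31], [6, 32, 43, 49, 13], [7, 55,
    27, 18, 36], [8, 37], [9, 38, 46], [10, 47], [17, 26], [19, 35], [20, 28, 22, 53, 41], [21, 54], [23, 29], [33,
    42], [39, 51, 45], [40, 52], [44, 50]]
  word := [[], [], [], [], [], [], [0, 3, 1, 2], [], [], [], [], [], [3, 0, 2, 1], [], [], [], [], [], [0], [0], [0,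
    2, 1], [0], [], [], [], [], [], [0], [], [], [], [], [0, 3, 1], [0, 3, 1], [0, 3, 1], [1], [], [], [], [2], [2],
    [1], [0, 2, 1], [2], [2], [], [], [], [0, 2, 1], [3], [3], [3], [3], [1], [1], []]
  rank := [0, 0, 1, 0, 0, 1, 9, 0, 1, 0, 1, 0, 9, 0, 0, 1, 2, 3, 4, 5, 6, 1, 2, 1, 0, 2, 3, 0, 2, 1, 0, 1, 8, 7, 6,
    4, 0, 1, 2, 1, 0, 5, 8, 4, 3, 2, 0, 1, 7, 4, 3, 1, 0, 1, 0, 0]
  just := [0, 0, 2, 0, 0, 5, 6, 0, 8, 0, 10, 0, 6, 0, 0, 2, 3, 11, 7, 12, 13, 14, 15, 4, 0, 3, 11, 0, 15, 4, 0, 5,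
    16, 1, 13, 7, 0, 8, 9, 18, 0, 12, 16, 19, 17, 9, 0, 10, 1, 19, 17, 18, 0, 14, 0, 0]
  gA := 27
  gB := 40
  fin := 0
  sid := [0, 1, 2, 3, 4, 5, 6, 7, 8, 9, 10, 1, 0, 6, 1, 2, 3, 11, 7, 12, 13, 14, 13, 15, 4, 3, 11, 7, 13, 15, 4, 5,
    6, 16, 1, 12, 7, 8, 9, 17, 18, 13, 16, 6, 19, 17, 9, 10, 1, 6, 19, 17, 18, 13, 14, 7]
  off := [(0, 0), (0, 0), (0, 0), (0, 0), (0, 0), (0, 0), (0, 0), (0, 0), (0, 0), (0, 0), (0, 0), (0, 0), (0, 0), (0,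
    0), (0, 0), (0, 0), (0, 0), (0, 0), (1, 0), (0, 0), (0, 0), (0, 0), (0, -1), (0, 0), (0, 0), (0, 0), (0, 0), (1,
    0), (0, -1), (0, 0), (0, 0), (0, 0), (0, 0), (0, 0), (0, -1), (-1, 0), (0, 0), (0, 0), (0, 0), (0, 0), (0, 0),
    (-1, 0), (0, 1), (0, 1), (0, 0), (0, 0), (0, 0), (0, 0), (0, 0), (0, 0), (0, -1), (0, -1), (0, -1), (-1, -1),
    (-1, 0), (0, 0)]

/-- glued arcs and equations -/
def tord7a_123 : TorT :=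
  ⟨[(0, 1, false), (0, 4, true), (1, 2, false), (2, 4, false), (3, 3, true), (3, 5, false), (5, 6, true), (6, 6,
    true)],
    [([0, 0, 0, 1, 0, 1, 0], 2), ([0, 0, 1, 1, 1, 0, 0], 2), ([0, 1, 1, 0, 0, 0, 0], 2), ([1, 0, 0, 0, 0, 1, 0], 2),
    ([1, 1, 0, 0, 1, 0, 2], 2)]⟩

theorem tord7a_123_ok : tord7a_123.OK 7 := TT.leaf_ok (T := ttd7a_123) (by decide +kernel)

/-- the torus -/
def ttd7a_124 : TT where
  k := 8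
  rf := [false, true, false, true, false, true, false, true]
  tau := [8, 9, 18, 17, 16, 24, 33, 32, 0, 1, 19, 28, 41, 27, 22, 23, 4, 3, 2, 10, 47, 46, 14, 15, 5, 42, 55, 13, 11,
    35, 36, 54, 7, 6, 48, 29, 30, 53, 52, 51, 45, 12, 25, 49, 50, 40, 21, 20, 34, 43, 44, 39, 38, 37, 31, 26]
  par := [0, 0, 2, 5, 6, 12, 20, 26]
  stars := [[0, 33, 8], [1, 9], [2, 10, 19], [3, 18], [4, 17], [5, 16, 24], [6, 25, 42, 34], [7, 32, 55, 27], [11,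
    28, 48, 20], [12, 35, 29], [13, 21, 46, 41], [14, 47, 22], [15, 23], [26, 49, 43], [30, 36], [31, 37, 54], [38,
    53], [39, 52], [40, 45, 51], [44, 50]]
  word := [[], [], [], [], [], [], [], [2, 0, 3, 1], [], [], [], [1], [], [2, 0], [], [], [], [], [], [], [], [], [],
    [], [], [0], [], [1, 3], [0], [0], [0], [0, 2], [0, 2, 1, 3], [], [0], [1], [1], [2], [2], [2], [2, 0], [], [1],
    [1], [1], [1, 3], [], [], [1], [0], [0], [3], [3], [3], [3, 1], []]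
  rank := [0, 1, 0, 1, 2, 0, 0, 7, 0, 1, 2, 3, 0, 6, 4, 3, 2, 1, 0, 2, 0, 5, 4, 3, 0, 1, 0, 6, 3, 4, 5, 6, 7, 0, 0,
    4, 5, 1, 0, 1, 4, 0, 1, 2, 3, 4, 5, 0, 0, 2, 3, 1, 0, 1, 6, 0]
  just := [0, 1, 0, 3, 4, 0, 0, 7, 0, 1, 2, 8, 0, 10, 12, 5, 4, 3, 0, 2, 0, 11, 12, 5, 0, 6, 0, 10, 8, 9, 14, 15, 7,
    0, 0, 9, 14, 16, 0, 17, 18, 0, 6, 13, 19, 18, 11, 0, 0, 13, 19, 17, 0, 16, 15, 0]
  gA := 34
  gB := 38
  fin := 0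
  sid := [0, 1, 2, 3, 4, 5, 6, 7, 0, 1, 2, 8, 9, 10, 11, 12, 5, 4, 3, 2, 8, 10, 11, 12, 5, 6, 13, 7, 8, 9, 14, 15, 7,
    0, 6, 9, 14, 15, 16, 17, 18, 10, 6, 13, 19, 18, 10, 11, 8, 13, 19, 18, 17, 16, 15, 7]
  off := [(0, 0), (0, 0), (0, 0), (0, 0), (0, 0), (0, 0), (0, 0), (0, 0), (0, 0), (0, 0), (0, 0), (0, 0), (0, 0), (0,
    0), (0, 0), (0, 0), (0, 0), (0, 0), (0, 0), (0, 0), (0, 0), (-1, -1), (0, 0), (0, 0), (0, 0), (0, 0), (0, 0),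
    (-1, -1), (1, 0), (1, 0), (0, 0), (0, 0), (0, 0), (0, 0), (0, 0), (0, 0), (-1, 0), (-1, 0), (0, 0), (0, 0), (0,
    0), (0, 0), (-1, 0), (-1, 0), (0, 0), (-1, -1), (-1, -1), (0, 0), (0, 0), (0, 0), (1, 0), (0, -1), (0, -1), (0,
    -1), (-1, -1), (-1, -1)]

/-- glued arcs and equations -/
def tord7a_124 : TorT :=
  ⟨[(0, 1, false), (0, 4, false), (1, 2, false), (2, 4, true), (3, 3, true), (3, 5, false), (5, 6, true), (6, 6,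
    true)],
    [([0, 0, 0, 1, 1, 0, 0], 2), ([0, 0, 1, 1, 0, 1, 0], 2), ([0, 1, 1, 0, 0, 0, 0], 2), ([1, 0, 0, 0, 1, 0, 2], 2),
    ([1, 1, 0, 0, 0, 1, 0], 2)]⟩

theorem tord7a_124_ok : tord7a_124.OK 7 := TT.leaf_ok (T := ttd7a_124) (by decide +kernel)

/-- the torus -/
def ttd7a_125 : TT where
  k := 8
  rf := [false, true, false, false, true, true, false, true]
  tau := [8, 9, 18, 17, 16, 19, 26, 25, 0, 1, 27, 21, 34, 24, 36, 37, 4, 3, 2, 5, 47, 11, 28, 29, 13, 7, 6, 10, 22,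
    23, 53, 52, 51, 54, 12, 46, 14, 15, 48, 42, 55, 45, 39, 49, 50, 41, 35, 20, 38, 43, 44, 32, 31, 30, 33, 40]
  par := [0, 0, 2, 6, 12, 14, 20, 30]
  stars := [[0, 26, 8], [1, 9], [2, 10, 27, 6, 19], [3, 18], [4, 17], [5, 16, 38, 48, 20], [7, 25], [11, 21], [12,
    28, 22], [13, 24, 30, 54, 34], [14, 47, 36], [15, 37], [23, 29], [31, 53], [32, 52], [33, 55, 41, 45, 51], [35,
    46], [39, 42], [40, 49, 43], [44, 50]]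
  word := [[], [], [], [], [], [0], [], [3, 0, 2, 1], [], [], [1], [1], [], [3, 0, 2, 1], [], [], [], [], [], [1],
    [], [0], [0], [0], [0, 3, 1, 2], [0, 3, 1, 2], [], [0], [1], [1], [], [], [], [3, 0, 2], [], [], [], [], [0],
    [0], [0, 2], [], [1], [2], [2], [], [], [], [1], [3], [3], [], [], [], [3, 1, 2], [3, 1]]
  rank := [0, 1, 0, 1, 2, 0, 0, 8, 0, 1, 2, 3, 0, 7, 0, 1, 2, 1, 0, 0, 0, 3, 4, 5, 7, 8, 0, 2, 4, 5, 0, 1, 2, 6, 0,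
    1, 0, 1, 3, 4, 5, 2, 4, 0, 1, 2, 1, 0, 3, 0, 1, 2, 1, 0, 6, 5]
  just := [0, 1, 0, 3, 4, 0, 0, 6, 0, 1, 2, 7, 0, 9, 0, 11, 4, 3, 0, 0, 0, 7, 8, 12, 9, 6, 0, 2, 8, 12, 0, 13, 14,
    15, 0, 10, 0, 11, 5, 17, 18, 16, 17, 0, 19, 16, 10, 0, 5, 0, 19, 14, 13, 0, 15, 18]
  gA := 5
  gB := 43
  fin := 0
  sid := [0, 1, 2, 3, 4, 5, 2, 6, 0, 1, 2, 7, 8, 9, 10, 11, 5, 4, 3, 2, 5, 7, 8, 12, 9, 6, 0, 2, 8, 12, 9, 13, 14,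
    15, 9, 16, 10, 11, 5, 17, 18, 15, 17, 18, 19, 15, 16, 10, 5, 18, 19, 15, 14, 13, 9, 15]
  off := [(0, 0), (0, 0), (0, 0), (0, 0), (0, 0), (0, 0), (1, 0), (0, 0), (0, 0), (0, 0), (0, 0), (0, 0), (0, 0), (0,
    0), (0, 0), (0, 0), (0, 0), (0, 0), (0, 0), (0, 0), (-1, 0), (1, 0), (1, 0), (0, 0), (0, 0), (0, 0), (0, 0), (1,
    0), (0, 0), (-1, 0), (-1, 0), (0, 0), (0, 0), (0, 0), (0, 0), (0, 0), (0, 0), (0, 0), (0, 0), (0, 0), (0, 0), (0,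
    1), (-1, 0), (-1, 0), (0, 0), (0, 1), (0, 0), (0, 0), (-1, 0), (-1, -1), (0, -1), (0, 0), (0, 0), (0, 0), (-1,
    0), (-1, 0)]

/-- glued arcs and equations -/
def tord7a_125 : TorT :=
  ⟨[(0, 1, false), (0, 4, false), (1, 2, false), (2, 4, true), (3, 3, true), (3, 6, false), (5, 5, true), (5, 6,
    true)],
    [([0, 0, 0, 1, 1, 0, 0], 2), ([0, 0, 1, 1, 0, 1, 2], 2), ([0, 1, 1, 0, 0, 0, 0], 2), ([1, 0, 0, 0, 1, 0, 0], 2),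
    ([1, 1, 0, 0, 0, 1, 0], 2)]⟩

theorem tord7a_125_ok : tord7a_125.OK 7 := TT.leaf_ok (T := ttd7a_125) (by decide +kernel)

end Pool.Agent.Lib_MP_fa6e45
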