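import Pool.Agent.Lib_MP_fa6e45.CT5

/-!
MP_fa6e45_co, stage 9: straight-side patterns with `7` sides, tables of tori (generated by a program).
-/

namespace Pool.Agent.Lib_MP_fa6e45

/-- the torus -/
def ttd7a_132 : TT where
  k := 4
  rf := [false, false, false, false]
  tau := [7, 8, 6, 15, 17, 16, 2, 0, 1, 13, 22, 24, 23, 9, 18, 3, 5, 4, 14, 26, 27, 25, 10, 12, 11, 21, 19, 20]
  par := [0, 0, 3, 10]
  stars := [[0, 2, 8], [1, 7, 9], [3, 6, 16], [4, 15, 18], [5, 17], [10, 13, 23], [11, 22, 25], [12, 24], [14, 27,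
    19], [20, 26, 21]]
  word := [[], [3, 0], [0, 3], [], [2, 1], [2, 1], [2, 1], [], [1, 2], [1, 2], [], [3, 0], [3, 0], [3, 0], [2, 1],
    [], [0, 3], [0, 3], [0, 3], [0], [2], [3, 0], [], [1, 2], [1, 2], [1, 2], [1], [3]]
  rank := [0, 5, 4, 0, 2, 3, 4, 0, 5, 4, 0, 2, 3, 4, 1, 0, 3, 2, 1, 0, 0, 1, 0, 3, 2, 1, 0, 0]
  just := [0, 1, 2, 0, 3, 4, 2, 0, 1, 5, 0, 6, 7, 5, 8, 0, 4, 3, 8, 0, 0, 9, 0, 7, 6, 9, 0, 0]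
  gA := 19
  gB := 20
  fin := 0
  sid := [0, 1, 0, 2, 3, 4, 2, 1, 0, 1, 5, 6, 7, 5, 8, 3, 2, 4, 3, 8, 9, 9, 6, 5, 7, 6, 9, 8]
  off := [(0, 0), (0, 0), (1, -1), (0, 0), (0, 0), (0, 0), (-1, 1), (0, 0), (0, 0), (-1, 1), (0, 0), (0, 0), (0, 0),
    (1, -1), (0, 0), (0, 0), (0, 0), (1, -1), (1, -1), (1, -1), (0, 0), (0, -1), (0, 0), (0, 0), (-1, 1), (-1, 1),
    (-1, 0), (0, -1)]

/-- glued arcs and equations -/
def tord7a_132 : TorT :=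
  ⟨[(0, 0, true), (0, 4, true), (1, 1, true), (1, 3, true), (2, 5, true), (2, 6, true), (3, 4, true), (5, 5, true),
    (6, 6, true)],
    [([0, 0, 0, 1, 0, 1, 0], 2), ([0, 0, 1, 1, 0, 0, 1], 2), ([0, 1, 0, 0, 2, 0, 0], 2), ([1, 0, 0, 0, 0, 1, 1], 2),
    ([1, 1, 1, 0, 0, 0, 0], 2)]⟩

theorem tord7a_132_ok : tord7a_132.OK 7 := TT.leaf_ok (T := ttd7a_132) (by decide +kernel)

/-- the torus -/
def ttd7a_133 : TT where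
  k := 12
  rf := [false, false, false, false, false, true, true, true, true, false, true, true]
  tau := [8, 14, 20, 26, 32, 35, 9, 29, 0, 6, 36, 37, 38, 30, 1, 28, 34, 43, 44, 45, 2, 54, 59, 60, 61, 48, 3, 46,
    15, 7, 13, 68, 4, 42, 16, 5, 10, 11, 12, 69, 52, 67, 33, 17, 18, 19, 27, 73, 25, 57, 77, 83, 40, 74, 21, 58, 71,
    49, 55, 22, 23, 24, 72, 75, 80, 81, 82, 41, 31, 39, 78, 56, 62, 47, 53, 63, 79, 50, 70, 76, 64, 65, 66, 51]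
  par := [0, 0, 1, 3, 4, 5, 17, 21, 22, 31, 47, 50]
  stars := [[0, 9], [1, 8, 29, 15], [2, 14], [3, 20, 46, 27], [4, 26, 42, 33], [5, 32, 68, 35], [6, 36, 10], [7, 30],
    [11, 37], [12, 38], [13, 39, 69, 31], [16, 28], [17, 34, 43], [18, 44], [19, 45], [21, 47, 74, 54], [22, 55, 59],
    [23, 60], [24, 61], [25, 62, 73, 48], [40, 53, 75, 63], [41, 67, 83, 52], [49, 58], [50, 78, 71, 57], [51, 77],
    [56, 72], [64, 76, 80], [65, 81], [66, 82], [70, 79]]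
  word := [[], [], [], [], [], [], [2, 1, 3, 0], [1], [], [1, 2, 0, 3], [1, 2, 0, 3], [1, 2, 0, 3], [1, 2, 0, 3],
    [1], [], [1], [1], [], [], [], [], [], [], [], [], [0], [], [], [0], [0], [0], [], [], [0], [0], [], [2, 1, 3,
    0], [2, 1, 3, 0], [2, 1, 3, 0], [2, 1, 3], [2], [], [1], [], [], [], [], [], [1], [], [], [], [3], [], [], [],
    [0], [], [], [], [], [], [0], [2, 0], [2], [2], [2], [], [], [2, 0, 3], [1], [1], [1], [], [], [1, 3], [1], [],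
    [0], [0], [3], [3], [3], []]
  rank := [0, 0, 1, 0, 0, 0, 12, 7, 0, 12, 11, 10, 9, 8, 0, 6, 5, 0, 1, 2, 1, 0, 0, 1, 2, 3, 0, 3, 6, 7, 8, 0, 0, 4,
    5, 0, 11, 10, 9, 6, 2, 1, 4, 0, 1, 2, 3, 0, 3, 2, 0, 1, 2, 4, 0, 1, 1, 2, 1, 0, 1, 2, 0, 5, 1, 0, 1, 1, 0, 6, 3,
    1, 0, 0, 4, 5, 4, 0, 3, 4, 1, 0, 1, 1]
  just := [0, 0, 2, 0, 0, 0, 6, 1, 0, 6, 8, 9, 10, 7, 0, 11, 12, 0, 13, 14, 2, 0, 0, 17, 18, 19, 0, 3, 11, 1, 7, 0,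
    0, 4, 12, 0, 8, 9, 10, 20, 21, 5, 4, 0, 13, 14, 3, 0, 19, 22, 0, 24, 21, 15, 0, 16, 25, 22, 16, 0, 17, 18, 0, 26,
    27, 0, 28, 5, 0, 20, 23, 25, 0, 0, 15, 26, 29, 0, 23, 29, 27, 0, 28, 24]
  gA := 62
  gB := 65
  fin := 0
  sid := [0, 1, 2, 3, 4, 5, 6, 7, 1, 0, 6, 8, 9, 10, 2, 1, 11, 12, 13, 14, 3, 15, 16, 17, 18, 19, 4, 3, 11, 1, 7, 10,
    5, 4, 12, 5, 6, 8, 9, 10, 20, 21, 4, 12, 13, 14, 3, 15, 19, 22, 23, 24, 21, 20, 15, 16, 25, 23, 22, 16, 17, 18,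
    19, 20, 26, 27, 28, 21, 5, 10, 29, 23, 25, 19, 15, 20, 26, 24, 23, 29, 26, 27, 28, 21]
  off := [(0, 0), (0, 0), (0, 0), (0, 0), (0, 0), (0, 0), (0, 0), (0, 0), (0, 0), (0, 0), (0, 0), (0, 0), (0, 0), (0,
    0), (0, 0), (0, 0), (0, 0), (0, 0), (0, 0), (0, 0), (0, 0), (0, 0), (0, 0), (0, 0), (0, 0), (0, 0), (0, 0), (0,
    0), (1, 0), (1, 0), (1, 0), (1, 0), (0, 0), (0, 0), (1, 0), (0, 0), (0, 0), (0, 0), (0, 0), (0, 0), (0, 0), (0,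
    0), (-1, 0), (0, 0), (0, 0), (0, 0), (0, 0), (0, 0), (-1, 0), (0, 0), (0, 0), (0, 0), (0, -1), (0, -1), (0, 0),
    (0, 0), (0, 0), (0, 0), (0, 0), (0, 0), (0, 0), (0, 0), (0, 0), (1, 0), (0, 0), (0, 0), (0, 0), (0, 0), (0, 0),
    (1, 0), (0, 0), (-1, 0), (-1, 0), (-1, 0), (0, 0), (0, -1), (-1, -1), (0, 0), (0, 0), (1, 0), (0, -1), (0, -1),
    (0, -1), (0, -1)]

/-- glued arcs and equations -/
def tord7a_133 : TorT :=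
  ⟨[(0, 1, true), (0, 5, false), (1, 3, false), (2, 4, false), (2, 6, true), (3, 5, false), (3, 5, true), (4, 4,
    true), (4, 6, false)],
    [([0, 0, 0, 1, 0, 1, 0], 2), ([0, 0, 0, 1, 1, 0, 2], 2), ([0, 0, 1, 0, 1, 0, 0], 2), ([0, 1, 0, 1, 0, 0, 1], 2),
    ([0, 4, 0, 0, 0, 0, 0], 2), ([1, 0, 0, 0, 1, 2, 0], 2), ([1, 0, 1, 0, 0, 0, 0], 2)]⟩

theorem tord7a_133_ok : tord7a_133.OK 7 := TT.leaf_ok (T := ttd7a_133) (by decide +kernel)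

/-- the torus -/
def ttd7a_134 : TT where
  k := 4
  rf := [false, false, false, false]
  tau := [8, 15, 16, 7, 13, 19, 9, 3, 0, 6, 26, 25, 24, 4, 22, 1, 2, 21, 27, 5, 23, 17, 14, 20, 12, 11, 10, 18]
  par := [0, 0, 1, 10]
  stars := [[0, 9], [1, 8, 3, 16], [2, 15, 22, 17], [4, 7], [5, 13, 24, 20], [6, 19, 27, 10], [11, 26], [12, 25],
    [14, 23], [18, 21]]
  word := [[], [], [0], [0], [0], [0, 3], [0, 3, 1, 2], [1], [], [3, 0, 2, 1], [], [], [], [1], [2], [], [1], [1, 2],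
    [1, 2], [2, 1], [2], [3, 0], [3], [3], [], [], [], [3, 0]]
  rank := [0, 0, 0, 1, 2, 3, 4, 1, 0, 4, 0, 1, 2, 2, 0, 0, 0, 1, 2, 3, 1, 1, 0, 1, 2, 1, 0, 2]
  just := [0, 0, 0, 1, 3, 4, 5, 1, 0, 5, 0, 6, 7, 3, 0, 0, 0, 2, 9, 4, 8, 2, 0, 8, 7, 6, 0, 9]
  gA := 2
  gB := 14
  fin := 0
  sid := [0, 1, 2, 1, 3, 4, 5, 3, 1, 0, 5, 6, 7, 4, 8, 2, 1, 2, 9, 5, 4, 9, 2, 8, 4, 7, 6, 5]
  off := [(0, 0), (0, 0), (0, 0), (1, 0), (0, 0), (0, 0), (0, 0), (-1, 0), (0, 0), (0, 0), (0, 0), (0, 0), (0, 0),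
    (-1, 0), (0, 0), (0, 0), (0, 0), (-1, 0), (0, 0), (-1, 1), (-1, 1), (1, -1), (0, -1), (0, -1), (-1, 0), (0, 0),
    (0, 0), (0, 0)]

/-- glued arcs and equations -/
def tord7a_134 : TorT :=
  ⟨[(0, 1, true), (0, 3, true), (1, 1, true), (2, 2, true), (2, 6, true), (3, 5, true), (4, 4, true), (4, 6, true),
    (5, 5, true)],
    [([0, 0, 0, 0, 1, 1, 0], 2), ([0, 0, 0, 1, 0, 1, 2], 2), ([0, 2, 1, 1, 0, 0, 0], 2), ([1, 0, 0, 0, 1, 0, 0], 2),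
    ([1, 0, 1, 0, 0, 0, 0], 2)]⟩

theorem tord7a_134_ok : tord7a_134.OK 7 := TT.leaf_ok (T := ttd7a_134) (by decide +kernel)

/-- the torus -/
def ttd7a_135 : TT where
  k := 4
  rf := [false, true, true, false]
  tau := [8, 17, 18, 24, 20, 14, 27, 26, 0, 16, 22, 23, 19, 25, 5, 21, 9, 1, 2, 12, 4, 15, 10, 11, 3, 13, 7, 6]
  par := [0, 0, 1, 3]
  stars := [[0, 27, 8], [1, 9, 17], [2, 18], [3, 19, 13, 25], [4, 24, 12, 20], [5, 14], [6, 15, 21], [7, 26], [10,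
    22, 16], [11, 23]]
  word := [[], [], [], [], [1, 2], [1, 2], [1, 2, 0], [2], [], [], [0], [0], [2], [2], [3, 0], [0], [], [], [], [3],
    [3, 0], [1], [1], [1], [], [3], [3], [1, 3, 0]]
  rank := [0, 0, 1, 0, 1, 2, 3, 3, 0, 1, 1, 0, 0, 2, 2, 2, 1, 0, 1, 0, 1, 2, 1, 0, 0, 2, 3, 3]
  just := [0, 0, 2, 0, 4, 5, 6, 7, 0, 1, 9, 0, 0, 3, 5, 8, 1, 0, 2, 0, 4, 8, 9, 0, 0, 3, 7, 6]
  gA := 11
  gB := 12
  fin := 0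
  sid := [0, 1, 2, 3, 4, 5, 6, 7, 0, 1, 8, 9, 4, 3, 5, 6, 8, 1, 2, 3, 4, 6, 8, 9, 4, 3, 7, 0]
  off := [(0, 0), (0, 0), (0, 0), (0, 0), (0, 0), (0, 0), (0, 0), (0, 0), (0, 0), (0, 0), (0, 0), (0, 0), (1, 0), (0,
    1), (1, -1), (1, -1), (0, 0), (0, 0), (0, 0), (0, 0), (1, -1), (0, -1), (-1, 0), (-1, 0), (0, 0), (0, 0), (0,
    -1), (0, -1)]

/-- glued arcs and equations -/
def tord7a_135 : TorT :=
  ⟨[(0, 1, false), (0, 5, false), (1, 3, false), (2, 2, true), (2, 4, false), (3, 3, true), (4, 6, false), (5, 5,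
    true), (6, 6, true)],
    [([0, 0, 0, 1, 1, 1, 1], 2), ([0, 0, 1, 0, 1, 0, 0], 2), ([0, 1, 1, 1, 0, 0, 0], 2), ([1, 0, 0, 0, 0, 1, 0], 2),
    ([1, 1, 0, 0, 0, 0, 1], 2)]⟩

theorem tord7a_135_ok : tord7a_135.OK 7 := TT.leaf_ok (T := ttd7a_135) (by decide +kernel)

/-- the torus -/
def ttd7a_136 : TT where
  k := 8
  rf := [false, false, true, true, false, false, true, true]
  tau := [7, 8, 6, 19, 20, 14, 2, 0, 1, 13, 26, 27, 21, 9, 5, 31, 32, 29, 30, 3, 4, 12, 38, 39, 36, 37, 10, 11, 47,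
    17, 18, 15, 16, 45, 46, 54, 24, 25, 22, 23, 52, 53, 49, 50, 48, 33, 34, 28, 44, 42, 43, 55, 40, 41, 35, 51]
  par := [0, 0, 3, 10, 15, 22, 28, 35]
  stars := [[0, 2, 8], [1, 7, 9], [3, 6, 15, 31, 19], [4, 20], [5, 14], [10, 13, 22, 38, 26], [11, 27], [12, 21],
    [16, 32], [17, 29, 48, 45, 33], [18, 30], [23, 39], [24, 36, 55, 52, 40], [25, 37], [28, 47], [34, 46], [35, 54],
    [41, 53], [42, 50, 44], [43, 51, 49]]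
  word := [[], [1, 2], [2, 1], [], [], [], [0, 3], [], [3, 0], [3, 0], [], [], [], [1, 2], [], [], [], [2, 1], [2,
    1], [], [], [], [], [], [3, 0], [3, 0], [], [], [], [0, 3], [0, 3], [], [], [], [], [], [1, 2], [1, 2], [], [],
    [], [], [0], [2], [2, 1], [], [], [], [0, 3], [1], [3], [3, 0], [], [], [], [1, 2]]
  rank := [0, 6, 5, 0, 1, 2, 5, 0, 6, 5, 0, 1, 2, 5, 2, 0, 1, 3, 4, 0, 1, 2, 0, 1, 3, 4, 0, 1, 0, 3, 4, 0, 1, 2, 1,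
    0, 3, 4, 0, 1, 2, 1, 0, 0, 1, 2, 1, 0, 1, 0, 0, 1, 2, 1, 0, 1]
  just := [0, 1, 2, 0, 3, 4, 2, 0, 1, 5, 0, 6, 7, 5, 4, 0, 8, 9, 10, 0, 3, 7, 0, 11, 12, 13, 0, 6, 0, 9, 10, 0, 8,
    15, 14, 0, 12, 13, 0, 11, 17, 16, 0, 0, 18, 15, 14, 0, 18, 0, 0, 19, 17, 16, 0, 19]
  gA := 42
  gB := 43
  fin := 0
  sid := [0, 1, 0, 2, 3, 4, 2, 1, 0, 1, 5, 6, 7, 5, 4, 2, 8, 9, 10, 2, 3, 7, 5, 11, 12, 13, 5, 6, 14, 9, 10, 2, 8, 9,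
    15, 16, 12, 13, 5, 11, 12, 17, 18, 19, 18, 9, 15, 14, 9, 19, 18, 19, 12, 17, 16, 12]
  off := [(0, 0), (0, 0), (-1, 1), (0, 0), (0, 0), (0, 0), (1, -1), (0, 0), (0, 0), (1, -1), (0, 0), (0, 0), (0, 0),
    (-1, 1), (0, 0), (1, -1), (0, 0), (0, 0), (0, 0), (0, 0), (0, 0), (0, 0), (-1, 1), (0, 0), (0, 0), (0, 0), (0,
    0), (0, 0), (0, 0), (1, -1), (1, -1), (1, -1), (0, 0), (0, 0), (0, 0), (0, 0), (-1, 1), (-1, 1), (-1, 1), (0, 0),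
    (0, 0), (0, 0), (0, 0), (0, 0), (-1, 1), (0, 0), (0, 0), (0, 0), (1, -1), (-1, 0), (-1, 0), (0, -1), (0, 0), (0,
    0), (0, 0), (-1, 1)]

/-- glued arcs and equations -/
def tord7a_136 : TorT :=
  ⟨[(0, 0, true), (0, 5, false), (1, 1, true), (1, 3, false), (2, 4, false), (2, 6, true), (3, 5, false), (4, 6,
    false)],
    [([0, 0, 0, 0, 1, 0, 1], 2), ([0, 0, 1, 0, 1, 0, 0], 2), ([0, 1, 0, 2, 0, 1, 1], 2), ([1, 0, 0, 0, 0, 1, 0], 2),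
    ([1, 1, 1, 0, 0, 0, 0], 2)]⟩

theorem tord7a_136_ok : tord7a_136.OK 7 := TT.leaf_ok (T := ttd7a_136) (by decide +kernel)

/-- the torus -/
def ttd7a_137 : TT where
  k := 8
  rf := [false, false, true, false, true, false, true, true]
  tau := [8, 17, 18, 19, 25, 14, 9, 33, 0, 6, 29, 30, 31, 41, 5, 28, 34, 1, 2, 3, 48, 36, 45, 46, 47, 4, 42, 37, 15,
    10, 11, 12, 53, 7, 16, 54, 21, 27, 50, 51, 52, 13, 26, 49, 55, 22, 23, 24, 20, 43, 38, 39, 40, 32, 35, 44]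
  par := [0, 0, 1, 4, 7, 13, 20, 32]
  stars := [[0, 9], [1, 8, 34, 17], [2, 18], [3, 19], [4, 20, 42, 26], [5, 25, 48, 14], [6, 15, 29, 10], [7, 41, 53,
    33], [11, 30], [12, 31], [13, 32, 54, 35], [16, 28], [21, 37], [22, 36, 55, 45], [23, 46], [24, 47], [27, 43, 50,
    38], [39, 51], [40, 52], [44, 49]]
  word := [[], [], [], [], [], [2, 0, 3], [2, 0, 3, 1], [], [], [0, 2, 1, 3], [0], [0], [0], [], [2, 1, 3], [], [],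
    [], [], [], [], [2], [2, 0, 3], [2, 0, 3], [2, 0, 3], [], [], [2], [], [1], [1], [1], [], [], [], [0], [3], [3],
    [], [], [], [], [], [2], [2], [2, 1, 3], [2, 1, 3], [2, 1, 3], [], [3], [], [], [], [], [1], [3]]
  rank := [0, 0, 1, 2, 0, 9, 10, 0, 0, 10, 3, 2, 1, 0, 9, 2, 1, 0, 1, 2, 0, 5, 6, 7, 8, 0, 3, 4, 2, 3, 2, 1, 0, 0, 1,
    0, 5, 4, 3, 2, 1, 0, 3, 0, 1, 6, 7, 8, 0, 0, 3, 2, 1, 0, 0, 1]
  just := [0, 0, 2, 3, 0, 5, 6, 0, 0, 6, 8, 9, 10, 0, 5, 11, 1, 0, 2, 3, 0, 12, 13, 14, 15, 0, 4, 16, 11, 8, 9, 10,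
    0, 0, 1, 0, 12, 16, 17, 18, 7, 0, 4, 0, 19, 13, 14, 15, 0, 0, 17, 18, 7, 0, 0, 19]
  gA := 35
  gB := 43
  fin := 0
  sid := [0, 1, 2, 3, 4, 5, 6, 7, 1, 0, 6, 8, 9, 10, 5, 6, 11, 1, 2, 3, 4, 12, 13, 14, 15, 5, 4, 16, 11, 6, 8, 9, 10,
    7, 1, 10, 13, 12, 16, 17, 18, 7, 4, 16, 19, 13, 14, 15, 5, 19, 16, 17, 18, 7, 10, 13]
  off := [(0, 0), (0, 0), (0, 0), (0, 0), (0, 0), (0, 0), (0, 0), (0, 0), (0, 0), (0, 0), (0, 0), (0, 0), (0, 0), (0,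
    0), (-1, 0), (-1, 0), (0, 0), (0, 0), (0, 0), (0, 0), (0, 0), (0, 0), (0, 0), (0, 0), (0, 0), (0, 0), (0, 0), (0,
    0), (0, 0), (-1, 0), (-1, 0), (-1, 0), (-1, 0), (0, 0), (0, 0), (0, 0), (0, -1), (0, -1), (0, -1), (0, 0), (0,
    0), (0, 0), (0, 0), (0, 0), (0, 0), (-1, 0), (-1, 0), (-1, 0), (-1, 0), (0, -1), (0, -1), (0, 0), (0, 0), (0, 0),
    (-1, 0), (-1, -1)]

/-- glued arcs and equations -/
def tord7a_137 : TorT :=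
  ⟨[(0, 1, true), (0, 5, false), (1, 3, false), (2, 4, false), (2, 6, true), (3, 5, false), (4, 4, true), (6, 6,
    true)],
    [([0, 0, 0, 1, 0, 1, 0], 2), ([0, 0, 1, 0, 1, 0, 0], 2), ([0, 2, 0, 1, 0, 0, 1], 2), ([1, 0, 0, 0, 1, 1, 1], 2),
    ([1, 0, 1, 0, 0, 0, 0], 2)]⟩

theorem tord7a_137_ok : tord7a_137.OK 7 := TT.leaf_ok (T := ttd7a_137) (by decide +kernel)

end Pool.Agent.Lib_MP_fa6e45
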