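import Pool.Agent.Lib_MP_fa6e45.CT5

/-!
MP_fa6e45_co, stage 9: straight-side patterns with `7` sides, tables of tori (generated by a program).
-/

namespace Pool.Agent.Lib_MP_fa6e45

/-- the torus -/
def ttd7a_138 : TT where
  k := 4
  rf := [false, false, false, false]
  tau := [7, 14, 20, 12, 11, 10, 18, 0, 21, 27, 5, 4, 3, 25, 1, 24, 23, 22, 6, 26, 2, 8, 17, 16, 15, 13, 19, 9]
  par := [0, 0, 1, 8]
  stars := [[0, 18, 22, 8], [1, 7, 25, 15], [2, 14], [3, 20, 26, 13], [4, 12], [5, 11], [6, 10, 27, 19], [9, 21],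
    [16, 24], [17, 23]]
  word := [[], [], [], [0], [0], [0], [0, 3, 1], [], [], [], [1], [1], [1], [2], [], [2], [2], [2], [0, 2, 1], [0,
    2], [], [], [3], [3], [3], [3], [3, 1], []]
  rank := [0, 0, 1, 0, 1, 2, 3, 0, 0, 1, 2, 1, 0, 1, 0, 0, 1, 2, 3, 2, 1, 0, 2, 1, 0, 1, 2, 1]
  just := [0, 0, 2, 0, 4, 5, 6, 0, 0, 7, 5, 4, 0, 1, 0, 0, 8, 9, 6, 3, 2, 0, 9, 8, 0, 1, 3, 7]
  gA := 3
  gB := 15
  fin := 0
  sid := [0, 1, 2, 3, 4, 5, 6, 1, 0, 7, 6, 5, 4, 3, 2, 1, 8, 9, 0, 6, 3, 7, 0, 9, 8, 1, 3, 6]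
  off := [(0, 0), (0, 0), (0, 0), (0, 0), (0, 0), (0, 0), (0, 0), (0, 0), (0, 0), (0, 0), (-1, 0), (-1, 0), (-1, 0),
    (-1, 0), (0, 0), (0, 0), (0, 0), (0, 0), (0, 1), (0, 1), (0, 0), (0, 0), (0, 0), (0, -1), (0, -1), (0, -1), (-1,
    -1), (-1, 0)]

/-- glued arcs and equations -/
def tord7a_138 : TorT :=
  ⟨[(0, 0, true), (0, 1, true), (1, 3, true), (2, 2, true), (2, 6, true), (3, 5, true), (4, 4, true), (4, 6, true),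
    (5, 5, true)],
    [([0, 0, 0, 0, 1, 1, 0], 2), ([0, 0, 0, 1, 0, 1, 2], 2), ([0, 0, 1, 1, 0, 0, 0], 2), ([1, 0, 1, 0, 0, 0, 0], 2),
    ([1, 2, 0, 0, 1, 0, 0], 2)]⟩

theorem tord7a_138_ok : tord7a_138.OK 7 := TT.leaf_ok (T := ttd7a_138) (by decide +kernel)

/-- the torus -/
def ttd7a_139 : TT where
  k := 4
  rf := [false, false, true, true]
  tau := [7, 19, 20, 12, 11, 10, 25, 0, 26, 27, 5, 4, 3, 18, 17, 22, 23, 14, 13, 1, 2, 24, 15, 16, 21, 6, 8, 9]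
  par := [0, 0, 1, 6]
  stars := [[0, 26, 8], [1, 7, 19], [2, 20], [3, 14, 18, 13], [4, 12], [5, 11], [6, 10, 21, 25], [9, 27], [15, 23,
    17], [16, 24, 22]]
  word := [[], [], [], [0], [0], [0], [], [], [1, 3, 0, 2], [1, 3, 0, 2], [1], [1], [1], [], [0], [0, 2], [2], [1],
    [], [], [], [3, 1, 2], [3, 1], [3], [3, 0, 2], [], [3, 1, 2, 0], [3, 1, 2, 0]]
  rank := [0, 0, 1, 2, 3, 4, 0, 0, 6, 5, 4, 3, 2, 1, 0, 1, 0, 0, 1, 0, 1, 2, 1, 0, 2, 0, 6, 5]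
  just := [0, 0, 2, 3, 4, 5, 0, 0, 7, 6, 5, 4, 3, 1, 0, 8, 0, 0, 1, 0, 2, 9, 8, 0, 9, 0, 7, 6]
  gA := 14
  gB := 16
  fin := 0
  sid := [0, 1, 2, 3, 4, 5, 6, 1, 0, 7, 6, 5, 4, 3, 3, 8, 9, 8, 3, 1, 2, 6, 9, 8, 9, 6, 0, 7]
  off := [(0, 0), (0, 0), (0, 0), (0, 0), (0, 0), (0, 0), (0, 0), (0, 0), (0, 0), (0, 0), (-1, 0), (-1, 0), (-1, 0),
    (-1, 0), (0, 0), (0, 0), (0, 0), (-1, 0), (-1, 0), (0, 0), (0, 0), (-1, 0), (-1, -1), (-1, -1), (0, -1), (0, 0),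
    (0, 0), (0, 0)]

/-- glued arcs and equations -/
def tord7a_139 : TorT :=
  ⟨[(0, 0, true), (0, 3, true), (1, 1, true), (1, 5, false), (2, 2, true), (2, 6, false), (3, 5, true), (4, 4, true),
    (4, 6, false)],
    [([0, 0, 0, 0, 1, 1, 0], 2), ([0, 0, 1, 0, 0, 0, 1], 2), ([0, 1, 1, 1, 0, 0, 0], 2), ([1, 0, 0, 1, 1, 0, 1], 2),
    ([1, 1, 0, 0, 0, 1, 0], 2)]⟩

theorem tord7a_139_ok : tord7a_139.OK 7 := TT.leaf_ok (T := ttd7a_139) (by decide +kernel)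

/-- the torus -/
def ttd7a_140 : TT where
  k := 8
  rf := [false, false, true, false, true, false, true, true]
  tau := [10, 14, 11, 24, 27, 26, 25, 29, 19, 20, 0, 2, 15, 16, 1, 12, 13, 28, 30, 8, 9, 38, 42, 39, 3, 6, 5, 4, 17,
    7, 18, 52, 55, 54, 53, 50, 47, 48, 21, 23, 43, 44, 22, 40, 41, 49, 51, 36, 37, 45, 35, 46, 31, 34, 33, 32]
  par := [0, 0, 1, 3, 7, 21, 22, 31]
  stars := [[0, 25, 3, 11], [1, 10, 14], [2, 15, 12], [4, 24, 39, 21], [5, 27], [6, 26], [7, 17, 29], [8, 30, 19],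
    [9, 20], [13, 16], [18, 31, 53, 28], [22, 38, 42], [23, 43, 40], [32, 49, 46, 52], [33, 55], [34, 54], [35, 45,
    50], [36, 51, 47], [37, 48], [41, 44]]
  word := [[], [], [1, 2], [], [0, 3], [0, 3], [0, 3], [], [], [], [], [3, 0], [3, 0], [3, 0], [], [1, 2], [1, 2],
    [1, 2], [], [], [], [], [], [0, 3], [], [2, 1], [2, 1], [2, 1], [3, 0], [], [], [], [3, 0], [3, 0], [3, 0], [2],
    [], [], [], [2, 1], [2, 1], [2, 1], [], [0, 3], [0, 3], [0], [2], [], [], [1], [3], [3], [], [1, 2], [1, 2], [1,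
    2]]
  rank := [0, 0, 7, 0, 7, 8, 9, 0, 2, 1, 0, 7, 6, 5, 0, 6, 5, 4, 3, 2, 1, 0, 0, 6, 0, 9, 8, 7, 4, 0, 3, 0, 1, 2, 3,
    3, 2, 1, 0, 6, 5, 4, 0, 5, 4, 0, 0, 2, 1, 0, 3, 0, 0, 3, 2, 1]
  just := [0, 0, 2, 0, 3, 4, 5, 0, 8, 1, 0, 2, 9, 6, 0, 9, 6, 10, 7, 8, 1, 0, 0, 12, 0, 5, 4, 3, 10, 0, 7, 0, 13, 14,
    15, 17, 18, 11, 0, 12, 19, 16, 0, 19, 16, 0, 0, 18, 11, 0, 17, 0, 0, 15, 14, 13]
  gA := 45
  gB := 46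
  fin := 0
  sid := [0, 1, 2, 0, 3, 4, 5, 6, 7, 8, 1, 0, 2, 9, 1, 2, 9, 6, 10, 7, 8, 3, 11, 12, 3, 0, 5, 4, 10, 6, 7, 10, 13,
    14, 15, 16, 17, 18, 11, 3, 12, 19, 11, 12, 19, 16, 13, 17, 18, 13, 16, 17, 13, 10, 15, 14]
  off := [(0, 0), (0, 0), (0, 0), (-1, 1), (0, 0), (0, 0), (0, 0), (0, 0), (0, 0), (0, 0), (0, 0), (0, 0), (1, -1),
    (0, 0), (0, 0), (0, 0), (-1, 1), (-1, 1), (0, 0), (0, 0), (0, 0), (-1, 1), (0, 0), (0, 0), (0, 0), (-1, 1), (-1,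
    1), (-1, 1), (1, -1), (0, 0), (0, 0), (0, 0), (0, 0), (0, 0), (0, 0), (0, 0), (0, 0), (0, 0), (0, 0), (-1, 1),
    (-1, 1), (0, 0), (0, 0), (0, 0), (1, -1), (1, -1), (0, 1), (0, 0), (0, 0), (-1, 1), (0, -1), (0, -1), (0, 0), (0,
    0), (-1, 1), (-1, 1)]

/-- glued arcs and equations -/
def tord7a_140 : TorT :=
  ⟨[(0, 1, false), (0, 3, true), (1, 5, false), (2, 4, true), (2, 6, false), (3, 3, true), (4, 6, true), (5, 5,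
    true)],
    [([0, 0, 0, 0, 0, 1, 1], 2), ([0, 0, 1, 0, 0, 0, 1], 2), ([0, 1, 1, 0, 0, 1, 0], 2), ([1, 0, 0, 1, 2, 0, 0], 2),
    ([1, 1, 0, 1, 0, 0, 0], 2)]⟩

theorem tord7a_140_ok : tord7a_140.OK 7 := TT.leaf_ok (T := ttd7a_140) (by decide +kernel)

/-- the torus -/
def ttd7a_141 : TT where
  k := 4
  rf := [false, false, true, true]
  tau := [7, 14, 9, 22, 23, 24, 25, 0, 21, 2, 15, 16, 17, 18, 1, 10, 11, 12, 13, 26, 27, 8, 3, 4, 5, 6, 19, 20]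
  par := [0, 0, 1, 3]
  stars := [[0, 26, 20, 21, 8], [1, 7, 19, 27, 14], [2, 15, 10], [3, 9, 22], [4, 23], [5, 24], [6, 25], [11, 16],
    [12, 17], [13, 18]]
  word := [[], [], [1], [], [], [], [], [], [0], [0], [0], [0], [0], [0], [], [1], [1], [1], [1], [1, 2], [2], [1],
    [], [], [], [], [3, 0], [3]]
  rank := [0, 0, 2, 0, 1, 2, 3, 0, 3, 2, 1, 0, 1, 2, 0, 1, 0, 1, 2, 3, 0, 3, 0, 1, 2, 3, 3, 0]
  just := [0, 0, 2, 0, 4, 5, 6, 0, 3, 2, 7, 0, 8, 9, 0, 7, 0, 8, 9, 1, 0, 3, 0, 4, 5, 6, 1, 0]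
  gA := 11
  gB := 20
  fin := 0
  sid := [0, 1, 2, 3, 4, 5, 6, 1, 0, 3, 2, 7, 8, 9, 1, 2, 7, 8, 9, 1, 0, 0, 3, 4, 5, 6, 0, 1]
  off := [(0, 0), (0, 0), (0, 0), (0, 0), (0, 0), (0, 0), (0, 0), (0, 0), (0, 0), (1, 0), (1, 0), (0, 0), (0, 0), (0,
    0), (0, 0), (0, 0), (-1, 0), (-1, 0), (-1, 0), (-1, 0), (-1, 1), (-1, 0), (0, 0), (0, 0), (0, 0), (0, 0), (0, 0),
    (0, -1)]

/-- glued arcs and equations -/
def tord7a_141 : TorT :=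
  ⟨[(0, 0, true), (0, 1, false), (1, 3, false), (2, 2, true), (2, 4, false), (3, 5, false), (4, 6, false), (5, 5,
    true), (6, 6, true)],
    [([0, 0, 0, 0, 1, 0, 1], 2), ([0, 0, 0, 1, 0, 1, 0], 2), ([0, 0, 1, 0, 1, 0, 0], 2), ([0, 1, 1, 1, 0, 0, 0], 2),
    ([2, 1, 0, 0, 0, 1, 1], 2)]⟩

theorem tord7a_141_ok : tord7a_141.OK 7 := TT.leaf_ok (T := ttd7a_141) (by decide +kernel)

/-- the torus -/
def ttd7a_142 : TT where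
  k := 8
  rf := [false, false, false, true, true, false, true, true]
  tau := [10, 15, 18, 17, 16, 21, 11, 33, 26, 27, 0, 6, 22, 23, 38, 1, 4, 3, 2, 42, 39, 5, 12, 13, 28, 34, 8, 9, 24,
    50, 53, 52, 51, 7, 25, 54, 47, 48, 14, 20, 43, 44, 19, 40, 41, 49, 55, 36, 37, 45, 29, 32, 31, 30, 35, 46]
  par := [0, 0, 1, 5, 7, 14, 19, 29]
  stars := [[0, 11], [1, 10, 21, 5, 16], [2, 15, 38, 42, 19], [3, 18], [4, 17], [6, 22, 12], [7, 24, 29, 51, 33], [8,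
    34, 26], [9, 27], [13, 23], [14, 39], [20, 43, 40], [25, 28], [30, 54, 35, 45, 50], [31, 53], [32, 52], [36, 55,
    47], [37, 48], [41, 44], [46, 49]]
  word := [[], [], [0], [0], [0], [], [0, 3, 1, 2], [], [1], [1], [], [3, 0, 2, 1], [3, 0, 2, 1], [3, 0, 2, 1], [],
    [], [1], [1], [1], [], [], [], [0, 3, 1, 2], [0, 3, 1, 2], [0], [0], [0], [0], [1], [], [3, 0, 2], [3, 0, 2], [3,
    0, 2], [], [1], [0, 2], [0], [0], [], [], [], [], [], [], [], [2], [2], [1], [1], [3], [], [3, 1, 2], [3, 1, 2],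
    [3, 1, 2], [3, 1], [3]]
  rank := [0, 0, 0, 1, 2, 0, 9, 0, 4, 3, 0, 9, 8, 7, 0, 0, 2, 1, 0, 0, 1, 0, 8, 7, 6, 5, 4, 3, 6, 0, 4, 5, 6, 0, 5,
    3, 2, 1, 0, 1, 2, 3, 0, 2, 3, 1, 0, 2, 1, 1, 0, 6, 5, 4, 3, 0]
  just := [0, 0, 0, 3, 4, 0, 5, 0, 8, 1, 0, 5, 9, 6, 0, 0, 4, 3, 0, 0, 10, 0, 9, 6, 12, 7, 8, 1, 12, 0, 13, 14, 15,
    0, 7, 16, 17, 2, 0, 10, 11, 18, 0, 11, 18, 19, 0, 17, 2, 19, 0, 15, 14, 13, 16, 0]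
  gA := 2
  gB := 46
  fin := 0
  sid := [0, 1, 2, 3, 4, 1, 5, 6, 7, 8, 1, 0, 5, 9, 10, 2, 1, 4, 3, 2, 11, 1, 5, 9, 6, 12, 7, 8, 12, 6, 13, 14, 15,
    6, 7, 13, 16, 17, 2, 10, 11, 18, 2, 11, 18, 13, 19, 16, 17, 19, 13, 6, 15, 14, 13, 16]
  off := [(0, 0), (0, 0), (0, 0), (0, 0), (0, 0), (1, 0), (0, 0), (0, 0), (0, 0), (0, 0), (0, 0), (0, 0), (0, 0), (0,
    0), (0, 0), (0, 0), (0, 0), (-1, 0), (-1, 0), (-1, 0), (0, 0), (1, 0), (0, 0), (0, 0), (0, 0), (0, 0), (1, 0),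
    (1, 0), (-1, 0), (-1, 0), (0, 0), (0, 0), (0, 0), (0, 0), (0, 0), (0, 1), (0, 0), (0, 0), (0, 0), (0, 0), (0, 0),
    (0, 0), (-1, 0), (0, 0), (0, 0), (0, 1), (0, 0), (-1, 0), (-1, 0), (0, -1), (0, 0), (-1, 0), (-1, 0), (-1, 0),
    (-1, 0), (-1, -1)]

/-- glued arcs and equations -/
def tord7a_142 : TorT :=
  ⟨[(0, 3, true), (0, 5, false), (1, 1, true), (1, 5, false), (2, 4, true), (2, 6, false), (3, 3, true), (4, 6,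
    true)],
    [([0, 0, 0, 1, 1, 0, 0], 2), ([0, 0, 1, 0, 0, 0, 1], 2), ([0, 1, 0, 0, 0, 1, 1], 2), ([1, 0, 0, 0, 1, 0, 0], 2),
    ([1, 1, 1, 1, 0, 1, 0], 2)]⟩

theorem tord7a_142_ok : tord7a_142.OK 7 := TT.leaf_ok (T := ttd7a_142) (by decide +kernel)

/-- the torus -/
def ttd7a_143 : TT where
  k := 4
  rf := [false, false, true, true]
  tau := [7, 5, 18, 19, 20, 1, 13, 0, 12, 25, 26, 27, 8, 6, 17, 22, 23, 14, 2, 3, 4, 24, 15, 16, 21, 9, 10, 11]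
  par := [0, 0, 2, 9]
  stars := [[0, 13, 8], [1, 7, 6], [2, 5, 14, 18], [3, 19], [4, 20], [9, 12, 21, 25], [10, 26], [11, 27], [15, 23,
    17], [16, 24, 22]]
  word := [[], [2, 1], [], [], [], [0, 3], [0, 3], [], [3, 0], [], [], [], [1, 2], [2, 1], [0, 3], [0], [2], [2, 1],
    [], [], [], [1, 2], [1], [3], [3, 0], [], [], []]
  rank := [0, 3, 0, 1, 2, 3, 4, 0, 3, 0, 1, 2, 3, 4, 1, 0, 0, 1, 0, 1, 2, 1, 0, 0, 1, 0, 1, 2]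
  just := [0, 2, 0, 3, 4, 2, 1, 0, 5, 0, 6, 7, 5, 1, 8, 0, 0, 8, 0, 3, 4, 9, 0, 0, 9, 0, 6, 7]
  gA := 15
  gB := 16
  fin := 0
  sid := [0, 1, 2, 3, 4, 2, 1, 1, 0, 5, 6, 7, 5, 0, 2, 8, 9, 8, 2, 3, 4, 5, 9, 8, 9, 5, 6, 7]
  off := [(0, 0), (0, 0), (0, 0), (0, 0), (0, 0), (1, -1), (1, -1), (0, 0), (0, 0), (0, 0), (0, 0), (0, 0), (-1, 1),
    (-1, 1), (1, -1), (0, 0), (0, 0), (-1, 1), (0, 0), (0, 0), (0, 0), (-1, 1), (-1, 0), (-1, 0), (0, -1), (0, 0),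
    (0, 0), (0, 0)]

/-- glued arcs and equations -/
def tord7a_143 : TorT :=
  ⟨[(0, 0, true), (0, 3, true), (1, 1, true), (1, 5, true), (2, 2, true), (2, 4, false), (3, 5, false), (4, 6,
    false), (6, 6, true)],
    [([0, 0, 0, 0, 1, 0, 1], 2), ([0, 0, 0, 1, 0, 1, 0], 2), ([0, 1, 1, 1, 0, 0, 0], 2), ([1, 0, 1, 0, 1, 1, 0], 2),
    ([1, 1, 0, 0, 0, 0, 1], 2)]⟩

theorem tord7a_143_ok : tord7a_143.OK 7 := TT.leaf_ok (T := ttd7a_143) (by decide +kernel)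

end Pool.Agent.Lib_MP_fa6e45
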