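import Pool.Agent.Lib_MP_fa6e45.CT5

/-!
MP_fa6e45_co, stage 9: straight-side patterns with `7` sides, tables of tori (generated by a program).
-/

namespace Pool.Agent.Lib_MP_fa6e45

/-- the torus -/
def ttd7a_144 : TT where
  k := 8
  rf := [false, false, false, true, false, true, true, true]
  tau := [7, 17, 11, 10, 9, 21, 32, 0, 31, 4, 3, 2, 35, 18, 47, 40, 41, 1, 13, 36, 37, 5, 33, 34, 43, 55, 29, 30, 54,
    26, 27, 8, 6, 22, 23, 12, 19, 20, 50, 48, 15, 16, 49, 24, 53, 52, 51, 14, 39, 42, 38, 46, 45, 44, 28, 25]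
  par := [0, 0, 1, 5, 6, 12, 14, 25]
  stars := [[0, 32, 8], [1, 7, 18], [2, 17, 35, 12], [3, 11], [4, 10], [5, 9, 31, 21], [6, 22, 33], [13, 36, 19],
    [14, 38, 51, 47], [15, 48, 40], [16, 41], [20, 37], [23, 34], [24, 44, 54, 28], [25, 49, 43], [26, 29, 55], [27,
    30], [39, 42, 50], [45, 53], [46, 52]]
  word := [[], [], [1], [1], [1], [], [], [], [0, 3, 1, 2], [0], [0], [0], [], [], [], [1], [1], [], [], [], [], [],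
    [], [], [3, 0], [], [3, 1, 2], [3, 1, 2], [3, 0, 2], [3, 0, 2], [3, 0, 2], [3, 0, 2, 1], [], [], [], [], [], [],
    [2], [0], [0], [0], [1, 2], [1, 2], [2], [2], [2], [], [1], [3, 0], [3], [3], [3], [3], [3, 1, 2], []]
  rank := [0, 0, 3, 4, 5, 0, 0, 0, 10, 5, 4, 3, 0, 1, 0, 1, 2, 0, 1, 2, 3, 0, 1, 2, 6, 0, 8, 9, 7, 8, 9, 10, 0, 1, 2,
    0, 2, 3, 4, 0, 1, 2, 5, 6, 2, 1, 0, 0, 0, 5, 4, 0, 1, 2, 7, 0]
  just := [0, 0, 2, 3, 4, 0, 0, 0, 5, 4, 3, 2, 0, 1, 0, 9, 10, 0, 1, 7, 11, 0, 6, 12, 14, 0, 15, 16, 13, 15, 16, 5,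
    0, 6, 12, 0, 7, 11, 8, 0, 9, 10, 17, 14, 18, 19, 0, 0, 0, 17, 8, 0, 19, 18, 13, 0]
  gA := 39
  gB := 46
  fin := 0
  sid := [0, 1, 2, 3, 4, 5, 6, 1, 0, 5, 4, 3, 2, 7, 8, 9, 10, 2, 1, 7, 11, 5, 6, 12, 13, 14, 15, 16, 13, 15, 16, 5,
    0, 6, 12, 2, 7, 11, 8, 17, 9, 10, 17, 14, 13, 18, 19, 8, 9, 14, 17, 8, 19, 18, 13, 15]
  off := [(0, 0), (0, 0), (0, 0), (0, 0), (0, 0), (0, 0), (0, 0), (0, 0), (0, 0), (1, 0), (1, 0), (1, 0), (1, 0), (0,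
    0), (0, 0), (0, 0), (0, 0), (0, 0), (0, 0), (0, 0), (0, 0), (0, 0), (0, 0), (0, 0), (0, 0), (0, 0), (0, 0), (0,
    0), (0, 0), (1, 0), (1, 0), (1, 0), (0, 0), (0, 0), (0, 0), (1, 0), (0, 0), (0, 0), (0, 0), (0, 0), (1, 0), (1,
    0), (-1, 0), (-1, 1), (-1, 1), (0, 0), (0, 0), (0, 0), (0, 0), (0, 0), (0, -1), (0, -1), (0, -1), (0, -1), (-1,
    0), (0, 0)]

/-- glued arcs and equations -/
def tord7a_144 : TorT :=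
  ⟨[(0, 0, true), (0, 5, false), (1, 3, true), (1, 5, false), (2, 4, true), (2, 6, false), (3, 3, true), (4, 6,
    true)],
    [([0, 0, 0, 1, 1, 0, 0], 2), ([0, 0, 1, 0, 0, 0, 1], 2), ([0, 1, 0, 0, 0, 1, 1], 2), ([1, 0, 1, 1, 0, 1, 0], 2),
    ([1, 1, 0, 0, 1, 0, 0], 2)]⟩

theorem tord7a_144_ok : tord7a_144.OK 7 := TT.leaf_ok (T := ttd7a_144) (by decide +kernel)

/-- the torus -/
def ttd7a_145 : TT where
  k := 4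
  rf := [false, false, false, false]
  tau := [7, 14, 20, 19, 16, 15, 13, 0, 21, 27, 26, 23, 22, 6, 1, 5, 4, 24, 25, 3, 2, 8, 12, 11, 17, 18, 10, 9]
  par := [0, 0, 1, 8]
  stars := [[0, 13, 22, 8], [1, 7, 6, 15], [2, 14], [3, 20], [4, 19, 25, 17], [5, 16], [9, 21], [10, 27], [11, 26,
    18, 24], [12, 23]]
  word := [[], [], [], [], [2, 1], [2, 1], [2, 1], [], [], [], [], [3, 0], [3, 0], [0, 3], [], [0, 3], [0, 3], [0],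
    [2], [], [], [], [1, 2], [1, 2], [1], [3], [], []]
  rank := [0, 0, 1, 2, 3, 4, 5, 0, 0, 1, 2, 3, 4, 5, 0, 4, 3, 0, 0, 2, 1, 0, 4, 3, 0, 0, 2, 1]
  just := [0, 0, 2, 3, 4, 5, 1, 0, 0, 6, 7, 8, 9, 1, 0, 5, 4, 0, 0, 3, 2, 0, 9, 8, 0, 0, 7, 6]
  gA := 17
  gB := 18
  fin := 0
  sid := [0, 1, 2, 3, 4, 5, 1, 1, 0, 6, 7, 8, 9, 0, 2, 1, 5, 4, 8, 4, 3, 6, 0, 9, 8, 4, 8, 7]
  off := [(0, 0), (0, 0), (0, 0), (0, 0), (0, 0), (0, 0), (-1, 1), (0, 0), (0, 0), (0, 0), (0, 0), (0, 0), (0, 0),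
    (1, -1), (0, 0), (0, 0), (1, -1), (1, -1), (0, 1), (0, 0), (0, 0), (0, 0), (0, 0), (-1, 1), (-1, 1), (0, -1), (0,
    0), (0, 0)]

/-- glued arcs and equations -/
def tord7a_145 : TorT :=
  ⟨[(0, 0, true), (0, 1, true), (1, 5, true), (2, 4, true), (2, 6, true), (3, 3, true), (3, 5, true), (4, 4, true),
    (6, 6, true)],
    [([0, 0, 0, 1, 0, 0, 1], 2), ([0, 0, 0, 1, 2, 1, 0], 2), ([0, 0, 1, 0, 0, 1, 0], 2), ([1, 0, 1, 0, 0, 0, 0], 2),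
    ([1, 2, 0, 0, 0, 0, 1], 2)]⟩

theorem tord7a_145_ok : tord7a_145.OK 7 := TT.leaf_ok (T := ttd7a_145) (by decide +kernel)

/-- the torus -/
def ttd7a_146 : TT where
  k := 2
  rf := [false, true]
  tau := [3, 7, 13, 0, 6, 10, 4, 1, 12, 11, 5, 9, 8, 2]
  par := [0, 1]
  stars := [[0, 4], [1, 3, 7], [2, 8, 13], [5, 6, 11, 10], [9, 12]]
  word := [[3], [], [2], [2], [0, 2, 1], [0], [0, 3, 1], [], [2], [2], [1], [3], [3], [3]]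
  rank := [2, 0, 1, 2, 2, 0, 2, 0, 0, 1, 0, 1, 0, 1]
  just := [1, 0, 2, 1, 3, 0, 3, 0, 0, 4, 0, 4, 0, 2]
  gA := 5
  gB := 8
  fin := 0
  sid := [0, 1, 2, 1, 0, 3, 3, 1, 2, 4, 3, 3, 4, 2]
  off := [(0, 0), (0, 0), (0, 0), (0, 1), (0, 1), (0, 0), (0, -1), (0, 0), (0, 0), (0, 0), (-1, 0), (-1, -1), (0,
    -1), (0, -1)]

/-- glued arcs and equations -/
def tord7a_146 : TorT :=
  ⟨[(0, 1, false), (0, 3, true), (1, 5, true), (2, 4, true), (2, 6, false), (3, 5, false), (4, 6, true)],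
    [([0, 0, 0, 1, 1, 1, 1], 2), ([0, 0, 1, 0, 0, 1, 0], 2), ([0, 1, 1, 0, 0, 0, 1], 2), ([1, 0, 0, 0, 1, 0, 0], 2),
    ([1, 1, 0, 1, 0, 0, 0], 2)]⟩

theorem tord7a_146_ok : tord7a_146.OK 7 := TT.leaf_ok (T := ttd7a_146) (by decide +kernel)

/-- the torus -/
def ttd7a_147 : TT where
  k := 8
  rf := [false, false, false, false, true, true, true, true]
  tau := [7, 8, 6, 14, 16, 15, 2, 0, 1, 13, 21, 23, 22, 9, 3, 5, 4, 33, 34, 31, 32, 10, 12, 11, 40, 41, 38, 39, 45,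
    47, 46, 19, 20, 17, 18, 52, 54, 53, 26, 27, 24, 25, 49, 50, 48, 28, 30, 29, 44, 42, 43, 55, 35, 37, 36, 51]
  par := [0, 0, 3, 10, 17, 24, 28, 35]
  stars := [[0, 2, 8], [1, 7, 9], [3, 6, 15], [4, 14, 33, 17], [5, 16], [10, 13, 22], [11, 21, 40, 24], [12, 23],
    [18, 34], [19, 28, 46, 31], [20, 32], [25, 41], [26, 35, 53, 38], [27, 39], [29, 48, 45], [30, 47], [36, 55, 52],
    [37, 54], [42, 50, 44], [43, 51, 49]]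
  word := [[], [1, 2], [2, 1], [], [0, 3], [0, 3], [0, 3], [], [3, 0], [3, 0], [], [1, 2], [1, 2], [1, 2], [], [2,
    1], [2, 1], [], [], [0, 3], [0, 3], [], [3, 0], [3, 0], [], [], [1, 2], [1, 2], [], [2, 1], [2, 1], [2, 1], [2,
    1], [], [], [], [3, 0], [3, 0], [3, 0], [3, 0], [], [], [0], [2], [2, 1], [], [0, 3], [0, 3], [0, 3], [1], [3],
    [3, 0], [], [1, 2], [1, 2], [1, 2]]
  rank := [0, 9, 8, 0, 6, 7, 8, 0, 9, 8, 0, 6, 7, 8, 0, 7, 6, 0, 1, 4, 5, 0, 7, 6, 0, 1, 4, 5, 0, 2, 3, 4, 5, 0, 1,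
    0, 2, 3, 4, 5, 0, 1, 0, 0, 1, 0, 3, 2, 1, 0, 0, 1, 0, 3, 2, 1]
  just := [0, 1, 2, 0, 3, 4, 2, 0, 1, 5, 0, 6, 7, 5, 0, 4, 3, 0, 8, 9, 10, 0, 7, 6, 0, 11, 12, 13, 0, 14, 15, 9, 10,
    0, 8, 0, 16, 17, 12, 13, 0, 11, 0, 0, 18, 0, 15, 14, 18, 0, 0, 19, 0, 17, 16, 19]
  gA := 42
  gB := 43
  fin := 0
  sid := [0, 1, 0, 2, 3, 4, 2, 1, 0, 1, 5, 6, 7, 5, 3, 2, 4, 3, 8, 9, 10, 6, 5, 7, 6, 11, 12, 13, 9, 14, 15, 9, 10,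
    3, 8, 12, 16, 17, 12, 13, 6, 11, 18, 19, 18, 14, 9, 15, 14, 19, 18, 19, 16, 12, 17, 16]
  off := [(0, 0), (0, 0), (-1, 1), (0, 0), (0, 0), (0, 0), (1, -1), (0, 0), (0, 0), (1, -1), (0, 0), (0, 0), (0, 0),
    (-1, 1), (0, 0), (0, 0), (-1, 1), (-1, 1), (0, 0), (0, 0), (0, 0), (0, 0), (0, 0), (1, -1), (1, -1), (0, 0), (0,
    0), (0, 0), (0, 0), (0, 0), (0, 0), (-1, 1), (-1, 1), (-1, 1), (0, 0), (0, 0), (0, 0), (0, 0), (1, -1), (1, -1),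
    (1, -1), (0, 0), (0, 0), (0, 0), (-1, 1), (0, 0), (0, 0), (1, -1), (1, -1), (-1, 0), (-1, 0), (0, -1), (0, 0),
    (0, 0), (-1, 1), (-1, 1)]

/-- glued arcs and equations -/
def tord7a_147 : TorT :=
  ⟨[(0, 0, true), (0, 3, true), (1, 1, true), (1, 5, true), (2, 4, true), (2, 6, true), (3, 5, false), (4, 6, false)],
    [([0, 0, 0, 0, 1, 0, 1], 2), ([0, 0, 1, 0, 0, 1, 0], 2), ([0, 1, 0, 1, 0, 0, 1], 2), ([1, 0, 0, 1, 1, 1, 0], 2),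
    ([1, 1, 1, 0, 0, 0, 0], 2)]⟩

theorem tord7a_147_ok : tord7a_147.OK 7 := TT.leaf_ok (T := ttd7a_147) (by decide +kernel)

/-- the torus -/
def ttd7a_148 : TT where
  k := 8
  rf := [false, false, false, false, true, true, true, true]
  tau := [12, 14, 20, 15, 11, 7, 13, 5, 21, 27, 22, 4, 0, 6, 1, 3, 32, 33, 30, 31, 2, 8, 10, 39, 40, 37, 38, 9, 43,
    45, 18, 19, 16, 17, 44, 50, 52, 25, 26, 23, 24, 51, 54, 28, 34, 29, 53, 49, 55, 47, 35, 41, 36, 46, 42, 48]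
  par := [0, 0, 1, 8, 16, 23, 28, 35]
  stars := [[0, 13], [1, 12, 4, 15], [2, 14], [3, 20, 32, 16], [5, 11, 22, 8], [6, 7], [9, 21], [10, 27, 39, 23],
    [17, 33], [18, 34, 45, 30], [19, 31], [24, 40], [25, 41, 52, 37], [26, 38], [28, 44], [29, 46, 54, 43], [35, 51],
    [36, 53, 47, 50], [42, 55], [48, 49]]
  word := [[], [], [], [0, 3], [0, 3], [0, 3, 1, 2], [0, 3, 1, 2], [3, 0, 2, 1], [], [], [1, 2], [2, 1], [], [3, 0,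
    2, 1], [], [2, 1], [], [], [0, 3], [0, 3], [], [], [3, 0], [], [], [1, 2], [1, 2], [], [], [2, 1], [2, 1], [2,
    1], [], [], [], [], [3, 0], [3, 0], [3, 0], [], [], [], [2], [], [], [0, 3], [0], [2], [2], [3], [], [], [1, 2],
    [1], [3], [3]]
  rank := [0, 0, 1, 5, 6, 7, 8, 7, 0, 1, 5, 6, 0, 8, 0, 5, 0, 1, 3, 4, 1, 0, 5, 0, 1, 3, 4, 1, 0, 2, 3, 4, 0, 1, 1,
    0, 2, 3, 4, 0, 1, 1, 1, 0, 1, 2, 0, 1, 0, 1, 0, 1, 2, 0, 1, 0]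
  just := [0, 0, 2, 3, 1, 4, 5, 4, 0, 6, 7, 1, 0, 5, 0, 3, 0, 8, 9, 10, 2, 0, 7, 0, 11, 12, 13, 6, 0, 15, 9, 10, 0,
    8, 14, 0, 17, 12, 13, 0, 11, 16, 18, 0, 14, 15, 0, 19, 0, 19, 0, 16, 17, 0, 18, 0]
  gA := 46
  gB := 48
  fin := 0
  sid := [0, 1, 2, 3, 1, 4, 5, 5, 4, 6, 7, 4, 1, 0, 2, 1, 3, 8, 9, 10, 3, 6, 4, 7, 11, 12, 13, 7, 14, 15, 9, 10, 3,
    8, 9, 16, 17, 12, 13, 7, 11, 12, 18, 15, 14, 9, 15, 17, 19, 19, 17, 16, 12, 17, 15, 18]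
  off := [(0, 0), (0, 0), (0, 0), (0, 0), (1, -1), (0, 0), (0, 0), (0, 0), (0, 0), (0, 0), (0, 0), (-1, 1), (0, 0),
    (0, 0), (0, 0), (0, 0), (-1, 1), (0, 0), (0, 0), (0, 0), (0, 0), (0, 0), (0, 0), (1, -1), (0, 0), (0, 0), (0, 0),
    (0, 0), (0, 0), (0, 0), (-1, 1), (-1, 1), (-1, 1), (0, 0), (0, 0), (0, 0), (0, 0), (1, -1), (1, -1), (1, -1), (0,
    0), (0, 0), (0, 0), (0, 0), (0, 0), (0, 0), (1, -1), (0, 1), (0, 0), (0, -1), (0, 0), (0, 0), (0, 0), (-1, 1),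
    (0, -1), (0, -1)]

/-- glued arcs and equations -/
def tord7a_148 : TorT :=
  ⟨[(0, 1, true), (0, 5, true), (1, 3, true), (2, 4, false), (2, 6, true), (3, 5, false), (4, 4, true), (6, 6, true)],
    [([0, 0, 0, 1, 0, 1, 0], 2), ([0, 0, 1, 1, 1, 0, 1], 2), ([0, 2, 0, 0, 1, 1, 0], 2), ([1, 0, 0, 0, 0, 0, 1], 2),
    ([1, 0, 1, 0, 0, 0, 0], 2)]⟩

theorem tord7a_148_ok : tord7a_148.OK 7 := TT.leaf_ok (T := ttd7a_148) (by decide +kernel)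

/-- the torus -/
def ttd7a_149 : TT where
  k := 4
  rf := [false, false, false, false]
  tau := [7, 17, 9, 10, 16, 15, 25, 0, 24, 2, 3, 23, 22, 18, 26, 5, 4, 1, 13, 21, 27, 19, 12, 11, 8, 6, 14, 20]
  par := [0, 0, 1, 6]
  stars := [[0, 25, 8], [1, 7, 18], [2, 17, 4, 10], [3, 9, 24, 11], [5, 16], [6, 15, 26], [12, 23], [13, 22, 19],
    [14, 27], [20, 21]]
  word := [[], [], [2, 0], [0], [3], [3], [], [], [1, 3, 0, 2], [1, 3], [1], [2], [2], [], [2], [2], [2], [], [],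
    [2], [2], [3], [3], [3], [3, 1, 2, 0], [], [3], [3]]
  rank := [0, 0, 4, 0, 3, 2, 0, 0, 5, 4, 0, 3, 2, 1, 1, 2, 3, 0, 1, 1, 0, 1, 2, 3, 5, 0, 1, 0]
  just := [0, 0, 2, 0, 4, 5, 0, 0, 3, 2, 0, 6, 7, 1, 8, 5, 4, 0, 1, 9, 0, 9, 7, 6, 3, 0, 8, 0]
  gA := 3
  gB := 20
  fin := 0
  sid := [0, 1, 2, 3, 2, 4, 5, 1, 0, 3, 2, 3, 6, 7, 8, 5, 4, 2, 1, 7, 9, 9, 7, 6, 3, 0, 5, 8]
  off := [(0, 0), (0, 0), (0, 0), (0, 0), (0, -1), (0, 0), (0, 0), (0, 0), (0, 0), (-1, -1), (-1, -1), (-1, 0), (0,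
    0), (0, 0), (0, 0), (0, 1), (0, 1), (0, 0), (0, 0), (0, 0), (0, 0), (0, -1), (0, -1), (0, -1), (-1, -1), (0, 0),
    (0, 0), (0, -1)]

/-- glued arcs and equations -/
def tord7a_149 : TorT :=
  ⟨[(0, 0, true), (0, 5, true), (1, 3, true), (1, 5, true), (2, 2, true), (2, 4, true), (3, 3, true), (4, 6, true),
    (6, 6, true)],
    [([0, 0, 1, 0, 0, 1, 0], 2), ([0, 0, 1, 2, 1, 0, 0], 2), ([0, 1, 0, 0, 0, 1, 1], 2), ([1, 0, 0, 0, 0, 0, 1], 2),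
    ([1, 1, 0, 0, 1, 0, 0], 2)]⟩

theorem tord7a_149_ok : tord7a_149.OK 7 := TT.leaf_ok (T := ttd7a_149) (by decide +kernel)

end Pool.Agent.Lib_MP_fa6e45
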