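import Pool.Agent.Lib_MP_fa6e45.CT5

/-!
MP_fa6e45_co, stage 9: straight-side patterns with `7` sides, tables of tori (generated by a program).
-/

namespace Pool.Agent.Lib_MP_fa6e45

/-- the torus -/
def ttd7a_162 : TT where
  k := 2
  rf := [false, true]
  tau := [3, 7, 13, 0, 9, 10, 11, 1, 12, 4, 5, 6, 8, 2]
  par := [0, 1]
  stars := [[0, 12, 9, 4], [1, 3, 7], [2, 8, 13], [5, 10], [6, 11]]
  word := [[1], [], [0], [0], [2], [2], [2], [], [0], [3], [3], [3], [1], [1]]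
  rank := [1, 0, 0, 1, 1, 0, 1, 0, 1, 1, 0, 1, 1, 0]
  just := [1, 0, 0, 1, 3, 0, 4, 0, 2, 3, 0, 4, 2, 0]
  gA := 2
  gB := 5
  fin := 0
  sid := [0, 1, 2, 1, 0, 3, 4, 1, 2, 0, 3, 4, 0, 2]
  off := [(0, 0), (0, 0), (0, 0), (1, 0), (1, 0), (0, 0), (0, 0), (0, 0), (0, 0), (1, -1), (0, -1), (0, -1), (0, -1),
    (-1, 0)]

/-- glued arcs and equations -/
def tord7a_162 : TorT :=
  ⟨[(0, 1, false), (0, 3, true), (1, 5, true), (2, 4, false), (2, 6, false), (3, 5, false), (4, 6, false)],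
    [([0, 0, 0, 0, 1, 0, 1], 2), ([0, 0, 0, 1, 0, 1, 0], 2), ([0, 1, 1, 0, 0, 0, 1], 2), ([1, 0, 1, 0, 1, 1, 0], 2),
    ([1, 1, 0, 1, 0, 0, 0], 2)]⟩

theorem tord7a_162_ok : tord7a_162.OK 7 := TT.leaf_ok (T := ttd7a_162) (by decide +kernel)

/-- the torus -/
def ttd7a_163 : TT where
  k := 8
  rf := [false, false, false, true, true, true, false, true]
  tau := [8, 15, 25, 28, 23, 10, 9, 38, 0, 6, 5, 48, 47, 46, 43, 1, 39, 49, 37, 45, 44, 50, 36, 4, 42, 2, 52, 51, 3,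
    35, 41, 40, 55, 54, 53, 29, 22, 18, 7, 16, 31, 30, 24, 14, 20, 19, 13, 12, 11, 17, 21, 27, 26, 34, 33, 32]
  par := [0, 0, 1, 2, 3, 7, 11, 17]
  stars := [[0, 9], [1, 8, 39, 16], [2, 15, 43, 25], [3, 26, 53, 28], [4, 29, 36, 23], [5, 24, 42, 11], [6, 10], [7,
    46, 19, 38], [12, 48], [13, 47], [14, 44], [17, 40, 32, 49], [18, 50, 22, 37], [20, 45], [21, 51], [27, 52], [30,
    35], [31, 41], [33, 55], [34, 54]]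
  word := [[], [], [], [], [2, 1, 3], [2, 1, 3, 0], [2, 1, 3, 0], [], [], [1, 2, 0, 3], [1, 2, 0, 3], [], [], [],
    [0], [], [], [], [0], [0], [0], [2], [2, 0], [2, 0, 3], [0], [], [2], [2], [], [2], [2], [2], [2], [2], [2], [3],
    [1, 3], [1], [], [], [3], [3], [1], [1], [1], [1], [], [], [], [], [3], [3], [3], [3], [3], [3]]
  rank := [0, 0, 0, 0, 6, 7, 8, 0, 0, 8, 7, 0, 1, 2, 2, 0, 1, 0, 3, 0, 1, 4, 5, 6, 3, 0, 2, 3, 0, 4, 3, 2, 1, 0, 1,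
    4, 5, 3, 0, 1, 2, 3, 3, 2, 1, 0, 2, 1, 0, 0, 4, 3, 2, 1, 0, 1]
  just := [0, 0, 0, 0, 4, 5, 6, 0, 0, 6, 5, 0, 8, 9, 10, 0, 1, 0, 7, 0, 13, 14, 12, 4, 2, 0, 3, 15, 0, 16, 17, 11,
    18, 0, 19, 16, 12, 7, 0, 1, 11, 17, 2, 10, 13, 0, 9, 8, 0, 0, 14, 15, 3, 19, 0, 18]
  gA := 19
  gB := 33
  fin := 0
  sid := [0, 1, 2, 3, 4, 5, 6, 7, 1, 0, 6, 5, 8, 9, 10, 2, 1, 11, 12, 7, 13, 14, 12, 4, 5, 2, 3, 15, 3, 4, 16, 17,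
    11, 18, 19, 16, 4, 12, 7, 1, 11, 17, 5, 2, 10, 13, 7, 9, 8, 11, 12, 14, 15, 3, 19, 18]
  off := [(0, 0), (0, 0), (0, 0), (0, 0), (0, 0), (0, 0), (0, 0), (0, 0), (0, 0), (0, 0), (0, 0), (0, 0), (0, 0), (0,
    0), (0, 0), (0, 0), (0, 0), (0, 0), (0, 0), (1, 0), (0, 0), (0, 0), (0, 1), (1, 0), (1, 0), (0, 0), (0, 0), (0,
    0), (0, 0), (0, 0), (0, 0), (0, 0), (0, 1), (0, 0), (0, 0), (0, -1), (0, -1), (-1, 0), (0, 0), (0, 0), (0, 0),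
    (0, -1), (0, 0), (-1, 0), (-1, 0), (-1, 0), (0, 0), (0, 0), (0, 0), (0, 0), (0, 0), (0, -1), (0, -1), (0, -1),
    (0, -1), (0, -1)]

/-- glued arcs and equations -/
def tord7a_163 : TorT :=
  ⟨[(0, 1, true), (0, 3, false), (1, 1, true), (2, 4, false), (2, 6, true), (3, 5, true), (4, 6, true), (5, 5, true)],
    [([0, 0, 0, 0, 0, 1, 1], 2), ([0, 0, 0, 1, 0, 0, 1], 2), ([0, 2, 1, 0, 1, 0, 0], 2), ([1, 0, 0, 1, 1, 1, 0], 2),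
    ([1, 0, 1, 0, 0, 0, 0], 2)]⟩

theorem tord7a_163_ok : tord7a_163.OK 7 := TT.leaf_ok (T := ttd7a_163) (by decide +kernel)

/-- the torus -/
def ttd7a_164 : TT where
  k := 4
  rf := [false, false, false, false]
  tau := [7, 14, 20, 19, 11, 15, 13, 0, 21, 27, 26, 4, 22, 6, 1, 5, 25, 24, 23, 3, 2, 8, 12, 18, 17, 16, 10, 9]
  par := [0, 0, 1, 8]
  stars := [[0, 13, 22, 8], [1, 7, 6, 15], [2, 14], [3, 20], [4, 19, 23, 12], [5, 11, 26, 16], [9, 21], [10, 27],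
    [17, 25], [18, 24]]
  word := [[], [], [], [], [0], [0, 3], [0, 3], [], [], [], [], [1], [1, 2], [2, 1], [], [2, 1], [2], [2], [2], [],
    [], [], [3, 0], [3], [3], [3], [], []]
  rank := [0, 0, 1, 2, 0, 3, 4, 0, 0, 1, 2, 0, 3, 4, 0, 3, 1, 0, 1, 2, 1, 0, 3, 1, 0, 1, 2, 1]
  just := [0, 0, 2, 3, 0, 5, 1, 0, 0, 6, 7, 0, 4, 1, 0, 5, 8, 0, 9, 3, 2, 0, 4, 9, 0, 8, 7, 6]
  gA := 4
  gB := 17
  fin := 0
  sid := [0, 1, 2, 3, 4, 5, 1, 1, 0, 6, 7, 5, 4, 0, 2, 1, 5, 8, 9, 4, 3, 6, 0, 4, 9, 8, 5, 7]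
  off := [(0, 0), (0, 0), (0, 0), (0, 0), (0, 0), (0, 0), (1, -1), (0, 0), (0, 0), (0, 0), (0, 0), (-1, 0), (-1, 0),
    (-1, 1), (0, 0), (0, 0), (-1, 1), (0, 0), (0, 0), (0, 0), (0, 0), (0, 0), (0, 0), (0, -1), (0, -1), (0, -1), (-1,
    0), (0, 0)]

/-- glued arcs and equations -/
def tord7a_164 : TorT :=
  ⟨[(0, 0, true), (0, 1, true), (1, 5, true), (2, 4, true), (2, 6, true), (3, 3, true), (3, 5, true), (4, 4, true),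
    (6, 6, true)],
    [([0, 0, 0, 1, 0, 0, 1], 2), ([0, 0, 0, 1, 1, 0, 0], 2), ([0, 0, 1, 0, 1, 2, 0], 2), ([1, 0, 1, 0, 0, 0, 0], 2),
    ([1, 2, 0, 0, 0, 0, 1], 2)]⟩

theorem tord7a_164_ok : tord7a_164.OK 7 := TT.leaf_ok (T := ttd7a_164) (by decide +kernel)

/-- the torus -/
def ttd7a_165 : TT where
  k := 4
  rf := [false, false, false, false]
  tau := [7, 14, 20, 15, 13, 12, 11, 0, 21, 27, 22, 6, 5, 4, 1, 3, 23, 26, 25, 24, 2, 8, 10, 16, 19, 18, 17, 9]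
  par := [0, 0, 1, 8]
  stars := [[0, 11, 22, 8], [1, 7, 4, 15], [2, 14], [3, 20, 24, 16], [5, 13], [6, 12], [9, 21], [10, 27, 17, 23],
    [18, 26], [19, 25]]
  word := [[], [], [], [0], [0], [0], [0], [], [], [], [3, 1, 2], [1], [1], [1], [], [1], [1, 2], [2], [2], [2], [],
    [], [3, 0, 2], [3, 0], [3], [3], [3], []]
  rank := [0, 0, 1, 0, 1, 2, 3, 0, 0, 1, 3, 3, 2, 1, 0, 0, 2, 1, 0, 1, 1, 0, 3, 2, 1, 0, 1, 1]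
  just := [0, 0, 2, 0, 1, 4, 5, 0, 0, 6, 7, 5, 4, 1, 0, 0, 3, 8, 0, 9, 2, 0, 7, 3, 9, 0, 8, 6]
  gA := 3
  gB := 18
  fin := 0
  sid := [0, 1, 2, 3, 1, 4, 5, 1, 0, 6, 7, 0, 5, 4, 2, 1, 3, 7, 8, 9, 3, 6, 0, 7, 3, 9, 8, 7]
  off := [(0, 0), (0, 0), (0, 0), (0, 0), (1, 0), (0, 0), (0, 0), (0, 0), (0, 0), (0, 0), (0, 0), (-1, 0), (-1, 0),
    (-1, 0), (0, 0), (0, 0), (-1, 0), (0, 1), (0, 0), (0, 0), (0, 0), (0, 0), (0, 0), (1, 0), (0, -1), (0, -1), (0,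
    -1), (0, 0)]

/-- glued arcs and equations -/
def tord7a_165 : TorT :=
  ⟨[(0, 0, true), (0, 1, true), (1, 3, true), (2, 2, true), (2, 6, true), (3, 5, true), (4, 4, true), (4, 6, true),
    (5, 5, true)],
    [([0, 0, 0, 0, 0, 1, 1], 2), ([0, 0, 0, 0, 1, 1, 0], 2), ([0, 0, 1, 2, 0, 0, 1], 2), ([1, 0, 1, 0, 0, 0, 0], 2),
    ([1, 2, 0, 0, 1, 0, 0], 2)]⟩

theorem tord7a_165_ok : tord7a_165.OK 7 := TT.leaf_ok (T := ttd7a_165) (by decide +kernel)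

/-- the torus -/
def ttd7a_166 : TT where
  k := 8
  rf := [false, false, false, false, true, true, true, true]
  tau := [7, 14, 20, 15, 13, 12, 11, 0, 21, 27, 22, 6, 5, 4, 1, 3, 32, 33, 30, 31, 2, 8, 10, 39, 40, 37, 38, 9, 43,
    45, 18, 19, 16, 17, 44, 50, 52, 25, 26, 23, 24, 51, 49, 28, 34, 29, 55, 54, 53, 42, 35, 41, 36, 48, 47, 46]
  par := [0, 0, 1, 8, 16, 23, 28, 35]
  stars := [[0, 11, 22, 8], [1, 7, 4, 15], [2, 14], [3, 20, 32, 16], [5, 13], [6, 12], [9, 21], [10, 27, 39, 23],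
    [17, 33], [18, 34, 45, 30], [19, 31], [24, 40], [25, 41, 52, 37], [26, 38], [28, 44], [29, 46, 49, 43], [35, 51],
    [36, 53, 42, 50], [47, 55], [48, 54]]
  word := [[], [], [], [1], [1], [1], [1], [], [], [], [3, 0, 2], [0], [0], [0], [], [0], [], [], [1], [1], [], [],
    [3, 1, 2], [], [], [3, 0, 2], [3, 0, 2], [], [], [0], [0], [0], [], [], [], [], [3, 1, 2], [3, 1, 2], [3, 1, 2],
    [], [], [], [0, 2], [], [], [1], [2], [2], [2], [3, 1], [], [], [3, 0, 2], [3], [3], [3]]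
  rank := [0, 0, 1, 4, 5, 6, 7, 0, 0, 1, 6, 7, 6, 5, 0, 4, 0, 1, 2, 3, 1, 0, 6, 0, 1, 4, 5, 1, 0, 0, 2, 3, 0, 1, 1,
    0, 3, 4, 5, 0, 1, 1, 2, 0, 1, 0, 1, 0, 1, 2, 0, 1, 3, 1, 0, 1]
  just := [0, 0, 2, 3, 1, 4, 5, 0, 0, 6, 7, 5, 4, 1, 0, 3, 0, 8, 9, 10, 2, 0, 7, 0, 11, 12, 13, 6, 0, 0, 9, 10, 0, 8,
    14, 0, 17, 12, 13, 0, 11, 16, 15, 0, 14, 0, 18, 0, 19, 15, 0, 16, 17, 19, 0, 18]
  gA := 29
  gB := 47
  fin := 0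
  sid := [0, 1, 2, 3, 1, 4, 5, 1, 0, 6, 7, 0, 5, 4, 2, 1, 3, 8, 9, 10, 3, 6, 0, 7, 11, 12, 13, 7, 14, 15, 9, 10, 3,
    8, 9, 16, 17, 12, 13, 7, 11, 12, 17, 15, 14, 9, 15, 18, 19, 15, 17, 16, 12, 17, 19, 18]
  off := [(0, 0), (0, 0), (0, 0), (0, 0), (-1, 0), (0, 0), (0, 0), (0, 0), (0, 0), (0, 0), (0, 0), (1, 0), (1, 0),
    (1, 0), (0, 0), (0, 0), (1, 0), (0, 0), (0, 0), (0, 0), (0, 0), (0, 0), (0, 0), (-1, 0), (0, 0), (0, 0), (0, 0),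
    (0, 0), (0, 0), (0, 0), (1, 0), (1, 0), (1, 0), (0, 0), (0, 0), (0, 0), (0, 0), (-1, 0), (-1, 0), (-1, 0), (0,
    0), (0, 0), (1, 1), (0, 0), (0, 0), (0, 0), (-1, 0), (0, 0), (0, 0), (-1, -1), (0, 0), (0, 0), (0, 0), (1, 0),
    (0, -1), (0, -1)]

/-- glued arcs and equations -/
def tord7a_166 : TorT :=
  ⟨[(0, 0, true), (0, 1, true), (1, 3, true), (2, 4, false), (2, 6, true), (3, 5, false), (4, 6, true), (5, 5, true)],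
    [([0, 0, 0, 0, 0, 1, 1], 2), ([0, 0, 0, 1, 0, 1, 0], 2), ([0, 0, 1, 1, 1, 0, 1], 2), ([1, 0, 1, 0, 0, 0, 0], 2),
    ([1, 2, 0, 0, 1, 0, 0], 2)]⟩

theorem tord7a_166_ok : tord7a_166.OK 7 := TT.leaf_ok (T := ttd7a_166) (by decide +kernel)

end Pool.Agent.Lib_MP_fa6e45
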