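import Pool.Agent.Lib_MP_fa6e45.CT5

/-!
MP_fa6e45_co, stage 9: straight-side patterns with `7` sides, tables of tori (generated by a program).
-/

namespace Pool.Agent.Lib_MP_fa6e45

/-- the torus -/
def ttd7a_18 : TT where
  k := 16
  rf := [false, false, false, false, true, true, false, false, true, true, true, false, true, true, false, true]
  tau := [7, 14, 27, 34, 28, 40, 16, 0, 42, 55, 62, 56, 68, 44, 1, 43, 6, 41, 35, 75, 79, 78, 50, 83, 90, 84, 33, 2,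
    4, 39, 38, 86, 85, 26, 3, 18, 74, 73, 30, 29, 5, 17, 8, 15, 13, 69, 63, 96, 100, 99, 22, 104, 111, 105, 61, 9,
    11, 67, 66, 107, 106, 54, 10, 46, 95, 94, 58, 57, 12, 45, 81, 88, 87, 37, 36, 19, 80, 98, 21, 20, 76, 70, 89, 23,
    25, 32, 31, 72, 71, 82, 24, 102, 109, 108, 65, 64, 47, 101, 77, 49, 48, 97, 91, 110, 51, 53, 60, 59, 93, 92, 103,
    52]
  par := [0, 0, 1, 2, 3, 5, 8, 9, 10, 12, 19, 20, 24, 47, 48, 52]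
  stars := [[0, 16, 43, 8], [1, 7, 44, 15], [2, 14, 79, 21], [3, 27, 34], [4, 28], [5, 29, 40], [6, 41, 17], [9, 42,
    100, 49], [10, 55, 62], [11, 56], [12, 57, 68], [13, 69, 45], [18, 35], [19, 36, 75], [20, 76, 80], [22, 78, 98,
    51], [23, 50, 99, 77], [24, 83, 90], [25, 84], [26, 85, 33], [30, 39], [31, 87, 73, 38], [32, 86], [37, 74], [46,
    63], [47, 64, 96], [48, 97, 101], [52, 104, 111], [53, 105], [54, 106, 61], [58, 67], [59, 108, 94, 66], [60,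
    107], [65, 95], [70, 81], [71, 89, 82], [72, 88], [91, 102], [92, 110, 103], [93, 109]]
  word := [[], [], [], [], [], [], [2, 1, 3], [], [], [], [], [], [], [0], [], [0], [2, 0, 3], [2, 0, 3], [2, 0, 3],
    [], [], [], [2, 1], [2, 1, 3], [], [], [], [], [], [], [], [], [], [], [], [2, 1, 3], [2, 1, 3], [2, 1, 3], [],
    [], [], [2, 1, 3], [], [1], [1], [1], [1], [], [], [], [0, 3], [0], [], [], [], [], [], [], [], [], [], [], [],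
    [0], [0], [0], [], [], [], [0], [], [2, 0, 3], [2, 0, 3], [2, 0, 3], [2, 0, 3], [], [], [2], [], [], [], [], [2,
    0, 3], [2, 0, 3], [], [], [], [2, 1, 3], [2, 1, 3], [2, 1, 3], [], [], [1], [1], [1], [1], [], [], [3], [], [],
    [], [], [1], [1], [], [], [], [0], [0], [0], []]
  rank := [0, 0, 0, 0, 1, 0, 11, 0, 0, 0, 0, 1, 0, 9, 0, 10, 11, 10, 9, 0, 0, 1, 2, 3, 0, 1, 1, 0, 1, 2, 3, 3, 2, 1,
    0, 9, 8, 7, 3, 2, 0, 10, 0, 10, 9, 8, 7, 0, 0, 1, 2, 0, 0, 1, 1, 0, 1, 2, 3, 3, 2, 1, 0, 7, 6, 5, 3, 2, 0, 8, 2,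
    5, 6, 7, 8, 0, 1, 0, 1, 0, 1, 2, 4, 3, 1, 2, 3, 6, 5, 4, 0, 2, 3, 4, 5, 6, 0, 1, 0, 1, 0, 1, 2, 1, 0, 1, 2, 3, 4,
    3, 1, 0]
  just := [0, 0, 0, 0, 4, 0, 6, 0, 0, 0, 0, 9, 0, 11, 0, 1, 6, 12, 13, 0, 0, 2, 15, 16, 0, 18, 3, 0, 4, 5, 20, 22,
    19, 3, 0, 13, 23, 21, 20, 5, 0, 12, 0, 1, 11, 24, 25, 0, 0, 7, 15, 0, 0, 28, 8, 0, 9, 10, 30, 32, 29, 8, 0, 25,
    33, 31, 30, 10, 0, 24, 34, 35, 36, 21, 23, 0, 14, 0, 2, 0, 14, 34, 17, 16, 18, 19, 22, 36, 35, 17, 0, 37, 38, 39,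
    31, 33, 0, 26, 0, 7, 0, 26, 37, 27, 0, 28, 29, 32, 39, 38, 27, 0]
  gA := 51
  gB := 77
  fin := 0
  sid := [0, 1, 2, 3, 4, 5, 6, 1, 0, 7, 8, 9, 10, 11, 2, 1, 0, 6, 12, 13, 14, 2, 15, 16, 17, 18, 19, 3, 4, 5, 20, 21,
    22, 19, 3, 12, 13, 23, 21, 20, 5, 6, 7, 0, 1, 11, 24, 25, 26, 7, 16, 15, 27, 28, 29, 8, 9, 10, 30, 31, 32, 29, 8,
    24, 25, 33, 31, 30, 10, 11, 34, 35, 36, 21, 23, 13, 14, 16, 15, 2, 14, 34, 35, 17, 18, 19, 22, 21, 36, 35, 17,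
    37, 38, 39, 31, 33, 25, 26, 15, 16, 7, 26, 37, 38, 27, 28, 29, 32, 31, 39, 38, 27]
  off := [(0, 0), (0, 0), (0, 0), (0, 0), (0, 0), (0, 0), (0, 0), (0, 0), (0, 0), (0, 0), (0, 0), (0, 0), (0, 0), (0,
    0), (0, 0), (0, 0), (1, 0), (1, 0), (0, 0), (0, 0), (0, 0), (0, 0), (0, 0), (0, 0), (0, 0), (0, 0), (0, 0), (0,
    0), (0, 0), (0, 0), (0, 0), (0, 0), (0, 0), (0, 0), (0, 0), (-1, 0), (-1, 0), (0, 0), (0, 0), (0, 0), (0, 0), (0,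
    0), (0, 0), (0, 0), (-1, 0), (-1, 0), (0, 0), (0, 0), (0, 0), (0, 0), (1, -1), (1, -1), (0, 0), (0, 0), (0, 0),
    (0, 0), (0, 0), (0, 0), (0, 0), (0, 0), (0, 0), (0, 0), (0, 0), (1, 0), (1, 0), (0, 0), (0, 0), (0, 0), (0, 0),
    (0, 0), (0, 0), (0, 0), (0, 0), (1, 0), (1, 0), (0, 0), (0, 0), (1, 0), (0, 0), (0, 0), (0, 0), (0, 0), (0, 0),
    (1, 0), (0, 0), (0, 0), (0, 0), (0, 0), (-1, 0), (-1, 0), (0, 0), (0, 0), (0, 0), (0, 0), (-1, 0), (-1, 0), (0,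
    0), (0, 0), (0, -1), (1, -1), (0, 0), (0, 0), (0, 0), (0, 0), (-1, 0), (0, 0), (0, 0), (0, 0), (0, 0), (1, 0),
    (1, 0), (0, 0)]

/-- glued arcs and equations -/
def tord7a_18 : TorT :=
  ⟨[(0, 0, true), (0, 1, true), (0, 4, false), (1, 1, true), (1, 4, true), (2, 3, true), (2, 6, true), (3, 6, false),
    (5, 5, false)],
    [([0, 0, 0, 1, 0, 0, 2], 2), ([0, 0, 0, 4, 0, 0, 0], 2), ([0, 0, 1, 0, 1, 0, 0], 2), ([0, 1, 0, 0, 0, 2, 0], 2),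
    ([1, 0, 0, 0, 1, 0, 0], 2), ([1, 2, 1, 0, 0, 0, 0], 2), ([2, 0, 2, 0, 0, 0, 0], 2)]⟩

theorem tord7a_18_ok : tord7a_18.OK 7 := TT.leaf_ok (T := ttd7a_18) (by decide +kernel)

/-- the torus -/
def ttd7a_19 : TT where
  k := 12
  rf := [false, false, false, false, true, true, false, false, true, true, true, true]
  tau := [8, 14, 27, 34, 28, 40, 44, 15, 0, 55, 62, 56, 68, 23, 1, 7, 48, 76, 70, 82, 51, 50, 42, 13, 69, 63, 33, 2,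
    4, 39, 38, 65, 64, 26, 3, 46, 74, 73, 30, 29, 5, 45, 22, 49, 6, 41, 35, 75, 16, 43, 21, 20, 83, 77, 61, 9, 11,
    67, 66, 79, 78, 54, 10, 25, 32, 31, 58, 57, 12, 24, 18, 81, 80, 37, 36, 47, 17, 53, 60, 59, 72, 71, 19, 52]
  par := [0, 0, 1, 2, 3, 5, 6, 9, 10, 12, 17, 19]
  stars := [[0, 44, 49, 9], [1, 8, 15], [2, 14, 51, 21], [3, 27, 34], [4, 28], [5, 29, 40], [6, 41, 45], [7, 23, 42,
    16], [10, 55, 62], [11, 56], [12, 57, 68], [13, 69, 24], [17, 48, 76], [18, 70], [19, 71, 82], [20, 83, 52], [22,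
    50, 43], [25, 63], [26, 64, 33], [30, 39], [31, 66, 59, 80, 73, 38], [32, 65], [35, 46], [36, 75, 47], [37, 74],
    [53, 77], [54, 78, 61], [58, 67], [60, 79], [72, 81]]
  word := [[], [], [], [], [], [], [], [], [], [], [], [], [], [1], [], [], [3, 1], [], [], [], [3], [3], [0, 3, 1],
    [0], [0], [0], [], [], [], [], [], [0], [0], [], [], [], [0, 2], [0, 2], [], [], [], [], [0, 2, 1], [0, 2, 1, 3],
    [], [], [], [0, 2], [0, 2], [2, 0, 3, 1], [2], [2], [2], [2], [], [], [], [], [], [2], [2], [], [], [1], [1],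
    [1], [], [], [], [1], [], [], [], [3, 1], [3, 1], [3, 1], [], [3], [3], [3], [], [], [], [3]]
  rank := [0, 0, 0, 0, 1, 0, 0, 1, 0, 0, 0, 1, 0, 4, 0, 1, 7, 0, 1, 0, 4, 5, 8, 4, 3, 2, 1, 0, 1, 2, 3, 0, 1, 1, 0,
    2, 5, 4, 3, 2, 0, 1, 8, 9, 0, 1, 2, 6, 7, 9, 5, 4, 3, 2, 1, 0, 1, 2, 3, 0, 1, 1, 0, 2, 1, 0, 3, 2, 0, 3, 1, 2, 3,
    4, 5, 6, 0, 2, 1, 0, 3, 2, 0, 3]
  just := [0, 0, 0, 0, 4, 0, 0, 1, 0, 0, 0, 9, 0, 11, 0, 1, 12, 0, 13, 0, 15, 2, 7, 11, 17, 18, 3, 0, 4, 5, 19, 0,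
    21, 3, 0, 22, 24, 20, 19, 5, 0, 6, 7, 16, 0, 6, 22, 23, 12, 16, 2, 15, 25, 26, 8, 0, 9, 10, 27, 0, 28, 8, 0, 18,
    21, 0, 27, 10, 0, 17, 13, 14, 29, 20, 24, 23, 0, 26, 28, 0, 29, 14, 0, 25]
  gA := 31
  gB := 59
  fin := 0
  sid := [0, 1, 2, 3, 4, 5, 6, 7, 1, 0, 8, 9, 10, 11, 2, 1, 7, 12, 13, 14, 15, 2, 16, 7, 11, 17, 18, 3, 4, 5, 19, 20,
    21, 18, 3, 22, 23, 24, 20, 19, 5, 6, 7, 16, 0, 6, 22, 23, 12, 0, 16, 2, 15, 25, 26, 8, 9, 10, 27, 20, 28, 26, 8,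
    17, 18, 21, 20, 27, 10, 11, 13, 14, 29, 20, 24, 23, 12, 25, 26, 28, 20, 29, 14, 15]
  off := [(0, 0), (0, 0), (0, 0), (0, 0), (0, 0), (0, 0), (0, 0), (0, 0), (0, 0), (0, 0), (0, 0), (0, 0), (0, 0), (0,
    0), (0, 0), (0, 0), (0, 0), (0, 0), (0, 0), (0, 0), (0, 0), (0, 0), (0, 0), (1, 0), (1, 0), (0, 0), (0, 0), (0,
    0), (0, 0), (0, 0), (0, 0), (0, 0), (0, 0), (0, 0), (0, 0), (0, 0), (0, 0), (0, 0), (0, 0), (0, 0), (0, 0), (0,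
    0), (1, 1), (0, 1), (0, 0), (0, 0), (0, 0), (0, 0), (1, 1), (0, 0), (0, 1), (0, 1), (0, 1), (0, 0), (0, 0), (0,
    0), (0, 0), (0, 0), (0, 0), (-1, 0), (0, 0), (0, 0), (0, 0), (-1, 0), (-1, 0), (-1, 0), (-1, 0), (0, 0), (0, 0),
    (0, 0), (0, 0), (0, 0), (0, 0), (-1, -1), (-1, -1), (-1, -1), (0, 0), (0, -1), (0, -1), (0, -1), (-1, -1), (0,
    0), (0, 0), (0, 0)]

/-- glued arcs and equations -/
def tord7a_19 : TorT :=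
  ⟨[(0, 1, true), (0, 4, false), (1, 4, true), (2, 3, true), (2, 6, true), (3, 6, false), (5, 5, false)],
    [([0, 0, 0, 1, 0, 0, 2], 2), ([0, 0, 0, 6, 0, 0, 0], 2), ([0, 0, 1, 0, 1, 0, 0], 2), ([0, 1, 0, 0, 0, 2, 0], 2),
    ([0, 3, 0, 0, 0, 0, 0], 2), ([1, 0, 0, 0, 1, 0, 0], 2), ([2, 0, 2, 0, 0, 0, 0], 2)]⟩

theorem tord7a_19_ok : tord7a_19.OK 7 := TT.leaf_ok (T := ttd7a_19) (by decide +kernel)

/-- the torus -/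
def ttd7a_20 : TT where
  k := 12
  rf := [false, false, false, true, true, false, false, true, true, false, true, true]
  tau := [7, 8, 20, 27, 21, 33, 37, 0, 1, 48, 55, 49, 61, 65, 36, 43, 41, 76, 70, 26, 2, 4, 32, 31, 72, 71, 19, 3,
    39, 74, 73, 23, 22, 5, 38, 63, 14, 6, 34, 28, 75, 16, 64, 15, 69, 83, 77, 54, 9, 11, 60, 59, 79, 78, 47, 10, 67,
    81, 80, 51, 50, 12, 66, 35, 42, 13, 62, 56, 82, 44, 18, 25, 24, 30, 29, 40, 17, 46, 53, 52, 58, 57, 68, 45]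
  par := [0, 0, 2, 3, 5, 6, 9, 10, 12, 13, 17, 45]
  stars := [[0, 37, 14, 2, 8], [1, 7, 65, 42, 9], [3, 20, 27], [4, 21], [5, 22, 33], [6, 34, 38], [10, 48, 55], [11,
    49], [12, 50, 61], [13, 62, 66], [15, 36, 63, 44], [16, 43, 64, 35], [17, 41, 76], [18, 70], [19, 71, 26], [23,
    32], [24, 73, 31], [25, 72], [28, 39], [29, 75, 40], [30, 74], [45, 69, 83], [46, 77], [47, 78, 54], [51, 60],
    [52, 80, 59], [53, 79], [56, 67], [57, 82, 68], [58, 81]]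
  word := [[], [3, 0], [], [], [], [], [], [], [1, 2], [], [], [], [], [], [0, 3], [0], [], [], [], [], [], [], [],
    [], [], [], [], [], [], [], [], [], [], [], [], [2], [2, 1], [], [], [], [], [], [1, 2], [1], [], [], [], [], [],
    [], [], [], [], [], [], [], [], [], [], [], [], [], [], [3], [3, 0], [], [], [], [], [], [], [], [], [], [], [],
    [], [], [], [], [], [], [], []]
  rank := [0, 9, 0, 0, 1, 0, 0, 0, 9, 0, 0, 1, 0, 0, 8, 0, 7, 0, 1, 1, 0, 1, 2, 3, 3, 2, 1, 0, 2, 5, 4, 3, 2, 0, 1,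
    0, 8, 0, 1, 2, 6, 7, 8, 0, 7, 0, 1, 1, 0, 1, 2, 3, 3, 2, 1, 0, 2, 5, 4, 3, 2, 0, 1, 0, 8, 0, 1, 2, 6, 7, 1, 2, 3,
    4, 5, 6, 0, 1, 2, 3, 4, 5, 6, 0]
  just := [0, 1, 0, 0, 3, 0, 0, 0, 1, 0, 0, 7, 0, 0, 10, 0, 12, 0, 13, 2, 0, 3, 4, 15, 17, 14, 2, 0, 18, 20, 16, 15,
    4, 0, 5, 0, 10, 0, 5, 18, 19, 12, 11, 0, 21, 0, 22, 6, 0, 7, 8, 24, 26, 23, 6, 0, 27, 29, 25, 24, 8, 0, 9, 0, 11,
    0, 9, 27, 28, 21, 13, 14, 17, 16, 20, 19, 0, 22, 23, 26, 25, 29, 28, 0]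
  gA := 15
  gB := 35
  fin := 0
  sid := [0, 1, 0, 2, 3, 4, 5, 1, 0, 1, 6, 7, 8, 9, 0, 10, 11, 12, 13, 14, 2, 3, 4, 15, 16, 17, 14, 2, 18, 19, 20,
    16, 15, 4, 5, 11, 10, 0, 5, 18, 19, 12, 1, 11, 10, 21, 22, 23, 6, 7, 8, 24, 25, 26, 23, 6, 27, 28, 29, 25, 24, 8,
    9, 10, 11, 1, 9, 27, 28, 21, 13, 14, 17, 16, 20, 19, 12, 22, 23, 26, 25, 29, 28, 21]
  off := [(0, 0), (0, 0), (1, -1), (0, 0), (0, 0), (0, 0), (0, 0), (0, 0), (0, 0), (-1, 1), (0, 0), (0, 0), (0, 0),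
    (0, 0), (1, -1), (0, 0), (0, 0), (0, 0), (0, 0), (0, 0), (0, 0), (0, 0), (0, 0), (0, 0), (0, 0), (0, 0), (0, 0),
    (0, 0), (0, 0), (0, 0), (0, 0), (0, 0), (0, 0), (0, 0), (0, 0), (0, 0), (-1, 1), (0, 0), (0, 0), (0, 0), (0, 0),
    (0, 0), (-1, 1), (-1, 0), (-1, 0), (0, 0), (0, 0), (0, 0), (0, 0), (0, 0), (0, 0), (0, 0), (0, 0), (0, 0), (0,
    0), (0, 0), (0, 0), (0, 0), (0, 0), (0, 0), (0, 0), (0, 0), (0, 0), (-1, 0), (0, -1), (0, 0), (0, 0), (0, 0), (0,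
    0), (0, 0), (0, 0), (0, 0), (0, 0), (0, 0), (0, 0), (0, 0), (0, 0), (0, 0), (0, 0), (0, 0), (0, 0), (0, 0), (0,
    0), (0, 0)]

/-- glued arcs and equations -/
def tord7a_20 : TorT :=
  ⟨[(0, 0, true), (0, 1, true), (0, 4, false), (1, 1, true), (1, 4, true), (2, 3, true), (2, 6, true), (3, 6, false),
    (5, 5, false)],
    [([0, 0, 0, 1, 0, 0, 2], 2), ([0, 0, 0, 3, 0, 0, 0], 2), ([0, 0, 1, 0, 1, 0, 0], 2), ([0, 1, 0, 0, 0, 2, 0], 2),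
    ([1, 0, 0, 0, 1, 0, 0], 2), ([1, 2, 1, 0, 0, 0, 0], 2), ([2, 1, 2, 0, 0, 0, 0], 2)]⟩

theorem tord7a_20_ok : tord7a_20.OK 7 := TT.leaf_ok (T := ttd7a_20) (by decide +kernel)

/-- the torus -/
def ttd7a_21 : TT where
  k := 8
  rf := [false, false, false, true, true, true, false, true]
  tau := [8, 14, 20, 27, 28, 40, 9, 43, 0, 6, 41, 49, 33, 44, 1, 42, 48, 55, 35, 26, 2, 46, 53, 52, 37, 36, 19, 3, 4,
    39, 38, 51, 50, 12, 45, 18, 25, 24, 30, 29, 5, 10, 15, 7, 13, 34, 21, 54, 16, 11, 32, 31, 23, 22, 47, 17]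
  par := [0, 0, 1, 3, 4, 5, 7, 11]
  stars := [[0, 9], [1, 8, 43, 15], [2, 14], [3, 20, 27], [4, 21, 46, 28], [5, 29, 40], [6, 41, 10], [7, 44], [11,
    35, 18, 49], [12, 50, 33], [13, 34, 45], [16, 42], [17, 48, 55], [19, 36, 26], [22, 54, 47], [23, 53], [24, 38,
    31, 52], [25, 37], [30, 39], [32, 51]]
  word := [[], [], [], [], [], [], [2, 1, 3, 0], [], [], [1, 2, 0, 3], [1, 2, 0, 3], [], [3], [], [], [], [], [3, 0],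
    [0, 3], [], [], [2], [0], [0], [0, 3], [0, 3], [], [], [], [], [], [2], [2], [2], [2], [2, 1], [2, 1], [2, 1],
    [], [], [], [2, 1, 3, 0], [], [], [], [3], [3], [3, 0], [], [], [3], [3], [1], [1], [1, 2], [1, 2]]
  rank := [0, 0, 1, 0, 0, 0, 7, 0, 0, 7, 6, 0, 1, 1, 0, 1, 2, 5, 5, 2, 1, 3, 1, 0, 3, 4, 2, 0, 0, 1, 2, 1, 0, 1, 2,
    5, 4, 3, 2, 1, 0, 6, 1, 0, 1, 2, 3, 4, 2, 0, 0, 1, 0, 1, 4, 5]
  just := [0, 0, 2, 0, 0, 0, 6, 0, 0, 6, 8, 0, 9, 7, 0, 1, 11, 12, 13, 3, 2, 4, 15, 0, 16, 17, 3, 0, 0, 5, 18, 19, 0,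
    9, 10, 13, 17, 16, 18, 5, 0, 8, 1, 0, 7, 10, 4, 14, 11, 0, 0, 19, 0, 15, 14, 12]
  gA := 23
  gB := 32
  fin := 0
  sid := [0, 1, 2, 3, 4, 5, 6, 7, 1, 0, 6, 8, 9, 10, 2, 1, 11, 12, 8, 13, 3, 4, 14, 15, 16, 17, 13, 3, 4, 5, 18, 16,
    19, 9, 10, 8, 13, 17, 16, 18, 5, 6, 11, 1, 7, 10, 4, 14, 12, 8, 9, 19, 16, 15, 14, 12]
  off := [(0, 0), (0, 0), (0, 0), (0, 0), (0, 0), (0, 0), (0, 0), (0, 0), (0, 0), (0, 0), (0, 0), (0, 0), (0, 0), (0,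
    0), (0, 0), (0, 0), (0, 0), (0, 0), (1, -1), (0, 0), (0, 0), (0, 0), (0, 0), (0, 0), (0, 0), (0, 0), (0, 0), (0,
    0), (0, 0), (0, 0), (0, 0), (-1, 1), (0, 0), (0, 1), (0, 1), (0, 0), (-1, 1), (-1, 1), (-1, 1), (0, 0), (0, 0),
    (0, 0), (0, 0), (0, 0), (0, 0), (0, 0), (0, -1), (0, -1), (0, 0), (0, 0), (0, 0), (0, -1), (-1, 0), (-1, 0), (-1,
    0), (-1, 1)]

/-- glued arcs and equations -/
def tord7a_21 : TorT :=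
  ⟨[(0, 1, true), (0, 4, false), (1, 4, true), (2, 3, true), (2, 6, true), (3, 6, false), (5, 5, false)],
    [([0, 0, 0, 1, 0, 0, 2], 2), ([0, 0, 0, 4, 0, 0, 0], 2), ([0, 0, 1, 0, 1, 0, 0], 2), ([0, 1, 0, 0, 0, 2, 0], 2),
    ([0, 4, 0, 0, 0, 0, 0], 2), ([1, 0, 1, 0, 0, 0, 0], 2), ([2, 0, 0, 0, 2, 0, 0], 2)]⟩

theorem tord7a_21_ok : tord7a_21.OK 7 := TT.leaf_ok (T := ttd7a_21) (by decide +kernel)

/-- the torus -/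
def ttd7a_22 : TT where
  k := 6
  rf := [false, false, false, true, true, true]
  tau := [8, 14, 20, 27, 28, 40, 9, 15, 0, 6, 41, 21, 33, 16, 1, 7, 13, 34, 35, 26, 2, 11, 32, 31, 37, 36, 19, 3, 4,
    39, 38, 23, 22, 12, 17, 18, 25, 24, 30, 29, 5, 10]
  par := [0, 0, 1, 3, 4, 5]
  stars := [[0, 9], [1, 8, 15], [2, 14], [3, 20, 27], [4, 21, 11, 35, 18, 28], [5, 29, 40], [6, 41, 10], [7, 16],
    [12, 22, 33], [13, 34, 17], [19, 36, 26], [23, 32], [24, 38, 31], [25, 37], [30, 39]]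
  word := [[], [], [], [], [], [], [3, 0, 2, 1], [], [], [0, 3, 1, 2], [0, 3, 1, 2], [0, 3], [0], [], [], [], [],
    [0], [2], [], [], [2, 1], [2], [2], [2], [2], [], [], [], [], [], [3], [3], [1], [1], [3], [3], [3], [], [], [],
    [3, 0, 2, 1]]
  rank := [0, 0, 1, 0, 0, 0, 7, 1, 0, 7, 6, 5, 0, 2, 0, 1, 2, 3, 3, 2, 1, 5, 4, 3, 0, 1, 2, 0, 0, 1, 2, 3, 4, 0, 3,
    3, 1, 0, 2, 1, 0, 6]
  just := [0, 0, 2, 0, 0, 0, 6, 1, 0, 6, 4, 8, 0, 7, 0, 1, 7, 9, 10, 3, 2, 8, 11, 12, 0, 13, 3, 0, 0, 5, 14, 12, 11,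
    0, 9, 10, 13, 0, 14, 5, 0, 4]
  gA := 12
  gB := 24
  fin := 0
  sid := [0, 1, 2, 3, 4, 5, 6, 7, 1, 0, 6, 4, 8, 9, 2, 1, 7, 9, 4, 10, 3, 4, 8, 11, 12, 13, 10, 3, 4, 5, 14, 12, 11,
    8, 9, 4, 10, 13, 12, 14, 5, 6]
  off := [(0, 0), (0, 0), (0, 0), (0, 0), (0, 0), (0, 0), (0, 0), (0, 0), (0, 0), (0, 0), (0, 0), (1, -1), (0, 0),
    (0, 0), (0, 0), (0, 0), (0, 0), (0, 0), (1, 0), (0, 0), (0, 0), (0, 0), (-1, 1), (0, 0), (0, 0), (0, 0), (0, 0),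
    (0, 0), (0, 0), (0, 0), (0, 0), (0, -1), (0, -1), (-1, 0), (-1, 0), (1, -1), (0, -1), (0, -1), (0, -1), (0, 0),
    (0, 0), (0, 0)]

/-- glued arcs and equations -/
def tord7a_22 : TorT :=
  ⟨[(0, 1, true), (0, 4, false), (1, 4, true), (2, 3, true), (2, 6, true), (3, 6, false), (5, 5, false)],
    [([0, 0, 0, 1, 0, 0, 2], 2), ([0, 0, 0, 3, 0, 0, 0], 2), ([0, 0, 1, 0, 1, 0, 0], 2), ([0, 1, 0, 0, 0, 2, 0], 2),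
    ([0, 3, 0, 0, 0, 0, 0], 2), ([1, 0, 1, 0, 0, 0, 0], 2), ([3, 0, 0, 0, 3, 0, 0], 2)]⟩

theorem tord7a_22_ok : tord7a_22.OK 7 := TT.leaf_ok (T := ttd7a_22) (by decide +kernel)

/-- the torus -/
def ttd7a_23 : TT where
  k := 4
  rf := [false, false, true, true]
  tau := [7, 8, 6, 20, 14, 19, 2, 0, 1, 13, 27, 21, 26, 9, 4, 18, 23, 24, 15, 5, 3, 11, 25, 16, 17, 22, 12, 10]
  par := [0, 0, 3, 10]
  stars := [[0, 2, 8], [1, 7, 9], [3, 6, 20], [4, 14], [5, 15, 19], [10, 13, 27], [11, 21], [12, 22, 26], [16, 24,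
    18], [17, 25, 23]]
  word := [[], [1, 2], [2, 1], [], [], [0, 3], [0, 3], [], [3, 0], [3, 0], [], [], [1, 2], [1, 2], [], [0, 3], [0],
    [2], [2, 1], [2, 1], [], [], [1, 2], [1], [3], [3, 0], [3, 0], []]
  rank := [0, 4, 3, 0, 1, 2, 3, 0, 4, 3, 0, 1, 2, 3, 1, 1, 0, 0, 1, 2, 0, 1, 1, 0, 0, 1, 2, 0]
  just := [0, 1, 2, 0, 3, 4, 2, 0, 1, 5, 0, 6, 7, 5, 3, 8, 0, 0, 8, 4, 0, 6, 9, 0, 0, 9, 7, 0]
  gA := 16
  gB := 17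
  fin := 0
  sid := [0, 1, 0, 2, 3, 4, 2, 1, 0, 1, 5, 6, 7, 5, 3, 4, 8, 9, 8, 4, 2, 6, 7, 9, 8, 9, 7, 5]
  off := [(0, 0), (0, 0), (-1, 1), (0, 0), (0, 0), (0, 0), (1, -1), (0, 0), (0, 0), (1, -1), (0, 0), (0, 0), (0, 0),
    (-1, 1), (0, 0), (0, 0), (0, 0), (0, 0), (-1, 1), (-1, 1), (0, 0), (0, 0), (0, 0), (-1, 0), (-1, 0), (0, -1), (1,
    -1), (0, 0)]

/-- glued arcs and equations -/
def tord7a_23 : TorT :=
  ⟨[(0, 0, true), (0, 4, false), (1, 1, true), (1, 4, true), (2, 2, true), (2, 6, true), (3, 3, true), (3, 6, false),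
    (5, 5, false)],
    [([0, 0, 0, 1, 0, 0, 2], 2), ([0, 0, 1, 1, 1, 0, 0], 2), ([0, 1, 0, 0, 0, 2, 0], 2), ([1, 0, 0, 0, 1, 0, 0], 2),
    ([1, 1, 1, 0, 0, 0, 0], 2)]⟩

theorem tord7a_23_ok : tord7a_23.OK 7 := TT.leaf_ok (T := ttd7a_23) (by decide +kernel)

end Pool.Agent.Lib_MP_fa6e45
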