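import Pool.Agent.Lib_MP_fa6e45.CT5

/-!
MP_fa6e45_co, stage 9: straight-side patterns with `7` sides, tables of tori (generated by a program).
-/

namespace Pool.Agent.Lib_MP_fa6e45

/-- the torus -/
def ttd7a_30 : TT where
  k := 4
  rf := [false, false, true, true]
  tau := [7, 5, 14, 15, 16, 1, 13, 0, 12, 21, 22, 23, 8, 6, 2, 3, 4, 26, 25, 24, 27, 9, 10, 11, 19, 18, 17, 20]
  par := [0, 0, 2, 9]
  stars := [[0, 13, 8], [1, 7, 6], [2, 5, 17, 27, 14], [3, 15], [4, 16], [9, 12, 24, 20, 21], [10, 22], [11, 23],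
    [18, 26], [19, 25]]
  word := [[], [2, 1], [], [], [], [0, 3], [0, 3], [], [3, 0], [], [], [], [1, 2], [2, 1], [], [], [], [0], [0], [0],
    [2], [], [], [], [1], [1], [1], [3]]
  rank := [0, 3, 0, 1, 2, 3, 4, 0, 3, 0, 1, 2, 3, 4, 0, 1, 2, 1, 0, 1, 0, 0, 1, 2, 1, 0, 1, 0]
  just := [0, 2, 0, 3, 4, 2, 1, 0, 5, 0, 6, 7, 5, 1, 0, 3, 4, 8, 0, 9, 0, 0, 6, 7, 9, 0, 8, 0]
  gA := 18
  gB := 20
  fin := 0
  sid := [0, 1, 2, 3, 4, 2, 1, 1, 0, 5, 6, 7, 5, 0, 2, 3, 4, 2, 8, 9, 5, 5, 6, 7, 5, 9, 8, 2]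
  off := [(0, 0), (0, 0), (0, 0), (0, 0), (0, 0), (1, -1), (1, -1), (0, 0), (0, 0), (0, 0), (0, 0), (0, 0), (-1, 1),
    (-1, 1), (0, 0), (0, 0), (0, 0), (1, -1), (0, 0), (0, 0), (0, 1), (0, 0), (0, 0), (0, 0), (-1, 1), (-1, 0), (-1,
    0), (0, -1)]

/-- glued arcs and equations -/
def tord7a_30 : TorT :=
  ⟨[(0, 0, true), (0, 2, false), (1, 3, false), (1, 5, true), (2, 4, false), (3, 5, true), (4, 4, true), (6, 6,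
    true)],
    [([0, 0, 0, 0, 1, 1, 0], 2), ([0, 0, 1, 0, 1, 0, 0], 2), ([0, 1, 0, 1, 0, 0, 0], 2), ([1, 0, 1, 1, 0, 1, 1], 2),
    ([1, 1, 0, 0, 0, 0, 1], 2)]⟩

theorem tord7a_30_ok : tord7a_30.OK 7 := TT.leaf_ok (T := ttd7a_30) (by decide +kernel)

/-- the torus -/
def ttd7a_31 : TT where
  k := 4
  rf := [false, true, true, false]
  tau := [9, 10, 11, 12, 14, 26, 27, 25, 15, 0, 1, 2, 3, 20, 4, 8, 21, 22, 23, 24, 13, 16, 17, 18, 19, 7, 5, 6]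
  par := [0, 0, 4, 5]
  stars := [[0, 27, 5, 15, 9], [1, 10], [2, 11], [3, 12], [4, 13, 14], [6, 26, 8, 16, 21], [7, 25, 20], [17, 22],
    [18, 23], [19, 24]]
  word := [[], [], [], [], [], [], [3, 0, 2], [2], [0], [], [], [], [], [], [], [1], [2], [2], [2], [2], [], [3],
    [3], [3], [3], [3], [], [3, 1, 2]]
  rank := [0, 1, 2, 3, 0, 0, 6, 5, 0, 0, 1, 2, 3, 4, 0, 0, 2, 1, 0, 1, 4, 2, 1, 0, 1, 5, 0, 6]
  just := [0, 1, 2, 3, 0, 0, 5, 6, 0, 0, 1, 2, 3, 4, 0, 0, 7, 8, 0, 9, 4, 7, 8, 0, 9, 6, 0, 5]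
  gA := 8
  gB := 18
  fin := 0
  sid := [0, 1, 2, 3, 4, 0, 5, 6, 5, 0, 1, 2, 3, 4, 4, 0, 5, 7, 8, 9, 6, 5, 7, 8, 9, 6, 5, 0]
  off := [(0, 0), (0, 0), (0, 0), (0, 0), (0, 0), (-1, 0), (0, 0), (0, 0), (0, 1), (0, 0), (0, 0), (0, 0), (0, 0),
    (0, 0), (0, 0), (-1, 0), (-1, 1), (0, 0), (0, 0), (0, 0), (0, 0), (-1, 0), (0, -1), (0, -1), (0, -1), (0, -1),
    (0, 0), (-1, 0)]

/-- glued arcs and equations -/
def tord7a_31 : TorT :=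
  ⟨[(0, 2, false), (0, 4, false), (1, 1, true), (1, 3, false), (2, 4, false), (3, 5, false), (5, 5, true), (6, 6,
    true)],
    [([0, 0, 0, 1, 0, 1, 0], 2), ([0, 0, 1, 0, 1, 0, 0], 2), ([0, 1, 0, 1, 0, 0, 0], 2), ([1, 0, 0, 0, 1, 0, 1], 2),
    ([1, 1, 1, 0, 0, 1, 1], 2)]⟩

theorem tord7a_31_ok : tord7a_31.OK 7 := TT.leaf_ok (T := ttd7a_31) (by decide +kernel)

/-- the torus -/
def ttd7a_32 : TT where
  k := 4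
  rf := [false, false, true, true]
  tau := [7, 8, 14, 15, 16, 17, 20, 0, 1, 21, 22, 23, 24, 27, 2, 3, 4, 5, 25, 26, 6, 9, 10, 11, 12, 18, 19, 13]
  par := [0, 0, 2, 9]
  stars := [[0, 14, 2, 8], [1, 7, 21, 9], [3, 15], [4, 16], [5, 17], [6, 18, 26, 20], [10, 22], [11, 23], [12, 24],
    [13, 25, 19, 27]]
  word := [[], [1, 2], [], [], [], [], [0, 3], [], [3, 0], [], [], [], [], [1, 2], [], [], [], [], [0], [2], [2, 1],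
    [], [], [], [], [1], [3], [3, 0]]
  rank := [0, 5, 0, 1, 2, 3, 4, 0, 5, 0, 1, 2, 3, 4, 0, 1, 2, 3, 0, 0, 4, 0, 1, 2, 3, 0, 0, 4]
  just := [0, 1, 0, 2, 3, 4, 5, 0, 1, 0, 6, 7, 8, 9, 0, 2, 3, 4, 0, 0, 5, 0, 6, 7, 8, 0, 0, 9]
  gA := 18
  gB := 19
  fin := 0
  sid := [0, 1, 0, 2, 3, 4, 5, 1, 0, 1, 6, 7, 8, 9, 0, 2, 3, 4, 5, 9, 5, 1, 6, 7, 8, 9, 5, 9]
  off := [(0, 0), (0, 0), (-1, 1), (0, 0), (0, 0), (0, 0), (0, 0), (0, 0), (0, 0), (1, -1), (0, 0), (0, 0), (0, 0),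
    (0, 0), (-1, 1), (0, 0), (0, 0), (0, 0), (0, 0), (1, 0), (-1, 1), (1, -1), (0, 0), (0, 0), (0, 0), (0, 0), (-1,
    0), (1, -1)]

/-- glued arcs and equations -/
def tord7a_32 : TorT :=
  ⟨[(0, 0, true), (0, 2, false), (1, 1, true), (1, 3, false), (2, 4, false), (3, 5, false), (4, 4, true), (5, 5,
    true), (6, 6, false)],
    [([0, 0, 0, 0, 1, 1, 2], 2), ([0, 0, 0, 1, 0, 1, 0], 2), ([0, 0, 1, 0, 1, 0, 0], 2), ([0, 1, 0, 1, 0, 0, 0], 2),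
    ([2, 1, 1, 0, 0, 0, 0], 2)]⟩

theorem tord7a_32_ok : tord7a_32.OK 7 := TT.leaf_ok (T := ttd7a_32) (by decide +kernel)

/-- the torus -/
def ttd7a_33 : TT where
  k := 4
  rf := [false, true, true, false]
  tau := [4, 12, 14, 15, 0, 26, 27, 23, 24, 18, 17, 16, 1, 20, 2, 3, 11, 10, 9, 22, 13, 25, 19, 7, 8, 21, 5, 6]
  par := [0, 1, 2, 5]
  stars := [[0, 27, 5], [1, 4, 16, 12], [2, 13, 14], [3, 15], [6, 26, 21], [7, 23, 20], [8, 24], [9, 19, 22, 25],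
    [10, 18], [11, 17]]
  word := [[2], [], [], [], [3], [], [1, 2, 0], [0], [0], [2], [2], [2], [], [], [], [], [3], [3], [3], [0], [], [1,
    3, 0], [1], [1], [1], [1, 2, 0], [], [1, 3, 0]]
  rank := [3, 0, 0, 1, 3, 0, 4, 0, 1, 0, 1, 2, 0, 1, 0, 1, 2, 1, 0, 2, 1, 3, 2, 0, 1, 3, 0, 4]
  just := [1, 0, 0, 3, 1, 0, 4, 0, 6, 0, 8, 9, 0, 2, 0, 3, 9, 8, 0, 5, 2, 7, 5, 0, 6, 7, 0, 4]
  gA := 7
  gB := 9
  fin := 0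
  sid := [0, 1, 2, 3, 1, 0, 4, 5, 6, 7, 8, 9, 1, 2, 2, 3, 1, 9, 8, 7, 5, 4, 7, 5, 6, 7, 4, 0]
  off := [(0, 0), (0, 0), (0, 0), (0, 0), (0, -1), (0, -1), (0, 0), (0, 0), (0, 0), (0, 0), (0, 0), (0, 0), (0, 0),
    (0, 0), (0, 0), (0, 0), (0, -1), (0, -1), (0, -1), (0, -1), (0, 0), (0, -1), (-1, -1), (-1, 0), (-1, 0), (-1, 0),
    (0, 0), (0, -1)]

/-- glued arcs and equations -/
def tord7a_33 : TorT :=
  ⟨[(0, 2, false), (0, 4, true), (1, 3, false), (1, 5, false), (2, 4, true), (3, 3, true), (5, 5, true), (6, 6,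
    true)],
    [([0, 0, 0, 1, 1, 0, 0], 2), ([0, 1, 0, 1, 0, 0, 0], 2), ([0, 1, 1, 0, 1, 1, 0], 2), ([1, 0, 0, 0, 0, 1, 1], 2),
    ([1, 0, 1, 0, 0, 0, 1], 2)]⟩

theorem tord7a_33_ok : tord7a_33.OK 7 := TT.leaf_ok (T := ttd7a_33) (by decide +kernel)

/-- the torus -/
def ttd7a_34 : TT where
  k := 4
  rf := [false, false, true, true]
  tau := [12, 8, 14, 15, 20, 7, 13, 5, 1, 21, 22, 27, 0, 6, 2, 3, 19, 24, 25, 16, 4, 9, 10, 26, 17, 18, 23, 11]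
  par := [0, 0, 2, 9]
  stars := [[0, 13], [1, 12, 21, 9], [2, 8, 5, 14], [3, 15], [4, 16, 20], [6, 7], [10, 22], [11, 23, 27], [17, 25,
    19], [18, 26, 24]]
  word := [[], [1, 2], [], [], [0, 3], [0, 3, 1, 2], [0, 3, 1, 2], [3, 0, 2, 1], [3, 0], [], [], [1, 2], [], [3, 0,
    2, 1], [], [], [0, 3], [0], [2], [2, 1], [2, 1], [], [], [1, 2], [1], [3], [3, 0], [3, 0]]
  rank := [0, 3, 0, 1, 2, 4, 5, 4, 3, 0, 1, 2, 0, 5, 0, 1, 1, 0, 0, 1, 2, 0, 1, 1, 0, 0, 1, 2]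
  just := [0, 1, 0, 3, 4, 2, 5, 2, 1, 0, 6, 7, 0, 5, 0, 3, 8, 0, 0, 8, 4, 0, 6, 9, 0, 0, 9, 7]
  gA := 17
  gB := 18
  fin := 0
  sid := [0, 1, 2, 3, 4, 2, 5, 5, 2, 1, 6, 7, 1, 0, 2, 3, 4, 8, 9, 8, 4, 1, 6, 7, 9, 8, 9, 7]
  off := [(0, 0), (0, 0), (0, 0), (0, 0), (0, 0), (1, -1), (0, 0), (0, 0), (1, -1), (1, -1), (0, 0), (0, 0), (0, 0),
    (0, 0), (0, 0), (0, 0), (0, 0), (0, 0), (0, 0), (-1, 1), (-1, 1), (1, -1), (0, 0), (0, 0), (-1, 0), (-1, 0), (0,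
    -1), (1, -1)]

/-- glued arcs and equations -/
def tord7a_34 : TorT :=
  ⟨[(0, 2, false), (0, 5, true), (1, 1, true), (1, 3, false), (2, 5, true), (3, 3, true), (4, 4, true), (4, 6,
    false), (6, 6, true)],
    [([0, 0, 0, 1, 1, 1, 0], 2), ([0, 0, 1, 0, 1, 0, 1], 2), ([0, 1, 0, 1, 0, 0, 0], 2), ([1, 0, 0, 0, 0, 0, 1], 2),
    ([1, 1, 1, 0, 0, 1, 0], 2)]⟩

theorem tord7a_34_ok : tord7a_34.OK 7 := TT.leaf_ok (T := ttd7a_34) (by decide +kernel)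

/-- the torus -/
def ttd7a_35 : TT where
  k := 4
  rf := [false, true, true, false]
  tau := [9, 10, 19, 24, 13, 7, 27, 5, 15, 0, 1, 18, 23, 4, 26, 8, 21, 22, 11, 2, 25, 16, 17, 12, 3, 20, 14, 6]
  par := [0, 0, 2, 3]
  stars := [[0, 27, 15, 9], [1, 10], [2, 11, 19], [3, 20, 25], [4, 24, 13], [5, 7], [6, 8, 16, 21], [12, 23, 18],
    [14, 26], [17, 22]]
  word := [[], [], [], [], [3], [3], [3, 0, 2], [2], [0], [], [], [], [2], [2], [], [1], [2], [2], [], [], [], [3],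
    [3], [3], [], [], [], [3, 1, 2]]
  rank := [0, 1, 0, 0, 1, 2, 5, 2, 0, 0, 1, 2, 0, 1, 2, 0, 4, 3, 2, 0, 1, 4, 3, 0, 0, 1, 2, 5]
  just := [0, 1, 0, 0, 4, 5, 6, 5, 0, 0, 1, 2, 0, 4, 8, 0, 9, 7, 2, 0, 3, 9, 7, 0, 0, 3, 8, 6]
  gA := 8
  gB := 12
  fin := 0
  sid := [0, 1, 2, 3, 4, 5, 6, 5, 6, 0, 1, 2, 7, 4, 8, 0, 6, 9, 7, 2, 3, 6, 9, 7, 4, 3, 8, 0]
  off := [(0, 0), (0, 0), (0, 0), (0, 0), (0, 0), (0, 0), (0, 0), (0, 1), (0, 1), (0, 0), (0, 0), (0, 0), (0, 0), (0,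
    1), (0, 0), (-1, 0), (-1, 1), (0, 0), (0, 0), (0, 0), (0, 0), (-1, 0), (0, -1), (0, -1), (0, 0), (0, 0), (0, 0),
    (-1, 0)]

/-- glued arcs and equations -/
def tord7a_35 : TorT :=
  ⟨[(0, 2, false), (0, 5, false), (1, 1, true), (1, 3, false), (2, 5, false), (3, 3, true), (4, 4, true), (4, 6,
    false), (6, 6, true)],
    [([0, 0, 0, 1, 1, 0, 1], 2), ([0, 0, 1, 0, 1, 1, 0], 2), ([0, 1, 0, 1, 0, 0, 0], 2), ([1, 0, 0, 0, 0, 1, 0], 2),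
    ([1, 1, 1, 0, 0, 0, 1], 2)]⟩

theorem tord7a_35_ok : tord7a_35.OK 7 := TT.leaf_ok (T := ttd7a_35) (by decide +kernel)

end Pool.Agent.Lib_MP_fa6e45
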