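import Pool.Agent.Lib_MP_fa6e45.CT5

/-!
MP_fa6e45_co, stage 9: straight-side patterns with `7` sides, tables of tori (generated by a program).
-/

namespace Pool.Agent.Lib_MP_fa6e45

/-- the torus -/
def ttd7a_36 : TT where
  k := 4
  rf := [false, false, true, true]
  tau := [9, 8, 7, 15, 11, 23, 18, 2, 1, 0, 22, 4, 16, 25, 26, 3, 12, 24, 6, 21, 27, 19, 10, 5, 17, 13, 14, 20]
  par := [0, 0, 3, 5]
  stars := [[0, 19, 22, 10], [1, 9], [2, 8], [3, 7, 26, 15], [4, 16, 12], [5, 11, 23], [6, 24, 18], [13, 17, 25],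
    [14, 27], [20, 21]]
  word := [[], [], [], [], [1], [], [3, 0], [], [], [], [0], [0], [0], [2], [2], [], [1], [1, 2], [1, 2], [2], [2],
    [3], [1], [], [3, 0], [3], [3], [3]]
  rank := [0, 1, 2, 0, 1, 0, 5, 2, 1, 0, 2, 1, 0, 3, 0, 0, 0, 4, 5, 2, 1, 2, 2, 0, 4, 3, 0, 1]
  just := [0, 1, 2, 0, 4, 0, 6, 2, 1, 0, 5, 4, 0, 3, 0, 0, 0, 7, 6, 9, 8, 9, 5, 0, 7, 3, 0, 8]
  gA := 12
  gB := 14
  fin := 0
  sid := [0, 1, 2, 3, 4, 5, 6, 3, 2, 1, 0, 5, 4, 7, 8, 3, 4, 7, 6, 0, 9, 9, 0, 5, 6, 7, 3, 8]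
  off := [(0, 0), (0, 0), (0, 0), (0, 0), (0, 0), (0, 0), (0, 0), (0, 0), (0, 0), (0, 0), (0, 0), (1, 0), (1, 0), (0,
    0), (0, 0), (0, 0), (0, 0), (-1, 0), (-1, 1), (-1, 1), (0, 0), (0, -1), (-1, 0), (0, 0), (0, 0), (0, -1), (0,
    -1), (0, -1)]

/-- glued arcs and equations -/
def tord7a_36 : TorT :=
  ⟨[(0, 2, true), (0, 5, true), (1, 1, true), (1, 3, false), (2, 5, false), (3, 3, true), (4, 4, true), (4, 6,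
    false), (6, 6, true)],
    [([0, 0, 0, 1, 1, 0, 1], 2), ([0, 0, 1, 0, 1, 1, 0], 2), ([0, 1, 1, 0, 0, 0, 0], 2), ([1, 0, 0, 0, 0, 0, 1], 2),
    ([1, 1, 0, 1, 0, 1, 0], 2)]⟩

theorem tord7a_36_ok : tord7a_36.OK 7 := TT.leaf_ok (T := ttd7a_36) (by decide +kernel)

/-- the torus -/
def ttd7a_37 : TT where
  k := 8
  rf := [false, false, true, false, false, true, true, true]
  tau := [7, 14, 15, 16, 26, 31, 41, 0, 35, 36, 37, 33, 24, 20, 1, 2, 3, 47, 39, 53, 13, 50, 51, 52, 12, 32, 4, 48,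
    43, 44, 45, 5, 25, 11, 55, 8, 9, 10, 54, 18, 46, 6, 49, 28, 29, 30, 40, 17, 27, 42, 21, 22, 23, 19, 38, 34]
  par := [0, 0, 1, 4, 5, 6, 17, 19]
  stars := [[0, 35, 8], [1, 7, 14], [2, 15], [3, 16], [4, 17, 48, 27], [5, 26, 32], [6, 31, 46, 41], [9, 36], [10,
    37], [11, 38, 55, 34], [12, 33, 25], [13, 24, 53, 20], [18, 40, 47], [19, 54, 39], [21, 42, 50], [22, 51], [23,
    52], [28, 49, 43], [29, 44], [30, 45]]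
  word := [[], [], [], [], [], [], [], [], [1, 2, 0, 3], [1, 2, 0, 3], [1, 2, 0, 3], [1], [1], [], [], [], [], [],
    [3], [], [], [0], [0], [0], [0], [], [], [], [2], [2], [2], [], [], [0], [2, 0], [2, 1, 3, 0], [2, 1, 3, 0], [2,
    1, 3, 0], [2], [2], [2], [], [0], [3], [3], [3], [3], [], [], [1], [1], [1], [1], [], [3], [1, 3]]
  rank := [0, 0, 1, 2, 0, 0, 0, 0, 8, 7, 6, 3, 2, 1, 0, 1, 2, 0, 2, 0, 1, 1, 0, 1, 2, 1, 0, 3, 2, 1, 0, 0, 1, 3, 5,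
    8, 7, 6, 3, 2, 1, 0, 4, 2, 1, 0, 1, 0, 3, 4, 1, 0, 1, 0, 3, 5]
  just := [0, 0, 2, 3, 0, 0, 0, 0, 7, 8, 9, 10, 11, 1, 0, 2, 3, 0, 12, 0, 1, 15, 0, 16, 11, 5, 0, 4, 18, 19, 0, 0, 5,
    10, 17, 7, 8, 9, 13, 12, 6, 0, 14, 18, 19, 0, 6, 0, 4, 14, 15, 0, 16, 0, 13, 17]
  gA := 22
  gB := 30
  fin := 0
  sid := [0, 1, 2, 3, 4, 5, 6, 1, 0, 7, 8, 9, 10, 11, 1, 2, 3, 4, 12, 13, 11, 14, 15, 16, 11, 10, 5, 4, 17, 18, 19,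
    6, 5, 10, 9, 0, 7, 8, 9, 13, 12, 6, 14, 17, 18, 19, 6, 12, 4, 17, 14, 15, 16, 11, 13, 9]
  off := [(0, 0), (0, 0), (0, 0), (0, 0), (0, 0), (0, 0), (0, 0), (0, 0), (0, 0), (0, 0), (0, 0), (0, 0), (0, 0), (0,
    0), (0, 0), (0, 0), (0, 0), (0, 0), (0, 0), (0, 0), (0, 0), (0, 0), (0, 0), (0, 0), (1, 0), (1, 0), (0, 0), (0,
    0), (0, 0), (0, 0), (0, 0), (0, 0), (0, 0), (1, 0), (1, 0), (0, 0), (0, 0), (0, 0), (0, 0), (0, 1), (0, 1), (0,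
    0), (0, 0), (0, -1), (0, -1), (0, -1), (0, -1), (0, 0), (0, 0), (-1, -1), (-1, 0), (-1, 0), (-1, 0), (0, 0), (0,
    0), (0, -1)]

/-- glued arcs and equations -/
def tord7a_37 : TorT :=
  ⟨[(0, 0, true), (0, 1, false), (1, 2, false), (2, 3, false), (3, 5, true), (4, 4, true), (4, 5, true), (6, 6,
    false)],
    [([0, 0, 0, 0, 1, 2, 0], 2), ([0, 0, 0, 1, 1, 0, 2], 2), ([0, 0, 1, 1, 0, 0, 0], 2), ([0, 1, 1, 0, 0, 0, 0], 2),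
    ([2, 1, 0, 0, 0, 0, 0], 2)]⟩

theorem tord7a_37_ok : tord7a_37.OK 7 := TT.leaf_ok (T := ttd7a_37) (by decide +kernel)

/-- the torus -/
def ttd7a_38 : TT where
  k := 12
  rf := [false, false, true, false, false, true, false, false, false, true, true, false]
  tau := [7, 14, 9, 22, 31, 30, 41, 0, 35, 2, 43, 52, 51, 20, 1, 44, 60, 61, 49, 50, 13, 64, 3, 36, 45, 59, 58, 76,
    39, 40, 5, 4, 65, 66, 83, 8, 23, 81, 82, 28, 29, 6, 71, 10, 15, 24, 80, 79, 69, 18, 19, 12, 11, 72, 73, 62, 74,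
    75, 26, 25, 16, 17, 55, 70, 21, 32, 33, 77, 78, 48, 63, 42, 53, 54, 56, 57, 27, 67, 68, 47, 46, 37, 38, 34]
  par := [0, 0, 1, 3, 4, 6, 10, 11, 16, 21, 27, 34]
  stars := [[0, 35, 8], [1, 7, 14], [2, 15, 44, 10], [3, 9, 36, 23], [4, 22, 65, 32], [5, 31], [6, 30, 41], [11, 43,
    72, 53], [12, 52], [13, 51, 20], [16, 60, 25, 45], [17, 61], [18, 49, 62], [19, 50], [21, 70, 64], [24, 37, 81,
    46], [26, 59], [27, 58, 76], [28, 83, 39], [29, 40], [33, 66], [34, 67, 77], [38, 82], [42, 63, 71], [47, 80],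
    [48, 79, 69], [54, 73], [55, 74, 56], [57, 75], [68, 78]]
  word := [[], [], [2, 0], [], [], [], [], [], [1, 3, 0, 2], [1, 3], [], [], [], [], [], [2, 0], [], [], [], [], [],
    [], [], [0, 2], [0], [3], [3], [], [], [], [], [], [], [], [], [3, 1, 2, 0], [3, 1], [], [], [], [], [], [2], [],
    [1, 3], [1], [2], [2], [2], [], [], [], [], [2], [2], [], [2], [2], [2], [2], [], [], [], [], [], [], [], [], [],
    [3], [], [3], [3], [3], [3], [3], [], [], [], [3], [3], [], [], []]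
  rank := [0, 0, 10, 0, 0, 1, 0, 0, 11, 10, 0, 0, 1, 1, 0, 9, 0, 1, 3, 2, 1, 0, 0, 7, 0, 8, 7, 0, 3, 2, 1, 0, 1, 2,
    0, 11, 7, 5, 4, 3, 2, 0, 2, 0, 9, 0, 6, 5, 3, 3, 2, 1, 0, 1, 0, 4, 5, 6, 7, 8, 0, 1, 4, 1, 0, 1, 2, 3, 4, 3, 1,
    2, 1, 0, 5, 6, 0, 3, 4, 5, 6, 5, 4, 0]
  just := [0, 0, 2, 0, 0, 5, 0, 0, 3, 2, 0, 0, 8, 1, 0, 10, 0, 11, 13, 9, 1, 0, 0, 15, 0, 16, 17, 0, 19, 6, 5, 0, 4,
    20, 0, 3, 15, 22, 18, 19, 6, 0, 7, 0, 10, 0, 24, 25, 23, 13, 9, 8, 0, 26, 0, 12, 27, 28, 17, 16, 0, 11, 12, 14,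
    0, 4, 20, 21, 29, 23, 14, 7, 26, 0, 27, 28, 0, 21, 29, 25, 24, 22, 18, 0]
  gA := 24
  gB := 54
  fin := 0
  sid := [0, 1, 2, 3, 4, 5, 6, 1, 0, 3, 2, 7, 8, 9, 1, 2, 10, 11, 12, 13, 9, 14, 4, 3, 15, 10, 16, 17, 18, 19, 6, 5,
    4, 20, 21, 0, 3, 15, 22, 18, 19, 6, 23, 7, 2, 10, 15, 24, 25, 12, 13, 9, 8, 7, 26, 27, 27, 28, 17, 16, 10, 11,
    12, 23, 14, 4, 20, 21, 29, 25, 14, 23, 7, 26, 27, 28, 17, 21, 29, 25, 24, 15, 22, 18]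
  off := [(0, 0), (0, 0), (0, 0), (0, 0), (0, 0), (0, 0), (0, 0), (0, 0), (0, 0), (-1, -1), (-1, -1), (0, 0), (0, 0),
    (0, 0), (0, 0), (0, 0), (0, 0), (0, 0), (0, 0), (0, 0), (0, 0), (0, 0), (0, 0), (0, 0), (0, 0), (0, -1), (0, 0),
    (0, 0), (0, 0), (0, 0), (0, 0), (0, 0), (0, 0), (0, 0), (0, 0), (0, 0), (-1, -1), (-1, -1), (0, 0), (0, 0), (0,
    0), (0, 0), (0, 0), (0, 0), (-1, -1), (-1, -1), (-1, 0), (0, 0), (0, 0), (0, 0), (0, 0), (0, 0), (0, 0), (0, 0),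
    (0, 0), (0, 0), (0, 0), (0, 0), (0, 1), (0, 1), (0, 0), (0, 0), (0, 0), (0, -1), (0, 0), (0, 0), (0, 0), (0, 0),
    (0, 0), (0, -1), (0, 0), (0, -1), (0, -1), (0, -1), (0, -1), (0, -1), (0, 0), (0, 0), (0, 0), (0, -1), (0, -1),
    (-1, -1), (0, 0), (0, 0)]

/-- glued arcs and equations -/
def tord7a_38 : TorT :=
  ⟨[(0, 0, true), (0, 1, false), (0, 4, false), (1, 2, false), (1, 3, true), (1, 5, false), (2, 2, true), (2, 4,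
    false), (2, 5, true), (3, 3, true), (3, 4, true), (3, 5, false), (6, 6, false), (6, 6, true)],
    [([0, 0, 0, 1, 0, 1, 0], 2), ([0, 0, 1, 0, 0, 0, 2], 2), ([0, 0, 1, 1, 2, 0, 0], 2), ([0, 1, 0, 0, 0, 1, 0], 2),
    ([0, 1, 1, 0, 2, 0, 0], 2), ([0, 1, 2, 1, 0, 0, 0], 2), ([1, 0, 0, 0, 1, 0, 1], 2), ([2, 1, 0, 0, 0, 0, 0], 2)]⟩

theorem tord7a_38_ok : tord7a_38.OK 7 := TT.leaf_ok (T := ttd7a_38) (by decide +kernel)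

/-- the torus -/
def ttd7a_39 : TT where
  k := 8
  rf := [false, false, true, false, true, false, true, true]
  tau := [7, 14, 15, 16, 11, 25, 34, 0, 28, 29, 30, 4, 39, 20, 1, 2, 3, 40, 47, 38, 13, 43, 44, 45, 33, 5, 31, 55, 8,
    9, 10, 26, 54, 24, 6, 50, 51, 52, 19, 12, 17, 48, 49, 21, 22, 23, 53, 18, 41, 42, 35, 36, 37, 46, 32, 27]
  par := [0, 0, 1, 5, 6, 12, 18, 27]
  stars := [[0, 28, 8], [1, 7, 14], [2, 15], [3, 16], [4, 17, 40, 12], [5, 11, 31, 26], [6, 25, 34], [9, 29], [10,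
    30], [13, 39, 20], [18, 48, 41], [19, 38, 53, 47], [21, 49, 43], [22, 44], [23, 45], [24, 46, 54, 33], [27, 32,
    55], [35, 42, 50], [36, 51], [37, 52]]
  word := [[], [], [], [], [1, 3], [], [], [], [2, 0, 3, 1], [2, 0, 3, 1], [2, 0, 3, 1], [2, 0], [], [], [], [], [],
    [1, 3], [], [], [], [0], [0], [0], [], [], [3, 1], [], [0, 2, 1, 3], [0, 2, 1, 3], [0, 2, 1, 3], [0, 2], [0, 2],
    [], [], [2], [2], [2], [], [], [2, 0], [2, 0], [1], [1], [1], [1], [2], [], [1, 3], [0], [3], [3], [3], [3], [3,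
    1], []]
  rank := [0, 0, 1, 2, 4, 0, 0, 0, 8, 7, 6, 4, 0, 1, 0, 1, 2, 3, 0, 2, 1, 0, 1, 2, 1, 0, 5, 0, 8, 7, 6, 5, 4, 1, 0,
    1, 0, 1, 2, 0, 3, 2, 1, 0, 1, 2, 3, 0, 2, 1, 1, 0, 1, 3, 4, 0]
  just := [0, 0, 2, 3, 4, 0, 0, 0, 7, 8, 5, 4, 0, 1, 0, 2, 3, 10, 0, 9, 1, 0, 13, 14, 6, 0, 16, 0, 7, 8, 5, 16, 15,
    6, 0, 18, 0, 19, 9, 0, 10, 17, 12, 0, 13, 14, 11, 0, 17, 12, 18, 0, 19, 11, 15, 0]
  gA := 21
  gB := 36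
  fin := 0
  sid := [0, 1, 2, 3, 4, 5, 6, 1, 0, 7, 8, 5, 4, 9, 1, 2, 3, 4, 10, 11, 9, 12, 13, 14, 15, 6, 5, 16, 0, 7, 8, 5, 16,
    15, 6, 17, 18, 19, 11, 9, 4, 10, 17, 12, 13, 14, 15, 11, 10, 12, 17, 18, 19, 11, 15, 16]
  off := [(0, 0), (0, 0), (0, 0), (0, 0), (0, 0), (0, 0), (0, 0), (0, 0), (0, 0), (0, 0), (0, 0), (1, 1), (1, 1), (0,
    0), (0, 0), (0, 0), (0, 0), (0, 0), (0, 0), (0, 0), (0, 0), (0, 0), (0, 0), (0, 0), (0, 0), (0, 0), (0, 0), (0,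
    0), (0, 0), (0, 0), (0, 0), (1, 1), (1, 1), (0, 0), (0, 0), (0, 0), (0, 0), (0, 0), (0, 0), (0, 0), (1, 1), (1,
    1), (-1, -1), (-1, 0), (-1, 0), (-1, 0), (-1, 0), (0, 0), (0, 0), (0, 0), (0, -1), (0, -1), (0, -1), (0, -1),
    (-1, -1), (0, 0)]

/-- glued arcs and equations -/
def tord7a_39 : TorT :=
  ⟨[(0, 0, true), (0, 1, false), (1, 2, false), (2, 3, false), (3, 5, false), (4, 4, true), (4, 5, true), (6, 6,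
    false)],
    [([0, 0, 0, 0, 1, 0, 2], 2), ([0, 0, 0, 1, 1, 2, 0], 2), ([0, 0, 1, 1, 0, 0, 0], 2), ([0, 1, 1, 0, 0, 0, 0], 2),
    ([2, 1, 0, 0, 0, 0, 0], 2)]⟩

theorem tord7a_39_ok : tord7a_39.OK 7 := TT.leaf_ok (T := ttd7a_39) (by decide +kernel)

/-- the torus -/
def ttd7a_40 : TT where
  k := 8
  rf := [false, false, true, false, false, true, true, true]
  tau := [7, 14, 26, 25, 30, 29, 41, 0, 35, 33, 32, 23, 22, 20, 1, 47, 46, 38, 52, 51, 13, 50, 12, 11, 31, 3, 2, 48,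
    43, 5, 4, 24, 10, 9, 55, 8, 54, 53, 17, 45, 44, 6, 49, 28, 40, 39, 16, 15, 27, 42, 21, 19, 18, 37, 36, 34]
  par := [0, 0, 1, 2, 4, 6, 15, 18]
  stars := [[0, 35, 8], [1, 7, 14], [2, 15, 48, 27], [3, 26], [4, 25, 31], [5, 30], [6, 29, 44, 41], [9, 36, 55, 34],
    [10, 33], [11, 32, 24], [12, 23], [13, 22, 51, 20], [16, 47], [17, 39, 46], [18, 53, 38], [19, 52], [21, 42, 50],
    [28, 49, 43], [37, 54], [40, 45]]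
  word := [[], [], [], [], [], [], [], [], [0, 2, 1, 3], [0], [0], [0], [0], [], [], [], [], [3], [], [], [], [1],
    [1], [1], [], [], [], [], [2], [], [], [], [1], [1], [2, 1], [2, 0, 3, 1], [2], [2], [2], [2], [2], [], [1], [3],
    [3], [3], [], [], [], [0], [0], [], [], [3], [3], [0, 3]]
  rank := [0, 0, 0, 1, 0, 1, 0, 0, 5, 4, 3, 1, 0, 1, 0, 0, 1, 2, 0, 1, 1, 2, 0, 1, 2, 1, 0, 1, 2, 1, 0, 2, 3, 4, 4,
    5, 4, 3, 2, 0, 1, 0, 3, 2, 1, 0, 1, 0, 1, 3, 2, 1, 0, 3, 4, 4]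
  just := [0, 0, 0, 3, 0, 5, 0, 0, 7, 8, 9, 10, 0, 1, 0, 0, 12, 13, 0, 15, 1, 11, 0, 10, 4, 3, 0, 2, 6, 5, 0, 4, 9,
    8, 17, 7, 18, 14, 13, 0, 19, 0, 16, 6, 19, 0, 12, 0, 2, 16, 11, 15, 0, 14, 18, 17]
  gA := 12
  gB := 39
  fin := 0
  sid := [0, 1, 2, 3, 4, 5, 6, 1, 0, 7, 8, 9, 10, 11, 1, 2, 12, 13, 14, 15, 11, 16, 11, 10, 9, 4, 3, 2, 17, 6, 5, 4,
    9, 8, 7, 0, 7, 18, 14, 13, 19, 6, 16, 17, 6, 19, 13, 12, 2, 17, 16, 11, 15, 14, 18, 7]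
  off := [(0, 0), (0, 0), (0, 0), (0, 0), (0, 0), (0, 0), (0, 0), (0, 0), (0, 0), (0, 0), (0, 0), (0, 0), (0, 0), (0,
    0), (0, 0), (0, 0), (0, 0), (0, 0), (0, 0), (0, 0), (0, 0), (0, 0), (-1, 0), (-1, 0), (-1, 0), (0, 0), (0, 0),
    (0, 0), (0, 0), (0, 0), (0, 0), (0, 0), (-1, 0), (-1, 0), (-1, 0), (0, 0), (0, 0), (0, 0), (0, 1), (0, 1), (0,
    0), (0, 0), (0, 0), (0, -1), (0, -1), (0, -1), (0, 0), (0, 0), (0, 0), (1, -1), (1, 0), (0, 0), (0, 0), (0, 0),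
    (0, -1), (0, -1)]

/-- glued arcs and equations -/
def tord7a_40 : TorT :=
  ⟨[(0, 0, true), (0, 1, false), (1, 5, true), (2, 4, true), (2, 5, true), (3, 3, true), (3, 4, true), (6, 6, false)],
    [([0, 0, 0, 1, 0, 1, 0], 2), ([0, 0, 0, 1, 2, 0, 0], 2), ([0, 0, 1, 0, 0, 1, 0], 2), ([0, 1, 1, 0, 0, 0, 2], 2),
    ([2, 1, 0, 0, 0, 0, 0], 2)]⟩

theorem tord7a_40_ok : tord7a_40.OK 7 := TT.leaf_ok (T := ttd7a_40) (by decide +kernel)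

/-- the torus -/
def ttd7a_41 : TT where
  k := 8
  rf := [false, false, true, true, false, false, true, true]
  tau := [7, 14, 9, 22, 23, 32, 27, 0, 21, 2, 15, 16, 39, 20, 1, 10, 11, 40, 47, 38, 13, 8, 3, 4, 33, 54, 31, 6, 43,
    52, 53, 26, 5, 24, 55, 50, 45, 46, 19, 12, 17, 48, 49, 28, 51, 36, 37, 18, 41, 42, 35, 44, 29, 30, 25, 34]
  par := [0, 0, 1, 3, 5, 12, 18, 25]
  stars := [[0, 21, 8], [1, 7, 14], [2, 15, 10], [3, 9, 22], [4, 23], [5, 24, 33], [6, 32, 27], [11, 16], [12, 17,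
    40], [13, 39, 20], [18, 48, 41], [19, 38, 47], [25, 55, 34], [26, 31, 54], [28, 49, 43], [29, 44, 52], [30, 53],
    [35, 42, 50], [36, 51, 45], [37, 46]]
  word := [[], [], [3], [], [], [], [1, 2, 0], [], [2], [2], [2], [2], [], [], [], [3], [3], [3], [], [], [], [3],
    [], [], [], [], [1, 3, 0], [1, 3, 0], [1, 2], [1, 2, 0], [1, 2, 0], [1, 2, 0], [], [], [], [0], [], [], [], [],
    [2], [2], [3, 0], [3, 0], [0], [], [], [], [3], [1, 2], [1], [1], [1, 3, 0], [1, 3, 0], [], []]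
  rank := [0, 0, 4, 0, 1, 0, 9, 0, 5, 4, 3, 2, 0, 1, 0, 3, 2, 1, 0, 2, 1, 5, 0, 1, 2, 0, 8, 9, 4, 6, 7, 8, 0, 2, 3,
    0, 4, 3, 2, 0, 1, 0, 1, 4, 5, 4, 3, 0, 0, 1, 0, 5, 6, 7, 0, 3]
  just := [0, 0, 2, 0, 4, 0, 6, 0, 3, 2, 7, 8, 0, 1, 0, 7, 8, 10, 0, 9, 1, 3, 0, 4, 5, 0, 13, 6, 14, 15, 16, 13, 0,
    5, 12, 0, 19, 11, 9, 0, 10, 0, 17, 14, 18, 19, 11, 0, 0, 17, 0, 18, 15, 16, 0, 12]
  gA := 35
  gB := 41
  fin := 0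
  sid := [0, 1, 2, 3, 4, 5, 6, 1, 0, 3, 2, 7, 8, 9, 1, 2, 7, 8, 10, 11, 9, 0, 3, 4, 5, 12, 13, 6, 14, 15, 16, 13, 6,
    5, 12, 17, 18, 19, 11, 9, 8, 10, 17, 14, 15, 18, 19, 11, 10, 14, 17, 18, 15, 16, 13, 12]
  off := [(0, 0), (0, 0), (0, 0), (0, 0), (0, 0), (0, 0), (0, 0), (0, 0), (0, 0), (0, 1), (0, 1), (0, 0), (0, 0), (0,
    0), (0, 0), (0, 0), (0, -1), (0, -1), (0, 0), (0, 0), (0, 0), (0, -1), (0, 0), (0, 0), (0, 0), (0, 0), (0, 0),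
    (0, -1), (0, 0), (0, 0), (0, 0), (0, 1), (0, 0), (0, 0), (0, 0), (0, 0), (0, 0), (0, 0), (0, 0), (0, 0), (0, 0),
    (0, 1), (0, -1), (1, -1), (1, -1), (0, 0), (0, 0), (0, 0), (0, 0), (0, 0), (-1, 0), (-1, 0), (0, -1), (0, -1),
    (0, 0), (0, 0)]

/-- glued arcs and equations -/
def tord7a_41 : TorT :=
  ⟨[(0, 0, true), (0, 1, false), (1, 3, false), (2, 2, true), (2, 4, false), (3, 5, false), (4, 5, true), (6, 6,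
    false)],
    [([0, 0, 0, 0, 1, 0, 2], 2), ([0, 0, 0, 1, 0, 2, 0], 2), ([0, 0, 1, 0, 1, 0, 0], 2), ([0, 1, 1, 1, 0, 0, 0], 2),
    ([2, 1, 0, 0, 0, 0, 0], 2)]⟩

theorem tord7a_41_ok : tord7a_41.OK 7 := TT.leaf_ok (T := ttd7a_41) (by decide +kernel)

end Pool.Agent.Lib_MP_fa6e45
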