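import Pool.Agent.Lib_MP_fa6e45.CT5

/-!
MP_fa6e45_co, stage 9: straight-side patterns with `7` sides, tables of tori (generated by a program).
-/

namespace Pool.Agent.Lib_MP_fa6e45

/-- the torus -/
def ttd7a_42 : TT where
  k := 8
  rf := [false, false, true, false, false, true, true, true]
  tau := [7, 14, 15, 25, 11, 31, 41, 0, 35, 36, 32, 4, 24, 20, 1, 2, 26, 47, 52, 23, 13, 50, 51, 19, 12, 3, 16, 48,
    43, 44, 40, 5, 10, 37, 55, 8, 9, 33, 54, 45, 30, 6, 49, 28, 29, 39, 53, 17, 27, 42, 21, 22, 18, 46, 38, 34]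
  par := [0, 0, 1, 3, 5, 6, 17, 18]
  stars := [[0, 35, 8], [1, 7, 14], [2, 15], [3, 16, 26], [4, 25, 12], [5, 11, 32], [6, 31, 41], [9, 36], [10, 37,
    33], [13, 24, 20], [17, 48, 27], [18, 53, 47], [19, 23, 52], [21, 42, 50], [22, 51], [28, 49, 43], [29, 44], [30,
    45, 40], [34, 38, 55], [39, 46, 54]]
  word := [[], [], [], [], [0], [], [], [], [1, 2, 0, 3], [1, 2, 0, 3], [1], [1], [1], [], [], [], [], [], [], [1],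
    [], [0], [0], [0], [0], [], [], [], [2], [2], [], [], [0], [2, 0, 3], [2, 0], [2, 1, 3, 0], [2, 1, 3, 0], [2, 1,
    3], [2], [2], [], [], [0], [3], [3], [3], [], [], [], [1], [1], [1], [], [], [3], [1, 3]]
  rank := [0, 0, 1, 0, 3, 0, 0, 0, 8, 7, 4, 3, 2, 1, 0, 1, 2, 0, 0, 1, 1, 1, 0, 1, 2, 0, 2, 3, 1, 0, 1, 0, 4, 6, 5,
    8, 7, 6, 3, 2, 1, 0, 4, 1, 0, 2, 1, 0, 3, 4, 1, 0, 0, 1, 3, 5]
  just := [0, 0, 2, 0, 4, 0, 0, 0, 7, 8, 5, 4, 9, 1, 0, 2, 3, 0, 0, 12, 1, 14, 0, 12, 9, 0, 3, 10, 16, 0, 6, 0, 5,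
    18, 15, 7, 8, 18, 19, 17, 6, 0, 13, 16, 0, 17, 11, 0, 10, 13, 14, 0, 0, 11, 19, 15]
  gA := 22
  gB := 29
  fin := 0
  sid := [0, 1, 2, 3, 4, 5, 6, 1, 0, 7, 8, 5, 4, 9, 1, 2, 3, 10, 11, 12, 9, 13, 14, 12, 9, 4, 3, 10, 15, 16, 17, 6,
    5, 8, 18, 0, 7, 8, 18, 19, 17, 6, 13, 15, 16, 17, 19, 11, 10, 15, 13, 14, 12, 11, 19, 18]
  off := [(0, 0), (0, 0), (0, 0), (0, 0), (0, 0), (0, 0), (0, 0), (0, 0), (0, 0), (0, 0), (0, 0), (-1, 0), (-1, 0),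
    (0, 0), (0, 0), (0, 0), (0, 0), (0, 0), (0, 0), (0, 0), (0, 0), (0, 0), (0, 0), (1, 0), (1, 0), (0, 0), (0, 0),
    (0, 0), (0, 0), (0, 0), (0, 0), (0, 0), (0, 0), (1, 0), (0, 0), (0, 0), (0, 0), (0, 0), (-1, 0), (0, 0), (0, 0),
    (0, 0), (0, 0), (0, -1), (0, -1), (0, -1), (0, -1), (0, 0), (0, 0), (-1, -1), (-1, 0), (-1, 0), (0, 0), (0, 0),
    (0, -1), (-1, -1)]

/-- glued arcs and equations -/
def tord7a_42 : TorT :=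
  ⟨[(0, 0, true), (0, 1, false), (1, 2, false), (2, 5, false), (3, 4, true), (3, 5, true), (4, 4, true), (6, 6,
    false)],
    [([0, 0, 0, 0, 2, 1, 0], 2), ([0, 0, 0, 1, 0, 0, 2], 2), ([0, 0, 1, 1, 0, 1, 0], 2), ([0, 1, 1, 0, 0, 0, 0], 2),
    ([2, 1, 0, 0, 0, 0, 0], 2)]⟩

theorem tord7a_42_ok : tord7a_42.OK 7 := TT.leaf_ok (T := ttd7a_42) (by decide +kernel)

/-- the torus -/
def ttd7a_43 : TT where
  k := 8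
  rf := [false, false, true, false, false, true, true, true]
  tau := [9, 8, 7, 14, 26, 29, 41, 2, 1, 0, 35, 33, 22, 20, 3, 47, 39, 38, 37, 53, 13, 52, 12, 32, 31, 30, 4, 48, 45,
    5, 25, 24, 23, 11, 55, 10, 54, 18, 17, 16, 46, 6, 51, 50, 49, 28, 40, 15, 27, 44, 43, 42, 21, 19, 36, 34]
  par := [0, 0, 3, 4, 5, 6, 15, 19]
  stars := [[0, 35, 10], [1, 9], [2, 8], [3, 7, 14], [4, 15, 48, 27], [5, 26, 30], [6, 29, 46, 41], [11, 36, 55, 34],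
    [12, 33, 23], [13, 22, 53, 20], [16, 40, 47], [17, 39], [18, 38], [19, 54, 37], [21, 42, 52], [24, 32], [25, 31],
    [28, 49, 45], [43, 51], [44, 50]]
  word := [[], [], [], [], [], [], [], [], [], [], [3, 1, 2, 0], [3], [3], [], [], [], [0], [0], [0], [], [], [2],
    [2], [], [], [], [], [], [1], [], [], [], [], [2], [1, 2], [1, 3, 0, 2], [1], [1], [1], [1], [1], [], [2], [2],
    [2], [0], [0], [], [], [3], [3], [3], [3], [], [0], [3, 0]]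
  rank := [0, 1, 2, 0, 0, 0, 0, 2, 1, 0, 6, 5, 4, 3, 0, 0, 0, 1, 2, 0, 3, 2, 4, 3, 2, 1, 0, 1, 2, 0, 1, 2, 3, 5, 3,
    6, 3, 2, 1, 0, 1, 0, 0, 1, 2, 2, 1, 0, 1, 2, 1, 0, 2, 0, 3, 3]
  just := [0, 1, 2, 0, 0, 0, 0, 2, 1, 0, 7, 8, 9, 3, 0, 0, 0, 11, 12, 0, 3, 14, 9, 15, 16, 5, 0, 4, 6, 0, 5, 16, 15,
    8, 17, 7, 13, 12, 11, 0, 10, 0, 0, 18, 19, 6, 10, 0, 4, 19, 18, 0, 14, 0, 13, 17]
  gA := 16
  gB := 42
  fin := 0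
  sid := [0, 1, 2, 3, 4, 5, 6, 3, 2, 1, 0, 7, 8, 9, 3, 4, 10, 11, 12, 13, 9, 14, 9, 8, 15, 16, 5, 4, 17, 6, 5, 16,
    15, 8, 7, 0, 7, 13, 12, 11, 10, 6, 14, 18, 19, 17, 6, 10, 4, 17, 19, 18, 14, 9, 13, 7]
  off := [(0, 0), (0, 0), (0, 0), (0, 0), (0, 0), (0, 0), (0, 0), (0, 0), (0, 0), (0, 0), (0, 0), (0, 0), (0, 0), (0,
    0), (0, 0), (0, 0), (0, 0), (0, 0), (0, 0), (0, 0), (0, 0), (0, 0), (0, 1), (0, 1), (0, 0), (0, 0), (0, 0), (0,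
    0), (0, 0), (0, 0), (0, 0), (0, 0), (0, 0), (0, 1), (0, 1), (0, 0), (0, 0), (-1, 0), (-1, 0), (-1, 0), (-1, 0),
    (0, 0), (0, 0), (0, 0), (0, 0), (1, 0), (1, 0), (0, 0), (0, 0), (1, -1), (0, -1), (0, -1), (0, -1), (0, 0), (0,
    0), (1, 0)]

/-- glued arcs and equations -/
def tord7a_43 : TorT :=
  ⟨[(0, 2, true), (0, 3, false), (1, 1, true), (1, 5, true), (2, 4, true), (3, 3, true), (4, 5, true), (6, 6, false)],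
    [([0, 0, 0, 1, 1, 0, 0], 2), ([0, 0, 1, 0, 0, 2, 0], 2), ([0, 1, 0, 0, 1, 0, 2], 2), ([0, 1, 1, 0, 0, 0, 0], 2),
    ([2, 0, 0, 1, 0, 0, 0], 2)]⟩

theorem tord7a_43_ok : tord7a_43.OK 7 := TT.leaf_ok (T := ttd7a_43) (by decide +kernel)

/-- the torus -/
def ttd7a_44 : TT where
  k := 4
  rf := [false, false, true, true]
  tau := [10, 9, 19, 12, 22, 16, 27, 25, 18, 1, 0, 21, 3, 20, 24, 23, 5, 26, 8, 2, 13, 11, 4, 15, 14, 7, 17, 6]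
  par := [0, 0, 2, 4]
  stars := [[0, 21, 11], [1, 10], [2, 9, 19], [3, 20, 13], [4, 12, 22], [5, 23, 16], [6, 17, 27], [7, 14, 25], [8,
    26, 18], [15, 24]]
  word := [[], [], [], [1], [], [3], [3, 0, 2], [0, 2], [], [], [], [0], [0], [0], [2], [2], [2], [0, 2], [], [],
    [1], [1], [], [3], [3], [3, 1], [3, 1], [3, 1, 2]]
  rank := [0, 1, 0, 1, 0, 2, 4, 1, 2, 1, 0, 2, 1, 0, 0, 1, 2, 3, 2, 0, 0, 2, 0, 1, 0, 1, 3, 4]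
  just := [0, 1, 0, 3, 0, 5, 6, 7, 2, 1, 0, 4, 3, 0, 0, 9, 5, 8, 2, 0, 0, 4, 0, 9, 0, 7, 8, 6]
  gA := 13
  gB := 14
  fin := 0
  sid := [0, 1, 2, 3, 4, 5, 6, 7, 8, 2, 1, 0, 4, 3, 7, 9, 5, 6, 8, 2, 3, 0, 4, 5, 9, 7, 8, 6]
  off := [(0, 0), (0, 0), (0, 0), (0, 0), (0, 0), (0, 0), (0, 0), (0, 0), (0, 0), (0, 0), (0, 0), (0, 0), (1, 0), (1,
    0), (-1, 0), (0, 0), (0, 1), (0, 1), (0, 0), (0, 0), (0, 0), (-1, 0), (0, 0), (0, 0), (0, -1), (-1, -1), (-1,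
    -1), (-1, 0)]

/-- glued arcs and equations -/
def tord7a_44 : TorT :=
  ⟨[(0, 3, true), (0, 4, false), (1, 2, true), (1, 4, false), (2, 5, false), (3, 5, true), (6, 6, false)],
    [([0, 0, 0, 1, 0, 0, 2], 2), ([0, 0, 2, 0, 0, 1, 0], 2), ([0, 1, 0, 0, 1, 1, 0], 2), ([0, 1, 0, 1, 0, 0, 0], 2),
    ([2, 0, 0, 0, 1, 0, 0], 2)]⟩

theorem tord7a_44_ok : tord7a_44.OK 7 := TT.leaf_ok (T := ttd7a_44) (by decide +kernel)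

/-- the torus -/
def ttd7a_45 : TT where
  k := 4
  rf := [false, false, true, true]
  tau := [9, 19, 25, 26, 23, 24, 20, 17, 18, 0, 14, 15, 22, 27, 10, 11, 21, 7, 8, 1, 6, 16, 12, 4, 5, 2, 3, 13]
  par := [0, 0, 1, 2]
  stars := [[0, 14, 10], [1, 9, 19], [2, 20, 6, 25], [3, 26], [4, 27, 13, 23], [5, 24], [7, 21, 17], [8, 18], [11,
    15], [12, 16, 22]]
  word := [[], [], [], [], [3, 0], [3, 0], [3, 0], [], [], [], [0, 3], [0, 3], [0], [2], [2, 1], [2, 1], [2], [], [],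
    [], [1, 2], [3], [1], [1, 2], [1, 2], [], [], [3]]
  rank := [0, 0, 0, 1, 2, 3, 4, 2, 1, 0, 5, 4, 0, 0, 5, 4, 3, 2, 1, 0, 4, 3, 0, 2, 3, 0, 1, 0]
  just := [0, 0, 0, 3, 4, 5, 2, 7, 1, 0, 8, 9, 0, 0, 8, 9, 6, 7, 1, 0, 2, 6, 0, 4, 5, 0, 3, 0]
  gA := 12
  gB := 13
  fin := 0
  sid := [0, 1, 2, 3, 4, 5, 2, 6, 7, 1, 0, 8, 9, 4, 0, 8, 9, 6, 7, 1, 2, 6, 9, 4, 5, 2, 3, 4]
  off := [(0, 0), (0, 0), (0, 0), (0, 0), (0, 0), (0, 0), (1, -1), (0, 0), (0, 0), (0, 0), (0, 0), (0, 0), (0, 0),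
    (0, 1), (-1, 1), (-1, 1), (-1, 1), (0, 0), (0, 0), (0, 0), (0, 0), (0, -1), (-1, 0), (-1, 1), (-1, 1), (0, 0),
    (0, 0), (0, 0)]

/-- glued arcs and equations -/
def tord7a_45 : TorT :=
  ⟨[(0, 2, true), (0, 3, false), (1, 4, false), (1, 5, false), (2, 4, false), (3, 5, false), (6, 6, false)],
    [([0, 0, 0, 1, 0, 1, 0], 2), ([0, 0, 1, 0, 1, 0, 2], 2), ([0, 1, 0, 0, 1, 0, 0], 2), ([0, 1, 1, 0, 0, 1, 0], 2),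
    ([2, 0, 0, 1, 0, 0, 0], 2)]⟩

theorem tord7a_45_ok : tord7a_45.OK 7 := TT.leaf_ok (T := ttd7a_45) (by decide +kernel)

/-- the torus -/
def ttd7a_46 : TT where
  k := 4
  rf := [false, false, false, false]
  tau := [7, 5, 19, 18, 21, 1, 13, 0, 12, 26, 25, 14, 8, 6, 11, 24, 23, 22, 3, 2, 27, 4, 17, 16, 15, 10, 9, 20]
  par := [0, 0, 2, 4]
  stars := [[0, 13, 8], [1, 7, 6], [2, 5, 21, 20], [3, 19], [4, 18, 22], [9, 12, 14, 27], [10, 26], [11, 25, 15],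
    [16, 24], [17, 23]]
  word := [[], [2], [], [], [], [3], [3], [], [0, 3, 1], [0], [0], [0], [0, 2, 1], [2], [1], [], [], [], [], [], [2],
    [], [], [], [], [1], [1], [3]]
  rank := [0, 1, 0, 1, 0, 1, 2, 0, 6, 1, 0, 5, 6, 2, 5, 4, 3, 2, 1, 0, 0, 0, 2, 3, 4, 0, 1, 0]
  just := [0, 2, 0, 3, 0, 2, 1, 0, 5, 6, 0, 7, 5, 1, 7, 8, 9, 4, 3, 0, 0, 0, 4, 9, 8, 0, 6, 0]
  gA := 10
  gB := 20
  fin := 0
  sid := [0, 1, 2, 3, 4, 2, 1, 1, 0, 5, 6, 7, 5, 0, 5, 7, 8, 9, 4, 3, 2, 2, 4, 9, 8, 7, 6, 5]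
  off := [(0, 0), (0, 0), (0, 0), (0, 0), (0, 0), (0, -1), (0, -1), (0, 0), (0, 0), (0, 0), (0, 0), (0, 0), (0, 1),
    (0, 1), (-1, 1), (-1, 0), (0, 0), (0, 0), (0, 0), (0, 0), (0, 0), (0, -1), (0, 0), (0, 0), (0, 0), (-1, 0), (-1,
    0), (-1, 0)]

/-- glued arcs and equations -/
def tord7a_46 : TorT :=
  ⟨[(0, 0, true), (0, 4, true), (1, 3, true), (1, 5, true), (2, 2, true), (2, 5, true), (3, 4, true), (6, 6, true)],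
    [([0, 0, 0, 1, 0, 1, 0], 2), ([0, 0, 1, 1, 0, 0, 0], 2), ([0, 1, 0, 0, 2, 0, 0], 2), ([1, 0, 1, 0, 0, 1, 1], 2),
    ([1, 1, 0, 0, 0, 0, 1], 2)]⟩

theorem tord7a_46_ok : tord7a_46.OK 7 := TT.leaf_ok (T := ttd7a_46) (by decide +kernel)

/-- the torus -/
def ttd7a_47 : TT where
  k := 4
  rf := [false, false, false, false]
  tau := [7, 5, 18, 21, 19, 1, 13, 0, 12, 25, 14, 26, 8, 6, 10, 24, 23, 22, 2, 4, 27, 3, 17, 16, 15, 9, 11, 20]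
  par := [0, 0, 2, 3]
  stars := [[0, 13, 8], [1, 7, 6], [2, 5, 19], [3, 18, 22], [4, 21, 20], [9, 12, 26], [10, 25, 15], [11, 14, 27],
    [16, 24], [17, 23]]
  word := [[], [2], [], [], [3], [3], [3], [], [0, 3, 1], [0], [0], [0, 2], [0, 2, 1], [2], [1], [], [], [], [], [2],
    [2], [], [], [], [], [1], [3, 1], [3]]
  rank := [0, 2, 0, 0, 1, 2, 3, 0, 5, 4, 0, 1, 5, 3, 0, 3, 2, 1, 0, 1, 0, 0, 1, 2, 3, 4, 1, 0]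
  just := [0, 2, 0, 0, 4, 2, 1, 0, 5, 6, 0, 7, 5, 1, 0, 8, 9, 3, 0, 4, 0, 0, 3, 9, 8, 6, 7, 0]
  gA := 10
  gB := 20
  fin := 0
  sid := [0, 1, 2, 3, 4, 2, 1, 1, 0, 5, 6, 7, 5, 0, 7, 6, 8, 9, 3, 2, 4, 4, 3, 9, 8, 6, 5, 7]
  off := [(0, 0), (0, 0), (0, 0), (0, 0), (0, 0), (0, -1), (0, -1), (0, 0), (0, 0), (0, 0), (0, 0), (0, 0), (0, 1),
    (0, 1), (-1, 0), (-1, 0), (0, 0), (0, 0), (0, 0), (0, 0), (0, 1), (0, 0), (0, 0), (0, 0), (0, 0), (-1, 0), (-1,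
    0), (-1, -1)]

/-- glued arcs and equations -/
def tord7a_47 : TorT :=
  ⟨[(0, 0, true), (0, 3, true), (1, 3, true), (1, 5, true), (2, 2, true), (2, 4, true), (4, 5, true), (6, 6, true)],
    [([0, 0, 1, 0, 0, 2, 0], 2), ([0, 0, 1, 1, 0, 0, 0], 2), ([0, 1, 0, 1, 1, 0, 0], 2), ([1, 0, 0, 0, 1, 0, 1], 2),
    ([1, 1, 0, 0, 0, 0, 1], 2)]⟩

theorem tord7a_47_ok : tord7a_47.OK 7 := TT.leaf_ok (T := ttd7a_47) (by decide +kernel)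

end Pool.Agent.Lib_MP_fa6e45
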