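import Pool.Agent.Lib_MP_fa6e45.CT5

/-!
MP_fa6e45_co, stage 9: straight-side patterns with `7` sides, tables of tori (generated by a program).
-/

namespace Pool.Agent.Lib_MP_fa6e45

/-- the torus -/
def ttd7a_48 : TT where
  k := 4
  rf := [false, false, false, false]
  tau := [7, 5, 14, 16, 15, 1, 13, 0, 12, 21, 23, 22, 8, 6, 2, 4, 3, 26, 25, 24, 27, 9, 11, 10, 19, 18, 17, 20]
  par := [0, 0, 2, 9]
  stars := [[0, 13, 8], [1, 7, 6], [2, 5, 15], [3, 14, 27, 17], [4, 16], [9, 12, 22], [10, 21, 20, 24], [11, 23],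
    [18, 26], [19, 25]]
  word := [[], [0, 3], [], [2, 1], [2, 1], [2, 1], [2, 1], [], [1, 2], [], [3, 0], [3, 0], [3, 0], [0, 3], [], [0,
    3], [0, 3], [0], [0], [0], [2], [], [1, 2], [1, 2], [1], [1], [1], [3]]
  rank := [0, 4, 0, 2, 3, 4, 5, 0, 4, 0, 2, 3, 4, 5, 0, 3, 2, 1, 0, 1, 0, 0, 3, 2, 1, 0, 1, 0]
  just := [0, 2, 0, 3, 4, 2, 1, 0, 5, 0, 6, 7, 5, 1, 0, 4, 3, 8, 0, 9, 0, 0, 7, 6, 9, 0, 8, 0]
  gA := 18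
  gB := 20
  fin := 0
  sid := [0, 1, 2, 3, 4, 2, 1, 1, 0, 5, 6, 7, 5, 0, 3, 2, 4, 3, 8, 9, 6, 6, 5, 7, 6, 9, 8, 3]
  off := [(0, 0), (0, 0), (0, 0), (0, 0), (0, 0), (-1, 1), (-1, 1), (0, 0), (0, 0), (0, 0), (0, 0), (0, 0), (1, -1),
    (1, -1), (0, 0), (0, 0), (1, -1), (1, -1), (0, 0), (0, 0), (0, 1), (0, 0), (0, 0), (-1, 1), (-1, 1), (-1, 0),
    (-1, 0), (0, -1)]

/-- glued arcs and equations -/
def tord7a_48 : TorT :=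
  ⟨[(0, 0, true), (0, 2, true), (1, 4, true), (1, 5, true), (2, 3, true), (3, 5, true), (4, 4, true), (6, 6, true)],
    [([0, 0, 0, 0, 1, 1, 0], 2), ([0, 0, 1, 0, 1, 0, 0], 2), ([0, 1, 1, 0, 0, 1, 0], 2), ([1, 0, 0, 2, 0, 0, 1], 2),
    ([1, 1, 0, 0, 0, 0, 1], 2)]⟩

theorem tord7a_48_ok : tord7a_48.OK 7 := TT.leaf_ok (T := ttd7a_48) (by decide +kernel)

/-- the torus -/
def ttd7a_49 : TT where
  k := 8
  rf := [false, false, true, false, true, false, true, true]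
  tau := [8, 18, 19, 26, 25, 24, 34, 17, 0, 37, 14, 43, 44, 55, 10, 42, 30, 7, 1, 2, 27, 36, 32, 33, 5, 4, 3, 20, 38,
    49, 16, 35, 22, 23, 6, 31, 21, 9, 28, 50, 51, 48, 15, 11, 12, 54, 53, 52, 41, 29, 39, 40, 47, 46, 45, 13]
  par := [0, 0, 1, 3, 6, 9, 11, 13]
  stars := [[0, 28, 38, 9], [1, 8, 18], [2, 19], [3, 20, 27], [4, 26], [5, 25], [6, 24, 34], [7, 49, 30, 17], [10,
    37, 21, 14], [11, 15, 43], [12, 44], [13, 45, 55], [16, 31, 35, 42], [22, 36, 32], [23, 33], [29, 50, 39], [40,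
    51], [41, 52, 48], [46, 54], [47, 53]]
  word := [[], [], [], [], [], [], [], [], [], [], [1], [], [], [], [0], [0], [0, 3, 1], [], [], [], [], [0], [], [],
    [], [], [], [], [0, 2, 1, 3], [0, 2, 1], [0, 2, 1], [0], [], [], [], [1], [1], [], [2, 0, 3, 1], [2], [2], [2],
    [1], [], [], [], [], [], [3], [0, 3, 1], [3], [3], [], [], [], []]
  rank := [0, 0, 1, 0, 1, 2, 0, 1, 0, 0, 3, 0, 1, 0, 3, 4, 6, 1, 0, 1, 2, 0, 4, 3, 2, 1, 0, 2, 8, 7, 6, 5, 4, 3, 0,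
    5, 0, 0, 8, 6, 5, 0, 4, 0, 1, 2, 3, 4, 0, 7, 6, 5, 4, 3, 2, 0]
  just := [0, 0, 2, 0, 4, 5, 0, 1, 0, 0, 8, 0, 10, 0, 8, 9, 12, 1, 0, 2, 3, 0, 14, 6, 5, 4, 0, 3, 15, 7, 12, 13, 14,
    6, 0, 13, 0, 0, 15, 16, 17, 0, 9, 0, 10, 11, 18, 19, 0, 7, 16, 17, 19, 18, 11, 0]
  gA := 21
  gB := 41
  fin := 0
  sid := [0, 1, 2, 3, 4, 5, 6, 7, 1, 0, 8, 9, 10, 11, 8, 9, 12, 7, 1, 2, 3, 8, 13, 14, 6, 5, 4, 3, 0, 15, 7, 12, 13,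
    14, 6, 12, 13, 8, 0, 15, 16, 17, 12, 9, 10, 11, 18, 19, 17, 7, 15, 16, 17, 19, 18, 11]
  off := [(0, 0), (0, 0), (0, 0), (0, 0), (0, 0), (0, 0), (0, 0), (0, 0), (0, 0), (0, 0), (0, 0), (0, 0), (0, 0), (0,
    0), (1, 0), (1, 0), (0, 0), (0, 0), (0, 0), (0, 0), (0, 0), (1, 0), (0, 0), (0, 0), (0, 0), (0, 0), (0, 0), (0,
    0), (0, 0), (0, 0), (0, 1), (0, 1), (0, 0), (0, 0), (0, 0), (-1, 1), (-1, 0), (0, 0), (0, 0), (0, 0), (0, 0), (0,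
    0), (-1, 0), (0, 0), (0, 0), (0, 0), (0, 0), (0, 0), (0, -1), (0, 0), (0, -1), (0, -1), (0, -1), (0, 0), (0, 0),
    (0, 0)]

/-- glued arcs and equations -/
def tord7a_49 : TorT :=
  ⟨[(0, 1, true), (0, 3, false), (1, 4, false), (2, 2, true), (2, 5, false), (3, 5, true), (4, 4, true), (6, 6,
    false)],
    [([0, 0, 0, 0, 1, 1, 0], 2), ([0, 0, 0, 1, 0, 0, 2], 2), ([0, 0, 1, 0, 0, 1, 0], 2), ([0, 2, 0, 0, 1, 0, 0], 2),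
    ([2, 0, 1, 1, 0, 0, 0], 2)]⟩

theorem tord7a_49_ok : tord7a_49.OK 7 := TT.leaf_ok (T := ttd7a_49) (by decide +kernel)

/-- the torus -/
def ttd7a_50 : TT where
  k := 4
  rf := [false, false, false, false]
  tau := [7, 5, 15, 14, 16, 1, 13, 0, 12, 22, 21, 23, 8, 6, 3, 2, 4, 26, 25, 24, 27, 10, 9, 11, 19, 18, 17, 20]
  par := [0, 0, 2, 9]
  stars := [[0, 13, 8], [1, 7, 6], [2, 5, 16], [3, 15], [4, 14, 27, 17], [9, 12, 23], [10, 22], [11, 21, 20, 24],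
    [18, 26], [19, 25]]
  word := [[], [0, 3], [], [], [2, 1], [2, 1], [2, 1], [], [1, 2], [], [], [3, 0], [3, 0], [0, 3], [], [], [0, 3],
    [0], [0], [0], [2], [], [], [1, 2], [1], [1], [1], [3]]
  rank := [0, 3, 0, 1, 2, 3, 4, 0, 3, 0, 1, 2, 3, 4, 1, 0, 2, 1, 0, 1, 0, 1, 0, 2, 1, 0, 1, 0]
  just := [0, 2, 0, 3, 4, 2, 1, 0, 5, 0, 6, 7, 5, 1, 3, 0, 4, 8, 0, 9, 0, 6, 0, 7, 9, 0, 8, 0]
  gA := 18
  gB := 20
  fin := 0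
  sid := [0, 1, 2, 3, 4, 2, 1, 1, 0, 5, 6, 7, 5, 0, 4, 3, 2, 4, 8, 9, 7, 7, 6, 5, 7, 9, 8, 4]
  off := [(0, 0), (0, 0), (0, 0), (0, 0), (0, 0), (-1, 1), (-1, 1), (0, 0), (0, 0), (0, 0), (0, 0), (0, 0), (1, -1),
    (1, -1), (0, 0), (0, 0), (0, 0), (1, -1), (0, 0), (0, 0), (0, 1), (0, 0), (0, 0), (0, 0), (-1, 1), (-1, 0), (-1,
    0), (0, -1)]

/-- glued arcs and equations -/
def tord7a_50 : TorT :=
  ⟨[(0, 0, true), (0, 3, true), (1, 2, true), (1, 5, true), (2, 4, true), (3, 5, true), (4, 4, true), (6, 6, true)],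
    [([0, 0, 0, 0, 1, 1, 0], 2), ([0, 0, 2, 0, 0, 1, 0], 2), ([0, 1, 0, 1, 0, 0, 0], 2), ([1, 0, 0, 1, 1, 0, 1], 2),
    ([1, 1, 0, 0, 0, 0, 1], 2)]⟩

theorem tord7a_50_ok : tord7a_50.OK 7 := TT.leaf_ok (T := ttd7a_50) (by decide +kernel)

/-- the torus -/
def ttd7a_51 : TT where
  k := 8
  rf := [false, false, false, true, false, true, true, true]
  tau := [11, 17, 16, 15, 9, 8, 27, 26, 5, 4, 31, 0, 21, 41, 32, 3, 2, 1, 30, 29, 48, 12, 40, 39, 45, 35, 7, 6, 47,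
    19, 18, 10, 14, 42, 55, 25, 52, 51, 50, 23, 22, 13, 33, 54, 53, 24, 49, 28, 20, 46, 38, 37, 36, 44, 43, 34]
  par := [0, 0, 1, 6, 10, 13, 20, 34]
  stars := [[0, 21, 12], [1, 11, 31, 18], [2, 17], [3, 16], [4, 15, 32, 10], [5, 9], [6, 8, 27], [7, 35, 26], [13,
    22, 41], [14, 42, 33], [19, 30], [20, 29, 48], [23, 40], [24, 46, 50, 39], [25, 36, 53, 45], [28, 49, 47], [34,
    43, 55], [37, 52], [38, 51], [44, 54]]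
  word := [[], [], [], [], [0], [0], [], [1], [1], [1], [], [], [2, 0, 3, 1], [], [0], [], [], [], [], [], [], [0, 2,
    1, 3], [0, 2, 1, 3], [0, 2, 1, 3], [0, 2, 1], [0], [0], [], [], [], [], [], [1], [1], [], [1], [2], [2], [2], [2,
    0, 3, 1], [2, 0, 3, 1], [], [0], [0], [0], [0, 3, 1], [], [], [], [], [3], [3], [3], [1], [1], []]
  rank := [0, 0, 1, 2, 3, 4, 0, 5, 4, 3, 0, 0, 10, 0, 0, 2, 1, 0, 1, 2, 0, 10, 9, 8, 7, 6, 5, 0, 3, 2, 1, 0, 0, 1, 0,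
    6, 1, 0, 1, 8, 9, 0, 1, 2, 3, 7, 4, 3, 0, 4, 1, 0, 1, 3, 2, 0]
  just := [0, 0, 2, 3, 4, 5, 0, 6, 5, 4, 0, 0, 8, 0, 0, 3, 2, 0, 1, 10, 0, 8, 12, 13, 14, 7, 6, 0, 11, 10, 1, 0, 0,
    9, 0, 7, 17, 0, 18, 13, 12, 0, 9, 16, 19, 14, 15, 11, 0, 15, 18, 0, 17, 19, 16, 0]
  gA := 14
  gB := 37
  fin := 0
  sid := [0, 1, 2, 3, 4, 5, 6, 7, 6, 5, 4, 1, 0, 8, 9, 4, 3, 2, 1, 10, 11, 0, 8, 12, 13, 14, 7, 6, 15, 11, 10, 1, 4,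
    9, 16, 7, 14, 17, 18, 13, 12, 8, 9, 16, 19, 14, 13, 15, 11, 15, 13, 18, 17, 14, 19, 16]
  off := [(0, 0), (0, 0), (0, 0), (0, 0), (0, 0), (0, 0), (0, 0), (0, 0), (-1, 0), (-1, 0), (-1, 0), (0, 0), (0, 0),
    (0, 0), (0, 0), (0, 0), (0, 0), (0, 0), (0, 0), (0, 0), (0, 0), (0, 0), (0, 0), (0, 0), (0, 0), (0, 0), (1, 0),
    (0, 0), (0, 0), (0, 0), (0, 0), (0, 0), (-1, 0), (-1, 0), (0, 0), (0, 0), (-1, 0), (0, 0), (0, 0), (0, 0), (0,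
    0), (0, 0), (0, 0), (1, 0), (0, 0), (0, -1), (0, -1), (0, 0), (0, 0), (0, 0), (0, -1), (0, -1), (0, -1), (-1,
    -1), (-1, 0), (0, 0)]

/-- glued arcs and equations -/
def tord7a_51 : TorT :=
  ⟨[(0, 4, true), (0, 5, false), (1, 3, true), (1, 5, true), (2, 2, true), (2, 4, true), (3, 3, true), (6, 6, false)],
    [([0, 0, 1, 0, 0, 1, 0], 2), ([0, 0, 1, 1, 0, 0, 0], 2), ([0, 1, 0, 0, 0, 0, 2], 2), ([0, 1, 0, 1, 2, 0, 0], 2),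
    ([2, 0, 0, 0, 0, 1, 0], 2)]⟩

theorem tord7a_51_ok : tord7a_51.OK 7 := TT.leaf_ok (T := ttd7a_51) (by decide +kernel)

/-- the torus -/
def ttd7a_52 : TT where
  k := 8
  rf := [false, false, true, false, true, false, true, true]
  tau := [9, 19, 23, 26, 25, 24, 20, 17, 18, 0, 14, 15, 29, 34, 10, 11, 28, 7, 8, 1, 6, 37, 47, 2, 5, 4, 3, 48, 16,
    12, 51, 54, 53, 52, 13, 45, 46, 21, 42, 43, 50, 55, 38, 39, 49, 35, 36, 22, 27, 44, 40, 30, 33, 32, 31, 41]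
  par := [0, 0, 1, 2, 12, 21, 22, 30]
  stars := [[0, 14, 10], [1, 9, 19], [2, 20, 6, 24], [3, 23, 48, 27], [4, 26], [5, 25], [7, 28, 17], [8, 18], [11,
    15], [12, 16, 29], [13, 30, 52, 34], [21, 42, 38], [22, 37, 47], [31, 55, 41, 51], [32, 54], [33, 53], [35, 49,
    45], [36, 46], [39, 43], [40, 44, 50]]
  word := [[], [], [], [2, 1], [2, 1], [2, 1], [2, 1], [], [], [], [1, 2], [1, 2], [], [3, 0], [3, 0], [3, 0], [3,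
    0], [], [], [], [0, 3], [], [], [], [0, 3], [0, 3], [0, 3], [0, 3], [1, 2], [], [], [1, 2], [1, 2], [1, 2], [1,
    2], [], [], [], [0, 3], [0, 3], [0], [2], [2, 1], [2, 1], [2], [], [], [], [2, 1], [3], [1], [], [3, 0], [3, 0],
    [3, 0], [3]]
  rank := [0, 0, 0, 7, 8, 9, 10, 2, 1, 0, 7, 6, 0, 4, 7, 6, 5, 2, 1, 0, 10, 0, 0, 0, 9, 8, 7, 6, 5, 0, 0, 1, 2, 3, 4,
    2, 1, 0, 5, 4, 0, 0, 5, 4, 3, 2, 1, 0, 6, 3, 0, 0, 3, 2, 1, 0]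
  just := [0, 0, 0, 3, 4, 5, 2, 7, 1, 0, 8, 9, 0, 10, 8, 9, 6, 7, 1, 0, 2, 0, 0, 0, 5, 4, 3, 11, 6, 0, 0, 13, 14, 15,
    10, 17, 12, 0, 18, 19, 0, 0, 18, 19, 16, 17, 12, 0, 11, 16, 0, 0, 15, 14, 13, 0]
  gA := 40
  gB := 41
  fin := 0
  sid := [0, 1, 2, 3, 4, 5, 2, 6, 7, 1, 0, 8, 9, 10, 0, 8, 9, 6, 7, 1, 2, 11, 12, 3, 2, 5, 4, 3, 6, 9, 10, 13, 14,
    15, 10, 16, 17, 12, 11, 18, 19, 13, 11, 18, 19, 16, 17, 12, 3, 16, 19, 13, 10, 15, 14, 13]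
  off := [(0, 0), (0, 0), (0, 0), (0, 0), (0, 0), (0, 0), (-1, 1), (0, 0), (0, 0), (0, 0), (0, 0), (0, 0), (0, 0),
    (0, 0), (1, -1), (1, -1), (1, -1), (0, 0), (0, 0), (0, 0), (0, 0), (0, 0), (0, 0), (0, 0), (0, 0), (1, -1), (1,
    -1), (1, -1), (-1, 1), (0, 0), (0, 0), (0, 0), (0, 0), (0, 0), (-1, 1), (0, 0), (0, 0), (0, 0), (0, 0), (0, 0),
    (0, 0), (1, 0), (-1, 1), (-1, 1), (-1, 1), (0, 0), (0, 0), (0, 0), (0, 0), (0, -1), (-1, 0), (0, 0), (0, 0), (1,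
    -1), (1, -1), (1, -1)]

/-- glued arcs and equations -/
def tord7a_52 : TorT :=
  ⟨[(0, 2, true), (0, 3, false), (1, 4, false), (1, 5, false), (2, 2, true), (3, 5, true), (4, 4, true), (6, 6,
    false)],
    [([0, 0, 0, 0, 1, 1, 0], 2), ([0, 0, 1, 1, 0, 0, 2], 2), ([0, 1, 0, 0, 1, 0, 0], 2), ([0, 1, 1, 0, 0, 1, 0], 2),
    ([2, 0, 0, 1, 0, 0, 0], 2)]⟩

theorem tord7a_52_ok : tord7a_52.OK 7 := TT.leaf_ok (T := ttd7a_52) (by decide +kernel)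

/-- the torus -/
def ttd7a_53 : TT where
  k := 4
  rf := [false, false, false, false]
  tau := [8, 17, 16, 15, 21, 23, 20, 18, 0, 19, 26, 25, 24, 27, 22, 3, 2, 1, 7, 9, 6, 4, 14, 5, 12, 11, 10, 13]
  par := [0, 0, 1, 4]
  stars := [[0, 20, 9], [1, 8, 18], [2, 17], [3, 16], [4, 15, 22], [5, 21, 13, 24], [6, 23, 14], [7, 27, 10, 19],
    [11, 26], [12, 25]]
  word := [[], [], [], [], [], [3, 0], [3, 0], [], [], [0, 3], [0], [0], [0], [2], [], [], [], [], [], [2, 1], [1,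
    2], [], [], [1, 2], [1], [1], [1], [3]]
  rank := [0, 0, 1, 2, 0, 2, 4, 1, 0, 2, 1, 0, 1, 0, 3, 2, 1, 0, 1, 2, 4, 0, 3, 2, 1, 0, 1, 0]
  just := [0, 0, 2, 3, 0, 5, 6, 1, 0, 7, 8, 0, 9, 0, 4, 3, 2, 0, 1, 7, 6, 0, 4, 5, 9, 0, 8, 0]
  gA := 11
  gB := 13
  fin := 0
  sid := [0, 1, 2, 3, 4, 5, 6, 7, 1, 0, 7, 8, 9, 5, 6, 4, 3, 2, 1, 7, 0, 5, 4, 6, 5, 9, 8, 7]
  off := [(0, 0), (0, 0), (0, 0), (0, 0), (0, 0), (0, 0), (0, 0), (0, 0), (0, 0), (0, 0), (1, -1), (0, 0), (0, 0),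
    (0, 1), (-1, 1), (0, 0), (0, 0), (0, 0), (0, 0), (0, 0), (-1, 1), (0, 0), (0, 0), (-1, 1), (-1, 1), (-1, 0), (-1,
    0), (0, -1)]

/-- glued arcs and equations -/
def tord7a_53 : TorT :=
  ⟨[(0, 1, true), (0, 4, true), (1, 3, true), (2, 2, true), (2, 5, true), (3, 5, true), (4, 4, true), (6, 6, true)],
    [([0, 0, 0, 0, 1, 1, 0], 2), ([0, 0, 1, 1, 0, 0, 0], 2), ([0, 2, 0, 0, 1, 0, 0], 2), ([1, 0, 0, 1, 0, 1, 1], 2),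
    ([1, 0, 1, 0, 0, 0, 1], 2)]⟩

theorem tord7a_53_ok : tord7a_53.OK 7 := TT.leaf_ok (T := ttd7a_53) (by decide +kernel)

end Pool.Agent.Lib_MP_fa6e45
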