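import Pool.Agent.Lib_MP_fa6e45.CT5

/-!
MP_fa6e45_co, stage 9: straight-side patterns with `7` sides, tables of tori (generated by a program).
-/

namespace Pool.Agent.Lib_MP_fa6e45

/-- the torus -/
def ttd7a_54 : TT where
  k := 8
  rf := [false, false, false, true, true, false, true, true]
  tau := [7, 16, 26, 12, 11, 10, 34, 0, 37, 33, 5, 4, 3, 27, 24, 25, 1, 21, 22, 44, 55, 17, 18, 43, 14, 15, 2, 13,
    38, 39, 50, 35, 36, 9, 6, 31, 32, 8, 28, 29, 51, 48, 49, 23, 19, 54, 53, 52, 41, 42, 30, 40, 47, 46, 45, 20]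
  par := [0, 0, 1, 2, 6, 8, 19, 20]
  stars := [[0, 28, 38, 8], [1, 7, 21, 17], [2, 16, 26], [3, 27, 13], [4, 12], [5, 11], [6, 10, 34], [9, 37, 33],
    [14, 49, 43, 24], [15, 25], [18, 22], [19, 23, 44], [20, 45, 55], [29, 39], [30, 51, 40], [31, 35, 42, 50], [32,
    36], [41, 52, 48], [46, 54], [47, 53]]
  word := [[], [], [], [0], [0], [0], [], [], [], [1], [1], [1], [1], [1], [], [], [], [1], [1], [], [], [0], [0],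
    [0], [], [], [], [0], [0, 2, 1, 3], [0, 2, 1, 3], [0, 2, 1], [0], [0], [0], [], [1], [1], [], [2, 0, 3, 1], [2,
    0, 3, 1], [2], [2], [1], [1], [], [], [], [], [3], [0], [0, 3, 1], [3], [], [], [], []]
  rank := [0, 0, 0, 0, 1, 2, 0, 0, 0, 3, 2, 1, 0, 1, 2, 1, 0, 2, 3, 0, 0, 2, 3, 4, 2, 1, 0, 1, 8, 7, 6, 5, 4, 3, 0,
    5, 4, 0, 8, 7, 4, 0, 5, 4, 0, 1, 2, 3, 0, 5, 6, 4, 3, 2, 1, 0]
  just := [0, 0, 0, 0, 4, 5, 0, 0, 0, 6, 5, 4, 0, 3, 9, 2, 0, 1, 10, 0, 0, 1, 10, 11, 9, 2, 0, 3, 13, 14, 15, 16, 7,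
    6, 0, 16, 7, 0, 13, 14, 17, 0, 8, 11, 0, 12, 18, 19, 0, 8, 15, 17, 19, 18, 12, 0]
  gA := 3
  gB := 41
  fin := 0
  sid := [0, 1, 2, 3, 4, 5, 6, 1, 0, 7, 6, 5, 4, 3, 8, 9, 2, 1, 10, 11, 12, 1, 10, 11, 8, 9, 2, 3, 0, 13, 14, 15, 16,
    7, 6, 15, 16, 7, 0, 13, 14, 17, 15, 8, 11, 12, 18, 19, 17, 8, 15, 14, 17, 19, 18, 12]
  off := [(0, 0), (0, 0), (0, 0), (0, 0), (0, 0), (0, 0), (0, 0), (0, 0), (0, 0), (0, 0), (-1, 0), (-1, 0), (-1, 0),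
    (-1, 0), (0, 0), (0, 0), (0, 0), (0, 0), (0, 0), (0, 0), (0, 0), (1, 0), (1, 0), (1, 0), (0, 0), (0, 0), (0, 0),
    (0, 0), (0, 0), (0, 0), (0, 0), (0, 0), (0, 0), (1, 0), (0, 0), (-1, 0), (-1, 0), (0, 0), (0, 0), (0, 0), (0, 0),
    (0, 0), (-1, -1), (-1, 0), (0, 0), (0, 0), (0, 0), (0, 0), (0, -1), (0, 0), (0, -1), (0, -1), (0, -1), (0, 0),
    (0, 0), (0, 0)]

/-- glued arcs and equations -/
def tord7a_54 : TorT :=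
  ⟨[(0, 0, true), (0, 3, false), (1, 2, true), (1, 4, false), (2, 5, false), (3, 5, true), (4, 4, true), (6, 6,
    false)],
    [([0, 0, 0, 0, 1, 1, 0], 2), ([0, 0, 0, 1, 0, 0, 2], 2), ([0, 0, 2, 0, 0, 1, 0], 2), ([0, 1, 0, 0, 1, 0, 0], 2),
    ([2, 1, 0, 1, 0, 0, 0], 2)]⟩

theorem tord7a_54_ok : tord7a_54.OK 7 := TT.leaf_ok (T := ttd7a_54) (by decide +kernel)

/-- the torus -/
def ttd7a_55 : TT where
  k := 8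
  rf := [false, false, true, false, true, false, true, true]
  tau := [9, 19, 5, 24, 25, 2, 20, 17, 18, 0, 14, 15, 29, 34, 10, 11, 28, 7, 8, 1, 6, 37, 47, 26, 3, 4, 23, 48, 16,
    12, 33, 52, 53, 30, 13, 45, 46, 21, 42, 43, 50, 55, 38, 39, 49, 35, 36, 22, 27, 44, 40, 54, 31, 32, 51, 41]
  par := [0, 0, 1, 3, 12, 21, 22, 31]
  stars := [[0, 14, 10], [1, 9, 19], [2, 20, 6], [3, 5, 25], [4, 24, 26], [7, 28, 17], [8, 18], [11, 15], [12, 16,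
    29], [13, 30, 34], [21, 42, 38], [22, 37, 47], [23, 48, 27], [31, 53, 33], [32, 54, 52], [35, 49, 45], [36, 46],
    [39, 43], [40, 44, 50], [41, 51, 55]]
  word := [[], [], [0, 3], [], [2, 1], [2, 1], [2, 1], [], [], [], [1, 2], [1, 2], [], [3, 0], [3, 0], [3, 0], [3,
    0], [], [], [], [0, 3], [], [], [2, 1], [], [0, 3], [0, 3], [0, 3], [1, 2], [], [3, 0], [], [1, 2], [1, 2], [1,
    2], [], [], [], [0, 3], [0, 3], [0], [2], [2, 1], [2, 1], [2], [], [], [], [2, 1], [3], [1], [1, 2], [], [3, 0],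
    [3, 0], [3]]
  rank := [0, 0, 9, 0, 8, 9, 10, 2, 1, 0, 7, 6, 0, 4, 7, 6, 5, 2, 1, 0, 10, 0, 0, 7, 0, 8, 7, 6, 5, 0, 3, 0, 2, 3, 4,
    2, 1, 0, 5, 4, 0, 0, 5, 4, 3, 2, 1, 0, 6, 3, 0, 1, 0, 2, 1, 0]
  just := [0, 0, 3, 0, 4, 3, 2, 6, 1, 0, 7, 8, 0, 9, 7, 8, 5, 6, 1, 0, 2, 0, 0, 12, 0, 4, 12, 10, 5, 0, 13, 0, 14,
    13, 9, 16, 11, 0, 17, 18, 0, 0, 17, 18, 15, 16, 11, 0, 10, 15, 0, 19, 0, 14, 19, 0]
  gA := 40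
  gB := 41
  fin := 0
  sid := [0, 1, 2, 3, 4, 3, 2, 5, 6, 1, 0, 7, 8, 9, 0, 7, 8, 5, 6, 1, 2, 10, 11, 12, 4, 3, 4, 12, 5, 8, 9, 13, 14,
    13, 9, 15, 16, 11, 10, 17, 18, 19, 10, 17, 18, 15, 16, 11, 12, 15, 18, 19, 14, 13, 14, 19]
  off := [(0, 0), (0, 0), (0, 0), (0, 0), (0, 0), (-1, 1), (-1, 1), (0, 0), (0, 0), (0, 0), (0, 0), (0, 0), (0, 0),
    (0, 0), (1, -1), (1, -1), (1, -1), (0, 0), (0, 0), (0, 0), (0, 0), (0, 0), (0, 0), (0, 0), (0, 0), (0, 0), (1,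
    -1), (1, -1), (-1, 1), (0, 0), (0, 0), (0, 0), (0, 0), (-1, 1), (-1, 1), (0, 0), (0, 0), (0, 0), (0, 0), (0, 0),
    (0, 0), (0, 0), (-1, 1), (-1, 1), (-1, 1), (0, 0), (0, 0), (0, 0), (0, 0), (0, -1), (-1, 0), (-1, 0), (0, 0), (0,
    0), (1, -1), (0, -1)]

/-- glued arcs and equations -/
def tord7a_55 : TorT :=
  ⟨[(0, 2, true), (0, 3, false), (1, 4, false), (1, 5, false), (2, 5, true), (3, 3, true), (4, 4, true), (6, 6,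
    false)],
    [([0, 0, 0, 1, 1, 1, 0], 2), ([0, 0, 1, 0, 0, 0, 2], 2), ([0, 1, 0, 0, 1, 0, 0], 2), ([0, 1, 1, 0, 0, 1, 0], 2),
    ([2, 0, 0, 1, 0, 0, 0], 2)]⟩

theorem tord7a_55_ok : tord7a_55.OK 7 := TT.leaf_ok (T := ttd7a_55) (by decide +kernel)

/-- the torus -/
def ttd7a_56 : TT where
  k := 8
  rf := [false, false, true, false, true, false, true, true]
  tau := [9, 8, 7, 14, 15, 24, 34, 2, 1, 0, 28, 29, 38, 20, 3, 4, 25, 47, 23, 33, 13, 45, 46, 18, 5, 16, 40, 55, 10,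
    11, 39, 54, 37, 19, 6, 52, 53, 32, 12, 30, 26, 48, 51, 50, 49, 21, 22, 17, 41, 44, 43, 42, 35, 36, 31, 27]
  par := [0, 0, 3, 5, 6, 12, 17, 27]
  stars := [[0, 28, 10], [1, 9], [2, 8], [3, 7, 14], [4, 15], [5, 16, 25], [6, 24, 19, 34], [11, 29], [12, 30, 39],
    [13, 38, 33, 20], [17, 48, 41, 26], [18, 23, 47], [21, 49, 45], [22, 46], [27, 40, 31, 55], [32, 37, 54], [35,
    42, 52], [36, 53], [43, 51], [44, 50]]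
  word := [[], [], [], [], [], [], [], [], [], [], [2, 0, 3, 1], [2, 0, 3, 1], [], [], [], [], [], [], [1], [1], [],
    [0], [0], [0], [], [], [1, 3], [], [0, 2, 1, 3], [0, 2, 1, 3], [0, 2, 1, 3], [0, 2], [0], [0], [], [2], [2], [1],
    [], [2, 0, 3, 1], [2, 0], [2, 0], [1], [1], [1], [1], [1], [], [1, 3], [0], [0], [0], [3], [3], [3, 1], []]
  rank := [0, 1, 2, 0, 1, 0, 0, 2, 1, 0, 8, 7, 0, 3, 0, 1, 2, 0, 2, 3, 3, 0, 1, 2, 0, 2, 5, 0, 8, 7, 6, 5, 4, 3, 0,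
    0, 1, 4, 0, 6, 5, 4, 3, 2, 1, 0, 1, 0, 4, 1, 2, 3, 0, 1, 5, 0]
  just := [0, 1, 2, 0, 4, 0, 0, 2, 1, 0, 7, 8, 0, 3, 0, 4, 5, 0, 11, 6, 3, 0, 13, 11, 0, 5, 10, 0, 7, 8, 14, 15, 9,
    6, 0, 0, 17, 9, 0, 14, 10, 16, 18, 19, 12, 0, 13, 0, 16, 12, 19, 18, 0, 17, 15, 0]
  gA := 21
  gB := 35
  fin := 0
  sid := [0, 1, 2, 3, 4, 5, 6, 3, 2, 1, 0, 7, 8, 9, 3, 4, 5, 10, 11, 6, 9, 12, 13, 11, 6, 5, 10, 14, 0, 7, 8, 14, 15,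
    9, 6, 16, 17, 15, 9, 8, 14, 10, 16, 18, 19, 12, 13, 11, 10, 12, 19, 18, 16, 17, 15, 14]
  off := [(0, 0), (0, 0), (0, 0), (0, 0), (0, 0), (0, 0), (0, 0), (0, 0), (0, 0), (0, 0), (0, 0), (0, 0), (0, 0), (0,
    0), (0, 0), (0, 0), (0, 0), (0, 0), (0, 0), (-1, 0), (0, 0), (0, 0), (0, 0), (1, 0), (0, 0), (0, 0), (0, 0), (0,
    0), (0, 0), (0, 0), (0, 0), (1, 1), (0, 0), (1, 0), (0, 0), (0, 0), (0, 0), (-1, 0), (0, 0), (0, 0), (1, 1), (1,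
    1), (-1, -1), (0, 0), (0, 0), (-1, 0), (-1, 0), (0, 0), (0, 0), (0, 0), (1, 0), (1, 0), (0, -1), (0, -1), (-1,
    -1), (0, 0)]

/-- glued arcs and equations -/
def tord7a_56 : TorT :=
  ⟨[(0, 2, true), (0, 3, false), (1, 1, true), (1, 4, false), (2, 4, false), (3, 5, true), (5, 5, true), (6, 6,
    false)],
    [([0, 0, 0, 1, 0, 1, 2], 2), ([0, 0, 1, 0, 1, 1, 0], 2), ([0, 1, 0, 0, 1, 0, 0], 2), ([0, 1, 1, 0, 0, 0, 0], 2),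
    ([2, 0, 0, 1, 0, 0, 0], 2)]⟩

theorem tord7a_56_ok : tord7a_56.OK 7 := TT.leaf_ok (T := ttd7a_56) (by decide +kernel)

/-- the torus -/
def ttd7a_57 : TT where
  k := 8
  rf := [false, false, true, true, false, false, true, true]
  tau := [7, 18, 19, 12, 11, 10, 27, 0, 25, 26, 5, 4, 3, 20, 30, 31, 28, 29, 1, 2, 13, 37, 38, 35, 36, 8, 9, 6, 16,
    17, 14, 15, 43, 44, 55, 23, 24, 21, 22, 50, 51, 48, 49, 32, 33, 54, 53, 52, 41, 42, 39, 40, 47, 46, 45, 34]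
  par := [0, 0, 1, 6, 14, 21, 32, 34]
  stars := [[0, 21, 37, 25, 8], [1, 7, 14, 30, 18], [2, 19], [3, 20, 13], [4, 12], [5, 11], [6, 10, 27], [9, 26],
    [15, 31], [16, 28, 49, 43, 32], [17, 29], [22, 38], [23, 35, 42, 50, 39], [24, 36], [33, 44], [34, 45, 55], [40,
    51], [41, 52, 48], [46, 54], [47, 53]]
  word := [[], [], [], [1], [1], [1], [], [], [0], [0], [0], [0], [0], [0], [], [], [0], [0], [], [], [1], [], [],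
    [2, 1, 3], [2, 1, 3], [1], [1], [], [1], [1], [], [], [], [], [], [2, 0, 3], [2, 0, 3], [], [], [2], [2], [2],
    [0], [], [], [], [], [], [3], [1], [3], [3], [], [], [], []]
  rank := [0, 0, 1, 2, 3, 4, 0, 0, 6, 5, 4, 3, 2, 0, 0, 1, 2, 1, 0, 1, 0, 0, 1, 6, 7, 6, 5, 0, 2, 1, 0, 1, 0, 1, 0,
    6, 7, 0, 1, 1, 0, 5, 3, 0, 1, 2, 3, 4, 5, 3, 1, 0, 4, 3, 2, 0]
  just := [0, 0, 2, 3, 4, 5, 0, 0, 7, 6, 5, 4, 3, 0, 0, 8, 10, 1, 0, 2, 0, 0, 11, 12, 13, 7, 6, 0, 10, 1, 0, 8, 0,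
    14, 0, 12, 13, 0, 11, 16, 0, 17, 9, 0, 14, 15, 18, 19, 17, 9, 16, 0, 19, 18, 15, 0]
  gA := 13
  gB := 40
  fin := 0
  sid := [0, 1, 2, 3, 4, 5, 6, 1, 0, 7, 6, 5, 4, 3, 1, 8, 9, 10, 1, 2, 3, 0, 11, 12, 13, 0, 7, 6, 9, 10, 1, 8, 9, 14,
    15, 12, 13, 0, 11, 12, 16, 17, 12, 9, 14, 15, 18, 19, 17, 9, 12, 16, 17, 19, 18, 15]
  off := [(0, 0), (0, 0), (0, 0), (0, 0), (0, 0), (0, 0), (0, 0), (0, 0), (0, 0), (0, 0), (1, 0), (1, 0), (1, 0), (1,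
    0), (-1, 0), (0, 0), (0, 0), (0, 0), (0, 0), (0, 0), (0, 0), (0, 0), (0, 0), (0, 0), (0, 0), (-1, 0), (-1, 0),
    (0, 0), (-1, 0), (-1, 0), (-1, 0), (0, 0), (0, 0), (0, 0), (0, 0), (1, 0), (1, 0), (0, 0), (0, 0), (0, 0), (0,
    0), (0, 0), (1, -1), (0, 0), (0, 0), (0, 0), (0, 0), (0, 0), (0, -1), (-1, 0), (0, -1), (0, -1), (0, -1), (0, 0),
    (0, 0), (0, 0)]

/-- glued arcs and equations -/
def tord7a_57 : TorT :=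
  ⟨[(0, 0, true), (0, 2, false), (1, 3, false), (1, 4, false), (2, 5, false), (3, 5, true), (4, 4, true), (6, 6,
    false)],
    [([0, 0, 0, 0, 1, 1, 0], 2), ([0, 0, 0, 1, 0, 0, 2], 2), ([0, 0, 1, 0, 0, 1, 0], 2), ([0, 1, 0, 1, 0, 0, 0], 2),
    ([2, 1, 1, 0, 1, 0, 0], 2)]⟩

theorem tord7a_57_ok : tord7a_57.OK 7 := TT.leaf_ok (T := ttd7a_57) (by decide +kernel)

/-- the torus -/
def ttd7a_58 : TT where
  k := 8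
  rf := [false, false, true, false, true, false, true, true]
  tau := [9, 8, 7, 14, 15, 25, 34, 2, 1, 0, 28, 29, 39, 20, 3, 4, 30, 40, 47, 38, 13, 45, 46, 37, 33, 5, 31, 55, 10,
    11, 16, 26, 54, 24, 6, 52, 53, 23, 19, 12, 17, 48, 51, 50, 49, 21, 22, 18, 41, 44, 43, 42, 35, 36, 32, 27]
  par := [0, 0, 3, 5, 6, 12, 18, 27]
  stars := [[0, 28, 10], [1, 9], [2, 8], [3, 7, 14], [4, 15], [5, 16, 31, 26], [6, 25, 34], [11, 29], [12, 30, 17,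
    40], [13, 39, 20], [18, 48, 41], [19, 38, 23, 47], [21, 49, 45], [22, 46], [24, 37, 54, 33], [27, 32, 55], [35,
    42, 52], [36, 53], [43, 51], [44, 50]]
  word := [[], [], [], [], [], [], [], [], [], [], [2, 0, 3, 1], [2, 0, 3, 1], [], [], [], [], [3, 1], [1, 3], [],
    [], [], [0], [0], [0], [], [], [3, 1], [], [0, 2, 1, 3], [0, 2, 1, 3], [0, 2], [0, 2], [0, 2], [], [], [2], [2],
    [1], [], [], [2, 0], [2, 0], [1], [1], [1], [1], [1], [], [1, 3], [0], [0], [0], [3], [3], [3, 1], []]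
  rank := [0, 1, 2, 0, 1, 0, 0, 2, 1, 0, 10, 9, 0, 3, 0, 1, 8, 5, 0, 4, 3, 0, 1, 5, 1, 0, 7, 0, 10, 9, 8, 7, 6, 1, 0,
    1, 0, 5, 4, 0, 5, 4, 3, 2, 1, 0, 1, 0, 4, 1, 2, 3, 1, 0, 6, 0]
  just := [0, 1, 2, 0, 4, 0, 0, 2, 1, 0, 7, 8, 0, 3, 0, 4, 5, 10, 0, 9, 3, 0, 13, 11, 6, 0, 15, 0, 7, 8, 5, 15, 14,
    6, 0, 17, 0, 11, 9, 0, 10, 16, 18, 19, 12, 0, 13, 0, 16, 12, 19, 18, 17, 0, 14, 0]
  gA := 21
  gB := 36
  fin := 0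
  sid := [0, 1, 2, 3, 4, 5, 6, 3, 2, 1, 0, 7, 8, 9, 3, 4, 5, 8, 10, 11, 9, 12, 13, 11, 14, 6, 5, 15, 0, 7, 8, 5, 15,
    14, 6, 16, 17, 14, 11, 9, 8, 10, 16, 18, 19, 12, 13, 11, 10, 12, 19, 18, 16, 17, 14, 15]
  off := [(0, 0), (0, 0), (0, 0), (0, 0), (0, 0), (0, 0), (0, 0), (0, 0), (0, 0), (0, 0), (0, 0), (0, 0), (0, 0), (0,
    0), (0, 0), (0, 0), (0, 0), (-1, -1), (0, 0), (0, 0), (0, 0), (0, 0), (0, 0), (1, 0), (0, 0), (0, 0), (0, 0), (0,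
    0), (0, 0), (0, 0), (0, 0), (1, 1), (1, 1), (0, 0), (0, 0), (0, 0), (0, 0), (-1, 0), (0, 0), (0, 0), (0, 0), (1,
    1), (-1, -1), (0, 0), (0, 0), (-1, 0), (-1, 0), (0, 0), (0, 0), (0, 0), (1, 0), (1, 0), (0, -1), (0, -1), (-1,
    -1), (0, 0)]

/-- glued arcs and equations -/
def tord7a_58 : TorT :=
  ⟨[(0, 2, true), (0, 3, false), (1, 1, true), (1, 4, false), (2, 2, true), (3, 5, false), (4, 5, true), (6, 6,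
    false)],
    [([0, 0, 0, 0, 1, 0, 2], 2), ([0, 0, 1, 1, 0, 2, 0], 2), ([0, 1, 0, 0, 1, 0, 0], 2), ([0, 1, 1, 0, 0, 0, 0], 2),
    ([2, 0, 0, 1, 0, 0, 0], 2)]⟩

theorem tord7a_58_ok : tord7a_58.OK 7 := TT.leaf_ok (T := ttd7a_58) (by decide +kernel)

/-- the torus -/
def ttd7a_59 : TT where
  k := 8
  rf := [false, false, true, true, false, false, true, true]
  tau := [7, 14, 19, 12, 11, 10, 27, 0, 21, 26, 5, 4, 3, 20, 1, 31, 32, 29, 30, 2, 13, 8, 38, 39, 36, 37, 9, 6, 43,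
    17, 18, 15, 16, 44, 55, 50, 24, 25, 22, 23, 51, 48, 49, 28, 33, 54, 53, 52, 41, 42, 35, 40, 47, 46, 45, 34]
  par := [0, 0, 1, 6, 15, 22, 28, 34]
  stars := [[0, 21, 8], [1, 7, 14], [2, 15, 31, 19], [3, 20, 13], [4, 12], [5, 11], [6, 10, 27], [9, 22, 38, 26],
    [16, 32], [17, 29, 44, 33], [18, 30], [23, 39], [24, 36, 51, 40], [25, 37], [28, 49, 43], [34, 45, 55], [35, 42,
    50], [41, 52, 48], [46, 54], [47, 53]]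
  word := [[], [], [1], [1], [1], [1], [], [], [0, 2, 1, 3], [0], [0], [0], [0], [], [], [], [], [0], [0], [0], [],
    [2, 0, 3, 1], [], [], [2, 1, 3], [2, 1, 3], [1], [], [], [1], [1], [], [], [0], [], [2], [2, 0, 3], [2, 0, 3],
    [], [], [2, 1], [2], [], [], [1], [1], [1], [1], [3], [], [3], [0, 3], [0], [0], [0], []]
  rank := [0, 0, 4, 5, 6, 7, 0, 0, 9, 8, 7, 6, 5, 1, 0, 0, 1, 2, 3, 4, 1, 9, 0, 1, 5, 6, 8, 0, 0, 2, 3, 0, 1, 0, 0,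
    2, 5, 6, 0, 1, 4, 0, 1, 0, 0, 1, 2, 3, 0, 1, 2, 4, 3, 2, 1, 0]
  just := [0, 0, 2, 3, 4, 5, 0, 0, 7, 6, 5, 4, 3, 1, 0, 0, 8, 9, 10, 2, 1, 7, 0, 11, 12, 13, 6, 0, 0, 9, 10, 0, 8, 0,
    0, 16, 12, 13, 0, 11, 17, 0, 14, 0, 0, 15, 18, 19, 0, 14, 16, 17, 19, 18, 15, 0]
  gA := 33
  gB := 41
  fin := 0
  sid := [0, 1, 2, 3, 4, 5, 6, 1, 0, 7, 6, 5, 4, 3, 1, 2, 8, 9, 10, 2, 3, 0, 7, 11, 12, 13, 7, 6, 14, 9, 10, 2, 8, 9,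
    15, 16, 12, 13, 7, 11, 12, 17, 16, 14, 9, 15, 18, 19, 17, 14, 16, 12, 17, 19, 18, 15]
  off := [(0, 0), (0, 0), (0, 0), (0, 0), (0, 0), (0, 0), (0, 0), (0, 0), (0, 0), (0, 0), (1, 0), (1, 0), (1, 0), (1,
    0), (0, 0), (0, 0), (0, 0), (0, 0), (0, 0), (1, 0), (1, 0), (0, 0), (0, 0), (0, 0), (0, 0), (0, 0), (-1, 0), (0,
    0), (0, 0), (-1, 0), (-1, 0), (0, 0), (0, 0), (0, 0), (0, 0), (0, 0), (1, 0), (1, 0), (0, 0), (0, 0), (0, 0), (0,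
    0), (0, -1), (0, 0), (-1, 0), (-1, 0), (0, 0), (0, 0), (0, -1), (0, 0), (0, -1), (1, -1), (1, -1), (1, 0), (1,
    0), (0, 0)]

/-- glued arcs and equations -/
def tord7a_59 : TorT :=
  ⟨[(0, 0, true), (0, 1, false), (1, 3, false), (2, 4, false), (2, 5, false), (3, 5, true), (4, 4, true), (6, 6,
    false)],
    [([0, 0, 0, 0, 1, 1, 0], 2), ([0, 0, 0, 1, 0, 0, 2], 2), ([0, 0, 1, 0, 1, 0, 0], 2), ([0, 1, 1, 1, 0, 1, 0], 2),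
    ([2, 1, 0, 0, 0, 0, 0], 2)]⟩

theorem tord7a_59_ok : tord7a_59.OK 7 := TT.leaf_ok (T := ttd7a_59) (by decide +kernel)

end Pool.Agent.Lib_MP_fa6e45
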