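import Pool.Agent.Lib_MP_fa6e45.DQ7aT0
import Pool.Agent.Lib_MP_fa6e45.DQ7aT1
import Pool.Agent.Lib_MP_fa6e45.DQ7aT2
import Pool.Agent.Lib_MP_fa6e45.DQ7aT3
import Pool.Agent.Lib_MP_fa6e45.DQ7aT4
import Pool.Agent.Lib_MP_fa6e45.DQ7aT5
import Pool.Agent.Lib_MP_fa6e45.DQ7aT6
import Pool.Agent.Lib_MP_fa6e45.DQ7aT7
import Pool.Agent.Lib_MP_fa6e45.DQ7aT8
import Pool.Agent.Lib_MP_fa6e45.DQ7aT9
import Pool.Agent.Lib_MP_fa6e45.DQ7aT10
import Pool.Agent.Lib_MP_fa6e45.DQ7aT11
import Pool.Agent.Lib_MP_fa6e45.DQ7aT12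
import Pool.Agent.Lib_MP_fa6e45.DQ7aT13
import Pool.Agent.Lib_MP_fa6e45.DQ7aT14
import Pool.Agent.Lib_MP_fa6e45.DQ7aT15
import Pool.Agent.Lib_MP_fa6e45.DQ7aT16
import Pool.Agent.Lib_MP_fa6e45.DQ7aT17
import Pool.Agent.Lib_MP_fa6e45.DQ7aT18
import Pool.Agent.Lib_MP_fa6e45.DQ7aT19
import Pool.Agent.Lib_MP_fa6e45.DQ7aT20
import Pool.Agent.Lib_MP_fa6e45.DQ7aT21
import Pool.Agent.Lib_MP_fa6e45.DQ7aT22
import Pool.Agent.Lib_MP_fa6e45.DQ7aT23
import Pool.Agent.Lib_MP_fa6e45.DQ7aT24
import Pool.Agent.Lib_MP_fa6e45.DQ7aT25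
import Pool.Agent.Lib_MP_fa6e45.DQ7aT26
import Pool.Agent.Lib_MP_fa6e45.DQ7aT27

/-!
MP_fa6e45_co, stage 9: straight-side patterns with `7` sides, the list of tori (generated by a program).
-/

namespace Pool.Agent.Lib_MP_fa6e45

/-- tables -/
def ttD7a_0 : List TorT := [tord7a_0, tord7a_1, tord7a_2, tord7a_3, tord7a_4, tord7a_5]

theorem ttD7a_0_ok : ∀ T ∈ ttD7a_0, T.OK 7 := by
  intro T hT
  simp only [ttD7a_0, List.mem_cons, List.not_mem_nil, or_false] at hT
  rcases hT with rfl | rfl | rfl | rfl | rfl | rfl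
  · exact tord7a_0_ok
  · exact tord7a_1_ok
  · exact tord7a_2_ok
  · exact tord7a_3_ok
  · exact tord7a_4_ok
  · exact tord7a_5_ok

/-- tables -/
def ttD7a_1 : List TorT := [tord7a_6, tord7a_7, tord7a_8, tord7a_9, tord7a_10, tord7a_11]

theorem ttD7a_1_ok : ∀ T ∈ ttD7a_1, T.OK 7 := by
  intro T hT
  simp only [ttD7a_1, List.mem_cons, List.not_mem_nil, or_false] at hT
  rcases hT with rfl | rfl | rfl | rfl | rfl | rfl
  · exact tord7a_6_ok
  · exact tord7a_7_ok
  · exact tord7a_8_ok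
  · exact tord7a_9_ok
  · exact tord7a_10_ok
  · exact tord7a_11_ok

/-- tables -/
def ttD7a_2 : List TorT := [tord7a_12, tord7a_13, tord7a_14, tord7a_15, tord7a_16, tord7a_17]

theorem ttD7a_2_ok : ∀ T ∈ ttD7a_2, T.OK 7 := by
  intro T hT
  simp only [ttD7a_2, List.mem_cons, List.not_mem_nil, or_false] at hT
  rcases hT with rfl | rfl | rfl | rfl | rfl | rfl
  · exact tord7a_12_ok
  · exact tord7a_13_ok
  · exact tord7a_14_ok
  · exact tord7a_15_ok
  · exact tord7a_16_ok
  · exact tord7a_17_ok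

/-- tables -/
def ttD7a_3 : List TorT := [tord7a_18, tord7a_19, tord7a_20, tord7a_21, tord7a_22, tord7a_23]

theorem ttD7a_3_ok : ∀ T ∈ ttD7a_3, T.OK 7 := by
  intro T hT
  simp only [ttD7a_3, List.mem_cons, List.not_mem_nil, or_false] at hT
  rcases hT with rfl | rfl | rfl | rfl | rfl | rfl
  · exact tord7a_18_ok
  · exact tord7a_19_ok
  · exact tord7a_20_ok
  · exact tord7a_21_ok
  · exact tord7a_22_ok
  · exact tord7a_23_ok

/-- tables -/
def ttD7a_4 : List TorT := [tord7a_24, tord7a_25, tord7a_26, tord7a_27, tord7a_28, tord7a_29]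

theorem ttD7a_4_ok : ∀ T ∈ ttD7a_4, T.OK 7 := by
  intro T hT
  simp only [ttD7a_4, List.mem_cons, List.not_mem_nil, or_false] at hT
  rcases hT with rfl | rfl | rfl | rfl | rfl | rfl
  · exact tord7a_24_ok
  · exact tord7a_25_ok
  · exact tord7a_26_ok
  · exact tord7a_27_ok
  · exact tord7a_28_ok
  · exact tord7a_29_ok

/-- tables -/
def ttD7a_5 : List TorT := [tord7a_30, tord7a_31, tord7a_32, tord7a_33, tord7a_34, tord7a_35]

theorem ttD7a_5_ok : ∀ T ∈ ttD7a_5, T.OK 7 := by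
  intro T hT
  simp only [ttD7a_5, List.mem_cons, List.not_mem_nil, or_false] at hT
  rcases hT with rfl | rfl | rfl | rfl | rfl | rfl
  · exact tord7a_30_ok
  · exact tord7a_31_ok
  · exact tord7a_32_ok
  · exact tord7a_33_ok
  · exact tord7a_34_ok
  · exact tord7a_35_ok

/-- tables -/
def ttD7a_6 : List TorT := [tord7a_36, tord7a_37, tord7a_38, tord7a_39, tord7a_40, tord7a_41]

theorem ttD7a_6_ok : ∀ T ∈ ttD7a_6, T.OK 7 := by
  intro T hT
  simp only [ttD7a_6, List.mem_cons, List.not_mem_nil, or_false] at hT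
  rcases hT with rfl | rfl | rfl | rfl | rfl | rfl
  · exact tord7a_36_ok
  · exact tord7a_37_ok
  · exact tord7a_38_ok
  · exact tord7a_39_ok
  · exact tord7a_40_ok
  · exact tord7a_41_ok

/-- tables -/
def ttD7a_7 : List TorT := [tord7a_42, tord7a_43, tord7a_44, tord7a_45, tord7a_46, tord7a_47]

theorem ttD7a_7_ok : ∀ T ∈ ttD7a_7, T.OK 7 := by
  intro T hT
  simp only [ttD7a_7, List.mem_cons, List.not_mem_nil, or_false] at hT
  rcases hT with rfl | rfl | rfl | rfl | rfl | rfl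
  · exact tord7a_42_ok
  · exact tord7a_43_ok
  · exact tord7a_44_ok
  · exact tord7a_45_ok
  · exact tord7a_46_ok
  · exact tord7a_47_ok

/-- tables -/
def ttD7a_8 : List TorT := [tord7a_48, tord7a_49, tord7a_50, tord7a_51, tord7a_52, tord7a_53]

theorem ttD7a_8_ok : ∀ T ∈ ttD7a_8, T.OK 7 := by
  intro T hT
  simp only [ttD7a_8, List.mem_cons, List.not_mem_nil, or_false] at hT
  rcases hT with rfl | rfl | rfl | rfl | rfl | rfl
  · exact tord7a_48_ok
  · exact tord7a_49_ok
  · exact tord7a_50_ok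
  · exact tord7a_51_ok
  · exact tord7a_52_ok
  · exact tord7a_53_ok

/-- tables -/
def ttD7a_9 : List TorT := [tord7a_54, tord7a_55, tord7a_56, tord7a_57, tord7a_58, tord7a_59]

theorem ttD7a_9_ok : ∀ T ∈ ttD7a_9, T.OK 7 := by
  intro T hT
  simp only [ttD7a_9, List.mem_cons, List.not_mem_nil, or_false] at hT
  rcases hT with rfl | rfl | rfl | rfl | rfl | rfl
  · exact tord7a_54_ok
  · exact tord7a_55_ok
  · exact tord7a_56_ok
  · exact tord7a_57_ok
  · exact tord7a_58_ok
  · exact tord7a_59_ok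

/-- tables -/
def ttD7a_10 : List TorT := [tord7a_60, tord7a_61, tord7a_62, tord7a_63, tord7a_64, tord7a_65]

theorem ttD7a_10_ok : ∀ T ∈ ttD7a_10, T.OK 7 := by
  intro T hT
  simp only [ttD7a_10, List.mem_cons, List.not_mem_nil, or_false] at hT
  rcases hT with rfl | rfl | rfl | rfl | rfl | rfl
  · exact tord7a_60_ok
  · exact tord7a_61_ok
  · exact tord7a_62_ok
  · exact tord7a_63_ok
  · exact tord7a_64_ok
  · exact tord7a_65_ok

/-- tables -/
def ttD7a_11 : List TorT := [tord7a_66, tord7a_67, tord7a_68, tord7a_69, tord7a_70, tord7a_71]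

theorem ttD7a_11_ok : ∀ T ∈ ttD7a_11, T.OK 7 := by
  intro T hT
  simp only [ttD7a_11, List.mem_cons, List.not_mem_nil, or_false] at hT
  rcases hT with rfl | rfl | rfl | rfl | rfl | rfl
  · exact tord7a_66_ok
  · exact tord7a_67_ok
  · exact tord7a_68_ok
  · exact tord7a_69_ok
  · exact tord7a_70_ok
  · exact tord7a_71_ok

/-- tables -/
def ttD7a_12 : List TorT := [tord7a_72, tord7a_73, tord7a_74, tord7a_75, tord7a_76, tord7a_77]

theorem ttD7a_12_ok : ∀ T ∈ ttD7a_12, T.OK 7 := by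
  intro T hT
  simp only [ttD7a_12, List.mem_cons, List.not_mem_nil, or_false] at hT
  rcases hT with rfl | rfl | rfl | rfl | rfl | rfl
  · exact tord7a_72_ok
  · exact tord7a_73_ok
  · exact tord7a_74_ok
  · exact tord7a_75_ok
  · exact tord7a_76_ok
  · exact tord7a_77_ok

/-- tables -/
def ttD7a_13 : List TorT := [tord7a_78, tord7a_79, tord7a_80, tord7a_81, tord7a_82, tord7a_83]

theorem ttD7a_13_ok : ∀ T ∈ ttD7a_13, T.OK 7 := by
  intro T hT
  simp only [ttD7a_13, List.mem_cons, List.not_mem_nil, or_false] at hT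
  rcases hT with rfl | rfl | rfl | rfl | rfl | rfl
  · exact tord7a_78_ok
  · exact tord7a_79_ok
  · exact tord7a_80_ok
  · exact tord7a_81_ok
  · exact tord7a_82_ok
  · exact tord7a_83_ok

/-- tables -/
def ttD7a_14 : List TorT := [tord7a_84, tord7a_85, tord7a_86, tord7a_87, tord7a_88, tord7a_89]

theorem ttD7a_14_ok : ∀ T ∈ ttD7a_14, T.OK 7 := by
  intro T hT
  simp only [ttD7a_14, List.mem_cons, List.not_mem_nil, or_false] at hT
  rcases hT with rfl | rfl | rfl | rfl | rfl | rfl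
  · exact tord7a_84_ok
  · exact tord7a_85_ok
  · exact tord7a_86_ok
  · exact tord7a_87_ok
  · exact tord7a_88_ok
  · exact tord7a_89_ok

/-- tables -/
def ttD7a_15 : List TorT := [tord7a_90, tord7a_91, tord7a_92, tord7a_93, tord7a_94, tord7a_95]

theorem ttD7a_15_ok : ∀ T ∈ ttD7a_15, T.OK 7 := by
  intro T hT
  simp only [ttD7a_15, List.mem_cons, List.not_mem_nil, or_false] at hT
  rcases hT with rfl | rfl | rfl | rfl | rfl | rfl
  · exact tord7a_90_ok
  · exact tord7a_91_ok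
  · exact tord7a_92_ok
  · exact tord7a_93_ok
  · exact tord7a_94_ok
  · exact tord7a_95_ok

/-- tables -/
def ttD7a_16 : List TorT := [tord7a_96, tord7a_97, tord7a_98, tord7a_99, tord7a_100, tord7a_101]

theorem ttD7a_16_ok : ∀ T ∈ ttD7a_16, T.OK 7 := by
  intro T hT
  simp only [ttD7a_16, List.mem_cons, List.not_mem_nil, or_false] at hT
  rcases hT with rfl | rfl | rfl | rfl | rfl | rfl
  · exact tord7a_96_ok
  · exact tord7a_97_ok
  · exact tord7a_98_ok
  · exact tord7a_99_ok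
  · exact tord7a_100_ok
  · exact tord7a_101_ok

/-- tables -/
def ttD7a_17 : List TorT := [tord7a_102, tord7a_103, tord7a_104, tord7a_105, tord7a_106, tord7a_107]

theorem ttD7a_17_ok : ∀ T ∈ ttD7a_17, T.OK 7 := by
  intro T hT
  simp only [ttD7a_17, List.mem_cons, List.not_mem_nil, or_false] at hT
  rcases hT with rfl | rfl | rfl | rfl | rfl | rfl
  · exact tord7a_102_ok
  · exact tord7a_103_ok
  · exact tord7a_104_ok
  · exact tord7a_105_ok
  · exact tord7a_106_ok
  · exact tord7a_107_ok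

/-- tables -/
def ttD7a_18 : List TorT := [tord7a_108, tord7a_109, tord7a_110, tord7a_111, tord7a_112, tord7a_113]

theorem ttD7a_18_ok : ∀ T ∈ ttD7a_18, T.OK 7 := by
  intro T hT
  simp only [ttD7a_18, List.mem_cons, List.not_mem_nil, or_false] at hT
  rcases hT with rfl | rfl | rfl | rfl | rfl | rfl
  · exact tord7a_108_ok
  · exact tord7a_109_ok
  · exact tord7a_110_ok
  · exact tord7a_111_ok
  · exact tord7a_112_ok
  · exact tord7a_113_ok

/-- tables -/
def ttD7a_19 : List TorT := [tord7a_114, tord7a_115, tord7a_116, tord7a_117, tord7a_118, tord7a_119]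

theorem ttD7a_19_ok : ∀ T ∈ ttD7a_19, T.OK 7 := by
  intro T hT
  simp only [ttD7a_19, List.mem_cons, List.not_mem_nil, or_false] at hT
  rcases hT with rfl | rfl | rfl | rfl | rfl | rfl
  · exact tord7a_114_ok
  · exact tord7a_115_ok
  · exact tord7a_116_ok
  · exact tord7a_117_ok
  · exact tord7a_118_ok
  · exact tord7a_119_ok

/-- tables -/
def ttD7a_20 : List TorT := [tord7a_120, tord7a_121, tord7a_122, tord7a_123, tord7a_124, tord7a_125]

theorem ttD7a_20_ok : ∀ T ∈ ttD7a_20, T.OK 7 := by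
  intro T hT
  simp only [ttD7a_20, List.mem_cons, List.not_mem_nil, or_false] at hT
  rcases hT with rfl | rfl | rfl | rfl | rfl | rfl
  · exact tord7a_120_ok
  · exact tord7a_121_ok
  · exact tord7a_122_ok
  · exact tord7a_123_ok
  · exact tord7a_124_ok
  · exact tord7a_125_ok

/-- tables -/
def ttD7a_21 : List TorT := [tord7a_126, tord7a_127, tord7a_128, tord7a_129, tord7a_130, tord7a_131]

theorem ttD7a_21_ok : ∀ T ∈ ttD7a_21, T.OK 7 := by
  intro T hT
  simp only [ttD7a_21, List.mem_cons, List.not_mem_nil, or_false] at hT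
  rcases hT with rfl | rfl | rfl | rfl | rfl | rfl
  · exact tord7a_126_ok
  · exact tord7a_127_ok
  · exact tord7a_128_ok
  · exact tord7a_129_ok
  · exact tord7a_130_ok
  · exact tord7a_131_ok

/-- tables -/
def ttD7a_22 : List TorT := [tord7a_132, tord7a_133, tord7a_134, tord7a_135, tord7a_136, tord7a_137]

theorem ttD7a_22_ok : ∀ T ∈ ttD7a_22, T.OK 7 := by
  intro T hT
  simp only [ttD7a_22, List.mem_cons, List.not_mem_nil, or_false] at hT
  rcases hT with rfl | rfl | rfl | rfl | rfl | rfl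
  · exact tord7a_132_ok
  · exact tord7a_133_ok
  · exact tord7a_134_ok
  · exact tord7a_135_ok
  · exact tord7a_136_ok
  · exact tord7a_137_ok

/-- tables -/
def ttD7a_23 : List TorT := [tord7a_138, tord7a_139, tord7a_140, tord7a_141, tord7a_142, tord7a_143]

theorem ttD7a_23_ok : ∀ T ∈ ttD7a_23, T.OK 7 := by
  intro T hT
  simp only [ttD7a_23, List.mem_cons, List.not_mem_nil, or_false] at hT
  rcases hT with rfl | rfl | rfl | rfl | rfl | rfl
  · exact tord7a_138_ok
  · exact tord7a_139_ok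
  · exact tord7a_140_ok
  · exact tord7a_141_ok
  · exact tord7a_142_ok
  · exact tord7a_143_ok

/-- tables -/
def ttD7a_24 : List TorT := [tord7a_144, tord7a_145, tord7a_146, tord7a_147, tord7a_148, tord7a_149]

theorem ttD7a_24_ok : ∀ T ∈ ttD7a_24, T.OK 7 := by
  intro T hT
  simp only [ttD7a_24, List.mem_cons, List.not_mem_nil, or_false] at hT
  rcases hT with rfl | rfl | rfl | rfl | rfl | rfl
  · exact tord7a_144_ok
  · exact tord7a_145_ok
  · exact tord7a_146_ok
  · exact tord7a_147_ok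
  · exact tord7a_148_ok
  · exact tord7a_149_ok

/-- tables -/
def ttD7a_25 : List TorT := [tord7a_150, tord7a_151, tord7a_152, tord7a_153, tord7a_154, tord7a_155]

theorem ttD7a_25_ok : ∀ T ∈ ttD7a_25, T.OK 7 := by
  intro T hT
  simp only [ttD7a_25, List.mem_cons, List.not_mem_nil, or_false] at hT
  rcases hT with rfl | rfl | rfl | rfl | rfl | rfl
  · exact tord7a_150_ok
  · exact tord7a_151_ok
  · exact tord7a_152_ok
  · exact tord7a_153_ok
  · exact tord7a_154_ok
  · exact tord7a_155_ok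

/-- tables -/
def ttD7a_26 : List TorT := [tord7a_156, tord7a_157, tord7a_158, tord7a_159, tord7a_160, tord7a_161]

theorem ttD7a_26_ok : ∀ T ∈ ttD7a_26, T.OK 7 := by
  intro T hT
  simp only [ttD7a_26, List.mem_cons, List.not_mem_nil, or_false] at hT
  rcases hT with rfl | rfl | rfl | rfl | rfl | rfl
  · exact tord7a_156_ok
  · exact tord7a_157_ok
  · exact tord7a_158_ok
  · exact tord7a_159_ok
  · exact tord7a_160_ok
  · exact tord7a_161_ok

/-- tables -/
def ttD7a_27 : List TorT := [tord7a_162, tord7a_163, tord7a_164, tord7a_165, tord7a_166]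

theorem ttD7a_27_ok : ∀ T ∈ ttD7a_27, T.OK 7 := by
  intro T hT
  simp only [ttD7a_27, List.mem_cons, List.not_mem_nil, or_false] at hT
  rcases hT with rfl | rfl | rfl | rfl | rfl
  · exact tord7a_162_ok
  · exact tord7a_163_ok
  · exact tord7a_164_ok
  · exact tord7a_165_ok
  · exact tord7a_166_ok

/-- all tables -/
def ttD7a : List TorT :=
  ttD7a_0 ++ (ttD7a_1 ++ (ttD7a_2 ++ (ttD7a_3 ++ (ttD7a_4 ++ (ttD7a_5 ++ (ttD7a_6 ++ (ttD7a_7 ++ (
    ttD7a_8 ++ (ttD7a_9 ++ (ttD7a_10 ++ (ttD7a_11 ++ (ttD7a_12 ++ (ttD7a_13 ++ (ttD7a_14 ++ (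
    ttD7a_15 ++ (ttD7a_16 ++ (ttD7a_17 ++ (ttD7a_18 ++ (ttD7a_19 ++ (ttD7a_20 ++ (ttD7a_21 ++ (
    ttD7a_22 ++ (ttD7a_23 ++ (ttD7a_24 ++ (ttD7a_25 ++ (ttD7a_26 ++
    ttD7a_27))))))))))))))))))))))))))

theorem ttD7a_ok : ∀ T ∈ ttD7a, T.OK 7 := by
  intro T hT
  unfold ttD7a at hT
  rcases List.mem_append.1 hT with hT | hT
  · exact ttD7a_0_ok T hT
  rcases List.mem_append.1 hT with hT | hT
  · exact ttD7a_1_ok T hT
  rcases List.mem_append.1 hT with hT | hT
  · exact ttD7a_2_ok T hT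
  rcases List.mem_append.1 hT with hT | hT
  · exact ttD7a_3_ok T hT
  rcases List.mem_append.1 hT with hT | hT
  · exact ttD7a_4_ok T hT
  rcases List.mem_append.1 hT with hT | hT
  · exact ttD7a_5_ok T hT
  rcases List.mem_append.1 hT with hT | hT
  · exact ttD7a_6_ok T hT
  rcases List.mem_append.1 hT with hT | hT
  · exact ttD7a_7_ok T hT
  rcases List.mem_append.1 hT with hT | hT
  · exact ttD7a_8_ok T hT
  rcases List.mem_append.1 hT with hT | hT
  · exact ttD7a_9_ok T hT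
  rcases List.mem_append.1 hT with hT | hT
  · exact ttD7a_10_ok T hT
  rcases List.mem_append.1 hT with hT | hT
  · exact ttD7a_11_ok T hT
  rcases List.mem_append.1 hT with hT | hT
  · exact ttD7a_12_ok T hT
  rcases List.mem_append.1 hT with hT | hT
  · exact ttD7a_13_ok T hT
  rcases List.mem_append.1 hT with hT | hT
  · exact ttD7a_14_ok T hT
  rcases List.mem_append.1 hT with hT | hT
  · exact ttD7a_15_ok T hT
  rcases List.mem_append.1 hT with hT | hT
  · exact ttD7a_16_ok T hT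
  rcases List.mem_append.1 hT with hT | hT
  · exact ttD7a_17_ok T hT
  rcases List.mem_append.1 hT with hT | hT
  · exact ttD7a_18_ok T hT
  rcases List.mem_append.1 hT with hT | hT
  · exact ttD7a_19_ok T hT
  rcases List.mem_append.1 hT with hT | hT
  · exact ttD7a_20_ok T hT
  rcases List.mem_append.1 hT with hT | hT
  · exact ttD7a_21_ok T hT
  rcases List.mem_append.1 hT with hT | hT
  · exact ttD7a_22_ok T hT
  rcases List.mem_append.1 hT with hT | hT
  · exact ttD7a_23_ok T hT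
  rcases List.mem_append.1 hT with hT | hT
  · exact ttD7a_24_ok T hT
  rcases List.mem_append.1 hT with hT | hT
  · exact ttD7a_25_ok T hT
  rcases List.mem_append.1 hT with hT | hT
  · exact ttD7a_26_ok T hT
  exact ttD7a_27_ok T hT

end Pool.Agent.Lib_MP_fa6e45
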