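import Pool.Agent.Lib_MP_fa6e45.CT5

/-!
MP_fa6e45_co, stage 9: straight-side patterns with `7` sides, tables of tori (generated by a program).
-/

namespace Pool.Agent.Lib_MP_fa6e45

/-- the torus -/
def ttd7a_0 : TT where
  k := 12
  rf := [false, false, false, true, true, true, false, true, true, false, true, false]
  tau := [8, 14, 21, 22, 23, 33, 41, 43, 0, 35, 36, 37, 54, 62, 1, 63, 49, 50, 51, 75, 27, 2, 3, 4, 32, 59, 47, 20,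
    65, 66, 67, 60, 24, 5, 83, 9, 10, 11, 53, 73, 82, 6, 78, 7, 56, 57, 58, 26, 76, 16, 17, 18, 74, 38, 12, 69, 44,
    45, 46, 25, 31, 68, 13, 15, 77, 28, 29, 30, 61, 55, 79, 80, 81, 39, 52, 19, 48, 64, 42, 70, 71, 72, 40, 34]
  par := [0, 0, 1, 2, 5, 6, 7, 12, 13, 15, 19, 34]
  stars := [[0, 35, 9], [1, 8, 43, 78, 64, 15], [2, 14, 21], [3, 22], [4, 23], [5, 24, 33], [6, 34, 83, 41], [7, 56,
    44], [10, 36], [11, 37], [12, 38, 54], [13, 55, 69, 62], [16, 63, 49], [17, 50], [18, 51], [19, 52, 75], [20, 76,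
    48, 27], [25, 60, 32], [26, 47, 59], [28, 65, 77], [29, 66], [30, 67], [31, 61, 68], [39, 74, 53], [40, 82, 73],
    [42, 70, 79], [45, 57], [46, 58], [71, 80], [72, 81]]
  word := [[], [], [], [], [], [], [], [], [], [3, 0, 2, 1], [3, 0, 2, 1], [3, 0, 2, 1], [], [], [], [], [1, 2], [1,
    2], [1, 2], [], [], [], [], [], [], [2], [2], [], [0], [0], [0], [2], [], [], [], [0, 3, 1, 2], [0, 3, 1, 2], [0,
    3, 1, 2], [0, 3, 1, 2], [0, 3], [], [], [1], [], [], [], [], [3], [3], [3, 0], [3, 0], [3, 0], [3, 0], [3, 0, 2,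
    1], [], [3, 0], [], [], [], [3], [3], [3, 0], [], [], [1], [1], [1], [1], [1, 2], [1, 2], [2, 1], [2, 1], [2, 1],
    [2, 1], [1, 2], [], [2], [0], [0], [0, 3], [0, 3], [0, 3], [], []]
  rank := [0, 0, 0, 1, 2, 0, 0, 0, 0, 14, 13, 12, 0, 0, 0, 0, 4, 5, 6, 0, 1, 0, 1, 2, 3, 4, 5, 1, 1, 0, 1, 0, 3, 0,
    0, 14, 13, 12, 11, 10, 1, 0, 3, 0, 1, 2, 3, 5, 6, 4, 5, 6, 7, 11, 0, 3, 1, 2, 3, 4, 0, 2, 0, 0, 2, 1, 0, 1, 2, 3,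
    7, 8, 9, 10, 7, 0, 6, 2, 3, 7, 8, 9, 1, 0]
  just := [0, 0, 0, 3, 4, 0, 0, 0, 0, 8, 9, 10, 0, 0, 0, 0, 12, 13, 14, 0, 2, 0, 3, 4, 5, 17, 18, 2, 20, 0, 21, 0, 5,
    0, 0, 8, 9, 10, 23, 24, 6, 0, 1, 0, 7, 26, 27, 18, 16, 12, 13, 14, 15, 23, 0, 11, 7, 26, 27, 17, 0, 22, 0, 0, 19,
    20, 0, 21, 22, 11, 25, 28, 29, 24, 15, 0, 16, 19, 1, 25, 28, 29, 6, 0]
  gA := 29
  gB := 31
  fin := 0
  sid := [0, 1, 2, 3, 4, 5, 6, 7, 1, 0, 8, 9, 10, 11, 2, 1, 12, 13, 14, 15, 16, 2, 3, 4, 5, 17, 18, 16, 19, 20, 21,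
    22, 17, 5, 6, 0, 8, 9, 10, 23, 24, 6, 25, 1, 7, 26, 27, 18, 16, 12, 13, 14, 15, 23, 10, 11, 7, 26, 27, 18, 17,
    22, 11, 12, 1, 19, 20, 21, 22, 11, 25, 28, 29, 24, 23, 15, 16, 19, 1, 25, 28, 29, 24, 6]
  off := [(0, 0), (0, 0), (0, 0), (0, 0), (0, 0), (0, 0), (0, 0), (0, 0), (0, 0), (0, 0), (0, 0), (0, 0), (0, 0), (0,
    0), (0, 0), (0, 0), (0, 0), (0, 0), (0, 0), (0, 0), (0, 0), (0, 0), (0, 0), (0, 0), (0, 0), (0, 0), (0, 0), (0,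
    0), (0, 0), (0, 0), (0, 0), (0, 0), (0, 0), (0, 0), (0, 0), (0, 0), (0, 0), (0, 0), (0, 0), (0, 0), (0, 0), (0,
    0), (0, 0), (0, 0), (0, 0), (0, 0), (0, 0), (0, -1), (0, -1), (1, -1), (1, -1), (1, -1), (1, -1), (0, 0), (0, 0),
    (0, 0), (0, 0), (0, 0), (0, 0), (0, -1), (0, -1), (0, -1), (0, 0), (0, 0), (0, 0), (-1, 0), (-1, 0), (-1, 0),
    (-1, 0), (-1, 1), (0, 1), (0, 0), (0, 0), (-1, 1), (-1, 1), (0, 0), (0, 0), (0, 0), (1, 0), (1, 0), (1, -1), (1,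
    -1), (0, 0), (0, 0)]

/-- glued arcs and equations -/
def tord7a_0 : TorT :=
  ⟨[(0, 1, true), (0, 2, false), (1, 3, false), (2, 4, false), (3, 4, true), (5, 5, false), (6, 6, false)],
    [([0, 0, 0, 0, 0, 0, 4], 2), ([0, 0, 0, 0, 3, 0, 0], 2), ([0, 0, 0, 1, 0, 2, 0], 2), ([0, 0, 1, 0, 1, 0, 0], 2),
    ([0, 1, 0, 1, 0, 0, 0], 2), ([0, 6, 0, 0, 0, 0, 0], 2), ([2, 0, 1, 0, 0, 0, 0], 2)]⟩

theorem tord7a_0_ok : tord7a_0.OK 7 := TT.leaf_ok (T := ttd7a_0) (by decide +kernel)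

/-- the torus -/
def ttd7a_1 : TT where
  k := 8
  rf := [false, false, true, true, true, true, false, false]
  tau := [9, 8, 7, 14, 22, 33, 41, 2, 1, 0, 35, 29, 26, 20, 3, 46, 39, 38, 37, 54, 13, 45, 4, 32, 31, 30, 12, 55, 52,
    11, 25, 24, 23, 5, 48, 10, 53, 18, 17, 16, 47, 6, 51, 50, 49, 21, 15, 40, 34, 44, 43, 42, 28, 36, 19, 27]
  par := [0, 0, 3, 4, 5, 6, 15, 19]
  stars := [[0, 35, 10], [1, 9], [2, 8], [3, 7, 14], [4, 15, 46, 22], [5, 23, 33], [6, 34, 48, 41], [11, 36, 53, 29],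
    [12, 30, 26], [13, 27, 55, 20], [16, 40, 47], [17, 39], [18, 38], [19, 54, 37], [21, 45, 49], [24, 32], [25, 31],
    [28, 52, 42], [43, 51], [44, 50]]
  word := [[], [], [], [], [], [], [], [], [], [], [3, 1, 2, 0], [3], [3], [], [], [], [0], [0], [0], [], [], [], [],
    [], [], [], [2], [2], [1, 2], [2], [], [], [], [], [1], [1, 3, 0, 2], [1], [1], [1], [1], [1], [], [2], [2], [2],
    [], [], [0], [0], [3], [3], [3], [3, 0], [0], [], [3]]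
  rank := [0, 1, 2, 0, 0, 0, 0, 2, 1, 0, 6, 5, 4, 3, 0, 0, 0, 1, 2, 0, 3, 1, 0, 1, 2, 3, 4, 2, 3, 5, 3, 2, 1, 0, 2,
    6, 3, 2, 1, 0, 1, 0, 2, 1, 0, 1, 0, 1, 2, 0, 1, 2, 3, 3, 0, 2]
  just := [0, 1, 2, 0, 0, 0, 0, 2, 1, 0, 7, 8, 9, 3, 0, 0, 0, 11, 12, 0, 3, 4, 0, 5, 15, 16, 9, 14, 17, 8, 16, 15, 5,
    0, 6, 7, 13, 12, 11, 0, 10, 0, 18, 19, 0, 4, 0, 10, 6, 0, 19, 18, 17, 13, 0, 14]
  gA := 16
  gB := 44
  fin := 0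
  sid := [0, 1, 2, 3, 4, 5, 6, 3, 2, 1, 0, 7, 8, 9, 3, 4, 10, 11, 12, 13, 9, 14, 4, 5, 15, 16, 8, 9, 17, 7, 8, 16,
    15, 5, 6, 0, 7, 13, 12, 11, 10, 6, 17, 18, 19, 14, 4, 10, 6, 14, 19, 18, 17, 7, 13, 9]
  off := [(0, 0), (0, 0), (0, 0), (0, 0), (0, 0), (0, 0), (0, 0), (0, 0), (0, 0), (0, 0), (0, 0), (0, 0), (0, 0), (0,
    0), (0, 0), (0, 0), (0, 0), (0, 0), (0, 0), (0, 0), (0, 0), (0, 0), (0, 0), (0, 0), (0, 0), (0, 0), (0, 1), (0,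
    1), (0, 0), (0, 1), (0, 1), (0, 0), (0, 0), (0, 0), (0, 0), (0, 0), (0, 0), (-1, 0), (-1, 0), (-1, 0), (-1, 0),
    (0, 0), (1, 0), (0, 0), (0, 0), (0, 0), (0, 0), (0, 0), (1, 0), (0, -1), (0, -1), (0, -1), (1, -1), (1, 0), (0,
    0), (0, 0)]

/-- glued arcs and equations -/
def tord7a_1 : TorT :=
  ⟨[(0, 2, true), (0, 3, false), (1, 1, true), (1, 4, false), (2, 4, true), (3, 3, true), (5, 5, false), (6, 6,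
    false)],
    [([0, 0, 0, 0, 0, 0, 4], 2), ([0, 0, 0, 1, 1, 0, 0], 2), ([0, 0, 1, 0, 0, 2, 0], 2), ([0, 1, 1, 0, 0, 0, 0], 2),
    ([0, 2, 0, 0, 2, 0, 0], 2), ([2, 0, 0, 1, 0, 0, 0], 2)]⟩

theorem tord7a_1_ok : tord7a_1.OK 7 := TT.leaf_ok (T := ttd7a_1) (by decide +kernel)

/-- the torus -/
def ttd7a_2 : TT where
  k := 8
  rf := [false, false, true, true, true, true, false, false]
  tau := [7, 14, 15, 23, 24, 33, 41, 0, 35, 36, 30, 31, 26, 20, 1, 2, 45, 46, 39, 54, 13, 43, 44, 3, 4, 32, 12, 55,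
    50, 51, 10, 11, 25, 5, 48, 8, 9, 52, 53, 18, 47, 6, 49, 21, 22, 16, 17, 40, 34, 42, 28, 29, 37, 38, 19, 27]
  par := [0, 0, 1, 3, 5, 6, 16, 19]
  stars := [[0, 35, 8], [1, 7, 14], [2, 15], [3, 16, 45, 23], [4, 24], [5, 25, 33], [6, 34, 48, 41], [9, 36], [10,
    37, 52, 30], [11, 31], [12, 32, 26], [13, 27, 55, 20], [17, 46], [18, 40, 47], [19, 54, 39], [21, 43, 49], [22,
    44], [28, 50, 42], [29, 51], [38, 53]]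
  word := [[], [], [], [], [], [], [], [], [1, 2, 0, 3], [1, 2, 0, 3], [1], [1], [1], [], [], [], [], [], [3], [],
    [], [], [], [], [], [], [0], [0], [2, 0], [2, 0], [0], [0], [], [], [2], [2, 1, 3, 0], [2, 1, 3, 0], [2], [2],
    [2], [2], [], [0], [], [], [], [], [3], [3], [1], [1, 3], [1, 3], [3], [3], [], [1]]
  rank := [0, 0, 1, 0, 1, 0, 0, 0, 8, 7, 4, 3, 2, 1, 0, 1, 0, 1, 2, 0, 1, 3, 2, 0, 1, 2, 2, 0, 5, 6, 4, 3, 2, 0, 1,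
    8, 7, 4, 3, 2, 0, 0, 4, 3, 2, 0, 1, 0, 1, 4, 5, 6, 4, 3, 0, 0]
  just := [0, 0, 2, 0, 4, 0, 0, 0, 7, 8, 9, 10, 11, 1, 0, 2, 0, 12, 13, 0, 1, 16, 3, 0, 4, 5, 11, 0, 17, 18, 9, 10,
    5, 0, 6, 7, 8, 19, 14, 13, 0, 0, 15, 16, 3, 0, 12, 0, 6, 15, 17, 18, 19, 14, 0, 0]
  gA := 27
  gB := 40
  fin := 0
  sid := [0, 1, 2, 3, 4, 5, 6, 1, 0, 7, 8, 9, 10, 11, 1, 2, 3, 12, 13, 14, 11, 15, 16, 3, 4, 5, 10, 11, 17, 18, 8, 9,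
    10, 5, 6, 0, 7, 8, 19, 14, 13, 6, 17, 15, 16, 3, 12, 13, 6, 15, 17, 18, 8, 19, 14, 11]
  off := [(0, 0), (0, 0), (0, 0), (0, 0), (0, 0), (0, 0), (0, 0), (0, 0), (0, 0), (0, 0), (0, 0), (0, 0), (0, 0), (0,
    0), (0, 0), (0, 0), (0, 0), (0, 0), (0, 0), (0, 0), (0, 0), (0, 0), (0, 0), (0, 0), (0, 0), (0, 0), (1, 0), (1,
    0), (0, 0), (0, 0), (1, 0), (1, 0), (1, 0), (0, 0), (0, 0), (0, 0), (0, 0), (0, 0), (0, 0), (0, 1), (0, 1), (0,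
    0), (0, -1), (0, 0), (0, 0), (0, 0), (0, 0), (0, 0), (0, -1), (-1, 0), (-1, -1), (-1, -1), (0, -1), (0, -1), (0,
    0), (0, 0)]

/-- glued arcs and equations -/
def tord7a_2 : TorT :=
  ⟨[(0, 0, true), (0, 1, false), (1, 2, false), (2, 3, false), (3, 4, false), (4, 4, true), (5, 5, false), (6, 6,
    false)],
    [([0, 0, 0, 0, 0, 0, 4], 2), ([0, 0, 0, 0, 1, 2, 0], 2), ([0, 0, 0, 1, 1, 0, 0], 2), ([0, 0, 2, 2, 0, 0, 0], 2),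
    ([0, 1, 1, 0, 0, 0, 0], 2), ([2, 1, 0, 0, 0, 0, 0], 2)]⟩

theorem tord7a_2_ok : tord7a_2.OK 7 := TT.leaf_ok (T := ttd7a_2) (by decide +kernel)

/-- the torus -/
def ttd7a_3 : TT where
  k := 12
  rf := [false, false, false, true, true, true, true, true, true, false, false, false]
  tau := [10, 9, 15, 14, 21, 33, 41, 17, 16, 1, 0, 35, 47, 55, 3, 2, 8, 7, 49, 61, 27, 4, 32, 31, 44, 43, 68, 20, 74,
    53, 52, 23, 22, 5, 83, 11, 46, 45, 58, 57, 82, 6, 67, 25, 24, 37, 36, 12, 76, 18, 60, 59, 30, 29, 75, 13, 81, 39,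
    38, 51, 50, 19, 69, 80, 79, 71, 70, 42, 26, 62, 66, 65, 78, 77, 28, 54, 48, 73, 72, 64, 63, 56, 40, 34]
  par := [0, 0, 2, 4, 5, 6, 12, 13, 19, 26, 28, 34]
  stars := [[0, 35, 11], [1, 10], [2, 9, 16], [3, 15], [4, 14, 21], [5, 22, 33], [6, 34, 83, 41], [7, 49, 18], [8,
    17], [12, 36, 47], [13, 48, 76, 55], [19, 50, 61], [20, 62, 69, 27], [23, 32], [24, 45, 38, 59, 52, 31], [25,
    44], [26, 68, 43], [28, 74, 77], [29, 54, 75], [30, 53], [37, 46], [39, 58], [40, 82, 57], [42, 67, 70], [51,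
    60], [56, 81, 63], [64, 80], [65, 79, 72], [66, 71], [73, 78]]
  word := [[], [], [], [], [], [], [], [], [], [], [], [0, 3, 1, 2], [], [], [], [], [], [], [], [], [], [], [], [],
    [2, 1], [2, 1], [], [], [], [1], [1], [], [], [], [], [3, 0, 2, 1], [3, 0, 2, 1], [3, 0, 2, 1], [3], [3], [], [],
    [0, 3], [0, 3], [0, 3], [0, 3, 1, 2], [0, 3, 1, 2], [], [0], [], [], [], [0], [0], [0], [], [2], [2], [2], [],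
    [], [], [], [2], [2], [2], [2], [2, 1], [], [], [3], [3], [], [], [], [1], [1], [], [], [3], [3], [3], [], []]
  rank := [0, 1, 0, 1, 0, 0, 0, 3, 2, 1, 0, 10, 0, 0, 1, 0, 2, 3, 4, 0, 2, 0, 1, 2, 7, 6, 0, 2, 0, 2, 3, 2, 1, 0, 0,
    10, 9, 8, 6, 5, 1, 0, 5, 6, 7, 8, 9, 0, 0, 4, 5, 6, 3, 2, 1, 0, 4, 5, 6, 6, 5, 0, 3, 1, 0, 3, 4, 5, 0, 3, 4, 3,
    2, 1, 0, 1, 0, 1, 2, 0, 1, 4, 1, 0]
  just := [0, 1, 0, 3, 0, 0, 0, 8, 2, 1, 0, 9, 0, 0, 3, 0, 2, 8, 7, 0, 4, 0, 5, 13, 15, 16, 0, 4, 0, 18, 19, 13, 5,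
    0, 0, 9, 20, 14, 21, 22, 6, 0, 23, 16, 15, 14, 20, 0, 0, 7, 11, 24, 19, 18, 10, 0, 25, 22, 21, 24, 11, 0, 12, 26,
    0, 27, 28, 23, 0, 12, 28, 27, 29, 17, 0, 10, 0, 17, 29, 0, 26, 25, 6, 0]
  gA := 48
  gB := 64
  fin := 0
  sid := [0, 1, 2, 3, 4, 5, 6, 7, 8, 2, 1, 0, 9, 10, 4, 3, 2, 8, 7, 11, 12, 4, 5, 13, 14, 15, 16, 12, 17, 18, 19, 14,
    13, 5, 6, 0, 9, 20, 14, 21, 22, 6, 23, 16, 15, 14, 20, 9, 10, 7, 11, 24, 14, 19, 18, 10, 25, 22, 21, 14, 24, 11,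
    12, 25, 26, 27, 28, 23, 16, 12, 23, 28, 27, 29, 17, 18, 10, 17, 29, 27, 26, 25, 22, 6]
  off := [(0, 0), (0, 0), (0, 0), (0, 0), (0, 0), (0, 0), (0, 0), (0, 0), (0, 0), (0, 0), (0, 0), (0, 0), (0, 0), (0,
    0), (0, 0), (0, 0), (0, 0), (0, 0), (0, 0), (0, 0), (0, 0), (0, 0), (0, 0), (0, 0), (0, 0), (0, 0), (0, 0), (0,
    0), (0, 0), (0, 0), (0, 0), (0, 0), (0, 0), (0, 0), (0, 0), (0, 0), (0, 0), (0, 0), (1, -1), (0, 0), (0, 0), (0,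
    0), (0, 0), (1, -1), (1, -1), (1, -1), (0, 0), (0, 0), (0, 0), (0, 0), (0, 0), (0, 0), (1, 0), (1, 0), (1, 0),
    (0, 0), (0, 0), (0, 1), (0, 1), (1, 0), (0, 0), (0, 0), (0, 0), (0, 0), (0, 0), (0, 0), (0, 0), (-1, 1), (0, 0),
    (0, 0), (-1, 0), (0, -1), (0, -1), (0, 0), (0, 0), (0, 0), (-1, 0), (0, 0), (0, 0), (0, -1), (0, -1), (0, -1),
    (0, 0), (0, 0)]

/-- glued arcs and equations -/
def tord7a_3 : TorT :=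
  ⟨[(0, 3, true), (0, 4, false), (1, 2, true), (1, 4, true), (2, 3, true), (5, 5, false), (6, 6, false)],
    [([0, 0, 0, 0, 0, 0, 4], 2), ([0, 0, 0, 6, 0, 0, 0], 2), ([0, 0, 1, 0, 1, 0, 0], 2), ([0, 0, 3, 0, 0, 0, 0], 2),
    ([0, 1, 0, 0, 0, 2, 0], 2), ([0, 1, 0, 1, 0, 0, 0], 2), ([2, 0, 0, 0, 1, 0, 0], 2)]⟩

theorem tord7a_3_ok : tord7a_3.OK 7 := TT.leaf_ok (T := ttd7a_3) (by decide +kernel)

/-- the torus -/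
def ttd7a_4 : TT where
  k := 4
  rf := [false, false, true, true]
  tau := [7, 14, 15, 16, 11, 18, 27, 0, 21, 22, 23, 4, 25, 20, 1, 2, 3, 24, 5, 26, 13, 8, 9, 10, 17, 12, 19, 6]
  par := [0, 0, 1, 6]
  stars := [[0, 21, 8], [1, 7, 14], [2, 15], [3, 16], [4, 17, 25, 12], [5, 11, 24, 18], [6, 19, 27], [9, 22], [10,
    23], [13, 26, 20]]
  word := [[], [], [], [], [0, 3], [3], [], [], [2, 1, 3, 0], [2, 1, 3, 0], [2, 1, 3, 0], [2, 1], [2], [], [], [],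
    [], [0], [2], [2], [], [1, 2, 0, 3], [1, 2, 0, 3], [1, 2, 0, 3], [1], [3], [3], []]
  rank := [0, 0, 1, 2, 3, 1, 0, 0, 6, 5, 4, 3, 2, 1, 0, 1, 2, 0, 1, 0, 1, 6, 5, 4, 0, 2, 0, 0]
  just := [0, 0, 2, 3, 4, 6, 0, 0, 7, 8, 5, 4, 9, 1, 0, 2, 3, 0, 6, 0, 1, 7, 8, 5, 0, 9, 0, 0]
  gA := 17
  gB := 19
  fin := 0
  sid := [0, 1, 2, 3, 4, 5, 6, 1, 0, 7, 8, 5, 4, 9, 1, 2, 3, 4, 5, 6, 9, 0, 7, 8, 5, 4, 9, 6]
  off := [(0, 0), (0, 0), (0, 0), (0, 0), (0, 0), (0, 0), (0, 0), (0, 0), (0, 0), (0, 0), (0, 0), (-1, 1), (-1, 1),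
    (0, 0), (0, 0), (0, 0), (0, 0), (0, 0), (0, 1), (0, 1), (0, 0), (0, 0), (0, 0), (0, 0), (-1, 1), (-1, 0), (0,
    -1), (0, 0)]

/-- glued arcs and equations -/
def tord7a_4 : TorT :=
  ⟨[(0, 0, true), (0, 1, false), (1, 2, false), (2, 3, false), (3, 3, true), (4, 4, true), (4, 5, false), (5, 5,
    true), (6, 6, false)],
    [([0, 0, 0, 0, 0, 1, 2], 2), ([0, 0, 0, 1, 2, 1, 0], 2), ([0, 0, 1, 1, 0, 0, 0], 2), ([0, 1, 1, 0, 0, 0, 0], 2),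
    ([2, 1, 0, 0, 0, 0, 0], 2)]⟩

theorem tord7a_4_ok : tord7a_4.OK 7 := TT.leaf_ok (T := ttd7a_4) (by decide +kernel)

/-- the torus -/
def ttd7a_5 : TT where
  k := 4
  rf := [false, false, true, true]
  tau := [7, 14, 15, 10, 23, 24, 27, 0, 21, 22, 3, 16, 17, 20, 1, 2, 11, 12, 25, 26, 13, 8, 9, 4, 5, 18, 19, 6]
  par := [0, 0, 1, 4]
  stars := [[0, 21, 8], [1, 7, 14], [2, 15], [3, 16, 11], [4, 10, 23], [5, 24], [6, 25, 19, 27], [9, 22], [12, 17],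
    [13, 18, 26, 20]]
  word := [[], [], [], [1], [], [], [3, 0, 2], [], [0], [0], [0], [0], [0], [], [], [], [1], [1], [1, 2], [2], [],
    [1], [1], [], [], [3, 0], [3], [3, 1, 2]]
  rank := [0, 0, 1, 2, 0, 1, 3, 0, 4, 3, 2, 0, 1, 1, 0, 1, 0, 1, 2, 0, 1, 4, 3, 0, 1, 2, 0, 3]
  just := [0, 0, 2, 3, 0, 5, 6, 0, 7, 4, 3, 0, 8, 1, 0, 2, 0, 8, 9, 0, 1, 7, 4, 0, 5, 9, 0, 6]
  gA := 11
  gB := 19
  fin := 0
  sid := [0, 1, 2, 3, 4, 5, 6, 1, 0, 7, 4, 3, 8, 9, 1, 2, 3, 8, 9, 6, 9, 0, 7, 4, 5, 6, 9, 6]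
  off := [(0, 0), (0, 0), (0, 0), (0, 0), (0, 0), (0, 0), (0, 0), (0, 0), (0, 0), (0, 0), (1, 0), (1, 0), (0, 0), (0,
    0), (0, 0), (0, 0), (0, 0), (-1, 0), (-1, 0), (-1, 1), (0, 0), (-1, 0), (-1, 0), (0, 0), (0, 0), (0, 0), (0, -1),
    (-1, 0)]

/-- glued arcs and equations -/
def tord7a_5 : TorT :=
  ⟨[(0, 0, true), (0, 1, false), (1, 2, false), (2, 4, false), (3, 3, true), (3, 5, false), (4, 4, true), (5, 5,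
    true), (6, 6, false)],
    [([0, 0, 0, 0, 1, 1, 2], 2), ([0, 0, 0, 1, 0, 1, 0], 2), ([0, 0, 1, 1, 1, 0, 0], 2), ([0, 1, 1, 0, 0, 0, 0], 2),
    ([2, 1, 0, 0, 0, 0, 0], 2)]⟩

theorem tord7a_5_ok : tord7a_5.OK 7 := TT.leaf_ok (T := ttd7a_5) (by decide +kernel)

end Pool.Agent.Lib_MP_fa6e45
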