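import Pool.Agent.Lib_MP_fa6e45.CT5

/-!
MP_fa6e45_co, stage 9: straight-side patterns with `7` sides, tables of tori (generated by a program).
-/

namespace Pool.Agent.Lib_MP_fa6e45

/-- the torus -/
def ttd7a_72 : TT where
  k := 8
  rf := [false, false, true, true, false, false, true, true]
  tau := [3, 8, 9, 0, 14, 15, 20, 10, 1, 2, 7, 21, 22, 27, 4, 5, 32, 33, 30, 31, 6, 11, 12, 39, 40, 37, 38, 13, 46,
    47, 18, 19, 16, 17, 48, 53, 54, 25, 26, 23, 24, 55, 45, 50, 51, 42, 28, 29, 34, 52, 43, 44, 49, 35, 36, 41]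
  par := [0, 1, 4, 11, 16, 23, 28, 35]
  stars := [[0, 14, 4], [1, 3, 9], [2, 8, 10], [5, 15], [6, 16, 32, 20], [7, 21, 11], [12, 22], [13, 23, 39, 27],
    [17, 33], [18, 30, 48, 34], [19, 31], [24, 40], [25, 37, 55, 41], [26, 38], [28, 42, 46], [29, 47], [35, 49, 53],
    [36, 54], [43, 51, 45], [44, 52, 50]]
  word := [[3], [], [2], [2], [], [], [0, 3, 1], [2], [], [3], [3], [], [], [2], [], [], [], [], [0, 2, 1], [0, 2,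
    1], [0, 2, 1], [], [], [], [], [3], [3], [3], [], [], [0, 3, 1], [0, 3, 1], [], [], [0, 2, 1], [], [], [2], [2],
    [], [], [3], [0, 3, 1], [0, 3], [0], [0, 2, 1], [], [], [0, 3, 1], [2], [2, 1], [1], [3], [], [], [2]]
  rank := [7, 0, 6, 7, 0, 1, 6, 5, 0, 6, 5, 0, 1, 4, 0, 1, 0, 1, 4, 5, 6, 0, 1, 0, 1, 2, 3, 4, 0, 1, 4, 5, 0, 1, 3,
    0, 1, 2, 3, 0, 1, 1, 2, 1, 0, 2, 0, 1, 3, 0, 1, 0, 0, 0, 1, 1]
  just := [1, 0, 2, 1, 0, 3, 4, 5, 0, 2, 5, 0, 6, 7, 0, 3, 0, 8, 9, 10, 4, 0, 6, 0, 11, 12, 13, 7, 0, 15, 9, 10, 0,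
    8, 14, 0, 17, 12, 13, 0, 11, 16, 18, 19, 0, 18, 0, 15, 14, 0, 19, 0, 0, 0, 17, 16]
  gA := 44
  gB := 49
  fin := 0
  sid := [0, 1, 2, 1, 0, 3, 4, 5, 2, 1, 2, 5, 6, 7, 0, 3, 4, 8, 9, 10, 4, 5, 6, 7, 11, 12, 13, 7, 14, 15, 9, 10, 4,
    8, 9, 16, 17, 12, 13, 7, 11, 12, 14, 18, 19, 18, 14, 15, 9, 16, 19, 18, 19, 16, 17, 12]
  off := [(0, 0), (0, 0), (0, 0), (0, 1), (0, 1), (0, 0), (0, 0), (0, 0), (0, 0), (0, 0), (0, -1), (0, -1), (0, 0),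
    (0, 0), (0, 1), (0, 0), (0, 0), (0, 0), (0, 0), (0, 0), (0, 1), (0, -1), (0, 0), (0, 0), (0, 0), (0, 0), (0, 0),
    (0, -1), (0, 0), (0, 0), (0, -1), (0, -1), (0, 0), (0, 0), (0, 0), (0, 0), (0, 0), (0, 1), (0, 1), (0, 0), (0,
    0), (0, 0), (0, -1), (0, 0), (0, 0), (0, 1), (0, 0), (0, 0), (0, -1), (0, 1), (-1, 1), (-1, 1), (-1, 0), (0, 0),
    (0, 0), (0, 1)]

/-- glued arcs and equations -/
def tord7a_72 : TorT :=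
  ⟨[(0, 3, true), (0, 4, false), (1, 1, true), (1, 5, false), (2, 2, true), (2, 4, false), (3, 5, false), (6, 6,
    false)],
    [([0, 0, 0, 1, 0, 1, 0], 2), ([0, 0, 1, 0, 1, 0, 2], 2), ([0, 1, 0, 0, 0, 1, 0], 2), ([0, 1, 1, 1, 0, 0, 0], 2),
    ([2, 0, 0, 0, 1, 0, 0], 2)]⟩

theorem tord7a_72_ok : tord7a_72.OK 7 := TT.leaf_ok (T := ttd7a_72) (by decide +kernel)

/-- the torus -/
def ttd7a_73 : TT where
  k := 8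
  rf := [false, false, true, true, false, true, true, false]
  tau := [7, 17, 18, 26, 33, 24, 20, 0, 38, 39, 47, 54, 45, 41, 37, 36, 35, 1, 2, 25, 6, 42, 31, 32, 5, 19, 3, 34,
    51, 50, 49, 22, 23, 4, 27, 16, 15, 14, 8, 9, 46, 13, 21, 52, 53, 12, 40, 10, 55, 30, 29, 28, 43, 44, 11, 48]
  par := [0, 0, 1, 3, 4, 8, 10, 11]
  stars := [[0, 14, 38, 8], [1, 7, 35, 17], [2, 18], [3, 19, 26], [4, 27, 34], [5, 33, 24], [6, 25, 20], [9, 39],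
    [10, 40, 47], [11, 48, 55], [12, 54, 45], [13, 46, 41], [15, 37], [16, 36], [21, 43, 52, 28], [22, 31, 49, 42],
    [23, 32], [29, 51], [30, 50], [44, 53]]
  word := [[], [], [], [], [], [0, 2, 1], [0, 2, 1], [], [], [], [], [], [3], [3], [3], [3], [3], [], [], [], [0, 3,
    1], [0, 3], [0, 3, 1], [0, 3, 1], [0, 3, 1], [], [], [], [0], [0], [0], [0, 2, 1], [0, 2, 1], [], [], [2], [2],
    [2], [], [], [], [2], [2, 1], [2], [2], [2], [], [], [], [1], [1], [1], [3], [3], [], []]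
  rank := [0, 0, 1, 0, 0, 5, 6, 0, 0, 1, 0, 0, 1, 3, 6, 5, 4, 0, 1, 2, 6, 2, 3, 4, 5, 2, 0, 1, 1, 0, 1, 3, 4, 0, 1,
    4, 5, 6, 0, 1, 2, 3, 2, 1, 0, 1, 2, 0, 1, 1, 0, 1, 1, 0, 0, 1]
  just := [0, 0, 2, 0, 0, 5, 6, 0, 0, 7, 0, 0, 10, 11, 12, 13, 1, 0, 2, 3, 6, 14, 15, 16, 5, 3, 0, 4, 17, 0, 18, 15,
    16, 0, 4, 1, 13, 12, 0, 7, 8, 11, 14, 19, 0, 10, 8, 0, 9, 18, 0, 17, 19, 0, 0, 9]
  gA := 29
  gB := 44
  fin := 0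
  sid := [0, 1, 2, 3, 4, 5, 6, 1, 0, 7, 8, 9, 10, 11, 0, 12, 13, 1, 2, 3, 6, 14, 15, 16, 5, 6, 3, 4, 14, 17, 18, 15,
    16, 5, 4, 1, 13, 12, 0, 7, 8, 11, 15, 14, 19, 10, 11, 8, 9, 15, 18, 17, 14, 19, 10, 9]
  off := [(0, 0), (0, 0), (0, 0), (0, 0), (0, 0), (0, 0), (0, 0), (0, 0), (0, 0), (0, 0), (0, 0), (0, 0), (0, 0), (0,
    0), (0, -1), (0, 0), (0, 0), (0, 0), (0, 0), (0, 0), (0, -1), (0, 0), (0, 0), (0, 0), (0, -1), (0, -1), (0, 0),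
    (0, 0), (0, 0), (0, 0), (0, 0), (0, 1), (0, 1), (0, 0), (0, 0), (0, 1), (0, 1), (0, 1), (0, 0), (0, 0), (0, 0),
    (0, 1), (-1, 1), (-1, 1), (0, 0), (0, 1), (0, 1), (0, 0), (0, 0), (-1, 1), (-1, 0), (-1, 0), (-1, 0), (0, -1),
    (0, 0), (0, 0)]

/-- glued arcs and equations -/
def tord7a_73 : TorT :=
  ⟨[(0, 0, true), (0, 2, true), (1, 1, true), (1, 3, false), (2, 4, false), (3, 5, false), (4, 5, true), (6, 6,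
    false)],
    [([0, 0, 0, 0, 1, 0, 2], 2), ([0, 0, 0, 1, 0, 2, 0], 2), ([0, 0, 1, 0, 1, 0, 0], 2), ([0, 1, 1, 0, 0, 0, 0], 2),
    ([2, 1, 0, 1, 0, 0, 0], 2)]⟩

theorem tord7a_73_ok : tord7a_73.OK 7 := TT.leaf_ok (T := ttd7a_73) (by decide +kernel)

/-- the torus -/
def ttd7a_74 : TT where
  k := 16
  rf := [false, false, false, true, true, false, true, true, true, true, false, true, true, false, false, false]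
  tau := [7, 14, 21, 22, 23, 24, 34, 0, 35, 42, 43, 44, 45, 55, 1, 36, 28, 29, 30, 31, 62, 2, 3, 4, 5, 33, 67, 76,
    16, 17, 18, 19, 61, 25, 6, 8, 15, 49, 50, 51, 52, 83, 9, 10, 11, 12, 54, 88, 97, 37, 38, 39, 40, 82, 46, 13, 100,
    101, 102, 103, 68, 32, 20, 72, 73, 74, 75, 26, 60, 104, 99, 92, 63, 64, 65, 66, 27, 107, 108, 109, 110, 89, 53,
    41, 93, 94, 95, 96, 47, 81, 111, 106, 71, 84, 85, 86, 87, 48, 105, 70, 56, 57, 58, 59, 69, 98, 91, 77, 78, 79,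
    80, 90]
  par := [0, 0, 1, 2, 6, 8, 9, 13, 20, 26, 27, 41, 47, 48, 56, 77]
  stars := [[0, 28, 16, 36, 8], [1, 7, 49, 37, 15], [2, 14, 56, 100, 70, 21], [3, 22], [4, 23], [5, 24], [6, 25, 34],
    [9, 35, 77, 107, 91, 42], [10, 43], [11, 44], [12, 45], [13, 46, 55], [17, 29], [18, 30], [19, 31], [20, 32, 62],
    [26, 68, 61, 33], [27, 76, 67], [38, 50], [39, 51], [40, 52], [41, 53, 83], [47, 89, 82, 54], [48, 97, 88], [57,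
    101], [58, 102], [59, 103], [60, 69, 104], [63, 72, 92, 106, 98], [64, 73], [65, 74], [66, 75], [71, 99, 105, 84,
    93], [78, 108], [79, 109], [80, 110], [81, 90, 111], [85, 94], [86, 95], [87, 96]]
  word := [[], [], [], [], [], [], [], [], [], [], [], [], [], [], [], [1, 2], [2, 1], [2, 1], [2, 1], [2, 1], [],
    [], [], [], [], [], [], [], [0, 3], [0, 3], [0, 3], [0, 3], [0, 3], [], [], [], [3, 0], [3, 0], [3, 0], [3, 0],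
    [3, 0], [], [], [], [], [], [], [], [], [1, 2], [1, 2], [1, 2], [1, 2], [1, 2], [], [], [], [], [], [], [2, 1],
    [2, 1], [], [], [], [], [], [], [0, 3], [0, 3], [], [0], [], [], [], [], [], [], [], [], [], [3, 0], [3, 0], [],
    [], [], [], [], [], [1, 2], [1, 2], [], [1], [], [], [], [], [], [2], [], [], [], [], [], [2, 1], [3], [], [],
    [], [], [], [3, 0]]
  rank := [0, 0, 0, 1, 2, 3, 0, 0, 0, 0, 1, 2, 3, 0, 0, 12, 11, 10, 9, 8, 0, 0, 1, 2, 3, 4, 0, 0, 11, 10, 9, 8, 7, 4,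
    0, 0, 12, 11, 10, 9, 8, 0, 0, 1, 2, 3, 4, 0, 0, 11, 10, 9, 8, 7, 4, 0, 0, 1, 2, 3, 6, 7, 0, 4, 3, 2, 1, 0, 6, 5,
    1, 0, 4, 3, 2, 1, 0, 0, 1, 2, 3, 6, 7, 0, 4, 3, 2, 1, 0, 6, 5, 1, 0, 4, 3, 2, 1, 0, 0, 1, 0, 1, 2, 3, 5, 0, 1, 0,
    1, 2, 3, 5]
  just := [0, 0, 0, 3, 4, 5, 0, 0, 0, 0, 8, 9, 10, 0, 0, 1, 12, 13, 14, 15, 0, 0, 3, 4, 5, 6, 0, 0, 12, 13, 14, 15,
    16, 6, 0, 0, 1, 18, 19, 20, 21, 0, 0, 8, 9, 10, 11, 0, 0, 18, 19, 20, 21, 22, 11, 0, 0, 24, 25, 26, 27, 16, 0,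
    29, 30, 31, 17, 0, 27, 28, 2, 0, 29, 30, 31, 17, 0, 0, 33, 34, 35, 36, 22, 0, 37, 38, 39, 23, 0, 36, 32, 7, 0,
    37, 38, 39, 23, 0, 0, 2, 0, 24, 25, 26, 28, 0, 7, 0, 33, 34, 35, 32]
  gA := 71
  gB := 98
  fin := 0
  sid := [0, 1, 2, 3, 4, 5, 6, 1, 0, 7, 8, 9, 10, 11, 2, 1, 0, 12, 13, 14, 15, 2, 3, 4, 5, 6, 16, 17, 0, 12, 13, 14,
    15, 16, 6, 7, 0, 1, 18, 19, 20, 21, 7, 8, 9, 10, 11, 22, 23, 1, 18, 19, 20, 21, 22, 11, 2, 24, 25, 26, 27, 16,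
    15, 28, 29, 30, 31, 17, 16, 27, 2, 32, 28, 29, 30, 31, 17, 7, 33, 34, 35, 36, 22, 21, 32, 37, 38, 39, 23, 22, 36,
    7, 28, 32, 37, 38, 39, 23, 28, 32, 2, 24, 25, 26, 27, 32, 28, 7, 33, 34, 35, 36]
  off := [(0, 0), (0, 0), (0, 0), (0, 0), (0, 0), (0, 0), (0, 0), (0, 0), (0, 0), (0, 0), (0, 0), (0, 0), (0, 0), (0,
    0), (0, 0), (0, 0), (-1, 1), (0, 0), (0, 0), (0, 0), (0, 0), (0, 0), (0, 0), (0, 0), (0, 0), (0, 0), (0, 0), (0,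
    0), (0, 0), (1, -1), (1, -1), (1, -1), (1, -1), (0, 0), (0, 0), (0, 0), (0, 0), (1, -1), (0, 0), (0, 0), (0, 0),
    (0, 0), (0, 0), (0, 0), (0, 0), (0, 0), (0, 0), (0, 0), (0, 0), (0, 0), (-1, 1), (-1, 1), (-1, 1), (-1, 1), (0,
    0), (0, 0), (0, 0), (0, 0), (0, 0), (0, 0), (0, 0), (-1, 1), (0, 0), (0, 0), (0, 0), (0, 0), (0, 0), (0, 0), (0,
    0), (1, -1), (0, 0), (0, 0), (0, 0), (0, 0), (0, 0), (0, 0), (0, 0), (0, 0), (0, 0), (0, 0), (0, 0), (0, 0), (1,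
    -1), (0, 0), (-1, 0), (0, 0), (0, 0), (0, 0), (0, 0), (0, 0), (-1, 1), (0, 0), (-1, 0), (-1, 0), (0, 0), (0, 0),
    (0, 0), (0, 0), (-1, 1), (0, 0), (0, 0), (0, 0), (0, 0), (0, 0), (0, 0), (0, -1), (-1, 0), (0, 0), (0, 0), (0,
    0), (0, 0), (0, 0)]

/-- glued arcs and equations -/
def tord7a_74 : TorT :=
  ⟨[(0, 0, true), (0, 1, true), (0, 2, false), (1, 1, true), (1, 3, false), (2, 4, false), (3, 5, false), (4, 5,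
    true), (6, 6, false)],
    [([0, 0, 0, 0, 0, 4, 0], 2), ([0, 0, 0, 0, 1, 0, 2], 2), ([0, 0, 0, 1, 0, 1, 0], 2), ([0, 0, 1, 0, 1, 0, 0], 2),
    ([0, 1, 0, 1, 0, 0, 0], 2), ([2, 2, 1, 0, 0, 0, 0], 2), ([4, 0, 2, 0, 0, 0, 0], 2)]⟩

theorem tord7a_74_ok : tord7a_74.OK 7 := TT.leaf_ok (T := ttd7a_74) (by decide +kernel)

/-- the torus -/
def ttd7a_75 : TT where
  k := 8
  rf := [false, false, false, false, true, true, true, true]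
  tau := [11, 17, 16, 15, 24, 23, 34, 33, 22, 19, 18, 0, 28, 41, 25, 3, 2, 1, 10, 9, 48, 47, 8, 5, 4, 14, 42, 55, 12,
    43, 54, 53, 35, 7, 6, 32, 52, 51, 50, 45, 44, 13, 26, 29, 40, 39, 49, 21, 20, 46, 38, 37, 36, 31, 30, 27]
  par := [0, 0, 1, 4, 6, 13, 20, 27]
  stars := [[0, 28, 12], [1, 11, 18], [2, 17], [3, 16], [4, 15, 25], [5, 24], [6, 23, 8, 34], [7, 35, 33], [9, 22,
    48, 20], [10, 19], [13, 29, 44, 41], [14, 42, 26], [21, 49, 47], [27, 43, 30, 55], [31, 54], [32, 36, 53], [37,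
    52], [38, 51], [39, 46, 50], [40, 45]]
  word := [[], [], [], [], [], [], [], [0], [0], [], [], [], [2, 1, 3, 0], [], [], [], [], [], [], [], [], [1], [1],
    [], [], [], [], [], [1, 2, 0, 3], [1, 2], [1, 2], [1, 2], [1], [1], [], [0], [2], [2], [2], [2, 1], [2, 1], [],
    [], [3, 0], [0, 3], [0, 3], [0], [0], [], [1], [3], [3], [3], [3, 0], [3, 0], []]
  rank := [0, 0, 1, 2, 0, 1, 0, 2, 0, 2, 1, 0, 7, 0, 3, 2, 1, 0, 1, 2, 0, 3, 0, 1, 0, 3, 4, 0, 7, 6, 5, 4, 3, 2, 0,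
    3, 1, 0, 1, 5, 6, 0, 4, 6, 6, 5, 4, 3, 0, 4, 1, 0, 1, 4, 5, 0]
  just := [0, 0, 2, 3, 0, 5, 0, 6, 0, 9, 1, 0, 10, 0, 4, 3, 2, 0, 1, 9, 0, 8, 0, 5, 0, 4, 11, 0, 10, 13, 14, 15, 7,
    6, 0, 7, 16, 0, 17, 18, 19, 0, 11, 13, 19, 18, 12, 8, 0, 12, 17, 0, 16, 15, 14, 0]
  gA := 8
  gB := 37
  fin := 0
  sid := [0, 1, 2, 3, 4, 5, 6, 7, 6, 8, 9, 1, 0, 10, 11, 4, 3, 2, 1, 9, 8, 12, 8, 6, 5, 4, 11, 13, 0, 10, 13, 14, 15,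
    7, 6, 7, 15, 16, 17, 18, 19, 10, 11, 13, 10, 19, 18, 12, 8, 12, 18, 17, 16, 15, 14, 13]
  off := [(0, 0), (0, 0), (0, 0), (0, 0), (0, 0), (0, 0), (0, 0), (0, 0), (1, 0), (0, 0), (0, 0), (0, 0), (0, 0), (0,
    0), (0, 0), (0, 0), (0, 0), (0, 0), (0, 0), (0, 0), (0, 0), (0, 0), (-1, 0), (0, 0), (0, 0), (0, 0), (0, 0), (0,
    0), (0, 0), (0, 0), (-1, 1), (0, 0), (0, 0), (-1, 0), (0, 0), (0, 0), (1, 0), (0, 0), (0, 0), (0, 0), (0, 0), (0,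
    0), (0, 0), (0, 0), (1, -1), (1, -1), (1, -1), (1, 0), (0, 0), (0, 0), (0, -1), (0, -1), (0, -1), (1, -1), (1,
    -1), (0, 0)]

/-- glued arcs and equations -/
def tord7a_75 : TorT :=
  ⟨[(0, 4, true), (0, 5, false), (1, 1, true), (1, 3, true), (2, 2, true), (2, 5, true), (3, 4, true), (6, 6, false)],
    [([0, 0, 0, 1, 0, 1, 0], 2), ([0, 0, 1, 1, 0, 0, 0], 2), ([0, 1, 0, 0, 2, 0, 0], 2), ([0, 1, 1, 0, 0, 0, 2], 2),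
    ([2, 0, 0, 0, 0, 1, 0], 2)]⟩

theorem tord7a_75_ok : tord7a_75.OK 7 := TT.leaf_ok (T := ttd7a_75) (by decide +kernel)

/-- the torus -/
def ttd7a_76 : TT where
  k := 8
  rf := [false, false, false, false, true, true, true, true]
  tau := [10, 9, 18, 17, 16, 22, 34, 32, 19, 1, 0, 28, 26, 41, 24, 23, 4, 3, 2, 8, 48, 46, 5, 15, 14, 42, 12, 55, 11,
    54, 36, 35, 7, 47, 6, 31, 30, 53, 52, 51, 43, 13, 25, 40, 50, 49, 21, 33, 20, 45, 44, 39, 38, 37, 29, 27]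
  par := [0, 0, 2, 5, 6, 13, 20, 27]
  stars := [[0, 28, 11], [1, 10], [2, 9, 19], [3, 18], [4, 17], [5, 16, 23], [6, 22, 47, 34], [7, 35, 32], [8, 33,
    48, 20], [12, 29, 55, 27], [13, 26, 43, 41], [14, 42, 25], [15, 24], [21, 49, 46], [30, 37, 54], [31, 36], [38,
    53], [39, 52], [40, 44, 51], [45, 50]]
  word := [[], [], [], [], [], [], [], [1], [], [], [], [2, 0, 3, 1], [2, 0], [], [], [], [], [], [], [], [], [0],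
    [], [], [], [], [1, 3], [], [0, 2, 1, 3], [0, 2], [0], [0], [0], [0], [], [1], [1], [2], [2], [2], [2, 0], [],
    [], [1, 3], [1], [1], [1], [1], [], [0], [0], [3], [3], [3], [3, 1], []]
  rank := [0, 1, 0, 1, 2, 0, 0, 3, 2, 1, 0, 7, 6, 0, 4, 3, 2, 1, 0, 2, 0, 1, 0, 3, 4, 5, 6, 0, 7, 6, 5, 4, 3, 0, 0,
    4, 5, 1, 0, 1, 4, 0, 5, 4, 3, 2, 1, 0, 0, 2, 3, 1, 0, 1, 6, 0]
  just := [0, 1, 0, 3, 4, 0, 0, 8, 2, 1, 0, 9, 10, 0, 12, 5, 4, 3, 0, 2, 0, 6, 0, 5, 12, 11, 10, 0, 9, 14, 15, 7, 8,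
    0, 0, 7, 15, 16, 0, 17, 18, 0, 11, 18, 19, 13, 6, 0, 0, 13, 19, 17, 0, 16, 14, 0]
  gA := 33
  gB := 38
  fin := 0
  sid := [0, 1, 2, 3, 4, 5, 6, 7, 8, 2, 1, 0, 9, 10, 11, 12, 5, 4, 3, 2, 8, 13, 6, 5, 12, 11, 10, 9, 0, 9, 14, 15, 7,
    8, 6, 7, 15, 14, 16, 17, 18, 10, 11, 10, 18, 19, 13, 6, 8, 13, 19, 18, 17, 16, 14, 9]
  off := [(0, 0), (0, 0), (0, 0), (0, 0), (0, 0), (0, 0), (0, 0), (0, 0), (0, 0), (0, 0), (0, 0), (0, 0), (0, 0), (0,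
    0), (0, 0), (0, 0), (0, 0), (0, 0), (0, 0), (0, 0), (0, 0), (0, 0), (0, 0), (0, 0), (0, 0), (0, 0), (-1, -1),
    (-1, -1), (0, 0), (0, 0), (0, 0), (0, 0), (1, 0), (1, 0), (0, 0), (0, 0), (-1, 0), (-1, 0), (0, 0), (0, 0), (0,
    0), (0, 0), (0, 0), (-1, -1), (-1, -1), (0, 0), (-1, 0), (-1, 0), (0, 0), (0, 0), (1, 0), (0, -1), (0, -1), (0,
    -1), (-1, -1), (-1, -1)]

/-- glued arcs and equations -/
def tord7a_76 : TorT :=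
  ⟨[(0, 3, true), (0, 4, false), (1, 2, true), (1, 5, true), (2, 4, true), (3, 3, true), (5, 5, true), (6, 6, false)],
    [([0, 0, 0, 1, 1, 0, 0], 2), ([0, 0, 2, 0, 0, 1, 0], 2), ([0, 1, 0, 0, 0, 1, 2], 2), ([0, 1, 0, 1, 0, 0, 0], 2),
    ([2, 0, 0, 0, 1, 0, 0], 2)]⟩

theorem tord7a_76_ok : tord7a_76.OK 7 := TT.leaf_ok (T := ttd7a_76) (by decide +kernel)

/-- the torus -/
def ttd7a_77 : TT where
  k := 12
  rf := [false, false, true, false, true, false, true, false, true, false, true, true]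
  tau := [10, 9, 18, 24, 32, 40, 48, 16, 17, 1, 0, 42, 43, 55, 53, 54, 7, 8, 2, 59, 27, 52, 51, 46, 3, 60, 68, 20,
    73, 72, 39, 47, 4, 61, 69, 81, 82, 70, 71, 30, 5, 62, 11, 12, 49, 50, 23, 31, 6, 44, 45, 22, 21, 14, 15, 13, 80,
    79, 67, 19, 25, 33, 41, 74, 75, 77, 78, 58, 26, 34, 37, 38, 29, 28, 63, 64, 83, 65, 66, 57, 56, 35, 36, 76]
  par := [0, 0, 2, 3, 4, 5, 6, 13, 19, 26, 28, 35]
  stars := [[0, 42, 11], [1, 10], [2, 9, 18], [3, 19, 60, 25], [4, 24, 47, 32], [5, 33, 62, 41], [6, 40, 31, 48], [7,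
    55, 16], [8, 17], [12, 43], [13, 44, 49], [14, 53, 21], [15, 54], [20, 27, 68, 59], [22, 52], [23, 51, 46], [26,
    61, 34, 69], [28, 74, 63], [29, 73], [30, 39, 72], [35, 56, 81], [36, 82], [37, 83, 70], [38, 71], [45, 50], [57,
    80], [58, 67, 79], [64, 75], [65, 76, 77], [66, 78]]
  word := [[], [], [], [], [], [], [], [], [], [], [], [1, 3, 0, 2], [1, 3, 0, 2], [], [], [], [], [], [], [], [1, 3,
    0], [1, 2, 0], [1, 2, 0], [2], [], [], [], [1, 2, 0], [], [], [2], [2], [], [0], [0], [], [], [3], [3], [3], [],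
    [0], [3, 1, 2, 0], [3, 1, 2, 0], [3, 1, 2, 0], [3, 1, 2, 0], [3], [3], [], [1, 3, 0, 2], [1, 3, 0, 2], [1, 3, 0],
    [1, 3, 0], [], [], [], [1], [1], [1, 3, 0], [], [], [1], [1], [1], [1], [1, 2], [1, 2], [1, 2, 0], [], [1], [2],
    [2], [], [], [0], [0], [2], [3, 0], [3, 0], [0], [0], [], [], [3]]
  rank := [0, 1, 0, 0, 0, 0, 0, 3, 2, 1, 0, 13, 12, 0, 5, 4, 3, 2, 0, 0, 7, 8, 9, 6, 0, 1, 0, 7, 0, 1, 4, 5, 0, 2, 0,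
    0, 1, 2, 3, 4, 0, 3, 13, 12, 11, 10, 6, 5, 0, 11, 10, 9, 8, 5, 4, 0, 4, 5, 6, 0, 1, 2, 3, 1, 2, 3, 4, 6, 0, 0, 2,
    3, 1, 0, 1, 2, 0, 3, 4, 5, 4, 0, 1, 0]
  just := [0, 1, 0, 0, 0, 0, 0, 8, 2, 1, 0, 9, 10, 0, 12, 7, 8, 2, 0, 0, 13, 11, 14, 4, 0, 3, 0, 13, 0, 18, 19, 6, 0,
    16, 0, 0, 21, 22, 23, 19, 0, 5, 9, 10, 24, 15, 4, 6, 0, 24, 15, 14, 11, 12, 7, 0, 20, 25, 26, 0, 3, 16, 5, 17,
    27, 28, 29, 26, 0, 0, 22, 23, 18, 0, 17, 27, 0, 28, 29, 25, 20, 0, 21, 0]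
  gA := 34
  gB := 76
  fin := 0
  sid := [0, 1, 2, 3, 4, 5, 6, 7, 8, 2, 1, 0, 9, 10, 11, 12, 7, 8, 2, 3, 13, 11, 14, 15, 4, 3, 16, 13, 17, 18, 19, 6,
    4, 5, 16, 20, 21, 22, 23, 19, 6, 5, 0, 9, 10, 24, 15, 4, 6, 10, 24, 15, 14, 11, 12, 7, 20, 25, 26, 13, 3, 16, 5,
    17, 27, 28, 29, 26, 13, 16, 22, 23, 19, 18, 17, 27, 28, 28, 29, 26, 25, 20, 21, 22]
  off := [(0, 0), (0, 0), (0, 0), (0, 0), (0, 0), (0, 0), (0, 0), (0, 0), (0, 0), (0, 0), (0, 0), (0, 0), (0, 0), (0,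
    0), (0, 0), (0, 0), (0, 0), (0, 0), (0, 0), (0, 0), (0, 0), (0, 1), (0, 0), (0, 0), (0, 0), (0, 0), (0, 0), (0,
    1), (0, 0), (0, 0), (0, 0), (0, 1), (0, 0), (0, 0), (1, 0), (0, 0), (0, 0), (0, 0), (0, 0), (0, -1), (0, 0), (0,
    0), (0, 0), (0, 0), (0, 0), (0, 0), (0, -1), (0, -1), (0, 0), (0, 0), (0, 0), (0, -1), (0, -1), (0, 0), (0, 0),
    (0, 0), (-1, 0), (0, 0), (0, 0), (0, 0), (0, 0), (0, 0), (-1, 0), (-1, 0), (0, 0), (0, 0), (0, 0), (0, 1), (0,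
    1), (0, 0), (0, 1), (0, 1), (0, 0), (0, 0), (0, 0), (1, 0), (1, 0), (1, -1), (1, -1), (1, 0), (1, 0), (0, 0), (0,
    0), (0, 0)]

/-- glued arcs and equations -/
def tord7a_77 : TorT :=
  ⟨[(0, 2, false), (0, 3, true), (0, 4, false), (1, 2, true), (1, 3, false), (1, 5, false), (2, 4, false), (3, 3,
    true), (3, 5, true), (4, 4, false), (5, 5, true), (6, 6, false), (6, 6, true)],
    [([0, 0, 0, 0, 0, 2, 2], 2), ([0, 0, 0, 1, 0, 1, 2], 2), ([0, 0, 0, 1, 2, 1, 0], 2), ([0, 0, 2, 0, 1, 0, 0], 2),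
    ([0, 1, 0, 0, 0, 1, 0], 2), ([0, 1, 0, 1, 0, 0, 0], 2), ([1, 0, 1, 0, 0, 0, 1], 2), ([2, 0, 0, 0, 1, 0, 0], 2)]⟩

theorem tord7a_77_ok : tord7a_77.OK 7 := TT.leaf_ok (T := ttd7a_77) (by decide +kernel)

end Pool.Agent.Lib_MP_fa6e45
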