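import Pool.Agent.Lib_MP_fa6e45.DQA
import Pool.Agent.Lib_MP_fa6e45.DQ7a_12_0
import Pool.Agent.Lib_MP_fa6e45.DQ7a_12_1
import Pool.Agent.Lib_MP_fa6e45.DQ7a_12_2
import Pool.Agent.Lib_MP_fa6e45.DQ7a_12_3

/-!
MP_fa6e45_co, stage 9: straight-side patterns with `7` sides, a certificate (generated by a program).
-/

namespace Pool.Agent.Lib_MP_fa6e45

/-- nodes -/
noncomputable def cD7a_89_n : List (QG PN) :=
  cD7a_89_n0 ++ (cD7a_89_n1 ++ (cD7a_89_n2 ++ cD7a_89_n3))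

theorem cD7a_89_ok :
    allI (chkG (ckP 7 ttD7a cD7a_89_w cD7a_89_s) 7 cD7a_89_w 2 cD7a_89_s cD7a_89_t (bl3 [] cD7a_89_D)) cD7a_89_n 0 = true := by
  refine allI_appQ (k := 116) cD7a_89_k0 (by decide +kernel) ?_
  refine allI_appQ (k := 99) cD7a_89_k1 (by decide +kernel) ?_
  refine allI_appQ (k := 86) cD7a_89_k2 (by decide +kernel) ?_
  exact cD7a_89_k3

theorem cD7a_89 : NodeU 7 cD7a_89_w [] :=
  nodeG_of (C := 2) (sy := cD7a_89_s) (st := cD7a_89_t) (D := cD7a_89_D) (Ns := cD7a_89_n) (by norm_num) (by norm_num)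
    ttD7a_ok (by decide +kernel) (by decide +kernel) cD7a_89_ok

theorem sD7a_12 : Solved 7 [cD7a_89_w] :=
  Solved.cons cD7a_89 Solved.nil

end Pool.Agent.Lib_MP_fa6e45
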