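import Pool.Agent.Lib_MP_fa6e45.DQA
import Pool.Agent.Lib_MP_fa6e45.DQ7a_7_0
import Pool.Agent.Lib_MP_fa6e45.DQ7a_7_1
import Pool.Agent.Lib_MP_fa6e45.DQ7a_7_2
import Pool.Agent.Lib_MP_fa6e45.DQ7a_7_3
import Pool.Agent.Lib_MP_fa6e45.DQ7a_7_4
import Pool.Agent.Lib_MP_fa6e45.DQ7a_7_5
import Pool.Agent.Lib_MP_fa6e45.DQ7a_7_6
import Pool.Agent.Lib_MP_fa6e45.DQ7a_7_7
import Pool.Agent.Lib_MP_fa6e45.DQ7a_7_8
import Pool.Agent.Lib_MP_fa6e45.DQ7a_7_9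
import Pool.Agent.Lib_MP_fa6e45.DQ7a_7_10
import Pool.Agent.Lib_MP_fa6e45.DQ7a_7_11
import Pool.Agent.Lib_MP_fa6e45.DQ7a_7_12
import Pool.Agent.Lib_MP_fa6e45.DQ7a_7_13
import Pool.Agent.Lib_MP_fa6e45.DQ7a_7_14
import Pool.Agent.Lib_MP_fa6e45.DQ7a_7_15
import Pool.Agent.Lib_MP_fa6e45.DQ7a_7_16
import Pool.Agent.Lib_MP_fa6e45.DQ7a_7_17

/-!
MP_fa6e45_co, stage 9: straight-side patterns with `7` sides, a certificate (generated by a program).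
-/

namespace Pool.Agent.Lib_MP_fa6e45

/-- nodes -/
noncomputable def cD7a_84_n : List (QG PN) :=
  cD7a_84_n0 ++ (cD7a_84_n1 ++ (cD7a_84_n2 ++ (cD7a_84_n3 ++ (cD7a_84_n4 ++ (cD7a_84_n5 ++ (
    cD7a_84_n6 ++ (cD7a_84_n7 ++ (cD7a_84_n8 ++ (cD7a_84_n9 ++ (cD7a_84_n10 ++ (cD7a_84_n11 ++ (
    cD7a_84_n12 ++ (cD7a_84_n13 ++ (cD7a_84_n14 ++ (cD7a_84_n15 ++ (cD7a_84_n16 ++
    cD7a_84_n17))))))))))))))))

theorem cD7a_84_ok :
    allI (chkG (ckP 7 ttD7a cD7a_84_w cD7a_84_s) 7 cD7a_84_w 2 cD7a_84_s cD7a_84_t (bl3 [] cD7a_84_D)) cD7a_84_n 0 = true := by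
  refine allI_appQ (k := 132) cD7a_84_k0 (by decide +kernel) ?_
  refine allI_appQ (k := 114) cD7a_84_k1 (by decide +kernel) ?_
  refine allI_appQ (k := 126) cD7a_84_k2 (by decide +kernel) ?_
  refine allI_appQ (k := 125) cD7a_84_k3 (by decide +kernel) ?_
  refine allI_appQ (k := 121) cD7a_84_k4 (by decide +kernel) ?_
  refine allI_appQ (k := 109) cD7a_84_k5 (by decide +kernel) ?_
  refine allI_appQ (k := 111) cD7a_84_k6 (by decide +kernel) ?_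
  refine allI_appQ (k := 95) cD7a_84_k7 (by decide +kernel) ?_
  refine allI_appQ (k := 98) cD7a_84_k8 (by decide +kernel) ?_
  refine allI_appQ (k := 112) cD7a_84_k9 (by decide +kernel) ?_
  refine allI_appQ (k := 91) cD7a_84_k10 (by decide +kernel) ?_
  refine allI_appQ (k := 100) cD7a_84_k11 (by decide +kernel) ?_
  refine allI_appQ (k := 106) cD7a_84_k12 (by decide +kernel) ?_
  refine allI_appQ (k := 105) cD7a_84_k13 (by decide +kernel) ?_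
  refine allI_appQ (k := 87) cD7a_84_k14 (by decide +kernel) ?_
  refine allI_appQ (k := 84) cD7a_84_k15 (by decide +kernel) ?_
  refine allI_appQ (k := 92) cD7a_84_k16 (by decide +kernel) ?_
  exact cD7a_84_k17

theorem cD7a_84 : NodeU 7 cD7a_84_w [] :=
  nodeG_of (C := 2) (sy := cD7a_84_s) (st := cD7a_84_t) (D := cD7a_84_D) (Ns := cD7a_84_n) (by norm_num) (by norm_num)
    ttD7a_ok (by decide +kernel) (by decide +kernel) cD7a_84_ok

theorem sD7a_7 : Solved 7 [cD7a_84_w] :=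
  Solved.cons cD7a_84 Solved.nil

end Pool.Agent.Lib_MP_fa6e45
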