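import Pool.Agent.Lib_MP_fa6e45.DQA
import Pool.Agent.Lib_MP_fa6e45.DQ7a_8_0
import Pool.Agent.Lib_MP_fa6e45.DQ7a_8_1
import Pool.Agent.Lib_MP_fa6e45.DQ7a_8_2

/-!
MP_fa6e45_co, stage 9: straight-side patterns with `7` sides, a certificate (generated by a program).
-/

namespace Pool.Agent.Lib_MP_fa6e45

/-- nodes -/
noncomputable def cD7a_85_n : List (QG PN) :=
  cD7a_85_n0 ++ (cD7a_85_n1 ++ cD7a_85_n2)

theorem cD7a_85_ok :
    allI (chkG (ckP 7 ttD7a cD7a_85_w cD7a_85_s) 7 cD7a_85_w 2 cD7a_85_s cD7a_85_t (bl3 [] cD7a_85_D)) cD7a_85_n 0 = true := by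
  refine allI_appQ (k := 116) cD7a_85_k0 (by decide +kernel) ?_
  refine allI_appQ (k := 115) cD7a_85_k1 (by decide +kernel) ?_
  exact cD7a_85_k2

theorem cD7a_85 : NodeU 7 cD7a_85_w [] :=
  nodeG_of (C := 2) (sy := cD7a_85_s) (st := cD7a_85_t) (D := cD7a_85_D) (Ns := cD7a_85_n) (by norm_num) (by norm_num)
    ttD7a_ok (by decide +kernel) (by decide +kernel) cD7a_85_ok

theorem sD7a_8 : Solved 7 [cD7a_85_w] :=
  Solved.cons cD7a_85 Solved.nil

end Pool.Agent.Lib_MP_fa6e45
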