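import Pool.Agent.Lib_MP_fa6e45.CT5

/-!
MP_fa6e45_co, stage 9: straight-side patterns with `7` sides, tables of tori (generated by a program).
-/

namespace Pool.Agent.Lib_MP_fa6e45

/-- the torus -/
def ttd7k_11 : TT where
  k := 8
  rf := [false, true, false, false, false, true, true, true]
  tau := [7, 19, 18, 24, 31, 30, 27, 0, 20, 40, 39, 44, 43, 15, 42, 13, 26, 25, 2, 1, 8, 49, 33, 32, 3, 17, 16, 6,
    35, 55, 5, 4, 23, 22, 50, 28, 54, 53, 45, 10, 9, 48, 14, 12, 11, 38, 52, 51, 41, 21, 34, 47, 46, 37, 36, 29]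
  par := [0, 0, 1, 3, 4, 9, 11, 21]
  stars := [[0, 27, 16, 7], [1, 8, 20], [2, 19], [3, 18, 25], [4, 24, 32], [5, 31], [6, 30, 49, 21], [9, 41, 42, 14],
    [10, 40], [11, 45, 39], [12, 44], [13, 15, 43], [17, 26], [22, 50, 34], [23, 33], [28, 51, 48, 35], [29, 36, 55],
    [37, 54], [38, 46, 53], [47, 52]]
  word := [[], [], [], [], [], [], [3, 1, 2], [], [], [], [], [], [], [1], [0], [0], [], [], [], [], [], [], [], [],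
    [], [], [], [3, 0, 2], [3, 1], [3, 1, 2], [], [], [], [], [], [0, 2], [2], [2], [], [], [], [0], [1], [], [], [],
    [2], [2], [1], [], [], [3], [3], [3], [3], [3, 0, 2]]
  rank := [0, 0, 1, 0, 0, 1, 6, 0, 1, 0, 1, 0, 1, 3, 2, 3, 3, 2, 1, 0, 1, 0, 2, 1, 0, 2, 3, 6, 4, 5, 1, 0, 1, 2, 3,
    4, 4, 3, 2, 1, 0, 0, 2, 1, 0, 2, 0, 1, 0, 0, 3, 1, 0, 3, 4, 5]
  just := [0, 0, 2, 0, 0, 5, 6, 0, 1, 0, 8, 0, 10, 11, 7, 11, 12, 3, 2, 0, 1, 0, 14, 4, 0, 3, 12, 6, 15, 16, 5, 0, 4,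
    14, 13, 15, 17, 18, 9, 8, 0, 0, 7, 10, 0, 9, 0, 19, 0, 0, 13, 19, 0, 18, 17, 16]
  gA := 41
  gB := 46
  fin := 0
  sid := [0, 1, 2, 3, 4, 5, 6, 0, 1, 7, 8, 9, 10, 11, 7, 11, 0, 12, 3, 2, 1, 6, 13, 14, 4, 3, 12, 0, 15, 16, 6, 5, 4,
    14, 13, 15, 16, 17, 18, 9, 8, 7, 7, 11, 10, 9, 18, 19, 15, 6, 13, 15, 19, 18, 17, 16]
  off := [(0, 0), (0, 0), (0, 0), (0, 0), (0, 0), (0, 0), (0, 0), (0, 0), (0, 0), (0, 0), (0, 0), (0, 0), (0, 0), (0,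
    0), (0, 0), (1, 0), (1, 0), (0, 0), (0, 0), (0, 0), (0, 0), (1, 0), (0, 0), (0, 0), (0, 0), (0, 0), (0, 0), (1,
    0), (0, 0), (0, 0), (0, 0), (0, 0), (0, 0), (0, 0), (0, 0), (1, 1), (1, 1), (0, 0), (0, 0), (0, 0), (0, 0), (0,
    0), (-1, 0), (0, 0), (0, 0), (0, 0), (0, 0), (0, 0), (0, 1), (1, 0), (0, 0), (0, 0), (0, -1), (0, -1), (0, -1),
    (1, 0)]

/-- glued arcs and equations -/
def tord7k_11 : TorT :=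
  ⟨[(0, 0, false), (1, 5, true), (1, 6, false), (2, 4, true), (2, 5, true), (3, 3, true), (3, 4, true), (6, 6, true)],
    [([0, 0, 0, 1, 0, 1, 0], 2), ([0, 0, 0, 1, 2, 0, 0], 2), ([0, 0, 1, 0, 0, 1, 0], 2), ([0, 2, 0, 0, 0, 0, 1], 2),
    ([2, 0, 1, 0, 0, 0, 1], 2)]⟩

theorem tord7k_11_ok : tord7k_11.OK 7 := TT.leaf_ok (T := ttd7k_11) (by decide +kernel)

/-- the torus -/
def ttd7k_12 : TT where
  k := 4
  rf := [false, true, true, false]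
  tau := [10, 18, 13, 7, 14, 15, 9, 3, 25, 6, 0, 21, 22, 2, 4, 5, 26, 27, 1, 23, 24, 11, 12, 19, 20, 8, 16, 17]
  par := [0, 0, 1, 8]
  stars := [[0, 10], [1, 11, 21, 18], [2, 19, 23, 13], [3, 7], [4, 8, 25, 14], [5, 15], [6, 16, 26, 9], [12, 22],
    [17, 27], [20, 24]]
  word := [[], [], [2, 1], [2, 1], [2, 1, 3], [2, 1, 3], [2, 1, 3, 0], [0, 3], [], [1, 2, 0, 3], [], [0], [0], [0,
    3], [2, 0, 3], [2, 0, 3], [0], [0], [], [2], [2], [1], [1], [3], [3], [], [1], [1]]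
  rank := [0, 0, 1, 2, 3, 4, 5, 2, 0, 5, 0, 1, 0, 1, 3, 4, 3, 2, 0, 0, 1, 1, 0, 0, 1, 0, 3, 2]
  just := [0, 0, 2, 3, 4, 5, 6, 3, 0, 6, 0, 7, 0, 2, 4, 5, 8, 1, 0, 0, 9, 7, 0, 0, 9, 0, 8, 1]
  gA := 12
  gB := 19
  fin := 0
  sid := [0, 1, 2, 3, 4, 5, 6, 3, 4, 6, 0, 1, 7, 2, 4, 5, 6, 8, 1, 2, 9, 1, 7, 2, 9, 4, 6, 8]
  off := [(0, 0), (0, 0), (0, 0), (0, 0), (0, 0), (0, 0), (0, 0), (1, -1), (1, -1), (0, 0), (0, 0), (0, 0), (0, 0),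
    (1, -1), (1, 0), (1, 0), (1, 0), (0, 0), (0, 0), (0, 0), (0, 0), (-1, 0), (-1, 0), (0, -1), (0, -1), (1, -1), (0,
    0), (-1, 0)]

/-- glued arcs and equations -/
def tord7k_12 : TorT :=
  ⟨[(0, 3, false), (0, 4, false), (1, 4, false), (1, 5, false), (2, 5, false), (2, 6, false), (3, 6, false)],
    [([0, 0, 0, 1, 0, 0, 1], 2), ([0, 0, 2, 0, 0, 1, 1], 2), ([0, 1, 0, 0, 0, 1, 0], 2), ([1, 0, 0, 1, 0, 0, 0], 2),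
    ([1, 1, 0, 0, 2, 0, 0], 2)]⟩

theorem tord7k_12_ok : tord7k_12.OK 7 := TT.leaf_ok (T := ttd7k_12) (by decide +kernel)

/-- the torus -/
def ttd7k_13 : TT where
  k := 8
  rf := [false, false, false, false, true, true, true, true]
  tau := [9, 15, 22, 21, 27, 19, 32, 17, 16, 0, 33, 41, 31, 18, 23, 1, 8, 7, 13, 5, 46, 3, 2, 14, 47, 55, 45, 4, 52,
    51, 35, 12, 6, 10, 53, 30, 50, 43, 42, 48, 54, 11, 38, 37, 49, 26, 20, 24, 39, 44, 36, 29, 28, 34, 40, 25]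
  par := [0, 0, 1, 2, 6, 11, 20, 25]
  stars := [[0, 33, 10], [1, 9, 16], [2, 15, 23], [3, 22], [4, 21], [5, 27, 46, 20], [6, 19, 13, 32], [7, 18], [8,
    17], [11, 34, 54, 41], [12, 35, 31], [14, 47, 24], [25, 48, 40, 55], [26, 49, 45], [28, 53], [29, 52], [30, 36,
    51], [37, 44, 50], [38, 43], [39, 42]]
  word := [[], [], [], [], [], [0], [], [], [], [], [2, 0, 3, 1], [], [1], [], [], [], [], [], [], [1], [], [], [],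
    [], [], [], [0], [], [0, 2, 1], [0, 2, 1], [0], [0], [], [0, 2, 1, 3], [0, 2, 1], [1], [2, 1], [2], [2], [2],
    [2], [], [3], [3], [1], [1], [], [], [3], [0], [0, 3], [0, 3, 1], [0, 3, 1], [0, 3, 1], [3], []]
  rank := [0, 0, 0, 1, 2, 3, 0, 2, 1, 0, 9, 0, 4, 3, 1, 0, 1, 2, 3, 3, 0, 1, 0, 1, 2, 0, 0, 2, 7, 6, 5, 4, 0, 9, 8,
    5, 2, 0, 1, 2, 3, 0, 1, 0, 1, 0, 0, 2, 2, 1, 2, 6, 7, 8, 3, 0]
  just := [0, 0, 0, 3, 4, 5, 0, 8, 1, 0, 9, 0, 6, 7, 2, 0, 1, 8, 7, 5, 0, 3, 0, 2, 11, 0, 0, 4, 15, 16, 10, 6, 0, 9,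
    14, 10, 17, 0, 18, 19, 12, 0, 18, 0, 13, 0, 0, 11, 19, 13, 17, 16, 15, 14, 12, 0]
  gA := 26
  gB := 37
  fin := 0
  sid := [0, 1, 2, 3, 4, 5, 6, 7, 8, 1, 0, 9, 10, 6, 11, 2, 1, 8, 7, 6, 5, 4, 3, 2, 11, 12, 13, 5, 14, 15, 16, 10, 6,
    0, 9, 10, 16, 17, 18, 19, 12, 9, 19, 18, 17, 13, 5, 11, 12, 13, 17, 16, 15, 14, 9, 12]
  off := [(0, 0), (0, 0), (0, 0), (0, 0), (0, 0), (0, 0), (0, 0), (0, 0), (0, 0), (0, 0), (0, 0), (0, 0), (0, 0),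
    (-1, 0), (0, 0), (0, 0), (0, 0), (0, 0), (0, 0), (-1, 0), (-1, 0), (0, 0), (0, 0), (0, 0), (0, 0), (0, 0), (0,
    0), (0, 0), (0, 0), (0, 0), (0, 0), (1, 0), (0, 0), (0, 0), (0, 0), (0, 0), (-1, 0), (0, 0), (0, 0), (0, 0), (0,
    1), (0, 0), (0, -1), (0, -1), (0, -1), (-1, 0), (-1, 0), (0, 0), (0, 0), (0, 0), (1, -1), (0, -1), (0, -1), (0,
    -1), (0, -1), (0, 0)]

/-- glued arcs and equations -/
def tord7k_13 : TorT :=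
  ⟨[(0, 2, true), (0, 3, true), (1, 1, true), (1, 2, true), (3, 5, false), (4, 6, false), (4, 6, true), (5, 5, true)],
    [([0, 0, 0, 0, 1, 1, 2], 2), ([0, 1, 0, 1, 0, 0, 0], 2), ([0, 1, 2, 0, 0, 0, 0], 2), ([1, 0, 0, 0, 1, 0, 0], 2),
    ([1, 0, 0, 1, 0, 1, 0], 2)]⟩

theorem tord7k_13_ok : tord7k_13.OK 7 := TT.leaf_ok (T := ttd7k_13) (by decide +kernel)

/-- the torus -/
def ttd7k_14 : TT where
  k := 4
  rf := [false, false, true, true]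
  tau := [13, 12, 11, 20, 8, 24, 17, 23, 4, 21, 19, 2, 1, 0, 27, 26, 25, 6, 22, 10, 3, 9, 18, 7, 5, 16, 15, 14]
  par := [0, 0, 3, 5]
  stars := [[0, 18, 23, 7], [1, 13], [2, 12], [3, 11, 20], [4, 14, 21, 9], [5, 8, 24], [6, 25, 17], [10, 22, 19],
    [15, 27], [16, 26]]
  word := [[], [], [], [], [2, 1], [], [3], [0, 3], [0, 3], [0], [], [], [], [], [2], [2], [2], [2], [0], [], [],
    [1], [1], [2, 1], [], [3], [3], [3]]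
  rank := [0, 1, 2, 0, 1, 0, 3, 2, 1, 0, 3, 2, 1, 0, 0, 1, 2, 3, 4, 3, 0, 0, 4, 2, 0, 2, 1, 0]
  just := [0, 1, 2, 0, 4, 0, 6, 5, 4, 0, 3, 2, 1, 0, 0, 8, 9, 6, 7, 3, 0, 0, 7, 5, 0, 9, 8, 0]
  gA := 9
  gB := 14
  fin := 0
  sid := [0, 1, 2, 3, 4, 5, 6, 0, 5, 4, 7, 3, 2, 1, 4, 8, 9, 6, 0, 7, 3, 4, 7, 0, 5, 6, 9, 8]
  off := [(0, 0), (0, 0), (0, 0), (0, 0), (0, 0), (0, 0), (0, 0), (0, 0), (1, -1), (1, -1), (0, 0), (0, 0), (0, 0),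
    (0, 0), (0, 0), (0, 0), (0, 0), (0, 1), (0, 1), (0, 0), (0, 0), (0, -1), (-1, 0), (-1, 1), (0, 0), (0, 0), (0,
    -1), (0, -1)]

/-- glued arcs and equations -/
def tord7k_14 : TorT :=
  ⟨[(0, 2, false), (0, 6, true), (1, 4, true), (1, 5, true), (2, 4, true), (3, 5, false), (3, 6, false)],
    [([0, 0, 0, 1, 1, 0, 1], 2), ([0, 0, 1, 0, 0, 1, 0], 2), ([0, 1, 0, 0, 0, 0, 1], 2), ([0, 1, 0, 1, 0, 1, 0], 2),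
    ([2, 0, 1, 0, 1, 0, 0], 2)]⟩

theorem tord7k_14_ok : tord7k_14.OK 7 := TT.leaf_ok (T := ttd7k_14) (by decide +kernel)

/-- the torus -/
def ttd7k_15 : TT where
  k := 8
  rf := [false, false, false, true, false, true, true, true]
  tau := [3, 8, 9, 0, 20, 24, 14, 10, 1, 2, 7, 34, 38, 28, 6, 25, 26, 47, 22, 23, 4, 48, 18, 19, 5, 15, 16, 46, 13,
    39, 40, 54, 36, 37, 11, 55, 32, 33, 12, 29, 30, 53, 45, 50, 51, 42, 27, 17, 21, 52, 43, 44, 49, 41, 31, 35]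
  par := [0, 1, 4, 5, 11, 12, 17, 31]
  stars := [[0, 14, 4], [1, 3, 9], [2, 8, 10], [5, 20, 24], [6, 25, 15], [7, 28, 11], [12, 34, 38], [13, 39, 29],
    [16, 26], [17, 27, 47], [18, 48, 22], [19, 23], [21, 42, 46], [30, 40], [31, 41, 54], [32, 55, 36], [33, 37],
    [35, 49, 53], [43, 51, 45], [44, 52, 50]]
  word := [[3], [], [2], [2], [], [], [0, 3, 1], [2], [], [3], [3], [], [], [2], [0, 2, 1], [0, 2, 1], [0, 2, 1], [],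
    [], [], [], [], [], [], [], [0, 3, 1], [0, 3, 1], [0, 3, 1], [3], [3], [3], [], [], [], [], [], [], [], [], [2],
    [2], [2], [0, 3, 1], [0, 3], [0], [0, 2, 1], [0, 2, 1], [], [], [2], [2, 1], [1], [3], [3], [], []]
  rank := [10, 0, 9, 10, 0, 0, 7, 8, 0, 9, 8, 0, 0, 7, 7, 6, 5, 0, 2, 1, 0, 3, 2, 1, 0, 6, 5, 4, 7, 6, 5, 0, 2, 1, 0,
    3, 2, 1, 0, 6, 5, 4, 2, 1, 0, 2, 4, 0, 3, 0, 1, 0, 0, 4, 0, 3]
  just := [1, 0, 2, 1, 0, 0, 4, 5, 0, 2, 5, 0, 0, 7, 4, 8, 9, 0, 11, 3, 0, 10, 11, 3, 0, 8, 9, 12, 7, 13, 14, 0, 16,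
    6, 0, 15, 16, 6, 0, 13, 14, 17, 18, 19, 0, 18, 12, 0, 10, 0, 19, 0, 0, 17, 0, 15]
  gA := 44
  gB := 49
  fin := 0
  sid := [0, 1, 2, 1, 0, 3, 4, 5, 2, 1, 2, 5, 6, 7, 0, 4, 8, 9, 10, 11, 3, 12, 10, 11, 3, 4, 8, 9, 5, 7, 13, 14, 15,
    16, 6, 17, 15, 16, 6, 7, 13, 14, 12, 18, 19, 18, 12, 9, 10, 17, 19, 18, 19, 17, 14, 15]
  off := [(0, 0), (0, 0), (0, 0), (0, 1), (0, 1), (0, 0), (0, 0), (0, 0), (0, 0), (0, 0), (0, -1), (0, -1), (0, 0),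
    (0, 0), (0, 1), (0, 1), (0, 0), (0, 0), (0, 0), (0, 0), (0, 0), (0, 0), (0, 0), (0, 0), (0, 0), (0, 0), (0, -1),
    (0, -1), (0, -1), (0, -1), (0, 0), (0, 0), (0, 0), (0, 0), (0, 0), (0, 0), (0, 0), (0, 0), (0, 0), (0, 0), (0,
    1), (0, 1), (0, 0), (0, 0), (0, 0), (0, 1), (0, 1), (0, 0), (0, 0), (0, 0), (-1, 1), (-1, 1), (-1, 0), (0, -1),
    (0, 0), (0, 0)]

/-- glued arcs and equations -/
def tord7k_15 : TorT :=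
  ⟨[(0, 3, true), (0, 6, true), (1, 1, true), (1, 4, false), (2, 2, true), (2, 5, false), (3, 5, false), (4, 6,
    true)],
    [([0, 0, 0, 1, 0, 1, 1], 2), ([0, 0, 1, 0, 0, 1, 0], 2), ([0, 1, 0, 0, 1, 0, 1], 2), ([0, 1, 1, 1, 0, 0, 0], 2),
    ([2, 0, 0, 0, 1, 0, 0], 2)]⟩

theorem tord7k_15_ok : tord7k_15.OK 7 := TT.leaf_ok (T := ttd7k_15) (by decide +kernel)

/-- the torus -/
def ttd7k_16 : TT where
  k := 8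
  rf := [false, true, true, true, false, false, false, true]
  tau := [9, 17, 18, 15, 16, 7, 8, 5, 6, 0, 24, 27, 26, 25, 30, 3, 4, 1, 2, 28, 29, 40, 41, 35, 10, 13, 12, 11, 19,
    20, 14, 45, 48, 47, 46, 23, 52, 53, 50, 51, 21, 22, 54, 55, 49, 31, 34, 33, 32, 44, 38, 39, 36, 37, 42, 43]
  par := [0, 0, 1, 10, 14, 21, 31, 36]
  stars := [[0, 9], [1, 10, 25, 7, 5, 17], [2, 18], [3, 19, 28, 46, 31, 15], [4, 16], [6, 8], [11, 21, 40, 52, 36,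
    24], [12, 27], [13, 26], [14, 30], [20, 29], [22, 41], [23, 35], [32, 45, 50, 38, 54, 42], [33, 48], [34, 47],
    [37, 53], [39, 51], [43, 55], [44, 49]]
  word := [[], [], [], [2, 1, 3], [2, 1, 3], [2, 1, 3, 0], [2, 1, 3, 0], [1, 2, 0, 3], [1, 2, 0, 3], [], [], [1],
    [1], [1], [], [2, 0, 3], [2, 0, 3], [], [], [], [], [], [], [], [], [0], [0], [0], [], [], [], [], [2, 1, 3], [2,
    1, 3], [2, 1, 3], [], [], [], [0], [0], [], [], [2], [2], [2], [], [2, 0, 3], [2, 0, 3], [2, 0, 3], [3], [1],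
    [1], [], [], [3], [3]]
  rank := [0, 0, 1, 5, 6, 7, 8, 7, 8, 0, 0, 3, 4, 5, 0, 5, 6, 0, 1, 2, 1, 0, 1, 2, 0, 5, 4, 3, 2, 1, 0, 0, 2, 3, 4,
    2, 0, 1, 0, 1, 0, 1, 1, 0, 1, 0, 4, 3, 2, 1, 0, 1, 0, 1, 1, 0]
  just := [0, 0, 2, 3, 4, 1, 5, 1, 5, 0, 0, 6, 7, 8, 0, 3, 4, 0, 2, 10, 9, 0, 11, 12, 0, 8, 7, 6, 10, 9, 0, 0, 13,
    14, 15, 12, 0, 16, 0, 17, 0, 11, 18, 0, 19, 0, 15, 14, 13, 19, 0, 17, 0, 16, 18, 0]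
  gA := 38
  gB := 43
  fin := 0
  sid := [0, 1, 2, 3, 4, 1, 5, 1, 5, 0, 1, 6, 7, 8, 9, 3, 4, 1, 2, 3, 10, 6, 11, 12, 6, 1, 8, 7, 3, 10, 9, 3, 13, 14,
    15, 12, 6, 16, 13, 17, 6, 11, 13, 18, 19, 13, 3, 15, 14, 19, 13, 17, 6, 16, 13, 18]
  off := [(0, 0), (0, 0), (0, 0), (0, 0), (0, 0), (-1, 0), (0, 0), (-1, 0), (0, 0), (0, 0), (0, 0), (0, 0), (0, 0),
    (0, 0), (0, 0), (1, 0), (1, 0), (0, 0), (0, 0), (0, 0), (0, 0), (1, 0), (0, 0), (0, 0), (0, 0), (0, 0), (1, 0),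
    (1, 0), (0, 0), (0, 0), (0, 0), (1, 0), (0, 0), (0, 0), (0, 0), (0, 0), (0, 0), (0, 0), (1, -1), (0, 0), (1, 0),
    (0, 0), (1, 0), (0, 0), (0, 0), (0, 0), (1, 0), (1, 0), (1, 0), (0, -1), (0, -1), (-1, 0), (0, 0), (0, 0), (1,
    -1), (0, -1)]

/-- glued arcs and equations -/
def tord7k_16 : TorT :=
  ⟨[(0, 2, false), (0, 5, false), (1, 3, false), (1, 6, false), (2, 4, false), (3, 3, true), (4, 6, true), (5, 5,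
    true)],
    [([0, 0, 0, 0, 0, 1, 1], 2), ([0, 0, 1, 0, 1, 0, 0], 2), ([0, 1, 0, 0, 0, 0, 1], 2), ([1, 0, 1, 0, 0, 0, 0], 2),
    ([1, 1, 0, 2, 1, 1, 0], 2)]⟩

theorem tord7k_16_ok : tord7k_16.OK 7 := TT.leaf_ok (T := ttd7k_16) (by decide +kernel)

/-- the torus -/
def ttd7k_17 : TT where
  k := 4
  rf := [false, false, true, true]
  tau := [7, 15, 18, 19, 20, 14, 13, 0, 22, 25, 26, 27, 21, 6, 5, 1, 23, 24, 2, 3, 4, 12, 8, 16, 17, 9, 10, 11]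
  par := [0, 0, 1, 8]
  stars := [[0, 13, 22, 8], [1, 7, 6, 15], [2, 16, 24, 18], [3, 19], [4, 20], [5, 14], [9, 23, 17, 25], [10, 26],
    [11, 27], [12, 21]]
  word := [[], [], [0, 3], [0, 3], [0, 3], [0, 3], [0, 3], [], [], [1, 2], [1, 2], [1, 2], [1, 2], [2, 1], [2, 1],
    [], [0], [2], [2, 1], [2, 1], [2, 1], [3, 0], [], [1], [3], [3, 0], [3, 0], [3, 0]]
  rank := [0, 0, 1, 2, 3, 4, 5, 0, 0, 1, 2, 3, 4, 5, 4, 0, 0, 0, 1, 2, 3, 4, 0, 0, 0, 1, 2, 3]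
  just := [0, 0, 2, 3, 4, 5, 1, 0, 0, 6, 7, 8, 9, 1, 5, 0, 0, 0, 2, 3, 4, 9, 0, 0, 0, 6, 7, 8]
  gA := 16
  gB := 17
  fin := 0
  sid := [0, 1, 2, 3, 4, 5, 1, 1, 0, 6, 7, 8, 9, 0, 5, 1, 2, 6, 2, 3, 4, 9, 0, 6, 2, 6, 7, 8]
  off := [(0, 0), (0, 0), (0, 0), (0, 0), (0, 0), (0, 0), (1, -1), (0, 0), (0, 0), (0, 0), (0, 0), (0, 0), (0, 0),
    (-1, 1), (-1, 1), (0, 0), (0, 0), (1, 0), (-1, 1), (-1, 1), (-1, 1), (1, -1), (0, 0), (0, 0), (-1, 0), (1, -1),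
    (1, -1), (1, -1)]

/-- glued arcs and equations -/
def tord7k_17 : TorT :=
  ⟨[(0, 0, true), (0, 5, false), (1, 1, false), (2, 2, true), (2, 4, false), (3, 3, true), (3, 5, false), (4, 6,
    false), (6, 6, true)],
    [([0, 0, 0, 0, 1, 0, 1], 2), ([0, 0, 0, 1, 0, 1, 0], 2), ([0, 0, 2, 1, 1, 0, 0], 2), ([1, 0, 0, 0, 0, 1, 0], 2),
    ([1, 2, 0, 0, 0, 0, 1], 2)]⟩

theorem tord7k_17_ok : tord7k_17.OK 7 := TT.leaf_ok (T := ttd7k_17) (by decide +kernel)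

/-- the torus -/
def ttd7k_18 : TT where
  k := 8
  rf := [false, false, false, true, false, true, true, true]
  tau := [7, 16, 25, 26, 27, 21, 13, 0, 30, 39, 40, 41, 35, 6, 47, 24, 1, 22, 44, 45, 46, 5, 17, 43, 15, 2, 3, 4, 54,
    38, 8, 36, 51, 52, 53, 12, 31, 50, 29, 9, 10, 11, 49, 23, 18, 19, 20, 14, 55, 42, 37, 32, 33, 34, 28, 48]
  par := [0, 0, 1, 2, 8, 9, 14, 28]
  stars := [[0, 13, 36, 31, 8], [1, 7, 6, 22, 17], [2, 16, 25], [3, 26], [4, 27], [5, 21], [9, 30, 39], [10, 40],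
    [11, 41], [12, 35], [14, 47], [15, 48, 49, 43, 24], [18, 23, 44], [19, 45], [20, 46], [28, 54], [29, 55, 42, 50,
    38], [32, 37, 51], [33, 52], [34, 53]]
  word := [[], [], [], [], [], [], [2, 1], [], [], [], [], [], [], [0, 3], [], [], [], [0, 3], [], [], [], [], [2,
    1], [2, 1], [], [], [], [], [], [], [], [1, 2], [], [], [], [], [3, 0], [3, 0], [], [], [], [], [0], [0, 3], [],
    [], [], [], [2], [1], [1, 2], [], [], [], [], [3]]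
  rank := [0, 0, 0, 1, 2, 3, 5, 0, 0, 0, 1, 2, 3, 5, 0, 1, 0, 4, 3, 2, 1, 3, 4, 2, 1, 0, 1, 2, 0, 1, 0, 4, 3, 2, 1,
    3, 4, 2, 1, 0, 1, 2, 0, 2, 3, 2, 1, 0, 0, 0, 2, 3, 2, 1, 0, 0]
  just := [0, 0, 0, 3, 4, 5, 1, 0, 0, 0, 7, 8, 9, 1, 0, 2, 0, 12, 13, 14, 10, 5, 12, 11, 2, 0, 3, 4, 0, 6, 0, 17, 18,
    19, 15, 9, 17, 16, 6, 0, 7, 8, 0, 11, 13, 14, 10, 0, 0, 0, 16, 18, 19, 15, 0, 0]
  gA := 42
  gB := 48
  fin := 0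
  sid := [0, 1, 2, 3, 4, 5, 1, 1, 0, 6, 7, 8, 9, 0, 10, 11, 2, 1, 12, 13, 14, 5, 1, 12, 11, 2, 3, 4, 15, 16, 6, 0,
    17, 18, 19, 9, 0, 17, 16, 6, 7, 8, 16, 11, 12, 13, 14, 10, 11, 11, 16, 17, 18, 19, 15, 16]
  off := [(0, 0), (0, 0), (0, 0), (0, 0), (0, 0), (0, 0), (-1, 1), (0, 0), (0, 0), (0, 0), (0, 0), (0, 0), (0, 0),
    (1, -1), (0, 0), (0, 0), (0, 0), (0, 0), (0, 0), (0, 0), (0, 0), (0, 0), (-1, 1), (-1, 1), (0, 0), (0, 0), (0,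
    0), (0, 0), (0, 0), (0, 0), (0, 0), (0, 0), (0, 0), (0, 0), (0, 0), (0, 0), (1, -1), (1, -1), (0, 0), (0, 0), (0,
    0), (0, 0), (0, 1), (1, -1), (0, 0), (0, 0), (0, 0), (0, 0), (0, 0), (0, -1), (-1, 1), (0, 0), (0, 0), (0, 0),
    (0, 0), (0, 0)]

/-- glued arcs and equations -/
def tord7k_18 : TorT :=
  ⟨[(0, 0, true), (0, 5, false), (1, 2, true), (1, 3, false), (2, 4, false), (3, 5, false), (4, 6, false), (6, 6,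
    true)],
    [([0, 0, 0, 0, 1, 0, 1], 2), ([0, 0, 0, 1, 0, 1, 0], 2), ([0, 0, 2, 0, 1, 0, 0], 2), ([1, 0, 0, 0, 0, 1, 0], 2),
    ([1, 2, 0, 1, 0, 0, 1], 2)]⟩

theorem tord7k_18_ok : tord7k_18.OK 7 := TT.leaf_ok (T := ttd7k_18) (by decide +kernel)

/-- the torus -/
def ttd7k_19 : TT where
  k := 8
  rf := [false, false, true, false, true, false, true, true]
  tau := [7, 15, 24, 19, 20, 14, 13, 0, 29, 38, 33, 34, 28, 6, 5, 1, 25, 44, 23, 3, 4, 47, 43, 18, 2, 16, 45, 46, 12,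
    8, 39, 51, 37, 10, 11, 54, 50, 32, 9, 30, 52, 53, 49, 22, 17, 26, 27, 21, 55, 42, 36, 31, 40, 41, 35, 48]
  par := [0, 0, 1, 2, 8, 9, 17, 31]
  stars := [[0, 13, 29, 8], [1, 7, 6, 15], [2, 16, 25], [3, 24, 19], [4, 20], [5, 14], [9, 30, 39], [10, 38, 33],
    [11, 34], [12, 28], [17, 45, 26], [18, 23, 44], [21, 47], [22, 48, 49, 43], [27, 46], [31, 52, 40], [32, 37, 51],
    [35, 54], [36, 55, 42, 50], [41, 53]]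
  word := [[], [], [], [2, 1], [2, 1], [2, 1], [2, 1], [], [], [], [3, 0], [3, 0], [3, 0], [0, 3], [0, 3], [], [],
    [], [0, 3], [0, 3], [0, 3], [], [2, 1], [2, 1], [], [], [], [], [1, 2], [], [], [], [1, 2], [1, 2], [1, 2], [],
    [3, 0], [3, 0], [], [], [], [], [0], [0, 3], [], [], [], [], [2], [1], [1, 2], [], [], [], [], [3]]
  rank := [0, 0, 0, 7, 8, 9, 10, 0, 0, 0, 7, 8, 9, 10, 9, 0, 1, 0, 6, 7, 8, 4, 5, 6, 0, 1, 2, 3, 9, 0, 1, 0, 6, 7, 8,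
    4, 5, 6, 0, 1, 2, 3, 0, 5, 0, 2, 3, 4, 0, 0, 5, 0, 2, 3, 4, 0]
  just := [0, 0, 0, 3, 4, 5, 1, 0, 0, 0, 7, 8, 9, 1, 5, 0, 2, 0, 11, 3, 4, 12, 13, 11, 0, 2, 10, 14, 9, 0, 6, 0, 16,
    7, 8, 17, 18, 16, 0, 6, 15, 19, 0, 13, 0, 10, 14, 12, 0, 0, 18, 0, 15, 19, 17, 0]
  gA := 42
  gB := 48
  fin := 0
  sid := [0, 1, 2, 3, 4, 5, 1, 1, 0, 6, 7, 8, 9, 0, 5, 1, 2, 10, 11, 3, 4, 12, 13, 11, 3, 2, 10, 14, 9, 0, 6, 15, 16,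
    7, 8, 17, 18, 16, 7, 6, 15, 19, 18, 13, 11, 10, 14, 12, 13, 13, 18, 16, 15, 19, 17, 18]
  off := [(0, 0), (0, 0), (0, 0), (0, 0), (0, 0), (0, 0), (-1, 1), (0, 0), (0, 0), (0, 0), (0, 0), (0, 0), (0, 0),
    (1, -1), (1, -1), (0, 0), (0, 0), (0, 0), (0, 0), (1, -1), (1, -1), (0, 0), (0, 0), (-1, 1), (0, 0), (0, 0), (0,
    0), (0, 0), (-1, 1), (0, 0), (0, 0), (0, 0), (0, 0), (-1, 1), (-1, 1), (0, 0), (0, 0), (1, -1), (0, 0), (0, 0),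
    (0, 0), (0, 0), (0, 1), (1, -1), (0, 0), (0, 0), (0, 0), (0, 0), (0, 0), (0, -1), (-1, 1), (0, 0), (0, 0), (0,
    0), (0, 0), (0, 0)]

/-- glued arcs and equations -/
def tord7k_19 : TorT :=
  ⟨[(0, 0, true), (0, 5, false), (1, 1, false), (2, 3, true), (2, 4, false), (3, 5, false), (4, 6, false), (6, 6,
    true)],
    [([0, 0, 0, 0, 1, 0, 1], 2), ([0, 0, 0, 2, 0, 1, 0], 2), ([0, 0, 2, 0, 1, 0, 0], 2), ([1, 0, 0, 0, 0, 1, 0], 2),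
    ([1, 2, 0, 0, 0, 0, 1], 2)]⟩

theorem tord7k_19_ok : tord7k_19.OK 7 := TT.leaf_ok (T := ttd7k_19) (by decide +kernel)

/-- the torus -/
def ttd7k_20 : TT where
  k := 4
  rf := [false, true, false, true]
  tau := [9, 16, 7, 18, 27, 21, 22, 2, 23, 0, 25, 20, 14, 15, 12, 13, 1, 26, 3, 24, 11, 5, 6, 8, 19, 10, 17, 4]
  par := [0, 0, 1, 4]
  stars := [[0, 23, 9], [1, 10, 26, 17], [2, 16, 7], [3, 8, 24, 19], [4, 18, 27], [5, 21], [6, 22], [11, 20, 25],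
    [12, 14], [13, 15]]
  word := [[], [], [3], [1], [], [], [], [2], [2, 1, 3, 0], [], [0], [2], [2], [2], [3], [3], [], [0], [0], [3, 0],
    [3], [], [], [1, 2, 0, 3], [1, 2], [1], [1], []]
  rank := [0, 0, 2, 2, 0, 1, 2, 2, 3, 0, 0, 1, 0, 1, 0, 1, 0, 1, 2, 2, 1, 1, 2, 3, 2, 0, 1, 0]
  just := [0, 0, 2, 4, 0, 5, 6, 2, 3, 0, 0, 8, 0, 9, 0, 9, 0, 1, 4, 7, 8, 5, 6, 3, 7, 0, 1, 0]
  gA := 10
  gB := 12
  fin := 0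
  sid := [0, 1, 2, 3, 4, 5, 6, 2, 3, 0, 1, 7, 8, 9, 8, 9, 2, 1, 4, 3, 7, 5, 6, 0, 3, 7, 1, 4]
  off := [(0, 0), (0, 0), (0, 0), (0, 0), (0, 0), (0, 0), (0, 0), (0, 1), (0, 1), (0, 0), (0, 0), (0, 0), (0, 0), (0,
    0), (0, -1), (0, -1), (0, 0), (0, 0), (1, 0), (1, 0), (0, -1), (0, 0), (0, 0), (0, 0), (0, 1), (-1, 0), (-1, 0),
    (0, 0)]

/-- glued arcs and equations -/
def tord7k_20 : TorT :=
  ⟨[(0, 2, false), (0, 5, false), (1, 2, true), (1, 6, false), (3, 4, true), (3, 5, false), (4, 6, false)],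
    [([0, 0, 0, 0, 2, 0, 1], 2), ([0, 1, 0, 0, 0, 0, 1], 2), ([0, 1, 0, 2, 0, 1, 0], 2), ([1, 0, 0, 0, 0, 1, 0], 2),
    ([1, 0, 2, 0, 0, 0, 0], 2)]⟩

theorem tord7k_20_ok : tord7k_20.OK 7 := TT.leaf_ok (T := ttd7k_20) (by decide +kernel)

/-- the torus -/
def ttd7k_21 : TT where
  k := 8
  rf := [false, true, false, true, false, false, true, true]
  tau := [8, 15, 23, 32, 27, 19, 7, 6, 0, 16, 40, 45, 38, 18, 22, 1, 9, 39, 13, 5, 21, 20, 14, 2, 33, 52, 31, 4, 48,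
    42, 51, 26, 3, 24, 53, 55, 49, 44, 12, 17, 10, 46, 29, 50, 37, 11, 41, 54, 28, 36, 43, 30, 25, 34, 47, 35]
  par := [0, 0, 1, 2, 3, 10, 11, 25]
  stars := [[0, 8], [1, 9, 16], [2, 15, 23], [3, 24, 33], [4, 32, 27], [5, 21, 20], [6, 19, 7], [10, 40, 17], [11,
    46, 41], [12, 38, 45], [13, 18, 39], [14, 22], [25, 53, 34], [26, 31, 52], [28, 54, 48], [29, 42], [30, 43, 51],
    [35, 47, 55], [36, 49], [37, 50, 44]]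
  word := [[], [], [], [], [3, 0], [3, 0], [3, 0, 2, 1], [0, 3, 1, 2], [], [], [], [], [0, 3], [0, 3], [], [], [],
    [], [2, 1], [1, 2], [], [], [], [], [], [], [1, 2], [1, 2], [3], [3], [3, 0], [3, 0], [], [], [], [2], [2], [2,
    1], [2, 1], [], [], [], [2], [0], [0, 3], [], [], [2], [2], [3], [1], [1, 2], [], [], [3], [3]]
  rank := [0, 0, 0, 0, 7, 8, 9, 9, 0, 1, 0, 0, 5, 6, 1, 0, 1, 2, 6, 8, 2, 2, 1, 0, 1, 0, 6, 7, 3, 4, 5, 6, 0, 1, 2,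
    2, 3, 4, 5, 2, 0, 1, 4, 0, 4, 0, 1, 0, 3, 3, 0, 5, 0, 2, 0, 2]
  just := [0, 0, 0, 0, 4, 5, 6, 6, 0, 1, 0, 0, 9, 10, 2, 0, 1, 7, 10, 5, 11, 11, 2, 0, 3, 0, 13, 4, 14, 15, 16, 13,
    0, 3, 12, 17, 18, 19, 9, 7, 0, 8, 15, 0, 19, 0, 8, 0, 14, 18, 0, 16, 0, 12, 0, 17]
  gA := 43
  gB := 47
  fin := 0
  sid := [0, 1, 2, 3, 4, 5, 6, 6, 0, 1, 7, 8, 9, 10, 11, 2, 1, 7, 10, 6, 5, 5, 11, 2, 3, 12, 13, 4, 14, 15, 16, 13,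
    4, 3, 12, 17, 18, 19, 9, 10, 7, 8, 15, 16, 19, 9, 8, 17, 14, 18, 19, 16, 13, 12, 14, 17]
  off := [(0, 0), (0, 0), (0, 0), (0, 0), (0, 0), (0, 0), (0, 0), (0, 0), (0, 0), (0, 0), (0, 0), (0, 0), (0, 0), (0,
    0), (0, 0), (0, 0), (0, 0), (0, 0), (-1, 1), (-1, 1), (-1, 1), (-1, 1), (0, 0), (0, 0), (0, 0), (0, 0), (0, 0),
    (-1, 1), (0, 0), (0, 0), (0, 0), (1, -1), (0, 0), (0, 0), (0, 0), (0, 0), (0, 0), (0, 0), (-1, 1), (-1, 1), (0,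
    0), (0, 0), (0, 1), (0, 1), (1, -1), (0, 0), (0, 0), (0, 0), (0, 1), (0, -1), (0, -1), (-1, 1), (0, 0), (0, 0),
    (0, 0), (0, -1)]

/-- glued arcs and equations -/
def tord7k_21 : TorT :=
  ⟨[(0, 1, false), (0, 6, false), (1, 1, true), (2, 2, false), (3, 4, true), (3, 5, false), (4, 6, false), (5, 5,
    true)],
    [([0, 0, 0, 0, 2, 0, 1], 2), ([0, 0, 0, 2, 0, 1, 0], 2), ([0, 1, 2, 0, 0, 0, 0], 2), ([1, 0, 0, 0, 0, 1, 1], 2),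
    ([1, 1, 0, 0, 0, 0, 0], 2)]⟩

theorem tord7k_21_ok : tord7k_21.OK 7 := TT.leaf_ok (T := ttd7k_21) (by decide +kernel)

end Pool.Agent.Lib_MP_fa6e45
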