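import Pool.Agent.Lib_MP_fa6e45.CT5

/-!
MP_fa6e45_co, stage 9: straight-side patterns with `7` sides, tables of tori (generated by a program).
-/

namespace Pool.Agent.Lib_MP_fa6e45

/-- the torus -/
def ttd7k_22 : TT where
  k := 8
  rf := [false, false, true, false, true, false, true, true]
  tau := [9, 8, 7, 14, 24, 20, 13, 2, 1, 0, 28, 38, 34, 6, 3, 25, 26, 46, 22, 23, 5, 45, 18, 19, 4, 15, 16, 47, 10,
    39, 40, 53, 36, 37, 12, 52, 32, 33, 11, 29, 30, 54, 51, 50, 49, 21, 17, 27, 55, 44, 43, 42, 35, 31, 41, 48]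
  par := [0, 0, 3, 4, 10, 11, 17, 31]
  stars := [[0, 13, 28, 10], [1, 9], [2, 8], [3, 7, 6, 14], [4, 15, 25], [5, 24, 20], [11, 29, 39], [12, 38, 34],
    [16, 26], [17, 47, 27], [18, 22, 46], [19, 23], [21, 48, 49, 45], [30, 40], [31, 54, 41], [32, 36, 53], [33, 37],
    [35, 55, 42, 52], [43, 51], [44, 50]]
  word := [[], [], [], [], [], [2, 1], [2, 1], [], [], [], [], [], [3, 0], [0, 3], [], [], [], [], [0, 3], [0, 3],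
    [0, 3], [2, 1], [2, 1], [2, 1], [], [], [], [], [], [], [], [], [1, 2], [1, 2], [1, 2], [3, 0], [3, 0], [3, 0],
    [], [], [], [], [0], [0], [0], [0, 3], [], [], [2], [1], [1], [1], [1, 2], [], [], [3]]
  rank := [0, 1, 2, 0, 0, 7, 8, 2, 1, 0, 0, 0, 7, 8, 0, 1, 2, 0, 5, 6, 7, 4, 5, 6, 0, 1, 2, 3, 0, 1, 2, 0, 5, 6, 7,
    4, 5, 6, 0, 1, 2, 3, 1, 0, 1, 4, 0, 3, 0, 1, 0, 1, 4, 0, 3, 0]
  just := [0, 1, 2, 0, 0, 5, 3, 2, 1, 0, 0, 0, 7, 3, 0, 4, 8, 0, 10, 11, 5, 12, 10, 11, 0, 4, 8, 9, 0, 6, 13, 0, 15,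
    16, 7, 17, 15, 16, 0, 6, 13, 14, 18, 0, 19, 12, 0, 9, 0, 19, 0, 18, 17, 0, 14, 0]
  gA := 43
  gB := 48
  fin := 0
  sid := [0, 1, 2, 3, 4, 5, 3, 3, 2, 1, 0, 6, 7, 0, 3, 4, 8, 9, 10, 11, 5, 12, 10, 11, 5, 4, 8, 9, 0, 6, 13, 14, 15,
    16, 7, 17, 15, 16, 7, 6, 13, 14, 17, 18, 19, 12, 10, 9, 12, 12, 19, 18, 17, 15, 14, 17]
  off := [(0, 0), (0, 0), (0, 0), (0, 0), (0, 0), (0, 0), (-1, 1), (0, 0), (0, 0), (0, 0), (0, 0), (0, 0), (0, 0),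
    (1, -1), (0, 0), (0, 0), (0, 0), (0, 0), (0, 0), (0, 0), (1, -1), (0, 0), (-1, 1), (-1, 1), (0, 0), (0, 0), (0,
    0), (0, 0), (0, 0), (0, 0), (0, 0), (0, 0), (0, 0), (0, 0), (-1, 1), (0, 0), (1, -1), (1, -1), (0, 0), (0, 0),
    (0, 0), (0, 0), (0, 1), (0, 0), (0, 0), (1, -1), (0, 0), (0, 0), (0, 0), (0, -1), (-1, 0), (-1, 0), (-1, 1), (0,
    0), (0, 0), (0, 0)]

/-- glued arcs and equations -/
def tord7k_22 : TorT :=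
  ⟨[(0, 2, true), (0, 3, false), (1, 1, true), (1, 4, false), (2, 5, false), (3, 4, true), (5, 6, false), (6, 6,
    true)],
    [([0, 0, 0, 1, 0, 1, 1], 2), ([0, 0, 1, 0, 0, 1, 0], 2), ([0, 1, 0, 0, 2, 0, 0], 2), ([0, 1, 1, 0, 0, 0, 0], 2),
    ([2, 0, 0, 1, 0, 0, 1], 2)]⟩

theorem tord7k_22_ok : tord7k_22.OK 7 := TT.leaf_ok (T := ttd7k_22) (by decide +kernel)

/-- the torus -/
def ttd7k_23 : TT where
  k := 8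
  rf := [false, false, false, false, true, true, true, true]
  tau := [13, 15, 26, 25, 18, 10, 29, 30, 41, 28, 5, 17, 16, 0, 27, 1, 12, 11, 4, 24, 43, 44, 55, 42, 19, 3, 2, 14,
    9, 6, 7, 40, 52, 51, 35, 34, 50, 47, 46, 53, 31, 8, 23, 20, 21, 54, 38, 37, 49, 48, 36, 33, 32, 39, 45, 22]
  par := [0, 0, 1, 2, 6, 8, 20, 22]
  stars := [[0, 30, 7], [1, 13, 16], [2, 15, 27], [3, 26], [4, 25, 19], [5, 18, 11], [6, 10, 29], [8, 31, 41], [9,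
    35, 28], [12, 17], [14, 44, 21], [20, 24, 43], [22, 45, 55], [23, 49, 42], [32, 53, 40], [33, 52], [34, 36, 51],
    [37, 48, 50], [38, 47], [39, 54, 46]]
  word := [[], [], [], [], [1], [1], [], [2, 1, 3, 0], [], [0], [0], [], [], [], [], [], [], [], [0], [0], [], [],
    [], [1], [1], [], [], [], [1], [], [1, 2, 0, 3], [1, 2, 0, 3], [1, 2, 0], [1, 2, 0], [1], [0], [2, 0], [2], [2],
    [2], [2, 1, 3, 0], [], [0], [], [], [], [3], [3], [0], [1], [1, 3], [1, 3, 0], [1, 3, 0], [3], [], []]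
  rank := [0, 0, 0, 1, 2, 3, 0, 9, 0, 4, 3, 2, 1, 0, 1, 0, 1, 2, 2, 0, 0, 2, 0, 1, 0, 1, 0, 1, 4, 0, 9, 8, 7, 6, 5,
    5, 3, 0, 1, 4, 8, 0, 1, 0, 2, 3, 1, 0, 2, 2, 3, 6, 7, 4, 3, 0]
  just := [0, 0, 0, 3, 4, 5, 0, 7, 0, 6, 5, 9, 1, 0, 2, 0, 1, 9, 4, 0, 0, 10, 0, 11, 0, 3, 0, 2, 6, 0, 7, 14, 15, 16,
    8, 8, 17, 0, 18, 19, 14, 0, 11, 0, 10, 12, 18, 0, 13, 13, 17, 16, 15, 19, 12, 0]
  gA := 19
  gB := 37
  fin := 0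
  sid := [0, 1, 2, 3, 4, 5, 6, 0, 7, 8, 6, 5, 9, 1, 10, 2, 1, 9, 5, 4, 11, 10, 12, 13, 11, 4, 3, 2, 8, 6, 0, 7, 14,
    15, 16, 8, 16, 17, 18, 19, 14, 7, 13, 11, 10, 12, 19, 18, 17, 13, 17, 16, 15, 14, 19, 12]
  off := [(0, 0), (0, 0), (0, 0), (0, 0), (0, 0), (0, 0), (0, 0), (0, 0), (0, 0), (0, 0), (1, 0), (1, 0), (0, 0), (0,
    0), (0, 0), (0, 0), (0, 0), (0, 0), (1, 0), (1, 0), (0, 0), (0, 0), (0, 0), (0, 0), (-1, 0), (0, 0), (0, 0), (0,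
    0), (-1, 0), (0, 0), (0, 0), (0, 0), (0, 0), (0, 0), (0, 0), (0, 0), (1, 0), (0, 0), (0, 0), (0, 0), (0, 0), (0,
    0), (1, 0), (0, 0), (0, 0), (0, 0), (0, -1), (0, -1), (0, -1), (0, 0), (-1, -1), (0, -1), (0, -1), (0, -1), (0,
    -1), (0, 0)]

/-- glued arcs and equations -/
def tord7k_23 : TorT :=
  ⟨[(0, 2, false), (0, 6, true), (1, 1, true), (1, 6, false), (2, 5, true), (3, 4, true), (3, 5, true), (4, 4, true)],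
    [([0, 0, 0, 0, 2, 1, 0], 2), ([0, 0, 0, 1, 0, 1, 0], 2), ([0, 1, 0, 1, 0, 0, 1], 2), ([0, 1, 1, 0, 0, 0, 1], 2),
    ([2, 0, 1, 0, 0, 0, 0], 2)]⟩

theorem tord7k_23_ok : tord7k_23.OK 7 := TT.leaf_ok (T := ttd7k_23) (by decide +kernel)

/-- the torus -/
def ttd7k_24 : TT where
  k := 8
  rf := [false, false, false, false, true, true, true, true]
  tau := [13, 15, 26, 25, 29, 30, 20, 38, 46, 47, 35, 17, 16, 0, 27, 1, 12, 11, 36, 37, 6, 31, 53, 54, 28, 3, 2, 14,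
    24, 4, 5, 21, 52, 51, 42, 10, 18, 19, 7, 45, 44, 49, 34, 50, 40, 39, 8, 9, 55, 41, 43, 33, 32, 22, 23, 48]
  par := [0, 0, 1, 2, 4, 7, 8, 22]
  stars := [[0, 20, 38, 7], [1, 13, 16], [2, 15, 27], [3, 26], [4, 25, 29], [5, 30], [6, 31, 21, 14], [8, 39, 46],
    [9, 47], [10, 48, 49, 35], [11, 36, 18], [12, 17], [19, 37], [22, 32, 53], [23, 54], [24, 55, 42, 28], [33, 52],
    [34, 43, 51], [40, 45], [41, 50, 44]]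
  word := [[], [], [], [], [], [], [0, 2], [], [], [], [1, 3], [], [], [], [], [], [], [], [1, 3], [1, 3], [3, 1],
    [3, 1], [], [], [], [], [], [], [], [], [], [0, 2], [0, 2], [0, 2], [0], [2, 0], [2, 0], [2, 0], [], [], [], [2],
    [1], [2], [], [], [], [], [1], [3], [3], [3, 1], [3, 1], [], [], [0]]
  rank := [0, 0, 0, 1, 0, 1, 4, 0, 0, 1, 4, 2, 1, 0, 1, 0, 1, 2, 5, 6, 4, 3, 0, 1, 2, 1, 0, 1, 2, 0, 1, 3, 2, 1, 0,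
    4, 5, 6, 0, 1, 2, 3, 0, 0, 2, 1, 0, 1, 3, 3, 0, 1, 2, 0, 1, 3]
  just := [0, 0, 0, 3, 0, 5, 6, 0, 0, 8, 9, 11, 1, 0, 2, 0, 1, 11, 10, 12, 6, 13, 0, 14, 4, 3, 0, 2, 4, 0, 5, 13, 16,
    17, 0, 9, 10, 12, 0, 7, 18, 19, 0, 0, 18, 7, 0, 8, 15, 19, 0, 17, 16, 0, 14, 15]
  gA := 34
  gB := 43
  fin := 0
  sid := [0, 1, 2, 3, 4, 5, 6, 0, 7, 8, 9, 10, 11, 1, 6, 2, 1, 11, 10, 12, 0, 6, 13, 14, 15, 4, 3, 2, 15, 4, 5, 6,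
    13, 16, 17, 9, 10, 12, 0, 7, 18, 19, 15, 17, 19, 18, 7, 8, 9, 9, 19, 17, 16, 13, 14, 15]
  off := [(0, 0), (0, 0), (0, 0), (0, 0), (0, 0), (0, 0), (0, 0), (0, 0), (0, 0), (0, 0), (0, 0), (0, 0), (0, 0), (0,
    0), (-1, -1), (0, 0), (0, 0), (0, 0), (0, 0), (0, 0), (-1, -1), (-1, -1), (0, 0), (0, 0), (0, 0), (0, 0), (0, 0),
    (0, 0), (0, 0), (0, 0), (0, 0), (0, 0), (1, 1), (0, 0), (0, 0), (1, 1), (1, 1), (1, 1), (0, 0), (0, 0), (0, 0),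
    (0, 0), (-1, 0), (-1, 0), (0, 0), (0, 0), (0, 0), (0, 0), (0, 0), (1, 0), (0, -1), (-1, -1), (-1, -1), (0, 0),
    (0, 0), (0, 0)]

/-- glued arcs and equations -/
def tord7k_24 : TorT :=
  ⟨[(0, 3, false), (0, 6, true), (1, 1, true), (1, 4, false), (2, 5, false), (2, 5, true), (3, 4, true), (6, 6,
    true)],
    [([0, 0, 0, 1, 0, 1, 0], 2), ([0, 0, 1, 0, 0, 1, 0], 2), ([0, 1, 0, 0, 2, 0, 0], 2), ([0, 1, 1, 0, 0, 0, 1], 2),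
    ([2, 0, 0, 1, 0, 0, 1], 2)]⟩

theorem tord7k_24_ok : tord7k_24.OK 7 := TT.leaf_ok (T := ttd7k_24) (by decide +kernel)

/-- the torus -/
def ttd7k_25 : TT where
  k := 8
  rf := [false, false, true, false, false, true, true, true]
  tau := [7, 19, 26, 25, 28, 15, 41, 0, 47, 33, 32, 21, 43, 55, 42, 5, 40, 39, 49, 1, 27, 11, 31, 30, 29, 3, 2, 20,
    4, 24, 23, 22, 10, 9, 48, 46, 52, 51, 50, 17, 16, 6, 14, 12, 54, 53, 35, 8, 34, 18, 38, 37, 36, 45, 44, 13]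
  par := [0, 0, 1, 2, 4, 6, 8, 13]
  stars := [[0, 35, 47, 8], [1, 7, 49, 19], [2, 20, 27], [3, 26], [4, 25, 29], [5, 28, 42, 15], [6, 16, 41], [9, 48,
    34], [10, 33], [11, 32, 22], [12, 21, 14, 43], [13, 44, 55], [17, 40], [18, 50, 39], [23, 31], [24, 30], [36, 53,
    46], [37, 52], [38, 51], [45, 54]]
  word := [[], [], [], [], [], [0], [], [], [], [2], [2], [2], [2, 1, 3], [], [1, 3], [1], [1], [1], [], [], [], [3],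
    [], [], [], [], [], [], [], [], [], [], [3], [3], [3], [0, 2, 1, 3], [0], [0], [0], [0], [0], [], [2, 0], [2, 0,
    3], [2, 0, 3], [2, 0, 3], [2, 0, 3, 1], [], [2], [], [1], [1], [1], [2, 1, 3], [2, 1, 3], []]
  rank := [0, 0, 0, 1, 0, 0, 0, 0, 0, 0, 1, 5, 6, 0, 2, 0, 1, 2, 1, 0, 1, 5, 4, 3, 2, 1, 0, 1, 0, 2, 3, 4, 1, 0, 1,
    9, 5, 4, 3, 2, 1, 0, 2, 6, 7, 8, 9, 0, 1, 1, 3, 4, 5, 8, 7, 0]
  just := [0, 0, 0, 3, 0, 0, 0, 0, 0, 0, 8, 9, 10, 0, 5, 0, 6, 12, 1, 0, 2, 9, 14, 15, 4, 3, 0, 2, 0, 4, 15, 14, 8,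
    0, 7, 16, 17, 18, 13, 12, 6, 0, 5, 10, 11, 19, 16, 0, 7, 1, 13, 18, 17, 19, 11, 0]
  gA := 5
  gB := 9
  fin := 0
  sid := [0, 1, 2, 3, 4, 5, 6, 1, 0, 7, 8, 9, 10, 11, 10, 5, 6, 12, 13, 1, 2, 10, 9, 14, 15, 4, 3, 2, 5, 4, 15, 14,
    9, 8, 7, 0, 16, 17, 18, 13, 12, 6, 5, 10, 11, 19, 16, 0, 7, 1, 13, 18, 17, 16, 19, 11]
  off := [(0, 0), (0, 0), (0, 0), (0, 0), (0, 0), (0, 0), (0, 0), (0, 0), (0, 0), (0, 0), (0, 0), (0, 0), (0, 0), (0,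
    0), (0, -1), (-1, 0), (-1, 0), (0, 0), (0, 0), (0, 0), (0, 0), (0, -1), (0, -1), (0, 0), (0, 0), (0, 0), (0, 0),
    (0, 0), (0, 0), (0, 0), (0, 0), (0, 0), (0, -1), (0, -1), (0, -1), (0, 0), (0, 0), (0, 0), (0, 0), (1, 0), (1,
    0), (0, 0), (0, 1), (1, 0), (1, 0), (0, 0), (0, 0), (0, 0), (0, 0), (0, 0), (0, 0), (-1, 0), (-1, 0), (-1, 0),
    (-1, 0), (0, 0)]

/-- glued arcs and equations -/
def tord7k_25 : TorT :=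
  ⟨[(0, 0, true), (0, 4, true), (1, 3, true), (1, 5, false), (2, 2, true), (2, 5, true), (3, 4, true), (6, 6, false)],
    [([0, 0, 0, 1, 0, 1, 0], 2), ([0, 0, 1, 0, 0, 0, 2], 2), ([0, 0, 1, 1, 0, 0, 0], 2), ([0, 1, 0, 0, 2, 0, 0], 2),
    ([2, 1, 0, 0, 0, 1, 0], 2)]⟩

theorem tord7k_25_ok : tord7k_25.OK 7 := TT.leaf_ok (T := ttd7k_25) (by decide +kernel)

/-- the torus -/
def ttd7k_26 : TT where
  k := 4
  rf := [false, false, true, true]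
  tau := [7, 17, 18, 19, 11, 12, 20, 0, 24, 25, 26, 4, 5, 27, 23, 22, 21, 1, 2, 3, 6, 16, 15, 14, 8, 9, 10, 13]
  par := [0, 0, 1, 8]
  stars := [[0, 14, 24, 8], [1, 7, 21, 17], [2, 18], [3, 19], [4, 20, 6, 12], [5, 11, 27, 13], [9, 25], [10, 26],
    [15, 23], [16, 22]]
  word := [[], [], [], [], [0, 2], [0], [0, 3, 1], [], [], [], [], [3, 1], [1], [2], [2], [2], [2], [], [], [], [0,
    2, 1], [3], [3], [3], [], [], [], [3]]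
  rank := [0, 0, 1, 2, 3, 0, 4, 0, 0, 1, 2, 3, 0, 1, 2, 1, 0, 0, 1, 2, 4, 0, 1, 2, 0, 1, 2, 1]
  just := [0, 0, 2, 3, 5, 0, 4, 0, 0, 6, 7, 5, 0, 1, 8, 9, 0, 0, 2, 3, 4, 0, 9, 8, 0, 6, 7, 1]
  gA := 5
  gB := 16
  fin := 0
  sid := [0, 1, 2, 3, 4, 5, 4, 1, 0, 6, 7, 5, 4, 5, 0, 8, 9, 1, 2, 3, 4, 1, 9, 8, 0, 6, 7, 5]
  off := [(0, 0), (0, 0), (0, 0), (0, 0), (0, 0), (0, 0), (0, -1), (0, 0), (0, 0), (0, 0), (0, 0), (-1, -1), (-1,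
    -1), (-1, 0), (0, 1), (0, 0), (0, 0), (0, 0), (0, 0), (0, 0), (0, 0), (0, -1), (0, -1), (0, -1), (0, 0), (0, 0),
    (0, 0), (-1, -1)]

/-- glued arcs and equations -/
def tord7k_26 : TorT :=
  ⟨[(0, 0, true), (0, 2, true), (1, 1, true), (1, 3, false), (2, 4, false), (3, 5, false), (4, 4, true), (5, 5,
    true), (6, 6, false)],
    [([0, 0, 0, 0, 1, 1, 2], 2), ([0, 0, 0, 1, 0, 1, 0], 2), ([0, 0, 1, 0, 1, 0, 0], 2), ([0, 1, 1, 0, 0, 0, 0], 2),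
    ([2, 1, 0, 1, 0, 0, 0], 2)]⟩

theorem tord7k_26_ok : tord7k_26.OK 7 := TT.leaf_ok (T := ttd7k_26) (by decide +kernel)

/-- the torus -/
def ttd7k_27 : TT where
  k := 8
  rf := [false, false, false, false, true, true, true, true]
  tau := [9, 8, 7, 10, 20, 15, 14, 2, 1, 0, 3, 27, 22, 21, 6, 5, 32, 33, 30, 31, 4, 13, 12, 39, 40, 37, 38, 11, 48,
    47, 18, 19, 16, 17, 46, 55, 54, 25, 26, 23, 24, 53, 51, 50, 49, 52, 34, 29, 28, 44, 43, 42, 45, 41, 36, 35]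
  par := [0, 0, 4, 11, 16, 23, 28, 35]
  stars := [[0, 14, 4, 10], [1, 9], [2, 8], [3, 7, 21, 11], [5, 20, 32, 16], [6, 15], [12, 27, 39, 23], [13, 22],
    [17, 33], [18, 34, 47, 30], [19, 31], [24, 40], [25, 41, 54, 37], [26, 38], [28, 42, 52, 46], [29, 48], [35, 49,
    45, 53], [36, 55], [43, 51], [44, 50]]
  word := [[], [], [], [1, 2], [], [0, 3], [0, 3], [], [], [], [3, 0], [], [1, 2], [1, 2], [2, 1], [2, 1], [], [],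
    [0, 3], [0, 3], [], [3, 0], [3, 0], [], [], [1, 2], [1, 2], [], [], [], [2, 1], [2, 1], [], [], [0, 3], [], [],
    [3, 0], [3, 0], [], [], [1, 2], [0], [0], [0], [2], [2, 1], [], [], [1], [1], [1], [3], [3, 0], [], []]
  rank := [0, 1, 2, 7, 0, 5, 6, 2, 1, 0, 7, 0, 5, 6, 6, 5, 0, 1, 3, 4, 0, 6, 5, 0, 1, 3, 4, 0, 0, 1, 3, 4, 0, 1, 2,
    0, 1, 3, 4, 0, 1, 2, 1, 0, 1, 0, 2, 1, 0, 1, 0, 1, 0, 2, 1, 0]
  just := [0, 1, 2, 3, 0, 4, 5, 2, 1, 0, 3, 0, 6, 7, 5, 4, 0, 8, 9, 10, 0, 7, 6, 0, 11, 12, 13, 0, 0, 15, 9, 10, 0,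
    8, 14, 0, 17, 12, 13, 0, 11, 16, 18, 0, 19, 0, 14, 15, 0, 19, 0, 18, 0, 16, 17, 0]
  gA := 43
  gB := 45
  fin := 0
  sid := [0, 1, 2, 3, 0, 4, 5, 3, 2, 1, 0, 3, 6, 7, 0, 5, 4, 8, 9, 10, 4, 3, 7, 6, 11, 12, 13, 6, 14, 15, 9, 10, 4,
    8, 9, 16, 17, 12, 13, 6, 11, 12, 14, 18, 19, 16, 14, 9, 15, 16, 19, 18, 14, 16, 12, 17]
  off := [(0, 0), (0, 0), (0, 0), (0, 0), (-1, 1), (0, 0), (0, 0), (0, 0), (0, 0), (0, 0), (0, 0), (1, -1), (0, 0),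
    (0, 0), (-1, 1), (-1, 1), (-1, 1), (0, 0), (0, 0), (0, 0), (0, 0), (1, -1), (1, -1), (1, -1), (0, 0), (0, 0), (0,
    0), (0, 0), (0, 0), (0, 0), (-1, 1), (-1, 1), (-1, 1), (0, 0), (0, 0), (0, 0), (0, 0), (1, -1), (1, -1), (1, -1),
    (0, 0), (0, 0), (0, 0), (0, 0), (0, 0), (1, 0), (-1, 1), (-1, 1), (0, 0), (0, 0), (-1, 0), (-1, 0), (-1, 0), (1,
    -1), (1, -1), (0, 0)]

/-- glued arcs and equations -/
def tord7k_27 : TorT :=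
  ⟨[(0, 2, true), (0, 6, true), (1, 1, true), (1, 5, true), (2, 4, false), (3, 3, true), (3, 5, false), (4, 6, true)],
    [([0, 0, 0, 1, 0, 1, 0], 2), ([0, 0, 1, 0, 1, 1, 1], 2), ([0, 1, 0, 0, 0, 0, 1], 2), ([0, 1, 1, 0, 0, 0, 0], 2),
    ([2, 0, 0, 1, 1, 0, 0], 2)]⟩

theorem tord7k_27_ok : tord7k_27.OK 7 := TT.leaf_ok (T := ttd7k_27) (by decide +kernel)

/-- the torus -/
def ttd7k_28 : TT where
  k := 8
  rf := [false, true, false, false, true, true, false, true]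
  tau := [7, 19, 25, 24, 23, 17, 16, 0, 20, 34, 33, 39, 29, 15, 28, 13, 6, 5, 46, 1, 8, 35, 47, 4, 3, 2, 45, 44, 14,
    12, 53, 52, 51, 10, 9, 21, 48, 55, 54, 11, 50, 43, 49, 41, 27, 26, 18, 22, 36, 42, 40, 32, 31, 30, 38, 37]
  par := [0, 0, 1, 2, 9, 11, 18, 30]
  stars := [[0, 16, 7], [1, 8, 20], [2, 19, 46, 26], [3, 25], [4, 24], [5, 23, 47, 18], [6, 17], [9, 28, 14], [10,
    34], [11, 40, 51, 33], [12, 30, 54, 39], [13, 15, 29], [21, 44, 35], [22, 36, 48], [27, 45], [31, 53], [32, 52],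
    [37, 49, 42], [38, 55], [41, 43, 50]]
  word := [[], [], [], [], [], [2, 0, 3], [2, 0, 3], [], [], [], [], [], [0], [0], [], [1], [2, 1, 3], [2, 1, 3], [],
    [], [], [2], [2, 0, 3], [], [], [], [], [], [], [1], [], [], [], [], [], [3], [0, 3], [0], [0], [], [], [3], [2],
    [2], [], [], [], [2, 1, 3], [2, 1], [3], [], [], [], [], [1], [1]]
  rank := [0, 0, 0, 1, 2, 7, 8, 0, 1, 0, 1, 0, 2, 3, 2, 3, 8, 7, 0, 0, 1, 5, 6, 2, 1, 0, 1, 2, 2, 2, 0, 1, 2, 1, 0,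
    5, 1, 0, 1, 0, 3, 4, 0, 4, 2, 1, 0, 6, 1, 0, 3, 2, 1, 0, 1, 0]
  just := [0, 0, 0, 3, 4, 5, 6, 0, 1, 0, 8, 0, 10, 11, 7, 11, 6, 5, 0, 0, 1, 12, 13, 4, 3, 0, 2, 14, 7, 10, 0, 15,
    16, 8, 0, 12, 17, 0, 18, 0, 9, 19, 0, 19, 14, 2, 0, 13, 17, 0, 9, 16, 15, 0, 18, 0]
  gA := 37
  gB := 42
  fin := 0
  sid := [0, 1, 2, 3, 4, 5, 6, 0, 1, 7, 8, 9, 10, 11, 7, 11, 0, 6, 5, 2, 1, 12, 13, 5, 4, 3, 2, 14, 7, 11, 10, 15,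
    16, 9, 8, 12, 13, 17, 18, 10, 9, 19, 17, 19, 12, 14, 2, 5, 13, 17, 19, 9, 16, 15, 10, 18]
  off := [(0, 0), (0, 0), (0, 0), (0, 0), (0, 0), (0, 0), (0, 0), (0, 0), (0, 0), (0, 0), (0, 0), (0, 0), (0, 0), (0,
    0), (0, 0), (-1, 0), (-1, 0), (-1, 0), (-1, 0), (0, 0), (0, 0), (0, 0), (0, 0), (0, 0), (0, 0), (0, 0), (0, 0),
    (0, 0), (0, 0), (-1, 0), (-1, 0), (0, 0), (0, 0), (0, 0), (0, 0), (0, -1), (0, -1), (0, 0), (0, 0), (0, 0), (0,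
    0), (0, 0), (-1, 1), (0, 1), (0, 0), (0, 0), (0, 0), (-1, 0), (-1, 0), (-1, 0), (0, 0), (0, 0), (0, 0), (0, 0),
    (-1, 0), (-1, 0)]

/-- glued arcs and equations -/
def tord7k_28 : TorT :=
  ⟨[(0, 0, false), (1, 5, true), (1, 6, false), (2, 4, true), (2, 6, true), (3, 3, true), (3, 5, true), (4, 4, true)],
    [([0, 0, 0, 1, 0, 0, 1], 2), ([0, 0, 0, 1, 1, 0, 0], 2), ([0, 0, 1, 0, 1, 2, 0], 2), ([0, 2, 0, 0, 0, 0, 1], 2),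
    ([2, 0, 1, 0, 0, 0, 0], 2)]⟩

theorem tord7k_28_ok : tord7k_28.OK 7 := TT.leaf_ok (T := ttd7k_28) (by decide +kernel)

/-- the torus -/
def ttd7k_29 : TT where
  k := 8
  rf := [false, false, true, true, false, false, true, true]
  tau := [7, 13, 20, 14, 19, 12, 8, 0, 6, 27, 21, 26, 5, 1, 3, 31, 32, 29, 30, 4, 2, 10, 38, 39, 36, 37, 11, 9, 45,
    17, 18, 15, 16, 46, 44, 52, 24, 25, 22, 23, 53, 51, 49, 55, 34, 28, 33, 54, 50, 42, 48, 41, 35, 40, 47, 43]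
  par := [0, 0, 2, 9, 15, 22, 28, 35]
  stars := [[0, 8], [1, 7], [2, 13, 5, 20], [3, 14], [4, 15, 31, 19], [6, 12, 27, 9], [10, 21], [11, 22, 38, 26],
    [16, 32], [17, 29, 46, 33], [18, 30], [23, 39], [24, 36, 53, 40], [25, 37], [28, 45], [34, 47, 55, 44], [35, 52],
    [41, 54, 48, 51], [42, 50], [43, 49]]
  word := [[], [], [], [], [2, 1], [2, 1], [2, 1, 3, 0], [], [1, 2, 0, 3], [], [], [3, 0], [0, 3], [], [], [], [],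
    [0, 3], [0, 3], [0, 3], [], [], [], [], [1, 2], [1, 2], [1, 2], [], [], [2, 1], [2, 1], [], [], [0, 3], [], [],
    [3, 0], [3, 0], [], [], [1, 2], [], [0], [0], [], [], [2, 1], [2], [0], [1], [1], [], [], [3, 0], [3], [1]]
  rank := [0, 1, 0, 1, 5, 6, 7, 0, 7, 0, 1, 5, 6, 1, 1, 0, 1, 3, 4, 5, 0, 1, 0, 1, 3, 4, 5, 0, 0, 3, 4, 0, 1, 2, 1,
    0, 3, 4, 0, 1, 2, 1, 0, 1, 1, 0, 2, 0, 1, 0, 1, 1, 0, 2, 0, 1]
  just := [0, 1, 0, 3, 4, 2, 5, 0, 5, 0, 6, 7, 2, 1, 3, 0, 8, 9, 10, 4, 0, 6, 0, 11, 12, 13, 7, 0, 0, 9, 10, 0, 8,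
    15, 14, 0, 12, 13, 0, 11, 17, 16, 0, 19, 14, 0, 15, 0, 18, 0, 18, 16, 0, 17, 0, 19]
  gA := 42
  gB := 47
  fin := 0
  sid := [0, 1, 2, 3, 4, 2, 5, 1, 0, 5, 6, 7, 5, 2, 3, 4, 8, 9, 10, 4, 2, 6, 7, 11, 12, 13, 7, 5, 14, 9, 10, 4, 8, 9,
    15, 16, 12, 13, 7, 11, 12, 17, 18, 19, 15, 14, 9, 15, 17, 19, 18, 17, 16, 12, 17, 15]
  off := [(0, 0), (0, 0), (0, 0), (0, 0), (0, 0), (-1, 1), (0, 0), (0, 0), (0, 0), (0, 0), (0, 0), (0, 0), (1, -1),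
    (0, 0), (0, 0), (0, 0), (0, 0), (0, 0), (0, 0), (1, -1), (0, 0), (0, 0), (0, 0), (0, 0), (0, 0), (0, 0), (-1, 1),
    (0, 0), (0, 0), (-1, 1), (-1, 1), (0, 0), (0, 0), (0, 0), (0, 0), (0, 0), (1, -1), (1, -1), (0, 0), (0, 0), (0,
    0), (0, 0), (0, 0), (0, 0), (0, 0), (0, 0), (-1, 1), (-1, 1), (1, 0), (-1, 0), (-1, 0), (0, 0), (0, 0), (1, -1),
    (1, -1), (-1, 0)]

/-- glued arcs and equations -/
def tord7k_29 : TorT :=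
  ⟨[(0, 0, true), (0, 3, false), (1, 3, false), (1, 6, true), (2, 4, false), (2, 6, false), (4, 5, false), (5, 5,
    true)],
    [([0, 0, 1, 0, 0, 1, 2], 2), ([0, 0, 1, 0, 1, 0, 0], 2), ([0, 1, 0, 1, 1, 1, 0], 2), ([1, 0, 0, 1, 0, 0, 0], 2),
    ([1, 1, 0, 0, 0, 0, 0], 2)]⟩

theorem tord7k_29_ok : tord7k_29.OK 7 := TT.leaf_ok (T := ttd7k_29) (by decide +kernel)

/-- the torus -/
def ttd7k_30 : TT where
  k := 8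
  rf := [false, false, false, false, true, true, true, true]
  tau := [7, 8, 6, 20, 15, 14, 2, 0, 1, 13, 27, 22, 21, 9, 5, 4, 32, 33, 30, 31, 3, 12, 11, 39, 40, 37, 38, 10, 47,
    46, 18, 19, 16, 17, 45, 54, 53, 25, 26, 23, 24, 52, 49, 50, 48, 34, 29, 28, 44, 42, 43, 55, 41, 36, 35, 51]
  par := [0, 0, 3, 10, 16, 23, 28, 35]
  stars := [[0, 2, 8], [1, 7, 9], [3, 6, 14], [4, 20, 32, 16], [5, 15], [10, 13, 21], [11, 27, 39, 23], [12, 22],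
    [17, 33], [18, 34, 46, 30], [19, 31], [24, 40], [25, 41, 53, 37], [26, 38], [28, 48, 45], [29, 47], [35, 55, 52],
    [36, 54], [42, 50, 44], [43, 51, 49]]
  word := [[], [1, 2], [2, 1], [], [0, 3], [0, 3], [0, 3], [], [3, 0], [3, 0], [], [1, 2], [1, 2], [1, 2], [2, 1],
    [2, 1], [], [], [0, 3], [0, 3], [], [3, 0], [3, 0], [], [], [1, 2], [1, 2], [], [], [], [2, 1], [2, 1], [], [],
    [0, 3], [], [], [3, 0], [3, 0], [], [], [1, 2], [0], [2], [2, 1], [2, 1], [], [], [0, 3], [1], [3], [3, 0], [3,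
    0], [], [], [1, 2]]
  rank := [0, 8, 7, 0, 5, 6, 7, 0, 8, 7, 0, 5, 6, 7, 6, 5, 0, 1, 3, 4, 0, 6, 5, 0, 1, 3, 4, 0, 0, 1, 3, 4, 0, 1, 2,
    0, 1, 3, 4, 0, 1, 2, 0, 0, 1, 2, 1, 0, 1, 0, 0, 1, 2, 1, 0, 1]
  just := [0, 1, 2, 0, 3, 4, 2, 0, 1, 5, 0, 6, 7, 5, 4, 3, 0, 8, 9, 10, 0, 7, 6, 0, 11, 12, 13, 0, 0, 15, 9, 10, 0,
    8, 14, 0, 17, 12, 13, 0, 11, 16, 0, 0, 18, 14, 15, 0, 18, 0, 0, 19, 16, 17, 0, 19]
  gA := 42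
  gB := 43
  fin := 0
  sid := [0, 1, 0, 2, 3, 4, 2, 1, 0, 1, 5, 6, 7, 5, 2, 4, 3, 8, 9, 10, 3, 5, 7, 6, 11, 12, 13, 6, 14, 15, 9, 10, 3,
    8, 9, 16, 17, 12, 13, 6, 11, 12, 18, 19, 18, 14, 9, 15, 14, 19, 18, 19, 16, 12, 17, 16]
  off := [(0, 0), (0, 0), (-1, 1), (0, 0), (0, 0), (0, 0), (1, -1), (0, 0), (0, 0), (1, -1), (0, 0), (0, 0), (0, 0),
    (-1, 1), (0, 0), (-1, 1), (-1, 1), (0, 0), (0, 0), (0, 0), (0, 0), (0, 0), (1, -1), (1, -1), (0, 0), (0, 0), (0,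
    0), (0, 0), (0, 0), (0, 0), (-1, 1), (-1, 1), (-1, 1), (0, 0), (0, 0), (0, 0), (0, 0), (1, -1), (1, -1), (1, -1),
    (0, 0), (0, 0), (0, 0), (0, 0), (-1, 1), (-1, 1), (-1, 1), (0, 0), (0, 0), (-1, 0), (-1, 0), (0, -1), (1, -1),
    (1, -1), (0, 0), (0, 0)]

/-- glued arcs and equations -/
def tord7k_30 : TorT :=
  ⟨[(0, 0, true), (0, 5, true), (1, 1, true), (1, 4, true), (2, 4, false), (2, 6, true), (3, 5, false), (3, 6, true)],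
    [([0, 0, 0, 1, 0, 1, 0], 2), ([0, 0, 1, 0, 2, 0, 1], 2), ([0, 1, 0, 0, 0, 1, 0], 2), ([1, 0, 0, 1, 0, 0, 1], 2),
    ([1, 1, 1, 0, 0, 0, 0], 2)]⟩

theorem tord7k_30_ok : tord7k_30.OK 7 := TT.leaf_ok (T := ttd7k_30) (by decide +kernel)

/-- the torus -/
def ttd7k_31 : TT where
  k := 8
  rf := [false, false, false, true, true, false, true, true]
  tau := [7, 14, 20, 24, 11, 32, 36, 0, 35, 41, 31, 4, 25, 15, 1, 13, 26, 45, 54, 23, 2, 43, 55, 19, 3, 12, 16, 44,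
    50, 48, 40, 10, 5, 37, 51, 8, 6, 33, 52, 47, 30, 9, 49, 21, 27, 17, 53, 39, 29, 42, 28, 34, 38, 46, 18, 22]
  par := [0, 0, 1, 3, 5, 6, 17, 18]
  stars := [[0, 36, 8], [1, 7, 15], [2, 14], [3, 20, 24], [4, 25, 12], [5, 11, 32], [6, 33, 37], [9, 35], [10, 41,
    31], [13, 26, 16], [17, 27, 45], [18, 46, 54], [19, 55, 23], [21, 44], [22, 49, 43], [28, 51], [29, 42, 50], [30,
    40, 48], [34, 52, 38], [39, 53, 47]]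
  word := [[], [], [], [], [0], [], [], [], [1, 2, 0, 3], [1, 2, 0, 3], [1], [1], [1], [], [], [], [1], [], [], [],
    [], [0], [], [], [], [0], [0], [0], [2], [2, 0], [2, 0, 3], [0], [], [], [2], [2, 1, 3, 0], [], [], [2], [2], [2,
    1, 3], [2, 1, 3, 0], [1], [1], [1], [], [], [3], [1, 3], [0], [3], [3], [3], [], [], []]
  rank := [0, 0, 1, 0, 3, 0, 0, 0, 8, 7, 4, 3, 2, 1, 0, 1, 1, 0, 0, 2, 1, 1, 3, 2, 0, 2, 1, 0, 1, 5, 6, 4, 0, 1, 0,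
    8, 0, 1, 2, 3, 6, 7, 4, 1, 0, 0, 1, 3, 5, 4, 1, 0, 2, 1, 0, 3]
  just := [0, 0, 2, 0, 4, 0, 0, 0, 7, 8, 5, 4, 9, 1, 0, 1, 10, 0, 0, 3, 2, 13, 12, 3, 0, 9, 10, 0, 15, 16, 17, 5, 0,
    6, 0, 7, 0, 6, 18, 19, 17, 8, 14, 13, 0, 0, 11, 19, 16, 14, 15, 0, 18, 11, 0, 12]
  gA := 27
  gB := 34
  fin := 0
  sid := [0, 1, 2, 3, 4, 5, 6, 1, 0, 7, 8, 5, 4, 9, 2, 1, 9, 10, 11, 12, 3, 13, 14, 12, 3, 4, 9, 10, 15, 16, 17, 8,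
    5, 6, 18, 7, 0, 6, 18, 19, 17, 8, 16, 14, 13, 10, 11, 19, 17, 14, 16, 15, 18, 19, 11, 12]
  off := [(0, 0), (0, 0), (0, 0), (0, 0), (0, 0), (0, 0), (0, 0), (0, 0), (0, 0), (0, 0), (0, 0), (-1, 0), (-1, 0),
    (0, 0), (0, 0), (0, 0), (0, 0), (0, 0), (0, 0), (0, 0), (0, 0), (0, 0), (0, 0), (0, 0), (0, 0), (0, 0), (1, 0),
    (1, 0), (0, 0), (0, 0), (0, 0), (1, 0), (0, 0), (0, 0), (0, 0), (0, 0), (0, 0), (0, 0), (0, 0), (0, 0), (-1, 0),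
    (0, 0), (-1, -1), (-1, 0), (-1, 0), (0, 0), (0, 0), (0, -1), (-1, -1), (0, 0), (0, -1), (0, -1), (0, -1), (0,
    -1), (0, 0), (0, 0)]

/-- glued arcs and equations -/
def tord7k_31 : TorT :=
  ⟨[(0, 0, true), (0, 1, true), (1, 6, true), (2, 5, false), (2, 6, true), (3, 3, false), (4, 4, true), (4, 5,
    false)],
    [([0, 0, 0, 0, 2, 1, 0], 2), ([0, 0, 0, 2, 0, 0, 1], 2), ([0, 0, 1, 0, 0, 1, 1], 2), ([1, 0, 1, 0, 0, 0, 0], 2),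
    ([1, 2, 0, 0, 0, 0, 0], 2)]⟩

theorem tord7k_31_ok : tord7k_31.OK 7 := TT.leaf_ok (T := ttd7k_31) (by decide +kernel)

/-- the torus -/
def ttd7k_32 : TT where
  k := 4
  rf := [false, false, true, true]
  tau := [8, 19, 26, 17, 13, 23, 9, 18, 0, 6, 24, 14, 22, 4, 11, 21, 27, 3, 7, 1, 25, 15, 12, 5, 10, 20, 2, 16]
  par := [0, 0, 1, 2]
  stars := [[0, 9], [1, 8, 19], [2, 20, 26], [3, 27, 17], [4, 18, 7], [5, 13, 23], [6, 24, 10], [11, 25, 14], [12,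
    15, 22], [16, 21]]
  word := [[], [], [], [3], [3], [3, 0, 2], [3, 0, 2, 1], [], [], [0, 3, 1, 2], [0], [0], [0, 2], [2], [1], [2], [2],
    [2], [], [], [], [3], [3, 1], [3, 1, 2], [1], [], [], [3]]
  rank := [0, 0, 0, 1, 2, 3, 4, 1, 0, 4, 2, 0, 2, 2, 0, 1, 0, 1, 1, 0, 1, 1, 2, 3, 2, 1, 0, 0]
  just := [0, 0, 0, 3, 4, 5, 6, 1, 0, 6, 7, 0, 8, 4, 0, 9, 0, 3, 1, 0, 2, 9, 8, 5, 7, 2, 0, 0]
  gA := 11
  gB := 16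
  fin := 0
  sid := [0, 1, 2, 3, 4, 5, 6, 4, 1, 0, 6, 7, 8, 5, 7, 8, 9, 3, 4, 1, 2, 9, 8, 5, 6, 7, 2, 3]
  off := [(0, 0), (0, 0), (0, 0), (0, 0), (0, 0), (0, 0), (0, 0), (0, 1), (0, 0), (0, 0), (0, 0), (0, 0), (0, 0), (0,
    1), (-1, 0), (-1, 0), (0, 0), (0, 1), (0, 1), (0, 0), (0, 0), (0, -1), (-1, -1), (-1, 0), (-1, 0), (-1, 0), (0,
    0), (0, 0)]

/-- glued arcs and equations -/
def tord7k_32 : TorT :=
  ⟨[(0, 1, true), (0, 4, false), (1, 5, false), (2, 5, false), (2, 6, true), (3, 3, false), (4, 6, true)],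
    [([0, 0, 0, 2, 0, 0, 1], 2), ([0, 0, 1, 0, 0, 1, 1], 2), ([0, 2, 0, 0, 0, 1, 0], 2), ([1, 0, 0, 0, 2, 0, 0], 2),
    ([1, 0, 1, 0, 0, 0, 0], 2)]⟩

theorem tord7k_32_ok : tord7k_32.OK 7 := TT.leaf_ok (T := ttd7k_32) (by decide +kernel)

end Pool.Agent.Lib_MP_fa6e45
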