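import Pool.Agent.Lib_MP_fa6e45.CT5

/-!
MP_fa6e45_co, stage 9: straight-side patterns with `7` sides, tables of tori (generated by a program).
-/

namespace Pool.Agent.Lib_MP_fa6e45

/-- the torus -/
def ttd7k_33 : TT where
  k := 8
  rf := [false, false, true, false, true, false, true, true]
  tau := [7, 16, 26, 25, 11, 28, 29, 0, 30, 40, 39, 4, 14, 15, 12, 13, 1, 27, 45, 44, 24, 54, 55, 43, 20, 3, 2, 17,
    5, 6, 8, 41, 52, 51, 38, 47, 48, 50, 34, 10, 9, 31, 49, 23, 19, 18, 53, 35, 36, 42, 37, 33, 32, 46, 21, 22]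
  par := [0, 0, 1, 2, 5, 9, 18, 21]
  stars := [[0, 30, 8], [1, 7, 16], [2, 17, 27], [3, 26], [4, 25, 14, 12], [5, 11, 39, 28], [6, 29], [9, 31, 41],
    [10, 40], [13, 15], [18, 46, 54, 21], [19, 45], [20, 24, 44], [22, 55], [23, 49, 43], [32, 53, 47, 35], [33, 52],
    [34, 38, 51], [36, 48], [37, 42, 50]]
  word := [[], [], [], [], [1], [], [], [], [2, 1, 3, 0], [], [], [0], [], [], [], [], [], [], [], [], [0], [], [],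
    [1], [1], [], [], [], [], [], [1, 2, 0, 3], [1, 2, 0, 3], [1, 2], [1, 2], [1], [2, 1], [2, 1], [2], [0], [], [],
    [2, 1, 3, 0], [0], [0], [], [], [], [0, 3], [0, 3], [1], [3], [3, 0], [3, 0], [], [], []]
  rank := [0, 0, 0, 1, 3, 0, 1, 0, 8, 0, 1, 3, 2, 1, 2, 1, 0, 1, 0, 1, 0, 0, 1, 2, 0, 1, 0, 1, 0, 1, 8, 7, 6, 5, 4,
    5, 4, 0, 4, 1, 0, 7, 3, 2, 1, 0, 2, 5, 4, 3, 0, 5, 6, 2, 0, 1]
  just := [0, 0, 0, 3, 4, 0, 6, 0, 7, 0, 8, 4, 9, 1, 9, 1, 0, 2, 0, 11, 0, 0, 13, 12, 0, 3, 0, 2, 0, 6, 7, 15, 16,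
    17, 5, 18, 19, 0, 5, 8, 0, 15, 14, 12, 11, 0, 10, 18, 19, 14, 0, 17, 16, 10, 0, 13]
  gA := 20
  gB := 37
  fin := 0
  sid := [0, 1, 2, 3, 4, 5, 6, 1, 0, 7, 8, 5, 4, 9, 4, 9, 1, 2, 10, 11, 12, 10, 13, 14, 12, 4, 3, 2, 5, 6, 0, 7, 15,
    16, 17, 15, 18, 19, 17, 5, 8, 7, 19, 14, 12, 11, 10, 15, 18, 14, 19, 17, 16, 15, 10, 13]
  off := [(0, 0), (0, 0), (0, 0), (0, 0), (0, 0), (0, 0), (0, 0), (0, 0), (0, 0), (0, 0), (0, 0), (1, 0), (1, 0), (0,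
    0), (1, 0), (0, 0), (0, 0), (0, 0), (0, 0), (0, 0), (0, 0), (0, 0), (0, 0), (0, 0), (-1, 0), (0, 0), (0, 0), (0,
    0), (0, 0), (0, 0), (0, 0), (0, 0), (0, 0), (0, 0), (0, 0), (0, 0), (0, 0), (0, 0), (1, 0), (1, 0), (0, 0), (0,
    0), (1, -1), (1, 0), (0, 0), (0, 0), (0, 0), (1, -1), (1, -1), (0, 0), (0, -1), (1, -1), (1, -1), (1, -1), (0,
    0), (0, 0)]

/-- glued arcs and equations -/
def tord7k_33 : TorT :=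
  ⟨[(0, 0, true), (0, 5, false), (1, 2, false), (1, 6, false), (2, 5, true), (3, 4, true), (3, 6, false), (4, 4,
    true)],
    [([0, 0, 0, 1, 0, 1, 0], 2), ([0, 0, 1, 1, 0, 0, 1], 2), ([0, 1, 0, 0, 0, 0, 1], 2), ([1, 0, 0, 0, 2, 1, 0], 2),
    ([1, 1, 1, 0, 0, 0, 0], 2)]⟩

theorem tord7k_33_ok : tord7k_33.OK 7 := TT.leaf_ok (T := ttd7k_33) (by decide +kernel)

/-- the torus -/
def ttd7k_34 : TT where
  k := 2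
  rf := [false, false]
  tau := [10, 9, 6, 13, 12, 7, 2, 5, 11, 1, 0, 8, 4, 3]
  par := [0, 0]
  stars := [[0, 2, 9, 11], [1, 10], [3, 6, 7], [4, 13], [5, 12, 8]]
  word := [[], [], [0, 3], [0], [0], [2], [2, 1], [3], [3, 0], [], [], [1, 2], [1], [1]]
  rank := [0, 1, 2, 1, 0, 0, 2, 0, 1, 1, 0, 1, 0, 1]
  just := [0, 1, 2, 3, 0, 0, 2, 0, 4, 1, 0, 4, 0, 3]
  gA := 4
  gB := 5
  fin := 0
  sid := [0, 1, 0, 2, 3, 4, 2, 2, 4, 0, 1, 0, 4, 3]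
  off := [(0, 0), (0, 0), (1, -1), (0, 0), (0, 0), (0, 0), (-1, 1), (-1, 0), (0, -1), (1, -1), (0, 0), (0, 0), (-1,
    0), (-1, 0)]

/-- glued arcs and equations -/
def tord7k_34 : TorT :=
  ⟨[(0, 3, true), (0, 5, true), (1, 2, true), (1, 4, true), (2, 6, true), (3, 6, true), (4, 5, true)],
    [([0, 0, 0, 0, 1, 0, 1], 2), ([0, 1, 0, 0, 0, 2, 0], 2), ([0, 1, 0, 1, 0, 0, 0], 2), ([1, 0, 0, 1, 0, 0, 1], 2),
    ([1, 0, 2, 0, 1, 0, 0], 2)]⟩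

theorem tord7k_34_ok : tord7k_34.OK 7 := TT.leaf_ok (T := ttd7k_34) (by decide +kernel)

/-- the torus -/
def ttd7k_35 : TT where
  k := 8
  rf := [false, true, false, false, true, true, false, true]
  tau := [7, 16, 11, 12, 27, 26, 25, 0, 17, 29, 15, 2, 3, 41, 28, 10, 1, 8, 30, 31, 48, 35, 44, 39, 40, 6, 5, 4, 14,
    9, 18, 19, 55, 54, 53, 21, 45, 50, 43, 23, 24, 13, 49, 38, 22, 36, 51, 52, 20, 42, 37, 46, 47, 34, 33, 32]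
  par := [0, 0, 1, 4, 9, 13, 20, 32]
  stars := [[0, 25, 41, 7], [1, 8, 17], [2, 16, 11], [3, 12], [4, 13, 35, 21], [5, 27], [6, 26], [9, 30, 18], [10,
    15, 29], [14, 48, 53, 28], [19, 31], [20, 32, 49, 42], [22, 36, 45], [23, 44, 39], [24, 40], [33, 55], [34, 54],
    [37, 51, 46], [38, 43, 50], [47, 52]]
  word := [[], [], [0], [0], [], [], [], [], [], [], [1], [1], [1], [], [0], [0], [], [], [], [], [], [0], [0, 2, 1],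
    [0, 2, 1, 3], [0, 2, 1, 3], [], [], [], [1], [], [], [], [], [], [], [1], [2, 1], [2], [2], [2, 0, 3, 1], [2, 0,
    3, 1], [], [], [3], [0, 3, 1], [0, 3], [0], [0], [], [], [3], [1], [1], [], [], []]
  rank := [0, 0, 2, 3, 0, 1, 2, 0, 1, 0, 1, 2, 3, 0, 0, 1, 0, 1, 2, 3, 0, 4, 6, 7, 8, 2, 1, 0, 0, 0, 2, 3, 0, 1, 2,
    4, 5, 0, 5, 7, 8, 0, 4, 5, 6, 5, 4, 3, 0, 4, 0, 4, 3, 2, 1, 0]
  just := [0, 0, 2, 3, 0, 5, 6, 0, 1, 0, 8, 2, 3, 0, 0, 8, 0, 1, 7, 10, 0, 4, 12, 13, 14, 6, 5, 0, 0, 0, 7, 10, 0,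
    15, 16, 4, 17, 0, 18, 13, 14, 0, 11, 18, 12, 17, 19, 9, 0, 11, 0, 19, 9, 16, 15, 0]
  gA := 14
  gB := 37
  fin := 0
  sid := [0, 1, 2, 3, 4, 5, 6, 0, 1, 7, 8, 2, 3, 4, 9, 8, 2, 1, 7, 10, 11, 4, 12, 13, 14, 0, 6, 5, 9, 8, 7, 10, 11,
    15, 16, 4, 12, 17, 18, 13, 14, 0, 11, 18, 13, 12, 17, 19, 9, 11, 18, 17, 19, 9, 16, 15]
  off := [(0, 0), (0, 0), (0, 0), (0, 0), (0, 0), (0, 0), (0, 0), (0, 0), (0, 0), (0, 0), (0, 0), (-1, 0), (-1, 0),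
    (-1, 0), (0, 0), (1, 0), (0, 0), (0, 0), (0, 0), (0, 0), (0, 0), (0, 0), (0, 0), (0, 0), (0, 0), (0, 0), (0, 0),
    (0, 0), (-1, 0), (0, 0), (0, 0), (0, 0), (0, 0), (0, 0), (0, 0), (-1, 0), (-1, 0), (0, 0), (0, 0), (0, 0), (0,
    0), (0, 0), (0, 0), (0, -1), (0, -1), (0, -1), (1, -1), (0, 0), (0, 0), (0, 0), (0, -1), (0, -1), (-1, 0), (-1,
    0), (0, 0), (0, 0)]

/-- glued arcs and equations -/
def tord7k_35 : TorT :=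
  ⟨[(0, 0, false), (1, 2, true), (1, 3, false), (2, 4, false), (3, 5, false), (4, 6, true), (5, 5, true), (6, 6,
    true)],
    [([0, 0, 0, 0, 0, 1, 1], 2), ([0, 0, 0, 1, 0, 1, 0], 2), ([0, 0, 2, 0, 1, 0, 0], 2), ([0, 2, 0, 1, 0, 0, 0], 2),
    ([2, 0, 0, 0, 1, 0, 1], 2)]⟩

theorem tord7k_35_ok : tord7k_35.OK 7 := TT.leaf_ok (T := ttd7k_35) (by decide +kernel)

/-- the torus -/
def ttd7k_36 : TT where
  k := 8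
  rf := [false, true, false, true, false, false, true, true]
  tau := [8, 15, 23, 32, 27, 21, 20, 19, 0, 16, 40, 45, 38, 18, 22, 1, 9, 39, 13, 7, 6, 5, 14, 2, 33, 52, 31, 4, 54,
    42, 51, 26, 3, 24, 53, 47, 49, 44, 12, 17, 10, 46, 29, 50, 37, 11, 41, 35, 55, 36, 43, 30, 25, 34, 28, 48]
  par := [0, 0, 1, 2, 3, 10, 11, 25]
  stars := [[0, 20, 8], [1, 9, 16], [2, 15, 23], [3, 24, 33], [4, 32, 27], [5, 21], [6, 22, 14], [7, 19], [10, 40,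
    17], [11, 46, 41], [12, 38, 45], [13, 18, 39], [25, 53, 34], [26, 31, 52], [28, 54], [29, 55, 42], [30, 43, 51],
    [35, 47], [36, 48, 49], [37, 50, 44]]
  word := [[], [], [], [], [3, 0], [3, 0], [3, 0], [0, 3], [], [], [], [], [0, 3], [0, 3], [], [], [], [], [2, 1],
    [2, 1], [1, 2], [1, 2], [], [], [], [], [1, 2], [1, 2], [], [3], [3, 0], [3, 0], [], [], [], [], [2], [2, 1], [2,
    1], [], [], [], [2], [0], [0, 3], [], [], [], [2], [3], [1], [1, 2], [], [], [], [3]]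
  rank := [0, 0, 0, 0, 7, 8, 9, 7, 0, 1, 0, 0, 5, 6, 1, 0, 1, 2, 6, 7, 9, 8, 1, 0, 1, 0, 6, 7, 3, 4, 5, 6, 0, 1, 2,
    2, 3, 4, 5, 2, 0, 1, 4, 0, 4, 0, 1, 2, 0, 3, 0, 5, 0, 2, 3, 0]
  just := [0, 0, 0, 0, 4, 5, 6, 7, 0, 1, 0, 0, 10, 11, 2, 0, 1, 8, 11, 7, 6, 5, 2, 0, 3, 0, 13, 4, 14, 15, 16, 13, 0,
    3, 12, 17, 18, 19, 10, 8, 0, 9, 15, 0, 19, 0, 9, 17, 0, 18, 0, 16, 0, 12, 14, 0]
  gA := 43
  gB := 48
  fin := 0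
  sid := [0, 1, 2, 3, 4, 5, 6, 7, 0, 1, 8, 9, 10, 11, 6, 2, 1, 8, 11, 7, 0, 5, 6, 2, 3, 12, 13, 4, 14, 15, 16, 13, 4,
    3, 12, 17, 18, 19, 10, 11, 8, 9, 15, 16, 19, 10, 9, 17, 18, 18, 19, 16, 13, 12, 14, 15]
  off := [(0, 0), (0, 0), (0, 0), (0, 0), (0, 0), (0, 0), (0, 0), (0, 0), (0, 0), (0, 0), (0, 0), (0, 0), (0, 0), (0,
    0), (-1, 1), (0, 0), (0, 0), (0, 0), (-1, 1), (-1, 1), (-1, 1), (-1, 1), (-1, 1), (0, 0), (0, 0), (0, 0), (0, 0),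
    (-1, 1), (0, 0), (0, 0), (0, 0), (1, -1), (0, 0), (0, 0), (0, 0), (0, 0), (0, 0), (0, 0), (-1, 1), (-1, 1), (0,
    0), (0, 0), (0, 1), (0, 1), (1, -1), (0, 0), (0, 0), (0, 0), (0, 0), (0, -1), (0, -1), (-1, 1), (0, 0), (0, 0),
    (0, 0), (0, 0)]

/-- glued arcs and equations -/
def tord7k_36 : TorT :=
  ⟨[(0, 1, false), (0, 5, false), (1, 1, true), (2, 2, false), (3, 4, true), (3, 5, false), (4, 6, false), (6, 6,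
    true)],
    [([0, 0, 0, 0, 2, 0, 1], 2), ([0, 0, 0, 2, 0, 1, 0], 2), ([0, 1, 2, 0, 0, 0, 0], 2), ([1, 0, 0, 0, 0, 1, 0], 2),
    ([1, 1, 0, 0, 0, 0, 1], 2)]⟩

theorem tord7k_36_ok : tord7k_36.OK 7 := TT.leaf_ok (T := ttd7k_36) (by decide +kernel)

/-- the torus -/
def ttd7k_37 : TT where
  k := 8
  rf := [false, false, false, false, true, true, true, true]
  tau := [8, 15, 21, 17, 13, 31, 32, 16, 0, 33, 40, 41, 30, 4, 22, 1, 7, 3, 27, 45, 46, 2, 14, 47, 54, 55, 44, 18,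
    51, 35, 12, 5, 6, 9, 39, 29, 50, 42, 52, 34, 10, 11, 37, 49, 26, 19, 20, 23, 53, 43, 36, 28, 38, 48, 24, 25]
  par := [0, 0, 1, 2, 5, 10, 19, 24]
  stars := [[0, 33, 9], [1, 8, 16], [2, 15, 22], [3, 21, 18], [4, 17, 7], [5, 13, 31], [6, 32], [10, 34, 40], [11,
    41], [12, 35, 30], [14, 47, 23], [19, 27, 45], [20, 46], [24, 48, 54], [25, 55], [26, 49, 44], [28, 52, 39], [29,
    36, 51], [37, 43, 50], [38, 53, 42]]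
  word := [[], [], [], [1], [1], [], [], [], [], [2, 1, 3, 0], [], [], [0], [0], [], [], [], [0], [0], [], [], [],
    [], [], [], [], [1], [1], [1, 2, 0], [1], [1], [], [], [1, 2, 0, 3], [1, 2, 0, 3], [0], [2, 0], [2], [2], [2, 1,
    3, 0], [], [], [3], [0], [0], [], [], [], [], [1], [1, 3], [1, 3, 0], [3], [], [], []]
  rank := [0, 0, 0, 1, 2, 0, 1, 1, 0, 7, 0, 1, 3, 2, 1, 0, 1, 1, 0, 0, 1, 0, 1, 2, 0, 1, 1, 0, 5, 4, 3, 0, 1, 7, 6,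
    4, 3, 0, 4, 6, 0, 1, 0, 2, 1, 0, 1, 2, 3, 2, 3, 5, 4, 3, 0, 1]
  just := [0, 0, 0, 3, 4, 0, 6, 1, 0, 7, 0, 8, 5, 4, 2, 0, 1, 3, 0, 0, 12, 0, 2, 10, 0, 14, 11, 0, 17, 9, 5, 0, 6, 7,
    16, 9, 18, 0, 19, 16, 0, 8, 0, 15, 11, 0, 12, 10, 13, 15, 18, 17, 19, 13, 0, 14]
  gA := 18
  gB := 37
  fin := 0
  sid := [0, 1, 2, 3, 4, 5, 6, 4, 1, 0, 7, 8, 9, 5, 10, 2, 1, 4, 3, 11, 12, 3, 2, 10, 13, 14, 15, 11, 16, 17, 9, 5,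
    6, 0, 7, 9, 17, 18, 19, 16, 7, 8, 19, 18, 15, 11, 12, 10, 13, 15, 18, 17, 16, 19, 13, 14]
  off := [(0, 0), (0, 0), (0, 0), (0, 0), (0, 0), (0, 0), (0, 0), (1, 0), (0, 0), (0, 0), (0, 0), (0, 0), (0, 0), (1,
    0), (0, 0), (0, 0), (0, 0), (1, 0), (1, 0), (0, 0), (0, 0), (0, 0), (0, 0), (0, 0), (0, 0), (0, 0), (0, 0), (-1,
    0), (0, 0), (0, 0), (-1, 0), (0, 0), (0, 0), (0, 0), (0, 0), (0, 0), (1, 0), (0, 0), (0, 0), (0, 0), (0, 0), (0,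
    0), (0, -1), (0, -1), (1, 0), (0, 0), (0, 0), (0, 0), (0, 0), (0, 0), (-1, -1), (0, -1), (0, -1), (0, -1), (0,
    0), (0, 0)]

/-- glued arcs and equations -/
def tord7k_37 : TorT :=
  ⟨[(0, 1, true), (0, 2, true), (1, 1, true), (2, 5, false), (3, 3, true), (3, 5, false), (4, 6, false), (4, 6,
    true)],
    [([0, 0, 0, 0, 1, 0, 1], 2), ([0, 0, 0, 1, 0, 1, 1], 2), ([0, 2, 1, 0, 0, 0, 0], 2), ([1, 0, 0, 1, 1, 0, 0], 2),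
    ([1, 0, 1, 0, 0, 1, 0], 2)]⟩

theorem tord7k_37_ok : tord7k_37.OK 7 := TT.leaf_ok (T := ttd7k_37) (by decide +kernel)

/-- the torus -/
def ttd7k_38 : TT where
  k := 4
  rf := [false, false, false, false]
  tau := [7, 13, 15, 14, 16, 12, 8, 0, 6, 22, 21, 23, 5, 1, 3, 2, 4, 20, 25, 26, 17, 10, 9, 11, 27, 18, 19, 24]
  par := [0, 0, 2, 9]
  stars := [[0, 8], [1, 7], [2, 13, 5, 16], [3, 15], [4, 14, 17], [6, 12, 23, 9], [10, 22], [11, 21, 24], [18, 20,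
    26], [19, 25, 27]]
  word := [[], [], [], [], [2, 1], [2, 1], [2, 1, 3, 0], [], [1, 2, 0, 3], [], [], [3, 0], [0, 3], [], [], [], [0,
    3], [0, 3], [0], [2], [2, 1], [], [], [1, 2], [1, 2], [1], [3], [3, 0]]
  rank := [0, 1, 0, 1, 2, 3, 4, 0, 4, 0, 1, 2, 3, 1, 1, 0, 2, 1, 0, 0, 1, 1, 0, 2, 1, 0, 0, 1]
  just := [0, 1, 0, 3, 4, 2, 5, 0, 5, 0, 6, 7, 2, 1, 3, 0, 4, 8, 0, 0, 8, 6, 0, 7, 9, 0, 0, 9]
  gA := 18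
  gB := 19
  fin := 0
  sid := [0, 1, 2, 3, 4, 2, 5, 1, 0, 5, 6, 7, 5, 2, 4, 3, 2, 4, 8, 9, 8, 7, 6, 5, 7, 9, 8, 9]
  off := [(0, 0), (0, 0), (0, 0), (0, 0), (0, 0), (-1, 1), (0, 0), (0, 0), (0, 0), (0, 0), (0, 0), (0, 0), (1, -1),
    (0, 0), (0, 0), (0, 0), (0, 0), (1, -1), (0, 0), (0, 0), (-1, 1), (0, 0), (0, 0), (0, 0), (-1, 1), (-1, 0), (-1,
    0), (0, -1)]

/-- glued arcs and equations -/
def tord7k_38 : TorT :=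
  ⟨[(0, 0, true), (0, 3, true), (1, 2, true), (1, 6, true), (2, 4, true), (3, 6, true), (4, 4, true), (5, 5, true)],
    [([0, 0, 0, 0, 1, 1, 1], 2), ([0, 0, 2, 0, 0, 1, 1], 2), ([0, 1, 0, 1, 0, 0, 0], 2), ([1, 0, 0, 1, 1, 0, 0], 2),
    ([1, 1, 0, 0, 0, 0, 0], 2)]⟩

theorem tord7k_38_ok : tord7k_38.OK 7 := TT.leaf_ok (T := ttd7k_38) (by decide +kernel)

/-- the torus -/
def ttd7k_39 : TT where
  k := 8
  rf := [false, false, false, true, true, false, true, true]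
  tau := [10, 15, 18, 17, 16, 21, 11, 33, 26, 27, 0, 6, 22, 23, 38, 1, 4, 3, 2, 42, 39, 5, 12, 13, 28, 34, 8, 9, 24,
    50, 53, 52, 51, 7, 25, 54, 47, 48, 14, 20, 43, 44, 19, 40, 41, 49, 55, 36, 37, 45, 29, 32, 31, 30, 35, 46]
  par := [0, 0, 1, 5, 7, 14, 19, 29]
  stars := [[0, 11], [1, 10, 21, 5, 16], [2, 15, 38, 42, 19], [3, 18], [4, 17], [6, 22, 12], [7, 24, 29, 51, 33], [8,
    34, 26], [9, 27], [13, 23], [14, 39], [20, 43, 40], [25, 28], [30, 54, 35, 45, 50], [31, 53], [32, 52], [36, 55,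
    47], [37, 48], [41, 44], [46, 49]]
  word := [[], [], [0], [0], [0], [], [0, 3, 1, 2], [], [1], [1], [], [3, 0, 2, 1], [3, 0, 2, 1], [3, 0, 2, 1], [],
    [], [1], [1], [1], [], [], [], [0, 3, 1, 2], [0, 3, 1, 2], [0], [0], [0], [0], [1], [], [3, 0, 2], [3, 0, 2], [3,
    0, 2], [], [1], [0, 2], [0], [0], [], [], [], [], [], [], [], [2], [2], [1], [1], [3], [], [3, 1, 2], [3, 1, 2],
    [3, 1, 2], [3, 1], [3]]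
  rank := [0, 0, 0, 1, 2, 0, 9, 0, 4, 3, 0, 9, 8, 7, 0, 0, 2, 1, 0, 0, 1, 0, 8, 7, 6, 5, 4, 3, 6, 0, 4, 5, 6, 0, 5,
    3, 2, 1, 0, 1, 2, 3, 0, 2, 3, 1, 0, 2, 1, 1, 0, 6, 5, 4, 3, 0]
  just := [0, 0, 0, 3, 4, 0, 5, 0, 8, 1, 0, 5, 9, 6, 0, 0, 4, 3, 0, 0, 10, 0, 9, 6, 12, 7, 8, 1, 12, 0, 13, 14, 15,
    0, 7, 16, 17, 2, 0, 10, 11, 18, 0, 11, 18, 19, 0, 17, 2, 19, 0, 15, 14, 13, 16, 0]
  gA := 2
  gB := 46
  fin := 0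
  sid := [0, 1, 2, 3, 4, 1, 5, 6, 7, 8, 1, 0, 5, 9, 10, 2, 1, 4, 3, 2, 11, 1, 5, 9, 6, 12, 7, 8, 12, 6, 13, 14, 15,
    6, 7, 13, 16, 17, 2, 10, 11, 18, 2, 11, 18, 13, 19, 16, 17, 19, 13, 6, 15, 14, 13, 16]
  off := [(0, 0), (0, 0), (0, 0), (0, 0), (0, 0), (1, 0), (0, 0), (0, 0), (0, 0), (0, 0), (0, 0), (0, 0), (0, 0), (0,
    0), (0, 0), (0, 0), (0, 0), (-1, 0), (-1, 0), (-1, 0), (0, 0), (1, 0), (0, 0), (0, 0), (0, 0), (0, 0), (1, 0),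
    (1, 0), (-1, 0), (-1, 0), (0, 0), (0, 0), (0, 0), (0, 0), (0, 0), (0, 1), (0, 0), (0, 0), (0, 0), (0, 0), (0, 0),
    (0, 0), (-1, 0), (0, 0), (0, 0), (0, 1), (0, 0), (-1, 0), (-1, 0), (0, -1), (0, 0), (-1, 0), (-1, 0), (-1, 0),
    (-1, 0), (-1, -1)]

/-- glued arcs and equations -/
def tord7k_39 : TorT :=
  ⟨[(0, 3, true), (0, 5, false), (1, 1, true), (1, 5, false), (2, 4, true), (2, 6, false), (3, 3, true), (4, 6,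
    true)],
    [([0, 0, 0, 1, 1, 0, 0], 2), ([0, 0, 1, 0, 0, 0, 1], 2), ([0, 1, 0, 0, 0, 1, 1], 2), ([1, 0, 0, 0, 1, 0, 0], 2),
    ([1, 1, 1, 1, 0, 1, 0], 2)]⟩

theorem tord7k_39_ok : tord7k_39.OK 7 := TT.leaf_ok (T := ttd7k_39) (by decide +kernel)

/-- the torus -/
def ttd7k_40 : TT where
  k := 8
  rf := [false, false, false, true, false, true, true, true]
  tau := [7, 10, 9, 8, 14, 25, 15, 0, 3, 2, 1, 28, 39, 29, 4, 6, 26, 27, 47, 23, 24, 46, 48, 19, 20, 5, 16, 17, 11,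
    13, 40, 41, 54, 37, 38, 53, 55, 33, 34, 12, 30, 31, 49, 52, 51, 50, 21, 18, 22, 42, 45, 44, 43, 35, 32, 36]
  par := [0, 0, 4, 5, 11, 12, 18, 32]
  stars := [[0, 15, 4, 8], [1, 7, 29, 11], [2, 10], [3, 9], [5, 14, 25], [6, 26, 16], [12, 28, 39], [13, 40, 30],
    [17, 27], [18, 21, 47], [19, 48, 23], [20, 24], [22, 42, 50, 46], [31, 41], [32, 35, 54], [33, 55, 37], [34, 38],
    [36, 49, 43, 53], [44, 52], [45, 51]]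
  word := [[], [0], [0], [0], [], [], [2, 1, 3], [], [1], [1], [1], [], [], [0], [], [2, 0, 3], [2, 0, 3], [2, 0, 3],
    [], [], [], [2, 1, 3], [], [], [], [], [2, 1, 3], [2, 1, 3], [], [1], [1], [1], [], [], [], [0], [], [], [], [],
    [0], [0], [2, 1], [2], [2], [2], [2, 0, 3], [], [], [0, 3], [3], [3], [3], [1], [], []]
  rank := [0, 4, 5, 6, 0, 0, 8, 0, 6, 5, 4, 0, 0, 3, 0, 8, 7, 6, 0, 2, 1, 5, 3, 2, 1, 0, 7, 6, 0, 3, 2, 1, 0, 2, 1,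
    0, 3, 2, 1, 0, 2, 1, 4, 1, 0, 1, 5, 0, 3, 4, 1, 0, 1, 0, 0, 3]
  just := [0, 1, 2, 3, 0, 0, 5, 0, 3, 2, 1, 0, 0, 7, 0, 5, 8, 9, 0, 11, 4, 12, 10, 11, 4, 0, 8, 9, 0, 7, 13, 14, 0,
    16, 6, 0, 15, 16, 6, 0, 13, 14, 17, 18, 0, 19, 12, 0, 10, 17, 19, 0, 18, 0, 0, 15]
  gA := 35
  gB := 44
  fin := 0
  sid := [0, 1, 2, 3, 0, 4, 5, 1, 0, 3, 2, 1, 6, 7, 4, 0, 5, 8, 9, 10, 11, 9, 12, 10, 11, 4, 5, 8, 6, 1, 7, 13, 14,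
    15, 16, 14, 17, 15, 16, 6, 7, 13, 12, 17, 18, 19, 12, 9, 10, 17, 12, 19, 18, 17, 14, 15]
  off := [(0, 0), (0, 0), (0, 0), (0, 0), (1, 0), (0, 0), (0, 0), (0, 0), (0, 0), (-1, 0), (-1, 0), (-1, 0), (0, 0),
    (0, 0), (0, 0), (1, 0), (1, 0), (0, 0), (0, 0), (0, 0), (0, 0), (-1, 0), (0, 0), (0, 0), (0, 0), (0, 0), (0, 0),
    (-1, 0), (0, 0), (-1, 0), (-1, 0), (0, 0), (0, 0), (0, 0), (0, 0), (1, 0), (0, 0), (0, 0), (0, 0), (0, 0), (0,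
    0), (1, 0), (0, 0), (-1, 1), (0, 0), (0, 0), (1, 0), (0, 0), (0, 0), (0, 0), (1, -1), (0, -1), (0, -1), (-1, 0),
    (0, 0), (0, 0)]

/-- glued arcs and equations -/
def tord7k_40 : TorT :=
  ⟨[(0, 0, true), (0, 4, true), (1, 3, true), (1, 6, true), (2, 2, true), (2, 5, false), (3, 6, false), (4, 5,
    false)],
    [([0, 0, 0, 1, 0, 0, 1], 2), ([0, 0, 1, 0, 0, 1, 1], 2), ([0, 0, 1, 1, 0, 0, 0], 2), ([1, 0, 0, 0, 1, 1, 0], 2),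
    ([1, 2, 0, 0, 1, 0, 0], 2)]⟩

theorem tord7k_40_ok : tord7k_40.OK 7 := TT.leaf_ok (T := ttd7k_40) (by decide +kernel)

/-- the torus -/
def ttd7k_41 : TT where
  k := 8
  rf := [false, false, true, false, false, true, true, true]
  tau := [7, 14, 15, 26, 31, 30, 41, 0, 35, 36, 33, 24, 23, 20, 1, 2, 47, 46, 39, 52, 13, 50, 51, 12, 11, 32, 3, 48,
    43, 44, 5, 4, 25, 10, 55, 8, 9, 54, 53, 18, 45, 6, 49, 28, 29, 40, 17, 16, 27, 42, 21, 22, 19, 38, 37, 34]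
  par := [0, 0, 1, 3, 4, 6, 16, 19]
  stars := [[0, 35, 8], [1, 7, 14], [2, 15], [3, 16, 48, 27], [4, 26, 32], [5, 31], [6, 30, 45, 41], [9, 36], [10,
    37, 55, 34], [11, 33, 25], [12, 24], [13, 23, 52, 20], [17, 47], [18, 40, 46], [19, 53, 39], [21, 42, 50], [22,
    51], [28, 49, 43], [29, 44], [38, 54]]
  word := [[], [], [], [], [], [], [], [], [1, 2, 0, 3], [1, 2, 0, 3], [1], [1], [1], [], [], [], [], [], [3], [],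
    [], [0], [0], [0], [0], [], [], [], [2], [2], [], [], [], [0], [2, 0], [2, 1, 3, 0], [2, 1, 3, 0], [2], [2], [2],
    [2], [], [0], [3], [3], [3], [], [], [], [1], [1], [1], [], [3], [3], [1, 3]]
  rank := [0, 0, 1, 0, 0, 1, 0, 0, 6, 5, 4, 3, 2, 1, 0, 1, 0, 1, 2, 0, 1, 1, 0, 2, 3, 1, 0, 2, 3, 2, 1, 0, 1, 4, 4,
    6, 5, 4, 3, 2, 0, 0, 3, 3, 2, 0, 1, 0, 2, 3, 1, 0, 0, 3, 4, 4]
  just := [0, 0, 2, 0, 0, 5, 0, 0, 7, 8, 9, 10, 11, 1, 0, 2, 0, 12, 13, 0, 1, 16, 0, 11, 10, 4, 0, 3, 18, 6, 5, 0, 4,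
    9, 17, 7, 8, 19, 14, 13, 0, 0, 15, 18, 6, 0, 12, 0, 3, 15, 16, 0, 0, 14, 19, 17]
  gA := 22
  gB := 40
  fin := 0
  sid := [0, 1, 2, 3, 4, 5, 6, 1, 0, 7, 8, 9, 10, 11, 1, 2, 3, 12, 13, 14, 11, 15, 16, 11, 10, 9, 4, 3, 17, 18, 6, 5,
    4, 9, 8, 0, 7, 8, 19, 14, 13, 6, 15, 17, 18, 6, 13, 12, 3, 17, 15, 16, 11, 14, 19, 8]
  off := [(0, 0), (0, 0), (0, 0), (0, 0), (0, 0), (0, 0), (0, 0), (0, 0), (0, 0), (0, 0), (0, 0), (0, 0), (0, 0), (0,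
    0), (0, 0), (0, 0), (0, 0), (0, 0), (0, 0), (0, 0), (0, 0), (0, 0), (0, 0), (1, 0), (1, 0), (1, 0), (0, 0), (0,
    0), (0, 0), (0, 0), (0, 0), (0, 0), (0, 0), (1, 0), (1, 0), (0, 0), (0, 0), (0, 0), (0, 0), (0, 1), (0, 1), (0,
    0), (0, 0), (0, -1), (0, -1), (0, -1), (0, 0), (0, 0), (0, 0), (-1, -1), (-1, 0), (-1, 0), (0, 0), (0, 0), (0,
    -1), (0, -1)]

/-- glued arcs and equations -/
def tord7k_41 : TorT :=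
  ⟨[(0, 0, true), (0, 1, false), (1, 2, false), (2, 5, true), (3, 4, true), (3, 5, true), (4, 4, true), (6, 6,
    false)],
    [([0, 0, 0, 0, 2, 1, 0], 2), ([0, 0, 0, 1, 0, 1, 0], 2), ([0, 0, 1, 1, 0, 0, 2], 2), ([0, 1, 1, 0, 0, 0, 0], 2),
    ([2, 1, 0, 0, 0, 0, 0], 2)]⟩

theorem tord7k_41_ok : tord7k_41.OK 7 := TT.leaf_ok (T := ttd7k_41) (by decide +kernel)

/-- the torus -/
def ttd7k_42 : TT where
  k := 4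
  rf := [false, false, true, true]
  tau := [7, 8, 14, 15, 24, 25, 20, 0, 1, 21, 22, 17, 18, 27, 2, 3, 23, 11, 12, 26, 6, 9, 10, 16, 4, 5, 19, 13]
  par := [0, 0, 2, 4]
  stars := [[0, 14, 2, 8], [1, 7, 21, 9], [3, 15], [4, 16, 24], [5, 25], [6, 26, 20], [10, 22], [11, 23, 17], [12,
    18], [13, 19, 27]]
  word := [[], [0, 2, 1], [], [], [], [], [3], [], [0, 3, 1], [0], [0], [0], [0], [0, 2], [], [], [], [1], [1], [2],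
    [2], [1], [1], [], [], [], [3], [3, 1]]
  rank := [0, 5, 0, 1, 0, 1, 2, 0, 5, 4, 3, 0, 1, 2, 0, 1, 2, 0, 1, 0, 2, 4, 3, 2, 0, 1, 0, 2]
  just := [0, 1, 0, 2, 0, 4, 5, 0, 1, 6, 7, 0, 8, 9, 0, 2, 3, 0, 8, 0, 5, 6, 7, 3, 0, 4, 0, 9]
  gA := 11
  gB := 19
  fin := 0
  sid := [0, 1, 0, 2, 3, 4, 5, 1, 0, 1, 6, 7, 8, 9, 0, 2, 3, 7, 8, 9, 5, 1, 6, 7, 3, 4, 5, 9]
  off := [(0, 0), (0, 0), (0, 1), (0, 0), (0, 0), (0, 0), (0, 0), (0, 0), (0, 0), (0, -1), (0, 0), (0, 0), (0, 0),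
    (0, 0), (0, 1), (0, 0), (0, 0), (-1, 0), (-1, 0), (-1, 0), (0, 1), (-1, -1), (-1, 0), (-1, 0), (0, 0), (0, 0),
    (0, 0), (-1, -1)]

/-- glued arcs and equations -/
def tord7k_42 : TorT :=
  ⟨[(0, 0, true), (0, 2, false), (1, 1, true), (1, 3, false), (2, 2, true), (3, 4, false), (4, 5, false), (5, 5,
    true), (6, 6, false)],
    [([0, 0, 0, 0, 0, 1, 2], 2), ([0, 0, 0, 0, 1, 1, 0], 2), ([0, 0, 1, 1, 1, 0, 0], 2), ([0, 1, 0, 1, 0, 0, 0], 2),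
    ([2, 1, 1, 0, 0, 0, 0], 2)]⟩

theorem tord7k_42_ok : tord7k_42.OK 7 := TT.leaf_ok (T := ttd7k_42) (by decide +kernel)

/-- the torus -/
def ttd7k_43 : TT where
  k := 8
  rf := [false, false, true, false, true, false, true, true]
  tau := [7, 19, 22, 21, 17, 12, 32, 0, 33, 36, 35, 31, 5, 18, 45, 44, 27, 4, 13, 1, 23, 3, 2, 20, 46, 55, 43, 16,
    52, 51, 41, 11, 6, 8, 37, 10, 9, 34, 53, 48, 50, 30, 49, 26, 15, 14, 24, 54, 39, 42, 40, 29, 28, 38, 47, 25]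
  par := [0, 0, 1, 2, 6, 9, 14, 25]
  stars := [[0, 33, 8], [1, 7, 19], [2, 20, 23], [3, 22], [4, 21, 17], [5, 18, 13], [6, 12, 32], [9, 34, 37], [10,
    36], [11, 35, 31], [14, 46, 24], [15, 45], [16, 27, 44], [25, 47, 55], [26, 49, 43], [28, 53, 38], [29, 52], [30,
    41, 51], [39, 54, 48], [40, 42, 50]]
  word := [[], [], [], [], [0], [0], [], [], [2, 0, 3, 1], [], [], [1], [1], [], [], [], [1], [1], [], [], [], [],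
    [], [], [], [], [0], [0], [0, 2], [0, 2], [0], [0], [], [0, 2, 1, 3], [0, 2, 1, 3], [], [], [2, 0, 3, 1], [2, 0],
    [2, 0], [2], [1], [1], [1], [], [], [], [], [1, 3], [0], [3], [3, 1], [3, 1], [1, 3], [], []]
  rank := [0, 0, 0, 1, 0, 2, 0, 0, 8, 0, 1, 3, 2, 1, 0, 1, 2, 0, 1, 0, 1, 1, 0, 1, 2, 0, 3, 2, 6, 5, 4, 3, 0, 8, 7,
    1, 0, 7, 6, 5, 0, 4, 4, 3, 1, 0, 2, 3, 5, 4, 0, 5, 6, 6, 3, 0]
  just := [0, 0, 0, 3, 0, 5, 0, 0, 7, 0, 8, 6, 5, 1, 0, 11, 4, 0, 1, 0, 2, 3, 0, 2, 10, 0, 12, 4, 16, 17, 9, 6, 0, 7,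
    15, 8, 0, 15, 18, 19, 0, 9, 14, 12, 11, 0, 10, 13, 19, 14, 0, 17, 16, 18, 13, 0]
  gA := 4
  gB := 40
  fin := 0
  sid := [0, 1, 2, 3, 4, 5, 6, 1, 0, 7, 8, 9, 6, 5, 10, 11, 12, 4, 5, 1, 2, 4, 3, 2, 10, 13, 14, 12, 15, 16, 17, 9,
    6, 0, 7, 9, 8, 7, 15, 18, 19, 17, 19, 14, 12, 11, 10, 13, 18, 14, 19, 17, 16, 15, 18, 13]
  off := [(0, 0), (0, 0), (0, 0), (0, 0), (0, 0), (0, 0), (0, 0), (0, 0), (0, 0), (0, 0), (0, 0), (0, 0), (-1, 0),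
    (-1, 0), (0, 0), (0, 0), (0, 0), (-1, 0), (-1, 0), (0, 0), (0, 0), (0, 0), (0, 0), (0, 0), (0, 0), (0, 0), (0,
    0), (1, 0), (0, 0), (0, 0), (0, 0), (1, 0), (0, 0), (0, 0), (0, 0), (0, 0), (0, 0), (0, 0), (0, 0), (0, 0), (0,
    0), (-1, 0), (-1, -1), (-1, 0), (0, 0), (0, 0), (0, 0), (0, 0), (-1, -1), (0, 0), (0, -1), (-1, -1), (-1, -1),
    (-1, -1), (-1, -1), (0, 0)]

/-- glued arcs and equations -/
def tord7k_43 : TorT :=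
  ⟨[(0, 0, true), (0, 3, true), (1, 2, true), (1, 5, false), (2, 6, false), (3, 4, false), (4, 6, false), (5, 5,
    true)],
    [([0, 0, 0, 0, 1, 1, 1], 2), ([0, 0, 2, 0, 0, 0, 1], 2), ([0, 1, 0, 1, 0, 0, 0], 2), ([1, 0, 0, 1, 1, 0, 0], 2),
    ([1, 1, 0, 0, 0, 1, 0], 2)]⟩

theorem tord7k_43_ok : tord7k_43.OK 7 := TT.leaf_ok (T := ttd7k_43) (by decide +kernel)

end Pool.Agent.Lib_MP_fa6e45
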