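import Pool.Agent.Lib_MP_fa6e45.CT5

/-!
MP_fa6e45_co, stage 9: straight-side patterns with `7` sides, tables of tori (generated by a program).
-/

namespace Pool.Agent.Lib_MP_fa6e45

/-- the torus -/
def ttd7k_44 : TT where
  k := 8
  rf := [false, true, false, true, false, false, true, true]
  tau := [8, 15, 23, 33, 38, 13, 7, 6, 0, 16, 46, 25, 52, 5, 22, 1, 9, 40, 31, 27, 21, 20, 14, 2, 53, 11, 45, 19, 55,
    49, 44, 18, 39, 3, 54, 48, 42, 51, 4, 32, 17, 47, 36, 50, 30, 26, 10, 41, 35, 29, 43, 37, 12, 24, 34, 28]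
  par := [0, 0, 1, 2, 3, 4, 10, 12]
  stars := [[0, 8], [1, 9, 16], [2, 15, 23], [3, 24, 54, 34], [4, 33, 39], [5, 38, 52, 13], [6, 7], [10, 47, 41, 17],
    [11, 26, 46], [12, 53, 25], [14, 22], [18, 40, 32], [19, 31, 45, 27], [20, 21], [28, 55], [29, 49], [30, 50, 44],
    [35, 48], [36, 42], [37, 43, 51]]
  word := [[], [], [], [], [], [1, 3, 0, 2], [1, 3, 0, 2], [3, 1, 2, 0], [], [], [], [3], [], [3, 1, 2, 0], [], [],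
    [], [0], [0], [], [], [], [], [], [2], [2], [2], [], [2], [2], [1, 2], [1], [], [], [2], [1], [1], [1, 3, 0, 2],
    [], [], [1], [1], [0], [3, 0, 2], [3, 0], [3], [], [0], [0], [3], [3, 1, 2], [3, 1, 2, 0], [], [3], [3], [3]]
  rank := [0, 0, 0, 0, 0, 7, 8, 8, 0, 1, 0, 1, 0, 7, 1, 0, 1, 0, 2, 3, 2, 2, 1, 0, 0, 1, 2, 3, 2, 3, 4, 2, 1, 0, 1,
    3, 4, 6, 0, 1, 0, 2, 4, 5, 4, 2, 0, 2, 3, 3, 5, 6, 0, 0, 1, 2]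
  just := [0, 0, 0, 0, 0, 5, 6, 6, 0, 1, 0, 9, 0, 5, 2, 0, 1, 0, 11, 13, 10, 10, 2, 0, 0, 9, 8, 13, 14, 15, 12, 11,
    4, 0, 3, 17, 18, 19, 0, 4, 0, 7, 18, 16, 12, 8, 0, 7, 17, 15, 16, 19, 0, 0, 3, 14]
  gA := 17
  gB := 24
  fin := 0
  sid := [0, 1, 2, 3, 4, 5, 6, 6, 0, 1, 7, 8, 9, 5, 10, 2, 1, 7, 11, 12, 13, 13, 10, 2, 3, 9, 8, 12, 14, 15, 16, 12,
    11, 4, 3, 17, 18, 19, 5, 4, 11, 7, 18, 19, 16, 12, 8, 7, 17, 15, 16, 19, 5, 9, 3, 14]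
  off := [(0, 0), (0, 0), (0, 0), (0, 0), (0, 0), (0, 0), (0, 0), (0, 0), (0, 0), (0, 0), (0, 0), (0, 0), (0, 0), (0,
    0), (0, 0), (0, 0), (0, 0), (0, 0), (0, 0), (0, 0), (0, 0), (0, 0), (0, 0), (0, 0), (0, 0), (0, 1), (0, 1), (0,
    0), (0, 0), (0, 0), (0, 0), (-1, 0), (-1, 0), (0, 0), (0, 0), (0, 0), (0, 0), (0, 0), (0, 0), (0, 0), (-1, 0),
    (-1, 0), (1, 0), (1, 0), (1, -1), (0, -1), (0, 0), (0, 0), (1, 0), (0, -1), (0, -1), (0, 0), (0, 0), (0, 0), (0,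
    -1), (0, -1)]

/-- glued arcs and equations -/
def tord7k_44 : TorT :=
  ⟨[(0, 1, false), (0, 6, false), (1, 1, true), (2, 2, false), (3, 4, true), (3, 5, true), (4, 4, true), (5, 6,
    false)],
    [([0, 0, 0, 0, 2, 1, 0], 2), ([0, 0, 0, 2, 0, 1, 1], 2), ([0, 1, 2, 0, 0, 0, 0], 2), ([1, 0, 0, 0, 0, 0, 1], 2),
    ([1, 1, 0, 0, 0, 0, 0], 2)]⟩

theorem tord7k_44_ok : tord7k_44.OK 7 := TT.leaf_ok (T := ttd7k_44) (by decide +kernel)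

/-- the torus -/
def ttd7k_45 : TT where
  k := 4
  rf := [false, false, true, true]
  tau := [7, 16, 9, 24, 19, 21, 22, 0, 23, 2, 17, 26, 14, 15, 12, 13, 1, 10, 25, 4, 27, 5, 6, 8, 3, 18, 11, 20]
  par := [0, 0, 1, 3]
  stars := [[0, 23, 8], [1, 7, 16], [2, 17, 10], [3, 9, 24], [4, 25, 19], [5, 20, 21], [6, 22], [11, 18, 26], [12,
    27, 14], [13, 15]]
  word := [[], [], [2, 1], [], [3], [3, 0], [3, 0], [], [0, 3], [0, 3], [0, 3], [0], [], [], [], [], [], [2, 1], [2],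
    [2], [0], [1, 2], [1, 2], [2, 1], [], [3], [1], [1]]
  rank := [0, 0, 2, 0, 1, 4, 5, 0, 3, 2, 1, 0, 2, 1, 2, 1, 0, 1, 0, 1, 3, 4, 5, 3, 0, 0, 0, 3]
  just := [0, 0, 2, 0, 4, 5, 6, 0, 3, 2, 7, 0, 9, 1, 9, 1, 0, 7, 0, 4, 8, 5, 6, 3, 0, 0, 0, 8]
  gA := 11
  gB := 18
  fin := 0
  sid := [0, 1, 2, 3, 4, 5, 6, 1, 0, 3, 2, 7, 8, 9, 8, 9, 1, 2, 7, 4, 5, 5, 6, 0, 3, 4, 7, 8]
  off := [(0, 0), (0, 0), (0, 0), (0, 0), (0, 0), (0, 0), (0, 0), (0, 0), (0, 0), (1, -1), (1, -1), (0, 0), (0, 0),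
    (0, 0), (0, 0), (0, 0), (0, 0), (0, 0), (-1, 1), (0, 1), (0, 1), (-1, 1), (-1, 1), (-1, 1), (0, 0), (0, 0), (-1,
    0), (-1, 0)]

/-- glued arcs and equations -/
def tord7k_45 : TorT :=
  ⟨[(0, 0, true), (0, 5, false), (1, 2, false), (1, 6, false), (2, 2, true), (3, 3, false), (4, 4, true), (4, 5,
    false), (6, 6, true)],
    [([0, 0, 0, 0, 2, 1, 0], 2), ([0, 0, 1, 2, 0, 0, 0], 2), ([0, 1, 0, 0, 0, 0, 1], 2), ([1, 0, 0, 0, 0, 1, 1], 2),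
    ([1, 1, 1, 0, 0, 0, 0], 2)]⟩

theorem tord7k_45_ok : tord7k_45.OK 7 := TT.leaf_ok (T := ttd7k_45) (by decide +kernel)

/-- the torus -/
def ttd7k_46 : TT where
  k := 8
  rf := [false, false, true, false, false, true, true, true]
  tau := [9, 8, 7, 19, 24, 29, 28, 2, 1, 0, 40, 31, 22, 21, 48, 47, 37, 53, 27, 3, 25, 13, 12, 30, 4, 20, 52, 18, 6,
    5, 23, 11, 41, 45, 39, 55, 54, 16, 46, 34, 10, 32, 51, 50, 49, 33, 38, 15, 14, 44, 43, 42, 26, 17, 36, 35]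
  par := [0, 0, 3, 4, 5, 10, 14, 17]
  stars := [[0, 28, 40, 10], [1, 9], [2, 8], [3, 7, 21, 19], [4, 20, 25], [5, 24, 30], [6, 29], [11, 41, 32], [12,
    31, 23], [13, 22], [14, 42, 52, 26], [15, 48], [16, 38, 47], [17, 54, 37], [18, 27, 53], [33, 35, 49, 45], [34,
    46, 39], [36, 55], [43, 51], [44, 50]]
  word := [[], [], [], [], [], [], [], [], [], [], [], [0], [0], [0], [], [], [3], [], [0], [], [], [1], [1], [], [],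
    [], [1], [1], [], [], [], [1], [1], [1, 2, 0], [1, 2, 0, 3], [2], [2], [2], [2], [2, 1, 3, 0], [], [0], [1], [1],
    [1], [1, 3, 0], [3], [], [], [0], [0], [0], [0], [], [3], [3]]
  rank := [0, 1, 2, 0, 0, 0, 1, 2, 1, 0, 0, 5, 4, 3, 0, 1, 1, 0, 0, 0, 1, 3, 4, 1, 0, 1, 1, 0, 1, 0, 1, 5, 6, 7, 8,
    1, 0, 1, 2, 8, 0, 6, 2, 3, 4, 7, 2, 1, 0, 4, 3, 2, 1, 0, 0, 1]
  just := [0, 1, 2, 0, 0, 0, 6, 2, 1, 0, 0, 8, 9, 3, 0, 11, 13, 0, 0, 0, 4, 3, 9, 5, 0, 4, 14, 0, 6, 0, 5, 8, 7, 15,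
    16, 17, 0, 13, 12, 16, 0, 7, 10, 18, 19, 15, 12, 11, 0, 19, 18, 10, 14, 0, 0, 17]
  gA := 18
  gB := 36
  fin := 0
  sid := [0, 1, 2, 3, 4, 5, 6, 3, 2, 1, 0, 7, 8, 9, 10, 11, 12, 13, 14, 3, 4, 3, 9, 8, 5, 4, 10, 14, 0, 6, 5, 8, 7,
    15, 16, 15, 17, 13, 12, 16, 0, 7, 10, 18, 19, 15, 16, 12, 11, 15, 19, 18, 10, 14, 13, 17]
  off := [(0, 0), (0, 0), (0, 0), (0, 0), (0, 0), (0, 0), (0, 0), (0, 0), (0, 0), (0, 0), (0, 0), (0, 0), (0, 0), (0,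
    0), (0, 0), (0, 0), (0, 0), (0, 0), (0, 0), (0, 0), (0, 0), (-1, 0), (-1, 0), (-1, 0), (0, 0), (0, 0), (0, 0),
    (-1, 0), (0, 0), (0, 0), (0, 0), (-1, 0), (-1, 0), (0, 0), (0, 0), (1, 0), (0, 0), (0, 1), (0, 1), (0, 0), (0,
    0), (0, 0), (0, 0), (0, 0), (0, 0), (0, -1), (0, -1), (0, 0), (0, 0), (1, -1), (1, 0), (1, 0), (1, 0), (0, 0),
    (0, 0), (0, -1)]

/-- glued arcs and equations -/
def tord7k_46 : TorT :=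
  ⟨[(0, 2, true), (0, 6, true), (1, 1, true), (1, 5, true), (2, 2, true), (3, 4, true), (3, 5, false), (4, 6, false)],
    [([0, 0, 0, 0, 2, 0, 1], 2), ([0, 0, 1, 1, 0, 1, 0], 2), ([0, 1, 0, 0, 0, 0, 1], 2), ([0, 1, 1, 0, 0, 0, 0], 2),
    ([2, 0, 0, 1, 0, 1, 0], 2)]⟩

theorem tord7k_46_ok : tord7k_46.OK 7 := TT.leaf_ok (T := ttd7k_46) (by decide +kernel)

/-- the torus -/
def ttd7k_47 : TT where
  k := 8
  rf := [false, false, false, true, false, true, true, true]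
  tau := [7, 14, 24, 25, 13, 12, 11, 0, 28, 38, 39, 6, 5, 4, 1, 26, 27, 44, 45, 22, 23, 43, 19, 20, 2, 3, 15, 16, 8,
    40, 41, 51, 52, 36, 37, 50, 33, 34, 9, 10, 29, 30, 49, 21, 17, 18, 55, 54, 53, 42, 35, 31, 32, 48, 47, 46]
  par := [0, 0, 1, 2, 8, 9, 17, 31]
  stars := [[0, 11, 40, 29, 8], [1, 7, 4, 26, 15], [2, 14, 24], [3, 25], [5, 13], [6, 12], [9, 28, 38], [10, 39],
    [16, 27], [17, 21, 44], [18, 45], [19, 46, 49, 43, 22], [20, 23], [30, 41], [31, 35, 51], [32, 52], [33, 53, 42,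
    50, 36], [34, 37], [47, 55], [48, 54]]
  word := [[], [], [], [], [0], [0], [0], [], [], [], [], [1], [1], [1], [], [1], [1], [], [], [], [], [0], [], [],
    [], [], [0], [0], [], [3, 0, 2], [3, 0, 2], [], [], [], [], [3, 1, 2], [], [], [], [], [3, 1, 2], [3, 1, 2], [1,
    2], [1], [], [], [2], [2], [2], [3, 0], [3, 0, 2], [], [], [3], [3], [3]]
  rank := [0, 0, 0, 1, 3, 4, 5, 0, 0, 0, 1, 5, 4, 3, 0, 2, 1, 0, 1, 2, 1, 0, 2, 1, 0, 1, 2, 1, 0, 6, 5, 0, 1, 2, 1,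
    4, 2, 1, 0, 1, 6, 5, 3, 0, 0, 1, 1, 0, 1, 3, 4, 0, 1, 1, 0, 1]
  just := [0, 0, 0, 3, 1, 4, 5, 0, 0, 0, 7, 5, 4, 1, 0, 8, 9, 0, 10, 12, 2, 0, 12, 2, 0, 3, 8, 9, 0, 13, 14, 0, 15,
    17, 6, 16, 17, 6, 0, 7, 13, 14, 11, 0, 0, 10, 18, 0, 19, 11, 16, 0, 15, 19, 0, 18]
  gA := 21
  gB := 47
  fin := 0
  sid := [0, 1, 2, 3, 1, 4, 5, 1, 0, 6, 7, 0, 5, 4, 2, 1, 8, 9, 10, 11, 12, 9, 11, 12, 2, 3, 1, 8, 6, 0, 13, 14, 15,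
    16, 17, 14, 16, 17, 6, 7, 0, 13, 16, 11, 9, 10, 11, 18, 19, 11, 16, 14, 15, 16, 19, 18]
  off := [(0, 0), (0, 0), (0, 0), (0, 0), (1, 0), (0, 0), (0, 0), (0, 0), (0, 0), (0, 0), (0, 0), (-1, 0), (-1, 0),
    (-1, 0), (0, 0), (0, 0), (0, 0), (0, 0), (0, 0), (0, 0), (0, 0), (1, 0), (0, 0), (0, 0), (0, 0), (0, 0), (1, 0),
    (1, 0), (0, 0), (0, 0), (0, 0), (0, 0), (0, 0), (0, 0), (0, 0), (-1, 0), (0, 0), (0, 0), (0, 0), (0, 0), (-1, 0),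
    (-1, 0), (0, 1), (-1, 0), (0, 0), (0, 0), (0, 0), (0, 0), (0, 0), (0, -1), (1, 0), (0, 0), (0, 0), (0, 0), (0,
    -1), (0, -1)]

/-- glued arcs and equations -/
def tord7k_47 : TorT :=
  ⟨[(0, 0, true), (0, 1, true), (1, 5, false), (2, 3, false), (2, 6, false), (3, 4, false), (4, 6, true), (5, 5,
    true)],
    [([0, 0, 0, 0, 0, 1, 1], 2), ([0, 0, 0, 1, 1, 0, 0], 2), ([0, 0, 1, 0, 0, 0, 1], 2), ([1, 0, 1, 1, 0, 0, 0], 2),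
    ([1, 2, 0, 0, 1, 1, 0], 2)]⟩

theorem tord7k_47_ok : tord7k_47.OK 7 := TT.leaf_ok (T := ttd7k_47) (by decide +kernel)

/-- the torus -/
def ttd7k_48 : TT where
  k := 4
  rf := [false, false, false, false]
  tau := [7, 20, 9, 16, 15, 12, 21, 0, 27, 2, 23, 22, 5, 14, 13, 4, 3, 26, 25, 24, 1, 6, 11, 10, 19, 18, 17, 8]
  par := [0, 0, 1, 6]
  stars := [[0, 21, 8], [1, 7, 14], [2, 20, 24, 10], [3, 9, 27, 17], [4, 16], [5, 15, 13], [6, 12, 22], [11, 23],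
    [18, 26], [19, 25]]
  word := [[], [], [2, 0], [0], [0], [0], [], [], [1, 3, 0, 2], [1, 3], [1], [1], [1], [], [], [1], [1], [2], [2],
    [2], [], [], [0], [0], [3], [3], [3], [3, 1, 2, 0]]
  rank := [0, 0, 3, 3, 2, 0, 0, 0, 4, 3, 2, 1, 0, 1, 1, 2, 3, 1, 0, 1, 0, 0, 1, 2, 1, 0, 1, 4]
  just := [0, 0, 2, 4, 5, 0, 0, 0, 3, 2, 7, 6, 0, 1, 1, 5, 4, 8, 0, 9, 0, 0, 6, 7, 9, 0, 8, 3]
  gA := 5
  gB := 18
  fin := 0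
  sid := [0, 1, 2, 3, 4, 5, 6, 1, 0, 3, 2, 7, 6, 5, 1, 5, 4, 3, 8, 9, 2, 0, 6, 7, 2, 9, 8, 3]
  off := [(0, 0), (0, 0), (0, 0), (0, 0), (0, 0), (0, 0), (0, 0), (0, 0), (0, 0), (-1, -1), (-1, -1), (0, 0), (-1,
    0), (-1, 0), (0, 0), (-1, 0), (-1, 0), (-1, 0), (0, 0), (0, 0), (0, 0), (0, 0), (0, 0), (1, 0), (0, -1), (0, -1),
    (0, -1), (-1, -1)]

/-- glued arcs and equations -/
def tord7k_48 : TorT :=
  ⟨[(0, 0, true), (0, 6, true), (1, 4, true), (1, 6, true), (2, 2, true), (2, 3, true), (3, 5, true), (4, 4, true),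
    (5, 5, true)],
    [([0, 0, 0, 0, 1, 1, 0], 2), ([0, 0, 1, 0, 1, 0, 0], 2), ([0, 0, 1, 2, 0, 0, 1], 2), ([0, 1, 0, 0, 0, 1, 1], 2),
    ([2, 1, 0, 0, 0, 0, 0], 2)]⟩

theorem tord7k_48_ok : tord7k_48.OK 7 := TT.leaf_ok (T := ttd7k_48) (by decide +kernel)

/-- the torus -/
def ttd7k_49 : TT where
  k := 8
  rf := [false, false, false, true, true, false, true, true]
  tau := [7, 20, 23, 10, 31, 32, 35, 0, 41, 30, 3, 24, 25, 14, 13, 26, 44, 53, 54, 22, 1, 55, 19, 2, 11, 12, 15, 43,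
    48, 40, 9, 4, 5, 36, 50, 6, 33, 51, 46, 47, 29, 8, 49, 27, 16, 52, 38, 39, 28, 42, 34, 37, 45, 17, 18, 21]
  par := [0, 0, 1, 2, 4, 6, 16, 17]
  stars := [[0, 35, 8], [1, 7, 14], [2, 20, 23], [3, 24, 11], [4, 10, 31], [5, 32], [6, 33, 36], [9, 41, 30], [12,
    25], [13, 26, 15], [16, 27, 44], [17, 45, 53], [18, 54], [19, 55, 22], [21, 49, 43], [28, 42, 50], [29, 40, 48],
    [34, 51, 37], [38, 52, 46], [39, 47]]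
  word := [[], [], [], [1], [], [], [], [], [0, 2, 1, 3], [0], [0], [0], [0], [], [], [0], [], [], [], [], [], [],
    [], [], [1], [1], [1], [1], [2, 1], [2, 1, 3], [1], [], [], [], [2], [], [], [2], [2], [2], [2, 0, 3], [2, 0, 3,
    1], [0], [0], [], [], [3], [3], [0, 3], [1], [3], [3], [], [], [], []]
  rank := [0, 0, 0, 4, 0, 1, 0, 0, 6, 5, 4, 3, 2, 1, 1, 0, 0, 0, 1, 1, 0, 2, 1, 0, 3, 2, 0, 1, 4, 5, 5, 0, 1, 2, 3,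
    0, 2, 0, 2, 3, 5, 6, 3, 1, 0, 1, 2, 3, 4, 3, 3, 0, 1, 0, 1, 2]
  just := [0, 0, 0, 3, 0, 5, 0, 0, 7, 4, 3, 8, 9, 1, 1, 0, 0, 0, 12, 2, 0, 13, 2, 0, 8, 9, 0, 10, 15, 16, 4, 0, 5, 6,
    17, 0, 6, 0, 18, 19, 16, 7, 14, 10, 0, 11, 18, 19, 15, 14, 17, 0, 11, 0, 12, 13]
  gA := 15
  gB := 37
  fin := 0
  sid := [0, 1, 2, 3, 4, 5, 6, 1, 0, 7, 4, 3, 8, 9, 1, 9, 10, 11, 12, 13, 2, 14, 13, 2, 3, 8, 9, 10, 15, 16, 7, 4, 5,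
    6, 17, 0, 6, 17, 18, 19, 16, 7, 15, 14, 10, 11, 18, 19, 16, 14, 15, 17, 18, 11, 12, 13]
  off := [(0, 0), (0, 0), (0, 0), (0, 0), (0, 0), (0, 0), (0, 0), (0, 0), (0, 0), (0, 0), (1, 0), (1, 0), (0, 0), (0,
    0), (0, 0), (0, 0), (0, 0), (0, 0), (0, 0), (0, 0), (0, 0), (0, 0), (0, 0), (0, 0), (0, 0), (-1, 0), (-1, 0),
    (-1, 0), (0, 0), (0, 0), (-1, 0), (0, 0), (0, 0), (0, 0), (0, 0), (0, 0), (0, 0), (0, 0), (0, 0), (0, 0), (1, 0),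
    (0, 0), (1, -1), (1, 0), (0, 0), (0, 0), (0, -1), (0, -1), (1, -1), (0, 0), (0, -1), (0, -1), (0, -1), (0, 0),
    (0, 0), (0, 0)]

/-- glued arcs and equations -/
def tord7k_49 : TorT :=
  ⟨[(0, 0, true), (0, 6, true), (1, 5, false), (1, 6, true), (2, 2, false), (3, 3, true), (3, 4, false), (4, 5,
    false)],
    [([0, 0, 0, 0, 1, 1, 0], 2), ([0, 0, 0, 2, 1, 0, 0], 2), ([0, 0, 2, 0, 0, 0, 1], 2), ([0, 1, 0, 0, 0, 1, 1], 2),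
    ([2, 1, 0, 0, 0, 0, 0], 2)]⟩

theorem tord7k_49_ok : tord7k_49.OK 7 := TT.leaf_ok (T := ttd7k_49) (by decide +kernel)

/-- the torus -/
def ttd7k_50 : TT where
  k := 4
  rf := [false, false, true, true]
  tau := [8, 18, 10, 21, 15, 25, 26, 17, 0, 27, 2, 19, 20, 23, 22, 4, 24, 7, 1, 11, 12, 3, 14, 13, 16, 5, 6, 9]
  par := [0, 0, 1, 3]
  stars := [[0, 27, 9], [1, 8, 18], [2, 19, 11], [3, 10, 21], [4, 22, 15], [5, 16, 25], [6, 26], [7, 24, 17], [12,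
    20], [13, 14, 23]]
  word := [[], [], [1], [], [3, 0], [3, 0, 2], [3, 0, 2], [], [], [0], [0], [0], [0], [2], [1, 2], [1, 2], [2], [],
    [], [1], [1], [], [3, 0], [3], [3], [3, 1, 2], [3, 1, 2], [1]]
  rank := [0, 0, 2, 0, 2, 3, 4, 1, 0, 3, 2, 1, 0, 0, 1, 2, 2, 1, 0, 1, 0, 0, 1, 0, 2, 3, 4, 3]
  just := [0, 0, 2, 0, 4, 5, 6, 1, 0, 3, 2, 8, 0, 0, 9, 4, 7, 1, 0, 8, 0, 0, 9, 0, 7, 5, 6, 3]
  gA := 12
  gB := 13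
  fin := 0
  sid := [0, 1, 2, 3, 4, 5, 6, 7, 1, 0, 3, 2, 8, 9, 9, 4, 5, 7, 1, 2, 8, 3, 4, 9, 7, 5, 6, 0]
  off := [(0, 0), (0, 0), (0, 0), (0, 0), (0, 0), (0, 0), (0, 0), (0, 0), (0, 0), (0, 0), (1, 0), (1, 0), (0, 0), (0,
    0), (-1, 0), (-1, 1), (-1, 1), (0, 0), (0, 0), (0, 0), (-1, 0), (0, 0), (0, 0), (0, -1), (0, -1), (-1, 0), (-1,
    0), (-1, 0)]

/-- glued arcs and equations -/
def tord7k_50 : TorT :=
  ⟨[(0, 1, true), (0, 3, false), (1, 4, false), (2, 3, true), (2, 6, false), (4, 5, false), (5, 6, false)],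
    [([0, 0, 0, 0, 0, 1, 1], 2), ([0, 0, 1, 0, 1, 1, 0], 2), ([0, 2, 0, 0, 1, 0, 0], 2), ([1, 0, 0, 2, 0, 0, 0], 2),
    ([1, 0, 1, 0, 0, 0, 1], 2)]⟩

theorem tord7k_50_ok : tord7k_50.OK 7 := TT.leaf_ok (T := ttd7k_50) (by decide +kernel)

/-- the torus -/
def ttd7k_51 : TT where
  k := 4
  rf := [false, false, true, true]
  tau := [7, 8, 14, 25, 26, 12, 20, 0, 1, 21, 18, 19, 5, 27, 2, 24, 23, 22, 10, 11, 6, 9, 17, 16, 15, 3, 4, 13]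
  par := [0, 0, 2, 3]
  stars := [[0, 14, 2, 8], [1, 7, 21, 9], [3, 15, 25], [4, 26], [5, 27, 13], [6, 12, 20], [10, 22, 18], [11, 19],
    [16, 24], [17, 23]]
  word := [[], [1, 3], [], [], [], [0], [0, 2], [], [2, 0], [2], [2], [2], [1], [1], [], [], [], [], [3], [3], [3,
    1], [3], [], [], [], [], [], [0]]
  rank := [0, 5, 0, 0, 1, 0, 2, 0, 5, 4, 0, 1, 0, 2, 0, 1, 2, 3, 0, 1, 2, 4, 3, 2, 1, 0, 1, 2]
  just := [0, 1, 0, 0, 3, 0, 5, 0, 1, 6, 0, 7, 0, 4, 0, 2, 8, 9, 0, 7, 5, 6, 9, 8, 2, 0, 3, 4]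
  gA := 5
  gB := 10
  fin := 0
  sid := [0, 1, 0, 2, 3, 4, 5, 1, 0, 1, 6, 7, 5, 4, 0, 2, 8, 9, 6, 7, 5, 1, 6, 9, 8, 2, 3, 4]
  off := [(0, 0), (0, 0), (-1, -1), (0, 0), (0, 0), (0, 0), (0, 0), (0, 0), (0, 0), (1, 1), (0, 0), (0, 0), (-1, 0),
    (-1, 0), (-1, -1), (0, 0), (0, 0), (0, 0), (0, -1), (0, -1), (-1, -1), (1, 0), (0, -1), (0, 0), (0, 0), (0, 0),
    (0, 0), (0, 0)]

/-- glued arcs and equations -/
def tord7k_51 : TorT :=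
  ⟨[(0, 0, true), (0, 2, false), (1, 1, true), (1, 3, true), (2, 2, true), (3, 4, false), (4, 5, false), (5, 5,
    true), (6, 6, false)],
    [([0, 0, 0, 0, 0, 1, 2], 2), ([0, 0, 0, 0, 1, 1, 0], 2), ([0, 0, 1, 1, 0, 0, 0], 2), ([0, 1, 0, 1, 1, 0, 0], 2),
    ([2, 1, 1, 0, 0, 0, 0], 2)]⟩

theorem tord7k_51_ok : tord7k_51.OK 7 := TT.leaf_ok (T := ttd7k_51) (by decide +kernel)

/-- the torus -/
def ttd7k_52 : TT where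
  k := 4
  rf := [false, true, false, true]
  tau := [10, 4, 16, 17, 1, 21, 22, 19, 20, 23, 0, 27, 26, 25, 24, 18, 2, 3, 15, 7, 8, 5, 6, 9, 14, 13, 12, 11]
  par := [0, 0, 2, 5]
  stars := [[0, 23, 10], [1, 11, 21, 5], [2, 4, 17], [3, 16, 18], [6, 22], [7, 19, 15, 25], [8, 20], [9, 24, 14],
    [12, 27], [13, 26]]
  word := [[], [0], [], [1], [1], [], [], [2], [2], [2, 1, 3, 0], [], [0], [0], [0], [1, 3, 0], [1], [], [0], [0],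
    [3], [3], [], [], [1, 2, 0, 3], [1, 2, 0], [1], [1], [1]]
  rank := [0, 0, 0, 1, 0, 0, 1, 0, 1, 5, 0, 1, 2, 3, 4, 2, 0, 1, 2, 0, 1, 0, 1, 5, 4, 3, 2, 1]
  just := [0, 0, 0, 2, 0, 0, 4, 0, 6, 7, 0, 1, 8, 9, 5, 3, 0, 2, 3, 0, 6, 0, 4, 7, 5, 9, 8, 1]
  gA := 1
  gB := 7
  fin := 0
  sid := [0, 1, 2, 3, 2, 1, 4, 5, 6, 7, 0, 1, 8, 9, 7, 5, 3, 2, 3, 5, 6, 1, 4, 0, 7, 5, 9, 8]
  off := [(0, 0), (0, 0), (0, 0), (0, 0), (-1, 0), (-1, 0), (0, 0), (0, 0), (0, 0), (0, 0), (0, 0), (0, 0), (0, 0),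
    (0, 0), (0, -1), (-1, -1), (0, 0), (0, 0), (1, 0), (0, -1), (0, -1), (-1, 0), (0, 0), (0, 0), (0, 0), (-1, 0),
    (-1, 0), (-1, 0)]

/-- glued arcs and equations -/
def tord7k_52 : TorT :=
  ⟨[(0, 3, false), (0, 5, false), (1, 4, true), (1, 6, false), (2, 2, true), (3, 3, true), (4, 6, true), (5, 5,
    true)],
    [([0, 0, 0, 0, 0, 1, 1], 2), ([0, 0, 1, 1, 1, 0, 0], 2), ([0, 1, 0, 0, 0, 0, 1], 2), ([1, 0, 1, 1, 0, 0, 0], 2),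
    ([1, 1, 0, 0, 1, 1, 0], 2)]⟩

theorem tord7k_52_ok : tord7k_52.OK 7 := TT.leaf_ok (T := ttd7k_52) (by decide +kernel)

/-- the torus -/
def ttd7k_53 : TT where
  k := 8
  rf := [false, false, false, true, true, true, true, false]
  tau := [13, 12, 16, 22, 23, 19, 31, 32, 38, 39, 48, 28, 1, 0, 55, 54, 2, 29, 30, 5, 24, 53, 3, 4, 20, 49, 36, 35,
    11, 17, 18, 6, 7, 43, 42, 27, 26, 44, 8, 9, 47, 52, 34, 33, 37, 50, 51, 40, 10, 25, 45, 46, 41, 21, 15, 14]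
  par := [0, 0, 2, 3, 6, 8, 10, 14]
  stars := [[0, 32, 7], [1, 13], [2, 12, 29, 17], [3, 16, 54, 22], [4, 23], [5, 24, 20], [6, 19, 31], [8, 33, 44,
    38], [9, 39], [10, 40, 48], [11, 42, 28], [14, 25, 49], [15, 55], [18, 30], [21, 53, 35], [26, 37, 45, 50], [27,
    36], [34, 43], [41, 52, 47], [46, 51]]
  word := [[], [], [], [], [], [1], [], [2, 1, 3, 0], [], [], [], [0], [], [], [], [], [], [0], [0], [0], [0], [],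
    [], [], [1], [1], [3], [3], [1], [1], [1], [], [1, 2, 0, 3], [1], [1], [2], [2], [2, 1, 3], [], [], [], [2], [0],
    [0], [2, 0, 3], [2], [2], [], [], [0], [3], [3], [3], [], [], []]
  rank := [0, 1, 0, 0, 1, 1, 0, 6, 0, 1, 0, 2, 1, 0, 0, 1, 0, 1, 0, 1, 2, 2, 0, 1, 2, 3, 4, 3, 2, 1, 0, 0, 6, 4, 3,
    3, 4, 5, 0, 1, 2, 0, 3, 4, 5, 4, 3, 2, 0, 3, 4, 3, 0, 2, 1, 0]
  just := [0, 1, 0, 0, 4, 6, 0, 7, 0, 8, 0, 2, 1, 0, 0, 12, 0, 13, 0, 6, 5, 3, 0, 4, 5, 11, 16, 14, 2, 13, 0, 0, 7,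
    17, 10, 14, 16, 15, 0, 8, 9, 0, 10, 17, 15, 19, 18, 9, 0, 11, 19, 18, 0, 3, 12, 0]
  gA := 18
  gB := 41
  fin := 0
  sid := [0, 1, 2, 3, 4, 5, 6, 0, 7, 8, 9, 10, 2, 1, 11, 12, 3, 2, 13, 6, 5, 14, 3, 4, 5, 11, 15, 16, 10, 2, 13, 6,
    0, 7, 17, 14, 16, 15, 7, 8, 9, 18, 10, 17, 7, 15, 19, 18, 9, 11, 15, 19, 18, 14, 3, 12]
  off := [(0, 0), (0, 0), (0, 0), (0, 0), (0, 0), (0, 0), (0, 0), (0, 0), (0, 0), (0, 0), (0, 0), (0, 0), (0, 0), (0,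
    0), (0, 0), (0, 0), (0, 0), (0, 0), (0, 0), (1, 0), (1, 0), (0, 0), (0, 0), (0, 0), (0, 0), (-1, 0), (0, 0), (0,
    0), (-1, 0), (-1, 0), (-1, 0), (0, 0), (0, 0), (0, 0), (0, 0), (0, 1), (0, 1), (0, 1), (0, 0), (0, 0), (0, 0),
    (0, 0), (0, 0), (1, 0), (1, 0), (1, 1), (0, 0), (0, 0), (0, 0), (0, 0), (1, 0), (0, -1), (0, -1), (0, 0), (0, 0),
    (0, 0)]

/-- glued arcs and equations -/
def tord7k_53 : TorT :=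
  ⟨[(0, 4, false), (0, 6, true), (1, 3, false), (1, 5, true), (2, 2, true), (2, 4, false), (3, 6, false), (5, 5,
    true)],
    [([0, 0, 0, 1, 0, 1, 1], 2), ([0, 0, 1, 0, 1, 0, 0], 2), ([0, 1, 0, 0, 0, 0, 1], 2), ([0, 1, 1, 1, 0, 1, 0], 2),
    ([2, 0, 0, 0, 1, 0, 0], 2)]⟩

theorem tord7k_53_ok : tord7k_53.OK 7 := TT.leaf_ok (T := ttd7k_53) (by decide +kernel)

/-- the torus -/
def ttd7k_54 : TT where
  k := 8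
  rf := [false, true, false, false, true, true, true, false]
  tau := [10, 20, 19, 18, 25, 28, 29, 26, 27, 30, 0, 38, 37, 36, 47, 48, 51, 35, 3, 2, 1, 31, 55, 54, 53, 4, 7, 8, 5,
    6, 9, 21, 45, 44, 43, 17, 13, 12, 11, 46, 49, 50, 52, 34, 33, 32, 39, 14, 15, 40, 41, 16, 42, 24, 23, 22]
  par := [0, 0, 1, 4, 5, 11, 14, 16]
  stars := [[0, 30, 10], [1, 11, 39, 47, 14], [2, 20], [3, 19], [4, 18, 36, 7, 26], [5, 25, 53, 43, 28], [6, 29], [8,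
    27], [9, 31, 21], [12, 38], [13, 37], [15, 48], [16, 42, 52], [17, 51, 35], [22, 32, 46, 40, 49], [23, 55], [24,
    54], [33, 45], [34, 44], [41, 50]]
  word := [[], [], [], [], [], [], [], [2], [2], [2, 0, 3, 1], [], [], [], [], [], [], [], [3], [], [], [], [0, 3,
    1], [0], [0], [0], [], [3], [3], [], [], [0, 2, 1, 3], [0, 2, 1], [0], [0], [0], [2], [], [], [], [], [2], [2],
    [], [1], [1], [1], [], [], [], [3], [3], [], [], [1], [1], [1]]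
  rank := [0, 0, 1, 2, 0, 0, 1, 3, 4, 7, 0, 0, 1, 2, 0, 1, 0, 1, 2, 1, 0, 6, 5, 4, 3, 0, 3, 4, 0, 1, 7, 6, 2, 1, 0,
    1, 2, 1, 0, 1, 1, 0, 2, 0, 1, 2, 1, 0, 1, 1, 0, 0, 2, 3, 4, 5]
  just := [0, 0, 2, 3, 0, 0, 6, 4, 7, 8, 0, 0, 9, 10, 0, 11, 0, 13, 3, 2, 0, 14, 15, 16, 5, 0, 4, 7, 0, 6, 8, 14, 17,
    18, 0, 13, 10, 9, 0, 1, 19, 0, 12, 0, 18, 17, 1, 0, 11, 19, 0, 0, 12, 5, 16, 15]
  gA := 34
  gB := 41
  fin := 0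
  sid := [0, 1, 2, 3, 4, 5, 6, 4, 7, 8, 0, 1, 9, 10, 1, 11, 12, 13, 4, 3, 2, 8, 14, 15, 16, 5, 4, 7, 5, 6, 0, 8, 14,
    17, 18, 13, 4, 10, 9, 1, 14, 19, 12, 5, 18, 17, 14, 1, 11, 14, 19, 13, 12, 5, 16, 15]
  off := [(0, 0), (0, 0), (0, 0), (0, 0), (0, 0), (0, 0), (0, 0), (0, 1), (0, 0), (0, 0), (0, 0), (0, 0), (0, 0), (0,
    0), (0, 0), (0, 0), (0, 0), (0, 0), (0, 0), (0, 0), (0, 0), (0, -1), (0, 0), (0, 0), (0, 0), (0, 0), (0, 0), (0,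
    -1), (0, 0), (0, 0), (0, 0), (0, 0), (0, 1), (0, 0), (0, 0), (0, 1), (0, 1), (0, 0), (0, 0), (0, 0), (-1, 1), (0,
    0), (0, 0), (-1, 0), (-1, 0), (-1, 0), (-1, 1), (0, 0), (0, 0), (-1, 0), (0, -1), (0, 0), (0, 0), (-1, 0), (-1,
    0), (-1, 0)]

/-- glued arcs and equations -/
def tord7k_54 : TorT :=
  ⟨[(0, 3, false), (0, 5, false), (1, 6, false), (1, 6, true), (2, 2, true), (2, 5, true), (3, 4, true), (4, 4,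
    true)],
    [([0, 0, 0, 1, 0, 1, 0], 2), ([0, 0, 1, 0, 0, 0, 1], 2), ([0, 1, 0, 0, 0, 0, 1], 2), ([1, 0, 1, 1, 0, 0, 0], 2),
    ([1, 1, 0, 0, 2, 1, 0], 2)]⟩

theorem tord7k_54_ok : tord7k_54.OK 7 := TT.leaf_ok (T := ttd7k_54) (by decide +kernel)

end Pool.Agent.Lib_MP_fa6e45
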