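import Pool.Agent.Lib_MP_fa6e45.CT5

/-!
MP_fa6e45_co, stage 9: straight-side patterns with `7` sides, tables of tori (generated by a program).
-/

namespace Pool.Agent.Lib_MP_fa6e45

/-- the torus -/
def ttd7k_55 : TT where
  k := 2
  rf := [false, false]
  tau := [10, 6, 13, 12, 8, 7, 1, 5, 4, 11, 0, 9, 3, 2]
  par := [0, 0]
  stars := [[0, 1, 10, 11], [2, 6, 7], [3, 13], [4, 12, 9], [5, 8]]
  word := [[], [0, 3], [0], [0], [2], [2], [2, 1], [3], [3], [3, 0], [], [1, 2], [1], [1]]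
  rank := [0, 2, 1, 0, 0, 1, 2, 1, 0, 1, 0, 1, 0, 1]
  just := [0, 1, 2, 0, 0, 4, 1, 4, 0, 3, 0, 3, 0, 2]
  gA := 3
  gB := 4
  fin := 0
  sid := [0, 0, 1, 2, 3, 4, 1, 1, 4, 3, 0, 0, 3, 2]
  off := [(0, 0), (1, -1), (0, 0), (0, 0), (0, 0), (0, 0), (-1, 1), (-1, 0), (0, -1), (0, -1), (1, -1), (0, 0), (-1,
    0), (-1, 0)]

/-- glued arcs and equations -/
def tord7k_55 : TorT :=
  ⟨[(0, 3, true), (0, 5, true), (1, 4, true), (1, 6, true), (2, 4, true), (2, 6, true), (3, 5, true)],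
    [([0, 0, 0, 1, 0, 0, 1], 2), ([0, 0, 1, 0, 1, 1, 0], 2), ([0, 1, 0, 0, 0, 1, 0], 2), ([1, 0, 1, 0, 0, 0, 1], 2),
    ([1, 1, 0, 1, 1, 0, 0], 2)]⟩

theorem tord7k_55_ok : tord7k_55.OK 7 := TT.leaf_ok (T := ttd7k_55) (by decide +kernel)

/-- the torus -/
def ttd7k_56 : TT where
  k := 4
  rf := [false, false, true, true]
  tau := [13, 18, 25, 26, 15, 22, 23, 24, 19, 20, 21, 16, 17, 0, 27, 4, 11, 12, 1, 8, 9, 10, 5, 6, 7, 2, 3, 14]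
  par := [0, 0, 1, 2]
  stars := [[0, 24, 7], [1, 13, 18], [2, 19, 8, 25], [3, 26], [4, 27, 15], [5, 16, 11, 22], [6, 23], [9, 20], [10,
    14, 21], [12, 17]]
  word := [[], [], [], [], [3], [3, 0, 2], [3, 0, 2], [0], [0], [0], [0, 2], [], [], [], [2], [2], [], [], [], [1],
    [1], [3, 1], [3, 1, 2], [3, 1, 2], [1], [], [], [3]]
  rank := [0, 0, 0, 1, 2, 3, 4, 2, 1, 0, 1, 2, 1, 0, 0, 2, 2, 1, 0, 1, 0, 1, 3, 4, 2, 0, 1, 0]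
  just := [0, 0, 0, 3, 4, 5, 6, 2, 7, 0, 8, 9, 1, 0, 0, 4, 9, 1, 0, 7, 0, 8, 5, 6, 2, 0, 3, 0]
  gA := 9
  gB := 14
  fin := 0
  sid := [0, 1, 2, 3, 4, 5, 6, 0, 2, 7, 8, 5, 9, 1, 8, 4, 5, 9, 1, 2, 7, 8, 5, 6, 0, 2, 3, 4]
  off := [(0, 0), (0, 0), (0, 0), (0, 0), (0, 0), (0, 0), (0, 0), (0, 0), (1, 0), (0, 0), (0, 0), (0, 1), (0, 0), (0,
    0), (-1, 0), (0, 1), (0, 1), (0, 0), (0, 0), (0, 0), (-1, 0), (-1, -1), (-1, 0), (-1, 0), (-1, 0), (0, 0), (0,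
    0), (0, 0)]

/-- glued arcs and equations -/
def tord7k_56 : TorT :=
  ⟨[(0, 3, false), (0, 6, true), (1, 4, false), (1, 5, false), (2, 4, false), (2, 6, false), (3, 5, false)],
    [([0, 0, 0, 1, 0, 1, 0], 2), ([0, 0, 1, 0, 0, 0, 1], 2), ([0, 1, 0, 0, 1, 0, 1], 2), ([0, 1, 1, 0, 1, 1, 0], 2),
    ([2, 0, 0, 1, 0, 0, 0], 2)]⟩

theorem tord7k_56_ok : tord7k_56.OK 7 := TT.leaf_ok (T := ttd7k_56) (by decide +kernel)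

/-- the torus -/
def ttd7k_57 : TT where
  k := 4
  rf := [false, false, true, true]
  tau := [13, 17, 27, 14, 15, 11, 23, 24, 25, 19, 22, 5, 16, 0, 3, 4, 12, 1, 26, 9, 21, 20, 10, 6, 7, 8, 18, 2]
  par := [0, 0, 1, 2]
  stars := [[0, 24, 7], [1, 13, 17], [2, 18, 27], [3, 21, 14], [4, 15], [5, 16, 12], [6, 11, 23], [8, 25], [9, 26,
    19], [10, 20, 22]]
  word := [[], [], [], [0], [0], [0], [0, 2, 1], [2], [2], [2], [2, 1], [1], [], [], [1], [1], [], [], [], [3], [1],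
    [0], [0, 3], [0, 3, 1], [3], [3], [], []]
  rank := [0, 0, 0, 0, 1, 2, 3, 3, 2, 0, 2, 2, 1, 0, 0, 1, 1, 0, 1, 0, 1, 1, 2, 3, 3, 2, 1, 0]
  just := [0, 0, 0, 0, 4, 5, 6, 7, 8, 0, 9, 5, 1, 0, 0, 4, 1, 0, 2, 0, 3, 3, 9, 6, 7, 8, 2, 0]
  gA := 3
  gB := 9
  fin := 0
  sid := [0, 1, 2, 3, 4, 5, 6, 0, 7, 8, 9, 6, 5, 1, 3, 4, 5, 1, 2, 8, 9, 3, 9, 6, 0, 7, 8, 2]
  off := [(0, 0), (0, 0), (0, 0), (0, 0), (0, 0), (0, 0), (0, 0), (0, 0), (0, 0), (0, 0), (0, 0), (-1, 0), (-1, 0),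
    (0, 0), (-1, 0), (-1, 0), (-1, 0), (0, 0), (0, 0), (0, -1), (0, -1), (0, 0), (1, -1), (0, -1), (0, -1), (0, -1),
    (0, -1), (0, 0)]

/-- glued arcs and equations -/
def tord7k_57 : TorT :=
  ⟨[(0, 3, false), (0, 6, true), (1, 3, false), (1, 4, false), (2, 5, false), (2, 6, false), (4, 5, true)],
    [([0, 0, 1, 0, 0, 2, 0], 2), ([0, 0, 1, 0, 1, 0, 1], 2), ([0, 1, 0, 0, 1, 0, 0], 2), ([0, 1, 0, 1, 0, 0, 1], 2),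
    ([2, 0, 0, 1, 0, 0, 0], 2)]⟩

theorem tord7k_57_ok : tord7k_57.OK 7 := TT.leaf_ok (T := ttd7k_57) (by decide +kernel)

/-- the torus -/
def ttd7k_58 : TT where
  k := 8
  rf := [false, false, true, false, false, true, true, true]
  tau := [7, 17, 27, 10, 33, 36, 37, 0, 38, 34, 3, 26, 15, 16, 25, 12, 13, 1, 21, 46, 51, 18, 47, 48, 50, 14, 11, 2,
    39, 54, 55, 43, 35, 4, 9, 32, 5, 6, 8, 28, 53, 44, 49, 31, 41, 52, 19, 22, 23, 42, 24, 20, 45, 40, 29, 30]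
  par := [0, 0, 1, 2, 4, 5, 19, 20]
  stars := [[0, 38, 8], [1, 7, 17], [2, 18, 21], [3, 27, 11], [4, 10, 34], [5, 33, 36], [6, 37], [9, 39, 28], [12,
    26, 15], [13, 16], [14, 25, 51], [19, 47, 22], [20, 52, 46], [23, 48], [24, 42, 50], [29, 40, 54], [30, 55], [31,
    49, 43], [32, 44, 35], [41, 45, 53]]
  word := [[], [], [], [0], [], [], [], [], [1, 2, 0, 3], [1], [1], [1], [], [], [1], [], [], [], [], [], [], [], [],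
    [], [0], [0], [0], [], [2, 0, 3], [2, 0], [2, 0], [2], [], [], [0], [], [], [], [2, 1, 3, 0], [2, 1, 3], [2],
    [2], [0], [3], [3], [], [], [], [], [1], [1], [], [], [3], [1, 3], [1, 3]]
  rank := [0, 0, 0, 4, 0, 0, 1, 0, 8, 5, 4, 3, 2, 1, 1, 2, 1, 0, 1, 0, 0, 1, 2, 3, 0, 1, 3, 0, 7, 6, 5, 0, 1, 0, 5,
    1, 0, 1, 8, 7, 3, 2, 4, 0, 2, 1, 0, 2, 3, 4, 0, 0, 1, 3, 6, 5]
  just := [0, 0, 0, 3, 0, 0, 6, 0, 7, 4, 3, 8, 9, 1, 10, 9, 1, 0, 2, 0, 0, 2, 11, 13, 0, 10, 8, 0, 15, 16, 17, 0, 5,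
    0, 4, 5, 0, 6, 7, 15, 19, 18, 14, 0, 18, 12, 0, 11, 13, 14, 0, 0, 12, 19, 16, 17]
  gA := 24
  gB := 31
  fin := 0
  sid := [0, 1, 2, 3, 4, 5, 6, 1, 0, 7, 4, 3, 8, 9, 10, 8, 9, 1, 2, 11, 12, 2, 11, 13, 14, 10, 8, 3, 7, 15, 16, 17,
    18, 5, 4, 18, 5, 6, 0, 7, 15, 19, 14, 17, 18, 19, 12, 11, 13, 17, 14, 10, 12, 19, 15, 16]
  off := [(0, 0), (0, 0), (0, 0), (0, 0), (0, 0), (0, 0), (0, 0), (0, 0), (0, 0), (0, 0), (-1, 0), (-1, 0), (0, 0),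
    (0, 0), (0, 0), (0, 0), (0, 0), (0, 0), (0, 0), (0, 0), (0, 0), (0, 0), (0, 0), (0, 0), (0, 0), (1, 0), (1, 0),
    (0, 0), (1, 0), (0, 0), (0, 0), (0, 0), (0, 0), (0, 0), (0, 0), (0, 0), (0, 0), (0, 0), (0, 0), (0, 0), (-1, 0),
    (0, 0), (0, 0), (0, -1), (0, -1), (0, -1), (0, 0), (0, 0), (0, 0), (-1, -1), (-1, 0), (0, 0), (0, 0), (0, -1),
    (-1, -1), (-1, -1)]

/-- glued arcs and equations -/
def tord7k_58 : TorT :=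
  ⟨[(0, 0, true), (0, 4, false), (1, 3, false), (1, 5, false), (2, 6, false), (2, 6, true), (3, 3, true), (4, 5,
    true)],
    [([0, 0, 0, 1, 1, 0, 1], 2), ([0, 0, 1, 0, 0, 0, 1], 2), ([0, 1, 0, 0, 0, 2, 0], 2), ([1, 0, 1, 0, 1, 0, 0], 2),
    ([1, 1, 0, 1, 0, 0, 0], 2)]⟩

theorem tord7k_58_ok : tord7k_58.OK 7 := TT.leaf_ok (T := ttd7k_58) (by decide +kernel)

/-- the torus -/
def ttd7k_59 : TT where
  k := 8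
  rf := [false, false, true, false, true, false, true, true]
  tau := [9, 8, 7, 10, 14, 24, 20, 2, 1, 0, 3, 28, 38, 34, 4, 25, 26, 47, 22, 23, 6, 46, 18, 19, 5, 15, 16, 48, 11,
    39, 40, 54, 36, 37, 13, 53, 32, 33, 12, 29, 30, 55, 51, 50, 49, 52, 21, 17, 27, 44, 43, 42, 45, 35, 31, 41]
  par := [0, 0, 4, 5, 11, 12, 17, 31]
  stars := [[0, 14, 4, 10], [1, 9], [2, 8], [3, 7, 28, 11], [5, 15, 25], [6, 24, 20], [12, 29, 39], [13, 38, 34],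
    [16, 26], [17, 48, 27], [18, 22, 47], [19, 23], [21, 42, 52, 46], [30, 40], [31, 55, 41], [32, 36, 54], [33, 37],
    [35, 49, 45, 53], [43, 51], [44, 50]]
  word := [[], [], [], [1, 2], [], [], [0, 3], [], [], [], [3, 0], [], [], [1, 2], [], [], [], [], [2, 1], [2, 1],
    [2, 1], [0, 3], [0, 3], [0, 3], [], [], [], [], [], [], [], [], [3, 0], [3, 0], [3, 0], [1, 2], [1, 2], [1, 2],
    [], [], [], [], [0], [0], [0], [2], [2, 1], [], [], [1], [1], [1], [3], [3, 0], [], []]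
  rank := [0, 1, 2, 8, 0, 0, 7, 2, 1, 0, 8, 0, 0, 7, 0, 1, 2, 0, 5, 6, 7, 4, 5, 6, 0, 1, 2, 3, 0, 1, 2, 0, 5, 6, 7,
    4, 5, 6, 0, 1, 2, 3, 1, 0, 1, 0, 4, 0, 3, 1, 0, 1, 0, 4, 0, 3]
  just := [0, 1, 2, 3, 0, 0, 5, 2, 1, 0, 3, 0, 0, 7, 0, 4, 8, 0, 10, 11, 5, 12, 10, 11, 0, 4, 8, 9, 0, 6, 13, 0, 15,
    16, 7, 17, 15, 16, 0, 6, 13, 14, 18, 0, 19, 0, 12, 0, 9, 19, 0, 18, 0, 17, 0, 14]
  gA := 43
  gB := 45
  fin := 0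
  sid := [0, 1, 2, 3, 0, 4, 5, 3, 2, 1, 0, 3, 6, 7, 0, 4, 8, 9, 10, 11, 5, 12, 10, 11, 5, 4, 8, 9, 3, 6, 13, 14, 15,
    16, 7, 17, 15, 16, 7, 6, 13, 14, 12, 18, 19, 17, 12, 10, 9, 17, 19, 18, 12, 17, 15, 14]
  off := [(0, 0), (0, 0), (0, 0), (0, 0), (-1, 1), (0, 0), (0, 0), (0, 0), (0, 0), (0, 0), (0, 0), (1, -1), (0, 0),
    (0, 0), (-1, 1), (0, 0), (0, 0), (0, 0), (0, 0), (0, 0), (-1, 1), (0, 0), (1, -1), (1, -1), (0, 0), (0, 0), (0,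
    0), (0, 0), (1, -1), (0, 0), (0, 0), (0, 0), (0, 0), (0, 0), (1, -1), (0, 0), (-1, 1), (-1, 1), (0, 0), (0, 0),
    (0, 0), (0, 0), (0, 0), (0, 0), (0, 0), (1, 0), (-1, 1), (0, 0), (0, 0), (0, 0), (-1, 0), (-1, 0), (-1, 0), (1,
    -1), (0, 0), (0, 0)]

/-- glued arcs and equations -/
def tord7k_59 : TorT :=
  ⟨[(0, 2, true), (0, 4, false), (1, 1, true), (1, 4, false), (2, 5, false), (3, 3, true), (3, 5, true), (6, 6,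
    false)],
    [([0, 0, 0, 1, 0, 0, 2], 2), ([0, 0, 1, 0, 0, 1, 0], 2), ([0, 1, 0, 0, 1, 1, 0], 2), ([0, 1, 1, 0, 0, 0, 0], 2),
    ([2, 0, 0, 1, 1, 0, 0], 2)]⟩

theorem tord7k_59_ok : tord7k_59.OK 7 := TT.leaf_ok (T := ttd7k_59) (by decide +kernel)

/-- the torus -/
def ttd7k_60 : TT where
  k := 8
  rf := [false, true, false, false, true, true, false, true]
  tau := [10, 20, 25, 24, 23, 26, 9, 18, 19, 6, 0, 14, 15, 29, 11, 12, 34, 28, 7, 8, 1, 38, 48, 4, 3, 2, 5, 37, 17,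
    13, 53, 52, 51, 54, 16, 46, 47, 27, 21, 42, 43, 50, 39, 40, 55, 49, 35, 36, 22, 45, 41, 32, 31, 30, 33, 44]
  par := [0, 0, 1, 2, 13, 21, 22, 30]
  stars := [[0, 10], [1, 11, 14], [2, 20, 9, 6, 26], [3, 25], [4, 24], [5, 23, 48, 37, 27], [7, 18, 29], [8, 19],
    [12, 15], [13, 30, 54, 34, 16], [17, 28], [21, 38], [22, 39, 42], [31, 53], [32, 52], [33, 55, 44, 41, 51], [35,
    46, 50], [36, 47], [40, 43], [45, 49]]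
  word := [[], [], [], [], [], [2, 0, 3], [2, 0, 3, 1], [0], [0], [0, 2, 1, 3], [], [], [], [], [], [], [1], [1],
    [1], [1], [], [], [], [], [], [], [2, 1, 3], [], [0], [], [], [], [], [0], [0], [2, 1, 3], [2, 1, 3], [], [], [],
    [], [2, 1], [], [], [2], [2], [2, 0, 3], [2, 0, 3], [], [3], [0, 3], [], [], [], [1], [3]]
  rank := [0, 0, 0, 1, 2, 6, 7, 5, 6, 7, 0, 1, 2, 0, 1, 2, 3, 4, 5, 6, 0, 0, 0, 2, 1, 0, 6, 1, 4, 0, 0, 1, 2, 0, 3,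
    4, 5, 1, 0, 1, 2, 3, 1, 2, 0, 1, 4, 5, 0, 1, 3, 2, 1, 0, 0, 0]
  just := [0, 0, 0, 3, 4, 5, 2, 6, 7, 2, 0, 1, 8, 0, 1, 8, 9, 10, 6, 7, 0, 0, 0, 4, 3, 0, 5, 11, 10, 0, 0, 13, 14, 0,
    9, 16, 17, 11, 0, 12, 18, 15, 12, 18, 0, 19, 16, 17, 0, 19, 15, 14, 13, 0, 0, 0]
  gA := 33
  gB := 44
  fin := 0
  sid := [0, 1, 2, 3, 4, 5, 2, 6, 7, 2, 0, 1, 8, 9, 1, 8, 9, 10, 6, 7, 2, 11, 12, 5, 4, 3, 2, 5, 10, 6, 9, 13, 14,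
    15, 9, 16, 17, 5, 11, 12, 18, 15, 12, 18, 15, 19, 16, 17, 5, 19, 16, 15, 14, 13, 9, 15]
  off := [(0, 0), (0, 0), (0, 0), (0, 0), (0, 0), (0, 0), (1, 0), (0, 0), (0, 0), (1, 0), (0, 0), (0, 0), (0, 0), (0,
    0), (0, 0), (0, 0), (0, 0), (0, 0), (-1, 0), (-1, 0), (0, 0), (0, 0), (0, 0), (0, 0), (0, 0), (0, 0), (0, 0),
    (-1, 0), (1, 0), (0, 0), (0, 0), (0, 0), (0, 0), (0, 0), (1, 0), (0, 0), (0, 0), (-1, 0), (0, 0), (0, 0), (0, 0),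
    (-1, 1), (0, 0), (0, 0), (-1, 1), (0, 0), (1, 0), (1, 0), (0, 0), (0, -1), (1, -1), (0, 0), (0, 0), (0, 0), (0,
    0), (-1, 0)]

/-- glued arcs and equations -/
def tord7k_60 : TorT :=
  ⟨[(0, 3, false), (0, 4, false), (1, 5, false), (1, 6, true), (2, 4, true), (2, 6, false), (3, 3, true), (5, 5,
    true)],
    [([0, 0, 0, 1, 1, 0, 0], 2), ([0, 0, 2, 0, 0, 1, 2], 2), ([0, 1, 0, 0, 0, 1, 0], 2), ([1, 0, 0, 1, 0, 0, 0], 2),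
    ([1, 1, 0, 0, 1, 0, 0], 2)]⟩

theorem tord7k_60_ok : tord7k_60.OK 7 := TT.leaf_ok (T := ttd7k_60) (by decide +kernel)

/-- the torus -/
def ttd7k_61 : TT where
  k := 8
  rf := [false, false, true, false, true, false, true, true]
  tau := [7, 8, 17, 18, 27, 15, 16, 0, 1, 31, 32, 41, 29, 30, 26, 5, 6, 2, 3, 21, 46, 19, 47, 48, 44, 45, 14, 4, 40,
    12, 13, 9, 10, 35, 53, 33, 54, 55, 51, 52, 28, 11, 49, 50, 24, 25, 20, 22, 23, 42, 43, 38, 39, 34, 36, 37]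
  par := [0, 0, 2, 4, 9, 11, 20, 34]
  stars := [[0, 17, 2, 8], [1, 7, 31, 9], [3, 18], [4, 19, 21], [5, 27, 15], [6, 16], [10, 32], [11, 33, 35], [12,
    41, 29], [13, 30], [14, 26, 46], [20, 47, 22], [23, 48], [24, 42, 50, 44], [25, 45], [28, 40, 53], [34, 54, 36],
    [37, 55], [38, 49, 43, 51], [39, 52]]
  word := [[], [1, 2], [], [], [], [0, 3], [0, 3], [], [3, 0], [], [], [], [1, 2], [1, 2], [2, 1], [2, 1], [2, 1],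
    [], [], [], [], [], [], [], [0, 3], [0, 3], [0, 3], [], [3, 0], [3, 0], [3, 0], [], [], [], [], [], [], [], [1,
    2], [1, 2], [1, 2], [], [0], [2], [2, 1], [2, 1], [], [], [], [1], [3], [3, 0], [3, 0], [], [], []]
  rank := [0, 10, 0, 1, 0, 8, 9, 0, 10, 0, 1, 0, 8, 9, 7, 8, 9, 0, 1, 2, 0, 2, 3, 4, 5, 6, 7, 0, 7, 8, 9, 0, 1, 2, 0,
    2, 3, 4, 5, 6, 7, 0, 0, 0, 5, 6, 0, 3, 4, 0, 0, 5, 6, 0, 3, 4]
  just := [0, 1, 0, 2, 0, 4, 5, 0, 1, 0, 6, 0, 8, 9, 10, 4, 5, 0, 2, 3, 0, 3, 11, 12, 13, 14, 10, 0, 15, 8, 9, 0, 6,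
    7, 0, 7, 16, 17, 18, 19, 15, 0, 0, 0, 13, 14, 0, 11, 12, 0, 0, 18, 19, 0, 16, 17]
  gA := 42
  gB := 43
  fin := 0
  sid := [0, 1, 0, 2, 3, 4, 5, 1, 0, 1, 6, 7, 8, 9, 10, 4, 5, 0, 2, 3, 11, 3, 11, 12, 13, 14, 10, 4, 15, 8, 9, 1, 6,
    7, 16, 7, 16, 17, 18, 19, 15, 8, 13, 18, 13, 14, 10, 11, 12, 18, 13, 18, 19, 15, 16, 17]
  off := [(0, 0), (0, 0), (-1, 1), (0, 0), (0, 0), (0, 0), (0, 0), (0, 0), (0, 0), (1, -1), (0, 0), (0, 0), (0, 0),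
    (0, 0), (0, 0), (-1, 1), (-1, 1), (-1, 1), (0, 0), (0, 0), (0, 0), (0, 0), (0, 0), (0, 0), (0, 0), (0, 0), (1,
    -1), (0, 0), (0, 0), (1, -1), (1, -1), (1, -1), (0, 0), (0, 0), (0, 0), (0, 0), (0, 0), (0, 0), (0, 0), (0, 0),
    (-1, 1), (0, 0), (0, 0), (1, 0), (-1, 1), (-1, 1), (0, 0), (0, 0), (0, 0), (0, 0), (-1, 0), (1, -1), (1, -1), (0,
    0), (0, 0), (0, 0)]

/-- glued arcs and equations -/
def tord7k_61 : TorT :=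
  ⟨[(0, 0, true), (0, 5, false), (1, 1, true), (1, 5, false), (2, 3, false), (2, 6, false), (3, 4, false), (4, 6,
    true)],
    [([0, 0, 0, 1, 1, 0, 0], 2), ([0, 0, 1, 0, 0, 0, 1], 2), ([0, 1, 0, 0, 0, 1, 1], 2), ([1, 0, 0, 0, 1, 1, 0], 2),
    ([1, 1, 1, 1, 0, 0, 0], 2)]⟩

theorem tord7k_61_ok : tord7k_61.OK 7 := TT.leaf_ok (T := ttd7k_61) (by decide +kernel)

/-- the torus -/
def ttd7k_62 : TT where
  k := 8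
  rf := [false, false, true, false, true, false, true, true]
  tau := [9, 8, 7, 14, 15, 12, 25, 2, 1, 0, 28, 29, 5, 39, 3, 4, 40, 41, 48, 37, 38, 45, 46, 33, 34, 6, 30, 31, 10,
    11, 26, 27, 55, 23, 24, 52, 53, 19, 20, 13, 16, 17, 51, 50, 49, 21, 22, 54, 18, 44, 43, 42, 35, 36, 47, 32]
  par := [0, 0, 3, 6, 10, 13, 18, 32]
  stars := [[0, 25, 28, 10], [1, 9], [2, 8], [3, 7, 39, 14], [4, 15], [5, 16, 40, 13], [6, 12, 30, 26], [11, 29],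
    [17, 41], [18, 42, 52, 35], [19, 37, 54, 48], [20, 38], [21, 32, 49, 45], [22, 46], [23, 47, 55, 33], [24, 34],
    [27, 31], [36, 53], [43, 51], [44, 50]]
  word := [[], [], [], [], [], [0], [], [], [], [], [], [], [1], [], [], [], [0], [0], [], [], [], [0, 3], [0, 3],
    [0, 3, 1, 2], [0, 3, 1, 2], [], [0], [0], [], [], [1], [1], [], [3, 0, 2, 1], [3, 0, 2, 1], [1, 2], [1, 2], [],
    [], [], [1], [1], [2], [2], [2], [2, 1], [2, 1], [1, 2], [], [3], [3], [3], [3, 0], [3, 0], [3, 0], []]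
  rank := [0, 1, 2, 0, 1, 2, 0, 2, 1, 0, 0, 1, 2, 0, 0, 1, 0, 1, 0, 4, 3, 5, 6, 7, 8, 0, 3, 4, 0, 1, 3, 4, 0, 7, 8,
    2, 3, 4, 3, 0, 0, 1, 0, 1, 2, 5, 6, 5, 0, 2, 1, 0, 2, 3, 5, 0]
  just := [0, 1, 2, 0, 4, 5, 0, 2, 1, 0, 0, 7, 5, 0, 0, 4, 0, 8, 0, 11, 3, 12, 13, 14, 15, 0, 6, 16, 0, 7, 6, 16, 0,
    14, 15, 9, 17, 11, 3, 0, 0, 8, 0, 18, 19, 12, 13, 10, 0, 19, 18, 0, 9, 17, 10, 0]
  gA := 16
  gB := 42
  fin := 0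
  sid := [0, 1, 2, 3, 4, 5, 6, 3, 2, 1, 0, 7, 6, 5, 3, 4, 5, 8, 9, 10, 11, 12, 13, 14, 15, 0, 6, 16, 0, 7, 6, 16, 12,
    14, 15, 9, 17, 10, 11, 3, 5, 8, 9, 18, 19, 12, 13, 14, 10, 12, 19, 18, 9, 17, 10, 14]
  off := [(0, 0), (0, 0), (0, 0), (0, 0), (0, 0), (0, 0), (0, 0), (0, 0), (0, 0), (0, 0), (0, 0), (0, 0), (-1, 0),
    (-1, 0), (0, 0), (0, 0), (0, 0), (0, 0), (0, 0), (0, 0), (0, 0), (0, 0), (0, 0), (0, 0), (0, 0), (0, 0), (0, 0),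
    (0, 0), (0, 0), (0, 0), (-1, 0), (-1, 0), (-1, 0), (0, 0), (0, 0), (-1, 0), (0, 0), (0, 0), (0, 0), (0, 0), (-1,
    0), (-1, 0), (0, 0), (0, 0), (0, 0), (-1, 1), (-1, 1), (-1, 1), (0, 0), (-1, 0), (0, -1), (0, -1), (0, -1), (1,
    -1), (1, -1), (0, 0)]

/-- glued arcs and equations -/
def tord7k_62 : TorT :=
  ⟨[(0, 2, true), (0, 3, false), (1, 1, true), (1, 4, false), (2, 5, false), (3, 6, false), (4, 6, true), (5, 5,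
    true)],
    [([0, 0, 0, 1, 0, 0, 1], 2), ([0, 0, 1, 0, 0, 2, 1], 2), ([0, 1, 0, 0, 1, 0, 0], 2), ([0, 1, 1, 0, 0, 0, 0], 2),
    ([2, 0, 0, 1, 1, 0, 0], 2)]⟩

theorem tord7k_62_ok : tord7k_62.OK 7 := TT.leaf_ok (T := ttd7k_62) (by decide +kernel)

/-- the torus -/
def ttd7k_63 : TT where
  k := 4
  rf := [false, false, true, true]
  tau := [7, 10, 9, 8, 14, 15, 20, 0, 3, 2, 1, 21, 22, 27, 4, 5, 25, 24, 23, 26, 6, 11, 12, 18, 17, 16, 19, 13]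
  par := [0, 0, 4, 11]
  stars := [[0, 14, 4, 8], [1, 7, 21, 11], [2, 10], [3, 9], [5, 15], [6, 16, 26, 20], [12, 22], [13, 23, 19, 27],
    [17, 25], [18, 24]]
  word := [[], [0], [0], [0], [], [], [2, 1, 3], [], [1], [1], [1], [], [], [0], [], [], [2], [2], [2], [2, 0], [2,
    0, 3], [], [], [3], [3], [3], [1, 3], [1]]
  rank := [0, 1, 2, 3, 0, 1, 3, 0, 3, 2, 1, 0, 1, 0, 0, 1, 2, 1, 0, 2, 3, 0, 1, 0, 1, 2, 2, 0]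
  just := [0, 1, 2, 3, 0, 4, 5, 0, 3, 2, 1, 0, 6, 0, 0, 4, 8, 9, 0, 7, 5, 0, 6, 0, 9, 8, 7, 0]
  gA := 13
  gB := 18
  fin := 0
  sid := [0, 1, 2, 3, 0, 4, 5, 1, 0, 3, 2, 1, 6, 7, 0, 4, 5, 8, 9, 7, 5, 1, 6, 7, 9, 8, 5, 7]
  off := [(0, 0), (0, 0), (0, 0), (0, 0), (1, 0), (0, 0), (0, 0), (0, 0), (0, 0), (-1, 0), (-1, 0), (-1, 0), (0, 0),
    (0, 0), (1, 0), (0, 0), (0, 0), (0, 0), (0, 0), (0, 1), (1, 0), (-1, 0), (0, 0), (0, 0), (0, -1), (0, -1), (0,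
    -1), (-1, 0)]

/-- glued arcs and equations -/
def tord7k_63 : TorT :=
  ⟨[(0, 0, true), (0, 4, false), (1, 3, true), (1, 5, false), (2, 2, true), (2, 4, true), (3, 3, true), (5, 5, true),
    (6, 6, false)],
    [([0, 0, 0, 1, 1, 0, 0], 2), ([0, 0, 1, 0, 0, 1, 2], 2), ([0, 0, 1, 1, 0, 0, 0], 2), ([0, 1, 0, 0, 0, 1, 0], 2),
    ([2, 1, 0, 0, 1, 0, 0], 2)]⟩

theorem tord7k_63_ok : tord7k_63.OK 7 := TT.leaf_ok (T := ttd7k_63) (by decide +kernel)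

/-- the torus -/
def ttd7k_64 : TT where
  k := 2
  rf := [false, true]
  tau := [8, 11, 12, 10, 9, 13, 7, 6, 0, 4, 3, 1, 2, 5]
  par := [0, 0]
  stars := [[0, 8], [1, 9, 4, 11], [2, 12], [3, 13, 5, 10], [6, 7]]
  word := [[], [0], [0], [2, 0], [2], [2, 1, 3, 0], [2, 1, 3, 0], [1, 2, 0, 3], [], [3], [1, 3], [1], [1], [1, 2, 0,
    3]]
  rank := [0, 0, 1, 1, 0, 2, 3, 3, 0, 0, 1, 0, 1, 2]
  just := [0, 0, 2, 1, 0, 3, 4, 4, 0, 0, 1, 0, 2, 3]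
  gA := 1
  gB := 4
  fin := 0
  sid := [0, 1, 2, 3, 1, 3, 4, 4, 0, 1, 3, 1, 2, 3]
  off := [(0, 0), (0, 0), (0, 0), (0, 0), (0, 1), (-1, 0), (0, 0), (0, 0), (0, 0), (0, 0), (-1, -1), (-1, 0), (-1,
    0), (-1, 0)]

/-- glued arcs and equations -/
def tord7k_64 : TorT :=
  ⟨[(0, 1, false), (0, 6, false), (1, 4, false), (2, 4, false), (2, 5, false), (3, 3, false), (5, 6, false)],
    [([0, 0, 0, 2, 0, 1, 1], 2), ([0, 0, 1, 0, 0, 1, 0], 2), ([0, 1, 1, 0, 2, 0, 0], 2), ([1, 0, 0, 0, 0, 0, 1], 2),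
    ([1, 1, 0, 0, 0, 0, 0], 2)]⟩

theorem tord7k_64_ok : tord7k_64.OK 7 := TT.leaf_ok (T := ttd7k_64) (by decide +kernel)

/-- the torus -/
def ttd7k_65 : TT where
  k := 4
  rf := [false, false, false, false]
  tau := [3, 8, 9, 0, 20, 15, 14, 10, 1, 2, 7, 27, 22, 21, 6, 5, 19, 24, 25, 16, 4, 13, 12, 26, 17, 18, 23, 11]
  par := [0, 1, 4, 11]
  stars := [[0, 14, 4], [1, 3, 9], [2, 8, 10], [5, 20, 16], [6, 15], [7, 21, 11], [12, 27, 23], [13, 22], [17, 19,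
    25], [18, 24, 26]]
  word := [[2], [], [3], [3], [], [0, 2, 1], [0, 2, 1], [3], [], [2], [2], [], [3], [3], [0, 3, 1], [0, 3, 1], [0, 3,
    1], [0, 3], [0], [0, 2, 1], [], [2], [2], [2], [2, 1], [1], [3], []]
  rank := [5, 0, 4, 5, 0, 3, 4, 3, 0, 4, 3, 0, 1, 2, 4, 3, 2, 1, 0, 2, 0, 2, 1, 0, 1, 0, 0, 0]
  just := [1, 0, 2, 1, 0, 3, 4, 5, 0, 2, 5, 0, 6, 7, 4, 3, 8, 9, 0, 8, 0, 7, 6, 0, 9, 0, 0, 0]
  gA := 18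
  gB := 23
  fin := 0
  sid := [0, 1, 2, 1, 0, 3, 4, 5, 2, 1, 2, 5, 6, 7, 0, 4, 3, 8, 9, 8, 3, 5, 7, 6, 9, 8, 9, 6]
  off := [(0, 0), (0, 0), (0, 0), (0, -1), (0, -1), (0, 0), (0, 0), (0, 0), (0, 0), (0, 0), (0, 1), (0, 1), (0, 0),
    (0, 0), (0, -1), (0, -1), (0, -1), (0, 0), (0, 0), (0, 1), (0, 0), (0, 1), (0, 1), (0, 1), (-1, 1), (-1, 1), (-1,
    0), (0, 0)]

/-- glued arcs and equations -/
def tord7k_65 : TorT :=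
  ⟨[(0, 3, true), (0, 6, true), (1, 1, true), (1, 5, true), (2, 2, true), (2, 5, true), (3, 3, true), (4, 4, true),
    (4, 6, true)],
    [([0, 0, 0, 1, 1, 1, 0], 2), ([0, 0, 1, 0, 0, 1, 1], 2), ([0, 1, 0, 0, 0, 0, 1], 2), ([0, 1, 1, 1, 0, 0, 0], 2),
    ([2, 0, 0, 0, 1, 0, 0], 2)]⟩

theorem tord7k_65_ok : tord7k_65.OK 7 := TT.leaf_ok (T := ttd7k_65) (by decide +kernel)

end Pool.Agent.Lib_MP_fa6e45
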