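import Pool.Agent.Lib_MP_fa6e45.CT5

/-!
MP_fa6e45_co, stage 9: straight-side patterns with `7` sides, tables of tori (generated by a program).
-/

namespace Pool.Agent.Lib_MP_fa6e45

/-- the torus -/
def ttd7k_66 : TT where
  k := 4
  rf := [false, false, false, false]
  tau := [7, 10, 9, 8, 20, 15, 14, 0, 3, 2, 1, 27, 22, 21, 6, 5, 19, 24, 25, 16, 4, 13, 12, 26, 17, 18, 23, 11]
  par := [0, 0, 4, 11]
  stars := [[0, 14, 4, 8], [1, 7, 21, 11], [2, 10], [3, 9], [5, 20, 16], [6, 15], [12, 27, 23], [13, 22], [17, 19,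
    25], [18, 24, 26]]
  word := [[], [3], [3], [3], [], [0, 2, 1], [0, 2, 1], [], [2], [2], [2], [], [3], [3], [0, 3, 1], [0, 3, 1], [0, 3,
    1], [0, 3], [0], [0, 2, 1], [], [2], [2], [2], [2, 1], [1], [3], []]
  rank := [0, 3, 4, 5, 0, 3, 4, 0, 5, 4, 3, 0, 1, 2, 4, 3, 2, 1, 0, 2, 0, 2, 1, 0, 1, 0, 0, 0]
  just := [0, 1, 2, 3, 0, 4, 5, 0, 3, 2, 1, 0, 6, 7, 5, 4, 8, 9, 0, 8, 0, 7, 6, 0, 9, 0, 0, 0]
  gA := 18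
  gB := 23
  fin := 0
  sid := [0, 1, 2, 3, 0, 4, 5, 1, 0, 3, 2, 1, 6, 7, 0, 5, 4, 8, 9, 8, 4, 1, 7, 6, 9, 8, 9, 6]
  off := [(0, 0), (0, 0), (0, 0), (0, 0), (0, -1), (0, 0), (0, 0), (0, 0), (0, 0), (0, 1), (0, 1), (0, 1), (0, 0),
    (0, 0), (0, -1), (0, -1), (0, -1), (0, 0), (0, 0), (0, 1), (0, 0), (0, 1), (0, 1), (0, 1), (-1, 1), (-1, 1), (-1,
    0), (0, 0)]

/-- glued arcs and equations -/
def tord7k_66 : TorT :=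
  ⟨[(0, 0, true), (0, 6, true), (1, 3, true), (1, 5, true), (2, 2, true), (2, 5, true), (3, 3, true), (4, 4, true),
    (4, 6, true)],
    [([0, 0, 0, 1, 1, 1, 0], 2), ([0, 0, 1, 0, 0, 1, 1], 2), ([0, 0, 1, 1, 0, 0, 0], 2), ([0, 1, 0, 0, 0, 0, 1], 2),
    ([2, 1, 0, 0, 1, 0, 0], 2)]⟩

theorem tord7k_66_ok : tord7k_66.OK 7 := TT.leaf_ok (T := ttd7k_66) (by decide +kernel)

/-- the torus -/
def ttd7k_67 : TT where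
  k := 8
  rf := [false, false, false, true, false, true, true, true]
  tau := [13, 12, 5, 17, 18, 2, 11, 23, 24, 21, 22, 6, 1, 0, 34, 33, 19, 3, 4, 16, 32, 9, 10, 7, 8, 41, 36, 35, 44,
    45, 42, 43, 20, 15, 14, 27, 26, 40, 52, 53, 37, 25, 30, 31, 28, 29, 55, 50, 49, 48, 47, 54, 38, 39, 51, 46]
  par := [0, 0, 3, 7, 14, 25, 28, 38]
  stars := [[0, 11, 23, 7], [1, 13], [2, 12, 6], [3, 5, 18], [4, 17, 19], [8, 24], [9, 25, 35, 21], [10, 22], [14,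
    32, 44, 28], [15, 34], [16, 33, 20], [26, 37, 41], [27, 36], [29, 45], [30, 46, 49, 42], [31, 43], [38, 53, 40],
    [39, 54, 52], [47, 51, 55], [48, 50]]
  word := [[], [], [2, 1], [], [0, 3], [0, 3], [0, 3], [], [], [1, 2], [1, 2], [2, 1], [], [], [], [], [0, 3], [],
    [2, 1], [2, 1], [2, 1], [3, 0], [3, 0], [], [], [], [3, 0], [3, 0], [], [], [0, 3], [0, 3], [0, 3], [], [], [1,
    2], [1, 2], [1, 2], [], [3, 0], [3, 0], [], [2, 1], [2, 1], [], [], [0], [2], [2], [3], [3], [3, 0], [], [1, 2],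
    [1, 2], [1]]
  rank := [0, 1, 7, 0, 6, 7, 8, 0, 1, 6, 7, 8, 1, 0, 0, 1, 5, 0, 6, 5, 4, 6, 7, 0, 1, 0, 4, 5, 0, 1, 2, 3, 4, 1, 0,
    5, 4, 3, 0, 2, 3, 0, 2, 3, 0, 1, 0, 0, 1, 1, 0, 1, 0, 2, 1, 0]
  just := [0, 1, 3, 0, 4, 3, 2, 0, 5, 6, 7, 2, 1, 0, 0, 9, 10, 0, 4, 10, 8, 6, 7, 0, 5, 0, 11, 12, 0, 13, 14, 15, 8,
    9, 0, 12, 11, 16, 0, 17, 16, 0, 14, 15, 0, 13, 0, 0, 19, 19, 0, 18, 0, 17, 18, 0]
  gA := 46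
  gB := 47
  fin := 0
  sid := [0, 1, 2, 3, 4, 3, 2, 0, 5, 6, 7, 0, 2, 1, 8, 9, 10, 4, 3, 4, 10, 6, 7, 0, 5, 6, 11, 12, 8, 13, 14, 15, 8,
    10, 9, 6, 12, 11, 16, 17, 16, 11, 14, 15, 8, 13, 14, 18, 19, 14, 19, 18, 17, 16, 17, 18]
  off := [(0, 0), (0, 0), (0, 0), (0, 0), (0, 0), (1, -1), (1, -1), (0, 0), (0, 0), (0, 0), (0, 0), (-1, 1), (0, 0),
    (0, 0), (0, 0), (0, 0), (0, 0), (0, 0), (0, 0), (-1, 1), (-1, 1), (1, -1), (1, -1), (0, 0), (0, 0), (0, 0), (0,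
    0), (0, 0), (0, 0), (0, 0), (0, 0), (0, 0), (1, -1), (0, 0), (0, 0), (0, 0), (-1, 1), (-1, 1), (0, 0), (0, 0),
    (1, -1), (0, 0), (-1, 1), (-1, 1), (0, 0), (0, 0), (0, 0), (0, 0), (0, 0), (-1, 0), (0, -1), (0, -1), (0, 0), (0,
    0), (-1, 1), (-1, 0)]

/-- glued arcs and equations -/
def tord7k_67 : TorT :=
  ⟨[(0, 2, false), (0, 6, true), (1, 3, false), (1, 5, true), (2, 5, true), (3, 3, true), (4, 4, true), (4, 6, true)],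
    [([0, 0, 0, 1, 1, 1, 0], 2), ([0, 0, 1, 0, 0, 1, 1], 2), ([0, 1, 0, 0, 0, 0, 1], 2), ([0, 1, 0, 1, 0, 0, 0], 2),
    ([2, 0, 1, 0, 1, 0, 0], 2)]⟩

theorem tord7k_67_ok : tord7k_67.OK 7 := TT.leaf_ok (T := ttd7k_67) (by decide +kernel)

/-- the torus -/
def ttd7k_68 : TT where
  k := 8
  rf := [false, false, true, true, false, false, true, true]
  tau := [7, 16, 17, 18, 11, 26, 28, 0, 23, 24, 25, 4, 19, 35, 48, 41, 1, 2, 3, 12, 36, 55, 34, 8, 9, 10, 5, 29, 6,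
    27, 43, 44, 45, 54, 22, 13, 20, 50, 51, 52, 47, 15, 49, 30, 31, 32, 53, 40, 14, 42, 37, 38, 39, 46, 33, 21]
  par := [0, 0, 1, 5, 6, 13, 14, 21]
  stars := [[0, 28, 23, 8], [1, 7, 35, 16], [2, 17], [3, 18], [4, 19, 12], [5, 11, 26], [6, 27, 29], [9, 24], [10,
    25], [13, 20, 36], [14, 42, 50, 37], [15, 41, 48], [21, 49, 43, 30], [22, 34, 55], [31, 44], [32, 45], [33, 46,
    54], [38, 51], [39, 52], [40, 53, 47]]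
  word := [[], [], [], [], [2, 1], [], [], [], [0, 3], [0, 3], [0, 3], [0, 3], [0, 3], [], [], [], [], [], [], [2,
    1], [2, 1], [], [1, 2], [2, 1], [2, 1], [2, 1], [], [], [], [], [3], [3], [3], [3, 0], [3, 0], [], [0, 3], [0],
    [0], [0], [], [], [2], [2], [2], [2], [0], [], [], [3], [1], [1], [1], [1], [1, 2], []]
  rank := [0, 0, 1, 2, 3, 0, 0, 0, 6, 5, 4, 3, 2, 0, 0, 1, 0, 1, 2, 2, 1, 0, 6, 6, 5, 4, 0, 1, 0, 1, 2, 3, 4, 5, 6,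
    0, 1, 0, 1, 2, 2, 1, 0, 2, 3, 4, 3, 2, 0, 0, 0, 1, 2, 3, 5, 0]
  just := [0, 0, 2, 3, 4, 0, 0, 0, 7, 8, 5, 4, 9, 0, 0, 1, 0, 2, 3, 9, 10, 0, 13, 7, 8, 5, 0, 6, 0, 6, 12, 14, 15,
    16, 13, 0, 10, 0, 17, 18, 11, 1, 0, 12, 14, 15, 19, 11, 0, 0, 0, 17, 18, 19, 16, 0]
  gA := 37
  gB := 42
  fin := 0
  sid := [0, 1, 2, 3, 4, 5, 6, 1, 0, 7, 8, 5, 4, 9, 10, 11, 1, 2, 3, 4, 9, 12, 13, 0, 7, 8, 5, 6, 0, 6, 12, 14, 15,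
    16, 13, 1, 9, 10, 17, 18, 19, 11, 10, 12, 14, 15, 16, 19, 11, 12, 10, 17, 18, 19, 16, 13]
  off := [(0, 0), (0, 0), (0, 0), (0, 0), (0, 0), (0, 0), (0, 0), (0, 0), (0, 0), (0, 0), (0, 0), (1, -1), (1, -1),
    (0, 0), (0, 0), (0, 0), (0, 0), (0, 0), (0, 0), (0, 0), (-1, 1), (0, 0), (0, 0), (-1, 1), (-1, 1), (-1, 1), (0,
    0), (0, 0), (0, 0), (0, 0), (0, 0), (0, 0), (0, 0), (0, 0), (1, -1), (0, 0), (0, 0), (1, -1), (0, 0), (0, 0), (0,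
    0), (0, 0), (0, 0), (0, 1), (0, 1), (0, 1), (0, 1), (0, 0), (0, 0), (0, 0), (0, -1), (-1, 0), (-1, 0), (-1, 0),
    (-1, 1), (0, 0)]

/-- glued arcs and equations -/
def tord7k_68 : TorT :=
  ⟨[(0, 0, true), (0, 6, true), (1, 2, false), (1, 6, false), (2, 3, false), (3, 4, false), (4, 4, true), (5, 5,
    false)],
    [([0, 0, 0, 0, 1, 2, 0], 2), ([0, 0, 0, 1, 1, 0, 0], 2), ([0, 0, 1, 1, 0, 0, 0], 2), ([0, 1, 0, 0, 0, 0, 2], 2),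
    ([2, 1, 1, 0, 0, 0, 0], 2)]⟩

theorem tord7k_68_ok : tord7k_68.OK 7 := TT.leaf_ok (T := ttd7k_68) (by decide +kernel)

/-- the torus -/
def ttd7k_69 : TT where
  k := 4
  rf := [false, false, false, false]
  tau := [7, 5, 15, 14, 16, 1, 13, 0, 12, 22, 21, 23, 8, 6, 3, 2, 4, 26, 25, 24, 27, 10, 9, 11, 19, 18, 17, 20]
  par := [0, 0, 2, 9]
  stars := [[0, 13, 8], [1, 7, 6], [2, 5, 16], [3, 15], [4, 14, 27, 17], [9, 12, 23], [10, 22], [11, 21, 20, 24],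
    [18, 26], [19, 25]]
  word := [[], [0, 3], [], [], [2, 1], [2, 1], [2, 1], [], [1, 2], [], [], [3, 0], [3, 0], [0, 3], [], [], [0, 3],
    [0], [0], [0], [2], [], [], [1, 2], [1], [1], [1], [3]]
  rank := [0, 3, 0, 1, 2, 3, 4, 0, 3, 0, 1, 2, 3, 4, 1, 0, 2, 1, 0, 1, 0, 1, 0, 2, 1, 0, 1, 0]
  just := [0, 2, 0, 3, 4, 2, 1, 0, 5, 0, 6, 7, 5, 1, 3, 0, 4, 8, 0, 9, 0, 6, 0, 7, 9, 0, 8, 0]
  gA := 18
  gB := 20
  fin := 0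
  sid := [0, 1, 2, 3, 4, 2, 1, 1, 0, 5, 6, 7, 5, 0, 4, 3, 2, 4, 8, 9, 7, 7, 6, 5, 7, 9, 8, 4]
  off := [(0, 0), (0, 0), (0, 0), (0, 0), (0, 0), (-1, 1), (-1, 1), (0, 0), (0, 0), (0, 0), (0, 0), (0, 0), (1, -1),
    (1, -1), (0, 0), (0, 0), (0, 0), (1, -1), (0, 0), (0, 0), (0, 1), (0, 0), (0, 0), (0, 0), (-1, 1), (-1, 0), (-1,
    0), (0, -1)]

/-- glued arcs and equations -/
def tord7k_69 : TorT :=
  ⟨[(0, 0, true), (0, 3, true), (1, 2, true), (1, 5, true), (2, 4, true), (3, 5, true), (4, 4, true), (6, 6, true)],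
    [([0, 0, 0, 0, 1, 1, 0], 2), ([0, 0, 2, 0, 0, 1, 0], 2), ([0, 1, 0, 1, 0, 0, 0], 2), ([1, 0, 0, 1, 1, 0, 1], 2),
    ([1, 1, 0, 0, 0, 0, 1], 2)]⟩

theorem tord7k_69_ok : tord7k_69.OK 7 := TT.leaf_ok (T := ttd7k_69) (by decide +kernel)

/-- the torus -/
def ttd7k_70 : TT where
  k := 4
  rf := [false, false, false, false]
  tau := [9, 17, 16, 15, 22, 19, 7, 6, 18, 0, 13, 25, 26, 10, 23, 3, 2, 1, 8, 5, 21, 20, 4, 14, 27, 11, 12, 24]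
  par := [0, 0, 1, 4]
  stars := [[0, 7, 10], [1, 9, 18], [2, 17], [3, 16], [4, 15, 23], [5, 22, 20], [6, 19, 8], [11, 13, 26], [12, 25,
    27], [14, 21, 24]]
  word := [[], [], [], [], [], [3], [3], [2], [], [], [0, 3, 1], [0, 3], [0], [0, 2, 1], [], [], [], [], [], [2],
    [2], [3], [], [], [2], [2, 1], [1], [3]]
  rank := [0, 0, 1, 2, 0, 5, 6, 6, 1, 0, 2, 1, 0, 2, 3, 2, 1, 0, 1, 5, 4, 4, 0, 3, 0, 1, 0, 0]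
  just := [0, 0, 2, 3, 0, 5, 6, 6, 1, 0, 7, 8, 0, 7, 4, 3, 2, 0, 1, 5, 9, 9, 0, 4, 0, 8, 0, 0]
  gA := 12
  gB := 24
  fin := 0
  sid := [0, 1, 2, 3, 4, 5, 6, 0, 6, 1, 0, 7, 8, 7, 9, 4, 3, 2, 1, 6, 5, 9, 5, 4, 9, 8, 7, 8]
  off := [(0, 0), (0, 0), (0, 0), (0, 0), (0, 0), (0, 0), (0, 0), (0, 1), (0, 1), (0, 0), (0, 0), (0, 0), (0, 0), (0,
    1), (0, 0), (0, 0), (0, 0), (0, 0), (0, 0), (0, 1), (0, 1), (0, -1), (0, 0), (0, 0), (0, 0), (-1, 1), (-1, 1),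
    (-1, 0)]

/-- glued arcs and equations -/
def tord7k_70 : TorT :=
  ⟨[(0, 2, true), (0, 6, true), (1, 3, true), (1, 4, true), (2, 2, true), (3, 6, true), (4, 4, true), (5, 5, true)],
    [([0, 0, 0, 0, 1, 1, 1], 2), ([0, 0, 1, 1, 0, 0, 0], 2), ([0, 1, 0, 0, 0, 1, 1], 2), ([0, 1, 1, 0, 1, 0, 0], 2),
    ([2, 0, 0, 1, 0, 0, 0], 2)]⟩

theorem tord7k_70_ok : tord7k_70.OK 7 := TT.leaf_ok (T := ttd7k_70) (by decide +kernel)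

/-- the torus -/
def ttd7k_71 : TT where
  k := 4
  rf := [false, false, true, true]
  tau := [7, 5, 16, 14, 15, 1, 13, 0, 12, 23, 21, 22, 8, 6, 3, 4, 2, 24, 27, 26, 25, 10, 11, 9, 17, 20, 19, 18]
  par := [0, 0, 2, 9]
  stars := [[0, 13, 8], [1, 7, 6], [2, 5, 16], [3, 17, 25, 14], [4, 15], [9, 12, 23], [10, 24, 18, 21], [11, 22],
    [19, 27], [20, 26]]
  word := [[], [2, 1], [], [0, 3], [0, 3], [0, 3], [0, 3], [], [3, 0], [], [1, 2], [1, 2], [1, 2], [2, 1], [2, 1],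
    [2, 1], [], [0], [2], [2], [2], [3, 0], [3, 0], [], [1], [3], [3], [3]]
  rank := [0, 4, 0, 2, 3, 4, 5, 0, 4, 0, 2, 3, 4, 5, 2, 3, 0, 0, 1, 0, 1, 2, 3, 0, 0, 1, 0, 1]
  just := [0, 2, 0, 3, 4, 2, 1, 0, 5, 0, 6, 7, 5, 1, 3, 4, 0, 0, 8, 0, 9, 6, 7, 0, 0, 9, 0, 8]
  gA := 17
  gB := 19
  fin := 0
  sid := [0, 1, 2, 3, 4, 2, 1, 1, 0, 5, 6, 7, 5, 0, 3, 4, 2, 3, 6, 8, 9, 6, 7, 5, 6, 3, 9, 8]
  off := [(0, 0), (0, 0), (0, 0), (0, 0), (0, 0), (1, -1), (1, -1), (0, 0), (0, 0), (0, 0), (0, 0), (0, 0), (-1, 1),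
    (-1, 1), (-1, 1), (-1, 1), (0, 0), (0, 0), (1, 0), (0, 0), (0, 0), (1, -1), (1, -1), (0, 0), (0, 0), (-1, 0), (0,
    -1), (0, -1)]

/-- glued arcs and equations -/
def tord7k_71 : TorT :=
  ⟨[(0, 0, true), (0, 3, false), (1, 4, false), (1, 5, true), (2, 2, false), (3, 3, true), (4, 6, true), (5, 5,
    true), (6, 6, true)],
    [([0, 0, 0, 0, 0, 1, 1], 2), ([0, 0, 2, 0, 0, 1, 0], 2), ([0, 1, 0, 0, 1, 0, 0], 2), ([1, 0, 0, 2, 1, 0, 0], 2),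
    ([1, 1, 0, 0, 0, 0, 1], 2)]⟩

theorem tord7k_71_ok : tord7k_71.OK 7 := TT.leaf_ok (T := ttd7k_71) (by decide +kernel)

/-- the torus -/
def ttd7k_72 : TT where
  k := 8
  rf := [false, false, true, false, true, false, true, true]
  tau := [13, 12, 15, 26, 25, 24, 17, 18, 30, 37, 34, 14, 1, 0, 11, 2, 44, 6, 7, 29, 28, 41, 40, 43, 5, 4, 3, 45, 20,
    19, 8, 54, 53, 52, 10, 46, 51, 9, 55, 42, 22, 21, 39, 23, 16, 27, 35, 50, 49, 48, 47, 36, 33, 32, 31, 38]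
  par := [0, 0, 2, 3, 8, 9, 16, 31]
  stars := [[0, 18, 7], [1, 13], [2, 12, 15], [3, 16, 45, 27], [4, 26], [5, 25], [6, 24, 44, 17], [8, 19, 30], [9,
    31, 55, 38], [10, 37, 52, 34], [11, 28, 14], [20, 29], [21, 46, 35], [22, 41], [23, 40, 43], [32, 54], [33, 53],
    [36, 47, 51], [39, 49, 42], [48, 50]]
  word := [[], [], [], [], [], [], [2, 1, 3], [1], [], [], [0], [], [], [], [], [], [], [2, 0, 3], [0], [0], [0], [2,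
    1], [2, 1], [2, 1, 3], [], [], [], [], [1], [1], [], [], [], [], [1], [0, 3], [0], [], [], [3], [0, 3], [0, 3],
    [2], [2, 0, 3], [], [], [2, 1], [2], [2], [3], [3], [1], [], [], [], []]
  rank := [0, 1, 0, 0, 1, 2, 5, 6, 0, 0, 3, 2, 1, 0, 2, 0, 0, 5, 6, 5, 4, 2, 3, 4, 2, 1, 0, 1, 4, 5, 0, 0, 1, 2, 3,
    1, 0, 0, 1, 2, 3, 2, 2, 4, 0, 1, 1, 0, 1, 1, 0, 0, 2, 1, 0, 1]
  just := [0, 1, 0, 0, 4, 5, 6, 7, 0, 0, 9, 2, 1, 0, 2, 0, 0, 6, 7, 11, 10, 12, 13, 14, 5, 4, 0, 3, 10, 11, 0, 0, 15,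
    16, 9, 17, 0, 0, 8, 18, 13, 12, 18, 14, 0, 3, 17, 0, 19, 19, 0, 0, 16, 15, 0, 8]
  gA := 36
  gB := 47
  fin := 0
  sid := [0, 1, 2, 3, 4, 5, 6, 0, 7, 8, 9, 10, 2, 1, 10, 2, 3, 6, 0, 7, 11, 12, 13, 14, 6, 5, 4, 3, 10, 11, 7, 8, 15,
    16, 9, 12, 17, 9, 8, 18, 14, 13, 18, 14, 6, 3, 12, 17, 19, 18, 19, 17, 9, 16, 15, 8]
  off := [(0, 0), (0, 0), (0, 0), (0, 0), (0, 0), (0, 0), (0, 0), (0, 0), (0, 0), (0, 0), (0, 0), (0, 0), (0, 0), (0,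
    0), (0, 0), (0, 0), (0, 0), (1, 0), (1, 0), (1, 0), (0, 0), (0, 0), (0, 0), (0, 0), (0, 0), (0, 0), (0, 0), (0,
    0), (-1, 0), (-1, 0), (0, 0), (0, 0), (0, 0), (0, 0), (-1, 0), (1, -1), (0, 0), (0, 0), (0, 0), (0, 0), (1, -1),
    (1, -1), (0, 1), (1, 0), (1, 0), (0, 0), (0, 0), (-1, 1), (0, 0), (0, 0), (0, -1), (-1, 0), (-1, 0), (0, 0), (0,
    0), (0, 0)]

/-- glued arcs and equations -/
def tord7k_72 : TorT :=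
  ⟨[(0, 4, false), (0, 6, true), (1, 2, false), (1, 5, true), (2, 2, true), (3, 5, true), (3, 6, false), (4, 4,
    true)],
    [([0, 0, 0, 0, 1, 1, 0], 2), ([0, 0, 1, 2, 0, 0, 1], 2), ([0, 1, 0, 0, 0, 0, 1], 2), ([0, 1, 1, 0, 0, 1, 0], 2),
    ([2, 0, 0, 0, 1, 0, 0], 2)]⟩

theorem tord7k_72_ok : tord7k_72.OK 7 := TT.leaf_ok (T := ttd7k_72) (by decide +kernel)

/-- the torus -/
def ttd7k_73 : TT where
  k := 4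
  rf := [false, false, true, true]
  tau := [7, 15, 26, 14, 13, 12, 11, 0, 22, 19, 21, 6, 5, 4, 3, 1, 25, 24, 23, 9, 27, 10, 8, 18, 17, 16, 2, 20]
  par := [0, 0, 1, 2]
  stars := [[0, 11, 22, 8], [1, 7, 4, 15], [2, 16, 26], [3, 27, 14], [5, 13], [6, 12], [9, 23, 19], [10, 20, 21],
    [17, 25], [18, 24]]
  word := [[], [], [], [0], [0], [0], [0], [], [2], [2], [2, 1], [1], [1], [1], [1], [], [], [], [], [3], [1], [0,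
    3], [3], [], [], [], [], [0]]
  rank := [0, 0, 0, 0, 1, 2, 3, 0, 4, 0, 2, 3, 2, 1, 0, 0, 1, 2, 3, 0, 1, 2, 4, 3, 2, 1, 0, 1]
  just := [0, 0, 0, 0, 1, 4, 5, 0, 6, 0, 7, 5, 4, 1, 0, 0, 2, 8, 9, 0, 3, 7, 6, 9, 8, 2, 0, 3]
  gA := 3
  gB := 9
  fin := 0
  sid := [0, 1, 2, 3, 1, 4, 5, 1, 0, 6, 7, 0, 5, 4, 3, 1, 2, 8, 9, 6, 7, 7, 0, 6, 9, 8, 2, 3]
  off := [(0, 0), (0, 0), (0, 0), (0, 0), (1, 0), (0, 0), (0, 0), (0, 0), (0, 0), (0, 0), (0, 0), (-1, 0), (-1, 0),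
    (-1, 0), (-1, 0), (0, 0), (0, 0), (0, 0), (0, 0), (0, -1), (0, -1), (1, -1), (0, -1), (0, -1), (0, 0), (0, 0),
    (0, 0), (0, 0)]

/-- glued arcs and equations -/
def tord7k_73 : TorT :=
  ⟨[(0, 0, true), (0, 3, false), (1, 1, false), (2, 4, true), (2, 5, false), (3, 3, true), (4, 6, true), (5, 5,
    true), (6, 6, true)],
    [([0, 0, 0, 0, 0, 1, 1], 2), ([0, 0, 0, 1, 1, 0, 0], 2), ([0, 0, 2, 0, 0, 1, 0], 2), ([1, 0, 0, 1, 0, 0, 1], 2),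
    ([1, 2, 0, 0, 1, 0, 0], 2)]⟩

theorem tord7k_73_ok : tord7k_73.OK 7 := TT.leaf_ok (T := ttd7k_73) (by decide +kernel)

/-- the torus -/
def ttd7k_74 : TT where
  k := 8
  rf := [false, false, false, false, true, true, true, true]
  tau := [13, 15, 26, 19, 18, 17, 11, 30, 31, 28, 29, 6, 16, 0, 27, 1, 12, 5, 4, 3, 25, 37, 38, 35, 36, 20, 2, 14, 9,
    10, 7, 8, 48, 51, 42, 23, 24, 21, 22, 55, 44, 49, 34, 50, 40, 54, 53, 52, 32, 41, 43, 33, 47, 46, 45, 39]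
  par := [0, 0, 1, 2, 7, 21, 32, 33]
  stars := [[0, 11, 30, 7], [1, 13, 16], [2, 15, 27], [3, 26, 20], [4, 19], [5, 18], [6, 17, 12], [8, 31], [9, 32,
    42, 28], [10, 29], [14, 25, 37, 21], [22, 38], [23, 39, 49, 35], [24, 36], [33, 52, 48], [34, 43, 51], [40, 45,
    55], [41, 50, 44], [46, 54], [47, 53]]
  word := [[], [], [], [0], [0], [0], [0], [], [], [3, 1, 2], [3, 1, 2], [1], [], [], [], [], [], [1], [1], [1], [1],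
    [], [], [0], [0], [0], [], [], [3, 0, 2], [3, 0, 2], [], [], [], [], [3, 0, 2], [1], [1], [], [], [2], [2], [1,
    2], [3, 1, 2], [3, 1, 2], [3], [], [], [], [], [3, 0], [3, 0, 2], [], [], [], [], [3]]
  rank := [0, 0, 0, 3, 4, 5, 6, 0, 1, 7, 8, 6, 1, 0, 1, 0, 1, 5, 4, 3, 2, 0, 1, 0, 1, 2, 0, 1, 7, 8, 0, 1, 0, 0, 6,
    0, 1, 0, 1, 0, 4, 2, 6, 5, 4, 3, 2, 1, 0, 2, 5, 0, 1, 2, 3, 0]
  just := [0, 0, 0, 3, 4, 5, 6, 0, 7, 8, 9, 6, 1, 0, 2, 0, 1, 5, 4, 3, 10, 0, 11, 0, 13, 10, 0, 2, 8, 9, 0, 7, 0, 0,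
    15, 0, 13, 0, 11, 0, 16, 12, 15, 17, 16, 18, 19, 14, 0, 12, 17, 0, 14, 19, 18, 0]
  gA := 23
  gB := 39
  fin := 0
  sid := [0, 1, 2, 3, 4, 5, 6, 0, 7, 8, 9, 0, 6, 1, 10, 2, 1, 6, 5, 4, 3, 10, 11, 12, 13, 10, 3, 2, 8, 9, 0, 7, 8,
    14, 15, 12, 13, 10, 11, 12, 16, 17, 8, 15, 17, 16, 18, 19, 14, 12, 17, 15, 14, 19, 18, 16]
  off := [(0, 0), (0, 0), (0, 0), (0, 0), (0, 0), (0, 0), (0, 0), (0, 0), (0, 0), (0, 0), (0, 0), (-1, 0), (-1, 0),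
    (0, 0), (0, 0), (0, 0), (0, 0), (-1, 0), (-1, 0), (-1, 0), (-1, 0), (0, 0), (0, 0), (0, 0), (0, 0), (1, 0), (0,
    0), (0, 0), (1, 0), (1, 0), (0, 0), (0, 0), (0, 0), (0, 0), (0, 0), (-1, 0), (-1, 0), (0, 0), (0, 0), (0, 0), (0,
    0), (0, 0), (0, 0), (-1, 0), (0, -1), (0, -1), (0, 0), (0, 0), (0, 0), (0, -1), (1, -1), (0, 0), (0, 0), (0, 0),
    (0, 0), (0, -1)]

/-- glued arcs and equations -/
def tord7k_74 : TorT :=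
  ⟨[(0, 2, false), (0, 6, true), (1, 1, true), (1, 3, false), (2, 5, true), (3, 5, true), (4, 4, true), (4, 6, true)],
    [([0, 0, 0, 0, 1, 1, 0], 2), ([0, 0, 0, 1, 0, 1, 1], 2), ([0, 1, 0, 1, 0, 0, 0], 2), ([0, 1, 1, 0, 0, 0, 1], 2),
    ([2, 0, 1, 0, 1, 0, 0], 2)]⟩

theorem tord7k_74_ok : tord7k_74.OK 7 := TT.leaf_ok (T := ttd7k_74) (by decide +kernel)

/-- the torus -/
def ttd7k_75 : TT where
  k := 8
  rf := [false, false, true, true, false, false, true, true]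
  tau := [3, 8, 9, 0, 14, 15, 20, 10, 1, 2, 7, 21, 22, 27, 4, 5, 32, 33, 30, 31, 6, 11, 12, 39, 40, 37, 38, 13, 46,
    47, 18, 19, 16, 17, 48, 53, 54, 25, 26, 23, 24, 55, 45, 50, 51, 42, 28, 29, 34, 52, 43, 44, 49, 35, 36, 41]
  par := [0, 1, 4, 11, 16, 23, 28, 35]
  stars := [[0, 14, 4], [1, 3, 9], [2, 8, 10], [5, 15], [6, 16, 32, 20], [7, 21, 11], [12, 22], [13, 23, 39, 27],
    [17, 33], [18, 30, 48, 34], [19, 31], [24, 40], [25, 37, 55, 41], [26, 38], [28, 42, 46], [29, 47], [35, 49, 53],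
    [36, 54], [43, 51, 45], [44, 52, 50]]
  word := [[3], [], [2], [2], [], [], [0, 3, 1], [2], [], [3], [3], [], [], [2], [], [], [], [], [0, 2, 1], [0, 2,
    1], [0, 2, 1], [], [], [], [], [3], [3], [3], [], [], [0, 3, 1], [0, 3, 1], [], [], [0, 2, 1], [], [], [2], [2],
    [], [], [3], [0, 3, 1], [0, 3], [0], [0, 2, 1], [], [], [0, 3, 1], [2], [2, 1], [1], [3], [], [], [2]]
  rank := [7, 0, 6, 7, 0, 1, 6, 5, 0, 6, 5, 0, 1, 4, 0, 1, 0, 1, 4, 5, 6, 0, 1, 0, 1, 2, 3, 4, 0, 1, 4, 5, 0, 1, 3,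
    0, 1, 2, 3, 0, 1, 1, 2, 1, 0, 2, 0, 1, 3, 0, 1, 0, 0, 0, 1, 1]
  just := [1, 0, 2, 1, 0, 3, 4, 5, 0, 2, 5, 0, 6, 7, 0, 3, 0, 8, 9, 10, 4, 0, 6, 0, 11, 12, 13, 7, 0, 15, 9, 10, 0,
    8, 14, 0, 17, 12, 13, 0, 11, 16, 18, 19, 0, 18, 0, 15, 14, 0, 19, 0, 0, 0, 17, 16]
  gA := 44
  gB := 49
  fin := 0
  sid := [0, 1, 2, 1, 0, 3, 4, 5, 2, 1, 2, 5, 6, 7, 0, 3, 4, 8, 9, 10, 4, 5, 6, 7, 11, 12, 13, 7, 14, 15, 9, 10, 4,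
    8, 9, 16, 17, 12, 13, 7, 11, 12, 14, 18, 19, 18, 14, 15, 9, 16, 19, 18, 19, 16, 17, 12]
  off := [(0, 0), (0, 0), (0, 0), (0, 1), (0, 1), (0, 0), (0, 0), (0, 0), (0, 0), (0, 0), (0, -1), (0, -1), (0, 0),
    (0, 0), (0, 1), (0, 0), (0, 0), (0, 0), (0, 0), (0, 0), (0, 1), (0, -1), (0, 0), (0, 0), (0, 0), (0, 0), (0, 0),
    (0, -1), (0, 0), (0, 0), (0, -1), (0, -1), (0, 0), (0, 0), (0, 0), (0, 0), (0, 0), (0, 1), (0, 1), (0, 0), (0,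
    0), (0, 0), (0, -1), (0, 0), (0, 0), (0, 1), (0, 0), (0, 0), (0, -1), (0, 1), (-1, 1), (-1, 1), (-1, 0), (0, 0),
    (0, 0), (0, 1)]

/-- glued arcs and equations -/
def tord7k_75 : TorT :=
  ⟨[(0, 3, true), (0, 4, false), (1, 1, true), (1, 5, false), (2, 2, true), (2, 4, false), (3, 5, false), (6, 6,
    false)],
    [([0, 0, 0, 1, 0, 1, 0], 2), ([0, 0, 1, 0, 1, 0, 2], 2), ([0, 1, 0, 0, 0, 1, 0], 2), ([0, 1, 1, 1, 0, 0, 0], 2),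
    ([2, 0, 0, 0, 1, 0, 0], 2)]⟩

theorem tord7k_75_ok : tord7k_75.OK 7 := TT.leaf_ok (T := ttd7k_75) (by decide +kernel)

/-- the torus -/
def ttd7k_76 : TT where
  k := 8
  rf := [false, false, false, true, true, true, true, false]
  tau := [13, 12, 16, 22, 18, 30, 31, 32, 38, 47, 48, 28, 1, 0, 55, 54, 2, 29, 4, 23, 24, 53, 3, 19, 20, 49, 36, 35,
    11, 17, 5, 6, 7, 43, 42, 27, 26, 44, 8, 46, 51, 52, 34, 33, 37, 50, 39, 9, 10, 25, 45, 40, 41, 21, 15, 14]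
  par := [0, 0, 2, 3, 5, 8, 9, 14]
  stars := [[0, 32, 7], [1, 13], [2, 12, 29, 17], [3, 16, 54, 22], [4, 23, 19], [5, 18, 30], [6, 31], [8, 33, 44,
    38], [9, 39, 47], [10, 48], [11, 42, 28], [14, 25, 49], [15, 55], [20, 24], [21, 53, 35], [26, 37, 45, 50], [27,
    36], [34, 43], [40, 51, 46], [41, 52]]
  word := [[], [], [], [], [0], [], [], [2, 0, 3, 1], [], [], [], [1], [], [], [], [], [], [1], [1], [1], [1], [],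
    [], [0], [0], [0], [3], [3], [0], [0], [], [], [0, 2, 1, 3], [0], [0], [2], [2], [2, 0, 3], [], [], [2], [2],
    [1], [1], [2, 1, 3], [2], [], [], [], [1], [3], [3], [3], [], [], []]
  rank := [0, 1, 0, 0, 0, 0, 1, 6, 0, 0, 1, 2, 1, 0, 0, 1, 0, 1, 0, 1, 2, 2, 0, 1, 2, 3, 4, 3, 2, 1, 0, 1, 6, 4, 3,
    3, 4, 5, 0, 1, 1, 0, 3, 4, 5, 2, 1, 0, 1, 3, 2, 1, 0, 2, 1, 0]
  just := [0, 1, 0, 0, 0, 0, 6, 7, 0, 0, 9, 2, 1, 0, 0, 12, 0, 5, 0, 4, 13, 3, 0, 4, 13, 11, 16, 14, 2, 5, 0, 6, 7,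
    17, 10, 14, 16, 15, 0, 8, 19, 0, 10, 17, 15, 18, 8, 0, 9, 11, 18, 19, 0, 3, 12, 0]
  gA := 4
  gB := 41
  fin := 0
  sid := [0, 1, 2, 3, 4, 5, 6, 0, 7, 8, 9, 10, 2, 1, 11, 12, 3, 2, 5, 4, 13, 14, 3, 4, 13, 11, 15, 16, 10, 2, 5, 6,
    0, 7, 17, 14, 16, 15, 7, 8, 18, 19, 10, 17, 7, 15, 18, 8, 9, 11, 15, 18, 19, 14, 3, 12]
  off := [(0, 0), (0, 0), (0, 0), (0, 0), (0, 0), (0, 0), (0, 0), (0, 0), (0, 0), (0, 0), (0, 0), (0, 0), (0, 0), (0,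
    0), (0, 0), (0, 0), (0, 0), (0, 0), (-1, 0), (-1, 0), (0, 0), (0, 0), (0, 0), (0, 0), (1, 0), (1, 0), (0, 0), (0,
    0), (1, 0), (1, 0), (0, 0), (0, 0), (0, 0), (0, 0), (0, 0), (0, 1), (0, 1), (0, 1), (0, 0), (0, 0), (0, 0), (0,
    0), (0, 0), (-1, 0), (-1, 0), (-1, 1), (0, 0), (0, 0), (0, 0), (0, 0), (-1, 0), (0, -1), (0, -1), (0, 0), (0, 0),
    (0, 0)]

/-- glued arcs and equations -/
def tord7k_76 : TorT :=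
  ⟨[(0, 4, false), (0, 6, true), (1, 3, false), (1, 5, true), (2, 2, true), (2, 5, false), (3, 6, false), (4, 4,
    true)],
    [([0, 0, 0, 1, 0, 0, 1], 2), ([0, 0, 1, 0, 1, 1, 0], 2), ([0, 1, 0, 0, 0, 0, 1], 2), ([0, 1, 1, 1, 0, 1, 0], 2),
    ([2, 0, 0, 0, 1, 0, 0], 2)]⟩

theorem tord7k_76_ok : tord7k_76.OK 7 := TT.leaf_ok (T := ttd7k_76) (by decide +kernel)

end Pool.Agent.Lib_MP_fa6e45
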