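import Pool.Agent.Lib_MP_fa6e45.CT5

/-!
MP_fa6e45_co, stage 9: straight-side patterns with `7` sides, tables of tori (generated by a program).
-/

namespace Pool.Agent.Lib_MP_fa6e45

/-- the torus -/
def ttd7k_77 : TT where
  k := 4
  rf := [false, false, true, true]
  tau := [7, 14, 25, 10, 19, 12, 27, 0, 21, 18, 3, 26, 5, 20, 1, 24, 23, 22, 9, 4, 13, 8, 17, 16, 15, 2, 11, 6]
  par := [0, 0, 1, 2]
  stars := [[0, 21, 8], [1, 7, 14], [2, 15, 25], [3, 26, 11], [4, 10, 19], [5, 20, 13], [6, 12, 27], [9, 22, 18],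
    [16, 24], [17, 23]]
  word := [[], [], [], [0], [2], [2], [2, 1], [], [1, 2], [1, 2], [1], [1], [3], [], [], [], [], [], [3, 0], [3], [],
    [3, 0], [], [], [], [], [0], [0, 3]]
  rank := [0, 0, 0, 0, 0, 2, 3, 0, 4, 1, 0, 1, 2, 1, 0, 1, 2, 3, 1, 0, 1, 4, 3, 2, 1, 0, 1, 3]
  just := [0, 0, 0, 0, 0, 5, 6, 0, 7, 4, 0, 3, 5, 1, 0, 2, 8, 9, 4, 0, 1, 7, 9, 8, 2, 0, 3, 6]
  gA := 3
  gB := 4
  fin := 0
  sid := [0, 1, 2, 3, 4, 5, 6, 1, 0, 7, 4, 3, 6, 5, 1, 2, 8, 9, 7, 4, 5, 0, 7, 9, 8, 2, 3, 6]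
  off := [(0, 0), (0, 0), (0, 0), (0, 0), (0, 0), (0, 0), (0, 0), (0, 0), (0, 0), (0, 0), (-1, 0), (-1, 0), (0, -1),
    (0, -1), (0, 0), (0, 0), (0, 0), (0, 0), (1, -1), (0, -1), (0, -1), (1, -1), (1, -1), (0, 0), (0, 0), (0, 0), (0,
    0), (1, -1)]

/-- glued arcs and equations -/
def tord7k_77 : TorT :=
  ⟨[(0, 0, true), (0, 1, false), (1, 3, true), (2, 2, true), (2, 4, false), (3, 3, true), (4, 5, false), (5, 5,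
    true), (6, 6, false)],
    [([0, 0, 0, 0, 0, 1, 2], 2), ([0, 0, 0, 1, 1, 1, 0], 2), ([0, 0, 1, 1, 0, 0, 0], 2), ([0, 1, 1, 0, 1, 0, 0], 2),
    ([2, 1, 0, 0, 0, 0, 0], 2)]⟩

theorem tord7k_77_ok : tord7k_77.OK 7 := TT.leaf_ok (T := ttd7k_77) (by decide +kernel)

/-- the torus -/
def ttd7k_78 : TT where
  k := 4
  rf := [false, false, true, true]
  tau := [8, 18, 19, 21, 15, 16, 9, 17, 0, 6, 26, 27, 24, 25, 22, 4, 5, 7, 1, 2, 23, 3, 14, 20, 12, 13, 10, 11]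
  par := [0, 0, 1, 3]
  stars := [[0, 9], [1, 8, 18], [2, 19], [3, 20, 24, 12, 21], [4, 22, 15], [5, 16], [6, 17, 7, 26, 10], [11, 27],
    [13, 25], [14, 23]]
  word := [[], [], [], [], [3], [3], [3, 0, 2, 1], [], [], [0, 3, 1, 2], [0, 3], [0, 3], [0], [0], [2], [2], [2], [],
    [], [], [2], [], [3], [3], [1], [1], [2, 1], [2, 1]]
  rank := [0, 0, 1, 0, 2, 3, 4, 1, 0, 4, 3, 2, 0, 1, 1, 2, 3, 1, 0, 1, 0, 0, 1, 0, 0, 1, 3, 2]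
  just := [0, 0, 2, 0, 4, 5, 6, 1, 0, 6, 7, 3, 0, 8, 9, 4, 5, 1, 0, 2, 0, 0, 9, 0, 0, 8, 7, 3]
  gA := 12
  gB := 20
  fin := 0
  sid := [0, 1, 2, 3, 4, 5, 6, 6, 1, 0, 6, 7, 3, 8, 9, 4, 5, 6, 1, 2, 3, 3, 4, 9, 3, 8, 6, 7]
  off := [(0, 0), (0, 0), (0, 0), (0, 0), (0, 0), (0, 0), (0, 0), (0, 1), (0, 0), (0, 0), (0, 0), (0, 0), (1, -1),
    (0, 0), (0, 0), (0, 1), (0, 1), (0, 1), (0, 0), (0, 0), (0, 0), (0, 0), (0, 0), (0, -1), (0, -1), (-1, 0), (-1,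
    1), (-1, 1)]

/-- glued arcs and equations -/
def tord7k_78 : TorT :=
  ⟨[(0, 1, true), (0, 3, false), (1, 4, false), (2, 5, false), (2, 6, true), (3, 5, false), (4, 6, false)],
    [([0, 0, 0, 0, 1, 0, 1], 2), ([0, 0, 1, 0, 0, 1, 0], 2), ([0, 2, 0, 0, 1, 0, 0], 2), ([1, 0, 0, 2, 0, 1, 1], 2),
    ([1, 0, 1, 0, 0, 0, 0], 2)]⟩

theorem tord7k_78_ok : tord7k_78.OK 7 := TT.leaf_ok (T := ttd7k_78) (by decide +kernel)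

/-- the torus -/
def ttd7k_79 : TT where
  k := 4
  rf := [false, false, false, false]
  tau := [7, 20, 9, 26, 15, 12, 21, 0, 27, 2, 19, 22, 5, 14, 13, 4, 25, 24, 23, 10, 1, 6, 11, 18, 17, 16, 3, 8]
  par := [0, 0, 1, 3]
  stars := [[0, 21, 8], [1, 7, 14], [2, 20, 10], [3, 9, 27], [4, 26, 16], [5, 15, 13], [6, 12, 22], [11, 19, 23],
    [17, 25], [18, 24]]
  word := [[], [], [1], [], [3], [3], [3, 0, 2], [], [0], [0], [0], [0, 2], [2], [], [], [2], [2], [2], [2], [1], [],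
    [3, 1, 2], [3, 1], [3], [3], [3], [], [1]]
  rank := [0, 0, 1, 0, 2, 3, 4, 0, 2, 1, 0, 2, 3, 1, 1, 2, 1, 0, 1, 0, 0, 4, 2, 1, 0, 1, 0, 2]
  just := [0, 0, 2, 0, 4, 5, 6, 0, 3, 2, 0, 7, 5, 1, 1, 4, 8, 0, 9, 0, 0, 6, 7, 9, 0, 8, 0, 3]
  gA := 10
  gB := 17
  fin := 0
  sid := [0, 1, 2, 3, 4, 5, 6, 1, 0, 3, 2, 7, 6, 5, 1, 5, 4, 8, 9, 7, 2, 0, 6, 7, 9, 8, 4, 3]
  off := [(0, 0), (0, 0), (0, 0), (0, 0), (0, 0), (0, 0), (0, 0), (0, 0), (0, 0), (1, 0), (1, 0), (0, 0), (0, 1), (0,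
    1), (0, 0), (0, 1), (0, 1), (0, 0), (0, 0), (-1, 0), (0, 0), (-1, 0), (-1, 0), (-1, -1), (0, -1), (0, -1), (0,
    0), (0, 0)]

/-- glued arcs and equations -/
def tord7k_79 : TorT :=
  ⟨[(0, 0, true), (0, 6, true), (1, 4, true), (1, 6, true), (2, 2, true), (2, 4, true), (3, 3, true), (3, 5, true),
    (5, 5, true)],
    [([0, 0, 0, 1, 1, 0, 0], 2), ([0, 0, 1, 0, 1, 1, 0], 2), ([0, 0, 1, 1, 0, 0, 1], 2), ([0, 1, 0, 0, 0, 1, 1], 2),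
    ([2, 1, 0, 0, 0, 0, 0], 2)]⟩

theorem tord7k_79_ok : tord7k_79.OK 7 := TT.leaf_ok (T := ttd7k_79) (by decide +kernel)

/-- the torus -/
def ttd7k_80 : TT where
  k := 8
  rf := [false, false, true, false, true, true, true, false]
  tau := [8, 17, 25, 24, 23, 32, 20, 16, 0, 14, 36, 47, 54, 41, 9, 35, 7, 1, 26, 33, 6, 50, 31, 4, 3, 2, 18, 34, 51,
    42, 49, 22, 5, 19, 27, 15, 10, 46, 45, 44, 53, 13, 29, 52, 39, 38, 37, 11, 55, 30, 21, 28, 43, 40, 12, 48]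
  par := [0, 0, 1, 2, 5, 10, 11, 12]
  stars := [[0, 14, 9], [1, 8, 17], [2, 18, 26], [3, 25], [4, 24], [5, 23, 32], [6, 33, 20], [7, 35, 16], [10, 15,
    36], [11, 37, 47], [12, 48, 55], [13, 54, 41], [19, 34, 27], [21, 28, 51], [22, 50, 31], [29, 43, 52], [30, 49,
    42], [38, 46], [39, 45], [40, 53, 44]]
  word := [[], [], [], [], [], [], [0, 2, 1], [], [], [2], [], [], [], [3], [3], [3], [], [], [], [0, 3, 1], [0, 3,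
    1], [0], [], [], [], [], [], [0, 3, 1], [0, 2], [0], [0], [], [], [0, 2, 1], [0, 2, 1], [2], [], [], [], [], [2],
    [2], [1], [2], [], [], [], [], [], [1], [1], [3, 1], [3], [3], [], []]
  rank := [0, 0, 0, 1, 2, 0, 7, 1, 0, 7, 0, 0, 0, 5, 7, 6, 1, 0, 1, 6, 7, 4, 3, 2, 1, 0, 1, 5, 1, 0, 2, 3, 0, 6, 5,
    6, 0, 1, 2, 3, 4, 5, 0, 0, 3, 2, 1, 0, 1, 2, 4, 1, 0, 4, 0, 1]
  just := [0, 0, 0, 3, 4, 0, 6, 1, 0, 8, 0, 0, 0, 11, 8, 7, 1, 0, 2, 12, 6, 14, 5, 4, 3, 0, 2, 13, 15, 0, 16, 5, 0,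
    12, 13, 7, 0, 9, 17, 18, 19, 11, 0, 0, 18, 17, 9, 0, 10, 16, 14, 15, 0, 19, 0, 10]
  gA := 29
  gB := 43
  fin := 0
  sid := [0, 1, 2, 3, 4, 5, 6, 7, 1, 0, 8, 9, 10, 11, 0, 8, 7, 1, 2, 12, 6, 13, 14, 5, 4, 3, 2, 12, 13, 15, 16, 14,
    5, 6, 12, 7, 8, 9, 17, 18, 19, 11, 16, 15, 19, 18, 17, 9, 10, 16, 14, 13, 15, 19, 11, 10]
  off := [(0, 0), (0, 0), (0, 0), (0, 0), (0, 0), (0, 0), (0, 0), (0, 0), (0, 0), (0, 0), (0, 0), (0, 0), (0, 0), (0,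
    0), (0, -1), (0, -1), (0, 0), (0, 0), (0, 0), (0, 0), (0, -1), (0, 0), (0, 0), (0, 0), (0, 0), (0, 0), (0, 0),
    (0, 0), (0, 1), (0, 0), (0, 0), (0, 0), (0, 0), (0, 0), (0, 1), (0, 1), (0, 0), (0, 0), (0, 0), (0, 0), (0, 0),
    (0, 1), (-1, 0), (-1, 0), (0, 0), (0, 0), (0, 0), (0, 0), (0, 0), (-1, 0), (-1, 0), (-1, 0), (-1, -1), (0, -1),
    (0, 0), (0, 0)]

/-- glued arcs and equations -/
def tord7k_80 : TorT :=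
  ⟨[(0, 1, true), (0, 2, false), (1, 3, false), (2, 4, true), (3, 3, true), (4, 5, false), (5, 5, true), (6, 6,
    false)],
    [([0, 0, 0, 0, 0, 1, 2], 2), ([0, 0, 0, 1, 1, 0, 0], 2), ([0, 0, 1, 0, 1, 1, 0], 2), ([0, 2, 0, 1, 0, 0, 0], 2),
    ([2, 0, 1, 0, 0, 0, 0], 2)]⟩

theorem tord7k_80_ok : tord7k_80.OK 7 := TT.leaf_ok (T := ttd7k_80) (by decide +kernel)

/-- the torus -/
def ttd7k_81 : TT where
  k := 4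
  rf := [false, false, false, false]
  tau := [7, 13, 20, 10, 26, 17, 8, 0, 6, 27, 3, 19, 24, 1, 23, 22, 21, 5, 25, 11, 2, 16, 15, 14, 12, 18, 4, 9]
  par := [0, 0, 2, 4]
  stars := [[0, 8], [1, 7], [2, 13, 24, 14], [3, 20, 11], [4, 10, 27], [5, 26, 18], [6, 17, 21, 9], [12, 19, 25],
    [15, 23], [16, 22]]
  word := [[], [], [], [1], [], [3, 0], [3, 0, 2, 1], [], [0, 3, 1, 2], [0], [0], [0], [2], [], [2], [2], [2], [1,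
    2], [1, 2], [1], [], [3], [3], [3], [3], [3, 0], [], [1]]
  rank := [0, 1, 0, 1, 0, 4, 5, 0, 5, 2, 1, 0, 2, 1, 0, 1, 2, 4, 3, 0, 0, 2, 1, 0, 2, 3, 0, 2]
  just := [0, 1, 0, 3, 0, 5, 6, 0, 6, 4, 3, 0, 2, 1, 0, 8, 9, 5, 7, 0, 0, 9, 8, 0, 2, 7, 0, 4]
  gA := 11
  gB := 14
  fin := 0
  sid := [0, 1, 2, 3, 4, 5, 6, 1, 0, 6, 4, 3, 7, 2, 2, 8, 9, 6, 5, 7, 3, 6, 9, 8, 2, 7, 5, 4]
  off := [(0, 0), (0, 0), (0, 0), (0, 0), (0, 0), (0, 0), (0, 0), (0, 0), (0, 0), (0, 0), (1, 0), (1, 0), (0, 0), (0,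
    0), (0, 0), (0, 0), (0, 0), (-1, 1), (-1, 1), (-1, 0), (0, 0), (-1, 0), (0, -1), (0, -1), (0, -1), (0, -1), (0,
    0), (0, 0)]

/-- glued arcs and equations -/
def tord7k_81 : TorT :=
  ⟨[(0, 0, true), (0, 2, true), (1, 1, true), (1, 6, true), (2, 6, true), (3, 3, true), (3, 5, true), (4, 4, true),
    (4, 5, true)],
    [([0, 0, 0, 0, 1, 2, 0], 2), ([0, 0, 0, 1, 1, 0, 1], 2), ([0, 1, 1, 0, 0, 0, 0], 2), ([1, 0, 1, 1, 0, 0, 1], 2),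
    ([1, 1, 0, 0, 0, 0, 0], 2)]⟩

theorem tord7k_81_ok : tord7k_81.OK 7 := TT.leaf_ok (T := ttd7k_81) (by decide +kernel)

/-- the torus -/
def ttd7k_82 : TT where
  k := 4
  rf := [false, false, true, true]
  tau := [13, 12, 20, 21, 10, 9, 16, 17, 25, 5, 4, 22, 1, 0, 27, 26, 6, 7, 24, 23, 2, 3, 11, 19, 18, 8, 15, 14]
  par := [0, 0, 2, 3]
  stars := [[0, 17, 7], [1, 13], [2, 12, 23, 20], [3, 14, 21], [4, 22, 11], [5, 10], [6, 9, 26, 16], [8, 18, 25],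
    [15, 27], [19, 24]]
  word := [[], [], [], [], [3], [3], [3, 0], [0, 3], [0], [2], [2], [2], [], [], [], [], [1, 2], [2, 1], [2], [2],
    [], [], [3], [3], [3], [1], [], []]
  rank := [0, 1, 0, 0, 1, 2, 3, 4, 0, 2, 1, 0, 1, 0, 1, 2, 3, 4, 3, 2, 0, 0, 0, 2, 3, 0, 2, 1]
  just := [0, 1, 0, 0, 4, 5, 6, 7, 0, 5, 4, 0, 1, 0, 3, 8, 6, 7, 9, 2, 0, 0, 0, 2, 9, 0, 8, 3]
  gA := 8
  gB := 11
  fin := 0
  sid := [0, 1, 2, 3, 4, 5, 6, 0, 7, 6, 5, 4, 2, 1, 3, 8, 6, 0, 7, 9, 2, 3, 4, 2, 9, 7, 6, 8]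
  off := [(0, 0), (0, 0), (0, 0), (0, 0), (0, 0), (0, 0), (0, 0), (0, 0), (0, 0), (0, 1), (0, 1), (0, 1), (0, 0), (0,
    0), (0, 0), (0, 0), (-1, 1), (-1, 1), (-1, 1), (0, 0), (0, 0), (0, 0), (0, 0), (0, -1), (0, -1), (-1, 0), (-1,
    1), (0, 0)]

/-- glued arcs and equations -/
def tord7k_82 : TorT :=
  ⟨[(0, 3, false), (0, 6, true), (1, 4, false), (1, 5, true), (2, 5, true), (2, 6, false), (3, 4, true)],
    [([0, 0, 0, 1, 0, 1, 0], 2), ([0, 0, 2, 0, 0, 1, 1], 2), ([0, 1, 0, 0, 0, 0, 1], 2), ([0, 1, 0, 0, 2, 0, 0], 2),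
    ([2, 0, 0, 1, 0, 0, 0], 2)]⟩

theorem tord7k_82_ok : tord7k_82.OK 7 := TT.leaf_ok (T := ttd7k_82) (by decide +kernel)

/-- the torus -/
def ttd7k_83 : TT where
  k := 8
  rf := [false, false, false, false, true, true, true, true]
  tau := [9, 8, 7, 18, 23, 22, 34, 2, 1, 0, 25, 16, 15, 41, 40, 12, 11, 24, 3, 35, 48, 33, 5, 4, 17, 10, 28, 55, 26,
    54, 53, 38, 45, 21, 6, 19, 47, 46, 31, 52, 14, 13, 51, 50, 49, 32, 37, 36, 20, 44, 43, 42, 39, 30, 29, 27]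
  par := [0, 0, 3, 4, 6, 13, 20, 27]
  stars := [[0, 28, 26, 10], [1, 9], [2, 8], [3, 7, 35, 19], [4, 18, 24], [5, 23], [6, 22, 34], [11, 25, 17], [12,
    16], [13, 15, 41], [14, 42, 52, 40], [20, 36, 48], [21, 49, 45, 33], [27, 29, 55], [30, 54], [31, 39, 53], [32,
    46, 38], [37, 47], [43, 51], [44, 50]]
  word := [[], [], [], [], [], [], [], [], [], [], [0, 3], [0, 3], [0, 3], [], [2, 1], [2, 1], [2, 1], [], [], [],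
    [], [], [], [], [], [2, 1], [1, 2], [], [3, 0], [3, 0], [3, 0], [3], [3], [], [], [], [], [], [2], [0], [0, 3],
    [], [2], [2], [2], [2], [], [], [], [3], [3], [3], [1], [1, 2], [1, 2], []]
  rank := [0, 1, 2, 0, 0, 1, 0, 2, 1, 0, 6, 5, 4, 0, 3, 4, 5, 1, 0, 3, 0, 2, 1, 0, 1, 6, 9, 0, 9, 8, 7, 6, 3, 2, 0,
    3, 4, 5, 6, 0, 3, 0, 2, 1, 0, 3, 5, 4, 0, 0, 1, 2, 0, 7, 8, 0]
  just := [0, 1, 2, 0, 0, 5, 0, 2, 1, 0, 7, 8, 9, 0, 10, 9, 8, 4, 0, 3, 0, 6, 5, 0, 4, 7, 13, 0, 13, 14, 15, 16, 12,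
    6, 0, 3, 11, 17, 16, 0, 10, 0, 18, 19, 0, 12, 17, 11, 0, 0, 19, 18, 0, 15, 14, 0]
  gA := 39
  gB := 44
  fin := 0
  sid := [0, 1, 2, 3, 4, 5, 6, 3, 2, 1, 0, 7, 8, 9, 10, 9, 8, 7, 4, 3, 11, 12, 6, 5, 4, 7, 0, 13, 0, 13, 14, 15, 16,
    12, 6, 3, 11, 17, 16, 15, 10, 9, 10, 18, 19, 12, 16, 17, 11, 12, 19, 18, 10, 15, 14, 13]
  off := [(0, 0), (0, 0), (0, 0), (0, 0), (0, 0), (0, 0), (0, 0), (0, 0), (0, 0), (0, 0), (0, 0), (0, 0), (0, 0), (0,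
    0), (0, 0), (-1, 1), (-1, 1), (-1, 1), (0, 0), (0, 0), (0, 0), (0, 0), (0, 0), (0, 0), (0, 0), (-1, 1), (-1, 1),
    (0, 0), (0, 0), (1, -1), (0, 0), (0, 0), (0, 0), (0, 0), (0, 0), (0, 0), (0, 0), (0, 0), (0, 1), (0, 1), (1, -1),
    (0, 0), (0, 0), (0, 0), (0, 0), (0, 1), (0, 1), (0, 0), (0, 0), (0, 0), (0, -1), (0, -1), (0, -1), (-1, 1), (-1,
    1), (0, 0)]

/-- glued arcs and equations -/
def tord7k_83 : TorT :=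
  ⟨[(0, 2, true), (0, 5, false), (1, 1, true), (1, 5, true), (2, 4, true), (3, 3, true), (3, 4, true), (6, 6, false)],
    [([0, 0, 0, 1, 2, 0, 0], 2), ([0, 0, 1, 0, 0, 1, 0], 2), ([0, 1, 0, 0, 0, 0, 2], 2), ([0, 1, 1, 0, 0, 0, 0], 2),
    ([2, 0, 0, 1, 0, 1, 0], 2)]⟩

theorem tord7k_83_ok : tord7k_83.OK 7 := TT.leaf_ok (T := ttd7k_83) (by decide +kernel)

/-- the torus -/
def ttd7k_84 : TT where
  k := 8
  rf := [false, false, false, true, false, true, true, true]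
  tau := [7, 20, 19, 24, 15, 12, 28, 0, 34, 33, 38, 29, 5, 14, 13, 4, 25, 45, 23, 2, 1, 55, 46, 18, 3, 16, 44, 43, 6,
    11, 39, 52, 37, 9, 8, 48, 53, 32, 10, 30, 51, 50, 49, 27, 26, 17, 22, 54, 35, 42, 41, 40, 31, 36, 47, 21]
  par := [0, 0, 1, 3, 6, 10, 17, 21]
  stars := [[0, 28, 8], [1, 7, 14], [2, 20], [3, 19, 24], [4, 25, 16], [5, 15, 13], [6, 12, 29], [9, 34], [10, 33,
    38], [11, 39, 30], [17, 26, 45], [18, 46, 23], [21, 49, 43], [22, 47, 55], [27, 44], [31, 40, 52], [32, 53, 37],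
    [35, 42, 50], [36, 54, 48], [41, 51]]
  word := [[], [], [], [], [1], [1], [], [], [2, 1, 3, 0], [2, 1, 3, 0], [], [0], [0], [], [], [0], [0], [], [], [],
    [], [], [], [], [], [1], [1], [1], [], [1], [1], [1, 2], [1, 2, 0, 3], [1, 2, 0, 3], [1, 2, 0, 3], [2, 1], [2,
    1], [2, 1, 3, 0], [], [0], [2], [2], [0], [0], [0], [], [], [], [0, 3], [1], [3], [3], [3, 0], [0, 3], [], []]
  rank := [0, 0, 1, 0, 1, 2, 0, 0, 8, 7, 0, 3, 2, 1, 1, 1, 0, 0, 2, 1, 0, 0, 3, 2, 0, 0, 1, 2, 0, 3, 4, 5, 6, 7, 8,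
    4, 5, 6, 0, 4, 1, 0, 3, 2, 1, 0, 3, 4, 4, 3, 0, 1, 5, 5, 4, 0]
  just := [0, 0, 2, 0, 4, 5, 0, 0, 7, 8, 0, 6, 5, 1, 1, 4, 0, 0, 3, 2, 0, 0, 11, 3, 0, 0, 10, 14, 0, 6, 9, 15, 16, 8,
    7, 17, 18, 16, 0, 9, 19, 0, 12, 14, 10, 0, 11, 13, 17, 12, 0, 19, 15, 18, 13, 0]
  gA := 16
  gB := 41
  fin := 0
  sid := [0, 1, 2, 3, 4, 5, 6, 1, 0, 7, 8, 9, 6, 5, 1, 5, 4, 10, 11, 3, 2, 12, 13, 11, 3, 4, 10, 14, 0, 6, 9, 15, 16,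
    8, 7, 17, 18, 16, 8, 9, 15, 19, 17, 12, 14, 10, 11, 13, 18, 12, 17, 19, 15, 16, 18, 13]
  off := [(0, 0), (0, 0), (0, 0), (0, 0), (0, 0), (0, 0), (0, 0), (0, 0), (0, 0), (0, 0), (0, 0), (0, 0), (1, 0), (1,
    0), (0, 0), (1, 0), (1, 0), (0, 0), (0, 0), (0, 0), (0, 0), (0, 0), (0, 0), (0, 0), (0, 0), (0, 0), (-1, 0), (0,
    0), (0, 0), (0, 0), (-1, 0), (0, 0), (0, 0), (0, 0), (0, 0), (0, 0), (0, 0), (0, 0), (0, 0), (0, 0), (1, 0), (0,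
    0), (1, -1), (1, 0), (1, 0), (0, 0), (0, 0), (0, 0), (1, -1), (0, 0), (0, -1), (0, -1), (1, -1), (1, -1), (1,
    -1), (0, 0)]

/-- glued arcs and equations -/
def tord7k_84 : TorT :=
  ⟨[(0, 0, true), (0, 6, true), (1, 4, true), (1, 6, true), (2, 4, false), (2, 5, true), (3, 3, false), (5, 5, true)],
    [([0, 0, 0, 2, 0, 1, 0], 2), ([0, 0, 1, 0, 0, 0, 1], 2), ([0, 0, 1, 0, 2, 0, 0], 2), ([0, 1, 0, 0, 0, 1, 1], 2),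
    ([2, 1, 0, 0, 0, 0, 0], 2)]⟩

theorem tord7k_84_ok : tord7k_84.OK 7 := TT.leaf_ok (T := ttd7k_84) (by decide +kernel)

/-- the torus -/
def ttd7k_85 : TT where
  k := 4
  rf := [false, false, true, true]
  tau := [8, 18, 26, 27, 12, 23, 24, 17, 0, 20, 14, 22, 4, 16, 10, 21, 13, 7, 1, 25, 9, 15, 11, 5, 6, 19, 2, 3]
  par := [0, 0, 1, 2]
  stars := [[0, 25, 20, 9], [1, 8, 18], [2, 19, 26], [3, 27], [4, 21, 16, 13], [5, 12, 23], [6, 24], [7, 17], [10,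
    14], [11, 15, 22]]
  word := [[], [], [], [], [3], [3, 0], [3, 0], [], [], [0, 3], [0, 3], [0], [2], [], [2, 1], [2], [], [], [], [],
    [2, 1], [3], [1], [1, 2], [1, 2], [], [], []]
  rank := [0, 0, 0, 1, 3, 4, 5, 1, 0, 2, 1, 0, 3, 2, 1, 0, 2, 1, 0, 1, 2, 0, 0, 4, 5, 1, 0, 1]
  just := [0, 0, 0, 3, 4, 5, 6, 1, 0, 8, 9, 0, 4, 7, 9, 0, 7, 1, 0, 2, 8, 0, 0, 5, 6, 2, 0, 3]
  gA := 11
  gB := 15
  fin := 0
  sid := [0, 1, 2, 3, 4, 5, 6, 7, 1, 0, 8, 9, 5, 4, 8, 9, 4, 7, 1, 2, 0, 4, 9, 5, 6, 0, 2, 3]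
  off := [(0, 0), (0, 0), (0, 0), (0, 0), (0, 0), (0, 0), (0, 0), (0, 0), (0, 0), (0, 0), (0, 0), (0, 0), (0, 1), (0,
    1), (-1, 1), (-1, 1), (0, 1), (0, 0), (0, 0), (0, 0), (-1, 1), (0, 0), (-1, 0), (-1, 1), (-1, 1), (-1, 1), (0,
    0), (0, 0)]

/-- glued arcs and equations -/
def tord7k_85 : TorT :=
  ⟨[(0, 1, true), (0, 3, false), (1, 4, false), (2, 5, false), (2, 6, false), (3, 6, false), (4, 5, true)],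
    [([0, 0, 0, 1, 0, 0, 1], 2), ([0, 0, 1, 0, 0, 2, 0], 2), ([0, 2, 0, 0, 1, 0, 0], 2), ([1, 0, 0, 1, 0, 0, 0], 2),
    ([1, 0, 1, 0, 1, 0, 1], 2)]⟩

theorem tord7k_85_ok : tord7k_85.OK 7 := TT.leaf_ok (T := ttd7k_85) (by decide +kernel)

/-- the torus -/
def ttd7k_86 : TT where
  k := 4
  rf := [false, false, true, true]
  tau := [7, 13, 17, 10, 25, 20, 8, 0, 6, 24, 3, 18, 27, 1, 23, 22, 21, 2, 11, 26, 5, 16, 15, 14, 9, 4, 19, 12]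
  par := [0, 0, 2, 4]
  stars := [[0, 8], [1, 7], [2, 13, 21, 17], [3, 18, 11], [4, 10, 25], [5, 26, 20], [6, 14, 24, 9], [12, 19, 27],
    [15, 23], [16, 22]]
  word := [[], [], [], [1], [], [3, 0], [3, 0, 2, 1], [], [0, 3, 1, 2], [0], [0], [0], [2], [], [2], [2], [2], [],
    [1], [1, 2], [1, 2], [3], [3], [3], [1], [], [3, 0], [3]]
  rank := [0, 1, 0, 1, 0, 4, 5, 0, 5, 2, 1, 0, 2, 1, 2, 1, 0, 0, 0, 3, 4, 0, 1, 2, 2, 0, 3, 2]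
  just := [0, 1, 0, 3, 0, 5, 6, 0, 6, 4, 3, 0, 2, 1, 8, 9, 0, 0, 0, 7, 5, 0, 9, 8, 4, 0, 7, 2]
  gA := 11
  gB := 16
  fin := 0
  sid := [0, 1, 2, 3, 4, 5, 6, 1, 0, 6, 4, 3, 7, 2, 6, 8, 9, 2, 3, 7, 5, 2, 9, 8, 6, 4, 5, 7]
  off := [(0, 0), (0, 0), (0, 0), (0, 0), (0, 0), (0, 0), (0, 0), (0, 0), (0, 0), (0, 0), (1, 0), (1, 0), (0, 0), (0,
    0), (-1, 1), (0, 0), (0, 0), (0, 0), (0, 0), (-1, 0), (-1, 1), (0, -1), (0, -1), (0, -1), (-1, 0), (0, 0), (0,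
    0), (0, -1)]

/-- glued arcs and equations -/
def tord7k_86 : TorT :=
  ⟨[(0, 0, true), (0, 2, true), (1, 1, true), (1, 6, true), (2, 3, false), (3, 3, true), (4, 4, false), (5, 5, true),
    (5, 6, false)],
    [([0, 0, 0, 0, 0, 2, 1], 2), ([0, 0, 0, 1, 2, 0, 0], 2), ([0, 1, 1, 0, 0, 0, 0], 2), ([1, 0, 1, 1, 0, 0, 1], 2),
    ([1, 1, 0, 0, 0, 0, 0], 2)]⟩

theorem tord7k_86_ok : tord7k_86.OK 7 := TT.leaf_ok (T := ttd7k_86) (by decide +kernel)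

/-- the torus -/
def ttd7k_87 : TT where
  k := 2
  rf := [false, true]
  tau := [4, 10, 11, 9, 0, 7, 13, 5, 12, 3, 1, 2, 8, 6]
  par := [0, 1]
  stars := [[0, 7, 5], [1, 4, 10], [2, 11], [3, 12, 9], [6, 8, 13]]
  word := [[2], [], [], [3], [3], [0, 3], [0], [2, 1], [2], [2], [], [], [3], [1]]
  rank := [3, 0, 1, 2, 3, 1, 0, 1, 0, 2, 0, 1, 0, 0]
  just := [1, 0, 2, 3, 1, 4, 0, 4, 0, 3, 0, 2, 0, 0]
  gA := 6
  gB := 8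
  fin := 0
  sid := [0, 1, 2, 3, 1, 0, 4, 0, 4, 3, 1, 2, 3, 4]
  off := [(0, 0), (0, 0), (0, 0), (0, 0), (0, -1), (0, -1), (0, 0), (-1, 0), (-1, 1), (0, 1), (0, 0), (0, 0), (0, 0),
    (-1, 0)]

/-- glued arcs and equations -/
def tord7k_87 : TorT :=
  ⟨[(0, 4, true), (0, 5, false), (1, 3, false), (1, 5, true), (2, 3, false), (2, 4, false), (6, 6, false)],
    [([0, 0, 1, 0, 1, 0, 0], 2), ([0, 0, 1, 1, 0, 1, 0], 2), ([0, 1, 0, 0, 0, 0, 2], 2), ([0, 1, 0, 1, 1, 0, 0], 2),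
    ([2, 0, 0, 0, 0, 1, 0], 2)]⟩

theorem tord7k_87_ok : tord7k_87.OK 7 := TT.leaf_ok (T := ttd7k_87) (by decide +kernel)

end Pool.Agent.Lib_MP_fa6e45
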