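import Pool.Agent.Lib_MP_fa6e45.CT5

/-!
MP_fa6e45_co, stage 9: straight-side patterns with `7` sides, tables of tori (generated by a program).
-/

namespace Pool.Agent.Lib_MP_fa6e45

/-- the torus -/
def ttd7k_88 : TT where
  k := 8
  rf := [false, false, false, true, false, true, true, true]
  tau := [7, 14, 20, 19, 11, 23, 24, 0, 28, 34, 33, 4, 37, 38, 1, 39, 47, 48, 36, 3, 2, 43, 32, 5, 6, 29, 45, 44, 8,
    25, 54, 55, 22, 10, 9, 50, 18, 12, 13, 15, 52, 51, 49, 21, 27, 26, 53, 16, 17, 42, 35, 41, 40, 46, 30, 31]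
  par := [0, 0, 1, 5, 8, 12, 16, 30]
  stars := [[0, 25, 29, 8], [1, 7, 39, 15], [2, 14], [3, 20], [4, 19, 37, 12], [5, 11, 33, 23], [6, 24], [9, 28],
    [10, 34], [13, 38], [16, 40, 53, 47], [17, 48], [18, 42, 50, 36], [21, 44], [22, 32, 49, 43], [26, 46, 54, 30],
    [27, 45], [31, 55], [35, 51], [41, 52]]
  word := [[], [], [], [], [0], [], [], [], [], [], [], [1], [], [], [], [], [], [], [0], [], [], [0, 3, 1], [0], [],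
    [], [0, 3, 1, 2], [0, 3, 1], [0, 3, 1], [], [3, 0, 2, 1], [], [], [1], [], [], [2], [1], [], [], [], [2], [2],
    [0, 2], [0, 2, 1], [0, 2, 1], [0, 2, 1], [2], [], [], [3, 1], [3], [3], [3], [3], [], []]
  rank := [0, 0, 1, 2, 3, 0, 1, 0, 0, 1, 2, 3, 0, 1, 0, 2, 0, 1, 0, 2, 1, 5, 4, 0, 1, 8, 7, 6, 0, 8, 0, 1, 4, 2, 1,
    0, 0, 0, 1, 2, 2, 1, 2, 5, 6, 7, 3, 0, 1, 2, 0, 1, 2, 3, 0, 1]
  just := [0, 0, 2, 3, 4, 0, 6, 0, 0, 7, 8, 4, 0, 9, 0, 1, 0, 11, 0, 3, 2, 14, 5, 0, 6, 15, 16, 13, 0, 15, 0, 17, 5,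
    8, 7, 0, 0, 0, 9, 1, 19, 18, 12, 14, 13, 16, 10, 0, 11, 12, 0, 18, 19, 10, 0, 17]
  gA := 18
  gB := 35
  fin := 0
  sid := [0, 1, 2, 3, 4, 5, 6, 1, 0, 7, 8, 5, 4, 9, 2, 1, 10, 11, 12, 4, 3, 13, 14, 5, 6, 0, 15, 16, 7, 0, 15, 17,
    14, 5, 8, 18, 12, 4, 9, 1, 10, 19, 12, 14, 13, 16, 15, 10, 11, 14, 12, 18, 19, 10, 15, 17]
  off := [(0, 0), (0, 0), (0, 0), (0, 0), (0, 0), (0, 0), (0, 0), (0, 0), (0, 0), (0, 0), (0, 0), (-1, 0), (-1, 0),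
    (0, 0), (0, 0), (0, 0), (0, 0), (0, 0), (0, 0), (0, 0), (0, 0), (0, 0), (0, 0), (0, 0), (0, 0), (0, 0), (0, 0),
    (0, 0), (0, 0), (0, 0), (0, 0), (0, 0), (-1, 0), (-1, 0), (0, 0), (0, 0), (-1, 0), (-1, 0), (0, 0), (0, 0), (0,
    0), (0, 0), (0, 0), (0, 1), (0, 1), (0, 1), (0, 1), (0, 0), (0, 0), (-1, 0), (-1, -1), (0, -1), (0, -1), (0, -1),
    (0, 0), (0, 0)]

/-- glued arcs and equations -/
def tord7k_88 : TorT :=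
  ⟨[(0, 0, true), (0, 1, true), (1, 4, false), (2, 5, false), (2, 6, true), (3, 5, true), (3, 6, false), (4, 4,
    true)],
    [([0, 0, 0, 1, 0, 0, 1], 2), ([0, 0, 1, 0, 1, 2, 0], 2), ([1, 0, 1, 0, 0, 0, 0], 2), ([1, 2, 0, 0, 1, 0, 0], 2)]⟩

theorem tord7k_88_ok : tord7k_88.OK 7 := TT.leaf_ok (T := ttd7k_88) (by decide +kernel)

/-- the torus -/
def ttd7k_89 : TT where
  k := 8
  rf := [false, false, false, false, true, true, true, true]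
  tau := [7, 14, 26, 25, 30, 31, 22, 0, 21, 19, 18, 37, 38, 15, 1, 13, 46, 47, 10, 9, 27, 8, 6, 53, 54, 3, 2, 20, 43,
    55, 4, 5, 52, 51, 41, 50, 48, 11, 12, 45, 44, 34, 49, 28, 40, 39, 16, 17, 36, 42, 35, 33, 32, 23, 24, 29]
  par := [0, 0, 1, 2, 4, 11, 16, 23]
  stars := [[0, 22, 8], [1, 7, 15], [2, 14, 27], [3, 26], [4, 25, 55, 30], [5, 31], [6, 32, 53, 23], [9, 21, 20],
    [10, 19], [11, 18, 48, 37], [12, 38], [13, 39, 46, 16], [17, 47], [24, 54], [28, 44, 41], [29, 49, 43], [33, 52],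
    [34, 35, 51], [36, 42, 50], [40, 45]]
  word := [[], [], [], [], [], [], [3, 0, 2], [], [0], [0], [0], [], [], [], [], [], [], [], [1], [1], [], [1], [3,
    1, 2], [], [], [], [], [], [3], [], [], [], [3, 0, 2], [3, 0, 2], [3], [0, 2], [0], [], [], [], [], [2], [2],
    [2], [], [], [], [], [1], [3], [3, 1], [3, 1, 2], [3, 1, 2], [], [], []]
  rank := [0, 0, 0, 1, 0, 1, 7, 0, 4, 3, 2, 0, 1, 1, 0, 1, 0, 1, 2, 3, 1, 4, 7, 0, 1, 1, 0, 1, 3, 2, 0, 1, 6, 5, 4,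
    1, 0, 0, 1, 2, 3, 4, 0, 3, 3, 2, 0, 1, 0, 0, 1, 5, 6, 0, 1, 2]
  just := [0, 0, 0, 3, 0, 5, 6, 0, 7, 8, 9, 0, 10, 1, 0, 1, 0, 12, 9, 8, 2, 7, 6, 0, 13, 3, 0, 2, 15, 4, 0, 5, 16,
    17, 14, 18, 0, 0, 10, 11, 19, 14, 0, 15, 19, 11, 0, 12, 0, 0, 18, 17, 16, 0, 13, 4]
  gA := 36
  gB := 42
  fin := 0
  sid := [0, 1, 2, 3, 4, 5, 6, 1, 0, 7, 8, 9, 10, 11, 2, 1, 11, 12, 9, 8, 7, 7, 0, 6, 13, 4, 3, 2, 14, 15, 4, 5, 6,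
    16, 17, 17, 18, 9, 10, 11, 19, 14, 18, 15, 14, 19, 11, 12, 9, 15, 18, 17, 16, 6, 13, 4]
  off := [(0, 0), (0, 0), (0, 0), (0, 0), (0, 0), (0, 0), (0, 0), (0, 0), (0, 0), (0, 0), (0, 0), (0, 0), (0, 0), (0,
    0), (0, 0), (0, 0), (0, 0), (0, 0), (-1, 0), (-1, 0), (-1, 0), (-1, 0), (-1, 0), (-1, 0), (0, 0), (0, 0), (0, 0),
    (0, 0), (0, 0), (0, 0), (0, 0), (0, 0), (0, 0), (0, 0), (0, 0), (0, 1), (0, 0), (0, 0), (0, 0), (0, 0), (0, 0),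
    (0, 1), (-1, 0), (0, 1), (0, 1), (0, 0), (0, 0), (0, 0), (-1, 0), (0, 0), (-1, -1), (-1, 0), (-1, 0), (-1, 0),
    (0, 0), (0, 0)]

/-- glued arcs and equations -/
def tord7k_89 : TorT :=
  ⟨[(0, 0, true), (0, 1, true), (1, 6, true), (2, 4, false), (2, 5, true), (3, 4, true), (3, 5, false), (6, 6, true)],
    [([0, 0, 0, 1, 0, 1, 0], 2), ([0, 0, 1, 0, 2, 0, 1], 2), ([1, 0, 1, 0, 0, 0, 1], 2), ([1, 2, 0, 0, 0, 0, 0], 2)]⟩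

theorem tord7k_89_ok : tord7k_89.OK 7 := TT.leaf_ok (T := ttd7k_89) (by decide +kernel)

end Pool.Agent.Lib_MP_fa6e45
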