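import Pool.Agent.Lib_MP_fa6e45.DQ7kT0
import Pool.Agent.Lib_MP_fa6e45.DQ7kT1
import Pool.Agent.Lib_MP_fa6e45.DQ7kT2
import Pool.Agent.Lib_MP_fa6e45.DQ7kT3
import Pool.Agent.Lib_MP_fa6e45.DQ7kT4
import Pool.Agent.Lib_MP_fa6e45.DQ7kT5
import Pool.Agent.Lib_MP_fa6e45.DQ7kT6
import Pool.Agent.Lib_MP_fa6e45.DQ7kT7
import Pool.Agent.Lib_MP_fa6e45.DQ7kT8

/-!
MP_fa6e45_co, stage 9: straight-side patterns with `7` sides, the list of tori (generated by a program).
-/

namespace Pool.Agent.Lib_MP_fa6e45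

/-- tables -/
def ttD7k_0 : List TorT := [tord7k_0, tord7k_1, tord7k_2, tord7k_3, tord7k_4, tord7k_5, tord7k_6, tord7k_7, tord7k_8,
    tord7k_9, tord7k_10]

theorem ttD7k_0_ok : ∀ T ∈ ttD7k_0, T.OK 7 := by
  intro T hT
  simp only [ttD7k_0, List.mem_cons, List.not_mem_nil, or_false] at hT
  rcases hT with rfl | rfl | rfl | rfl | rfl | rfl | rfl | rfl | rfl | rfl | rfl
  · exact tord7k_0_ok
  · exact tord7k_1_ok
  · exact tord7k_2_ok
  · exact tord7k_3_ok
  · exact tord7k_4_ok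
  · exact tord7k_5_ok
  · exact tord7k_6_ok
  · exact tord7k_7_ok
  · exact tord7k_8_ok
  · exact tord7k_9_ok
  · exact tord7k_10_ok

/-- tables -/
def ttD7k_1 : List TorT := [tord7k_11, tord7k_12, tord7k_13, tord7k_14, tord7k_15, tord7k_16, tord7k_17, tord7k_18,
    tord7k_19, tord7k_20, tord7k_21]

theorem ttD7k_1_ok : ∀ T ∈ ttD7k_1, T.OK 7 := by
  intro T hT
  simp only [ttD7k_1, List.mem_cons, List.not_mem_nil, or_false] at hT
  rcases hT with rfl | rfl | rfl | rfl | rfl | rfl | rfl | rfl | rfl | rfl | rfl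
  · exact tord7k_11_ok
  · exact tord7k_12_ok
  · exact tord7k_13_ok
  · exact tord7k_14_ok
  · exact tord7k_15_ok
  · exact tord7k_16_ok
  · exact tord7k_17_ok
  · exact tord7k_18_ok
  · exact tord7k_19_ok
  · exact tord7k_20_ok
  · exact tord7k_21_ok

/-- tables -/
def ttD7k_2 : List TorT := [tord7k_22, tord7k_23, tord7k_24, tord7k_25, tord7k_26, tord7k_27, tord7k_28, tord7k_29,
    tord7k_30, tord7k_31, tord7k_32]

theorem ttD7k_2_ok : ∀ T ∈ ttD7k_2, T.OK 7 := by
  intro T hT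
  simp only [ttD7k_2, List.mem_cons, List.not_mem_nil, or_false] at hT
  rcases hT with rfl | rfl | rfl | rfl | rfl | rfl | rfl | rfl | rfl | rfl | rfl
  · exact tord7k_22_ok
  · exact tord7k_23_ok
  · exact tord7k_24_ok
  · exact tord7k_25_ok
  · exact tord7k_26_ok
  · exact tord7k_27_ok
  · exact tord7k_28_ok
  · exact tord7k_29_ok
  · exact tord7k_30_ok
  · exact tord7k_31_ok
  · exact tord7k_32_ok

/-- tables -/
def ttD7k_3 : List TorT := [tord7k_33, tord7k_34, tord7k_35, tord7k_36, tord7k_37, tord7k_38, tord7k_39, tord7k_40,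
    tord7k_41, tord7k_42, tord7k_43]

theorem ttD7k_3_ok : ∀ T ∈ ttD7k_3, T.OK 7 := by
  intro T hT
  simp only [ttD7k_3, List.mem_cons, List.not_mem_nil, or_false] at hT
  rcases hT with rfl | rfl | rfl | rfl | rfl | rfl | rfl | rfl | rfl | rfl | rfl
  · exact tord7k_33_ok
  · exact tord7k_34_ok
  · exact tord7k_35_ok
  · exact tord7k_36_ok
  · exact tord7k_37_ok
  · exact tord7k_38_ok
  · exact tord7k_39_ok
  · exact tord7k_40_ok
  · exact tord7k_41_ok
  · exact tord7k_42_ok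
  · exact tord7k_43_ok

/-- tables -/
def ttD7k_4 : List TorT := [tord7k_44, tord7k_45, tord7k_46, tord7k_47, tord7k_48, tord7k_49, tord7k_50, tord7k_51,
    tord7k_52, tord7k_53, tord7k_54]

theorem ttD7k_4_ok : ∀ T ∈ ttD7k_4, T.OK 7 := by
  intro T hT
  simp only [ttD7k_4, List.mem_cons, List.not_mem_nil, or_false] at hT
  rcases hT with rfl | rfl | rfl | rfl | rfl | rfl | rfl | rfl | rfl | rfl | rfl
  · exact tord7k_44_ok
  · exact tord7k_45_ok
  · exact tord7k_46_ok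
  · exact tord7k_47_ok
  · exact tord7k_48_ok
  · exact tord7k_49_ok
  · exact tord7k_50_ok
  · exact tord7k_51_ok
  · exact tord7k_52_ok
  · exact tord7k_53_ok
  · exact tord7k_54_ok

/-- tables -/
def ttD7k_5 : List TorT := [tord7k_55, tord7k_56, tord7k_57, tord7k_58, tord7k_59, tord7k_60, tord7k_61, tord7k_62,
    tord7k_63, tord7k_64, tord7k_65]

theorem ttD7k_5_ok : ∀ T ∈ ttD7k_5, T.OK 7 := by
  intro T hT
  simp only [ttD7k_5, List.mem_cons, List.not_mem_nil, or_false] at hT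
  rcases hT with rfl | rfl | rfl | rfl | rfl | rfl | rfl | rfl | rfl | rfl | rfl
  · exact tord7k_55_ok
  · exact tord7k_56_ok
  · exact tord7k_57_ok
  · exact tord7k_58_ok
  · exact tord7k_59_ok
  · exact tord7k_60_ok
  · exact tord7k_61_ok
  · exact tord7k_62_ok
  · exact tord7k_63_ok
  · exact tord7k_64_ok
  · exact tord7k_65_ok

/-- tables -/
def ttD7k_6 : List TorT := [tord7k_66, tord7k_67, tord7k_68, tord7k_69, tord7k_70, tord7k_71, tord7k_72, tord7k_73,
    tord7k_74, tord7k_75, tord7k_76]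

theorem ttD7k_6_ok : ∀ T ∈ ttD7k_6, T.OK 7 := by
  intro T hT
  simp only [ttD7k_6, List.mem_cons, List.not_mem_nil, or_false] at hT
  rcases hT with rfl | rfl | rfl | rfl | rfl | rfl | rfl | rfl | rfl | rfl | rfl
  · exact tord7k_66_ok
  · exact tord7k_67_ok
  · exact tord7k_68_ok
  · exact tord7k_69_ok
  · exact tord7k_70_ok
  · exact tord7k_71_ok
  · exact tord7k_72_ok
  · exact tord7k_73_ok
  · exact tord7k_74_ok
  · exact tord7k_75_ok
  · exact tord7k_76_ok

/-- tables -/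
def ttD7k_7 : List TorT := [tord7k_77, tord7k_78, tord7k_79, tord7k_80, tord7k_81, tord7k_82, tord7k_83, tord7k_84,
    tord7k_85, tord7k_86, tord7k_87]

theorem ttD7k_7_ok : ∀ T ∈ ttD7k_7, T.OK 7 := by
  intro T hT
  simp only [ttD7k_7, List.mem_cons, List.not_mem_nil, or_false] at hT
  rcases hT with rfl | rfl | rfl | rfl | rfl | rfl | rfl | rfl | rfl | rfl | rfl
  · exact tord7k_77_ok
  · exact tord7k_78_ok
  · exact tord7k_79_ok
  · exact tord7k_80_ok
  · exact tord7k_81_ok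
  · exact tord7k_82_ok
  · exact tord7k_83_ok
  · exact tord7k_84_ok
  · exact tord7k_85_ok
  · exact tord7k_86_ok
  · exact tord7k_87_ok

/-- tables -/
def ttD7k_8 : List TorT := [tord7k_88, tord7k_89]

theorem ttD7k_8_ok : ∀ T ∈ ttD7k_8, T.OK 7 := by
  intro T hT
  simp only [ttD7k_8, List.mem_cons, List.not_mem_nil, or_false] at hT
  rcases hT with rfl | rfl
  · exact tord7k_88_ok
  · exact tord7k_89_ok

/-- all tables -/
def ttD7k : List TorT :=
  ttD7k_0 ++ (ttD7k_1 ++ (ttD7k_2 ++ (ttD7k_3 ++ (ttD7k_4 ++ (ttD7k_5 ++ (ttD7k_6 ++ (ttD7k_7 ++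
    ttD7k_8)))))))

theorem ttD7k_ok : ∀ T ∈ ttD7k, T.OK 7 := by
  intro T hT
  unfold ttD7k at hT
  rcases List.mem_append.1 hT with hT | hT
  · exact ttD7k_0_ok T hT
  rcases List.mem_append.1 hT with hT | hT
  · exact ttD7k_1_ok T hT
  rcases List.mem_append.1 hT with hT | hT
  · exact ttD7k_2_ok T hT
  rcases List.mem_append.1 hT with hT | hT
  · exact ttD7k_3_ok T hT
  rcases List.mem_append.1 hT with hT | hT
  · exact ttD7k_4_ok T hT
  rcases List.mem_append.1 hT with hT | hT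
  · exact ttD7k_5_ok T hT
  rcases List.mem_append.1 hT with hT | hT
  · exact ttD7k_6_ok T hT
  rcases List.mem_append.1 hT with hT | hT
  · exact ttD7k_7_ok T hT
  exact ttD7k_8_ok T hT

end Pool.Agent.Lib_MP_fa6e45
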