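import Pool.Agent.Lib_MP_fa6e45.CT5

/-!
MP_fa6e45_co, stage 9: straight-side patterns with `7` sides, tables of tori (generated by a program).
-/

namespace Pool.Agent.Lib_MP_fa6e45

/-- the torus -/
def ttd7k_0 : TT where
  k := 8
  rf := [false, true, false, true, false, false, true, true]
  tau := [9, 17, 16, 15, 21, 19, 8, 18, 6, 0, 33, 34, 31, 32, 23, 3, 2, 1, 7, 5, 22, 4, 20, 14, 40, 41, 38, 39, 46,
    55, 49, 12, 13, 10, 11, 53, 48, 42, 26, 27, 24, 25, 37, 52, 51, 50, 28, 54, 36, 30, 45, 44, 43, 35, 47, 29]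
  par := [0, 0, 1, 4, 10, 24, 28, 29]
  stars := [[0, 9], [1, 10, 33, 7, 18], [2, 17], [3, 16], [4, 15, 24, 40, 21], [5, 22, 20], [6, 19, 8], [11, 34],
    [12, 31, 50, 46, 28], [13, 32], [14, 23], [25, 41], [26, 38, 43, 53, 35], [27, 39], [29, 47, 55], [30, 49], [36,
    54, 48], [37, 42], [44, 52], [45, 51]]
  word := [[], [], [], [], [], [0, 2, 1], [0, 2, 1, 3], [2], [2, 0, 3, 1], [], [], [], [2], [2], [0, 3, 1], [], [],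
    [], [3], [0, 3, 1], [0, 3, 1], [], [0, 2, 1], [0, 2, 1], [], [], [0, 3, 1], [0, 3, 1], [], [], [], [3], [3], [],
    [], [0], [0], [0], [0, 2, 1], [0, 2, 1], [], [], [1], [2], [2], [2], [], [], [1], [], [3], [3], [3], [1], [], []]
  rank := [0, 0, 1, 2, 0, 7, 8, 5, 8, 0, 0, 1, 3, 4, 5, 2, 1, 0, 5, 7, 6, 0, 6, 5, 0, 1, 3, 4, 0, 0, 1, 3, 4, 0, 1,
    2, 0, 1, 3, 4, 0, 1, 1, 0, 1, 2, 0, 1, 0, 1, 2, 1, 0, 2, 1, 0]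
  just := [0, 0, 2, 3, 0, 5, 6, 1, 6, 0, 0, 7, 8, 9, 4, 3, 2, 0, 1, 5, 10, 0, 10, 4, 0, 11, 12, 13, 0, 0, 15, 8, 9,
    0, 7, 16, 0, 17, 12, 13, 0, 11, 17, 0, 18, 19, 0, 14, 0, 15, 19, 18, 0, 16, 14, 0]
  gA := 36
  gB := 43
  fin := 0
  sid := [0, 1, 2, 3, 4, 5, 6, 1, 6, 0, 1, 7, 8, 9, 10, 4, 3, 2, 1, 6, 5, 4, 5, 10, 4, 11, 12, 13, 8, 14, 15, 8, 9,
    1, 7, 12, 16, 17, 12, 13, 4, 11, 17, 12, 18, 19, 8, 14, 16, 15, 8, 19, 18, 12, 16, 14]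
  off := [(0, 0), (0, 0), (0, 0), (0, 0), (0, 0), (0, 0), (0, 0), (0, 1), (0, 0), (0, 0), (0, 0), (0, 0), (0, 0), (0,
    0), (0, 0), (0, 0), (0, 0), (0, 0), (0, 0), (0, -1), (0, -1), (0, 0), (0, 0), (0, 1), (0, 1), (0, 0), (0, 0), (0,
    0), (0, 0), (0, 0), (0, 0), (0, -1), (0, -1), (0, 0), (0, 0), (0, 0), (0, 0), (0, 0), (0, 1), (0, 1), (0, 1), (0,
    0), (-1, 0), (-1, 1), (0, 0), (0, 0), (0, 0), (0, 0), (-1, 0), (0, 0), (0, -1), (0, -1), (0, -1), (-1, 0), (-1,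
    0), (0, 0)]

/-- glued arcs and equations -/
def tord7k_0 : TorT :=
  ⟨[(0, 2, false), (0, 4, false), (1, 3, true), (1, 6, false), (2, 2, true), (3, 5, false), (4, 6, false), (5, 5,
    true)],
    [([0, 0, 0, 0, 1, 0, 1], 2), ([0, 0, 1, 1, 0, 0, 0], 2), ([0, 1, 0, 0, 0, 1, 1], 2), ([1, 0, 1, 0, 0, 0, 0], 2),
    ([1, 1, 0, 1, 1, 1, 0], 2)]⟩

theorem tord7k_0_ok : tord7k_0.OK 7 := TT.leaf_ok (T := ttd7k_0) (by decide +kernel)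

/-- the torus -/
def ttd7k_1 : TT where
  k := 12
  rf := [false, true, false, false, true, true, false, false, true, true, true, false]
  tau := [10, 14, 23, 7, 29, 30, 36, 3, 28, 37, 0, 15, 16, 22, 1, 11, 12, 21, 48, 25, 24, 17, 13, 2, 20, 19, 47, 53,
    8, 4, 5, 35, 62, 39, 38, 31, 6, 9, 34, 33, 61, 67, 52, 76, 79, 55, 54, 26, 18, 78, 74, 75, 42, 27, 46, 45, 66,
    83, 72, 69, 68, 40, 32, 71, 81, 82, 56, 41, 60, 59, 80, 63, 58, 77, 50, 51, 43, 73, 49, 44, 70, 64, 65, 57]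
  par := [0, 0, 1, 2, 4, 6, 18, 27, 32, 41, 43, 44]
  stars := [[0, 37, 10], [1, 11, 15], [2, 14, 24], [3, 23, 7], [4, 8, 29], [5, 30], [6, 31, 36], [9, 38, 28], [12,
    16], [13, 22, 17], [18, 21, 53, 42], [19, 48, 26], [20, 25], [27, 47, 54], [32, 56, 67, 35], [33, 40, 62], [34,
    39], [41, 68, 61], [43, 52, 76], [44, 70, 80], [45, 79, 49], [46, 55], [50, 78, 74], [51, 75], [57, 83, 66], [58,
    73, 77], [59, 63, 72], [60, 69], [64, 81, 71], [65, 82]]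
  word := [[], [], [], [3], [], [], [], [2], [2], [2, 0, 3, 1], [], [], [], [2], [], [], [], [2], [], [], [], [3],
    [3], [], [], [], [], [], [3], [], [], [], [], [0, 3, 1], [0, 3, 1], [], [], [0, 2, 1, 3], [0, 2, 1], [0, 2, 1],
    [0, 2, 1], [], [2], [], [], [], [], [], [], [], [3], [3], [3], [], [], [], [], [0], [0, 3], [0, 3, 1], [0, 3, 1],
    [0, 3, 1], [], [0], [0], [0], [], [], [0, 2, 1], [0, 2, 1], [], [1], [2, 1], [2], [2], [2], [], [3], [], [], [],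
    [1], [1], [1]]
  rank := [0, 0, 0, 12, 0, 1, 0, 12, 13, 14, 0, 1, 2, 11, 0, 1, 2, 10, 0, 2, 1, 10, 11, 0, 1, 2, 3, 0, 13, 0, 1, 2,
    0, 9, 10, 2, 0, 14, 10, 9, 8, 0, 9, 0, 0, 5, 4, 3, 0, 6, 7, 8, 9, 0, 4, 5, 3, 4, 5, 6, 7, 8, 0, 2, 1, 0, 3, 0, 7,
    6, 1, 2, 5, 0, 7, 8, 0, 0, 6, 0, 1, 1, 0, 4]
  just := [0, 0, 0, 3, 0, 5, 0, 3, 4, 7, 0, 1, 8, 9, 0, 1, 8, 10, 0, 12, 2, 10, 9, 0, 2, 12, 11, 0, 4, 0, 5, 6, 0,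
    15, 16, 6, 0, 7, 16, 15, 17, 0, 18, 0, 0, 21, 13, 11, 0, 20, 22, 23, 18, 0, 13, 21, 14, 24, 25, 26, 27, 17, 0,
    28, 29, 0, 14, 0, 27, 26, 19, 28, 25, 0, 22, 23, 0, 0, 20, 0, 19, 29, 0, 24]
  gA := 65
  gB := 73
  fin := 0
  sid := [0, 1, 2, 3, 4, 5, 6, 3, 4, 7, 0, 1, 8, 9, 2, 1, 8, 9, 10, 11, 12, 10, 9, 3, 2, 12, 11, 13, 7, 4, 5, 6, 14,
    15, 16, 14, 6, 0, 7, 16, 15, 17, 10, 18, 19, 20, 21, 13, 11, 20, 22, 23, 18, 10, 13, 21, 14, 24, 25, 26, 27, 17,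
    15, 26, 28, 29, 24, 14, 17, 27, 19, 28, 26, 25, 22, 23, 18, 25, 22, 20, 19, 28, 29, 24]
  off := [(0, 0), (0, 0), (0, 0), (0, 0), (0, 0), (0, 0), (0, 0), (0, 1), (0, 1), (0, 0), (0, 0), (0, 0), (0, 0), (0,
    0), (0, 0), (0, 0), (0, 0), (0, 0), (0, 0), (0, 0), (0, 0), (0, -1), (0, -1), (0, 0), (0, 0), (0, 0), (0, 0), (0,
    0), (0, -1), (0, 0), (0, 0), (0, 0), (0, 0), (0, 0), (0, 0), (0, 0), (0, 0), (0, 0), (0, 0), (0, 1), (0, 1), (0,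
    0), (0, 0), (0, 0), (0, 0), (0, 0), (0, 0), (0, 0), (0, 0), (0, 0), (0, 0), (0, 0), (0, -1), (0, -1), (0, 0), (0,
    0), (0, 0), (0, 0), (0, 0), (0, 0), (0, 0), (0, -1), (0, 0), (0, 1), (0, 0), (0, 0), (0, 0), (0, 0), (0, 0), (0,
    1), (0, 0), (-1, 0), (-1, 1), (-1, 1), (0, 1), (0, 1), (0, 0), (-1, 0), (0, 0), (0, 0), (0, 0), (-1, 0), (-1, 0),
    (-1, 0)]

/-- glued arcs and equations -/
def tord7k_1 : TorT :=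
  ⟨[(0, 1, true), (0, 3, false), (0, 3, true), (1, 4, false), (1, 6, false), (2, 2, true), (2, 5, false), (3, 6,
    true), (4, 5, true), (4, 6, true), (5, 5, true)],
    [([0, 0, 0, 0, 0, 2, 1], 2), ([0, 0, 0, 0, 1, 0, 1], 2), ([0, 0, 1, 0, 0, 1, 0], 2), ([0, 1, 0, 1, 0, 0, 1], 2),
    ([0, 2, 0, 0, 1, 0, 0], 2), ([1, 0, 1, 1, 0, 0, 0], 2), ([2, 0, 0, 0, 2, 0, 0], 2)]⟩

theorem tord7k_1_ok : tord7k_1.OK 7 := TT.leaf_ok (T := ttd7k_1) (by decide +kernel)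

/-- the torus -/
def ttd7k_2 : TT where
  k := 8
  rf := [false, false, false, false, false, false, false, false]
  tau := [9, 18, 17, 24, 27, 26, 25, 20, 19, 0, 16, 15, 29, 28, 30, 11, 10, 2, 1, 8, 7, 37, 46, 45, 3, 6, 5, 4, 13,
    12, 14, 52, 55, 54, 53, 48, 47, 21, 44, 43, 50, 49, 51, 39, 38, 23, 22, 36, 35, 41, 40, 42, 31, 34, 33, 32]
  par := [0, 0, 1, 3, 12, 21, 22, 31]
  stars := [[0, 25, 3, 17, 10], [1, 9, 19], [2, 18], [4, 24, 45, 38, 21], [5, 27], [6, 26], [7, 28, 53, 31, 14], [8,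
    20], [11, 16], [12, 15, 30], [13, 29], [22, 37, 47], [23, 46], [32, 52, 42, 35, 49], [33, 55], [34, 54], [36,
    48], [39, 44], [40, 43, 51], [41, 50]]
  word := [[], [], [], [], [2, 1, 3], [2, 1, 3], [2, 1, 3], [], [], [], [1], [1], [], [], [0], [0], [0], [], [], [],
    [], [], [], [], [], [2, 0, 3], [2, 0, 3], [2, 0, 3], [], [], [1], [], [0], [0], [0], [], [], [], [2, 0, 3], [2,
    0, 3], [2], [2], [2, 1], [2, 1, 3], [2, 1, 3], [], [], [], [], [3], [3], [0, 3], [], [1], [1], [1]]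
  rank := [0, 0, 1, 0, 6, 7, 8, 2, 1, 0, 5, 4, 0, 1, 3, 4, 5, 1, 0, 1, 2, 0, 0, 1, 0, 8, 7, 6, 1, 0, 3, 0, 0, 1, 2,
    2, 1, 0, 5, 4, 1, 0, 3, 4, 5, 1, 0, 1, 2, 0, 1, 3, 0, 2, 1, 0]
  just := [0, 0, 2, 0, 3, 4, 5, 7, 1, 0, 8, 9, 0, 10, 6, 9, 8, 2, 0, 1, 7, 0, 0, 12, 0, 5, 4, 3, 10, 0, 6, 0, 0, 14,
    15, 16, 11, 0, 17, 18, 19, 0, 13, 18, 17, 12, 0, 11, 16, 0, 19, 13, 0, 15, 14, 0]
  gA := 32
  gB := 41
  fin := 0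
  sid := [0, 1, 2, 0, 3, 4, 5, 6, 7, 1, 0, 8, 9, 10, 6, 9, 8, 0, 2, 1, 7, 3, 11, 12, 3, 0, 5, 4, 6, 10, 9, 6, 13, 14,
    15, 13, 16, 11, 3, 17, 18, 19, 13, 18, 17, 3, 12, 11, 16, 13, 19, 18, 13, 6, 15, 14]
  off := [(0, 0), (0, 0), (0, 0), (1, 0), (0, 0), (0, 0), (0, 0), (0, 0), (0, 0), (0, 0), (0, 0), (0, 0), (0, 0), (0,
    0), (0, 0), (1, 0), (1, 0), (1, 0), (0, 0), (0, 0), (0, 0), (1, 0), (0, 0), (0, 0), (0, 0), (1, 0), (1, 0), (1,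
    0), (0, 0), (0, 0), (0, 0), (-1, 0), (0, 0), (0, 0), (0, 0), (-1, 1), (0, 0), (0, 0), (1, 0), (0, 0), (0, 0), (0,
    0), (-1, 1), (-1, 0), (-1, 0), (0, 0), (0, 0), (0, 0), (0, 0), (-1, 0), (0, -1), (0, -1), (0, 0), (-1, 0), (-1,
    0), (-1, 0)]

/-- glued arcs and equations -/
def tord7k_2 : TorT :=
  ⟨[(0, 2, true), (0, 6, true), (1, 4, true), (1, 5, true), (2, 3, true), (3, 3, true), (4, 6, true), (5, 5, true)],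
    [([0, 0, 0, 0, 0, 1, 1], 2), ([0, 0, 1, 0, 1, 0, 0], 2), ([0, 1, 0, 0, 0, 0, 1], 2), ([0, 1, 1, 0, 0, 1, 0], 2),
    ([1, 0, 0, 3, 1, 0, 0], 2), ([3, 0, 0, 1, 1, 0, 0], 2)]⟩

theorem tord7k_2_ok : tord7k_2.OK 7 := TT.leaf_ok (T := ttd7k_2) (by decide +kernel)

/-- the torus -/
def ttd7k_3 : TT where
  k := 8
  rf := [false, false, false, false, true, true, true, true]
  tau := [13, 15, 26, 25, 29, 19, 37, 38, 46, 55, 35, 17, 16, 0, 27, 1, 12, 11, 36, 5, 30, 31, 53, 48, 28, 3, 2, 14,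
    24, 4, 20, 21, 52, 51, 42, 10, 18, 6, 7, 45, 44, 49, 34, 50, 40, 39, 8, 54, 23, 41, 43, 33, 32, 22, 47, 9]
  par := [0, 0, 1, 2, 4, 6, 8, 9]
  stars := [[0, 38, 7], [1, 13, 16], [2, 15, 27], [3, 26], [4, 25, 29], [5, 30, 20], [6, 19, 37], [8, 39, 46], [9,
    47, 55], [10, 49, 35], [11, 36, 18], [12, 17], [14, 31, 21], [22, 32, 53], [23, 54, 48], [24, 42, 28], [33, 52],
    [34, 43, 51], [40, 45], [41, 50, 44]]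
  word := [[], [], [], [], [], [1], [], [3, 1, 2, 0], [], [], [0], [], [], [], [], [], [], [], [0], [0], [0], [0],
    [2], [2], [], [], [], [], [], [], [1], [1], [1, 2], [1, 2], [2], [1], [1], [], [1, 3, 0, 2], [1, 3, 0, 2], [1, 3,
    0, 2], [1], [3], [3, 1, 2], [3, 1, 2, 0], [3, 1, 2, 0], [], [], [3], [0], [3, 0, 2], [3, 0], [3, 0], [3], [], []]
  rank := [0, 0, 0, 1, 0, 1, 0, 8, 0, 0, 3, 2, 1, 0, 1, 0, 1, 2, 2, 1, 0, 2, 0, 2, 2, 1, 0, 1, 2, 0, 0, 2, 3, 4, 3,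
    3, 2, 0, 8, 7, 6, 4, 3, 5, 6, 7, 0, 1, 2, 4, 5, 4, 3, 0, 1, 0]
  just := [0, 0, 0, 3, 0, 5, 0, 7, 0, 0, 10, 11, 1, 0, 2, 0, 1, 11, 6, 5, 0, 12, 0, 14, 4, 3, 0, 2, 4, 0, 0, 12, 13,
    16, 15, 10, 6, 0, 7, 18, 19, 9, 15, 17, 19, 18, 0, 8, 14, 9, 17, 16, 13, 0, 8, 0]
  gA := 20
  gB := 22
  fin := 0
  sid := [0, 1, 2, 3, 4, 5, 6, 0, 7, 8, 9, 10, 11, 1, 12, 2, 1, 11, 10, 6, 5, 12, 13, 14, 15, 4, 3, 2, 15, 4, 5, 12,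
    13, 16, 17, 9, 10, 6, 0, 7, 18, 19, 15, 17, 19, 18, 7, 8, 14, 9, 19, 17, 16, 13, 14, 8]
  off := [(0, 0), (0, 0), (0, 0), (0, 0), (0, 0), (0, 0), (0, 0), (0, 0), (0, 0), (0, 0), (0, 0), (0, 0), (0, 0), (0,
    0), (0, 0), (0, 0), (0, 0), (0, 0), (0, 0), (1, 0), (1, 0), (0, 0), (0, 0), (0, 0), (0, 0), (0, 0), (0, 0), (0,
    0), (0, 0), (0, 0), (0, 0), (-1, 0), (-1, 0), (0, 0), (0, 0), (-1, 0), (-1, 0), (0, 0), (0, 0), (0, 0), (0, 0),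
    (0, 0), (0, -1), (0, -1), (0, 0), (0, 0), (0, 0), (0, 0), (0, -1), (0, 0), (1, 0), (1, -1), (1, -1), (0, -1), (0,
    -1), (0, 0)]

/-- glued arcs and equations -/
def tord7k_3 : TorT :=
  ⟨[(0, 3, false), (0, 6, true), (1, 1, true), (1, 4, false), (2, 5, true), (2, 6, false), (3, 4, true), (5, 5,
    true)],
    [([0, 0, 0, 1, 0, 1, 0], 2), ([0, 0, 1, 0, 0, 1, 1], 2), ([0, 1, 0, 0, 2, 0, 0], 2), ([0, 1, 1, 0, 0, 0, 1], 2),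
    ([2, 0, 0, 1, 0, 0, 0], 2)]⟩

theorem tord7k_3_ok : tord7k_3.OK 7 := TT.leaf_ok (T := ttd7k_3) (by decide +kernel)

/-- the torus -/
def ttd7k_4 : TT where
  k := 8
  rf := [false, false, true, false, true, false, true, true]
  tau := [7, 13, 16, 25, 28, 29, 8, 0, 6, 30, 39, 14, 15, 1, 11, 12, 2, 41, 45, 33, 38, 53, 54, 44, 34, 3, 40, 31, 4,
    5, 9, 27, 52, 19, 24, 46, 47, 51, 20, 10, 26, 17, 49, 55, 23, 18, 35, 36, 50, 42, 48, 37, 32, 21, 22, 43]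
  par := [0, 0, 2, 3, 4, 10, 18, 21]
  stars := [[0, 8], [1, 7], [2, 13, 16], [3, 17, 41, 26], [4, 25, 28], [5, 29], [6, 30, 9], [10, 31, 27, 40], [11,
    39, 14], [12, 15], [18, 46, 35], [19, 34, 24, 45], [20, 38, 52, 33], [21, 32, 53], [22, 54], [23, 55, 44], [36,
    47], [37, 48, 51], [42, 50], [43, 49]]
  word := [[], [], [], [], [], [], [3, 0, 2, 1], [], [0, 3, 1, 2], [0, 3, 1, 2], [], [], [], [], [], [], [], [1], [],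
    [2], [], [], [], [3], [], [], [1], [3, 1, 2], [], [], [3, 0, 2, 1], [3, 0, 2], [3, 0, 2], [3], [], [0], [0], [0,
    2], [], [], [0], [0], [2], [2], [2], [], [1], [1], [2], [3], [3], [3, 1], [3, 1, 2], [], [], [3]]
  rank := [0, 1, 0, 0, 0, 1, 8, 0, 8, 7, 0, 3, 2, 1, 3, 2, 0, 2, 0, 3, 4, 0, 1, 2, 1, 0, 3, 6, 0, 1, 7, 6, 5, 3, 1,
    1, 0, 2, 4, 0, 3, 2, 0, 1, 2, 0, 1, 0, 1, 0, 1, 2, 5, 0, 1, 1]
  just := [0, 1, 0, 0, 0, 5, 6, 0, 6, 7, 0, 9, 2, 1, 9, 2, 0, 10, 0, 11, 8, 0, 14, 15, 4, 0, 3, 13, 0, 5, 7, 13, 12,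
    11, 4, 16, 0, 17, 8, 0, 3, 10, 0, 19, 15, 0, 16, 0, 18, 0, 18, 17, 12, 0, 14, 19]
  gA := 36
  gB := 42
  fin := 0
  sid := [0, 1, 2, 3, 4, 5, 6, 1, 0, 6, 7, 8, 9, 2, 8, 9, 2, 3, 10, 11, 12, 13, 14, 15, 11, 4, 3, 7, 4, 5, 6, 7, 13,
    12, 11, 10, 16, 17, 12, 8, 7, 3, 18, 19, 15, 11, 10, 16, 17, 19, 18, 17, 12, 13, 14, 15]
  off := [(0, 0), (0, 0), (0, 0), (0, 0), (0, 0), (0, 0), (0, 0), (0, 0), (0, 0), (0, 0), (0, 0), (0, 0), (0, 0), (0,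
    0), (0, 0), (0, 0), (0, 0), (0, 0), (0, 0), (0, 0), (0, 0), (0, 0), (0, 0), (0, 0), (0, -1), (0, 0), (0, 0), (-1,
    0), (0, 0), (0, 0), (0, 0), (0, 0), (1, 0), (0, -1), (0, -1), (1, 0), (0, 0), (0, 0), (0, 0), (0, 0), (0, 0), (1,
    0), (0, 0), (0, 0), (0, 1), (0, 0), (0, 0), (-1, 0), (-1, 0), (0, -1), (0, -1), (-1, -1), (-1, -1), (0, 0), (0,
    0), (0, 0)]

/-- glued arcs and equations -/
def tord7k_4 : TorT :=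
  ⟨[(0, 0, true), (0, 4, false), (1, 5, false), (1, 6, true), (2, 2, false), (3, 4, true), (3, 6, false), (5, 5,
    true)],
    [([0, 0, 0, 2, 0, 1, 1], 2), ([0, 0, 2, 0, 0, 0, 1], 2), ([0, 1, 0, 0, 0, 1, 0], 2), ([1, 0, 0, 0, 2, 0, 0], 2),
    ([1, 1, 0, 0, 0, 0, 0], 2)]⟩

theorem tord7k_4_ok : tord7k_4.OK 7 := TT.leaf_ok (T := ttd7k_4) (by decide +kernel)

/-- the torus -/
def ttd7k_5 : TT where
  k := 8
  rf := [false, false, true, true, false, false, true, true]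
  tau := [7, 8, 6, 15, 16, 14, 2, 0, 1, 13, 22, 23, 21, 9, 5, 3, 4, 33, 34, 31, 32, 12, 10, 11, 40, 41, 38, 39, 47,
    45, 46, 19, 20, 17, 18, 54, 52, 53, 26, 27, 24, 25, 49, 50, 48, 29, 30, 28, 44, 42, 43, 55, 36, 37, 35, 51]
  par := [0, 0, 3, 10, 17, 24, 28, 35]
  stars := [[0, 2, 8], [1, 7, 9], [3, 6, 15], [4, 16], [5, 17, 33, 14], [10, 13, 22], [11, 23], [12, 24, 40, 21],
    [18, 34], [19, 31, 47, 28], [20, 32], [25, 41], [26, 38, 54, 35], [27, 39], [29, 48, 45], [30, 46], [36, 55, 52],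
    [37, 53], [42, 50, 44], [43, 51, 49]]
  word := [[], [1, 2], [2, 1], [], [], [0, 3], [0, 3], [], [3, 0], [3, 0], [], [], [1, 2], [1, 2], [2, 1], [], [],
    [], [], [2, 1], [2, 1], [3, 0], [], [], [], [], [3, 0], [3, 0], [], [0, 3], [0, 3], [0, 3], [0, 3], [], [], [],
    [1, 2], [1, 2], [1, 2], [1, 2], [], [], [0], [2], [2, 1], [2, 1], [2, 1], [], [0, 3], [1], [3], [3, 0], [3, 0],
    [3, 0], [], [1, 2]]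
  rank := [0, 8, 7, 0, 1, 6, 7, 0, 8, 7, 0, 1, 6, 7, 6, 0, 1, 0, 1, 4, 5, 6, 0, 1, 0, 1, 4, 5, 0, 2, 3, 4, 5, 0, 1,
    0, 2, 3, 4, 5, 0, 1, 0, 0, 1, 2, 3, 0, 1, 0, 0, 1, 2, 3, 0, 1]
  just := [0, 1, 2, 0, 3, 4, 2, 0, 1, 5, 0, 6, 7, 5, 4, 0, 3, 0, 8, 9, 10, 7, 0, 6, 0, 11, 12, 13, 0, 14, 15, 9, 10,
    0, 8, 0, 16, 17, 12, 13, 0, 11, 0, 0, 18, 14, 15, 0, 18, 0, 0, 19, 16, 17, 0, 19]
  gA := 42
  gB := 43
  fin := 0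
  sid := [0, 1, 0, 2, 3, 4, 2, 1, 0, 1, 5, 6, 7, 5, 4, 2, 3, 4, 8, 9, 10, 7, 5, 6, 7, 11, 12, 13, 9, 14, 15, 9, 10,
    4, 8, 12, 16, 17, 12, 13, 7, 11, 18, 19, 18, 14, 15, 9, 14, 19, 18, 19, 16, 17, 12, 16]
  off := [(0, 0), (0, 0), (-1, 1), (0, 0), (0, 0), (0, 0), (1, -1), (0, 0), (0, 0), (1, -1), (0, 0), (0, 0), (0, 0),
    (-1, 1), (-1, 1), (0, 0), (0, 0), (0, 0), (0, 0), (0, 0), (0, 0), (1, -1), (0, 0), (0, 0), (0, 0), (0, 0), (0,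
    0), (0, 0), (0, 0), (0, 0), (0, 0), (1, -1), (1, -1), (0, 0), (0, 0), (0, 0), (0, 0), (0, 0), (-1, 1), (-1, 1),
    (0, 0), (0, 0), (0, 0), (0, 0), (-1, 1), (-1, 1), (-1, 1), (0, 0), (0, 0), (-1, 0), (-1, 0), (0, -1), (1, -1),
    (1, -1), (0, 0), (0, 0)]

/-- glued arcs and equations -/
def tord7k_5 : TorT :=
  ⟨[(0, 0, true), (0, 5, false), (1, 1, true), (1, 3, false), (2, 4, false), (2, 6, true), (3, 5, false), (4, 6,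
    false)],
    [([0, 0, 0, 0, 1, 0, 1], 2), ([0, 0, 1, 0, 1, 0, 0], 2), ([0, 1, 0, 1, 0, 0, 1], 2), ([1, 0, 0, 1, 0, 2, 0], 2),
    ([1, 1, 1, 0, 0, 0, 0], 2)]⟩

theorem tord7k_5_ok : tord7k_5.OK 7 := TT.leaf_ok (T := ttd7k_5) (by decide +kernel)

/-- the torus -/
def ttd7k_6 : TT where
  k := 8
  rf := [false, false, false, true, true, false, true, true]
  tau := [7, 14, 20, 22, 23, 32, 33, 0, 35, 41, 29, 30, 25, 26, 1, 45, 46, 38, 54, 55, 2, 43, 3, 4, 31, 12, 13, 44,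
    50, 10, 11, 24, 5, 6, 51, 8, 52, 53, 17, 47, 48, 9, 49, 21, 27, 15, 16, 39, 40, 42, 28, 34, 36, 37, 18, 19]
  par := [0, 0, 1, 3, 5, 8, 15, 18]
  stars := [[0, 34, 52, 36, 8], [1, 7, 27, 45, 15], [2, 14], [3, 20, 49, 43, 22], [4, 23], [5, 24, 32], [6, 33], [9,
    35], [10, 41, 42, 50, 29], [11, 30], [12, 31, 25], [13, 26], [16, 46], [17, 47, 39], [18, 38, 54], [19, 55], [21,
    44], [28, 51], [37, 53], [40, 48]]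
  word := [[], [], [], [], [], [], [], [], [], [], [0], [0], [0], [0], [], [], [], [3], [], [], [], [1], [], [], [],
    [1], [1], [1], [1, 2, 0], [1], [1], [], [], [], [1, 2, 0], [], [2], [2], [2], [2], [2], [], [0], [0], [0], [],
    [], [3], [3], [1], [1, 3, 0], [1, 3, 0], [3], [3], [], []]
  rank := [0, 0, 1, 0, 1, 0, 1, 0, 0, 1, 4, 3, 1, 0, 0, 0, 1, 2, 0, 1, 1, 2, 0, 1, 2, 1, 0, 1, 5, 4, 3, 2, 0, 1, 6,
    0, 4, 3, 2, 0, 1, 1, 3, 2, 1, 0, 1, 0, 1, 3, 5, 6, 4, 3, 0, 1]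
  just := [0, 0, 2, 0, 4, 0, 6, 0, 0, 7, 9, 10, 11, 0, 0, 0, 12, 13, 0, 15, 2, 16, 0, 4, 5, 11, 0, 1, 8, 9, 10, 5, 0,
    6, 17, 0, 18, 14, 13, 0, 19, 7, 3, 16, 1, 0, 12, 0, 19, 3, 8, 17, 18, 14, 0, 15]
  gA := 13
  gB := 39
  fin := 0
  sid := [0, 1, 2, 3, 4, 5, 6, 1, 0, 7, 8, 9, 10, 11, 2, 1, 12, 13, 14, 15, 3, 16, 3, 4, 5, 10, 11, 1, 17, 8, 9, 10,
    5, 6, 0, 7, 0, 18, 14, 13, 19, 8, 8, 3, 16, 1, 12, 13, 19, 3, 8, 17, 0, 18, 14, 15]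
  off := [(0, 0), (0, 0), (0, 0), (0, 0), (0, 0), (0, 0), (0, 0), (0, 0), (0, 0), (0, 0), (0, 0), (0, 0), (0, 0), (0,
    0), (0, 0), (0, 0), (0, 0), (0, 0), (0, 0), (0, 0), (0, 0), (0, 0), (0, 0), (0, 0), (0, 0), (-1, 0), (-1, 0),
    (-1, 0), (0, 0), (-1, 0), (-1, 0), (-1, 0), (0, 0), (0, 0), (0, 0), (0, 0), (0, 0), (0, 0), (0, 1), (0, 1), (0,
    0), (0, 0), (0, -1), (1, 0), (1, 0), (0, 0), (0, 0), (0, 0), (0, -1), (0, 0), (-1, -1), (0, -1), (0, -1), (0,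
    -1), (0, 0), (0, 0)]

/-- glued arcs and equations -/
def tord7k_6 : TorT :=
  ⟨[(0, 0, true), (0, 1, true), (1, 3, false), (2, 4, false), (2, 6, true), (3, 3, true), (4, 5, false), (5, 6,
    false)],
    [([0, 0, 0, 0, 0, 1, 1], 2), ([0, 0, 0, 1, 1, 1, 0], 2), ([0, 0, 1, 0, 1, 0, 0], 2), ([1, 0, 1, 0, 0, 0, 0], 2),
    ([1, 2, 0, 1, 0, 0, 1], 2)]⟩

theorem tord7k_6_ok : tord7k_6.OK 7 := TT.leaf_ok (T := ttd7k_6) (by decide +kernel)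

/-- the torus -/
def ttd7k_7 : TT where
  k := 4
  rf := [false, false, false, false]
  tau := [10, 4, 16, 17, 1, 22, 21, 20, 19, 23, 0, 27, 26, 25, 24, 18, 2, 3, 15, 8, 7, 6, 5, 9, 14, 13, 12, 11]
  par := [0, 0, 2, 5]
  stars := [[0, 21, 11], [1, 10, 23, 5], [2, 4, 17], [3, 16, 18], [6, 22], [7, 25, 14], [8, 20], [9, 19, 15, 24],
    [12, 27], [13, 26]]
  word := [[], [1], [], [0], [0], [], [], [2], [2], [1], [], [2, 0, 3, 1], [2, 0, 3, 1], [2, 0, 3, 1], [0, 3, 1],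
    [0], [], [1], [1], [3], [3], [], [], [0], [0, 2, 1], [0, 2, 1, 3], [0, 2, 1, 3], [0, 2, 1, 3]]
  rank := [0, 1, 0, 0, 1, 0, 1, 1, 0, 2, 0, 6, 5, 4, 3, 1, 0, 0, 1, 0, 1, 1, 0, 2, 3, 4, 5, 6]
  just := [0, 2, 0, 0, 2, 0, 4, 6, 0, 1, 0, 8, 9, 5, 7, 3, 0, 0, 3, 0, 6, 4, 0, 1, 7, 5, 9, 8]
  gA := 3
  gB := 8
  fin := 0
  sid := [0, 1, 2, 3, 2, 1, 4, 5, 6, 7, 1, 0, 8, 9, 5, 7, 3, 2, 3, 7, 6, 0, 4, 1, 7, 5, 9, 8]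
  off := [(0, 0), (0, 0), (0, 0), (0, 0), (1, 0), (1, 0), (0, 0), (0, 0), (0, 0), (0, 0), (0, 0), (0, 0), (0, 0), (0,
    0), (0, -1), (1, -1), (0, 0), (0, 0), (-1, 0), (0, -1), (0, -1), (0, 0), (0, 0), (1, 0), (1, 0), (0, 0), (0, 0),
    (0, 0)]

/-- glued arcs and equations -/
def tord7k_7 : TorT :=
  ⟨[(0, 3, true), (0, 6, true), (1, 4, true), (1, 5, true), (2, 2, true), (3, 3, true), (4, 6, true), (5, 5, true)],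
    [([0, 0, 0, 0, 0, 1, 1], 2), ([0, 0, 1, 1, 1, 0, 0], 2), ([0, 1, 0, 0, 0, 0, 1], 2), ([0, 1, 1, 1, 0, 1, 0], 2),
    ([2, 0, 0, 0, 1, 0, 0], 2)]⟩

theorem tord7k_7_ok : tord7k_7.OK 7 := TT.leaf_ok (T := ttd7k_7) (by decide +kernel)

/-- the torus -/
def ttd7k_8 : TT where
  k := 8
  rf := [false, false, true, true, false, false, true, true]
  tau := [7, 8, 6, 14, 19, 20, 2, 0, 1, 13, 21, 26, 27, 9, 3, 31, 32, 29, 30, 4, 5, 10, 38, 39, 36, 37, 11, 12, 45,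
    17, 18, 15, 16, 46, 47, 52, 24, 25, 22, 23, 53, 54, 49, 50, 48, 28, 33, 34, 44, 42, 43, 55, 35, 40, 41, 51]
  par := [0, 0, 3, 10, 15, 22, 28, 35]
  stars := [[0, 2, 8], [1, 7, 9], [3, 6, 14], [4, 15, 31, 19], [5, 20], [10, 13, 21], [11, 22, 38, 26], [12, 27],
    [16, 32], [17, 29, 46, 33], [18, 30], [23, 39], [24, 36, 53, 40], [25, 37], [28, 48, 45], [34, 47], [35, 55, 52],
    [41, 54], [42, 50, 44], [43, 51, 49]]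
  word := [[], [1, 2], [2, 1], [], [0, 3], [0, 3], [0, 3], [], [3, 0], [3, 0], [], [1, 2], [1, 2], [1, 2], [], [],
    [], [2, 1], [2, 1], [2, 1], [2, 1], [], [], [], [3, 0], [3, 0], [3, 0], [3, 0], [], [0, 3], [0, 3], [], [], [2,
    1], [2, 1], [], [1, 2], [1, 2], [], [], [3, 0], [3, 0], [0], [2], [2, 1], [], [0, 3], [0, 3], [0, 3], [1], [3],
    [3, 0], [], [1, 2], [1, 2], [1, 2]]
  rank := [0, 9, 8, 0, 6, 7, 8, 0, 9, 8, 0, 6, 7, 8, 0, 0, 1, 4, 5, 6, 7, 0, 0, 1, 4, 5, 6, 7, 0, 4, 5, 0, 1, 3, 2,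
    0, 4, 5, 0, 1, 3, 2, 0, 0, 1, 0, 3, 2, 1, 0, 0, 1, 0, 3, 2, 1]
  just := [0, 1, 2, 0, 3, 4, 2, 0, 1, 5, 0, 6, 7, 5, 0, 0, 8, 9, 10, 3, 4, 0, 0, 11, 12, 13, 6, 7, 0, 9, 10, 0, 8,
    15, 14, 0, 12, 13, 0, 11, 17, 16, 0, 0, 18, 0, 15, 14, 18, 0, 0, 19, 0, 17, 16, 19]
  gA := 42
  gB := 43
  fin := 0
  sid := [0, 1, 0, 2, 3, 4, 2, 1, 0, 1, 5, 6, 7, 5, 2, 3, 8, 9, 10, 3, 4, 5, 6, 11, 12, 13, 6, 7, 14, 9, 10, 3, 8, 9,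
    15, 16, 12, 13, 6, 11, 12, 17, 18, 19, 18, 14, 9, 15, 14, 19, 18, 19, 16, 12, 17, 16]
  off := [(0, 0), (0, 0), (-1, 1), (0, 0), (0, 0), (0, 0), (1, -1), (0, 0), (0, 0), (1, -1), (0, 0), (0, 0), (0, 0),
    (-1, 1), (0, 0), (0, 0), (0, 0), (0, 0), (0, 0), (-1, 1), (-1, 1), (0, 0), (0, 0), (0, 0), (0, 0), (0, 0), (1,
    -1), (1, -1), (0, 0), (1, -1), (1, -1), (0, 0), (0, 0), (0, 0), (0, 0), (0, 0), (-1, 1), (-1, 1), (0, 0), (0, 0),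
    (0, 0), (0, 0), (0, 0), (0, 0), (-1, 1), (0, 0), (1, -1), (1, -1), (1, -1), (-1, 0), (-1, 0), (0, -1), (0, 0),
    (-1, 1), (-1, 1), (-1, 1)]

/-- glued arcs and equations -/
def tord7k_8 : TorT :=
  ⟨[(0, 0, true), (0, 3, false), (1, 1, true), (1, 3, false), (2, 4, false), (2, 6, true), (4, 5, false), (5, 6,
    false)],
    [([0, 0, 0, 0, 0, 1, 1], 2), ([0, 0, 1, 0, 1, 0, 0], 2), ([0, 1, 0, 1, 1, 1, 0], 2), ([1, 0, 0, 1, 0, 0, 1], 2),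
    ([1, 1, 1, 0, 0, 0, 0], 2)]⟩

theorem tord7k_8_ok : tord7k_8.OK 7 := TT.leaf_ok (T := ttd7k_8) (by decide +kernel)

/-- the torus -/
def ttd7k_9 : TT where
  k := 4
  rf := [false, true, false, true]
  tau := [9, 17, 16, 15, 18, 7, 8, 5, 6, 0, 13, 25, 26, 10, 23, 3, 2, 1, 4, 21, 22, 19, 20, 14, 27, 11, 12, 24]
  par := [0, 0, 1, 11]
  stars := [[0, 9], [1, 10, 7, 5, 18], [2, 17], [3, 16], [4, 15, 24, 21, 19], [6, 8], [11, 26, 13], [12, 27, 25],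
    [14, 23], [20, 22]]
  word := [[], [], [], [], [2, 0, 3], [2, 0, 3, 1], [2, 0, 3, 1], [0, 2, 1, 3], [0, 2, 1, 3], [], [1], [], [0], [0],
    [2], [], [], [], [2, 1, 3], [2], [2], [3], [3], [3], [0], [], [1], [1]]
  rank := [0, 0, 1, 2, 3, 4, 5, 4, 5, 0, 1, 0, 0, 1, 1, 2, 1, 0, 3, 1, 0, 1, 0, 1, 1, 0, 0, 1]
  just := [0, 0, 2, 3, 4, 1, 5, 1, 5, 0, 6, 0, 0, 6, 8, 3, 2, 0, 4, 9, 0, 9, 0, 8, 7, 0, 0, 7]
  gA := 12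
  gB := 20
  fin := 0
  sid := [0, 1, 2, 3, 4, 1, 5, 1, 5, 0, 1, 6, 7, 6, 8, 4, 3, 2, 1, 4, 9, 4, 9, 8, 4, 7, 6, 7]
  off := [(0, 0), (0, 0), (0, 0), (0, 0), (0, 0), (1, 0), (0, 0), (1, 0), (0, 0), (0, 0), (0, 0), (0, 0), (0, 0), (1,
    0), (0, 0), (0, 0), (0, 0), (0, 0), (0, 0), (-1, 0), (0, 0), (-1, -1), (0, -1), (0, -1), (0, -1), (0, 0), (0, 0),
    (-1, 0)]

/-- glued arcs and equations -/
def tord7k_9 : TorT :=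
  ⟨[(0, 2, false), (0, 5, false), (1, 3, true), (1, 6, false), (2, 2, true), (3, 6, true), (4, 4, true), (5, 5,
    true)],
    [([0, 0, 0, 0, 1, 1, 1], 2), ([0, 0, 1, 1, 0, 0, 0], 2), ([0, 1, 0, 0, 0, 0, 1], 2), ([1, 0, 1, 0, 0, 0, 0], 2),
    ([1, 1, 0, 1, 1, 1, 0], 2)]⟩

theorem tord7k_9_ok : tord7k_9.OK 7 := TT.leaf_ok (T := ttd7k_9) (by decide +kernel)

/-- the torus -/
def ttd7k_10 : TT where
  k := 2
  rf := [false, true]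
  tau := [7, 5, 10, 11, 12, 1, 8, 0, 6, 13, 2, 3, 4, 9]
  par := [0, 0]
  stars := [[0, 9, 7], [1, 8, 6], [2, 5, 13, 10], [3, 11], [4, 12]]
  word := [[], [0], [2], [2], [2], [1], [1], [], [0], [3, 0, 2], [3], [3], [3], [3, 1, 2]]
  rank := [0, 0, 1, 0, 1, 0, 1, 0, 1, 2, 1, 0, 1, 2]
  just := [0, 0, 3, 0, 4, 0, 1, 0, 1, 2, 3, 0, 4, 2]
  gA := 1
  gB := 3
  fin := 0
  sid := [0, 1, 2, 3, 4, 2, 1, 0, 1, 0, 2, 3, 4, 2]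
  off := [(0, 0), (0, 0), (0, 0), (0, 0), (0, 0), (-1, 0), (-1, 0), (0, 0), (0, 0), (1, 0), (0, -1), (0, -1), (0,
    -1), (-1, -1)]

/-- glued arcs and equations -/
def tord7k_10 : TorT :=
  ⟨[(0, 0, false), (1, 5, true), (1, 6, false), (2, 3, false), (2, 6, true), (3, 4, false), (4, 5, false)],
    [([0, 0, 0, 0, 1, 1, 0], 2), ([0, 0, 0, 1, 1, 0, 0], 2), ([0, 0, 1, 1, 0, 1, 1], 2), ([0, 2, 0, 0, 0, 0, 1], 2),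
    ([2, 0, 1, 0, 0, 0, 0], 2)]⟩

theorem tord7k_10_ok : tord7k_10.OK 7 := TT.leaf_ok (T := ttd7k_10) (by decide +kernel)

end Pool.Agent.Lib_MP_fa6e45
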