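import Pool.Agent.Lib_MP_fa6e45.DQ7k_0d
import Pool.Agent.Lib_MP_fa6e45.RD7k_0

/-!
MP_fa6e45_co, stage 9: straight-side patterns with `7` sides, part of a certificate (generated by a program).
-/

namespace Pool.Agent.Lib_MP_fa6e45

theorem cD7k_0_k0_0 : allI cD7k_0_c (rjL dJ cD7k_0_q rD7k_0_0) 0 = true := by
  decide +kernel

theorem cD7k_0_k0_1 : allI cD7k_0_c (rjL dJ cD7k_0_q rD7k_0_1) 24 = true := by
  decide +kernel

theorem cD7k_0_k0_2 : allI cD7k_0_c (rjL dJ cD7k_0_q rD7k_0_2) 29 = true := by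
  decide +kernel

theorem cD7k_0_k0_3 : allI cD7k_0_c (rjL dJ cD7k_0_q rD7k_0_3) 30 = true := by
  decide +kernel

theorem cD7k_0_k0_4 : allI cD7k_0_c (rjL dJ cD7k_0_q rD7k_0_4) 54 = true := by
  decide +kernel

theorem cD7k_0_k0_5 : allI cD7k_0_c (rjL dJ cD7k_0_q rD7k_0_5) 78 = true := by
  decide +kernel

theorem cD7k_0_k0_6 : allI cD7k_0_c (rjL dJ cD7k_0_q rD7k_0_6) 79 = true := by
  decide +kernel

theorem cD7k_0_k0_7 : allI cD7k_0_c (rjL dJ cD7k_0_q rD7k_0_7) 103 = true := by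
  decide +kernel

theorem cD7k_0_k0_8 : allI cD7k_0_c (rjL dJ cD7k_0_q rD7k_0_8) 117 = true := by
  decide +kernel

theorem cD7k_0_k0_9 : allI cD7k_0_c (rjL dJ cD7k_0_q rD7k_0_9) 118 = true := by
  decide +kernel

theorem cD7k_0_k0_10 : allI cD7k_0_c (rjL dJ cD7k_0_q rD7k_0_10) 142 = true := by
  decide +kernel

theorem cD7k_0_k0_11 : allI cD7k_0_c (rjL dJ cD7k_0_q rD7k_0_11) 166 = true := by
  decide +kernel

theorem cD7k_0_k0_12 : allI cD7k_0_c (rjL dJ cD7k_0_q rD7k_0_12) 190 = true := by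
  decide +kernel

theorem cD7k_0_k0_13 : allI cD7k_0_c (rjL dJ cD7k_0_q rD7k_0_13) 214 = true := by
  decide +kernel

theorem cD7k_0_k0_14 : allI cD7k_0_c (rjL dJ cD7k_0_q rD7k_0_14) 238 = true := by
  decide +kernel

theorem cD7k_0_k0_15 : allI cD7k_0_c (rjL dJ cD7k_0_q rD7k_0_15) 262 = true := by
  decide +kernel

theorem cD7k_0_k0_16 : allI cD7k_0_c (rjL dJ cD7k_0_q rD7k_0_16) 286 = true := by
  decide +kernel

theorem cD7k_0_k0_17 : allI cD7k_0_c (rjL dJ cD7k_0_q rD7k_0_17) 310 = true := by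
  decide +kernel

theorem cD7k_0_k0_18 : allI cD7k_0_c (rjL dJ cD7k_0_q rD7k_0_18) 334 = true := by
  decide +kernel

theorem cD7k_0_k0_19 : allI cD7k_0_c (rjL dJ cD7k_0_q rD7k_0_19) 358 = true := by
  decide +kernel

theorem cD7k_0_k0_20 : allI cD7k_0_c (rjL dJ cD7k_0_q rD7k_0_20) 382 = true := by
  decide +kernel

theorem cD7k_0_k0_21 : allI cD7k_0_c (rjL dJ cD7k_0_q rD7k_0_21) 406 = true := by
  decide +kernel

theorem cD7k_0_k0_22 : allI cD7k_0_c (rjL dJ cD7k_0_q rD7k_0_22) 430 = true := by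
  decide +kernel

theorem cD7k_0_k0_23 : allI cD7k_0_c (rjL dJ cD7k_0_q rD7k_0_23) 454 = true := by
  decide +kernel

theorem cD7k_0_k0_24 : allI cD7k_0_c (rjL dJ cD7k_0_q rD7k_0_24) 478 = true := by
  decide +kernel

theorem cD7k_0_k0_25 : allI cD7k_0_c (rjL dJ cD7k_0_q rD7k_0_25) 502 = true := by
  decide +kernel

theorem cD7k_0_k0_26 : allI cD7k_0_c (rjL dJ cD7k_0_q rD7k_0_26) 526 = true := by
  decide +kernel

theorem cD7k_0_k0_27 : allI cD7k_0_c (rjL dJ cD7k_0_q rD7k_0_27) 550 = true := by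
  decide +kernel

theorem cD7k_0_k0_28 : allI cD7k_0_c (rjL dJ cD7k_0_q rD7k_0_28) 574 = true := by
  decide +kernel

theorem cD7k_0_k0_29 : allI cD7k_0_c (rjL dJ cD7k_0_q rD7k_0_29) 598 = true := by
  decide +kernel

theorem cD7k_0_k0_30 : allI cD7k_0_c (rjL dJ cD7k_0_q rD7k_0_30) 622 = true := by
  decide +kernel

theorem cD7k_0_k0_31 : allI cD7k_0_c (rjL dJ cD7k_0_q rD7k_0_31) 646 = true := by
  decide +kernel

theorem cD7k_0_k0_32 : allI cD7k_0_c (rjL dJ cD7k_0_q rD7k_0_32) 670 = true := by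
  decide +kernel

theorem cD7k_0_k0_33 : allI cD7k_0_c (rjL dJ cD7k_0_q rD7k_0_33) 694 = true := by
  decide +kernel

theorem cD7k_0_k0_34 : allI cD7k_0_c (rjL dJ cD7k_0_q rD7k_0_34) 718 = true := by
  decide +kernel

theorem cD7k_0_k0_35 : allI cD7k_0_c (rjL dJ cD7k_0_q rD7k_0_35) 742 = true := by
  decide +kernel

theorem cD7k_0_k0_36 : allI cD7k_0_c (rjL dJ cD7k_0_q rD7k_0_36) 766 = true := by
  decide +kernel

theorem cD7k_0_k0_37 : allI cD7k_0_c (rjL dJ cD7k_0_q rD7k_0_37) 790 = true := by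
  decide +kernel

theorem cD7k_0_k0_38 : allI cD7k_0_c (rjL dJ cD7k_0_q rD7k_0_38) 814 = true := by
  decide +kernel

theorem cD7k_0_k0_39 : allI cD7k_0_c (rjL dJ cD7k_0_q rD7k_0_39) 838 = true := by
  decide +kernel

theorem cD7k_0_k0_40 : allI cD7k_0_c (rjL dJ cD7k_0_q rD7k_0_40) 862 = true := by
  decide +kernel

theorem cD7k_0_k0_41 : allI cD7k_0_c (rjL dJ cD7k_0_q rD7k_0_41) 886 = true := by
  decide +kernel

theorem cD7k_0_k0_42 : allI cD7k_0_c (rjL dJ cD7k_0_q rD7k_0_42) 910 = true := by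
  decide +kernel

theorem cD7k_0_k0_43 : allI cD7k_0_c (rjL dJ cD7k_0_q rD7k_0_43) 934 = true := by
  decide +kernel

theorem cD7k_0_k0_44 : allI cD7k_0_c (rjL dJ cD7k_0_q rD7k_0_44) 958 = true := by
  decide +kernel

theorem cD7k_0_k0_45 : allI cD7k_0_c (rjL dJ cD7k_0_q rD7k_0_45) 982 = true := by
  decide +kernel

theorem cD7k_0_k0_46 : allI cD7k_0_c (rjL dJ cD7k_0_q rD7k_0_46) 1006 = true := by
  decide +kernel

theorem cD7k_0_k0_47 : allI cD7k_0_c (rjL dJ cD7k_0_q rD7k_0_47) 1030 = true := by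
  decide +kernel

theorem cD7k_0_k0_48 : allI cD7k_0_c (rjL dJ cD7k_0_q rD7k_0_48) 1054 = true := by
  decide +kernel

theorem cD7k_0_k0_49 : allI cD7k_0_c (rjL dJ cD7k_0_q rD7k_0_49) 1078 = true := by
  decide +kernel

theorem cD7k_0_k0_50 : allI cD7k_0_c (rjL dJ cD7k_0_q rD7k_0_50) 1102 = true := by
  decide +kernel

theorem cD7k_0_k0_51 : allI cD7k_0_c (rjL dJ cD7k_0_q rD7k_0_51) 1126 = true := by
  decide +kernel

theorem cD7k_0_k0_52 : allI cD7k_0_c (rjL dJ cD7k_0_q rD7k_0_52) 1150 = true := by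
  decide +kernel

theorem cD7k_0_k0_53 : allI cD7k_0_c (rjL dJ cD7k_0_q rD7k_0_53) 1174 = true := by
  decide +kernel

theorem cD7k_0_k0_54 : allI cD7k_0_c (rjL dJ cD7k_0_q rD7k_0_54) 1198 = true := by
  decide +kernel

theorem cD7k_0_k0_55 : allI cD7k_0_c (rjL dJ cD7k_0_q rD7k_0_55) 1222 = true := by
  decide +kernel

theorem cD7k_0_k0_56 : allI cD7k_0_c (rjL dJ cD7k_0_q rD7k_0_56) 1246 = true := by
  decide +kernel

theorem cD7k_0_k0_57 : allI cD7k_0_c (rjL dJ cD7k_0_q rD7k_0_57) 1270 = true := by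
  decide +kernel

theorem cD7k_0_k0_58 : allI cD7k_0_c (rjL dJ cD7k_0_q rD7k_0_58) 1294 = true := by
  decide +kernel

theorem cD7k_0_k0_59 : allI cD7k_0_c (rjL dJ cD7k_0_q rD7k_0_59) 1318 = true := by
  decide +kernel

theorem cD7k_0_k0_60 : allI cD7k_0_c (rjL dJ cD7k_0_q rD7k_0_60) 1342 = true := by
  decide +kernel

theorem cD7k_0_k0_61 : allI cD7k_0_c (rjL dJ cD7k_0_q rD7k_0_61) 1366 = true := by
  decide +kernel

theorem cD7k_0_k0_62 : allI cD7k_0_c (rjL dJ cD7k_0_q rD7k_0_62) 1390 = true := by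
  decide +kernel

theorem cD7k_0_k0_63 : allI cD7k_0_c (rjL dJ cD7k_0_q rD7k_0_63) 1414 = true := by
  decide +kernel

theorem cD7k_0_k0_64 : allI cD7k_0_c (rjL dJ cD7k_0_q rD7k_0_64) 1438 = true := by
  decide +kernel

theorem cD7k_0_k0_65 : allI cD7k_0_c (rjL dJ cD7k_0_q rD7k_0_65) 1462 = true := by
  decide +kernel

/-- nodes -/
noncomputable def cD7k_0_n0 : List (QJ PN) :=
  rjL dJ cD7k_0_q rD7k_0_0 ++ (rjL dJ cD7k_0_q rD7k_0_1 ++ (rjL dJ cD7k_0_q rD7k_0_2 ++ (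
    rjL dJ cD7k_0_q rD7k_0_3 ++ (rjL dJ cD7k_0_q rD7k_0_4 ++ (rjL dJ cD7k_0_q rD7k_0_5 ++ (
    rjL dJ cD7k_0_q rD7k_0_6 ++ (rjL dJ cD7k_0_q rD7k_0_7 ++ (rjL dJ cD7k_0_q rD7k_0_8 ++ (
    rjL dJ cD7k_0_q rD7k_0_9 ++ (rjL dJ cD7k_0_q rD7k_0_10 ++ (rjL dJ cD7k_0_q rD7k_0_11 ++ (
    rjL dJ cD7k_0_q rD7k_0_12 ++ (rjL dJ cD7k_0_q rD7k_0_13 ++ (rjL dJ cD7k_0_q rD7k_0_14 ++ (
    rjL dJ cD7k_0_q rD7k_0_15 ++ (rjL dJ cD7k_0_q rD7k_0_16 ++ (rjL dJ cD7k_0_q rD7k_0_17 ++ (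
    rjL dJ cD7k_0_q rD7k_0_18 ++ (rjL dJ cD7k_0_q rD7k_0_19 ++ (rjL dJ cD7k_0_q rD7k_0_20 ++ (
    rjL dJ cD7k_0_q rD7k_0_21 ++ (rjL dJ cD7k_0_q rD7k_0_22 ++ (rjL dJ cD7k_0_q rD7k_0_23 ++ (
    rjL dJ cD7k_0_q rD7k_0_24 ++ (rjL dJ cD7k_0_q rD7k_0_25 ++ (rjL dJ cD7k_0_q rD7k_0_26 ++ (
    rjL dJ cD7k_0_q rD7k_0_27 ++ (rjL dJ cD7k_0_q rD7k_0_28 ++ (rjL dJ cD7k_0_q rD7k_0_29 ++ (
    rjL dJ cD7k_0_q rD7k_0_30 ++ (rjL dJ cD7k_0_q rD7k_0_31 ++ (rjL dJ cD7k_0_q rD7k_0_32 ++ (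
    rjL dJ cD7k_0_q rD7k_0_33 ++ (rjL dJ cD7k_0_q rD7k_0_34 ++ (rjL dJ cD7k_0_q rD7k_0_35 ++ (
    rjL dJ cD7k_0_q rD7k_0_36 ++ (rjL dJ cD7k_0_q rD7k_0_37 ++ (rjL dJ cD7k_0_q rD7k_0_38 ++ (
    rjL dJ cD7k_0_q rD7k_0_39 ++ (rjL dJ cD7k_0_q rD7k_0_40 ++ (rjL dJ cD7k_0_q rD7k_0_41 ++ (
    rjL dJ cD7k_0_q rD7k_0_42 ++ (rjL dJ cD7k_0_q rD7k_0_43 ++ (rjL dJ cD7k_0_q rD7k_0_44 ++ (
    rjL dJ cD7k_0_q rD7k_0_45 ++ (rjL dJ cD7k_0_q rD7k_0_46 ++ (rjL dJ cD7k_0_q rD7k_0_47 ++ (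
    rjL dJ cD7k_0_q rD7k_0_48 ++ (rjL dJ cD7k_0_q rD7k_0_49 ++ (rjL dJ cD7k_0_q rD7k_0_50 ++ (
    rjL dJ cD7k_0_q rD7k_0_51 ++ (rjL dJ cD7k_0_q rD7k_0_52 ++ (rjL dJ cD7k_0_q rD7k_0_53 ++ (
    rjL dJ cD7k_0_q rD7k_0_54 ++ (rjL dJ cD7k_0_q rD7k_0_55 ++ (rjL dJ cD7k_0_q rD7k_0_56 ++ (
    rjL dJ cD7k_0_q rD7k_0_57 ++ (rjL dJ cD7k_0_q rD7k_0_58 ++ (rjL dJ cD7k_0_q rD7k_0_59 ++ (
    rjL dJ cD7k_0_q rD7k_0_60 ++ (rjL dJ cD7k_0_q rD7k_0_61 ++ (rjL dJ cD7k_0_q rD7k_0_62 ++ (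
    rjL dJ cD7k_0_q rD7k_0_63 ++ (rjL dJ cD7k_0_q rD7k_0_64 ++
    rjL dJ cD7k_0_q rD7k_0_65))))))))))))))))))))))))))))))))))))))))))))))))))))))))))))))))

theorem cD7k_0_k0 : allI cD7k_0_c cD7k_0_n0 0 = true := by
  refine allI_appQ (k := 24) cD7k_0_k0_0 (by decide +kernel) ?_
  refine allI_appQ (k := 5) cD7k_0_k0_1 (by decide +kernel) ?_
  refine allI_appQ (k := 1) cD7k_0_k0_2 (by decide +kernel) ?_
  refine allI_appQ (k := 24) cD7k_0_k0_3 (by decide +kernel) ?_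
  refine allI_appQ (k := 24) cD7k_0_k0_4 (by decide +kernel) ?_
  refine allI_appQ (k := 1) cD7k_0_k0_5 (by decide +kernel) ?_
  refine allI_appQ (k := 24) cD7k_0_k0_6 (by decide +kernel) ?_
  refine allI_appQ (k := 14) cD7k_0_k0_7 (by decide +kernel) ?_
  refine allI_appQ (k := 1) cD7k_0_k0_8 (by decide +kernel) ?_
  refine allI_appQ (k := 24) cD7k_0_k0_9 (by decide +kernel) ?_
  refine allI_appQ (k := 24) cD7k_0_k0_10 (by decide +kernel) ?_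
  refine allI_appQ (k := 24) cD7k_0_k0_11 (by decide +kernel) ?_
  refine allI_appQ (k := 24) cD7k_0_k0_12 (by decide +kernel) ?_
  refine allI_appQ (k := 24) cD7k_0_k0_13 (by decide +kernel) ?_
  refine allI_appQ (k := 24) cD7k_0_k0_14 (by decide +kernel) ?_
  refine allI_appQ (k := 24) cD7k_0_k0_15 (by decide +kernel) ?_
  refine allI_appQ (k := 24) cD7k_0_k0_16 (by decide +kernel) ?_
  refine allI_appQ (k := 24) cD7k_0_k0_17 (by decide +kernel) ?_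
  refine allI_appQ (k := 24) cD7k_0_k0_18 (by decide +kernel) ?_
  refine allI_appQ (k := 24) cD7k_0_k0_19 (by decide +kernel) ?_
  refine allI_appQ (k := 24) cD7k_0_k0_20 (by decide +kernel) ?_
  refine allI_appQ (k := 24) cD7k_0_k0_21 (by decide +kernel) ?_
  refine allI_appQ (k := 24) cD7k_0_k0_22 (by decide +kernel) ?_
  refine allI_appQ (k := 24) cD7k_0_k0_23 (by decide +kernel) ?_
  refine allI_appQ (k := 24) cD7k_0_k0_24 (by decide +kernel) ?_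
  refine allI_appQ (k := 24) cD7k_0_k0_25 (by decide +kernel) ?_
  refine allI_appQ (k := 24) cD7k_0_k0_26 (by decide +kernel) ?_
  refine allI_appQ (k := 24) cD7k_0_k0_27 (by decide +kernel) ?_
  refine allI_appQ (k := 24) cD7k_0_k0_28 (by decide +kernel) ?_
  refine allI_appQ (k := 24) cD7k_0_k0_29 (by decide +kernel) ?_
  refine allI_appQ (k := 24) cD7k_0_k0_30 (by decide +kernel) ?_
  refine allI_appQ (k := 24) cD7k_0_k0_31 (by decide +kernel) ?_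
  refine allI_appQ (k := 24) cD7k_0_k0_32 (by decide +kernel) ?_
  refine allI_appQ (k := 24) cD7k_0_k0_33 (by decide +kernel) ?_
  refine allI_appQ (k := 24) cD7k_0_k0_34 (by decide +kernel) ?_
  refine allI_appQ (k := 24) cD7k_0_k0_35 (by decide +kernel) ?_
  refine allI_appQ (k := 24) cD7k_0_k0_36 (by decide +kernel) ?_
  refine allI_appQ (k := 24) cD7k_0_k0_37 (by decide +kernel) ?_
  refine allI_appQ (k := 24) cD7k_0_k0_38 (by decide +kernel) ?_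
  refine allI_appQ (k := 24) cD7k_0_k0_39 (by decide +kernel) ?_
  refine allI_appQ (k := 24) cD7k_0_k0_40 (by decide +kernel) ?_
  refine allI_appQ (k := 24) cD7k_0_k0_41 (by decide +kernel) ?_
  refine allI_appQ (k := 24) cD7k_0_k0_42 (by decide +kernel) ?_
  refine allI_appQ (k := 24) cD7k_0_k0_43 (by decide +kernel) ?_
  refine allI_appQ (k := 24) cD7k_0_k0_44 (by decide +kernel) ?_
  refine allI_appQ (k := 24) cD7k_0_k0_45 (by decide +kernel) ?_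
  refine allI_appQ (k := 24) cD7k_0_k0_46 (by decide +kernel) ?_
  refine allI_appQ (k := 24) cD7k_0_k0_47 (by decide +kernel) ?_
  refine allI_appQ (k := 24) cD7k_0_k0_48 (by decide +kernel) ?_
  refine allI_appQ (k := 24) cD7k_0_k0_49 (by decide +kernel) ?_
  refine allI_appQ (k := 24) cD7k_0_k0_50 (by decide +kernel) ?_
  refine allI_appQ (k := 24) cD7k_0_k0_51 (by decide +kernel) ?_
  refine allI_appQ (k := 24) cD7k_0_k0_52 (by decide +kernel) ?_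
  refine allI_appQ (k := 24) cD7k_0_k0_53 (by decide +kernel) ?_
  refine allI_appQ (k := 24) cD7k_0_k0_54 (by decide +kernel) ?_
  refine allI_appQ (k := 24) cD7k_0_k0_55 (by decide +kernel) ?_
  refine allI_appQ (k := 24) cD7k_0_k0_56 (by decide +kernel) ?_
  refine allI_appQ (k := 24) cD7k_0_k0_57 (by decide +kernel) ?_
  refine allI_appQ (k := 24) cD7k_0_k0_58 (by decide +kernel) ?_
  refine allI_appQ (k := 24) cD7k_0_k0_59 (by decide +kernel) ?_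
  refine allI_appQ (k := 24) cD7k_0_k0_60 (by decide +kernel) ?_
  refine allI_appQ (k := 24) cD7k_0_k0_61 (by decide +kernel) ?_
  refine allI_appQ (k := 24) cD7k_0_k0_62 (by decide +kernel) ?_
  refine allI_appQ (k := 24) cD7k_0_k0_63 (by decide +kernel) ?_
  refine allI_appQ (k := 24) cD7k_0_k0_64 (by decide +kernel) ?_
  exact cD7k_0_k0_65

theorem cD7k_0_l0 : cD7k_0_n0.length = 1464 := by
  decide +kernel

end Pool.Agent.Lib_MP_fa6e45
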