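import Pool.Agent.Lib_MP_fa6e45.DQ7k_0d
import Pool.Agent.Lib_MP_fa6e45.RD7k_1

/-!
MP_fa6e45_co, stage 9: straight-side patterns with `7` sides, part of a certificate (generated by a program).
-/

namespace Pool.Agent.Lib_MP_fa6e45

theorem cD7k_0_k1_0 : allI cD7k_0_c (rjL dJ cD7k_0_q rD7k_1_0) 1464 = true := by
  decide +kernel

theorem cD7k_0_k1_1 : allI cD7k_0_c (rjL dJ cD7k_0_q rD7k_1_1) 1488 = true := by
  decide +kernel

theorem cD7k_0_k1_2 : allI cD7k_0_c (rjL dJ cD7k_0_q rD7k_1_2) 1512 = true := by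
  decide +kernel

theorem cD7k_0_k1_3 : allI cD7k_0_c (rjL dJ cD7k_0_q rD7k_1_3) 1536 = true := by
  decide +kernel

theorem cD7k_0_k1_4 : allI cD7k_0_c (rjL dJ cD7k_0_q rD7k_1_4) 1560 = true := by
  decide +kernel

theorem cD7k_0_k1_5 : allI cD7k_0_c (rjL dJ cD7k_0_q rD7k_1_5) 1584 = true := by
  decide +kernel

theorem cD7k_0_k1_6 : allI cD7k_0_c (rjL dJ cD7k_0_q rD7k_1_6) 1608 = true := by
  decide +kernel

theorem cD7k_0_k1_7 : allI cD7k_0_c (rjL dJ cD7k_0_q rD7k_1_7) 1632 = true := by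
  decide +kernel

theorem cD7k_0_k1_8 : allI cD7k_0_c (rjL dJ cD7k_0_q rD7k_1_8) 1656 = true := by
  decide +kernel

theorem cD7k_0_k1_9 : allI cD7k_0_c (rjL dJ cD7k_0_q rD7k_1_9) 1680 = true := by
  decide +kernel

theorem cD7k_0_k1_10 : allI cD7k_0_c (rjL dJ cD7k_0_q rD7k_1_10) 1704 = true := by
  decide +kernel

theorem cD7k_0_k1_11 : allI cD7k_0_c (rjL dJ cD7k_0_q rD7k_1_11) 1728 = true := by
  decide +kernel

theorem cD7k_0_k1_12 : allI cD7k_0_c (rjL dJ cD7k_0_q rD7k_1_12) 1752 = true := by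
  decide +kernel

theorem cD7k_0_k1_13 : allI cD7k_0_c (rjL dJ cD7k_0_q rD7k_1_13) 1776 = true := by
  decide +kernel

theorem cD7k_0_k1_14 : allI cD7k_0_c (rjL dJ cD7k_0_q rD7k_1_14) 1800 = true := by
  decide +kernel

theorem cD7k_0_k1_15 : allI cD7k_0_c (rjL dJ cD7k_0_q rD7k_1_15) 1824 = true := by
  decide +kernel

theorem cD7k_0_k1_16 : allI cD7k_0_c (rjL dJ cD7k_0_q rD7k_1_16) 1848 = true := by
  decide +kernel

theorem cD7k_0_k1_17 : allI cD7k_0_c (rjL dJ cD7k_0_q rD7k_1_17) 1872 = true := by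
  decide +kernel

theorem cD7k_0_k1_18 : allI cD7k_0_c (rjL dJ cD7k_0_q rD7k_1_18) 1896 = true := by
  decide +kernel

theorem cD7k_0_k1_19 : allI cD7k_0_c (rjL dJ cD7k_0_q rD7k_1_19) 1920 = true := by
  decide +kernel

theorem cD7k_0_k1_20 : allI cD7k_0_c (rjL dJ cD7k_0_q rD7k_1_20) 1944 = true := by
  decide +kernel

theorem cD7k_0_k1_21 : allI cD7k_0_c (rjL dJ cD7k_0_q rD7k_1_21) 1968 = true := by
  decide +kernel

theorem cD7k_0_k1_22 : allI cD7k_0_c (rjL dJ cD7k_0_q rD7k_1_22) 1992 = true := by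
  decide +kernel

theorem cD7k_0_k1_23 : allI cD7k_0_c (rjL dJ cD7k_0_q rD7k_1_23) 2016 = true := by
  decide +kernel

theorem cD7k_0_k1_24 : allI cD7k_0_c (rjL dJ cD7k_0_q rD7k_1_24) 2040 = true := by
  decide +kernel

theorem cD7k_0_k1_25 : allI cD7k_0_c (rjL dJ cD7k_0_q rD7k_1_25) 2064 = true := by
  decide +kernel

theorem cD7k_0_k1_26 : allI cD7k_0_c (rjL dJ cD7k_0_q rD7k_1_26) 2088 = true := by
  decide +kernel

theorem cD7k_0_k1_27 : allI cD7k_0_c (rjL dJ cD7k_0_q rD7k_1_27) 2112 = true := by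
  decide +kernel

theorem cD7k_0_k1_28 : allI cD7k_0_c (rjL dJ cD7k_0_q rD7k_1_28) 2136 = true := by
  decide +kernel

theorem cD7k_0_k1_29 : allI cD7k_0_c (rjL dJ cD7k_0_q rD7k_1_29) 2160 = true := by
  decide +kernel

theorem cD7k_0_k1_30 : allI cD7k_0_c (rjL dJ cD7k_0_q rD7k_1_30) 2184 = true := by
  decide +kernel

theorem cD7k_0_k1_31 : allI cD7k_0_c (rjL dJ cD7k_0_q rD7k_1_31) 2208 = true := by
  decide +kernel

theorem cD7k_0_k1_32 : allI cD7k_0_c (rjL dJ cD7k_0_q rD7k_1_32) 2232 = true := by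
  decide +kernel

theorem cD7k_0_k1_33 : allI cD7k_0_c (rjL dJ cD7k_0_q rD7k_1_33) 2256 = true := by
  decide +kernel

theorem cD7k_0_k1_34 : allI cD7k_0_c (rjL dJ cD7k_0_q rD7k_1_34) 2280 = true := by
  decide +kernel

theorem cD7k_0_k1_35 : allI cD7k_0_c (rjL dJ cD7k_0_q rD7k_1_35) 2304 = true := by
  decide +kernel

theorem cD7k_0_k1_36 : allI cD7k_0_c (rjL dJ cD7k_0_q rD7k_1_36) 2328 = true := by
  decide +kernel

theorem cD7k_0_k1_37 : allI cD7k_0_c (rjL dJ cD7k_0_q rD7k_1_37) 2352 = true := by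
  decide +kernel

theorem cD7k_0_k1_38 : allI cD7k_0_c (rjL dJ cD7k_0_q rD7k_1_38) 2376 = true := by
  decide +kernel

theorem cD7k_0_k1_39 : allI cD7k_0_c (rjL dJ cD7k_0_q rD7k_1_39) 2400 = true := by
  decide +kernel

theorem cD7k_0_k1_40 : allI cD7k_0_c (rjL dJ cD7k_0_q rD7k_1_40) 2424 = true := by
  decide +kernel

theorem cD7k_0_k1_41 : allI cD7k_0_c (rjL dJ cD7k_0_q rD7k_1_41) 2448 = true := by
  decide +kernel

theorem cD7k_0_k1_42 : allI cD7k_0_c (rjL dJ cD7k_0_q rD7k_1_42) 2472 = true := by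
  decide +kernel

theorem cD7k_0_k1_43 : allI cD7k_0_c (rjL dJ cD7k_0_q rD7k_1_43) 2496 = true := by
  decide +kernel

theorem cD7k_0_k1_44 : allI cD7k_0_c (rjL dJ cD7k_0_q rD7k_1_44) 2520 = true := by
  decide +kernel

theorem cD7k_0_k1_45 : allI cD7k_0_c (rjL dJ cD7k_0_q rD7k_1_45) 2544 = true := by
  decide +kernel

theorem cD7k_0_k1_46 : allI cD7k_0_c (rjL dJ cD7k_0_q rD7k_1_46) 2568 = true := by
  decide +kernel

theorem cD7k_0_k1_47 : allI cD7k_0_c (rjL dJ cD7k_0_q rD7k_1_47) 2592 = true := by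
  decide +kernel

theorem cD7k_0_k1_48 : allI cD7k_0_c (rjL dJ cD7k_0_q rD7k_1_48) 2616 = true := by
  decide +kernel

theorem cD7k_0_k1_49 : allI cD7k_0_c (rjL dJ cD7k_0_q rD7k_1_49) 2640 = true := by
  decide +kernel

theorem cD7k_0_k1_50 : allI cD7k_0_c (rjL dJ cD7k_0_q rD7k_1_50) 2664 = true := by
  decide +kernel

theorem cD7k_0_k1_51 : allI cD7k_0_c (rjL dJ cD7k_0_q rD7k_1_51) 2688 = true := by
  decide +kernel

theorem cD7k_0_k1_52 : allI cD7k_0_c (rjL dJ cD7k_0_q rD7k_1_52) 2712 = true := by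
  decide +kernel

theorem cD7k_0_k1_53 : allI cD7k_0_c (rjL dJ cD7k_0_q rD7k_1_53) 2736 = true := by
  decide +kernel

theorem cD7k_0_k1_54 : allI cD7k_0_c (rjL dJ cD7k_0_q rD7k_1_54) 2760 = true := by
  decide +kernel

theorem cD7k_0_k1_55 : allI cD7k_0_c (rjL dJ cD7k_0_q rD7k_1_55) 2784 = true := by
  decide +kernel

theorem cD7k_0_k1_56 : allI cD7k_0_c (rjL dJ cD7k_0_q rD7k_1_56) 2808 = true := by
  decide +kernel

theorem cD7k_0_k1_57 : allI cD7k_0_c (rjL dJ cD7k_0_q rD7k_1_57) 2832 = true := by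
  decide +kernel

theorem cD7k_0_k1_58 : allI cD7k_0_c (rjL dJ cD7k_0_q rD7k_1_58) 2856 = true := by
  decide +kernel

theorem cD7k_0_k1_59 : allI cD7k_0_c (rjL dJ cD7k_0_q rD7k_1_59) 2880 = true := by
  decide +kernel

theorem cD7k_0_k1_60 : allI cD7k_0_c (rjL dJ cD7k_0_q rD7k_1_60) 2904 = true := by
  decide +kernel

theorem cD7k_0_k1_61 : allI cD7k_0_c (rjL dJ cD7k_0_q rD7k_1_61) 2928 = true := by
  decide +kernel

theorem cD7k_0_k1_62 : allI cD7k_0_c (rjL dJ cD7k_0_q rD7k_1_62) 2952 = true := by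
  decide +kernel

theorem cD7k_0_k1_63 : allI cD7k_0_c (rjL dJ cD7k_0_q rD7k_1_63) 2976 = true := by
  decide +kernel

theorem cD7k_0_k1_64 : allI cD7k_0_c (rjL dJ cD7k_0_q rD7k_1_64) 3000 = true := by
  decide +kernel

theorem cD7k_0_k1_65 : allI cD7k_0_c (rjL dJ cD7k_0_q rD7k_1_65) 3024 = true := by
  decide +kernel

theorem cD7k_0_k1_66 : allI cD7k_0_c (rjL dJ cD7k_0_q rD7k_1_66) 3048 = true := by
  decide +kernel

theorem cD7k_0_k1_67 : allI cD7k_0_c (rjL dJ cD7k_0_q rD7k_1_67) 3072 = true := by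
  decide +kernel

theorem cD7k_0_k1_68 : allI cD7k_0_c (rjL dJ cD7k_0_q rD7k_1_68) 3096 = true := by
  decide +kernel

theorem cD7k_0_k1_69 : allI cD7k_0_c (rjL dJ cD7k_0_q rD7k_1_69) 3120 = true := by
  decide +kernel

theorem cD7k_0_k1_70 : allI cD7k_0_c (rjL dJ cD7k_0_q rD7k_1_70) 3144 = true := by
  decide +kernel

theorem cD7k_0_k1_71 : allI cD7k_0_c (rjL dJ cD7k_0_q rD7k_1_71) 3168 = true := by
  decide +kernel

theorem cD7k_0_k1_72 : allI cD7k_0_c (rjL dJ cD7k_0_q rD7k_1_72) 3192 = true := by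
  decide +kernel

/-- nodes -/
noncomputable def cD7k_0_n1 : List (QJ PN) :=
  rjL dJ cD7k_0_q rD7k_1_0 ++ (rjL dJ cD7k_0_q rD7k_1_1 ++ (rjL dJ cD7k_0_q rD7k_1_2 ++ (
    rjL dJ cD7k_0_q rD7k_1_3 ++ (rjL dJ cD7k_0_q rD7k_1_4 ++ (rjL dJ cD7k_0_q rD7k_1_5 ++ (
    rjL dJ cD7k_0_q rD7k_1_6 ++ (rjL dJ cD7k_0_q rD7k_1_7 ++ (rjL dJ cD7k_0_q rD7k_1_8 ++ (
    rjL dJ cD7k_0_q rD7k_1_9 ++ (rjL dJ cD7k_0_q rD7k_1_10 ++ (rjL dJ cD7k_0_q rD7k_1_11 ++ (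
    rjL dJ cD7k_0_q rD7k_1_12 ++ (rjL dJ cD7k_0_q rD7k_1_13 ++ (rjL dJ cD7k_0_q rD7k_1_14 ++ (
    rjL dJ cD7k_0_q rD7k_1_15 ++ (rjL dJ cD7k_0_q rD7k_1_16 ++ (rjL dJ cD7k_0_q rD7k_1_17 ++ (
    rjL dJ cD7k_0_q rD7k_1_18 ++ (rjL dJ cD7k_0_q rD7k_1_19 ++ (rjL dJ cD7k_0_q rD7k_1_20 ++ (
    rjL dJ cD7k_0_q rD7k_1_21 ++ (rjL dJ cD7k_0_q rD7k_1_22 ++ (rjL dJ cD7k_0_q rD7k_1_23 ++ (
    rjL dJ cD7k_0_q rD7k_1_24 ++ (rjL dJ cD7k_0_q rD7k_1_25 ++ (rjL dJ cD7k_0_q rD7k_1_26 ++ (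
    rjL dJ cD7k_0_q rD7k_1_27 ++ (rjL dJ cD7k_0_q rD7k_1_28 ++ (rjL dJ cD7k_0_q rD7k_1_29 ++ (
    rjL dJ cD7k_0_q rD7k_1_30 ++ (rjL dJ cD7k_0_q rD7k_1_31 ++ (rjL dJ cD7k_0_q rD7k_1_32 ++ (
    rjL dJ cD7k_0_q rD7k_1_33 ++ (rjL dJ cD7k_0_q rD7k_1_34 ++ (rjL dJ cD7k_0_q rD7k_1_35 ++ (
    rjL dJ cD7k_0_q rD7k_1_36 ++ (rjL dJ cD7k_0_q rD7k_1_37 ++ (rjL dJ cD7k_0_q rD7k_1_38 ++ (
    rjL dJ cD7k_0_q rD7k_1_39 ++ (rjL dJ cD7k_0_q rD7k_1_40 ++ (rjL dJ cD7k_0_q rD7k_1_41 ++ (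
    rjL dJ cD7k_0_q rD7k_1_42 ++ (rjL dJ cD7k_0_q rD7k_1_43 ++ (rjL dJ cD7k_0_q rD7k_1_44 ++ (
    rjL dJ cD7k_0_q rD7k_1_45 ++ (rjL dJ cD7k_0_q rD7k_1_46 ++ (rjL dJ cD7k_0_q rD7k_1_47 ++ (
    rjL dJ cD7k_0_q rD7k_1_48 ++ (rjL dJ cD7k_0_q rD7k_1_49 ++ (rjL dJ cD7k_0_q rD7k_1_50 ++ (
    rjL dJ cD7k_0_q rD7k_1_51 ++ (rjL dJ cD7k_0_q rD7k_1_52 ++ (rjL dJ cD7k_0_q rD7k_1_53 ++ (
    rjL dJ cD7k_0_q rD7k_1_54 ++ (rjL dJ cD7k_0_q rD7k_1_55 ++ (rjL dJ cD7k_0_q rD7k_1_56 ++ (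
    rjL dJ cD7k_0_q rD7k_1_57 ++ (rjL dJ cD7k_0_q rD7k_1_58 ++ (rjL dJ cD7k_0_q rD7k_1_59 ++ (
    rjL dJ cD7k_0_q rD7k_1_60 ++ (rjL dJ cD7k_0_q rD7k_1_61 ++ (rjL dJ cD7k_0_q rD7k_1_62 ++ (
    rjL dJ cD7k_0_q rD7k_1_63 ++ (rjL dJ cD7k_0_q rD7k_1_64 ++ (rjL dJ cD7k_0_q rD7k_1_65 ++ (
    rjL dJ cD7k_0_q rD7k_1_66 ++ (rjL dJ cD7k_0_q rD7k_1_67 ++ (rjL dJ cD7k_0_q rD7k_1_68 ++ (
    rjL dJ cD7k_0_q rD7k_1_69 ++ (rjL dJ cD7k_0_q rD7k_1_70 ++ (rjL dJ cD7k_0_q rD7k_1_71 ++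
    rjL dJ cD7k_0_q rD7k_1_72)))))))))))))))))))))))))))))))))))))))))))))))))))))))))))))))))))))))

theorem cD7k_0_k1 : allI cD7k_0_c cD7k_0_n1 1464 = true := by
  refine allI_appQ (k := 24) cD7k_0_k1_0 (by decide +kernel) ?_
  refine allI_appQ (k := 24) cD7k_0_k1_1 (by decide +kernel) ?_
  refine allI_appQ (k := 24) cD7k_0_k1_2 (by decide +kernel) ?_
  refine allI_appQ (k := 24) cD7k_0_k1_3 (by decide +kernel) ?_
  refine allI_appQ (k := 24) cD7k_0_k1_4 (by decide +kernel) ?_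
  refine allI_appQ (k := 24) cD7k_0_k1_5 (by decide +kernel) ?_
  refine allI_appQ (k := 24) cD7k_0_k1_6 (by decide +kernel) ?_
  refine allI_appQ (k := 24) cD7k_0_k1_7 (by decide +kernel) ?_
  refine allI_appQ (k := 24) cD7k_0_k1_8 (by decide +kernel) ?_
  refine allI_appQ (k := 24) cD7k_0_k1_9 (by decide +kernel) ?_
  refine allI_appQ (k := 24) cD7k_0_k1_10 (by decide +kernel) ?_
  refine allI_appQ (k := 24) cD7k_0_k1_11 (by decide +kernel) ?_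
  refine allI_appQ (k := 24) cD7k_0_k1_12 (by decide +kernel) ?_
  refine allI_appQ (k := 24) cD7k_0_k1_13 (by decide +kernel) ?_
  refine allI_appQ (k := 24) cD7k_0_k1_14 (by decide +kernel) ?_
  refine allI_appQ (k := 24) cD7k_0_k1_15 (by decide +kernel) ?_
  refine allI_appQ (k := 24) cD7k_0_k1_16 (by decide +kernel) ?_
  refine allI_appQ (k := 24) cD7k_0_k1_17 (by decide +kernel) ?_
  refine allI_appQ (k := 24) cD7k_0_k1_18 (by decide +kernel) ?_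
  refine allI_appQ (k := 24) cD7k_0_k1_19 (by decide +kernel) ?_
  refine allI_appQ (k := 24) cD7k_0_k1_20 (by decide +kernel) ?_
  refine allI_appQ (k := 24) cD7k_0_k1_21 (by decide +kernel) ?_
  refine allI_appQ (k := 24) cD7k_0_k1_22 (by decide +kernel) ?_
  refine allI_appQ (k := 24) cD7k_0_k1_23 (by decide +kernel) ?_
  refine allI_appQ (k := 24) cD7k_0_k1_24 (by decide +kernel) ?_
  refine allI_appQ (k := 24) cD7k_0_k1_25 (by decide +kernel) ?_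
  refine allI_appQ (k := 24) cD7k_0_k1_26 (by decide +kernel) ?_
  refine allI_appQ (k := 24) cD7k_0_k1_27 (by decide +kernel) ?_
  refine allI_appQ (k := 24) cD7k_0_k1_28 (by decide +kernel) ?_
  refine allI_appQ (k := 24) cD7k_0_k1_29 (by decide +kernel) ?_
  refine allI_appQ (k := 24) cD7k_0_k1_30 (by decide +kernel) ?_
  refine allI_appQ (k := 24) cD7k_0_k1_31 (by decide +kernel) ?_
  refine allI_appQ (k := 24) cD7k_0_k1_32 (by decide +kernel) ?_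
  refine allI_appQ (k := 24) cD7k_0_k1_33 (by decide +kernel) ?_
  refine allI_appQ (k := 24) cD7k_0_k1_34 (by decide +kernel) ?_
  refine allI_appQ (k := 24) cD7k_0_k1_35 (by decide +kernel) ?_
  refine allI_appQ (k := 24) cD7k_0_k1_36 (by decide +kernel) ?_
  refine allI_appQ (k := 24) cD7k_0_k1_37 (by decide +kernel) ?_
  refine allI_appQ (k := 24) cD7k_0_k1_38 (by decide +kernel) ?_
  refine allI_appQ (k := 24) cD7k_0_k1_39 (by decide +kernel) ?_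
  refine allI_appQ (k := 24) cD7k_0_k1_40 (by decide +kernel) ?_
  refine allI_appQ (k := 24) cD7k_0_k1_41 (by decide +kernel) ?_
  refine allI_appQ (k := 24) cD7k_0_k1_42 (by decide +kernel) ?_
  refine allI_appQ (k := 24) cD7k_0_k1_43 (by decide +kernel) ?_
  refine allI_appQ (k := 24) cD7k_0_k1_44 (by decide +kernel) ?_
  refine allI_appQ (k := 24) cD7k_0_k1_45 (by decide +kernel) ?_
  refine allI_appQ (k := 24) cD7k_0_k1_46 (by decide +kernel) ?_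
  refine allI_appQ (k := 24) cD7k_0_k1_47 (by decide +kernel) ?_
  refine allI_appQ (k := 24) cD7k_0_k1_48 (by decide +kernel) ?_
  refine allI_appQ (k := 24) cD7k_0_k1_49 (by decide +kernel) ?_
  refine allI_appQ (k := 24) cD7k_0_k1_50 (by decide +kernel) ?_
  refine allI_appQ (k := 24) cD7k_0_k1_51 (by decide +kernel) ?_
  refine allI_appQ (k := 24) cD7k_0_k1_52 (by decide +kernel) ?_
  refine allI_appQ (k := 24) cD7k_0_k1_53 (by decide +kernel) ?_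
  refine allI_appQ (k := 24) cD7k_0_k1_54 (by decide +kernel) ?_
  refine allI_appQ (k := 24) cD7k_0_k1_55 (by decide +kernel) ?_
  refine allI_appQ (k := 24) cD7k_0_k1_56 (by decide +kernel) ?_
  refine allI_appQ (k := 24) cD7k_0_k1_57 (by decide +kernel) ?_
  refine allI_appQ (k := 24) cD7k_0_k1_58 (by decide +kernel) ?_
  refine allI_appQ (k := 24) cD7k_0_k1_59 (by decide +kernel) ?_
  refine allI_appQ (k := 24) cD7k_0_k1_60 (by decide +kernel) ?_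
  refine allI_appQ (k := 24) cD7k_0_k1_61 (by decide +kernel) ?_
  refine allI_appQ (k := 24) cD7k_0_k1_62 (by decide +kernel) ?_
  refine allI_appQ (k := 24) cD7k_0_k1_63 (by decide +kernel) ?_
  refine allI_appQ (k := 24) cD7k_0_k1_64 (by decide +kernel) ?_
  refine allI_appQ (k := 24) cD7k_0_k1_65 (by decide +kernel) ?_
  refine allI_appQ (k := 24) cD7k_0_k1_66 (by decide +kernel) ?_
  refine allI_appQ (k := 24) cD7k_0_k1_67 (by decide +kernel) ?_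
  refine allI_appQ (k := 24) cD7k_0_k1_68 (by decide +kernel) ?_
  refine allI_appQ (k := 24) cD7k_0_k1_69 (by decide +kernel) ?_
  refine allI_appQ (k := 24) cD7k_0_k1_70 (by decide +kernel) ?_
  refine allI_appQ (k := 24) cD7k_0_k1_71 (by decide +kernel) ?_
  exact cD7k_0_k1_72

theorem cD7k_0_l1 : cD7k_0_n1.length = 1738 := by
  decide +kernel

end Pool.Agent.Lib_MP_fa6e45
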