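import Pool.Agent.Lib_MP_fa6e45.DQ7k_0d
import Pool.Agent.Lib_MP_fa6e45.RD7k_10

/-!
MP_fa6e45_co, stage 9: straight-side patterns with `7` sides, part of a certificate (generated by a program).
-/

namespace Pool.Agent.Lib_MP_fa6e45

theorem cD7k_0_k10_0 : allI cD7k_0_c (rjL dJ cD7k_0_q rD7k_10_0) 6227 = true := by
  decide +kernel

theorem cD7k_0_k10_1 : allI cD7k_0_c (rjL dJ cD7k_0_q rD7k_10_1) 6229 = true := by
  decide +kernel

theorem cD7k_0_k10_2 : allI cD7k_0_c (rjL dJ cD7k_0_q rD7k_10_2) 6231 = true := by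
  decide +kernel

theorem cD7k_0_k10_3 : allI cD7k_0_c (rjL dJ cD7k_0_q rD7k_10_3) 6234 = true := by
  decide +kernel

theorem cD7k_0_k10_4 : allI cD7k_0_c (rjL dJ cD7k_0_q rD7k_10_4) 6236 = true := by
  decide +kernel

theorem cD7k_0_k10_5 : allI cD7k_0_c (rjL dJ cD7k_0_q rD7k_10_5) 6237 = true := by
  decide +kernel

theorem cD7k_0_k10_6 : allI cD7k_0_c (rjL dJ cD7k_0_q rD7k_10_6) 6238 = true := by
  decide +kernel

theorem cD7k_0_k10_7 : allI cD7k_0_c (rjL dJ cD7k_0_q rD7k_10_7) 6240 = true := by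
  decide +kernel

theorem cD7k_0_k10_8 : allI cD7k_0_c (rjL dJ cD7k_0_q rD7k_10_8) 6242 = true := by
  decide +kernel

theorem cD7k_0_k10_9 : allI cD7k_0_c (rjL dJ cD7k_0_q rD7k_10_9) 6244 = true := by
  decide +kernel

theorem cD7k_0_k10_10 : allI cD7k_0_c (rjL dJ cD7k_0_q rD7k_10_10) 6247 = true := by
  decide +kernel

theorem cD7k_0_k10_11 : allI cD7k_0_c (rjL dJ cD7k_0_q rD7k_10_11) 6248 = true := by
  decide +kernel

theorem cD7k_0_k10_12 : allI cD7k_0_c (rjL dJ cD7k_0_q rD7k_10_12) 6250 = true := by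
  decide +kernel

theorem cD7k_0_k10_13 : allI cD7k_0_c (rjL dJ cD7k_0_q rD7k_10_13) 6252 = true := by
  decide +kernel

theorem cD7k_0_k10_14 : allI cD7k_0_c (rjL dJ cD7k_0_q rD7k_10_14) 6254 = true := by
  decide +kernel

theorem cD7k_0_k10_15 : allI cD7k_0_c (rjL dJ cD7k_0_q rD7k_10_15) 6256 = true := by
  decide +kernel

theorem cD7k_0_k10_16 : allI cD7k_0_c (rjL dJ cD7k_0_q rD7k_10_16) 6258 = true := by
  decide +kernel

theorem cD7k_0_k10_17 : allI cD7k_0_c (rjL dJ cD7k_0_q rD7k_10_17) 6261 = true := by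
  decide +kernel

theorem cD7k_0_k10_18 : allI cD7k_0_c (rjL dJ cD7k_0_q rD7k_10_18) 6264 = true := by
  decide +kernel

theorem cD7k_0_k10_19 : allI cD7k_0_c (rjL dJ cD7k_0_q rD7k_10_19) 6266 = true := by
  decide +kernel

theorem cD7k_0_k10_20 : allI cD7k_0_c (rjL dJ cD7k_0_q rD7k_10_20) 6269 = true := by
  decide +kernel

theorem cD7k_0_k10_21 : allI cD7k_0_c (rjL dJ cD7k_0_q rD7k_10_21) 6271 = true := by
  decide +kernel

theorem cD7k_0_k10_22 : allI cD7k_0_c (rjL dJ cD7k_0_q rD7k_10_22) 6273 = true := by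
  decide +kernel

theorem cD7k_0_k10_23 : allI cD7k_0_c (rjL dJ cD7k_0_q rD7k_10_23) 6275 = true := by
  decide +kernel

theorem cD7k_0_k10_24 : allI cD7k_0_c (rjL dJ cD7k_0_q rD7k_10_24) 6277 = true := by
  decide +kernel

theorem cD7k_0_k10_25 : allI cD7k_0_c (rjL dJ cD7k_0_q rD7k_10_25) 6279 = true := by
  decide +kernel

theorem cD7k_0_k10_26 : allI cD7k_0_c (rjL dJ cD7k_0_q rD7k_10_26) 6280 = true := by
  decide +kernel

theorem cD7k_0_k10_27 : allI cD7k_0_c (rjL dJ cD7k_0_q rD7k_10_27) 6283 = true := by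
  decide +kernel

theorem cD7k_0_k10_28 : allI cD7k_0_c (rjL dJ cD7k_0_q rD7k_10_28) 6285 = true := by
  decide +kernel

theorem cD7k_0_k10_29 : allI cD7k_0_c (rjL dJ cD7k_0_q rD7k_10_29) 6287 = true := by
  decide +kernel

theorem cD7k_0_k10_30 : allI cD7k_0_c (rjL dJ cD7k_0_q rD7k_10_30) 6290 = true := by
  decide +kernel

theorem cD7k_0_k10_31 : allI cD7k_0_c (rjL dJ cD7k_0_q rD7k_10_31) 6293 = true := by
  decide +kernel

theorem cD7k_0_k10_32 : allI cD7k_0_c (rjL dJ cD7k_0_q rD7k_10_32) 6295 = true := by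
  decide +kernel

theorem cD7k_0_k10_33 : allI cD7k_0_c (rjL dJ cD7k_0_q rD7k_10_33) 6297 = true := by
  decide +kernel

theorem cD7k_0_k10_34 : allI cD7k_0_c (rjL dJ cD7k_0_q rD7k_10_34) 6298 = true := by
  decide +kernel

theorem cD7k_0_k10_35 : allI cD7k_0_c (rjL dJ cD7k_0_q rD7k_10_35) 6299 = true := by
  decide +kernel

theorem cD7k_0_k10_36 : allI cD7k_0_c (rjL dJ cD7k_0_q rD7k_10_36) 6301 = true := by
  decide +kernel

theorem cD7k_0_k10_37 : allI cD7k_0_c (rjL dJ cD7k_0_q rD7k_10_37) 6303 = true := by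
  decide +kernel

theorem cD7k_0_k10_38 : allI cD7k_0_c (rjL dJ cD7k_0_q rD7k_10_38) 6305 = true := by
  decide +kernel

theorem cD7k_0_k10_39 : allI cD7k_0_c (rjL dJ cD7k_0_q rD7k_10_39) 6308 = true := by
  decide +kernel

theorem cD7k_0_k10_40 : allI cD7k_0_c (rjL dJ cD7k_0_q rD7k_10_40) 6310 = true := by
  decide +kernel

/-- nodes -/
noncomputable def cD7k_0_n10 : List (QJ PN) :=
  rjL dJ cD7k_0_q rD7k_10_0 ++ (rjL dJ cD7k_0_q rD7k_10_1 ++ (rjL dJ cD7k_0_q rD7k_10_2 ++ (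
    rjL dJ cD7k_0_q rD7k_10_3 ++ (rjL dJ cD7k_0_q rD7k_10_4 ++ (rjL dJ cD7k_0_q rD7k_10_5 ++ (
    rjL dJ cD7k_0_q rD7k_10_6 ++ (rjL dJ cD7k_0_q rD7k_10_7 ++ (rjL dJ cD7k_0_q rD7k_10_8 ++ (
    rjL dJ cD7k_0_q rD7k_10_9 ++ (rjL dJ cD7k_0_q rD7k_10_10 ++ (rjL dJ cD7k_0_q rD7k_10_11 ++ (
    rjL dJ cD7k_0_q rD7k_10_12 ++ (rjL dJ cD7k_0_q rD7k_10_13 ++ (rjL dJ cD7k_0_q rD7k_10_14 ++ (
    rjL dJ cD7k_0_q rD7k_10_15 ++ (rjL dJ cD7k_0_q rD7k_10_16 ++ (rjL dJ cD7k_0_q rD7k_10_17 ++ (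
    rjL dJ cD7k_0_q rD7k_10_18 ++ (rjL dJ cD7k_0_q rD7k_10_19 ++ (rjL dJ cD7k_0_q rD7k_10_20 ++ (
    rjL dJ cD7k_0_q rD7k_10_21 ++ (rjL dJ cD7k_0_q rD7k_10_22 ++ (rjL dJ cD7k_0_q rD7k_10_23 ++ (
    rjL dJ cD7k_0_q rD7k_10_24 ++ (rjL dJ cD7k_0_q rD7k_10_25 ++ (rjL dJ cD7k_0_q rD7k_10_26 ++ (
    rjL dJ cD7k_0_q rD7k_10_27 ++ (rjL dJ cD7k_0_q rD7k_10_28 ++ (rjL dJ cD7k_0_q rD7k_10_29 ++ (
    rjL dJ cD7k_0_q rD7k_10_30 ++ (rjL dJ cD7k_0_q rD7k_10_31 ++ (rjL dJ cD7k_0_q rD7k_10_32 ++ (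
    rjL dJ cD7k_0_q rD7k_10_33 ++ (rjL dJ cD7k_0_q rD7k_10_34 ++ (rjL dJ cD7k_0_q rD7k_10_35 ++ (
    rjL dJ cD7k_0_q rD7k_10_36 ++ (rjL dJ cD7k_0_q rD7k_10_37 ++ (rjL dJ cD7k_0_q rD7k_10_38 ++ (
    rjL dJ cD7k_0_q rD7k_10_39 ++ rjL dJ cD7k_0_q rD7k_10_40)))))))))))))))))))))))))))))))))))))))

theorem cD7k_0_k10 : allI cD7k_0_c cD7k_0_n10 6227 = true := by
  refine allI_appQ (k := 2) cD7k_0_k10_0 (by decide +kernel) ?_
  refine allI_appQ (k := 2) cD7k_0_k10_1 (by decide +kernel) ?_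
  refine allI_appQ (k := 3) cD7k_0_k10_2 (by decide +kernel) ?_
  refine allI_appQ (k := 2) cD7k_0_k10_3 (by decide +kernel) ?_
  refine allI_appQ (k := 1) cD7k_0_k10_4 (by decide +kernel) ?_
  refine allI_appQ (k := 1) cD7k_0_k10_5 (by decide +kernel) ?_
  refine allI_appQ (k := 2) cD7k_0_k10_6 (by decide +kernel) ?_
  refine allI_appQ (k := 2) cD7k_0_k10_7 (by decide +kernel) ?_
  refine allI_appQ (k := 2) cD7k_0_k10_8 (by decide +kernel) ?_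
  refine allI_appQ (k := 3) cD7k_0_k10_9 (by decide +kernel) ?_
  refine allI_appQ (k := 1) cD7k_0_k10_10 (by decide +kernel) ?_
  refine allI_appQ (k := 2) cD7k_0_k10_11 (by decide +kernel) ?_
  refine allI_appQ (k := 2) cD7k_0_k10_12 (by decide +kernel) ?_
  refine allI_appQ (k := 2) cD7k_0_k10_13 (by decide +kernel) ?_
  refine allI_appQ (k := 2) cD7k_0_k10_14 (by decide +kernel) ?_
  refine allI_appQ (k := 2) cD7k_0_k10_15 (by decide +kernel) ?_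
  refine allI_appQ (k := 3) cD7k_0_k10_16 (by decide +kernel) ?_
  refine allI_appQ (k := 3) cD7k_0_k10_17 (by decide +kernel) ?_
  refine allI_appQ (k := 2) cD7k_0_k10_18 (by decide +kernel) ?_
  refine allI_appQ (k := 3) cD7k_0_k10_19 (by decide +kernel) ?_
  refine allI_appQ (k := 2) cD7k_0_k10_20 (by decide +kernel) ?_
  refine allI_appQ (k := 2) cD7k_0_k10_21 (by decide +kernel) ?_
  refine allI_appQ (k := 2) cD7k_0_k10_22 (by decide +kernel) ?_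
  refine allI_appQ (k := 2) cD7k_0_k10_23 (by decide +kernel) ?_
  refine allI_appQ (k := 2) cD7k_0_k10_24 (by decide +kernel) ?_
  refine allI_appQ (k := 1) cD7k_0_k10_25 (by decide +kernel) ?_
  refine allI_appQ (k := 3) cD7k_0_k10_26 (by decide +kernel) ?_
  refine allI_appQ (k := 2) cD7k_0_k10_27 (by decide +kernel) ?_
  refine allI_appQ (k := 2) cD7k_0_k10_28 (by decide +kernel) ?_
  refine allI_appQ (k := 3) cD7k_0_k10_29 (by decide +kernel) ?_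
  refine allI_appQ (k := 3) cD7k_0_k10_30 (by decide +kernel) ?_
  refine allI_appQ (k := 2) cD7k_0_k10_31 (by decide +kernel) ?_
  refine allI_appQ (k := 2) cD7k_0_k10_32 (by decide +kernel) ?_
  refine allI_appQ (k := 1) cD7k_0_k10_33 (by decide +kernel) ?_
  refine allI_appQ (k := 1) cD7k_0_k10_34 (by decide +kernel) ?_
  refine allI_appQ (k := 2) cD7k_0_k10_35 (by decide +kernel) ?_
  refine allI_appQ (k := 2) cD7k_0_k10_36 (by decide +kernel) ?_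
  refine allI_appQ (k := 2) cD7k_0_k10_37 (by decide +kernel) ?_
  refine allI_appQ (k := 3) cD7k_0_k10_38 (by decide +kernel) ?_
  refine allI_appQ (k := 2) cD7k_0_k10_39 (by decide +kernel) ?_
  exact cD7k_0_k10_40

theorem cD7k_0_l10 : cD7k_0_n10.length = 85 := by
  decide +kernel

end Pool.Agent.Lib_MP_fa6e45
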