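import Pool.Agent.Lib_MP_fa6e45.DQ7k_0d
import Pool.Agent.Lib_MP_fa6e45.RD7k_11

/-!
MP_fa6e45_co, stage 9: straight-side patterns with `7` sides, part of a certificate (generated by a program).
-/

namespace Pool.Agent.Lib_MP_fa6e45

theorem cD7k_0_k11_0 : allI cD7k_0_c (rjL dJ cD7k_0_q rD7k_11_0) 6312 = true := by
  decide +kernel

theorem cD7k_0_k11_1 : allI cD7k_0_c (rjL dJ cD7k_0_q rD7k_11_1) 6315 = true := by
  decide +kernel

theorem cD7k_0_k11_2 : allI cD7k_0_c (rjL dJ cD7k_0_q rD7k_11_2) 6317 = true := by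
  decide +kernel

theorem cD7k_0_k11_3 : allI cD7k_0_c (rjL dJ cD7k_0_q rD7k_11_3) 6319 = true := by
  decide +kernel

theorem cD7k_0_k11_4 : allI cD7k_0_c (rjL dJ cD7k_0_q rD7k_11_4) 6321 = true := by
  decide +kernel

theorem cD7k_0_k11_5 : allI cD7k_0_c (rjL dJ cD7k_0_q rD7k_11_5) 6323 = true := by
  decide +kernel

theorem cD7k_0_k11_6 : allI cD7k_0_c (rjL dJ cD7k_0_q rD7k_11_6) 6324 = true := by
  decide +kernel

theorem cD7k_0_k11_7 : allI cD7k_0_c (rjL dJ cD7k_0_q rD7k_11_7) 6325 = true := by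
  decide +kernel

theorem cD7k_0_k11_8 : allI cD7k_0_c (rjL dJ cD7k_0_q rD7k_11_8) 6326 = true := by
  decide +kernel

theorem cD7k_0_k11_9 : allI cD7k_0_c (rjL dJ cD7k_0_q rD7k_11_9) 6328 = true := by
  decide +kernel

theorem cD7k_0_k11_10 : allI cD7k_0_c (rjL dJ cD7k_0_q rD7k_11_10) 6330 = true := by
  decide +kernel

theorem cD7k_0_k11_11 : allI cD7k_0_c (rjL dJ cD7k_0_q rD7k_11_11) 6332 = true := by
  decide +kernel

theorem cD7k_0_k11_12 : allI cD7k_0_c (rjL dJ cD7k_0_q rD7k_11_12) 6334 = true := by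
  decide +kernel

theorem cD7k_0_k11_13 : allI cD7k_0_c (rjL dJ cD7k_0_q rD7k_11_13) 6337 = true := by
  decide +kernel

theorem cD7k_0_k11_14 : allI cD7k_0_c (rjL dJ cD7k_0_q rD7k_11_14) 6338 = true := by
  decide +kernel

theorem cD7k_0_k11_15 : allI cD7k_0_c (rjL dJ cD7k_0_q rD7k_11_15) 6339 = true := by
  decide +kernel

theorem cD7k_0_k11_16 : allI cD7k_0_c (rjL dJ cD7k_0_q rD7k_11_16) 6340 = true := by
  decide +kernel

theorem cD7k_0_k11_17 : allI cD7k_0_c (rjL dJ cD7k_0_q rD7k_11_17) 6342 = true := by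
  decide +kernel

theorem cD7k_0_k11_18 : allI cD7k_0_c (rjL dJ cD7k_0_q rD7k_11_18) 6344 = true := by
  decide +kernel

theorem cD7k_0_k11_19 : allI cD7k_0_c (rjL dJ cD7k_0_q rD7k_11_19) 6347 = true := by
  decide +kernel

theorem cD7k_0_k11_20 : allI cD7k_0_c (rjL dJ cD7k_0_q rD7k_11_20) 6349 = true := by
  decide +kernel

theorem cD7k_0_k11_21 : allI cD7k_0_c (rjL dJ cD7k_0_q rD7k_11_21) 6351 = true := by
  decide +kernel

theorem cD7k_0_k11_22 : allI cD7k_0_c (rjL dJ cD7k_0_q rD7k_11_22) 6352 = true := by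
  decide +kernel

theorem cD7k_0_k11_23 : allI cD7k_0_c (rjL dJ cD7k_0_q rD7k_11_23) 6354 = true := by
  decide +kernel

theorem cD7k_0_k11_24 : allI cD7k_0_c (rjL dJ cD7k_0_q rD7k_11_24) 6356 = true := by
  decide +kernel

theorem cD7k_0_k11_25 : allI cD7k_0_c (rjL dJ cD7k_0_q rD7k_11_25) 6357 = true := by
  decide +kernel

theorem cD7k_0_k11_26 : allI cD7k_0_c (rjL dJ cD7k_0_q rD7k_11_26) 6358 = true := by
  decide +kernel

theorem cD7k_0_k11_27 : allI cD7k_0_c (rjL dJ cD7k_0_q rD7k_11_27) 6361 = true := by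
  decide +kernel

theorem cD7k_0_k11_28 : allI cD7k_0_c (rjL dJ cD7k_0_q rD7k_11_28) 6363 = true := by
  decide +kernel

theorem cD7k_0_k11_29 : allI cD7k_0_c (rjL dJ cD7k_0_q rD7k_11_29) 6365 = true := by
  decide +kernel

theorem cD7k_0_k11_30 : allI cD7k_0_c (rjL dJ cD7k_0_q rD7k_11_30) 6367 = true := by
  decide +kernel

theorem cD7k_0_k11_31 : allI cD7k_0_c (rjL dJ cD7k_0_q rD7k_11_31) 6369 = true := by
  decide +kernel

theorem cD7k_0_k11_32 : allI cD7k_0_c (rjL dJ cD7k_0_q rD7k_11_32) 6371 = true := by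
  decide +kernel

theorem cD7k_0_k11_33 : allI cD7k_0_c (rjL dJ cD7k_0_q rD7k_11_33) 6373 = true := by
  decide +kernel

theorem cD7k_0_k11_34 : allI cD7k_0_c (rjL dJ cD7k_0_q rD7k_11_34) 6375 = true := by
  decide +kernel

theorem cD7k_0_k11_35 : allI cD7k_0_c (rjL dJ cD7k_0_q rD7k_11_35) 6377 = true := by
  decide +kernel

theorem cD7k_0_k11_36 : allI cD7k_0_c (rjL dJ cD7k_0_q rD7k_11_36) 6379 = true := by
  decide +kernel

theorem cD7k_0_k11_37 : allI cD7k_0_c (rjL dJ cD7k_0_q rD7k_11_37) 6382 = true := by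
  decide +kernel

theorem cD7k_0_k11_38 : allI cD7k_0_c (rjL dJ cD7k_0_q rD7k_11_38) 6385 = true := by
  decide +kernel

theorem cD7k_0_k11_39 : allI cD7k_0_c (rjL dJ cD7k_0_q rD7k_11_39) 6386 = true := by
  decide +kernel

theorem cD7k_0_k11_40 : allI cD7k_0_c (rjL dJ cD7k_0_q rD7k_11_40) 6387 = true := by
  decide +kernel

theorem cD7k_0_k11_41 : allI cD7k_0_c (rjL dJ cD7k_0_q rD7k_11_41) 6389 = true := by
  decide +kernel

theorem cD7k_0_k11_42 : allI cD7k_0_c (rjL dJ cD7k_0_q rD7k_11_42) 6392 = true := by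
  decide +kernel

theorem cD7k_0_k11_43 : allI cD7k_0_c (rjL dJ cD7k_0_q rD7k_11_43) 6394 = true := by
  decide +kernel

theorem cD7k_0_k11_44 : allI cD7k_0_c (rjL dJ cD7k_0_q rD7k_11_44) 6396 = true := by
  decide +kernel

theorem cD7k_0_k11_45 : allI cD7k_0_c (rjL dJ cD7k_0_q rD7k_11_45) 6398 = true := by
  decide +kernel

/-- nodes -/
noncomputable def cD7k_0_n11 : List (QJ PN) :=
  rjL dJ cD7k_0_q rD7k_11_0 ++ (rjL dJ cD7k_0_q rD7k_11_1 ++ (rjL dJ cD7k_0_q rD7k_11_2 ++ (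
    rjL dJ cD7k_0_q rD7k_11_3 ++ (rjL dJ cD7k_0_q rD7k_11_4 ++ (rjL dJ cD7k_0_q rD7k_11_5 ++ (
    rjL dJ cD7k_0_q rD7k_11_6 ++ (rjL dJ cD7k_0_q rD7k_11_7 ++ (rjL dJ cD7k_0_q rD7k_11_8 ++ (
    rjL dJ cD7k_0_q rD7k_11_9 ++ (rjL dJ cD7k_0_q rD7k_11_10 ++ (rjL dJ cD7k_0_q rD7k_11_11 ++ (
    rjL dJ cD7k_0_q rD7k_11_12 ++ (rjL dJ cD7k_0_q rD7k_11_13 ++ (rjL dJ cD7k_0_q rD7k_11_14 ++ (
    rjL dJ cD7k_0_q rD7k_11_15 ++ (rjL dJ cD7k_0_q rD7k_11_16 ++ (rjL dJ cD7k_0_q rD7k_11_17 ++ (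
    rjL dJ cD7k_0_q rD7k_11_18 ++ (rjL dJ cD7k_0_q rD7k_11_19 ++ (rjL dJ cD7k_0_q rD7k_11_20 ++ (
    rjL dJ cD7k_0_q rD7k_11_21 ++ (rjL dJ cD7k_0_q rD7k_11_22 ++ (rjL dJ cD7k_0_q rD7k_11_23 ++ (
    rjL dJ cD7k_0_q rD7k_11_24 ++ (rjL dJ cD7k_0_q rD7k_11_25 ++ (rjL dJ cD7k_0_q rD7k_11_26 ++ (
    rjL dJ cD7k_0_q rD7k_11_27 ++ (rjL dJ cD7k_0_q rD7k_11_28 ++ (rjL dJ cD7k_0_q rD7k_11_29 ++ (
    rjL dJ cD7k_0_q rD7k_11_30 ++ (rjL dJ cD7k_0_q rD7k_11_31 ++ (rjL dJ cD7k_0_q rD7k_11_32 ++ (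
    rjL dJ cD7k_0_q rD7k_11_33 ++ (rjL dJ cD7k_0_q rD7k_11_34 ++ (rjL dJ cD7k_0_q rD7k_11_35 ++ (
    rjL dJ cD7k_0_q rD7k_11_36 ++ (rjL dJ cD7k_0_q rD7k_11_37 ++ (rjL dJ cD7k_0_q rD7k_11_38 ++ (
    rjL dJ cD7k_0_q rD7k_11_39 ++ (rjL dJ cD7k_0_q rD7k_11_40 ++ (rjL dJ cD7k_0_q rD7k_11_41 ++ (
    rjL dJ cD7k_0_q rD7k_11_42 ++ (rjL dJ cD7k_0_q rD7k_11_43 ++ (rjL dJ cD7k_0_q rD7k_11_44 ++
    rjL dJ cD7k_0_q rD7k_11_45))))))))))))))))))))))))))))))))))))))))))))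

theorem cD7k_0_k11 : allI cD7k_0_c cD7k_0_n11 6312 = true := by
  refine allI_appQ (k := 3) cD7k_0_k11_0 (by decide +kernel) ?_
  refine allI_appQ (k := 2) cD7k_0_k11_1 (by decide +kernel) ?_
  refine allI_appQ (k := 2) cD7k_0_k11_2 (by decide +kernel) ?_
  refine allI_appQ (k := 2) cD7k_0_k11_3 (by decide +kernel) ?_
  refine allI_appQ (k := 2) cD7k_0_k11_4 (by decide +kernel) ?_
  refine allI_appQ (k := 1) cD7k_0_k11_5 (by decide +kernel) ?_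
  refine allI_appQ (k := 1) cD7k_0_k11_6 (by decide +kernel) ?_
  refine allI_appQ (k := 1) cD7k_0_k11_7 (by decide +kernel) ?_
  refine allI_appQ (k := 2) cD7k_0_k11_8 (by decide +kernel) ?_
  refine allI_appQ (k := 2) cD7k_0_k11_9 (by decide +kernel) ?_
  refine allI_appQ (k := 2) cD7k_0_k11_10 (by decide +kernel) ?_
  refine allI_appQ (k := 2) cD7k_0_k11_11 (by decide +kernel) ?_
  refine allI_appQ (k := 3) cD7k_0_k11_12 (by decide +kernel) ?_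
  refine allI_appQ (k := 1) cD7k_0_k11_13 (by decide +kernel) ?_
  refine allI_appQ (k := 1) cD7k_0_k11_14 (by decide +kernel) ?_
  refine allI_appQ (k := 1) cD7k_0_k11_15 (by decide +kernel) ?_
  refine allI_appQ (k := 2) cD7k_0_k11_16 (by decide +kernel) ?_
  refine allI_appQ (k := 2) cD7k_0_k11_17 (by decide +kernel) ?_
  refine allI_appQ (k := 3) cD7k_0_k11_18 (by decide +kernel) ?_
  refine allI_appQ (k := 2) cD7k_0_k11_19 (by decide +kernel) ?_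
  refine allI_appQ (k := 2) cD7k_0_k11_20 (by decide +kernel) ?_
  refine allI_appQ (k := 1) cD7k_0_k11_21 (by decide +kernel) ?_
  refine allI_appQ (k := 2) cD7k_0_k11_22 (by decide +kernel) ?_
  refine allI_appQ (k := 2) cD7k_0_k11_23 (by decide +kernel) ?_
  refine allI_appQ (k := 1) cD7k_0_k11_24 (by decide +kernel) ?_
  refine allI_appQ (k := 1) cD7k_0_k11_25 (by decide +kernel) ?_
  refine allI_appQ (k := 3) cD7k_0_k11_26 (by decide +kernel) ?_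
  refine allI_appQ (k := 2) cD7k_0_k11_27 (by decide +kernel) ?_
  refine allI_appQ (k := 2) cD7k_0_k11_28 (by decide +kernel) ?_
  refine allI_appQ (k := 2) cD7k_0_k11_29 (by decide +kernel) ?_
  refine allI_appQ (k := 2) cD7k_0_k11_30 (by decide +kernel) ?_
  refine allI_appQ (k := 2) cD7k_0_k11_31 (by decide +kernel) ?_
  refine allI_appQ (k := 2) cD7k_0_k11_32 (by decide +kernel) ?_
  refine allI_appQ (k := 2) cD7k_0_k11_33 (by decide +kernel) ?_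
  refine allI_appQ (k := 2) cD7k_0_k11_34 (by decide +kernel) ?_
  refine allI_appQ (k := 2) cD7k_0_k11_35 (by decide +kernel) ?_
  refine allI_appQ (k := 3) cD7k_0_k11_36 (by decide +kernel) ?_
  refine allI_appQ (k := 3) cD7k_0_k11_37 (by decide +kernel) ?_
  refine allI_appQ (k := 1) cD7k_0_k11_38 (by decide +kernel) ?_
  refine allI_appQ (k := 1) cD7k_0_k11_39 (by decide +kernel) ?_
  refine allI_appQ (k := 2) cD7k_0_k11_40 (by decide +kernel) ?_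
  refine allI_appQ (k := 3) cD7k_0_k11_41 (by decide +kernel) ?_
  refine allI_appQ (k := 2) cD7k_0_k11_42 (by decide +kernel) ?_
  refine allI_appQ (k := 2) cD7k_0_k11_43 (by decide +kernel) ?_
  refine allI_appQ (k := 2) cD7k_0_k11_44 (by decide +kernel) ?_
  exact cD7k_0_k11_45

theorem cD7k_0_l11 : cD7k_0_n11.length = 87 := by
  decide +kernel

end Pool.Agent.Lib_MP_fa6e45
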