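import Pool.Agent.Lib_MP_fa6e45.DQ7k_0d
import Pool.Agent.Lib_MP_fa6e45.RD7k_12

/-!
MP_fa6e45_co, stage 9: straight-side patterns with `7` sides, part of a certificate (generated by a program).
-/

namespace Pool.Agent.Lib_MP_fa6e45

theorem cD7k_0_k12_0 : allI cD7k_0_c (rjL dJ cD7k_0_q rD7k_12_0) 6399 = true := by
  decide +kernel

theorem cD7k_0_k12_1 : allI cD7k_0_c (rjL dJ cD7k_0_q rD7k_12_1) 6401 = true := by
  decide +kernel

theorem cD7k_0_k12_2 : allI cD7k_0_c (rjL dJ cD7k_0_q rD7k_12_2) 6403 = true := by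
  decide +kernel

theorem cD7k_0_k12_3 : allI cD7k_0_c (rjL dJ cD7k_0_q rD7k_12_3) 6405 = true := by
  decide +kernel

theorem cD7k_0_k12_4 : allI cD7k_0_c (rjL dJ cD7k_0_q rD7k_12_4) 6407 = true := by
  decide +kernel

theorem cD7k_0_k12_5 : allI cD7k_0_c (rjL dJ cD7k_0_q rD7k_12_5) 6409 = true := by
  decide +kernel

theorem cD7k_0_k12_6 : allI cD7k_0_c (rjL dJ cD7k_0_q rD7k_12_6) 6412 = true := by
  decide +kernel

theorem cD7k_0_k12_7 : allI cD7k_0_c (rjL dJ cD7k_0_q rD7k_12_7) 6414 = true := by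
  decide +kernel

theorem cD7k_0_k12_8 : allI cD7k_0_c (rjL dJ cD7k_0_q rD7k_12_8) 6416 = true := by
  decide +kernel

theorem cD7k_0_k12_9 : allI cD7k_0_c (rjL dJ cD7k_0_q rD7k_12_9) 6418 = true := by
  decide +kernel

theorem cD7k_0_k12_10 : allI cD7k_0_c (rjL dJ cD7k_0_q rD7k_12_10) 6420 = true := by
  decide +kernel

theorem cD7k_0_k12_11 : allI cD7k_0_c (rjL dJ cD7k_0_q rD7k_12_11) 6422 = true := by
  decide +kernel

theorem cD7k_0_k12_12 : allI cD7k_0_c (rjL dJ cD7k_0_q rD7k_12_12) 6425 = true := by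
  decide +kernel

theorem cD7k_0_k12_13 : allI cD7k_0_c (rjL dJ cD7k_0_q rD7k_12_13) 6427 = true := by
  decide +kernel

theorem cD7k_0_k12_14 : allI cD7k_0_c (rjL dJ cD7k_0_q rD7k_12_14) 6429 = true := by
  decide +kernel

theorem cD7k_0_k12_15 : allI cD7k_0_c (rjL dJ cD7k_0_q rD7k_12_15) 6430 = true := by
  decide +kernel

theorem cD7k_0_k12_16 : allI cD7k_0_c (rjL dJ cD7k_0_q rD7k_12_16) 6431 = true := by
  decide +kernel

theorem cD7k_0_k12_17 : allI cD7k_0_c (rjL dJ cD7k_0_q rD7k_12_17) 6433 = true := by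
  decide +kernel

theorem cD7k_0_k12_18 : allI cD7k_0_c (rjL dJ cD7k_0_q rD7k_12_18) 6434 = true := by
  decide +kernel

theorem cD7k_0_k12_19 : allI cD7k_0_c (rjL dJ cD7k_0_q rD7k_12_19) 6435 = true := by
  decide +kernel

theorem cD7k_0_k12_20 : allI cD7k_0_c (rjL dJ cD7k_0_q rD7k_12_20) 6437 = true := by
  decide +kernel

theorem cD7k_0_k12_21 : allI cD7k_0_c (rjL dJ cD7k_0_q rD7k_12_21) 6439 = true := by
  decide +kernel

theorem cD7k_0_k12_22 : allI cD7k_0_c (rjL dJ cD7k_0_q rD7k_12_22) 6441 = true := by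
  decide +kernel

theorem cD7k_0_k12_23 : allI cD7k_0_c (rjL dJ cD7k_0_q rD7k_12_23) 6442 = true := by
  decide +kernel

theorem cD7k_0_k12_24 : allI cD7k_0_c (rjL dJ cD7k_0_q rD7k_12_24) 6443 = true := by
  decide +kernel

theorem cD7k_0_k12_25 : allI cD7k_0_c (rjL dJ cD7k_0_q rD7k_12_25) 6445 = true := by
  decide +kernel

theorem cD7k_0_k12_26 : allI cD7k_0_c (rjL dJ cD7k_0_q rD7k_12_26) 6446 = true := by
  decide +kernel

theorem cD7k_0_k12_27 : allI cD7k_0_c (rjL dJ cD7k_0_q rD7k_12_27) 6448 = true := by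
  decide +kernel

theorem cD7k_0_k12_28 : allI cD7k_0_c (rjL dJ cD7k_0_q rD7k_12_28) 6450 = true := by
  decide +kernel

theorem cD7k_0_k12_29 : allI cD7k_0_c (rjL dJ cD7k_0_q rD7k_12_29) 6452 = true := by
  decide +kernel

theorem cD7k_0_k12_30 : allI cD7k_0_c (rjL dJ cD7k_0_q rD7k_12_30) 6454 = true := by
  decide +kernel

theorem cD7k_0_k12_31 : allI cD7k_0_c (rjL dJ cD7k_0_q rD7k_12_31) 6457 = true := by
  decide +kernel

theorem cD7k_0_k12_32 : allI cD7k_0_c (rjL dJ cD7k_0_q rD7k_12_32) 6460 = true := by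
  decide +kernel

theorem cD7k_0_k12_33 : allI cD7k_0_c (rjL dJ cD7k_0_q rD7k_12_33) 6463 = true := by
  decide +kernel

theorem cD7k_0_k12_34 : allI cD7k_0_c (rjL dJ cD7k_0_q rD7k_12_34) 6465 = true := by
  decide +kernel

theorem cD7k_0_k12_35 : allI cD7k_0_c (rjL dJ cD7k_0_q rD7k_12_35) 6466 = true := by
  decide +kernel

theorem cD7k_0_k12_36 : allI cD7k_0_c (rjL dJ cD7k_0_q rD7k_12_36) 6468 = true := by
  decide +kernel

theorem cD7k_0_k12_37 : allI cD7k_0_c (rjL dJ cD7k_0_q rD7k_12_37) 6470 = true := by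
  decide +kernel

theorem cD7k_0_k12_38 : allI cD7k_0_c (rjL dJ cD7k_0_q rD7k_12_38) 6472 = true := by
  decide +kernel

theorem cD7k_0_k12_39 : allI cD7k_0_c (rjL dJ cD7k_0_q rD7k_12_39) 6474 = true := by
  decide +kernel

theorem cD7k_0_k12_40 : allI cD7k_0_c (rjL dJ cD7k_0_q rD7k_12_40) 6475 = true := by
  decide +kernel

theorem cD7k_0_k12_41 : allI cD7k_0_c (rjL dJ cD7k_0_q rD7k_12_41) 6476 = true := by
  decide +kernel

theorem cD7k_0_k12_42 : allI cD7k_0_c (rjL dJ cD7k_0_q rD7k_12_42) 6478 = true := by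
  decide +kernel

/-- nodes -/
noncomputable def cD7k_0_n12 : List (QJ PN) :=
  rjL dJ cD7k_0_q rD7k_12_0 ++ (rjL dJ cD7k_0_q rD7k_12_1 ++ (rjL dJ cD7k_0_q rD7k_12_2 ++ (
    rjL dJ cD7k_0_q rD7k_12_3 ++ (rjL dJ cD7k_0_q rD7k_12_4 ++ (rjL dJ cD7k_0_q rD7k_12_5 ++ (
    rjL dJ cD7k_0_q rD7k_12_6 ++ (rjL dJ cD7k_0_q rD7k_12_7 ++ (rjL dJ cD7k_0_q rD7k_12_8 ++ (
    rjL dJ cD7k_0_q rD7k_12_9 ++ (rjL dJ cD7k_0_q rD7k_12_10 ++ (rjL dJ cD7k_0_q rD7k_12_11 ++ (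
    rjL dJ cD7k_0_q rD7k_12_12 ++ (rjL dJ cD7k_0_q rD7k_12_13 ++ (rjL dJ cD7k_0_q rD7k_12_14 ++ (
    rjL dJ cD7k_0_q rD7k_12_15 ++ (rjL dJ cD7k_0_q rD7k_12_16 ++ (rjL dJ cD7k_0_q rD7k_12_17 ++ (
    rjL dJ cD7k_0_q rD7k_12_18 ++ (rjL dJ cD7k_0_q rD7k_12_19 ++ (rjL dJ cD7k_0_q rD7k_12_20 ++ (
    rjL dJ cD7k_0_q rD7k_12_21 ++ (rjL dJ cD7k_0_q rD7k_12_22 ++ (rjL dJ cD7k_0_q rD7k_12_23 ++ (
    rjL dJ cD7k_0_q rD7k_12_24 ++ (rjL dJ cD7k_0_q rD7k_12_25 ++ (rjL dJ cD7k_0_q rD7k_12_26 ++ (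
    rjL dJ cD7k_0_q rD7k_12_27 ++ (rjL dJ cD7k_0_q rD7k_12_28 ++ (rjL dJ cD7k_0_q rD7k_12_29 ++ (
    rjL dJ cD7k_0_q rD7k_12_30 ++ (rjL dJ cD7k_0_q rD7k_12_31 ++ (rjL dJ cD7k_0_q rD7k_12_32 ++ (
    rjL dJ cD7k_0_q rD7k_12_33 ++ (rjL dJ cD7k_0_q rD7k_12_34 ++ (rjL dJ cD7k_0_q rD7k_12_35 ++ (
    rjL dJ cD7k_0_q rD7k_12_36 ++ (rjL dJ cD7k_0_q rD7k_12_37 ++ (rjL dJ cD7k_0_q rD7k_12_38 ++ (
    rjL dJ cD7k_0_q rD7k_12_39 ++ (rjL dJ cD7k_0_q rD7k_12_40 ++ (rjL dJ cD7k_0_q rD7k_12_41 ++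
    rjL dJ cD7k_0_q rD7k_12_42)))))))))))))))))))))))))))))))))))))))))

theorem cD7k_0_k12 : allI cD7k_0_c cD7k_0_n12 6399 = true := by
  refine allI_appQ (k := 2) cD7k_0_k12_0 (by decide +kernel) ?_
  refine allI_appQ (k := 2) cD7k_0_k12_1 (by decide +kernel) ?_
  refine allI_appQ (k := 2) cD7k_0_k12_2 (by decide +kernel) ?_
  refine allI_appQ (k := 2) cD7k_0_k12_3 (by decide +kernel) ?_
  refine allI_appQ (k := 2) cD7k_0_k12_4 (by decide +kernel) ?_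
  refine allI_appQ (k := 3) cD7k_0_k12_5 (by decide +kernel) ?_
  refine allI_appQ (k := 2) cD7k_0_k12_6 (by decide +kernel) ?_
  refine allI_appQ (k := 2) cD7k_0_k12_7 (by decide +kernel) ?_
  refine allI_appQ (k := 2) cD7k_0_k12_8 (by decide +kernel) ?_
  refine allI_appQ (k := 2) cD7k_0_k12_9 (by decide +kernel) ?_
  refine allI_appQ (k := 2) cD7k_0_k12_10 (by decide +kernel) ?_
  refine allI_appQ (k := 3) cD7k_0_k12_11 (by decide +kernel) ?_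
  refine allI_appQ (k := 2) cD7k_0_k12_12 (by decide +kernel) ?_
  refine allI_appQ (k := 2) cD7k_0_k12_13 (by decide +kernel) ?_
  refine allI_appQ (k := 1) cD7k_0_k12_14 (by decide +kernel) ?_
  refine allI_appQ (k := 1) cD7k_0_k12_15 (by decide +kernel) ?_
  refine allI_appQ (k := 2) cD7k_0_k12_16 (by decide +kernel) ?_
  refine allI_appQ (k := 1) cD7k_0_k12_17 (by decide +kernel) ?_
  refine allI_appQ (k := 1) cD7k_0_k12_18 (by decide +kernel) ?_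
  refine allI_appQ (k := 2) cD7k_0_k12_19 (by decide +kernel) ?_
  refine allI_appQ (k := 2) cD7k_0_k12_20 (by decide +kernel) ?_
  refine allI_appQ (k := 2) cD7k_0_k12_21 (by decide +kernel) ?_
  refine allI_appQ (k := 1) cD7k_0_k12_22 (by decide +kernel) ?_
  refine allI_appQ (k := 1) cD7k_0_k12_23 (by decide +kernel) ?_
  refine allI_appQ (k := 2) cD7k_0_k12_24 (by decide +kernel) ?_
  refine allI_appQ (k := 1) cD7k_0_k12_25 (by decide +kernel) ?_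
  refine allI_appQ (k := 2) cD7k_0_k12_26 (by decide +kernel) ?_
  refine allI_appQ (k := 2) cD7k_0_k12_27 (by decide +kernel) ?_
  refine allI_appQ (k := 2) cD7k_0_k12_28 (by decide +kernel) ?_
  refine allI_appQ (k := 2) cD7k_0_k12_29 (by decide +kernel) ?_
  refine allI_appQ (k := 3) cD7k_0_k12_30 (by decide +kernel) ?_
  refine allI_appQ (k := 3) cD7k_0_k12_31 (by decide +kernel) ?_
  refine allI_appQ (k := 3) cD7k_0_k12_32 (by decide +kernel) ?_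
  refine allI_appQ (k := 2) cD7k_0_k12_33 (by decide +kernel) ?_
  refine allI_appQ (k := 1) cD7k_0_k12_34 (by decide +kernel) ?_
  refine allI_appQ (k := 2) cD7k_0_k12_35 (by decide +kernel) ?_
  refine allI_appQ (k := 2) cD7k_0_k12_36 (by decide +kernel) ?_
  refine allI_appQ (k := 2) cD7k_0_k12_37 (by decide +kernel) ?_
  refine allI_appQ (k := 2) cD7k_0_k12_38 (by decide +kernel) ?_
  refine allI_appQ (k := 1) cD7k_0_k12_39 (by decide +kernel) ?_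
  refine allI_appQ (k := 1) cD7k_0_k12_40 (by decide +kernel) ?_
  refine allI_appQ (k := 2) cD7k_0_k12_41 (by decide +kernel) ?_
  exact cD7k_0_k12_42

theorem cD7k_0_l12 : cD7k_0_n12.length = 80 := by
  decide +kernel

end Pool.Agent.Lib_MP_fa6e45
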