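import Pool.Agent.Lib_MP_fa6e45.DQ7k_0d
import Pool.Agent.Lib_MP_fa6e45.RD7k_13

/-!
MP_fa6e45_co, stage 9: straight-side patterns with `7` sides, part of a certificate (generated by a program).
-/

namespace Pool.Agent.Lib_MP_fa6e45

theorem cD7k_0_k13_0 : allI cD7k_0_c (rjL dJ cD7k_0_q rD7k_13_0) 6479 = true := by
  decide +kernel

theorem cD7k_0_k13_1 : allI cD7k_0_c (rjL dJ cD7k_0_q rD7k_13_1) 6480 = true := by
  decide +kernel

theorem cD7k_0_k13_2 : allI cD7k_0_c (rjL dJ cD7k_0_q rD7k_13_2) 6481 = true := by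
  decide +kernel

theorem cD7k_0_k13_3 : allI cD7k_0_c (rjL dJ cD7k_0_q rD7k_13_3) 6484 = true := by
  decide +kernel

theorem cD7k_0_k13_4 : allI cD7k_0_c (rjL dJ cD7k_0_q rD7k_13_4) 6486 = true := by
  decide +kernel

theorem cD7k_0_k13_5 : allI cD7k_0_c (rjL dJ cD7k_0_q rD7k_13_5) 6487 = true := by
  decide +kernel

theorem cD7k_0_k13_6 : allI cD7k_0_c (rjL dJ cD7k_0_q rD7k_13_6) 6488 = true := by
  decide +kernel

theorem cD7k_0_k13_7 : allI cD7k_0_c (rjL dJ cD7k_0_q rD7k_13_7) 6489 = true := by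
  decide +kernel

theorem cD7k_0_k13_8 : allI cD7k_0_c (rjL dJ cD7k_0_q rD7k_13_8) 6490 = true := by
  decide +kernel

theorem cD7k_0_k13_9 : allI cD7k_0_c (rjL dJ cD7k_0_q rD7k_13_9) 6491 = true := by
  decide +kernel

theorem cD7k_0_k13_10 : allI cD7k_0_c (rjL dJ cD7k_0_q rD7k_13_10) 6492 = true := by
  decide +kernel

theorem cD7k_0_k13_11 : allI cD7k_0_c (rjL dJ cD7k_0_q rD7k_13_11) 6494 = true := by
  decide +kernel

theorem cD7k_0_k13_12 : allI cD7k_0_c (rjL dJ cD7k_0_q rD7k_13_12) 6496 = true := by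
  decide +kernel

theorem cD7k_0_k13_13 : allI cD7k_0_c (rjL dJ cD7k_0_q rD7k_13_13) 6498 = true := by
  decide +kernel

theorem cD7k_0_k13_14 : allI cD7k_0_c (rjL dJ cD7k_0_q rD7k_13_14) 6500 = true := by
  decide +kernel

theorem cD7k_0_k13_15 : allI cD7k_0_c (rjL dJ cD7k_0_q rD7k_13_15) 6502 = true := by
  decide +kernel

theorem cD7k_0_k13_16 : allI cD7k_0_c (rjL dJ cD7k_0_q rD7k_13_16) 6504 = true := by
  decide +kernel

theorem cD7k_0_k13_17 : allI cD7k_0_c (rjL dJ cD7k_0_q rD7k_13_17) 6506 = true := by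
  decide +kernel

theorem cD7k_0_k13_18 : allI cD7k_0_c (rjL dJ cD7k_0_q rD7k_13_18) 6507 = true := by
  decide +kernel

theorem cD7k_0_k13_19 : allI cD7k_0_c (rjL dJ cD7k_0_q rD7k_13_19) 6508 = true := by
  decide +kernel

theorem cD7k_0_k13_20 : allI cD7k_0_c (rjL dJ cD7k_0_q rD7k_13_20) 6509 = true := by
  decide +kernel

theorem cD7k_0_k13_21 : allI cD7k_0_c (rjL dJ cD7k_0_q rD7k_13_21) 6510 = true := by
  decide +kernel

theorem cD7k_0_k13_22 : allI cD7k_0_c (rjL dJ cD7k_0_q rD7k_13_22) 6511 = true := by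
  decide +kernel

theorem cD7k_0_k13_23 : allI cD7k_0_c (rjL dJ cD7k_0_q rD7k_13_23) 6512 = true := by
  decide +kernel

theorem cD7k_0_k13_24 : allI cD7k_0_c (rjL dJ cD7k_0_q rD7k_13_24) 6514 = true := by
  decide +kernel

theorem cD7k_0_k13_25 : allI cD7k_0_c (rjL dJ cD7k_0_q rD7k_13_25) 6516 = true := by
  decide +kernel

theorem cD7k_0_k13_26 : allI cD7k_0_c (rjL dJ cD7k_0_q rD7k_13_26) 6518 = true := by
  decide +kernel

theorem cD7k_0_k13_27 : allI cD7k_0_c (rjL dJ cD7k_0_q rD7k_13_27) 6519 = true := by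
  decide +kernel

theorem cD7k_0_k13_28 : allI cD7k_0_c (rjL dJ cD7k_0_q rD7k_13_28) 6521 = true := by
  decide +kernel

theorem cD7k_0_k13_29 : allI cD7k_0_c (rjL dJ cD7k_0_q rD7k_13_29) 6523 = true := by
  decide +kernel

theorem cD7k_0_k13_30 : allI cD7k_0_c (rjL dJ cD7k_0_q rD7k_13_30) 6525 = true := by
  decide +kernel

theorem cD7k_0_k13_31 : allI cD7k_0_c (rjL dJ cD7k_0_q rD7k_13_31) 6527 = true := by
  decide +kernel

theorem cD7k_0_k13_32 : allI cD7k_0_c (rjL dJ cD7k_0_q rD7k_13_32) 6529 = true := by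
  decide +kernel

theorem cD7k_0_k13_33 : allI cD7k_0_c (rjL dJ cD7k_0_q rD7k_13_33) 6532 = true := by
  decide +kernel

theorem cD7k_0_k13_34 : allI cD7k_0_c (rjL dJ cD7k_0_q rD7k_13_34) 6535 = true := by
  decide +kernel

theorem cD7k_0_k13_35 : allI cD7k_0_c (rjL dJ cD7k_0_q rD7k_13_35) 6537 = true := by
  decide +kernel

theorem cD7k_0_k13_36 : allI cD7k_0_c (rjL dJ cD7k_0_q rD7k_13_36) 6539 = true := by
  decide +kernel

theorem cD7k_0_k13_37 : allI cD7k_0_c (rjL dJ cD7k_0_q rD7k_13_37) 6540 = true := by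
  decide +kernel

theorem cD7k_0_k13_38 : allI cD7k_0_c (rjL dJ cD7k_0_q rD7k_13_38) 6541 = true := by
  decide +kernel

theorem cD7k_0_k13_39 : allI cD7k_0_c (rjL dJ cD7k_0_q rD7k_13_39) 6543 = true := by
  decide +kernel

theorem cD7k_0_k13_40 : allI cD7k_0_c (rjL dJ cD7k_0_q rD7k_13_40) 6546 = true := by
  decide +kernel

theorem cD7k_0_k13_41 : allI cD7k_0_c (rjL dJ cD7k_0_q rD7k_13_41) 6548 = true := by
  decide +kernel

theorem cD7k_0_k13_42 : allI cD7k_0_c (rjL dJ cD7k_0_q rD7k_13_42) 6550 = true := by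
  decide +kernel

theorem cD7k_0_k13_43 : allI cD7k_0_c (rjL dJ cD7k_0_q rD7k_13_43) 6552 = true := by
  decide +kernel

theorem cD7k_0_k13_44 : allI cD7k_0_c (rjL dJ cD7k_0_q rD7k_13_44) 6554 = true := by
  decide +kernel

theorem cD7k_0_k13_45 : allI cD7k_0_c (rjL dJ cD7k_0_q rD7k_13_45) 6556 = true := by
  decide +kernel

theorem cD7k_0_k13_46 : allI cD7k_0_c (rjL dJ cD7k_0_q rD7k_13_46) 6558 = true := by
  decide +kernel

/-- nodes -/
noncomputable def cD7k_0_n13 : List (QJ PN) :=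
  rjL dJ cD7k_0_q rD7k_13_0 ++ (rjL dJ cD7k_0_q rD7k_13_1 ++ (rjL dJ cD7k_0_q rD7k_13_2 ++ (
    rjL dJ cD7k_0_q rD7k_13_3 ++ (rjL dJ cD7k_0_q rD7k_13_4 ++ (rjL dJ cD7k_0_q rD7k_13_5 ++ (
    rjL dJ cD7k_0_q rD7k_13_6 ++ (rjL dJ cD7k_0_q rD7k_13_7 ++ (rjL dJ cD7k_0_q rD7k_13_8 ++ (
    rjL dJ cD7k_0_q rD7k_13_9 ++ (rjL dJ cD7k_0_q rD7k_13_10 ++ (rjL dJ cD7k_0_q rD7k_13_11 ++ (
    rjL dJ cD7k_0_q rD7k_13_12 ++ (rjL dJ cD7k_0_q rD7k_13_13 ++ (rjL dJ cD7k_0_q rD7k_13_14 ++ (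
    rjL dJ cD7k_0_q rD7k_13_15 ++ (rjL dJ cD7k_0_q rD7k_13_16 ++ (rjL dJ cD7k_0_q rD7k_13_17 ++ (
    rjL dJ cD7k_0_q rD7k_13_18 ++ (rjL dJ cD7k_0_q rD7k_13_19 ++ (rjL dJ cD7k_0_q rD7k_13_20 ++ (
    rjL dJ cD7k_0_q rD7k_13_21 ++ (rjL dJ cD7k_0_q rD7k_13_22 ++ (rjL dJ cD7k_0_q rD7k_13_23 ++ (
    rjL dJ cD7k_0_q rD7k_13_24 ++ (rjL dJ cD7k_0_q rD7k_13_25 ++ (rjL dJ cD7k_0_q rD7k_13_26 ++ (
    rjL dJ cD7k_0_q rD7k_13_27 ++ (rjL dJ cD7k_0_q rD7k_13_28 ++ (rjL dJ cD7k_0_q rD7k_13_29 ++ (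
    rjL dJ cD7k_0_q rD7k_13_30 ++ (rjL dJ cD7k_0_q rD7k_13_31 ++ (rjL dJ cD7k_0_q rD7k_13_32 ++ (
    rjL dJ cD7k_0_q rD7k_13_33 ++ (rjL dJ cD7k_0_q rD7k_13_34 ++ (rjL dJ cD7k_0_q rD7k_13_35 ++ (
    rjL dJ cD7k_0_q rD7k_13_36 ++ (rjL dJ cD7k_0_q rD7k_13_37 ++ (rjL dJ cD7k_0_q rD7k_13_38 ++ (
    rjL dJ cD7k_0_q rD7k_13_39 ++ (rjL dJ cD7k_0_q rD7k_13_40 ++ (rjL dJ cD7k_0_q rD7k_13_41 ++ (
    rjL dJ cD7k_0_q rD7k_13_42 ++ (rjL dJ cD7k_0_q rD7k_13_43 ++ (rjL dJ cD7k_0_q rD7k_13_44 ++ (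
    rjL dJ cD7k_0_q rD7k_13_45 ++
    rjL dJ cD7k_0_q rD7k_13_46)))))))))))))))))))))))))))))))))))))))))))))

theorem cD7k_0_k13 : allI cD7k_0_c cD7k_0_n13 6479 = true := by
  refine allI_appQ (k := 1) cD7k_0_k13_0 (by decide +kernel) ?_
  refine allI_appQ (k := 1) cD7k_0_k13_1 (by decide +kernel) ?_
  refine allI_appQ (k := 3) cD7k_0_k13_2 (by decide +kernel) ?_
  refine allI_appQ (k := 2) cD7k_0_k13_3 (by decide +kernel) ?_
  refine allI_appQ (k := 1) cD7k_0_k13_4 (by decide +kernel) ?_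
  refine allI_appQ (k := 1) cD7k_0_k13_5 (by decide +kernel) ?_
  refine allI_appQ (k := 1) cD7k_0_k13_6 (by decide +kernel) ?_
  refine allI_appQ (k := 1) cD7k_0_k13_7 (by decide +kernel) ?_
  refine allI_appQ (k := 1) cD7k_0_k13_8 (by decide +kernel) ?_
  refine allI_appQ (k := 1) cD7k_0_k13_9 (by decide +kernel) ?_
  refine allI_appQ (k := 2) cD7k_0_k13_10 (by decide +kernel) ?_
  refine allI_appQ (k := 2) cD7k_0_k13_11 (by decide +kernel) ?_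
  refine allI_appQ (k := 2) cD7k_0_k13_12 (by decide +kernel) ?_
  refine allI_appQ (k := 2) cD7k_0_k13_13 (by decide +kernel) ?_
  refine allI_appQ (k := 2) cD7k_0_k13_14 (by decide +kernel) ?_
  refine allI_appQ (k := 2) cD7k_0_k13_15 (by decide +kernel) ?_
  refine allI_appQ (k := 2) cD7k_0_k13_16 (by decide +kernel) ?_
  refine allI_appQ (k := 1) cD7k_0_k13_17 (by decide +kernel) ?_
  refine allI_appQ (k := 1) cD7k_0_k13_18 (by decide +kernel) ?_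
  refine allI_appQ (k := 1) cD7k_0_k13_19 (by decide +kernel) ?_
  refine allI_appQ (k := 1) cD7k_0_k13_20 (by decide +kernel) ?_
  refine allI_appQ (k := 1) cD7k_0_k13_21 (by decide +kernel) ?_
  refine allI_appQ (k := 1) cD7k_0_k13_22 (by decide +kernel) ?_
  refine allI_appQ (k := 2) cD7k_0_k13_23 (by decide +kernel) ?_
  refine allI_appQ (k := 2) cD7k_0_k13_24 (by decide +kernel) ?_
  refine allI_appQ (k := 2) cD7k_0_k13_25 (by decide +kernel) ?_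
  refine allI_appQ (k := 1) cD7k_0_k13_26 (by decide +kernel) ?_
  refine allI_appQ (k := 2) cD7k_0_k13_27 (by decide +kernel) ?_
  refine allI_appQ (k := 2) cD7k_0_k13_28 (by decide +kernel) ?_
  refine allI_appQ (k := 2) cD7k_0_k13_29 (by decide +kernel) ?_
  refine allI_appQ (k := 2) cD7k_0_k13_30 (by decide +kernel) ?_
  refine allI_appQ (k := 2) cD7k_0_k13_31 (by decide +kernel) ?_
  refine allI_appQ (k := 3) cD7k_0_k13_32 (by decide +kernel) ?_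
  refine allI_appQ (k := 3) cD7k_0_k13_33 (by decide +kernel) ?_
  refine allI_appQ (k := 2) cD7k_0_k13_34 (by decide +kernel) ?_
  refine allI_appQ (k := 2) cD7k_0_k13_35 (by decide +kernel) ?_
  refine allI_appQ (k := 1) cD7k_0_k13_36 (by decide +kernel) ?_
  refine allI_appQ (k := 1) cD7k_0_k13_37 (by decide +kernel) ?_
  refine allI_appQ (k := 2) cD7k_0_k13_38 (by decide +kernel) ?_
  refine allI_appQ (k := 3) cD7k_0_k13_39 (by decide +kernel) ?_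
  refine allI_appQ (k := 2) cD7k_0_k13_40 (by decide +kernel) ?_
  refine allI_appQ (k := 2) cD7k_0_k13_41 (by decide +kernel) ?_
  refine allI_appQ (k := 2) cD7k_0_k13_42 (by decide +kernel) ?_
  refine allI_appQ (k := 2) cD7k_0_k13_43 (by decide +kernel) ?_
  refine allI_appQ (k := 2) cD7k_0_k13_44 (by decide +kernel) ?_
  refine allI_appQ (k := 2) cD7k_0_k13_45 (by decide +kernel) ?_
  exact cD7k_0_k13_46

theorem cD7k_0_l13 : cD7k_0_n13.length = 80 := by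
  decide +kernel

end Pool.Agent.Lib_MP_fa6e45
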