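import Pool.Agent.Lib_MP_fa6e45.DQ7k_0d
import Pool.Agent.Lib_MP_fa6e45.RD7k_14

/-!
MP_fa6e45_co, stage 9: straight-side patterns with `7` sides, part of a certificate (generated by a program).
-/

namespace Pool.Agent.Lib_MP_fa6e45

theorem cD7k_0_k14_0 : allI cD7k_0_c (rjL dJ cD7k_0_q rD7k_14_0) 6559 = true := by
  decide +kernel

theorem cD7k_0_k14_1 : allI cD7k_0_c (rjL dJ cD7k_0_q rD7k_14_1) 6560 = true := by
  decide +kernel

theorem cD7k_0_k14_2 : allI cD7k_0_c (rjL dJ cD7k_0_q rD7k_14_2) 6561 = true := by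
  decide +kernel

theorem cD7k_0_k14_3 : allI cD7k_0_c (rjL dJ cD7k_0_q rD7k_14_3) 6562 = true := by
  decide +kernel

theorem cD7k_0_k14_4 : allI cD7k_0_c (rjL dJ cD7k_0_q rD7k_14_4) 6564 = true := by
  decide +kernel

theorem cD7k_0_k14_5 : allI cD7k_0_c (rjL dJ cD7k_0_q rD7k_14_5) 6566 = true := by
  decide +kernel

theorem cD7k_0_k14_6 : allI cD7k_0_c (rjL dJ cD7k_0_q rD7k_14_6) 6568 = true := by
  decide +kernel

theorem cD7k_0_k14_7 : allI cD7k_0_c (rjL dJ cD7k_0_q rD7k_14_7) 6570 = true := by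
  decide +kernel

theorem cD7k_0_k14_8 : allI cD7k_0_c (rjL dJ cD7k_0_q rD7k_14_8) 6573 = true := by
  decide +kernel

theorem cD7k_0_k14_9 : allI cD7k_0_c (rjL dJ cD7k_0_q rD7k_14_9) 6576 = true := by
  decide +kernel

theorem cD7k_0_k14_10 : allI cD7k_0_c (rjL dJ cD7k_0_q rD7k_14_10) 6579 = true := by
  decide +kernel

theorem cD7k_0_k14_11 : allI cD7k_0_c (rjL dJ cD7k_0_q rD7k_14_11) 6581 = true := by
  decide +kernel

theorem cD7k_0_k14_12 : allI cD7k_0_c (rjL dJ cD7k_0_q rD7k_14_12) 6583 = true := by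
  decide +kernel

theorem cD7k_0_k14_13 : allI cD7k_0_c (rjL dJ cD7k_0_q rD7k_14_13) 6585 = true := by
  decide +kernel

theorem cD7k_0_k14_14 : allI cD7k_0_c (rjL dJ cD7k_0_q rD7k_14_14) 6587 = true := by
  decide +kernel

theorem cD7k_0_k14_15 : allI cD7k_0_c (rjL dJ cD7k_0_q rD7k_14_15) 6589 = true := by
  decide +kernel

theorem cD7k_0_k14_16 : allI cD7k_0_c (rjL dJ cD7k_0_q rD7k_14_16) 6592 = true := by
  decide +kernel

theorem cD7k_0_k14_17 : allI cD7k_0_c (rjL dJ cD7k_0_q rD7k_14_17) 6594 = true := by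
  decide +kernel

theorem cD7k_0_k14_18 : allI cD7k_0_c (rjL dJ cD7k_0_q rD7k_14_18) 6596 = true := by
  decide +kernel

theorem cD7k_0_k14_19 : allI cD7k_0_c (rjL dJ cD7k_0_q rD7k_14_19) 6598 = true := by
  decide +kernel

theorem cD7k_0_k14_20 : allI cD7k_0_c (rjL dJ cD7k_0_q rD7k_14_20) 6599 = true := by
  decide +kernel

theorem cD7k_0_k14_21 : allI cD7k_0_c (rjL dJ cD7k_0_q rD7k_14_21) 6600 = true := by
  decide +kernel

theorem cD7k_0_k14_22 : allI cD7k_0_c (rjL dJ cD7k_0_q rD7k_14_22) 6601 = true := by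
  decide +kernel

theorem cD7k_0_k14_23 : allI cD7k_0_c (rjL dJ cD7k_0_q rD7k_14_23) 6602 = true := by
  decide +kernel

theorem cD7k_0_k14_24 : allI cD7k_0_c (rjL dJ cD7k_0_q rD7k_14_24) 6603 = true := by
  decide +kernel

theorem cD7k_0_k14_25 : allI cD7k_0_c (rjL dJ cD7k_0_q rD7k_14_25) 6605 = true := by
  decide +kernel

theorem cD7k_0_k14_26 : allI cD7k_0_c (rjL dJ cD7k_0_q rD7k_14_26) 6607 = true := by
  decide +kernel

theorem cD7k_0_k14_27 : allI cD7k_0_c (rjL dJ cD7k_0_q rD7k_14_27) 6609 = true := by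
  decide +kernel

theorem cD7k_0_k14_28 : allI cD7k_0_c (rjL dJ cD7k_0_q rD7k_14_28) 6612 = true := by
  decide +kernel

theorem cD7k_0_k14_29 : allI cD7k_0_c (rjL dJ cD7k_0_q rD7k_14_29) 6614 = true := by
  decide +kernel

theorem cD7k_0_k14_30 : allI cD7k_0_c (rjL dJ cD7k_0_q rD7k_14_30) 6615 = true := by
  decide +kernel

theorem cD7k_0_k14_31 : allI cD7k_0_c (rjL dJ cD7k_0_q rD7k_14_31) 6618 = true := by
  decide +kernel

theorem cD7k_0_k14_32 : allI cD7k_0_c (rjL dJ cD7k_0_q rD7k_14_32) 6621 = true := by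
  decide +kernel

theorem cD7k_0_k14_33 : allI cD7k_0_c (rjL dJ cD7k_0_q rD7k_14_33) 6623 = true := by
  decide +kernel

theorem cD7k_0_k14_34 : allI cD7k_0_c (rjL dJ cD7k_0_q rD7k_14_34) 6625 = true := by
  decide +kernel

theorem cD7k_0_k14_35 : allI cD7k_0_c (rjL dJ cD7k_0_q rD7k_14_35) 6627 = true := by
  decide +kernel

theorem cD7k_0_k14_36 : allI cD7k_0_c (rjL dJ cD7k_0_q rD7k_14_36) 6629 = true := by
  decide +kernel

theorem cD7k_0_k14_37 : allI cD7k_0_c (rjL dJ cD7k_0_q rD7k_14_37) 6631 = true := by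
  decide +kernel

theorem cD7k_0_k14_38 : allI cD7k_0_c (rjL dJ cD7k_0_q rD7k_14_38) 6633 = true := by
  decide +kernel

theorem cD7k_0_k14_39 : allI cD7k_0_c (rjL dJ cD7k_0_q rD7k_14_39) 6635 = true := by
  decide +kernel

theorem cD7k_0_k14_40 : allI cD7k_0_c (rjL dJ cD7k_0_q rD7k_14_40) 6638 = true := by
  decide +kernel

theorem cD7k_0_k14_41 : allI cD7k_0_c (rjL dJ cD7k_0_q rD7k_14_41) 6640 = true := by
  decide +kernel

theorem cD7k_0_k14_42 : allI cD7k_0_c (rjL dJ cD7k_0_q rD7k_14_42) 6643 = true := by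
  decide +kernel

/-- nodes -/
noncomputable def cD7k_0_n14 : List (QJ PN) :=
  rjL dJ cD7k_0_q rD7k_14_0 ++ (rjL dJ cD7k_0_q rD7k_14_1 ++ (rjL dJ cD7k_0_q rD7k_14_2 ++ (
    rjL dJ cD7k_0_q rD7k_14_3 ++ (rjL dJ cD7k_0_q rD7k_14_4 ++ (rjL dJ cD7k_0_q rD7k_14_5 ++ (
    rjL dJ cD7k_0_q rD7k_14_6 ++ (rjL dJ cD7k_0_q rD7k_14_7 ++ (rjL dJ cD7k_0_q rD7k_14_8 ++ (
    rjL dJ cD7k_0_q rD7k_14_9 ++ (rjL dJ cD7k_0_q rD7k_14_10 ++ (rjL dJ cD7k_0_q rD7k_14_11 ++ (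
    rjL dJ cD7k_0_q rD7k_14_12 ++ (rjL dJ cD7k_0_q rD7k_14_13 ++ (rjL dJ cD7k_0_q rD7k_14_14 ++ (
    rjL dJ cD7k_0_q rD7k_14_15 ++ (rjL dJ cD7k_0_q rD7k_14_16 ++ (rjL dJ cD7k_0_q rD7k_14_17 ++ (
    rjL dJ cD7k_0_q rD7k_14_18 ++ (rjL dJ cD7k_0_q rD7k_14_19 ++ (rjL dJ cD7k_0_q rD7k_14_20 ++ (
    rjL dJ cD7k_0_q rD7k_14_21 ++ (rjL dJ cD7k_0_q rD7k_14_22 ++ (rjL dJ cD7k_0_q rD7k_14_23 ++ (
    rjL dJ cD7k_0_q rD7k_14_24 ++ (rjL dJ cD7k_0_q rD7k_14_25 ++ (rjL dJ cD7k_0_q rD7k_14_26 ++ (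
    rjL dJ cD7k_0_q rD7k_14_27 ++ (rjL dJ cD7k_0_q rD7k_14_28 ++ (rjL dJ cD7k_0_q rD7k_14_29 ++ (
    rjL dJ cD7k_0_q rD7k_14_30 ++ (rjL dJ cD7k_0_q rD7k_14_31 ++ (rjL dJ cD7k_0_q rD7k_14_32 ++ (
    rjL dJ cD7k_0_q rD7k_14_33 ++ (rjL dJ cD7k_0_q rD7k_14_34 ++ (rjL dJ cD7k_0_q rD7k_14_35 ++ (
    rjL dJ cD7k_0_q rD7k_14_36 ++ (rjL dJ cD7k_0_q rD7k_14_37 ++ (rjL dJ cD7k_0_q rD7k_14_38 ++ (
    rjL dJ cD7k_0_q rD7k_14_39 ++ (rjL dJ cD7k_0_q rD7k_14_40 ++ (rjL dJ cD7k_0_q rD7k_14_41 ++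
    rjL dJ cD7k_0_q rD7k_14_42)))))))))))))))))))))))))))))))))))))))))

theorem cD7k_0_k14 : allI cD7k_0_c cD7k_0_n14 6559 = true := by
  refine allI_appQ (k := 1) cD7k_0_k14_0 (by decide +kernel) ?_
  refine allI_appQ (k := 1) cD7k_0_k14_1 (by decide +kernel) ?_
  refine allI_appQ (k := 1) cD7k_0_k14_2 (by decide +kernel) ?_
  refine allI_appQ (k := 2) cD7k_0_k14_3 (by decide +kernel) ?_
  refine allI_appQ (k := 2) cD7k_0_k14_4 (by decide +kernel) ?_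
  refine allI_appQ (k := 2) cD7k_0_k14_5 (by decide +kernel) ?_
  refine allI_appQ (k := 2) cD7k_0_k14_6 (by decide +kernel) ?_
  refine allI_appQ (k := 3) cD7k_0_k14_7 (by decide +kernel) ?_
  refine allI_appQ (k := 3) cD7k_0_k14_8 (by decide +kernel) ?_
  refine allI_appQ (k := 3) cD7k_0_k14_9 (by decide +kernel) ?_
  refine allI_appQ (k := 2) cD7k_0_k14_10 (by decide +kernel) ?_
  refine allI_appQ (k := 2) cD7k_0_k14_11 (by decide +kernel) ?_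
  refine allI_appQ (k := 2) cD7k_0_k14_12 (by decide +kernel) ?_
  refine allI_appQ (k := 2) cD7k_0_k14_13 (by decide +kernel) ?_
  refine allI_appQ (k := 2) cD7k_0_k14_14 (by decide +kernel) ?_
  refine allI_appQ (k := 3) cD7k_0_k14_15 (by decide +kernel) ?_
  refine allI_appQ (k := 2) cD7k_0_k14_16 (by decide +kernel) ?_
  refine allI_appQ (k := 2) cD7k_0_k14_17 (by decide +kernel) ?_
  refine allI_appQ (k := 2) cD7k_0_k14_18 (by decide +kernel) ?_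
  refine allI_appQ (k := 1) cD7k_0_k14_19 (by decide +kernel) ?_
  refine allI_appQ (k := 1) cD7k_0_k14_20 (by decide +kernel) ?_
  refine allI_appQ (k := 1) cD7k_0_k14_21 (by decide +kernel) ?_
  refine allI_appQ (k := 1) cD7k_0_k14_22 (by decide +kernel) ?_
  refine allI_appQ (k := 1) cD7k_0_k14_23 (by decide +kernel) ?_
  refine allI_appQ (k := 2) cD7k_0_k14_24 (by decide +kernel) ?_
  refine allI_appQ (k := 2) cD7k_0_k14_25 (by decide +kernel) ?_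
  refine allI_appQ (k := 2) cD7k_0_k14_26 (by decide +kernel) ?_
  refine allI_appQ (k := 3) cD7k_0_k14_27 (by decide +kernel) ?_
  refine allI_appQ (k := 2) cD7k_0_k14_28 (by decide +kernel) ?_
  refine allI_appQ (k := 1) cD7k_0_k14_29 (by decide +kernel) ?_
  refine allI_appQ (k := 3) cD7k_0_k14_30 (by decide +kernel) ?_
  refine allI_appQ (k := 3) cD7k_0_k14_31 (by decide +kernel) ?_
  refine allI_appQ (k := 2) cD7k_0_k14_32 (by decide +kernel) ?_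
  refine allI_appQ (k := 2) cD7k_0_k14_33 (by decide +kernel) ?_
  refine allI_appQ (k := 2) cD7k_0_k14_34 (by decide +kernel) ?_
  refine allI_appQ (k := 2) cD7k_0_k14_35 (by decide +kernel) ?_
  refine allI_appQ (k := 2) cD7k_0_k14_36 (by decide +kernel) ?_
  refine allI_appQ (k := 2) cD7k_0_k14_37 (by decide +kernel) ?_
  refine allI_appQ (k := 2) cD7k_0_k14_38 (by decide +kernel) ?_
  refine allI_appQ (k := 3) cD7k_0_k14_39 (by decide +kernel) ?_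
  refine allI_appQ (k := 2) cD7k_0_k14_40 (by decide +kernel) ?_
  refine allI_appQ (k := 3) cD7k_0_k14_41 (by decide +kernel) ?_
  exact cD7k_0_k14_42

theorem cD7k_0_l14 : cD7k_0_n14.length = 85 := by
  decide +kernel

end Pool.Agent.Lib_MP_fa6e45
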