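import Pool.Agent.Lib_MP_fa6e45.DQ7k_0d
import Pool.Agent.Lib_MP_fa6e45.RD7k_15

/-!
MP_fa6e45_co, stage 9: straight-side patterns with `7` sides, part of a certificate (generated by a program).
-/

namespace Pool.Agent.Lib_MP_fa6e45

theorem cD7k_0_k15_0 : allI cD7k_0_c (rjL dJ cD7k_0_q rD7k_15_0) 6644 = true := by
  decide +kernel

theorem cD7k_0_k15_1 : allI cD7k_0_c (rjL dJ cD7k_0_q rD7k_15_1) 6645 = true := by
  decide +kernel

theorem cD7k_0_k15_2 : allI cD7k_0_c (rjL dJ cD7k_0_q rD7k_15_2) 6647 = true := by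
  decide +kernel

theorem cD7k_0_k15_3 : allI cD7k_0_c (rjL dJ cD7k_0_q rD7k_15_3) 6648 = true := by
  decide +kernel

theorem cD7k_0_k15_4 : allI cD7k_0_c (rjL dJ cD7k_0_q rD7k_15_4) 6649 = true := by
  decide +kernel

theorem cD7k_0_k15_5 : allI cD7k_0_c (rjL dJ cD7k_0_q rD7k_15_5) 6651 = true := by
  decide +kernel

theorem cD7k_0_k15_6 : allI cD7k_0_c (rjL dJ cD7k_0_q rD7k_15_6) 6653 = true := by
  decide +kernel

theorem cD7k_0_k15_7 : allI cD7k_0_c (rjL dJ cD7k_0_q rD7k_15_7) 6655 = true := by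
  decide +kernel

theorem cD7k_0_k15_8 : allI cD7k_0_c (rjL dJ cD7k_0_q rD7k_15_8) 6656 = true := by
  decide +kernel

theorem cD7k_0_k15_9 : allI cD7k_0_c (rjL dJ cD7k_0_q rD7k_15_9) 6657 = true := by
  decide +kernel

theorem cD7k_0_k15_10 : allI cD7k_0_c (rjL dJ cD7k_0_q rD7k_15_10) 6658 = true := by
  decide +kernel

theorem cD7k_0_k15_11 : allI cD7k_0_c (rjL dJ cD7k_0_q rD7k_15_11) 6659 = true := by
  decide +kernel

theorem cD7k_0_k15_12 : allI cD7k_0_c (rjL dJ cD7k_0_q rD7k_15_12) 6660 = true := by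
  decide +kernel

theorem cD7k_0_k15_13 : allI cD7k_0_c (rjL dJ cD7k_0_q rD7k_15_13) 6661 = true := by
  decide +kernel

theorem cD7k_0_k15_14 : allI cD7k_0_c (rjL dJ cD7k_0_q rD7k_15_14) 6664 = true := by
  decide +kernel

theorem cD7k_0_k15_15 : allI cD7k_0_c (rjL dJ cD7k_0_q rD7k_15_15) 6666 = true := by
  decide +kernel

theorem cD7k_0_k15_16 : allI cD7k_0_c (rjL dJ cD7k_0_q rD7k_15_16) 6668 = true := by
  decide +kernel

theorem cD7k_0_k15_17 : allI cD7k_0_c (rjL dJ cD7k_0_q rD7k_15_17) 6670 = true := by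
  decide +kernel

theorem cD7k_0_k15_18 : allI cD7k_0_c (rjL dJ cD7k_0_q rD7k_15_18) 6672 = true := by
  decide +kernel

theorem cD7k_0_k15_19 : allI cD7k_0_c (rjL dJ cD7k_0_q rD7k_15_19) 6673 = true := by
  decide +kernel

theorem cD7k_0_k15_20 : allI cD7k_0_c (rjL dJ cD7k_0_q rD7k_15_20) 6675 = true := by
  decide +kernel

theorem cD7k_0_k15_21 : allI cD7k_0_c (rjL dJ cD7k_0_q rD7k_15_21) 6677 = true := by
  decide +kernel

theorem cD7k_0_k15_22 : allI cD7k_0_c (rjL dJ cD7k_0_q rD7k_15_22) 6679 = true := by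
  decide +kernel

theorem cD7k_0_k15_23 : allI cD7k_0_c (rjL dJ cD7k_0_q rD7k_15_23) 6681 = true := by
  decide +kernel

theorem cD7k_0_k15_24 : allI cD7k_0_c (rjL dJ cD7k_0_q rD7k_15_24) 6683 = true := by
  decide +kernel

theorem cD7k_0_k15_25 : allI cD7k_0_c (rjL dJ cD7k_0_q rD7k_15_25) 6685 = true := by
  decide +kernel

theorem cD7k_0_k15_26 : allI cD7k_0_c (rjL dJ cD7k_0_q rD7k_15_26) 6687 = true := by
  decide +kernel

theorem cD7k_0_k15_27 : allI cD7k_0_c (rjL dJ cD7k_0_q rD7k_15_27) 6689 = true := by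
  decide +kernel

theorem cD7k_0_k15_28 : allI cD7k_0_c (rjL dJ cD7k_0_q rD7k_15_28) 6691 = true := by
  decide +kernel

theorem cD7k_0_k15_29 : allI cD7k_0_c (rjL dJ cD7k_0_q rD7k_15_29) 6693 = true := by
  decide +kernel

theorem cD7k_0_k15_30 : allI cD7k_0_c (rjL dJ cD7k_0_q rD7k_15_30) 6695 = true := by
  decide +kernel

theorem cD7k_0_k15_31 : allI cD7k_0_c (rjL dJ cD7k_0_q rD7k_15_31) 6696 = true := by
  decide +kernel

theorem cD7k_0_k15_32 : allI cD7k_0_c (rjL dJ cD7k_0_q rD7k_15_32) 6697 = true := by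
  decide +kernel

theorem cD7k_0_k15_33 : allI cD7k_0_c (rjL dJ cD7k_0_q rD7k_15_33) 6699 = true := by
  decide +kernel

theorem cD7k_0_k15_34 : allI cD7k_0_c (rjL dJ cD7k_0_q rD7k_15_34) 6701 = true := by
  decide +kernel

theorem cD7k_0_k15_35 : allI cD7k_0_c (rjL dJ cD7k_0_q rD7k_15_35) 6703 = true := by
  decide +kernel

theorem cD7k_0_k15_36 : allI cD7k_0_c (rjL dJ cD7k_0_q rD7k_15_36) 6704 = true := by
  decide +kernel

theorem cD7k_0_k15_37 : allI cD7k_0_c (rjL dJ cD7k_0_q rD7k_15_37) 6707 = true := by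
  decide +kernel

theorem cD7k_0_k15_38 : allI cD7k_0_c (rjL dJ cD7k_0_q rD7k_15_38) 6709 = true := by
  decide +kernel

theorem cD7k_0_k15_39 : allI cD7k_0_c (rjL dJ cD7k_0_q rD7k_15_39) 6711 = true := by
  decide +kernel

theorem cD7k_0_k15_40 : allI cD7k_0_c (rjL dJ cD7k_0_q rD7k_15_40) 6713 = true := by
  decide +kernel

theorem cD7k_0_k15_41 : allI cD7k_0_c (rjL dJ cD7k_0_q rD7k_15_41) 6715 = true := by
  decide +kernel

theorem cD7k_0_k15_42 : allI cD7k_0_c (rjL dJ cD7k_0_q rD7k_15_42) 6716 = true := by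
  decide +kernel

theorem cD7k_0_k15_43 : allI cD7k_0_c (rjL dJ cD7k_0_q rD7k_15_43) 6717 = true := by
  decide +kernel

theorem cD7k_0_k15_44 : allI cD7k_0_c (rjL dJ cD7k_0_q rD7k_15_44) 6718 = true := by
  decide +kernel

theorem cD7k_0_k15_45 : allI cD7k_0_c (rjL dJ cD7k_0_q rD7k_15_45) 6719 = true := by
  decide +kernel

/-- nodes -/
noncomputable def cD7k_0_n15 : List (QJ PN) :=
  rjL dJ cD7k_0_q rD7k_15_0 ++ (rjL dJ cD7k_0_q rD7k_15_1 ++ (rjL dJ cD7k_0_q rD7k_15_2 ++ (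
    rjL dJ cD7k_0_q rD7k_15_3 ++ (rjL dJ cD7k_0_q rD7k_15_4 ++ (rjL dJ cD7k_0_q rD7k_15_5 ++ (
    rjL dJ cD7k_0_q rD7k_15_6 ++ (rjL dJ cD7k_0_q rD7k_15_7 ++ (rjL dJ cD7k_0_q rD7k_15_8 ++ (
    rjL dJ cD7k_0_q rD7k_15_9 ++ (rjL dJ cD7k_0_q rD7k_15_10 ++ (rjL dJ cD7k_0_q rD7k_15_11 ++ (
    rjL dJ cD7k_0_q rD7k_15_12 ++ (rjL dJ cD7k_0_q rD7k_15_13 ++ (rjL dJ cD7k_0_q rD7k_15_14 ++ (
    rjL dJ cD7k_0_q rD7k_15_15 ++ (rjL dJ cD7k_0_q rD7k_15_16 ++ (rjL dJ cD7k_0_q rD7k_15_17 ++ (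
    rjL dJ cD7k_0_q rD7k_15_18 ++ (rjL dJ cD7k_0_q rD7k_15_19 ++ (rjL dJ cD7k_0_q rD7k_15_20 ++ (
    rjL dJ cD7k_0_q rD7k_15_21 ++ (rjL dJ cD7k_0_q rD7k_15_22 ++ (rjL dJ cD7k_0_q rD7k_15_23 ++ (
    rjL dJ cD7k_0_q rD7k_15_24 ++ (rjL dJ cD7k_0_q rD7k_15_25 ++ (rjL dJ cD7k_0_q rD7k_15_26 ++ (
    rjL dJ cD7k_0_q rD7k_15_27 ++ (rjL dJ cD7k_0_q rD7k_15_28 ++ (rjL dJ cD7k_0_q rD7k_15_29 ++ (
    rjL dJ cD7k_0_q rD7k_15_30 ++ (rjL dJ cD7k_0_q rD7k_15_31 ++ (rjL dJ cD7k_0_q rD7k_15_32 ++ (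
    rjL dJ cD7k_0_q rD7k_15_33 ++ (rjL dJ cD7k_0_q rD7k_15_34 ++ (rjL dJ cD7k_0_q rD7k_15_35 ++ (
    rjL dJ cD7k_0_q rD7k_15_36 ++ (rjL dJ cD7k_0_q rD7k_15_37 ++ (rjL dJ cD7k_0_q rD7k_15_38 ++ (
    rjL dJ cD7k_0_q rD7k_15_39 ++ (rjL dJ cD7k_0_q rD7k_15_40 ++ (rjL dJ cD7k_0_q rD7k_15_41 ++ (
    rjL dJ cD7k_0_q rD7k_15_42 ++ (rjL dJ cD7k_0_q rD7k_15_43 ++ (rjL dJ cD7k_0_q rD7k_15_44 ++
    rjL dJ cD7k_0_q rD7k_15_45))))))))))))))))))))))))))))))))))))))))))))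

theorem cD7k_0_k15 : allI cD7k_0_c cD7k_0_n15 6644 = true := by
  refine allI_appQ (k := 1) cD7k_0_k15_0 (by decide +kernel) ?_
  refine allI_appQ (k := 2) cD7k_0_k15_1 (by decide +kernel) ?_
  refine allI_appQ (k := 1) cD7k_0_k15_2 (by decide +kernel) ?_
  refine allI_appQ (k := 1) cD7k_0_k15_3 (by decide +kernel) ?_
  refine allI_appQ (k := 2) cD7k_0_k15_4 (by decide +kernel) ?_
  refine allI_appQ (k := 2) cD7k_0_k15_5 (by decide +kernel) ?_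
  refine allI_appQ (k := 2) cD7k_0_k15_6 (by decide +kernel) ?_
  refine allI_appQ (k := 1) cD7k_0_k15_7 (by decide +kernel) ?_
  refine allI_appQ (k := 1) cD7k_0_k15_8 (by decide +kernel) ?_
  refine allI_appQ (k := 1) cD7k_0_k15_9 (by decide +kernel) ?_
  refine allI_appQ (k := 1) cD7k_0_k15_10 (by decide +kernel) ?_
  refine allI_appQ (k := 1) cD7k_0_k15_11 (by decide +kernel) ?_
  refine allI_appQ (k := 1) cD7k_0_k15_12 (by decide +kernel) ?_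
  refine allI_appQ (k := 3) cD7k_0_k15_13 (by decide +kernel) ?_
  refine allI_appQ (k := 2) cD7k_0_k15_14 (by decide +kernel) ?_
  refine allI_appQ (k := 2) cD7k_0_k15_15 (by decide +kernel) ?_
  refine allI_appQ (k := 2) cD7k_0_k15_16 (by decide +kernel) ?_
  refine allI_appQ (k := 2) cD7k_0_k15_17 (by decide +kernel) ?_
  refine allI_appQ (k := 1) cD7k_0_k15_18 (by decide +kernel) ?_
  refine allI_appQ (k := 2) cD7k_0_k15_19 (by decide +kernel) ?_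
  refine allI_appQ (k := 2) cD7k_0_k15_20 (by decide +kernel) ?_
  refine allI_appQ (k := 2) cD7k_0_k15_21 (by decide +kernel) ?_
  refine allI_appQ (k := 2) cD7k_0_k15_22 (by decide +kernel) ?_
  refine allI_appQ (k := 2) cD7k_0_k15_23 (by decide +kernel) ?_
  refine allI_appQ (k := 2) cD7k_0_k15_24 (by decide +kernel) ?_
  refine allI_appQ (k := 2) cD7k_0_k15_25 (by decide +kernel) ?_
  refine allI_appQ (k := 2) cD7k_0_k15_26 (by decide +kernel) ?_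
  refine allI_appQ (k := 2) cD7k_0_k15_27 (by decide +kernel) ?_
  refine allI_appQ (k := 2) cD7k_0_k15_28 (by decide +kernel) ?_
  refine allI_appQ (k := 2) cD7k_0_k15_29 (by decide +kernel) ?_
  refine allI_appQ (k := 1) cD7k_0_k15_30 (by decide +kernel) ?_
  refine allI_appQ (k := 1) cD7k_0_k15_31 (by decide +kernel) ?_
  refine allI_appQ (k := 2) cD7k_0_k15_32 (by decide +kernel) ?_
  refine allI_appQ (k := 2) cD7k_0_k15_33 (by decide +kernel) ?_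
  refine allI_appQ (k := 2) cD7k_0_k15_34 (by decide +kernel) ?_
  refine allI_appQ (k := 1) cD7k_0_k15_35 (by decide +kernel) ?_
  refine allI_appQ (k := 3) cD7k_0_k15_36 (by decide +kernel) ?_
  refine allI_appQ (k := 2) cD7k_0_k15_37 (by decide +kernel) ?_
  refine allI_appQ (k := 2) cD7k_0_k15_38 (by decide +kernel) ?_
  refine allI_appQ (k := 2) cD7k_0_k15_39 (by decide +kernel) ?_
  refine allI_appQ (k := 2) cD7k_0_k15_40 (by decide +kernel) ?_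
  refine allI_appQ (k := 1) cD7k_0_k15_41 (by decide +kernel) ?_
  refine allI_appQ (k := 1) cD7k_0_k15_42 (by decide +kernel) ?_
  refine allI_appQ (k := 1) cD7k_0_k15_43 (by decide +kernel) ?_
  refine allI_appQ (k := 1) cD7k_0_k15_44 (by decide +kernel) ?_
  exact cD7k_0_k15_45

theorem cD7k_0_l15 : cD7k_0_n15.length = 76 := by
  decide +kernel

end Pool.Agent.Lib_MP_fa6e45
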