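import Pool.Agent.Lib_MP_fa6e45.DQ7k_0d
import Pool.Agent.Lib_MP_fa6e45.RD7k_17

/-!
MP_fa6e45_co, stage 9: straight-side patterns with `7` sides, part of a certificate (generated by a program).
-/

namespace Pool.Agent.Lib_MP_fa6e45

theorem cD7k_0_k17_0 : allI cD7k_0_c (rjL dJ cD7k_0_q rD7k_17_0) 6802 = true := by
  decide +kernel

theorem cD7k_0_k17_1 : allI cD7k_0_c (rjL dJ cD7k_0_q rD7k_17_1) 6804 = true := by
  decide +kernel

theorem cD7k_0_k17_2 : allI cD7k_0_c (rjL dJ cD7k_0_q rD7k_17_2) 6806 = true := by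
  decide +kernel

theorem cD7k_0_k17_3 : allI cD7k_0_c (rjL dJ cD7k_0_q rD7k_17_3) 6808 = true := by
  decide +kernel

theorem cD7k_0_k17_4 : allI cD7k_0_c (rjL dJ cD7k_0_q rD7k_17_4) 6809 = true := by
  decide +kernel

theorem cD7k_0_k17_5 : allI cD7k_0_c (rjL dJ cD7k_0_q rD7k_17_5) 6810 = true := by
  decide +kernel

theorem cD7k_0_k17_6 : allI cD7k_0_c (rjL dJ cD7k_0_q rD7k_17_6) 6812 = true := by
  decide +kernel

theorem cD7k_0_k17_7 : allI cD7k_0_c (rjL dJ cD7k_0_q rD7k_17_7) 6814 = true := by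
  decide +kernel

theorem cD7k_0_k17_8 : allI cD7k_0_c (rjL dJ cD7k_0_q rD7k_17_8) 6816 = true := by
  decide +kernel

theorem cD7k_0_k17_9 : allI cD7k_0_c (rjL dJ cD7k_0_q rD7k_17_9) 6818 = true := by
  decide +kernel

theorem cD7k_0_k17_10 : allI cD7k_0_c (rjL dJ cD7k_0_q rD7k_17_10) 6820 = true := by
  decide +kernel

theorem cD7k_0_k17_11 : allI cD7k_0_c (rjL dJ cD7k_0_q rD7k_17_11) 6822 = true := by
  decide +kernel

theorem cD7k_0_k17_12 : allI cD7k_0_c (rjL dJ cD7k_0_q rD7k_17_12) 6823 = true := by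
  decide +kernel

theorem cD7k_0_k17_13 : allI cD7k_0_c (rjL dJ cD7k_0_q rD7k_17_13) 6825 = true := by
  decide +kernel

theorem cD7k_0_k17_14 : allI cD7k_0_c (rjL dJ cD7k_0_q rD7k_17_14) 6827 = true := by
  decide +kernel

theorem cD7k_0_k17_15 : allI cD7k_0_c (rjL dJ cD7k_0_q rD7k_17_15) 6829 = true := by
  decide +kernel

theorem cD7k_0_k17_16 : allI cD7k_0_c (rjL dJ cD7k_0_q rD7k_17_16) 6831 = true := by
  decide +kernel

theorem cD7k_0_k17_17 : allI cD7k_0_c (rjL dJ cD7k_0_q rD7k_17_17) 6833 = true := by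
  decide +kernel

theorem cD7k_0_k17_18 : allI cD7k_0_c (rjL dJ cD7k_0_q rD7k_17_18) 6835 = true := by
  decide +kernel

theorem cD7k_0_k17_19 : allI cD7k_0_c (rjL dJ cD7k_0_q rD7k_17_19) 6836 = true := by
  decide +kernel

theorem cD7k_0_k17_20 : allI cD7k_0_c (rjL dJ cD7k_0_q rD7k_17_20) 6837 = true := by
  decide +kernel

theorem cD7k_0_k17_21 : allI cD7k_0_c (rjL dJ cD7k_0_q rD7k_17_21) 6838 = true := by
  decide +kernel

theorem cD7k_0_k17_22 : allI cD7k_0_c (rjL dJ cD7k_0_q rD7k_17_22) 6839 = true := by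
  decide +kernel

theorem cD7k_0_k17_23 : allI cD7k_0_c (rjL dJ cD7k_0_q rD7k_17_23) 6841 = true := by
  decide +kernel

theorem cD7k_0_k17_24 : allI cD7k_0_c (rjL dJ cD7k_0_q rD7k_17_24) 6843 = true := by
  decide +kernel

theorem cD7k_0_k17_25 : allI cD7k_0_c (rjL dJ cD7k_0_q rD7k_17_25) 6845 = true := by
  decide +kernel

theorem cD7k_0_k17_26 : allI cD7k_0_c (rjL dJ cD7k_0_q rD7k_17_26) 6847 = true := by
  decide +kernel

theorem cD7k_0_k17_27 : allI cD7k_0_c (rjL dJ cD7k_0_q rD7k_17_27) 6849 = true := by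
  decide +kernel

theorem cD7k_0_k17_28 : allI cD7k_0_c (rjL dJ cD7k_0_q rD7k_17_28) 6851 = true := by
  decide +kernel

theorem cD7k_0_k17_29 : allI cD7k_0_c (rjL dJ cD7k_0_q rD7k_17_29) 6852 = true := by
  decide +kernel

theorem cD7k_0_k17_30 : allI cD7k_0_c (rjL dJ cD7k_0_q rD7k_17_30) 6853 = true := by
  decide +kernel

theorem cD7k_0_k17_31 : allI cD7k_0_c (rjL dJ cD7k_0_q rD7k_17_31) 6854 = true := by
  decide +kernel

theorem cD7k_0_k17_32 : allI cD7k_0_c (rjL dJ cD7k_0_q rD7k_17_32) 6856 = true := by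
  decide +kernel

theorem cD7k_0_k17_33 : allI cD7k_0_c (rjL dJ cD7k_0_q rD7k_17_33) 6858 = true := by
  decide +kernel

theorem cD7k_0_k17_34 : allI cD7k_0_c (rjL dJ cD7k_0_q rD7k_17_34) 6860 = true := by
  decide +kernel

theorem cD7k_0_k17_35 : allI cD7k_0_c (rjL dJ cD7k_0_q rD7k_17_35) 6862 = true := by
  decide +kernel

theorem cD7k_0_k17_36 : allI cD7k_0_c (rjL dJ cD7k_0_q rD7k_17_36) 6864 = true := by
  decide +kernel

theorem cD7k_0_k17_37 : allI cD7k_0_c (rjL dJ cD7k_0_q rD7k_17_37) 6866 = true := by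
  decide +kernel

theorem cD7k_0_k17_38 : allI cD7k_0_c (rjL dJ cD7k_0_q rD7k_17_38) 6868 = true := by
  decide +kernel

theorem cD7k_0_k17_39 : allI cD7k_0_c (rjL dJ cD7k_0_q rD7k_17_39) 6870 = true := by
  decide +kernel

theorem cD7k_0_k17_40 : allI cD7k_0_c (rjL dJ cD7k_0_q rD7k_17_40) 6872 = true := by
  decide +kernel

theorem cD7k_0_k17_41 : allI cD7k_0_c (rjL dJ cD7k_0_q rD7k_17_41) 6874 = true := by
  decide +kernel

theorem cD7k_0_k17_42 : allI cD7k_0_c (rjL dJ cD7k_0_q rD7k_17_42) 6876 = true := by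
  decide +kernel

theorem cD7k_0_k17_43 : allI cD7k_0_c (rjL dJ cD7k_0_q rD7k_17_43) 6878 = true := by
  decide +kernel

theorem cD7k_0_k17_44 : allI cD7k_0_c (rjL dJ cD7k_0_q rD7k_17_44) 6880 = true := by
  decide +kernel

theorem cD7k_0_k17_45 : allI cD7k_0_c (rjL dJ cD7k_0_q rD7k_17_45) 6882 = true := by
  decide +kernel

theorem cD7k_0_k17_46 : allI cD7k_0_c (rjL dJ cD7k_0_q rD7k_17_46) 6884 = true := by
  decide +kernel

theorem cD7k_0_k17_47 : allI cD7k_0_c (rjL dJ cD7k_0_q rD7k_17_47) 6886 = true := by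
  decide +kernel

/-- nodes -/
noncomputable def cD7k_0_n17 : List (QJ PN) :=
  rjL dJ cD7k_0_q rD7k_17_0 ++ (rjL dJ cD7k_0_q rD7k_17_1 ++ (rjL dJ cD7k_0_q rD7k_17_2 ++ (
    rjL dJ cD7k_0_q rD7k_17_3 ++ (rjL dJ cD7k_0_q rD7k_17_4 ++ (rjL dJ cD7k_0_q rD7k_17_5 ++ (
    rjL dJ cD7k_0_q rD7k_17_6 ++ (rjL dJ cD7k_0_q rD7k_17_7 ++ (rjL dJ cD7k_0_q rD7k_17_8 ++ (
    rjL dJ cD7k_0_q rD7k_17_9 ++ (rjL dJ cD7k_0_q rD7k_17_10 ++ (rjL dJ cD7k_0_q rD7k_17_11 ++ (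
    rjL dJ cD7k_0_q rD7k_17_12 ++ (rjL dJ cD7k_0_q rD7k_17_13 ++ (rjL dJ cD7k_0_q rD7k_17_14 ++ (
    rjL dJ cD7k_0_q rD7k_17_15 ++ (rjL dJ cD7k_0_q rD7k_17_16 ++ (rjL dJ cD7k_0_q rD7k_17_17 ++ (
    rjL dJ cD7k_0_q rD7k_17_18 ++ (rjL dJ cD7k_0_q rD7k_17_19 ++ (rjL dJ cD7k_0_q rD7k_17_20 ++ (
    rjL dJ cD7k_0_q rD7k_17_21 ++ (rjL dJ cD7k_0_q rD7k_17_22 ++ (rjL dJ cD7k_0_q rD7k_17_23 ++ (
    rjL dJ cD7k_0_q rD7k_17_24 ++ (rjL dJ cD7k_0_q rD7k_17_25 ++ (rjL dJ cD7k_0_q rD7k_17_26 ++ (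
    rjL dJ cD7k_0_q rD7k_17_27 ++ (rjL dJ cD7k_0_q rD7k_17_28 ++ (rjL dJ cD7k_0_q rD7k_17_29 ++ (
    rjL dJ cD7k_0_q rD7k_17_30 ++ (rjL dJ cD7k_0_q rD7k_17_31 ++ (rjL dJ cD7k_0_q rD7k_17_32 ++ (
    rjL dJ cD7k_0_q rD7k_17_33 ++ (rjL dJ cD7k_0_q rD7k_17_34 ++ (rjL dJ cD7k_0_q rD7k_17_35 ++ (
    rjL dJ cD7k_0_q rD7k_17_36 ++ (rjL dJ cD7k_0_q rD7k_17_37 ++ (rjL dJ cD7k_0_q rD7k_17_38 ++ (
    rjL dJ cD7k_0_q rD7k_17_39 ++ (rjL dJ cD7k_0_q rD7k_17_40 ++ (rjL dJ cD7k_0_q rD7k_17_41 ++ (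
    rjL dJ cD7k_0_q rD7k_17_42 ++ (rjL dJ cD7k_0_q rD7k_17_43 ++ (rjL dJ cD7k_0_q rD7k_17_44 ++ (
    rjL dJ cD7k_0_q rD7k_17_45 ++ (rjL dJ cD7k_0_q rD7k_17_46 ++
    rjL dJ cD7k_0_q rD7k_17_47))))))))))))))))))))))))))))))))))))))))))))))

theorem cD7k_0_k17 : allI cD7k_0_c cD7k_0_n17 6802 = true := by
  refine allI_appQ (k := 2) cD7k_0_k17_0 (by decide +kernel) ?_
  refine allI_appQ (k := 2) cD7k_0_k17_1 (by decide +kernel) ?_
  refine allI_appQ (k := 2) cD7k_0_k17_2 (by decide +kernel) ?_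
  refine allI_appQ (k := 1) cD7k_0_k17_3 (by decide +kernel) ?_
  refine allI_appQ (k := 1) cD7k_0_k17_4 (by decide +kernel) ?_
  refine allI_appQ (k := 2) cD7k_0_k17_5 (by decide +kernel) ?_
  refine allI_appQ (k := 2) cD7k_0_k17_6 (by decide +kernel) ?_
  refine allI_appQ (k := 2) cD7k_0_k17_7 (by decide +kernel) ?_
  refine allI_appQ (k := 2) cD7k_0_k17_8 (by decide +kernel) ?_
  refine allI_appQ (k := 2) cD7k_0_k17_9 (by decide +kernel) ?_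
  refine allI_appQ (k := 2) cD7k_0_k17_10 (by decide +kernel) ?_
  refine allI_appQ (k := 1) cD7k_0_k17_11 (by decide +kernel) ?_
  refine allI_appQ (k := 2) cD7k_0_k17_12 (by decide +kernel) ?_
  refine allI_appQ (k := 2) cD7k_0_k17_13 (by decide +kernel) ?_
  refine allI_appQ (k := 2) cD7k_0_k17_14 (by decide +kernel) ?_
  refine allI_appQ (k := 2) cD7k_0_k17_15 (by decide +kernel) ?_
  refine allI_appQ (k := 2) cD7k_0_k17_16 (by decide +kernel) ?_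
  refine allI_appQ (k := 2) cD7k_0_k17_17 (by decide +kernel) ?_
  refine allI_appQ (k := 1) cD7k_0_k17_18 (by decide +kernel) ?_
  refine allI_appQ (k := 1) cD7k_0_k17_19 (by decide +kernel) ?_
  refine allI_appQ (k := 1) cD7k_0_k17_20 (by decide +kernel) ?_
  refine allI_appQ (k := 1) cD7k_0_k17_21 (by decide +kernel) ?_
  refine allI_appQ (k := 2) cD7k_0_k17_22 (by decide +kernel) ?_
  refine allI_appQ (k := 2) cD7k_0_k17_23 (by decide +kernel) ?_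
  refine allI_appQ (k := 2) cD7k_0_k17_24 (by decide +kernel) ?_
  refine allI_appQ (k := 2) cD7k_0_k17_25 (by decide +kernel) ?_
  refine allI_appQ (k := 2) cD7k_0_k17_26 (by decide +kernel) ?_
  refine allI_appQ (k := 2) cD7k_0_k17_27 (by decide +kernel) ?_
  refine allI_appQ (k := 1) cD7k_0_k17_28 (by decide +kernel) ?_
  refine allI_appQ (k := 1) cD7k_0_k17_29 (by decide +kernel) ?_
  refine allI_appQ (k := 1) cD7k_0_k17_30 (by decide +kernel) ?_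
  refine allI_appQ (k := 2) cD7k_0_k17_31 (by decide +kernel) ?_
  refine allI_appQ (k := 2) cD7k_0_k17_32 (by decide +kernel) ?_
  refine allI_appQ (k := 2) cD7k_0_k17_33 (by decide +kernel) ?_
  refine allI_appQ (k := 2) cD7k_0_k17_34 (by decide +kernel) ?_
  refine allI_appQ (k := 2) cD7k_0_k17_35 (by decide +kernel) ?_
  refine allI_appQ (k := 2) cD7k_0_k17_36 (by decide +kernel) ?_
  refine allI_appQ (k := 2) cD7k_0_k17_37 (by decide +kernel) ?_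
  refine allI_appQ (k := 2) cD7k_0_k17_38 (by decide +kernel) ?_
  refine allI_appQ (k := 2) cD7k_0_k17_39 (by decide +kernel) ?_
  refine allI_appQ (k := 2) cD7k_0_k17_40 (by decide +kernel) ?_
  refine allI_appQ (k := 2) cD7k_0_k17_41 (by decide +kernel) ?_
  refine allI_appQ (k := 2) cD7k_0_k17_42 (by decide +kernel) ?_
  refine allI_appQ (k := 2) cD7k_0_k17_43 (by decide +kernel) ?_
  refine allI_appQ (k := 2) cD7k_0_k17_44 (by decide +kernel) ?_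
  refine allI_appQ (k := 2) cD7k_0_k17_45 (by decide +kernel) ?_
  refine allI_appQ (k := 2) cD7k_0_k17_46 (by decide +kernel) ?_
  exact cD7k_0_k17_47

theorem cD7k_0_l17 : cD7k_0_n17.length = 85 := by
  decide +kernel

end Pool.Agent.Lib_MP_fa6e45
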