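import Pool.Agent.Lib_MP_fa6e45.DQ7k_0d
import Pool.Agent.Lib_MP_fa6e45.RD7k_18

/-!
MP_fa6e45_co, stage 9: straight-side patterns with `7` sides, part of a certificate (generated by a program).
-/

namespace Pool.Agent.Lib_MP_fa6e45

theorem cD7k_0_k18_0 : allI cD7k_0_c (rjL dJ cD7k_0_q rD7k_18_0) 6887 = true := by
  decide +kernel

theorem cD7k_0_k18_1 : allI cD7k_0_c (rjL dJ cD7k_0_q rD7k_18_1) 6889 = true := by
  decide +kernel

theorem cD7k_0_k18_2 : allI cD7k_0_c (rjL dJ cD7k_0_q rD7k_18_2) 6892 = true := by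
  decide +kernel

theorem cD7k_0_k18_3 : allI cD7k_0_c (rjL dJ cD7k_0_q rD7k_18_3) 6893 = true := by
  decide +kernel

theorem cD7k_0_k18_4 : allI cD7k_0_c (rjL dJ cD7k_0_q rD7k_18_4) 6894 = true := by
  decide +kernel

theorem cD7k_0_k18_5 : allI cD7k_0_c (rjL dJ cD7k_0_q rD7k_18_5) 6895 = true := by
  decide +kernel

theorem cD7k_0_k18_6 : allI cD7k_0_c (rjL dJ cD7k_0_q rD7k_18_6) 6897 = true := by
  decide +kernel

theorem cD7k_0_k18_7 : allI cD7k_0_c (rjL dJ cD7k_0_q rD7k_18_7) 6899 = true := by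
  decide +kernel

theorem cD7k_0_k18_8 : allI cD7k_0_c (rjL dJ cD7k_0_q rD7k_18_8) 6901 = true := by
  decide +kernel

theorem cD7k_0_k18_9 : allI cD7k_0_c (rjL dJ cD7k_0_q rD7k_18_9) 6903 = true := by
  decide +kernel

theorem cD7k_0_k18_10 : allI cD7k_0_c (rjL dJ cD7k_0_q rD7k_18_10) 6905 = true := by
  decide +kernel

theorem cD7k_0_k18_11 : allI cD7k_0_c (rjL dJ cD7k_0_q rD7k_18_11) 6907 = true := by
  decide +kernel

theorem cD7k_0_k18_12 : allI cD7k_0_c (rjL dJ cD7k_0_q rD7k_18_12) 6910 = true := by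
  decide +kernel

theorem cD7k_0_k18_13 : allI cD7k_0_c (rjL dJ cD7k_0_q rD7k_18_13) 6912 = true := by
  decide +kernel

theorem cD7k_0_k18_14 : allI cD7k_0_c (rjL dJ cD7k_0_q rD7k_18_14) 6915 = true := by
  decide +kernel

theorem cD7k_0_k18_15 : allI cD7k_0_c (rjL dJ cD7k_0_q rD7k_18_15) 6918 = true := by
  decide +kernel

theorem cD7k_0_k18_16 : allI cD7k_0_c (rjL dJ cD7k_0_q rD7k_18_16) 6920 = true := by
  decide +kernel

theorem cD7k_0_k18_17 : allI cD7k_0_c (rjL dJ cD7k_0_q rD7k_18_17) 6922 = true := by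
  decide +kernel

theorem cD7k_0_k18_18 : allI cD7k_0_c (rjL dJ cD7k_0_q rD7k_18_18) 6924 = true := by
  decide +kernel

theorem cD7k_0_k18_19 : allI cD7k_0_c (rjL dJ cD7k_0_q rD7k_18_19) 6926 = true := by
  decide +kernel

theorem cD7k_0_k18_20 : allI cD7k_0_c (rjL dJ cD7k_0_q rD7k_18_20) 6927 = true := by
  decide +kernel

theorem cD7k_0_k18_21 : allI cD7k_0_c (rjL dJ cD7k_0_q rD7k_18_21) 6928 = true := by
  decide +kernel

theorem cD7k_0_k18_22 : allI cD7k_0_c (rjL dJ cD7k_0_q rD7k_18_22) 6931 = true := by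
  decide +kernel

theorem cD7k_0_k18_23 : allI cD7k_0_c (rjL dJ cD7k_0_q rD7k_18_23) 6933 = true := by
  decide +kernel

theorem cD7k_0_k18_24 : allI cD7k_0_c (rjL dJ cD7k_0_q rD7k_18_24) 6934 = true := by
  decide +kernel

theorem cD7k_0_k18_25 : allI cD7k_0_c (rjL dJ cD7k_0_q rD7k_18_25) 6936 = true := by
  decide +kernel

theorem cD7k_0_k18_26 : allI cD7k_0_c (rjL dJ cD7k_0_q rD7k_18_26) 6939 = true := by
  decide +kernel

theorem cD7k_0_k18_27 : allI cD7k_0_c (rjL dJ cD7k_0_q rD7k_18_27) 6941 = true := by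
  decide +kernel

theorem cD7k_0_k18_28 : allI cD7k_0_c (rjL dJ cD7k_0_q rD7k_18_28) 6943 = true := by
  decide +kernel

theorem cD7k_0_k18_29 : allI cD7k_0_c (rjL dJ cD7k_0_q rD7k_18_29) 6945 = true := by
  decide +kernel

theorem cD7k_0_k18_30 : allI cD7k_0_c (rjL dJ cD7k_0_q rD7k_18_30) 6947 = true := by
  decide +kernel

theorem cD7k_0_k18_31 : allI cD7k_0_c (rjL dJ cD7k_0_q rD7k_18_31) 6949 = true := by
  decide +kernel

theorem cD7k_0_k18_32 : allI cD7k_0_c (rjL dJ cD7k_0_q rD7k_18_32) 6951 = true := by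
  decide +kernel

theorem cD7k_0_k18_33 : allI cD7k_0_c (rjL dJ cD7k_0_q rD7k_18_33) 6954 = true := by
  decide +kernel

theorem cD7k_0_k18_34 : allI cD7k_0_c (rjL dJ cD7k_0_q rD7k_18_34) 6956 = true := by
  decide +kernel

theorem cD7k_0_k18_35 : allI cD7k_0_c (rjL dJ cD7k_0_q rD7k_18_35) 6958 = true := by
  decide +kernel

theorem cD7k_0_k18_36 : allI cD7k_0_c (rjL dJ cD7k_0_q rD7k_18_36) 6960 = true := by
  decide +kernel

theorem cD7k_0_k18_37 : allI cD7k_0_c (rjL dJ cD7k_0_q rD7k_18_37) 6962 = true := by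
  decide +kernel

theorem cD7k_0_k18_38 : allI cD7k_0_c (rjL dJ cD7k_0_q rD7k_18_38) 6963 = true := by
  decide +kernel

theorem cD7k_0_k18_39 : allI cD7k_0_c (rjL dJ cD7k_0_q rD7k_18_39) 6964 = true := by
  decide +kernel

theorem cD7k_0_k18_40 : allI cD7k_0_c (rjL dJ cD7k_0_q rD7k_18_40) 6966 = true := by
  decide +kernel

/-- nodes -/
noncomputable def cD7k_0_n18 : List (QJ PN) :=
  rjL dJ cD7k_0_q rD7k_18_0 ++ (rjL dJ cD7k_0_q rD7k_18_1 ++ (rjL dJ cD7k_0_q rD7k_18_2 ++ (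
    rjL dJ cD7k_0_q rD7k_18_3 ++ (rjL dJ cD7k_0_q rD7k_18_4 ++ (rjL dJ cD7k_0_q rD7k_18_5 ++ (
    rjL dJ cD7k_0_q rD7k_18_6 ++ (rjL dJ cD7k_0_q rD7k_18_7 ++ (rjL dJ cD7k_0_q rD7k_18_8 ++ (
    rjL dJ cD7k_0_q rD7k_18_9 ++ (rjL dJ cD7k_0_q rD7k_18_10 ++ (rjL dJ cD7k_0_q rD7k_18_11 ++ (
    rjL dJ cD7k_0_q rD7k_18_12 ++ (rjL dJ cD7k_0_q rD7k_18_13 ++ (rjL dJ cD7k_0_q rD7k_18_14 ++ (
    rjL dJ cD7k_0_q rD7k_18_15 ++ (rjL dJ cD7k_0_q rD7k_18_16 ++ (rjL dJ cD7k_0_q rD7k_18_17 ++ (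
    rjL dJ cD7k_0_q rD7k_18_18 ++ (rjL dJ cD7k_0_q rD7k_18_19 ++ (rjL dJ cD7k_0_q rD7k_18_20 ++ (
    rjL dJ cD7k_0_q rD7k_18_21 ++ (rjL dJ cD7k_0_q rD7k_18_22 ++ (rjL dJ cD7k_0_q rD7k_18_23 ++ (
    rjL dJ cD7k_0_q rD7k_18_24 ++ (rjL dJ cD7k_0_q rD7k_18_25 ++ (rjL dJ cD7k_0_q rD7k_18_26 ++ (
    rjL dJ cD7k_0_q rD7k_18_27 ++ (rjL dJ cD7k_0_q rD7k_18_28 ++ (rjL dJ cD7k_0_q rD7k_18_29 ++ (
    rjL dJ cD7k_0_q rD7k_18_30 ++ (rjL dJ cD7k_0_q rD7k_18_31 ++ (rjL dJ cD7k_0_q rD7k_18_32 ++ (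
    rjL dJ cD7k_0_q rD7k_18_33 ++ (rjL dJ cD7k_0_q rD7k_18_34 ++ (rjL dJ cD7k_0_q rD7k_18_35 ++ (
    rjL dJ cD7k_0_q rD7k_18_36 ++ (rjL dJ cD7k_0_q rD7k_18_37 ++ (rjL dJ cD7k_0_q rD7k_18_38 ++ (
    rjL dJ cD7k_0_q rD7k_18_39 ++ rjL dJ cD7k_0_q rD7k_18_40)))))))))))))))))))))))))))))))))))))))

theorem cD7k_0_k18 : allI cD7k_0_c cD7k_0_n18 6887 = true := by
  refine allI_appQ (k := 2) cD7k_0_k18_0 (by decide +kernel) ?_
  refine allI_appQ (k := 3) cD7k_0_k18_1 (by decide +kernel) ?_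
  refine allI_appQ (k := 1) cD7k_0_k18_2 (by decide +kernel) ?_
  refine allI_appQ (k := 1) cD7k_0_k18_3 (by decide +kernel) ?_
  refine allI_appQ (k := 1) cD7k_0_k18_4 (by decide +kernel) ?_
  refine allI_appQ (k := 2) cD7k_0_k18_5 (by decide +kernel) ?_
  refine allI_appQ (k := 2) cD7k_0_k18_6 (by decide +kernel) ?_
  refine allI_appQ (k := 2) cD7k_0_k18_7 (by decide +kernel) ?_
  refine allI_appQ (k := 2) cD7k_0_k18_8 (by decide +kernel) ?_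
  refine allI_appQ (k := 2) cD7k_0_k18_9 (by decide +kernel) ?_
  refine allI_appQ (k := 2) cD7k_0_k18_10 (by decide +kernel) ?_
  refine allI_appQ (k := 3) cD7k_0_k18_11 (by decide +kernel) ?_
  refine allI_appQ (k := 2) cD7k_0_k18_12 (by decide +kernel) ?_
  refine allI_appQ (k := 3) cD7k_0_k18_13 (by decide +kernel) ?_
  refine allI_appQ (k := 3) cD7k_0_k18_14 (by decide +kernel) ?_
  refine allI_appQ (k := 2) cD7k_0_k18_15 (by decide +kernel) ?_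
  refine allI_appQ (k := 2) cD7k_0_k18_16 (by decide +kernel) ?_
  refine allI_appQ (k := 2) cD7k_0_k18_17 (by decide +kernel) ?_
  refine allI_appQ (k := 2) cD7k_0_k18_18 (by decide +kernel) ?_
  refine allI_appQ (k := 1) cD7k_0_k18_19 (by decide +kernel) ?_
  refine allI_appQ (k := 1) cD7k_0_k18_20 (by decide +kernel) ?_
  refine allI_appQ (k := 3) cD7k_0_k18_21 (by decide +kernel) ?_
  refine allI_appQ (k := 2) cD7k_0_k18_22 (by decide +kernel) ?_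
  refine allI_appQ (k := 1) cD7k_0_k18_23 (by decide +kernel) ?_
  refine allI_appQ (k := 2) cD7k_0_k18_24 (by decide +kernel) ?_
  refine allI_appQ (k := 3) cD7k_0_k18_25 (by decide +kernel) ?_
  refine allI_appQ (k := 2) cD7k_0_k18_26 (by decide +kernel) ?_
  refine allI_appQ (k := 2) cD7k_0_k18_27 (by decide +kernel) ?_
  refine allI_appQ (k := 2) cD7k_0_k18_28 (by decide +kernel) ?_
  refine allI_appQ (k := 2) cD7k_0_k18_29 (by decide +kernel) ?_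
  refine allI_appQ (k := 2) cD7k_0_k18_30 (by decide +kernel) ?_
  refine allI_appQ (k := 2) cD7k_0_k18_31 (by decide +kernel) ?_
  refine allI_appQ (k := 3) cD7k_0_k18_32 (by decide +kernel) ?_
  refine allI_appQ (k := 2) cD7k_0_k18_33 (by decide +kernel) ?_
  refine allI_appQ (k := 2) cD7k_0_k18_34 (by decide +kernel) ?_
  refine allI_appQ (k := 2) cD7k_0_k18_35 (by decide +kernel) ?_
  refine allI_appQ (k := 2) cD7k_0_k18_36 (by decide +kernel) ?_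
  refine allI_appQ (k := 1) cD7k_0_k18_37 (by decide +kernel) ?_
  refine allI_appQ (k := 1) cD7k_0_k18_38 (by decide +kernel) ?_
  refine allI_appQ (k := 2) cD7k_0_k18_39 (by decide +kernel) ?_
  exact cD7k_0_k18_40

theorem cD7k_0_l18 : cD7k_0_n18.length = 80 := by
  decide +kernel

end Pool.Agent.Lib_MP_fa6e45
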