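import Pool.Agent.Lib_MP_fa6e45.RJ0

/-!
MP_fa6e45_co, stage 9: straight-side patterns with `7` sides, raw data (generated by a program).
-/

namespace Pool.Agent.Lib_MP_fa6e45

/-- nodes -/
noncomputable def rD7k_19_0 : List RJ :=
  [.s (nat_lit 17) (nat_lit 0x5000) (nat_lit 4) (nat_lit 0x2680000026800000222000002220000025600000256000001ee000001ee0000026800000268000002cc000002cc000001fa000001fa0) (nat_lit 0x6400000064000000aa000000aa0000007600000076000000de000000de00000064000000640000000000000000000000d2000000d20)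
    (nat_lit 0x10200810037c01be00f5007c80314018a00ea007600520027800cb005f803e8020400df006f803e401f200c500658040802040140009a0032c01a200df006f802f0018800d0006b00288014400df006f8042c022200a8004e0037c01be00bc005e0032001ac009a00510037c01be01050085802a0015000f9007c8035801ac00f00078002f0019400ff0080804ac025600c20067003e401ea00c80068003c001e000bc005e003e401e6012b009280308019c00cb006280288014400bc006500238011000cb0062803ac01ee0092004700314018a009a0051002f0017800980047002f4018a00f700838029000f4010200760037c01be00f3008080314018a00f2007900520027800cb00658040801d400df006f803e401fe00bd00658040801e40140009a0030c01960134009e0042c0222012500958041c01ee0134009e0059802cc0115007880500029001050085804ac025600f70075805000290016600b30042401fa00d1005f802a0013800ce0067001e8011c00cb0065803f401e20080004a0032c019600a8005400308018400a400490030c01960109008a8025001000)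
    (nat_lit 0x102014000a0005000280014000a0005000280014000a000500028001400040802040280014000a0005000280014000a0005000280014000a00050000df006f802f005000280014000a0005000280014000a000500028001400037c01be00c4005e00a0005000280014000a0005000280014000a00050000f5007c80340019000f0014000a0005000280014000a00050002800140003e401f200d6006b003c001e00280014000a0005000280014000a00050000c5006280288013400bc005e0023805000280014000a0005000280014000314019600a200510032801780088004700a0005000280014000a00050000ea00810037c01be00ff007c8032c017a00f2014000a00050002800140003b0020400df006f8040401e600c50062803c801e40280014000a000500014800a00042c020a012b0095803ac01ee014800a000598050002800140004f0026801110085804ac024a00f70083804f00268016600b300a00050000cb0065802a0015000c2006100248014800cb006180454021200800140002fc01a2009c005400338019c008e003d0032c019600f1007e8025001000)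
    (nat_lit 4) (nat_lit 79)
    [[nat_lit 0,nat_lit 0,nat_lit 3],[nat_lit 0,nat_lit 0,nat_lit 8,nat_lit 6],[nat_lit 0,nat_lit 0,nat_lit 9,
    nat_lit 7],[nat_lit 0,nat_lit 0,nat_lit 11,nat_lit 10],[nat_lit 0,nat_lit 0,nat_lit 11,nat_lit 11],[nat_lit 0,
    nat_lit 1,nat_lit 11,nat_lit 10],[nat_lit 0,nat_lit 2,nat_lit 6],[nat_lit 0,nat_lit 2,nat_lit 7],[nat_lit 0,
    nat_lit 3,nat_lit 0],[nat_lit 0,nat_lit 3,nat_lit 6],[nat_lit 0,nat_lit 3,nat_lit 7],[nat_lit 0,nat_lit 6,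
    nat_lit 0,nat_lit 8],[nat_lit 0,nat_lit 6,nat_lit 0,nat_lit 9],[nat_lit 0,nat_lit 6,nat_lit 3],[nat_lit 0,
    nat_lit 6,nat_lit 9,nat_lit 6],[nat_lit 0,nat_lit 7,nat_lit 0,nat_lit 8],[nat_lit 0,nat_lit 8,nat_lit 0,
    nat_lit 6],[nat_lit 0,nat_lit 8,nat_lit 0,nat_lit 7],[nat_lit 0,nat_lit 8,nat_lit 6,nat_lit 0],[nat_lit 0,
    nat_lit 8,nat_lit 13],[nat_lit 0,nat_lit 9,nat_lit 0,nat_lit 6],[nat_lit 0,nat_lit 9,nat_lit 6,nat_lit 6],
    [nat_lit 0,nat_lit 9,nat_lit 7,nat_lit 0],[nat_lit 0,nat_lit 9,nat_lit 13],[nat_lit 0,nat_lit 10,nat_lit 0,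
    nat_lit 10],[nat_lit 0,nat_lit 11,nat_lit 6,nat_lit 10],[nat_lit 0,nat_lit 11,nat_lit 7,nat_lit 10],[nat_lit 0,
    nat_lit 11,nat_lit 10,nat_lit 0],[nat_lit 0,nat_lit 11,nat_lit 11,nat_lit 0],[nat_lit 0,nat_lit 12,nat_lit 8],
    [nat_lit 1,nat_lit 1,nat_lit 2],[nat_lit 1,nat_lit 1,nat_lit 6,nat_lit 8],[nat_lit 1,nat_lit 1,nat_lit 7,
    nat_lit 9],[nat_lit 1,nat_lit 1,nat_lit 10,nat_lit 10],[nat_lit 1,nat_lit 1,nat_lit 11,nat_lit 10],[nat_lit 1,
    nat_lit 2,nat_lit 1],[nat_lit 1,nat_lit 2,nat_lit 7],[nat_lit 1,nat_lit 6,nat_lit 1,nat_lit 9],[nat_lit 1,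
    nat_lit 6,nat_lit 2],[nat_lit 1,nat_lit 6,nat_lit 3],[nat_lit 1,nat_lit 6,nat_lit 8,nat_lit 1],[nat_lit 1,
    nat_lit 7,nat_lit 1,nat_lit 8],[nat_lit 1,nat_lit 7,nat_lit 1,nat_lit 9],[nat_lit 1,nat_lit 7,nat_lit 2],
    [nat_lit 1,nat_lit 7,nat_lit 3],[nat_lit 1,nat_lit 7,nat_lit 7,nat_lit 8],[nat_lit 1,nat_lit 7,nat_lit 8,
    nat_lit 7],[nat_lit 1,nat_lit 7,nat_lit 9,nat_lit 1],[nat_lit 1,nat_lit 8,nat_lit 1,nat_lit 7],[nat_lit 1,
    nat_lit 9,nat_lit 1,nat_lit 6],[nat_lit 1,nat_lit 9,nat_lit 1,nat_lit 7],[nat_lit 1,nat_lit 9,nat_lit 13],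
    [nat_lit 1,nat_lit 10,nat_lit 10,nat_lit 1],[nat_lit 1,nat_lit 11,nat_lit 1,nat_lit 11],[nat_lit 1,nat_lit 11,
    nat_lit 6,nat_lit 10],[nat_lit 1,nat_lit 11,nat_lit 7,nat_lit 10],[nat_lit 1,nat_lit 11,nat_lit 10,nat_lit 1],
    [nat_lit 1,nat_lit 12,nat_lit 8],[nat_lit 1,nat_lit 12,nat_lit 9],[nat_lit 2,nat_lit 4],[nat_lit 2,nat_lit 5],
    [nat_lit 2,nat_lit 6,nat_lit 7],[nat_lit 2,nat_lit 7,nat_lit 6],[nat_lit 2,nat_lit 7,nat_lit 7],[nat_lit 2,
    nat_lit 12],[nat_lit 2,nat_lit 13],[nat_lit 3,nat_lit 4],[nat_lit 3,nat_lit 5],[nat_lit 3,nat_lit 6,nat_lit 6],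
    [nat_lit 3,nat_lit 6,nat_lit 7],[nat_lit 3,nat_lit 7,nat_lit 6],[nat_lit 3,nat_lit 12],[nat_lit 3,nat_lit 13],
    [nat_lit 4,nat_lit 6,nat_lit 8],[nat_lit 4,nat_lit 7,nat_lit 8],[nat_lit 4,nat_lit 7,nat_lit 9],[nat_lit 4,
    nat_lit 9,nat_lit 7],[nat_lit 4,nat_lit 10,nat_lit 10],[nat_lit 4,nat_lit 10,nat_lit 11],[nat_lit 4,nat_lit 11,
    nat_lit 10],[nat_lit 4,nat_lit 11,nat_lit 11],[nat_lit 5,nat_lit 6,nat_lit 8],[nat_lit 5,nat_lit 8,nat_lit 6],
    [nat_lit 5,nat_lit 9,nat_lit 6],[nat_lit 5,nat_lit 9,nat_lit 7],[nat_lit 5,nat_lit 10,nat_lit 10],[nat_lit 5,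
    nat_lit 10,nat_lit 11],[nat_lit 5,nat_lit 11,nat_lit 10],[nat_lit 5,nat_lit 11,nat_lit 11],[nat_lit 6,nat_lit 6,
    nat_lit 6,nat_lit 8],[nat_lit 6,nat_lit 6,nat_lit 6,nat_lit 9],[nat_lit 6,nat_lit 6,nat_lit 8,nat_lit 6],
    [nat_lit 6,nat_lit 6,nat_lit 9,nat_lit 6],[nat_lit 6,nat_lit 8,nat_lit 6,nat_lit 6],[nat_lit 6,nat_lit 8,
    nat_lit 12],[nat_lit 6,nat_lit 8,nat_lit 13],[nat_lit 6,nat_lit 9,nat_lit 6,nat_lit 6],[nat_lit 6,nat_lit 9,
    nat_lit 13],[nat_lit 6,nat_lit 11,nat_lit 6,nat_lit 11],[nat_lit 6,nat_lit 12,nat_lit 8],[nat_lit 6,nat_lit 13,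
    nat_lit 8],[nat_lit 7,nat_lit 7,nat_lit 7,nat_lit 8],[nat_lit 7,nat_lit 7,nat_lit 7,nat_lit 9],[nat_lit 7,
    nat_lit 7,nat_lit 8,nat_lit 7],[nat_lit 7,nat_lit 7,nat_lit 9,nat_lit 7],[nat_lit 7,nat_lit 8,nat_lit 7,
    nat_lit 7],[nat_lit 7,nat_lit 9,nat_lit 7,nat_lit 7],[nat_lit 7,nat_lit 9,nat_lit 12],[nat_lit 7,nat_lit 9,
    nat_lit 13],[nat_lit 7,nat_lit 10,nat_lit 7,nat_lit 10],[nat_lit 7,nat_lit 12,nat_lit 8],[nat_lit 7,nat_lit 12,
    nat_lit 9],[nat_lit 7,nat_lit 13,nat_lit 9],[nat_lit 10,nat_lit 10,nat_lit 12],[nat_lit 10,nat_lit 10,nat_lit 13],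
    [nat_lit 10,nat_lit 11,nat_lit 12],[nat_lit 10,nat_lit 11,nat_lit 13],[nat_lit 10,nat_lit 12,nat_lit 10],
    [nat_lit 10,nat_lit 12,nat_lit 11],[nat_lit 10,nat_lit 13,nat_lit 10],[nat_lit 10,nat_lit 13,nat_lit 11],
    [nat_lit 11,nat_lit 11,nat_lit 12],[nat_lit 11,nat_lit 11,nat_lit 13],[nat_lit 11,nat_lit 12,nat_lit 11],
    [nat_lit 11,nat_lit 13,nat_lit 11]]
    [nat_lit 0x1003,nat_lit 0x10086,nat_lit 0x10097,nat_lit 0x100ba,nat_lit 0x100bb,nat_lit 0x101ba,nat_lit 0x1026,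
    nat_lit 0x1027,nat_lit 0x1030,nat_lit 0x1036,nat_lit 0x1037,nat_lit 0x10608,nat_lit 0x10609,nat_lit 0x1063,
    nat_lit 0x10696,nat_lit 0x10708,nat_lit 0x10806,nat_lit 0x10807,nat_lit 0x10860,nat_lit 0x108d,nat_lit 0x10906,
    nat_lit 0x10966,nat_lit 0x10970,nat_lit 0x109d,nat_lit 0x10a0a,nat_lit 0x10b6a,nat_lit 0x10b7a,nat_lit 0x10ba0,
    nat_lit 0x10bb0,nat_lit 0x10c8,nat_lit 0x1112,nat_lit 0x11168,nat_lit 0x11179,nat_lit 0x111aa,nat_lit 0x111ba,
    nat_lit 0x1121,nat_lit 0x1127,nat_lit 0x11619,nat_lit 0x1162,nat_lit 0x1163,nat_lit 0x11681,nat_lit 0x11718,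
    nat_lit 0x11719,nat_lit 0x1172,nat_lit 0x1173,nat_lit 0x11778,nat_lit 0x11787,nat_lit 0x11791,nat_lit 0x11817,
    nat_lit 0x11916,nat_lit 0x11917,nat_lit 0x119d,nat_lit 0x11aa1,nat_lit 0x11b1b,nat_lit 0x11b6a,nat_lit 0x11b7a,
    nat_lit 0x11ba1,nat_lit 0x11c8,nat_lit 0x11c9,nat_lit 292,nat_lit 293,nat_lit 0x1267,nat_lit 0x1276,
    nat_lit 0x1277,nat_lit 300,nat_lit 301,nat_lit 308,nat_lit 309,nat_lit 0x1366,nat_lit 0x1367,nat_lit 0x1376,
    nat_lit 316,nat_lit 317,nat_lit 0x1468,nat_lit 0x1478,nat_lit 0x1479,nat_lit 0x1497,nat_lit 0x14aa,nat_lit 0x14ab,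
    nat_lit 0x14ba,nat_lit 0x14bb,nat_lit 0x1568,nat_lit 0x1586,nat_lit 0x1596,nat_lit 0x1597,nat_lit 0x15aa,
    nat_lit 0x15ab,nat_lit 0x15ba,nat_lit 0x15bb,nat_lit 0x16668,nat_lit 0x16669,nat_lit 0x16686,nat_lit 0x16696,
    nat_lit 0x16866,nat_lit 0x168c,nat_lit 0x168d,nat_lit 0x16966,nat_lit 0x169d,nat_lit 0x16b6b,nat_lit 0x16c8,
    nat_lit 0x16d8,nat_lit 0x17778,nat_lit 0x17779,nat_lit 0x17787,nat_lit 0x17797,nat_lit 0x17877,nat_lit 0x17977,
    nat_lit 0x179c,nat_lit 0x179d,nat_lit 0x17a7a,nat_lit 0x17c8,nat_lit 0x17c9,nat_lit 0x17d9,nat_lit 0x1aac,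
    nat_lit 0x1aad,nat_lit 0x1abc,nat_lit 0x1abd,nat_lit 0x1aca,nat_lit 0x1acb,nat_lit 0x1ada,nat_lit 0x1adb,
    nat_lit 0x1bbc,nat_lit 0x1bbd,nat_lit 0x1bcb,nat_lit 0x1bdb]
    [[[nat_lit 0,nat_lit 0,nat_lit 3],[nat_lit 0,nat_lit 0,nat_lit 8,nat_lit 6],[nat_lit 0,nat_lit 0,nat_lit 9,
    nat_lit 7],[nat_lit 0,nat_lit 0,nat_lit 11,nat_lit 10],[nat_lit 0,nat_lit 0,nat_lit 11,nat_lit 11],[nat_lit 0,
    nat_lit 1,nat_lit 11,nat_lit 10],[nat_lit 0,nat_lit 2,nat_lit 6],[nat_lit 0,nat_lit 2,nat_lit 7],[nat_lit 0,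
    nat_lit 3,nat_lit 0],[nat_lit 0,nat_lit 3,nat_lit 6],[nat_lit 0,nat_lit 3,nat_lit 7],[nat_lit 0,nat_lit 6,
    nat_lit 0,nat_lit 8]],[[nat_lit 0,nat_lit 6,nat_lit 0,nat_lit 9],[nat_lit 0,nat_lit 6,nat_lit 3],[nat_lit 0,
    nat_lit 6,nat_lit 9,nat_lit 6],[nat_lit 0,nat_lit 7,nat_lit 0,nat_lit 8],[nat_lit 0,nat_lit 8,nat_lit 0,
    nat_lit 6],[nat_lit 0,nat_lit 8,nat_lit 0,nat_lit 7],[nat_lit 0,nat_lit 8,nat_lit 6,nat_lit 0],[nat_lit 0,
    nat_lit 8,nat_lit 13],[nat_lit 0,nat_lit 9,nat_lit 0,nat_lit 6],[nat_lit 0,nat_lit 9,nat_lit 6,nat_lit 6],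
    [nat_lit 0,nat_lit 9,nat_lit 7,nat_lit 0],[nat_lit 0,nat_lit 9,nat_lit 13]],[[nat_lit 0,nat_lit 10,nat_lit 0,
    nat_lit 10],[nat_lit 0,nat_lit 11,nat_lit 6,nat_lit 10],[nat_lit 0,nat_lit 11,nat_lit 7,nat_lit 10],[nat_lit 0,
    nat_lit 11,nat_lit 10,nat_lit 0],[nat_lit 0,nat_lit 11,nat_lit 11,nat_lit 0],[nat_lit 0,nat_lit 12,nat_lit 8],
    [nat_lit 1,nat_lit 1,nat_lit 2],[nat_lit 1,nat_lit 1,nat_lit 6,nat_lit 8],[nat_lit 1,nat_lit 1,nat_lit 7,
    nat_lit 9],[nat_lit 1,nat_lit 1,nat_lit 10,nat_lit 10],[nat_lit 1,nat_lit 1,nat_lit 11,nat_lit 10],[nat_lit 1,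
    nat_lit 2,nat_lit 1]],[[nat_lit 1,nat_lit 2,nat_lit 7],[nat_lit 1,nat_lit 6,nat_lit 1,nat_lit 9],[nat_lit 1,
    nat_lit 6,nat_lit 2],[nat_lit 1,nat_lit 6,nat_lit 3],[nat_lit 1,nat_lit 6,nat_lit 8,nat_lit 1],[nat_lit 1,
    nat_lit 7,nat_lit 1,nat_lit 8],[nat_lit 1,nat_lit 7,nat_lit 1,nat_lit 9],[nat_lit 1,nat_lit 7,nat_lit 2],
    [nat_lit 1,nat_lit 7,nat_lit 3],[nat_lit 1,nat_lit 7,nat_lit 7,nat_lit 8],[nat_lit 1,nat_lit 7,nat_lit 8,
    nat_lit 7],[nat_lit 1,nat_lit 7,nat_lit 9,nat_lit 1]],[[nat_lit 1,nat_lit 8,nat_lit 1,nat_lit 7],[nat_lit 1,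
    nat_lit 9,nat_lit 1,nat_lit 6],[nat_lit 1,nat_lit 9,nat_lit 1,nat_lit 7],[nat_lit 1,nat_lit 9,nat_lit 13],
    [nat_lit 1,nat_lit 10,nat_lit 10,nat_lit 1],[nat_lit 1,nat_lit 11,nat_lit 1,nat_lit 11],[nat_lit 1,nat_lit 11,
    nat_lit 6,nat_lit 10],[nat_lit 1,nat_lit 11,nat_lit 7,nat_lit 10],[nat_lit 1,nat_lit 11,nat_lit 10,nat_lit 0],
    [nat_lit 1,nat_lit 11,nat_lit 10,nat_lit 1],[nat_lit 1,nat_lit 12,nat_lit 8],[nat_lit 1,nat_lit 12,nat_lit 9]],
    [[nat_lit 2,nat_lit 1,nat_lit 1],[nat_lit 2,nat_lit 1,nat_lit 6],[nat_lit 2,nat_lit 1,nat_lit 7],[nat_lit 2,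
    nat_lit 4],[nat_lit 2,nat_lit 5],[nat_lit 2,nat_lit 6,nat_lit 0],[nat_lit 2,nat_lit 6,nat_lit 7],[nat_lit 2,
    nat_lit 7,nat_lit 0],[nat_lit 2,nat_lit 7,nat_lit 1],[nat_lit 2,nat_lit 7,nat_lit 6],[nat_lit 2,nat_lit 7,
    nat_lit 7],[nat_lit 2,nat_lit 12]],[[nat_lit 2,nat_lit 13],[nat_lit 3,nat_lit 0,nat_lit 0],[nat_lit 3,nat_lit 0,
    nat_lit 6],[nat_lit 3,nat_lit 1,nat_lit 6],[nat_lit 3,nat_lit 1,nat_lit 7],[nat_lit 3,nat_lit 4],[nat_lit 3,
    nat_lit 5],[nat_lit 3,nat_lit 6,nat_lit 0],[nat_lit 3,nat_lit 6,nat_lit 6],[nat_lit 3,nat_lit 6,nat_lit 7],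
    [nat_lit 3,nat_lit 7,nat_lit 0],[nat_lit 3,nat_lit 7,nat_lit 6]],[[nat_lit 3,nat_lit 12],[nat_lit 3,nat_lit 13],
    [nat_lit 4,nat_lit 2],[nat_lit 4,nat_lit 3],[nat_lit 4,nat_lit 6,nat_lit 8],[nat_lit 4,nat_lit 7,nat_lit 8],
    [nat_lit 4,nat_lit 7,nat_lit 9],[nat_lit 4,nat_lit 9,nat_lit 7],[nat_lit 4,nat_lit 10,nat_lit 10],[nat_lit 4,
    nat_lit 10,nat_lit 11],[nat_lit 4,nat_lit 11,nat_lit 10],[nat_lit 4,nat_lit 11,nat_lit 11]],[[nat_lit 5,
    nat_lit 2],[nat_lit 5,nat_lit 3],[nat_lit 5,nat_lit 6,nat_lit 8],[nat_lit 5,nat_lit 8,nat_lit 6],[nat_lit 5,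
    nat_lit 9,nat_lit 6],[nat_lit 5,nat_lit 9,nat_lit 7],[nat_lit 5,nat_lit 10,nat_lit 10],[nat_lit 5,nat_lit 10,
    nat_lit 11],[nat_lit 5,nat_lit 11,nat_lit 10],[nat_lit 5,nat_lit 11,nat_lit 11],[nat_lit 6,nat_lit 0,nat_lit 0,
    nat_lit 8],[nat_lit 6,nat_lit 0,nat_lit 2]],[[nat_lit 6,nat_lit 0,nat_lit 3],[nat_lit 6,nat_lit 0,nat_lit 6,
    nat_lit 9],[nat_lit 6,nat_lit 0,nat_lit 8,nat_lit 0],[nat_lit 6,nat_lit 0,nat_lit 9,nat_lit 0],[nat_lit 6,
    nat_lit 0,nat_lit 9,nat_lit 6],[nat_lit 6,nat_lit 1,nat_lit 9,nat_lit 1],[nat_lit 6,nat_lit 2,nat_lit 1],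
    [nat_lit 6,nat_lit 2,nat_lit 7],[nat_lit 6,nat_lit 3,nat_lit 0],[nat_lit 6,nat_lit 3,nat_lit 1],[nat_lit 6,
    nat_lit 3,nat_lit 6],[nat_lit 6,nat_lit 3,nat_lit 7]],[[nat_lit 6,nat_lit 5,nat_lit 8],[nat_lit 6,nat_lit 5,
    nat_lit 9],[nat_lit 6,nat_lit 6,nat_lit 0,nat_lit 9],[nat_lit 6,nat_lit 6,nat_lit 3],[nat_lit 6,nat_lit 6,
    nat_lit 6,nat_lit 8],[nat_lit 6,nat_lit 6,nat_lit 6,nat_lit 9],[nat_lit 6,nat_lit 6,nat_lit 8,nat_lit 6],
    [nat_lit 6,nat_lit 6,nat_lit 9,nat_lit 6],[nat_lit 6,nat_lit 7,nat_lit 2],[nat_lit 6,nat_lit 7,nat_lit 3],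
    [nat_lit 6,nat_lit 8,nat_lit 1,nat_lit 1],[nat_lit 6,nat_lit 8,nat_lit 4]],[[nat_lit 6,nat_lit 8,nat_lit 5],
    [nat_lit 6,nat_lit 8,nat_lit 6,nat_lit 6],[nat_lit 6,nat_lit 8,nat_lit 12],[nat_lit 6,nat_lit 8,nat_lit 13],
    [nat_lit 6,nat_lit 9,nat_lit 6,nat_lit 0],[nat_lit 6,nat_lit 9,nat_lit 6,nat_lit 6],[nat_lit 6,nat_lit 9,
    nat_lit 13],[nat_lit 6,nat_lit 10,nat_lit 0,nat_lit 11],[nat_lit 6,nat_lit 10,nat_lit 1,nat_lit 11],[nat_lit 6,
    nat_lit 11,nat_lit 6,nat_lit 11],[nat_lit 6,nat_lit 12,nat_lit 8],[nat_lit 6,nat_lit 13,nat_lit 8]],[[nat_lit 7,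
    nat_lit 0,nat_lit 0,nat_lit 9],[nat_lit 7,nat_lit 0,nat_lit 2],[nat_lit 7,nat_lit 0,nat_lit 3],[nat_lit 7,
    nat_lit 0,nat_lit 8,nat_lit 0],[nat_lit 7,nat_lit 1,nat_lit 2],[nat_lit 7,nat_lit 1,nat_lit 7,nat_lit 8],
    [nat_lit 7,nat_lit 1,nat_lit 8,nat_lit 1],[nat_lit 7,nat_lit 1,nat_lit 9,nat_lit 1],[nat_lit 7,nat_lit 2,
    nat_lit 1],[nat_lit 7,nat_lit 2,nat_lit 6],[nat_lit 7,nat_lit 2,nat_lit 7],[nat_lit 7,nat_lit 3,nat_lit 1]],
    [[nat_lit 7,nat_lit 3,nat_lit 6],[nat_lit 7,nat_lit 4,nat_lit 9],[nat_lit 7,nat_lit 5,nat_lit 9],[nat_lit 7,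
    nat_lit 6,nat_lit 2],[nat_lit 7,nat_lit 6,nat_lit 3],[nat_lit 7,nat_lit 7,nat_lit 2],[nat_lit 7,nat_lit 7,
    nat_lit 7,nat_lit 8],[nat_lit 7,nat_lit 7,nat_lit 7,nat_lit 9],[nat_lit 7,nat_lit 7,nat_lit 8,nat_lit 1],
    [nat_lit 7,nat_lit 7,nat_lit 8,nat_lit 7],[nat_lit 7,nat_lit 7,nat_lit 9,nat_lit 7],[nat_lit 7,nat_lit 8,
    nat_lit 1,nat_lit 7]],[[nat_lit 7,nat_lit 8,nat_lit 4],[nat_lit 7,nat_lit 8,nat_lit 7,nat_lit 1],[nat_lit 7,
    nat_lit 8,nat_lit 7,nat_lit 7],[nat_lit 7,nat_lit 9,nat_lit 1,nat_lit 1],[nat_lit 7,nat_lit 9,nat_lit 4],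
    [nat_lit 7,nat_lit 9,nat_lit 7,nat_lit 7],[nat_lit 7,nat_lit 9,nat_lit 12],[nat_lit 7,nat_lit 9,nat_lit 13],
    [nat_lit 7,nat_lit 10,nat_lit 0,nat_lit 11],[nat_lit 7,nat_lit 10,nat_lit 1,nat_lit 11],[nat_lit 7,nat_lit 10,
    nat_lit 7,nat_lit 10],[nat_lit 7,nat_lit 12,nat_lit 8]],[[nat_lit 7,nat_lit 12,nat_lit 9],[nat_lit 7,nat_lit 13,
    nat_lit 9],[nat_lit 8,nat_lit 0,nat_lit 6,nat_lit 0],[nat_lit 8,nat_lit 0,nat_lit 7,nat_lit 0],[nat_lit 8,
    nat_lit 0,nat_lit 12],[nat_lit 8,nat_lit 1,nat_lit 1,nat_lit 6],[nat_lit 8,nat_lit 1,nat_lit 7,nat_lit 1],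
    [nat_lit 8,nat_lit 1,nat_lit 7,nat_lit 7],[nat_lit 8,nat_lit 1,nat_lit 12],[nat_lit 8,nat_lit 4,nat_lit 6],
    [nat_lit 8,nat_lit 4,nat_lit 7],[nat_lit 8,nat_lit 5,nat_lit 6]],[[nat_lit 8,nat_lit 6,nat_lit 0,nat_lit 0],
    [nat_lit 8,nat_lit 6,nat_lit 5],[nat_lit 8,nat_lit 6,nat_lit 6,nat_lit 6],[nat_lit 8,nat_lit 6,nat_lit 12],
    [nat_lit 8,nat_lit 6,nat_lit 13],[nat_lit 8,nat_lit 7,nat_lit 1,nat_lit 7],[nat_lit 8,nat_lit 7,nat_lit 7,
    nat_lit 7],[nat_lit 8,nat_lit 7,nat_lit 12],[nat_lit 8,nat_lit 12,nat_lit 6],[nat_lit 8,nat_lit 13,nat_lit 0],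
    [nat_lit 8,nat_lit 13,nat_lit 6],[nat_lit 9,nat_lit 0,nat_lit 6,nat_lit 0]],[[nat_lit 9,nat_lit 1,nat_lit 1,
    nat_lit 7],[nat_lit 9,nat_lit 1,nat_lit 6,nat_lit 1],[nat_lit 9,nat_lit 1,nat_lit 7,nat_lit 1],[nat_lit 9,
    nat_lit 1,nat_lit 12],[nat_lit 9,nat_lit 4,nat_lit 7],[nat_lit 9,nat_lit 6,nat_lit 0,nat_lit 6],[nat_lit 9,
    nat_lit 6,nat_lit 5],[nat_lit 9,nat_lit 6,nat_lit 6,nat_lit 0],[nat_lit 9,nat_lit 6,nat_lit 6,nat_lit 6],
    [nat_lit 9,nat_lit 7,nat_lit 0,nat_lit 0],[nat_lit 9,nat_lit 7,nat_lit 4],[nat_lit 9,nat_lit 7,nat_lit 5]],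
    [[nat_lit 9,nat_lit 7,nat_lit 7,nat_lit 7],[nat_lit 9,nat_lit 7,nat_lit 12],[nat_lit 9,nat_lit 7,nat_lit 13],
    [nat_lit 9,nat_lit 12,nat_lit 7],[nat_lit 9,nat_lit 13,nat_lit 0],[nat_lit 9,nat_lit 13,nat_lit 1],[nat_lit 9,
    nat_lit 13,nat_lit 6],[nat_lit 9,nat_lit 13,nat_lit 7],[nat_lit 10,nat_lit 0,nat_lit 0,nat_lit 11],[nat_lit 10,
    nat_lit 0,nat_lit 1,nat_lit 11],[nat_lit 10,nat_lit 0,nat_lit 10,nat_lit 0],[nat_lit 10,nat_lit 0,nat_lit 11,
    nat_lit 6]],[[nat_lit 10,nat_lit 0,nat_lit 11,nat_lit 7],[nat_lit 10,nat_lit 1,nat_lit 1,nat_lit 10],[nat_lit 10,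
    nat_lit 1,nat_lit 1,nat_lit 11],[nat_lit 10,nat_lit 1,nat_lit 11,nat_lit 6],[nat_lit 10,nat_lit 1,nat_lit 11,
    nat_lit 7],[nat_lit 10,nat_lit 4,nat_lit 10],[nat_lit 10,nat_lit 4,nat_lit 11],[nat_lit 10,nat_lit 5,nat_lit 10],
    [nat_lit 10,nat_lit 5,nat_lit 11],[nat_lit 10,nat_lit 7,nat_lit 10,nat_lit 7],[nat_lit 10,nat_lit 10,nat_lit 1,
    nat_lit 1],[nat_lit 10,nat_lit 10,nat_lit 4]],[[nat_lit 10,nat_lit 10,nat_lit 5],[nat_lit 10,nat_lit 10,
    nat_lit 12],[nat_lit 10,nat_lit 10,nat_lit 13],[nat_lit 10,nat_lit 11,nat_lit 4],[nat_lit 10,nat_lit 11,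
    nat_lit 5],[nat_lit 10,nat_lit 11,nat_lit 12],[nat_lit 10,nat_lit 11,nat_lit 13],[nat_lit 10,nat_lit 12,
    nat_lit 10],[nat_lit 10,nat_lit 12,nat_lit 11],[nat_lit 10,nat_lit 13,nat_lit 10],[nat_lit 10,nat_lit 13,
    nat_lit 11],[nat_lit 11,nat_lit 0,nat_lit 0,nat_lit 11]],[[nat_lit 11,nat_lit 1,nat_lit 11,nat_lit 1],[nat_lit 11,
    nat_lit 4,nat_lit 10],[nat_lit 11,nat_lit 4,nat_lit 11],[nat_lit 11,nat_lit 5,nat_lit 10],[nat_lit 11,nat_lit 5,
    nat_lit 11],[nat_lit 11,nat_lit 6,nat_lit 10,nat_lit 0],[nat_lit 11,nat_lit 6,nat_lit 10,nat_lit 1],[nat_lit 11,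
    nat_lit 6,nat_lit 11,nat_lit 6],[nat_lit 11,nat_lit 7,nat_lit 10,nat_lit 0],[nat_lit 11,nat_lit 7,nat_lit 10,
    nat_lit 1],[nat_lit 11,nat_lit 10,nat_lit 0,nat_lit 0],[nat_lit 11,nat_lit 10,nat_lit 0,nat_lit 1]],[[nat_lit 11,
    nat_lit 10,nat_lit 1,nat_lit 1],[nat_lit 11,nat_lit 10,nat_lit 4],[nat_lit 11,nat_lit 10,nat_lit 5],[nat_lit 11,
    nat_lit 10,nat_lit 12],[nat_lit 11,nat_lit 10,nat_lit 13],[nat_lit 11,nat_lit 11,nat_lit 0,nat_lit 0],[nat_lit 11,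
    nat_lit 11,nat_lit 4],[nat_lit 11,nat_lit 11,nat_lit 5],[nat_lit 11,nat_lit 11,nat_lit 12],[nat_lit 11,nat_lit 11,
    nat_lit 13],[nat_lit 11,nat_lit 12,nat_lit 10],[nat_lit 11,nat_lit 12,nat_lit 11]],[[nat_lit 11,nat_lit 13,
    nat_lit 10],[nat_lit 11,nat_lit 13,nat_lit 11],[nat_lit 12,nat_lit 2],[nat_lit 12,nat_lit 3],[nat_lit 12,
    nat_lit 6,nat_lit 8],[nat_lit 12,nat_lit 7,nat_lit 9],[nat_lit 12,nat_lit 8,nat_lit 0],[nat_lit 12,nat_lit 8,
    nat_lit 1],[nat_lit 12,nat_lit 8,nat_lit 6],[nat_lit 12,nat_lit 8,nat_lit 7],[nat_lit 12,nat_lit 9,nat_lit 1],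
    [nat_lit 12,nat_lit 9,nat_lit 7]],[[nat_lit 12,nat_lit 10,nat_lit 10],[nat_lit 12,nat_lit 10,nat_lit 11],
    [nat_lit 12,nat_lit 11,nat_lit 10],[nat_lit 12,nat_lit 11,nat_lit 11],[nat_lit 13,nat_lit 0,nat_lit 8],
    [nat_lit 13,nat_lit 0,nat_lit 9],[nat_lit 13,nat_lit 1,nat_lit 9],[nat_lit 13,nat_lit 2],[nat_lit 13,nat_lit 3],
    [nat_lit 13,nat_lit 6,nat_lit 8],[nat_lit 13,nat_lit 6,nat_lit 9],[nat_lit 13,nat_lit 7,nat_lit 9]],[[nat_lit 13,
    nat_lit 8,nat_lit 6],[nat_lit 13,nat_lit 9,nat_lit 7],[nat_lit 13,nat_lit 10,nat_lit 10],[nat_lit 13,nat_lit 10,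
    nat_lit 11],[nat_lit 13,nat_lit 11,nat_lit 10],[nat_lit 13,nat_lit 11,nat_lit 11]]]
    [[nat_lit 8,nat_lit 18,nat_lit 22,nat_lit 27,nat_lit 28,nat_lit 56,nat_lit 65,nat_lit 67,nat_lit 73,nat_lit 79,
    nat_lit 82,nat_lit 110],[nat_lit 111,nat_lit 116,nat_lit 136,nat_lit 147,nat_lit 182,nat_lit 183,nat_lit 192,
    nat_lit 201,nat_lit 203,nat_lit 211,nat_lit 213,nat_lit 220],[nat_lit 226,nat_lit 257,nat_lit 260,nat_lit 262,
    nat_lit 269,nat_lit 282,nat_lit 35,nat_lit 40,nat_lit 47,nat_lit 52,nat_lit 57,nat_lit 60],[nat_lit 68,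
    nat_lit 113,nat_lit 114,nat_lit 117,nat_lit 130,nat_lit 150,nat_lit 151,nat_lit 152,nat_lit 155,nat_lit 164,
    nat_lit 169,nat_lit 171],[nat_lit 186,nat_lit 205,nat_lit 206,nat_lit 221,nat_lit 238,nat_lit 252,nat_lit 258,
    nat_lit 261,nat_lit 263,nat_lit 264,nat_lit 283,nat_lit 286],[nat_lit 30,nat_lit 38,nat_lit 43,nat_lit 86,
    nat_lit 96,nat_lit 107,nat_lit 128,nat_lit 145,nat_lit 148,nat_lit 159,nat_lit 161,nat_lit 278],[nat_lit 295,
    nat_lit 0,nat_lit 13,nat_lit 39,nat_lit 44,nat_lit 87,nat_lit 97,nat_lit 108,nat_lit 123,nat_lit 129,nat_lit 146,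
    nat_lit 160],[nat_lit 279,nat_lit 296,nat_lit 63,nat_lit 77,nat_lit 131,nat_lit 168,nat_lit 172,nat_lit 214,
    nat_lit 239,nat_lit 243,nat_lit 265,nat_lit 270],[nat_lit 64,nat_lit 78,nat_lit 132,nat_lit 193,nat_lit 210,
    nat_lit 215,nat_lit 240,nat_lit 244,nat_lit 266,nat_lit 271,nat_lit 1,nat_lit 6],[nat_lit 9,nat_lit 14,nat_lit 16,
    nat_lit 20,nat_lit 21,nat_lit 49,nat_lit 61,nat_lit 69,nat_lit 74,nat_lit 75,nat_lit 80,nat_lit 83],[nat_lit 99,
    nat_lit 100,nat_lit 112,nat_lit 118,nat_lit 126,nat_lit 127,nat_lit 133,nat_lit 137,nat_lit 153,nat_lit 156,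
    nat_lit 185,nat_lit 189],[nat_lit 191,nat_lit 194,nat_lit 200,nat_lit 202,nat_lit 209,nat_lit 212,nat_lit 222,
    nat_lit 227,nat_lit 231,nat_lit 259,nat_lit 284,nat_lit 300],[nat_lit 2,nat_lit 7,nat_lit 10,nat_lit 17,
    nat_lit 36,nat_lit 46,nat_lit 48,nat_lit 50,nat_lit 62,nat_lit 66,nat_lit 70,nat_lit 76],[nat_lit 81,nat_lit 91,
    nat_lit 101,nat_lit 115,nat_lit 119,nat_lit 154,nat_lit 165,nat_lit 166,nat_lit 167,nat_lit 170,nat_lit 173,
    nat_lit 187],[nat_lit 190,nat_lit 197,nat_lit 198,nat_lit 204,nat_lit 208,nat_lit 216,nat_lit 219,nat_lit 223,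
    nat_lit 228,nat_lit 232,nat_lit 237,nat_lit 285],[nat_lit 287,nat_lit 301,nat_lit 11,nat_lit 15,nat_lit 29,
    nat_lit 31,nat_lit 41,nat_lit 45,nat_lit 58,nat_lit 88,nat_lit 89,nat_lit 98],[nat_lit 106,nat_lit 120,
    nat_lit 124,nat_lit 142,nat_lit 143,nat_lit 149,nat_lit 162,nat_lit 179,nat_lit 280,nat_lit 292,nat_lit 297,
    nat_lit 12],[nat_lit 32,nat_lit 37,nat_lit 42,nat_lit 59,nat_lit 90,nat_lit 109,nat_lit 121,nat_lit 122,
    nat_lit 125,nat_lit 144,nat_lit 157,nat_lit 158],[nat_lit 163,nat_lit 180,nat_lit 181,nat_lit 281,nat_lit 293,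
    nat_lit 294,nat_lit 298,nat_lit 299,nat_lit 3,nat_lit 5,nat_lit 24,nat_lit 25],[nat_lit 26,nat_lit 33,nat_lit 34,
    nat_lit 54,nat_lit 55,nat_lit 92,nat_lit 94,nat_lit 102,nat_lit 104,nat_lit 178,nat_lit 229,nat_lit 233],
    [nat_lit 235,nat_lit 247,nat_lit 249,nat_lit 253,nat_lit 255,nat_lit 274,nat_lit 276,nat_lit 288,nat_lit 290,
    nat_lit 302,nat_lit 304,nat_lit 4],[nat_lit 53,nat_lit 93,nat_lit 95,nat_lit 103,nat_lit 105,nat_lit 139,
    nat_lit 140,nat_lit 141,nat_lit 176,nat_lit 177,nat_lit 224,nat_lit 225],[nat_lit 230,nat_lit 234,nat_lit 236,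
    nat_lit 248,nat_lit 250,nat_lit 251,nat_lit 254,nat_lit 256,nat_lit 275,nat_lit 277,nat_lit 289,nat_lit 291],
    [nat_lit 303,nat_lit 305,nat_lit 71,nat_lit 84,nat_lit 134,nat_lit 174,nat_lit 184,nat_lit 188,nat_lit 195,
    nat_lit 199,nat_lit 207,nat_lit 217],[nat_lit 241,nat_lit 245,nat_lit 267,nat_lit 272,nat_lit 19,nat_lit 23,
    nat_lit 51,nat_lit 72,nat_lit 85,nat_lit 135,nat_lit 138,nat_lit 175],[nat_lit 196,nat_lit 218,nat_lit 242,
    nat_lit 246,nat_lit 268,nat_lit 273]]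
    [[nat_lit 73,nat_lit 106,nat_lit 144,nat_lit 224,nat_lit 251,nat_lit 225,nat_lit 107,nat_lit 145,nat_lit 0,
    nat_lit 108,nat_lit 146,nat_lit 182],[nat_lit 203,nat_lit 74,nat_lit 109,nat_lit 183,nat_lit 110,nat_lit 147,
    nat_lit 1,nat_lit 292,nat_lit 111,nat_lit 112,nat_lit 2,nat_lit 293],[nat_lit 226,nat_lit 227,nat_lit 228,
    nat_lit 3,nat_lit 4,nat_lit 184,nat_lit 60,nat_lit 185,nat_lit 204,nat_lit 229,nat_lit 230,nat_lit 30],
    [nat_lit 148,nat_lit 205,nat_lit 61,nat_lit 75,nat_lit 31,nat_lit 186,nat_lit 206,nat_lit 62,nat_lit 76,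
    nat_lit 187,nat_lit 149,nat_lit 32],[nat_lit 150,nat_lit 113,nat_lit 151,nat_lit 294,nat_lit 33,nat_lit 252,
    nat_lit 231,nat_lit 232,nat_lit 5,nat_lit 34,nat_lit 188,nat_lit 207],[nat_lit 35,nat_lit 114,nat_lit 152,
    nat_lit 86,nat_lit 96,nat_lit 6,nat_lit 153,nat_lit 7,nat_lit 36,nat_lit 115,nat_lit 154,nat_lit 278],
    [nat_lit 295,nat_lit 8,nat_lit 116,nat_lit 117,nat_lit 155,nat_lit 87,nat_lit 97,nat_lit 9,nat_lit 118,
    nat_lit 156,nat_lit 10,nat_lit 119],[nat_lit 279,nat_lit 296,nat_lit 63,nat_lit 77,nat_lit 189,nat_lit 190,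
    nat_lit 208,nat_lit 157,nat_lit 233,nat_lit 253,nat_lit 234,nat_lit 254],[nat_lit 64,nat_lit 78,nat_lit 191,
    nat_lit 120,nat_lit 121,nat_lit 158,nat_lit 235,nat_lit 255,nat_lit 236,nat_lit 256,nat_lit 192,nat_lit 65],
    [nat_lit 79,nat_lit 209,nat_lit 11,nat_lit 12,nat_lit 122,nat_lit 37,nat_lit 38,nat_lit 159,nat_lit 13,nat_lit 39,
    nat_lit 123,nat_lit 160],[nat_lit 193,nat_lit 210,nat_lit 211,nat_lit 80,nat_lit 194,nat_lit 212,nat_lit 124,
    nat_lit 125,nat_lit 66,nat_lit 81,nat_lit 40,nat_lit 88],[nat_lit 98,nat_lit 126,nat_lit 280,nat_lit 297,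
    nat_lit 14,nat_lit 127,nat_lit 298,nat_lit 257,nat_lit 258,nat_lit 259,nat_lit 195,nat_lit 196],[nat_lit 213,
    nat_lit 67,nat_lit 82,nat_lit 15,nat_lit 68,nat_lit 197,nat_lit 41,nat_lit 42,nat_lit 43,nat_lit 128,nat_lit 161,
    nat_lit 44],[nat_lit 129,nat_lit 214,nat_lit 215,nat_lit 69,nat_lit 83,nat_lit 70,nat_lit 198,nat_lit 216,
    nat_lit 45,nat_lit 162,nat_lit 163,nat_lit 164],[nat_lit 89,nat_lit 46,nat_lit 165,nat_lit 47,nat_lit 90,
    nat_lit 166,nat_lit 281,nat_lit 299,nat_lit 260,nat_lit 261,nat_lit 237,nat_lit 199],[nat_lit 217,nat_lit 218,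
    nat_lit 16,nat_lit 17,nat_lit 282,nat_lit 130,nat_lit 48,nat_lit 167,nat_lit 283,nat_lit 131,nat_lit 168,
    nat_lit 132],[nat_lit 18,nat_lit 99,nat_lit 133,nat_lit 284,nat_lit 300,nat_lit 169,nat_lit 170,nat_lit 285,
    nat_lit 134,nat_lit 19,nat_lit 135,nat_lit 20],[nat_lit 171,nat_lit 49,nat_lit 50,nat_lit 286,nat_lit 172,
    nat_lit 136,nat_lit 100,nat_lit 21,nat_lit 137,nat_lit 22,nat_lit 91,nat_lit 101],[nat_lit 173,nat_lit 287,
    nat_lit 301,nat_lit 174,nat_lit 23,nat_lit 51,nat_lit 138,nat_lit 175,nat_lit 262,nat_lit 263,nat_lit 24,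
    nat_lit 139],[nat_lit 176,nat_lit 238,nat_lit 264,nat_lit 140,nat_lit 177,nat_lit 239,nat_lit 265,nat_lit 240,
    nat_lit 266,nat_lit 178,nat_lit 52,nat_lit 92],[nat_lit 102,nat_lit 288,nat_lit 302,nat_lit 93,nat_lit 103,
    nat_lit 289,nat_lit 303,nat_lit 241,nat_lit 267,nat_lit 242,nat_lit 268,nat_lit 269],[nat_lit 53,nat_lit 243,
    nat_lit 270,nat_lit 244,nat_lit 271,nat_lit 25,nat_lit 54,nat_lit 141,nat_lit 26,nat_lit 55,nat_lit 27,
    nat_lit 56],[nat_lit 57,nat_lit 94,nat_lit 104,nat_lit 290,nat_lit 304,nat_lit 28,nat_lit 95,nat_lit 105,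
    nat_lit 291,nat_lit 305,nat_lit 245,nat_lit 272],[nat_lit 246,nat_lit 273,nat_lit 71,nat_lit 84,nat_lit 200,
    nat_lit 219,nat_lit 29,nat_lit 58,nat_lit 142,nat_lit 179,nat_lit 59,nat_lit 180],[nat_lit 247,nat_lit 274,
    nat_lit 248,nat_lit 275,nat_lit 201,nat_lit 220,nat_lit 221,nat_lit 72,nat_lit 85,nat_lit 202,nat_lit 222,
    nat_lit 223],[nat_lit 143,nat_lit 181,nat_lit 249,nat_lit 276,nat_lit 250,nat_lit 277]]
    [[[nat_lit 278],[nat_lit 278],[nat_lit 278],[nat_lit 278],[nat_lit 278],[],[],[],[nat_lit 283,nat_lit 286],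
    [nat_lit 283,nat_lit 286],[nat_lit 283,nat_lit 286],[nat_lit 280]],[[nat_lit 280],[nat_lit 280],[nat_lit 280],[],
    [nat_lit 288,nat_lit 290],[nat_lit 288,nat_lit 290],[nat_lit 288,nat_lit 290],[nat_lit 288,nat_lit 290],
    [nat_lit 285,nat_lit 287],[nat_lit 285,nat_lit 287],[nat_lit 285,nat_lit 287],[nat_lit 285,nat_lit 287]],[[],
    [nat_lit 281],[nat_lit 281],[nat_lit 281],[nat_lit 281],[nat_lit 282],[nat_lit 85],[nat_lit 85],[nat_lit 85],
    [nat_lit 85],[nat_lit 85],[nat_lit 77]],[[nat_lit 77],[],[],[],[],[nat_lit 78],[nat_lit 78],[nat_lit 78],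
    [nat_lit 78],[nat_lit 78],[nat_lit 78],[nat_lit 78]],[[],[nat_lit 76,nat_lit 81],[nat_lit 76,nat_lit 81],
    [nat_lit 76,nat_lit 81],[nat_lit 84],[],[],[],[],[],[nat_lit 73,nat_lit 79,nat_lit 82],[nat_lit 73,nat_lit 79,
    nat_lit 82]],[[nat_lit 19,nat_lit 23],[nat_lit 19,nat_lit 23],[nat_lit 19,nat_lit 23],[nat_lit 1,nat_lit 6,
    nat_lit 9,nat_lit 14,nat_lit 16,nat_lit 20,nat_lit 21],[nat_lit 0,nat_lit 13],[nat_lit 11,nat_lit 15,nat_lit 29],
    [nat_lit 11,nat_lit 15,nat_lit 29],[],[],[],[],[nat_lit 8,nat_lit 18,nat_lit 22,nat_lit 27,nat_lit 28]],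
    [[nat_lit 4],[nat_lit 96],[nat_lit 96],[],[],[nat_lit 99,nat_lit 100],[nat_lit 97],[nat_lit 98],[nat_lit 98],
    [nat_lit 98],[],[]],[[],[nat_lit 103,nat_lit 105],[nat_lit 63],[nat_lit 60,nat_lit 68],[],[nat_lit 64],
    [nat_lit 64],[nat_lit 62,nat_lit 66,nat_lit 70],[nat_lit 71],[nat_lit 71],[],[]],[[nat_lit 168,nat_lit 172],
    [nat_lit 150,nat_lit 151,nat_lit 152,nat_lit 155,nat_lit 164,nat_lit 169,nat_lit 171],[nat_lit 149,nat_lit 162,
    nat_lit 179],[nat_lit 178],[nat_lit 154,nat_lit 165,nat_lit 166,nat_lit 167,nat_lit 170,nat_lit 173],[nat_lit 154,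
    nat_lit 165,nat_lit 166,nat_lit 167,nat_lit 170,nat_lit 173],[nat_lit 174],[nat_lit 174],[nat_lit 144,nat_lit 157,
    nat_lit 158,nat_lit 163,nat_lit 180,nat_lit 181],[nat_lit 144,nat_lit 157,nat_lit 158,nat_lit 163,nat_lit 180,
    nat_lit 181],[nat_lit 86],[nat_lit 86]],[[nat_lit 86],[nat_lit 86],[nat_lit 86],[nat_lit 86],[nat_lit 86],[],[],
    [],[],[],[],[]],[[nat_lit 87],[nat_lit 87],[nat_lit 88,nat_lit 89],[nat_lit 88,nat_lit 89],[nat_lit 88,
    nat_lit 89],[nat_lit 88,nat_lit 89],[nat_lit 88,nat_lit 89],[nat_lit 88,nat_lit 89],[],[],[nat_lit 92,nat_lit 94],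
    [nat_lit 92,nat_lit 94]],[[nat_lit 92,nat_lit 94],[nat_lit 92,nat_lit 94],[nat_lit 92,nat_lit 94],[nat_lit 92,
    nat_lit 94],[nat_lit 91],[nat_lit 91],[nat_lit 91],[],[],[nat_lit 90],[],[nat_lit 93,nat_lit 95]],[[],[],[],[],
    [nat_lit 218],[nat_lit 218],[nat_lit 218],[nat_lit 218],[nat_lit 214],[nat_lit 214],[nat_lit 214],[nat_lit 205,
    nat_lit 206,nat_lit 221]],[[nat_lit 205,nat_lit 206,nat_lit 221],[nat_lit 209,nat_lit 212,nat_lit 222],[],[],[],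
    [nat_lit 210,nat_lit 215],[nat_lit 210,nat_lit 215],[nat_lit 210,nat_lit 215],[nat_lit 210,nat_lit 215],
    [nat_lit 210,nat_lit 215],[nat_lit 210,nat_lit 215],[]],[[],[],[],[nat_lit 204,nat_lit 208,nat_lit 216,
    nat_lit 219,nat_lit 223],[nat_lit 204,nat_lit 208,nat_lit 216,nat_lit 219,nat_lit 223],[nat_lit 204,nat_lit 208,
    nat_lit 216,nat_lit 219,nat_lit 223],[nat_lit 204,nat_lit 208,nat_lit 216,nat_lit 219,nat_lit 223],[nat_lit 204,
    nat_lit 208,nat_lit 216,nat_lit 219,nat_lit 223],[nat_lit 207,nat_lit 217],[nat_lit 207,nat_lit 217],[nat_lit 207,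
    nat_lit 217],[nat_lit 203,nat_lit 211,nat_lit 213,nat_lit 220]],[[nat_lit 203,nat_lit 211,nat_lit 213,
    nat_lit 220],[],[nat_lit 107,nat_lit 128],[nat_lit 107,nat_lit 128],[nat_lit 107,nat_lit 128],[nat_lit 135,
    nat_lit 138],[nat_lit 135,nat_lit 138],[nat_lit 135,nat_lit 138],[nat_lit 135,nat_lit 138],[nat_lit 112,
    nat_lit 118,nat_lit 126,nat_lit 127,nat_lit 133,nat_lit 137],[nat_lit 112,nat_lit 118,nat_lit 126,nat_lit 127,
    nat_lit 133,nat_lit 137],[nat_lit 108,nat_lit 123,nat_lit 129]],[[nat_lit 106,nat_lit 120,nat_lit 124,nat_lit 142,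
    nat_lit 143],[nat_lit 106,nat_lit 120,nat_lit 124,nat_lit 142,nat_lit 143],[nat_lit 106,nat_lit 120,nat_lit 124,
    nat_lit 142,nat_lit 143],[nat_lit 106,nat_lit 120,nat_lit 124,nat_lit 142,nat_lit 143],[nat_lit 106,nat_lit 120,
    nat_lit 124,nat_lit 142,nat_lit 143],[nat_lit 132],[nat_lit 132],[nat_lit 132],[nat_lit 110,nat_lit 111,
    nat_lit 116,nat_lit 136],[nat_lit 139,nat_lit 140,nat_lit 141],[nat_lit 139,nat_lit 140,nat_lit 141],[]],
    [[nat_lit 268,nat_lit 273],[nat_lit 268,nat_lit 273],[nat_lit 268,nat_lit 273],[nat_lit 268,nat_lit 273],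
    [nat_lit 259],[],[],[],[],[nat_lit 266,nat_lit 271],[nat_lit 266,nat_lit 271],[nat_lit 266,nat_lit 271]],
    [[nat_lit 266,nat_lit 271],[nat_lit 266,nat_lit 271],[nat_lit 266,nat_lit 271],[nat_lit 257,nat_lit 260,
    nat_lit 262,nat_lit 269],[nat_lit 251,nat_lit 254,nat_lit 256,nat_lit 275,nat_lit 277],[nat_lit 251,nat_lit 254,
    nat_lit 256,nat_lit 275,nat_lit 277],[nat_lit 251,nat_lit 254,nat_lit 256,nat_lit 275,nat_lit 277],[nat_lit 251,
    nat_lit 254,nat_lit 256,nat_lit 275,nat_lit 277],[],[],[],[]],[[],[nat_lit 196],[nat_lit 196],[nat_lit 196],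
    [nat_lit 196],[nat_lit 185,nat_lit 189,nat_lit 191,nat_lit 194,nat_lit 200,nat_lit 202],[nat_lit 185,nat_lit 189,
    nat_lit 191,nat_lit 194,nat_lit 200,nat_lit 202],[],[],[nat_lit 193],[nat_lit 184,nat_lit 188,nat_lit 195,
    nat_lit 199],[nat_lit 184,nat_lit 188,nat_lit 195,nat_lit 199]],[[nat_lit 184,nat_lit 188,nat_lit 195,
    nat_lit 199],[nat_lit 184,nat_lit 188,nat_lit 195,nat_lit 199],[nat_lit 184,nat_lit 188,nat_lit 195,nat_lit 199],
    [],[],[],[],[nat_lit 182,nat_lit 183,nat_lit 192,nat_lit 201],[nat_lit 182,nat_lit 183,nat_lit 192,nat_lit 201],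
    [],[],[nat_lit 295]],[[],[nat_lit 300],[nat_lit 300],[nat_lit 296],[nat_lit 296],[nat_lit 292,nat_lit 297],
    [nat_lit 292,nat_lit 297],[nat_lit 292,nat_lit 297],[],[],[],[]],[[],[],[],[],[],[nat_lit 293,nat_lit 294,
    nat_lit 298,nat_lit 299],[nat_lit 293,nat_lit 294,nat_lit 298,nat_lit 299],[nat_lit 293,nat_lit 294,nat_lit 298,
    nat_lit 299],[nat_lit 293,nat_lit 294,nat_lit 298,nat_lit 299],[nat_lit 293,nat_lit 294,nat_lit 298,nat_lit 299],
    [],[]],[[nat_lit 303,nat_lit 305],[nat_lit 303,nat_lit 305],[nat_lit 239,nat_lit 243],[nat_lit 238],[],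
    [nat_lit 240,nat_lit 244],[nat_lit 229,nat_lit 233,nat_lit 235,nat_lit 247,nat_lit 249],[nat_lit 229,nat_lit 233,
    nat_lit 235,nat_lit 247,nat_lit 249],[nat_lit 229,nat_lit 233,nat_lit 235,nat_lit 247,nat_lit 249],[nat_lit 229,
    nat_lit 233,nat_lit 235,nat_lit 247,nat_lit 249],[nat_lit 228,nat_lit 232,nat_lit 237],[nat_lit 228,nat_lit 232,
    nat_lit 237]],[[nat_lit 241,nat_lit 245],[nat_lit 241,nat_lit 245],[],[],[nat_lit 30,nat_lit 38,nat_lit 43],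
    [nat_lit 30,nat_lit 38,nat_lit 43],[nat_lit 51],[],[nat_lit 35,nat_lit 40,nat_lit 47,nat_lit 52,nat_lit 57],
    [nat_lit 31,nat_lit 41,nat_lit 45,nat_lit 58],[nat_lit 31,nat_lit 41,nat_lit 45,nat_lit 58],[]],[[nat_lit 33,
    nat_lit 34,nat_lit 54,nat_lit 55],[nat_lit 36,nat_lit 46,nat_lit 48,nat_lit 50],[],[],[nat_lit 32,nat_lit 37,
    nat_lit 42,nat_lit 59],[nat_lit 32,nat_lit 37,nat_lit 42,nat_lit 59]]]
    (nat_lit 306) [nat_lit 0,nat_lit 1,nat_lit 2,nat_lit 3,nat_lit 4,nat_lit 5,nat_lit 6,nat_lit 7,nat_lit 8,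
    nat_lit 9,nat_lit 10,nat_lit 11,nat_lit 12,nat_lit 13,nat_lit 14,nat_lit 15,nat_lit 16,nat_lit 17,nat_lit 18,
    nat_lit 19,nat_lit 20,nat_lit 21,nat_lit 22,nat_lit 23,nat_lit 24,nat_lit 25,nat_lit 26,nat_lit 27,nat_lit 28,
    nat_lit 29,nat_lit 30,nat_lit 31,nat_lit 32,nat_lit 33,nat_lit 34,nat_lit 35,nat_lit 36,nat_lit 37,nat_lit 38,
    nat_lit 39,nat_lit 40,nat_lit 41,nat_lit 42,nat_lit 43,nat_lit 44,nat_lit 45,nat_lit 46,nat_lit 47,nat_lit 48,
    nat_lit 49,nat_lit 50,nat_lit 51,nat_lit 52,nat_lit 53,nat_lit 54,nat_lit 55,nat_lit 57,nat_lit 58,nat_lit 59,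
    nat_lit 63,nat_lit 64,nat_lit 66,nat_lit 69,nat_lit 70,nat_lit 71,nat_lit 72,nat_lit 77,nat_lit 78,nat_lit 80,
    nat_lit 81,nat_lit 83,nat_lit 84,nat_lit 85,nat_lit 88,nat_lit 89,nat_lit 90,nat_lit 91,nat_lit 92,nat_lit 93,
    nat_lit 94,nat_lit 95,nat_lit 98,nat_lit 99,nat_lit 100,nat_lit 101,nat_lit 102,nat_lit 103,nat_lit 104,
    nat_lit 105,nat_lit 124,nat_lit 125,nat_lit 126,nat_lit 127,nat_lit 133,nat_lit 134,nat_lit 135,nat_lit 137,
    nat_lit 138,nat_lit 141,nat_lit 142,nat_lit 143,nat_lit 162,nat_lit 163,nat_lit 165,nat_lit 166,nat_lit 170,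
    nat_lit 173,nat_lit 174,nat_lit 175,nat_lit 178,nat_lit 179,nat_lit 180,nat_lit 181,nat_lit 241,nat_lit 242,
    nat_lit 245,nat_lit 246,nat_lit 247,nat_lit 248,nat_lit 249,nat_lit 250,nat_lit 272,nat_lit 273,nat_lit 275,
    nat_lit 277]
    [[[nat_lit 8,nat_lit 18,nat_lit 22,nat_lit 27,nat_lit 28],[],[],[nat_lit 0,nat_lit 13],[],[],[nat_lit 1,nat_lit 6,
    nat_lit 9,nat_lit 14,nat_lit 16,nat_lit 20,nat_lit 21],[nat_lit 2,nat_lit 7,nat_lit 10,nat_lit 17],[nat_lit 11,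
    nat_lit 15,nat_lit 29],[nat_lit 12],[nat_lit 3,nat_lit 5,nat_lit 24,nat_lit 25,nat_lit 26],[nat_lit 4],[],
    [nat_lit 19,nat_lit 23]],[[nat_lit 56],[nat_lit 35,nat_lit 40,nat_lit 47,nat_lit 52,nat_lit 57],[nat_lit 30,
    nat_lit 38,nat_lit 43],[nat_lit 39,nat_lit 44],[],[],[nat_lit 49],[nat_lit 36,nat_lit 46,nat_lit 48,nat_lit 50],
    [nat_lit 31,nat_lit 41,nat_lit 45,nat_lit 58],[nat_lit 32,nat_lit 37,nat_lit 42,nat_lit 59],[nat_lit 33,
    nat_lit 34,nat_lit 54,nat_lit 55],[nat_lit 53],[],[nat_lit 51]],[[nat_lit 65,nat_lit 67],[nat_lit 60,nat_lit 68],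
    [],[],[nat_lit 63],[nat_lit 64],[nat_lit 61,nat_lit 69],[nat_lit 62,nat_lit 66,nat_lit 70],[],[],[],[],
    [nat_lit 71],[nat_lit 72]],[[nat_lit 73,nat_lit 79,nat_lit 82],[],[],[],[nat_lit 77],[nat_lit 78],[nat_lit 74,
    nat_lit 75,nat_lit 80,nat_lit 83],[nat_lit 76,nat_lit 81],[],[],[],[],[nat_lit 84],[nat_lit 85]],[[],[],
    [nat_lit 86],[nat_lit 87],[],[],[],[nat_lit 91],[nat_lit 88,nat_lit 89],[nat_lit 90],[nat_lit 92,nat_lit 94],
    [nat_lit 93,nat_lit 95],[],[]],[[],[],[nat_lit 96],[nat_lit 97],[],[],[nat_lit 99,nat_lit 100],[nat_lit 101],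
    [nat_lit 98],[],[nat_lit 102,nat_lit 104],[nat_lit 103,nat_lit 105],[],[]],[[nat_lit 110,nat_lit 111,nat_lit 116,
    nat_lit 136],[nat_lit 113,nat_lit 114,nat_lit 117,nat_lit 130],[nat_lit 107,nat_lit 128],[nat_lit 108,nat_lit 123,
    nat_lit 129],[nat_lit 131],[nat_lit 132],[nat_lit 112,nat_lit 118,nat_lit 126,nat_lit 127,nat_lit 133,
    nat_lit 137],[nat_lit 115,nat_lit 119],[nat_lit 106,nat_lit 120,nat_lit 124,nat_lit 142,nat_lit 143],[nat_lit 109,
    nat_lit 121,nat_lit 122,nat_lit 125],[],[nat_lit 139,nat_lit 140,nat_lit 141],[nat_lit 134],[nat_lit 135,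
    nat_lit 138]],[[nat_lit 147],[nat_lit 150,nat_lit 151,nat_lit 152,nat_lit 155,nat_lit 164,nat_lit 169,
    nat_lit 171],[nat_lit 145,nat_lit 148,nat_lit 159,nat_lit 161],[nat_lit 146,nat_lit 160],[nat_lit 168,
    nat_lit 172],[],[nat_lit 153,nat_lit 156],[nat_lit 154,nat_lit 165,nat_lit 166,nat_lit 167,nat_lit 170,
    nat_lit 173],[nat_lit 149,nat_lit 162,nat_lit 179],[nat_lit 144,nat_lit 157,nat_lit 158,nat_lit 163,nat_lit 180,
    nat_lit 181],[nat_lit 178],[nat_lit 176,nat_lit 177],[nat_lit 174],[nat_lit 175]],[[nat_lit 182,nat_lit 183,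
    nat_lit 192,nat_lit 201],[nat_lit 186],[],[],[],[nat_lit 193],[nat_lit 185,nat_lit 189,nat_lit 191,nat_lit 194,
    nat_lit 200,nat_lit 202],[nat_lit 187,nat_lit 190,nat_lit 197,nat_lit 198],[],[],[],[],[nat_lit 184,nat_lit 188,
    nat_lit 195,nat_lit 199],[nat_lit 196]],[[nat_lit 203,nat_lit 211,nat_lit 213,nat_lit 220],[nat_lit 205,
    nat_lit 206,nat_lit 221],[],[],[nat_lit 214],[nat_lit 210,nat_lit 215],[nat_lit 209,nat_lit 212,nat_lit 222],
    [nat_lit 204,nat_lit 208,nat_lit 216,nat_lit 219,nat_lit 223],[],[],[],[],[nat_lit 207,nat_lit 217],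
    [nat_lit 218]],[[nat_lit 226],[nat_lit 238],[],[],[nat_lit 239,nat_lit 243],[nat_lit 240,nat_lit 244],
    [nat_lit 227,nat_lit 231],[nat_lit 228,nat_lit 232,nat_lit 237],[],[],[nat_lit 229,nat_lit 233,nat_lit 235,
    nat_lit 247,nat_lit 249],[nat_lit 224,nat_lit 225,nat_lit 230,nat_lit 234,nat_lit 236,nat_lit 248,nat_lit 250],
    [nat_lit 241,nat_lit 245],[nat_lit 242,nat_lit 246]],[[nat_lit 257,nat_lit 260,nat_lit 262,nat_lit 269],
    [nat_lit 252,nat_lit 258,nat_lit 261,nat_lit 263,nat_lit 264],[],[],[nat_lit 265,nat_lit 270],[nat_lit 266,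
    nat_lit 271],[nat_lit 259],[],[],[],[nat_lit 253,nat_lit 255,nat_lit 274,nat_lit 276],[nat_lit 251,nat_lit 254,
    nat_lit 256,nat_lit 275,nat_lit 277],[nat_lit 267,nat_lit 272],[nat_lit 268,nat_lit 273]],[[nat_lit 282],
    [nat_lit 283,nat_lit 286],[nat_lit 278],[nat_lit 279],[],[],[nat_lit 284],[nat_lit 285,nat_lit 287],[nat_lit 280],
    [nat_lit 281],[nat_lit 288,nat_lit 290],[nat_lit 289,nat_lit 291],[],[]],[[],[],[nat_lit 295],[nat_lit 296],[],[],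
    [nat_lit 300],[nat_lit 301],[nat_lit 292,nat_lit 297],[nat_lit 293,nat_lit 294,nat_lit 298,nat_lit 299],
    [nat_lit 302,nat_lit 304],[nat_lit 303,nat_lit 305],[],[]]]
    [[[nat_lit 0x4000000000000000000000000000000000000000000000000000000000000000000000,
    nat_lit 0x4000000000000000000000000000000000000000000000000000000000000000000000,
    nat_lit 0x4000000000000000000000000000000000000000000000000000000000000000000000,
    nat_lit 0x4000000000000000000000000000000000000000000000000000000000000000000000,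
    nat_lit 0x4000000000000000000000000000000000000000000000000000000000000000000000,nat_lit 0,nat_lit 0,nat_lit 0,
    nat_lit 0x480000000000000000000000000000000000000000000000000000000000000000000000],
    [nat_lit 0x480000000000000000000000000000000000000000000000000000000000000000000000,
    nat_lit 0x480000000000000000000000000000000000000000000000000000000000000000000000,
    nat_lit 0x10000000000000000000000000000000000000000000000000000000000000000000000,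
    nat_lit 0x10000000000000000000000000000000000000000000000000000000000000000000000,
    nat_lit 0x10000000000000000000000000000000000000000000000000000000000000000000000,
    nat_lit 0x10000000000000000000000000000000000000000000000000000000000000000000000,nat_lit 0,
    nat_lit 0x5000000000000000000000000000000000000000000000000000000000000000000000000,
    nat_lit 0x5000000000000000000000000000000000000000000000000000000000000000000000000],
    [nat_lit 0x5000000000000000000000000000000000000000000000000000000000000000000000000,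
    nat_lit 0x5000000000000000000000000000000000000000000000000000000000000000000000000,
    nat_lit 0xa00000000000000000000000000000000000000000000000000000000000000000000000,
    nat_lit 0xa00000000000000000000000000000000000000000000000000000000000000000000000,
    nat_lit 0xa00000000000000000000000000000000000000000000000000000000000000000000000,
    nat_lit 0xa00000000000000000000000000000000000000000000000000000000000000000000000,nat_lit 0,
    nat_lit 0x20000000000000000000000000000000000000000000000000000000000000000000000,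
    nat_lit 0x20000000000000000000000000000000000000000000000000000000000000000000000],
    [nat_lit 0x20000000000000000000000000000000000000000000000000000000000000000000000,
    nat_lit 0x20000000000000000000000000000000000000000000000000000000000000000000000,
    nat_lit 0x40000000000000000000000000000000000000000000000000000000000000000000000,
    nat_lit 0x2000000000000000000000,nat_lit 0x2000000000000000000000,nat_lit 0x2000000000000000000000,
    nat_lit 0x2000000000000000000000,nat_lit 0x2000000000000000000000,nat_lit 0x20000000000000000000],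
    [nat_lit 0x20000000000000000000,nat_lit 0,nat_lit 0,nat_lit 0,nat_lit 0,nat_lit 0x40000000000000000000,
    nat_lit 0x40000000000000000000,nat_lit 0x40000000000000000000,nat_lit 0x40000000000000000000],
    [nat_lit 0x40000000000000000000,nat_lit 0x40000000000000000000,nat_lit 0x40000000000000000000,nat_lit 0,
    nat_lit 0x210000000000000000000,nat_lit 0x210000000000000000000,nat_lit 0x210000000000000000000,
    nat_lit 0x1000000000000000000000,nat_lit 0],[nat_lit 0,nat_lit 0,nat_lit 0,nat_lit 0,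
    nat_lit 0x482000000000000000000,nat_lit 0x482000000000000000000,nat_lit 0x880000,nat_lit 0x880000,
    nat_lit 0x880000],[nat_lit 0x314242,nat_lit 0x2001,nat_lit 0x20008800,nat_lit 0x20008800,nat_lit 0,nat_lit 0,
    nat_lit 0,nat_lit 0,nat_lit 0x18440100],[nat_lit 16,nat_lit 0x1000000000000000000000000,
    nat_lit 0x1000000000000000000000000,nat_lit 0,nat_lit 0,nat_lit 0x18000000000000000000000000,
    nat_lit 0x2000000000000000000000000,nat_lit 0x4000000000000000000000000,nat_lit 0x4000000000000000000000000]],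
    [[nat_lit 0x4000000000000000000000000,nat_lit 0,nat_lit 0,nat_lit 0,nat_lit 0x280000000000000000000000000,
    nat_lit 0x8000000000000000,nat_lit 0x101000000000000000,nat_lit 0,nat_lit 0x10000000000000000],
    [nat_lit 0x10000000000000000,nat_lit 0x444000000000000000,nat_lit 0x800000000000000000,
    nat_lit 0x800000000000000000,nat_lit 0,nat_lit 0,nat_lit 0x11000000000000000000000000000000000000000000,
    nat_lit 0xa1009c0000000000000000000000000000000000000,nat_lit 0x800040020000000000000000000000000000000000000],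
    [nat_lit 0x400000000000000000000000000000000000000000000,nat_lit 0x24e00400000000000000000000000000000000000000,
    nat_lit 0x24e00400000000000000000000000000000000000000,nat_lit 0x40000000000000000000000000000000000000000000,
    nat_lit 0x40000000000000000000000000000000000000000000,nat_lit 0x3000086001000000000000000000000000000000000000,
    nat_lit 0x3000086001000000000000000000000000000000000000,nat_lit 0x4000000000000000000000,
    nat_lit 0x4000000000000000000000],[nat_lit 0x4000000000000000000000,nat_lit 0x4000000000000000000000,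
    nat_lit 0x4000000000000000000000,nat_lit 0x4000000000000000000000,nat_lit 0x4000000000000000000000,nat_lit 0,
    nat_lit 0,nat_lit 0,nat_lit 0],[nat_lit 0,nat_lit 0,nat_lit 0,nat_lit 0x8000000000000000000000,
    nat_lit 0x8000000000000000000000,nat_lit 0x30000000000000000000000,nat_lit 0x30000000000000000000000,
    nat_lit 0x30000000000000000000000,nat_lit 0x30000000000000000000000],[nat_lit 0x30000000000000000000000,
    nat_lit 0x30000000000000000000000,nat_lit 0,nat_lit 0,nat_lit 0x500000000000000000000000,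
    nat_lit 0x500000000000000000000000,nat_lit 0x500000000000000000000000,nat_lit 0x500000000000000000000000,
    nat_lit 0x500000000000000000000000],[nat_lit 0x500000000000000000000000,nat_lit 0x80000000000000000000000,
    nat_lit 0x80000000000000000000000,nat_lit 0x80000000000000000000000,nat_lit 0,nat_lit 0,
    nat_lit 0x40000000000000000000000,nat_lit 0,nat_lit 0xa00000000000000000000000],[nat_lit 0,nat_lit 0,nat_lit 0,
    nat_lit 0,nat_lit 0x4000000000000000000000000000000000000000000000000000000,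
    nat_lit 0x4000000000000000000000000000000000000000000000000000000,
    nat_lit 0x4000000000000000000000000000000000000000000000000000000,
    nat_lit 0x4000000000000000000000000000000000000000000000000000000,
    nat_lit 0x400000000000000000000000000000000000000000000000000000],
    [nat_lit 0x400000000000000000000000000000000000000000000000000000,
    nat_lit 0x400000000000000000000000000000000000000000000000000000,
    nat_lit 0x20006000000000000000000000000000000000000000000000000000,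
    nat_lit 0x20006000000000000000000000000000000000000000000000000000,
    nat_lit 0x40120000000000000000000000000000000000000000000000000000,nat_lit 0,nat_lit 0,nat_lit 0,
    nat_lit 0x840000000000000000000000000000000000000000000000000000]],
    [[nat_lit 0x840000000000000000000000000000000000000000000000000000,
    nat_lit 0x840000000000000000000000000000000000000000000000000000,
    nat_lit 0x840000000000000000000000000000000000000000000000000000,
    nat_lit 0x840000000000000000000000000000000000000000000000000000,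
    nat_lit 0x840000000000000000000000000000000000000000000000000000,nat_lit 0,nat_lit 0,nat_lit 0,nat_lit 0],
    [nat_lit 0x89011000000000000000000000000000000000000000000000000000,
    nat_lit 0x89011000000000000000000000000000000000000000000000000000,
    nat_lit 0x89011000000000000000000000000000000000000000000000000000,
    nat_lit 0x89011000000000000000000000000000000000000000000000000000,
    nat_lit 0x89011000000000000000000000000000000000000000000000000000,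
    nat_lit 0x2008000000000000000000000000000000000000000000000000000,
    nat_lit 0x2008000000000000000000000000000000000000000000000000000,
    nat_lit 0x2008000000000000000000000000000000000000000000000000000,
    nat_lit 0x10280800000000000000000000000000000000000000000000000000],
    [nat_lit 0x10280800000000000000000000000000000000000000000000000000,nat_lit 0,
    nat_lit 0x100000800000000000000000000000000,nat_lit 0x100000800000000000000000000000000,
    nat_lit 0x100000800000000000000000000000000,nat_lit 0x48000000000000000000000000000000000,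
    nat_lit 0x48000000000000000000000000000000000,nat_lit 0x48000000000000000000000000000000000,
    nat_lit 0x48000000000000000000000000000000000],[nat_lit 0x220c0410000000000000000000000000000,
    nat_lit 0x220c0410000000000000000000000000000,nat_lit 0x208001000000000000000000000000000,
    nat_lit 0xc00011000400000000000000000000000000,nat_lit 0xc00011000400000000000000000000000000,
    nat_lit 0xc00011000400000000000000000000000000,nat_lit 0xc00011000400000000000000000000000000,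
    nat_lit 0xc00011000400000000000000000000000000,nat_lit 0x1000000000000000000000000000000000],
    [nat_lit 0x1000000000000000000000000000000000,nat_lit 0x1000000000000000000000000000000000,
    nat_lit 0x1000010c000000000000000000000000000,nat_lit 0x380000000000000000000000000000000000,
    nat_lit 0x380000000000000000000000000000000000,nat_lit 0,
    nat_lit 0x210000000000000000000000000000000000000000000000000000000000000000000,
    nat_lit 0x210000000000000000000000000000000000000000000000000000000000000000000,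
    nat_lit 0x210000000000000000000000000000000000000000000000000000000000000000000],
    [nat_lit 0x210000000000000000000000000000000000000000000000000000000000000000000,
    nat_lit 0x80000000000000000000000000000000000000000000000000000000000000000,nat_lit 0,nat_lit 0,nat_lit 0,
    nat_lit 0,nat_lit 0x84000000000000000000000000000000000000000000000000000000000000000000,
    nat_lit 0x84000000000000000000000000000000000000000000000000000000000000000000,
    nat_lit 0x84000000000000000000000000000000000000000000000000000000000000000000],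
    [nat_lit 0x84000000000000000000000000000000000000000000000000000000000000000000,
    nat_lit 0x84000000000000000000000000000000000000000000000000000000000000000000,
    nat_lit 0x84000000000000000000000000000000000000000000000000000000000000000000,
    nat_lit 0x20520000000000000000000000000000000000000000000000000000000000000000,
    nat_lit 0x2800014800000000000000000000000000000000000000000000000000000000000000,
    nat_lit 0x2800014800000000000000000000000000000000000000000000000000000000000000,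
    nat_lit 0x2800014800000000000000000000000000000000000000000000000000000000000000,
    nat_lit 0x2800014800000000000000000000000000000000000000000000000000000000000000,nat_lit 0],[nat_lit 0,nat_lit 0,
    nat_lit 0,nat_lit 0,nat_lit 0x10000000000000000000000000000000000000000000000000,
    nat_lit 0x10000000000000000000000000000000000000000000000000,
    nat_lit 0x10000000000000000000000000000000000000000000000000,
    nat_lit 0x10000000000000000000000000000000000000000000000000,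
    nat_lit 0x504a20000000000000000000000000000000000000000000000],
    [nat_lit 0x504a20000000000000000000000000000000000000000000000,nat_lit 0,nat_lit 0,
    nat_lit 0x2000000000000000000000000000000000000000000000000,
    nat_lit 0x88110000000000000000000000000000000000000000000000,
    nat_lit 0x88110000000000000000000000000000000000000000000000,
    nat_lit 0x88110000000000000000000000000000000000000000000000,
    nat_lit 0x88110000000000000000000000000000000000000000000000,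
    nat_lit 0x88110000000000000000000000000000000000000000000000]],[[nat_lit 0,nat_lit 0,nat_lit 0,nat_lit 0,
    nat_lit 0x20100c000000000000000000000000000000000000000000000,
    nat_lit 0x20100c000000000000000000000000000000000000000000000,nat_lit 0,nat_lit 0,
    nat_lit 0x80000000000000000000000000000000000000000000000000000000000000000000000000],[nat_lit 0,
    nat_lit 0x1000000000000000000000000000000000000000000000000000000000000000000000000000,
    nat_lit 0x1000000000000000000000000000000000000000000000000000000000000000000000000000,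
    nat_lit 0x100000000000000000000000000000000000000000000000000000000000000000000000000,
    nat_lit 0x100000000000000000000000000000000000000000000000000000000000000000000000000,
    nat_lit 0x210000000000000000000000000000000000000000000000000000000000000000000000000,
    nat_lit 0x210000000000000000000000000000000000000000000000000000000000000000000000000,
    nat_lit 0x210000000000000000000000000000000000000000000000000000000000000000000000000,nat_lit 0],[nat_lit 0,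
    nat_lit 0,nat_lit 0,nat_lit 0,nat_lit 0,nat_lit 0,nat_lit 0,nat_lit 0,
    nat_lit 0xc60000000000000000000000000000000000000000000000000000000000000000000000000],
    [nat_lit 0xc60000000000000000000000000000000000000000000000000000000000000000000000000,
    nat_lit 0xc60000000000000000000000000000000000000000000000000000000000000000000000000,
    nat_lit 0xc60000000000000000000000000000000000000000000000000000000000000000000000000,
    nat_lit 0xc60000000000000000000000000000000000000000000000000000000000000000000000000,nat_lit 0,nat_lit 0,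
    nat_lit 0x28000000000000000000000000000000000000000000000000000000000000000000000000000,
    nat_lit 0x28000000000000000000000000000000000000000000000000000000000000000000000000000,
    nat_lit 0x8800000000000000000000000000000000000000000000000000000000000],
    [nat_lit 0x400000000000000000000000000000000000000000000000000000000000,nat_lit 0,
    nat_lit 0x11000000000000000000000000000000000000000000000000000000000000,
    nat_lit 0x2800a2000000000000000000000000000000000000000000000000000000000,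
    nat_lit 0x2800a2000000000000000000000000000000000000000000000000000000000,
    nat_lit 0x2800a2000000000000000000000000000000000000000000000000000000000,
    nat_lit 0x2800a2000000000000000000000000000000000000000000000000000000000,
    nat_lit 0x211000000000000000000000000000000000000000000000000000000000,
    nat_lit 0x211000000000000000000000000000000000000000000000000000000000],
    [nat_lit 0x22000000000000000000000000000000000000000000000000000000000000,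
    nat_lit 0x22000000000000000000000000000000000000000000000000000000000000,nat_lit 0,nat_lit 0,
    nat_lit 0x84040000000,nat_lit 0x84040000000,nat_lit 0x8000000000000,nat_lit 0,nat_lit 0x210810800000000],
    [nat_lit 0x400220080000000,nat_lit 0x400220080000000,nat_lit 0,nat_lit 0xc0000600000000,nat_lit 0x5401000000000,
    nat_lit 0,nat_lit 0,nat_lit 0x800042100000000,nat_lit 0x800042100000000]]]
    [[[[nat_lit 0x4000000000000000000000000000000000000000000000000000000000000000000000,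
    nat_lit 0x4000000000000000000000000000000000000000000000000000000000000000000000,
    nat_lit 0x4000000000000000000000000000000000000000000000000000000000000000000000,
    nat_lit 0x4000000000000000000000000000000000000000000000000000000000000000000000,
    nat_lit 0x4000000000000000000000000000000000000000000000000000000000000000000000,nat_lit 0,nat_lit 0,nat_lit 0,
    nat_lit 0x480000000000000000000000000000000000000000000000000000000000000000000000],
    [nat_lit 0x480000000000000000000000000000000000000000000000000000000000000000000000,nat_lit 0,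
    nat_lit 0x10000000000000000000000000000000000000000000000000000000000000000000000,
    nat_lit 0x10000000000000000000000000000000000000000000000000000000000000000000000,nat_lit 0,
    nat_lit 0x10000000000000000000000000000000000000000000000000000000000000000000000,nat_lit 0,
    nat_lit 0x1000000000000000000000000000000000000000000000000000000000000000000000000,
    nat_lit 0x1000000000000000000000000000000000000000000000000000000000000000000000000],
    [nat_lit 0x1000000000000000000000000000000000000000000000000000000000000000000000000,nat_lit 0,nat_lit 0,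
    nat_lit 0,nat_lit 0xa00000000000000000000000000000000000000000000000000000000000000000000000,
    nat_lit 0xa00000000000000000000000000000000000000000000000000000000000000000000000,nat_lit 0,
    nat_lit 0x20000000000000000000000000000000000000000000000000000000000000000000000,nat_lit 0],[nat_lit 0,
    nat_lit 0x20000000000000000000000000000000000000000000000000000000000000000000000,
    nat_lit 0x40000000000000000000000000000000000000000000000000000000000000000000000,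
    nat_lit 0x2000000000000000000000,nat_lit 0,nat_lit 0x2000000000000000000000,nat_lit 0,nat_lit 0,
    nat_lit 0x20000000000000000000],[nat_lit 0,nat_lit 0,nat_lit 0,nat_lit 0,nat_lit 0,nat_lit 0x40000000000000000000,
    nat_lit 0x40000000000000000000,nat_lit 0x40000000000000000000,nat_lit 0x40000000000000000000],
    [nat_lit 0x40000000000000000000,nat_lit 0,nat_lit 0x40000000000000000000,nat_lit 0,nat_lit 0x10000000000000000000,
    nat_lit 0x10000000000000000000,nat_lit 0x10000000000000000000,nat_lit 0,nat_lit 0],[nat_lit 0,nat_lit 0,nat_lit 0,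
    nat_lit 0,nat_lit 0x82000000000000000000,nat_lit 0x82000000000000000000,nat_lit 0x880000,nat_lit 0,
    nat_lit 0x880000],[nat_lit 0x310242,nat_lit 1,nat_lit 0x20008800,nat_lit 0,nat_lit 0,nat_lit 0,nat_lit 0,
    nat_lit 0,nat_lit 0x40100],[nat_lit 0,nat_lit 0x1000000000000000000000000,nat_lit 0,nat_lit 0,nat_lit 0,
    nat_lit 0x8000000000000000000000000,nat_lit 0x2000000000000000000000000,nat_lit 0x4000000000000000000000000,
    nat_lit 0]],[[nat_lit 0,nat_lit 0,nat_lit 0,nat_lit 0,nat_lit 0x200000000000000000000000000,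
    nat_lit 0x8000000000000000,nat_lit 0x1000000000000000,nat_lit 0,nat_lit 0],[nat_lit 0x10000000000000000,
    nat_lit 0x4000000000000000,nat_lit 0x800000000000000000,nat_lit 0,nat_lit 0,nat_lit 0,
    nat_lit 0x1000000000000000000000000000000000000000000,nat_lit 0x81001c0000000000000000000000000000000000000,
    nat_lit 0x800000000000000000000000000000000000000000000],[nat_lit 0x400000000000000000000000000000000000000000000,
    nat_lit 0,nat_lit 0xe00000000000000000000000000000000000000000,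
    nat_lit 0x40000000000000000000000000000000000000000000,nat_lit 0,nat_lit 0,
    nat_lit 0x2000086001000000000000000000000000000000000000,nat_lit 0x4000000000000000000000,nat_lit 0],
    [nat_lit 0x4000000000000000000000,nat_lit 0,nat_lit 0x4000000000000000000000,nat_lit 0x4000000000000000000000,
    nat_lit 0x4000000000000000000000,nat_lit 0,nat_lit 0,nat_lit 0,nat_lit 0],[nat_lit 0,nat_lit 0,nat_lit 0,
    nat_lit 0,nat_lit 0x8000000000000000000000,nat_lit 0x10000000000000000000000,nat_lit 0,nat_lit 0,nat_lit 0],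
    [nat_lit 0x10000000000000000000000,nat_lit 0x10000000000000000000000,nat_lit 0,nat_lit 0,
    nat_lit 0x100000000000000000000000,nat_lit 0x100000000000000000000000,nat_lit 0x100000000000000000000000,
    nat_lit 0x100000000000000000000000,nat_lit 0x100000000000000000000000],[nat_lit 0,nat_lit 0,nat_lit 0,
    nat_lit 0x80000000000000000000000,nat_lit 0,nat_lit 0,nat_lit 0x40000000000000000000000,nat_lit 0,
    nat_lit 0x800000000000000000000000],[nat_lit 0,nat_lit 0,nat_lit 0,nat_lit 0,nat_lit 0,nat_lit 0,nat_lit 0,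
    nat_lit 0,nat_lit 0x400000000000000000000000000000000000000000000000000000],
    [nat_lit 0x400000000000000000000000000000000000000000000000000000,nat_lit 0,nat_lit 0,
    nat_lit 0x20000000000000000000000000000000000000000000000000000000,
    nat_lit 0x40120000000000000000000000000000000000000000000000000000,nat_lit 0,nat_lit 0,nat_lit 0,nat_lit 0]],
    [[nat_lit 0,nat_lit 0,nat_lit 0,nat_lit 0,nat_lit 0x40000000000000000000000000000000000000000000000000000,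
    nat_lit 0,nat_lit 0,nat_lit 0,nat_lit 0],[nat_lit 0x8011000000000000000000000000000000000000000000000000000,
    nat_lit 0x8011000000000000000000000000000000000000000000000000000,
    nat_lit 0x8011000000000000000000000000000000000000000000000000000,
    nat_lit 0x8011000000000000000000000000000000000000000000000000000,
    nat_lit 0x9011000000000000000000000000000000000000000000000000000,nat_lit 0,
    nat_lit 0x2008000000000000000000000000000000000000000000000000000,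
    nat_lit 0x2008000000000000000000000000000000000000000000000000000,
    nat_lit 0x10280800000000000000000000000000000000000000000000000000],
    [nat_lit 0x10280800000000000000000000000000000000000000000000000000,nat_lit 0,nat_lit 0,nat_lit 0,
    nat_lit 0x100000000000000000000000000000000,nat_lit 0x48000000000000000000000000000000000,
    nat_lit 0x48000000000000000000000000000000000,nat_lit 0x48000000000000000000000000000000000,
    nat_lit 0x48000000000000000000000000000000000],[nat_lit 0,nat_lit 0x40000000000000000000000000000000,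
    nat_lit 0x200001000000000000000000000000000,nat_lit 0xc00011000400000000000000000000000000,
    nat_lit 0xc00011000400000000000000000000000000,nat_lit 0x400000000000000000000000000000000000,nat_lit 0,
    nat_lit 0xc00011000400000000000000000000000000,nat_lit 0x1000000000000000000000000000000000],
    [nat_lit 0x1000000000000000000000000000000000,nat_lit 0x1000000000000000000000000000000000,nat_lit 0,
    nat_lit 0x280000000000000000000000000000000000,nat_lit 0x280000000000000000000000000000000000,nat_lit 0,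
    nat_lit 0x200000000000000000000000000000000000000000000000000000000000000000000,nat_lit 0,
    nat_lit 0x200000000000000000000000000000000000000000000000000000000000000000000],
    [nat_lit 0x200000000000000000000000000000000000000000000000000000000000000000000,nat_lit 0,nat_lit 0,nat_lit 0,
    nat_lit 0,nat_lit 0,nat_lit 0,nat_lit 0x80000000000000000000000000000000000000000000000000000000000000000000,
    nat_lit 0],[nat_lit 0x80000000000000000000000000000000000000000000000000000000000000000000,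
    nat_lit 0x80000000000000000000000000000000000000000000000000000000000000000000,nat_lit 0,
    nat_lit 0x20400000000000000000000000000000000000000000000000000000000000000000,
    nat_lit 0x2000010800000000000000000000000000000000000000000000000000000000000000,
    nat_lit 0x10000000000000000000000000000000000000000000000000000000000000000,
    nat_lit 0x2000010800000000000000000000000000000000000000000000000000000000000000,nat_lit 0,nat_lit 0],[nat_lit 0,
    nat_lit 0,nat_lit 0,nat_lit 0,nat_lit 0x10000000000000000000000000000000000000000000000000,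
    nat_lit 0x10000000000000000000000000000000000000000000000000,nat_lit 0,nat_lit 0,
    nat_lit 0x404800000000000000000000000000000000000000000000000],[nat_lit 0,nat_lit 0,nat_lit 0,nat_lit 0,
    nat_lit 0x80100000000000000000000000000000000000000000000000,
    nat_lit 0x80110000000000000000000000000000000000000000000000,nat_lit 0,
    nat_lit 0x80100000000000000000000000000000000000000000000000,nat_lit 0]],[[nat_lit 0,nat_lit 0,nat_lit 0,
    nat_lit 0,nat_lit 0x201004000000000000000000000000000000000000000000000,nat_lit 0,nat_lit 0,nat_lit 0,nat_lit 0],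
    [nat_lit 0,nat_lit 0x1000000000000000000000000000000000000000000000000000000000000000000000000000,nat_lit 0,
    nat_lit 0x100000000000000000000000000000000000000000000000000000000000000000000000000,
    nat_lit 0x100000000000000000000000000000000000000000000000000000000000000000000000000,nat_lit 0,nat_lit 0,
    nat_lit 0,nat_lit 0],[nat_lit 0,nat_lit 0,nat_lit 0,nat_lit 0,nat_lit 0,nat_lit 0,nat_lit 0,nat_lit 0,nat_lit 0],
    [nat_lit 0xc20000000000000000000000000000000000000000000000000000000000000000000000000,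
    nat_lit 0x840000000000000000000000000000000000000000000000000000000000000000000000000,nat_lit 0,
    nat_lit 0xc60000000000000000000000000000000000000000000000000000000000000000000000000,nat_lit 0,nat_lit 0,
    nat_lit 0,nat_lit 0x20000000000000000000000000000000000000000000000000000000000000000000000000000,
    nat_lit 0x8800000000000000000000000000000000000000000000000000000000000],[nat_lit 0,nat_lit 0,
    nat_lit 0x10000000000000000000000000000000000000000000000000000000000000,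
    nat_lit 0x80020000000000000000000000000000000000000000000000000000000000,
    nat_lit 0x80080000000000000000000000000000000000000000000000000000000000,
    nat_lit 0x800a0000000000000000000000000000000000000000000000000000000000,
    nat_lit 0x80080000000000000000000000000000000000000000000000000000000000,nat_lit 0,nat_lit 0],
    [nat_lit 0x2000000000000000000000000000000000000000000000000000000000000,nat_lit 0,nat_lit 0,nat_lit 0,
    nat_lit 0x80040000000,nat_lit 0x80040000000,nat_lit 0x8000000000000,nat_lit 0,nat_lit 0x210810800000000],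
    [nat_lit 0x400000080000000,nat_lit 0x400000080000000,nat_lit 0,nat_lit 0x80000200000000,nat_lit 0x5400000000000,
    nat_lit 0,nat_lit 0,nat_lit 0,nat_lit 0x42100000000]]],[[[nat_lit 0,
    nat_lit 0x4000000000000000000000000000000000000000000000000000000000000000000000,nat_lit 0,nat_lit 0,nat_lit 0,
    nat_lit 0,nat_lit 0,nat_lit 0,nat_lit 0],[nat_lit 0,nat_lit 0,nat_lit 0,nat_lit 0,nat_lit 0,nat_lit 0,nat_lit 0,
    nat_lit 0,nat_lit 0],[nat_lit 0x1000000000000000000000000000000000000000000000000000000000000000000000000,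
    nat_lit 0,nat_lit 0,nat_lit 0,nat_lit 0,nat_lit 0,nat_lit 0,nat_lit 0,nat_lit 0],[nat_lit 0,nat_lit 0,nat_lit 0,
    nat_lit 0,nat_lit 0,nat_lit 0,nat_lit 0,nat_lit 0,nat_lit 0],[nat_lit 0,nat_lit 0,nat_lit 0,nat_lit 0,nat_lit 0,
    nat_lit 0,nat_lit 0,nat_lit 0,nat_lit 0],[nat_lit 0,nat_lit 0,nat_lit 0x40000000000000000000,nat_lit 0,nat_lit 0,
    nat_lit 0,nat_lit 0,nat_lit 0,nat_lit 0],[nat_lit 0,nat_lit 0,nat_lit 0,nat_lit 0,nat_lit 0x80000000000000000000,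
    nat_lit 0,nat_lit 0,nat_lit 0,nat_lit 0x800000],[nat_lit 2,nat_lit 0,nat_lit 0,nat_lit 0,nat_lit 0,nat_lit 0,
    nat_lit 0,nat_lit 0,nat_lit 0],[nat_lit 0,nat_lit 0,nat_lit 0,nat_lit 0,nat_lit 0,
    nat_lit 0x8000000000000000000000000,nat_lit 0x2000000000000000000000000,nat_lit 0,nat_lit 0]],[[nat_lit 0,
    nat_lit 0,nat_lit 0,nat_lit 0,nat_lit 0,nat_lit 0x8000000000000000,nat_lit 0,nat_lit 0,nat_lit 0],
    [nat_lit 0x10000000000000000,nat_lit 0,nat_lit 0,nat_lit 0,nat_lit 0,nat_lit 0,nat_lit 0,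
    nat_lit 0x100000000000000000000000000000000000000,nat_lit 0x800000000000000000000000000000000000000000000],
    [nat_lit 0,nat_lit 0,nat_lit 0,nat_lit 0,nat_lit 0,nat_lit 0,nat_lit 0,nat_lit 0,nat_lit 0],
    [nat_lit 0x4000000000000000000000,nat_lit 0,nat_lit 0,nat_lit 0,nat_lit 0,nat_lit 0,nat_lit 0,nat_lit 0,
    nat_lit 0],[nat_lit 0,nat_lit 0,nat_lit 0,nat_lit 0,nat_lit 0,nat_lit 0,nat_lit 0,nat_lit 0,nat_lit 0],[nat_lit 0,
    nat_lit 0,nat_lit 0,nat_lit 0,nat_lit 0,nat_lit 0,nat_lit 0,nat_lit 0,nat_lit 0],[nat_lit 0,nat_lit 0,nat_lit 0,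
    nat_lit 0x80000000000000000000000,nat_lit 0,nat_lit 0,nat_lit 0,nat_lit 0,nat_lit 0],[nat_lit 0,nat_lit 0,
    nat_lit 0,nat_lit 0,nat_lit 0,nat_lit 0,nat_lit 0,nat_lit 0,nat_lit 0],[nat_lit 0,nat_lit 0,nat_lit 0,nat_lit 0,
    nat_lit 0,nat_lit 0,nat_lit 0,nat_lit 0,nat_lit 0]],[[nat_lit 0,nat_lit 0,nat_lit 0,nat_lit 0,nat_lit 0,nat_lit 0,
    nat_lit 0,nat_lit 0,nat_lit 0],[nat_lit 0x1000000000000000000000000000000000000000000000000000,nat_lit 0,
    nat_lit 0,nat_lit 0,nat_lit 0,nat_lit 0,nat_lit 0,nat_lit 0,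
    nat_lit 0x80800000000000000000000000000000000000000000000000000],[nat_lit 0,nat_lit 0,nat_lit 0,nat_lit 0,
    nat_lit 0,nat_lit 0,nat_lit 0x40000000000000000000000000000000000,nat_lit 0x40000000000000000000000000000000000,
    nat_lit 0],[nat_lit 0,nat_lit 0,nat_lit 0,nat_lit 0x400000000000000000000000000,nat_lit 0,nat_lit 0,nat_lit 0,
    nat_lit 0,nat_lit 0],[nat_lit 0,nat_lit 0,nat_lit 0,nat_lit 0,nat_lit 0,nat_lit 0,
    nat_lit 0x200000000000000000000000000000000000000000000000000000000000000000000,nat_lit 0,nat_lit 0],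
    [nat_lit 0x200000000000000000000000000000000000000000000000000000000000000000000,nat_lit 0,nat_lit 0,nat_lit 0,
    nat_lit 0,nat_lit 0,nat_lit 0,nat_lit 0x80000000000000000000000000000000000000000000000000000000000000000000,
    nat_lit 0],[nat_lit 0,nat_lit 0x80000000000000000000000000000000000000000000000000000000000000000000,nat_lit 0,
    nat_lit 0,nat_lit 0x2000010800000000000000000000000000000000000000000000000000000000000000,nat_lit 0,nat_lit 0,
    nat_lit 0,nat_lit 0],[nat_lit 0,nat_lit 0,nat_lit 0,nat_lit 0,nat_lit 0,nat_lit 0,nat_lit 0,nat_lit 0,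
    nat_lit 0x400800000000000000000000000000000000000000000000000],[nat_lit 0,nat_lit 0,nat_lit 0,nat_lit 0,
    nat_lit 0x100000000000000000000000000000000000000000000000,
    nat_lit 0x100000000000000000000000000000000000000000000000,nat_lit 0,
    nat_lit 0x100000000000000000000000000000000000000000000000,nat_lit 0]],[[nat_lit 0,nat_lit 0,nat_lit 0,nat_lit 0,
    nat_lit 0x201000000000000000000000000000000000000000000000000,nat_lit 0,nat_lit 0,nat_lit 0,nat_lit 0],[nat_lit 0,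
    nat_lit 0,nat_lit 0,nat_lit 0,
    nat_lit 0x100000000000000000000000000000000000000000000000000000000000000000000000000,nat_lit 0,nat_lit 0,
    nat_lit 0,nat_lit 0],[nat_lit 0,nat_lit 0,nat_lit 0,nat_lit 0,nat_lit 0,nat_lit 0,nat_lit 0,nat_lit 0,nat_lit 0],
    [nat_lit 0,nat_lit 0,nat_lit 0,
    nat_lit 0x400000000000000000000000000000000000000000000000000000000000000000000000000,nat_lit 0,nat_lit 0,
    nat_lit 0,nat_lit 0x20000000000000000000000000000000000000000000000000000000000000000000000000000,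
    nat_lit 0x800000000000000000000000000000000000000000000000000000000000],[nat_lit 0,nat_lit 0,nat_lit 0,nat_lit 0,
    nat_lit 0,nat_lit 0,nat_lit 0x80000000000000000000000000000000000000000000000000000000000000,nat_lit 0,nat_lit 0],
    [nat_lit 0x2000000000000000000000000000000000000000000000000000000000000,nat_lit 0,nat_lit 0,nat_lit 0,nat_lit 0,
    nat_lit 0,nat_lit 0,nat_lit 0,nat_lit 0x800000000000],[nat_lit 0,nat_lit 0,nat_lit 0,nat_lit 0,nat_lit 0,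
    nat_lit 0,nat_lit 0,nat_lit 0,nat_lit 0x100000000]]]]
    (nat_lit 2) (nat_lit 1) (nat_lit 64)
    [[nat_lit 2,nat_lit 3,nat_lit 4,nat_lit 0x1003,nat_lit 0x100003,nat_lit 258,nat_lit 0x1002,nat_lit 0x2002,
    nat_lit 0x101002,nat_lit 0x10002,nat_lit 0x100002,nat_lit 0x1000002,nat_lit 17,nat_lit 257,nat_lit 0x1101,
    nat_lit 0x100101,nat_lit 0x1001,nat_lit 0x2001,nat_lit 0x3001,nat_lit 0x102001,nat_lit 0x11001,nat_lit 0x101001,
    nat_lit 0x1001001,nat_lit 0x10001,nat_lit 0x110001,nat_lit 0x100001,nat_lit 0x200001,nat_lit 0x1100001,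
    nat_lit 0x1000001],[nat_lit 0x1010,nat_lit 0x10010,nat_lit 0x100010],[nat_lit 512,nat_lit 0x1200,nat_lit 0x1100,
    nat_lit 0x2100,nat_lit 0x101100,nat_lit 0x1001100,nat_lit 0x10100,nat_lit 0x100100,nat_lit 0x1000100],
    [nat_lit 0x2000,nat_lit 0x3000,nat_lit 0x4000,nat_lit 0x103000,nat_lit 0x12000,nat_lit 0x102000,nat_lit 0x1002000,
    nat_lit 0x11000,nat_lit 0x21000,nat_lit 0x111000,nat_lit 0x101000,nat_lit 0x201000,nat_lit 0x1101000,
    nat_lit 0x1001000],[nat_lit 0x20000,nat_lit 0x110000,nat_lit 0x210000,nat_lit 0x1010000],[nat_lit 0x200000,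
    nat_lit 0x300000,nat_lit 0x1100000],[nat_lit 0x2000000]]
    [.c (nat_lit 1) (nat_lit 2),.c (nat_lit 0) (nat_lit 0x3354545),.c (nat_lit 2) (nat_lit 0x44003),
    .c (nat_lit 2) (nat_lit 0x286005),.c (nat_lit 2) (nat_lit 0x2046005),.c (nat_lit 2) (nat_lit 0x42203),
    .c (nat_lit 0) (nat_lit 0x3052545),.c (nat_lit 2) (nat_lit 0x242003),.c (nat_lit 2) (nat_lit 0x2244005),
    .c (nat_lit 6) (nat_lit 0x4243454),.c (nat_lit 1) (nat_lit 0x3003004),.c (nat_lit 2) (nat_lit 0x42003),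
    .c (nat_lit 6) (nat_lit 0x2053004),.c (nat_lit 0) (nat_lit 0x3350045),.c (nat_lit 2) (nat_lit 0x282405),
    .c (nat_lit 2) (nat_lit 0x2042405),.c (nat_lit 1) (nat_lit 0x302004),.c (nat_lit 0) (nat_lit 0x3250545),
    .c (nat_lit 2) (nat_lit 0x682005),.c (nat_lit 2) (nat_lit 0x2442005),.c (nat_lit 6) (nat_lit 0x2020232),
    .c (nat_lit 1) (nat_lit 0x3300004),.c (nat_lit 2) (nat_lit 0x282005),.c (nat_lit 6) (nat_lit 0x6240454),
    .c (nat_lit 5) (nat_lit 0x3003004),.c (nat_lit 0) (nat_lit 0x2002005),.c (nat_lit 6) (nat_lit 0x3003004),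
    .c (nat_lit 2) (nat_lit 0x2042005),.c (nat_lit 0) (nat_lit 0x3350545),.c (nat_lit 6) (nat_lit 0x2350004),
    .r (nat_lit 0x1b36) (nat_lit 0) [nat_lit 0x300021,nat_lit 0x30035452,nat_lit 0x200001],
    .c (nat_lit 5) (nat_lit 0x5393544),.c (nat_lit 3) (nat_lit 2),.r (nat_lit 0x1b36) (nat_lit 0) [nat_lit 0x30534452,
    nat_lit 0x5021,nat_lit 0x200001],.c (nat_lit 0) (nat_lit 0x3053045),.c (nat_lit 2) (nat_lit 0x240203),
    .c (nat_lit 2) (nat_lit 0x2240405),.r (nat_lit 0x1b36) (nat_lit 0) [nat_lit 0x30530452,nat_lit 0x3021,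
    nat_lit 0x200001],.c (nat_lit 6) (nat_lit 0x4242054),.c (nat_lit 1) (nat_lit 0x3002504),
    .c (nat_lit 2) (nat_lit 0x40203),.c (nat_lit 4) (nat_lit 2),.c (nat_lit 0) (nat_lit 0x3453545),
    .c (nat_lit 2) (nat_lit 0x440003),.c (nat_lit 2) (nat_lit 0x2640005),.c (nat_lit 6) (nat_lit 0x4342454),
    .c (nat_lit 1) (nat_lit 0x3502004),.c (nat_lit 2) (nat_lit 0x240003),.c (nat_lit 6) (nat_lit 0x6042454),
    .r (nat_lit 0x1b36) (nat_lit 0) [nat_lit 0x20424542,nat_lit 0x30535431,nat_lit 0x200001],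
    .c (nat_lit 5) (nat_lit 0x3300004),.c (nat_lit 0) (nat_lit 0x2200005),.c (nat_lit 6) (nat_lit 0x3300004),
    .c (nat_lit 2) (nat_lit 0x2240005),.c (nat_lit 0) (nat_lit 0x3053545),.c (nat_lit 5) (nat_lit 2),
    .r (nat_lit 10) (nat_lit 13) [nat_lit 33,nat_lit 0x202001],.r (nat_lit 0x1b36) (nat_lit 0) [nat_lit 0x30000021,
    nat_lit 0x20535452,nat_lit 0x200001],.c (nat_lit 6) (nat_lit 0x4242454),.c (nat_lit 6) (nat_lit 2),
    .c (nat_lit 5) (nat_lit 0x9353544),.c (nat_lit 1) (nat_lit 0x3002004),.c (nat_lit 7) (nat_lit 2)]]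

/-- nodes -/
noncomputable def rD7k_19_1 : List RJ :=
  [.l (nat_lit 10) (nat_lit 240) (nat_lit 3) (nat_lit 0x56000000660000006100000061000000560000006c00000070000000700000006c0000005600000061000000610000006c00000056) (nat_lit 0xa0000001a0000000f0000000f000000040000001a00000000000000000000001a000000040000000f0000000f0000001a00000004)
    (nat_lit 0x1483c11c471203c198600f04211c470f05218852174570f04c198641303c15c5d1306815c471484c17c4121c871045d130521045d1744714852194471a46911c5f1485211c5d1303c11c411283c1504e0f04a11c470f0520f0481945f1a04a1b06c1406817c5f1203c190601a4871b04e1c0701506c234631806a198661a4871b0541c0701586c234631986c0f04217c5d1a04a1b06c140681745d1083c1303c11c411403c158540f05011c470f052174471485217c4718c6311c5d1485211c5d15c471484c17c472348d11c5d1485211c5d1a0521745d0f0521b06a1483c1745d148681303c11c411203c198600f04211c470f052)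
    (nat_lit 0x148f03c0f03c0f03c0f03c0f03c0f03c0f00f0523c0f03c0f03c0f03c0f03c0f03c0f011c5d148f03c0f03c0f03c0f03c0f03c0f011c57130523c0f03c0f03c0f03c0f03c0f01203c17c65128f03c0f03c0f03c0f03c0f00f04c104470f04a3c0f03c0f03c0f03c0f01986621c691506c1c0f03c0f03c0f03c0f01806421c691386c1c0703c0f03c0f03c0f00f04c104470f05015056140f03c0f03c0f01083c1745f128681b06c1a0503c0f03c0f011c571305211c5f2348d17447148f03c0f011c5d1485211c5f18c6317447148523c0f00f04c104470f048180661083c11c47148f0148681745d1483c1a86c0f0521745d1a052)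
    (nat_lit 5) (nat_lit 47)
    [[nat_lit 2,nat_lit 258,nat_lit 0x10002,nat_lit 17,nat_lit 273,nat_lit 0x10011,nat_lit 257,nat_lit 513,
    nat_lit 0x10101,nat_lit 0x100101,nat_lit 0x1000101,nat_lit 0x1001,nat_lit 0x10001,nat_lit 0x20001,
    nat_lit 0x1010001,nat_lit 0x110001,nat_lit 0x100001,nat_lit 0x1000001],[nat_lit 32,nat_lit 272,nat_lit 0x1000110,
    nat_lit 0x10010,nat_lit 0x1010010,nat_lit 0x100010,nat_lit 0x1000010],[nat_lit 512,nat_lit 0x10200,
    nat_lit 0x1000200,nat_lit 0x1100,nat_lit 0x10100,nat_lit 0x20100,nat_lit 0x1010100,nat_lit 0x100100,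
    nat_lit 0x1100100,nat_lit 0x1000100,nat_lit 0x2000100],[nat_lit 0x2000,nat_lit 0x11000,nat_lit 0x1001000],
    [nat_lit 0x20000,nat_lit 0x30000,nat_lit 0x1020000,nat_lit 0x110000,nat_lit 0x1010000,nat_lit 0x1110000,
    nat_lit 0x2010000],[nat_lit 0x200000,nat_lit 0x1100000],[nat_lit 0x2000000]]
    [.c (nat_lit 1) (nat_lit 2),.r (nat_lit 2) (nat_lit 13) [nat_lit 0x4220061,nat_lit 0x80028041],
    .r (nat_lit 2) (nat_lit 8) [nat_lit 0xc6010861,nat_lit 0x80028041],.c (nat_lit 0) (nat_lit 0x201003),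
    .r (nat_lit 0x174c) (nat_lit 9) [nat_lit 0x6318801,nat_lit 0x4020001,nat_lit 0x4410061],
    .r (nat_lit 0x174c) (nat_lit 5) [nat_lit 0x84000001,nat_lit 0xc6318801,nat_lit 0x4420061],
    .c (nat_lit 0) (nat_lit 0x221005),.r (nat_lit 0x17cf) (nat_lit 6) [nat_lit 0x6318801,nat_lit 0x18041,
    nat_lit 0xc0020001,nat_lit 0x84000001],.c (nat_lit 1) (nat_lit 0x18002),
    .r (nat_lit 0x174c) (nat_lit 9) [nat_lit 0x6318801,nat_lit 0x4020001,nat_lit 0xc6200861],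
    .r (nat_lit 2) (nat_lit 13) [nat_lit 0x4210061,nat_lit 0x80018041],
    .r (nat_lit 0x1b36) (nat_lit 4) [nat_lit 0x4210c41,nat_lit 0x65010a1,nat_lit 0x6318801],
    .c (nat_lit 0) (nat_lit 0x221005),.r (nat_lit 0x17cf) (nat_lit 10) [nat_lit 0x84000001,nat_lit 65,
    nat_lit 0xc0000001,nat_lit 0x6318801],.r (nat_lit 2) (nat_lit 8) [nat_lit 0xc6000861,nat_lit 0x80018041],
    .r (nat_lit 0x174c) (nat_lit 5) [nat_lit 0x84000001,nat_lit 0xc6318801,nat_lit 0xc6210861],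
    .c (nat_lit 0) (nat_lit 0x6318843),.c (nat_lit 1) (nat_lit 0x802),.c (nat_lit 2) (nat_lit 2),
    .r (nat_lit 0x174e) (nat_lit 8) [nat_lit 0x84200061,nat_lit 0xca318841],
    .r (nat_lit 0x174c) (nat_lit 9) [nat_lit 0x6318801,nat_lit 0x4020001,nat_lit 0x4400061],
    .r (nat_lit 0x174e) (nat_lit 13) [nat_lit 0x84200061,nat_lit 65],
    .r (nat_lit 0x174c) (nat_lit 5) [nat_lit 0x84000001,nat_lit 0xc6318801,nat_lit 0x4410061],
    .c (nat_lit 2) (nat_lit 0x4410862),.c (nat_lit 0) (nat_lit 0x200005),.c (nat_lit 3) (nat_lit 2),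
    .c (nat_lit 3) (nat_lit 0x18002),.r (nat_lit 0x17cf) (nat_lit 6) [nat_lit 0x6318801,nat_lit 65,nat_lit 0xc0020001,
    nat_lit 0x84000001],.r (nat_lit 2) (nat_lit 13) [nat_lit 0x84200061,nat_lit 65],.c (nat_lit 0) (nat_lit 0x10003),
    .c (nat_lit 5) (nat_lit 0x18002),.c (nat_lit 1) (nat_lit 0x18802),
    .r (nat_lit 0x174e) (nat_lit 8) [nat_lit 0x6018861,nat_lit 65],.r (nat_lit 0x174c) (nat_lit 9) [nat_lit 0x6318801,
    nat_lit 0x4020001,nat_lit 0xc6218861],.c (nat_lit 0) (nat_lit 0x220005),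
    .r (nat_lit 2) (nat_lit 13) [nat_lit 0x4200061,nat_lit 0x80000041],.c (nat_lit 4) (nat_lit 2),
    .r (nat_lit 2) (nat_lit 8) [nat_lit 0x6018861,nat_lit 65],.r (nat_lit 0x1b36) (nat_lit 4) [nat_lit 0x4220c41,
    nat_lit 0x65290a1,nat_lit 0x6318801],.c (nat_lit 5) (nat_lit 2),
    .r (nat_lit 0x11b2) (nat_lit 6) [nat_lit 0x1ad6b001,nat_lit 0x1ce6318a1,nat_lit 0x330c63401,nat_lit 0x1ce739801],
    .r (nat_lit 0x17cf) (nat_lit 10) [nat_lit 0x84000001,nat_lit 0x10041,nat_lit 0xc0000001,nat_lit 0x6318801],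
    .r (nat_lit 0x174e) (nat_lit 13) [nat_lit 0x6018861,nat_lit 0x88210c41],.c (nat_lit 0) (nat_lit 0x220005),
    .r (nat_lit 0x174c) (nat_lit 5) [nat_lit 0x84000001,nat_lit 0xc6318801,nat_lit 0xc6200861],
    .r (nat_lit 2) (nat_lit 8) [nat_lit 0xc6018861,nat_lit 0x80000041],.c (nat_lit 6) (nat_lit 2),
    .c (nat_lit 0) (nat_lit 0x6318c45),.c (nat_lit 7) (nat_lit 2)]]

/-- nodes -/
noncomputable def rD7k_19_2 : List RJ :=
  [.l (nat_lit 15) (nat_lit 0x1050) (nat_lit 5) (nat_lit 0x76300000821000006dd000006290000076500000629000008da000008da00000777000006d90000076900000769000006e4000006e4) (nat_lit 0xb900000177000002b1000001fd000002b100000175000000000000000000000201000001630000017100000171000001f6000001f6)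
    (nat_lit 0xd9017b02590566086017b8417876d086014303be07840ada0dfc3b406c80a3018902b806b011c6208425602b81198235031584df0c48159821404e00858170057186dd057012e035c06e009920b2c28c04b2057010a01bc04b412e615b421404c60dc0189021984330d6017b825a05c00ae01ac03b2876507f00ae02fa05f40ade0d1c2b8043006f010b0218057006f618a4258050c06480ae0214843310421db42b686dd0c521d9444a082211b228943b486e10ecc21e0471882f12e62b8c1bd876511b4225031587770d6617dc3ec08ea0570143026304b80a180ae03bb8a250dd0185020006b4096a18dc256043008500ae025803f80c5623642ce06e80a8015a01a8853b11a81e1031206e0057017d02fb86e10ad01ad02d005340d4a166c466077c0dc01ae019205f40d661da42a004000bf016803b0857309be0dfc21982cb08660d1c47508780a7618dc2b9859b06c813b8315856d08661324214856f0fb01d981a884b50ec21a942770364)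
    (nat_lit 0xd904140828105020a04140828105020a04140828105020a041402f606c820a04140828105020a04140828105020a04140828105009641460214105020a04140828105020a04140828105020a041402b3062409c010a0828105020a04140828105020a041408281050086015c021603780ae04140828105020a04140828105020a041402f706b00b8012d0358057020a04140828105020a041408281050105e238c49d882f0eca0dec44a105020a04140828105020a041403b688210dba15b43b2862910442250828105020a041408281050086012b015c042807f012c0412862b0dd04140828105020a0414028602b80970131815c050c11c218cc30a06e820a0414082810500ef81fe035c06e00be80c903b486b3080015002d0105020a041403c208200dc018902fa02b80dc217dc2b805680a68168082810500ada182426484330ade10a43b307d8096a0d44352875106c841401bf84df059610cc1a3843310701b0831b853b0b3615cc2770364)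
    (nat_lit 3) (nat_lit 193)
    [[nat_lit 2,nat_lit 3,nat_lit 4,nat_lit 0x10003,nat_lit 0x100003,nat_lit 18,nat_lit 258,nat_lit 0x10102,
    nat_lit 0x100102,nat_lit 0x1000102,nat_lit 0x110102,nat_lit 0x10002,nat_lit 0x20002,nat_lit 0x110002,
    nat_lit 0x100002,nat_lit 0x200002,nat_lit 0x1000002,nat_lit 17,nat_lit 273,nat_lit 0x10011,nat_lit 257,
    nat_lit 0x10111,nat_lit 0x10101,nat_lit 0x20101,nat_lit 0x110101,nat_lit 0x100101,nat_lit 0x200101,
    nat_lit 0x1100101,nat_lit 0x1000101,nat_lit 0x100111,nat_lit 513,nat_lit 0x20111,nat_lit 0x210101,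
    nat_lit 0x1010101,nat_lit 0x11001,nat_lit 0x101001,nat_lit 0x10001,nat_lit 0x20011,nat_lit 0x20001,
    nat_lit 0x110001,nat_lit 0x210001,nat_lit 0x1010001,nat_lit 0x100001,nat_lit 0x200001,nat_lit 0x300001,
    nat_lit 0x1100001,nat_lit 0x1000001],[nat_lit 32,nat_lit 288,nat_lit 0x10020,nat_lit 272,nat_lit 0x10210,
    nat_lit 0x10110,nat_lit 0x20110,nat_lit 0x100110,nat_lit 0x110110,nat_lit 0x1000110,nat_lit 0x1010,
    nat_lit 0x10010,nat_lit 0x20010,nat_lit 0x110010,nat_lit 0x120110,nat_lit 0x100010],[nat_lit 512,nat_lit 0x10200,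
    nat_lit 0x100200,nat_lit 0x110200,nat_lit 0x1000200,nat_lit 0x20200,nat_lit 0x1010200,nat_lit 0x11100,
    nat_lit 0x10100,nat_lit 0x20100,nat_lit 0x110100,nat_lit 0x120100,nat_lit 0x210100,nat_lit 0x1110100,
    nat_lit 0x1010100,nat_lit 0x100100,nat_lit 0x200200,nat_lit 0x1100200,nat_lit 0x101100,nat_lit 0x111100,
    nat_lit 0x1110200,nat_lit 0x200100,nat_lit 0x300100,nat_lit 0x1200100,nat_lit 0x210200,nat_lit 0x1200200,
    nat_lit 0x1100100,nat_lit 0x1000100,nat_lit 0x2000200,nat_lit 0x2000100],[nat_lit 0x11000,nat_lit 0x111000],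
    [nat_lit 0x20000,nat_lit 0x120000,nat_lit 0x110000,nat_lit 0x210000,nat_lit 0x1110000,nat_lit 0x1010000],
    [nat_lit 0x200000,nat_lit 0x300000,nat_lit 0x400000,nat_lit 0x1200000,nat_lit 0x1100000],[nat_lit 0x2000000]]
    [.c (nat_lit 1) (nat_lit 2),.c (nat_lit 0) (nat_lit 0x3ffb5),.c (nat_lit 0) (nat_lit 0x2db23),
    .c (nat_lit 1) (nat_lit 0x124da),.c (nat_lit 0) (nat_lit 0x2daa3),.r (nat_lit 0x1b36) (nat_lit 4) [nat_lit 0x401,
    nat_lit 0xa11,nat_lit 0x80001],.c (nat_lit 0) (nat_lit 0x3f6b5),.c (nat_lit 1) (nat_lit 0x1201a),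
    .c (nat_lit 0) (nat_lit 0x2d623),.r (nat_lit 0xfe5) (nat_lit 7) [nat_lit 0x10001,nat_lit 0x80401,nat_lit 0x82001,
    nat_lit 0x15b119],.c (nat_lit 0) (nat_lit 0x2d623),.c (nat_lit 0) (nat_lit 0x1b693),
    .c (nat_lit 5) (nat_lit 0x124da),.c (nat_lit 1) (nat_lit 0x1241a),.c (nat_lit 0) (nat_lit 0x3feb5),
    .c (nat_lit 0) (nat_lit 0x2da23),.r (nat_lit 32) (nat_lit 3) [nat_lit 0xc3499,nat_lit 0x80401],
    .r (nat_lit 0x1750) (nat_lit 4) [nat_lit 17,nat_lit 0x80001],.r (nat_lit 0x1b36) (nat_lit 4) [nat_lit 0x401,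
    nat_lit 0x3611,nat_lit 0x80001],.r (nat_lit 32) (nat_lit 12) [nat_lit 0xc0099,nat_lit 0x80401],
    .c (nat_lit 1) (nat_lit 0x682),.c (nat_lit 2) (nat_lit 0x1201a),.c (nat_lit 0) (nat_lit 0x1b013),
    .c (nat_lit 5) (nat_lit 0x1201a),.c (nat_lit 1) (nat_lit 0x1209a),.c (nat_lit 0) (nat_lit 0x3f6f5),
    .c (nat_lit 0) (nat_lit 0x2d6e3),.r (nat_lit 0xfe5) (nat_lit 7) [nat_lit 0x10001,nat_lit 0x80401,nat_lit 0x82001,
    nat_lit 0x15b719],.r (nat_lit 32) (nat_lit 3) [nat_lit 0xc0099,nat_lit 0x80401],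
    .r (nat_lit 0x15a4) (nat_lit 11) [nat_lit 0x20001,nat_lit 0x411,nat_lit 0x100419,nat_lit 0x168719],
    .c (nat_lit 0) (nat_lit 0x3f4f5),.r (nat_lit 32) (nat_lit 3) [nat_lit 0x900d1,nat_lit 0x80401],
    .c (nat_lit 0) (nat_lit 0x2d6e3),.c (nat_lit 2) (nat_lit 0x18013),.c (nat_lit 0) (nat_lit 0x180c2),
    .c (nat_lit 5) (nat_lit 0x13695),.c (nat_lit 0) (nat_lit 0x1b693),.r (nat_lit 0xfe5) (nat_lit 7) [nat_lit 0x10001,
    nat_lit 0x80401,nat_lit 0x82001,nat_lit 0x611],.c (nat_lit 5) (nat_lit 0x124dc),.c (nat_lit 0) (nat_lit 0x1b613),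
    .c (nat_lit 1) (nat_lit 0x1249a),.r (nat_lit 0x174e) (nat_lit 4) [nat_lit 0xc0099,nat_lit 0x80401],
    .c (nat_lit 1) (nat_lit 130),.c (nat_lit 0) (nat_lit 0x3fef5),.c (nat_lit 0) (nat_lit 0x2dae3),
    .r (nat_lit 32) (nat_lit 3) [nat_lit 0xc3099,nat_lit 0x80401],.r (nat_lit 0) (nat_lit 6) [nat_lit 0x2611,
    nat_lit 0x80401],.c (nat_lit 2) (nat_lit 2),.r (nat_lit 0x117c) (nat_lit 4) [nat_lit 0x144b19,nat_lit 0x5001,
    nat_lit 0x104001,nat_lit 17],.r (nat_lit 0x1b11) (nat_lit 13) [nat_lit 0x2001,nat_lit 0x80001,nat_lit 0x820d1],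
    .r (nat_lit 0x1750) (nat_lit 4) [nat_lit 0x3411,nat_lit 0x80001],.c (nat_lit 2) (nat_lit 0x1269a),
    .r (nat_lit 32) (nat_lit 12) [nat_lit 0xc2699,nat_lit 0x80401],.r (nat_lit 0xfe5) (nat_lit 7) [nat_lit 0x10001,
    nat_lit 0x80401,nat_lit 0x82001,nat_lit 0x3011],.r (nat_lit 0x1b36) (nat_lit 4) [nat_lit 0x401,nat_lit 0x3011,
    nat_lit 0x80001],.c (nat_lit 2) (nat_lit 0x1209a),.c (nat_lit 5) (nat_lit 0x1a4d5),
    .r (nat_lit 0) (nat_lit 6) [nat_lit 0x92019,nat_lit 0x80401],.r (nat_lit 0) (nat_lit 5) [nat_lit 0x80401,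
    nat_lit 17],.r (nat_lit 0x1a22) (nat_lit 0) [nat_lit 0x2001,nat_lit 0x80001,nat_lit 0x820d1],
    .r (nat_lit 32) (nat_lit 12) [nat_lit 0xc0699,nat_lit 0x80401],.r (nat_lit 32) (nat_lit 3) [nat_lit 0x904d1,
    nat_lit 0x80401],.r (nat_lit 0x1750) (nat_lit 4) [nat_lit 0x411,nat_lit 0x80001],.c (nat_lit 3) (nat_lit 2),
    .c (nat_lit 0) (nat_lit 0x1b4d3),.c (nat_lit 0) (nat_lit 0x3f5f5),.c (nat_lit 1) (nat_lit 0x1271a),
    .r (nat_lit 32) (nat_lit 3) [nat_lit 0xc2699,nat_lit 0x80401],.c (nat_lit 5) (nat_lit 0x1269a),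
    .c (nat_lit 2) (nat_lit 0x184d3),.c (nat_lit 0) (nat_lit 0x18602),.c (nat_lit 0) (nat_lit 0x1b4d3),
    .c (nat_lit 5) (nat_lit 0x1269c),.c (nat_lit 0) (nat_lit 0x1b0d3),.c (nat_lit 5) (nat_lit 0x1209a),
    .c (nat_lit 1) (nat_lit 0x1211a),.c (nat_lit 2) (nat_lit 0x180d3),
    .r (nat_lit 0x174e) (nat_lit 4) [nat_lit 0xc2699,nat_lit 0x80401],.c (nat_lit 1) (nat_lit 0x702),
    .c (nat_lit 0) (nat_lit 0x2d163),.r (nat_lit 0xfe5) (nat_lit 7) [nat_lit 0x10001,nat_lit 0x80401,nat_lit 0x82001,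
    nat_lit 0x158b19],.c (nat_lit 5) (nat_lit 0x134d5),.c (nat_lit 1) (nat_lit 0x3013),
    .r (nat_lit 32) (nat_lit 12) [nat_lit 0x904d1,nat_lit 0x80401],.c (nat_lit 0) (nat_lit 0x3f7f5),
    .c (nat_lit 0) (nat_lit 0x2d763),.r (nat_lit 0xfe5) (nat_lit 7) [nat_lit 0x10001,nat_lit 0x80401,nat_lit 0x82001,
    nat_lit 0x15bb19],.c (nat_lit 0) (nat_lit 0x2d163),.r (nat_lit 0x1a22) (nat_lit 0) [nat_lit 0x2001,
    nat_lit 0x80001,nat_lit 0xdaa99],.r (nat_lit 32) (nat_lit 3) [nat_lit 0xc0699,nat_lit 0x80401],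
    .r (nat_lit 0) (nat_lit 6) [nat_lit 17,nat_lit 0x80401],.r (nat_lit 32) (nat_lit 12) [nat_lit 18,nat_lit 0x80401],
    .r (nat_lit 0x1aea) (nat_lit 2) [nat_lit 0x2601,nat_lit 0x80401,nat_lit 0x800d1],
    .r (nat_lit 0x1750) (nat_lit 3) [nat_lit 17,nat_lit 0x10001],.c (nat_lit 0) (nat_lit 0x18002),
    .c (nat_lit 5) (nat_lit 2),.c (nat_lit 5) (nat_lit 0x1249c),.c (nat_lit 0) (nat_lit 0x1b6d5),
    .c (nat_lit 0) (nat_lit 0x1b6d3),.r (nat_lit 0x174e) (nat_lit 4) [nat_lit 0xc0699,nat_lit 0x80401],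
    .r (nat_lit 0x196a) (nat_lit 3) [nat_lit 17,nat_lit 0x1004d1,nat_lit 0xc0699],.c (nat_lit 6) (nat_lit 2),
    .c (nat_lit 0) (nat_lit 0x3fff5),.c (nat_lit 0) (nat_lit 0x2db63),.r (nat_lit 32) (nat_lit 3) [nat_lit 0xc3699,
    nat_lit 0x80401],.r (nat_lit 0) (nat_lit 6) [nat_lit 0x2011,nat_lit 0x80401],.c (nat_lit 7) (nat_lit 2)]]

/-- nodes -/
noncomputable def rD7k_19_3 : List RJ :=
  [.l (nat_lit 12) (nat_lit 960) (nat_lit 4) (nat_lit 0x1bb000001bb0000019d0000019d000001b6000001b6000001b7000001b7000001b4000001b40000022e0000022e000001a9000001a9) (nat_lit 0x73000000730000009100000091000000780000007800000077000000770000007a0000007a00000000000000000000008500000085)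
    (nat_lit 0x14c13e18618a13514317e17a0d316714b1411360e414814c15812a14d13f14a1441291411591bb0d60b012a18a11010c1250f712611c12311d2231b511417a15818610c11012312511c1180eb11b20b19d11811813f1431250f714c13e14714113c1461b61ee0d50c314d13512312513e14c14313f14a13c1d220a0fb0d114417a11811c13f1411401400e91392171a914011614a17e11c1261431471401400c913d2171a910c0da14116711b11d13c14613d13914813a20c2280f50cf1290d30eb12314a13c0c90e91fc1481981b41a91c31bb14119d1b520a1ee1a91a91b422819a16c2171c515914b20b2231d21b621721719820c1be19a1fb1a90b00e411817a0d10c30da1161c30cf1a91c51941940d61361181140fb0d510c1401a90f51fb21712e194)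
    (nat_lit 0x14c3c03c03c03c03c03c03c03c03c03c03c03c03c013e14c3c03c03c03c03c03c03c03c03c03c03c03c01861581103c03c03c03c03c03c03c03c03c03c03c018a12a10c1103c03c03c03c03c03c03c03c03c03c013514d12512314c3c03c03c03c03c03c03c03c03c014313f0f712513e14c3c03c03c03c03c03c03c03c017e14a12611c1471431403c03c03c03c03c03c03c017a14411c11814113f1401403c03c03c03c03c03c00d31291230eb13c14a0e90c91483c03c03c03c03c016714111d11b14613c13913d13a1483c03c03c03c014b15922320b1b61d221721720c19819a3c03c03c01411bb1b519d1ee20a1a91a92281b416c19a3c03c01360d61141180d50fb14010c0f51a92171fb1943c00e40b017a1180c30d11160da0cf1831c51a9194194)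
    (nat_lit 4) (nat_lit 83)
    [[nat_lit 2,nat_lit 0x1002,nat_lit 0x10002,nat_lit 0x1000002,nat_lit 0x1000102,nat_lit 257,nat_lit 0x1101,
    nat_lit 0x1201,nat_lit 0x10101,nat_lit 0x100101,nat_lit 0x110101,nat_lit 0x1000101,nat_lit 0x1001,nat_lit 0x2001,
    nat_lit 0x11001,nat_lit 0x101001,nat_lit 0x1001001,nat_lit 0x10001,nat_lit 0x20002,nat_lit 0x1010002,
    nat_lit 0x1010101,nat_lit 0x11101,nat_lit 0x20001,nat_lit 0x110001,nat_lit 0x1010001,nat_lit 0x100001,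
    nat_lit 0x1100101,nat_lit 0x200001,nat_lit 0x1100001,nat_lit 0x1000001,nat_lit 0x2000002,nat_lit 0x2000001,
    nat_lit 0x1001101],[nat_lit 32,nat_lit 0x1000010],[nat_lit 512,nat_lit 0x1200,nat_lit 0x100200,nat_lit 0x1000200,
    nat_lit 0x1100,nat_lit 0x2100,nat_lit 0x11100,nat_lit 0x101100,nat_lit 0x1001100,nat_lit 0x10100,nat_lit 0x110100,
    nat_lit 0x1010100,nat_lit 0x100100,nat_lit 0x200100,nat_lit 0x1100100,nat_lit 0x1000100,nat_lit 0x2000100],
    [nat_lit 0x2000,nat_lit 0x102000,nat_lit 0x11000,nat_lit 0x111000,nat_lit 0x101000,nat_lit 0x201000,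
    nat_lit 0x1001000],[nat_lit 0x20000,nat_lit 0x120000,nat_lit 0x110000,nat_lit 0x210000,nat_lit 0x1110000,
    nat_lit 0x1010000],[nat_lit 0x200000,nat_lit 0x300000,nat_lit 0x1100000],[nat_lit 0x2000000]]
    [.c (nat_lit 1) (nat_lit 2),.r (nat_lit 0x1b19) (nat_lit 7) [nat_lit 0x20001,nat_lit 0x200001,nat_lit 0x33021],
    .r (nat_lit 32) (nat_lit 13) [nat_lit 0x332231,nat_lit 0x200001],
    .r (nat_lit 0x1a9a) (nat_lit 12) [nat_lit 0x202001,nat_lit 0x505021,nat_lit 0x220001],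
    .c (nat_lit 5) (nat_lit 0x33223),.r (nat_lit 0x1b04) (nat_lit 13) [nat_lit 0x202001,nat_lit 0x3021],
    .r (nat_lit 0x1aef) (nat_lit 9) [nat_lit 0x300231,nat_lit 0x202031,nat_lit 33],
    .r (nat_lit 0x1aad) (nat_lit 4) [nat_lit 0x2001,nat_lit 0x23022,nat_lit 0x200001],
    .r (nat_lit 0x174e) (nat_lit 5) [nat_lit 0x332231,nat_lit 0x200001],
    .r (nat_lit 0x1aef) (nat_lit 9) [nat_lit 0x330231,nat_lit 0x232031,nat_lit 0x20021],
    .c (nat_lit 7) (nat_lit 0x33023),.r (nat_lit 32) (nat_lit 11) [nat_lit 0x332231,nat_lit 0x200001],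
    .c (nat_lit 1) (nat_lit 0x3202),.r (nat_lit 0x1b19) (nat_lit 7) [nat_lit 0x20001,nat_lit 0x200001,
    nat_lit 0x50021],.r (nat_lit 32) (nat_lit 13) [nat_lit 0x300231,nat_lit 0x200001],
    .r (nat_lit 0x1b19) (nat_lit 7) [nat_lit 0x20001,nat_lit 0x200001,nat_lit 0x30021],
    .r (nat_lit 0x1a9a) (nat_lit 12) [nat_lit 0x202001,nat_lit 0x533021,nat_lit 0x220001],
    .r (nat_lit 0) (nat_lit 8) [nat_lit 33,nat_lit 0x200001],.r (nat_lit 32) (nat_lit 11) [nat_lit 34,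
    nat_lit 0x200001],.c (nat_lit 3) (nat_lit 0x33223),.c (nat_lit 1) (nat_lit 0x33223),
    .c (nat_lit 7) (nat_lit 0x30023),.r (nat_lit 0x1aea) (nat_lit 0) [nat_lit 0x2001,nat_lit 0x200001,
    nat_lit 0x220321],.r (nat_lit 32) (nat_lit 13) [nat_lit 0x330231,nat_lit 0x200001],
    .r (nat_lit 0x1aad) (nat_lit 4) [nat_lit 0x2001,nat_lit 0x300231,nat_lit 0x200001],.c (nat_lit 1) (nat_lit 514),
    .c (nat_lit 5) (nat_lit 0x33023),.r (nat_lit 0x1b19) (nat_lit 7) [nat_lit 0x20001,nat_lit 0x200001,nat_lit 33],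
    .r (nat_lit 0x1a9a) (nat_lit 12) [nat_lit 0x202001,nat_lit 0x503021,nat_lit 0x220001],
    .r (nat_lit 0x1750) (nat_lit 5) [nat_lit 0x3021,nat_lit 0x220001],.r (nat_lit 0x174e) (nat_lit 5) [nat_lit 34,
    nat_lit 0x200001],.r (nat_lit 0x117c) (nat_lit 5) [nat_lit 0x554431,nat_lit 0x45001,nat_lit 0x404001,nat_lit 33],
    .c (nat_lit 5) (nat_lit 0x30023),.c (nat_lit 2) (nat_lit 2),.r (nat_lit 0x1b1b) (nat_lit 5) [nat_lit 0x30001,
    nat_lit 0x330021,nat_lit 0x220001],.c (nat_lit 3) (nat_lit 2),.r (nat_lit 0x110d) (nat_lit 4) [nat_lit 0x400001,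
    nat_lit 0xb35431,nat_lit 0x440001,nat_lit 0x330021],.r (nat_lit 0x110d) (nat_lit 4) [nat_lit 0x400001,
    nat_lit 0xb55431,nat_lit 0x440001,nat_lit 0x300021],.r (nat_lit 0x1a22) (nat_lit 10) [nat_lit 0x32001,
    nat_lit 0x220001,nat_lit 0x202321],.r (nat_lit 0x1b04) (nat_lit 13) [nat_lit 0x202001,nat_lit 0x30021],
    .r (nat_lit 0x1aef) (nat_lit 9) [nat_lit 0x323231,nat_lit 0x220031,nat_lit 0x32021],
    .r (nat_lit 0x174e) (nat_lit 5) [nat_lit 0x300231,nat_lit 0x200001],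
    .r (nat_lit 0x1aef) (nat_lit 9) [nat_lit 0x303231,nat_lit 0x200031,nat_lit 0x2021],
    .r (nat_lit 32) (nat_lit 11) [nat_lit 0x300231,nat_lit 0x200001],.r (nat_lit 0x196a) (nat_lit 13) [nat_lit 33,
    nat_lit 0x420321,nat_lit 0x300231],.r (nat_lit 0x174e) (nat_lit 5) [nat_lit 0x330231,nat_lit 0x200001],
    .r (nat_lit 0x174d) (nat_lit 4) [nat_lit 0x303231,nat_lit 0x202001],
    .r (nat_lit 0x1b04) (nat_lit 13) [nat_lit 0x202001,nat_lit 33],.r (nat_lit 0x1aef) (nat_lit 9) [nat_lit 0x333231,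
    nat_lit 0x230031,nat_lit 0x22021],.r (nat_lit 32) (nat_lit 11) [nat_lit 0x330231,nat_lit 0x200001],
    .r (nat_lit 0) (nat_lit 3) [nat_lit 0x200001,nat_lit 33],.r (nat_lit 0x1b11) (nat_lit 1) [nat_lit 0x32001,
    nat_lit 0x220001,nat_lit 0x202321],.c (nat_lit 4) (nat_lit 2),.r (nat_lit 0x1b19) (nat_lit 7) [nat_lit 0x20001,
    nat_lit 0x200001,nat_lit 0x52021],.r (nat_lit 0) (nat_lit 8) [nat_lit 0x32021,nat_lit 0x200001],
    .r (nat_lit 32) (nat_lit 13) [nat_lit 0x303231,nat_lit 0x200001],.c (nat_lit 1) (nat_lit 0x3402),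
    .r (nat_lit 0x1b19) (nat_lit 7) [nat_lit 0x20001,nat_lit 0x200001,nat_lit 0x32021],
    .r (nat_lit 0x1750) (nat_lit 5) [nat_lit 0x30021,nat_lit 0x220001],.c (nat_lit 5) (nat_lit 2),
    .r (nat_lit 0x1aea) (nat_lit 0) [nat_lit 0x2001,nat_lit 0x200001,nat_lit 0x222321],
    .r (nat_lit 0) (nat_lit 8) [nat_lit 0x2021,nat_lit 0x200001],.r (nat_lit 32) (nat_lit 13) [nat_lit 0x333231,
    nat_lit 0x200001],.r (nat_lit 0x1aad) (nat_lit 4) [nat_lit 0x2001,nat_lit 0x303231,nat_lit 0x200001],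
    .r (nat_lit 0x1b39) (nat_lit 5) [nat_lit 0x30001,nat_lit 0x32001,nat_lit 33,nat_lit 0x220001],
    .c (nat_lit 6) (nat_lit 2),.r (nat_lit 0x1b19) (nat_lit 7) [nat_lit 0x20001,nat_lit 0x200001,nat_lit 0x2021],
    .r (nat_lit 0x1750) (nat_lit 5) [nat_lit 33,nat_lit 0x220001],.c (nat_lit 7) (nat_lit 2)],
    .l (nat_lit 11) (nat_lit 480) (nat_lit 4) (nat_lit 0xd5000000b1000000c6000000c6000000c8000000c8000000c5000000c5000000bb000000ce000000ea000000ea000000dc000000af) (nat_lit 0x39000000150000002400000024000000220000002200000025000000250000001c0000002f00000000000000000000003b0000000e)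
    (nat_lit 0x140320598b51662c45a0b40c8298670d01341803c0a0116234478891182304a88214c2a0390a311a2d4540a2148298508a116625c630c610e30c458b31442a0520a41422845289918c318468b11122c4520a614c298508a3158264678cd1162e8478b3148290530a614628c56095226444448ba1182d0508a114628c520a00c0258628c51141b0460b4142284518a11402903209617c300450601042984c89712a2644b096148230891000f82d04a86414a2cc560ac0c8180590a41c03384c0c0150340630c6222334600c519c400750ea208328530ce18c318898cf17c314701121d43a88b0dc146180588c31742e83006c1802d06e0ca1503383909a11a21c4488b1142284c07c22c410360a8)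
    (nat_lit 0x140780f01e03c0780f01e03c0780f01e03c0780640a03c0780f01e03c0780f01e03c0780f01e016622c541e03c0780f01e03c0780f01e03c07805a88d1442a0f01e03c0780f01e03c0780f01e016623c520a414c780f01e03c0780f01e03c07805888914c290530a63c0780f01e03c0780f01e0168230508a114228c521e03c0780f01e03c07805a08c142284518a3140290f01e03c0780f01e00c8254598a51582b030064148780f01e03c07805308212e2644c89512c258460a43c0780f01e019c298630c619e44c628be224380751e03c0780680a818c3186691118a300800ce1d43a8f01e01341c84388d1162244508a0f826082116150780300a31862c45d0ba0d81805a0c0194370660a8)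
    (nat_lit 3) (nat_lit 71)
    [[nat_lit 2,nat_lit 0x1002,nat_lit 0x1000002,nat_lit 0x2002,nat_lit 0x1001002,nat_lit 0x2000002,nat_lit 257,
    nat_lit 0x1101,nat_lit 0x1001101,nat_lit 0x1000101,nat_lit 0x2000101,nat_lit 0x1001,nat_lit 0x2001,
    nat_lit 0x101001,nat_lit 0x1001001,nat_lit 0x10001,nat_lit 0x11001,nat_lit 0x1010001,nat_lit 0x100001,
    nat_lit 0x1100001,nat_lit 0x1000001,nat_lit 0x2000001],[nat_lit 32,nat_lit 0x1010,nat_lit 0x100010,
    nat_lit 0x1000010],[nat_lit 512,nat_lit 0x1200,nat_lit 0x1000200,nat_lit 0x1100,nat_lit 0x1001200,nat_lit 0x2100,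
    nat_lit 0x11100,nat_lit 0x101100,nat_lit 0x1001100,nat_lit 0x10100,nat_lit 0x1010100,nat_lit 0x100100,
    nat_lit 0x1100100,nat_lit 0x1000100,nat_lit 0x2000200,nat_lit 0x2000100],[nat_lit 0x2000,nat_lit 0x11000,
    nat_lit 0x101000,nat_lit 0x1001000],[nat_lit 0x20000,nat_lit 0x110000,nat_lit 0x1010000,nat_lit 0x2010000],
    [nat_lit 0x200000,nat_lit 0x1100000],[nat_lit 0x2000000]]
    [.c (nat_lit 1) (nat_lit 2),.r (nat_lit 4) (nat_lit 12) [nat_lit 0x1b499,nat_lit 0x12001],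
    .r (nat_lit 0x174d) (nat_lit 4) [nat_lit 0x1b499,nat_lit 0x10401],.r (nat_lit 32) (nat_lit 9) [nat_lit 18,
    nat_lit 0x10001],.c (nat_lit 6) (nat_lit 0x3693),.r (nat_lit 2) (nat_lit 1) [nat_lit 0x4a12,nat_lit 0x10401],
    .c (nat_lit 1) (nat_lit 0x682),.r (nat_lit 4) (nat_lit 12) [nat_lit 0x18099,nat_lit 0x12001],
    .c (nat_lit 6) (nat_lit 0x3013),.r (nat_lit 0x174d) (nat_lit 4) [nat_lit 0x18099,nat_lit 0x10401],
    .r (nat_lit 2) (nat_lit 1) [nat_lit 0x2612,nat_lit 0x10401],.r (nat_lit 0) (nat_lit 5) [nat_lit 17,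
    nat_lit 0x10001],.r (nat_lit 0x1a83) (nat_lit 7) [nat_lit 0x120d1,nat_lit 0x34551,nat_lit 0x2b719],
    .r (nat_lit 2) (nat_lit 1) [nat_lit 0x18099,nat_lit 0x10401],.r (nat_lit 32) (nat_lit 6) [nat_lit 0x18099,
    nat_lit 0x10001],.c (nat_lit 1) (nat_lit 130),.r (nat_lit 4) (nat_lit 12) [nat_lit 0x1b099,nat_lit 0x12001],
    .r (nat_lit 0x174d) (nat_lit 4) [nat_lit 0x1b099,nat_lit 0x10401],.r (nat_lit 0) (nat_lit 1) [nat_lit 0x10001,
    nat_lit 0x2611],.r (nat_lit 32) (nat_lit 9) [nat_lit 0x1b499,nat_lit 0x10001],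
    .r (nat_lit 0x1750) (nat_lit 13) [nat_lit 0x12001,nat_lit 0x611],.r (nat_lit 0x1a1a) (nat_lit 1) [nat_lit 0x401,
    nat_lit 0x10001,nat_lit 0x120d1],.c (nat_lit 2) (nat_lit 2),.r (nat_lit 0xfd5) (nat_lit 7) [nat_lit 0x3001,
    nat_lit 0x4699,nat_lit 0x3401,nat_lit 0x12001],.r (nat_lit 0xfe4) (nat_lit 6) [nat_lit 0x4699,nat_lit 0x324d1,
    nat_lit 0x3899,nat_lit 0x3b6a1],.r (nat_lit 0x1b3a) (nat_lit 10) [nat_lit 0x2001,nat_lit 0x18011,nat_lit 0x10001],
    .c (nat_lit 3) (nat_lit 2),.r (nat_lit 4) (nat_lit 12) [nat_lit 0x1a699,nat_lit 0x12001],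
    .r (nat_lit 0x174d) (nat_lit 4) [nat_lit 0x1a699,nat_lit 0x10401],.r (nat_lit 0) (nat_lit 5) [nat_lit 0x3411,
    nat_lit 0x10001],.c (nat_lit 6) (nat_lit 0x34d3),.r (nat_lit 0x1a83) (nat_lit 7) [nat_lit 0x104d1,nat_lit 0x32951,
    nat_lit 0x28b19],.r (nat_lit 4) (nat_lit 12) [nat_lit 0x18699,nat_lit 0x12001],
    .r (nat_lit 2) (nat_lit 1) [nat_lit 0x1a699,nat_lit 0x10401],.r (nat_lit 32) (nat_lit 6) [nat_lit 0x1a699,
    nat_lit 0x10001],.c (nat_lit 1) (nat_lit 0x702),.r (nat_lit 0x174d) (nat_lit 4) [nat_lit 0x18699,nat_lit 0x10401],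
    .r (nat_lit 0) (nat_lit 1) [nat_lit 0x10001,nat_lit 17],.r (nat_lit 32) (nat_lit 9) [nat_lit 0x18099,
    nat_lit 0x10001],.r (nat_lit 0x1750) (nat_lit 13) [nat_lit 0x12001,nat_lit 0x3011],
    .r (nat_lit 2) (nat_lit 1) [nat_lit 18,nat_lit 0x10401],.r (nat_lit 0x1a1a) (nat_lit 1) [nat_lit 0x401,
    nat_lit 0x10001,nat_lit 0x104d1],.c (nat_lit 4) (nat_lit 2),.r (nat_lit 0) (nat_lit 5) [nat_lit 0x411,
    nat_lit 0x10001],.r (nat_lit 0x1750) (nat_lit 4) [nat_lit 0x10401,nat_lit 17],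
    .r (nat_lit 0x1a69) (nat_lit 0) [nat_lit 0x601,nat_lit 17,nat_lit 0x10401],.c (nat_lit 5) (nat_lit 2),
    .r (nat_lit 0) (nat_lit 1) [nat_lit 0x10001,nat_lit 0x2011],.r (nat_lit 0x1750) (nat_lit 13) [nat_lit 0x12001,
    nat_lit 17],.r (nat_lit 0x1a1a) (nat_lit 1) [nat_lit 0x401,nat_lit 0x10001,nat_lit 0x124d1],
    .c (nat_lit 6) (nat_lit 2),.r (nat_lit 10) (nat_lit 5) [nat_lit 0x12001,nat_lit 17],.c (nat_lit 7) (nat_lit 2)]]

/-- nodes -/
noncomputable def rD7k_19_4 : List RJ :=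
  [.l (nat_lit 9) (nat_lit 96) (nat_lit 4) (nat_lit 0x2f0000002f0000002a0000002a0000002a0000002a0000002a0000002a00000020000000340000002a0000002a0000002b0000002b) (nat_lit 0x5000000050000000a0000000a0000000a0000000a0000000a0000000a00000000000000140000000a0000000a0000000900000009)
    (nat_lit 0x150a84a11128944a250886c4a2513098542a128944a25128945e1b12894743a128444020100804020150581820108844a25100804020100805416100804221128944020100804020150584020108844a25100804020100805416100804221128944020100804020150584020108844a251008040201008054161008042210d86c2c160b0582c16100302c160b85c5e11150a8542a150a86820060a8562b1289440201008040201505840201f8fc4a251003040201008018161008042211d09842211088442211585c423f110887426108844221108845617108fc4422)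
    (nat_lit 0x15180c06030180c06030180c06030180542a30180c06030180c06030180c06012894406030180c06030180c06030180222510080c06030180c06030180c06012894402010180c06030180c060301804a2510080402030180c06030180c06012894402010080406030180c060301804a2510080402010080c06030180c060088bc542a150a8542a10180c06030180361b0b0582c160b058182030180c0601289418201008040200b0304060301804a25100804020100802c2a10080c060130e842211088442210b8ac7e21111804c3a108844221108842e2b1f8844422)
    (nat_lit 3) (nat_lit 49)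
    [[nat_lit 2,nat_lit 257,nat_lit 0x1001,nat_lit 0x10001,nat_lit 0x100001],[nat_lit 32,nat_lit 288,nat_lit 0x100020,
    nat_lit 272,nat_lit 0x1000110,nat_lit 544,nat_lit 0x100120,nat_lit 528,nat_lit 0x1000210,nat_lit 0x1110,
    nat_lit 0x10110,nat_lit 0x100110,nat_lit 0x1100110,nat_lit 0x1010,nat_lit 0x10010,nat_lit 0x100010,
    nat_lit 0x200020,nat_lit 0x101010,nat_lit 0x110010,nat_lit 0x200010,nat_lit 0x1100010,nat_lit 0x1000010],
    [nat_lit 512,nat_lit 0x1000200,nat_lit 0x1100,nat_lit 0x10100,nat_lit 0x100100,nat_lit 0x1100100,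
    nat_lit 0x1000100,nat_lit 0x2000200,nat_lit 0x1001100,nat_lit 0x1010100,nat_lit 0x2000100],[nat_lit 0x2000,
    nat_lit 0x11000,nat_lit 0x101000,nat_lit 0x1101000,nat_lit 0x1001000],[nat_lit 0x20000,nat_lit 0x110000,
    nat_lit 0x1110000,nat_lit 0x1010000],[nat_lit 0x200000,nat_lit 0x1200000,nat_lit 0x1100000],[nat_lit 0x2000000]]
    [.c (nat_lit 1) (nat_lit 2),.r (nat_lit 4) (nat_lit 13) [nat_lit 0x1a011,nat_lit 0x10001],
    .r (nat_lit 0x1b3b) (nat_lit 1) [nat_lit 0x10019,nat_lit 0x10419,nat_lit 17],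
    .r (nat_lit 32) (nat_lit 0) [nat_lit 0x2001,nat_lit 17],.r (nat_lit 0x174d) (nat_lit 4) [nat_lit 0x1a011,
    nat_lit 0x10401],.c (nat_lit 2) (nat_lit 2),.r (nat_lit 0x1a3a) (nat_lit 1) [nat_lit 0x106d1,nat_lit 0x100d1,
    nat_lit 0x499],.r (nat_lit 0x1a3a) (nat_lit 9) [nat_lit 0x100d1,nat_lit 0x106d1,nat_lit 0x499],
    .r (nat_lit 0x174f) (nat_lit 1) [nat_lit 0x611,nat_lit 0x10401],.r (nat_lit 0x1a3a) (nat_lit 1) [nat_lit 0x100d1,
    nat_lit 0x104d1,nat_lit 153],.r (nat_lit 2) (nat_lit 1) [nat_lit 0xa12,nat_lit 0x10401],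
    .r (nat_lit 0x15d0) (nat_lit 9) [nat_lit 0x1a499,nat_lit 0x10001,nat_lit 0x10401,nat_lit 0x1b681],
    .r (nat_lit 0x1a83) (nat_lit 10) [nat_lit 0x100d1,nat_lit 0x30551,nat_lit 0x28119],
    .r (nat_lit 2) (nat_lit 1) [nat_lit 0x612,nat_lit 0x10401],.c (nat_lit 3) (nat_lit 0x6c2),
    .r (nat_lit 0x174d) (nat_lit 4) [nat_lit 0x18099,nat_lit 0x10401],.r (nat_lit 32) (nat_lit 0) [nat_lit 0x2001,
    nat_lit 0x3099],.r (nat_lit 0x15d0) (nat_lit 9) [nat_lit 0x1a099,nat_lit 0x10001,nat_lit 0x10401,nat_lit 0x1b681],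
    .c (nat_lit 0) (nat_lit 0x483),.r (nat_lit 0x1b04) (nat_lit 4) [nat_lit 0x10001,nat_lit 17],
    .r (nat_lit 0x174d) (nat_lit 5) [nat_lit 0x2401,nat_lit 0x611],.r (nat_lit 2) (nat_lit 5) [nat_lit 18,
    nat_lit 0x10001],.c (nat_lit 6) (nat_lit 0x6c2),.r (nat_lit 4) (nat_lit 13) [nat_lit 0x18099,nat_lit 0x10001],
    .r (nat_lit 0x1a83) (nat_lit 5) [nat_lit 0x100d1,nat_lit 0x30551,nat_lit 0x28719],
    .r (nat_lit 0x1a3a) (nat_lit 9) [nat_lit 0x104d1,nat_lit 0x100d1,nat_lit 153],.c (nat_lit 1) (nat_lit 0x4083),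
    .c (nat_lit 3) (nat_lit 2),.r (nat_lit 0x1a83) (nat_lit 10) [nat_lit 0x104d1,nat_lit 0x30951,nat_lit 0x28719],
    .r (nat_lit 10) (nat_lit 1) [nat_lit 17,nat_lit 0x10001],.c (nat_lit 0) (nat_lit 0x36d3),
    .c (nat_lit 0) (nat_lit 0x36d3),.r (nat_lit 32) (nat_lit 0) [nat_lit 0x2001,nat_lit 0x3699],
    .r (nat_lit 0x174f) (nat_lit 1) [nat_lit 17,nat_lit 0x10401],.r (nat_lit 2) (nat_lit 1) [nat_lit 18,
    nat_lit 0x10401],.c (nat_lit 3) (nat_lit 0x602),.r (nat_lit 0x174d) (nat_lit 4) [nat_lit 0x18699,nat_lit 0x10401],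
    .r (nat_lit 0x1a3a) (nat_lit 1) [nat_lit 0x104d1,nat_lit 0x108d1,nat_lit 0x699],.c (nat_lit 4) (nat_lit 2),
    .r (nat_lit 10) (nat_lit 4) [nat_lit 17,nat_lit 0x10401],.r (nat_lit 0x1750) (nat_lit 4) [nat_lit 0x10401,
    nat_lit 17],.c (nat_lit 6) (nat_lit 0x602),.c (nat_lit 0) (nat_lit 0x403),.c (nat_lit 5) (nat_lit 2),
    .c (nat_lit 0) (nat_lit 0x36d3),.r (nat_lit 4) (nat_lit 13) [nat_lit 0x18699,nat_lit 0x10001],
    .r (nat_lit 0x1b04) (nat_lit 4) [nat_lit 0x10001,nat_lit 0x411],.c (nat_lit 6) (nat_lit 2),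
    .r (nat_lit 0x1a83) (nat_lit 5) [nat_lit 0x104d1,nat_lit 0x30951,nat_lit 0x28b19],
    .r (nat_lit 0x174d) (nat_lit 5) [nat_lit 0x2401,nat_lit 17],.c (nat_lit 7) (nat_lit 2)],
    .l (nat_lit 13) (nat_lit 0x780) (nat_lit 4) (nat_lit 0x396000002ca0000032a0000032a0000033600000336000002a2000002e6000003d0000003d000000367000003670000032900000329) (nat_lit 0x1060000003a000000a6000000a60000009a0000009a000000ea0000012e00000000000000000000006900000069000000a7000000a7)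
    (nat_lit 0x1480d705f82f017e0bc0300238213109863e2211778bf436829010808905582340f006706b435a13189844462011120bc05002941480a903601801950ca85c62311418a044202fc1420a004b829012008405b42861778b0451e29d11a0bc05202a41440a705e023c19b0cd856631d14189845582fc12e0a404b828816e08205b425e1958ba457e29d0ce08e042018010408f05201b414308484562950fd86743c018012006c05b82f019e0a405cc2e612d8dc435e18d1ad109850c32a12f0cd85cc21216e0a4083236722a8d2c6b442616d0ca85b43361730a187a02dc20c8d9c86a32b13088845822311748c746e22951b38d9c5f82fe11808384c631f1778b8c6562b312d88ac83241917f0bf05642c01008bf453a28114e898431a19d1958d2c58020e1480a084462ef1478a0c57e2830d787ec86a45515908c0504290)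
    (nat_lit 0x1481e00f007803c01e00f007803c01e00f007803c01e006b82903c01e00f007803c01e00f007803c01e00f0078017e08405007803c01e00f007803c01e00f007803c01e005e022414a0a00f007803c01e00f007803c01e00f0078017e0ab052025c1441e00f007803c01e00f007803c01e005e02341520a405382883c01e00f007803c01e00f007800c007803602401780b705207803c01e00f007803c01e0047019c0c008404782080da0a40f007803c01e00f007802030d686542da19b0b6850c2e616e1e00f007803c01e0072435a1950a1866c25e1090b985202dc3c01e00f0078018f898c5c62ef1598cac45625b20c90645f87803c01e004422611188b0463a2e914a8dc46ce36717f0bf0f00780177888c50628f1418afc3f61af1e090d44602b21481e005fa2011408a744c229d0ce863469632b1070b00504290)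
    (nat_lit 3) (nat_lit 57)
    [[nat_lit 2,nat_lit 18,nat_lit 0x1002,nat_lit 0x2002,nat_lit 17,nat_lit 33,nat_lit 0x1011,nat_lit 0x1000011,
    nat_lit 0x1001,nat_lit 0x2001,nat_lit 0x11001,nat_lit 0x101001,nat_lit 0x102001,nat_lit 0x1001001,
    nat_lit 0x1002001,nat_lit 0x1101,nat_lit 0x10001,nat_lit 0x20001,nat_lit 0x110001,nat_lit 0x100001,
    nat_lit 0x1000001],[nat_lit 32,nat_lit 0x1010,nat_lit 0x101010,nat_lit 0x1001010,nat_lit 0x10010,nat_lit 0x110010,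
    nat_lit 0x100010,nat_lit 0x1100010,nat_lit 0x1000010,nat_lit 0x2000010],[nat_lit 512,nat_lit 0x1100,
    nat_lit 0x101100,nat_lit 0x1001100,nat_lit 0x10100,nat_lit 0x100100],[nat_lit 0x2000,nat_lit 0x102000,
    nat_lit 0x1002000,nat_lit 0x11000,nat_lit 0x111000,nat_lit 0x1011000,nat_lit 0x101000,nat_lit 0x1102000,
    nat_lit 0x201000,nat_lit 0x1101000,nat_lit 0x1001000,nat_lit 0x2002000,nat_lit 0x2001000],[nat_lit 0x20000,
    nat_lit 0x110000,nat_lit 0x1110000,nat_lit 0x1010000],[nat_lit 0x200000,nat_lit 0x1100000],[nat_lit 0x2000000]]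
    [.c (nat_lit 1) (nat_lit 2),.r (nat_lit 0x1b19) (nat_lit 0) [nat_lit 0x1b499,nat_lit 0x10001,nat_lit 0xa11],
    .r (nat_lit 0x19cf) (nat_lit 2) [nat_lit 0x601,nat_lit 0x2019,nat_lit 17,nat_lit 0x10401],
    .r (nat_lit 32) (nat_lit 5) [nat_lit 0xa12,nat_lit 0x2481a],.c (nat_lit 0) (nat_lit 0x3613),
    .r (nat_lit 0x19e0) (nat_lit 6) [nat_lit 0x2001,nat_lit 0x3d719,nat_lit 0x10001,nat_lit 0x10401],
    .r (nat_lit 8) (nat_lit 8) [nat_lit 0x18099,nat_lit 0x10401],.r (nat_lit 0x1b19) (nat_lit 0) [nat_lit 0x1b099,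
    nat_lit 0x10001,nat_lit 0x611],.r (nat_lit 32) (nat_lit 7) [nat_lit 0x12419,nat_lit 0x611],
    .r (nat_lit 0x19ee) (nat_lit 2) [nat_lit 0x601,nat_lit 0x4019,nat_lit 17,nat_lit 0x10401],
    .r (nat_lit 32) (nat_lit 2) [nat_lit 0x18099,nat_lit 0x10001],.c (nat_lit 1) (nat_lit 0x602),
    .r (nat_lit 32) (nat_lit 5) [nat_lit 0x3611,nat_lit 0x14419],.r (nat_lit 0x19cf) (nat_lit 2) [nat_lit 0x601,
    nat_lit 0x2619,nat_lit 0x411,nat_lit 0x10401],.r (nat_lit 32) (nat_lit 5) [nat_lit 0x612,nat_lit 0x2441a],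
    .c (nat_lit 6) (nat_lit 0x2483),.c (nat_lit 0) (nat_lit 0x3613),.r (nat_lit 0x19e0) (nat_lit 6) [nat_lit 0x2001,
    nat_lit 0x18611,nat_lit 0x10001,nat_lit 0x10401],.r (nat_lit 0x1b32) (nat_lit 10) [nat_lit 0x18099,
    nat_lit 0x10419,nat_lit 17],.r (nat_lit 4) (nat_lit 0) [nat_lit 0x12419,nat_lit 0x611],
    .c (nat_lit 1) (nat_lit 130),.c (nat_lit 2) (nat_lit 2),.r (nat_lit 0x1335) (nat_lit 11) [nat_lit 0x10001,
    nat_lit 0x10401,nat_lit 0x2b681,nat_lit 0x224d1],.c (nat_lit 2) (nat_lit 0x602),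
    .r (nat_lit 8) (nat_lit 8) [nat_lit 0x18699,nat_lit 0x10401],.c (nat_lit 0) (nat_lit 0x3613),
    .r (nat_lit 32) (nat_lit 5) [nat_lit 0x18699,nat_lit 0x224d1],.r (nat_lit 0) (nat_lit 3) [nat_lit 17,
    nat_lit 0x10001],.r (nat_lit 0x19c0) (nat_lit 9) [nat_lit 0x2001,nat_lit 0x18699,nat_lit 0x10401,nat_lit 0x10001],
    .c (nat_lit 0) (nat_lit 0x36d3),.r (nat_lit 0x1b19) (nat_lit 0) [nat_lit 0x1b699,nat_lit 0x10001,nat_lit 17],
    .c (nat_lit 3) (nat_lit 2),.r (nat_lit 4) (nat_lit 6) [nat_lit 0x12019,nat_lit 17],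
    .c (nat_lit 1) (nat_lit 0x2483),.c (nat_lit 6) (nat_lit 0x2403),.r (nat_lit 0x1b19) (nat_lit 0) [nat_lit 0x18011,
    nat_lit 0x10001,nat_lit 0x3699],.r (nat_lit 32) (nat_lit 5) [nat_lit 0x12019,nat_lit 17],
    .c (nat_lit 4) (nat_lit 2),.c (nat_lit 4) (nat_lit 0x602),.r (nat_lit 0x19ee) (nat_lit 2) [nat_lit 0x601,
    nat_lit 0x4619,nat_lit 0x411,nat_lit 0x10401],.r (nat_lit 0x1969) (nat_lit 3) [nat_lit 0x10401,nat_lit 0x124d1,
    nat_lit 0x18699],.c (nat_lit 5) (nat_lit 0x602),.r (nat_lit 32) (nat_lit 2) [nat_lit 0x18699,nat_lit 0x10001],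
    .c (nat_lit 0) (nat_lit 0x403),.r (nat_lit 32) (nat_lit 5) [nat_lit 0x3011,nat_lit 0x14019],
    .c (nat_lit 6) (nat_lit 0x602),.c (nat_lit 1) (nat_lit 0x682),.r (nat_lit 32) (nat_lit 7) [nat_lit 0x12019,
    nat_lit 17],.r (nat_lit 32) (nat_lit 5) [nat_lit 18,nat_lit 0x2401a],
    .r (nat_lit 0x19cf) (nat_lit 2) [nat_lit 0x601,nat_lit 0x2a19,nat_lit 0x811,nat_lit 0x10401],
    .c (nat_lit 5) (nat_lit 2),.r (nat_lit 0x1750) (nat_lit 6) [nat_lit 17,nat_lit 0x10401],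
    .r (nat_lit 0x1b32) (nat_lit 10) [nat_lit 0x18699,nat_lit 0x10019,nat_lit 0x411],.c (nat_lit 0) (nat_lit 0x36d3),
    .c (nat_lit 6) (nat_lit 2),.r (nat_lit 4) (nat_lit 0) [nat_lit 0x12019,nat_lit 17],.c (nat_lit 7) (nat_lit 2)],
    .l (nat_lit 12) (nat_lit 720) (nat_lit 3) (nat_lit 0x12a0000012a0000011a0000011a0000010d0000010d000001280000012800000100000001000000011600000116000001030000010b) (nat_lit 0x10000000100000001d0000001d00000002000000020000002a0000002a00000014000000140000001f00000027)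
    (nat_lit 0x10a12411a11a10d12d17816e0e01000f611610b11b12a10a13a11a10d10d16215810010011611210b0fd11a11a10a10a0cd0dd1181180f40b610c10611b0f313a11a12610a0eb0fd1181181100d812a1060db0ef10d12d0fd0dd0f00d412311d0e30e30fd0d90ee0c210d10d0eb0cd10c0f010b10b0fd1190f30f30a80e615816e11811810b11d0f010a1040fe1140fa10910716217811811810b1230fe0f01040fe1140ec10910d1001000d80b61190e30fe0fe0fe0fe0e00e60910d91000e01100f40fd0e31041040d60fe0ec0ec0e10d91121161061060f30d90ec0fa0ec0e61021021170ef1160f612a10c0f30fd1141140ec0e01021020df0ef0fd11b0ef0f30e60c210d1070d90d90ef0ef1040dc10b10b0db11b0a80ee1091090e10910df1170f2104)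
    (nat_lit 0x10a2d02d02d02d02d02d02d02d02d02d02d02d02d012410a2d02d02d02d02d02d02d02d02d02d02d02d011a13a10a2d02d02d02d02d02d02d02d02d02d02d011a11a10a10a2d02d02d02d02d02d02d02d02d02d010d10d0cd0eb0f02d02d02d02d02d02d02d02d02d012d10d0dd0fd0d40f02d02d02d02d02d02d02d02d017816211811812310b0f02d02d02d02d02d02d02d016e15811811811d10b10a0f02d02d02d02d02d02d00e01000f41100e30fd1041040fe2d02d02d02d02d01001000b60d80e31190fe0fe0fe0fe2d02d02d02d00f611610c12a0fd0f31141140e00ec1022d02d02d01161121061060d90f30fa0ec0e60ec1021022d02d010b10b11b0db0ee0a81091090910e11170df1042d011b0fd0f30ef0c20e610710d0d90d90ef0ef0dc104)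
    (nat_lit 5) (nat_lit 43)
    [[nat_lit 2,nat_lit 258,nat_lit 0x10002,nat_lit 17,nat_lit 0x10011,nat_lit 273,nat_lit 257,nat_lit 513,
    nat_lit 0x1101,nat_lit 0x10101,nat_lit 0x100101,nat_lit 0x1000101,nat_lit 0x1001,nat_lit 0x10001,nat_lit 0x20001,
    nat_lit 0x110001,nat_lit 0x100001,nat_lit 0x1000001],[nat_lit 32,nat_lit 288,nat_lit 0x10020,nat_lit 272,
    nat_lit 528,nat_lit 0x10110,nat_lit 0x100110,nat_lit 0x1010,nat_lit 0x10010,nat_lit 0x20010,nat_lit 0x100010,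
    nat_lit 0x1000010],[nat_lit 512,nat_lit 0x100200,nat_lit 0x1100,nat_lit 0x10100,nat_lit 0x110100,nat_lit 0x100100,
    nat_lit 0x1000100],[nat_lit 0x2000,nat_lit 0x11000,nat_lit 0x101000],[nat_lit 0x20000,nat_lit 0x120000,
    nat_lit 0x110000,nat_lit 0x1010000],[nat_lit 0x200000,nat_lit 0x1100000],[nat_lit 0x2000000]]
    [.c (nat_lit 1) (nat_lit 2),.c (nat_lit 1) (nat_lit 0x2110a4),.r (nat_lit 0xded) (nat_lit 8) [nat_lit 0x882000a2,
    nat_lit 65,nat_lit 0xc0300081,nat_lit 0x802200a1],.c (nat_lit 3) (nat_lit 0x6519484),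
    .r (nat_lit 32) (nat_lit 7) [nat_lit 0x18861,nat_lit 0x10001],.c (nat_lit 2) (nat_lit 0x2110a4),
    .c (nat_lit 0) (nat_lit 0x319485),.c (nat_lit 3) (nat_lit 0x2110a4),.c (nat_lit 4) (nat_lit 0x2110a4),
    .c (nat_lit 5) (nat_lit 0x2110a4),.c (nat_lit 6) (nat_lit 0x2110a4),.c (nat_lit 4) (nat_lit 0x318085),
    .r (nat_lit 32) (nat_lit 12) [nat_lit 0x63010a2,nat_lit 65],.c (nat_lit 0) (nat_lit 0x4220009),
    .r (nat_lit 4) (nat_lit 13) [nat_lit 0x62010a2,nat_lit 0x300041],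
    .r (nat_lit 0x60f) (nat_lit 10) [nat_lit 0x80430121,nat_lit 0xc0200102,nat_lit 0xc0500101,nat_lit 0x80300082,
    nat_lit 0x8c400122],.r (nat_lit 0x55d) (nat_lit 8) [nat_lit 0x84000122,nat_lit 65,nat_lit 0xc0000101,
    nat_lit 0xc0200102,nat_lit 0x80010121],.r (nat_lit 4) (nat_lit 13) [nat_lit 0x63010a2,nat_lit 65],
    .c (nat_lit 2) (nat_lit 2),.r (nat_lit 0x610) (nat_lit 10) [nat_lit 0x8a492501,nat_lit 0xc864a122,
    nat_lit 0xc854a121,nat_lit 0x1043290a2,nat_lit 0x8c442502],.r (nat_lit 0x604) (nat_lit 8) [nat_lit 0x84000002,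
    nat_lit 0x14a300081,nat_lit 0x882000a2,nat_lit 0xc6000041,nat_lit 0x1082100a1],
    .r (nat_lit 0x1b04) (nat_lit 8) [nat_lit 65,nat_lit 0x10001],.c (nat_lit 2) (nat_lit 0x4622124),
    .r (nat_lit 0x611) (nat_lit 8) [nat_lit 0x84042502,nat_lit 0x18861,nat_lit 0xc004a121,nat_lit 0xc024a122,
    nat_lit 0x80052501],.r (nat_lit 32) (nat_lit 1) [nat_lit 0x18861,nat_lit 0x10001],
    .r (nat_lit 32) (nat_lit 1) [nat_lit 0x844200a4,nat_lit 0x10001],.c (nat_lit 0) (nat_lit 0x210005),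
    .r (nat_lit 32) (nat_lit 7) [nat_lit 0xc604a0a4,nat_lit 0x10001],.c (nat_lit 0) (nat_lit 0x200c05),
    .r (nat_lit 32) (nat_lit 7) [nat_lit 0xc654a0a4,nat_lit 0x10001],.c (nat_lit 3) (nat_lit 2),
    .c (nat_lit 0) (nat_lit 0x652ad05),.r (nat_lit 4) (nat_lit 9) [nat_lit 0x63010a2,nat_lit 65],
    .c (nat_lit 0) (nat_lit 0x301485),.c (nat_lit 1) (nat_lit 0x42010a4),.c (nat_lit 0) (nat_lit 0x652a505),
    .r (nat_lit 32) (nat_lit 8) [nat_lit 0x63010a2,nat_lit 65],.c (nat_lit 4) (nat_lit 2),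
    .c (nat_lit 0) (nat_lit 0x10805),.r (nat_lit 0x1b3d) (nat_lit 11) [nat_lit 0x18041,nat_lit 0x6329002,
    nat_lit 0x10001],.c (nat_lit 5) (nat_lit 2),.r (nat_lit 0xded) (nat_lit 8) [nat_lit 0x4200061,nat_lit 0x80300082,
    nat_lit 0x500081,nat_lit 0x4200a1],.c (nat_lit 1) (nat_lit 0x4018004),
    .r (nat_lit 0x1b3d) (nat_lit 6) [nat_lit 0x18041,nat_lit 0x6329002,nat_lit 0x10001],.c (nat_lit 6) (nat_lit 2),
    .r (nat_lit 0xded) (nat_lit 8) [nat_lit 0x4000061,nat_lit 0x80200082,nat_lit 129,nat_lit 0x200a1],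
    .c (nat_lit 7) (nat_lit 2)]]

/-- nodes -/
noncomputable def rD7k_19_5 : List RJ :=
  [.l (nat_lit 15) (nat_lit 0x13b0) (nat_lit 3) (nat_lit 0xbb100000bb100000c7900000c0500000c2f00000c830000113000000b9c00000c5900000b9100000b2800000b2800000af400000af4) (nat_lit 0x57f0000057f0000052b000004b7000004ad0000050100000594000000000000059f000004d700000608000006080000063c0000063c)
    (nat_lit 0xf0417f834306fa0e081ac03a68d0b0c241b682ba85a90aea15d431907820d741be838206b00d4a318c30906da0b5216a42ba85170df41be83a707c20e341d103728c790db41c68367867109da18f435d06860db41d383ac07040e7233342aa069c0cb616542e484ed0d601ac038207440d741cb83968c2f0df01a4038187390be6165438207040eb01c683eb06ba0f02320c6900cb80f2e1e5c276864718c6342c6668c79190630bc348113014ea2f1c59404ec15e82760352874d0e721b943c0872d09d81a402af86c50b2813b02b004ec0db41b6834e071a19701a403628bc70ec4227836286ef09da187430906120aa81b6869006f80abe29d42fe07620b1216242aa85550b5216a42ca86710f2e1ce427604ec0b121bbc290051609d813b02d485750cb61b3c3cb87030b282ca02c486c509d8148027604ec0a2e15d4276863d0c8e165427609d80aaa187427604ec09d813b02ba85750b9213b427685f30ac02bd02aa84ed09d813b027604ec)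
    (nat_lit 0xf044ec09d813b027604ec09d813b027604ec09d813b027604ec02ff078227604ec09d813b027604ec09d813b027604ec09d813b00d0c1ae83a713b027604ec09d813b027604ec09d813b027604ec037d06fa0f841d389d813b027604ec09d813b027604ec09d813b00e081c1038d07580d744ec09d813b027604ec09d813b027604ec035806b00e881c1039706ba27604ec09d813b027604ec09d813b00e9a1a9437287390e5a1e0434813b027604ec09d813b027604ec06858c6318f233346178c8322601a409d813b027604ec09d813b00c24184836d05540df031b853a855f0ec44ec09d813b027604ec036d06da0e341a703480cb8178e1b1444f076227604ec09d813b00aea16a4367865b0e061e5c59405940d8a162429013b027604ec02d485a90ce2165439c879709d813b037785890a2c14809d813b00aea15d427685c90be613b44ec056009da155427604ec09d84ec02ba85170c7a13b42ca864713b013b030e855509d813b027604ec)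
    (nat_lit 4) (nat_lit 83)
    [[nat_lit 2,nat_lit 3,nat_lit 18,nat_lit 258,nat_lit 0x10002,nat_lit 0x100002,nat_lit 0x1000002,nat_lit 17,
    nat_lit 33,nat_lit 273,nat_lit 0x10011,nat_lit 0x100011,nat_lit 0x1000011,nat_lit 0x1011,nat_lit 257,nat_lit 513,
    nat_lit 0x10101,nat_lit 0x100101,nat_lit 0x1000101,nat_lit 0x1001,nat_lit 0x10001,nat_lit 0x20001,
    nat_lit 0x110001,nat_lit 0x1010001,nat_lit 0x100001,nat_lit 0x200001,nat_lit 0x1100001,nat_lit 0x1000001,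
    nat_lit 0x2000001],[nat_lit 32,nat_lit 48,nat_lit 288,nat_lit 0x1020,nat_lit 0x100020,nat_lit 0x1000020,
    nat_lit 272,nat_lit 0x1110,nat_lit 0x100110,nat_lit 0x1000110,nat_lit 0x1010,nat_lit 0x2010,nat_lit 0x10010,
    nat_lit 0x11010,nat_lit 0x100010,nat_lit 0x101010,nat_lit 0x1100010,nat_lit 0x1000010,nat_lit 0x1001010,
    nat_lit 0x2000010],[nat_lit 512,nat_lit 0x1100,nat_lit 0x100100,nat_lit 0x110100,nat_lit 0x1100100,
    nat_lit 0x1000100,nat_lit 0x1010100,nat_lit 0x2000100],[nat_lit 0x2000],[nat_lit 0x20000,nat_lit 0x110000,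
    nat_lit 0x1010000],[nat_lit 0x200000,nat_lit 0x1100000],[nat_lit 0x2000000]]
    [.c (nat_lit 1) (nat_lit 2),.r (nat_lit 0x8eb) (nat_lit 13) [nat_lit 33,nat_lit 0x60001,nat_lit 0x7070021,
    nat_lit 0xd6d0041,nat_lit 0xc0c6051],.c (nat_lit 0) (nat_lit 0x55543),.c (nat_lit 4) (nat_lit 0x404203),
    .c (nat_lit 0) (nat_lit 0x35543),.c (nat_lit 0) (nat_lit 0x277765),
    .r (nat_lit 0x116a) (nat_lit 7) [nat_lit 0x404001,nat_lit 0x2001,nat_lit 0x5559401,nat_lit 0x2224321],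
    .c (nat_lit 0) (nat_lit 0x233323),.c (nat_lit 0) (nat_lit 0x35543),
    .r (nat_lit 0x174e) (nat_lit 3) [nat_lit 0x30231,nat_lit 0x20001],.c (nat_lit 6) (nat_lit 0x2232),
    .c (nat_lit 0) (nat_lit 0x33323),.r (nat_lit 0x133f) (nat_lit 11) [nat_lit 0x2224321,nat_lit 0x20001,
    nat_lit 0x2001,nat_lit 0x3033201],.c (nat_lit 0) (nat_lit 0x230323),.r (nat_lit 0x133f) (nat_lit 11) [nat_lit 33,
    nat_lit 0x20001,nat_lit 0x2001,nat_lit 0x3033201],.r (nat_lit 0x136c) (nat_lit 1) [nat_lit 0x232231,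
    nat_lit 0x4266331,nat_lit 0x222321,nat_lit 0x555401],.c (nat_lit 0) (nat_lit 0x30302),
    .c (nat_lit 4) (nat_lit 0x202203),.r (nat_lit 0x8ec) (nat_lit 5) [nat_lit 0x4204051,nat_lit 0x20001,
    nat_lit 0x5003041,nat_lit 0x7337241,nat_lit 0x4002031],.c (nat_lit 6) (nat_lit 0x303002),
    .c (nat_lit 0) (nat_lit 0x337765),.r (nat_lit 0x133c) (nat_lit 4) [nat_lit 0x80001,nat_lit 0x4001,
    nat_lit 0x5053041,nat_lit 0x50d7851],.r (nat_lit 0x19b4) (nat_lit 8) [nat_lit 0x30231,nat_lit 0x222321,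
    nat_lit 0x20001],.r (nat_lit 0x8ed) (nat_lit 12) [nat_lit 0x448a941,nat_lit 0x3357651,nat_lit 0x5399851,
    nat_lit 0x3355431,nat_lit 0x2266741],.c (nat_lit 0) (nat_lit 0x33323),.c (nat_lit 0) (nat_lit 0x377765),
    .r (nat_lit 0x19c6) (nat_lit 13) [nat_lit 0x333231,nat_lit 0x202001,nat_lit 0x20001],
    .r (nat_lit 0x1750) (nat_lit 1) [nat_lit 33,nat_lit 0x202001],.r (nat_lit 0x1a05) (nat_lit 3) [nat_lit 0x40031,
    nat_lit 0x202001,nat_lit 33],.c (nat_lit 2) (nat_lit 2),.r (nat_lit 0x137b) (nat_lit 2) [nat_lit 0x777631,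
    nat_lit 33,nat_lit 0x66cc721,nat_lit 0x70d7631],.r (nat_lit 32) (nat_lit 1) [nat_lit 0x53432,nat_lit 0x20001],
    .r (nat_lit 0x8ee) (nat_lit 12) [nat_lit 0x4488551,nat_lit 65,nat_lit 0x5095441,nat_lit 0x3353221,
    nat_lit 0x40051],.c (nat_lit 0) (nat_lit 0x79985),.r (nat_lit 0x1b04) (nat_lit 8) [nat_lit 0x2224321,
    nat_lit 0x20001],.r (nat_lit 0x1b04) (nat_lit 8) [nat_lit 33,nat_lit 0x20001],.c (nat_lit 0) (nat_lit 0x335522),
    .r (nat_lit 32) (nat_lit 1) [nat_lit 0x30231,nat_lit 0x20001],.c (nat_lit 3) (nat_lit 0x222432),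
    .c (nat_lit 0) (nat_lit 0x230323),.r (nat_lit 0x116a) (nat_lit 7) [nat_lit 0x404001,nat_lit 0x2001,
    nat_lit 0x5559401,nat_lit 0x4042031],.c (nat_lit 0) (nat_lit 0x305323),.c (nat_lit 4) (nat_lit 0x204232),
    .c (nat_lit 0) (nat_lit 0x333325),.r (nat_lit 8) (nat_lit 6) [nat_lit 0x303231,nat_lit 0x202001],
    .c (nat_lit 0) (nat_lit 0x555745),.c (nat_lit 0) (nat_lit 0x333523),.c (nat_lit 0) (nat_lit 0x3002),
    .r (nat_lit 0x1b04) (nat_lit 7) [nat_lit 0x3003231,nat_lit 0x2224321],.c (nat_lit 3) (nat_lit 2),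
    .c (nat_lit 0) (nat_lit 0x335522),.c (nat_lit 0) (nat_lit 517),.c (nat_lit 0) (nat_lit 0x50704),
    .r (nat_lit 0x1b3d) (nat_lit 11) [nat_lit 0x2031,nat_lit 0x2000021,nat_lit 0x20001],
    .r (nat_lit 0x1b04) (nat_lit 7) [nat_lit 0x222031,nat_lit 33],.c (nat_lit 0) (nat_lit 0x33302),
    .r (nat_lit 0x1b3d) (nat_lit 11) [nat_lit 0x2032,nat_lit 0x4002022,nat_lit 0x20001],.c (nat_lit 4) (nat_lit 2),
    .c (nat_lit 5) (nat_lit 2),.r (nat_lit 0x174f) (nat_lit 3) [nat_lit 0x20001,nat_lit 33],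
    .c (nat_lit 0) (nat_lit 0x303323),.c (nat_lit 6) (nat_lit 2),.c (nat_lit 1) (nat_lit 0x200002),
    .c (nat_lit 7) (nat_lit 2)],
    .l (nat_lit 12) (nat_lit 960) (nat_lit 3) (nat_lit 0x1af000001af0000021c0000021c000001f300000186000001ca000001ca00000192000001cc000001860000017d0000018f0000018f) (nat_lit 0x6d0000006d000000000000000000000096000000290000005200000052000000500000008a0000009f000000960000008d0000008d)
    (nat_lit 0x1881421651690fa18615913216813411010c12212217c18818f1af0fc1861681161681161100f01681161af16921c1e21cd2131d91e71f518718917d14918f18f16521c21c1ad1f31d91e72391cb14118718f18f1861861f32131401ca16817a1a215a1540f01b01a20fc0fa1ad1cd0f014010613412a0f00f00f012411c1161321e71e713417a18417817a16e10814015c1341681591d91d910616817818418314011813412e13d1161341cb1870f015a14016e1421080f30f31091181681682391f512a1a218317a1761420f013614c1240f010c18717d0f00f01341401360f31020f60f01361101101411890f01541181080f00f30f01020f00f011612218f18f11c1a213d1341241180f01361020f016812218f1491241b012e15c14c1090f00f0102102)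
    (nat_lit 0x1883c03c03c03c03c03c03c03c03c03c03c03c03c01421883c03c03c03c03c03c03c03c03c03c03c03c016518f21c3c03c03c03c03c03c03c03c03c03c03c01691af1e221c3c03c03c03c03c03c03c03c03c03c00fa0fc1cd1ad1403c03c03c03c03c03c03c03c03c01861862131f31ca1403c03c03c03c03c03c03c03c01591681d91d91681061843c03c03c03c03c03c03c01321161e71e717a1341781843c03c03c03c03c03c01681681f52391a212a17a1831423c03c03c03c03c01341161871cb15a0f016e1401081423c03c03c03c01101101891411540f01081180f30f01023c03c03c010c0f017d1870f00f01401340f31360f61023c03c012216814918f1b012415c12e10914c0f00f01023c012211618f18f1a211c13413d1181241360f00f0102)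
    (nat_lit 4) (nat_lit 83)
    [[nat_lit 2,nat_lit 3,nat_lit 18,nat_lit 258,nat_lit 0x1002,nat_lit 0x1000002,nat_lit 17,nat_lit 33,nat_lit 273,
    nat_lit 0x1011,nat_lit 0x10011,nat_lit 0x1000011,nat_lit 257,nat_lit 513,nat_lit 0x1000101,nat_lit 0x1001,
    nat_lit 0x1001001,nat_lit 0x10001,nat_lit 0x10101,nat_lit 0x100001,nat_lit 0x1000001],[nat_lit 32,nat_lit 48,
    nat_lit 288,nat_lit 0x1020,nat_lit 0x10020,nat_lit 0x1000020,nat_lit 272,nat_lit 528,nat_lit 0x1110,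
    nat_lit 0x10110,nat_lit 0x1000110,nat_lit 0x1010,nat_lit 0x11010,nat_lit 0x1001010,nat_lit 0x10010,
    nat_lit 0x20010,nat_lit 0x1010010,nat_lit 0x100010,nat_lit 0x1100010,nat_lit 0x1000010,nat_lit 0x2000010],
    [nat_lit 512,nat_lit 0x1100,nat_lit 0x10100,nat_lit 0x1010100,nat_lit 0x1000100,nat_lit 0x1001100],
    [nat_lit 0x2000,nat_lit 0x11000,nat_lit 0x1011000,nat_lit 0x1001000],[nat_lit 0x20000,nat_lit 0x1010000],
    [nat_lit 0x1100000],[nat_lit 0x2000000]]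
    [.c (nat_lit 1) (nat_lit 2),.r (nat_lit 0xdef) (nat_lit 2) [nat_lit 65,nat_lit 0xd700c51,nat_lit 0x7d0c51,
    nat_lit 0xc6c0d41],.r (nat_lit 0xdee) (nat_lit 2) [nat_lit 33,nat_lit 0x5300431,nat_lit 0x350431,
    nat_lit 0x4240521],.r (nat_lit 0xded) (nat_lit 13) [nat_lit 0x2030021,nat_lit 0x200001,nat_lit 0x4000001,
    nat_lit 0x5040001],.r (nat_lit 32) (nat_lit 10) [nat_lit 0x350432,nat_lit 0x20001],
    .r (nat_lit 0xdeb) (nat_lit 13) [nat_lit 0x300041,nat_lit 0x400001,nat_lit 0x80001,nat_lit 0x8090001],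
    .c (nat_lit 0) (nat_lit 0x330223),.c (nat_lit 0) (nat_lit 0x330223),.c (nat_lit 7) (nat_lit 0x220032),
    .r (nat_lit 32) (nat_lit 13) [nat_lit 0x3000231,nat_lit 0x2022321],.c (nat_lit 7) (nat_lit 0x22032),
    .c (nat_lit 1) (nat_lit 770),.c (nat_lit 7) (nat_lit 0x220232),.r (nat_lit 0x1b3d) (nat_lit 3) [nat_lit 0x3003231,
    nat_lit 0x2001,nat_lit 0x20001],.r (nat_lit 0x1aef) (nat_lit 11) [nat_lit 0x3000231,nat_lit 0x20031,
    nat_lit 0x2030021],.c (nat_lit 0) (nat_lit 0x300323),.r (nat_lit 32) (nat_lit 10) [nat_lit 0x30231,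
    nat_lit 0x20001],.c (nat_lit 7) (nat_lit 0x22232),.r (nat_lit 0x1b3d) (nat_lit 3) [nat_lit 0x33231,nat_lit 0x2001,
    nat_lit 0x20001],.r (nat_lit 32) (nat_lit 10) [nat_lit 0x2332232,nat_lit 0x20001],
    .r (nat_lit 0x1b04) (nat_lit 2) [nat_lit 33,nat_lit 0x20001],.c (nat_lit 2) (nat_lit 2),
    .r (nat_lit 0x1ae4) (nat_lit 5) [nat_lit 0x2000001,nat_lit 0x205021,nat_lit 0x33201],
    .c (nat_lit 0) (nat_lit 0x330223),.c (nat_lit 4) (nat_lit 0x20502),.c (nat_lit 0) (nat_lit 0x33223),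
    .c (nat_lit 2) (nat_lit 770),.c (nat_lit 0) (nat_lit 0x330223),.r (nat_lit 0x1986) (nat_lit 2) [nat_lit 0x4233321,
    nat_lit 0x3322231,nat_lit 0x2200301],.r (nat_lit 0x19ed) (nat_lit 13) [nat_lit 0x20001,nat_lit 0x200001,
    nat_lit 0x330021],.r (nat_lit 0x1986) (nat_lit 2) [nat_lit 0x2203321,nat_lit 0x302231,nat_lit 0x2200301],
    .c (nat_lit 3) (nat_lit 770),.r (nat_lit 0x1ae4) (nat_lit 5) [nat_lit 0x2000001,nat_lit 33,nat_lit 0x33201],
    .r (nat_lit 0x19ed) (nat_lit 13) [nat_lit 0x20001,nat_lit 0x200001,nat_lit 0x3300021],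
    .c (nat_lit 4) (nat_lit 770),.c (nat_lit 0) (nat_lit 0x33223),.r (nat_lit 0x1986) (nat_lit 2) [nat_lit 0x223321,
    nat_lit 0x2332231,nat_lit 0x2200301],.c (nat_lit 3) (nat_lit 0x302302),
    .r (nat_lit 32) (nat_lit 13) [nat_lit 0x22031,nat_lit 33],.c (nat_lit 3) (nat_lit 0x2203),
    .c (nat_lit 0) (nat_lit 515),.c (nat_lit 7) (nat_lit 770),.c (nat_lit 3) (nat_lit 2),
    .c (nat_lit 0) (nat_lit 0x300323),.c (nat_lit 3) (nat_lit 0x302002),
    .r (nat_lit 0xc3f) (nat_lit 11) [nat_lit 0x2030021,nat_lit 0x4373241,nat_lit 0x3022031,nat_lit 0x3020001,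
    nat_lit 0x5240051],.r (nat_lit 32) (nat_lit 2) [nat_lit 0x22031,nat_lit 33],
    .r (nat_lit 32) (nat_lit 10) [nat_lit 0x2332021,nat_lit 0x20001],.c (nat_lit 4) (nat_lit 2),
    .c (nat_lit 0) (nat_lit 0x3323),.r (nat_lit 32) (nat_lit 10) [nat_lit 0x302021,nat_lit 0x20001],
    .c (nat_lit 2) (nat_lit 0x30202),.c (nat_lit 5) (nat_lit 2),.r (nat_lit 32) (nat_lit 2) [nat_lit 0x2002031,
    nat_lit 0x3020021],.r (nat_lit 32) (nat_lit 10) [nat_lit 0x2002031,nat_lit 0x20001],.c (nat_lit 7) (nat_lit 2)]]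

/-- nodes -/
noncomputable def rD7k_19_6 : List RJ :=
  [.l (nat_lit 16) (nat_lit 0x2580) (nat_lit 3) (nat_lit 0x104000000ff000000fc4000011a000000fb000000fb0000011200000103000000fb00000151c0000134d0000134d0000129e00001128) (nat_lit 0x52c000004dc0000037c000005580000056c0000056c000004ec000003fc000000000000056c000001cf000001cf000003f40000027e)
    (nat_lit 0xb1409600dd00cc40ad40ad40d440d5010400ad40e270e710c4c111c0a800b140d6c0a9809b409b40b180cec11880a980fdb0c450a200ffc0a980cc40d180ab0096009600ac40c9811a00a440b6b0c5d0bd00b8c0d6c0dd00e240d1809600c340d980da4099c09600c770fd10dac0d2409b40ad40c3409600a440a440d980e880fb009600fdf15e50ab0108c09b40ad4096009600a440a440ac40bb40fb009600f9b15a10ab0108c0cec0d500da40c980bb40e880d180d2409600bb40bf70f510d2c0ce80b180d440d980ac40ac40d980b440d180d980ac40e610c710c3c09600a980ad409600a44096009600ac40bb411a00a441233107909cc0d3211881040099c11a00fb00fb00d980960151c11a01507134d1128129e0c450e710fd10c5d15a115e50c710f51134d1079117e117e0f590f150fdb0e270c770b6b0f9b0fdf0e610bf715071233117e117e0bff10cf0ffc111c0d240b8c108c108c09600ce8129e0d3210cf0f150ef410200a200c4c0dac0bd00ab00ab00c3c0d2c112809cc0bff0f590f380ef4)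
    (nat_lit 0xb14258025802580258025802580258025802580258025802580258009600b142580258025802580258025802580258025802580258025800dd00d6c0d18258025802580258025802580258025802580258025800cc40a980ab00d1825802580258025802580258025802580258025800ad409b4096009600a442580258025802580258025802580258025800ad409b409600c340a440a44258025802580258025802580258025800d440b180ac40d980d980ac40d1825802580258025802580258025800d500cec0c980da40e880bb40d240d182580258025802580258025801040118811a0099c0fb00fb009600d9811a0258025802580258025800ad40a980a440960096009600bb40ac40a4411a025802580258025800e270fdb0b6b0c770fdf0f9b0bf70e6112331507117e2580258025800e710c450c5d0fd115e515a10f510c711079134d117e117e258025800c4c0a200bd00dac0ab00ab00d2c0c3c09cc11280f590bff0ef42580111c0ffc0b8c0d24108c108c0ce809600d32129e0f1510cf10200ef4)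
    (nat_lit 5) (nat_lit 47)
    [[nat_lit 2,nat_lit 17,nat_lit 0x1011,nat_lit 257,nat_lit 0x1101,nat_lit 0x100101,nat_lit 0x1001,nat_lit 0x2001,
    nat_lit 0x101001,nat_lit 0x10001,nat_lit 0x11001,nat_lit 0x110001,nat_lit 0x100001,nat_lit 0x1000001,
    nat_lit 0x1001001,nat_lit 0x1100001,nat_lit 0x2000001],[nat_lit 32,nat_lit 0x1010,nat_lit 0x100010,
    nat_lit 0x1000010],[nat_lit 512,nat_lit 0x1100,nat_lit 0x1200,nat_lit 0x2100,nat_lit 0x11100,nat_lit 0x101100,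
    nat_lit 0x1001100,nat_lit 0x10100,nat_lit 0x20100,nat_lit 0x110100,nat_lit 0x1010100,nat_lit 0x100100,
    nat_lit 0x200100,nat_lit 0x1100100,nat_lit 0x1000100],[nat_lit 0x2000,nat_lit 0x11000,nat_lit 0x21000,
    nat_lit 0x111000,nat_lit 0x1011000,nat_lit 0x101000,nat_lit 0x1001000,nat_lit 0x2001000],[nat_lit 0x20000,
    nat_lit 0x30000,nat_lit 0x120000,nat_lit 0x1020000,nat_lit 0x110000,nat_lit 0x210000,nat_lit 0x1110000,
    nat_lit 0x1010000,nat_lit 0x2010000],[nat_lit 0x200000,nat_lit 0x1100000,nat_lit 0x2100000],[nat_lit 0x2000000,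
    nat_lit 0x3000000]]
    [.c (nat_lit 1) (nat_lit 2),.r (nat_lit 4) (nat_lit 12) [nat_lit 0x6300041,nat_lit 0x210001],
    .r (nat_lit 0x1b04) (nat_lit 9) [nat_lit 0x210001,nat_lit 0x4018861],
    .r (nat_lit 0x1b04) (nat_lit 9) [nat_lit 0x210001,nat_lit 0x18041],.r (nat_lit 4) (nat_lit 12) [nat_lit 0x300861,
    nat_lit 0x210001],.r (nat_lit 0xf48) (nat_lit 13) [nat_lit 0x4318801,nat_lit 0x5010a1,nat_lit 0x6210c81,
    nat_lit 0x28001],.c (nat_lit 0) (nat_lit 0x218c43),.r (nat_lit 0xde9) (nat_lit 13) [nat_lit 0x8529061,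
    nat_lit 0x6511061,nat_lit 0x38001,nat_lit 0x6210c81],.r (nat_lit 0x174d) (nat_lit 13) [nat_lit 0x318861,
    nat_lit 0x210001],.r (nat_lit 0x1b04) (nat_lit 9) [nat_lit 0x210001,nat_lit 65],
    .r (nat_lit 4) (nat_lit 12) [nat_lit 0x318861,nat_lit 0x210001],
    .r (nat_lit 0xf48) (nat_lit 13) [nat_lit 0x4318801,nat_lit 0x5290a1,nat_lit 0x6230c81,nat_lit 0x28001],
    .r (nat_lit 0x1a3c) (nat_lit 10) [nat_lit 0x10001,nat_lit 0x200001,nat_lit 65],
    .r (nat_lit 0x1b04) (nat_lit 4) [nat_lit 65,nat_lit 0x200001],.r (nat_lit 32) (nat_lit 6) [nat_lit 0x300861,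
    nat_lit 0x200001],.r (nat_lit 0x174e) (nat_lit 13) [nat_lit 0x300861,nat_lit 0x200001],
    .r (nat_lit 0xdeb) (nat_lit 11) [nat_lit 0x6210c81,nat_lit 0x8529001,nat_lit 0x800001,nat_lit 0x40001],
    .c (nat_lit 2) (nat_lit 2),.r (nat_lit 0x1acd) (nat_lit 4) [nat_lit 0x4000001,nat_lit 0x4210c41,
    nat_lit 0x6000861],.r (nat_lit 0x1ad0) (nat_lit 4) [nat_lit 0x210061,nat_lit 65,nat_lit 0x4000001],
    .r (nat_lit 0x1a22) (nat_lit 4) [nat_lit 0x210061,nat_lit 65,nat_lit 0x4000001],.c (nat_lit 3) (nat_lit 2),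
    .r (nat_lit 0x174f) (nat_lit 13) [nat_lit 0x200001,nat_lit 65],.r (nat_lit 4) (nat_lit 12) [nat_lit 0x6310862,
    nat_lit 0x210001],.r (nat_lit 0x14ab) (nat_lit 8) [nat_lit 0x800001,nat_lit 0x8519061,nat_lit 0xa519061,
    nat_lit 0x28081],.r (nat_lit 4) (nat_lit 12) [nat_lit 0x6300862,nat_lit 0x210001],
    .r (nat_lit 0x19ed) (nat_lit 11) [nat_lit 0x200001,nat_lit 0x4318801,nat_lit 0x6000c41],
    .r (nat_lit 0x1b40) (nat_lit 2) [nat_lit 0x300861,nat_lit 0x200001,nat_lit 0x4318801,nat_lit 0x210001],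
    .c (nat_lit 2) (nat_lit 0x20803),.r (nat_lit 0xdec) (nat_lit 4) [nat_lit 0xe7198a1,nat_lit 0x28081,
    nat_lit 0x40081,nat_lit 0xc200a1],.r (nat_lit 0x158d) (nat_lit 10) [nat_lit 0x18041,nat_lit 0x6300861,
    nat_lit 0x4318801,nat_lit 0x410061],.r (nat_lit 0x134d) (nat_lit 4) [nat_lit 0x6300861,nat_lit 0x18041,
    nat_lit 0x10041,nat_lit 0x410061],.c (nat_lit 0) (nat_lit 0x318845),
    .r (nat_lit 0xdf0) (nat_lit 10) [nat_lit 0x4318801,nat_lit 0x200001,nat_lit 65,nat_lit 0x210001],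
    .c (nat_lit 1) (nat_lit 0x200c02),.c (nat_lit 0) (nat_lit 0x318845),.c (nat_lit 4) (nat_lit 2),
    .r (nat_lit 0x174f) (nat_lit 13) [nat_lit 0x200001,nat_lit 0x10041],
    .r (nat_lit 4) (nat_lit 12) [nat_lit 0x6318862,nat_lit 0x210001],
    .r (nat_lit 0x19ed) (nat_lit 11) [nat_lit 0x200001,nat_lit 0x4318801,nat_lit 0x6010c41],
    .r (nat_lit 0x1b40) (nat_lit 2) [nat_lit 0x318861,nat_lit 0x200001,nat_lit 0x4318801,nat_lit 0x210001],
    .r (nat_lit 0x1b25) (nat_lit 4) [nat_lit 0x4318861,nat_lit 0x210001,nat_lit 65],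
    .r (nat_lit 0x1b04) (nat_lit 8) [nat_lit 0x210001,nat_lit 65],.r (nat_lit 32) (nat_lit 6) [nat_lit 0x6310862,
    nat_lit 0x200001],.c (nat_lit 5) (nat_lit 2),.r (nat_lit 0xdec) (nat_lit 4) [nat_lit 0xe7398a1,nat_lit 129,
    nat_lit 0x60081,nat_lit 0xc000a1],.r (nat_lit 0x158d) (nat_lit 10) [nat_lit 65,nat_lit 0x6318861,
    nat_lit 0x4318801,nat_lit 0x400061],.r (nat_lit 0x134d) (nat_lit 4) [nat_lit 0x6318861,nat_lit 65,nat_lit 0x20041,
    nat_lit 0x400061],.c (nat_lit 0) (nat_lit 0x318c45),.r (nat_lit 0xdf0) (nat_lit 10) [nat_lit 0x4318801,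
    nat_lit 0x200001,nat_lit 0x10041,nat_lit 0x210001],.c (nat_lit 1) (nat_lit 0x200002),
    .c (nat_lit 0) (nat_lit 0x318c45),.r (nat_lit 0xded) (nat_lit 11) [nat_lit 0x10041,nat_lit 0x4318801,
    nat_lit 0x420001,nat_lit 0x28001],.c (nat_lit 6) (nat_lit 2),.c (nat_lit 0) (nat_lit 0x318c45),
    .r (nat_lit 0xdee) (nat_lit 4) [nat_lit 65,nat_lit 0x6318861,nat_lit 0x6310861,nat_lit 0x4610c41],
    .c (nat_lit 7) (nat_lit 2),.r (nat_lit 0xdef) (nat_lit 4) [nat_lit 129,nat_lit 0xe7398a1,nat_lit 0xe7318a1,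
    nat_lit 0xd231c81]],
    .l (nat_lit 12) (nat_lit 960) (nat_lit 4) (nat_lit 0x1810000016d000001790000017900000181000001810000017d0000017d0000016b0000017f0000018900000189000001b2000001b2) (nat_lit 0x4500000031000000390000003900000031000000310000003500000035000000330000004700000029000000290000000000000000)
    (nat_lit 0x17415817412412c16c1141840a00c415815818114b12817413413413c13413013812e12615813419117d13412414814014814814414415613a14015c14116513417413814814814814c13414613a16815015d16913416c14814816015814414c14e13216815815516913c12c14814815016014c14c14e13a10816014915d13818413414414c14c1481481421361781541a11cd13011414c14414c14414814815213613014c1f321f1260c413a13a13a1321361361401240a013a1a318f12e0a014615614e14e15214215c1400de15617f17f13415815015c16015814c15415613a1601502372011581581681401081681301780de0a01601601bf18917d14b16916515d16921f1cd17f18f1892011b21b219118115d1411491551f31a117f1a31bf2371aa1b2)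
    (nat_lit 0x1743c03c03c03c03c03c03c03c03c03c03c03c03c01581743c03c03c03c03c03c03c03c03c03c03c03c01741341483c03c03c03c03c03c03c03c03c03c03c01241341401483c03c03c03c03c03c03c03c03c03c012c13c1481481603c03c03c03c03c03c03c03c03c016c1341481481581603c03c03c03c03c03c03c03c011413014414c14414c1483c03c03c03c03c03c03c018413814413414c14c1481483c03c03c03c03c03c00a012e15614614e14e1421521403c03c03c03c03c00c412613a13a13213a1361361241403c03c03c03c01401581401681681081781300a00de1603c03c03c015813415c15015816015414c13a1561501603c03c018119114115d1551491a11f31a317f2371bf1b23c014b17d16516916915d1cd21f18f17f2011891b21b2)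
    (nat_lit 4) (nat_lit 37)
    [[nat_lit 2,nat_lit 257,nat_lit 0x10001,nat_lit 0x100001,nat_lit 0x1000001],[nat_lit 32,nat_lit 288,nat_lit 272,
    nat_lit 528,nat_lit 0x1000210,nat_lit 0x1110,nat_lit 0x10110,nat_lit 0x100110,nat_lit 0x1000110,nat_lit 0x1010,
    nat_lit 0x10010,nat_lit 0x11010,nat_lit 0x110010,nat_lit 0x1010010,nat_lit 0x100010,nat_lit 0x1000010],
    [nat_lit 512,nat_lit 0x1200,nat_lit 0x1000200,nat_lit 0x1100,nat_lit 0x1001100,nat_lit 0x10100,nat_lit 0x1010100,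
    nat_lit 0x100100,nat_lit 0x1100100,nat_lit 0x1000100,nat_lit 0x2000200,nat_lit 0x2000100],[nat_lit 0x2000,
    nat_lit 0x1002000,nat_lit 0x11000,nat_lit 0x1011000,nat_lit 0x101000,nat_lit 0x1101000,nat_lit 0x1001000],
    [nat_lit 0x20000,nat_lit 0x110000,nat_lit 0x1110000,nat_lit 0x1010000],[nat_lit 0x200000,nat_lit 0x1200000,
    nat_lit 0x1100000],[nat_lit 0x2000000]]
    [.c (nat_lit 1) (nat_lit 2),.c (nat_lit 0) (nat_lit 0x33045),.r (nat_lit 0x1ad6) (nat_lit 6) [nat_lit 0x33042,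
    nat_lit 0x22002,nat_lit 0x353402],.c (nat_lit 0) (nat_lit 0x33045),
    .r (nat_lit 0x1ad6) (nat_lit 7) [nat_lit 0x202052,nat_lit 33,nat_lit 0x330452],.c (nat_lit 2) (nat_lit 2),
    .r (nat_lit 0x1af3) (nat_lit 7) [nat_lit 0x432542,nat_lit 0x202542,nat_lit 0x320452],
    .r (nat_lit 0x174f) (nat_lit 4) [nat_lit 0x202002,nat_lit 33],.r (nat_lit 0x1367) (nat_lit 7) [nat_lit 0x535851,
    nat_lit 0x532852,nat_lit 0x242521,nat_lit 0x353442],.r (nat_lit 0x1368) (nat_lit 3) [nat_lit 0x353442,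
    nat_lit 0x242521,nat_lit 0x532852,nat_lit 0x535851],.r (nat_lit 0x1af3) (nat_lit 7) [nat_lit 0x202542,
    nat_lit 0x22542,nat_lit 561],.r (nat_lit 0x1aad) (nat_lit 9) [nat_lit 0x320002,nat_lit 0x303452,nat_lit 0x202002],
    .c (nat_lit 1) (nat_lit 0x30245),.r (nat_lit 4) (nat_lit 2) [nat_lit 0x303452,nat_lit 0x22002],
    .c (nat_lit 1) (nat_lit 0x22405),.r (nat_lit 0) (nat_lit 5) [nat_lit 0x202002,nat_lit 33],
    .c (nat_lit 7) (nat_lit 0x22005),.r (nat_lit 32) (nat_lit 12) [nat_lit 0x303452,nat_lit 0x202002],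
    .c (nat_lit 1) (nat_lit 0x3204),.r (nat_lit 0x1750) (nat_lit 4) [nat_lit 0x22002,nat_lit 0x230042],
    .r (nat_lit 32) (nat_lit 3) [nat_lit 0x20031,nat_lit 0x202002],.c (nat_lit 3) (nat_lit 2),
    .r (nat_lit 0x1367) (nat_lit 7) [nat_lit 0x355851,nat_lit 0x352852,nat_lit 0x2a4942,nat_lit 0x533442],
    .r (nat_lit 0x1369) (nat_lit 9) [nat_lit 33,nat_lit 0x200001,nat_lit 0x333431,nat_lit 0x2001],
    .r (nat_lit 0x174f) (nat_lit 4) [nat_lit 0x202002,nat_lit 0x320042],.r (nat_lit 4) (nat_lit 2) [nat_lit 0x33452,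
    nat_lit 0x22002],.r (nat_lit 0x136a) (nat_lit 8) [nat_lit 0x20001,nat_lit 0x2001,nat_lit 0x333451,
    nat_lit 0x200001],.r (nat_lit 0x174d) (nat_lit 4) [nat_lit 0x33452,nat_lit 0x22002],
    .c (nat_lit 0) (nat_lit 0x33045),.r (nat_lit 32) (nat_lit 3) [nat_lit 0x303452,nat_lit 0x202002],
    .r (nat_lit 0) (nat_lit 6) [nat_lit 33,nat_lit 0x202002],.r (nat_lit 32) (nat_lit 12) [nat_lit 34,
    nat_lit 0x202002],.r (nat_lit 0x1b41) (nat_lit 1) [nat_lit 0x320002,nat_lit 0x202002,nat_lit 0x22542],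
    .c (nat_lit 4) (nat_lit 2),.c (nat_lit 5) (nat_lit 0x20003),.r (nat_lit 0) (nat_lit 5) [nat_lit 0x202002,
    nat_lit 0x320042],.c (nat_lit 1) (nat_lit 0x30204),.r (nat_lit 0x1750) (nat_lit 4) [nat_lit 0x22002,nat_lit 33],
    .r (nat_lit 0x1aef) (nat_lit 4) [nat_lit 0x33452,nat_lit 0x202052,nat_lit 0x320042],
    .r (nat_lit 32) (nat_lit 3) [nat_lit 0x220052,nat_lit 0x202002],.c (nat_lit 5) (nat_lit 2),
    .r (nat_lit 0x1b04) (nat_lit 0) [nat_lit 33,nat_lit 0x202002],.r (nat_lit 0x174e) (nat_lit 4) [nat_lit 0x303452,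
    nat_lit 0x202002],.r (nat_lit 0x1a3c) (nat_lit 9) [nat_lit 0x320002,nat_lit 0x202002,nat_lit 33],
    .c (nat_lit 6) (nat_lit 2),.r (nat_lit 0x1844) (nat_lit 8) [nat_lit 0x230002,nat_lit 33,nat_lit 0x22002,
    nat_lit 0x353431],.r (nat_lit 0x1b04) (nat_lit 1) [nat_lit 33,nat_lit 0x202002],.c (nat_lit 7) (nat_lit 2)],
    .l (nat_lit 12) (nat_lit 720) (nat_lit 4) (nat_lit 0x12200000122000001280000012800000122000001220000012200000122000000fa0000014a00000154000001540000013700000113) (nat_lit 0x32000000320000002c0000002c000000320000003200000032000000320000000a0000005a0000000000000000000000410000001d)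
    (nat_lit 0xf60f00f00f60f00f00f00f00900ce12211c0e10970f00f60f60f60f00f00f00f00a40ce1221220e10910f60f60fc0fc0f60f60f00f611e0ce19c19c0e110b0f60f00fc0fc0f60f60ea0ea11e0ce1341340e710b0f00f00f60f60fc0f00f00f010c0d41221220e70f90f00f00f60f60f00fc0f00f01240c81221220e110b0f00f00ea0f60f00f00f00f01180c811c1160e11050f00f00ea0f00f00f00f00f01180c811c1160db1050ce0ce0ce0ce0c80d40c80c80fc0a00fa0fa0b90e30a409011e11e12410c1181181400fc13214a10f12d12211c13419c12212211611614a0fa15415419b14f12212213419c12212211c11c1320fa15415418113709109710b10b10b0f910510512d0e313714f0f611a0e10e10e70e10e10e70db0e110f0b918119b0d20f6)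
    (nat_lit 0xf62d02d02d02d02d02d02d02d02d02d02d02d02d00f00f62d02d02d02d02d02d02d02d02d02d02d02d00f00f60fc2d02d02d02d02d02d02d02d02d02d02d00f60f60fc0fc2d02d02d02d02d02d02d02d02d02d00f00f00f60f60fc2d02d02d02d02d02d02d02d02d00f00f00f60f60f00fc2d02d02d02d02d02d02d02d00f00f00f00ea0f00f00f02d02d02d02d02d02d02d00f00f00f60ea0f00f00f00f02d02d02d02d02d02d00900a411e11e10c1241181180fc2d02d02d02d02d00ce0ce0ce0ce0d40c80c80c80a00fc2d02d02d02d012212219c13412212211c11c0fa1321542d02d02d011c12219c1341221221161160fa14a1541542d02d00e10e10e10e70e70e10e10db0b910f19b1810f62d009709110b10b0f910b1051050e312114f13711a0f6)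
    (nat_lit 3) (nat_lit 27)
    [[nat_lit 2,nat_lit 0x1000002,nat_lit 257,nat_lit 0x1000101,nat_lit 0x1001,nat_lit 0x1001101,nat_lit 0x11001,
    nat_lit 0x1001001,nat_lit 0x10001,nat_lit 0x1010001,nat_lit 0x100001,nat_lit 0x1100001,nat_lit 0x1000001,
    nat_lit 0x2000001],[nat_lit 32,nat_lit 272,nat_lit 0x1000110,nat_lit 0x1010,nat_lit 0x10010,nat_lit 0x1000010],
    [nat_lit 512,nat_lit 0x1000200,nat_lit 0x1100,nat_lit 0x10100,nat_lit 0x11100,nat_lit 0x1010100,nat_lit 0x100100,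
    nat_lit 0x1000100,nat_lit 0x2000200,nat_lit 0x1001200,nat_lit 0x1001100,nat_lit 0x1100100,nat_lit 0x2000100],
    [nat_lit 0x2000,nat_lit 0x102000,nat_lit 0x11000,nat_lit 0x101000,nat_lit 0x1001000],[nat_lit 0x20000,
    nat_lit 0x110000,nat_lit 0x1010000],[nat_lit 0x200000,nat_lit 0x1100000],[nat_lit 0x2000000]]
    [.c (nat_lit 1) (nat_lit 2),.r (nat_lit 0x1af3) (nat_lit 5) [nat_lit 0x26d1,nat_lit 0x20d1,nat_lit 0x499],
    .r (nat_lit 0x1b04) (nat_lit 13) [nat_lit 0x2401,nat_lit 0x611],.r (nat_lit 4) (nat_lit 8) [nat_lit 0x3099,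
    nat_lit 0x2401],.c (nat_lit 0) (nat_lit 0x2103),.c (nat_lit 5) (nat_lit 0x613),
    .r (nat_lit 32) (nat_lit 13) [nat_lit 0x3099,nat_lit 0x2001],.r (nat_lit 0x1b3d) (nat_lit 1) [nat_lit 0x18611,
    nat_lit 0x3099,nat_lit 0x2001],.r (nat_lit 0) (nat_lit 8) [nat_lit 17,nat_lit 0x2001],
    .r (nat_lit 0x1aad) (nat_lit 4) [nat_lit 0x401,nat_lit 0x3099,nat_lit 0x2001],.c (nat_lit 1) (nat_lit 130),
    .r (nat_lit 0x1af3) (nat_lit 5) [nat_lit 0x20d1,nat_lit 0x24d1,nat_lit 153],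
    .r (nat_lit 0x174f) (nat_lit 5) [nat_lit 0x2001,nat_lit 17],.r (nat_lit 0x17c8) (nat_lit 9) [nat_lit 0x1c001,
    nat_lit 0x10801,nat_lit 0x10001,nat_lit 0x18a21],.c (nat_lit 2) (nat_lit 2),
    .r (nat_lit 0x174d) (nat_lit 13) [nat_lit 0x18699,nat_lit 17],.c (nat_lit 5) (nat_lit 0x30d3),
    .r (nat_lit 0x1b19) (nat_lit 7) [nat_lit 0x3011,nat_lit 0x2001,nat_lit 0x12419],
    .r (nat_lit 32) (nat_lit 13) [nat_lit 0x18699,nat_lit 0x2001],.r (nat_lit 0x1b3d) (nat_lit 1) [nat_lit 0x3011,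
    nat_lit 0x18699,nat_lit 0x2001],.c (nat_lit 3) (nat_lit 2),.r (nat_lit 0x134d) (nat_lit 10) [nat_lit 0x1db19,
    nat_lit 0x10001,nat_lit 0x10801,nat_lit 0x1c001],.r (nat_lit 0x1b04) (nat_lit 10) [nat_lit 17,nat_lit 0x2001],
    .c (nat_lit 0) (nat_lit 0x3b65),.r (nat_lit 0x174e) (nat_lit 5) [nat_lit 0x3099,nat_lit 0x2001],
    .c (nat_lit 1) (nat_lit 0x251a),.r (nat_lit 0x1b04) (nat_lit 13) [nat_lit 0x2401,nat_lit 17],
    .c (nat_lit 0) (nat_lit 0x3b65),.r (nat_lit 32) (nat_lit 13) [nat_lit 18,nat_lit 0x2001],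
    .r (nat_lit 0x134f) (nat_lit 6) [nat_lit 17,nat_lit 0x1c001,nat_lit 0x10801,nat_lit 0x10001],
    .r (nat_lit 32) (nat_lit 11) [nat_lit 0x3099,nat_lit 0x2001],.r (nat_lit 4) (nat_lit 8) [nat_lit 0x3699,
    nat_lit 0x2401],.r (nat_lit 0x133d) (nat_lit 0) [nat_lit 0x10001,nat_lit 17,nat_lit 0x10801,nat_lit 0x1c001],
    .c (nat_lit 4) (nat_lit 2),.r (nat_lit 0x1b19) (nat_lit 7) [nat_lit 0x18011,nat_lit 0x2001,nat_lit 0x20419],
    .r (nat_lit 0x1b04) (nat_lit 6) [nat_lit 17,nat_lit 0x2001],.c (nat_lit 0) (nat_lit 0x2005),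
    .r (nat_lit 0x1b04) (nat_lit 12) [nat_lit 0x2401,nat_lit 17],.c (nat_lit 5) (nat_lit 2),
    .r (nat_lit 0) (nat_lit 8) [nat_lit 0x411,nat_lit 0x2001],.c (nat_lit 0) (nat_lit 0x3b65),
    .c (nat_lit 6) (nat_lit 2),.r (nat_lit 0x174f) (nat_lit 5) [nat_lit 0x2001,nat_lit 0x411],
    .c (nat_lit 7) (nat_lit 2)]]

/-- nodes -/
noncomputable def rD7k_19_7 : List RJ :=
  [.l (nat_lit 12) (nat_lit 720) (nat_lit 3) (nat_lit 0x13c0000013c000001450000014500000168000001080000012a0000012a0000012c0000012c0000012e0000012e0000010e00000152) (nat_lit 0x2c0000002c000000230000002300000060000000000000003e0000003e0000003c0000003c0000003a0000003a000000160000005a)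
    (nat_lit 0x1101101b71490dc13c0fe0fe1000e81021061260e21101101871190dc13c0fe0fe1001001021020f60e01191491221220e50d710710710910910d10b12f0eb1871b71221220dd1451070f310910113312b12f0e313c13c1450d711c16813213210c12c13612e0b40e60dc0dc0dd0e50b411c0be0ca0d40b40ce0c60f20b40fe0fe0f31070ca1321040e00f60fa0ea0e81140d00fe0fe1071070be1320ec1040ea0ee0f00d012c0c41000e81011090b412c0ee0fa1100f00fe0f61160d21001001091090d410c0ea0f60f01100ee0f21120d210210612b10b0c612e0d00e80f20f60f40f41180d810210213310d0ce1360f00ea0ee0fe0f40f41180d40e00e20e30eb0b40e60c40d00d20d20d40d80f80b40f612612f12f0f20b412c11411211611811813c0f8)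
    (nat_lit 0x1102d02d02d02d02d02d02d02d02d02d02d02d02d01101102d02d02d02d02d02d02d02d02d02d02d02d01b71871222d02d02d02d02d02d02d02d02d02d02d01491191221222d02d02d02d02d02d02d02d02d02d00dc0dc0e50dd11c2d02d02d02d02d02d02d02d02d013c13c0d714516811c2d02d02d02d02d02d02d02d00fe0fe1071071320be1042d02d02d02d02d02d02d00fe0fe1070f31320ca0e01042d02d02d02d02d02d010010010910910c0d40f60ea1102d02d02d02d02d00e810010910112c0b40fa0ee0f01102d02d02d02d010210210d1331360ce0ea0f00fe0ee0f42d02d02d010610210b12b12e0c60e80d00f60f20f40f42d02d01260f612f12f0b40f211412c1161121181180f82d00e20e00eb0e30e60b40d00c40d20d20d80d40b40f8)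
    (nat_lit 4) (nat_lit 43)
    [[nat_lit 2,nat_lit 0x10002,nat_lit 17,nat_lit 0x1011,nat_lit 0x10011,nat_lit 257,nat_lit 0x10101,nat_lit 0x1001,
    nat_lit 0x11001,nat_lit 0x10001,nat_lit 0x20001,nat_lit 0x110001,nat_lit 0x1010001,nat_lit 0x100001,
    nat_lit 0x1000001,nat_lit 0x1000101,nat_lit 0x1001001],[nat_lit 32,nat_lit 0x1020,nat_lit 272,nat_lit 0x1110,
    nat_lit 0x1010,nat_lit 0x2010,nat_lit 0x10010,nat_lit 0x100010,nat_lit 0x1000010],[nat_lit 512,nat_lit 0x1100,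
    nat_lit 0x2100,nat_lit 0x10100,nat_lit 0x11100,nat_lit 0x110100,nat_lit 0x100100,nat_lit 0x1000100],
    [nat_lit 0x2000,nat_lit 0x11000,nat_lit 0x111000,nat_lit 0x101000,nat_lit 0x1001000],[nat_lit 0x20000,
    nat_lit 0x110000,nat_lit 0x1010000],[nat_lit 0x200000],[nat_lit 0x2000000]]
    [.c (nat_lit 1) (nat_lit 2),.r (nat_lit 0x19d8) (nat_lit 12) [nat_lit 0x2321,nat_lit 0x334321,nat_lit 0x223231],
    .c (nat_lit 0) (nat_lit 0x24005),.c (nat_lit 0) (nat_lit 0x24003),.r (nat_lit 4) (nat_lit 0) [nat_lit 0x3231,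
    nat_lit 0x2001],.r (nat_lit 0x1969) (nat_lit 2) [nat_lit 33,nat_lit 0x30001,nat_lit 0x3231],
    .c (nat_lit 6) (nat_lit 0x2432),.c (nat_lit 0) (nat_lit 0x24003),.r (nat_lit 4) (nat_lit 4) [nat_lit 0x3231,
    nat_lit 0x2001],.r (nat_lit 0x174f) (nat_lit 6) [nat_lit 33,nat_lit 0x2001],
    .r (nat_lit 0xf7e) (nat_lit 9) [nat_lit 0x355431,nat_lit 33,nat_lit 0x304001,nat_lit 0x200001],
    .r (nat_lit 0xf7f) (nat_lit 12) [nat_lit 0x20231,nat_lit 0x595401,nat_lit 0x24321,nat_lit 0x30231],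
    .c (nat_lit 3) (nat_lit 0x3323),.r (nat_lit 0x19de) (nat_lit 2) [nat_lit 0x2031,nat_lit 33,nat_lit 0x223021],
    .c (nat_lit 0) (nat_lit 0x22003),.c (nat_lit 5) (nat_lit 0x3323),
    .r (nat_lit 0x1afb) (nat_lit 3) [nat_lit 0x330021,nat_lit 0x242031,nat_lit 0x350021,nat_lit 0x460031],
    .c (nat_lit 2) (nat_lit 2),.c (nat_lit 0) (nat_lit 0x24003),.r (nat_lit 10) (nat_lit 5) [nat_lit 33,
    nat_lit 0x2001],.r (nat_lit 2) (nat_lit 6) [nat_lit 0x3231,nat_lit 0x2001],.c (nat_lit 0) (nat_lit 0x24005),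
    .r (nat_lit 0x1b43) (nat_lit 5) [nat_lit 0x22031,nat_lit 0x30021,nat_lit 33],
    .r (nat_lit 0x1b04) (nat_lit 11) [nat_lit 0x2001,nat_lit 33],.c (nat_lit 0) (nat_lit 0x2203),
    .c (nat_lit 0) (nat_lit 0x22003),.c (nat_lit 3) (nat_lit 2),.r (nat_lit 10) (nat_lit 8) [nat_lit 0x2001,
    nat_lit 33],.r (nat_lit 0xf6c) (nat_lit 9) [nat_lit 65,nat_lit 0x599831,nat_lit 0x508031,nat_lit 0x400021],
    .c (nat_lit 2) (nat_lit 0x24232),.c (nat_lit 6) (nat_lit 0x33023),.c (nat_lit 4) (nat_lit 0x33023),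
    .r (nat_lit 0x174e) (nat_lit 8) [nat_lit 0x330231,nat_lit 33],.r (nat_lit 2) (nat_lit 6) [nat_lit 0x33231,
    nat_lit 0x2001],.c (nat_lit 4) (nat_lit 2),.r (nat_lit 2) (nat_lit 8) [nat_lit 0x330231,nat_lit 33],
    .c (nat_lit 3) (nat_lit 0x33023),.c (nat_lit 0) (nat_lit 0x2203),.r (nat_lit 0x1b43) (nat_lit 5) [nat_lit 0x2031,
    nat_lit 33,nat_lit 0x20021],.c (nat_lit 5) (nat_lit 2),.r (nat_lit 4) (nat_lit 0) [nat_lit 0x330231,
    nat_lit 0x2001],.r (nat_lit 0x1af9) (nat_lit 5) [nat_lit 0x2031,nat_lit 33,nat_lit 0x220031],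
    .c (nat_lit 6) (nat_lit 2),.c (nat_lit 7) (nat_lit 2)],
    .l (nat_lit 15) (nat_lit 0x18ba) (nat_lit 3) (nat_lit 0xace00000ace00000aab00000aab00000b1900000b1900000a3c00000db800000b3200000b3200000b8c00000b8c00000ba000000ba0) (nat_lit 0x2ea000002ea0000030d0000030d0000029f0000029f000000000000037c00000286000002860000022c0000022c0000021800000218)
    (nat_lit 0x125c1f9039f87c10ffa2364620077a1090205835c08a2116c28a03f2092e0cc61f044a3878f17181bb8375081611441dd845b08ca0f821f0441f079e10e025a856e861712a21d9c43589dd0e92224c331873f11bc20f8488080c14b615b448a8825121621fc3f488070f1e2364406096a14781ce858c86991126238c4bc87fd130621d44a387fd122021c03a20a3c16321e74511875d0da22abc46c89650ddc1de82b686170f3a1a645b907f60be81ed83d6068010ac29005c60c4014b62b7458c8b191b702dc82c90b3217182c505e904f2102c205841287670eba238c59907b6124822b07da0ea60f5024683750848122a254451188930b2417d045609241428241848d07ee0eec228843f89dd155e1ff458a0680120c3a98546096012e8219845106b8121621ac368897917181eb050a0fb412c02a304010974119428a0403889312ca21d42790a400fdc24684ba086616e4262045b08b60fd21d2446c898317a4215848d07a8100425d04c40b72)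
    (nat_lit 0x125c62e8c5d18ba317462e8c5d18ba317462e8c5d18ba317462e83f2092e317462e8c5d18ba317462e8c5d18ba317462e8c5d18ba0e7e198c41f18ba317462e8c5d18ba317462e8c5d18ba317462e83e087c10f3c20f8c5d18ba317462e8c5d18ba317462e8c5d18ba0ffa251c4380910147862e8c5d18ba317462e8c5d18ba317462e846c878f12d4203039d0a3c317462e8c5d18ba317462e8c5d18ba18802e3056e8a5b16322c645b918ba317462e8c5d18ba317462e83bd06ee0c2e15b434c879d0fec2dc8c5d18ba317462e8c5d18ba10901ba84a889151126288c2fa0592124862e8c5d18ba317462e840b08160ece2094471875d0f6c2cc84560924317462e8c5d18ba0d702288435890b12f21b443d60b8c1d9c285054618ba317462e8451077613ba21fc3fe8aaf0d002c50753090612c02a30c5d18ba116c22d83a487e91306236442b0bd20f5024684ba080216e462e851408ca1126201c43a8965148013c848d07ee10cc25d04c40b72)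
    (nat_lit 5) (nat_lit 43)
    [[nat_lit 2,nat_lit 17,nat_lit 0x1011,nat_lit 257,nat_lit 0x1101,nat_lit 0x100101,nat_lit 0x1001,nat_lit 0x10001,
    nat_lit 0x11001,nat_lit 0x100001,nat_lit 0x101001,nat_lit 0x200001,nat_lit 0x1100001,nat_lit 0x1000001,
    nat_lit 0x1001001,nat_lit 0x1000011],[nat_lit 32,nat_lit 0x1010,nat_lit 0x10010,nat_lit 0x11010,nat_lit 0x1010010,
    nat_lit 0x100010,nat_lit 0x1100010,nat_lit 0x1000010,nat_lit 0x1000110,nat_lit 0x2000010],[nat_lit 512,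
    nat_lit 0x1200,nat_lit 0x1000200,nat_lit 0x100200,nat_lit 0x1100,nat_lit 0x11100,nat_lit 0x101100,
    nat_lit 0x1001100,nat_lit 0x10100,nat_lit 0x1010100,nat_lit 0x100100,nat_lit 0x1100100,nat_lit 0x1000100,
    nat_lit 0x2000100],[nat_lit 0x2000,nat_lit 0x11000,nat_lit 0x101000,nat_lit 0x201000,nat_lit 0x1001000],
    [nat_lit 0x20000,nat_lit 0x1020000,nat_lit 0x110000,nat_lit 0x1110000,nat_lit 0x1010000],[nat_lit 0x200000,
    nat_lit 0x1200000,nat_lit 0x1100000,nat_lit 0x2100000],[nat_lit 0x2000000]]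
    [.c (nat_lit 1) (nat_lit 2),.c (nat_lit 0) (nat_lit 0x200803),.r (nat_lit 0x1ac0) (nat_lit 4) [nat_lit 0x10001,
    nat_lit 0x4200c41,nat_lit 0x861],.r (nat_lit 0x1ac0) (nat_lit 4) [nat_lit 0x10001,nat_lit 0x4210061,
    nat_lit 0x18041],.c (nat_lit 0) (nat_lit 0x200062),.c (nat_lit 2) (nat_lit 0x410803),
    .c (nat_lit 0) (nat_lit 0x318843),.r (nat_lit 0x1b04) (nat_lit 9) [nat_lit 0x4200001,nat_lit 65],
    .r (nat_lit 4) (nat_lit 12) [nat_lit 0x6300861,nat_lit 0x4200001],.c (nat_lit 0) (nat_lit 0x200803),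
    .r (nat_lit 0x174d) (nat_lit 13) [nat_lit 0x6300861,nat_lit 0x4200001],
    .r (nat_lit 0x1a6d) (nat_lit 9) [nat_lit 0x4200001,nat_lit 0x520061,nat_lit 0x218041],
    .r (nat_lit 0x1aad) (nat_lit 13) [nat_lit 0x4010061,nat_lit 0x6300861,nat_lit 0x218041],
    .r (nat_lit 0x1a91) (nat_lit 4) [nat_lit 65,nat_lit 0x4200001],.r (nat_lit 4) (nat_lit 3) [nat_lit 0x6300861,
    nat_lit 0x4200001],.r (nat_lit 0x19d8) (nat_lit 4) [nat_lit 0x10001,nat_lit 0x4210061,nat_lit 0x18041],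
    .c (nat_lit 2) (nat_lit 2),.r (nat_lit 0x1acd) (nat_lit 4) [nat_lit 0x10001,nat_lit 0x4210c41,nat_lit 0x18861],
    .r (nat_lit 0x1b41) (nat_lit 4) [nat_lit 0x4200061,nat_lit 65,nat_lit 0x10001],
    .r (nat_lit 0x125d) (nat_lit 10) [nat_lit 0xa318841,nat_lit 0x4000061,nat_lit 0x6310801,nat_lit 0x8210c41],
    .r (nat_lit 0x125e) (nat_lit 4) [nat_lit 0x4000061,nat_lit 0xa318841,nat_lit 0x218861,nat_lit 0x8210c41],
    .c (nat_lit 0) (nat_lit 0x200803),.r (nat_lit 4) (nat_lit 3) [nat_lit 0x4000061,nat_lit 0x4200001],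
    .r (nat_lit 0x1a22) (nat_lit 4) [nat_lit 0x4200061,nat_lit 65,nat_lit 0x10001],.c (nat_lit 0) (nat_lit 0x318002),
    .r (nat_lit 0x125f) (nat_lit 1) [nat_lit 0x43188a1,nat_lit 0xa44a0a1,nat_lit 0x20842481,nat_lit 0xe731801],
    .c (nat_lit 3) (nat_lit 2),.c (nat_lit 0) (nat_lit 0x218862),.r (nat_lit 0x1261) (nat_lit 10) [nat_lit 0xa029061,
    nat_lit 0x4310c41,nat_lit 0x6310801,nat_lit 0x8400061],.r (nat_lit 0x1260) (nat_lit 5) [nat_lit 0x1635a8a1,
    nat_lit 0x6218881,nat_lit 0x1ca10ca1,nat_lit 0xe731801],.r (nat_lit 0x174d) (nat_lit 13) [nat_lit 0x6018861,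
    nat_lit 0x4200001],.c (nat_lit 7) (nat_lit 0x300c43),.r (nat_lit 0x1a78) (nat_lit 4) [nat_lit 0x10001,
    nat_lit 0x4210c41,nat_lit 0x18861],.c (nat_lit 5) (nat_lit 0x300c43),
    .r (nat_lit 0x1b11) (nat_lit 4) [nat_lit 0x4200061,nat_lit 65,nat_lit 0x10001],.c (nat_lit 4) (nat_lit 0x300c43),
    .r (nat_lit 0x1a6d) (nat_lit 9) [nat_lit 0x4200001,nat_lit 0x310061,nat_lit 65],
    .r (nat_lit 0x1263) (nat_lit 5) [nat_lit 0xe3398a1,nat_lit 0x6218881,nat_lit 0x14610ca1,nat_lit 0xa521001],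
    .r (nat_lit 0x1aad) (nat_lit 13) [nat_lit 0x4200061,nat_lit 0x6018861,nat_lit 65],
    .r (nat_lit 0x1258) (nat_lit 2) [nat_lit 0xa521001,nat_lit 0x18421401,nat_lit 0xa429001,nat_lit 0xe3398a1],
    .c (nat_lit 4) (nat_lit 2),.r (nat_lit 0x1a91) (nat_lit 8) [nat_lit 0x4200001,nat_lit 65],
    .r (nat_lit 0x1b25) (nat_lit 4) [nat_lit 0x6310861,nat_lit 0x4200001,nat_lit 65],
    .r (nat_lit 0x174d) (nat_lit 13) [nat_lit 0x6318862,nat_lit 0x4200001],
    .r (nat_lit 0x1b04) (nat_lit 8) [nat_lit 0x4200001,nat_lit 65],.c (nat_lit 5) (nat_lit 2),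
    .r (nat_lit 0x1a27) (nat_lit 6) [nat_lit 0x6310801,nat_lit 0x4200001,nat_lit 0x4010c41,nat_lit 0x4310c01],
    .c (nat_lit 0) (nat_lit 0x318c45),.c (nat_lit 1) (nat_lit 0x802),.c (nat_lit 0) (nat_lit 0x318c45),
    .c (nat_lit 6) (nat_lit 2),.r (nat_lit 0x1b15) (nat_lit 0) [nat_lit 0x6310801,nat_lit 65,nat_lit 0x18061,
    nat_lit 0x218001],.c (nat_lit 0) (nat_lit 0x318c45),.r (nat_lit 0x1b28) (nat_lit 10) [nat_lit 65,
    nat_lit 0xa029061,nat_lit 0x10421441],.c (nat_lit 7) (nat_lit 2)],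
    .l (nat_lit 13) (nat_lit 0x780) (nat_lit 4) (nat_lit 0x2fd000002fd000002f0000002f0000002e2000002e200000326000003260000036000000360000002f2000002f2000002e7000002e7) (nat_lit 0x630000006300000070000000700000007e0000007e0000003a0000003a00000000000000000000006e0000006e0000007900000079)
    (nat_lit 0x1440a6853629313c89b45862c51638b0c52a2991420a685342881468a3454627f1618b5c5fa2fd1478a2c4fc2ac1468a4c50028012f09c856c29217a0bc04b428214489dc51a29b1400a0057c27214b09a85f82f0131097851227713f89b44e4272158099055025c1830c084e826812d8a2454627915f09785382b011e0aa05c42e213a05004ce2b516b8b144d429215409705d82b422d0e484d82b81598ab45862c314b0ad84782a81760bb07dc32615c0af05ce26517e8b0c5e02f01710c0864c3921ae0d8067422a1738b9c5fa2c717e0bd05c43061f7116864035c19f0bc85ba27b1458a644bc2820a009a05782b817908a85e02c415788b451e29513109684e827415c09b067c33a1520bc04c62791560a684ee27715a8a244ca2ad13d8b9c4f222d13409384fc2841448a244ce25b1738acc5ba2e71318abc4dc268)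
    (nat_lit 0x1441e00f007803c01e00f007803c01e00f007803c01e005342883c01e00f007803c01e00f007803c01e00f0078014d8a345007803c01e00f007803c01e00f007803c01e0052628d1400a00f007803c01e00f007803c01e00f0078013c8a8c4bc2be1581e00f007803c01e00f007803c01e004da27f13909c84c82b03c01e00f007803c01e00f007801618b0c56c29615408f05d87803c01e00f007803c01e0058a2d714909a84b82a815a0bb0f007803c01e00f007801638bf45e82fc1830b888b43ee1ae1e00f007803c01e005862fd1780bc06042e21c90c986c035c3c01e00f0078014a8a3c4b426213a09d04d82b819d0cf85e07803c01e0053228b14109784d014015c0af04542f21620bc0f0078014209f851228912d899c5662e71738b7455e2631341e005342ac13b89dc5122b515689945ce27b11689e449c268)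
    (nat_lit 4) (nat_lit 43)
    [[nat_lit 2,nat_lit 3,nat_lit 18,nat_lit 0x10002,nat_lit 0x100002,nat_lit 17,nat_lit 273,nat_lit 0x10011,
    nat_lit 0x100011,nat_lit 257,nat_lit 0x1001,nat_lit 0x11001,nat_lit 0x10001,nat_lit 0x110001,nat_lit 0x100001,
    nat_lit 0x101001,nat_lit 0x1000001,nat_lit 0x1000002,nat_lit 0x1000011],[nat_lit 32,nat_lit 0x10020,nat_lit 272,
    nat_lit 0x1010,nat_lit 0x11010,nat_lit 0x10010,nat_lit 0x20020,nat_lit 0x20010,nat_lit 0x110010,nat_lit 0x1010010,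
    nat_lit 0x100010,nat_lit 0x200010,nat_lit 0x1000010],[nat_lit 512,nat_lit 0x10100,nat_lit 0x100100,
    nat_lit 0x1000100],[nat_lit 0x2000,nat_lit 0x11000,nat_lit 0x111000,nat_lit 0x21000,nat_lit 0x101000,
    nat_lit 0x1001000],[nat_lit 0x20000,nat_lit 0x110000,nat_lit 0x210000,nat_lit 0x1110000,nat_lit 0x1010000],
    [nat_lit 0x200000,nat_lit 0x1100000],[nat_lit 0x2000000]]
    [.c (nat_lit 1) (nat_lit 2),.r (nat_lit 0x1257) (nat_lit 7) [nat_lit 0x7021,nat_lit 0x776651,nat_lit 33,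
    nat_lit 0x6d041],.c (nat_lit 0) (nat_lit 0x33223),.r (nat_lit 0x1aff) (nat_lit 12) [nat_lit 0x34001,
    nat_lit 0x25021,nat_lit 0x220001,nat_lit 0x78051],.r (nat_lit 0x1a8b) (nat_lit 6) [nat_lit 33,nat_lit 0x220001,
    nat_lit 0x202031],.c (nat_lit 0) (nat_lit 0x33223),.r (nat_lit 0x1b00) (nat_lit 9) [nat_lit 0x220001,
    nat_lit 0x32001,nat_lit 0x330231],.r (nat_lit 4) (nat_lit 6) [nat_lit 0x330231,nat_lit 0x220001],
    .r (nat_lit 0x1256) (nat_lit 9) [nat_lit 0x440001,nat_lit 0x200001,nat_lit 0x750451,nat_lit 0x204001],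
    .r (nat_lit 0x1257) (nat_lit 7) [nat_lit 0x33021,nat_lit 0x733651,nat_lit 0x34021,nat_lit 0x25041],
    .c (nat_lit 0) (nat_lit 0x20403),.c (nat_lit 6) (nat_lit 0x20203),
    .r (nat_lit 0x1a58) (nat_lit 3) [nat_lit 0x32031,nat_lit 0x220001,nat_lit 33],.c (nat_lit 3) (nat_lit 0x2302),
    .r (nat_lit 0x1750) (nat_lit 8) [nat_lit 0x220001,nat_lit 33],.c (nat_lit 5) (nat_lit 0x20203),
    .c (nat_lit 0) (nat_lit 0x33225),.c (nat_lit 0) (nat_lit 0x33223),.c (nat_lit 0) (nat_lit 0x33223),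
    .c (nat_lit 2) (nat_lit 2),.r (nat_lit 0x1b45) (nat_lit 13) [nat_lit 0x220321,nat_lit 0x642521,nat_lit 0x533431],
    .c (nat_lit 0) (nat_lit 0x30323),.r (nat_lit 0x1962) (nat_lit 7) [nat_lit 0x422321,nat_lit 0x533221,
    nat_lit 0x36231],.r (nat_lit 0x1259) (nat_lit 12) [nat_lit 0x955441,nat_lit 0x45451,nat_lit 0x844541,
    nat_lit 0x33231],.r (nat_lit 0x174f) (nat_lit 13) [nat_lit 33,nat_lit 0x220001],
    .r (nat_lit 2) (nat_lit 13) [nat_lit 34,nat_lit 0x220001],.r (nat_lit 0x1a78) (nat_lit 0) [nat_lit 0x220321,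
    nat_lit 0x243321,nat_lit 0x32231],.r (nat_lit 4) (nat_lit 9) [nat_lit 0x330231,nat_lit 0x220001],
    .r (nat_lit 0x174d) (nat_lit 8) [nat_lit 0x330231,nat_lit 0x220001],
    .r (nat_lit 0x1b04) (nat_lit 10) [nat_lit 0x220001,nat_lit 33],.r (nat_lit 0x125a) (nat_lit 6) [nat_lit 0x440001,
    nat_lit 0x505401,nat_lit 0x34001,nat_lit 0x202321],.c (nat_lit 0) (nat_lit 0x33223),.c (nat_lit 3) (nat_lit 2),
    .r (nat_lit 0x1aff) (nat_lit 12) [nat_lit 0x34001,nat_lit 33,nat_lit 0x220001,nat_lit 0x30051],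
    .r (nat_lit 0x1a8b) (nat_lit 6) [nat_lit 0x34021,nat_lit 0x220001,nat_lit 0x223031],
    .c (nat_lit 0) (nat_lit 0x30323),.c (nat_lit 4) (nat_lit 2),.r (nat_lit 0x174d) (nat_lit 8) [nat_lit 0x202031,
    nat_lit 0x220001],.c (nat_lit 1) (nat_lit 0x20203),.c (nat_lit 6) (nat_lit 0x20003),
    .r (nat_lit 0x17d2) (nat_lit 4) [nat_lit 0x220031,nat_lit 0x204031,nat_lit 33,nat_lit 0x200031],
    .r (nat_lit 0x1a6d) (nat_lit 10) [nat_lit 0x220001,nat_lit 0x533231,nat_lit 33],.c (nat_lit 5) (nat_lit 2),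
    .c (nat_lit 1) (nat_lit 514),.r (nat_lit 0x174d) (nat_lit 8) [nat_lit 0x2021,nat_lit 0x220001],
    .r (nat_lit 4) (nat_lit 9) [nat_lit 0x2021,nat_lit 0x220001],.r (nat_lit 0x125b) (nat_lit 9) [nat_lit 0x440001,
    nat_lit 0x200001,nat_lit 0x300041,nat_lit 0x204001],.c (nat_lit 6) (nat_lit 2),
    .r (nat_lit 10) (nat_lit 8) [nat_lit 33,nat_lit 0x220001],.c (nat_lit 7) (nat_lit 2)]]

/-- nodes -/
noncomputable def rD7k_19_8 : List RJ :=
  [.l (nat_lit 13) (nat_lit 0x720) (nat_lit 7) (nat_lit 0x32e0000032e0000028e000003fc0000033900000339000003e60000035e000003280000032800000334000003340000032e0000032e) (nat_lit 0xce000000ce000000000000016e000000c3000000c30000009e00000016000000d4000000d4000000c8000000c8000000ce000000ce)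
    (nat_lit 0x14009301c81ac14788f452011c12d09684cc26613009b04a8280136070075e23d11003904cc25a13909984e82600e006b057812c1ff8a343e01340dd08a838c1ba0d006d04d80e41fe0af06723391980f9871c3961730c386b835c11e88f467228d13b09d845a3231458a4c48620b25a8ae475e28f19c8ffc4ec2761058c8c3aa24513887548ce26b07204707cc1341918c8c6d03d01d70e8863c3ae17a0c6044029019807c041622d2120da052c28a1b9100852029012d096872c22a1228a4c5143a207403c04c025412d05f84cc25a1c706e83aa28b14b0eb84980e813009804b4246133099861c1ba0ea882c8043ae130095050027413309984e426617307184e22431b90c784c02601360a004b426613009b06b81b41358ae452031812305f84cc26613009804e82601ae06808ce4b51480bd04b425a12d09984e8260)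
    (nat_lit 0x1401c80e407203901c80e407203901c80e407203901c804982803901c80e407203901c80e407203901c80e4072007209b05487203901c80e407203901c80e407203901c803581c00960a90e407203901c80e407203901c80e407201478ebc7fe33913b1c80e407203901c80e407203901c8047a23d1468c844ec2763901c80e407203901c80e4072014808803e0304116882c6787203901c80e407203901c802380e409a07206423231000cf0e407203901c80e4072012d099837434a145875467c2960741c80e407203901c804b425a1150cf852624519f0a281e00e83901c80e4072013309c838c2e612189c463c37213009805007203901c804cc2660dd0c384161d51a510084a826013a0a00e4072013009d034035823290bc5e829012d09684cc25a1301c804d82600da0d1057226b18c0a402fc24613309984c0260)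
    (nat_lit 5) (nat_lit 79)
    [[nat_lit 2,nat_lit 258,nat_lit 17,nat_lit 273,nat_lit 0x10011,nat_lit 0x100011,nat_lit 257,nat_lit 513,
    nat_lit 769,nat_lit 0x10101,nat_lit 0x1000101,nat_lit 0x401,nat_lit 0x1001,nat_lit 0x1101,nat_lit 0x1101001,
    nat_lit 0x1001001,nat_lit 0x100001,nat_lit 0x100101,nat_lit 0x1100001,nat_lit 0x1100101,nat_lit 0x1200001,
    nat_lit 0x1000001,nat_lit 0x1010001],[nat_lit 32,nat_lit 0x10020,nat_lit 272,nat_lit 528,nat_lit 784,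
    nat_lit 0x10110,nat_lit 0x1001010,nat_lit 0x1101010,nat_lit 0x10010,nat_lit 0x20010,nat_lit 0x1010010,
    nat_lit 0x100010,nat_lit 0x110010,nat_lit 0x1100010,nat_lit 0x1110010,nat_lit 0x1200010,nat_lit 0x100110,
    nat_lit 0x1000010],[nat_lit 512,nat_lit 768,nat_lit 0x400,nat_lit 0x500,nat_lit 0x600,nat_lit 0x700,
    nat_lit 0x10300,nat_lit 0x1100300,nat_lit 0x1000300,nat_lit 0x1001200,nat_lit 0x10200,nat_lit 0x100200,
    nat_lit 0x1100200,nat_lit 0x1101200,nat_lit 0x1000200,nat_lit 0x1100,nat_lit 0x1101100,nat_lit 0x1001100,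
    nat_lit 0x10100,nat_lit 0x20100,nat_lit 0x20200,nat_lit 0x1010100,nat_lit 0x100100,nat_lit 0x1100100,
    nat_lit 0x1000100,nat_lit 0x2000100],[nat_lit 0x2000,nat_lit 0x1002000,nat_lit 0x11000,nat_lit 0x1012000,
    nat_lit 0x111000,nat_lit 0x1011000,nat_lit 0x1111000,nat_lit 0x101000,nat_lit 0x1201000,nat_lit 0x1101000,
    nat_lit 0x2102000,nat_lit 0x2201000,nat_lit 0x2101000,nat_lit 0x1001000,nat_lit 0x2002000,nat_lit 0x2001000],
    [nat_lit 0x20000,nat_lit 0x1020000,nat_lit 0x110000,nat_lit 0x1010000],[nat_lit 0x200000,nat_lit 0x1200000,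
    nat_lit 0x1100000,nat_lit 0x2200000,nat_lit 0x2100000],[nat_lit 0x2000000]]
    [.c (nat_lit 1) (nat_lit 2),.c (nat_lit 1) (nat_lit 0x318002),.r (nat_lit 10) (nat_lit 4) [nat_lit 0x6000861,
    nat_lit 65],.c (nat_lit 2) (nat_lit 0x318002),.c (nat_lit 0) (nat_lit 0x200862),
    .r (nat_lit 0x174b) (nat_lit 7) [nat_lit 0x6018801,nat_lit 0x10001,nat_lit 0x300041],
    .c (nat_lit 0) (nat_lit 0x210003),.c (nat_lit 3) (nat_lit 0x318002),
    .r (nat_lit 0x196a) (nat_lit 0) [nat_lit 0x10001,nat_lit 0x12518841,nat_lit 0x4000001],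
    .c (nat_lit 1) (nat_lit 0x10c43),.c (nat_lit 7) (nat_lit 0x318002),.r (nat_lit 75) (nat_lit 5) [nat_lit 0x6300041,
    nat_lit 0x10200061,nat_lit 0x6018801],.r (nat_lit 0x174e) (nat_lit 4) [nat_lit 0x4210061,nat_lit 65],
    .c (nat_lit 2) (nat_lit 0x210803),.r (nat_lit 0x13f8) (nat_lit 4) [nat_lit 0x318041,nat_lit 0xa319061,
    nat_lit 0x20001,nat_lit 0x8210061],.r (nat_lit 0x174b) (nat_lit 13) [nat_lit 0x6018801,nat_lit 0x10001,
    nat_lit 0x300041],.c (nat_lit 0) (nat_lit 0x410003),.c (nat_lit 6) (nat_lit 0x318002),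
    .c (nat_lit 1) (nat_lit 0x10002),.c (nat_lit 1) (nat_lit 0x300002),
    .r (nat_lit 0x1867) (nat_lit 10) [nat_lit 0x8210c01,nat_lit 0x10001,nat_lit 0x6018801,nat_lit 0x8221441],
    .c (nat_lit 0) (nat_lit 0x410003),.c (nat_lit 0) (nat_lit 0x200862),.c (nat_lit 2) (nat_lit 2),
    .r (nat_lit 0x196e) (nat_lit 4) [nat_lit 0x200001,nat_lit 0x4000001,nat_lit 0x4210c41,nat_lit 0x6310861],
    .r (nat_lit 2) (nat_lit 4) [nat_lit 0x4210061,nat_lit 65],.r (nat_lit 0x13f8) (nat_lit 4) [nat_lit 0x8000061,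
    nat_lit 0x12529041,nat_lit 0x20001,nat_lit 65],.r (nat_lit 0x19ca) (nat_lit 4) [nat_lit 0x200001,
    nat_lit 0x4000001,nat_lit 0x6318801,nat_lit 0xe000041],.r (nat_lit 0x1976) (nat_lit 4) [nat_lit 0x200001,
    nat_lit 0x4000001,nat_lit 0x210c41,nat_lit 0x6318801],.c (nat_lit 0) (nat_lit 0xc02),
    .c (nat_lit 3) (nat_lit 0x200803),.r (nat_lit 0x174e) (nat_lit 4) [nat_lit 0x8210c41,nat_lit 0x6000861],
    .c (nat_lit 0) (nat_lit 0x8210a2),.r (nat_lit 0x13f9) (nat_lit 4) [nat_lit 0x8210c41,nat_lit 0x6318861,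
    nat_lit 0xa318801,nat_lit 0x10001],.r (nat_lit 0) (nat_lit 8) [nat_lit 0x6018801,nat_lit 65],
    .r (nat_lit 0) (nat_lit 13) [nat_lit 0x6300861,nat_lit 0x6018801],.r (nat_lit 10) (nat_lit 4) [nat_lit 0x6300861,
    nat_lit 0x200041],.c (nat_lit 0) (nat_lit 0x210862),.r (nat_lit 0x174b) (nat_lit 7) [nat_lit 0x6018801,
    nat_lit 0x10001,nat_lit 65],.r (nat_lit 32) (nat_lit 0) [nat_lit 0x4010061,nat_lit 0x6018801],
    .r (nat_lit 0x19c6) (nat_lit 10) [nat_lit 0x8210c01,nat_lit 65,nat_lit 0x6018801],.c (nat_lit 3) (nat_lit 2),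
    .r (nat_lit 45) (nat_lit 5) [nat_lit 65,nat_lit 0xc000061,nat_lit 0x6018801],
    .r (nat_lit 0x196a) (nat_lit 0) [nat_lit 0x10001,nat_lit 0x1a529042,nat_lit 0x4000001],
    .r (nat_lit 0x13fa) (nat_lit 10) [nat_lit 0x50001,nat_lit 0x2ab5a841,nat_lit 0x14000061,nat_lit 0x14a00061],
    .r (nat_lit 75) (nat_lit 5) [nat_lit 66,nat_lit 0x18000062,nat_lit 0x6018801],
    .r (nat_lit 0x13fb) (nat_lit 10) [nat_lit 0x70001,nat_lit 0x3af7b841,nat_lit 0x1c000061,nat_lit 0x1ce00061],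
    .r (nat_lit 0x13fc) (nat_lit 10) [nat_lit 0x40001,nat_lit 0x1a739841,nat_lit 0x8318861,nat_lit 0x8618861],
    .r (nat_lit 0x196a) (nat_lit 0) [nat_lit 0x10001,nat_lit 0x12318841,nat_lit 0x4000001],
    .r (nat_lit 0x13fd) (nat_lit 10) [nat_lit 0x1a739841,nat_lit 0xc000061,nat_lit 0xc600061,nat_lit 0x30001],
    .r (nat_lit 0x174b) (nat_lit 7) [nat_lit 0x6018801,nat_lit 0x10001,nat_lit 0x8010061],
    .r (nat_lit 75) (nat_lit 5) [nat_lit 0x8210c41,nat_lit 0x4318861,nat_lit 0x6018801],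
    .c (nat_lit 0) (nat_lit 0x410003),.c (nat_lit 3) (nat_lit 0x300002),
    .r (nat_lit 10) (nat_lit 4) [nat_lit 0xe318841,nat_lit 0x8210061],.c (nat_lit 0) (nat_lit 0x400003),
    .r (nat_lit 0x1b04) (nat_lit 3) [nat_lit 65,nat_lit 0x6018801],.c (nat_lit 2) (nat_lit 0x200803),
    .r (nat_lit 32) (nat_lit 4) [nat_lit 0x4010061,nat_lit 0x6018801],
    .r (nat_lit 0x196a) (nat_lit 0) [nat_lit 0x10001,nat_lit 0x6000041,nat_lit 0x4000001],
    .c (nat_lit 1) (nat_lit 0x311483),.c (nat_lit 1) (nat_lit 0x21483),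
    .r (nat_lit 0x19c9) (nat_lit 10) [nat_lit 0x8210c01,nat_lit 0x4000061,nat_lit 0x10001,nat_lit 0x6018801],
    .c (nat_lit 0) (nat_lit 0x200003),.c (nat_lit 0) (nat_lit 0x200003),.c (nat_lit 0) (nat_lit 0x200003),
    .c (nat_lit 0) (nat_lit 0x400003),.c (nat_lit 4) (nat_lit 2),.r (nat_lit 0x1a00) (nat_lit 4) [nat_lit 0x20061,
    nat_lit 65,nat_lit 0x200001,nat_lit 0x4000001],.r (nat_lit 10) (nat_lit 4) [nat_lit 65,nat_lit 0x6000861],
    .r (nat_lit 0x13fe) (nat_lit 4) [nat_lit 0x8000001,nat_lit 0x12529001,nat_lit 0x8210c41,nat_lit 0xa310861],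
    .r (nat_lit 0x19c6) (nat_lit 10) [nat_lit 0x8210c01,nat_lit 0x6300861,nat_lit 0x6018801],
    .r (nat_lit 0) (nat_lit 8) [nat_lit 0x6018801,nat_lit 0x6300861],.c (nat_lit 0) (nat_lit 0x210862),
    .r (nat_lit 0x13f9) (nat_lit 4) [nat_lit 0x4010061,nat_lit 0x18041,nat_lit 0xa318801,nat_lit 0x10001],
    .r (nat_lit 0x18c6) (nat_lit 4) [nat_lit 0x200001,nat_lit 0x4000001,nat_lit 0x10061,nat_lit 65],
    .r (nat_lit 0x174e) (nat_lit 4) [nat_lit 0x4010061,nat_lit 0x200041],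
    .r (nat_lit 0x13ff) (nat_lit 4) [nat_lit 0x8000001,nat_lit 0x12529001,nat_lit 0x6000041,nat_lit 0x4020061],
    .r (nat_lit 0x13f8) (nat_lit 4) [nat_lit 0x18041,nat_lit 0xa519061,nat_lit 0x20001,nat_lit 0x8010061],
    .r (nat_lit 0x174b) (nat_lit 13) [nat_lit 0x6018801,nat_lit 0x10001,nat_lit 65],
    .r (nat_lit 0) (nat_lit 13) [nat_lit 65,nat_lit 0x6018801],.r (nat_lit 32) (nat_lit 0) [nat_lit 66,
    nat_lit 0x6018801],.r (nat_lit 0x18f1) (nat_lit 4) [nat_lit 0x10061,nat_lit 65,nat_lit 0x200001,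
    nat_lit 0x4000001],.c (nat_lit 5) (nat_lit 2),.c (nat_lit 0) (nat_lit 0x8210a2),.c (nat_lit 0) (nat_lit 0x318c43),
    .c (nat_lit 0) (nat_lit 0x318c43),.c (nat_lit 6) (nat_lit 2),.c (nat_lit 0) (nat_lit 0x400003),
    .c (nat_lit 0) (nat_lit 0x18003),.c (nat_lit 1) (nat_lit 0x20002),.c (nat_lit 0) (nat_lit 0x400003),
    .c (nat_lit 7) (nat_lit 2)],
    .l (nat_lit 11) (nat_lit 480) (nat_lit 6) (nat_lit 0xd6000000d6000000d2000000d2000000d8000000c0000000a0000000fc000000da000000da000000d4000000d4000000d9000000d9) (nat_lit 0x26000000260000002a0000002a0000003c00000024000000000000005c000000220000002200000028000000280000002300000023)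
    (nat_lit 0x1382c0580ac1342686b07a1682708b1001662cc5809c1482b0550b21942185a0ac1c0328598b31582b0540a81142d86d0661282f0550aa1861f4520b01402a0490ae1cc1c89214c154298638af164268570b61402f01e0801742885803c1622d45509a124228420a01981904f0921302604e89d10c1e8390660c8200560440fc1c83c0780fa1f4650d61cc3686603c1f82b0610da158350788c7158270a60bc1242886d0721702e0620ca16e37c5a0b42482504f0ba1841f85c0b81582c8328c3194400530aa1300f06a078164328500ac1622dc701161542a84c0b01581e0560c4158280588b11662cc5787d13a2d46387d18637c588b709c2d8598b318e30c4e8b11e21f4328b71622c45b04e)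
    (nat_lit 0x138780f01e03c0780f01e03c0780f01e03c07805809c3c0780f01e03c0780f01e03c0780f01e0160290541e03c0780f01e03c0780f01e03c0780560ac1502a0f01e03c0780f01e03c0780f01e01342a845092140780f01e03c0780f01e03c07804d0b216c2b85e0a03c0780f01e03c0780f01e01ac328630ce078300501e03c0780f01e03c07803d0860cc1c840064088280f01e03c0780f01e01682d04a1241742783f0c2170780f01e03c07804e0ac1784d0510920e43385c0b83c0780f01e022c380550aa1602603c0ac1882b0501e03c07806b0ca1542981e0980f0350650b2158280f01e01662cc618c71622743e8d916e194588b109c780598b30fa2bc5a89d0fa31c6f8c316e2c45b04e)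
    (nat_lit 4) (nat_lit 98)
    [[nat_lit 2,nat_lit 3,nat_lit 4,nat_lit 5,nat_lit 6,nat_lit 18,nat_lit 0x10012,nat_lit 258,nat_lit 0x1002,
    nat_lit 0x11002,nat_lit 0x10002,nat_lit 0x100002,nat_lit 0x1000002,nat_lit 17,nat_lit 0x1011,nat_lit 0x100011,
    nat_lit 0x10011,nat_lit 257,nat_lit 0x1101,nat_lit 0x11101,nat_lit 0x10101,nat_lit 0x100101,nat_lit 0x1000101,
    nat_lit 0x1001,nat_lit 0x11001,nat_lit 0x111001,nat_lit 0x10001,nat_lit 0x110001,nat_lit 0x100001,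
    nat_lit 0x1000001,nat_lit 0x1100001],[nat_lit 32,nat_lit 0x1020,nat_lit 0x10020,nat_lit 0x20020,nat_lit 272,
    nat_lit 0x10110,nat_lit 0x1010,nat_lit 0x11010,nat_lit 0x21010,nat_lit 0x1110,nat_lit 0x2010,nat_lit 0x12010,
    nat_lit 0x101010,nat_lit 0x10010,nat_lit 0x20010,nat_lit 0x100010,nat_lit 0x110010,nat_lit 0x1010010],
    [nat_lit 512,nat_lit 0x1100,nat_lit 0x11100,nat_lit 0x12100,nat_lit 0x10100,nat_lit 0x111100,nat_lit 0x110100,
    nat_lit 0x1100100,nat_lit 0x1000100],[nat_lit 0x2000,nat_lit 0x12000,nat_lit 0x102000,nat_lit 0x11000,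
    nat_lit 0x22000,nat_lit 0x122000,nat_lit 0x21000,nat_lit 0x121000,nat_lit 0x111000,nat_lit 0x211000,
    nat_lit 0x1011000,nat_lit 0x101000,nat_lit 0x1001000],[nat_lit 0x20000,nat_lit 0x120000,nat_lit 0x1020000,
    nat_lit 0x110000,nat_lit 0x1110000,nat_lit 0x1010000],[nat_lit 0x200000,nat_lit 0x1100000],[nat_lit 0x2000000,
    nat_lit 0x3000000]]
    [.c (nat_lit 1) (nat_lit 2),.r (nat_lit 45) (nat_lit 3) [nat_lit 33,nat_lit 0x770631,nat_lit 0x200001],
    .r (nat_lit 40) (nat_lit 3) [nat_lit 34,nat_lit 0x990832,nat_lit 0x200001],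
    .r (nat_lit 0xeb5) (nat_lit 4) [nat_lit 0xa0001,nat_lit 0xb0b0021,nat_lit 0xbb0a31,nat_lit 0xaaa0031],
    .r (nat_lit 75) (nat_lit 3) [nat_lit 34,nat_lit 0xdd0c32,nat_lit 0x200001],
    .r (nat_lit 0x196a) (nat_lit 5) [nat_lit 0x20001,nat_lit 0x3200321,nat_lit 0x330201],
    .r (nat_lit 0) (nat_lit 3) [nat_lit 0x3222321,nat_lit 0x2003231],.c (nat_lit 0) (nat_lit 0x203323),
    .c (nat_lit 0) (nat_lit 0x55043),.c (nat_lit 1) (nat_lit 0x22032),.c (nat_lit 0) (nat_lit 0x203323),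
    .r (nat_lit 0x1717) (nat_lit 12) [nat_lit 0x80001,nat_lit 0x4455451,nat_lit 0x3772631,nat_lit 0x5444541],
    .r (nat_lit 0xeb4) (nat_lit 6) [nat_lit 0x600001,nat_lit 0x4060031,nat_lit 0x2000021,nat_lit 0x5000021],
    .c (nat_lit 0) (nat_lit 0x222003),.c (nat_lit 1) (nat_lit 0x3302),.c (nat_lit 3) (nat_lit 0x242003),
    .c (nat_lit 2) (nat_lit 0x24232),.c (nat_lit 4) (nat_lit 0x330202),
    .r (nat_lit 0x174e) (nat_lit 3) [nat_lit 0x30231,nat_lit 0x3300021],.c (nat_lit 3) (nat_lit 0x22032),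
    .c (nat_lit 0) (nat_lit 0x203323),.c (nat_lit 0) (nat_lit 0x30002),.c (nat_lit 2) (nat_lit 0x224003),
    .c (nat_lit 0) (nat_lit 0x33023),.c (nat_lit 0) (nat_lit 0x33023),.c (nat_lit 3) (nat_lit 0x3023),
    .c (nat_lit 0) (nat_lit 0x233323),.r (nat_lit 0) (nat_lit 3) [nat_lit 0x242321,nat_lit 0x33231],
    .r (nat_lit 0x196a) (nat_lit 5) [nat_lit 0x20001,nat_lit 0x220321,nat_lit 0x330201],
    .c (nat_lit 0) (nat_lit 0x33323),.c (nat_lit 0) (nat_lit 0x200002),.c (nat_lit 2) (nat_lit 2),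
    .c (nat_lit 2) (nat_lit 0x3302),.r (nat_lit 0x1868) (nat_lit 4) [nat_lit 0x2001,nat_lit 0x20001,nat_lit 0x200001,
    nat_lit 0x2000001],.r (nat_lit 32) (nat_lit 10) [nat_lit 34,nat_lit 0x200001],.c (nat_lit 0) (nat_lit 0x222003),
    .r (nat_lit 0xeb4) (nat_lit 6) [nat_lit 0x600001,nat_lit 0x2062321,nat_lit 0x4003231,nat_lit 0x3003231],
    .c (nat_lit 0) (nat_lit 0x2203),.c (nat_lit 5) (nat_lit 0x3302),.r (nat_lit 0x174b) (nat_lit 1) [nat_lit 0x200001,
    nat_lit 0x20001,nat_lit 33],.c (nat_lit 3) (nat_lit 0x3302),.c (nat_lit 4) (nat_lit 0x3302),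
    .c (nat_lit 0) (nat_lit 0x30223),.c (nat_lit 3) (nat_lit 0x22203),.c (nat_lit 0) (nat_lit 0x30223),
    .r (nat_lit 0x17af) (nat_lit 4) [nat_lit 0x20001,nat_lit 0x200001,nat_lit 0x30021,nat_lit 0x2000001],
    .r (nat_lit 0) (nat_lit 3) [nat_lit 33,nat_lit 0x220031],.r (nat_lit 0x14be) (nat_lit 7) [nat_lit 0x3073241,
    nat_lit 0x5955401,nat_lit 0x4055401,nat_lit 0x48c4501],.c (nat_lit 0) (nat_lit 0x3002),.c (nat_lit 3) (nat_lit 2),
    .r (nat_lit 0x1a3c) (nat_lit 7) [nat_lit 0x300021,nat_lit 0x200001,nat_lit 0x20001],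
    .r (nat_lit 0x1b47) (nat_lit 5) [nat_lit 0x20001,nat_lit 0x200031,nat_lit 0x330201],
    .c (nat_lit 3) (nat_lit 0x242332),.c (nat_lit 0) (nat_lit 0x203323),.c (nat_lit 1) (nat_lit 0x3023),
    .c (nat_lit 0) (nat_lit 0x30002),.c (nat_lit 0) (nat_lit 0x230002),.r (nat_lit 0) (nat_lit 3) [nat_lit 0x220031,
    nat_lit 33],.c (nat_lit 4) (nat_lit 2),.c (nat_lit 0) (nat_lit 0x33223),.c (nat_lit 0) (nat_lit 0x333223),
    .c (nat_lit 0) (nat_lit 0x33023),.c (nat_lit 0) (nat_lit 0x55043),.c (nat_lit 0) (nat_lit 0x222332),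
    .c (nat_lit 0) (nat_lit 0x55043),.r (nat_lit 32) (nat_lit 10) [nat_lit 0x2240321,nat_lit 0x200001],
    .c (nat_lit 2) (nat_lit 0x224032),.r (nat_lit 0x1a3c) (nat_lit 7) [nat_lit 0x3332231,nat_lit 0x200001,
    nat_lit 0x20001],.c (nat_lit 3) (nat_lit 0x242032),.c (nat_lit 1) (nat_lit 0x200302),
    .r (nat_lit 0x174e) (nat_lit 3) [nat_lit 0x3330231,nat_lit 33],.c (nat_lit 5) (nat_lit 2),
    .r (nat_lit 0x1868) (nat_lit 4) [nat_lit 0x2001,nat_lit 0x20001,nat_lit 0x200001,nat_lit 0x2000001],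
    .r (nat_lit 0xeb4) (nat_lit 6) [nat_lit 0x600001,nat_lit 0x44a4521,nat_lit 0x2555431,nat_lit 0x5555431],
    .c (nat_lit 2) (nat_lit 0x226232),.c (nat_lit 4) (nat_lit 0x333023),.c (nat_lit 0) (nat_lit 0x33323),
    .c (nat_lit 6) (nat_lit 2),.c (nat_lit 0) (nat_lit 0x200002),.c (nat_lit 7) (nat_lit 2),
    .c (nat_lit 0) (nat_lit 0x602)]]

/-- nodes -/
noncomputable def rD7k_19_9 : List RJ :=
  [.l (nat_lit 15) (nat_lit 0x131a) (nat_lit 4) (nat_lit 0x8e1000008e1000007c0000007c00000084600000856000007b2000009a8000009920000085e000007b8000007b8000007320000078a) (nat_lit 0xc7000000c7000001e8000001e8000001520000016200000000000001f60000014a00000016000001f0000001f00000021e00000276)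
    (nat_lit 0x103420682c8879d0f1e1e2464186eb0cc22b4c378884f0d86195c3b9081a0e121be43c786c7185e1a5c4238cb910d21eac30f85590df21e7434806800d8419381e905ca0b78117037105200b440f4838485910c141a40337065e0b84198041c07aa07a414c02cc054a0d8e1e2432f064e0cbc1ac842306500f3828b832b04940f201f383c7878f0cdc1b08382065e10ac19804760b7e0ccc0f4831c06760d2e1bac33005ca0cc0194023a05bc11f81e7029603e20b2814f06178c830b840f4842b0846141811d042f0992158825e82c1072819722b4c3d5045c16fc28b84c9079c0d0c24603d607a207a410404238661107016f0476079c10bc23f038a06860b4c19b827105de0f56213c298052007a412504bd03e20cdc1e882e905c80da0182843486f107a41b883330656158814b02d307ac0a6417482d705420ab2195c2a503d20cec1f38394053c0bbc10402a1060a0a28154830f86c30b30168831c07900b04165027103d20b5c1b402b60514)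
    (nat_lit 0x10344c6898d131a26344c6898d131a26344c6898d131a26344c6840d081a26344c6898d131a26344c6898d131a26344c6898d131a0b221c24348131a26344c6898d131a26344c6898d131a26344c683ce86f90d001a4098d131a26344c6898d131a26344c6898d131a0f1e1e3c361066e0cbc4c6898d131a26344c6898d131a26344c683c486c70c9c1978359065e26344c6898d131a26344c6898d131a12c62b6c1e905c2108c215823a131a26344c6898d131a26344c6837586970b94198032806600b7811d098d131a26344c6898d131a0cc2211c2de08380f3823b047e085e0d0c4c6898d131a26344c684f68b6508b81ea85170aca0f38264848c068626344c6898d131a0de221a437103d20cac199829607a40f5816982e9131a26344c6842787ab0a4014c024a03d207c424083d1066e0b90174898d131a0d86187c2d105980f2018e02ca058207a4138836805ae0a284c6832b855907a415283e706760a781ca020805de0c1415082a90514)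
    (nat_lit 4) (nat_lit 133)
    [[nat_lit 2,nat_lit 3,nat_lit 18,nat_lit 258,nat_lit 0x1002,nat_lit 0x100002,nat_lit 0x1000002,nat_lit 17,
    nat_lit 33,nat_lit 273,nat_lit 0x100011,nat_lit 0x1011,nat_lit 0x101011,nat_lit 0x10011,nat_lit 257,nat_lit 514,
    nat_lit 0x100102,nat_lit 0x100111,nat_lit 513,nat_lit 0x1101,nat_lit 0x10101,nat_lit 0x100101,nat_lit 0x1000101,
    nat_lit 0x1001,nat_lit 0x2001,nat_lit 0x101001,nat_lit 0x11001,nat_lit 0x1001001,nat_lit 0x10001,nat_lit 0x110011,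
    nat_lit 0x110001,nat_lit 0x100001,nat_lit 0x200011,nat_lit 0x200001,nat_lit 0x1100001,nat_lit 0x200002,
    nat_lit 0x1000001],[nat_lit 32,nat_lit 48,nat_lit 0x10020,nat_lit 0x100020,nat_lit 0x101020,nat_lit 0x1020,
    nat_lit 272,nat_lit 0x100110,nat_lit 0x1010,nat_lit 0x102010,nat_lit 0x11010,nat_lit 0x101010,nat_lit 0x10010,
    nat_lit 0x20010,nat_lit 0x110010,nat_lit 0x100010,nat_lit 0x200010,nat_lit 0x200020,nat_lit 0x201010,
    nat_lit 0x111010,nat_lit 0x1000010,nat_lit 0x1010010],[nat_lit 512,nat_lit 0x1100,nat_lit 0x110100,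
    nat_lit 0x100100,nat_lit 0x200100,nat_lit 0x1100100],[nat_lit 0x2000,nat_lit 0x3000,nat_lit 0x4000,
    nat_lit 0x102000,nat_lit 0x11000,nat_lit 0x101000,nat_lit 0x111000,nat_lit 0x201000,nat_lit 0x1101000],
    [nat_lit 0x20000,nat_lit 0x110000,nat_lit 0x1010000],[nat_lit 0x200000,nat_lit 0x1100000],[nat_lit 0x2000000]]
    [.c (nat_lit 1) (nat_lit 2),.r (nat_lit 0x1748) (nat_lit 8) [nat_lit 33,nat_lit 0x606031,nat_lit 0x20001],
    .c (nat_lit 0) (nat_lit 0x33223),.r (nat_lit 0x1622) (nat_lit 1) [nat_lit 0x550431,nat_lit 0x40001,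
    nat_lit 0x404031,nat_lit 33],.c (nat_lit 1) (nat_lit 0x30302),.c (nat_lit 0) (nat_lit 0x33223),
    .r (nat_lit 0x174c) (nat_lit 1) [nat_lit 0x20001,nat_lit 33,nat_lit 0x232231],.c (nat_lit 0) (nat_lit 0x33023),
    .c (nat_lit 0) (nat_lit 0x55043),.r (nat_lit 0x174e) (nat_lit 3) [nat_lit 0x300231,nat_lit 0x200001],
    .c (nat_lit 0) (nat_lit 0x33023),.c (nat_lit 2) (nat_lit 0x30302),.c (nat_lit 4) (nat_lit 0x22032),
    .r (nat_lit 32) (nat_lit 7) [nat_lit 0x300231,nat_lit 0x200001],.r (nat_lit 0x1b2f) (nat_lit 4) [nat_lit 0x30021,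
    nat_lit 0x222031,nat_lit 0x20001],.r (nat_lit 32) (nat_lit 8) [nat_lit 0x202001,nat_lit 0x5022],
    .r (nat_lit 0x1623) (nat_lit 1) [nat_lit 0x40001,nat_lit 0x404031,nat_lit 0x550431,nat_lit 33],
    .c (nat_lit 3) (nat_lit 0x22032),.r (nat_lit 0x1624) (nat_lit 0) [nat_lit 0x955401,nat_lit 0x400001,
    nat_lit 0x404001,nat_lit 0x303021],.c (nat_lit 3) (nat_lit 0x30302),.c (nat_lit 4) (nat_lit 0x22203),
    .r (nat_lit 0x1a49) (nat_lit 5) [nat_lit 0x202001,nat_lit 0x300231,nat_lit 0x200001,nat_lit 0x20001],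
    .r (nat_lit 0x1625) (nat_lit 1) [nat_lit 0x553431,nat_lit 0x40001,nat_lit 0x402031,nat_lit 0x2021],
    .c (nat_lit 0) (nat_lit 0x20203),.c (nat_lit 4) (nat_lit 0x30302),.c (nat_lit 6) (nat_lit 0x30302),
    .c (nat_lit 3) (nat_lit 0x22203),.c (nat_lit 4) (nat_lit 0x40203),.r (nat_lit 0) (nat_lit 13) [nat_lit 0x200001,
    nat_lit 33],.c (nat_lit 3) (nat_lit 0x30023),.r (nat_lit 0x19b4) (nat_lit 8) [nat_lit 0x300231,nat_lit 0x220321,
    nat_lit 0x200001],.c (nat_lit 0) (nat_lit 0x33023),.c (nat_lit 6) (nat_lit 0x22032),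
    .c (nat_lit 0) (nat_lit 0x55043),.r (nat_lit 0x19c6) (nat_lit 13) [nat_lit 0x330231,nat_lit 0x20001,
    nat_lit 0x200001],.c (nat_lit 0) (nat_lit 0x55043),.r (nat_lit 0x1750) (nat_lit 1) [nat_lit 33,nat_lit 0x20001],
    .c (nat_lit 2) (nat_lit 2),.r (nat_lit 0x1a4a) (nat_lit 4) [nat_lit 0x2001,nat_lit 0x20001,nat_lit 0x200001],
    .r (nat_lit 0xd4f) (nat_lit 5) [nat_lit 0x40001,nat_lit 0x400001,nat_lit 0x30021,nat_lit 0x4001],
    .c (nat_lit 0) (nat_lit 0x55043),.r (nat_lit 0x1a4a) (nat_lit 4) [nat_lit 0x2001,nat_lit 0x20001,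
    nat_lit 0x200001],.r (nat_lit 0x160e) (nat_lit 7) [nat_lit 0x60001,nat_lit 0x355431,nat_lit 0x352431,
    nat_lit 0x533221],.r (nat_lit 2) (nat_lit 4) [nat_lit 0x202001,nat_lit 33],
    .r (nat_lit 32) (nat_lit 1) [nat_lit 0x300231,nat_lit 0x200001],.c (nat_lit 0) (nat_lit 0x3223),
    .r (nat_lit 0x174c) (nat_lit 1) [nat_lit 0x20001,nat_lit 0x232231,nat_lit 33],
    .r (nat_lit 0x1623) (nat_lit 1) [nat_lit 0x40001,nat_lit 0x402321,nat_lit 0x553221,nat_lit 0x2231],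
    .c (nat_lit 4) (nat_lit 0x42232),.r (nat_lit 32) (nat_lit 9) [nat_lit 0x202001,nat_lit 33],
    .r (nat_lit 0x1a4a) (nat_lit 4) [nat_lit 0x2001,nat_lit 0x20001,nat_lit 0x200001],
    .r (nat_lit 32) (nat_lit 8) [nat_lit 0x202001,nat_lit 0x303231],.c (nat_lit 0) (nat_lit 0x33023),
    .c (nat_lit 0) (nat_lit 0x55043),.c (nat_lit 4) (nat_lit 0x84452),
    .r (nat_lit 0x19b2) (nat_lit 3) [nat_lit 0x20001,nat_lit 0x330201,nat_lit 0x642521],
    .r (nat_lit 0x1622) (nat_lit 1) [nat_lit 0x553221,nat_lit 0x40001,nat_lit 0x402321,nat_lit 0x2231],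
    .c (nat_lit 0) (nat_lit 0x33323),.r (nat_lit 0) (nat_lit 4) [nat_lit 0x303231,nat_lit 0x200001],
    .c (nat_lit 3) (nat_lit 2),.r (nat_lit 32) (nat_lit 1) [nat_lit 0x222031,nat_lit 0x200001],
    .c (nat_lit 0) (nat_lit 0x3002),.r (nat_lit 0) (nat_lit 4) [nat_lit 33,nat_lit 0x200001],
    .r (nat_lit 0x175a) (nat_lit 9) [nat_lit 0x202001,nat_lit 0x200001,nat_lit 33,nat_lit 0x20001],
    .r (nat_lit 32) (nat_lit 9) [nat_lit 0x202001,nat_lit 0x303231],.c (nat_lit 4) (nat_lit 2),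
    .r (nat_lit 0x174c) (nat_lit 1) [nat_lit 0x20001,nat_lit 0x604031,nat_lit 0x533221],
    .r (nat_lit 0x1750) (nat_lit 1) [nat_lit 0x804032,nat_lit 0x20001],
    .r (nat_lit 0x19b2) (nat_lit 3) [nat_lit 0x20001,nat_lit 0x330201,nat_lit 0x220321],
    .r (nat_lit 32) (nat_lit 8) [nat_lit 0x202001,nat_lit 0x220031],.c (nat_lit 0) (nat_lit 0x3223),
    .r (nat_lit 0x1a4a) (nat_lit 4) [nat_lit 0x2001,nat_lit 0x20001,nat_lit 0x200001],
    .r (nat_lit 0x1a4a) (nat_lit 4) [nat_lit 0x2001,nat_lit 0x20001,nat_lit 0x200001],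
    .c (nat_lit 0) (nat_lit 0x30002),.c (nat_lit 5) (nat_lit 2),.r (nat_lit 0x174f) (nat_lit 3) [nat_lit 0x200001,
    nat_lit 33],.r (nat_lit 32) (nat_lit 1) [nat_lit 0x2021,nat_lit 0x200001],.c (nat_lit 6) (nat_lit 2),
    .c (nat_lit 0) (nat_lit 0x33323),.c (nat_lit 7) (nat_lit 2)]]

/-- nodes -/
noncomputable def rD7k_19_10 : List RJ :=
  [.l (nat_lit 15) (nat_lit 0x1ef0) (nat_lit 6) (nat_lit 0xa800000109200000d4100000d4100000ea500000ea500000d9500000d9500000e6500000e6500000e6b00000de700000d6e00000cb4) (nat_lit 0x6120000035100000351000001ed000001ed000002fd000002fd0000022d0000022d000002ab00000227000003de00000324)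
    (nat_lit 0x15000f78397872f112628ec42186931276240c38a88110d441d708490a801ba2350455a905d1d1a36543b68b9d163e3cac65a03de1a821cbc41c09f016a82b106860e3414a82870a13121212c633946e8872f13e020e05820b5417a833f058a091419bc2b283dd8b3d20ba28ec5aa0ac4140032e06d40bf819902ba056d0c7e158e24e455a889316082d5065c0a0012502ea0a04122817f431985db8c511b2a1a4c67e0e3417502fe02740a98170037a050d03de136e29c4746884317a834304940da8153013a039c0b6818b42db848386b9173a240c48a0a1c24502ba05b40de8187030e07b9106e138e27443b6893b16282950a040cc80e702e005e00c38177430f85678b411e562044565121218cc31f85b703de187c41b85e00cbc134a2d1c58f871519bc50985fd0ada18b428685dd0f720f682f005048ac307bc1d7059e8ce518a224e435c8a71168227445618b4714a0374865a06a20f76258c5db8ac7120e26dc56789c7141226944b30a50)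
    (nat_lit 0x15007bc0f781ef03de07bc0f781ef03de07bc0f781ef03de07bc01ef0a803de07bc0f781ef03de07bc0f781ef03de07bc0f781ef00e5e374441c1ef03de07bc0f781ef03de07bc0f781ef03de07bc03978d4113e020e0f781ef03de07bc0f781ef03de07bc0f781ef011262ad45aa0b0414007bc0f781ef03de07bc0f781ef03de07bc051d905d15882d5065c0a003de07bc0f781ef03de07bc0f781ef010863a346860bd41b5024a02741ef03de07bc0f781ef03de07bc03498d951c6833f05fc0ba8153013a0f781ef03de07bc0f781ef012761db452a0b14199040005c0073818707bc0f781ef03de07bc04818b9d1438245057412281bd02da061c0c383de07bc0f781ef00e2a2c7c9270cde15b42fe850d0c5a1ee42ee85e01ef03de07bc04088f2b21d42b2863f0c6607bc2db87a30b1619782f00f781ef00d4432d04b187bb158e2edc4db8907138e2b3c4d28a0914a07bc03ae03de161a2c3449c8c5114e21ae44e88b41152e2b0c59d0a50)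
    (nat_lit 5) (nat_lit 199)
    [[nat_lit 2,nat_lit 18,nat_lit 0x1000012,nat_lit 0x1002,nat_lit 0x1001002,nat_lit 0x1100002,nat_lit 0x1000002,
    nat_lit 0x2000002,nat_lit 0x1012,nat_lit 258,nat_lit 17,nat_lit 33,nat_lit 0x1021,nat_lit 0x1000021,
    nat_lit 0x1011,nat_lit 0x10011,nat_lit 0x1000011,nat_lit 0x2000011,nat_lit 0x2011,nat_lit 0x3011,
    nat_lit 0x1001011,nat_lit 257,nat_lit 0x1101,nat_lit 0x1001101,nat_lit 0x1000101,nat_lit 0x2000101,nat_lit 0x1001,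
    nat_lit 0x2001002,nat_lit 0x2001,nat_lit 0x3001,nat_lit 0x1002001,nat_lit 0x11001,nat_lit 0x1001001,
    nat_lit 0x1002011,nat_lit 0x1003001,nat_lit 0x2001001,nat_lit 0x10001,nat_lit 0x1011001,nat_lit 0x1010001,
    nat_lit 0x2010001,nat_lit 0x100001,nat_lit 0x2100002,nat_lit 0x100101,nat_lit 0x101001,nat_lit 0x110001,
    nat_lit 0x200001,nat_lit 0x1200001,nat_lit 0x1100001,nat_lit 0x2100001,nat_lit 0x1000001,nat_lit 0x2000001],
    [nat_lit 32,nat_lit 0x1020,nat_lit 0x2020,nat_lit 272,nat_lit 0x1110,nat_lit 0x1010,nat_lit 0x2010,nat_lit 0x3010,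
    nat_lit 0x10010,nat_lit 0x11010,nat_lit 0x12010,nat_lit 0x1010010,nat_lit 0x101010,nat_lit 0x1000010,
    nat_lit 0x1001110,nat_lit 0x1001010,nat_lit 0x1002010,nat_lit 0x1100010,nat_lit 0x2000010],[nat_lit 512,
    nat_lit 0x1000200,nat_lit 0x1100,nat_lit 0x2100,nat_lit 0x1002100,nat_lit 0x11100,nat_lit 0x101100,
    nat_lit 0x1001100,nat_lit 0x100100,nat_lit 0x200100,nat_lit 0x1100100,nat_lit 0x1000100,nat_lit 0x1010100,
    nat_lit 0x2000100],[nat_lit 0x2000,nat_lit 0x3000,nat_lit 0x4000,nat_lit 0x5000,nat_lit 0x6000,nat_lit 0x12000,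
    nat_lit 0x1002000,nat_lit 0x11000,nat_lit 0x101000,nat_lit 0x1001000],[nat_lit 0x20000,nat_lit 0x30000,
    nat_lit 0x110000,nat_lit 0x210000,nat_lit 0x1010000,nat_lit 0x1110000],[nat_lit 0x200000,nat_lit 0x300000,
    nat_lit 0x1200000,nat_lit 0x1100000],[nat_lit 0x2000000]]
    [.c (nat_lit 1) (nat_lit 2),.c (nat_lit 1) (nat_lit 0x18c02),.c (nat_lit 0) (nat_lit 0x300843),
    .c (nat_lit 0) (nat_lit 0x300843),.c (nat_lit 1) (nat_lit 0x210062),
    .r (nat_lit 0x1315) (nat_lit 5) [nat_lit 0xc000001,nat_lit 0xe719861,nat_lit 0x620061,nat_lit 0x10041],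
    .c (nat_lit 0) (nat_lit 0x528083),.c (nat_lit 0) (nat_lit 0x528083),.c (nat_lit 0) (nat_lit 0x300843),
    .r (nat_lit 0x12ee) (nat_lit 4) [nat_lit 0xa501061,nat_lit 0x28041,nat_lit 0x8000001,nat_lit 0x420061],
    .c (nat_lit 0) (nat_lit 0x10803),.c (nat_lit 2) (nat_lit 0x18c02),
    .r (nat_lit 0x1b47) (nat_lit 13) [nat_lit 0x4000001,nat_lit 0x4018c41,nat_lit 0x6300801],
    .r (nat_lit 0x179f) (nat_lit 9) [nat_lit 0x4200c41,nat_lit 0x6220861,nat_lit 0x6728841,nat_lit 0x4000001],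
    .c (nat_lit 4) (nat_lit 0x18c02),.c (nat_lit 3) (nat_lit 0x210803),.c (nat_lit 7) (nat_lit 0x18c02),
    .r (nat_lit 0x1316) (nat_lit 4) [nat_lit 0x318041,nat_lit 0x400001,nat_lit 0x8000001,nat_lit 0xa719061],
    .r (nat_lit 40) (nat_lit 1) [nat_lit 0x318041,nat_lit 0xa311061,nat_lit 0x200001],
    .r (nat_lit 75) (nat_lit 1) [nat_lit 0x318041,nat_lit 0xe511861,nat_lit 0x200001],
    .c (nat_lit 2) (nat_lit 0x210062),.r (nat_lit 0x1b49) (nat_lit 0) [nat_lit 0x4010061,nat_lit 65,nat_lit 0x200001],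
    .r (nat_lit 0x12a5) (nat_lit 2) [nat_lit 0x10001,nat_lit 0x200001,nat_lit 0x4000001,nat_lit 0x6018041],
    .c (nat_lit 3) (nat_lit 0x210062),.r (nat_lit 0x12ad) (nat_lit 0) [nat_lit 0x200001,nat_lit 0x6518801,
    nat_lit 0x210001,nat_lit 0x4200c41],.r (nat_lit 0x174b) (nat_lit 0) [nat_lit 0x200001,nat_lit 0x4000001,
    nat_lit 65],.c (nat_lit 0) (nat_lit 0x318043),.c (nat_lit 0) (nat_lit 0x528083),.c (nat_lit 0) (nat_lit 0x528083),
    .r (nat_lit 0x1317) (nat_lit 3) [nat_lit 0xc000001,nat_lit 0x600001,nat_lit 0x30001,nat_lit 0xe729861],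
    .c (nat_lit 4) (nat_lit 0x210062),.r (nat_lit 32) (nat_lit 13) [nat_lit 0x300861,nat_lit 0x200001],
    .c (nat_lit 0) (nat_lit 0x318043),.r (nat_lit 0x1b47) (nat_lit 13) [nat_lit 0x4000001,nat_lit 0x8401441,
    nat_lit 0x6300801],.r (nat_lit 40) (nat_lit 1) [nat_lit 0x4200c41,nat_lit 0xe701861,nat_lit 0x200001],
    .c (nat_lit 7) (nat_lit 0x210062),.r (nat_lit 0) (nat_lit 8) [nat_lit 65,nat_lit 0x200001],
    .c (nat_lit 3) (nat_lit 0x18043),.r (nat_lit 0x1318) (nat_lit 2) [nat_lit 0x10001,nat_lit 0x200001,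
    nat_lit 0x4000001,nat_lit 0x6300861],.r (nat_lit 0x1319) (nat_lit 2) [nat_lit 0x20001,nat_lit 0x400001,
    nat_lit 0x8000001,nat_lit 0xa519061],.r (nat_lit 0x1974) (nat_lit 9) [nat_lit 0x410061,nat_lit 0x10041,
    nat_lit 0x18041,nat_lit 0xa519061],.r (nat_lit 0x131a) (nat_lit 7) [nat_lit 0x28041,nat_lit 0x10041,
    nat_lit 0x620061,nat_lit 0xc000001],.r (nat_lit 0x131b) (nat_lit 4) [nat_lit 0xa519061,nat_lit 0x18041,
    nat_lit 0x8000001,nat_lit 0x410061],.r (nat_lit 0x179f) (nat_lit 9) [nat_lit 0x410061,nat_lit 0x10041,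
    nat_lit 0xa519061,nat_lit 0x4000001],.r (nat_lit 0x131c) (nat_lit 4) [nat_lit 0x6519061,nat_lit 0x6018041,
    nat_lit 0x8000001,nat_lit 0x4410061],.c (nat_lit 2) (nat_lit 0x30803),.c (nat_lit 0) (nat_lit 0x1002),
    .r (nat_lit 0x1b47) (nat_lit 13) [nat_lit 0x4000001,nat_lit 0x200061,nat_lit 0x6300801],
    .r (nat_lit 40) (nat_lit 1) [nat_lit 0xa519061,nat_lit 0x10041,nat_lit 0x200001],
    .c (nat_lit 0) (nat_lit 0x318043),.c (nat_lit 0) (nat_lit 0x528083),.c (nat_lit 2) (nat_lit 2),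
    .r (nat_lit 0x1315) (nat_lit 5) [nat_lit 0xc000001,nat_lit 0xa929041,nat_lit 0x4410c41,nat_lit 0x6220861],
    .r (nat_lit 0x1b47) (nat_lit 13) [nat_lit 0x4000001,nat_lit 0x8401442,nat_lit 0x6300801],
    .r (nat_lit 32) (nat_lit 11) [nat_lit 0x4210061,nat_lit 0x200001],
    .r (nat_lit 0x174b) (nat_lit 8) [nat_lit 0x200001,nat_lit 0x4000001,nat_lit 0x10861],
    .c (nat_lit 0) (nat_lit 0x300843),.r (nat_lit 0x131a) (nat_lit 7) [nat_lit 0xa329061,nat_lit 0xa311061,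
    nat_lit 0x8821441,nat_lit 0xc000001],.r (nat_lit 0x131d) (nat_lit 7) [nat_lit 0xe539861,nat_lit 0xe511861,
    nat_lit 0xcc31c41,nat_lit 0x10000001],.r (nat_lit 0) (nat_lit 1) [nat_lit 65,nat_lit 0x4200061],
    .r (nat_lit 0x12f3) (nat_lit 5) [nat_lit 0x8000001,nat_lit 0xa518841,nat_lit 0x410c41,nat_lit 0x10861],
    .r (nat_lit 0x131e) (nat_lit 4) [nat_lit 0x6329061,nat_lit 0xc000001,nat_lit 0xa518841,nat_lit 0x4821441],
    .r (nat_lit 0x12fc) (nat_lit 2) [nat_lit 0x6010861,nat_lit 0x4410c41,nat_lit 0x8000001,nat_lit 0x6018861],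
    .c (nat_lit 0) (nat_lit 0x18002),.c (nat_lit 0) (nat_lit 0x300843),
    .r (nat_lit 0x19a1) (nat_lit 4) [nat_lit 0x10001,nat_lit 0x200001,nat_lit 0x4010c41,nat_lit 0x18861],
    .c (nat_lit 2) (nat_lit 0x220862),.r (nat_lit 0x1315) (nat_lit 5) [nat_lit 0xc000001,nat_lit 0x6518841,
    nat_lit 0x8821441,nat_lit 0xa311061],.c (nat_lit 0) (nat_lit 0x18002),
    .r (nat_lit 0x12e9) (nat_lit 9) [nat_lit 0xc000001,nat_lit 0xa329061,nat_lit 0x6518841,nat_lit 0xa311061],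
    .c (nat_lit 3) (nat_lit 2),.r (nat_lit 0x12f7) (nat_lit 3) [nat_lit 65,nat_lit 0x420001,nat_lit 0x28001,
    nat_lit 0x8000061],.r (nat_lit 0x1ae0) (nat_lit 8) [nat_lit 0x210001,nat_lit 0x4210c41,nat_lit 0x6318801],
    .r (nat_lit 0x131f) (nat_lit 2) [nat_lit 0x20001,nat_lit 0x400001,nat_lit 0x8000001,nat_lit 0x6000041],
    .r (nat_lit 0x174b) (nat_lit 8) [nat_lit 0x200001,nat_lit 0x4000001,nat_lit 0x6501061],
    .c (nat_lit 0) (nat_lit 0x300002),.r (nat_lit 0x1972) (nat_lit 9) [nat_lit 0x318861,nat_lit 0x200061,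
    nat_lit 0x10041],.r (nat_lit 32) (nat_lit 11) [nat_lit 0x300861,nat_lit 0x200001],
    .r (nat_lit 0) (nat_lit 1) [nat_lit 0x4200061,nat_lit 65],.c (nat_lit 0) (nat_lit 0x1002),
    .r (nat_lit 4) (nat_lit 10) [nat_lit 0x210001,nat_lit 0x318861],.r (nat_lit 0x174e) (nat_lit 1) [nat_lit 0x210001,
    nat_lit 65],.c (nat_lit 0) (nat_lit 0x300002),.r (nat_lit 0x1849) (nat_lit 3) [nat_lit 0x210001,nat_lit 0x4000001,
    nat_lit 0x200001,nat_lit 65],.c (nat_lit 4) (nat_lit 2),.r (nat_lit 45) (nat_lit 1) [nat_lit 65,nat_lit 0xe701861,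
    nat_lit 0x200001],.r (nat_lit 40) (nat_lit 1) [nat_lit 66,nat_lit 0x12902062,nat_lit 0x200001],
    .r (nat_lit 0x1320) (nat_lit 7) [nat_lit 0x14000001,nat_lit 0xa00001,nat_lit 0x1755a861,nat_lit 0xa50001],
    .r (nat_lit 75) (nat_lit 1) [nat_lit 66,nat_lit 0x1ad03062,nat_lit 0x200001],
    .r (nat_lit 0x1321) (nat_lit 4) [nat_lit 0x6929061,nat_lit 0x400001,nat_lit 0x8000001,nat_lit 0x6000041],
    .c (nat_lit 0) (nat_lit 0x528083),.r (nat_lit 4) (nat_lit 10) [nat_lit 0x210001,nat_lit 65],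
    .c (nat_lit 0) (nat_lit 0x318c43),.c (nat_lit 0) (nat_lit 0x318043),.c (nat_lit 5) (nat_lit 2),
    .r (nat_lit 0x1322) (nat_lit 4) [nat_lit 0xe739801,nat_lit 65,nat_lit 0xc000061,nat_lit 0x600001],
    .r (nat_lit 32) (nat_lit 11) [nat_lit 0x10041,nat_lit 0x200001],.c (nat_lit 0) (nat_lit 0x1002),
    .r (nat_lit 0x1972) (nat_lit 9) [nat_lit 65,nat_lit 0x410c41,nat_lit 0x300861],
    .r (nat_lit 0x1ae0) (nat_lit 8) [nat_lit 0x210001,nat_lit 0x4000061,nat_lit 0x6318801],.c (nat_lit 6) (nat_lit 2),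
    .c (nat_lit 0) (nat_lit 0x1802),.c (nat_lit 0) (nat_lit 0x1002),.c (nat_lit 0) (nat_lit 0x318c43),
    .c (nat_lit 7) (nat_lit 2)],
    .l (nat_lit 13) (nat_lit 0x780) (nat_lit 3) (nat_lit 0x2b9000002b9000002a9000002a9000002d1000002d1000002cf000002cf000002fa000002fa000002dd000002dd000002fe000002fe) (nat_lit 0x450000004500000055000000550000002d0000002d0000002f0000002f000000040000000400000021000000210000000000000000)
    (nat_lit 0x1400af042c1ee0c009f051428a15a86c45302a415c8ae448828012e099051824014509b05b22b517b0b2065e2e113207b854028414d0a104f427a13a8a944c026414e892c4b821615e0a8055427c1390a284762c11440a0057224312009f04f828414a08f050c27416a8b5462c31a18f8b445181801550a685602941510a8859a2c10e90dc85a22d11360a2851427a15109d05582941048b2c55c2ae1ed8eb451428a13909e85442861560ab05962cb1570ab87a63a515a86c45822a51608b545962cb17b0ba84062d917d0be85b22b511d89d459a2d516588246342f61838b645dc2fa1640a905002641b90c6855c2ae16c8b6457829816e8abc5ec29814409803a43161570ab860e20315e0af05ba2dd1708ae448624b1688b4474a3ad17d0be85ba2af17f0bf865e2b915c8a745a231f1e98f6c5dc2fa16e8b7456c2fe)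
    (nat_lit 0x1401e00f007803c01e00f007803c01e00f007803c01e005782803c01e00f007803c01e00f007803c01e00f0078010b09705407803c01e00f007803c01e00f007803c01e003dc2641420a80f007803c01e00f007803c01e00f007800c00a305342aa14a1e00f007803c01e00f007803c01e004f824014209f04782943c01e00f007803c01e00f007801450a284f42721430a885587803c01e00f007803c01e0051426c13d0a284e82a214a0ab0f007803c01e00f0078015a8b644ea23b16a8b344122cb17b1e00f007803c01e003622b51528b045aa2c11658b2c5d42f63c01e00f0078014c0bd84c028818b074855c2ae1018c1c5787803c01e005482c81320a006343721570ab85b22d914c0af0f0078015c8cbc53a2b918f8b447b63d317d0bb85ba2dd17f1e005722e1125890c5a22d11d68e945f42fa1578b745fc2fe)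
    (nat_lit 4) (nat_lit 43)
    [[nat_lit 2,nat_lit 0x100002,nat_lit 17,nat_lit 257,nat_lit 0x10001,nat_lit 0x100001,nat_lit 0x1000001,
    nat_lit 0x1100001],[nat_lit 32,nat_lit 272,nat_lit 0x1110,nat_lit 0x100110,nat_lit 0x1010,nat_lit 0x10010,
    nat_lit 0x1010010,nat_lit 0x11010,nat_lit 0x110010,nat_lit 0x100010,nat_lit 0x1100010,nat_lit 0x1000010],
    [nat_lit 512,nat_lit 0x1100,nat_lit 0x11100,nat_lit 0x101100,nat_lit 0x1001100,nat_lit 0x10100,nat_lit 0x1010100,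
    nat_lit 0x100100,nat_lit 0x1100100,nat_lit 0x1000100,nat_lit 0x2000100],[nat_lit 0x2000,nat_lit 0x11000,
    nat_lit 0x1011000,nat_lit 0x101000,nat_lit 0x1101000,nat_lit 0x1001000,nat_lit 0x2001000],[nat_lit 0x20000,
    nat_lit 0x1020000,nat_lit 0x110000,nat_lit 0x1110000,nat_lit 0x1010000,nat_lit 0x2010000],[nat_lit 0x200000,
    nat_lit 0x1200000,nat_lit 0x1100000,nat_lit 0x2100000],[nat_lit 0x2000000]]
    [.c (nat_lit 1) (nat_lit 2),.r (nat_lit 4) (nat_lit 6) [nat_lit 0x2001,nat_lit 0x2030452],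
    .c (nat_lit 7) (nat_lit 0x303004),.c (nat_lit 7) (nat_lit 0x330004),
    .r (nat_lit 0x174e) (nat_lit 6) [nat_lit 0x2001,nat_lit 33],.c (nat_lit 0) (nat_lit 0x202405),
    .r (nat_lit 0x1ad6) (nat_lit 7) [nat_lit 0x335452,nat_lit 33,nat_lit 0x2204052],.c (nat_lit 1) (nat_lit 770),
    .c (nat_lit 2) (nat_lit 2),.c (nat_lit 2) (nat_lit 0x32004),.r (nat_lit 0x174e) (nat_lit 6) [nat_lit 0x2001,
    nat_lit 0x3231],.r (nat_lit 4) (nat_lit 6) [nat_lit 0x2001,nat_lit 0x3359442],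
    .r (nat_lit 4) (nat_lit 6) [nat_lit 0x2001,nat_lit 0x230042],.c (nat_lit 0) (nat_lit 0x2003),
    .c (nat_lit 1) (nat_lit 0x203004),.c (nat_lit 7) (nat_lit 0x330545),
    .r (nat_lit 32) (nat_lit 12) [nat_lit 0x224052,nat_lit 0x335402],.c (nat_lit 0) (nat_lit 0x202405),
    .c (nat_lit 2) (nat_lit 770),.c (nat_lit 0) (nat_lit 0x2405),.c (nat_lit 3) (nat_lit 2),
    .r (nat_lit 4) (nat_lit 6) [nat_lit 0x2001,nat_lit 33],.c (nat_lit 7) (nat_lit 0x303545),
    .c (nat_lit 1) (nat_lit 0x203045),.c (nat_lit 5) (nat_lit 0x303545),.c (nat_lit 0) (nat_lit 0x20003),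
    .c (nat_lit 1) (nat_lit 0x230004),.c (nat_lit 0) (nat_lit 0x220405),.c (nat_lit 2) (nat_lit 0x32504),
    .c (nat_lit 0) (nat_lit 0x20405),.r (nat_lit 0xe21) (nat_lit 0) [nat_lit 0x4001,nat_lit 0x335401,
    nat_lit 0x2064542,nat_lit 0x2424542],.c (nat_lit 4) (nat_lit 2),.r (nat_lit 32) (nat_lit 12) [nat_lit 0x3035452,
    nat_lit 0x335402],.c (nat_lit 2) (nat_lit 0x330545),.r (nat_lit 0x1b36) (nat_lit 4) [nat_lit 0x335452,
    nat_lit 0x2248542,nat_lit 33],.c (nat_lit 1) (nat_lit 0x33045),.c (nat_lit 2) (nat_lit 0x224454),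
    .r (nat_lit 32) (nat_lit 12) [nat_lit 0x2424542,nat_lit 0x335402],.c (nat_lit 5) (nat_lit 2),
    .r (nat_lit 0x1760) (nat_lit 13) [nat_lit 0x335402,nat_lit 0x3060052,nat_lit 0x2000041,nat_lit 0x5000031],
    .r (nat_lit 0x1b04) (nat_lit 0) [nat_lit 33,nat_lit 0x335402],.c (nat_lit 5) (nat_lit 770),
    .r (nat_lit 0x1b4a) (nat_lit 8) [nat_lit 0x3200052,nat_lit 0x335402,nat_lit 33],.c (nat_lit 1) (nat_lit 0x200002),
    .c (nat_lit 6) (nat_lit 2),.c (nat_lit 6) (nat_lit 770),.c (nat_lit 0) (nat_lit 515),.c (nat_lit 7) (nat_lit 770),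
    .c (nat_lit 7) (nat_lit 2)]]

/-- nodes -/
noncomputable def rD7k_19_11 : List RJ :=
  [.s (nat_lit 14) (nat_lit 0xf00) (nat_lit 7) (nat_lit 0x9a8000009a80000076c0000076c000007ac000005c4000005d4000007840000068c0000068c000007f400000704000007f0000007f0) (nat_lit 0x23c0000023c000003e4000001fc00000224000003d40000031c0000031c000002a4000001b4000001b8000001b8)
    (nat_lit 0x26a09a81db076c17307ac17305d41a3068c26907ec1fc07f026a09a81db076c1cd07ac153073c1a3068c1c1054c1fc07f01db076c14c0530088057015202281be068813205b816d05b41db076c14c05300e20570152039821a07f813205b816d05b41eb07ac15c05700f205b007803d8124049014201e017d05f41cd05cc0e2022007803c80e801f009c02280c80410103040c1cf05d40e6022807c03d810c02000ae02b80cc0458105041c15305cc15205480e801e0178043011a04680ca060817305cc1a3068c1fe068808a049011a02b80ce02f00fa04d81a3068c1a3068c21a06f809c049011a02b80c803380fa04d813704dc15307ec16e05b810401e0182045813604d8152069018f063c1c109a413204c80c805080ca03300fa03e81180548153054c1fc07f016d05b410305f4173041c137068c153063c0e606381fc07f016d05b410305f41730414137068c153063c18e0398)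
    (nat_lit 0x26a0f003c00f003c00f003c00f003c00f003c00f003c00f0026a09a83c00f003c00f003c00f003c00f003c00f003c00f001db076c14c0f003c00f003c00f003c00f003c00f003c00f001db076c14c05303c00f003c00f003c00f003c00f003c00f00173073408803880f20f003c00f003c00f003c00f003c00f001eb07ac15c057016c03c83c00f003c00f003c00f003c00f00173054c100054807803a00f40f003c00f003c00f003c00f00175073c08a03980f601f008003d03c00f003c00f003c00f001a3068c19e07e012402700ae04500ce0f003c00f003c00f001a3068c18c079812402280ae04080bc03383c00f003c00f0023f070413204c814203200cc03280fa03e81400f003c00f001eb054c100056807803c00f40580102045016805003c00f001fc07f016d05b417d040c10505cc1a304dc17b054c0e60f001fc07f016d05b417d040c10705cc1a304dc17b054c18e0398)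
    (nat_lit 5) (nat_lit 235)
    [[nat_lit 0,nat_lit 0,nat_lit 0,nat_lit 9,nat_lit 9,nat_lit 7],[nat_lit 0,nat_lit 0,nat_lit 9,nat_lit 2,
    nat_lit 7],[nat_lit 0,nat_lit 0,nat_lit 9,nat_lit 9,nat_lit 7,nat_lit 0],[nat_lit 0,nat_lit 6,nat_lit 0,nat_lit 6,
    nat_lit 8,nat_lit 9],[nat_lit 0,nat_lit 6,nat_lit 3,nat_lit 8,nat_lit 6],[nat_lit 0,nat_lit 6,nat_lit 6,nat_lit 8,
    nat_lit 9,nat_lit 7],[nat_lit 0,nat_lit 6,nat_lit 8,nat_lit 6,nat_lit 3],[nat_lit 0,nat_lit 6,nat_lit 8,nat_lit 6,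
    nat_lit 8,nat_lit 6],[nat_lit 0,nat_lit 6,nat_lit 8,nat_lit 6,nat_lit 8,nat_lit 7],[nat_lit 0,nat_lit 6,nat_lit 8,
    nat_lit 6,nat_lit 9,nat_lit 7],[nat_lit 0,nat_lit 6,nat_lit 8,nat_lit 7,nat_lit 9,nat_lit 7],[nat_lit 0,nat_lit 6,
    nat_lit 8,nat_lit 9,nat_lit 0,nat_lit 6],[nat_lit 0,nat_lit 6,nat_lit 8,nat_lit 9,nat_lit 7,nat_lit 6],[nat_lit 0,
    nat_lit 6,nat_lit 8,nat_lit 9,nat_lit 7,nat_lit 7],[nat_lit 0,nat_lit 6,nat_lit 9,nat_lit 7,nat_lit 9,nat_lit 7],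
    [nat_lit 0,nat_lit 7,nat_lit 0,nat_lit 8,nat_lit 0,nat_lit 9],[nat_lit 0,nat_lit 7,nat_lit 0,nat_lit 8,nat_lit 1,
    nat_lit 8],[nat_lit 0,nat_lit 7,nat_lit 0,nat_lit 8,nat_lit 1,nat_lit 9],[nat_lit 0,nat_lit 7,nat_lit 0,nat_lit 9,
    nat_lit 0,nat_lit 8],[nat_lit 0,nat_lit 7,nat_lit 0,nat_lit 9,nat_lit 1,nat_lit 8],[nat_lit 0,nat_lit 7,nat_lit 0,
    nat_lit 9,nat_lit 1,nat_lit 9],[nat_lit 0,nat_lit 8,nat_lit 0,nat_lit 7,nat_lit 0,nat_lit 9],[nat_lit 0,nat_lit 8,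
    nat_lit 0,nat_lit 9,nat_lit 0,nat_lit 7],[nat_lit 0,nat_lit 8,nat_lit 1,nat_lit 6,nat_lit 1,nat_lit 8],[nat_lit 0,
    nat_lit 8,nat_lit 1,nat_lit 6,nat_lit 1,nat_lit 9],[nat_lit 0,nat_lit 8,nat_lit 1,nat_lit 8,nat_lit 0,nat_lit 7],
    [nat_lit 0,nat_lit 8,nat_lit 1,nat_lit 9,nat_lit 0,nat_lit 7],[nat_lit 0,nat_lit 9,nat_lit 0,nat_lit 7,nat_lit 0,
    nat_lit 8],[nat_lit 0,nat_lit 9,nat_lit 0,nat_lit 8,nat_lit 0,nat_lit 7],[nat_lit 0,nat_lit 9,nat_lit 1,nat_lit 6,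
    nat_lit 1,nat_lit 8],[nat_lit 0,nat_lit 9,nat_lit 1,nat_lit 6,nat_lit 1,nat_lit 9],[nat_lit 0,nat_lit 9,nat_lit 1,
    nat_lit 8,nat_lit 0,nat_lit 7],[nat_lit 0,nat_lit 9,nat_lit 1,nat_lit 9,nat_lit 0,nat_lit 7],[nat_lit 0,nat_lit 9,
    nat_lit 2,nat_lit 7,nat_lit 0],[nat_lit 0,nat_lit 9,nat_lit 7,nat_lit 0,nat_lit 9,nat_lit 7],[nat_lit 0,nat_lit 9,
    nat_lit 9,nat_lit 7,nat_lit 0,nat_lit 0],[nat_lit 0,nat_lit 9,nat_lit 12],[nat_lit 1,nat_lit 1,nat_lit 1,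
    nat_lit 6,nat_lit 8,nat_lit 8],[nat_lit 1,nat_lit 1,nat_lit 6,nat_lit 3,nat_lit 8],[nat_lit 1,nat_lit 1,nat_lit 6,
    nat_lit 8,nat_lit 8,nat_lit 1],[nat_lit 1,nat_lit 2,nat_lit 7,nat_lit 9,nat_lit 7],[nat_lit 1,nat_lit 6,nat_lit 1,
    nat_lit 8,nat_lit 1,nat_lit 9],[nat_lit 1,nat_lit 6,nat_lit 1,nat_lit 9,nat_lit 1,nat_lit 8],[nat_lit 1,nat_lit 6,
    nat_lit 3,nat_lit 8,nat_lit 1],[nat_lit 1,nat_lit 6,nat_lit 6,nat_lit 8,nat_lit 9,nat_lit 7],[nat_lit 1,nat_lit 6,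
    nat_lit 8,nat_lit 1,nat_lit 6,nat_lit 8],[nat_lit 1,nat_lit 6,nat_lit 8,nat_lit 6,nat_lit 8,nat_lit 7],[nat_lit 1,
    nat_lit 6,nat_lit 8,nat_lit 6,nat_lit 9,nat_lit 7],[nat_lit 1,nat_lit 6,nat_lit 8,nat_lit 7,nat_lit 9,nat_lit 7],
    [nat_lit 1,nat_lit 6,nat_lit 8,nat_lit 8,nat_lit 1,nat_lit 1],[nat_lit 1,nat_lit 6,nat_lit 8,nat_lit 9,nat_lit 7,
    nat_lit 7],[nat_lit 1,nat_lit 6,nat_lit 9,nat_lit 7,nat_lit 9,nat_lit 7],[nat_lit 1,nat_lit 7,nat_lit 1,nat_lit 8,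
    nat_lit 9,nat_lit 7],[nat_lit 1,nat_lit 7,nat_lit 6,nat_lit 8,nat_lit 9,nat_lit 7],[nat_lit 1,nat_lit 7,nat_lit 9,
    nat_lit 2,nat_lit 7],[nat_lit 1,nat_lit 7,nat_lit 9,nat_lit 7,nat_lit 9,nat_lit 7],[nat_lit 1,nat_lit 8,nat_lit 1,
    nat_lit 6,nat_lit 1,nat_lit 9],[nat_lit 1,nat_lit 8,nat_lit 1,nat_lit 9,nat_lit 1,nat_lit 6],[nat_lit 1,nat_lit 8,
    nat_lit 9,nat_lit 7,nat_lit 1,nat_lit 7],[nat_lit 1,nat_lit 9,nat_lit 1,nat_lit 6,nat_lit 1,nat_lit 8],[nat_lit 1,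
    nat_lit 9,nat_lit 1,nat_lit 8,nat_lit 1,nat_lit 6],[nat_lit 1,nat_lit 13,nat_lit 8],[nat_lit 2,nat_lit 2,
    nat_lit 7,nat_lit 6],[nat_lit 2,nat_lit 7,nat_lit 2,nat_lit 7],[nat_lit 2,nat_lit 7,nat_lit 6,nat_lit 2],
    [nat_lit 2,nat_lit 7,nat_lit 6,nat_lit 3],[nat_lit 2,nat_lit 7,nat_lit 6,nat_lit 6,nat_lit 8],[nat_lit 2,
    nat_lit 7,nat_lit 6,nat_lit 6,nat_lit 9],[nat_lit 2,nat_lit 7,nat_lit 6,nat_lit 7,nat_lit 9],[nat_lit 2,nat_lit 7,
    nat_lit 7,nat_lit 6,nat_lit 8],[nat_lit 2,nat_lit 7,nat_lit 7,nat_lit 6,nat_lit 9],[nat_lit 2,nat_lit 7,nat_lit 7,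
    nat_lit 7,nat_lit 9],[nat_lit 2,nat_lit 7,nat_lit 7,nat_lit 9,nat_lit 7],[nat_lit 2,nat_lit 7,nat_lit 9,nat_lit 7,
    nat_lit 7],[nat_lit 2,nat_lit 12],[nat_lit 2,nat_lit 13],[nat_lit 3,nat_lit 3,nat_lit 7,nat_lit 6],[nat_lit 3,
    nat_lit 6,nat_lit 3,nat_lit 6],[nat_lit 3,nat_lit 6,nat_lit 6,nat_lit 8,nat_lit 6],[nat_lit 3,nat_lit 6,nat_lit 8,
    nat_lit 6,nat_lit 6],[nat_lit 3,nat_lit 7,nat_lit 6,nat_lit 3],[nat_lit 3,nat_lit 8,nat_lit 6,nat_lit 6,
    nat_lit 6],[nat_lit 3,nat_lit 8,nat_lit 6,nat_lit 7,nat_lit 6],[nat_lit 3,nat_lit 8,nat_lit 7,nat_lit 6,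
    nat_lit 6],[nat_lit 3,nat_lit 8,nat_lit 7,nat_lit 7,nat_lit 6],[nat_lit 3,nat_lit 9,nat_lit 7,nat_lit 6,
    nat_lit 6],[nat_lit 3,nat_lit 9,nat_lit 7,nat_lit 7,nat_lit 6],[nat_lit 3,nat_lit 12],[nat_lit 3,nat_lit 13],
    [nat_lit 4,nat_lit 10],[nat_lit 4,nat_lit 11],[nat_lit 5,nat_lit 10],[nat_lit 5,nat_lit 11],[nat_lit 6,nat_lit 8,
    nat_lit 12],[nat_lit 6,nat_lit 8,nat_lit 13],[nat_lit 6,nat_lit 9,nat_lit 12],[nat_lit 6,nat_lit 9,nat_lit 13],
    [nat_lit 6,nat_lit 12,nat_lit 8],[nat_lit 6,nat_lit 12,nat_lit 9],[nat_lit 6,nat_lit 13,nat_lit 8],[nat_lit 6,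
    nat_lit 13,nat_lit 9],[nat_lit 7,nat_lit 8,nat_lit 12],[nat_lit 7,nat_lit 8,nat_lit 13],[nat_lit 7,nat_lit 9,
    nat_lit 12],[nat_lit 7,nat_lit 9,nat_lit 13],[nat_lit 7,nat_lit 12,nat_lit 8],[nat_lit 7,nat_lit 12,nat_lit 9],
    [nat_lit 7,nat_lit 13,nat_lit 8],[nat_lit 7,nat_lit 13,nat_lit 9]]
    [nat_lit 0x1000997,nat_lit 0x100927,nat_lit 0x1009970,nat_lit 0x1060689,nat_lit 0x106386,nat_lit 0x1066897,
    nat_lit 0x106863,nat_lit 0x1068686,nat_lit 0x1068687,nat_lit 0x1068697,nat_lit 0x1068797,nat_lit 0x1068906,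
    nat_lit 0x1068976,nat_lit 0x1068977,nat_lit 0x1069797,nat_lit 0x1070809,nat_lit 0x1070818,nat_lit 0x1070819,
    nat_lit 0x1070908,nat_lit 0x1070918,nat_lit 0x1070919,nat_lit 0x1080709,nat_lit 0x1080907,nat_lit 0x1081618,
    nat_lit 0x1081619,nat_lit 0x1081807,nat_lit 0x1081907,nat_lit 0x1090708,nat_lit 0x1090807,nat_lit 0x1091618,
    nat_lit 0x1091619,nat_lit 0x1091807,nat_lit 0x1091907,nat_lit 0x109270,nat_lit 0x1097097,nat_lit 0x1099700,
    nat_lit 0x109c,nat_lit 0x1111688,nat_lit 0x111638,nat_lit 0x1116881,nat_lit 0x112797,nat_lit 0x1161819,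
    nat_lit 0x1161918,nat_lit 0x116381,nat_lit 0x1166897,nat_lit 0x1168168,nat_lit 0x1168687,nat_lit 0x1168697,
    nat_lit 0x1168797,nat_lit 0x1168811,nat_lit 0x1168977,nat_lit 0x1169797,nat_lit 0x1171897,nat_lit 0x1176897,
    nat_lit 0x117927,nat_lit 0x1179797,nat_lit 0x1181619,nat_lit 0x1181916,nat_lit 0x1189717,nat_lit 0x1191618,
    nat_lit 0x1191816,nat_lit 0x11d8,nat_lit 0x12276,nat_lit 0x12727,nat_lit 0x12762,nat_lit 0x12763,nat_lit 0x127668,
    nat_lit 0x127669,nat_lit 0x127679,nat_lit 0x127768,nat_lit 0x127769,nat_lit 0x127779,nat_lit 0x127797,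
    nat_lit 0x127977,nat_lit 300,nat_lit 301,nat_lit 0x13376,nat_lit 0x13636,nat_lit 0x136686,nat_lit 0x136866,
    nat_lit 0x13763,nat_lit 0x138666,nat_lit 0x138676,nat_lit 0x138766,nat_lit 0x138776,nat_lit 0x139766,
    nat_lit 0x139776,nat_lit 316,nat_lit 317,nat_lit 330,nat_lit 331,nat_lit 346,nat_lit 347,nat_lit 0x168c,
    nat_lit 0x168d,nat_lit 0x169c,nat_lit 0x169d,nat_lit 0x16c8,nat_lit 0x16c9,nat_lit 0x16d8,nat_lit 0x16d9,
    nat_lit 0x178c,nat_lit 0x178d,nat_lit 0x179c,nat_lit 0x179d,nat_lit 0x17c8,nat_lit 0x17c9,nat_lit 0x17d8,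
    nat_lit 0x17d9]
    [[[nat_lit 0,nat_lit 0,nat_lit 0,nat_lit 9,nat_lit 9,nat_lit 7],[nat_lit 0,nat_lit 0,nat_lit 9,nat_lit 2,
    nat_lit 7],[nat_lit 0,nat_lit 0,nat_lit 9,nat_lit 9,nat_lit 7,nat_lit 0],[nat_lit 0,nat_lit 6,nat_lit 0,nat_lit 6,
    nat_lit 8,nat_lit 9],[nat_lit 0,nat_lit 6,nat_lit 3,nat_lit 8,nat_lit 6],[nat_lit 0,nat_lit 6,nat_lit 6,nat_lit 8,
    nat_lit 9,nat_lit 7],[nat_lit 0,nat_lit 6,nat_lit 8,nat_lit 6,nat_lit 3],[nat_lit 0,nat_lit 6,nat_lit 8,nat_lit 6,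
    nat_lit 8,nat_lit 6],[nat_lit 0,nat_lit 6,nat_lit 8,nat_lit 6,nat_lit 8,nat_lit 7],[nat_lit 0,nat_lit 6,nat_lit 8,
    nat_lit 6,nat_lit 9,nat_lit 7],[nat_lit 0,nat_lit 6,nat_lit 8,nat_lit 7,nat_lit 9,nat_lit 7],[nat_lit 0,nat_lit 6,
    nat_lit 8,nat_lit 9,nat_lit 0,nat_lit 6]],[[nat_lit 0,nat_lit 6,nat_lit 8,nat_lit 9,nat_lit 7,nat_lit 6],
    [nat_lit 0,nat_lit 6,nat_lit 8,nat_lit 9,nat_lit 7,nat_lit 7],[nat_lit 0,nat_lit 6,nat_lit 9,nat_lit 7,nat_lit 9,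
    nat_lit 7],[nat_lit 0,nat_lit 7,nat_lit 0,nat_lit 8,nat_lit 0,nat_lit 9],[nat_lit 0,nat_lit 7,nat_lit 0,nat_lit 8,
    nat_lit 1,nat_lit 8],[nat_lit 0,nat_lit 7,nat_lit 0,nat_lit 8,nat_lit 1,nat_lit 9],[nat_lit 0,nat_lit 7,nat_lit 0,
    nat_lit 9,nat_lit 0,nat_lit 8],[nat_lit 0,nat_lit 7,nat_lit 0,nat_lit 9,nat_lit 1,nat_lit 8],[nat_lit 0,nat_lit 7,
    nat_lit 0,nat_lit 9,nat_lit 1,nat_lit 9],[nat_lit 0,nat_lit 8,nat_lit 0,nat_lit 7,nat_lit 0,nat_lit 9],[nat_lit 0,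
    nat_lit 8,nat_lit 0,nat_lit 9,nat_lit 0,nat_lit 7],[nat_lit 0,nat_lit 8,nat_lit 1,nat_lit 6,nat_lit 1,nat_lit 8]],
    [[nat_lit 0,nat_lit 8,nat_lit 1,nat_lit 6,nat_lit 1,nat_lit 9],[nat_lit 0,nat_lit 8,nat_lit 1,nat_lit 8,nat_lit 0,
    nat_lit 7],[nat_lit 0,nat_lit 8,nat_lit 1,nat_lit 9,nat_lit 0,nat_lit 7],[nat_lit 0,nat_lit 9,nat_lit 0,nat_lit 7,
    nat_lit 0,nat_lit 8],[nat_lit 0,nat_lit 9,nat_lit 0,nat_lit 8,nat_lit 0,nat_lit 7],[nat_lit 0,nat_lit 9,nat_lit 1,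
    nat_lit 6,nat_lit 1,nat_lit 8],[nat_lit 0,nat_lit 9,nat_lit 1,nat_lit 6,nat_lit 1,nat_lit 9],[nat_lit 0,nat_lit 9,
    nat_lit 1,nat_lit 8,nat_lit 0,nat_lit 7],[nat_lit 0,nat_lit 9,nat_lit 1,nat_lit 9,nat_lit 0,nat_lit 7],[nat_lit 0,
    nat_lit 9,nat_lit 2,nat_lit 7,nat_lit 0],[nat_lit 0,nat_lit 9,nat_lit 7,nat_lit 0,nat_lit 9,nat_lit 7],[nat_lit 0,
    nat_lit 9,nat_lit 9,nat_lit 7,nat_lit 0,nat_lit 0]],[[nat_lit 0,nat_lit 9,nat_lit 12],[nat_lit 1,nat_lit 1,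
    nat_lit 1,nat_lit 6,nat_lit 8,nat_lit 8],[nat_lit 1,nat_lit 1,nat_lit 6,nat_lit 3,nat_lit 8],[nat_lit 1,nat_lit 1,
    nat_lit 6,nat_lit 8,nat_lit 8,nat_lit 1],[nat_lit 1,nat_lit 2,nat_lit 7,nat_lit 9,nat_lit 7],[nat_lit 1,nat_lit 6,
    nat_lit 1,nat_lit 8,nat_lit 0,nat_lit 8],[nat_lit 1,nat_lit 6,nat_lit 1,nat_lit 8,nat_lit 0,nat_lit 9],[nat_lit 1,
    nat_lit 6,nat_lit 1,nat_lit 8,nat_lit 1,nat_lit 9],[nat_lit 1,nat_lit 6,nat_lit 1,nat_lit 9,nat_lit 0,nat_lit 8],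
    [nat_lit 1,nat_lit 6,nat_lit 1,nat_lit 9,nat_lit 0,nat_lit 9],[nat_lit 1,nat_lit 6,nat_lit 1,nat_lit 9,nat_lit 1,
    nat_lit 8],[nat_lit 1,nat_lit 6,nat_lit 3,nat_lit 8,nat_lit 1]],[[nat_lit 1,nat_lit 6,nat_lit 6,nat_lit 8,
    nat_lit 9,nat_lit 7],[nat_lit 1,nat_lit 6,nat_lit 8,nat_lit 1,nat_lit 6,nat_lit 8],[nat_lit 1,nat_lit 6,nat_lit 8,
    nat_lit 6,nat_lit 8,nat_lit 7],[nat_lit 1,nat_lit 6,nat_lit 8,nat_lit 6,nat_lit 9,nat_lit 7],[nat_lit 1,nat_lit 6,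
    nat_lit 8,nat_lit 7,nat_lit 9,nat_lit 7],[nat_lit 1,nat_lit 6,nat_lit 8,nat_lit 8,nat_lit 1,nat_lit 1],[nat_lit 1,
    nat_lit 6,nat_lit 8,nat_lit 9,nat_lit 7,nat_lit 7],[nat_lit 1,nat_lit 6,nat_lit 9,nat_lit 7,nat_lit 9,nat_lit 7],
    [nat_lit 1,nat_lit 7,nat_lit 1,nat_lit 8,nat_lit 9,nat_lit 7],[nat_lit 1,nat_lit 7,nat_lit 6,nat_lit 8,nat_lit 9,
    nat_lit 7],[nat_lit 1,nat_lit 7,nat_lit 9,nat_lit 2,nat_lit 7],[nat_lit 1,nat_lit 7,nat_lit 9,nat_lit 7,nat_lit 9,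
    nat_lit 7]],[[nat_lit 1,nat_lit 8,nat_lit 0,nat_lit 7,nat_lit 0,nat_lit 8],[nat_lit 1,nat_lit 8,nat_lit 0,
    nat_lit 7,nat_lit 0,nat_lit 9],[nat_lit 1,nat_lit 8,nat_lit 0,nat_lit 8,nat_lit 1,nat_lit 6],[nat_lit 1,nat_lit 8,
    nat_lit 0,nat_lit 9,nat_lit 1,nat_lit 6],[nat_lit 1,nat_lit 8,nat_lit 1,nat_lit 6,nat_lit 1,nat_lit 9],[nat_lit 1,
    nat_lit 8,nat_lit 1,nat_lit 9,nat_lit 1,nat_lit 6],[nat_lit 1,nat_lit 8,nat_lit 9,nat_lit 7,nat_lit 1,nat_lit 7],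
    [nat_lit 1,nat_lit 9,nat_lit 0,nat_lit 7,nat_lit 0,nat_lit 8],[nat_lit 1,nat_lit 9,nat_lit 0,nat_lit 7,nat_lit 0,
    nat_lit 9],[nat_lit 1,nat_lit 9,nat_lit 0,nat_lit 8,nat_lit 1,nat_lit 6],[nat_lit 1,nat_lit 9,nat_lit 0,nat_lit 9,
    nat_lit 1,nat_lit 6],[nat_lit 1,nat_lit 9,nat_lit 1,nat_lit 6,nat_lit 1,nat_lit 8]],[[nat_lit 1,nat_lit 9,
    nat_lit 1,nat_lit 8,nat_lit 1,nat_lit 6],[nat_lit 1,nat_lit 13,nat_lit 8],[nat_lit 2,nat_lit 2,nat_lit 7,
    nat_lit 6],[nat_lit 2,nat_lit 7,nat_lit 0,nat_lit 0,nat_lit 9],[nat_lit 2,nat_lit 7,nat_lit 1,nat_lit 7,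
    nat_lit 9],[nat_lit 2,nat_lit 7,nat_lit 2,nat_lit 7],[nat_lit 2,nat_lit 7,nat_lit 6,nat_lit 2],[nat_lit 2,
    nat_lit 7,nat_lit 6,nat_lit 3],[nat_lit 2,nat_lit 7,nat_lit 6,nat_lit 6,nat_lit 8],[nat_lit 2,nat_lit 7,nat_lit 6,
    nat_lit 6,nat_lit 9],[nat_lit 2,nat_lit 7,nat_lit 6,nat_lit 7,nat_lit 9],[nat_lit 2,nat_lit 7,nat_lit 7,nat_lit 6,
    nat_lit 8]],[[nat_lit 2,nat_lit 7,nat_lit 7,nat_lit 6,nat_lit 9],[nat_lit 2,nat_lit 7,nat_lit 7,nat_lit 7,
    nat_lit 9],[nat_lit 2,nat_lit 7,nat_lit 7,nat_lit 9,nat_lit 7],[nat_lit 2,nat_lit 7,nat_lit 9,nat_lit 7,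
    nat_lit 1],[nat_lit 2,nat_lit 7,nat_lit 9,nat_lit 7,nat_lit 7],[nat_lit 2,nat_lit 12],[nat_lit 2,nat_lit 13],
    [nat_lit 3,nat_lit 0,nat_lit 6,nat_lit 8,nat_lit 6],[nat_lit 3,nat_lit 2,nat_lit 7,nat_lit 6],[nat_lit 3,
    nat_lit 3,nat_lit 7,nat_lit 6],[nat_lit 3,nat_lit 6,nat_lit 3,nat_lit 6],[nat_lit 3,nat_lit 6,nat_lit 6,nat_lit 8,
    nat_lit 6]],[[nat_lit 3,nat_lit 6,nat_lit 8,nat_lit 6,nat_lit 6],[nat_lit 3,nat_lit 7,nat_lit 6,nat_lit 3],
    [nat_lit 3,nat_lit 8,nat_lit 1,nat_lit 1,nat_lit 6],[nat_lit 3,nat_lit 8,nat_lit 6,nat_lit 0,nat_lit 6],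
    [nat_lit 3,nat_lit 8,nat_lit 6,nat_lit 6,nat_lit 6],[nat_lit 3,nat_lit 8,nat_lit 6,nat_lit 7,nat_lit 6],
    [nat_lit 3,nat_lit 8,nat_lit 7,nat_lit 6,nat_lit 6],[nat_lit 3,nat_lit 8,nat_lit 7,nat_lit 7,nat_lit 6],
    [nat_lit 3,nat_lit 9,nat_lit 7,nat_lit 6,nat_lit 6],[nat_lit 3,nat_lit 9,nat_lit 7,nat_lit 7,nat_lit 6],
    [nat_lit 3,nat_lit 12],[nat_lit 3,nat_lit 13]],[[nat_lit 4,nat_lit 10],[nat_lit 4,nat_lit 11],[nat_lit 5,
    nat_lit 10],[nat_lit 5,nat_lit 11],[nat_lit 6,nat_lit 0,nat_lit 6,nat_lit 3,nat_lit 8],[nat_lit 6,nat_lit 0,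
    nat_lit 6,nat_lit 8,nat_lit 6,nat_lit 8],[nat_lit 6,nat_lit 0,nat_lit 6,nat_lit 8,nat_lit 9,nat_lit 0],[nat_lit 6,
    nat_lit 0,nat_lit 6,nat_lit 8,nat_lit 9,nat_lit 7],[nat_lit 6,nat_lit 1,nat_lit 8,nat_lit 0,nat_lit 8,nat_lit 1],
    [nat_lit 6,nat_lit 1,nat_lit 8,nat_lit 0,nat_lit 9,nat_lit 1],[nat_lit 6,nat_lit 1,nat_lit 8,nat_lit 1,nat_lit 9,
    nat_lit 1],[nat_lit 6,nat_lit 1,nat_lit 9,nat_lit 0,nat_lit 8,nat_lit 1]],[[nat_lit 6,nat_lit 1,nat_lit 9,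
    nat_lit 0,nat_lit 9,nat_lit 1],[nat_lit 6,nat_lit 1,nat_lit 9,nat_lit 1,nat_lit 8,nat_lit 1],[nat_lit 6,nat_lit 2,
    nat_lit 2,nat_lit 7],[nat_lit 6,nat_lit 3,nat_lit 0,nat_lit 6,nat_lit 8],[nat_lit 6,nat_lit 3,nat_lit 2,
    nat_lit 7],[nat_lit 6,nat_lit 3,nat_lit 3,nat_lit 7],[nat_lit 6,nat_lit 3,nat_lit 6,nat_lit 3],[nat_lit 6,
    nat_lit 3,nat_lit 6,nat_lit 6,nat_lit 8],[nat_lit 6,nat_lit 3,nat_lit 6,nat_lit 8,nat_lit 6],[nat_lit 6,nat_lit 3,
    nat_lit 8,nat_lit 1,nat_lit 1],[nat_lit 6,nat_lit 3,nat_lit 8,nat_lit 6,nat_lit 0],[nat_lit 6,nat_lit 3,nat_lit 8,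
    nat_lit 6,nat_lit 6]],[[nat_lit 6,nat_lit 3,nat_lit 8,nat_lit 6,nat_lit 7],[nat_lit 6,nat_lit 3,nat_lit 8,
    nat_lit 7,nat_lit 6],[nat_lit 6,nat_lit 3,nat_lit 8,nat_lit 7,nat_lit 7],[nat_lit 6,nat_lit 3,nat_lit 9,nat_lit 7,
    nat_lit 6],[nat_lit 6,nat_lit 3,nat_lit 9,nat_lit 7,nat_lit 7],[nat_lit 6,nat_lit 6,nat_lit 3,nat_lit 6,
    nat_lit 8],[nat_lit 6,nat_lit 6,nat_lit 3,nat_lit 8,nat_lit 6],[nat_lit 6,nat_lit 6,nat_lit 3,nat_lit 8,
    nat_lit 7],[nat_lit 6,nat_lit 6,nat_lit 3,nat_lit 9,nat_lit 7],[nat_lit 6,nat_lit 6,nat_lit 6,nat_lit 3,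
    nat_lit 8],[nat_lit 6,nat_lit 6,nat_lit 8,nat_lit 2,nat_lit 7],[nat_lit 6,nat_lit 6,nat_lit 8,nat_lit 6,
    nat_lit 3]],[[nat_lit 6,nat_lit 6,nat_lit 8,nat_lit 9,nat_lit 7,nat_lit 0],[nat_lit 6,nat_lit 6,nat_lit 8,
    nat_lit 9,nat_lit 7,nat_lit 1],[nat_lit 6,nat_lit 6,nat_lit 9,nat_lit 2,nat_lit 7],[nat_lit 6,nat_lit 7,nat_lit 6,
    nat_lit 3,nat_lit 8],[nat_lit 6,nat_lit 7,nat_lit 9,nat_lit 2,nat_lit 7],[nat_lit 6,nat_lit 8,nat_lit 1,nat_lit 6,
    nat_lit 8,nat_lit 1],[nat_lit 6,nat_lit 8,nat_lit 2,nat_lit 7,nat_lit 6],[nat_lit 6,nat_lit 8,nat_lit 2,nat_lit 7,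
    nat_lit 7],[nat_lit 6,nat_lit 8,nat_lit 6,nat_lit 0,nat_lit 6,nat_lit 8],[nat_lit 6,nat_lit 8,nat_lit 6,nat_lit 3,
    nat_lit 0],[nat_lit 6,nat_lit 8,nat_lit 6,nat_lit 3,nat_lit 6],[nat_lit 6,nat_lit 8,nat_lit 6,nat_lit 6,
    nat_lit 3]],[[nat_lit 6,nat_lit 8,nat_lit 6,nat_lit 8,nat_lit 6,nat_lit 0],[nat_lit 6,nat_lit 8,nat_lit 6,
    nat_lit 8,nat_lit 7,nat_lit 0],[nat_lit 6,nat_lit 8,nat_lit 6,nat_lit 8,nat_lit 7,nat_lit 1],[nat_lit 6,nat_lit 8,
    nat_lit 6,nat_lit 9,nat_lit 7,nat_lit 0],[nat_lit 6,nat_lit 8,nat_lit 6,nat_lit 9,nat_lit 7,nat_lit 1],[nat_lit 6,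
    nat_lit 8,nat_lit 7,nat_lit 0,nat_lit 6,nat_lit 8],[nat_lit 6,nat_lit 8,nat_lit 7,nat_lit 1,nat_lit 6,nat_lit 8],
    [nat_lit 6,nat_lit 8,nat_lit 7,nat_lit 9,nat_lit 7,nat_lit 0],[nat_lit 6,nat_lit 8,nat_lit 7,nat_lit 9,nat_lit 7,
    nat_lit 1],[nat_lit 6,nat_lit 8,nat_lit 8,nat_lit 1,nat_lit 1,nat_lit 1],[nat_lit 6,nat_lit 8,nat_lit 9,nat_lit 0,
    nat_lit 6,nat_lit 0],[nat_lit 6,nat_lit 8,nat_lit 9,nat_lit 7,nat_lit 0,nat_lit 6]],[[nat_lit 6,nat_lit 8,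
    nat_lit 9,nat_lit 7,nat_lit 1,nat_lit 6],[nat_lit 6,nat_lit 8,nat_lit 9,nat_lit 7,nat_lit 1,nat_lit 7],[nat_lit 6,
    nat_lit 8,nat_lit 9,nat_lit 7,nat_lit 6,nat_lit 0],[nat_lit 6,nat_lit 8,nat_lit 9,nat_lit 7,nat_lit 7,nat_lit 0],
    [nat_lit 6,nat_lit 8,nat_lit 9,nat_lit 7,nat_lit 7,nat_lit 1],[nat_lit 6,nat_lit 8,nat_lit 12],[nat_lit 6,
    nat_lit 8,nat_lit 13],[nat_lit 6,nat_lit 9,nat_lit 2,nat_lit 7,nat_lit 6],[nat_lit 6,nat_lit 9,nat_lit 2,
    nat_lit 7,nat_lit 7],[nat_lit 6,nat_lit 9,nat_lit 7,nat_lit 0,nat_lit 6,nat_lit 8],[nat_lit 6,nat_lit 9,nat_lit 7,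
    nat_lit 1,nat_lit 6,nat_lit 8],[nat_lit 6,nat_lit 9,nat_lit 7,nat_lit 9,nat_lit 7,nat_lit 0]],[[nat_lit 6,
    nat_lit 9,nat_lit 7,nat_lit 9,nat_lit 7,nat_lit 1],[nat_lit 6,nat_lit 9,nat_lit 12],[nat_lit 6,nat_lit 9,
    nat_lit 13],[nat_lit 6,nat_lit 12,nat_lit 8],[nat_lit 6,nat_lit 12,nat_lit 9],[nat_lit 6,nat_lit 13,nat_lit 8],
    [nat_lit 6,nat_lit 13,nat_lit 9],[nat_lit 7,nat_lit 0,nat_lit 0,nat_lit 0,nat_lit 9,nat_lit 9],[nat_lit 7,
    nat_lit 0,nat_lit 0,nat_lit 9,nat_lit 2],[nat_lit 7,nat_lit 0,nat_lit 6,nat_lit 6,nat_lit 8,nat_lit 9],[nat_lit 7,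
    nat_lit 0,nat_lit 6,nat_lit 8,nat_lit 6,nat_lit 8],[nat_lit 7,nat_lit 0,nat_lit 6,nat_lit 8,nat_lit 6,nat_lit 9]],
    [[nat_lit 7,nat_lit 0,nat_lit 6,nat_lit 8,nat_lit 7,nat_lit 9],[nat_lit 7,nat_lit 0,nat_lit 6,nat_lit 8,nat_lit 9,
    nat_lit 7],[nat_lit 7,nat_lit 0,nat_lit 6,nat_lit 9,nat_lit 7,nat_lit 9],[nat_lit 7,nat_lit 0,nat_lit 8,nat_lit 0,
    nat_lit 9,nat_lit 0],[nat_lit 7,nat_lit 0,nat_lit 8,nat_lit 1,nat_lit 8,nat_lit 0],[nat_lit 7,nat_lit 0,nat_lit 8,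
    nat_lit 1,nat_lit 9,nat_lit 0],[nat_lit 7,nat_lit 0,nat_lit 9,nat_lit 0,nat_lit 8,nat_lit 0],[nat_lit 7,nat_lit 0,
    nat_lit 9,nat_lit 1,nat_lit 8,nat_lit 0],[nat_lit 7,nat_lit 0,nat_lit 9,nat_lit 1,nat_lit 9,nat_lit 0],[nat_lit 7,
    nat_lit 0,nat_lit 9,nat_lit 7,nat_lit 0,nat_lit 9],[nat_lit 7,nat_lit 1,nat_lit 2,nat_lit 7,nat_lit 9],[nat_lit 7,
    nat_lit 1,nat_lit 6,nat_lit 6,nat_lit 8,nat_lit 9]],[[nat_lit 7,nat_lit 1,nat_lit 6,nat_lit 8,nat_lit 6,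
    nat_lit 8],[nat_lit 7,nat_lit 1,nat_lit 6,nat_lit 8,nat_lit 6,nat_lit 9],[nat_lit 7,nat_lit 1,nat_lit 6,nat_lit 8,
    nat_lit 7,nat_lit 9],[nat_lit 7,nat_lit 1,nat_lit 6,nat_lit 8,nat_lit 9,nat_lit 7],[nat_lit 7,nat_lit 1,nat_lit 6,
    nat_lit 9,nat_lit 7,nat_lit 9],[nat_lit 7,nat_lit 1,nat_lit 7,nat_lit 1,nat_lit 8,nat_lit 9],[nat_lit 7,nat_lit 1,
    nat_lit 7,nat_lit 6,nat_lit 8,nat_lit 9],[nat_lit 7,nat_lit 1,nat_lit 7,nat_lit 9,nat_lit 2],[nat_lit 7,nat_lit 1,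
    nat_lit 7,nat_lit 9,nat_lit 7,nat_lit 9],[nat_lit 7,nat_lit 1,nat_lit 8,nat_lit 9,nat_lit 7,nat_lit 1],[nat_lit 7,
    nat_lit 2,nat_lit 7,nat_lit 2],[nat_lit 7,nat_lit 2,nat_lit 7,nat_lit 7,nat_lit 9]],[[nat_lit 7,nat_lit 2,
    nat_lit 7,nat_lit 9,nat_lit 7],[nat_lit 7,nat_lit 6,nat_lit 0,nat_lit 6,nat_lit 8,nat_lit 9],[nat_lit 7,nat_lit 6,
    nat_lit 2,nat_lit 2],[nat_lit 7,nat_lit 6,nat_lit 3,nat_lit 2],[nat_lit 7,nat_lit 6,nat_lit 3,nat_lit 3],
    [nat_lit 7,nat_lit 6,nat_lit 3,nat_lit 8,nat_lit 6],[nat_lit 7,nat_lit 6,nat_lit 3,nat_lit 8,nat_lit 7],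
    [nat_lit 7,nat_lit 6,nat_lit 3,nat_lit 9,nat_lit 7],[nat_lit 7,nat_lit 6,nat_lit 6,nat_lit 3,nat_lit 8],
    [nat_lit 7,nat_lit 6,nat_lit 6,nat_lit 3,nat_lit 9],[nat_lit 7,nat_lit 6,nat_lit 6,nat_lit 8,nat_lit 2],
    [nat_lit 7,nat_lit 6,nat_lit 6,nat_lit 9,nat_lit 2]],[[nat_lit 7,nat_lit 6,nat_lit 7,nat_lit 9,nat_lit 2],
    [nat_lit 7,nat_lit 6,nat_lit 8,nat_lit 2,nat_lit 7],[nat_lit 7,nat_lit 6,nat_lit 8,nat_lit 9,nat_lit 7,nat_lit 1],
    [nat_lit 7,nat_lit 6,nat_lit 9,nat_lit 2,nat_lit 7],[nat_lit 7,nat_lit 7,nat_lit 0,nat_lit 6,nat_lit 8,nat_lit 9],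
    [nat_lit 7,nat_lit 7,nat_lit 1,nat_lit 6,nat_lit 8,nat_lit 9],[nat_lit 7,nat_lit 7,nat_lit 2,nat_lit 7,nat_lit 9],
    [nat_lit 7,nat_lit 7,nat_lit 6,nat_lit 3,nat_lit 8],[nat_lit 7,nat_lit 7,nat_lit 6,nat_lit 3,nat_lit 9],
    [nat_lit 7,nat_lit 7,nat_lit 6,nat_lit 8,nat_lit 2],[nat_lit 7,nat_lit 7,nat_lit 6,nat_lit 9,nat_lit 2],
    [nat_lit 7,nat_lit 7,nat_lit 7,nat_lit 9,nat_lit 2]],[[nat_lit 7,nat_lit 7,nat_lit 9,nat_lit 2,nat_lit 7],
    [nat_lit 7,nat_lit 7,nat_lit 9,nat_lit 7,nat_lit 2],[nat_lit 7,nat_lit 8,nat_lit 12],[nat_lit 7,nat_lit 8,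
    nat_lit 13],[nat_lit 7,nat_lit 9,nat_lit 2,nat_lit 7,nat_lit 1],[nat_lit 7,nat_lit 9,nat_lit 2,nat_lit 7,
    nat_lit 6],[nat_lit 7,nat_lit 9,nat_lit 2,nat_lit 7,nat_lit 7],[nat_lit 7,nat_lit 9,nat_lit 7,nat_lit 0,nat_lit 6,
    nat_lit 8],[nat_lit 7,nat_lit 9,nat_lit 7,nat_lit 0,nat_lit 6,nat_lit 9],[nat_lit 7,nat_lit 9,nat_lit 7,nat_lit 1,
    nat_lit 2],[nat_lit 7,nat_lit 9,nat_lit 7,nat_lit 1,nat_lit 6,nat_lit 8],[nat_lit 7,nat_lit 9,nat_lit 7,nat_lit 1,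
    nat_lit 6,nat_lit 9]],[[nat_lit 7,nat_lit 9,nat_lit 7,nat_lit 1,nat_lit 7,nat_lit 9],[nat_lit 7,nat_lit 9,
    nat_lit 7,nat_lit 2,nat_lit 7],[nat_lit 7,nat_lit 9,nat_lit 7,nat_lit 7,nat_lit 2],[nat_lit 7,nat_lit 9,nat_lit 7,
    nat_lit 9,nat_lit 7,nat_lit 1],[nat_lit 7,nat_lit 9,nat_lit 12],[nat_lit 7,nat_lit 9,nat_lit 13],[nat_lit 7,
    nat_lit 12,nat_lit 8],[nat_lit 7,nat_lit 12,nat_lit 9],[nat_lit 7,nat_lit 13,nat_lit 8],[nat_lit 7,nat_lit 13,
    nat_lit 9],[nat_lit 8,nat_lit 0,nat_lit 7,nat_lit 0,nat_lit 8,nat_lit 1],[nat_lit 8,nat_lit 0,nat_lit 7,nat_lit 0,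
    nat_lit 9,nat_lit 0]],[[nat_lit 8,nat_lit 0,nat_lit 7,nat_lit 0,nat_lit 9,nat_lit 1],[nat_lit 8,nat_lit 0,
    nat_lit 8,nat_lit 1,nat_lit 6,nat_lit 1],[nat_lit 8,nat_lit 0,nat_lit 9,nat_lit 0,nat_lit 7,nat_lit 0],[nat_lit 8,
    nat_lit 0,nat_lit 9,nat_lit 1,nat_lit 6,nat_lit 1],[nat_lit 8,nat_lit 1,nat_lit 1,nat_lit 1,nat_lit 6,nat_lit 8],
    [nat_lit 8,nat_lit 1,nat_lit 1,nat_lit 6,nat_lit 3],[nat_lit 8,nat_lit 1,nat_lit 6,nat_lit 1,nat_lit 8,nat_lit 0],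
    [nat_lit 8,nat_lit 1,nat_lit 6,nat_lit 1,nat_lit 9,nat_lit 0],[nat_lit 8,nat_lit 1,nat_lit 6,nat_lit 1,nat_lit 9,
    nat_lit 1],[nat_lit 8,nat_lit 1,nat_lit 6,nat_lit 8,nat_lit 1,nat_lit 6],[nat_lit 8,nat_lit 1,nat_lit 8,nat_lit 0,
    nat_lit 7,nat_lit 0],[nat_lit 8,nat_lit 1,nat_lit 9,nat_lit 0,nat_lit 7,nat_lit 0]],[[nat_lit 8,nat_lit 1,
    nat_lit 9,nat_lit 1,nat_lit 6,nat_lit 1],[nat_lit 8,nat_lit 1,nat_lit 13],[nat_lit 8,nat_lit 2,nat_lit 7,
    nat_lit 6,nat_lit 6],[nat_lit 8,nat_lit 2,nat_lit 7,nat_lit 7,nat_lit 6],[nat_lit 8,nat_lit 6,nat_lit 0,nat_lit 6,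
    nat_lit 3],[nat_lit 8,nat_lit 6,nat_lit 0,nat_lit 6,nat_lit 8,nat_lit 6],[nat_lit 8,nat_lit 6,nat_lit 3,nat_lit 0,
    nat_lit 6],[nat_lit 8,nat_lit 6,nat_lit 3,nat_lit 6,nat_lit 6],[nat_lit 8,nat_lit 6,nat_lit 6,nat_lit 3,
    nat_lit 6],[nat_lit 8,nat_lit 6,nat_lit 6,nat_lit 6,nat_lit 3],[nat_lit 8,nat_lit 6,nat_lit 7,nat_lit 6,
    nat_lit 3],[nat_lit 8,nat_lit 6,nat_lit 8,nat_lit 6,nat_lit 0,nat_lit 6]],[[nat_lit 8,nat_lit 6,nat_lit 8,
    nat_lit 7,nat_lit 0,nat_lit 6],[nat_lit 8,nat_lit 6,nat_lit 8,nat_lit 7,nat_lit 1,nat_lit 6],[nat_lit 8,nat_lit 6,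
    nat_lit 9,nat_lit 7,nat_lit 0,nat_lit 6],[nat_lit 8,nat_lit 6,nat_lit 9,nat_lit 7,nat_lit 1,nat_lit 6],[nat_lit 8,
    nat_lit 6,nat_lit 12],[nat_lit 8,nat_lit 6,nat_lit 13],[nat_lit 8,nat_lit 7,nat_lit 0,nat_lit 6,nat_lit 8,
    nat_lit 6],[nat_lit 8,nat_lit 7,nat_lit 1,nat_lit 6,nat_lit 8,nat_lit 6],[nat_lit 8,nat_lit 7,nat_lit 6,nat_lit 6,
    nat_lit 3],[nat_lit 8,nat_lit 7,nat_lit 7,nat_lit 6,nat_lit 3],[nat_lit 8,nat_lit 7,nat_lit 9,nat_lit 7,nat_lit 0,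
    nat_lit 6],[nat_lit 8,nat_lit 7,nat_lit 9,nat_lit 7,nat_lit 1,nat_lit 6]],[[nat_lit 8,nat_lit 7,nat_lit 12],
    [nat_lit 8,nat_lit 7,nat_lit 13],[nat_lit 8,nat_lit 8,nat_lit 1,nat_lit 1,nat_lit 1,nat_lit 6],[nat_lit 8,
    nat_lit 9,nat_lit 0,nat_lit 6,nat_lit 0,nat_lit 6],[nat_lit 8,nat_lit 9,nat_lit 7,nat_lit 0,nat_lit 6,nat_lit 6],
    [nat_lit 8,nat_lit 9,nat_lit 7,nat_lit 1,nat_lit 6,nat_lit 6],[nat_lit 8,nat_lit 9,nat_lit 7,nat_lit 1,nat_lit 7,
    nat_lit 1],[nat_lit 8,nat_lit 9,nat_lit 7,nat_lit 1,nat_lit 7,nat_lit 6],[nat_lit 8,nat_lit 9,nat_lit 7,nat_lit 6,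
    nat_lit 0,nat_lit 6],[nat_lit 8,nat_lit 9,nat_lit 7,nat_lit 7,nat_lit 0,nat_lit 6],[nat_lit 8,nat_lit 9,nat_lit 7,
    nat_lit 7,nat_lit 1,nat_lit 6],[nat_lit 8,nat_lit 12,nat_lit 6]],[[nat_lit 8,nat_lit 12,nat_lit 7],[nat_lit 8,
    nat_lit 13,nat_lit 6],[nat_lit 8,nat_lit 13,nat_lit 7],[nat_lit 9,nat_lit 0,nat_lit 6,nat_lit 0,nat_lit 6,
    nat_lit 8],[nat_lit 9,nat_lit 0,nat_lit 7,nat_lit 0,nat_lit 8,nat_lit 0],[nat_lit 9,nat_lit 0,nat_lit 7,nat_lit 0,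
    nat_lit 8,nat_lit 1],[nat_lit 9,nat_lit 0,nat_lit 7,nat_lit 0,nat_lit 9,nat_lit 1],[nat_lit 9,nat_lit 0,nat_lit 8,
    nat_lit 0,nat_lit 7,nat_lit 0],[nat_lit 9,nat_lit 0,nat_lit 8,nat_lit 1,nat_lit 6,nat_lit 1],[nat_lit 9,nat_lit 0,
    nat_lit 9,nat_lit 1,nat_lit 6,nat_lit 1],[nat_lit 9,nat_lit 1,nat_lit 6,nat_lit 1,nat_lit 8,nat_lit 0],[nat_lit 9,
    nat_lit 1,nat_lit 6,nat_lit 1,nat_lit 8,nat_lit 1]],[[nat_lit 9,nat_lit 1,nat_lit 6,nat_lit 1,nat_lit 9,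
    nat_lit 0],[nat_lit 9,nat_lit 1,nat_lit 8,nat_lit 0,nat_lit 7,nat_lit 0],[nat_lit 9,nat_lit 1,nat_lit 8,nat_lit 1,
    nat_lit 6,nat_lit 1],[nat_lit 9,nat_lit 1,nat_lit 9,nat_lit 0,nat_lit 7,nat_lit 0],[nat_lit 9,nat_lit 2,nat_lit 7,
    nat_lit 0,nat_lit 0],[nat_lit 9,nat_lit 2,nat_lit 7,nat_lit 1,nat_lit 7],[nat_lit 9,nat_lit 2,nat_lit 7,nat_lit 6,
    nat_lit 6],[nat_lit 9,nat_lit 2,nat_lit 7,nat_lit 6,nat_lit 7],[nat_lit 9,nat_lit 2,nat_lit 7,nat_lit 7,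
    nat_lit 6],[nat_lit 9,nat_lit 2,nat_lit 7,nat_lit 7,nat_lit 7],[nat_lit 9,nat_lit 6,nat_lit 12],[nat_lit 9,
    nat_lit 6,nat_lit 13]],[[nat_lit 9,nat_lit 7,nat_lit 0,nat_lit 0,nat_lit 0,nat_lit 9],[nat_lit 9,nat_lit 7,
    nat_lit 0,nat_lit 6,nat_lit 6,nat_lit 8],[nat_lit 9,nat_lit 7,nat_lit 0,nat_lit 6,nat_lit 8,nat_lit 6],[nat_lit 9,
    nat_lit 7,nat_lit 0,nat_lit 6,nat_lit 8,nat_lit 7],[nat_lit 9,nat_lit 7,nat_lit 0,nat_lit 6,nat_lit 9,nat_lit 7],
    [nat_lit 9,nat_lit 7,nat_lit 0,nat_lit 9,nat_lit 7,nat_lit 0],[nat_lit 9,nat_lit 7,nat_lit 1,nat_lit 2,nat_lit 7],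
    [nat_lit 9,nat_lit 7,nat_lit 1,nat_lit 6,nat_lit 6,nat_lit 8],[nat_lit 9,nat_lit 7,nat_lit 1,nat_lit 6,nat_lit 8,
    nat_lit 6],[nat_lit 9,nat_lit 7,nat_lit 1,nat_lit 6,nat_lit 8,nat_lit 7],[nat_lit 9,nat_lit 7,nat_lit 1,nat_lit 6,
    nat_lit 9,nat_lit 7],[nat_lit 9,nat_lit 7,nat_lit 1,nat_lit 7,nat_lit 1,nat_lit 8]],[[nat_lit 9,nat_lit 7,
    nat_lit 1,nat_lit 7,nat_lit 6,nat_lit 8],[nat_lit 9,nat_lit 7,nat_lit 1,nat_lit 7,nat_lit 9,nat_lit 7],[nat_lit 9,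
    nat_lit 7,nat_lit 2,nat_lit 7,nat_lit 7],[nat_lit 9,nat_lit 7,nat_lit 6,nat_lit 0,nat_lit 6,nat_lit 8],[nat_lit 9,
    nat_lit 7,nat_lit 6,nat_lit 6,nat_lit 3],[nat_lit 9,nat_lit 7,nat_lit 7,nat_lit 0,nat_lit 6,nat_lit 8],[nat_lit 9,
    nat_lit 7,nat_lit 7,nat_lit 1,nat_lit 6,nat_lit 8],[nat_lit 9,nat_lit 7,nat_lit 7,nat_lit 2,nat_lit 7],[nat_lit 9,
    nat_lit 7,nat_lit 7,nat_lit 6,nat_lit 3],[nat_lit 9,nat_lit 7,nat_lit 9,nat_lit 7,nat_lit 0,nat_lit 6],[nat_lit 9,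
    nat_lit 7,nat_lit 9,nat_lit 7,nat_lit 1,nat_lit 6],[nat_lit 9,nat_lit 7,nat_lit 9,nat_lit 7,nat_lit 1,nat_lit 7]],
    [[nat_lit 9,nat_lit 7,nat_lit 12],[nat_lit 9,nat_lit 7,nat_lit 13],[nat_lit 9,nat_lit 9,nat_lit 7,nat_lit 0,
    nat_lit 0,nat_lit 0],[nat_lit 9,nat_lit 12,nat_lit 0],[nat_lit 9,nat_lit 12,nat_lit 6],[nat_lit 9,nat_lit 12,
    nat_lit 7],[nat_lit 9,nat_lit 13,nat_lit 6],[nat_lit 9,nat_lit 13,nat_lit 7],[nat_lit 10,nat_lit 4],[nat_lit 10,
    nat_lit 5],[nat_lit 11,nat_lit 4],[nat_lit 11,nat_lit 5]],[[nat_lit 12,nat_lit 0,nat_lit 9],[nat_lit 12,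
    nat_lit 2],[nat_lit 12,nat_lit 3],[nat_lit 12,nat_lit 6,nat_lit 8],[nat_lit 12,nat_lit 6,nat_lit 9],[nat_lit 12,
    nat_lit 7,nat_lit 8],[nat_lit 12,nat_lit 7,nat_lit 9],[nat_lit 12,nat_lit 8,nat_lit 6],[nat_lit 12,nat_lit 8,
    nat_lit 7],[nat_lit 12,nat_lit 9,nat_lit 6],[nat_lit 12,nat_lit 9,nat_lit 7],[nat_lit 13,nat_lit 2]],[[nat_lit 13,
    nat_lit 3],[nat_lit 13,nat_lit 6,nat_lit 8],[nat_lit 13,nat_lit 6,nat_lit 9],[nat_lit 13,nat_lit 7,nat_lit 8],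
    [nat_lit 13,nat_lit 7,nat_lit 9],[nat_lit 13,nat_lit 8,nat_lit 1],[nat_lit 13,nat_lit 8,nat_lit 6],[nat_lit 13,
    nat_lit 8,nat_lit 7],[nat_lit 13,nat_lit 9,nat_lit 6],[nat_lit 13,nat_lit 9,nat_lit 7]]]
    [[nat_lit 2,nat_lit 33,nat_lit 35,nat_lit 114,nat_lit 130,nat_lit 144,nat_lit 153,nat_lit 156,nat_lit 157,
    nat_lit 159,nat_lit 163,nat_lit 166],[nat_lit 170,nat_lit 171,nat_lit 179,nat_lit 195,nat_lit 196,nat_lit 197,
    nat_lit 198,nat_lit 199,nat_lit 200,nat_lit 263,nat_lit 266,nat_lit 270],[nat_lit 271,nat_lit 274,nat_lit 275,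
    nat_lit 316,nat_lit 319,nat_lit 322,nat_lit 324,nat_lit 325,nat_lit 327,nat_lit 328,nat_lit 341,nat_lit 362],
    [nat_lit 363,nat_lit 39,nat_lit 47,nat_lit 53,nat_lit 87,nat_lit 116,nat_lit 117,nat_lit 118,nat_lit 119,
    nat_lit 120,nat_lit 121,nat_lit 129],[nat_lit 145,nat_lit 149,nat_lit 158,nat_lit 160,nat_lit 164,nat_lit 165,
    nat_lit 172,nat_lit 180,nat_lit 213,nat_lit 230,nat_lit 244,nat_lit 255],[nat_lit 262,nat_lit 264,nat_lit 265,
    nat_lit 267,nat_lit 272,nat_lit 276,nat_lit 306,nat_lit 317,nat_lit 318,nat_lit 320,nat_lit 321,nat_lit 323],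
    [nat_lit 326,nat_lit 389,nat_lit 78,nat_lit 188,nat_lit 211,nat_lit 214,nat_lit 218,nat_lit 219,nat_lit 226,
    nat_lit 227,nat_lit 228,nat_lit 237],[nat_lit 238,nat_lit 239,nat_lit 241,nat_lit 249,nat_lit 254,nat_lit 373,
    nat_lit 383,nat_lit 6,nat_lit 79,nat_lit 97,nat_lit 126,nat_lit 143],[nat_lit 155,nat_lit 220,nat_lit 269,
    nat_lit 280,nat_lit 285,nat_lit 286,nat_lit 296,nat_lit 297,nat_lit 352,nat_lit 356,nat_lit 374,nat_lit 384],
    [nat_lit 368,nat_lit 370,nat_lit 369,nat_lit 371,nat_lit 4,nat_lit 7,nat_lit 11,nat_lit 12,nat_lit 62,nat_lit 63,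
    nat_lit 65,nat_lit 69],[nat_lit 70,nat_lit 72,nat_lit 74,nat_lit 91,nat_lit 92,nat_lit 93,nat_lit 94,nat_lit 95,
    nat_lit 96,nat_lit 98,nat_lit 99,nat_lit 100],[nat_lit 101,nat_lit 102,nat_lit 103,nat_lit 104,nat_lit 105,
    nat_lit 128,nat_lit 131,nat_lit 133,nat_lit 135,nat_lit 138,nat_lit 150,nat_lit 154],[nat_lit 167,nat_lit 168,
    nat_lit 175,nat_lit 221,nat_lit 245,nat_lit 273,nat_lit 278,nat_lit 279,nat_lit 281,nat_lit 282,nat_lit 283,
    nat_lit 284],[nat_lit 287,nat_lit 288,nat_lit 289,nat_lit 290,nat_lit 291,nat_lit 294,nat_lit 295,nat_lit 298,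
    nat_lit 299,nat_lit 302,nat_lit 303,nat_lit 304],[nat_lit 305,nat_lit 307,nat_lit 308,nat_lit 309,nat_lit 310,
    nat_lit 311,nat_lit 313,nat_lit 330,nat_lit 332,nat_lit 338,nat_lit 344,nat_lit 357],[nat_lit 358,nat_lit 364,
    nat_lit 366,nat_lit 379,nat_lit 381,nat_lit 390,nat_lit 392,nat_lit 0,nat_lit 1,nat_lit 5,nat_lit 8,nat_lit 9],
    [nat_lit 10,nat_lit 13,nat_lit 14,nat_lit 22,nat_lit 25,nat_lit 26,nat_lit 28,nat_lit 31,nat_lit 32,nat_lit 34,
    nat_lit 40,nat_lit 48],[nat_lit 50,nat_lit 51,nat_lit 52,nat_lit 54,nat_lit 55,nat_lit 56,nat_lit 57,nat_lit 58,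
    nat_lit 59,nat_lit 66,nat_lit 77,nat_lit 86],[nat_lit 88,nat_lit 115,nat_lit 122,nat_lit 124,nat_lit 125,
    nat_lit 132,nat_lit 134,nat_lit 136,nat_lit 139,nat_lit 140,nat_lit 142,nat_lit 146],[nat_lit 148,nat_lit 151,
    nat_lit 169,nat_lit 176,nat_lit 193,nat_lit 207,nat_lit 216,nat_lit 222,nat_lit 223,nat_lit 229,nat_lit 231,
    nat_lit 240],[nat_lit 246,nat_lit 253,nat_lit 312,nat_lit 314,nat_lit 329,nat_lit 331,nat_lit 333,nat_lit 339,
    nat_lit 340,nat_lit 342,nat_lit 345,nat_lit 346],[nat_lit 349,nat_lit 350,nat_lit 355,nat_lit 359,nat_lit 365,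
    nat_lit 367,nat_lit 380,nat_lit 382,nat_lit 391,nat_lit 393,nat_lit 16,nat_lit 18],[nat_lit 19,nat_lit 23,
    nat_lit 27,nat_lit 29,nat_lit 37,nat_lit 38,nat_lit 41,nat_lit 44,nat_lit 46,nat_lit 49,nat_lit 60,nat_lit 67],
    [nat_lit 71,nat_lit 73,nat_lit 80,nat_lit 83,nat_lit 112,nat_lit 113,nat_lit 123,nat_lit 127,nat_lit 137,
    nat_lit 141,nat_lit 147,nat_lit 152],[nat_lit 161,nat_lit 162,nat_lit 177,nat_lit 178,nat_lit 183,nat_lit 185,
    nat_lit 190,nat_lit 204,nat_lit 224,nat_lit 235,nat_lit 247,nat_lit 250],[nat_lit 258,nat_lit 260,nat_lit 268,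
    nat_lit 315,nat_lit 337,nat_lit 343,nat_lit 347,nat_lit 348,nat_lit 351,nat_lit 353,nat_lit 354,nat_lit 375],
    [nat_lit 377,nat_lit 385,nat_lit 387,nat_lit 3,nat_lit 15,nat_lit 17,nat_lit 20,nat_lit 21,nat_lit 24,nat_lit 30,
    nat_lit 42,nat_lit 43],[nat_lit 45,nat_lit 61,nat_lit 64,nat_lit 68,nat_lit 75,nat_lit 76,nat_lit 81,nat_lit 82,
    nat_lit 84,nat_lit 85,nat_lit 184,nat_lit 186],[nat_lit 187,nat_lit 189,nat_lit 191,nat_lit 192,nat_lit 194,
    nat_lit 201,nat_lit 202,nat_lit 203,nat_lit 205,nat_lit 206,nat_lit 208,nat_lit 209],[nat_lit 210,nat_lit 212,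
    nat_lit 215,nat_lit 217,nat_lit 225,nat_lit 232,nat_lit 233,nat_lit 234,nat_lit 236,nat_lit 248,nat_lit 251,
    nat_lit 252],[nat_lit 259,nat_lit 261,nat_lit 336,nat_lit 372,nat_lit 376,nat_lit 378,nat_lit 386,nat_lit 388,
    nat_lit 108,nat_lit 110,nat_lit 109,nat_lit 111],[nat_lit 36,nat_lit 89,nat_lit 106,nat_lit 173,nat_lit 181,
    nat_lit 242,nat_lit 256,nat_lit 292,nat_lit 300,nat_lit 334,nat_lit 360,nat_lit 90],[nat_lit 107,nat_lit 174,
    nat_lit 182,nat_lit 243,nat_lit 257,nat_lit 277,nat_lit 293,nat_lit 301,nat_lit 335,nat_lit 361]]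
    [[nat_lit 187,nat_lit 188,nat_lit 0,nat_lit 315,nat_lit 112,nat_lit 189,nat_lit 91,nat_lit 113,nat_lit 190,
    nat_lit 191,nat_lit 192,nat_lit 114],[nat_lit 115,nat_lit 193,nat_lit 194,nat_lit 316,nat_lit 262,nat_lit 317,
    nat_lit 263,nat_lit 264,nat_lit 318,nat_lit 319,nat_lit 195,nat_lit 265],[nat_lit 320,nat_lit 196,nat_lit 197,
    nat_lit 266,nat_lit 198,nat_lit 267,nat_lit 321,nat_lit 199,nat_lit 200,nat_lit 1,nat_lit 201,nat_lit 2],
    [nat_lit 372,nat_lit 268,nat_lit 269,nat_lit 37,nat_lit 202,nat_lit 270,nat_lit 322,nat_lit 323,nat_lit 271,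
    nat_lit 324,nat_lit 272,nat_lit 38],[nat_lit 203,nat_lit 273,nat_lit 204,nat_lit 205,nat_lit 206,nat_lit 39,
    nat_lit 207,nat_lit 208,nat_lit 209,nat_lit 210,nat_lit 211,nat_lit 212],[nat_lit 274,nat_lit 325,nat_lit 116,
    nat_lit 117,nat_lit 326,nat_lit 118,nat_lit 213,nat_lit 275,nat_lit 327,nat_lit 119,nat_lit 120,nat_lit 276],
    [nat_lit 121,nat_lit 277,nat_lit 122,nat_lit 328,nat_lit 329,nat_lit 214,nat_lit 74,nat_lit 92,nat_lit 278,
    nat_lit 330,nat_lit 331,nat_lit 279],[nat_lit 332,nat_lit 333,nat_lit 215,nat_lit 40,nat_lit 216,nat_lit 373,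
    nat_lit 383,nat_lit 123,nat_lit 124,nat_lit 125,nat_lit 126,nat_lit 127],[nat_lit 128,nat_lit 93,nat_lit 129,
    nat_lit 130,nat_lit 131,nat_lit 132,nat_lit 133,nat_lit 134,nat_lit 135,nat_lit 136,nat_lit 374,nat_lit 384],
    [nat_lit 368,nat_lit 370,nat_lit 369,nat_lit 371,nat_lit 280,nat_lit 281,nat_lit 3,nat_lit 217,nat_lit 41,
    nat_lit 42,nat_lit 43,nat_lit 44],[nat_lit 45,nat_lit 46,nat_lit 218,nat_lit 282,nat_lit 219,nat_lit 220,
    nat_lit 94,nat_lit 283,nat_lit 137,nat_lit 47,nat_lit 4,nat_lit 138],[nat_lit 221,nat_lit 139,nat_lit 222,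
    nat_lit 140,nat_lit 223,nat_lit 284,nat_lit 141,nat_lit 224,nat_lit 225,nat_lit 285,nat_lit 226,nat_lit 95],
    [nat_lit 5,nat_lit 48,nat_lit 227,nat_lit 286,nat_lit 228,nat_lit 49,nat_lit 142,nat_lit 229,nat_lit 287,
    nat_lit 6,nat_lit 143,nat_lit 96],[nat_lit 7,nat_lit 8,nat_lit 50,nat_lit 9,nat_lit 51,nat_lit 288,nat_lit 289,
    nat_lit 10,nat_lit 52,nat_lit 53,nat_lit 11,nat_lit 144],[nat_lit 145,nat_lit 230,nat_lit 12,nat_lit 13,
    nat_lit 54,nat_lit 375,nat_lit 385,nat_lit 146,nat_lit 231,nat_lit 290,nat_lit 291,nat_lit 14],[nat_lit 55,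
    nat_lit 376,nat_lit 386,nat_lit 292,nat_lit 334,nat_lit 293,nat_lit 335,nat_lit 336,nat_lit 75,nat_lit 337,
    nat_lit 294,nat_lit 338],[nat_lit 339,nat_lit 232,nat_lit 340,nat_lit 15,nat_lit 16,nat_lit 17,nat_lit 18,
    nat_lit 19,nat_lit 20,nat_lit 341,nat_lit 342,nat_lit 343],[nat_lit 295,nat_lit 344,nat_lit 345,nat_lit 233,
    nat_lit 346,nat_lit 347,nat_lit 348,nat_lit 76,nat_lit 349,nat_lit 56,nat_lit 77,nat_lit 350],[nat_lit 234,
    nat_lit 351,nat_lit 78,nat_lit 79,nat_lit 97,nat_lit 147,nat_lit 235,nat_lit 236,nat_lit 296,nat_lit 352,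
    nat_lit 80,nat_lit 81],[nat_lit 82,nat_lit 237,nat_lit 57,nat_lit 238,nat_lit 353,nat_lit 354,nat_lit 355,
    nat_lit 297,nat_lit 356,nat_lit 83,nat_lit 84,nat_lit 85],[nat_lit 239,nat_lit 86,nat_lit 377,nat_lit 387,
    nat_lit 58,nat_lit 148,nat_lit 240,nat_lit 298,nat_lit 357,nat_lit 87,nat_lit 299,nat_lit 358],[nat_lit 359,
    nat_lit 241,nat_lit 88,nat_lit 59,nat_lit 378,nat_lit 388,nat_lit 300,nat_lit 360,nat_lit 301,nat_lit 361,
    nat_lit 60,nat_lit 21],[nat_lit 61,nat_lit 62,nat_lit 22,nat_lit 63,nat_lit 302,nat_lit 98,nat_lit 23,nat_lit 24,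
    nat_lit 64,nat_lit 149,nat_lit 25,nat_lit 26],[nat_lit 65,nat_lit 389,nat_lit 150,nat_lit 151,nat_lit 99,
    nat_lit 152,nat_lit 153,nat_lit 154,nat_lit 155,nat_lit 100,nat_lit 101,nat_lit 156],[nat_lit 157,nat_lit 158,
    nat_lit 159,nat_lit 160,nat_lit 379,nat_lit 390,nat_lit 161,nat_lit 162,nat_lit 102,nat_lit 103,nat_lit 163,
    nat_lit 164],[nat_lit 380,nat_lit 391,nat_lit 165,nat_lit 166,nat_lit 167,nat_lit 168,nat_lit 66,nat_lit 169,
    nat_lit 170,nat_lit 171,nat_lit 172,nat_lit 173],[nat_lit 242,nat_lit 174,nat_lit 243,nat_lit 303,nat_lit 27,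
    nat_lit 67,nat_lit 68,nat_lit 28,nat_lit 69,nat_lit 70,nat_lit 29,nat_lit 71],[nat_lit 30,nat_lit 31,nat_lit 72,
    nat_lit 32,nat_lit 33,nat_lit 244,nat_lit 175,nat_lit 245,nat_lit 176,nat_lit 246,nat_lit 381,nat_lit 392],
    [nat_lit 362,nat_lit 304,nat_lit 177,nat_lit 247,nat_lit 248,nat_lit 34,nat_lit 249,nat_lit 305,nat_lit 178,
    nat_lit 250,nat_lit 251,nat_lit 306],[nat_lit 307,nat_lit 252,nat_lit 253,nat_lit 308,nat_lit 104,nat_lit 309,
    nat_lit 310,nat_lit 254,nat_lit 105,nat_lit 179,nat_lit 180,nat_lit 255],[nat_lit 382,nat_lit 393,nat_lit 35,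
    nat_lit 36,nat_lit 181,nat_lit 256,nat_lit 182,nat_lit 257,nat_lit 108,nat_lit 110,nat_lit 109,nat_lit 111],
    [nat_lit 363,nat_lit 89,nat_lit 106,nat_lit 311,nat_lit 364,nat_lit 312,nat_lit 365,nat_lit 183,nat_lit 258,
    nat_lit 184,nat_lit 259,nat_lit 90],[nat_lit 107,nat_lit 313,nat_lit 366,nat_lit 314,nat_lit 367,nat_lit 73,
    nat_lit 185,nat_lit 260,nat_lit 186,nat_lit 261]]
    [[[nat_lit 373],[nat_lit 373],[nat_lit 373],[nat_lit 375,nat_lit 377],[nat_lit 375,nat_lit 377],[nat_lit 375,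
    nat_lit 377],[nat_lit 375,nat_lit 377],[nat_lit 375,nat_lit 377],[nat_lit 375,nat_lit 377],[nat_lit 375,
    nat_lit 377],[nat_lit 375,nat_lit 377],[nat_lit 375,nat_lit 377]],[[nat_lit 375,nat_lit 377],[nat_lit 375,
    nat_lit 377],[nat_lit 375,nat_lit 377],[],[],[],[],[],[],[],[],[]],[[],[],[],[nat_lit 380,nat_lit 382],
    [nat_lit 380,nat_lit 382],[nat_lit 380,nat_lit 382],[nat_lit 380,nat_lit 382],[nat_lit 380,nat_lit 382],
    [nat_lit 380,nat_lit 382],[nat_lit 380,nat_lit 382],[nat_lit 380,nat_lit 382],[nat_lit 380,nat_lit 382]],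
    [[nat_lit 380,nat_lit 382],[nat_lit 107],[nat_lit 107],[nat_lit 107],[],[],[],[],[],[],[],[]],[[],[],[],[],[],[],
    [],[],[],[],[],[]],[[],[],[],[],[],[],[],[],[],[],[],[]],[[],[],[],[],[],[],[],[],[],[],[],[]],[[],[],[],[],[],
    [nat_lit 2,nat_lit 33,nat_lit 35],[],[],[],[],[],[]],[[],[],[nat_lit 110],[nat_lit 110],[nat_lit 110],
    [nat_lit 110],[nat_lit 110],[nat_lit 110],[],[],[],[nat_lit 111]],[[nat_lit 89],[nat_lit 75,nat_lit 76,nat_lit 81,
    nat_lit 82,nat_lit 84,nat_lit 85],[nat_lit 242,nat_lit 256],[nat_lit 187,nat_lit 189,nat_lit 191,nat_lit 192,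
    nat_lit 194,nat_lit 201,nat_lit 202,nat_lit 203,nat_lit 205,nat_lit 206,nat_lit 208,nat_lit 209,nat_lit 210,
    nat_lit 212,nat_lit 215,nat_lit 217,nat_lit 225,nat_lit 232,nat_lit 233,nat_lit 234,nat_lit 236,nat_lit 248,
    nat_lit 251,nat_lit 252,nat_lit 259,nat_lit 261],[],[],[],[],[],[],[],[]],[[],[],[],[],[],[],[],[],[],[],[],[]],
    [[],[],[],[],[],[],[],[],[],[],[],[]],[[],[],[],[],[],[nat_lit 108],[nat_lit 108],[nat_lit 108],[nat_lit 108],
    [nat_lit 108],[nat_lit 108],[nat_lit 108]],[[nat_lit 108],[nat_lit 108],[nat_lit 108],[nat_lit 108],[nat_lit 108],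
    [nat_lit 108],[nat_lit 108],[nat_lit 108],[nat_lit 108],[nat_lit 108],[nat_lit 108],[nat_lit 108]],[[nat_lit 108],
    [nat_lit 108],[nat_lit 108],[nat_lit 108],[nat_lit 108],[nat_lit 108],[nat_lit 108],[],[],[],[],[]],[[],[],[],[],
    [],[nat_lit 109],[nat_lit 109],[],[],[],[],[]],[[],[],[],[],[],[],[],[],[],[],[nat_lit 335,nat_lit 361],
    [nat_lit 335,nat_lit 361]],[[nat_lit 335,nat_lit 361],[nat_lit 335,nat_lit 361],[nat_lit 335,nat_lit 361],
    [nat_lit 335,nat_lit 361],[nat_lit 335,nat_lit 361],[nat_lit 335,nat_lit 361],[nat_lit 335,nat_lit 361],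
    [nat_lit 335,nat_lit 361],[nat_lit 335,nat_lit 361],[nat_lit 335,nat_lit 361],[],[]],[[],[nat_lit 315,nat_lit 337,
    nat_lit 343,nat_lit 347,nat_lit 348,nat_lit 351,nat_lit 353,nat_lit 354],[nat_lit 315,nat_lit 337,nat_lit 343,
    nat_lit 347,nat_lit 348,nat_lit 351,nat_lit 353,nat_lit 354],[nat_lit 315,nat_lit 337,nat_lit 343,nat_lit 347,
    nat_lit 348,nat_lit 351,nat_lit 353,nat_lit 354],[nat_lit 315,nat_lit 337,nat_lit 343,nat_lit 347,nat_lit 348,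
    nat_lit 351,nat_lit 353,nat_lit 354],[nat_lit 315,nat_lit 337,nat_lit 343,nat_lit 347,nat_lit 348,nat_lit 351,
    nat_lit 353,nat_lit 354],[nat_lit 315,nat_lit 337,nat_lit 343,nat_lit 347,nat_lit 348,nat_lit 351,nat_lit 353,
    nat_lit 354],[nat_lit 315,nat_lit 337,nat_lit 343,nat_lit 347,nat_lit 348,nat_lit 351,nat_lit 353,nat_lit 354],
    [nat_lit 315,nat_lit 337,nat_lit 343,nat_lit 347,nat_lit 348,nat_lit 351,nat_lit 353,nat_lit 354],[nat_lit 315,
    nat_lit 337,nat_lit 343,nat_lit 347,nat_lit 348,nat_lit 351,nat_lit 353,nat_lit 354],[nat_lit 315,nat_lit 337,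
    nat_lit 343,nat_lit 347,nat_lit 348,nat_lit 351,nat_lit 353,nat_lit 354],[nat_lit 315,nat_lit 337,nat_lit 343,
    nat_lit 347,nat_lit 348,nat_lit 351,nat_lit 353,nat_lit 354]],[[nat_lit 315,nat_lit 337,nat_lit 343,nat_lit 347,
    nat_lit 348,nat_lit 351,nat_lit 353,nat_lit 354],[nat_lit 315,nat_lit 337,nat_lit 343,nat_lit 347,nat_lit 348,
    nat_lit 351,nat_lit 353,nat_lit 354],[nat_lit 315,nat_lit 337,nat_lit 343,nat_lit 347,nat_lit 348,nat_lit 351,
    nat_lit 353,nat_lit 354],[nat_lit 315,nat_lit 337,nat_lit 343,nat_lit 347,nat_lit 348,nat_lit 351,nat_lit 353,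
    nat_lit 354],[],[],[],[],[],[],[],[]],[[],[],[],[],[nat_lit 329,nat_lit 331,nat_lit 333,nat_lit 339,nat_lit 340,
    nat_lit 342,nat_lit 345,nat_lit 346,nat_lit 349,nat_lit 350,nat_lit 355,nat_lit 359,nat_lit 365,nat_lit 367],
    [nat_lit 329,nat_lit 331,nat_lit 333,nat_lit 339,nat_lit 340,nat_lit 342,nat_lit 345,nat_lit 346,nat_lit 349,
    nat_lit 350,nat_lit 355,nat_lit 359,nat_lit 365,nat_lit 367],[nat_lit 329,nat_lit 331,nat_lit 333,nat_lit 339,
    nat_lit 340,nat_lit 342,nat_lit 345,nat_lit 346,nat_lit 349,nat_lit 350,nat_lit 355,nat_lit 359,nat_lit 365,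
    nat_lit 367],[nat_lit 329,nat_lit 331,nat_lit 333,nat_lit 339,nat_lit 340,nat_lit 342,nat_lit 345,nat_lit 346,
    nat_lit 349,nat_lit 350,nat_lit 355,nat_lit 359,nat_lit 365,nat_lit 367],[nat_lit 329,nat_lit 331,nat_lit 333,
    nat_lit 339,nat_lit 340,nat_lit 342,nat_lit 345,nat_lit 346,nat_lit 349,nat_lit 350,nat_lit 355,nat_lit 359,
    nat_lit 365,nat_lit 367],[nat_lit 329,nat_lit 331,nat_lit 333,nat_lit 339,nat_lit 340,nat_lit 342,nat_lit 345,
    nat_lit 346,nat_lit 349,nat_lit 350,nat_lit 355,nat_lit 359,nat_lit 365,nat_lit 367],[nat_lit 329,nat_lit 331,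
    nat_lit 333,nat_lit 339,nat_lit 340,nat_lit 342,nat_lit 345,nat_lit 346,nat_lit 349,nat_lit 350,nat_lit 355,
    nat_lit 359,nat_lit 365,nat_lit 367],[nat_lit 329,nat_lit 331,nat_lit 333,nat_lit 339,nat_lit 340,nat_lit 342,
    nat_lit 345,nat_lit 346,nat_lit 349,nat_lit 350,nat_lit 355,nat_lit 359,nat_lit 365,nat_lit 367]],[[nat_lit 329,
    nat_lit 331,nat_lit 333,nat_lit 339,nat_lit 340,nat_lit 342,nat_lit 345,nat_lit 346,nat_lit 349,nat_lit 350,
    nat_lit 355,nat_lit 359,nat_lit 365,nat_lit 367],[nat_lit 329,nat_lit 331,nat_lit 333,nat_lit 339,nat_lit 340,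
    nat_lit 342,nat_lit 345,nat_lit 346,nat_lit 349,nat_lit 350,nat_lit 355,nat_lit 359,nat_lit 365,nat_lit 367],
    [nat_lit 329,nat_lit 331,nat_lit 333,nat_lit 339,nat_lit 340,nat_lit 342,nat_lit 345,nat_lit 346,nat_lit 349,
    nat_lit 350,nat_lit 355,nat_lit 359,nat_lit 365,nat_lit 367],[nat_lit 329,nat_lit 331,nat_lit 333,nat_lit 339,
    nat_lit 340,nat_lit 342,nat_lit 345,nat_lit 346,nat_lit 349,nat_lit 350,nat_lit 355,nat_lit 359,nat_lit 365,
    nat_lit 367],[nat_lit 329,nat_lit 331,nat_lit 333,nat_lit 339,nat_lit 340,nat_lit 342,nat_lit 345,nat_lit 346,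
    nat_lit 349,nat_lit 350,nat_lit 355,nat_lit 359,nat_lit 365,nat_lit 367],[nat_lit 329,nat_lit 331,nat_lit 333,
    nat_lit 339,nat_lit 340,nat_lit 342,nat_lit 345,nat_lit 346,nat_lit 349,nat_lit 350,nat_lit 355,nat_lit 359,
    nat_lit 365,nat_lit 367],[nat_lit 316,nat_lit 319,nat_lit 322,nat_lit 324,nat_lit 325,nat_lit 327,nat_lit 328,
    nat_lit 341,nat_lit 362,nat_lit 363],[nat_lit 316,nat_lit 319,nat_lit 322,nat_lit 324,nat_lit 325,nat_lit 327,
    nat_lit 328,nat_lit 341,nat_lit 362,nat_lit 363],[],[],[],[]],[[],[],[],[],[nat_lit 174,nat_lit 182],[nat_lit 174,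
    nat_lit 182],[nat_lit 174,nat_lit 182],[nat_lit 174,nat_lit 182],[nat_lit 174,nat_lit 182],[nat_lit 174,
    nat_lit 182],[nat_lit 174,nat_lit 182],[nat_lit 174,nat_lit 182]],[[nat_lit 174,nat_lit 182],[nat_lit 174,
    nat_lit 182],[],[],[nat_lit 112,nat_lit 113,nat_lit 123,nat_lit 127,nat_lit 137,nat_lit 141,nat_lit 147,
    nat_lit 152,nat_lit 161,nat_lit 162,nat_lit 177,nat_lit 178,nat_lit 183,nat_lit 185],[nat_lit 112,nat_lit 113,
    nat_lit 123,nat_lit 127,nat_lit 137,nat_lit 141,nat_lit 147,nat_lit 152,nat_lit 161,nat_lit 162,nat_lit 177,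
    nat_lit 178,nat_lit 183,nat_lit 185],[nat_lit 112,nat_lit 113,nat_lit 123,nat_lit 127,nat_lit 137,nat_lit 141,
    nat_lit 147,nat_lit 152,nat_lit 161,nat_lit 162,nat_lit 177,nat_lit 178,nat_lit 183,nat_lit 185],[nat_lit 112,
    nat_lit 113,nat_lit 123,nat_lit 127,nat_lit 137,nat_lit 141,nat_lit 147,nat_lit 152,nat_lit 161,nat_lit 162,
    nat_lit 177,nat_lit 178,nat_lit 183,nat_lit 185],[nat_lit 112,nat_lit 113,nat_lit 123,nat_lit 127,nat_lit 137,
    nat_lit 141,nat_lit 147,nat_lit 152,nat_lit 161,nat_lit 162,nat_lit 177,nat_lit 178,nat_lit 183,nat_lit 185],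
    [nat_lit 112,nat_lit 113,nat_lit 123,nat_lit 127,nat_lit 137,nat_lit 141,nat_lit 147,nat_lit 152,nat_lit 161,
    nat_lit 162,nat_lit 177,nat_lit 178,nat_lit 183,nat_lit 185],[nat_lit 112,nat_lit 113,nat_lit 123,nat_lit 127,
    nat_lit 137,nat_lit 141,nat_lit 147,nat_lit 152,nat_lit 161,nat_lit 162,nat_lit 177,nat_lit 178,nat_lit 183,
    nat_lit 185],[nat_lit 112,nat_lit 113,nat_lit 123,nat_lit 127,nat_lit 137,nat_lit 141,nat_lit 147,nat_lit 152,
    nat_lit 161,nat_lit 162,nat_lit 177,nat_lit 178,nat_lit 183,nat_lit 185]],[[nat_lit 112,nat_lit 113,nat_lit 123,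
    nat_lit 127,nat_lit 137,nat_lit 141,nat_lit 147,nat_lit 152,nat_lit 161,nat_lit 162,nat_lit 177,nat_lit 178,
    nat_lit 183,nat_lit 185],[nat_lit 112,nat_lit 113,nat_lit 123,nat_lit 127,nat_lit 137,nat_lit 141,nat_lit 147,
    nat_lit 152,nat_lit 161,nat_lit 162,nat_lit 177,nat_lit 178,nat_lit 183,nat_lit 185],[nat_lit 112,nat_lit 113,
    nat_lit 123,nat_lit 127,nat_lit 137,nat_lit 141,nat_lit 147,nat_lit 152,nat_lit 161,nat_lit 162,nat_lit 177,
    nat_lit 178,nat_lit 183,nat_lit 185],[nat_lit 112,nat_lit 113,nat_lit 123,nat_lit 127,nat_lit 137,nat_lit 141,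
    nat_lit 147,nat_lit 152,nat_lit 161,nat_lit 162,nat_lit 177,nat_lit 178,nat_lit 183,nat_lit 185],[nat_lit 112,
    nat_lit 113,nat_lit 123,nat_lit 127,nat_lit 137,nat_lit 141,nat_lit 147,nat_lit 152,nat_lit 161,nat_lit 162,
    nat_lit 177,nat_lit 178,nat_lit 183,nat_lit 185],[nat_lit 112,nat_lit 113,nat_lit 123,nat_lit 127,nat_lit 137,
    nat_lit 141,nat_lit 147,nat_lit 152,nat_lit 161,nat_lit 162,nat_lit 177,nat_lit 178,nat_lit 183,nat_lit 185],[],
    [],[],[],[],[]],[[],[],[],[nat_lit 115,nat_lit 122,nat_lit 124,nat_lit 125,nat_lit 132,nat_lit 134,nat_lit 136,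
    nat_lit 139,nat_lit 140,nat_lit 142,nat_lit 146,nat_lit 148,nat_lit 151,nat_lit 169,nat_lit 176],[nat_lit 115,
    nat_lit 122,nat_lit 124,nat_lit 125,nat_lit 132,nat_lit 134,nat_lit 136,nat_lit 139,nat_lit 140,nat_lit 142,
    nat_lit 146,nat_lit 148,nat_lit 151,nat_lit 169,nat_lit 176],[nat_lit 115,nat_lit 122,nat_lit 124,nat_lit 125,
    nat_lit 132,nat_lit 134,nat_lit 136,nat_lit 139,nat_lit 140,nat_lit 142,nat_lit 146,nat_lit 148,nat_lit 151,
    nat_lit 169,nat_lit 176],[nat_lit 115,nat_lit 122,nat_lit 124,nat_lit 125,nat_lit 132,nat_lit 134,nat_lit 136,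
    nat_lit 139,nat_lit 140,nat_lit 142,nat_lit 146,nat_lit 148,nat_lit 151,nat_lit 169,nat_lit 176],[nat_lit 115,
    nat_lit 122,nat_lit 124,nat_lit 125,nat_lit 132,nat_lit 134,nat_lit 136,nat_lit 139,nat_lit 140,nat_lit 142,
    nat_lit 146,nat_lit 148,nat_lit 151,nat_lit 169,nat_lit 176],[nat_lit 115,nat_lit 122,nat_lit 124,nat_lit 125,
    nat_lit 132,nat_lit 134,nat_lit 136,nat_lit 139,nat_lit 140,nat_lit 142,nat_lit 146,nat_lit 148,nat_lit 151,
    nat_lit 169,nat_lit 176],[nat_lit 115,nat_lit 122,nat_lit 124,nat_lit 125,nat_lit 132,nat_lit 134,nat_lit 136,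
    nat_lit 139,nat_lit 140,nat_lit 142,nat_lit 146,nat_lit 148,nat_lit 151,nat_lit 169,nat_lit 176],[nat_lit 115,
    nat_lit 122,nat_lit 124,nat_lit 125,nat_lit 132,nat_lit 134,nat_lit 136,nat_lit 139,nat_lit 140,nat_lit 142,
    nat_lit 146,nat_lit 148,nat_lit 151,nat_lit 169,nat_lit 176],[nat_lit 114,nat_lit 130,nat_lit 144,nat_lit 153,
    nat_lit 156,nat_lit 157,nat_lit 159,nat_lit 163,nat_lit 166,nat_lit 170,nat_lit 171,nat_lit 179]],[[nat_lit 114,
    nat_lit 130,nat_lit 144,nat_lit 153,nat_lit 156,nat_lit 157,nat_lit 159,nat_lit 163,nat_lit 166,nat_lit 170,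
    nat_lit 171,nat_lit 179],[],[],[],[],[],[],[],[],[],[],[]],[[],[],[],[],[nat_lit 370],[nat_lit 370],[nat_lit 370],
    [nat_lit 370],[nat_lit 370],[nat_lit 370],[],[]],[[nat_lit 371],[nat_lit 371],[nat_lit 371],[nat_lit 371],
    [nat_lit 371],[nat_lit 371],[nat_lit 371],[nat_lit 371],[nat_lit 371],[nat_lit 371],[nat_lit 371],[nat_lit 371]],
    [[nat_lit 371],[nat_lit 371],[nat_lit 371],[nat_lit 371],[nat_lit 371],[nat_lit 371],[nat_lit 371],[nat_lit 371],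
    [nat_lit 371],[nat_lit 371],[nat_lit 371],[nat_lit 371]],[[nat_lit 371],[nat_lit 371],[],[],[],[],[],[],
    [nat_lit 273,nat_lit 278,nat_lit 279,nat_lit 281,nat_lit 282,nat_lit 283,nat_lit 284,nat_lit 287,nat_lit 288,
    nat_lit 289,nat_lit 290,nat_lit 291,nat_lit 294,nat_lit 295,nat_lit 298,nat_lit 299,nat_lit 302,nat_lit 303,
    nat_lit 304,nat_lit 305,nat_lit 307,nat_lit 308,nat_lit 309,nat_lit 310,nat_lit 311,nat_lit 313],[nat_lit 269,
    nat_lit 280,nat_lit 285,nat_lit 286,nat_lit 296,nat_lit 297],[nat_lit 390,nat_lit 392],[nat_lit 384]],[[],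
    [nat_lit 368],[],[],[],[nat_lit 369],[nat_lit 369],[],[],[],[],[]],[[nat_lit 39,nat_lit 47,nat_lit 53],
    [nat_lit 37,nat_lit 38,nat_lit 41,nat_lit 44,nat_lit 46,nat_lit 49,nat_lit 60,nat_lit 67,nat_lit 71,nat_lit 73],
    [nat_lit 37,nat_lit 38,nat_lit 41,nat_lit 44,nat_lit 46,nat_lit 49,nat_lit 60,nat_lit 67,nat_lit 71,nat_lit 73],
    [],[],[],[],[],[nat_lit 40,nat_lit 48,nat_lit 50,nat_lit 51,nat_lit 52,nat_lit 54,nat_lit 55,nat_lit 56,
    nat_lit 57,nat_lit 58,nat_lit 59,nat_lit 66],[nat_lit 40,nat_lit 48,nat_lit 50,nat_lit 51,nat_lit 52,nat_lit 54,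
    nat_lit 55,nat_lit 56,nat_lit 57,nat_lit 58,nat_lit 59,nat_lit 66]]]
    (nat_lit 394) [nat_lit 0,nat_lit 1,nat_lit 2,nat_lit 3,nat_lit 4,nat_lit 5,nat_lit 6,nat_lit 7,nat_lit 8,
    nat_lit 9,nat_lit 10,nat_lit 11,nat_lit 12,nat_lit 13,nat_lit 14,nat_lit 15,nat_lit 16,nat_lit 17,nat_lit 18,
    nat_lit 19,nat_lit 20,nat_lit 21,nat_lit 22,nat_lit 23,nat_lit 24,nat_lit 25,nat_lit 26,nat_lit 27,nat_lit 28,
    nat_lit 29,nat_lit 30,nat_lit 31,nat_lit 32,nat_lit 33,nat_lit 34,nat_lit 35,nat_lit 36,nat_lit 37,nat_lit 38,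
    nat_lit 39,nat_lit 40,nat_lit 43,nat_lit 46,nat_lit 47,nat_lit 48,nat_lit 49,nat_lit 50,nat_lit 51,nat_lit 52,
    nat_lit 53,nat_lit 54,nat_lit 55,nat_lit 56,nat_lit 57,nat_lit 58,nat_lit 59,nat_lit 64,nat_lit 65,nat_lit 66,
    nat_lit 71,nat_lit 72,nat_lit 73,nat_lit 74,nat_lit 77,nat_lit 78,nat_lit 79,nat_lit 80,nat_lit 81,nat_lit 82,
    nat_lit 83,nat_lit 84,nat_lit 85,nat_lit 86,nat_lit 88,nat_lit 89,nat_lit 90,nat_lit 93,nat_lit 94,nat_lit 95,
    nat_lit 96,nat_lit 97,nat_lit 100,nat_lit 101,nat_lit 102,nat_lit 103,nat_lit 104,nat_lit 105,nat_lit 106,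
    nat_lit 107,nat_lit 108,nat_lit 109,nat_lit 110,nat_lit 111,nat_lit 173,nat_lit 174,nat_lit 181,nat_lit 182,
    nat_lit 183,nat_lit 184,nat_lit 185,nat_lit 186,nat_lit 242,nat_lit 243,nat_lit 256,nat_lit 257,nat_lit 258,
    nat_lit 259,nat_lit 260,nat_lit 261]
    [[[nat_lit 2,nat_lit 33,nat_lit 35],[],[],[nat_lit 6],[],[],[nat_lit 4,nat_lit 7,nat_lit 11,nat_lit 12],
    [nat_lit 0,nat_lit 1,nat_lit 5,nat_lit 8,nat_lit 9,nat_lit 10,nat_lit 13,nat_lit 14,nat_lit 22,nat_lit 25,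
    nat_lit 26,nat_lit 28,nat_lit 31,nat_lit 32,nat_lit 34],[nat_lit 16,nat_lit 18,nat_lit 19,nat_lit 23,nat_lit 27,
    nat_lit 29],[nat_lit 3,nat_lit 15,nat_lit 17,nat_lit 20,nat_lit 21,nat_lit 24,nat_lit 30],[],[],[nat_lit 36],[]],
    [[],[nat_lit 39,nat_lit 47,nat_lit 53],[],[],[],[],[nat_lit 62,nat_lit 63,nat_lit 65,nat_lit 69,nat_lit 70,
    nat_lit 72],[nat_lit 40,nat_lit 48,nat_lit 50,nat_lit 51,nat_lit 52,nat_lit 54,nat_lit 55,nat_lit 56,nat_lit 57,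
    nat_lit 58,nat_lit 59,nat_lit 66],[nat_lit 37,nat_lit 38,nat_lit 41,nat_lit 44,nat_lit 46,nat_lit 49,nat_lit 60,
    nat_lit 67,nat_lit 71,nat_lit 73],[nat_lit 42,nat_lit 43,nat_lit 45,nat_lit 61,nat_lit 64,nat_lit 68],[],[],[],
    []],[[],[nat_lit 87],[nat_lit 78],[nat_lit 79],[],[],[nat_lit 74],[nat_lit 77,nat_lit 86,nat_lit 88],[nat_lit 80,
    nat_lit 83],[nat_lit 75,nat_lit 76,nat_lit 81,nat_lit 82,nat_lit 84,nat_lit 85],[],[],[nat_lit 89],[nat_lit 90]],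
    [[],[],[],[nat_lit 97],[],[],[nat_lit 91,nat_lit 92,nat_lit 93,nat_lit 94,nat_lit 95,nat_lit 96,nat_lit 98,
    nat_lit 99,nat_lit 100,nat_lit 101,nat_lit 102,nat_lit 103,nat_lit 104,nat_lit 105],[],[],[],[],[],[nat_lit 106],
    [nat_lit 107]],[[],[],[],[],[],[],[],[],[],[],[nat_lit 108],[nat_lit 109],[],[]],[[],[],[],[],[],[],[],[],[],[],
    [nat_lit 110],[nat_lit 111],[],[]],[[nat_lit 114,nat_lit 130,nat_lit 144,nat_lit 153,nat_lit 156,nat_lit 157,
    nat_lit 159,nat_lit 163,nat_lit 166,nat_lit 170,nat_lit 171,nat_lit 179],[nat_lit 116,nat_lit 117,nat_lit 118,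
    nat_lit 119,nat_lit 120,nat_lit 121,nat_lit 129,nat_lit 145,nat_lit 149,nat_lit 158,nat_lit 160,nat_lit 164,
    nat_lit 165,nat_lit 172,nat_lit 180],[],[nat_lit 126,nat_lit 143,nat_lit 155],[],[],[nat_lit 128,nat_lit 131,
    nat_lit 133,nat_lit 135,nat_lit 138,nat_lit 150,nat_lit 154,nat_lit 167,nat_lit 168,nat_lit 175],[nat_lit 115,
    nat_lit 122,nat_lit 124,nat_lit 125,nat_lit 132,nat_lit 134,nat_lit 136,nat_lit 139,nat_lit 140,nat_lit 142,
    nat_lit 146,nat_lit 148,nat_lit 151,nat_lit 169,nat_lit 176],[nat_lit 112,nat_lit 113,nat_lit 123,nat_lit 127,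
    nat_lit 137,nat_lit 141,nat_lit 147,nat_lit 152,nat_lit 161,nat_lit 162,nat_lit 177,nat_lit 178,nat_lit 183,
    nat_lit 185],[nat_lit 184,nat_lit 186],[],[],[nat_lit 173,nat_lit 181],[nat_lit 174,nat_lit 182]],[[nat_lit 195,
    nat_lit 196,nat_lit 197,nat_lit 198,nat_lit 199,nat_lit 200],[nat_lit 213,nat_lit 230,nat_lit 244,nat_lit 255],
    [nat_lit 188,nat_lit 211,nat_lit 214,nat_lit 218,nat_lit 219,nat_lit 226,nat_lit 227,nat_lit 228,nat_lit 237,
    nat_lit 238,nat_lit 239,nat_lit 241,nat_lit 249,nat_lit 254],[nat_lit 220],[],[],[nat_lit 221,nat_lit 245],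
    [nat_lit 193,nat_lit 207,nat_lit 216,nat_lit 222,nat_lit 223,nat_lit 229,nat_lit 231,nat_lit 240,nat_lit 246,
    nat_lit 253],[nat_lit 190,nat_lit 204,nat_lit 224,nat_lit 235,nat_lit 247,nat_lit 250,nat_lit 258,nat_lit 260],
    [nat_lit 187,nat_lit 189,nat_lit 191,nat_lit 192,nat_lit 194,nat_lit 201,nat_lit 202,nat_lit 203,nat_lit 205,
    nat_lit 206,nat_lit 208,nat_lit 209,nat_lit 210,nat_lit 212,nat_lit 215,nat_lit 217,nat_lit 225,nat_lit 232,
    nat_lit 233,nat_lit 234,nat_lit 236,nat_lit 248,nat_lit 251,nat_lit 252,nat_lit 259,nat_lit 261],[],[],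
    [nat_lit 242,nat_lit 256],[nat_lit 243,nat_lit 257]],[[nat_lit 263,nat_lit 266,nat_lit 270,nat_lit 271,
    nat_lit 274,nat_lit 275],[nat_lit 262,nat_lit 264,nat_lit 265,nat_lit 267,nat_lit 272,nat_lit 276,nat_lit 306],[],
    [nat_lit 269,nat_lit 280,nat_lit 285,nat_lit 286,nat_lit 296,nat_lit 297],[],[],[nat_lit 273,nat_lit 278,
    nat_lit 279,nat_lit 281,nat_lit 282,nat_lit 283,nat_lit 284,nat_lit 287,nat_lit 288,nat_lit 289,nat_lit 290,
    nat_lit 291,nat_lit 294,nat_lit 295,nat_lit 298,nat_lit 299,nat_lit 302,nat_lit 303,nat_lit 304,nat_lit 305,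
    nat_lit 307,nat_lit 308,nat_lit 309,nat_lit 310,nat_lit 311,nat_lit 313],[nat_lit 312,nat_lit 314],[nat_lit 268],
    [],[],[],[nat_lit 292,nat_lit 300],[nat_lit 277,nat_lit 293,nat_lit 301]],[[nat_lit 316,nat_lit 319,nat_lit 322,
    nat_lit 324,nat_lit 325,nat_lit 327,nat_lit 328,nat_lit 341,nat_lit 362,nat_lit 363],[nat_lit 317,nat_lit 318,
    nat_lit 320,nat_lit 321,nat_lit 323,nat_lit 326],[],[nat_lit 352,nat_lit 356],[],[],[nat_lit 330,nat_lit 332,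
    nat_lit 338,nat_lit 344,nat_lit 357,nat_lit 358,nat_lit 364,nat_lit 366],[nat_lit 329,nat_lit 331,nat_lit 333,
    nat_lit 339,nat_lit 340,nat_lit 342,nat_lit 345,nat_lit 346,nat_lit 349,nat_lit 350,nat_lit 355,nat_lit 359,
    nat_lit 365,nat_lit 367],[nat_lit 315,nat_lit 337,nat_lit 343,nat_lit 347,nat_lit 348,nat_lit 351,nat_lit 353,
    nat_lit 354],[nat_lit 336],[],[],[nat_lit 334,nat_lit 360],[nat_lit 335,nat_lit 361]],[[],[],[],[],[nat_lit 368],
    [nat_lit 369],[],[],[],[],[],[],[],[]],[[],[],[],[],[nat_lit 370],[nat_lit 371],[],[],[],[],[],[],[],[]],[[],[],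
    [nat_lit 373],[nat_lit 374],[],[],[nat_lit 379,nat_lit 381],[nat_lit 380,nat_lit 382],[nat_lit 375,nat_lit 377],
    [nat_lit 372,nat_lit 376,nat_lit 378],[],[],[],[]],[[],[nat_lit 389],[nat_lit 383],[nat_lit 384],[],[],
    [nat_lit 390,nat_lit 392],[nat_lit 391,nat_lit 393],[nat_lit 385,nat_lit 387],[nat_lit 386,nat_lit 388],[],[],[],
    []]]
    [[[nat_lit 0x2000000000000000000000000000000000000000000000000000000000000000000000000000000000000000000000,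
    nat_lit 0x2000000000000000000000000000000000000000000000000000000000000000000000000000000000000000000000,
    nat_lit 0x2000000000000000000000000000000000000000000000000000000000000000000000000000000000000000000000,
    nat_lit 0x28000000000000000000000000000000000000000000000000000000000000000000000000000000000000000000000,
    nat_lit 0x28000000000000000000000000000000000000000000000000000000000000000000000000000000000000000000000,
    nat_lit 0x28000000000000000000000000000000000000000000000000000000000000000000000000000000000000000000000,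
    nat_lit 0x28000000000000000000000000000000000000000000000000000000000000000000000000000000000000000000000,
    nat_lit 0x28000000000000000000000000000000000000000000000000000000000000000000000000000000000000000000000,
    nat_lit 0x28000000000000000000000000000000000000000000000000000000000000000000000000000000000000000000000],
    [nat_lit 0x28000000000000000000000000000000000000000000000000000000000000000000000000000000000000000000000,
    nat_lit 0x28000000000000000000000000000000000000000000000000000000000000000000000000000000000000000000000,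
    nat_lit 0x28000000000000000000000000000000000000000000000000000000000000000000000000000000000000000000000,
    nat_lit 0x28000000000000000000000000000000000000000000000000000000000000000000000000000000000000000000000,
    nat_lit 0x28000000000000000000000000000000000000000000000000000000000000000000000000000000000000000000000,
    nat_lit 0x28000000000000000000000000000000000000000000000000000000000000000000000000000000000000000000000,
    nat_lit 0,nat_lit 0,nat_lit 0],[nat_lit 0,nat_lit 0,nat_lit 0,nat_lit 0,nat_lit 0,nat_lit 0,nat_lit 0,nat_lit 0,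
    nat_lit 0],
    [nat_lit 0x500000000000000000000000000000000000000000000000000000000000000000000000000000000000000000000000,
    nat_lit 0x500000000000000000000000000000000000000000000000000000000000000000000000000000000000000000000000,
    nat_lit 0x500000000000000000000000000000000000000000000000000000000000000000000000000000000000000000000000,
    nat_lit 0x500000000000000000000000000000000000000000000000000000000000000000000000000000000000000000000000,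
    nat_lit 0x500000000000000000000000000000000000000000000000000000000000000000000000000000000000000000000000,
    nat_lit 0x500000000000000000000000000000000000000000000000000000000000000000000000000000000000000000000000,
    nat_lit 0x500000000000000000000000000000000000000000000000000000000000000000000000000000000000000000000000,
    nat_lit 0x500000000000000000000000000000000000000000000000000000000000000000000000000000000000000000000000,
    nat_lit 0x500000000000000000000000000000000000000000000000000000000000000000000000000000000000000000000000],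
    [nat_lit 0x500000000000000000000000000000000000000000000000000000000000000000000000000000000000000000000000,
    nat_lit 0x800000000000000000000000000,nat_lit 0x800000000000000000000000000,nat_lit 0x800000000000000000000000000,
    nat_lit 0,nat_lit 0,nat_lit 0,nat_lit 0,nat_lit 0],[nat_lit 0,nat_lit 0,nat_lit 0,nat_lit 0,nat_lit 0,nat_lit 0,
    nat_lit 0,nat_lit 0,nat_lit 0],[nat_lit 0,nat_lit 0,nat_lit 0,nat_lit 0,nat_lit 0,nat_lit 0,nat_lit 0,nat_lit 0,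
    nat_lit 0],[nat_lit 0,nat_lit 0,nat_lit 0,nat_lit 0,nat_lit 0,nat_lit 0,nat_lit 0,nat_lit 0,nat_lit 0],[nat_lit 0,
    nat_lit 0,nat_lit 0,nat_lit 0,nat_lit 0,nat_lit 0,nat_lit 0,nat_lit 0,nat_lit 0]],[[nat_lit 0,nat_lit 0,nat_lit 0,
    nat_lit 0,nat_lit 0,nat_lit 0,nat_lit 0,nat_lit 0,nat_lit 0xa00000004],[nat_lit 0,nat_lit 0,nat_lit 0,nat_lit 0,
    nat_lit 0,nat_lit 0,nat_lit 0,nat_lit 0,nat_lit 0x4000000000000000000000000000],
    [nat_lit 0x4000000000000000000000000000,nat_lit 0x4000000000000000000000000000,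
    nat_lit 0x4000000000000000000000000000,nat_lit 0x4000000000000000000000000000,
    nat_lit 0x4000000000000000000000000000,nat_lit 0,nat_lit 0,nat_lit 0,nat_lit 0x8000000000000000000000000000],
    [nat_lit 0x20000000000000000000000,nat_lit 0x3618000000000000000000,
    nat_lit 0x10004000000000000000000000000000000000000000000000000000000000000,
    nat_lit 0x281900170202976e05a80000000000000000000000000000000000000000000000,nat_lit 0,nat_lit 0,nat_lit 0,
    nat_lit 0,nat_lit 0],[nat_lit 0,nat_lit 0,nat_lit 0,nat_lit 0,nat_lit 0,nat_lit 0,nat_lit 0,nat_lit 0,nat_lit 0],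
    [nat_lit 0,nat_lit 0,nat_lit 0,nat_lit 0,nat_lit 0,nat_lit 0,nat_lit 0,nat_lit 0,nat_lit 0],[nat_lit 0,nat_lit 0,
    nat_lit 0,nat_lit 0,nat_lit 0,nat_lit 0,nat_lit 0,nat_lit 0,nat_lit 0],[nat_lit 0,nat_lit 0,nat_lit 0,nat_lit 0,
    nat_lit 0,nat_lit 0x1000000000000000000000000000,nat_lit 0x1000000000000000000000000000,
    nat_lit 0x1000000000000000000000000000,nat_lit 0x1000000000000000000000000000],
    [nat_lit 0x1000000000000000000000000000,nat_lit 0x1000000000000000000000000000,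
    nat_lit 0x1000000000000000000000000000,nat_lit 0x1000000000000000000000000000,
    nat_lit 0x1000000000000000000000000000,nat_lit 0x1000000000000000000000000000,
    nat_lit 0x1000000000000000000000000000,nat_lit 0x1000000000000000000000000000,
    nat_lit 0x1000000000000000000000000000]],[[nat_lit 0x1000000000000000000000000000,
    nat_lit 0x1000000000000000000000000000,nat_lit 0x1000000000000000000000000000,
    nat_lit 0x1000000000000000000000000000,nat_lit 0x1000000000000000000000000000,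
    nat_lit 0x1000000000000000000000000000,nat_lit 0x1000000000000000000000000000,
    nat_lit 0x1000000000000000000000000000,nat_lit 0x1000000000000000000000000000],
    [nat_lit 0x1000000000000000000000000000,nat_lit 0x1000000000000000000000000000,
    nat_lit 0x1000000000000000000000000000,nat_lit 0x1000000000000000000000000000,nat_lit 0,nat_lit 0,nat_lit 0,
    nat_lit 0,nat_lit 0],[nat_lit 0,nat_lit 0,nat_lit 0,nat_lit 0,nat_lit 0,nat_lit 0x2000000000000000000000000000,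
    nat_lit 0x2000000000000000000000000000,nat_lit 0,nat_lit 0],[nat_lit 0,nat_lit 0,nat_lit 0,nat_lit 0,nat_lit 0,
    nat_lit 0,nat_lit 0,nat_lit 0,nat_lit 0],[nat_lit 0,nat_lit 0,nat_lit 0,nat_lit 0,
    nat_lit 0x2000000800000000000000000000000000000000000000000000000000000000000000000000000000000000000,
    nat_lit 0x2000000800000000000000000000000000000000000000000000000000000000000000000000000000000000000,
    nat_lit 0x2000000800000000000000000000000000000000000000000000000000000000000000000000000000000000000,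
    nat_lit 0x2000000800000000000000000000000000000000000000000000000000000000000000000000000000000000000,
    nat_lit 0x2000000800000000000000000000000000000000000000000000000000000000000000000000000000000000000],
    [nat_lit 0x2000000800000000000000000000000000000000000000000000000000000000000000000000000000000000000,
    nat_lit 0x2000000800000000000000000000000000000000000000000000000000000000000000000000000000000000000,
    nat_lit 0x2000000800000000000000000000000000000000000000000000000000000000000000000000000000000000000,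
    nat_lit 0x2000000800000000000000000000000000000000000000000000000000000000000000000000000000000000000,
    nat_lit 0x2000000800000000000000000000000000000000000000000000000000000000000000000000000000000000000,
    nat_lit 0x2000000800000000000000000000000000000000000000000000000000000000000000000000000000000000000,
    nat_lit 0x2000000800000000000000000000000000000000000000000000000000000000000000000000000000000000000,nat_lit 0,
    nat_lit 0],[nat_lit 0,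
    nat_lit 0x69882000008000000000000000000000000000000000000000000000000000000000000000000000000000000,
    nat_lit 0x69882000008000000000000000000000000000000000000000000000000000000000000000000000000000000,
    nat_lit 0x69882000008000000000000000000000000000000000000000000000000000000000000000000000000000000,
    nat_lit 0x69882000008000000000000000000000000000000000000000000000000000000000000000000000000000000,
    nat_lit 0x69882000008000000000000000000000000000000000000000000000000000000000000000000000000000000,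
    nat_lit 0x69882000008000000000000000000000000000000000000000000000000000000000000000000000000000000,
    nat_lit 0x69882000008000000000000000000000000000000000000000000000000000000000000000000000000000000,
    nat_lit 0x69882000008000000000000000000000000000000000000000000000000000000000000000000000000000000],
    [nat_lit 0x69882000008000000000000000000000000000000000000000000000000000000000000000000000000000000,
    nat_lit 0x69882000008000000000000000000000000000000000000000000000000000000000000000000000000000000,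
    nat_lit 0x69882000008000000000000000000000000000000000000000000000000000000000000000000000000000000,
    nat_lit 0x69882000008000000000000000000000000000000000000000000000000000000000000000000000000000000,
    nat_lit 0x69882000008000000000000000000000000000000000000000000000000000000000000000000000000000000,
    nat_lit 0x69882000008000000000000000000000000000000000000000000000000000000000000000000000000000000,
    nat_lit 0x69882000008000000000000000000000000000000000000000000000000000000000000000000000000000000,nat_lit 0,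
    nat_lit 0],[nat_lit 0,nat_lit 0,nat_lit 0,nat_lit 0,nat_lit 0,nat_lit 0,nat_lit 0,nat_lit 0,nat_lit 0]],
    [[nat_lit 0,
    nat_lit 0xa08866582a0000000000000000000000000000000000000000000000000000000000000000000000000000000000,
    nat_lit 0xa08866582a0000000000000000000000000000000000000000000000000000000000000000000000000000000000,
    nat_lit 0xa08866582a0000000000000000000000000000000000000000000000000000000000000000000000000000000000,
    nat_lit 0xa08866582a0000000000000000000000000000000000000000000000000000000000000000000000000000000000,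
    nat_lit 0xa08866582a0000000000000000000000000000000000000000000000000000000000000000000000000000000000,
    nat_lit 0xa08866582a0000000000000000000000000000000000000000000000000000000000000000000000000000000000,
    nat_lit 0xa08866582a0000000000000000000000000000000000000000000000000000000000000000000000000000000000,
    nat_lit 0xa08866582a0000000000000000000000000000000000000000000000000000000000000000000000000000000000],
    [nat_lit 0xa08866582a0000000000000000000000000000000000000000000000000000000000000000000000000000000000,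
    nat_lit 0xa08866582a0000000000000000000000000000000000000000000000000000000000000000000000000000000000,
    nat_lit 0xa08866582a0000000000000000000000000000000000000000000000000000000000000000000000000000000000,
    nat_lit 0xa08866582a0000000000000000000000000000000000000000000000000000000000000000000000000000000000,
    nat_lit 0xa08866582a0000000000000000000000000000000000000000000000000000000000000000000000000000000000,
    nat_lit 0xa08866582a0000000000000000000000000000000000000000000000000000000000000000000000000000000000,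
    nat_lit 0xc00002001b490000000000000000000000000000000000000000000000000000000000000000000000000000000,
    nat_lit 0xc00002001b490000000000000000000000000000000000000000000000000000000000000000000000000000000,nat_lit 0],
    [nat_lit 0,nat_lit 0,nat_lit 0,nat_lit 0,nat_lit 0,nat_lit 0,nat_lit 0,
    nat_lit 0x4040000000000000000000000000000000000000000000,
    nat_lit 0x4040000000000000000000000000000000000000000000],
    [nat_lit 0x4040000000000000000000000000000000000000000000,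
    nat_lit 0x4040000000000000000000000000000000000000000000,nat_lit 0x4040000000000000000000000000000000000000000000,
    nat_lit 0x4040000000000000000000000000000000000000000000,nat_lit 0x4040000000000000000000000000000000000000000000,
    nat_lit 0x4040000000000000000000000000000000000000000000,nat_lit 0x4040000000000000000000000000000000000000000000,
    nat_lit 0x4040000000000000000000000000000000000000000000,nat_lit 0],[nat_lit 0,
    nat_lit 0x28600060108220088030000000000000000000000000000,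
    nat_lit 0x28600060108220088030000000000000000000000000000,
    nat_lit 0x28600060108220088030000000000000000000000000000,
    nat_lit 0x28600060108220088030000000000000000000000000000,
    nat_lit 0x28600060108220088030000000000000000000000000000,
    nat_lit 0x28600060108220088030000000000000000000000000000,
    nat_lit 0x28600060108220088030000000000000000000000000000,
    nat_lit 0x28600060108220088030000000000000000000000000000],
    [nat_lit 0x28600060108220088030000000000000000000000000000,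
    nat_lit 0x28600060108220088030000000000000000000000000000,
    nat_lit 0x28600060108220088030000000000000000000000000000,
    nat_lit 0x28600060108220088030000000000000000000000000000,
    nat_lit 0x28600060108220088030000000000000000000000000000,
    nat_lit 0x28600060108220088030000000000000000000000000000,nat_lit 0,nat_lit 0,nat_lit 0],[nat_lit 0,nat_lit 0,
    nat_lit 0,nat_lit 0,nat_lit 0,nat_lit 0,nat_lit 0x102000094595034080000000000000000000000000000,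
    nat_lit 0x102000094595034080000000000000000000000000000,nat_lit 0x102000094595034080000000000000000000000000000],
    [nat_lit 0x102000094595034080000000000000000000000000000,nat_lit 0x102000094595034080000000000000000000000000000,
    nat_lit 0x102000094595034080000000000000000000000000000,nat_lit 0x102000094595034080000000000000000000000000000,
    nat_lit 0x102000094595034080000000000000000000000000000,nat_lit 0x80c48b201000400040000000000000000000000000000,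
    nat_lit 0x80c48b201000400040000000000000000000000000000,nat_lit 0,nat_lit 0],[nat_lit 0,nat_lit 0,nat_lit 0,
    nat_lit 0,nat_lit 0,nat_lit 0,nat_lit 0,nat_lit 0,nat_lit 0]],[[nat_lit 0,nat_lit 0,nat_lit 0,nat_lit 0,
    nat_lit 0x400000000000000000000000000000000000000000000000000000000000000000000000000000000000000000000,
    nat_lit 0x400000000000000000000000000000000000000000000000000000000000000000000000000000000000000000000,
    nat_lit 0x400000000000000000000000000000000000000000000000000000000000000000000000000000000000000000000,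
    nat_lit 0x400000000000000000000000000000000000000000000000000000000000000000000000000000000000000000000,
    nat_lit 0x400000000000000000000000000000000000000000000000000000000000000000000000000000000000000000000],
    [nat_lit 0x400000000000000000000000000000000000000000000000000000000000000000000000000000000000000000000,
    nat_lit 0,nat_lit 0,
    nat_lit 0x800000000000000000000000000000000000000000000000000000000000000000000000000000000000000000000,
    nat_lit 0x800000000000000000000000000000000000000000000000000000000000000000000000000000000000000000000,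
    nat_lit 0x800000000000000000000000000000000000000000000000000000000000000000000000000000000000000000000,
    nat_lit 0x800000000000000000000000000000000000000000000000000000000000000000000000000000000000000000000,
    nat_lit 0x800000000000000000000000000000000000000000000000000000000000000000000000000000000000000000000,
    nat_lit 0x800000000000000000000000000000000000000000000000000000000000000000000000000000000000000000000],
    [nat_lit 0x800000000000000000000000000000000000000000000000000000000000000000000000000000000000000000000,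
    nat_lit 0x800000000000000000000000000000000000000000000000000000000000000000000000000000000000000000000,
    nat_lit 0x800000000000000000000000000000000000000000000000000000000000000000000000000000000000000000000,
    nat_lit 0x800000000000000000000000000000000000000000000000000000000000000000000000000000000000000000000,
    nat_lit 0x800000000000000000000000000000000000000000000000000000000000000000000000000000000000000000000,
    nat_lit 0x800000000000000000000000000000000000000000000000000000000000000000000000000000000000000000000,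
    nat_lit 0x800000000000000000000000000000000000000000000000000000000000000000000000000000000000000000000,
    nat_lit 0x800000000000000000000000000000000000000000000000000000000000000000000000000000000000000000000,
    nat_lit 0x800000000000000000000000000000000000000000000000000000000000000000000000000000000000000000000],
    [nat_lit 0x800000000000000000000000000000000000000000000000000000000000000000000000000000000000000000000,
    nat_lit 0x800000000000000000000000000000000000000000000000000000000000000000000000000000000000000000000,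
    nat_lit 0x800000000000000000000000000000000000000000000000000000000000000000000000000000000000000000000,
    nat_lit 0x800000000000000000000000000000000000000000000000000000000000000000000000000000000000000000000,
    nat_lit 0x800000000000000000000000000000000000000000000000000000000000000000000000000000000000000000000,
    nat_lit 0x800000000000000000000000000000000000000000000000000000000000000000000000000000000000000000000,
    nat_lit 0x800000000000000000000000000000000000000000000000000000000000000000000000000000000000000000000,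
    nat_lit 0x800000000000000000000000000000000000000000000000000000000000000000000000000000000000000000000,
    nat_lit 0x800000000000000000000000000000000000000000000000000000000000000000000000000000000000000000000],
    [nat_lit 0x800000000000000000000000000000000000000000000000000000000000000000000000000000000000000000000,
    nat_lit 0x800000000000000000000000000000000000000000000000000000000000000000000000000000000000000000000,nat_lit 0,
    nat_lit 0,nat_lit 0,nat_lit 0,nat_lit 0,nat_lit 0,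
    nat_lit 0x2fbcccf9ec200000000000000000000000000000000000000000000000000000000000000000000],
    [nat_lit 0x300610020000000000000000000000000000000000000000000000000000000000000000000,
    nat_lit 0x140000000000000000000000000000000000000000000000000000000000000000000000000000000000000000000000000,
    nat_lit 0x1000000000000000000000000000000000000000000000000000000000000000000000000000000000000000000000000,
    nat_lit 0,nat_lit 0x100000000000000000000000000000000000000000000000000000000000000000000000000000000000000000000,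
    nat_lit 0,nat_lit 0,nat_lit 0,
    nat_lit 0x200000000000000000000000000000000000000000000000000000000000000000000000000000000000000000000],
    [nat_lit 0x200000000000000000000000000000000000000000000000000000000000000000000000000000000000000000000,
    nat_lit 0,nat_lit 0,nat_lit 0,nat_lit 0,nat_lit 0,nat_lit 0x20808000000000,nat_lit 0x2881002526000000000,
    nat_lit 0x2881002526000000000],[nat_lit 0,nat_lit 0,nat_lit 0,nat_lit 0,nat_lit 0,nat_lit 0x40fdd010000000000,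
    nat_lit 0x40fdd010000000000]]]
    [[[[nat_lit 0x2000000000000000000000000000000000000000000000000000000000000000000000000000000000000000000000,
    nat_lit 0,nat_lit 0,nat_lit 0,nat_lit 0,nat_lit 0,
    nat_lit 0x8000000000000000000000000000000000000000000000000000000000000000000000000000000000000000000000,
    nat_lit 0x8000000000000000000000000000000000000000000000000000000000000000000000000000000000000000000000,
    nat_lit 0x8000000000000000000000000000000000000000000000000000000000000000000000000000000000000000000000],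
    [nat_lit 0x8000000000000000000000000000000000000000000000000000000000000000000000000000000000000000000000,
    nat_lit 0x8000000000000000000000000000000000000000000000000000000000000000000000000000000000000000000000,
    nat_lit 0x8000000000000000000000000000000000000000000000000000000000000000000000000000000000000000000000,
    nat_lit 0x8000000000000000000000000000000000000000000000000000000000000000000000000000000000000000000000,
    nat_lit 0x8000000000000000000000000000000000000000000000000000000000000000000000000000000000000000000000,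
    nat_lit 0,nat_lit 0,nat_lit 0,nat_lit 0],[nat_lit 0,nat_lit 0,nat_lit 0,nat_lit 0,nat_lit 0,nat_lit 0,nat_lit 0,
    nat_lit 0,nat_lit 0],[nat_lit 0,nat_lit 0,nat_lit 0,nat_lit 0,nat_lit 0,nat_lit 0,nat_lit 0,
    nat_lit 0x400000000000000000000000000000000000000000000000000000000000000000000000000000000000000000000000,
    nat_lit 0],[nat_lit 0,nat_lit 0x800000000000000000000000000,nat_lit 0,nat_lit 0,nat_lit 0,nat_lit 0,nat_lit 0,
    nat_lit 0,nat_lit 0],[nat_lit 0,nat_lit 0,nat_lit 0,nat_lit 0,nat_lit 0,nat_lit 0,nat_lit 0,nat_lit 0,nat_lit 0],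
    [nat_lit 0,nat_lit 0,nat_lit 0,nat_lit 0,nat_lit 0,nat_lit 0,nat_lit 0,nat_lit 0,nat_lit 0],[nat_lit 0,nat_lit 0,
    nat_lit 0,nat_lit 0,nat_lit 0,nat_lit 0,nat_lit 0,nat_lit 0,nat_lit 0],[nat_lit 0,nat_lit 0,nat_lit 0,nat_lit 0,
    nat_lit 0,nat_lit 0,nat_lit 0,nat_lit 0,nat_lit 0]],[[nat_lit 0,nat_lit 0,nat_lit 0,nat_lit 0,nat_lit 0,nat_lit 0,
    nat_lit 0,nat_lit 0,nat_lit 0x800000000],[nat_lit 0,nat_lit 0,nat_lit 0,nat_lit 0,nat_lit 0,nat_lit 0,nat_lit 0,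
    nat_lit 0,nat_lit 0],[nat_lit 0,nat_lit 0,nat_lit 0,nat_lit 0,nat_lit 0,nat_lit 0,nat_lit 0,nat_lit 0,
    nat_lit 0x8000000000000000000000000000],[nat_lit 0x20000000000000000000000,nat_lit 0,nat_lit 0,
    nat_lit 0x201000070002974e05200000000000000000000000000000000000000000000000,nat_lit 0,nat_lit 0,nat_lit 0,
    nat_lit 0,nat_lit 0],[nat_lit 0,nat_lit 0,nat_lit 0,nat_lit 0,nat_lit 0,nat_lit 0,nat_lit 0,nat_lit 0,nat_lit 0],
    [nat_lit 0,nat_lit 0,nat_lit 0,nat_lit 0,nat_lit 0,nat_lit 0,nat_lit 0,nat_lit 0,nat_lit 0],[nat_lit 0,nat_lit 0,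
    nat_lit 0,nat_lit 0,nat_lit 0,nat_lit 0,nat_lit 0,nat_lit 0,nat_lit 0],[nat_lit 0,nat_lit 0,nat_lit 0,nat_lit 0,
    nat_lit 0,nat_lit 0x1000000000000000000000000000,nat_lit 0,nat_lit 0,nat_lit 0x1000000000000000000000000000],
    [nat_lit 0x1000000000000000000000000000,nat_lit 0x1000000000000000000000000000,
    nat_lit 0x1000000000000000000000000000,nat_lit 0x1000000000000000000000000000,
    nat_lit 0x1000000000000000000000000000,nat_lit 0x1000000000000000000000000000,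
    nat_lit 0x1000000000000000000000000000,nat_lit 0x1000000000000000000000000000,nat_lit 0]],[[nat_lit 0,nat_lit 0,
    nat_lit 0,nat_lit 0,nat_lit 0x1000000000000000000000000000,nat_lit 0x1000000000000000000000000000,
    nat_lit 0x1000000000000000000000000000,nat_lit 0x1000000000000000000000000000,
    nat_lit 0x1000000000000000000000000000],[nat_lit 0x1000000000000000000000000000,
    nat_lit 0x1000000000000000000000000000,nat_lit 0x1000000000000000000000000000,nat_lit 0,nat_lit 0,nat_lit 0,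
    nat_lit 0,nat_lit 0,nat_lit 0],[nat_lit 0,nat_lit 0,nat_lit 0,nat_lit 0,nat_lit 0,nat_lit 0,nat_lit 0,nat_lit 0,
    nat_lit 0],[nat_lit 0,nat_lit 0,nat_lit 0,nat_lit 0,nat_lit 0,nat_lit 0,nat_lit 0,nat_lit 0,nat_lit 0],[nat_lit 0,
    nat_lit 0,nat_lit 0,nat_lit 0,nat_lit 0,nat_lit 0,nat_lit 0,nat_lit 0,nat_lit 0],[nat_lit 0,nat_lit 0,nat_lit 0,
    nat_lit 0,nat_lit 0,nat_lit 0,nat_lit 0,nat_lit 0,nat_lit 0],[nat_lit 0,nat_lit 0,nat_lit 0,nat_lit 0,nat_lit 0,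
    nat_lit 0,nat_lit 0,nat_lit 0,nat_lit 0],[nat_lit 0,nat_lit 0,nat_lit 0,nat_lit 0,
    nat_lit 0x69082000008000000000000000000000000000000000000000000000000000000000000000000000000000000,
    nat_lit 0x69082000008000000000000000000000000000000000000000000000000000000000000000000000000000000,nat_lit 0,
    nat_lit 0,nat_lit 0],[nat_lit 0,nat_lit 0,nat_lit 0,nat_lit 0,nat_lit 0,nat_lit 0,nat_lit 0,nat_lit 0,nat_lit 0]],
    [[nat_lit 0,nat_lit 0,nat_lit 0,nat_lit 0,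
    nat_lit 0x2410000000000000000000000000000000000000000000000000000000000000000000000000000000000000,
    nat_lit 0x2410000000000000000000000000000000000000000000000000000000000000000000000000000000000000,
    nat_lit 0x2410000000000000000000000000000000000000000000000000000000000000000000000000000000000000,
    nat_lit 0x2410000000000000000000000000000000000000000000000000000000000000000000000000000000000000,
    nat_lit 0x2410000000000000000000000000000000000000000000000000000000000000000000000000000000000000],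
    [nat_lit 0x2410000000000000000000000000000000000000000000000000000000000000000000000000000000000000,
    nat_lit 0x2410000000000000000000000000000000000000000000000000000000000000000000000000000000000000,
    nat_lit 0x2410000000000000000000000000000000000000000000000000000000000000000000000000000000000000,
    nat_lit 0x2410000000000000000000000000000000000000000000000000000000000000000000000000000000000000,nat_lit 0,
    nat_lit 0,nat_lit 0,nat_lit 0,nat_lit 0],[nat_lit 0,nat_lit 0,nat_lit 0,nat_lit 0,nat_lit 0,nat_lit 0,nat_lit 0,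
    nat_lit 0,nat_lit 0],[nat_lit 0,nat_lit 0,nat_lit 0,nat_lit 0,nat_lit 0,nat_lit 0,nat_lit 0,nat_lit 0,nat_lit 0],
    [nat_lit 0,nat_lit 0,nat_lit 0,nat_lit 0,nat_lit 0,nat_lit 0,nat_lit 0,nat_lit 0,
    nat_lit 0x600060100020088020000000000000000000000000000],[nat_lit 0x600060100020088020000000000000000000000000000,
    nat_lit 0x600060100020088020000000000000000000000000000,nat_lit 0,nat_lit 0,nat_lit 0,nat_lit 0,nat_lit 0,
    nat_lit 0,nat_lit 0],[nat_lit 0,nat_lit 0,nat_lit 0,nat_lit 0,nat_lit 0,nat_lit 0,nat_lit 0,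
    nat_lit 0x100000080000000000000000000000000000,nat_lit 0x100000080000000000000000000000000000],
    [nat_lit 0x100000080000000000000000000000000000,nat_lit 0x100000080000000000000000000000000000,
    nat_lit 0x100000080000000000000000000000000000,nat_lit 0x100000080000000000000000000000000000,
    nat_lit 0x100000080000000000000000000000000000,nat_lit 0,nat_lit 0,nat_lit 0,nat_lit 0],[nat_lit 0,nat_lit 0,
    nat_lit 0,nat_lit 0,nat_lit 0,nat_lit 0,nat_lit 0,nat_lit 0,nat_lit 0]],[[nat_lit 0,nat_lit 0,nat_lit 0,nat_lit 0,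
    nat_lit 0,nat_lit 0,nat_lit 0,nat_lit 0,nat_lit 0],[nat_lit 0,nat_lit 0,nat_lit 0,nat_lit 0,nat_lit 0,nat_lit 0,
    nat_lit 0,nat_lit 0,nat_lit 0],
    [nat_lit 0x800000000000000000000000000000000000000000000000000000000000000000000000000000000000000000000,
    nat_lit 0x800000000000000000000000000000000000000000000000000000000000000000000000000000000000000000000,
    nat_lit 0x800000000000000000000000000000000000000000000000000000000000000000000000000000000000000000000,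
    nat_lit 0x800000000000000000000000000000000000000000000000000000000000000000000000000000000000000000000,
    nat_lit 0x800000000000000000000000000000000000000000000000000000000000000000000000000000000000000000000,
    nat_lit 0x800000000000000000000000000000000000000000000000000000000000000000000000000000000000000000000,
    nat_lit 0x800000000000000000000000000000000000000000000000000000000000000000000000000000000000000000000,
    nat_lit 0x800000000000000000000000000000000000000000000000000000000000000000000000000000000000000000000,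
    nat_lit 0],
    [nat_lit 0x800000000000000000000000000000000000000000000000000000000000000000000000000000000000000000000,
    nat_lit 0x800000000000000000000000000000000000000000000000000000000000000000000000000000000000000000000,nat_lit 0,
    nat_lit 0,nat_lit 0,nat_lit 0,
    nat_lit 0x800000000000000000000000000000000000000000000000000000000000000000000000000000000000000000000,
    nat_lit 0x800000000000000000000000000000000000000000000000000000000000000000000000000000000000000000000,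
    nat_lit 0x800000000000000000000000000000000000000000000000000000000000000000000000000000000000000000000],
    [nat_lit 0x800000000000000000000000000000000000000000000000000000000000000000000000000000000000000000000,
    nat_lit 0,nat_lit 0,nat_lit 0,nat_lit 0,nat_lit 0,nat_lit 0,nat_lit 0,
    nat_lit 0x23884c5868000000000000000000000000000000000000000000000000000000000000000000000],[nat_lit 0,nat_lit 0,
    nat_lit 0x1000000000000000000000000000000000000000000000000000000000000000000000000000000000000000000000000,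
    nat_lit 0,nat_lit 0x100000000000000000000000000000000000000000000000000000000000000000000000000000000000000000000,
    nat_lit 0,nat_lit 0,nat_lit 0,nat_lit 0],[nat_lit 0,nat_lit 0,nat_lit 0,nat_lit 0,nat_lit 0,nat_lit 0,
    nat_lit 0x20000000000000,nat_lit 0x2000000000000,nat_lit 0],[nat_lit 0,nat_lit 0,nat_lit 0,nat_lit 0,nat_lit 0,
    nat_lit 0,nat_lit 0xb99010000000000]]]]
    (nat_lit 1) (nat_lit 1) (nat_lit 8)
    [[nat_lit 2,nat_lit 3,nat_lit 4,nat_lit 0x10012,nat_lit 0x1002,nat_lit 0x11002,nat_lit 0x10002,nat_lit 17,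
    nat_lit 0x1011,nat_lit 0x10011,nat_lit 0x10111,nat_lit 0x11011,nat_lit 257,nat_lit 513,nat_lit 0x10101,
    nat_lit 0x11101,nat_lit 0x1101,nat_lit 0x1001,nat_lit 0x2001,nat_lit 0x12001,nat_lit 0x11001,nat_lit 0x22001,
    nat_lit 0x21001,nat_lit 0x111001,nat_lit 0x101001,nat_lit 0x10001,nat_lit 0x20001,nat_lit 0x110001,
    nat_lit 0x100001],[nat_lit 32,nat_lit 288,nat_lit 0x10120,nat_lit 0x1020,nat_lit 0x11020,nat_lit 0x21020,
    nat_lit 0x10020,nat_lit 0x20020,nat_lit 0x110020,nat_lit 0x20120,nat_lit 0x31020,nat_lit 0x30020,nat_lit 0x120020,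
    nat_lit 272,nat_lit 528,nat_lit 0x10310,nat_lit 0x10210,nat_lit 784,nat_lit 0x21210,nat_lit 0x20210,
    nat_lit 0x1110,nat_lit 0x11110,nat_lit 0x21110,nat_lit 0x10110,nat_lit 0x20110,nat_lit 0x21120,nat_lit 0x1010,
    nat_lit 0x11210,nat_lit 0x2010,nat_lit 0x12010,nat_lit 0x22010,nat_lit 0x11010,nat_lit 0x32010,nat_lit 0x21010,
    nat_lit 0x31010,nat_lit 0x111010,nat_lit 0x121010,nat_lit 0x101010,nat_lit 0x1001010,nat_lit 0x12020,
    nat_lit 0x1210,nat_lit 0x2110,nat_lit 0x12110,nat_lit 0x22110,nat_lit 0x22020,nat_lit 0x23010,nat_lit 0x33010,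
    nat_lit 0x112010,nat_lit 0x122010,nat_lit 0x102010,nat_lit 0x211010,nat_lit 0x10010,nat_lit 0x20010,
    nat_lit 0x30010,nat_lit 0x110010,nat_lit 0x120010,nat_lit 0x100010,nat_lit 0x210010,nat_lit 0x1010010],
    [nat_lit 512,nat_lit 768,nat_lit 0x400,nat_lit 0x1300,nat_lit 0x11300,nat_lit 0x10300,nat_lit 0x1200,
    nat_lit 0x2200,nat_lit 0x12200,nat_lit 0x11200,nat_lit 0x22200,nat_lit 0x21200,nat_lit 0x10200,nat_lit 0x20200,
    nat_lit 0x1100,nat_lit 0x2100,nat_lit 0x12100,nat_lit 0x23100,nat_lit 0x22100,nat_lit 0x13100,nat_lit 0x11100,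
    nat_lit 0x33100,nat_lit 0x32100,nat_lit 0x21100,nat_lit 0x31100,nat_lit 0x111100,nat_lit 0x112100,
    nat_lit 0x122100,nat_lit 0x121100,nat_lit 0x101100,nat_lit 0x102100,nat_lit 0x1001100,nat_lit 0x10100,
    nat_lit 0x20100,nat_lit 0x30100,nat_lit 0x110100,nat_lit 0x120100,nat_lit 0x1000100],[nat_lit 0x2000,
    nat_lit 0x3000,nat_lit 0x13000,nat_lit 0x12000,nat_lit 0x23000,nat_lit 0x22000,nat_lit 0x112000,nat_lit 0x102000,
    nat_lit 0x11000,nat_lit 0x33000,nat_lit 0x32000,nat_lit 0x122000,nat_lit 0x1012000,nat_lit 0x113000,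
    nat_lit 0x21000,nat_lit 0x31000,nat_lit 0x121000,nat_lit 0x111000,nat_lit 0x211000,nat_lit 0x101000,
    nat_lit 0x201000,nat_lit 0x202000,nat_lit 0x1001000,nat_lit 0x1002000,nat_lit 0x1101000],[nat_lit 0x20000,
    nat_lit 0x30000,nat_lit 0x120000,nat_lit 0x110000,nat_lit 0x210000,nat_lit 0x1010000],[nat_lit 0x200000,
    nat_lit 0x1100000],[]]
    [.c (nat_lit 1) (nat_lit 2),.c (nat_lit 0) (nat_lit 0xe7398c5),.c (nat_lit 0) (nat_lit 0xa529083),
    .c (nat_lit 2) (nat_lit 0x4210c62),.c (nat_lit 0) (nat_lit 0xe7188c5),.c (nat_lit 1) (nat_lit 0x4200062),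
    .c (nat_lit 0) (nat_lit 0x6318843),.c (nat_lit 0) (nat_lit 0x200803),.c (nat_lit 1) (nat_lit 0x318002),
    .c (nat_lit 2) (nat_lit 0x4410062),.r (nat_lit 0x1657) (nat_lit 7) [nat_lit 0x100000001,nat_lit 0xc0300861,
    nat_lit 0xc0320861,nat_lit 0x88200c41],.c (nat_lit 2) (nat_lit 0x4200062),
    .r (nat_lit 0x196a) (nat_lit 10) [nat_lit 0x4000001,nat_lit 0x84000c41,nat_lit 0xc6000801],
    .r (nat_lit 0x1847) (nat_lit 10) [nat_lit 0x88010c01,nat_lit 0xc6000801,nat_lit 0x84000c41,nat_lit 0xc6018801],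
    .r (nat_lit 0x174d) (nat_lit 5) [nat_lit 0x4200001,nat_lit 0x6300861],.c (nat_lit 3) (nat_lit 0x4200062),
    .r (nat_lit 0x1b4a) (nat_lit 6) [nat_lit 0xc6000861,nat_lit 0x80000001,nat_lit 0x4000001],
    .c (nat_lit 1) (nat_lit 0x18802),.c (nat_lit 0) (nat_lit 0xe710cc5),.c (nat_lit 1) (nat_lit 0x4218862),
    .c (nat_lit 0) (nat_lit 0x6300043),.c (nat_lit 2) (nat_lit 0x86008a2),.c (nat_lit 2) (nat_lit 0x88108a2),
    .c (nat_lit 3) (nat_lit 0x300043),.r (nat_lit 0x1657) (nat_lit 7) [nat_lit 0x100000001,nat_lit 0xc0318041,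
    nat_lit 0xc0310041,nat_lit 0x88210061],.c (nat_lit 0) (nat_lit 0x6318843),.c (nat_lit 2) (nat_lit 0x8a208a2),
    .r (nat_lit 0x174e) (nat_lit 1) [nat_lit 0x4010001,nat_lit 0x6300861],
    .r (nat_lit 8) (nat_lit 5) [nat_lit 0x4010001,nat_lit 0x218041],.c (nat_lit 2) (nat_lit 2),
    .r (nat_lit 0x1657) (nat_lit 7) [nat_lit 0x100000001,nat_lit 0x8000061,nat_lit 0x8020061,nat_lit 65],
    .r (nat_lit 0xb57) (nat_lit 4) [nat_lit 0x4000001,nat_lit 0xe318861,nat_lit 0xce318801,nat_lit 0x4200001,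
    nat_lit 0x8c210c41],.c (nat_lit 2) (nat_lit 0x318002),.r (nat_lit 32) (nat_lit 10) [nat_lit 0x6300041,
    nat_lit 0x80000001],.r (nat_lit 0x1654) (nat_lit 4) [nat_lit 0x140329061,nat_lit 0x280000001,nat_lit 0x1d6239841,
    nat_lit 0x114221441],.r (nat_lit 0x174b) (nat_lit 1) [nat_lit 0x80000001,nat_lit 0x4000001,nat_lit 0xca018841],
    .r (nat_lit 32) (nat_lit 10) [nat_lit 66,nat_lit 0x80000001],.r (nat_lit 0xb58) (nat_lit 4) [nat_lit 0x4000001,
    nat_lit 0x8c210c41,nat_lit 0xce318801,nat_lit 0x4200001,nat_lit 0xe318861],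
    .r (nat_lit 0xb59) (nat_lit 4) [nat_lit 0x4000001,nat_lit 0xda529061,nat_lit 0xce318801,nat_lit 0x4200001,
    nat_lit 0x118421441],.r (nat_lit 0xb5a) (nat_lit 0) [nat_lit 0x380000001,nat_lit 0x1c6539861,nat_lit 0x1c6541861,
    nat_lit 0x1a0431c41,nat_lit 0x1c6a39861],.r (nat_lit 0xb5b) (nat_lit 0) [nat_lit 0x400000001,nat_lit 0x1c6739861,
    nat_lit 0x1c6751861,nat_lit 0x1a4631c41,nat_lit 0x1c6a39861],.r (nat_lit 0xb5c) (nat_lit 4) [nat_lit 0x4000001,
    nat_lit 0x118421441,nat_lit 0xce318801,nat_lit 0x4200001,nat_lit 0xda529061],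
    .r (nat_lit 0x174d) (nat_lit 5) [nat_lit 0x4200001,nat_lit 0x84000061],
    .r (nat_lit 0xb5d) (nat_lit 4) [nat_lit 0x4000061,nat_lit 0x80000001,nat_lit 0xce318881,nat_lit 0x4200061,
    nat_lit 65],.r (nat_lit 8) (nat_lit 5) [nat_lit 0x4010001,nat_lit 0x100418863],
    .r (nat_lit 0xb5e) (nat_lit 4) [nat_lit 0x8000001,nat_lit 0x8e318861,nat_lit 0x15a529001,nat_lit 0x8400001,
    nat_lit 0x8c210c41],.r (nat_lit 0xb5f) (nat_lit 4) [nat_lit 0x4000061,nat_lit 0x80000001,nat_lit 0xce318881,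
    nat_lit 0x4200061,nat_lit 65],.r (nat_lit 0xb60) (nat_lit 4) [nat_lit 0x8000001,nat_lit 0x16329061,
    nat_lit 0x15a529001,nat_lit 0x8400001,nat_lit 0x114221441],.r (nat_lit 0xb61) (nat_lit 4) [nat_lit 0x8000001,
    nat_lit 0x1a529061,nat_lit 0x15a529001,nat_lit 0x8400001,nat_lit 0x118421441],.c (nat_lit 3) (nat_lit 0x318002),
    .r (nat_lit 0x1657) (nat_lit 7) [nat_lit 0x100000001,nat_lit 0xc0018861,nat_lit 0xc0010861,nat_lit 0x88010c41],
    .r (nat_lit 0xb57) (nat_lit 4) [nat_lit 0x4000001,nat_lit 0xd6329061,nat_lit 0xce318801,nat_lit 0x4200001,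
    nat_lit 0x114221441],.r (nat_lit 0xb62) (nat_lit 4) [nat_lit 0x4000001,nat_lit 0xe318861,nat_lit 0xce318801,
    nat_lit 0x4200001,nat_lit 0x8c210c41],.r (nat_lit 0xb63) (nat_lit 4) [nat_lit 0x4000001,nat_lit 0xda529061,
    nat_lit 0xce318801,nat_lit 0x4200001,nat_lit 0x118421441],.r (nat_lit 0xb64) (nat_lit 4) [nat_lit 0x4000001,
    nat_lit 0xd6329061,nat_lit 0xce318801,nat_lit 0x4200001,nat_lit 0x114221441],.c (nat_lit 0) (nat_lit 0x210003),
    .r (nat_lit 8) (nat_lit 5) [nat_lit 0x4010001,nat_lit 0x80418862],.c (nat_lit 1) (nat_lit 0x328802),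
    .c (nat_lit 2) (nat_lit 0x4218862),.r (nat_lit 32) (nat_lit 10) [nat_lit 0x84310c41,nat_lit 0x80000001],
    .c (nat_lit 2) (nat_lit 0x4400862),.r (nat_lit 0x1654) (nat_lit 4) [nat_lit 0x1ca339861,nat_lit 0x280000001,
    nat_lit 0x14e229041,nat_lit 0x19c231c41],.r (nat_lit 0x174b) (nat_lit 1) [nat_lit 0x80000001,nat_lit 0x4000001,
    nat_lit 65],.r (nat_lit 32) (nat_lit 10) [nat_lit 0x88010c42,nat_lit 0x80000001],
    .r (nat_lit 0x1b4a) (nat_lit 6) [nat_lit 0xc6300041,nat_lit 0x80000001,nat_lit 0x4000001],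
    .r (nat_lit 0xb58) (nat_lit 4) [nat_lit 0x4000001,nat_lit 0x114221441,nat_lit 0xce318801,nat_lit 0x4200001,
    nat_lit 0xd6329061],.c (nat_lit 3) (nat_lit 0x4210003),.c (nat_lit 2) (nat_lit 0x410003),
    .c (nat_lit 0) (nat_lit 0x528002),.r (nat_lit 0xb65) (nat_lit 4) [nat_lit 0x8000001,nat_lit 0x104200061,
    nat_lit 0x15a529001,nat_lit 0x8400001,nat_lit 0x6300041],.r (nat_lit 0x174e) (nat_lit 1) [nat_lit 0x4010001,
    nat_lit 0x6500041],.r (nat_lit 8) (nat_lit 5) [nat_lit 0x4010001,nat_lit 0x418861],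
    .r (nat_lit 0xb66) (nat_lit 4) [nat_lit 0x4000001,nat_lit 0xd2029061,nat_lit 0xce318801,nat_lit 0x4200001,
    nat_lit 0x110021441],.c (nat_lit 0) (nat_lit 0x528002),.c (nat_lit 0) (nat_lit 0x4028862),
    .c (nat_lit 0) (nat_lit 0x4028862),.r (nat_lit 0x196a) (nat_lit 10) [nat_lit 0x4000001,nat_lit 0x84200061,
    nat_lit 0xc6000801],.r (nat_lit 0xb67) (nat_lit 4) [nat_lit 0x4000001,nat_lit 0x110021441,nat_lit 0xce318801,
    nat_lit 0x4200001,nat_lit 0xd2029061],.r (nat_lit 0x174d) (nat_lit 5) [nat_lit 0x4200001,nat_lit 0x6500041],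
    .r (nat_lit 0x196a) (nat_lit 10) [nat_lit 0x4000001,nat_lit 0x188010c62,nat_lit 0xc6000801],
    .c (nat_lit 2) (nat_lit 0x4610862),.r (nat_lit 0x1846) (nat_lit 0) [nat_lit 0x10001,nat_lit 0x6000041,
    nat_lit 0x80000001,nat_lit 0x4000001],.r (nat_lit 0xb68) (nat_lit 3) [nat_lit 0x380000001,nat_lit 0x1a4631c41,
    nat_lit 0x1ca741861,nat_lit 0x1ca739861,nat_lit 0xce318881],.r (nat_lit 0x1799) (nat_lit 6) [nat_lit 0x80000001,
    nat_lit 0xc210c41,nat_lit 0x320861,nat_lit 0x318861],.r (nat_lit 0xb69) (nat_lit 4) [nat_lit 0x4000001,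
    nat_lit 0x118421441,nat_lit 0xce318801,nat_lit 0x4200001,nat_lit 0xda529061],
    .r (nat_lit 0x174e) (nat_lit 1) [nat_lit 0x4010001,nat_lit 0x84000061],
    .r (nat_lit 0xb6a) (nat_lit 4) [nat_lit 0x8000001,nat_lit 0x8c210c41,nat_lit 0x15a529001,nat_lit 0x8400001,
    nat_lit 0x8e318861],.c (nat_lit 0) (nat_lit 0x300002),.c (nat_lit 3) (nat_lit 2),
    .r (nat_lit 0xb6b) (nat_lit 4) [nat_lit 0xc000001,nat_lit 0x180000061,nat_lit 0x1e6739801,nat_lit 0xc600001,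
    nat_lit 65],.r (nat_lit 0xb65) (nat_lit 4) [nat_lit 0x8000001,nat_lit 0x200000062,nat_lit 0x15a529001,
    nat_lit 0x8400001,nat_lit 66],.r (nat_lit 0xb6c) (nat_lit 4) [nat_lit 0x300041,nat_lit 0x80000001,
    nat_lit 0xc62188a1,nat_lit 65,nat_lit 0x4200061],.r (nat_lit 0xb5f) (nat_lit 4) [nat_lit 0xc6018861,
    nat_lit 0x80000001,nat_lit 0x84310c81,nat_lit 0xc6218861,nat_lit 0x88010c41],
    .r (nat_lit 0xb6d) (nat_lit 4) [nat_lit 0xc6318861,nat_lit 0x100000001,nat_lit 129,nat_lit 0xc6218861,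
    nat_lit 0x8c210c41],.r (nat_lit 0x1847) (nat_lit 10) [nat_lit 0x88010c01,nat_lit 0xc6000801,nat_lit 0x84310c41,
    nat_lit 0xc6018801],.r (nat_lit 0x174e) (nat_lit 1) [nat_lit 0x4010001,nat_lit 0x500042],
    .r (nat_lit 0xb65) (nat_lit 4) [nat_lit 0x8000001,nat_lit 0x86218861,nat_lit 0x15a529001,nat_lit 0x8400001,
    nat_lit 0x84310c41],.r (nat_lit 0xb5d) (nat_lit 4) [nat_lit 0xc6018861,nat_lit 0x80000001,nat_lit 0x84310c81,
    nat_lit 0xc6218861,nat_lit 0x88010c41],.r (nat_lit 8) (nat_lit 5) [nat_lit 0x4010001,nat_lit 0xa429062],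
    .r (nat_lit 0xb5e) (nat_lit 4) [nat_lit 0x8000001,nat_lit 0x16329061,nat_lit 0x15a529001,nat_lit 0x8400001,
    nat_lit 0x114221441],.r (nat_lit 0xb6e) (nat_lit 4) [nat_lit 0x8000001,nat_lit 0x8e318861,nat_lit 0x15a529001,
    nat_lit 0x8400001,nat_lit 0x8c210c41],.r (nat_lit 0x1657) (nat_lit 7) [nat_lit 0x100000001,nat_lit 0x14a529062,
    nat_lit 0x14a521062,nat_lit 0x118421442],.r (nat_lit 0x196a) (nat_lit 10) [nat_lit 0x4000001,nat_lit 0x84310c41,
    nat_lit 0xc6000801],.r (nat_lit 0x1b4a) (nat_lit 6) [nat_lit 0xc6218861,nat_lit 0x80000001,nat_lit 0x4000001],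
    .c (nat_lit 3) (nat_lit 0x4218862),.r (nat_lit 8) (nat_lit 5) [nat_lit 0x4010001,nat_lit 0xca429061],
    .r (nat_lit 0x1657) (nat_lit 7) [nat_lit 0x100000001,nat_lit 0x14a029061,nat_lit 0x14a001061,nat_lit 0x110021441],
    .r (nat_lit 0x174e) (nat_lit 1) [nat_lit 0x4010001,nat_lit 0x84510c41],
    .r (nat_lit 0x174d) (nat_lit 5) [nat_lit 0x4200001,nat_lit 0x6018861],
    .r (nat_lit 0xb66) (nat_lit 4) [nat_lit 0x4000001,nat_lit 0x15a039861,nat_lit 0xce318801,nat_lit 0x4200001,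
    nat_lit 0x198031c41],.r (nat_lit 0xb57) (nat_lit 4) [nat_lit 0x4000001,nat_lit 0x15e339861,nat_lit 0xce318801,
    nat_lit 0x4200001,nat_lit 0x19c231c41],.r (nat_lit 0xb62) (nat_lit 4) [nat_lit 0x4000001,nat_lit 0xd6329061,
    nat_lit 0xce318801,nat_lit 0x4200001,nat_lit 0x114221441],.r (nat_lit 0xb63) (nat_lit 4) [nat_lit 0x4000001,
    nat_lit 0x162539861,nat_lit 0xce318801,nat_lit 0x4200001,nat_lit 0x1a0431c41],.c (nat_lit 1) (nat_lit 0x300043),
    .c (nat_lit 0) (nat_lit 0x218862),.c (nat_lit 1) (nat_lit 0x6500083),.c (nat_lit 0) (nat_lit 0x6218864),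
    .c (nat_lit 2) (nat_lit 0x4210003),.c (nat_lit 2) (nat_lit 0x4420003),
    .r (nat_lit 4) (nat_lit 1) [nat_lit 0x4010001,nat_lit 0x6018861],
    .r (nat_lit 0x1b32) (nat_lit 8) [nat_lit 0x4200001,nat_lit 0x84200c41,nat_lit 0xc6300801],
    .r (nat_lit 0xb6f) (nat_lit 4) [nat_lit 0x4000001,nat_lit 0xda529061,nat_lit 0xce318801,nat_lit 0x4200001,
    nat_lit 0x118421441],.r (nat_lit 0xb70) (nat_lit 4) [nat_lit 0x4000001,nat_lit 0x166739861,nat_lit 0xce318801,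
    nat_lit 0x4200001,nat_lit 0x1a4631c41],.c (nat_lit 0) (nat_lit 0x6000002),.c (nat_lit 0) (nat_lit 0x6000002),
    .r (nat_lit 0x174e) (nat_lit 1) [nat_lit 0x4010001,nat_lit 65],.c (nat_lit 4) (nat_lit 2),
    .c (nat_lit 0) (nat_lit 0xe731cc5),.c (nat_lit 1) (nat_lit 0x4229062),.c (nat_lit 0) (nat_lit 0x6310c43),
    .c (nat_lit 2) (nat_lit 0x86190a2),.c (nat_lit 2) (nat_lit 0x88010a2),.c (nat_lit 3) (nat_lit 0x310c43),
    .r (nat_lit 0x1657) (nat_lit 7) [nat_lit 0x100000001,nat_lit 0xc0500041,nat_lit 0xc0520041,nat_lit 0x88400061],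
    .c (nat_lit 0) (nat_lit 0x6310c43),.r (nat_lit 32) (nat_lit 10) [nat_lit 0x10c321441,nat_lit 0x80000001],
    .r (nat_lit 0x174b) (nat_lit 1) [nat_lit 0x80000001,nat_lit 0x4000001,nat_lit 0x88010c41],
    .r (nat_lit 0x1b4a) (nat_lit 6) [nat_lit 0x4310c41,nat_lit 0x80000001,nat_lit 0x4000001],
    .c (nat_lit 2) (nat_lit 0x6010c43),.r (nat_lit 0x174d) (nat_lit 5) [nat_lit 0x4200001,nat_lit 0x84510c41],
    .c (nat_lit 2) (nat_lit 0x8a110a2),.r (nat_lit 0x1846) (nat_lit 0) [nat_lit 0x10001,nat_lit 0x84010c41,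
    nat_lit 0x80000001,nat_lit 0x4000001],.r (nat_lit 0x1799) (nat_lit 6) [nat_lit 0x80000001,nat_lit 0x94221441,
    nat_lit 0xca311061,nat_lit 0xca329061],.r (nat_lit 0x174e) (nat_lit 1) [nat_lit 0x4010001,nat_lit 0x6018861],
    .r (nat_lit 0x191e) (nat_lit 10) [nat_lit 0x88010c01,nat_lit 0xc6000801,nat_lit 0x100000061,nat_lit 0xc6018801],
    .r (nat_lit 8) (nat_lit 5) [nat_lit 0x4010001,nat_lit 65],.r (nat_lit 0xb71) (nat_lit 4) [nat_lit 0x140300041,
    nat_lit 0x80000001,nat_lit 0x1862188a1,nat_lit 0x140000041,nat_lit 0x104200061],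
    .r (nat_lit 0x174d) (nat_lit 5) [nat_lit 0x4200001,nat_lit 0x500042],.c (nat_lit 0) (nat_lit 0x6300c43),
    .r (nat_lit 32) (nat_lit 10) [nat_lit 0xc0218861,nat_lit 0x80000001],
    .r (nat_lit 0x1b32) (nat_lit 8) [nat_lit 0x4200001,nat_lit 0x80218061,nat_lit 0xc6300801],
    .c (nat_lit 5) (nat_lit 2),.r (nat_lit 0xb72) (nat_lit 3) [nat_lit 0x300000001,nat_lit 0x1a4631c41,
    nat_lit 0x1ce731861,nat_lit 0x1ce739861,nat_lit 129],.r (nat_lit 0xb73) (nat_lit 4) [nat_lit 0x4000001,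
    nat_lit 0x118421441,nat_lit 0xce318801,nat_lit 0x4200001,nat_lit 0xda529061],
    .r (nat_lit 4) (nat_lit 1) [nat_lit 0x4010001,nat_lit 65],.r (nat_lit 0xb74) (nat_lit 4) [nat_lit 0x8000001,
    nat_lit 0x8c210c41,nat_lit 0x15a529001,nat_lit 0x8400001,nat_lit 0x8e318861],.c (nat_lit 2) (nat_lit 0x4410862),
    .c (nat_lit 6) (nat_lit 2),.r (nat_lit 0x174d) (nat_lit 5) [nat_lit 0x4200001,nat_lit 65]]]

/-- nodes -/
noncomputable def rD7k_19_12 : List RJ :=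
  [.l (nat_lit 12) (nat_lit 720) (nat_lit 6) (nat_lit 0xf2000001820000013e0000013e0000015c0000015c00000141000001410000013f0000013f0000013c0000013c0000015000000124) (nat_lit 0x90000000440000004400000026000000260000004100000041000000430000004300000046000000460000005e00000032)
    (nat_lit 0xf60620ae0aa0cc0cc0b30b10ab0ad0a80b00940c41820f613e13e15c15a14114112f13f13c13c12805a13e0aa0fc0fa1181180fd0fd0fb0fb1ee1080dc10c13e0ae0fa0fc1041180e70fd0fd0d91c80e20e010c15a0cc11811813613613d12f12f12f1161140fe05a15c0cc10411813613612b11b1a11a11161160fe12a1410b10fd0fd11b12f0781000fe0ee0fb0730e310f1410b30e70fd12b13d1000780fe0fe16d0fb0e510f13f0ad0d90fb1a112f0fe0ee0fc0fc0f90f90df09b12f0ab0fd0fb1a112f0fe0fe0fc0fc0f90f90dd10d13c0b00e21081161140fb0730f90f90f60f60e210a13c0a81c81ee11611616d0fb0f90f90f60f60da10a05a0c410c10c12a05a10f10f10d09b10a10a0f611e1280940e00dc0fe0fe0e50e30dd0df0da0e20c60f6)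
    (nat_lit 0xf62d02d02d02d02d02d02d02d02d02d02d02d02d00620f62d02d02d02d02d02d02d02d02d02d02d02d00ae13e0fc2d02d02d02d02d02d02d02d02d02d02d00aa13e0fa0fc2d02d02d02d02d02d02d02d02d02d00cc15c1181041362d02d02d02d02d02d02d02d02d00cc15a1181181361362d02d02d02d02d02d02d02d00b31410fd0e713d12b0782d02d02d02d02d02d02d00b11410fd0fd12f11b1000782d02d02d02d02d02d00ab12f0fb0fd12f1a10fe0fe0fc2d02d02d02d02d00ad13f0fb0d912f1a10ee0fe0fc0fc2d02d02d02d00a813c1e61c81161160fb16d0f90f90f62d02d02d00b013c1080e21141160730fb0f90f90f60f62d02d00941280dc0e00fe0fe0e30e50df0dd0e20da0ee2d00bc05a10410805a12610b10d09b10510a1021160ee)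
    (nat_lit 5) (nat_lit 191)
    [[nat_lit 2,nat_lit 258,nat_lit 0x10002,nat_lit 0x1000002,nat_lit 0x1000102,nat_lit 0x20002,nat_lit 0x1010002,
    nat_lit 0x3000003,nat_lit 0x2000002,nat_lit 17,nat_lit 273,nat_lit 0x10011,nat_lit 0x1000011,nat_lit 0x1011,
    nat_lit 0x1001011,nat_lit 0x100011,nat_lit 0x1100011,nat_lit 257,nat_lit 513,nat_lit 0x1000101,nat_lit 0x2000101,
    nat_lit 0x100101,nat_lit 0x1100101,nat_lit 0x1001,nat_lit 0x1101,nat_lit 0x2001,nat_lit 0x1002001,nat_lit 0x11001,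
    nat_lit 0x1101001,nat_lit 0x1001001,nat_lit 0x11011,nat_lit 0x10001,nat_lit 0x20001,nat_lit 0x1010001,
    nat_lit 0x10101,nat_lit 0x100001,nat_lit 0x110001,nat_lit 0x1100001,nat_lit 0x1000001,nat_lit 0x2000001],
    [nat_lit 32,nat_lit 0x1020,nat_lit 272,nat_lit 0x1110,nat_lit 0x1010,nat_lit 0x2010,nat_lit 0x10010,
    nat_lit 0x11010,nat_lit 0x1000010,nat_lit 0x1001010,nat_lit 0x1100010],[nat_lit 512,nat_lit 0x1100,nat_lit 0x2100,
    nat_lit 0x100100,nat_lit 0x1000100,nat_lit 0x1100100],[nat_lit 0x2000,nat_lit 0x3000,nat_lit 0x4000,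
    nat_lit 0x5000,nat_lit 0x102000,nat_lit 0x1002000,nat_lit 0x11000,nat_lit 0x101000,nat_lit 0x1001000],
    [nat_lit 0x20000,nat_lit 0x110000,nat_lit 0x1010000],[nat_lit 0x200000,nat_lit 0x1100000],[nat_lit 0x2000000]]
    [.c (nat_lit 1) (nat_lit 2),.c (nat_lit 1) (nat_lit 0x300c02),.r (nat_lit 0x17a8) (nat_lit 4) [nat_lit 0x10041,
    nat_lit 0xc020061,nat_lit 0x28041,nat_lit 0x200001],.c (nat_lit 0) (nat_lit 0x528083),
    .c (nat_lit 0) (nat_lit 0x18843),.c (nat_lit 3) (nat_lit 0x801003),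
    .r (nat_lit 0x174b) (nat_lit 8) [nat_lit 0x200001,nat_lit 0x4000001,nat_lit 65],
    .r (nat_lit 75) (nat_lit 1) [nat_lit 0xe701861,nat_lit 65,nat_lit 0x200001],.c (nat_lit 0) (nat_lit 0x528083),
    .r (nat_lit 0x14d5) (nat_lit 11) [nat_lit 0x6318801,nat_lit 0x10001,nat_lit 0x18041,nat_lit 0x4000001],
    .c (nat_lit 2) (nat_lit 0x300c02),.r (nat_lit 0x139b) (nat_lit 4) [nat_lit 0xa519061,nat_lit 0x400001,
    nat_lit 0x18041,nat_lit 0x8010061],.r (nat_lit 0x1b47) (nat_lit 11) [nat_lit 0x4000001,nat_lit 0x200061,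
    nat_lit 0x6300801],.r (nat_lit 0x12a5) (nat_lit 4) [nat_lit 0x6300861,nat_lit 0x200001,nat_lit 0x4000001,
    nat_lit 0x6018041],.c (nat_lit 2) (nat_lit 0x210062),.c (nat_lit 3) (nat_lit 0x210803),
    .c (nat_lit 4) (nat_lit 0x300043),.c (nat_lit 0) (nat_lit 0x200803),.c (nat_lit 3) (nat_lit 0x300c02),
    .c (nat_lit 7) (nat_lit 0x300c02),.r (nat_lit 0x174b) (nat_lit 0) [nat_lit 0x200001,nat_lit 0x4000001,nat_lit 65],
    .c (nat_lit 2) (nat_lit 0x210803),.r (nat_lit 0x12a5) (nat_lit 4) [nat_lit 0x6318041,nat_lit 0x200001,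
    nat_lit 0x4000001,nat_lit 0x6000861],.c (nat_lit 0) (nat_lit 0x318043),.c (nat_lit 4) (nat_lit 0x300c02),
    .c (nat_lit 0) (nat_lit 0x528083),.c (nat_lit 4) (nat_lit 0x210062),
    .r (nat_lit 32) (nat_lit 13) [nat_lit 0x300861,nat_lit 0x200001],.c (nat_lit 2) (nat_lit 0x300043),
    .c (nat_lit 0) (nat_lit 0x318043),.r (nat_lit 0x14d6) (nat_lit 0) [nat_lit 0x400001,nat_lit 0xa519061,
    nat_lit 0x10041,nat_lit 0x8010061],.r (nat_lit 0) (nat_lit 8) [nat_lit 65,nat_lit 0x200001],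
    .c (nat_lit 3) (nat_lit 0x600803),.r (nat_lit 0x1b4c) (nat_lit 7) [nat_lit 0x6300861,nat_lit 0x10001,
    nat_lit 0x4000001,nat_lit 0x200001],.c (nat_lit 3) (nat_lit 0x400803),
    .r (nat_lit 0x1989) (nat_lit 10) [nat_lit 0x4010061,nat_lit 0x200001,nat_lit 65],
    .r (nat_lit 0x1b34) (nat_lit 12) [nat_lit 0x310041,nat_lit 0x200001,nat_lit 0x318041,nat_lit 0x8210061],
    .r (nat_lit 0x1b47) (nat_lit 13) [nat_lit 0x4000001,nat_lit 0x200061,nat_lit 0x6300801],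
    .c (nat_lit 0) (nat_lit 0x318043),.c (nat_lit 0) (nat_lit 0x528083),.c (nat_lit 2) (nat_lit 2),
    .r (nat_lit 0x14d7) (nat_lit 13) [nat_lit 0x8020001,nat_lit 0x12529001,nat_lit 0x400061,nat_lit 0x8000001],
    .r (nat_lit 0x174d) (nat_lit 6) [nat_lit 0x4010001,nat_lit 0x4200061],
    .r (nat_lit 0x1b48) (nat_lit 7) [nat_lit 0x10001,nat_lit 0x4000001,nat_lit 0x200001,nat_lit 0x6300041],
    .r (nat_lit 0x196a) (nat_lit 13) [nat_lit 0x4000001,nat_lit 0x4200c41,nat_lit 0x6300801],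
    .r (nat_lit 0x14cb) (nat_lit 7) [nat_lit 0x8000001,nat_lit 0x400001,nat_lit 0x12529061,nat_lit 0x8020001],
    .r (nat_lit 0) (nat_lit 1) [nat_lit 65,nat_lit 0x4200061],.r (nat_lit 0x14d8) (nat_lit 4) [nat_lit 0x6318861,
    nat_lit 0x200001,nat_lit 0x4000001,nat_lit 0x6000041],.r (nat_lit 0x1b32) (nat_lit 9) [nat_lit 0x4010001,
    nat_lit 0x4210c41,nat_lit 0x6318801],.r (nat_lit 0x174d) (nat_lit 6) [nat_lit 0x4010001,nat_lit 0x6018861],
    .c (nat_lit 0) (nat_lit 0x18002),.c (nat_lit 3) (nat_lit 2),.c (nat_lit 0) (nat_lit 0x18843),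
    .r (nat_lit 0x14d9) (nat_lit 7) [nat_lit 0x6529061,nat_lit 0x600001,nat_lit 0x6511061,nat_lit 0x10421441],
    .r (nat_lit 0) (nat_lit 1) [nat_lit 0x4200061,nat_lit 65],.c (nat_lit 0) (nat_lit 0x18843),
    .r (nat_lit 0x194e) (nat_lit 2) [nat_lit 0x18001,nat_lit 0x4010001,nat_lit 0x200001,nat_lit 0x6318041],
    .c (nat_lit 4) (nat_lit 2),.r (nat_lit 45) (nat_lit 1) [nat_lit 65,nat_lit 0xe701861,nat_lit 0x200001],
    .r (nat_lit 40) (nat_lit 1) [nat_lit 66,nat_lit 0x12902062,nat_lit 0x200001],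
    .r (nat_lit 0x14da) (nat_lit 7) [nat_lit 0x14000001,nat_lit 0xa00001,nat_lit 0x2ab5a861,nat_lit 0x14050001],
    .r (nat_lit 0x1a3f) (nat_lit 3) [nat_lit 0x4010001,nat_lit 0x300041,nat_lit 0x4000001,nat_lit 0x200001],
    .c (nat_lit 0) (nat_lit 0x528083),.c (nat_lit 0) (nat_lit 0x318c43),
    .r (nat_lit 0x196a) (nat_lit 11) [nat_lit 0x4000001,nat_lit 0x4200c41,nat_lit 0x6300801],
    .c (nat_lit 0) (nat_lit 0x318043),.c (nat_lit 5) (nat_lit 2),.r (nat_lit 0x174d) (nat_lit 6) [nat_lit 0x4010001,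
    nat_lit 65],.c (nat_lit 0) (nat_lit 0x318c43),.c (nat_lit 6) (nat_lit 2),
    .r (nat_lit 0x14d8) (nat_lit 4) [nat_lit 0x300041,nat_lit 0x200001,nat_lit 0x4000001,nat_lit 0xa018861],
    .c (nat_lit 7) (nat_lit 2)],
    .l (nat_lit 12) (nat_lit 960) (nat_lit 6) (nat_lit 0x1090000017d000001950000019500000187000001870000019a0000019a000001860000018600000189000001890000014d00000135) (nat_lit 0x1d0000009100000005000000050000001300000013000000000000000000000014000000140000001100000011000000650000004d)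
    (nat_lit 0xec07815c1040ea0c21471090d50f30e81180a40bc1600ec1d017813e16a1d317d0ed14717416c11807817810419019018212a1b71c118112b23c2001301401d015c16c1901b618213f1491611811c018416417416a0c218212a1c01981871531731c914a1960ca0fe13e0ea1b61821f81c01811871f724d1720c212213a17d1091491c11871530c011623a18c1891051411511d314713f1b718118719a0c023418618916b13714d1470f318112b24d1c918618c1901721750c70e31390ed0d51611811f717323423a1721901751751010fd16c1181842000c219616b1051750c71b417814413c1740e81c023c17214a1891891751751681b412413c0780bc17414013a0fe14d1510fd13913c13c0f81101180a41641301220ca1371411010e31241440d00f8)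
    (nat_lit 0xec3c03c03c03c03c03c03c03c03c03c03c03c03c00780ec3c03c03c03c03c03c03c03c03c03c03c03c015c1d01903c03c03c03c03c03c03c03c03c03c03c01041781901903c03c03c03c03c03c03c03c03c03c00ea13e1821b61c03c03c03c03c03c03c03c03c03c00c216a12a1821981c03c03c03c03c03c03c03c03c01471d31b713f1871810c03c03c03c03c03c03c03c010917d1c11491531871160c03c03c03c03c03c03c00d50ed1811611731d71f62341903c03c03c03c03c00f314712b1811c923118c1861721903c03c03c03c00e817423c1c014a1721891891751751b43c03c03c011816c1ec1841960c210516b0c71751781b43c03c00a41181301640ca1221411370e31011441240f83c00bc0781401740fe13a15114d1390fd13c13c1100f8)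
    (nat_lit 5) (nat_lit 183)
    [[nat_lit 2,nat_lit 3,nat_lit 0x1000003,nat_lit 0x2000003,nat_lit 18,nat_lit 0x1000012,nat_lit 258,
    nat_lit 0x1000102,nat_lit 0x2000102,nat_lit 0x1002,nat_lit 0x1001002,nat_lit 0x10002,nat_lit 0x1010002,
    nat_lit 0x100002,nat_lit 0x1000002,nat_lit 0x2000002,nat_lit 0x3000003,nat_lit 0x2010002,nat_lit 0x3000002,
    nat_lit 17,nat_lit 273,nat_lit 0x10011,nat_lit 0x1000011,nat_lit 0x2000011,nat_lit 0x1000111,nat_lit 0x1011,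
    nat_lit 0x1010011,nat_lit 257,nat_lit 513,nat_lit 0x10101,nat_lit 0x1010101,nat_lit 0x100101,nat_lit 0x1000101,
    nat_lit 0x2000101,nat_lit 0x3000101,nat_lit 0x1001,nat_lit 0x2001,nat_lit 0x1001001,nat_lit 0x1001011,
    nat_lit 0x1002001,nat_lit 0x11001,nat_lit 0x2001001,nat_lit 0x10001,nat_lit 0x1010001,nat_lit 0x2010001,
    nat_lit 0x100001,nat_lit 0x1100001,nat_lit 0x1000001,nat_lit 0x2000111,nat_lit 0x2000001,nat_lit 0x3000001],
    [nat_lit 32,nat_lit 288,nat_lit 272,nat_lit 528,nat_lit 0x10110,nat_lit 0x1000110,nat_lit 0x1010,nat_lit 0x2010,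
    nat_lit 0x11010,nat_lit 0x10010,nat_lit 0x1010010,nat_lit 0x110010,nat_lit 0x1000010,nat_lit 0x2000010,
    nat_lit 0x2000110],[nat_lit 512,nat_lit 0x1000200,nat_lit 0x1010100,nat_lit 0x100100,nat_lit 0x1100100,
    nat_lit 0x1000100,nat_lit 0x2000100,nat_lit 0x1001100,nat_lit 0x3000100],[nat_lit 0x2000,nat_lit 0x3000,
    nat_lit 0x4000,nat_lit 0x12000,nat_lit 0x1002000,nat_lit 0x11000,nat_lit 0x101000,nat_lit 0x1001000,
    nat_lit 0x2001000],[nat_lit 0x20000,nat_lit 0x110000,nat_lit 0x1010000,nat_lit 0x2010000],[nat_lit 0x200000,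
    nat_lit 0x1100000],[nat_lit 0x2000000,nat_lit 0x3000000,nat_lit 0x4000000]]
    [.c (nat_lit 1) (nat_lit 2),.r (nat_lit 672) (nat_lit 2) [nat_lit 65,nat_lit 0x1ad3b0a1,nat_lit 0x1d9263481,
    nat_lit 0x19ad6b0a1,nat_lit 0x24c63481],.r (nat_lit 674) (nat_lit 3) [nat_lit 0xc60188e1,nat_lit 0x10081,
    nat_lit 65,nat_lit 0x40000a1,nat_lit 0x84210cc1],.r (nat_lit 673) (nat_lit 3) [nat_lit 0x14a0290e1,
    nat_lit 0x20081,nat_lit 65,nat_lit 0x80000a1,nat_lit 0x1084214c1],.c (nat_lit 0) (nat_lit 0x528c83),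
    .r (nat_lit 32) (nat_lit 11) [nat_lit 0x84200c41,nat_lit 0x4010001],
    .r (nat_lit 0x109c) (nat_lit 6) [nat_lit 0xca301061,nat_lit 65,nat_lit 0x4000001,nat_lit 0x200001],
    .r (nat_lit 675) (nat_lit 12) [nat_lit 0x10001,nat_lit 0x14a029061,nat_lit 0xca329061,nat_lit 0x108221441,
    nat_lit 0x4000001],.c (nat_lit 0) (nat_lit 0x84010a6),.c (nat_lit 0) (nat_lit 0x529483),
    .c (nat_lit 1) (nat_lit 0x210862),.c (nat_lit 0) (nat_lit 0x4529483),
    .r (nat_lit 0x174b) (nat_lit 8) [nat_lit 0x4010001,nat_lit 0x200001,nat_lit 65],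
    .r (nat_lit 0x1b47) (nat_lit 13) [nat_lit 0x200001,nat_lit 0x4020062,nat_lit 0x6318801],
    .c (nat_lit 0) (nat_lit 0x529483),.c (nat_lit 0) (nat_lit 0x529483),
    .r (nat_lit 75) (nat_lit 1) [nat_lit 0xe739861,nat_lit 65,nat_lit 0x4010001],
    .r (nat_lit 0xeb4) (nat_lit 4) [nat_lit 0xc030001,nat_lit 0x108401441,nat_lit 0x8a539061,nat_lit 0x14a201061],
    .r (nat_lit 32) (nat_lit 11) [nat_lit 0x84210c41,nat_lit 0x4010001],.c (nat_lit 0) (nat_lit 0x6518085),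
    .c (nat_lit 7) (nat_lit 0x6300043),.r (nat_lit 0xa14) (nat_lit 6) [nat_lit 0xca2010a1,nat_lit 0x14a4110a1,
    nat_lit 0x1087194c1,nat_lit 0xc6200861,nat_lit 0x10c501481],.c (nat_lit 3) (nat_lit 0x6300043),
    .r (nat_lit 0x1b48) (nat_lit 3) [nat_lit 0x84000c41,nat_lit 0x200001,nat_lit 0x4010001,nat_lit 0x80318001],
    .c (nat_lit 0) (nat_lit 0x4200062),.c (nat_lit 7) (nat_lit 0x210062),
    .r (nat_lit 677) (nat_lit 3) [nat_lit 0xc6200861,nat_lit 0x8020001,nat_lit 0xd2328841,nat_lit 0x4000001,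
    nat_lit 0x84200c41],.r (nat_lit 0x18d0) (nat_lit 2) [nat_lit 0xc6018861,nat_lit 0x14a0110a1,nat_lit 0x114021481,
    nat_lit 0x200001],.r (nat_lit 678) (nat_lit 5) [nat_lit 0xc6218861,nat_lit 0x104310c41,nat_lit 0x84010c41,
    nat_lit 0x10001,nat_lit 0x14a029061],.c (nat_lit 0) (nat_lit 0x18002),.c (nat_lit 4) (nat_lit 0x300c43),
    .r (nat_lit 0x183a) (nat_lit 0) [nat_lit 0x4010001,nat_lit 0xca018861,nat_lit 0x200061,nat_lit 0x84300041],
    .c (nat_lit 2) (nat_lit 0x6300043),.c (nat_lit 7) (nat_lit 0x6300c43),.c (nat_lit 0) (nat_lit 0x4200862),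
    .c (nat_lit 0) (nat_lit 0x4529487),.c (nat_lit 0) (nat_lit 0x529483),.c (nat_lit 0) (nat_lit 0x318c43),
    .c (nat_lit 2) (nat_lit 0x210862),.c (nat_lit 4) (nat_lit 0x210862),.c (nat_lit 0) (nat_lit 0x4519485),
    .c (nat_lit 7) (nat_lit 0x210862),.c (nat_lit 0) (nat_lit 0x4529483),
    .r (nat_lit 679) (nat_lit 7) [nat_lit 0x400001,nat_lit 0x110521481,nat_lit 0xc6218861,nat_lit 0x84710cc1,
    nat_lit 0x14a4010a1],.r (nat_lit 0xa14) (nat_lit 6) [nat_lit 0xca2290a1,nat_lit 0x14a4190a1,nat_lit 0x1087214c1,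
    nat_lit 0xc6218861,nat_lit 0x10c521481],.r (nat_lit 676) (nat_lit 12) [nat_lit 0x10001,nat_lit 0xc0018861,
    nat_lit 0x318861,nat_lit 0x80210c41,nat_lit 0x4000001],.r (nat_lit 0x1b47) (nat_lit 13) [nat_lit 0x200001,
    nat_lit 0x4010061,nat_lit 0x6318801],.c (nat_lit 0) (nat_lit 0x318c43),.c (nat_lit 0) (nat_lit 0x10810926),
    .c (nat_lit 0) (nat_lit 0x6519485),.c (nat_lit 3) (nat_lit 0x6300c43),.c (nat_lit 2) (nat_lit 2),
    .c (nat_lit 0) (nat_lit 0x4019402),.c (nat_lit 0) (nat_lit 0x4018c02),.c (nat_lit 0) (nat_lit 0x4018c02),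
    .c (nat_lit 0) (nat_lit 0x18002),.c (nat_lit 1) (nat_lit 0x6300043),.c (nat_lit 0) (nat_lit 0x6938d07),
    .c (nat_lit 0) (nat_lit 0x528c83),.c (nat_lit 2) (nat_lit 0x6000802),.r (nat_lit 0) (nat_lit 1) [nat_lit 65,
    nat_lit 0x4210061],.r (nat_lit 0x1922) (nat_lit 3) [nat_lit 0x200001,nat_lit 0x4010001,nat_lit 0xc6200861,
    nat_lit 0x300041],.c (nat_lit 0) (nat_lit 0x300c02),.r (nat_lit 0x1b4d) (nat_lit 4) [nat_lit 0xc6300861,
    nat_lit 0x4010001,nat_lit 0x200001],.c (nat_lit 2) (nat_lit 0x802),.c (nat_lit 0) (nat_lit 0x4018c02),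
    .c (nat_lit 3) (nat_lit 2),.r (nat_lit 0x17c6) (nat_lit 8) [nat_lit 0x4010001,nat_lit 0x84000c41,
    nat_lit 0x104318c41,nat_lit 0xc6200861],.c (nat_lit 0) (nat_lit 0x28804),
    .r (nat_lit 0) (nat_lit 1) [nat_lit 0x4210061,nat_lit 65],.r (nat_lit 0x1a04) (nat_lit 2) [nat_lit 0x18001,
    nat_lit 0x4010001,nat_lit 0x84100a1,nat_lit 0xa018081],.r (nat_lit 0x174e) (nat_lit 1) [nat_lit 0xc6000861,
    nat_lit 65],.c (nat_lit 0) (nat_lit 0x4018002),.r (nat_lit 32) (nat_lit 11) [nat_lit 0x6018861,nat_lit 0x4010001],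
    .c (nat_lit 1) (nat_lit 0x6300c43),.c (nat_lit 4) (nat_lit 2),.c (nat_lit 0) (nat_lit 0x4529483),
    .r (nat_lit 40) (nat_lit 1) [nat_lit 66,nat_lit 0x1294a062,nat_lit 0x4010001],.c (nat_lit 0) (nat_lit 0x893a507),
    .c (nat_lit 0) (nat_lit 0x529483),.c (nat_lit 7) (nat_lit 0x6000002),.c (nat_lit 0) (nat_lit 0x4218003),
    .c (nat_lit 0) (nat_lit 0x318c43),.c (nat_lit 0) (nat_lit 0x693a507),.c (nat_lit 5) (nat_lit 2),
    .c (nat_lit 0) (nat_lit 0x4200003),.r (nat_lit 0x1a04) (nat_lit 2) [nat_lit 0x18001,nat_lit 0x4010001,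
    nat_lit 0x10081,nat_lit 0x4180a1],.r (nat_lit 0) (nat_lit 1) [nat_lit 0x10041,nat_lit 0x4200061],
    .c (nat_lit 6) (nat_lit 2),.c (nat_lit 0) (nat_lit 0x200005),.c (nat_lit 7) (nat_lit 2),
    .r (nat_lit 0x1b4d) (nat_lit 4) [nat_lit 0xc6318861,nat_lit 0x4010001,nat_lit 0x200001],
    .c (nat_lit 2) (nat_lit 0x1002)]]

/-- nodes -/
noncomputable def rD7k_19_13 : List RJ :=
  [.s (nat_lit 14) (nat_lit 0x960) (nat_lit 7) (nat_lit 0x42000000420000004b8000004b8000003de000003de0000046200000462000004240000042400000424000004100000032000000514) (nat_lit 0xf4000000f40000005c0000005c0000013600000136000000b2000000b2000000f0000000f000000104000000f000000000000001f4)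
    (nat_lit 0x52032c0e703c40ba81420db82b618a04ec0c7033810802340cb01480f103c407482ea106836e11b03300b80330108022c0f103c4117045c0e08382101851e0f2031c0ed028c1a703000f1039c117045c0e0838210e85520f203c80e303c819802c40ba81420e0838205702a80cb032c0bb82ba0b682ee101821207482ea0e083820aa015c088032c0e983660da81e212582a20db82b6154851e0cb032c0ce03b011f847e0a982ba11881de106836e10e8406088032c0ec03380dc83720d783720a9826e0cc04ec0f2031c0d982ba0dc847e0cd03340c80334109023011b06280f203c80e982ee0dc847e0cd03340c6033410702300cc03380f2028c07882ee0dc82ba0cd03340c8033404b02380b8031c0e303b40da82da0d782a60c603200c30320102021c08b02340b103000a8821209b81de08c023008702380c8012c1080420198069c12584060a984621070424102012c1450320)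
    (nat_lit 0x5209602580960258096025809602580960258096025809600cb01482580960258096025809602580960258096025809600e703c41170960258096025809602580960258096025809600f103c4117045c258096025809602580960258096025809600ba81d20e083820570960258096025809602580960258096005082ea0e083820aa015c25809602580960258096025809600d8841a101843a0cb02200ce09602580960258096025809600ad836e14785520cb032c0ec033825809602580960258096013a046c0f203c80bb83a611f83720cd09602580960258096012a03300c703c80ae836611f83720cd0334258096025809600c702e00ed038c0b6836a0a9835e0c803180c8096025809600c903300a303c80bb81e20ae83720cd03340cd03202580960108040c13804b810184960f482a6109041c04b04080c8096008d022c0c002c408482a2077826e08c023008e021c04b0320)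
    (nat_lit 6) (nat_lit 147)
    [[nat_lit 0,nat_lit 4,nat_lit 6],[nat_lit 0,nat_lit 5,nat_lit 6],[nat_lit 0,nat_lit 7,nat_lit 4],[nat_lit 0,
    nat_lit 7,nat_lit 5],[nat_lit 1,nat_lit 4,nat_lit 6],[nat_lit 1,nat_lit 5,nat_lit 6],[nat_lit 1,nat_lit 7,
    nat_lit 4],[nat_lit 1,nat_lit 7,nat_lit 5],[nat_lit 4,nat_lit 4,nat_lit 8],[nat_lit 4,nat_lit 4,nat_lit 9],
    [nat_lit 4,nat_lit 5,nat_lit 8],[nat_lit 4,nat_lit 5,nat_lit 9],[nat_lit 4,nat_lit 8,nat_lit 4],[nat_lit 4,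
    nat_lit 8,nat_lit 5],[nat_lit 4,nat_lit 9,nat_lit 4],[nat_lit 4,nat_lit 9,nat_lit 5],[nat_lit 4,nat_lit 12],
    [nat_lit 4,nat_lit 13],[nat_lit 5,nat_lit 5,nat_lit 8],[nat_lit 5,nat_lit 5,nat_lit 9],[nat_lit 5,nat_lit 8,
    nat_lit 5],[nat_lit 5,nat_lit 9,nat_lit 5],[nat_lit 5,nat_lit 12],[nat_lit 5,nat_lit 13],[nat_lit 6,nat_lit 10],
    [nat_lit 6,nat_lit 11],[nat_lit 7,nat_lit 10],[nat_lit 7,nat_lit 11]]
    [nat_lit 0x1046,nat_lit 0x1056,nat_lit 0x1074,nat_lit 0x1075,nat_lit 0x1146,nat_lit 0x1156,nat_lit 0x1174,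
    nat_lit 0x1175,nat_lit 0x1448,nat_lit 0x1449,nat_lit 0x1458,nat_lit 0x1459,nat_lit 0x1484,nat_lit 0x1485,
    nat_lit 0x1494,nat_lit 0x1495,nat_lit 332,nat_lit 333,nat_lit 0x1558,nat_lit 0x1559,nat_lit 0x1585,nat_lit 0x1595,
    nat_lit 348,nat_lit 349,nat_lit 362,nat_lit 363,nat_lit 378,nat_lit 379]
    [[[nat_lit 0,nat_lit 4,nat_lit 6],[nat_lit 0,nat_lit 5,nat_lit 6],[nat_lit 0,nat_lit 7,nat_lit 4],[nat_lit 0,
    nat_lit 7,nat_lit 5],[nat_lit 1,nat_lit 4,nat_lit 6],[nat_lit 1,nat_lit 5,nat_lit 6],[nat_lit 1,nat_lit 7,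
    nat_lit 4],[nat_lit 1,nat_lit 7,nat_lit 5],[nat_lit 4,nat_lit 0,nat_lit 7],[nat_lit 4,nat_lit 1,nat_lit 7],
    [nat_lit 4,nat_lit 4,nat_lit 8],[nat_lit 4,nat_lit 4,nat_lit 9]],[[nat_lit 4,nat_lit 5,nat_lit 8],[nat_lit 4,
    nat_lit 5,nat_lit 9],[nat_lit 4,nat_lit 6,nat_lit 0],[nat_lit 4,nat_lit 6,nat_lit 1],[nat_lit 4,nat_lit 8,
    nat_lit 4],[nat_lit 4,nat_lit 8,nat_lit 5],[nat_lit 4,nat_lit 9,nat_lit 4],[nat_lit 4,nat_lit 9,nat_lit 5],
    [nat_lit 4,nat_lit 12],[nat_lit 4,nat_lit 13],[nat_lit 5,nat_lit 0,nat_lit 7],[nat_lit 5,nat_lit 1,nat_lit 7]],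
    [[nat_lit 5,nat_lit 4,nat_lit 8],[nat_lit 5,nat_lit 4,nat_lit 9],[nat_lit 5,nat_lit 5,nat_lit 8],[nat_lit 5,
    nat_lit 5,nat_lit 9],[nat_lit 5,nat_lit 6,nat_lit 0],[nat_lit 5,nat_lit 6,nat_lit 1],[nat_lit 5,nat_lit 8,
    nat_lit 4],[nat_lit 5,nat_lit 8,nat_lit 5],[nat_lit 5,nat_lit 9,nat_lit 4],[nat_lit 5,nat_lit 9,nat_lit 5],
    [nat_lit 5,nat_lit 12],[nat_lit 5,nat_lit 13]],[[nat_lit 6,nat_lit 0,nat_lit 4],[nat_lit 6,nat_lit 0,nat_lit 5],
    [nat_lit 6,nat_lit 1,nat_lit 4],[nat_lit 6,nat_lit 1,nat_lit 5],[nat_lit 6,nat_lit 10],[nat_lit 6,nat_lit 11],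
    [nat_lit 7,nat_lit 4,nat_lit 0],[nat_lit 7,nat_lit 4,nat_lit 1],[nat_lit 7,nat_lit 5,nat_lit 0],[nat_lit 7,
    nat_lit 5,nat_lit 1],[nat_lit 7,nat_lit 10],[nat_lit 7,nat_lit 11]],[[nat_lit 8,nat_lit 4,nat_lit 4],[nat_lit 8,
    nat_lit 4,nat_lit 5],[nat_lit 8,nat_lit 5,nat_lit 4],[nat_lit 8,nat_lit 5,nat_lit 5],[nat_lit 9,nat_lit 4,
    nat_lit 4],[nat_lit 9,nat_lit 4,nat_lit 5],[nat_lit 9,nat_lit 5,nat_lit 4],[nat_lit 9,nat_lit 5,nat_lit 5],
    [nat_lit 10,nat_lit 6],[nat_lit 10,nat_lit 7],[nat_lit 11,nat_lit 6],[nat_lit 11,nat_lit 7]],[[nat_lit 12,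
    nat_lit 4],[nat_lit 12,nat_lit 5],[nat_lit 13,nat_lit 4],[nat_lit 13,nat_lit 5]]]
    [[nat_lit 14,nat_lit 28,nat_lit 42,nat_lit 44,nat_lit 15,nat_lit 29,nat_lit 43,nat_lit 45,nat_lit 2,nat_lit 6,
    nat_lit 16,nat_lit 18],[nat_lit 30,nat_lit 32,nat_lit 36,nat_lit 38,nat_lit 48,nat_lit 50,nat_lit 52,nat_lit 54,
    nat_lit 60,nat_lit 62,nat_lit 3,nat_lit 7],[nat_lit 17,nat_lit 19,nat_lit 31,nat_lit 33,nat_lit 37,nat_lit 39,
    nat_lit 49,nat_lit 51,nat_lit 53,nat_lit 55,nat_lit 61,nat_lit 63],[nat_lit 0,nat_lit 1,nat_lit 4,nat_lit 5,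
    nat_lit 56,nat_lit 58,nat_lit 8,nat_lit 9,nat_lit 22,nat_lit 23,nat_lit 57,nat_lit 59],[nat_lit 10,nat_lit 12,
    nat_lit 24,nat_lit 26,nat_lit 11,nat_lit 13,nat_lit 25,nat_lit 27,nat_lit 40,nat_lit 46,nat_lit 41,nat_lit 47],
    [nat_lit 20,nat_lit 34,nat_lit 21,nat_lit 35]]
    [[nat_lit 36,nat_lit 37,nat_lit 8,nat_lit 22,nat_lit 38,nat_lit 39,nat_lit 9,nat_lit 23,nat_lit 42,nat_lit 43,
    nat_lit 48,nat_lit 52],[nat_lit 49,nat_lit 53,nat_lit 0,nat_lit 4,nat_lit 10,nat_lit 24,nat_lit 11,nat_lit 25,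
    nat_lit 60,nat_lit 62,nat_lit 44,nat_lit 45],[nat_lit 50,nat_lit 54,nat_lit 51,nat_lit 55,nat_lit 1,nat_lit 5,
    nat_lit 12,nat_lit 26,nat_lit 13,nat_lit 27,nat_lit 61,nat_lit 63],[nat_lit 14,nat_lit 28,nat_lit 15,nat_lit 29,
    nat_lit 56,nat_lit 58,nat_lit 2,nat_lit 6,nat_lit 3,nat_lit 7,nat_lit 57,nat_lit 59],[nat_lit 16,nat_lit 30,
    nat_lit 17,nat_lit 31,nat_lit 18,nat_lit 32,nat_lit 19,nat_lit 33,nat_lit 40,nat_lit 46,nat_lit 41,nat_lit 47],
    [nat_lit 20,nat_lit 34,nat_lit 21,nat_lit 35]]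
    [[[],[],[nat_lit 61],[nat_lit 61],[],[],[],[],[],[],[],[]],[[],[],[],[],[],[],[],[],[],[],[],[]],[[],[],[],[],[],
    [],[nat_lit 46],[nat_lit 46],[],[],[nat_lit 42,nat_lit 44],[nat_lit 47]],[[],[],[nat_lit 21],[nat_lit 21],
    [nat_lit 20],[nat_lit 11,nat_lit 13],[],[],[],[],[],[]],[[],[],[],[],[nat_lit 58],[nat_lit 58],[],[],[],
    [nat_lit 49,nat_lit 51],[],[nat_lit 63]],[[nat_lit 56],[],[nat_lit 4,nat_lit 5],[]]]
    (nat_lit 64) [nat_lit 0,nat_lit 1,nat_lit 2,nat_lit 3,nat_lit 4,nat_lit 5,nat_lit 6,nat_lit 7,nat_lit 10,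
    nat_lit 11,nat_lit 12,nat_lit 13,nat_lit 16,nat_lit 17,nat_lit 18,nat_lit 19,nat_lit 20,nat_lit 21,nat_lit 26,
    nat_lit 27,nat_lit 31,nat_lit 33,nat_lit 34,nat_lit 35,nat_lit 40,nat_lit 41,nat_lit 46,nat_lit 47]
    [[[],[],[],[],[nat_lit 2],[nat_lit 3],[nat_lit 0,nat_lit 1],[],[],[],[],[],[],[]],[[],[],[],[],[nat_lit 6],
    [nat_lit 7],[nat_lit 4,nat_lit 5],[],[],[],[],[],[],[]],[[],[],[],[],[],[],[],[],[],[],[],[],[],[]],[[],[],[],[],
    [],[],[],[],[],[],[],[],[],[]],[[nat_lit 14],[nat_lit 15],[],[],[nat_lit 16,nat_lit 18],[nat_lit 17,nat_lit 19],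
    [],[nat_lit 8,nat_lit 9],[nat_lit 10,nat_lit 12],[nat_lit 11,nat_lit 13],[],[],[nat_lit 20],[nat_lit 21]],
    [[nat_lit 28],[nat_lit 29],[],[],[nat_lit 30,nat_lit 32],[nat_lit 31,nat_lit 33],[],[nat_lit 22,nat_lit 23],
    [nat_lit 24,nat_lit 26],[nat_lit 25,nat_lit 27],[],[],[nat_lit 34],[nat_lit 35]],[[],[],[],[],[nat_lit 36,
    nat_lit 38],[nat_lit 37,nat_lit 39],[],[],[],[],[nat_lit 40],[nat_lit 41],[],[]],[[nat_lit 42,nat_lit 44],
    [nat_lit 43,nat_lit 45],[],[],[],[],[],[],[],[],[nat_lit 46],[nat_lit 47],[],[]],[[],[],[],[],[nat_lit 48,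
    nat_lit 50],[nat_lit 49,nat_lit 51],[],[],[],[],[],[],[],[]],[[],[],[],[],[nat_lit 52,nat_lit 54],[nat_lit 53,
    nat_lit 55],[],[],[],[],[],[],[],[]],[[],[],[],[],[],[],[nat_lit 56],[nat_lit 57],[],[],[],[],[],[]],[[],[],[],[],
    [],[],[nat_lit 58],[nat_lit 59],[],[],[],[],[],[]],[[],[],[],[],[nat_lit 60],[nat_lit 61],[],[],[],[],[],[],[],
    []],[[],[],[],[],[nat_lit 62],[nat_lit 63],[],[],[],[],[],[],[],[]]]
    [[[nat_lit 0,nat_lit 0,nat_lit 0x2000000000000000,nat_lit 0x2000000000000000,nat_lit 0,nat_lit 0,nat_lit 0,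
    nat_lit 0,nat_lit 0],[nat_lit 0,nat_lit 0,nat_lit 0,nat_lit 0,nat_lit 0,nat_lit 0,nat_lit 0,nat_lit 0,nat_lit 0],
    [nat_lit 0,nat_lit 0,nat_lit 0,nat_lit 0,nat_lit 0,nat_lit 0,nat_lit 0,nat_lit 0,nat_lit 0],[nat_lit 0,nat_lit 0,
    nat_lit 0,nat_lit 0x400000000000,nat_lit 0x400000000000,nat_lit 0,nat_lit 0,nat_lit 0x140000000000,
    nat_lit 0x800000000000],[nat_lit 0,nat_lit 0,nat_lit 0x200000,nat_lit 0x200000,nat_lit 0x100000,nat_lit 0x2800,
    nat_lit 0,nat_lit 0,nat_lit 0],[nat_lit 0,nat_lit 0,nat_lit 0,nat_lit 0,nat_lit 0,nat_lit 0,nat_lit 0,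
    nat_lit 0x400000000000000,nat_lit 0x400000000000000],[nat_lit 0,nat_lit 0,nat_lit 0,nat_lit 0xa000000000000,
    nat_lit 0,nat_lit 0x8000000000000000,nat_lit 0x100000000000000,nat_lit 0,nat_lit 48],[nat_lit 0]]]
    []
    (nat_lit 0) (nat_lit 4) (nat_lit 4)
    [[nat_lit 2,nat_lit 18,nat_lit 0x1002,nat_lit 17,nat_lit 34,nat_lit 0x1012,nat_lit 33,nat_lit 0x10021,nat_lit 273,
    nat_lit 0x1011,nat_lit 0x11011,nat_lit 0x10011,nat_lit 0x20011,nat_lit 0x1010011,nat_lit 0x2010011,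
    nat_lit 0x100011,nat_lit 0x1000011,nat_lit 0x2000011,nat_lit 0x3000011,nat_lit 0x1000012,nat_lit 0x1001011,
    nat_lit 0x1010021,nat_lit 0x1011011,nat_lit 0x1020011,nat_lit 257,nat_lit 0x1001,nat_lit 0x11001,nat_lit 0x2002,
    nat_lit 0x2001,nat_lit 0x21001,nat_lit 0x1011001,nat_lit 0x1001001,nat_lit 0x2001001,nat_lit 0x10001,
    nat_lit 0x20001,nat_lit 0x1010001,nat_lit 0x2010001,nat_lit 0x1000001,nat_lit 0x2000001,nat_lit 0x3000001],
    [nat_lit 32,nat_lit 0x1020,nat_lit 0x10020,nat_lit 0x20020,nat_lit 0x100020,nat_lit 0x1000020,nat_lit 0x1010020,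
    nat_lit 272,nat_lit 0x1110,nat_lit 0x10110,nat_lit 0x20110,nat_lit 0x1010,nat_lit 0x2010,nat_lit 0x11010,
    nat_lit 0x21010,nat_lit 0x1011010,nat_lit 0x1001010,nat_lit 0x10010,nat_lit 0x20010,nat_lit 0x30010,
    nat_lit 0x40010,nat_lit 0x1020010,nat_lit 0x1030010,nat_lit 0x110010,nat_lit 0x1010010,nat_lit 0x2010010,
    nat_lit 0x2020010,nat_lit 0x100010,nat_lit 0x1000010,nat_lit 0x2000010,nat_lit 0x3000010,nat_lit 0x1100010,
    nat_lit 0x3010010],[nat_lit 512,nat_lit 0x1100,nat_lit 0x11100,nat_lit 0x1001100,nat_lit 0x10100,nat_lit 0x20100,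
    nat_lit 0x30100,nat_lit 0x1010100,nat_lit 0x100100],[nat_lit 0x2000,nat_lit 0x12000,nat_lit 0x11000,
    nat_lit 0x21000,nat_lit 0x31000,nat_lit 0x1021000,nat_lit 0x1011000,nat_lit 0x2011000,nat_lit 0x1001000,
    nat_lit 0x2001000],[nat_lit 0x20000,nat_lit 0x30000,nat_lit 0x40000,nat_lit 0x50000,nat_lit 0x60000,
    nat_lit 0x1050000,nat_lit 0x1040000,nat_lit 0x2040000,nat_lit 0x1030000,nat_lit 0x2030000,nat_lit 0x3030000,
    nat_lit 0x120000,nat_lit 0x1020000,nat_lit 0x2020000,nat_lit 0x3020000,nat_lit 0x4020000,nat_lit 0x110000,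
    nat_lit 0x1110000,nat_lit 0x1010000,nat_lit 0x2010000,nat_lit 0x3010000,nat_lit 0x4010000,nat_lit 0x5010000],
    [nat_lit 0x200000,nat_lit 0x1100000,nat_lit 0x2100000],[nat_lit 0x2000000,nat_lit 0x3000000,nat_lit 0x4000000,
    nat_lit 0x5000000,nat_lit 0x6000000,nat_lit 0x7000000]]
    [.c (nat_lit 1) (nat_lit 2),.c (nat_lit 0) (nat_lit 0x103005105),.c (nat_lit 0) (nat_lit 0x205105107),
    .c (nat_lit 0) (nat_lit 0xc3083),.c (nat_lit 3) (nat_lit 0x410c142),.c (nat_lit 3) (nat_lit 0xc20040c2),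
    .c (nat_lit 0) (nat_lit 0x145103),.c (nat_lit 2) (nat_lit 0x820c2),.c (nat_lit 3) (nat_lit 0x20860c2),
    .c (nat_lit 0) (nat_lit 0x103005105),.c (nat_lit 4) (nat_lit 0x820c2),.c (nat_lit 0) (nat_lit 0xc3083),
    .c (nat_lit 5) (nat_lit 0x820c2),.c (nat_lit 3) (nat_lit 0xc0083),.c (nat_lit 0) (nat_lit 0x20820c2),
    .r (nat_lit 0x1847) (nat_lit 8) [nat_lit 0x20000c1,nat_lit 0x30c2001,nat_lit 0x82183001,nat_lit 129],
    .c (nat_lit 3) (nat_lit 0x20840c2),.c (nat_lit 0) (nat_lit 0x20820c2),.c (nat_lit 0) (nat_lit 0x820820c2),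
    .c (nat_lit 4) (nat_lit 0x83003083),.c (nat_lit 1) (nat_lit 0x83003083),.c (nat_lit 0) (nat_lit 0x82288246),
    .c (nat_lit 0) (nat_lit 0x2104144),.c (nat_lit 3) (nat_lit 0x20c4083),.c (nat_lit 0) (nat_lit 0x80082003),
    .c (nat_lit 0) (nat_lit 0x103103087),.r (nat_lit 32) (nat_lit 2) [nat_lit 0xc20c1,nat_lit 0x80001],
    .c (nat_lit 3) (nat_lit 0x100104003),.r (nat_lit 0) (nat_lit 4) [nat_lit 0x20040800c1,nat_lit 0x3003000081],
    .r (nat_lit 0x174b) (nat_lit 3) [nat_lit 0x80001,nat_lit 0x2000001,nat_lit 0x31440c1],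
    .c (nat_lit 3) (nat_lit 0x82088003),.c (nat_lit 3) (nat_lit 0x80084003),.c (nat_lit 0) (nat_lit 0x146140004),
    .c (nat_lit 0) (nat_lit 0xc3083),.c (nat_lit 0) (nat_lit 0x145103),
    .r (nat_lit 0x1b4a) (nat_lit 13) [nat_lit 0x30c20c1,nat_lit 0x80001,nat_lit 0x2000001],
    .c (nat_lit 0) (nat_lit 0x2000002),.c (nat_lit 0) (nat_lit 0x850c5107),.c (nat_lit 2) (nat_lit 0x30c3083),
    .c (nat_lit 0) (nat_lit 0x6000004),.c (nat_lit 2) (nat_lit 2),
    .r (nat_lit 0xcf3) (nat_lit 9) [nat_lit 0x3102285081,nat_lit 0x81441440c1,nat_lit 0x40c5248141,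
    nat_lit 0x9102105081,nat_lit 0x21431440c1],.c (nat_lit 0) (nat_lit 0x145103),.c (nat_lit 0) (nat_lit 0x145103),
    .r (nat_lit 0x18e8) (nat_lit 4) [nat_lit 129,nat_lit 0x80001,nat_lit 0x2000001,nat_lit 0x2000000001],
    .r (nat_lit 0xcf4) (nat_lit 9) [nat_lit 0x100001,nat_lit 0x4108105081,nat_lit 0x100000001,nat_lit 0x51451440c1,
    nat_lit 0x1451440c1],.r (nat_lit 0x1b4d) (nat_lit 13) [nat_lit 0x2002083081,nat_lit 0x80001,nat_lit 0x2000001],
    .c (nat_lit 0) (nat_lit 0x2140105),.r (nat_lit 0xcf5) (nat_lit 9) [nat_lit 0x3080103081,nat_lit 0x60c40020c1,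
    nat_lit 0x4000004141,nat_lit 0x7080003081,nat_lit 0x20c00020c1],.c (nat_lit 0) (nat_lit 0x2140105),
    .c (nat_lit 4) (nat_lit 0x831000c2),.c (nat_lit 0) (nat_lit 0x103005105),
    .r (nat_lit 0xcf6) (nat_lit 8) [nat_lit 385,nat_lit 0x40c20c20c1,nat_lit 0x30c50c20c1,nat_lit 0x6000001,
    nat_lit 0x5089144141],.r (nat_lit 0x1b4d) (nat_lit 12) [nat_lit 0x30c20c1,nat_lit 0x80001,nat_lit 0x2000001],
    .r (nat_lit 0xcf7) (nat_lit 11) [nat_lit 0x20c4083081,nat_lit 0x40c6083081,nat_lit 0x91112481c1,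
    nat_lit 0x30850020c1,nat_lit 0x40c8105101],.r (nat_lit 0xcf8) (nat_lit 1) [nat_lit 0x30000c20c1,
    nat_lit 0x5100105101,nat_lit 0x2004083081,nat_lit 0x20000820c1,nat_lit 0x4145248141],
    .r (nat_lit 0xef4) (nat_lit 8) [nat_lit 0x80000101,nat_lit 0xc5144141,nat_lit 0xc0000001,nat_lit 0x4000001],
    .c (nat_lit 0) (nat_lit 0xc3083),.c (nat_lit 0) (nat_lit 0x145103),
    .r (nat_lit 0x167b) (nat_lit 1) [nat_lit 0xc000001,nat_lit 257,nat_lit 0x1803000c1,nat_lit 0xd34c141],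
    .r (nat_lit 0xcf9) (nat_lit 1) [nat_lit 0x31832020c1,nat_lit 0x80100001,nat_lit 0x21c4243081,nat_lit 0x240440081,
    nat_lit 0x1832820c1],.r (nat_lit 0x1847) (nat_lit 8) [nat_lit 0x2006105081,nat_lit 0x30c2001,nat_lit 0x82183001,
    nat_lit 0x30051440c1],.r (nat_lit 0xcfa) (nat_lit 0) [nat_lit 0x31031820c1,nat_lit 0x80001,nat_lit 0x1032020c1,
    nat_lit 0x1c03c0081,nat_lit 0x21441c3081],.c (nat_lit 3) (nat_lit 0x800840c2),.c (nat_lit 4) (nat_lit 0x801020c2),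
    .c (nat_lit 0) (nat_lit 0x102204144),.c (nat_lit 0) (nat_lit 0x102204144),.c (nat_lit 3) (nat_lit 0x820880c2),
    .c (nat_lit 0) (nat_lit 0x3145105),.c (nat_lit 1) (nat_lit 0x30c3083),.c (nat_lit 0) (nat_lit 0x821020c2),
    .c (nat_lit 5) (nat_lit 0xc00c3083),.c (nat_lit 0) (nat_lit 0x821020c2),.c (nat_lit 3) (nat_lit 2),
    .c (nat_lit 0) (nat_lit 0x80082003),.r (nat_lit 0) (nat_lit 4) [nat_lit 0x821000c1,nat_lit 0xc00c0081],
    .c (nat_lit 0) (nat_lit 0x3002),.c (nat_lit 0) (nat_lit 0x2004003),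
    .r (nat_lit 32) (nat_lit 2) [nat_lit 0x30830020c1,nat_lit 0x80001],
    .r (nat_lit 0x174b) (nat_lit 3) [nat_lit 0x80001,nat_lit 0x2000001,nat_lit 0x30850c40c1],
    .c (nat_lit 3) (nat_lit 0x2006003),.r (nat_lit 0) (nat_lit 4) [nat_lit 129,nat_lit 0x20800c1],
    .c (nat_lit 4) (nat_lit 2),.r (nat_lit 0) (nat_lit 4) [nat_lit 0x841000c2,nat_lit 0xc0000082],
    .r (nat_lit 0x1b04) (nat_lit 7) [nat_lit 129,nat_lit 0x80001],.r (nat_lit 0x17ad) (nat_lit 4) [nat_lit 0x80001,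
    nat_lit 0x2000001,nat_lit 0x3000081,nat_lit 0x2000000001],.r (nat_lit 0xcfb) (nat_lit 0) [nat_lit 0x1823000c1,
    nat_lit 0x80001,nat_lit 0x21823800c1,nat_lit 0x3245542081,nat_lit 0x1c0340081],
    .r (nat_lit 0xcfc) (nat_lit 1) [nat_lit 0x1022800c1,nat_lit 0x80100001,nat_lit 0x1402c0081,nat_lit 0x31c54c2081,
    nat_lit 0x21023000c1],.r (nat_lit 0xcb6) (nat_lit 10) [nat_lit 0xc0000081,nat_lit 0x80000001,nat_lit 0x820000c1,
    nat_lit 0x20820000c1,nat_lit 0x31450c2081],.c (nat_lit 0) (nat_lit 0x2000002),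
    .r (nat_lit 0) (nat_lit 4) [nat_lit 0x20800c1,nat_lit 129],.c (nat_lit 0) (nat_lit 0x2000002),
    .c (nat_lit 5) (nat_lit 2),.r (nat_lit 32) (nat_lit 2) [nat_lit 0x50851440c2,nat_lit 0x80001],
    .r (nat_lit 40) (nat_lit 4) [nat_lit 130,nat_lit 0x92480c2,nat_lit 0x80001],
    .r (nat_lit 0x174b) (nat_lit 3) [nat_lit 0x80001,nat_lit 0x2000001,nat_lit 0x50892480c2],
    .r (nat_lit 75) (nat_lit 4) [nat_lit 130,nat_lit 0xd34c0c2,nat_lit 0x80001],
    .r (nat_lit 0xcfd) (nat_lit 4) [nat_lit 0x2c0000081,nat_lit 0x172175d61c1,nat_lit 0x80000101,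
    nat_lit 0x1626c597181,nat_lit 0x2805800c1],.r (nat_lit 0xcfe) (nat_lit 9) [nat_lit 0x2004800c1,
    nat_lit 0x12252000081,nat_lit 0x80000101,nat_lit 0x132000000c1,nat_lit 0x240000081],
    .c (nat_lit 3) (nat_lit 0x8014003),.r (nat_lit 0xed2) (nat_lit 0) [nat_lit 0xe000001,nat_lit 0x1c0000081,
    nat_lit 0xcf3ce141,nat_lit 0x1803800c1],.c (nat_lit 3) (nat_lit 0x6010003),.c (nat_lit 0) (nat_lit 0x6000004),
    .r (nat_lit 0x1b4a) (nat_lit 13) [nat_lit 0x30830c20c1,nat_lit 0x80001,nat_lit 0x2000001],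
    .r (nat_lit 0x174b) (nat_lit 3) [nat_lit 0x80001,nat_lit 0x2000001,nat_lit 0x30051440c1],
    .c (nat_lit 3) (nat_lit 0x400c003),.c (nat_lit 0) (nat_lit 0x6000004),.c (nat_lit 0) (nat_lit 0x4000002),
    .c (nat_lit 0) (nat_lit 0x1420c5107),.c (nat_lit 2) (nat_lit 0xc00c3083),
    .r (nat_lit 32) (nat_lit 2) [nat_lit 0x30030c20c1,nat_lit 0x80001],.c (nat_lit 3) (nat_lit 0x2008003),
    .c (nat_lit 0) (nat_lit 0x6000004),.c (nat_lit 0) (nat_lit 0x4000002),.c (nat_lit 0) (nat_lit 0xa000004),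
    .c (nat_lit 6) (nat_lit 2),.c (nat_lit 0) (nat_lit 0x80000002),.c (nat_lit 0) (nat_lit 0x80000002),
    .c (nat_lit 7) (nat_lit 2),.c (nat_lit 0) (nat_lit 0x6000004),.c (nat_lit 0) (nat_lit 0x4000002),
    .c (nat_lit 0) (nat_lit 0xa000004),.c (nat_lit 0) (nat_lit 0x6000002),.c (nat_lit 0) (nat_lit 0xe000004)]]

/-- nodes -/
noncomputable def rD7k_19_14 : List RJ :=
  [.l (nat_lit 13) (nat_lit 0x5a0) (nat_lit 4) (nat_lit 0x2750000027500000257000002570000026200000267000002e8000002e8000002880000021400000257000002570000027500000275) (nat_lit 0x7300000073000000910000009100000081000000860000000000000000000000d40000006000000091000000910000007300000073)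
    (nat_lit 0x10a08083c81d20e087bc4ea2a20cd88543b01ea10108383e02140f2079044e1cb17f0cac2fa2690f207604281f00f207483d41d809007444062240c785b83b01ea0e907903c81e40f507a82da1d10fb889031e1200f507783c81e40e587bc3a21d110a06e06722cb0bb09883a21c50f7872c44e1c10b684803cc21416a899c38023a09005b438e2211958a884482241338b2c56a2e813e886845422a1540cac5fc2750fb880c5aa3391410ad44b828810187dc4ea2f8134885424016e11d098851021a10a0a382e81af10a89a42fa19b0c7863c38017612e09f42442140c7860c3361770ec07a83bc1ea0b687143ee22a0c186bc3e01e40f507603c81d80f507602401d110188a831e1740ef07c03b01e40f808383c81e4110872c5f032b0bb89a43c81d810707a84282020f2074838e1ef13a8aa03362150ec07a840420e)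
    (nat_lit 0x10a1680b405a02d01680b405a02d01680b405a02d016804042142d01680b405a02d01680b405a02d01680b405a00f207903d45a02d01680b405a02d01680b405a02d016803a41e40ec07a8b405a02d01680b405a02d01680b405a00e0889c24016d10a1680b405a02d01680b405a02d016803de1cb0e887443702142d01680b405a02d01680b405a013a8bf84061f719c8b5456a5a02d01680b405a02d0168054432b11208905962671740ad4b405a02d01680b405a00cd85f431e18f0bb07004fa25c10a1680b405a02d0168042a2690b704804c423a10d0a2051c2142d01680b405a00ec07903b01ea0e884804542030ba063c3e05a02d016803d41d80f5077838a16d11507dc35e1830f207c0b405a010108503a41e40f7871c55027510a866c3d41d8107168041c1f00f207903962211958be04d21770ec07903d420e)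
    (nat_lit 3) (nat_lit 49)
    [[nat_lit 2,nat_lit 258,nat_lit 17,nat_lit 273,nat_lit 0x10011,nat_lit 0x100011,nat_lit 257,nat_lit 0x100101,
    nat_lit 0x10001,nat_lit 0x110001,nat_lit 0x100001,nat_lit 0x1000001],[nat_lit 32,nat_lit 288,nat_lit 0x10020,
    nat_lit 272,nat_lit 528,nat_lit 0x10110,nat_lit 0x100110,nat_lit 0x1000110,nat_lit 0x110110,nat_lit 0x1010,
    nat_lit 0x10010,nat_lit 0x20010,nat_lit 0x110010,nat_lit 0x1010010,nat_lit 0x100010,nat_lit 0x1100010,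
    nat_lit 0x1000010],[nat_lit 512,nat_lit 0x100200,nat_lit 0x200200,nat_lit 0x1100,nat_lit 0x10100,nat_lit 0x110100,
    nat_lit 0x100100,nat_lit 0x200100,nat_lit 0x1100100,nat_lit 0x1000100],[nat_lit 0x2000,nat_lit 0x101000],
    [nat_lit 0x20000,nat_lit 0x120000,nat_lit 0x110000,nat_lit 0x210000,nat_lit 0x1110000,nat_lit 0x1010000],
    [nat_lit 0x200000,nat_lit 0x1100000],[nat_lit 0x2000000]]
    [.c (nat_lit 1) (nat_lit 2),.r (nat_lit 0x1ad1) (nat_lit 1) [nat_lit 0x1b499,nat_lit 0x401,nat_lit 0x2001,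
    nat_lit 0xa11],.r (nat_lit 0x174d) (nat_lit 4) [nat_lit 0x12419,nat_lit 17],
    .r (nat_lit 0x1adc) (nat_lit 0) [nat_lit 0x601,nat_lit 0x18099,nat_lit 0x10401],
    .r (nat_lit 0x1835) (nat_lit 3) [nat_lit 0x2001,nat_lit 0x20419,nat_lit 0x611,nat_lit 0x411],
    .c (nat_lit 1) (nat_lit 0x602),.c (nat_lit 0) (nat_lit 0x3613),.r (nat_lit 0x174d) (nat_lit 3) [nat_lit 0x18099,
    nat_lit 0x10001],.c (nat_lit 1) (nat_lit 130),.r (nat_lit 0x1a6d) (nat_lit 6) [nat_lit 0x10001,nat_lit 0x28611,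
    nat_lit 0x10401],.r (nat_lit 0x1b04) (nat_lit 0) [nat_lit 0x611,nat_lit 0x10401],.c (nat_lit 0) (nat_lit 0x3613),
    .c (nat_lit 2) (nat_lit 2),.r (nat_lit 0xfa9) (nat_lit 5) [nat_lit 0xa01,nat_lit 0x20801,nat_lit 17,
    nat_lit 0x2d101],.r (nat_lit 0xfa8) (nat_lit 11) [nat_lit 0x10401,nat_lit 17,nat_lit 0x10001,nat_lit 0x1b081],
    .r (nat_lit 0x174f) (nat_lit 4) [nat_lit 0x10401,nat_lit 17],.r (nat_lit 0xfaa) (nat_lit 10) [nat_lit 0x20801,
    nat_lit 0xa01,nat_lit 0x4001,nat_lit 0x2d119],.r (nat_lit 0x1adc) (nat_lit 0) [nat_lit 0x601,nat_lit 0x18699,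
    nat_lit 0x10401],.c (nat_lit 3) (nat_lit 0x602),.r (nat_lit 0x1a32) (nat_lit 6) [nat_lit 0x601,nat_lit 0x18099,
    nat_lit 0x224d1],.c (nat_lit 7) (nat_lit 0x30d3),.r (nat_lit 0x1a32) (nat_lit 6) [nat_lit 0x601,nat_lit 0x12419,
    nat_lit 17],.r (nat_lit 0x174d) (nat_lit 4) [nat_lit 0x12019,nat_lit 0x411],
    .r (nat_lit 0x1835) (nat_lit 3) [nat_lit 0x2001,nat_lit 0x20019,nat_lit 17,nat_lit 0x811],
    .c (nat_lit 1) (nat_lit 0x682),.r (nat_lit 2) (nat_lit 8) [nat_lit 0x18699,nat_lit 0x10001],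
    .c (nat_lit 0) (nat_lit 0x403),.c (nat_lit 7) (nat_lit 0x602),.r (nat_lit 0x1750) (nat_lit 3) [nat_lit 0x10001,
    nat_lit 17],.c (nat_lit 3) (nat_lit 2),.r (nat_lit 0x1ad0) (nat_lit 8) [nat_lit 0x601,nat_lit 0x10401,
    nat_lit 0x100d1],.r (nat_lit 2) (nat_lit 8) [nat_lit 18,nat_lit 0x10001],
    .r (nat_lit 0x1b3b) (nat_lit 0) [nat_lit 0x601,nat_lit 0x18611,nat_lit 0x10401],.c (nat_lit 0) (nat_lit 0x36d3),
    .r (nat_lit 0x174d) (nat_lit 3) [nat_lit 0x18699,nat_lit 0x10001],.r (nat_lit 0x174f) (nat_lit 8) [nat_lit 17,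
    nat_lit 0x10001],.r (nat_lit 0x1a1a) (nat_lit 11) [nat_lit 0x601,nat_lit 0x10401,nat_lit 0x100d1],
    .r (nat_lit 32) (nat_lit 3) [nat_lit 0x18699,nat_lit 0x10401],.c (nat_lit 0) (nat_lit 0x3613),
    .c (nat_lit 4) (nat_lit 2),.r (nat_lit 32) (nat_lit 3) [nat_lit 0x12019,nat_lit 0x10401],
    .c (nat_lit 5) (nat_lit 2),.r (nat_lit 0x1a6d) (nat_lit 6) [nat_lit 0x10001,nat_lit 0x28011,nat_lit 0x10401],
    .r (nat_lit 0x1b04) (nat_lit 0) [nat_lit 17,nat_lit 0x10401],.r (nat_lit 0x1ad8) (nat_lit 6) [nat_lit 0x10001,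
    nat_lit 0x18011,nat_lit 0x10401],.r (nat_lit 0x174e) (nat_lit 4) [nat_lit 0x18699,nat_lit 0x10401],
    .c (nat_lit 0) (nat_lit 0x36d3),.c (nat_lit 6) (nat_lit 2),.r (nat_lit 0x1a14) (nat_lit 0) [nat_lit 0x601,
    nat_lit 0x10401,nat_lit 17],.c (nat_lit 7) (nat_lit 2)],
    .l (nat_lit 15) (nat_lit 0x13b0) (nat_lit 4) (nat_lit 0x7b100000771000007d0000007d0000007d0000007d0000007fa000007fa000007d0000007d000000910000009100000084400000844) (nat_lit 0x19f0000015f00000140000001400000014000000140000001160000011600000140000001400000000000000000000000cc000000cc)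
    (nat_lit 0xdf41be824186710d361d6434d8759069217cc3d887b10dca0e4c2de06fa0c6218c434286310cb6196c30d86310ee21dc435286a50c6219c434806a60d201a4035d06660d201a403e807e60c381c1031884830d201a4034806900d74199834806900a741f4030e07040c621d6434806900dc81a4035d06ba0d201a403e807d011e42668342869b0d201a4034806e40d741ae834806900fa0173832303480cb61d6433306660d741ae837206e411781ae85db07fa0e081cb832d869b0d741ae835d06ba0dc81b904b206ba176c1fe83d6072e0c6217cc34806900d201a4035d06ba0d201a403e805260e080d2030d83490d201a40348069012c822f035d06900ff41f4038207040ee21ec43e807e60b9c1f403fd07fa0fa0149848808e616d820683b887b10a741f403e807d0176c2ed83fd07d0122024405cb08440d4a0e4c382070406902668397072e0e080d20422081a0ef01de035286e50c38187032308f20f581c103820704172c2db03680778)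
    (nat_lit 0xdf44ec09d813b027604ec09d813b027604ec09d813b027604ec037d06fa27604ec09d813b027604ec09d813b027604ec09d813b0090618c434813b027604ec09d813b027604ec09d813b027604ec033886310d4c1a409d813b027604ec09d813b027604ec09d813b00d361a1434806900dc84ec09d813b027604ec09d813b027604ec03ac86310d201a4034806e427604ec09d813b027604ec09d813b00d36196c35d06ba0d741ae837213b027604ec09d813b027604ec03ac865b0ccc199835d06ba0dc81b909d813b027604ec09d813b00692186c34806900d201a4045e09640d204ec09d813b027604ec02f986310d201a4034806900d741ae8348069027604ec09d813b00f621dc43e8053a0fa01f405d00bb60fa01fe848813b027604ec03d887710fcc1f403e805ce0ff41fe829307d011cc24409d813b00dca1a9430e061c11e4191838207ac0e081c105b60b560ef04ec01c986a50e081c104cd03480e5c1cb81a40704103421103bc0778)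
    (nat_lit 3) (nat_lit 49)
    [[nat_lit 2,nat_lit 258,nat_lit 0x1000002,nat_lit 257,nat_lit 513,nat_lit 0x10101,nat_lit 0x1000101,
    nat_lit 0x2000101,nat_lit 0x1001,nat_lit 0x11001,nat_lit 0x1001001,nat_lit 0x10001,nat_lit 0x20001,
    nat_lit 0x1010001,nat_lit 0x1010101,nat_lit 0x100001,nat_lit 0x100011,nat_lit 0x100101,nat_lit 0x110001,
    nat_lit 0x1100001,nat_lit 0x1100101,nat_lit 0x1000001,nat_lit 0x2000001],[nat_lit 32,nat_lit 272,
    nat_lit 0x1000110,nat_lit 0x10010,nat_lit 0x10110,nat_lit 0x100010,nat_lit 0x100110,nat_lit 0x101010,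
    nat_lit 0x110010,nat_lit 0x1100010,nat_lit 0x1000010],[nat_lit 512,nat_lit 0x1000200,nat_lit 0x1100,
    nat_lit 0x10100,nat_lit 0x1010100,nat_lit 0x100100,nat_lit 0x1100100,nat_lit 0x1000100,nat_lit 0x2000200,
    nat_lit 0x1001100,nat_lit 0x2000100],[nat_lit 0x2000,nat_lit 0x11000,nat_lit 0x101000,nat_lit 0x1101000,
    nat_lit 0x1001000,nat_lit 0x1011000],[nat_lit 0x20000,nat_lit 0x110000,nat_lit 0x1110000,nat_lit 0x1010000],
    [nat_lit 0x200000,nat_lit 0x1200000,nat_lit 0x1100000,nat_lit 0x2100000],[nat_lit 0x2000000]]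
    [.c (nat_lit 1) (nat_lit 2),.r (nat_lit 0x1b18) (nat_lit 4) [nat_lit 0x401,nat_lit 0x2001,nat_lit 0x10001],
    .c (nat_lit 1) (nat_lit 194),.r (nat_lit 4) (nat_lit 9) [nat_lit 0x401,nat_lit 0x10611],
    .r (nat_lit 0x1999) (nat_lit 4) [nat_lit 0x401,nat_lit 0x12001,nat_lit 0x611],
    .r (nat_lit 0x174e) (nat_lit 5) [nat_lit 0x401,nat_lit 0x18099],.c (nat_lit 3) (nat_lit 194),
    .r (nat_lit 2) (nat_lit 1) [nat_lit 0x611,nat_lit 0x2401],.c (nat_lit 1) (nat_lit 0x3082),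
    .r (nat_lit 0x1b18) (nat_lit 4) [nat_lit 0x401,nat_lit 0x2001,nat_lit 0x10001],.c (nat_lit 1) (nat_lit 0x3002),
    .r (nat_lit 32) (nat_lit 0) [nat_lit 0x10001,nat_lit 17],.r (nat_lit 0x1947) (nat_lit 0) [nat_lit 0x10001,
    nat_lit 0x2001,nat_lit 0x401,nat_lit 0x611],.c (nat_lit 5) (nat_lit 194),.c (nat_lit 6) (nat_lit 0x3613),
    .r (nat_lit 0x1750) (nat_lit 4) [nat_lit 0x2401,nat_lit 0x10611],.c (nat_lit 0) (nat_lit 0x6c2),
    .r (nat_lit 0x1b50) (nat_lit 0) [nat_lit 0x1b699,nat_lit 0x10001,nat_lit 0x2401],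
    .r (nat_lit 2) (nat_lit 1) [nat_lit 0x1b099,nat_lit 0x2401],.c (nat_lit 6) (nat_lit 194),
    .c (nat_lit 5) (nat_lit 0x3613),.c (nat_lit 0) (nat_lit 131),.c (nat_lit 7) (nat_lit 194),
    .c (nat_lit 2) (nat_lit 2),.r (nat_lit 2) (nat_lit 1) [nat_lit 0x3011,nat_lit 0x2401],
    .r (nat_lit 0x1a45) (nat_lit 1) [nat_lit 0x104d1,nat_lit 0x144d1,nat_lit 0x1b681,nat_lit 0x18499],
    .r (nat_lit 0x1b50) (nat_lit 0) [nat_lit 0x3611,nat_lit 0x10001,nat_lit 0x2401],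
    .r (nat_lit 0x1750) (nat_lit 4) [nat_lit 0x2401,nat_lit 0x699],.r (nat_lit 0x174e) (nat_lit 5) [nat_lit 0x401,
    nat_lit 17],.r (nat_lit 32) (nat_lit 0) [nat_lit 0x10001,nat_lit 0x18099],.c (nat_lit 0) (nat_lit 0x3602),
    .r (nat_lit 4) (nat_lit 9) [nat_lit 0x401,nat_lit 0x699],.r (nat_lit 0x1b18) (nat_lit 4) [nat_lit 0x401,
    nat_lit 0x2001,nat_lit 0x10001],.r (nat_lit 0x174a) (nat_lit 9) [nat_lit 0x22019,nat_lit 0x2819,nat_lit 17],
    .c (nat_lit 3) (nat_lit 2),.r (nat_lit 0x1a22) (nat_lit 10) [nat_lit 0x18401,nat_lit 0x12001,nat_lit 0x24d1],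
    .r (nat_lit 4) (nat_lit 9) [nat_lit 0x401,nat_lit 17],.c (nat_lit 0) (nat_lit 0x36d3),
    .r (nat_lit 0x174d) (nat_lit 4) [nat_lit 0x3699,nat_lit 0x2401],.c (nat_lit 0) (nat_lit 0x36d3),
    .r (nat_lit 4) (nat_lit 8) [nat_lit 0x3699,nat_lit 0x2401],.r (nat_lit 0x174f) (nat_lit 1) [nat_lit 17,
    nat_lit 0x2401],.r (nat_lit 2) (nat_lit 1) [nat_lit 18,nat_lit 0x2401],.c (nat_lit 3) (nat_lit 0x3002),
    .r (nat_lit 0x1b11) (nat_lit 1) [nat_lit 0x18401,nat_lit 0x12001,nat_lit 0x24d1],.c (nat_lit 4) (nat_lit 2),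
    .r (nat_lit 32) (nat_lit 0) [nat_lit 0x10001,nat_lit 0x18411],.r (nat_lit 0x1750) (nat_lit 4) [nat_lit 0x2401,
    nat_lit 17],.c (nat_lit 6) (nat_lit 0x3002),.c (nat_lit 0) (nat_lit 0x2003),.c (nat_lit 5) (nat_lit 0x3002),
    .c (nat_lit 5) (nat_lit 2),.c (nat_lit 0) (nat_lit 0x36d3),.r (nat_lit 0x12a1) (nat_lit 8) [nat_lit 0x2401,
    nat_lit 0x12001,nat_lit 17,nat_lit 0x1b681],.r (nat_lit 0x1b18) (nat_lit 4) [nat_lit 0x401,nat_lit 0x2001,
    nat_lit 0x10001],.c (nat_lit 6) (nat_lit 2),.r (nat_lit 0x1b18) (nat_lit 4) [nat_lit 0x401,nat_lit 0x2001,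
    nat_lit 0x10001],.r (nat_lit 0x1750) (nat_lit 5) [nat_lit 17,nat_lit 0x12001],
    .r (nat_lit 0x1b18) (nat_lit 4) [nat_lit 0x401,nat_lit 0x2001,nat_lit 0x10001],.c (nat_lit 7) (nat_lit 2)]]

/-- nodes -/
noncomputable def rD7k_19_15 : List RJ :=
  [.s (nat_lit 17) (nat_lit 0x4b00) (nat_lit 5) (nat_lit 0x1edc00001edc00001b7c00001b7c00002314000023140000204c0000204c00001e6000001d840000210c0000210c0000265000002650) (nat_lit 0x7740000077400000ad400000ad40000033c0000033c0000060400000604000008cc000007f000000544000005440000000000000000)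
    (nat_lit 0xe6c05da0209818d815c0097c031b018d806d005bb0333017c80f6e0623030101cd80a040502049301f080bac063602c20190c0ae00562034181edc0a04063601a8010080c200610026b00c800b60054302c7016380b0607d502810104c085403500308018400b60055e027f00c800b1c058e022581c8c0f84097c0308018400fec07f6048381d100d240677039801c88136808c5049302b800c20061003fb01fd80e88074402ab81b240e4407740462815c40c6c063602af00c800e880744034901a480bc00617050b01ff40836086502eb018d80b6004d603a20241c0c80069202f00185c154a088c04098204c0c8605bb01900150c0d920677030b8185c073605ee03238191c0f3003b502c200da009fc05b002ab81a480bc005e0029700e6c0b10061003ea81d840ac405f202c7016380ee80722044601ff40c200647037901bc814be08cb02b8019980b1c058e039101cc0154a0a1602c40191c0de406f204eb8210c0f6e0623039181f540ae208c50409821940ec203b504218232c13280994034181edc089605830462826d01026041b03ea81e6013ae0a5f04ca02650)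
    (nat_lit 0xe6c12c0096004b00258012c0096004b00258012c0096004b00258012c002ed01cd8258012c0096004b00258012c0096004b00258012c0096004b000826050201a804b00258012c0096004b00258012c0096004b00258012c0031b0140808040350096004b00258012c0096004b00258012c0096004b00144609260308018400fec12c0096004b00258012c0096004b00258012c004be01f080c20061003fb01fd8258012c0096004b00258012c0096004b000c6c05d6026b016c0120e0744034904b00258012c0096004b00258012c0031b018d80640055e03a201d100d240692096004b00258012c0096004b0006d0058402d8013f80d24055702f001780073612c0096004b00258012c002dd8190c0a860320033b81b240c2e061702f700e6c258012c0096004b000ccc057002c7016380e6007220457029900c8e0588037904b00258012c002f9015880b1c058e039101dd00ffa088c0323818400de406f2096004b000f6e068302c18112c136808c5020d8204c0f3007d504ec8275c132812c0031181edc0faa07230462815c410ca081301da81d841196084304ca02650)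
    (nat_lit 4) (nat_lit 141)
    [[nat_lit 0,nat_lit 2],[nat_lit 0,nat_lit 3],[nat_lit 0,nat_lit 6,nat_lit 8],[nat_lit 0,nat_lit 6,nat_lit 9],
    [nat_lit 0,nat_lit 7,nat_lit 8],[nat_lit 1,nat_lit 2],[nat_lit 1,nat_lit 3],[nat_lit 1,nat_lit 8,nat_lit 7],
    [nat_lit 1,nat_lit 9,nat_lit 6],[nat_lit 1,nat_lit 9,nat_lit 7],[nat_lit 2,nat_lit 6],[nat_lit 2,nat_lit 7],
    [nat_lit 3,nat_lit 6],[nat_lit 3,nat_lit 7],[nat_lit 4,nat_lit 4,nat_lit 10,nat_lit 13,nat_lit 10],[nat_lit 4,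
    nat_lit 4,nat_lit 12,nat_lit 10,nat_lit 10],[nat_lit 4,nat_lit 10,nat_lit 13,nat_lit 10,nat_lit 4],[nat_lit 4,
    nat_lit 12,nat_lit 10,nat_lit 10,nat_lit 4],[nat_lit 5,nat_lit 5,nat_lit 11,nat_lit 11,nat_lit 13],[nat_lit 5,
    nat_lit 5,nat_lit 11,nat_lit 12,nat_lit 11],[nat_lit 5,nat_lit 11,nat_lit 11,nat_lit 13,nat_lit 5],[nat_lit 5,
    nat_lit 11,nat_lit 12,nat_lit 11,nat_lit 5],[nat_lit 6,nat_lit 6,nat_lit 8],[nat_lit 6,nat_lit 6,nat_lit 9],
    [nat_lit 6,nat_lit 8,nat_lit 6],[nat_lit 6,nat_lit 9,nat_lit 6],[nat_lit 7,nat_lit 7,nat_lit 8],[nat_lit 7,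
    nat_lit 7,nat_lit 9],[nat_lit 7,nat_lit 8,nat_lit 7],[nat_lit 7,nat_lit 9,nat_lit 7],[nat_lit 8,nat_lit 12],
    [nat_lit 8,nat_lit 13],[nat_lit 9,nat_lit 12],[nat_lit 9,nat_lit 13]]
    [nat_lit 258,nat_lit 259,nat_lit 0x1068,nat_lit 0x1069,nat_lit 0x1078,nat_lit 274,nat_lit 275,nat_lit 0x1187,
    nat_lit 0x1196,nat_lit 0x1197,nat_lit 294,nat_lit 295,nat_lit 310,nat_lit 311,nat_lit 0x144ada,nat_lit 0x144caa,
    nat_lit 0x14ada4,nat_lit 0x14caa4,nat_lit 0x155bbd,nat_lit 0x155bcb,nat_lit 0x15bbd5,nat_lit 0x15bcb5,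
    nat_lit 0x1668,nat_lit 0x1669,nat_lit 0x1686,nat_lit 0x1696,nat_lit 0x1778,nat_lit 0x1779,nat_lit 0x1787,
    nat_lit 0x1797,nat_lit 396,nat_lit 397,nat_lit 412,nat_lit 413]
    [[[nat_lit 0,nat_lit 2],[nat_lit 0,nat_lit 3],[nat_lit 0,nat_lit 6,nat_lit 8],[nat_lit 0,nat_lit 6,nat_lit 9],
    [nat_lit 0,nat_lit 7,nat_lit 8],[nat_lit 1,nat_lit 2],[nat_lit 1,nat_lit 3],[nat_lit 1,nat_lit 8,nat_lit 7],
    [nat_lit 1,nat_lit 9,nat_lit 6],[nat_lit 1,nat_lit 9,nat_lit 7],[nat_lit 2,nat_lit 0],[nat_lit 2,nat_lit 1]],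
    [[nat_lit 2,nat_lit 6],[nat_lit 2,nat_lit 7],[nat_lit 3,nat_lit 0],[nat_lit 3,nat_lit 1],[nat_lit 3,nat_lit 6],
    [nat_lit 3,nat_lit 7],[nat_lit 4,nat_lit 4,nat_lit 10,nat_lit 13,nat_lit 10],[nat_lit 4,nat_lit 4,nat_lit 12,
    nat_lit 10,nat_lit 10],[nat_lit 4,nat_lit 10,nat_lit 13,nat_lit 10,nat_lit 4],[nat_lit 4,nat_lit 12,nat_lit 10,
    nat_lit 10,nat_lit 4],[nat_lit 5,nat_lit 5,nat_lit 11,nat_lit 11,nat_lit 13],[nat_lit 5,nat_lit 5,nat_lit 11,
    nat_lit 12,nat_lit 11]],[[nat_lit 5,nat_lit 11,nat_lit 11,nat_lit 13,nat_lit 5],[nat_lit 5,nat_lit 11,nat_lit 12,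
    nat_lit 11,nat_lit 5],[nat_lit 6,nat_lit 1,nat_lit 9],[nat_lit 6,nat_lit 2],[nat_lit 6,nat_lit 3],[nat_lit 6,
    nat_lit 6,nat_lit 8],[nat_lit 6,nat_lit 6,nat_lit 9],[nat_lit 6,nat_lit 8,nat_lit 0],[nat_lit 6,nat_lit 8,
    nat_lit 6],[nat_lit 6,nat_lit 9,nat_lit 0],[nat_lit 6,nat_lit 9,nat_lit 6],[nat_lit 7,nat_lit 1,nat_lit 8]],
    [[nat_lit 7,nat_lit 1,nat_lit 9],[nat_lit 7,nat_lit 2],[nat_lit 7,nat_lit 3],[nat_lit 7,nat_lit 7,nat_lit 8],
    [nat_lit 7,nat_lit 7,nat_lit 9],[nat_lit 7,nat_lit 8,nat_lit 0],[nat_lit 7,nat_lit 8,nat_lit 7],[nat_lit 7,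
    nat_lit 9,nat_lit 7],[nat_lit 8,nat_lit 0,nat_lit 6],[nat_lit 8,nat_lit 0,nat_lit 7],[nat_lit 8,nat_lit 6,
    nat_lit 6],[nat_lit 8,nat_lit 7,nat_lit 1]],[[nat_lit 8,nat_lit 7,nat_lit 7],[nat_lit 8,nat_lit 12],[nat_lit 8,
    nat_lit 13],[nat_lit 9,nat_lit 0,nat_lit 6],[nat_lit 9,nat_lit 6,nat_lit 1],[nat_lit 9,nat_lit 6,nat_lit 6],
    [nat_lit 9,nat_lit 7,nat_lit 1],[nat_lit 9,nat_lit 7,nat_lit 7],[nat_lit 9,nat_lit 12],[nat_lit 9,nat_lit 13],
    [nat_lit 10,nat_lit 4,nat_lit 4,nat_lit 10,nat_lit 13],[nat_lit 10,nat_lit 4,nat_lit 4,nat_lit 12,nat_lit 10]],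
    [[nat_lit 10,nat_lit 10,nat_lit 4,nat_lit 4,nat_lit 12],[nat_lit 10,nat_lit 13,nat_lit 10,nat_lit 4,nat_lit 4],
    [nat_lit 11,nat_lit 5,nat_lit 5,nat_lit 11,nat_lit 12],[nat_lit 11,nat_lit 11,nat_lit 13,nat_lit 5,nat_lit 5],
    [nat_lit 11,nat_lit 12,nat_lit 11,nat_lit 5,nat_lit 5],[nat_lit 11,nat_lit 13,nat_lit 5,nat_lit 5,nat_lit 11],
    [nat_lit 12,nat_lit 8],[nat_lit 12,nat_lit 9],[nat_lit 12,nat_lit 10,nat_lit 10,nat_lit 4,nat_lit 4],[nat_lit 12,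
    nat_lit 11,nat_lit 5,nat_lit 5,nat_lit 11],[nat_lit 13,nat_lit 5,nat_lit 5,nat_lit 11,nat_lit 11],[nat_lit 13,
    nat_lit 8]],[[nat_lit 13,nat_lit 9],[nat_lit 13,nat_lit 10,nat_lit 4,nat_lit 4,nat_lit 10]]]
    [[nat_lit 10,nat_lit 14,nat_lit 31,nat_lit 33,nat_lit 41,nat_lit 11,nat_lit 15,nat_lit 47,nat_lit 52,nat_lit 54,
    nat_lit 0,nat_lit 5],[nat_lit 27,nat_lit 37,nat_lit 1,nat_lit 6,nat_lit 28,nat_lit 38,nat_lit 20,nat_lit 21,
    nat_lit 61,nat_lit 68,nat_lit 24,nat_lit 25],[nat_lit 63,nat_lit 64,nat_lit 8,nat_lit 12,nat_lit 16,nat_lit 32,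
    nat_lit 34,nat_lit 44,nat_lit 46,nat_lit 51,nat_lit 53,nat_lit 7],[nat_lit 9,nat_lit 13,nat_lit 17,nat_lit 42,
    nat_lit 43,nat_lit 45,nat_lit 48,nat_lit 55,nat_lit 2,nat_lit 4,nat_lit 29,nat_lit 35],[nat_lit 39,nat_lit 66,
    nat_lit 71,nat_lit 3,nat_lit 26,nat_lit 30,nat_lit 36,nat_lit 40,nat_lit 67,nat_lit 72,nat_lit 18,nat_lit 19],
    [nat_lit 59,nat_lit 73,nat_lit 23,nat_lit 65,nat_lit 69,nat_lit 70,nat_lit 49,nat_lit 56,nat_lit 60,nat_lit 62,
    nat_lit 22,nat_lit 50],[nat_lit 57,nat_lit 58]]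
    [[nat_lit 10,nat_lit 14,nat_lit 44,nat_lit 51,nat_lit 45,nat_lit 11,nat_lit 15,nat_lit 35,nat_lit 26,nat_lit 36,
    nat_lit 0,nat_lit 5],[nat_lit 27,nat_lit 37,nat_lit 1,nat_lit 6,nat_lit 28,nat_lit 38,nat_lit 58,nat_lit 59,
    nat_lit 18,nat_lit 19,nat_lit 70,nat_lit 62],[nat_lit 22,nat_lit 23,nat_lit 52,nat_lit 12,nat_lit 16,nat_lit 46,
    nat_lit 53,nat_lit 2,nat_lit 29,nat_lit 3,nat_lit 30,nat_lit 47],[nat_lit 54,nat_lit 13,nat_lit 17,nat_lit 48,
    nat_lit 55,nat_lit 4,nat_lit 39,nat_lit 40,nat_lit 31,nat_lit 41,nat_lit 32,nat_lit 7],[nat_lit 42,nat_lit 66,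
    nat_lit 71,nat_lit 33,nat_lit 8,nat_lit 34,nat_lit 9,nat_lit 43,nat_lit 67,nat_lit 72,nat_lit 73,nat_lit 60],
    [nat_lit 68,nat_lit 20,nat_lit 69,nat_lit 24,nat_lit 25,nat_lit 63,nat_lit 49,nat_lit 56,nat_lit 21,nat_lit 64,
    nat_lit 65,nat_lit 50],[nat_lit 57,nat_lit 61]]
    [[[nat_lit 68],[],[nat_lit 66],[nat_lit 66],[],[],[nat_lit 15],[],[nat_lit 17],[nat_lit 17],[nat_lit 0],[]],
    [[nat_lit 2,nat_lit 4],[],[],[nat_lit 22],[],[nat_lit 24,nat_lit 25],[nat_lit 12],[nat_lit 12],[],[nat_lit 10],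
    [nat_lit 38],[nat_lit 38]],[[nat_lit 36,nat_lit 40],[nat_lit 36,nat_lit 40],[],[nat_lit 20,nat_lit 21],[],[],[],
    [nat_lit 18,nat_lit 19],[nat_lit 18,nat_lit 19],[],[],[nat_lit 57]],[[nat_lit 57],[],[nat_lit 52,nat_lit 54],[],
    [],[],[],[nat_lit 55],[nat_lit 27],[nat_lit 27],[nat_lit 29],[]],[[],[nat_lit 31,nat_lit 33],[],[],[],[],
    [nat_lit 63,nat_lit 64],[nat_lit 63,nat_lit 64],[],[nat_lit 65],[nat_lit 44,nat_lit 46],[nat_lit 44,nat_lit 46]],
    [[nat_lit 49],[],[],[nat_lit 72],[],[nat_lit 70],[nat_lit 59],[],[nat_lit 60],[],[nat_lit 6],[]],[[nat_lit 7,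
    nat_lit 9],[]]]
    (nat_lit 74) [nat_lit 0,nat_lit 1,nat_lit 2,nat_lit 3,nat_lit 4,nat_lit 5,nat_lit 6,nat_lit 7,nat_lit 8,nat_lit 9,
    nat_lit 12,nat_lit 13,nat_lit 16,nat_lit 17,nat_lit 18,nat_lit 19,nat_lit 20,nat_lit 21,nat_lit 22,nat_lit 23,
    nat_lit 24,nat_lit 25,nat_lit 29,nat_lit 30,nat_lit 32,nat_lit 34,nat_lit 39,nat_lit 40,nat_lit 42,nat_lit 43,
    nat_lit 49,nat_lit 50,nat_lit 56,nat_lit 57]
    [[[],[],[nat_lit 0],[nat_lit 1],[],[],[],[],[nat_lit 2,nat_lit 4],[nat_lit 3],[],[],[],[]],[[],[],[nat_lit 5],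
    [nat_lit 6],[],[],[nat_lit 8],[nat_lit 7,nat_lit 9],[],[],[],[],[],[]],[[nat_lit 10],[nat_lit 11],[],[],[],[],
    [nat_lit 12],[nat_lit 13],[],[],[],[],[],[]],[[nat_lit 14],[nat_lit 15],[],[],[],[],[nat_lit 16],[nat_lit 17],[],
    [],[],[],[],[]],[[],[],[],[],[nat_lit 20,nat_lit 21],[],[],[],[],[],[nat_lit 18,nat_lit 19],[],[],[]],[[],[],[],
    [],[],[nat_lit 24,nat_lit 25],[],[],[],[],[],[nat_lit 23],[],[nat_lit 22]],[[nat_lit 31,nat_lit 33],[],
    [nat_lit 27],[nat_lit 28],[],[],[nat_lit 32,nat_lit 34],[],[nat_lit 29],[nat_lit 26,nat_lit 30],[],[],[],[]],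
    [[nat_lit 41],[],[nat_lit 37],[nat_lit 38],[],[],[],[nat_lit 42,nat_lit 43],[nat_lit 35,nat_lit 39],[nat_lit 36,
    nat_lit 40],[],[],[],[]],[[],[nat_lit 47],[],[],[],[],[nat_lit 44,nat_lit 46],[nat_lit 45,nat_lit 48],[],[],[],[],
    [nat_lit 49],[nat_lit 50]],[[],[nat_lit 52,nat_lit 54],[],[],[],[],[nat_lit 51,nat_lit 53],[nat_lit 55],[],[],[],
    [],[nat_lit 56],[nat_lit 57]],[[],[],[],[],[nat_lit 61],[],[],[],[],[],[nat_lit 59],[],[nat_lit 60],[nat_lit 58]],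
    [[],[],[],[],[],[nat_lit 63,nat_lit 64],[],[],[],[],[],[nat_lit 65],[nat_lit 62],[]],[[],[],[],[],[nat_lit 68],[],
    [],[],[nat_lit 66],[nat_lit 67],[],[nat_lit 69],[],[]],[[],[],[],[],[],[],[],[],[nat_lit 71],[nat_lit 72],
    [nat_lit 73],[nat_lit 70],[],[]]]
    [[[nat_lit 0x100000000000000000,nat_lit 0,nat_lit 0x40000000000000000,nat_lit 0x40000000000000000,nat_lit 0,
    nat_lit 0,nat_lit 0x8000,nat_lit 0,nat_lit 0x20000],[nat_lit 0x20000,nat_lit 1,nat_lit 0,nat_lit 20,nat_lit 0,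
    nat_lit 0,nat_lit 0x400000,nat_lit 0,nat_lit 0x3000000],[nat_lit 0x1000,nat_lit 0x1000,nat_lit 0,nat_lit 0x400,
    nat_lit 0x4000000000,nat_lit 0x4000000000,nat_lit 0x11000000000,nat_lit 0x11000000000,nat_lit 0],
    [nat_lit 0x300000,nat_lit 0,nat_lit 0,nat_lit 0,nat_lit 0xc0000,nat_lit 0xc0000,nat_lit 0,nat_lit 0,
    nat_lit 0x200000000000000],[nat_lit 0x200000000000000,nat_lit 0,nat_lit 0x50000000000000,nat_lit 0,nat_lit 0,
    nat_lit 0,nat_lit 0,nat_lit 0x80000000000000,nat_lit 0x8000000],[nat_lit 0x8000000,nat_lit 0x20000000,nat_lit 0,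
    nat_lit 0,nat_lit 0x280000000,nat_lit 0,nat_lit 0,nat_lit 0,nat_lit 0],[nat_lit 0x18000000000000000,
    nat_lit 0x18000000000000000,nat_lit 0,nat_lit 0x20000000000000000,nat_lit 0x500000000000,nat_lit 0x500000000000,
    nat_lit 0x2000000000000,nat_lit 0,nat_lit 0],[nat_lit 0x1000000000000000000,nat_lit 0,
    nat_lit 0x400000000000000000,nat_lit 0x800000000000000,nat_lit 0,nat_lit 0x1000000000000000,nat_lit 0,nat_lit 64,
    nat_lit 0],[nat_lit 640,nat_lit 0]]]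
    []
    (nat_lit 0) (nat_lit 60) (nat_lit 60)
    [[nat_lit 257,nat_lit 513,nat_lit 0x1000101,nat_lit 0x1001,nat_lit 0x1101,nat_lit 0x1201,nat_lit 0x101001,
    nat_lit 0x101101,nat_lit 0x1001001,nat_lit 0x1001101,nat_lit 0x10001,nat_lit 0x100001,nat_lit 0x100101,
    nat_lit 0x100201,nat_lit 0x110001,nat_lit 0x200001,nat_lit 0x200101,nat_lit 0x1100001,nat_lit 0x1100101,
    nat_lit 0x100011,nat_lit 0x1000001,nat_lit 0x1000201],[nat_lit 32,nat_lit 0x100020,nat_lit 0x1000020,nat_lit 272,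
    nat_lit 528,nat_lit 0x1000210,nat_lit 0x100110,nat_lit 0x1000110,nat_lit 0x100210,nat_lit 0x200110,
    nat_lit 0x10010,nat_lit 0x100010,nat_lit 0x1100110,nat_lit 0x200010,nat_lit 0x300010,nat_lit 0x1200010,
    nat_lit 0x1100010,nat_lit 0x101010,nat_lit 0x1000010,nat_lit 0x2000010],[nat_lit 512,nat_lit 768,nat_lit 0x400,
    nat_lit 0x500,nat_lit 0x100300,nat_lit 0x1000300,nat_lit 0x1200,nat_lit 0x101200,nat_lit 0x10200,nat_lit 0x110200,
    nat_lit 0x100200,nat_lit 0x200200,nat_lit 0x1000200,nat_lit 0x1100200,nat_lit 0x1100,nat_lit 0x2100,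
    nat_lit 0x102100,nat_lit 0x101100,nat_lit 0x201100,nat_lit 0x1001100,nat_lit 0x10100,nat_lit 0x110100,
    nat_lit 0x11100,nat_lit 0x210100,nat_lit 0x100100,nat_lit 0x200100,nat_lit 0x300100,nat_lit 0x1100100,
    nat_lit 0x1200100,nat_lit 0x1000100,nat_lit 0x1101100,nat_lit 0x1010100,nat_lit 0x1300100,nat_lit 0x2000100],
    [nat_lit 0x2000,nat_lit 0x102000,nat_lit 0x202000,nat_lit 0x1002000,nat_lit 0x11000,nat_lit 0x111000,
    nat_lit 0x101000,nat_lit 0x201000,nat_lit 0x301000,nat_lit 0x1201000,nat_lit 0x1101000,nat_lit 0x1001000,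
    nat_lit 0x2001000],[nat_lit 0x20000,nat_lit 0x110000,nat_lit 0x210000,nat_lit 0x1110000],[nat_lit 0x200000,
    nat_lit 0x300000,nat_lit 0x400000,nat_lit 0x500000,nat_lit 0x1300000,nat_lit 0x1200000,nat_lit 0x1100000,
    nat_lit 0x2200000,nat_lit 0x2100000],[nat_lit 0x2000000]]
    [.c (nat_lit 0) (nat_lit 0x533045),.c (nat_lit 0) (nat_lit 0x955385),.r (nat_lit 4) (nat_lit 2) [nat_lit 0x330452,
    nat_lit 0x22002],.c (nat_lit 1) (nat_lit 0x30204),.c (nat_lit 0) (nat_lit 0x503045),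
    .c (nat_lit 0) (nat_lit 0x935385),.c (nat_lit 0) (nat_lit 0x503045),.c (nat_lit 1) (nat_lit 0x402254),
    .c (nat_lit 5) (nat_lit 0x820205),.r (nat_lit 0x1b11) (nat_lit 1) [nat_lit 0x302002,nat_lit 0x220002,
    nat_lit 0x320542],.c (nat_lit 0) (nat_lit 0x200203),.c (nat_lit 0) (nat_lit 0x533045),
    .c (nat_lit 0) (nat_lit 0x533045),.c (nat_lit 3) (nat_lit 0x422054),
    .r (nat_lit 32) (nat_lit 13) [nat_lit 0x330452,nat_lit 0x5023042],.c (nat_lit 0) (nat_lit 0x955385),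
    .c (nat_lit 6) (nat_lit 0x422054),.r (nat_lit 0x1ae5) (nat_lit 2) [nat_lit 0x22002,nat_lit 0x5033402,
    nat_lit 0x4022542],.c (nat_lit 5) (nat_lit 0x33045),.c (nat_lit 0) (nat_lit 0x3304),
    .r (nat_lit 0x1b04) (nat_lit 4) [nat_lit 33,nat_lit 0x4022052],.r (nat_lit 0x10bc) (nat_lit 5) [nat_lit 0x4400001,
    nat_lit 0x3003041,nat_lit 0x5040001,nat_lit 0x4004001],.c (nat_lit 2) (nat_lit 2),.c (nat_lit 0) (nat_lit 0x3002),
    .c (nat_lit 0) (nat_lit 0x3002),.r (nat_lit 4) (nat_lit 12) [nat_lit 0x5303452,nat_lit 33],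
    .r (nat_lit 0x18fb) (nat_lit 11) [nat_lit 0x2000001,nat_lit 0x220002,nat_lit 33,nat_lit 0x2001],
    .c (nat_lit 0) (nat_lit 0x3004),.c (nat_lit 5) (nat_lit 0x820254),.c (nat_lit 6) (nat_lit 0x530345),
    .r (nat_lit 0x1ae5) (nat_lit 2) [nat_lit 0x22002,nat_lit 0x5033402,nat_lit 0x3300231],
    .r (nat_lit 4) (nat_lit 2) [nat_lit 0x8202542,nat_lit 0x22002],.r (nat_lit 0x1b04) (nat_lit 4) [nat_lit 0x4022052,
    nat_lit 33],.r (nat_lit 32) (nat_lit 13) [nat_lit 0x5303452,nat_lit 33],.c (nat_lit 0) (nat_lit 0x420254),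
    .r (nat_lit 0x10bc) (nat_lit 5) [nat_lit 0x4400001,nat_lit 0xb535851,nat_lit 0x5040001,nat_lit 0x4004001],
    .r (nat_lit 0x4bc) (nat_lit 4) [nat_lit 0x20051,nat_lit 0x2030041,nat_lit 0x220052,nat_lit 0x5353442,nat_lit 33],
    .c (nat_lit 0) (nat_lit 0x3004),.c (nat_lit 3) (nat_lit 0x530345),.c (nat_lit 0) (nat_lit 0x33004),
    .c (nat_lit 0) (nat_lit 0x3002),.c (nat_lit 0) (nat_lit 0x5002),.c (nat_lit 3) (nat_lit 2),
    .r (nat_lit 0x10a4) (nat_lit 5) [nat_lit 0x6000001,nat_lit 0x606002,nat_lit 33,nat_lit 0x67002],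
    .r (nat_lit 0x10a5) (nat_lit 5) [nat_lit 0x4000001,nat_lit 0x202001,nat_lit 34,nat_lit 0x23001],
    .r (nat_lit 0x4bd) (nat_lit 5) [nat_lit 0xa00a001,nat_lit 0xa0b002,nat_lit 33,nat_lit 0xaa002,nat_lit 0xb001],
    .r (nat_lit 0x4be) (nat_lit 4) [nat_lit 0x5333451,nat_lit 33,nat_lit 0x6222541,nat_lit 0x5033452,
    nat_lit 0x4242542],.r (nat_lit 0x10b8) (nat_lit 10) [nat_lit 0x6600001,nat_lit 0x7777c51,nat_lit 0x6006001,
    nat_lit 0x7060001],.c (nat_lit 0) (nat_lit 0x935585),.c (nat_lit 3) (nat_lit 0x402254),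
    .r (nat_lit 4) (nat_lit 12) [nat_lit 0x3333432,nat_lit 0x3020022],
    .r (nat_lit 0x1898) (nat_lit 12) [nat_lit 0x220002,nat_lit 0x353452,nat_lit 0x370452,nat_lit 0x4242542],
    .c (nat_lit 0) (nat_lit 0x533343),.c (nat_lit 0) (nat_lit 0x533043),.c (nat_lit 0) (nat_lit 0x533343),
    .c (nat_lit 0) (nat_lit 0x533343),.c (nat_lit 0) (nat_lit 0x503345),.c (nat_lit 0) (nat_lit 0x523345),
    .c (nat_lit 1) (nat_lit 0x432454),.c (nat_lit 0) (nat_lit 0x503345),.c (nat_lit 6) (nat_lit 0x402254),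
    .r (nat_lit 4) (nat_lit 2) [nat_lit 0x33452,nat_lit 0x22002],.r (nat_lit 0xf1c) (nat_lit 8) [nat_lit 0x22002,
    nat_lit 0x2000001,nat_lit 0x220002,nat_lit 33],.r (nat_lit 0x1b51) (nat_lit 4) [nat_lit 0x330452,nat_lit 0x242542,
    nat_lit 0x33452],.r (nat_lit 4) (nat_lit 12) [nat_lit 0x33452,nat_lit 0x5320042],
    .r (nat_lit 0x1b11) (nat_lit 1) [nat_lit 0x302002,nat_lit 0x220002,nat_lit 0x5533452],
    .c (nat_lit 0) (nat_lit 0x533045),.c (nat_lit 0) (nat_lit 0x533343),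
    .r (nat_lit 0x4c0) (nat_lit 4) [nat_lit 0x5333451,nat_lit 0x6222541,nat_lit 0x5033452,nat_lit 33,
    nat_lit 0x4242542],.c (nat_lit 1) (nat_lit 0x422454),.c (nat_lit 0) (nat_lit 0x533343),
    .c (nat_lit 0) (nat_lit 0x533345),.c (nat_lit 5) (nat_lit 0x3345),.c (nat_lit 0) (nat_lit 0x300002),
    .r (nat_lit 0x4c3) (nat_lit 8) [nat_lit 0x22002,nat_lit 0x2000001,nat_lit 0x220002,nat_lit 0x4202002,nat_lit 33],
    .r (nat_lit 0x1b11) (nat_lit 1) [nat_lit 0x302002,nat_lit 0x220002,nat_lit 0x22542],.c (nat_lit 4) (nat_lit 2),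
    .c (nat_lit 0) (nat_lit 0x523345),.c (nat_lit 0) (nat_lit 0x503343),.c (nat_lit 5) (nat_lit 0x420003),
    .c (nat_lit 0) (nat_lit 0x220003),.r (nat_lit 32) (nat_lit 13) [nat_lit 0x33452,nat_lit 0x5320042],
    .c (nat_lit 0) (nat_lit 0x503345),.c (nat_lit 0) (nat_lit 0x935585),
    .r (nat_lit 0x10a6) (nat_lit 5) [nat_lit 0x6000001,nat_lit 0x606002,nat_lit 0xd573c52,nat_lit 0x67002],
    .r (nat_lit 0x18fb) (nat_lit 11) [nat_lit 0x2000001,nat_lit 0x220002,nat_lit 0x9335852,nat_lit 0x2001],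
    .r (nat_lit 0x1ae5) (nat_lit 2) [nat_lit 0x22002,nat_lit 0x5033402,nat_lit 0x4324542],
    .r (nat_lit 0x1b04) (nat_lit 4) [nat_lit 0x302042,nat_lit 0x4220052],
    .r (nat_lit 0x1b2b) (nat_lit 12) [nat_lit 0x22002,nat_lit 0x330042,nat_lit 0x220002],.c (nat_lit 5) (nat_lit 2),
    .r (nat_lit 10) (nat_lit 6) [nat_lit 0x22002,nat_lit 33],.r (nat_lit 32) (nat_lit 13) [nat_lit 0x3333432,
    nat_lit 0x3020022],.c (nat_lit 0) (nat_lit 0x300002),.c (nat_lit 6) (nat_lit 2),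
    .r (nat_lit 0x10a4) (nat_lit 10) [nat_lit 0x660002,nat_lit 0xc076002,nat_lit 33,nat_lit 0x67002],
    .r (nat_lit 0x10a5) (nat_lit 10) [nat_lit 0x220001,nat_lit 0x4032001,nat_lit 34,nat_lit 0x23001],
    .r (nat_lit 0x4c1) (nat_lit 8) [nat_lit 0xaa0002,nat_lit 0xb0a002,nat_lit 0xb00001,nat_lit 33,nat_lit 0xaa00001],
    .r (nat_lit 0x4c2) (nat_lit 4) [nat_lit 0xd777c51,nat_lit 0x4222521,nat_lit 0xe666d41,nat_lit 0xd577c52,
    nat_lit 0xc686d42],.c (nat_lit 0) (nat_lit 0x533343),.c (nat_lit 0) (nat_lit 0x533345),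
    .r (nat_lit 4) (nat_lit 12) [nat_lit 34,nat_lit 0x5303432],.r (nat_lit 0x1898) (nat_lit 12) [nat_lit 0x220002,
    nat_lit 0x4202542,nat_lit 0x4234542,nat_lit 0x303452],.c (nat_lit 7) (nat_lit 2)]]

/-- nodes -/
noncomputable def rD7k_19_16 : List RJ :=
  [.l (nat_lit 12) (nat_lit 960) (nat_lit 4) (nat_lit 0x19000000190000001660000016600000190000001a0000001c2000001c2000001a00000018e0000016e0000016e0000018000000182) (nat_lit 0x32000000320000005c0000005c00000022000000320000000000000000000000340000002200000054000000540000004000000042)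
    (nat_lit 0x16213e1341320c015e23023015c0c013c16415015012016211c1341c812019019015c1c816012215214e13413214814814414c10c10c14c14411211212210011c1341301481441340f00f413414411211212611812015e13414c1e013819019015c1e414813a15014e1c80c01441441421e01a01a01e016013c14c0c01c81902300f410c1a01901e01fe18e1a01040fa2301901902300f010c1a01901c21e018e1a01040f62301901c80c01441441601e41a01a01e417e13c14c0c01c815c15c13414c1e015c18e18e1381e414813a12611c12216411211214c13a0f60fa13a14c14a13c12e11e16013c11211213c14810410414813c13a14a12c12c14e1501181001c814e19019011c1c812c11e14011e1521501261220c01502302301260c012c12e162140)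
    (nat_lit 0x1623c03c03c03c03c03c03c03c03c03c03c03c03c013e1623c03c03c03c03c03c03c03c03c03c03c03c013411c1483c03c03c03c03c03c03c03c03c03c03c01321341481483c03c03c03c03c03c03c03c03c03c00c01c81441441e03c03c03c03c03c03c03c03c03c015e12014c1341381e03c03c03c03c03c03c03c03c022219010c0f01901a01e03c03c03c03c03c03c03c022619010c0f41901a01fe1e03c03c03c03c03c03c015c15c14c13415c1e018e18e1e43c03c03c03c03c00c01c81441441e01601a01a017e1e43c03c03c03c013c16011211214813c10410413c14814a3c03c03c016412211211213a14c0fa0f614c13a13c14a3c03c01501521221261500c02162120c012612e12c1403c015014e10011814e1c81901901c811c11e12c11e140)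
    (nat_lit 3) (nat_lit 79)
    [[nat_lit 2,nat_lit 18,nat_lit 258,nat_lit 0x10002,nat_lit 0x100002,nat_lit 17,nat_lit 33,nat_lit 273,
    nat_lit 0x10011,nat_lit 0x100011,nat_lit 0x1000011,nat_lit 0x1011,nat_lit 257,nat_lit 514,nat_lit 0x100101,
    nat_lit 0x1000101,nat_lit 0x10001,nat_lit 0x110001,nat_lit 0x1010001,nat_lit 0x1010101,nat_lit 0x100001,
    nat_lit 0x101001,nat_lit 0x200001,nat_lit 0x1100001,nat_lit 0x1000001],[nat_lit 32,nat_lit 0x1020,
    nat_lit 0x100020,nat_lit 0x1000020,nat_lit 272,nat_lit 0x100110,nat_lit 0x1000110,nat_lit 0x1010,nat_lit 0x101010,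
    nat_lit 0x10010,nat_lit 0x110010,nat_lit 0x1010010,nat_lit 0x100010,nat_lit 0x200010,nat_lit 0x1100010,
    nat_lit 0x1000010],[nat_lit 512,nat_lit 0x1100,nat_lit 0x10100,nat_lit 0x100100,nat_lit 0x1100100,
    nat_lit 0x1000100,nat_lit 0x2000100],[nat_lit 0x11000,nat_lit 0x101000,nat_lit 0x201000,nat_lit 0x1101000],
    [nat_lit 0x20000,nat_lit 0x110000,nat_lit 0x1110000,nat_lit 0x1010000,nat_lit 0x2010000],[nat_lit 0x200000,
    nat_lit 0x1200000,nat_lit 0x1100000,nat_lit 0x2100000],[nat_lit 0x2000000]]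
    [.c (nat_lit 1) (nat_lit 2),.r (nat_lit 0x1998) (nat_lit 3) [nat_lit 0x2001,nat_lit 0x20819,nat_lit 0xa11,
    nat_lit 17],.r (nat_lit 0x1b50) (nat_lit 4) [nat_lit 0x120d1,nat_lit 0x2001,nat_lit 0x3499],
    .r (nat_lit 0x1b50) (nat_lit 2) [nat_lit 0x126d1,nat_lit 0x2001,nat_lit 0x3499],
    .r (nat_lit 0x1998) (nat_lit 7) [nat_lit 0x2001,nat_lit 0x20819,nat_lit 17,nat_lit 0xa11],
    .r (nat_lit 0x174d) (nat_lit 4) [nat_lit 0x12419,nat_lit 17],.r (nat_lit 0x1994) (nat_lit 9) [nat_lit 0x18611,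
    nat_lit 0x10401,nat_lit 0x10001,nat_lit 0x14419],.r (nat_lit 0x174e) (nat_lit 3) [nat_lit 0x18099,
    nat_lit 0x10001],.r (nat_lit 32) (nat_lit 7) [nat_lit 0x18099,nat_lit 0x10001],.c (nat_lit 1) (nat_lit 0x602),
    .r (nat_lit 0x1998) (nat_lit 3) [nat_lit 0x2001,nat_lit 0x20419,nat_lit 0x611,nat_lit 0x411],
    .c (nat_lit 6) (nat_lit 0x2483),.c (nat_lit 0) (nat_lit 0x3613),.c (nat_lit 5) (nat_lit 0x5a23),
    .r (nat_lit 32) (nat_lit 3) [nat_lit 0x18099,nat_lit 0x10401],.r (nat_lit 0x1b50) (nat_lit 4) [nat_lit 0x124d1,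
    nat_lit 0x2001,nat_lit 0x3099],.c (nat_lit 0) (nat_lit 0x3613),.r (nat_lit 0x174e) (nat_lit 4) [nat_lit 0x18099,
    nat_lit 0x10401],.r (nat_lit 0x1b50) (nat_lit 2) [nat_lit 0x120d1,nat_lit 0x2001,nat_lit 0x3099],
    .c (nat_lit 0) (nat_lit 0x249a),.r (nat_lit 0x174d) (nat_lit 5) [nat_lit 0x12419,nat_lit 0x611],
    .c (nat_lit 2) (nat_lit 0x2483),.r (nat_lit 0x1994) (nat_lit 5) [nat_lit 0x18611,nat_lit 0x10001,nat_lit 0x10401,
    nat_lit 0x14419],.r (nat_lit 0x1998) (nat_lit 7) [nat_lit 0x2001,nat_lit 0x20419,nat_lit 0x411,nat_lit 0x611],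
    .c (nat_lit 1) (nat_lit 130),.c (nat_lit 2) (nat_lit 2),.r (nat_lit 0x1994) (nat_lit 5) [nat_lit 0x4019,
    nat_lit 0x10001,nat_lit 0x10401,nat_lit 17],.c (nat_lit 2) (nat_lit 0x602),
    .r (nat_lit 0x1994) (nat_lit 9) [nat_lit 0x18011,nat_lit 0x10401,nat_lit 0x10001,nat_lit 0x14019],
    .r (nat_lit 0x174f) (nat_lit 4) [nat_lit 0x10401,nat_lit 17],.c (nat_lit 3) (nat_lit 0x602),
    .r (nat_lit 0x174e) (nat_lit 3) [nat_lit 0x18699,nat_lit 0x10001],.r (nat_lit 8) (nat_lit 3) [nat_lit 0x12019,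
    nat_lit 17],.c (nat_lit 1) (nat_lit 0x2483),.r (nat_lit 0) (nat_lit 5) [nat_lit 0x10401,nat_lit 17],
    .c (nat_lit 5) (nat_lit 0x602),.r (nat_lit 32) (nat_lit 7) [nat_lit 0x18699,nat_lit 0x10001],
    .c (nat_lit 0) (nat_lit 0x403),.c (nat_lit 6) (nat_lit 0x602),.c (nat_lit 1) (nat_lit 0x682),
    .r (nat_lit 0x174d) (nat_lit 4) [nat_lit 0x12019,nat_lit 0x411],.c (nat_lit 3) (nat_lit 2),
    .r (nat_lit 0x1b50) (nat_lit 2) [nat_lit 0x10019,nat_lit 0x2001,nat_lit 17],.c (nat_lit 0) (nat_lit 0x3613),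
    .r (nat_lit 0) (nat_lit 4) [nat_lit 17,nat_lit 0x10001],.r (nat_lit 32) (nat_lit 3) [nat_lit 0x18699,
    nat_lit 0x10401],.c (nat_lit 0) (nat_lit 0x36d3),.r (nat_lit 0x1b50) (nat_lit 4) [nat_lit 0x128d1,nat_lit 0x2001,
    nat_lit 0x3699],.r (nat_lit 0x1b50) (nat_lit 4) [nat_lit 0x10419,nat_lit 0x2001,nat_lit 17],
    .r (nat_lit 8) (nat_lit 5) [nat_lit 0x12419,nat_lit 17],.r (nat_lit 0x1994) (nat_lit 9) [nat_lit 0x4019,
    nat_lit 0x10401,nat_lit 0x10001,nat_lit 17],.c (nat_lit 2) (nat_lit 0x2403),.c (nat_lit 5) (nat_lit 2),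
    .r (nat_lit 0x174f) (nat_lit 3) [nat_lit 0x10001,nat_lit 17],.r (nat_lit 0x174e) (nat_lit 4) [nat_lit 0x18699,
    nat_lit 0x10401],.c (nat_lit 0) (nat_lit 0x36d3),.r (nat_lit 0x1b50) (nat_lit 2) [nat_lit 0x124d1,nat_lit 0x2001,
    nat_lit 0x3699],.c (nat_lit 6) (nat_lit 2),.r (nat_lit 0x1994) (nat_lit 5) [nat_lit 0x18011,nat_lit 0x10001,
    nat_lit 0x10401,nat_lit 0x14019],.r (nat_lit 0x174d) (nat_lit 5) [nat_lit 0x12019,nat_lit 17],
    .r (nat_lit 0x1998) (nat_lit 7) [nat_lit 0x2001,nat_lit 0x20019,nat_lit 0x811,nat_lit 17],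
    .c (nat_lit 7) (nat_lit 2)],
    .l (nat_lit 15) (nat_lit 0x13b0) (nat_lit 4) (nat_lit 0x7de000007de0000084800000848000007c6000007c60000072300000723000007890000078900000791000007910000076c0000076c) (nat_lit 0x6a0000006a000000000000000000000082000000820000012500000125000000bf000000bf000000b7000000b7000000dc000000dc)
    (nat_lit 0x12181dd03df07de0eb81db035c85d5140a1a3439389590e041c083ba090c0fbc1f78418075c0b461aa42148813117e0df4381061e0fbc1f7842408480fac1f18317864f1666227c43a8a870ba817503ef07be109021203db07c60f2a1c0c589887d12522cec3ae076c0eb81db03e307c60ec81d102d686b106ba1a5438783850e141548418075c0f6c1f583aa07640d021a8426a86130d7a122c3e707ce0d521754381864f0d421ac437905ee11d01a102c4089e0c8e1a642d186b90f2a18bc34085ad0da41bc826a06640ea010e836c86eb10261a3443e889f0c261a54332068411f817d831708620d5a17242148a0516262ccc26a835d09a823a036508fc13501b4823d839506fa256459d8a8709160e1421d089e0da421884f906da079e0f7c45f8727125221d435e870f0ea016204d4062e0db427c835a86b50c3c1c083b605d40f9c15483758699072a172435a83df0d201a4038107020eb817503e7070a0db2191c23d86ad0d6a0f3c3480690)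
    (nat_lit 0x12184ec09d813b027604ec09d813b027604ec09d813b027604ec03ba090c27604ec09d813b027604ec09d813b027604ec09d813b00f7c1f7842413b027604ec09d813b027604ec09d813b027604ec03ef07de109021209d813b027604ec09d813b027604ec09d813b00eb820c03eb07b60ec84ec09d813b027604ec09d813b027604ec03b6075c0f8c1f183a2076427604ec09d813b027604ec09d813b00d72168c31787950b5a1a0437913b027604ec09d813b027604ec02ea86a90c9e1c0c35886a10bdc1bc89d813b027604ec09d813b0140a10a45918b1306ba135447404d411f84ec09d813b027604ec03468813113e21f434a86130d0819902fb08fc27604ec09d813b00e4e22fc43a89290e1e1af42c407500c5c26a04e113b027604ec04ac837d150e2cec1c2848b113c10e843106d20db427089d813b00e041c082ea075c0e141f3832386d90d5a11ec1e786b50d204ec0381061e0ba81db02a907ce0d321bac2e4839507be1ad43480690)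
    (nat_lit 4) (nat_lit 79)
    [[nat_lit 2,nat_lit 18,nat_lit 258,nat_lit 17,nat_lit 33,nat_lit 273,nat_lit 0x1011,nat_lit 0x1111,
    nat_lit 0x10011,nat_lit 0x100011,nat_lit 0x1000011,nat_lit 257,nat_lit 513,nat_lit 0x1101,nat_lit 0x10101,
    nat_lit 0x1000101,nat_lit 0x100101,nat_lit 0x1001,nat_lit 0x11001,nat_lit 0x1001001,nat_lit 0x10001,
    nat_lit 0x100001,nat_lit 0x110001,nat_lit 0x1000001],[nat_lit 32,nat_lit 0x10020,nat_lit 272,nat_lit 0x1110,
    nat_lit 0x10110,nat_lit 0x1010,nat_lit 0x2020,nat_lit 0x2010,nat_lit 0x11010,nat_lit 0x1001010,nat_lit 0x10010,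
    nat_lit 0x20010,nat_lit 0x1010010,nat_lit 0x1000010],[nat_lit 512,nat_lit 0x10200,nat_lit 0x1100,nat_lit 0x2100,
    nat_lit 0x11100,nat_lit 0x101100,nat_lit 0x1001100,nat_lit 0x10100,nat_lit 0x20200,nat_lit 0x20100,
    nat_lit 0x1010100,nat_lit 0x1000100],[nat_lit 0x2000,nat_lit 0x12000,nat_lit 0x1002000,nat_lit 0x11000,
    nat_lit 0x101000,nat_lit 0x1001000],[nat_lit 0x20000,nat_lit 0x110000,nat_lit 0x1010000],[nat_lit 0x200000,
    nat_lit 0x1100000],[nat_lit 0x2000000]]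
    [.c (nat_lit 1) (nat_lit 2),.r (nat_lit 0x17b6) (nat_lit 1) [nat_lit 0x3021,nat_lit 0x2001,nat_lit 0x20001,
    nat_lit 0x200001],.r (nat_lit 0x17b6) (nat_lit 1) [nat_lit 0x30021,nat_lit 0x2001,nat_lit 0x20001,
    nat_lit 0x200001],.c (nat_lit 0) (nat_lit 0x35045),.r (nat_lit 0x10dd) (nat_lit 0) [nat_lit 0x4031,
    nat_lit 0x350431,nat_lit 33,nat_lit 0x45021],.r (nat_lit 0x10dd) (nat_lit 0) [nat_lit 0x22031,nat_lit 0x333431,
    nat_lit 0x32021,nat_lit 0x23021],.r (nat_lit 0x17cb) (nat_lit 11) [nat_lit 0x30231,nat_lit 0x240541,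
    nat_lit 0x242521,nat_lit 0x333431],.r (nat_lit 0x1120) (nat_lit 8) [nat_lit 0x32021,nat_lit 0x333431,
    nat_lit 0x22031,nat_lit 0x200001],.r (nat_lit 32) (nat_lit 5) [nat_lit 0x30231,nat_lit 0x20001],
    .c (nat_lit 0) (nat_lit 770),.c (nat_lit 5) (nat_lit 0x22032),.c (nat_lit 0) (nat_lit 0x30545),
    .r (nat_lit 0x10dd) (nat_lit 0) [nat_lit 0x40031,nat_lit 0x305431,nat_lit 0x54021,nat_lit 33],
    .r (nat_lit 0x17cb) (nat_lit 11) [nat_lit 0x3231,nat_lit 0x204541,nat_lit 0x224521,nat_lit 0x305431],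
    .r (nat_lit 32) (nat_lit 5) [nat_lit 0x3231,nat_lit 0x20001],.c (nat_lit 5) (nat_lit 0x20232),
    .c (nat_lit 0) (nat_lit 0x3002),.r (nat_lit 0x1a71) (nat_lit 8) [nat_lit 0x23001,nat_lit 33,nat_lit 0x2001],
    .r (nat_lit 32) (nat_lit 13) [nat_lit 0x3231,nat_lit 0x2001],.r (nat_lit 32) (nat_lit 10) [nat_lit 0x30231,
    nat_lit 0x20001],.r (nat_lit 0) (nat_lit 8) [nat_lit 33,nat_lit 0x2001],
    .r (nat_lit 0x197b) (nat_lit 1) [nat_lit 33,nat_lit 0x2001,nat_lit 0x20001,nat_lit 0x200001],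
    .r (nat_lit 0x1121) (nat_lit 12) [nat_lit 0x32231,nat_lit 0x23231,nat_lit 0x200001,nat_lit 0x22321],
    .c (nat_lit 0) (nat_lit 0x35545),.c (nat_lit 2) (nat_lit 2),.r (nat_lit 0x10fe) (nat_lit 11) [nat_lit 0x390851,
    nat_lit 0x300041,nat_lit 0x389041,nat_lit 0x400001],.c (nat_lit 2) (nat_lit 0x3202),
    .r (nat_lit 0x174e) (nat_lit 5) [nat_lit 0x333432,nat_lit 0x2001],
    .r (nat_lit 0x10fe) (nat_lit 11) [nat_lit 0x355851,nat_lit 0x354041,nat_lit 0x345041,nat_lit 0x400001],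
    .r (nat_lit 0x10d8) (nat_lit 4) [nat_lit 0x4001,nat_lit 0x200031,nat_lit 65,nat_lit 0x45001],
    .r (nat_lit 0x1979) (nat_lit 7) [nat_lit 0x5022,nat_lit 0x20001,nat_lit 0x2001],
    .r (nat_lit 0x10df) (nat_lit 4) [nat_lit 0x8001,nat_lit 0x400031,nat_lit 65,nat_lit 0x89001],
    .r (nat_lit 0x174e) (nat_lit 5) [nat_lit 0x30231,nat_lit 0x2001],.r (nat_lit 32) (nat_lit 11) [nat_lit 0x30231,
    nat_lit 0x2001],.r (nat_lit 0) (nat_lit 1) [nat_lit 33,nat_lit 0x20001],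
    .r (nat_lit 0x10ef) (nat_lit 11) [nat_lit 0x250451,nat_lit 0x500041,nat_lit 0x545041,nat_lit 0x200001],
    .r (nat_lit 0x1b53) (nat_lit 8) [nat_lit 0x23001,nat_lit 0x30231,nat_lit 0x2001],.c (nat_lit 0) (nat_lit 0x35045),
    .c (nat_lit 3) (nat_lit 2),.r (nat_lit 0x10fe) (nat_lit 11) [nat_lit 0x309851,nat_lit 0x398041,nat_lit 0x300041,
    nat_lit 0x400001],.r (nat_lit 0x10d8) (nat_lit 4) [nat_lit 0x4001,nat_lit 0x223031,nat_lit 0x54041,
    nat_lit 0x45001],.r (nat_lit 0x10df) (nat_lit 4) [nat_lit 0x8001,nat_lit 0x423031,nat_lit 0x54041,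
    nat_lit 0x89001],.r (nat_lit 0x174e) (nat_lit 5) [nat_lit 0x3231,nat_lit 0x2001],.c (nat_lit 5) (nat_lit 0x22003),
    .r (nat_lit 32) (nat_lit 11) [nat_lit 0x3231,nat_lit 0x2001],.r (nat_lit 0) (nat_lit 1) [nat_lit 0x32021,
    nat_lit 0x20001],.r (nat_lit 32) (nat_lit 10) [nat_lit 0x54022,nat_lit 0x20001],
    .r (nat_lit 0x10ef) (nat_lit 11) [nat_lit 0x205451,nat_lit 0x554041,nat_lit 0x500041,nat_lit 0x200001],
    .r (nat_lit 0x1b53) (nat_lit 8) [nat_lit 0x23001,nat_lit 0x3231,nat_lit 0x2001],.c (nat_lit 0) (nat_lit 0x30545),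
    .c (nat_lit 4) (nat_lit 2),.r (nat_lit 0x1123) (nat_lit 11) [nat_lit 0x307631,nat_lit 0x76001,nat_lit 0x300041,
    nat_lit 0x400031],.r (nat_lit 0x1124) (nat_lit 3) [nat_lit 0x80001,nat_lit 0x8001,nat_lit 0x599831,
    nat_lit 0x400031],.c (nat_lit 0) (nat_lit 0x20005),.r (nat_lit 0x10ef) (nat_lit 11) [nat_lit 0x355441,
    nat_lit 0x4051,nat_lit 0x40051,nat_lit 0x200001],.r (nat_lit 0) (nat_lit 4) [nat_lit 0x20001,nat_lit 33],
    .c (nat_lit 5) (nat_lit 2),.r (nat_lit 0x174e) (nat_lit 5) [nat_lit 0x333221,nat_lit 0x2001],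
    .r (nat_lit 0x10fb) (nat_lit 11) [nat_lit 0x300041,nat_lit 0x5451,nat_lit 0x54001,nat_lit 0x200001],
    .c (nat_lit 6) (nat_lit 2),.r (nat_lit 0x1113) (nat_lit 4) [nat_lit 0x5041,nat_lit 0x4001,nat_lit 0x200001,
    nat_lit 0x45001],.c (nat_lit 7) (nat_lit 2)]]

/-- nodes -/
noncomputable def rD7k_19_17 : List RJ :=
  [.l (nat_lit 13) (nat_lit 0x5a0) (nat_lit 3) (nat_lit 0x276000002600000027a0000027a0000023600000316000002ac000002ac000002d00000023c0000028c0000028c0000028900000289) (nat_lit 0xb6000000a00000009c0000009c00000000000000e00000006a0000006a000000da000000460000008a0000008a0000008d0000008d)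
    (nat_lit 0xf208003a81e00b406584182060cb05a03f01ec0f487ec3781e40e207102d01800f8074830c1680ee077039a1d30e207803bc1cc14f06685843080cd08e83e01f00e4879c3881d40e6077853c19a14c0b783402340f807903da1e70c0065833419a0b405a03981a80b405a03641ac0d786a42d016814f0a7862c1681560ab04782d00f90a3051e2890e908185bc30815606a04842420e909984442221968ae43e020c14c0b085581cc12109083a426611108705ce2730b405a046823a16805a04cc2660fe0a283e4246121890c30c1960d006684781680e907482d01fc0d906c835e1af0ee07b03c81f014606b04382220d909184041fc10287fc3b81f80f807c03e41b211108883641f210108083da1ff0e987ec3ce1e714486a44e62b90d7890c3fe1ff0f807f039a1e90f6872451e1af1738cb435e2430f688143a41f0)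
    (nat_lit 0xf21680b405a02d01680b405a02d01680b405a02d016804001e42d01680b405a02d01680b405a02d01680b405a00ea07103bc5a02d01680b405a02d01680b405a02d016803c01c40e60778b405a02d01680b405a02d01680b405a00b405a053c29e0b41680b405a02d01680b405a02d0168032c1800cd06682d01682d01680b405a02d01680b405a010607c05842980e60ab04845a02d01680b405a02d0168040c1d21840b783502ac1210908b405a02d01680b405a00cb06183341a00b408f03a41d20fe1680b405a02d016802d016811d08d02d02d013309985141fc2d01680b405a00fc07703e01f00d907c84442220f906c84045a02d016803d81dc0f8079035828c111087048c1b20fe0808b405a00f487343921ed0d78a3c65a2e712186bc40a1ed0f816803f61d30f3879c35228915c89cc4861af0ff87fc3f81f0)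
    (nat_lit 5) (nat_lit 37)
    [[nat_lit 2,nat_lit 17,nat_lit 257,nat_lit 0x1000101,nat_lit 0x10001,nat_lit 0x1010001,nat_lit 0x100001,
    nat_lit 0x200001,nat_lit 0x1100001,nat_lit 0x1000001],[nat_lit 32,nat_lit 272,nat_lit 0x100110,nat_lit 0x1000110,
    nat_lit 0x1010,nat_lit 0x10010,nat_lit 0x1010010,nat_lit 0x10110,nat_lit 0x20010,nat_lit 0x110010,
    nat_lit 0x100010,nat_lit 0x1000010],[nat_lit 512,nat_lit 0x1000200,nat_lit 0x1100,nat_lit 0x1001100,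
    nat_lit 0x10100,nat_lit 0x1010100,nat_lit 0x20100,nat_lit 0x100100,nat_lit 0x1100100,nat_lit 0x1000100,
    nat_lit 0x2000100],[nat_lit 0x2000,nat_lit 0x11000,nat_lit 0x1011000,nat_lit 0x1001000],[nat_lit 0x20000,
    nat_lit 0x30000,nat_lit 0x1020000,nat_lit 0x110000,nat_lit 0x1010000,nat_lit 0x1110000,nat_lit 0x2010000],
    [nat_lit 0x200000,nat_lit 0x300000,nat_lit 0x1200000,nat_lit 0x1100000,nat_lit 0x2100000],[nat_lit 0x2000000]]
    [.c (nat_lit 1) (nat_lit 2),.r (nat_lit 0x1750) (nat_lit 4) [nat_lit 65,nat_lit 0x200001],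
    .c (nat_lit 0) (nat_lit 0x6548d09),.c (nat_lit 2) (nat_lit 0x42200a4),.c (nat_lit 2) (nat_lit 0x4301404),
    .r (nat_lit 0x174e) (nat_lit 4) [nat_lit 0x300861,nat_lit 0x210001],.c (nat_lit 1) (nat_lit 0x802),
    .r (nat_lit 32) (nat_lit 12) [nat_lit 0xca93a064,nat_lit 0x210001],
    .r (nat_lit 0x1568) (nat_lit 9) [nat_lit 0x200001,nat_lit 0x210001,nat_lit 0x84000002,nat_lit 0xc692a0a2],
    .c (nat_lit 0) (nat_lit 0x6548d07),.c (nat_lit 2) (nat_lit 2),.c (nat_lit 0) (nat_lit 0x328c85),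
    .r (nat_lit 0x10ed) (nat_lit 3) [nat_lit 129,nat_lit 0x20001,nat_lit 0x65290a1,nat_lit 0x4000001],
    .c (nat_lit 5) (nat_lit 0x210862),.r (nat_lit 32) (nat_lit 12) [nat_lit 0xc6929082,nat_lit 0x210001],
    .c (nat_lit 0) (nat_lit 0x4200005),.r (nat_lit 0x10f5) (nat_lit 9) [nat_lit 0x840001,nat_lit 0x8020001,
    nat_lit 0x48001,nat_lit 0xca018101],.r (nat_lit 0x113a) (nat_lit 8) [nat_lit 0x80000001,nat_lit 0x840001,
    nat_lit 0x94a121,nat_lit 0x8000001],.r (nat_lit 32) (nat_lit 12) [nat_lit 0xce529082,nat_lit 0x210001],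
    .r (nat_lit 32) (nat_lit 12) [nat_lit 0x318861,nat_lit 0x210001],.r (nat_lit 0x1750) (nat_lit 4) [nat_lit 0x10041,
    nat_lit 0x200001],.c (nat_lit 0) (nat_lit 0x328c85),.c (nat_lit 3) (nat_lit 2),
    .r (nat_lit 0x1526) (nat_lit 12) [nat_lit 0x84000002,nat_lit 0x84842502,nat_lit 0x400001,nat_lit 0xc694a0a1],
    .r (nat_lit 0x1b11) (nat_lit 13) [nat_lit 0x300041,nat_lit 0x200001,nat_lit 0x84001482],
    .r (nat_lit 0x10f6) (nat_lit 11) [nat_lit 0x60110a1,nat_lit 0x6729041,nat_lit 0x4621481,nat_lit 0x8010c41],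
    .r (nat_lit 0xd53) (nat_lit 11) [nat_lit 0xc714a122,nat_lit 0x420001,nat_lit 0x84000002,nat_lit 129],
    .r (nat_lit 8) (nat_lit 5) [nat_lit 0x300861,nat_lit 0x200001],
    .r (nat_lit 0x1b11) (nat_lit 13) [nat_lit 0x6000041,nat_lit 0x200001,nat_lit 0x86401482],
    .c (nat_lit 0) (nat_lit 0x654a507),.c (nat_lit 2) (nat_lit 0x42210a4),.c (nat_lit 0) (nat_lit 0x6548d09),
    .r (nat_lit 0x10f7) (nat_lit 2) [nat_lit 0x20001,nat_lit 0x6529061,nat_lit 0x400001,nat_lit 0x4000001],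
    .c (nat_lit 4) (nat_lit 2),.r (nat_lit 32) (nat_lit 12) [nat_lit 0xced4a084,nat_lit 0x210001],
    .r (nat_lit 0x10f0) (nat_lit 3) [nat_lit 0xa939841,nat_lit 0x44300a1,nat_lit 0x44000a1,nat_lit 0x4300041],
    .r (nat_lit 0x1b54) (nat_lit 9) [nat_lit 0x210001,nat_lit 65,nat_lit 0x4000001],.c (nat_lit 5) (nat_lit 2),
    .r (nat_lit 32) (nat_lit 12) [nat_lit 0xd694a084,nat_lit 0x210001],
    .r (nat_lit 0x1b54) (nat_lit 9) [nat_lit 0x210001,nat_lit 0x6200041,nat_lit 0x4000001],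
    .c (nat_lit 2) (nat_lit 0x4300004),.r (nat_lit 0x196a) (nat_lit 3) [nat_lit 65,nat_lit 0x410c41,nat_lit 0x318861],
    .r (nat_lit 0x174e) (nat_lit 4) [nat_lit 0x318861,nat_lit 0x210001],
    .r (nat_lit 0x10f5) (nat_lit 9) [nat_lit 0x840001,nat_lit 0x8020001,nat_lit 0x48001,nat_lit 0x6018081],
    .c (nat_lit 6) (nat_lit 2),.r (nat_lit 32) (nat_lit 12) [nat_lit 0xca94a064,nat_lit 0x210001],
    .r (nat_lit 0x1568) (nat_lit 9) [nat_lit 0x200001,nat_lit 0x210001,nat_lit 0x84000002,nat_lit 0xc694a0a2],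
    .c (nat_lit 0) (nat_lit 0x654a507),.r (nat_lit 0x174e) (nat_lit 4) [nat_lit 0x6529062,nat_lit 0x210001],
    .c (nat_lit 7) (nat_lit 2)],
    .l (nat_lit 15) (nat_lit 0x12c0) (nat_lit 3) (nat_lit 0x78e000007320000079f0000079f0000077c0000060c0000072600000726000007de000007de00000712000006820000070c000007b0) (nat_lit 0xac000000500000003f0000003f000001d200000062000000b8000000b800000000000000000000015c000000cc0000002e000000d2)
    (nat_lit 0xea81c1037087770b781cb03f20674138425b825806c20ec016c034307540e621bcc2b006d009f01b104a908fe0a9812c036e05540de61ddc3b007600b061bfc28d86e712aa24843a784b30dfe1d5c39886e10d7c1d802e6873d0f8219444cf896b0d5a1b4c3b886cd0da01cb039e86ff0c801ef027c06c40ef81a8831004b00f7819002b005bc0b9a160c2620640096015502ef052609601500320053a0d8819d032886e70aa81b103aa05e40e4c1f282e506880df0195027c07e40f82146c25804f80cdc1d5039307260b941e2028c07c411fc25b84b589210a4c1a8839307ca0d601f7828907120d441c304a909c2133e25542ef077c0e4c1c9837c06b00d041c483d805de09601b0836984b30a8012c03c406880e241c48372072c096019002a604b00d5a1d3c25806200b941728341051209601b903b005b00aa816c036687570a7419003e206540bbc1c302d8064010c01ac036e07600ee21bfc32007bc0a301be03d806a20ec012c03de0860)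
    (nat_lit 0xea84b0096012c025804b0096012c025804b0096012c025804b00382075425804b0096012c025804b0096012c025804b0096012c00dc21cc43b012c025804b0096012c025804b0096012c025804b003bb86f30ec01d8096012c025804b0096012c025804b0096012c00b7815802c185cd0c804b0096012c025804b0096012c025804b0039606d00dfe1cf43de064025804b0096012c025804b0096012c00fc813e028d87c109f012c03aa12c025804b0096012c025804b0033a06c40dce194436205540bc81d5096012c025804b0096012c0138425484aa899f0ef8177839307260d604b0096012c025804b004b708fe124225ac35105260f941c983ef06b025804b0096012c0096015303a786ad0c4012c02e505ca0a241a0837212c025804b0036104b009661b4c25805400d101e2038907120e581b9096012c00ec01b7037f87710f78190037c05180d441ec0258076010c04b002d805540eae1b34320053a0ca81f1038605de0c8016c03580860)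
    (nat_lit 4) (nat_lit 61)
    [[nat_lit 2,nat_lit 17,nat_lit 33,nat_lit 273,nat_lit 0x1011,nat_lit 0x10011,nat_lit 0x100011,nat_lit 0x1000011,
    nat_lit 257,nat_lit 0x1001,nat_lit 0x11001,nat_lit 0x1001001,nat_lit 0x10001,nat_lit 0x100001,nat_lit 0x1000001],
    [nat_lit 32,nat_lit 0x10020,nat_lit 0x100020,nat_lit 0x1000020,nat_lit 272,nat_lit 0x10110,nat_lit 0x1010,
    nat_lit 0x11010,nat_lit 0x101010,nat_lit 0x1001010,nat_lit 0x10010,nat_lit 0x20010,nat_lit 0x110010,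
    nat_lit 0x1010010,nat_lit 0x100010,nat_lit 0x1000010,nat_lit 0x1100010,nat_lit 0x2000010],[nat_lit 512,
    nat_lit 0x1100,nat_lit 0x11100,nat_lit 0x10100],[nat_lit 0x2000,nat_lit 0x12000,nat_lit 0x11000,nat_lit 0x21000,
    nat_lit 0x111000,nat_lit 0x1011000,nat_lit 0x101000,nat_lit 0x1001000],[nat_lit 0x20000,nat_lit 0x110000,
    nat_lit 0x1010000],[nat_lit 0x200000,nat_lit 0x1100000],[nat_lit 0x2000000]]
    [.c (nat_lit 1) (nat_lit 2),.c (nat_lit 0) (nat_lit 0x23323),.r (nat_lit 0x1123) (nat_lit 10) [nat_lit 0x355431,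
    nat_lit 0x6001,nat_lit 0x455431,nat_lit 0x322341],.r (nat_lit 0x19a2) (nat_lit 12) [nat_lit 0x233231,
    nat_lit 0x20001,nat_lit 0x22001],.r (nat_lit 0x1979) (nat_lit 6) [nat_lit 0x53231,nat_lit 0x22001,
    nat_lit 0x20001],.r (nat_lit 32) (nat_lit 5) [nat_lit 0x33231,nat_lit 0x22001],
    .r (nat_lit 0x174e) (nat_lit 8) [nat_lit 0x30231,nat_lit 0x22001],
    .r (nat_lit 0x174e) (nat_lit 8) [nat_lit 0x33231,nat_lit 0x22001],
    .r (nat_lit 0x174e) (nat_lit 8) [nat_lit 0x330021,nat_lit 0x22001],.r (nat_lit 0) (nat_lit 6) [nat_lit 0x20001,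
    nat_lit 33],.r (nat_lit 32) (nat_lit 2) [nat_lit 0x30231,nat_lit 0x20001],
    .r (nat_lit 32) (nat_lit 10) [nat_lit 0x33231,nat_lit 0x22001],.r (nat_lit 0x1a71) (nat_lit 1) [nat_lit 0x3001,
    nat_lit 33,nat_lit 0x22001],.r (nat_lit 0x19a2) (nat_lit 12) [nat_lit 0x33021,nat_lit 0x20001,nat_lit 0x22001],
    .r (nat_lit 0x19a2) (nat_lit 12) [nat_lit 0x30021,nat_lit 0x20001,nat_lit 0x22001],.c (nat_lit 2) (nat_lit 2),
    .r (nat_lit 0x197c) (nat_lit 4) [nat_lit 0x2001,nat_lit 33,nat_lit 0x20001,nat_lit 0x455431],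
    .r (nat_lit 0x15f8) (nat_lit 6) [nat_lit 0x88001,nat_lit 65,nat_lit 0x455431,nat_lit 0x9001],
    .r (nat_lit 0x15f8) (nat_lit 6) [nat_lit 0x88001,nat_lit 0x4041,nat_lit 0x457431,nat_lit 0x9001],
    .r (nat_lit 0x1545) (nat_lit 10) [nat_lit 0x373241,nat_lit 0x44051,nat_lit 0x40051,nat_lit 0x233201],
    .r (nat_lit 0x176d) (nat_lit 4) [nat_lit 0x2001,nat_lit 0x20001,nat_lit 0x30021,nat_lit 0x203231],
    .r (nat_lit 0x1a46) (nat_lit 12) [nat_lit 0x233201,nat_lit 0x20001,nat_lit 33],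
    .r (nat_lit 0x1979) (nat_lit 12) [nat_lit 0x53231,nat_lit 0x20001,nat_lit 0x22001],
    .r (nat_lit 0x198f) (nat_lit 6) [nat_lit 0x332251,nat_lit 0x20001,nat_lit 0x233201],
    .r (nat_lit 0x198f) (nat_lit 6) [nat_lit 0x333251,nat_lit 0x20001,nat_lit 0x233201],
    .r (nat_lit 0) (nat_lit 1) [nat_lit 33,nat_lit 0x22001],.r (nat_lit 32) (nat_lit 5) [nat_lit 0x333232,
    nat_lit 0x22001],.r (nat_lit 32) (nat_lit 8) [nat_lit 0x30231,nat_lit 0x20001],
    .r (nat_lit 32) (nat_lit 8) [nat_lit 0x33231,nat_lit 0x20001],.r (nat_lit 0) (nat_lit 3) [nat_lit 33,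
    nat_lit 0x20001],.r (nat_lit 0) (nat_lit 3) [nat_lit 0x2021,nat_lit 0x20001],
    .r (nat_lit 0x174e) (nat_lit 8) [nat_lit 0x330232,nat_lit 0x22001],
    .r (nat_lit 0x174e) (nat_lit 8) [nat_lit 0x333232,nat_lit 0x22001],.c (nat_lit 3) (nat_lit 2),
    .r (nat_lit 0x1ad9) (nat_lit 4) [nat_lit 0x30021,nat_lit 0x2001,nat_lit 0x20001,nat_lit 0x230021],
    .r (nat_lit 0x13ee) (nat_lit 5) [nat_lit 0x373241,nat_lit 0x262341,nat_lit 0x455401,nat_lit 0x323251],
    .r (nat_lit 0x1810) (nat_lit 4) [nat_lit 0x30021,nat_lit 0x2001,nat_lit 0x20001,nat_lit 0x230021],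
    .c (nat_lit 4) (nat_lit 2),.r (nat_lit 0x1b54) (nat_lit 12) [nat_lit 0x20001,nat_lit 0x22001,nat_lit 33],
    .c (nat_lit 0) (nat_lit 0x33325),.r (nat_lit 0x1836) (nat_lit 1) [nat_lit 0x3001,nat_lit 0x22001,nat_lit 33,
    nat_lit 0x203021],.c (nat_lit 1) (nat_lit 0x20302),.c (nat_lit 1) (nat_lit 0x20002),
    .c (nat_lit 0) (nat_lit 0x33225),.c (nat_lit 0) (nat_lit 0x33325),.c (nat_lit 5) (nat_lit 2),
    .c (nat_lit 0) (nat_lit 0x33225),.c (nat_lit 0) (nat_lit 0x33325),.c (nat_lit 6) (nat_lit 2),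
    .c (nat_lit 3) (nat_lit 0x4203),.c (nat_lit 7) (nat_lit 2)],
    .l (nat_lit 14) (nat_lit 0xff0) (nat_lit 3) (nat_lit 0x7080000063a000006bd000006bd00000640000006f40000077400000774000007ee000005f4000005f600000748000005f60000074a) (nat_lit 0x1b4000000e60000013100000131000000fa000001ae0000007a0000007a000001fa00000000000000a6000001f8000000a4000001f8)
    (nat_lit 0x1548622175c5d716d859a24c88e214383fc198863e199051011f0552142450915003fc1c386be12007f816504a0165844214245d71870596131450f1214643119456f185c485186c4c514245d7187061c152c50f190c5f5119472d186c4c717644c50ff059a143c50f1650402155863e111064016684a6167044415005b6152c4c5196859419e867a13e86f416d86380ff04fc1af88e217d464319e863e1be869a10f87741b3857c1ca06141c38932190c48519e85561be86fa15e877415d83fc27708c81fe03fc1cb456f1bd06401dd07741dd07ee0ff05f6129874e120050e119446513e844415e843e0ff077415383fc10883fc128063e131c48518e04a60ff057c0ff05f615403fc15483fe1650662186c61716d859a15d86ce15383fc1a905501a90550110851013144c513f044423206140ff074e15403fe15483fc1658664176461b0ff059c277072810884a61a905521a98552)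
    (nat_lit 0x1548ff03fc0ff03fc0ff03fc0ff03fc0ff03fc0ff03fc0ff018885523fc0ff03fc0ff03fc0ff03fc0ff03fc0ff03fc0ff0175c5091870ff03fc0ff03fc0ff03fc0ff03fc0ff03fc0ff0175c509165861c3fc0ff03fc0ff03fc0ff03fc0ff03fc0ff016d8540131454b1650ff03fc0ff03fc0ff03fc0ff03fc0ff016683fc143c50f10085943fc0ff03fc0ff03fc0ff03fc0ff024c870e1214643155867a1be8ff03fc0ff03fc0ff03fc0ff023886be190c5f518f867a1a686fa3fc0ff03fc0ff03fc0ff01438480119446511104fa10f857a1dd0ff03fc0ff03fc0ff00ff07f815bc72d19006f41dd07741fb87743fc0ff03fc0ff01988594185c61b16685b61b385760ff054e1540ff03fc0ff018f84a012144c7129863815f03fc17d83fc0ff05503fc0ff01990596186c5d916703fc1ca0952129842215486a41548ff0144044213144c511104fc18508c81d383fc0ff85500ff0552)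
    (nat_lit 4) (nat_lit 43)
    [[nat_lit 2,nat_lit 258,nat_lit 0x10002,nat_lit 17,nat_lit 273,nat_lit 0x10011,nat_lit 0x100011,nat_lit 257,
    nat_lit 0x10101,nat_lit 0x100101,nat_lit 0x1000101,nat_lit 0x10001,nat_lit 0x110001,nat_lit 0x1010001,
    nat_lit 0x11001,nat_lit 0x20001,nat_lit 0x100001,nat_lit 0x1000001],[nat_lit 32,nat_lit 288,nat_lit 0x10020,
    nat_lit 272,nat_lit 528,nat_lit 0x1110,nat_lit 0x10110,nat_lit 0x100110,nat_lit 0x1000110,nat_lit 0x1010,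
    nat_lit 0x10010,nat_lit 0x110010,nat_lit 0x100010,nat_lit 0x1000010],[nat_lit 512,nat_lit 0x1100,
    nat_lit 0x1001100,nat_lit 0x10100,nat_lit 0x110100,nat_lit 0x1010100,nat_lit 0x100100,nat_lit 0x1100100,
    nat_lit 0x1000100,nat_lit 0x2000100],[nat_lit 0x2000,nat_lit 0x11000,nat_lit 0x101000],[nat_lit 0x20000,
    nat_lit 0x120000,nat_lit 0x1020000,nat_lit 0x110000,nat_lit 0x1110000,nat_lit 0x1010000,nat_lit 0x2010000],
    [nat_lit 0x200000,nat_lit 0x1100000],[nat_lit 0x2000000]]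
    [.c (nat_lit 1) (nat_lit 2),.c (nat_lit 5) (nat_lit 0x202805),.c (nat_lit 3) (nat_lit 0x202805),
    .r (nat_lit 0x1b04) (nat_lit 12) [nat_lit 33,nat_lit 0x200001],.r (nat_lit 0x174e) (nat_lit 3) [nat_lit 0x300231,
    nat_lit 0x200001],.r (nat_lit 32) (nat_lit 7) [nat_lit 0x300231,nat_lit 0x200001],
    .c (nat_lit 1) (nat_lit 0x242854),.c (nat_lit 0) (nat_lit 0x2205),.c (nat_lit 1) (nat_lit 0x202805),
    .r (nat_lit 32) (nat_lit 3) [nat_lit 0x300231,nat_lit 0x202001],.c (nat_lit 5) (nat_lit 0x202405),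
    .c (nat_lit 3) (nat_lit 0x302504),.r (nat_lit 32) (nat_lit 7) [nat_lit 0x3025042,nat_lit 0x200001],
    .c (nat_lit 3) (nat_lit 0x202405),.c (nat_lit 0) (nat_lit 0x30302),.c (nat_lit 1) (nat_lit 0x200603),
    .r (nat_lit 0x1b04) (nat_lit 1) [nat_lit 0x3021,nat_lit 0x202001],.c (nat_lit 1) (nat_lit 514),
    .c (nat_lit 2) (nat_lit 2),.r (nat_lit 0x1b56) (nat_lit 13) [nat_lit 0x3001,nat_lit 0x202001,nat_lit 0x200321],
    .r (nat_lit 0x133c) (nat_lit 6) [nat_lit 0x808001,nat_lit 0x40001,nat_lit 0x3005041,nat_lit 0x395d851],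
    .c (nat_lit 0) (nat_lit 0x350545),.c (nat_lit 0) (nat_lit 0x352545),
    .r (nat_lit 32) (nat_lit 3) [nat_lit 0x2530042,nat_lit 0x202001],
    .r (nat_lit 0x1979) (nat_lit 5) [nat_lit 0x503231,nat_lit 0x200001,nat_lit 0x202001],
    .c (nat_lit 0) (nat_lit 0x350745),.r (nat_lit 0x174e) (nat_lit 3) [nat_lit 0x303231,nat_lit 0x200001],
    .c (nat_lit 0) (nat_lit 0x303545),.c (nat_lit 0) (nat_lit 0x53545),.c (nat_lit 3) (nat_lit 0x22232),
    .c (nat_lit 0) (nat_lit 0x353945),.r (nat_lit 0x1b04) (nat_lit 12) [nat_lit 0x2021,nat_lit 0x200001],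
    .c (nat_lit 3) (nat_lit 2),.c (nat_lit 5) (nat_lit 0x253004),.c (nat_lit 0) (nat_lit 0x30002),
    .r (nat_lit 8) (nat_lit 6) [nat_lit 0x2024052,nat_lit 33],.r (nat_lit 0x1979) (nat_lit 9) [nat_lit 0x503231,
    nat_lit 0x202001,nat_lit 0x200001],.c (nat_lit 1) (nat_lit 0x202405),.c (nat_lit 0) (nat_lit 0x350545),
    .r (nat_lit 32) (nat_lit 3) [nat_lit 0x303231,nat_lit 0x202001],.c (nat_lit 0) (nat_lit 0x2003),
    .c (nat_lit 5) (nat_lit 0x202005),.c (nat_lit 4) (nat_lit 2),.r (nat_lit 0x1ad6) (nat_lit 4) [nat_lit 0x202031,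
    nat_lit 33,nat_lit 0x3035452],.c (nat_lit 0) (nat_lit 0x303545),.c (nat_lit 5) (nat_lit 2),
    .r (nat_lit 0x1b54) (nat_lit 9) [nat_lit 0x202001,nat_lit 0x200001,nat_lit 33],.c (nat_lit 1) (nat_lit 0x200403),
    .c (nat_lit 0) (nat_lit 0x53545),.r (nat_lit 32) (nat_lit 7) [nat_lit 0x3020042,nat_lit 0x200001],
    .c (nat_lit 3) (nat_lit 0x302004),.c (nat_lit 3) (nat_lit 0x202005),.c (nat_lit 6) (nat_lit 2),
    .r (nat_lit 0x1b04) (nat_lit 1) [nat_lit 33,nat_lit 0x202001],.c (nat_lit 7) (nat_lit 2)]]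

/-- nodes -/
noncomputable def rD7k_19_18 : List RJ :=
  [.l (nat_lit 12) (nat_lit 720) (nat_lit 3) (nat_lit 0x11100000111000001560000015600000111000001110000012c0000012c000001350000013500000143000001430000011400000114) (nat_lit 0x4500000045000000000000000000000045000000450000002a0000002a000000210000002100000013000000130000004200000042)
    (nat_lit 0xf00a21291290cc0f00e70e70f40e40d41040cf0cf13e0f011d1110fc1320c90e70dc0f00fe0bc0b70b71111290f00e411110512c0fc17715315b1570f011411d1290fc0f011111112c0fc17d1591791770f01141320f01111050fc1260c30e70bc0f00fe0b60b70990fc0cc1111110ae0fc0ed0e71000cc0fe10a0cf0cf0e70e70fc0fc0e70e71261200ff1051191090ea0ea0c90e712c12c0ed0c310212610b10b1190e50f60ea0f00e41591530cc0f010b1051481141221220f30f30dc0f417d1771000bc10b0ff11414814e1220ed0e10bc10417715710a0b60e51091221221421300fd0d50fe0d417915b0fe0fe11911914e1221121421011010b70cf1141140cf0990ea0ea0e10f31010d50fc0f00b70cf0f00f00cf0b70f60ea0ed0f31010fd0fc0fc)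
    (nat_lit 0xf02d02d02d02d02d02d02d02d02d02d02d02d02d00a20f02d02d02d02d02d02d02d02d02d02d02d02d012911d0f02d02d02d02d02d02d02d02d02d02d02d01291110e40f02d02d02d02d02d02d02d02d02d02d00cc0fc1111110fc2d02d02d02d02d02d02d02d02d00f01321051111260fc2d02d02d02d02d02d02d02d00e70c912c12c0c30ed1262d02d02d02d02d02d02d00e70e70fc0fc0e70e71201262d02d02d02d02d02d00f40dc17717d0bc1000ff10b1482d02d02d02d02d00e40f01531590f00cc10510b1141482d02d02d02d00d40fe15b1790fe0fe11911912214e1422d02d02d01040bc1571770b610a1090e51221221301422d02d00cf0b70f00f00b70cf0ea0f60f30ed0fd1010fc2d00cf0b71141140990cf0ea0ea0f30e10d51010f00fc)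
    (nat_lit 3) (nat_lit 61)
    [[nat_lit 2,nat_lit 0x10002,nat_lit 0x1000002,nat_lit 17,nat_lit 0x10011,nat_lit 0x1000011,nat_lit 257,
    nat_lit 0x10101,nat_lit 0x1000101,nat_lit 0x1001,nat_lit 0x11001,nat_lit 0x1001001,nat_lit 0x10001,
    nat_lit 0x20001,nat_lit 0x1010001,nat_lit 0x100001,nat_lit 0x110001,nat_lit 0x1000001,nat_lit 0x2000001],
    [nat_lit 32,nat_lit 272,nat_lit 0x1010,nat_lit 0x11010,nat_lit 0x1001010,nat_lit 0x10010,nat_lit 0x20010,
    nat_lit 0x1010010,nat_lit 0x1000010,nat_lit 0x2000010],[nat_lit 512,nat_lit 0x1100,nat_lit 0x11100,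
    nat_lit 0x1001100,nat_lit 0x10100,nat_lit 0x20100,nat_lit 0x1010100,nat_lit 0x1000100,nat_lit 0x2000100],
    [nat_lit 0x2000,nat_lit 0x11000,nat_lit 0x21000,nat_lit 0x1011000,nat_lit 0x101000,nat_lit 0x1001000,
    nat_lit 0x2001000],[nat_lit 0x20000,nat_lit 0x120000,nat_lit 0x110000,nat_lit 0x1010000],[nat_lit 0x200000,
    nat_lit 0x1100000],[nat_lit 0x2000000]]
    [.c (nat_lit 1) (nat_lit 2),.r (nat_lit 0x1ad5) (nat_lit 10) [nat_lit 0x10419,nat_lit 0x2419,nat_lit 17,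
    nat_lit 0x611],.r (nat_lit 0x1b56) (nat_lit 12) [nat_lit 0x13001,nat_lit 0x2001,nat_lit 0x100d1],
    .c (nat_lit 0) (nat_lit 0x483),.r (nat_lit 32) (nat_lit 5) [nat_lit 0x18099,nat_lit 0x10001],
    .r (nat_lit 0x174e) (nat_lit 8) [nat_lit 0x18099,nat_lit 0x10001],.c (nat_lit 0) (nat_lit 0x2083),
    .r (nat_lit 32) (nat_lit 5) [nat_lit 0x3099,nat_lit 0x10001],.r (nat_lit 0x174e) (nat_lit 8) [nat_lit 0x3099,
    nat_lit 0x10001],.r (nat_lit 0x1a71) (nat_lit 8) [nat_lit 0x13001,nat_lit 17,nat_lit 0x2001],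
    .r (nat_lit 32) (nat_lit 13) [nat_lit 0x3099,nat_lit 0x2001],.r (nat_lit 32) (nat_lit 10) [nat_lit 0x18099,
    nat_lit 0x10001],.r (nat_lit 0) (nat_lit 8) [nat_lit 17,nat_lit 0x2001],
    .r (nat_lit 0x18f4) (nat_lit 4) [nat_lit 0x401,nat_lit 0x2001,nat_lit 0x10001,nat_lit 0x621],
    .r (nat_lit 0x1979) (nat_lit 7) [nat_lit 0x1b099,nat_lit 0x10001,nat_lit 0x2001],
    .r (nat_lit 0x1b23) (nat_lit 9) [nat_lit 0x18011,nat_lit 0x14429,nat_lit 0x10001],
    .r (nat_lit 0x171c) (nat_lit 4) [nat_lit 0x621,nat_lit 0x3fb91,nat_lit 0x30429,nat_lit 0x6429],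
    .r (nat_lit 0x174f) (nat_lit 5) [nat_lit 0x2001,nat_lit 17],.r (nat_lit 0x1b54) (nat_lit 7) [nat_lit 0x10001,
    nat_lit 0x2001,nat_lit 17],.c (nat_lit 2) (nat_lit 2),.c (nat_lit 2) (nat_lit 0x3402),
    .r (nat_lit 0x1b04) (nat_lit 10) [nat_lit 0x13011,nat_lit 0x2001],
    .r (nat_lit 0x174e) (nat_lit 5) [nat_lit 0x18099,nat_lit 0x2001],.r (nat_lit 32) (nat_lit 11) [nat_lit 0x18099,
    nat_lit 0x2001],.r (nat_lit 0) (nat_lit 1) [nat_lit 17,nat_lit 0x10001],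
    .r (nat_lit 32) (nat_lit 5) [nat_lit 0x2b71a,nat_lit 0x10001],.r (nat_lit 0x1b53) (nat_lit 8) [nat_lit 0x13001,
    nat_lit 0x18099,nat_lit 0x2001],.r (nat_lit 0) (nat_lit 3) [nat_lit 0x2001,nat_lit 0x13011],
    .r (nat_lit 0x174e) (nat_lit 8) [nat_lit 0x2b71a,nat_lit 0x10001],.c (nat_lit 3) (nat_lit 2),
    .r (nat_lit 0x1b04) (nat_lit 10) [nat_lit 17,nat_lit 0x2001],.r (nat_lit 0x174e) (nat_lit 5) [nat_lit 0x3099,
    nat_lit 0x2001],.r (nat_lit 32) (nat_lit 11) [nat_lit 0x3099,nat_lit 0x2001],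
    .r (nat_lit 0) (nat_lit 1) [nat_lit 0x1a011,nat_lit 0x10001],.r (nat_lit 32) (nat_lit 5) [nat_lit 0x1d71a,
    nat_lit 0x10001],.r (nat_lit 0x1b53) (nat_lit 8) [nat_lit 0x13001,nat_lit 0x3099,nat_lit 0x2001],
    .r (nat_lit 0) (nat_lit 3) [nat_lit 0x2001,nat_lit 17],.r (nat_lit 0x174e) (nat_lit 8) [nat_lit 0x1d71a,
    nat_lit 0x10001],.c (nat_lit 4) (nat_lit 2),.c (nat_lit 0) (nat_lit 0x56e5),
    .r (nat_lit 0x1b54) (nat_lit 4) [nat_lit 0x2001,nat_lit 0x10001,nat_lit 17],.c (nat_lit 1) (nat_lit 0x249a),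
    .r (nat_lit 0x1778) (nat_lit 4) [nat_lit 0x401,nat_lit 0x2001,nat_lit 0x10001,nat_lit 17],
    .c (nat_lit 0) (nat_lit 0x5ae5),.r (nat_lit 0x18f5) (nat_lit 0) [nat_lit 17,nat_lit 0x10001,nat_lit 0x2001,
    nat_lit 0x401],.c (nat_lit 5) (nat_lit 2),.r (nat_lit 32) (nat_lit 11) [nat_lit 0x412,nat_lit 0x2001],
    .r (nat_lit 0x1ad5) (nat_lit 10) [nat_lit 0x10019,nat_lit 0x2019,nat_lit 0x411,nat_lit 17],
    .c (nat_lit 0) (nat_lit 0x5ae5),.c (nat_lit 6) (nat_lit 2),.r (nat_lit 0x1b56) (nat_lit 12) [nat_lit 0x13001,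
    nat_lit 0x2001,nat_lit 0x104d1],.c (nat_lit 7) (nat_lit 2)],
    .l (nat_lit 11) (nat_lit 480) (nat_lit 4) (nat_lit 0xde000000ac000000bc000000bc000000c0000000c0000000c2000000c2000000be000000be000000ae000000d8000000dc000000dc) (nat_lit 0x320000000000000022000000220000001e0000001e0000001c0000001c000000200000002000000006000000300000000200000002)
    (nat_lit 0x1583785f0bc170308620c60c01a86c0ae1b8298390ac100228490841202404809214c200550a21142f0520a213c2a04d09c1302705f0881742e8400be1342905009e1402784e09c16c2285c0ba1083084f0a8148288520a21442805d0901782f8490b8140278510a41482905009e15c2405d0be1203184f09c148288540a61442885e092190330480c4140268520a414c2a0500a21782408a1181241a84e09c13c280510a2140278300901742f048060138260500a2140288510a01202385e0bc1002b8450881202404809211c2405407a214350530d816c2f8570ba1782f0480601a42a0860d61442985d0ba17c2f88c0cc1782f06b0d41b4368550dc1702e85d0bc2283205e0ba2184286d0da)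
    (nat_lit 0x158780f01e03c0780f01e03c0780f01e03c07806f0ac3c0780f01e03c0780f01e03c0780f01e017c200521e03c0780f01e03c0780f01e03c07805e08a144290f01e03c0780f01e03c0780f01e01702484f0a0148780f01e03c0780f01e03c078061084150278510a43c0780f01e03c0780f01e01882404d0a0148290541e03c0780f01e03c078063090138278510a414c2a0f01e03c0780f01e00c02404c09c144280510a0140780f01e03c0780350921382705009e1442884f0a03c0780f01e01802985f0b61742b85e0bc0c0240541e03c078057080110228480901242404808e0f42a0f01e01b82a85d0b81782e8641141742f08510c1b4780530a21742e85f0be1984605e0bc1a83586d0da)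
    (nat_lit 4) (nat_lit 47)
    [[nat_lit 2,nat_lit 257,nat_lit 0x1000101,nat_lit 0x10001,nat_lit 0x100001,nat_lit 0x1000001],[nat_lit 32,
    nat_lit 288,nat_lit 272,nat_lit 544,nat_lit 528,nat_lit 0x1110,nat_lit 0x10110,nat_lit 0x100110,nat_lit 0x1000110,
    nat_lit 0x1010110,nat_lit 0x1100110,nat_lit 0x1010,nat_lit 0x10010,nat_lit 0x110010,nat_lit 0x100010,
    nat_lit 0x1000010],[nat_lit 512,nat_lit 0x100200,nat_lit 0x1000200,nat_lit 0x2000200,nat_lit 0x1100,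
    nat_lit 0x101100,nat_lit 0x1001100,nat_lit 0x10100,nat_lit 0x110100,nat_lit 0x1010100,nat_lit 0x100100,
    nat_lit 0x200100,nat_lit 0x1100100,nat_lit 0x1000100,nat_lit 0x2100100,nat_lit 0x2000100],[nat_lit 0x2000,
    nat_lit 0x11000,nat_lit 0x111000,nat_lit 0x101000,nat_lit 0x201000,nat_lit 0x1001000],[nat_lit 0x20000,
    nat_lit 0x110000,nat_lit 0x1010000],[nat_lit 0x200000,nat_lit 0x1100000],[nat_lit 0x2000000]]
    [.c (nat_lit 1) (nat_lit 2),.r (nat_lit 0x174d) (nat_lit 4) [nat_lit 0x300231,nat_lit 0x220001],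
    .r (nat_lit 0x19a7) (nat_lit 11) [nat_lit 0x303201,nat_lit 0x220001,nat_lit 0x2031,nat_lit 0x30001],
    .r (nat_lit 0x1b50) (nat_lit 6) [nat_lit 0x330021,nat_lit 0x2001,nat_lit 0x220001],
    .r (nat_lit 0x174e) (nat_lit 4) [nat_lit 0x222031,nat_lit 0x303201],
    .r (nat_lit 0x1b50) (nat_lit 7) [nat_lit 0x303231,nat_lit 0x2001,nat_lit 33],.c (nat_lit 2) (nat_lit 2),
    .r (nat_lit 0x1af3) (nat_lit 7) [nat_lit 0x735221,nat_lit 0x303021,nat_lit 0x422031],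
    .r (nat_lit 0x174f) (nat_lit 4) [nat_lit 0x303201,nat_lit 33],.r (nat_lit 0x174e) (nat_lit 4) [nat_lit 34,
    nat_lit 0x303201],.r (nat_lit 0xf45) (nat_lit 5) [nat_lit 0x50001,nat_lit 0x505401,nat_lit 0x330021,
    nat_lit 0x440001],.r (nat_lit 0x1af3) (nat_lit 7) [nat_lit 0x303021,nat_lit 0x220321,nat_lit 561],
    .r (nat_lit 0x1aad) (nat_lit 9) [nat_lit 0x422301,nat_lit 0x202031,nat_lit 0x303201],
    .c (nat_lit 1) (nat_lit 0x22203),.r (nat_lit 4) (nat_lit 2) [nat_lit 0x202031,nat_lit 0x220001],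
    .c (nat_lit 6) (nat_lit 0x20203),.c (nat_lit 5) (nat_lit 0x20203),.c (nat_lit 1) (nat_lit 0x2323),
    .c (nat_lit 0) (nat_lit 0x20003),.r (nat_lit 32) (nat_lit 12) [nat_lit 0x202031,nat_lit 0x303201],
    .r (nat_lit 0x1750) (nat_lit 4) [nat_lit 0x220001,nat_lit 0x533221],.c (nat_lit 0) (nat_lit 0x20003),
    .c (nat_lit 3) (nat_lit 2),.c (nat_lit 3) (nat_lit 770),.r (nat_lit 0xf46) (nat_lit 4) [nat_lit 0x4031,
    nat_lit 0x400001,nat_lit 0x955401,nat_lit 33],.r (nat_lit 32) (nat_lit 12) [nat_lit 34,nat_lit 0x303201],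
    .r (nat_lit 0x174f) (nat_lit 4) [nat_lit 0x303201,nat_lit 0x422321],.c (nat_lit 1) (nat_lit 0x30023),
    .r (nat_lit 4) (nat_lit 2) [nat_lit 0x330231,nat_lit 0x220001],.r (nat_lit 0x1b26) (nat_lit 2) [nat_lit 0x2001,
    nat_lit 33,nat_lit 0x303201,nat_lit 0x220001],.c (nat_lit 5) (nat_lit 770),
    .r (nat_lit 0x174d) (nat_lit 4) [nat_lit 0x330231,nat_lit 0x220001],.c (nat_lit 0) (nat_lit 515),
    .c (nat_lit 6) (nat_lit 770),.c (nat_lit 7) (nat_lit 770),.r (nat_lit 0x174f) (nat_lit 1) [nat_lit 33,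
    nat_lit 0x220001],.r (nat_lit 0xf47) (nat_lit 0) [nat_lit 0x4001,nat_lit 0x3021,nat_lit 0x505401,
    nat_lit 0x844501],.r (nat_lit 0xf48) (nat_lit 4) [nat_lit 33,nat_lit 0x4001,nat_lit 0x400031,nat_lit 0x955401],
    .c (nat_lit 4) (nat_lit 2),.c (nat_lit 0) (nat_lit 0x33323),.r (nat_lit 32) (nat_lit 12) [nat_lit 0x330231,
    nat_lit 0x303201],.r (nat_lit 0x1750) (nat_lit 4) [nat_lit 0x220001,nat_lit 33],
    .r (nat_lit 0x1aaf) (nat_lit 11) [nat_lit 0x202321,nat_lit 0x303201,nat_lit 0x302231,nat_lit 0x220001],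
    .c (nat_lit 0) (nat_lit 0x33323),.c (nat_lit 5) (nat_lit 2),.r (nat_lit 10) (nat_lit 6) [nat_lit 0x220001,
    nat_lit 33],.c (nat_lit 0) (nat_lit 0x3003),.c (nat_lit 6) (nat_lit 2),
    .r (nat_lit 0x1a35) (nat_lit 9) [nat_lit 0x422301,nat_lit 0x303201,nat_lit 33],.c (nat_lit 7) (nat_lit 2)]]

/-- nodes -/
noncomputable def rD7k_19_19 : List RJ :=
  [.l (nat_lit 14) (nat_lit 0xb40) (nat_lit 4) (nat_lit 0x3c8000003c80000051400000514000005050000050500000494000004940000041f0000041f000004c8000004c80000047400000474) (nat_lit 0x14c0000014c00000000000000000000000f0000000f0000008000000080000000f5000000f50000004c0000004c000000a0000000a0)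
    (nat_lit 0xf602b812c03c80f1c4fd09783320b4c2a10df03480ca032812c03d813003c80a0c3b90a483420afc1f10ec037c0ca03280f203c814502e0142c40d15d85ca107c4d513204dc0c6044013004b01450514141450515d85ca0bfc47513204c80cc02b80ee44fd141440d0f004f610bc485104032e19d45d90df44650a0c3c7141450b13d83c012144850ff8410159c4cb11ec45f0d0833217285ca121448510504140e3439f113845a0f983460a4825e15d8576121442f10504140e7c39f0a782ae109846207c42a111d44d5104032e0e7c39f131032a0d943d311a45290afc2d30bfc41f0ff84100e7c38d0d484c40f4c3d30ecc3b30df034813204dc132c5d90ab845a0f4c3d3112045410a04280ec037c13204c8159c6750a7844e0f4c36511f044810a04280ca03280ae0440117c46511883460ecc52910a04280f503d40ca03280cc031811ec37d10983e60ecc46910a04280e603d4)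
    (nat_lit 0xf60b402d00b402d00b402d00b402d00b402d00b402d00b400ae03d82d00b402d00b402d00b402d00b402d00b402d00b4012c04c01450b402d00b402d00b402d00b402d00b402d00b400f203c80b805142d00b402d00b402d00b402d00b402d00b400f1c283142c5050f00b402d00b402d00b402d00b402d00b4013f43b9103450513d83c02d00b402d00b402d00b402d00b40097829215d857610bc4851050b402d00b402d00b402d00b400cc834217285ca121448510504142d00b402d00b402d00b400b4c2bf107c2ff10403fe0e3439f1310b402d00b402d00b400a841f113544750cb84100e7c39f0ca84c42d00b402d00b400df03b013204c819d4567113829e0d943d31120b402d00b400d2037c13704c817644cb11682ae0f4c3d311504482d00b400ca03280c603300df447b0f9842611a43b310a04280f50b400ca032811002b8119445f0d1846214643b310a04280f503d4)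
    (nat_lit 4) (nat_lit 79)
    [[nat_lit 2,nat_lit 0x100002,nat_lit 0x1000002,nat_lit 17,nat_lit 0x1011,nat_lit 0x1000011,nat_lit 257,
    nat_lit 0x1000101,nat_lit 513,nat_lit 0x1101,nat_lit 0x1001,nat_lit 0x1001001,nat_lit 0x10001,nat_lit 0x1010001,
    nat_lit 0x100001,nat_lit 0x1100101,nat_lit 0x200001,nat_lit 0x1100001,nat_lit 0x1000001,nat_lit 0x2000101,
    nat_lit 0x2000001],[nat_lit 32,nat_lit 272,nat_lit 528,nat_lit 0x1110,nat_lit 0x1000110,nat_lit 0x1010,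
    nat_lit 0x2010,nat_lit 0x1001010,nat_lit 0x100010,nat_lit 0x1000010,nat_lit 0x2000010],[nat_lit 512,
    nat_lit 0x1000200,nat_lit 0x1200,nat_lit 0x10200,nat_lit 0x2000200,nat_lit 0x1100,nat_lit 0x1001100,
    nat_lit 0x2001100,nat_lit 0x10100,nat_lit 0x1010100,nat_lit 0x2010100,nat_lit 0x20100,nat_lit 0x100100,
    nat_lit 0x100200,nat_lit 0x1100100,nat_lit 0x110100,nat_lit 0x200100,nat_lit 0x1000100,nat_lit 0x2000100],
    [nat_lit 0x2000,nat_lit 0x1002000,nat_lit 0x11000,nat_lit 0x1011000,nat_lit 0x1001000,nat_lit 0x2001000],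
    [nat_lit 0x20000,nat_lit 0x110000,nat_lit 0x1010000,nat_lit 0x2010000],[nat_lit 0x200000,nat_lit 0x1100000],
    [nat_lit 0x2000000]]
    [.c (nat_lit 1) (nat_lit 2),.r (nat_lit 2) (nat_lit 3) [nat_lit 0x2001,nat_lit 0x300021],
    .c (nat_lit 0) (nat_lit 0x505543),.c (nat_lit 0) (nat_lit 0x220003),.c (nat_lit 0) (nat_lit 0x533522),
    .r (nat_lit 32) (nat_lit 9) [nat_lit 0x2202031,nat_lit 0x2000001],.c (nat_lit 0) (nat_lit 0x303523),
    .c (nat_lit 0) (nat_lit 0x303323),.c (nat_lit 0) (nat_lit 0x505543),.c (nat_lit 4) (nat_lit 0x202432),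
    .c (nat_lit 0) (nat_lit 0x220405),.c (nat_lit 1) (nat_lit 770),.r (nat_lit 32) (nat_lit 0) [nat_lit 0x2001,
    nat_lit 33],.r (nat_lit 0x1972) (nat_lit 13) [nat_lit 0x22001,nat_lit 0x2000031,nat_lit 0x3033201],
    .c (nat_lit 0) (nat_lit 0x300323),.c (nat_lit 4) (nat_lit 0x300023),.c (nat_lit 0) (nat_lit 0x5002),
    .r (nat_lit 0x174e) (nat_lit 13) [nat_lit 0x3000231,nat_lit 0x2000001],.c (nat_lit 0) (nat_lit 0x303323),
    .c (nat_lit 7) (nat_lit 0x202232),.c (nat_lit 0) (nat_lit 0x505543),.c (nat_lit 2) (nat_lit 2),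
    .r (nat_lit 0x1b59) (nat_lit 13) [nat_lit 0x2001,nat_lit 0x2002321,nat_lit 0x3003201],
    .r (nat_lit 2) (nat_lit 3) [nat_lit 0x2001,nat_lit 0x3305432],.r (nat_lit 0x13c8) (nat_lit 6) [nat_lit 0x2024321,
    nat_lit 0x3035221,nat_lit 0x3030231,nat_lit 0x3020231],.r (nat_lit 0x174c) (nat_lit 9) [nat_lit 0x22001,
    nat_lit 0x2200001,nat_lit 0x3355431],.r (nat_lit 2) (nat_lit 3) [nat_lit 0x2001,nat_lit 0x2022031],
    .c (nat_lit 0) (nat_lit 0x735942),.c (nat_lit 2) (nat_lit 770),.r (nat_lit 0x174d) (nat_lit 3) [nat_lit 0x30021,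
    nat_lit 0x2022031],.r (nat_lit 8) (nat_lit 13) [nat_lit 0x2002031,nat_lit 33],
    .r (nat_lit 32) (nat_lit 9) [nat_lit 0x2204032,nat_lit 0x2000001],.c (nat_lit 3) (nat_lit 2),
    .c (nat_lit 0) (nat_lit 0x505543),.r (nat_lit 0x1a46) (nat_lit 10) [nat_lit 33,nat_lit 0x2000001,nat_lit 0x22001],
    .c (nat_lit 4) (nat_lit 0x424852),.c (nat_lit 0) (nat_lit 0x505543),.c (nat_lit 0) (nat_lit 0x303023),
    .c (nat_lit 3) (nat_lit 770),.c (nat_lit 0) (nat_lit 0x303023),.c (nat_lit 0) (nat_lit 0x535543),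
    .c (nat_lit 1) (nat_lit 0x222232),.c (nat_lit 0) (nat_lit 0x535543),
    .r (nat_lit 0x19b2) (nat_lit 0) [nat_lit 0x22001,nat_lit 0x3033201,nat_lit 0x2022321],
    .c (nat_lit 0) (nat_lit 0x300323),.r (nat_lit 2) (nat_lit 3) [nat_lit 0x2001,nat_lit 0x5305431],
    .r (nat_lit 32) (nat_lit 9) [nat_lit 0x3000231,nat_lit 0x2000001],.c (nat_lit 0) (nat_lit 0x220232),
    .c (nat_lit 0) (nat_lit 0x5002),.c (nat_lit 0) (nat_lit 0x303323),.c (nat_lit 0) (nat_lit 0x505543),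
    .c (nat_lit 4) (nat_lit 2),.c (nat_lit 4) (nat_lit 770),.r (nat_lit 0x174d) (nat_lit 3) [nat_lit 0x2002031,
    nat_lit 33],.c (nat_lit 2) (nat_lit 0x200203),.c (nat_lit 0) (nat_lit 515),.c (nat_lit 7) (nat_lit 770),
    .c (nat_lit 5) (nat_lit 2),.r (nat_lit 2) (nat_lit 3) [nat_lit 0x2001,nat_lit 33],
    .c (nat_lit 0) (nat_lit 0x535543),.c (nat_lit 0) (nat_lit 0x535543),.c (nat_lit 6) (nat_lit 2),
    .r (nat_lit 0x1b04) (nat_lit 11) [nat_lit 33,nat_lit 0x2000001],.c (nat_lit 7) (nat_lit 2)]]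

/-- nodes -/
noncomputable def rD7k_19_20 : List RJ :=
  [.s (nat_lit 16) (nat_lit 0x3840) (nat_lit 5) (nat_lit 0x1d6400001a900000196a0000161200001926000019260000164c00001b700000144a00001362000019480000194800001a0000001a00) (nat_lit 0x2d40000000000000752000003fa0000043e0000043e000001f40000071800000a020000091a0000041c0000041c0000036400000364)
    (nat_lit 0x17b81d64217a205a1d061d6e096014c4136216b2194809601a00187c17bc17b817b61696165216521f8c19080c46117616741674103c13681696205a121815700f9c10b4177612520f6809601912199618de160617b6217a0ec01218107411d415360efa0c100a800e9a15de0e660d9216521d6e11d410b414e814e819aa136e0b3c0ef41a26150a0a5a191e16521d0610740f9c14c814e8184a120e0f240e8c19be150a174a18fe190814c40efa1252120e136e15d80f540c4a0c1a0ef412300f080e341f8c096015361776184a19aa197c15d80dce12561010175415a40f50117616b20a8009600e8c0ef412560c1a0a480b3018ea13ce22f6182a0c4613620c100f680f240b3c0dce0c4a09600a4814620f461fe6151a1674096015de1996150a150a175412300f4613ce1010152c15e410c8167419480e9a191219be1a2610100ef4146218ea152c1010176815e41368187c0d92160618fe191e0f500e34151a182a15e410c8169c169c103c1a000e6618de174a0a5a15a40f081fe622f6176815e4169c169c)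
    (nat_lit 0x17b838403840384038403840384038403840384038403840384038401d6417b8384038403840384038403840384038403840384038403840217a17b6121838403840384038403840384038403840384038403840205a16961570121838403840384038403840384038403840384038401d0616520f9c107414e83840384038403840384038403840384038401d6e165210b411d414e814e83840384038403840384038403840384009601f8c1776153619aa184a15d8384038403840384038403840384014c4190812520efa136e120e0f5415d838403840384038403840384013620c460f680c100b3c0f240c4a0dce0a4838403840384038403840157a117609600a800ef40e8c0c1a12560b300a4838403840384038401854167419120e9a1a2619be0ef4101017fa146210103840384038400960167418a615de150a150a1230175413ce0f46152c1010384038401868103c18de0e660a5a174a0f0815a417c6197e15e41768169c38401794136816060d92191e18fe0e340f5016f2151a10c815e4169c169c)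
    (nat_lit 5) (nat_lit 177)
    [[nat_lit 0,nat_lit 4],[nat_lit 0,nat_lit 5],[nat_lit 0,nat_lit 7,nat_lit 0,nat_lit 7],[nat_lit 0,nat_lit 13,
    nat_lit 2,nat_lit 6],[nat_lit 0,nat_lit 13,nat_lit 2,nat_lit 7],[nat_lit 1,nat_lit 4],[nat_lit 1,nat_lit 5],
    [nat_lit 1,nat_lit 6,nat_lit 1,nat_lit 6],[nat_lit 1,nat_lit 6,nat_lit 3,nat_lit 12],[nat_lit 1,nat_lit 7,
    nat_lit 3,nat_lit 12],[nat_lit 2,nat_lit 4,nat_lit 8],[nat_lit 2,nat_lit 4,nat_lit 9],[nat_lit 2,nat_lit 5,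
    nat_lit 9],[nat_lit 2,nat_lit 8,nat_lit 4],[nat_lit 2,nat_lit 8,nat_lit 5],[nat_lit 2,nat_lit 9,nat_lit 4],
    [nat_lit 2,nat_lit 9,nat_lit 5],[nat_lit 3,nat_lit 4,nat_lit 8],[nat_lit 3,nat_lit 4,nat_lit 9],[nat_lit 3,
    nat_lit 5,nat_lit 8],[nat_lit 3,nat_lit 5,nat_lit 9],[nat_lit 3,nat_lit 8,nat_lit 4],[nat_lit 3,nat_lit 8,
    nat_lit 5],[nat_lit 3,nat_lit 9,nat_lit 5],[nat_lit 6,nat_lit 9,nat_lit 10],[nat_lit 6,nat_lit 10,nat_lit 8],
    [nat_lit 6,nat_lit 10,nat_lit 9],[nat_lit 6,nat_lit 11,nat_lit 8],[nat_lit 7,nat_lit 8,nat_lit 11],[nat_lit 7,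
    nat_lit 9,nat_lit 10],[nat_lit 7,nat_lit 9,nat_lit 11],[nat_lit 7,nat_lit 11,nat_lit 8],[nat_lit 10,nat_lit 12],
    [nat_lit 10,nat_lit 13],[nat_lit 11,nat_lit 12],[nat_lit 11,nat_lit 13]]
    [nat_lit 260,nat_lit 261,nat_lit 0x10707,nat_lit 0x10d26,nat_lit 0x10d27,nat_lit 276,nat_lit 277,nat_lit 0x11616,
    nat_lit 0x1163c,nat_lit 0x1173c,nat_lit 0x1248,nat_lit 0x1249,nat_lit 0x1259,nat_lit 0x1284,nat_lit 0x1285,
    nat_lit 0x1294,nat_lit 0x1295,nat_lit 0x1348,nat_lit 0x1349,nat_lit 0x1358,nat_lit 0x1359,nat_lit 0x1384,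
    nat_lit 0x1385,nat_lit 0x1395,nat_lit 0x169a,nat_lit 0x16a8,nat_lit 0x16a9,nat_lit 0x16b8,nat_lit 0x178b,
    nat_lit 0x179a,nat_lit 0x179b,nat_lit 0x17b8,nat_lit 428,nat_lit 429,nat_lit 444,nat_lit 445]
    [[[nat_lit 0,nat_lit 4],[nat_lit 0,nat_lit 5],[nat_lit 0,nat_lit 7,nat_lit 0,nat_lit 7],[nat_lit 0,nat_lit 13,
    nat_lit 2,nat_lit 6],[nat_lit 0,nat_lit 13,nat_lit 2,nat_lit 7],[nat_lit 1,nat_lit 4],[nat_lit 1,nat_lit 5],
    [nat_lit 1,nat_lit 6,nat_lit 1,nat_lit 6],[nat_lit 1,nat_lit 6,nat_lit 3,nat_lit 12],[nat_lit 1,nat_lit 7,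
    nat_lit 3,nat_lit 12],[nat_lit 2,nat_lit 4,nat_lit 8],[nat_lit 2,nat_lit 4,nat_lit 9]],[[nat_lit 2,nat_lit 5,
    nat_lit 9],[nat_lit 2,nat_lit 6,nat_lit 0,nat_lit 13],[nat_lit 2,nat_lit 7,nat_lit 0,nat_lit 13],[nat_lit 2,
    nat_lit 8,nat_lit 4],[nat_lit 2,nat_lit 8,nat_lit 5],[nat_lit 2,nat_lit 9,nat_lit 4],[nat_lit 2,nat_lit 9,
    nat_lit 5],[nat_lit 3,nat_lit 4,nat_lit 8],[nat_lit 3,nat_lit 4,nat_lit 9],[nat_lit 3,nat_lit 5,nat_lit 8],
    [nat_lit 3,nat_lit 5,nat_lit 9],[nat_lit 3,nat_lit 8,nat_lit 4]],[[nat_lit 3,nat_lit 8,nat_lit 5],[nat_lit 3,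
    nat_lit 9,nat_lit 5],[nat_lit 3,nat_lit 12,nat_lit 1,nat_lit 6],[nat_lit 3,nat_lit 12,nat_lit 1,nat_lit 7],
    [nat_lit 4,nat_lit 0],[nat_lit 4,nat_lit 1],[nat_lit 4,nat_lit 2,nat_lit 8],[nat_lit 4,nat_lit 2,nat_lit 9],
    [nat_lit 4,nat_lit 3,nat_lit 8],[nat_lit 4,nat_lit 8,nat_lit 2],[nat_lit 4,nat_lit 8,nat_lit 3],[nat_lit 4,
    nat_lit 9,nat_lit 2]],[[nat_lit 4,nat_lit 9,nat_lit 3],[nat_lit 5,nat_lit 0],[nat_lit 5,nat_lit 1],[nat_lit 5,
    nat_lit 2,nat_lit 8],[nat_lit 5,nat_lit 2,nat_lit 9],[nat_lit 5,nat_lit 3,nat_lit 8],[nat_lit 5,nat_lit 3,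
    nat_lit 9],[nat_lit 5,nat_lit 8,nat_lit 3],[nat_lit 5,nat_lit 9,nat_lit 2],[nat_lit 5,nat_lit 9,nat_lit 3],
    [nat_lit 6,nat_lit 0,nat_lit 13,nat_lit 2],[nat_lit 6,nat_lit 1,nat_lit 6,nat_lit 1]],[[nat_lit 6,nat_lit 3,
    nat_lit 12,nat_lit 1],[nat_lit 6,nat_lit 9,nat_lit 10],[nat_lit 6,nat_lit 10,nat_lit 8],[nat_lit 6,nat_lit 10,
    nat_lit 9],[nat_lit 6,nat_lit 11,nat_lit 8],[nat_lit 7,nat_lit 0,nat_lit 7,nat_lit 0],[nat_lit 7,nat_lit 0,
    nat_lit 13,nat_lit 2],[nat_lit 7,nat_lit 3,nat_lit 12,nat_lit 1],[nat_lit 7,nat_lit 8,nat_lit 11],[nat_lit 7,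
    nat_lit 9,nat_lit 10],[nat_lit 7,nat_lit 9,nat_lit 11],[nat_lit 7,nat_lit 11,nat_lit 8]],[[nat_lit 8,nat_lit 2,
    nat_lit 4],[nat_lit 8,nat_lit 3,nat_lit 4],[nat_lit 8,nat_lit 3,nat_lit 5],[nat_lit 8,nat_lit 4,nat_lit 2],
    [nat_lit 8,nat_lit 4,nat_lit 3],[nat_lit 8,nat_lit 5,nat_lit 2],[nat_lit 8,nat_lit 5,nat_lit 3],[nat_lit 8,
    nat_lit 6,nat_lit 10],[nat_lit 8,nat_lit 6,nat_lit 11],[nat_lit 8,nat_lit 7,nat_lit 11],[nat_lit 8,nat_lit 11,
    nat_lit 7],[nat_lit 9,nat_lit 2,nat_lit 4]],[[nat_lit 9,nat_lit 2,nat_lit 5],[nat_lit 9,nat_lit 3,nat_lit 4],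
    [nat_lit 9,nat_lit 3,nat_lit 5],[nat_lit 9,nat_lit 4,nat_lit 2],[nat_lit 9,nat_lit 5,nat_lit 2],[nat_lit 9,
    nat_lit 5,nat_lit 3],[nat_lit 9,nat_lit 6,nat_lit 10],[nat_lit 9,nat_lit 10,nat_lit 6],[nat_lit 9,nat_lit 10,
    nat_lit 7],[nat_lit 9,nat_lit 11,nat_lit 7],[nat_lit 10,nat_lit 6,nat_lit 9],[nat_lit 10,nat_lit 7,nat_lit 9]],
    [[nat_lit 10,nat_lit 8,nat_lit 6],[nat_lit 10,nat_lit 9,nat_lit 6],[nat_lit 10,nat_lit 12],[nat_lit 10,
    nat_lit 13],[nat_lit 11,nat_lit 7,nat_lit 8],[nat_lit 11,nat_lit 7,nat_lit 9],[nat_lit 11,nat_lit 8,nat_lit 6],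
    [nat_lit 11,nat_lit 8,nat_lit 7],[nat_lit 11,nat_lit 12],[nat_lit 11,nat_lit 13],[nat_lit 12,nat_lit 1,nat_lit 6,
    nat_lit 3],[nat_lit 12,nat_lit 1,nat_lit 7,nat_lit 3]],[[nat_lit 12,nat_lit 10],[nat_lit 12,nat_lit 11],
    [nat_lit 13,nat_lit 2,nat_lit 6,nat_lit 0],[nat_lit 13,nat_lit 2,nat_lit 7,nat_lit 0],[nat_lit 13,nat_lit 10],
    [nat_lit 13,nat_lit 11]]]
    [[nat_lit 28,nat_lit 37,nat_lit 53,nat_lit 98,nat_lit 99,nat_lit 29,nat_lit 38,nat_lit 47,nat_lit 48,nat_lit 55,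
    nat_lit 33,nat_lit 35],[nat_lit 44,nat_lit 46,nat_lit 54,nat_lit 63,nat_lit 65,nat_lit 75,nat_lit 76,nat_lit 34,
    nat_lit 36,nat_lit 43,nat_lit 45,nat_lit 64],[nat_lit 66,nat_lit 77,nat_lit 94,nat_lit 95,nat_lit 0,nat_lit 5,
    nat_lit 15,nat_lit 17,nat_lit 23,nat_lit 60,nat_lit 61,nat_lit 71],[nat_lit 73,nat_lit 1,nat_lit 6,nat_lit 16,
    nat_lit 18,nat_lit 24,nat_lit 25,nat_lit 62,nat_lit 72,nat_lit 74,nat_lit 3,nat_lit 7],[nat_lit 26,nat_lit 79,
    nat_lit 84,nat_lit 85,nat_lit 90,nat_lit 2,nat_lit 4,nat_lit 27,nat_lit 70,nat_lit 80,nat_lit 81,nat_lit 91],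
    [nat_lit 10,nat_lit 19,nat_lit 21,nat_lit 30,nat_lit 32,nat_lit 39,nat_lit 41,nat_lit 50,nat_lit 52,nat_lit 59,
    nat_lit 88,nat_lit 11],[nat_lit 12,nat_lit 20,nat_lit 22,nat_lit 31,nat_lit 40,nat_lit 42,nat_lit 51,nat_lit 82,
    nat_lit 83,nat_lit 89,nat_lit 49,nat_lit 57],[nat_lit 67,nat_lit 78,nat_lit 96,nat_lit 100,nat_lit 56,nat_lit 58,
    nat_lit 68,nat_lit 69,nat_lit 97,nat_lit 101,nat_lit 8,nat_lit 9],[nat_lit 86,nat_lit 92,nat_lit 13,nat_lit 14,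
    nat_lit 87,nat_lit 93]]
    [[nat_lit 28,nat_lit 37,nat_lit 53,nat_lit 46,nat_lit 54,nat_lit 29,nat_lit 38,nat_lit 47,nat_lit 94,nat_lit 95,
    nat_lit 60,nat_lit 71],[nat_lit 72,nat_lit 98,nat_lit 99,nat_lit 30,nat_lit 39,nat_lit 31,nat_lit 40,nat_lit 61,
    nat_lit 73,nat_lit 62,nat_lit 74,nat_lit 32],[nat_lit 41,nat_lit 42,nat_lit 48,nat_lit 55,nat_lit 0,nat_lit 5,
    nat_lit 63,nat_lit 75,nat_lit 64,nat_lit 10,nat_lit 19,nat_lit 11],[nat_lit 20,nat_lit 1,nat_lit 6,nat_lit 65,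
    nat_lit 76,nat_lit 66,nat_lit 77,nat_lit 21,nat_lit 12,nat_lit 22,nat_lit 13,nat_lit 7],[nat_lit 8,nat_lit 82,
    nat_lit 67,nat_lit 78,nat_lit 68,nat_lit 2,nat_lit 14,nat_lit 9,nat_lit 88,nat_lit 83,nat_lit 89,nat_lit 69],
    [nat_lit 33,nat_lit 34,nat_lit 43,nat_lit 15,nat_lit 23,nat_lit 16,nat_lit 24,nat_lit 84,nat_lit 90,nat_lit 91,
    nat_lit 56,nat_lit 35],[nat_lit 44,nat_lit 36,nat_lit 45,nat_lit 17,nat_lit 18,nat_lit 25,nat_lit 85,nat_lit 49,
    nat_lit 57,nat_lit 58,nat_lit 79,nat_lit 80],[nat_lit 50,nat_lit 51,nat_lit 96,nat_lit 100,nat_lit 70,nat_lit 81,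
    nat_lit 52,nat_lit 59,nat_lit 97,nat_lit 101,nat_lit 26,nat_lit 27],[nat_lit 86,nat_lit 92,nat_lit 3,nat_lit 4,
    nat_lit 87,nat_lit 93]]
    [[[],[nat_lit 94,nat_lit 95],[],[nat_lit 97],[nat_lit 97],[nat_lit 26],[],[nat_lit 19,nat_lit 21],[nat_lit 19,
    nat_lit 21],[nat_lit 24,nat_lit 25],[nat_lit 3],[nat_lit 3]],[[],[],[nat_lit 1],[],[],[nat_lit 2,nat_lit 4],
    [nat_lit 2,nat_lit 4],[],[],[nat_lit 43,nat_lit 45],[nat_lit 43,nat_lit 45],[]],[[],[],[nat_lit 37],[nat_lit 37],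
    [],[nat_lit 13,nat_lit 14],[nat_lit 15,nat_lit 17],[nat_lit 15,nat_lit 17],[],[],[],[]],[[],[nat_lit 54],[],[],[],
    [nat_lit 55],[nat_lit 55],[nat_lit 57],[],[],[nat_lit 33,nat_lit 35],[]],[[nat_lit 29],[],[],[],[nat_lit 31],
    [nat_lit 75,nat_lit 76],[nat_lit 75,nat_lit 76],[],[nat_lit 78],[nat_lit 80,nat_lit 81],[nat_lit 80,nat_lit 81],
    []],[[],[nat_lit 47,nat_lit 48],[nat_lit 47,nat_lit 48],[],[],[],[],[nat_lit 50,nat_lit 52],[nat_lit 50,
    nat_lit 52],[],[nat_lit 51],[]],[[],[],[],[nat_lit 90],[],[],[nat_lit 88],[nat_lit 92],[nat_lit 92],[nat_lit 89],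
    [],[nat_lit 62]],[[nat_lit 67],[nat_lit 70],[],[nat_lit 68,nat_lit 69],[],[],[nat_lit 100],[nat_lit 100],
    [nat_lit 98,nat_lit 99],[nat_lit 101],[nat_lit 87],[nat_lit 87]],[[nat_lit 86],[nat_lit 82,nat_lit 83],
    [nat_lit 5],[nat_lit 5],[nat_lit 8,nat_lit 9],[]]]
    (nat_lit 102) [nat_lit 0,nat_lit 1,nat_lit 2,nat_lit 3,nat_lit 4,nat_lit 5,nat_lit 6,nat_lit 7,nat_lit 8,
    nat_lit 9,nat_lit 10,nat_lit 11,nat_lit 12,nat_lit 15,nat_lit 16,nat_lit 17,nat_lit 18,nat_lit 19,nat_lit 20,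
    nat_lit 21,nat_lit 22,nat_lit 23,nat_lit 24,nat_lit 25,nat_lit 49,nat_lit 50,nat_lit 51,nat_lit 52,nat_lit 56,
    nat_lit 57,nat_lit 58,nat_lit 59,nat_lit 86,nat_lit 87,nat_lit 92,nat_lit 93]
    [[[],[],[],[],[nat_lit 0],[nat_lit 1],[nat_lit 3],[nat_lit 2,nat_lit 4],[],[],[],[],[],[]],[[],[],[],[],
    [nat_lit 5],[nat_lit 6],[nat_lit 7],[],[],[],[],[],[nat_lit 8,nat_lit 9],[]],[[],[],[],[],[nat_lit 15,nat_lit 17],
    [nat_lit 16,nat_lit 18],[],[],[nat_lit 10],[nat_lit 11,nat_lit 12],[],[],[],[nat_lit 13,nat_lit 14]],[[],[],[],[],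
    [nat_lit 23],[nat_lit 24,nat_lit 25],[nat_lit 26],[nat_lit 27],[nat_lit 19,nat_lit 21],[nat_lit 20,nat_lit 22],[],
    [],[],[]],[[nat_lit 28],[nat_lit 29],[nat_lit 33,nat_lit 35],[nat_lit 34,nat_lit 36],[],[],[],[],[nat_lit 30,
    nat_lit 32],[nat_lit 31],[],[],[],[]],[[nat_lit 37],[nat_lit 38],[nat_lit 44],[nat_lit 43,nat_lit 45],[],[],[],[],
    [nat_lit 39,nat_lit 41],[nat_lit 40,nat_lit 42],[],[],[],[]],[[],[nat_lit 47,nat_lit 48],[nat_lit 46],[],[],[],[],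
    [],[nat_lit 50,nat_lit 52],[nat_lit 51],[nat_lit 49],[],[],[]],[[nat_lit 53],[nat_lit 55],[nat_lit 54],[],[],[],
    [],[],[nat_lit 59],[],[nat_lit 57],[nat_lit 56,nat_lit 58],[],[]],[[],[],[nat_lit 63,nat_lit 65],[nat_lit 64,
    nat_lit 66],[nat_lit 60,nat_lit 61],[nat_lit 62],[],[nat_lit 70],[],[],[nat_lit 67],[nat_lit 68,nat_lit 69],[],
    []],[[],[],[nat_lit 75,nat_lit 76],[nat_lit 77],[nat_lit 71,nat_lit 73],[nat_lit 72,nat_lit 74],[nat_lit 79],
    [nat_lit 80,nat_lit 81],[],[],[nat_lit 78],[],[],[]],[[],[],[],[],[],[],[nat_lit 84,nat_lit 85],[],[],[nat_lit 82,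
    nat_lit 83],[],[],[nat_lit 86],[nat_lit 87]],[[],[],[],[],[],[],[nat_lit 90],[nat_lit 91],[nat_lit 88],
    [nat_lit 89],[],[],[nat_lit 92],[nat_lit 93]],[[],[],[],[nat_lit 94,nat_lit 95],[],[],[],[],[],[],[nat_lit 96],
    [nat_lit 97],[],[]],[[nat_lit 98,nat_lit 99],[],[],[],[],[],[],[],[],[],[nat_lit 100],[nat_lit 101],[],[]]]
    [[[nat_lit 0,nat_lit 0xc00000000000000000000000,nat_lit 0,nat_lit 0x2000000000000000000000000,
    nat_lit 0x2000000000000000000000000,nat_lit 0x4000000,nat_lit 0,nat_lit 0x280000,nat_lit 0x280000],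
    [nat_lit 0x3000000,nat_lit 8,nat_lit 8,nat_lit 0,nat_lit 0,nat_lit 2,nat_lit 0,nat_lit 0,nat_lit 20],[nat_lit 20,
    nat_lit 0,nat_lit 0,nat_lit 0x280000000000,nat_lit 0x280000000000,nat_lit 0,nat_lit 0,nat_lit 0,
    nat_lit 0x2000000000],[nat_lit 0x2000000000,nat_lit 0,nat_lit 0x6000,nat_lit 0x28000,nat_lit 0x28000,nat_lit 0,
    nat_lit 0,nat_lit 0,nat_lit 0],[nat_lit 0,nat_lit 0x40000000000000,nat_lit 0,nat_lit 0,nat_lit 0,
    nat_lit 0x80000000000000,nat_lit 0x80000000000000,nat_lit 0x200000000000000,nat_lit 0],[nat_lit 0,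
    nat_lit 0xa00000000,nat_lit 0,nat_lit 0x20000000,nat_lit 0,nat_lit 0,nat_lit 0,nat_lit 0x80000000,
    nat_lit 0x18000000000000000000],[nat_lit 0x18000000000000000000,nat_lit 0,nat_lit 0x40000000000000000000,
    nat_lit 0x300000000000000000000,nat_lit 0x300000000000000000000,nat_lit 0,nat_lit 0,nat_lit 0x1800000000000,
    nat_lit 0x1800000000000],[nat_lit 0,nat_lit 0,nat_lit 0,nat_lit 0,nat_lit 0x14000000000000,
    nat_lit 0x14000000000000,nat_lit 0,nat_lit 0x8000000000000,nat_lit 0],[nat_lit 0,nat_lit 0,nat_lit 0,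
    nat_lit 0x40000000000000000000000,nat_lit 0,nat_lit 0,nat_lit 0x10000000000000000000000,
    nat_lit 0x100000000000000000000000,nat_lit 0x100000000000000000000000]],[[nat_lit 0x20000000000000000000000,
    nat_lit 0,nat_lit 0x4000000000000000,nat_lit 0x80000000000000000,nat_lit 0x400000000000000000,nat_lit 0,
    nat_lit 0x300000000000000000,nat_lit 0,nat_lit 0],[nat_lit 0x10000000000000000000000000,
    nat_lit 0x10000000000000000000000000,nat_lit 0xc000000000000000000000000,nat_lit 0x20000000000000000000000000,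
    nat_lit 0x8000000000000000000000,nat_lit 0x8000000000000000000000,nat_lit 0x4000000000000000000000,
    nat_lit 0xc00000000000000000000,nat_lit 32],[nat_lit 32,nat_lit 768,nat_lit 0]]]
    []
    (nat_lit 0) (nat_lit 24) (nat_lit 24)
    [[nat_lit 2,nat_lit 0x1002,nat_lit 17,nat_lit 0x1011,nat_lit 0x1000011,nat_lit 0x100101,nat_lit 0x1001,
    nat_lit 0x1101,nat_lit 0x101101,nat_lit 0x2001,nat_lit 0x101001,nat_lit 0x1001001,nat_lit 0x10001,nat_lit 0x10011,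
    nat_lit 0x10101,nat_lit 0x11101,nat_lit 0x110101,nat_lit 0x11001,nat_lit 0x110001,nat_lit 0x100001,
    nat_lit 0x100201,nat_lit 0x200201,nat_lit 0x200101,nat_lit 0x200001,nat_lit 0x1000001],[nat_lit 32,nat_lit 48,
    nat_lit 0x1020,nat_lit 0x100120,nat_lit 0x1000020,nat_lit 272,nat_lit 528,nat_lit 0x1000110,nat_lit 0x1000210,
    nat_lit 0x1110,nat_lit 0x100110,nat_lit 0x100210,nat_lit 0x1010,nat_lit 0x1001110,nat_lit 0x1210,
    nat_lit 0x1001010,nat_lit 0x2010,nat_lit 0x11010,nat_lit 0x101110,nat_lit 0x10010,nat_lit 0x100010,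
    nat_lit 0x1100210,nat_lit 0x1100110,nat_lit 0x110010,nat_lit 0x1100010,nat_lit 0x1000010,nat_lit 0x2000010],
    [nat_lit 512,nat_lit 768,nat_lit 0x400,nat_lit 0x500,nat_lit 0x100400,nat_lit 0x1300,nat_lit 0x10300,
    nat_lit 0x100300,nat_lit 0x1000300,nat_lit 0x1001300,nat_lit 0x200300,nat_lit 0x1200,nat_lit 0x101200,
    nat_lit 0x1001200,nat_lit 0x10200,nat_lit 0x110200,nat_lit 0x100200,nat_lit 0x200200,nat_lit 0x1000200,
    nat_lit 0x101300,nat_lit 0x110300,nat_lit 0x1100,nat_lit 0x11200,nat_lit 0x2100,nat_lit 0x11100,nat_lit 0x101100,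
    nat_lit 0x1001100,nat_lit 0x1101200,nat_lit 0x1101100,nat_lit 0x2200,nat_lit 0x1002100,nat_lit 0x10100,
    nat_lit 0x20200,nat_lit 0x1011100,nat_lit 0x20100,nat_lit 0x110100,nat_lit 0x210100,nat_lit 0x100100,
    nat_lit 0x200100,nat_lit 0x1000100,nat_lit 0x1100200,nat_lit 0x1100100],[nat_lit 0x2000,nat_lit 0x11000,
    nat_lit 0x101000,nat_lit 0x1001000,nat_lit 0x1011000,nat_lit 0x1101000,nat_lit 0x2001000],[nat_lit 0x20000,
    nat_lit 0x120000,nat_lit 0x110000,nat_lit 0x210000,nat_lit 0x1010000],[nat_lit 0x200000,nat_lit 0x300000],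
    [nat_lit 0x2000000]]
    [.c (nat_lit 1) (nat_lit 2),.c (nat_lit 1) (nat_lit 0x4010862),.c (nat_lit 0) (nat_lit 0x6018043),
    .c (nat_lit 2) (nat_lit 0x4010862),.c (nat_lit 1) (nat_lit 0xc02),.c (nat_lit 0) (nat_lit 0x6318802),
    .c (nat_lit 0) (nat_lit 0x6018c43),.c (nat_lit 1) (nat_lit 0x218c43),.c (nat_lit 0) (nat_lit 0x862),
    .c (nat_lit 4) (nat_lit 0x4010862),.c (nat_lit 6) (nat_lit 0x4010862),.c (nat_lit 6) (nat_lit 0x6000c43),
    .c (nat_lit 0) (nat_lit 0xa328c83),.c (nat_lit 1) (nat_lit 0x200c02),.c (nat_lit 0) (nat_lit 0x6300002),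
    .c (nat_lit 2) (nat_lit 0x18043),.c (nat_lit 0) (nat_lit 0x6018002),.c (nat_lit 5) (nat_lit 0x4010862),
    .r (nat_lit 10) (nat_lit 8) [nat_lit 0x200001,nat_lit 0x18861],.r (nat_lit 32) (nat_lit 8) [nat_lit 0xc0318801,
    nat_lit 0x84200061],.c (nat_lit 0) (nat_lit 0xa518002),.c (nat_lit 0) (nat_lit 0xa528002),
    .c (nat_lit 0) (nat_lit 0x6329002),.c (nat_lit 0) (nat_lit 0x29002),.c (nat_lit 5) (nat_lit 0x300002),
    .c (nat_lit 2) (nat_lit 2),.r (nat_lit 0xbb9) (nat_lit 0) [nat_lit 0x638041,nat_lit 0x30061,nat_lit 0x1c0739801,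
    nat_lit 65,nat_lit 0x30c631c01],.c (nat_lit 0) (nat_lit 0x6318843),.c (nat_lit 0) (nat_lit 0xa328042),
    .c (nat_lit 2) (nat_lit 0xc02),.c (nat_lit 0) (nat_lit 0x4000803),.c (nat_lit 0) (nat_lit 0x12529482),
    .c (nat_lit 1) (nat_lit 0x4200803),.c (nat_lit 0) (nat_lit 0x12529c82),
    .r (nat_lit 2) (nat_lit 6) [nat_lit 0x300861,nat_lit 0x200001],.c (nat_lit 0) (nat_lit 0xa328042),
    .c (nat_lit 0) (nat_lit 0x12538c82),.c (nat_lit 0) (nat_lit 0x6018043),.c (nat_lit 1) (nat_lit 0x218043),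
    .c (nat_lit 0) (nat_lit 0x12529482),.c (nat_lit 4) (nat_lit 0xc02),.c (nat_lit 0) (nat_lit 0xa328c83),
    .c (nat_lit 0) (nat_lit 0x6318043),.c (nat_lit 5) (nat_lit 0x300043),.c (nat_lit 0) (nat_lit 0x300803),
    .r (nat_lit 0x1b59) (nat_lit 5) [nat_lit 0xc0318801,nat_lit 0xc0018041,nat_lit 0x80210061],
    .c (nat_lit 0) (nat_lit 0x12539c82),.c (nat_lit 0) (nat_lit 0xa329442),
    .r (nat_lit 32) (nat_lit 8) [nat_lit 0xc0318801,nat_lit 0x80210061],.c (nat_lit 6) (nat_lit 0xc02),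
    .c (nat_lit 0) (nat_lit 0x803),.c (nat_lit 6) (nat_lit 0x10803),.c (nat_lit 3) (nat_lit 2),
    .c (nat_lit 0) (nat_lit 0x1a739cc2),.c (nat_lit 0) (nat_lit 0x2294a502),.c (nat_lit 0) (nat_lit 0x2ab5ad42),
    .c (nat_lit 0) (nat_lit 0x2295a502),.c (nat_lit 0) (nat_lit 0x1a739cc2),.c (nat_lit 0) (nat_lit 0x16529482),
    .c (nat_lit 0) (nat_lit 0x1a749cc2),.c (nat_lit 0) (nat_lit 0x1a739cc2),.c (nat_lit 0) (nat_lit 0x1a739cc2),
    .c (nat_lit 0) (nat_lit 0x1a759cc2),.c (nat_lit 1) (nat_lit 0x4418c43),.c (nat_lit 0) (nat_lit 0x12539482),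
    .c (nat_lit 0) (nat_lit 0x12529482),.c (nat_lit 0) (nat_lit 0xe318c42),.c (nat_lit 0) (nat_lit 0x6018002),
    .c (nat_lit 0) (nat_lit 0x12539482),.c (nat_lit 0) (nat_lit 0x12549482),.c (nat_lit 0) (nat_lit 0x12529482),
    .c (nat_lit 0) (nat_lit 0x1a749cc2),.c (nat_lit 0) (nat_lit 0x6018002),
    .r (nat_lit 10) (nat_lit 8) [nat_lit 0x200001,nat_lit 65],.c (nat_lit 0) (nat_lit 0xe318c42),
    .r (nat_lit 0x16b4) (nat_lit 0) [nat_lit 0x600001,nat_lit 0xc4519061,nat_lit 0x208441441,nat_lit 0x146328841],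
    .r (nat_lit 32) (nat_lit 8) [nat_lit 0xc0318801,nat_lit 0x84210c41],.c (nat_lit 0) (nat_lit 0xa328042),
    .r (nat_lit 0x1491) (nat_lit 9) [nat_lit 0x200001,nat_lit 0x84000001,nat_lit 0xc6018801,nat_lit 65],
    .c (nat_lit 0) (nat_lit 0x12539482),.c (nat_lit 0) (nat_lit 0xa328c42),.c (nat_lit 1) (nat_lit 0x429483),
    .r (nat_lit 0xbba) (nat_lit 3) [nat_lit 0x84000001,nat_lit 0xc4519061,nat_lit 0x86421441,nat_lit 0xc4329061,
    nat_lit 0x8a421441],.c (nat_lit 6) (nat_lit 0x4010003),.c (nat_lit 2) (nat_lit 0x8001003),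
    .r (nat_lit 0xbbb) (nat_lit 3) [nat_lit 0x84310c41,nat_lit 0x310001,nat_lit 0x218861,nat_lit 0x200001,
    nat_lit 0x6418861],.r (nat_lit 0x1969) (nat_lit 2) [nat_lit 0x84000001,nat_lit 0x4200c41,nat_lit 0xc6300801],
    .c (nat_lit 0) (nat_lit 0x6018002),.c (nat_lit 0) (nat_lit 0xa028002),.c (nat_lit 5) (nat_lit 0x4010003),
    .c (nat_lit 0) (nat_lit 0xa338842),.r (nat_lit 32) (nat_lit 8) [nat_lit 0xc0318801,nat_lit 65],
    .c (nat_lit 0) (nat_lit 0x18002),.c (nat_lit 0) (nat_lit 0x18002),.c (nat_lit 4) (nat_lit 2),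
    .c (nat_lit 0) (nat_lit 0x6318043),.c (nat_lit 0) (nat_lit 0x6300c43),.c (nat_lit 0) (nat_lit 0x6018043),
    .c (nat_lit 6) (nat_lit 0x6310c43),.c (nat_lit 1) (nat_lit 0x6000c43),
    .r (nat_lit 0x1a74) (nat_lit 3) [nat_lit 0x146318801,nat_lit 0x146218861,nat_lit 0x84000001,nat_lit 0x146310861,
    nat_lit 0x104210c41],.c (nat_lit 5) (nat_lit 2),.r (nat_lit 2) (nat_lit 6) [nat_lit 0x4300041,nat_lit 0x200001],
    .c (nat_lit 1) (nat_lit 0x218002),.c (nat_lit 0) (nat_lit 0x228802),.c (nat_lit 0) (nat_lit 0x6318843),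
    .c (nat_lit 6) (nat_lit 2),.c (nat_lit 0) (nat_lit 0x39802),.c (nat_lit 7) (nat_lit 2)]]

end Pool.Agent.Lib_MP_fa6e45
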