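import Pool.Agent.Lib_MP_fa6e45.DQ7k_0d
import Pool.Agent.Lib_MP_fa6e45.RD7k_19

/-!
MP_fa6e45_co, stage 9: straight-side patterns with `7` sides, part of a certificate (generated by a program).
-/

namespace Pool.Agent.Lib_MP_fa6e45

theorem cD7k_0_k19_0 : allI cD7k_0_c (rjL dJ cD7k_0_q rD7k_19_0) 6967 = true := by
  decide +kernel

theorem cD7k_0_k19_1 : allI cD7k_0_c (rjL dJ cD7k_0_q rD7k_19_1) 6968 = true := by
  decide +kernel

theorem cD7k_0_k19_2 : allI cD7k_0_c (rjL dJ cD7k_0_q rD7k_19_2) 6969 = true := by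
  decide +kernel

theorem cD7k_0_k19_3 : allI cD7k_0_c (rjL dJ cD7k_0_q rD7k_19_3) 6970 = true := by
  decide +kernel

theorem cD7k_0_k19_4 : allI cD7k_0_c (rjL dJ cD7k_0_q rD7k_19_4) 6972 = true := by
  decide +kernel

theorem cD7k_0_k19_5 : allI cD7k_0_c (rjL dJ cD7k_0_q rD7k_19_5) 6975 = true := by
  decide +kernel

theorem cD7k_0_k19_6 : allI cD7k_0_c (rjL dJ cD7k_0_q rD7k_19_6) 6977 = true := by
  decide +kernel

theorem cD7k_0_k19_7 : allI cD7k_0_c (rjL dJ cD7k_0_q rD7k_19_7) 6980 = true := by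
  decide +kernel

theorem cD7k_0_k19_8 : allI cD7k_0_c (rjL dJ cD7k_0_q rD7k_19_8) 6983 = true := by
  decide +kernel

theorem cD7k_0_k19_9 : allI cD7k_0_c (rjL dJ cD7k_0_q rD7k_19_9) 6985 = true := by
  decide +kernel

theorem cD7k_0_k19_10 : allI cD7k_0_c (rjL dJ cD7k_0_q rD7k_19_10) 6986 = true := by
  decide +kernel

theorem cD7k_0_k19_11 : allI cD7k_0_c (rjL dJ cD7k_0_q rD7k_19_11) 6988 = true := by
  decide +kernel

theorem cD7k_0_k19_12 : allI cD7k_0_c (rjL dJ cD7k_0_q rD7k_19_12) 6989 = true := by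
  decide +kernel

theorem cD7k_0_k19_13 : allI cD7k_0_c (rjL dJ cD7k_0_q rD7k_19_13) 6991 = true := by
  decide +kernel

theorem cD7k_0_k19_14 : allI cD7k_0_c (rjL dJ cD7k_0_q rD7k_19_14) 6992 = true := by
  decide +kernel

theorem cD7k_0_k19_15 : allI cD7k_0_c (rjL dJ cD7k_0_q rD7k_19_15) 6994 = true := by
  decide +kernel

theorem cD7k_0_k19_16 : allI cD7k_0_c (rjL dJ cD7k_0_q rD7k_19_16) 6995 = true := by
  decide +kernel

theorem cD7k_0_k19_17 : allI cD7k_0_c (rjL dJ cD7k_0_q rD7k_19_17) 6997 = true := by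
  decide +kernel

theorem cD7k_0_k19_18 : allI cD7k_0_c (rjL dJ cD7k_0_q rD7k_19_18) 7000 = true := by
  decide +kernel

theorem cD7k_0_k19_19 : allI cD7k_0_c (rjL dJ cD7k_0_q rD7k_19_19) 7002 = true := by
  decide +kernel

theorem cD7k_0_k19_20 : allI cD7k_0_c (rjL dJ cD7k_0_q rD7k_19_20) 7003 = true := by
  decide +kernel

/-- nodes -/
noncomputable def cD7k_0_n19 : List (QJ PN) :=
  rjL dJ cD7k_0_q rD7k_19_0 ++ (rjL dJ cD7k_0_q rD7k_19_1 ++ (rjL dJ cD7k_0_q rD7k_19_2 ++ (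
    rjL dJ cD7k_0_q rD7k_19_3 ++ (rjL dJ cD7k_0_q rD7k_19_4 ++ (rjL dJ cD7k_0_q rD7k_19_5 ++ (
    rjL dJ cD7k_0_q rD7k_19_6 ++ (rjL dJ cD7k_0_q rD7k_19_7 ++ (rjL dJ cD7k_0_q rD7k_19_8 ++ (
    rjL dJ cD7k_0_q rD7k_19_9 ++ (rjL dJ cD7k_0_q rD7k_19_10 ++ (rjL dJ cD7k_0_q rD7k_19_11 ++ (
    rjL dJ cD7k_0_q rD7k_19_12 ++ (rjL dJ cD7k_0_q rD7k_19_13 ++ (rjL dJ cD7k_0_q rD7k_19_14 ++ (
    rjL dJ cD7k_0_q rD7k_19_15 ++ (rjL dJ cD7k_0_q rD7k_19_16 ++ (rjL dJ cD7k_0_q rD7k_19_17 ++ (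
    rjL dJ cD7k_0_q rD7k_19_18 ++ (rjL dJ cD7k_0_q rD7k_19_19 ++
    rjL dJ cD7k_0_q rD7k_19_20)))))))))))))))))))

theorem cD7k_0_k19 : allI cD7k_0_c cD7k_0_n19 6967 = true := by
  refine allI_appQ (k := 1) cD7k_0_k19_0 (by decide +kernel) ?_
  refine allI_appQ (k := 1) cD7k_0_k19_1 (by decide +kernel) ?_
  refine allI_appQ (k := 1) cD7k_0_k19_2 (by decide +kernel) ?_
  refine allI_appQ (k := 2) cD7k_0_k19_3 (by decide +kernel) ?_
  refine allI_appQ (k := 3) cD7k_0_k19_4 (by decide +kernel) ?_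
  refine allI_appQ (k := 2) cD7k_0_k19_5 (by decide +kernel) ?_
  refine allI_appQ (k := 3) cD7k_0_k19_6 (by decide +kernel) ?_
  refine allI_appQ (k := 3) cD7k_0_k19_7 (by decide +kernel) ?_
  refine allI_appQ (k := 2) cD7k_0_k19_8 (by decide +kernel) ?_
  refine allI_appQ (k := 1) cD7k_0_k19_9 (by decide +kernel) ?_
  refine allI_appQ (k := 2) cD7k_0_k19_10 (by decide +kernel) ?_
  refine allI_appQ (k := 1) cD7k_0_k19_11 (by decide +kernel) ?_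
  refine allI_appQ (k := 2) cD7k_0_k19_12 (by decide +kernel) ?_
  refine allI_appQ (k := 1) cD7k_0_k19_13 (by decide +kernel) ?_
  refine allI_appQ (k := 2) cD7k_0_k19_14 (by decide +kernel) ?_
  refine allI_appQ (k := 1) cD7k_0_k19_15 (by decide +kernel) ?_
  refine allI_appQ (k := 2) cD7k_0_k19_16 (by decide +kernel) ?_
  refine allI_appQ (k := 3) cD7k_0_k19_17 (by decide +kernel) ?_
  refine allI_appQ (k := 2) cD7k_0_k19_18 (by decide +kernel) ?_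
  refine allI_appQ (k := 1) cD7k_0_k19_19 (by decide +kernel) ?_
  exact cD7k_0_k19_20

theorem cD7k_0_l19 : cD7k_0_n19.length = 37 := by
  decide +kernel

end Pool.Agent.Lib_MP_fa6e45
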