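import Pool.Agent.Lib_MP_fa6e45.RJ0

/-!
MP_fa6e45_co, stage 9: straight-side patterns with `7` sides, raw data (generated by a program).
-/

namespace Pool.Agent.Lib_MP_fa6e45

/-- nodes -/
noncomputable def rD7k_20_0 : List RJ :=
  [.l (nat_lit 15) (nat_lit 0x12c0) (nat_lit 3) (nat_lit 0x8b4000008b40000075a0000075a000007d6000007d600000807000008070000081c0000081a000008db000008db000009e200000860) (nat_lit 0x12e0000012e00000288000002880000020c0000020c000001db000001db000001c8000001c600000107000001070000018200000000)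
    (nat_lit 0xe341660320062c0e8c1aa036c86d90dd81c0835687ad0e642e3838d071a0c8018b03a306a80db2193c37607020d5a1eb43990b8e0c5818b0269053e0bb014e82b584e10b2416501bc86530c8821683200640084413482f6054e09fe12e42c905a80eaa179c2ec07ee0d501aa02a7053a0d2019e82f3855d0cf41a4031d86cf0c801b503a307460bd817602db06900be217ec32505fc0d9e1b3c32a03200c9e1b6425c84e10bf6157432006400c7e192c5db06c40bce201c36c86d909fe15ac2f885e70c80190031f864117f81c2833888070e041c082d405940bf81a40320864b0c94190838a87150d340c8037606ec0b241648325067a0c7e18fc31a064a0cfe1c4c34c068e0f5a1eb42f386530d9e1b3c38506c40e261c544b007f20eb225bc35686ad0eaa0de4367863b17f82ed833f8715159c258023f88db171c2e383f7085a06401b5040388070d1c0c8046d896f12c01ba039907320bb0191032a06400ce2179c34c069a08fe1d644660960)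
    (nat_lit 0xe344b0096012c025804b0096012c025804b0096012c025804b002cc071a25804b0096012c025804b0096012c025804b0096012c00c80190026912c025804b0096012c025804b0096012c025804b00316062c0a7c134896012c025804b0096012c025804b0096012c00e8c1d182ec05ec0d204b0096012c025804b0096012c025804b0035406a80a74153833d069025804b0096012c025804b0096012c00db21b642b584ff0bce17c432012c025804b0096012c025804b0036c864f09c212e42ae85fb0c80190096012c025804b0096012c00dd81bb02c905920cf4192831f863f0c944b0096012c025804b0038107020b2816a034805fc0c961904321064a25804b0096012c00d5a1ab41bc87550c761b3c41908780e2a19fc4b012c025804b003d687ad0ca6179c36786cf0d881c2838a87130fe4258096012c00e641cc832205d80c8019502f386710d341a603ac847f12c04b004e409c810b41fb836a0320100e201c190068e12de236c3740960)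
    (nat_lit 4) (nat_lit 47)
    [[nat_lit 2,nat_lit 258,nat_lit 17,nat_lit 273,nat_lit 0x10011,nat_lit 257,nat_lit 513,nat_lit 0x10101,
    nat_lit 0x1001,nat_lit 0x1101,nat_lit 0x11001,nat_lit 0x10001,nat_lit 0x20001,nat_lit 0x100001,nat_lit 0x100101,
    nat_lit 0x110001,nat_lit 0x1000101,nat_lit 0x1010001],[nat_lit 272,nat_lit 0x100110,nat_lit 0x10010,
    nat_lit 0x110010,nat_lit 0x100010,nat_lit 0x101010,nat_lit 0x200010,nat_lit 0x1100010,nat_lit 0x1000010],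
    [nat_lit 512,nat_lit 0x100200,nat_lit 0x1100,nat_lit 0x11100,nat_lit 0x101100,nat_lit 0x10100,nat_lit 0x110100,
    nat_lit 0x100100,nat_lit 0x200100,nat_lit 0x1000100],[nat_lit 0x2000,nat_lit 0x12000,nat_lit 0x102000,
    nat_lit 0x11000,nat_lit 0x21000,nat_lit 0x111000,nat_lit 0x101000,nat_lit 0x201000,nat_lit 0x1101000,
    nat_lit 0x1001000],[nat_lit 0x20000,nat_lit 0x120000,nat_lit 0x110000,nat_lit 0x210000,nat_lit 0x1010000],
    [nat_lit 0x200000,nat_lit 0x300000,nat_lit 0x1200000,nat_lit 0x1100000,nat_lit 0x2100000],[nat_lit 0x2000000]]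
    [.c (nat_lit 1) (nat_lit 2),.c (nat_lit 1) (nat_lit 0x3302),.r (nat_lit 4) (nat_lit 13) [nat_lit 0x222031,
    nat_lit 0x20001],.c (nat_lit 2) (nat_lit 0x3302),.r (nat_lit 0x10ae) (nat_lit 13) [nat_lit 0x22001,nat_lit 0x3001,
    nat_lit 0x330201,nat_lit 0x222031],.c (nat_lit 0) (nat_lit 0x2203),.c (nat_lit 3) (nat_lit 0x3302),
    .c (nat_lit 5) (nat_lit 0x3302),.r (nat_lit 0x174e) (nat_lit 4) [nat_lit 0x222031,nat_lit 33],
    .c (nat_lit 2) (nat_lit 0x22203),.r (nat_lit 0x1491) (nat_lit 10) [nat_lit 0x20001,nat_lit 0x200001,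
    nat_lit 0x333201,nat_lit 33],.c (nat_lit 0) (nat_lit 0x30223),.r (nat_lit 0x1a59) (nat_lit 6) [nat_lit 0x3001,
    nat_lit 0x22001,nat_lit 0x33021,nat_lit 0x200001],.c (nat_lit 0) (nat_lit 0x30223),
    .c (nat_lit 6) (nat_lit 0x3302),.c (nat_lit 1) (nat_lit 0x24232),.c (nat_lit 1) (nat_lit 0x4203),
    .c (nat_lit 0) (nat_lit 0x3002),.r (nat_lit 2) (nat_lit 4) [nat_lit 0x222031,nat_lit 33],
    .r (nat_lit 4) (nat_lit 11) [nat_lit 0x30231,nat_lit 0x20001],.r (nat_lit 0x1b32) (nat_lit 13) [nat_lit 0x22001,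
    nat_lit 0x222321,nat_lit 0x33231],.r (nat_lit 4) (nat_lit 13) [nat_lit 0x30231,nat_lit 0x20001],
    .r (nat_lit 0x174f) (nat_lit 5) [nat_lit 33,nat_lit 0x20001],.c (nat_lit 0) (nat_lit 0x30002),
    .r (nat_lit 0x1b25) (nat_lit 5) [nat_lit 0x300021,nat_lit 0x20001,nat_lit 0x200001],
    .r (nat_lit 10) (nat_lit 3) [nat_lit 0x20001,nat_lit 0x33231],.r (nat_lit 0x174e) (nat_lit 4) [nat_lit 0x2021,
    nat_lit 0x220031],.c (nat_lit 3) (nat_lit 2),.c (nat_lit 0) (nat_lit 0x33223),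
    .r (nat_lit 10) (nat_lit 1) [nat_lit 33,nat_lit 0x20001],.r (nat_lit 2) (nat_lit 5) [nat_lit 0x30231,
    nat_lit 0x20001],.r (nat_lit 0x1b5b) (nat_lit 13) [nat_lit 0x22001,nat_lit 0x20001,nat_lit 0x222031,
    nat_lit 0x33021],.c (nat_lit 0) (nat_lit 0x33023),.c (nat_lit 0) (nat_lit 0x33023),
    .c (nat_lit 0) (nat_lit 0x33023),.c (nat_lit 0) (nat_lit 0x55043),
    .r (nat_lit 0x16b8) (nat_lit 12) [nat_lit 0x400001,nat_lit 0x2021,nat_lit 0x553431,nat_lit 0x3021],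
    .c (nat_lit 4) (nat_lit 2),.r (nat_lit 0x16b9) (nat_lit 4) [nat_lit 0x5001,nat_lit 0x550401,nat_lit 0x220321,
    nat_lit 0x230231],.r (nat_lit 0xe41) (nat_lit 13) [nat_lit 0x44001,nat_lit 0x5001,nat_lit 0x550401,nat_lit 33],
    .r (nat_lit 10) (nat_lit 3) [nat_lit 0x20001,nat_lit 33],.r (nat_lit 0x16b7) (nat_lit 2) [nat_lit 0x484521,
    nat_lit 0x400001,nat_lit 0x550431,nat_lit 33],.r (nat_lit 0x174e) (nat_lit 4) [nat_lit 0x30231,nat_lit 0x242321],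
    .r (nat_lit 0x1ae5) (nat_lit 11) [nat_lit 0x20001,nat_lit 0x30231,nat_lit 0x303021],
    .r (nat_lit 0x16ba) (nat_lit 11) [nat_lit 0x5001,nat_lit 0x44001,nat_lit 0x400001,nat_lit 0x550431],
    .r (nat_lit 0x1b32) (nat_lit 13) [nat_lit 0x22001,nat_lit 0x200031,nat_lit 33],
    .r (nat_lit 4) (nat_lit 13) [nat_lit 0x2021,nat_lit 0x20001],.c (nat_lit 5) (nat_lit 2),
    .c (nat_lit 0) (nat_lit 0x55043),.c (nat_lit 0) (nat_lit 0x35323),.c (nat_lit 0) (nat_lit 0x55043),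
    .c (nat_lit 0) (nat_lit 0x33323),.c (nat_lit 6) (nat_lit 2),.r (nat_lit 0x16bb) (nat_lit 5) [nat_lit 0x777631,
    nat_lit 0x600001,nat_lit 0x6001,nat_lit 0x60001],.r (nat_lit 0x1150) (nat_lit 5) [nat_lit 0x555431,
    nat_lit 0x400001,nat_lit 0x4001,nat_lit 0x40001],.c (nat_lit 0) (nat_lit 0x33323),.c (nat_lit 0) (nat_lit 0x402),
    .c (nat_lit 7) (nat_lit 2)],
    .l (nat_lit 15) (nat_lit 0x13b0) (nat_lit 4) (nat_lit 0x8c9000008c9000007da000007aa000008050000080500000842000008420000085700000857000006ad000007b90000098400000984) (nat_lit 0xbb000000bb000001da000001aa0000017f0000017f00000142000001420000012d0000012d000001cb000002d70000000000000000)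
    (nat_lit 0x101c203837786ed0e941d2827f87870f381e7044b03f011922ad4395080e0c421c7c34d06520f0e1cac3ce079c0f6815b047d8ae70e3e1bb437c07140d6e1ca434c07480e661ab41f885030fb41c9031086ef0ba01be0339862b0cf8188031a86690a5e137c3d506060ca41d2831587290d9c1a1836b867b0d981b103ef0576100a22d434d074a0ce61adc32e06ce0d861b0c36c06520ff814b8402886d0e561e1c31007480d8619ec3c3072a0e2a1c54307856b10841a003c384ff0cf81a6036186d70e001e1838a87150aee15ac42106aa0f381e7033486ad0ca41b1038a87150e541ca8412058015be255c3ce079c0c6a1ccc36c06cc0e2a1c5436b072a1048160052c88d10ad80fc026f85030a5c15d82b5856b0b001600234042a0d5a14543da08960a5e0fc43fe07de0aee183c41208240bdc11a02e687b915ce2ad4303072410da22d4355068011a2255c3dc85150fd8261047d88c90f541f6840288051084210852c8adf0b9a1ab44c207ec)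
    (nat_lit 0x101c4ec09d813b027604ec09d813b027604ec09d813b027604ec0407080e27604ec09d813b027604ec09d813b027604ec09d813b00dde188437c13b027604ec09d813b027604ec09d813b027604ec0376871f0e281be09d813b027604ec09d813b027604ec09d813b00e941a6835b86730d9c4ec09d813b027604ec09d813b027604ec03a506520e5218ac34306ce27604ec09d813b027604ec09d813b009fe1e1c34c067c0dae1b0c3c313b027604ec09d813b027604ec03c3872b0e90188033d86c30e541e189d813b027604ec09d813b00f381e7039986350d981b6038a87150e544ec09d813b027604ec03ce079c0d5a19a436206520e2a1c54395072a27604ec09d813b0112c1ed01f8852f0fbc1ff030785771048209023413b027604ec01f8056c0a06137c2bb052e0ad615ac2c00580085411a09d813b0119223ec3ed07aa100a2014421084215be296435685cd0fd84ec055a8ae70e48181845a886d0d001aa84ab88d10a2a1ee44c207ec)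
    (nat_lit 4) (nat_lit 79)
    [[nat_lit 2,nat_lit 18,nat_lit 17,nat_lit 33,nat_lit 0x1011,nat_lit 0x100011,nat_lit 0x1001,nat_lit 0x10001,
    nat_lit 0x100001],[nat_lit 32,nat_lit 48,nat_lit 64,nat_lit 0x100030,nat_lit 288,nat_lit 0x1020,nat_lit 0x10020,
    nat_lit 0x100020,nat_lit 0x200020,nat_lit 0x1100020,nat_lit 0x1000020,nat_lit 272,nat_lit 0x100110,nat_lit 0x1010,
    nat_lit 0x1110,nat_lit 0x2010,nat_lit 0x11010,nat_lit 0x101010,nat_lit 0x1001010,nat_lit 0x10010,nat_lit 0x110010,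
    nat_lit 0x1010010,nat_lit 0x100010,nat_lit 0x200010,nat_lit 0x1100010,nat_lit 0x1000010],[nat_lit 512,
    nat_lit 0x1100,nat_lit 0x10100,nat_lit 0x100100,nat_lit 0x1000100],[nat_lit 0x2000,nat_lit 0x11000,
    nat_lit 0x21000,nat_lit 0x111000,nat_lit 0x101000,nat_lit 0x1001000,nat_lit 0x1011000,nat_lit 0x1101000],
    [nat_lit 0x20000,nat_lit 0x110000,nat_lit 0x1010000],[nat_lit 0x200000,nat_lit 0x1100000],[nat_lit 0x2000000]]
    [.c (nat_lit 1) (nat_lit 2),.c (nat_lit 0) (nat_lit 0x25002),.r (nat_lit 4) (nat_lit 2) [nat_lit 0x303231,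
    nat_lit 33],.r (nat_lit 0x1902) (nat_lit 0) [nat_lit 0x2001,nat_lit 0x200001,nat_lit 0x30021,nat_lit 0x20001],
    .r (nat_lit 0x1b28) (nat_lit 1) [nat_lit 0x204001,nat_lit 0x305451,nat_lit 0x244541],
    .c (nat_lit 5) (nat_lit 0x30323),.r (nat_lit 0x1b0b) (nat_lit 7) [nat_lit 0x250041,nat_lit 0x226031,
    nat_lit 0x220031,nat_lit 0x340021],.r (nat_lit 32) (nat_lit 4) [nat_lit 0x303231,nat_lit 33],
    .r (nat_lit 0x1a29) (nat_lit 10) [nat_lit 0x22031,nat_lit 0x303231,nat_lit 33],.c (nat_lit 2) (nat_lit 2),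
    .r (nat_lit 0x10b6) (nat_lit 1) [nat_lit 0x7ddc51,nat_lit 0x60c001,nat_lit 65,nat_lit 0x7c0001],
    .r (nat_lit 0x10b7) (nat_lit 1) [nat_lit 0x599832,nat_lit 0x204001,nat_lit 34,nat_lit 0x340001],
    .r (nat_lit 0x10b8) (nat_lit 9) [nat_lit 0x60c001,nat_lit 0x7ddc51,nat_lit 0x600001,nat_lit 0x7c0001],
    .r (nat_lit 0x10b9) (nat_lit 1) [nat_lit 0x395851,nat_lit 0x408001,nat_lit 0x305041,nat_lit 0x580001],
    .r (nat_lit 4) (nat_lit 2) [nat_lit 0x355432,nat_lit 0x340022],.r (nat_lit 0x10ba) (nat_lit 13) [nat_lit 0x340001,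
    nat_lit 0x200001,nat_lit 0x355431,nat_lit 0x204001],.r (nat_lit 0x10bb) (nat_lit 9) [nat_lit 0x204001,
    nat_lit 0x355431,nat_lit 0x200001,nat_lit 0x340001],.r (nat_lit 32) (nat_lit 4) [nat_lit 34,nat_lit 0x505432],
    .r (nat_lit 0x10bc) (nat_lit 6) [nat_lit 0x408001,nat_lit 0x300041,nat_lit 0x580001,nat_lit 0x400001],
    .r (nat_lit 0x10b9) (nat_lit 1) [nat_lit 0x399851,nat_lit 0x408001,nat_lit 0x300041,nat_lit 0x580001],
    .r (nat_lit 0x1a9a) (nat_lit 8) [nat_lit 33,nat_lit 0x204051,nat_lit 0x3021],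
    .r (nat_lit 4) (nat_lit 11) [nat_lit 0x30231,nat_lit 0x20001],.r (nat_lit 0x10bd) (nat_lit 5) [nat_lit 65,
    nat_lit 0x204031,nat_lit 0x340021,nat_lit 0x200031],.r (nat_lit 4) (nat_lit 2) [nat_lit 0x30231,nat_lit 0x323021],
    .r (nat_lit 0x1a94) (nat_lit 7) [nat_lit 0x234231,nat_lit 0x382321,nat_lit 0x233231,nat_lit 0x244541],
    .r (nat_lit 0x1b51) (nat_lit 1) [nat_lit 0x33231,nat_lit 0x42321,nat_lit 0x30231],
    .r (nat_lit 0x174d) (nat_lit 1) [nat_lit 0x30231,nat_lit 0x20001],.r (nat_lit 4) (nat_lit 2) [nat_lit 0x33231,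
    nat_lit 0x320021],.c (nat_lit 0) (nat_lit 0x35545),.c (nat_lit 1) (nat_lit 0x30323),
    .r (nat_lit 0x184e) (nat_lit 1) [nat_lit 0x33231,nat_lit 0x222321,nat_lit 0x226321,nat_lit 0x323231],
    .c (nat_lit 0) (nat_lit 0x35545),.r (nat_lit 0x10be) (nat_lit 0) [nat_lit 33,nat_lit 0x200001,nat_lit 0x340001,
    nat_lit 0x204001],.r (nat_lit 4) (nat_lit 11) [nat_lit 0x33231,nat_lit 0x20001],
    .r (nat_lit 0x1a9a) (nat_lit 8) [nat_lit 0x2021,nat_lit 0x200051,nat_lit 33],.c (nat_lit 3) (nat_lit 2),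
    .c (nat_lit 0) (nat_lit 0x20403),.r (nat_lit 0x1750) (nat_lit 1) [nat_lit 0x20001,nat_lit 33],
    .r (nat_lit 0x1385) (nat_lit 5) [nat_lit 0x50451,nat_lit 0x224321,nat_lit 0x320231,nat_lit 0x220321],
    .c (nat_lit 1) (nat_lit 0x4203),.c (nat_lit 4) (nat_lit 2),.r (nat_lit 10) (nat_lit 3) [nat_lit 0x20001,
    nat_lit 33],.r (nat_lit 32) (nat_lit 4) [nat_lit 0x355432,nat_lit 0x340022],
    .r (nat_lit 0x10bf) (nat_lit 1) [nat_lit 0x22001,nat_lit 0x20001,nat_lit 33,nat_lit 0x355431],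
    .r (nat_lit 0x1b52) (nat_lit 1) [nat_lit 0x200031,nat_lit 0x340021,nat_lit 0x204031,nat_lit 33],
    .c (nat_lit 0) (nat_lit 0x20005),.r (nat_lit 32) (nat_lit 4) [nat_lit 0x33231,nat_lit 0x320021],
    .r (nat_lit 0x1a29) (nat_lit 10) [nat_lit 0x202031,nat_lit 0x33231,nat_lit 0x320021],.c (nat_lit 5) (nat_lit 2),
    .c (nat_lit 0) (nat_lit 0x35545),.r (nat_lit 0x1750) (nat_lit 1) [nat_lit 0x20001,nat_lit 0x2021],
    .c (nat_lit 6) (nat_lit 2),.r (nat_lit 0x1385) (nat_lit 5) [nat_lit 0x55451,nat_lit 0x226321,nat_lit 0x323231,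
    nat_lit 0x222321],.c (nat_lit 7) (nat_lit 2)]]

/-- nodes -/
noncomputable def rD7k_20_1 : List RJ :=
  [.l (nat_lit 15) (nat_lit 0x12c0) (nat_lit 3) (nat_lit 0x84500000845000007f2000007f2000007bd000007bd000007480000077800000698000006c80000077400000774000006e600000880) (nat_lit 0x3b0000003b0000008e0000008e000000c3000000c30000010800000138000001b8000001e80000010c0000010c000000000000019a)
    (nat_lit 0x10141cf039c87b7143427c83b2866710021f4433f86fd108a1aac405080a0f6e1edc46708a60eca1c3430786850d261bf442286ab0f6e1edc32007640e5e1cbc361056e0cec178837307640fe41bf83db87390ec81900397872f0e241b8834f060a0dcc1aa82c10658114c27c8397872f0da41be835a86850c8216b4358864d1076188c4670a1a0e5e1cbc37d06d20d6a1a1432085d50d621ac4431860f0e1a199c371056e0d0a1a1432006100b2015803280600096016b83b287650e241b0835a86b50ce0190025805900d5019b030204b00d0a1f4430505e20baa16b42c8056009c012c035d069c0ce0130830788010d3c19d832086410960164025804e00a7c16f038204b00dfa1bf435507640d62193433606000b781a7037306c80c001960349867f0dcc1b9835886b10d50194029f06ba0cd01b983ba05da0d561aac32c06fe0c1e188c25805ae096013082ed06580f40153042288450b041fc8431883b0c0812c038206700ee818004a707a0)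
    (nat_lit 0x10144b0096012c025804b0096012c025804b0096012c025804b0039e080a25804b0096012c025804b0096012c025804b0096012c00e721edc32012c025804b0096012c025804b0096012c025804b003db87b70ec8190096012c025804b0096012c025804b0096012c014342338397872f0da44b0096012c025804b0096012c025804b004f908a60e5e1cbc37d06d225804b0096012c025804b0096012c00eca1d9436107120d6a1ad432012c025804b0096012c025804b00333870d0adc1b8834286850c20190096012c025804b0096012c01002183c33b069e0c8219042c804b009c04b0096012c025804b003e886850bc418282d685d50ac0164025804e025804b0096012c00cfe1a4c37306e60d621ac432806a80d7414f837312c025804b0037e86fd0ec81aa832686b10c0019b034e05bc0d901b9896012c0108a21143f905821076218c25806040ce01c1030007740f404b0035586ab0dfc1960311860f0b5c12c026104b00cb017682a607a0)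
    (nat_lit 4) (nat_lit 37)
    [[nat_lit 2,nat_lit 0x1002,nat_lit 17,nat_lit 273,nat_lit 0x1011,nat_lit 257,nat_lit 513,nat_lit 0x1101,
    nat_lit 0x1001,nat_lit 0x2001,nat_lit 0x11001,nat_lit 0x101001,nat_lit 0x10001,nat_lit 0x100001,nat_lit 0x100101,
    nat_lit 0x1000001],[nat_lit 32,nat_lit 272,nat_lit 528,nat_lit 0x1110,nat_lit 0x10110,nat_lit 0x100110,
    nat_lit 0x1010,nat_lit 0x10010,nat_lit 0x100010,nat_lit 0x1000010],[nat_lit 512,nat_lit 768,nat_lit 0x1200,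
    nat_lit 0x10200,nat_lit 0x100200,nat_lit 0x1100,nat_lit 0x2100,nat_lit 0x11100,nat_lit 0x101100,nat_lit 0x1001100,
    nat_lit 0x10100,nat_lit 0x100100,nat_lit 0x1000100],[nat_lit 0x2000,nat_lit 0x11000,nat_lit 0x101000,
    nat_lit 0x1001000],[nat_lit 0x20000,nat_lit 0x110000],[nat_lit 0x200000,nat_lit 0x1100000],[nat_lit 0x2000000]]
    [.c (nat_lit 1) (nat_lit 2),.r (nat_lit 0x14ec) (nat_lit 4) [nat_lit 0x4025051,nat_lit 0x5834041,nat_lit 0x40001,
    nat_lit 0x930851],.c (nat_lit 4) (nat_lit 0x46254),.c (nat_lit 4) (nat_lit 0x22032),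
    .r (nat_lit 32) (nat_lit 6) [nat_lit 0x300231,nat_lit 0x3430042],.c (nat_lit 0) (nat_lit 0x29528d),
    .c (nat_lit 0) (nat_lit 0x53245),.c (nat_lit 1) (nat_lit 0x3304),.c (nat_lit 0) (nat_lit 0x252005),
    .r (nat_lit 0x1b5d) (nat_lit 6) [nat_lit 0x2020052,nat_lit 0x3430042,nat_lit 33],
    .c (nat_lit 5) (nat_lit 0x343004),.r (nat_lit 4) (nat_lit 7) [nat_lit 0x300231,nat_lit 0x3430042],
    .r (nat_lit 0x14ec) (nat_lit 4) [nat_lit 0x2405051,nat_lit 0x3404041,nat_lit 0x40001,nat_lit 0x3550851],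
    .c (nat_lit 0) (nat_lit 0x53345),.r (nat_lit 0xfa1) (nat_lit 13) [nat_lit 0x2500021,nat_lit 0x600001,
    nat_lit 0x3400041,nat_lit 0x2560052],.c (nat_lit 3) (nat_lit 0x300204),.c (nat_lit 2) (nat_lit 2),
    .c (nat_lit 0) (nat_lit 0x53245),.c (nat_lit 0) (nat_lit 0x53245),.c (nat_lit 2) (nat_lit 0x3304),
    .c (nat_lit 6) (nat_lit 0x303045),.c (nat_lit 5) (nat_lit 0x303045),
    .r (nat_lit 0x1ae3) (nat_lit 12) [nat_lit 0x200001,nat_lit 33,nat_lit 0x2520052],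
    .r (nat_lit 32) (nat_lit 6) [nat_lit 0x3030452,nat_lit 33],.c (nat_lit 0) (nat_lit 0x53345),
    .r (nat_lit 0x1aa7) (nat_lit 6) [nat_lit 0x200031,nat_lit 0x22002,nat_lit 33],.c (nat_lit 3) (nat_lit 2),
    .r (nat_lit 32) (nat_lit 10) [nat_lit 0x3034452,nat_lit 0x3021],.c (nat_lit 3) (nat_lit 0x3304),
    .r (nat_lit 4) (nat_lit 7) [nat_lit 0x3034452,nat_lit 0x3021],.c (nat_lit 6) (nat_lit 770),
    .c (nat_lit 0) (nat_lit 0x2205),.c (nat_lit 4) (nat_lit 0x3304),.c (nat_lit 5) (nat_lit 0x3304),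
    .c (nat_lit 6) (nat_lit 0x3304),.c (nat_lit 5) (nat_lit 0x42205),.c (nat_lit 1) (nat_lit 0x250304),
    .r (nat_lit 32) (nat_lit 10) [nat_lit 0x3030452,nat_lit 33],.r (nat_lit 0x189c) (nat_lit 6) [nat_lit 0x200031,
    nat_lit 0x20001,nat_lit 33,nat_lit 0x2020052],.c (nat_lit 4) (nat_lit 2),
    .r (nat_lit 0x1b5d) (nat_lit 6) [nat_lit 0x200031,nat_lit 33,nat_lit 0x2520042],.c (nat_lit 3) (nat_lit 0x3204),
    .c (nat_lit 0) (nat_lit 0x202005),.c (nat_lit 5) (nat_lit 2),.r (nat_lit 4) (nat_lit 7) [nat_lit 0x3030452,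
    nat_lit 33],.c (nat_lit 6) (nat_lit 2),.r (nat_lit 4) (nat_lit 0) [nat_lit 0x22002,nat_lit 33],
    .c (nat_lit 7) (nat_lit 2)]]

/-- nodes -/
noncomputable def rD7k_20_2 : List RJ :=
  [.l (nat_lit 12) (nat_lit 960) (nat_lit 4) (nat_lit 0x20300000203000001b6000001de000001c20000020c000001e8000002040000022e0000022e00000224000002a8000001e600000194) (nat_lit 0xa5000000a5000000ca000000f20000009c000000e6000000a4000000c00000007a0000007a000000000000008400000114000000c2)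
    (nat_lit 0x14011e1271111671271891711571892151890ef14116214012711118911910f1931191892371ab0ef0d11111110f00c00ca0e21120d411018c2261a20c00c01271271240f01420f813a0c01641c021e19a0c011c1191270f80e21840cc0c21021081481c213e0c00c01891671420ca17018416a14c1921862340c00ca14a1931710c00d414c10215012823616c1e81640d40fe10f18913a11216a0c216c15025418a0c01540f01421891891c018c18614818a16c1e01a822e0e00f02b01191571641101921082542362181e02241aa1102d01ab18919a1a20c013e1541641aa0e00c013c14216c23721521e2262341c20c01e822422e20c0c01941e60d114111c0c014a0c01420fe2d02b01e616c0c01c00ef0ef0c00c00ca0c00f00d41100f01941420c00c0)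
    (nat_lit 0x1403c03c03c03c03c03c03c03c03c03c03c03c03c011e1403c03c03c03c03c03c03c03c03c03c03c03c01271270f03c03c03c03c03c03c03c03c03c03c03c01111110c00f03c03c03c03c03c03c03c03c03c03c01671890ca1421843c03c03c03c03c03c03c03c03c01271190e20f80cc1843c03c03c03c03c03c03c03c018910f11213a0c216a1503c03c03c03c03c03c03c01711930d40c010214c1281503c03c03c03c03c03c01571191101641081921d024a1e03c03c03c03c03c018918918c1c014818616c18a1a81e03c03c03c03c02152371941801c220c1e80c022c2240c03c03c03c01891ab1a219a13e0c01641540e01aa13c0c03c03c00ef0ef0c00c00c00ca0d40f00f01101421940c03c01410d10c011c0c014a0fe14224622416c1be1c00c0)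
    (nat_lit 5) (nat_lit 226)
    [[nat_lit 2,nat_lit 3,nat_lit 4,nat_lit 0x1003,nat_lit 0x10003,nat_lit 0x100003,nat_lit 0x1000003,nat_lit 0x1002,
    nat_lit 0x11002,nat_lit 0x101002,nat_lit 0x10002,nat_lit 0x20002,nat_lit 0x110002,nat_lit 0x1010002,
    nat_lit 0x100002,nat_lit 0x200002,nat_lit 0x1100002,nat_lit 0x1000002,nat_lit 0x1001002,nat_lit 0x2000002,
    nat_lit 17,nat_lit 0x1011,nat_lit 0x101011,nat_lit 0x10011,nat_lit 0x10101,nat_lit 0x100101,nat_lit 0x1000101,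
    nat_lit 0x1111,nat_lit 0x1101,nat_lit 0x1001,nat_lit 0x11011,nat_lit 0x2001,nat_lit 0x11001,nat_lit 0x111001,
    nat_lit 0x101001,nat_lit 0x201001,nat_lit 0x1001001,nat_lit 0x1101001,nat_lit 0x10001,nat_lit 0x20001,
    nat_lit 0x110001,nat_lit 0x120001,nat_lit 0x210001,nat_lit 0x1110001,nat_lit 0x1010001,nat_lit 0x21001,
    nat_lit 0x100001,nat_lit 0x200001,nat_lit 0x300001,nat_lit 0x1200001,nat_lit 0x1100001,nat_lit 0x1000001,
    nat_lit 0x2000001],[nat_lit 32,nat_lit 48,nat_lit 64,nat_lit 0x1030,nat_lit 0x1020,nat_lit 0x11020,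
    nat_lit 0x10020,nat_lit 272,nat_lit 0x1010,nat_lit 0x11010,nat_lit 0x2010,nat_lit 0x12010,nat_lit 0x21010,
    nat_lit 0x101010,nat_lit 0x102010,nat_lit 0x111010,nat_lit 0x101110,nat_lit 0x10010],[nat_lit 0x10100,
    nat_lit 0x110100,nat_lit 0x100100,nat_lit 0x101100,nat_lit 0x1000100],[nat_lit 0x2000,nat_lit 0x12000,
    nat_lit 0x112000,nat_lit 0x102000,nat_lit 0x202000,nat_lit 0x11000,nat_lit 0x21000,nat_lit 0x111000,
    nat_lit 0x211000,nat_lit 0x1011000,nat_lit 0x101000,nat_lit 0x201000,nat_lit 0x301000,nat_lit 0x1101000,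
    nat_lit 0x1001000,nat_lit 0x1201000],[nat_lit 0x20000,nat_lit 0x120000,nat_lit 0x1020000,nat_lit 0x110000,
    nat_lit 0x220000,nat_lit 0x210000,nat_lit 0x310000,nat_lit 0x1110000,nat_lit 0x1010000],[nat_lit 0x200000,
    nat_lit 0x300000,nat_lit 0x1200000,nat_lit 0x1100000,nat_lit 0x2100000],[nat_lit 0x2000000]]
    [.c (nat_lit 1) (nat_lit 2),.r (nat_lit 0x1a4b) (nat_lit 7) [nat_lit 0xc700041,nat_lit 0x180600061,
    nat_lit 0x10001],.r (nat_lit 32) (nat_lit 9) [nat_lit 0x8500042,nat_lit 0x14a401062],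
    .r (nat_lit 32) (nat_lit 9) [nat_lit 0x4300042,nat_lit 0x146201062],
    .r (nat_lit 4) (nat_lit 9) [nat_lit 0x84310c41,nat_lit 0x84000001],
    .r (nat_lit 0x1b11) (nat_lit 0) [nat_lit 0x4300001,nat_lit 0x80200001,nat_lit 0xc6218861],
    .r (nat_lit 0x451) (nat_lit 12) [nat_lit 0xe610061,nat_lit 0x84000001,nat_lit 0xd0918841,nat_lit 0x12600061,
    nat_lit 0xc700041],.r (nat_lit 0x1a4b) (nat_lit 7) [nat_lit 0x8500041,nat_lit 0x184400061,nat_lit 0x10001],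
    .r (nat_lit 4) (nat_lit 9) [nat_lit 0x80010c41,nat_lit 0x84000001],
    .r (nat_lit 0x1b11) (nat_lit 0) [nat_lit 0x4300001,nat_lit 0x80200001,nat_lit 0xc0018861],
    .c (nat_lit 2) (nat_lit 0x6310043),.c (nat_lit 0) (nat_lit 0xa501483),.c (nat_lit 1) (nat_lit 0x4200862),
    .r (nat_lit 0x452) (nat_lit 11) [nat_lit 0x84310c41,nat_lit 0xa400001,nat_lit 0xc6210861,nat_lit 0x108000001,
    nat_lit 0xcc718841],.c (nat_lit 0) (nat_lit 0xa501483),.c (nat_lit 0) (nat_lit 0xa501483),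
    .r (nat_lit 0x1a4b) (nat_lit 7) [nat_lit 0xc500041,nat_lit 0x180400061,nat_lit 0x10001],
    .r (nat_lit 0x1b5d) (nat_lit 10) [nat_lit 0x6200001,nat_lit 0x84000001,nat_lit 0x8500041],
    .r (nat_lit 0x451) (nat_lit 12) [nat_lit 0xa410061,nat_lit 0x84000001,nat_lit 0xcc718841,nat_lit 0xe400061,
    nat_lit 0x8500041],.r (nat_lit 4) (nat_lit 9) [nat_lit 66,nat_lit 0x84000001],.c (nat_lit 0) (nat_lit 0x18c02),
    .c (nat_lit 5) (nat_lit 0x6000043),.c (nat_lit 0) (nat_lit 0x318c02),.c (nat_lit 1) (nat_lit 0x6310043),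
    .c (nat_lit 0) (nat_lit 0x6018002),.c (nat_lit 0) (nat_lit 0x6018002),.c (nat_lit 0) (nat_lit 0x6018c02),
    .c (nat_lit 0) (nat_lit 0x6300c02),.c (nat_lit 0) (nat_lit 0x6300002),.c (nat_lit 1) (nat_lit 0x310002),
    .c (nat_lit 0) (nat_lit 0x4000062),.r (nat_lit 0x1a4b) (nat_lit 7) [nat_lit 0x4300041,nat_lit 0x188200061,
    nat_lit 0x10001],.c (nat_lit 2) (nat_lit 0x6000043),.c (nat_lit 1) (nat_lit 0x4010862),
    .c (nat_lit 0) (nat_lit 0xa319483),.c (nat_lit 0) (nat_lit 0xa319483),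
    .r (nat_lit 0x1b5d) (nat_lit 10) [nat_lit 0x6200001,nat_lit 0x84000001,nat_lit 0x4300041],
    .r (nat_lit 0x1a4b) (nat_lit 7) [nat_lit 0x8300041,nat_lit 0x184200061,nat_lit 0x10001],
    .c (nat_lit 0) (nat_lit 0x6300c43),.c (nat_lit 0) (nat_lit 0xa519483),.c (nat_lit 0) (nat_lit 0x6300c43),
    .c (nat_lit 5) (nat_lit 0x4200862),.c (nat_lit 6) (nat_lit 0x4200862),.c (nat_lit 2) (nat_lit 0x6300043),
    .c (nat_lit 0) (nat_lit 0xa519483),.c (nat_lit 0) (nat_lit 0xa319483),.c (nat_lit 0) (nat_lit 0x6300c43),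
    .c (nat_lit 0) (nat_lit 0xe719cc5),.c (nat_lit 0) (nat_lit 0xa519483),.c (nat_lit 0) (nat_lit 0xa519483),
    .c (nat_lit 1) (nat_lit 0x10002),.c (nat_lit 0) (nat_lit 0xa519483),
    .r (nat_lit 0x1aa1) (nat_lit 1) [nat_lit 0x80200001,nat_lit 0xc0318801,nat_lit 0x84010c41],
    .c (nat_lit 2) (nat_lit 2),.c (nat_lit 0) (nat_lit 0xe73b4c2),.c (nat_lit 0) (nat_lit 0x1294c502),
    .c (nat_lit 0) (nat_lit 0x301c02),.c (nat_lit 0) (nat_lit 0x301402),.c (nat_lit 0) (nat_lit 0x6519c42),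
    .c (nat_lit 0) (nat_lit 0xa52a482),.c (nat_lit 0) (nat_lit 0xe529c82),.c (nat_lit 0) (nat_lit 0x300c02),
    .c (nat_lit 1) (nat_lit 0x6000043),.c (nat_lit 5) (nat_lit 0x6218043),.c (nat_lit 0) (nat_lit 0x4310062),
    .c (nat_lit 0) (nat_lit 0x300c02),.c (nat_lit 0) (nat_lit 0x300c02),.c (nat_lit 0) (nat_lit 0x500c02),
    .c (nat_lit 2) (nat_lit 0x4010862),.c (nat_lit 0) (nat_lit 0x6300c02),
    .r (nat_lit 32) (nat_lit 9) [nat_lit 0xc0000861,nat_lit 65],.r (nat_lit 0x1ae3) (nat_lit 5) [nat_lit 0x10001,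
    nat_lit 65,nat_lit 0x80018061],.r (nat_lit 32) (nat_lit 9) [nat_lit 0x18861,nat_lit 0xc0010041],
    .c (nat_lit 0) (nat_lit 0x4000c03),.c (nat_lit 0) (nat_lit 0x6300002),.c (nat_lit 0) (nat_lit 0x4000003),
    .c (nat_lit 4) (nat_lit 2),.c (nat_lit 2) (nat_lit 0x6218043),.c (nat_lit 1) (nat_lit 0x4320862),
    .c (nat_lit 0) (nat_lit 0xa029483),.c (nat_lit 0) (nat_lit 0xa029483),.c (nat_lit 0) (nat_lit 0x6018c43),
    .c (nat_lit 0) (nat_lit 0xa329483),.c (nat_lit 0) (nat_lit 0x6018c43),.c (nat_lit 6) (nat_lit 0x4010862),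
    .c (nat_lit 0) (nat_lit 0xa329483),.c (nat_lit 0) (nat_lit 0x6018c43),.c (nat_lit 0) (nat_lit 0xe339cc5),
    .c (nat_lit 0) (nat_lit 0xa329483),.c (nat_lit 1) (nat_lit 0x320002),.c (nat_lit 0) (nat_lit 0xa329483),
    .c (nat_lit 0) (nat_lit 0xa329483),.c (nat_lit 5) (nat_lit 2),.c (nat_lit 0) (nat_lit 0xa529483),
    .c (nat_lit 0) (nat_lit 0xa529483),.c (nat_lit 0) (nat_lit 0x6318c45),.c (nat_lit 0) (nat_lit 0xa501483),
    .c (nat_lit 0) (nat_lit 0x6319443),.c (nat_lit 0) (nat_lit 0xe739cc5),.c (nat_lit 0) (nat_lit 0x6318c43),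
    .c (nat_lit 0) (nat_lit 0x6318c43),.c (nat_lit 6) (nat_lit 2),.c (nat_lit 0) (nat_lit 0xe739cc5),
    .c (nat_lit 0) (nat_lit 0x6318c43),.c (nat_lit 0) (nat_lit 0x18003),.c (nat_lit 0) (nat_lit 0xa529483),
    .c (nat_lit 7) (nat_lit 2)]]

/-- nodes -/
noncomputable def rD7k_20_3 : List RJ :=
  [.l (nat_lit 16) (nat_lit 0x2760) (nat_lit 4) (nat_lit 0x11050000108900000f4300000f0300000d1100000d110000100a0000100a00000f3800000f3800000f7700000f770000110600001106) (nat_lit 0x7d0000000100000203000001c3000003f5000003f5000000fc000000fc000001ce000001ce0000018f0000018f0000000000000000)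
    (nat_lit 0x108812000f2c0bc60e8a0c680a9510090de70f37131207e01105135b0c7010880c8e0ec60a9c0ac60f8d0d95103512370efa0efa1405165d0ec60bc60f0e111c0d460d460acb103f0d750d7507e00c3a0f430f430c8e0f2c0cd60f0e0b380b0e0e070e070e850d350d740d740fab0eb90ac60c680b0e0d46091c09460c150beb0b430b430bcc0a320ce70d110a9c0e8a0b380d46091c091c0c3f0c1509e90b190ba20a5c0d110d110d9510090e07103f0c150beb0f380f0e0f620e120e7b0fd50e900fea0f8d0a950e070acb0c3f0c150f620f380c3a0e3c0d210e7b100a0e6612370f370d350d750b190b430e3c0e120d6a0d160f4d0fab14ac109210350de70e850d7509e90b430c3a0f620d6a0d6a0d4b0da916ce12b40efa07e00d740c3a0a5c0a320e7b0fd50da90fab0a6c0de810c70fd50efa13120d7407e00ba20bcc0d210e7b0d4b0f4d0de80a6c0d210f77165d135b0eb90f430d110d110e660fea12b410920f770fd50d6a1106140511050fab0f430d110ce7100a0e9016ce14ac0d2110c7100a0d6a)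
    (nat_lit 0x10882760276027602760276027602760276027602760276027602760120010882760276027602760276027602760276027602760276027600f2c0c8e0f0e276027602760276027602760276027602760276027600bc60ec6111c0f0e27602760276027602760276027602760276027600e8a0a9c0d460b38091c2760276027602760276027602760276027600c680ac60d460b0e0946091c276027602760276027602760276027600a950f8d0acb0e070c150c3f0f38276027602760276027602760276010090d95103f0e070beb0c150f0e0f382760276027602760276027600de710350d750e850b4309e90f620c3a0d6a276027602760276027600f3712370d750d350b430b190e120e3c0d160d6a276027602760276013120efa07e00d740bcc0ba20e7b0d210f4d0d4b0a6c27602760276007e00efa0c3a0d740a320a5c0fd50e7b0fab0da90de80a6c27602760110514050f430fab0ce70d110e90100a14ac16ce10c70d210d6a2760135b165d0f430eb90d110d110fea0e66109212b40fd50f7711060d6a)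
    (nat_lit 4) (nat_lit 49)
    [[nat_lit 2,nat_lit 17,nat_lit 0x10011,nat_lit 0x1001,nat_lit 0x10001,nat_lit 0x20001,nat_lit 0x100001],
    [nat_lit 32,nat_lit 48,nat_lit 0x10020,nat_lit 0x100020,nat_lit 0x1100020,nat_lit 0x1000020,nat_lit 272,
    nat_lit 0x10110,nat_lit 0x100110,nat_lit 0x1010,nat_lit 0x11010,nat_lit 0x101010,nat_lit 0x1001010,
    nat_lit 0x10010,nat_lit 0x20010,nat_lit 0x110010,nat_lit 0x1010010,nat_lit 0x100010,nat_lit 0x120010,
    nat_lit 0x1110010,nat_lit 0x200010,nat_lit 0x1100010,nat_lit 0x1000010],[nat_lit 512,nat_lit 0x10200,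
    nat_lit 0x1100,nat_lit 0x11100,nat_lit 0x10100,nat_lit 0x20100,nat_lit 0x110100,nat_lit 0x1010100,
    nat_lit 0x100100,nat_lit 0x1000100],[nat_lit 0x2000,nat_lit 0x11000,nat_lit 0x21000,nat_lit 0x1011000,
    nat_lit 0x101000,nat_lit 0x111000,nat_lit 0x1001000,nat_lit 0x2001000],[nat_lit 0x20000,nat_lit 0x30000,
    nat_lit 0x40000,nat_lit 0x120000,nat_lit 0x1020000,nat_lit 0x110000,nat_lit 0x1110000,nat_lit 0x1010000],
    [nat_lit 0x200000,nat_lit 0x1100000],[nat_lit 0x2000000]]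
    [.c (nat_lit 1) (nat_lit 2),.r (nat_lit 0x174d) (nat_lit 1) [nat_lit 0x222031,nat_lit 0x200001],
    .c (nat_lit 1) (nat_lit 770),.r (nat_lit 32) (nat_lit 3) [nat_lit 0x2001,nat_lit 33],
    .r (nat_lit 0x1a9f) (nat_lit 1) [nat_lit 0x200031,nat_lit 0x2001,nat_lit 33],
    .r (nat_lit 0x1b46) (nat_lit 6) [nat_lit 0x333021,nat_lit 0x355021,nat_lit 0x444031],
    .r (nat_lit 0x1b5d) (nat_lit 4) [nat_lit 0x20001,nat_lit 0x200001,nat_lit 0x33231],.c (nat_lit 2) (nat_lit 2),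
    .r (nat_lit 0x1749) (nat_lit 4) [nat_lit 33,nat_lit 0x6031,nat_lit 0x220001],.c (nat_lit 2) (nat_lit 770),
    .r (nat_lit 0x1228) (nat_lit 9) [nat_lit 0x440001,nat_lit 0x955401,nat_lit 0x4031,nat_lit 0x400001],
    .r (nat_lit 0x1254) (nat_lit 0) [nat_lit 0x200001,nat_lit 0x220001,nat_lit 0x332231,nat_lit 0x20021],
    .r (nat_lit 0x1b46) (nat_lit 6) [nat_lit 0x32031,nat_lit 0x50031,nat_lit 0x240021],
    .r (nat_lit 0x1a39) (nat_lit 6) [nat_lit 0x2031,nat_lit 0x200001,nat_lit 33],.c (nat_lit 1) (nat_lit 0x22203),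
    .r (nat_lit 4) (nat_lit 11) [nat_lit 0x300231,nat_lit 0x200001],.r (nat_lit 0x1b16) (nat_lit 11) [nat_lit 0x2001,
    nat_lit 0x20001,nat_lit 33,nat_lit 0x200001],.c (nat_lit 4) (nat_lit 770),
    .r (nat_lit 0x174d) (nat_lit 1) [nat_lit 0x300231,nat_lit 0x200001],.r (nat_lit 8) (nat_lit 8) [nat_lit 0x330231,
    nat_lit 0x220001],.c (nat_lit 0) (nat_lit 515),.c (nat_lit 5) (nat_lit 770),.c (nat_lit 6) (nat_lit 770),
    .c (nat_lit 1) (nat_lit 0x20203),.r (nat_lit 0x174f) (nat_lit 5) [nat_lit 33,nat_lit 0x200001],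
    .r (nat_lit 8) (nat_lit 8) [nat_lit 0x3021,nat_lit 0x220001],.c (nat_lit 4) (nat_lit 0x33023),
    .r (nat_lit 0x1262) (nat_lit 3) [nat_lit 0x40001,nat_lit 0x4001,nat_lit 0x400001,nat_lit 0x3021],
    .r (nat_lit 4) (nat_lit 11) [nat_lit 0x330231,nat_lit 0x200001],.r (nat_lit 0x1a39) (nat_lit 6) [nat_lit 0x32031,
    nat_lit 0x200001,nat_lit 0x20021],.c (nat_lit 3) (nat_lit 2),.r (nat_lit 0x1b14) (nat_lit 8) [nat_lit 0x2001,
    nat_lit 0x3021,nat_lit 0x53021,nat_lit 0x442031],.c (nat_lit 0) (nat_lit 0x30323),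
    .r (nat_lit 2) (nat_lit 5) [nat_lit 0x300231,nat_lit 0x200001],.r (nat_lit 0x1750) (nat_lit 1) [nat_lit 0x200001,
    nat_lit 33],.r (nat_lit 0x1204) (nat_lit 9) [nat_lit 33,nat_lit 0x220001,nat_lit 0x200001,nat_lit 0x333201],
    .r (nat_lit 0x1b00) (nat_lit 11) [nat_lit 0x200001,nat_lit 0x22001,nat_lit 0x320231],
    .r (nat_lit 0x1b14) (nat_lit 8) [nat_lit 0x2001,nat_lit 0x23021,nat_lit 0x33021,nat_lit 0x422031],
    .c (nat_lit 0) (nat_lit 0x30323),.c (nat_lit 1) (nat_lit 0x42003),.c (nat_lit 4) (nat_lit 2),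
    .r (nat_lit 10) (nat_lit 3) [nat_lit 0x200001,nat_lit 33],.r (nat_lit 0x1254) (nat_lit 0) [nat_lit 0x200001,
    nat_lit 0x220001,nat_lit 33,nat_lit 0x302231],.r (nat_lit 2) (nat_lit 5) [nat_lit 0x330231,nat_lit 0x200001],
    .c (nat_lit 0) (nat_lit 0x53323),.r (nat_lit 0x1a9f) (nat_lit 1) [nat_lit 0x333231,nat_lit 0x2001,
    nat_lit 0x422321],.c (nat_lit 0) (nat_lit 0x33323),.r (nat_lit 0x1b5d) (nat_lit 4) [nat_lit 0x20001,
    nat_lit 0x200001,nat_lit 33],.c (nat_lit 5) (nat_lit 2),.r (nat_lit 0x1748) (nat_lit 10) [nat_lit 33,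
    nat_lit 0x6031,nat_lit 0x220001],.r (nat_lit 0x174a) (nat_lit 10) [nat_lit 34,nat_lit 0x8032,nat_lit 0x220001],
    .r (nat_lit 0x174c) (nat_lit 11) [nat_lit 0x220001,nat_lit 33,nat_lit 0x332231],
    .r (nat_lit 0x1204) (nat_lit 9) [nat_lit 0x20021,nat_lit 0x220001,nat_lit 0x200001,nat_lit 0x333201],
    .r (nat_lit 0x1750) (nat_lit 6) [nat_lit 33,nat_lit 0x220001],.r (nat_lit 0x1b00) (nat_lit 11) [nat_lit 0x200001,
    nat_lit 0x22001,nat_lit 0x300231],.r (nat_lit 0x1750) (nat_lit 1) [nat_lit 0x200001,nat_lit 0x20021],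
    .c (nat_lit 6) (nat_lit 2),.c (nat_lit 0) (nat_lit 0x33323),.c (nat_lit 7) (nat_lit 2)],
    .l (nat_lit 13) (nat_lit 0x5a0) (nat_lit 3) (nat_lit 0x2d3000002d30000029e00000308000002980000029800000308000002a4000003c8000003c80000029800000298000002fc0000029e) (nat_lit 0xf5000000f5000000c00000012a000001300000013000000124000000c0000000000000000000000130000001300000012a000000cc)
    (nat_lit 0xf207784261af0d185fc3522191698b4c2f219d0d4881c3bc1e410c86a434618b0d7884c5a62d30c2868c3462070d486bc3ec1740b705a02f41de14f0a782dc16e0b707c043221312407d82d01d80f209206102980ec05a040423c0c585fc3b01680b405a03c82481840a602d01680b707303461a30b405b82d01680ba07606102980b405a02d01cc10988644901de0ec09203c82481840c203b01680ef08f035e1a90f205e82e81e40c007905302a40ba05d02f41681698b4c53029e14c0a605483081e40f206102a41520bf05a62d31840a7861030814c0c207903c817e0a605482fc0d186742d016e0b405a02e816814c0a902d01680b705a030a1790ec05b82d01680ba07605f83080b405a02dc1cc103881c4781f00e607302d023c17e0bf03981680fe08c03461a910105b82d016e0bd07785482a40b705b82e81fc)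
    (nat_lit 0xf21680b405a02d01680b405a02d01680b405a02d016803bc1e42d01680b405a02d01680b405a02d01680b405a010988643ec5a02d01680b405a02d01680b405a02d0168035e1a90ba07d8b405a02d01680b405a02d01680b405a00d1868c2dc1680b41680b405a02d01680b405a02d016802fe18b0b407602d01682d01680b405a02d01680b405a00d486bc2f41e40f205d03c85a02d01680b405a02d016804322130ef09204901d81240790b405a02d01680b405a01698b4c53c3081840c206102981e41680b405a02d016805a62d314f0a605302981840a907903c82d01680b405a00bc86142dc1d80b405a03b01741840bf02d05a02d0168033a1a30b705a02d01680b405d05482980b405a0b405a00d4868c2dc2020b705a03bc17a1520a902dc16e0fe168040e2070f808f03981cc11e05a05f82fc0b407304601fc)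
    (nat_lit 3) (nat_lit 61)
    [[nat_lit 2,nat_lit 18,nat_lit 0x1002,nat_lit 0x10002,nat_lit 0x1000002,nat_lit 17,nat_lit 33,nat_lit 0x1011,
    nat_lit 0x10011,nat_lit 0x100011,nat_lit 0x1000011,nat_lit 0x1001,nat_lit 0x2001,nat_lit 0x11001,nat_lit 0x101001,
    nat_lit 0x1001001,nat_lit 0x10001,nat_lit 0x20001,nat_lit 0x110001,nat_lit 0x1010001,nat_lit 0x100001,
    nat_lit 0x1100001,nat_lit 0x1000001,nat_lit 0x2000001],[nat_lit 32,nat_lit 48,nat_lit 0x1020,nat_lit 0x10020,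
    nat_lit 0x100020,nat_lit 0x1000020,nat_lit 0x1010,nat_lit 0x2010,nat_lit 0x11010,nat_lit 0x101010,
    nat_lit 0x1001010,nat_lit 0x10010,nat_lit 0x20010,nat_lit 0x110010,nat_lit 0x1010010,nat_lit 0x100010,
    nat_lit 0x200010,nat_lit 0x1100010,nat_lit 0x1000010,nat_lit 0x2000010],[nat_lit 0x100100],[nat_lit 0x2000,
    nat_lit 0x11000,nat_lit 0x21000,nat_lit 0x111000,nat_lit 0x1011000,nat_lit 0x101000,nat_lit 0x1001000,
    nat_lit 0x1101000],[nat_lit 0x20000,nat_lit 0x30000,nat_lit 0x120000,nat_lit 0x1020000,nat_lit 0x110000,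
    nat_lit 0x210000,nat_lit 0x1110000,nat_lit 0x1010000,nat_lit 0x2010000],[nat_lit 0x200000,nat_lit 0x1100000],
    [nat_lit 0x2000000]]
    [.c (nat_lit 1) (nat_lit 2),.r (nat_lit 0x100f) (nat_lit 4) [nat_lit 0x3b5a9,nat_lit 0x3a11,nat_lit 0x32819,
    nat_lit 0x4a11],.r (nat_lit 4) (nat_lit 12) [nat_lit 0x1b499,nat_lit 0x12001],
    .r (nat_lit 0x100f) (nat_lit 4) [nat_lit 0x3f5a9,nat_lit 0xa11,nat_lit 0x30819,nat_lit 0x6a11],
    .r (nat_lit 0x1170) (nat_lit 13) [nat_lit 17,nat_lit 0x2d929,nat_lit 0xa11,nat_lit 0x20819],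
    .c (nat_lit 1) (nat_lit 0x682),.r (nat_lit 0x100f) (nat_lit 4) [nat_lit 0x3a7a9,nat_lit 0x5611,nat_lit 0x34419,
    nat_lit 0x2611],.r (nat_lit 4) (nat_lit 12) [nat_lit 0x18099,nat_lit 0x12001],
    .r (nat_lit 0x100f) (nat_lit 4) [nat_lit 0x3b7a9,nat_lit 0x3611,nat_lit 0x32419,nat_lit 0x4611],
    .r (nat_lit 0x1b60) (nat_lit 8) [nat_lit 0x18099,nat_lit 0x3001,nat_lit 0x12001],
    .r (nat_lit 0x1170) (nat_lit 13) [nat_lit 0x3411,nat_lit 0x28129,nat_lit 0x3611,nat_lit 0x22419],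
    .r (nat_lit 0x174f) (nat_lit 4) [nat_lit 17,nat_lit 0x12001],.r (nat_lit 0x1b22) (nat_lit 7) [nat_lit 0x401,
    nat_lit 0x10001,nat_lit 0x120d1],.r (nat_lit 4) (nat_lit 12) [nat_lit 0x1b099,nat_lit 0x12001],
    .r (nat_lit 0x174d) (nat_lit 13) [nat_lit 0x1b099,nat_lit 0x12001],.r (nat_lit 4) (nat_lit 3) [nat_lit 0x1b099,
    nat_lit 0x12001],.c (nat_lit 1) (nat_lit 130),.r (nat_lit 0x100f) (nat_lit 4) [nat_lit 0x3f7a9,nat_lit 0x611,
    nat_lit 0x30419,nat_lit 0x6611],.r (nat_lit 0x1b60) (nat_lit 8) [nat_lit 0x1b099,nat_lit 0x3001,nat_lit 0x12001],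
    .r (nat_lit 0x1170) (nat_lit 13) [nat_lit 0x411,nat_lit 0x2d129,nat_lit 0x611,nat_lit 0x20419],
    .r (nat_lit 0x1750) (nat_lit 6) [nat_lit 0x611,nat_lit 0x10401],.r (nat_lit 2) (nat_lit 4) [nat_lit 0x1b499,
    nat_lit 0x12001],.r (nat_lit 0x1750) (nat_lit 1) [nat_lit 17,nat_lit 0x10001],
    .r (nat_lit 0x1b20) (nat_lit 13) [nat_lit 0x2601,nat_lit 0x601,nat_lit 0x10401,nat_lit 17],
    .c (nat_lit 2) (nat_lit 2),.r (nat_lit 0x100f) (nat_lit 4) [nat_lit 0x3efa9,nat_lit 0x7011,nat_lit 0x36019,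
    nat_lit 17],.r (nat_lit 4) (nat_lit 12) [nat_lit 0x1a699,nat_lit 0x12001],
    .r (nat_lit 0x100f) (nat_lit 4) [nat_lit 0x3afa9,nat_lit 0x5011,nat_lit 0x34019,nat_lit 0x2011],
    .r (nat_lit 0x1b60) (nat_lit 8) [nat_lit 0x1a699,nat_lit 0x3001,nat_lit 0x12001],
    .r (nat_lit 0x1170) (nat_lit 13) [nat_lit 0x5811,nat_lit 0x2cb29,nat_lit 0x5011,nat_lit 0x24019],
    .r (nat_lit 0x174f) (nat_lit 4) [nat_lit 0x3411,nat_lit 0x12001],.r (nat_lit 0x1b22) (nat_lit 7) [nat_lit 0x401,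
    nat_lit 0x10001,nat_lit 0x104d1],.r (nat_lit 4) (nat_lit 12) [nat_lit 0x18699,nat_lit 0x12001],
    .r (nat_lit 0x174d) (nat_lit 13) [nat_lit 0x18699,nat_lit 0x12001],.r (nat_lit 4) (nat_lit 3) [nat_lit 0x18699,
    nat_lit 0x12001],.c (nat_lit 1) (nat_lit 0x702),.r (nat_lit 0x100f) (nat_lit 4) [nat_lit 0x3bfa9,nat_lit 0x3011,
    nat_lit 0x32019,nat_lit 0x4011],.r (nat_lit 0x1b60) (nat_lit 8) [nat_lit 0x18699,nat_lit 0x3001,nat_lit 0x12001],
    .r (nat_lit 0x1170) (nat_lit 13) [nat_lit 0x3811,nat_lit 0x28b29,nat_lit 0x3011,nat_lit 0x22019],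
    .r (nat_lit 0x1750) (nat_lit 6) [nat_lit 0x3011,nat_lit 0x10401],.r (nat_lit 0x1b0d) (nat_lit 11) [nat_lit 0x2601,
    nat_lit 0x10401,nat_lit 0x100d1],.r (nat_lit 2) (nat_lit 4) [nat_lit 0x18099,nat_lit 0x12001],
    .r (nat_lit 0x1750) (nat_lit 1) [nat_lit 0x3411,nat_lit 0x10001],.r (nat_lit 0x1b20) (nat_lit 13) [nat_lit 0x2601,
    nat_lit 0x601,nat_lit 0x10401,nat_lit 0x3411],.r (nat_lit 0x1b1b) (nat_lit 11) [nat_lit 0x18611,nat_lit 0x601,
    nat_lit 0x10401],.c (nat_lit 4) (nat_lit 2),.r (nat_lit 0x174f) (nat_lit 4) [nat_lit 0x411,nat_lit 0x12001],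
    .r (nat_lit 4) (nat_lit 12) [nat_lit 0x1b699,nat_lit 0x12001],.r (nat_lit 0x174d) (nat_lit 13) [nat_lit 0x1b699,
    nat_lit 0x12001],.r (nat_lit 4) (nat_lit 3) [nat_lit 0x1b699,nat_lit 0x12001],
    .r (nat_lit 0x1ade) (nat_lit 10) [nat_lit 17,nat_lit 0x224d1,nat_lit 0x18699],
    .r (nat_lit 0x1a01) (nat_lit 8) [nat_lit 0x3001,nat_lit 0x12001,nat_lit 17],
    .r (nat_lit 0x174a) (nat_lit 10) [nat_lit 0x1b699,nat_lit 0x1a699,nat_lit 0x10401],.c (nat_lit 5) (nat_lit 2),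
    .r (nat_lit 0x100f) (nat_lit 4) [nat_lit 0x3ffa9,nat_lit 17,nat_lit 0x30019,nat_lit 0x6011],
    .r (nat_lit 0x1b60) (nat_lit 8) [nat_lit 0x1b699,nat_lit 0x3001,nat_lit 0x12001],
    .r (nat_lit 0x1170) (nat_lit 13) [nat_lit 0x811,nat_lit 0x2db29,nat_lit 17,nat_lit 0x20019],
    .r (nat_lit 0x1750) (nat_lit 6) [nat_lit 17,nat_lit 0x10401],.r (nat_lit 0x1b0d) (nat_lit 11) [nat_lit 0x2601,
    nat_lit 0x10401,nat_lit 0x120d1],.r (nat_lit 2) (nat_lit 4) [nat_lit 0x1b099,nat_lit 0x12001],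
    .r (nat_lit 0x1750) (nat_lit 1) [nat_lit 0x411,nat_lit 0x10001],.r (nat_lit 0x1b20) (nat_lit 13) [nat_lit 0x2601,
    nat_lit 0x601,nat_lit 0x10401,nat_lit 0x411],.c (nat_lit 6) (nat_lit 2),
    .r (nat_lit 10) (nat_lit 5) [nat_lit 0x12001,nat_lit 17],.c (nat_lit 7) (nat_lit 2)]]

/-- nodes -/
noncomputable def rD7k_20_4 : List RJ :=
  [.l (nat_lit 13) (nat_lit 0x5a0) (nat_lit 3) (nat_lit 0x26c000002380000021c0000021c0000022a000002d6000002de000002de000002ca0000022200000268000002680000023c00000288) (nat_lit 0xa600000072000000c2000000c200000008000000b40000000000000000000000bc00000014000000760000007600000056000000a2)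
    (nat_lit 0x11207e82d016813207f04d821c0c70aa83ec1f610b08203082240bb05d846017611c08a83382240e106e84481a60bb05a02d016811105a043821c0b4082032c1860b405e82ec1680b405a042816810e08702d01680d306983041680bb07f02d016811105a059422a0b7085838c1ac10b062046026410a088859c2221bb0b583002c213009805a0168115087043821c16b08a85bc2de11108a866830214408f047026c10e08706ec2ca16f0b784382ca15009b046c21c1120aa82d0208161085859422a1050ad84e825a13a07c033818e0b405a030016e10e08882d020a0c506b03981800dd07d834c18613006b04d83020d609683e41f011a07a03841f60d306584c01c61500cd03142740f907c83a81c60d308202d017a0b4062043823c0c007c038c1e80f306684482160c105a05a021611b0a203982740ea08d04641e6)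
    (nat_lit 0x1121680b405a02d01680b405a02d01680b405a02d016803f42242d01680b405a02d01680b405a02d01680b405a00b405d82d05a02d01680b405a02d01680b405a02d016802d01760b405a0b405a02d01680b405a02d01680b405a013208c04442141111680b405a02d01680b405a02d016803f81760b405a02d02222d01680b405a02d01680b405a013608e043821c1650dd85bc5a02d01680b405a02d0168043822a10e08704542d616f0b78b405a02d01680b405a00c706702d01680b7060044421c1051680b405a02d0168055422410405a042c2c21150b2856c20a2d01680b405a00fb070832c1a60e309806682a013a06283e45a02d016803ec1ba0c3069835826018109b04b41ac0f807c8b405a010b08902d018210b0b4051023613a07304681d40f316804101a60bd05a031016811e08703e01800f407183341e6)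
    (nat_lit 6) (nat_lit 43)
    [[nat_lit 2,nat_lit 0x10002,nat_lit 0x100002,nat_lit 17,nat_lit 0x10011,nat_lit 0x100011,nat_lit 33,nat_lit 273,
    nat_lit 0x1000011,nat_lit 257,nat_lit 0x10101,nat_lit 0x100101,nat_lit 0x1001,nat_lit 0x10001,nat_lit 0x100001,
    nat_lit 0x110001,nat_lit 0x200001,nat_lit 0x1100001,nat_lit 0x1000001,nat_lit 0x1010001],[nat_lit 32,
    nat_lit 0x100020,nat_lit 272,nat_lit 0x100110,nat_lit 0x10010,nat_lit 0x110010,nat_lit 0x100010,nat_lit 0x200010,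
    nat_lit 0x1100010,nat_lit 0x1000010,nat_lit 0x2000010],[nat_lit 512,nat_lit 0x100200,nat_lit 0x1100,
    nat_lit 0x10100,nat_lit 0x110100,nat_lit 0x100100,nat_lit 0x200100,nat_lit 0x1100100,nat_lit 0x1000100],
    [nat_lit 0x101000,nat_lit 0x1001000],[nat_lit 0x20000,nat_lit 0x120000,nat_lit 0x110000,nat_lit 0x210000,
    nat_lit 0x1110000,nat_lit 0x1010000],[nat_lit 0x200000,nat_lit 0x300000,nat_lit 0x1200000,nat_lit 0x1100000,
    nat_lit 0x2100000],[nat_lit 0x2000000]]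
    [.c (nat_lit 1) (nat_lit 2),.c (nat_lit 1) (nat_lit 0xc30c628b),.r (nat_lit 0x17c0) (nat_lit 4) [nat_lit 0x800c1,
    nat_lit 0x180140285,nat_lit 0x60001002c5,nat_lit 0x6240505],.r (nat_lit 0x1b04) (nat_lit 9) [nat_lit 0x3002140505,
    nat_lit 0x50c30ca285],.r (nat_lit 0x1b5d) (nat_lit 7) [nat_lit 0x408208b005,nat_lit 0x30030ca005,
    nat_lit 0x50c30ca285],.r (nat_lit 0x1b60) (nat_lit 7) [nat_lit 0x20020802c5,nat_lit 0x408208b005,
    nat_lit 0x30030ca005],.r (nat_lit 0x1b5d) (nat_lit 7) [nat_lit 0x408208b005,nat_lit 0x30030ca005,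
    nat_lit 0x9145154285],.r (nat_lit 8) (nat_lit 3) [nat_lit 0x20020802c5,nat_lit 0x2080000005],
    .r (nat_lit 2) (nat_lit 8) [nat_lit 0x20020802c5,nat_lit 0x30030ca005],.c (nat_lit 0) (nat_lit 0x8400b),
    .r (nat_lit 8) (nat_lit 3) [nat_lit 0x30c000a2c5,nat_lit 0x2080000005],
    .r (nat_lit 0x174d) (nat_lit 3) [nat_lit 0x20020802c5,nat_lit 0x30030ca005],
    .r (nat_lit 8) (nat_lit 3) [nat_lit 0xc00c0285,nat_lit 0x2080000005],
    .r (nat_lit 0x1b04) (nat_lit 9) [nat_lit 0x6106015505,nat_lit 129],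
    .r (nat_lit 0x633) (nat_lit 8) [nat_lit 0x2000200a45,nat_lit 129,nat_lit 0xc0281,nat_lit 0x30c318aa45,
    nat_lit 0x80240a05],.r (nat_lit 0x1b60) (nat_lit 7) [nat_lit 0x30c000a2c5,nat_lit 0x408208b005,
    nat_lit 0x30030ca005],.r (nat_lit 0xb19) (nat_lit 8) [nat_lit 0x2000200a45,nat_lit 129,nat_lit 0xc0281,
    nat_lit 0x30c318aa45,nat_lit 0x80240a05],.r (nat_lit 0xb1a) (nat_lit 10) [nat_lit 0x300240a05,
    nat_lit 0xd34d17ca45,nat_lit 0xc0281,nat_lit 0x80081,nat_lit 0xc000200a45],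
    .r (nat_lit 10) (nat_lit 3) [nat_lit 129,nat_lit 0x30030ca005],.r (nat_lit 2) (nat_lit 8) [nat_lit 0x30c000a2c5,
    nat_lit 0x30030ca005],.c (nat_lit 2) (nat_lit 2),.r (nat_lit 0x1a9a) (nat_lit 6) [nat_lit 0x30030ca005,
    nat_lit 0x5140000285,nat_lit 0x2080000005],.r (nat_lit 0x1b04) (nat_lit 9) [nat_lit 129,nat_lit 0x714701428a],
    .r (nat_lit 4) (nat_lit 5) [nat_lit 0x20020802c5,nat_lit 0x30030ca005],.c (nat_lit 2) (nat_lit 0x1020822ca),
    .r (nat_lit 0x1a9a) (nat_lit 6) [nat_lit 0x30030ca005,nat_lit 0xc208b285,nat_lit 0x2080000005],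
    .c (nat_lit 0) (nat_lit 0x80000009),.r (nat_lit 2) (nat_lit 8) [nat_lit 0x300400028a,nat_lit 0x30030ca005],
    .c (nat_lit 1) (nat_lit 0xc000200a),.c (nat_lit 0) (nat_lit 0x8000000b),
    .r (nat_lit 0x1b60) (nat_lit 7) [nat_lit 0x300400028a,nat_lit 0x408208b005,nat_lit 0x30030ca005],
    .c (nat_lit 3) (nat_lit 2),.c (nat_lit 0) (nat_lit 0x80005),.c (nat_lit 1) (nat_lit 0x30c400a),
    .r (nat_lit 0x1b04) (nat_lit 9) [nat_lit 0x408208b285,nat_lit 0x30c508a28a],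
    .r (nat_lit 4) (nat_lit 5) [nat_lit 0x30c000a2c5,nat_lit 0x30030ca005],.c (nat_lit 0) (nat_lit 0x80005),
    .r (nat_lit 0x174d) (nat_lit 3) [nat_lit 0x40020002ca,nat_lit 0x30030ca005],.c (nat_lit 1) (nat_lit 0xc600a),
    .c (nat_lit 0) (nat_lit 0x8000b),.r (nat_lit 0x1b61) (nat_lit 11) [nat_lit 0x30c0000285,nat_lit 0x50c30ca005,
    nat_lit 0x2080000005],.r (nat_lit 0x1b3a) (nat_lit 0) [nat_lit 0x30030ca2c5,nat_lit 0x20800002c5,nat_lit 129],
    .c (nat_lit 5) (nat_lit 2),.r (nat_lit 0x1a9a) (nat_lit 6) [nat_lit 0x30030ca005,nat_lit 0x4004115285,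
    nat_lit 0x2080000005],.c (nat_lit 0) (nat_lit 0xc30c3289),.r (nat_lit 2) (nat_lit 8) [nat_lit 0x208608b28a,
    nat_lit 0x30030ca005],.c (nat_lit 1) (nat_lit 0x820842ca),.c (nat_lit 0) (nat_lit 0xc30c328b),
    .c (nat_lit 6) (nat_lit 2),.r (nat_lit 0x14a3) (nat_lit 8) [nat_lit 0xc300000005,nat_lit 0x4c0300545,nat_lit 257,
    nat_lit 0xd00d37c005],.r (nat_lit 0x11b8) (nat_lit 0) [nat_lit 129,nat_lit 0x2100005,nat_lit 0x40020002c5,
    nat_lit 0x103000285],.c (nat_lit 1) (nat_lit 0x2002),.r (nat_lit 0x18f7) (nat_lit 4) [nat_lit 0x408208b005,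
    nat_lit 0x30030ca005,nat_lit 129,nat_lit 0x208210b285],.c (nat_lit 7) (nat_lit 2)],
    .l (nat_lit 10) (nat_lit 240) (nat_lit 4) (nat_lit 0x65000000650000005f0000005f0000006400000064000000580000006000000070000000740000006e0000006e0000005d0000005d) (nat_lit 0xf0000000f00000015000000150000001000000010000000140000001c000000000000000400000006000000060000001700000017)
    (nat_lit 0x158521405213c55194431947118c7b1384e13856138501544f1a4471946f1d48d130541405214052144510f4430c44314c5912032138501385013c4f12c431b44713c591204813c5513c5115050190481906017850134571544f13c511305419048190601785e14c5311c4310c431204811044160401305211c411a46512c3d19064198441205c168520e4311bc7111c4318060170401e0522088211459194651b43119064120581d0781b86e1045d2347b1645917850148521b8821a06815c571d46313c531785e1684c1b8821a06815c571504e1203214c570c4411745915c57108461304e1204814c4d0e4471044515c5712842)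
    (nat_lit 0x158f03c0f03c0f03c0f03c0f03c0f03c0f0148563c0f03c0f03c0f03c0f03c0f03c0f01404e140f03c0f03c0f03c0f03c0f03c0f014850148503c0f03c0f03c0f03c0f03c0f013c551444f150f03c0f03c0f03c0f03c0f01544f1444f140543c0f03c0f03c0f03c0f0194690f44b19064110f03c0f03c0f03c0f010c4710c4312048110443c0f03c0f03c0f0194650c46d19064160481e0f03c0f03c0f01c46f10c47180601005c148783c0f03c0f018c7514c4f1785e1305a2086e1a0f03c0f01ec8d164591405e148522086e1a0683c0f01384c120481345311c391144115c57108f0138540c84815c53104311645d15c5711842)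
    (nat_lit 5) (nat_lit 83)
    [[nat_lit 2,nat_lit 3,nat_lit 258,nat_lit 0x1002,nat_lit 0x10002,nat_lit 0x100002,nat_lit 0x1000002,nat_lit 17,
    nat_lit 0x1011,nat_lit 0x100011,nat_lit 257,nat_lit 0x1101,nat_lit 0x100101,nat_lit 0x101101,nat_lit 0x1001,
    nat_lit 0x2001,nat_lit 0x101001,nat_lit 0x11001,nat_lit 0x1001001,nat_lit 0x10001,nat_lit 0x110001,
    nat_lit 0x100001,nat_lit 0x200001,nat_lit 0x1100001,nat_lit 0x1000001,nat_lit 0x2000001],[nat_lit 32,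
    nat_lit 0x1010,nat_lit 0x2010,nat_lit 0x101010,nat_lit 0x10010,nat_lit 0x100010],[nat_lit 512,nat_lit 0x1100,
    nat_lit 0x101100,nat_lit 0x2100,nat_lit 0x10100,nat_lit 0x100100,nat_lit 0x110100,nat_lit 0x200100,
    nat_lit 0x1000100],[nat_lit 0x2000,nat_lit 0x3000,nat_lit 0x102000,nat_lit 0x11000,nat_lit 0x101000,
    nat_lit 0x111000,nat_lit 0x201000,nat_lit 0x1101000,nat_lit 0x1001000],[nat_lit 0x20000,nat_lit 0x120000,
    nat_lit 0x110000,nat_lit 0x1010000,nat_lit 0x1110000],[nat_lit 0x200000,nat_lit 0x1100000],[nat_lit 0x2000000]]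
    [.c (nat_lit 1) (nat_lit 2),.c (nat_lit 0) (nat_lit 0x6218c43),.c (nat_lit 2) (nat_lit 0x8200803),
    .r (nat_lit 0x1b04) (nat_lit 8) [nat_lit 0x80010001,nat_lit 0x6000041],.c (nat_lit 0) (nat_lit 0x6218c43),
    .r (nat_lit 0x174d) (nat_lit 5) [nat_lit 0x84200061,nat_lit 0x6000041],.c (nat_lit 2) (nat_lit 0x8200003),
    .c (nat_lit 0) (nat_lit 0x4200003),.r (nat_lit 0x1b37) (nat_lit 4) [nat_lit 0x10001,nat_lit 0x4000001,
    nat_lit 0x80000001,nat_lit 0x146000081,nat_lit 0x1044000a1],.r (nat_lit 2) (nat_lit 4) [nat_lit 0x84200061,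
    nat_lit 0x80010001],.c (nat_lit 0) (nat_lit 0x6018043),.r (nat_lit 4) (nat_lit 3) [nat_lit 0xc0000861,
    nat_lit 0x80010001],.r (nat_lit 8) (nat_lit 13) [nat_lit 0xc0000861,nat_lit 0x80000001],
    .c (nat_lit 5) (nat_lit 0x6000043),.c (nat_lit 0) (nat_lit 0x220005),
    .r (nat_lit 0x1b11) (nat_lit 7) [nat_lit 0x10001,nat_lit 0x80000001,nat_lit 0x80010c41],
    .c (nat_lit 1) (nat_lit 0x18002),.r (nat_lit 4) (nat_lit 12) [nat_lit 0xc0018861,nat_lit 0x80010001],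
    .r (nat_lit 4) (nat_lit 3) [nat_lit 0xc0018861,nat_lit 0x80010001],.c (nat_lit 0) (nat_lit 0x6218c43),
    .r (nat_lit 0x1a32) (nat_lit 8) [nat_lit 0xc0300861,nat_lit 0x200001,nat_lit 0x80000001],
    .c (nat_lit 0) (nat_lit 0x220005),.r (nat_lit 0x1b62) (nat_lit 5) [nat_lit 0x86010cc1,nat_lit 0x148029061,
    nat_lit 0x484042481,nat_lit 0x24604a0a1],.r (nat_lit 8) (nat_lit 13) [nat_lit 0xc0018861,nat_lit 0x80000001],
    .c (nat_lit 0) (nat_lit 0x6018c43),.r (nat_lit 0x1aef) (nat_lit 13) [nat_lit 0x200001,nat_lit 0x80000061,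
    nat_lit 0x10041],.c (nat_lit 2) (nat_lit 2),.r (nat_lit 4) (nat_lit 12) [nat_lit 0x80200061,nat_lit 0x80010001],
    .r (nat_lit 0x1b37) (nat_lit 4) [nat_lit 0x10001,nat_lit 0x4000001,nat_lit 0x80000001,nat_lit 0xc0000041,
    nat_lit 0x80400061],.c (nat_lit 2) (nat_lit 0x18002),.r (nat_lit 0x1aef) (nat_lit 13) [nat_lit 0x200001,
    nat_lit 0x80210c41,nat_lit 0x300861],.r (nat_lit 0x1a32) (nat_lit 8) [nat_lit 0x80010061,nat_lit 0x200001,
    nat_lit 0x80000001],.c (nat_lit 3) (nat_lit 2),.r (nat_lit 0x1b04) (nat_lit 8) [nat_lit 0x80010001,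
    nat_lit 0x18041],.c (nat_lit 2) (nat_lit 0x4010803),.r (nat_lit 2) (nat_lit 4) [nat_lit 0x4018042,
    nat_lit 0x80010001],.c (nat_lit 0) (nat_lit 0xa328885),.r (nat_lit 0x174d) (nat_lit 5) [nat_lit 0x80210061,
    nat_lit 0x18041],.r (nat_lit 2) (nat_lit 4) [nat_lit 0xc0000861,nat_lit 0x80010001],
    .r (nat_lit 0x1b37) (nat_lit 4) [nat_lit 0x10001,nat_lit 0x4000001,nat_lit 0x80000001,nat_lit 0x410061,
    nat_lit 0x18041],.c (nat_lit 2) (nat_lit 0x8000803),.c (nat_lit 4) (nat_lit 2),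
    .r (nat_lit 0x14a3) (nat_lit 4) [nat_lit 0x300000001,nat_lit 0x7ce06b0a1,nat_lit 129,nat_lit 0x300060001],
    .c (nat_lit 4) (nat_lit 0x18002),.r (nat_lit 0x1750) (nat_lit 3) [nat_lit 65,nat_lit 0x80000001],
    .c (nat_lit 0) (nat_lit 0x10003),.c (nat_lit 5) (nat_lit 0x18002),.c (nat_lit 6) (nat_lit 0x18002),
    .c (nat_lit 2) (nat_lit 0x4010003),.r (nat_lit 0x1b04) (nat_lit 8) [nat_lit 0x80010001,nat_lit 65],
    .c (nat_lit 5) (nat_lit 2),.r (nat_lit 0xb18) (nat_lit 4) [nat_lit 0x100000001,nat_lit 0x508842481,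
    nat_lit 0x2c6529001,nat_lit 0x54a54a0a1,nat_lit 0x100020001],.r (nat_lit 10) (nat_lit 13) [nat_lit 65,
    nat_lit 0x80010001],.c (nat_lit 0) (nat_lit 0xa329487),.r (nat_lit 2) (nat_lit 4) [nat_lit 0xc0018861,
    nat_lit 0x80010001],.c (nat_lit 6) (nat_lit 2),.r (nat_lit 0x174d) (nat_lit 5) [nat_lit 0x80200061,nat_lit 65],
    .c (nat_lit 7) (nat_lit 2)]]

/-- nodes -/
noncomputable def rD7k_20_5 : List RJ :=
  [.l (nat_lit 16) (nat_lit 0x3840) (nat_lit 4) (nat_lit 0x18ae000018ae00001579000015790000156a0000156a000014e3000014e300001af500001af500001b6c00001b6c0000176600001766) (nat_lit 0x2be000002be000005f3000005f300000602000006020000068900000689000000770000007700000000000000000000040600000406)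
    (nat_lit 0x16a415f012bb15ff123413600a8f0e87183717bf1f74198014a813d612ac16a412bb12bb13060f6812251225183718371ec018cc116414a812bb15ff12ca12ca0f770f770ef00e9614e415021579157910bf0b6112bb12bb0f8612ca0e690f770ef00ef0153e15020ffd157910bf11730f6813600f770f770f680f680ee10fef14f314f3156a152e116416e0130612340e690f770ffc0f680dd30ee113e514f3156a145c15021a4212250e870ef00e960ee10fef0e5a0dc6157a157a0c0515f1115510dd12250a8f0ef00ef00dd30ee10e5a0e5a160e146c09af14e311550e87183717bf1502150214f314f3146c157a1a7e1a7e1d4b19531e85222318371837153e14e413e514f3160e157a135e1a7e1eed1af5161d19bb18cc198015791579145c152e14e315f11af5195318a0228c1766136e1ec01f740ffd1579156a156a09af0c051eed1d4b1b6c18a01838176614a813d611730b611a4216e00e8710dd19bb22231766136e0c9a1360116414a810bf10bf1502116411551155161d1e851838176613600c9a)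
    (nat_lit 0x16a4384038403840384038403840384038403840384038403840384015f016a438403840384038403840384038403840384038403840384012bb12bb12ca3840384038403840384038403840384038403840384015ff12bb12ca12ca3840384038403840384038403840384038403840123413060f770e690f6838403840384038403840384038403840384013600f680f770f770f680f68384038403840384038403840384038400a8f12250ef00ef00ee10dd30e5a38403840384038403840384038400e8712250e960ef00fef0ee10dc60e5a3840384038403840384038401837183714e4153e14f313e5157a160e1a7e3840384038403840384017bf18371502150214f314f3157a146c1a7e1a7e384038403840384016941bd415790ffd156a156a0c0509af1d4b1eed18a0384038403840198018cc15791579152e145c15f114e319531af5228c18a03840384014a8116410bf10bf11641502115511551e85161d176618380c9a384013d614a80b61117316e019ca10dd0e87206319bb136e176613600c9a)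
    (nat_lit 4) (nat_lit 86)
    [[nat_lit 2,nat_lit 3,nat_lit 4,nat_lit 0x100003,nat_lit 0x1002,nat_lit 0x110002,nat_lit 0x100002,
    nat_lit 0x1000002,nat_lit 17,nat_lit 0x1011,nat_lit 0x100011,nat_lit 0x100101,nat_lit 0x1001,nat_lit 0x2001,
    nat_lit 0x11001,nat_lit 0x101001,nat_lit 0x1001001,nat_lit 0x10001,nat_lit 0x110001,nat_lit 0x100001,
    nat_lit 0x200001,nat_lit 0x1100001,nat_lit 0x1000001,nat_lit 0x1101001],[nat_lit 32,nat_lit 0x1010,nat_lit 0x2010,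
    nat_lit 0x11010,nat_lit 0x101010,nat_lit 0x1001010,nat_lit 0x10010,nat_lit 0x100010,nat_lit 0x110010],
    [nat_lit 512,nat_lit 0x1100,nat_lit 0x10100,nat_lit 0x100100,nat_lit 0x1000100],[nat_lit 0x2000,nat_lit 0x3000,
    nat_lit 0x12000,nat_lit 0x102000,nat_lit 0x1002000,nat_lit 0x1012000,nat_lit 0x11000,nat_lit 0x21000,
    nat_lit 0x111000,nat_lit 0x1011000,nat_lit 0x101000,nat_lit 0x201000,nat_lit 0x1101000,nat_lit 0x1001000,
    nat_lit 0x1111000,nat_lit 0x2001000,nat_lit 0x2002000],[nat_lit 0x20000,nat_lit 0x30000,nat_lit 0x120000,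
    nat_lit 0x1020000,nat_lit 0x110000,nat_lit 0x210000,nat_lit 0x1110000,nat_lit 0x1010000],[nat_lit 0x200000,
    nat_lit 0x300000,nat_lit 0x1100000],[nat_lit 0x2000000]]
    [.c (nat_lit 1) (nat_lit 2),.r (nat_lit 0x1749) (nat_lit 1) [nat_lit 33,nat_lit 0x660031,nat_lit 0x2001],
    .r (nat_lit 0x174a) (nat_lit 9) [nat_lit 0x880032,nat_lit 34,nat_lit 0x2001],
    .r (nat_lit 0x1606) (nat_lit 3) [nat_lit 0x939831,nat_lit 0x8001,nat_lit 0x20021,nat_lit 0x70021],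
    .c (nat_lit 1) (nat_lit 0x33002),.r (nat_lit 0x1749) (nat_lit 1) [nat_lit 0x20021,nat_lit 0x640031,
    nat_lit 0x2001],.r (nat_lit 0x1602) (nat_lit 3) [nat_lit 0x737631,nat_lit 0x6001,nat_lit 0x20021,nat_lit 0x50021],
    .r (nat_lit 0x1607) (nat_lit 3) [nat_lit 0x505431,nat_lit 0x4001,nat_lit 33,nat_lit 0x50021],
    .r (nat_lit 32) (nat_lit 8) [nat_lit 0x220001,nat_lit 0x300231],.c (nat_lit 2) (nat_lit 0x33002),
    .r (nat_lit 0x1588) (nat_lit 9) [nat_lit 0x303201,nat_lit 0x220001,nat_lit 0x32031,nat_lit 0x3021],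
    .c (nat_lit 0) (nat_lit 0x20232),.c (nat_lit 0) (nat_lit 0x22003),.c (nat_lit 4) (nat_lit 0x33002),
    .c (nat_lit 5) (nat_lit 0x33002),.c (nat_lit 6) (nat_lit 0x33002),.c (nat_lit 2) (nat_lit 0x22203),
    .c (nat_lit 0) (nat_lit 0x42003),.c (nat_lit 1) (nat_lit 0x2002),.c (nat_lit 0) (nat_lit 0x42003),
    .r (nat_lit 0x1608) (nat_lit 3) [nat_lit 0x757631,nat_lit 0x6001,nat_lit 0x40021,nat_lit 0x30021],
    .r (nat_lit 0xead) (nat_lit 3) [nat_lit 0x535431,nat_lit 0x4001,nat_lit 0x20021,nat_lit 0x30021],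
    .r (nat_lit 2) (nat_lit 4) [nat_lit 0x220001,nat_lit 0x300231],.r (nat_lit 0x130c) (nat_lit 0) [nat_lit 0x333021,
    nat_lit 0x2001,nat_lit 0x220001,nat_lit 0x533201],.c (nat_lit 2) (nat_lit 2),
    .r (nat_lit 0x1306) (nat_lit 12) [nat_lit 0x2001,nat_lit 0x535221,nat_lit 0x3021,nat_lit 0x202031],
    .r (nat_lit 0x1607) (nat_lit 3) [nat_lit 0x957421,nat_lit 0x4001,nat_lit 0x442031,nat_lit 0x402031],
    .r (nat_lit 0x130c) (nat_lit 0) [nat_lit 0x200031,nat_lit 0x2001,nat_lit 0x220001,nat_lit 0x533201],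
    .r (nat_lit 0xf85) (nat_lit 6) [nat_lit 0x220001,nat_lit 0x303201,nat_lit 0x330021,nat_lit 0x222031],
    .c (nat_lit 1) (nat_lit 0x22203),.r (nat_lit 32) (nat_lit 9) [nat_lit 0x220001,nat_lit 33],
    .r (nat_lit 0xf00) (nat_lit 4) [nat_lit 0x2001,nat_lit 33,nat_lit 0x200031,nat_lit 0x533201],
    .r (nat_lit 32) (nat_lit 8) [nat_lit 0x220001,nat_lit 0x330231],.c (nat_lit 3) (nat_lit 2),
    .r (nat_lit 0x174a) (nat_lit 9) [nat_lit 0x422321,nat_lit 0x23231,nat_lit 0x2001],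
    .c (nat_lit 0) (nat_lit 0x33323),.c (nat_lit 0) (nat_lit 0x33323),.r (nat_lit 32) (nat_lit 8) [nat_lit 0x220001,
    nat_lit 33],.c (nat_lit 4) (nat_lit 2),.r (nat_lit 0x1748) (nat_lit 9) [nat_lit 33,nat_lit 0x660031,
    nat_lit 0x2001],.c (nat_lit 0) (nat_lit 0x42003),.c (nat_lit 0) (nat_lit 0x40003),
    .r (nat_lit 0xdfa) (nat_lit 0) [nat_lit 0x4001,nat_lit 0x442031,nat_lit 0x957421,nat_lit 0x3021],
    .r (nat_lit 0x1588) (nat_lit 9) [nat_lit 0x303201,nat_lit 0x220001,nat_lit 0x550021,nat_lit 0x420031],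
    .c (nat_lit 0) (nat_lit 0x20003),.c (nat_lit 0) (nat_lit 0x40003),.c (nat_lit 0) (nat_lit 0x20003),
    .r (nat_lit 0x1609) (nat_lit 4) [nat_lit 0x2001,nat_lit 0x202031,nat_lit 0x535221,nat_lit 0x422301],
    .c (nat_lit 0) (nat_lit 0x20003),.c (nat_lit 0) (nat_lit 0x40003),.r (nat_lit 0x160a) (nat_lit 4) [nat_lit 0x2001,
    nat_lit 0x535221,nat_lit 0x202031,nat_lit 0x422301],.r (nat_lit 0x196a) (nat_lit 1) [nat_lit 0x303201,
    nat_lit 0x300021,nat_lit 0x202031],.c (nat_lit 2) (nat_lit 0x20203),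
    .r (nat_lit 0x160b) (nat_lit 1) [nat_lit 0x50001,nat_lit 0x440001,nat_lit 0x505401,nat_lit 0x224031],
    .r (nat_lit 32) (nat_lit 8) [nat_lit 0x220001,nat_lit 0x955422],.c (nat_lit 5) (nat_lit 2),
    .r (nat_lit 0x17f4) (nat_lit 11) [nat_lit 33,nat_lit 0x220001,nat_lit 0x303201,nat_lit 0x2001],
    .c (nat_lit 0) (nat_lit 0x40003),.r (nat_lit 0x160c) (nat_lit 6) [nat_lit 0x400031,nat_lit 0x555431,
    nat_lit 0x4001,nat_lit 0x40021],.c (nat_lit 0) (nat_lit 0x3003),.c (nat_lit 0) (nat_lit 0x40003),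
    .r (nat_lit 2) (nat_lit 4) [nat_lit 0x220001,nat_lit 0x330231],.r (nat_lit 0x10d2) (nat_lit 9) [nat_lit 0x533201,
    nat_lit 0x200001,nat_lit 0x300021,nat_lit 0x220001],.c (nat_lit 6) (nat_lit 2),
    .r (nat_lit 0x160d) (nat_lit 0) [nat_lit 33,nat_lit 0x6001,nat_lit 0x660001,nat_lit 0xd77601],
    .r (nat_lit 0x1b60) (nat_lit 1) [nat_lit 0x220001,nat_lit 0x2031,nat_lit 33],.c (nat_lit 7) (nat_lit 2)],
    .l (nat_lit 13) (nat_lit 0x780) (nat_lit 3) (nat_lit 0x2d6000002d6000002d2000002d2000002e4000002e40000030c0000030c000003110000031100000330000002c6000002e2000002e2) (nat_lit 0x5a0000005a0000005e0000005e0000004c0000004c00000024000000240000001f0000001f0000006a000000000000004e0000004e)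
    (nat_lit 0x14409f042c22213d0a285dc2f215b893448c2ee14409f04f828813c09e051427e1570ac85562b71110b885bc28813c08885002741430a1855c2ae1538adc4d02de13c0b384f02161460a0050c2860f20ab85662b313407905082a413f0a2850c28614c0a005802c01d98e3c4b42e417c0a5851427a1430a1853029815c0b007e23cd10a0bb04ac2aa1590bc855c2ae1600b003c02e81728bd451c1e01670c9055c2ee0f20ab85702c017407806ae2ed1510c3065031c15b89345662b71e68e3c5da2f51790bc84922a71438b0c5562b71598a9c7e23b31ab8b945e42f21598c445562551710bb83c82de1760b906181e01888a9c6683301710b5844424613409a042825a1510a3856624915f0cd050827814409f05482ce1550a5863832412a8b0c4f02d615d08c85bc28814209e04ac2f81940b385562871420b885282ba)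
    (nat_lit 0x1441e00f007803c01e00f007803c01e00f007803c01e004f82883c01e00f007803c01e00f007803c01e00f0078010b09e05007803c01e00f007803c01e00f007803c01e0044427813a0a00f007803c01e00f007803c01e00f0078013d0a2850c28614c1e00f007803c01e00f007803c01e0051427e1430a185002983c01e00f007803c01e00f007801770ab855c1e41600ae03c07803c01e00f007803c01e005e42b21570ab85802c01740780f007803c01e00f0078015b8aac54e2b31d98fc45ca3571791e00f007803c01e0049a2b715b8acc71e3cd17a8bb45e42f23c01e00f0078012308884d026812d085051c2a21248acc6687803c01e005dc2e216f07905c82ec0f00c3054e3111980cd0f007801440b784f028417c095859c3281438aac5c428415d1e004f82881670a9052c2aa1920c7058625516b09e04642ba)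
    (nat_lit 5) (nat_lit 43)
    [[nat_lit 2,nat_lit 17,nat_lit 0x100011,nat_lit 257,nat_lit 258,nat_lit 0x1001,nat_lit 0x10001,nat_lit 0x1010001,
    nat_lit 0x100001,nat_lit 0x100002,nat_lit 0x1100001,nat_lit 0x1000001],[nat_lit 32,nat_lit 272,nat_lit 0x100110,
    nat_lit 0x1010,nat_lit 0x2010,nat_lit 0x101010,nat_lit 0x10010,nat_lit 0x11010,nat_lit 0x110010,nat_lit 0x100010,
    nat_lit 0x200010,nat_lit 0x1100010,nat_lit 0x1000010,nat_lit 0x1001010],[nat_lit 512,nat_lit 0x1100,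
    nat_lit 0x100100,nat_lit 0x1100100,nat_lit 0x1000100],[nat_lit 0x2000,nat_lit 0x3000,nat_lit 0x12000,
    nat_lit 0x102000,nat_lit 0x11000,nat_lit 0x101000,nat_lit 0x1101000,nat_lit 0x111000,nat_lit 0x201000,
    nat_lit 0x1001000],[nat_lit 0x20000,nat_lit 0x110000,nat_lit 0x1110000,nat_lit 0x1010000],[nat_lit 0x200000,
    nat_lit 0x1200000,nat_lit 0x1100000,nat_lit 0x2100000],[nat_lit 0x2000000]]
    [.c (nat_lit 1) (nat_lit 2),.c (nat_lit 0) (nat_lit 0x300c43),.r (nat_lit 0x17b5) (nat_lit 7) [nat_lit 0x6018861,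
    nat_lit 0x10001,nat_lit 0x4000001,nat_lit 0x210001],.c (nat_lit 6) (nat_lit 0x6300802),
    .r (nat_lit 0x1a33) (nat_lit 4) [nat_lit 0x10001,nat_lit 0x200001,nat_lit 0x4000001,nat_lit 0x80000001],
    .c (nat_lit 0) (nat_lit 0x300c43),.r (nat_lit 0x174e) (nat_lit 6) [nat_lit 0x10001,nat_lit 65],
    .c (nat_lit 3) (nat_lit 0x4400003),.r (nat_lit 0x19b8) (nat_lit 5) [nat_lit 0x4000001,nat_lit 0x8231481,
    nat_lit 0xa3010a1,nat_lit 0x6200861],.r (nat_lit 0x17b5) (nat_lit 7) [nat_lit 0xa339062,nat_lit 0x10001,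
    nat_lit 0x4000001,nat_lit 0x210001],.c (nat_lit 1) (nat_lit 0xc02),.c (nat_lit 0) (nat_lit 0x4200003),
    .c (nat_lit 2) (nat_lit 2),.c (nat_lit 4) (nat_lit 0x6518c42),.r (nat_lit 0x1b32) (nat_lit 0) [nat_lit 0xca318841,
    nat_lit 0xc0000001,nat_lit 0x84000001],.c (nat_lit 0) (nat_lit 0x300c43),
    .r (nat_lit 0xdf3) (nat_lit 13) [nat_lit 0x1231a0a1,nat_lit 0x25231a0a1,nat_lit 0x318081,nat_lit 0x220212481],
    .c (nat_lit 3) (nat_lit 0x4400062),.r (nat_lit 0x1b32) (nat_lit 0) [nat_lit 0xc6000861,nat_lit 0xc0000001,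
    nat_lit 0x84000001],.c (nat_lit 6) (nat_lit 0x6300043),.c (nat_lit 4) (nat_lit 0x6300043),
    .c (nat_lit 0) (nat_lit 0x10803),.r (nat_lit 0x1a32) (nat_lit 5) [nat_lit 0x318041,nat_lit 0x220061,
    nat_lit 0x4000001],.c (nat_lit 2) (nat_lit 0xc02),.c (nat_lit 2) (nat_lit 0x10002),
    .r (nat_lit 0x1a33) (nat_lit 4) [nat_lit 0x10001,nat_lit 0x200001,nat_lit 0x4000001,nat_lit 0x80000001],
    .c (nat_lit 3) (nat_lit 2),.r (nat_lit 4) (nat_lit 6) [nat_lit 0x10001,nat_lit 65],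
    .r (nat_lit 0x1989) (nat_lit 2) [nat_lit 0x10061,nat_lit 65,nat_lit 0x4000001],.c (nat_lit 3) (nat_lit 0xc02),
    .c (nat_lit 0) (nat_lit 0x4200003),.c (nat_lit 4) (nat_lit 2),
    .r (nat_lit 0x1671) (nat_lit 13) [nat_lit 0x1a73b0a1,nat_lit 0x35a73b0a1,nat_lit 129,nat_lit 0x330633481],
    .c (nat_lit 1) (nat_lit 0x6519483),.c (nat_lit 3) (nat_lit 0x88108a2),.c (nat_lit 2) (nat_lit 0x4210862),
    .r (nat_lit 0x1b64) (nat_lit 0) [nat_lit 65,nat_lit 0xc0000001,nat_lit 0x6000861],.c (nat_lit 4) (nat_lit 0xc02),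
    .c (nat_lit 2) (nat_lit 0x6300043),.r (nat_lit 0xe17) (nat_lit 11) [nat_lit 0x1252a061,nat_lit 0x420061,
    nat_lit 0x220422441,nat_lit 0x25252a061],.c (nat_lit 0) (nat_lit 0x518c85),.c (nat_lit 5) (nat_lit 2),
    .c (nat_lit 1) (nat_lit 0x4000c02),.c (nat_lit 3) (nat_lit 0x200803),
    .r (nat_lit 0x1b2f) (nat_lit 8) [nat_lit 0x4000061,nat_lit 0x10001,nat_lit 65],.c (nat_lit 6) (nat_lit 2),
    .c (nat_lit 6) (nat_lit 0xc02),.c (nat_lit 0) (nat_lit 0x803),.c (nat_lit 2) (nat_lit 0x10c02),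
    .c (nat_lit 7) (nat_lit 2)]]

/-- nodes -/
noncomputable def rD7k_20_6 : List RJ :=
  [.l (nat_lit 11) (nat_lit 480) (nat_lit 4) (nat_lit 0xb6000000b6000000ba000000ba000000b9000000b9000000bb000000bb000000bd000000bd000000c3000000c3000000d2000000d2) (nat_lit 0x1c0000001c00000018000000180000001900000019000000170000001700000015000000150000000f0000000f0000000000000000)
    (nat_lit 0x1482884f0a814a2843289308e2545384916c2004d0a41402785389b15a2645089f162294560c813c2a0520a214e27c5289914e25c4c8ab1602c05009e144290508a114628c528a51562ac5b0ba1362845089f140280510a2148290550aa1722e4538a514229c520a013c2884e0a412c2a8628b913224c51899144288520a014c2a8560b416633c568651462944f0a2148290530a61482b0638b313e25452897148290530aa1502a05b0ae1ee3145084714a29c4e0a414c298540a81142b88d8e914a124558ab1542a8560b415c2b8440b423a39c588a71562644b0aa1482b0450b61682207c8c31902005d0b01722e4598cf1d2314618e71a4348560b616c2c0628b918e2cc8d8f71f2474650d2)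
    (nat_lit 0x148780f01e03c0780f01e03c0780f01e03c0780510a43c0780f01e03c0780f01e03c0780f01e013c280521e03c0780f01e03c0780f01e03c07805409e144290f01e03c0780f01e03c0780f01e014a29c538a1140780f01e03c0780f01e03c07805089b13e284500a03c0780f01e03c0780f01e00ca2b4528a3144278521e03c0780f01e03c07804989913228c510a2140290f01e03c0780f01e008e284538a5148270530a6150780f01e03c07804a89f12e294520a4154298540a83c0780f01e014e2c44c8ab154258560a416c228441e03c0780248a51562ac550aa1682b0570ae168220f01e016c2b0580b6172314598c71ee3cc7a8f91a4780400c81602e85c8b919e2cc628e91ce30c690d2)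
    (nat_lit 4) (nat_lit 59)
    [[nat_lit 2,nat_lit 0x1001,nat_lit 0x10001,nat_lit 0x100001,nat_lit 0x1100001,nat_lit 0x1000001,nat_lit 0x2000001,
    nat_lit 0x1000011,nat_lit 0x1000101],[nat_lit 32,nat_lit 48,nat_lit 288,nat_lit 0x10020,nat_lit 0x100020,
    nat_lit 0x1000020,nat_lit 272,nat_lit 0x1000110,nat_lit 0x10110,nat_lit 0x100110,nat_lit 0x1010,nat_lit 0x1001010,
    nat_lit 0x10010,nat_lit 0x1010010,nat_lit 0x100010,nat_lit 0x1100010,nat_lit 0x1000010,nat_lit 0x2000010],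
    [nat_lit 512,nat_lit 0x1000200,nat_lit 0x1100,nat_lit 0x1001100,nat_lit 0x10100,nat_lit 0x110100,
    nat_lit 0x1010100,nat_lit 0x100100,nat_lit 0x1100100,nat_lit 0x1000100,nat_lit 0x2000200,nat_lit 0x2000100],
    [nat_lit 0x2000,nat_lit 0x1002000,nat_lit 0x11000,nat_lit 0x111000,nat_lit 0x1011000,nat_lit 0x101000,
    nat_lit 0x1101000,nat_lit 0x1001000,nat_lit 0x2001000],[nat_lit 0x20000,nat_lit 0x110000,nat_lit 0x1010000],
    [nat_lit 0x200000,nat_lit 0x1100000],[nat_lit 0x2000000]]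
    [.c (nat_lit 1) (nat_lit 2),.c (nat_lit 0) (nat_lit 0x33045),.r (nat_lit 0x1ada) (nat_lit 9) [nat_lit 0x22052,
    nat_lit 33,nat_lit 0x330452],.r (nat_lit 0x1b61) (nat_lit 10) [nat_lit 0x202052,nat_lit 0x22052,nat_lit 33],
    .r (nat_lit 0x1af9) (nat_lit 9) [nat_lit 0x320002,nat_lit 0x202002,nat_lit 0x303042],
    .c (nat_lit 0) (nat_lit 0x33045),.r (nat_lit 0x109d) (nat_lit 8) [nat_lit 0x22001,nat_lit 33,nat_lit 0x5001,
    nat_lit 0x330431],.c (nat_lit 0) (nat_lit 0x3304),.c (nat_lit 0) (nat_lit 0x30304),.c (nat_lit 2) (nat_lit 2),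
    .r (nat_lit 0x109e) (nat_lit 10) [nat_lit 0x7d7c42,nat_lit 0x60051,nat_lit 0x66052,nat_lit 33],
    .r (nat_lit 0x109e) (nat_lit 10) [nat_lit 0x9b7c42,nat_lit 0x240051,nat_lit 0x246052,nat_lit 0x320042],
    .c (nat_lit 6) (nat_lit 0x2003),.c (nat_lit 5) (nat_lit 0x2003),
    .r (nat_lit 0x1ac0) (nat_lit 10) [nat_lit 0x432542,nat_lit 0x202542,nat_lit 0x320452],
    .c (nat_lit 1) (nat_lit 0x22405),.r (nat_lit 0x1ac0) (nat_lit 10) [nat_lit 0x202542,nat_lit 0x22542,nat_lit 561],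
    .c (nat_lit 6) (nat_lit 0x22005),.c (nat_lit 5) (nat_lit 0x22005),
    .r (nat_lit 0x1a91) (nat_lit 13) [nat_lit 0x22002,nat_lit 0x230042],.c (nat_lit 1) (nat_lit 0x30245),
    .r (nat_lit 32) (nat_lit 6) [nat_lit 0x220052,nat_lit 33],.r (nat_lit 0x174d) (nat_lit 4) [nat_lit 0x303452,
    nat_lit 0x22002],.r (nat_lit 32) (nat_lit 10) [nat_lit 0x20031,nat_lit 0x230042],
    .r (nat_lit 4) (nat_lit 8) [nat_lit 0x303452,nat_lit 0x22002],.r (nat_lit 0x174f) (nat_lit 1) [nat_lit 0x230042,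
    nat_lit 0x22002],.r (nat_lit 0x1acd) (nat_lit 1) [nat_lit 0x202542,nat_lit 0x426942,nat_lit 0x303431],
    .c (nat_lit 3) (nat_lit 2),.r (nat_lit 0x1ac0) (nat_lit 10) [nat_lit 0x22542,nat_lit 0x342542,nat_lit 0x230452],
    .r (nat_lit 0x1a91) (nat_lit 13) [nat_lit 0x22002,nat_lit 33],.c (nat_lit 1) (nat_lit 0x3245),
    .r (nat_lit 32) (nat_lit 6) [nat_lit 0x200031,nat_lit 0x320042],.c (nat_lit 1) (nat_lit 0x30204),
    .r (nat_lit 0x174d) (nat_lit 4) [nat_lit 0x33452,nat_lit 0x22002],.r (nat_lit 32) (nat_lit 10) [nat_lit 0x220052,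
    nat_lit 33],.r (nat_lit 4) (nat_lit 8) [nat_lit 0x33452,nat_lit 0x22002],
    .r (nat_lit 0x174f) (nat_lit 1) [nat_lit 33,nat_lit 0x22002],.r (nat_lit 2) (nat_lit 1) [nat_lit 34,
    nat_lit 0x22002],.r (nat_lit 0x1acd) (nat_lit 1) [nat_lit 0x22542,nat_lit 0x246942,nat_lit 0x335852],
    .c (nat_lit 4) (nat_lit 2),.r (nat_lit 0x1a91) (nat_lit 13) [nat_lit 0x22002,nat_lit 0x422542],
    .r (nat_lit 10) (nat_lit 4) [nat_lit 33,nat_lit 0x22002],.r (nat_lit 2) (nat_lit 1) [nat_lit 0x33452,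
    nat_lit 0x22002],.r (nat_lit 32) (nat_lit 6) [nat_lit 0x33452,nat_lit 0x242542],
    .r (nat_lit 0x1750) (nat_lit 4) [nat_lit 0x22002,nat_lit 33],.r (nat_lit 32) (nat_lit 10) [nat_lit 0x303452,
    nat_lit 0x422542],.c (nat_lit 0) (nat_lit 0x33045),.r (nat_lit 0x174f) (nat_lit 1) [nat_lit 0x422542,
    nat_lit 0x22002],.c (nat_lit 5) (nat_lit 2),.r (nat_lit 4) (nat_lit 7) [nat_lit 0x220052,nat_lit 33],
    .r (nat_lit 0x1ae4) (nat_lit 13) [nat_lit 0x22002,nat_lit 33,nat_lit 0x330402],.c (nat_lit 6) (nat_lit 2),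
    .r (nat_lit 0x1a91) (nat_lit 1) [nat_lit 33,nat_lit 0x22002],.c (nat_lit 7) (nat_lit 2)],
    .l (nat_lit 13) (nat_lit 0x5a0) (nat_lit 3) (nat_lit 0x25f0000025f000002a8000002a800000292000002b20000025f0000025f000002ab000002ab0000035600000356000002ab000002ab) (nat_lit 0xf7000000f7000000ae000000ae000000a4000000c4000000f7000000f7000000ab000000ab0000000000000000000000ab000000ab)
    (nat_lit 0xb405a03ee1f10dd866c2d01680b406d05d62eb0da05a02d01680d886c42d218f0b405a036816815b8adc2e81b40d887c440c1fa10207903fa2030d287f45502a80fe86943621f710008184081e4104867c3d61fd0e609583fa1ab0c7866c3c81e4100072033619b11c863c5c82a40d08b0c2d21bb10208103b42000dd86ec4e216917f0af840e29f0b405a033e2030dd866c40c19c0d406d038e1f50da05a02d016810487f437619b10008182d01b40d3897c3681680b406d03fa1fd0b4863c3681b410005a05ee2f71000ae03681680f586944e22390b406a05542001558aac2e82c415b8bac4ac2a815f0a904be1f51558bdc5242ac17b8aac56e2eb0e60aa05fc2e40d3871c5562f71940a485ee2ab0da05a03561a514f8b0c2d01681620ae05562ab0ba08b82e81b40fe87f440e1a10da06d02e820017b8bdc400174)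
    (nat_lit 0xb41680b405a02d01680b405a02d01680b405a02d016802d01682d01680b405a02d01680b405a02d01680b405a00fb86c440c5a02d01680b405a02d01680b405a02d016803e21b10fd0818b405a02d01680b405a02d01680b405a00dd85a44082041001680b405a02d01680b405a02d0168033618f0f207903902002d01680b405a02d01680b405a00b405a03fa2090cd86ec40c5a02d01680b405a02d016802d0168101867c3361bb0ce0818b405a02d01680b405a00b406d034a1eb11c89c43501681001680b405a02d016803681680fe87f431e1690da06d02d02002d01680b405a01758adc5501cc1720bf838e1a717b8aac5245a02d016805d62b715409585482be0fa897c5ee2ab1560a48b405a00da05d03fa1fd0d0881c3681b410005d05ee2f70ba16802d01b40d286ac58629f0b405a05702c41558aac45c174)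
    (nat_lit 3) (nat_lit 74)
    [[nat_lit 2,nat_lit 3,nat_lit 0x1002,nat_lit 0x100002,nat_lit 0x1000002,nat_lit 257,nat_lit 0x1101,
    nat_lit 0x100101,nat_lit 0x1000101,nat_lit 0x1001,nat_lit 0x2001,nat_lit 0x101001,nat_lit 0x1001001,
    nat_lit 0x10001,nat_lit 0x11001,nat_lit 0x110001,nat_lit 0x1010001,nat_lit 0x100001,nat_lit 0x1100001,
    nat_lit 0x1000001,nat_lit 0x2000001],[nat_lit 32,nat_lit 0x1010,nat_lit 0x100010],[nat_lit 512,nat_lit 0x1200,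
    nat_lit 0x1000200,nat_lit 0x1100,nat_lit 0x2100,nat_lit 0x11100,nat_lit 0x1001100,nat_lit 0x101100,
    nat_lit 0x10100,nat_lit 0x1010100,nat_lit 0x100100,nat_lit 0x100200,nat_lit 0x110100,nat_lit 0x1100100,
    nat_lit 0x1000100,nat_lit 0x2000100],[nat_lit 0x2000,nat_lit 0x12000,nat_lit 0x1002000,nat_lit 0x11000,
    nat_lit 0x21000,nat_lit 0x111000,nat_lit 0x1011000,nat_lit 0x101000,nat_lit 0x1101000,nat_lit 0x1001000,
    nat_lit 0x2001000],[nat_lit 0x20000,nat_lit 0x1020000,nat_lit 0x110000,nat_lit 0x1110000,nat_lit 0x1010000,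
    nat_lit 0x2010000],[nat_lit 0x200000,nat_lit 0x1100000,nat_lit 0x2100000],[nat_lit 0x2000000,nat_lit 0x3000000]]
    [.c (nat_lit 1) (nat_lit 2),.r (nat_lit 0x1acd) (nat_lit 10) [nat_lit 0x14ad1,nat_lit 0x34751,nat_lit 0x2d919],
    .r (nat_lit 4) (nat_lit 3) [nat_lit 0x1b499,nat_lit 0x12001],.r (nat_lit 4) (nat_lit 8) [nat_lit 0x1b499,
    nat_lit 0x10401],.r (nat_lit 0x1acd) (nat_lit 10) [nat_lit 0x146d1,nat_lit 0x34151,nat_lit 0x2d519],
    .c (nat_lit 1) (nat_lit 0x682),.r (nat_lit 4) (nat_lit 3) [nat_lit 0x18099,nat_lit 0x12001],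
    .r (nat_lit 4) (nat_lit 8) [nat_lit 0x18099,nat_lit 0x10401],.r (nat_lit 0x1acd) (nat_lit 10) [nat_lit 0x120d1,
    nat_lit 0x32551,nat_lit 0x2b119],.r (nat_lit 0x174f) (nat_lit 4) [nat_lit 17,nat_lit 0x12001],
    .r (nat_lit 0x1b2b) (nat_lit 8) [nat_lit 0x12001,nat_lit 0x18611,nat_lit 0x10001],
    .r (nat_lit 0x174d) (nat_lit 13) [nat_lit 0x1b099,nat_lit 0x12001],.r (nat_lit 4) (nat_lit 3) [nat_lit 0x1b099,
    nat_lit 0x12001],.r (nat_lit 0x1750) (nat_lit 13) [nat_lit 0x12001,nat_lit 0x611],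
    .r (nat_lit 4) (nat_lit 12) [nat_lit 0x1b099,nat_lit 0x12001],.r (nat_lit 2) (nat_lit 4) [nat_lit 0x1b499,
    nat_lit 0x12001],.r (nat_lit 0x174d) (nat_lit 4) [nat_lit 0x1b099,nat_lit 0x10401],
    .r (nat_lit 10) (nat_lit 5) [nat_lit 0x12001,nat_lit 0x611],.r (nat_lit 4) (nat_lit 8) [nat_lit 0x1b099,
    nat_lit 0x10401],.c (nat_lit 1) (nat_lit 130),.r (nat_lit 0x1acd) (nat_lit 10) [nat_lit 0x140d1,nat_lit 0x34551,
    nat_lit 0x2d119],.c (nat_lit 2) (nat_lit 2),.r (nat_lit 0x1b61) (nat_lit 1) [nat_lit 0x10019,nat_lit 0x10419,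
    nat_lit 17],.r (nat_lit 0xfd5) (nat_lit 1) [nat_lit 0x18611,nat_lit 0x3899,nat_lit 0x2601,nat_lit 0x10401],
    .c (nat_lit 3) (nat_lit 2),.r (nat_lit 4) (nat_lit 3) [nat_lit 0x1a699,nat_lit 0x12001],
    .r (nat_lit 0x1acd) (nat_lit 10) [nat_lit 0x104d1,nat_lit 0x30951,nat_lit 0x28719],
    .r (nat_lit 0x174f) (nat_lit 4) [nat_lit 0x3411,nat_lit 0x12001],.r (nat_lit 0x1b2b) (nat_lit 8) [nat_lit 0x12001,
    nat_lit 0x1b011,nat_lit 0x10001],.r (nat_lit 4) (nat_lit 12) [nat_lit 0x18699,nat_lit 0x12001],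
    .r (nat_lit 4) (nat_lit 3) [nat_lit 0x18699,nat_lit 0x12001],.r (nat_lit 0x174d) (nat_lit 13) [nat_lit 0x18699,
    nat_lit 0x12001],.r (nat_lit 0x1750) (nat_lit 13) [nat_lit 0x12001,nat_lit 0x3011],
    .r (nat_lit 0x174d) (nat_lit 4) [nat_lit 0x18699,nat_lit 0x10401],.r (nat_lit 10) (nat_lit 5) [nat_lit 0x12001,
    nat_lit 0x3011],.r (nat_lit 4) (nat_lit 8) [nat_lit 0x1a699,nat_lit 0x10401],
    .r (nat_lit 2) (nat_lit 4) [nat_lit 0x18099,nat_lit 0x12001],.r (nat_lit 4) (nat_lit 8) [nat_lit 0x18699,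
    nat_lit 0x10401],.c (nat_lit 1) (nat_lit 0x702),.r (nat_lit 0x1acd) (nat_lit 10) [nat_lit 0x124d1,nat_lit 0x32951,
    nat_lit 0x2b719],.c (nat_lit 4) (nat_lit 2),.r (nat_lit 0x11b9) (nat_lit 3) [nat_lit 0x4001,nat_lit 0x20001,
    nat_lit 0x801,nat_lit 0x2db19],.r (nat_lit 0x1b2b) (nat_lit 8) [nat_lit 0x12001,nat_lit 0x18011,nat_lit 0x10001],
    .r (nat_lit 0x1750) (nat_lit 3) [nat_lit 17,nat_lit 0x10001],.r (nat_lit 0x1a84) (nat_lit 1) [nat_lit 17,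
    nat_lit 0x1b699,nat_lit 0x1b499,nat_lit 0x1a699],.r (nat_lit 2) (nat_lit 1) [nat_lit 0x18699,nat_lit 0x10401],
    .r (nat_lit 4) (nat_lit 12) [nat_lit 0x1b699,nat_lit 0x12001],.r (nat_lit 0x1750) (nat_lit 4) [nat_lit 0x10401,
    nat_lit 17],.r (nat_lit 0x174d) (nat_lit 13) [nat_lit 0x1b699,nat_lit 0x12001],
    .r (nat_lit 0x174f) (nat_lit 4) [nat_lit 0x411,nat_lit 0x12001],.r (nat_lit 4) (nat_lit 3) [nat_lit 0x1b699,
    nat_lit 0x12001],.c (nat_lit 5) (nat_lit 2),.r (nat_lit 0x1920) (nat_lit 4) [nat_lit 0x401,nat_lit 0x2001,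
    nat_lit 0x10001,nat_lit 17],.r (nat_lit 10) (nat_lit 6) [nat_lit 0x10401,nat_lit 17],
    .r (nat_lit 2) (nat_lit 4) [nat_lit 0x1b099,nat_lit 0x12001],.r (nat_lit 0x1750) (nat_lit 13) [nat_lit 0x12001,
    nat_lit 17],.r (nat_lit 0x174d) (nat_lit 4) [nat_lit 0x1b699,nat_lit 0x10401],.c (nat_lit 6) (nat_lit 2),
    .r (nat_lit 10) (nat_lit 5) [nat_lit 0x12001,nat_lit 17],.r (nat_lit 4) (nat_lit 8) [nat_lit 0x1b699,
    nat_lit 0x10401],.c (nat_lit 7) (nat_lit 2),.r (nat_lit 0x1acd) (nat_lit 10) [nat_lit 0x144d1,nat_lit 0x34951,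
    nat_lit 0x2d719]]]

/-- nodes -/
noncomputable def rD7k_20_7 : List RJ :=
  [.l (nat_lit 9) (nat_lit 120) (nat_lit 4) (nat_lit 0x380000002800000030000000300000002a00000036000000300000003000000032000000320000003700000037000000340000002c) (nat_lit 0x10000000000000000800000008000000020000000e0000000800000008000000060000000600000001000000010000000c00000004)
    (nat_lit 0x140e060281b0a860300c0c86e29160b03028100804c1a1008044221389c482c100a05028170885028150a84e2f120b04030140a05c22140a04c2a178bc482c0d0a8442214070442212090522d0f0984c36170b86828170b858301a8d45418100c05028170885028150a89233120b04030140a05c22140a0542a228bc482c110c8542a18090542a160b06231130604418130a85824150a8742c0f8c4682e138a45e2f1a8b45e33188c46c28229144e371789c6a29229243e311b0d86633160b0582c0c098582c170606645140c0482c12090541e120906826199144028)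
    (nat_lit 0x141e0f0783c1e0f0783c1e0f0783c1e070283c1e0f0783c1e0f0783c1e0f0781808050783c1e0f0783c1e0f0783c1e05020140a0f0783c1e0f0783c1e0f0781b0985c2e141e0f0783c1e0f0783c1e0541a1108838283c1e0f0783c1e0f078180805028110b850783c1e0f0783c1e06020140a0442e140a0f0783c1e0f0780c0885426120b0542a161e0f0783c1e06422150a84830150a8582c3c1e0f0781b89c4e2f148d492451887c6c783c1e05227178bc5a35198bc6231140d8f0781609048240f0a84824130d08a33141e0582c160b04c18160b0302e228cc6028)
    (nat_lit 4) (nat_lit 61)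
    [[nat_lit 2,nat_lit 258,nat_lit 0x10002,nat_lit 0x10102,nat_lit 0x20002,nat_lit 257,nat_lit 0x10101,
    nat_lit 0x1000101,nat_lit 0x1010101,nat_lit 0x1001,nat_lit 0x1101,nat_lit 0x11001,nat_lit 0x1001001,
    nat_lit 0x1001101,nat_lit 0x10001,nat_lit 0x20001,nat_lit 0x1010001,nat_lit 0x100001,nat_lit 0x100101,
    nat_lit 0x110001,nat_lit 0x1100001,nat_lit 0x1100101,nat_lit 0x1000001,nat_lit 0x2000001,nat_lit 0x2000101],
    [nat_lit 32,nat_lit 272,nat_lit 0x1000110,nat_lit 0x10010,nat_lit 0x100010,nat_lit 0x1100010,nat_lit 0x1000010],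
    [nat_lit 512,nat_lit 0x1000200,nat_lit 0x1100,nat_lit 0x10100,nat_lit 0x100100,nat_lit 0x1100100,
    nat_lit 0x1000100,nat_lit 0x2000200,nat_lit 0x1001100,nat_lit 0x1010100,nat_lit 0x2000100],[nat_lit 0x2000,
    nat_lit 0x11000,nat_lit 0x101000,nat_lit 0x1101000,nat_lit 0x1001000],[nat_lit 0x20000,nat_lit 0x110000,
    nat_lit 0x1110000,nat_lit 0x1010000],[nat_lit 0x200000,nat_lit 0x1200000,nat_lit 0x1100000,nat_lit 0x2100000],
    [nat_lit 0x2000000]]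
    [.c (nat_lit 1) (nat_lit 2),.c (nat_lit 6) (nat_lit 0x42203),.r (nat_lit 0x1b5d) (nat_lit 13) [nat_lit 0x2300001,
    nat_lit 0x3033201,nat_lit 33],.c (nat_lit 0) (nat_lit 0x30302),.r (nat_lit 4) (nat_lit 8) [nat_lit 0x4500022,
    nat_lit 0x3033201],.r (nat_lit 0x174d) (nat_lit 4) [nat_lit 0x2222031,nat_lit 0x3033201],
    .c (nat_lit 6) (nat_lit 0x42405),.r (nat_lit 4) (nat_lit 2) [nat_lit 0x222031,nat_lit 0x3033201],
    .c (nat_lit 6) (nat_lit 0x22203),.c (nat_lit 1) (nat_lit 0x320002),.c (nat_lit 6) (nat_lit 0x222203),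
    .r (nat_lit 0x1b5d) (nat_lit 13) [nat_lit 0x2300001,nat_lit 0x3033201,nat_lit 0x3200021],
    .r (nat_lit 0x1a9a) (nat_lit 12) [nat_lit 0x3033201,nat_lit 0x2244521,nat_lit 0x333201],
    .c (nat_lit 6) (nat_lit 0x446405),.r (nat_lit 10) (nat_lit 4) [nat_lit 0x2300021,nat_lit 0x3033201],
    .r (nat_lit 0x1b67) (nat_lit 10) [nat_lit 0x3202031,nat_lit 0x3200001,nat_lit 0x333201],
    .c (nat_lit 1) (nat_lit 0x20002),.c (nat_lit 0) (nat_lit 0x44205),.c (nat_lit 1) (nat_lit 0x42203),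
    .r (nat_lit 2) (nat_lit 1) [nat_lit 0x222031,nat_lit 0x3033201],.c (nat_lit 5) (nat_lit 0x33002),
    .c (nat_lit 5) (nat_lit 0x22203),.c (nat_lit 0) (nat_lit 0x44205),
    .r (nat_lit 0x1b2b) (nat_lit 12) [nat_lit 0x3033201,nat_lit 0x2022321,nat_lit 0x333201],
    .r (nat_lit 0x108a) (nat_lit 2) [nat_lit 0x3033201,nat_lit 0x333201,nat_lit 0x2001,nat_lit 0x2242031],
    .c (nat_lit 2) (nat_lit 2),.r (nat_lit 0x1b67) (nat_lit 10) [nat_lit 0x222321,nat_lit 0x3200001,nat_lit 0x333201],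
    .r (nat_lit 0x17c0) (nat_lit 0) [nat_lit 0x3350231,nat_lit 0x5597421,nat_lit 0x4320231,nat_lit 0x4486541],
    .c (nat_lit 6) (nat_lit 0x446454),.r (nat_lit 0x1b3a) (nat_lit 4) [nat_lit 0x3033231,nat_lit 0x333231,nat_lit 33],
    .r (nat_lit 0x1b51) (nat_lit 4) [nat_lit 0x3003231,nat_lit 0x30021,nat_lit 0x303231],
    .c (nat_lit 0) (nat_lit 0x555745),.c (nat_lit 3) (nat_lit 2),.r (nat_lit 0x1a22) (nat_lit 10) [nat_lit 0x3200001,
    nat_lit 0x333201,nat_lit 0x3033021],.r (nat_lit 0x174d) (nat_lit 4) [nat_lit 0x4022031,nat_lit 0x3033201],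
    .c (nat_lit 0) (nat_lit 517),.r (nat_lit 0x1b04) (nat_lit 13) [nat_lit 0x3033201,nat_lit 33],
    .r (nat_lit 4) (nat_lit 8) [nat_lit 0x2022031,nat_lit 0x3033201],.r (nat_lit 0x174f) (nat_lit 1) [nat_lit 33,
    nat_lit 0x3033201],.r (nat_lit 2) (nat_lit 1) [nat_lit 34,nat_lit 0x3033201],
    .r (nat_lit 4) (nat_lit 2) [nat_lit 0x2022031,nat_lit 0x3033201],
    .r (nat_lit 0x174d) (nat_lit 4) [nat_lit 0x2022031,nat_lit 0x3033201],
    .r (nat_lit 0x174d) (nat_lit 4) [nat_lit 0x4042032,nat_lit 0x3033201],.c (nat_lit 4) (nat_lit 2),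
    .r (nat_lit 10) (nat_lit 4) [nat_lit 33,nat_lit 0x3033201],.c (nat_lit 0) (nat_lit 0x404205),
    .c (nat_lit 5) (nat_lit 0x303002),.c (nat_lit 0) (nat_lit 0x404205),.c (nat_lit 5) (nat_lit 2),
    .c (nat_lit 0) (nat_lit 0x4205),.c (nat_lit 0) (nat_lit 0x4205),.c (nat_lit 0) (nat_lit 0x30003),
    .c (nat_lit 6) (nat_lit 2),.c (nat_lit 6) (nat_lit 0x3004),.c (nat_lit 0) (nat_lit 0x2005),
    .c (nat_lit 0) (nat_lit 0x2003),.c (nat_lit 7) (nat_lit 2)],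
    .l (nat_lit 11) (nat_lit 360) (nat_lit 4) (nat_lit 0x7e000000b000000087000000a10000009e0000009e000000a1000000a1000000970000009700000094000000940000009400000094) (nat_lit 0x320000000f0000002900000012000000120000000f0000000f00000019000000190000001c0000001c0000001c0000001c)
    (nat_lit 0xfc130348550d81b03d8890ca1942e05c0c41885807e07821c4f09e1420f44b8971282504a09410e1543c05e1b23683c0780dc1b83586b0d61ac1e0691241e04788f1242484103d10a2144288513c1b0478da1182306d08f10a214410881102084f06c11e3644608c1b423c428661042083408207a2244907811e23c588921100f44288510a2145087b1241e06d0da1482c44408810a2144288512e1941e86e0cc2144403d0fc1b03d87b0de1ec4b8651041b8428851102203f07e0ea1ec4087b1281704286b104220428850f61ec3c0780f01f84a05c10a1ac4108210a2143a87b0f01e03c0781281884286b104208428850f61ec3c07e0fc1e04a06210a1ac3408810a2144086f0f01e03c07e)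
    (nat_lit 0xfc5a0b41682d05a0b41682d05a0b41682d05a02607e2d05a0b41682d05a0b41682d05a0b41680d20f03c1682d05a0b41682d05a0b41682d05a02a8870bc1e0b41682d05a0b41682d05a0b41680d82786c88f1185a0b41682d05a0b41682d05a03609e1b423c4608c2d05a0b41682d05a0b41680f62843c0921b4368589682d05a0b41682d05a04483d0f02484788f1242c4b41682d05a0b41680ca25c3708210a214440880fc5a0b41682d05a0328970dc0f44286607a2203607e2d05a0b41680b825035885104208428850f61d43c1682d05a02e0940d62144408210a2143d87b0f01e0b41680c4250358851101a0428850de2043c0780fc5a0310940d62144108210a2143d87b0fc1e03c07e)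
    (nat_lit 3) (nat_lit 43)
    [[nat_lit 2,nat_lit 17,nat_lit 257,nat_lit 273,nat_lit 0x100101,nat_lit 0x1101,nat_lit 0x1001,nat_lit 0x1001001,
    nat_lit 0x10001,nat_lit 0x110001,nat_lit 0x100001,nat_lit 0x1100001,nat_lit 0x1000001],[nat_lit 32,nat_lit 272,
    nat_lit 528,nat_lit 0x1110,nat_lit 0x10110,nat_lit 0x100110,nat_lit 0x1010,nat_lit 0x1001010,nat_lit 0x10010,
    nat_lit 0x100010,nat_lit 0x1100010,nat_lit 0x1000010],[nat_lit 512,nat_lit 0x1200,nat_lit 0x100200,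
    nat_lit 0x200200,nat_lit 0x1100,nat_lit 0x101100,nat_lit 0x1001100,nat_lit 0x1101100,nat_lit 0x10100,
    nat_lit 0x100100,nat_lit 0x110100,nat_lit 0x200100,nat_lit 0x1100100,nat_lit 0x1200100,nat_lit 0x1000100],
    [nat_lit 0x2000,nat_lit 0x101000,nat_lit 0x1101000,nat_lit 0x2101000,nat_lit 0x1001000,nat_lit 0x2001000],
    [nat_lit 0x20000,nat_lit 0x1010000],[nat_lit 0x200000,nat_lit 0x1200000,nat_lit 0x1100000,nat_lit 0x2200000,
    nat_lit 0x2100000],[nat_lit 0x2000000]]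
    [.c (nat_lit 1) (nat_lit 2),.c (nat_lit 0) (nat_lit 0x26d3),.r (nat_lit 0x1750) (nat_lit 6) [nat_lit 0x2001,
    nat_lit 17],.r (nat_lit 2) (nat_lit 3) [nat_lit 0x3099,nat_lit 0x2001],
    .r (nat_lit 0x174d) (nat_lit 3) [nat_lit 0x3699,nat_lit 0x2401],.r (nat_lit 0x174d) (nat_lit 3) [nat_lit 0x3099,
    nat_lit 0x2401],.r (nat_lit 0x1b04) (nat_lit 0) [nat_lit 0x2001,nat_lit 17],
    .r (nat_lit 4) (nat_lit 7) [nat_lit 0x3099,nat_lit 0x2001],.r (nat_lit 0x1a62) (nat_lit 7) [nat_lit 0x2401,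
    nat_lit 0x136a9,nat_lit 17],.c (nat_lit 0) (nat_lit 0x602),.r (nat_lit 0x1b04) (nat_lit 0) [nat_lit 0x2001,
    nat_lit 0x411],.r (nat_lit 4) (nat_lit 7) [nat_lit 0x3699,nat_lit 0x2001],.r (nat_lit 10) (nat_lit 3) [nat_lit 17,
    nat_lit 0x2401],.c (nat_lit 2) (nat_lit 2),.r (nat_lit 10) (nat_lit 13) [nat_lit 0x2001,nat_lit 17],
    .r (nat_lit 2) (nat_lit 3) [nat_lit 0x1b49a,nat_lit 0x2001],.r (nat_lit 4) (nat_lit 5) [nat_lit 0x3099,
    nat_lit 0x2401],.r (nat_lit 0x15c7) (nat_lit 3) [nat_lit 0x1f6a1,nat_lit 0x20699,nat_lit 0x18699,nat_lit 0x164d1],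
    .r (nat_lit 4) (nat_lit 5) [nat_lit 0x3699,nat_lit 0x2401],.r (nat_lit 0x1b04) (nat_lit 6) [nat_lit 0x2401,
    nat_lit 0x611],.r (nat_lit 0x174d) (nat_lit 6) [nat_lit 0x3099,nat_lit 0x2001],
    .r (nat_lit 0x1b3b) (nat_lit 11) [nat_lit 0x2019,nat_lit 0x2419,nat_lit 17],
    .r (nat_lit 0x1b04) (nat_lit 6) [nat_lit 0x2401,nat_lit 17],.r (nat_lit 0x174d) (nat_lit 6) [nat_lit 0x3699,
    nat_lit 0x2001],.r (nat_lit 0x1750) (nat_lit 3) [nat_lit 0x2401,nat_lit 17],.c (nat_lit 3) (nat_lit 2),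
    .r (nat_lit 0x1a83) (nat_lit 8) [nat_lit 0x20d1,nat_lit 0x6551,nat_lit 0x5119],
    .r (nat_lit 0x1a83) (nat_lit 8) [nat_lit 0x24d1,nat_lit 0x6951,nat_lit 0x5719],
    .r (nat_lit 2) (nat_lit 8) [nat_lit 18,nat_lit 0x2401],.c (nat_lit 0) (nat_lit 0x3695),
    .r (nat_lit 0x1a3a) (nat_lit 11) [nat_lit 0x20d1,nat_lit 0x24d1,nat_lit 153],.c (nat_lit 1) (nat_lit 0x20c2),
    .r (nat_lit 0x1b3c) (nat_lit 6) [nat_lit 0x601,nat_lit 0x10011,nat_lit 0x2401],
    .r (nat_lit 0x1b67) (nat_lit 3) [nat_lit 0x2419,nat_lit 0x2019,nat_lit 17],.c (nat_lit 0) (nat_lit 0x36d5),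
    .c (nat_lit 0) (nat_lit 0x602),.r (nat_lit 0x1a3a) (nat_lit 11) [nat_lit 0x24d1,nat_lit 0x28d1,nat_lit 0x699],
    .c (nat_lit 1) (nat_lit 0x2002),.r (nat_lit 0x1b3c) (nat_lit 6) [nat_lit 0x601,nat_lit 0x10411,nat_lit 0x2401],
    .c (nat_lit 0) (nat_lit 0x36d5),.c (nat_lit 4) (nat_lit 2),.c (nat_lit 4) (nat_lit 130),
    .r (nat_lit 0x1a3a) (nat_lit 3) [nat_lit 0x24d1,nat_lit 0x20d1,nat_lit 153],
    .r (nat_lit 2) (nat_lit 3) [nat_lit 0x412,nat_lit 0x2001],.c (nat_lit 0) (nat_lit 0x3695),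
    .r (nat_lit 0x11e2) (nat_lit 4) [nat_lit 17,nat_lit 0xa01,nat_lit 0x4801,nat_lit 0x1b499],
    .c (nat_lit 5) (nat_lit 2),.r (nat_lit 0x1b67) (nat_lit 11) [nat_lit 0x2019,nat_lit 0x2419,nat_lit 17],
    .c (nat_lit 6) (nat_lit 2),.r (nat_lit 0x1a3a) (nat_lit 3) [nat_lit 0x28d1,nat_lit 0x24d1,nat_lit 0x699],
    .c (nat_lit 0) (nat_lit 0x36d5),.r (nat_lit 2) (nat_lit 3) [nat_lit 0x812,nat_lit 0x2001],
    .r (nat_lit 0x11e2) (nat_lit 4) [nat_lit 0x411,nat_lit 0xa01,nat_lit 0x4801,nat_lit 0x1b099],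
    .c (nat_lit 7) (nat_lit 2)],
    .l (nat_lit 13) (nat_lit 0x5a0) (nat_lit 4) (nat_lit 0x2940000025000000285000001d1000002410000024100000250000002500000024e0000024e00000204000002280000027700000277) (nat_lit 0x4400000000000000c30000000f0000005300000053000000440000004400000046000000460000006c000000900000001d0000001d)
    (nat_lit 0x1310a503a21e91208904284270127093852412013b8b443dc2620ab89043fa1b510f083041420a10f064059e32912087a441429411909a048224113788b42461f512b08b82ae1d1090082832417e0c6862430a18b0b2850436815a0da89042fc2680f907703fa1e90fd87ec45e1b711208903fa2410c908c83741f20fe87f43ee1b50fb873440823810609c03122410fe87a44a42400f708283a01c4119884443c1420c689043fa1fd106094841420a0c50758466223105093831622d0da87ec41420a0f908203e41be19f8a2c41424e0c289bc3ee1fb10507b84101f211a06f862a2610c804802821f50e686dc3ac1c40df06f82d01740f3865443c2920b2848c3ee22f0c507404681f20de05a036220b1948b442b422e11c08904462111308a2c4161950f8096859e2770da095840822411988cc62a33f0d8879c4b41f0)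
    (nat_lit 0x1311680b405a02d01680b405a02d01680b405a02d016805282622d01680b405a02d01680b405a02d01680b405a00e8855c4145a02d01680b405a02d01680b405a02d016803d224114a0828b405a02d01680b405a02d01680b405a012087f44641920f91680b405a02d01680b405a02d016804821b513405f83b81f22d01680b405a02d01680b405a00a1087848218d0fe87f44a45a02d01680b405a02d016804e020c12086243d21fd1200948b405a02d01680b405a012708284de1850fd87dc3dc20a0f91680b405a02d0168049c20a116862c3f61b510508284101f22d01680b405a0149087824616511787dc3a018a0f908d02d05a02d016802401900fa850436e1cd0e2075837c1be0ba05a0b405a013b8b3c4ac1b4112081046623319f8c543ce1b10f816805a23291170568448238108888c5162610ca882c4b41f0)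
    (nat_lit 4) (nat_lit 79)
    [[nat_lit 2,nat_lit 18,nat_lit 17,nat_lit 33,nat_lit 0x1011,nat_lit 0x100011,nat_lit 0x1001,nat_lit 0x10001,
    nat_lit 0x100001],[nat_lit 32,nat_lit 48,nat_lit 0x100030,nat_lit 288,nat_lit 0x1020,nat_lit 0x10020,
    nat_lit 0x100020,nat_lit 0x1100020,nat_lit 0x1000020,nat_lit 272,nat_lit 0x100110,nat_lit 0x1000110,
    nat_lit 0x1010,nat_lit 0x1110,nat_lit 0x11010,nat_lit 0x101010,nat_lit 0x1001010,nat_lit 0x10010,
    nat_lit 0x1010010,nat_lit 0x110010,nat_lit 0x100010,nat_lit 0x200020,nat_lit 0x1101010,nat_lit 0x1110010,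
    nat_lit 0x200010,nat_lit 0x1100010,nat_lit 0x1000010],[nat_lit 512,nat_lit 0x1100,nat_lit 0x1001100,
    nat_lit 0x10100,nat_lit 0x20100,nat_lit 0x100100,nat_lit 0x1100100,nat_lit 0x1000100],[nat_lit 0x2000,
    nat_lit 0x11000,nat_lit 0x101000,nat_lit 0x1101000,nat_lit 0x1001000,nat_lit 0x1011000],[nat_lit 0x20000,
    nat_lit 0x30000,nat_lit 0x110000,nat_lit 0x1110000,nat_lit 0x1010000],[nat_lit 0x200000,nat_lit 0x1200000,
    nat_lit 0x1100000],[nat_lit 0x2000000]]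
    [.c (nat_lit 1) (nat_lit 2),.c (nat_lit 0) (nat_lit 0x25002),.r (nat_lit 0x174d) (nat_lit 4) [nat_lit 0x303231,
    nat_lit 33],.r (nat_lit 0x1764) (nat_lit 9) [nat_lit 0x3001,nat_lit 0x33021,nat_lit 0x22001,nat_lit 0x204001],
    .c (nat_lit 6) (nat_lit 0x30323),.c (nat_lit 4) (nat_lit 0x30323),.r (nat_lit 2) (nat_lit 5) [nat_lit 0x303231,
    nat_lit 0x20001],.r (nat_lit 0x1b19) (nat_lit 10) [nat_lit 0x22031,nat_lit 33,nat_lit 0x230021],
    .r (nat_lit 0x19de) (nat_lit 1) [nat_lit 0x20031,nat_lit 33,nat_lit 0x250041],.c (nat_lit 2) (nat_lit 2),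
    .r (nat_lit 0xf77) (nat_lit 9) [nat_lit 0x60c001,nat_lit 0x7ddc51,nat_lit 0x600001,nat_lit 0x7c0001],
    .r (nat_lit 0xf78) (nat_lit 9) [nat_lit 0x408001,nat_lit 0x7ddc51,nat_lit 0x400001,nat_lit 0x580001],
    .r (nat_lit 0xf79) (nat_lit 13) [nat_lit 0x580001,nat_lit 0x400001,nat_lit 0x395851,nat_lit 0x408001],
    .r (nat_lit 0xf7a) (nat_lit 13) [nat_lit 0x340001,nat_lit 0x200001,nat_lit 0x355431,nat_lit 0x204001],
    .r (nat_lit 0x174d) (nat_lit 4) [nat_lit 0x355432,nat_lit 0x340022],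
    .r (nat_lit 0x1a22) (nat_lit 9) [nat_lit 0x3001,nat_lit 0x22001,nat_lit 0x20321],
    .r (nat_lit 0xf7b) (nat_lit 3) [nat_lit 0x408001,nat_lit 0x300041,nat_lit 0x580001,nat_lit 0x400001],
    .r (nat_lit 0xf79) (nat_lit 13) [nat_lit 0x580001,nat_lit 0x400001,nat_lit 0x399851,nat_lit 0x408001],
    .r (nat_lit 0x1a91) (nat_lit 4) [nat_lit 0x20001,nat_lit 33],.r (nat_lit 4) (nat_lit 11) [nat_lit 0x30231,
    nat_lit 0x20001],.r (nat_lit 0xf7c) (nat_lit 12) [nat_lit 0x505041,nat_lit 0x204001,nat_lit 0x250451,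
    nat_lit 0x200001],.c (nat_lit 0) (nat_lit 0x35545),.r (nat_lit 8) (nat_lit 8) [nat_lit 0x30231,nat_lit 0x22001],
    .r (nat_lit 0x1b51) (nat_lit 1) [nat_lit 0x33231,nat_lit 0x42321,nat_lit 0x30231],
    .c (nat_lit 1) (nat_lit 0x30323),.r (nat_lit 8) (nat_lit 8) [nat_lit 0x33231,nat_lit 0x22001],
    .r (nat_lit 0x1b04) (nat_lit 4) [nat_lit 0x20001,nat_lit 33],.r (nat_lit 0x174d) (nat_lit 4) [nat_lit 0x33231,
    nat_lit 0x320021],.r (nat_lit 4) (nat_lit 13) [nat_lit 0x30231,nat_lit 0x20001],.c (nat_lit 0) (nat_lit 0x35545),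
    .r (nat_lit 2) (nat_lit 5) [nat_lit 34,nat_lit 0x20001],.c (nat_lit 5) (nat_lit 0x3323),
    .c (nat_lit 4) (nat_lit 0x3323),.r (nat_lit 0x1b11) (nat_lit 5) [nat_lit 0x3001,nat_lit 0x22001,nat_lit 0x20321],
    .r (nat_lit 4) (nat_lit 11) [nat_lit 0x33231,nat_lit 0x20001],.r (nat_lit 0x1a91) (nat_lit 4) [nat_lit 0x20001,
    nat_lit 0x2021],.c (nat_lit 3) (nat_lit 2),.r (nat_lit 10) (nat_lit 1) [nat_lit 33,nat_lit 0x20001],
    .r (nat_lit 0x1b5d) (nat_lit 4) [nat_lit 0x2001,nat_lit 0x20001,nat_lit 0x3021],.c (nat_lit 0) (nat_lit 0x20403),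
    .r (nat_lit 0x1b19) (nat_lit 10) [nat_lit 0x204031,nat_lit 0x323021,nat_lit 0x3021],
    .r (nat_lit 0x1b04) (nat_lit 2) [nat_lit 0x20001,nat_lit 33],.r (nat_lit 0x1a9a) (nat_lit 2) [nat_lit 0x20001,
    nat_lit 0x53021,nat_lit 0x22001],.c (nat_lit 1) (nat_lit 0x4203),.c (nat_lit 4) (nat_lit 2),
    .r (nat_lit 10) (nat_lit 3) [nat_lit 0x20001,nat_lit 33],.c (nat_lit 0) (nat_lit 0x35545),
    .r (nat_lit 0x1b14) (nat_lit 8) [nat_lit 0x33231,nat_lit 0x226321,nat_lit 0x222321,nat_lit 0x323231],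
    .r (nat_lit 10) (nat_lit 1) [nat_lit 0x2021,nat_lit 0x20001],.r (nat_lit 2) (nat_lit 5) [nat_lit 0x33231,
    nat_lit 0x20001],.c (nat_lit 5) (nat_lit 2),.r (nat_lit 0x1b19) (nat_lit 10) [nat_lit 0x204032,nat_lit 0x340022,
    nat_lit 0x200022],.r (nat_lit 0x1750) (nat_lit 6) [nat_lit 33,nat_lit 0x22001],
    .r (nat_lit 0x19de) (nat_lit 1) [nat_lit 0x200031,nat_lit 0x320021,nat_lit 0x300041],
    .c (nat_lit 0) (nat_lit 0x20005),.c (nat_lit 6) (nat_lit 2),.r (nat_lit 0x1b2b) (nat_lit 2) [nat_lit 0x20001,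
    nat_lit 0x30021,nat_lit 0x22001],.r (nat_lit 0x1b04) (nat_lit 2) [nat_lit 0x20001,nat_lit 0x2021],
    .c (nat_lit 7) (nat_lit 2)]]

/-- nodes -/
noncomputable def rD7k_20_8 : List RJ :=
  [.l (nat_lit 15) (nat_lit 0x13b0) (nat_lit 4) (nat_lit 0x713000007130000072c00000738000007b2000007b20000077300000773000007b2000007b20000076f0000076f000006ff000006ff) (nat_lit 0x9f0000009f0000007a0000008600000000000000000000003f0000003f00000000000000000000004300000043000000b3000000b3)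
    (nat_lit 0xd701a1833686d10e261c4c3a906d40cae1a542ac06520cc01a5833a06b80d3a1a342f8865313141ce82ab86910f201b4030e05a00d1a1b443b906a60d8c1ca03b7880f0e5811d83d488a50c6a16e434e866d0f841dc839c07380a1a1ff431f07380d260d2434286850ca61c4c39c07280d5c1ab83b9877316bc26783b788690e561d842f887130e701b183d906ae0ee61dcc50908540ede201c37f86ff0e741b503fe880f0ee61dcc34907340db61dcc39804d00d801b004c507520a1a1dbc3b987730dc81a483b987730c481c7839f06c00d221a5439c047610a826783b987730f8820083b7876f0d02202c2ab86570c7c1cb05090b5e0ee61b6c3d907c40ede1dbc3be856d0da019481a488a5100e21a438f04d00ede1dbc45f072c0ef01af03c805580d261ea43b7876f0c481cc03b7876f0f8822f834306bc0b401a5834285b90dfe1d8436006c00ada202c35e06bc0f8816d030e06600d0a18d437f872b0e7c1b003be86810d0c1de031d07c4)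
    (nat_lit 0xd704ec09d813b027604ec09d813b027604ec09d813b027604ec034306b827604ec09d813b027604ec09d813b027604ec09d813b00cda1a743b913b027604ec09d813b027604ec09d813b027604ec0368868d0d4c1dc89d813b027604ec09d813b027604ec09d813b00e2617c436307380d5c4ec09d813b027604ec09d813b027604ec038986530e501ce035706ae27604ec09d813b027604ec09d813b00ea426283b7850d0ee61dcc34913b027604ec09d813b027604ec036a073a101e1ff43b987730e681a489d813b027604ec09d813b00cae155c396063e16bc284836d87730f884ec09d813b027604ec034a869108ec1ce04cf08540ee61dcc40107c427604ec09d813b00ab01e403d486930ede1dbc39806240ede1dbc45f13b027604ec032906d0114a0d24434880709a01c783b7876f0e5822f89d813b00cc0187031a86850e561bfc360073e0d021df43bc06860f884ec034b05a00b721a143b086ff0d801b00405856d0d781af02da07c4)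
    (nat_lit 4) (nat_lit 79)
    [[nat_lit 2,nat_lit 0x100002,nat_lit 0x1000002,nat_lit 17,nat_lit 0x1000011,nat_lit 273,nat_lit 0x1011,
    nat_lit 0x100011,nat_lit 257,nat_lit 0x100101,nat_lit 0x1000101,nat_lit 0x1001,nat_lit 0x1101,nat_lit 0x101001,
    nat_lit 0x10001,nat_lit 0x100001,nat_lit 0x1100001,nat_lit 0x1000001,nat_lit 0x2000001],[nat_lit 32,nat_lit 272,
    nat_lit 0x100110,nat_lit 0x1000110,nat_lit 0x1010,nat_lit 0x2010,nat_lit 0x101010,nat_lit 0x10010,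
    nat_lit 0x110010,nat_lit 0x100010,nat_lit 0x200010,nat_lit 0x1100010,nat_lit 0x1000010,nat_lit 0x1100110,
    nat_lit 0x2000010],[nat_lit 512,nat_lit 0x100200,nat_lit 0x1100,nat_lit 0x101100,nat_lit 0x100100,
    nat_lit 0x200100,nat_lit 0x1100100,nat_lit 0x1000100,nat_lit 0x2000100,nat_lit 0x1001100],[nat_lit 0x2000,
    nat_lit 0x102000,nat_lit 0x11000,nat_lit 0x101000,nat_lit 0x111000,nat_lit 0x1101000,nat_lit 0x1001000],
    [nat_lit 0x20000,nat_lit 0x110000,nat_lit 0x1110000,nat_lit 0x1010000,nat_lit 0x2010000],[nat_lit 0x200000,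
    nat_lit 0x1100000],[nat_lit 0x2000000]]
    [.c (nat_lit 1) (nat_lit 2),.r (nat_lit 0x1b2b) (nat_lit 5) [nat_lit 0x3021,nat_lit 0x202031,nat_lit 0x20001],
    .c (nat_lit 0) (nat_lit 0x200203),.c (nat_lit 0) (nat_lit 0x200203),.c (nat_lit 0) (nat_lit 0x200203),
    .r (nat_lit 966) (nat_lit 13) [nat_lit 0x2024031,nat_lit 0x5259041,nat_lit 0x3001,nat_lit 0x2326251,
    nat_lit 0x22001],.c (nat_lit 7) (nat_lit 0x22032),.r (nat_lit 0x17b1) (nat_lit 4) [nat_lit 0x30231,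
    nat_lit 0x20001,nat_lit 0x200001,nat_lit 0x2000001],.c (nat_lit 0) (nat_lit 0x2203),
    .c (nat_lit 4) (nat_lit 0x300023),.r (nat_lit 0x1b2b) (nat_lit 5) [nat_lit 0x242051,nat_lit 0x53041,
    nat_lit 0x20001],.c (nat_lit 0) (nat_lit 0x35045),.c (nat_lit 6) (nat_lit 0x300023),
    .c (nat_lit 3) (nat_lit 0x300023),.r (nat_lit 0x1896) (nat_lit 2) [nat_lit 0x62051,nat_lit 0x2021,nat_lit 0x3041,
    nat_lit 0x662721],.r (nat_lit 8) (nat_lit 4) [nat_lit 0x3000231,nat_lit 33],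
    .r (nat_lit 0x1b2b) (nat_lit 5) [nat_lit 0x303041,nat_lit 0x402051,nat_lit 0x20001],
    .c (nat_lit 0) (nat_lit 0x200205),.c (nat_lit 4) (nat_lit 0x333322),.c (nat_lit 2) (nat_lit 2),
    .r (nat_lit 0x1b6a) (nat_lit 8) [nat_lit 0x20031,nat_lit 33,nat_lit 0x2030021],
    .r (nat_lit 967) (nat_lit 9) [nat_lit 0x66001,nat_lit 0x3332651,nat_lit 0x7001,nat_lit 0x5259041,
    nat_lit 0x2224031],.c (nat_lit 3) (nat_lit 0x302002),.c (nat_lit 0) (nat_lit 0x35045),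
    .r (nat_lit 0x1877) (nat_lit 9) [nat_lit 0x2442521,nat_lit 0x5395851,nat_lit 0x20001,nat_lit 0x45b3431],
    .r (nat_lit 8) (nat_lit 6) [nat_lit 0x30231,nat_lit 0x20001],.c (nat_lit 0) (nat_lit 0x455349),
    .r (nat_lit 0x1877) (nat_lit 9) [nat_lit 0x2200031,nat_lit 0x5200041,nat_lit 0x20001,nat_lit 0x4370021],
    .r (nat_lit 968) (nat_lit 3) [nat_lit 0x5540041,nat_lit 0x500041,nat_lit 0x2202031,nat_lit 0x400001,
    nat_lit 0x4400051],.r (nat_lit 970) (nat_lit 7) [nat_lit 0x4800051,nat_lit 0x400001,nat_lit 0x2402031,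
    nat_lit 0x900041,nat_lit 0x5940041],.r (nat_lit 8) (nat_lit 6) [nat_lit 0x2202032,nat_lit 0x20001],
    .c (nat_lit 0) (nat_lit 0x200203),.c (nat_lit 0) (nat_lit 0x233002),
    .r (nat_lit 0x1b19) (nat_lit 0) [nat_lit 0x2000031,nat_lit 0x3020021,nat_lit 33],.c (nat_lit 3) (nat_lit 2),
    .c (nat_lit 0) (nat_lit 0x435002),.r (nat_lit 0x174d) (nat_lit 8) [nat_lit 0x3000231,nat_lit 33],
    .c (nat_lit 1) (nat_lit 0x300023),.r (nat_lit 8) (nat_lit 6) [nat_lit 0x222032,nat_lit 0x20001],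
    .c (nat_lit 4) (nat_lit 0x503343),.c (nat_lit 0) (nat_lit 0x233002),
    .r (nat_lit 0x1b19) (nat_lit 0) [nat_lit 0x20031,nat_lit 33,nat_lit 0x2030021],
    .r (nat_lit 0x1b2b) (nat_lit 5) [nat_lit 0x220031,nat_lit 0x30021,nat_lit 0x20001],
    .r (nat_lit 969) (nat_lit 2) [nat_lit 0x5200451,nat_lit 0xc704981,nat_lit 0x8544981,nat_lit 0x9255851,
    nat_lit 0x9405891],.c (nat_lit 4) (nat_lit 2),.r (nat_lit 8) (nat_lit 6) [nat_lit 0x4244522,nat_lit 0x20001],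
    .r (nat_lit 0xfc4) (nat_lit 9) [nat_lit 0x3020231,nat_lit 0x3030221,nat_lit 0x2020321,nat_lit 0x200001],
    .c (nat_lit 1) (nat_lit 0x202232),.r (nat_lit 0x109c) (nat_lit 6) [nat_lit 0x353431,nat_lit 0x22001,
    nat_lit 0x200001,nat_lit 0x20001],.r (nat_lit 8) (nat_lit 6) [nat_lit 0x2022321,nat_lit 0x20001],
    .r (nat_lit 0x137a) (nat_lit 4) [nat_lit 0x200001,nat_lit 0x4300001,nat_lit 0x300041,nat_lit 0x5240001],
    .c (nat_lit 5) (nat_lit 2),.r (nat_lit 0x1b2b) (nat_lit 5) [nat_lit 33,nat_lit 0x200031,nat_lit 0x20001],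
    .r (nat_lit 0x1b19) (nat_lit 0) [nat_lit 0x300021,nat_lit 0x220031,nat_lit 0x2200031],
    .c (nat_lit 0) (nat_lit 0x200003),.r (nat_lit 8) (nat_lit 6) [nat_lit 0x2022,nat_lit 0x20001],
    .c (nat_lit 6) (nat_lit 2),.c (nat_lit 0) (nat_lit 0x20005),.c (nat_lit 7) (nat_lit 2)],
    .l (nat_lit 16) (nat_lit 0x2760) (nat_lit 3) (nat_lit 0x10820000108200000f9a00000f7200001004000010040000102100000da100000eb100000eb100000ece00000ece00000e8a00000e8a) (nat_lit 0x110000000e80000007e0000007e000002e100000061000001d1000001d1000001b4000001b4000001f8000001f8)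
    (nat_lit 0x10820ed8106e0f9a12aa11fc0ec310210eb10cb90b2c0df80e8a0ec4108210820f720f9a156414b60d1910210d410f390f1c0ece0e8a0d1a0f9a0f9a09d80eb20f1c0f1c0c3109d90dc90e510f560f560da20d540f72106e0e6209d80ef40ef40c910f110da10c310e320e320b820d7a14b611fc0ef40f1c0f860f860e930fa30dbf0e330e500e500d100d98156412aa0ef40f1c0f380f860e930fa30e330de50e500e500e0c0e0c102110210f1109d90fa30fa30d8e100e0e500ce00e6d0e6d0b830e290d190ec30c910c310e930e930a860d8e09d80bd00bed0b650da10ba90f390cb90c310e510de50e330bd00ce00d680d1a0cfd0ef50b970cb90d410eb10da10dc90e330dbf09d80e500ce00d680d4b0cfd0d8f0c6b0ece0df80e320f560e500e500b650e6d0cfd0ef50d680d1a0cd60c880f1c0b2c0e320f560e500e500bed0e6d0d4b0cfd0b700d680c9c0cd60d1a0ec40d7a0d540e0c0d980ba90e290c6b0cb90cd60c8810340e3c0e8a0e8a0b820da20e0c0d100da10b830d8f0b970c9c0cd60e3c1034)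
    (nat_lit 0x108227602760276027602760276027602760276027602760276027600ed81082276027602760276027602760276027602760276027602760106e0f7209d8276027602760276027602760276027602760276027600f9a0f9a0eb209d8276027602760276027602760276027602760276012aa15640f1c0ef40f8627602760276027602760276027602760276011fc14b60f1c0ef40f860f86276027602760276027602760276027600ec30d190c310c910e930e930d8e27602760276027602760276027601021102109d90f110fa30fa3100e0d8e2760276027602760276027600eb10d410dc90da10dbf0e330e5009d80d68276027602760276027600cb90f390e510c310e330de50ce00bd00d1a0d6827602760276027600b2c0f1c0f560e320e500e500e6d0bed0cfd0d4b0d682760276027600df80ece0f560e320e500e500e6d0b650ef50cfd0d1a0d68276027600e8a0e8a0da20b820d100e0c0b830da10b970d8f0cd60c9c103427600ec40d1a0d540d7a0d980e0c0e290ba90cb90c6b0c880cd60e3c1034)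
    (nat_lit 7) (nat_lit 59)
    [[nat_lit 2,nat_lit 17,nat_lit 33,nat_lit 273,nat_lit 0x1011,nat_lit 0x1000011,nat_lit 257,nat_lit 513,
    nat_lit 0x1101,nat_lit 0x100101,nat_lit 0x1001,nat_lit 0x2001,nat_lit 0x101001,nat_lit 0x10001,nat_lit 0x100001,
    nat_lit 0x200001,nat_lit 0x1000001],[nat_lit 32,nat_lit 48,nat_lit 0x1020,nat_lit 272,nat_lit 0x1110,
    nat_lit 0x1010,nat_lit 0x101010,nat_lit 0x10010,nat_lit 0x100010,nat_lit 0x1000010,nat_lit 0x1001010],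
    [nat_lit 512,nat_lit 0x1200,nat_lit 0x1100,nat_lit 0x2100,nat_lit 0x101100,nat_lit 0x1001100,nat_lit 0x10100,
    nat_lit 0x100100,nat_lit 0x200100,nat_lit 0x1000100],[nat_lit 0x2000,nat_lit 0x102000,nat_lit 0x11000,
    nat_lit 0x101000,nat_lit 0x201000,nat_lit 0x1001000],[nat_lit 0x20000,nat_lit 0x110000],[nat_lit 0x200000,
    nat_lit 0x300000,nat_lit 0x1100000],[nat_lit 0x2000000]]
    [.c (nat_lit 1) (nat_lit 2),.c (nat_lit 6) (nat_lit 0x3060000a),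
    .r (nat_lit 0x174c) (nat_lit 13) [nat_lit 0x400001,nat_lit 0x345057af148f,nat_lit 0x82800000505],
    .r (nat_lit 0x174c) (nat_lit 13) [nat_lit 0x400001,nat_lit 0x101852855405,nat_lit 0x140023e78f85],
    .r (nat_lit 0x174c) (nat_lit 13) [nat_lit 0x400001,nat_lit 0x103042a51485,nat_lit 0x143850000f05],
    .r (nat_lit 0x1943) (nat_lit 4) [nat_lit 0x400001,nat_lit 0x20000001,nat_lit 0x1000000001,nat_lit 0x80000000001],
    .c (nat_lit 0) (nat_lit 0x183002c50b),.r (nat_lit 0x174c) (nat_lit 13) [nat_lit 0x400001,nat_lit 0x1430d2a51419,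
    nat_lit 0xc6847af0f99],.r (nat_lit 0x174c) (nat_lit 13) [nat_lit 0x400001,nat_lit 0x3410d2a5140f,
    nat_lit 0x81821628585],.c (nat_lit 4) (nat_lit 0x202002858a),.c (nat_lit 0) (nat_lit 0x100080000b),
    .r (nat_lit 0x174c) (nat_lit 13) [nat_lit 0x400001,nat_lit 0x5418d2a51405,nat_lit 0x380080000f85],
    .c (nat_lit 2) (nat_lit 0x182060000a),.r (nat_lit 0x1a56) (nat_lit 4) [nat_lit 0x600101,nat_lit 0x80042800a85,
    nat_lit 0x400001,nat_lit 0x1095201405],.c (nat_lit 0) (nat_lit 0x387047cf29),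
    .r (nat_lit 0x1943) (nat_lit 4) [nat_lit 0x400001,nat_lit 0x20000001,nat_lit 0x1000000001,nat_lit 0x80000000001],
    .r (nat_lit 0x1b5d) (nat_lit 2) [nat_lit 0x400181,nat_lit 257,nat_lit 0x80040000005],.c (nat_lit 2) (nat_lit 2),
    .r (nat_lit 0x174c) (nat_lit 13) [nat_lit 0x400001,nat_lit 0x142052a50585,nat_lit 0x209880000f14],
    .r (nat_lit 0x174c) (nat_lit 13) [nat_lit 0x400001,nat_lit 0x3052a50a85,nat_lit 0xc6840000f0a],
    .c (nat_lit 4) (nat_lit 0x300042858a),.r (nat_lit 0x174c) (nat_lit 13) [nat_lit 0x400001,nat_lit 0x141800000a05,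
    nat_lit 0x100033e78f8a],.c (nat_lit 1) (nat_lit 0x183080000a),.r (nat_lit 0x1881) (nat_lit 4) [nat_lit 0x400001,
    nat_lit 0x81060000585,nat_lit 0xc2000000505,nat_lit 0xc1873e78a85],
    .r (nat_lit 0x1b36) (nat_lit 13) [nat_lit 0x600101,nat_lit 0xc1031428a85,nat_lit 0x400001],
    .c (nat_lit 0) (nat_lit 0x983276ed51),.r (nat_lit 0x18ea) (nat_lit 4) [nat_lit 257,nat_lit 0xc1031628a85,
    nat_lit 0x400001,nat_lit 0x1020000585],.r (nat_lit 0x1b6a) (nat_lit 6) [nat_lit 0x141800000505,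
    nat_lit 0x101001400585,nat_lit 0x101000000005],.c (nat_lit 3) (nat_lit 2),
    .r (nat_lit 0x174c) (nat_lit 13) [nat_lit 0x400001,nat_lit 0x241052a50a0f,nat_lit 0x82802a5058a],
    .c (nat_lit 0) (nat_lit 0x3062c50b),.r (nat_lit 0x174c) (nat_lit 13) [nat_lit 0x400001,nat_lit 0x1c0031628505,
    nat_lit 0x383823e78f94],.c (nat_lit 0) (nat_lit 0x3062c50b),
    .r (nat_lit 0x102f) (nat_lit 6) [nat_lit 0xc1031628005,nat_lit 0x80040000005,nat_lit 0x400001,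
    nat_lit 0x1830028585],.r (nat_lit 0x11b0) (nat_lit 3) [nat_lit 0x401,nat_lit 0x142052a50a85,
    nat_lit 0x1c3823e78f85,nat_lit 0x1000001],.c (nat_lit 0) (nat_lit 0x183062c511),
    .c (nat_lit 1) (nat_lit 0x1020c2858a),.r (nat_lit 0x1803) (nat_lit 11) [nat_lit 0x400001,nat_lit 0x80040000005,
    nat_lit 257,nat_lit 0xc1031628585],.c (nat_lit 4) (nat_lit 2),.c (nat_lit 1) (nat_lit 0x280040000a),
    .r (nat_lit 0x1b6a) (nat_lit 6) [nat_lit 0x400181,nat_lit 257,nat_lit 0x101000000005],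
    .c (nat_lit 1) (nat_lit 0x1800c0000a),.c (nat_lit 2) (nat_lit 0x184000000a),
    .r (nat_lit 0x6aa) (nat_lit 7) [nat_lit 0x80041400585,nat_lit 0x30000001,nat_lit 0xc0050000505,
    nat_lit 0x1090000005,nat_lit 0xc18e1628005],.c (nat_lit 5) (nat_lit 2),
    .r (nat_lit 0x18f8) (nat_lit 2) [nat_lit 0x80040000005,nat_lit 0xc1031628005,nat_lit 0x1831400585,
    nat_lit 0x1830000005],.c (nat_lit 6) (nat_lit 2),.r (nat_lit 0x11a7) (nat_lit 5) [nat_lit 0x1800001,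
    nat_lit 0x68d7af1485,nat_lit 0x1c3073e78005,nat_lit 0x183123c7ca05],
    .r (nat_lit 0x11a8) (nat_lit 5) [nat_lit 0x800001,nat_lit 0x2852a51485,nat_lit 0xc1031628005,
    nat_lit 0x8106142ca05],.c (nat_lit 7) (nat_lit 2)],
    .l (nat_lit 16) (nat_lit 0x2760) (nat_lit 3) (nat_lit 0xf5800000f5800000e470000117f00000f62000012fa000011f0000011f00000126b00000f4300001037000010370000120200000e62) (nat_lit 0x3a2000003a20000017b000004b300000000000003980000010a0000010a000003b70000008f000002c3000002c300000498000000f8)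
    (nat_lit 0xb8c0a420ddd09d9106a0c0a0f160f6e0ba1121b0bbd0b8f0ac00e600aee0b8c0d690aa511b40b6c0f160efc0ba1117d0c410c950b8c0e600aa509d90d200a5c0d990b230a890ae10a900cf00b840b8409d90da30d690ddd11f60d200f1f0de70f9910750dc809d80f5a0ebc0c9d12790b6c0c0a0de70b230f6209d8157010b80bab0faf0aad0c9f0aca0dcc11b4106a0f1f0d9912fa0f6216a811f009d913b1106710370d4209d80efc0f6e10750ae111f010b80fa010e60e390ca9175714970c4610c80f160f160f990a8916a8157010e60fa00ddf116112c910090a061070117d121b09d80cf013b10faf11610ca90dd811dc103010020d0b0dd70ba10ba10dc80a9009d90bab0ddf0e390c7e0dd80c800c800bb10e4b0c950b8f0ebc0b8410370c9f100914970c8010020d740c820b9f0f3f0c410bbd0f5a0b8410670aad12c917570c8010300d6a0d740b9f0f3f0e600e6012790da309d80dcc107010c80e4b0dd70f3f0f3f0e4211140b8c0ac00c9d09d90d420aca0a060c460bb10d0b0b9f0b9f0b3e0e42)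
    (nat_lit 0xb8c27602760276027602760276027602760276027602760276027600a420b8c2760276027602760276027602760276027602760276027600ddd0d690d202760276027602760276027602760276027602760276009d90aa50a5c0d202760276027602760276027602760276027602760106a11b40d990f1f0f622760276027602760276027602760276027600c0a0b6c0b230de709d80f62276027602760276027602760276027600f160f160a890f99157016a80fa027602760276027602760276027600f6e0efc0ae1107510b811f010e60fa02760276027602760276027600ba10ba10a900dc80bab09d90e390ddf0dd827602760276027602760121b117d0cf009d80faf13b10ca9116111dc0dd827602760276027600bbd0c410b840f5a0aad1067175712c910300c800d742760276027600b8f0c950b840ebc0c9f10371497100910020c800c820d74276027600ac00b8c09d90c9d0aca0d420c460a060d0b0bb10b9f0b9f0e4227600e600e600da312790dcc09d810c810700dd70e4b0f3f0f3f11140e42)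
    (nat_lit 3) (nat_lit 59)
    [[nat_lit 2,nat_lit 0x10002,nat_lit 17,nat_lit 273,nat_lit 0x10011,nat_lit 0x1000011,nat_lit 257,nat_lit 0x10101,
    nat_lit 0x1000101,nat_lit 0x100101,nat_lit 0x1001,nat_lit 0x1101,nat_lit 0x11001,nat_lit 0x10001,nat_lit 0x20001,
    nat_lit 0x1010001,nat_lit 0x100001,nat_lit 0x110001,nat_lit 0x1100001,nat_lit 0x1000001,nat_lit 0x2000001],
    [nat_lit 32,nat_lit 0x1000020,nat_lit 272,nat_lit 0x10110,nat_lit 0x100110,nat_lit 0x10010,nat_lit 0x110010,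
    nat_lit 0x100010,nat_lit 0x1100010,nat_lit 0x1000010,nat_lit 0x2000010],[nat_lit 512,nat_lit 0x100200,
    nat_lit 0x1100,nat_lit 0x101100,nat_lit 0x10100,nat_lit 0x110100,nat_lit 0x100100,nat_lit 0x200100,
    nat_lit 0x1000100,nat_lit 0x1100100],[nat_lit 0x2000,nat_lit 0x101000,nat_lit 0x1001000],[nat_lit 0x20000,
    nat_lit 0x110000,nat_lit 0x120000,nat_lit 0x1110000,nat_lit 0x1010000],[nat_lit 0x200000,nat_lit 0x1200000,
    nat_lit 0x1100000,nat_lit 0x2100000],[nat_lit 0x2000000,nat_lit 0x3000000]]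
    [.c (nat_lit 1) (nat_lit 2),.r (nat_lit 0x1aa5) (nat_lit 13) [nat_lit 0xc0401,nat_lit 0x1b699,nat_lit 0x82001],
    .r (nat_lit 10) (nat_lit 4) [nat_lit 0x2001,nat_lit 17],.c (nat_lit 6) (nat_lit 0x3a25),
    .r (nat_lit 0x1b5d) (nat_lit 7) [nat_lit 0x401,nat_lit 0x2001,nat_lit 0x611],.c (nat_lit 2) (nat_lit 0x18082),
    .c (nat_lit 0) (nat_lit 0x136d3),.c (nat_lit 6) (nat_lit 0x3b65),.r (nat_lit 4) (nat_lit 3) [nat_lit 0x3699,
    nat_lit 0xc0411],.r (nat_lit 0x174d) (nat_lit 3) [nat_lit 0x3099,nat_lit 0x2001],.c (nat_lit 6) (nat_lit 0x2aa04),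
    .r (nat_lit 10) (nat_lit 4) [nat_lit 0x2001,nat_lit 0x98099],.c (nat_lit 0) (nat_lit 0x602),
    .r (nat_lit 10) (nat_lit 4) [nat_lit 0x2001,nat_lit 0x411],.r (nat_lit 0x1b5d) (nat_lit 7) [nat_lit 0x401,
    nat_lit 0x2001,nat_lit 17],.c (nat_lit 2) (nat_lit 0x18102),.c (nat_lit 0) (nat_lit 0x126d5),
    .r (nat_lit 0x1b60) (nat_lit 7) [nat_lit 0x3699,nat_lit 0x401,nat_lit 0x2001],.c (nat_lit 0) (nat_lit 0x126d5),
    .c (nat_lit 0) (nat_lit 0x100c3),.c (nat_lit 0) (nat_lit 0x126d5),.c (nat_lit 2) (nat_lit 2),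
    .r (nat_lit 0x1b6a) (nat_lit 7) [nat_lit 0x401,nat_lit 0x2001,nat_lit 0xa11],
    .r (nat_lit 4) (nat_lit 3) [nat_lit 0xc3099,nat_lit 17],.c (nat_lit 6) (nat_lit 0x18613),
    .c (nat_lit 2) (nat_lit 0x18693),.c (nat_lit 2) (nat_lit 130),.c (nat_lit 3) (nat_lit 0x18613),
    .c (nat_lit 0) (nat_lit 0x1a695),.c (nat_lit 1) (nat_lit 0x130c2),.c (nat_lit 0) (nat_lit 0x1a695),
    .r (nat_lit 0x108a) (nat_lit 5) [nat_lit 0x2001,nat_lit 0x2401,nat_lit 0x9b681,nat_lit 17],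
    .c (nat_lit 3) (nat_lit 2),.r (nat_lit 0x1a22) (nat_lit 8) [nat_lit 0x601,nat_lit 0x2401,nat_lit 0x20d1],
    .r (nat_lit 0x1aa5) (nat_lit 13) [nat_lit 0xc0401,nat_lit 0xc3011,nat_lit 0x82001],
    .c (nat_lit 2) (nat_lit 0x18113),.r (nat_lit 4) (nat_lit 3) [nat_lit 0xc3699,nat_lit 0x411],
    .c (nat_lit 2) (nat_lit 0x18613),.r (nat_lit 32) (nat_lit 10) [nat_lit 0xc3099,nat_lit 17],
    .r (nat_lit 0x174d) (nat_lit 3) [nat_lit 0xd349a,nat_lit 0x2001],.r (nat_lit 0x1b04) (nat_lit 7) [nat_lit 0x2001,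
    nat_lit 17],.r (nat_lit 4) (nat_lit 10) [nat_lit 0x3099,nat_lit 0x2001],.c (nat_lit 4) (nat_lit 2),
    .r (nat_lit 0x1aa5) (nat_lit 11) [nat_lit 0xc3011,nat_lit 0xc0001,nat_lit 0x82001],
    .c (nat_lit 0) (nat_lit 0x10403),.c (nat_lit 5) (nat_lit 2),.c (nat_lit 0) (nat_lit 0x1a6d5),
    .c (nat_lit 3) (nat_lit 0x186d3),.c (nat_lit 1) (nat_lit 0x13002),.c (nat_lit 0) (nat_lit 0x1a6d5),
    .c (nat_lit 6) (nat_lit 2),.c (nat_lit 6) (nat_lit 0x3004),.c (nat_lit 0) (nat_lit 0x2005),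
    .c (nat_lit 0) (nat_lit 0x2003),.c (nat_lit 7) (nat_lit 2),.c (nat_lit 0) (nat_lit 0x6005)]]

/-- nodes -/
noncomputable def rD7k_20_9 : List RJ :=
  [.l (nat_lit 19) (nat_lit 0x120c0) (nat_lit 4) (nat_lit 0x770e0000770e00006726000067260000729b0000729b0000731200007312000078c6000078c6000060a8000060a800007b7800007b78) (nat_lit 0x46a0000046a0000145200001452000008dd000008dd0000086600000866000002b2000002b200001ad000001ad00000000000000000)
    (nat_lit 0xfdf41ee303a0b062300a8a61b8c41fba06ea80e8b80e70032cf0487e0ee1c1c4e0395207efa0e94418af03718877170c17c19cf03aeb0539e0b29012fb03bcd071c40c578188c024f7052d40cb6a1318c3fbf05ec00e98c1c97828d004adc0b5a01a8703a51074160b7a8127b82ab185e490f02415d50323a06978098ac10dc03393061c20ee2e1b8c42f2484c630e254182f832988731b0f19e15a5c2e97857cb0c2821ca6c3718854530aac6196d435e30712a0d46a1a8d437f486fe90af961a0dc394d8729b0ce781baa02baa05ec00d46a1cc6c3556068a40bfe81c1802c2105842119e01c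c48305f03f740f0241fdf8351a865310d5581aab02ffa070600799c1231056d7093d00a73c0e70034bc0725e0dfd215a5c38300706010b241d8501e9c06e6214ff4250e83aeb0745c0c8e81d31837f4878cf0bfe817fd03a93085920add4177d84643078c6097d8121f821b804adc0d06e15f2c2462058420bbec1b98822ec046c60c15019ed02ca40659e098ac146802be585d2f0799c161082b7503d380993811760333f060a80e3881c4e030e106a1c0e5361ca6c49e8073120f18c250e83054067b40e4301d2d03bcd0770e0ce4c16b40394d8614115b5c233c046430a7fa0ccfc182a0394807218)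
    (nat_lit 0xfdf4483009060120c024180483009060120c024180483009060120c024180483003dc607efa24180483009060120c024180483009060120c024180483009060120c00e82c1d28824f7120c024180483009060120c024180483009060120c024180483003118062bc0a5a8127b89060120c024180483009060120c024180483009060120c00a8a61b8c432da855630e254483009060120c024180483009060120c02418048300371887717098c617924305f0712a24180483009060120c024180483009060120c007ee8182f83fbf078120ca621a8d43556120c024180483009060120c0241804830037540673c0bd8015d50398d86a350d1481aab09060120c024180483009060120c00e8b81d7583a63064740f19e1bfa42ffa05ff410b24483009060120c024180483001ce00539e0e4bc1a5e02b4b86fe90e0c01c1803b0a0859224180483009060120c00cb3c1652028d004c560ba5e15f2c2c2103cce07a7015ba822ec120c02418048300243f04bec095b810dc02be5868370b08412310373105df608d8c117609060120c00ee1c1de682d68067260c2821ca6c467809d7613bc02321830540667e0e43048300389c071c40d43818708394d8729b0e62424f404a1d078c60cf68182a03a5a07218)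
    (nat_lit 4) (nat_lit 79)
    [[nat_lit 2,nat_lit 17,nat_lit 33,nat_lit 273,nat_lit 0x1011,nat_lit 0x100011,nat_lit 0x10001,nat_lit 0x100001,
    nat_lit 0x200001,nat_lit 0x1000001],[nat_lit 32,nat_lit 48,nat_lit 64,nat_lit 288,nat_lit 0x1020,nat_lit 0x10020,
    nat_lit 0x100020,nat_lit 0x1000020,nat_lit 272,nat_lit 0x1110,nat_lit 0x10110,nat_lit 0x100110,nat_lit 0x1000110,
    nat_lit 0x1010,nat_lit 0x2010,nat_lit 0x11010,nat_lit 0x101010,nat_lit 0x1001010,nat_lit 0x10010,nat_lit 0x110010,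
    nat_lit 0x1010010,nat_lit 0x100010,nat_lit 0x200010,nat_lit 0x1100010,nat_lit 0x1000010],[nat_lit 512,
    nat_lit 0x1000200,nat_lit 0x1100,nat_lit 0x1001100,nat_lit 0x10100,nat_lit 0x100100,nat_lit 0x1100100,
    nat_lit 0x1000100],[nat_lit 0x2000,nat_lit 0x1002000,nat_lit 0x11000,nat_lit 0x111000,nat_lit 0x101000,
    nat_lit 0x1001000,nat_lit 0x1101000],[nat_lit 0x20000,nat_lit 0x120000,nat_lit 0x110000,nat_lit 0x210000,
    nat_lit 0x1010000,nat_lit 0x1110000],[nat_lit 0x200000,nat_lit 0x300000,nat_lit 0x1100000],[nat_lit 0x2000000]]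
    [.c (nat_lit 1) (nat_lit 2),.r (nat_lit 0x174d) (nat_lit 4) [nat_lit 0x300231,nat_lit 33],
    .r (nat_lit 0xfb5) (nat_lit 11) [nat_lit 33,nat_lit 0x220001,nat_lit 0x302231,nat_lit 0x200001],
    .c (nat_lit 6) (nat_lit 0x22203),.c (nat_lit 6) (nat_lit 0x30023),.c (nat_lit 1) (nat_lit 770),
    .r (nat_lit 32) (nat_lit 4) [nat_lit 0x2001,nat_lit 33],.r (nat_lit 0x174e) (nat_lit 4) [nat_lit 0x222031,
    nat_lit 0x303201],.r (nat_lit 0xfb3) (nat_lit 5) [nat_lit 0x50001,nat_lit 0x505401,nat_lit 0x440001,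
    nat_lit 0x4031],.r (nat_lit 2) (nat_lit 5) [nat_lit 0x2001,nat_lit 33],.c (nat_lit 2) (nat_lit 2),
    .r (nat_lit 0x1749) (nat_lit 10) [nat_lit 33,nat_lit 0x6031,nat_lit 0x220001],
    .r (nat_lit 0x174a) (nat_lit 4) [nat_lit 0x8032,nat_lit 34,nat_lit 0x220001],
    .r (nat_lit 0xfb3) (nat_lit 5) [nat_lit 0x50001,nat_lit 0x505401,nat_lit 0x440001,nat_lit 0x330021],
    .r (nat_lit 0xfb3) (nat_lit 5) [nat_lit 0x50001,nat_lit 0x505401,nat_lit 0x440001,nat_lit 0x202321],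
    .r (nat_lit 0xfb6) (nat_lit 11) [nat_lit 0x220001,nat_lit 0x303201,nat_lit 33,nat_lit 0x333201],
    .c (nat_lit 2) (nat_lit 770),.r (nat_lit 0xfb4) (nat_lit 4) [nat_lit 0x4031,nat_lit 0x400001,nat_lit 0x955401,
    nat_lit 33],.r (nat_lit 0x174f) (nat_lit 4) [nat_lit 0x303201,nat_lit 33],
    .r (nat_lit 0x1816) (nat_lit 7) [nat_lit 0x2001,nat_lit 0x535221,nat_lit 0x420321,nat_lit 0x20231],
    .r (nat_lit 0x182e) (nat_lit 0) [nat_lit 0x2001,nat_lit 0x202031,nat_lit 0x303201,nat_lit 0x220001],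
    .c (nat_lit 1) (nat_lit 0x22203),.r (nat_lit 8) (nat_lit 8) [nat_lit 0x202031,nat_lit 0x220001],
    .r (nat_lit 0x174f) (nat_lit 4) [nat_lit 0x303201,nat_lit 0x422321],
    .r (nat_lit 0x1816) (nat_lit 7) [nat_lit 0x2001,nat_lit 0x3021,nat_lit 0x842521,nat_lit 0x503431],
    .r (nat_lit 0x182e) (nat_lit 0) [nat_lit 0x2001,nat_lit 0x330231,nat_lit 0x303201,nat_lit 0x220001],
    .c (nat_lit 1) (nat_lit 0x30023),.r (nat_lit 8) (nat_lit 8) [nat_lit 0x330231,nat_lit 0x220001],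
    .r (nat_lit 0) (nat_lit 5) [nat_lit 0x303201,nat_lit 33],.c (nat_lit 5) (nat_lit 770),
    .r (nat_lit 0x174d) (nat_lit 4) [nat_lit 0x330231,nat_lit 0x20021],.c (nat_lit 0) (nat_lit 515),
    .c (nat_lit 6) (nat_lit 770),.c (nat_lit 7) (nat_lit 770),.r (nat_lit 0x1b64) (nat_lit 9) [nat_lit 0x220001,
    nat_lit 0x222321,nat_lit 0x330231],.c (nat_lit 3) (nat_lit 2),.r (nat_lit 32) (nat_lit 4) [nat_lit 0x2001,
    nat_lit 0x420031],.c (nat_lit 1) (nat_lit 0x2323),.r (nat_lit 32) (nat_lit 4) [nat_lit 0x2001,nat_lit 0x3231],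
    .c (nat_lit 0) (nat_lit 0x20003),.r (nat_lit 8) (nat_lit 5) [nat_lit 0x222031,nat_lit 0x533221],
    .r (nat_lit 32) (nat_lit 3) [nat_lit 0x202031,nat_lit 0x303201],.c (nat_lit 0) (nat_lit 0x20003),
    .c (nat_lit 4) (nat_lit 2),.r (nat_lit 32) (nat_lit 4) [nat_lit 0x2001,nat_lit 0x535431],
    .c (nat_lit 0) (nat_lit 0x33323),.r (nat_lit 0x11e9) (nat_lit 9) [nat_lit 0x220001,nat_lit 0x303201,
    nat_lit 0x30001,nat_lit 0x222321],.r (nat_lit 8) (nat_lit 5) [nat_lit 0x300231,nat_lit 33],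
    .c (nat_lit 0) (nat_lit 0x33323),.r (nat_lit 32) (nat_lit 3) [nat_lit 0x330231,nat_lit 0x303201],
    .c (nat_lit 5) (nat_lit 2),.r (nat_lit 0x1a0e) (nat_lit 6) [nat_lit 0x2001,nat_lit 0x422301,nat_lit 0x3021,
    nat_lit 0x303201],.r (nat_lit 0x1750) (nat_lit 6) [nat_lit 33,nat_lit 0x220001],
    .r (nat_lit 0x174c) (nat_lit 6) [nat_lit 0x220001,nat_lit 33,nat_lit 0x332231],.c (nat_lit 0) (nat_lit 0x3003),
    .r (nat_lit 0x174e) (nat_lit 4) [nat_lit 0x202031,nat_lit 0x303201],.c (nat_lit 6) (nat_lit 2),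
    .r (nat_lit 0x1748) (nat_lit 4) [nat_lit 33,nat_lit 0x6031,nat_lit 0x220001],
    .r (nat_lit 0x1b04) (nat_lit 1) [nat_lit 33,nat_lit 0x303201],.c (nat_lit 7) (nat_lit 2)],
    .l (nat_lit 11) (nat_lit 480) (nat_lit 4) (nat_lit 0xc8000000c8000000bf000000bf000000b6000000b6000000b8000000b8000000b6000000b6000000bd000000bd000000a6000000cc) (nat_lit 0x4000000040000000d0000000d0000001600000016000000140000001400000016000000160000000f0000000f0000000000000026)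
    (nat_lit 0x1883105d8a51402c85a0b41642a87f90f190288620c41762ec500a01602d0590b21a23846f0b8176294620b21522a4558bd1022b44d0b017e2045d8bb164310548a912a2ac5489b1602c05f8991402c8548a9140280580a21402d8538a716c240500a01522a4500a0160288500b614e29c5b0901682d0558bd144288470a4144250548a9194248580b412a2ac580b0148238560a21522a4600921642a84d8ad16c2d8510941402805389d16c240590b2152204500a0158288550a014e29c300901c243c580b014e29c548a914e274570a417a25c688ff160268538a71522a4538a715c2b85e8971702884c881120240490921202404b8970c02006f0c817e2fc5b0b6180328300b617a2f466060)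
    (nat_lit 0x188780f01e03c0780f01e03c0780f01e03c0780620c43c0780f01e03c0780f01e03c0780f01e01762ec621e03c0780f01e03c0780f01e03c0780528bb164310f01e03c0780f01e03c0780f01e0140280548a9140780f01e03c0780f01e03c0780590a01522a4500a03c0780f01e03c0780f01e01682c0558951602c0471e03c0780f01e03c07805a0b417a2ac510a2148238f01e03c0780f01e01642c8408a9140280510ac140780f01e03c0780550b215a26c5b0b6128288500a03c0780f01e01fe3444d0b014e29c548a914e29c571e03c0780878e11602c0538a71522a44e8a71482b8f01e01903785f8bf16c2d8650c016c1805e8bd0c0780510b8102264480901242484809012e25c40060)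
    (nat_lit 5) (nat_lit 49)
    [[nat_lit 2,nat_lit 3,nat_lit 4,nat_lit 259,nat_lit 18,nat_lit 258,nat_lit 0x100102,nat_lit 0x1002,
    nat_lit 0x10002,nat_lit 0x100002,nat_lit 17,nat_lit 257,nat_lit 0x100101,nat_lit 273,nat_lit 513,nat_lit 0x1101,
    nat_lit 0x10101,nat_lit 0x1000101,nat_lit 0x1001,nat_lit 0x10001,nat_lit 0x100001,nat_lit 0x1000001],[nat_lit 32,
    nat_lit 272,nat_lit 0x100110,nat_lit 0x1010,nat_lit 0x10010,nat_lit 0x100010,nat_lit 0x101010],[nat_lit 512,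
    nat_lit 0x100200,nat_lit 0x1100,nat_lit 0x2100,nat_lit 0x10100,nat_lit 0x100100,nat_lit 0x101100,
    nat_lit 0x1000100],[nat_lit 0x2000,nat_lit 0x3000,nat_lit 0x11000,nat_lit 0x101000,nat_lit 0x1001000],
    [nat_lit 0x20000,nat_lit 0x110000,nat_lit 0x1010000],[nat_lit 0x200000,nat_lit 0x1100000],[nat_lit 0x2000000]]
    [.c (nat_lit 1) (nat_lit 2),.c (nat_lit 6) (nat_lit 0x300002),
    .r (nat_lit 0x174a) (nat_lit 9) [nat_lit 0x24194e0e6,nat_lit 66,nat_lit 0x200001],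
    .r (nat_lit 0x174a) (nat_lit 9) [nat_lit 0xc4d2b0e3,nat_lit 0xc60000c3,nat_lit 0x200001],
    .r (nat_lit 0x11f8) (nat_lit 0) [nat_lit 0x400001,nat_lit 65,nat_lit 0x1080000e3,nat_lit 0x140d2b0e3],
    .c (nat_lit 1) (nat_lit 0x6300006),.r (nat_lit 0x174c) (nat_lit 3) [nat_lit 0x200001,nat_lit 0xc0d230e6,
    nat_lit 65],.c (nat_lit 1) (nat_lit 0x40308e6),.c (nat_lit 6) (nat_lit 0x500c06),
    .r (nat_lit 0x1a2c) (nat_lit 3) [nat_lit 0x146719803,nat_lit 0x84000003,nat_lit 0x14a0000c3,nat_lit 0x200001],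
    .r (nat_lit 2) (nat_lit 1) [nat_lit 0x846000e3,nat_lit 65],.c (nat_lit 0) (nat_lit 0x4200007),
    .c (nat_lit 6) (nat_lit 0x6300006),.c (nat_lit 2) (nat_lit 0x6300006),.c (nat_lit 3) (nat_lit 0x6300006),
    .c (nat_lit 3) (nat_lit 0x40308e6),.c (nat_lit 0) (nat_lit 0x4200807),.c (nat_lit 2) (nat_lit 0x4230007),
    .c (nat_lit 0) (nat_lit 0x6038cc7),.c (nat_lit 0) (nat_lit 0x4200807),
    .r (nat_lit 0xe8f) (nat_lit 0) [nat_lit 0xc6719801,nat_lit 0x600001,nat_lit 0x84611cc1,nat_lit 0x7198e1],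
    .r (nat_lit 0x1ac9) (nat_lit 7) [nat_lit 0xc07198e3,nat_lit 0x200001,nat_lit 65],.c (nat_lit 2) (nat_lit 2),
    .r (nat_lit 2) (nat_lit 4) [nat_lit 0xc0719803,nat_lit 65],.r (nat_lit 0x1a29) (nat_lit 9) [nat_lit 0xc00180c3,
    nat_lit 0xc0719803,nat_lit 0x806100e3],.r (nat_lit 2) (nat_lit 4) [nat_lit 0xc0719803,nat_lit 0x104611cc3],
    .r (nat_lit 32) (nat_lit 9) [nat_lit 0xc0719803,nat_lit 65],.r (nat_lit 0x1b6e) (nat_lit 9) [nat_lit 0xc0719803,
    nat_lit 0xc00180c3,nat_lit 0x806100e3],.r (nat_lit 0x1a29) (nat_lit 9) [nat_lit 0x84601cc3,nat_lit 0xc0719803,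
    nat_lit 0xc60018e3],.c (nat_lit 3) (nat_lit 2),.r (nat_lit 0x174c) (nat_lit 3) [nat_lit 0x200001,
    nat_lit 0x1c67118c3,nat_lit 0x2880001a3],.c (nat_lit 3) (nat_lit 0x82308e6),
    .r (nat_lit 0x174c) (nat_lit 3) [nat_lit 0x200001,nat_lit 0x1467518c9,nat_lit 0x8994e1a9],
    .c (nat_lit 0) (nat_lit 0x4200807),.c (nat_lit 0) (nat_lit 0x4000007),
    .r (nat_lit 0x174c) (nat_lit 3) [nat_lit 0x200001,nat_lit 0xc00200c3,nat_lit 0x80d2b1a3],
    .r (nat_lit 32) (nat_lit 8) [nat_lit 0xc0719803,nat_lit 65],.c (nat_lit 4) (nat_lit 2),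
    .r (nat_lit 0x174c) (nat_lit 3) [nat_lit 0x200001,nat_lit 0x20043,nat_lit 0xc0d2b0a3],
    .c (nat_lit 0) (nat_lit 0x60380c7),.c (nat_lit 0) (nat_lit 0x6338cc7),
    .r (nat_lit 32) (nat_lit 8) [nat_lit 0xc0719803,nat_lit 0x104611cc3],.c (nat_lit 5) (nat_lit 2),
    .c (nat_lit 1) (nat_lit 0x200c06),.r (nat_lit 0x1a29) (nat_lit 9) [nat_lit 0x200061,nat_lit 0xc0719803,
    nat_lit 65],.c (nat_lit 6) (nat_lit 2),.r (nat_lit 0x1b60) (nat_lit 1) [nat_lit 0xc0719803,nat_lit 0x200061,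
    nat_lit 65],.c (nat_lit 7) (nat_lit 2)]]

/-- nodes -/
noncomputable def rD7k_20_10 : List RJ :=
  [.l (nat_lit 14) (nat_lit 0x8f8) (nat_lit 3) (nat_lit 0x412000003e8000003b6000003a8000003cb000003cb00000486000003d2000004260000037b00000377000004040000036200000450) (nat_lit 0x9e00000074000000de000000d0000000bb000000bb000000b4000000000000010b00000060000000820000010f0000003600000124)
    (nat_lit 0xdd039e0dc03420b0c2ef14404ac0dd023e0ec03740f702860d183740c283180bd42c111303e80d1844a0d283460ec82580c603420d102ea0bec2fb09003ee08f823e0e8023e0e002ae0c283700b283440bb42ed0a5839e08f82c20dd82980f682840b042ef0bb42fb0c683100e743cb0b043c90d2431b0d642570bd42c30bb42fb0c4031a0c5c3cb0e7c36b0b0c3f90bec2a70fa04ac0e783ee0f2c3cb0f4848608f8426101029813903e811305100a582400c5c39d0a503d209a83720d4026a1440414112823e0b0823e0dac3c90dc84260dd045008f837408f83020d1837408f823e0e7c2c109a823e09c03740be426c0b5023e0d183740a6023e0fe431b09a829809b03740c382680b502530d283b00dd83a00b0c3490d404040be423e0e0830e10d82e009602860a102ae0a9c25710503e808f83020b802530c3023e0ec83dc0f683800bec35914404e40b5023e10d82d4106830c)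
    (nat_lit 0xdd08f823e08f823e08f823e08f823e08f823e08f823e08f80e7837423e08f823e08f823e08f823e08f823e08f823e08f80dc030a0d108f823e08f823e08f823e08f823e08f823e08f80d083180ba834423e08f823e08f823e08f823e08f823e08f80b0c2f50bec2ed0c688f823e08f823e08f823e08f823e08f80bbc2c10bec2ed0c4031a23e08f823e08f823e08f823e08f8144044c09002960e743170f488f823e08f823e08f823e08f812b03e80fb839e0f2c3cb12183d223e08f823e08f823e08f80dd034608f823e0b0439f08f826a0dd08f823e08f823e08f808f844a08f82c20f2436b1098372114037423e08f823e08f80ec034a0e803760d242c3101035008f82f90c388f823e08f80dd034608f82980c6c3f90a6026a0dd026c09a030e23e08f80f703b20e003da0d642fb11f04a808f82d40b504360c308f80a182580ab8284095c2a70fa04140c0823e094c2e008f830c)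
    (nat_lit 5) (nat_lit 59)
    [[nat_lit 2,nat_lit 18,nat_lit 258,nat_lit 0x10002,nat_lit 17,nat_lit 33,nat_lit 273,nat_lit 0x10011,
    nat_lit 0x1000011,nat_lit 257,nat_lit 513,nat_lit 0x1101,nat_lit 0x10101,nat_lit 0x100101,nat_lit 0x1000101,
    nat_lit 0x10001,nat_lit 0x20001,nat_lit 0x110001,nat_lit 0x1010001,nat_lit 0x100001,nat_lit 0x1000001],
    [nat_lit 32,nat_lit 288,nat_lit 0x1020,nat_lit 0x10020,nat_lit 0x100020,nat_lit 272,nat_lit 528,nat_lit 0x1110,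
    nat_lit 0x100110,nat_lit 0x1000110,nat_lit 0x1010,nat_lit 0x101010,nat_lit 0x10010,nat_lit 0x110010,
    nat_lit 0x100010,nat_lit 0x200010,nat_lit 0x1000010],[nat_lit 512,nat_lit 0x100200,nat_lit 0x1100,
    nat_lit 0x101100,nat_lit 0x1001100,nat_lit 0x10100,nat_lit 0x110100,nat_lit 0x1010100,nat_lit 0x100100,
    nat_lit 0x200100,nat_lit 0x1100100,nat_lit 0x1000100],[nat_lit 0x2000,nat_lit 0x11000,nat_lit 0x101000],
    [nat_lit 0x20000,nat_lit 0x1020000,nat_lit 0x110000,nat_lit 0x210000,nat_lit 0x1110000,nat_lit 0x1010000],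
    [nat_lit 0x200000,nat_lit 0x1100000],[nat_lit 0x2000000]]
    [.c (nat_lit 1) (nat_lit 2),.c (nat_lit 0) (nat_lit 0x6300002),.r (nat_lit 836) (nat_lit 6) [nat_lit 0x140319002,
    nat_lit 65,nat_lit 0x104018082,nat_lit 0x100a1,nat_lit 0x2100a2],
    .r (nat_lit 837) (nat_lit 11) [nat_lit 0x34673b0a1,nat_lit 0x140319002,nat_lit 0x284422441,nat_lit 0x304643482,
    nat_lit 0x100211441],.c (nat_lit 3) (nat_lit 0xa300804),.r (nat_lit 0x174e) (nat_lit 4) [nat_lit 0x146010082,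
    nat_lit 0x140319002],.c (nat_lit 7) (nat_lit 0x8200805),.r (nat_lit 32) (nat_lit 7) [nat_lit 0x210002,
    nat_lit 0x3190a2],.c (nat_lit 3) (nat_lit 0x8200805),.c (nat_lit 5) (nat_lit 0x300c04),
    .r (nat_lit 32) (nat_lit 7) [nat_lit 0x210002,nat_lit 0x1403110a2],.c (nat_lit 6) (nat_lit 0x6000043),
    .r (nat_lit 838) (nat_lit 10) [nat_lit 0x140319001,nat_lit 0x6018082,nat_lit 0x64100a2,nat_lit 0x60100a1,
    nat_lit 0x20c018082],.c (nat_lit 1) (nat_lit 0x18c04),.c (nat_lit 2) (nat_lit 0x8200805),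
    .r (nat_lit 0x1b53) (nat_lit 6) [nat_lit 0x100211482,nat_lit 0x210002,nat_lit 0x140319002],
    .r (nat_lit 839) (nat_lit 11) [nat_lit 0x6000081,nat_lit 65,nat_lit 0x840000a1,nat_lit 0x40100a2,
    nat_lit 0x1403190a2],.c (nat_lit 1) (nat_lit 0x218004),.r (nat_lit 0x1b6e) (nat_lit 7) [nat_lit 0x210002,
    nat_lit 0x1403190a2,nat_lit 0x80000001],.c (nat_lit 0) (nat_lit 0x8210005),
    .r (nat_lit 0x174e) (nat_lit 4) [nat_lit 0x1040100a2,nat_lit 0x140319002],.c (nat_lit 2) (nat_lit 2),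
    .r (nat_lit 840) (nat_lit 11) [nat_lit 0x100a1,nat_lit 0x104018082,nat_lit 65,nat_lit 0x2463010a2,
    nat_lit 0x80018081],.r (nat_lit 841) (nat_lit 13) [nat_lit 0x140319001,nat_lit 0x4084224a1,nat_lit 0x204411461,
    nat_lit 0x34a52a041,nat_lit 0x246301041],.r (nat_lit 0x198f) (nat_lit 11) [nat_lit 0x80200061,nat_lit 0x140319002,
    nat_lit 0xc0010041],.r (nat_lit 0x1b6e) (nat_lit 7) [nat_lit 0x210002,nat_lit 0x346519082,nat_lit 0x80000001],
    .r (nat_lit 0x174f) (nat_lit 4) [nat_lit 0x140319002,nat_lit 65],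
    .r (nat_lit 0x198f) (nat_lit 11) [nat_lit 0x210061,nat_lit 0x140319002,nat_lit 65],
    .r (nat_lit 0x1952) (nat_lit 13) [nat_lit 0x210002,nat_lit 0x140319002,nat_lit 0x43010a2,nat_lit 0x80000c41],
    .c (nat_lit 2) (nat_lit 0x18c04),.c (nat_lit 1) (nat_lit 0x8200805),
    .r (nat_lit 0x1b6e) (nat_lit 7) [nat_lit 0x210002,nat_lit 0xc0000041,nat_lit 0x80000001],
    .c (nat_lit 1) (nat_lit 0x200c85),.c (nat_lit 3) (nat_lit 0x6000802),.c (nat_lit 3) (nat_lit 0xa018804),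
    .c (nat_lit 0) (nat_lit 0x8210005),.c (nat_lit 0) (nat_lit 0x4010003),.c (nat_lit 0) (nat_lit 0x4000003),
    .c (nat_lit 3) (nat_lit 2),.c (nat_lit 3) (nat_lit 0x18c04),.c (nat_lit 2) (nat_lit 0x102100a4),
    .c (nat_lit 1) (nat_lit 0x6000043),.c (nat_lit 5) (nat_lit 0xa318085),
    .r (nat_lit 0x1b49) (nat_lit 2) [nat_lit 0x60100a2,nat_lit 65,nat_lit 0x140319002],
    .c (nat_lit 5) (nat_lit 0x18c04),.c (nat_lit 1) (nat_lit 0x200c04),.c (nat_lit 0) (nat_lit 0x10805),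
    .c (nat_lit 6) (nat_lit 0x18c04),.c (nat_lit 7) (nat_lit 0x18c04),.c (nat_lit 6) (nat_lit 0x10c04),
    .c (nat_lit 4) (nat_lit 2),.c (nat_lit 3) (nat_lit 0x82110a4),.c (nat_lit 0) (nat_lit 0xa300c85),
    .c (nat_lit 5) (nat_lit 2),.c (nat_lit 1) (nat_lit 0x200002),.c (nat_lit 0) (nat_lit 0x310005),
    .c (nat_lit 0) (nat_lit 0x4010003),.r (nat_lit 0x174e) (nat_lit 4) [nat_lit 0x1002100a2,nat_lit 0x140319002],
    .c (nat_lit 0) (nat_lit 0x4000003),.c (nat_lit 6) (nat_lit 2),.r (nat_lit 0x1b04) (nat_lit 1) [nat_lit 65,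
    nat_lit 0x140319002],.c (nat_lit 7) (nat_lit 2)]]

/-- nodes -/
noncomputable def rD7k_20_11 : List RJ :=
  [.s (nat_lit 15) (nat_lit 0x1680) (nat_lit 5) (nat_lit 0xa2400000a2400000b3200000b32000009fa000009fa000009c8000009c8000008f4000008f400000b7c00000b7c00000d6800000d68) (nat_lit 0x3440000034400000236000002360000036e0000036e000003a0000003a00000047400000474000001ec000001ec0000000000000000)
    (nat_lit 0xd101b8041108220d6c1ad834206880b9016c041c082014481b1037006880fdc1fb834106b612681a102d805b010382b404f80a240fdc208847e08fc0f881f103c907c6084c10384a3094617142d383f7082211f823f03e207c40fec1e48225040e0d8c26a85990af60d6c1ad83e207c40d181a30485065a0a4414884250a82138c31e834106b60f881f102f6068c0da419682a904e6109421284fb0caa0d081a203c907c60cb4196836406c80a30137029608101390263049a06840fec1e48369090a0c501b202aa05540fb81f704e405f00b6016c0207040e09cc14882aa04dc09001200570070811e823d02d805c8089410982a905220aa8146024c048015c01c20486090c15a020804d5094610942a083ee08100e101c204bc097816c81e9040e08380d8c2518425084a0fb814b05700ae0132025e076e0b7c14481b1057b0b4e195431e82f8098c121823d05be07a41ad035a04f80a2416642e284fb09c61390272048608f41db82d906b40d68)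
    (nat_lit 0xd105a00b4016802d005a00b4016802d005a00b4016802d005a0037006882d005a00b4016802d005a00b4016802d005a00b40168010441fb847e16802d005a00b4016802d005a00b4016802d005a0041107ee11f823f0b4016802d005a00b4016802d005a00b4016800d6c1a083e207c40d185a00b4016802d005a00b4016802d005a0035b06b60f881f10346068c2d005a00b4016802d005a00b4016800d0824d03c907f612141b4836416802d005a00b4016802d005a0034406840f8c1e4832d065a0d901b20b4016802d005a00b4016800b9016c0213044a0a44154828c055409005a00b4016802d005a002d805b0081c103829104e609b8155024004802d005a00b401680107020704a306c61094212829607dc15002a004bc16802d005a004100ad0128c26a8541084a10201f70384070812f025e0b401680144827c05c50b32138c27d84e409c811e824305b20edc1ad05a003620a24169c2bd86250c4a131817c047a090c0f482c706b40d68)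
    (nat_lit 5) (nat_lit 159)
    [[nat_lit 0,nat_lit 7,nat_lit 13],[nat_lit 0,nat_lit 8],[nat_lit 0,nat_lit 9],[nat_lit 0,nat_lit 12,nat_lit 6],
    [nat_lit 0,nat_lit 13,nat_lit 6],[nat_lit 1,nat_lit 7,nat_lit 12],[nat_lit 1,nat_lit 7,nat_lit 13],[nat_lit 1,
    nat_lit 8],[nat_lit 1,nat_lit 9],[nat_lit 1,nat_lit 12,nat_lit 6],[nat_lit 2,nat_lit 4,nat_lit 4],[nat_lit 2,
    nat_lit 4,nat_lit 5],[nat_lit 2,nat_lit 5,nat_lit 4],[nat_lit 2,nat_lit 5,nat_lit 5],[nat_lit 2,nat_lit 6,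
    nat_lit 10],[nat_lit 2,nat_lit 6,nat_lit 11],[nat_lit 2,nat_lit 7,nat_lit 10],[nat_lit 2,nat_lit 11,nat_lit 6],
    [nat_lit 2,nat_lit 11,nat_lit 7],[nat_lit 3,nat_lit 4,nat_lit 4],[nat_lit 3,nat_lit 4,nat_lit 5],[nat_lit 3,
    nat_lit 5,nat_lit 4],[nat_lit 3,nat_lit 5,nat_lit 5],[nat_lit 3,nat_lit 6,nat_lit 10],[nat_lit 3,nat_lit 7,
    nat_lit 10],[nat_lit 3,nat_lit 10,nat_lit 7],[nat_lit 3,nat_lit 11,nat_lit 6],[nat_lit 3,nat_lit 11,nat_lit 7],
    [nat_lit 4,nat_lit 4,nat_lit 13,nat_lit 13],[nat_lit 4,nat_lit 12,nat_lit 4,nat_lit 12],[nat_lit 4,nat_lit 13,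
    nat_lit 4,nat_lit 13],[nat_lit 4,nat_lit 13,nat_lit 13,nat_lit 4],[nat_lit 5,nat_lit 5,nat_lit 12,nat_lit 12],
    [nat_lit 5,nat_lit 12,nat_lit 5,nat_lit 12],[nat_lit 5,nat_lit 12,nat_lit 12,nat_lit 5],[nat_lit 5,nat_lit 13,
    nat_lit 5,nat_lit 13],[nat_lit 8,nat_lit 10,nat_lit 12],[nat_lit 8,nat_lit 10,nat_lit 13],[nat_lit 8,nat_lit 11,
    nat_lit 13],[nat_lit 8,nat_lit 12,nat_lit 10],[nat_lit 8,nat_lit 12,nat_lit 11],[nat_lit 8,nat_lit 13,nat_lit 10],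
    [nat_lit 8,nat_lit 13,nat_lit 11],[nat_lit 9,nat_lit 10,nat_lit 12],[nat_lit 9,nat_lit 10,nat_lit 13],[nat_lit 9,
    nat_lit 11,nat_lit 12],[nat_lit 9,nat_lit 11,nat_lit 13],[nat_lit 9,nat_lit 12,nat_lit 10],[nat_lit 9,nat_lit 12,
    nat_lit 11],[nat_lit 9,nat_lit 13,nat_lit 11]]
    [nat_lit 0x107d,nat_lit 264,nat_lit 265,nat_lit 0x10c6,nat_lit 0x10d6,nat_lit 0x117c,nat_lit 0x117d,nat_lit 280,
    nat_lit 281,nat_lit 0x11c6,nat_lit 0x1244,nat_lit 0x1245,nat_lit 0x1254,nat_lit 0x1255,nat_lit 0x126a,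
    nat_lit 0x126b,nat_lit 0x127a,nat_lit 0x12b6,nat_lit 0x12b7,nat_lit 0x1344,nat_lit 0x1345,nat_lit 0x1354,
    nat_lit 0x1355,nat_lit 0x136a,nat_lit 0x137a,nat_lit 0x13a7,nat_lit 0x13b6,nat_lit 0x13b7,nat_lit 0x144dd,
    nat_lit 0x14c4c,nat_lit 0x14d4d,nat_lit 0x14dd4,nat_lit 0x155cc,nat_lit 0x15c5c,nat_lit 0x15cc5,nat_lit 0x15d5d,
    nat_lit 0x18ac,nat_lit 0x18ad,nat_lit 0x18bd,nat_lit 0x18ca,nat_lit 0x18cb,nat_lit 0x18da,nat_lit 0x18db,
    nat_lit 0x19ac,nat_lit 0x19ad,nat_lit 0x19bc,nat_lit 0x19bd,nat_lit 0x19ca,nat_lit 0x19cb,nat_lit 0x19db]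
    [[[nat_lit 0,nat_lit 7,nat_lit 13],[nat_lit 0,nat_lit 8],[nat_lit 0,nat_lit 9],[nat_lit 0,nat_lit 12,nat_lit 6],
    [nat_lit 0,nat_lit 13,nat_lit 6],[nat_lit 1,nat_lit 7,nat_lit 12],[nat_lit 1,nat_lit 7,nat_lit 13],[nat_lit 1,
    nat_lit 8],[nat_lit 1,nat_lit 9],[nat_lit 1,nat_lit 12,nat_lit 6],[nat_lit 2,nat_lit 4,nat_lit 4],[nat_lit 2,
    nat_lit 4,nat_lit 5]],[[nat_lit 2,nat_lit 5,nat_lit 4],[nat_lit 2,nat_lit 5,nat_lit 5],[nat_lit 2,nat_lit 6,
    nat_lit 10],[nat_lit 2,nat_lit 6,nat_lit 11],[nat_lit 2,nat_lit 7,nat_lit 10],[nat_lit 2,nat_lit 11,nat_lit 6],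
    [nat_lit 2,nat_lit 11,nat_lit 7],[nat_lit 3,nat_lit 4,nat_lit 4],[nat_lit 3,nat_lit 4,nat_lit 5],[nat_lit 3,
    nat_lit 5,nat_lit 4],[nat_lit 3,nat_lit 5,nat_lit 5],[nat_lit 3,nat_lit 6,nat_lit 10]],[[nat_lit 3,nat_lit 7,
    nat_lit 10],[nat_lit 3,nat_lit 10,nat_lit 7],[nat_lit 3,nat_lit 11,nat_lit 6],[nat_lit 3,nat_lit 11,nat_lit 7],
    [nat_lit 4,nat_lit 2,nat_lit 4],[nat_lit 4,nat_lit 2,nat_lit 5],[nat_lit 4,nat_lit 3,nat_lit 4],[nat_lit 4,
    nat_lit 3,nat_lit 5],[nat_lit 4,nat_lit 4,nat_lit 2],[nat_lit 4,nat_lit 4,nat_lit 3],[nat_lit 4,nat_lit 4,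
    nat_lit 13,nat_lit 13],[nat_lit 4,nat_lit 5,nat_lit 2]],[[nat_lit 4,nat_lit 5,nat_lit 3],[nat_lit 4,nat_lit 12,
    nat_lit 4,nat_lit 12],[nat_lit 4,nat_lit 13,nat_lit 4,nat_lit 13],[nat_lit 4,nat_lit 13,nat_lit 13,nat_lit 4],
    [nat_lit 5,nat_lit 2,nat_lit 4],[nat_lit 5,nat_lit 2,nat_lit 5],[nat_lit 5,nat_lit 3,nat_lit 4],[nat_lit 5,
    nat_lit 3,nat_lit 5],[nat_lit 5,nat_lit 4,nat_lit 2],[nat_lit 5,nat_lit 4,nat_lit 3],[nat_lit 5,nat_lit 5,
    nat_lit 2],[nat_lit 5,nat_lit 5,nat_lit 3]],[[nat_lit 5,nat_lit 5,nat_lit 12,nat_lit 12],[nat_lit 5,nat_lit 12,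
    nat_lit 5,nat_lit 12],[nat_lit 5,nat_lit 12,nat_lit 12,nat_lit 5],[nat_lit 5,nat_lit 13,nat_lit 5,nat_lit 13],
    [nat_lit 6,nat_lit 0,nat_lit 12],[nat_lit 6,nat_lit 0,nat_lit 13],[nat_lit 6,nat_lit 1,nat_lit 12],[nat_lit 6,
    nat_lit 2,nat_lit 11],[nat_lit 6,nat_lit 3,nat_lit 11],[nat_lit 6,nat_lit 10,nat_lit 2],[nat_lit 6,nat_lit 10,
    nat_lit 3],[nat_lit 6,nat_lit 11,nat_lit 2]],[[nat_lit 7,nat_lit 2,nat_lit 11],[nat_lit 7,nat_lit 3,nat_lit 10],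
    [nat_lit 7,nat_lit 3,nat_lit 11],[nat_lit 7,nat_lit 10,nat_lit 2],[nat_lit 7,nat_lit 10,nat_lit 3],[nat_lit 7,
    nat_lit 12,nat_lit 1],[nat_lit 7,nat_lit 13,nat_lit 0],[nat_lit 7,nat_lit 13,nat_lit 1],[nat_lit 8,nat_lit 0],
    [nat_lit 8,nat_lit 1],[nat_lit 8,nat_lit 10,nat_lit 12],[nat_lit 8,nat_lit 10,nat_lit 13]],[[nat_lit 8,nat_lit 11,
    nat_lit 13],[nat_lit 8,nat_lit 12,nat_lit 10],[nat_lit 8,nat_lit 12,nat_lit 11],[nat_lit 8,nat_lit 13,nat_lit 10],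
    [nat_lit 8,nat_lit 13,nat_lit 11],[nat_lit 9,nat_lit 0],[nat_lit 9,nat_lit 1],[nat_lit 9,nat_lit 10,nat_lit 12],
    [nat_lit 9,nat_lit 10,nat_lit 13],[nat_lit 9,nat_lit 11,nat_lit 12],[nat_lit 9,nat_lit 11,nat_lit 13],[nat_lit 9,
    nat_lit 12,nat_lit 10]],[[nat_lit 9,nat_lit 12,nat_lit 11],[nat_lit 9,nat_lit 13,nat_lit 11],[nat_lit 10,
    nat_lit 2,nat_lit 6],[nat_lit 10,nat_lit 2,nat_lit 7],[nat_lit 10,nat_lit 3,nat_lit 6],[nat_lit 10,nat_lit 3,
    nat_lit 7],[nat_lit 10,nat_lit 7,nat_lit 3],[nat_lit 10,nat_lit 8,nat_lit 12],[nat_lit 10,nat_lit 8,nat_lit 13],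
    [nat_lit 10,nat_lit 9,nat_lit 12],[nat_lit 10,nat_lit 12,nat_lit 8],[nat_lit 10,nat_lit 12,nat_lit 9]],
    [[nat_lit 10,nat_lit 13,nat_lit 8],[nat_lit 10,nat_lit 13,nat_lit 9],[nat_lit 11,nat_lit 2,nat_lit 6],[nat_lit 11,
    nat_lit 6,nat_lit 2],[nat_lit 11,nat_lit 6,nat_lit 3],[nat_lit 11,nat_lit 7,nat_lit 2],[nat_lit 11,nat_lit 7,
    nat_lit 3],[nat_lit 11,nat_lit 8,nat_lit 12],[nat_lit 11,nat_lit 8,nat_lit 13],[nat_lit 11,nat_lit 9,nat_lit 12],
    [nat_lit 11,nat_lit 9,nat_lit 13],[nat_lit 11,nat_lit 12,nat_lit 9]],[[nat_lit 11,nat_lit 13,nat_lit 8],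
    [nat_lit 11,nat_lit 13,nat_lit 9],[nat_lit 12,nat_lit 1,nat_lit 7],[nat_lit 12,nat_lit 4,nat_lit 12,nat_lit 4],
    [nat_lit 12,nat_lit 5,nat_lit 5,nat_lit 12],[nat_lit 12,nat_lit 5,nat_lit 12,nat_lit 5],[nat_lit 12,nat_lit 6,
    nat_lit 0],[nat_lit 12,nat_lit 6,nat_lit 1],[nat_lit 12,nat_lit 8,nat_lit 10],[nat_lit 12,nat_lit 9,nat_lit 10],
    [nat_lit 12,nat_lit 9,nat_lit 11],[nat_lit 12,nat_lit 10,nat_lit 8]],[[nat_lit 12,nat_lit 10,nat_lit 9],
    [nat_lit 12,nat_lit 11,nat_lit 8],[nat_lit 12,nat_lit 11,nat_lit 9],[nat_lit 12,nat_lit 12,nat_lit 5,nat_lit 5],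
    [nat_lit 13,nat_lit 0,nat_lit 7],[nat_lit 13,nat_lit 1,nat_lit 7],[nat_lit 13,nat_lit 4,nat_lit 4,nat_lit 13],
    [nat_lit 13,nat_lit 4,nat_lit 13,nat_lit 4],[nat_lit 13,nat_lit 5,nat_lit 13,nat_lit 5],[nat_lit 13,nat_lit 6,
    nat_lit 0],[nat_lit 13,nat_lit 8,nat_lit 10],[nat_lit 13,nat_lit 8,nat_lit 11]],[[nat_lit 13,nat_lit 9,
    nat_lit 10],[nat_lit 13,nat_lit 9,nat_lit 11],[nat_lit 13,nat_lit 10,nat_lit 8],[nat_lit 13,nat_lit 11,nat_lit 8],
    [nat_lit 13,nat_lit 11,nat_lit 9],[nat_lit 13,nat_lit 13,nat_lit 4,nat_lit 4]]]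
    [[nat_lit 66,nat_lit 68,nat_lit 77,nat_lit 114,nat_lit 129,nat_lit 65,nat_lit 67,nat_lit 69,nat_lit 78,
    nat_lit 115,nat_lit 32,nat_lit 35],[nat_lit 44,nat_lit 46,nat_lit 57,nat_lit 59,nat_lit 63,nat_lit 99,nat_lit 101,
    nat_lit 33,nat_lit 36,nat_lit 45,nat_lit 47,nat_lit 58],[nat_lit 64,nat_lit 90,nat_lit 100,nat_lit 102,nat_lit 10,
    nat_lit 12,nat_lit 19,nat_lit 21,nat_lit 28,nat_lit 30,nat_lit 39,nat_lit 40],[nat_lit 42,nat_lit 111,nat_lit 127,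
    nat_lit 137,nat_lit 11,nat_lit 13,nat_lit 20,nat_lit 22,nat_lit 29,nat_lit 31,nat_lit 41,nat_lit 43],[nat_lit 50,
    nat_lit 113,nat_lit 123,nat_lit 128,nat_lit 3,nat_lit 4,nat_lit 9,nat_lit 17,nat_lit 26,nat_lit 86,nat_lit 88,
    nat_lit 98],[nat_lit 18,nat_lit 25,nat_lit 27,nat_lit 87,nat_lit 89,nat_lit 110,nat_lit 124,nat_lit 125,nat_lit 1,
    nat_lit 7,nat_lit 94,nat_lit 96],[nat_lit 108,nat_lit 119,nat_lit 121,nat_lit 134,nat_lit 135,nat_lit 2,nat_lit 8,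
    nat_lit 95,nat_lit 97,nat_lit 107,nat_lit 109,nat_lit 120],[nat_lit 122,nat_lit 136,nat_lit 14,nat_lit 16,
    nat_lit 23,nat_lit 24,nat_lit 61,nat_lit 73,nat_lit 75,nat_lit 83,nat_lit 116,nat_lit 117],[nat_lit 130,
    nat_lit 132,nat_lit 15,nat_lit 55,nat_lit 56,nat_lit 60,nat_lit 62,nat_lit 74,nat_lit 76,nat_lit 84,nat_lit 85,
    nat_lit 118],[nat_lit 131,nat_lit 133,nat_lit 5,nat_lit 37,nat_lit 48,nat_lit 49,nat_lit 52,nat_lit 54,nat_lit 70,
    nat_lit 79,nat_lit 81,nat_lit 91],[nat_lit 93,nat_lit 103,nat_lit 105,nat_lit 112,nat_lit 0,nat_lit 6,nat_lit 34,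
    nat_lit 38,nat_lit 51,nat_lit 53,nat_lit 71,nat_lit 72],[nat_lit 80,nat_lit 82,nat_lit 92,nat_lit 104,nat_lit 106,
    nat_lit 126]]
    [[nat_lit 124,nat_lit 68,nat_lit 77,nat_lit 52,nat_lit 53,nat_lit 110,nat_lit 125,nat_lit 69,nat_lit 78,
    nat_lit 54,nat_lit 28,nat_lit 40],[nat_lit 29,nat_lit 41,nat_lit 86,nat_lit 98,nat_lit 87,nat_lit 55,nat_lit 60,
    nat_lit 30,nat_lit 42,nat_lit 31,nat_lit 43,nat_lit 88],[nat_lit 89,nat_lit 61,nat_lit 56,nat_lit 62,nat_lit 32,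
    nat_lit 44,nat_lit 33,nat_lit 45,nat_lit 10,nat_lit 19,nat_lit 126,nat_lit 11],[nat_lit 20,nat_lit 111,
    nat_lit 127,nat_lit 34,nat_lit 35,nat_lit 46,nat_lit 36,nat_lit 47,nat_lit 12,nat_lit 21,nat_lit 13,nat_lit 22],
    [nat_lit 112,nat_lit 113,nat_lit 48,nat_lit 128,nat_lit 114,nat_lit 129,nat_lit 115,nat_lit 99,nat_lit 100,
    nat_lit 14,nat_lit 23,nat_lit 15],[nat_lit 101,nat_lit 90,nat_lit 102,nat_lit 16,nat_lit 24,nat_lit 5,nat_lit 0,
    nat_lit 6,nat_lit 1,nat_lit 7,nat_lit 116,nat_lit 130],[nat_lit 131,nat_lit 91,nat_lit 103,nat_lit 92,nat_lit 104,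
    nat_lit 2,nat_lit 8,nat_lit 117,nat_lit 132,nat_lit 118,nat_lit 133,nat_lit 93],[nat_lit 105,nat_lit 106,
    nat_lit 57,nat_lit 63,nat_lit 58,nat_lit 64,nat_lit 25,nat_lit 119,nat_lit 134,nat_lit 120,nat_lit 70,nat_lit 79],
    [nat_lit 71,nat_lit 80,nat_lit 59,nat_lit 17,nat_lit 26,nat_lit 18,nat_lit 27,nat_lit 121,nat_lit 135,nat_lit 122,
    nat_lit 136,nat_lit 81],[nat_lit 72,nat_lit 82,nat_lit 65,nat_lit 37,nat_lit 123,nat_lit 49,nat_lit 3,nat_lit 9,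
    nat_lit 94,nat_lit 95,nat_lit 107,nat_lit 73],[nat_lit 83,nat_lit 74,nat_lit 84,nat_lit 50,nat_lit 66,nat_lit 67,
    nat_lit 137,nat_lit 38,nat_lit 51,nat_lit 4,nat_lit 96,nat_lit 108],[nat_lit 97,nat_lit 109,nat_lit 75,nat_lit 76,
    nat_lit 85,nat_lit 39]]
    [[[nat_lit 113,nat_lit 123],[nat_lit 116,nat_lit 117],[nat_lit 110],[nat_lit 114],[nat_lit 118],[nat_lit 20,
    nat_lit 22],[nat_lit 20,nat_lit 22],[nat_lit 23,nat_lit 24],[nat_lit 25,nat_lit 27],[],[nat_lit 3,nat_lit 4],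
    [nat_lit 3,nat_lit 4]],[[],[],[nat_lit 1],[nat_lit 1],[],[nat_lit 2],[nat_lit 2],[],[],[nat_lit 45,nat_lit 47],
    [nat_lit 45,nat_lit 47],[]],[[nat_lit 41,nat_lit 43,nat_lit 50],[nat_lit 48,nat_lit 49],[],[],[nat_lit 10,
    nat_lit 12],[nat_lit 10,nat_lit 12],[],[],[nat_lit 17],[nat_lit 17],[nat_lit 17],[]],[[],[],[nat_lit 15],
    [nat_lit 15],[],[],[nat_lit 65,nat_lit 67],[nat_lit 65,nat_lit 67],[],[],[nat_lit 64],[nat_lit 64]],[[nat_lit 64],
    [nat_lit 66],[nat_lit 66],[nat_lit 60,nat_lit 62],[nat_lit 32,nat_lit 35],[nat_lit 32,nat_lit 35],[nat_lit 34,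
    nat_lit 38],[nat_lit 28,nat_lit 30,nat_lit 39],[],[nat_lit 37],[nat_lit 37],[]],[[],[nat_lit 78],[nat_lit 78],
    [nat_lit 79,nat_lit 81],[nat_lit 79,nat_lit 81],[nat_lit 77],[nat_lit 84,nat_lit 85],[nat_lit 84,nat_lit 85],
    [nat_lit 57,nat_lit 59],[nat_lit 53],[nat_lit 52,nat_lit 54],[nat_lit 52,nat_lit 54]],[[],[],[],[nat_lit 55,
    nat_lit 56],[nat_lit 55,nat_lit 56],[nat_lit 99,nat_lit 101],[nat_lit 104,nat_lit 106],[nat_lit 103,nat_lit 105],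
    [nat_lit 103,nat_lit 105],[nat_lit 107,nat_lit 109],[nat_lit 107,nat_lit 109],[]],[[],[],[],[],[nat_lit 69],
    [nat_lit 69],[],[nat_lit 73,nat_lit 75],[nat_lit 73,nat_lit 75],[],[nat_lit 68],[nat_lit 68]],[[nat_lit 74,
    nat_lit 76],[nat_lit 74,nat_lit 76],[nat_lit 127,nat_lit 137],[nat_lit 134,nat_lit 135],[nat_lit 134,nat_lit 135],
    [nat_lit 128],[nat_lit 128],[nat_lit 130,nat_lit 132],[nat_lit 130,nat_lit 132],[nat_lit 124,nat_lit 125],
    [nat_lit 124,nat_lit 125],[nat_lit 129]],[[nat_lit 131,nat_lit 133],[nat_lit 131,nat_lit 133],[nat_lit 92],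
    [nat_lit 86,nat_lit 88],[nat_lit 90],[nat_lit 90],[nat_lit 94,nat_lit 96],[nat_lit 94,nat_lit 96],[],[nat_lit 87,
    nat_lit 89],[nat_lit 87,nat_lit 89],[nat_lit 91,nat_lit 93]],[[nat_lit 91,nat_lit 93],[nat_lit 95,nat_lit 97],
    [nat_lit 95,nat_lit 97],[],[],[nat_lit 6],[nat_lit 9],[nat_lit 9],[],[nat_lit 7],[],[]],[[],[],[nat_lit 5],
    [nat_lit 8],[nat_lit 8],[]]]
    (nat_lit 138) [nat_lit 0,nat_lit 1,nat_lit 2,nat_lit 3,nat_lit 4,nat_lit 5,nat_lit 6,nat_lit 7,nat_lit 8,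
    nat_lit 9,nat_lit 10,nat_lit 11,nat_lit 12,nat_lit 13,nat_lit 14,nat_lit 15,nat_lit 16,nat_lit 17,nat_lit 18,
    nat_lit 19,nat_lit 20,nat_lit 21,nat_lit 22,nat_lit 23,nat_lit 24,nat_lit 25,nat_lit 26,nat_lit 27,nat_lit 34,
    nat_lit 37,nat_lit 38,nat_lit 39,nat_lit 48,nat_lit 49,nat_lit 50,nat_lit 51,nat_lit 70,nat_lit 71,nat_lit 72,
    nat_lit 73,nat_lit 74,nat_lit 75,nat_lit 76,nat_lit 79,nat_lit 80,nat_lit 81,nat_lit 82,nat_lit 83,nat_lit 84,
    nat_lit 85]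
    [[[],[],[],[],[],[],[nat_lit 3,nat_lit 4],[],[nat_lit 1],[nat_lit 2],[],[],[],[nat_lit 0]],[[],[],[],[],[],[],
    [nat_lit 9],[],[nat_lit 7],[nat_lit 8],[],[],[nat_lit 5],[nat_lit 6]],[[],[],[],[],[nat_lit 10,nat_lit 12],
    [nat_lit 11,nat_lit 13],[nat_lit 17],[nat_lit 18],[],[],[nat_lit 14,nat_lit 16],[nat_lit 15],[],[]],[[],[],[],[],
    [nat_lit 19,nat_lit 21],[nat_lit 20,nat_lit 22],[nat_lit 26],[nat_lit 25,nat_lit 27],[],[],[nat_lit 23,
    nat_lit 24],[],[],[]],[[],[],[nat_lit 32,nat_lit 35],[nat_lit 33,nat_lit 36],[nat_lit 28,nat_lit 30,nat_lit 39],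
    [nat_lit 29,nat_lit 31],[],[],[],[],[],[],[nat_lit 37],[nat_lit 34,nat_lit 38]],[[],[],[nat_lit 44,nat_lit 46],
    [nat_lit 45,nat_lit 47],[nat_lit 40,nat_lit 42],[nat_lit 41,nat_lit 43,nat_lit 50],[],[],[],[],[],[],[nat_lit 48,
    nat_lit 49],[nat_lit 51]],[[],[],[nat_lit 57,nat_lit 59],[nat_lit 58],[],[],[],[],[],[],[],[nat_lit 55,
    nat_lit 56],[nat_lit 52,nat_lit 54],[nat_lit 53]],[[nat_lit 66],[nat_lit 65,nat_lit 67],[nat_lit 63],[nat_lit 64],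
    [],[],[],[],[],[],[nat_lit 61],[nat_lit 60,nat_lit 62],[],[]],[[nat_lit 68],[nat_lit 69],[],[],[],[],[],[],[],[],
    [nat_lit 73,nat_lit 75],[nat_lit 74,nat_lit 76],[nat_lit 70],[nat_lit 71,nat_lit 72]],[[nat_lit 77],[nat_lit 78],
    [],[],[],[],[],[],[],[],[nat_lit 83],[nat_lit 84,nat_lit 85],[nat_lit 79,nat_lit 81],[nat_lit 80,nat_lit 82]],[[],
    [],[],[nat_lit 90],[],[],[nat_lit 86,nat_lit 88],[nat_lit 87,nat_lit 89],[nat_lit 94,nat_lit 96],[nat_lit 95,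
    nat_lit 97],[],[],[nat_lit 91,nat_lit 93],[nat_lit 92]],[[],[],[nat_lit 99,nat_lit 101],[nat_lit 100,nat_lit 102],
    [],[],[nat_lit 98],[],[nat_lit 108],[nat_lit 107,nat_lit 109],[],[],[nat_lit 103,nat_lit 105],[nat_lit 104,
    nat_lit 106]],[[nat_lit 114],[nat_lit 115],[],[],[nat_lit 111],[nat_lit 113,nat_lit 123],[],[nat_lit 110],
    [nat_lit 119,nat_lit 121],[nat_lit 120,nat_lit 122],[nat_lit 116,nat_lit 117],[nat_lit 118],[nat_lit 112],[]],
    [[nat_lit 129],[],[],[],[nat_lit 127,nat_lit 137],[nat_lit 128],[],[nat_lit 124,nat_lit 125],[nat_lit 134,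
    nat_lit 135],[nat_lit 136],[nat_lit 130,nat_lit 132],[nat_lit 131,nat_lit 133],[],[nat_lit 126]]]
    [[[nat_lit 0x8020000000000000000000000000000,nat_lit 0x300000000000000000000000000000,
    nat_lit 0x4000000000000000000000000000,nat_lit 0x40000000000000000000000000000,
    nat_lit 0x400000000000000000000000000000,nat_lit 0x500000,nat_lit 0x500000,nat_lit 0x1800000,nat_lit 0xa000000],
    [nat_lit 0,nat_lit 24,nat_lit 24,nat_lit 0,nat_lit 0,nat_lit 2,nat_lit 2,nat_lit 0,nat_lit 4],[nat_lit 4,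
    nat_lit 0,nat_lit 0,nat_lit 0xa00000000000,nat_lit 0xa00000000000,nat_lit 0,nat_lit 0x40a0000000000,
    nat_lit 0x3000000000000,nat_lit 0],[nat_lit 0,nat_lit 0x1400,nat_lit 0x1400,nat_lit 0,nat_lit 0,nat_lit 0x20000,
    nat_lit 0x20000,nat_lit 0x20000,nat_lit 0],[nat_lit 0,nat_lit 0,nat_lit 0x8000,nat_lit 0x8000,nat_lit 0,nat_lit 0,
    nat_lit 0xa0000000000000000,nat_lit 0xa0000000000000000,nat_lit 0],[nat_lit 0,nat_lit 0x10000000000000000,
    nat_lit 0x10000000000000000,nat_lit 0x10000000000000000,nat_lit 0x40000000000000000,nat_lit 0x40000000000000000,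
    nat_lit 0x5000000000000000,nat_lit 0x900000000,nat_lit 0x900000000],[nat_lit 0x4400000000,nat_lit 0x8050000000,
    nat_lit 0,nat_lit 0x2000000000,nat_lit 0x2000000000,nat_lit 0,nat_lit 0,nat_lit 0x40000000000000000000,
    nat_lit 0x40000000000000000000],[nat_lit 0x280000000000000000000,nat_lit 0x280000000000000000000,
    nat_lit 0x20000000000000000000,nat_lit 0x3000000000000000000000,nat_lit 0x3000000000000000000000,
    nat_lit 0xa00000000000000,nat_lit 0x20000000000000,nat_lit 0x50000000000000,nat_lit 0x50000000000000],[nat_lit 0,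
    nat_lit 0,nat_lit 0,nat_lit 0x180000000000000,nat_lit 0x180000000000000,nat_lit 0x28000000000000000000000000,
    nat_lit 0x500000000000000000000000000,nat_lit 0x280000000000000000000000000,
    nat_lit 0x280000000000000000000000000]],[[nat_lit 0x2800000000000000000000000000,
    nat_lit 0x2800000000000000000000000000,nat_lit 0,nat_lit 0,nat_lit 0,nat_lit 0,nat_lit 0,
    nat_lit 0x200000000000000000,nat_lit 0x200000000000000000],[nat_lit 0,nat_lit 0xa000000000000000000,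
    nat_lit 0xa000000000000000000,nat_lit 0,nat_lit 0x100000000000000000,nat_lit 0x100000000000000000,
    nat_lit 0x14000000000000000000,nat_lit 0x14000000000000000000,nat_lit 0x20080000000000000000000000000000000],
    [nat_lit 0xc000000000000000000000000000000000,nat_lit 0xc000000000000000000000000000000000,
    nat_lit 0x100000000000000000000000000000000,nat_lit 0x100000000000000000000000000000000,
    nat_lit 0x1400000000000000000000000000000000,nat_lit 0x1400000000000000000000000000000000,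
    nat_lit 0x30000000000000000000000000000000,nat_lit 0x30000000000000000000000000000000,
    nat_lit 0x200000000000000000000000000000000],[nat_lit 0x2800000000000000000000000000000000,
    nat_lit 0x2800000000000000000000000000000000,nat_lit 0x100000000000000000000000,nat_lit 0x14000000000000000000000,
    nat_lit 0x40000000000000000000000,nat_lit 0x40000000000000000000000,nat_lit 0x1400000000000000000000000,
    nat_lit 0x1400000000000000000000000,nat_lit 0],[nat_lit 0x28000000000000000000000,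
    nat_lit 0x28000000000000000000000,nat_lit 0x280000000000000000000000,nat_lit 0x280000000000000000000000,
    nat_lit 0x2800000000000000000000000,nat_lit 0x2800000000000000000000000,nat_lit 0,nat_lit 0,nat_lit 64],
    [nat_lit 512,nat_lit 512,nat_lit 0,nat_lit 128,nat_lit 0,nat_lit 0,nat_lit 0,nat_lit 0,nat_lit 32],[nat_lit 256,
    nat_lit 256,nat_lit 0]]]
    [[[[nat_lit 0,nat_lit 0,nat_lit 0,nat_lit 0x40000000000000000000000000000,nat_lit 0,nat_lit 0,nat_lit 0,nat_lit 0,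
    nat_lit 0],[nat_lit 0,nat_lit 0,nat_lit 0,nat_lit 0,nat_lit 0,nat_lit 0,nat_lit 0,nat_lit 0,nat_lit 0],[nat_lit 0,
    nat_lit 0,nat_lit 0,nat_lit 0,nat_lit 0x800000000000,nat_lit 0,nat_lit 0x80000000000,nat_lit 0,nat_lit 0],
    [nat_lit 0,nat_lit 0x400,nat_lit 0,nat_lit 0,nat_lit 0,nat_lit 0x20000,nat_lit 0,nat_lit 0,nat_lit 0],[nat_lit 0,
    nat_lit 0,nat_lit 0,nat_lit 0,nat_lit 0,nat_lit 0,nat_lit 0,nat_lit 0x80000000000000000,nat_lit 0],[nat_lit 0,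
    nat_lit 0,nat_lit 0,nat_lit 0,nat_lit 0,nat_lit 0,nat_lit 0,nat_lit 0x100000000,nat_lit 0],[nat_lit 0,nat_lit 0,
    nat_lit 0,nat_lit 0,nat_lit 0,nat_lit 0,nat_lit 0,nat_lit 0,nat_lit 0],[nat_lit 0,nat_lit 0,nat_lit 0,nat_lit 0,
    nat_lit 0x1000000000000000000000,nat_lit 0,nat_lit 0,nat_lit 0,nat_lit 0x10000000000000],[nat_lit 0,nat_lit 0,
    nat_lit 0,nat_lit 0,nat_lit 0,nat_lit 0,nat_lit 0,nat_lit 0,nat_lit 0]],[[nat_lit 0,nat_lit 0,nat_lit 0,nat_lit 0,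
    nat_lit 0,nat_lit 0,nat_lit 0,nat_lit 0,nat_lit 0],[nat_lit 0,nat_lit 0,nat_lit 0,nat_lit 0,nat_lit 0,nat_lit 0,
    nat_lit 0,nat_lit 0,nat_lit 0],[nat_lit 0x8000000000000000000000000000000000,nat_lit 0,nat_lit 0,nat_lit 0,
    nat_lit 0,nat_lit 0x400000000000000000000000000000000,nat_lit 0,nat_lit 0,nat_lit 0],[nat_lit 0,nat_lit 0,
    nat_lit 0,nat_lit 0,nat_lit 0,nat_lit 0,nat_lit 0,nat_lit 0,nat_lit 0],[nat_lit 0x20000000000000000000000,
    nat_lit 0,nat_lit 0,nat_lit 0,nat_lit 0,nat_lit 0x800000000000000000000000,nat_lit 0,nat_lit 0,nat_lit 64],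
    [nat_lit 0,nat_lit 0,nat_lit 0,nat_lit 0,nat_lit 0,nat_lit 0,nat_lit 0,nat_lit 0,nat_lit 0],[nat_lit 0,nat_lit 0,
    nat_lit 0]]]]
    (nat_lit 1) (nat_lit 1) (nat_lit 8)
    [[nat_lit 257,nat_lit 0x1101,nat_lit 0x1000101,nat_lit 0x1001,nat_lit 0x11001,nat_lit 0x1000001],[nat_lit 32,
    nat_lit 272,nat_lit 0x1010,nat_lit 0x1110,nat_lit 0x1210,nat_lit 0x2010,nat_lit 0x10010,nat_lit 0x10110,
    nat_lit 0x100010,nat_lit 0x100110,nat_lit 0x100210,nat_lit 0x1000010,nat_lit 0x1000110],[nat_lit 512,nat_lit 768,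
    nat_lit 0x400,nat_lit 0x100400,nat_lit 0x1300,nat_lit 0x10300,nat_lit 0x100300,nat_lit 0x1000300,nat_lit 0x1200,
    nat_lit 0x2200,nat_lit 0x11200,nat_lit 0x101200,nat_lit 0x1001200,nat_lit 0x10200,nat_lit 0x20200,
    nat_lit 0x110200,nat_lit 0x1010200,nat_lit 0x100200,nat_lit 0x200300,nat_lit 0x200200,nat_lit 0x1100200,
    nat_lit 0x1000200,nat_lit 0x1100,nat_lit 0x2100,nat_lit 0x11100,nat_lit 0x101100,nat_lit 0x1001100,
    nat_lit 0x10100,nat_lit 0x20100,nat_lit 0x110100,nat_lit 0x1010100,nat_lit 0x100100,nat_lit 0x200100,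
    nat_lit 0x1100100,nat_lit 0x1000100,nat_lit 0x2000100],[nat_lit 0x2000,nat_lit 0x3000,nat_lit 0x12000,
    nat_lit 0x102000,nat_lit 0x1002000,nat_lit 0x11000,nat_lit 0x21000,nat_lit 0x1011000,nat_lit 0x111000,
    nat_lit 0x101000,nat_lit 0x1101000,nat_lit 0x1001000,nat_lit 0x2001000],[nat_lit 0x20000,nat_lit 0x30000,
    nat_lit 0x120000,nat_lit 0x1020000,nat_lit 0x110000,nat_lit 0x1010000,nat_lit 0x2010000],[nat_lit 0x200000,
    nat_lit 0x1100000],[nat_lit 0x2000000,nat_lit 0x3000000]]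
    [.c (nat_lit 6) (nat_lit 0x300c02),.c (nat_lit 2) (nat_lit 0x4210803),.c (nat_lit 1) (nat_lit 0xc02),
    .c (nat_lit 3) (nat_lit 0x6300802),.c (nat_lit 0) (nat_lit 0x4010862),.c (nat_lit 0) (nat_lit 0x4200003),
    .c (nat_lit 2) (nat_lit 2),.c (nat_lit 7) (nat_lit 0x18c02),.c (nat_lit 0) (nat_lit 0x4010003),
    .c (nat_lit 1) (nat_lit 0x4210803),.c (nat_lit 0) (nat_lit 0x19402),.c (nat_lit 1) (nat_lit 0x8410003),
    .r (nat_lit 32) (nat_lit 6) [nat_lit 0xc6000861,nat_lit 65],.c (nat_lit 6) (nat_lit 0x6300043),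
    .c (nat_lit 0) (nat_lit 0x4010003),.c (nat_lit 1) (nat_lit 0x218c02),.c (nat_lit 0) (nat_lit 0x19402),
    .r (nat_lit 0x13c8) (nat_lit 4) [nat_lit 0x146518841,nat_lit 0x6018861,nat_lit 0x104430c61,nat_lit 0x104410c41],
    .c (nat_lit 2) (nat_lit 0xc02),.c (nat_lit 3) (nat_lit 2),.r (nat_lit 0x1136) (nat_lit 4) [nat_lit 0x20001,
    nat_lit 0x14a549001,nat_lit 0x208401441,nat_lit 0x440061],.c (nat_lit 2) (nat_lit 0x22003),
    .r (nat_lit 0x9df) (nat_lit 1) [nat_lit 65,nat_lit 0xc6328861,nat_lit 0x80028061,nat_lit 0x220001,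
    nat_lit 0x4010041],.r (nat_lit 0x9e0) (nat_lit 7) [nat_lit 0x146300841,nat_lit 0x80028061,nat_lit 0x10001,
    nat_lit 0x84018061,nat_lit 0x220001],.r (nat_lit 0x9e1) (nat_lit 7) [nat_lit 65,nat_lit 0xc6328861,
    nat_lit 0x10001,nat_lit 0xc0318861,nat_lit 0x220001],.r (nat_lit 0x9e2) (nat_lit 13) [nat_lit 0x4010041,
    nat_lit 0x10001,nat_lit 65,nat_lit 0xc6328861,nat_lit 0x80028061],.c (nat_lit 2) (nat_lit 0x11803),
    .r (nat_lit 0x1953) (nat_lit 9) [nat_lit 0x10001,nat_lit 0xc0318801,nat_lit 65,nat_lit 0x104420c61],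
    .r (nat_lit 2) (nat_lit 1) [nat_lit 0x10001,nat_lit 0x108420062],
    .r (nat_lit 0x9e3) (nat_lit 7) [nat_lit 0x146300841,nat_lit 0x6348861,nat_lit 0x20001,nat_lit 0x4328861,
    nat_lit 0x440001],.c (nat_lit 2) (nat_lit 0x4021003),.r (nat_lit 2) (nat_lit 1) [nat_lit 0x10001,
    nat_lit 0x84220061],.r (nat_lit 2) (nat_lit 1) [nat_lit 0x10001,nat_lit 0xc0010861],
    .c (nat_lit 0) (nat_lit 0x104200a2),.r (nat_lit 0x13c8) (nat_lit 4) [nat_lit 0x1ca501061,nat_lit 0x80028041,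
    nat_lit 0x188421441,nat_lit 0x80420061],.c (nat_lit 0) (nat_lit 0x8210c62),
    .r (nat_lit 0x9de) (nat_lit 1) [nat_lit 65,nat_lit 0xc6328861,nat_lit 0x80028061,nat_lit 0x220001,
    nat_lit 0x4010041],.r (nat_lit 0x9e4) (nat_lit 1) [nat_lit 65,nat_lit 0x14a549061,nat_lit 0x100048061,
    nat_lit 0x440001,nat_lit 0x8020041],.r (nat_lit 32) (nat_lit 6) [nat_lit 66,nat_lit 0x14a001062],
    .r (nat_lit 32) (nat_lit 6) [nat_lit 0x18041,nat_lit 0xc6010861],.c (nat_lit 3) (nat_lit 0xc02),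
    .r (nat_lit 0x1b04) (nat_lit 3) [nat_lit 65,nat_lit 0xc0318801],
    .r (nat_lit 0x10e3) (nat_lit 4) [nat_lit 0x2006200a1,nat_lit 0x452b6a081,nat_lit 0x328081,nat_lit 0x440001],
    .r (nat_lit 0x9e5) (nat_lit 7) [nat_lit 0x146300841,nat_lit 0x6348861,nat_lit 0x20001,nat_lit 0x4328861,
    nat_lit 0x440001],.r (nat_lit 0x1136) (nat_lit 4) [nat_lit 0x20001,nat_lit 0x14a549001,nat_lit 0x188421441,
    nat_lit 0x80420061],.c (nat_lit 4) (nat_lit 0xc02),.c (nat_lit 4) (nat_lit 0x8210062),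
    .r (nat_lit 0x9e6) (nat_lit 3) [nat_lit 65,nat_lit 0x2200a1,nat_lit 0xc0318801,nat_lit 0x10061,
    nat_lit 0xc6328841],.c (nat_lit 2) (nat_lit 0x6300043),.c (nat_lit 1) (nat_lit 0x6018043),
    .r (nat_lit 32) (nat_lit 10) [nat_lit 0xc6000861,nat_lit 65],.r (nat_lit 0x9e7) (nat_lit 11) [nat_lit 0x20001,
    nat_lit 0x8020041,nat_lit 0x440001,nat_lit 0x100048061,nat_lit 0x14a549061],.c (nat_lit 6) (nat_lit 0xc02),
    .c (nat_lit 0) (nat_lit 0x803),.c (nat_lit 7) (nat_lit 0xc02),.c (nat_lit 4) (nat_lit 2),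
    .r (nat_lit 0x9e8) (nat_lit 3) [nat_lit 0x34e701841,nat_lit 0x6192634a1,nat_lit 0x1c0739801,nat_lit 0x30c631c61,
    nat_lit 0x4dad6b041],.r (nat_lit 0x9e9) (nat_lit 3) [nat_lit 0x24a501041,nat_lit 0x410c424a1,nat_lit 0x140529001,
    nat_lit 0x208421461,nat_lit 0x35294a041],.r (nat_lit 0x1953) (nat_lit 9) [nat_lit 0x10001,nat_lit 0xc0318801,
    nat_lit 0xc0020041,nat_lit 0x184400c61],.r (nat_lit 0x1b50) (nat_lit 12) [nat_lit 0x84000061,nat_lit 0x10001,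
    nat_lit 0x146318841],.r (nat_lit 0x1b50) (nat_lit 12) [nat_lit 0xc0318861,nat_lit 0x10001,nat_lit 65],
    .r (nat_lit 0x9ea) (nat_lit 3) [nat_lit 0x146300841,nat_lit 0x2086214a1,nat_lit 0xc0318801,nat_lit 0x104210c61,
    nat_lit 0x1ca529041],.c (nat_lit 1) (nat_lit 0x218c43),.r (nat_lit 2) (nat_lit 1) [nat_lit 0x10001,
    nat_lit 0x18861],.c (nat_lit 3) (nat_lit 0x6001002),.c (nat_lit 3) (nat_lit 0x6000802),
    .c (nat_lit 0) (nat_lit 0x4200003),.c (nat_lit 0) (nat_lit 0x4000003),.c (nat_lit 5) (nat_lit 2),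
    .r (nat_lit 0x9eb) (nat_lit 7) [nat_lit 65,nat_lit 0x1ce769861,nat_lit 0x30001,nat_lit 0x1c0739861,
    nat_lit 0x660001],.c (nat_lit 0) (nat_lit 0xc4210a2),.r (nat_lit 0x1b6e) (nat_lit 12) [nat_lit 0x10001,
    nat_lit 0x1c6729061,nat_lit 0x80200001],.c (nat_lit 3) (nat_lit 0x4211062),.c (nat_lit 0) (nat_lit 0x6318c43),
    .r (nat_lit 32) (nat_lit 6) [nat_lit 0xc6300861,nat_lit 0x200041],.c (nat_lit 6) (nat_lit 2),
    .c (nat_lit 0) (nat_lit 0x300003),.c (nat_lit 7) (nat_lit 2),.r (nat_lit 0x13c8) (nat_lit 4) [nat_lit 0x146318841,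
    nat_lit 0x6318861,nat_lit 0x104230c61,nat_lit 0x104610c41]]]

/-- nodes -/
noncomputable def rD7k_20_12 : List RJ :=
  [.l (nat_lit 16) (nat_lit 0x2d00) (nat_lit 3) (nat_lit 0x127600001026000013220000110800001200000013600000124c0000124c000012000000120000000f50000010d40000118700001187) (nat_lit 0x33a000000ea000002580000003e0000000000000160000001140000011400000160000001600000028c00000410000001d9000001d9)
    (nat_lit 0xf00118c0cf811c612761300160c176c130011160b400b40109d140b0cec0f000d240fe810260d78159416f40d780f380d9a0b6c0ebf0e830fe811c6121812e40b40126c119c120e126c0b4010601060118511490d240cf80f54121811080fa80e7c0ff40fa811080f200ce00d450e730d7813000fa8126c12000ffc0f8c10ec10b8121810300df0134d0f831026127611080b4013601200124c124c121812000f500f500b7d118716f4176c0ff4120e124c10ec1138113810ec10ec0fc00e24107311f71594160c0e7c119c124c0f8c113811380f8c10ec0fc00f1c107310970f38111611080b401200121810ec10ec0fc010a00f500f500b7d10270d7813000fa8126c121810b80f8c10ec0e600fc010300df0134d0d2b0b6c0b400ce010600f500df00f1c0e240df00f500fc00d800b8d0cbb0d9a0b400f2010600f5010300fc00fc010300f500fc00fc00b8d0efb0e83140b0e73114911870f83109711f70d2b10270efb0cbb14580e360ebf109d0d4511850b7d134d10731073134d0b7d0b8d0b8d0fae1458)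
    (nat_lit 0xf002d002d002d002d002d002d002d002d002d002d002d002d002d00118c0f002d002d002d002d002d002d002d002d002d002d002d002d000cf80d2412182d002d002d002d002d002d002d002d002d002d002d0011c60fe812e412182d002d002d002d002d002d002d002d002d002d00127610260b40110812002d002d002d002d002d002d002d002d002d0013000d78126c0fa80ffc12002d002d002d002d002d002d002d002d00160c1594119c0e7c0f8c124c11382d002d002d002d002d002d002d00176c16f4120e0ff410ec124c113811382d002d002d002d002d002d0013000d78126c0fa810b8121810ec0f8c0fc02d002d002d002d002d0011160f380b4011081218120010ec10ec10a00fc02d002d002d002d000b400d9a10600f2010300f500fc00fc00f5010300fc02d002d002d000b400b6c10600ce00df00f500e240f1c0f500df00d800fc02d002d00109d0ebf11850d45134d0b7d107310730b7d134d0b8d0b8d14582d00140b0e8311490e730f83118711f7109710270d2b0cbb0efb0e361458)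
    (nat_lit 4) (nat_lit 43)
    [[nat_lit 2,nat_lit 18,nat_lit 17,nat_lit 33,nat_lit 273,nat_lit 0x1011,nat_lit 0x10011,nat_lit 0x100011,
    nat_lit 0x1000011,nat_lit 257,nat_lit 513,nat_lit 0x100101,nat_lit 0x1001,nat_lit 0x10001,nat_lit 0x10101,
    nat_lit 0x110001,nat_lit 0x100001,nat_lit 0x1000001],[nat_lit 32,nat_lit 0x1000020,nat_lit 272,nat_lit 0x1000110,
    nat_lit 0x100110,nat_lit 0x1010,nat_lit 0x10010,nat_lit 0x110010,nat_lit 0x1010010,nat_lit 0x100010,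
    nat_lit 0x1100010,nat_lit 0x1000010,nat_lit 0x2000010],[nat_lit 512,nat_lit 0x100200,nat_lit 0x1100,
    nat_lit 0x101100,nat_lit 0x10100,nat_lit 0x100100,nat_lit 0x1000100,nat_lit 0x1100100],[nat_lit 0x2000,
    nat_lit 0x11000,nat_lit 0x111000,nat_lit 0x101000],[nat_lit 0x20000,nat_lit 0x120000,nat_lit 0x110000,
    nat_lit 0x1110000,nat_lit 0x1010000],[nat_lit 0x200000,nat_lit 0x1100000,nat_lit 0x2100000],[nat_lit 0x2000000]]
    [.c (nat_lit 1) (nat_lit 2),.c (nat_lit 1) (nat_lit 0x2232),.c (nat_lit 0) (nat_lit 0x3323),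
    .c (nat_lit 2) (nat_lit 0x2232),.c (nat_lit 3) (nat_lit 0x2232),.c (nat_lit 4) (nat_lit 0x2232),
    .c (nat_lit 5) (nat_lit 0x2232),.c (nat_lit 6) (nat_lit 0x2232),.c (nat_lit 4) (nat_lit 0x3023),
    .c (nat_lit 0) (nat_lit 0x22203),.r (nat_lit 0x174e) (nat_lit 1) [nat_lit 0x33201,nat_lit 0x330021],
    .r (nat_lit 0x1aad) (nat_lit 5) [nat_lit 0x333021,nat_lit 0x33201,nat_lit 0x2001],
    .c (nat_lit 0) (nat_lit 0x22203),.r (nat_lit 0) (nat_lit 13) [nat_lit 0x2001,nat_lit 33],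
    .r (nat_lit 0x1b6e) (nat_lit 2) [nat_lit 0x3231,nat_lit 0x330001,nat_lit 33],
    .r (nat_lit 0x1595) (nat_lit 5) [nat_lit 0x4001,nat_lit 0x240031,nat_lit 0x355431,nat_lit 0x200021],
    .r (nat_lit 0x19b4) (nat_lit 12) [nat_lit 0x33201,nat_lit 0x22321,nat_lit 0x2001],
    .r (nat_lit 0x1a62) (nat_lit 4) [nat_lit 33,nat_lit 0x220031,nat_lit 0x2001],.c (nat_lit 2) (nat_lit 2),
    .r (nat_lit 0x1595) (nat_lit 5) [nat_lit 0x4001,nat_lit 0x484521,nat_lit 33,nat_lit 0x55431],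
    .r (nat_lit 0x1b04) (nat_lit 8) [nat_lit 33,nat_lit 0x2001],.r (nat_lit 0x159c) (nat_lit 9) [nat_lit 0x242321,
    nat_lit 0x202231,nat_lit 0x303231,nat_lit 0x302321],.r (nat_lit 32) (nat_lit 1) [nat_lit 0x3231,nat_lit 0x2001],
    .r (nat_lit 0x12f0) (nat_lit 7) [nat_lit 0x40001,nat_lit 0x350231,nat_lit 0x200231,nat_lit 0x355221],
    .r (nat_lit 0x1ab9) (nat_lit 4) [nat_lit 0x33231,nat_lit 33,nat_lit 0x2001],.c (nat_lit 4) (nat_lit 0x22432),
    .c (nat_lit 6) (nat_lit 0x33323),.r (nat_lit 0x1abe) (nat_lit 9) [nat_lit 0x2001,nat_lit 0x30021,nat_lit 0x3231],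
    .c (nat_lit 5) (nat_lit 0x33323),.c (nat_lit 3) (nat_lit 0x24232),
    .r (nat_lit 0x159e) (nat_lit 1) [nat_lit 0x533231,nat_lit 0x32231,nat_lit 0x462321,nat_lit 0x55401],
    .c (nat_lit 3) (nat_lit 2),.r (nat_lit 0x17a4) (nat_lit 8) [nat_lit 0x33201,nat_lit 0x2001,nat_lit 0x242301,
    nat_lit 0x262331],.c (nat_lit 2) (nat_lit 0x35522),.r (nat_lit 0x1b6e) (nat_lit 2) [nat_lit 0x355221,
    nat_lit 0x330001,nat_lit 0x242031],.c (nat_lit 0) (nat_lit 0x2003),.c (nat_lit 0) (nat_lit 0x2003),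
    .r (nat_lit 0x174e) (nat_lit 1) [nat_lit 0x33201,nat_lit 33],.r (nat_lit 4) (nat_lit 10) [nat_lit 0x33201,
    nat_lit 0x22031],.c (nat_lit 4) (nat_lit 2),.r (nat_lit 4) (nat_lit 10) [nat_lit 0x33201,nat_lit 33],
    .r (nat_lit 0x174e) (nat_lit 1) [nat_lit 0x33201,nat_lit 0x22031],.r (nat_lit 8) (nat_lit 5) [nat_lit 0x33201,
    nat_lit 33],.c (nat_lit 5) (nat_lit 2),.r (nat_lit 0x17a4) (nat_lit 8) [nat_lit 0x33201,nat_lit 0x2001,
    nat_lit 0x242301,nat_lit 0x222321],.c (nat_lit 0) (nat_lit 0x2003),.c (nat_lit 2) (nat_lit 0x33323),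
    .r (nat_lit 0x1b6e) (nat_lit 2) [nat_lit 0x333231,nat_lit 0x330001,nat_lit 0x220021],.c (nat_lit 6) (nat_lit 2),
    .r (nat_lit 0x1aad) (nat_lit 5) [nat_lit 0x3021,nat_lit 0x33201,nat_lit 0x2001],
    .r (nat_lit 0x1556) (nat_lit 8) [nat_lit 0x55401,nat_lit 33,nat_lit 0x500031,nat_lit 0x4031],
    .c (nat_lit 7) (nat_lit 2)],
    .l (nat_lit 17) (nat_lit 0x5640) (nat_lit 3) (nat_lit 0x23ba000026cc000026fa00002cda00002dca0000285e0000249400001f3e0000267c0000267c00002574000022ac000025400000254c) (nat_lit 0x6fe00000a10000000f0000006d00000056c0000000000000e8c000009360000074e0000074e00000b1e000008560000087e0000088a)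
    (nat_lit 0x105a066a82b201ce40bca08ee82b20159011e9071b02e141b700d9e06cc0479820b412a907ff042c021b60ac8056403efc225c0dd705c703ca81e420ffe0739056401c2c14ca09e102b201dc413830897037b81ea40d42079c04aa415901d0a0ac805d782cda0dc908dd867c82f3a0ac80921048b81d6810db08ee859b42784144607e802b201d46133e0a4e05328171c19430c5b042c01794175e0a6502b20288c0bf807ca0422015900b4c0802049a823ba0ac80564046ec1dc40f9407518431028c00ea307ca02b201c3e116808ac82b2015900dc9056402fe015900ce9086202b2017f00ac805ba02d8016c0112e071b05e74225c0ac80a4e02fe01f280f970583836a420860ece072083efc23d219f209c184220267c0ac8075182ef01f2e115c078983be4163c0b8e06dc049081ea4100405c702dd01c3e0f1308218441824d40ac805640375c170a0ac806f702d3029940ac80564045701b520bca08830345c1a220f2106cc03ad01e7011dd0c5b02d8022b20b1e07208344415900f2a072c03ca81b3c122e06a1049a832860b6008b403be41d9c0d1705640399c1e54)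
    (nat_lit 0x105a15900ac8056402b2015900ac8056402b2015900ac8056402b2015900335420b42b2015900ac8056402b2015900ac8056402b2015900ac8056400ac809548564056402b2015900ac8056402b2015900ac8056402b201590039c81ffc0e160ac80ac8056402b2015900ac8056402b2015900ac8056400bca0858053282ebc144615900ac8056402b2015900ac8056402b2015900477421b613c20b3683f40288c2b2015900ac8056402b2015900ac8056400ac8056402b201b920ac805fc0431056402b2015900ac8056402b20159002b2015900ee208dd83a8c1f28146008620ac8056402b2015900ac80564011e907df84e0c33e4133e084403a8c15900f9715900ac8056402b201590038d8225c112e0bce8527015900f9405fc02c1c1f2e2b2015900ac8056400b8506eb837b8159014ca05a602b2015900da908ae0441856402b201590036e0171c0f52092102e3820080e1f05ba0410c1e26126a08830ac8056400d9e079503508245c18a50935045a016c00ece077c82b201a2e0f2a1590036601e420f38075a0627c23ba115905b003904163c0ac80688839601e54)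
    (nat_lit 4) (nat_lit 79)
    [[nat_lit 2,nat_lit 18,nat_lit 258,nat_lit 17,nat_lit 33,nat_lit 273,nat_lit 0x1011,nat_lit 0x100011,
    nat_lit 0x1000011,nat_lit 0x10011,nat_lit 257,nat_lit 513,nat_lit 0x1101,nat_lit 0x1001,nat_lit 0x101001,
    nat_lit 0x1001001,nat_lit 0x100001,nat_lit 0x1100001,nat_lit 0x1000001,nat_lit 0x1000101],[nat_lit 32,
    nat_lit 0x1020,nat_lit 0x10020,nat_lit 0x1000020,nat_lit 272,nat_lit 528,nat_lit 0x1110,nat_lit 0x10110,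
    nat_lit 0x1010,nat_lit 0x2010,nat_lit 0x11010,nat_lit 0x101010,nat_lit 0x1001010,nat_lit 0x10010,
    nat_lit 0x1010010,nat_lit 0x100010,nat_lit 0x1100010,nat_lit 0x100110,nat_lit 0x1000010,nat_lit 0x2000010],
    [nat_lit 512,nat_lit 768,nat_lit 0x1200,nat_lit 0x1100,nat_lit 0x11100,nat_lit 0x1001100,nat_lit 0x10100,
    nat_lit 0x1000100],[nat_lit 0x2000,nat_lit 0x1002000,nat_lit 0x11000,nat_lit 0x21000,nat_lit 0x1011000,
    nat_lit 0x101000,nat_lit 0x1101000,nat_lit 0x1001000,nat_lit 0x2001000],[nat_lit 0x20000,nat_lit 0x1010000],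
    [nat_lit 0x1100000],[nat_lit 0x2000000]]
    [.c (nat_lit 1) (nat_lit 2),.r (nat_lit 32) (nat_lit 4) [nat_lit 0x30021,nat_lit 0x2020002],
    .c (nat_lit 0) (nat_lit 0x33002),.c (nat_lit 0) (nat_lit 0x350245),.r (nat_lit 526) (nat_lit 3) [nat_lit 0x220051,
    nat_lit 33,nat_lit 0x3575482,nat_lit 0x30041,nat_lit 0x2020052],.c (nat_lit 0) (nat_lit 0x53204),
    .c (nat_lit 0) (nat_lit 0x350245),.r (nat_lit 528) (nat_lit 3) [nat_lit 0x3200001,nat_lit 0x7030042,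
    nat_lit 0x2020002,nat_lit 0x4303231,nat_lit 0x2000001],.c (nat_lit 1) (nat_lit 0x246454),
    .c (nat_lit 0) (nat_lit 0x303004),.c (nat_lit 1) (nat_lit 0x22003),.c (nat_lit 0) (nat_lit 0x93604),
    .c (nat_lit 1) (nat_lit 0x24203),.c (nat_lit 0) (nat_lit 0x2203),.c (nat_lit 1) (nat_lit 770),
    .c (nat_lit 0) (nat_lit 0x350245),.c (nat_lit 1) (nat_lit 0x2002),.r (nat_lit 529) (nat_lit 3) [nat_lit 0x3200001,
    nat_lit 0x4303231,nat_lit 0x2020002,nat_lit 0x7030042,nat_lit 0x2000001],.c (nat_lit 0) (nat_lit 0x350245),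
    .c (nat_lit 0) (nat_lit 0x53204),.c (nat_lit 2) (nat_lit 2),.c (nat_lit 0) (nat_lit 0x353043),
    .r (nat_lit 524) (nat_lit 3) [nat_lit 0x3200041,nat_lit 0x2020052,nat_lit 0x2535492,nat_lit 0x2000051,nat_lit 33],
    .c (nat_lit 0) (nat_lit 0x353043),.c (nat_lit 0) (nat_lit 0x303545),.c (nat_lit 0) (nat_lit 0x50402),
    .r (nat_lit 0x174e) (nat_lit 6) [nat_lit 0x3030452,nat_lit 0x2020002],.c (nat_lit 0) (nat_lit 0x350604),
    .c (nat_lit 0) (nat_lit 0x353045),.c (nat_lit 0) (nat_lit 0x353043),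
    .r (nat_lit 0x1b72) (nat_lit 1) [nat_lit 0x200001,nat_lit 33,nat_lit 0x3535452],.c (nat_lit 2) (nat_lit 770),
    .c (nat_lit 0) (nat_lit 0x353045),.c (nat_lit 0) (nat_lit 0x53345),.c (nat_lit 1) (nat_lit 0x22232),
    .c (nat_lit 0) (nat_lit 0x353445),.c (nat_lit 1) (nat_lit 0x24a454),.c (nat_lit 0) (nat_lit 0x30002),
    .c (nat_lit 0) (nat_lit 0x353045),.c (nat_lit 0) (nat_lit 0x353043),.c (nat_lit 3) (nat_lit 2),
    .c (nat_lit 0) (nat_lit 0x70602),.c (nat_lit 1) (nat_lit 0x46203),.r (nat_lit 0x1b04) (nat_lit 3) [nat_lit 33,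
    nat_lit 0x2020002],.c (nat_lit 1) (nat_lit 0x24a405),.r (nat_lit 32) (nat_lit 4) [nat_lit 0x3030452,
    nat_lit 0x2020002],.c (nat_lit 1) (nat_lit 0x246005),.c (nat_lit 0) (nat_lit 0x303545),.c (nat_lit 4) (nat_lit 2),
    .c (nat_lit 0) (nat_lit 0x353043),.r (nat_lit 0x174f) (nat_lit 8) [nat_lit 0x200001,nat_lit 33],
    .c (nat_lit 1) (nat_lit 0x204203),.r (nat_lit 0x1ab9) (nat_lit 9) [nat_lit 0x3530452,nat_lit 0x2020002,
    nat_lit 0x200001],.c (nat_lit 0) (nat_lit 515),.c (nat_lit 7) (nat_lit 770),.c (nat_lit 0) (nat_lit 0x353045),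
    .c (nat_lit 0) (nat_lit 0x353043),.c (nat_lit 5) (nat_lit 2),.c (nat_lit 0) (nat_lit 0x53345),
    .c (nat_lit 0) (nat_lit 0x353445),.c (nat_lit 7) (nat_lit 2)]]

/-- nodes -/
noncomputable def rD7k_20_13 : List RJ :=
  [.l (nat_lit 12) (nat_lit 888) (nat_lit 3) (nat_lit 0x198000001c0000001d4000001c20000019c000001d0000001df000001df000001ae000001be0000019800000252000001e200000198) (nat_lit 0x92000000ba000000900000007e00000082000000b6000000730000007300000094000000a400000000000000ba000000ba00000070)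
    (nat_lit 0x1420de10811a1020e21251250e00de1980de0de10415814215814219010a14d14d0de11c1bc0de1060de14211a14412c1520f616110f1681302461680de16815810813214414010c14f0fd13211e21013210815610a0e210c0f616c0e61291290de0f81980de0e20de1901021401521a216c18515d12816a1020de1160de14d1250fd10f15d12912e11818311326113913923d14d12514f16118512915012e16113b23f11713b23f11c0de11e13016a0f813b1131281260de0de0f40de0de0e01321681280de16118312a1281be10410414e0de0de1321680de0de1171391040de1980de1021281bc19821024610219823f2611be0de2521981bc1e20de1041561680de0de23f23d14e0de1e21281281721060de1080de1160e213b1391040f41bc1020de128)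
    (nat_lit 0x1423783783783783783783783783783783783783780de14237837837837837837837837837837837837810815814437837837837837837837837837837837811a14212c14437837837837837837837837837837810219015214016c3783783783783783783783783780e210a0f610c0e616c37837837837837837837837812514d16114f12918512e37837837837837837837812514d10f0fd12915d11812e3783783783783783780e00de1681320de1281831611283783783783783780de11c13011e0f816a11313b1261283783783783781981bc1f820e19810222b22b0de1be1983783783780de0de1681320de0de1391170de1040de1983783780de1060de1080e211613913b0f41041021bc1283781040de1681560de0de2032030de14e1281e0172128)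
    (nat_lit 4) (nat_lit 47)
    [[nat_lit 2,nat_lit 258,nat_lit 0x10002,nat_lit 0x100002,nat_lit 0x1000002,nat_lit 17,nat_lit 273,nat_lit 0x10011,
    nat_lit 257,nat_lit 513,nat_lit 0x10101,nat_lit 0x1000101,nat_lit 0x11001,nat_lit 0x1001001,nat_lit 0x10001,
    nat_lit 0x20001,nat_lit 0x1010001,nat_lit 0x110001,nat_lit 0x100001,nat_lit 0x100101,nat_lit 0x1100001,
    nat_lit 0x1000001,nat_lit 0x2000001],[nat_lit 32,nat_lit 272,nat_lit 528,nat_lit 0x10110,nat_lit 0x1000110,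
    nat_lit 0x10010,nat_lit 0x11010,nat_lit 0x20010,nat_lit 0x110010,nat_lit 0x1010010,nat_lit 0x1000010],
    [nat_lit 512,nat_lit 0x10200,nat_lit 0x1000200,nat_lit 0x1100,nat_lit 0x10100,nat_lit 0x11100,nat_lit 0x110100,
    nat_lit 0x1010100,nat_lit 0x100100,nat_lit 0x1100100,nat_lit 0x1000100,nat_lit 0x1001100,nat_lit 0x2000100],
    [nat_lit 0x2000,nat_lit 0x102000,nat_lit 0x11000,nat_lit 0x101000,nat_lit 0x1001000,nat_lit 0x1101000],
    [nat_lit 0x20000,nat_lit 0x110000,nat_lit 0x1110000,nat_lit 0x1010000,nat_lit 0x2010000],[nat_lit 0x200000,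
    nat_lit 0x1100000],[nat_lit 0x2000000]]
    [.c (nat_lit 1) (nat_lit 2),.c (nat_lit 1) (nat_lit 0x30304),.r (nat_lit 0x174d) (nat_lit 6) [nat_lit 0x202002,
    nat_lit 0x3021],.c (nat_lit 2) (nat_lit 0x4203),.r (nat_lit 0x1b04) (nat_lit 1) [nat_lit 0x3021,
    nat_lit 0x2002002],.c (nat_lit 3) (nat_lit 0x25304),.c (nat_lit 2) (nat_lit 0x30304),
    .c (nat_lit 0) (nat_lit 0x330045),.c (nat_lit 0) (nat_lit 0x20205),.c (nat_lit 3) (nat_lit 0x30304),
    .c (nat_lit 5) (nat_lit 0x30304),.c (nat_lit 7) (nat_lit 0x30304),.c (nat_lit 0) (nat_lit 0x300304),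
    .c (nat_lit 0) (nat_lit 0x300304),.c (nat_lit 0) (nat_lit 0x330045),
    .r (nat_lit 0xc89) (nat_lit 10) [nat_lit 0x2002052,nat_lit 0x3041,nat_lit 0x3355442,nat_lit 33,nat_lit 0x22051],
    .c (nat_lit 1) (nat_lit 0x224454),.r (nat_lit 0xc8a) (nat_lit 10) [nat_lit 0x2002002,nat_lit 0x2021,
    nat_lit 0x3001,nat_lit 0x3359452,nat_lit 0x22001],.r (nat_lit 0x174e) (nat_lit 4) [nat_lit 0x242052,
    nat_lit 0x2002002],.c (nat_lit 2) (nat_lit 0x24205),.r (nat_lit 0xa7d) (nat_lit 10) [nat_lit 0x2002002,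
    nat_lit 0x3359452,nat_lit 0x3001,nat_lit 0x2021,nat_lit 0x22001],.c (nat_lit 0) (nat_lit 0x325045),
    .r (nat_lit 0xec7) (nat_lit 10) [nat_lit 0x2593852,nat_lit 0x60001,nat_lit 0x3355442,nat_lit 0x2244521],
    .c (nat_lit 2) (nat_lit 2),.r (nat_lit 0x174f) (nat_lit 4) [nat_lit 0x2002002,nat_lit 33],
    .c (nat_lit 2) (nat_lit 0x32002),.r (nat_lit 0x1b72) (nat_lit 2) [nat_lit 0x2002002,nat_lit 33,nat_lit 0x3355452],
    .r (nat_lit 0x1ab9) (nat_lit 6) [nat_lit 0x3053452,nat_lit 0x20001,nat_lit 0x2002002],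
    .c (nat_lit 0) (nat_lit 0x333345),.r (nat_lit 0x1b04) (nat_lit 1) [nat_lit 0x303452,nat_lit 0x2002002],
    .c (nat_lit 0) (nat_lit 0x333343),.c (nat_lit 0) (nat_lit 0x3002),.c (nat_lit 3) (nat_lit 0x240254),
    .c (nat_lit 0) (nat_lit 0x333343),.c (nat_lit 3) (nat_lit 2),.c (nat_lit 0) (nat_lit 0x325045),
    .c (nat_lit 0) (nat_lit 0x305343),.c (nat_lit 2) (nat_lit 0x334004),.c (nat_lit 0) (nat_lit 0x305345),
    .r (nat_lit 32) (nat_lit 3) [nat_lit 0x3340042,nat_lit 0x2002002],.r (nat_lit 32) (nat_lit 11) [nat_lit 0x302042,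
    nat_lit 0x20001],.c (nat_lit 0) (nat_lit 0x305345),.c (nat_lit 1) (nat_lit 0x30204),
    .r (nat_lit 32) (nat_lit 3) [nat_lit 0x3003452,nat_lit 0x2002002],.c (nat_lit 0) (nat_lit 0x305345),
    .r (nat_lit 32) (nat_lit 11) [nat_lit 0x30231,nat_lit 0x20001],.c (nat_lit 0) (nat_lit 0x305343),
    .c (nat_lit 4) (nat_lit 2),.c (nat_lit 0) (nat_lit 0x300002),.c (nat_lit 0) (nat_lit 0x35345),
    .c (nat_lit 3) (nat_lit 0x220005),.c (nat_lit 0) (nat_lit 0x35345),.c (nat_lit 0) (nat_lit 0x300002),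
    .c (nat_lit 5) (nat_lit 2),.r (nat_lit 0x174d) (nat_lit 6) [nat_lit 0x202002,nat_lit 33],
    .r (nat_lit 0x174e) (nat_lit 4) [nat_lit 0x3003452,nat_lit 0x2002002],.c (nat_lit 0) (nat_lit 0x335545),
    .c (nat_lit 0) (nat_lit 0x305343),.c (nat_lit 6) (nat_lit 2),.r (nat_lit 0x1b04) (nat_lit 1) [nat_lit 33,
    nat_lit 0x2002002],.c (nat_lit 7) (nat_lit 2)],
    .l (nat_lit 16) (nat_lit 0x2760) (nat_lit 4) (nat_lit 0xe2800000d9400000ed000000ed000000fe000000fec00000f6800000f6800000c2f00000e6700000fd600000fd600000fac00000fac) (nat_lit 0x258000001c40000011c0000011c000000000000000c000000840000008400000185000003bd00000016000000160000004000000040)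
    (nat_lit 0xbd00c640f180eee07e20e1c0f080d1c0ca307e10de810880de80e120b3c0bd00e840c780c780d8810420cf007e109d70eba0ff40b7209e20c780eee0db40db40ef00cb80e4c0f680ad507e1122c12e80e900d540e840f180bfa0db40ef00ec40e4c10e20c4f07e1147815340e900e900d880e1c0ec40cb80d4a118e128e0f3c07e10c230fca10c60d9409e20c7807e20ef00ef00fec0d4a0cd20f680fc10ccd09500c8410340fac0cf00d1c10e20f680f680f3c0e460ee411350e410f520df8156e15ae10420f080e4c0e4c0cd2128e0a8a0e4610190bab0f520cdc11b211f209d707e107e107e10ccd0c230bab0e410d200ccc094f09e30a8b0bef07e10ca30c4f0ad50fc107e1101911350d760d200ee50e510bb10e270ff41088153412e80c8410c60cdc0df80e5109e30fc00f2c0f960f020eba0de81478122c09500fca0f520f520ee5094f0fc00fc00f6c0f9609e20e120e900d540fac09e211f215ae0e270bef0f960f020f960f6c0b720de80e900e9010340d9411b2156e0bb10a8b0f6c0f960f6c0f96)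
    (nat_lit 0xbd027602760276027602760276027602760276027602760276027600c640bd02760276027602760276027602760276027602760276027600f180e840db4276027602760276027602760276027602760276027600eee0c780db40db4276027602760276027602760276027602760276007e20c780ef00ef00d4a2760276027602760276027602760276027600e1c0d880cb80ec4118e0d4a276027602760276027602760276027600f0810420e4c0e4c128e0cd20e4627602760276027602760276027600d1c0cf00f6810e20f3c0f680ee40e462760276027602760276027600ca307e10ad50c4f07e10fc1113510190d202760276027602760276007e109d707e107e10c230ccd0e410bab0ccc0d2027602760276027600de80eba122c14780fca09500f520f52094f0ee50fc027602760276010880ff412e8153410c60c840df80cdc09e30e510f2c0fc0276027600de80b720e900e900d941034156e11b20a8b0bb10f960f6c0f9627600e1209e20d540e9009e20fac15ae11f20bef0e270f020f960f6c0f96)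
    (nat_lit 4) (nat_lit 59)
    [[nat_lit 2,nat_lit 258,nat_lit 17,nat_lit 273,nat_lit 0x10011,nat_lit 257,nat_lit 513,nat_lit 0x10101,
    nat_lit 0x1010101,nat_lit 0x100101,nat_lit 0x1000101,nat_lit 0x10001,nat_lit 0x1010001,nat_lit 0x100001,
    nat_lit 0x1000001,nat_lit 0x2000001],[nat_lit 32,nat_lit 272,nat_lit 528,nat_lit 0x10110,nat_lit 0x1000110,
    nat_lit 0x1010,nat_lit 0x10010,nat_lit 0x11010,nat_lit 0x1000010],[nat_lit 512,nat_lit 0x10200,nat_lit 0x1010200,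
    nat_lit 0x100200,nat_lit 0x1000200,nat_lit 0x1100,nat_lit 0x1001100,nat_lit 0x10100,nat_lit 0x11100,
    nat_lit 0x20100,nat_lit 0x1020100,nat_lit 0x110100,nat_lit 0x1010100,nat_lit 0x1110100,nat_lit 0x2010100,
    nat_lit 0x100100,nat_lit 0x200200,nat_lit 0x1100200,nat_lit 0x200100,nat_lit 0x1100100,nat_lit 0x1000100,
    nat_lit 0x2000200,nat_lit 0x2000100],[nat_lit 0x2000,nat_lit 0x1002000,nat_lit 0x11000,nat_lit 0x101000,
    nat_lit 0x1001000],[nat_lit 0x20000,nat_lit 0x1020000,nat_lit 0x110000,nat_lit 0x1010000,nat_lit 0x1110000,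
    nat_lit 0x2010000],[nat_lit 0x200000,nat_lit 0x1100000],[nat_lit 0x2000000,nat_lit 0x3000000]]
    [.c (nat_lit 1) (nat_lit 2),.c (nat_lit 1) (nat_lit 0x33002),.r (nat_lit 0x1750) (nat_lit 4) [nat_lit 33,
    nat_lit 0x300231],.c (nat_lit 2) (nat_lit 0x33002),.r (nat_lit 0x1897) (nat_lit 2) [nat_lit 0x220001,
    nat_lit 0x2001,nat_lit 0x303201,nat_lit 0x30031],.c (nat_lit 0) (nat_lit 0x22003),
    .c (nat_lit 3) (nat_lit 0x33002),.c (nat_lit 5) (nat_lit 0x33002),.c (nat_lit 1) (nat_lit 0x30002),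
    .c (nat_lit 2) (nat_lit 0x22203),.c (nat_lit 7) (nat_lit 0x33002),.c (nat_lit 0) (nat_lit 0x42003),
    .c (nat_lit 1) (nat_lit 0x2002),.r (nat_lit 0x174e) (nat_lit 4) [nat_lit 0x222031,nat_lit 0x303201],
    .c (nat_lit 0) (nat_lit 0x42003),.r (nat_lit 0xec7) (nat_lit 10) [nat_lit 0x757631,nat_lit 0x6001,nat_lit 0x30021,
    nat_lit 0x40021],.c (nat_lit 2) (nat_lit 2),.r (nat_lit 0x174f) (nat_lit 4) [nat_lit 0x303201,nat_lit 33],
    .r (nat_lit 0xec8) (nat_lit 7) [nat_lit 0x4001,nat_lit 0x400031,nat_lit 0x440031,nat_lit 33],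
    .r (nat_lit 0x1b72) (nat_lit 2) [nat_lit 0x303201,nat_lit 33,nat_lit 0x30031],
    .r (nat_lit 0xec9) (nat_lit 6) [nat_lit 0x303201,nat_lit 0x220001,nat_lit 0x330021,nat_lit 0x222031],
    .r (nat_lit 0x174e) (nat_lit 4) [nat_lit 0x422321,nat_lit 0x303201],.r (nat_lit 0) (nat_lit 5) [nat_lit 0x303201,
    nat_lit 33],.r (nat_lit 0x1b04) (nat_lit 1) [nat_lit 0x330231,nat_lit 0x303201],
    .r (nat_lit 0x1b32) (nat_lit 9) [nat_lit 0x220001,nat_lit 0x222321,nat_lit 0x333201],.c (nat_lit 3) (nat_lit 2),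
    .c (nat_lit 0) (nat_lit 0x42003),.c (nat_lit 3) (nat_lit 0x30002),
    .r (nat_lit 0x1b74) (nat_lit 4) [nat_lit 0x440031,nat_lit 0x2001,nat_lit 33,nat_lit 0x955421],
    .c (nat_lit 0) (nat_lit 0x40003),.r (nat_lit 0x1b04) (nat_lit 10) [nat_lit 33,nat_lit 0x2001],
    .r (nat_lit 32) (nat_lit 11) [nat_lit 0x3231,nat_lit 0x2001],.c (nat_lit 0) (nat_lit 0x20003),
    .r (nat_lit 0x174e) (nat_lit 5) [nat_lit 0x3231,nat_lit 0x2001],.c (nat_lit 0) (nat_lit 0x40003),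
    .c (nat_lit 5) (nat_lit 0x30002),.r (nat_lit 0xeca) (nat_lit 4) [nat_lit 0x202031,nat_lit 0x2001,nat_lit 0x3021,
    nat_lit 0x533201],.c (nat_lit 0) (nat_lit 0x20003),.c (nat_lit 2) (nat_lit 0x20203),
    .c (nat_lit 7) (nat_lit 0x30002),.r (nat_lit 0x1a71) (nat_lit 8) [nat_lit 0x3021,nat_lit 0x303201,nat_lit 0x2001],
    .r (nat_lit 0x1750) (nat_lit 4) [nat_lit 0x444032,nat_lit 0x955422],
    .r (nat_lit 0x1897) (nat_lit 2) [nat_lit 0x220001,nat_lit 0x2001,nat_lit 0x303201,nat_lit 0x553021],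
    .r (nat_lit 0x1b73) (nat_lit 11) [nat_lit 0x220001,nat_lit 0x330021,nat_lit 0x303201,nat_lit 0x224031],
    .r (nat_lit 32) (nat_lit 3) [nat_lit 0x202031,nat_lit 0x303201],.c (nat_lit 0) (nat_lit 0x20003),
    .c (nat_lit 0) (nat_lit 0x40003),.c (nat_lit 0) (nat_lit 0x40003),.c (nat_lit 4) (nat_lit 2),
    .c (nat_lit 0) (nat_lit 0x84452),.c (nat_lit 0) (nat_lit 0x33323),
    .r (nat_lit 0x1750) (nat_lit 4) [nat_lit 0x300231,nat_lit 33],.c (nat_lit 0) (nat_lit 0x33323),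
    .c (nat_lit 5) (nat_lit 2),.c (nat_lit 0) (nat_lit 0x40003),.r (nat_lit 0x174d) (nat_lit 6) [nat_lit 0x220001,
    nat_lit 33],.c (nat_lit 0) (nat_lit 0x3003),.r (nat_lit 0x174e) (nat_lit 4) [nat_lit 0x202031,nat_lit 0x303201],
    .c (nat_lit 0) (nat_lit 0x40003),.c (nat_lit 6) (nat_lit 2),.r (nat_lit 0x1b04) (nat_lit 1) [nat_lit 33,
    nat_lit 0x303201],.c (nat_lit 7) (nat_lit 2),.r (nat_lit 0x165d) (nat_lit 0) [nat_lit 0x6001,nat_lit 33,
    nat_lit 0x707601,nat_lit 0xc66701]]]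

/-- nodes -/
noncomputable def rD7k_20_14 : List RJ :=
  [.l (nat_lit 12) (nat_lit 568) (nat_lit 3) (nat_lit 0x11200000112000000e2000001110000011c000001460000011d00000116000000fb000000f0000000f800000102000000f2000000f2) (nat_lit 0x34000000340000003500000064000000000000002a0000003000000029000000560000004b000000440000004e0000005400000054)
    (nat_lit 0xde0b40ec0ae1411170fb14d0930d70af0c40be0b30ce0de0f60ae1210f70eb13d0bd0c70ce0c20be0930ae0ae09e08e08e09f0b20aa08e08e0c909308e08e0f60ec0dc09e0b80e70f00e808e0971070fb08e08e0f71170e709f11c0f211b14c08e0c21070fb0b908e1211410b808e14611c0ec11d0f00fb13d13108e0f213d14d0e80aa11d14c0ed0f408e0fc0d90cf09a08e0eb0fb0f00b20ec11b0ae0ed0c20cb0d208e0b20c20c70d709708e0fb0c20cb0fc0df0e80b70ab08e0a70bd09308e08e0f008e0c208e09a0df08e0a209c09c0c20c40fb0931310fb08e0cf0a20ab0b40aa0cd0c20ce0af1070c913d1070d20d908e0b70aa0b40b90ae0930b308e08e0f208e0c208e09c0a70ae0c20bd0b20be0be08e08e08e0b90b209a09c08e0b90cd0c80bd)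
    (nat_lit 0xde2382382382382382382382382382382382382380b40de2382382382382382382382382382382382380ec0f609e2382382382382382382382382382382380ae0ae08e09e23823823823823823823823823823814112108e0b811c2382382382382382382382382381170f709f0e70f211c2382382382382382382382380fb0eb0b20f011b0ec0ed23823823823823823823814d13d0aa0e814c11d0f40ed2382382382382382380930bd08e08e08e0f008e0c20df2382382382382380d70c708e0970c20fb0fc0cb0e80df2382382382380af0ce0c910710713d0d90d20b708e0b42382382380c40c20930fb0fb1310cf08e0ab0a20aa0b42382380be0be08e08e0b908e09a0b208e09c0cd0b90bd2380b309308e08e08e0f208e0c20a709c0c20ae0b20bd)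
    (nat_lit 6) (nat_lit 83)
    [[nat_lit 2,nat_lit 3,nat_lit 258,nat_lit 0x1002,nat_lit 0x10002,nat_lit 0x100002,nat_lit 0x1000002,nat_lit 17,
    nat_lit 33,nat_lit 273,nat_lit 0x1011,nat_lit 0x100011,nat_lit 0x1000011,nat_lit 257,nat_lit 513,nat_lit 0x1101,
    nat_lit 0x10101,nat_lit 0x100101,nat_lit 0x1000101,nat_lit 0x1001,nat_lit 0x2001,nat_lit 0x11001,nat_lit 0x101001,
    nat_lit 0x1001001,nat_lit 0x10001,nat_lit 0x110001,nat_lit 0x10011,nat_lit 0x100001,nat_lit 0x200001,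
    nat_lit 0x1100001,nat_lit 0x1000001,nat_lit 0x2000001],[nat_lit 32,nat_lit 48,nat_lit 288,nat_lit 0x1020,
    nat_lit 0x1000020,nat_lit 272,nat_lit 528,nat_lit 0x1110,nat_lit 0x100110,nat_lit 0x1000110,nat_lit 0x1010,
    nat_lit 0x100010,nat_lit 0x1000010],[nat_lit 512,nat_lit 0x100200,nat_lit 0x1100,nat_lit 0x101100,nat_lit 0x10100,
    nat_lit 0x110100,nat_lit 0x100100,nat_lit 0x200100,nat_lit 0x1100100,nat_lit 0x1000100],[nat_lit 0x2000,
    nat_lit 0x101000],[nat_lit 0x110000,nat_lit 0x210000],[nat_lit 0x200000,nat_lit 0x300000,nat_lit 0x1100000],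
    [nat_lit 0x2000000]]
    [.c (nat_lit 1) (nat_lit 2),.c (nat_lit 0) (nat_lit 0x600b),.c (nat_lit 0) (nat_lit 0x2c30c228b),
    .r (nat_lit 0x1750) (nat_lit 3) [nat_lit 0x2140285,nat_lit 0xa0801002c5],.c (nat_lit 0) (nat_lit 0x8400b),
    .c (nat_lit 0) (nat_lit 0x2c30c228b),.r (nat_lit 0x1a55) (nat_lit 6) [nat_lit 0xb002140285,nat_lit 0x2000000001,
    nat_lit 0x4000080141,nat_lit 0xa0801002c5],.c (nat_lit 0) (nat_lit 0x200200b),.c (nat_lit 0) (nat_lit 0x500300a),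
    .r (nat_lit 0x174e) (nat_lit 3) [nat_lit 0x30000020c1,nat_lit 0x2000000001],
    .r (nat_lit 0x1b04) (nat_lit 4) [nat_lit 0xa0801002c5,nat_lit 0x82000005],
    .r (nat_lit 0x1b75) (nat_lit 0) [nat_lit 0x2000000001,nat_lit 0x820002c5,nat_lit 0xb0c300a005],
    .r (nat_lit 0) (nat_lit 5) [nat_lit 0xa0801002c5,nat_lit 0x82000005],.c (nat_lit 0) (nat_lit 0x2c30c028b),
    .c (nat_lit 0) (nat_lit 0x54514350b),.r (nat_lit 0x1abe) (nat_lit 2) [nat_lit 0x82000005,nat_lit 0x20000000c1,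
    nat_lit 0xb0c300a005],.c (nat_lit 0) (nat_lit 0x2c300028b),.c (nat_lit 0) (nat_lit 0x2c30c028b),
    .r (nat_lit 0x1b75) (nat_lit 3) [nat_lit 0x82000005,nat_lit 0x20000000c1,nat_lit 0xb0c300a005],
    .r (nat_lit 0) (nat_lit 5) [nat_lit 129,nat_lit 0x82000005],.r (nat_lit 0x1a55) (nat_lit 6) [nat_lit 0x40802ca,
    nat_lit 0x2000000001,nat_lit 129,nat_lit 0x1000c028a],.r (nat_lit 0x1a55) (nat_lit 6) [nat_lit 0x40802c5,
    nat_lit 0x2000000001,nat_lit 0x50c0505,nat_lit 0x830c0285],.r (nat_lit 0x5f8) (nat_lit 10) [nat_lit 0xa000000001,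
    nat_lit 0x2000001,nat_lit 0xb0000c0281,nat_lit 0x80001,nat_lit 0x80000001],.c (nat_lit 0) (nat_lit 0x2c000300a),
    .c (nat_lit 0) (nat_lit 0x8200b),.c (nat_lit 0) (nat_lit 0x2c300028b),.c (nat_lit 0) (nat_lit 0x30c300a),
    .c (nat_lit 0) (nat_lit 0x2c30c028b),.c (nat_lit 0) (nat_lit 0x54514350b),
    .r (nat_lit 0x174e) (nat_lit 13) [nat_lit 0xc300a2c5,nat_lit 0x82000005],
    .r (nat_lit 0x1b04) (nat_lit 4) [nat_lit 129,nat_lit 0x82000005],
    .r (nat_lit 0x1750) (nat_lit 3) [nat_lit 0x140040802ca,nat_lit 0x1000c028a],.c (nat_lit 2) (nat_lit 2),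
    .c (nat_lit 0) (nat_lit 0x700000a),.c (nat_lit 6) (nat_lit 0x2c20c328b),.c (nat_lit 0) (nat_lit 0x500000a),
    .c (nat_lit 0) (nat_lit 0x500000a),.c (nat_lit 0) (nat_lit 0x2c00c328b),
    .r (nat_lit 0x174e) (nat_lit 3) [nat_lit 0x150c01542ca,nat_lit 0x2000000001],
    .r (nat_lit 0x5f9) (nat_lit 8) [nat_lit 0x80000001,nat_lit 0x80001,nat_lit 0xa000000001,nat_lit 0xb0030ca2c1,
    nat_lit 0x2000001],.c (nat_lit 0) (nat_lit 0x2c00c328b),.r (nat_lit 0x113c) (nat_lit 3) [nat_lit 0x290c9268005,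
    nat_lit 0x100200005,nat_lit 0x28088229a05,nat_lit 0xc8000005],.r (nat_lit 0x1a55) (nat_lit 6) [nat_lit 0x820002c5,
    nat_lit 0x2000000001,nat_lit 0x140080505,nat_lit 129],.c (nat_lit 0) (nat_lit 0x2c00c328b),
    .r (nat_lit 0x1750) (nat_lit 3) [nat_lit 0xa0820002c5,nat_lit 129],.c (nat_lit 3) (nat_lit 2),
    .c (nat_lit 0) (nat_lit 0x54514550b),.r (nat_lit 0x174f) (nat_lit 13) [nat_lit 0x82000005,nat_lit 129],
    .r (nat_lit 0x1ab9) (nat_lit 12) [nat_lit 0xb0c300a2c5,nat_lit 0x2000000001,nat_lit 0x82000005],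
    .c (nat_lit 0) (nat_lit 0x2c300328b),.c (nat_lit 0) (nat_lit 0x2c300328b),.c (nat_lit 0) (nat_lit 0x2c30c328b),
    .c (nat_lit 0) (nat_lit 0x54514550b),.r (nat_lit 32) (nat_lit 9) [nat_lit 0xc300a2c5,nat_lit 0x82000005],
    .r (nat_lit 0x1b54) (nat_lit 0) [nat_lit 0x2000000001,nat_lit 129,nat_lit 0x80100005],.c (nat_lit 4) (nat_lit 2),
    .r (nat_lit 0x1af7) (nat_lit 3) [nat_lit 0x82000005,nat_lit 0xa08200b285,nat_lit 0xb0c300a005],
    .c (nat_lit 0) (nat_lit 0x2c300328b),.c (nat_lit 0) (nat_lit 0x5450c550b),.c (nat_lit 6) (nat_lit 2),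
    .c (nat_lit 0) (nat_lit 0x7c71c778b),.r (nat_lit 0x1b04) (nat_lit 11) [nat_lit 129,nat_lit 0x82000005],
    .c (nat_lit 7) (nat_lit 2)],
    .l (nat_lit 15) (nat_lit 0x13b0) (nat_lit 3) (nat_lit 0x75e000007ca0000084100000841000008fe000007ea000007f0000009d80000095800000958000009d8000006dc0000082800000828) (nat_lit 0x20e0000027a0000019700000197000001ee000000da00000000000001e80000008000000080000002fc00000000000001b0000001b0)
    (nat_lit 0xda815b02c985c70c301d8027604ec0ad8196027604ec0b5c16b03b906d40bfe18cc34207d60f5c17882ec074a09dc13b030d061a0c66171c2e204f40ca61e6c42085b1153e1f742a289b30a1a19c42ff85930d541710329876710c619645e989130a2626ac2da86910fac1d803b3879b0e2020903d607160e28217030104ec0f041e0034206180ca6194c27707100fd418082c1067809dc140836206420bc413b032c85b10c041c58471071614b01dc027609d80b3019003d704ec10c621043f507ac13b02388620095809d82760457084a0e94196048987dd0cf021704ac077011b0236031d0670143426602ec056c17a62a7c2c107141880296046c08d809dc256050d099809d813b04d589b30a0413b04ec09d812b019c027609d81334265827704ec0a261514277060209d813b0277063a09dc13b0297052c0c3416b034886710c841e0042506401330266029609960bdc15a830d05ae0b6a14343620782115c166050d0a1a0a5c26682f805ee)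
    (nat_lit 0xda84ec09d813b027604ec09d813b027604ec09d813b027604ec02b606d427604ec09d813b027604ec09d813b027604ec09d813b00b2617fc2e213b027604ec09d813b027604ec09d813b027604ec02e3863309e817109d813b027604ec09d813b027604ec09d813b00c301a1032986530e204ec09d813b027604ec09d813b027604ec03b007d60f361d9c412071027604ec09d813b027604ec09d813b009d81eb842088630f581fa847113b027604ec09d813b027604ec027605e20b62196438b06020e2c23889d813b027604ec09d813b00ad8176054f8b6b0e28160852c0ac411b04ec09d813b027604ec032c074a0fba244c42e06780ee0256046c08d827604ec09d813b009d813b82a285130c0413b827604ec0c7413b827613b027604ec027604ec136626ac276050213b02760338095813b013b09d813b00b5c186828685b50f041b102cc08ae143428684cd052e0bdc4ec02d6061a0ce21a443c006420c8021284cc0998132c14b02b505ee)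
    (nat_lit 4) (nat_lit 83)
    [[nat_lit 2,nat_lit 3,nat_lit 0x100002,nat_lit 0x1000002,nat_lit 17,nat_lit 0x10011,nat_lit 0x1000011,
    nat_lit 0x1001,nat_lit 0x11001,nat_lit 0x1001001,nat_lit 0x10001,nat_lit 0x100001,nat_lit 0x110001,
    nat_lit 0x200001,nat_lit 0x1100001,nat_lit 0x1000001,nat_lit 0x2000001],[nat_lit 32,nat_lit 48,nat_lit 288,
    nat_lit 0x10020,nat_lit 0x1000020,nat_lit 272,nat_lit 0x10110,nat_lit 0x1000110,nat_lit 0x1010,nat_lit 0x11010,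
    nat_lit 0x1001010,nat_lit 0x10010,nat_lit 0x20010,nat_lit 0x1010010,nat_lit 0x100010,nat_lit 0x110010,
    nat_lit 0x1100010,nat_lit 0x1000010,nat_lit 0x2000010],[nat_lit 512,nat_lit 0x10100,nat_lit 0x1000100,
    nat_lit 0x1100100,nat_lit 0x2000100,nat_lit 0x1001100],[nat_lit 0x2000,nat_lit 0x11000,nat_lit 0x1011000,
    nat_lit 0x101000,nat_lit 0x1101000,nat_lit 0x1001000,nat_lit 0x2001000],[nat_lit 0x20000,nat_lit 0x110000,
    nat_lit 0x210000,nat_lit 0x1010000],[nat_lit 0x200000,nat_lit 0x300000,nat_lit 0x1200000,nat_lit 0x1100000,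
    nat_lit 0x2100000],[nat_lit 0x2000000]]
    [.c (nat_lit 1) (nat_lit 2),.r (nat_lit 0x10ec) (nat_lit 4) [nat_lit 0x7021,nat_lit 0xd77c32,nat_lit 0x606031,
    nat_lit 0x66032],.r (nat_lit 0x10ec) (nat_lit 4) [nat_lit 0x5021,nat_lit 0xd79c32,nat_lit 0x604031,
    nat_lit 0x64032],.r (nat_lit 0x10e1) (nat_lit 5) [nat_lit 0x955831,nat_lit 0x808051,nat_lit 0x44031,nat_lit 65],
    .c (nat_lit 0) (nat_lit 0x2205),.r (nat_lit 32) (nat_lit 5) [nat_lit 0x300231,nat_lit 0x200001],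
    .r (nat_lit 0x174e) (nat_lit 8) [nat_lit 0x300231,nat_lit 0x200001],
    .r (nat_lit 0x1b06) (nat_lit 11) [nat_lit 0x3001,nat_lit 33,nat_lit 0x202001,nat_lit 0x22001],
    .r (nat_lit 0x10ed) (nat_lit 10) [nat_lit 65,nat_lit 0x5001,nat_lit 0x533451,nat_lit 0x22001],
    .r (nat_lit 32) (nat_lit 10) [nat_lit 0x300231,nat_lit 0x200001],.r (nat_lit 0x1750) (nat_lit 6) [nat_lit 0x3021,
    nat_lit 0x202001],.c (nat_lit 1) (nat_lit 514),.r (nat_lit 0x1b36) (nat_lit 11) [nat_lit 0x3001,nat_lit 0x2021,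
    nat_lit 0x202001],.r (nat_lit 0x10ec) (nat_lit 4) [nat_lit 0x3021,nat_lit 0xd7bc32,nat_lit 0x602031,
    nat_lit 0x62032],.r (nat_lit 0x10e1) (nat_lit 5) [nat_lit 0x957831,nat_lit 0x804051,nat_lit 0x42031,
    nat_lit 0x4041],.r (nat_lit 0x10ee) (nat_lit 7) [nat_lit 0x400001,nat_lit 0x505041,nat_lit 0x404001,
    nat_lit 0x320001],.r (nat_lit 0x174e) (nat_lit 8) [nat_lit 0x533432,nat_lit 0x200001],.c (nat_lit 2) (nat_lit 2),
    .r (nat_lit 0x10ec) (nat_lit 4) [nat_lit 0x60051,nat_lit 0x777621,nat_lit 0x670041,nat_lit 33],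
    .c (nat_lit 1) (nat_lit 0x22403),.r (nat_lit 0x1b1b) (nat_lit 11) [nat_lit 0x3001,nat_lit 0x33021,
    nat_lit 0x202001],.r (nat_lit 0x10ef) (nat_lit 10) [nat_lit 0x522451,nat_lit 0x5001,nat_lit 0x55041,
    nat_lit 0x22001],.r (nat_lit 0x10ec) (nat_lit 4) [nat_lit 0x420051,nat_lit 0x957621,nat_lit 0x230041,
    nat_lit 0x320021],.r (nat_lit 0x17d5) (nat_lit 11) [nat_lit 0x3001,nat_lit 0x202001,nat_lit 0x22001,
    nat_lit 0x537041],.r (nat_lit 0x10f0) (nat_lit 10) [nat_lit 0x957621,nat_lit 0x420051,nat_lit 0x426051,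
    nat_lit 0x320021],.r (nat_lit 0x10f1) (nat_lit 11) [nat_lit 0x905451,nat_lit 0x404001,nat_lit 0x320001,
    nat_lit 0x230041],.r (nat_lit 0x10f2) (nat_lit 7) [nat_lit 0x400001,nat_lit 0x905451,nat_lit 0x404001,
    nat_lit 0x320001],.r (nat_lit 8) (nat_lit 8) [nat_lit 0x303231,nat_lit 0x202001],
    .r (nat_lit 0) (nat_lit 1) [nat_lit 33,nat_lit 0x200001],.r (nat_lit 0x1b55) (nat_lit 11) [nat_lit 0x3001,
    nat_lit 0x202001,nat_lit 0x22001,nat_lit 0x33041],.r (nat_lit 0x10f3) (nat_lit 11) [nat_lit 0x500451,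
    nat_lit 0x222321,nat_lit 0x804541,nat_lit 0x333221],.c (nat_lit 0) (nat_lit 0x2003),
    .r (nat_lit 32) (nat_lit 5) [nat_lit 0x303231,nat_lit 0x200001],.r (nat_lit 0x174e) (nat_lit 8) [nat_lit 0x303231,
    nat_lit 0x200001],.r (nat_lit 0x196a) (nat_lit 10) [nat_lit 33,nat_lit 0x402321,nat_lit 0x300231],
    .r (nat_lit 0x10f5) (nat_lit 6) [nat_lit 0x800001,nat_lit 0x40001,nat_lit 0x8001,nat_lit 0x30041],
    .c (nat_lit 3) (nat_lit 2),.r (nat_lit 0x1b1b) (nat_lit 11) [nat_lit 0x3001,nat_lit 0x303021,nat_lit 0x202001],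
    .r (nat_lit 0x10ef) (nat_lit 10) [nat_lit 0x32451,nat_lit 0x5001,nat_lit 0x505041,nat_lit 0x22001],
    .c (nat_lit 0) (nat_lit 0x30002),.r (nat_lit 0x10ed) (nat_lit 10) [nat_lit 0x330431,nat_lit 0x5001,
    nat_lit 0x303021,nat_lit 0x22001],.r (nat_lit 0x10f6) (nat_lit 4) [nat_lit 0x35451,nat_lit 0x735421,
    nat_lit 0x624541,nat_lit 0x42321],.c (nat_lit 4) (nat_lit 2),.c (nat_lit 0) (nat_lit 0x53345),
    .c (nat_lit 2) (nat_lit 0x22232),.r (nat_lit 0x1b06) (nat_lit 11) [nat_lit 0x3001,nat_lit 0x2021,nat_lit 0x202001,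
    nat_lit 0x22001],.r (nat_lit 32) (nat_lit 10) [nat_lit 0x303231,nat_lit 0x200001],
    .c (nat_lit 0) (nat_lit 0x53545),.r (nat_lit 0x10f7) (nat_lit 1) [nat_lit 0x5001,nat_lit 0x533431,
    nat_lit 0x404001,nat_lit 0x22001],.c (nat_lit 5) (nat_lit 2),.r (nat_lit 0x1750) (nat_lit 6) [nat_lit 33,
    nat_lit 0x202001],.r (nat_lit 0x1b36) (nat_lit 11) [nat_lit 0x3001,nat_lit 0x4021,nat_lit 0x202001],
    .c (nat_lit 0) (nat_lit 0x53545),.c (nat_lit 6) (nat_lit 2),.r (nat_lit 0x10ec) (nat_lit 4) [nat_lit 33,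
    nat_lit 0xd7dc32,nat_lit 0x600031,nat_lit 0x60032],.r (nat_lit 0x10e1) (nat_lit 5) [nat_lit 0x959831,
    nat_lit 0x800051,nat_lit 0x40031,nat_lit 0x8041],.r (nat_lit 0x10ee) (nat_lit 7) [nat_lit 0x400001,
    nat_lit 0x500041,nat_lit 0x404001,nat_lit 0x320001],.r (nat_lit 0x174e) (nat_lit 8) [nat_lit 0x535432,
    nat_lit 0x200001],.c (nat_lit 7) (nat_lit 2)]]

/-- nodes -/
noncomputable def rD7k_20_15 : List RJ :=
  [.l (nat_lit 15) (nat_lit 0x1860) (nat_lit 3) (nat_lit 0xb6300000b6300000a0b00000a8b00000ab100000ab10000098b0000088b00000abd00000abf0000098b00000bf100000cfe00000cfe) (nat_lit 0x19b0000019b00000273000002f30000024d0000024d00000473000003730000023f000002410000010d000003730000000000000000)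
    (nat_lit 0x1460272042c070c122c2458320085812482488586067216c62e644e40a3011e021c048b084a0de01fc049208a217481c286638cfd10e01c3043207180f7c1ef830c069811641f283b20698134622f4478085811c82190485083e0c301c60499084a0c30186054589571094245841f07be10c81e6031f067212e421c056c06581692385c48b091612141ef843208640c7c1cf84390770177c1cf85248d170fe0216038c06980e7c19c830c06180e981d2830c061813161dc437806400c30186031f063e0c30186030c064a0c30186044587711144248842507ca0ee021c0325074a0efc19f0565077e16da308c4920924126422c843909720c301d30440077e15301d3061e8cf30e1419c830c06980e7c196030c06180e981df83250618131622945d20b0c0c301d905df0ad80c30186054c0aca15c819285dd8bf119fa2e644ab88bd1a2e385c3b8877119e6308c5f888a5189033f86638b631516268c5248b491116262c61e8b6d1776262c67f0c48)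
    (nat_lit 0x14606180c30186030c06180c30186030c06180c30186030c061804e40a3030c06180c30186030c06180c30186030c06180c30186010b023c0432186030c06180c30186030c06180c30186030c0618038608700e302190c30186030c06180c30186030c06180c301860122c24583df090a10c86180c30186030c06180c30186030c0618048b084a0f7c20f83cc086430c06180c30186030c06180c3018600c801bc030c06180c7c18f830c186030c06180c30186030c0618042c07f00d301c60339073e0c301860c30186030c06180c30186012482490459093212e421c83a606180efc6180c30186030c0618049108a20f94212843807700e94192833e077e30c06180c30186016182e903b2061815b02ef830c061815942a60325186030c06180339070a0d30186032c073e0c3018603bf074c0c301928c30186016c6331c4d18a8b169229244c5888b16da30f44c58bbb189061805cc8cfd117a255c6d78d170ee21dc46118cf3114a2fc467f0c48)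
    (nat_lit 4) (nat_lit 47)
    [[nat_lit 17,nat_lit 0x1011,nat_lit 0x1001,nat_lit 0x2001,nat_lit 0x11001,nat_lit 0x100001,nat_lit 0x101001],
    [nat_lit 32,nat_lit 48,nat_lit 0x1020,nat_lit 0x100020,nat_lit 272,nat_lit 0x1110,nat_lit 0x1010,nat_lit 0x2010,
    nat_lit 0x11010,nat_lit 0x101010,nat_lit 0x1001010,nat_lit 0x10010,nat_lit 0x100010,nat_lit 0x100110,
    nat_lit 0x110010,nat_lit 0x200010,nat_lit 0x1100010,nat_lit 0x1000010],[nat_lit 512,nat_lit 768,nat_lit 0x1200,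
    nat_lit 0x1100,nat_lit 0x2100,nat_lit 0x11100,nat_lit 0x101100,nat_lit 0x1001100,nat_lit 0x10100,nat_lit 0x20100,
    nat_lit 0x100100,nat_lit 0x1000100],[nat_lit 0x2000,nat_lit 0x3000,nat_lit 0x12000,nat_lit 0x102000,
    nat_lit 0x1002000,nat_lit 0x11000,nat_lit 0x21000,nat_lit 0x111000,nat_lit 0x1011000,nat_lit 0x101000,
    nat_lit 0x201000,nat_lit 0x1101000,nat_lit 0x1001000],[nat_lit 0x20000,nat_lit 0x110000,nat_lit 0x1010000],
    [nat_lit 0x200000,nat_lit 0x1100000],[nat_lit 0x2000000]]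
    [.r (nat_lit 4) (nat_lit 8) [nat_lit 0x3000231,nat_lit 33],.c (nat_lit 1) (nat_lit 0x3302),
    .r (nat_lit 32) (nat_lit 3) [nat_lit 0x3000231,nat_lit 33],.r (nat_lit 0x1b77) (nat_lit 10) [nat_lit 0x4222301,
    nat_lit 0x3022231,nat_lit 0x3033201],.c (nat_lit 2) (nat_lit 0x300023),
    .r (nat_lit 0x1b1b) (nat_lit 6) [nat_lit 0x5333201,nat_lit 0x3300021,nat_lit 0x2200001],
    .r (nat_lit 0x447) (nat_lit 11) [nat_lit 0x230021,nat_lit 0x4001,nat_lit 0x4220031,nat_lit 0x40001,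
    nat_lit 0x5335431],.c (nat_lit 2) (nat_lit 2),.r (nat_lit 0x15a8) (nat_lit 1) [nat_lit 0xdd70c51,
    nat_lit 0xc06c051,nat_lit 65,nat_lit 0xc7d041],.c (nat_lit 2) (nat_lit 0x3302),
    .r (nat_lit 0x15a7) (nat_lit 1) [nat_lit 0x5055401,nat_lit 0x948051,nat_lit 0x4400001,nat_lit 33],
    .c (nat_lit 0) (nat_lit 0x402405),.c (nat_lit 1) (nat_lit 0x222203),.c (nat_lit 0) (nat_lit 0x2203),
    .c (nat_lit 4) (nat_lit 0x3302),.c (nat_lit 1) (nat_lit 0x300023),.c (nat_lit 6) (nat_lit 0x3302),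
    .c (nat_lit 2) (nat_lit 0x5304),.c (nat_lit 0) (nat_lit 0x553045),.c (nat_lit 0) (nat_lit 0x402405),
    .c (nat_lit 2) (nat_lit 0x500304),.c (nat_lit 2) (nat_lit 0x444254),.r (nat_lit 0x1526) (nat_lit 0) [nat_lit 33,
    nat_lit 0x5005021,nat_lit 0x4400001,nat_lit 0x8048051],.r (nat_lit 4) (nat_lit 8) [nat_lit 0x3300231,
    nat_lit 0x200021],.c (nat_lit 2) (nat_lit 516),.c (nat_lit 3) (nat_lit 2),
    .r (nat_lit 0x183b) (nat_lit 0) [nat_lit 0xd777621,nat_lit 33,nat_lit 0x6600031,nat_lit 0x20001],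
    .r (nat_lit 32) (nat_lit 4) [nat_lit 0x4024032,nat_lit 0x3033201],.r (nat_lit 4) (nat_lit 10) [nat_lit 0x2222031,
    nat_lit 0x5333221],.r (nat_lit 0x1b23) (nat_lit 7) [nat_lit 0x4222301,nat_lit 0x5333221,nat_lit 0x3033201],
    .r (nat_lit 32) (nat_lit 4) [nat_lit 0x302232,nat_lit 0x3033201],
    .r (nat_lit 0x18c8) (nat_lit 4) [nat_lit 0x2024031,nat_lit 0x3020021,nat_lit 0x200001,nat_lit 0x2000001],
    .r (nat_lit 32) (nat_lit 4) [nat_lit 0x2022031,nat_lit 0x3033201],.c (nat_lit 1) (nat_lit 0x23323),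
    .r (nat_lit 0x183b) (nat_lit 0) [nat_lit 0x5333221,nat_lit 0x8444521,nat_lit 0x3255431,nat_lit 0x20001],
    .c (nat_lit 0) (nat_lit 0x400205),.c (nat_lit 0) (nat_lit 0x200003),.c (nat_lit 4) (nat_lit 2),
    .r (nat_lit 0x18c8) (nat_lit 4) [nat_lit 0x68032,nat_lit 0x20022,nat_lit 0x200001,nat_lit 0x2000001],
    .r (nat_lit 0x1b23) (nat_lit 7) [nat_lit 0x4222301,nat_lit 33,nat_lit 0x3033201],
    .r (nat_lit 0x449) (nat_lit 1) [nat_lit 0x99041,nat_lit 0x5546451,nat_lit 0x44001,nat_lit 0x408a051,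
    nat_lit 0x49b041],.r (nat_lit 0x18c8) (nat_lit 4) [nat_lit 0x44031,nat_lit 33,nat_lit 0x200001,nat_lit 0x2000001],
    .r (nat_lit 4) (nat_lit 10) [nat_lit 0x3000231,nat_lit 33],.r (nat_lit 32) (nat_lit 4) [nat_lit 0x5530432,
    nat_lit 0x3033201],.r (nat_lit 0x18c8) (nat_lit 4) [nat_lit 0x3302231,nat_lit 0x2242321,nat_lit 0x200001,
    nat_lit 0x2000001],.r (nat_lit 32) (nat_lit 4) [nat_lit 0x3300231,nat_lit 0x3033201],
    .r (nat_lit 0x1ae3) (nat_lit 2) [nat_lit 33,nat_lit 0x2200001,nat_lit 0x300031],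
    .r (nat_lit 32) (nat_lit 3) [nat_lit 0x5530432,nat_lit 0x420022],.r (nat_lit 32) (nat_lit 3) [nat_lit 0x3300231,
    nat_lit 0x200021],.c (nat_lit 0) (nat_lit 0x2005),.c (nat_lit 5) (nat_lit 2),.c (nat_lit 0) (nat_lit 0x555345),
    .c (nat_lit 0) (nat_lit 0x333323),.c (nat_lit 6) (nat_lit 2),.c (nat_lit 0) (nat_lit 0x30003),
    .c (nat_lit 7) (nat_lit 2)],
    .l (nat_lit 15) (nat_lit 0x10e0) (nat_lit 3) (nat_lit 0x9520000096900000900000008b40000085e00000905000008e100000c2e00000a6a000008b400000808000007b2000008b4000008fc) (nat_lit 0x2c5000002dc0000037a0000032e00000329000003d0000000000000034d0000037a000001c40000047c00000426000003320000037a)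
    (nat_lit 0x10461eec2ec05d30870160821c05470bb014442a384380c4018803b088230be618ec250048509fe12142f7843809da10e0344063b0c76174c34d05150edc14b063687530d222e9821c04da087016182f985d80a621a682c584e4131a11cc29d0a4f087012382c104e4090a1608272052c0c52125c27f851109c8170421c04380a58139025004380b161db83680629101016e02c58741091210e034885b8090a151c23987530b70144447084a00c1c206821c04bb0f40159c27f8438131a31b440404ff1880238442f0a6a087020205bc8940087014445278ba60e821704535081a0de022502b1069a18a429a82f785d80a741a442c584e410bc183827206f00870123833b048e087010e024704da087010e040404bb091c1a6821c043809ac12382768547087010e02448438087010e021c0562087010e021c04380c76188027205860b7013904a00567091c29a821c048e0a2210e034406200b0410e0348852c16f21e8033b0c52087013582428511)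
    (nat_lit 0x1046438087010e021c0438087010e021c0438087010e021c043803dd882321c0438087010e021c0438087010e021c0438087010e00bb017cc34d10e021c0438087010e021c0438087010e021c043802e9863b0a2a1a6887010e021c0438087010e021c0438087010e0087012803b7058b0c52438087010e021c0438087010e021c043802c104850a58139024b862921c0438087010e021c0438087010e0087013fc539898d09fe202045e90e021c0438087010e021c043802a384850ea611cc28885b8094022f487010e021c0438087010e00bb017bc348853a09c8162c307085e0de0438087010e021c043802888438141628402e08741103421c044a06f021c0438087010e00a8e13b421c04380870122421c04380ac410e021c10e021c0438021c043809b4123821c04380976202034d048e087010e087010e00c401a2021c05820a581a443d0090e147019d826b04380a224380310063b0b0c139027205b80ace23184f8048e091c10e021c0511)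
    (nat_lit 4) (nat_lit 83)
    [[nat_lit 2,nat_lit 3,nat_lit 18,nat_lit 0x10002,nat_lit 0x100002,nat_lit 17,nat_lit 33,nat_lit 273,
    nat_lit 0x1011,nat_lit 0x10011,nat_lit 0x100011,nat_lit 0x1000011,nat_lit 0x1000101,nat_lit 0x10001,
    nat_lit 0x110001,nat_lit 0x1010001,nat_lit 0x100001,nat_lit 0x200001,nat_lit 0x1100001,nat_lit 0x1000001,
    nat_lit 0x1001001],[nat_lit 32,nat_lit 48,nat_lit 288,nat_lit 0x1020,nat_lit 0x10020,nat_lit 0x100020,
    nat_lit 0x1000020,nat_lit 272,nat_lit 0x10110,nat_lit 0x100110,nat_lit 0x1000110,nat_lit 0x1010,nat_lit 0x11010,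
    nat_lit 0x1001010,nat_lit 0x101010,nat_lit 0x10010,nat_lit 0x20010,nat_lit 0x110010,nat_lit 0x1010010,
    nat_lit 0x100010,nat_lit 0x200010,nat_lit 0x1100010,nat_lit 0x1000010],[nat_lit 512,nat_lit 0x1000200,
    nat_lit 0x1100,nat_lit 0x1001100,nat_lit 0x10100,nat_lit 0x1010100,nat_lit 0x1100100,nat_lit 0x1000100],
    [nat_lit 0x11000,nat_lit 0x1011000,nat_lit 0x1001000,nat_lit 0x1002000,nat_lit 0x1101000],[nat_lit 0x20000,
    nat_lit 0x1020000,nat_lit 0x110000,nat_lit 0x210000,nat_lit 0x1110000,nat_lit 0x1010000],[nat_lit 0x200000,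
    nat_lit 0x1100000],[nat_lit 0x2000000]]
    [.c (nat_lit 1) (nat_lit 2),.c (nat_lit 0) (nat_lit 0x6d04),.c (nat_lit 1) (nat_lit 0x3402),
    .c (nat_lit 7) (nat_lit 0x333223),.c (nat_lit 0) (nat_lit 0x6904),.r (nat_lit 0x1750) (nat_lit 4) [nat_lit 33,
    nat_lit 0x2000001],.r (nat_lit 0x1b77) (nat_lit 4) [nat_lit 0x2001,nat_lit 0x3021,nat_lit 0x200001],
    .c (nat_lit 1) (nat_lit 0x33202),.c (nat_lit 1) (nat_lit 0x303202),.r (nat_lit 32) (nat_lit 5) [nat_lit 0x300231,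
    nat_lit 0x200001],.c (nat_lit 1) (nat_lit 0x3602),.r (nat_lit 0x174e) (nat_lit 8) [nat_lit 0x300231,
    nat_lit 0x200001],.c (nat_lit 0) (nat_lit 0x30302),.c (nat_lit 0) (nat_lit 0x553045),
    .c (nat_lit 7) (nat_lit 0x333023),.c (nat_lit 1) (nat_lit 0x333223),.c (nat_lit 1) (nat_lit 514),
    .c (nat_lit 0) (nat_lit 0x6504),.c (nat_lit 5) (nat_lit 0x333023),.c (nat_lit 0) (nat_lit 0x553045),
    .c (nat_lit 0) (nat_lit 0x300302),.c (nat_lit 2) (nat_lit 2),.r (nat_lit 0x1750) (nat_lit 4) [nat_lit 0x34022,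
    nat_lit 0x2000001],.r (nat_lit 0x1750) (nat_lit 4) [nat_lit 0x332021,nat_lit 0x2000001],
    .r (nat_lit 0x1750) (nat_lit 4) [nat_lit 0x3032021,nat_lit 0x2000001],.c (nat_lit 0) (nat_lit 0x550543),
    .r (nat_lit 0x1b77) (nat_lit 4) [nat_lit 0x2001,nat_lit 33,nat_lit 0x200001],.c (nat_lit 0) (nat_lit 0x550543),
    .c (nat_lit 0) (nat_lit 0x42005),.c (nat_lit 0) (nat_lit 0x502545),.c (nat_lit 1) (nat_lit 0x33402),
    .c (nat_lit 0) (nat_lit 0x502545),.c (nat_lit 0) (nat_lit 0x402005),.c (nat_lit 0) (nat_lit 0x52545),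
    .c (nat_lit 0) (nat_lit 0x52545),.c (nat_lit 1) (nat_lit 0x303402),.c (nat_lit 0) (nat_lit 0x330323),
    .c (nat_lit 0) (nat_lit 0x550543),.r (nat_lit 32) (nat_lit 5) [nat_lit 0x303231,nat_lit 0x200001],
    .c (nat_lit 0) (nat_lit 0x330323),.r (nat_lit 0x1750) (nat_lit 4) [nat_lit 0x2021,nat_lit 0x2000001],
    .c (nat_lit 1) (nat_lit 0x3802),.r (nat_lit 0x174e) (nat_lit 8) [nat_lit 0x303231,nat_lit 0x200001],
    .c (nat_lit 0) (nat_lit 0x330323),.c (nat_lit 3) (nat_lit 2),.r (nat_lit 0x1a55) (nat_lit 3) [nat_lit 0x2300001,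
    nat_lit 0x200001,nat_lit 33,nat_lit 0x202001],.c (nat_lit 1) (nat_lit 0x220403),
    .r (nat_lit 0x1a55) (nat_lit 3) [nat_lit 0x2300001,nat_lit 0x200001,nat_lit 0x3200021,nat_lit 0x202001],
    .c (nat_lit 0) (nat_lit 0x502545),.c (nat_lit 1) (nat_lit 0x303423),.c (nat_lit 0) (nat_lit 0x30002),
    .c (nat_lit 0) (nat_lit 0x502545),.c (nat_lit 0) (nat_lit 0x52545),.c (nat_lit 1) (nat_lit 0x33423),
    .c (nat_lit 0) (nat_lit 0x52545),.r (nat_lit 0x1a55) (nat_lit 3) [nat_lit 0x2300001,nat_lit 0x200001,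
    nat_lit 0x5400021,nat_lit 0x202001],.c (nat_lit 0) (nat_lit 0x300002),.c (nat_lit 5) (nat_lit 2),
    .c (nat_lit 0) (nat_lit 0x550543),.c (nat_lit 0) (nat_lit 0x553545),.c (nat_lit 7) (nat_lit 0x333323),
    .c (nat_lit 1) (nat_lit 0x333023),.c (nat_lit 0) (nat_lit 0x330323),.c (nat_lit 6) (nat_lit 2),
    .c (nat_lit 0) (nat_lit 0x553545),.c (nat_lit 7) (nat_lit 2)]]

/-- nodes -/
noncomputable def rD7k_20_16 : List RJ :=
  [.l (nat_lit 12) (nat_lit 720) (nat_lit 3) (nat_lit 0x18a0000018a000001730000019b000001de000002060000019b0000015d0000015d0000015d0000015d0000015d0000015d0000015d) (nat_lit 0x7c0000007c0000006b000000930000000000000028000000a90000006b000000a9000000a9000000a9000000a9000000a9000000a9)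
    (nat_lit 0x10e10e0e70f718a1180e111f0e10e10e10e10e10e110e10e11f0f70b41180bf11f0e10e10e10e10e10e10f70f71520e017314b0ca1de0ca0ec0ca0ca0ca0ca11f0e713c15219b1730f22060ec1140b40b413c0b411811817314b1081aa11317317313517313b16d1730b418a19b17320610813519b19b15d19515d15d16311f11f2061de19b1730f21300f211a0ec0b40f20ba0bf0e10f20ca1351130b40f20b40b40b40b40b40b40e10e11140ec15d1350b411a0b40b40b40b40b40b40e10e10ec0ca19b1730b40f20b40b40b40b40b40b40e10e10b40ca15d13b0b40b40b40b40b40b40b40b40e10e10b40ca1951730b40ec0b40b40b40b40b40b40e10e10b40ca1631730b40ba0b40b40b40b40b40b40e10e113c0ca15d16d0b40f20b40b40b40b40b40b4)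
    (nat_lit 0x10e2d02d02d02d02d02d02d02d02d02d02d02d02d010e10e2d02d02d02d02d02d02d02d02d02d02d02d00e711f1522d02d02d02d02d02d02d02d02d02d02d00f70f70e01522d02d02d02d02d02d02d02d02d02d018a0b417319b1082d02d02d02d02d02d02d02d02d011811814b1731aa1082d02d02d02d02d02d02d02d00e10bf0ca0f21131350f22d02d02d02d02d02d02d011f11f1de20617319b1300f22d02d02d02d02d02d00e10e10ca0ec1731950f20b40b42d02d02d02d02d00e10e10ec11413515d11a0b40b40b42d02d02d02d00e10e10ca0b41731950ec0b40b40b40b42d02d02d00e10e10ca0b413b15d0b40b40b40b40b40b42d02d00e10e10ca13c16d15d0f20b40b40b40b40b40b42d00e10e10ca0b41731630ba0b40b40b40b40b40b40b4)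
    (nat_lit 5) (nat_lit 83)
    [[nat_lit 2,nat_lit 3,nat_lit 18,nat_lit 258,nat_lit 0x1002,nat_lit 0x100002,nat_lit 0x1000002,nat_lit 17,
    nat_lit 33,nat_lit 273,nat_lit 0x1011,nat_lit 0x100011,nat_lit 0x1000011,nat_lit 257,nat_lit 513,nat_lit 0x1101,
    nat_lit 0x100101,nat_lit 0x1000101,nat_lit 0x1001,nat_lit 0x2001,nat_lit 0x101001,nat_lit 0x1001001,
    nat_lit 0x100001,nat_lit 0x1100001,nat_lit 0x1000001],[nat_lit 32,nat_lit 48,nat_lit 288,nat_lit 0x1020,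
    nat_lit 0x100020,nat_lit 0x1000020,nat_lit 272,nat_lit 528,nat_lit 0x1110,nat_lit 0x100110,nat_lit 0x1000110,
    nat_lit 0x1010,nat_lit 0x2010,nat_lit 0x101010,nat_lit 0x1001010,nat_lit 0x100010,nat_lit 0x1100010,
    nat_lit 0x200010,nat_lit 0x1000010],[nat_lit 512,nat_lit 768,nat_lit 0x1200,nat_lit 0x100200,nat_lit 0x1000200,
    nat_lit 0x1100,nat_lit 0x2100,nat_lit 0x1001100,nat_lit 0x100100,nat_lit 0x1100100,nat_lit 0x1000100,
    nat_lit 0x1010100],[nat_lit 0x2000,nat_lit 0x11000,nat_lit 0x1001000],[nat_lit 0x20000,nat_lit 0x1010000],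
    [nat_lit 0x200000,nat_lit 0x1100000],[nat_lit 0x2000000]]
    [.c (nat_lit 1) (nat_lit 2),.r (nat_lit 0x13da) (nat_lit 10) [nat_lit 0xe7318a1,nat_lit 0xc030061,nat_lit 0x38041,
    nat_lit 65],.c (nat_lit 4) (nat_lit 0x318843),.r (nat_lit 0x13da) (nat_lit 10) [nat_lit 0xe3118a1,
    nat_lit 0xc220061,nat_lit 0x328041,nat_lit 0x310041],.c (nat_lit 2) (nat_lit 0x318843),
    .r (nat_lit 0x1b19) (nat_lit 8) [nat_lit 0x218001,nat_lit 0x4010001,nat_lit 65],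
    .r (nat_lit 0x1b36) (nat_lit 12) [nat_lit 0x310001,nat_lit 0x428041,nat_lit 0x4200001],
    .r (nat_lit 2) (nat_lit 4) [nat_lit 0x6310861,nat_lit 0x218041],
    .r (nat_lit 0x1b23) (nat_lit 13) [nat_lit 0x218001,nat_lit 65,nat_lit 0x4010001],
    .c (nat_lit 4) (nat_lit 0x300043),.c (nat_lit 1) (nat_lit 0x318843),
    .r (nat_lit 32) (nat_lit 0) [nat_lit 0x6300861,nat_lit 0x4010001],
    .r (nat_lit 0x175d) (nat_lit 4) [nat_lit 0x6300861,nat_lit 0x10001,nat_lit 0x200001,nat_lit 0x18041],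
    .c (nat_lit 1) (nat_lit 0x18802),.r (nat_lit 0x13da) (nat_lit 10) [nat_lit 0xe2198a1,nat_lit 0xc410061,
    nat_lit 0x518041,nat_lit 0x520041],.c (nat_lit 2) (nat_lit 0x300043),
    .r (nat_lit 0x1b19) (nat_lit 8) [nat_lit 0x218001,nat_lit 0x4010001,nat_lit 0x310041],
    .r (nat_lit 0x1b36) (nat_lit 12) [nat_lit 0x310001,nat_lit 0x218041,nat_lit 0x4200001],
    .r (nat_lit 0x174e) (nat_lit 4) [nat_lit 0x6000861,nat_lit 65],.r (nat_lit 0x1b77) (nat_lit 8) [nat_lit 0x218001,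
    nat_lit 65,nat_lit 0x4010001],.r (nat_lit 0x13cb) (nat_lit 4) [nat_lit 0xa5010a1,nat_lit 0x4218c81,
    nat_lit 0xc210c01,nat_lit 0x6218801],.r (nat_lit 32) (nat_lit 4) [nat_lit 0x6300861,nat_lit 0x4010001],
    .r (nat_lit 0x1b79) (nat_lit 12) [nat_lit 0x310001,nat_lit 0x510061,nat_lit 0x218041,nat_lit 0x4200001],
    .c (nat_lit 1) (nat_lit 0x802),.r (nat_lit 0x1750) (nat_lit 1) [nat_lit 65,nat_lit 0x4200001],
    .c (nat_lit 2) (nat_lit 2),.r (nat_lit 0x13db) (nat_lit 4) [nat_lit 0xe739861,nat_lit 0x24631c41,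
    nat_lit 0xe639861,nat_lit 129],.r (nat_lit 0x1b23) (nat_lit 13) [nat_lit 0x218001,nat_lit 0x310041,
    nat_lit 0x4010001],.r (nat_lit 0x13dc) (nat_lit 4) [nat_lit 0xa529061,nat_lit 0x18421441,nat_lit 0xa429061,
    nat_lit 129],.r (nat_lit 0x13dd) (nat_lit 4) [nat_lit 0xa529061,nat_lit 0x14421441,nat_lit 0xa229061,
    nat_lit 0x4210c81],.r (nat_lit 0x13de) (nat_lit 4) [nat_lit 0xa529061,nat_lit 0x18421441,nat_lit 0xa429061,
    nat_lit 129],.r (nat_lit 2) (nat_lit 4) [nat_lit 0x6000861,nat_lit 65],.c (nat_lit 4) (nat_lit 0x310c43),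
    .c (nat_lit 1) (nat_lit 0x300043),.r (nat_lit 32) (nat_lit 0) [nat_lit 0x6018861,nat_lit 0x4010001],
    .r (nat_lit 0x175d) (nat_lit 4) [nat_lit 0x6018861,nat_lit 0x10001,nat_lit 0x200001,nat_lit 0x300041],
    .r (nat_lit 0x196a) (nat_lit 0) [nat_lit 65,nat_lit 0x8210c41,nat_lit 0x6018861],
    .r (nat_lit 0x13df) (nat_lit 4) [nat_lit 0xa529061,nat_lit 0x18421441,nat_lit 129,nat_lit 0xa429061],
    .r (nat_lit 8) (nat_lit 6) [nat_lit 0x6300861,nat_lit 0x4200001],.r (nat_lit 0x13e0) (nat_lit 12) [nat_lit 129,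
    nat_lit 0x6218861,nat_lit 0xc210c41,nat_lit 0x6318861],.r (nat_lit 0) (nat_lit 8) [nat_lit 0x4010001,nat_lit 65],
    .r (nat_lit 2) (nat_lit 4) [nat_lit 0x6300861,nat_lit 0x200041],.r (nat_lit 0x1afe) (nat_lit 4) [nat_lit 65,
    nat_lit 0x6318861,nat_lit 0x10001,nat_lit 0x200001],.r (nat_lit 0x13c2) (nat_lit 4) [nat_lit 129,
    nat_lit 0x63188a1,nat_lit 0xc210c01,nat_lit 0x6218801],.c (nat_lit 3) (nat_lit 2),
    .r (nat_lit 0x13da) (nat_lit 10) [nat_lit 0xe6398a1,nat_lit 0xc600061,nat_lit 0x700041,nat_lit 0x730041],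
    .c (nat_lit 2) (nat_lit 0x310c43),.r (nat_lit 0x1b19) (nat_lit 8) [nat_lit 0x218001,nat_lit 0x4010001,
    nat_lit 0x520041],.r (nat_lit 0x1b36) (nat_lit 12) [nat_lit 0x310001,nat_lit 65,nat_lit 0x4200001],
    .r (nat_lit 0x174e) (nat_lit 4) [nat_lit 0x6218861,nat_lit 0x310041],
    .r (nat_lit 0x1b77) (nat_lit 8) [nat_lit 0x218001,nat_lit 0x310041,nat_lit 0x4010001],
    .r (nat_lit 32) (nat_lit 4) [nat_lit 0x6018861,nat_lit 0x4010001],
    .r (nat_lit 0x1b79) (nat_lit 12) [nat_lit 0x310001,nat_lit 0x300061,nat_lit 65,nat_lit 0x4200001],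
    .c (nat_lit 1) (nat_lit 0x19002),.r (nat_lit 0x1750) (nat_lit 1) [nat_lit 0x310041,nat_lit 0x4200001],
    .c (nat_lit 0) (nat_lit 0x318002),.c (nat_lit 4) (nat_lit 2),.r (nat_lit 0x13e1) (nat_lit 4) [nat_lit 0x318861,
    nat_lit 0xc210c41,nat_lit 0xe318881,nat_lit 0x418861],.r (nat_lit 0) (nat_lit 13) [nat_lit 65,nat_lit 0x4010001],
    .c (nat_lit 5) (nat_lit 2),.c (nat_lit 0) (nat_lit 0x200003),.c (nat_lit 6) (nat_lit 2),
    .c (nat_lit 0) (nat_lit 0xc03),.c (nat_lit 7) (nat_lit 2)],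
    .l (nat_lit 15) (nat_lit 0x1a40) (nat_lit 3) (nat_lit 0xb3200000b3200000bcb00000bcb00000d3800000d3800000c0f00000c0f000009c1000009c100000afc00000afc00000a0500000a05) (nat_lit 0x206000002060000016d0000016d0000000000000000000001290000012900000377000003770000023c0000023c0000033300000333)
    (nat_lit 0x136026c03a789c5151c2608502870f12b21eec47b08f60ffe245449609b0138a27144100870141227b44ac873711ec22283ff8891138a27146900a5e17ce2f2c5930db41180215047e87f1102822604e2874f1fc434804d48bcb19183c6834106320ca6263c524059a10e026085e58bcb11801ed07188e3113821f5c6fd0cce18f635044100a8e13522f9c69c08c0181e303c4e089a91ae4311867f8dc513da1c3c78d0db4181e38c457f0ae60e9c226030989d3130019985048a0519182c986078e3114b42bf844c0898131a263446e08dc0e6e1eec319085413521f5c44c08980d201b583c287850d241b504ac89590d0423004e089c111301d3832506900f0a1e14347068e111423d84c787f1188c33384c689d30f0a1e1446008c00c561f2447b08f60ca623f46b90dfa131a184c3c287851180230035987c9112224542cd08981b8a350446e06660d1c1b503e487c90da41b483ff87ff1490205067f8c7b11b8260034706920d6618ac32706d2)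
    (nat_lit 0x13606900d201a4034806900d201a4034806900d201a40348069004d809b034806900d201a4034806900d201a4034806900d201a400e9e27146901a4034806900d201a4034806900d201a40348069004e289c514bc3480d201a4034806900d201a4034806900d201a40151c20805f389a911806900d201a4034806900d201a40348069004c1087017962f2c3da08c034806900d201a4034806900d201a40140a28245930c8c1c62303c57f1a4034806900d201a403480690038789ed1b683c687188c0f15cc2bf8d201a4034806900d201a4012b225644600682138227043a708980d206900d201a40348069003dd873710a818c83eb89a91130226036b069034806900d201a4011ec23d847e86531bf435c8309898d0f0a1e144601a403480690047b088a0fe2263c6670c4613a626343c2878511802300d201a400ffe1ffc40a0a4818f633fc4c008dc0d241a3831586b30da4690048a8891113016686a08dc50ccc237036a068e0f921f2436906d2)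
    (nat_lit 5) (nat_lit 49)
    [[nat_lit 2,nat_lit 3,nat_lit 18,nat_lit 258,nat_lit 0x1002,nat_lit 0x100002,nat_lit 0x1000002,nat_lit 17,
    nat_lit 33,nat_lit 273,nat_lit 0x1011,nat_lit 0x100011,nat_lit 0x1000011,nat_lit 257,nat_lit 513,nat_lit 0x1101,
    nat_lit 0x100101,nat_lit 0x1000101,nat_lit 0x1001,nat_lit 0x1001001,nat_lit 0x100001,nat_lit 0x1100001,
    nat_lit 0x1000001],[nat_lit 32,nat_lit 288,nat_lit 0x1020,nat_lit 0x100020,nat_lit 272,nat_lit 528,nat_lit 0x1110,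
    nat_lit 0x100110,nat_lit 0x1000110,nat_lit 0x1010,nat_lit 0x1001010,nat_lit 0x100010,nat_lit 0x1100010,
    nat_lit 0x1000010],[nat_lit 512,nat_lit 768,nat_lit 0x1200,nat_lit 0x10200,nat_lit 0x100200,nat_lit 0x1000200,
    nat_lit 0x1100,nat_lit 0x101100,nat_lit 0x1001100,nat_lit 0x10100,nat_lit 0x1010100,nat_lit 0x100100,
    nat_lit 0x1100100,nat_lit 0x200100,nat_lit 0x1000100],[nat_lit 0x2000,nat_lit 0x1001000],[nat_lit 0x20000,
    nat_lit 0x110000,nat_lit 0x1010000],[nat_lit 0x1100000],[nat_lit 0x2000000]]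
    [.c (nat_lit 1) (nat_lit 2),.r (nat_lit 0x13eb) (nat_lit 9) [nat_lit 0xe7318a1,nat_lit 0xc030061,nat_lit 0x38041,
    nat_lit 65],.r (nat_lit 0x13eb) (nat_lit 9) [nat_lit 0xe3118a1,nat_lit 0xc220061,nat_lit 0x328041,
    nat_lit 0x310041],.c (nat_lit 4) (nat_lit 0x318843),.c (nat_lit 3) (nat_lit 0x318843),
    .r (nat_lit 0x197f) (nat_lit 6) [nat_lit 0x4218c41,nat_lit 0xc210c01,nat_lit 0x6310801,nat_lit 0x6218801],
    .r (nat_lit 0x10db) (nat_lit 6) [nat_lit 0xe7118a1,nat_lit 0x628041,nat_lit 0x10041,nat_lit 0x28041],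
    .c (nat_lit 1) (nat_lit 0x18802),.r (nat_lit 0x13eb) (nat_lit 9) [nat_lit 0xe2198a1,nat_lit 0xc410061,
    nat_lit 0x518041,nat_lit 0x520041],.c (nat_lit 4) (nat_lit 0x300043),.c (nat_lit 3) (nat_lit 0x300043),
    .r (nat_lit 0x197f) (nat_lit 6) [nat_lit 0x4000c41,nat_lit 0xc210c01,nat_lit 0x6310801,nat_lit 0x6218801],
    .r (nat_lit 0x10db) (nat_lit 6) [nat_lit 0xe3198a1,nat_lit 0x418041,nat_lit 0x320041,nat_lit 0x318041],
    .r (nat_lit 32) (nat_lit 9) [nat_lit 0x6310861,nat_lit 0x4200001],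
    .r (nat_lit 0x1b58) (nat_lit 10) [nat_lit 0x6018041,nat_lit 0x4200001,nat_lit 0x4010001],
    .c (nat_lit 1) (nat_lit 0x318843),.r (nat_lit 32) (nat_lit 0) [nat_lit 0x6300861,nat_lit 0x4010001],
    .r (nat_lit 0x13ec) (nat_lit 4) [nat_lit 0x4218c81,nat_lit 0xa5010a1,nat_lit 0xc210c01,nat_lit 0x6218801],
    .r (nat_lit 0x174e) (nat_lit 4) [nat_lit 0x6000861,nat_lit 65],.r (nat_lit 32) (nat_lit 6) [nat_lit 0x6300861,
    nat_lit 0x4200001],.r (nat_lit 0) (nat_lit 8) [nat_lit 0x4010001,nat_lit 0x218041],.c (nat_lit 1) (nat_lit 0x802),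
    .r (nat_lit 0x19a2) (nat_lit 1) [nat_lit 0x6018041,nat_lit 0x4010001,nat_lit 0x4200001],
    .c (nat_lit 2) (nat_lit 2),.c (nat_lit 4) (nat_lit 0x310c43),.c (nat_lit 3) (nat_lit 0x310c43),
    .r (nat_lit 0x197f) (nat_lit 6) [nat_lit 0x4310c41,nat_lit 0xc210c01,nat_lit 0x6310801,nat_lit 0x6218801],
    .r (nat_lit 32) (nat_lit 9) [nat_lit 0x6000861,nat_lit 0x4200001],
    .r (nat_lit 0x1b58) (nat_lit 10) [nat_lit 0x6300041,nat_lit 0x4200001,nat_lit 0x4010001],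
    .c (nat_lit 1) (nat_lit 0x300043),.r (nat_lit 32) (nat_lit 0) [nat_lit 0x6018861,nat_lit 0x4010001],
    .r (nat_lit 0x13ec) (nat_lit 4) [nat_lit 0x4310c81,nat_lit 0xa0290a1,nat_lit 0xc210c01,nat_lit 0x6218801],
    .r (nat_lit 0x174e) (nat_lit 4) [nat_lit 0x6218861,nat_lit 0x310041],
    .r (nat_lit 32) (nat_lit 6) [nat_lit 0x6018861,nat_lit 0x4200001],.r (nat_lit 0) (nat_lit 8) [nat_lit 0x4010001,
    nat_lit 65],.c (nat_lit 1) (nat_lit 0x19002),.r (nat_lit 0x19a2) (nat_lit 1) [nat_lit 0x6300041,nat_lit 0x4010001,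
    nat_lit 0x4200001],.c (nat_lit 3) (nat_lit 2),.r (nat_lit 0x13ed) (nat_lit 4) [nat_lit 0xe739861,
    nat_lit 0x24631c41,nat_lit 129,nat_lit 0xe639861],.r (nat_lit 0x13ee) (nat_lit 4) [nat_lit 0xa529061,
    nat_lit 0x18421441,nat_lit 129,nat_lit 0xa429061],.r (nat_lit 0x13ef) (nat_lit 4) [nat_lit 0x6529061,
    nat_lit 0x18421441,nat_lit 0xe318881,nat_lit 0x6629061],.r (nat_lit 0x13f0) (nat_lit 8) [nat_lit 0xa229061,
    nat_lit 0xa511061,nat_lit 0xa529061,nat_lit 0x14421441],.r (nat_lit 0x13f1) (nat_lit 4) [nat_lit 0xa529061,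
    nat_lit 0x18421441,nat_lit 129,nat_lit 0xa429061],.r (nat_lit 0x174f) (nat_lit 13) [nat_lit 0x4200001,nat_lit 65],
    .r (nat_lit 0x13ca) (nat_lit 6) [nat_lit 129,nat_lit 0x6218861,nat_lit 0x6310861,nat_lit 0x6318861],
    .r (nat_lit 32) (nat_lit 4) [nat_lit 0x6018861,nat_lit 0x4010001],
    .r (nat_lit 0x1b7a) (nat_lit 4) [nat_lit 0x10001,nat_lit 0x6000041,nat_lit 0x4000001],
    .r (nat_lit 0x135d) (nat_lit 4) [nat_lit 0x318861,nat_lit 0xc210c41,nat_lit 0xe318881,nat_lit 0x418861],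
    .r (nat_lit 0) (nat_lit 1) [nat_lit 0x4200001,nat_lit 65],.r (nat_lit 32) (nat_lit 9) [nat_lit 0x6300861,
    nat_lit 0x4200001],.r (nat_lit 0x18d9) (nat_lit 2) [nat_lit 0x218001,nat_lit 65,nat_lit 0x4010001,
    nat_lit 0x28061],.r (nat_lit 0x1a71) (nat_lit 13) [nat_lit 0x218001,nat_lit 65,nat_lit 0x4010001],
    .c (nat_lit 4) (nat_lit 2),.r (nat_lit 0) (nat_lit 13) [nat_lit 65,nat_lit 0x4010001],.c (nat_lit 5) (nat_lit 2),
    .c (nat_lit 0) (nat_lit 0x200003),.c (nat_lit 0) (nat_lit 0x200003),.c (nat_lit 0) (nat_lit 0xc03),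
    .c (nat_lit 7) (nat_lit 2)]]

/-- nodes -/
noncomputable def rD7k_20_17 : List RJ :=
  [.l (nat_lit 11) (nat_lit 480) (nat_lit 3) (nat_lit 0xd8000000b2000000c3000000c3000000b9000000d1000000e6000000e6000000d7000000ab000000b3000000d3000000b3000000d8) (nat_lit 0x340000000e0000002300000023000000150000002d00000000000000000000003b0000000f00000013000000330000000e00000033)
    (nat_lit 0x14c3205a8b51742ac949231341e0628a61942843d8a611e23c4e88017a2dc3c0a31461fc5207811e2d4528a3152258618c31102a45b88f166230478b51422945d09617c224440bf1582445a8881002ac4b0961bc22c570ad0fa2bc570861562284e8ba1742a45e0de1a2344508c21742783c0dd16e48c448c31a22b4730e615635c4a0a81c22dc5e92917c30c688ae1bc398588d71a6280948ff1461e05f8a91842bc6b8d715e3403c09e0f02903c09a1102205087d1622ac3c0af12e1e04e0780fe2984888f13c218500a80f027850078150204518c51582dc5d0ae1a62504b878190280648a00f02844408c1ba2287f8b70f02905008114a1e0520ca16a2cc3c0ab2523844e0781922a0660a5)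
    (nat_lit 0x14c780f01e03c0780f01e03c0780f01e03c0780640a63c0780f01e03c0780f01e03c0780f01e016a23c529e03c0780f01e03c0780f01e03c07805a88f146294f01e03c0780f01e03c0780f01e0174274548ba1bc780f01e03c0780f01e03c07805588012c258458de3c0780f01e03c0780f01e02522f4618be15c344731e03c0780f01e03c0780918b7186224568d11cc398f01e03c0780f01e01341e0440880fa284558b115e780f01e03c07803c0a31522fc578c21ae35c680af3c0780f01e018a28c5b8ac15c2e84a0d30f025c501e03c07805307f11e2444309e1502804f0780f0280f01e0194290598b51561e0709260f0270540c914a78050878118220450dd16e3fc520781022803c0a5)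
    (nat_lit 4) (nat_lit 49)
    [[nat_lit 2,nat_lit 258,nat_lit 0x10002,nat_lit 17,nat_lit 273,nat_lit 257,nat_lit 513,nat_lit 0x10101,
    nat_lit 0x100101,nat_lit 0x1000101,nat_lit 0x10001,nat_lit 0x110001,nat_lit 0x1010001,nat_lit 0x10011,
    nat_lit 0x11001,nat_lit 0x100001,nat_lit 0x1000001],[nat_lit 32,nat_lit 288,nat_lit 0x1020,nat_lit 0x100020,
    nat_lit 272,nat_lit 528,nat_lit 0x1110,nat_lit 0x10110,nat_lit 0x100110,nat_lit 0x1000110,nat_lit 0x1010,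
    nat_lit 0x10010,nat_lit 0x110010,nat_lit 0x100010,nat_lit 0x1000010],[nat_lit 512,nat_lit 0x1000200,
    nat_lit 0x1100,nat_lit 0x10100,nat_lit 0x1010100,nat_lit 0x100100,nat_lit 0x200100,nat_lit 0x1100100,
    nat_lit 0x1000100,nat_lit 0x2000100],[nat_lit 0x2000,nat_lit 0x11000,nat_lit 0x101000],[nat_lit 0x20000,
    nat_lit 0x110000,nat_lit 0x1110000,nat_lit 0x1010000],[nat_lit 0x200000,nat_lit 0x1100000],[nat_lit 0x2000000]]
    [.c (nat_lit 1) (nat_lit 2),.r (nat_lit 0x1917) (nat_lit 2) [nat_lit 0x3001,nat_lit 0x202001,nat_lit 0x22001,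
    nat_lit 33],.r (nat_lit 32) (nat_lit 7) [nat_lit 0x3390854,nat_lit 0x20001],
    .r (nat_lit 0x1b04) (nat_lit 12) [nat_lit 33,nat_lit 0x20001],.r (nat_lit 0x174e) (nat_lit 3) [nat_lit 0x30231,
    nat_lit 0x20001],.c (nat_lit 0) (nat_lit 0x359089),.r (nat_lit 0x198f) (nat_lit 5) [nat_lit 0x3593872,
    nat_lit 0x22001,nat_lit 0x2003022],.r (nat_lit 0x198f) (nat_lit 5) [nat_lit 0x32948d2,nat_lit 0x22001,
    nat_lit 0x2305042],.c (nat_lit 2) (nat_lit 0x224054),.r (nat_lit 0x1917) (nat_lit 2) [nat_lit 0x3001,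
    nat_lit 0x202001,nat_lit 0x22001,nat_lit 0x2021],.c (nat_lit 2) (nat_lit 0x230504),
    .r (nat_lit 0x174e) (nat_lit 4) [nat_lit 0x30231,nat_lit 0x22001],.r (nat_lit 32) (nat_lit 7) [nat_lit 0x3395854,
    nat_lit 0x20001],.r (nat_lit 32) (nat_lit 7) [nat_lit 0x30231,nat_lit 0x20001],.c (nat_lit 2) (nat_lit 0x224405),
    .c (nat_lit 0) (nat_lit 0x359089),.c (nat_lit 1) (nat_lit 514),.c (nat_lit 2) (nat_lit 2),
    .r (nat_lit 0x198f) (nat_lit 5) [nat_lit 0x2355471,nat_lit 0x22001,nat_lit 33],.c (nat_lit 2) (nat_lit 0x202003),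
    .r (nat_lit 0x174e) (nat_lit 4) [nat_lit 0x2355452,nat_lit 0x22001],.c (nat_lit 0) (nat_lit 0x35545),
    .r (nat_lit 0x1b54) (nat_lit 5) [nat_lit 0x20001,nat_lit 0x22001,nat_lit 33],
    .r (nat_lit 0x1b7b) (nat_lit 12) [nat_lit 0x22031,nat_lit 0x20031,nat_lit 33],
    .r (nat_lit 0x1979) (nat_lit 5) [nat_lit 0x53231,nat_lit 0x20001,nat_lit 0x22001],
    .c (nat_lit 5) (nat_lit 0x22232),.r (nat_lit 0x174e) (nat_lit 3) [nat_lit 0x33231,nat_lit 0x20001],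
    .r (nat_lit 32) (nat_lit 7) [nat_lit 0x3395442,nat_lit 0x20001],.c (nat_lit 0) (nat_lit 0x220005),
    .r (nat_lit 32) (nat_lit 12) [nat_lit 0x33231,nat_lit 0x22001],.c (nat_lit 0) (nat_lit 0x35545),
    .r (nat_lit 0x1b04) (nat_lit 12) [nat_lit 0x2021,nat_lit 0x20001],.c (nat_lit 3) (nat_lit 2),
    .r (nat_lit 0x198f) (nat_lit 5) [nat_lit 0x3599872,nat_lit 0x22001,nat_lit 0x2000022],
    .r (nat_lit 0x1a1a) (nat_lit 13) [nat_lit 0x30021,nat_lit 0x20001,nat_lit 0x2200542],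
    .r (nat_lit 0xe09) (nat_lit 8) [nat_lit 0x95451,nat_lit 0x44001,nat_lit 0x40001,nat_lit 0x230001],
    .r (nat_lit 0x198f) (nat_lit 5) [nat_lit 0x32998d2,nat_lit 0x22001,nat_lit 0x2300042],
    .c (nat_lit 0) (nat_lit 0x359389),.r (nat_lit 0x1669) (nat_lit 4) [nat_lit 0x20001,nat_lit 33,nat_lit 0x2200002,
    nat_lit 0x22001],.c (nat_lit 2) (nat_lit 0x224454),.c (nat_lit 0) (nat_lit 0x359989),
    .r (nat_lit 0x1917) (nat_lit 2) [nat_lit 0x3001,nat_lit 0x202001,nat_lit 0x22001,nat_lit 0x4021],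
    .c (nat_lit 4) (nat_lit 2),.r (nat_lit 32) (nat_lit 7) [nat_lit 0x37d9844,nat_lit 0x20001],
    .r (nat_lit 0x1b54) (nat_lit 9) [nat_lit 0x22001,nat_lit 0x20001,nat_lit 0x230021],.c (nat_lit 5) (nat_lit 2),
    .r (nat_lit 0x174f) (nat_lit 3) [nat_lit 0x20001,nat_lit 33],.r (nat_lit 0x174e) (nat_lit 4) [nat_lit 0x33231,
    nat_lit 0x22001],.c (nat_lit 2) (nat_lit 0x230004),.c (nat_lit 6) (nat_lit 2),.c (nat_lit 0) (nat_lit 0x359989),
    .c (nat_lit 7) (nat_lit 2)],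
    .l (nat_lit 10) (nat_lit 240) (nat_lit 4) (nat_lit 0x6a0000005a000000600000006000000061000000610000006200000062000000600000006000000063000000630000007200000072) (nat_lit 0x180000000800000012000000120000001100000011000000100000001000000012000000120000000f0000000f0000000000000000)
    (nat_lit 0x148621685a0dc3f1685a1303021c751a8580f0521284810c4112844120481ec691605a1205a158541544d140560c04e14451180301285a138561344f138501204c1444b1e8601043f13c4d1405014c53154511485817c6110c371345514050144511444f138541845f1105a1405614453148521385015451210661285a1385014453148521505013c4f2286c120301304e13c51140501484e11c4d180641204c12030144551504e1405214451118601a47512c511505813c511444d150521bc631ec87144511385213c5514447150541d463168581803017c611b0661806418c63118721606a1e8601845f22884118601d46f1c846)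
    (nat_lit 0x148f03c0f03c0f03c0f03c0f03c0f03c0f0188523c0f03c0f03c0f03c0f03c0f03c0f01684a158f03c0f03c0f03c0f03c0f03c0f016848150563c0f03c0f03c0f03c0f03c0f00dc431544d140f03c0f03c0f03c0f03c0f00fc411344f140503c0f03c0f03c0f03c0f01684a1404e14c51148f03c0f03c0f03c0f0168441585014c51148523c0f03c0f03c0f0130480c0481545113854148f03c0f03c0f00c0481384c1444f14050138523c0f03c0f02047b144511484e1544f11c51150f03c0f01d4691444b160541444f13451148543c0f01a8581807a17c612108a180461bc75118f01605a0c0601845f1986c1906018c631c846)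
    (nat_lit 4) (nat_lit 37)
    [[nat_lit 2,nat_lit 3,nat_lit 17,nat_lit 257,nat_lit 0x100101,nat_lit 0x1000101,nat_lit 0x10001,nat_lit 0x110001,
    nat_lit 0x100001,nat_lit 0x200001,nat_lit 0x1000001,nat_lit 0x1100001],[nat_lit 32,nat_lit 288,nat_lit 272,
    nat_lit 528,nat_lit 0x1110,nat_lit 0x100110,nat_lit 0x1000110,nat_lit 0x1010,nat_lit 0x10010,nat_lit 0x110010,
    nat_lit 0x100010],[nat_lit 512,nat_lit 0x100200,nat_lit 0x1000200,nat_lit 0x2000200,nat_lit 0x1100,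
    nat_lit 0x101100,nat_lit 0x1001100,nat_lit 0x10100,nat_lit 0x1010100,nat_lit 0x110100,nat_lit 0x100100,
    nat_lit 0x1110100,nat_lit 0x200100,nat_lit 0x1100100,nat_lit 0x1000100,nat_lit 0x2000100],[nat_lit 0x2000,
    nat_lit 0x11000,nat_lit 0x1011000,nat_lit 0x111000,nat_lit 0x101000,nat_lit 0x1101000,nat_lit 0x1001000],
    [nat_lit 0x20000,nat_lit 0x120000,nat_lit 0x1020000,nat_lit 0x110000,nat_lit 0x1110000,nat_lit 0x1010000,
    nat_lit 0x2010000],[nat_lit 0x200000,nat_lit 0x1100000],[nat_lit 0x2000000]]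
    [.c (nat_lit 1) (nat_lit 2),.r (nat_lit 0x1400) (nat_lit 4) [nat_lit 0x770021,nat_lit 0x60001,nat_lit 0x77631,
    nat_lit 0x666031],.c (nat_lit 0) (nat_lit 0x22203),.c (nat_lit 0) (nat_lit 0x22203),
    .r (nat_lit 8) (nat_lit 13) [nat_lit 0x3231,nat_lit 0x2001],.c (nat_lit 2) (nat_lit 0x22403),
    .r (nat_lit 0x1b7b) (nat_lit 3) [nat_lit 0x355201,nat_lit 0x333021,nat_lit 0x222001],
    .r (nat_lit 0x1972) (nat_lit 7) [nat_lit 0x2001,nat_lit 0x33231,nat_lit 0x20001],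
    .r (nat_lit 0x1b7a) (nat_lit 3) [nat_lit 0x355201,nat_lit 0x333021,nat_lit 0x222001],
    .r (nat_lit 0x1401) (nat_lit 3) [nat_lit 0x260031,nat_lit 0x6001,nat_lit 0x400021,nat_lit 0x300021],
    .r (nat_lit 0x19de) (nat_lit 12) [nat_lit 0x3021,nat_lit 0x2001,nat_lit 0x224031],
    .r (nat_lit 0x13cc) (nat_lit 3) [nat_lit 0x240031,nat_lit 0x4001,nat_lit 0x200021,nat_lit 0x300021],
    .c (nat_lit 2) (nat_lit 2),.r (nat_lit 0x19de) (nat_lit 12) [nat_lit 0x222031,nat_lit 0x2001,nat_lit 33],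
    .c (nat_lit 0) (nat_lit 0x22203),.r (nat_lit 0x1af3) (nat_lit 4) [nat_lit 0x200001,nat_lit 0x33021,
    nat_lit 0x333201],.c (nat_lit 1) (nat_lit 0x20023),.r (nat_lit 0x106e) (nat_lit 3) [nat_lit 0x20001,
    nat_lit 0x30021,nat_lit 0x222031,nat_lit 0x22031],.c (nat_lit 0) (nat_lit 770),
    .r (nat_lit 0x19de) (nat_lit 12) [nat_lit 0x33231,nat_lit 0x2001,nat_lit 0x244321],
    .r (nat_lit 0) (nat_lit 5) [nat_lit 0x33201,nat_lit 33],.r (nat_lit 32) (nat_lit 12) [nat_lit 0x22031,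
    nat_lit 0x33201],.r (nat_lit 0x1af7) (nat_lit 9) [nat_lit 0x33201,nat_lit 0x30021,nat_lit 0x22031],
    .c (nat_lit 3) (nat_lit 2),.c (nat_lit 0) (nat_lit 0x4003),.r (nat_lit 0x13e9) (nat_lit 0) [nat_lit 0x595421,
    nat_lit 0x77601,nat_lit 0x48a531,nat_lit 0x242321],.r (nat_lit 32) (nat_lit 12) [nat_lit 34,nat_lit 0x33201],
    .r (nat_lit 0x1af3) (nat_lit 4) [nat_lit 0x200001,nat_lit 0x222321,nat_lit 0x333201],
    .r (nat_lit 0x1b49) (nat_lit 6) [nat_lit 0x20031,nat_lit 0x2001,nat_lit 0x33201],.c (nat_lit 0) (nat_lit 0x24232),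
    .c (nat_lit 0) (nat_lit 0x2003),.r (nat_lit 0x1403) (nat_lit 4) [nat_lit 0x2001,nat_lit 0x22031,nat_lit 0x357221,
    nat_lit 0x244301],.c (nat_lit 0) (nat_lit 0x2003),.c (nat_lit 0) (nat_lit 0x2003),.c (nat_lit 2) (nat_lit 0x2203),
    .c (nat_lit 0) (nat_lit 0x4003),.r (nat_lit 32) (nat_lit 3) [nat_lit 0x22031,nat_lit 0x33201],
    .r (nat_lit 0) (nat_lit 6) [nat_lit 33,nat_lit 0x33201],.r (nat_lit 0x13e5) (nat_lit 1) [nat_lit 0x520031,
    nat_lit 0x77601,nat_lit 0x440021,nat_lit 0x226031],.c (nat_lit 4) (nat_lit 2),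
    .r (nat_lit 0x1750) (nat_lit 3) [nat_lit 33,nat_lit 0x2001],.c (nat_lit 6) (nat_lit 0x33323),
    .c (nat_lit 2) (nat_lit 0x22432),.r (nat_lit 0x106e) (nat_lit 3) [nat_lit 0x20001,nat_lit 0x224321,
    nat_lit 0x33231,nat_lit 0x333231],.c (nat_lit 5) (nat_lit 0x33323),.c (nat_lit 0) (nat_lit 0x24232),
    .c (nat_lit 5) (nat_lit 2),.c (nat_lit 0) (nat_lit 0x4003),.r (nat_lit 0x1404) (nat_lit 3) [nat_lit 0x440001,
    nat_lit 0x4001,nat_lit 0x500031,nat_lit 33],.c (nat_lit 0) (nat_lit 0x2003),.c (nat_lit 1) (nat_lit 0x20002),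
    .r (nat_lit 0x1b47) (nat_lit 3) [nat_lit 33,nat_lit 0x355201,nat_lit 0x22031],
    .r (nat_lit 0x1405) (nat_lit 11) [nat_lit 33,nat_lit 0x55401,nat_lit 0x4031,nat_lit 0x484521],
    .c (nat_lit 6) (nat_lit 2),.r (nat_lit 8) (nat_lit 13) [nat_lit 0x333231,nat_lit 0x2001],
    .c (nat_lit 7) (nat_lit 2)],
    .l (nat_lit 13) (nat_lit 0x5a0) (nat_lit 3) (nat_lit 0x2380000023800000224000002240000023a0000023a000002040000029000000281000002810000025a0000025a0000027200000212) (nat_lit 0x58000000580000006c0000006c0000005600000056000000000000008c0000000f0000000f00000036000000360000007e0000001e)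
    (nat_lit 0xf007803981cc0f1079848819c11488a43fc1c20dd08683c01e00de07303b41ea11e062044a1f510108083742060e607303601b80f907784b01a010a88444041f20d308183781cc0d606c03dc1ce128066042a2150ff07b83442060f5079839c1de0f207c047418e11587fc4082040de08303b41e20f707c83e81e411d06b845622b0fc06e039822c0c406703301a00d7063840816812087d437c1ce0c307c8478244128096047423a148081036e28112d09684241680fa88a442a21111587fc5021f513909c86aa3150fb898c44a22910a885445622b0db89044e4272145892c48626310107083dc1f20dc08104b41ce1258c544482240ee07f04041fe0ff08083f020412d06f851635511008903b823c103086840c20611608302d01f2131898c4781fc0fc09603741ba0d106983981bc10906184861f70ee07703281f8)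
    (nat_lit 0xf01680b405a02d01680b405a02d01680b405a02d016803c01e02d01680b405a02d01680b405a02d01680b405a00e606f03605a02d01680b405a02d01680b405a02d016803981cc0dc06c0b405a02d01680b405a02d01680b405a00f107683e41ee0f21680b405a02d01680b405a02d016803cc1ea0ef07383e01e42d01680b405a02d01680b405a012208f04b025011d08e84085a02d01680b405a02d016803381880d0066031c1ae0b40810b405a02d01680b405a0114889442a21511588ac4821b71391680b405a02d016804521f510888543fe22b0fa8a044e42722d01680b405a00ff08084041fe10207e037c25a1aa8a2c4485a02d016803842020f907b84081b80e7096862a24b1120890b405a00dd06e834c1a20de073030c2120fb890c3b81dc0fc1680434206103081841822c0f905a04c62630fe08f04b01f8)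
    (nat_lit 5) (nat_lit 37)
    [[nat_lit 2,nat_lit 0x1002,nat_lit 17,nat_lit 0x1011,nat_lit 257,nat_lit 0x1001,nat_lit 0x2001,nat_lit 0x10001,
    nat_lit 0x11001,nat_lit 0x100001,nat_lit 0x101001,nat_lit 0x200001,nat_lit 0x1100001,nat_lit 0x1000001,
    nat_lit 0x1001001],[nat_lit 32,nat_lit 0x1010,nat_lit 0x10010,nat_lit 0x100010,nat_lit 0x110010,nat_lit 0x1100010,
    nat_lit 0x1000010],[nat_lit 512,nat_lit 0x1100,nat_lit 0x11100,nat_lit 0x101100,nat_lit 0x1001100,nat_lit 0x10100,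
    nat_lit 0x100100,nat_lit 0x1000100],[nat_lit 0x2000,nat_lit 0x11000,nat_lit 0x101000,nat_lit 0x1001000],
    [nat_lit 0x20000,nat_lit 0x110000,nat_lit 0x210000,nat_lit 0x1110000,nat_lit 0x1010000],[nat_lit 0x200000,
    nat_lit 0x300000,nat_lit 0x1200000,nat_lit 0x1100000,nat_lit 0x2100000],[nat_lit 0x2000000]]
    [.c (nat_lit 1) (nat_lit 2),.c (nat_lit 0) (nat_lit 0x318843),.c (nat_lit 0) (nat_lit 0x200803),
    .c (nat_lit 2) (nat_lit 0x410062),.c (nat_lit 0) (nat_lit 0x300043),.c (nat_lit 0) (nat_lit 0x318843),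
    .r (nat_lit 0x1ac0) (nat_lit 7) [nat_lit 0x4200c41,nat_lit 0x200001,nat_lit 0x4000001],
    .r (nat_lit 0x1b04) (nat_lit 9) [nat_lit 0x4200001,nat_lit 65],.r (nat_lit 4) (nat_lit 12) [nat_lit 0x6300861,
    nat_lit 0x4200001],.c (nat_lit 0) (nat_lit 0x200803),.c (nat_lit 0) (nat_lit 0x318843),
    .r (nat_lit 0x1a6d) (nat_lit 9) [nat_lit 0x4200001,nat_lit 0x520061,nat_lit 0x218041],
    .r (nat_lit 0x1aad) (nat_lit 13) [nat_lit 0x4010061,nat_lit 0x6300861,nat_lit 0x218041],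
    .r (nat_lit 0x1a17) (nat_lit 12) [nat_lit 0x4200001,nat_lit 0x6300861,nat_lit 0x8210c41],
    .r (nat_lit 4) (nat_lit 3) [nat_lit 0x6300861,nat_lit 0x4200001],.c (nat_lit 2) (nat_lit 2),
    .r (nat_lit 0x1ac0) (nat_lit 7) [nat_lit 0x6000041,nat_lit 0x200001,nat_lit 0x4000001],
    .r (nat_lit 4) (nat_lit 12) [nat_lit 0x4000061,nat_lit 0x4200001],.c (nat_lit 0) (nat_lit 0x200803),
    .c (nat_lit 7) (nat_lit 0x200003),.c (nat_lit 5) (nat_lit 0x200003),.r (nat_lit 4) (nat_lit 3) [nat_lit 0x4000061,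
    nat_lit 0x4200001],.c (nat_lit 3) (nat_lit 2),.c (nat_lit 0) (nat_lit 0x300043),.c (nat_lit 7) (nat_lit 0x300c43),
    .r (nat_lit 0x124d) (nat_lit 11) [nat_lit 0xa311061,nat_lit 0x10410c61,nat_lit 0x6218841,nat_lit 0xa329061],
    .c (nat_lit 5) (nat_lit 0x300c43),.r (nat_lit 0x1b60) (nat_lit 8) [nat_lit 0x6018861,nat_lit 0x6300041,
    nat_lit 0x4200001],.r (nat_lit 0x1a6d) (nat_lit 9) [nat_lit 0x4200001,nat_lit 0x310061,nat_lit 65],
    .r (nat_lit 0x1aad) (nat_lit 13) [nat_lit 0x4200061,nat_lit 0x6018861,nat_lit 65],.c (nat_lit 4) (nat_lit 2),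
    .r (nat_lit 0x1a17) (nat_lit 10) [nat_lit 65,nat_lit 0x6300861,nat_lit 0x200041],
    .c (nat_lit 0) (nat_lit 0x318843),.r (nat_lit 0x1a58) (nat_lit 8) [nat_lit 0xa318861,nat_lit 0x4200001,
    nat_lit 65],.c (nat_lit 5) (nat_lit 2),.r (nat_lit 10) (nat_lit 13) [nat_lit 65,nat_lit 0x4200001],
    .r (nat_lit 0x1250) (nat_lit 8) [nat_lit 0x10210c61,nat_lit 0xa511061,nat_lit 0x4210c81,nat_lit 0xa529061],
    .c (nat_lit 2) (nat_lit 0x200003),.c (nat_lit 1) (nat_lit 0x802),.c (nat_lit 6) (nat_lit 2),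
    .r (nat_lit 0x1251) (nat_lit 4) [nat_lit 129,nat_lit 0xe739861,nat_lit 0xe639841,nat_lit 0x24631c61],
    .r (nat_lit 0x17d8) (nat_lit 4) [nat_lit 65,nat_lit 0x10001,nat_lit 0x8000061,nat_lit 0x400041],
    .r (nat_lit 10) (nat_lit 5) [nat_lit 0x4200001,nat_lit 65],.r (nat_lit 0x1b28) (nat_lit 10) [nat_lit 65,
    nat_lit 0xa029061,nat_lit 0x10421441],.c (nat_lit 7) (nat_lit 2)]]

/-- nodes -/
noncomputable def rD7k_20_18 : List RJ :=
  [.l (nat_lit 12) (nat_lit 960) (nat_lit 3) (nat_lit 0x1470000019b0000015700000197000001a2000001a2000001a8000001a80000017d0000014300000172000001720000017700000177) (nat_lit 0xd00000061000000110000005100000006000000060000000000000000000000650000002b00000036000000360000003100000031)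
    (nat_lit 0x1460f21300f61411411271470f011c0f311111611019a14619614a13919519b19b12a0f015f16516a17614a0f61460fa1511451d71b30f212c11512d11a12c19613018614613919120d1e912c0f016116516617819514119114514a19c21e1fa13910115a17217717113914113915119c14a1c61a21751771b21b617117119b1471e91b31a21fa1a81a80f915917213a17713119b12720d1d71c621e16e1a814317d12814a1771770f011c0f012c17710117d15914018c14714716c19612a0f012c0f21751391430f90f414010910d1120f016511116512d1b617214a13a10d14715e12613314515f0f31611151b215a12817210914713c15e14714117611017812c1711711771310f019614114516414616a11616611a17117717717711216c14713313a164)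
    (nat_lit 0x1463c03c03c03c03c03c03c03c03c03c03c03c03c00f21463c03c03c03c03c03c03c03c03c03c03c03c01301961463c03c03c03c03c03c03c03c03c03c03c00f614a0fa1463c03c03c03c03c03c03c03c03c03c014113915113914a3c03c03c03c03c03c03c03c03c014119514519119c14a3c03c03c03c03c03c03c03c012719b1d720d21e1c61a83c03c03c03c03c03c03c014719b1b31e91fa1a21a81a83c03c03c03c03c03c00f012a0f212c1391750f91431403c03c03c03c03c011c0f012c0f010117715917d18c1403c03c03c03c00f315f11516115a1b217212814710915e3c03c03c011116512d1651721b613a14a14710d12615e3c03c011616a11a16617717117717716c1121331471643c011017612c1781711711311771960f0145141146164)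
    (nat_lit 4) (nat_lit 59)
    [[nat_lit 2,nat_lit 17,nat_lit 33,nat_lit 273,nat_lit 0x1011,nat_lit 0x1000011,nat_lit 257,nat_lit 513,
    nat_lit 0x1000101,nat_lit 0x10101,nat_lit 0x100101,nat_lit 0x1001,nat_lit 0x10001,nat_lit 0x100001,
    nat_lit 0x1000001],[nat_lit 32,nat_lit 288,nat_lit 0x1000020,nat_lit 272,nat_lit 528,nat_lit 0x1110,
    nat_lit 0x100110,nat_lit 0x1000110,nat_lit 0x1010,nat_lit 0x10010,nat_lit 0x1010010,nat_lit 0x100010,
    nat_lit 0x100020,nat_lit 0x1100010,nat_lit 0x1000010,nat_lit 0x2000010],[nat_lit 512,nat_lit 0x1200,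
    nat_lit 0x10200,nat_lit 0x100200,nat_lit 0x1000200,nat_lit 0x1100,nat_lit 0x1001100,nat_lit 0x10100,
    nat_lit 0x110100,nat_lit 0x1010100,nat_lit 0x100100,nat_lit 0x200100,nat_lit 0x1100100,nat_lit 0x1000100,
    nat_lit 0x2000100],[nat_lit 0x2000,nat_lit 0x1001000],[nat_lit 0x20000,nat_lit 0x110000,nat_lit 0x1010000,
    nat_lit 0x1110000],[nat_lit 0x200000,nat_lit 0x1100000],[nat_lit 0x2000000]]
    [.c (nat_lit 1) (nat_lit 2),.c (nat_lit 0) (nat_lit 0x3323),.r (nat_lit 0x1b28) (nat_lit 0) [nat_lit 33,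
    nat_lit 0x555431,nat_lit 0x484521],.r (nat_lit 0x1aad) (nat_lit 3) [nat_lit 0x222031,nat_lit 0x30231,
    nat_lit 0x303021],.r (nat_lit 0x174d) (nat_lit 3) [nat_lit 0x330021,nat_lit 0x20001],
    .r (nat_lit 2) (nat_lit 8) [nat_lit 0x30231,nat_lit 0x20001],.c (nat_lit 0) (nat_lit 0x22203),
    .r (nat_lit 0x19ec) (nat_lit 1) [nat_lit 0x204031,nat_lit 0x303021,nat_lit 0x20001],.c (nat_lit 1) (nat_lit 770),
    .c (nat_lit 4) (nat_lit 0x24203),.r (nat_lit 0x174d) (nat_lit 3) [nat_lit 0x30231,nat_lit 0x20001],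
    .c (nat_lit 7) (nat_lit 0x33002),.r (nat_lit 0x1a6d) (nat_lit 7) [nat_lit 0x20001,nat_lit 0x202031,nat_lit 33],
    .c (nat_lit 0) (nat_lit 0x3323),.r (nat_lit 10) (nat_lit 3) [nat_lit 33,nat_lit 0x20001],
    .c (nat_lit 2) (nat_lit 2),.r (nat_lit 0x1817) (nat_lit 10) [nat_lit 0x20001,nat_lit 0x488521,nat_lit 0x355221,
    nat_lit 0x593431],.r (nat_lit 0x1a8b) (nat_lit 5) [nat_lit 33,nat_lit 0x20001,nat_lit 0x333231],
    .r (nat_lit 0x1a91) (nat_lit 8) [nat_lit 33,nat_lit 0x20001],.r (nat_lit 0x1274) (nat_lit 10) [nat_lit 0x60001,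
    nat_lit 0x332231,nat_lit 0x432231,nat_lit 0x559421],.r (nat_lit 0x1b00) (nat_lit 10) [nat_lit 0x20001,
    nat_lit 0x353201,nat_lit 0x30231],.r (nat_lit 4) (nat_lit 5) [nat_lit 0x30231,nat_lit 0x20001],
    .c (nat_lit 2) (nat_lit 770),.r (nat_lit 0x1b2a) (nat_lit 7) [nat_lit 0x2001,nat_lit 0x30021,nat_lit 0x20001],
    .r (nat_lit 0x1aad) (nat_lit 3) [nat_lit 0x20031,nat_lit 0x333231,nat_lit 33],.c (nat_lit 6) (nat_lit 0x33323),
    .c (nat_lit 0) (nat_lit 0x3323),.r (nat_lit 0x1b00) (nat_lit 10) [nat_lit 0x20001,nat_lit 0x353201,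
    nat_lit 0x375431],.c (nat_lit 4) (nat_lit 0x24232),.r (nat_lit 0x1750) (nat_lit 3) [nat_lit 0x20001,nat_lit 33],
    .r (nat_lit 0x1b7e) (nat_lit 8) [nat_lit 0x2031,nat_lit 0x300031,nat_lit 0x220021],.c (nat_lit 3) (nat_lit 2),
    .r (nat_lit 4) (nat_lit 5) [nat_lit 0x224031,nat_lit 0x20001],.r (nat_lit 0x1b29) (nat_lit 1) [nat_lit 0x4031,
    nat_lit 33,nat_lit 0x20001,nat_lit 0x404031],.r (nat_lit 0x1b45) (nat_lit 8) [nat_lit 0x20321,nat_lit 0x323321,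
    nat_lit 0x202231],.c (nat_lit 3) (nat_lit 770),.c (nat_lit 0) (nat_lit 0x22203),.c (nat_lit 4) (nat_lit 770),
    .r (nat_lit 0x19ec) (nat_lit 1) [nat_lit 0x2031,nat_lit 33,nat_lit 0x20001],
    .r (nat_lit 0x1b7e) (nat_lit 8) [nat_lit 0x222321,nat_lit 0x20321,nat_lit 561],.c (nat_lit 4) (nat_lit 0x2203),
    .r (nat_lit 0x174f) (nat_lit 8) [nat_lit 33,nat_lit 0x20001],.r (nat_lit 0x1a78) (nat_lit 11) [nat_lit 0x20321,
    nat_lit 0x262521,nat_lit 0x353431],.c (nat_lit 6) (nat_lit 770),.c (nat_lit 0) (nat_lit 515),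
    .c (nat_lit 7) (nat_lit 770),.c (nat_lit 4) (nat_lit 2),.r (nat_lit 0x1a9f) (nat_lit 0) [nat_lit 0x20031,
    nat_lit 0x2001,nat_lit 33],.c (nat_lit 5) (nat_lit 2),.r (nat_lit 0x174d) (nat_lit 3) [nat_lit 0x333231,
    nat_lit 0x20001],.c (nat_lit 1) (nat_lit 0x20002),.c (nat_lit 2) (nat_lit 0x33323),.c (nat_lit 6) (nat_lit 2),
    .r (nat_lit 0x1a91) (nat_lit 6) [nat_lit 0x20001,nat_lit 33],.c (nat_lit 7) (nat_lit 2)],
    .l (nat_lit 10) (nat_lit 240) (nat_lit 4) (nat_lit 0x640000006400000060000000600000005b0000005b0000005e0000005e000000500000006c0000006c0000006c0000005e0000005e) (nat_lit 0x8000000080000000c0000000c00000011000000110000000e0000000e000000000000001c00000000000000000000000e0000000e)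
    (nat_lit 0x1705c1505814c57158560c0482108c158301705c1405814c571584a0f8481906c15830160581405416c5714852160442188614852140541505014c4f13856190481a86a1385015c5713c571184a1244914443174571444314c5314c5b128461144d1ac3f16c5b1344d128561585213449140501784a1784e1405015856138521144914050178421784e1405012048120440fc431084a1803414050108420f830190581ac511785e1b8601786c0d85e1b08c1a88616c571384e1b0501b06a2486c190841a88616c5d1785e178501b06c2105e0c030140521344314050178421786c0c050158561385213451140500d8422109214030)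
    (nat_lit 0x170f03c0f03c0f03c0f03c0f03c0f03c0f01705c3c0f03c0f03c0f03c0f03c0f03c0f015050140f03c0f03c0f03c0f03c0f03c0f016058150503c0f03c0f03c0f03c0f03c0f014c5316c53118f03c0f03c0f03c0f03c0f015c5715c4f128463c0f03c0f03c0f03c0f0158561484e12445140f03c0f03c0f03c0f01584a148561244d140503c0f03c0f03c0f00c03e160641446b1785e180f03c0f03c0f0120481104810c3f128420d0603c0f03c0f0200642186a1745b1785e1405e1b0f03c0f02006c2186a15c5b1384e1406c1a86c3c0f0158561484e1444d1405010836218840c0f00c0301485010c4d140501085e1b05e14030)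
    (nat_lit 5) (nat_lit 98)
    [[nat_lit 2,nat_lit 3,nat_lit 4,nat_lit 259,nat_lit 0x1000003,nat_lit 258,nat_lit 0x1000102,nat_lit 0x10102,
    nat_lit 0x1002,nat_lit 0x10002,nat_lit 0x100002,nat_lit 0x1000002,nat_lit 257,nat_lit 0x10101,nat_lit 0x100101,
    nat_lit 0x1000101,nat_lit 273,nat_lit 513,nat_lit 0x1000201,nat_lit 0x1101,nat_lit 0x1001,nat_lit 0x11001,
    nat_lit 0x1001001,nat_lit 0x10001,nat_lit 0x20001,nat_lit 0x1010001,nat_lit 0x110001,nat_lit 0x100001,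
    nat_lit 0x1100001,nat_lit 0x1000001,nat_lit 0x2000001],[nat_lit 32,nat_lit 272,nat_lit 0x1000110,nat_lit 0x1110,
    nat_lit 0x1010,nat_lit 0x10010],[nat_lit 512,nat_lit 0x1000200,nat_lit 0x1100,nat_lit 0x11100,nat_lit 0x10100,
    nat_lit 0x20100,nat_lit 0x110100,nat_lit 0x1010100,nat_lit 0x100100,nat_lit 0x1000100,nat_lit 0x1001100,
    nat_lit 0x1100100,nat_lit 0x2000100],[nat_lit 0x2000,nat_lit 0x12000,nat_lit 0x11000,nat_lit 0x21000,
    nat_lit 0x111000,nat_lit 0x1011000,nat_lit 0x101000,nat_lit 0x1001000],[nat_lit 0x20000,nat_lit 0x30000,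
    nat_lit 0x110000,nat_lit 0x1010000],[nat_lit 0x200000,nat_lit 0x1100000],[nat_lit 0x2000000]]
    [.c (nat_lit 1) (nat_lit 2),.r (nat_lit 0x1285) (nat_lit 1) [nat_lit 0xc038041,nat_lit 0xe7318a1,nat_lit 0x630061,
    nat_lit 65],.r (nat_lit 0x1750) (nat_lit 4) [nat_lit 0x210001,nat_lit 0xa521062],
    .r (nat_lit 0x1286) (nat_lit 1) [nat_lit 0xa9220a1,nat_lit 0xc038041,nat_lit 0x4830061,nat_lit 0x6010041],
    .r (nat_lit 0x1750) (nat_lit 4) [nat_lit 0x210001,nat_lit 0xa511062],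
    .r (nat_lit 0x1ac0) (nat_lit 1) [nat_lit 0x218c41,nat_lit 0x200c41,nat_lit 0x10861],
    .r (nat_lit 0x1286) (nat_lit 1) [nat_lit 0xa9020a1,nat_lit 0xc028041,nat_lit 0x4820061,nat_lit 0x6020041],
    .r (nat_lit 0x1285) (nat_lit 1) [nat_lit 0x8028041,nat_lit 0x67118a1,nat_lit 0x4620061,nat_lit 0x6010041],
    .c (nat_lit 6) (nat_lit 0x318843),.r (nat_lit 0x1234) (nat_lit 4) [nat_lit 0x6028041,nat_lit 0x8028041,
    nat_lit 0x67118a1,nat_lit 0x4620061],.c (nat_lit 4) (nat_lit 0x318843),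
    .r (nat_lit 0x1285) (nat_lit 1) [nat_lit 0xc028041,nat_lit 0xe7118a1,nat_lit 0x620061,nat_lit 0x10041],
    .r (nat_lit 0x174f) (nat_lit 1) [nat_lit 0x18041,nat_lit 0x210001],.c (nat_lit 1) (nat_lit 0x300802),
    .r (nat_lit 4) (nat_lit 8) [nat_lit 0x300861,nat_lit 0x210001],.r (nat_lit 0x1ac0) (nat_lit 1) [nat_lit 0x200c41,
    nat_lit 0x210c41,nat_lit 0x861],.c (nat_lit 0) (nat_lit 0x18c02),
    .r (nat_lit 0x1acd) (nat_lit 10) [nat_lit 0x200c41,nat_lit 0x611441,nat_lit 0x501061],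
    .r (nat_lit 2) (nat_lit 1) [nat_lit 0x18042,nat_lit 0x210001],.r (nat_lit 4) (nat_lit 2) [nat_lit 0x300861,
    nat_lit 0x210001],.r (nat_lit 0x1b04) (nat_lit 12) [nat_lit 0x210001,nat_lit 0x18041],
    .r (nat_lit 0x1b7f) (nat_lit 0) [nat_lit 0x300861,nat_lit 0x210001,nat_lit 0x4218c41],
    .c (nat_lit 6) (nat_lit 0x318043),.r (nat_lit 0x1a6d) (nat_lit 13) [nat_lit 0x210001,nat_lit 0x4018061,
    nat_lit 65],.r (nat_lit 0x1287) (nat_lit 4) [nat_lit 0xa018041,nat_lit 0x47198a1,nat_lit 0x4018041,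
    nat_lit 0x8610061],.r (nat_lit 0x1234) (nat_lit 4) [nat_lit 0x6018041,nat_lit 0x8018041,nat_lit 0x67198a1,
    nat_lit 0x4610061],.r (nat_lit 0x1ae0) (nat_lit 9) [nat_lit 0x300861,nat_lit 0x210061,nat_lit 65],
    .r (nat_lit 0x1a91) (nat_lit 1) [nat_lit 0x18041,nat_lit 0x210001],.c (nat_lit 4) (nat_lit 0x318043),
    .c (nat_lit 1) (nat_lit 0x802),.r (nat_lit 0x1285) (nat_lit 1) [nat_lit 0xc018041,nat_lit 0xe7198a1,
    nat_lit 0x610061,nat_lit 0x20041],.c (nat_lit 2) (nat_lit 2),.c (nat_lit 0) (nat_lit 0x210003),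
    .c (nat_lit 0) (nat_lit 0x18002),.r (nat_lit 0x1af9) (nat_lit 4) [nat_lit 0x10001,nat_lit 0x200001,
    nat_lit 0x300041],.r (nat_lit 0x1b61) (nat_lit 1) [nat_lit 0x200061,nat_lit 0x210061,nat_lit 65],
    .c (nat_lit 0) (nat_lit 0x210003),.c (nat_lit 3) (nat_lit 2),.r (nat_lit 0x1acd) (nat_lit 10) [nat_lit 0x210c41,
    nat_lit 0x621441,nat_lit 0x519061],.r (nat_lit 0x1a91) (nat_lit 13) [nat_lit 0x210001,nat_lit 65],
    .r (nat_lit 0x1b04) (nat_lit 12) [nat_lit 0x210001,nat_lit 0x6000041],.c (nat_lit 0) (nat_lit 0x200c03),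
    .r (nat_lit 0x1a6d) (nat_lit 13) [nat_lit 0x210001,nat_lit 0x8028061,nat_lit 0x6010041],
    .r (nat_lit 0x1a91) (nat_lit 1) [nat_lit 0x6000041,nat_lit 0x210001],.c (nat_lit 1) (nat_lit 0x301002),
    .r (nat_lit 0x1b04) (nat_lit 13) [nat_lit 0x210001,nat_lit 65],.r (nat_lit 0x174f) (nat_lit 1) [nat_lit 65,
    nat_lit 0x210001],.r (nat_lit 4) (nat_lit 2) [nat_lit 0x318861,nat_lit 0x210001],
    .r (nat_lit 4) (nat_lit 8) [nat_lit 0x318861,nat_lit 0x210001],.r (nat_lit 0x1ac0) (nat_lit 1) [nat_lit 0x210c41,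
    nat_lit 0x220c41,nat_lit 0x18861],.c (nat_lit 4) (nat_lit 2),.r (nat_lit 0x1b28) (nat_lit 4) [nat_lit 65,
    nat_lit 0xa501061,nat_lit 0x8821441],.r (nat_lit 0x1750) (nat_lit 3) [nat_lit 65,nat_lit 0x200001],
    .r (nat_lit 0x1b0d) (nat_lit 0) [nat_lit 0x10001,nat_lit 0x200001,nat_lit 0x210c41],
    .r (nat_lit 2) (nat_lit 1) [nat_lit 0x318861,nat_lit 0x210001],.r (nat_lit 0x1b7f) (nat_lit 0) [nat_lit 0x318861,
    nat_lit 0x210001,nat_lit 0x4200c41],.r (nat_lit 0x1750) (nat_lit 4) [nat_lit 0x210001,nat_lit 65],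
    .r (nat_lit 0x1b04) (nat_lit 12) [nat_lit 0x210001,nat_lit 65],.c (nat_lit 5) (nat_lit 2),
    .r (nat_lit 0x1288) (nat_lit 4) [nat_lit 0x600001,nat_lit 0xf339801,nat_lit 65,nat_lit 0xc600061],
    .r (nat_lit 10) (nat_lit 6) [nat_lit 0x210001,nat_lit 65],.r (nat_lit 0x1a6d) (nat_lit 13) [nat_lit 0x210001,
    nat_lit 0x4028061,nat_lit 0x10041],.c (nat_lit 6) (nat_lit 2),.r (nat_lit 0x1a91) (nat_lit 1) [nat_lit 65,
    nat_lit 0x210001],.c (nat_lit 7) (nat_lit 2)]]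

/-- nodes -/
noncomputable def rD7k_20_19 : List RJ :=
  [.l (nat_lit 13) (nat_lit 0x5a0) (nat_lit 3) (nat_lit 0x26700000267000002710000027100000296000001f000000237000002370000023d0000023d00000240000002400000020200000284) (nat_lit 0x2f0000002f0000002500000025000000a6000000000000005f0000005f000000590000005900000056000000560000001200000094)
    (nat_lit 0x11c08e06bc2ea0bf899c41020812509883ce21112a86ec47023815b0908382267104082041c20e108884435a1d31210ba849824c0e587f442421210c086043621b12f877456c35e126093039627110908484301fa10d886c4be1dd133899c4e21fd0f80a584aa23711e88f44802400b4080838217f0e5872c2d01f00c886443521970c406683bc16810408204242120c888dc3b01ba0ef07783aa1cf13386d441020810908483222550ec07603bc1de0f087843a21a310709883f42180cb88f43bc1de0f207903ce1e711586a441c24a10c086035223d0ef07783c81e40ea879c456191108884443621b0cd09003c21cf0f3879c4041ea0f906f84221e710d886c3102400f087543aa1e70f8080848c1ac0e986ec3ba1dd0b408083461b50c886a43581be10d05a035a25512f897c3bc1680e8899c45622b12307c84e421a)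
    (nat_lit 0x11c1680b405a02d01680b405a02d01680b405a02d016804702382d01680b405a02d01680b405a02d01680b405a01af0ad84985a02d01680b405a02d01680b405a02d016805d42421260930b405a02d01680b405a02d01680b405a00bf87043961cb0f81680b405a02d01680b405a02d016804ce2670fe89c452c1f02d01680b405a02d01680b405a0104082042421212a86443b05a02d01680b405a02d01680410208109084846e1910dd0760b405a02d01680b405a0125083843021811e86a43bc1de0f21680b405a02d016804c420e10c07e847a1970ef07783c81e42d01680b405a00f3884443621b12006203aa1e10f387544045a02d0168042221110d886c48019a0e787843ce1e70f50808b405a012a86b44be25f0b407784ce1d111588ac3e424610d16803761d30ee87744041680da868c3521910df06b02d021a)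
    (nat_lit 3) (nat_lit 79)
    [[nat_lit 2,nat_lit 0x10002,nat_lit 0x1000002,nat_lit 17,nat_lit 273,nat_lit 0x1011,nat_lit 0x10011,nat_lit 257,
    nat_lit 0x1001,nat_lit 0x1101,nat_lit 0x2001,nat_lit 0x11001,nat_lit 0x1001001,nat_lit 0x10001,nat_lit 0x10101,
    nat_lit 0x20001,nat_lit 0x110001,nat_lit 0x1010001,nat_lit 0x100001,nat_lit 0x1000001,nat_lit 0x1000011],
    [nat_lit 32,nat_lit 272,nat_lit 0x1110,nat_lit 0x1010,nat_lit 0x2010,nat_lit 0x10010,nat_lit 0x100010,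
    nat_lit 0x1000010],[nat_lit 512,nat_lit 0x1100,nat_lit 0x2100,nat_lit 0x10100,nat_lit 0x100100,nat_lit 0x1000100],
    [nat_lit 0x2000,nat_lit 0x3000,nat_lit 0x11000,nat_lit 0x101000,nat_lit 0x1001000],[nat_lit 0x20000,
    nat_lit 0x110000,nat_lit 0x1010000],[nat_lit 0x200000],[nat_lit 0x2000000]]
    [.c (nat_lit 1) (nat_lit 2),.r (nat_lit 4) (nat_lit 4) [nat_lit 0x2b11a,nat_lit 0x10001],
    .c (nat_lit 4) (nat_lit 0x2d0e3),.c (nat_lit 0) (nat_lit 0x1d625),.c (nat_lit 4) (nat_lit 0x241a),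
    .c (nat_lit 6) (nat_lit 0x1401a),.r (nat_lit 4) (nat_lit 0) [nat_lit 0x18099,nat_lit 0x10001],
    .c (nat_lit 0) (nat_lit 0x1d6e3),.c (nat_lit 2) (nat_lit 0x1209a),.r (nat_lit 4) (nat_lit 4) [nat_lit 0x904d1,
    nat_lit 0x10001],.r (nat_lit 0x174d) (nat_lit 5) [nat_lit 0x904d1,nat_lit 0x10001],
    .r (nat_lit 4) (nat_lit 4) [nat_lit 0x18099,nat_lit 0x10001],.c (nat_lit 2) (nat_lit 0x1b013),
    .r (nat_lit 0x174f) (nat_lit 6) [nat_lit 17,nat_lit 0x10001],.r (nat_lit 0x174d) (nat_lit 5) [nat_lit 0x18099,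
    nat_lit 0x10001],.r (nat_lit 0x1b45) (nat_lit 6) [nat_lit 0x100d1,nat_lit 0xd00d1,nat_lit 0x80099],
    .r (nat_lit 0x1ac7) (nat_lit 12) [nat_lit 0xd8011,nat_lit 0x100d1,nat_lit 153],
    .r (nat_lit 0x1b7e) (nat_lit 6) [nat_lit 0x900d1,nat_lit 0x100d1,nat_lit 153],
    .r (nat_lit 0x1b80) (nat_lit 2) [nat_lit 0x10019,nat_lit 17,nat_lit 0x90019],
    .r (nat_lit 0x174d) (nat_lit 5) [nat_lit 0xd8099,nat_lit 0x10001],.c (nat_lit 4) (nat_lit 0x1b013),
    .c (nat_lit 2) (nat_lit 2),.c (nat_lit 0) (nat_lit 0x20085),.r (nat_lit 2) (nat_lit 6) [nat_lit 0x18099,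
    nat_lit 0x10001],.c (nat_lit 0) (nat_lit 0x485),.r (nat_lit 0x1a8b) (nat_lit 4) [nat_lit 17,nat_lit 0x10001,
    nat_lit 0xd8099],.c (nat_lit 0) (nat_lit 0x20085),.r (nat_lit 0x17d3) (nat_lit 4) [nat_lit 0x401,nat_lit 0x2001,
    nat_lit 0x10001,nat_lit 0x80001],.c (nat_lit 0) (nat_lit 131),.c (nat_lit 3) (nat_lit 2),
    .r (nat_lit 10) (nat_lit 8) [nat_lit 0x10001,nat_lit 17],.r (nat_lit 4) (nat_lit 4) [nat_lit 0x83412,
    nat_lit 0x10001],.c (nat_lit 0) (nat_lit 0x10083),.c (nat_lit 4) (nat_lit 0x1b402),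
    .r (nat_lit 0x174e) (nat_lit 1) [nat_lit 0xeb11a,nat_lit 17],.c (nat_lit 4) (nat_lit 2),
    .r (nat_lit 0x17d3) (nat_lit 4) [nat_lit 0x401,nat_lit 0x2001,nat_lit 0x10001,nat_lit 0x80001],
    .c (nat_lit 0) (nat_lit 0x403),.r (nat_lit 0x17d3) (nat_lit 4) [nat_lit 0x401,nat_lit 0x2001,nat_lit 0x10001,
    nat_lit 0x80001],.r (nat_lit 0x174e) (nat_lit 1) [nat_lit 0xd8099,nat_lit 0x83021],.c (nat_lit 5) (nat_lit 2),
    .c (nat_lit 1) (nat_lit 0x2f6e2),.r (nat_lit 0x174d) (nat_lit 5) [nat_lit 0x241a,nat_lit 0x10001],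
    .c (nat_lit 6) (nat_lit 2),.c (nat_lit 7) (nat_lit 2)],
    .l (nat_lit 16) (nat_lit 0x2760) (nat_lit 4) (nat_lit 0xff300000f4b0000119600000e2e00000fc100000fc100000fc100000fc100000cee0000121e00001047000010470000117e0000117e) (nat_lit 0x2d30000022b000003f0000000880000025d0000025d0000025d0000025d0000000000000530000001d7000001d7000000a0000000a0)
    (nat_lit 0xd200e0c0bbf0faf0d520d960dda0d5207e10973103615220f530bd90c780d200a910ec30ccc0cee0cee0cee0f4b09d7123e172a0e670eab0ec30faf0da6110e0f3910030f7d0f5b07e00c660fbf0fbf10f60c2c0a910bbf0a3e0da60bd10bd10bd10ac50e2e08fe0c570ad50d8e0d8e0cee0d960bd110030e700d640d640d6411430a910dea0dea0f650f210ccc0d520bd10f390b8e0e700d640d640fc10a910dea0dea0f650f210cee0d520ac50f5b0d640d640d640f3a0fc10a910dea0dea0f650f210cee0dda0bd10f7d0d640d640d420d640fc10a910c140c1410710f2109d7097308fe0c660a910a910a910a910ec407e00b170b170c0a0e240f4b07e10e2e07e00fc111430fc10fc112400ec40baf10470a78150a172a15220ad50fbf0dea0dea0c140dea10470b170ae40e4e17b9143f123e10360c570fbf0dea0dea0c140dea0baf0b170e700ae413210fa70eab0bd90d8e0c2c0f210f210f210f21150a0e240fa7143f0ec410de0e670f530d8e10f60f650f6510710f650a780c0a132117b9109a0ec4)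
    (nat_lit 0xd2027602760276027602760276027602760276027602760276027600e0c0d202760276027602760276027602760276027602760276027600bbf0a910da6276027602760276027602760276027602760276027600faf0ec3110e0da627602760276027602760276027602760276027600d520ccc0f390bd10e702760276027602760276027602760276027600d960cee10030bd10d640e70276027602760276027602760276027600dda0cee0f7d0bd10d640d640d6427602760276027602760276027600d520cee0f5b0ac50d640d640f3a0d6427602760276027602760276007e10f4b07e00e2e11430fc10fc10fc10ec427602760276027602760097309d70c6608fe0a910a910a910a9107e00ec427602760276027601036123e0fbf0c570dea0dea0dea0c140b170baf0ae427602760276012f8172a0fbf0ad50dea0dea0dea0c140b1710470e4e0ae4276027600f530e6710f60d8e0f650f650f6510710c0a0a78158f13210ec427600bd90eab0c2c0d8e0f210f210f210f210e24150a143f0fa710de0ec4)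
    (nat_lit 5) (nat_lit 49)
    [[nat_lit 2,nat_lit 257,nat_lit 0x100101,nat_lit 0x1000101,nat_lit 273,nat_lit 0x1101,nat_lit 0x10101,
    nat_lit 0x1001,nat_lit 0x10001,nat_lit 0x100001,nat_lit 0x1000001,nat_lit 0x1100001],[nat_lit 32,nat_lit 48,
    nat_lit 288,nat_lit 0x1020,nat_lit 0x10020,nat_lit 0x100020,nat_lit 272,nat_lit 0x1110,nat_lit 0x100110,
    nat_lit 528,nat_lit 0x100210,nat_lit 0x10110,nat_lit 0x1010,nat_lit 0x101010,nat_lit 0x10010,nat_lit 0x100010,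
    nat_lit 0x1000110],[nat_lit 512,nat_lit 0x100200,nat_lit 0x1000200,nat_lit 0x1100,nat_lit 0x1001100,
    nat_lit 0x101100,nat_lit 0x10100,nat_lit 0x1010100,nat_lit 0x100100,nat_lit 0x200200,nat_lit 0x1100200,
    nat_lit 0x110100,nat_lit 0x200100,nat_lit 0x1100100,nat_lit 0x1000100,nat_lit 0x2000200,nat_lit 0x2000100],
    [nat_lit 0x2000,nat_lit 0x11000,nat_lit 0x21000,nat_lit 0x101000,nat_lit 0x1001000],[nat_lit 0x20000,
    nat_lit 0x1020000,nat_lit 0x110000,nat_lit 0x1010000],[nat_lit 0x200000,nat_lit 0x1100000,nat_lit 0x1200000],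
    [nat_lit 0x2000000]]
    [.c (nat_lit 1) (nat_lit 2),.r (nat_lit 0x174f) (nat_lit 1) [nat_lit 0x18041,nat_lit 0x210001],
    .r (nat_lit 32) (nat_lit 9) [nat_lit 0x84210c41,nat_lit 0xc63010a1],
    .r (nat_lit 0x1ac0) (nat_lit 1) [nat_lit 0x200c41,nat_lit 0x210c41,nat_lit 0x861],
    .c (nat_lit 0) (nat_lit 0x18c02),.r (nat_lit 4) (nat_lit 2) [nat_lit 0x300861,nat_lit 0x210001],
    .r (nat_lit 0x174d) (nat_lit 4) [nat_lit 0x300861,nat_lit 0x210001],.c (nat_lit 0) (nat_lit 0xc402009),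
    .c (nat_lit 0) (nat_lit 0x4001003),.r (nat_lit 0x1a91) (nat_lit 1) [nat_lit 0x18041,nat_lit 0x210001],
    .c (nat_lit 1) (nat_lit 0x802),.r (nat_lit 0x19de) (nat_lit 4) [nat_lit 0x10001,nat_lit 0x200001,nat_lit 0x18041],
    .c (nat_lit 2) (nat_lit 2),.c (nat_lit 0) (nat_lit 0xc068004),.c (nat_lit 0) (nat_lit 0x4028002),
    .c (nat_lit 0) (nat_lit 0xc588008),.c (nat_lit 1) (nat_lit 0x4022003),.c (nat_lit 0) (nat_lit 0x4028002),
    .r (nat_lit 0x174d) (nat_lit 4) [nat_lit 0xc0018861,nat_lit 0x210001],.c (nat_lit 6) (nat_lit 0x6000c43),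
    .c (nat_lit 4) (nat_lit 0x6000c43),.c (nat_lit 6) (nat_lit 0xa319483),.c (nat_lit 0) (nat_lit 0x82010a4),
    .r (nat_lit 0x1b80) (nat_lit 4) [nat_lit 0x10001,nat_lit 0x200001,nat_lit 0x300041],
    .c (nat_lit 0) (nat_lit 0x210005),.c (nat_lit 3) (nat_lit 0x6000c43),
    .r (nat_lit 32) (nat_lit 9) [nat_lit 0x84220062,nat_lit 65],.r (nat_lit 0x19ed) (nat_lit 6) [nat_lit 65,
    nat_lit 0x1460290a1,nat_lit 0x184321481],.c (nat_lit 0) (nat_lit 0x18002),.c (nat_lit 3) (nat_lit 2),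
    .r (nat_lit 0x19ed) (nat_lit 6) [nat_lit 0x146329061,nat_lit 0x104421481,nat_lit 0xc67290a1],
    .r (nat_lit 0x19ed) (nat_lit 6) [nat_lit 0x146029062,nat_lit 65,nat_lit 0x80300061],
    .c (nat_lit 0) (nat_lit 0x6029485),.r (nat_lit 4) (nat_lit 2) [nat_lit 0x318861,nat_lit 0x210001],
    .c (nat_lit 1) (nat_lit 0x4011062),.r (nat_lit 0x1ade) (nat_lit 9) [nat_lit 65,nat_lit 0x410c41,nat_lit 0x300861],
    .r (nat_lit 0x174d) (nat_lit 4) [nat_lit 0x318861,nat_lit 0x210001],.c (nat_lit 4) (nat_lit 0x4210862),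
    .c (nat_lit 0) (nat_lit 0x82218a2),.r (nat_lit 10) (nat_lit 6) [nat_lit 0x210001,nat_lit 0xc6529061],
    .r (nat_lit 32) (nat_lit 9) [nat_lit 0x300861,nat_lit 0x84621481],
    .r (nat_lit 0x174d) (nat_lit 4) [nat_lit 0x84210c41,nat_lit 0x210001],
    .r (nat_lit 32) (nat_lit 9) [nat_lit 0x84220c41,nat_lit 0xc63290a1],.r (nat_lit 0x174f) (nat_lit 1) [nat_lit 65,
    nat_lit 0x210001],.r (nat_lit 2) (nat_lit 1) [nat_lit 66,nat_lit 0x210001],
    .r (nat_lit 0x1ac0) (nat_lit 1) [nat_lit 0x210c41,nat_lit 0x220c41,nat_lit 0x18861],.c (nat_lit 4) (nat_lit 2),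
    .c (nat_lit 0) (nat_lit 0x4400003),.r (nat_lit 0x1236) (nat_lit 4) [nat_lit 0x100000061,nat_lit 129,
    nat_lit 0x14094a061,nat_lit 0x140800041],.c (nat_lit 0) (nat_lit 0x6029485),.c (nat_lit 0) (nat_lit 0xc400009),
    .c (nat_lit 5) (nat_lit 2),.r (nat_lit 32) (nat_lit 9) [nat_lit 0x104020062,nat_lit 0xc0200041],
    .r (nat_lit 10) (nat_lit 6) [nat_lit 0x210001,nat_lit 65],.c (nat_lit 0) (nat_lit 0x4000005),
    .c (nat_lit 6) (nat_lit 2),.r (nat_lit 0x1a91) (nat_lit 1) [nat_lit 65,nat_lit 0x210001],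
    .r (nat_lit 0x174d) (nat_lit 4) [nat_lit 0x4000042,nat_lit 0x210001],.c (nat_lit 7) (nat_lit 2)],
    .l (nat_lit 12) (nat_lit 960) (nat_lit 3) (nat_lit 0x1bc0000016c0000018c000001b8000001b000000188000001ae0000019600000162000001f8000001b7000001b7000001bb000001bb) (nat_lit 0x8c0000003c000000400000006c0000007000000048000000620000004a000000000000009600000041000000410000003d0000003d)
    (nat_lit 0x1441be1821501121441521820f011017b17b17f1510f014412e1000fc0fa10a12e16c0f010110112f12f1001501761101101421101421b60f614b14b13b17912e18217817614817018016e11a0f017716f1ab10f0fa1441701421401681801661b80f01db20d16d1730fc11214811011814014e13e1900f21b31e513b14b12e18216e14213e16614c1641100f016d1651ab10510a15218011014e18011014c1c010010f10716f1830f01100f00f60f20f01000f01b00f00f70f712d16b16c0f011a1b61901b81c01101f81b01191b71bb1bb10117b16f14b1e520d1071651b70f717617624621810117b17714b1b31db10f16d1190f71761761a817a12f15110f17914b1731831051bb16b17a21817e17e12f17f1ab13b13b16d16f1ab1bb12d1a824614017e)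
    (nat_lit 0x1443c03c03c03c03c03c03c03c03c03c03c03c03c01be1443c03c03c03c03c03c03c03c03c03c03c03c018212e1763c03c03c03c03c03c03c03c03c03c03c01501001101763c03c03c03c03c03c03c03c03c03c01120fc1101481403c03c03c03c03c03c03c03c03c01440fa1421701681403c03c03c03c03c03c03c03c015210a11018018014e14c3c03c03c03c03c03c03c018212e14216e16613e16414c3c03c03c03c03c03c00f016c1b611a1b81901101c01b03c03c03c03c03c01100f00f60f00f00f20f01000f01b03c03c03c03c017b10114b1771db1b316d10f0f71191763c03c03c017b10114b16f20d1e51651070f71b71761763c03c017f12f13b1ab16d13b1ab16f12d1bb2461a817e3c015112f17910f17314b10518316b1bb20c17a17e17e)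
    (nat_lit 4) (nat_lit 43)
    [[nat_lit 2,nat_lit 0x1011,nat_lit 257,nat_lit 0x1000101,nat_lit 0x1001,nat_lit 0x10001,nat_lit 0x110001,
    nat_lit 0x1010001,nat_lit 0x100001,nat_lit 0x1100001,nat_lit 0x1000001,nat_lit 0x1001001],[nat_lit 32,nat_lit 288,
    nat_lit 272,nat_lit 0x1110,nat_lit 0x100110,nat_lit 0x1000110,nat_lit 0x1010,nat_lit 0x2010,nat_lit 0x1001010,
    nat_lit 0x100010,nat_lit 0x1000010],[nat_lit 512,nat_lit 0x1000200,nat_lit 0x1100,nat_lit 0x2100,nat_lit 0x11100,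
    nat_lit 0x101100,nat_lit 0x1001100,nat_lit 0x10100,nat_lit 0x110100,nat_lit 0x1010100,nat_lit 0x100100,
    nat_lit 0x200100,nat_lit 0x1100100,nat_lit 0x1000100,nat_lit 0x2000100],[nat_lit 0x2000,nat_lit 0x12000,
    nat_lit 0x11000,nat_lit 0x101000,nat_lit 0x111000,nat_lit 0x1001000,nat_lit 0x1011000],[nat_lit 0x20000,
    nat_lit 0x1020000,nat_lit 0x110000,nat_lit 0x1110000,nat_lit 0x1010000,nat_lit 0x2010000],[nat_lit 0x200000,
    nat_lit 0x1100000],[nat_lit 0x2000000]]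
    [.c (nat_lit 1) (nat_lit 2),.c (nat_lit 1) (nat_lit 0x22603),.r (nat_lit 0x1add) (nat_lit 0) [nat_lit 0x3001,
    nat_lit 33,nat_lit 0x22001],.r (nat_lit 0x174d) (nat_lit 4) [nat_lit 0x30231,nat_lit 0x22001],
    .c (nat_lit 0) (nat_lit 0x20403),.c (nat_lit 1) (nat_lit 514),.r (nat_lit 0x1a62) (nat_lit 12) [nat_lit 0x22001,
    nat_lit 0x53021,nat_lit 0x20001],.r (nat_lit 0x1a6d) (nat_lit 12) [nat_lit 0x22001,nat_lit 0x53021,
    nat_lit 0x20001],.r (nat_lit 10) (nat_lit 6) [nat_lit 0x22001,nat_lit 0x3021],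
    .r (nat_lit 0x174e) (nat_lit 13) [nat_lit 0x30231,nat_lit 0x20001],
    .r (nat_lit 0x1a7c) (nat_lit 1) [nat_lit 0x20001,nat_lit 0x303021,nat_lit 0x30231],
    .r (nat_lit 32) (nat_lit 6) [nat_lit 0x30231,nat_lit 0x20001],.c (nat_lit 2) (nat_lit 2),
    .c (nat_lit 0) (nat_lit 0x25002),.r (nat_lit 4) (nat_lit 12) [nat_lit 0x303231,nat_lit 33],
    .r (nat_lit 0x1386) (nat_lit 13) [nat_lit 0x226031,nat_lit 0x557631,nat_lit 0x220031,nat_lit 0x250041],
    .c (nat_lit 7) (nat_lit 0x30323),.c (nat_lit 6) (nat_lit 0x30323),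
    .r (nat_lit 0x1b5d) (nat_lit 13) [nat_lit 0x33021,nat_lit 0x22001,nat_lit 0x224031],
    .r (nat_lit 0x1387) (nat_lit 3) [nat_lit 0x580021,nat_lit 0x42a031,nat_lit 0x79ba31,nat_lit 0x420031],
    .r (nat_lit 0x1a1b) (nat_lit 9) [nat_lit 0x340001,nat_lit 0x204001,nat_lit 0x200001,nat_lit 0x250041],
    .r (nat_lit 32) (nat_lit 13) [nat_lit 0x303231,nat_lit 33],.r (nat_lit 32) (nat_lit 6) [nat_lit 0x303231,
    nat_lit 0x20001],.c (nat_lit 3) (nat_lit 2),.r (nat_lit 0x1ad0) (nat_lit 10) [nat_lit 0x2001,nat_lit 0x20001,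
    nat_lit 0x22321],.r (nat_lit 0x174f) (nat_lit 13) [nat_lit 0x20001,nat_lit 33],
    .r (nat_lit 0x17ab) (nat_lit 13) [nat_lit 0x3001,nat_lit 0x22001,nat_lit 0x204001,nat_lit 0x509021],
    .r (nat_lit 4) (nat_lit 12) [nat_lit 0x33231,nat_lit 0x320021],.r (nat_lit 0x1148) (nat_lit 5) [nat_lit 0x20001,
    nat_lit 0x22001,nat_lit 0x202001,nat_lit 33],.r (nat_lit 4) (nat_lit 2) [nat_lit 0x33231,nat_lit 0x22001],
    .r (nat_lit 0x1add) (nat_lit 0) [nat_lit 0x3001,nat_lit 0x2021,nat_lit 0x22001],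
    .r (nat_lit 0x1b50) (nat_lit 0) [nat_lit 0x3001,nat_lit 0x33231,nat_lit 0x22001],
    .r (nat_lit 0x174d) (nat_lit 4) [nat_lit 0x33231,nat_lit 0x22001],.c (nat_lit 0) (nat_lit 0x35545),
    .r (nat_lit 0x1384) (nat_lit 1) [nat_lit 33,nat_lit 0x20001,nat_lit 0x22001,nat_lit 0x202001],
    .c (nat_lit 1) (nat_lit 0x22432),.c (nat_lit 0) (nat_lit 0x35545),.r (nat_lit 0x1a1a) (nat_lit 1) [nat_lit 0x2001,
    nat_lit 0x20001,nat_lit 0x22321],.c (nat_lit 4) (nat_lit 2),.r (nat_lit 0x1b5d) (nat_lit 13) [nat_lit 0x303021,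
    nat_lit 0x22001,nat_lit 0x404031],.c (nat_lit 0) (nat_lit 0x20005),
    .r (nat_lit 0x1750) (nat_lit 4) [nat_lit 0x22001,nat_lit 33],.r (nat_lit 32) (nat_lit 13) [nat_lit 0x33231,
    nat_lit 0x320021],.r (nat_lit 0x1a7c) (nat_lit 9) [nat_lit 33,nat_lit 0x320001,nat_lit 0x33231],
    .r (nat_lit 32) (nat_lit 6) [nat_lit 0x33231,nat_lit 0x20001],.c (nat_lit 5) (nat_lit 2),
    .r (nat_lit 0x1a6d) (nat_lit 12) [nat_lit 0x22001,nat_lit 0x50021,nat_lit 0x20001],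
    .r (nat_lit 10) (nat_lit 6) [nat_lit 0x22001,nat_lit 33],.r (nat_lit 0x174e) (nat_lit 13) [nat_lit 0x33231,
    nat_lit 0x20001],.r (nat_lit 0x1a7c) (nat_lit 1) [nat_lit 0x20001,nat_lit 0x300021,nat_lit 0x33231],
    .r (nat_lit 0x1389) (nat_lit 9) [nat_lit 0x400001,nat_lit 0x399851,nat_lit 0x300041,nat_lit 0x408001],
    .c (nat_lit 6) (nat_lit 2),.c (nat_lit 0) (nat_lit 0x35545),.c (nat_lit 7) (nat_lit 2)]]

/-- nodes -/
noncomputable def rD7k_20_20 : List RJ :=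
  [.l (nat_lit 9) (nat_lit 120) (nat_lit 4) (nat_lit 0x36000000360000002f0000002f0000002f0000002f0000002f0000002f00000030000000300000002e0000002e0000003100000031) (nat_lit 0x70000000700000007000000070000000700000007000000060000000600000008000000080000000500000005)
    (nat_lit 0x1b0d87223178bc9247160c05038188ec6c36178bc5e2d188bc6030170b87a471788c5428140a050281489c2227150a85e39140a85028140a04e291389c5426168bc5028140a05028148a45629100a85e2f140a05028140a05229158a4242a1791c5028140a05028138a44e27150986249140a05028140a04e290c85c5426180c05227148a452291d0a8582a088e4602c138a452291389c5c3a150a0422d170e04e27148a42e27140a848221689c5c2813844562b0c89c542c130903e29238ec4c2a150a84c26168e45227190b07a31150a82420150a842110f8b45832)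
    (nat_lit 0x1b1e0f0783c1e0f0783c1e0f0783c1e06c363c1e0f0783c1e0f0783c1e0f0781c8bc54783c1e0f0783c1e0f0783c1e0462f140a8f0783c1e0f0783c1e0f078178bc5028141e0f0783c1e0f0783c1e05e2d140a050283c1e0f0783c1e0f078248c45028140a050783c1e0f0783c1e08e2f140a05028140a0f0783c1e0f078160c05227148a44e271d1e0f0783c1e06030138a45229148a4543a3c1e0f078140b82227158ac4e19160a848783c1e0702e1389c52291385c542811090f078188f4542a10048542a088845a1f191e0764715098542a13098722d138a45832)
    (nat_lit 4) (nat_lit 59)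
    [[nat_lit 2,nat_lit 258,nat_lit 0x10002,nat_lit 17,nat_lit 0x1011,nat_lit 0x100011,nat_lit 33,nat_lit 273,
    nat_lit 0x10011,nat_lit 257,nat_lit 0x100111,nat_lit 0x1101,nat_lit 0x10101,nat_lit 0x100101,nat_lit 0x1001,
    nat_lit 0x10001,nat_lit 0x11001,nat_lit 0x20001,nat_lit 0x110001,nat_lit 0x110011,nat_lit 0x100001],[nat_lit 32,
    nat_lit 48,nat_lit 0x1020,nat_lit 0x100020,nat_lit 0x101020,nat_lit 272,nat_lit 0x1110,nat_lit 0x1010,
    nat_lit 0x2010,nat_lit 0x101010,nat_lit 0x11010,nat_lit 0x10010,nat_lit 0x100010,nat_lit 0x200020,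
    nat_lit 0x100110,nat_lit 0x110010,nat_lit 0x200010,nat_lit 0x1000010,nat_lit 0x1001010],[nat_lit 512,
    nat_lit 0x1100,nat_lit 0x101100,nat_lit 0x10100,nat_lit 0x100100,nat_lit 0x1000100],[nat_lit 0x2000,
    nat_lit 0x11000,nat_lit 0x101000],[nat_lit 0x20000,nat_lit 0x110000,nat_lit 0x1010000],[nat_lit 0x200000,
    nat_lit 0x1100000],[nat_lit 0x2000000]]
    [.c (nat_lit 1) (nat_lit 2),.r (nat_lit 0x1a62) (nat_lit 4) [nat_lit 0x2001,nat_lit 0x5021,nat_lit 0x200001],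
    .r (nat_lit 0x1b83) (nat_lit 12) [nat_lit 0x302001,nat_lit 0x200001,nat_lit 0x405021],
    .r (nat_lit 0x1b04) (nat_lit 12) [nat_lit 33,nat_lit 0x200001],.r (nat_lit 0x1a6d) (nat_lit 4) [nat_lit 0x2001,
    nat_lit 0x303021,nat_lit 0x200001],.r (nat_lit 0x174d) (nat_lit 1) [nat_lit 0x300231,nat_lit 0x2001],
    .r (nat_lit 0x174e) (nat_lit 3) [nat_lit 0x533432,nat_lit 0x200001],
    .r (nat_lit 0x174e) (nat_lit 3) [nat_lit 0x300231,nat_lit 0x200001],.r (nat_lit 32) (nat_lit 7) [nat_lit 0x300231,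
    nat_lit 0x200001],.c (nat_lit 0) (nat_lit 0x2205),.c (nat_lit 5) (nat_lit 0x30023),
    .r (nat_lit 0x1a62) (nat_lit 4) [nat_lit 0x2001,nat_lit 0x303021,nat_lit 0x200001],
    .r (nat_lit 2) (nat_lit 5) [nat_lit 0x300231,nat_lit 0x2001],.r (nat_lit 0x1b50) (nat_lit 3) [nat_lit 0x203001,
    nat_lit 0x300231,nat_lit 0x2001],.c (nat_lit 1) (nat_lit 0x30202),.r (nat_lit 0) (nat_lit 13) [nat_lit 0x200001,
    nat_lit 33],.r (nat_lit 0x1b83) (nat_lit 12) [nat_lit 0x302001,nat_lit 0x200001,nat_lit 0x203021],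
    .r (nat_lit 2) (nat_lit 5) [nat_lit 0x533432,nat_lit 0x2001],.r (nat_lit 0x1adc) (nat_lit 12) [nat_lit 0x302001,
    nat_lit 0x300231,nat_lit 0x200001],.c (nat_lit 3) (nat_lit 0x30023),
    .r (nat_lit 0x1add) (nat_lit 3) [nat_lit 0x203001,nat_lit 33,nat_lit 0x2001],.c (nat_lit 2) (nat_lit 2),
    .r (nat_lit 0x166a) (nat_lit 0) [nat_lit 0xc00001,nat_lit 0xd0c001,nat_lit 65,nat_lit 0x660001],
    .r (nat_lit 0x174e) (nat_lit 3) [nat_lit 0x335432,nat_lit 0x200001],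
    .r (nat_lit 0x1a1a) (nat_lit 9) [nat_lit 0x302001,nat_lit 0x200001,nat_lit 0x2321],
    .r (nat_lit 0x164d) (nat_lit 9) [nat_lit 0x335431,nat_lit 0x200001,nat_lit 0x22001,nat_lit 0x2001],
    .r (nat_lit 0x1b04) (nat_lit 8) [nat_lit 33,nat_lit 0x200001],.r (nat_lit 0x174e) (nat_lit 3) [nat_lit 0x3231,
    nat_lit 0x200001],.r (nat_lit 0x1b04) (nat_lit 12) [nat_lit 0x302021,nat_lit 0x200001],
    .r (nat_lit 0x1a6d) (nat_lit 4) [nat_lit 0x2001,nat_lit 0x500021,nat_lit 0x200001],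
    .r (nat_lit 0x174d) (nat_lit 1) [nat_lit 0x3231,nat_lit 0x2001],.r (nat_lit 32) (nat_lit 7) [nat_lit 0x3231,
    nat_lit 0x200001],.c (nat_lit 0) (nat_lit 0x53545),.c (nat_lit 0) (nat_lit 0x53545),
    .r (nat_lit 2) (nat_lit 5) [nat_lit 34,nat_lit 0x2001],.r (nat_lit 32) (nat_lit 1) [nat_lit 0x300231,
    nat_lit 0x200001],.c (nat_lit 3) (nat_lit 0x22232),.r (nat_lit 0x1ad0) (nat_lit 5) [nat_lit 0x302001,
    nat_lit 0x200001,nat_lit 0x2321],.r (nat_lit 0x1b23) (nat_lit 10) [nat_lit 0x300021,nat_lit 0x220001,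
    nat_lit 0x200001],.c (nat_lit 0) (nat_lit 0x30002),.c (nat_lit 3) (nat_lit 2),.c (nat_lit 0) (nat_lit 0x22003),
    .r (nat_lit 0x1b50) (nat_lit 3) [nat_lit 0x203001,nat_lit 0x3231,nat_lit 0x2001],
    .r (nat_lit 0x1750) (nat_lit 1) [nat_lit 0x2001,nat_lit 33],.r (nat_lit 0) (nat_lit 4) [nat_lit 33,
    nat_lit 0x200001],.r (nat_lit 0x1a62) (nat_lit 4) [nat_lit 0x2001,nat_lit 0x20031,nat_lit 0x200001],
    .c (nat_lit 4) (nat_lit 2),.r (nat_lit 0) (nat_lit 13) [nat_lit 0x200001,nat_lit 0x302021],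
    .r (nat_lit 0x1add) (nat_lit 3) [nat_lit 0x203001,nat_lit 0x302021,nat_lit 0x2001],.c (nat_lit 5) (nat_lit 2),
    .c (nat_lit 0) (nat_lit 0x53545),.r (nat_lit 0x1b31) (nat_lit 3) [nat_lit 0x203001,nat_lit 0x3021,nat_lit 0x2001],
    .c (nat_lit 6) (nat_lit 2),.r (nat_lit 0x1b3b) (nat_lit 12) [nat_lit 0x302001,nat_lit 0x300021,nat_lit 0x200001],
    .c (nat_lit 7) (nat_lit 2)],
    .l (nat_lit 12) (nat_lit 960) (nat_lit 3) (nat_lit 0x1fc000001a6000001b800000208000001ba000001e0000001f5000001f50000026e000001c2000001a800000220000001c0000001c0) (nat_lit 0xc80000007200000066000000b60000008e000000b40000007900000079000000ac000000000000004e000000c6000000ae000000ae)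
    (nat_lit 0x1401901961460f00f018318315816c1ae15a14e14e0f01401400f00fe0f011d12d0fa17a1580fc0f80f00f01461540f012a10416b1590f01c81720f20fe10a1401961b81540fa15417317b15c0f01d60fa1b21b00f00f01541041400f02591c11561d61160f410c0f00fe0f00fa12a1901401ff1671641e00f00fe13213212d18317b1591671c117c13e16515d1a70ff1c51e911d18317316b1ff25913217c1771f51a71111d71fb17a16c0f01c81e01d61f515d1e02b816c17a1c01c00fa15815c0f01641561771651081e01740fc0f01120fc15a0fa0f20fe0f41110ff0fc17a15c0f00f20fa1581ae1d61720f01161a71a717416c1d415c1721720f014e1b010a1320f01fb1e91121c01720fa1121100f814e1b20fe13210c1d71c50f01c01720f210c112)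
    (nat_lit 0x1403c03c03c03c03c03c03c03c03c03c03c03c03c01901403c03c03c03c03c03c03c03c03c03c03c03c01961401543c03c03c03c03c03c03c03c03c03c03c01460f00f01543c03c03c03c03c03c03c03c03c03c00f00fe12a0fa1403c03c03c03c03c03c03c03c03c00f00f01041540f01403c03c03c03c03c03c03c03c018311d16b17320d1ff17c3c03c03c03c03c03c03c018312d15917b1c116713e17c3c03c03c03c03c03c01580fa0f015c1561641651771e03c03c03c03c03c016c17a1c80f01d61e015d1f52b81e03c03c03c03c01ae1581721d61160f01a71a716c17415c3c03c03c015a0fc0f20fa0f40fe0ff11117a0fc0f015c3c03c014e0f80fe1b210c1321c51d71c00f00f21721123c014e0f010a1b00f01321e91fb1c01120fa172110112)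
    (nat_lit 4) (nat_lit 74)
    [[nat_lit 2,nat_lit 3,nat_lit 18,nat_lit 0x10002,nat_lit 0x1000002,nat_lit 17,nat_lit 273,nat_lit 0x10011,
    nat_lit 0x1000011,nat_lit 0x100011,nat_lit 257,nat_lit 0x100101,nat_lit 0x1000101,nat_lit 0x10001,nat_lit 0x20001,
    nat_lit 0x110001,nat_lit 0x1010001,nat_lit 0x100001,nat_lit 0x1100001,nat_lit 0x1000001,nat_lit 0x2000001],
    [nat_lit 32,nat_lit 0x10020,nat_lit 272,nat_lit 0x100110,nat_lit 0x1010,nat_lit 0x10010,nat_lit 0x11010,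
    nat_lit 0x20010,nat_lit 0x110010,nat_lit 0x1010010,nat_lit 0x100010,nat_lit 0x1000010,nat_lit 0x1100010],
    [nat_lit 0x1100,nat_lit 0x10100,nat_lit 0x110100,nat_lit 0x100100,nat_lit 0x200100,nat_lit 0x1100100,
    nat_lit 0x1000100,nat_lit 0x2000100],[nat_lit 0x2000,nat_lit 0x101000,nat_lit 0x1001000,nat_lit 0x1011000],
    [nat_lit 0x20000,nat_lit 0x120000,nat_lit 0x1020000,nat_lit 0x110000,nat_lit 0x1110000,nat_lit 0x210000,
    nat_lit 0x1010000,nat_lit 0x2010000],[nat_lit 0x200000,nat_lit 0x1100000],[nat_lit 0x2000000]]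
    [.c (nat_lit 1) (nat_lit 2),.r (nat_lit 0x1b3b) (nat_lit 0) [nat_lit 0x3001,nat_lit 0x24031,nat_lit 0x202001],
    .r (nat_lit 0x1b83) (nat_lit 0) [nat_lit 0x3001,nat_lit 0x202001,nat_lit 33],
    .r (nat_lit 0x1b3b) (nat_lit 0) [nat_lit 0x3001,nat_lit 0x22031,nat_lit 0x202001],
    .r (nat_lit 0x1a62) (nat_lit 6) [nat_lit 0x200001,nat_lit 0x505021,nat_lit 0x202001],
    .r (nat_lit 0) (nat_lit 5) [nat_lit 0x202001,nat_lit 0x3021],.r (nat_lit 8) (nat_lit 3) [nat_lit 0x300231,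
    nat_lit 0x233021],.r (nat_lit 0x1b83) (nat_lit 0) [nat_lit 0x3001,nat_lit 0x202001,nat_lit 0x2021],
    .r (nat_lit 2) (nat_lit 8) [nat_lit 0x300231,nat_lit 0x200001],.r (nat_lit 32) (nat_lit 12) [nat_lit 0x300231,
    nat_lit 0x202001],.c (nat_lit 0) (nat_lit 0x2403),.r (nat_lit 0x174d) (nat_lit 3) [nat_lit 0x300231,
    nat_lit 0x200001],.r (nat_lit 0x1b53) (nat_lit 4) [nat_lit 0x24031,nat_lit 0x300231,nat_lit 0x233021],
    .c (nat_lit 1) (nat_lit 514),.r (nat_lit 0x1b3b) (nat_lit 0) [nat_lit 0x3001,nat_lit 0x20031,nat_lit 0x202001],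
    .r (nat_lit 0x1a6d) (nat_lit 6) [nat_lit 0x200001,nat_lit 0x503021,nat_lit 0x202001],
    .r (nat_lit 0x1a62) (nat_lit 6) [nat_lit 0x200001,nat_lit 0x503021,nat_lit 0x202001],
    .r (nat_lit 0x1b04) (nat_lit 0) [nat_lit 0x3021,nat_lit 0x202001],
    .r (nat_lit 0x174e) (nat_lit 4) [nat_lit 0x300231,nat_lit 0x202001],.r (nat_lit 10) (nat_lit 3) [nat_lit 33,
    nat_lit 0x200001],.r (nat_lit 0x1b84) (nat_lit 6) [nat_lit 0x200001,nat_lit 0x303021,nat_lit 0x202001],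
    .c (nat_lit 2) (nat_lit 2),.r (nat_lit 0x1853) (nat_lit 4) [nat_lit 0x333221,nat_lit 0x44a521,nat_lit 0x255431,
    nat_lit 0x444521],.r (nat_lit 0x174f) (nat_lit 4) [nat_lit 0x202001,nat_lit 33],
    .r (nat_lit 4) (nat_lit 5) [nat_lit 0x300231,nat_lit 0x200001],.r (nat_lit 8) (nat_lit 3) [nat_lit 0x33231,
    nat_lit 33],.r (nat_lit 0) (nat_lit 5) [nat_lit 0x202001,nat_lit 33],.c (nat_lit 0) (nat_lit 0x30002),
    .r (nat_lit 0x1b83) (nat_lit 0) [nat_lit 0x3001,nat_lit 0x202001,nat_lit 0x4021],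
    .r (nat_lit 32) (nat_lit 12) [nat_lit 0x303231,nat_lit 0x202001],.r (nat_lit 2) (nat_lit 8) [nat_lit 0x303231,
    nat_lit 0x200001],.c (nat_lit 0) (nat_lit 0x53545),.c (nat_lit 0) (nat_lit 0x53545),
    .c (nat_lit 1) (nat_lit 0x22432),.r (nat_lit 0x1b3b) (nat_lit 0) [nat_lit 0x3001,nat_lit 0x303021,
    nat_lit 0x202001],.c (nat_lit 0) (nat_lit 0x2005),.r (nat_lit 0x174d) (nat_lit 3) [nat_lit 0x303231,
    nat_lit 0x200001],.r (nat_lit 0x174f) (nat_lit 8) [nat_lit 33,nat_lit 0x200001],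
    .r (nat_lit 0x174d) (nat_lit 3) [nat_lit 0x535432,nat_lit 0x200001],.r (nat_lit 32) (nat_lit 3) [nat_lit 0x303231,
    nat_lit 0x202001],.r (nat_lit 0) (nat_lit 6) [nat_lit 33,nat_lit 0x202001],
    .r (nat_lit 0x1b53) (nat_lit 4) [nat_lit 0x24032,nat_lit 0x535432,nat_lit 0x430022],.c (nat_lit 4) (nat_lit 2),
    .r (nat_lit 0x174d) (nat_lit 3) [nat_lit 0x33231,nat_lit 0x200001],
    .r (nat_lit 0x1b53) (nat_lit 4) [nat_lit 0x202031,nat_lit 0x33231,nat_lit 33],.c (nat_lit 0) (nat_lit 0x30002),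
    .c (nat_lit 5) (nat_lit 2),.r (nat_lit 0x1a6d) (nat_lit 6) [nat_lit 0x200001,nat_lit 0x500021,nat_lit 0x202001],
    .r (nat_lit 0x1a62) (nat_lit 6) [nat_lit 0x200001,nat_lit 0x500021,nat_lit 0x202001],
    .r (nat_lit 0x1b04) (nat_lit 0) [nat_lit 33,nat_lit 0x202001],.r (nat_lit 0x174e) (nat_lit 4) [nat_lit 0x303231,
    nat_lit 0x202001],.r (nat_lit 0x1ad8) (nat_lit 6) [nat_lit 0x200001,nat_lit 0x300021,nat_lit 0x202001],
    .r (nat_lit 10) (nat_lit 3) [nat_lit 0x2021,nat_lit 0x200001],.r (nat_lit 0x1b84) (nat_lit 6) [nat_lit 0x200001,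
    nat_lit 0x300021,nat_lit 0x202001],.c (nat_lit 6) (nat_lit 2),.c (nat_lit 0) (nat_lit 0x53545),
    .c (nat_lit 7) (nat_lit 2)],
    .l (nat_lit 12) (nat_lit 960) (nat_lit 4) (nat_lit 0x183000001830000017c0000017c00000180000001800000017b0000018b0000018b0000018b000001be000001be0000017d0000017d) (nat_lit 0x3b0000003b00000042000000420000003e0000003e0000003300000043000000330000003300000000000000000000004100000041)
    (nat_lit 0x15614c14513314714b15014012815017518314212614815613714114113315814015015018318315016214113314c13a13e14814913d14914115c17c12d13b13714513a14c14813e15113514b14917217c13513513314b13e14814614214d13314d14518617e13b14914114714813e14214614d13d14114d18a18013f13f14014013513d13d13314813814814817b18713813015815015114914d14d15814813015818d18b14a0a015015014914114d1451581481581582351b314a14815012814b14914114d13014815815820d18b14a14a18318317c17c18017e18b18718b1b31be1be1a50fb18317517215c18a18618d17b20d2351b41be19917d16212613513b13f1490a013014a14817d0fb14a14615014213512d13f13b14a13814a14a1991a513814a)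
    (nat_lit 0x1563c03c03c03c03c03c03c03c03c03c03c03c03c014c1563c03c03c03c03c03c03c03c03c03c03c03c014513714c3c03c03c03c03c03c03c03c03c03c03c013314113a14c3c03c03c03c03c03c03c03c03c03c014714113e1481463c03c03c03c03c03c03c03c03c014b13314813e1421463c03c03c03c03c03c03c03c015015814915114d14d1483c03c03c03c03c03c03c014014013d13513313d1381483c03c03c03c03c03c012815014914b14d1411481301583c03c03c03c03c015015014114914514d1481581581583c03c03c03c017518315c17218618a17b18d23520d1be3c03c03c018318317c17c17e18018718b1b318b1be1be3c03c014215012d13513b13f13814a14a14a1a519914a3c012616213b13514913f1300a014814a0fb17d14614a)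
    (nat_lit 4) (nat_lit 61)
    [[nat_lit 2,nat_lit 0x1002,nat_lit 0x100002,nat_lit 18,nat_lit 0x2002,nat_lit 17,nat_lit 257,nat_lit 0x1101,
    nat_lit 0x1001,nat_lit 0x2001,nat_lit 0x101001,nat_lit 0x1001001,nat_lit 0x11001,nat_lit 0x10001,nat_lit 0x110001,
    nat_lit 0x1010001,nat_lit 0x100001,nat_lit 0x100011,nat_lit 0x200001,nat_lit 0x1100001,nat_lit 0x1000001,
    nat_lit 0x2000001],[nat_lit 32,nat_lit 0x1010,nat_lit 0x10010,nat_lit 0x100010,nat_lit 0x1000010],[nat_lit 512,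
    nat_lit 0x1100,nat_lit 0x11100,nat_lit 0x101100,nat_lit 0x10100,nat_lit 0x100100,nat_lit 0x1000100,
    nat_lit 0x1010100,nat_lit 0x1100100],[nat_lit 0x2000,nat_lit 0x11000,nat_lit 0x101000,nat_lit 0x1001000],
    [nat_lit 0x20000,nat_lit 0x110000,nat_lit 0x1110000,nat_lit 0x1010000],[nat_lit 0x200000,nat_lit 0x1200000,
    nat_lit 0x1100000],[nat_lit 0x2000000]]
    [.c (nat_lit 1) (nat_lit 2),.c (nat_lit 0) (nat_lit 0x33223),.c (nat_lit 0) (nat_lit 0x33223),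
    .r (nat_lit 0x1b7e) (nat_lit 7) [nat_lit 0x302231,nat_lit 0x20001,nat_lit 0x200001],
    .c (nat_lit 2) (nat_lit 0x50043),.c (nat_lit 0) (nat_lit 0x30023),.c (nat_lit 0) (nat_lit 0x20203),
    .c (nat_lit 2) (nat_lit 0x2023),.c (nat_lit 0) (nat_lit 0x33223),
    .r (nat_lit 0x1a3a) (nat_lit 7) [nat_lit 0x220321,nat_lit 0x20001,nat_lit 0x200001],
    .c (nat_lit 0) (nat_lit 0x33223),.r (nat_lit 4) (nat_lit 3) [nat_lit 0x330231,nat_lit 0x220001],
    .r (nat_lit 4) (nat_lit 12) [nat_lit 0x330231,nat_lit 0x220001],.r (nat_lit 0x1b04) (nat_lit 9) [nat_lit 0x220001,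
    nat_lit 33],.r (nat_lit 0x19a7) (nat_lit 2) [nat_lit 0x23021,nat_lit 0x220001,nat_lit 0x30031,nat_lit 0x32001],
    .r (nat_lit 0xf41) (nat_lit 11) [nat_lit 0x3021,nat_lit 0x2021,nat_lit 0x503431,nat_lit 0x842521],
    .c (nat_lit 0) (nat_lit 0x3203),.c (nat_lit 2) (nat_lit 0x2302),.r (nat_lit 0x1b85) (nat_lit 5) [nat_lit 0x303021,
    nat_lit 0x404031,nat_lit 0x220001],.r (nat_lit 8) (nat_lit 13) [nat_lit 0x330231,nat_lit 0x23021],
    .r (nat_lit 0x1a91) (nat_lit 4) [nat_lit 33,nat_lit 0x220001],.r (nat_lit 0xf42) (nat_lit 13) [nat_lit 0x4021,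
    nat_lit 0x3021,nat_lit 0x602031,nat_lit 0xd75631],.c (nat_lit 2) (nat_lit 2),.c (nat_lit 0) (nat_lit 0x30023),
    .r (nat_lit 0x19a7) (nat_lit 2) [nat_lit 33,nat_lit 0x220001,nat_lit 0x3031,nat_lit 0x32001],
    .r (nat_lit 0x1b85) (nat_lit 5) [nat_lit 0x330021,nat_lit 0x422031,nat_lit 0x220001],
    .r (nat_lit 8) (nat_lit 13) [nat_lit 0x303231,nat_lit 33],.c (nat_lit 3) (nat_lit 2),
    .r (nat_lit 0x1a3a) (nat_lit 7) [nat_lit 0x300021,nat_lit 0x20001,nat_lit 0x200001],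
    .r (nat_lit 0xf43) (nat_lit 7) [nat_lit 0x33231,nat_lit 0x34231,nat_lit 0x43231,nat_lit 0x622321],
    .r (nat_lit 0x1b7e) (nat_lit 7) [nat_lit 0x300021,nat_lit 0x20001,nat_lit 0x200001],
    .r (nat_lit 4) (nat_lit 12) [nat_lit 0x200031,nat_lit 0x220001],.c (nat_lit 0) (nat_lit 0x20203),
    .r (nat_lit 4) (nat_lit 3) [nat_lit 0x200031,nat_lit 0x220001],.c (nat_lit 6) (nat_lit 0x20003),
    .c (nat_lit 5) (nat_lit 0x20003),.c (nat_lit 4) (nat_lit 2),.r (nat_lit 0x174d) (nat_lit 3) [nat_lit 0x303231,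
    nat_lit 33],.c (nat_lit 0) (nat_lit 0x33223),.r (nat_lit 0x1b04) (nat_lit 8) [nat_lit 0x220001,nat_lit 33],
    .c (nat_lit 5) (nat_lit 2),.r (nat_lit 10) (nat_lit 13) [nat_lit 33,nat_lit 0x220001],
    .c (nat_lit 2) (nat_lit 0x2002),.c (nat_lit 1) (nat_lit 514),.c (nat_lit 6) (nat_lit 2),
    .r (nat_lit 0xf44) (nat_lit 4) [nat_lit 65,nat_lit 0x555431,nat_lit 0xc44531,nat_lit 0x545421],
    .r (nat_lit 10) (nat_lit 5) [nat_lit 0x220001,nat_lit 33],.c (nat_lit 7) (nat_lit 2)]]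

/-- nodes -/
noncomputable def rD7k_20_21 : List RJ :=
  [.l (nat_lit 10) (nat_lit 240) (nat_lit 4) (nat_lit 0x6000000060000000600000006000000060000000600000006100000061000000620000006200000070000000700000006000000060) (nat_lit 0x1000000010000000100000001000000010000000100000000f0000000f0000000e0000000e00000000000000000000001000000010)
    (nat_lit 0x14050140500b050144510883a180561402c14050140501405013c51148521b06014050140501405014050144511485418060140441405014050140501445113054180561402814050140501405013c511705222066140501402c1405014050144511704422868140501445114451144511805212c53184571d42713c51144511444f1506014c53184611a4451483a150541105214c53150521b8621485214822130521705c14c4b16854158621705c18056158601a06618457188621986a2406c1b0601806022888184611586e1c066210601402c0a0441405011427170521806c140501405014050140501a475170522109014050)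
    (nat_lit 0x140f03c0f03c0f03c0f03c0f03c0f03c0f0140503c0f03c0f03c0f03c0f03c0f03c0f014050140f03c0f03c0f03c0f03c0f03c0f014050140503c0f03c0f03c0f03c0f03c0f00b05014050140f03c0f03c0f03c0f03c0f01405014050140503c0f03c0f03c0f03c0f01444f1445113c51180f03c0f03c0f03c0f0144511445114451148603c0f03c0f03c0f0088521484c1705c12c53150f03c0f03c0f00e852150541484414c53148543c0f03c0f01806c180602208a184611b856198f03c0f015860180561986815c61188621a8663c0f01405014050140501d4691485c24084140f00b050110281405009c451485c1b06014050)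
    (nat_lit 3) (nat_lit 58)
    [[nat_lit 2,nat_lit 0x1002,nat_lit 0x100002,nat_lit 0x1000002,nat_lit 257,nat_lit 0x1101,nat_lit 0x100101,
    nat_lit 0x1000101,nat_lit 0x1001101,nat_lit 0x1100101,nat_lit 0x1001,nat_lit 0x101001,nat_lit 0x1001001,
    nat_lit 0x10001,nat_lit 0x11001,nat_lit 0x110001,nat_lit 0x1010001,nat_lit 0x100001,nat_lit 0x200001,
    nat_lit 0x1100001,nat_lit 0x1000001,nat_lit 0x2000001],[nat_lit 32,nat_lit 272,nat_lit 0x1010,nat_lit 0x100010,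
    nat_lit 0x1000010],[nat_lit 512,nat_lit 0x1000200,nat_lit 0x1100,nat_lit 0x11100,nat_lit 0x1001100,
    nat_lit 0x10100,nat_lit 0x1010100,nat_lit 0x100100,nat_lit 0x110100,nat_lit 0x1100100,nat_lit 0x1000100,
    nat_lit 0x2000200,nat_lit 0x2000100],[nat_lit 0x2000,nat_lit 0x11000,nat_lit 0x1011000,nat_lit 0x101000,
    nat_lit 0x1001000],[nat_lit 0x20000,nat_lit 0x1020000,nat_lit 0x110000,nat_lit 0x1010000,nat_lit 0x1110000,
    nat_lit 0x2010000],[nat_lit 0x200000,nat_lit 0x1100000],[nat_lit 0x2000000]]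
    [.c (nat_lit 1) (nat_lit 2),.r (nat_lit 0x1384) (nat_lit 1) [nat_lit 0x10001,nat_lit 0x2001,nat_lit 0x2401,
    nat_lit 0x611],.r (nat_lit 0x1a62) (nat_lit 12) [nat_lit 0x2401,nat_lit 0x5a11,nat_lit 0x2001],
    .r (nat_lit 0x1a6d) (nat_lit 12) [nat_lit 0x2401,nat_lit 0x5a11,nat_lit 0x2001],
    .r (nat_lit 0x1add) (nat_lit 0) [nat_lit 0x601,nat_lit 17,nat_lit 0x2401],
    .r (nat_lit 0x1adc) (nat_lit 4) [nat_lit 0x401,nat_lit 0x3099,nat_lit 0x2001],
    .r (nat_lit 0x1b85) (nat_lit 0) [nat_lit 0x601,nat_lit 0x18021,nat_lit 0x2401],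
    .r (nat_lit 0x174d) (nat_lit 4) [nat_lit 0x3099,nat_lit 0x2401],.c (nat_lit 6) (nat_lit 0x613),
    .c (nat_lit 4) (nat_lit 0x613),.c (nat_lit 0) (nat_lit 0x3a25),.r (nat_lit 2) (nat_lit 1) [nat_lit 0x3099,
    nat_lit 0x2401],.c (nat_lit 6) (nat_lit 0x241a),.c (nat_lit 1) (nat_lit 130),
    .r (nat_lit 0x1384) (nat_lit 1) [nat_lit 0x10001,nat_lit 0x2001,nat_lit 0x2401,nat_lit 17],
    .r (nat_lit 0x1a62) (nat_lit 12) [nat_lit 0x2401,nat_lit 0x5611,nat_lit 0x2001],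
    .r (nat_lit 0x1a6d) (nat_lit 12) [nat_lit 0x2401,nat_lit 0x5611,nat_lit 0x2001],
    .r (nat_lit 10) (nat_lit 6) [nat_lit 0x2401,nat_lit 0x611],.r (nat_lit 0x1b3b) (nat_lit 4) [nat_lit 0x401,
    nat_lit 0x10419,nat_lit 0x2001],.r (nat_lit 0x174e) (nat_lit 13) [nat_lit 0x3099,nat_lit 0x2001],
    .c (nat_lit 0) (nat_lit 0x3a25),.r (nat_lit 0x1ad8) (nat_lit 12) [nat_lit 0x2401,nat_lit 0x3611,nat_lit 0x2001],
    .c (nat_lit 2) (nat_lit 2),.r (nat_lit 0x1b3b) (nat_lit 4) [nat_lit 0x401,nat_lit 0x3011,nat_lit 0x2001],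
    .r (nat_lit 0x1a24) (nat_lit 4) [nat_lit 0x10001,nat_lit 0x18499,nat_lit 0x1d691,nat_lit 0x18699],
    .r (nat_lit 0x1b85) (nat_lit 0) [nat_lit 0x601,nat_lit 0x14829,nat_lit 0x2401],
    .r (nat_lit 0x1b1f) (nat_lit 5) [nat_lit 0x3011,nat_lit 0x401,nat_lit 0x2001,nat_lit 0x104d1],
    .c (nat_lit 3) (nat_lit 2),.r (nat_lit 0x1ad0) (nat_lit 10) [nat_lit 0x401,nat_lit 0x2001,nat_lit 0x24d1],
    .r (nat_lit 0x174f) (nat_lit 13) [nat_lit 0x2001,nat_lit 17],.r (nat_lit 0x1adc) (nat_lit 4) [nat_lit 0x401,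
    nat_lit 0x3699,nat_lit 0x2001],.r (nat_lit 4) (nat_lit 2) [nat_lit 0x3699,nat_lit 0x2401],
    .r (nat_lit 0x1add) (nat_lit 0) [nat_lit 0x601,nat_lit 0x411,nat_lit 0x2401],
    .r (nat_lit 0x174d) (nat_lit 4) [nat_lit 0x3699,nat_lit 0x2401],.c (nat_lit 0) (nat_lit 0x2005),
    .r (nat_lit 0x1b85) (nat_lit 0) [nat_lit 0x601,nat_lit 0x18821,nat_lit 0x2401],
    .r (nat_lit 32) (nat_lit 9) [nat_lit 0x3099,nat_lit 0x2001],.r (nat_lit 0x174f) (nat_lit 1) [nat_lit 17,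
    nat_lit 0x2401],.r (nat_lit 2) (nat_lit 1) [nat_lit 18,nat_lit 0x2401],
    .r (nat_lit 32) (nat_lit 9) [nat_lit 0x1d11a,nat_lit 0x2001],.c (nat_lit 4) (nat_lit 2),
    .c (nat_lit 0) (nat_lit 0x3b65),.c (nat_lit 6) (nat_lit 0x249a),.r (nat_lit 0x1750) (nat_lit 4) [nat_lit 0x2401,
    nat_lit 17],.c (nat_lit 0) (nat_lit 0x3a25),.c (nat_lit 5) (nat_lit 2),
    .r (nat_lit 0x1a6d) (nat_lit 12) [nat_lit 0x2401,nat_lit 0x5011,nat_lit 0x2001],
    .r (nat_lit 10) (nat_lit 6) [nat_lit 0x2401,nat_lit 17],.c (nat_lit 0) (nat_lit 0x3b65),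
    .r (nat_lit 0x174e) (nat_lit 13) [nat_lit 0x3699,nat_lit 0x2001],.r (nat_lit 0x1ad8) (nat_lit 12) [nat_lit 0x2401,
    nat_lit 0x3011,nat_lit 0x2001],.c (nat_lit 6) (nat_lit 2),.r (nat_lit 0x1b04) (nat_lit 11) [nat_lit 17,
    nat_lit 0x2001],.c (nat_lit 7) (nat_lit 2)],
    .l (nat_lit 16) (nat_lit 0x2760) (nat_lit 3) (nat_lit 0x11640000116400001110000011100000103e00000eee0000114f0000114f0000113a0000113a0000109300000f5700000f58000013b0) (nat_lit 0x24c0000024c000002a0000002a0000004c20000037200000261000002610000027600000276000004590000031d0000000000000458)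
    (nat_lit 0xf960f420e1c0ec40c4e0d9e0f030e5b15a8157e09d90e47116409da0f420f960e700ec40ca20df20f030eaf11e211b80a2b0df311640a2c0ec40ec40e700e460ca20df20be50eaf0eee0e9a0f970aff10920f980e700e1c0ccc0e700c4e0d9e0eaf0d0b11e20e9a0df10df311640df20df20d9e0d9e0df20d200e700ddd0ddd0dc80dc80aab09d910e60aac0ca20c4e0c4e0ca20bd00d200c8d0c8d0c780c7809d90bd10f9609d80eaf0e5b0d0b0eaf0c8d0ddd0eee0d4a0ed90ed90db40e3211a30db30f030f030eaf0be50c8d0ddd0eee0eee0eaf0ed90f580e320abf0f5911b8157e0e9a0e9a0c780dc80ed90ed90ec40ec40a7f0e47113a0a8011e215a811e20eee0c780dc80eaf0ed90e9a0ec40f410e1d113a0a560df30e470df30aff0bd109d90e320e320e1d0e470ec60da009d909db0a2b09d90df10f9709d90aab0f580db40f410a7f0afe0ec612890aff0a2c09da0df20f9809d80aac0f590db30a560a800aff09db128a0b0011641164116410920f9610e60abf11a3113a113a128909d91386128a)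
    (nat_lit 0xf9627602760276027602760276027602760276027602760276027600f420f962760276027602760276027602760276027602760276027600e1c0e700e70276027602760276027602760276027602760276027600ec40ec40e460e7027602760276027602760276027602760276027600c4e0ca20ca20c4e0d202760276027602760276027602760276027600d9e0df20df20d9e0e700d20276027602760276027602760276027600f030f030be50eaf0ddd0c8d0eee27602760276027602760276027600e5b0eaf0eaf0d0b0ddd0c8d0d4a0eee27602760276027602760276015a811e20eee11e20dc80c780ed90eaf0ec427602760276027602760157e11b80e9a0e9a0dc80c780ed90ed90ec40ec4276027602760276009d90a2b0f970df10aab09d90db40f580a7f0f410ec62760276027600e470df30aff0df309d90bd10e320e320e470e1d0da00ec627602760116411641092116410e60f9611a30abf113a113a09d91289128a276009da0a2c0f980df20aac09d80db30f590a800a5609db0aff0b00128a)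
    (nat_lit 4) (nat_lit 49)
    [[nat_lit 2,nat_lit 17,nat_lit 33,nat_lit 273,nat_lit 0x1011,nat_lit 0x10011,nat_lit 0x1000011,nat_lit 257,
    nat_lit 0x1001,nat_lit 0x1101,nat_lit 0x11001,nat_lit 0x1001001,nat_lit 0x10001,nat_lit 0x100001,
    nat_lit 0x1000001],[nat_lit 32,nat_lit 0x10020,nat_lit 0x1000020,nat_lit 0x100020,nat_lit 272,nat_lit 0x10110,
    nat_lit 0x1010,nat_lit 0x11010,nat_lit 0x10010,nat_lit 0x20010,nat_lit 0x110010,nat_lit 0x1010010,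
    nat_lit 0x100010,nat_lit 0x1000010,nat_lit 0x1001010,nat_lit 0x1100010],[nat_lit 512,nat_lit 0x1100,
    nat_lit 0x10100,nat_lit 0x100100],[nat_lit 0x2000,nat_lit 0x11000,nat_lit 0x101000,nat_lit 0x111000,
    nat_lit 0x1001000],[nat_lit 0x20000,nat_lit 0x110000,nat_lit 0x1010000],[nat_lit 0x200000,nat_lit 0x1100000],
    [nat_lit 0x2000000]]
    [.c (nat_lit 1) (nat_lit 2),.c (nat_lit 0) (nat_lit 0x20403),.r (nat_lit 0x15db) (nat_lit 9) [nat_lit 0x777601,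
    nat_lit 0x60001,nat_lit 0x402031,nat_lit 0x408031],.r (nat_lit 4) (nat_lit 11) [nat_lit 0x20001,nat_lit 0x32231],
    .r (nat_lit 0xf03) (nat_lit 11) [nat_lit 0x555401,nat_lit 0x204001,nat_lit 0x305041,nat_lit 0x244051],
    .r (nat_lit 32) (nat_lit 8) [nat_lit 0x224031,nat_lit 0x333201],.r (nat_lit 0x174e) (nat_lit 8) [nat_lit 0x20001,
    nat_lit 0x30231],.r (nat_lit 0x174e) (nat_lit 8) [nat_lit 0x20001,nat_lit 0x3021],
    .c (nat_lit 0) (nat_lit 0x24405),.r (nat_lit 0x1592) (nat_lit 11) [nat_lit 0x555401,nat_lit 0x204001,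
    nat_lit 0x305041,nat_lit 0x244051],.c (nat_lit 1) (nat_lit 0x3002),
    .r (nat_lit 0x1b72) (nat_lit 3) [nat_lit 0x333201,nat_lit 0x202001,nat_lit 0x23321],
    .c (nat_lit 0) (nat_lit 0x24405),.c (nat_lit 1) (nat_lit 514),.r (nat_lit 4) (nat_lit 11) [nat_lit 0x20001,
    nat_lit 33],.c (nat_lit 2) (nat_lit 2),.r (nat_lit 0x1ad4) (nat_lit 11) [nat_lit 0x3001,nat_lit 0x333201,
    nat_lit 0x204001,nat_lit 0x509021],.r (nat_lit 0x15dc) (nat_lit 9) [nat_lit 0x999801,nat_lit 0x80001,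
    nat_lit 0x400031,nat_lit 0x408031],.r (nat_lit 0x15db) (nat_lit 9) [nat_lit 0x777601,nat_lit 0x60001,
    nat_lit 0x400031,nat_lit 0x406031],.r (nat_lit 0x1aad) (nat_lit 13) [nat_lit 0x222321,nat_lit 0x20001,
    nat_lit 0x333201],.r (nat_lit 0x18bf) (nat_lit 5) [nat_lit 0x20001,nat_lit 0x333201,nat_lit 0x200031,
    nat_lit 0x204031],.r (nat_lit 0x19b4) (nat_lit 7) [nat_lit 0x20001,nat_lit 0x30021,nat_lit 0x333201],
    .c (nat_lit 2) (nat_lit 0x3002),.r (nat_lit 0x1abe) (nat_lit 0) [nat_lit 0x333201,nat_lit 0x303021,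
    nat_lit 0x222031],.r (nat_lit 32) (nat_lit 8) [nat_lit 0x244032,nat_lit 0x333201],
    .r (nat_lit 32) (nat_lit 8) [nat_lit 0x222031,nat_lit 0x333201],.r (nat_lit 0x1770) (nat_lit 9) [nat_lit 0x20001,
    nat_lit 0x333201,nat_lit 0x202321,nat_lit 0x2231],.c (nat_lit 0) (nat_lit 0x20005),
    .r (nat_lit 8) (nat_lit 13) [nat_lit 0x20001,nat_lit 33],.r (nat_lit 0xedc) (nat_lit 1) [nat_lit 0x33231,
    nat_lit 0x40001,nat_lit 0x444541,nat_lit 0x32231],.r (nat_lit 0x174e) (nat_lit 8) [nat_lit 0x20001,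
    nat_lit 0x33231],.c (nat_lit 3) (nat_lit 2),.r (nat_lit 0x1b87) (nat_lit 7) [nat_lit 0x222321,nat_lit 0x333201,
    nat_lit 0x200001],.r (nat_lit 0x19b9) (nat_lit 11) [nat_lit 0x3001,nat_lit 0x222321,nat_lit 0x303231,
    nat_lit 0x333201],.r (nat_lit 0x174e) (nat_lit 8) [nat_lit 0x20001,nat_lit 33],.c (nat_lit 4) (nat_lit 2),
    .c (nat_lit 0) (nat_lit 0x2003),.c (nat_lit 0) (nat_lit 0x24005),.c (nat_lit 1) (nat_lit 0x3202),
    .r (nat_lit 0x1979) (nat_lit 0) [nat_lit 0x20031,nat_lit 33,nat_lit 0x333201],.c (nat_lit 5) (nat_lit 2),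
    .c (nat_lit 0) (nat_lit 0x24005),.r (nat_lit 0x15dd) (nat_lit 11) [nat_lit 65,nat_lit 0x204001,nat_lit 0x555451,
    nat_lit 0x40001],.c (nat_lit 6) (nat_lit 2),.r (nat_lit 4) (nat_lit 11) [nat_lit 0x20001,nat_lit 0x2021],
    .c (nat_lit 7) (nat_lit 2)],
    .l (nat_lit 13) (nat_lit 0x438) (nat_lit 3) (nat_lit 0x1aa000001aa000001b6000001b6000001aa000001aa0000018200000182000001aa000001aa000001a0000001800000017400000174) (nat_lit 0xc0000000c00000000000000000000000c0000000c00000034000000340000000c0000000c00000036000000160000004200000042)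
    (nat_lit 0xd505a03541aa0db06a82ec1760cf067827c18a0b405a033c1aa0d506a83d819e08c06e033c19e0ba04382d01680d506a836c1b60b406a830413411808203001a00b405d03541aa0db06d833c1aa0ce05d84602080c006e02d01740cf06a83541aa0d506782301820c306102e810e0b405a03d81b60cf05a033c1aa0a805d83081840c005b82d01680dc05d82ec1340bb06082d014e0ce067029818609404d02301760ce06082a01180c705a02ec1760a6067828010e0cf06784102080c206102ec19c0b6057834c1940b405a033c19e11808c03081860bb06702dc16c0d306502e416808706283701a00b7043833c1860ca06502d41ba0af04b02e813e0c006003001740a6053034c1a608a05a827c13e0b405a02e81740b405a021c1340b405a027c12c0b405a02d01680b405a02d01680a004a02e416809f05782d0168)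
    (nat_lit 0xd510e087043821c10e087043821c10e087043821c10e02d01aa21c10e087043821c10e087043821c10e08704380d506a836c43821c10e087043821c10e087043821c10e03541aa0db06d887043821c10e087043821c10e08704380db07b02d019e0d510e087043821c10e087043821c10e035419e0d506a833c1aa21c10e087043821c10e08704380bb046030419c08c05402d043821c10e087043821c10e02ec1b809a05d83041760a705a087043821c10e08704380cf06784602300c306103381760b610e087043821c10e033c19e10408203081840ce05d82bc16c21c10e087043809f05d03001800ba060029814c0d306982d443821c10e031410e0d006e021c16e0c306783281940dd05a88704380b405a02d01680b405a02501400b405c82bc13e0b410e02d01680ba05d02d016809a04382d016809604f82d0168)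
    (nat_lit 4) (nat_lit 61)
    [[nat_lit 2,nat_lit 18,nat_lit 0x1002,nat_lit 17,nat_lit 33,nat_lit 0x1011,nat_lit 0x1000011,nat_lit 0x10011,
    nat_lit 257,nat_lit 0x1101,nat_lit 0x1001,nat_lit 0x2001,nat_lit 0x11001,nat_lit 0x101001,nat_lit 0x1001001,
    nat_lit 0x10001,nat_lit 0x100001,nat_lit 0x100011,nat_lit 0x1000001],[nat_lit 32,nat_lit 0x10020,
    nat_lit 0x1000020,nat_lit 272,nat_lit 0x1010,nat_lit 0x11010,nat_lit 0x1001010,nat_lit 0x10010,nat_lit 0x20010,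
    nat_lit 0x100010,nat_lit 0x110010,nat_lit 0x1000010,nat_lit 0x2000010],[nat_lit 512,nat_lit 0x1100,
    nat_lit 0x10100,nat_lit 0x1000100],[nat_lit 0x2000,nat_lit 0x12000,nat_lit 0x1002000,nat_lit 0x11000,
    nat_lit 0x111000,nat_lit 0x101000,nat_lit 0x1001000,nat_lit 0x1101000],[nat_lit 0x20000,nat_lit 0x110000,
    nat_lit 0x1010000],[nat_lit 0x200000,nat_lit 0x1100000],[nat_lit 0x2000000]]
    [.c (nat_lit 1) (nat_lit 2),.c (nat_lit 1) (nat_lit 0x33002),.c (nat_lit 1) (nat_lit 0x20232),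
    .c (nat_lit 0) (nat_lit 0x22003),.c (nat_lit 2) (nat_lit 0x33002),.c (nat_lit 2) (nat_lit 0x20232),
    .c (nat_lit 7) (nat_lit 0x33002),.c (nat_lit 5) (nat_lit 0x33002),
    .r (nat_lit 0x1a30) (nat_lit 9) [nat_lit 0x422301,nat_lit 0x300231,nat_lit 33],.c (nat_lit 3) (nat_lit 0x20232),
    .c (nat_lit 0) (nat_lit 0x30323),.c (nat_lit 2) (nat_lit 0x62452),.c (nat_lit 5) (nat_lit 0x20232),
    .c (nat_lit 3) (nat_lit 0x30023),.c (nat_lit 7) (nat_lit 0x20232),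
    .r (nat_lit 0x1ab9) (nat_lit 9) [nat_lit 0x220031,nat_lit 33,nat_lit 0x2001],
    .r (nat_lit 8) (nat_lit 4) [nat_lit 0x300231,nat_lit 33],.c (nat_lit 3) (nat_lit 0x22203),
    .r (nat_lit 0x1b04) (nat_lit 2) [nat_lit 33,nat_lit 0x2001],.c (nat_lit 2) (nat_lit 2),
    .r (nat_lit 0x198f) (nat_lit 4) [nat_lit 0x440031,nat_lit 0x2001,nat_lit 0x955421],
    .r (nat_lit 0x1b10) (nat_lit 6) [nat_lit 0x622331,nat_lit 0x303201,nat_lit 0x2001],
    .r (nat_lit 2) (nat_lit 4) [nat_lit 0x303201,nat_lit 33],.c (nat_lit 2) (nat_lit 0x42232),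
    .r (nat_lit 0x198f) (nat_lit 4) [nat_lit 0x23231,nat_lit 0x2001,nat_lit 0x533221],
    .r (nat_lit 0x1b10) (nat_lit 6) [nat_lit 0x200031,nat_lit 0x303201,nat_lit 0x2001],
    .c (nat_lit 0) (nat_lit 0x20003),.r (nat_lit 0x1b88) (nat_lit 0) [nat_lit 0x300021,nat_lit 0x220001,
    nat_lit 0x33231],.r (nat_lit 8) (nat_lit 5) [nat_lit 0x220001,nat_lit 0x533221],
    .r (nat_lit 32) (nat_lit 8) [nat_lit 0x303201,nat_lit 0x202031],.c (nat_lit 0) (nat_lit 0x20003),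
    .r (nat_lit 0x1b88) (nat_lit 0) [nat_lit 0x200031,nat_lit 0x220001,nat_lit 0x533221],.c (nat_lit 3) (nat_lit 2),
    .r (nat_lit 2) (nat_lit 4) [nat_lit 0x303201,nat_lit 0x422321],.r (nat_lit 0x1b6e) (nat_lit 8) [nat_lit 0x303201,
    nat_lit 0x300021,nat_lit 0x200001],.r (nat_lit 32) (nat_lit 8) [nat_lit 0x303201,nat_lit 33],
    .c (nat_lit 4) (nat_lit 2),.r (nat_lit 0x198f) (nat_lit 4) [nat_lit 0x505431,nat_lit 0x2001,nat_lit 33],
    .r (nat_lit 0x1b10) (nat_lit 6) [nat_lit 0x333231,nat_lit 0x303201,nat_lit 0x2001],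
    .c (nat_lit 0) (nat_lit 0x33323),.r (nat_lit 32) (nat_lit 8) [nat_lit 0x303201,nat_lit 0x330231],
    .r (nat_lit 8) (nat_lit 5) [nat_lit 0x220001,nat_lit 33],.c (nat_lit 0) (nat_lit 0x33323),
    .r (nat_lit 0x1b6e) (nat_lit 8) [nat_lit 0x303201,nat_lit 0x530231,nat_lit 0x200001],.c (nat_lit 5) (nat_lit 2),
    .r (nat_lit 4) (nat_lit 1) [nat_lit 0x220001,nat_lit 33],.c (nat_lit 1) (nat_lit 0x2002),
    .c (nat_lit 6) (nat_lit 2),.r (nat_lit 0x1b50) (nat_lit 8) [nat_lit 0x2031,nat_lit 0x303201,nat_lit 33],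
    .c (nat_lit 7) (nat_lit 2)]]

/-- nodes -/
noncomputable def rD7k_20_22 : List RJ :=
  [.l (nat_lit 13) (nat_lit 0x5a0) (nat_lit 3) (nat_lit 0x22900000229000002540000026c0000022c0000022c0000024000000240000002260000022600000226000002260000024000000240) (nat_lit 0x4300000043000000000000001800000040000000400000002c0000002c000000460000004600000046000000460000002c0000002c)
    (nat_lit 0xf307981e21130f4878c3fa14f0f1878c3d21e30fe87f43b41e611488443ae1e313b8a0c3ba1dd12b888c5f6289108844c4b42480c7085045c23a0e7065030421411406d04520f1136096845822c120090045822c09a089848c2400f1878c4582140f607b03f42000f307983cc1e019c0bc83ae1e911606383d81ec11708003cc1e60f3085055c268141853c48023a10008004282140e607303241fa10a08504ee1fd12008b845c1fa10a08503f41fa11707e84282140ee878c4581940f307983f41cc0f007803c01e00fd07183ba1e311607383cc1e60fd07303c01e00f007803f41c6111878c44c21410a07803f41fa0f007804281e00fd07e84ae1e909a06083cc1e611706483c01e00f008503f41fa14487f44801b41340bc84282140e307183f41fa10708505f61fd12308a055c33810a08503f41fa0fd07e842820e)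
    (nat_lit 0xf31680b405a02d01680b405a02d01680b405a02d016803cc1e62d01680b405a02d01680b405a02d01680b405a007888a44b45a02d01680b405a02d01680b405a02d016802262111240968b405a02d01680b405a02d01680b405a00f4875c31c22c0f61680b405a02d01680b405a02d016803c61e310a08b03d81ec2d01680b405a02d01680b405a00fe89dc45c2400fd08b84285a02d01680b405a02d0168029e28311d090040020010a0850b405a02d01680b405a00f1877439c22c0f307983981fa0f01680b405a02d016803c61dd0ca08b03cc1e60e607e83c01e02d01680b405a00f4895c3041340f3079832422e0f007804285a02d016803c622310a08983c02140fd07e83c01e00f00850b405a00fe8bec45024619c0ab84282140fd07e83f41fa10716803fa2890da09005e426810a085038c1c60fd07e842820e)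
    (nat_lit 4) (nat_lit 27)
    [[nat_lit 2,nat_lit 17,nat_lit 0x100011,nat_lit 257,nat_lit 0x1001,nat_lit 0x100001,nat_lit 0x1000001],
    [nat_lit 32,nat_lit 0x100020,nat_lit 272,nat_lit 0x100110,nat_lit 0x1010,nat_lit 0x1110,nat_lit 0x10010,
    nat_lit 0x110010,nat_lit 0x100010,nat_lit 0x1100010,nat_lit 0x101010,nat_lit 0x1000010],[nat_lit 512,
    nat_lit 0x1100,nat_lit 0x1001100,nat_lit 0x10100,nat_lit 0x100100,nat_lit 0x1100100,nat_lit 0x1000100],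
    [nat_lit 0x2000,nat_lit 0x11000,nat_lit 0x1011000,nat_lit 0x101000,nat_lit 0x1001000,nat_lit 0x2001000],
    [nat_lit 0x20000,nat_lit 0x110000,nat_lit 0x1110000,nat_lit 0x1010000],[nat_lit 0x200000,nat_lit 0x1200000,
    nat_lit 0x1100000,nat_lit 0x2100000],[nat_lit 0x2000000]]
    [.c (nat_lit 1) (nat_lit 2),.r (nat_lit 0x1b50) (nat_lit 6) [nat_lit 0x220052,nat_lit 0x2001,nat_lit 33],
    .r (nat_lit 0x17ba) (nat_lit 4) [nat_lit 0x2001,nat_lit 0x20001,nat_lit 0x200001,nat_lit 0x30041],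
    .c (nat_lit 1) (nat_lit 0x2203),.r (nat_lit 0x1b53) (nat_lit 6) [nat_lit 0x220052,nat_lit 0x2001,nat_lit 33],
    .r (nat_lit 0x1a7f) (nat_lit 8) [nat_lit 0x2031,nat_lit 0x220002,nat_lit 33],
    .r (nat_lit 0x1af3) (nat_lit 6) [nat_lit 0x200321,nat_lit 0x230582,nat_lit 0x320452],.c (nat_lit 2) (nat_lit 2),
    .r (nat_lit 0x1b50) (nat_lit 6) [nat_lit 0x200032,nat_lit 0x2001,nat_lit 0x20022],
    .r (nat_lit 0x1b04) (nat_lit 9) [nat_lit 33,nat_lit 0x220002],.c (nat_lit 2) (nat_lit 770),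
    .c (nat_lit 0) (nat_lit 0x33545),.r (nat_lit 0x174e) (nat_lit 6) [nat_lit 0x330452,nat_lit 0x220002],
    .r (nat_lit 32) (nat_lit 6) [nat_lit 0x2001,nat_lit 33],.r (nat_lit 0x1b50) (nat_lit 6) [nat_lit 0x200031,
    nat_lit 0x2001,nat_lit 0x320042],.r (nat_lit 0) (nat_lit 8) [nat_lit 0x220002,nat_lit 33],
    .r (nat_lit 0x1b89) (nat_lit 8) [nat_lit 0x220002,nat_lit 0x2031,nat_lit 0x335402],
    .r (nat_lit 0x1b10) (nat_lit 1) [nat_lit 0x335452,nat_lit 0x2001,nat_lit 0x220002],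
    .c (nat_lit 0) (nat_lit 0x33545),.c (nat_lit 3) (nat_lit 2),.r (nat_lit 0x1b04) (nat_lit 3) [nat_lit 33,
    nat_lit 0x220002],.r (nat_lit 32) (nat_lit 4) [nat_lit 0x330452,nat_lit 0x220002],
    .c (nat_lit 1) (nat_lit 0x26405),.c (nat_lit 0) (nat_lit 515),.c (nat_lit 7) (nat_lit 770),
    .r (nat_lit 0x1abf) (nat_lit 6) [nat_lit 0x2001,nat_lit 0x203001,nat_lit 33,nat_lit 0x22001],
    .c (nat_lit 4) (nat_lit 2),.r (nat_lit 2) (nat_lit 8) [nat_lit 0x2001,nat_lit 33],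
    .r (nat_lit 0x1b50) (nat_lit 6) [nat_lit 0x224542,nat_lit 0x2001,nat_lit 0x3231],
    .r (nat_lit 0xf02) (nat_lit 4) [nat_lit 0x4001,nat_lit 0x203001,nat_lit 0x5041,nat_lit 0x330451],
    .c (nat_lit 0) (nat_lit 0x33545),.r (nat_lit 0x1915) (nat_lit 2) [nat_lit 0x224542,nat_lit 0x30001,
    nat_lit 0x220002,nat_lit 0x335431],.c (nat_lit 5) (nat_lit 2),.c (nat_lit 0) (nat_lit 0x20003),
    .r (nat_lit 0x1af3) (nat_lit 6) [nat_lit 0x220542,nat_lit 0x320582,nat_lit 561],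
    .r (nat_lit 0x1b6e) (nat_lit 6) [nat_lit 0x2001,nat_lit 0x224542,nat_lit 0x335402],.c (nat_lit 6) (nat_lit 2),
    .r (nat_lit 0x198f) (nat_lit 8) [nat_lit 0x4031,nat_lit 0x220002,nat_lit 33],
    .r (nat_lit 0x174f) (nat_lit 6) [nat_lit 0x220002,nat_lit 33],.r (nat_lit 0x1af3) (nat_lit 6) [nat_lit 0x420522,
    nat_lit 0x220542,nat_lit 0x300432],.c (nat_lit 7) (nat_lit 2)],
    .l (nat_lit 13) (nat_lit 0x780) (nat_lit 4) (nat_lit 0x31b0000031b000002c4000002c400000336000003360000033200000332000003c8000003c80000037c0000033a0000033800000328) (nat_lit 0xad000000ad00000104000001040000009200000092000000960000009600000000000000000000008e0000004c000000a000000090)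
    (nat_lit 0x1480af842e21714e8a2450a2a11778c0c50a27113d89cc4b429010b885c4ce25b1678cb463631b1a08cb44f627d10b885c3dc1d40c508c845c25013309e8488278101060042e21710807b843c2320ea09285602c412f060044821412d8a2446423214409505402b42170e405902fe14b09f84ce29d10f06285482881460a807e035215a0ba84f42ca1968a844942501500ad050029c1990d1850022c13f0a5859e2850ea08b85182a014e0a006643320f10b985542b218d8c0c58827a1a90e406643461e40f2065437c1940fe86362ef15809987e042e1990cc87903c81830df070c45819689c43002781750bf85cc22c1be0df039c3301840c8068228512f09105682c80f10a0060c32a15607385642aa13e89cc42818016509f856429622c0fe85543201500aa04f627b11208084f429615509f870c3281590c204702a0)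
    (nat_lit 0x1481e00f007803c01e00f007803c01e00f007803c01e0057c2903c01e00f007803c01e00f007803c01e00f0078010b885c3dc7803c01e00f007803c01e00f007803c01e0042e2170ea07b8f007803c01e00f007803c01e00f0078014e899c31421e1441e00f007803c01e00f007803c01e0051225b11908c84a82883c01e00f007803c01e00f007801428b3c45c1d41500a305007803c01e00f007803c01e0054232d12809285682a014e0a00f007803c01e00f007801778c6c4cc2b02170fc06643321e41e00f007803c01e0060631b13d0b107203521a30cc87903c83c01e00f007801428d0448825e1640ad05001e21950c1839c7803c01e004e232d13c06005fc2ea1160b986f837c1980738f0078013d89ec40422414b09e84fc2aa1940e186102b21501e004e627d0c008504fc2ca14b0ac87f44301800aa85502a0)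
    (nat_lit 4) (nat_lit 79)
    [[nat_lit 2,nat_lit 0x100002,nat_lit 0x200002,nat_lit 0x1000002,nat_lit 17,nat_lit 0x100011,nat_lit 0x100101,
    nat_lit 0x1001,nat_lit 0x101011,nat_lit 0x101001,nat_lit 0x10001,nat_lit 0x110001,nat_lit 0x1010001,
    nat_lit 0x100001,nat_lit 0x200011,nat_lit 0x200001,nat_lit 0x1100001,nat_lit 0x210001,nat_lit 0x1000001,
    nat_lit 0x2000001],[nat_lit 32,nat_lit 48,nat_lit 64,nat_lit 0x100030,nat_lit 0x1020,nat_lit 0x100020,nat_lit 272,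
    nat_lit 0x100110,nat_lit 0x1010,nat_lit 0x2010,nat_lit 0x101010,nat_lit 0x10010,nat_lit 0x110010,nat_lit 0x100010,
    nat_lit 0x200010,nat_lit 0x1100010,nat_lit 0x1000010,nat_lit 0x2000010],[nat_lit 0x1100,nat_lit 0x100100,
    nat_lit 0x200100,nat_lit 0x1000100],[nat_lit 0x2000,nat_lit 0x102000,nat_lit 0x11000,nat_lit 0x111000,
    nat_lit 0x101000,nat_lit 0x201000,nat_lit 0x1101000,nat_lit 0x1001000],[nat_lit 0x20000,nat_lit 0x120000,
    nat_lit 0x1020000,nat_lit 0x110000,nat_lit 0x220000,nat_lit 0x210000,nat_lit 0x1110000,nat_lit 0x1010000],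
    [nat_lit 0x200000,nat_lit 0x300000,nat_lit 0x1200000,nat_lit 0x1100000,nat_lit 0x2100000],[nat_lit 0x2000000]]
    [.c (nat_lit 1) (nat_lit 2),.r (nat_lit 0x1852) (nat_lit 12) [nat_lit 0x20001,nat_lit 0x30021,nat_lit 0x35021,
    nat_lit 0x424031],.r (nat_lit 4) (nat_lit 3) [nat_lit 0x5022,nat_lit 0x444032],
    .r (nat_lit 0x1b60) (nat_lit 10) [nat_lit 0x20001,nat_lit 0x220321,nat_lit 0x32231],
    .r (nat_lit 32) (nat_lit 6) [nat_lit 0x222031,nat_lit 0x3021],.c (nat_lit 1) (nat_lit 0x3002),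
    .c (nat_lit 2) (nat_lit 0x22203),.c (nat_lit 0) (nat_lit 0x33023),.c (nat_lit 7) (nat_lit 0x30023),
    .r (nat_lit 0x19e5) (nat_lit 4) [nat_lit 0x2001,nat_lit 0x300231,nat_lit 0x220321,nat_lit 0x200001],
    .c (nat_lit 1) (nat_lit 514),.r (nat_lit 0x1852) (nat_lit 12) [nat_lit 0x20001,nat_lit 0x32021,nat_lit 0x33021,
    nat_lit 0x422031],.r (nat_lit 0x1b60) (nat_lit 10) [nat_lit 0x20001,nat_lit 0x222321,nat_lit 0x30231],
    .r (nat_lit 4) (nat_lit 7) [nat_lit 0x222031,nat_lit 0x3021],.r (nat_lit 4) (nat_lit 3) [nat_lit 0x33021,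
    nat_lit 0x242031],.r (nat_lit 0x174c) (nat_lit 6) [nat_lit 0x202001,nat_lit 0x3021,nat_lit 0x320231],
    .r (nat_lit 0x1492) (nat_lit 13) [nat_lit 0x202001,nat_lit 0x200001,nat_lit 0x3021,nat_lit 0x330201],
    .r (nat_lit 4) (nat_lit 3) [nat_lit 0x3022,nat_lit 0x442032],.c (nat_lit 0) (nat_lit 0x33023),
    .r (nat_lit 0x1883) (nat_lit 3) [nat_lit 0x20001,nat_lit 0x753431,nat_lit 0x200001,nat_lit 0x303021],
    .c (nat_lit 2) (nat_lit 2),.r (nat_lit 0x1749) (nat_lit 10) [nat_lit 33,nat_lit 0x60031,nat_lit 0x202001],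
    .r (nat_lit 0x174a) (nat_lit 4) [nat_lit 0x80032,nat_lit 34,nat_lit 0x202001],
    .r (nat_lit 0x174a) (nat_lit 4) [nat_lit 0x60031,nat_lit 0x30021,nat_lit 0x202001],
    .r (nat_lit 0x1b22) (nat_lit 13) [nat_lit 0x3001,nat_lit 0x202001,nat_lit 0x200321],
    .c (nat_lit 2) (nat_lit 0x3002),.r (nat_lit 4) (nat_lit 3) [nat_lit 0x220031,nat_lit 33],
    .c (nat_lit 1) (nat_lit 0x22203),.r (nat_lit 0x196f) (nat_lit 8) [nat_lit 0x3001,nat_lit 0x202001,nat_lit 33],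
    .r (nat_lit 0x1b22) (nat_lit 7) [nat_lit 0x2001,nat_lit 0x200001,nat_lit 0x202321],
    .c (nat_lit 4) (nat_lit 0x3002),.r (nat_lit 32) (nat_lit 6) [nat_lit 0x220031,nat_lit 33],
    .c (nat_lit 1) (nat_lit 0x3202),.c (nat_lit 0) (nat_lit 0x2003),.c (nat_lit 6) (nat_lit 0x3002),
    .c (nat_lit 7) (nat_lit 0x3002),.r (nat_lit 0x1b64) (nat_lit 9) [nat_lit 0x202001,nat_lit 0x222321,
    nat_lit 0x303231],.r (nat_lit 0x1971) (nat_lit 4) [nat_lit 0x2001,nat_lit 33,nat_lit 0x200001,nat_lit 0x20031],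
    .r (nat_lit 0x1b60) (nat_lit 10) [nat_lit 0x20001,nat_lit 0x202031,nat_lit 33],
    .r (nat_lit 32) (nat_lit 10) [nat_lit 0x220031,nat_lit 33],.r (nat_lit 0xd5f) (nat_lit 11) [nat_lit 0x202001,
    nat_lit 0x240031,nat_lit 33,nat_lit 0x330201],.r (nat_lit 32) (nat_lit 2) [nat_lit 0x20001,nat_lit 33],
    .c (nat_lit 4) (nat_lit 2),.r (nat_lit 0x1809) (nat_lit 3) [nat_lit 0x20001,nat_lit 0x30021,nat_lit 0x200001,
    nat_lit 0x202001],.c (nat_lit 0) (nat_lit 0x33323),.r (nat_lit 0x19e5) (nat_lit 4) [nat_lit 0x2001,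
    nat_lit 0x303231,nat_lit 0x222321,nat_lit 0x200001],.r (nat_lit 0x1068) (nat_lit 11) [nat_lit 0x333201,
    nat_lit 0x2001,nat_lit 0x20031,nat_lit 0x200001],.r (nat_lit 0x17d0) (nat_lit 11) [nat_lit 0x3001,
    nat_lit 0x202001,nat_lit 0x220321,nat_lit 0x330201],.r (nat_lit 32) (nat_lit 10) [nat_lit 0x303231,
    nat_lit 0x422321],.c (nat_lit 0) (nat_lit 0x33023),.c (nat_lit 5) (nat_lit 2),
    .r (nat_lit 0x1852) (nat_lit 12) [nat_lit 0x20001,nat_lit 0x34021,nat_lit 0x30021,nat_lit 0x420031],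
    .r (nat_lit 0x1b60) (nat_lit 10) [nat_lit 0x20001,nat_lit 0x224321,nat_lit 0x33231],
    .r (nat_lit 4) (nat_lit 7) [nat_lit 0x220031,nat_lit 33],.r (nat_lit 4) (nat_lit 3) [nat_lit 34,nat_lit 0x440032],
    .r (nat_lit 0x174c) (nat_lit 6) [nat_lit 0x202001,nat_lit 33,nat_lit 0x323231],
    .r (nat_lit 0x1492) (nat_lit 13) [nat_lit 0x202001,nat_lit 0x200001,nat_lit 33,nat_lit 0x330201],
    .c (nat_lit 0) (nat_lit 0x33323),.c (nat_lit 6) (nat_lit 2),.r (nat_lit 0x1748) (nat_lit 4) [nat_lit 33,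
    nat_lit 0x60031,nat_lit 0x202001],.r (nat_lit 0x1a29) (nat_lit 4) [nat_lit 0x2001,nat_lit 0x20001,
    nat_lit 0x200001],.r (nat_lit 0x10b2) (nat_lit 4) [nat_lit 0x30021,nat_lit 0x20001,nat_lit 0x200001,
    nat_lit 0x503231],.r (nat_lit 0x1a29) (nat_lit 4) [nat_lit 0x2001,nat_lit 0x20001,nat_lit 0x200001],
    .c (nat_lit 7) (nat_lit 2)],
    .l (nat_lit 12) (nat_lit 960) (nat_lit 3) (nat_lit 0x1a40000014c0000017700000177000001770000017700000152000001a400000150000001b00000019500000195000001a1000001a1) (nat_lit 0x640000000c000000390000003900000039000000390000000c0000005e00000000000000600000001b0000001b0000000f0000000f)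
    (nat_lit 0x1401c018518118117f0f01460f01441890fd1951190f01401111131010ff1400f01300f017f13112713d11318115213613c14016712b17711715c17816811a11118513e15214613e17911117b11515c15e1541680ff17f13e14014613e16d11117510915c15814e16810118114613c14214616911917710b15c15a1681680f014611112b1191111520f01540f413713712d1431400f017916716916d1981521a41441371991951950f014411511710b1091440f41400f01351351e91931300f017b1771771751a41541b014015d19522d1d71310fd15e17815a15819913719513514417a23a1be17f18915c15c15c15c13713715d13519214420218613d11916811a1681681951431d71931861be19217a12719515416816814e19512d22d1e920223a16a192)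
    (nat_lit 0x1403c03c03c03c03c03c03c03c03c03c03c03c03c01c01403c03c03c03c03c03c03c03c03c03c03c03c01851111523c03c03c03c03c03c03c03c03c03c03c01811131361523c03c03c03c03c03c03c03c03c03c018110113c1461463c03c03c03c03c03c03c03c03c017f0ff14013e13e1463c03c03c03c03c03c03c03c00f014016717916d1691523c03c03c03c03c03c03c01460f012b1111111190f01523c03c03c03c03c03c00f013017717b1751771541a41403c03c03c03c03c01440f011711510910b0f41440f01403c03c03c03c018917f15c15c15c15c13713713515d1443c03c03c00fd13117815e15815a13719913519517a1443c03c019512716815414e16812d1951e92172242021923c011913d11a1681681681431951931d71be18617a192)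
    (nat_lit 4) (nat_lit 27)
    [[nat_lit 2,nat_lit 0x1001,nat_lit 0x1001001,nat_lit 0x10001,nat_lit 0x110001,nat_lit 0x1010001,nat_lit 0x100001,
    nat_lit 0x1100001,nat_lit 0x1000001,nat_lit 0x2000001,nat_lit 0x1000011,nat_lit 0x1000101],[nat_lit 32,
    nat_lit 0x1020,nat_lit 272,nat_lit 0x1000110,nat_lit 0x1010,nat_lit 0x1001010,nat_lit 0x11010,nat_lit 0x10010,
    nat_lit 0x1010010,nat_lit 0x100010,nat_lit 0x1100010,nat_lit 0x1000010,nat_lit 0x2000010],[nat_lit 512,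
    nat_lit 0x1000200,nat_lit 0x1100,nat_lit 0x1001100,nat_lit 0x10100,nat_lit 0x1010100,nat_lit 0x100100,
    nat_lit 0x1000100,nat_lit 0x1100100,nat_lit 0x2000100],[nat_lit 0x2000,nat_lit 0x1002000,nat_lit 0x11000,
    nat_lit 0x111000,nat_lit 0x1011000,nat_lit 0x101000,nat_lit 0x1101000,nat_lit 0x1001000,nat_lit 0x2001000],
    [nat_lit 0x20000,nat_lit 0x110000,nat_lit 0x210000,nat_lit 0x1010000],[nat_lit 0x200000,nat_lit 0x1100000],
    [nat_lit 0x2000000]]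
    [.c (nat_lit 1) (nat_lit 2),.r (nat_lit 32) (nat_lit 12) [nat_lit 0x300231,nat_lit 33],
    .c (nat_lit 1) (nat_lit 770),.r (nat_lit 32) (nat_lit 0) [nat_lit 0x2001,nat_lit 33],
    .c (nat_lit 1) (nat_lit 0x2002),.r (nat_lit 0x1b7f) (nat_lit 6) [nat_lit 0x2001,nat_lit 0x220001,
    nat_lit 0x333021],.r (nat_lit 0x1b5d) (nat_lit 12) [nat_lit 0x330021,nat_lit 0x220001,nat_lit 0x420031],
    .r (nat_lit 0x1af9) (nat_lit 9) [nat_lit 0x422301,nat_lit 0x303201,nat_lit 0x202321],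
    .r (nat_lit 4) (nat_lit 13) [nat_lit 0x300231,nat_lit 33],.r (nat_lit 0x1961) (nat_lit 12) [nat_lit 0x220001,
    nat_lit 0x330021,nat_lit 0x224031],.c (nat_lit 4) (nat_lit 0x22203),.c (nat_lit 4) (nat_lit 0x30023),
    .c (nat_lit 2) (nat_lit 2),.r (nat_lit 0x19de) (nat_lit 9) [nat_lit 0x422301,nat_lit 0x303201,nat_lit 0x955421],
    .c (nat_lit 1) (nat_lit 0x2323),.r (nat_lit 0x1ac0) (nat_lit 10) [nat_lit 0x303021,nat_lit 0x220321,nat_lit 561],
    .r (nat_lit 4) (nat_lit 9) [nat_lit 0x222031,nat_lit 0x533221],.c (nat_lit 1) (nat_lit 0x22203),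
    .r (nat_lit 0x1ae0) (nat_lit 4) [nat_lit 0x202031,nat_lit 0x220031,nat_lit 33],.c (nat_lit 0) (nat_lit 0x20003),
    .r (nat_lit 0x174d) (nat_lit 4) [nat_lit 0x202031,nat_lit 0x220001],.c (nat_lit 0) (nat_lit 0x20003),
    .r (nat_lit 4) (nat_lit 8) [nat_lit 0x202031,nat_lit 0x220001],.r (nat_lit 32) (nat_lit 8) [nat_lit 0x222031,
    nat_lit 0x533221],.r (nat_lit 0x1acd) (nat_lit 1) [nat_lit 0x303021,nat_lit 0x325021,nat_lit 0x404031],
    .c (nat_lit 3) (nat_lit 2),.r (nat_lit 0x1ac0) (nat_lit 10) [nat_lit 0x220321,nat_lit 0x642521,nat_lit 0x533431],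
    .r (nat_lit 4) (nat_lit 9) [nat_lit 0x300231,nat_lit 33],.c (nat_lit 1) (nat_lit 0x30023),
    .c (nat_lit 0) (nat_lit 0x33323),.r (nat_lit 0x174d) (nat_lit 4) [nat_lit 0x330231,nat_lit 0x220001],
    .c (nat_lit 0) (nat_lit 0x33323),.r (nat_lit 32) (nat_lit 8) [nat_lit 0x300231,nat_lit 33],
    .r (nat_lit 4) (nat_lit 8) [nat_lit 0x330231,nat_lit 0x220001],.r (nat_lit 0x1acd) (nat_lit 1) [nat_lit 0x220321,
    nat_lit 0x243321,nat_lit 0x32231],.c (nat_lit 4) (nat_lit 2),.c (nat_lit 4) (nat_lit 770),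
    .r (nat_lit 10) (nat_lit 4) [nat_lit 33,nat_lit 0x220001],.r (nat_lit 32) (nat_lit 12) [nat_lit 0x330231,
    nat_lit 0x20021],.c (nat_lit 5) (nat_lit 770),.r (nat_lit 0x1750) (nat_lit 4) [nat_lit 0x220001,nat_lit 33],
    .c (nat_lit 6) (nat_lit 770),.c (nat_lit 0) (nat_lit 515),.c (nat_lit 7) (nat_lit 770),.c (nat_lit 5) (nat_lit 2),
    .c (nat_lit 0) (nat_lit 0x3003),.r (nat_lit 0x1b5d) (nat_lit 12) [nat_lit 0x300021,nat_lit 0x220001,
    nat_lit 0x400031],.r (nat_lit 0x1ade) (nat_lit 4) [nat_lit 33,nat_lit 0x23021,nat_lit 0x202031],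
    .c (nat_lit 6) (nat_lit 2),.r (nat_lit 0x1a41) (nat_lit 4) [nat_lit 33,nat_lit 0x23021,nat_lit 0x202031],
    .c (nat_lit 7) (nat_lit 2)]]

/-- nodes -/
noncomputable def rD7k_20_23 : List RJ :=
  [.l (nat_lit 12) (nat_lit 960) (nat_lit 3) (nat_lit 0x1d60000019a0000019c000001bc000001b9000001b90000016a00000220000001d0000001d0000001b8000001c4000001d40000018a) (nat_lit 0x860000004a0000006400000084000000670000006700000000000000b600000050000000500000005c00000068000000960000004c)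
    (nat_lit 0x16419018e1521451a30f010e19014016c14014019011416411a1161291171d00fe13014a14011410417411615215411811b15119c0f016a11611a14e0f214e11a18e1581541571551bc0f016e16c1561660f21621171a31551511681521b910115716916b14f10717712914515711b1061681b910316d10116915113516d0fe10e0f00f01031011d210011a11a10e0fe0fe1121d00f01bc19c1b91b92201d21001d00f01d01d00f014a14016c1161011691d011a16818025823822025813019016e16a16d15710011a1801681881681681a011414016614e15114f1d00fe16823814015011815814016c15611a16916b0f010e18825816c14012817817419016214e16d1770f01121a025817815814c1841041400f20f21351071d00fe1682201281180f014c)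
    (nat_lit 0x1643c03c03c03c03c03c03c03c03c03c03c03c03c01901643c03c03c03c03c03c03c03c03c03c03c03c018e11a1543c03c03c03c03c03c03c03c03c03c03c01521161181543c03c03c03c03c03c03c03c03c03c014512911b1571683c03c03c03c03c03c03c03c03c01a31171511551521683c03c03c03c03c03c03c03c00f01d019c1bc1b91b91d23c03c03c03c03c03c03c010e0fe0f00f01011031001d23c03c03c03c03c03c019013016a16e15716d11a1001683c03c03c03c03c014014a11616c16910111a1d01801683c03c03c03c016c14011a15616b16910e0f020a1881403c03c03c014011414e16614f1510fe1d02381681501403c03c01401040f20f21071350fe1d020816811812814c3c019017414e16217716d1120f020a1a015817818414c)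
    (nat_lit 4) (nat_lit 61)
    [[nat_lit 2,nat_lit 0x1002,nat_lit 0x100002,nat_lit 17,nat_lit 0x1011,nat_lit 0x100011,nat_lit 0x1101,
    nat_lit 0x1001,nat_lit 0x1001001,nat_lit 0x10001,nat_lit 0x10101,nat_lit 0x11001,nat_lit 0x20001,nat_lit 0x110001,
    nat_lit 0x100001,nat_lit 0x101001,nat_lit 0x200001,nat_lit 0x1100001,nat_lit 0x100101,nat_lit 0x1000001,
    nat_lit 0x1000011],[nat_lit 32,nat_lit 0x1020,nat_lit 0x1010,nat_lit 0x1001010,nat_lit 0x1110,nat_lit 0x11010,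
    nat_lit 0x101010,nat_lit 0x10010,nat_lit 0x100010,nat_lit 0x1100010,nat_lit 0x1000010],[nat_lit 512,
    nat_lit 0x1200,nat_lit 0x1100,nat_lit 0x1001100,nat_lit 0x11100,nat_lit 0x101100,nat_lit 0x10100,nat_lit 0x100100,
    nat_lit 0x1000100,nat_lit 0x1010100],[nat_lit 0x2000,nat_lit 0x11000,nat_lit 0x101000,nat_lit 0x1001000,
    nat_lit 0x1011000,nat_lit 0x1101000,nat_lit 0x2001000],[nat_lit 0x20000,nat_lit 0x120000,nat_lit 0x110000,
    nat_lit 0x1010000,nat_lit 0x1110000],[nat_lit 0x200000,nat_lit 0x1100000],[nat_lit 0x2000000]]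
    [.c (nat_lit 1) (nat_lit 2),.r (nat_lit 0x1acd) (nat_lit 7) [nat_lit 0x2277c3,nat_lit 0x645dc3,nat_lit 0x534cd3],
    .r (nat_lit 0x1a6d) (nat_lit 9) [nat_lit 0x220003,nat_lit 0x502003,nat_lit 0x205063],
    .c (nat_lit 0) (nat_lit 0x2207),.r (nat_lit 0x1acd) (nat_lit 7) [nat_lit 0x2337c3,nat_lit 0x200541,
    nat_lit 0x520cd3],.r (nat_lit 0x1a6d) (nat_lit 9) [nat_lit 0x220003,nat_lit 0x502003,nat_lit 0x233063],
    .c (nat_lit 0) (nat_lit 0x30306),.r (nat_lit 0x174f) (nat_lit 4) [nat_lit 33,nat_lit 0x220003],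
    .r (nat_lit 4) (nat_lit 3) [nat_lit 0x330673,nat_lit 0x220003],.r (nat_lit 0x19a2) (nat_lit 10) [nat_lit 0x202073,
    nat_lit 0x23063,nat_lit 33],.c (nat_lit 0) (nat_lit 0x30306),.r (nat_lit 4) (nat_lit 12) [nat_lit 0x330673,
    nat_lit 0x220003],.r (nat_lit 0x100f) (nat_lit 4) [nat_lit 0x553c72,nat_lit 0x3062,nat_lit 0x200001,
    nat_lit 0x20001],.r (nat_lit 0x1b8c) (nat_lit 10) [nat_lit 0x330673,nat_lit 0x202073,nat_lit 0x23063],
    .r (nat_lit 0x1add) (nat_lit 5) [nat_lit 0x303063,nat_lit 0x202003,nat_lit 0x220003],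
    .r (nat_lit 0x174d) (nat_lit 13) [nat_lit 0x330673,nat_lit 0x220003],
    .r (nat_lit 0x1a6d) (nat_lit 9) [nat_lit 0x220003,nat_lit 0x502003,nat_lit 0x403066],
    .r (nat_lit 0x1ae0) (nat_lit 10) [nat_lit 0x330673,nat_lit 0x202073,nat_lit 0x23063],
    .c (nat_lit 0) (nat_lit 0x30306),.r (nat_lit 0x1a91) (nat_lit 4) [nat_lit 33,nat_lit 0x220003],
    .r (nat_lit 0x19de) (nat_lit 13) [nat_lit 0x23003,nat_lit 0x202003,nat_lit 0x32063],.c (nat_lit 2) (nat_lit 2),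
    .r (nat_lit 0x1acd) (nat_lit 7) [nat_lit 0x2727c3,nat_lit 0x654dc3,nat_lit 0x565cd3],
    .r (nat_lit 0x174f) (nat_lit 4) [nat_lit 0x32063,nat_lit 0x220003],.r (nat_lit 4) (nat_lit 3) [nat_lit 0x303673,
    nat_lit 0x220003],.c (nat_lit 0) (nat_lit 0x33006),.r (nat_lit 4) (nat_lit 12) [nat_lit 0x303673,
    nat_lit 0x220003],.r (nat_lit 0x174d) (nat_lit 13) [nat_lit 0x303673,nat_lit 0x220003],
    .r (nat_lit 0x19a2) (nat_lit 10) [nat_lit 0x220073,nat_lit 33,nat_lit 0x32063],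
    .r (nat_lit 0x1add) (nat_lit 5) [nat_lit 0x330063,nat_lit 0x202003,nat_lit 0x220003],
    .r (nat_lit 0x1ae0) (nat_lit 10) [nat_lit 0x303673,nat_lit 0x220073,nat_lit 33],
    .r (nat_lit 0x1a91) (nat_lit 4) [nat_lit 0x32063,nat_lit 0x220003],.c (nat_lit 3) (nat_lit 2),
    .c (nat_lit 0) (nat_lit 0x50006),.r (nat_lit 0x1acd) (nat_lit 7) [nat_lit 0x3227c3,nat_lit 0x244dc3,
    nat_lit 0x35cd3],.r (nat_lit 0x109e) (nat_lit 4) [nat_lit 0x300061,nat_lit 0x33671,nat_lit 0x200001,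
    nat_lit 0x20001],.r (nat_lit 0x1af9) (nat_lit 13) [nat_lit 0x23003,nat_lit 0x202003,nat_lit 0x303063],
    .r (nat_lit 0x1285) (nat_lit 4) [nat_lit 0x300061,nat_lit 0x33671,nat_lit 0x200001,nat_lit 0x20001],
    .r (nat_lit 0x100f) (nat_lit 4) [nat_lit 0x33671,nat_lit 0x300061,nat_lit 0x200001,nat_lit 0x20001],
    .r (nat_lit 0x1a6d) (nat_lit 9) [nat_lit 0x220003,nat_lit 0x502003,nat_lit 33],
    .r (nat_lit 0x19de) (nat_lit 13) [nat_lit 0x23003,nat_lit 0x202003,nat_lit 0x304063],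
    .r (nat_lit 0xf6b) (nat_lit 4) [nat_lit 0x300061,nat_lit 0x33671,nat_lit 0x200001,nat_lit 0x20001],
    .c (nat_lit 4) (nat_lit 2),.r (nat_lit 0x1a41) (nat_lit 10) [nat_lit 33,nat_lit 0x422763,nat_lit 0x303673],
    .r (nat_lit 0x1a4b) (nat_lit 13) [nat_lit 0x20001,nat_lit 0x200001,nat_lit 33],
    .r (nat_lit 45) (nat_lit 6) [nat_lit 0x20001,nat_lit 0x333671,nat_lit 33],
    .r (nat_lit 0x1749) (nat_lit 10) [nat_lit 0x20001,nat_lit 0x333671,nat_lit 0x202003],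
    .r (nat_lit 0x1749) (nat_lit 4) [nat_lit 0x20001,nat_lit 0x333671,nat_lit 0x202003],
    .r (nat_lit 0x154c) (nat_lit 1) [nat_lit 0x555c71,nat_lit 0x400001,nat_lit 0x40001,nat_lit 0x4001],
    .c (nat_lit 5) (nat_lit 2),.r (nat_lit 0x11be) (nat_lit 6) [nat_lit 0x400001,nat_lit 0x40001,nat_lit 0x4001,
    nat_lit 0x555c71],.r (nat_lit 0x1750) (nat_lit 6) [nat_lit 33,nat_lit 0x202003],
    .r (nat_lit 0x1750) (nat_lit 13) [nat_lit 0x220003,nat_lit 33],.r (nat_lit 2) (nat_lit 4) [nat_lit 0x330673,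
    nat_lit 0x220003],.c (nat_lit 6) (nat_lit 2),.r (nat_lit 10) (nat_lit 5) [nat_lit 0x220003,nat_lit 33],
    .c (nat_lit 7) (nat_lit 2)],
    .l (nat_lit 16) (nat_lit 0x2d00) (nat_lit 3) (nat_lit 0x12a9000014ad0000163b000013bf0000110f000011dc000013a80000180e00001878000013fe0000129c000011fb0000155900001559) (nat_lit 0x3cb000005cf000004b90000023d0000069c000007690000006a000004d00000047a000000000000067d000005dc0000031f0000031f)
    (nat_lit 0x15820efe10a012d00b400b400b400bde0bde0b400c2c0ba00f8a0d0215e21582138612700b400d440cb6114c12620ba00e300b400f2a0fe8127012d011820efe0e300b401ede143c15521dc811640e300c78131c138610a00d6c11820d230c5618c40e220f3817ae0ef00f1210a00ff20d440b400c560b400b400b400cb60c3f0b660ba00b400b400b400c420b400b400d230e300b400b4011720d0c0d6211dc0b400ba010b810a8114c0bde0e22143c0d0c0c3f133e0ed80f8e13a80b400dcc115610a80cb60b4018c41ede11720cb617a4133e13f4180e0bf612321c581baa0ba00b4017ae1dc811dc0ba0180e13a813fe18780b40123c1c581af412620bde0f3815520d620b6613f40f8e0f8413fe0d4a0e22120c10a80b400ba00f120e300ba00b4012320dcc0e22123c0c560cc011ce0fb40e300c2c0ef011640b400b400bf60b400d4a0b400b7e0c5611640edc0fe80d020ff2131c10a80c421baa10a810a81af40edc0fb4123a123a0f2a0f8a10a00c7810b80b401c581156120c1c58116411ce1016123a)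
    (nat_lit 0x15822d002d002d002d002d002d002d002d002d002d002d002d002d000efe15822d002d002d002d002d002d002d002d002d002d002d002d0010a0138611822d002d002d002d002d002d002d002d002d002d002d0012d012700efe11822d002d002d002d002d002d002d002d002d002d000b400b400e300d230b402d002d002d002d002d002d002d002d002d000b400d440b400c560b400b402d002d002d002d002d002d002d002d000b400cb61ae618c40cb61172133e2d002d002d002d002d002d002d000bde114c143c0e220c3f0d0c0ed8133e2d002d002d002d002d002d000bde126215520f380b660d620f8e13f413fe2d002d002d002d002d000b400ba019d017ae0ba011dc13a816e016e013fe2d002d002d002d000c2c0e3011640ef00b400b400b400bf60b400d4a0c562d002d002d000ba00b400e300f120b400ba00dcc1232123c0e220cc00c562d002d000f8a0f2a0c7810a00b4010b811561a6a1a6a120c11ce1164123a2d000d020fe8131c0ff20c4210a810a819b818a210a80fb40edc123a123a)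
    (nat_lit 3) (nat_lit 79)
    [[nat_lit 2,nat_lit 17,nat_lit 0x10011,nat_lit 0x1000011,nat_lit 0x1000101,nat_lit 0x1001001,nat_lit 0x10001,
    nat_lit 0x20001,nat_lit 0x110001,nat_lit 0x1010001,nat_lit 0x100001,nat_lit 0x100011,nat_lit 0x1000001],
    [nat_lit 32,nat_lit 48,nat_lit 288,nat_lit 0x1020,nat_lit 0x10020,nat_lit 0x100020,nat_lit 0x1000020,nat_lit 272,
    nat_lit 0x10110,nat_lit 0x100110,nat_lit 0x1000110,nat_lit 0x1010,nat_lit 0x11010,nat_lit 0x1001010,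
    nat_lit 0x101010,nat_lit 0x10010,nat_lit 0x20010,nat_lit 0x110010,nat_lit 0x1010010,nat_lit 0x100010,
    nat_lit 0x1000010,nat_lit 0x2000010],[nat_lit 512,nat_lit 0x1000200,nat_lit 0x1100,nat_lit 0x11100,
    nat_lit 0x1001100,nat_lit 0x10100,nat_lit 0x20100,nat_lit 0x1010100,nat_lit 0x110100,nat_lit 0x1100100,
    nat_lit 0x1000100],[nat_lit 0x2000,nat_lit 0x1002000,nat_lit 0x11000,nat_lit 0x21000,nat_lit 0x111000,
    nat_lit 0x1011000,nat_lit 0x1001000,nat_lit 0x1101000],[nat_lit 0x20000,nat_lit 0x30000,nat_lit 0x120000,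
    nat_lit 0x1020000,nat_lit 0x110000,nat_lit 0x210000,nat_lit 0x1110000,nat_lit 0x1010000,nat_lit 0x2010000],
    [nat_lit 0x200000,nat_lit 0x1100000],[nat_lit 0x2000000]]
    [.c (nat_lit 1) (nat_lit 2),.r (nat_lit 0x1750) (nat_lit 4) [nat_lit 17,nat_lit 0x10001],
    .r (nat_lit 32) (nat_lit 5) [nat_lit 0x3099,nat_lit 0x2001],.r (nat_lit 0x174e) (nat_lit 8) [nat_lit 0x3099,
    nat_lit 0x2001],.c (nat_lit 0) (nat_lit 0x6c2),.c (nat_lit 0) (nat_lit 0x30c2),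
    .r (nat_lit 0x1750) (nat_lit 6) [nat_lit 0x611,nat_lit 0x2401],.r (nat_lit 0x1b06) (nat_lit 4) [nat_lit 0x401,
    nat_lit 0x2001,nat_lit 0x10001,nat_lit 0x611],.r (nat_lit 0x1b36) (nat_lit 11) [nat_lit 0x601,nat_lit 0x411,
    nat_lit 0x2401],.r (nat_lit 0x174e) (nat_lit 4) [nat_lit 0x18099,nat_lit 0x10401],.c (nat_lit 1) (nat_lit 130),
    .r (nat_lit 0x1b36) (nat_lit 4) [nat_lit 0x401,nat_lit 0x611,nat_lit 0x10001],
    .r (nat_lit 0x1a69) (nat_lit 8) [nat_lit 0x2419,nat_lit 0x10401,nat_lit 0x611],.c (nat_lit 2) (nat_lit 2),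
    .r (nat_lit 0x1575) (nat_lit 4) [nat_lit 0x3ff99,nat_lit 0x6001,nat_lit 0x37001,nat_lit 17],
    .r (nat_lit 0x184c) (nat_lit 4) [nat_lit 0x401,nat_lit 0x3011,nat_lit 0x2001,nat_lit 0x10001],
    .r (nat_lit 0x184c) (nat_lit 4) [nat_lit 0x401,nat_lit 0x18011,nat_lit 0x2001,nat_lit 0x10001],
    .c (nat_lit 0) (nat_lit 0x5b63),.r (nat_lit 0x1b06) (nat_lit 11) [nat_lit 0x601,nat_lit 0x10401,nat_lit 0x2401,
    nat_lit 0x411],.c (nat_lit 0) (nat_lit 0x5b63),.r (nat_lit 0x174f) (nat_lit 4) [nat_lit 0x10401,nat_lit 17],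
    .r (nat_lit 0x1ab9) (nat_lit 1) [nat_lit 0x28699,nat_lit 0x10401,nat_lit 0x2001],.c (nat_lit 0) (nat_lit 0x602),
    .r (nat_lit 8) (nat_lit 8) [nat_lit 0x18699,nat_lit 0x2401],.r (nat_lit 0x174f) (nat_lit 4) [nat_lit 0x10401,
    nat_lit 0x1a011],.r (nat_lit 0x1ab9) (nat_lit 1) [nat_lit 0x1b699,nat_lit 0x10401,nat_lit 0x2001],
    .r (nat_lit 8) (nat_lit 8) [nat_lit 0x3699,nat_lit 0x2401],.c (nat_lit 0) (nat_lit 0x3002),
    .c (nat_lit 0) (nat_lit 0x36d3),.c (nat_lit 0) (nat_lit 0x5b63),.r (nat_lit 32) (nat_lit 5) [nat_lit 0x3699,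
    nat_lit 0x2001],.c (nat_lit 0) (nat_lit 0x36d3),.r (nat_lit 0x1750) (nat_lit 4) [nat_lit 0x411,nat_lit 0x10001],
    .c (nat_lit 0) (nat_lit 0x36d3),.c (nat_lit 0) (nat_lit 0x5b63),.c (nat_lit 3) (nat_lit 2),
    .r (nat_lit 0x1a55) (nat_lit 3) [nat_lit 0x13001,nat_lit 0x2001,nat_lit 17,nat_lit 0x2401],
    .c (nat_lit 1) (nat_lit 0x2503),.r (nat_lit 0x1b7a) (nat_lit 5) [nat_lit 0x2019,nat_lit 0x2419,nat_lit 17],
    .r (nat_lit 0x1a55) (nat_lit 3) [nat_lit 0x13001,nat_lit 0x2001,nat_lit 0x1a011,nat_lit 0x2401],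
    .r (nat_lit 0x174f) (nat_lit 8) [nat_lit 0x2001,nat_lit 0x13011],.r (nat_lit 0x184c) (nat_lit 11) [nat_lit 0x601,
    nat_lit 0x3611,nat_lit 0x10401,nat_lit 0x2401],.r (nat_lit 8) (nat_lit 5) [nat_lit 0x18099,nat_lit 0x10001],
    .c (nat_lit 0) (nat_lit 0x602),.c (nat_lit 0) (nat_lit 0x602),.r (nat_lit 0) (nat_lit 4) [nat_lit 0x2001,
    nat_lit 0x13011],.c (nat_lit 4) (nat_lit 2),.r (nat_lit 0x1a55) (nat_lit 3) [nat_lit 0x13001,nat_lit 0x2001,
    nat_lit 0x2c011,nat_lit 0x2401],.r (nat_lit 0x174f) (nat_lit 8) [nat_lit 0x2001,nat_lit 17],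
    .r (nat_lit 0x184c) (nat_lit 11) [nat_lit 0x601,nat_lit 0x18611,nat_lit 0x10401,nat_lit 0x2401],
    .c (nat_lit 0) (nat_lit 0x3002),.r (nat_lit 8) (nat_lit 5) [nat_lit 0x3099,nat_lit 0x10001],
    .r (nat_lit 0) (nat_lit 4) [nat_lit 0x2001,nat_lit 17],.c (nat_lit 0) (nat_lit 0x3002),.c (nat_lit 5) (nat_lit 2),
    .r (nat_lit 0x1575) (nat_lit 11) [nat_lit 0x3ff99,nat_lit 0x30c01,nat_lit 0x3e001,nat_lit 17],
    .r (nat_lit 0x1b06) (nat_lit 4) [nat_lit 0x401,nat_lit 0x2001,nat_lit 0x10001,nat_lit 17],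
    .c (nat_lit 0) (nat_lit 0x5b63),.r (nat_lit 0x1750) (nat_lit 6) [nat_lit 17,nat_lit 0x2401],
    .r (nat_lit 0x1b36) (nat_lit 11) [nat_lit 0x601,nat_lit 0x811,nat_lit 0x2401],
    .r (nat_lit 0x174e) (nat_lit 4) [nat_lit 0x18699,nat_lit 0x10401],.c (nat_lit 0) (nat_lit 0x36d3),
    .c (nat_lit 0) (nat_lit 0x5b63),.c (nat_lit 6) (nat_lit 2),.r (nat_lit 0x1a69) (nat_lit 8) [nat_lit 0x2019,
    nat_lit 0x10401,nat_lit 17],.c (nat_lit 7) (nat_lit 2)]]

/-- nodes -/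
noncomputable def rD7k_20_24 : List RJ :=
  [.l (nat_lit 17) (nat_lit 0x4bf0) (nat_lit 6) (nat_lit 0x27f1000027f100002061000020610000248600002014000018d000002822000020cd000020cd000020bd000020bd00001ead00001ead) (nat_lit 0x3100000031000007c1000007c10000080e0000039c0000000000000f52000007550000075500000765000007650000097500000975)
    (nat_lit 0x13e009f004060203010658b9142c92189f102608050546821bc0f3e07b104f8027c01018080c03b562b250b6c837dc35f81484151a086f03cf81ec41018080c023a018a0117d8731458f213470bee0a89031681e9c0b7603510406020300c50047403ab61cc5136c8369c439834140c7e063f019f8148415928b914398a1cc50ff0083a812fc102c0e9885ae43f1214610d8886c443b5620cb0ead88bec300c1fe00ff204308304e17cf0bd78611c2d3e169f06fb8627c1b4e13470861040b03380097e08f1846ac22d6120307398416c2db21649136c8b1e43fc8097e145906700424a20cd06ee882943e6a1ead0a420805068282a240be785ae4419a11ab0cc8063a032d0191014800a8e035f8204c10e605f70304e1d3110928478c32f019900cd0065a02c50176010de086f031f81e9c0c2385184414a12030cb40644032a019580bcc05c4054682a340c7e062d02f5e1f8906ee845ac334019680cbc065402e0017480f6207b1029080d440b4f86c443d5a105b0bb00a8e02e90171005c8054603cf81e7c067e05bb02d3e1b110f9a839cc2c5029000b8005e602a700b90)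
    (nat_lit 0x13e012fc097e04bf025f812fc097e04bf025f812fc097e04bf025f812fc04f8027c025f812fc097e04bf025f812fc097e04bf025f812fc097e04bf01018080c023a04bf025f812fc097e04bf025f812fc097e04bf025f812fc0406020300c500474097e04bf025f812fc097e04bf025f812fc097e04bf01065876ac45f61d5b0ff012fc097e04bf025f812fc097e04bf025f812fc05c8a2b250e628731441d41fe025f812fc097e04bf025f812fc097e04bf00b2485b6458f226d904bf07f9033804bf025f812fc097e04bf025f812fc0313e0df709a38369c205810c204bf0670097e04bf025f812fc097e04bf0102606bf02fb821cc0db08609c23c621250cc812fc097e04bf025f812fc04028148415120b9d02d7217cf08d58833431d0199025f812fc097e04bf0133e06f50316818fc0d7485ebc22d60ddd0cb40668032a04bf025f812fc0437821bc0f4e063f028c21847090188294322019680cac0654097e04bf00f3e079f02dd80cfc0bf885a7c1ce61f351480058a02f30170005c812fc03d881ec406a20521033b2169f082d87ab4547017600b8805d202a300b90)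
    (nat_lit 5) (nat_lit 301)
    [[nat_lit 2,nat_lit 3,nat_lit 4,nat_lit 5,nat_lit 6,nat_lit 0x100005,nat_lit 0x100004,nat_lit 19,nat_lit 0x1003,
    nat_lit 0x1013,nat_lit 0x11003,nat_lit 0x10003,nat_lit 0x100003,nat_lit 0x200004,nat_lit 0x200003,nat_lit 18,
    nat_lit 0x1012,nat_lit 0x100012,nat_lit 0x1002,nat_lit 0x11002,nat_lit 0x101002,nat_lit 0x10002,nat_lit 0x111002,
    nat_lit 0x100002,nat_lit 0x200002,nat_lit 0x300002,nat_lit 0x1000002,nat_lit 17,nat_lit 33,nat_lit 273,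
    nat_lit 0x1011,nat_lit 0x11011,nat_lit 0x101011,nat_lit 0x10011,nat_lit 0x100011,nat_lit 257,nat_lit 513,
    nat_lit 0x1101,nat_lit 0x11101,nat_lit 0x10101,nat_lit 0x1000101,nat_lit 0x1001,nat_lit 0x2001,nat_lit 0x12001,
    nat_lit 0x11001,nat_lit 0x22001,nat_lit 0x21001,nat_lit 0x111001,nat_lit 0x101001,nat_lit 0x1001001,
    nat_lit 0x10001,nat_lit 0x110001,nat_lit 0x100001,nat_lit 0x200001,nat_lit 0x300001,nat_lit 0x1000001],
    [nat_lit 32,nat_lit 0x1020,nat_lit 0x10020,nat_lit 0x100020,nat_lit 272,nat_lit 0x10110,nat_lit 0x100110,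
    nat_lit 0x1010,nat_lit 0x1110,nat_lit 0x2010,nat_lit 0x11010,nat_lit 0x21010,nat_lit 0x1001010,nat_lit 0x2020,
    nat_lit 0x12010,nat_lit 0x101010,nat_lit 0x1002010,nat_lit 0x10010,nat_lit 0x100010,nat_lit 0x111010,
    nat_lit 0x110010,nat_lit 0x200010],[nat_lit 512,nat_lit 0x10200,nat_lit 0x1100,nat_lit 0x11100,nat_lit 0x21100,
    nat_lit 0x1001100,nat_lit 0x2100,nat_lit 0x10100,nat_lit 0x101100,nat_lit 0x111100,nat_lit 0x1000100],
    [nat_lit 0x2000,nat_lit 0x12000,nat_lit 0x22000,nat_lit 0x1002000,nat_lit 0x102000,nat_lit 0x11000,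
    nat_lit 0x1012000,nat_lit 0x112000,nat_lit 0x21000,nat_lit 0x111000,nat_lit 0x1011000,nat_lit 0x101000,
    nat_lit 0x1001000,nat_lit 0x2002000,nat_lit 0x1101000],[nat_lit 0x20000,nat_lit 0x110000],[nat_lit 0x200000,
    nat_lit 0x300000,nat_lit 0x400000,nat_lit 0x1100000],[]]
    [.c (nat_lit 1) (nat_lit 2),.r (nat_lit 0x196a) (nat_lit 5) [nat_lit 0x200001,nat_lit 0x4218c41,
    nat_lit 0x6300801],.c (nat_lit 3) (nat_lit 0x401003),.r (nat_lit 0x1712) (nat_lit 12) [nat_lit 0xa00001,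
    nat_lit 0x140500a1,nat_lit 0x16b02861,nat_lit 0x58081],.r (nat_lit 75) (nat_lit 3) [nat_lit 66,nat_lit 0x1ad03062,
    nat_lit 0x4000001],.r (nat_lit 0x1713) (nat_lit 10) [nat_lit 0x1ef1b861,nat_lit 0x58081,nat_lit 0xe00001,
    nat_lit 0x10041],.r (nat_lit 75) (nat_lit 3) [nat_lit 0x10042,nat_lit 0x1ad1b062,nat_lit 0x4000001],
    .r (nat_lit 0x1714) (nat_lit 6) [nat_lit 0xc4300a1,nat_lit 0x600001,nat_lit 0x300041,nat_lit 0x538081],
    .r (nat_lit 0x1344) (nat_lit 4) [nat_lit 0x600001,nat_lit 0x38081,nat_lit 0xe701861,nat_lit 0xc0300a1],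
    .r (nat_lit 0x1715) (nat_lit 4) [nat_lit 0x600001,nat_lit 0x38081,nat_lit 0xe701861,nat_lit 0xc0300a1],
    .c (nat_lit 3) (nat_lit 0x18843),.r (nat_lit 0x1b4a) (nat_lit 7) [nat_lit 0x6310861,nat_lit 0x4000001,
    nat_lit 0x200001],.r (nat_lit 0x1712) (nat_lit 12) [nat_lit 0xa00001,nat_lit 0x140300a1,nat_lit 0x16b1a861,
    nat_lit 0x38081],.r (nat_lit 0x1716) (nat_lit 5) [nat_lit 0x2312c062,nat_lit 0x10020061,nat_lit 0x800001,
    nat_lit 0x20042],.r (nat_lit 0x1713) (nat_lit 10) [nat_lit 0x1ef2b861,nat_lit 0x38081,nat_lit 0xe00001,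
    nat_lit 0x20041],.r (nat_lit 0) (nat_lit 3) [nat_lit 0x18041,nat_lit 0x4210061],
    .r (nat_lit 0xef3) (nat_lit 4) [nat_lit 0x400001,nat_lit 0x8000001,nat_lit 0x65110a1,nat_lit 0xa028081],
    .r (nat_lit 0xd66) (nat_lit 6) [nat_lit 0x104200a1,nat_lit 0x800001,nat_lit 0x310041,nat_lit 0x528081],
    .c (nat_lit 0) (nat_lit 0x528885),.c (nat_lit 1) (nat_lit 0x210062),
    .r (nat_lit 0x1717) (nat_lit 4) [nat_lit 0x800001,nat_lit 0x28081,nat_lit 0x1291a061,nat_lit 0x100200a1],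
    .c (nat_lit 0) (nat_lit 0x528885),.r (nat_lit 75) (nat_lit 3) [nat_lit 0x4210c41,nat_lit 0x1291a061,
    nat_lit 0x4000001],.c (nat_lit 3) (nat_lit 0x400803),.r (nat_lit 75) (nat_lit 3) [nat_lit 0x20042,
    nat_lit 0x1ad2b062,nat_lit 0x4000001],.r (nat_lit 0x1716) (nat_lit 5) [nat_lit 0x2313c062,nat_lit 0x10010061,
    nat_lit 0x800001,nat_lit 0x30042],.r (nat_lit 10) (nat_lit 5) [nat_lit 0x4210061,nat_lit 0x18041],
    .r (nat_lit 0x1b04) (nat_lit 13) [nat_lit 65,nat_lit 0x4000001],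
    .r (nat_lit 0x111c) (nat_lit 6) [nat_lit 0x10000001,nat_lit 0x18081,nat_lit 0x20001,nat_lit 0x8100a1],
    .r (nat_lit 0x1b04) (nat_lit 2) [nat_lit 0x4210061,nat_lit 0x4000001],
    .r (nat_lit 0x1b4d) (nat_lit 6) [nat_lit 0x6300861,nat_lit 0x4000001,nat_lit 0x200001],
    .c (nat_lit 2) (nat_lit 0x210062),.r (nat_lit 0x1715) (nat_lit 4) [nat_lit 0x600001,nat_lit 0x18081,
    nat_lit 0xe719861,nat_lit 0xc0100a1],.r (nat_lit 32) (nat_lit 5) [nat_lit 0x6000861,nat_lit 0x4000001],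
    .r (nat_lit 0x1714) (nat_lit 6) [nat_lit 0xc4100a1,nat_lit 0x600001,nat_lit 0x310041,nat_lit 0x518081],
    .c (nat_lit 0) (nat_lit 0x200803),.r (nat_lit 0x196a) (nat_lit 5) [nat_lit 0x200001,nat_lit 0xc210c61,
    nat_lit 0x6300801],.r (nat_lit 0x1b4a) (nat_lit 6) [nat_lit 0x6300861,nat_lit 0x4000001,nat_lit 0x200001],
    .c (nat_lit 3) (nat_lit 0x210062),.r (nat_lit 0x1a40) (nat_lit 4) [nat_lit 0x300861,nat_lit 0x10001,
    nat_lit 0x200001,nat_lit 0x4000001],.r (nat_lit 0x1b04) (nat_lit 13) [nat_lit 0x4210061,nat_lit 0x4000001],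
    .c (nat_lit 0) (nat_lit 0x318043),.c (nat_lit 0) (nat_lit 0x948d05),.c (nat_lit 4) (nat_lit 0x210062),
    .c (nat_lit 0) (nat_lit 0x318043),.c (nat_lit 0) (nat_lit 0x528083),.c (nat_lit 5) (nat_lit 0x210062),
    .c (nat_lit 3) (nat_lit 0x18043),.r (nat_lit 0x1344) (nat_lit 4) [nat_lit 0x600001,nat_lit 0x18081,
    nat_lit 0xe719861,nat_lit 0xc0100a1],.r (nat_lit 32) (nat_lit 10) [nat_lit 0x6000861,nat_lit 0x4000001],
    .c (nat_lit 0) (nat_lit 0x318043),.r (nat_lit 0x1b4a) (nat_lit 7) [nat_lit 0x6300861,nat_lit 0x4000001,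
    nat_lit 0x200001],.r (nat_lit 0x196a) (nat_lit 5) [nat_lit 0x200001,nat_lit 0x4200c41,nat_lit 0x6300801],
    .r (nat_lit 0x1712) (nat_lit 12) [nat_lit 0xa00001,nat_lit 0x140100a1,nat_lit 0x16b2a861,nat_lit 0x18081],
    .r (nat_lit 0x1713) (nat_lit 10) [nat_lit 0x1ef3b861,nat_lit 0x18081,nat_lit 0xe00001,nat_lit 0x30041],
    .r (nat_lit 0x1b04) (nat_lit 2) [nat_lit 65,nat_lit 0x4000001],.c (nat_lit 2) (nat_lit 2),
    .r (nat_lit 0x1718) (nat_lit 4) [nat_lit 0x400061,nat_lit 0x8000001,nat_lit 0xe519001,nat_lit 65],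
    .r (nat_lit 0x18b3) (nat_lit 4) [nat_lit 0x10001,nat_lit 0x200001,nat_lit 0x4000001,nat_lit 0x500041],
    .r (nat_lit 0x19f4) (nat_lit 6) [nat_lit 0x4000001,nat_lit 0x4400061,nat_lit 0x4010001,nat_lit 0x6000041],
    .r (nat_lit 10) (nat_lit 5) [nat_lit 65,nat_lit 0x4200061],.r (nat_lit 0x1719) (nat_lit 0) [nat_lit 0x190a1,
    nat_lit 0x10861,nat_lit 0x600001,nat_lit 0xc011481],.c (nat_lit 0) (nat_lit 0x300002),
    .r (nat_lit 0x1b22) (nat_lit 4) [nat_lit 0x300041,nat_lit 0x200001,nat_lit 0x4010c41],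
    .r (nat_lit 0xe2a) (nat_lit 4) [nat_lit 0x600001,nat_lit 0x5190a1,nat_lit 0xe519041,nat_lit 0xc411481],
    .r (nat_lit 0x199c) (nat_lit 4) [nat_lit 0x10001,nat_lit 0x200001,nat_lit 0x4000001,nat_lit 0x300041],
    .r (nat_lit 0x1657) (nat_lit 6) [nat_lit 0x8000001,nat_lit 0x8411481,nat_lit 0x10001,nat_lit 0xa0190a1],
    .r (nat_lit 0x174b) (nat_lit 1) [nat_lit 0x4000001,nat_lit 0x200001,nat_lit 65],.c (nat_lit 0) (nat_lit 0x18002),
    .r (nat_lit 0x1b4d) (nat_lit 7) [nat_lit 0x500042,nat_lit 0x4000001,nat_lit 0x200001],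
    .r (nat_lit 0xe6d) (nat_lit 4) [nat_lit 0x400001,nat_lit 0x8000001,nat_lit 0x1a92a0a1,nat_lit 0xc411481],
    .r (nat_lit 0xef3) (nat_lit 4) [nat_lit 0x400001,nat_lit 0x8000001,nat_lit 0x65190a1,nat_lit 0xa000081],
    .c (nat_lit 0) (nat_lit 0x18002),.r (nat_lit 0) (nat_lit 1) [nat_lit 65,nat_lit 0x4000001],
    .r (nat_lit 0) (nat_lit 3) [nat_lit 65,nat_lit 0x4200061],.r (nat_lit 0x19f4) (nat_lit 6) [nat_lit 0x4000001,
    nat_lit 0x60190a1,nat_lit 0x4010001,nat_lit 0x4411481],.r (nat_lit 0x174b) (nat_lit 9) [nat_lit 0x4000001,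
    nat_lit 0x200001,nat_lit 0xa319061],.r (nat_lit 0xd66) (nat_lit 6) [nat_lit 0x104000a1,nat_lit 0x800001,
    nat_lit 0x320041,nat_lit 0x500081],.c (nat_lit 3) (nat_lit 2),.r (nat_lit 0x171a) (nat_lit 4) [nat_lit 0xa00001,
    nat_lit 0x85190a1,nat_lit 0x1a92a041,nat_lit 0xc411481],.r (nat_lit 0x1a3c) (nat_lit 7) [nat_lit 0x6000041,
    nat_lit 0x4000001,nat_lit 0x200001],.r (nat_lit 75) (nat_lit 3) [nat_lit 0x310861,nat_lit 0xe519041,
    nat_lit 0x4000001],.r (nat_lit 0x1717) (nat_lit 4) [nat_lit 0x800001,nat_lit 0xa92a0a1,nat_lit 0xe519041,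
    nat_lit 0x18822481],.r (nat_lit 0x13a6) (nat_lit 9) [nat_lit 0x8000001,nat_lit 0xa000081,nat_lit 0x5190a1,
    nat_lit 0x10001],.r (nat_lit 0x1b4a) (nat_lit 6) [nat_lit 0xe519062,nat_lit 0x4000001,nat_lit 0x200001],
    .r (nat_lit 0x198c) (nat_lit 4) [nat_lit 0x6000041,nat_lit 0x10001,nat_lit 0x200001,nat_lit 0x4000001],
    .c (nat_lit 0) (nat_lit 0x300002),.c (nat_lit 1) (nat_lit 0x18043),.r (nat_lit 0) (nat_lit 3) [nat_lit 0x4200061,
    nat_lit 65],.c (nat_lit 4) (nat_lit 2),.c (nat_lit 0) (nat_lit 0x528c83),.c (nat_lit 0) (nat_lit 0x528083),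
    .r (nat_lit 0x19f3) (nat_lit 4) [nat_lit 0x10001,nat_lit 0x200001,nat_lit 0x4000001,nat_lit 65],
    .c (nat_lit 0) (nat_lit 0x528c83),.c (nat_lit 0) (nat_lit 0x318043),
    .r (nat_lit 0x174b) (nat_lit 9) [nat_lit 0x4000001,nat_lit 0x200001,nat_lit 65],.c (nat_lit 0) (nat_lit 0x528c83),
    .c (nat_lit 0) (nat_lit 0x528c83),.c (nat_lit 1) (nat_lit 0x210862),
    .r (nat_lit 0x19f4) (nat_lit 6) [nat_lit 0x4000001,nat_lit 0xc411481,nat_lit 0x4010001,nat_lit 0xe0190a1],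
    .c (nat_lit 0) (nat_lit 0x528c85),.r (nat_lit 0) (nat_lit 4) [nat_lit 0x4000001,nat_lit 65],
    .r (nat_lit 32) (nat_lit 5) [nat_lit 66,nat_lit 0x4000001],.r (nat_lit 0x174b) (nat_lit 1) [nat_lit 0x4000001,
    nat_lit 0x200001,nat_lit 0xa319061],.c (nat_lit 5) (nat_lit 2),.c (nat_lit 0) (nat_lit 0x528c85),
    .c (nat_lit 6) (nat_lit 2),.r (nat_lit 75) (nat_lit 3) [nat_lit 0x30042,nat_lit 0x1ad3b062,nat_lit 0x4000001],
    .r (nat_lit 0x1716) (nat_lit 5) [nat_lit 0x2314c062,nat_lit 0x10000061,nat_lit 0x800001,nat_lit 0x40042],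
    .r (nat_lit 10) (nat_lit 5) [nat_lit 0x4200061,nat_lit 65]]]

/-- nodes -/
noncomputable def rD7k_20_25 : List RJ :=
  [.s (nat_lit 17) (nat_lit 0x4ec0) (nat_lit 7) (nat_lit 0x2c0200002c02000026be0000234e000019860000220a000021a2000023460000214a000024be000025300000253000002fc400002fc4) (nat_lit 0x3c2000003c200000c760000090600000dba0000163e00000c7e00000e2200000b0600000e7a00000a9400000a940000000000000000)
    (nat_lit 0x14200a100385822fc0f240444042f824f8107e0762042dc11d616010b0084e1828400fc608bf0451015c414c80b43048101d8810b707ac858042c02117e08bf034901eec04ec042003480145c0f3a038e03854191e135f09af83f181c2c06ca069202b280d100c0205610281014d40aad06988500428020ae2044401a20108005ba032301a100b64066c02760147c13320e730739845101e480aca0276030700b740ac604fa01e801a340da3090e835e41bce1686093e02b08145c09f402d901d000f9804ec04ca03a941ed210d1077485320217c0c02069002b180d080b6403a0013b014cc0fe5092d8468c158a0ec40762029a80e380d1a0276029981328052004b4048e4251e0fa9068c8481020fc0a04079d01e800cd804ec0276034f80a400d15068a868ac2f360f590475834c4191e121d04cc8496c1ed20d1509478204819d81298094c042dc216e0aad070a8368c0a3e0fe507528345424720d4e040904a60253016010b008500426be0de7073982b141dd2179b068c84a60253017e20bf1058042c02140109af835e41ce611a30868868ac1f521298094c05f882fc4)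
    (nat_lit 0x142013b009d804ec0276013b009d804ec0276013b009d804ec0276013b0050802840276013b009d804ec0276013b009d804ec0276013b009d804ec00e1607e3034904ec0276013b009d804ec0276013b009d804ec0276013b0045f822fc0f76069209d804ec0276013b009d804ec0276013b009d804ec00f2408a2013b0159405ba13b009d804ec0276013b009d804ec0276013b00222015c408400344019180b74276013b009d804ec0276013b009d804ec010be0a6402dc018040684056301d004ec0276013b009d804ec0276013b0049f029ac0a2e0561016c813e807cc03a009d804ec0276013b009d804ec01028090202d601408066c03d0013b009d8052013b009d804ec0276013b003b101d88071c0535013b01a3409940533025a00a40276013b009d804ec010b7085b8282c155a051f06d183a941fca11c9065f820484ec0276013b0023ac1eb20c8f069882664243a0f69092d84a3c1a2a0cec040909d804ec016010b0084d7c28020e7306bc8434423460fa909f284a60253017e213b0058042c02135f0a00839cc1bce0ee90562834641f621298094c05f882fc4)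
    (nat_lit 5) (nat_lit 655)
    [[nat_lit 0,nat_lit 2,nat_lit 8,nat_lit 8],[nat_lit 0,nat_lit 4],[nat_lit 0,nat_lit 5],[nat_lit 1,nat_lit 4],
    [nat_lit 1,nat_lit 5],[nat_lit 1,nat_lit 9,nat_lit 9,nat_lit 3],[nat_lit 2,nat_lit 2,nat_lit 8,nat_lit 10,
    nat_lit 11,nat_lit 9],[nat_lit 2,nat_lit 6,nat_lit 10],[nat_lit 2,nat_lit 6,nat_lit 11],[nat_lit 2,nat_lit 7,
    nat_lit 10],[nat_lit 2,nat_lit 7,nat_lit 11],[nat_lit 2,nat_lit 8,nat_lit 8,nat_lit 10,nat_lit 13],[nat_lit 2,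
    nat_lit 8,nat_lit 10,nat_lit 9,nat_lit 13],[nat_lit 2,nat_lit 8,nat_lit 10,nat_lit 11,nat_lit 9,nat_lit 2],
    [nat_lit 2,nat_lit 8,nat_lit 10,nat_lit 11,nat_lit 9,nat_lit 3],[nat_lit 2,nat_lit 8,nat_lit 10,nat_lit 12,
    nat_lit 9],[nat_lit 2,nat_lit 8,nat_lit 11,nat_lit 9,nat_lit 13],[nat_lit 2,nat_lit 8,nat_lit 13,nat_lit 11,
    nat_lit 9],[nat_lit 2,nat_lit 10,nat_lit 7],[nat_lit 2,nat_lit 11,nat_lit 4,nat_lit 11],[nat_lit 2,nat_lit 11,
    nat_lit 6],[nat_lit 2,nat_lit 11,nat_lit 7],[nat_lit 3,nat_lit 3,nat_lit 8,nat_lit 10,nat_lit 11,nat_lit 9],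
    [nat_lit 3,nat_lit 6,nat_lit 10],[nat_lit 3,nat_lit 6,nat_lit 11],[nat_lit 3,nat_lit 7,nat_lit 10],[nat_lit 3,
    nat_lit 8,nat_lit 10,nat_lit 11,nat_lit 9,nat_lit 3],[nat_lit 3,nat_lit 8,nat_lit 10,nat_lit 12,nat_lit 9],
    [nat_lit 3,nat_lit 8,nat_lit 13,nat_lit 11,nat_lit 9],[nat_lit 3,nat_lit 10,nat_lit 5,nat_lit 10],[nat_lit 3,
    nat_lit 10,nat_lit 6],[nat_lit 3,nat_lit 10,nat_lit 7],[nat_lit 3,nat_lit 11,nat_lit 6],[nat_lit 3,nat_lit 11,
    nat_lit 7],[nat_lit 3,nat_lit 12,nat_lit 8,nat_lit 10,nat_lit 9],[nat_lit 3,nat_lit 12,nat_lit 8,nat_lit 11,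
    nat_lit 9],[nat_lit 3,nat_lit 12,nat_lit 11,nat_lit 9,nat_lit 9],[nat_lit 4,nat_lit 10,nat_lit 12],[nat_lit 4,
    nat_lit 10,nat_lit 13],[nat_lit 4,nat_lit 11,nat_lit 12],[nat_lit 4,nat_lit 11,nat_lit 13],[nat_lit 4,nat_lit 12,
    nat_lit 10],[nat_lit 4,nat_lit 13,nat_lit 11],[nat_lit 5,nat_lit 10,nat_lit 12],[nat_lit 5,nat_lit 11,nat_lit 13],
    [nat_lit 5,nat_lit 12,nat_lit 10],[nat_lit 5,nat_lit 12,nat_lit 11],[nat_lit 5,nat_lit 13,nat_lit 10],[nat_lit 5,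
    nat_lit 13,nat_lit 11],[nat_lit 6,nat_lit 12],[nat_lit 6,nat_lit 13],[nat_lit 7,nat_lit 12],[nat_lit 7,
    nat_lit 13]]
    [nat_lit 0x10288,nat_lit 260,nat_lit 261,nat_lit 276,nat_lit 277,nat_lit 0x11993,nat_lit 0x1228ab9,nat_lit 0x126a,
    nat_lit 0x126b,nat_lit 0x127a,nat_lit 0x127b,nat_lit 0x1288ad,nat_lit 0x128a9d,nat_lit 0x128ab92,
    nat_lit 0x128ab93,nat_lit 0x128ac9,nat_lit 0x128b9d,nat_lit 0x128db9,nat_lit 0x12a7,nat_lit 0x12b4b,
    nat_lit 0x12b6,nat_lit 0x12b7,nat_lit 0x1338ab9,nat_lit 0x136a,nat_lit 0x136b,nat_lit 0x137a,nat_lit 0x138ab93,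
    nat_lit 0x138ac9,nat_lit 0x138db9,nat_lit 0x13a5a,nat_lit 0x13a6,nat_lit 0x13a7,nat_lit 0x13b6,nat_lit 0x13b7,
    nat_lit 0x13c8a9,nat_lit 0x13c8b9,nat_lit 0x13cb99,nat_lit 0x14ac,nat_lit 0x14ad,nat_lit 0x14bc,nat_lit 0x14bd,
    nat_lit 0x14ca,nat_lit 0x14db,nat_lit 0x15ac,nat_lit 0x15bd,nat_lit 0x15ca,nat_lit 0x15cb,nat_lit 0x15da,
    nat_lit 0x15db,nat_lit 364,nat_lit 365,nat_lit 380,nat_lit 381]
    [[[nat_lit 0,nat_lit 2,nat_lit 8,nat_lit 8],[nat_lit 0,nat_lit 4],[nat_lit 0,nat_lit 5],[nat_lit 1,nat_lit 4],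
    [nat_lit 1,nat_lit 5],[nat_lit 1,nat_lit 9,nat_lit 9,nat_lit 3],[nat_lit 2,nat_lit 2,nat_lit 8,nat_lit 10,
    nat_lit 11,nat_lit 9],[nat_lit 2,nat_lit 6,nat_lit 10],[nat_lit 2,nat_lit 6,nat_lit 11],[nat_lit 2,nat_lit 7,
    nat_lit 10],[nat_lit 2,nat_lit 7,nat_lit 11],[nat_lit 2,nat_lit 8,nat_lit 8,nat_lit 0]],[[nat_lit 2,nat_lit 8,
    nat_lit 8,nat_lit 10,nat_lit 13],[nat_lit 2,nat_lit 8,nat_lit 10,nat_lit 9,nat_lit 13],[nat_lit 2,nat_lit 8,
    nat_lit 10,nat_lit 11,nat_lit 9,nat_lit 2],[nat_lit 2,nat_lit 8,nat_lit 10,nat_lit 11,nat_lit 9,nat_lit 3],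
    [nat_lit 2,nat_lit 8,nat_lit 10,nat_lit 12,nat_lit 9],[nat_lit 2,nat_lit 8,nat_lit 11,nat_lit 9,nat_lit 13],
    [nat_lit 2,nat_lit 8,nat_lit 13,nat_lit 11,nat_lit 9],[nat_lit 2,nat_lit 10,nat_lit 7],[nat_lit 2,nat_lit 11,
    nat_lit 4,nat_lit 11],[nat_lit 2,nat_lit 11,nat_lit 6],[nat_lit 2,nat_lit 11,nat_lit 7],[nat_lit 3,nat_lit 1,
    nat_lit 9,nat_lit 9]],[[nat_lit 3,nat_lit 2,nat_lit 8,nat_lit 10,nat_lit 11,nat_lit 9],[nat_lit 3,nat_lit 3,
    nat_lit 8,nat_lit 10,nat_lit 11,nat_lit 9],[nat_lit 3,nat_lit 6,nat_lit 10],[nat_lit 3,nat_lit 6,nat_lit 11],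
    [nat_lit 3,nat_lit 7,nat_lit 10],[nat_lit 3,nat_lit 8,nat_lit 10,nat_lit 11,nat_lit 9,nat_lit 3],[nat_lit 3,
    nat_lit 8,nat_lit 10,nat_lit 12,nat_lit 9],[nat_lit 3,nat_lit 8,nat_lit 13,nat_lit 11,nat_lit 9],[nat_lit 3,
    nat_lit 10,nat_lit 5,nat_lit 10],[nat_lit 3,nat_lit 10,nat_lit 6],[nat_lit 3,nat_lit 10,nat_lit 7],[nat_lit 3,
    nat_lit 11,nat_lit 6]],[[nat_lit 3,nat_lit 11,nat_lit 7],[nat_lit 3,nat_lit 12,nat_lit 8,nat_lit 10,nat_lit 9],
    [nat_lit 3,nat_lit 12,nat_lit 8,nat_lit 11,nat_lit 9],[nat_lit 3,nat_lit 12,nat_lit 11,nat_lit 9,nat_lit 9],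
    [nat_lit 4,nat_lit 0],[nat_lit 4,nat_lit 1],[nat_lit 4,nat_lit 10,nat_lit 12],[nat_lit 4,nat_lit 10,nat_lit 13],
    [nat_lit 4,nat_lit 11,nat_lit 2,nat_lit 11],[nat_lit 4,nat_lit 11,nat_lit 12],[nat_lit 4,nat_lit 11,nat_lit 13],
    [nat_lit 4,nat_lit 12,nat_lit 10]],[[nat_lit 4,nat_lit 13,nat_lit 11],[nat_lit 5,nat_lit 0],[nat_lit 5,nat_lit 1],
    [nat_lit 5,nat_lit 10,nat_lit 3,nat_lit 10],[nat_lit 5,nat_lit 10,nat_lit 12],[nat_lit 5,nat_lit 11,nat_lit 13],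
    [nat_lit 5,nat_lit 12,nat_lit 10],[nat_lit 5,nat_lit 12,nat_lit 11],[nat_lit 5,nat_lit 13,nat_lit 10],[nat_lit 5,
    nat_lit 13,nat_lit 11],[nat_lit 6,nat_lit 2,nat_lit 11],[nat_lit 6,nat_lit 3,nat_lit 10]],[[nat_lit 6,nat_lit 3,
    nat_lit 11],[nat_lit 6,nat_lit 10,nat_lit 2],[nat_lit 6,nat_lit 10,nat_lit 3],[nat_lit 6,nat_lit 11,nat_lit 2],
    [nat_lit 6,nat_lit 11,nat_lit 3],[nat_lit 6,nat_lit 12],[nat_lit 6,nat_lit 13],[nat_lit 7,nat_lit 2,nat_lit 10],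
    [nat_lit 7,nat_lit 2,nat_lit 11],[nat_lit 7,nat_lit 3,nat_lit 10],[nat_lit 7,nat_lit 3,nat_lit 11],[nat_lit 7,
    nat_lit 10,nat_lit 2]],[[nat_lit 7,nat_lit 10,nat_lit 3],[nat_lit 7,nat_lit 11,nat_lit 2],[nat_lit 7,nat_lit 12],
    [nat_lit 7,nat_lit 13],[nat_lit 8,nat_lit 0,nat_lit 2,nat_lit 8],[nat_lit 8,nat_lit 8,nat_lit 0,nat_lit 2],
    [nat_lit 8,nat_lit 8,nat_lit 10,nat_lit 13,nat_lit 2],[nat_lit 8,nat_lit 10,nat_lit 9,nat_lit 3,nat_lit 12],
    [nat_lit 8,nat_lit 10,nat_lit 9,nat_lit 13,nat_lit 2],[nat_lit 8,nat_lit 10,nat_lit 11,nat_lit 9,nat_lit 2,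
    nat_lit 2],[nat_lit 8,nat_lit 10,nat_lit 11,nat_lit 9,nat_lit 3,nat_lit 2],[nat_lit 8,nat_lit 10,nat_lit 11,
    nat_lit 9,nat_lit 3,nat_lit 3]],[[nat_lit 8,nat_lit 10,nat_lit 12,nat_lit 9,nat_lit 2],[nat_lit 8,nat_lit 10,
    nat_lit 12,nat_lit 9,nat_lit 3],[nat_lit 8,nat_lit 10,nat_lit 13,nat_lit 2,nat_lit 8],[nat_lit 8,nat_lit 11,
    nat_lit 9,nat_lit 3,nat_lit 12],[nat_lit 8,nat_lit 11,nat_lit 9,nat_lit 13,nat_lit 2],[nat_lit 8,nat_lit 13,
    nat_lit 11,nat_lit 9,nat_lit 2],[nat_lit 8,nat_lit 13,nat_lit 11,nat_lit 9,nat_lit 3],[nat_lit 9,nat_lit 2,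
    nat_lit 2,nat_lit 8,nat_lit 10,nat_lit 11],[nat_lit 9,nat_lit 2,nat_lit 8,nat_lit 10,nat_lit 12],[nat_lit 9,
    nat_lit 2,nat_lit 8,nat_lit 13,nat_lit 11],[nat_lit 9,nat_lit 3,nat_lit 1,nat_lit 9],[nat_lit 9,nat_lit 3,
    nat_lit 2,nat_lit 8,nat_lit 10,nat_lit 11]],[[nat_lit 9,nat_lit 3,nat_lit 3,nat_lit 8,nat_lit 10,nat_lit 11],
    [nat_lit 9,nat_lit 3,nat_lit 8,nat_lit 10,nat_lit 12],[nat_lit 9,nat_lit 3,nat_lit 8,nat_lit 13,nat_lit 11],
    [nat_lit 9,nat_lit 3,nat_lit 12,nat_lit 8,nat_lit 10],[nat_lit 9,nat_lit 3,nat_lit 12,nat_lit 8,nat_lit 11],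
    [nat_lit 9,nat_lit 3,nat_lit 12,nat_lit 11,nat_lit 9],[nat_lit 9,nat_lit 9,nat_lit 3,nat_lit 1],[nat_lit 9,
    nat_lit 9,nat_lit 3,nat_lit 12,nat_lit 11],[nat_lit 9,nat_lit 13,nat_lit 2,nat_lit 8,nat_lit 10],[nat_lit 9,
    nat_lit 13,nat_lit 2,nat_lit 8,nat_lit 11],[nat_lit 10,nat_lit 2,nat_lit 6],[nat_lit 10,nat_lit 2,nat_lit 7]],
    [[nat_lit 10,nat_lit 3,nat_lit 6],[nat_lit 10,nat_lit 3,nat_lit 7],[nat_lit 10,nat_lit 3,nat_lit 10,nat_lit 5],
    [nat_lit 10,nat_lit 4,nat_lit 12],[nat_lit 10,nat_lit 5,nat_lit 10,nat_lit 3],[nat_lit 10,nat_lit 5,nat_lit 12],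
    [nat_lit 10,nat_lit 5,nat_lit 13],[nat_lit 10,nat_lit 6,nat_lit 3],[nat_lit 10,nat_lit 7,nat_lit 2],[nat_lit 10,
    nat_lit 7,nat_lit 3],[nat_lit 10,nat_lit 9,nat_lit 3,nat_lit 12,nat_lit 8],[nat_lit 10,nat_lit 9,nat_lit 13,
    nat_lit 2,nat_lit 8]],[[nat_lit 10,nat_lit 11,nat_lit 9,nat_lit 2,nat_lit 2,nat_lit 8],[nat_lit 10,nat_lit 11,
    nat_lit 9,nat_lit 3,nat_lit 2,nat_lit 8],[nat_lit 10,nat_lit 11,nat_lit 9,nat_lit 3,nat_lit 3,nat_lit 8],
    [nat_lit 10,nat_lit 12,nat_lit 4],[nat_lit 10,nat_lit 12,nat_lit 5],[nat_lit 10,nat_lit 12,nat_lit 9,nat_lit 2,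
    nat_lit 8],[nat_lit 10,nat_lit 12,nat_lit 9,nat_lit 3,nat_lit 8],[nat_lit 10,nat_lit 13,nat_lit 2,nat_lit 8,
    nat_lit 8],[nat_lit 10,nat_lit 13,nat_lit 4],[nat_lit 11,nat_lit 2,nat_lit 6],[nat_lit 11,nat_lit 2,nat_lit 7],
    [nat_lit 11,nat_lit 2,nat_lit 11,nat_lit 4]],[[nat_lit 11,nat_lit 3,nat_lit 6],[nat_lit 11,nat_lit 4,nat_lit 11,
    nat_lit 2],[nat_lit 11,nat_lit 4,nat_lit 13],[nat_lit 11,nat_lit 5,nat_lit 12],[nat_lit 11,nat_lit 5,nat_lit 13],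
    [nat_lit 11,nat_lit 6,nat_lit 2],[nat_lit 11,nat_lit 6,nat_lit 3],[nat_lit 11,nat_lit 7,nat_lit 2],[nat_lit 11,
    nat_lit 7,nat_lit 3],[nat_lit 11,nat_lit 9,nat_lit 2,nat_lit 2,nat_lit 8,nat_lit 10],[nat_lit 11,nat_lit 9,
    nat_lit 2,nat_lit 8,nat_lit 13],[nat_lit 11,nat_lit 9,nat_lit 3,nat_lit 2,nat_lit 8,nat_lit 10]],[[nat_lit 11,
    nat_lit 9,nat_lit 3,nat_lit 3,nat_lit 8,nat_lit 10],[nat_lit 11,nat_lit 9,nat_lit 3,nat_lit 8,nat_lit 13],
    [nat_lit 11,nat_lit 9,nat_lit 3,nat_lit 12,nat_lit 8],[nat_lit 11,nat_lit 9,nat_lit 9,nat_lit 3,nat_lit 12],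
    [nat_lit 11,nat_lit 9,nat_lit 13,nat_lit 2,nat_lit 8],[nat_lit 11,nat_lit 12,nat_lit 4],[nat_lit 11,nat_lit 13,
    nat_lit 4],[nat_lit 11,nat_lit 13,nat_lit 5],[nat_lit 12,nat_lit 4,nat_lit 10],[nat_lit 12,nat_lit 4,nat_lit 11],
    [nat_lit 12,nat_lit 5,nat_lit 10],[nat_lit 12,nat_lit 6]],[[nat_lit 12,nat_lit 7],[nat_lit 12,nat_lit 8,
    nat_lit 10,nat_lit 9,nat_lit 3],[nat_lit 12,nat_lit 8,nat_lit 11,nat_lit 9,nat_lit 3],[nat_lit 12,nat_lit 9,
    nat_lit 2,nat_lit 8,nat_lit 10],[nat_lit 12,nat_lit 9,nat_lit 3,nat_lit 8,nat_lit 10],[nat_lit 12,nat_lit 10,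
    nat_lit 4],[nat_lit 12,nat_lit 10,nat_lit 5],[nat_lit 12,nat_lit 11,nat_lit 5],[nat_lit 12,nat_lit 11,nat_lit 9,
    nat_lit 9,nat_lit 3],[nat_lit 13,nat_lit 2,nat_lit 8,nat_lit 8,nat_lit 10],[nat_lit 13,nat_lit 2,nat_lit 8,
    nat_lit 10,nat_lit 9],[nat_lit 13,nat_lit 2,nat_lit 8,nat_lit 11,nat_lit 9]],[[nat_lit 13,nat_lit 4,nat_lit 10],
    [nat_lit 13,nat_lit 4,nat_lit 11],[nat_lit 13,nat_lit 5,nat_lit 11],[nat_lit 13,nat_lit 6],[nat_lit 13,nat_lit 7],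
    [nat_lit 13,nat_lit 10,nat_lit 5],[nat_lit 13,nat_lit 11,nat_lit 4],[nat_lit 13,nat_lit 11,nat_lit 5],[nat_lit 13,
    nat_lit 11,nat_lit 9,nat_lit 2,nat_lit 8],[nat_lit 13,nat_lit 11,nat_lit 9,nat_lit 3,nat_lit 8]]]
    [[nat_lit 11,nat_lit 40,nat_lit 49,nat_lit 41,nat_lit 50,nat_lit 102,nat_lit 14,nat_lit 61,nat_lit 63,nat_lit 71,
    nat_lit 73,nat_lit 77],[nat_lit 78,nat_lit 80,nat_lit 81,nat_lit 82,nat_lit 84,nat_lit 88,nat_lit 89,nat_lit 116,
    nat_lit 133,nat_lit 137,nat_lit 139,nat_lit 5],[nat_lit 15,nat_lit 29,nat_lit 62,nat_lit 64,nat_lit 72,nat_lit 83,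
    nat_lit 85,nat_lit 90,nat_lit 112,nat_lit 115,nat_lit 117,nat_lit 138],[nat_lit 140,nat_lit 157,nat_lit 158,
    nat_lit 164,nat_lit 1,nat_lit 3,nat_lit 123,nat_lit 128,nat_lit 131,nat_lit 149,nat_lit 150,nat_lit 161],
    [nat_lit 174,nat_lit 2,nat_lit 4,nat_lit 110,nat_lit 124,nat_lit 151,nat_lit 162,nat_lit 163,nat_lit 173,
    nat_lit 175,nat_lit 21,nat_lit 33],[nat_lit 35,nat_lit 106,nat_lit 108,nat_lit 129,nat_lit 132,nat_lit 155,
    nat_lit 171,nat_lit 19,nat_lit 22,nat_lit 34,nat_lit 36,nat_lit 107],[nat_lit 109,nat_lit 130,nat_lit 156,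
    nat_lit 172,nat_lit 0,nat_lit 76,nat_lit 86,nat_lit 118,nat_lit 119,nat_lit 120,nat_lit 121,nat_lit 122],
    [nat_lit 125,nat_lit 126,nat_lit 127,nat_lit 146,nat_lit 148,nat_lit 176,nat_lit 177,nat_lit 6,nat_lit 16,
    nat_lit 18,nat_lit 23,nat_lit 24],[nat_lit 25,nat_lit 30,nat_lit 31,nat_lit 37,nat_lit 38,nat_lit 39,nat_lit 94,
    nat_lit 101,nat_lit 166,nat_lit 167,nat_lit 7,nat_lit 9],[nat_lit 26,nat_lit 28,nat_lit 32,nat_lit 47,nat_lit 51,
    nat_lit 54,nat_lit 56,nat_lit 59,nat_lit 67,nat_lit 69,nat_lit 99,nat_lit 104],[nat_lit 141,nat_lit 143,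
    nat_lit 144,nat_lit 152,nat_lit 154,nat_lit 159,nat_lit 160,nat_lit 165,nat_lit 168,nat_lit 8,nat_lit 10,
    nat_lit 20],[nat_lit 27,nat_lit 44,nat_lit 48,nat_lit 55,nat_lit 57,nat_lit 58,nat_lit 60,nat_lit 68,nat_lit 70,
    nat_lit 91,nat_lit 93,nat_lit 95],[nat_lit 96,nat_lit 98,nat_lit 100,nat_lit 103,nat_lit 105,nat_lit 153,
    nat_lit 169,nat_lit 170,nat_lit 42,nat_lit 45,nat_lit 52,nat_lit 65],[nat_lit 74,nat_lit 79,nat_lit 87,nat_lit 92,
    nat_lit 97,nat_lit 111,nat_lit 113,nat_lit 135,nat_lit 147,nat_lit 12,nat_lit 13,nat_lit 17],[nat_lit 43,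
    nat_lit 46,nat_lit 53,nat_lit 66,nat_lit 75,nat_lit 114,nat_lit 134,nat_lit 136,nat_lit 142,nat_lit 145]]
    [[nat_lit 76,nat_lit 40,nat_lit 49,nat_lit 41,nat_lit 50,nat_lit 23,nat_lit 91,nat_lit 106,nat_lit 129,
    nat_lit 107,nat_lit 130,nat_lit 0],[nat_lit 165,nat_lit 166,nat_lit 6,nat_lit 24,nat_lit 92,nat_lit 167,
    nat_lit 93,nat_lit 67,nat_lit 131,nat_lit 58,nat_lit 68,nat_lit 94],[nat_lit 95,nat_lit 96,nat_lit 108,
    nat_lit 132,nat_lit 109,nat_lit 25,nat_lit 97,nat_lit 98,nat_lit 110,nat_lit 59,nat_lit 69,nat_lit 60],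
    [nat_lit 70,nat_lit 99,nat_lit 100,nat_lit 101,nat_lit 1,nat_lit 3,nat_lit 152,nat_lit 168,nat_lit 133,
    nat_lit 153,nat_lit 169,nat_lit 111],[nat_lit 134,nat_lit 2,nat_lit 4,nat_lit 112,nat_lit 154,nat_lit 170,
    nat_lit 113,nat_lit 135,nat_lit 114,nat_lit 136,nat_lit 137,nat_lit 115],[nat_lit 138,nat_lit 7,nat_lit 26,
    nat_lit 8,nat_lit 27,nat_lit 155,nat_lit 171,nat_lit 116,nat_lit 139,nat_lit 117,nat_lit 140,nat_lit 9],
    [nat_lit 28,nat_lit 10,nat_lit 156,nat_lit 172,nat_lit 77,nat_lit 11,nat_lit 12,nat_lit 157,nat_lit 13,nat_lit 14,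
    nat_lit 15,nat_lit 29],[nat_lit 16,nat_lit 30,nat_lit 78,nat_lit 158,nat_lit 17,nat_lit 18,nat_lit 31,nat_lit 141,
    nat_lit 159,nat_lit 142,nat_lit 102,nat_lit 143],[nat_lit 144,nat_lit 160,nat_lit 145,nat_lit 118,nat_lit 146,
    nat_lit 103,nat_lit 5,nat_lit 147,nat_lit 119,nat_lit 148,nat_lit 61,nat_lit 71],[nat_lit 62,nat_lit 72,
    nat_lit 51,nat_lit 161,nat_lit 32,nat_lit 162,nat_lit 173,nat_lit 33,nat_lit 19,nat_lit 34,nat_lit 79,nat_lit 80],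
    [nat_lit 81,nat_lit 82,nat_lit 83,nat_lit 42,nat_lit 52,nat_lit 84,nat_lit 85,nat_lit 86,nat_lit 43,nat_lit 63,
    nat_lit 73,nat_lit 44],[nat_lit 64,nat_lit 20,nat_lit 174,nat_lit 163,nat_lit 175,nat_lit 21,nat_lit 35,
    nat_lit 22,nat_lit 36,nat_lit 120,nat_lit 176,nat_lit 121],[nat_lit 122,nat_lit 177,nat_lit 87,nat_lit 164,
    nat_lit 88,nat_lit 45,nat_lit 46,nat_lit 53,nat_lit 123,nat_lit 149,nat_lit 124,nat_lit 65],[nat_lit 74,
    nat_lit 37,nat_lit 38,nat_lit 125,nat_lit 126,nat_lit 47,nat_lit 54,nat_lit 55,nat_lit 39,nat_lit 127,nat_lit 104,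
    nat_lit 105],[nat_lit 128,nat_lit 150,nat_lit 151,nat_lit 66,nat_lit 75,nat_lit 56,nat_lit 48,nat_lit 57,
    nat_lit 89,nat_lit 90]]
    [[[nat_lit 161],[nat_lit 155],[nat_lit 157,nat_lit 158,nat_lit 164],[nat_lit 33,nat_lit 35],[nat_lit 29],
    [nat_lit 34,nat_lit 36],[nat_lit 1],[nat_lit 0],[nat_lit 0],[nat_lit 2],[nat_lit 2],[]],[[],[],[],[],[],[],[],[],
    [],[],[],[nat_lit 53]],[[],[nat_lit 50],[],[],[],[nat_lit 51,nat_lit 54,nat_lit 56],[nat_lit 51,nat_lit 54,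
    nat_lit 56],[nat_lit 51,nat_lit 54,nat_lit 56],[nat_lit 52],[nat_lit 52],[nat_lit 52],[]],[[],[nat_lit 49],
    [nat_lit 49],[nat_lit 49],[nat_lit 14],[nat_lit 12,nat_lit 13,nat_lit 17],[],[],[nat_lit 6,nat_lit 16,nat_lit 18],
    [nat_lit 6,nat_lit 16,nat_lit 18],[nat_lit 6,nat_lit 16,nat_lit 18],[nat_lit 11]],[[nat_lit 8,nat_lit 10,
    nat_lit 20],[nat_lit 71,nat_lit 73],[nat_lit 75],[nat_lit 74],[nat_lit 74],[],[],[],[nat_lit 68,nat_lit 70],
    [nat_lit 68,nat_lit 70],[],[nat_lit 41]],[[nat_lit 41],[nat_lit 42,nat_lit 45],[nat_lit 42,nat_lit 45],[],[],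
    [nat_lit 40],[nat_lit 44,nat_lit 48],[],[],[nat_lit 102],[nat_lit 102],[nat_lit 92,nat_lit 97]],[[nat_lit 92,
    nat_lit 97],[nat_lit 94,nat_lit 101],[],[nat_lit 91,nat_lit 93,nat_lit 95,nat_lit 96,nat_lit 98,nat_lit 100,
    nat_lit 103,nat_lit 105],[nat_lit 61,nat_lit 63],[nat_lit 59],[nat_lit 59],[nat_lit 65],[nat_lit 65],[nat_lit 65],
    [nat_lit 65],[nat_lit 65]],[[nat_lit 65],[nat_lit 65],[nat_lit 65],[],[],[nat_lit 58,nat_lit 60],[nat_lit 58,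
    nat_lit 60],[nat_lit 131,nat_lit 149,nat_lit 150],[nat_lit 131,nat_lit 149,nat_lit 150],[nat_lit 131,nat_lit 149,
    nat_lit 150],[],[]],[[],[],[],[],[],[],[nat_lit 130],[nat_lit 130],[],[],[],[]],[[],[],[],[],[nat_lit 83,
    nat_lit 85,nat_lit 90],[nat_lit 83,nat_lit 85,nat_lit 90],[nat_lit 83,nat_lit 85,nat_lit 90],[nat_lit 76,
    nat_lit 86],[],[],[],[]],[[],[],[],[],[],[],[],[],[],[nat_lit 174],[nat_lit 174],[nat_lit 174]],[[],[nat_lit 171],
    [nat_lit 171],[],[],[nat_lit 176,nat_lit 177],[nat_lit 176,nat_lit 177],[nat_lit 173,nat_lit 175],[nat_lit 173,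
    nat_lit 175],[nat_lit 172],[nat_lit 172],[nat_lit 172]],[[nat_lit 172],[nat_lit 172],[nat_lit 172],[nat_lit 172],
    [nat_lit 172],[],[nat_lit 169,nat_lit 170],[nat_lit 169,nat_lit 170],[nat_lit 106,nat_lit 108],[nat_lit 106,
    nat_lit 108],[nat_lit 112,nat_lit 115,nat_lit 117],[nat_lit 118,nat_lit 119,nat_lit 120,nat_lit 121,nat_lit 122,
    nat_lit 125,nat_lit 126,nat_lit 127]],[[nat_lit 110,nat_lit 124],[],[],[nat_lit 107,nat_lit 109],[nat_lit 107,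
    nat_lit 109],[nat_lit 111,nat_lit 113],[nat_lit 111,nat_lit 113],[],[],[nat_lit 3],[nat_lit 3],[nat_lit 3]],[[],
    [],[nat_lit 5],[],[nat_lit 4],[],[],[],[],[]]]
    (nat_lit 178) [nat_lit 0,nat_lit 1,nat_lit 2,nat_lit 3,nat_lit 4,nat_lit 5,nat_lit 6,nat_lit 7,nat_lit 8,
    nat_lit 9,nat_lit 10,nat_lit 12,nat_lit 13,nat_lit 14,nat_lit 15,nat_lit 16,nat_lit 17,nat_lit 18,nat_lit 19,
    nat_lit 20,nat_lit 21,nat_lit 22,nat_lit 25,nat_lit 26,nat_lit 27,nat_lit 28,nat_lit 29,nat_lit 30,nat_lit 31,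
    nat_lit 32,nat_lit 33,nat_lit 34,nat_lit 35,nat_lit 36,nat_lit 37,nat_lit 38,nat_lit 39,nat_lit 42,nat_lit 43,
    nat_lit 45,nat_lit 46,nat_lit 47,nat_lit 48,nat_lit 52,nat_lit 53,nat_lit 54,nat_lit 55,nat_lit 56,nat_lit 57,
    nat_lit 65,nat_lit 66,nat_lit 74,nat_lit 75]
    [[[],[],[],[],[nat_lit 1],[nat_lit 2],[],[],[nat_lit 0],[],[],[],[],[]],[[],[],[],[nat_lit 5],[nat_lit 3],
    [nat_lit 4],[],[],[],[],[],[],[],[]],[[nat_lit 11],[],[nat_lit 14],[nat_lit 15],[],[],[nat_lit 21],[nat_lit 19,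
    nat_lit 22],[],[nat_lit 6,nat_lit 16,nat_lit 18],[nat_lit 7,nat_lit 9],[nat_lit 8,nat_lit 10,nat_lit 20],[],
    [nat_lit 12,nat_lit 13,nat_lit 17]],[[],[],[],[nat_lit 29],[],[],[nat_lit 33,nat_lit 35],[nat_lit 34,nat_lit 36],
    [],[nat_lit 23,nat_lit 24,nat_lit 25,nat_lit 30,nat_lit 31,nat_lit 37,nat_lit 38,nat_lit 39],[nat_lit 26,
    nat_lit 28,nat_lit 32],[nat_lit 27],[],[]],[[nat_lit 40],[nat_lit 41],[],[],[],[],[],[],[],[],[nat_lit 47],
    [nat_lit 44,nat_lit 48],[nat_lit 42,nat_lit 45],[nat_lit 43,nat_lit 46]],[[nat_lit 49],[nat_lit 50],[],[],[],[],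
    [],[],[],[],[nat_lit 51,nat_lit 54,nat_lit 56],[nat_lit 55,nat_lit 57],[nat_lit 52],[nat_lit 53]],[[],[],
    [nat_lit 61,nat_lit 63],[nat_lit 62,nat_lit 64],[],[],[],[],[],[],[nat_lit 59],[nat_lit 58,nat_lit 60],
    [nat_lit 65],[nat_lit 66]],[[],[],[nat_lit 71,nat_lit 73],[nat_lit 72],[],[],[],[],[],[],[nat_lit 67,nat_lit 69],
    [nat_lit 68,nat_lit 70],[nat_lit 74],[nat_lit 75]],[[],[],[nat_lit 77,nat_lit 78,nat_lit 80,nat_lit 81,nat_lit 82,
    nat_lit 84,nat_lit 88,nat_lit 89],[nat_lit 83,nat_lit 85,nat_lit 90],[],[],[],[],[nat_lit 76,nat_lit 86],[],[],[],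
    [nat_lit 79,nat_lit 87],[]],[[],[nat_lit 102],[],[],[],[],[],[],[],[nat_lit 94,nat_lit 101],[nat_lit 99,
    nat_lit 104],[nat_lit 91,nat_lit 93,nat_lit 95,nat_lit 96,nat_lit 98,nat_lit 100,nat_lit 103,nat_lit 105],
    [nat_lit 92,nat_lit 97],[]],[[],[],[nat_lit 116],[nat_lit 112,nat_lit 115,nat_lit 117],[nat_lit 123,nat_lit 128],
    [nat_lit 110,nat_lit 124],[nat_lit 106,nat_lit 108],[nat_lit 107,nat_lit 109],[nat_lit 118,nat_lit 119,
    nat_lit 120,nat_lit 121,nat_lit 122,nat_lit 125,nat_lit 126,nat_lit 127],[],[],[],[nat_lit 111,nat_lit 113],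
    [nat_lit 114]],[[],[],[nat_lit 133,nat_lit 137,nat_lit 139],[nat_lit 138,nat_lit 140],[nat_lit 131,nat_lit 149,
    nat_lit 150],[nat_lit 151],[nat_lit 129,nat_lit 132],[nat_lit 130],[nat_lit 146,nat_lit 148],[],[nat_lit 141,
    nat_lit 143,nat_lit 144],[],[nat_lit 135,nat_lit 147],[nat_lit 134,nat_lit 136,nat_lit 142,nat_lit 145]],[[],[],
    [],[nat_lit 157,nat_lit 158,nat_lit 164],[nat_lit 161],[nat_lit 162,nat_lit 163],[nat_lit 155],[nat_lit 156],[],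
    [],[nat_lit 152,nat_lit 154,nat_lit 159,nat_lit 160],[nat_lit 153],[],[]],[[],[],[],[],[nat_lit 174],[nat_lit 173,
    nat_lit 175],[nat_lit 171],[nat_lit 172],[nat_lit 176,nat_lit 177],[nat_lit 166,nat_lit 167],[nat_lit 165,
    nat_lit 168],[nat_lit 169,nat_lit 170],[],[]]]
    [[[nat_lit 0x20000000000000000000000000000000000000000,nat_lit 0x800000000000000000000000000000000000000,
    nat_lit 0x106000000000000000000000000000000000000000,nat_lit 0xa00000000,nat_lit 0x20000000,nat_lit 0x1400000000,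
    nat_lit 2,nat_lit 1,nat_lit 1],[nat_lit 4,nat_lit 4,nat_lit 0,nat_lit 0,nat_lit 0,nat_lit 0,nat_lit 0,nat_lit 0,
    nat_lit 0],[nat_lit 0,nat_lit 0,nat_lit 0,nat_lit 0,nat_lit 0,nat_lit 0x20000000000000,nat_lit 0,
    nat_lit 0x4000000000000,nat_lit 0],[nat_lit 0,nat_lit 0,nat_lit 0x148000000000000,nat_lit 0x148000000000000,
    nat_lit 0x148000000000000,nat_lit 0x10000000000000,nat_lit 0x10000000000000,nat_lit 0x10000000000000,nat_lit 0],
    [nat_lit 0,nat_lit 0x2000000000000,nat_lit 0x2000000000000,nat_lit 0x2000000000000,nat_lit 0x4000,nat_lit 0x23000,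
    nat_lit 0,nat_lit 0,nat_lit 0x50040],[nat_lit 0x50040,nat_lit 0x50040,nat_lit 0x800,nat_lit 0x100500,
    nat_lit 0x2800000000000000000,nat_lit 0x8000000000000000000,nat_lit 0x4000000000000000000,
    nat_lit 0x4000000000000000000,nat_lit 0],[nat_lit 0,nat_lit 0,nat_lit 0x500000000000000000,
    nat_lit 0x500000000000000000,nat_lit 0,nat_lit 0x20000000000,nat_lit 0x20000000000,nat_lit 0x240000000000,
    nat_lit 0x240000000000],[nat_lit 0,nat_lit 0,nat_lit 0x10000000000,nat_lit 0x1100000000000,nat_lit 0,nat_lit 0,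
    nat_lit 0x40000000000000000000000000,nat_lit 0x40000000000000000000000000,nat_lit 0x2100000000000000000000000],
    [nat_lit 0x2100000000000000000000000,nat_lit 0x20400000000000000000000000,nat_lit 0,
    nat_lit 0x295a80000000000000000000000,nat_lit 0xa000000000000000,nat_lit 0x800000000000000,
    nat_lit 0x800000000000000,nat_lit 0x20000000000000000,nat_lit 0x20000000000000000]],[[nat_lit 0x20000000000000000,
    nat_lit 0x20000000000000000,nat_lit 0x20000000000000000,nat_lit 0x20000000000000000,nat_lit 0x20000000000000000,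
    nat_lit 0x20000000000000000,nat_lit 0,nat_lit 0,nat_lit 0x1400000000000000],[nat_lit 0x1400000000000000,
    nat_lit 0x60000800000000000000000000000000000000,nat_lit 0x60000800000000000000000000000000000000,
    nat_lit 0x60000800000000000000000000000000000000,nat_lit 0,nat_lit 0,nat_lit 0,nat_lit 0,nat_lit 0],[nat_lit 0,
    nat_lit 0,nat_lit 0,nat_lit 0x400000000000000000000000000000000,nat_lit 0x400000000000000000000000000000000,
    nat_lit 0,nat_lit 0,nat_lit 0,nat_lit 0],[nat_lit 0,nat_lit 0,nat_lit 0,nat_lit 0,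
    nat_lit 0x42800000000000000000000,nat_lit 0x42800000000000000000000,nat_lit 0x42800000000000000000000,
    nat_lit 0x4010000000000000000000,nat_lit 0],[nat_lit 0,nat_lit 0,nat_lit 0,nat_lit 0,nat_lit 0,nat_lit 0,
    nat_lit 0,nat_lit 0,nat_lit 0],[nat_lit 0,nat_lit 0,nat_lit 0,
    nat_lit 0x40000000000000000000000000000000000000000000,nat_lit 0x40000000000000000000000000000000000000000000,
    nat_lit 0x40000000000000000000000000000000000000000000,nat_lit 0,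
    nat_lit 0x8000000000000000000000000000000000000000000,nat_lit 0x8000000000000000000000000000000000000000000],
    [nat_lit 0,nat_lit 0,nat_lit 0x300000000000000000000000000000000000000000000,
    nat_lit 0x300000000000000000000000000000000000000000000,nat_lit 0xa0000000000000000000000000000000000000000000,
    nat_lit 0xa0000000000000000000000000000000000000000000,nat_lit 0x10000000000000000000000000000000000000000000,
    nat_lit 0x10000000000000000000000000000000000000000000,nat_lit 0x10000000000000000000000000000000000000000000],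
    [nat_lit 0x10000000000000000000000000000000000000000000,nat_lit 0x10000000000000000000000000000000000000000000,
    nat_lit 0x10000000000000000000000000000000000000000000,nat_lit 0x10000000000000000000000000000000000000000000,
    nat_lit 0x10000000000000000000000000000000000000000000,nat_lit 0,
    nat_lit 0x6000000000000000000000000000000000000000000,nat_lit 0x6000000000000000000000000000000000000000000,
    nat_lit 0x1400000000000000000000000000],[nat_lit 0x1400000000000000000000000000,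
    nat_lit 0x290000000000000000000000000000,nat_lit 0xe7c00000000000000000000000000000,
    nat_lit 0x10004000000000000000000000000000,nat_lit 0,nat_lit 0,nat_lit 0x2800000000000000000000000000,
    nat_lit 0x2800000000000000000000000000,nat_lit 0x28000000000000000000000000000]],
    [[nat_lit 0x28000000000000000000000000000,nat_lit 0,nat_lit 0,nat_lit 8,nat_lit 8,nat_lit 8,nat_lit 0,nat_lit 0,
    nat_lit 32],[nat_lit 0,nat_lit 16,nat_lit 0,nat_lit 0,nat_lit 0,nat_lit 0,nat_lit 0]]]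
    []
    (nat_lit 0) (nat_lit 28) (nat_lit 28)
    [[nat_lit 17,nat_lit 0x10011,nat_lit 0x1201,nat_lit 0x1101,nat_lit 0x2101,nat_lit 0x10101,nat_lit 0x1001,
    nat_lit 0x2001,nat_lit 0x11001,nat_lit 0x10001,nat_lit 0x20001,nat_lit 0x11201,nat_lit 0x11101,nat_lit 0x20101,
    nat_lit 0x10201,nat_lit 0x12001,nat_lit 0x21001],[nat_lit 32,nat_lit 48,nat_lit 64,nat_lit 0x10020,
    nat_lit 0x20020,nat_lit 0x120020,nat_lit 0x110020,nat_lit 0x210020,nat_lit 0x100020,nat_lit 0x100120,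
    nat_lit 0x1000020,nat_lit 272,nat_lit 528,nat_lit 0x1110,nat_lit 0x10110,nat_lit 0x100210,nat_lit 0x110110,
    nat_lit 0x100110,nat_lit 0x1000110,nat_lit 0x1010,nat_lit 0x11010,nat_lit 0x111010,nat_lit 0x2010,nat_lit 0x10010,
    nat_lit 0x10210,nat_lit 0x11110,nat_lit 0x20110,nat_lit 0x110210,nat_lit 0x120110,nat_lit 0x210110,
    nat_lit 0x1010110,nat_lit 0x21010,nat_lit 0x12010,nat_lit 0x20010,nat_lit 0x30010,nat_lit 0x40010,
    nat_lit 0x130010,nat_lit 0x120010,nat_lit 0x220010,nat_lit 0x230010,nat_lit 0x1020010,nat_lit 0x110010,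
    nat_lit 0x210010,nat_lit 0x1110010,nat_lit 0x1010010,nat_lit 0x100010,nat_lit 0x200010,nat_lit 0x1100010,
    nat_lit 0x101110,nat_lit 0x1000010],[nat_lit 512,nat_lit 768,nat_lit 0x400,nat_lit 0x500,nat_lit 0x600,
    nat_lit 0x700,nat_lit 0x10600,nat_lit 0x1500,nat_lit 0x10500,nat_lit 0x20500,nat_lit 0x100500,nat_lit 0x1400,
    nat_lit 0x2400,nat_lit 0x11400,nat_lit 0x101400,nat_lit 0x10400,nat_lit 0x20400,nat_lit 0x110400,nat_lit 0x100400,
    nat_lit 0x1300,nat_lit 0x2300,nat_lit 0x12300,nat_lit 0x11300,nat_lit 0x21300,nat_lit 0x111300,nat_lit 0x101300,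
    nat_lit 0x3300,nat_lit 0x201300,nat_lit 0x10300,nat_lit 0x20300,nat_lit 0x120300,nat_lit 0x110300,
    nat_lit 0x210300,nat_lit 0x220300,nat_lit 0x30300,nat_lit 0x100300,nat_lit 0x1200,nat_lit 0x211300,nat_lit 0x2200,
    nat_lit 0x3200,nat_lit 0x12200,nat_lit 0x112200,nat_lit 0x22200,nat_lit 0x102200,nat_lit 0x11200,nat_lit 0x21200,
    nat_lit 0x31200,nat_lit 0x121200,nat_lit 0x111200,nat_lit 0x211200,nat_lit 0x221200,nat_lit 0x101200,
    nat_lit 0x201200,nat_lit 0x10200,nat_lit 0x20200,nat_lit 0x30200,nat_lit 0x130200,nat_lit 0x120200,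
    nat_lit 0x220200,nat_lit 0x230200,nat_lit 0x110200,nat_lit 0x210200,nat_lit 0x40200,nat_lit 0x1010200,
    nat_lit 0x100200,nat_lit 0x200200,nat_lit 0x1000200,nat_lit 0x1100,nat_lit 0x2100,nat_lit 0x202200,nat_lit 0x3100,
    nat_lit 0x4100,nat_lit 0x13100,nat_lit 0x103100,nat_lit 0x12100,nat_lit 0x22100,nat_lit 0x112100,nat_lit 0x122100,
    nat_lit 0x212100,nat_lit 0x32100,nat_lit 0x102100,nat_lit 0x202100,nat_lit 0x11100,nat_lit 0x21100,
    nat_lit 0x31100,nat_lit 0x131100,nat_lit 0x121100,nat_lit 0x221100,nat_lit 0x231100,nat_lit 0x111100,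
    nat_lit 0x211100,nat_lit 0x41100,nat_lit 0x1011100,nat_lit 0x101100,nat_lit 0x201100,nat_lit 0x1001100,
    nat_lit 0x10100,nat_lit 0x20100,nat_lit 0x30100,nat_lit 0x40100,nat_lit 0x140100,nat_lit 0x130100,
    nat_lit 0x230100,nat_lit 0x120100,nat_lit 0x220100,nat_lit 0x110100,nat_lit 0x320100,nat_lit 0x210100,
    nat_lit 0x310100,nat_lit 0x1010100,nat_lit 0x50100,nat_lit 0x1020100,nat_lit 0x1110100,nat_lit 0x100100,
    nat_lit 0x200100,nat_lit 0x1000100],[nat_lit 0x2000,nat_lit 0x3000,nat_lit 0x4000,nat_lit 0x5000,nat_lit 0x14000,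
    nat_lit 0x13000,nat_lit 0x23000,nat_lit 0x113000,nat_lit 0x103000,nat_lit 0x12000,nat_lit 0x22000,nat_lit 0x32000,
    nat_lit 0x122000,nat_lit 0x112000,nat_lit 0x212000,nat_lit 0x222000,nat_lit 0x102000,nat_lit 0x202000,
    nat_lit 0x11000,nat_lit 0x21000,nat_lit 0x31000,nat_lit 0x41000,nat_lit 0x131000,nat_lit 0x121000,
    nat_lit 0x221000,nat_lit 0x231000,nat_lit 0x111000,nat_lit 0x211000,nat_lit 0x101000,nat_lit 0x201000,
    nat_lit 0x1011000],[nat_lit 0x20000,nat_lit 0x30000,nat_lit 0x40000,nat_lit 0x50000,nat_lit 0x60000,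
    nat_lit 0x150000,nat_lit 0x140000,nat_lit 0x240000,nat_lit 0x130000,nat_lit 0x230000,nat_lit 0x1030000,
    nat_lit 0x120000,nat_lit 0x330000,nat_lit 0x220000,nat_lit 0x320000,nat_lit 0x1120000,nat_lit 0x1020000,
    nat_lit 0x110000,nat_lit 0x210000,nat_lit 0x310000,nat_lit 0x1220000,nat_lit 0x1210000,nat_lit 0x1110000,
    nat_lit 0x1010000],[nat_lit 0x200000,nat_lit 0x300000,nat_lit 0x1100000],[]]
    [.c (nat_lit 4) (nat_lit 0x4220003),.c (nat_lit 4) (nat_lit 0x4210803),.c (nat_lit 0) (nat_lit 0x80110a2),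
    .c (nat_lit 0) (nat_lit 0x4300862),.c (nat_lit 0) (nat_lit 0x4518862),.c (nat_lit 4) (nat_lit 0x4020062),
    .c (nat_lit 0) (nat_lit 0x318002),.c (nat_lit 0) (nat_lit 0x6328002),.c (nat_lit 2) (nat_lit 0x4210803),
    .c (nat_lit 6) (nat_lit 0x300c02),.c (nat_lit 0) (nat_lit 0x4201003),.c (nat_lit 0) (nat_lit 0x4001062),
    .c (nat_lit 0) (nat_lit 0x4001062),.c (nat_lit 4) (nat_lit 0x4030c62),.c (nat_lit 0) (nat_lit 0x4010862),
    .c (nat_lit 0) (nat_lit 0x328802),.c (nat_lit 0) (nat_lit 0x318002),.c (nat_lit 2) (nat_lit 2),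
    .r (nat_lit 45) (nat_lit 6) [nat_lit 65,nat_lit 0x180030061,nat_lit 0x200001],
    .r (nat_lit 40) (nat_lit 6) [nat_lit 66,nat_lit 0x200040062,nat_lit 0x200001],.c (nat_lit 0) (nat_lit 0x8001003),
    .c (nat_lit 0) (nat_lit 0x8001003),.c (nat_lit 0) (nat_lit 0x8001003),.c (nat_lit 2) (nat_lit 0x6000c02),
    .c (nat_lit 4) (nat_lit 0x8010803),.c (nat_lit 0) (nat_lit 0x8001003),
    .r (nat_lit 0x174b) (nat_lit 10) [nat_lit 0x200001,nat_lit 0xc0318801,nat_lit 0x80310861],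
    .r (nat_lit 0x1b8f) (nat_lit 9) [nat_lit 0x300041,nat_lit 0xc0318801,nat_lit 0x200001],
    .c (nat_lit 0) (nat_lit 0x318c43),.r (nat_lit 0x196b) (nat_lit 5) [nat_lit 0x200001,nat_lit 0xca729061,
    nat_lit 0xc4029061,nat_lit 0x146718841],.r (nat_lit 0x17ef) (nat_lit 10) [nat_lit 0x10001,nat_lit 0x146528841,
    nat_lit 0x6028861,nat_lit 0x4000861],.r (nat_lit 0x1b4d) (nat_lit 5) [nat_lit 0x80010061,nat_lit 0x200001,
    nat_lit 0xc0318801],.r (nat_lit 0x17ef) (nat_lit 10) [nat_lit 0x10001,nat_lit 0xc0018041,nat_lit 0xca539061,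
    nat_lit 0xc0519061],.c (nat_lit 1) (nat_lit 0x18043),.c (nat_lit 0) (nat_lit 0x318c43),
    .r (nat_lit 0x174b) (nat_lit 10) [nat_lit 0x200001,nat_lit 0xc0318801,nat_lit 0x310861],
    .c (nat_lit 0) (nat_lit 0x4010003),.c (nat_lit 1) (nat_lit 0x4210803),.c (nat_lit 4) (nat_lit 0x6000c02),
    .c (nat_lit 0) (nat_lit 0x6328002),.c (nat_lit 0) (nat_lit 0x4000803),
    .r (nat_lit 996) (nat_lit 6) [nat_lit 0xc4319061,nat_lit 0xc0318801,nat_lit 0x186822481,nat_lit 0x86411441,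
    nat_lit 0xc0519061],.r (nat_lit 997) (nat_lit 2) [nat_lit 0x4000861,nat_lit 0x106000861,nat_lit 0x146528841,
    nat_lit 0x4400c41,nat_lit 0x4020c41],.c (nat_lit 1) (nat_lit 0x218843),
    .r (nat_lit 997) (nat_lit 2) [nat_lit 0xc0519061,nat_lit 0x8a519061,nat_lit 0xc0018041,nat_lit 0x88811441,
    nat_lit 0x88431441],.r (nat_lit 0x174d) (nat_lit 1) [nat_lit 0xc0018041,nat_lit 0x310861],
    .c (nat_lit 4) (nat_lit 0x220062),.r (nat_lit 0x17ae) (nat_lit 10) [nat_lit 0x310001,nat_lit 0x200001,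
    nat_lit 0xc0318041,nat_lit 0x80200001],.r (nat_lit 0x174d) (nat_lit 1) [nat_lit 0x146528841,nat_lit 0x84220061],
    .c (nat_lit 0) (nat_lit 0xa338c42),.c (nat_lit 0) (nat_lit 0x4201003),
    .r (nat_lit 8) (nat_lit 6) [nat_lit 0x84030061,nat_lit 0x146338841],
    .r (nat_lit 0xfa0) (nat_lit 6) [nat_lit 0xc6448041,nat_lit 0x140529001,nat_lit 0x184040061,nat_lit 0x84040061],
    .r (nat_lit 4) (nat_lit 10) [nat_lit 0x104030061,nat_lit 0xc0228041],.c (nat_lit 5) (nat_lit 0x6000c02),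
    .c (nat_lit 0) (nat_lit 0x8001003),.r (nat_lit 0x174b) (nat_lit 4) [nat_lit 0x200001,nat_lit 0xc0318801,
    nat_lit 0x146338841],.c (nat_lit 0) (nat_lit 0x4001003),.c (nat_lit 0) (nat_lit 0x4000803),
    .c (nat_lit 6) (nat_lit 0x6000c02),.c (nat_lit 4) (nat_lit 0x4010803),.c (nat_lit 2) (nat_lit 0xc02),
    .c (nat_lit 0) (nat_lit 0x4300003),.c (nat_lit 0) (nat_lit 0x4300003),.c (nat_lit 4) (nat_lit 0x4020003),
    .c (nat_lit 0) (nat_lit 0x862),.c (nat_lit 0) (nat_lit 0x4001003),.c (nat_lit 3) (nat_lit 2),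
    .r (nat_lit 999) (nat_lit 2) [nat_lit 0x1c0739861,nat_lit 0xe739861,nat_lit 65,nat_lit 0x18cc31c41,
    nat_lit 0x18c661c41],.r (nat_lit 997) (nat_lit 2) [nat_lit 0x24094a062,nat_lit 0x1294a062,nat_lit 66,
    nat_lit 0x211042442,nat_lit 0x210882442],.r (nat_lit 0x3e8) (nat_lit 2) [nat_lit 0x2c0b5a861,nat_lit 0x16b5a861,
    nat_lit 65,nat_lit 0x295452c41,nat_lit 0x294aa2c41],.r (nat_lit 0x3e9) (nat_lit 2) [nat_lit 0x340d6b062,
    nat_lit 0x1ad6b062,nat_lit 66,nat_lit 0x319863442,nat_lit 0x318cc3442],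
    .r (nat_lit 0x3ea) (nat_lit 2) [nat_lit 0x3c0f7b861,nat_lit 0x1ef7b861,nat_lit 65,nat_lit 0x39dc73c41,
    nat_lit 0x39cee3c41],.r (nat_lit 0x3eb) (nat_lit 6) [nat_lit 0x300e53441,nat_lit 0xc0318801,nat_lit 0x5c59ae0a1,
    nat_lit 0x340d5b061,nat_lit 0x306c53441],.r (nat_lit 0x3ec) (nat_lit 6) [nat_lit 0x280a52c41,nat_lit 0xc0318801,
    nat_lit 0x4c51ad0a1,nat_lit 0x2c095a861,nat_lit 0x286852c41],.r (nat_lit 0x3ed) (nat_lit 6) [nat_lit 0x280c42c41,
    nat_lit 0xc0318801,nat_lit 0x4c558d0a1,nat_lit 0x2c0b4a861,nat_lit 0x286a42c41],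
    .r (nat_lit 0x3ee) (nat_lit 6) [nat_lit 0x280e32c41,nat_lit 0x140529001,nat_lit 0x44956d0a1,nat_lit 0x2c0b3a861,
    nat_lit 0x28aa32c41],.r (nat_lit 0x3ef) (nat_lit 6) [nat_lit 0x284c52c41,nat_lit 0xc0318801,nat_lit 0x4c75ad0a1,
    nat_lit 0x2c6b5a861,nat_lit 0x280a52c41],.r (nat_lit 0x3ef) (nat_lit 6) [nat_lit 0x200842441,nat_lit 0xc0318801,
    nat_lit 0x3c4d8c0a1,nat_lit 0x24074a061,nat_lit 0x206642441],.c (nat_lit 0) (nat_lit 0x29002),
    .r (nat_lit 0x3f0) (nat_lit 6) [nat_lit 0x200a32441,nat_lit 0x140529001,nat_lit 0x348d6c0a1,nat_lit 0x24073a061,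
    nat_lit 0x20a632441],.c (nat_lit 0) (nat_lit 0x4201862),.r (nat_lit 0x3f1) (nat_lit 6) [nat_lit 0x200a32441,
    nat_lit 0xc0318801,nat_lit 0x3c516c0a1,nat_lit 0x24093a061,nat_lit 0x206832441],
    .r (nat_lit 0x3f2) (nat_lit 6) [nat_lit 0x200c22442,nat_lit 0xc0318801,nat_lit 0x1c492a061,nat_lit 0x24092a062,
    nat_lit 0x20a822442],.r (nat_lit 0x3f3) (nat_lit 6) [nat_lit 0x204c32441,nat_lit 0x140529001,nat_lit 0x34116c0a1,
    nat_lit 0x24693a061,nat_lit 0x206832441],.r (nat_lit 0x3f4) (nat_lit 6) [nat_lit 0x204a42441,nat_lit 0xc0318801,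
    nat_lit 0x3c718c0a1,nat_lit 0x24694a061,nat_lit 0x200842441],.r (nat_lit 0x3f4) (nat_lit 6) [nat_lit 0x180631c41,
    nat_lit 0xc0318801,nat_lit 0x2c496b0a1,nat_lit 0x1c0539861,nat_lit 0x186431c41],.c (nat_lit 0) (nat_lit 0x29002),
    .c (nat_lit 0) (nat_lit 0x29002),.r (nat_lit 0x3f3) (nat_lit 6) [nat_lit 0x180821c41,nat_lit 0x140529001,
    nat_lit 0x24894b0a1,nat_lit 0x1c0529861,nat_lit 0x18a421c41],.r (nat_lit 0x3f5) (nat_lit 6) [nat_lit 0x600001,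
    nat_lit 0x328041,nat_lit 0x30c411c41,nat_lit 0x1c0519861,nat_lit 0x1ce519861],.c (nat_lit 0) (nat_lit 0x4201862),
    .c (nat_lit 0) (nat_lit 0x4201862),.c (nat_lit 0) (nat_lit 0x39802),.c (nat_lit 0) (nat_lit 0x84128a2),
    .r (nat_lit 0x3f6) (nat_lit 6) [nat_lit 0x180821c41,nat_lit 0xc0318801,nat_lit 0x2c4d4b0a1,nat_lit 0x1c0729861,
    nat_lit 0x186621c41],.r (nat_lit 0x3f7) (nat_lit 6) [nat_lit 0x180a11c41,nat_lit 0x140529001,nat_lit 0x248d2b0a1,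
    nat_lit 0x1c0719861,nat_lit 0x18a611c41],.r (nat_lit 0x3f8) (nat_lit 6) [nat_lit 0x400001,nat_lit 0x84218c41,
    nat_lit 0x28c611c41,nat_lit 0x1c6719861,nat_lit 0x1ce719861],.r (nat_lit 0x3f9) (nat_lit 6) [nat_lit 0x400001,
    nat_lit 0x84200c41,nat_lit 0x28c621c41,nat_lit 0x1c6729861,nat_lit 0x1ce729861],
    .c (nat_lit 0) (nat_lit 0x84220a2),.c (nat_lit 0) (nat_lit 0x84220a2),
    .r (nat_lit 0x3fa) (nat_lit 6) [nat_lit 0x600001,nat_lit 0x38041,nat_lit 0x30c601c41,nat_lit 0x1c0701861,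
    nat_lit 0x1ce701861],.r (nat_lit 0x3f2) (nat_lit 6) [nat_lit 0x184831c41,nat_lit 0xc0318801,nat_lit 0x2c6d6b0a1,
    nat_lit 0x1c6739861,nat_lit 0x180631c41],.r (nat_lit 0x3f2) (nat_lit 6) [nat_lit 0x100421441,nat_lit 0xc0318801,
    nat_lit 0x1c454a0a1,nat_lit 0x140329061,nat_lit 0x106221441],.c (nat_lit 0) (nat_lit 0x84128a2),
    .c (nat_lit 0) (nat_lit 0x29002),.c (nat_lit 0) (nat_lit 0x39802),.c (nat_lit 0) (nat_lit 0x29002),
    .c (nat_lit 0) (nat_lit 0x421a062),.c (nat_lit 0) (nat_lit 0x29002),.c (nat_lit 0) (nat_lit 0x421a062),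
    .r (nat_lit 0x3f9) (nat_lit 6) [nat_lit 0x400001,nat_lit 0x318041,nat_lit 0x208211441,nat_lit 0x140319061,
    nat_lit 0x14a319061],.r (nat_lit 0x3f8) (nat_lit 6) [nat_lit 0x400001,nat_lit 0x328041,nat_lit 0x208201441,
    nat_lit 0x140301061,nat_lit 0x14a301061],.r (nat_lit 0x3fb) (nat_lit 6) [nat_lit 0x400001,nat_lit 0x338041,
    nat_lit 0x208219441,nat_lit 0x140311061,nat_lit 0x14a311061],.c (nat_lit 0) (nat_lit 0x4201862),
    .c (nat_lit 0) (nat_lit 0x4201862),.c (nat_lit 0) (nat_lit 0x84128a2),.c (nat_lit 0) (nat_lit 0x84128a2),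
    .c (nat_lit 0) (nat_lit 0x4201862),.c (nat_lit 0) (nat_lit 0x84128a2),
    .r (nat_lit 0x3fc) (nat_lit 6) [nat_lit 0x100611441,nat_lit 0xc0318801,nat_lit 0x1c492a0a1,nat_lit 0x140519061,
    nat_lit 0x106411441],.r (nat_lit 0x174d) (nat_lit 1) [nat_lit 66,nat_lit 0x140501062],
    .r (nat_lit 0x3fd) (nat_lit 6) [nat_lit 0x400001,nat_lit 0x38041,nat_lit 0x208419441,nat_lit 0x140511061,
    nat_lit 0x14a511061],.r (nat_lit 0x3fe) (nat_lit 6) [nat_lit 0x200001,nat_lit 0x84228c41,nat_lit 0x188419441,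
    nat_lit 0x146511061,nat_lit 0x14a511061],.r (nat_lit 0x3ff) (nat_lit 6) [nat_lit 0x200001,nat_lit 0x84218c41,
    nat_lit 0x188401441,nat_lit 0x146501061,nat_lit 0x14a501061],.c (nat_lit 4) (nat_lit 0x84600a2),
    .c (nat_lit 4) (nat_lit 0x8470ca2),.r (nat_lit 0x1347) (nat_lit 6) [nat_lit 0x104811441,nat_lit 0x140529001,
    nat_lit 0x6519061,nat_lit 0x146519061],.c (nat_lit 4) (nat_lit 0x84508a2),
    .r (nat_lit 0x1347) (nat_lit 6) [nat_lit 0x100c29442,nat_lit 0x140529001,nat_lit 0x100521062,nat_lit 0x140521062],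
    .r (nat_lit 997) (nat_lit 2) [nat_lit 0x140519061,nat_lit 0xa519061,nat_lit 0x18041,nat_lit 0x108811441,
    nat_lit 0x108431441],.r (nat_lit 0x174d) (nat_lit 1) [nat_lit 0x84220c41,nat_lit 0x146529061],
    .c (nat_lit 4) (nat_lit 0x84410a2),.r (nat_lit 0x17ef) (nat_lit 10) [nat_lit 0x10001,nat_lit 0x18041,
    nat_lit 0x14a539061,nat_lit 0x140519061],.r (nat_lit 0x174d) (nat_lit 1) [nat_lit 0x310041,nat_lit 0xc0018861],
    .c (nat_lit 0) (nat_lit 0x29002),.c (nat_lit 0) (nat_lit 0x84030a2),.c (nat_lit 0) (nat_lit 0x39802),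
    .c (nat_lit 0) (nat_lit 0x4a002),.c (nat_lit 0) (nat_lit 0x39802),.c (nat_lit 0) (nat_lit 0x422a862),
    .c (nat_lit 0) (nat_lit 0x29002),.c (nat_lit 0) (nat_lit 0x29002),.c (nat_lit 0) (nat_lit 0x421a062),
    .c (nat_lit 0) (nat_lit 0x421a062),.c (nat_lit 0) (nat_lit 0x421a062),.c (nat_lit 0) (nat_lit 0x29002),
    .c (nat_lit 0) (nat_lit 0x421a062),.c (nat_lit 0) (nat_lit 0x421a062),
    .r (nat_lit 0x1347) (nat_lit 6) [nat_lit 0x80400c41,nat_lit 0x140529001,nat_lit 0x80000861,nat_lit 0xc0000861],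
    .r (nat_lit 0x3ff) (nat_lit 6) [nat_lit 0x200001,nat_lit 0x328041,nat_lit 0x104018c41,nat_lit 0xc0010861,
    nat_lit 0xc6010861],.r (nat_lit 0x3fe) (nat_lit 6) [nat_lit 0x200001,nat_lit 0x338041,nat_lit 0x104028c41,
    nat_lit 0xc0020861,nat_lit 0xc6020861],.c (nat_lit 4) (nat_lit 0x4251462),.c (nat_lit 4) (nat_lit 0x4240c62),
    .c (nat_lit 0) (nat_lit 0x4201862),.c (nat_lit 0) (nat_lit 0x4201862),.c (nat_lit 4) (nat_lit 0x4230062),
    .c (nat_lit 0) (nat_lit 0x4201862),.r (nat_lit 0x400) (nat_lit 6) [nat_lit 0x200001,nat_lit 0x348041,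
    nat_lit 0x104038c41,nat_lit 0xc0030861,nat_lit 0xc6030861],.c (nat_lit 0) (nat_lit 0x18002),
    .c (nat_lit 4) (nat_lit 0x4220862),.c (nat_lit 0) (nat_lit 0x4201862),.c (nat_lit 0) (nat_lit 0x18002),
    .r (nat_lit 8) (nat_lit 6) [nat_lit 0xc0300861,nat_lit 65],.r (nat_lit 0xfa0) (nat_lit 6) [nat_lit 0x80618c41,
    nat_lit 0x140529001,nat_lit 0x80310861,nat_lit 0xc0310861],.r (nat_lit 0x401) (nat_lit 6) [nat_lit 0x200001,
    nat_lit 0x38041,nat_lit 0x104228c41,nat_lit 0xc0320861,nat_lit 0xc6320861],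
    .r (nat_lit 0x402) (nat_lit 6) [nat_lit 0x104e38c41,nat_lit 0x4529ca081,nat_lit 0x1105610a1,nat_lit 0x146330861,
    nat_lit 0x206330861],.r (nat_lit 0x403) (nat_lit 11) [nat_lit 0xc6330861,nat_lit 0x2c0b5a801,nat_lit 0x40c6b1ca1,
    nat_lit 0x84c38c41,nat_lit 0x84220c41],.r (nat_lit 0x404) (nat_lit 11) [nat_lit 0xc6320861,nat_lit 0x24094a001,
    nat_lit 0x3084814a1,nat_lit 0x84a28c41,nat_lit 0x84220c41],.r (nat_lit 0x405) (nat_lit 6) [nat_lit 0x200001,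
    nat_lit 0x14a511061,nat_lit 0x6320861,nat_lit 0x88228c41,nat_lit 0x84228c41],
    .r (nat_lit 0x18d0) (nat_lit 0) [nat_lit 0x84220c41,nat_lit 0xc6310861,nat_lit 0x84818c41,nat_lit 0xc0318801],
    .r (nat_lit 0x139f) (nat_lit 4) [nat_lit 0x400001,nat_lit 0x14a929001,nat_lit 0x108821441,nat_lit 0x100020061],
    .r (nat_lit 4) (nat_lit 10) [nat_lit 0x300861,nat_lit 0x84410c41],
    .r (nat_lit 0x1b8f) (nat_lit 9) [nat_lit 0x86510861,nat_lit 0xc0318801,nat_lit 0x200001],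
    .r (nat_lit 0x174b) (nat_lit 4) [nat_lit 0x200001,nat_lit 0xc0318801,nat_lit 65],
    .r (nat_lit 40) (nat_lit 6) [nat_lit 0x86300861,nat_lit 0x84220c41,nat_lit 0x200001],
    .c (nat_lit 1) (nat_lit 0x6018043),.r (nat_lit 0x407) (nat_lit 6) [nat_lit 0x200001,nat_lit 0x58041,
    nat_lit 0x104248c41,nat_lit 0xc0340861,nat_lit 0xc6340861],.r (nat_lit 0x174d) (nat_lit 1) [nat_lit 0x18041,
    nat_lit 0xc0310861],.c (nat_lit 4) (nat_lit 0x4220062),.c (nat_lit 5) (nat_lit 0x4211062),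
    .c (nat_lit 0) (nat_lit 0x318c43),.c (nat_lit 0) (nat_lit 0x6318c43),.c (nat_lit 4) (nat_lit 2),
    .c (nat_lit 0) (nat_lit 0x39802),.c (nat_lit 0) (nat_lit 0x4a002),.c (nat_lit 0) (nat_lit 0x5a802),
    .c (nat_lit 0) (nat_lit 0x4a002),.c (nat_lit 0) (nat_lit 0x39802),.c (nat_lit 0) (nat_lit 0x39802),
    .c (nat_lit 0) (nat_lit 0x39802),.c (nat_lit 0) (nat_lit 0x39802),.c (nat_lit 4) (nat_lit 0x10c02),
    .c (nat_lit 4) (nat_lit 0x21402),.c (nat_lit 4) (nat_lit 0x31c02),.c (nat_lit 0) (nat_lit 0x29002),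
    .c (nat_lit 0) (nat_lit 0x29002),.c (nat_lit 0) (nat_lit 0x29002),.c (nat_lit 0) (nat_lit 0x29002),
    .c (nat_lit 0) (nat_lit 0x29002),.c (nat_lit 2) (nat_lit 0x8020003),
    .r (nat_lit 4) (nat_lit 10) [nat_lit 0x84210061,nat_lit 65],.r (nat_lit 0x18d0) (nat_lit 0) [nat_lit 0x310041,
    nat_lit 0x220061,nat_lit 0x428041,nat_lit 0xc0318801],.r (nat_lit 0x404) (nat_lit 11) [nat_lit 0x230061,
    nat_lit 0x24094a001,nat_lit 0x410ca24a1,nat_lit 0x638041,nat_lit 0x310041],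
    .r (nat_lit 0x403) (nat_lit 11) [nat_lit 0x240061,nat_lit 0x2c0b5a801,nat_lit 0x514ed2ca1,nat_lit 0x848041,
    nat_lit 0x310041],.r (nat_lit 0x405) (nat_lit 6) [nat_lit 0x200001,nat_lit 0xc6020861,nat_lit 0x80230061,
    nat_lit 0x4338041,nat_lit 0x338041],.r (nat_lit 0x139f) (nat_lit 4) [nat_lit 0x400001,nat_lit 0x14a929001,
    nat_lit 0x84410c41,nat_lit 0x184430c61],.r (nat_lit 0x1b8f) (nat_lit 9) [nat_lit 0x100020061,nat_lit 0xc0318801,
    nat_lit 0x200001],.r (nat_lit 0x408) (nat_lit 6) [nat_lit 0x400001,nat_lit 0x14a311061,nat_lit 0x100230061,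
    nat_lit 0x8338041,nat_lit 0x338041],.r (nat_lit 0x174b) (nat_lit 4) [nat_lit 0x200001,nat_lit 0xc0318801,
    nat_lit 0xc6518841],.r (nat_lit 40) (nat_lit 6) [nat_lit 0x100210061,nat_lit 0x310041,nat_lit 0x200001],
    .c (nat_lit 0) (nat_lit 0x4010003),.r (nat_lit 0x174b) (nat_lit 10) [nat_lit 0x200001,nat_lit 0xc0318801,
    nat_lit 0x4320041],.c (nat_lit 4) (nat_lit 0xc02),.c (nat_lit 5) (nat_lit 2),
    .r (nat_lit 0x409) (nat_lit 11) [nat_lit 0x30061,nat_lit 0x1c0739801,nat_lit 0x30c691ca1,nat_lit 0x638041,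
    nat_lit 65],.r (nat_lit 4) (nat_lit 10) [nat_lit 0x108040062,nat_lit 0x428042],
    .r (nat_lit 0x40a) (nat_lit 11) [nat_lit 0x50061,nat_lit 0x2c0b5a801,nat_lit 0x514af2ca1,nat_lit 0xa58041,
    nat_lit 65],.r (nat_lit 0x18d0) (nat_lit 0) [nat_lit 66,nat_lit 0x60062,nat_lit 0xc68042,nat_lit 0xc0318801],
    .r (nat_lit 0x40b) (nat_lit 6) [nat_lit 0x200001,nat_lit 0xc6340861,nat_lit 0x80050061,nat_lit 0x4058041,
    nat_lit 0x58041],.r (nat_lit 0x40c) (nat_lit 6) [nat_lit 0x200001,nat_lit 0xc6330861,nat_lit 0x80040061,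
    nat_lit 0x4048041,nat_lit 0x48041],.r (nat_lit 0x174b) (nat_lit 4) [nat_lit 0x200001,nat_lit 0xc0318801,
    nat_lit 0x14a549042],.r (nat_lit 0x40d) (nat_lit 6) [nat_lit 0x200001,nat_lit 0xc6320861,nat_lit 0x80030061,
    nat_lit 0x4038041,nat_lit 0x38041],.r (nat_lit 0x40e) (nat_lit 6) [nat_lit 0x140238041,nat_lit 0x346378881,
    nat_lit 0x2840600a1,nat_lit 0x100030061,nat_lit 0x180030061],.r (nat_lit 4) (nat_lit 10) [nat_lit 0x84030061,
    nat_lit 0x228041],.c (nat_lit 0) (nat_lit 0x4001003),.r (nat_lit 75) (nat_lit 6) [nat_lit 0x180030061,nat_lit 65,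
    nat_lit 0x200001],.c (nat_lit 0) (nat_lit 0x8001003),.r (nat_lit 0x40f) (nat_lit 6) [nat_lit 0x180220061,
    nat_lit 0x2063308a1,nat_lit 0x2c4048081,nat_lit 0x1c0028041,nat_lit 0x140028041],
    .c (nat_lit 0) (nat_lit 0x4001003),.c (nat_lit 5) (nat_lit 0xc02),.c (nat_lit 0) (nat_lit 0x4000803),
    .c (nat_lit 0) (nat_lit 0x8318845),.r (nat_lit 0x410) (nat_lit 6) [nat_lit 0x218041,nat_lit 0xc6328841,
    nat_lit 0x80010061,nat_lit 0x4010061,nat_lit 0x10061],.r (nat_lit 0x174b) (nat_lit 10) [nat_lit 0x200001,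
    nat_lit 0xc0318801,nat_lit 0x4000041],.r (nat_lit 0x17ae) (nat_lit 10) [nat_lit 0x310001,nat_lit 0x200001,
    nat_lit 0xc6500861,nat_lit 0x80200001],.c (nat_lit 6) (nat_lit 0xc02),.c (nat_lit 0) (nat_lit 0x803),
    .c (nat_lit 6) (nat_lit 2),.r (nat_lit 0x411) (nat_lit 6) [nat_lit 0x600001,nat_lit 0x1ce739861,
    nat_lit 0x180000061,nat_lit 0xc000041,nat_lit 65],.c (nat_lit 0) (nat_lit 0x300003)]]

/-- nodes -/
noncomputable def rD7k_20_26 : List RJ :=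
  [.s (nat_lit 15) (nat_lit 0x1680) (nat_lit 7) (nat_lit 0xab400000ab400000d8400000d84000008f6000008f600000a8a00000a8a00000a8e00000a8e00000a6e00000a6e0000085e00000cde) (nat_lit 0x2d0000002d000000000000000000000048e0000048e000002fa000002fa000002f6000002f60000031600000316000000a600000526)
    (nat_lit 0xfc81dd055a0a700c4c16d83dd07da1d6420583cf07fa141c14783f207e415682ad02bd06260f741ee872d07be0e8c1f4852904c6156829c06c20d8411ec23d85450b3614b42a3859b03d219bc22d855a0ab41b0836103cd08f616742f98519091615bc29b86a7085e0c4c16d847b08f6061811a03ba07580c0015402f0063c10a00d802bd06260f3423d8234030c0c3017f030006000bf8196041803d00f741f685f30b360bf81d603c807900e381de03ba077413c815203dd07ba16742a2830c07740f201e403ca07940e381dd04c605880f7c205848b0a8e0c0015403ca07780f301e603aa077813d0170072d0eb21464296830006000f281c703cc07980f281de04c605680fa41fe853703d20cb018f03ba07740ef01de03ac075805a814b03a3079e15bc2cd82fe05e00e381dd03ca07540eb01d6051c0548098c147842f08b607a00d802c405480ad017002a4052c0f700ce05290a0e1a9c33784180850131827904c609e814700b5065407b8)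
    (nat_lit 0xfc85a00b4016802d005a00b4016802d005a00b4016802d005a003ba07e42d005a00b4016802d005a00b4016802d005a00b40168015682ad06c216802d005a00b4016802d005a00b4016802d005a005380ab41b083610b4016802d005a00b4016802d005a00b4016800c4c15e847b079a06185a00b4016802d005a00b4016802d005a002db062611ec23d8234030c2d005a00b4016802d005a00b4016800f741ee85450b3a0ee818603c816802d005a00b4016802d005a003ed07ba166c2f983ac05fc0f201e40b4016802d005a00b401680176c2de852d0a320c00180038e07940f305a00b4016802d005a0040b07be151c24582a806000ef01e503cc07982d005a00b4016800f3c1d1859b0ade0bc017f03ba071c0ea81e503ac16802d005a003fd07d207a429b831e06580ee81dd03bc07780eb01d60b401680141c286866f0d4e10a020c04f2098c13d0263016a0a2c0f705a0028f04c6116c21781b003d00a9016202e005680a58152019c07b8)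
    (nat_lit 5) (nat_lit 161)
    [[nat_lit 0,nat_lit 0,nat_lit 2,nat_lit 4],[nat_lit 0,nat_lit 2,nat_lit 1,nat_lit 4],[nat_lit 0,nat_lit 2,
    nat_lit 1,nat_lit 5],[nat_lit 0,nat_lit 2,nat_lit 4,nat_lit 0],[nat_lit 0,nat_lit 2,nat_lit 4,nat_lit 1],
    [nat_lit 0,nat_lit 2,nat_lit 6,nat_lit 9,nat_lit 9],[nat_lit 0,nat_lit 2,nat_lit 7,nat_lit 9,nat_lit 9],
    [nat_lit 0,nat_lit 2,nat_lit 10],[nat_lit 0,nat_lit 2,nat_lit 11],[nat_lit 0,nat_lit 3,nat_lit 1,nat_lit 4],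
    [nat_lit 0,nat_lit 3,nat_lit 1,nat_lit 5],[nat_lit 0,nat_lit 3,nat_lit 10],[nat_lit 0,nat_lit 3,nat_lit 11],
    [nat_lit 0,nat_lit 5,nat_lit 3,nat_lit 1],[nat_lit 0,nat_lit 5,nat_lit 7],[nat_lit 0,nat_lit 6,nat_lit 5],
    [nat_lit 0,nat_lit 7,nat_lit 4],[nat_lit 0,nat_lit 7,nat_lit 5],[nat_lit 0,nat_lit 11,nat_lit 2],[nat_lit 1,
    nat_lit 1,nat_lit 5,nat_lit 3],[nat_lit 1,nat_lit 3,nat_lit 10],[nat_lit 1,nat_lit 4,nat_lit 6],[nat_lit 1,
    nat_lit 4,nat_lit 7],[nat_lit 1,nat_lit 5,nat_lit 3,nat_lit 1],[nat_lit 1,nat_lit 5,nat_lit 6],[nat_lit 1,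
    nat_lit 6,nat_lit 4],[nat_lit 1,nat_lit 8,nat_lit 8,nat_lit 6,nat_lit 3],[nat_lit 1,nat_lit 8,nat_lit 8,nat_lit 7,
    nat_lit 3],[nat_lit 1,nat_lit 10,nat_lit 2],[nat_lit 1,nat_lit 10,nat_lit 3],[nat_lit 1,nat_lit 11,nat_lit 2],
    [nat_lit 1,nat_lit 11,nat_lit 3],[nat_lit 2,nat_lit 8,nat_lit 8,nat_lit 13],[nat_lit 2,nat_lit 12,nat_lit 9,
    nat_lit 9],[nat_lit 2,nat_lit 13,nat_lit 8,nat_lit 8],[nat_lit 2,nat_lit 13,nat_lit 9,nat_lit 9],[nat_lit 3,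
    nat_lit 8,nat_lit 8,nat_lit 12],[nat_lit 3,nat_lit 8,nat_lit 8,nat_lit 13],[nat_lit 3,nat_lit 9,nat_lit 9,
    nat_lit 12],[nat_lit 3,nat_lit 12,nat_lit 9,nat_lit 9],[nat_lit 4,nat_lit 12],[nat_lit 4,nat_lit 13],[nat_lit 5,
    nat_lit 12],[nat_lit 5,nat_lit 13],[nat_lit 6,nat_lit 10],[nat_lit 6,nat_lit 11],[nat_lit 7,nat_lit 10],
    [nat_lit 7,nat_lit 11]]
    [nat_lit 0x10024,nat_lit 0x10214,nat_lit 0x10215,nat_lit 0x10240,nat_lit 0x10241,nat_lit 0x102699,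
    nat_lit 0x102799,nat_lit 0x102a,nat_lit 0x102b,nat_lit 0x10314,nat_lit 0x10315,nat_lit 0x103a,nat_lit 0x103b,
    nat_lit 0x10531,nat_lit 0x1057,nat_lit 0x1065,nat_lit 0x1074,nat_lit 0x1075,nat_lit 0x10b2,nat_lit 0x11153,
    nat_lit 0x113a,nat_lit 0x1146,nat_lit 0x1147,nat_lit 0x11531,nat_lit 0x1156,nat_lit 0x1164,nat_lit 0x118863,
    nat_lit 0x118873,nat_lit 0x11a2,nat_lit 0x11a3,nat_lit 0x11b2,nat_lit 0x11b3,nat_lit 0x1288d,nat_lit 0x12c99,
    nat_lit 0x12d88,nat_lit 0x12d99,nat_lit 0x1388c,nat_lit 0x1388d,nat_lit 0x1399c,nat_lit 0x13c99,nat_lit 332,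
    nat_lit 333,nat_lit 348,nat_lit 349,nat_lit 362,nat_lit 363,nat_lit 378,nat_lit 379]
    [[[nat_lit 0,nat_lit 0,nat_lit 2,nat_lit 4],[nat_lit 0,nat_lit 2,nat_lit 1,nat_lit 4],[nat_lit 0,nat_lit 2,
    nat_lit 1,nat_lit 5],[nat_lit 0,nat_lit 2,nat_lit 4,nat_lit 0],[nat_lit 0,nat_lit 2,nat_lit 4,nat_lit 1],
    [nat_lit 0,nat_lit 2,nat_lit 6,nat_lit 9,nat_lit 9],[nat_lit 0,nat_lit 2,nat_lit 7,nat_lit 9,nat_lit 9],
    [nat_lit 0,nat_lit 2,nat_lit 10],[nat_lit 0,nat_lit 2,nat_lit 11],[nat_lit 0,nat_lit 3,nat_lit 1,nat_lit 4],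
    [nat_lit 0,nat_lit 3,nat_lit 1,nat_lit 5],[nat_lit 0,nat_lit 3,nat_lit 10]],[[nat_lit 0,nat_lit 3,nat_lit 11],
    [nat_lit 0,nat_lit 5,nat_lit 3,nat_lit 1],[nat_lit 0,nat_lit 5,nat_lit 7],[nat_lit 0,nat_lit 6,nat_lit 5],
    [nat_lit 0,nat_lit 7,nat_lit 4],[nat_lit 0,nat_lit 7,nat_lit 5],[nat_lit 0,nat_lit 11,nat_lit 2],[nat_lit 1,
    nat_lit 0,nat_lit 2,nat_lit 4],[nat_lit 1,nat_lit 0,nat_lit 5,nat_lit 3],[nat_lit 1,nat_lit 1,nat_lit 5,
    nat_lit 3],[nat_lit 1,nat_lit 3,nat_lit 10],[nat_lit 1,nat_lit 4,nat_lit 0,nat_lit 2]],[[nat_lit 1,nat_lit 4,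
    nat_lit 0,nat_lit 3],[nat_lit 1,nat_lit 4,nat_lit 6],[nat_lit 1,nat_lit 4,nat_lit 7],[nat_lit 1,nat_lit 5,
    nat_lit 0,nat_lit 2],[nat_lit 1,nat_lit 5,nat_lit 0,nat_lit 3],[nat_lit 1,nat_lit 5,nat_lit 3,nat_lit 1],
    [nat_lit 1,nat_lit 5,nat_lit 6],[nat_lit 1,nat_lit 6,nat_lit 4],[nat_lit 1,nat_lit 8,nat_lit 8,nat_lit 6,
    nat_lit 3],[nat_lit 1,nat_lit 8,nat_lit 8,nat_lit 7,nat_lit 3],[nat_lit 1,nat_lit 10,nat_lit 2],[nat_lit 1,
    nat_lit 10,nat_lit 3]],[[nat_lit 1,nat_lit 11,nat_lit 2],[nat_lit 1,nat_lit 11,nat_lit 3],[nat_lit 2,nat_lit 0,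
    nat_lit 11],[nat_lit 2,nat_lit 1,nat_lit 4,nat_lit 0],[nat_lit 2,nat_lit 1,nat_lit 5,nat_lit 0],[nat_lit 2,
    nat_lit 1,nat_lit 10],[nat_lit 2,nat_lit 1,nat_lit 11],[nat_lit 2,nat_lit 4,nat_lit 0,nat_lit 0],[nat_lit 2,
    nat_lit 4,nat_lit 1,nat_lit 0],[nat_lit 2,nat_lit 6,nat_lit 9,nat_lit 9,nat_lit 0],[nat_lit 2,nat_lit 7,nat_lit 9,
    nat_lit 9,nat_lit 0],[nat_lit 2,nat_lit 8,nat_lit 8,nat_lit 13]],[[nat_lit 2,nat_lit 10,nat_lit 0],[nat_lit 2,
    nat_lit 11,nat_lit 0],[nat_lit 2,nat_lit 12,nat_lit 9,nat_lit 9],[nat_lit 2,nat_lit 13,nat_lit 8,nat_lit 8],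
    [nat_lit 2,nat_lit 13,nat_lit 9,nat_lit 9],[nat_lit 3,nat_lit 1,nat_lit 0,nat_lit 5],[nat_lit 3,nat_lit 1,
    nat_lit 1,nat_lit 5],[nat_lit 3,nat_lit 1,nat_lit 4,nat_lit 0],[nat_lit 3,nat_lit 1,nat_lit 5,nat_lit 0],
    [nat_lit 3,nat_lit 1,nat_lit 8,nat_lit 8,nat_lit 6],[nat_lit 3,nat_lit 1,nat_lit 8,nat_lit 8,nat_lit 7],
    [nat_lit 3,nat_lit 1,nat_lit 10]],[[nat_lit 3,nat_lit 1,nat_lit 11],[nat_lit 3,nat_lit 8,nat_lit 8,nat_lit 12],
    [nat_lit 3,nat_lit 8,nat_lit 8,nat_lit 13],[nat_lit 3,nat_lit 9,nat_lit 9,nat_lit 12],[nat_lit 3,nat_lit 10,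
    nat_lit 0],[nat_lit 3,nat_lit 10,nat_lit 1],[nat_lit 3,nat_lit 11,nat_lit 0],[nat_lit 3,nat_lit 12,nat_lit 9,
    nat_lit 9],[nat_lit 4,nat_lit 0,nat_lit 0,nat_lit 2],[nat_lit 4,nat_lit 0,nat_lit 2,nat_lit 1],[nat_lit 4,
    nat_lit 0,nat_lit 3,nat_lit 1],[nat_lit 4,nat_lit 0,nat_lit 7]],[[nat_lit 4,nat_lit 1,nat_lit 0,nat_lit 2],
    [nat_lit 4,nat_lit 1,nat_lit 6],[nat_lit 4,nat_lit 6,nat_lit 1],[nat_lit 4,nat_lit 7,nat_lit 1],[nat_lit 4,
    nat_lit 12],[nat_lit 4,nat_lit 13],[nat_lit 5,nat_lit 0,nat_lit 2,nat_lit 1],[nat_lit 5,nat_lit 0,nat_lit 3,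
    nat_lit 1],[nat_lit 5,nat_lit 0,nat_lit 6],[nat_lit 5,nat_lit 0,nat_lit 7],[nat_lit 5,nat_lit 3,nat_lit 1,
    nat_lit 0],[nat_lit 5,nat_lit 3,nat_lit 1,nat_lit 1]],[[nat_lit 5,nat_lit 6,nat_lit 1],[nat_lit 5,nat_lit 7,
    nat_lit 0],[nat_lit 5,nat_lit 12],[nat_lit 5,nat_lit 13],[nat_lit 6,nat_lit 1,nat_lit 4],[nat_lit 6,nat_lit 1,
    nat_lit 5],[nat_lit 6,nat_lit 3,nat_lit 1,nat_lit 8,nat_lit 8],[nat_lit 6,nat_lit 4,nat_lit 1],[nat_lit 6,
    nat_lit 5,nat_lit 0],[nat_lit 6,nat_lit 9,nat_lit 9,nat_lit 0,nat_lit 2],[nat_lit 6,nat_lit 10],[nat_lit 6,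
    nat_lit 11]],[[nat_lit 7,nat_lit 0,nat_lit 5],[nat_lit 7,nat_lit 1,nat_lit 4],[nat_lit 7,nat_lit 3,nat_lit 1,
    nat_lit 8,nat_lit 8],[nat_lit 7,nat_lit 4,nat_lit 0],[nat_lit 7,nat_lit 5,nat_lit 0],[nat_lit 7,nat_lit 9,
    nat_lit 9,nat_lit 0,nat_lit 2],[nat_lit 7,nat_lit 10],[nat_lit 7,nat_lit 11],[nat_lit 8,nat_lit 2,nat_lit 13,
    nat_lit 8],[nat_lit 8,nat_lit 6,nat_lit 3,nat_lit 1,nat_lit 8],[nat_lit 8,nat_lit 7,nat_lit 3,nat_lit 1,
    nat_lit 8],[nat_lit 8,nat_lit 8,nat_lit 2,nat_lit 13]],[[nat_lit 8,nat_lit 8,nat_lit 6,nat_lit 3,nat_lit 1],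
    [nat_lit 8,nat_lit 8,nat_lit 7,nat_lit 3,nat_lit 1],[nat_lit 8,nat_lit 8,nat_lit 12,nat_lit 3],[nat_lit 8,
    nat_lit 8,nat_lit 13,nat_lit 2],[nat_lit 8,nat_lit 8,nat_lit 13,nat_lit 3],[nat_lit 8,nat_lit 12,nat_lit 3,
    nat_lit 8],[nat_lit 8,nat_lit 13,nat_lit 2,nat_lit 8],[nat_lit 8,nat_lit 13,nat_lit 3,nat_lit 8],[nat_lit 9,
    nat_lit 0,nat_lit 2,nat_lit 6,nat_lit 9],[nat_lit 9,nat_lit 0,nat_lit 2,nat_lit 7,nat_lit 9],[nat_lit 9,nat_lit 2,
    nat_lit 12,nat_lit 9],[nat_lit 9,nat_lit 2,nat_lit 13,nat_lit 9]],[[nat_lit 9,nat_lit 3,nat_lit 12,nat_lit 9],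
    [nat_lit 9,nat_lit 9,nat_lit 0,nat_lit 2,nat_lit 6],[nat_lit 9,nat_lit 9,nat_lit 0,nat_lit 2,nat_lit 7],
    [nat_lit 9,nat_lit 9,nat_lit 2,nat_lit 12],[nat_lit 9,nat_lit 9,nat_lit 2,nat_lit 13],[nat_lit 9,nat_lit 9,
    nat_lit 3,nat_lit 12],[nat_lit 9,nat_lit 9,nat_lit 12,nat_lit 3],[nat_lit 9,nat_lit 12,nat_lit 3,nat_lit 9],
    [nat_lit 10,nat_lit 0,nat_lit 2],[nat_lit 10,nat_lit 0,nat_lit 3],[nat_lit 10,nat_lit 1,nat_lit 3],[nat_lit 10,
    nat_lit 2,nat_lit 1]],[[nat_lit 10,nat_lit 3,nat_lit 1],[nat_lit 10,nat_lit 6],[nat_lit 10,nat_lit 7],[nat_lit 11,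
    nat_lit 0,nat_lit 2],[nat_lit 11,nat_lit 0,nat_lit 3],[nat_lit 11,nat_lit 2,nat_lit 0],[nat_lit 11,nat_lit 2,
    nat_lit 1],[nat_lit 11,nat_lit 3,nat_lit 1],[nat_lit 11,nat_lit 6],[nat_lit 11,nat_lit 7],[nat_lit 12,nat_lit 3,
    nat_lit 8,nat_lit 8],[nat_lit 12,nat_lit 3,nat_lit 9,nat_lit 9]],[[nat_lit 12,nat_lit 4],[nat_lit 12,nat_lit 5],
    [nat_lit 12,nat_lit 9,nat_lit 9,nat_lit 2],[nat_lit 12,nat_lit 9,nat_lit 9,nat_lit 3],[nat_lit 13,nat_lit 2,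
    nat_lit 8,nat_lit 8],[nat_lit 13,nat_lit 3,nat_lit 8,nat_lit 8],[nat_lit 13,nat_lit 4],[nat_lit 13,nat_lit 5],
    [nat_lit 13,nat_lit 8,nat_lit 8,nat_lit 2],[nat_lit 13,nat_lit 9,nat_lit 9,nat_lit 2]]]
    [[nat_lit 3,nat_lit 39,nat_lit 40,nat_lit 43,nat_lit 44,nat_lit 45,nat_lit 46,nat_lit 48,nat_lit 49,nat_lit 55,
    nat_lit 56,nat_lit 64],[nat_lit 66,nat_lit 82,nat_lit 85,nat_lit 92,nat_lit 99,nat_lit 100,nat_lit 137,nat_lit 4,
    nat_lit 13,nat_lit 29,nat_lit 65,nat_lit 69],[nat_lit 70,nat_lit 74,nat_lit 75,nat_lit 78,nat_lit 79,nat_lit 83,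
    nat_lit 84,nat_lit 91,nat_lit 108,nat_lit 109,nat_lit 131,nat_lit 132],[nat_lit 138,nat_lit 139,nat_lit 18,
    nat_lit 23,nat_lit 27,nat_lit 34,nat_lit 36,nat_lit 68,nat_lit 72,nat_lit 93,nat_lit 101,nat_lit 111],
    [nat_lit 128,nat_lit 135,nat_lit 146,nat_lit 152,nat_lit 153,nat_lit 20,nat_lit 21,nat_lit 24,nat_lit 28,
    nat_lit 32,nat_lit 33,nat_lit 35],[nat_lit 37,nat_lit 110,nat_lit 112,nat_lit 126,nat_lit 129,nat_lit 130,
    nat_lit 136,nat_lit 147,nat_lit 0,nat_lit 1,nat_lit 9,nat_lit 16],[nat_lit 19,nat_lit 31,nat_lit 88,nat_lit 97,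
    nat_lit 144,nat_lit 150,nat_lit 2,nat_lit 10,nat_lit 15,nat_lit 17,nat_lit 53,nat_lit 54],[nat_lit 89,nat_lit 96,
    nat_lit 145,nat_lit 151,nat_lit 25,nat_lit 30,nat_lit 57,nat_lit 73,nat_lit 80,nat_lit 121,nat_lit 133,
    nat_lit 140],[nat_lit 14,nat_lit 26,nat_lit 58,nat_lit 71,nat_lit 81,nat_lit 122,nat_lit 134,nat_lit 141,
    nat_lit 51,nat_lit 90,nat_lit 98,nat_lit 104],[nat_lit 105,nat_lit 106,nat_lit 113,nat_lit 114,nat_lit 115,
    nat_lit 142,nat_lit 148,nat_lit 149,nat_lit 5,nat_lit 6,nat_lit 50,nat_lit 52],[nat_lit 67,nat_lit 116,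
    nat_lit 117,nat_lit 118,nat_lit 119,nat_lit 120,nat_lit 127,nat_lit 143,nat_lit 7,nat_lit 11,nat_lit 22,
    nat_lit 41],[nat_lit 59,nat_lit 94,nat_lit 102,nat_lit 8,nat_lit 12,nat_lit 38,nat_lit 42,nat_lit 60,nat_lit 95,
    nat_lit 103,nat_lit 61,nat_lit 63],[nat_lit 76,nat_lit 86,nat_lit 123,nat_lit 125,nat_lit 47,nat_lit 62,
    nat_lit 77,nat_lit 87,nat_lit 107,nat_lit 124]]
    [[nat_lit 68,nat_lit 69,nat_lit 78,nat_lit 0,nat_lit 19,nat_lit 116,nat_lit 117,nat_lit 128,nat_lit 135,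
    nat_lit 70,nat_lit 79,nat_lit 129],[nat_lit 136,nat_lit 20,nat_lit 96,nat_lit 80,nat_lit 71,nat_lit 81,nat_lit 38,
    nat_lit 72,nat_lit 53,nat_lit 54,nat_lit 130,nat_lit 39],[nat_lit 55,nat_lit 88,nat_lit 97,nat_lit 40,nat_lit 56,
    nat_lit 21,nat_lit 89,nat_lit 73,nat_lit 57,nat_lit 58,nat_lit 41,nat_lit 59],[nat_lit 42,nat_lit 60,nat_lit 137,
    nat_lit 1,nat_lit 2,nat_lit 131,nat_lit 138,nat_lit 3,nat_lit 4,nat_lit 5,nat_lit 6,nat_lit 148],[nat_lit 7,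
    nat_lit 8,nat_lit 118,nat_lit 104,nat_lit 119,nat_lit 82,nat_lit 83,nat_lit 9,nat_lit 10,nat_lit 90,nat_lit 98,
    nat_lit 132],[nat_lit 139,nat_lit 142,nat_lit 149,nat_lit 143,nat_lit 11,nat_lit 22,nat_lit 12,nat_lit 120,
    nat_lit 43,nat_lit 23,nat_lit 24,nat_lit 99],[nat_lit 44,nat_lit 91,nat_lit 25,nat_lit 26,nat_lit 144,nat_lit 150,
    nat_lit 27,nat_lit 28,nat_lit 92,nat_lit 100,nat_lit 13,nat_lit 29],[nat_lit 30,nat_lit 14,nat_lit 145,
    nat_lit 151,nat_lit 74,nat_lit 84,nat_lit 105,nat_lit 31,nat_lit 15,nat_lit 45,nat_lit 133,nat_lit 140],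
    [nat_lit 85,nat_lit 75,nat_lit 106,nat_lit 16,nat_lit 17,nat_lit 46,nat_lit 134,nat_lit 141,nat_lit 107,
    nat_lit 108,nat_lit 109,nat_lit 152],[nat_lit 32,nat_lit 33,nat_lit 61,nat_lit 47,nat_lit 62,nat_lit 110,
    nat_lit 111,nat_lit 112,nat_lit 121,nat_lit 122,nat_lit 123,nat_lit 124],[nat_lit 125,nat_lit 93,nat_lit 101,
    nat_lit 146,nat_lit 153,nat_lit 147,nat_lit 63,nat_lit 126,nat_lit 48,nat_lit 64,nat_lit 65,nat_lit 34],
    [nat_lit 35,nat_lit 94,nat_lit 102,nat_lit 49,nat_lit 66,nat_lit 18,nat_lit 36,nat_lit 37,nat_lit 95,nat_lit 103,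
    nat_lit 113,nat_lit 127],[nat_lit 76,nat_lit 86,nat_lit 50,nat_lit 67,nat_lit 114,nat_lit 115,nat_lit 77,
    nat_lit 87,nat_lit 51,nat_lit 52]]
    [[[nat_lit 146],[nat_lit 144],[nat_lit 144],[nat_lit 144],[nat_lit 144],[nat_lit 144],[nat_lit 144],[nat_lit 144],
    [nat_lit 144],[],[],[]],[[],[nat_lit 147],[nat_lit 147],[nat_lit 142],[nat_lit 145],[nat_lit 145],[nat_lit 143],
    [],[],[nat_lit 62],[nat_lit 65],[nat_lit 57]],[[nat_lit 57],[nat_lit 57],[nat_lit 57],[],[],[],[],[],[nat_lit 59],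
    [nat_lit 59],[nat_lit 61,nat_lit 63],[nat_lit 61,nat_lit 63]],[[nat_lit 67],[nat_lit 67],[nat_lit 18],[],[],[],[],
    [],[],[],[nat_lit 2,nat_lit 10,nat_lit 15,nat_lit 17],[nat_lit 7,nat_lit 11]],[[],[nat_lit 5,nat_lit 6],
    [nat_lit 3],[nat_lit 8,nat_lit 12],[nat_lit 8,nat_lit 12],[nat_lit 87],[nat_lit 87],[nat_lit 87],[nat_lit 87],
    [nat_lit 87],[nat_lit 87],[nat_lit 87]],[[nat_lit 87],[],[],[nat_lit 81],[nat_lit 86],[nat_lit 86],[],[nat_lit 82,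
    nat_lit 85],[],[],[],[]],[[nat_lit 47],[nat_lit 47],[nat_lit 51],[],[nat_lit 39,nat_lit 40,nat_lit 43,nat_lit 44,
    nat_lit 45,nat_lit 46,nat_lit 48,nat_lit 49],[nat_lit 38,nat_lit 42],[nat_lit 101],[nat_lit 101],[nat_lit 101],
    [nat_lit 101],[],[]],[[nat_lit 98],[nat_lit 96],[nat_lit 99,nat_lit 100],[nat_lit 103],[nat_lit 77],[nat_lit 77],
    [nat_lit 69,nat_lit 70,nat_lit 74,nat_lit 75],[nat_lit 73],[],[nat_lit 71],[nat_lit 76],[]],[[],[nat_lit 124],[],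
    [nat_lit 121],[nat_lit 126],[nat_lit 122],[nat_lit 123,nat_lit 125],[nat_lit 116,nat_lit 117,nat_lit 118,
    nat_lit 119,nat_lit 120,nat_lit 127],[nat_lit 88],[nat_lit 90],[nat_lit 89],[nat_lit 94]],[[nat_lit 94],
    [nat_lit 94],[nat_lit 94],[nat_lit 94],[nat_lit 94],[nat_lit 92],[nat_lit 95],[nat_lit 95],[nat_lit 135],
    [nat_lit 135],[],[]],[[nat_lit 138,nat_lit 139],[nat_lit 141],[nat_lit 141],[nat_lit 141],[nat_lit 141],
    [nat_lit 141],[nat_lit 141],[nat_lit 137],[nat_lit 111],[nat_lit 111],[nat_lit 107],[]],[[nat_lit 108,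
    nat_lit 109],[nat_lit 104,nat_lit 105,nat_lit 106,nat_lit 113,nat_lit 114,nat_lit 115],[],[nat_lit 152,
    nat_lit 153],[nat_lit 152,nat_lit 153],[nat_lit 150],[nat_lit 150],[],[nat_lit 148,nat_lit 149],[nat_lit 151],
    [nat_lit 131,nat_lit 132],[nat_lit 131,nat_lit 132]],[[nat_lit 133],[nat_lit 129,nat_lit 130],[nat_lit 134],
    [nat_lit 134],[nat_lit 19,nat_lit 31],[nat_lit 29],[nat_lit 25,nat_lit 30],[nat_lit 20,nat_lit 21,nat_lit 24,
    nat_lit 28,nat_lit 32,nat_lit 33,nat_lit 35,nat_lit 37],[nat_lit 22],[nat_lit 26]]]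
    (nat_lit 154) [nat_lit 0,nat_lit 1,nat_lit 2,nat_lit 3,nat_lit 4,nat_lit 5,nat_lit 6,nat_lit 7,nat_lit 8,
    nat_lit 9,nat_lit 10,nat_lit 11,nat_lit 12,nat_lit 13,nat_lit 14,nat_lit 15,nat_lit 16,nat_lit 17,nat_lit 18,
    nat_lit 21,nat_lit 22,nat_lit 25,nat_lit 26,nat_lit 29,nat_lit 30,nat_lit 31,nat_lit 32,nat_lit 33,nat_lit 34,
    nat_lit 35,nat_lit 36,nat_lit 37,nat_lit 47,nat_lit 50,nat_lit 51,nat_lit 52,nat_lit 61,nat_lit 62,nat_lit 63,
    nat_lit 67,nat_lit 76,nat_lit 77,nat_lit 86,nat_lit 87,nat_lit 94,nat_lit 95,nat_lit 102,nat_lit 103]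
    [[[nat_lit 3],[nat_lit 4,nat_lit 13],[nat_lit 18],[],[nat_lit 0,nat_lit 1,nat_lit 9,nat_lit 16],[nat_lit 2,
    nat_lit 10,nat_lit 15,nat_lit 17],[],[nat_lit 14],[],[nat_lit 5,nat_lit 6],[nat_lit 7,nat_lit 11],[nat_lit 8,
    nat_lit 12],[],[]],[[],[nat_lit 29],[nat_lit 23,nat_lit 27,nat_lit 34,nat_lit 36],[nat_lit 20,nat_lit 21,
    nat_lit 24,nat_lit 28,nat_lit 32,nat_lit 33,nat_lit 35,nat_lit 37],[nat_lit 19,nat_lit 31],[],[nat_lit 25,
    nat_lit 30],[nat_lit 26],[],[],[nat_lit 22],[],[],[]],[[nat_lit 39,nat_lit 40,nat_lit 43,nat_lit 44,nat_lit 45,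
    nat_lit 46,nat_lit 48,nat_lit 49],[],[],[],[],[],[],[],[nat_lit 51],[nat_lit 50,nat_lit 52],[nat_lit 41],
    [nat_lit 38,nat_lit 42],[],[nat_lit 47]],[[nat_lit 55,nat_lit 56,nat_lit 64,nat_lit 66],[nat_lit 65],[],[],[],
    [nat_lit 53,nat_lit 54],[nat_lit 57],[nat_lit 58],[],[nat_lit 67],[nat_lit 59],[nat_lit 60],[nat_lit 61,
    nat_lit 63],[nat_lit 62]],[[],[nat_lit 69,nat_lit 70,nat_lit 74,nat_lit 75],[nat_lit 68,nat_lit 72],[],[],[],
    [nat_lit 73],[nat_lit 71],[],[],[],[],[nat_lit 76],[nat_lit 77]],[[nat_lit 82,nat_lit 85],[nat_lit 78,nat_lit 79,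
    nat_lit 83,nat_lit 84],[],[],[],[],[nat_lit 80],[nat_lit 81],[],[],[],[],[nat_lit 86],[nat_lit 87]],[[nat_lit 92],
    [nat_lit 91],[nat_lit 93],[],[nat_lit 88],[nat_lit 89],[],[],[nat_lit 90],[],[nat_lit 94],[nat_lit 95],[],[]],
    [[nat_lit 99,nat_lit 100],[],[nat_lit 101],[],[nat_lit 97],[nat_lit 96],[],[],[nat_lit 98],[],[nat_lit 102],
    [nat_lit 103],[],[]],[[],[nat_lit 108,nat_lit 109],[nat_lit 111],[nat_lit 110,nat_lit 112],[],[],[],[],
    [nat_lit 104,nat_lit 105,nat_lit 106,nat_lit 113,nat_lit 114,nat_lit 115],[],[],[],[],[nat_lit 107]],[[],[],[],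
    [nat_lit 126],[],[],[nat_lit 121],[nat_lit 122],[],[nat_lit 116,nat_lit 117,nat_lit 118,nat_lit 119,nat_lit 120,
    nat_lit 127],[],[],[nat_lit 123,nat_lit 125],[nat_lit 124]],[[],[nat_lit 131,nat_lit 132],[nat_lit 128],
    [nat_lit 129,nat_lit 130],[],[],[nat_lit 133],[nat_lit 134],[],[],[],[],[],[]],[[nat_lit 137],[nat_lit 138,
    nat_lit 139],[nat_lit 135],[nat_lit 136],[],[],[nat_lit 140],[nat_lit 141],[],[],[],[],[],[]],[[],[],
    [nat_lit 146],[nat_lit 147],[nat_lit 144],[nat_lit 145],[],[],[nat_lit 142],[nat_lit 143],[],[],[],[]],[[],[],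
    [nat_lit 152,nat_lit 153],[],[nat_lit 150],[nat_lit 151],[],[],[nat_lit 148,nat_lit 149],[],[],[],[],[]]]
    [[[nat_lit 0x4000000000000000000000000000000000000,nat_lit 0x1000000000000000000000000000000000000,
    nat_lit 0x1000000000000000000000000000000000000,nat_lit 0x1000000000000000000000000000000000000,
    nat_lit 0x1000000000000000000000000000000000000,nat_lit 0x1000000000000000000000000000000000000,
    nat_lit 0x1000000000000000000000000000000000000,nat_lit 0x1000000000000000000000000000000000000,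
    nat_lit 0x1000000000000000000000000000000000000],[nat_lit 0,nat_lit 0,nat_lit 0,nat_lit 0,
    nat_lit 0x8000000000000000000000000000000000000,nat_lit 0x8000000000000000000000000000000000000,
    nat_lit 0x400000000000000000000000000000000000,nat_lit 0x2000000000000000000000000000000000000,
    nat_lit 0x2000000000000000000000000000000000000],[nat_lit 0x800000000000000000000000000000000000,nat_lit 0,
    nat_lit 0,nat_lit 0x4000000000000000,nat_lit 0x20000000000000000,nat_lit 0x200000000000000,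
    nat_lit 0x200000000000000,nat_lit 0x200000000000000,nat_lit 0x200000000000000],[nat_lit 0,nat_lit 0,nat_lit 0,
    nat_lit 0,nat_lit 0,nat_lit 0x800000000000000,nat_lit 0x800000000000000,nat_lit 0xa000000000000000,
    nat_lit 0xa000000000000000],[nat_lit 0x80000000000000000,nat_lit 0x80000000000000000,nat_lit 0x40000,nat_lit 0,
    nat_lit 0,nat_lit 0,nat_lit 0,nat_lit 0,nat_lit 0],[nat_lit 0,nat_lit 0x28404,nat_lit 0x880,nat_lit 0,nat_lit 96,
    nat_lit 8,nat_lit 0x1100,nat_lit 0x1100,nat_lit 0x8000000000000000000000],[nat_lit 0x8000000000000000000000,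
    nat_lit 0x8000000000000000000000,nat_lit 0x8000000000000000000000,nat_lit 0x8000000000000000000000,
    nat_lit 0x8000000000000000000000,nat_lit 0x8000000000000000000000,nat_lit 0x8000000000000000000000,nat_lit 0,
    nat_lit 0],[nat_lit 0x200000000000000000000,nat_lit 0x4000000000000000000000,nat_lit 0x4000000000000000000000,
    nat_lit 0,nat_lit 0x2400000000000000000000,nat_lit 0,nat_lit 0,nat_lit 0,nat_lit 0],[nat_lit 0x800000000000,
    nat_lit 0x800000000000,nat_lit 0x8000000000000,nat_lit 0,nat_lit 0x3798000000000,nat_lit 0x44000000000,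
    nat_lit 0x20000000000000000000000000,nat_lit 0x20000000000000000000000000,nat_lit 0x20000000000000000000000000]],
    [[nat_lit 0x20000000000000000000000000,nat_lit 0,nat_lit 0,nat_lit 0x4000000000000000000000000,
    nat_lit 0x1000000000000000000000000,nat_lit 0x18000000000000000000000000,nat_lit 0x80000000000000000000000000,
    nat_lit 0x20000000000000000000,nat_lit 0x20000000000000000000],[nat_lit 0xc600000000000000000,
    nat_lit 0x2000000000000000000,nat_lit 0,nat_lit 0x800000000000000000,nat_lit 0x10000000000000000000,nat_lit 0,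
    nat_lit 0,nat_lit 0x10000000000000000000000000000000,nat_lit 0],[nat_lit 0x2000000000000000000000000000000,
    nat_lit 0x40000000000000000000000000000000,nat_lit 0x4000000000000000000000000000000,
    nat_lit 0x28000000000000000000000000000000,nat_lit 0x81f00000000000000000000000000000,
    nat_lit 0x10000000000000000000000,nat_lit 0x40000000000000000000000,nat_lit 0x20000000000000000000000,
    nat_lit 0x400000000000000000000000],[nat_lit 0x400000000000000000000000,nat_lit 0x400000000000000000000000,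
    nat_lit 0x400000000000000000000000,nat_lit 0x400000000000000000000000,nat_lit 0x400000000000000000000000,
    nat_lit 0x100000000000000000000000,nat_lit 0x800000000000000000000000,nat_lit 0x800000000000000000000000,
    nat_lit 0x8000000000000000000000000000000000],[nat_lit 0x8000000000000000000000000000000000,nat_lit 0,nat_lit 0,
    nat_lit 0xc0000000000000000000000000000000000,nat_lit 0x200000000000000000000000000000000000,
    nat_lit 0x200000000000000000000000000000000000,nat_lit 0x200000000000000000000000000000000000,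
    nat_lit 0x200000000000000000000000000000000000,nat_lit 0x200000000000000000000000000000000000],
    [nat_lit 0x200000000000000000000000000000000000,nat_lit 0x20000000000000000000000000000000000,
    nat_lit 0x8000000000000000000000000000,nat_lit 0x8000000000000000000000000000,
    nat_lit 0x800000000000000000000000000,nat_lit 0,nat_lit 0x3000000000000000000000000000,
    nat_lit 0xe0700000000000000000000000000,nat_lit 0],[nat_lit 0x300000000000000000000000000000000000000,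
    nat_lit 0x300000000000000000000000000000000000000,nat_lit 0x40000000000000000000000000000000000000,
    nat_lit 0x40000000000000000000000000000000000000,nat_lit 0,nat_lit 0x30000000000000000000000000000000000000,
    nat_lit 0x80000000000000000000000000000000000000,nat_lit 0x1800000000000000000000000000000000,
    nat_lit 0x1800000000000000000000000000000000],[nat_lit 0x2000000000000000000000000000000000,
    nat_lit 0x600000000000000000000000000000000,nat_lit 0x4000000000000000000000000000000000,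
    nat_lit 0x4000000000000000000000000000000000,nat_lit 0x80080000,nat_lit 0x20000000,nat_lit 0x42000000,
    nat_lit 0x2b11300000,nat_lit 0x400000],[nat_lit 0x4000000]]]
    [[[[nat_lit 0,nat_lit 0,nat_lit 0,nat_lit 0,nat_lit 0,nat_lit 0,nat_lit 0x1000000000000000000000000000000000000,
    nat_lit 0,nat_lit 0],[nat_lit 0,nat_lit 0,nat_lit 0,nat_lit 0,nat_lit 0,nat_lit 0,nat_lit 0,nat_lit 0,nat_lit 0],
    [nat_lit 0x800000000000000000000000000000000000,nat_lit 0,nat_lit 0,nat_lit 0,nat_lit 0,nat_lit 0,nat_lit 0,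
    nat_lit 0x200000000000000,nat_lit 0],[nat_lit 0,nat_lit 0,nat_lit 0,nat_lit 0,nat_lit 0,nat_lit 0x800000000000000,
    nat_lit 0x800000000000000,nat_lit 0,nat_lit 0x2000000000000000],[nat_lit 0x80000000000000000,nat_lit 0,nat_lit 0,
    nat_lit 0,nat_lit 0,nat_lit 0,nat_lit 0,nat_lit 0,nat_lit 0],[nat_lit 0,nat_lit 0x20000,nat_lit 0x800,nat_lit 0,
    nat_lit 96,nat_lit 0,nat_lit 0,nat_lit 256,nat_lit 0],[nat_lit 0,nat_lit 0,nat_lit 0,nat_lit 0,nat_lit 0,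
    nat_lit 0x8000000000000000000000,nat_lit 0,nat_lit 0,nat_lit 0],[nat_lit 0,nat_lit 0x4000000000000000000000,
    nat_lit 0x4000000000000000000000,nat_lit 0,nat_lit 0,nat_lit 0,nat_lit 0,nat_lit 0,nat_lit 0],[nat_lit 0,
    nat_lit 0,nat_lit 0,nat_lit 0,nat_lit 0x2000000000000,nat_lit 0x44000000000,nat_lit 0,nat_lit 0,
    nat_lit 0x20000000000000000000000000]],[[nat_lit 0x20000000000000000000000000,nat_lit 0,nat_lit 0,nat_lit 0,
    nat_lit 0,nat_lit 0x10000000000000000000000000,nat_lit 0x80000000000000000000000000,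
    nat_lit 0x20000000000000000000,nat_lit 0],[nat_lit 0xc000000000000000000,nat_lit 0,nat_lit 0,nat_lit 0,
    nat_lit 0x10000000000000000000,nat_lit 0,nat_lit 0,nat_lit 0x10000000000000000000000000000000,nat_lit 0],
    [nat_lit 0,nat_lit 0x40000000000000000000000000000000,nat_lit 0x4000000000000000000000000000000,nat_lit 0,
    nat_lit 0x200000000000000000000000000000,nat_lit 0x10000000000000000000000,nat_lit 0x40000000000000000000000,
    nat_lit 0,nat_lit 0],[nat_lit 0x400000000000000000000000,nat_lit 0,nat_lit 0,nat_lit 0,nat_lit 0,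
    nat_lit 0x100000000000000000000000,nat_lit 0,nat_lit 0,nat_lit 0],[nat_lit 0,nat_lit 0,nat_lit 0,nat_lit 0,
    nat_lit 0x200000000000000000000000000000000000,nat_lit 0x200000000000000000000000000000000000,nat_lit 0,nat_lit 0,
    nat_lit 0x200000000000000000000000000000000000],[nat_lit 0x200000000000000000000000000000000000,nat_lit 0,
    nat_lit 0,nat_lit 0,nat_lit 0,nat_lit 0,nat_lit 0,nat_lit 0x40700000000000000000000000000,nat_lit 0],
    [nat_lit 0x100000000000000000000000000000000000000,nat_lit 0,nat_lit 0,nat_lit 0,nat_lit 0,nat_lit 0,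
    nat_lit 0x80000000000000000000000000000000000000,nat_lit 0,nat_lit 0x1000000000000000000000000000000000],
    [nat_lit 0x2000000000000000000000000000000000,nat_lit 0,nat_lit 0,nat_lit 0,nat_lit 0,nat_lit 0,nat_lit 0,
    nat_lit 0x100000000,nat_lit 0x400000],[nat_lit 0]]]]
    (nat_lit 1) (nat_lit 1) (nat_lit 8)
    [[nat_lit 2,nat_lit 18,nat_lit 0x10012,nat_lit 0x10002,nat_lit 0x20002,nat_lit 17,nat_lit 34,nat_lit 0x10022,
    nat_lit 33,nat_lit 0x10021,nat_lit 0x100021,nat_lit 273,nat_lit 0x10111,nat_lit 0x1011,nat_lit 0x11011,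
    nat_lit 0x10011,nat_lit 0x20011,nat_lit 0x30011,nat_lit 0x40011,nat_lit 0x1020011,nat_lit 0x1010011,
    nat_lit 0x1000011,nat_lit 0x2000011,nat_lit 257,nat_lit 0x10101,nat_lit 0x20101,nat_lit 0x1000101,nat_lit 0x1001,
    nat_lit 0x11001,nat_lit 0x21001,nat_lit 0x1001001,nat_lit 0x2001,nat_lit 0x10001,nat_lit 0x20001,nat_lit 0x30001,
    nat_lit 0x40001,nat_lit 0x1020001,nat_lit 0x1010001,nat_lit 0x100001,nat_lit 0x1000001],[nat_lit 32,nat_lit 48,
    nat_lit 288,nat_lit 0x1020,nat_lit 0x10020,nat_lit 0x100020,nat_lit 272,nat_lit 528,nat_lit 0x1110,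
    nat_lit 0x10110,nat_lit 0x100110,nat_lit 0x20110,nat_lit 0x1010,nat_lit 0x2010,nat_lit 0x11010,nat_lit 0x21010,
    nat_lit 0x10010,nat_lit 0x20010,nat_lit 0x20020,nat_lit 0x30010,nat_lit 0x40010,nat_lit 0x120010,nat_lit 0x110010,
    nat_lit 0x1010010,nat_lit 0x100010,nat_lit 0x1000010,nat_lit 0x1000020,nat_lit 0x1100010,nat_lit 0x1001010],
    [nat_lit 512,nat_lit 0x1200,nat_lit 0x10200,nat_lit 0x20200,nat_lit 0x1100,nat_lit 0x2100,nat_lit 0x11100,
    nat_lit 0x21100,nat_lit 0x10100,nat_lit 0x20100,nat_lit 0x30100,nat_lit 0x40100,nat_lit 0x1010100,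
    nat_lit 0x100100],[nat_lit 0x2000,nat_lit 0x12000,nat_lit 0x11000,nat_lit 0x21000,nat_lit 0x31000,
    nat_lit 0x1011000,nat_lit 0x1001000,nat_lit 0x1021000],[nat_lit 0x20000,nat_lit 0x30000,nat_lit 0x40000,
    nat_lit 0x50000,nat_lit 0x60000,nat_lit 0x70000,nat_lit 0x1040000,nat_lit 0x1030000,nat_lit 0x120000,
    nat_lit 0x1020000,nat_lit 0x2020000,nat_lit 0x110000,nat_lit 0x1010000,nat_lit 0x2010000],[nat_lit 0x1100000],
    [nat_lit 0x2000000]]
    [.c (nat_lit 1) (nat_lit 2),.c (nat_lit 0) (nat_lit 0x4300c43),.c (nat_lit 1) (nat_lit 0x210062),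
    .c (nat_lit 0) (nat_lit 0x4738cc5),.c (nat_lit 0) (nat_lit 0x528083),.c (nat_lit 0) (nat_lit 0x4318c43),
    .c (nat_lit 4) (nat_lit 0x8210a2),.c (nat_lit 4) (nat_lit 0x6208a2),.c (nat_lit 0) (nat_lit 0x528083),
    .c (nat_lit 2) (nat_lit 0x210062),.c (nat_lit 0) (nat_lit 0x210862),.c (nat_lit 0) (nat_lit 0x4300c43),
    .c (nat_lit 3) (nat_lit 0x210062),.c (nat_lit 4) (nat_lit 0x410862),.c (nat_lit 4) (nat_lit 0x210062),
    .c (nat_lit 0) (nat_lit 0x318043),.c (nat_lit 5) (nat_lit 0x210062),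
    .r (nat_lit 0x1b04) (nat_lit 5) [nat_lit 0x4218c41,nat_lit 0x200001],
    .r (nat_lit 75) (nat_lit 4) [nat_lit 0x4200c41,nat_lit 0x12902061,nat_lit 0x200001],
    .c (nat_lit 0) (nat_lit 0x4210c62),.c (nat_lit 3) (nat_lit 0x300043),
    .r (nat_lit 0x174e) (nat_lit 8) [nat_lit 0x4010001,nat_lit 0x6018861],
    .r (nat_lit 0x191e) (nat_lit 8) [nat_lit 0x8210c01,nat_lit 0x6300801,nat_lit 0x400061,nat_lit 0x6318801],
    .c (nat_lit 5) (nat_lit 0x6018802),.r (nat_lit 0x1b04) (nat_lit 5) [nat_lit 0xc0300041,nat_lit 0x200001],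
    .r (nat_lit 75) (nat_lit 4) [nat_lit 0xc0310041,nat_lit 0x8e519861,nat_lit 0x200001],
    .c (nat_lit 0) (nat_lit 0x18002),.c (nat_lit 0) (nat_lit 0x4210003),.c (nat_lit 1) (nat_lit 0x300c02),
    .c (nat_lit 0) (nat_lit 0x18843),.c (nat_lit 3) (nat_lit 0x4220003),
    .r (nat_lit 0x174e) (nat_lit 8) [nat_lit 0x4010001,nat_lit 0x88200061],.c (nat_lit 0) (nat_lit 0x318043),
    .c (nat_lit 0) (nat_lit 0x67388c5),.r (nat_lit 0x1655) (nat_lit 0) [nat_lit 0x38041,nat_lit 0x600001,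
    nat_lit 0xe701861,nat_lit 0xc030061],.r (nat_lit 0xc63) (nat_lit 0) [nat_lit 0x4000001,nat_lit 0xd6048041,
    nat_lit 0x12048041,nat_lit 0x8330861,nat_lit 0x94240061],.r (nat_lit 0xe6b) (nat_lit 13) [nat_lit 0x400001,
    nat_lit 0x328041,nat_lit 0x300041,nat_lit 0x8220061],.r (nat_lit 0x1b4a) (nat_lit 13) [nat_lit 0x6300861,
    nat_lit 0x200001,nat_lit 0x4000001],.c (nat_lit 0) (nat_lit 0x318c43),
    .r (nat_lit 4) (nat_lit 11) [nat_lit 0x4010001,nat_lit 65],.c (nat_lit 2) (nat_lit 2),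
    .r (nat_lit 0xc64) (nat_lit 0) [nat_lit 0xc000001,nat_lit 0x1e6739861,nat_lit 0x1a739861,nat_lit 65,
    nat_lit 0x1a4c31c41],.r (nat_lit 0xc65) (nat_lit 0) [nat_lit 0x8a329061,nat_lit 0x148221441,nat_lit 0xc4010c41,
    nat_lit 0x10a029061,nat_lit 0xcc221441],.r (nat_lit 0xc66) (nat_lit 0) [nat_lit 0x4000061,nat_lit 0xce318881,
    nat_lit 0xa318841,nat_lit 0x8c410ca1,nat_lit 65],.c (nat_lit 0) (nat_lit 0x528083),
    .r (nat_lit 0xe6b) (nat_lit 13) [nat_lit 0x400001,nat_lit 0xca729061,nat_lit 0xca701061,nat_lit 0x90621441],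
    .c (nat_lit 0) (nat_lit 0x4300c43),.r (nat_lit 0x178f) (nat_lit 3) [nat_lit 0x200061,nat_lit 0x8c410c01,
    nat_lit 0xc6518801,nat_lit 0x86018801],.r (nat_lit 0xe6b) (nat_lit 13) [nat_lit 0x400001,nat_lit 0x318861,
    nat_lit 0x310861,nat_lit 0x8210c41],.r (nat_lit 0x1b4a) (nat_lit 12) [nat_lit 0x6300861,nat_lit 0x200001,
    nat_lit 0x4000001],.r (nat_lit 4) (nat_lit 11) [nat_lit 0x4010001,nat_lit 0x6018861],
    .c (nat_lit 3) (nat_lit 0x4220c62),.c (nat_lit 0) (nat_lit 0x18843),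
    .r (nat_lit 0xc68) (nat_lit 0) [nat_lit 0x4000001,nat_lit 0xce318861,nat_lit 0xa318861,nat_lit 65,
    nat_lit 0x8c410c41],.c (nat_lit 2) (nat_lit 0x300c02),.c (nat_lit 0) (nat_lit 0x18843),
    .c (nat_lit 0) (nat_lit 0x6318845),.c (nat_lit 0) (nat_lit 0x318843),.c (nat_lit 0) (nat_lit 0x528083),
    .r (nat_lit 0x196a) (nat_lit 8) [nat_lit 0x4000001,nat_lit 0x88619441,nat_lit 0x6300801],
    .r (nat_lit 0x1b8f) (nat_lit 0) [nat_lit 0x84218c41,nat_lit 0x4000001,nat_lit 0x200001],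
    .r (nat_lit 0x174e) (nat_lit 8) [nat_lit 0x4010001,nat_lit 0x84418c41],.c (nat_lit 3) (nat_lit 0x4220062),
    .c (nat_lit 4) (nat_lit 0x4410062),.c (nat_lit 0) (nat_lit 0x318c43),.c (nat_lit 4) (nat_lit 0x4610862),
    .r (nat_lit 0xc68) (nat_lit 0) [nat_lit 0x4000001,nat_lit 0x15a529061,nat_lit 0xd6529061,nat_lit 0x8c210c41,
    nat_lit 0x118621441],.c (nat_lit 5) (nat_lit 0x6318043),.r (nat_lit 75) (nat_lit 4) [nat_lit 0xc0320861,
    nat_lit 0x8e529041,nat_lit 0x200001],.c (nat_lit 3) (nat_lit 2),.r (nat_lit 4) (nat_lit 11) [nat_lit 0x4010001,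
    nat_lit 0x84400061],.r (nat_lit 0x1847) (nat_lit 8) [nat_lit 0x8210c01,nat_lit 0x6300801,nat_lit 0x4200c41,
    nat_lit 0x6318801],.r (nat_lit 0x174e) (nat_lit 8) [nat_lit 0x4010001,nat_lit 0x28042],
    .c (nat_lit 0) (nat_lit 0x4210003),.c (nat_lit 0) (nat_lit 0x6728c42),.c (nat_lit 3) (nat_lit 0x300c02),
    .r (nat_lit 0x174e) (nat_lit 8) [nat_lit 0x4010001,nat_lit 0x6028041],
    .r (nat_lit 0x196a) (nat_lit 8) [nat_lit 0x4000001,nat_lit 0x4200c41,nat_lit 0x6300801],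
    .r (nat_lit 0x1b8f) (nat_lit 0) [nat_lit 0x300041,nat_lit 0x4000001,nat_lit 0x200001],
    .r (nat_lit 0x1007) (nat_lit 4) [nat_lit 0x1da501861,nat_lit 0x10000001,nat_lit 0xca500841,nat_lit 0x198c01c41],
    .r (nat_lit 0xc69) (nat_lit 0) [nat_lit 0x4000001,nat_lit 0x10240061,nat_lit 0x94240061,nat_lit 0xde558841,
    nat_lit 0x12048041],.c (nat_lit 4) (nat_lit 0x210803),.r (nat_lit 0x174e) (nat_lit 8) [nat_lit 0x4010001,
    nat_lit 65],.c (nat_lit 4) (nat_lit 2),.c (nat_lit 4) (nat_lit 0x300c02),.c (nat_lit 0) (nat_lit 0x200803),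
    .c (nat_lit 5) (nat_lit 0x300c02),.r (nat_lit 0x1b04) (nat_lit 5) [nat_lit 0x6028041,nat_lit 0x200001],
    .c (nat_lit 3) (nat_lit 0x210803),.r (nat_lit 0x174e) (nat_lit 8) [nat_lit 0x4010001,nat_lit 0x4200061],
    .c (nat_lit 0) (nat_lit 0x4301402),.c (nat_lit 5) (nat_lit 2),.r (nat_lit 45) (nat_lit 4) [nat_lit 65,
    nat_lit 0xe701861,nat_lit 0x200001],.r (nat_lit 0x1b04) (nat_lit 5) [nat_lit 0x28042,nat_lit 0x200001],
    .r (nat_lit 0x1654) (nat_lit 0) [nat_lit 0x58041,nat_lit 0xa00001,nat_lit 0x16b02861,nat_lit 0x14050061],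
    .r (nat_lit 75) (nat_lit 4) [nat_lit 66,nat_lit 0x1ad03062,nat_lit 0x200001],
    .r (nat_lit 0xc6a) (nat_lit 9) [nat_lit 0x380e78041,nat_lit 0x1c070061,nat_lit 65,nat_lit 0x78041,
    nat_lit 0x3c0070061],.r (nat_lit 0xc68) (nat_lit 0) [nat_lit 0x4000001,nat_lit 0x12048041,nat_lit 0x8e048041,
    nat_lit 0xc4330861,nat_lit 0x10240061],.r (nat_lit 0x1b4d) (nat_lit 13) [nat_lit 0xc6320861,nat_lit 0x200001,
    nat_lit 0x4000001],.r (nat_lit 75) (nat_lit 4) [nat_lit 0x10041,nat_lit 0xe719861,nat_lit 0x200001],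
    .c (nat_lit 0) (nat_lit 0x6318843),.c (nat_lit 0) (nat_lit 0x8001402),.r (nat_lit 0x1b04) (nat_lit 5) [nat_lit 65,
    nat_lit 0x200001],.c (nat_lit 1) (nat_lit 0x4000c02),.r (nat_lit 0x1b4a) (nat_lit 12) [nat_lit 0x80318041,
    nat_lit 0x200001,nat_lit 0x4000001],.c (nat_lit 0) (nat_lit 0x4000002),.c (nat_lit 7) (nat_lit 2)]]

/-- nodes -/
noncomputable def rD7k_20_27 : List RJ :=
  [.l (nat_lit 17) (nat_lit 0x6540) (nat_lit 3) (nat_lit 0x333d0000333d000033d400002d7600002f060000316200002f2c00003054000034f20000314c00002b30000040d000003ba000002d10) (nat_lit 0xd9300000d930000135a00000cfc00000f6e000011ca0000107c000011a400000f8400000bde00000000000015a0000013c000000530)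
    (nat_lit 0x13c5096a843b2264111e7885cc378e25eb10ec89b8c839a1caf0fbe8b834471c278a0ff189904479e1f570ed3887bc4772275f244888dcc3efa2e0d132089904452c28f412080882846b022300f3d0b44067a81e340f1a065403fc621d90cdb08a583f501bac0e7d065403b64243016bb06540336c25940fab885cc3758220a110d0768837e41bc20f0408ca0637019a60ca80a758479e23cf0fd4090404b08221a0f3a07ef84434258418b10654032a02e4e10f7897ac32a022300fdf06f083d6019f8110d097005a2019500db60a7f03b4e1bc70e7d08d603ce81bf20fec07ac04da424760ca806ad03a202e3813af89b8c48602d1012c208ca048ec25c012b70a45063bc1950141611b18477221d90ed9079e844341e081369088683c10256e18dc06eb03cf43d1411b9872bc32a01e340ca806698356819500dd606540347019500ca809650912241cd16bb0cf5062c431b80ca80b440637031de2068068e05a203ba017068b8344b28195017270a7585c7029fc1e8a11b18774025940ca80d9c03efa1f7d0cdb078d032a019500e8806db03cf4282c16880654032a01950)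
    (nat_lit 0x13c519500ca80654032a019500ca80654032a019500ca80654032a0195004b54278a32a019500ca80654032a019500ca80654032a019500ca80654010ec87f8c452c654032a019500ca80654032a019500ca80654032a0195004c822641147a08a58ca80654032a019500ca80654032a019500ca80654011e788f3c48201fa8110d19500ca80654032a019500ca80654032a01950042e61f57110506eb03b44221a32a019500ca80654032a019500ca8065400de38769c46b01cfa0df9079d03d60654032a019500ca80654032a0195004bd621ef11180654037841fbe0cfc07ac0ca80654032a019500ca80654010ec88ee43cf41db20f0408868443426d212b719500ca80654032a0195004dc6275f1688090c04650258412e0091d85228256e32a019500ca8065401f9d8ecfc67a82d7618dc0c5885a20195018ef0c6e03470654032a019500395e23730f1a06540334c19500ca806ad032a01bac0ca8068e0ca8065400fbe87df43c6819b60ca80654036d81d101416079e832a02d100ca8195005c1a2e0d0ca80965053ac2e4e14fe0b8e07b00370212ca0ee806ce01950)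
    (nat_lit 5) (nat_lit 59)
    [[nat_lit 2,nat_lit 3,nat_lit 0x1002,nat_lit 0x10002,nat_lit 0x100002,nat_lit 17,nat_lit 0x1011,nat_lit 0x100011,
    nat_lit 0x100101,nat_lit 0x1001,nat_lit 0x11001,nat_lit 0x101001,nat_lit 0x10001,nat_lit 0x110001,
    nat_lit 0x100001,nat_lit 0x200001,nat_lit 0x1000001,nat_lit 0x1100001],[nat_lit 32,nat_lit 48,nat_lit 0x1020,
    nat_lit 272,nat_lit 0x1010,nat_lit 0x11010,nat_lit 0x1110,nat_lit 0x2010,nat_lit 0x101010,nat_lit 0x1001010,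
    nat_lit 0x10010,nat_lit 0x100010],[nat_lit 512,nat_lit 0x1100,nat_lit 0x11100,nat_lit 0x10100,nat_lit 0x100100,
    nat_lit 0x101100,nat_lit 0x110100,nat_lit 0x1000100],[nat_lit 0x2000,nat_lit 0x3000,nat_lit 0x12000,
    nat_lit 0x102000,nat_lit 0x1002000,nat_lit 0x11000,nat_lit 0x21000,nat_lit 0x111000,nat_lit 0x1011000,
    nat_lit 0x101000,nat_lit 0x201000,nat_lit 0x1101000,nat_lit 0x1001000],[nat_lit 0x20000,nat_lit 0x120000,
    nat_lit 0x110000,nat_lit 0x210000,nat_lit 0x1010000],[nat_lit 0x200000,nat_lit 0x1100000],[nat_lit 0x2000000]]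
    [.c (nat_lit 1) (nat_lit 2),.c (nat_lit 0) (nat_lit 0x1c04),.c (nat_lit 6) (nat_lit 0x328885),
    .c (nat_lit 1) (nat_lit 0x802),.c (nat_lit 4) (nat_lit 0x328885),
    .r (nat_lit 0x174f) (nat_lit 1) [nat_lit 0x44100a2,nat_lit 65],.r (nat_lit 0x1732) (nat_lit 9) [nat_lit 0xc411402,
    nat_lit 0x6519001,nat_lit 0x6411122,nat_lit 0x6511002],.r (nat_lit 0x1733) (nat_lit 3) [nat_lit 0x4000001,
    nat_lit 0x400001,nat_lit 0x10001,nat_lit 0x518081],.c (nat_lit 0) (nat_lit 0x300c04),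
    .c (nat_lit 0) (nat_lit 0x328085),.r (nat_lit 0x1091) (nat_lit 11) [nat_lit 0x600001,nat_lit 0x10041,
    nat_lit 0xc0100a2,nat_lit 0x18081],.c (nat_lit 1) (nat_lit 0x328885),
    .r (nat_lit 0x156c) (nat_lit 0) [nat_lit 0xed1b122,nat_lit 0x600001,nat_lit 0x10041,nat_lit 0xc0100a2],
    .r (nat_lit 0x12bd) (nat_lit 7) [nat_lit 0x18081,nat_lit 0x600001,nat_lit 0x10041,nat_lit 0xc0100a2],
    .c (nat_lit 0) (nat_lit 0x328085),.r (nat_lit 0x1734) (nat_lit 10) [nat_lit 0xa91a0a1,nat_lit 0x18081,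
    nat_lit 0x800001,nat_lit 0x20001],.r (nat_lit 0x1a91) (nat_lit 4) [nat_lit 65,nat_lit 0x44100a2],
    .r (nat_lit 0x1735) (nat_lit 9) [nat_lit 0xc411402,nat_lit 0x6519001,nat_lit 0x4419502,nat_lit 0x6511002],
    .c (nat_lit 2) (nat_lit 2),.r (nat_lit 0x1736) (nat_lit 4) [nat_lit 0xc000a1,nat_lit 0xed3b001,nat_lit 0x24c33402,
    nat_lit 129],.r (nat_lit 0x1737) (nat_lit 2) [nat_lit 0x6511002,nat_lit 65,nat_lit 0xc411402,nat_lit 0x6519001],
    .r (nat_lit 0x1a91) (nat_lit 4) [nat_lit 0x44100a2,nat_lit 65],.r (nat_lit 0x196f) (nat_lit 13) [nat_lit 0x300041,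
    nat_lit 0x200001,nat_lit 0x4010002],.r (nat_lit 0x1738) (nat_lit 4) [nat_lit 0x400001,nat_lit 0x65190a1,
    nat_lit 129,nat_lit 0x4000001],.r (nat_lit 0xeaf) (nat_lit 8) [nat_lit 0x600001,nat_lit 0x10861,nat_lit 0x190a1,
    nat_lit 0xed19102],.r (nat_lit 0xf3b) (nat_lit 2) [nat_lit 0x6511061,nat_lit 0xc411441,nat_lit 129,
    nat_lit 0xa92a0a1],.r (nat_lit 0x1739) (nat_lit 12) [nat_lit 0x400001,nat_lit 0xc011482,nat_lit 0x60190a1,
    nat_lit 0x500081],.c (nat_lit 0) (nat_lit 0x18002),.r (nat_lit 0xd70) (nat_lit 1) [nat_lit 0x65190a1,nat_lit 129,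
    nat_lit 0x4000061,nat_lit 0x10041],.r (nat_lit 0xff8) (nat_lit 4) [nat_lit 0x400001,nat_lit 129,nat_lit 0x65190a1,
    nat_lit 0xc411482],.c (nat_lit 3) (nat_lit 2),.c (nat_lit 0) (nat_lit 0x28c85),.c (nat_lit 0) (nat_lit 0x28c85),
    .c (nat_lit 0) (nat_lit 0x200003),.c (nat_lit 0) (nat_lit 0x28c85),.c (nat_lit 1) (nat_lit 0x18843),
    .c (nat_lit 0) (nat_lit 0x28c85),.r (nat_lit 0x174f) (nat_lit 1) [nat_lit 65,nat_lit 0x44100a2],
    .c (nat_lit 4) (nat_lit 2),.r (nat_lit 0x1001) (nat_lit 7) [nat_lit 0xed3b0a1,nat_lit 0xc00001,nat_lit 0xed330a2,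
    nat_lit 0x24c33482],.c (nat_lit 0) (nat_lit 0x328c83),.c (nat_lit 0) (nat_lit 0x328c83),
    .r (nat_lit 0x173a) (nat_lit 3) [nat_lit 0x4000001,nat_lit 0x400001,nat_lit 0x10001,nat_lit 0x6519061],
    .c (nat_lit 0) (nat_lit 0x328c85),.c (nat_lit 0) (nat_lit 0x328c83),.c (nat_lit 0) (nat_lit 0x328c85),
    .r (nat_lit 0x1b64) (nat_lit 9) [nat_lit 0x4010002,nat_lit 0x200061,nat_lit 0x6519002],
    .c (nat_lit 0) (nat_lit 0x328c85),.c (nat_lit 0) (nat_lit 0x328c83),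
    .r (nat_lit 0x161c) (nat_lit 0) [nat_lit 0x500081,nat_lit 0x400001,nat_lit 0x60110a2,nat_lit 0xc011482],
    .r (nat_lit 0x196a) (nat_lit 1) [nat_lit 0x4010002,nat_lit 0x4411482,nat_lit 0x60190a2],
    .c (nat_lit 5) (nat_lit 2),.c (nat_lit 0) (nat_lit 0x328c83),.c (nat_lit 0) (nat_lit 0x328c85),
    .c (nat_lit 0) (nat_lit 0x328c83),.r (nat_lit 0x1199) (nat_lit 12) [nat_lit 0x400001,nat_lit 0x4000061,
    nat_lit 0x65190a1,nat_lit 129],.c (nat_lit 6) (nat_lit 2),.r (nat_lit 0x173b) (nat_lit 4) [nat_lit 0x400001,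
    nat_lit 0x500081,nat_lit 0x60190a1,nat_lit 0x4000001],.c (nat_lit 7) (nat_lit 2)]]

/-- nodes -/
noncomputable def rD7k_20_28 : List RJ :=
  [.l (nat_lit 13) (nat_lit 0x780) (nat_lit 4) (nat_lit 0x490000003d900000349000002d1000003a5000003a7000003490000030300000421000003970000030d000003f300000427000003b2) (nat_lit 0xb700000000000001bf00000147000000e9000000eb0000018d00000147000000f90000006f0000009d00000183000000de00000069)
    (nat_lit 0x1ec924030031024910604741f82011168ab82e41d911305e03d90f00a486d02ee126078064c37e24e08906683ce1490c403142341890a6035018a1410b6849c18013586003c01800c006283d01e611b08603b02760de060030019217710603cc298117093040825e13d09107bc22220c0ed06d04920f40c4830022e12609803b418e19a08208343fc0f007e043018a13009786cc3401360aa03dc29a0c00ad849823a11b06a04982041d40d984142940c00b003d829a1bf11684ec2da0c709105282a80f4060070829e206127864c4020ec0a083b427a10509b04801e81f608505c43741120b90300180104088858029a10a0a784541e80e206c893855c0de09386683de0c007b87d83841ab08a85e038a1e711303241801fe0ed05342b61ba12787141b20f00ef86683b20c009ac8344180f606005c440c17807105a81e0)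
    (nat_lit 0x1ec9e00f007803c01e00f007803c01e00f007803c01e009203d93c01e00f007803c01e00f007803c01e00f007800c007803147803c01e00f007803c01e00f007803c01e0062029211a0628f007803c01e00f007803c01e00f007802490da06241e81171e00f007803c01e00f007803c01e008302ee14c079849822e3c01e00f007803c01e00f0078011d093035023610209306cc7803c01e00f007803c01e003f01e00c508604bc2601a00d98f007803c01e00f007802010c985041d813d07684d820a0f41e00f007803c01e008b437e16d09d848818e1540a503001e83c01e00f007801bc0d8049c1bc1ef0cd03dc1801c20fb04547803c01e005c82240c0060044420814d0b0053c2140f408a8f007801d90cd04d61801c20f303001ec2060b883882f00f01e006003600c006486cc36815b0a687ec3580d90cf06241e0)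
    (nat_lit 5) (nat_lit 101)
    [[nat_lit 2,nat_lit 3,nat_lit 0x100003,nat_lit 18,nat_lit 0x100012,nat_lit 0x1002,nat_lit 0x1012,nat_lit 0x101002,
    nat_lit 0x100002,nat_lit 0x200002,nat_lit 17,nat_lit 33,nat_lit 0x100021,nat_lit 0x1011,nat_lit 0x1021,
    nat_lit 0x101011,nat_lit 0x100011,nat_lit 0x200011,nat_lit 0x100101,nat_lit 0x1001,nat_lit 0x101101,
    nat_lit 0x111001,nat_lit 0x101001,nat_lit 0x201001,nat_lit 0x1101001,nat_lit 0x100001,nat_lit 0x200001,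
    nat_lit 0x300001,nat_lit 0x1200001,nat_lit 0x1100001],[nat_lit 32,nat_lit 48,nat_lit 0x1020,nat_lit 0x101020,
    nat_lit 0x100020,nat_lit 0x200020,nat_lit 272,nat_lit 0x100110,nat_lit 0x1010,nat_lit 0x1110,nat_lit 0x11010,
    nat_lit 0x111010,nat_lit 0x101010,nat_lit 0x201010,nat_lit 0x1101010,nat_lit 0x1001010,nat_lit 0x10010,
    nat_lit 0x110010,nat_lit 0x100010,nat_lit 0x200010,nat_lit 0x300010,nat_lit 0x1200010,nat_lit 0x1100010],
    [nat_lit 512,nat_lit 768,nat_lit 0x1200,nat_lit 0x10200,nat_lit 0x100200,nat_lit 0x1100,nat_lit 0x11100,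
    nat_lit 0x101100,nat_lit 0x101200,nat_lit 0x111100,nat_lit 0x10100,nat_lit 0x20100,nat_lit 0x110100,
    nat_lit 0x100100,nat_lit 0x200100,nat_lit 0x200200],[nat_lit 0x2000,nat_lit 0x102000,nat_lit 0x11000,
    nat_lit 0x21000,nat_lit 0x121000,nat_lit 0x111000,nat_lit 0x211000,nat_lit 0x1011000,nat_lit 0x101000,
    nat_lit 0x201000,nat_lit 0x301000,nat_lit 0x1201000,nat_lit 0x1101000,nat_lit 0x1001000,nat_lit 0x2001000],
    [nat_lit 0x20000,nat_lit 0x30000,nat_lit 0x120000,nat_lit 0x110000,nat_lit 0x210000],[nat_lit 0x200000,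
    nat_lit 0x300000,nat_lit 0x400000,nat_lit 0x1300000,nat_lit 0x1200000,nat_lit 0x1100000],[]]
    [.c (nat_lit 1) (nat_lit 2),.r (nat_lit 0x1045) (nat_lit 12) [nat_lit 0x30001,nat_lit 0xe039861,nat_lit 0xc600061,
    nat_lit 0x700041],.r (nat_lit 0x1046) (nat_lit 8) [nat_lit 0x40001,nat_lit 0x200041,nat_lit 0x700041,
    nat_lit 0x10600061],.c (nat_lit 0) (nat_lit 0x28c02),.c (nat_lit 0) (nat_lit 0x28c02),
    .r (nat_lit 0x1047) (nat_lit 4) [nat_lit 0x20001,nat_lit 0x528041,nat_lit 0x8420061,nat_lit 0xa029061],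
    .c (nat_lit 0) (nat_lit 0x28c02),.r (nat_lit 0x1048) (nat_lit 4) [nat_lit 0x30001,nat_lit 0x528041,
    nat_lit 0xc420061,nat_lit 0xe349861],.r (nat_lit 0x1049) (nat_lit 4) [nat_lit 0x30001,nat_lit 0x528041,
    nat_lit 0xc420061,nat_lit 0xe349861],.r (nat_lit 0x104a) (nat_lit 4) [nat_lit 0x20001,nat_lit 0x528042,
    nat_lit 0x10420062,nat_lit 0x1256a062],.c (nat_lit 0) (nat_lit 0x18c02),.c (nat_lit 0) (nat_lit 0x19402),
    .c (nat_lit 0) (nat_lit 0x19402),.c (nat_lit 5) (nat_lit 0x210803),.c (nat_lit 0) (nat_lit 0x19402),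
    .c (nat_lit 0) (nat_lit 0x18c02),.c (nat_lit 0) (nat_lit 0x18c02),.c (nat_lit 0) (nat_lit 0x18c02),
    .c (nat_lit 0) (nat_lit 0x200862),.r (nat_lit 32) (nat_lit 3) [nat_lit 0x4210061,nat_lit 65],
    .c (nat_lit 5) (nat_lit 0xc43),.c (nat_lit 1) (nat_lit 0x300002),
    .r (nat_lit 0x104b) (nat_lit 0) [nat_lit 0x318041,nat_lit 0x20001,nat_lit 0x210041,nat_lit 0xa339061],
    .r (nat_lit 0x104c) (nat_lit 4) [nat_lit 0x30001,nat_lit 0x318041,nat_lit 0xc210061,nat_lit 0xe559861],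
    .r (nat_lit 0x1047) (nat_lit 4) [nat_lit 0x20001,nat_lit 0x328041,nat_lit 0x8220061,nat_lit 0xa329061],
    .r (nat_lit 0x196f) (nat_lit 4) [nat_lit 0x6018861,nat_lit 65,nat_lit 0x10001],
    .r (nat_lit 0x104e) (nat_lit 8) [nat_lit 0x30001,nat_lit 0x400041,nat_lit 0x300041,nat_lit 0xc200061],
    .r (nat_lit 0x104f) (nat_lit 8) [nat_lit 0x40001,nat_lit 0x600041,nat_lit 0x300041,nat_lit 0x10200061],
    .r (nat_lit 0x1049) (nat_lit 4) [nat_lit 0x30001,nat_lit 0x328041,nat_lit 0xc220061,nat_lit 0xe549861],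
    .c (nat_lit 1) (nat_lit 0x10002),.c (nat_lit 2) (nat_lit 2),.r (nat_lit 0x1050) (nat_lit 10) [nat_lit 0xc000001,
    nat_lit 0x30061,nat_lit 0x630061,nat_lit 65],.r (nat_lit 0x1051) (nat_lit 4) [nat_lit 0x20061,nat_lit 0xa549041,
    nat_lit 0x10441461,nat_lit 65],.r (nat_lit 0x1052) (nat_lit 4) [nat_lit 0x6310861,nat_lit 0xa549041,
    nat_lit 0x14441461,nat_lit 0x4220c41],.r (nat_lit 0x1053) (nat_lit 6) [nat_lit 0xe039801,nat_lit 0x210041,
    nat_lit 0x320061,nat_lit 0x528041],.r (nat_lit 0x1b64) (nat_lit 9) [nat_lit 0x6018801,nat_lit 0xa000042,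
    nat_lit 0x4000001],.r (nat_lit 0x1a9a) (nat_lit 2) [nat_lit 0x6000861,nat_lit 0x4300c41,nat_lit 0x6018801],
    .c (nat_lit 2) (nat_lit 0x211062),.r (nat_lit 0x196f) (nat_lit 13) [nat_lit 0x18041,nat_lit 0x10001,
    nat_lit 0x6018801],.r (nat_lit 0x1055) (nat_lit 4) [nat_lit 0x6300861,nat_lit 0x8000001,nat_lit 0x6328841,
    nat_lit 0x4220c41],.c (nat_lit 1) (nat_lit 0x210803),.c (nat_lit 2) (nat_lit 0x300002),
    .r (nat_lit 0x1024) (nat_lit 4) [nat_lit 0x6300861,nat_lit 0x6328841,nat_lit 0xc220c61,nat_lit 0x4220c41],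
    .r (nat_lit 0x1056) (nat_lit 4) [nat_lit 0xa519061,nat_lit 0x6328841,nat_lit 0x10220c61,nat_lit 0x8441441],
    .c (nat_lit 5) (nat_lit 0x200803),.c (nat_lit 0) (nat_lit 0xc02),.r (nat_lit 32) (nat_lit 9) [nat_lit 0x4210061,
    nat_lit 65],.r (nat_lit 0x1057) (nat_lit 1) [nat_lit 0x318041,nat_lit 0x8210061,nat_lit 0xa029001,
    nat_lit 0x210041],.r (nat_lit 0x1058) (nat_lit 6) [nat_lit 0xa029001,nat_lit 0x210041,nat_lit 0x310061,
    nat_lit 0x318041],.r (nat_lit 0x1059) (nat_lit 6) [nat_lit 0xe039801,nat_lit 0x420041,nat_lit 0x510061,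
    nat_lit 0x318041],.r (nat_lit 0x105a) (nat_lit 6) [nat_lit 0x1204a001,nat_lit 0x630041,nat_lit 0x710061,
    nat_lit 0x318041],.c (nat_lit 0) (nat_lit 0xc02),.c (nat_lit 0) (nat_lit 0xc02),.c (nat_lit 3) (nat_lit 2),
    .r (nat_lit 0x105b) (nat_lit 10) [nat_lit 0x18661c41,nat_lit 0xe769861,nat_lit 0x30001,nat_lit 0xe039861],
    .r (nat_lit 0x105c) (nat_lit 4) [nat_lit 0x30001,nat_lit 0x6549061,nat_lit 0x10441441,nat_lit 0xa328841],
    .r (nat_lit 0x1b92) (nat_lit 4) [nat_lit 0xa029061,nat_lit 0x10001,nat_lit 65],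
    .r (nat_lit 0x1a9a) (nat_lit 2) [nat_lit 0xa329061,nat_lit 0x8021441,nat_lit 0x6018801],
    .r (nat_lit 0x1b5f) (nat_lit 4) [nat_lit 0x10001,nat_lit 0x200001,nat_lit 0x4210c41,nat_lit 0x6318801],
    .r (nat_lit 0x104a) (nat_lit 4) [nat_lit 0x20001,nat_lit 0x328861,nat_lit 0x8220c41,nat_lit 0xa328841],
    .r (nat_lit 0x196f) (nat_lit 13) [nat_lit 0x4210c41,nat_lit 0x10001,nat_lit 0x6018801],
    .r (nat_lit 0x1055) (nat_lit 4) [nat_lit 0xa529061,nat_lit 0x8000001,nat_lit 65,nat_lit 0x8441441],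
    .c (nat_lit 1) (nat_lit 0xc43),.r (nat_lit 0x1ae3) (nat_lit 5) [nat_lit 0x10001,nat_lit 65,nat_lit 0x6328861],
    .r (nat_lit 0x105d) (nat_lit 4) [nat_lit 0x30001,nat_lit 0x4328861,nat_lit 0x8220c41,nat_lit 0x12549041],
    .r (nat_lit 32) (nat_lit 9) [nat_lit 0x18861,nat_lit 0x4220c41],.c (nat_lit 0) (nat_lit 0x319443),
    .r (nat_lit 0x1058) (nat_lit 6) [nat_lit 0xa029001,nat_lit 0x4430c41,nat_lit 0x6518861,nat_lit 0x4010c41],
    .c (nat_lit 2) (nat_lit 0x4220a2),.c (nat_lit 4) (nat_lit 2),.c (nat_lit 0) (nat_lit 0x400003),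
    .c (nat_lit 0) (nat_lit 0x200003),.c (nat_lit 0) (nat_lit 0x400003),.c (nat_lit 5) (nat_lit 0x300002),
    .c (nat_lit 0) (nat_lit 0x200003),.c (nat_lit 6) (nat_lit 0x300002),
    .r (nat_lit 0x1b64) (nat_lit 9) [nat_lit 0x6018801,nat_lit 0x10061,nat_lit 0x4000001],
    .c (nat_lit 0) (nat_lit 0x200003),.c (nat_lit 0) (nat_lit 0x400003),
    .r (nat_lit 0x105e) (nat_lit 4) [nat_lit 0xe739861,nat_lit 65,nat_lit 0xc000061,nat_lit 0xc661c41],
    .r (nat_lit 0x104b) (nat_lit 0) [nat_lit 0x18041,nat_lit 0x20001,nat_lit 0x410041,nat_lit 0xa539061],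
    .r (nat_lit 32) (nat_lit 3) [nat_lit 0x4010061,nat_lit 0x200041],
    .r (nat_lit 0x196a) (nat_lit 1) [nat_lit 0x6018801,nat_lit 0x6000041,nat_lit 0x4010061],
    .r (nat_lit 0x1043) (nat_lit 4) [nat_lit 0xa318841,nat_lit 0x6529061,nat_lit 0x10421441,nat_lit 0x8240c61],
    .c (nat_lit 5) (nat_lit 2),.r (nat_lit 0x105f) (nat_lit 4) [nat_lit 0x1a739841,nat_lit 0xc000061,nat_lit 65,
    nat_lit 0x18661c61],.c (nat_lit 0) (nat_lit 0x400003),.c (nat_lit 0) (nat_lit 0x200003),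
    .c (nat_lit 0) (nat_lit 0x400003),.c (nat_lit 6) (nat_lit 2),.r (nat_lit 0x1060) (nat_lit 2) [nat_lit 0xe039801,
    nat_lit 0xc661c41,nat_lit 0xc000061,nat_lit 65],.r (nat_lit 0x1061) (nat_lit 2) [nat_lit 0xa029001,
    nat_lit 0x10882442,nat_lit 0x10000062,nat_lit 66],.r (nat_lit 0x104e) (nat_lit 8) [nat_lit 0x30001,
    nat_lit 0x600041,nat_lit 65,nat_lit 0xc000061],.r (nat_lit 0x196f) (nat_lit 4) [nat_lit 0x6318861,
    nat_lit 0x200041,nat_lit 0x10001],.c (nat_lit 0) (nat_lit 0x18003)],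
    .l (nat_lit 12) (nat_lit 960) (nat_lit 3) (nat_lit 0x16f0000016f0000016f0000016f000001470000016f000001870000018700000181000001930000019e0000019e0000016f0000016f) (nat_lit 0x2f0000002f0000002f0000002f0000002f0000005700000017000000170000000b0000001d00000000000000000000002f0000002f)
    (nat_lit 0x13814014814016011015815816c15216f11914014814013814814017011815816017c16216f16f14014814014014014013811014812816415216715714814014814814014010a11816012816412416f16f1481401181101181101480f015e16613c12214714711011817016010a1381981481501580f015218f16f14011216015812812815816617011817c1721b51fb13813815815816014815015e17017017416a1c520b15815016215212415215212216a1720f216418918915211417c16c1641640f013c17417c1880f21931931ba17c16f11916f15716f14720b1fb19318918619e16716f16f16f16f16718f1471c51b519318919e18616716f14814814014011211815013817c11416f16f1401401401401481481401101581381ba152167167140140)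
    (nat_lit 0x1383c03c03c03c03c03c03c03c03c03c03c03c03c01401383c03c03c03c03c03c03c03c03c03c03c03c01481481403c03c03c03c03c03c03c03c03c03c03c01401401401403c03c03c03c03c03c03c03c03c03c016017013810a1483c03c03c03c03c03c03c03c03c01101181101180f01483c03c03c03c03c03c03c03c015815814816015e1501703c03c03c03c03c03c03c01581601281281661581181703c03c03c03c03c03c016c17c16416413c0f017c1740f23c03c03c03c03c015216215212412215217216a1640f23c03c03c03c016f16f16716f14718f1b51c51891931863c03c03c011916f15716f14716f1fb20b18919319e1863c03c01401401481481101401381581521ba1671671403c014814814014011811213815011417c16f16f140140)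
    (nat_lit 5) (nat_lit 47)
    [[nat_lit 2,nat_lit 0x10002,nat_lit 17,nat_lit 257,nat_lit 0x10101,nat_lit 0x1001,nat_lit 0x11001,nat_lit 0x10001,
    nat_lit 0x20001,nat_lit 0x110001,nat_lit 0x1010001,nat_lit 0x100001,nat_lit 0x1000001],[nat_lit 32,nat_lit 272,
    nat_lit 0x10010,nat_lit 0x110010,nat_lit 0x100010,nat_lit 0x1000010],[nat_lit 512,nat_lit 768,nat_lit 0x10200,
    nat_lit 0x100200,nat_lit 0x1100,nat_lit 0x10100,nat_lit 0x110100,nat_lit 0x20100,nat_lit 0x1010100,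
    nat_lit 0x100100,nat_lit 0x1000100],[nat_lit 0x2000,nat_lit 0x11000,nat_lit 0x111000,nat_lit 0x21000,
    nat_lit 0x101000,nat_lit 0x201000,nat_lit 0x1001000],[nat_lit 0x20000,nat_lit 0x120000,nat_lit 0x110000,
    nat_lit 0x210000,nat_lit 0x1110000,nat_lit 0x1010000,nat_lit 0x2010000],[nat_lit 0x200000,nat_lit 0x1100000],
    [nat_lit 0x2000000,nat_lit 0x3000000]]
    [.c (nat_lit 1) (nat_lit 2),.r (nat_lit 0x1b5d) (nat_lit 7) [nat_lit 0x1183000e6,nat_lit 0x1402000c6,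
    nat_lit 0x200042],.c (nat_lit 0) (nat_lit 0x4600007),.c (nat_lit 0) (nat_lit 0x718cc7),
    .r (nat_lit 4) (nat_lit 6) [nat_lit 0x6000861,nat_lit 0xc03000c3],
    .r (nat_lit 0x1b5d) (nat_lit 7) [nat_lit 0x985000e6,nat_lit 0xc04000c6,nat_lit 0x808000c6],
    .c (nat_lit 2) (nat_lit 0x4c10007),.c (nat_lit 0) (nat_lit 0x4610007),
    .r (nat_lit 0x1b5d) (nat_lit 7) [nat_lit 0x8c2000e3,nat_lit 0xc03000c3,nat_lit 65],
    .c (nat_lit 1) (nat_lit 0x18c06),.r (nat_lit 32) (nat_lit 7) [nat_lit 0x6000861,nat_lit 0xc03000c3],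
    .c (nat_lit 0) (nat_lit 0x4600807),.c (nat_lit 0) (nat_lit 0x718cc7),.c (nat_lit 2) (nat_lit 2),
    .r (nat_lit 4) (nat_lit 3) [nat_lit 0x210003,nat_lit 65],.c (nat_lit 0) (nat_lit 0x4610007),
    .c (nat_lit 2) (nat_lit 0x18c06),.c (nat_lit 0) (nat_lit 0x4600807),
    .r (nat_lit 0x1aa7) (nat_lit 1) [nat_lit 0x6000041,nat_lit 0x210003,nat_lit 0x4000001],.c (nat_lit 3) (nat_lit 2),
    .r (nat_lit 32) (nat_lit 7) [nat_lit 0x10043,nat_lit 0xce319863],.r (nat_lit 32) (nat_lit 7) [nat_lit 0x3200c6,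
    nat_lit 0x15a32b0e6],.r (nat_lit 0x12d5) (nat_lit 10) [nat_lit 0x8000001,nat_lit 0x420003,nat_lit 0x1725030e3,
    nat_lit 0x118028003],.r (nat_lit 4) (nat_lit 6) [nat_lit 0xce3018e3,nat_lit 65],
    .r (nat_lit 0x1b93) (nat_lit 8) [nat_lit 0x4000001,nat_lit 0xce3000c3,nat_lit 0x6000861],
    .c (nat_lit 3) (nat_lit 0x18c06),.r (nat_lit 32) (nat_lit 7) [nat_lit 0x5100c3,nat_lit 0xce2198e3],
    .r (nat_lit 0x1b5d) (nat_lit 7) [nat_lit 0x98311cc3,nat_lit 0xce2198e3,nat_lit 0xe4198e3],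
    .r (nat_lit 32) (nat_lit 5) [nat_lit 0xce3018e3,nat_lit 65],.c (nat_lit 0) (nat_lit 0x718cc7),
    .c (nat_lit 4) (nat_lit 2),.r (nat_lit 0x1b5d) (nat_lit 7) [nat_lit 0x4000061,nat_lit 65,nat_lit 0x802000c3],
    .c (nat_lit 2) (nat_lit 0x610807),.c (nat_lit 0) (nat_lit 0x4028006),.c (nat_lit 1) (nat_lit 0x4000c06),
    .r (nat_lit 0x1b5d) (nat_lit 7) [nat_lit 0xc3200e3,nat_lit 0x2280c3,nat_lit 0x804280c3],
    .r (nat_lit 32) (nat_lit 7) [nat_lit 0xce3018e3,nat_lit 65],.c (nat_lit 5) (nat_lit 2),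
    .c (nat_lit 0) (nat_lit 0x20807),.c (nat_lit 0) (nat_lit 0x10807),.c (nat_lit 0) (nat_lit 0x11007),
    .c (nat_lit 7) (nat_lit 0x18c06),.r (nat_lit 0x1ae3) (nat_lit 4) [nat_lit 0x4000001,nat_lit 65,
    nat_lit 0x802000e3],.r (nat_lit 4) (nat_lit 6) [nat_lit 0x3200c6,nat_lit 0x15a32b0e6],.c (nat_lit 6) (nat_lit 2),
    .r (nat_lit 4) (nat_lit 0) [nat_lit 0xce3018e3,nat_lit 65],.c (nat_lit 7) (nat_lit 2),
    .r (nat_lit 4) (nat_lit 6) [nat_lit 0x10043,nat_lit 0xce319863]]]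

/-- nodes -/
noncomputable def rD7k_20_29 : List RJ :=
  [.l (nat_lit 8) (nat_lit 60) (nat_lit 4) (nat_lit 0x1800000018000000180000001800000018000000180000001800000018000000170000001a0000001c0000001c0000001800000018) (nat_lit 0x400000004000000040000000400000004000000040000000400000004000000020000000500000000000000000000000400000004)
    (nat_lit 0x14141414141414140a1318151414141414141414141413131817141414141414141414141713181b141414141414141414141713181b1414141414141414141413131817141414141414141414140c131817140b1414141414141414171321221414141414141414141417131a1b14141313131313131313121217161311130a17170c13171718120e1a191717151b1b17171b221a161b1c24241818181818181a210e171c1b1818141414140b1414141711182414141414141414141414191318241414)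
    (nat_lit 0x143c3c3c3c3c3c3c3c3c3c3c3c3c14143c3c3c3c3c3c3c3c3c3c3c3c1414143c3c3c3c3c3c3c3c3c3c3c141414143c3c3c3c3c3c3c3c3c3c14141414143c3c3c3c3c3c3c3c3c1414141414143c3c3c3c3c3c3c3c141414141414143c3c3c3c3c3c3c14141414141414143c3c3c3c3c3c0a131717130c1717123c3c3c3c3c131313131313131312123c3c3c3c181818181818211a170e1b3c3c3c15171b1b1717221b161a1c1b3c3c141414141414141413192418143c14141414140b1414111722181414)
    (nat_lit 5) (nat_lit 49)
    [[nat_lit 2,nat_lit 0x10002,nat_lit 0x10011,nat_lit 257,nat_lit 0x10101,nat_lit 0x1000101,nat_lit 0x1001,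
    nat_lit 0x11001,nat_lit 0x10001,nat_lit 0x20001,nat_lit 0x100001,nat_lit 0x110001,nat_lit 0x1000001,
    nat_lit 0x1010001],[nat_lit 32,nat_lit 272,nat_lit 0x10110,nat_lit 0x1000110,nat_lit 528,nat_lit 0x10010,
    nat_lit 0x100010,nat_lit 0x1000010],[nat_lit 512,nat_lit 768,nat_lit 0x10200,nat_lit 0x1000200,nat_lit 0x1100,
    nat_lit 0x10100,nat_lit 0x11100,nat_lit 0x20100,nat_lit 0x110100,nat_lit 0x1010100,nat_lit 0x100100,
    nat_lit 0x1000100,nat_lit 0x2000200,nat_lit 0x1001100,nat_lit 0x1100100,nat_lit 0x2000100],[nat_lit 0x2000,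
    nat_lit 0x11000,nat_lit 0x101000,nat_lit 0x1001000],[nat_lit 0x20000,nat_lit 0x110000,nat_lit 0x1010000],
    [nat_lit 0x200000,nat_lit 0x1100000],[nat_lit 0x2000000]]
    [.c (nat_lit 1) (nat_lit 2),.r (nat_lit 0x1b5d) (nat_lit 13) [nat_lit 0x218001,nat_lit 0x4010001,nat_lit 65],
    .c (nat_lit 0) (nat_lit 0x300c02),.r (nat_lit 4) (nat_lit 9) [nat_lit 0x6310861,nat_lit 0x218041],
    .r (nat_lit 8) (nat_lit 3) [nat_lit 0x6300861,nat_lit 0x4200001],.c (nat_lit 1) (nat_lit 0x318843),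
    .c (nat_lit 1) (nat_lit 0x18802),.r (nat_lit 0x1b5d) (nat_lit 13) [nat_lit 0x218001,nat_lit 0x4010001,
    nat_lit 0x310041],.r (nat_lit 10) (nat_lit 4) [nat_lit 0x218041,nat_lit 0x4010001],
    .r (nat_lit 0x178e) (nat_lit 4) [nat_lit 0x20041,nat_lit 0x618041,nat_lit 0x18041,nat_lit 0xc010061],
    .r (nat_lit 0x1750) (nat_lit 4) [nat_lit 0x4010001,nat_lit 0x218041],.c (nat_lit 1) (nat_lit 0x802),
    .r (nat_lit 4) (nat_lit 13) [nat_lit 0x6000861,nat_lit 65],.r (nat_lit 0x1b60) (nat_lit 13) [nat_lit 0x6300861,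
    nat_lit 0x218001,nat_lit 0x4010001],.c (nat_lit 2) (nat_lit 2),.r (nat_lit 0x1aa5) (nat_lit 7) [nat_lit 0x200001,
    nat_lit 0x6000041,nat_lit 0x4000001],.r (nat_lit 0x1085) (nat_lit 7) [nat_lit 0xe318881,nat_lit 0x80000a1,
    nat_lit 0x6310801,nat_lit 0xc210c01],.c (nat_lit 1) (nat_lit 0x19043),
    .r (nat_lit 0x1086) (nat_lit 7) [nat_lit 0x6529061,nat_lit 0x6531061,nat_lit 0x18421441,nat_lit 0xe318881],
    .c (nat_lit 0) (nat_lit 0x200003),.c (nat_lit 0) (nat_lit 0x200003),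
    .r (nat_lit 0x1aa5) (nat_lit 1) [nat_lit 0x6000041,nat_lit 0x10001,nat_lit 0x4000001],.c (nat_lit 3) (nat_lit 2),
    .r (nat_lit 0x1087) (nat_lit 7) [nat_lit 0xe739861,nat_lit 0xe731861,nat_lit 0x24631c41,nat_lit 129],
    .r (nat_lit 0x1088) (nat_lit 7) [nat_lit 0xa529061,nat_lit 0xa521061,nat_lit 0x18421441,nat_lit 129],
    .r (nat_lit 0x1a22) (nat_lit 10) [nat_lit 0x310001,nat_lit 0x4200001,nat_lit 0x4010c41],
    .r (nat_lit 4) (nat_lit 9) [nat_lit 0x6000861,nat_lit 65],.r (nat_lit 0x1b93) (nat_lit 7) [nat_lit 65,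
    nat_lit 0x200001,nat_lit 0x6300861],.r (nat_lit 8) (nat_lit 3) [nat_lit 0x6018861,nat_lit 0x4200001],
    .r (nat_lit 0x1b6d) (nat_lit 0) [nat_lit 0x218001,nat_lit 0x4010001,nat_lit 0x6318861,nat_lit 0x18001],
    .r (nat_lit 4) (nat_lit 9) [nat_lit 0x6300861,nat_lit 0x200041],
    .r (nat_lit 0x174d) (nat_lit 4) [nat_lit 0x6018861,nat_lit 0x4010001],
    .r (nat_lit 0x1b04) (nat_lit 13) [nat_lit 0x4010001,nat_lit 65],.r (nat_lit 32) (nat_lit 8) [nat_lit 0x6000861,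
    nat_lit 65],.c (nat_lit 1) (nat_lit 0x529083),.c (nat_lit 1) (nat_lit 0x300043),
    .r (nat_lit 4) (nat_lit 8) [nat_lit 0x6018861,nat_lit 0x4010001],
    .r (nat_lit 0x1b11) (nat_lit 1) [nat_lit 0x310001,nat_lit 0x4200001,nat_lit 0x4010c41],.c (nat_lit 4) (nat_lit 2),
    .r (nat_lit 10) (nat_lit 4) [nat_lit 65,nat_lit 0x4010001],.r (nat_lit 0x1750) (nat_lit 4) [nat_lit 0x4010001,
    nat_lit 65],.r (nat_lit 4) (nat_lit 13) [nat_lit 0x6218861,nat_lit 0x310041],.c (nat_lit 5) (nat_lit 2),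
    .c (nat_lit 0) (nat_lit 0xc03),.r (nat_lit 0x1063) (nat_lit 11) [nat_lit 129,nat_lit 0x6310861,nat_lit 0xc210c41,
    nat_lit 0x6218861],.c (nat_lit 6) (nat_lit 2),.r (nat_lit 0x1750) (nat_lit 5) [nat_lit 65,nat_lit 0x4200001],
    .c (nat_lit 7) (nat_lit 2)],
    .l (nat_lit 10) (nat_lit 240) (nat_lit 3) (nat_lit 0x61000000610000005f0000005f00000064000000640000005c0000005c000000590000005900000059000000590000004d00000061) (nat_lit 0x3000000030000000500000005000000000000000000000008000000080000000b0000000b0000000b0000000b0000000300000017)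
    (nat_lit 0x178521685c1dc8d18c591585614058178521785e1705c18c7916c5913056158501784a1705c1085a17c5f15c55168521505e170481705a1684217c5f16457170541405a0c0481e48d17c5f190641705c14c571645118c5118c7717c5f190641705c14c5516459184511645915c551705c16054144511345710c4516c63164571705c1385812c511544b1643f1585615052154571445115054150541303e130561705a14c5312c51138541384e15038140581685e1645112c57138541604e158421585014054164591544d1385413858138421285212048144510fc450e03e10842140361785e0c05c18463164431504c138561a850)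
    (nat_lit 0x178f03c0f03c0f03c0f03c0f03c0f03c0f01485e3c0f03c0f03c0f03c0f03c0f03c0f01685c108f03c0f03c0f03c0f03c0f03c0f01705c168423c0f03c0f03c0f03c0f03c0f01dc6317c5f190f03c0f03c0f03c0f03c0f02347917c5f190643c0f03c0f03c0f03c0f018c5b15c591705c160f03c0f03c0f03c0f016459154571705c150583c0f03c0f03c0f01584c1685c14c531444b150f03c0f03c0f0158561485415c5514451150543c0f03c0f0140561505016459134551504e160f03c0f0160501785a1445915c4b1504e138583c0f01785e1703018c6110c59130541584e140f01484a12048144511143f0f838108420d850)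
    (nat_lit 4) (nat_lit 59)
    [[nat_lit 2,nat_lit 18,nat_lit 258,nat_lit 0x1002,nat_lit 0x100002,nat_lit 17,nat_lit 33,nat_lit 273,
    nat_lit 0x1011,nat_lit 0x100011,nat_lit 257,nat_lit 513,nat_lit 0x1101,nat_lit 0x100101,nat_lit 0x1000101,
    nat_lit 0x1001,nat_lit 0x2001,nat_lit 0x101001,nat_lit 0x10001,nat_lit 0x100001,nat_lit 0x200001,nat_lit 0x110001,
    nat_lit 0x1100001,nat_lit 0x1000001],[nat_lit 32,nat_lit 272,nat_lit 0x1110,nat_lit 0x1010,nat_lit 0x10010,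
    nat_lit 0x100010,nat_lit 0x1000010],[nat_lit 512,nat_lit 0x1100,nat_lit 0x10100,nat_lit 0x100100,
    nat_lit 0x1000100],[nat_lit 0x2000,nat_lit 0x11000,nat_lit 0x101000,nat_lit 0x1001000],[nat_lit 0x20000,
    nat_lit 0x110000],[nat_lit 0x200000,nat_lit 0x300000,nat_lit 0x1100000],[nat_lit 0x2000000]]
    [.c (nat_lit 1) (nat_lit 2),.r (nat_lit 0x174d) (nat_lit 1) [nat_lit 0x200231,nat_lit 0x330021],
    .c (nat_lit 1) (nat_lit 0x2232),.r (nat_lit 0x17f0) (nat_lit 2) [nat_lit 0x33201,nat_lit 33,nat_lit 0x330001,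
    nat_lit 0x20031],.r (nat_lit 0x1023) (nat_lit 2) [nat_lit 33,nat_lit 0x55431,nat_lit 0x40001,nat_lit 0x444031],
    .c (nat_lit 0) (nat_lit 0x22203),.r (nat_lit 0x17ef) (nat_lit 6) [nat_lit 0x33201,nat_lit 0x466331,
    nat_lit 0x22321,nat_lit 0x573221],.c (nat_lit 2) (nat_lit 0x2232),.r (nat_lit 32) (nat_lit 7) [nat_lit 0x3231,
    nat_lit 0x330021],.r (nat_lit 4) (nat_lit 0) [nat_lit 0x3231,nat_lit 0x330021],.c (nat_lit 0) (nat_lit 0x3323),
    .c (nat_lit 3) (nat_lit 0x2232),.c (nat_lit 4) (nat_lit 0x2232),.c (nat_lit 6) (nat_lit 0x2232),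
    .c (nat_lit 5) (nat_lit 0x3023),.r (nat_lit 0x1b90) (nat_lit 2) [nat_lit 0x33201,nat_lit 33,nat_lit 0x330001,
    nat_lit 0x20031],.r (nat_lit 0x17bc) (nat_lit 2) [nat_lit 0x33201,nat_lit 33,nat_lit 0x330001,nat_lit 0x40031],
    .r (nat_lit 8) (nat_lit 1) [nat_lit 0x3231,nat_lit 0x2001],.c (nat_lit 0) (nat_lit 0x22203),
    .r (nat_lit 0x1024) (nat_lit 2) [nat_lit 0x202021,nat_lit 0x242031,nat_lit 0x357431,nat_lit 0x303021],
    .r (nat_lit 0x1025) (nat_lit 2) [nat_lit 0x404021,nat_lit 0x262031,nat_lit 0x57b631,nat_lit 0x303021],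
    .r (nat_lit 0x1026) (nat_lit 2) [nat_lit 0x202021,nat_lit 0x242031,nat_lit 0x357431,nat_lit 0x303021],
    .r (nat_lit 0x1941) (nat_lit 2) [nat_lit 0x33201,nat_lit 0x300031,nat_lit 0x330001,nat_lit 0x220021],
    .r (nat_lit 0x174d) (nat_lit 1) [nat_lit 0x30231,nat_lit 33],.c (nat_lit 2) (nat_lit 2),
    .r (nat_lit 0x1750) (nat_lit 13) [nat_lit 33,nat_lit 0x2001],.r (nat_lit 0x1027) (nat_lit 2) [nat_lit 0x200231,
    nat_lit 0x244321,nat_lit 0x355221,nat_lit 0x305231],.c (nat_lit 0) (nat_lit 0x2003),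
    .c (nat_lit 3) (nat_lit 0x35522),.c (nat_lit 0) (nat_lit 0x2003),.r (nat_lit 0x17ef) (nat_lit 6) [nat_lit 0x33201,
    nat_lit 0x246331,nat_lit 0x242321,nat_lit 0x353221],.c (nat_lit 3) (nat_lit 2),
    .r (nat_lit 4) (nat_lit 6) [nat_lit 0x333231,nat_lit 33],.r (nat_lit 8) (nat_lit 6) [nat_lit 0x30231,nat_lit 33],
    .r (nat_lit 32) (nat_lit 5) [nat_lit 0x333231,nat_lit 33],.c (nat_lit 2) (nat_lit 0x24232),
    .c (nat_lit 4) (nat_lit 2),.r (nat_lit 0x1b95) (nat_lit 3) [nat_lit 0x333021,nat_lit 0x330001,nat_lit 0x222001],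
    .c (nat_lit 0) (nat_lit 0x2003),.r (nat_lit 32) (nat_lit 7) [nat_lit 0x333231,nat_lit 33],
    .c (nat_lit 5) (nat_lit 2),.r (nat_lit 0x174d) (nat_lit 6) [nat_lit 0x33201,nat_lit 33],
    .c (nat_lit 6) (nat_lit 2),.r (nat_lit 0x1028) (nat_lit 7) [nat_lit 0x6001,nat_lit 33,nat_lit 0x77601,
    nat_lit 0x6c6701],.r (nat_lit 4) (nat_lit 0) [nat_lit 0x333231,nat_lit 33],.c (nat_lit 7) (nat_lit 2)],
    .l (nat_lit 10) (nat_lit 240) (nat_lit 3) (nat_lit 0x70000000700000005a0000007800000065000000650000006e0000005a000000650000006500000064000000640000005b0000006d) (nat_lit 0x800000008000000000000001e00000013000000130000001e0000000a000000130000001300000014000000140000000b0000001d)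
    (nat_lit 0x1a0671c0582108e160661305d13456194621a0681c0521886c148661745d1705c17c5c1485812c3c11c470f04b11c470f44613c3d1c0701e04b194651686f19465194680f05b1b08e194471445211c5b13852144511684718884194471405111c5b148521445116846198661bc4b16c5b1406616c5b1705a0f051148581683c11c470f05011c471184413c3d1745d194471485211c5b1505214451150481744c194471484e11c5b150541445118048170561a046144511105a144511404e1a8471704d1943d144511185c1445114850128471706216c3d118470f4511204811c4717c3c17c650f04f1685a13c3c180541286a18c5f)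
    (nat_lit 0x1a0f03c0f03c0f03c0f03c0f03c0f03c0f019c683c0f03c0f03c0f03c0f03c0f03c0f01c07012cf03c0f03c0f03c0f03c0f03c0f0160520f04b3c0f03c0f03c0f03c0f03c0f02106211c65144f03c0f03c0f03c0f03c0f02386c11c65148513c0f03c0f03c0f03c0f0160520f05a11c47140f03c0f03c0f03c0f01986612c6f16c5b198503c0f03c0f03c0f01305d11c651385216c47150f03c0f03c0f01745d11c651485216c47148543c0f03c0f01345c0f465144511704614451140f03c0f01585c11868144511684414451138503c0f01945f13c3c1685a0f04f150601a84a17cf01885c0f45b11c461443d1204811c470f05f)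
    (nat_lit 5) (nat_lit 59)
    [[nat_lit 2,nat_lit 0x1002,nat_lit 0x100002,nat_lit 17,nat_lit 33,nat_lit 273,nat_lit 0x1011,nat_lit 0x10011,
    nat_lit 0x100011,nat_lit 257,nat_lit 0x1101,nat_lit 0x10101,nat_lit 0x1001,nat_lit 0x2001,nat_lit 0x11001,
    nat_lit 0x101001,nat_lit 0x10001,nat_lit 0x100001,nat_lit 0x100101,nat_lit 0x110001,nat_lit 0x200001,
    nat_lit 0x1000001],[nat_lit 32,nat_lit 272,nat_lit 0x1010,nat_lit 0x10010,nat_lit 0x100010,nat_lit 0x1000010],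
    [nat_lit 512,nat_lit 0x1100,nat_lit 0x10100,nat_lit 0x100100,nat_lit 0x1000100],[nat_lit 0x2000,nat_lit 0x11000,
    nat_lit 0x101000,nat_lit 0x1001000],[nat_lit 0x20000,nat_lit 0x110000],[nat_lit 0x200000,nat_lit 0x300000,
    nat_lit 0x1100000],[nat_lit 0x2000000]]
    [.c (nat_lit 1) (nat_lit 2),.c (nat_lit 6) (nat_lit 0x4310862),.r (nat_lit 0x1b96) (nat_lit 7) [nat_lit 0x200001,
    nat_lit 0x86000041,nat_lit 0xc0518861],.r (nat_lit 4) (nat_lit 3) [nat_lit 0x4210061,nat_lit 0x86000041],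
    .r (nat_lit 0x1193) (nat_lit 11) [nat_lit 0x1c6028041,nat_lit 0x10a000081,nat_lit 0xc492a061,nat_lit 0x184820061],
    .c (nat_lit 5) (nat_lit 0x4220803),.r (nat_lit 32) (nat_lit 6) [nat_lit 0x300861,nat_lit 0x80410c41],
    .c (nat_lit 6) (nat_lit 0x210803),.c (nat_lit 5) (nat_lit 0x210803),.c (nat_lit 1) (nat_lit 0x6200002),
    .c (nat_lit 6) (nat_lit 0x10862),.r (nat_lit 32) (nat_lit 6) [nat_lit 0x6300041,nat_lit 0x84410061],
    .c (nat_lit 0) (nat_lit 0x6028c43),.r (nat_lit 0x1b5d) (nat_lit 6) [nat_lit 0xc0318861,nat_lit 0x80410c41,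
    nat_lit 65],.c (nat_lit 5) (nat_lit 0x4020862),.r (nat_lit 4) (nat_lit 1) [nat_lit 0xc4300861,nat_lit 0x80410c41],
    .c (nat_lit 6) (nat_lit 0x318002),.c (nat_lit 0) (nat_lit 0xa428889),
    .r (nat_lit 0x1b96) (nat_lit 7) [nat_lit 0x200001,nat_lit 65,nat_lit 0x6518861],.c (nat_lit 2) (nat_lit 0x210803),
    .r (nat_lit 0x108f) (nat_lit 6) [nat_lit 0x86501061,nat_lit 0x148501061,nat_lit 0xca338841,nat_lit 0x86200c81],
    .c (nat_lit 0) (nat_lit 0x6018c43),.c (nat_lit 2) (nat_lit 2),.r (nat_lit 4) (nat_lit 3) [nat_lit 0x80210061,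
    nat_lit 65],.r (nat_lit 0x1ae3) (nat_lit 12) [nat_lit 0x200001,nat_lit 65,nat_lit 0xc0518861],
    .r (nat_lit 32) (nat_lit 6) [nat_lit 0x80210061,nat_lit 65],.c (nat_lit 0) (nat_lit 0x805),
    .r (nat_lit 0x1aa8) (nat_lit 6) [nat_lit 0x4410c01,nat_lit 0x4210c41,nat_lit 0x6318801],
    .c (nat_lit 3) (nat_lit 2),.c (nat_lit 0) (nat_lit 0x328c43),.c (nat_lit 6) (nat_lit 0x6018002),
    .c (nat_lit 0) (nat_lit 0x8528889),.c (nat_lit 0) (nat_lit 0x318c43),.c (nat_lit 4) (nat_lit 2),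
    .r (nat_lit 0x1b5d) (nat_lit 6) [nat_lit 0x200061,nat_lit 65,nat_lit 0xc0518841],
    .r (nat_lit 0x1b93) (nat_lit 6) [nat_lit 65,nat_lit 0x4410c01,nat_lit 0x300861],
    .c (nat_lit 0) (nat_lit 0x6018c43),.c (nat_lit 5) (nat_lit 2),.r (nat_lit 4) (nat_lit 1) [nat_lit 0x4210061,
    nat_lit 65],.c (nat_lit 6) (nat_lit 2),.r (nat_lit 0x108e) (nat_lit 2) [nat_lit 0x1c0d39801,nat_lit 0x18d261c61,
    nat_lit 0xed39801,nat_lit 65],.c (nat_lit 1) (nat_lit 0x200002),.c (nat_lit 7) (nat_lit 2)]]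

/-- nodes -/
noncomputable def rD7k_20_30 : List RJ :=
  [.l (nat_lit 14) (nat_lit 0xca8) (nat_lit 3) (nat_lit 0x4ce000005ee0000062d0000062d000006660000046a0000058400000594000004c20000052a0000059c0000057e0000052f0000052f) (nat_lit 0x78000001980000003900000039000001fc00000000000000d2000000e20000013c000001a4000000e8000000ca0000013700000137)
    (nat_lit 0x1168332125448d0ca85980ff03ec0e2832a0e104080e5c3f515d845a16d45b50e205fa147050c0e5832a15a052412fc4b716d448d17a05f410c462d19ec5b513c4489151467f13c849416d449517d05e80efc62d1bcc62d13c448518a476310b047e17e859818b462d0e2066616605f60ca832a17d859c14bc44b0e2032a0efc4310ca83880ca83880cb832a0e1032a0ccc33314303ec18b45b50e205f611383e612f844e12704ba0fd444b14703fc1bcc67b0ca859811d044e13483f012b041811744650ca832a12144890ca832a0fc044e10e036c0f4837e0e2c38b0e5838a13c44f10cb832a13484be141043811084600fbc3f314904081d8c67f0ca859c10604ba118037e12d03bc11b446515a038418a45450e105f612b049c11083d210e04b40fa444712dc3f511f84940ccc44b119444b0fcc38b111c465116845612fc39710b04f20ccc52f11743f50fbc38b0fa446d0ff045a)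
    (nat_lit 0x1168ca832a0ca832a0ca832a0ca832a0ca832a0ca832a0ca80cc845a32a0ca832a0ca832a0ca832a0ca832a0ca832a0ca812545b517a0ca832a0ca832a0ca832a0ca832a0ca832a0ca812345b517d05e832a0ca832a0ca832a0ca832a0ca832a0ca80ca838810c43bf0e20ca832a0ca832a0ca832a0ca832a0ca816605fa18b462d199838832a0ca832a0ca832a0ca832a0ca80ff051c19ec6f3166032a1138ca832a0ca832a0ca832a0ca80fb050c16d462d17d83880f9844e32a0ca832a0ca832a0ca80e2839613c44f10ca832e12f84d210e0ca832a0ca832a0ca80ca832a12244850ca832a11383f00db043832a0ca832a0ca80e10568151462917d838412704ac0f4844212d0ca832a0ca8102052419fc763167032a12e84180df84600ef04b432a0ca80e5c4bf13c842c14bc3330fd445d0e2c3ef11b43e91168ca80fd44b7125047e112c333112c4650e2c3f31194447115845a)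
    (nat_lit 5) (nat_lit 49)
    [[nat_lit 2,nat_lit 258,nat_lit 0x10002,nat_lit 17,nat_lit 273,nat_lit 0x10011,nat_lit 33,nat_lit 0x1011,
    nat_lit 257,nat_lit 513,nat_lit 0x10101,nat_lit 0x1000101,nat_lit 0x1101,nat_lit 0x1001,nat_lit 0x11001,
    nat_lit 0x10001,nat_lit 0x20001,nat_lit 0x100001,nat_lit 0x1000001,nat_lit 0x1010001],[nat_lit 32,nat_lit 288,
    nat_lit 272,nat_lit 528,nat_lit 0x10110,nat_lit 0x1000110,nat_lit 0x1010,nat_lit 0x10010,nat_lit 0x1000010],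
    [nat_lit 512,nat_lit 0x10200,nat_lit 0x1000200,nat_lit 0x1100,nat_lit 0x11100,nat_lit 0x1001100,nat_lit 0x10100,
    nat_lit 0x20100,nat_lit 0x110100,nat_lit 0x1010100,nat_lit 0x100100,nat_lit 0x1000100,nat_lit 0x2000100],
    [nat_lit 0x2000,nat_lit 0x11000,nat_lit 0x1001000],[nat_lit 0x20000,nat_lit 0x30000,nat_lit 0x110000,
    nat_lit 0x1010000],[nat_lit 0x200000,nat_lit 0x1100000],[nat_lit 0x2000000]]
    [.c (nat_lit 1) (nat_lit 2),.c (nat_lit 1) (nat_lit 0x2208a4),.r (nat_lit 0x1893) (nat_lit 8) [nat_lit 65,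
    nat_lit 0x10001,nat_lit 0x318861,nat_lit 0x1044100a2],.c (nat_lit 0) (nat_lit 0x328085),
    .c (nat_lit 2) (nat_lit 0x2208a4),.c (nat_lit 4) (nat_lit 0x8220805),.c (nat_lit 4) (nat_lit 0x4010803),
    .c (nat_lit 2) (nat_lit 0x4010803),.c (nat_lit 0) (nat_lit 0x328c85),.c (nat_lit 3) (nat_lit 0x2208a4),
    .c (nat_lit 2) (nat_lit 0x10862),.c (nat_lit 7) (nat_lit 0x2208a4),.c (nat_lit 4) (nat_lit 0x2208a4),
    .c (nat_lit 7) (nat_lit 0x6018002),.c (nat_lit 2) (nat_lit 0x8220805),.c (nat_lit 0) (nat_lit 0x28c85),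
    .c (nat_lit 4) (nat_lit 0x4210003),.r (nat_lit 8) (nat_lit 4) [nat_lit 0x60190a2,nat_lit 65],
    .r (nat_lit 0x1ae4) (nat_lit 4) [nat_lit 65,nat_lit 0x200001,nat_lit 0x146519002],
    .r (nat_lit 0x1863) (nat_lit 11) [nat_lit 0x300861,nat_lit 0x4000001,nat_lit 0x6000081,nat_lit 0x146018082],
    .c (nat_lit 2) (nat_lit 2),.r (nat_lit 0x1999) (nat_lit 2) [nat_lit 0x65110a2,nat_lit 0x200001,nat_lit 0xc419482],
    .c (nat_lit 0) (nat_lit 0x328085),.r (nat_lit 0xfa1) (nat_lit 4) [nat_lit 0x146901061,nat_lit 0x600001,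
    nat_lit 0x215032482,nat_lit 0x146939082],.r (nat_lit 0x1999) (nat_lit 2) [nat_lit 0x300861,nat_lit 0x200001,
    nat_lit 0x4200c41],.r (nat_lit 4) (nat_lit 10) [nat_lit 0x65110a2,nat_lit 0x84400c41],
    .r (nat_lit 4) (nat_lit 10) [nat_lit 0x80210061,nat_lit 0x4018082],.c (nat_lit 2) (nat_lit 0x300804),
    .c (nat_lit 0) (nat_lit 0x803),.c (nat_lit 3) (nat_lit 2),.r (nat_lit 0xfa1) (nat_lit 4) [nat_lit 0x24711a0a2,
    nat_lit 0x600001,nat_lit 0x108821441,nat_lit 0xc6518841],.r (nat_lit 4) (nat_lit 10) [nat_lit 0x6501062,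
    nat_lit 0x108811442],.r (nat_lit 4) (nat_lit 10) [nat_lit 0x1060110a4,nat_lit 0x10c811484],
    .r (nat_lit 0x1893) (nat_lit 8) [nat_lit 0x1040190a2,nat_lit 0x10001,nat_lit 0x146518082,nat_lit 0x210c41],
    .c (nat_lit 4) (nat_lit 0x82408a4),.c (nat_lit 0) (nat_lit 0x28c85),
    .r (nat_lit 0x1999) (nat_lit 2) [nat_lit 0x45190a2,nat_lit 0x200001,nat_lit 0x4411482],
    .r (nat_lit 0x1b96) (nat_lit 10) [nat_lit 0x200001,nat_lit 0x4010002,nat_lit 0x6300041],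
    .r (nat_lit 4) (nat_lit 10) [nat_lit 0x300861,nat_lit 0x104811482],.c (nat_lit 2) (nat_lit 0x82218a4),
    .c (nat_lit 0) (nat_lit 0xa348c85),.r (nat_lit 0x1b3d) (nat_lit 11) [nat_lit 0x1465190a2,nat_lit 0x6519002,
    nat_lit 0x104811482],.c (nat_lit 4) (nat_lit 2),.r (nat_lit 4) (nat_lit 10) [nat_lit 0x1044100a2,nat_lit 65],
    .r (nat_lit 0x1b3d) (nat_lit 11) [nat_lit 0x200061,nat_lit 0x6519002,nat_lit 65],.c (nat_lit 5) (nat_lit 2),
    .r (nat_lit 0x1b96) (nat_lit 10) [nat_lit 0x200001,nat_lit 0x4010002,nat_lit 0x156919082],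
    .r (nat_lit 0x174d) (nat_lit 6) [nat_lit 0x6519002,nat_lit 65],.c (nat_lit 0) (nat_lit 0x200003),
    .c (nat_lit 6) (nat_lit 2),.c (nat_lit 1) (nat_lit 0x4000002),.c (nat_lit 7) (nat_lit 2)]]

/-- nodes -/
noncomputable def rD7k_20_31 : List RJ :=
  [.l (nat_lit 13) (nat_lit 0x7a0) (nat_lit 7) (nat_lit 0x2be00000470000003ad000003ad00000466000002a6000003c20000040a00000425000004250000038c0000031c000002d4000002f6) (nat_lit 0x1b2000000c3000000c3000001ca0000000a00000066000000ae0000004b0000004b00000154000000e40000017a0000019c)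
    (nat_lit 0x18404307e62b107a0ad01e82480a4865c3880f40a204309803082778eb45384742050f0868a34f18e0e304800f41d68ac45b829a0f1898483a3091b10d888723a90f488449de3f31030b705463a31a38bfc5583621fb8d9c46613b23a0ad074626114e15008002f81be906c7d043807a04b05380f4151878c33829c12007e070a42308405601e80f41e109205fe3090fc0be03282541f08ddc5081b412409c08140f41a390744804001d206508523bf0980c986d83581a7865c6c4362211906c77e3771ed0f683ce2d7207903c68a1491560d8870a37d2148f847b43da0cc8d047223911c603d06ce3a90ac10e064c1b41a08b5c2602a819e0ca06381c41fb90e42103e80980a103321e70e404c037018007a043027621107a04b06b02701c8903c30032808004e048014411987a41e80f41b6092072240f0dc0cf02f8100)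
    (nat_lit 0x1841e80f407a03d01e80f407a03d01e80f407a03d01e802183083d01e80f407a03d01e80f407a03d01e80f407a01f993bc5b87a03d01e80f407a03d01e80f407a03d01e805623ad14d0b70f407a03d01e80f407a03d01e80f407a007a0a703c62a314e1e80f407a03d01e80f407a03d01e805684741308e8ca8029c3d01e80f407a03d01e80f407a007a102883a34720009003287a03d01e80f407a03d01e804903c21848bfc5f01f812a0650f407a03d01e80f407a00a48d146c42ac1be8e147c24291ed1e80f407a03d01e8032e34f1b10d888364231bb8efc7b43da3d01e80f407a00e20c706d23f71f404205081300f386642607a03d01e801e838c1d48d9c8701580da0c985ae34115404c0f407a00a209003d223307a03d04903341eb8e244981b80801e802180f410884ec2580f413807a051623d0f40600270100)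
    (nat_lit 5) (nat_lit 0x4b2)
    [[nat_lit 2,nat_lit 3,nat_lit 4,nat_lit 5,nat_lit 6,nat_lit 7,nat_lit 0x10006,nat_lit 0x1000006,nat_lit 0x10005,
    nat_lit 0x1010005,nat_lit 0x100005,nat_lit 0x1000005,nat_lit 0x2000005,nat_lit 0x10014,nat_lit 0x1000014,
    nat_lit 0x1001004,nat_lit 0x10004,nat_lit 0x20005,nat_lit 0x20014,nat_lit 0x1010014,nat_lit 0x20004,
    nat_lit 0x110004,nat_lit 0x1010004,nat_lit 0x100004,nat_lit 0x1000004,nat_lit 0x2000004,nat_lit 19,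
    nat_lit 0x10013,nat_lit 0x10023,nat_lit 0x1000023,nat_lit 0x1001013,nat_lit 0x1000013,nat_lit 0x1001003,
    nat_lit 0x10003,nat_lit 0x1020004,nat_lit 0x2010004,nat_lit 0x20013,nat_lit 0x1010013,nat_lit 0x1010023,
    nat_lit 0x1011013,nat_lit 0x1011003,nat_lit 0x20003,nat_lit 0x1020003,nat_lit 0x110003,nat_lit 0x1010003,
    nat_lit 0x2010003,nat_lit 0x100003,nat_lit 0x1100004,nat_lit 0x1000003,nat_lit 0x2000003,nat_lit 0x200003,
    nat_lit 0x1100003,nat_lit 0x2000013,nat_lit 0x2000103,nat_lit 18,nat_lit 34,nat_lit 0x10012,nat_lit 0x1000012,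
    nat_lit 0x10022,nat_lit 0x10032,nat_lit 0x1000032,nat_lit 0x1001022,nat_lit 0x1000022,nat_lit 0x1001012,
    nat_lit 0x100012,nat_lit 0x2010013,nat_lit 0x1010012,nat_lit 0x1000102,nat_lit 0x1002,nat_lit 0x11012,
    nat_lit 0x1002002,nat_lit 0x11002,nat_lit 0x1001002,nat_lit 0x2001003,nat_lit 0x10002,nat_lit 0x30004,
    nat_lit 0x30013,nat_lit 0x1020013,nat_lit 0x30003,nat_lit 0x120003,nat_lit 0x20022,nat_lit 0x1010022,
    nat_lit 0x1010112,nat_lit 0x20012,nat_lit 0x1010032,nat_lit 0x1011012,nat_lit 0x1012002,nat_lit 0x21002,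
    nat_lit 0x1011002,nat_lit 0x20002,nat_lit 0x1020012,nat_lit 0x30002,nat_lit 0x1020002,nat_lit 0x1030003,
    nat_lit 0x2020003,nat_lit 0x120002,nat_lit 0x110002,nat_lit 0x1110003,nat_lit 0x1010002,nat_lit 0x2010002,
    nat_lit 0x100002,nat_lit 0x200002,nat_lit 0x1110002,nat_lit 0x1100002,nat_lit 0x1000002,nat_lit 0x3000003,
    nat_lit 0x2000012,nat_lit 0x2000002,nat_lit 0x2000102,nat_lit 0x2001002,nat_lit 0x2100003,nat_lit 0x2000022,
    nat_lit 0x2000112,nat_lit 0x3010003,nat_lit 0x3000002,nat_lit 17,nat_lit 33,nat_lit 49,nat_lit 0x10021,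
    nat_lit 0x1000021,nat_lit 0x1000111,nat_lit 0x1011,nat_lit 0x11011,nat_lit 0x10011,nat_lit 0x1000011,
    nat_lit 0x1000041,nat_lit 0x10031,nat_lit 0x1000031,nat_lit 0x1001021,nat_lit 0x11021,nat_lit 0x1002011,
    nat_lit 0x1001011,nat_lit 0x2001012,nat_lit 0x110012,nat_lit 0x2010012,nat_lit 0x20011,nat_lit 0x110011,
    nat_lit 0x1010011,nat_lit 0x100011,nat_lit 0x2010022,nat_lit 0x1100012,nat_lit 0x1100011,nat_lit 0x2000011,
    nat_lit 0x1000101,nat_lit 0x1001,nat_lit 0x2001,nat_lit 0x12011,nat_lit 0x1003001,nat_lit 0x12001,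
    nat_lit 0x1002001,nat_lit 0x11001,nat_lit 0x1001001,nat_lit 0x2011002,nat_lit 0x1101002,nat_lit 0x1011001,
    nat_lit 0x2001001,nat_lit 0x10001,nat_lit 0x40003,nat_lit 0x30022,nat_lit 0x30012,nat_lit 0x1020022,
    nat_lit 0x1021012,nat_lit 0x1021002,nat_lit 0x1030002,nat_lit 0x2020002,nat_lit 0x1120002,nat_lit 0x210002,
    nat_lit 0x2010102,nat_lit 0x10041,nat_lit 0x20031,nat_lit 0x1010031,nat_lit 0x20021,nat_lit 0x1010021,
    nat_lit 0x1010111,nat_lit 0x1011011,nat_lit 0x21021,nat_lit 0x21011,nat_lit 0x1030012,nat_lit 0x120012,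
    nat_lit 0x2020012,nat_lit 0x30011,nat_lit 0x120011,nat_lit 0x1020011,nat_lit 0x2010011,nat_lit 0x1010041,
    nat_lit 0x1011021,nat_lit 0x1012011,nat_lit 0x1110012,nat_lit 0x1010101,nat_lit 0x1012001,nat_lit 0x21001,
    nat_lit 0x111001,nat_lit 0x20001,nat_lit 0x1021001,nat_lit 0x30001,nat_lit 0x120001,nat_lit 0x1020001,
    nat_lit 0x40002,nat_lit 0x110001,nat_lit 0x210001,nat_lit 0x1110001,nat_lit 0x1010001,nat_lit 0x3010002,
    nat_lit 0x2010101,nat_lit 0x2011001,nat_lit 0x2010001,nat_lit 0x100001,nat_lit 0x2100002,nat_lit 0x1100101,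
    nat_lit 0x1101001,nat_lit 0x200001,nat_lit 0x1200001,nat_lit 0x1100001,nat_lit 0x1110011,nat_lit 0x1000001,
    nat_lit 0x2000021,nat_lit 0x2000101,nat_lit 0x2000001,nat_lit 0x2000111,nat_lit 0x2002001,nat_lit 0x3000001],
    [nat_lit 32,nat_lit 48,nat_lit 64,nat_lit 80,nat_lit 96,nat_lit 0x1040,nat_lit 304,nat_lit 0x1030,nat_lit 0x2030,
    nat_lit 0x1000030,nat_lit 288,nat_lit 0x1000120,nat_lit 0x1020,nat_lit 0x2020,nat_lit 0x3020,nat_lit 0x11020,
    nat_lit 0x1001020,nat_lit 0x10020,nat_lit 0x1000020,nat_lit 272,nat_lit 0x10110,nat_lit 0x1000110,nat_lit 0x1120,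
    nat_lit 0x1110,nat_lit 0x1001110,nat_lit 0x1010,nat_lit 0x2010,nat_lit 0x1001010,nat_lit 0x3010,nat_lit 0x12010,
    nat_lit 0x1002010,nat_lit 0x11010,nat_lit 0x10010,nat_lit 0x1010010,nat_lit 0x110010,nat_lit 0x1000010,
    nat_lit 0x2000010],[nat_lit 0x100100,nat_lit 0x1000100],[nat_lit 0x2000,nat_lit 0x3000,nat_lit 0x4000,
    nat_lit 0x12000,nat_lit 0x1002000,nat_lit 0x11000,nat_lit 0x101000,nat_lit 0x1001000,nat_lit 0x1011000],
    [nat_lit 0x20000,nat_lit 0x110000,nat_lit 0x210000,nat_lit 0x1010000],[nat_lit 0x200000,nat_lit 0x300000],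
    [nat_lit 0x2000000]]
    [.c (nat_lit 1) (nat_lit 2),.r (nat_lit 0x17af) (nat_lit 3) [nat_lit 0x80000001,nat_lit 0x4200001,
    nat_lit 0xc0018041,nat_lit 0x146518801],.r (nat_lit 32) (nat_lit 11) [nat_lit 0x28042,nat_lit 0x4200001],
    .r (nat_lit 0x923) (nat_lit 3) [nat_lit 0x280050061,nat_lit 0x14a00001,nat_lit 65,nat_lit 0x16000001,
    nat_lit 0x58041],.r (nat_lit 0x924) (nat_lit 3) [nat_lit 0x300060062,nat_lit 0xc600001,nat_lit 66,
    nat_lit 0xe000001,nat_lit 0x68042],.r (nat_lit 0x925) (nat_lit 3) [nat_lit 0x380070061,nat_lit 0x1ce00001,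
    nat_lit 65,nat_lit 0x1e000001,nat_lit 0x78041],.r (nat_lit 0x925) (nat_lit 3) [nat_lit 0x380060061,
    nat_lit 0x1ce00001,nat_lit 0x10041,nat_lit 0x1e000001,nat_lit 0x68041],
    .r (nat_lit 0x926) (nat_lit 1) [nat_lit 0x4000041,nat_lit 0x18001,nat_lit 0xc6300861,nat_lit 0x80010001,
    nat_lit 0x200061],.r (nat_lit 0x924) (nat_lit 3) [nat_lit 0x300050062,nat_lit 0xc600001,nat_lit 0x10042,
    nat_lit 0xe000001,nat_lit 0x58042],.r (nat_lit 0x926) (nat_lit 1) [nat_lit 0x4010041,nat_lit 0x18001,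
    nat_lit 0xc6318861,nat_lit 0x80010001,nat_lit 0x218061],.r (nat_lit 0x927) (nat_lit 1) [nat_lit 65,
    nat_lit 0x18001,nat_lit 0xc0300861,nat_lit 0x80010001,nat_lit 0x4200061],
    .r (nat_lit 0x928) (nat_lit 1) [nat_lit 0x4000041,nat_lit 0x18001,nat_lit 0xc6300861,nat_lit 0x80010001,
    nat_lit 0x200061],.r (nat_lit 0x929) (nat_lit 1) [nat_lit 0x8000041,nat_lit 0x28001,nat_lit 0x14a501061,
    nat_lit 0x100020001,nat_lit 0x400061],.r (nat_lit 0x92a) (nat_lit 1) [nat_lit 0x4218061,nat_lit 0x18001,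
    nat_lit 0xc6510841,nat_lit 0x80010001,nat_lit 0x10041],.r (nat_lit 0x92b) (nat_lit 3) [nat_lit 0x200240061,
    nat_lit 0x10800001,nat_lit 0x300041,nat_lit 0x12000001,nat_lit 0x348041],
    .r (nat_lit 0x924) (nat_lit 3) [nat_lit 0x106330861,nat_lit 0xc600001,nat_lit 0x84200c41,nat_lit 0xe000001,
    nat_lit 0x84238c41],.r (nat_lit 0x923) (nat_lit 3) [nat_lit 0x280040061,nat_lit 0x14a00001,nat_lit 0x10041,
    nat_lit 0x16000001,nat_lit 0x48041],.r (nat_lit 0x925) (nat_lit 3) [nat_lit 0x380050061,nat_lit 0x1ce00001,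
    nat_lit 0x20041,nat_lit 0x1e000001,nat_lit 0x58041],.r (nat_lit 0x92c) (nat_lit 1) [nat_lit 0x4228061,
    nat_lit 0x18001,nat_lit 0xc6520841,nat_lit 0x80010001,nat_lit 0x20041],
    .r (nat_lit 0x92d) (nat_lit 3) [nat_lit 0x280240061,nat_lit 0x14a00001,nat_lit 0x310041,nat_lit 0x16000001,
    nat_lit 0x348041],.r (nat_lit 0x924) (nat_lit 3) [nat_lit 0x300040062,nat_lit 0xc600001,nat_lit 0x20042,
    nat_lit 0xe000001,nat_lit 0x48042],.r (nat_lit 0x927) (nat_lit 1) [nat_lit 0x10041,nat_lit 0x18001,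
    nat_lit 0xc0318861,nat_lit 0x80010001,nat_lit 0x4218061],.r (nat_lit 0x928) (nat_lit 1) [nat_lit 0x4010041,
    nat_lit 0x18001,nat_lit 0xc6318861,nat_lit 0x80010001,nat_lit 0x218061],
    .r (nat_lit 0x92e) (nat_lit 1) [nat_lit 65,nat_lit 0x18001,nat_lit 0xc0300861,nat_lit 0x80010001,
    nat_lit 0x4200061],.r (nat_lit 0x92f) (nat_lit 1) [nat_lit 0x4000041,nat_lit 0x18001,nat_lit 0xc6300861,
    nat_lit 0x80010001,nat_lit 0x200061],.r (nat_lit 0x1b04) (nat_lit 10) [nat_lit 0xa521062,nat_lit 0x4200001],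
    .r (nat_lit 0x930) (nat_lit 1) [nat_lit 0x4200061,nat_lit 0x18001,nat_lit 0xc6500841,nat_lit 0x80010001,
    nat_lit 65],.r (nat_lit 0x931) (nat_lit 1) [nat_lit 0x4218061,nat_lit 0x18001,nat_lit 0xc6510841,
    nat_lit 0x80010001,nat_lit 0x10041],.r (nat_lit 0x932) (nat_lit 1) [nat_lit 0x8418062,nat_lit 0x18001,
    nat_lit 0x14a911042,nat_lit 0x80010001,nat_lit 0x10042],.r (nat_lit 0x933) (nat_lit 1) [nat_lit 0x4400061,
    nat_lit 0x18001,nat_lit 0xc6700841,nat_lit 0x80010001,nat_lit 0x300041],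
    .r (nat_lit 0x932) (nat_lit 1) [nat_lit 0xc0000861,nat_lit 0x18001,nat_lit 0x300041,nat_lit 0x80010001,
    nat_lit 0x84200c41],.r (nat_lit 0x924) (nat_lit 3) [nat_lit 0x180230061,nat_lit 0xc600001,nat_lit 0x300041,
    nat_lit 0xe000001,nat_lit 0x338041],.r (nat_lit 32) (nat_lit 11) [nat_lit 0x84218c41,nat_lit 0x4200001],
    .r (nat_lit 32) (nat_lit 11) [nat_lit 0x18042,nat_lit 0x4200001],
    .r (nat_lit 0x926) (nat_lit 1) [nat_lit 0x4020041,nat_lit 0x18001,nat_lit 0xc6328861,nat_lit 0x80010001,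
    nat_lit 0x228061],.r (nat_lit 0x929) (nat_lit 1) [nat_lit 0x8010041,nat_lit 0x28001,nat_lit 0x14a519061,
    nat_lit 0x100020001,nat_lit 0x418061],.r (nat_lit 0x92a) (nat_lit 1) [nat_lit 0x4228061,nat_lit 0x18001,
    nat_lit 0xc6520841,nat_lit 0x80010001,nat_lit 0x20041],.r (nat_lit 0x92b) (nat_lit 3) [nat_lit 0x200230061,
    nat_lit 0x10800001,nat_lit 0x310041,nat_lit 0x12000001,nat_lit 0x338041],
    .r (nat_lit 0x934) (nat_lit 1) [nat_lit 0x4418061,nat_lit 0x18001,nat_lit 0xc6710841,nat_lit 0x80010001,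
    nat_lit 0x310041],.r (nat_lit 0x933) (nat_lit 1) [nat_lit 0xc0018861,nat_lit 0x18001,nat_lit 0x310041,
    nat_lit 0x80010001,nat_lit 0x84210c41],.r (nat_lit 0x924) (nat_lit 3) [nat_lit 0x106320861,nat_lit 0xc600001,
    nat_lit 0x84210c41,nat_lit 0xe000001,nat_lit 0x84228c41],.r (nat_lit 0x923) (nat_lit 3) [nat_lit 0x280030061,
    nat_lit 0x14a00001,nat_lit 0x20041,nat_lit 0x16000001,nat_lit 0x38041],
    .r (nat_lit 0x928) (nat_lit 1) [nat_lit 0x4020041,nat_lit 0x18001,nat_lit 0xc6328861,nat_lit 0x80010001,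
    nat_lit 0x228061],.r (nat_lit 0x92e) (nat_lit 1) [nat_lit 0x10041,nat_lit 0x18001,nat_lit 0xc0318861,
    nat_lit 0x80010001,nat_lit 0x4218061],.r (nat_lit 0x92f) (nat_lit 1) [nat_lit 0x4010041,nat_lit 0x18001,
    nat_lit 0xc6318861,nat_lit 0x80010001,nat_lit 0x218061],.r (nat_lit 0x1b04) (nat_lit 10) [nat_lit 0xa511062,
    nat_lit 0x4200001],.r (nat_lit 0x935) (nat_lit 1) [nat_lit 65,nat_lit 0x18001,nat_lit 0xc0300861,
    nat_lit 0x80010001,nat_lit 0x4200061],.r (nat_lit 0x936) (nat_lit 1) [nat_lit 0x4000041,nat_lit 0x28001,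
    nat_lit 0x146501061,nat_lit 0x100020001,nat_lit 0x4400061],.r (nat_lit 0x174b) (nat_lit 8) [nat_lit 0x4200001,
    nat_lit 0x80000001,nat_lit 0x18041],.r (nat_lit 0xeb4) (nat_lit 4) [nat_lit 0xc600001,nat_lit 0x538041,
    nat_lit 0x1ce901861,nat_lit 0x180430061],.c (nat_lit 0) (nat_lit 0x500002),
    .r (nat_lit 0xf28) (nat_lit 7) [nat_lit 0x6038041,nat_lit 0xc600001,nat_lit 0x6000041,nat_lit 0x184030061],
    .r (nat_lit 0x935) (nat_lit 1) [nat_lit 0x4300041,nat_lit 0x18001,nat_lit 0xc6000861,nat_lit 0x80010001,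
    nat_lit 0x400061],.c (nat_lit 4) (nat_lit 0x6528883),.r (nat_lit 0x1b96) (nat_lit 9) [nat_lit 0x80000001,
    nat_lit 0xc0300801,nat_lit 0x218c41],.r (nat_lit 0x174e) (nat_lit 1) [nat_lit 66,nat_lit 0x100420062],
    .r (nat_lit 0x930) (nat_lit 1) [nat_lit 0x4218061,nat_lit 0x18001,nat_lit 0xc6510841,nat_lit 0x80010001,
    nat_lit 0x10041],.r (nat_lit 32) (nat_lit 11) [nat_lit 0x318041,nat_lit 0x4200001],
    .r (nat_lit 0x937) (nat_lit 1) [nat_lit 0x8418061,nat_lit 0x28001,nat_lit 0x14a911041,nat_lit 0x100020001,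
    nat_lit 0x10041],.r (nat_lit 0x938) (nat_lit 1) [nat_lit 0xc618061,nat_lit 0x38001,nat_lit 0x1ced11841,
    nat_lit 0x180030001,nat_lit 0x10041],.r (nat_lit 0x939) (nat_lit 1) [nat_lit 0x8600061,nat_lit 0x28001,
    nat_lit 0x14ab01041,nat_lit 0x100020001,nat_lit 0x300041],.r (nat_lit 0x93a) (nat_lit 1) [nat_lit 0x4200001,
    nat_lit 0x84218c41,nat_lit 0x14a701061,nat_lit 0x6310861,nat_lit 0x84200c41],
    .r (nat_lit 0x932) (nat_lit 1) [nat_lit 0x4400061,nat_lit 0x18001,nat_lit 0xc6700841,nat_lit 0x80010001,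
    nat_lit 0x300041],.r (nat_lit 0x174e) (nat_lit 1) [nat_lit 0x84200c41,nat_lit 0x6010861],
    .c (nat_lit 0) (nat_lit 0x318002),.r (nat_lit 0x92e) (nat_lit 1) [nat_lit 0x4310041,nat_lit 0x18001,
    nat_lit 0xc6018861,nat_lit 0x80010001,nat_lit 0x418061],.r (nat_lit 0x924) (nat_lit 3) [nat_lit 0x180220061,
    nat_lit 0xc600001,nat_lit 0x310041,nat_lit 0xe000001,nat_lit 0x328041],.c (nat_lit 4) (nat_lit 0x318843),
    .c (nat_lit 0) (nat_lit 0xa528083),.r (nat_lit 0x174e) (nat_lit 1) [nat_lit 0x84410c42,nat_lit 0x86010862],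
    .c (nat_lit 2) (nat_lit 0x84300a2),.r (nat_lit 0x1b96) (nat_lit 9) [nat_lit 0x80000001,nat_lit 0xc0300801,
    nat_lit 0x84601441],.c (nat_lit 1) (nat_lit 0x4210062),.r (nat_lit 0x1b04) (nat_lit 10) [nat_lit 0xca511061,
    nat_lit 0x4200001],.r (nat_lit 0x17af) (nat_lit 3) [nat_lit 0x80000001,nat_lit 0x4200001,nat_lit 0xc0000041,
    nat_lit 0x146518801],.r (nat_lit 0x925) (nat_lit 3) [nat_lit 0x380040061,nat_lit 0x1ce00001,nat_lit 0x30041,
    nat_lit 0x1e000001,nat_lit 0x48041],.r (nat_lit 0x92c) (nat_lit 1) [nat_lit 0x4238061,nat_lit 0x18001,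
    nat_lit 0xc6530841,nat_lit 0x80010001,nat_lit 0x30041],.r (nat_lit 0x92d) (nat_lit 3) [nat_lit 0x280230061,
    nat_lit 0x14a00001,nat_lit 0x320041,nat_lit 0x16000001,nat_lit 0x338041],
    .r (nat_lit 0x924) (nat_lit 3) [nat_lit 0x300030062,nat_lit 0xc600001,nat_lit 0x30042,nat_lit 0xe000001,
    nat_lit 0x38042],.r (nat_lit 0x927) (nat_lit 1) [nat_lit 0x20041,nat_lit 0x18001,nat_lit 0xc0328861,
    nat_lit 0x80010001,nat_lit 0x4228061],.r (nat_lit 0x932) (nat_lit 1) [nat_lit 0x8428062,nat_lit 0x18001,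
    nat_lit 0x14a921042,nat_lit 0x80010001,nat_lit 0x20042],.r (nat_lit 0x933) (nat_lit 1) [nat_lit 0x4418061,
    nat_lit 0x18001,nat_lit 0xc6710841,nat_lit 0x80010001,nat_lit 0x310041],.c (nat_lit 0) (nat_lit 0x6018002),
    .r (nat_lit 0x931) (nat_lit 1) [nat_lit 0x4228061,nat_lit 0x18001,nat_lit 0xc6520841,nat_lit 0x80010001,
    nat_lit 0x20041],.r (nat_lit 0x93b) (nat_lit 1) [nat_lit 0x8618061,nat_lit 0x28001,nat_lit 0x14ab11041,
    nat_lit 0x100020001,nat_lit 0x310041],.r (nat_lit 0x932) (nat_lit 1) [nat_lit 0xc0018861,nat_lit 0x18001,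
    nat_lit 0x310041,nat_lit 0x80010001,nat_lit 0x84210c41],.r (nat_lit 0x174e) (nat_lit 1) [nat_lit 0x108611441,
    nat_lit 0xca501061],.r (nat_lit 0x930) (nat_lit 1) [nat_lit 0xc0328861,nat_lit 0x18001,nat_lit 0x20041,
    nat_lit 0x80010001,nat_lit 0x84420c41],.r (nat_lit 32) (nat_lit 11) [nat_lit 0x84200c41,nat_lit 0x4200001],
    .r (nat_lit 32) (nat_lit 11) [nat_lit 66,nat_lit 0x4200001],.r (nat_lit 0x92b) (nat_lit 3) [nat_lit 0x200220061,
    nat_lit 0x10800001,nat_lit 0x320041,nat_lit 0x12000001,nat_lit 0x328041],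
    .r (nat_lit 0x923) (nat_lit 3) [nat_lit 0x280020061,nat_lit 0x14a00001,nat_lit 0x30041,nat_lit 0x16000001,
    nat_lit 0x28041],.r (nat_lit 0x92f) (nat_lit 1) [nat_lit 0x4020041,nat_lit 0x18001,nat_lit 0xc6328861,
    nat_lit 0x80010001,nat_lit 0x228061],.r (nat_lit 0x926) (nat_lit 1) [nat_lit 0x4030041,nat_lit 0x18001,
    nat_lit 0xc6338861,nat_lit 0x80010001,nat_lit 0x238061],.r (nat_lit 0x929) (nat_lit 1) [nat_lit 0x8020041,
    nat_lit 0x28001,nat_lit 0x14a529061,nat_lit 0x100020001,nat_lit 0x428061],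
    .r (nat_lit 0x92e) (nat_lit 1) [nat_lit 0x20041,nat_lit 0x18001,nat_lit 0xc0328861,nat_lit 0x80010001,
    nat_lit 0x4228061],.r (nat_lit 0x935) (nat_lit 1) [nat_lit 0x10041,nat_lit 0x18001,nat_lit 0xc0318861,
    nat_lit 0x80010001,nat_lit 0x4218061],.r (nat_lit 0x936) (nat_lit 1) [nat_lit 0x4010041,nat_lit 0x28001,
    nat_lit 0x146519061,nat_lit 0x100020001,nat_lit 0x4418061],.r (nat_lit 0x174b) (nat_lit 8) [nat_lit 0x4200001,
    nat_lit 0x80000001,nat_lit 65],.r (nat_lit 0xeb4) (nat_lit 4) [nat_lit 0xc600001,nat_lit 0x528041,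
    nat_lit 0x1ce919861,nat_lit 0x180420061],.r (nat_lit 0x1b04) (nat_lit 10) [nat_lit 0x310861,nat_lit 0x4200001],
    .c (nat_lit 4) (nat_lit 0xa028083),.r (nat_lit 0xf28) (nat_lit 7) [nat_lit 0x6028041,nat_lit 0xc600001,
    nat_lit 0x6010041,nat_lit 0x184020061],.r (nat_lit 40) (nat_lit 1) [nat_lit 0x146501061,nat_lit 0x6000041,
    nat_lit 0x4200001],.c (nat_lit 0) (nat_lit 0xa528083),.r (nat_lit 75) (nat_lit 1) [nat_lit 0x1ce701861,nat_lit 65,
    nat_lit 0x4200001],.r (nat_lit 0x1b04) (nat_lit 10) [nat_lit 0x6010861,nat_lit 0x4200001],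
    .c (nat_lit 0) (nat_lit 0xa528083),.c (nat_lit 0) (nat_lit 0x6000c02),.c (nat_lit 0) (nat_lit 0xa528083),
    .r (nat_lit 45) (nat_lit 1) [nat_lit 0x1ca701861,nat_lit 0x6000041,nat_lit 0x4200001],
    .c (nat_lit 0) (nat_lit 0x28002),.c (nat_lit 0) (nat_lit 0x6018c02),
    .r (nat_lit 0x93c) (nat_lit 1) [nat_lit 0x24e91a061,nat_lit 0x18c601c41,nat_lit 0x14e701861,nat_lit 0x210a12441,
    nat_lit 0x18c611c41],.r (nat_lit 0x93d) (nat_lit 1) [nat_lit 0x10c401441,nat_lit 0x1ce719861,nat_lit 0x20c611c41,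
    nat_lit 0x14a301061,nat_lit 0x1ce701861],.c (nat_lit 0) (nat_lit 0x6300043),
    .r (nat_lit 0x133f) (nat_lit 1) [nat_lit 0x80000001,nat_lit 0x4200001,nat_lit 0x80410061,nat_lit 0xc0300801],
    .r (nat_lit 0x93e) (nat_lit 1) [nat_lit 0x4200001,nat_lit 0x18041,nat_lit 0xc6500861,nat_lit 0x80010061,
    nat_lit 65],.r (nat_lit 0x174e) (nat_lit 1) [nat_lit 0x10042,nat_lit 0x100410062],
    .r (nat_lit 0x174e) (nat_lit 1) [nat_lit 0x300041,nat_lit 0x80410061],.c (nat_lit 0) (nat_lit 0x6018c02),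
    .c (nat_lit 2) (nat_lit 0x4220062),.r (nat_lit 0x133f) (nat_lit 1) [nat_lit 0x80000001,nat_lit 0x4200001,
    nat_lit 0x6000861,nat_lit 0xc0300801],.r (nat_lit 0x1b96) (nat_lit 9) [nat_lit 0x80000001,nat_lit 0xc0300801,
    nat_lit 0x200c41],.c (nat_lit 1) (nat_lit 0x18002),.r (nat_lit 0x93f) (nat_lit 1) [nat_lit 0x4200001,
    nat_lit 0x318041,nat_lit 0xc6300861,nat_lit 0x80210061,nat_lit 0x300041],
    .r (nat_lit 0x940) (nat_lit 1) [nat_lit 0x8400001,nat_lit 0x18041,nat_lit 0x14a919061,nat_lit 0x100010061,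
    nat_lit 0x10041],.r (nat_lit 0x93a) (nat_lit 1) [nat_lit 0x4200001,nat_lit 0x318041,nat_lit 0xc6300861,
    nat_lit 0x80210061,nat_lit 0x300041],.r (nat_lit 0x1a3c) (nat_lit 2) [nat_lit 0xc6000861,nat_lit 0x4200001,
    nat_lit 0x80000001],.r (nat_lit 0x93e) (nat_lit 1) [nat_lit 0x4200001,nat_lit 0x84400c41,nat_lit 0x14a919061,
    nat_lit 0x6500861,nat_lit 0x84410c41],.r (nat_lit 0x19c6) (nat_lit 7) [nat_lit 0x80000c41,nat_lit 0x80010001,
    nat_lit 0x4200001],.c (nat_lit 2) (nat_lit 0x4210062),.c (nat_lit 0) (nat_lit 0x4200062),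
    .c (nat_lit 0) (nat_lit 0x318802),.r (nat_lit 0x935) (nat_lit 1) [nat_lit 0x4310041,nat_lit 0x18001,
    nat_lit 0xc6018861,nat_lit 0x80010001,nat_lit 0x418061],.r (nat_lit 0x930) (nat_lit 1) [nat_lit 0x4228061,
    nat_lit 0x18001,nat_lit 0xc6520841,nat_lit 0x80010001,nat_lit 0x20041],.c (nat_lit 0) (nat_lit 0x318802),
    .r (nat_lit 32) (nat_lit 11) [nat_lit 0x300041,nat_lit 0x4200001],.c (nat_lit 0) (nat_lit 0x318002),
    .c (nat_lit 0) (nat_lit 0x28802),.c (nat_lit 0) (nat_lit 0x318002),.c (nat_lit 4) (nat_lit 0x6000043),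
    .c (nat_lit 0) (nat_lit 0x6300043),.c (nat_lit 2) (nat_lit 0x4010803),.c (nat_lit 0) (nat_lit 0x6328043),
    .c (nat_lit 0) (nat_lit 0xa528083),.r (nat_lit 0x18c2) (nat_lit 4) [nat_lit 0x10001,nat_lit 0x108411441,
    nat_lit 0x80000001,nat_lit 0x146319061],.r (nat_lit 40) (nat_lit 1) [nat_lit 0x84200c41,nat_lit 0x1ce701861,
    nat_lit 0x4200001],.c (nat_lit 2) (nat_lit 0x84408a2),.c (nat_lit 4) (nat_lit 0x4210062),
    .c (nat_lit 0) (nat_lit 0xa528c83),.c (nat_lit 0) (nat_lit 0x6318043),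
    .r (nat_lit 0x1b04) (nat_lit 10) [nat_lit 0xca501061,nat_lit 0x4200001],.c (nat_lit 4) (nat_lit 0xa328083),
    .c (nat_lit 1) (nat_lit 0x4210862),.c (nat_lit 7) (nat_lit 0x4210062),.c (nat_lit 1) (nat_lit 0x802),
    .r (nat_lit 0x925) (nat_lit 3) [nat_lit 0x380030061,nat_lit 0x1ce00001,nat_lit 0x40041,nat_lit 0x1e000001,
    nat_lit 0x38041],.r (nat_lit 0x941) (nat_lit 1) [nat_lit 0x8438061,nat_lit 0x28001,nat_lit 0x14a931041,
    nat_lit 0x100020001,nat_lit 0x30041],.r (nat_lit 0x92a) (nat_lit 1) [nat_lit 0x4238061,nat_lit 0x18001,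
    nat_lit 0xc6530841,nat_lit 0x80010001,nat_lit 0x30041],.r (nat_lit 0x934) (nat_lit 1) [nat_lit 0x4428061,
    nat_lit 0x18001,nat_lit 0xc6720841,nat_lit 0x80010001,nat_lit 0x320041],
    .r (nat_lit 0x933) (nat_lit 1) [nat_lit 0xc0028861,nat_lit 0x18001,nat_lit 0x320041,nat_lit 0x80010001,
    nat_lit 0x84220c41],.r (nat_lit 0x924) (nat_lit 3) [nat_lit 0x106310861,nat_lit 0xc600001,nat_lit 0x84220c41,
    nat_lit 0xe000001,nat_lit 0x84218c41],.r (nat_lit 0x928) (nat_lit 1) [nat_lit 0x4030041,nat_lit 0x18001,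
    nat_lit 0xc6338861,nat_lit 0x80010001,nat_lit 0x238061],.r (nat_lit 0x1b04) (nat_lit 10) [nat_lit 0xa501062,
    nat_lit 0x4200001],.r (nat_lit 0x936) (nat_lit 1) [nat_lit 0x4020041,nat_lit 0x28001,nat_lit 0x146529061,
    nat_lit 0x100020001,nat_lit 0x4428061],.c (nat_lit 0) (nat_lit 0x500802),.c (nat_lit 4) (nat_lit 0x6528083),
    .r (nat_lit 0x93a) (nat_lit 1) [nat_lit 0x4200001,nat_lit 0x18042,nat_lit 0x14a919062,nat_lit 0x100010062,
    nat_lit 0x10042],.r (nat_lit 0x938) (nat_lit 1) [nat_lit 0xc628061,nat_lit 0x38001,nat_lit 0x1ced21841,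
    nat_lit 0x180030001,nat_lit 0x20041],.r (nat_lit 0x939) (nat_lit 1) [nat_lit 0x8618061,nat_lit 0x28001,
    nat_lit 0x14ab11041,nat_lit 0x100020001,nat_lit 0x310041],.r (nat_lit 0x937) (nat_lit 1) [nat_lit 0x8428061,
    nat_lit 0x28001,nat_lit 0x14a921041,nat_lit 0x100020001,nat_lit 0x20041],
    .r (nat_lit 0x932) (nat_lit 1) [nat_lit 0x4418061,nat_lit 0x18001,nat_lit 0xc6710841,nat_lit 0x80010001,
    nat_lit 0x310041],.c (nat_lit 0) (nat_lit 0x6018002),.r (nat_lit 0x174e) (nat_lit 1) [nat_lit 0x84210c41,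
    nat_lit 0x6000861],.r (nat_lit 0x940) (nat_lit 1) [nat_lit 0x8400001,nat_lit 0x84400c41,nat_lit 0x1ced29861,
    nat_lit 0x86500861,nat_lit 0x84420c41],.r (nat_lit 0x174e) (nat_lit 1) [nat_lit 0x84420c42,nat_lit 0x86000862],
    .r (nat_lit 0x92d) (nat_lit 3) [nat_lit 0x280220061,nat_lit 0x14a00001,nat_lit 0x330041,nat_lit 0x16000001,
    nat_lit 0x328041],.c (nat_lit 0) (nat_lit 0x319002),.r (nat_lit 0x92e) (nat_lit 1) [nat_lit 0x4320041,
    nat_lit 0x18001,nat_lit 0xc6028861,nat_lit 0x80010001,nat_lit 0x428061],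
    .r (nat_lit 0x931) (nat_lit 1) [nat_lit 0x4238061,nat_lit 0x18001,nat_lit 0xc6530841,nat_lit 0x80010001,
    nat_lit 0x30041],.c (nat_lit 0) (nat_lit 0x319002),.r (nat_lit 0x924) (nat_lit 3) [nat_lit 0x180210061,
    nat_lit 0xc600001,nat_lit 0x320041,nat_lit 0xe000001,nat_lit 0x318041],
    .r (nat_lit 0x1b04) (nat_lit 10) [nat_lit 0x6000861,nat_lit 0x4200001],
    .r (nat_lit 0x942) (nat_lit 1) [nat_lit 0x8400001,nat_lit 0x318041,nat_lit 0x14a719061,nat_lit 0x100210061,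
    nat_lit 0x310041],.r (nat_lit 0x93a) (nat_lit 1) [nat_lit 0x4200001,nat_lit 0x84200c41,nat_lit 0x14a719061,
    nat_lit 0x6300861,nat_lit 0x84210c41],.r (nat_lit 0x1a3c) (nat_lit 2) [nat_lit 0x14a519061,nat_lit 0x4200001,
    nat_lit 0x80000001],.c (nat_lit 0) (nat_lit 0x318802),.c (nat_lit 4) (nat_lit 0x318043),
    .c (nat_lit 2) (nat_lit 0x84308a2),.r (nat_lit 0x1b96) (nat_lit 9) [nat_lit 0x80000001,nat_lit 0xc0300801,
    nat_lit 0x84611441],.c (nat_lit 0) (nat_lit 0x4010862),.r (nat_lit 0x17af) (nat_lit 3) [nat_lit 0x80000001,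
    nat_lit 0x4200001,nat_lit 0xc0010041,nat_lit 0x146518801],.r (nat_lit 32) (nat_lit 11) [nat_lit 0x84210c41,
    nat_lit 0x4200001],.r (nat_lit 32) (nat_lit 11) [nat_lit 0x10042,nat_lit 0x4200001],
    .r (nat_lit 0x935) (nat_lit 1) [nat_lit 0x20041,nat_lit 0x18001,nat_lit 0xc0328861,nat_lit 0x80010001,
    nat_lit 0x4228061],.r (nat_lit 0x174b) (nat_lit 8) [nat_lit 0x4200001,nat_lit 0x80000001,nat_lit 0x10041],
    .r (nat_lit 0x924) (nat_lit 3) [nat_lit 0x300020062,nat_lit 0xc600001,nat_lit 0x40042,nat_lit 0xe000001,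
    nat_lit 0x28042],.r (nat_lit 0x1b04) (nat_lit 10) [nat_lit 0x300861,nat_lit 0x4200001],
    .c (nat_lit 4) (nat_lit 0xa028c83),.r (nat_lit 40) (nat_lit 1) [nat_lit 0x146519061,nat_lit 0x6010041,
    nat_lit 0x4200001],.c (nat_lit 0) (nat_lit 0xa528c83),.r (nat_lit 75) (nat_lit 1) [nat_lit 0x1ce719861,
    nat_lit 0x10041,nat_lit 0x4200001],.c (nat_lit 0) (nat_lit 0x6000002),.c (nat_lit 0) (nat_lit 0xa528c83),
    .c (nat_lit 0) (nat_lit 0xa528c83),.c (nat_lit 0) (nat_lit 0x6018043),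
    .r (nat_lit 0x1b22) (nat_lit 7) [nat_lit 0x10001,nat_lit 0x80000001,nat_lit 0xc6310861],
    .c (nat_lit 0) (nat_lit 0x6300c02),.c (nat_lit 2) (nat_lit 0x6000043),.c (nat_lit 0) (nat_lit 0x500002),
    .c (nat_lit 0) (nat_lit 0x500002),.r (nat_lit 0x19c6) (nat_lit 7) [nat_lit 0xc6300861,nat_lit 0x80010001,
    nat_lit 0x4200001],.c (nat_lit 0) (nat_lit 0x318802),.c (nat_lit 0) (nat_lit 0x6318043),
    .c (nat_lit 0) (nat_lit 0x28002),.c (nat_lit 2) (nat_lit 0x4020803),.c (nat_lit 0) (nat_lit 0x6300043),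
    .c (nat_lit 0) (nat_lit 0x6028c02),.c (nat_lit 0) (nat_lit 0xa528083),
    .r (nat_lit 0x943) (nat_lit 1) [nat_lit 0x4200001,nat_lit 0x718041,nat_lit 0xc6200861,nat_lit 0x80610061,
    nat_lit 0x700041],.c (nat_lit 2) (nat_lit 2),.r (nat_lit 0x18c2) (nat_lit 4) [nat_lit 0x10001,nat_lit 0x500041,
    nat_lit 0x80000001,nat_lit 0x4600061],.r (nat_lit 0x1a3c) (nat_lit 2) [nat_lit 0x400062,nat_lit 0x4200001,
    nat_lit 0x80000001],.r (nat_lit 0x944) (nat_lit 4) [nat_lit 0xa00061,nat_lit 0x14a00061,nat_lit 0x280000001,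
    nat_lit 0x55755a841,nat_lit 65],.r (nat_lit 0x945) (nat_lit 4) [nat_lit 0xc00062,nat_lit 0x18c00062,
    nat_lit 0x180000001,nat_lit 0x65b96b042,nat_lit 66],.r (nat_lit 0x946) (nat_lit 1) [nat_lit 0x4200001,
    nat_lit 0xc6518861,nat_lit 65,nat_lit 0x104410c41,nat_lit 0xc6500861],.c (nat_lit 0) (nat_lit 0xa328c42),
    .r (nat_lit 0x947) (nat_lit 1) [nat_lit 0x4200001,nat_lit 0xc6518861,nat_lit 65,nat_lit 0x104410c41,
    nat_lit 0xc6500861],.r (nat_lit 0x948) (nat_lit 1) [nat_lit 0x8400001,nat_lit 0x14a929061,nat_lit 65,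
    nat_lit 0x208821441,nat_lit 0x14a901061],.r (nat_lit 0x1a3c) (nat_lit 2) [nat_lit 0x400061,nat_lit 0x4200001,
    nat_lit 0x80000001],.c (nat_lit 0) (nat_lit 0xa328c42),.c (nat_lit 0) (nat_lit 0xa338c42),
    .r (nat_lit 0x1b22) (nat_lit 13) [nat_lit 0x18001,nat_lit 0x80010001,nat_lit 0x80000c41],
    .r (nat_lit 0x19c6) (nat_lit 7) [nat_lit 0xa500042,nat_lit 0x80010001,nat_lit 0x4200001],
    .r (nat_lit 0x949) (nat_lit 1) [nat_lit 0x8400061,nat_lit 0x14a929041,nat_lit 0x208821461,nat_lit 65,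
    nat_lit 0x14a901041],.r (nat_lit 0x18c2) (nat_lit 4) [nat_lit 0x10001,nat_lit 0x84010c41,nat_lit 0x80000001,
    nat_lit 0xc0218861],.r (nat_lit 0x19c6) (nat_lit 7) [nat_lit 0x6500041,nat_lit 0x80010001,nat_lit 0x4200001],
    .r (nat_lit 0x133f) (nat_lit 1) [nat_lit 0x80000001,nat_lit 0x4200001,nat_lit 0x80400061,nat_lit 0xc0300801],
    .c (nat_lit 2) (nat_lit 0x18002),.c (nat_lit 0) (nat_lit 0xa328c42),.c (nat_lit 7) (nat_lit 0x4010003),
    .c (nat_lit 1) (nat_lit 0x4010803),.c (nat_lit 0) (nat_lit 0xa328c42),.c (nat_lit 0) (nat_lit 0xa328c42),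
    .c (nat_lit 0) (nat_lit 0xa328c42),.c (nat_lit 0) (nat_lit 0x6300043),
    .r (nat_lit 0x1b22) (nat_lit 7) [nat_lit 0x10001,nat_lit 0x80000001,nat_lit 0x80010c41],
    .c (nat_lit 4) (nat_lit 0x18002),.r (nat_lit 0xe14) (nat_lit 7) [nat_lit 0x200000001,nat_lit 0x1c4501861,
    nat_lit 0x1ce501861,nat_lit 0x18cc01c41],.r (nat_lit 0x1b22) (nat_lit 13) [nat_lit 0x18001,nat_lit 0x80010001,
    nat_lit 0x104411441],.r (nat_lit 40) (nat_lit 1) [nat_lit 0x300041,nat_lit 0x14a301061,nat_lit 0x4200001],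
    .c (nat_lit 2) (nat_lit 0x4220862),.c (nat_lit 0) (nat_lit 0x6300c43),.c (nat_lit 1) (nat_lit 0x18802),
    .c (nat_lit 0) (nat_lit 0x318802),.c (nat_lit 0) (nat_lit 0x10003),.c (nat_lit 7) (nat_lit 0x18002),
    .c (nat_lit 0) (nat_lit 0xa518c42),.r (nat_lit 0x174e) (nat_lit 1) [nat_lit 0x80210061,nat_lit 65],
    .c (nat_lit 4) (nat_lit 2),.r (nat_lit 45) (nat_lit 1) [nat_lit 65,nat_lit 0x1ce701861,nat_lit 0x4200001],
    .r (nat_lit 40) (nat_lit 1) [nat_lit 66,nat_lit 0x252902062,nat_lit 0x4200001],.c (nat_lit 0) (nat_lit 0xa528c83),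
    .c (nat_lit 0) (nat_lit 0xa528083),.c (nat_lit 0) (nat_lit 0x6328c43),.c (nat_lit 0) (nat_lit 0x6018043),
    .c (nat_lit 0) (nat_lit 0x6318043),.c (nat_lit 0) (nat_lit 0x6318c43),.c (nat_lit 5) (nat_lit 2),
    .c (nat_lit 0) (nat_lit 0x6018c43),.c (nat_lit 0) (nat_lit 0x500002),.c (nat_lit 0) (nat_lit 0x6318c43),
    .c (nat_lit 6) (nat_lit 2),.c (nat_lit 0) (nat_lit 0x700002),.c (nat_lit 7) (nat_lit 2)]]

end Pool.Agent.Lib_MP_fa6e45
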