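import Pool.Agent.Lib_MP_fa6e45.DQ7k_0d
import Pool.Agent.Lib_MP_fa6e45.RD7k_20

/-!
MP_fa6e45_co, stage 9: straight-side patterns with `7` sides, part of a certificate (generated by a program).
-/

namespace Pool.Agent.Lib_MP_fa6e45

theorem cD7k_0_k20_0 : allI cD7k_0_c (rjL dJ cD7k_0_q rD7k_20_0) 7004 = true := by
  decide +kernel

theorem cD7k_0_k20_1 : allI cD7k_0_c (rjL dJ cD7k_0_q rD7k_20_1) 7006 = true := by
  decide +kernel

theorem cD7k_0_k20_2 : allI cD7k_0_c (rjL dJ cD7k_0_q rD7k_20_2) 7007 = true := by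
  decide +kernel

theorem cD7k_0_k20_3 : allI cD7k_0_c (rjL dJ cD7k_0_q rD7k_20_3) 7008 = true := by
  decide +kernel

theorem cD7k_0_k20_4 : allI cD7k_0_c (rjL dJ cD7k_0_q rD7k_20_4) 7010 = true := by
  decide +kernel

theorem cD7k_0_k20_5 : allI cD7k_0_c (rjL dJ cD7k_0_q rD7k_20_5) 7012 = true := by
  decide +kernel

theorem cD7k_0_k20_6 : allI cD7k_0_c (rjL dJ cD7k_0_q rD7k_20_6) 7014 = true := by
  decide +kernel

theorem cD7k_0_k20_7 : allI cD7k_0_c (rjL dJ cD7k_0_q rD7k_20_7) 7016 = true := by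
  decide +kernel

theorem cD7k_0_k20_8 : allI cD7k_0_c (rjL dJ cD7k_0_q rD7k_20_8) 7019 = true := by
  decide +kernel

theorem cD7k_0_k20_9 : allI cD7k_0_c (rjL dJ cD7k_0_q rD7k_20_9) 7022 = true := by
  decide +kernel

theorem cD7k_0_k20_10 : allI cD7k_0_c (rjL dJ cD7k_0_q rD7k_20_10) 7024 = true := by
  decide +kernel

theorem cD7k_0_k20_11 : allI cD7k_0_c (rjL dJ cD7k_0_q rD7k_20_11) 7025 = true := by
  decide +kernel

theorem cD7k_0_k20_12 : allI cD7k_0_c (rjL dJ cD7k_0_q rD7k_20_12) 7026 = true := by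
  decide +kernel

theorem cD7k_0_k20_13 : allI cD7k_0_c (rjL dJ cD7k_0_q rD7k_20_13) 7028 = true := by
  decide +kernel

theorem cD7k_0_k20_14 : allI cD7k_0_c (rjL dJ cD7k_0_q rD7k_20_14) 7030 = true := by
  decide +kernel

theorem cD7k_0_k20_15 : allI cD7k_0_c (rjL dJ cD7k_0_q rD7k_20_15) 7032 = true := by
  decide +kernel

theorem cD7k_0_k20_16 : allI cD7k_0_c (rjL dJ cD7k_0_q rD7k_20_16) 7034 = true := by
  decide +kernel

theorem cD7k_0_k20_17 : allI cD7k_0_c (rjL dJ cD7k_0_q rD7k_20_17) 7036 = true := by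
  decide +kernel

theorem cD7k_0_k20_18 : allI cD7k_0_c (rjL dJ cD7k_0_q rD7k_20_18) 7039 = true := by
  decide +kernel

theorem cD7k_0_k20_19 : allI cD7k_0_c (rjL dJ cD7k_0_q rD7k_20_19) 7041 = true := by
  decide +kernel

theorem cD7k_0_k20_20 : allI cD7k_0_c (rjL dJ cD7k_0_q rD7k_20_20) 7044 = true := by
  decide +kernel

theorem cD7k_0_k20_21 : allI cD7k_0_c (rjL dJ cD7k_0_q rD7k_20_21) 7047 = true := by
  decide +kernel

theorem cD7k_0_k20_22 : allI cD7k_0_c (rjL dJ cD7k_0_q rD7k_20_22) 7050 = true := by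
  decide +kernel

theorem cD7k_0_k20_23 : allI cD7k_0_c (rjL dJ cD7k_0_q rD7k_20_23) 7053 = true := by
  decide +kernel

theorem cD7k_0_k20_24 : allI cD7k_0_c (rjL dJ cD7k_0_q rD7k_20_24) 7055 = true := by
  decide +kernel

theorem cD7k_0_k20_25 : allI cD7k_0_c (rjL dJ cD7k_0_q rD7k_20_25) 7056 = true := by
  decide +kernel

theorem cD7k_0_k20_26 : allI cD7k_0_c (rjL dJ cD7k_0_q rD7k_20_26) 7057 = true := by
  decide +kernel

theorem cD7k_0_k20_27 : allI cD7k_0_c (rjL dJ cD7k_0_q rD7k_20_27) 7058 = true := by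
  decide +kernel

theorem cD7k_0_k20_28 : allI cD7k_0_c (rjL dJ cD7k_0_q rD7k_20_28) 7059 = true := by
  decide +kernel

theorem cD7k_0_k20_29 : allI cD7k_0_c (rjL dJ cD7k_0_q rD7k_20_29) 7061 = true := by
  decide +kernel

theorem cD7k_0_k20_30 : allI cD7k_0_c (rjL dJ cD7k_0_q rD7k_20_30) 7064 = true := by
  decide +kernel

theorem cD7k_0_k20_31 : allI cD7k_0_c (rjL dJ cD7k_0_q rD7k_20_31) 7065 = true := by
  decide +kernel

/-- nodes -/
noncomputable def cD7k_0_n20 : List (QJ PN) :=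
  rjL dJ cD7k_0_q rD7k_20_0 ++ (rjL dJ cD7k_0_q rD7k_20_1 ++ (rjL dJ cD7k_0_q rD7k_20_2 ++ (
    rjL dJ cD7k_0_q rD7k_20_3 ++ (rjL dJ cD7k_0_q rD7k_20_4 ++ (rjL dJ cD7k_0_q rD7k_20_5 ++ (
    rjL dJ cD7k_0_q rD7k_20_6 ++ (rjL dJ cD7k_0_q rD7k_20_7 ++ (rjL dJ cD7k_0_q rD7k_20_8 ++ (
    rjL dJ cD7k_0_q rD7k_20_9 ++ (rjL dJ cD7k_0_q rD7k_20_10 ++ (rjL dJ cD7k_0_q rD7k_20_11 ++ (
    rjL dJ cD7k_0_q rD7k_20_12 ++ (rjL dJ cD7k_0_q rD7k_20_13 ++ (rjL dJ cD7k_0_q rD7k_20_14 ++ (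
    rjL dJ cD7k_0_q rD7k_20_15 ++ (rjL dJ cD7k_0_q rD7k_20_16 ++ (rjL dJ cD7k_0_q rD7k_20_17 ++ (
    rjL dJ cD7k_0_q rD7k_20_18 ++ (rjL dJ cD7k_0_q rD7k_20_19 ++ (rjL dJ cD7k_0_q rD7k_20_20 ++ (
    rjL dJ cD7k_0_q rD7k_20_21 ++ (rjL dJ cD7k_0_q rD7k_20_22 ++ (rjL dJ cD7k_0_q rD7k_20_23 ++ (
    rjL dJ cD7k_0_q rD7k_20_24 ++ (rjL dJ cD7k_0_q rD7k_20_25 ++ (rjL dJ cD7k_0_q rD7k_20_26 ++ (
    rjL dJ cD7k_0_q rD7k_20_27 ++ (rjL dJ cD7k_0_q rD7k_20_28 ++ (rjL dJ cD7k_0_q rD7k_20_29 ++ (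
    rjL dJ cD7k_0_q rD7k_20_30 ++ rjL dJ cD7k_0_q rD7k_20_31))))))))))))))))))))))))))))))

theorem cD7k_0_k20 : allI cD7k_0_c cD7k_0_n20 7004 = true := by
  refine allI_appQ (k := 2) cD7k_0_k20_0 (by decide +kernel) ?_
  refine allI_appQ (k := 1) cD7k_0_k20_1 (by decide +kernel) ?_
  refine allI_appQ (k := 1) cD7k_0_k20_2 (by decide +kernel) ?_
  refine allI_appQ (k := 2) cD7k_0_k20_3 (by decide +kernel) ?_
  refine allI_appQ (k := 2) cD7k_0_k20_4 (by decide +kernel) ?_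
  refine allI_appQ (k := 2) cD7k_0_k20_5 (by decide +kernel) ?_
  refine allI_appQ (k := 2) cD7k_0_k20_6 (by decide +kernel) ?_
  refine allI_appQ (k := 3) cD7k_0_k20_7 (by decide +kernel) ?_
  refine allI_appQ (k := 3) cD7k_0_k20_8 (by decide +kernel) ?_
  refine allI_appQ (k := 2) cD7k_0_k20_9 (by decide +kernel) ?_
  refine allI_appQ (k := 1) cD7k_0_k20_10 (by decide +kernel) ?_
  refine allI_appQ (k := 1) cD7k_0_k20_11 (by decide +kernel) ?_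
  refine allI_appQ (k := 2) cD7k_0_k20_12 (by decide +kernel) ?_
  refine allI_appQ (k := 2) cD7k_0_k20_13 (by decide +kernel) ?_
  refine allI_appQ (k := 2) cD7k_0_k20_14 (by decide +kernel) ?_
  refine allI_appQ (k := 2) cD7k_0_k20_15 (by decide +kernel) ?_
  refine allI_appQ (k := 2) cD7k_0_k20_16 (by decide +kernel) ?_
  refine allI_appQ (k := 3) cD7k_0_k20_17 (by decide +kernel) ?_
  refine allI_appQ (k := 2) cD7k_0_k20_18 (by decide +kernel) ?_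
  refine allI_appQ (k := 3) cD7k_0_k20_19 (by decide +kernel) ?_
  refine allI_appQ (k := 3) cD7k_0_k20_20 (by decide +kernel) ?_
  refine allI_appQ (k := 3) cD7k_0_k20_21 (by decide +kernel) ?_
  refine allI_appQ (k := 3) cD7k_0_k20_22 (by decide +kernel) ?_
  refine allI_appQ (k := 2) cD7k_0_k20_23 (by decide +kernel) ?_
  refine allI_appQ (k := 1) cD7k_0_k20_24 (by decide +kernel) ?_
  refine allI_appQ (k := 1) cD7k_0_k20_25 (by decide +kernel) ?_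
  refine allI_appQ (k := 1) cD7k_0_k20_26 (by decide +kernel) ?_
  refine allI_appQ (k := 1) cD7k_0_k20_27 (by decide +kernel) ?_
  refine allI_appQ (k := 2) cD7k_0_k20_28 (by decide +kernel) ?_
  refine allI_appQ (k := 3) cD7k_0_k20_29 (by decide +kernel) ?_
  refine allI_appQ (k := 1) cD7k_0_k20_30 (by decide +kernel) ?_
  exact cD7k_0_k20_31

theorem cD7k_0_l20 : cD7k_0_n20.length = 62 := by
  decide +kernel

end Pool.Agent.Lib_MP_fa6e45
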