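import Pool.Agent.Lib_MP_fa6e45.DQ7k_0d
import Pool.Agent.Lib_MP_fa6e45.RD7k_21

/-!
MP_fa6e45_co, stage 9: straight-side patterns with `7` sides, part of a certificate (generated by a program).
-/

namespace Pool.Agent.Lib_MP_fa6e45

theorem cD7k_0_k21_0 : allI cD7k_0_c (rjL dJ cD7k_0_q rD7k_21_0) 7066 = true := by
  decide +kernel

theorem cD7k_0_k21_1 : allI cD7k_0_c (rjL dJ cD7k_0_q rD7k_21_1) 7069 = true := by
  decide +kernel

theorem cD7k_0_k21_2 : allI cD7k_0_c (rjL dJ cD7k_0_q rD7k_21_2) 7071 = true := by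
  decide +kernel

theorem cD7k_0_k21_3 : allI cD7k_0_c (rjL dJ cD7k_0_q rD7k_21_3) 7073 = true := by
  decide +kernel

theorem cD7k_0_k21_4 : allI cD7k_0_c (rjL dJ cD7k_0_q rD7k_21_4) 7075 = true := by
  decide +kernel

theorem cD7k_0_k21_5 : allI cD7k_0_c (rjL dJ cD7k_0_q rD7k_21_5) 7077 = true := by
  decide +kernel

theorem cD7k_0_k21_6 : allI cD7k_0_c (rjL dJ cD7k_0_q rD7k_21_6) 7079 = true := by
  decide +kernel

theorem cD7k_0_k21_7 : allI cD7k_0_c (rjL dJ cD7k_0_q rD7k_21_7) 7081 = true := by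
  decide +kernel

theorem cD7k_0_k21_8 : allI cD7k_0_c (rjL dJ cD7k_0_q rD7k_21_8) 7082 = true := by
  decide +kernel

theorem cD7k_0_k21_9 : allI cD7k_0_c (rjL dJ cD7k_0_q rD7k_21_9) 7083 = true := by
  decide +kernel

theorem cD7k_0_k21_10 : allI cD7k_0_c (rjL dJ cD7k_0_q rD7k_21_10) 7085 = true := by
  decide +kernel

theorem cD7k_0_k21_11 : allI cD7k_0_c (rjL dJ cD7k_0_q rD7k_21_11) 7087 = true := by
  decide +kernel

theorem cD7k_0_k21_12 : allI cD7k_0_c (rjL dJ cD7k_0_q rD7k_21_12) 7089 = true := by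
  decide +kernel

theorem cD7k_0_k21_13 : allI cD7k_0_c (rjL dJ cD7k_0_q rD7k_21_13) 7091 = true := by
  decide +kernel

theorem cD7k_0_k21_14 : allI cD7k_0_c (rjL dJ cD7k_0_q rD7k_21_14) 7093 = true := by
  decide +kernel

theorem cD7k_0_k21_15 : allI cD7k_0_c (rjL dJ cD7k_0_q rD7k_21_15) 7095 = true := by
  decide +kernel

theorem cD7k_0_k21_16 : allI cD7k_0_c (rjL dJ cD7k_0_q rD7k_21_16) 7097 = true := by
  decide +kernel

theorem cD7k_0_k21_17 : allI cD7k_0_c (rjL dJ cD7k_0_q rD7k_21_17) 7099 = true := by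
  decide +kernel

theorem cD7k_0_k21_18 : allI cD7k_0_c (rjL dJ cD7k_0_q rD7k_21_18) 7101 = true := by
  decide +kernel

theorem cD7k_0_k21_19 : allI cD7k_0_c (rjL dJ cD7k_0_q rD7k_21_19) 7103 = true := by
  decide +kernel

theorem cD7k_0_k21_20 : allI cD7k_0_c (rjL dJ cD7k_0_q rD7k_21_20) 7104 = true := by
  decide +kernel

theorem cD7k_0_k21_21 : allI cD7k_0_c (rjL dJ cD7k_0_q rD7k_21_21) 7105 = true := by
  decide +kernel

theorem cD7k_0_k21_22 : allI cD7k_0_c (rjL dJ cD7k_0_q rD7k_21_22) 7107 = true := by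
  decide +kernel

theorem cD7k_0_k21_23 : allI cD7k_0_c (rjL dJ cD7k_0_q rD7k_21_23) 7109 = true := by
  decide +kernel

theorem cD7k_0_k21_24 : allI cD7k_0_c (rjL dJ cD7k_0_q rD7k_21_24) 7111 = true := by
  decide +kernel

theorem cD7k_0_k21_25 : allI cD7k_0_c (rjL dJ cD7k_0_q rD7k_21_25) 7113 = true := by
  decide +kernel

theorem cD7k_0_k21_26 : allI cD7k_0_c (rjL dJ cD7k_0_q rD7k_21_26) 7115 = true := by
  decide +kernel

theorem cD7k_0_k21_27 : allI cD7k_0_c (rjL dJ cD7k_0_q rD7k_21_27) 7117 = true := by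
  decide +kernel

theorem cD7k_0_k21_28 : allI cD7k_0_c (rjL dJ cD7k_0_q rD7k_21_28) 7119 = true := by
  decide +kernel

theorem cD7k_0_k21_29 : allI cD7k_0_c (rjL dJ cD7k_0_q rD7k_21_29) 7121 = true := by
  decide +kernel

theorem cD7k_0_k21_30 : allI cD7k_0_c (rjL dJ cD7k_0_q rD7k_21_30) 7124 = true := by
  decide +kernel

theorem cD7k_0_k21_31 : allI cD7k_0_c (rjL dJ cD7k_0_q rD7k_21_31) 7126 = true := by
  decide +kernel

theorem cD7k_0_k21_32 : allI cD7k_0_c (rjL dJ cD7k_0_q rD7k_21_32) 7128 = true := by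
  decide +kernel

theorem cD7k_0_k21_33 : allI cD7k_0_c (rjL dJ cD7k_0_q rD7k_21_33) 7131 = true := by
  decide +kernel

theorem cD7k_0_k21_34 : allI cD7k_0_c (rjL dJ cD7k_0_q rD7k_21_34) 7133 = true := by
  decide +kernel

theorem cD7k_0_k21_35 : allI cD7k_0_c (rjL dJ cD7k_0_q rD7k_21_35) 7136 = true := by
  decide +kernel

theorem cD7k_0_k21_36 : allI cD7k_0_c (rjL dJ cD7k_0_q rD7k_21_36) 7139 = true := by
  decide +kernel

theorem cD7k_0_k21_37 : allI cD7k_0_c (rjL dJ cD7k_0_q rD7k_21_37) 7142 = true := by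
  decide +kernel

theorem cD7k_0_k21_38 : allI cD7k_0_c (rjL dJ cD7k_0_q rD7k_21_38) 7144 = true := by
  decide +kernel

theorem cD7k_0_k21_39 : allI cD7k_0_c (rjL dJ cD7k_0_q rD7k_21_39) 7146 = true := by
  decide +kernel

theorem cD7k_0_k21_40 : allI cD7k_0_c (rjL dJ cD7k_0_q rD7k_21_40) 7148 = true := by
  decide +kernel

theorem cD7k_0_k21_41 : allI cD7k_0_c (rjL dJ cD7k_0_q rD7k_21_41) 7150 = true := by
  decide +kernel

theorem cD7k_0_k21_42 : allI cD7k_0_c (rjL dJ cD7k_0_q rD7k_21_42) 7152 = true := by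
  decide +kernel

theorem cD7k_0_k21_43 : allI cD7k_0_c (rjL dJ cD7k_0_q rD7k_21_43) 7153 = true := by
  decide +kernel

/-- nodes -/
noncomputable def cD7k_0_n21 : List (QJ PN) :=
  rjL dJ cD7k_0_q rD7k_21_0 ++ (rjL dJ cD7k_0_q rD7k_21_1 ++ (rjL dJ cD7k_0_q rD7k_21_2 ++ (
    rjL dJ cD7k_0_q rD7k_21_3 ++ (rjL dJ cD7k_0_q rD7k_21_4 ++ (rjL dJ cD7k_0_q rD7k_21_5 ++ (
    rjL dJ cD7k_0_q rD7k_21_6 ++ (rjL dJ cD7k_0_q rD7k_21_7 ++ (rjL dJ cD7k_0_q rD7k_21_8 ++ (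
    rjL dJ cD7k_0_q rD7k_21_9 ++ (rjL dJ cD7k_0_q rD7k_21_10 ++ (rjL dJ cD7k_0_q rD7k_21_11 ++ (
    rjL dJ cD7k_0_q rD7k_21_12 ++ (rjL dJ cD7k_0_q rD7k_21_13 ++ (rjL dJ cD7k_0_q rD7k_21_14 ++ (
    rjL dJ cD7k_0_q rD7k_21_15 ++ (rjL dJ cD7k_0_q rD7k_21_16 ++ (rjL dJ cD7k_0_q rD7k_21_17 ++ (
    rjL dJ cD7k_0_q rD7k_21_18 ++ (rjL dJ cD7k_0_q rD7k_21_19 ++ (rjL dJ cD7k_0_q rD7k_21_20 ++ (
    rjL dJ cD7k_0_q rD7k_21_21 ++ (rjL dJ cD7k_0_q rD7k_21_22 ++ (rjL dJ cD7k_0_q rD7k_21_23 ++ (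
    rjL dJ cD7k_0_q rD7k_21_24 ++ (rjL dJ cD7k_0_q rD7k_21_25 ++ (rjL dJ cD7k_0_q rD7k_21_26 ++ (
    rjL dJ cD7k_0_q rD7k_21_27 ++ (rjL dJ cD7k_0_q rD7k_21_28 ++ (rjL dJ cD7k_0_q rD7k_21_29 ++ (
    rjL dJ cD7k_0_q rD7k_21_30 ++ (rjL dJ cD7k_0_q rD7k_21_31 ++ (rjL dJ cD7k_0_q rD7k_21_32 ++ (
    rjL dJ cD7k_0_q rD7k_21_33 ++ (rjL dJ cD7k_0_q rD7k_21_34 ++ (rjL dJ cD7k_0_q rD7k_21_35 ++ (
    rjL dJ cD7k_0_q rD7k_21_36 ++ (rjL dJ cD7k_0_q rD7k_21_37 ++ (rjL dJ cD7k_0_q rD7k_21_38 ++ (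
    rjL dJ cD7k_0_q rD7k_21_39 ++ (rjL dJ cD7k_0_q rD7k_21_40 ++ (rjL dJ cD7k_0_q rD7k_21_41 ++ (
    rjL dJ cD7k_0_q rD7k_21_42 ++
    rjL dJ cD7k_0_q rD7k_21_43))))))))))))))))))))))))))))))))))))))))))

theorem cD7k_0_k21 : allI cD7k_0_c cD7k_0_n21 7066 = true := by
  refine allI_appQ (k := 3) cD7k_0_k21_0 (by decide +kernel) ?_
  refine allI_appQ (k := 2) cD7k_0_k21_1 (by decide +kernel) ?_
  refine allI_appQ (k := 2) cD7k_0_k21_2 (by decide +kernel) ?_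
  refine allI_appQ (k := 2) cD7k_0_k21_3 (by decide +kernel) ?_
  refine allI_appQ (k := 2) cD7k_0_k21_4 (by decide +kernel) ?_
  refine allI_appQ (k := 2) cD7k_0_k21_5 (by decide +kernel) ?_
  refine allI_appQ (k := 2) cD7k_0_k21_6 (by decide +kernel) ?_
  refine allI_appQ (k := 1) cD7k_0_k21_7 (by decide +kernel) ?_
  refine allI_appQ (k := 1) cD7k_0_k21_8 (by decide +kernel) ?_
  refine allI_appQ (k := 2) cD7k_0_k21_9 (by decide +kernel) ?_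
  refine allI_appQ (k := 2) cD7k_0_k21_10 (by decide +kernel) ?_
  refine allI_appQ (k := 2) cD7k_0_k21_11 (by decide +kernel) ?_
  refine allI_appQ (k := 2) cD7k_0_k21_12 (by decide +kernel) ?_
  refine allI_appQ (k := 2) cD7k_0_k21_13 (by decide +kernel) ?_
  refine allI_appQ (k := 2) cD7k_0_k21_14 (by decide +kernel) ?_
  refine allI_appQ (k := 2) cD7k_0_k21_15 (by decide +kernel) ?_
  refine allI_appQ (k := 2) cD7k_0_k21_16 (by decide +kernel) ?_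
  refine allI_appQ (k := 2) cD7k_0_k21_17 (by decide +kernel) ?_
  refine allI_appQ (k := 2) cD7k_0_k21_18 (by decide +kernel) ?_
  refine allI_appQ (k := 1) cD7k_0_k21_19 (by decide +kernel) ?_
  refine allI_appQ (k := 1) cD7k_0_k21_20 (by decide +kernel) ?_
  refine allI_appQ (k := 2) cD7k_0_k21_21 (by decide +kernel) ?_
  refine allI_appQ (k := 2) cD7k_0_k21_22 (by decide +kernel) ?_
  refine allI_appQ (k := 2) cD7k_0_k21_23 (by decide +kernel) ?_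
  refine allI_appQ (k := 2) cD7k_0_k21_24 (by decide +kernel) ?_
  refine allI_appQ (k := 2) cD7k_0_k21_25 (by decide +kernel) ?_
  refine allI_appQ (k := 2) cD7k_0_k21_26 (by decide +kernel) ?_
  refine allI_appQ (k := 2) cD7k_0_k21_27 (by decide +kernel) ?_
  refine allI_appQ (k := 2) cD7k_0_k21_28 (by decide +kernel) ?_
  refine allI_appQ (k := 3) cD7k_0_k21_29 (by decide +kernel) ?_
  refine allI_appQ (k := 2) cD7k_0_k21_30 (by decide +kernel) ?_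
  refine allI_appQ (k := 2) cD7k_0_k21_31 (by decide +kernel) ?_
  refine allI_appQ (k := 3) cD7k_0_k21_32 (by decide +kernel) ?_
  refine allI_appQ (k := 2) cD7k_0_k21_33 (by decide +kernel) ?_
  refine allI_appQ (k := 3) cD7k_0_k21_34 (by decide +kernel) ?_
  refine allI_appQ (k := 3) cD7k_0_k21_35 (by decide +kernel) ?_
  refine allI_appQ (k := 3) cD7k_0_k21_36 (by decide +kernel) ?_
  refine allI_appQ (k := 2) cD7k_0_k21_37 (by decide +kernel) ?_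
  refine allI_appQ (k := 2) cD7k_0_k21_38 (by decide +kernel) ?_
  refine allI_appQ (k := 2) cD7k_0_k21_39 (by decide +kernel) ?_
  refine allI_appQ (k := 2) cD7k_0_k21_40 (by decide +kernel) ?_
  refine allI_appQ (k := 2) cD7k_0_k21_41 (by decide +kernel) ?_
  refine allI_appQ (k := 1) cD7k_0_k21_42 (by decide +kernel) ?_
  exact cD7k_0_k21_43

theorem cD7k_0_l21 : cD7k_0_n21.length = 89 := by
  decide +kernel

end Pool.Agent.Lib_MP_fa6e45
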