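import Pool.Agent.Lib_MP_fa6e45.RJ0

/-!
MP_fa6e45_co, stage 9: straight-side patterns with `7` sides, raw data (generated by a program).
-/

namespace Pool.Agent.Lib_MP_fa6e45

/-- nodes -/
noncomputable def rD7k_22_0 : List RJ :=
  [.l (nat_lit 10) (nat_lit 240) (nat_lit 3) (nat_lit 0x5f0000006e00000082000000820000007c000000620000006f0000006f0000005e0000005f0000005f0000005f0000006e0000006e) (nat_lit 0x1400000023000000000000000000000020000000060000001300000013000000230000002400000023000000230000001400000014)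
    (nat_lit 0x1503c1785f0fc5414c4d0f03c0f03c12c4b180541706e0f0681ac4912c3c0f04b1685a1b85f2087c1d08e1f48117c4e17c5f1947d1705e208821887c1bc7317c5e168591cc8b1a0541f08e160761a46917c580f0591a46d0f03f188741085814c4f1003c0fc3c1344e1244d1cc8113c691785c13c471304b16c5b1ac531bc7d14c691685e12c4b1304b1685a0f03c1784e0f05812c470f03c0f03c10c4a12c3c17c5f1005f12c4f0f03c0f03c12c4b12c3c1645f0f05912c4b0f03c0f03c12c4b0f03c1685f0fc3c1304c0f03c0f03c12c4b1684b22c7d1386d1685b12c4a12c4b1685a1684b1cc65134691685b12c4312c4b1685a)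
    (nat_lit 0x150f03c0f03c0f03c0f03c0f03c0f03c0f00f0543c0f03c0f03c0f03c0f03c0f03c0f01785c208f03c0f03c0f03c0f03c0f03c0f017c6e1f0823c0f03c0f03c0f03c0f03c0f00fc3c1d062160f03c0f03c0f03c0f03c0f0150682387c1d8583c0f03c0f03c0f03c0f014c6b1f46f1a453178f03c0f03c0f03c0f013449204731a44f1705e3c0f03c0f03c0f00f04b17c5f17c4013c4b0f0f03c0f03c0f00f03c1385e1603c11c4b0f03c3c0f03c0f00f03c17c5a0f03f1304c0f03c0f0f03c0f00f04b17c591643c12c4b0f03c0f03c3c0f012c5a194731a44d16c5a10c4b12c4b168f012c5a1f48b1b44e16c5a1284b12c4b1685a)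
    (nat_lit 4) (nat_lit 79)
    [[nat_lit 2,nat_lit 258,nat_lit 17,nat_lit 33,nat_lit 273,nat_lit 0x10011,nat_lit 0x1000011,nat_lit 257,
    nat_lit 513,nat_lit 0x1101,nat_lit 0x1000101,nat_lit 0x1001,nat_lit 0x1001001,nat_lit 0x10001,nat_lit 0x1000001],
    [nat_lit 32,nat_lit 48,nat_lit 288,nat_lit 0x1020,nat_lit 0x10020,nat_lit 0x1000020,nat_lit 272,nat_lit 528,
    nat_lit 0x1110,nat_lit 0x10110,nat_lit 0x1000110,nat_lit 0x100110,nat_lit 0x1010,nat_lit 0x1001010,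
    nat_lit 0x10010,nat_lit 0x11010,nat_lit 0x20010,nat_lit 0x1010010,nat_lit 0x100010,nat_lit 0x1000010,
    nat_lit 0x2000010],[nat_lit 512,nat_lit 768,nat_lit 0x1200,nat_lit 0x10200,nat_lit 0x100200,nat_lit 0x1000200,
    nat_lit 0x1100,nat_lit 0x1001100,nat_lit 0x10100,nat_lit 0x1010100,nat_lit 0x100100,nat_lit 0x1000100,
    nat_lit 0x1100100,nat_lit 0x2000100],[nat_lit 0x2000,nat_lit 0x11000,nat_lit 0x1001000],[nat_lit 0x20000,
    nat_lit 0x1020000,nat_lit 0x1010000,nat_lit 0x2010000],[nat_lit 0x1100000],[nat_lit 0x2000000]]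
    [.c (nat_lit 1) (nat_lit 2),.r (nat_lit 0x1bd6) (nat_lit 0) [nat_lit 0x325452,nat_lit 0x3204002],
    .c (nat_lit 0) (nat_lit 0x2203),.r (nat_lit 0x174e) (nat_lit 5) [nat_lit 0x24031,nat_lit 0x2035042],
    .r (nat_lit 0x1b1b) (nat_lit 8) [nat_lit 0x33021,nat_lit 0x230002,nat_lit 0x2020002],
    .r (nat_lit 0x1bd6) (nat_lit 0) [nat_lit 0x2035042,nat_lit 0x3204002],.c (nat_lit 1) (nat_lit 770),
    .c (nat_lit 0) (nat_lit 0x330545),.r (nat_lit 0x1bb5) (nat_lit 10) [nat_lit 0x320002,nat_lit 0x230042,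
    nat_lit 0x2200002],.r (nat_lit 0x1bd6) (nat_lit 0) [nat_lit 0x3231,nat_lit 0x3204002],
    .r (nat_lit 0x1a29) (nat_lit 3) [nat_lit 0x230002,nat_lit 0x3300452,nat_lit 0x2020002],
    .c (nat_lit 1) (nat_lit 0x32004),.r (nat_lit 0x1b96) (nat_lit 1) [nat_lit 0x2200002,nat_lit 0x3305402,
    nat_lit 0x2321],.c (nat_lit 0) (nat_lit 0x330545),.c (nat_lit 1) (nat_lit 0x2002),.c (nat_lit 2) (nat_lit 2),
    .r (nat_lit 0x174e) (nat_lit 5) [nat_lit 0x26032,nat_lit 0x2003022],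
    .r (nat_lit 0x692) (nat_lit 4) [nat_lit 0x300001,nat_lit 0x2200002,nat_lit 0x3834452,nat_lit 0x505021,
    nat_lit 0x202001],.r (nat_lit 0x174e) (nat_lit 5) [nat_lit 0x228052,nat_lit 0x2305042],
    .r (nat_lit 0x18db) (nat_lit 9) [nat_lit 0x320002,nat_lit 0x2200002,nat_lit 0x2024542,nat_lit 0x3034452],
    .c (nat_lit 2) (nat_lit 770),.r (nat_lit 0x1bec) (nat_lit 8) [nat_lit 33,nat_lit 0x2200002],
    .r (nat_lit 0x1b1b) (nat_lit 8) [nat_lit 0x33022,nat_lit 0x230002,nat_lit 0x2020002],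
    .r (nat_lit 0x1b1b) (nat_lit 8) [nat_lit 0x335042,nat_lit 0x230002,nat_lit 0x2020002],
    .r (nat_lit 0x174e) (nat_lit 5) [nat_lit 0x3300452,nat_lit 0x4224542],.c (nat_lit 3) (nat_lit 770),
    .r (nat_lit 0x1b22) (nat_lit 2) [nat_lit 0x230002,nat_lit 0x2020002,nat_lit 0x2030052],
    .c (nat_lit 0) (nat_lit 0x20205),.c (nat_lit 1) (nat_lit 0x32504),.r (nat_lit 0x174b) (nat_lit 5) [nat_lit 33,
    nat_lit 0x2020002,nat_lit 0x3200452],.r (nat_lit 0x1bd6) (nat_lit 0) [nat_lit 0x2305042,nat_lit 0x3204002],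
    .r (nat_lit 0x1bd6) (nat_lit 0) [nat_lit 0x2003022,nat_lit 0x3204002],.c (nat_lit 5) (nat_lit 770),
    .r (nat_lit 0x174e) (nat_lit 5) [nat_lit 0x2024052,nat_lit 33],.c (nat_lit 0) (nat_lit 515),
    .c (nat_lit 1) (nat_lit 0x2302),.c (nat_lit 3) (nat_lit 2),.r (nat_lit 0x694) (nat_lit 0) [nat_lit 0x6600002,
    nat_lit 0x700001,nat_lit 0x760002,nat_lit 0x606001,nat_lit 33],.r (nat_lit 0x1bb5) (nat_lit 10) [nat_lit 0x320002,
    nat_lit 33,nat_lit 0x2200002],.r (nat_lit 0x1b1b) (nat_lit 8) [nat_lit 0x2204542,nat_lit 0x230002,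
    nat_lit 0x2020002],.r (nat_lit 0x1962) (nat_lit 11) [nat_lit 0x2003001,nat_lit 0x202001,nat_lit 0x3002041],
    .r (nat_lit 0x1a82) (nat_lit 4) [nat_lit 0x3335431,nat_lit 0x2001,nat_lit 0x20001,nat_lit 33],
    .c (nat_lit 0) (nat_lit 0x303545),.r (nat_lit 0x1a29) (nat_lit 3) [nat_lit 0x230002,nat_lit 0x3030452,
    nat_lit 0x2020002],.c (nat_lit 0) (nat_lit 0x330545),.c (nat_lit 1) (nat_lit 0x224454),
    .r (nat_lit 0x1b1b) (nat_lit 8) [nat_lit 0x3030042,nat_lit 0x230002,nat_lit 0x2020002],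
    .c (nat_lit 0) (nat_lit 0x333345),.c (nat_lit 5) (nat_lit 0x33545),.r (nat_lit 0x1175) (nat_lit 9) [nat_lit 33,
    nat_lit 0x2020002,nat_lit 0x3035402,nat_lit 0x330452],.c (nat_lit 4) (nat_lit 2),
    .c (nat_lit 0) (nat_lit 0x303545),.c (nat_lit 1) (nat_lit 0x36004),.c (nat_lit 5) (nat_lit 2),
    .r (nat_lit 0x1b22) (nat_lit 6) [nat_lit 0x320002,nat_lit 0x2200002,nat_lit 0x2020542],
    .c (nat_lit 0) (nat_lit 0x333345),.r (nat_lit 0x1b22) (nat_lit 2) [nat_lit 0x230002,nat_lit 0x2020002,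
    nat_lit 0x2200542],.c (nat_lit 1) (nat_lit 0x302004),.c (nat_lit 7) (nat_lit 2)],
    .l (nat_lit 15) (nat_lit 0x1e00) (nat_lit 3) (nat_lit 0xd5200000eac00000e6000000e6000000f2400000d4c00000c5800000ed800000e5a00000e5a0000122400000e8900000f5b00000cd2) (nat_lit 0x378000004d2000003c4000003c4000004d8000003000000034c000005cc000003ca000003ca0000039b0000000000000552000002c9)
    (nat_lit 0x157822005480a180f3025c03c0078615e426203c0078010002a2467c0abc15302ba04ea0bac16c021405710ad61db03b60468078015d0286054e08d814302ec0590089414d42a587940e6010581f4054c0a9015382a704e40b6015a0214054b09061f403b604f80eb0175825c05b00bb0152030906b4091815c42e784380f2411a01e004ea0798139028603c00a9014b81e004c1088e0fe037a03fd0a8310a01e1842808940f00246050007800fe420c845e8c580fd02d405b0078015a02c8052e0d68190028005810b0e0f503b604c30b3015ac26204830a96111c2e785870832152026705cf0e66171c3c985710af2152c29a84c10ae216041fc85480a901754396876d12721db01e0076c0e601bd03c9076c0c581cb439983d4122416d039c076c07801f403ca03f808700f5022f45d50b9e15dc1ea049b8bc00f002a2475807d015061e005980b5024e43c985e00e7018803248468080013e020b03fd08d0130c1fa076d0b8e126e2da03c00c40)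
    (nat_lit 0x15787800f001e003c007800f001e003c007800f001e003c0078004400abc3c007800f001e003c007800f001e003c007800f001e0015202a6054e1e003c007800f001e003c007800f001e003c00780050c0ae811b02a70f001e003c007800f001e003c007800f001e000f30275050c09c815207800f001e003c007800f001e003c0078004b80bac17602d806120a903c007800f001e003c007800f001e000f002d805900ad01ad029705001e003c007800f001e003c0078003c308501128214048c07800f002800f001e003c007800f001e0015e42b885350a9615c426083f90b0215207800f001e003c0078004c40ad6152c24185cf088e10642c384ce0a903c007800f001e000f003b607940fa010e01fc045e87a8173c2ea83d41e003c0078003c00ed81cc03b607920de818b03b607330e5a24481ea0f001e001000234041609f011a01fe83f40986171c3b685b409371880780054487800fa03ac03c00a8316a02cc079311021ce02f006490c40)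
    (nat_lit 5) (nat_lit 61)
    [[nat_lit 2,nat_lit 0x10002,nat_lit 0x1000002,nat_lit 17,nat_lit 0x10011,nat_lit 0x1000011,nat_lit 0x10101,
    nat_lit 0x100101,nat_lit 0x1001,nat_lit 0x2001,nat_lit 0x11001,nat_lit 0x101001,nat_lit 0x1001001,nat_lit 0x10001,
    nat_lit 0x20001,nat_lit 0x110001,nat_lit 0x1010001,nat_lit 0x100001,nat_lit 0x200001,nat_lit 0x1100001,
    nat_lit 0x1000001,nat_lit 0x2000001],[nat_lit 32,nat_lit 48,nat_lit 0x1020,nat_lit 272,nat_lit 0x1010,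
    nat_lit 0x1001010,nat_lit 0x10010,nat_lit 0x1010010,nat_lit 0x1000010,nat_lit 0x2000010],[nat_lit 512,
    nat_lit 0x1200,nat_lit 0x1100,nat_lit 0x2100,nat_lit 0x11100,nat_lit 0x101100,nat_lit 0x1001100,nat_lit 0x10100,
    nat_lit 0x1010100,nat_lit 0x100100,nat_lit 0x200100,nat_lit 0x1000100],[nat_lit 0x2000,nat_lit 0x12000,
    nat_lit 0x102000,nat_lit 0x1002000,nat_lit 0x11000,nat_lit 0x1011000,nat_lit 0x101000,nat_lit 0x1101000,
    nat_lit 0x201000,nat_lit 0x1001000,nat_lit 0x2001000],[nat_lit 0x20000,nat_lit 0x1020000,nat_lit 0x110000,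
    nat_lit 0x1010000,nat_lit 0x1110000],[nat_lit 0x200000,nat_lit 0x1100000],[nat_lit 0x2000000]]
    [.c (nat_lit 1) (nat_lit 2),.r (nat_lit 0xce8) (nat_lit 10) [nat_lit 0x10001,nat_lit 0x140d000c1,nat_lit 0x600001,
    nat_lit 0x104c000e1,nat_lit 0x80600001],.r (nat_lit 0xff5) (nat_lit 7) [nat_lit 0x8000001,nat_lit 0xc00001,
    nat_lit 193,nat_lit 0xad2b0e1],.c (nat_lit 0) (nat_lit 0x4030007),.c (nat_lit 0) (nat_lit 0x4230007),
    .c (nat_lit 0) (nat_lit 0x4230007),.c (nat_lit 0) (nat_lit 0x2308e6),.c (nat_lit 0) (nat_lit 0x42308e6),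
    .c (nat_lit 0) (nat_lit 0x4030807),.r (nat_lit 0x1750) (nat_lit 8) [nat_lit 0x67218e3,nat_lit 0xc0048183],
    .r (nat_lit 32) (nat_lit 13) [nat_lit 0x300861,nat_lit 0x200001],.c (nat_lit 2) (nat_lit 0x4060807),
    .r (nat_lit 0x1bec) (nat_lit 1) [nat_lit 0xc00180c3,nat_lit 0x6719803],.c (nat_lit 0) (nat_lit 0x4230007),
    .c (nat_lit 0) (nat_lit 0x4430007),.r (nat_lit 0xff3) (nat_lit 6) [nat_lit 0x10001,nat_lit 0x6719801,
    nat_lit 0x46000e1,nat_lit 0x60000c1],.c (nat_lit 0) (nat_lit 0x4230007),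
    .r (nat_lit 0x1750) (nat_lit 8) [nat_lit 0xcad030e6,nat_lit 65],
    .r (nat_lit 0xce9) (nat_lit 13) [nat_lit 0x1000000c1,nat_lit 0xc000001,nat_lit 0xc00000c1,nat_lit 0x30001,
    nat_lit 0x14f33c8e1],.r (nat_lit 0x1406) (nat_lit 5) [nat_lit 0x4000001,nat_lit 0x10001,nat_lit 0x60198e1,
    nat_lit 0x7000c1],.c (nat_lit 0) (nat_lit 0x4230007),.c (nat_lit 0) (nat_lit 0x4430007),
    .c (nat_lit 2) (nat_lit 2),.r (nat_lit 0x1750) (nat_lit 8) [nat_lit 0xc6d01843,nat_lit 0x80c000a3],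
    .r (nat_lit 0x1750) (nat_lit 8) [nat_lit 0x14b91b0c6,nat_lit 0x80c100e3],
    .r (nat_lit 0x1750) (nat_lit 8) [nat_lit 0xc6d118c6,nat_lit 0x60198e3],.c (nat_lit 0) (nat_lit 0x4030807),
    .r (nat_lit 8) (nat_lit 8) [nat_lit 0x46100e3,nat_lit 0x6719803],.c (nat_lit 0) (nat_lit 0x4230007),
    .c (nat_lit 0) (nat_lit 0x4230007),.c (nat_lit 0) (nat_lit 0x4230007),.c (nat_lit 0) (nat_lit 0x4430007),
    .c (nat_lit 3) (nat_lit 2),.c (nat_lit 0) (nat_lit 0x84c09a6),.r (nat_lit 0x1750) (nat_lit 8) [nat_lit 65,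
    nat_lit 0xcad031a3],.c (nat_lit 0) (nat_lit 0x4260ce6),.r (nat_lit 0x174e) (nat_lit 5) [nat_lit 0x300861,
    nat_lit 0x200001],.c (nat_lit 0) (nat_lit 0x42300e6),.r (nat_lit 32) (nat_lit 11) [nat_lit 0x300861,
    nat_lit 0x200001],.r (nat_lit 45) (nat_lit 1) [nat_lit 0x10001,nat_lit 0x7198e1,nat_lit 0x200001],
    .c (nat_lit 2) (nat_lit 0x40608e6),.c (nat_lit 0) (nat_lit 0x42308e6),.c (nat_lit 0) (nat_lit 0x84611a6),
    .r (nat_lit 8) (nat_lit 8) [nat_lit 0xc07198e3,nat_lit 0x6719803],.c (nat_lit 4) (nat_lit 2),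
    .c (nat_lit 0) (nat_lit 0x201007),.c (nat_lit 0) (nat_lit 0x4001406),.c (nat_lit 0) (nat_lit 0x201007),
    .c (nat_lit 0) (nat_lit 0x200807),.c (nat_lit 0) (nat_lit 0x200807),
    .r (nat_lit 0x1750) (nat_lit 8) [nat_lit 0xc67118e3,nat_lit 0x80028183],
    .r (nat_lit 0x1b49) (nat_lit 0) [nat_lit 0x40100e3,nat_lit 0x6719803,nat_lit 0x200001],
    .c (nat_lit 0) (nat_lit 0x8000c06),.c (nat_lit 0) (nat_lit 0x200807),.c (nat_lit 0) (nat_lit 0x400807),
    .c (nat_lit 5) (nat_lit 2),.c (nat_lit 0) (nat_lit 0x400007),.r (nat_lit 32) (nat_lit 13) [nat_lit 0xc07198e3,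
    nat_lit 0x200001],.c (nat_lit 0) (nat_lit 0x200007),.c (nat_lit 1) (nat_lit 0x4300006),.c (nat_lit 6) (nat_lit 2),
    .r (nat_lit 0x1bec) (nat_lit 1) [nat_lit 65,nat_lit 0x6719803],.c (nat_lit 7) (nat_lit 2)]]

/-- nodes -/
noncomputable def rD7k_22_1 : List RJ :=
  [.l (nat_lit 14) (nat_lit 0xf00) (nat_lit 3) (nat_lit 0x89c000007ac0000070c0000094200000a9200000714000008860000079f0000077100000788000007df000007b10000074600000746) (nat_lit 0x2e6000001f600000150000003860000037e00000000000002f30000020c0000030a00000321000002e1000002b30000034c0000034c)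
    (nat_lit 0x16d851d1d303c01a60ad216a4698164857b10c8642154055012305b617a042610b886812e452a10543d3132c51816d846010983c014003c0101078013445000f8c3eb10ac4e60f003c017a074c1fc85001d749422800a2f1cf0621197c6a80f005f621a0ad22508780106ca921e7c6ed1dbc3c01ec46db1d1874810b86981d744040f0041b0fe050810003f310cc3c00f003c014a869828bc50014206ed164c650187458e16b45dd0f0053a12e45a928004d10fe079f0fc0593125447e12f8453114c4530f4c57b18843eb0fcc3c011f858e140050c12404be109442510545921cf03e3100076f125461d13d0500147c4d50f8c3c014606421aa04e60f006db114c5dd13544be15e84b6124c41b132c432197c42b10cc7b112f85ad147c490134057a1194465118055017d83c00f00748114c53a0f00425119441b160c3fa16d85500f003c00f00746114c3c00f8c4251194493160c583)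
    (nat_lit 0x16d8f003c00f003c00f003c00f003c00f003c00f003c00f0014745b63c00f003c00f003c00f003c00f003c00f003c00f001d305e81400f003c00f003c00f003c00f003c00f003c00f000f004260f005003c00f003c00f003c00f003c00f003c00f001a6042e101075d106cf003c00f003c00f003c00f003c00f002b488681e009422a4841b3c00f003c00f003c00f003c00f0016a44b91344a001e7c3f8164cf003c00f003c00f003c00f001a6052a1400a2f1bb450819405933c00f003c00f003c00f0016484150f8c73c1dbc40018744951400f003c00f003c00f0015ec3d30fac6210f003f3163847e14305003c00f003c00f0010c84cb10ac65f1ec443316b44be124051f15e8f003c00f00190851813986a81b6c3c0177445312f84d512d857a3c00f0015405b60f003c01d183c00f0045310943e3124c465160cf0015404600f005f61d203c014e845310943c0106c4650fe8583)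
    (nat_lit 4) (nat_lit 79)
    [[nat_lit 2,nat_lit 18,nat_lit 258,nat_lit 0x1002,nat_lit 0x100002,nat_lit 17,nat_lit 33,nat_lit 273,
    nat_lit 0x1011,nat_lit 0x100011,nat_lit 0x1000011,nat_lit 257,nat_lit 513,nat_lit 0x1101,nat_lit 0x100101,
    nat_lit 0x1000101,nat_lit 0x10101,nat_lit 0x1001,nat_lit 0x2001,nat_lit 0x101001,nat_lit 0x1001001,
    nat_lit 0x10001,nat_lit 0x100001,nat_lit 0x200001,nat_lit 0x1100001,nat_lit 0x1000001],[nat_lit 32,nat_lit 288,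
    nat_lit 0x1000020,nat_lit 272,nat_lit 528,nat_lit 0x1000110,nat_lit 0x10110,nat_lit 0x1010,nat_lit 0x10010,
    nat_lit 0x100010,nat_lit 0x1000010,nat_lit 0x1001010],[nat_lit 512,nat_lit 0x10200,nat_lit 0x1000200,
    nat_lit 0x1100,nat_lit 0x11100,nat_lit 0x10100,nat_lit 0x20100,nat_lit 0x100100,nat_lit 0x1100100,
    nat_lit 0x1000100,nat_lit 0x1010100,nat_lit 0x2000100],[nat_lit 0x2000,nat_lit 0x11000,nat_lit 0x1001000],
    [nat_lit 0x20000,nat_lit 0x30000,nat_lit 0x110000],[nat_lit 0x200000,nat_lit 0x1200000,nat_lit 0x1100000],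
    [nat_lit 0x2000000]]
    [.c (nat_lit 1) (nat_lit 2),.c (nat_lit 0) (nat_lit 0x55245),.c (nat_lit 0) (nat_lit 0x55245),
    .r (nat_lit 0x1a91) (nat_lit 6) [nat_lit 0x203021,nat_lit 0x22031],
    .r (nat_lit 0x174f) (nat_lit 3) [nat_lit 0x22031,nat_lit 0x203021],.c (nat_lit 0) (nat_lit 0x33023),
    .c (nat_lit 0) (nat_lit 0x99385),.c (nat_lit 0) (nat_lit 0x33023),
    .r (nat_lit 0x1b64) (nat_lit 11) [nat_lit 0x200001,nat_lit 0x20031,nat_lit 0x330201],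
    .r (nat_lit 0x1bac) (nat_lit 3) [nat_lit 0x300231,nat_lit 0x220321,nat_lit 0x200001],
    .r (nat_lit 0x1ba9) (nat_lit 9) [nat_lit 0x303041,nat_lit 0x200001,nat_lit 0x20001],
    .c (nat_lit 0) (nat_lit 0x33023),.c (nat_lit 0) (nat_lit 0x99385),
    .r (nat_lit 0x1bab) (nat_lit 9) [nat_lit 0x330231,nat_lit 0x200001,nat_lit 0x20001],
    .r (nat_lit 0x1bae) (nat_lit 13) [nat_lit 0x330231,nat_lit 0x20001,nat_lit 0x200001],
    .r (nat_lit 0x1bab) (nat_lit 13) [nat_lit 0x330231,nat_lit 0x20001,nat_lit 0x200001],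
    .r (nat_lit 0x1bae) (nat_lit 9) [nat_lit 0x330231,nat_lit 0x200001,nat_lit 0x20001],
    .r (nat_lit 0x196a) (nat_lit 3) [nat_lit 0x200001,nat_lit 0x220321,nat_lit 0x300231],
    .r (nat_lit 0x1aa1) (nat_lit 3) [nat_lit 0x200001,nat_lit 0x330201,nat_lit 0x220321],
    .c (nat_lit 0) (nat_lit 0x3002),.r (nat_lit 0x196f) (nat_lit 5) [nat_lit 0x2031,nat_lit 0x20001,nat_lit 0x200001],
    .r (nat_lit 0x1ba2) (nat_lit 6) [nat_lit 0x20001,nat_lit 0x220321,nat_lit 0x30231],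
    .r (nat_lit 0x196f) (nat_lit 5) [nat_lit 0x30021,nat_lit 0x20001,nat_lit 0x200001],
    .r (nat_lit 0x1ba8) (nat_lit 5) [nat_lit 0x20001,nat_lit 0x200001,nat_lit 0x50021],
    .r (nat_lit 0x196a) (nat_lit 3) [nat_lit 0x200001,nat_lit 0x242331,nat_lit 0x333221],.c (nat_lit 0) (nat_lit 515),
    .c (nat_lit 2) (nat_lit 2),.c (nat_lit 0) (nat_lit 0x55343),.r (nat_lit 0x1ba9) (nat_lit 9) [nat_lit 0x300021,
    nat_lit 0x200001,nat_lit 0x20001],.c (nat_lit 0) (nat_lit 0x33023),.c (nat_lit 0) (nat_lit 0x55343),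
    .r (nat_lit 0x1749) (nat_lit 3) [nat_lit 0x253451,nat_lit 0x332231,nat_lit 0x20001],
    .c (nat_lit 1) (nat_lit 0x2232),.r (nat_lit 0x1baf) (nat_lit 11) [nat_lit 0x20031,nat_lit 0x200001,nat_lit 33],
    .c (nat_lit 0) (nat_lit 0x5345),.r (nat_lit 0x1b9f) (nat_lit 9) [nat_lit 0x30021,nat_lit 0x200001,
    nat_lit 0x20001],.r (nat_lit 0x1baf) (nat_lit 6) [nat_lit 0x200031,nat_lit 0x20001,nat_lit 33],
    .r (nat_lit 0x1b0e) (nat_lit 6) [nat_lit 0x20001,nat_lit 0x200031,nat_lit 0x330201],.c (nat_lit 3) (nat_lit 2),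
    .c (nat_lit 0) (nat_lit 0x35343),.r (nat_lit 0x1bab) (nat_lit 13) [nat_lit 0x553432,nat_lit 0x20001,
    nat_lit 0x200001],.r (nat_lit 0x1bec) (nat_lit 3) [nat_lit 33,nat_lit 0x200001],
    .r (nat_lit 0x1bb2) (nat_lit 3) [nat_lit 0x200001,nat_lit 0x300021,nat_lit 0x330201],
    .c (nat_lit 0) (nat_lit 0x5345),.r (nat_lit 0x1ba8) (nat_lit 0) [nat_lit 0x200001,nat_lit 0x20001,
    nat_lit 0x500021],.r (nat_lit 0x1ba2) (nat_lit 11) [nat_lit 0x200001,nat_lit 0x220321,nat_lit 0x300231],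
    .r (nat_lit 0x10a3) (nat_lit 13) [nat_lit 0x302001,nat_lit 0x400001,nat_lit 0x500041,nat_lit 0x440051],
    .r (nat_lit 0x196a) (nat_lit 2) [nat_lit 0x20001,nat_lit 0x220321,nat_lit 0x30231],
    .c (nat_lit 0) (nat_lit 0x30002),.r (nat_lit 0x1aa1) (nat_lit 2) [nat_lit 0x20001,nat_lit 0x330201,
    nat_lit 0x220321],.c (nat_lit 4) (nat_lit 2),.r (nat_lit 0x1a91) (nat_lit 6) [nat_lit 33,nat_lit 0x220031],
    .r (nat_lit 0x174f) (nat_lit 3) [nat_lit 33,nat_lit 0x220031],.c (nat_lit 5) (nat_lit 2),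
    .r (nat_lit 0x1749) (nat_lit 3) [nat_lit 33,nat_lit 0x706022,nat_lit 0x20001],
    .r (nat_lit 0x174f) (nat_lit 3) [nat_lit 0x220031,nat_lit 33],.c (nat_lit 6) (nat_lit 2),
    .r (nat_lit 0x196a) (nat_lit 3) [nat_lit 0x200001,nat_lit 0x482532,nat_lit 0x553422],
    .r (nat_lit 0x1a91) (nat_lit 6) [nat_lit 0x220031,nat_lit 33],.c (nat_lit 7) (nat_lit 2)],
    .l (nat_lit 16) (nat_lit 0x2760) (nat_lit 4) (nat_lit 0x10fa000010fa0000112700001127000010b7000010b7000010470000104700000f94000013f4000011ad000011ad0000107400001074) (nat_lit 0x2fa000002fa000002cd000002cd0000033d0000033d000003ad000003ad000000000000046000000247000002470000038000000380)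
    (nat_lit 0xe000e000da70e2d0dbd0dbd0e2d0d4d10fa0bba13c717470d7a0d7a0e000e000e2d0e2d0c570d090d4d0d4d10fa0be6101913990d7a0d7a0e2d0e2d0f0e0e5a0dea0dea0e2e0ee00c410cc70ee00ee00da70c410e2d0da70e5a0f0e0e160dea0cc60d7a11270c130e860ee00da70da70d090dbd0dea0dea0d7a0d7a0dbe0cde10b70d0b0e700e700dbd0d910c570dbd0e160dea0d7a0d7a0d0a0d0a10b70d370e9c0e440d370cdd0d4d0d4d0d7a0ee00d0a0cde0bba0c9a10730be70e5a0e000cc70c9b0d4d0e2d0cc60e2e0d0a0dbe0b060bba10470be70c400be60da70d4d0be60bba0c130cc70d370d0b0be70be711ae0cc80cc70d4d0b340dd410fa10fa11270c4110b710b71047107313f411ae11ad11ad07e012ba139917470ee00ee00e440e700be60e0011ad0d4d0d200f660e2d0e2d101913c70e860ee00e9c0e700c400e5a11ad0cc70f660d200e2d0e2d0d7a0d7a0da70c410cdd0d910d4d0c9b12ba0dd40e2d0e2d07e00cf40d7a0d7a0da70da70d370dbd0da70cc707e00b340e2d0e2d0cf407e0)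
    (nat_lit 0xe0027602760276027602760276027602760276027602760276027600e000e002760276027602760276027602760276027602760276027600da70e2d0f0e276027602760276027602760276027602760276027600e2d0e2d0e5a0f0e27602760276027602760276027602760276027600dbd0c570dea0e160d7a2760276027602760276027602760276027600dbd0d090dea0dea0d7a0d7a276027602760276027602760276027600e2d0d4d0e2e0cc60dbe0d0a0bba27602760276027602760276027600d4d0d4d0ee00d7a0cde0d0a0c9a0bba27602760276027602760276010fa10fa0c41112710b710b71073104711ae276027602760276027600bba0be60cc70c130d0b0d370be70be70cc811ae276027602760276013c710190ee00e860e700e9c0e5a0c400cc711ad0d20276027602760174713990ee00ee00e700e440e000be60d4d11ad0f660d20276027600d7a0d7a0da70da70dbd0d370cc70da70b3407e00e2d0e2d07e027600d7a0d7a0c410da70d910cdd0c9b0d4d0dd412ba0e2d0e2d0cf407e0)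
    (nat_lit 4) (nat_lit 74)
    [[nat_lit 2,nat_lit 3,nat_lit 4,nat_lit 259,nat_lit 18,nat_lit 258,nat_lit 0x1002,nat_lit 0x10002,
    nat_lit 0x100002,nat_lit 0x1000002,nat_lit 17,nat_lit 0x1011,nat_lit 257,nat_lit 0x100101,nat_lit 273,
    nat_lit 0x1101,nat_lit 0x10101,nat_lit 0x1000101,nat_lit 0x1001,nat_lit 0x2001,nat_lit 0x101001,nat_lit 0x10001,
    nat_lit 0x100001,nat_lit 0x1000001],[nat_lit 32,nat_lit 272,nat_lit 0x1010,nat_lit 0x2010,nat_lit 0x10010,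
    nat_lit 0x100010],[nat_lit 512,nat_lit 0x1100,nat_lit 0x10100,nat_lit 0x100100,nat_lit 0x101100,nat_lit 0x1100100,
    nat_lit 0x1000100],[nat_lit 0x2000,nat_lit 0x3000,nat_lit 0x12000,nat_lit 0x1002000,nat_lit 0x11000,
    nat_lit 0x101000,nat_lit 0x1001000],[nat_lit 0x20000,nat_lit 0x110000,nat_lit 0x1010000],[nat_lit 0x200000,
    nat_lit 0x1100000],[nat_lit 0x2000000]]
    [.c (nat_lit 1) (nat_lit 2),.r (nat_lit 0x1749) (nat_lit 1) [nat_lit 33,nat_lit 0x606052,nat_lit 0x20001],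
    .c (nat_lit 6) (nat_lit 0x502),.r (nat_lit 8) (nat_lit 13) [nat_lit 0x32231,nat_lit 0x20001],
    .r (nat_lit 0x1b6e) (nat_lit 9) [nat_lit 0x202002,nat_lit 0x243542,nat_lit 0x302452],
    .c (nat_lit 0) (nat_lit 0x35245),.c (nat_lit 1) (nat_lit 0x30304),.c (nat_lit 0) (nat_lit 0x35245),
    .c (nat_lit 6) (nat_lit 770),.r (nat_lit 0x1bd6) (nat_lit 11) [nat_lit 0x3021,nat_lit 0x352452],
    .r (nat_lit 0x19ec) (nat_lit 3) [nat_lit 0x202052,nat_lit 0x20001,nat_lit 33],.c (nat_lit 2) (nat_lit 0x30304),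
    .c (nat_lit 0) (nat_lit 0x35045),.r (nat_lit 8) (nat_lit 13) [nat_lit 0x30231,nat_lit 0x20001],
    .r (nat_lit 0x1906) (nat_lit 3) [nat_lit 0x20001,nat_lit 0x202052,nat_lit 0x352492,nat_lit 33],
    .c (nat_lit 3) (nat_lit 0x30304),.c (nat_lit 4) (nat_lit 0x22032),.r (nat_lit 0x1843) (nat_lit 1) [nat_lit 0x2001,
    nat_lit 0x200001,nat_lit 0x240541,nat_lit 0x300451],.c (nat_lit 0) (nat_lit 0x20205),
    .c (nat_lit 4) (nat_lit 0x30304),.c (nat_lit 6) (nat_lit 0x30304),.c (nat_lit 0) (nat_lit 0x35045),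
    .r (nat_lit 0x1749) (nat_lit 1) [nat_lit 0x2021,nat_lit 0x602052,nat_lit 0x20001],
    .r (nat_lit 0x1ac9) (nat_lit 7) [nat_lit 0x202052,nat_lit 0x20001,nat_lit 33],.c (nat_lit 2) (nat_lit 2),
    .r (nat_lit 2) (nat_lit 4) [nat_lit 0x202002,nat_lit 33],.r (nat_lit 0x1b2f) (nat_lit 7) [nat_lit 0x30021,
    nat_lit 0x242052,nat_lit 0x20001],.r (nat_lit 0x1bd6) (nat_lit 11) [nat_lit 0x220031,nat_lit 0x793442],
    .r (nat_lit 32) (nat_lit 9) [nat_lit 0x202002,nat_lit 33],.r (nat_lit 0x1b6e) (nat_lit 9) [nat_lit 0x202002,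
    nat_lit 0x242542,nat_lit 0x303452],.c (nat_lit 3) (nat_lit 2),.r (nat_lit 0x1bec) (nat_lit 10) [nat_lit 33,
    nat_lit 0x20001],.c (nat_lit 4) (nat_lit 0x64254),.c (nat_lit 0) (nat_lit 0x35345),
    .r (nat_lit 0x1bad) (nat_lit 4) [nat_lit 0x20001,nat_lit 0x22321,nat_lit 0x353402],
    .r (nat_lit 32) (nat_lit 9) [nat_lit 0x202002,nat_lit 0x303452],.r (nat_lit 32) (nat_lit 8) [nat_lit 0x202002,
    nat_lit 33],.c (nat_lit 4) (nat_lit 2),.r (nat_lit 0x1748) (nat_lit 9) [nat_lit 33,nat_lit 0x606052,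
    nat_lit 0x20001],.r (nat_lit 0x174c) (nat_lit 0) [nat_lit 0x20001,nat_lit 33,nat_lit 0x252452],
    .r (nat_lit 0x1b6e) (nat_lit 9) [nat_lit 0x202002,nat_lit 0x682552,nat_lit 0x753442],
    .r (nat_lit 0x1750) (nat_lit 3) [nat_lit 33,nat_lit 0x20001],.c (nat_lit 1) (nat_lit 0x30204),
    .r (nat_lit 0x1b19) (nat_lit 9) [nat_lit 0x20031,nat_lit 33,nat_lit 0x200001],.c (nat_lit 5) (nat_lit 2),
    .c (nat_lit 0) (nat_lit 0x35345),.r (nat_lit 0x1a29) (nat_lit 9) [nat_lit 0x20031,nat_lit 0x202002,nat_lit 33],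
    .c (nat_lit 6) (nat_lit 2),.r (nat_lit 0x1bd6) (nat_lit 11) [nat_lit 33,nat_lit 0x353452],
    .c (nat_lit 7) (nat_lit 2)],
    .l (nat_lit 12) (nat_lit 720) (nat_lit 4) (nat_lit 0x12000000120000001240000012400000124000001240000012400000124000001200000012000000152000001520000012300000123) (nat_lit 0x32000000320000002e0000002e0000002e0000002e0000002e0000002e000000320000003200000000000000000000002f0000002f)
    (nat_lit 0xf00f40f20f20f20f20f20f20620f00f01200f10bd0ee0f00f20f20f20f20f20f20ee0ee1561180f11270f20f20f60f60f60f60f60f60fa0f20ee1240f30bf0f20f20f60f60f60f60f60f60e80f21241240f50770f20f20f60f60f60f60f60f60f20f21a212e0f50f50f20f20f60f60f60f60f60f60f20f21a212e0f50f50f20f20f60f60f60f60f60f60e80f21241240f50770f20f20f60f60f60f60f60f60fa0f212411c0f30bf0ee0f00f20f20f20f20f20f20f60ee1561180f10f10ee0620e80fa0f20f20fa0e80ee0f60c81200f10f111812012412412e12e11c1241201181521521af17b1560f01240ee1a21a21241240c81561521521571231270bd0770bf0f50f50bf0770f10f112317b1240f40f10f10f50f30f50f50f30f50f10f11571af0ee124)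
    (nat_lit 0xf02d02d02d02d02d02d02d02d02d02d02d02d02d00f40f02d02d02d02d02d02d02d02d02d02d02d02d00f20f20f62d02d02d02d02d02d02d02d02d02d02d00f20f20f60f62d02d02d02d02d02d02d02d02d02d00f20f20f60f60f62d02d02d02d02d02d02d02d02d00f20f20f60f60f60f62d02d02d02d02d02d02d02d00f20f20f60f60f60f60f62d02d02d02d02d02d02d00f20f20f60f60f60f60f60f62d02d02d02d02d02d00620ee0fa0e80f20f20e80fa0f62d02d02d02d02d00f00ee0f20f20f20f20f20f20ee0f62d02d02d02d00f01560ee1241a21a21241241560c81522d02d02d012011812412412e12e12411c1181201521522d02d00f10f10f30f50f50f50f50f30f10f11af1571242d00bd1270bf0770f50f50770bf0f10f117b1230f4124)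
    (nat_lit 4) (nat_lit 79)
    [[nat_lit 2,nat_lit 0x1002,nat_lit 0x100002,nat_lit 257,nat_lit 0x1101,nat_lit 0x100101,nat_lit 0x1000101,
    nat_lit 0x1001101,nat_lit 0x1100101,nat_lit 0x1001,nat_lit 0x2001,nat_lit 0x101001,nat_lit 0x1001001,
    nat_lit 0x10001,nat_lit 0x11001,nat_lit 0x110001,nat_lit 0x1010001,nat_lit 0x100001,nat_lit 0x200001,
    nat_lit 0x1100001,nat_lit 0x1000001,nat_lit 0x2000001],[nat_lit 32,nat_lit 272,nat_lit 0x1010,nat_lit 0x100010,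
    nat_lit 0x1000010],[nat_lit 512,nat_lit 0x1000200,nat_lit 0x1100,nat_lit 0x1001100,nat_lit 0x10100,
    nat_lit 0x100100,nat_lit 0x1100100,nat_lit 0x1000100,nat_lit 0x2000200,nat_lit 0x1010100,nat_lit 0x2000100],
    [nat_lit 0x2000,nat_lit 0x11000,nat_lit 0x101000,nat_lit 0x1001000],[nat_lit 0x20000,nat_lit 0x110000,
    nat_lit 0x1010000],[nat_lit 0x200000,nat_lit 0x1100000],[nat_lit 0x2000000]]
    [.c (nat_lit 1) (nat_lit 2),.r (nat_lit 0x1b5d) (nat_lit 13) [nat_lit 0x3021,nat_lit 0x202003,nat_lit 0x24003],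
    .r (nat_lit 0x1a62) (nat_lit 12) [nat_lit 0x202003,nat_lit 0x505063,nat_lit 0x220003],
    .r (nat_lit 0x1bec) (nat_lit 13) [nat_lit 0x202003,nat_lit 0x23063],
    .r (nat_lit 0x1adc) (nat_lit 4) [nat_lit 0x32003,nat_lit 0x330673,nat_lit 0x220003],
    .r (nat_lit 0x1b50) (nat_lit 0) [nat_lit 0x23003,nat_lit 0x330673,nat_lit 0x202003],
    .r (nat_lit 0x174d) (nat_lit 4) [nat_lit 0x330673,nat_lit 0x202003],.c (nat_lit 6) (nat_lit 0x33067),
    .c (nat_lit 4) (nat_lit 0x33067),.r (nat_lit 0) (nat_lit 5) [nat_lit 33,nat_lit 0x220003],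
    .r (nat_lit 0x1b5d) (nat_lit 13) [nat_lit 0x3022,nat_lit 0x202003,nat_lit 0x24003],
    .r (nat_lit 2) (nat_lit 1) [nat_lit 0x330673,nat_lit 0x202003],.r (nat_lit 32) (nat_lit 6) [nat_lit 0x330673,
    nat_lit 0x220003],.c (nat_lit 0) (nat_lit 0x2207),.r (nat_lit 0x1b5d) (nat_lit 13) [nat_lit 0x35063,
    nat_lit 0x202003,nat_lit 0x24003],.r (nat_lit 0x1a62) (nat_lit 12) [nat_lit 0x202003,nat_lit 0x533063,
    nat_lit 0x220003],.r (nat_lit 0x1bd6) (nat_lit 12) [nat_lit 0x202003,nat_lit 0x303063],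
    .r (nat_lit 10) (nat_lit 6) [nat_lit 0x202003,nat_lit 0x23063],.r (nat_lit 0x1a62) (nat_lit 12) [nat_lit 0x202003,
    nat_lit 0x903066,nat_lit 0x220003],.r (nat_lit 0x174e) (nat_lit 13) [nat_lit 0x330673,nat_lit 0x220003],
    .r (nat_lit 0x1b04) (nat_lit 4) [nat_lit 33,nat_lit 0x220003],.r (nat_lit 0x1bd6) (nat_lit 12) [nat_lit 0x202003,
    nat_lit 0x543066],.c (nat_lit 2) (nat_lit 2),.r (nat_lit 0x1b3b) (nat_lit 4) [nat_lit 0x32003,nat_lit 0x330063,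
    nat_lit 0x220003],.r (nat_lit 0x1b5d) (nat_lit 13) [nat_lit 0x303063,nat_lit 0x202003,nat_lit 0x24003],
    .r (nat_lit 0x1a62) (nat_lit 12) [nat_lit 0x202003,nat_lit 0x300021,nat_lit 0x220003],
    .r (nat_lit 0x1bd6) (nat_lit 12) [nat_lit 0x202003,nat_lit 0x520063],.c (nat_lit 3) (nat_lit 2),
    .r (nat_lit 0x1bdf) (nat_lit 10) [nat_lit 0x202003,nat_lit 0x202763],
    .r (nat_lit 0x174f) (nat_lit 13) [nat_lit 0x220003,nat_lit 33],.r (nat_lit 4) (nat_lit 2) [nat_lit 0x303673,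
    nat_lit 0x202003],.r (nat_lit 0x1bec) (nat_lit 13) [nat_lit 0x202003,nat_lit 33],
    .r (nat_lit 0) (nat_lit 1) [nat_lit 0x220003,nat_lit 33],.r (nat_lit 32) (nat_lit 9) [nat_lit 0x330673,
    nat_lit 0x220003],.r (nat_lit 0x174f) (nat_lit 1) [nat_lit 33,nat_lit 0x202003],
    .r (nat_lit 2) (nat_lit 1) [nat_lit 34,nat_lit 0x202003],.r (nat_lit 0x174d) (nat_lit 4) [nat_lit 0x303673,
    nat_lit 0x202003],.r (nat_lit 0x1bdf) (nat_lit 1) [nat_lit 0x202003,nat_lit 0x202763],.c (nat_lit 4) (nat_lit 2),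
    .r (nat_lit 0) (nat_lit 5) [nat_lit 0x32063,nat_lit 0x220003],.r (nat_lit 0x1750) (nat_lit 4) [nat_lit 0x202003,
    nat_lit 33],.r (nat_lit 0x1b04) (nat_lit 12) [nat_lit 0x202003,nat_lit 33],.c (nat_lit 5) (nat_lit 2),
    .r (nat_lit 10) (nat_lit 6) [nat_lit 0x202003,nat_lit 33],.r (nat_lit 0x1b04) (nat_lit 4) [nat_lit 0x32063,
    nat_lit 0x220003],.c (nat_lit 6) (nat_lit 2),.r (nat_lit 0x1b04) (nat_lit 11) [nat_lit 33,nat_lit 0x220003],
    .c (nat_lit 7) (nat_lit 2)]]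

/-- nodes -/
noncomputable def rD7k_22_2 : List RJ :=
  [.l (nat_lit 11) (nat_lit 480) (nat_lit 4) (nat_lit 0xc5000000c5000000cd000000cf000000c1000000c1000000c7000000c7000000bb000000d9000000f0000000f0000000d9000000b9) (nat_lit 0x2b0000002b00000021000000230000002f0000002f0000002900000029000000170000003500000000000000000000003700000017)
    (nat_lit 0x1402685b0aa1702e04f09c0c02405b8b311c1d0530a01482884b0961482983709018a314430821442a85609e128278520a416c2407c90d1202d8520b615c2b0510a014c2985509a1a639c3b06012c2e05009e1242484c0961242308c8cf0f02984b0b8144250490921242606408622231c450cc14c270530a41302585209e154260528a90dc1805209e14c2904909813c2905809214e28c480ac1202404d09010c230490981902185f8bb104310370601542d8640921602a8670c818a3645a0e218a2cc7390d18e33c518a91b22ec680e420e3b4628b71a63e48891914e294628bf1a8340798d91041d0300b6198298560601c43106c8ed1603784308e0ec240450781201b85a0821e641c410b0)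
    (nat_lit 0x140780f01e03c0780f01e03c0780f01e03c07804d0a03c0780f01e03c0780f01e03c0780f01e016c290561e03c0780f01e03c0780f01e03c0780550a213c2b0f01e03c0780f01e03c0780f01e01702584a0a2124780f01e03c0780f01e03c07805c09613c280490923c0780f01e03c0780f01e013c290520a6130248521e03c0780f01e03c07804e0a61482984b09813c290f01e03c0780f01e00c01b85b0aa124320550b0190780f01e03c07804809012026846086130248430c83c0780f01e016e3147c8d3232444528a717e314681e03c0780598c521a39c678c715228c5d8d91c8340f01e011c218480760f0228370901042d0838f31607803a08216c180530cc0c02b0620e21da3646f0b0)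
    (nat_lit 4) (nat_lit 79)
    [[nat_lit 2,nat_lit 0x1002,nat_lit 0x100002,nat_lit 0x1000002,nat_lit 257,nat_lit 0x1101,nat_lit 0x100101,
    nat_lit 0x1000101,nat_lit 0x1001,nat_lit 0x2001,nat_lit 0x11001,nat_lit 0x101001,nat_lit 0x1001001,
    nat_lit 0x10001,nat_lit 0x20001,nat_lit 0x110001,nat_lit 0x1010001,nat_lit 0x100001,nat_lit 0x200001,
    nat_lit 0x1100001,nat_lit 0x1000001,nat_lit 0x2000001,nat_lit 0x1001101,nat_lit 0x1100101],[nat_lit 32,
    nat_lit 272,nat_lit 0x1010,nat_lit 0x1000010],[nat_lit 512,nat_lit 0x1000200,nat_lit 0x1100,nat_lit 0x11100,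
    nat_lit 0x1001100,nat_lit 0x10100,nat_lit 0x20100,nat_lit 0x110100,nat_lit 0x1010100,nat_lit 0x100100,
    nat_lit 0x1100100,nat_lit 0x1000100,nat_lit 0x2000100],[nat_lit 0x2000,nat_lit 0x12000,nat_lit 0x11000,
    nat_lit 0x21000,nat_lit 0x111000,nat_lit 0x1011000,nat_lit 0x101000,nat_lit 0x1001000],[nat_lit 0x20000,
    nat_lit 0x30000,nat_lit 0x120000,nat_lit 0x110000,nat_lit 0x1010000,nat_lit 0x2010000],[nat_lit 0x200000,
    nat_lit 0x1100000],[nat_lit 0x2000000]]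
    [.c (nat_lit 1) (nat_lit 2),.c (nat_lit 6) (nat_lit 0x33223),.c (nat_lit 4) (nat_lit 0x33223),
    .r (nat_lit 0x1bd6) (nat_lit 12) [nat_lit 0x22001,nat_lit 0x35021],
    .r (nat_lit 0x1bec) (nat_lit 13) [nat_lit 0x22001,nat_lit 0x3021],.r (nat_lit 0x1adc) (nat_lit 4) [nat_lit 0x2001,
    nat_lit 0x30231,nat_lit 0x20001],.r (nat_lit 0x1b50) (nat_lit 0) [nat_lit 0x3001,nat_lit 0x30231,nat_lit 0x22001],
    .c (nat_lit 1) (nat_lit 0x30202),.r (nat_lit 4) (nat_lit 2) [nat_lit 0x330231,nat_lit 0x22001],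
    .r (nat_lit 0x1ad7) (nat_lit 3) [nat_lit 0x33021,nat_lit 0x20001,nat_lit 0x22001,nat_lit 0x5b3431],
    .c (nat_lit 6) (nat_lit 0x33023),.c (nat_lit 1) (nat_lit 0x33223),.r (nat_lit 32) (nat_lit 6) [nat_lit 0x30231,
    nat_lit 0x20001],.c (nat_lit 1) (nat_lit 514),.r (nat_lit 0x1bf7) (nat_lit 4) [nat_lit 0x4021,nat_lit 0x3021,
    nat_lit 0x62031],.c (nat_lit 4) (nat_lit 0x33023),.r (nat_lit 0x1bd6) (nat_lit 12) [nat_lit 0x22001,
    nat_lit 0x33021],.r (nat_lit 32) (nat_lit 9) [nat_lit 0x332231,nat_lit 0x20001],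
    .r (nat_lit 0x1b84) (nat_lit 12) [nat_lit 0x22001,nat_lit 0x33021,nat_lit 0x20001],
    .r (nat_lit 0x174e) (nat_lit 13) [nat_lit 0x30231,nat_lit 0x20001],.r (nat_lit 0x1b04) (nat_lit 4) [nat_lit 33,
    nat_lit 0x20001],.r (nat_lit 0x1ad8) (nat_lit 12) [nat_lit 0x22001,nat_lit 0x33021,nat_lit 0x20001],
    .c (nat_lit 6) (nat_lit 0x3023),.c (nat_lit 4) (nat_lit 0x3023),.c (nat_lit 2) (nat_lit 2),
    .c (nat_lit 0) (nat_lit 0x22003),.r (nat_lit 0x1b31) (nat_lit 0) [nat_lit 0x3001,nat_lit 0x33021,nat_lit 0x22001],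
    .c (nat_lit 0) (nat_lit 0x22003),.c (nat_lit 3) (nat_lit 2),.r (nat_lit 0x1bec) (nat_lit 13) [nat_lit 0x22001,
    nat_lit 0x300021],.r (nat_lit 0x174f) (nat_lit 13) [nat_lit 0x20001,nat_lit 33],
    .r (nat_lit 0x1adc) (nat_lit 4) [nat_lit 0x2001,nat_lit 0x33231,nat_lit 0x20001],
    .r (nat_lit 4) (nat_lit 2) [nat_lit 0x33231,nat_lit 0x22001],.r (nat_lit 0x1bec) (nat_lit 13) [nat_lit 0x22001,
    nat_lit 33],.r (nat_lit 0x1b85) (nat_lit 0) [nat_lit 0x3001,nat_lit 0x4021,nat_lit 0x22001],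
    .r (nat_lit 0x1b50) (nat_lit 0) [nat_lit 0x3001,nat_lit 0x33231,nat_lit 0x22001],.c (nat_lit 1) (nat_lit 0x30402),
    .r (nat_lit 0) (nat_lit 1) [nat_lit 0x20001,nat_lit 33],.r (nat_lit 32) (nat_lit 9) [nat_lit 0x30231,
    nat_lit 0x20001],.c (nat_lit 0) (nat_lit 0x20303),.r (nat_lit 0x1b04) (nat_lit 4) [nat_lit 0x302021,
    nat_lit 0x20001],.c (nat_lit 4) (nat_lit 2),.r (nat_lit 0x1ad7) (nat_lit 3) [nat_lit 0x30021,nat_lit 0x20001,
    nat_lit 0x22001,nat_lit 0x5b5431],.r (nat_lit 4) (nat_lit 2) [nat_lit 0x333231,nat_lit 0x22001],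
    .c (nat_lit 6) (nat_lit 0x33323),.c (nat_lit 1) (nat_lit 0x33023),.r (nat_lit 32) (nat_lit 6) [nat_lit 0x33231,
    nat_lit 0x20001],.r (nat_lit 0x1750) (nat_lit 4) [nat_lit 0x22001,nat_lit 33],
    .r (nat_lit 0x1b04) (nat_lit 12) [nat_lit 0x22001,nat_lit 33],.c (nat_lit 5) (nat_lit 2),
    .r (nat_lit 0x1bf7) (nat_lit 4) [nat_lit 0x6021,nat_lit 33,nat_lit 0x60031],.c (nat_lit 4) (nat_lit 0x33323),
    .r (nat_lit 32) (nat_lit 9) [nat_lit 0x330231,nat_lit 0x20001],.r (nat_lit 0x1b04) (nat_lit 4) [nat_lit 0x2021,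
    nat_lit 0x20001],.r (nat_lit 0x1ad8) (nat_lit 12) [nat_lit 0x22001,nat_lit 0x30021,nat_lit 0x20001],
    .c (nat_lit 6) (nat_lit 2),.r (nat_lit 0x1b04) (nat_lit 11) [nat_lit 33,nat_lit 0x20001],
    .c (nat_lit 7) (nat_lit 2)],
    .l (nat_lit 13) (nat_lit 0x780) (nat_lit 3) (nat_lit 0x2cd00000361000003ae000003ae00000373000002c50000031700000317000003170000031700000365000002cd000002c10000036d) (nat_lit 0x4d000000e10000000000000000000000e90000003b00000097000000970000009700000097000000e10000004900000041000000ed)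
    (nat_lit 0x14007b083e3b80f20b7446c23611908883d827014607806282801e40d8451032613a8b684442ca140078046a1e01b08ee075c3ae15a8c3062e3072278db06c240d1b68b0479041f1d70eb84f437313a88c88283311b9907c6441e01930b746e630c1b78ce05843271110df86e622d0f007805101e413d0ad43c036f12108b845421e0f209a05081e016d08d84643071170c9c52027c14a09b045c2d216b08a84ea23613a8c5c4842c21400a4050828011b0b385d422a165088866236c10f0df850026c1400a0046c2ca16b08a844423220a113c4542221420a5050028011b0b385d422a0f009c083e40d13408b459c2d21670b2850831c19409e05001ec1b98d843c837311b08b846c2360f00a105181e00f007803c02c10f0078045422a11508a83c0278140078046a28c1910db45081e01750b585d42d61460ca0658280)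
    (nat_lit 0x1401e00f007803c01e00f007803c01e00f007803c01e003d82803c01e00f007803c01e00f007803c01e00f0078020f8f2075c7803c01e00f007803c01e00f007803c01e007703611d70eb8f007803c01e00f007803c01e00f007800f20a2056a27a1b79e00f007803c01e00f007803c01e005ba3261860dcc67036f3c01e00f007803c01e00f0078011b09d462e27516109085207803c01e00f007803c01e0046c2da18388c864e22e13e0a40f007803c01e00f00780119088889e41411108a85282841401e00f007803c01e004442ca1b60cc46fc21e1360a005002803c01e00f007800f60a006c23731b9879045c23611b08d85087803c01e004e01e0206907c45a2681690b385942ce18e0a10f0078014608d46da3220f00a105ac2ea16b0ba865028c1401e003c01e016087803c01e011508a845422a13c07803c0280)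
    (nat_lit 4) (nat_lit 61)
    [[nat_lit 2,nat_lit 0x10002,nat_lit 0x1000002,nat_lit 17,nat_lit 0x10011,nat_lit 0x1000011,nat_lit 257,
    nat_lit 0x10101,nat_lit 0x1000101,nat_lit 0x1001,nat_lit 0x11001,nat_lit 0x1001001,nat_lit 0x10001,
    nat_lit 0x20001,nat_lit 0x110001,nat_lit 0x1010001,nat_lit 0x100001,nat_lit 0x1000001,nat_lit 0x2000001],
    [nat_lit 32,nat_lit 0x10020,nat_lit 0x1000020,nat_lit 288,nat_lit 272,nat_lit 0x10110,nat_lit 0x1000110,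
    nat_lit 0x1110,nat_lit 0x1010,nat_lit 0x11010,nat_lit 0x1001010,nat_lit 0x10010,nat_lit 0x1010010,
    nat_lit 0x1000010,nat_lit 0x2000010],[nat_lit 512,nat_lit 0x1200,nat_lit 0x10200,nat_lit 0x1000200,nat_lit 0x1100,
    nat_lit 0x11100,nat_lit 0x1001100,nat_lit 0x10100,nat_lit 0x1010100,nat_lit 0x1000100,nat_lit 0x2000100],
    [nat_lit 0x2000,nat_lit 0x1002000,nat_lit 0x11000,nat_lit 0x101000,nat_lit 0x1001000,nat_lit 0x2001000],
    [nat_lit 0x20000,nat_lit 0x110000,nat_lit 0x1010000],[nat_lit 0x200000],[nat_lit 0x2000000]]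
    [.c (nat_lit 1) (nat_lit 2),.r (nat_lit 0x1bdf) (nat_lit 12) [nat_lit 0x200001,nat_lit 0x200321],
    .r (nat_lit 0x117c) (nat_lit 9) [nat_lit 0x5040021,nat_lit 0x4555451,nat_lit 0x400001,nat_lit 33],
    .c (nat_lit 0) (nat_lit 0x277269),.r (nat_lit 32) (nat_lit 5) [nat_lit 0x330231,nat_lit 0x220001],
    .r (nat_lit 0x174e) (nat_lit 8) [nat_lit 0x330231,nat_lit 0x220001],.c (nat_lit 0) (nat_lit 0x272769),
    .r (nat_lit 32) (nat_lit 5) [nat_lit 0x303231,nat_lit 0x220001],.r (nat_lit 0x174e) (nat_lit 8) [nat_lit 0x303231,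
    nat_lit 0x220001],.c (nat_lit 0) (nat_lit 0x233323),.r (nat_lit 32) (nat_lit 13) [nat_lit 0x303231,
    nat_lit 0x202001],.r (nat_lit 32) (nat_lit 10) [nat_lit 0x330231,nat_lit 0x220001],
    .r (nat_lit 0) (nat_lit 8) [nat_lit 33,nat_lit 0x202001],.r (nat_lit 0x1bdf) (nat_lit 6) [nat_lit 0x200001,
    nat_lit 0x200321],.r (nat_lit 0x1bf8) (nat_lit 2) [nat_lit 0x30001,nat_lit 0x220001,nat_lit 0x330021],
    .r (nat_lit 32) (nat_lit 5) [nat_lit 0x333231,nat_lit 0x220001],.r (nat_lit 32) (nat_lit 10) [nat_lit 0x3302021,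
    nat_lit 0x220001],.c (nat_lit 0) (nat_lit 0x277769),.r (nat_lit 0x174e) (nat_lit 8) [nat_lit 0x333231,
    nat_lit 0x220001],.c (nat_lit 2) (nat_lit 2),.c (nat_lit 1) (nat_lit 0x200502),
    .r (nat_lit 0x1a62) (nat_lit 1) [nat_lit 0x200001,nat_lit 0x503021,nat_lit 0x220001],
    .r (nat_lit 0x1a62) (nat_lit 1) [nat_lit 0x200001,nat_lit 0x533021,nat_lit 0x220001],
    .c (nat_lit 2) (nat_lit 0x3202),.c (nat_lit 1) (nat_lit 0x203302),
    .r (nat_lit 0x1a62) (nat_lit 1) [nat_lit 0x200001,nat_lit 0x530021,nat_lit 0x220001],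
    .r (nat_lit 32) (nat_lit 10) [nat_lit 0x3304232,nat_lit 0x220001],.r (nat_lit 0) (nat_lit 4) [nat_lit 0x220001,
    nat_lit 0x3021],.r (nat_lit 0x174e) (nat_lit 5) [nat_lit 0x330231,nat_lit 0x202001],
    .r (nat_lit 32) (nat_lit 10) [nat_lit 0x3334232,nat_lit 0x220001],.c (nat_lit 0) (nat_lit 0x333225),
    .c (nat_lit 1) (nat_lit 0x200302),.c (nat_lit 2) (nat_lit 514),.r (nat_lit 0x1a62) (nat_lit 1) [nat_lit 0x200001,
    nat_lit 0x500021,nat_lit 0x220001],.c (nat_lit 3) (nat_lit 2),.r (nat_lit 32) (nat_lit 10) [nat_lit 0x3322232,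
    nat_lit 0x220001],.c (nat_lit 1) (nat_lit 0x205002),.r (nat_lit 0x1a62) (nat_lit 1) [nat_lit 0x200001,
    nat_lit 0x552021,nat_lit 0x220001],.r (nat_lit 0) (nat_lit 4) [nat_lit 0x220001,nat_lit 0x30021],
    .r (nat_lit 0x174e) (nat_lit 5) [nat_lit 0x303231,nat_lit 0x202001],
    .r (nat_lit 32) (nat_lit 10) [nat_lit 0x3302232,nat_lit 0x220001],.c (nat_lit 0) (nat_lit 0x332325),
    .c (nat_lit 1) (nat_lit 0x203002),.c (nat_lit 2) (nat_lit 0x3402),
    .r (nat_lit 0x1a62) (nat_lit 1) [nat_lit 0x200001,nat_lit 0x532021,nat_lit 0x220001],.c (nat_lit 4) (nat_lit 2),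
    .r (nat_lit 0x1b58) (nat_lit 7) [nat_lit 0x300021,nat_lit 0x220001,nat_lit 0x202001],
    .r (nat_lit 0x174f) (nat_lit 8) [nat_lit 0x220001,nat_lit 33],.r (nat_lit 0x117c) (nat_lit 9) [nat_lit 0x3023231,
    nat_lit 0x500041,nat_lit 0x400001,nat_lit 0x2033231],.r (nat_lit 0) (nat_lit 4) [nat_lit 0x220001,nat_lit 33],
    .r (nat_lit 32) (nat_lit 10) [nat_lit 0x3332232,nat_lit 0x220001],.c (nat_lit 5) (nat_lit 2),
    .r (nat_lit 0x1b3b) (nat_lit 6) [nat_lit 0x303021,nat_lit 0x3001,nat_lit 0x202001],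
    .c (nat_lit 0) (nat_lit 0x333325),.c (nat_lit 6) (nat_lit 2),.c (nat_lit 7) (nat_lit 2)]]

/-- nodes -/
noncomputable def rD7k_22_3 : List RJ :=
  [.l (nat_lit 12) (nat_lit 960) (nat_lit 3) (nat_lit 0x18b0000018b000001ab0000016700000189000001890000015f000001b700000167000001a9000001d2000001d2000001bb0000015b) (nat_lit 0x47000000470000006b0000002700000049000000490000001b00000073000000290000006b00000000000000000000007700000017)
    (nat_lit 0x16413812016413a14217011813c1401a319111417414416411c16414614217011818812022f21d1141941641641401841621661901340f014018b1851140f011c1200fc14011e11e14c0f013e0fc1531750f015014214211e16614414016e11615211e18918911218614613a11e16213c14416e11614a11e18913b1121821181180f01341161161440f01840f414f1750f014817017014c19016e16e19c14414014c1971691200f01201400fc14011e11e14c0f418c0fc2171b50f017018813c13e0f014a15214018418018c20b1a912c1a421d19117518513b1891691751a91b51c01d218115922f1a315318b18918919714f20b2171d21c015b1bb1941741500f01821860f01481a41701bb15912c1a41141140f01141121121200f012c0f015b1810f012c)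
    (nat_lit 0x1643c03c03c03c03c03c03c03c03c03c03c03c03c01381643c03c03c03c03c03c03c03c03c03c03c03c012011c1403c03c03c03c03c03c03c03c03c03c03c01641641841403c03c03c03c03c03c03c03c03c03c013a14616211e1443c03c03c03c03c03c03c03c03c014214216611e1401443c03c03c03c03c03c03c03c017017019014c16e16e1443c03c03c03c03c03c03c01181181340f01161160f01443c03c03c03c03c03c013c1880f013e15214a18414018c3c03c03c03c03c01401201400fc11e11e0f414c0fc18c3c03c03c03c01a322f18b15318918914f19721720b1c03c03c03c019121d18517518913b1751691b51a91d21c03c03c01141141140f01121120f01200f012c18115b12c3c01741940f01501861821480f01701a41591bb1a412c)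
    (nat_lit 5) (nat_lit 79)
    [[nat_lit 2,nat_lit 3,nat_lit 0x1002,nat_lit 0x100002,nat_lit 0x1000002,nat_lit 17,nat_lit 257,nat_lit 0x1101,
    nat_lit 0x100101,nat_lit 0x1001,nat_lit 0x2001,nat_lit 0x101001,nat_lit 0x11001,nat_lit 0x1001001,nat_lit 0x10001,
    nat_lit 0x110001,nat_lit 0x100001,nat_lit 0x200001,nat_lit 0x1100001,nat_lit 0x1000001],[nat_lit 32,
    nat_lit 0x1010,nat_lit 0x10010,nat_lit 0x100010],[nat_lit 512,nat_lit 0x100200,nat_lit 0x10200,nat_lit 0x1100,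
    nat_lit 0x2100,nat_lit 0x11100,nat_lit 0x101100,nat_lit 0x1001100,nat_lit 0x10100,nat_lit 0x20100,
    nat_lit 0x110100,nat_lit 0x1010100,nat_lit 0x100100,nat_lit 0x200100,nat_lit 0x1100100,nat_lit 0x1000100],
    [nat_lit 0x2000,nat_lit 0x11000,nat_lit 0x101000,nat_lit 0x1001000],[nat_lit 0x20000,nat_lit 0x110000,
    nat_lit 0x1010000,nat_lit 0x1110000],[nat_lit 0x200000,nat_lit 0x1100000,nat_lit 0x2100000],[nat_lit 0x2000000]]
    [.c (nat_lit 1) (nat_lit 2),.r (nat_lit 0x1b04) (nat_lit 8) [nat_lit 0x4010001,nat_lit 0x80700082],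
    .r (nat_lit 0x1b04) (nat_lit 8) [nat_lit 0x4010001,nat_lit 0x300041],
    .r (nat_lit 0x174d) (nat_lit 13) [nat_lit 0xca2290a2,nat_lit 0x4010001],.c (nat_lit 2) (nat_lit 0x410003),
    .c (nat_lit 0) (nat_lit 0x210003),.r (nat_lit 0x1b04) (nat_lit 8) [nat_lit 0x4010001,nat_lit 0x80328082],
    .c (nat_lit 2) (nat_lit 0x4811005),.r (nat_lit 8) (nat_lit 13) [nat_lit 0x6000861,nat_lit 0x4000001],
    .c (nat_lit 1) (nat_lit 0x6010004),.r (nat_lit 0x1b04) (nat_lit 8) [nat_lit 0x4010001,nat_lit 0xc0300082],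
    .r (nat_lit 0x174d) (nat_lit 13) [nat_lit 0x6018861,nat_lit 0x4010001],
    .r (nat_lit 4) (nat_lit 12) [nat_lit 0x6018861,nat_lit 0x4010001],.c (nat_lit 2) (nat_lit 0x4810005),
    .r (nat_lit 0x1750) (nat_lit 3) [nat_lit 0x80300082,nat_lit 0x4000001],
    .r (nat_lit 0x1b51) (nat_lit 10) [nat_lit 0x6000861,nat_lit 0x8010c41,nat_lit 0x6018861],
    .r (nat_lit 0x1bec) (nat_lit 8) [nat_lit 0x4010001,nat_lit 0x80300082],
    .r (nat_lit 0x17c0) (nat_lit 5) [nat_lit 0xc8321502,nat_lit 0xa8242482,nat_lit 0xd234a0a2,nat_lit 0x8a229061],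
    .r (nat_lit 8) (nat_lit 13) [nat_lit 0x6018861,nat_lit 0x4000001],
    .r (nat_lit 0x1b04) (nat_lit 8) [nat_lit 0x4010001,nat_lit 0x80300082],.c (nat_lit 2) (nat_lit 2),
    .c (nat_lit 0) (nat_lit 0x4200005),.r (nat_lit 0x1b3a) (nat_lit 10) [nat_lit 0x4010061,nat_lit 0x4000061,
    nat_lit 65],.r (nat_lit 0x1bf8) (nat_lit 10) [nat_lit 0x4010061,nat_lit 65,nat_lit 0x882000a2],
    .c (nat_lit 3) (nat_lit 2),.c (nat_lit 5) (nat_lit 0x6519085),.c (nat_lit 6) (nat_lit 0x6519085),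
    .r (nat_lit 0x1b04) (nat_lit 8) [nat_lit 0x4010001,nat_lit 0x18041],.c (nat_lit 2) (nat_lit 0x4400803),
    .r (nat_lit 0x1b63) (nat_lit 4) [nat_lit 0x10001,nat_lit 0x8a3010a2,nat_lit 0x200001,nat_lit 0x4000001],
    .r (nat_lit 8) (nat_lit 13) [nat_lit 0x8a3010a2,nat_lit 0x4000001],
    .r (nat_lit 0x1a9a) (nat_lit 8) [nat_lit 0x4010001,nat_lit 0xa018041,nat_lit 0x4000001],
    .r (nat_lit 4) (nat_lit 12) [nat_lit 0xca3010a2,nat_lit 0x4010001],
    .r (nat_lit 8) (nat_lit 13) [nat_lit 0x80018042,nat_lit 0x4000001],.c (nat_lit 2) (nat_lit 0x48100a4),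
    .c (nat_lit 6) (nat_lit 0x6518085),.r (nat_lit 0x174d) (nat_lit 13) [nat_lit 0xca3010a2,nat_lit 0x4010001],
    .r (nat_lit 0x1b63) (nat_lit 4) [nat_lit 0x10001,nat_lit 0x80018042,nat_lit 0x200001,nat_lit 0x4000001],
    .c (nat_lit 5) (nat_lit 0x6518085),.c (nat_lit 2) (nat_lit 0x400803),.c (nat_lit 4) (nat_lit 2),
    .r (nat_lit 0x1750) (nat_lit 3) [nat_lit 65,nat_lit 0x4000001],.r (nat_lit 0x1bec) (nat_lit 8) [nat_lit 0x4010001,
    nat_lit 65],.r (nat_lit 0x1b04) (nat_lit 8) [nat_lit 0x4010001,nat_lit 65],.c (nat_lit 5) (nat_lit 2),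
    .r (nat_lit 10) (nat_lit 13) [nat_lit 65,nat_lit 0x4010001],.r (nat_lit 4) (nat_lit 12) [nat_lit 0xca3290a2,
    nat_lit 0x4010001],.c (nat_lit 2) (nat_lit 0x48110a4),.c (nat_lit 6) (nat_lit 2),
    .r (nat_lit 0x174d) (nat_lit 13) [nat_lit 0xca3290a2,nat_lit 0x4010001],.c (nat_lit 5) (nat_lit 0x6519485),
    .c (nat_lit 7) (nat_lit 2)],
    .l (nat_lit 12) (nat_lit 960) (nat_lit 4) (nat_lit 0x18b0000018b0000018b0000018b0000018f0000018f0000016f000001930000019900000199000001cc000001cc0000016700000167) (nat_lit 0x410000004100000041000000410000003d0000003d000000390000005d000000330000003300000000000000000000006500000065)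
    (nat_lit 0x17c0fa14a13016014e18a14014a1581a91e11260b814a17c14a14a14e10414011217814e1df21714012e14a13019414a16a14e15c12e0cc16a18316b0f40d214a14a18a19414414e15212415816012518b12611410414e14e14e15c11214e13c15c15c1a118f12a19014e16014416a15215c17c13215c15218f18f11819611214012412e13213c14011213c11610316f0f810a14018a15215c17c14e16e14013216016117d12e0a014e15816016a15215c16011617c1522271c70fc16617814a1580cc15c15c13213c16617c1f91990de1902171e118b16b18f18f17d16f1991c71701cc1751071df1a912518318f1a11611031f92271cc1701d516712e0b81140d21961900a010a1901661671070e41021401261260f411812a12e0f80de0fc1d51751520e4)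
    (nat_lit 0x17c3c03c03c03c03c03c03c03c03c03c03c03c03c00fa17c3c03c03c03c03c03c03c03c03c03c03c03c014a14a1943c03c03c03c03c03c03c03c03c03c03c013014a14a1943c03c03c03c03c03c03c03c03c03c016014e16a14415c3c03c03c03c03c03c03c03c03c014e10414e14e11215c3c03c03c03c03c03c03c03c018a14015c15214e17c1403c03c03c03c03c03c03c014011212e12413c1321121403c03c03c03c03c03c014a1780cc15815c15c13c13217c3c03c03c03c03c015814e16a16015c15211616015217c3c03c03c03c01a91df1831251a118f1031612271f11703c03c03c01e121716b18b18f18f16f17d1c71991cc1703c03c01261400f412612a1180f812e0fc0de1751d50e43c00b812e0d211419019610a0a01661901071671020e4)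
    (nat_lit 5) (nat_lit 107)
    [[nat_lit 2,nat_lit 3,nat_lit 4,nat_lit 0x1003,nat_lit 258,nat_lit 0x1102,nat_lit 0x1002,nat_lit 0x2002,
    nat_lit 0x10002,nat_lit 0x1010002,nat_lit 0x100002,nat_lit 0x101002,nat_lit 0x1000002,nat_lit 0x1001002,
    nat_lit 17,nat_lit 0x1011,nat_lit 0x100011,nat_lit 257,nat_lit 0x1101,nat_lit 0x100101,nat_lit 0x101101,
    nat_lit 0x1000101,nat_lit 0x1001,nat_lit 0x2001,nat_lit 0x101001,nat_lit 0x1001001,nat_lit 0x10001,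
    nat_lit 0x11001,nat_lit 0x110001,nat_lit 0x1010001,nat_lit 0x100001,nat_lit 0x200001,nat_lit 0x1100001,
    nat_lit 0x1000001,nat_lit 0x2000001],[nat_lit 32,nat_lit 0x1010,nat_lit 0x10010,nat_lit 0x100010,
    nat_lit 0x100110],[nat_lit 512,nat_lit 0x100200,nat_lit 0x1100,nat_lit 0x2100,nat_lit 0x1001100,nat_lit 0x10100,
    nat_lit 0x1010100,nat_lit 0x100100,nat_lit 0x101100,nat_lit 0x110100,nat_lit 0x1100100,nat_lit 0x1000100],
    [nat_lit 0x2000,nat_lit 0x11000,nat_lit 0x101000,nat_lit 0x1101000,nat_lit 0x1001000,nat_lit 0x2001000],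
    [nat_lit 0x20000,nat_lit 0x1020000,nat_lit 0x110000,nat_lit 0x1110000,nat_lit 0x1010000,nat_lit 0x2010000],
    [nat_lit 0x200000,nat_lit 0x1100000,nat_lit 0x2100000],[nat_lit 0x2000000]]
    [.c (nat_lit 1) (nat_lit 2),.r (nat_lit 0x1a91) (nat_lit 4) [nat_lit 0x300041,nat_lit 0x4010001],
    .c (nat_lit 2) (nat_lit 0x420003),.r (nat_lit 4) (nat_lit 3) [nat_lit 0x6218861,nat_lit 0x4010001],
    .c (nat_lit 2) (nat_lit 0x410803),.r (nat_lit 0x1a9a) (nat_lit 8) [nat_lit 0x4010001,nat_lit 0xa318041,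
    nat_lit 0x4000001],.r (nat_lit 0x1b04) (nat_lit 8) [nat_lit 0x4010001,nat_lit 0x300041],
    .r (nat_lit 2) (nat_lit 4) [nat_lit 66,nat_lit 0x4010001],.r (nat_lit 0x1750) (nat_lit 13) [nat_lit 0x4010001,
    nat_lit 0x300041],.r (nat_lit 0x1b6a) (nat_lit 9) [nat_lit 0x18001,nat_lit 0x4010001,nat_lit 0x320041],
    .r (nat_lit 10) (nat_lit 5) [nat_lit 0x4010001,nat_lit 0x300041],
    .r (nat_lit 0x1bd6) (nat_lit 8) [nat_lit 0x4010001,nat_lit 0x6300041],.c (nat_lit 2) (nat_lit 0x410003),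
    .r (nat_lit 0x1a9a) (nat_lit 8) [nat_lit 0x4010001,nat_lit 0xa300041,nat_lit 0x4000001],
    .c (nat_lit 0) (nat_lit 0x210003),.r (nat_lit 0x1bfa) (nat_lit 4) [nat_lit 0x10001,nat_lit 0x200001,
    nat_lit 0x4000001,nat_lit 0xa300081],.r (nat_lit 0x1bd6) (nat_lit 9) [nat_lit 0x4010001,nat_lit 0x6018041],
    .r (nat_lit 0x1a91) (nat_lit 4) [nat_lit 0x18041,nat_lit 0x4010001],.r (nat_lit 4) (nat_lit 3) [nat_lit 0x6000861,
    nat_lit 0x4010001],.r (nat_lit 8) (nat_lit 13) [nat_lit 0x6000861,nat_lit 0x4000001],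
    .c (nat_lit 5) (nat_lit 0x300043),.r (nat_lit 0x14a1) (nat_lit 12) [nat_lit 0x142200a1,nat_lit 0x330081,
    nat_lit 0x1632a8e1,nat_lit 0x328081],.r (nat_lit 0x174f) (nat_lit 4) [nat_lit 65,nat_lit 0x4010001],
    .r (nat_lit 0x1bdf) (nat_lit 7) [nat_lit 0x4010001,nat_lit 0x4010c41],
    .r (nat_lit 0x174d) (nat_lit 13) [nat_lit 0x6018861,nat_lit 0x4010001],
    .r (nat_lit 4) (nat_lit 3) [nat_lit 0x6018861,nat_lit 0x4010001],
    .r (nat_lit 0x1b04) (nat_lit 9) [nat_lit 0x4010001,nat_lit 65],.r (nat_lit 4) (nat_lit 12) [nat_lit 0x6018861,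
    nat_lit 0x4010001],.r (nat_lit 0x1b51) (nat_lit 10) [nat_lit 0x6000861,nat_lit 0x8010c41,nat_lit 0x6018861],
    .r (nat_lit 0x1b63) (nat_lit 4) [nat_lit 0x10001,nat_lit 0x6018861,nat_lit 0x200001,nat_lit 0x4000001],
    .r (nat_lit 0x1bec) (nat_lit 9) [nat_lit 0x4010001,nat_lit 65],.r (nat_lit 0x1b62) (nat_lit 5) [nat_lit 0x4310cc1,
    nat_lit 0xa429061,nat_lit 0x24242481,nat_lit 0x1234a0a1],.r (nat_lit 8) (nat_lit 13) [nat_lit 0x6018861,
    nat_lit 0x4000001],.r (nat_lit 0x1a91) (nat_lit 4) [nat_lit 65,nat_lit 0x4010001],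
    .r (nat_lit 0x14a1) (nat_lit 12) [nat_lit 0x142000a1,nat_lit 0x350081,nat_lit 0x1635a8e1,nat_lit 0x300081],
    .c (nat_lit 2) (nat_lit 2),.r (nat_lit 0x1b61) (nat_lit 7) [nat_lit 0x6000041,nat_lit 0x10001,nat_lit 0x4000001],
    .r (nat_lit 0x1b3a) (nat_lit 10) [nat_lit 0x4010061,nat_lit 0x4000061,nat_lit 65],
    .r (nat_lit 0x1b31) (nat_lit 5) [nat_lit 0x6018041,nat_lit 0x18001,nat_lit 0x4010001],
    .c (nat_lit 0) (nat_lit 0x300c02),.c (nat_lit 3) (nat_lit 2),.r (nat_lit 0x1b5d) (nat_lit 9) [nat_lit 0x18001,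
    nat_lit 0x4010001,nat_lit 65],.r (nat_lit 0x1b04) (nat_lit 8) [nat_lit 0x4010001,nat_lit 0x18041],
    .r (nat_lit 2) (nat_lit 4) [nat_lit 0x218042,nat_lit 0x4010001],
    .r (nat_lit 0x1a9a) (nat_lit 8) [nat_lit 0x4010001,nat_lit 0xa018041,nat_lit 0x4000001],
    .r (nat_lit 0x1750) (nat_lit 13) [nat_lit 0x4010001,nat_lit 0x18041],
    .r (nat_lit 0x1b6a) (nat_lit 9) [nat_lit 0x18001,nat_lit 0x4010001,nat_lit 0x10041],
    .r (nat_lit 10) (nat_lit 5) [nat_lit 0x4010001,nat_lit 0x18041],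
    .r (nat_lit 0x1bd6) (nat_lit 8) [nat_lit 0x4010001,nat_lit 0x6018041],
    .r (nat_lit 2) (nat_lit 4) [nat_lit 0x6000861,nat_lit 0x4010001],.r (nat_lit 0x1b5d) (nat_lit 9) [nat_lit 0x18001,
    nat_lit 0x4010001,nat_lit 0x10041],.c (nat_lit 2) (nat_lit 0x400803),.c (nat_lit 4) (nat_lit 2),
    .r (nat_lit 0x1750) (nat_lit 3) [nat_lit 65,nat_lit 0x4000001],.r (nat_lit 0x1bec) (nat_lit 8) [nat_lit 0x4010001,
    nat_lit 65],.r (nat_lit 0x1bd6) (nat_lit 8) [nat_lit 0x4010001,nat_lit 0x6000041],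
    .r (nat_lit 0x1b04) (nat_lit 8) [nat_lit 0x4010001,nat_lit 65],.r (nat_lit 0x1a9a) (nat_lit 8) [nat_lit 0x4010001,
    nat_lit 0xa000041,nat_lit 0x4000001],.c (nat_lit 5) (nat_lit 2),
    .r (nat_lit 0x1bd6) (nat_lit 8) [nat_lit 0x4010001,nat_lit 0x12329062],.r (nat_lit 10) (nat_lit 13) [nat_lit 65,
    nat_lit 0x4010001],.r (nat_lit 2) (nat_lit 4) [nat_lit 0x6018861,nat_lit 0x4010001],
    .r (nat_lit 0x1750) (nat_lit 13) [nat_lit 0x4010001,nat_lit 65],.r (nat_lit 0x1b6a) (nat_lit 9) [nat_lit 0x18001,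
    nat_lit 0x4010001,nat_lit 0x20041],.c (nat_lit 6) (nat_lit 2),.r (nat_lit 10) (nat_lit 5) [nat_lit 0x4010001,
    nat_lit 65],.r (nat_lit 0x1b5d) (nat_lit 9) [nat_lit 0x18001,nat_lit 0x4010001,nat_lit 0x20041],
    .c (nat_lit 7) (nat_lit 2)]]

/-- nodes -/
noncomputable def rD7k_22_4 : List RJ :=
  [.l (nat_lit 11) (nat_lit 360) (nat_lit 4) (nat_lit 0x8b0000008b00000098000000980000009100000091000000a1000000a1000000b4000000b40000009b0000009b0000009100000091) (nat_lit 0x29000000290000001c0000001c00000023000000230000001300000013000000000000000000000019000000190000002300000023)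
    (nat_lit 0xf8228418830bc1a01e0781162244004a0d01a03107c0de1bc300660f01e04588b1081c82a0600de20c3f07c0ea1d44288d1302604387f0b618c378830fc1f83b8750fa214430981061a43a86d0cc1a03a8750dc1b03f07c14e2644008a0b41a83005e0ee1d43706e0fc1f8678c10cc1e03706e0f01e04288d0fc1f02f08e1422844404a1102403c03c0fa2143f07e11c178508a10d4220400921162244c098182264508a11682d04389b19a2bc4588b10c260678a71422845a0b413626c5c89b0e41283487f0f02284404a13626c3c0820f01e04208010621c330800d42204d8871041e03c0780c01a0368630dc1a8490901362bc3c0780c01b82a0680ea16c3705a1002205c8cd0f01e023060)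
    (nat_lit 0xf85a0b41682d05a0b41682d05a0b41682d05a04507c2d05a0b41682d05a0b41682d05a0b41681061bc3f1682d05a0b41682d05a0b41682d05a04186f0f81f8b41682d05a0b41682d05a0b41680bc1803a8770dc5a0b41682d05a0b41682d05a0340660ea1d43606e2d05a0b41682d05a0b41680781e04287d0fc1f82f1682d05a0b41682d05a03c07811a2143e07e11c178b41682d05a0b416811622c4c08614e33c508a11685a0b41682d05a04488b1302604c8c11422845a0b42d05a0b4168100210438831001984406a10e26c3c1682d05a0250720fe1a4450780942204d89b1041e0b41680d01502d8750b41b84408019a2e43c0780c05a0340600c61b43506e1202485789b0f01e037060)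
    (nat_lit 3) (nat_lit 83)
    [[nat_lit 2,nat_lit 3,nat_lit 18,nat_lit 0x10002,nat_lit 0x100002,nat_lit 0x1000002,nat_lit 17,nat_lit 0x10011,
    nat_lit 0x100011,nat_lit 0x1000011,nat_lit 0x1011,nat_lit 0x1001011,nat_lit 0x1001,nat_lit 0x1001001,
    nat_lit 0x10001,nat_lit 0x20001,nat_lit 0x110001,nat_lit 0x1010001,nat_lit 0x100001,nat_lit 0x200001,
    nat_lit 0x1100001,nat_lit 0x1000001,nat_lit 0x2000001],[nat_lit 32,nat_lit 0x1020,nat_lit 0x1000020,nat_lit 272,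
    nat_lit 0x1000110,nat_lit 0x1010,nat_lit 0x2010,nat_lit 0x1001010,nat_lit 0x11010,nat_lit 0x101010,
    nat_lit 0x10010,nat_lit 0x20010,nat_lit 0x110010,nat_lit 0x1010010,nat_lit 0x1011010,nat_lit 0x100010,
    nat_lit 0x1100010,nat_lit 0x1000010,nat_lit 0x2000010],[nat_lit 0x1100,nat_lit 0x100100,nat_lit 0x1000100],
    [nat_lit 0x2000,nat_lit 0x3000,nat_lit 0x12000,nat_lit 0x1002000,nat_lit 0x11000,nat_lit 0x1011000,
    nat_lit 0x101000,nat_lit 0x1101000,nat_lit 0x1001000,nat_lit 0x2001000],[nat_lit 0x20000,nat_lit 0x30000,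
    nat_lit 0x120000,nat_lit 0x1020000,nat_lit 0x110000,nat_lit 0x1110000,nat_lit 0x1010000,nat_lit 0x2010000],
    [nat_lit 0x200000,nat_lit 0x1100000],[nat_lit 0x2000000]]
    [.c (nat_lit 1) (nat_lit 2),.r (nat_lit 0x18da) (nat_lit 4) [nat_lit 17,nat_lit 0xe11,nat_lit 0x30c19,
    nat_lit 0x2001],.r (nat_lit 0x1b96) (nat_lit 9) [nat_lit 0x10001,nat_lit 0x1b081,nat_lit 0x26d1],
    .r (nat_lit 0x18da) (nat_lit 4) [nat_lit 0x411,nat_lit 0xa11,nat_lit 0x30819,nat_lit 0x2001],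
    .r (nat_lit 0x19de) (nat_lit 7) [nat_lit 0x1b499,nat_lit 0x10001,nat_lit 0xa11],
    .r (nat_lit 0x1bf3) (nat_lit 12) [nat_lit 0x2001,nat_lit 0x3011,nat_lit 0x3a11,nat_lit 0x22819],
    .r (nat_lit 2) (nat_lit 1) [nat_lit 0x12419,nat_lit 17],.r (nat_lit 0x1b96) (nat_lit 9) [nat_lit 0x10001,
    nat_lit 0x1b081,nat_lit 0x20d1],.r (nat_lit 0x1a29) (nat_lit 0) [nat_lit 0x601,nat_lit 0x18099,nat_lit 0x10401],
    .c (nat_lit 1) (nat_lit 0x602),.r (nat_lit 0x1a32) (nat_lit 5) [nat_lit 0x1b099,nat_lit 0x2001,nat_lit 0x10001],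
    .c (nat_lit 6) (nat_lit 0x3013),.c (nat_lit 0) (nat_lit 0x3613),.r (nat_lit 0x1a29) (nat_lit 4) [nat_lit 0x401,
    nat_lit 0x18099,nat_lit 0x10001],.c (nat_lit 1) (nat_lit 130),.r (nat_lit 0x18da) (nat_lit 4) [nat_lit 0x811,
    nat_lit 0x611,nat_lit 0x30419,nat_lit 0x2001],.r (nat_lit 0x19de) (nat_lit 7) [nat_lit 0x1b099,nat_lit 0x10001,
    nat_lit 0x611],.r (nat_lit 0x1bf3) (nat_lit 12) [nat_lit 0x2001,nat_lit 0x3411,nat_lit 0x3611,nat_lit 0x22419],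
    .c (nat_lit 0) (nat_lit 0x3613),.r (nat_lit 0x1bb5) (nat_lit 5) [nat_lit 0x401,nat_lit 0x611,nat_lit 0x10001],
    .r (nat_lit 0xe18) (nat_lit 2) [nat_lit 0x10401,nat_lit 0x10001,nat_lit 0x1b081,nat_lit 0x1a099],
    .r (nat_lit 8) (nat_lit 1) [nat_lit 0x12419,nat_lit 0x611],.r (nat_lit 0x1bb5) (nat_lit 2) [nat_lit 0x601,
    nat_lit 17,nat_lit 0x10401],.c (nat_lit 2) (nat_lit 2),.r (nat_lit 0x1b22) (nat_lit 13) [nat_lit 0x601,
    nat_lit 0x10401,nat_lit 0x100d1],.c (nat_lit 2) (nat_lit 0x602),.r (nat_lit 8) (nat_lit 6) [nat_lit 0x12419,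
    nat_lit 0x10001],.c (nat_lit 1) (nat_lit 0x2483),.r (nat_lit 0x196f) (nat_lit 8) [nat_lit 0x601,nat_lit 0x10401,
    nat_lit 17],.r (nat_lit 0x1b22) (nat_lit 7) [nat_lit 0x401,nat_lit 0x10001,nat_lit 0x104d1],
    .c (nat_lit 4) (nat_lit 0x602),.r (nat_lit 0x1a32) (nat_lit 5) [nat_lit 0x1b699,nat_lit 0x2001,nat_lit 0x10001],
    .r (nat_lit 8) (nat_lit 6) [nat_lit 0x18099,nat_lit 0x10001],.r (nat_lit 2) (nat_lit 1) [nat_lit 0x12019,
    nat_lit 0x411],.r (nat_lit 0x1b96) (nat_lit 9) [nat_lit 0x10001,nat_lit 0x1b081,nat_lit 0x24d1],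
    .r (nat_lit 0x1a29) (nat_lit 0) [nat_lit 0x601,nat_lit 0x18699,nat_lit 0x10401],.c (nat_lit 1) (nat_lit 0x682),
    .c (nat_lit 6) (nat_lit 0x30d3),.r (nat_lit 0x1b9c) (nat_lit 10) [nat_lit 17,nat_lit 0x224c1,nat_lit 0x18699],
    .c (nat_lit 6) (nat_lit 0x602),.c (nat_lit 0) (nat_lit 0x403),.c (nat_lit 7) (nat_lit 0x602),
    .r (nat_lit 0x19de) (nat_lit 7) [nat_lit 0x18011,nat_lit 0x10001,nat_lit 0x3699],
    .r (nat_lit 0x1b1b) (nat_lit 11) [nat_lit 0x18611,nat_lit 0x601,nat_lit 0x10401],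
    .r (nat_lit 0x174e) (nat_lit 1) [nat_lit 0x12419,nat_lit 17],.c (nat_lit 4) (nat_lit 2),
    .r (nat_lit 0xe1b) (nat_lit 3) [nat_lit 0x30001,nat_lit 0x6001,nat_lit 0xc01,nat_lit 0x3ff99],
    .r (nat_lit 0x1bb5) (nat_lit 5) [nat_lit 0x401,nat_lit 0x2db19,nat_lit 0x10001],
    .r (nat_lit 0x17ed) (nat_lit 3) [nat_lit 0x2001,nat_lit 0x3011,nat_lit 0x10001,nat_lit 0x10401],
    .c (nat_lit 0) (nat_lit 0x36d3),.r (nat_lit 0x1a29) (nat_lit 4) [nat_lit 0x401,nat_lit 0x18699,nat_lit 0x10001],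
    .c (nat_lit 0) (nat_lit 0x3613),.r (nat_lit 0x174e) (nat_lit 1) [nat_lit 0x18099,nat_lit 0x224d1],
    .r (nat_lit 0x1b47) (nat_lit 1) [nat_lit 0x10401,nat_lit 0x124d1,nat_lit 0x18699],
    .r (nat_lit 0x18db) (nat_lit 1) [nat_lit 0x401,nat_lit 0x10001,nat_lit 0x124d1,nat_lit 0x1a699],
    .c (nat_lit 5) (nat_lit 2),.r (nat_lit 0x18da) (nat_lit 4) [nat_lit 0xc11,nat_lit 17,nat_lit 0x30019,
    nat_lit 0x2001],.r (nat_lit 0x19de) (nat_lit 7) [nat_lit 0x1b699,nat_lit 0x10001,nat_lit 17],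
    .r (nat_lit 0x1bf3) (nat_lit 12) [nat_lit 0x2001,nat_lit 0x3811,nat_lit 0x3011,nat_lit 0x22019],
    .c (nat_lit 0) (nat_lit 0x36d3),.r (nat_lit 0xe18) (nat_lit 2) [nat_lit 0x10401,nat_lit 0x10001,nat_lit 0x1b081,
    nat_lit 0x1a699],.r (nat_lit 8) (nat_lit 1) [nat_lit 0x12019,nat_lit 17],
    .r (nat_lit 0x1bb5) (nat_lit 2) [nat_lit 0x601,nat_lit 0x411,nat_lit 0x10401],.c (nat_lit 6) (nat_lit 2),
    .r (nat_lit 0x1bec) (nat_lit 1) [nat_lit 17,nat_lit 0x10401],.c (nat_lit 7) (nat_lit 2)],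
    .l (nat_lit 11) (nat_lit 480) (nat_lit 3) (nat_lit 0xc7000000c4000000d9000000d9000000e0000000db000000c7000000ee0000011600000116000000ec000000ca000000ce000000eb) (nat_lit 0x520000004f0000003d0000003d0000003b00000036000000280000004f00000000000000000000004c0000002a0000002b00000048)
    (nat_lit 0xf01e0638ab0f02103c07818e2a03c0781381fc3c07810621c448781381e0600c40f02683c07810e2ac5909613629c5888a1b2364488b3156244418c715c2c84d8a316221c6c8b31362bc5d88f0f0210518a71502606f0941c03804b0b60f02284487813626c500a81a4230801001142f8580930f01e04388a1182503d0781742a03d8781602104e0781622c4690de18c1e8770ee140310710b61882a0598d9200380770a822c4585d0ec224340600c71b2364800e01dc2e88b1161943b0880ce1341e0578b317c2d8620781d83b0500c21822903c078136244450961401ec650ba0fc2804f8820f01fc478911262285b08419c340410a414c2183c09c1762ac580781c42c08811213e304600a6)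
    (nat_lit 0xf0780f01e03c0780f01e03c0780f01e03c07803c0783c0780f01e03c0780f01e03c0780f01e018e20c591e03c0780f01e03c0780f01e03c07805588712c2c8f01e03c0780f01e03c0780f01e00f02244d89b150780f01e03c0780f01e03c07804207814e28c4c0a83c0780f01e03c0780f01e00f0270588b11bc3483d1e03c0780f01e03c07803c07811421c4a08c0f01e8f01e03c0780f01e018e3006c8d91c04005d0ee22c780f01e03c0780540c41b22cc701001503b88b1163c0780f01e00f01e04889b12c2283d8a0174328501e03c07803c09a1662bc5b0be0f0310760ec184280f01e01381e0558bb0f02c0580e22244406089f14c7803f87812223c450931082d8680ce148208430a6)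
    (nat_lit 4) (nat_lit 61)
    [[nat_lit 2,nat_lit 0x10002,nat_lit 0x1000002,nat_lit 17,nat_lit 0x10011,nat_lit 0x1000011,nat_lit 0x1011,
    nat_lit 0x100011,nat_lit 0x1001,nat_lit 0x1001001,nat_lit 0x10001,nat_lit 0x11001,nat_lit 0x20001,
    nat_lit 0x110001,nat_lit 0x1010001,nat_lit 0x100001,nat_lit 0x1100001,nat_lit 0x1000001,nat_lit 0x2000001],
    [nat_lit 32,nat_lit 0x1020,nat_lit 0x1000020,nat_lit 272,nat_lit 0x1010,nat_lit 0x2010,nat_lit 0x101010,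
    nat_lit 0x1001010,nat_lit 0x10010,nat_lit 0x1010010,nat_lit 0x100010,nat_lit 0x1100010,nat_lit 0x1000010,
    nat_lit 0x2000010],[nat_lit 0x1100,nat_lit 0x100100,nat_lit 0x1000100],[nat_lit 0x2000,nat_lit 0x3000,
    nat_lit 0x102000,nat_lit 0x1002000,nat_lit 0x11000,nat_lit 0x1011000,nat_lit 0x101000,nat_lit 0x1101000,
    nat_lit 0x201000,nat_lit 0x1001000,nat_lit 0x2001000],[nat_lit 0x20000,nat_lit 0x1020000,nat_lit 0x110000,
    nat_lit 0x120000,nat_lit 0x1110000,nat_lit 0x210000,nat_lit 0x1010000,nat_lit 0x2010000],[nat_lit 0x200000,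
    nat_lit 0x1100000,nat_lit 0x2100000],[nat_lit 0x2000000,nat_lit 0x3000000]]
    [.c (nat_lit 1) (nat_lit 2),.r (nat_lit 0x1bfc) (nat_lit 4) [nat_lit 0x2001,nat_lit 0x20001,nat_lit 0x200001],
    .r (nat_lit 0x1bf3) (nat_lit 12) [nat_lit 0x20001,nat_lit 0x30021,nat_lit 0x35021,nat_lit 0x424031],
    .r (nat_lit 2) (nat_lit 1) [nat_lit 0x222031,nat_lit 33],.r (nat_lit 0x1b96) (nat_lit 9) [nat_lit 0x200001,
    nat_lit 0x330201,nat_lit 0x20321],.c (nat_lit 1) (nat_lit 0x3002),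
    .r (nat_lit 0x1a32) (nat_lit 5) [nat_lit 0x330231,nat_lit 0x20001,nat_lit 0x200001],
    .r (nat_lit 0x1b8b) (nat_lit 0) [nat_lit 0x3001,nat_lit 0x300231,nat_lit 0x202001],
    .c (nat_lit 0) (nat_lit 0x33023),.r (nat_lit 0x1a29) (nat_lit 4) [nat_lit 0x2001,nat_lit 0x300231,
    nat_lit 0x200001],.c (nat_lit 1) (nat_lit 514),.r (nat_lit 0x1b19) (nat_lit 4) [nat_lit 0x222321,nat_lit 0x30231,
    nat_lit 0x553431],.r (nat_lit 0x1bfc) (nat_lit 4) [nat_lit 0x2001,nat_lit 0x20001,nat_lit 0x200001],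
    .r (nat_lit 0x1170) (nat_lit 7) [nat_lit 0x3021,nat_lit 0x40001,nat_lit 0x2021,nat_lit 0x402031],
    .r (nat_lit 0x1bf3) (nat_lit 12) [nat_lit 0x20001,nat_lit 0x32021,nat_lit 0x33021,nat_lit 0x422031],
    .c (nat_lit 0) (nat_lit 0x33023),.r (nat_lit 0xe18) (nat_lit 2) [nat_lit 0x202001,nat_lit 0x200001,
    nat_lit 0x330201,nat_lit 0x320231],.r (nat_lit 0x1750) (nat_lit 1) [nat_lit 33,nat_lit 0x200001],
    .r (nat_lit 0x1bb5) (nat_lit 2) [nat_lit 0x3001,nat_lit 33,nat_lit 0x202001],.c (nat_lit 2) (nat_lit 2),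
    .r (nat_lit 0x1b22) (nat_lit 13) [nat_lit 0x3001,nat_lit 0x202001,nat_lit 0x200321],
    .c (nat_lit 2) (nat_lit 0x3002),.r (nat_lit 0x174d) (nat_lit 13) [nat_lit 0x220031,nat_lit 33],
    .r (nat_lit 0x196f) (nat_lit 8) [nat_lit 0x3001,nat_lit 0x202001,nat_lit 33],
    .r (nat_lit 0x1b22) (nat_lit 7) [nat_lit 0x2001,nat_lit 0x200001,nat_lit 0x202321],
    .r (nat_lit 0x174d) (nat_lit 13) [nat_lit 0x303231,nat_lit 0x422321],.c (nat_lit 4) (nat_lit 0x3002),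
    .r (nat_lit 2) (nat_lit 1) [nat_lit 0x220031,nat_lit 0x2021],.c (nat_lit 1) (nat_lit 0x3202),
    .r (nat_lit 0x1b9c) (nat_lit 10) [nat_lit 33,nat_lit 0x422301,nat_lit 0x303231],.c (nat_lit 6) (nat_lit 0x3002),
    .c (nat_lit 0) (nat_lit 0x2003),.c (nat_lit 7) (nat_lit 0x3002),.r (nat_lit 0x1170) (nat_lit 7) [nat_lit 0x33231,
    nat_lit 0x40001,nat_lit 0x32231,nat_lit 0x422321],.r (nat_lit 0x1b19) (nat_lit 4) [nat_lit 0x202031,nat_lit 33,
    nat_lit 0x533221],.r (nat_lit 0x174e) (nat_lit 1) [nat_lit 0x222031,nat_lit 33],.c (nat_lit 4) (nat_lit 2),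
    .r (nat_lit 0xe1b) (nat_lit 3) [nat_lit 0x600001,nat_lit 0x60001,nat_lit 0x6001,nat_lit 0x777631],
    .r (nat_lit 0x1170) (nat_lit 7) [nat_lit 0x555431,nat_lit 0x40001,nat_lit 0x550431,nat_lit 0x844521],
    .r (nat_lit 0x17ed) (nat_lit 3) [nat_lit 0x20001,nat_lit 0x30021,nat_lit 0x200001,nat_lit 0x202001],
    .c (nat_lit 0) (nat_lit 0x33323),.r (nat_lit 0x1a29) (nat_lit 4) [nat_lit 0x2001,nat_lit 0x303231,
    nat_lit 0x200001],.c (nat_lit 0) (nat_lit 0x33023),.r (nat_lit 0x174e) (nat_lit 1) [nat_lit 0x300231,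
    nat_lit 0x422321],.r (nat_lit 0x1b19) (nat_lit 4) [nat_lit 0x330231,nat_lit 0x422321,nat_lit 33],
    .r (nat_lit 0x13f9) (nat_lit 1) [nat_lit 0x300231,nat_lit 0x3001,nat_lit 0x30021,nat_lit 0x202001],
    .r (nat_lit 0x1bfc) (nat_lit 4) [nat_lit 0x2001,nat_lit 0x20001,nat_lit 0x200001],.c (nat_lit 5) (nat_lit 2),
    .r (nat_lit 0x1bf3) (nat_lit 12) [nat_lit 0x20001,nat_lit 0x34021,nat_lit 0x30021,nat_lit 0x420031],
    .c (nat_lit 0) (nat_lit 0x33323),.r (nat_lit 0x1170) (nat_lit 7) [nat_lit 33,nat_lit 0x40001,nat_lit 0x4021,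
    nat_lit 0x400031],.r (nat_lit 0xe18) (nat_lit 2) [nat_lit 0x202001,nat_lit 0x200001,nat_lit 0x330201,
    nat_lit 0x323231],.r (nat_lit 0x1bb5) (nat_lit 5) [nat_lit 0x2001,nat_lit 33,nat_lit 0x200001],
    .r (nat_lit 0x1750) (nat_lit 1) [nat_lit 0x2021,nat_lit 0x200001],.r (nat_lit 0x1bb5) (nat_lit 2) [nat_lit 0x3001,
    nat_lit 0x2021,nat_lit 0x202001],.c (nat_lit 6) (nat_lit 2),.r (nat_lit 0x1ae5) (nat_lit 0) [nat_lit 33,
    nat_lit 0x300231,nat_lit 0x33021],.r (nat_lit 0x1bfc) (nat_lit 4) [nat_lit 0x2001,nat_lit 0x20001,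
    nat_lit 0x200001],.c (nat_lit 7) (nat_lit 2),.r (nat_lit 0x1bfc) (nat_lit 4) [nat_lit 0x2001,nat_lit 0x20001,
    nat_lit 0x200001]]]

/-- nodes -/
noncomputable def rD7k_22_5 : List RJ :=
  [.l (nat_lit 10) (nat_lit 240) (nat_lit 4) (nat_lit 0x5f0000005f0000005f0000005f00000064000000640000006a0000006a000000640000005a00000062000000620000006e00000050) (nat_lit 0xf0000000f0000000f0000000f0000000a0000000a0000000400000004000000140000000a0000000c0000000c0000001e00000000)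
    (nat_lit 0x1584a1405012c5516c5b12c4b1644710465140561405015c5516c5b12c5514c531046514050140501545516c5912c55134530ec5f140501585012c5516c5b12c4b17c53104651545515455168541a86a1405a148581185815c4b12c551685a180601405a168581183016c5b16c591806a19866158602485e1586816c5b16c5b1806a19866158602485e1585e1544b12c551685a180601405a190581183012c4b12c4b1405015856160501204e1205a14c4714c53160581785e13858158441106814c5917c4d168522489212064158560f862194651945f0c0581786816830188681286e104411043b1184615856120460f8440e04a)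
    (nat_lit 0x158f03c0f03c0f03c0f03c0f03c0f03c0f0128563c0f03c0f03c0f03c0f03c0f03c0f014050140f03c0f03c0f03c0f03c0f03c0f014050140503c0f03c0f03c0f03c0f03c0f012c571544b168f03c0f03c0f03c0f03c0f015455154551505a3c0f03c0f03c0f03c0f016c5b16c5b1a860198f03c0f03c0f03c0f016c5b1645b1a860198663c0f03c0f03c0f012c4b12c4b1405015856140f03c0f03c0f012c551544b1685a18060168503c0f03c0f0164531345f1485a2489219048158f03c0f011c5314c53160581785e1604e110563c0f0104410ec411184615856118481103e128f01946517c65160301a05e0c05a1a0621b84a)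
    (nat_lit 5) (nat_lit 59)
    [[nat_lit 2,nat_lit 3,nat_lit 258,nat_lit 0x10002,nat_lit 0x100002,nat_lit 0x10102,nat_lit 0x20002,nat_lit 17,
    nat_lit 273,nat_lit 0x10011,nat_lit 33,nat_lit 0x1000011,nat_lit 257,nat_lit 513,nat_lit 0x10101,nat_lit 0x1001,
    nat_lit 0x1101,nat_lit 0x10001,nat_lit 0x20001,nat_lit 0x100001,nat_lit 0x100101,nat_lit 0x110001,
    nat_lit 0x1000001,nat_lit 0x1000101,nat_lit 0x1010001],[nat_lit 32,nat_lit 272,nat_lit 0x100110,nat_lit 0x1000110,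
    nat_lit 0x10010,nat_lit 0x100010,nat_lit 0x1100010,nat_lit 0x1000010],[nat_lit 512,nat_lit 0x100200,
    nat_lit 0x1000200,nat_lit 0x1100,nat_lit 0x10100,nat_lit 0x100100,nat_lit 0x200100,nat_lit 0x1100100,
    nat_lit 0x1000100,nat_lit 0x2000100],[nat_lit 0x2000,nat_lit 0x11000,nat_lit 0x101000,nat_lit 0x1001000],
    [nat_lit 0x20000,nat_lit 0x110000,nat_lit 0x1010000],[nat_lit 0x200000,nat_lit 0x1100000,nat_lit 0x2100000],
    [nat_lit 0x2000000]]
    [.c (nat_lit 1) (nat_lit 2),.c (nat_lit 0) (nat_lit 0x803),.c (nat_lit 0) (nat_lit 0x11007),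
    .r (nat_lit 0x1bec) (nat_lit 13) [nat_lit 0xda3298c3,nat_lit 0x2280c3],
    .r (nat_lit 0x19c6) (nat_lit 4) [nat_lit 0x10061,nat_lit 0xe319803,nat_lit 0x2280c3],
    .c (nat_lit 2) (nat_lit 0x6d29cc6),.c (nat_lit 2) (nat_lit 0xb92a586),
    .r (nat_lit 0x1bec) (nat_lit 13) [nat_lit 65,nat_lit 0x98401cc3],.c (nat_lit 2) (nat_lit 0x18c06),
    .c (nat_lit 2) (nat_lit 0x6d194c6),.r (nat_lit 0xb09) (nat_lit 0) [nat_lit 0x15a51b0e1,nat_lit 0x20001,
    nat_lit 0x180c1,nat_lit 0x400001,nat_lit 0x1a51b0e1],.r (nat_lit 0x1490) (nat_lit 10) [nat_lit 0xe319803,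
    nat_lit 0xce2018e3,nat_lit 0x4000001,nat_lit 0x8c010003],.c (nat_lit 0) (nat_lit 0x10807),
    .c (nat_lit 0) (nat_lit 0x20807),.c (nat_lit 5) (nat_lit 0x18c06),.c (nat_lit 0) (nat_lit 0x4600807),
    .c (nat_lit 2) (nat_lit 0x300043),.c (nat_lit 0) (nat_lit 0x4c110e7),
    .r (nat_lit 0x1b32) (nat_lit 13) [nat_lit 0x210003,nat_lit 0xe63298c3,nat_lit 0x980100e3],
    .r (nat_lit 0x1ae3) (nat_lit 0) [nat_lit 0xe319803,nat_lit 65,nat_lit 0x98221ce3],
    .c (nat_lit 6) (nat_lit 0x18c06),.r (nat_lit 32) (nat_lit 13) [nat_lit 0xc2100e3,nat_lit 0xda3298c3],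
    .r (nat_lit 0x1bec) (nat_lit 4) [nat_lit 65,nat_lit 0xe319803],.c (nat_lit 7) (nat_lit 0x18c06),
    .r (nat_lit 0x1749) (nat_lit 13) [nat_lit 0x200001,nat_lit 0xc0100e1,nat_lit 0xe319803],
    .c (nat_lit 2) (nat_lit 2),.c (nat_lit 5) (nat_lit 0x4c008e6),.c (nat_lit 7) (nat_lit 0x6700cc7),
    .c (nat_lit 6) (nat_lit 0x6700cc7),.r (nat_lit 0x1b32) (nat_lit 13) [nat_lit 0x210003,nat_lit 0x6000041,
    nat_lit 0x3198e3],.r (nat_lit 32) (nat_lit 13) [nat_lit 0xce0198e3,nat_lit 65],.c (nat_lit 0) (nat_lit 0x46108e6),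
    .r (nat_lit 0x1749) (nat_lit 13) [nat_lit 0x200001,nat_lit 0xce3198e1,nat_lit 0xe319803],
    .c (nat_lit 3) (nat_lit 2),.r (nat_lit 0x1490) (nat_lit 10) [nat_lit 0xe319803,nat_lit 65,nat_lit 0x4000001,
    nat_lit 0x8c010003],.r (nat_lit 0x1175) (nat_lit 4) [nat_lit 65,nat_lit 0xe319803,nat_lit 0x4000001,
    nat_lit 0x8c010003],.r (nat_lit 2) (nat_lit 13) [nat_lit 0x802199a3,nat_lit 65],
    .r (nat_lit 0x1bec) (nat_lit 13) [nat_lit 0xda5018c3,nat_lit 65],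
    .r (nat_lit 0x19c6) (nat_lit 4) [nat_lit 0x2100e3,nat_lit 0xe319803,nat_lit 65],
    .r (nat_lit 0x1490) (nat_lit 10) [nat_lit 0xe319803,nat_lit 0x200042,nat_lit 0x4000001,nat_lit 0x8c010003],
    .c (nat_lit 2) (nat_lit 0x6700cc7),.r (nat_lit 32) (nat_lit 2) [nat_lit 0xce0198e3,nat_lit 65],
    .r (nat_lit 0x1175) (nat_lit 4) [nat_lit 0x200042,nat_lit 0xe319803,nat_lit 0x4000001,nat_lit 0x8c010003],
    .c (nat_lit 4) (nat_lit 2),.c (nat_lit 0) (nat_lit 0x4600007),.r (nat_lit 0x1bfd) (nat_lit 13) [nat_lit 0xe3198e3,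
    nat_lit 0x210003,nat_lit 65],.r (nat_lit 0x1b9d) (nat_lit 7) [nat_lit 0x210003,nat_lit 0x6000041,
    nat_lit 0x3198e3],.c (nat_lit 5) (nat_lit 2),.c (nat_lit 0) (nat_lit 0x200003),.c (nat_lit 0) (nat_lit 0x200003),
    .c (nat_lit 6) (nat_lit 2),.c (nat_lit 0) (nat_lit 0x200003),.r (nat_lit 0x1b9b) (nat_lit 13) [nat_lit 0x4000061,
    nat_lit 0xce3298e3,nat_lit 0x800100c3],.c (nat_lit 7) (nat_lit 2)]]

/-- nodes -/
noncomputable def rD7k_22_6 : List RJ :=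
  [.s (nat_lit 14) (nat_lit 0x960) (nat_lit 5) (nat_lit 0x4b0000004b0000004e0000004e0000004ec000004ec000004b0000004b0000004240000042400000560000006900000054c0000054c) (nat_lit 0x1e0000001e0000001b0000001b0000001a4000001a4000001e0000001e00000026c0000026c00000000000001300000014400000144)
    (nat_lit 0xb402d00c003000c3030c0b402d0091024416503b00db036c0b402d00c003000c3030c0b40294091024416803bc0db036c0c003000cc03300de033c0c0030008e027413803b00e702ac0c003000cc03300de033c0c003000ac02b013803b00e7039c0c3030c0cf033c0d203480b402d00a0028013b03800ea03a80c3030c0de03780d203480c3030c082028009703bc0ea027c0a502d00c003000c302d00b402d0091024417703f80db05fc0b402d00c003000c302d00a502d0091024415603740db05fc09102440ac02740a00280091024407101f406502f40b8023809102440ac02380820280091024406e01c410902f40ac02e00ef03b00ec03b00ef03800dd03f80bd02f41580430107041c168059413804e009704ec15605dc10901941a40560153054c0db036c0e702ac09f03a817f05fc0b80238153041c0c904080db036c0e7039c0ea03a80db036c0ac02e0153041c1020324)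
    (nat_lit 0xb409602580960258096025809602580960258096025809600b402d02580960258096025809602580960258096025809600c003000cc0960258096025809602580960258096025809600c003000cc0330258096025809602580960258096025809600c3030c0de03780d2096025809602580960258096025809600c3030c0cf033c0d2034825809602580960258096025809600b402d00c003000b4030c0b409602580960258096025809600b402940c003000b4030c0b402d0258096025809602580960091024408e02b00a002080910244071096025809602580960091024409d02b00a00280091024407d01c4258096025809600f603d80f30444105025c0f603d8065034c122096025809600ec03bc0ec03b00e003bc0fe03740bd02f410c048825809600db036c0e7039c0ea03a80db036c0b802b010704440c909600db036c0ab039c0ea027c11f047c08e02e010704741020324)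
    (nat_lit 5) (nat_lit 133)
    [[nat_lit 0,nat_lit 0,nat_lit 8],[nat_lit 0,nat_lit 0,nat_lit 9],[nat_lit 0,nat_lit 5,nat_lit 0,nat_lit 5],
    [nat_lit 0,nat_lit 8,nat_lit 0],[nat_lit 0,nat_lit 9,nat_lit 0],[nat_lit 1,nat_lit 1,nat_lit 8],[nat_lit 1,
    nat_lit 1,nat_lit 9],[nat_lit 1,nat_lit 4,nat_lit 1,nat_lit 4],[nat_lit 1,nat_lit 8,nat_lit 1],[nat_lit 1,
    nat_lit 9,nat_lit 1],[nat_lit 2,nat_lit 6],[nat_lit 2,nat_lit 7],[nat_lit 2,nat_lit 12],[nat_lit 2,nat_lit 13],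
    [nat_lit 3,nat_lit 6],[nat_lit 3,nat_lit 7],[nat_lit 3,nat_lit 12],[nat_lit 3,nat_lit 13],[nat_lit 4,nat_lit 4,
    nat_lit 7,nat_lit 10],[nat_lit 4,nat_lit 4,nat_lit 10,nat_lit 6],[nat_lit 4,nat_lit 4,nat_lit 10,nat_lit 7],
    [nat_lit 4,nat_lit 4,nat_lit 10,nat_lit 12],[nat_lit 4,nat_lit 4,nat_lit 10,nat_lit 13],[nat_lit 4,nat_lit 4,
    nat_lit 11,nat_lit 7],[nat_lit 4,nat_lit 4,nat_lit 11,nat_lit 12],[nat_lit 4,nat_lit 6,nat_lit 4,nat_lit 10],
    [nat_lit 4,nat_lit 7,nat_lit 4,nat_lit 10],[nat_lit 4,nat_lit 7,nat_lit 4,nat_lit 11],[nat_lit 4,nat_lit 7,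
    nat_lit 10,nat_lit 4],[nat_lit 4,nat_lit 10,nat_lit 4,nat_lit 6],[nat_lit 4,nat_lit 10,nat_lit 4,nat_lit 7],
    [nat_lit 4,nat_lit 10,nat_lit 4,nat_lit 13],[nat_lit 4,nat_lit 10,nat_lit 5,nat_lit 6],[nat_lit 4,nat_lit 10,
    nat_lit 5,nat_lit 7],[nat_lit 4,nat_lit 10,nat_lit 6,nat_lit 4],[nat_lit 4,nat_lit 10,nat_lit 7,nat_lit 4],
    [nat_lit 4,nat_lit 10,nat_lit 12,nat_lit 4],[nat_lit 4,nat_lit 10,nat_lit 13,nat_lit 4],[nat_lit 4,nat_lit 11,
    nat_lit 4,nat_lit 7],[nat_lit 4,nat_lit 11,nat_lit 5,nat_lit 6],[nat_lit 4,nat_lit 11,nat_lit 5,nat_lit 7],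
    [nat_lit 4,nat_lit 11,nat_lit 7,nat_lit 4],[nat_lit 4,nat_lit 11,nat_lit 12,nat_lit 4],[nat_lit 4,nat_lit 13,
    nat_lit 4,nat_lit 10],[nat_lit 5,nat_lit 5,nat_lit 6,nat_lit 10],[nat_lit 5,nat_lit 5,nat_lit 6,nat_lit 11],
    [nat_lit 5,nat_lit 5,nat_lit 7,nat_lit 11],[nat_lit 5,nat_lit 5,nat_lit 11,nat_lit 6],[nat_lit 5,nat_lit 5,
    nat_lit 12,nat_lit 11],[nat_lit 5,nat_lit 5,nat_lit 13,nat_lit 10],[nat_lit 5,nat_lit 5,nat_lit 13,nat_lit 11],
    [nat_lit 5,nat_lit 6,nat_lit 5,nat_lit 10],[nat_lit 5,nat_lit 6,nat_lit 5,nat_lit 11],[nat_lit 5,nat_lit 6,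
    nat_lit 10,nat_lit 5],[nat_lit 5,nat_lit 6,nat_lit 11,nat_lit 5],[nat_lit 5,nat_lit 7,nat_lit 5,nat_lit 11],
    [nat_lit 5,nat_lit 7,nat_lit 11,nat_lit 5],[nat_lit 5,nat_lit 10,nat_lit 5,nat_lit 6],[nat_lit 5,nat_lit 11,
    nat_lit 5,nat_lit 6],[nat_lit 5,nat_lit 11,nat_lit 5,nat_lit 7],[nat_lit 5,nat_lit 11,nat_lit 5,nat_lit 12],
    [nat_lit 5,nat_lit 11,nat_lit 6,nat_lit 5],[nat_lit 5,nat_lit 12,nat_lit 5,nat_lit 11],[nat_lit 5,nat_lit 12,
    nat_lit 11,nat_lit 5],[nat_lit 5,nat_lit 13,nat_lit 10,nat_lit 5],[nat_lit 5,nat_lit 13,nat_lit 11,nat_lit 5],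
    [nat_lit 6,nat_lit 8,nat_lit 10],[nat_lit 6,nat_lit 8,nat_lit 11],[nat_lit 6,nat_lit 9,nat_lit 10],[nat_lit 6,
    nat_lit 9,nat_lit 11],[nat_lit 6,nat_lit 10,nat_lit 8],[nat_lit 6,nat_lit 10,nat_lit 9],[nat_lit 6,nat_lit 11,
    nat_lit 8],[nat_lit 6,nat_lit 11,nat_lit 9],[nat_lit 7,nat_lit 8,nat_lit 10],[nat_lit 7,nat_lit 8,nat_lit 11],
    [nat_lit 7,nat_lit 9,nat_lit 10],[nat_lit 7,nat_lit 9,nat_lit 11],[nat_lit 7,nat_lit 10,nat_lit 8],[nat_lit 7,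
    nat_lit 10,nat_lit 9],[nat_lit 7,nat_lit 11,nat_lit 8],[nat_lit 7,nat_lit 11,nat_lit 9],[nat_lit 8,nat_lit 11,
    nat_lit 12],[nat_lit 8,nat_lit 11,nat_lit 13],[nat_lit 8,nat_lit 12,nat_lit 10],[nat_lit 8,nat_lit 12,nat_lit 11],
    [nat_lit 8,nat_lit 13,nat_lit 10],[nat_lit 8,nat_lit 13,nat_lit 11],[nat_lit 9,nat_lit 10,nat_lit 12],[nat_lit 9,
    nat_lit 10,nat_lit 13],[nat_lit 9,nat_lit 11,nat_lit 12],[nat_lit 9,nat_lit 11,nat_lit 13],[nat_lit 9,nat_lit 12,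
    nat_lit 10],[nat_lit 9,nat_lit 13,nat_lit 10]]
    [nat_lit 0x1008,nat_lit 0x1009,nat_lit 0x10505,nat_lit 0x1080,nat_lit 0x1090,nat_lit 0x1118,nat_lit 0x1119,
    nat_lit 0x11414,nat_lit 0x1181,nat_lit 0x1191,nat_lit 294,nat_lit 295,nat_lit 300,nat_lit 301,nat_lit 310,
    nat_lit 311,nat_lit 316,nat_lit 317,nat_lit 0x1447a,nat_lit 0x144a6,nat_lit 0x144a7,nat_lit 0x144ac,
    nat_lit 0x144ad,nat_lit 0x144b7,nat_lit 0x144bc,nat_lit 0x1464a,nat_lit 0x1474a,nat_lit 0x1474b,nat_lit 0x147a4,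
    nat_lit 0x14a46,nat_lit 0x14a47,nat_lit 0x14a4d,nat_lit 0x14a56,nat_lit 0x14a57,nat_lit 0x14a64,nat_lit 0x14a74,
    nat_lit 0x14ac4,nat_lit 0x14ad4,nat_lit 0x14b47,nat_lit 0x14b56,nat_lit 0x14b57,nat_lit 0x14b74,nat_lit 0x14bc4,
    nat_lit 0x14d4a,nat_lit 0x1556a,nat_lit 0x1556b,nat_lit 0x1557b,nat_lit 0x155b6,nat_lit 0x155cb,nat_lit 0x155da,
    nat_lit 0x155db,nat_lit 0x1565a,nat_lit 0x1565b,nat_lit 0x156a5,nat_lit 0x156b5,nat_lit 0x1575b,nat_lit 0x157b5,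
    nat_lit 0x15a56,nat_lit 0x15b56,nat_lit 0x15b57,nat_lit 0x15b5c,nat_lit 0x15b65,nat_lit 0x15c5b,nat_lit 0x15cb5,
    nat_lit 0x15da5,nat_lit 0x15db5,nat_lit 0x168a,nat_lit 0x168b,nat_lit 0x169a,nat_lit 0x169b,nat_lit 0x16a8,
    nat_lit 0x16a9,nat_lit 0x16b8,nat_lit 0x16b9,nat_lit 0x178a,nat_lit 0x178b,nat_lit 0x179a,nat_lit 0x179b,
    nat_lit 0x17a8,nat_lit 0x17a9,nat_lit 0x17b8,nat_lit 0x17b9,nat_lit 0x18bc,nat_lit 0x18bd,nat_lit 0x18ca,
    nat_lit 0x18cb,nat_lit 0x18da,nat_lit 0x18db,nat_lit 0x19ac,nat_lit 0x19ad,nat_lit 0x19bc,nat_lit 0x19bd,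
    nat_lit 0x19ca,nat_lit 0x19da]
    [[[nat_lit 0,nat_lit 0,nat_lit 8],[nat_lit 0,nat_lit 0,nat_lit 9],[nat_lit 0,nat_lit 5,nat_lit 0,nat_lit 5],
    [nat_lit 0,nat_lit 8,nat_lit 0],[nat_lit 0,nat_lit 9,nat_lit 0],[nat_lit 1,nat_lit 1,nat_lit 8],[nat_lit 1,
    nat_lit 1,nat_lit 9],[nat_lit 1,nat_lit 4,nat_lit 1,nat_lit 4],[nat_lit 1,nat_lit 8,nat_lit 1],[nat_lit 1,
    nat_lit 9,nat_lit 1],[nat_lit 2,nat_lit 6],[nat_lit 2,nat_lit 7]],[[nat_lit 2,nat_lit 12],[nat_lit 2,nat_lit 13],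
    [nat_lit 3,nat_lit 6],[nat_lit 3,nat_lit 7],[nat_lit 3,nat_lit 12],[nat_lit 3,nat_lit 13],[nat_lit 4,nat_lit 1,
    nat_lit 4,nat_lit 1],[nat_lit 4,nat_lit 4,nat_lit 7,nat_lit 10],[nat_lit 4,nat_lit 4,nat_lit 10,nat_lit 6],
    [nat_lit 4,nat_lit 4,nat_lit 10,nat_lit 7],[nat_lit 4,nat_lit 4,nat_lit 10,nat_lit 12],[nat_lit 4,nat_lit 4,
    nat_lit 10,nat_lit 13]],[[nat_lit 4,nat_lit 4,nat_lit 11,nat_lit 7],[nat_lit 4,nat_lit 4,nat_lit 11,nat_lit 12],
    [nat_lit 4,nat_lit 6,nat_lit 4,nat_lit 10],[nat_lit 4,nat_lit 7,nat_lit 4,nat_lit 10],[nat_lit 4,nat_lit 7,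
    nat_lit 4,nat_lit 11],[nat_lit 4,nat_lit 7,nat_lit 10,nat_lit 4],[nat_lit 4,nat_lit 10,nat_lit 4,nat_lit 6],
    [nat_lit 4,nat_lit 10,nat_lit 4,nat_lit 7],[nat_lit 4,nat_lit 10,nat_lit 4,nat_lit 13],[nat_lit 4,nat_lit 10,
    nat_lit 5,nat_lit 6],[nat_lit 4,nat_lit 10,nat_lit 5,nat_lit 7],[nat_lit 4,nat_lit 10,nat_lit 6,nat_lit 4]],
    [[nat_lit 4,nat_lit 10,nat_lit 7,nat_lit 4],[nat_lit 4,nat_lit 10,nat_lit 12,nat_lit 4],[nat_lit 4,nat_lit 10,
    nat_lit 13,nat_lit 4],[nat_lit 4,nat_lit 11,nat_lit 4,nat_lit 7],[nat_lit 4,nat_lit 11,nat_lit 5,nat_lit 6],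
    [nat_lit 4,nat_lit 11,nat_lit 5,nat_lit 7],[nat_lit 4,nat_lit 11,nat_lit 7,nat_lit 4],[nat_lit 4,nat_lit 11,
    nat_lit 12,nat_lit 4],[nat_lit 4,nat_lit 13,nat_lit 4,nat_lit 10],[nat_lit 5,nat_lit 0,nat_lit 5,nat_lit 0],
    [nat_lit 5,nat_lit 5,nat_lit 6,nat_lit 10],[nat_lit 5,nat_lit 5,nat_lit 6,nat_lit 11]],[[nat_lit 5,nat_lit 5,
    nat_lit 7,nat_lit 11],[nat_lit 5,nat_lit 5,nat_lit 11,nat_lit 6],[nat_lit 5,nat_lit 5,nat_lit 12,nat_lit 11],
    [nat_lit 5,nat_lit 5,nat_lit 13,nat_lit 10],[nat_lit 5,nat_lit 5,nat_lit 13,nat_lit 11],[nat_lit 5,nat_lit 6,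
    nat_lit 4,nat_lit 10],[nat_lit 5,nat_lit 6,nat_lit 4,nat_lit 11],[nat_lit 5,nat_lit 6,nat_lit 5,nat_lit 10],
    [nat_lit 5,nat_lit 6,nat_lit 5,nat_lit 11],[nat_lit 5,nat_lit 6,nat_lit 10,nat_lit 5],[nat_lit 5,nat_lit 6,
    nat_lit 11,nat_lit 5],[nat_lit 5,nat_lit 7,nat_lit 4,nat_lit 10]],[[nat_lit 5,nat_lit 7,nat_lit 4,nat_lit 11],
    [nat_lit 5,nat_lit 7,nat_lit 5,nat_lit 11],[nat_lit 5,nat_lit 7,nat_lit 11,nat_lit 5],[nat_lit 5,nat_lit 10,
    nat_lit 5,nat_lit 6],[nat_lit 5,nat_lit 11,nat_lit 5,nat_lit 6],[nat_lit 5,nat_lit 11,nat_lit 5,nat_lit 7],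
    [nat_lit 5,nat_lit 11,nat_lit 5,nat_lit 12],[nat_lit 5,nat_lit 11,nat_lit 6,nat_lit 5],[nat_lit 5,nat_lit 12,
    nat_lit 5,nat_lit 11],[nat_lit 5,nat_lit 12,nat_lit 11,nat_lit 5],[nat_lit 5,nat_lit 13,nat_lit 10,nat_lit 5],
    [nat_lit 5,nat_lit 13,nat_lit 11,nat_lit 5]],[[nat_lit 6,nat_lit 2],[nat_lit 6,nat_lit 3],[nat_lit 6,nat_lit 4,
    nat_lit 4,nat_lit 10],[nat_lit 6,nat_lit 4,nat_lit 10,nat_lit 4],[nat_lit 6,nat_lit 4,nat_lit 10,nat_lit 5],
    [nat_lit 6,nat_lit 4,nat_lit 11,nat_lit 5],[nat_lit 6,nat_lit 5,nat_lit 5,nat_lit 11],[nat_lit 6,nat_lit 5,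
    nat_lit 10,nat_lit 5],[nat_lit 6,nat_lit 5,nat_lit 11,nat_lit 5],[nat_lit 6,nat_lit 8,nat_lit 10],[nat_lit 6,
    nat_lit 8,nat_lit 11],[nat_lit 6,nat_lit 9,nat_lit 10]],[[nat_lit 6,nat_lit 9,nat_lit 11],[nat_lit 6,nat_lit 10,
    nat_lit 5,nat_lit 5],[nat_lit 6,nat_lit 10,nat_lit 8],[nat_lit 6,nat_lit 10,nat_lit 9],[nat_lit 6,nat_lit 11,
    nat_lit 5,nat_lit 5],[nat_lit 6,nat_lit 11,nat_lit 8],[nat_lit 6,nat_lit 11,nat_lit 9],[nat_lit 7,nat_lit 2],
    [nat_lit 7,nat_lit 3],[nat_lit 7,nat_lit 4,nat_lit 4,nat_lit 10],[nat_lit 7,nat_lit 4,nat_lit 4,nat_lit 11],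
    [nat_lit 7,nat_lit 4,nat_lit 10,nat_lit 4]],[[nat_lit 7,nat_lit 4,nat_lit 10,nat_lit 5],[nat_lit 7,nat_lit 4,
    nat_lit 11,nat_lit 4],[nat_lit 7,nat_lit 4,nat_lit 11,nat_lit 5],[nat_lit 7,nat_lit 5,nat_lit 11,nat_lit 5],
    [nat_lit 7,nat_lit 8,nat_lit 10],[nat_lit 7,nat_lit 8,nat_lit 11],[nat_lit 7,nat_lit 9,nat_lit 10],[nat_lit 7,
    nat_lit 9,nat_lit 11],[nat_lit 7,nat_lit 10,nat_lit 4,nat_lit 4],[nat_lit 7,nat_lit 10,nat_lit 8],[nat_lit 7,
    nat_lit 10,nat_lit 9],[nat_lit 7,nat_lit 11,nat_lit 5,nat_lit 5]],[[nat_lit 7,nat_lit 11,nat_lit 8],[nat_lit 7,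
    nat_lit 11,nat_lit 9],[nat_lit 8,nat_lit 0,nat_lit 0],[nat_lit 8,nat_lit 1,nat_lit 1],[nat_lit 8,nat_lit 6,
    nat_lit 10],[nat_lit 8,nat_lit 6,nat_lit 11],[nat_lit 8,nat_lit 7,nat_lit 10],[nat_lit 8,nat_lit 7,nat_lit 11],
    [nat_lit 8,nat_lit 10,nat_lit 6],[nat_lit 8,nat_lit 10,nat_lit 7],[nat_lit 8,nat_lit 11,nat_lit 6],[nat_lit 8,
    nat_lit 11,nat_lit 7]],[[nat_lit 8,nat_lit 11,nat_lit 12],[nat_lit 8,nat_lit 11,nat_lit 13],[nat_lit 8,nat_lit 12,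
    nat_lit 10],[nat_lit 8,nat_lit 12,nat_lit 11],[nat_lit 8,nat_lit 13,nat_lit 10],[nat_lit 8,nat_lit 13,nat_lit 11],
    [nat_lit 9,nat_lit 0,nat_lit 0],[nat_lit 9,nat_lit 1,nat_lit 1],[nat_lit 9,nat_lit 6,nat_lit 10],[nat_lit 9,
    nat_lit 6,nat_lit 11],[nat_lit 9,nat_lit 7,nat_lit 10],[nat_lit 9,nat_lit 7,nat_lit 11]],[[nat_lit 9,nat_lit 10,
    nat_lit 6],[nat_lit 9,nat_lit 10,nat_lit 7],[nat_lit 9,nat_lit 10,nat_lit 12],[nat_lit 9,nat_lit 10,nat_lit 13],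
    [nat_lit 9,nat_lit 11,nat_lit 6],[nat_lit 9,nat_lit 11,nat_lit 7],[nat_lit 9,nat_lit 11,nat_lit 12],[nat_lit 9,
    nat_lit 11,nat_lit 13],[nat_lit 9,nat_lit 12,nat_lit 10],[nat_lit 9,nat_lit 13,nat_lit 10],[nat_lit 10,nat_lit 4,
    nat_lit 4,nat_lit 7],[nat_lit 10,nat_lit 4,nat_lit 6,nat_lit 4]],[[nat_lit 10,nat_lit 4,nat_lit 7,nat_lit 4],
    [nat_lit 10,nat_lit 4,nat_lit 13,nat_lit 4],[nat_lit 10,nat_lit 5,nat_lit 5,nat_lit 6],[nat_lit 10,nat_lit 5,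
    nat_lit 5,nat_lit 13],[nat_lit 10,nat_lit 5,nat_lit 6,nat_lit 4],[nat_lit 10,nat_lit 5,nat_lit 6,nat_lit 5],
    [nat_lit 10,nat_lit 5,nat_lit 7,nat_lit 4],[nat_lit 10,nat_lit 6,nat_lit 4,nat_lit 4],[nat_lit 10,nat_lit 6,
    nat_lit 8],[nat_lit 10,nat_lit 6,nat_lit 9],[nat_lit 10,nat_lit 7,nat_lit 4,nat_lit 4],[nat_lit 10,nat_lit 7,
    nat_lit 8]],[[nat_lit 10,nat_lit 7,nat_lit 9],[nat_lit 10,nat_lit 8,nat_lit 6],[nat_lit 10,nat_lit 8,nat_lit 7],
    [nat_lit 10,nat_lit 8,nat_lit 12],[nat_lit 10,nat_lit 8,nat_lit 13],[nat_lit 10,nat_lit 9,nat_lit 6],[nat_lit 10,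
    nat_lit 9,nat_lit 7],[nat_lit 10,nat_lit 9,nat_lit 12],[nat_lit 10,nat_lit 9,nat_lit 13],[nat_lit 10,nat_lit 12,
    nat_lit 4,nat_lit 4],[nat_lit 10,nat_lit 12,nat_lit 9],[nat_lit 10,nat_lit 13,nat_lit 4,nat_lit 4]],[[nat_lit 10,
    nat_lit 13,nat_lit 9],[nat_lit 11,nat_lit 4,nat_lit 7,nat_lit 4],[nat_lit 11,nat_lit 5,nat_lit 5,nat_lit 6],
    [nat_lit 11,nat_lit 5,nat_lit 5,nat_lit 7],[nat_lit 11,nat_lit 5,nat_lit 5,nat_lit 12],[nat_lit 11,nat_lit 5,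
    nat_lit 5,nat_lit 13],[nat_lit 11,nat_lit 5,nat_lit 6,nat_lit 4],[nat_lit 11,nat_lit 5,nat_lit 6,nat_lit 5],
    [nat_lit 11,nat_lit 5,nat_lit 7,nat_lit 4],[nat_lit 11,nat_lit 5,nat_lit 7,nat_lit 5],[nat_lit 11,nat_lit 5,
    nat_lit 12,nat_lit 5],[nat_lit 11,nat_lit 6,nat_lit 5,nat_lit 5]],[[nat_lit 11,nat_lit 6,nat_lit 8],[nat_lit 11,
    nat_lit 6,nat_lit 9],[nat_lit 11,nat_lit 7,nat_lit 4,nat_lit 4],[nat_lit 11,nat_lit 7,nat_lit 8],[nat_lit 11,
    nat_lit 7,nat_lit 9],[nat_lit 11,nat_lit 8,nat_lit 6],[nat_lit 11,nat_lit 8,nat_lit 7],[nat_lit 11,nat_lit 8,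
    nat_lit 12],[nat_lit 11,nat_lit 8,nat_lit 13],[nat_lit 11,nat_lit 9,nat_lit 6],[nat_lit 11,nat_lit 9,nat_lit 7],
    [nat_lit 11,nat_lit 12,nat_lit 4,nat_lit 4]],[[nat_lit 11,nat_lit 12,nat_lit 8],[nat_lit 11,nat_lit 12,nat_lit 9],
    [nat_lit 11,nat_lit 13,nat_lit 8],[nat_lit 11,nat_lit 13,nat_lit 9],[nat_lit 12,nat_lit 2],[nat_lit 12,nat_lit 3],
    [nat_lit 12,nat_lit 4,nat_lit 4,nat_lit 10],[nat_lit 12,nat_lit 4,nat_lit 4,nat_lit 11],[nat_lit 12,nat_lit 5,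
    nat_lit 11,nat_lit 5],[nat_lit 12,nat_lit 8,nat_lit 11],[nat_lit 12,nat_lit 9,nat_lit 10],[nat_lit 12,nat_lit 9,
    nat_lit 11]],[[nat_lit 12,nat_lit 10,nat_lit 8],[nat_lit 12,nat_lit 10,nat_lit 9],[nat_lit 12,nat_lit 11,
    nat_lit 5,nat_lit 5],[nat_lit 12,nat_lit 11,nat_lit 8],[nat_lit 13,nat_lit 2],[nat_lit 13,nat_lit 3],[nat_lit 13,
    nat_lit 4,nat_lit 4,nat_lit 10],[nat_lit 13,nat_lit 4,nat_lit 10,nat_lit 4],[nat_lit 13,nat_lit 8,nat_lit 11],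
    [nat_lit 13,nat_lit 9,nat_lit 10],[nat_lit 13,nat_lit 9,nat_lit 11],[nat_lit 13,nat_lit 10,nat_lit 5,nat_lit 5]],
    [[nat_lit 13,nat_lit 10,nat_lit 8],[nat_lit 13,nat_lit 10,nat_lit 9],[nat_lit 13,nat_lit 11,nat_lit 5,nat_lit 5],
    [nat_lit 13,nat_lit 11,nat_lit 8]]]
    [[nat_lit 3,nat_lit 4,nat_lit 45,nat_lit 110,nat_lit 126,nat_lit 8,nat_lit 9,nat_lit 18,nat_lit 111,nat_lit 127,
    nat_lit 72,nat_lit 91],[nat_lit 196,nat_lit 208,nat_lit 73,nat_lit 92,nat_lit 197,nat_lit 209,nat_lit 7,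
    nat_lit 29,nat_lit 35,nat_lit 36,nat_lit 37,nat_lit 38],[nat_lit 42,nat_lit 43,nat_lit 75,nat_lit 95,nat_lit 97,
    nat_lit 104,nat_lit 143,nat_lit 144,nat_lit 145,nat_lit 148,nat_lit 150,nat_lit 151],[nat_lit 154,nat_lit 165,
    nat_lit 167,nat_lit 169,nat_lit 174,nat_lit 176,nat_lit 182,nat_lit 191,nat_lit 211,nat_lit 2,nat_lit 57,
    nat_lit 58],[nat_lit 62,nat_lit 67,nat_lit 69,nat_lit 70,nat_lit 71,nat_lit 76,nat_lit 77,nat_lit 79,nat_lit 80,
    nat_lit 85,nat_lit 88,nat_lit 96],[nat_lit 98,nat_lit 99,nat_lit 107,nat_lit 149,nat_lit 175,nat_lit 177,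
    nat_lit 178,nat_lit 179,nat_lit 200,nat_lit 206,nat_lit 215,nat_lit 218],[nat_lit 10,nat_lit 14,nat_lit 20,
    nat_lit 30,nat_lit 33,nat_lit 40,nat_lit 49,nat_lit 63,nat_lit 64,nat_lit 116,nat_lit 118,nat_lit 132],
    [nat_lit 136,nat_lit 146,nat_lit 157,nat_lit 161,nat_lit 170,nat_lit 185,nat_lit 189,nat_lit 11,nat_lit 15,
    nat_lit 21,nat_lit 24,nat_lit 31],[nat_lit 34,nat_lit 39,nat_lit 41,nat_lit 65,nat_lit 117,nat_lit 119,
    nat_lit 133,nat_lit 137,nat_lit 142,nat_lit 158,nat_lit 162,nat_lit 171],[nat_lit 186,nat_lit 190,nat_lit 0,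
    nat_lit 5,nat_lit 86,nat_lit 89,nat_lit 105,nat_lit 108,nat_lit 152,nat_lit 155,nat_lit 180,nat_lit 183],
    [nat_lit 192,nat_lit 194,nat_lit 204,nat_lit 207,nat_lit 216,nat_lit 219,nat_lit 1,nat_lit 6,nat_lit 87,
    nat_lit 90,nat_lit 106,nat_lit 109],[nat_lit 153,nat_lit 156,nat_lit 166,nat_lit 168,nat_lit 181,nat_lit 184,
    nat_lit 193,nat_lit 195,nat_lit 205,nat_lit 217,nat_lit 19,nat_lit 26],[nat_lit 27,nat_lit 44,nat_lit 46,
    nat_lit 51,nat_lit 53,nat_lit 55,nat_lit 59,nat_lit 74,nat_lit 81,nat_lit 83,nat_lit 93,nat_lit 100],[nat_lit 102,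
    nat_lit 112,nat_lit 114,nat_lit 122,nat_lit 124,nat_lit 128,nat_lit 130,nat_lit 140,nat_lit 141,nat_lit 198,
    nat_lit 202,nat_lit 210],[nat_lit 213,nat_lit 28,nat_lit 47,nat_lit 48,nat_lit 50,nat_lit 52,nat_lit 54,
    nat_lit 56,nat_lit 60,nat_lit 61,nat_lit 68,nat_lit 78],[nat_lit 82,nat_lit 84,nat_lit 94,nat_lit 101,nat_lit 103,
    nat_lit 113,nat_lit 115,nat_lit 123,nat_lit 125,nat_lit 129,nat_lit 131,nat_lit 199],[nat_lit 201,nat_lit 203,
    nat_lit 212,nat_lit 214,nat_lit 12,nat_lit 16,nat_lit 22,nat_lit 25,nat_lit 66,nat_lit 120,nat_lit 134,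
    nat_lit 138],[nat_lit 159,nat_lit 163,nat_lit 172,nat_lit 187,nat_lit 13,nat_lit 17,nat_lit 23,nat_lit 32,
    nat_lit 121,nat_lit 135,nat_lit 139,nat_lit 147],[nat_lit 160,nat_lit 164,nat_lit 173,nat_lit 188]]
    [[nat_lit 110,nat_lit 126,nat_lit 45,nat_lit 0,nat_lit 1,nat_lit 111,nat_lit 127,nat_lit 18,nat_lit 5,nat_lit 6,
    nat_lit 72,nat_lit 91],[nat_lit 196,nat_lit 208,nat_lit 73,nat_lit 92,nat_lit 197,nat_lit 209,nat_lit 7,
    nat_lit 142,nat_lit 74,nat_lit 93,nat_lit 198,nat_lit 210],[nat_lit 94,nat_lit 199,nat_lit 143,nat_lit 144,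
    nat_lit 169,nat_lit 19,nat_lit 75,nat_lit 95,nat_lit 211,nat_lit 76,nat_lit 96,nat_lit 20],[nat_lit 21,nat_lit 22,
    nat_lit 23,nat_lit 97,nat_lit 77,nat_lit 98,nat_lit 24,nat_lit 25,nat_lit 145,nat_lit 2,nat_lit 146,nat_lit 170],
    [nat_lit 171,nat_lit 78,nat_lit 172,nat_lit 147,nat_lit 173,nat_lit 148,nat_lit 174,nat_lit 149,nat_lit 175,
    nat_lit 46,nat_lit 47,nat_lit 150],[nat_lit 176,nat_lit 177,nat_lit 48,nat_lit 79,nat_lit 80,nat_lit 99,
    nat_lit 200,nat_lit 49,nat_lit 178,nat_lit 50,nat_lit 51,nat_lit 52],[nat_lit 10,nat_lit 14,nat_lit 151,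
    nat_lit 26,nat_lit 53,nat_lit 54,nat_lit 179,nat_lit 55,nat_lit 56,nat_lit 152,nat_lit 180,nat_lit 153],
    [nat_lit 181,nat_lit 57,nat_lit 112,nat_lit 128,nat_lit 58,nat_lit 113,nat_lit 129,nat_lit 11,nat_lit 15,
    nat_lit 154,nat_lit 182,nat_lit 27],[nat_lit 59,nat_lit 28,nat_lit 60,nat_lit 61,nat_lit 155,nat_lit 183,
    nat_lit 156,nat_lit 184,nat_lit 29,nat_lit 114,nat_lit 130,nat_lit 62],[nat_lit 115,nat_lit 131,nat_lit 3,
    nat_lit 8,nat_lit 157,nat_lit 185,nat_lit 158,nat_lit 186,nat_lit 81,nat_lit 100,nat_lit 82,nat_lit 101],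
    [nat_lit 201,nat_lit 212,nat_lit 159,nat_lit 187,nat_lit 160,nat_lit 188,nat_lit 4,nat_lit 9,nat_lit 161,
    nat_lit 189,nat_lit 162,nat_lit 190],[nat_lit 83,nat_lit 102,nat_lit 202,nat_lit 213,nat_lit 84,nat_lit 103,
    nat_lit 203,nat_lit 214,nat_lit 163,nat_lit 164,nat_lit 104,nat_lit 30],[nat_lit 31,nat_lit 32,nat_lit 85,
    nat_lit 215,nat_lit 33,nat_lit 63,nat_lit 34,nat_lit 35,nat_lit 116,nat_lit 132,nat_lit 36,nat_lit 117],
    [nat_lit 133,nat_lit 86,nat_lit 105,nat_lit 204,nat_lit 216,nat_lit 87,nat_lit 106,nat_lit 205,nat_lit 217,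
    nat_lit 37,nat_lit 134,nat_lit 38],[nat_lit 135,nat_lit 39,nat_lit 88,nat_lit 107,nat_lit 206,nat_lit 218,
    nat_lit 40,nat_lit 64,nat_lit 41,nat_lit 65,nat_lit 66,nat_lit 67],[nat_lit 118,nat_lit 136,nat_lit 42,
    nat_lit 119,nat_lit 137,nat_lit 89,nat_lit 108,nat_lit 207,nat_lit 219,nat_lit 90,nat_lit 109,nat_lit 43],
    [nat_lit 120,nat_lit 138,nat_lit 121,nat_lit 139,nat_lit 12,nat_lit 16,nat_lit 165,nat_lit 191,nat_lit 68,
    nat_lit 192,nat_lit 166,nat_lit 193],[nat_lit 122,nat_lit 140,nat_lit 69,nat_lit 123,nat_lit 13,nat_lit 17,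
    nat_lit 167,nat_lit 44,nat_lit 194,nat_lit 168,nat_lit 195,nat_lit 70],[nat_lit 124,nat_lit 141,nat_lit 71,
    nat_lit 125]]
    [[[nat_lit 196],[nat_lit 196],[nat_lit 197],[nat_lit 198,nat_lit 202],[],[nat_lit 17],[nat_lit 17],[nat_lit 14],
    [],[nat_lit 15],[nat_lit 0],[nat_lit 2]],[[nat_lit 3,nat_lit 4],[],[],[nat_lit 57,nat_lit 58,nat_lit 62,
    nat_lit 67,nat_lit 69,nat_lit 70,nat_lit 71],[nat_lit 45],[nat_lit 47,nat_lit 48,nat_lit 50,nat_lit 52,nat_lit 54,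
    nat_lit 56,nat_lit 60,nat_lit 61,nat_lit 68],[nat_lit 13],[nat_lit 10],[nat_lit 10],[nat_lit 10],[nat_lit 10],
    [nat_lit 10]],[[nat_lit 10],[nat_lit 10],[],[],[],[],[nat_lit 12],[nat_lit 12],[nat_lit 12],[nat_lit 12],
    [nat_lit 12],[nat_lit 12]],[[nat_lit 12],[nat_lit 12],[nat_lit 12],[],[],[],[],[],[],[nat_lit 91],[nat_lit 92],
    [nat_lit 92]],[[nat_lit 92],[nat_lit 92],[nat_lit 92],[nat_lit 92],[nat_lit 92],[nat_lit 105,nat_lit 108],
    [nat_lit 105,nat_lit 108],[nat_lit 105,nat_lit 108],[nat_lit 105,nat_lit 108],[nat_lit 105,nat_lit 108],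
    [nat_lit 105,nat_lit 108],[nat_lit 96,nat_lit 98,nat_lit 99,nat_lit 107]],[[nat_lit 96,nat_lit 98,nat_lit 99,
    nat_lit 107],[nat_lit 96,nat_lit 98,nat_lit 99,nat_lit 107],[nat_lit 96,nat_lit 98,nat_lit 99,nat_lit 107],[],
    [nat_lit 106,nat_lit 109],[nat_lit 106,nat_lit 109],[nat_lit 106,nat_lit 109],[nat_lit 106,nat_lit 109],[],[],
    [nat_lit 94,nat_lit 101,nat_lit 103],[nat_lit 94,nat_lit 101,nat_lit 103]],[[nat_lit 29,nat_lit 35,nat_lit 36,
    nat_lit 37,nat_lit 38,nat_lit 42,nat_lit 43],[nat_lit 18],[nat_lit 20,nat_lit 30,nat_lit 33,nat_lit 40],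
    [nat_lit 20,nat_lit 30,nat_lit 33,nat_lit 40],[nat_lit 20,nat_lit 30,nat_lit 33,nat_lit 40],[nat_lit 20,
    nat_lit 30,nat_lit 33,nat_lit 40],[],[],[],[nat_lit 19,nat_lit 26,nat_lit 27,nat_lit 44],[nat_lit 19,nat_lit 26,
    nat_lit 27,nat_lit 44],[nat_lit 21,nat_lit 24,nat_lit 31,nat_lit 34,nat_lit 39,nat_lit 41]],[[nat_lit 21,
    nat_lit 24,nat_lit 31,nat_lit 34,nat_lit 39,nat_lit 41],[nat_lit 22,nat_lit 25],[nat_lit 22,nat_lit 25],
    [nat_lit 22,nat_lit 25],[],[],[],[],[nat_lit 127],[nat_lit 132,nat_lit 136],[nat_lit 132,nat_lit 136],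
    [nat_lit 132,nat_lit 136]],[[nat_lit 132,nat_lit 136],[nat_lit 132,nat_lit 136],[nat_lit 132,nat_lit 136],[],
    [nat_lit 128,nat_lit 130,nat_lit 140,nat_lit 141],[nat_lit 128,nat_lit 130,nat_lit 140,nat_lit 141],[nat_lit 133,
    nat_lit 137],[nat_lit 133,nat_lit 137],[nat_lit 134,nat_lit 138],[nat_lit 134,nat_lit 138],[nat_lit 134,
    nat_lit 138],[]],[[],[],[nat_lit 72],[],[nat_lit 86,nat_lit 89],[nat_lit 86,nat_lit 89],[nat_lit 76,nat_lit 77,
    nat_lit 79,nat_lit 80,nat_lit 85,nat_lit 88],[nat_lit 76,nat_lit 77,nat_lit 79,nat_lit 80,nat_lit 85,nat_lit 88],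
    [],[],[nat_lit 87,nat_lit 90],[nat_lit 87,nat_lit 90]],[[nat_lit 87,nat_lit 90],[nat_lit 87,nat_lit 90],[],[],
    [nat_lit 78,nat_lit 82,nat_lit 84],[nat_lit 78,nat_lit 82,nat_lit 84],[],[nat_lit 173,nat_lit 188],[nat_lit 180,
    nat_lit 183,nat_lit 192,nat_lit 194],[nat_lit 180,nat_lit 183,nat_lit 192,nat_lit 194],[nat_lit 175,nat_lit 177,
    nat_lit 178,nat_lit 179],[nat_lit 175,nat_lit 177,nat_lit 178,nat_lit 179]],[[nat_lit 172,nat_lit 187],
    [nat_lit 172,nat_lit 187],[nat_lit 172,nat_lit 187],[nat_lit 172,nat_lit 187],[nat_lit 181,nat_lit 184,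
    nat_lit 193,nat_lit 195],[nat_lit 181,nat_lit 184,nat_lit 193,nat_lit 195],[nat_lit 181,nat_lit 184,nat_lit 193,
    nat_lit 195],[nat_lit 181,nat_lit 184,nat_lit 193,nat_lit 195],[],[],[nat_lit 116,nat_lit 118],[nat_lit 116,
    nat_lit 118]],[[nat_lit 116,nat_lit 118],[nat_lit 116,nat_lit 118],[],[],[],[],[],[],[],[],[],[]],[[],
    [nat_lit 112,nat_lit 114,nat_lit 122,nat_lit 124],[nat_lit 112,nat_lit 114,nat_lit 122,nat_lit 124],[nat_lit 112,
    nat_lit 114,nat_lit 122,nat_lit 124],[nat_lit 112,nat_lit 114,nat_lit 122,nat_lit 124],[nat_lit 117,nat_lit 119],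
    [nat_lit 117,nat_lit 119],[nat_lit 117,nat_lit 119],[nat_lit 117,nat_lit 119],[nat_lit 110],[nat_lit 110],
    [nat_lit 113,nat_lit 115,nat_lit 123,nat_lit 125]],[[nat_lit 113,nat_lit 115,nat_lit 123,nat_lit 125],[],
    [nat_lit 209],[nat_lit 209],[nat_lit 209],[nat_lit 209],[nat_lit 209],[nat_lit 209],[nat_lit 209],[nat_lit 209],
    [nat_lit 209],[nat_lit 216,nat_lit 219]],[[nat_lit 216,nat_lit 219],[nat_lit 216,nat_lit 219],[nat_lit 215,
    nat_lit 218],[nat_lit 215,nat_lit 218],[nat_lit 215,nat_lit 218],[nat_lit 210,nat_lit 213],[nat_lit 210,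
    nat_lit 213],[nat_lit 210,nat_lit 213],[nat_lit 210,nat_lit 213],[],[],[]],[[],[],[nat_lit 212,nat_lit 214],
    [nat_lit 212,nat_lit 214],[nat_lit 143,nat_lit 144,nat_lit 145,nat_lit 148,nat_lit 150,nat_lit 151,nat_lit 154,
    nat_lit 165,nat_lit 167],[],[nat_lit 146,nat_lit 157,nat_lit 161],[nat_lit 146,nat_lit 157,nat_lit 161],[],[],
    [nat_lit 142,nat_lit 158,nat_lit 162],[nat_lit 142,nat_lit 158,nat_lit 162]],[[nat_lit 159,nat_lit 163],
    [nat_lit 159,nat_lit 163],[nat_lit 153,nat_lit 156,nat_lit 166,nat_lit 168],[nat_lit 153,nat_lit 156,nat_lit 166,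
    nat_lit 168],[nat_lit 7],[nat_lit 8,nat_lit 9],[],[],[],[],[],[]],[[],[],[nat_lit 6],[nat_lit 6]]]
    (nat_lit 220) [nat_lit 0,nat_lit 1,nat_lit 2,nat_lit 3,nat_lit 4,nat_lit 5,nat_lit 6,nat_lit 7,nat_lit 8,
    nat_lit 9,nat_lit 10,nat_lit 11,nat_lit 12,nat_lit 13,nat_lit 14,nat_lit 15,nat_lit 16,nat_lit 17,nat_lit 19,
    nat_lit 20,nat_lit 21,nat_lit 22,nat_lit 23,nat_lit 24,nat_lit 25,nat_lit 26,nat_lit 27,nat_lit 28,nat_lit 29,
    nat_lit 30,nat_lit 31,nat_lit 32,nat_lit 33,nat_lit 34,nat_lit 35,nat_lit 36,nat_lit 37,nat_lit 38,nat_lit 39,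
    nat_lit 40,nat_lit 41,nat_lit 42,nat_lit 43,nat_lit 44,nat_lit 46,nat_lit 47,nat_lit 48,nat_lit 49,nat_lit 50,
    nat_lit 51,nat_lit 52,nat_lit 55,nat_lit 56,nat_lit 57,nat_lit 58,nat_lit 61,nat_lit 62,nat_lit 63,nat_lit 64,
    nat_lit 65,nat_lit 66,nat_lit 67,nat_lit 68,nat_lit 69,nat_lit 70,nat_lit 71,nat_lit 81,nat_lit 82,nat_lit 83,
    nat_lit 84,nat_lit 86,nat_lit 87,nat_lit 89,nat_lit 90,nat_lit 100,nat_lit 101,nat_lit 102,nat_lit 103,
    nat_lit 105,nat_lit 106,nat_lit 108,nat_lit 109,nat_lit 120,nat_lit 121,nat_lit 122,nat_lit 123,nat_lit 124,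
    nat_lit 125,nat_lit 134,nat_lit 135,nat_lit 138,nat_lit 139,nat_lit 140,nat_lit 141]
    [[[nat_lit 3,nat_lit 4],[],[],[],[],[nat_lit 2],[],[],[nat_lit 0],[nat_lit 1],[],[],[],[]],[[],[nat_lit 8,
    nat_lit 9],[],[],[nat_lit 7],[],[],[],[nat_lit 5],[nat_lit 6],[],[],[],[]],[[],[],[],[],[],[],[nat_lit 10],
    [nat_lit 11],[],[],[],[],[nat_lit 12],[nat_lit 13]],[[],[],[],[],[],[],[nat_lit 14],[nat_lit 15],[],[],[],[],
    [nat_lit 16],[nat_lit 17]],[[],[nat_lit 18],[],[],[nat_lit 29,nat_lit 35,nat_lit 36,nat_lit 37,nat_lit 38,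
    nat_lit 42,nat_lit 43],[],[nat_lit 20,nat_lit 30,nat_lit 33,nat_lit 40],[nat_lit 21,nat_lit 24,nat_lit 31,
    nat_lit 34,nat_lit 39,nat_lit 41],[],[],[nat_lit 19,nat_lit 26,nat_lit 27,nat_lit 44],[nat_lit 28],[nat_lit 22,
    nat_lit 25],[nat_lit 23,nat_lit 32]],[[nat_lit 45],[],[],[],[],[nat_lit 57,nat_lit 58,nat_lit 62,nat_lit 67,
    nat_lit 69,nat_lit 70,nat_lit 71],[nat_lit 49,nat_lit 63,nat_lit 64],[nat_lit 65],[],[],[nat_lit 46,nat_lit 51,
    nat_lit 53,nat_lit 55,nat_lit 59],[nat_lit 47,nat_lit 48,nat_lit 50,nat_lit 52,nat_lit 54,nat_lit 56,nat_lit 60,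
    nat_lit 61,nat_lit 68],[nat_lit 66],[]],[[],[],[nat_lit 72],[nat_lit 73],[nat_lit 75],[nat_lit 76,nat_lit 77,
    nat_lit 79,nat_lit 80,nat_lit 85,nat_lit 88],[],[],[nat_lit 86,nat_lit 89],[nat_lit 87,nat_lit 90],[nat_lit 74,
    nat_lit 81,nat_lit 83],[nat_lit 78,nat_lit 82,nat_lit 84],[],[]],[[],[],[nat_lit 91],[nat_lit 92],[nat_lit 95,
    nat_lit 97,nat_lit 104],[nat_lit 96,nat_lit 98,nat_lit 99,nat_lit 107],[],[],[nat_lit 105,nat_lit 108],
    [nat_lit 106,nat_lit 109],[nat_lit 93,nat_lit 100,nat_lit 102],[nat_lit 94,nat_lit 101,nat_lit 103],[],[]],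
    [[nat_lit 110],[nat_lit 111],[],[],[],[],[nat_lit 116,nat_lit 118],[nat_lit 117,nat_lit 119],[],[],[nat_lit 112,
    nat_lit 114,nat_lit 122,nat_lit 124],[nat_lit 113,nat_lit 115,nat_lit 123,nat_lit 125],[nat_lit 120],
    [nat_lit 121]],[[nat_lit 126],[nat_lit 127],[],[],[],[],[nat_lit 132,nat_lit 136],[nat_lit 133,nat_lit 137],[],[],
    [nat_lit 128,nat_lit 130,nat_lit 140,nat_lit 141],[nat_lit 129,nat_lit 131],[nat_lit 134,nat_lit 138],
    [nat_lit 135,nat_lit 139]],[[],[],[],[],[nat_lit 143,nat_lit 144,nat_lit 145,nat_lit 148,nat_lit 150,nat_lit 151,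
    nat_lit 154,nat_lit 165,nat_lit 167],[nat_lit 149],[nat_lit 146,nat_lit 157,nat_lit 161],[nat_lit 142,nat_lit 158,
    nat_lit 162],[nat_lit 152,nat_lit 155],[nat_lit 153,nat_lit 156,nat_lit 166,nat_lit 168],[],[],[nat_lit 159,
    nat_lit 163],[nat_lit 147,nat_lit 160,nat_lit 164]],[[],[],[],[],[nat_lit 169,nat_lit 174,nat_lit 176,nat_lit 182,
    nat_lit 191],[nat_lit 175,nat_lit 177,nat_lit 178,nat_lit 179],[nat_lit 170,nat_lit 185,nat_lit 189],[nat_lit 171,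
    nat_lit 186,nat_lit 190],[nat_lit 180,nat_lit 183,nat_lit 192,nat_lit 194],[nat_lit 181,nat_lit 184,nat_lit 193,
    nat_lit 195],[],[],[nat_lit 172,nat_lit 187],[nat_lit 173,nat_lit 188]],[[],[],[nat_lit 196],[nat_lit 197],[],
    [nat_lit 200,nat_lit 206],[],[],[nat_lit 204,nat_lit 207],[nat_lit 205],[nat_lit 198,nat_lit 202],[nat_lit 199,
    nat_lit 201,nat_lit 203],[],[]],[[],[],[nat_lit 208],[nat_lit 209],[nat_lit 211],[nat_lit 215,nat_lit 218],[],[],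
    [nat_lit 216,nat_lit 219],[nat_lit 217],[nat_lit 210,nat_lit 213],[nat_lit 212,nat_lit 214],[],[]]]
    [[[nat_lit 0x10000000000000000000000000000000000000000000000000,
    nat_lit 0x10000000000000000000000000000000000000000000000000,
    nat_lit 0x20000000000000000000000000000000000000000000000000,
    nat_lit 0x440000000000000000000000000000000000000000000000000,nat_lit 0,nat_lit 0x20000,nat_lit 0x20000,
    nat_lit 0x4000,nat_lit 0],[nat_lit 0x8000,nat_lit 1,nat_lit 4,nat_lit 24,nat_lit 0,nat_lit 0,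
    nat_lit 0xe84600000000000000,nat_lit 0x200000000000,nat_lit 0x103155800000000000],[nat_lit 0x2000,nat_lit 0x400,
    nat_lit 0x400,nat_lit 0x400,nat_lit 0x400,nat_lit 0x400,nat_lit 0x400,nat_lit 0x400,nat_lit 0],[nat_lit 0,
    nat_lit 0,nat_lit 0,nat_lit 0x1000,nat_lit 0x1000,nat_lit 0x1000,nat_lit 0x1000,nat_lit 0x1000,nat_lit 0x1000],
    [nat_lit 0x1000,nat_lit 0x1000,nat_lit 0x1000,nat_lit 0,nat_lit 0,nat_lit 0,nat_lit 0,nat_lit 0,nat_lit 0],
    [nat_lit 0x80000000000000000000000,nat_lit 0x100000000000000000000000,nat_lit 0x100000000000000000000000,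
    nat_lit 0x100000000000000000000000,nat_lit 0x100000000000000000000000,nat_lit 0x100000000000000000000000,
    nat_lit 0x100000000000000000000000,nat_lit 0x100000000000000000000000,nat_lit 0x1200000000000000000000000000],
    [nat_lit 0x1200000000000000000000000000,nat_lit 0x1200000000000000000000000000,
    nat_lit 0x1200000000000000000000000000,nat_lit 0x1200000000000000000000000000,
    nat_lit 0x1200000000000000000000000000,nat_lit 0x80d000000000000000000000000,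
    nat_lit 0x80d000000000000000000000000,nat_lit 0x80d000000000000000000000000,
    nat_lit 0x80d000000000000000000000000],[nat_lit 0,nat_lit 0x2400000000000000000000000000,
    nat_lit 0x2400000000000000000000000000,nat_lit 0x2400000000000000000000000000,
    nat_lit 0x2400000000000000000000000000,nat_lit 0,nat_lit 0,nat_lit 0xa0400000000000000000000000,
    nat_lit 0xa0400000000000000000000000],[nat_lit 0xc7820000000,nat_lit 0x40000,nat_lit 0x10240100000,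
    nat_lit 0x10240100000,nat_lit 0x10240100000,nat_lit 0x10240100000,nat_lit 0,nat_lit 0,nat_lit 0]],
    [[nat_lit 0x10000c080000,nat_lit 0x10000c080000,nat_lit 0x28481200000,nat_lit 0x28481200000,nat_lit 0x2400000,
    nat_lit 0x2400000,nat_lit 0x2400000,nat_lit 0,nat_lit 0],[nat_lit 0,nat_lit 0,
    nat_lit 0x80000000000000000000000000000000,nat_lit 0x11000000000000000000000000000000000,
    nat_lit 0x11000000000000000000000000000000000,nat_lit 0x11000000000000000000000000000000000,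
    nat_lit 0x11000000000000000000000000000000000,nat_lit 0x11000000000000000000000000000000000,
    nat_lit 0x11000000000000000000000000000000000],[nat_lit 0,nat_lit 0x300500000000000000000000000000000000,
    nat_lit 0x300500000000000000000000000000000000,nat_lit 0x22000000000000000000000000000000000,
    nat_lit 0x22000000000000000000000000000000000,nat_lit 0x44000000000000000000000000000000000,
    nat_lit 0x44000000000000000000000000000000000,nat_lit 0x44000000000000000000000000000000000,nat_lit 0],[nat_lit 0,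
    nat_lit 0,nat_lit 0x1000000000000000000,nat_lit 0,nat_lit 0x24000000000000000000000,
    nat_lit 0x24000000000000000000000,nat_lit 0x121b0000000000000000000,nat_lit 0x121b0000000000000000000,nat_lit 0],
    [nat_lit 0,nat_lit 0x48000000000000000000000,nat_lit 0x48000000000000000000000,nat_lit 0x48000000000000000000000,
    nat_lit 0x48000000000000000000000,nat_lit 0,nat_lit 0,nat_lit 0x1440000000000000000000,
    nat_lit 0x1440000000000000000000],[nat_lit 0,nat_lit 0x100020000000000000000000000000000000000000000000,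
    nat_lit 0x5009000000000000000000000000000000000000000000000,
    nat_lit 0x5009000000000000000000000000000000000000000000000,
    nat_lit 0xe80000000000000000000000000000000000000000000,nat_lit 0xe80000000000000000000000000000000000000000000,
    nat_lit 0x80010000000000000000000000000000000000000000000,
    nat_lit 0x80010000000000000000000000000000000000000000000,
    nat_lit 0x80010000000000000000000000000000000000000000000],
    [nat_lit 0x80010000000000000000000000000000000000000000000,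
    nat_lit 0xa012000000000000000000000000000000000000000000000,
    nat_lit 0xa012000000000000000000000000000000000000000000000,
    nat_lit 0xa012000000000000000000000000000000000000000000000,
    nat_lit 0xa012000000000000000000000000000000000000000000000,nat_lit 0,nat_lit 0,
    nat_lit 0x500000000000000000000000000000,nat_lit 0x500000000000000000000000000000],
    [nat_lit 0x500000000000000000000000000000,nat_lit 0x500000000000000000000000000000,nat_lit 0,nat_lit 0,nat_lit 0,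
    nat_lit 0,nat_lit 0,nat_lit 0,nat_lit 0],[nat_lit 0,nat_lit 0,nat_lit 0,nat_lit 0,
    nat_lit 0x14050000000000000000000000000000,nat_lit 0x14050000000000000000000000000000,
    nat_lit 0x14050000000000000000000000000000,nat_lit 0x14050000000000000000000000000000,
    nat_lit 0xa00000000000000000000000000000]],[[nat_lit 0xa00000000000000000000000000000,
    nat_lit 0xa00000000000000000000000000000,nat_lit 0xa00000000000000000000000000000,
    nat_lit 0x4000000000000000000000000000,nat_lit 0x4000000000000000000000000000,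
    nat_lit 0x280a0000000000000000000000000000,nat_lit 0x280a0000000000000000000000000000,nat_lit 0,
    nat_lit 0x20000000000000000000000000000000000000000000000000000],
    [nat_lit 0x20000000000000000000000000000000000000000000000000000,
    nat_lit 0x20000000000000000000000000000000000000000000000000000,
    nat_lit 0x20000000000000000000000000000000000000000000000000000,
    nat_lit 0x20000000000000000000000000000000000000000000000000000,
    nat_lit 0x20000000000000000000000000000000000000000000000000000,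
    nat_lit 0x20000000000000000000000000000000000000000000000000000,
    nat_lit 0x20000000000000000000000000000000000000000000000000000,
    nat_lit 0x20000000000000000000000000000000000000000000000000000,
    nat_lit 0x9000000000000000000000000000000000000000000000000000000],
    [nat_lit 0x9000000000000000000000000000000000000000000000000000000,
    nat_lit 0x9000000000000000000000000000000000000000000000000000000,
    nat_lit 0x4800000000000000000000000000000000000000000000000000000,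
    nat_lit 0x4800000000000000000000000000000000000000000000000000000,
    nat_lit 0x4800000000000000000000000000000000000000000000000000000,
    nat_lit 0x240000000000000000000000000000000000000000000000000000,
    nat_lit 0x240000000000000000000000000000000000000000000000000000,
    nat_lit 0x240000000000000000000000000000000000000000000000000000,
    nat_lit 0x240000000000000000000000000000000000000000000000000000],[nat_lit 0,nat_lit 0,nat_lit 0,nat_lit 0,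
    nat_lit 0,nat_lit 0x500000000000000000000000000000000000000000000000000000,
    nat_lit 0x500000000000000000000000000000000000000000000000000000,
    nat_lit 0xa004d3800000000000000000000000000000000000,nat_lit 0],
    [nat_lit 0x22004000000000000000000000000000000000000,nat_lit 0x22004000000000000000000000000000000000000,
    nat_lit 0,nat_lit 0,nat_lit 0x44000400000000000000000000000000000000000,
    nat_lit 0x44000400000000000000000000000000000000000,nat_lit 0x88000000000000000000000000000000000000000,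
    nat_lit 0x88000000000000000000000000000000000000000,nat_lit 0x1401200000000000000000000000000000000000000],
    [nat_lit 0x1401200000000000000000000000000000000000000,nat_lit 128,nat_lit 768,nat_lit 0,nat_lit 0,nat_lit 0,
    nat_lit 0,nat_lit 0,nat_lit 0],[nat_lit 0,nat_lit 0,nat_lit 64,nat_lit 64]]]
    [[[[nat_lit 0x10000000000000000000000000000000000000000000000000,nat_lit 0,nat_lit 0,nat_lit 0,nat_lit 0,
    nat_lit 0,nat_lit 0x20000,nat_lit 0,nat_lit 0],[nat_lit 0,nat_lit 0,nat_lit 0,nat_lit 8,nat_lit 0,nat_lit 0,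
    nat_lit 0,nat_lit 0,nat_lit 0x102104000000000000],[nat_lit 0,nat_lit 0,nat_lit 0,nat_lit 0,nat_lit 0,nat_lit 0,
    nat_lit 0,nat_lit 0,nat_lit 0],[nat_lit 0,nat_lit 0,nat_lit 0,nat_lit 0x1000,nat_lit 0x1000,nat_lit 0x1000,
    nat_lit 0,nat_lit 0,nat_lit 0],[nat_lit 0,nat_lit 0,nat_lit 0x1000,nat_lit 0,nat_lit 0,nat_lit 0,nat_lit 0,
    nat_lit 0,nat_lit 0],[nat_lit 0,nat_lit 0x100000000000000000000000,nat_lit 0x100000000000000000000000,
    nat_lit 0x100000000000000000000000,nat_lit 0x100000000000000000000000,nat_lit 0,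
    nat_lit 0x100000000000000000000000,nat_lit 0x100000000000000000000000,nat_lit 0x1200000000000000000000000000],
    [nat_lit 0x1200000000000000000000000000,nat_lit 0,nat_lit 0,nat_lit 0x1000000000000000000000000000,nat_lit 0,
    nat_lit 0x80c000000000000000000000000,nat_lit 0x80c000000000000000000000000,nat_lit 0,nat_lit 0],[nat_lit 0,
    nat_lit 0x400000000000000000000000000,nat_lit 0x400000000000000000000000000,nat_lit 0x400000000000000000000000000,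
    nat_lit 0,nat_lit 0,nat_lit 0,nat_lit 0,nat_lit 0x80000000000000000000000000],[nat_lit 0xc3820000000,nat_lit 0,
    nat_lit 0x10200000000,nat_lit 0x10200000000,nat_lit 0x10200000000,nat_lit 0,nat_lit 0,nat_lit 0,nat_lit 0]],
    [[nat_lit 0,nat_lit 0x10000c000000,nat_lit 0x20401000000,nat_lit 0x20400000000,nat_lit 0,nat_lit 0x400000,
    nat_lit 0,nat_lit 0,nat_lit 0],[nat_lit 0,nat_lit 0,nat_lit 0x80000000000000000000000000000000,
    nat_lit 0x10000000000000000000000000000000000,nat_lit 0x10000000000000000000000000000000000,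
    nat_lit 0x10000000000000000000000000000000000,nat_lit 0x10000000000000000000000000000000000,nat_lit 0,nat_lit 0],
    [nat_lit 0,nat_lit 0,nat_lit 0,nat_lit 0x20000000000000000000000000000000000,nat_lit 0,nat_lit 0,
    nat_lit 0x4000000000000000000000000000000000,nat_lit 0,nat_lit 0],[nat_lit 0,nat_lit 0,
    nat_lit 0x1000000000000000000,nat_lit 0,nat_lit 0x20000000000000000000000,nat_lit 0,
    nat_lit 0x12120000000000000000000,nat_lit 0,nat_lit 0],[nat_lit 0,nat_lit 0,nat_lit 0,nat_lit 0,nat_lit 0,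
    nat_lit 0,nat_lit 0,nat_lit 0,nat_lit 0x1000000000000000000000],[nat_lit 0,
    nat_lit 0x100020000000000000000000000000000000000000000000,
    nat_lit 0x1000000000000000000000000000000000000000000000,nat_lit 0,
    nat_lit 0x800000000000000000000000000000000000000000000,nat_lit 0,nat_lit 0,nat_lit 0,nat_lit 0],[nat_lit 0,
    nat_lit 0x2002000000000000000000000000000000000000000000000,
    nat_lit 0x2002000000000000000000000000000000000000000000000,nat_lit 0,nat_lit 0,nat_lit 0,nat_lit 0,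
    nat_lit 0x400000000000000000000000000000,nat_lit 0],[nat_lit 0,nat_lit 0,nat_lit 0,nat_lit 0,nat_lit 0,nat_lit 0,
    nat_lit 0,nat_lit 0,nat_lit 0],[nat_lit 0,nat_lit 0,nat_lit 0,nat_lit 0,nat_lit 0,
    nat_lit 0x50000000000000000000000000000,nat_lit 0,nat_lit 0x50000000000000000000000000000,nat_lit 0]],
    [[nat_lit 0x800000000000000000000000000000,nat_lit 0,nat_lit 0,nat_lit 0x4000000000000000000000000000,
    nat_lit 0x4000000000000000000000000000,nat_lit 0,nat_lit 0,nat_lit 0,nat_lit 0],[nat_lit 0,nat_lit 0,nat_lit 0,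
    nat_lit 0x20000000000000000000000000000000000000000000000000000,
    nat_lit 0x20000000000000000000000000000000000000000000000000000,
    nat_lit 0x20000000000000000000000000000000000000000000000000000,
    nat_lit 0x20000000000000000000000000000000000000000000000000000,nat_lit 0,nat_lit 0],
    [nat_lit 0x8000000000000000000000000000000000000000000000000000000,
    nat_lit 0x9000000000000000000000000000000000000000000000000000000,
    nat_lit 0x4800000000000000000000000000000000000000000000000000000,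
    nat_lit 0x4800000000000000000000000000000000000000000000000000000,
    nat_lit 0x4800000000000000000000000000000000000000000000000000000,
    nat_lit 0x40000000000000000000000000000000000000000000000000000,
    nat_lit 0x40000000000000000000000000000000000000000000000000000,nat_lit 0,
    nat_lit 0x40000000000000000000000000000000000000000000000000000],[nat_lit 0,nat_lit 0,nat_lit 0,nat_lit 0,
    nat_lit 0,nat_lit 0,nat_lit 0,nat_lit 0x51800000000000000000000000000000000000,nat_lit 0],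
    [nat_lit 0x22004000000000000000000000000000000000000,nat_lit 0x22004000000000000000000000000000000000000,
    nat_lit 0,nat_lit 0,nat_lit 0x44000000000000000000000000000000000000000,
    nat_lit 0x4000000000000000000000000000000000000000,nat_lit 0,nat_lit 0,
    nat_lit 0x401200000000000000000000000000000000000000],[nat_lit 0,nat_lit 0,nat_lit 512,nat_lit 0,nat_lit 0,
    nat_lit 0,nat_lit 0,nat_lit 0,nat_lit 0],[nat_lit 0,nat_lit 0,nat_lit 0,nat_lit 0]]]]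
    (nat_lit 1) (nat_lit 1) (nat_lit 8)
    [[nat_lit 2,nat_lit 258,nat_lit 273,nat_lit 257,nat_lit 513,nat_lit 769,nat_lit 0x10101,nat_lit 0x100101,
    nat_lit 0x1000101,nat_lit 0x1101,nat_lit 0x11001,nat_lit 0x101001,nat_lit 0x10001,nat_lit 0x100001,
    nat_lit 0x110001,nat_lit 0x1000001,nat_lit 0x1010001,nat_lit 0x1100001],[nat_lit 272,nat_lit 544,nat_lit 528,
    nat_lit 784,nat_lit 0x1210,nat_lit 0x10210,nat_lit 0x100210,nat_lit 0x1000210,nat_lit 0x1110,nat_lit 0x10110,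
    nat_lit 0x100110,nat_lit 0x1000110,nat_lit 0x10010,nat_lit 0x11010,nat_lit 0x20010,nat_lit 0x110010,
    nat_lit 0x1010010,nat_lit 0x100010],[nat_lit 512,nat_lit 768,nat_lit 0x400,nat_lit 0x500,nat_lit 0x1300,
    nat_lit 0x10300,nat_lit 0x100300,nat_lit 0x1000300,nat_lit 0x1200,nat_lit 0x2200,nat_lit 0x11200,
    nat_lit 0x1001200,nat_lit 0x10200,nat_lit 0x1010200,nat_lit 0x100200,nat_lit 0x1000200,nat_lit 0x2000200,
    nat_lit 0x1100,nat_lit 0x2100,nat_lit 0x11100,nat_lit 0x101100,nat_lit 0x1001100,nat_lit 0x10100,nat_lit 0x20100,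
    nat_lit 0x110100,nat_lit 0x1010100,nat_lit 0x20200,nat_lit 0x100100,nat_lit 0x200100,nat_lit 0x1100100,
    nat_lit 0x1000100,nat_lit 0x2000100],[nat_lit 0x2000,nat_lit 0x3000,nat_lit 0x12000,nat_lit 0x102000,
    nat_lit 0x1002000,nat_lit 0x11000,nat_lit 0x21000,nat_lit 0x1011000,nat_lit 0x101000,nat_lit 0x201000,
    nat_lit 0x1101000,nat_lit 0x1001000,nat_lit 0x2001000],[nat_lit 0x20000,nat_lit 0x110000,nat_lit 0x1010000,
    nat_lit 0x2010000],[nat_lit 0x200000,nat_lit 0x1200000,nat_lit 0x1100000,nat_lit 0x2100000],[nat_lit 0x2000000,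
    nat_lit 0x3000000]]
    [.c (nat_lit 1) (nat_lit 2),.c (nat_lit 1) (nat_lit 0x6300004),.c (nat_lit 2) (nat_lit 0x6300004),
    .c (nat_lit 0) (nat_lit 0x4200005),.c (nat_lit 3) (nat_lit 0x6300004),.c (nat_lit 5) (nat_lit 0xa318c42),
    .c (nat_lit 5) (nat_lit 0x6300004),.c (nat_lit 6) (nat_lit 0x6300004),.c (nat_lit 2) (nat_lit 0x4220005),
    .c (nat_lit 2) (nat_lit 0x4221005),.r (nat_lit 32) (nat_lit 13) [nat_lit 0x80200c41,nat_lit 0xc03010a1],
    .r (nat_lit 0xe1b) (nat_lit 12) [nat_lit 0x600001,nat_lit 0x7018e1,nat_lit 0x30001,nat_lit 0x6028081],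
    .c (nat_lit 3) (nat_lit 0x4010862),.r (nat_lit 0x1baf) (nat_lit 1) [nat_lit 0x18001,nat_lit 65,nat_lit 0x210001],
    .r (nat_lit 32) (nat_lit 13) [nat_lit 0x318861,nat_lit 0x80621481],
    .r (nat_lit 0x174e) (nat_lit 4) [nat_lit 0x844000a2,nat_lit 0x10041],
    .r (nat_lit 32) (nat_lit 13) [nat_lit 0x80210c41,nat_lit 0xc03290a1],
    .r (nat_lit 0xe1b) (nat_lit 12) [nat_lit 0x600001,nat_lit 0x7398e1,nat_lit 0x30001,nat_lit 0x6000081],
    .r (nat_lit 2) (nat_lit 4) [nat_lit 0x844200a2,nat_lit 65],.r (nat_lit 0x174e) (nat_lit 4) [nat_lit 66,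
    nat_lit 0x84420062],.r (nat_lit 0x1b32) (nat_lit 13) [nat_lit 0x84000002,nat_lit 0xc0000041,nat_lit 0x80210061],
    .r (nat_lit 423) (nat_lit 10) [nat_lit 0x18c4200a2,nat_lit 0xc4529002,nat_lit 0x1d6500082,nat_lit 0x18c4000a2,
    nat_lit 0x1ce000082],.c (nat_lit 1) (nat_lit 0x4210803),.r (nat_lit 0xd5a) (nat_lit 6) [nat_lit 0x860410a2,
    nat_lit 0x18c000002,nat_lit 0xc4c21482,nat_lit 0x860290a2],.c (nat_lit 2) (nat_lit 0x6010002),
    .c (nat_lit 1) (nat_lit 0x4210003),.c (nat_lit 1) (nat_lit 0x4221005),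
    .r (nat_lit 423) (nat_lit 10) [nat_lit 0x4000861,nat_lit 0xc4529002,nat_lit 0xa010c41,nat_lit 0x4018861,
    nat_lit 0x6210c41],.r (nat_lit 0x1bb4) (nat_lit 1) [nat_lit 0x18001,nat_lit 0x210001,nat_lit 0x80220061],
    .c (nat_lit 1) (nat_lit 0x4220005),.r (nat_lit 0x1b32) (nat_lit 13) [nat_lit 0x84000002,nat_lit 0x84421482,
    nat_lit 0xc60010a2],.c (nat_lit 1) (nat_lit 0x6200085),.r (nat_lit 0xd5a) (nat_lit 6) [nat_lit 0xc6311061,
    nat_lit 0x18c000002,nat_lit 0x84821441,nat_lit 0xc6329061],.c (nat_lit 2) (nat_lit 0x42410a4),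
    .c (nat_lit 1) (nat_lit 0x6201485),.r (nat_lit 32) (nat_lit 13) [nat_lit 0x80200062,nat_lit 65],
    .c (nat_lit 3) (nat_lit 2),.r (nat_lit 0x1baf) (nat_lit 7) [nat_lit 0x10001,nat_lit 0x1c6529082,nat_lit 0x200001],
    .c (nat_lit 5) (nat_lit 0xe329482),.r (nat_lit 877) (nat_lit 10) [nat_lit 0xa50001,nat_lit 0x7d75ad102,
    nat_lit 0x280b000a1,nat_lit 0xa00001,nat_lit 0x2940000a2],.r (nat_lit 0x1bfd) (nat_lit 1) [nat_lit 0x18001,
    nat_lit 0x1840200a2,nat_lit 0x210001],.r (nat_lit 877) (nat_lit 10) [nat_lit 0xa50001,nat_lit 0x4ced6b102,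
    nat_lit 0x106f290a1,nat_lit 0xa00001,nat_lit 0x88318861],.r (nat_lit 2) (nat_lit 4) [nat_lit 0x1840200a2,
    nat_lit 0xc0200041],.r (nat_lit 0x1bfd) (nat_lit 1) [nat_lit 0x18001,nat_lit 0x1840000a2,nat_lit 0x210001],
    .c (nat_lit 0) (nat_lit 0x4000803),.r (nat_lit 32) (nat_lit 13) [nat_lit 0x28042,nat_lit 0x80220061],
    .r (nat_lit 0x1bb5) (nat_lit 6) [nat_lit 0x18001,nat_lit 0x1c6529082,nat_lit 0x210001],
    .r (nat_lit 32) (nat_lit 13) [nat_lit 0x18042,nat_lit 0x80210061],.c (nat_lit 5) (nat_lit 0xe329484),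
    .r (nat_lit 0x1bb5) (nat_lit 6) [nat_lit 0x18001,nat_lit 0x1c6501082,nat_lit 0x210001],
    .c (nat_lit 0) (nat_lit 0x4000803),.c (nat_lit 0) (nat_lit 0x4000003),.r (nat_lit 32) (nat_lit 13) [nat_lit 66,
    nat_lit 0x80200061],.c (nat_lit 0) (nat_lit 0x4001005),.r (nat_lit 0x1bb4) (nat_lit 1) [nat_lit 0x18001,
    nat_lit 0x210001,nat_lit 65],.r (nat_lit 0x1bfd) (nat_lit 1) [nat_lit 0x18001,nat_lit 0x300861,nat_lit 0x210001],
    .c (nat_lit 1) (nat_lit 0x6201404),.r (nat_lit 0x1bb4) (nat_lit 1) [nat_lit 0x18001,nat_lit 0x210001,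
    nat_lit 0x10041],.r (nat_lit 0x1baf) (nat_lit 7) [nat_lit 0x10001,nat_lit 65,nat_lit 0x200001],
    .r (nat_lit 877) (nat_lit 10) [nat_lit 0xa50001,nat_lit 0x1c6529102,nat_lit 0xcb34a0a1,nat_lit 0xa00001,
    nat_lit 0xcc94a0a2],.r (nat_lit 2) (nat_lit 4) [nat_lit 0x300861,nat_lit 0x84821482],
    .r (nat_lit 0x1bfd) (nat_lit 1) [nat_lit 0x18001,nat_lit 0x318861,nat_lit 0x210001],
    .r (nat_lit 0xe1b) (nat_lit 12) [nat_lit 0x600001,nat_lit 194,nat_lit 0x30001,nat_lit 0x6529061],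
    .c (nat_lit 0) (nat_lit 0x4000003),.r (nat_lit 0x1b33) (nat_lit 11) [nat_lit 0x10001,nat_lit 0x200001,
    nat_lit 0xc0000081,nat_lit 0x100000061,nat_lit 0xcc000082],.c (nat_lit 1) (nat_lit 0x6200004),
    .c (nat_lit 0) (nat_lit 0x4000005),.r (nat_lit 0x1bb4) (nat_lit 1) [nat_lit 0x18001,nat_lit 0x210001,
    nat_lit 0x20041],.c (nat_lit 4) (nat_lit 2),.r (nat_lit 0xf22) (nat_lit 1) [nat_lit 0x1ced030a2,nat_lit 65,
    nat_lit 0x18c000002,nat_lit 0x630061],.r (nat_lit 32) (nat_lit 13) [nat_lit 0x184429484,nat_lit 0xc60210a2],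
    .r (nat_lit 0x1b32) (nat_lit 13) [nat_lit 0x84000002,nat_lit 0x220061,nat_lit 0x18041],
    .r (nat_lit 0xf22) (nat_lit 1) [nat_lit 0x1ced2b0a2,nat_lit 0x10041,nat_lit 0x18c000002,nat_lit 0x620061],
    .c (nat_lit 0) (nat_lit 0x6328085),.r (nat_lit 0x1bb5) (nat_lit 6) [nat_lit 0x18001,nat_lit 65,nat_lit 0x210001],
    .r (nat_lit 32) (nat_lit 13) [nat_lit 0x184401484,nat_lit 0xc60010a2],.c (nat_lit 1) (nat_lit 0x200c02),
    .r (nat_lit 0x1bb5) (nat_lit 6) [nat_lit 0x18001,nat_lit 0xc6501061,nat_lit 0x210001],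
    .r (nat_lit 0x1b32) (nat_lit 13) [nat_lit 0x84000002,nat_lit 0x210061,nat_lit 65],
    .c (nat_lit 2) (nat_lit 0x20803),.r (nat_lit 0xf22) (nat_lit 1) [nat_lit 0x1ced4b0a2,nat_lit 0x20041,
    nat_lit 0x18c000002,nat_lit 0x610061],.c (nat_lit 5) (nat_lit 2),.c (nat_lit 0) (nat_lit 0x6328085),
    .c (nat_lit 0) (nat_lit 0x6329485),.r (nat_lit 32) (nat_lit 13) [nat_lit 0x184421484,nat_lit 0xc60290a2],
    .c (nat_lit 6) (nat_lit 2),.r (nat_lit 0x1bb5) (nat_lit 6) [nat_lit 0x18001,nat_lit 0xc6519061,nat_lit 0x210001],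
    .c (nat_lit 1) (nat_lit 0x200002),.r (nat_lit 0x1b32) (nat_lit 13) [nat_lit 0x84000002,nat_lit 0x200061,
    nat_lit 0x10041],.c (nat_lit 7) (nat_lit 2),.r (nat_lit 0xf22) (nat_lit 1) [nat_lit 0x1ced6b0a2,nat_lit 0x30041,
    nat_lit 0x18c000002,nat_lit 0x600061]]]

/-- nodes -/
noncomputable def rD7k_22_7 : List RJ :=
  [.l (nat_lit 15) (nat_lit 0x1a40) (nat_lit 3) (nat_lit 0xbea00000bea00000acc00000acc00000b3c00000b3c000009f4000009f400000d9000000d9000000a9100000a9100000c3a00000c3a) (nat_lit 0x1a6000001a6000002c4000002c400000254000002540000039c0000039c0000000000000000000002ff000002ff0000015600000156)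
    (nat_lit 0x167029104cb08321284249835d09421bdc34a8475871115282a505220b38114424984bd0832109c213868b0c5211d623ac5c40a94124c20c84b6080810f023f0364074c15982b303e686a1110425d8451099611d025b04e008780e601b204800acc0f0e1f344f308521064249843c08fc12a020203d0065816782cf04b08a0912ec28b04bd0942138021e047409500d901e8059e09f411ba261447909e6109c2508364074c0f4019603d0065811582b3037a86f511e41ff842706ba0e601b2036407a00d901e804fa09f40e061bd43af089018a434a85660acc13e82cf04fa0acc1b20348054f8a911b9c30b068b0dee12002b3059e0b3c13e822b06900d9015222a4470a0c7211d61c443e686a1130a282437a86f515222a443ad08020e6e24ec47588eb0f0e1f3446e89610e061bd45488a9f0f241d6849d893b15282a50429097613cc28b044807fe18e430b049d893b15c82b905c40a9413cc220847909760ebc23c870a0dce12761cdc5720ae4)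
    (nat_lit 0x16706900d201a4034806900d201a4034806900d201a40348069005220b3834806900d201a4034806900d201a4034806900d201a40132c22884b61a4034806900d201a4034806900d201a40348069004190926101025b0d201a4034806900d201a4034806900d201a40128425e843c09c012a06900d201a4034806900d201a4034806900493083211f821e0404095034806900d201a4034806900d201a400d74213836407300f401b203d01a4034806900d201a40348069004a1084e0e981b2032c07a00cb01e80d201a4034806900d201a401bdc3458566090016782cf045609f41b206900d201a40348069006950c5215982b3059e09f4159827d06900d9034806900d201a4011d623ac3e6878712c2237437a8703153e2a443ad1a403480690038888eb0d421f3450489850dea1bd45488a9110041d68d201a4015282e2044109e612ec23c8479075e1b9c385039b893b15c8690054a0a9412ec214851609e60ffc22406160c72127624ec5720ae4)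
    (nat_lit 4) (nat_lit 49)
    [[nat_lit 2,nat_lit 17,nat_lit 33,nat_lit 0x1011,nat_lit 0x100011,nat_lit 0x1001,nat_lit 0x2001,nat_lit 0x11001,
    nat_lit 0x101001,nat_lit 0x10001,nat_lit 0x100001,nat_lit 0x1000001],[nat_lit 32,nat_lit 48,nat_lit 0x1020,
    nat_lit 0x100020,nat_lit 0x1000020,nat_lit 272,nat_lit 0x1010,nat_lit 0x2010,nat_lit 0x11010,nat_lit 0x101010,
    nat_lit 0x1001010,nat_lit 0x10010,nat_lit 0x110010,nat_lit 0x1010010,nat_lit 0x100010,nat_lit 0x200010,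
    nat_lit 0x1100010,nat_lit 0x1000010],[nat_lit 0x1100,nat_lit 0x10100,nat_lit 0x100100],[nat_lit 0x2000,
    nat_lit 0x3000,nat_lit 0x12000,nat_lit 0x102000,nat_lit 0x1002000,nat_lit 0x11000,nat_lit 0x21000,
    nat_lit 0x111000,nat_lit 0x1011000,nat_lit 0x101000,nat_lit 0x201000,nat_lit 0x1101000,nat_lit 0x1001000],
    [nat_lit 0x20000,nat_lit 0x110000,nat_lit 0x1110000,nat_lit 0x1010000],[nat_lit 0x200000,nat_lit 0x1100000],
    [nat_lit 0x2000000]]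
    [.c (nat_lit 1) (nat_lit 2),.r (nat_lit 0x174f) (nat_lit 1) [nat_lit 0x20001,nat_lit 33],
    .r (nat_lit 0x138c) (nat_lit 1) [nat_lit 0x395851,nat_lit 0x580001,nat_lit 0x305041,nat_lit 0x408001],
    .r (nat_lit 4) (nat_lit 3) [nat_lit 0x30231,nat_lit 0x323021],.r (nat_lit 0x19be) (nat_lit 1) [nat_lit 0x30231,
    nat_lit 0x220321,nat_lit 0x224321,nat_lit 0x320231],.c (nat_lit 0) (nat_lit 0x20403),
    .r (nat_lit 0x1b5d) (nat_lit 10) [nat_lit 0x204031,nat_lit 0x323021,nat_lit 0x3021],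
    .r (nat_lit 32) (nat_lit 2) [nat_lit 0x30231,nat_lit 0x20001],.r (nat_lit 32) (nat_lit 10) [nat_lit 0x30231,
    nat_lit 0x323021],.r (nat_lit 0x1b8e) (nat_lit 6) [nat_lit 0x33021,nat_lit 0x20001,nat_lit 0x22001],
    .r (nat_lit 0x1bec) (nat_lit 1) [nat_lit 0x3021,nat_lit 0x22001],.c (nat_lit 1) (nat_lit 514),
    .c (nat_lit 2) (nat_lit 2),.r (nat_lit 0x138d) (nat_lit 1) [nat_lit 0x7ddc51,nat_lit 0x7c0001,nat_lit 65,
    nat_lit 0x60c001],.r (nat_lit 4) (nat_lit 3) [nat_lit 0x355432,nat_lit 0x340022],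
    .r (nat_lit 0x138e) (nat_lit 9) [nat_lit 0x340001,nat_lit 0x355431,nat_lit 0x200001,nat_lit 0x204001],
    .r (nat_lit 0x138c) (nat_lit 1) [nat_lit 0x399851,nat_lit 0x580001,nat_lit 0x300041,nat_lit 0x408001],
    .r (nat_lit 4) (nat_lit 3) [nat_lit 0x303231,nat_lit 33],.r (nat_lit 0x1ba2) (nat_lit 10) [nat_lit 33,
    nat_lit 0x42321,nat_lit 0x30231],.r (nat_lit 0x138f) (nat_lit 7) [nat_lit 0x599831,nat_lit 0x400031,
    nat_lit 0x408031,nat_lit 0x580021],.r (nat_lit 0x1989) (nat_lit 5) [nat_lit 0x53231,nat_lit 0x20001,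
    nat_lit 0x22001],.r (nat_lit 0x1a7f) (nat_lit 6) [nat_lit 0x53231,nat_lit 0x20001,nat_lit 0x22001],
    .r (nat_lit 4) (nat_lit 3) [nat_lit 0x33231,nat_lit 0x320021],.c (nat_lit 0) (nat_lit 0x35545),
    .c (nat_lit 1) (nat_lit 0x22432),.r (nat_lit 0x1b3d) (nat_lit 4) [nat_lit 0x2001,nat_lit 0x33231,nat_lit 0x20001],
    .c (nat_lit 0) (nat_lit 0x35545),.r (nat_lit 0x187c) (nat_lit 0) [nat_lit 0x2001,nat_lit 0x200001,nat_lit 0x20001,
    nat_lit 33],.r (nat_lit 0x19be) (nat_lit 1) [nat_lit 0x33231,nat_lit 0x222321,nat_lit 0x226321,nat_lit 0x323231],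
    .r (nat_lit 0x174f) (nat_lit 1) [nat_lit 0x20001,nat_lit 0x2021],
    .r (nat_lit 0x1b5d) (nat_lit 10) [nat_lit 0x22031,nat_lit 33,nat_lit 0x230021],
    .r (nat_lit 32) (nat_lit 2) [nat_lit 0x303231,nat_lit 0x20001],.r (nat_lit 32) (nat_lit 10) [nat_lit 0x303231,
    nat_lit 33],.c (nat_lit 4) (nat_lit 2),.r (nat_lit 0x1b5d) (nat_lit 10) [nat_lit 0x204032,nat_lit 0x340022,
    nat_lit 0x200022],.r (nat_lit 0x1be6) (nat_lit 4) [nat_lit 0x20001,nat_lit 33,nat_lit 0x408031],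
    .r (nat_lit 0x1a56) (nat_lit 2) [nat_lit 0x3001,nat_lit 0x204001,nat_lit 0x22001,nat_lit 0x509021],
    .r (nat_lit 0x1b5d) (nat_lit 10) [nat_lit 0x202031,nat_lit 0x320021,nat_lit 33],
    .r (nat_lit 0x1b04) (nat_lit 7) [nat_lit 33,nat_lit 0x20001],.r (nat_lit 32) (nat_lit 2) [nat_lit 0x355432,
    nat_lit 0x20001],.r (nat_lit 0x174e) (nat_lit 1) [nat_lit 0x30231,nat_lit 0x20001],
    .r (nat_lit 32) (nat_lit 2) [nat_lit 0x33231,nat_lit 0x20001],.r (nat_lit 0x1ae3) (nat_lit 1) [nat_lit 0x22001,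
    nat_lit 33,nat_lit 0x230031],.r (nat_lit 32) (nat_lit 10) [nat_lit 0x355432,nat_lit 0x340022],
    .r (nat_lit 32) (nat_lit 10) [nat_lit 0x33231,nat_lit 0x320021],.c (nat_lit 0) (nat_lit 0x20005),
    .c (nat_lit 5) (nat_lit 2),.c (nat_lit 0) (nat_lit 0x35545),.r (nat_lit 0x1b32) (nat_lit 10) [nat_lit 0x33231,
    nat_lit 0x20031,nat_lit 0x2021],.r (nat_lit 0x1b8e) (nat_lit 6) [nat_lit 0x30021,nat_lit 0x20001,nat_lit 0x22001],
    .c (nat_lit 6) (nat_lit 2),.r (nat_lit 0x1bec) (nat_lit 1) [nat_lit 33,nat_lit 0x22001],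
    .c (nat_lit 7) (nat_lit 2)],
    .l (nat_lit 18) (nat_lit 0x8700) (nat_lit 4) (nat_lit 0x332d0000332d000031580000315800002d90000037d40000354300003543000032a4000032a40000354a0000354a0000379a0000379a) (nat_lit 0x4a7000004a70000067c0000067c0000000000000a44000002910000029100000530000005300000028a0000028a0000003a0000003a)
    (nat_lit 0xcb002bb209e3c30eb0d3ac2caf0c27043f20c4942dfd0a7ec302f0cbcc32f30ba1832c00ba742cb10e344227d0943838640b3ac2e630c4242a450bae432f30b2c430eb0c5202adc0a64025280b98429230ca1837b60bb382fe00b39030b80ba74278f0ab7031480bd402714091d424670cbe82dca09760364c0b560311e089f42caf09c5025280dfc0234c0a5742d070838832b20ac1824340c9e0364c0e34434eb0bd4029900df5037f00d50c35430717847560d2b03a880911016800e19043f20919c29230d50c2d070780032b20ab54301314f4c48ff0cd2c35a709438309c091d42e610d50c295d0cac81e000c04c30130f804332d0d42435b50b98c2dfd0b72837b611d5832b20c04c30130b4002d740bdb8301a0c9a827220b3ac31250cbe832860717820e20c04c2ad50b5d02d000c068301a0cb78326a0a914302f0d9302fe00ea2024340ccb448ff0c068301a0cb0032c00c7a035100c42429fb097602ece0d2b02b060f80453d30c0682f6e0cb0032c00d44035100cbcc32f30c47830b805a00364c0d6d435a70c9a827220d44035100f82037600bae432f30b5602ce40911032780d424334b0cb78326a0d44031e80e8d03e08)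
    (nat_lit 0xcb00870021c00870021c00870021c00870021c00870021c00870021c0087000aec832c021c00870021c00870021c00870021c00870021c00870021c00870009e3c2e9d0c520870021c00870021c00870021c00870021c00870021c0087000c3ac2cb10ab70314821c00870021c00870021c00870021c00870021c0087000d3ac38d10a6402f500dfc0870021c00870021c00870021c00870021c0087000b2bc227d094a0271408d3037f021c00870021c00870021c00870021c0087000c270250e0b98424750a574354307800870021c00870021c00870021c00870010fc838640a48c24670b41c35430cac81e0021c00870021c00870021c0087000c4942ceb0ca1832fa083881c5e0ab5430130b400870021c00870021c0087000b7f42e630ded82dca0cac847560c04c30130b5d02d0021c00870021c0087000a7ec31090bb3825d80ac1834ac13bec3e010bdb8301a0cb00870021c0087000c0bc2a450bf80364c090d03a88123fc332d0c068301a0cb0032c021c0087000cbcc2eb90b3902d580c9e024440cd2c35090c9a832de0c7a035100f82087000cbcc32f30c2e0311e0d93016800d69c35b509c88326a0d44035100dd803e08)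
    (nat_lit 4) (nat_lit 43)
    [[nat_lit 2,nat_lit 17,nat_lit 0x10011,nat_lit 257,nat_lit 0x10101,nat_lit 0x1001,nat_lit 0x11001,nat_lit 0x10001,
    nat_lit 0x20001,nat_lit 0x110001,nat_lit 0x1010001,nat_lit 0x100001,nat_lit 0x1000001],[nat_lit 32,nat_lit 272,
    nat_lit 0x10110,nat_lit 0x10010,nat_lit 0x100010,nat_lit 0x101010,nat_lit 0x110010,nat_lit 0x1100010,
    nat_lit 0x1000010],[nat_lit 512,nat_lit 0x10200,nat_lit 0x1100,nat_lit 0x2100,nat_lit 0x1001100,nat_lit 0x10100,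
    nat_lit 0x11100,nat_lit 0x110100,nat_lit 0x1010100,nat_lit 0x100100,nat_lit 0x1000100],[nat_lit 0x2000,
    nat_lit 0x3000,nat_lit 0x4000,nat_lit 0x12000,nat_lit 0x102000,nat_lit 0x11000,nat_lit 0x111000,nat_lit 0x101000,
    nat_lit 0x201000,nat_lit 0x1001000,nat_lit 0x1101000],[nat_lit 0x20000,nat_lit 0x120000,nat_lit 0x110000,
    nat_lit 0x210000,nat_lit 0x1110000,nat_lit 0x1010000],[nat_lit 0x200000,nat_lit 0x1200000,nat_lit 0x1100000],
    [nat_lit 0x2000000]]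
    [.c (nat_lit 1) (nat_lit 2),.r (nat_lit 4) (nat_lit 2) [nat_lit 0x2001,nat_lit 33],
    .r (nat_lit 0x1c00) (nat_lit 13) [nat_lit 0x33021,nat_lit 0x222031,nat_lit 0x22001],
    .c (nat_lit 0) (nat_lit 0x30323),.r (nat_lit 8) (nat_lit 3) [nat_lit 0x300231,nat_lit 0x200001],
    .r (nat_lit 0x1c00) (nat_lit 13) [nat_lit 0x200031,nat_lit 33,nat_lit 0x22001],
    .r (nat_lit 4) (nat_lit 2) [nat_lit 0x2001,nat_lit 0x222031],.c (nat_lit 0) (nat_lit 0x2203),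
    .r (nat_lit 0x1a32) (nat_lit 6) [nat_lit 0x33021,nat_lit 0x24031,nat_lit 0x200001],.c (nat_lit 1) (nat_lit 770),
    .r (nat_lit 0x17b5) (nat_lit 10) [nat_lit 0x303231,nat_lit 0x2001,nat_lit 0x200001,nat_lit 0x22001],
    .c (nat_lit 1) (nat_lit 0x2002),.c (nat_lit 0) (nat_lit 0x30323),.c (nat_lit 2) (nat_lit 2),
    .r (nat_lit 4) (nat_lit 3) [nat_lit 0x2001,nat_lit 33],.r (nat_lit 0x1948) (nat_lit 13) [nat_lit 0x22001,
    nat_lit 0x30001,nat_lit 0x303201,nat_lit 0x230321],.r (nat_lit 0x1293) (nat_lit 4) [nat_lit 0x537421,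
    nat_lit 0x4051,nat_lit 65,nat_lit 0x400001],.r (nat_lit 0x129a) (nat_lit 4) [nat_lit 0x535431,nat_lit 65,
    nat_lit 0x4051,nat_lit 0x400001],.c (nat_lit 5) (nat_lit 0x20203),.c (nat_lit 2) (nat_lit 770),
    .r (nat_lit 0x1b65) (nat_lit 1) [nat_lit 0x2001,nat_lit 0x20001,nat_lit 0x200001,nat_lit 0x300021],
    .r (nat_lit 0x1aa7) (nat_lit 1) [nat_lit 0x300021,nat_lit 0x2001,nat_lit 0x200001],.c (nat_lit 3) (nat_lit 2),
    .r (nat_lit 8) (nat_lit 3) [nat_lit 0x533432,nat_lit 0x200001],.r (nat_lit 0x1ae0) (nat_lit 7) [nat_lit 0x2001,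
    nat_lit 0x202321,nat_lit 0x303201],.r (nat_lit 0x129b) (nat_lit 7) [nat_lit 0x4001,nat_lit 0x535401,
    nat_lit 0x20001,nat_lit 0x400031],.r (nat_lit 4) (nat_lit 2) [nat_lit 0x2001,nat_lit 0x3231],
    .r (nat_lit 0x1bac) (nat_lit 0) [nat_lit 0x2001,nat_lit 0x3021,nat_lit 0x200001],
    .r (nat_lit 0x129c) (nat_lit 7) [nat_lit 0x4001,nat_lit 0x535401,nat_lit 0x20001,nat_lit 0x404051],
    .c (nat_lit 3) (nat_lit 770),.r (nat_lit 0x1a32) (nat_lit 6) [nat_lit 0x202321,nat_lit 0x300231,nat_lit 0x200001],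
    .c (nat_lit 0) (nat_lit 0x53345),.c (nat_lit 0) (nat_lit 0x30323),.c (nat_lit 4) (nat_lit 2),
    .r (nat_lit 0x129d) (nat_lit 4) [nat_lit 0xd7dc01,nat_lit 0xc001,nat_lit 65,nat_lit 0xc00051],
    .r (nat_lit 0x129e) (nat_lit 4) [nat_lit 0x535401,nat_lit 0x4001,nat_lit 34,nat_lit 0x800032],
    .r (nat_lit 4) (nat_lit 2) [nat_lit 0x2001,nat_lit 0x422032],.r (nat_lit 0x129f) (nat_lit 4) [nat_lit 0x537401,
    nat_lit 0x4001,nat_lit 0x3021,nat_lit 0x402031],.r (nat_lit 0x1947) (nat_lit 4) [nat_lit 0x202031,nat_lit 0x3021,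
    nat_lit 0x2001,nat_lit 0x20001],.c (nat_lit 2) (nat_lit 0x20203),
    .r (nat_lit 0x1b2f) (nat_lit 13) [nat_lit 0x200031,nat_lit 0x2001,nat_lit 33],
    .r (nat_lit 0x19d2) (nat_lit 4) [nat_lit 0x2001,nat_lit 0x20001,nat_lit 0x200031,nat_lit 33],
    .r (nat_lit 0x174e) (nat_lit 3) [nat_lit 0x2001,nat_lit 33],.r (nat_lit 0x12a0) (nat_lit 12) [nat_lit 0x400001,
    nat_lit 0x535431,nat_lit 0x4051,nat_lit 65],.c (nat_lit 5) (nat_lit 2),.c (nat_lit 5) (nat_lit 770),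
    .c (nat_lit 0) (nat_lit 515),.c (nat_lit 1) (nat_lit 0x2302),.c (nat_lit 7) (nat_lit 770),
    .r (nat_lit 0x19b8) (nat_lit 6) [nat_lit 0x200001,nat_lit 0x426541,nat_lit 0x530451,nat_lit 0x320231],
    .c (nat_lit 6) (nat_lit 2),.r (nat_lit 0x192b) (nat_lit 12) [nat_lit 0x200001,nat_lit 0x242321,nat_lit 0x424541,
    nat_lit 0x532451],.c (nat_lit 0) (nat_lit 0x53345),.c (nat_lit 7) (nat_lit 2)]]

/-- nodes -/
noncomputable def rD7k_22_8 : List RJ :=
  [.l (nat_lit 13) (nat_lit 0x5a0) (nat_lit 4) (nat_lit 0x2240000022400000218000002180000022a0000022a00000238000002380000023c0000023c000001f7000001f70000020300000203) (nat_lit 0x1800000018000000240000002400000012000000120000000400000004000000000000000000000045000000450000003900000039)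
    (nat_lit 0xf408303e820010907284d0208112089042a1df0f588844181e81120800424212134088044822410a883c3d622110008003e81f410307884282140f4074033a1d310186a44481f40fa07d03c42060cc08504781f40e0862c44e1fd109072840c1e210c086049424a1390a9838e1c10fe880c4242120f1081843021811308985f432e0f2879441220f1100820428214113092826023411c08e03aa1230ff87fc4d02680cc085044c24a11a04c047023810e87cc3fe1b111208903e81d01970a9847023811e08f048a1f70dd876444822411e07a05f427211c08e041823c12287dc4061a9107877c3161d30f287043e61230fb87dc4181e20df05c042a2150e086743ca1c710e875448a2450d908303101be11088843fa1a9107880c3621ff0d4876437c1700ca07283d61eb113880c4121fd0ff87fc4061bb0c406f8394194)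
    (nat_lit 0xf41680b405a02d01680b405a02d01680b405a02d016804181e82d01680b405a02d01680b405a02d01680b405a00fa08903e85a02d01680b405a02d01680b405a02d016804002000fa07d0b405a02d01680b405a02d01680b405a0109084840c1e210c1680b405a02d01680b405a02d016803942120f108184302182d01680b405a02d01680b405a013409a042819812508982605a02d01680b405a02d0168041022010a085049422611a04c0b405a02d01680b405a011208903d023c1390be847023811e1680b405a02d016804482240e807d054c32e11c08e047823c2d01680b405a010a885433a1c10e387943aa21d12289144185a02d016803be20f0e9862c3821e509187cc3ee1f70f10830b405a00f587ac4062270fe88243fe1ff0dd880c37c1880ca16804422210d487f440620f0ff86c43b21a90b806f8394194)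
    (nat_lit 4) (nat_lit 59)
    [[nat_lit 2,nat_lit 3,nat_lit 18,nat_lit 258,nat_lit 0x1002,nat_lit 0x100002,nat_lit 17,nat_lit 33,nat_lit 0x1011,
    nat_lit 0x10011,nat_lit 0x100011,nat_lit 273,nat_lit 0x2011,nat_lit 0x1000011,nat_lit 257,nat_lit 0x1001,
    nat_lit 0x2001,nat_lit 0x101001,nat_lit 0x10001,nat_lit 0x110001,nat_lit 0x100001,nat_lit 0x1000001,
    nat_lit 0x1100001],[nat_lit 32,nat_lit 0x1020,nat_lit 0x100020,nat_lit 0x10020,nat_lit 272,nat_lit 0x1010,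
    nat_lit 0x2010,nat_lit 0x101010,nat_lit 0x10010,nat_lit 0x11010,nat_lit 0x110010,nat_lit 0x100010,
    nat_lit 0x100110,nat_lit 0x102010,nat_lit 0x200010,nat_lit 0x1000010],[nat_lit 512,nat_lit 0x1100,
    nat_lit 0x100100,nat_lit 0x1000100],[nat_lit 0x2000,nat_lit 0x3000,nat_lit 0x4000,nat_lit 0x102000,
    nat_lit 0x11000,nat_lit 0x101000,nat_lit 0x1001000],[nat_lit 0x20000,nat_lit 0x110000,nat_lit 0x1010000],
    [nat_lit 0x200000,nat_lit 0x1100000],[nat_lit 0x2000000]]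
    [.c (nat_lit 1) (nat_lit 2),.r (nat_lit 0x1748) (nat_lit 8) [nat_lit 33,nat_lit 0x6006031,nat_lit 0x3033201],
    .c (nat_lit 1) (nat_lit 0x3302),.c (nat_lit 3) (nat_lit 0x20502),.c (nat_lit 1) (nat_lit 0x300302),
    .r (nat_lit 0x1b6e) (nat_lit 8) [nat_lit 0x2002001,nat_lit 0x235021,nat_lit 0x3302231],
    .c (nat_lit 0) (nat_lit 0x2203),.c (nat_lit 2) (nat_lit 0x3302),.c (nat_lit 2) (nat_lit 0x300302),
    .c (nat_lit 3) (nat_lit 0x300023),.c (nat_lit 6) (nat_lit 0x3302),.c (nat_lit 3) (nat_lit 0x3302),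
    .c (nat_lit 3) (nat_lit 0x422203),.c (nat_lit 7) (nat_lit 0x3302),
    .r (nat_lit 0x1748) (nat_lit 8) [nat_lit 0x304021,nat_lit 0x6202031,nat_lit 0x3033201],
    .c (nat_lit 0) (nat_lit 0x200203),.c (nat_lit 2) (nat_lit 0x502302),.c (nat_lit 6) (nat_lit 0x300302),
    .c (nat_lit 2) (nat_lit 0x224032),.c (nat_lit 7) (nat_lit 0x333023),
    .r (nat_lit 0x18fd) (nat_lit 9) [nat_lit 0x22031,nat_lit 33,nat_lit 0x3033201,nat_lit 0x4200001],
    .r (nat_lit 0x1750) (nat_lit 1) [nat_lit 33,nat_lit 0x3033201],.c (nat_lit 3) (nat_lit 0x20302),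
    .c (nat_lit 2) (nat_lit 2),.r (nat_lit 32) (nat_lit 9) [nat_lit 0x2002001,nat_lit 0x5353221],
    .r (nat_lit 4) (nat_lit 1) [nat_lit 0x22001,nat_lit 0x3373221],.c (nat_lit 3) (nat_lit 0x322323),
    .c (nat_lit 1) (nat_lit 0x33202),.c (nat_lit 2) (nat_lit 0x302002),.r (nat_lit 32) (nat_lit 9) [nat_lit 0x2002001,
    nat_lit 0x7333221],.r (nat_lit 4) (nat_lit 1) [nat_lit 0x22001,nat_lit 0x5353221],
    .r (nat_lit 32) (nat_lit 9) [nat_lit 0x2002001,nat_lit 33],.c (nat_lit 3) (nat_lit 0x20323),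
    .r (nat_lit 32) (nat_lit 8) [nat_lit 0x2002001,nat_lit 0x3003231],.c (nat_lit 0) (nat_lit 0x2003),
    .r (nat_lit 0x1a29) (nat_lit 8) [nat_lit 0x30021,nat_lit 0x2002001,nat_lit 0x3003231],
    .r (nat_lit 32) (nat_lit 8) [nat_lit 0x2002001,nat_lit 0x4220031],
    .r (nat_lit 0x1c01) (nat_lit 11) [nat_lit 0x22001,nat_lit 0x33021,nat_lit 0x3033201],
    .c (nat_lit 0) (nat_lit 0x2003),.c (nat_lit 3) (nat_lit 2),.c (nat_lit 1) (nat_lit 0x330202),
    .r (nat_lit 0x1b6e) (nat_lit 8) [nat_lit 0x2002001,nat_lit 0x30021,nat_lit 0x3003231],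
    .r (nat_lit 32) (nat_lit 8) [nat_lit 0x2002001,nat_lit 33],.c (nat_lit 4) (nat_lit 2),
    .r (nat_lit 32) (nat_lit 9) [nat_lit 0x2002001,nat_lit 0x9303221],.c (nat_lit 3) (nat_lit 0x840003),
    .r (nat_lit 4) (nat_lit 1) [nat_lit 0x22001,nat_lit 0x7333221],.r (nat_lit 32) (nat_lit 9) [nat_lit 0x2002001,
    nat_lit 0x3020021],.c (nat_lit 0) (nat_lit 0x200003),.c (nat_lit 0) (nat_lit 0x200003),.c (nat_lit 5) (nat_lit 2),
    .r (nat_lit 4) (nat_lit 1) [nat_lit 0x22001,nat_lit 33],.r (nat_lit 0x1a29) (nat_lit 8) [nat_lit 0x3033231,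
    nat_lit 0x2002001,nat_lit 33],.c (nat_lit 6) (nat_lit 2),.c (nat_lit 1) (nat_lit 514),.c (nat_lit 7) (nat_lit 2)],
    .l (nat_lit 18) (nat_lit 0x8340) (nat_lit 3) (nat_lit 0x36ec000036ec00003a13000031270000311400003788000036940000369400002f060000383800003d3c00003d3c0000363b00002db7) (nat_lit 0x6500000065000000c1500000329000005b400000c28000006a8000006a80000050400000e36000000000000000000000f8500000701)
    (nat_lit 0xc2702dfe0ab5c33c30c4e02ac40bbd430440e0e028940f3483a1209d9c34fd0c270309c0ab5c33c30c4e0240a09e702da60e0e028b6124b8466e09d9c351f0cf0c33c30d2e036ea0dbf42deb0cdac336b0963434850d37c33c30aa3820d00ab5c2ad70a4b834b80adcc24ff0a9fc27e108d6c28fb0c49c31270868820d0090282ac4093fc2deb0b7f820d0091882a6c0b04022de0e9a839dc0863c2a130c4e031380adcc36fd0d1c82dfe0c64030e00834029520c71830aa0a00c216f0b698304409f84336b0c3802a6c0bfb02d4e0e1b827ae116b0484809c3c355509e702ef50a9fc336b0c64024620bfb02fec0e240285e0ebe03d9409cc436050a2d828940a3ec34850a54822de0a17827ae08c0820d00a25028060834023a10e0e0383808d6c258d083402c100e240386e0ccd023020e0e03838096343461119b83a120c49c33c30c2a839dc0f65048480e0e028060e8483d3c09d9c363b124b83cd20c49c34df0c7183a6a0ebe045ac0e0e028940f4f03a120a294363b0d47c34fd0834020d0085bc2a130d81435550d18423a10d8ec363b083402f3a09d9c2767086882a8e0a00c218f09cc4270f0963420d00a29427670834020d0)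
    (nat_lit 0xc270834020d00834020d00834020d00834020d00834020d00834020d0083400b7f8309c20d00834020d00834020d00834020d00834020d00834020d0083400ab5c2ad70d2e0834020d00834020d00834020d00834020d00834020d0083400cf0c33c30dba834b820d00834020d00834020d00834020d00834020d0083400c4e031380dbf42b730b7f8834020d00834020d00834020d00834020d0083400ab10240a0b7ac24ff083402dfe20d00834020d00834020d00834020d0083400bbd4279c0cdac2a7f0918831900bfb0834020d00834020d00834020d0083400c1102da60cdac27e10a9b030e00b5382fec20d00834020d00834020d0083400e0e0383809634235b0b04020d00e1b8389008c08834020d00834020d0083400a25028b60d21428fb08b78295209eb8285e08340230220d00834020d0083400f348492e0d37c31270e9a831c6116b03af80a25038380e848834020d0083400e848466e0cf0c31270e77030aa121203d940a01838380f4f03a1220d00834009d9c27670aa3821a20863c280309c3c273108340258d09d9c28a50834083400d3f4351f0834020d00a84c216f0d554360508e8434610d8ec363b0bce820d0)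
    (nat_lit 5) (nat_lit 59)
    [[nat_lit 2,nat_lit 3,nat_lit 18,nat_lit 258,nat_lit 0x1002,nat_lit 0x10002,nat_lit 0x100002,nat_lit 0x1000002,
    nat_lit 17,nat_lit 0x100011,nat_lit 257,nat_lit 513,nat_lit 0x10101,nat_lit 0x100101,nat_lit 0x1001,
    nat_lit 0x11001,nat_lit 0x101001,nat_lit 0x10001,nat_lit 0x20001,nat_lit 0x110001,nat_lit 0x1010001,
    nat_lit 0x100001,nat_lit 0x200001,nat_lit 0x1000001,nat_lit 0x1100001],[nat_lit 32,nat_lit 272,nat_lit 0x100110,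
    nat_lit 0x10010,nat_lit 0x100010],[nat_lit 512,nat_lit 768,nat_lit 0x10200,nat_lit 0x100200,nat_lit 0x1100,
    nat_lit 0x10100,nat_lit 0x11100,nat_lit 0x20100,nat_lit 0x110100,nat_lit 0x1010100,nat_lit 0x100100,
    nat_lit 0x101100,nat_lit 0x1100100,nat_lit 0x1000100],[nat_lit 0x2000,nat_lit 0x11000,nat_lit 0x101000,
    nat_lit 0x1001000],[nat_lit 0x20000,nat_lit 0x110000,nat_lit 0x1010000],[nat_lit 0x200000,nat_lit 0x1100000],
    [nat_lit 0x2000000]]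
    [.c (nat_lit 1) (nat_lit 2),.r (nat_lit 0x1671) (nat_lit 5) [nat_lit 0xed030a1,nat_lit 0x34e06b0a1,nat_lit 129,
    nat_lit 0x30cc63481],.r (nat_lit 0x19de) (nat_lit 10) [nat_lit 0x146339061,nat_lit 0x210001,nat_lit 0x80020001],
    .c (nat_lit 2) (nat_lit 0xa301483),.r (nat_lit 0xe0d) (nat_lit 7) [nat_lit 0xc000001,nat_lit 0x208822481,
    nat_lit 0x146549081,nat_lit 0x24a42a0a1],.c (nat_lit 6) (nat_lit 0x44210a2),
    .r (nat_lit 0xdf3) (nat_lit 5) [nat_lit 0x69020a1,nat_lit 0x24604a0a1,nat_lit 0x6000081,nat_lit 0x204842481],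
    .r (nat_lit 0xe0d) (nat_lit 7) [nat_lit 0xc000001,nat_lit 0x208842481,nat_lit 0x146529081,nat_lit 0x24a44a0a1],
    .c (nat_lit 6) (nat_lit 0x4200862),.c (nat_lit 3) (nat_lit 0x6000c43),.c (nat_lit 0) (nat_lit 0x6329483),
    .r (nat_lit 0x1b22) (nat_lit 10) [nat_lit 0x18001,nat_lit 0x210001,nat_lit 0x200c41],
    .c (nat_lit 0) (nat_lit 0x6329483),.c (nat_lit 2) (nat_lit 0x6000c43),.c (nat_lit 0) (nat_lit 0x328085),
    .c (nat_lit 6) (nat_lit 0x210062),.r (nat_lit 0x1bfd) (nat_lit 7) [nat_lit 0x10001,nat_lit 0x300861,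
    nat_lit 0x200001],.c (nat_lit 0) (nat_lit 0x329485),.r (nat_lit 0x68c) (nat_lit 1) [nat_lit 0xc4810c41,
    nat_lit 0x80500001,nat_lit 0x210001,nat_lit 0x1071290a1,nat_lit 0x140800041],
    .r (nat_lit 0x1c01) (nat_lit 5) [nat_lit 0x300861,nat_lit 0x4200c41,nat_lit 0x200001],
    .c (nat_lit 6) (nat_lit 0x210862),.c (nat_lit 0) (nat_lit 0x6029485),
    .r (nat_lit 0x68d) (nat_lit 5) [nat_lit 0x15294a081,nat_lit 0x108441461,nat_lit 0x80000a1,nat_lit 0x14a029041,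
    nat_lit 0x108421461],.c (nat_lit 0) (nat_lit 0x329485),.r (nat_lit 0x1bfd) (nat_lit 7) [nat_lit 0x10001,
    nat_lit 0x318861,nat_lit 0x200001],.c (nat_lit 2) (nat_lit 2),.r (nat_lit 0x19de) (nat_lit 10) [nat_lit 0x318041,
    nat_lit 0x210001,nat_lit 0x80020001],.c (nat_lit 1) (nat_lit 0x6000c43),
    .r (nat_lit 0x1b36) (nat_lit 0) [nat_lit 0x300041,nat_lit 0x80210061,nat_lit 0x200001],
    .r (nat_lit 32) (nat_lit 11) [nat_lit 0x6518841,nat_lit 65],.c (nat_lit 3) (nat_lit 2),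
    .r (nat_lit 0x1171) (nat_lit 8) [nat_lit 0x1c0c00001,nat_lit 0x180000001,nat_lit 0x1c0d6b0a1,nat_lit 0x180060001],
    .r (nat_lit 0x19de) (nat_lit 10) [nat_lit 0xc0028042,nat_lit 0x210001,nat_lit 0x80020001],
    .r (nat_lit 0x1171) (nat_lit 8) [nat_lit 0x1c0c00001,nat_lit 0x180000001,nat_lit 0x1c8d6b121,nat_lit 0x180060001],
    .r (nat_lit 0x1bec) (nat_lit 10) [nat_lit 65,nat_lit 0x200001],.c (nat_lit 0) (nat_lit 0x6329483),
    .r (nat_lit 0x19de) (nat_lit 10) [nat_lit 0xc0028041,nat_lit 0x210001,nat_lit 0x80020001],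
    .r (nat_lit 0x174c) (nat_lit 0) [nat_lit 0x200001,nat_lit 0x80020001,nat_lit 0x14694a062],
    .r (nat_lit 0x174c) (nat_lit 0) [nat_lit 0x200001,nat_lit 0x80020001,nat_lit 0xc0529061],
    .r (nat_lit 0x19de) (nat_lit 10) [nat_lit 0xc0018041,nat_lit 0x210001,nat_lit 0x80020001],
    .c (nat_lit 0) (nat_lit 0x200005),.r (nat_lit 32) (nat_lit 11) [nat_lit 0x300861,nat_lit 0x4210061],
    .r (nat_lit 32) (nat_lit 11) [nat_lit 0x318861,nat_lit 0x4200061],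
    .r (nat_lit 0x1bec) (nat_lit 10) [nat_lit 0x10041,nat_lit 0x200001],.c (nat_lit 4) (nat_lit 2),
    .c (nat_lit 0) (nat_lit 0x4001003),.c (nat_lit 1) (nat_lit 0x6319442),.c (nat_lit 2) (nat_lit 0x20803),
    .c (nat_lit 5) (nat_lit 2),.r (nat_lit 0x1bec) (nat_lit 5) [nat_lit 65,nat_lit 0x200001],
    .c (nat_lit 0) (nat_lit 0x4000005),.c (nat_lit 6) (nat_lit 2),.c (nat_lit 1) (nat_lit 0x6318c42),
    .c (nat_lit 7) (nat_lit 2)]]

/-- nodes -/
noncomputable def rD7k_22_9 : List RJ :=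
  [.l (nat_lit 12) (nat_lit 960) (nat_lit 3) (nat_lit 0x171000001b3000001cd0000017b000001650000016b000001e0000001e0000001a3000001c9000001b90000016b0000016d0000017f) (nat_lit 0x2d0000006f0000006500000013000000750000007b0000000000000000000000170000003d00000075000000270000006100000073)
    (nat_lit 0x1c010210c15e0fc0f61711711021380f014a1100f01861c014e1a00f01381b31ad1c00fe13e1861521401a015e1681ba15e15224521b1bc1901581820f015a14e10c1101681061001a517b16413e10615411a1081380f61001520f00f016516514e0fe0f013e1040f20f00fc10615e0f60f016b16b15412e0f60f010a0f81ad17117b21b16b1651e01e021d1a316b1b917f16d1b31711a524516b1651e01e021d1a316b18517b16d0fe13813e19012e0fe1a31a31c016612e1281421301c01021641bc15414e21d21d1941c00f01a21680f218614a1541820f013e1851b91a21281a81b01b01aa13e0f01061580f60f016b16b0f012e0f61a81180f81400f010815a0f80f216d16d0f21300f81aa1180fa15211011a0f010a10417b17f1681421181b011e118)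
    (nat_lit 0x1c03c03c03c03c03c03c03c03c03c03c03c03c03c01021c03c03c03c03c03c03c03c03c03c03c03c03c010c14e1683c03c03c03c03c03c03c03c03c03c03c015e1a01ba1683c03c03c03c03c03c03c03c03c03c00fc0f015e1060f03c03c03c03c03c03c03c03c03c00f61381521000f00f03c03c03c03c03c03c03c03c01711b32451a516516b1e03c03c03c03c03c03c03c01711ad21b17b16516b1e01e03c03c03c03c03c03c01021c01bc16414e15421d21d1c03c03c03c03c03c01380fe19013e0fe12e1a31a31661c03c03c03c03c00f013e1581060f00f616b16b12e0f01a83c03c03c014a18618215413e0f01b91851281a21b01a83c03c01101520f011a10410a17f17b1421681b01181183c00f014015a1080f20f816d16d1300f21aa0f80fa118)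
    (nat_lit 5) (nat_lit 83)
    [[nat_lit 2,nat_lit 3,nat_lit 258,nat_lit 0x10002,nat_lit 0x100002,nat_lit 0x1000002,nat_lit 17,nat_lit 0x10011,
    nat_lit 273,nat_lit 0x100011,nat_lit 0x1000011,nat_lit 257,nat_lit 0x10101,nat_lit 0x1000101,nat_lit 0x1001,
    nat_lit 0x10001,nat_lit 0x20001,nat_lit 0x110001,nat_lit 0x1010001,nat_lit 0x100001,nat_lit 0x100101,
    nat_lit 0x200001,nat_lit 0x1100001,nat_lit 0x1000001,nat_lit 0x2000001],[nat_lit 32,nat_lit 0x10020,nat_lit 272,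
    nat_lit 0x10110,nat_lit 0x1000110,nat_lit 0x100110,nat_lit 0x1010,nat_lit 0x10010,nat_lit 0x20010,
    nat_lit 0x110010,nat_lit 0x1010010,nat_lit 0x100010,nat_lit 0x1000010],[nat_lit 512,nat_lit 0x10100,
    nat_lit 0x20100,nat_lit 0x1010100,nat_lit 0x100100,nat_lit 0x1000100],[nat_lit 0x11000,nat_lit 0x1001000],
    [nat_lit 0x20000,nat_lit 0x30000,nat_lit 0x120000,nat_lit 0x1020000,nat_lit 0x110000,nat_lit 0x1110000,
    nat_lit 0x1010000,nat_lit 0x2010000],[nat_lit 0x200000,nat_lit 0x1100000],[nat_lit 0x2000000]]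
    [.c (nat_lit 1) (nat_lit 2),.r (nat_lit 0x11b7) (nat_lit 6) [nat_lit 0x420001,nat_lit 0x10a529061,nat_lit 0x10001,
    nat_lit 0x8028001],.r (nat_lit 2) (nat_lit 13) [nat_lit 0xa519062,nat_lit 0x210001],
    .r (nat_lit 0x640) (nat_lit 6) [nat_lit 0x100200081,nat_lit 0x1400100a1,nat_lit 0x86318801,nat_lit 0x80000041,
    nat_lit 0x1440000a1],.r (nat_lit 2) (nat_lit 13) [nat_lit 0x6529062,nat_lit 0x210001],
    .r (nat_lit 0x174c) (nat_lit 9) [nat_lit 0x4200001,nat_lit 0x86318801,nat_lit 0x140010041],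
    .c (nat_lit 0) (nat_lit 0x4318c43),.c (nat_lit 7) (nat_lit 0x210862),
    .r (nat_lit 0x1b36) (nat_lit 4) [nat_lit 0x8a300861,nat_lit 0xcc218c81,nat_lit 0x4200001],
    .r (nat_lit 0x1b36) (nat_lit 4) [nat_lit 0x86318861,nat_lit 0xc4210c81,nat_lit 0x4200001],
    .r (nat_lit 2) (nat_lit 13) [nat_lit 0xc0000041,nat_lit 0x210001],
    .r (nat_lit 0x1750) (nat_lit 8) [nat_lit 0x210001,nat_lit 0x4018041],
    .r (nat_lit 0x1881) (nat_lit 1) [nat_lit 0x4200001,nat_lit 0x80010061,nat_lit 0x100018041,nat_lit 0xce7198a1],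
    .r (nat_lit 2) (nat_lit 13) [nat_lit 0x6300861,nat_lit 0x210001],
    .r (nat_lit 0x1b36) (nat_lit 4) [nat_lit 0x6300041,nat_lit 0x842188a1,nat_lit 0x4200001],
    .c (nat_lit 0) (nat_lit 0x528c85),.r (nat_lit 0x6c8) (nat_lit 6) [nat_lit 0x200400081,nat_lit 0x2400200a1,
    nat_lit 0x10a529001,nat_lit 0x100000041,nat_lit 0x2480000a1],.r (nat_lit 0x1881) (nat_lit 1) [nat_lit 0x4200001,
    nat_lit 0x84000061,nat_lit 0x106000041,nat_lit 0xc67398a1],.r (nat_lit 0x1c01) (nat_lit 2) [nat_lit 0x6300861,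
    nat_lit 0x4210c41,nat_lit 0x4200001],.r (nat_lit 0x1750) (nat_lit 8) [nat_lit 0x210001,nat_lit 65],
    .r (nat_lit 0x1b6a) (nat_lit 3) [nat_lit 0x4018001,nat_lit 0x210001,nat_lit 0x6010041],
    .r (nat_lit 0x1b6a) (nat_lit 3) [nat_lit 0x4018001,nat_lit 0x210001,nat_lit 0xa020041],
    .r (nat_lit 2) (nat_lit 13) [nat_lit 0x318861,nat_lit 0x210001],.c (nat_lit 5) (nat_lit 0x6000002),
    .r (nat_lit 0x1b36) (nat_lit 4) [nat_lit 0x6000041,nat_lit 0x843188a1,nat_lit 0x4200001],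
    .c (nat_lit 2) (nat_lit 2),.r (nat_lit 0x1bdf) (nat_lit 13) [nat_lit 0x210001,nat_lit 0x210c41],
    .c (nat_lit 0) (nat_lit 0x6318043),.c (nat_lit 0) (nat_lit 0x6318043),
    .r (nat_lit 0x174c) (nat_lit 9) [nat_lit 0x4200001,nat_lit 0x86318801,nat_lit 0xc6310861],
    .r (nat_lit 0x1b36) (nat_lit 4) [nat_lit 0x8a300862,nat_lit 0x4018041,nat_lit 0x4200001],
    .r (nat_lit 2) (nat_lit 13) [nat_lit 0xc6518842,nat_lit 0x210001],.c (nat_lit 0) (nat_lit 0x528c85),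
    .c (nat_lit 7) (nat_lit 0x4210862),.c (nat_lit 0) (nat_lit 0x6018c43),
    .r (nat_lit 0x174d) (nat_lit 8) [nat_lit 0x318861,nat_lit 0x210001],.c (nat_lit 0) (nat_lit 0x6018c43),
    .r (nat_lit 0x1bec) (nat_lit 10) [nat_lit 0x210001,nat_lit 65],.c (nat_lit 3) (nat_lit 2),
    .c (nat_lit 0) (nat_lit 0x6318845),.c (nat_lit 1) (nat_lit 0x8000c02),.c (nat_lit 1) (nat_lit 0x4000c02),
    .c (nat_lit 3) (nat_lit 0x300802),.c (nat_lit 0) (nat_lit 0x805),
    .r (nat_lit 0x1bbb) (nat_lit 4) [nat_lit 0x6300041,nat_lit 0x4200001,nat_lit 0x86318041],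
    .r (nat_lit 0x1b5d) (nat_lit 3) [nat_lit 0x4018001,nat_lit 0x210001,nat_lit 0x220061],.c (nat_lit 5) (nat_lit 2),
    .r (nat_lit 0x11a7) (nat_lit 6) [nat_lit 0x18c00001,nat_lit 0x35ad03121,nat_lit 0x18e739801,nat_lit 0x18c631c81],
    .c (nat_lit 1) (nat_lit 0x8300002),.r (nat_lit 0x6c0) (nat_lit 0) [nat_lit 0x10800001,nat_lit 0x500001,
    nat_lit 0x200600081,nat_lit 0x25354a121,nat_lit 0x840001],.c (nat_lit 0) (nat_lit 0x6218c45),
    .c (nat_lit 1) (nat_lit 0x4300002),.c (nat_lit 0) (nat_lit 0x6318845),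
    .r (nat_lit 0x1bbb) (nat_lit 4) [nat_lit 0x6000041,nat_lit 0x4200001,nat_lit 0x86018041],
    .c (nat_lit 6) (nat_lit 2),.c (nat_lit 0) (nat_lit 0x200005),.c (nat_lit 7) (nat_lit 2)]]

/-- nodes -/
noncomputable def rD7k_22_10 : List RJ :=
  [.l (nat_lit 13) (nat_lit 0x748) (nat_lit 6) (nat_lit 0x3b7000003b70000031d0000031d00000274000003ea00000335000003350000034300000343000002b3000002b30000039d0000039d) (nat_lit 0x3300000033000000cd000000cd0000000000000176000000b5000000b5000000a7000000a700000137000001370000004d0000004d)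
    (nat_lit 0x1f00ff03ac2261db84f44244221880c4058013c1b50c686983e01750ba874620919314d86402fc116094085c3de1750898510288074869c4f827c15309482e41d613a0c905d41d61280a206521a713a09304ec2760c107987a832410484f434e1a714803f837e1b30e687041d213d19d8a2c7463b719483a482429019a8cd461e3431598b3c4fa39d29b108849827c19a86cc5002581390a383fc2321740ba064c21213a09f066a1bf1400a0050428e0f308685d01d817e0c404ec2521a1870451c28e1400a706382181f30c3864031013b0a9861e1cd14109c8538280188083087436212804f03cc1d616784f4434232106086022017c13305884582c00c105c85660e90f307f862031c10a044056c2661ef0c686483241ce8a2c3b02e81b10c384cc1621880ae085c36a1ea09d04fa33b1740ba08743e615b09985b0310)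
    (nat_lit 0x1f01d20e907483a41d20e907483a41d20e907483a41d207f83e03a41d20e907483a41d20e907483a41d20e907480eb0ba85107483a41d20e907483a41d20e907483a41d2044c2ea1440a20e907483a41d20e907483a41d20e9074815f8e8c1d23291481d20e907483a41d20e907483a41d2027a2090d3869c1fc2903a41d20e907483a41d20e907481090c984f82740df8cd45007483a41d20e907483a41d2084453613e093036633512c0a00e907483a41d20e907481880c8054c2760e68c3c4e42821401d20e907483a41d206202fc12909d83823431470a385382803a41d20e9074816008b02e418207489ac3fc1e618e0c402207483a41d202782500eb079827a2cf119086843020c0be0440e907481b510b84e83d419d89f45d02e81f310e84cc2b61881d2063438e16a0b9049639d174076061c3620b10998570310)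
    (nat_lit 4) (nat_lit 213)
    [[nat_lit 2,nat_lit 18,nat_lit 17,nat_lit 33,nat_lit 49,nat_lit 0x1011,nat_lit 0x10011,nat_lit 0x110021,
    nat_lit 0x100011,nat_lit 0x100021,nat_lit 0x1001,nat_lit 0x1021,nat_lit 0x2001,nat_lit 0x10001,nat_lit 0x110011,
    nat_lit 0x10021,nat_lit 0x10031,nat_lit 0x11001,nat_lit 0x20001,nat_lit 0x100001,nat_lit 0x101001,
    nat_lit 0x1000011],[nat_lit 32,nat_lit 48,nat_lit 64,nat_lit 80,nat_lit 96,nat_lit 0x10040,nat_lit 0x110040,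
    nat_lit 0x100040,nat_lit 0x1000040,nat_lit 0x1030,nat_lit 0x10030,nat_lit 0x110030,nat_lit 0x100030,
    nat_lit 0x1000030,nat_lit 288,nat_lit 0x1020,nat_lit 0x101020,nat_lit 0x10020,nat_lit 0x10120,nat_lit 0x110020,
    nat_lit 0x210020,nat_lit 0x1110020,nat_lit 0x1010020,nat_lit 0x100020,nat_lit 0x100120,nat_lit 0x200020,
    nat_lit 0x1100020,nat_lit 0x1000020,nat_lit 272,nat_lit 0x1010,nat_lit 0x1110,nat_lit 0x2010,nat_lit 0x11010,
    nat_lit 0x111010,nat_lit 0x101010,nat_lit 0x1001010,nat_lit 0x10010,nat_lit 0x10110,nat_lit 0x20010,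
    nat_lit 0x120010,nat_lit 0x110010,nat_lit 0x110110,nat_lit 0x220010,nat_lit 0x210010,nat_lit 0x1110010,
    nat_lit 0x1010010,nat_lit 0x100010,nat_lit 0x100110,nat_lit 0x200010,nat_lit 0x1100010,nat_lit 0x1000010,
    nat_lit 0x2000020],[nat_lit 512,nat_lit 0x1100,nat_lit 0x101100,nat_lit 0x10100,nat_lit 0x110100,nat_lit 0x100100,
    nat_lit 0x1000100],[nat_lit 0x2000,nat_lit 0x11000,nat_lit 0x111000,nat_lit 0x101000],[nat_lit 0x20000,
    nat_lit 0x120000,nat_lit 0x110000,nat_lit 0x220000,nat_lit 0x210000,nat_lit 0x1110000,nat_lit 0x1010000],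
    [nat_lit 0x200000,nat_lit 0x1100000],[]]
    [.c (nat_lit 1) (nat_lit 2),.c (nat_lit 1) (nat_lit 0x32002),.r (nat_lit 4) (nat_lit 8) [nat_lit 0x3000231,
    nat_lit 33],.r (nat_lit 75) (nat_lit 6) [nat_lit 0x230021,nat_lit 0x7357631,nat_lit 0x2001],
    .r (nat_lit 0xa2a) (nat_lit 13) [nat_lit 0x760021,nat_lit 0x8001,nat_lit 0x739021,nat_lit 0x9450851,
    nat_lit 0x8620031],.c (nat_lit 5) (nat_lit 0x300023),.c (nat_lit 4) (nat_lit 0x300023),
    .c (nat_lit 1) (nat_lit 0x234232),.r (nat_lit 0x1b4d) (nat_lit 0) [nat_lit 0x3033231,nat_lit 0x2001,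
    nat_lit 0x2020001],.r (nat_lit 0xa2c) (nat_lit 13) [nat_lit 0x2020001,nat_lit 0x8420031,nat_lit 0x7530021,
    nat_lit 0x2203231,nat_lit 0x9532021],.c (nat_lit 0) (nat_lit 0x3302),.c (nat_lit 0) (nat_lit 0x3302),
    .c (nat_lit 0) (nat_lit 0x3502),.c (nat_lit 0) (nat_lit 0x330323),.c (nat_lit 1) (nat_lit 0x202232),
    .r (nat_lit 10) (nat_lit 1) [nat_lit 0x200231,nat_lit 0x2322321],
    .r (nat_lit 0xa1f) (nat_lit 13) [nat_lit 0x2020001,nat_lit 0x3502321,nat_lit 0x4403231,nat_lit 0x9730021,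
    nat_lit 0x2400231],.c (nat_lit 2) (nat_lit 0x300023),.r (nat_lit 0xeed) (nat_lit 13) [nat_lit 0x2001,
    nat_lit 0x2020001,nat_lit 0x3303201,nat_lit 0x4202321],.c (nat_lit 0) (nat_lit 0x330323),
    .c (nat_lit 0) (nat_lit 0x3302),.r (nat_lit 0xa1f) (nat_lit 13) [nat_lit 0x2020001,nat_lit 0x5330021,
    nat_lit 0x6220031,nat_lit 0xb553221,nat_lit 0x4222031],.c (nat_lit 2) (nat_lit 2),
    .r (nat_lit 45) (nat_lit 6) [nat_lit 33,nat_lit 0x7077631,nat_lit 0x2001],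
    .r (nat_lit 4) (nat_lit 8) [nat_lit 0x5450432,nat_lit 0x540022],
    .r (nat_lit 0x1654) (nat_lit 13) [nat_lit 0xba0021,nat_lit 0xa001,nat_lit 0xb0bba31,nat_lit 0xaa00031],
    .r (nat_lit 75) (nat_lit 6) [nat_lit 34,nat_lit 0xd0ddc32,nat_lit 0x2001],
    .r (nat_lit 0x1b8f) (nat_lit 9) [nat_lit 0x2320321,nat_lit 0x2020001,nat_lit 0x2001],
    .r (nat_lit 75) (nat_lit 6) [nat_lit 0x2022321,nat_lit 0x9099831,nat_lit 0x2001],
    .r (nat_lit 0xa2d) (nat_lit 13) [nat_lit 0x2020001,nat_lit 0xa800031,nat_lit 0x9900021,nat_lit 0x4633231,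
    nat_lit 0xb902021],.r (nat_lit 0xa2e) (nat_lit 13) [nat_lit 0x2020001,nat_lit 0x9900021,nat_lit 0xa800031,
    nat_lit 0xfb33221,nat_lit 0x8802031],.r (nat_lit 0x1b4d) (nat_lit 0) [nat_lit 0x3450231,nat_lit 0x2001,
    nat_lit 0x2020001],.r (nat_lit 0x196a) (nat_lit 1) [nat_lit 0x2020001,nat_lit 0x4344521,nat_lit 0x3033201],
    .r (nat_lit 4) (nat_lit 8) [nat_lit 0x5253431,nat_lit 0x2342321],
    .r (nat_lit 0x1655) (nat_lit 13) [nat_lit 0x760021,nat_lit 0x6001,nat_lit 0x7077631,nat_lit 0x6600031],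
    .r (nat_lit 0xa2f) (nat_lit 13) [nat_lit 0x2020001,nat_lit 0x7700021,nat_lit 0x8600031,nat_lit 0xd933221,
    nat_lit 0x6602031],.c (nat_lit 2) (nat_lit 0x330002),.c (nat_lit 0) (nat_lit 0x323023),
    .r (nat_lit 0xeed) (nat_lit 13) [nat_lit 0x2001,nat_lit 0x2020001,nat_lit 0x3303201,nat_lit 0x230231],
    .c (nat_lit 0) (nat_lit 0x325323),.c (nat_lit 0) (nat_lit 0x23323),.c (nat_lit 2) (nat_lit 0x202232),
    .c (nat_lit 0) (nat_lit 0x505543),.r (nat_lit 10) (nat_lit 1) [nat_lit 0x230231,nat_lit 0x2342321],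
    .c (nat_lit 4) (nat_lit 0x323223),.c (nat_lit 0) (nat_lit 0x727765),.c (nat_lit 0) (nat_lit 0x23323),
    .c (nat_lit 0) (nat_lit 0x505543),.r (nat_lit 75) (nat_lit 6) [nat_lit 0x200021,nat_lit 0x7377631,nat_lit 0x2001],
    .r (nat_lit 0x1b8f) (nat_lit 9) [nat_lit 0x3021,nat_lit 0x2020001,nat_lit 0x2001],
    .c (nat_lit 0) (nat_lit 0x220003),.c (nat_lit 6) (nat_lit 0x30302),.c (nat_lit 4) (nat_lit 0x330002),
    .r (nat_lit 0x1847) (nat_lit 7) [nat_lit 0x4222301,nat_lit 0x3033201,nat_lit 0x2022321,nat_lit 0x3303201],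
    .c (nat_lit 1) (nat_lit 0x300023),.c (nat_lit 4) (nat_lit 0x202232),
    .r (nat_lit 0x1b96) (nat_lit 2) [nat_lit 0x2020001,nat_lit 33,nat_lit 0x30031],.c (nat_lit 1) (nat_lit 0x32302),
    .c (nat_lit 0) (nat_lit 0x323323),.c (nat_lit 5) (nat_lit 0x330002),.c (nat_lit 0) (nat_lit 0x505543),
    .c (nat_lit 5) (nat_lit 0x202232),.c (nat_lit 0) (nat_lit 0x303323),.c (nat_lit 1) (nat_lit 803),
    .c (nat_lit 1) (nat_lit 0x533543),.c (nat_lit 6) (nat_lit 0x202232),.c (nat_lit 4) (nat_lit 0x303023),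
    .r (nat_lit 0x1847) (nat_lit 7) [nat_lit 0x4222301,nat_lit 0x3033201,nat_lit 0x204031,nat_lit 0x3303201],
    .c (nat_lit 0) (nat_lit 0x303323),.c (nat_lit 6) (nat_lit 0x330002),.c (nat_lit 0) (nat_lit 0x737765),
    .r (nat_lit 4) (nat_lit 8) [nat_lit 0x3030231,nat_lit 0x20021],.r (nat_lit 0x196a) (nat_lit 1) [nat_lit 0x2020001,
    nat_lit 0x2022321,nat_lit 0x3033201],.r (nat_lit 10) (nat_lit 1) [nat_lit 0x4404032,nat_lit 0x540022],
    .c (nat_lit 3) (nat_lit 2),.r (nat_lit 10) (nat_lit 1) [nat_lit 33,nat_lit 0x2022031],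
    .c (nat_lit 4) (nat_lit 0x300202),.c (nat_lit 0) (nat_lit 0x23323),.c (nat_lit 1) (nat_lit 0x32323),
    .c (nat_lit 0) (nat_lit 0x200303),.c (nat_lit 0) (nat_lit 0x200003),.c (nat_lit 4) (nat_lit 2),
    .c (nat_lit 1) (nat_lit 0x332023),.r (nat_lit 10) (nat_lit 1) [nat_lit 0x4222321,nat_lit 0x3300231],
    .r (nat_lit 0x1c01) (nat_lit 2) [nat_lit 0x2200001,nat_lit 0x302031,nat_lit 33],.c (nat_lit 5) (nat_lit 2),
    .c (nat_lit 0) (nat_lit 0x505543),.c (nat_lit 0) (nat_lit 0x333325),.c (nat_lit 1) (nat_lit 0x550543),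
    .c (nat_lit 0) (nat_lit 0x333523),.c (nat_lit 0) (nat_lit 0x333323),.c (nat_lit 0) (nat_lit 0x333323),
    .c (nat_lit 6) (nat_lit 2),.c (nat_lit 2) (nat_lit 0x20002)]]

/-- nodes -/
noncomputable def rD7k_22_11 : List RJ :=
  [.l (nat_lit 13) (nat_lit 0x780) (nat_lit 3) (nat_lit 0x3840000038400000358000003580000034400000344000002f7000002f7000004280000042800000319000003190000039200000392) (nat_lit 0xa4000000a4000000d0000000d0000000e4000000e4000001310000013100000000000000000000010f0000010f0000009600000096)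
    (nat_lit 0x1770b805682a4139099844227f1ed0ed050621d1770b785c02ee1220ad054027212989c47983a613a89d45fc2d015a0a9056c28812b0b9040a2271ac0d604ce20115a0b084882b41230ad851027411386ec5082f814889245f82ec13909984e82e41660a884e61ff1a20d10416309157099854027214409584d82cc109884c68828a11a8aa45042ae13889fc37622710987fc5001ba1418bdc3d01e814789844a622111388144262731a30a005ee2f70f208084622611d30ed05f03581450d105ee2f72070aa06323191e20e587983da1420d6068834417b8a0c85040e18c8c647d43bc13a88744922011548c244041e818c8c643c020a1168a0c4ea283148899c46a20b0f207a063231910507805262831680b785d82c215709984c22611de0e585062831770bf05fc2ee17e0ad05042ae1188a3c7d43c414988b45f82ee)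
    (nat_lit 0x1771e00f007803c01e00f007803c01e00f007803c01e005c02ee3c01e00f007803c01e00f007803c01e00f0078015a091056c7803c01e00f007803c01e00f007803c01e005482b41440ad8f007803c01e00f007803c01e00f007801390a804ac2881661e00f007803c01e00f007803c01e004cc27217209d05442cc3c01e00f007803c01e00f00780110894c40a227139884c5007803c01e00f007803c01e004fe27111386ec3fe2130dd0a00f007803c01e00f007801ed0f306b02841a20d105062f72071e00f007803c01e007683a61ac0be068828a17b8bdc55040e3c01e00f0078014189d44ce29110588d43d01e418c8c643c07803c01e0043a27510089246122a90f408086323191050780f007801770bf85682fc1570a0851e2311e20fa845a2931771e005bc2d01610bb04cc2ae130898472c3bc1418a0c5f82ee)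
    (nat_lit 4) (nat_lit 49)
    [[nat_lit 2,nat_lit 17,nat_lit 33,nat_lit 0x1011,nat_lit 0x10011,nat_lit 0x1001,nat_lit 0x2001,nat_lit 0x11001,
    nat_lit 0x101001,nat_lit 0x10001,nat_lit 0x100001,nat_lit 0x1000001],[nat_lit 32,nat_lit 48,nat_lit 0x1020,
    nat_lit 0x10020,nat_lit 0x100020,nat_lit 0x1000020,nat_lit 272,nat_lit 0x1010,nat_lit 0x2010,nat_lit 0x11010,
    nat_lit 0x101010,nat_lit 0x1001010,nat_lit 0x10010,nat_lit 0x110010,nat_lit 0x1010010,nat_lit 0x100010,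
    nat_lit 0x200010,nat_lit 0x1100010,nat_lit 0x1000010],[nat_lit 512,nat_lit 0x1100,nat_lit 0x10100,
    nat_lit 0x100100],[nat_lit 0x2000,nat_lit 0x12000,nat_lit 0x102000,nat_lit 0x1002000,nat_lit 0x11000,
    nat_lit 0x21000,nat_lit 0x111000,nat_lit 0x1011000,nat_lit 0x101000,nat_lit 0x201000,nat_lit 0x1101000,
    nat_lit 0x1001000],[nat_lit 0x20000,nat_lit 0x1020000,nat_lit 0x110000,nat_lit 0x1110000,nat_lit 0x1010000],
    [nat_lit 0x200000,nat_lit 0x1100000],[nat_lit 0x2000000]]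
    [.c (nat_lit 1) (nat_lit 2),.r (nat_lit 0x174f) (nat_lit 1) [nat_lit 0x20001,nat_lit 33],
    .r (nat_lit 0x138c) (nat_lit 1) [nat_lit 0x395851,nat_lit 0x580001,nat_lit 0x305041,nat_lit 0x408001],
    .r (nat_lit 4) (nat_lit 3) [nat_lit 0x30231,nat_lit 0x323021],.r (nat_lit 0x1b3d) (nat_lit 4) [nat_lit 0x2001,
    nat_lit 0x30231,nat_lit 0x20001],.c (nat_lit 0) (nat_lit 0x20403),
    .r (nat_lit 0x1b5d) (nat_lit 10) [nat_lit 0x204031,nat_lit 0x323021,nat_lit 0x3021],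
    .r (nat_lit 32) (nat_lit 2) [nat_lit 0x30231,nat_lit 0x20001],.r (nat_lit 32) (nat_lit 10) [nat_lit 0x30231,
    nat_lit 0x323021],.r (nat_lit 0x1b8e) (nat_lit 6) [nat_lit 0x33021,nat_lit 0x20001,nat_lit 0x22001],
    .r (nat_lit 0x1add) (nat_lit 10) [nat_lit 0x22031,nat_lit 33,nat_lit 0x3021],.c (nat_lit 1) (nat_lit 514),
    .c (nat_lit 2) (nat_lit 2),.r (nat_lit 0x138d) (nat_lit 1) [nat_lit 0x7ddc51,nat_lit 0x7c0001,nat_lit 65,
    nat_lit 0x60c001],.r (nat_lit 4) (nat_lit 3) [nat_lit 0x355432,nat_lit 0x340022],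
    .r (nat_lit 0x1c00) (nat_lit 4) [nat_lit 0x2001,nat_lit 0x20001,nat_lit 0x200001],
    .r (nat_lit 0x138e) (nat_lit 9) [nat_lit 0x340001,nat_lit 0x355431,nat_lit 0x200001,nat_lit 0x204001],
    .r (nat_lit 0x138c) (nat_lit 1) [nat_lit 0x399851,nat_lit 0x580001,nat_lit 0x300041,nat_lit 0x408001],
    .r (nat_lit 4) (nat_lit 3) [nat_lit 0x303231,nat_lit 33],.r (nat_lit 0x1ba2) (nat_lit 10) [nat_lit 33,
    nat_lit 0x42321,nat_lit 0x30231],.r (nat_lit 0x138f) (nat_lit 7) [nat_lit 0x599831,nat_lit 0x400031,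
    nat_lit 0x408031,nat_lit 0x580021],.r (nat_lit 0x1989) (nat_lit 5) [nat_lit 0x53231,nat_lit 0x20001,
    nat_lit 0x22001],.r (nat_lit 0x1a7f) (nat_lit 6) [nat_lit 0x53231,nat_lit 0x20001,nat_lit 0x22001],
    .r (nat_lit 4) (nat_lit 3) [nat_lit 0x33231,nat_lit 0x320021],.c (nat_lit 0) (nat_lit 0x35545),
    .c (nat_lit 1) (nat_lit 0x22432),.r (nat_lit 0x1b3d) (nat_lit 4) [nat_lit 0x2001,nat_lit 0x33231,nat_lit 0x20001],
    .c (nat_lit 0) (nat_lit 0x35545),.r (nat_lit 0x1c00) (nat_lit 4) [nat_lit 0x2001,nat_lit 0x20001,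
    nat_lit 0x200001],.r (nat_lit 0x1c01) (nat_lit 1) [nat_lit 0x33231,nat_lit 0x222321,nat_lit 0x22001],
    .r (nat_lit 0x174f) (nat_lit 1) [nat_lit 0x20001,nat_lit 0x2021],.c (nat_lit 3) (nat_lit 2),
    .r (nat_lit 0x1b5d) (nat_lit 10) [nat_lit 0x22031,nat_lit 33,nat_lit 0x230021],
    .r (nat_lit 32) (nat_lit 2) [nat_lit 0x303231,nat_lit 0x20001],.r (nat_lit 32) (nat_lit 10) [nat_lit 0x303231,
    nat_lit 33],.c (nat_lit 4) (nat_lit 2),.r (nat_lit 0x1c00) (nat_lit 4) [nat_lit 0x2001,nat_lit 0x20001,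
    nat_lit 0x200001],.r (nat_lit 0x1c00) (nat_lit 4) [nat_lit 0x2001,nat_lit 0x20001,nat_lit 0x200001],
    .r (nat_lit 0x1b5d) (nat_lit 10) [nat_lit 0x202031,nat_lit 0x320021,nat_lit 33],
    .r (nat_lit 0x1a7c) (nat_lit 0) [nat_lit 0x20001,nat_lit 0x303021,nat_lit 0x30231],
    .r (nat_lit 32) (nat_lit 2) [nat_lit 0x355432,nat_lit 0x20001],.r (nat_lit 0x174e) (nat_lit 1) [nat_lit 0x30231,
    nat_lit 0x20001],.r (nat_lit 32) (nat_lit 2) [nat_lit 0x33231,nat_lit 0x20001],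
    .r (nat_lit 78) (nat_lit 2) [nat_lit 0x3001,nat_lit 0x305021,nat_lit 0x204001,nat_lit 0x22001],
    .r (nat_lit 32) (nat_lit 10) [nat_lit 0x355432,nat_lit 0x340022],.r (nat_lit 32) (nat_lit 10) [nat_lit 0x33231,
    nat_lit 0x320021],.c (nat_lit 0) (nat_lit 0x20005),.c (nat_lit 5) (nat_lit 2),
    .r (nat_lit 0x1c00) (nat_lit 4) [nat_lit 0x2001,nat_lit 0x20001,nat_lit 0x200001],
    .c (nat_lit 0) (nat_lit 0x35545),.r (nat_lit 0x1b32) (nat_lit 10) [nat_lit 0x33231,nat_lit 0x20031,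
    nat_lit 0x2021],.r (nat_lit 0x1b8e) (nat_lit 6) [nat_lit 0x30021,nat_lit 0x20001,nat_lit 0x22001],
    .c (nat_lit 6) (nat_lit 2),.r (nat_lit 0x1add) (nat_lit 10) [nat_lit 0x20031,nat_lit 0x2021,nat_lit 33],
    .c (nat_lit 7) (nat_lit 2)],
    .l (nat_lit 11) (nat_lit 480) (nat_lit 4) (nat_lit 0xc2000000c2000000bc000000bc000000b9000000b9000000be000000be000000ba000000ba000000d2000000aa000000c9000000c9) (nat_lit 0x1000000010000000160000001600000019000000190000001400000014000000180000001800000028000000000000000900000009)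
    (nat_lit 0x1642c8560ac1522a4570ae2343283a0c217225c550b21582b0518a315c2d08b0c61342f05c8b91582b0560ae13a28c460ae1542904a0501662cc560ac14c2b0518a31542a04a09e12c2f0598b91462a4518a3140280558a514227c458c91602b8518a9146274500a01562945089f122324580b01682b8540ae14a294560aa12c2804b0be16a2d4570ae154230558ab1542b0540a61242e04a8b518c3284f0a413e27c530a0150288490b81622d48b11a1282a8508a1150258510a81242e8588ab1783085e0501923245c0be1742e0580d20b23244d07412c2504888b124258490920fc2c0618a117225c5c8b31602b85a8b51562d4508c91cc3105c8b91662cc580b012a2d4588b1186164600e6)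
    (nat_lit 0x164780f01e03c0780f01e03c0780f01e03c0780590b23c0780f01e03c0780f01e03c0780f01e01582b0561e03c0780f01e03c0780f01e03c0780560ac15c2b0f01e03c0780f01e03c0780f01e015228c4e8a3140780f01e03c0780f01e03c0780548a314628c500a03c0780f01e03c0780f01e015c2b8460aa1562ac561e03c0780f01e03c0780570b415c2a0528a51542b0f01e03c0780f01e0234458550941422844b0a8150780f01e03c0780650c61482784f89f140298510a83c0780f01e00e82684a0961162444b092124248581e03c0780610bc0a02f0648c917c2e05c0ba1a42c0f01e01722e4598b31602c05a8951622c42c8c31cc7804b8b91662e4570b016a2d45a8ab192284620e6)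
    (nat_lit 4) (nat_lit 27)
    [[nat_lit 2,nat_lit 17,nat_lit 33,nat_lit 273,nat_lit 0x1011,nat_lit 0x10011,nat_lit 0x100011,nat_lit 0x1000011,
    nat_lit 257,nat_lit 0x1001,nat_lit 0x10001,nat_lit 0x100001,nat_lit 0x1000001],[nat_lit 32,nat_lit 0x100020,
    nat_lit 0x200020,nat_lit 272,nat_lit 0x100110,nat_lit 0x1010,nat_lit 0x101010,nat_lit 0x10010,nat_lit 0x110010,
    nat_lit 0x100010,nat_lit 0x200010,nat_lit 0x1000010,nat_lit 0x1100010],[nat_lit 512,nat_lit 0x1100,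
    nat_lit 0x101100,nat_lit 0x10100,nat_lit 0x110100,nat_lit 0x100100],[nat_lit 0x2000,nat_lit 0x11000,
    nat_lit 0x101000,nat_lit 0x111000,nat_lit 0x1001000],[nat_lit 0x20000,nat_lit 0x110000,nat_lit 0x1010000],
    [nat_lit 0x200000,nat_lit 0x1100000],[nat_lit 0x2000000]]
    [.c (nat_lit 1) (nat_lit 2),.c (nat_lit 0) (nat_lit 0x325989),.c (nat_lit 4) (nat_lit 0x228894),
    .r (nat_lit 0x19bf) (nat_lit 1) [nat_lit 0x3030452,nat_lit 0x2200002,nat_lit 0x2028542,nat_lit 0x3060542],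
    .r (nat_lit 4) (nat_lit 3) [nat_lit 0x3231,nat_lit 0x334042],.c (nat_lit 4) (nat_lit 0x2232),
    .c (nat_lit 0) (nat_lit 0x335985),.c (nat_lit 5) (nat_lit 0x202454),
    .r (nat_lit 0x1c06) (nat_lit 4) [nat_lit 0x3021,nat_lit 0x2001,nat_lit 0x224052],.c (nat_lit 0) (nat_lit 0x22505),
    .c (nat_lit 0) (nat_lit 0x220009),.c (nat_lit 0) (nat_lit 0x335985),.c (nat_lit 0) (nat_lit 0x32598d),
    .c (nat_lit 2) (nat_lit 2),.c (nat_lit 5) (nat_lit 0x222452),.r (nat_lit 32) (nat_lit 2) [nat_lit 34,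
    nat_lit 0x2001],.r (nat_lit 4) (nat_lit 3) [nat_lit 0x330452,nat_lit 33],.c (nat_lit 5) (nat_lit 0x33045),
    .c (nat_lit 0) (nat_lit 0x330989),.c (nat_lit 5) (nat_lit 0x220454),.c (nat_lit 0) (nat_lit 0x3545),
    .c (nat_lit 3) (nat_lit 0x33045),.c (nat_lit 0) (nat_lit 0x355987),
    .r (nat_lit 0x19ed) (nat_lit 7) [nat_lit 0x2001,nat_lit 33,nat_lit 0x3539892],.c (nat_lit 5) (nat_lit 0x422454),
    .r (nat_lit 0x19bf) (nat_lit 1) [nat_lit 0x224542,nat_lit 0x2200002,nat_lit 0x334452,nat_lit 0x5325452],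
    .c (nat_lit 3) (nat_lit 2),.r (nat_lit 32) (nat_lit 2) [nat_lit 0x3535854,nat_lit 0x2001],
    .c (nat_lit 5) (nat_lit 0x202405),.r (nat_lit 32) (nat_lit 2) [nat_lit 0x330452,nat_lit 0x2001],
    .c (nat_lit 2) (nat_lit 0x33045),.r (nat_lit 32) (nat_lit 10) [nat_lit 0x330452,nat_lit 33],
    .c (nat_lit 4) (nat_lit 2),.c (nat_lit 2) (nat_lit 0x335544),.c (nat_lit 0) (nat_lit 0x2003),
    .r (nat_lit 32) (nat_lit 2) [nat_lit 0x3355442,nat_lit 0x2001],.c (nat_lit 5) (nat_lit 0x203004),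
    .c (nat_lit 5) (nat_lit 2),.r (nat_lit 4) (nat_lit 7) [nat_lit 0x330452,nat_lit 33],
    .r (nat_lit 0x1b19) (nat_lit 6) [nat_lit 0x3021,nat_lit 0x2001,nat_lit 0x2208092],.c (nat_lit 6) (nat_lit 2),
    .r (nat_lit 0x1bdf) (nat_lit 6) [nat_lit 33,nat_lit 0x2200542],.c (nat_lit 7) (nat_lit 2)],
    .l (nat_lit 10) (nat_lit 240) (nat_lit 3) (nat_lit 0x67000000670000006400000064000000640000006400000061000000610000006a0000006a0000006b0000006b000000780000005c) (nat_lit 0x11000000110000001400000014000000140000001400000017000000170000000e0000000e0000000d0000000d0000001c00000000)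
    (nat_lit 0x1585613c5914c531684c164591d86212c671285611c5315c5314050164592387a1146114c591405c1405c134490d856174571203011c4f1405011050134471785615c591206414c531405c15850134591505615c4f1306415c53110501285614c4d1584a15c51130641404c11c4913459158501644d15054114611405a1344d14c4d12856134531504c1145d16459158561285614c4d1905c184631106a16459178361585413459170641745d1186c1e862164571444f13054174631705e13c6b2387615c5d15c5715054174611785c13c6b184671903019064174611b06a1ac6b100781144b120481304c114451184413c4f10040)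
    (nat_lit 0x158f03c0f03c0f03c0f03c0f03c0f03c0f0158563c0f03c0f03c0f03c0f03c0f03c0f013c47140f03c0f03c0f03c0f03c0f03c0f016453170503c0f03c0f03c0f03c0f03c0f014c5714044158f03c0f03c0f03c0f03c0f014c5317050140563c0f03c0f03c0f03c0f0168501344d13453158f03c0f03c0f03c0f013050124471644d140563c0f03c0f03c0f0164590d85e150561644d190f03c0f03c0f016459158561584a13453170643c0f03c0f01d88e1745715c57150541845d170f03c0f01887a15c5913c511504c18c5d1785c3c0f012c45120481304c114451104613c4f100f019c610c064190641845d1a86c1ac6b1e040)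
    (nat_lit 5) (nat_lit 43)
    [[nat_lit 2,nat_lit 3,nat_lit 0x1002,nat_lit 0x100002,nat_lit 0x1000002,nat_lit 17,nat_lit 0x100011,nat_lit 257,
    nat_lit 0x100101,nat_lit 0x1001,nat_lit 0x101001,nat_lit 0x10001,nat_lit 0x110001,nat_lit 0x100001,
    nat_lit 0x200001,nat_lit 0x1000001,nat_lit 0x1100001,nat_lit 0x1001001],[nat_lit 32,nat_lit 272,nat_lit 0x1010,
    nat_lit 0x10010,nat_lit 0x100010,nat_lit 0x101010],[nat_lit 512,nat_lit 0x1100,nat_lit 0x101100,nat_lit 0x10100,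
    nat_lit 0x110100,nat_lit 0x100100,nat_lit 0x200100,nat_lit 0x1100100,nat_lit 0x1000100],[nat_lit 0x2000,
    nat_lit 0x102000,nat_lit 0x1002000,nat_lit 0x11000,nat_lit 0x111000,nat_lit 0x101000,nat_lit 0x201000,
    nat_lit 0x1101000,nat_lit 0x1001000],[nat_lit 0x20000,nat_lit 0x110000,nat_lit 0x120000,nat_lit 0x1110000,
    nat_lit 0x1010000],[nat_lit 0x200000,nat_lit 0x1100000],[nat_lit 0x2000000]]
    [.c (nat_lit 1) (nat_lit 2),.r (nat_lit 8) (nat_lit 13) [nat_lit 0x865010a2,nat_lit 0x200001],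
    .c (nat_lit 3) (nat_lit 0x6201404),.r (nat_lit 8) (nat_lit 13) [nat_lit 0x6501062,nat_lit 0x200001],
    .r (nat_lit 0x1b5d) (nat_lit 9) [nat_lit 0xc6000082,nat_lit 0x844000a2,nat_lit 0x4000001],
    .r (nat_lit 0x174d) (nat_lit 4) [nat_lit 0x10001,nat_lit 65],.r (nat_lit 0x1b96) (nat_lit 11) [nat_lit 0x200001,
    nat_lit 0x318801,nat_lit 0xc6500082],.c (nat_lit 0) (nat_lit 0x4200005),
    .r (nat_lit 8) (nat_lit 13) [nat_lit 0x300861,nat_lit 0x200001],.c (nat_lit 0) (nat_lit 0x4002009),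
    .c (nat_lit 1) (nat_lit 0xc02),.c (nat_lit 1) (nat_lit 0x42210a4),.r (nat_lit 8) (nat_lit 13) [nat_lit 0xced2b0a4,
    nat_lit 0x200001],.c (nat_lit 0) (nat_lit 0x4002809),.r (nat_lit 8) (nat_lit 13) [nat_lit 0xced030a6,
    nat_lit 0x200001],.r (nat_lit 0x19de) (nat_lit 12) [nat_lit 0x300041,nat_lit 0x200001,nat_lit 0x84800122],
    .r (nat_lit 0xe56) (nat_lit 10) [nat_lit 0xd69051a2,nat_lit 0xc0900101,nat_lit 0xa00001,nat_lit 0x80300041],
    .r (nat_lit 0x153b) (nat_lit 3) [nat_lit 0x8000001,nat_lit 0x800001,nat_lit 0x80000001,nat_lit 0xa902121],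
    .c (nat_lit 2) (nat_lit 2),.r (nat_lit 0x1b5d) (nat_lit 9) [nat_lit 0x200061,nat_lit 65,nat_lit 0x4000001],
    .r (nat_lit 8) (nat_lit 3) [nat_lit 0x210061,nat_lit 65],.r (nat_lit 0x174d) (nat_lit 4) [nat_lit 0x10001,
    nat_lit 0x84421482],.r (nat_lit 0x1a7f) (nat_lit 3) [nat_lit 0x10061,nat_lit 65,nat_lit 0x200001],
    .c (nat_lit 2) (nat_lit 0xc02),.c (nat_lit 3) (nat_lit 2),.c (nat_lit 3) (nat_lit 0x200c02),
    .c (nat_lit 3) (nat_lit 0xc02),.c (nat_lit 0) (nat_lit 0x634a509),.r (nat_lit 8) (nat_lit 13) [nat_lit 0xc692a0a2,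
    nat_lit 0x200001],.c (nat_lit 1) (nat_lit 0x4300004),.r (nat_lit 8) (nat_lit 13) [nat_lit 0xc69020a4,
    nat_lit 0x200001],.r (nat_lit 0x1b5d) (nat_lit 9) [nat_lit 0x6000041,nat_lit 0x4200061,nat_lit 0x4000001],
    .r (nat_lit 0x1c06) (nat_lit 9) [nat_lit 0x200061,nat_lit 65,nat_lit 0x4000001],.c (nat_lit 4) (nat_lit 2),
    .c (nat_lit 3) (nat_lit 0x201402),.r (nat_lit 0xd64) (nat_lit 10) [nat_lit 0x15376c0c1,nat_lit 0x880121,
    nat_lit 0x1000001,nat_lit 0x100220061],.c (nat_lit 0) (nat_lit 0x6548109),.c (nat_lit 1) (nat_lit 0x42200a4),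
    .c (nat_lit 0) (nat_lit 0x803),.c (nat_lit 6) (nat_lit 0xc02),.c (nat_lit 2) (nat_lit 0x10803),
    .r (nat_lit 0xf9d) (nat_lit 0) [nat_lit 0x20001,nat_lit 129,nat_lit 0x84000002,nat_lit 0x4000a1],
    .c (nat_lit 5) (nat_lit 2),.c (nat_lit 0) (nat_lit 0x6548909),.r (nat_lit 8) (nat_lit 13) [nat_lit 0xca92a062,
    nat_lit 0x200001],.r (nat_lit 0xe56) (nat_lit 10) [nat_lit 0x152b3c0e1,nat_lit 0x88042501,nat_lit 0xa00001,
    nat_lit 0x184021482],.r (nat_lit 0x19de) (nat_lit 12) [nat_lit 0x84021482,nat_lit 0x200001,nat_lit 0xc604a122],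
    .c (nat_lit 6) (nat_lit 2),.r (nat_lit 0x174d) (nat_lit 5) [nat_lit 0x210061,nat_lit 65],
    .c (nat_lit 7) (nat_lit 2)]]

/-- nodes -/
noncomputable def rD7k_22_12 : List RJ :=
  [.l (nat_lit 10) (nat_lit 240) (nat_lit 3) (nat_lit 0x5a0000005a00000059000000590000005d0000005d0000005c0000005c00000064000000640000005f0000005f0000005a0000005a) (nat_lit 0xa0000000a0000000b0000000b00000007000000070000000800000008000000000000000000000005000000050000000a0000000a)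
    (nat_lit 0x140501444f14c4d148521684c1444f14050140501444f14c4d148521a05a144551405013c4f1504e1485014451164591504613c5314451138541405213c4f1644915054154551344d1485016056194571745f148581445314c53140521585814c550e4611605814c391485213c5115457140541705e1c47b148521485213c5114c65150501585c1d47f180521684c124591845f1705e0f06417c651683c1a05a164590e45d1585c1903c1845f180641544f15046160581fc7b17c651405a154531445115054160521d4711845f168501545514050154530e453148521903c1545315050140501544f14c51180521805a1545514054)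
    (nat_lit 0x140f03c0f03c0f03c0f03c0f03c0f03c0f0140503c0f03c0f03c0f03c0f03c0f03c0f014451150f03c0f03c0f03c0f03c0f03c0f013c4f138543c0f03c0f03c0f03c0f03c0f014c5314850160f03c0f03c0f03c0f03c0f01344d14052158583c0f03c0f03c0f03c0f0148521444f19453140f03c0f03c0f03c0f0148521444f15c55150503c0f03c0f03c0f0168681645917439170560f0f03c0f03c0f01305a1644917c611785c1903c3c0f03c0f01445115054148581c47517c61140f03c0f013c5511854160581ec7f1945f168503c0f01405013c5514453148601686015455150f01405014c5514c39148520f06414c5514054)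
    (nat_lit 5) (nat_lit 47)
    [[nat_lit 2,nat_lit 0x10002,nat_lit 17,nat_lit 0x10011,nat_lit 257,nat_lit 0x10101,nat_lit 513,nat_lit 0x1001,
    nat_lit 0x1101,nat_lit 0x10001,nat_lit 0x20001,nat_lit 0x100001,nat_lit 0x100101,nat_lit 0x110001,
    nat_lit 0x1000001,nat_lit 0x1010001,nat_lit 0x1000101],[nat_lit 32,nat_lit 0x100020,nat_lit 272,nat_lit 0x10010,
    nat_lit 0x110010,nat_lit 0x100010,nat_lit 0x200010,nat_lit 0x1000010,nat_lit 0x1100010],[nat_lit 512,nat_lit 768,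
    nat_lit 0x10200,nat_lit 0x100200,nat_lit 0x1100,nat_lit 0x10100,nat_lit 0x11100,nat_lit 0x110100,
    nat_lit 0x1010100,nat_lit 0x100100,nat_lit 0x1000100],[nat_lit 0x2000,nat_lit 0x11000,nat_lit 0x101000,
    nat_lit 0x201000,nat_lit 0x1001000],[nat_lit 0x20000,nat_lit 0x110000,nat_lit 0x1110000,nat_lit 0x1010000],
    [nat_lit 0x200000,nat_lit 0x1200000,nat_lit 0x1100000],[nat_lit 0x2000000]]
    [.c (nat_lit 1) (nat_lit 2),.c (nat_lit 0) (nat_lit 0x11003),.c (nat_lit 0) (nat_lit 0x201805),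
    .c (nat_lit 2) (nat_lit 0x228c04),.c (nat_lit 0) (nat_lit 0x6318085),
    .r (nat_lit 4) (nat_lit 12) [nat_lit 0xc60010a2,nat_lit 0x4518082],
    .r (nat_lit 0x1926) (nat_lit 4) [nat_lit 0x10001,nat_lit 0x200001,nat_lit 0x4000001,nat_lit 0x80000001],
    .c (nat_lit 6) (nat_lit 0x6000c04),.r (nat_lit 0x1926) (nat_lit 4) [nat_lit 0x10001,nat_lit 0x200001,
    nat_lit 0x4000001,nat_lit 0x80000001],.c (nat_lit 0) (nat_lit 0x11003),
    .r (nat_lit 0x1c06) (nat_lit 7) [nat_lit 0x804100a2,nat_lit 0x4518082,nat_lit 65],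
    .c (nat_lit 0) (nat_lit 0x200805),.r (nat_lit 0x1b66) (nat_lit 7) [nat_lit 0x184401482,nat_lit 0xc6529082,
    nat_lit 0xc45010a2],.c (nat_lit 0) (nat_lit 0x10803),.c (nat_lit 0) (nat_lit 0x6318085),
    .r (nat_lit 0x1a29) (nat_lit 7) [nat_lit 0x804100a2,nat_lit 0xc60010a2,nat_lit 0x4518082],
    .c (nat_lit 6) (nat_lit 0x42200a4),.c (nat_lit 2) (nat_lit 2),.c (nat_lit 6) (nat_lit 0x200003),
    .r (nat_lit 4) (nat_lit 12) [nat_lit 0xc05190a2,nat_lit 65],.r (nat_lit 0x1c06) (nat_lit 7) [nat_lit 0x840000a2,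
    nat_lit 65,nat_lit 0x6410082],.r (nat_lit 0x1bb4) (nat_lit 13) [nat_lit 0x300041,nat_lit 0x844000a2,
    nat_lit 0x200001],.c (nat_lit 0) (nat_lit 0x200007),.c (nat_lit 0) (nat_lit 0x500006),
    .r (nat_lit 0x1a29) (nat_lit 7) [nat_lit 0x840000a2,nat_lit 0xc05190a2,nat_lit 65],
    .c (nat_lit 3) (nat_lit 0x6028c85),.c (nat_lit 3) (nat_lit 2),.r (nat_lit 0x1926) (nat_lit 4) [nat_lit 0x10001,
    nat_lit 0x200001,nat_lit 0x4000001,nat_lit 0x80000001],.r (nat_lit 0x11b4) (nat_lit 4) [nat_lit 0x256d5d122,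
    nat_lit 0xc0200061,nat_lit 0x100600081,nat_lit 0x294000002],.r (nat_lit 0x1175) (nat_lit 4) [nat_lit 0xc6519042,
    nat_lit 0x84000002,nat_lit 0xc6019062,nat_lit 0x80410002],.r (nat_lit 0x1b66) (nat_lit 7) [nat_lit 0x104411482,
    nat_lit 0x146519082,nat_lit 0x45190a2],.r (nat_lit 0x1bab) (nat_lit 2) [nat_lit 0xca0190a2,nat_lit 65,
    nat_lit 0x84000002],.c (nat_lit 7) (nat_lit 0x300c85),.r (nat_lit 0x11b4) (nat_lit 4) [nat_lit 0x25655d222,
    nat_lit 0xc04000a1,nat_lit 0x100200101,nat_lit 0x294000002],.c (nat_lit 2) (nat_lit 0x44008a4),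
    .r (nat_lit 0x1ba6) (nat_lit 1) [nat_lit 0x1465190a2,nat_lit 0x84000002,nat_lit 65],
    .c (nat_lit 1) (nat_lit 0x42210a4),.c (nat_lit 4) (nat_lit 2),.c (nat_lit 0) (nat_lit 0x8030007),
    .r (nat_lit 0x1bb4) (nat_lit 13) [nat_lit 0x840000a2,nat_lit 65,nat_lit 0x200001],
    .r (nat_lit 0x1c06) (nat_lit 7) [nat_lit 0x300041,nat_lit 0x844000a2,nat_lit 0x808100a2],
    .r (nat_lit 0xe80) (nat_lit 2) [nat_lit 0xc0310001,nat_lit 0x84000001,nat_lit 0x60190a1,nat_lit 0x200001],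
    .c (nat_lit 5) (nat_lit 2),.c (nat_lit 0) (nat_lit 0x10005),.r (nat_lit 0x1175) (nat_lit 4) [nat_lit 0xc6319061,
    nat_lit 0x84000002,nat_lit 65,nat_lit 0x80410002],.r (nat_lit 0x1850) (nat_lit 7) [nat_lit 65,nat_lit 0x80200001,
    nat_lit 0xc63190a1,nat_lit 0x4300001],.c (nat_lit 6) (nat_lit 2),
    .r (nat_lit 0x1b9b) (nat_lit 13) [nat_lit 0x200061,nat_lit 0x40180a2,nat_lit 0x80010082],
    .r (nat_lit 4) (nat_lit 4) [nat_lit 0xc05190a2,nat_lit 65],.c (nat_lit 7) (nat_lit 2)],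
    .l (nat_lit 13) (nat_lit 0x5a0) (nat_lit 3) (nat_lit 0x282000002a200000278000002f000000366000003660000026b00000257000002c0000002c000000289000002890000026d000002bd) (nat_lit 0xc4000000e400000076000000ee00000000000000000000010f000000fb000000a6000000a6000000dd000000dd000000a9000000f9)
    (nat_lit 0x11205f041819416e0d802e61870c608582e21a50ec85b440022413806d04802c40b485bc4501fc0e286cc3f21a90da06503c016815808d02d21df0f207f033616f0b485fc4e020c13d07806d82f00f0896438827210985b42d21691620d805e02341810d9845e1ef1b30b0062e30f15e89b44802dc1b60ac04fc3020ee89ac5c423c1498a2457a26d0b7861c4b21df13587bc3c02580e288fc31c16c0b405a02d21730f085a43ba22f0b507803c61b10b405a02e816a0fe08584e41fc11e0b0036223f11607e03ae1b110b876445018c0e207905c43660f1871436422c0cc878c42e1930d986942da16f1448c3c2d016c0f186c43c0214118076838a171109866c5263170b406383321d70d607803f81900d485b42d217f13689b42d41680c987643201da0fc05d03f21d90b485a457a2bd0ba05a042e2170fe08c046c1f8)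
    (nat_lit 0x1121680b405a02d01680b405a02d01680b405a02d016802f82242d01680b405a02d01680b405a02d01680b405a010609c03c05a02d01680b405a02d01680b405a02d016803281b40b40780b405a02d01680b405a02d01680b405a016e090056036c1811680b405a02d01680b405a02d016806c02c411a0bc06cc3022d01680b405a02d01680b405a00b985a42d21e111787743c05a02d01680b405a02d0168030e16f0ef89643de26b12c0780b405a02d01680b405a00c608a03c81c41b30b8838a1e31161680b405a02d0168042c1fc0fe09c858023c11f86c43f022c2d01680b405a00b8871433621318b8a4c31c1680eb86643c05a02d0168034a1b30b785b461e2890b605a03621e310a0780b405a00ec87e42d216915e8af42d017410b885c4601fc0fc16802da1a90bf85a44da26d0b405a83b21930ed06402e81f8)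
    (nat_lit 5) (nat_lit 79)
    [[nat_lit 2,nat_lit 0x1002,nat_lit 0x100002,nat_lit 0x1000002,nat_lit 17,nat_lit 273,nat_lit 0x1011,
    nat_lit 0x100011,nat_lit 0x1000011,nat_lit 257,nat_lit 0x1101,nat_lit 0x100101,nat_lit 0x1000101,nat_lit 0x1001,
    nat_lit 0x2001,nat_lit 0x101001,nat_lit 0x1001001,nat_lit 0x10001,nat_lit 0x100001,nat_lit 0x200001,
    nat_lit 0x1100001,nat_lit 0x1000001,nat_lit 0x2000001],[nat_lit 32,nat_lit 288,nat_lit 0x1020,nat_lit 0x100020,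
    nat_lit 0x1000020,nat_lit 272,nat_lit 528,nat_lit 0x1110,nat_lit 0x100110,nat_lit 0x1000110,nat_lit 0x1010,
    nat_lit 0x2010,nat_lit 0x101010,nat_lit 0x1001010,nat_lit 0x100010,nat_lit 0x200010,nat_lit 0x1100010,
    nat_lit 0x1000010,nat_lit 0x2000010],[nat_lit 512,nat_lit 0x1100,nat_lit 0x2100,nat_lit 0x1001100,
    nat_lit 0x100100,nat_lit 0x101100,nat_lit 0x200100,nat_lit 0x1100100,nat_lit 0x1000100],[nat_lit 0x2000,
    nat_lit 0x1002000,nat_lit 0x11000,nat_lit 0x101000,nat_lit 0x1101000,nat_lit 0x1001000,nat_lit 0x2001000],[],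
    [nat_lit 0x200000,nat_lit 0x1100000],[nat_lit 0x2000000]]
    [.c (nat_lit 1) (nat_lit 2),.r (nat_lit 0x1bce) (nat_lit 5) [nat_lit 0x200001,nat_lit 0x18041,nat_lit 0x80218c41],
    .r (nat_lit 32) (nat_lit 9) [nat_lit 0xc6318841,nat_lit 0x200001],
    .r (nat_lit 0x174e) (nat_lit 13) [nat_lit 0xc0501062,nat_lit 0x200001],.c (nat_lit 0) (nat_lit 0x10803),
    .r (nat_lit 0x1b54) (nat_lit 10) [nat_lit 0x200001,nat_lit 0x4210061,nat_lit 0x80000001],
    .c (nat_lit 6) (nat_lit 0x4200062),.r (nat_lit 0x174e) (nat_lit 13) [nat_lit 0xc0518841,nat_lit 0x200001],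
    .r (nat_lit 0x1b32) (nat_lit 0) [nat_lit 0x6000861,nat_lit 0x200061,nat_lit 0x4300041],
    .c (nat_lit 0) (nat_lit 0x200803),.c (nat_lit 6) (nat_lit 0x4010062),
    .r (nat_lit 0x174e) (nat_lit 13) [nat_lit 0xc6318841,nat_lit 0x200001],
    .r (nat_lit 0x1b32) (nat_lit 0) [nat_lit 0x300861,nat_lit 0x4000061,nat_lit 65],
    .c (nat_lit 0) (nat_lit 0x6500085),.r (nat_lit 0x590) (nat_lit 8) [nat_lit 0x2100a1,nat_lit 65,nat_lit 0xca529081,
    nat_lit 0x84210c61,nat_lit 0x18081],.r (nat_lit 0x1a7f) (nat_lit 1) [nat_lit 0x6300861,nat_lit 0x200001,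
    nat_lit 0x4000001],.r (nat_lit 32) (nat_lit 6) [nat_lit 0x300861,nat_lit 0x200001],
    .r (nat_lit 0x1b54) (nat_lit 10) [nat_lit 0x200001,nat_lit 65,nat_lit 0x80000001],
    .c (nat_lit 4) (nat_lit 0x6318c42),.r (nat_lit 0x1b32) (nat_lit 0) [nat_lit 0xc6318841,nat_lit 0xc0018041,
    nat_lit 0x84010061],.r (nat_lit 0x174e) (nat_lit 13) [nat_lit 0x300861,nat_lit 0x200001],
    .r (nat_lit 0x1750) (nat_lit 1) [nat_lit 65,nat_lit 0x4000001],.r (nat_lit 0x1a08) (nat_lit 8) [nat_lit 0x4300001,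
    nat_lit 0x200001,nat_lit 65,nat_lit 0x100000061],.c (nat_lit 2) (nat_lit 2),
    .r (nat_lit 0x1b54) (nat_lit 10) [nat_lit 0x200001,nat_lit 0x4410062,nat_lit 0x80000001],
    .r (nat_lit 0x17f8) (nat_lit 6) [nat_lit 0x4010001,nat_lit 0x6400061,nat_lit 0x104411401,nat_lit 0xc6519001],
    .r (nat_lit 0x1c06) (nat_lit 8) [nat_lit 0x4300001,nat_lit 0x200001,nat_lit 65],
    .r (nat_lit 32) (nat_lit 9) [nat_lit 0xca001062,nat_lit 0x200001],.c (nat_lit 2) (nat_lit 0x310002),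
    .r (nat_lit 0x1b54) (nat_lit 10) [nat_lit 0x200001,nat_lit 0x8210062,nat_lit 0x80000001],
    .r (nat_lit 0x17f8) (nat_lit 6) [nat_lit 0x4010001,nat_lit 0x200061,nat_lit 0x104411401,nat_lit 0xc6519001],
    .r (nat_lit 0x1c06) (nat_lit 8) [nat_lit 0x4300001,nat_lit 0x200001,nat_lit 0x6200041],
    .r (nat_lit 32) (nat_lit 9) [nat_lit 0xc6301062,nat_lit 0x200001],.c (nat_lit 0) (nat_lit 0x6518c85),
    .c (nat_lit 6) (nat_lit 0x84108a2),.r (nat_lit 8) (nat_lit 6) [nat_lit 0x6000861,nat_lit 0x4000001],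
    .c (nat_lit 0) (nat_lit 0x6518c83),.r (nat_lit 0) (nat_lit 1) [nat_lit 0x200001,nat_lit 0x4300041],
    .r (nat_lit 0x174e) (nat_lit 13) [nat_lit 0x140719042,nat_lit 0x200001],
    .r (nat_lit 32) (nat_lit 9) [nat_lit 0x6000861,nat_lit 0x200001],.c (nat_lit 0) (nat_lit 0x6518c83),
    .r (nat_lit 0x1b32) (nat_lit 0) [nat_lit 0xa319062,nat_lit 0x218062,nat_lit 0x8310042],.c (nat_lit 3) (nat_lit 2),
    .c (nat_lit 0) (nat_lit 0x6328c85),.c (nat_lit 6) (nat_lit 0x82208a2),.c (nat_lit 0) (nat_lit 0x6328c83),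
    .r (nat_lit 0) (nat_lit 1) [nat_lit 0x200001,nat_lit 65],.r (nat_lit 8) (nat_lit 6) [nat_lit 0x300861,
    nat_lit 0x4000001],.r (nat_lit 0x174e) (nat_lit 13) [nat_lit 0x146519042,nat_lit 0x200001],
    .r (nat_lit 32) (nat_lit 9) [nat_lit 0x300861,nat_lit 0x200001],.c (nat_lit 0) (nat_lit 0x6328c83),
    .c (nat_lit 4) (nat_lit 2),.c (nat_lit 1) (nat_lit 0x44210a2),.r (nat_lit 0x1bce) (nat_lit 5) [nat_lit 0x200001,
    nat_lit 65,nat_lit 0x80200c41],.c (nat_lit 0) (nat_lit 0x518c85),.c (nat_lit 1) (nat_lit 0x210862),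
    .c (nat_lit 0) (nat_lit 0x6518c85),.r (nat_lit 0x110a) (nat_lit 5) [nat_lit 0xc00001,nat_lit 0x25314c0a1,
    nat_lit 0xc030001,nat_lit 0x108822501],.c (nat_lit 6) (nat_lit 2),.c (nat_lit 0) (nat_lit 0x4000003),
    .c (nat_lit 7) (nat_lit 2)]]

/-- nodes -/
noncomputable def rD7k_22_13 : List RJ :=
  [.l (nat_lit 9) (nat_lit 120) (nat_lit 3) (nat_lit 0x36000000360000003c0000004400000039000000390000003800000038000000310000003100000035000000350000003600000036) (nat_lit 0xe0000000e00000000000000080000000b0000000b0000000c0000000c00000013000000130000000f0000000f0000000e0000000e)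
    (nat_lit 0x150a06c2e17934542a1188c4e2b140a0502a170b85649150a046191589c5028170b83c34198e47430148a45a2d160a85c36220787239240f86231178d42836249347239140b85a2d13058542a158c4562f1c8cc5c28168b44c26150a0562b140a87c30168b4582c138945229130a8542a240e85a2d160b04e25148a4542a0c88c6229130584a250f07844201188c4623188a44c261389c3c1e110883e1d138ac6a2d140a852291108058261389c5627178b4542a148a44422130b04e27140a06c2a158c4542a0e88c4e27140a050280a0b0562b150983e231389c5028)
    (nat_lit 0x151e0f0783c1e0f0783c1e0f0783c1e0502a3c1e0f0783c1e0f0783c1e0f0781b0b83c783c1e0f0783c1e0f0783c1e05c2e1a078f0783c1e0f0783c1e0f078178ac6639141e0f0783c1e0f0783c1e09a491c8e45c283c1e0f0783c1e0f078150a87448168b458783c1e0f0783c1e05428180f85a2d160b0f0783c1e0f0781188c5231130984e270f1e0f0783c1e04619148c42c26128943c1e3c1e0f078138ac5a2f150a852291108858783c1e05627168d45428148a44022130b0f078140a05814158ac4c2a1187c4e27141e05028150d8622b150a8461d1389c5028)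
    (nat_lit 4) (nat_lit 59)
    [[nat_lit 2,nat_lit 18,nat_lit 258,nat_lit 0x100002,nat_lit 17,nat_lit 33,nat_lit 273,nat_lit 0x1000011,
    nat_lit 257,nat_lit 513,nat_lit 0x1101,nat_lit 0x10101,nat_lit 0x1000101,nat_lit 0x1001,nat_lit 0x1011,
    nat_lit 0x10001,nat_lit 0x100001,nat_lit 0x100011,nat_lit 0x100101,nat_lit 0x101001,nat_lit 0x200001,
    nat_lit 0x1100001,nat_lit 0x1000001],[nat_lit 32,nat_lit 288,nat_lit 272,nat_lit 528,nat_lit 0x1110,
    nat_lit 0x10110,nat_lit 0x1000110,nat_lit 0x1010,nat_lit 0x10010,nat_lit 0x100010,nat_lit 0x1000010],[nat_lit 512,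
    nat_lit 768,nat_lit 0x1200,nat_lit 0x10200,nat_lit 0x1000200,nat_lit 0x1100,nat_lit 0x11100,nat_lit 0x1001100,
    nat_lit 0x10100,nat_lit 0x20100,nat_lit 0x1010100,nat_lit 0x100100,nat_lit 0x1000100,nat_lit 0x2000100],
    [nat_lit 0x2000,nat_lit 0x11000,nat_lit 0x1001000],[nat_lit 0x20000,nat_lit 0x110000],[nat_lit 0x200000,
    nat_lit 0x300000,nat_lit 0x1100000],[nat_lit 0x2000000]]
    [.c (nat_lit 1) (nat_lit 2),.c (nat_lit 0) (nat_lit 0x55245),.c (nat_lit 0) (nat_lit 0x55245),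
    .c (nat_lit 4) (nat_lit 0x4203),.c (nat_lit 0) (nat_lit 0x33023),.c (nat_lit 0) (nat_lit 0x99385),
    .c (nat_lit 0) (nat_lit 0x33023),.r (nat_lit 0xe90) (nat_lit 4) [nat_lit 0x440541,nat_lit 0x40001,nat_lit 0x50451,
    nat_lit 0x573401],.c (nat_lit 0) (nat_lit 0x33023),.c (nat_lit 0) (nat_lit 0x99385),
    .r (nat_lit 0x1bab) (nat_lit 9) [nat_lit 0x330231,nat_lit 0x200001,nat_lit 0x20001],
    .r (nat_lit 0x1bae) (nat_lit 9) [nat_lit 0x330231,nat_lit 0x200001,nat_lit 0x20001],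
    .r (nat_lit 0x1bab) (nat_lit 13) [nat_lit 0x330231,nat_lit 0x20001,nat_lit 0x200001],
    .c (nat_lit 0) (nat_lit 0x2203),.r (nat_lit 0x1b64) (nat_lit 11) [nat_lit 0x200001,nat_lit 0x20031,
    nat_lit 0x330201],.r (nat_lit 0x1c06) (nat_lit 2) [nat_lit 0x200031,nat_lit 33,nat_lit 0x22001],
    .r (nat_lit 0x196f) (nat_lit 5) [nat_lit 0x30021,nat_lit 0x20001,nat_lit 0x200001],
    .r (nat_lit 0x1c01) (nat_lit 12) [nat_lit 0x300231,nat_lit 0x222321,nat_lit 0x200001],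
    .r (nat_lit 0x1bae) (nat_lit 13) [nat_lit 0x330231,nat_lit 0x20001,nat_lit 0x200001],
    .c (nat_lit 0) (nat_lit 0x3002),.r (nat_lit 0x1ba8) (nat_lit 5) [nat_lit 0x20001,nat_lit 0x200001,
    nat_lit 0x50021],.r (nat_lit 0x1bb2) (nat_lit 2) [nat_lit 0x20001,nat_lit 0x30021,nat_lit 0x330201],
    .r (nat_lit 0x1bec) (nat_lit 2) [nat_lit 33,nat_lit 0x20001],.c (nat_lit 2) (nat_lit 2),
    .c (nat_lit 0) (nat_lit 0x55343),.c (nat_lit 0) (nat_lit 0x33023),.c (nat_lit 0) (nat_lit 0x55343),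
    .r (nat_lit 0x1bb3) (nat_lit 11) [nat_lit 0x300231,nat_lit 0x220321,nat_lit 0x200001],
    .r (nat_lit 0x1bac) (nat_lit 2) [nat_lit 0x30231,nat_lit 0x220321,nat_lit 0x20001],
    .r (nat_lit 0x1b64) (nat_lit 6) [nat_lit 0x20001,nat_lit 0x200031,nat_lit 0x330201],
    .r (nat_lit 0x1baf) (nat_lit 11) [nat_lit 0x20031,nat_lit 0x200001,nat_lit 33],
    .r (nat_lit 0x1b9f) (nat_lit 13) [nat_lit 0x300021,nat_lit 0x20001,nat_lit 0x200001],
    .c (nat_lit 0) (nat_lit 0x55345),.r (nat_lit 0x1baf) (nat_lit 6) [nat_lit 0x200031,nat_lit 0x20001,nat_lit 33],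
    .c (nat_lit 3) (nat_lit 2),.r (nat_lit 0x1002) (nat_lit 9) [nat_lit 65,nat_lit 0xc0001,nat_lit 0xc00001,
    nat_lit 0x6001],.r (nat_lit 0x1bab) (nat_lit 9) [nat_lit 0x573432,nat_lit 0x200001,nat_lit 0x20001],
    .r (nat_lit 0x1ba3) (nat_lit 0) [nat_lit 0x200001,nat_lit 0x20001,nat_lit 0x300021],
    .r (nat_lit 0xe11) (nat_lit 4) [nat_lit 0x400001,nat_lit 0x40001,nat_lit 0x300021,nat_lit 0x373431],
    .r (nat_lit 0x1bec) (nat_lit 3) [nat_lit 33,nat_lit 0x200001],.r (nat_lit 0x1bb2) (nat_lit 3) [nat_lit 0x200001,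
    nat_lit 0x300021,nat_lit 0x330201],.r (nat_lit 0x1b93) (nat_lit 6) [nat_lit 0x20001,nat_lit 0x200031,
    nat_lit 0x330201],.r (nat_lit 0x196f) (nat_lit 6) [nat_lit 0x200031,nat_lit 33,nat_lit 0x20001],
    .r (nat_lit 0x1ba8) (nat_lit 0) [nat_lit 0x200001,nat_lit 0x20001,nat_lit 0x500021],
    .c (nat_lit 0) (nat_lit 0x30002),.c (nat_lit 0) (nat_lit 0x55345),
    .r (nat_lit 0x196a) (nat_lit 2) [nat_lit 0x20001,nat_lit 0x220321,nat_lit 0x30231],
    .r (nat_lit 0x1aa1) (nat_lit 2) [nat_lit 0x20001,nat_lit 0x330201,nat_lit 0x220321],.c (nat_lit 4) (nat_lit 2),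
    .r (nat_lit 0x1a91) (nat_lit 6) [nat_lit 33,nat_lit 0x220031],.r (nat_lit 0x174f) (nat_lit 3) [nat_lit 33,
    nat_lit 0x220031],.c (nat_lit 5) (nat_lit 2),.r (nat_lit 0x174f) (nat_lit 3) [nat_lit 0x220031,nat_lit 33],
    .c (nat_lit 6) (nat_lit 2),.r (nat_lit 0x1bb3) (nat_lit 11) [nat_lit 0x2022,nat_lit 0x43032,nat_lit 0x200001],
    .r (nat_lit 0x1a91) (nat_lit 6) [nat_lit 0x220031,nat_lit 33],.c (nat_lit 7) (nat_lit 2)],
    .l (nat_lit 13) (nat_lit 0x780) (nat_lit 3) (nat_lit 0x2e6000002e6000002e6000002e60000029400000330000002e8000002e800000346000002940000030c000003480000032d0000032d) (nat_lit 0x6200000062000000620000006200000018000000b40000006000000060000000b400000002000000000000003c0000001b0000001b)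
    (nat_lit 0x1420a1050827811808c850c28616c09385cc2c81658b2c5082841420a1059c22e1430a185742e41750aa85ae2d714209e051028416708c850c2861190b905b42221658b1c5082841420a205a42321410a084282e8173087859628f11708c846423214007804602301360a585a027613c89e459c2301690b386402801680b4060832e0f0094862a3151430a1850428616808c051028016b0b985d02241b5907450c2861410a185a02301440a206bc2e61740ab06c641517209385d02e41970a585cc2e61490d103fc1e01958cac5742d810a08c860826c1af0b583c029215909604b625b1550b2043c22212909d855822412c07806542d01258b4c5d42e61730b683c02d01740ba05641fe1a40ca865a32d16b8b2c51e2c718a89e482a41d12d8cac65a2d31890c485ae2cb1658b2c62a2791b18dac4b632b196892c624312)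
    (nat_lit 0x1421e00f007803c01e00f007803c01e00f007803c01e005082843c01e00f007803c01e00f007803c01e00f007801420a105107803c01e00f007803c01e00f007803c01e004f02841420a20f007803c01e00f007803c01e00f007801180b3859c2d21401e00f007803c01e00f007803c01e0046422e11908c83c02803c01e00f007803c01e00f007801430a1850c2821180b405107803c01e00f007803c01e0050c2861430a084602d01400a20f007803c01e00f0078016c0ae84642141360c105ac35e1491e00f007803c01e0049c2e41720ba052c32e1730b986882923c01e00f007801730ba85b42e616807805d02e80ff0ac86547803c01e005902aa11108784ec2521120ab03c02581680ca8f007801658b5c5962cb13c8c546d6363195896c49632d1891e005962d71638a3c4f231520e905465625b1698cb4624312)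
    (nat_lit 4) (nat_lit 37)
    [[nat_lit 2,nat_lit 17,nat_lit 273,nat_lit 0x10011,nat_lit 257,nat_lit 0x10001,nat_lit 0x100001,
    nat_lit 0x1000001],[nat_lit 32,nat_lit 272,nat_lit 528,nat_lit 0x10110,nat_lit 0x100110,nat_lit 0x1010,
    nat_lit 0x11010,nat_lit 0x10010,nat_lit 0x20010,nat_lit 0x110010,nat_lit 0x1010010,nat_lit 0x100010,
    nat_lit 0x1000010],[nat_lit 512,nat_lit 0x1000200,nat_lit 0x1100,nat_lit 0x10100,nat_lit 0x100100,
    nat_lit 0x1100100,nat_lit 0x110100,nat_lit 0x1000100],[nat_lit 0x2000,nat_lit 0x11000,nat_lit 0x1011000,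
    nat_lit 0x101000,nat_lit 0x1001000],[nat_lit 0x20000,nat_lit 0x1020000,nat_lit 0x110000,nat_lit 0x1110000,
    nat_lit 0x1010000,nat_lit 0x2010000],[nat_lit 0x200000,nat_lit 0x1100000],[nat_lit 0x2000000]]
    [.c (nat_lit 1) (nat_lit 2),.c (nat_lit 7) (nat_lit 0x3304),.r (nat_lit 32) (nat_lit 12) [nat_lit 0x33042,
    nat_lit 0x220002],.r (nat_lit 0x1c06) (nat_lit 13) [nat_lit 0x2031,nat_lit 0x220002,nat_lit 0x3041],
    .c (nat_lit 0) (nat_lit 0x30345),.r (nat_lit 0x1b57) (nat_lit 7) [nat_lit 0x220052,nat_lit 0x2001,nat_lit 33,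
    nat_lit 0x30041],.c (nat_lit 0) (nat_lit 0x30345),.r (nat_lit 0x1ad6) (nat_lit 7) [nat_lit 0x220052,nat_lit 33,
    nat_lit 0x303452],.c (nat_lit 2) (nat_lit 2),.r (nat_lit 0x174f) (nat_lit 4) [nat_lit 0x220002,nat_lit 33],
    .r (nat_lit 0x133b) (nat_lit 2) [nat_lit 0x440001,nat_lit 0x4001,nat_lit 0x3041,nat_lit 0x953851],
    .r (nat_lit 0x1b4b) (nat_lit 4) [nat_lit 0x330452,nat_lit 0x2001,nat_lit 0x3041,nat_lit 0x20001],
    .r (nat_lit 0x1c06) (nat_lit 13) [nat_lit 0x202542,nat_lit 0x220002,nat_lit 0x300451],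
    .r (nat_lit 0x1c06) (nat_lit 13) [nat_lit 0x330042,nat_lit 0x220002,nat_lit 0x222051],
    .c (nat_lit 7) (nat_lit 0x20205),.c (nat_lit 0) (nat_lit 515),.r (nat_lit 0x1be3) (nat_lit 2) [nat_lit 0x3041,
    nat_lit 0x4031,nat_lit 0x220002,nat_lit 0x72052],.r (nat_lit 32) (nat_lit 12) [nat_lit 0x330452,nat_lit 0x220002],
    .c (nat_lit 1) (nat_lit 0x2304),.r (nat_lit 0x195f) (nat_lit 0) [nat_lit 0x220002,nat_lit 33,nat_lit 0x303402],
    .r (nat_lit 8) (nat_lit 13) [nat_lit 0x202052,nat_lit 33],.c (nat_lit 3) (nat_lit 2),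
    .r (nat_lit 0x133c) (nat_lit 2) [nat_lit 0x440001,nat_lit 0x4001,nat_lit 0x300041,nat_lit 0x755851],
    .r (nat_lit 0x1bdf) (nat_lit 13) [nat_lit 33,nat_lit 0x2321],.r (nat_lit 0x1b9c) (nat_lit 0) [nat_lit 0x220002,
    nat_lit 0x202542,nat_lit 0x330452],.c (nat_lit 0) (nat_lit 0x30345),.c (nat_lit 2) (nat_lit 0x22454),
    .r (nat_lit 0x174d) (nat_lit 3) [nat_lit 0x330452,nat_lit 0x422542],.c (nat_lit 0) (nat_lit 0x33345),
    .c (nat_lit 4) (nat_lit 2),.r (nat_lit 0x174d) (nat_lit 3) [nat_lit 0x202052,nat_lit 33],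
    .c (nat_lit 2) (nat_lit 0x20205),.r (nat_lit 0x1b19) (nat_lit 11) [nat_lit 0x330042,nat_lit 0x220002,
    nat_lit 0x23452],.c (nat_lit 2) (nat_lit 0x30204),.c (nat_lit 5) (nat_lit 2),
    .r (nat_lit 0x1760) (nat_lit 13) [nat_lit 0x220002,nat_lit 0x36052,nat_lit 0x20041,nat_lit 0x50031],
    .r (nat_lit 0x1b04) (nat_lit 0) [nat_lit 33,nat_lit 0x220002],.r (nat_lit 0x174e) (nat_lit 4) [nat_lit 0x330452,
    nat_lit 0x220002],.r (nat_lit 0x133f) (nat_lit 13) [nat_lit 33,nat_lit 0x220002,nat_lit 0x2001,nat_lit 0x303402],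
    .c (nat_lit 1) (nat_lit 0x2002),.c (nat_lit 6) (nat_lit 2),.c (nat_lit 0) (nat_lit 0x33345),
    .c (nat_lit 7) (nat_lit 2)],
    .l (nat_lit 13) (nat_lit 0x5a0) (nat_lit 3) (nat_lit 0x25200000252000002700000027000000210000001d400000204000002580000024c0000024c00000258000001ec0000022d0000024d) (nat_lit 0x1e0000001e00000000000000000000009c00000060000000180000006c000000240000002400000084000000180000002300000043)
    (nat_lit 0x11a08d03b42520d507204ec1b617d0a68354276117880c46823411d094836c1f20e1079860c2a60d5070845e20f12909484e02700ea08a03c02041620b103d818012689444741da0ea09c03a821012c06305b82dc0f30ae04ee24b0f907204202280f609302d01a40c607b02dc168132874c36c1aa0ea07502d01ec0b405a02d01680b405e83c21a90f306d83182040b4069046816811108d02d02340f686a438427612c07802d016812008d0468234114090039226f1530a685b82c40b407b046823411408a02dc2340f686d460c2fa16e0b102d018c11a08884382280f308d03da1a30e109d85701800bd05a048023411a08d047424c0b487dc3541aa0f307b02d016e11405a03cc16e0b408e83aa1a9107880c4962510d4874c4de1a90d186d43521f711707a845e22f13b89343c22650e487b43da1ed0ea85a445422e)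
    (nat_lit 0x11a1680b405a02d01680b405a02d01680b405a02d016804682342d01680b405a02d01680b405a02d01680b405a00ed08e84e05a02d01680b405a02d01680b405a02d016804a425213809c0b405a02d01680b405a02d01680b405a00d506d83a81d40f61680b405a02d01680b405a02d016803901f211408404981ec2d01680b405a02d01680b405a013b07083c02580b405a04685a02d01680b405a02d0168036c1e610206303481680b408d0b405a02d01680b405a017d0c185882dc0c605a04442341141680b405a02d016805342a61620b703d816811a08d04502282d01680b405a00d506a83d81e60b705a02d02280b707984745a02d016804ec1c20c00ae02d017a11a090046823412608e8b405a011788bc49a27713287843da1c90f687b42d21d5117168040620f128892c3a61a90d489bc36a1a30fb86a43d422e)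
    (nat_lit 4) (nat_lit 43)
    [[nat_lit 2,nat_lit 18,nat_lit 258,nat_lit 17,nat_lit 33,nat_lit 273,nat_lit 0x1011,nat_lit 0x10011,
    nat_lit 0x1000011,nat_lit 257,nat_lit 0x10101,nat_lit 0x1001,nat_lit 0x11001,nat_lit 0x1001001,nat_lit 0x10001,
    nat_lit 0x100001,nat_lit 0x1000001],[nat_lit 32,nat_lit 0x10020,nat_lit 272,nat_lit 0x10110,nat_lit 0x1010,
    nat_lit 0x11010,nat_lit 0x101010,nat_lit 0x10010,nat_lit 0x20010,nat_lit 0x110010,nat_lit 0x1010010,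
    nat_lit 0x100010,nat_lit 0x200010,nat_lit 0x1100010,nat_lit 0x1000010],[nat_lit 512,nat_lit 0x10200,
    nat_lit 0x1100,nat_lit 0x11100,nat_lit 0x10100,nat_lit 0x20100],[nat_lit 0x2000,nat_lit 0x12000,nat_lit 0x11000,
    nat_lit 0x21000,nat_lit 0x111000,nat_lit 0x1011000,nat_lit 0x101000,nat_lit 0x1001000],[nat_lit 0x20000,
    nat_lit 0x1020000,nat_lit 0x110000,nat_lit 0x1010000],[nat_lit 0x200000,nat_lit 0x1100000],[nat_lit 0x2000000]]
    [.c (nat_lit 1) (nat_lit 2),.r (nat_lit 0x198f) (nat_lit 6) [nat_lit 0x3030021,nat_lit 0x200001,nat_lit 33],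
    .c (nat_lit 0) (nat_lit 0x330002),.c (nat_lit 5) (nat_lit 0x303004),
    .r (nat_lit 32) (nat_lit 10) [nat_lit 0x3030042,nat_lit 0x202001],
    .r (nat_lit 0x1b7b) (nat_lit 2) [nat_lit 0x200031,nat_lit 0x202031,nat_lit 33],
    .r (nat_lit 0x174e) (nat_lit 8) [nat_lit 0x3030042,nat_lit 0x202001],
    .r (nat_lit 32) (nat_lit 5) [nat_lit 0x303231,nat_lit 0x202001],.r (nat_lit 0x174e) (nat_lit 8) [nat_lit 0x303231,
    nat_lit 0x202001],.r (nat_lit 32) (nat_lit 10) [nat_lit 0x3520042,nat_lit 0x202001],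
    .r (nat_lit 0x1c0c) (nat_lit 10) [nat_lit 0x22001,nat_lit 0x422541,nat_lit 0x33451],
    .c (nat_lit 0) (nat_lit 0x253545),.c (nat_lit 2) (nat_lit 0x22232),.r (nat_lit 32) (nat_lit 10) [nat_lit 0x303231,
    nat_lit 0x202001],.c (nat_lit 0) (nat_lit 0x53545),.r (nat_lit 0x1b04) (nat_lit 2) [nat_lit 0x3021,
    nat_lit 0x202001],.r (nat_lit 0x1b04) (nat_lit 2) [nat_lit 33,nat_lit 0x202001],.c (nat_lit 2) (nat_lit 2),
    .r (nat_lit 0x1526) (nat_lit 2) [nat_lit 0x2535402,nat_lit 0x2464502,nat_lit 0x450041,nat_lit 0x3530401],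
    .r (nat_lit 0x1bdf) (nat_lit 4) [nat_lit 33,nat_lit 0x2535042],.r (nat_lit 0x18dd) (nat_lit 4) [nat_lit 0x2001,
    nat_lit 0x20001,nat_lit 0x200001,nat_lit 0x2000001],.r (nat_lit 0x1962) (nat_lit 7) [nat_lit 0x30041,
    nat_lit 0x20001,nat_lit 0x2505451],.r (nat_lit 0x1979) (nat_lit 12) [nat_lit 0x503231,nat_lit 0x200001,
    nat_lit 0x202001],.r (nat_lit 0x198f) (nat_lit 6) [nat_lit 0x3530452,nat_lit 0x200001,nat_lit 0x2520452],
    .c (nat_lit 0) (nat_lit 0x352549),.r (nat_lit 0x1669) (nat_lit 1) [nat_lit 0x202001,nat_lit 33,nat_lit 0x2535402,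
    nat_lit 0x200001],.c (nat_lit 1) (nat_lit 0x203504),.c (nat_lit 1) (nat_lit 0x203004),
    .c (nat_lit 0) (nat_lit 0x2203),.r (nat_lit 0x1bdf) (nat_lit 4) [nat_lit 0x224031,nat_lit 0x2024052],
    .r (nat_lit 0x1bdf) (nat_lit 4) [nat_lit 0x222031,nat_lit 0x2020052],.c (nat_lit 0) (nat_lit 0x2003),
    .c (nat_lit 3) (nat_lit 2),.r (nat_lit 0x18dd) (nat_lit 4) [nat_lit 0x2001,nat_lit 0x20001,nat_lit 0x200001,
    nat_lit 0x2000001],.r (nat_lit 0x174e) (nat_lit 8) [nat_lit 0x3935444,nat_lit 0x202001],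
    .r (nat_lit 0x1b7b) (nat_lit 5) [nat_lit 0x202031,nat_lit 0x200031,nat_lit 33],
    .r (nat_lit 0x1526) (nat_lit 2) [nat_lit 0x2535402,nat_lit 0x2464502,nat_lit 65,nat_lit 0x3530401],
    .r (nat_lit 32) (nat_lit 10) [nat_lit 0x320022,nat_lit 0x202001],.c (nat_lit 4) (nat_lit 2),
    .r (nat_lit 0x1b54) (nat_lit 12) [nat_lit 0x200001,nat_lit 0x202001,nat_lit 33],.c (nat_lit 0) (nat_lit 0x353549),
    .c (nat_lit 2) (nat_lit 0x246454),.c (nat_lit 0) (nat_lit 0x353045),.c (nat_lit 0) (nat_lit 0x353545),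
    .c (nat_lit 0) (nat_lit 0x353045),.c (nat_lit 0) (nat_lit 0x353545),.c (nat_lit 5) (nat_lit 2),
    .c (nat_lit 1) (nat_lit 0x200002),.c (nat_lit 0) (nat_lit 0x353449),.c (nat_lit 0) (nat_lit 0x353549),
    .c (nat_lit 6) (nat_lit 2),.c (nat_lit 3) (nat_lit 0x40203),.c (nat_lit 7) (nat_lit 2)]]

/-- nodes -/
noncomputable def rD7k_22_14 : List RJ :=
  [.l (nat_lit 10) (nat_lit 240) (nat_lit 4) (nat_lit 0x57000000570000005f0000005f0000005e0000005e00000060000000600000006a0000006a00000063000000630000005d0000005d) (nat_lit 0x13000000130000000b0000000b0000000c0000000c0000000a0000000a000000000000000000000007000000070000000d0000000d)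
    (nat_lit 0x1104414050154531344b15c571605012842110441404c1344b1444f15c57140541184613050150541444f1545316c5b17058148521405015054144531645717c5f150581285212c5314c4f14052150561785a15c5713455134551445114850128541785e1644d14c5b13c4b15c5315056158561a86a13c59124511444d164551285415856108601445914c2915c5717c5b1785a1806a1a86a234811746515c5717c5b1785e1086a1a86a1bc631745d1505016058134571645918c811705c1584a140581505c164571444f1bc8d1705c17856118421485216c550a451174651584a120501184a1285214c4d14c491745d1785614048)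
    (nat_lit 0x110f03c0f03c0f03c0f03c0f03c0f03c0f0110443c0f03c0f03c0f03c0f03c0f03c0f014050150f03c0f03c0f03c0f03c0f03c0f01404c150543c0f03c0f03c0f03c0f03c0f01544d14451140f03c0f03c0f03c0f03c0f014c4b13c53148503c0f03c0f03c0f03c0f013451154591504a158f03c0f03c0f03c0f012c4f14c5715854158563c0f03c0f03c0f015c5716c5f1785e1a8421a8f03c0f03c0f015c5716c5f1685e1a8601a86a3c0f03c0f0160501705415c5913c512346f170f03c0f0140541605815c4d16459204631705c3c0f0128461484a13453124531745d1585e120f010846148521545b144291945d1285614048)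
    (nat_lit 4) (nat_lit 61)
    [[nat_lit 2,nat_lit 3,nat_lit 0x1002,nat_lit 0x100002,nat_lit 0x1000002,nat_lit 17,nat_lit 0x1011,
    nat_lit 0x1000011,nat_lit 257,nat_lit 0x1001,nat_lit 0x2002,nat_lit 0x2001,nat_lit 0x11001,nat_lit 0x1001001,
    nat_lit 0x10001,nat_lit 0x1010001,nat_lit 0x100001,nat_lit 0x101001,nat_lit 0x1100001,nat_lit 0x1000001,
    nat_lit 0x2000001],[nat_lit 32,nat_lit 0x1010,nat_lit 0x10010,nat_lit 0x100010,nat_lit 0x1000010,
    nat_lit 0x2000010],[nat_lit 512,nat_lit 0x1100,nat_lit 0x1001100,nat_lit 0x10100,nat_lit 0x100100,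
    nat_lit 0x1000100],[nat_lit 0x2000,nat_lit 0x11000,nat_lit 0x1011000,nat_lit 0x101000,nat_lit 0x1001000,
    nat_lit 0x2001000],[nat_lit 0x20000,nat_lit 0x110000,nat_lit 0x1110000,nat_lit 0x1010000,nat_lit 0x2010000],
    [nat_lit 0x200000,nat_lit 0x1100000,nat_lit 0x2100000],[nat_lit 0x2000000,nat_lit 0x3000000]]
    [.c (nat_lit 1) (nat_lit 2),.r (nat_lit 0x1b8d) (nat_lit 4) [nat_lit 33,nat_lit 0x6c051,nat_lit 0x60d041],
    .r (nat_lit 4) (nat_lit 9) [nat_lit 0x2001,nat_lit 0x205021],.r (nat_lit 0x1ad8) (nat_lit 9) [nat_lit 0x220001,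
    nat_lit 0x304001,nat_lit 0x205021],.c (nat_lit 1) (nat_lit 770),.c (nat_lit 7) (nat_lit 0x3302),
    .r (nat_lit 0x14ae) (nat_lit 1) [nat_lit 0x220001,nat_lit 0x200001,nat_lit 0x333201,nat_lit 0x302231],
    .c (nat_lit 2) (nat_lit 770),.r (nat_lit 0x1b8d) (nat_lit 4) [nat_lit 0x304021,nat_lit 0x464051,nat_lit 0x205041],
    .r (nat_lit 0x174f) (nat_lit 4) [nat_lit 33,nat_lit 0x220001],.r (nat_lit 2) (nat_lit 4) [nat_lit 34,
    nat_lit 0x220001],.r (nat_lit 0x1bdf) (nat_lit 7) [nat_lit 0x220001,nat_lit 0x220321],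
    .r (nat_lit 4) (nat_lit 12) [nat_lit 0x330231,nat_lit 0x220001],.c (nat_lit 4) (nat_lit 770),
    .r (nat_lit 0x1b04) (nat_lit 9) [nat_lit 0x220001,nat_lit 33],.c (nat_lit 5) (nat_lit 770),
    .r (nat_lit 0x1bec) (nat_lit 9) [nat_lit 0x220001,nat_lit 33],.r (nat_lit 0x174d) (nat_lit 13) [nat_lit 0x330231,
    nat_lit 0x220001],.c (nat_lit 6) (nat_lit 770),.c (nat_lit 0) (nat_lit 515),.c (nat_lit 7) (nat_lit 770),
    .c (nat_lit 2) (nat_lit 2),.r (nat_lit 0x1ae0) (nat_lit 13) [nat_lit 0x2001,nat_lit 0x222321,nat_lit 0x3231],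
    .r (nat_lit 0x1bd6) (nat_lit 8) [nat_lit 0x220001,nat_lit 0x333231],
    .r (nat_lit 0x174e) (nat_lit 5) [nat_lit 0x2001,nat_lit 33],.r (nat_lit 0x1bfb) (nat_lit 4) [nat_lit 0x220031,
    nat_lit 0x24031,nat_lit 33],.c (nat_lit 2) (nat_lit 0x2002),.c (nat_lit 3) (nat_lit 2),
    .r (nat_lit 4) (nat_lit 9) [nat_lit 0x2001,nat_lit 33],.r (nat_lit 2) (nat_lit 4) [nat_lit 0x302021,
    nat_lit 0x220001],.r (nat_lit 8) (nat_lit 6) [nat_lit 0x2001,nat_lit 33],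
    .r (nat_lit 0x1ad8) (nat_lit 9) [nat_lit 0x220001,nat_lit 0x304001,nat_lit 33],.c (nat_lit 1) (nat_lit 0x30202),
    .c (nat_lit 4) (nat_lit 2),.c (nat_lit 0) (nat_lit 0x33323),.r (nat_lit 0x1ae1) (nat_lit 6) [nat_lit 0x355451,
    nat_lit 0x200001,nat_lit 0x304001,nat_lit 0x220001],.c (nat_lit 0) (nat_lit 0x33323),
    .r (nat_lit 0x1b04) (nat_lit 8) [nat_lit 0x220001,nat_lit 33],.r (nat_lit 0x1ae0) (nat_lit 13) [nat_lit 0x2001,
    nat_lit 0x242321,nat_lit 0x33231],.c (nat_lit 5) (nat_lit 2),.c (nat_lit 0) (nat_lit 0x33323),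
    .r (nat_lit 2) (nat_lit 4) [nat_lit 0x330231,nat_lit 0x220001],.r (nat_lit 0x1750) (nat_lit 13) [nat_lit 0x220001,
    nat_lit 33],.r (nat_lit 0x1bd6) (nat_lit 8) [nat_lit 0x220001,nat_lit 0x353231],.c (nat_lit 6) (nat_lit 2),
    .r (nat_lit 10) (nat_lit 5) [nat_lit 0x220001,nat_lit 33],.r (nat_lit 0x174e) (nat_lit 5) [nat_lit 0x2001,
    nat_lit 0x20021],.c (nat_lit 7) (nat_lit 2),.r (nat_lit 0x1bfb) (nat_lit 4) [nat_lit 0x200031,nat_lit 0x4031,
    nat_lit 0x20021]],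
    .l (nat_lit 12) (nat_lit 720) (nat_lit 4) (nat_lit 0x1520000015200000130000001300000012300000123000001240000012400000122000001220000011e0000011e0000011700000117) (nat_lit 0x22000000220000002f0000002f0000002e0000002e000000300000003000000034000000340000003b0000003b)
    (nat_lit 0x13e11a1a01861251251241260dc0f60d60f011712715213e14a13013112312412412212211e11e0c113313018610e10e1010e71020f41001000e00fc1090f514a1a010e10e1011011001021001020fa0fc0f30eb1231251010e70f40f40f30f50f30f50f90ef0780ea1311251011010f40f40f50f50f30e90ed0ef0e60ea1241261020f40f50f51000f60f40f40ee0f00e70eb1241241001020f50f30fe1000f20f40f80ee1150e91220f61021000e90f50f40f40f40ea0ee0f00e70df1220dc1001000f30f30f20f40f20f40f80ee1150dd11e0f00fc0fc0ef0ef0ee0f00ee0f00f40ea1290d911e0d60fa0e00ed0f90f80ee0f80ee0f20f40d30e31331270eb0f50ea0ea0e90eb0dd0df0e30d91240d40c11170f31090e60781150e71150e70d3129114124)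
    (nat_lit 0x13e2d02d02d02d02d02d02d02d02d02d02d02d02d011a13e2d02d02d02d02d02d02d02d02d02d02d02d01a014a10e2d02d02d02d02d02d02d02d02d02d02d018613010e10e2d02d02d02d02d02d02d02d02d02d01251311011010f42d02d02d02d02d02d02d02d02d01251230e71010f40f42d02d02d02d02d02d02d02d01241241021000f30f51002d02d02d02d02d02d02d01261240f41020f50f50f61002d02d02d02d02d02d00dc1221001000f30f30f40f20f42d02d02d02d02d00f61221001020f50e90f40f40ea0f42d02d02d02d00d611e0e00fa0f90ed0ee0f80ee0f80f42d02d02d00f011e0fc0fc0ef0ef0f00ee0f00ee0ea0f42d02d01170c11090f30780e60e71150e71151290d31242d01271330f50eb0ea0ea0eb0e90df0dd0d90e30d4124)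
    (nat_lit 3) (nat_lit 79)
    [[nat_lit 2,nat_lit 0x10002,nat_lit 17,nat_lit 33,nat_lit 273,nat_lit 0x1011,nat_lit 0x10011,nat_lit 0x100011,
    nat_lit 257,nat_lit 513,nat_lit 0x1101,nat_lit 0x10101,nat_lit 0x1001,nat_lit 0x11001,nat_lit 0x10001,
    nat_lit 0x20002,nat_lit 0x20001,nat_lit 0x110001,nat_lit 0x100001,nat_lit 0x1000001,nat_lit 0x1000002,
    nat_lit 0x1000011,nat_lit 0x1000101],[nat_lit 32,nat_lit 272,nat_lit 0x1010,nat_lit 0x10010,nat_lit 0x100010,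
    nat_lit 0x100020,nat_lit 0x1000010],[nat_lit 512,nat_lit 0x1100,nat_lit 0x10100,nat_lit 0x100100,
    nat_lit 0x1000100],[nat_lit 0x2000,nat_lit 0x11000,nat_lit 0x101000,nat_lit 0x1001000],[nat_lit 0x20000,
    nat_lit 0x110000,nat_lit 0x1010000],[nat_lit 0x200000],[nat_lit 0x2000000]]
    [.c (nat_lit 1) (nat_lit 2),.r (nat_lit 0x1bdf) (nat_lit 12) [nat_lit 0x401,nat_lit 0x4d1],
    .c (nat_lit 0) (nat_lit 0x2403),.c (nat_lit 2) (nat_lit 0x3602),.c (nat_lit 2) (nat_lit 0x209a),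
    .c (nat_lit 4) (nat_lit 0x3602),.c (nat_lit 5) (nat_lit 0x3602),.c (nat_lit 6) (nat_lit 0x3602),
    .c (nat_lit 0) (nat_lit 0x30d3),.c (nat_lit 2) (nat_lit 0x652a),.c (nat_lit 4) (nat_lit 0x209a),
    .c (nat_lit 5) (nat_lit 0x209a),.r (nat_lit 0x1b04) (nat_lit 1) [nat_lit 0x401,nat_lit 17],
    .r (nat_lit 4) (nat_lit 4) [nat_lit 0x699,nat_lit 0x401],.r (nat_lit 0x174f) (nat_lit 6) [nat_lit 17,
    nat_lit 0x401],.r (nat_lit 2) (nat_lit 6) [nat_lit 18,nat_lit 0x401],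
    .r (nat_lit 0x1bdf) (nat_lit 6) [nat_lit 0x401,nat_lit 0x4d1],.r (nat_lit 0x11f7) (nat_lit 9) [nat_lit 0x2b719,
    nat_lit 0x3611,nat_lit 0x801,nat_lit 0x2611],.r (nat_lit 0x1ac9) (nat_lit 10) [nat_lit 0x18699,nat_lit 17,
    nat_lit 0x401],.r (nat_lit 2) (nat_lit 5) [nat_lit 0x12419,nat_lit 17],
    .r (nat_lit 0x1c0e) (nat_lit 12) [nat_lit 0x12001,nat_lit 0x2d011,nat_lit 0x24419],
    .c (nat_lit 6) (nat_lit 0x2483),.c (nat_lit 6) (nat_lit 0x3013),.c (nat_lit 2) (nat_lit 2),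
    .c (nat_lit 2) (nat_lit 0x449a),.c (nat_lit 0) (nat_lit 0x2003),.c (nat_lit 0) (nat_lit 0x2003),
    .r (nat_lit 0x174e) (nat_lit 5) [nat_lit 0x12419,nat_lit 17],.r (nat_lit 0x1c0e) (nat_lit 12) [nat_lit 0x12001,
    nat_lit 0x419,nat_lit 17],.r (nat_lit 0x174e) (nat_lit 1) [nat_lit 0x12001,nat_lit 0x2b691],
    .c (nat_lit 3) (nat_lit 2),.c (nat_lit 0) (nat_lit 0x36d3),.c (nat_lit 0) (nat_lit 0x36d3),
    .r (nat_lit 0x174e) (nat_lit 5) [nat_lit 0x18099,nat_lit 0x224d1],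
    .r (nat_lit 0x174e) (nat_lit 1) [nat_lit 0x12001,nat_lit 17],.c (nat_lit 4) (nat_lit 2),
    .c (nat_lit 1) (nat_lit 0x402),.r (nat_lit 8) (nat_lit 5) [nat_lit 0x12001,nat_lit 17],
    .r (nat_lit 0x1bd6) (nat_lit 11) [nat_lit 0x401,nat_lit 0x1b699],.c (nat_lit 5) (nat_lit 2),
    .r (nat_lit 4) (nat_lit 1) [nat_lit 0x12001,nat_lit 17],.r (nat_lit 0x1ae0) (nat_lit 2) [nat_lit 0x12001,
    nat_lit 0x124d1,nat_lit 0x1b099],.c (nat_lit 6) (nat_lit 2),.c (nat_lit 7) (nat_lit 2)],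
    .l (nat_lit 13) (nat_lit 0x780) (nat_lit 3) (nat_lit 0x2fb000002f30000028500000285000002f30000031b0000030b000002f7000002fd000002fd000002c4000002c40000032a0000032a) (nat_lit 0x370000002f000000a5000000a50000000f00000037000000330000001f0000002d0000002d00000066000000660000000000000000)
    (nat_lit 0x1720c3046c21e0f00b905882dc16707d852a29517d8bec5782e413309385c82bc14a078058c2c21798a346562fd12708783c01e01b508d84ac26612c0a1042a21f132887c4cc2360f007806d424e11f09784c028410f881c4ca28515e0b9049c2361760af05281e016f0b6851a2851898bcc5c81e01b50da86182ec16e0bf05dc2ea1078ad463631b0f00b704bc26617e07805b82ec16f0ba854a2a520b8ec45282c411f09585b82941620b705942ca1488a4479e36916107d85082841750b685942ea1680b4044a2971808bf458c2ce13009605dc2de1650b785a02d017e8a5c5fa2971468a5440e21f15a8a145222a514b8a5c58825e16209785e629510f885441e28d1488a945fa22512f0b105882c417e8bec50a21f18d8bcc6d23b114b8bf458825e1950ca86562fb13289946363131e7905c5fa3011620b105d432a)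
    (nat_lit 0x1721e00f007803c01e00f007803c01e00f007803c01e006182e43c01e00f007803c01e00f007803c01e00f0078011b09983c07803c01e00f007803c01e00f007803c01e0043c24e0f00780f007803c01e00f007803c01e00f007800f00b906d436a1761e00f007803c01e00f007803c01e005c82bc11b09385782ec3c01e00f007803c01e00f007801620a504ac23e14a0b705b87803c01e00f007803c01e005b81e013309783c02fc1760b70f007803c01e00f007801670b184b026016f0bb85bc2ca1681e00f007803c01e003ec2c21420a105b42ea1750b285a02d03c01e00f0078014a8bcc42a21f146883c54a2911128bf45887803c01e0052a28d10f881c50a2b51528a4452e29712f0b10f0078017d8cac4ca2651898c6c82e3cf1808bf45882c41951e005f62fd10f8a145e631b1d88da45fa29712f0b1065432a)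
    (nat_lit 4) (nat_lit 37)
    [[nat_lit 2,nat_lit 17,nat_lit 0x100011,nat_lit 257,nat_lit 0x10001,nat_lit 0x100001,nat_lit 0x200001,
    nat_lit 0x1000001],[nat_lit 32,nat_lit 0x10020,nat_lit 0x100020,nat_lit 272,nat_lit 0x100110,nat_lit 0x1010,
    nat_lit 0x101010,nat_lit 0x11010,nat_lit 0x1001010,nat_lit 0x10010,nat_lit 0x1010010,nat_lit 0x110010,
    nat_lit 0x100010,nat_lit 0x200010,nat_lit 0x1100010,nat_lit 0x1000010],[nat_lit 512,nat_lit 0x1100,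
    nat_lit 0x1001100,nat_lit 0x10100,nat_lit 0x100100,nat_lit 0x200100,nat_lit 0x1100100,nat_lit 0x1000100],
    [nat_lit 0x2000,nat_lit 0x11000,nat_lit 0x1011000,nat_lit 0x111000,nat_lit 0x101000,nat_lit 0x201000,
    nat_lit 0x1101000,nat_lit 0x1001000],[nat_lit 0x20000,nat_lit 0x110000,nat_lit 0x1010000,nat_lit 0x1110000],
    [nat_lit 0x200000,nat_lit 0x300000,nat_lit 0x1200000,nat_lit 0x1100000,nat_lit 0x2100000],[nat_lit 0x2000000]]
    [.c (nat_lit 1) (nat_lit 2),.r (nat_lit 0x174d) (nat_lit 4) [nat_lit 0x30231,nat_lit 33],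
    .c (nat_lit 1) (nat_lit 770),.c (nat_lit 2) (nat_lit 0x33202),.r (nat_lit 32) (nat_lit 4) [nat_lit 0x2001,
    nat_lit 33],.c (nat_lit 0) (nat_lit 0x22003),.r (nat_lit 0x174e) (nat_lit 4) [nat_lit 0x222031,nat_lit 0x33201],
    .r (nat_lit 2) (nat_lit 5) [nat_lit 0x2001,nat_lit 33],.c (nat_lit 2) (nat_lit 2),
    .r (nat_lit 0x1c0c) (nat_lit 4) [nat_lit 33,nat_lit 0x405021,nat_lit 0x550431],.c (nat_lit 2) (nat_lit 770),
    .r (nat_lit 0x174f) (nat_lit 4) [nat_lit 0x33201,nat_lit 33],.c (nat_lit 3) (nat_lit 770),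
    .c (nat_lit 3) (nat_lit 0x24032),.c (nat_lit 1) (nat_lit 0x3023),.c (nat_lit 7) (nat_lit 0x33023),
    .c (nat_lit 5) (nat_lit 0x33023),.r (nat_lit 0) (nat_lit 5) [nat_lit 0x33201,nat_lit 33],
    .c (nat_lit 1) (nat_lit 0x20302),.c (nat_lit 5) (nat_lit 770),.c (nat_lit 0) (nat_lit 515),
    .c (nat_lit 6) (nat_lit 770),.c (nat_lit 7) (nat_lit 770),.r (nat_lit 8) (nat_lit 13) [nat_lit 0x330231,
    nat_lit 33],.c (nat_lit 3) (nat_lit 2),.r (nat_lit 0x1b59) (nat_lit 7) [nat_lit 0x2001,nat_lit 0x30021,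
    nat_lit 0x20001],.r (nat_lit 32) (nat_lit 4) [nat_lit 0x2001,nat_lit 0x3231],.c (nat_lit 0) (nat_lit 0x2003),
    .c (nat_lit 0) (nat_lit 0x22003),.r (nat_lit 8) (nat_lit 5) [nat_lit 0x222031,nat_lit 0x353221],
    .r (nat_lit 32) (nat_lit 3) [nat_lit 0x22031,nat_lit 0x33201],.c (nat_lit 0) (nat_lit 0x2003),
    .c (nat_lit 4) (nat_lit 2),.r (nat_lit 0x174d) (nat_lit 3) [nat_lit 0x330231,nat_lit 33],
    .c (nat_lit 2) (nat_lit 0x33023),.r (nat_lit 0x1361) (nat_lit 4) [nat_lit 0x222321,nat_lit 0x40001,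
    nat_lit 0x373221,nat_lit 0x332231],.r (nat_lit 8) (nat_lit 5) [nat_lit 0x30231,nat_lit 33],
    .r (nat_lit 0x1840) (nat_lit 11) [nat_lit 0x22321,nat_lit 0x33201,nat_lit 0x32231,nat_lit 0x423231],
    .r (nat_lit 0x1c0c) (nat_lit 4) [nat_lit 0x332231,nat_lit 0x233231,nat_lit 0x333221],
    .r (nat_lit 32) (nat_lit 3) [nat_lit 0x330231,nat_lit 0x33201],.c (nat_lit 5) (nat_lit 2),
    .r (nat_lit 0x1b04) (nat_lit 0) [nat_lit 33,nat_lit 0x33201],.c (nat_lit 0) (nat_lit 0x2003),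
    .r (nat_lit 0x174e) (nat_lit 4) [nat_lit 0x22031,nat_lit 0x33201],.c (nat_lit 6) (nat_lit 2),
    .r (nat_lit 0x1365) (nat_lit 4) [nat_lit 33,nat_lit 0x60001,nat_lit 0x7d7621,nat_lit 0x6031],
    .r (nat_lit 0x17c3) (nat_lit 0) [nat_lit 0x2001,nat_lit 0x33201,nat_lit 33,nat_lit 0x220001],
    .r (nat_lit 0x1b04) (nat_lit 1) [nat_lit 33,nat_lit 0x33201],.r (nat_lit 0x1b07) (nat_lit 4) [nat_lit 0x2031,
    nat_lit 33,nat_lit 0x20001,nat_lit 0x200031],.c (nat_lit 7) (nat_lit 2)]]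

/-- nodes -/
noncomputable def rD7k_22_15 : List RJ :=
  [.l (nat_lit 13) (nat_lit 0x5a0) (nat_lit 3) (nat_lit 0x263000002630000025e000002a6000002c4000002c40000027a0000027a000002160000021600000266000002660000021600000216) (nat_lit 0x61000000610000001e0000006600000000000000000000004a0000004a000000ae000000ae0000005e0000005e000000ae000000ae)
    (nat_lit 0x11a08082e222f131898c43218510286d440a2050da87a440423411c87f438e1e910f886446e169102882c30621b0fe88bc5741f812f09a84c02b00d506a833417e0bf06c04721711440ae854c2a61780d003f01f80b409203f01f80f4898c54c26a0f00b104f427a10b06084cc2661750bd838e26315309785881e013d09e847c21613309985542b610c86146802b013d09e84602300e607302f81f40e6073043e21917809804f427a11808c03481cc10e08703981a40b486d43f01aa10b06083981cc0b405a03c01e00b405a046e2050fc06a847c2160d207302d01680dc06e02d0168105881449017e13309984381f40dc07804102080b406e040a2050b406684cc26610e05f03701e010408203081b810d87a43f01b015b0bd83481cc0b405a03701b80b405a03061b50fc05f85542ea0e607302d01680c205a02d0168)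
    (nat_lit 0x11a1680b405a02d01680b405a02d01680b405a02d016804042342d01680b405a02d01680b405a02d01680b405a00b888e45745a02d01680b405a02d01680b405a02d0168045e1fd0fc0ae8b405a02d01680b405a02d01680b405a0131871c4bc2a60f01680b405a02d01680b405a02d016804c61e91350a985881e02d01680b405a02d01680b405a010c887c4c02f013d09e84605a02d01680b405a02d0168030a2191580d004f427a11808c0b405a02d01680b405a010288dc3541f810b08f83981a40b41680b405a02d0168036a1690d507e03042160e607302d01682d01680b405a0102881433416813309982f821c0f006e04105a02d0168040a20b0bf09204cc2660fa08703c01b81040820b405a00da860c2fc1f81750aa83981cc0b405a02d01840b416803d221b0d807e05d42b60e606902d01680dc06e02d0168)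
    (nat_lit 5) (nat_lit 49)
    [[nat_lit 2,nat_lit 3,nat_lit 18,nat_lit 258,nat_lit 0x1002,nat_lit 0x100002,nat_lit 0x1000002,nat_lit 17,
    nat_lit 33,nat_lit 273,nat_lit 0x1011,nat_lit 0x100011,nat_lit 0x1000011,nat_lit 257,nat_lit 513,nat_lit 0x1101,
    nat_lit 0x100101,nat_lit 0x1000101,nat_lit 0x1001,nat_lit 0x1001001,nat_lit 0x10101,nat_lit 0x100001,
    nat_lit 0x1100001,nat_lit 0x1000001],[nat_lit 32,nat_lit 0x100020,nat_lit 272,nat_lit 528,nat_lit 0x1110,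
    nat_lit 0x100110,nat_lit 0x1000110,nat_lit 0x1010,nat_lit 0x10010,nat_lit 0x100010,nat_lit 0x1100010,
    nat_lit 0x1000010],[nat_lit 512,nat_lit 768,nat_lit 0x1200,nat_lit 0x10200,nat_lit 0x100200,nat_lit 0x1000200,
    nat_lit 0x1100,nat_lit 0x1001100,nat_lit 0x10100,nat_lit 0x1010100,nat_lit 0x100100,nat_lit 0x1100100,
    nat_lit 0x1000100],[nat_lit 0x2000,nat_lit 0x11000,nat_lit 0x1001000],[nat_lit 0x20000,nat_lit 0x110000,
    nat_lit 0x1010000],[nat_lit 0x200000,nat_lit 0x1100000],[nat_lit 0x2000000]]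
    [.c (nat_lit 1) (nat_lit 2),.r (nat_lit 0x9a9) (nat_lit 13) [nat_lit 65,nat_lit 0x1c0700041,nat_lit 0x600001,
    nat_lit 0xe739861,nat_lit 0x30cc000a1],.r (nat_lit 0x9aa) (nat_lit 9) [nat_lit 0x80218041,nat_lit 0x40200a1,
    nat_lit 0x6318801,nat_lit 0xc0010061,nat_lit 0x18041],.r (nat_lit 4) (nat_lit 9) [nat_lit 0xc0300041,
    nat_lit 0x104400061],.c (nat_lit 3) (nat_lit 0x8220003),.r (nat_lit 0x9ab) (nat_lit 0) [nat_lit 65,
    nat_lit 0xc0000061,nat_lit 0xc0010061,nat_lit 0x200061,nat_lit 0x104000081],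
    .r (nat_lit 0x9aa) (nat_lit 9) [nat_lit 0x80200041,nat_lit 0x40000a1,nat_lit 0x6318801,nat_lit 0xc0000061,
    nat_lit 65],.r (nat_lit 4) (nat_lit 13) [nat_lit 0x84210061,nat_lit 0x18041],
    .r (nat_lit 2) (nat_lit 8) [nat_lit 0x200001,nat_lit 0x310861],.c (nat_lit 4) (nat_lit 0x4210803),
    .c (nat_lit 3) (nat_lit 0x4210803),.c (nat_lit 1) (nat_lit 0x4000c02),
    .r (nat_lit 2) (nat_lit 8) [nat_lit 0x200001,nat_lit 0x300861],.c (nat_lit 2) (nat_lit 0x6018802),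
    .r (nat_lit 32) (nat_lit 12) [nat_lit 0xc0300041,nat_lit 0x104400061],.c (nat_lit 2) (nat_lit 0x4210803),
    .c (nat_lit 1) (nat_lit 0x18002),.c (nat_lit 4) (nat_lit 0x4210003),
    .r (nat_lit 32) (nat_lit 12) [nat_lit 0x84200061,nat_lit 65],.c (nat_lit 3) (nat_lit 0x4210003),
    .c (nat_lit 6) (nat_lit 0x300c43),.r (nat_lit 0x198f) (nat_lit 8) [nat_lit 0x80400061,nat_lit 0x6318801,
    nat_lit 0xc0000041],.c (nat_lit 1) (nat_lit 0x4000002),.r (nat_lit 4) (nat_lit 13) [nat_lit 0x84200061,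
    nat_lit 65],.c (nat_lit 2) (nat_lit 2),.r (nat_lit 4) (nat_lit 13) [nat_lit 0x4220061,nat_lit 0x80028041],
    .c (nat_lit 0) (nat_lit 0x221005),.r (nat_lit 0x175b) (nat_lit 12) [nat_lit 0x18041,nat_lit 0x4020001,
    nat_lit 0x200061,nat_lit 0x80218061],.c (nat_lit 1) (nat_lit 0x4210803),.c (nat_lit 2) (nat_lit 0x18002),
    .r (nat_lit 0x112a) (nat_lit 5) [nat_lit 0x1294a001,nat_lit 0x1104200a1,nat_lit 0x100428081,nat_lit 0xc0330041],
    .c (nat_lit 0) (nat_lit 0x201003),.c (nat_lit 3) (nat_lit 0x4220062),.c (nat_lit 0) (nat_lit 0x6000803),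
    .r (nat_lit 4) (nat_lit 13) [nat_lit 0x4210061,nat_lit 0x80018041],.c (nat_lit 2) (nat_lit 0x802),
    .c (nat_lit 3) (nat_lit 2),.r (nat_lit 0x1380) (nat_lit 13) [nat_lit 0x1ad6b001,nat_lit 0x3318634a1,
    nat_lit 0x366d6b001,nat_lit 129],.c (nat_lit 1) (nat_lit 0x8220003),
    .r (nat_lit 0x1a57) (nat_lit 13) [nat_lit 0x4210c41,nat_lit 0x6318801,nat_lit 0x104218861,nat_lit 0x146218861],
    .c (nat_lit 3) (nat_lit 0x18002),.r (nat_lit 0x175b) (nat_lit 12) [nat_lit 65,nat_lit 0x4020001,nat_lit 0x218061,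
    nat_lit 0x80228061],.r (nat_lit 4) (nat_lit 9) [nat_lit 0x84200061,nat_lit 65],.c (nat_lit 1) (nat_lit 0x4210003),
    .r (nat_lit 0x1b7a) (nat_lit 4) [nat_lit 0x80000001,nat_lit 0x84210c41,nat_lit 0xc6318801],
    .r (nat_lit 0x1c10) (nat_lit 6) [nat_lit 0x200001,nat_lit 0x4010001,nat_lit 0x6018041],
    .c (nat_lit 0) (nat_lit 0x10003),.c (nat_lit 2) (nat_lit 0x18802),.c (nat_lit 0) (nat_lit 0x220005),
    .c (nat_lit 4) (nat_lit 2),.r (nat_lit 2) (nat_lit 8) [nat_lit 0x200001,nat_lit 65],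
    .c (nat_lit 0) (nat_lit 0x200005),.c (nat_lit 5) (nat_lit 2),.c (nat_lit 0) (nat_lit 0x6318043),
    .c (nat_lit 3) (nat_lit 0x4220862),.c (nat_lit 6) (nat_lit 2),.c (nat_lit 0) (nat_lit 0x6000003),
    .c (nat_lit 7) (nat_lit 2)],
    .l (nat_lit 16) (nat_lit 0x2760) (nat_lit 3) (nat_lit 0x106700000dcb00000fbd00000dc9000010180000101800000fad00000fad000010a700000d5f00000f1e000010e60000103100000f29) (nat_lit 0x31b0000007f0000031d00000129000000ce000000ce0000013900000139000003870000003f00000000000001c8000001bd000000b5)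
    (nat_lit 0xd4c103c0d4a0f3e0bef0f990eda0f2e0ce009d810910f490eaa0fb209da0d4c0aae0ca20cfd0c2712360f900a440d8c0df50c030c0e0d160ca20f3e0d760f6a0bf10eef0e840e840c3609da0fbd0df50e000ede0aae0d4a0b820d760cfb0cfb0c900c9009d80ca20dc90a2f0c0c0d140c270f990cfb0eef0f4a0e740fc70edf0e630fd910180eba0e5b0f630cfd0bef0cfb0bf10f4a0f4a0e8b0edf0ecd0fd90bf00f240e5b0f630f900f2e0c900e840edf0edf0e740e740b520fc20fad0ba9119a132012360eda0c900e840e8b0fc70c4c0e740df80f6e0f2f0cbb144015c60d8c09d80ca209da0fd90fd90f6e0fc20e4a129009d90d0d0f3e10700a440ce009d80c360ecd0e630df80b5209d80e4a10310b970af809d80c030f490a2f0df50f240eba0cbb0ba90b970d0d11f00d560d610b970df510910dc90fbd0bf010180f2f0fad103109d910e611f00f2910310d160fb20d140ede0f630f6315c6132009d8107010310b970e4a0f7c0c0e0eaa0c0c0e000e5b0e5b1440119a0af80f3e0f290d610d180e4a)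
    (nat_lit 0xd4c2760276027602760276027602760276027602760276027602760103c0d4c2760276027602760276027602760276027602760276027600d4a0aae0d76276027602760276027602760276027602760276027600f3e0ca20f6a0d7627602760276027602760276027602760276027600bef0cfd0bf10cfb0f4a2760276027602760276027602760276027600f990c270eef0cfb0e740f4a276027602760276027602760276027600eda12360e840c900fc70e8b0e7427602760276027602760276027600f2e0f900e840c900edf0edf0e740e742760276027602760276027600ce00a440c3609d80e630ecd0b520df80e4a2760276027602760276009d80d8c09da0ca20fd90fd90fc20f6e12900e4a276027602760276010910df50fbd0dc910180bf00fad0f2f09d9103111f02760276027600f490c030df50a2f0eba0f240ba90cbb0d0d0b970d5611f0276027600eaa0c0e0e000c0c0e5b0e5b119a14400f3e0af80d610f290e4a27600fb20d160ede0d140f630f63132015c6107009d80b9710310f7c0e4a)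
    (nat_lit 3) (nat_lit 37)
    [[nat_lit 2,nat_lit 17,nat_lit 273,nat_lit 257,nat_lit 0x100101,nat_lit 0x1000101,nat_lit 0x10001,nat_lit 0x10011,
    nat_lit 0x100001,nat_lit 0x1000001],[nat_lit 32,nat_lit 272,nat_lit 528,nat_lit 0x1110,nat_lit 0x100110,
    nat_lit 0x1000110,nat_lit 0x1010,nat_lit 0x10010,nat_lit 0x110010,nat_lit 0x100010,nat_lit 0x1000010],
    [nat_lit 512,nat_lit 0x100200,nat_lit 0x1000200,nat_lit 0x1100,nat_lit 0x101100,nat_lit 0x10100,nat_lit 0x110100,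
    nat_lit 0x1010100,nat_lit 0x100100,nat_lit 0x200100,nat_lit 0x1100100,nat_lit 0x1000100,nat_lit 0x2000100],
    [nat_lit 0x2000,nat_lit 0x11000,nat_lit 0x101000,nat_lit 0x1001000],[nat_lit 0x20000,nat_lit 0x110000,
    nat_lit 0x210000,nat_lit 0x1110000,nat_lit 0x1010000,nat_lit 0x2010000],[nat_lit 0x200000,nat_lit 0x1100000,
    nat_lit 0x2100000],[nat_lit 0x2000000]]
    [.c (nat_lit 1) (nat_lit 2),.r (nat_lit 4) (nat_lit 2) [nat_lit 0x18699,nat_lit 17],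
    .r (nat_lit 0x1b71) (nat_lit 3) [nat_lit 0x401,nat_lit 0x18a99,nat_lit 0x12019,nat_lit 0x3411],
    .r (nat_lit 0x1c06) (nat_lit 10) [nat_lit 0x1b011,nat_lit 0x12001,nat_lit 0x22419],.c (nat_lit 1) (nat_lit 194),
    .c (nat_lit 1) (nat_lit 0x4c2),.r (nat_lit 32) (nat_lit 4) [nat_lit 0x18699,nat_lit 17],
    .c (nat_lit 6) (nat_lit 0x30d3),.c (nat_lit 7) (nat_lit 0x602),.r (nat_lit 0x1b50) (nat_lit 7) [nat_lit 0x12019,
    nat_lit 0x401,nat_lit 17],.c (nat_lit 2) (nat_lit 2),.r (nat_lit 0x174f) (nat_lit 4) [nat_lit 0x12001,nat_lit 17],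
    .r (nat_lit 0x198f) (nat_lit 11) [nat_lit 0x819,nat_lit 0x12001,nat_lit 17],
    .r (nat_lit 0x1c11) (nat_lit 12) [nat_lit 0x10419,nat_lit 0x401,nat_lit 0x2ba91,nat_lit 0x12019],
    .c (nat_lit 2) (nat_lit 194),.r (nat_lit 4) (nat_lit 2) [nat_lit 0x1b099,nat_lit 0x2611],
    .r (nat_lit 0x1b6e) (nat_lit 7) [nat_lit 0x401,nat_lit 0x124d1,nat_lit 0x1b681],.c (nat_lit 0) (nat_lit 0x36d3),
    .c (nat_lit 1) (nat_lit 0x30d3),.r (nat_lit 32) (nat_lit 11) [nat_lit 0x18699,nat_lit 17],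
    .c (nat_lit 0) (nat_lit 0x36d3),.c (nat_lit 3) (nat_lit 2),.c (nat_lit 3) (nat_lit 194),
    .r (nat_lit 0x1c06) (nat_lit 10) [nat_lit 0x18611,nat_lit 0x12001,nat_lit 0x20819],
    .c (nat_lit 0) (nat_lit 0x2083),.c (nat_lit 1) (nat_lit 0x2483),.r (nat_lit 0x17ac) (nat_lit 9) [nat_lit 0x401,
    nat_lit 0x12001,nat_lit 17,nat_lit 0x2ba99],.c (nat_lit 5) (nat_lit 194),
    .r (nat_lit 32) (nat_lit 4) [nat_lit 0x1b099,nat_lit 0x2611],.c (nat_lit 0) (nat_lit 131),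
    .c (nat_lit 6) (nat_lit 194),.c (nat_lit 7) (nat_lit 194),.c (nat_lit 0) (nat_lit 0x683),
    .r (nat_lit 0x1b50) (nat_lit 7) [nat_lit 0x10419,nat_lit 0x401,nat_lit 0x2611],.c (nat_lit 4) (nat_lit 2),
    .r (nat_lit 2) (nat_lit 8) [nat_lit 0x401,nat_lit 17],.r (nat_lit 0x1ba0) (nat_lit 10) [nat_lit 0x419,
    nat_lit 0x12001,nat_lit 17,nat_lit 0x10011],.c (nat_lit 6) (nat_lit 0x3002),.c (nat_lit 5) (nat_lit 2),
    .r (nat_lit 4) (nat_lit 1) [nat_lit 0x18699,nat_lit 17],.r (nat_lit 0x1b71) (nat_lit 3) [nat_lit 0x401,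
    nat_lit 0xa11,nat_lit 0x220d1,nat_lit 0x1b499],.r (nat_lit 0x174e) (nat_lit 4) [nat_lit 0x1b099,nat_lit 0x12001],
    .c (nat_lit 0) (nat_lit 0x36d3),.r (nat_lit 0x1c11) (nat_lit 12) [nat_lit 0x124d1,nat_lit 0x401,nat_lit 0x2db19,
    nat_lit 0x140d1],.c (nat_lit 6) (nat_lit 2),.r (nat_lit 0x1b04) (nat_lit 1) [nat_lit 17,nat_lit 0x12001],
    .r (nat_lit 0x1126) (nat_lit 8) [nat_lit 0x3df99,nat_lit 0x3011,nat_lit 0x4011,nat_lit 0x36001],
    .c (nat_lit 7) (nat_lit 2)],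
    .l (nat_lit 11) (nat_lit 480) (nat_lit 4) (nat_lit 0xb9000000c9000000bf000000bf000000bf000000bf000000dc000000dc000000c3000000bb000000c0000000c0000000bf000000bf) (nat_lit 0x13000000230000001d0000001d0000001d0000001d000000000000000000000021000000190000001c0000001c0000001d0000001d)
    (nat_lit 0x1482584809a13c280688bf12c2804b89f1382685b0a415c2b0500aa1923245405015a2b4570ac158268520a21442808f8cb13c298518a314828857090144290510a222a3044c0a614228c4f0a4154280510a01402885f8bf13c140508a915c2905009e144288510a01a22fc550a614627c4e0a21922fc608cb17e2fc6e0dc17e2c4600b417a2fc648d122a47c688bf1a8370688c316c2885f8b90a0280530a614c140618b11802c85689111c2c0540961302785509e1a22fc510c013e27c4e09215a27c518a313e2a4510b413e2445809c14a28c5689714228c518a116c3004f8ad1602c0528a3158268520a21442905c8bf1242c0518a31502585709c13c2904e0ae17e2f44e08e14a294510a8)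
    (nat_lit 0x148780f01e03c0780f01e03c0780f01e03c07804b0a43c0780f01e03c0780f01e03c0780f01e01202b8521e03c0780f01e03c0780f01e03c07804d0ac144290f01e03c0780f01e03c0780f01e013c280510a2140780f01e03c0780f01e03c0780500aa140288510a03c0780f01e03c0780f01e01a23248f91517e3446e1e03c0780f01e03c07805f8c91963045f8bf1b8370f01e03c0780f01e012c2a04f09813c2a85f8d1180780f01e03c07805005014c298280a616230c590c03c0780f01e012e2b4518a114228c600b615a27c581e03c07804f8ad14628c5489f1682884889f1382c0f01e01382b85209e15c2705e8bf11c270528a51507804d0ac144290520a217e2e45809214628c4b0a8)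
    (nat_lit 3) (nat_lit 49)
    [[nat_lit 2,nat_lit 258,nat_lit 17,nat_lit 273,nat_lit 257,nat_lit 0x10101,nat_lit 0x100101,nat_lit 0x1000101,
    nat_lit 0x1001,nat_lit 0x10001,nat_lit 0x100001,nat_lit 0x100002,nat_lit 0x1000001],[nat_lit 32,nat_lit 272,
    nat_lit 0x10110,nat_lit 0x1000110,nat_lit 0x1010,nat_lit 0x10010,nat_lit 0x100010,nat_lit 0x100110,
    nat_lit 0x1000010],[nat_lit 512,nat_lit 0x10200,nat_lit 0x1000200,nat_lit 0x2000200,nat_lit 0x1100,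
    nat_lit 0x10100,nat_lit 0x20100,nat_lit 0x1010100,nat_lit 0x100100,nat_lit 0x110100,nat_lit 0x1100100,
    nat_lit 0x1000100,nat_lit 0x2000100],[nat_lit 0x2000,nat_lit 0x11000,nat_lit 0x1001000],[nat_lit 0x20000,
    nat_lit 0x110000,nat_lit 0x1110000,nat_lit 0x1010000],[nat_lit 0x200000,nat_lit 0x1100000],[nat_lit 0x2000000]]
    [.c (nat_lit 1) (nat_lit 2),.c (nat_lit 1) (nat_lit 0x3602),.r (nat_lit 4) (nat_lit 2) [nat_lit 0x18699,
    nat_lit 17],.c (nat_lit 2) (nat_lit 0x3602),.c (nat_lit 0) (nat_lit 0x2403),.c (nat_lit 5) (nat_lit 0x3602),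
    .c (nat_lit 4) (nat_lit 0x2483),.c (nat_lit 7) (nat_lit 0x3602),.r (nat_lit 0x1ba0) (nat_lit 10) [nat_lit 0x12019,
    nat_lit 17,nat_lit 0x401,nat_lit 0x3411],.r (nat_lit 32) (nat_lit 4) [nat_lit 0x18699,nat_lit 17],
    .c (nat_lit 7) (nat_lit 0x602),.r (nat_lit 0x1a32) (nat_lit 1) [nat_lit 0x1d011,nat_lit 0x12001,nat_lit 0x401],
    .r (nat_lit 0x1bc7) (nat_lit 8) [nat_lit 0x401,nat_lit 17,nat_lit 0x10019],.c (nat_lit 2) (nat_lit 2),
    .r (nat_lit 0x1969) (nat_lit 10) [nat_lit 0x401,nat_lit 0x124d1,nat_lit 0x699],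
    .r (nat_lit 0x1a32) (nat_lit 1) [nat_lit 0x1b699,nat_lit 0x12001,nat_lit 0x401],
    .r (nat_lit 32) (nat_lit 11) [nat_lit 0x699,nat_lit 0x18011],.r (nat_lit 0x1bfd) (nat_lit 13) [nat_lit 0x611,
    nat_lit 0x12001,nat_lit 0x401],.c (nat_lit 0) (nat_lit 0x36d3),.r (nat_lit 32) (nat_lit 11) [nat_lit 0x18699,
    nat_lit 17],.r (nat_lit 0x1b96) (nat_lit 10) [nat_lit 0x401,nat_lit 0x1b681,nat_lit 0x120d1],
    .c (nat_lit 0) (nat_lit 0x36d3),.c (nat_lit 3) (nat_lit 2),.r (nat_lit 0x18d4) (nat_lit 9) [nat_lit 0x12001,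
    nat_lit 0x401,nat_lit 17,nat_lit 0x10401],.r (nat_lit 0x1a7f) (nat_lit 4) [nat_lit 0x22019,nat_lit 0x18011,
    nat_lit 0x401],.c (nat_lit 4) (nat_lit 0x4103),.c (nat_lit 0) (nat_lit 0x2083),
    .r (nat_lit 0x1bae) (nat_lit 4) [nat_lit 0x12019,nat_lit 17,nat_lit 0x401],
    .r (nat_lit 0x17e9) (nat_lit 9) [nat_lit 0x12001,nat_lit 0x401,nat_lit 17,nat_lit 0x10401],
    .r (nat_lit 4) (nat_lit 1) [nat_lit 0x699,nat_lit 0x18011],.r (nat_lit 0x1a7f) (nat_lit 4) [nat_lit 0x12019,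
    nat_lit 17,nat_lit 0x401],.r (nat_lit 0x10ac) (nat_lit 1) [nat_lit 0x401,nat_lit 0x2699,nat_lit 17,
    nat_lit 0x10401],.c (nat_lit 4) (nat_lit 0x2103),.c (nat_lit 0) (nat_lit 0x2083),
    .r (nat_lit 0x1b5d) (nat_lit 11) [nat_lit 0x10419,nat_lit 0x18011,nat_lit 17],.c (nat_lit 4) (nat_lit 2),
    .r (nat_lit 0x1b66) (nat_lit 3) [nat_lit 0x108d1,nat_lit 0x18a91,nat_lit 0x18099],.c (nat_lit 1) (nat_lit 0x4c2),
    .c (nat_lit 5) (nat_lit 2),.r (nat_lit 4) (nat_lit 1) [nat_lit 0x18699,nat_lit 17],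
    .r (nat_lit 0x1bfd) (nat_lit 13) [nat_lit 0x1b699,nat_lit 0x12001,nat_lit 0x401],.c (nat_lit 0) (nat_lit 0x36d3),
    .c (nat_lit 6) (nat_lit 2),.r (nat_lit 0x1b5d) (nat_lit 11) [nat_lit 0x419,nat_lit 17,nat_lit 0x10011],
    .c (nat_lit 7) (nat_lit 2)]]

/-- nodes -/
noncomputable def rD7k_22_16 : List RJ :=
  [.l (nat_lit 13) (nat_lit 0x5a0) (nat_lit 4) (nat_lit 0x2830000024b00000252000002520000024c0000024c0000024300000243000001ec000002ac00000255000002550000027600000276) (nat_lit 0x61000000290000005a0000005a0000006000000060000000690000006900000000000000c000000057000000570000003600000036)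
    (nat_lit 0x111096843a22910b888c45821a090869460832812684843d42220f887c43d61910cd078849619d13c0a7042a2150f888a44a41f80f907c83ae1e90d507683f61fb10e06603e221d10e09483cc1f20f787744a41a40f787ec43821c0c8888c3e41f20fc07203a21ef12606183ea1f511108883d62170f307c83d81f80fa878c4bc17a0fa878c42c2160f108683ba1e90f187bc3d81da12a85c43d81da10c883433422c0f7875c3ea1d10ed07b04861830f607b045621f0ce86943481da0bd06183061710f604b03061950d206d849612112906a84bc24c12189545581ec10f89542f427614e0ca03f61fb0f187d43d81da12a86543fc1fe1c089544f03040f787ec3ea1f50f607b043e1830ff07f869621f10a848443819810b088843e20d13b06d843e2550b4090042a24d10e087042c22211588642f41a41a58e04480168)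
    (nat_lit 0x1111680b405a02d01680b405a02d01680b405a02d016804b42222d01680b405a02d01680b405a02d01680b405a010e87c44a45a02d01680b405a02d01680b405a02d016804521f10fc0948b405a02d01680b405a02d01680b405a010b87ac3e41e60fc1680b405a02d01680b405a02d016804461910f907c83901f82d01680b405a02d01680b405a011606683ae1ef0e887d43d85a02d01680b405a02d016804341e20f487743de1e30ed07b0b405a02d01680b405a0090892c35425212609784aa2430f61680b405a02d0168034a19d0ed069030c17a0b8860c2581ec2d01680b405a015209e03f61ef0fa87d43d81ec0c1887c3fc5a02d0168056c29c0fd87ec3ea1e30ed07b032a2550ff07f8b405a0126885443821c111085843222b0d205e861e2fd0b416802422150cc0870444216106887c36c27612a887c480168)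
    (nat_lit 4) (nat_lit 49)
    [[nat_lit 2,nat_lit 3,nat_lit 258,nat_lit 0x100002,nat_lit 0x1000002,nat_lit 257,nat_lit 0x100101,
    nat_lit 0x1000101,nat_lit 273,nat_lit 513,nat_lit 0x1101,nat_lit 0x10101,nat_lit 0x1001,nat_lit 0x1001001,
    nat_lit 0x10001,nat_lit 0x1010001,nat_lit 0x100001,nat_lit 0x1100001,nat_lit 0x1000001,nat_lit 0x2000001],
    [nat_lit 32,nat_lit 272,nat_lit 0x100110,nat_lit 0x1000110,nat_lit 0x1110,nat_lit 0x10110,nat_lit 0x1010,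
    nat_lit 0x10010,nat_lit 0x100010],[nat_lit 512,nat_lit 0x100200,nat_lit 0x1000200,nat_lit 0x1100,
    nat_lit 0x1001100,nat_lit 0x10100,nat_lit 0x1010100,nat_lit 0x100100,nat_lit 0x101100,nat_lit 0x110100,
    nat_lit 0x1100100,nat_lit 0x1000100,nat_lit 0x2000200,nat_lit 0x2000100],[nat_lit 0x2000,nat_lit 0x11000,
    nat_lit 0x101000,nat_lit 0x1001000],[nat_lit 0x20000,nat_lit 0x110000,nat_lit 0x1010000],[nat_lit 0x200000,
    nat_lit 0x1100000],[nat_lit 0x2000000]]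
    [.c (nat_lit 1) (nat_lit 2),.r (nat_lit 2) (nat_lit 1) [nat_lit 0x207022,nat_lit 0x22001],
    .r (nat_lit 0x1bdf) (nat_lit 1) [nat_lit 0x22001,nat_lit 0x23321],.r (nat_lit 0x19de) (nat_lit 4) [nat_lit 0x2001,
    nat_lit 0x20001,nat_lit 0x5021],.r (nat_lit 2) (nat_lit 1) [nat_lit 0x205022,nat_lit 0x22001],
    .r (nat_lit 0x174f) (nat_lit 1) [nat_lit 0x3021,nat_lit 0x22001],.r (nat_lit 4) (nat_lit 8) [nat_lit 0x30231,
    nat_lit 0x22001],.r (nat_lit 0x1bdf) (nat_lit 1) [nat_lit 0x22001,nat_lit 0x20321],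
    .c (nat_lit 0) (nat_lit 0x35304),.c (nat_lit 1) (nat_lit 0x30202),.r (nat_lit 4) (nat_lit 2) [nat_lit 0x30231,
    nat_lit 0x22001],.r (nat_lit 0x174d) (nat_lit 4) [nat_lit 0x30231,nat_lit 0x22001],
    .r (nat_lit 0x1b04) (nat_lit 12) [nat_lit 0x22001,nat_lit 0x3021],.r (nat_lit 0x1550) (nat_lit 0) [nat_lit 0x5041,
    nat_lit 0x4041,nat_lit 0x84051,nat_lit 0x403021],.r (nat_lit 0x1bec) (nat_lit 12) [nat_lit 0x22001,
    nat_lit 0x3021],.r (nat_lit 0x1bd6) (nat_lit 12) [nat_lit 0x22001,nat_lit 0x33021],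
    .r (nat_lit 0x1a91) (nat_lit 1) [nat_lit 0x3021,nat_lit 0x22001],.r (nat_lit 0x19de) (nat_lit 4) [nat_lit 0x2001,
    nat_lit 0x20001,nat_lit 0x3021],.c (nat_lit 1) (nat_lit 514),.r (nat_lit 2) (nat_lit 1) [nat_lit 0x203022,
    nat_lit 0x22001],.c (nat_lit 2) (nat_lit 2),.c (nat_lit 0) (nat_lit 0x22005),
    .r (nat_lit 0x1b66) (nat_lit 9) [nat_lit 0x42321,nat_lit 0x2231,nat_lit 0x3231],.c (nat_lit 0) (nat_lit 0x37004),
    .r (nat_lit 0x1af9) (nat_lit 4) [nat_lit 0x2001,nat_lit 0x20001,nat_lit 0x30021],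
    .r (nat_lit 0x1bd6) (nat_lit 13) [nat_lit 0x22001,nat_lit 0x33021],
    .r (nat_lit 0x1b61) (nat_lit 1) [nat_lit 0x20031,nat_lit 0x22031,nat_lit 33],
    .r (nat_lit 0x1bcd) (nat_lit 1) [nat_lit 0x20031,nat_lit 0x22031,nat_lit 33,nat_lit 0x220031],
    .r (nat_lit 0x1bcc) (nat_lit 10) [nat_lit 0x22031,nat_lit 0x220031,nat_lit 33],.c (nat_lit 3) (nat_lit 2),
    .r (nat_lit 0x1a91) (nat_lit 1) [nat_lit 0x300021,nat_lit 0x22001],.c (nat_lit 1) (nat_lit 0x30402),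
    .r (nat_lit 0x1bec) (nat_lit 10) [nat_lit 33,nat_lit 0x20001],.r (nat_lit 4) (nat_lit 2) [nat_lit 0x33231,
    nat_lit 0x22001],.r (nat_lit 0x1bec) (nat_lit 13) [nat_lit 0x22001,nat_lit 33],
    .r (nat_lit 0x174d) (nat_lit 4) [nat_lit 0x33231,nat_lit 0x22001],
    .r (nat_lit 0x1b04) (nat_lit 13) [nat_lit 0x22001,nat_lit 33],.r (nat_lit 0x1ac9) (nat_lit 6) [nat_lit 0x53231,
    nat_lit 0x20001,nat_lit 0x22001],.r (nat_lit 0x19ec) (nat_lit 3) [nat_lit 0x53231,nat_lit 0x20001,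
    nat_lit 0x22001],.r (nat_lit 4) (nat_lit 8) [nat_lit 0x33231,nat_lit 0x22001],
    .r (nat_lit 0x174f) (nat_lit 1) [nat_lit 33,nat_lit 0x22001],.r (nat_lit 2) (nat_lit 1) [nat_lit 34,
    nat_lit 0x22001],.r (nat_lit 0x1bdf) (nat_lit 1) [nat_lit 0x22001,nat_lit 0x22321],.c (nat_lit 4) (nat_lit 2),
    .r (nat_lit 0x1750) (nat_lit 3) [nat_lit 33,nat_lit 0x20001],.r (nat_lit 0x1750) (nat_lit 4) [nat_lit 0x22001,
    nat_lit 33],.r (nat_lit 0x1b04) (nat_lit 12) [nat_lit 0x22001,nat_lit 33],.c (nat_lit 5) (nat_lit 2),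
    .r (nat_lit 10) (nat_lit 6) [nat_lit 0x22001,nat_lit 33],.r (nat_lit 0x1bec) (nat_lit 12) [nat_lit 0x22001,
    nat_lit 33],.c (nat_lit 6) (nat_lit 2),.r (nat_lit 0x1a91) (nat_lit 1) [nat_lit 33,nat_lit 0x22001],
    .c (nat_lit 7) (nat_lit 2)],
    .l (nat_lit 13) (nat_lit 0x5a0) (nat_lit 6) (nat_lit 0x27600000276000002a8000002a80000025d0000025d000002ad000002ad0000029b0000029b0000029400000258000001e00000030c) (nat_lit 0x96000000960000006400000064000000af000000af0000005f0000005f0000007100000071000000b400000078000000000000012c)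
    (nat_lit 0xf007804242120e3884442e2171f28bb43841fe13b05283c01e00fd084837620510b876c5661bb0e107f84ec14a109084840c24411a884452625511b88dc3e818215405f03f421212208183f21f91a58c3446e23710c08c04bc13e10288443f221107506b83fc1fe0f603a83ce1e512e84343761c70fc88d43440ea0e707f83f01a20f387944ba1310ed885c61a2550ff07f853025a11e09b03f2229156850c42e2171a58a4c39c1fe1270a6047823c0e488d438a1810dd8bb446e2370d103a847826c11508a83ce22314d867c5663e511b88dc3f01ec11e08f045422a0f3888c53616f0ff07f84601820f2879446a229111888c3c021c05a05a03841c210c07d03ce1e70e487e43ce1e70d207804b012c0a5052827c17c09884343021430b7867c2581680f002d04ec27612f0aa04ba25d0e28ab453629b12c02d06181e0)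
    (nat_lit 0xf01680b405a02d01680b405a02d01680b405a02d016803c01e02d01680b405a02d01680b405a02d01680b405a010907e840c5a02d01680b405a02d01680b405a02d016804242121220818b405a02d01680b405a02d01680b405a00e386ec46a1f90751680b405a02d01680b405a02d0168042220510887e435c0ea2d01680b405a02d01680b405a010b885c52634b0ff07385305a02d01680b405a02d0168042e1db12a8c343fc1fe12d0a60b405a02d01680b405a01d98acc46e2370f607e047823c1151680b405a02d016805621bb11b88dc1d41a213608f045422a2d01680b405a00e107083e82180f3879c3f21c90f3879c3c05a02d016803fc1fe0c108c03ca1e511488d444622310e0780b405a013b09d855025e12e897455a1c514d8a6c1682580f0168029414a0be04f821a1310a1860433e16f0b404b01681e0)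
    (nat_lit 5) (nat_lit 107)
    [[nat_lit 2,nat_lit 18,nat_lit 0x10012,nat_lit 0x1002,nat_lit 0x10002,nat_lit 17,nat_lit 34,nat_lit 0x10022,
    nat_lit 0x1012,nat_lit 33,nat_lit 0x10021,nat_lit 0x100021,nat_lit 273,nat_lit 0x10111,nat_lit 0x1011,
    nat_lit 0x11011,nat_lit 0x10011,nat_lit 0x20011,nat_lit 0x30011,nat_lit 0x100011,nat_lit 0x1000011,
    nat_lit 0x1010011,nat_lit 257,nat_lit 0x10101,nat_lit 0x1001,nat_lit 0x11001,nat_lit 0x101001,nat_lit 0x1001001,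
    nat_lit 0x10001,nat_lit 0x20001,nat_lit 0x30001,nat_lit 0x1010001,nat_lit 0x100001,nat_lit 0x1000001],[nat_lit 32,
    nat_lit 0x100020,nat_lit 0x10020,nat_lit 272,nat_lit 0x10110,nat_lit 0x1010,nat_lit 0x10010,nat_lit 0x20010,
    nat_lit 0x110010,nat_lit 0x100010,nat_lit 0x1000010,nat_lit 0x1010010,nat_lit 0x1100010],[nat_lit 512,
    nat_lit 0x10200,nat_lit 0x1100,nat_lit 0x11100,nat_lit 0x10100,nat_lit 0x20100,nat_lit 0x30100,nat_lit 0x1010100,
    nat_lit 0x100100,nat_lit 0x110100],[nat_lit 0x2000,nat_lit 0x11000,nat_lit 0x21000,nat_lit 0x1001000],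
    [nat_lit 0x20000,nat_lit 0x30000,nat_lit 0x40000,nat_lit 0x50000,nat_lit 0x60000,nat_lit 0x120000,
    nat_lit 0x1020000,nat_lit 0x110000,nat_lit 0x1010000],[nat_lit 0x200000,nat_lit 0x1100000],[nat_lit 0x2000000]]
    [.c (nat_lit 1) (nat_lit 2),.c (nat_lit 0) (nat_lit 0x29483),.c (nat_lit 1) (nat_lit 0x10862),
    .r (nat_lit 0x16a3) (nat_lit 12) [nat_lit 0x329061,nat_lit 0x8220061,nat_lit 0x400001,nat_lit 0xa300041],
    .c (nat_lit 0) (nat_lit 0x29483),.c (nat_lit 0) (nat_lit 0x18c43),.c (nat_lit 0) (nat_lit 0x29483),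
    .c (nat_lit 0) (nat_lit 0x29483),.r (nat_lit 0x174b) (nat_lit 11) [nat_lit 0x10001,nat_lit 0x200001,nat_lit 65],
    .c (nat_lit 0) (nat_lit 0x29483),.c (nat_lit 2) (nat_lit 0x10862),
    .r (nat_lit 0x174b) (nat_lit 3) [nat_lit 0x10001,nat_lit 0x200001,nat_lit 65],
    .r (nat_lit 0) (nat_lit 3) [nat_lit 0x6018041,nat_lit 0x10001],.c (nat_lit 3) (nat_lit 0x10862),
    .r (nat_lit 0x12de) (nat_lit 4) [nat_lit 0x200001,nat_lit 0x10001,nat_lit 0x6300041,nat_lit 0x4210001],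
    .c (nat_lit 4) (nat_lit 0x10862),.c (nat_lit 0) (nat_lit 0x18c43),.c (nat_lit 5) (nat_lit 0x10862),
    .r (nat_lit 40) (nat_lit 4) [nat_lit 0x210c41,nat_lit 0x739861,nat_lit 0x10001],
    .r (nat_lit 0x1b91) (nat_lit 4) [nat_lit 0x318861,nat_lit 0x10001,nat_lit 0x200001,nat_lit 0x4000001],
    .r (nat_lit 0x174b) (nat_lit 11) [nat_lit 0x10001,nat_lit 0x200001,nat_lit 0x4200041],
    .c (nat_lit 3) (nat_lit 0x18043),.c (nat_lit 0) (nat_lit 0x210803),
    .r (nat_lit 0x1b04) (nat_lit 5) [nat_lit 0x6018041,nat_lit 0x10001],.c (nat_lit 0) (nat_lit 0x210803),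
    .r (nat_lit 32) (nat_lit 2) [nat_lit 0x18861,nat_lit 0x10001],.c (nat_lit 0) (nat_lit 0x18002),
    .c (nat_lit 3) (nat_lit 0x211003),.c (nat_lit 0) (nat_lit 0x18c43),.c (nat_lit 0) (nat_lit 0x29483),
    .r (nat_lit 0x1006) (nat_lit 4) [nat_lit 0x20001,nat_lit 0xa759861,nat_lit 0x210c41,nat_lit 0x8a51c41],
    .r (nat_lit 0x1b4a) (nat_lit 13) [nat_lit 0x318861,nat_lit 0x10001,nat_lit 0x200001],
    .r (nat_lit 0x1174) (nat_lit 4) [nat_lit 0x20001,nat_lit 0x6018041,nat_lit 0x6539061,nat_lit 0x4410061],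
    .r (nat_lit 0x16a3) (nat_lit 12) [nat_lit 0x6529061,nat_lit 0x4020061,nat_lit 0x400001,nat_lit 0x6000041],
    .c (nat_lit 2) (nat_lit 2),.r (nat_lit 0x18e8) (nat_lit 4) [nat_lit 65,nat_lit 0x10001,nat_lit 0x200001,
    nat_lit 0x4000001],.c (nat_lit 0) (nat_lit 0x29483),.r (nat_lit 0x1a3c) (nat_lit 13) [nat_lit 0x18041,
    nat_lit 0x10001,nat_lit 0x200001],.r (nat_lit 0x131c) (nat_lit 12) [nat_lit 0x6328841,nat_lit 0x4220c41,
    nat_lit 0x400001,nat_lit 0x6300861],.r (nat_lit 0x1bf0) (nat_lit 4) [nat_lit 0x300041,nat_lit 0x10001,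
    nat_lit 0x200001,nat_lit 0x4000001],.c (nat_lit 0) (nat_lit 0x18c43),.c (nat_lit 0) (nat_lit 0x29483),
    .c (nat_lit 3) (nat_lit 0x211062),.r (nat_lit 0) (nat_lit 3) [nat_lit 65,nat_lit 0x10001],
    .r (nat_lit 0x12de) (nat_lit 4) [nat_lit 0x200001,nat_lit 0x10001,nat_lit 65,nat_lit 0x4210001],
    .c (nat_lit 4) (nat_lit 0x220862),.c (nat_lit 5) (nat_lit 0x318c43),.c (nat_lit 3) (nat_lit 2),
    .r (nat_lit 0x1b4f) (nat_lit 4) [nat_lit 0x10001,nat_lit 0x200001,nat_lit 0x28041,nat_lit 0x4000001],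
    .c (nat_lit 0) (nat_lit 0x210803),.r (nat_lit 0x1a3d) (nat_lit 0) [nat_lit 0x200001,nat_lit 0x10001,
    nat_lit 0x318041,nat_lit 0x4000001],.r (nat_lit 0x196a) (nat_lit 8) [nat_lit 0x200001,nat_lit 0x210c41,
    nat_lit 0x318801],.r (nat_lit 0x1719) (nat_lit 4) [nat_lit 0xa519061,nat_lit 0x6328841,nat_lit 0x600001,
    nat_lit 0x8441441],.r (nat_lit 0x1007) (nat_lit 4) [nat_lit 0xed29861,nat_lit 0x800001,nat_lit 0x6528841,
    nat_lit 0xcc61c41],.c (nat_lit 0) (nat_lit 0xc02),.r (nat_lit 0) (nat_lit 4) [nat_lit 65,nat_lit 0x210061],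
    .r (nat_lit 0x182c) (nat_lit 4) [nat_lit 0x10001,nat_lit 0x200001,nat_lit 0x6300861,nat_lit 0x18041],
    .c (nat_lit 4) (nat_lit 2),.r (nat_lit 0x1b04) (nat_lit 7) [nat_lit 65,nat_lit 0x10001],
    .r (nat_lit 0x17ad) (nat_lit 4) [nat_lit 0x10001,nat_lit 0x200001,nat_lit 0x300041,nat_lit 0x4000001],
    .r (nat_lit 0) (nat_lit 4) [nat_lit 0x210061,nat_lit 65],.c (nat_lit 5) (nat_lit 2),
    .r (nat_lit 45) (nat_lit 4) [nat_lit 65,nat_lit 0x739861,nat_lit 0x10001],.r (nat_lit 40) (nat_lit 4) [nat_lit 66,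
    nat_lit 0x94a062,nat_lit 0x10001],.r (nat_lit 0x1008) (nat_lit 4) [nat_lit 0x50001,nat_lit 0x16baa861,nat_lit 65,
    nat_lit 0x154a2c41],.r (nat_lit 75) (nat_lit 4) [nat_lit 66,nat_lit 0xd6b062,nat_lit 0x10001],
    .r (nat_lit 0x1009) (nat_lit 4) [nat_lit 0xa729061,nat_lit 0x400001,nat_lit 0x300041,nat_lit 0x8641441],
    .r (nat_lit 0x174b) (nat_lit 3) [nat_lit 0x10001,nat_lit 0x200001,nat_lit 0x6529061],
    .r (nat_lit 0x1b04) (nat_lit 5) [nat_lit 65,nat_lit 0x10001],.r (nat_lit 32) (nat_lit 2) [nat_lit 0x6318861,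
    nat_lit 0x10001],.c (nat_lit 6) (nat_lit 2),.c (nat_lit 0) (nat_lit 0x200002),.c (nat_lit 7) (nat_lit 2)]]

/-- nodes -/
noncomputable def rD7k_22_17 : List RJ :=
  [.l (nat_lit 15) (nat_lit 0x1680) (nat_lit 4) (nat_lit 0x78e0000078e000009610000096100000925000009250000089200000892000008ee000008ee000009b2000009b200000a1400000a14) (nat_lit 0x28600000286000000b3000000b3000000ef000000ef0000018200000182000001260000012600000062000000620000000000000000)
    (nat_lit 0x10281c20338867f0d3e21f4254060c09201d302ce05400f1c1e383b208140cf21b6c3d587cd0b38181024407440d5016903f5078e0db619fc3c0065210f4235038186d3138622ac47f8adf0caa279433c8671115c1e004d408720fbe200432a89d9174236043c184870f9a21f443908d4102820d8302866d06fa1ffc6ce8aa9131e1a0c3d5869f135021e833708140f461e8c29b85bb17ae238c49289150c08183040086d30f4619b44aa08d80e981db04200af8112415f82ce04a80fbe1c0c3d1860510e02550466076c0af020c03d708ee0e881d304ec88ab0b761ffc3b6076c0f9019a0418072c14a42e9824404900caa270c29b837d11981d3042807c81288223056d0c2e0b4815006c08adf11c62aa44180af811181cb030808c8171423e8354059c174223fc5eb8d9d0af021004a2083012a018404d909b20f1c1e3824389e5122a1a0c477057e185c2e984d908fa174828503f5078e0f061954492898f0f5c224856d0a5213642e2840a0ba4)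
    (nat_lit 0x10285a00b4016802d005a00b4016802d005a00b4016802d005a0038408142d005a00b4016802d005a00b4016802d005a00b4016800ce219e43c016802d005a00b4016802d005a00b4016802d005a0033f86db0ca41e00b4016802d005a00b4016802d005a00b4016800d3e1eac43d09a810285a00b4016802d005a00b4016802d005a0043e87cd11a821c841b08142d005a00b4016802d005a00b4016800950167038187df0c0a1e8c4aa16802d005a00b4016802d005a0030606040da6200433687a311b02550b4016802d005a00b401680092012204e1865506fa14dc3a608cc0f905a00b4016802d005a003a60744115627643ff85bb0ed81db033407c82d005a00b4016800b381aa047f8ba1175a2f5c42005781060251030816802d005a002a005a415be2ee455488e315f020c0396088c11901840b4016800f1c1fa832a8783131e249444907ae14a42b685c509b215b85a003c7078e13ca121c34189150afc23b85d30bba11f426c850a0adc)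
    (nat_lit 4) (nat_lit 43)
    [[nat_lit 2,nat_lit 17,nat_lit 0x10101,nat_lit 0x1000101,nat_lit 0x1001,nat_lit 0x101001,nat_lit 0x1001001,
    nat_lit 0x11001,nat_lit 0x10001,nat_lit 0x100001,nat_lit 0x200002,nat_lit 0x200001,nat_lit 0x1100001,
    nat_lit 0x1000001,nat_lit 0x1010001],[nat_lit 32,nat_lit 48,nat_lit 0x1000020,nat_lit 272,nat_lit 0x10110,
    nat_lit 0x1000110,nat_lit 0x1010,nat_lit 0x1001010,nat_lit 0x1110,nat_lit 0x11010,nat_lit 0x1100010,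
    nat_lit 0x1000010,nat_lit 0x2001010,nat_lit 0x1010010,nat_lit 0x2000010],[nat_lit 512,nat_lit 0x10200,
    nat_lit 0x1000200,nat_lit 0x1100,nat_lit 0x11100,nat_lit 0x1001100,nat_lit 0x10100,nat_lit 0x20200,
    nat_lit 0x1010200,nat_lit 0x20100,nat_lit 0x110100,nat_lit 0x1010100,nat_lit 0x100100,nat_lit 0x101100,
    nat_lit 0x1100100,nat_lit 0x1000100,nat_lit 0x1011100,nat_lit 0x2000100],[nat_lit 0x2000,nat_lit 0x1002000,
    nat_lit 0x11000,nat_lit 0x21000,nat_lit 0x1011000,nat_lit 0x101000,nat_lit 0x1101000,nat_lit 0x201000,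
    nat_lit 0x1001000,nat_lit 0x2002000,nat_lit 0x2001000],[nat_lit 0x20000,nat_lit 0x110000,nat_lit 0x1010000,
    nat_lit 0x1110000],[nat_lit 0x200000,nat_lit 0x1200000,nat_lit 0x1100000,nat_lit 0x2100000],[nat_lit 0x2000000]]
    [.c (nat_lit 1) (nat_lit 2),.c (nat_lit 0) (nat_lit 0x22203),.c (nat_lit 0) (nat_lit 0x2032),
    .c (nat_lit 0) (nat_lit 0x2232),.c (nat_lit 0) (nat_lit 0x22203),
    .r (nat_lit 0x1750) (nat_lit 6) [nat_lit 0x330021,nat_lit 0x33201],.r (nat_lit 32) (nat_lit 6) [nat_lit 0x3231,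
    nat_lit 0x2001],.c (nat_lit 2) (nat_lit 0x22403),.r (nat_lit 0x1b04) (nat_lit 9) [nat_lit 0x30231,nat_lit 33],
    .r (nat_lit 0x1c15) (nat_lit 7) [nat_lit 0x2001,nat_lit 33,nat_lit 0x220031],
    .r (nat_lit 0x1ba6) (nat_lit 5) [nat_lit 0x44522,nat_lit 0x33201,nat_lit 0x2001],
    .r (nat_lit 0x178d) (nat_lit 2) [nat_lit 33,nat_lit 0x2001,nat_lit 0x33201,nat_lit 0x222001],
    .r (nat_lit 0x174e) (nat_lit 13) [nat_lit 0x3231,nat_lit 0x2001],.r (nat_lit 0x1b04) (nat_lit 4) [nat_lit 33,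
    nat_lit 0x2001],.r (nat_lit 0xffb) (nat_lit 13) [nat_lit 0x220021,nat_lit 0x40001,nat_lit 0x330021,
    nat_lit 0x375431],.c (nat_lit 2) (nat_lit 2),.r (nat_lit 0xff9) (nat_lit 4) [nat_lit 0x60001,nat_lit 0x6031,
    nat_lit 0x7dd621,nat_lit 33],.r (nat_lit 0x1634) (nat_lit 4) [nat_lit 0x559421,nat_lit 0x332231,nat_lit 0x4a8531,
    nat_lit 0x224321],.r (nat_lit 0x1b04) (nat_lit 9) [nat_lit 33,nat_lit 0x30231],.c (nat_lit 0) (nat_lit 0x2032),
    .r (nat_lit 0x1635) (nat_lit 4) [nat_lit 0x40001,nat_lit 0x350231,nat_lit 0x355221,nat_lit 0x244321],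
    .c (nat_lit 0) (nat_lit 0x22203),.r (nat_lit 8) (nat_lit 8) [nat_lit 0x22031,nat_lit 0x33201],
    .c (nat_lit 1) (nat_lit 0x20023),.c (nat_lit 0) (nat_lit 770),.r (nat_lit 0x1972) (nat_lit 0) [nat_lit 0x33201,
    nat_lit 0x2031,nat_lit 0x20001],.r (nat_lit 0x1b9f) (nat_lit 0) [nat_lit 0x2031,nat_lit 0x33201,nat_lit 33],
    .r (nat_lit 0x1bcb) (nat_lit 5) [nat_lit 0x355221,nat_lit 0x33201,nat_lit 0x2001],.c (nat_lit 0) (nat_lit 770),
    .r (nat_lit 0x1636) (nat_lit 4) [nat_lit 0x355221,nat_lit 0x284331,nat_lit 0x595401,nat_lit 0x488501],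
    .c (nat_lit 3) (nat_lit 2),.c (nat_lit 0) (nat_lit 0x24232),.r (nat_lit 0xdf4) (nat_lit 13) [nat_lit 0x55431,
    nat_lit 0x40001,nat_lit 0x595431,nat_lit 33],.r (nat_lit 0x174f) (nat_lit 13) [nat_lit 0x2001,nat_lit 33],
    .c (nat_lit 0) (nat_lit 0x24232),.r (nat_lit 0x1ba6) (nat_lit 5) [nat_lit 0x20031,nat_lit 0x33201,nat_lit 0x2001],
    .c (nat_lit 0) (nat_lit 0x24232),.c (nat_lit 0) (nat_lit 0x48452),.c (nat_lit 0) (nat_lit 0x48652),
    .c (nat_lit 0) (nat_lit 0x46232),.c (nat_lit 7) (nat_lit 0x33323),.c (nat_lit 6) (nat_lit 0x33323),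
    .r (nat_lit 0) (nat_lit 1) [nat_lit 0x2001,nat_lit 33],.r (nat_lit 0x19b4) (nat_lit 4) [nat_lit 0x3231,
    nat_lit 0x30021,nat_lit 0x2001],.c (nat_lit 2) (nat_lit 0x22432),.r (nat_lit 8) (nat_lit 8) [nat_lit 0x333231,
    nat_lit 0x33201],.c (nat_lit 0) (nat_lit 0x24232),.r (nat_lit 0x1bcb) (nat_lit 5) [nat_lit 33,nat_lit 0x33201,
    nat_lit 0x2001],.c (nat_lit 4) (nat_lit 2),.c (nat_lit 0) (nat_lit 0x4003),
    .r (nat_lit 0x1bec) (nat_lit 7) [nat_lit 33,nat_lit 0x33201],.r (nat_lit 0x1637) (nat_lit 0) [nat_lit 0x535431,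
    nat_lit 0x77601,nat_lit 0x248331,nat_lit 0x484521],.r (nat_lit 0x1b49) (nat_lit 5) [nat_lit 0x20031,
    nat_lit 0x33201,nat_lit 0x2001],.c (nat_lit 0) (nat_lit 0x2003),.c (nat_lit 0) (nat_lit 0x2003),
    .c (nat_lit 0) (nat_lit 0x4003),.c (nat_lit 0) (nat_lit 0x2003),.c (nat_lit 0) (nat_lit 0x4003),
    .c (nat_lit 0) (nat_lit 0x4003),.c (nat_lit 5) (nat_lit 2),.r (nat_lit 0x1750) (nat_lit 6) [nat_lit 33,
    nat_lit 0x33201],.r (nat_lit 32) (nat_lit 6) [nat_lit 0x333231,nat_lit 0x2001],.c (nat_lit 1) (nat_lit 0x20002),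
    .c (nat_lit 6) (nat_lit 2),.c (nat_lit 0) (nat_lit 0x4003),.c (nat_lit 0) (nat_lit 0x2003),
    .c (nat_lit 0) (nat_lit 0x4003),.c (nat_lit 7) (nat_lit 2)]]

/-- nodes -/
noncomputable def rD7k_22_18 : List RJ :=
  [.l (nat_lit 13) (nat_lit 0x6f8) (nat_lit 6) (nat_lit 0x2ec000002ec00000356000002820000025f00000361000002f8000002f80000036800000368000002a8000002a8000002e0000002e0) (nat_lit 0x7c0000007c000000e600000012000000070000010900000070000000700000000000000000000000c0000000c00000008800000088)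
    (nat_lit 0x13809c040c2da172878c4183ec17609f045815413209904602701030b6859a1e318613b05d82d412208b04c826416d0b684e038406f89345fc2fe1ab0b1852c2961670ad840c2060ce09c04d61790cd07686842fa0e104083f41fa0f1878c2f224d14805582ee1ff18f8b5c33e0df0eb875c59a2e5135837c7042901908bc457231916c8a842d23112760fb03b42fe17887fc5a026017c0b204002e013808e061820c0cd0bf86421771440b405f02f80ec0b005c01b816a09f05f42c618c8b5c5f02c81700da06c02a81a80d005d82ec1a10d5857231f17c0be06a02e01980aa07703a81160550204296150837c5802e01540aa0240200110066048822c0e10a585b219f0ec08006603600f4048044022013209903f42b6188875c3702381d40d0044019812c09604c82640fd0b382d21d717009c077035011008804b0258)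
    (nat_lit 0x1381be0df06f837c1be0df06f837c1be0df06f837c1be04e027037c1be0df06f837c1be0df06f837c1be0df06f810308184e06f837c1be0df06f837c1be0df06f837c1be05b42da1c209c0df06f837c1be0df06f837c1be0df06f81728b341be26b12c1be0df06f837c1be0df06f837c1be03c61e311a85e42ac25837c1be0df06f837c1be0df06f81060c304ac19a0bb89e45a06f837c1be0df06f837c1be07d849c16f07683fe2b91300b40df06f837c1be0df06f81760bb06ac34218f8ae45f02f81701be0df06f837c1be04f82d41630be85ae3191640be06d02e037c1be0df06f811609104fc1c20cf8a844001d81b00cc02406f837c1be02a822c0df04081be1e11700b005502a81000480df06f8132099056c1fa0eb85a44e02e01a80ee044022012c1be04c826415b07e83ae2d911c06e06803a80cc08804b0258)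
    (nat_lit 5) (nat_lit 213)
    [[nat_lit 2,nat_lit 18,nat_lit 0x1002,nat_lit 0x10002,nat_lit 0x10012,nat_lit 17,nat_lit 33,nat_lit 49,
    nat_lit 0x1011,nat_lit 0x10011,nat_lit 0x110011,nat_lit 0x100011,nat_lit 0x1000011,nat_lit 0x1001,
    nat_lit 0x111001,nat_lit 0x101001,nat_lit 0x1001001,nat_lit 0x10001,nat_lit 0x11001,nat_lit 0x110001,
    nat_lit 0x20002,nat_lit 0x10021,nat_lit 0x10031,nat_lit 0x11011,nat_lit 0x120011,nat_lit 0x1010011,
    nat_lit 0x20001,nat_lit 0x120001,nat_lit 0x1010001,nat_lit 0x100001,nat_lit 0x1000001],[nat_lit 32,nat_lit 48,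
    nat_lit 64,nat_lit 80,nat_lit 96,nat_lit 0x110040,nat_lit 0x10030,nat_lit 0x110030,nat_lit 0x100030,
    nat_lit 0x1000030,nat_lit 0x1020,nat_lit 0x111020,nat_lit 0x11020,nat_lit 0x10020,nat_lit 0x110020,
    nat_lit 0x120020,nat_lit 0x1010020,nat_lit 0x100020,nat_lit 0x1000020,nat_lit 0x2000020,nat_lit 272,
    nat_lit 0x1010,nat_lit 0x11010,nat_lit 0x111010,nat_lit 0x101010,nat_lit 0x1001010,nat_lit 0x10010,
    nat_lit 0x20010,nat_lit 0x120010,nat_lit 0x110010,nat_lit 0x220010,nat_lit 0x210010,nat_lit 0x1110010,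
    nat_lit 0x1010010,nat_lit 0x100010,nat_lit 0x200010,nat_lit 0x1100010,nat_lit 0x1000010,nat_lit 0x2000010],
    [nat_lit 512,nat_lit 0x1100,nat_lit 0x10100,nat_lit 0x100100,nat_lit 0x1000100],[nat_lit 0x2000,nat_lit 0x11000,
    nat_lit 0x121000,nat_lit 0x111000,nat_lit 0x112000,nat_lit 0x221000,nat_lit 0x211000,nat_lit 0x101000,
    nat_lit 0x1011000,nat_lit 0x1111000,nat_lit 0x1101000],[nat_lit 0x20000,nat_lit 0x120000,nat_lit 0x110000,
    nat_lit 0x220000,nat_lit 0x210000,nat_lit 0x1110000,nat_lit 0x1010000],[nat_lit 0x200000,nat_lit 0x1100000],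
    [nat_lit 0x2000000]]
    [.c (nat_lit 1) (nat_lit 2),.c (nat_lit 1) (nat_lit 0x318002),.r (nat_lit 0x1b8f) (nat_lit 9) [nat_lit 0x8400061,
    nat_lit 0x6018801,nat_lit 0x10001],.r (nat_lit 0x174b) (nat_lit 10) [nat_lit 0x10001,nat_lit 0x6018801,
    nat_lit 0x300041],.r (nat_lit 32) (nat_lit 1) [nat_lit 0x6300041,nat_lit 0x10001],
    .c (nat_lit 0) (nat_lit 0x210003),.c (nat_lit 2) (nat_lit 0x318002),
    .r (nat_lit 0x1b04) (nat_lit 8) [nat_lit 0xe518841,nat_lit 0x10001],.c (nat_lit 4) (nat_lit 0x318002),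
    .c (nat_lit 5) (nat_lit 0x318002),.c (nat_lit 1) (nat_lit 0x300002),.c (nat_lit 6) (nat_lit 0x318002),
    .c (nat_lit 4) (nat_lit 0x210803),.r (nat_lit 0x174e) (nat_lit 1) [nat_lit 0x4200001,nat_lit 0x6000861],
    .r (nat_lit 0x1b8f) (nat_lit 9) [nat_lit 0x8200061,nat_lit 0x6018801,nat_lit 0x10001],
    .r (nat_lit 0xeed) (nat_lit 9) [nat_lit 0x10001,nat_lit 0x6018801,nat_lit 0x6318801,nat_lit 65],
    .c (nat_lit 2) (nat_lit 0x210803),.c (nat_lit 0) (nat_lit 0x410003),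
    .r (nat_lit 0x1c05) (nat_lit 10) [nat_lit 0x10001,nat_lit 0x6018861,nat_lit 0x4200061,nat_lit 65],
    .c (nat_lit 1) (nat_lit 0x10002),.r (nat_lit 32) (nat_lit 1) [nat_lit 66,nat_lit 0x10001],
    .c (nat_lit 0) (nat_lit 0x410003),.r (nat_lit 0x1b4d) (nat_lit 5) [nat_lit 0x10410c61,nat_lit 0x10001,
    nat_lit 0x6018801],.r (nat_lit 0x1b4a) (nat_lit 0) [nat_lit 0x6318041,nat_lit 0x10001,nat_lit 0x6018801],
    .r (nat_lit 32) (nat_lit 1) [nat_lit 0x6000041,nat_lit 0x10001],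
    .r (nat_lit 0x184b) (nat_lit 11) [nat_lit 0x6300041,nat_lit 0x4200001,nat_lit 0x10001,nat_lit 0x6018801],
    .r (nat_lit 0x1846) (nat_lit 6) [nat_lit 0x8210c01,nat_lit 0x4010c41,nat_lit 0x10001,nat_lit 0x6018801],
    .r (nat_lit 0x174b) (nat_lit 10) [nat_lit 0x10001,nat_lit 0x6018801,nat_lit 65],
    .r (nat_lit 0x1c15) (nat_lit 6) [nat_lit 0x10001,nat_lit 0x6018801,nat_lit 0x4000c41],
    .c (nat_lit 0) (nat_lit 0x410003),.r (nat_lit 10) (nat_lit 1) [nat_lit 0x6000861,nat_lit 65],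
    .c (nat_lit 2) (nat_lit 2),.r (nat_lit 45) (nat_lit 6) [nat_lit 65,nat_lit 0xc000061,nat_lit 0x10001],
    .r (nat_lit 0x1b04) (nat_lit 8) [nat_lit 0x12529042,nat_lit 0x10001],
    .r (nat_lit 0x1654) (nat_lit 9) [nat_lit 0x2ab5a841,nat_lit 0x50001,nat_lit 0x14000061,nat_lit 0x14a00061],
    .r (nat_lit 75) (nat_lit 6) [nat_lit 66,nat_lit 0x18000062,nat_lit 0x10001],
    .r (nat_lit 75) (nat_lit 6) [nat_lit 0x6000041,nat_lit 0x10000061,nat_lit 0x10001],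
    .r (nat_lit 0x1655) (nat_lit 9) [nat_lit 0x1a739841,nat_lit 0x30001,nat_lit 0xc000061,nat_lit 0xc600061],
    .r (nat_lit 0x1b04) (nat_lit 8) [nat_lit 0xe318841,nat_lit 0x10001],
    .r (nat_lit 0x1656) (nat_lit 10) [nat_lit 0x30001,nat_lit 0xc000061,nat_lit 0xc600061,nat_lit 65],
    .r (nat_lit 0x1799) (nat_lit 0) [nat_lit 0x10001,nat_lit 0xc600061,nat_lit 65,nat_lit 0x1a739841],
    .r (nat_lit 0x1b8f) (nat_lit 13) [nat_lit 0x18041,nat_lit 0x6018801,nat_lit 0x10001],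
    .r (nat_lit 10) (nat_lit 1) [nat_lit 0xe318841,nat_lit 0x8210061],.r (nat_lit 0xe6b) (nat_lit 5) [nat_lit 0x20001,
    nat_lit 0x12539041,nat_lit 0x18041,nat_lit 0x8410061],.c (nat_lit 0) (nat_lit 0x410003),
    .c (nat_lit 2) (nat_lit 0x300002),.c (nat_lit 0) (nat_lit 0x400003),
    .r (nat_lit 0xeed) (nat_lit 9) [nat_lit 0x10001,nat_lit 0x6018801,nat_lit 0x6318801,nat_lit 0x8210061],
    .c (nat_lit 0) (nat_lit 0x400003),.r (nat_lit 0x1b8f) (nat_lit 9) [nat_lit 0x18041,nat_lit 0x6018801,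
    nat_lit 0x10001],.r (nat_lit 0x174e) (nat_lit 1) [nat_lit 0x4200001,nat_lit 0x12529042],
    .r (nat_lit 0x1b04) (nat_lit 8) [nat_lit 65,nat_lit 0x10001],.r (nat_lit 0x196a) (nat_lit 7) [nat_lit 0x6018801,
    nat_lit 0x6000041,nat_lit 0x4000001],.r (nat_lit 0x1b4a) (nat_lit 5) [nat_lit 0x4000061,nat_lit 0x10001,
    nat_lit 0x6018801],.c (nat_lit 4) (nat_lit 0x300002),.r (nat_lit 0x184b) (nat_lit 11) [nat_lit 0x4010061,
    nat_lit 0x4200001,nat_lit 0x10001,nat_lit 0x6018801],.c (nat_lit 1) (nat_lit 0x210803),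
    .c (nat_lit 0) (nat_lit 0x200003),.c (nat_lit 0) (nat_lit 0x400003),.c (nat_lit 5) (nat_lit 0x300002),
    .c (nat_lit 0) (nat_lit 0x200003),.c (nat_lit 1) (nat_lit 0x310002),.c (nat_lit 6) (nat_lit 0x300002),
    .c (nat_lit 4) (nat_lit 0x200803),.r (nat_lit 0x17ae) (nat_lit 4) [nat_lit 0x4000061,nat_lit 0x10001,
    nat_lit 0x4200061,nat_lit 65],.c (nat_lit 0) (nat_lit 0x200003),.c (nat_lit 0) (nat_lit 0x400003),
    .r (nat_lit 0x1b4a) (nat_lit 0) [nat_lit 0x4000061,nat_lit 0x10001,nat_lit 0x6018801],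
    .r (nat_lit 0x196a) (nat_lit 1) [nat_lit 0x6018801,nat_lit 0x6000041,nat_lit 0x4000001],
    .r (nat_lit 0x1847) (nat_lit 1) [nat_lit 0x200001,nat_lit 0x4000001,nat_lit 0x6000041,nat_lit 0x6318801],
    .c (nat_lit 3) (nat_lit 2),.r (nat_lit 10) (nat_lit 1) [nat_lit 65,nat_lit 0x6000861],
    .c (nat_lit 0) (nat_lit 0x318c43),.c (nat_lit 0) (nat_lit 0x318c43),
    .r (nat_lit 0x174e) (nat_lit 1) [nat_lit 0x4200001,nat_lit 65],.c (nat_lit 4) (nat_lit 2),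
    .r (nat_lit 4) (nat_lit 10) [nat_lit 0x4200001,nat_lit 65],.r (nat_lit 0x1c05) (nat_lit 10) [nat_lit 0x10001,
    nat_lit 0x6318861,nat_lit 0x4000061,nat_lit 0x200041],.r (nat_lit 0x174e) (nat_lit 1) [nat_lit 0x4200001,
    nat_lit 0x6300861],.r (nat_lit 0x191e) (nat_lit 1) [nat_lit 0x200001,nat_lit 0x4000001,nat_lit 0x20061,
    nat_lit 0x6318801],.r (nat_lit 0x1b8f) (nat_lit 9) [nat_lit 0x8000061,nat_lit 0x6018801,nat_lit 0x10001],
    .r (nat_lit 0xeed) (nat_lit 9) [nat_lit 0x10001,nat_lit 0x6018801,nat_lit 0x6318801,nat_lit 0x200041],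
    .r (nat_lit 8) (nat_lit 5) [nat_lit 0x4200001,nat_lit 65],.c (nat_lit 0) (nat_lit 0xc02),
    .c (nat_lit 2) (nat_lit 0x200803),.c (nat_lit 0) (nat_lit 0xc02),.c (nat_lit 5) (nat_lit 2),
    .c (nat_lit 0) (nat_lit 0x400003),.c (nat_lit 0) (nat_lit 0x18003),.c (nat_lit 1) (nat_lit 0x20002),
    .c (nat_lit 0) (nat_lit 0x400003),.r (nat_lit 10) (nat_lit 1) [nat_lit 0x6300861,nat_lit 0x200041],
    .r (nat_lit 0x1c15) (nat_lit 11) [nat_lit 0x10001,nat_lit 0x6018801,nat_lit 0x300061],.c (nat_lit 6) (nat_lit 2),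
    .r (nat_lit 0x1bec) (nat_lit 1) [nat_lit 65,nat_lit 0x6018801],.c (nat_lit 7) (nat_lit 2)]]

/-- nodes -/
noncomputable def rD7k_22_19 : List RJ :=
  [.l (nat_lit 14) (nat_lit 0xff0) (nat_lit 7) (nat_lit 0x802000008020000090a00000738000008bc000008bc0000079a0000079a00000756000007560000055200000576000005ce000006e2) (nat_lit 0x10800000108000001d2000000000000004e0000004e0000017000000170000001b4000001b400000394000003b8000002280000033c)
    (nat_lit 0x15406fa26108021478ac610586921cf864e11b838217684c61ae0550261080214a8ad20cb869226888b211b829a17684c62008802106894c22f056814d8a242418aba15d81fe22305ce2610984159841a19b86ea1730aba09e042c16f838007f81fe2b48ac61ba85680df086e22907c81c207041c988100d0036614a851e19b88bc21b837c20a074c23b08e80ab85041a505b81a486922ae8a241d307c8112862a179850a0f381fe20206d80cb8416173053620a08a4183044a1a705e60cd041e15c848822c864e10b0aba23a0704179850a15985c00e602e81ea84ec268873e09e090623b07081a705e613285660f0839e17d83380a683820e001fe141081010781fe0e782e80a8027208e821611b846e16f85760ab87260cd03ce0f0839807f82a00d3823a13184c607f85ce16e036612206d80ce04ec08e82160e9827617685da07f888c1a5034015c880817d87aa0d3823a12e83a6)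
    (nat_lit 0x1540ff03fc0ff03fc0ff03fc0ff03fc0ff03fc0ff03fc0ff01be85503fc0ff03fc0ff03fc0ff03fc0ff03fc0ff03fc0ff026109841068ff03fc0ff03fc0ff03fc0ff03fc0ff03fc0ff02008802253041a3fc0ff03fc0ff03fc0ff03fc0ff03fc0ff0147852a22f066e0df0ff03fc0ff03fc0ff03fc0ff03fc0ff02b18ad215a06ea21b837c3fc0ff03fc0ff03fc0ff03fc0ff0105832e14d85cc22908281128ff03fc0ff03fc0ff03fc0ff01a486922890aba1f2074c18a844a3fc0ff03fc0ff03fc0ff01cf891424182781c208ec179869c1598ff03fc0ff03fc0ff01938838290042c1c108e814285e617005663fc0ff03fc0ff011b846e15d85be1c982ae0f383340e603c20a80ff03fc0ff00e0829a07f8380204050407f841e0ba039e09c82a03fc0ff017685da15301fe0d004e8153056e17485f608e834e0e98ff013184c610e01fe0d984c410e048813b0338085823a09d83a6)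
    (nat_lit 7) (nat_lit 0x4e5)
    [[nat_lit 2,nat_lit 3,nat_lit 4,nat_lit 20,nat_lit 19,nat_lit 35,nat_lit 0x100023,nat_lit 0x10013,
    nat_lit 0x100013,nat_lit 0x100003,nat_lit 18,nat_lit 51,nat_lit 34,nat_lit 50,nat_lit 66,nat_lit 0x100032,
    nat_lit 290,nat_lit 0x1032,nat_lit 0x10022,nat_lit 0x1022,nat_lit 0x100022,nat_lit 0x1000022,nat_lit 274,
    nat_lit 0x1012,nat_lit 0x10012,nat_lit 0x20012,nat_lit 0x100012,nat_lit 0x1000012,nat_lit 0x200012,nat_lit 258,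
    nat_lit 0x10002,nat_lit 0x10112,nat_lit 0x110012,nat_lit 0x100002,nat_lit 0x100122,nat_lit 0x200022,
    nat_lit 0x100112,nat_lit 0x101022,nat_lit 0x101012,nat_lit 0x200002,nat_lit 0x1000002,nat_lit 17,nat_lit 67,
    nat_lit 0x100033,nat_lit 0x100042,nat_lit 0x10032,nat_lit 82,nat_lit 306,nat_lit 0x10023,nat_lit 0x110022,
    nat_lit 0x200032,nat_lit 0x101032,nat_lit 33,nat_lit 49,nat_lit 65,nat_lit 81,nat_lit 321,nat_lit 0x100041,
    nat_lit 305,nat_lit 0x1031,nat_lit 0x1041,nat_lit 0x10031,nat_lit 0x100031,nat_lit 0x100051,nat_lit 0x10041,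
    nat_lit 0x200031,nat_lit 0x1000031,nat_lit 0x1000041,nat_lit 289,nat_lit 0x100131,nat_lit 0x1021,nat_lit 0x101031,
    nat_lit 0x101021,nat_lit 0x10021,nat_lit 0x20021,nat_lit 0x110021,nat_lit 0x100021,nat_lit 0x1000021,nat_lit 97,
    nat_lit 545,nat_lit 0x100121,nat_lit 0x100141,nat_lit 0x1131,nat_lit 0x1121,nat_lit 0x2021,nat_lit 0x2031,
    nat_lit 0x1001021,nat_lit 0x1001031,nat_lit 0x200041,nat_lit 0x110031,nat_lit 0x200021,nat_lit 0x1100031,
    nat_lit 0x1010021,nat_lit 273,nat_lit 0x10121,nat_lit 529,nat_lit 0x100111,nat_lit 0x1111,nat_lit 0x1011,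
    nat_lit 0x2011,nat_lit 0x101011,nat_lit 0x1001011,nat_lit 0x11021,nat_lit 0x11022,nat_lit 0x10011,nat_lit 0x10111,
    nat_lit 0x20011,nat_lit 0x30011,nat_lit 0x120011,nat_lit 0x110011,nat_lit 0x100011,nat_lit 0x200011,
    nat_lit 0x1000011,nat_lit 0x1100021,nat_lit 0x1010011,nat_lit 0x200121,nat_lit 0x300011,nat_lit 0x1000111,
    nat_lit 0x1100011,nat_lit 257,nat_lit 513,nat_lit 0x1101,nat_lit 0x1001,nat_lit 0x101001,nat_lit 0x11011,
    nat_lit 0x11012,nat_lit 0x10001,nat_lit 0x11031,nat_lit 0x110121,nat_lit 0x111021,nat_lit 0x111011,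
    nat_lit 0x1011011,nat_lit 0x110111,nat_lit 0x210011,nat_lit 0x10101,nat_lit 0x11001,nat_lit 0x20001,
    nat_lit 0x20002,nat_lit 0x20111,nat_lit 0x120012,nat_lit 0x110001,nat_lit 0x1010001,nat_lit 0x100001,
    nat_lit 0x200001,nat_lit 0x101041,nat_lit 0x200131,nat_lit 0x201031,nat_lit 0x201021,nat_lit 0x1101021,
    nat_lit 0x300021,nat_lit 0x200111,nat_lit 0x201011,nat_lit 0x1101011,nat_lit 0x101111,nat_lit 0x102021,
    nat_lit 0x101101,nat_lit 0x102011,nat_lit 0x1100001,nat_lit 0x1000001,nat_lit 0x1001001,nat_lit 0x1000101],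
    [nat_lit 32,nat_lit 48,nat_lit 64,nat_lit 80,nat_lit 96,nat_lit 0x1050,nat_lit 0x100050,nat_lit 320,
    nat_lit 0x100140,nat_lit 0x1040,nat_lit 0x100040,nat_lit 0x1000040,nat_lit 0x1001040,nat_lit 304,nat_lit 0x100130,
    nat_lit 0x1030,nat_lit 0x1001030,nat_lit 0x2040,nat_lit 0x2030,nat_lit 0x100030,nat_lit 0x1000030,nat_lit 336,
    nat_lit 0x1000050,nat_lit 560,nat_lit 0x101040,nat_lit 0x101030,nat_lit 0x1002030,nat_lit 0x200130,
    nat_lit 0x200030,nat_lit 288,nat_lit 0x1130,nat_lit 544,nat_lit 0x1120,nat_lit 0x100120,nat_lit 0x101130,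
    nat_lit 0x101120,nat_lit 0x200120,nat_lit 0x1000120,nat_lit 0x1020,nat_lit 0x2020,nat_lit 0x101020,
    nat_lit 0x1001020,nat_lit 0x1002020,nat_lit 0x10020,nat_lit 0x10030,nat_lit 0x10120,nat_lit 0x110020,
    nat_lit 0x100020,nat_lit 0x200020,nat_lit 0x1000020,nat_lit 0x2000020,nat_lit 0x200040,nat_lit 0x1000130,
    nat_lit 0x100220,nat_lit 0x201020,nat_lit 0x1100040,nat_lit 0x1100030,nat_lit 0x1100120,nat_lit 0x300020,
    nat_lit 0x2000030,nat_lit 272,nat_lit 528,nat_lit 0x100210,nat_lit 0x1110,nat_lit 0x10110,nat_lit 0x100110,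
    nat_lit 0x101110,nat_lit 0x200110,nat_lit 0x1000110,nat_lit 0x1001110,nat_lit 0x1010,nat_lit 0x2010,
    nat_lit 0x102010,nat_lit 0x1002010,nat_lit 0x101010,nat_lit 0x201010,nat_lit 0x1001010,nat_lit 0x2001010,
    nat_lit 0x3030,nat_lit 0x3020,nat_lit 0x3010,nat_lit 0x10010,nat_lit 0x20010,nat_lit 0x20020,nat_lit 0x110010,
    nat_lit 0x1010010,nat_lit 0x110110,nat_lit 0x11010,nat_lit 0x120010,nat_lit 0x111010,nat_lit 0x210010,
    nat_lit 0x100010,nat_lit 0x200010,nat_lit 0x1100020,nat_lit 0x1000010,nat_lit 0x2000010,nat_lit 0x1100110],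
    [nat_lit 512,nat_lit 0x1200,nat_lit 0x1100,nat_lit 0x101100,nat_lit 0x1001100,nat_lit 0x100100],[nat_lit 0x2000,
    nat_lit 0x3000,nat_lit 0x1002000,nat_lit 0x1001000,nat_lit 0x2001000],[nat_lit 0x20000,nat_lit 0x30000,
    nat_lit 0x40000,nat_lit 0x120000,nat_lit 0x110000],[nat_lit 0x200000,nat_lit 0x300000],[nat_lit 0x2000000]]
    [.c (nat_lit 1) (nat_lit 2),.c (nat_lit 0) (nat_lit 0x408003),.c (nat_lit 4) (nat_lit 0x41000007),
    .r (nat_lit 0x1b47) (nat_lit 8) [nat_lit 0x81000000003,nat_lit 0x20400181,nat_lit 0xc1800e18003],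
    .r (nat_lit 8) (nat_lit 13) [nat_lit 0xc0040e18383,nat_lit 0x30000101],
    .r (nat_lit 0x174b) (nat_lit 3) [nat_lit 0x400001,nat_lit 0x81000000003,nat_lit 0x80050000303],
    .r (nat_lit 0x1b8f) (nat_lit 0) [nat_lit 0xc2821a30383,nat_lit 0x81000000003,nat_lit 0x400001],
    .c (nat_lit 4) (nat_lit 0x180081c307),.r (nat_lit 0x1c15) (nat_lit 9) [nat_lit 0x400001,nat_lit 0x81000000003,
    nat_lit 0xc1870e00303],.r (nat_lit 10) (nat_lit 8) [nat_lit 0x30000101,nat_lit 0x81060c00383],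
    .c (nat_lit 0) (nat_lit 0x183041c307),.r (nat_lit 75) (nat_lit 4) [nat_lit 0xc1800e18181,nat_lit 257,
    nat_lit 0x400001],.c (nat_lit 0) (nat_lit 0x2850034607),.r (nat_lit 786) (nat_lit 4) [nat_lit 0x1c3832648381,
    nat_lit 0x2c6854a90683,nat_lit 0x307044894603,nat_lit 0x18302284c301,nat_lit 0x102001834303],
    .r (nat_lit 787) (nat_lit 4) [nat_lit 0x50000302,nat_lit 0x80050000303,nat_lit 0x142801a30386,
    nat_lit 0x1040000383,nat_lit 0x40800382],.r (nat_lit 788) (nat_lit 4) [nat_lit 0x10302244c301,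
    nat_lit 0x286044894603,nat_lit 0x245854a90683,nat_lit 0x143832248381,nat_lit 0x1c4853260383],
    .r (nat_lit 0x1b8f) (nat_lit 6) [nat_lit 0x142801a30383,nat_lit 0x81000000003,nat_lit 0x400001],
    .c (nat_lit 0) (nat_lit 0x30a00006),.c (nat_lit 0) (nat_lit 0x2850034607),.c (nat_lit 0) (nat_lit 0x30a00006),
    .r (nat_lit 32) (nat_lit 2) [nat_lit 0x80050000306,nat_lit 0x400001],
    .r (nat_lit 0x1b8f) (nat_lit 0) [nat_lit 0x142801a30383,nat_lit 0x81000000003,nat_lit 0x400001],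
    .r (nat_lit 0x1c17) (nat_lit 11) [nat_lit 0x400001,nat_lit 0x80020c00383,nat_lit 0xc1800e18003],
    .c (nat_lit 0) (nat_lit 0x30a00006),.c (nat_lit 1) (nat_lit 0x1020018386),.c (nat_lit 0) (nat_lit 0x2850034607),
    .r (nat_lit 0x1b47) (nat_lit 8) [nat_lit 0x81000000003,nat_lit 0x80020c00383,nat_lit 0xc1800e18003],
    .r (nat_lit 0x1c15) (nat_lit 9) [nat_lit 0x400001,nat_lit 0x81000000003,nat_lit 0x1850e00303],
    .r (nat_lit 789) (nat_lit 8) [nat_lit 0x140080000303,nat_lit 0x30000001,nat_lit 0x80050000003,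
    nat_lit 0x81890e18383,nat_lit 0x1040000003],.c (nat_lit 0) (nat_lit 0x408003),
    .c (nat_lit 0) (nat_lit 0x183041c307),.c (nat_lit 4) (nat_lit 0x1040600386),.c (nat_lit 3) (nat_lit 0x30400307),
    .c (nat_lit 4) (nat_lit 0x1040800007),.c (nat_lit 0) (nat_lit 0x1800a1c006),
    .r (nat_lit 0x174d) (nat_lit 3) [nat_lit 0x140050000306,nat_lit 0xa10182],.c (nat_lit 5) (nat_lit 0x30400307),
    .c (nat_lit 5) (nat_lit 0x1830034607),.c (nat_lit 0) (nat_lit 0x1830a00006),.c (nat_lit 3) (nat_lit 0x2000830007),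
    .r (nat_lit 10) (nat_lit 8) [nat_lit 0x80050000303,nat_lit 0x1040c00383],.c (nat_lit 0) (nat_lit 0x183001c307),
    .r (nat_lit 790) (nat_lit 4) [nat_lit 0x244833260381,nat_lit 0x3c88562c0683,nat_lit 0x4090460c4603,
    nat_lit 0x204023464301,nat_lit 0x81000c1c101],.r (nat_lit 791) (nat_lit 4) [nat_lit 0x10300244c301,
    nat_lit 0x102001834201,nat_lit 0x244804a90683,nat_lit 0x143801e48381,nat_lit 0x245853e78383],
    .r (nat_lit 40) (nat_lit 4) [nat_lit 0x1c4853260386,nat_lit 0xc0040000306,nat_lit 0x400001],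
    .r (nat_lit 787) (nat_lit 4) [nat_lit 0x81030c1c301,nat_lit 0x182051834603,nat_lit 0x142801a30383,
    nat_lit 0x141841a30683,nat_lit 0xc1820a18381],.r (nat_lit 792) (nat_lit 4) [nat_lit 0x3c00001,
    nat_lit 0x280002800001,nat_lit 0x2c5874a78381,nat_lit 0x5002a00001,nat_lit 0x50a00301],
    .r (nat_lit 793) (nat_lit 4) [nat_lit 0x40c00381,nat_lit 0x80081800683,nat_lit 0xc1871a18303,nat_lit 0x1091a00603,
    nat_lit 0x50a00301],.r (nat_lit 32) (nat_lit 2) [nat_lit 0x101050c1c303,nat_lit 0x400001],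
    .r (nat_lit 0x174d) (nat_lit 3) [nat_lit 0x1030c1c303,nat_lit 0xc1801a30383],
    .r (nat_lit 794) (nat_lit 0) [nat_lit 0x80000800001,nat_lit 0xc00001,nat_lit 0x20400001,nat_lit 0x140051a00303,
    nat_lit 0x1000a00001],.c (nat_lit 0) (nat_lit 0x1830a00006),.c (nat_lit 0) (nat_lit 0x2850634607),
    .r (nat_lit 795) (nat_lit 6) [nat_lit 0x1040000683,nat_lit 0x20400381,nat_lit 257,nat_lit 0x30000301,
    nat_lit 0x80050000603],.r (nat_lit 796) (nat_lit 9) [nat_lit 0x204063c64301,nat_lit 0x40b0c60c4603,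
    nat_lit 0x2c88d62c0683,nat_lit 0x244873260381,nat_lit 0x244803260383],
    .r (nat_lit 797) (nat_lit 9) [nat_lit 0x285084c7c301,nat_lit 0x50e1078f4603,nat_lit 0x34a917af0683,
    nat_lit 0x2c5893e78381,nat_lit 0x2c5803e78383],.r (nat_lit 0x1b8f) (nat_lit 6) [nat_lit 0x244873e60386,
    nat_lit 0x81000000003,nat_lit 0x400001],.r (nat_lit 790) (nat_lit 4) [nat_lit 0x1c4873260381,
    nat_lit 0x2c88d62c0683,nat_lit 0x103042044201,nat_lit 0x184063464301,nat_lit 0x10304244c303],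
    .r (nat_lit 798) (nat_lit 4) [nat_lit 0x20c00381,nat_lit 0x100041800683,nat_lit 0x142872630303,
    nat_lit 0x2051a00603,nat_lit 0x30600301],.r (nat_lit 793) (nat_lit 4) [nat_lit 0x1020000381,nat_lit 0x82040000683,
    nat_lit 0xc2850e18303,nat_lit 0x1850000603,nat_lit 0x1830400301],
    .r (nat_lit 799) (nat_lit 4) [nat_lit 0x1020000381,nat_lit 0x82040000683,nat_lit 0xc2850e18303,
    nat_lit 0x1850000603,nat_lit 0x1830400301],.r (nat_lit 800) (nat_lit 6) [nat_lit 0x102000000003,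
    nat_lit 0x80000800001,nat_lit 0x81000c1c303,nat_lit 0xc0040000003,nat_lit 0xc0000000001],
    .r (nat_lit 75) (nat_lit 4) [nat_lit 0x143852648383,nat_lit 0xc0040000303,nat_lit 0x400001],
    .r (nat_lit 801) (nat_lit 4) [nat_lit 0x3c00001,nat_lit 0x280002800001,nat_lit 0x245894678381,
    nat_lit 0x5002a00001,nat_lit 0xc0030e00301],.r (nat_lit 802) (nat_lit 6) [nat_lit 0x1000000001,nat_lit 0xc00001,
    nat_lit 0x81000c1c303,nat_lit 0x20000001,nat_lit 0x80000000001],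
    .r (nat_lit 791) (nat_lit 4) [nat_lit 0x8304244c301,nat_lit 0x206084894603,nat_lit 0x144894a90683,
    nat_lit 0xc3851e48381,nat_lit 0x1c5893e78383],.r (nat_lit 788) (nat_lit 4) [nat_lit 0x18304244c301,
    nat_lit 0x386084894603,nat_lit 0x345894a90683,nat_lit 0x1c3852248381,nat_lit 0x244873260383],
    .r (nat_lit 40) (nat_lit 4) [nat_lit 0x244873260386,nat_lit 0x20000102,nat_lit 0x400001],
    .r (nat_lit 0x1c17) (nat_lit 11) [nat_lit 0x400001,nat_lit 0x100030c00386,nat_lit 0xc1800e18003],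
    .c (nat_lit 0) (nat_lit 0x180061c006),.r (nat_lit 0x1b8f) (nat_lit 6) [nat_lit 0x141832630383,
    nat_lit 0x81000000003,nat_lit 0x400001],.c (nat_lit 0) (nat_lit 0x1830600006),
    .c (nat_lit 0) (nat_lit 0x1830600006),.c (nat_lit 2) (nat_lit 0x1020018386),.c (nat_lit 0) (nat_lit 0x2850034607),
    .r (nat_lit 32) (nat_lit 2) [nat_lit 0x81000c1c303,nat_lit 0x400001],
    .r (nat_lit 0x174b) (nat_lit 3) [nat_lit 0x400001,nat_lit 0x81000000003,nat_lit 257],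
    .r (nat_lit 32) (nat_lit 2) [nat_lit 0x100030000306,nat_lit 0x400001],
    .r (nat_lit 803) (nat_lit 9) [nat_lit 0x3060a5c94301,nat_lit 0x611149124603,nat_lit 0x3cc959320683,
    nat_lit 0x3468b4a90381,nat_lit 0x142801a30181],.r (nat_lit 804) (nat_lit 4) [nat_lit 0x2000000001,
    nat_lit 0x204000000003,nat_lit 0x24b850060683,nat_lit 0x2801000001,nat_lit 0x5053200603],
    .c (nat_lit 0) (nat_lit 0x180061c006),.c (nat_lit 0) (nat_lit 0x180061c006),
    .r (nat_lit 805) (nat_lit 4) [nat_lit 0x1020c00381,nat_lit 0x202041800683,nat_lit 0x2458b3e60303,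
    nat_lit 0x2051a00603,nat_lit 0x1830400301],.r (nat_lit 0x196a) (nat_lit 2) [nat_lit 0x81000000003,
    nat_lit 0x1030c00386,nat_lit 0xc1800e18003],.c (nat_lit 0) (nat_lit 0x50600006),
    .c (nat_lit 0) (nat_lit 0x50600006),.c (nat_lit 5) (nat_lit 0x2830634607),.c (nat_lit 0) (nat_lit 0x30600006),
    .r (nat_lit 806) (nat_lit 4) [nat_lit 0x104063064301,nat_lit 0x2880c60c4603,nat_lit 0x2478d62c0683,
    nat_lit 0x144872e60381,nat_lit 0x1c5893e78383],.r (nat_lit 40) (nat_lit 4) [nat_lit 0x143852648383,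
    nat_lit 0x1040c1c303,nat_lit 0x400001],.r (nat_lit 0x1b8f) (nat_lit 0) [nat_lit 0x2831a30383,
    nat_lit 0x81000000003,nat_lit 0x400001],.r (nat_lit 794) (nat_lit 0) [nat_lit 0x80000800001,nat_lit 0xc00001,
    nat_lit 0x20400001,nat_lit 0xc0031a00303,nat_lit 0x1000a00001],
    .r (nat_lit 0x174d) (nat_lit 3) [nat_lit 0x81000c1c303,nat_lit 0x141831a30383],
    .r (nat_lit 0x1bfd) (nat_lit 11) [nat_lit 0x80020c00383,nat_lit 0xc1800018383,nat_lit 0x1030e00303],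
    .r (nat_lit 0x1b4a) (nat_lit 13) [nat_lit 0x8100001c303,nat_lit 0x400001,nat_lit 0x81000000003],
    .r (nat_lit 807) (nat_lit 4) [nat_lit 0x1000000001,nat_lit 0x102000000003,nat_lit 0x148801830683,
    nat_lit 0x1800800001,nat_lit 0x5053200603],.c (nat_lit 0) (nat_lit 0x180061c006),
    .r (nat_lit 808) (nat_lit 4) [nat_lit 0x1000000001,nat_lit 0x102000000003,nat_lit 0x145800030683,
    nat_lit 0x1800800001,nat_lit 0x2051a00603],.r (nat_lit 0x1c17) (nat_lit 11) [nat_lit 0x400001,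
    nat_lit 0x81000000383,nat_lit 0xc1800e18003],.c (nat_lit 0) (nat_lit 0x50600006),.c (nat_lit 5) (nat_lit 0xc103),
    .c (nat_lit 0) (nat_lit 0x30600006),.r (nat_lit 0x196a) (nat_lit 2) [nat_lit 0x81000000003,nat_lit 0xc0030e18383,
    nat_lit 0xc1800e18003],.c (nat_lit 0) (nat_lit 0x1000618386),.c (nat_lit 0) (nat_lit 0x183001c307),
    .c (nat_lit 3) (nat_lit 0x1020018386),.c (nat_lit 5) (nat_lit 0x1020018386),
    .r (nat_lit 40) (nat_lit 4) [nat_lit 0x81000c1c303,nat_lit 0xc1800e18181,nat_lit 0x400001],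
    .r (nat_lit 0x1c17) (nat_lit 11) [nat_lit 0x400001,nat_lit 0x102001834303,nat_lit 0xc1800e18003],
    .c (nat_lit 4) (nat_lit 0xc103),.r (nat_lit 8) (nat_lit 13) [nat_lit 0x608181,nat_lit 0xc0030000303],
    .r (nat_lit 0x1c15) (nat_lit 9) [nat_lit 0x400001,nat_lit 0x81000000003,nat_lit 0x141830e00303],
    .r (nat_lit 0x1b47) (nat_lit 8) [nat_lit 0x81000000003,nat_lit 0x400181,nat_lit 0xc1800e18003],
    .r (nat_lit 0x174d) (nat_lit 3) [nat_lit 0xc0030000306,nat_lit 0xc0031a30386],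
    .c (nat_lit 3) (nat_lit 0x1830000307),.c (nat_lit 5) (nat_lit 0x5061c607),
    .r (nat_lit 809) (nat_lit 4) [nat_lit 0x1000000001,nat_lit 0x102000000003,nat_lit 0x204001a30683,
    nat_lit 0x1800800001,nat_lit 0x347850000603],.c (nat_lit 5) (nat_lit 0x1830000307),
    .r (nat_lit 789) (nat_lit 8) [nat_lit 0xc00a0000303,nat_lit 0x30000001,nat_lit 0x80050000003,nat_lit 0x18b0e18383,
    nat_lit 0x1040000003],.c (nat_lit 0) (nat_lit 0x408003),.r (nat_lit 10) (nat_lit 8) [nat_lit 0x80021800383,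
    nat_lit 0x1030e00303],.c (nat_lit 4) (nat_lit 0x2061c006),.c (nat_lit 0) (nat_lit 0x20800007),
    .c (nat_lit 0) (nat_lit 0x1830000006),.c (nat_lit 4) (nat_lit 0x1020018386),.c (nat_lit 1) (nat_lit 0x180081c307),
    .c (nat_lit 0) (nat_lit 0x183001c307),.r (nat_lit 810) (nat_lit 6) [nat_lit 0x102000000003,nat_lit 0x80000800001,
    nat_lit 0x40c101,nat_lit 0xc0040000003,nat_lit 0xc0000000001],.c (nat_lit 0) (nat_lit 0x20000386),
    .c (nat_lit 0) (nat_lit 0x8182),.c (nat_lit 0) (nat_lit 0x8182),.c (nat_lit 0) (nat_lit 0x1000418386),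
    .c (nat_lit 1) (nat_lit 0x30400307),.r (nat_lit 0x1b4a) (nat_lit 12) [nat_lit 0xc102001c303,nat_lit 0x400001,
    nat_lit 0x81000000003],.r (nat_lit 0x174d) (nat_lit 3) [nat_lit 0xc1800018383,nat_lit 0x1030e00303],
    .r (nat_lit 32) (nat_lit 2) [nat_lit 0x608181,nat_lit 0x400001],.c (nat_lit 0) (nat_lit 0x2850634607),
    .c (nat_lit 0) (nat_lit 0x2850034607),.r (nat_lit 0x1b47) (nat_lit 8) [nat_lit 0x81000000003,
    nat_lit 0x102001834303,nat_lit 0xc1800e18003],.r (nat_lit 0x1bfd) (nat_lit 11) [nat_lit 0x102001834303,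
    nat_lit 0x1030c1c303,nat_lit 0xc1801a30383],.r (nat_lit 0x196a) (nat_lit 2) [nat_lit 0x81000000003,
    nat_lit 0x1030c1c303,nat_lit 0xc1800e18003],.r (nat_lit 0x1b4a) (nat_lit 13) [nat_lit 0xc1800e18383,
    nat_lit 0x400001,nat_lit 0x81000000003],.c (nat_lit 0) (nat_lit 0x1000418007),
    .r (nat_lit 10) (nat_lit 8) [nat_lit 0xc0030000303,nat_lit 0x101020c00383],.c (nat_lit 0) (nat_lit 0x1830600006),
    .c (nat_lit 0) (nat_lit 0x280061c006),.c (nat_lit 5) (nat_lit 0x1850a4c907),.c (nat_lit 0) (nat_lit 0x2830600006),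
    .c (nat_lit 0) (nat_lit 0x1830600006),.r (nat_lit 811) (nat_lit 4) [nat_lit 0x2000000001,nat_lit 0x204000000003,
    nat_lit 0x101053260683,nat_lit 0x2801000001,nat_lit 0x347850000603],.c (nat_lit 0) (nat_lit 0x280061c006),
    .c (nat_lit 0) (nat_lit 0x2830600006),.c (nat_lit 0) (nat_lit 0x1830600006),.c (nat_lit 0) (nat_lit 0x183061c006),
    .c (nat_lit 0) (nat_lit 0x1850600006),.c (nat_lit 1) (nat_lit 0x1020c18007),.c (nat_lit 0) (nat_lit 0x1850600006),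
    .c (nat_lit 3) (nat_lit 0x1000430007),.c (nat_lit 4) (nat_lit 0x40400007),.c (nat_lit 0) (nat_lit 0x30400006),
    .c (nat_lit 0) (nat_lit 0xc002),.c (nat_lit 2) (nat_lit 2),.r (nat_lit 812) (nat_lit 6) [nat_lit 0x1000000001,
    nat_lit 0xc00001,nat_lit 257,nat_lit 0x20000001,nat_lit 0x80000000001],
    .r (nat_lit 800) (nat_lit 6) [nat_lit 0x102000000003,nat_lit 0x80000800001,nat_lit 258,nat_lit 0xc0040000003,
    nat_lit 0xc0000000001],.r (nat_lit 813) (nat_lit 6) [nat_lit 0x5140000003,nat_lit 0xa1400001,nat_lit 257,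
    nat_lit 0xb0000001,nat_lit 0x280150000003],.r (nat_lit 802) (nat_lit 6) [nat_lit 0x1000000001,nat_lit 0xc00001,
    nat_lit 258,nat_lit 0x20000001,nat_lit 0x80000000001],.r (nat_lit 814) (nat_lit 4) [nat_lit 0x1000000381,
    nat_lit 0x102000000683,nat_lit 0x143851a30303,nat_lit 513,nat_lit 0x1800800301],
    .r (nat_lit 792) (nat_lit 4) [nat_lit 0x3c00001,nat_lit 0x280002800001,nat_lit 0x2458b4a78381,
    nat_lit 0x5002a00001,nat_lit 0xc0000a00301],.r (nat_lit 815) (nat_lit 4) [nat_lit 0xc00381,nat_lit 0x80000800281,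
    nat_lit 0xc1831218101,nat_lit 0x1000a00201,nat_lit 769],.r (nat_lit 799) (nat_lit 4) [nat_lit 0x80000c00381,
    nat_lit 0x80000800281,nat_lit 0x141831a18303,nat_lit 0x141001a00603,nat_lit 0xc0000a00301],
    .r (nat_lit 0x1b8f) (nat_lit 6) [nat_lit 0x243894a60386,nat_lit 0x81000000003,nat_lit 0x400001],
    .r (nat_lit 787) (nat_lit 4) [nat_lit 0xc0000000302,nat_lit 257,nat_lit 0xc2851a30386,nat_lit 0x81000000383,
    nat_lit 0x80000800382],.r (nat_lit 790) (nat_lit 4) [nat_lit 0x244893260381,nat_lit 0x3c89162c0683,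
    nat_lit 0x4091060c4603,nat_lit 0x204083464301,nat_lit 0x81020c1c101],.c (nat_lit 0) (nat_lit 0x30000006),
    .r (nat_lit 0x1c17) (nat_lit 11) [nat_lit 0x400001,nat_lit 0x80030400183,nat_lit 0xc1800e18003],
    .r (nat_lit 793) (nat_lit 4) [nat_lit 0x80000c00381,nat_lit 0x80000800281,nat_lit 0x141831a18303,
    nat_lit 0x141001a00603,nat_lit 0xc0000a00301],.r (nat_lit 798) (nat_lit 4) [nat_lit 0x1000000381,
    nat_lit 0x102000000683,nat_lit 0x143851a30303,nat_lit 513,nat_lit 0x1800800301],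
    .c (nat_lit 0) (nat_lit 0x30000006),.r (nat_lit 810) (nat_lit 6) [nat_lit 0x102000000003,nat_lit 0x80000800001,
    nat_lit 0x142800000306,nat_lit 0xc0040000003,nat_lit 0xc0000000001],
    .r (nat_lit 805) (nat_lit 4) [nat_lit 0x2000000381,nat_lit 0x204000000683,nat_lit 0x246893260303,nat_lit 513,
    nat_lit 0x2801000301],.r (nat_lit 786) (nat_lit 4) [nat_lit 0x143872648381,nat_lit 0xc2851a30281,
    nat_lit 0x2070c4894603,nat_lit 0x10306284c301,nat_lit 0x82041834303],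
    .r (nat_lit 75) (nat_lit 4) [nat_lit 0xc1830e18181,nat_lit 0x20000101,nat_lit 0x400001],
    .r (nat_lit 816) (nat_lit 4) [nat_lit 0xc00381,nat_lit 0x80000800281,nat_lit 0xc1831218101,nat_lit 0x1000a00201,
    nat_lit 769],.r (nat_lit 801) (nat_lit 4) [nat_lit 0x3c00001,nat_lit 0x280002800001,nat_lit 0x2c58b4678381,
    nat_lit 0x5002a00001,nat_lit 0xe00301],.r (nat_lit 817) (nat_lit 12) [nat_lit 0xa00101,nat_lit 0xc00001,
    nat_lit 0x1000000001,nat_lit 0xc1830618181,nat_lit 0x80000000001],.c (nat_lit 0) (nat_lit 0x1830000006),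
    .c (nat_lit 0) (nat_lit 0x1830000006),.c (nat_lit 0) (nat_lit 0x50000006),.c (nat_lit 0) (nat_lit 0x280001c006),
    .r (nat_lit 788) (nat_lit 4) [nat_lit 0x8306244c301,nat_lit 0x82041834201,nat_lit 0x1458d4a90683,
    nat_lit 0xc3872248381,nat_lit 0x144893260383],.r (nat_lit 818) (nat_lit 4) [nat_lit 0xc00381,
    nat_lit 0x80000800281,nat_lit 0xc1831218101,nat_lit 0x1000a00201,nat_lit 769],
    .r (nat_lit 819) (nat_lit 4) [nat_lit 0x1000c00381,nat_lit 0x282001800683,nat_lit 0x2c68b4a78303,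
    nat_lit 0x1000a00201,nat_lit 0x1800800301],.r (nat_lit 0x1b4a) (nat_lit 13) [nat_lit 0xa00102,nat_lit 0x400001,
    nat_lit 0x81000000003],.r (nat_lit 804) (nat_lit 4) [nat_lit 0x2000000001,nat_lit 0x204000000003,
    nat_lit 0x249891a60683,nat_lit 0x2801000001,nat_lit 0x1000a00201],
    .r (nat_lit 0x1b8f) (nat_lit 6) [nat_lit 0xc2851a30383,nat_lit 0x81000000003,nat_lit 0x400001],
    .c (nat_lit 0) (nat_lit 0x183001c006),.c (nat_lit 0) (nat_lit 0x183001c006),.c (nat_lit 0) (nat_lit 0x280001c006),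
    .c (nat_lit 0) (nat_lit 0xc002),.r (nat_lit 0x1c17) (nat_lit 11) [nat_lit 0x400001,nat_lit 0x101050000386,
    nat_lit 0xc1800e18003],.r (nat_lit 0x196a) (nat_lit 2) [nat_lit 0x81000000003,nat_lit 0x2050000386,
    nat_lit 0xc1800e18003],.c (nat_lit 0) (nat_lit 0x1830000006),.c (nat_lit 0) (nat_lit 0x30000006),
    .c (nat_lit 0) (nat_lit 0x50000006),.c (nat_lit 0) (nat_lit 0x2850a34607),
    .r (nat_lit 820) (nat_lit 13) [nat_lit 0x50000001,nat_lit 0x100090000003,nat_lit 0xc1800e18181,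
    nat_lit 0x2080000003,nat_lit 0x40800001],.r (nat_lit 0x1922) (nat_lit 6) [nat_lit 0x81000000003,nat_lit 0x400001,
    nat_lit 0x8302001c303,nat_lit 0x1820c00003],.c (nat_lit 0) (nat_lit 0x1850a34607),
    .c (nat_lit 0) (nat_lit 0x1850a34607),.r (nat_lit 32) (nat_lit 2) [nat_lit 258,nat_lit 0x400001],
    .r (nat_lit 0x174b) (nat_lit 3) [nat_lit 0x400001,nat_lit 0x81000000003,nat_lit 0x80020000303],
    .r (nat_lit 0x174d) (nat_lit 3) [nat_lit 258,nat_lit 0x140051a30386],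
    .r (nat_lit 40) (nat_lit 4) [nat_lit 0x144893260386,nat_lit 0x140080000306,nat_lit 0x400001],
    .c (nat_lit 0) (nat_lit 0xc002),.r (nat_lit 0x196a) (nat_lit 2) [nat_lit 0x81000000003,nat_lit 0x80051800386,
    nat_lit 0xc1800e18003],.c (nat_lit 5) (nat_lit 0x30a34607),.r (nat_lit 806) (nat_lit 4) [nat_lit 0x184083064301,
    nat_lit 0x3881060c4603,nat_lit 0x3479162c0683,nat_lit 0x1c4892e60381,nat_lit 0x2458b3e78383],
    .r (nat_lit 791) (nat_lit 4) [nat_lit 0x10306244c301,nat_lit 0x102041834201,nat_lit 0x2448d4a90683,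
    nat_lit 0x143871e48381,nat_lit 0x2458b3e78383],.c (nat_lit 5) (nat_lit 0x1850a1c607),
    .r (nat_lit 0x174d) (nat_lit 3) [nat_lit 0xc0000000102,nat_lit 0x80051a30386],
    .r (nat_lit 794) (nat_lit 0) [nat_lit 0x80000800001,nat_lit 0xc00001,nat_lit 0x20400001,nat_lit 0xa00101,
    nat_lit 0x1000a00001],.r (nat_lit 0x1bec) (nat_lit 8) [nat_lit 257,nat_lit 0x81000000003],
    .r (nat_lit 821) (nat_lit 4) [nat_lit 0x1000000001,nat_lit 0x102000000003,nat_lit 0x149851830683,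
    nat_lit 0x1800800001,nat_lit 0x2001200201],.r (nat_lit 808) (nat_lit 4) [nat_lit 0x1000000001,
    nat_lit 0x102000000003,nat_lit 0x7851830683,nat_lit 0x1800800001,nat_lit 0x144003200603],
    .r (nat_lit 807) (nat_lit 4) [nat_lit 0x1000000001,nat_lit 0x102000000003,nat_lit 0x146850030683,
    nat_lit 0x1800800001,nat_lit 0x1000a00201],.r (nat_lit 0x1b4a) (nat_lit 12) [nat_lit 0xc1800e18383,
    nat_lit 0x400001,nat_lit 0x81000000003],.r (nat_lit 0x1c17) (nat_lit 11) [nat_lit 0x400001,nat_lit 0x100030c00383,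
    nat_lit 0xc1800e18003],.c (nat_lit 0) (nat_lit 0x183001c006),.c (nat_lit 5) (nat_lit 0x1030600307),
    .c (nat_lit 0) (nat_lit 0xc002),.c (nat_lit 0) (nat_lit 0x3001c006),
    .r (nat_lit 0x1bfd) (nat_lit 11) [nat_lit 0x81000000383,nat_lit 0xc0030e18383,nat_lit 257],
    .r (nat_lit 808) (nat_lit 4) [nat_lit 0x1000000001,nat_lit 0x102000000003,nat_lit 0x143851a30683,
    nat_lit 0x1800800001,nat_lit 513],.c (nat_lit 0) (nat_lit 0x1850000006),.c (nat_lit 0) (nat_lit 0x50000006),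
    .c (nat_lit 0) (nat_lit 0x1830000006),.c (nat_lit 0) (nat_lit 0x2830000006),.c (nat_lit 5) (nat_lit 0x180061c307),
    .c (nat_lit 0) (nat_lit 0x30000006),.c (nat_lit 0) (nat_lit 0x30000002),.c (nat_lit 0) (nat_lit 0x30000002),
    .c (nat_lit 0) (nat_lit 0x30000002),.c (nat_lit 0) (nat_lit 0x183001c307),.c (nat_lit 0) (nat_lit 0x2850a34607),
    .c (nat_lit 0) (nat_lit 0x2850034607),.c (nat_lit 1) (nat_lit 0x20818386),.c (nat_lit 4) (nat_lit 0x180061c307),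
    .c (nat_lit 4) (nat_lit 0x40400386),.c (nat_lit 3) (nat_lit 0x1000430386),.c (nat_lit 0) (nat_lit 0x1850a34607),
    .c (nat_lit 1) (nat_lit 0xc103),.c (nat_lit 3) (nat_lit 0x1030600307),.c (nat_lit 0) (nat_lit 0x3061c307),
    .r (nat_lit 0x1b47) (nat_lit 8) [nat_lit 0x81000000003,nat_lit 0x100030c00383,nat_lit 0xc1800e18003],
    .r (nat_lit 0x1b8f) (nat_lit 0) [nat_lit 0xc2851a30383,nat_lit 0x81000000003,nat_lit 0x400001],
    .r (nat_lit 8) (nat_lit 13) [nat_lit 0xc0030e18383,nat_lit 257],.r (nat_lit 789) (nat_lit 8) [nat_lit 0x40000101,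
    nat_lit 0x30000001,nat_lit 0x80050000003,nat_lit 0xc18d0e18383,nat_lit 0x1040000003],
    .c (nat_lit 0) (nat_lit 0x180001c006),.c (nat_lit 3) (nat_lit 2),.c (nat_lit 4) (nat_lit 0x20014002),
    .r (nat_lit 10) (nat_lit 8) [nat_lit 0x81000c00383,nat_lit 257],.c (nat_lit 0) (nat_lit 0x1830000006),
    .c (nat_lit 1) (nat_lit 0x20818007),.c (nat_lit 0) (nat_lit 0x1000010007),.c (nat_lit 4) (nat_lit 2),
    .c (nat_lit 0) (nat_lit 0x30010002),.c (nat_lit 0) (nat_lit 0x30000004),.c (nat_lit 0) (nat_lit 0x30000004),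
    .c (nat_lit 0) (nat_lit 0x30000002),.c (nat_lit 5) (nat_lit 2),.r (nat_lit 45) (nat_lit 4) [nat_lit 257,
    nat_lit 0xc1800e18181,nat_lit 0x400001],.r (nat_lit 40) (nat_lit 4) [nat_lit 258,nat_lit 0x244803260386,
    nat_lit 0x400001],.c (nat_lit 0) (nat_lit 0x1850a34607),.c (nat_lit 0) (nat_lit 0x3061c307),
    .c (nat_lit 6) (nat_lit 2),.c (nat_lit 3) (nat_lit 0x1000010003),.c (nat_lit 7) (nat_lit 2)]]

/-- nodes -/
noncomputable def rD7k_22_20 : List RJ :=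
  [.l (nat_lit 13) (nat_lit 0x788) (nat_lit 6) (nat_lit 0x4480000047200000318000002fe000003f10000031d000002dc0000043a0000041d0000041d000002c30000043f000002df000002df) (nat_lit 0x2a000001740000015a00000155000000810000003800000196000000550000005500000033000001af0000019300000193)
    (nat_lit 0x22410183900fe1798eec8582b22078fbc8322b515a8ae49844481210c602da39d10b07f083a0f12698dbc99e4d318c03f83f016e1518d4cc1833210b939c1e21690c283c44841c80c507e037a27d22b05f05425710dd84dc2ee15b1ce8eec4fa3531440dc01e22471da083079c24a1b50db82da2f30de8a8c390288172861c60827417304c831418e0fe0ac82f83320c3891c5f01461618a1c54a0f10a4853442c42c22b18305ca0f12010be07ca3e52038a2c5562a70788fbcae24e713a08307ca2871e40f207d426e1370a2883a40f150885c6083b41f28b0c7903c81f509b84dc28a1b78ad426e16909909285160f113709b852011408a04c09a64190dd83c45cc3ce2038a947d43ea2060a405502ac2698ae42b60f10c70db854e14d1450a285581300a4053099e2b50bb861431436a15585244dc26e15404502c8148)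
    (nat_lit 0x2241e20f107883c41e20f107883c41e20f107883c41e2080c4483c41e20f107883c41e20f107883c41e20f107880e409083f07883c41e20f107883c41e20f107883c41e201fc3180b707e0f107883c41e20f107883c41e20f1078815d85b44d61bd1441e20f107883c41e20f107883c41e206f639d1a989f46e02883c41e20f107883c41e20f107881d608586282ae0788ae44f07883c41e20f107883c41e204f41fc17505f046e1870a309e0f107883c41e20f107881cf907442e2a11da0c105863e51e41e20f107883c41e2076e0f10f78ae44182741438d947903c83c41e20f1078815c8ccc1e21bb1af0ab84da39f1d50e484507883c41e2046a3070b484dc3c4132078888c4dc26e08a08a0f1078813a8d7c30a17711d062829227b13709b82282680a41e204b2333078856c47c18e0a689fc51428a0980930298148)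
    (nat_lit 5) (nat_lit 565)
    [[nat_lit 2,nat_lit 3,nat_lit 4,nat_lit 5,nat_lit 0x100014,nat_lit 0x100004,nat_lit 0x200004,nat_lit 19,
    nat_lit 0x100013,nat_lit 0x100023,nat_lit 0x200013,nat_lit 0x1003,nat_lit 0x11003,nat_lit 0x111003,
    nat_lit 0x100003,nat_lit 0x200003,nat_lit 18,nat_lit 0x100022,nat_lit 0x11012,nat_lit 0x100012,nat_lit 0x200022,
    nat_lit 0x101012,nat_lit 0x111012,nat_lit 0x110012,nat_lit 0x200012,nat_lit 258,nat_lit 259,nat_lit 0x100102,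
    nat_lit 0x10102,nat_lit 0x1000102,nat_lit 0x1100102,nat_lit 0x1002,nat_lit 0x11002,nat_lit 0x111002,
    nat_lit 0x1111002,nat_lit 0x1001002,nat_lit 0x1101002,nat_lit 0x101002,nat_lit 0x10002,nat_lit 0x110002,
    nat_lit 0x100002,nat_lit 0x300012,nat_lit 0x200002,nat_lit 0x300002,nat_lit 0x1200002,nat_lit 0x1100002,
    nat_lit 0x300003,nat_lit 0x211002,nat_lit 0x210002,nat_lit 17,nat_lit 34,nat_lit 33,nat_lit 0x100021,
    nat_lit 0x100031,nat_lit 0x200021,nat_lit 0x1011,nat_lit 0x11011,nat_lit 0x111011,nat_lit 0x10011,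
    nat_lit 0x110011,nat_lit 0x100011,nat_lit 0x200031,nat_lit 0x300021,nat_lit 0x101021,nat_lit 0x111021,
    nat_lit 0x100111,nat_lit 0x101011,nat_lit 0x211011,nat_lit 0x210011,nat_lit 0x200011,nat_lit 0x300011,
    nat_lit 0x400011,nat_lit 0x1100111,nat_lit 0x1101011,nat_lit 0x1111011,nat_lit 0x1200011,nat_lit 0x1100011,
    nat_lit 257,nat_lit 0x100101,nat_lit 0x200101,nat_lit 0x11101,nat_lit 0x10101,nat_lit 0x110101,nat_lit 0x1000101,
    nat_lit 0x1100101,nat_lit 0x1200101,nat_lit 0x1001,nat_lit 0x201002,nat_lit 0x201011,nat_lit 0x2001,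
    nat_lit 0x12001,nat_lit 0x11001,nat_lit 0x22001,nat_lit 0x122001,nat_lit 0x21001,nat_lit 0x121001,
    nat_lit 0x111001,nat_lit 0x211001,nat_lit 0x1011001,nat_lit 0x1111001,nat_lit 0x1211001,nat_lit 0x101001,
    nat_lit 0x1001001,nat_lit 0x1101001,nat_lit 0x1201001,nat_lit 0x201001,nat_lit 0x10001,nat_lit 0x20001,
    nat_lit 0x110001,nat_lit 0x1110001,nat_lit 0x120001,nat_lit 0x210001,nat_lit 0x100001,nat_lit 0x200001,
    nat_lit 0x300001,nat_lit 0x400001,nat_lit 0x1300001,nat_lit 0x1200001,nat_lit 0x1100001,nat_lit 0x1210001],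
    [nat_lit 32,nat_lit 0x100030,nat_lit 0x11020,nat_lit 0x100020,nat_lit 0x200030,nat_lit 0x111020,nat_lit 0x110020,
    nat_lit 0x200020,nat_lit 272,nat_lit 0x100110,nat_lit 0x10110,nat_lit 0x1100110,nat_lit 0x1010,nat_lit 0x101020,
    nat_lit 0x11010,nat_lit 0x22010,nat_lit 0x12010,nat_lit 0x21010,nat_lit 0x111010,nat_lit 0x1111010,
    nat_lit 0x1001010,nat_lit 0x1101010,nat_lit 0x101010,nat_lit 0x10010,nat_lit 0x110010,nat_lit 0x1110010,
    nat_lit 0x100010,nat_lit 0x300030,nat_lit 0x201020,nat_lit 0x211020,nat_lit 0x210020,nat_lit 0x300020,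
    nat_lit 0x400020,nat_lit 0x200040,nat_lit 0x110110,nat_lit 0x1200110,nat_lit 0x102010,nat_lit 0x112010,
    nat_lit 0x122010,nat_lit 0x121010,nat_lit 0x211010,nat_lit 0x1211010,nat_lit 0x1201010,nat_lit 0x120010,
    nat_lit 0x210010,nat_lit 0x1210010,nat_lit 0x200010,nat_lit 0x201010,nat_lit 0x300010,nat_lit 0x400010,
    nat_lit 0x1300010,nat_lit 0x200110,nat_lit 0x1200010,nat_lit 0x1100010,nat_lit 0x1200020,nat_lit 0x1000110,
    nat_lit 0x1011010],[nat_lit 0x1100,nat_lit 0x11100,nat_lit 0x1111100,nat_lit 0x1101100,nat_lit 0x10100,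
    nat_lit 0x1110100,nat_lit 0x101100,nat_lit 0x111100,nat_lit 0x110100,nat_lit 0x1200100,nat_lit 0x1100100,
    nat_lit 0x1000100],[nat_lit 0x2000,nat_lit 0x12000,nat_lit 0x11000,nat_lit 0x22000,nat_lit 0x33000,
    nat_lit 0x32000,nat_lit 0x1122000,nat_lit 0x1012000,nat_lit 0x1112000,nat_lit 0x21000,nat_lit 0x1121000,
    nat_lit 0x111000,nat_lit 0x211000,nat_lit 0x1111000,nat_lit 0x1011000,nat_lit 0x1211000,nat_lit 0x2111000,
    nat_lit 0x201000,nat_lit 0x1101000,nat_lit 0x1001000,nat_lit 0x1201000,nat_lit 0x2101000],[nat_lit 0x20000,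
    nat_lit 0x1120000,nat_lit 0x110000,nat_lit 0x210000,nat_lit 0x1110000,nat_lit 0x1010000,nat_lit 0x1210000],
    [nat_lit 0x200000,nat_lit 0x300000,nat_lit 0x400000,nat_lit 0x1300000,nat_lit 0x1200000,nat_lit 0x1100000,
    nat_lit 0x2200000],[]]
    [.c (nat_lit 1) (nat_lit 2),.r (nat_lit 45) (nat_lit 3) [nat_lit 65,nat_lit 0x739861,nat_lit 0x200001],
    .r (nat_lit 40) (nat_lit 3) [nat_lit 66,nat_lit 0x94a062,nat_lit 0x200001],
    .r (nat_lit 0xeb5) (nat_lit 4) [nat_lit 0x50001,nat_lit 0x294a02c41,nat_lit 0xb5a861,nat_lit 0x2d6002861],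
    .c (nat_lit 0) (nat_lit 0x4000c02),.r (nat_lit 0xa1c) (nat_lit 4) [nat_lit 0x210342441,nat_lit 0x800001,
    nat_lit 0x11100001,nat_lit 0x12a4a061,nat_lit 0x252202061],.c (nat_lit 0) (nat_lit 0x318c42),
    .r (nat_lit 0x174b) (nat_lit 1) [nat_lit 0x200001,nat_lit 0x10001,nat_lit 0x146719861],
    .c (nat_lit 0) (nat_lit 0x4000c02),.c (nat_lit 0) (nat_lit 0x10211c64),.c (nat_lit 0) (nat_lit 0x8319c44),
    .r (nat_lit 32) (nat_lit 10) [nat_lit 0x146719862,nat_lit 0x200001],.r (nat_lit 40) (nat_lit 3) [nat_lit 0x210c41,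
    nat_lit 0x739861,nat_lit 0x200001],.c (nat_lit 0) (nat_lit 0x310864),
    .r (nat_lit 0xa1d) (nat_lit 4) [nat_lit 0x18c331c41,nat_lit 0x600001,nat_lit 0xcd00001,nat_lit 0xe839861,
    nat_lit 0x1ce201861],.c (nat_lit 0) (nat_lit 0x318c42),.r (nat_lit 32) (nat_lit 10) [nat_lit 0x146501061,
    nat_lit 0x200001],.c (nat_lit 0) (nat_lit 0x10211c64),.c (nat_lit 3) (nat_lit 0x6318c83),
    .c (nat_lit 0) (nat_lit 0x4000c02),.c (nat_lit 0) (nat_lit 0x80200a2),.c (nat_lit 3) (nat_lit 0x6520c83),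
    .c (nat_lit 0) (nat_lit 0x40208a2),.c (nat_lit 0) (nat_lit 0x4010062),.c (nat_lit 0) (nat_lit 0x8319c44),
    .r (nat_lit 0x1b04) (nat_lit 2) [nat_lit 0x84010c41,nat_lit 0x200001],
    .r (nat_lit 0xeb4) (nat_lit 6) [nat_lit 0x600001,nat_lit 0x1ce501861,nat_lit 0x300041,nat_lit 0x18c431c41],
    .c (nat_lit 0) (nat_lit 0x18002),.r (nat_lit 0x1b4d) (nat_lit 7) [nat_lit 0xc6329061,nat_lit 0x200001,
    nat_lit 0x10001],.r (nat_lit 0x19f7) (nat_lit 6) [nat_lit 0x200001,nat_lit 0x108021441,nat_lit 0xc6018841,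
    nat_lit 0x14a011061],.c (nat_lit 0) (nat_lit 0x18002),.c (nat_lit 0) (nat_lit 0x29483),
    .c (nat_lit 1) (nat_lit 0x10862),.c (nat_lit 0) (nat_lit 0x310864),.c (nat_lit 0) (nat_lit 0x6300002),
    .r (nat_lit 0x174b) (nat_lit 1) [nat_lit 0x200001,nat_lit 0x10001,nat_lit 0x519061],
    .c (nat_lit 0) (nat_lit 0x6318c42),.r (nat_lit 0x17af) (nat_lit 4) [nat_lit 0x10001,nat_lit 0x200001,
    nat_lit 0xc0529061,nat_lit 0xc6318801],.c (nat_lit 0) (nat_lit 0x29483),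
    .r (nat_lit 0x1c17) (nat_lit 1) [nat_lit 0x200001,nat_lit 0x80421441,nat_lit 0x318801],
    .r (nat_lit 0x174b) (nat_lit 1) [nat_lit 0x200001,nat_lit 0x10001,nat_lit 0xc0519061],
    .c (nat_lit 0) (nat_lit 0x4319442),.c (nat_lit 0) (nat_lit 0x318c42),.c (nat_lit 0) (nat_lit 0x739cc4),
    .c (nat_lit 0) (nat_lit 0xa529482),.c (nat_lit 0) (nat_lit 0x6318c42),.c (nat_lit 0) (nat_lit 0x739cc4),
    .c (nat_lit 0) (nat_lit 0x300002),.c (nat_lit 0) (nat_lit 0x300002),.c (nat_lit 0) (nat_lit 0x6300043),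
    .c (nat_lit 3) (nat_lit 0xa500083),.c (nat_lit 0) (nat_lit 0x8210c62),.c (nat_lit 0) (nat_lit 0xc210c62),
    .c (nat_lit 0) (nat_lit 0xc211462),.c (nat_lit 0) (nat_lit 0x10210c62),
    .r (nat_lit 0x1c06) (nat_lit 3) [nat_lit 0x84000c41,nat_lit 0x200001,nat_lit 0x6200861],
    .c (nat_lit 2) (nat_lit 0x10862),.c (nat_lit 0) (nat_lit 0x4010062),.c (nat_lit 3) (nat_lit 0x4020062),
    .c (nat_lit 0) (nat_lit 0x4010062),.c (nat_lit 3) (nat_lit 0x6310043),.c (nat_lit 0) (nat_lit 0x10211462),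
    .c (nat_lit 0) (nat_lit 0x14210c62),.c (nat_lit 0) (nat_lit 0xc210c62),.c (nat_lit 0) (nat_lit 0x4010c62),
    .c (nat_lit 0) (nat_lit 0x18c02),.c (nat_lit 0) (nat_lit 0x4000c02),.c (nat_lit 0) (nat_lit 0x310062),
    .c (nat_lit 0) (nat_lit 0x300c02),.c (nat_lit 0) (nat_lit 0x8319c44),.c (nat_lit 0) (nat_lit 0x4310062),
    .c (nat_lit 0) (nat_lit 0x87200a4),.c (nat_lit 0) (nat_lit 0x18c02),.c (nat_lit 0) (nat_lit 0x319c44),
    .c (nat_lit 0) (nat_lit 0x6300c02),.c (nat_lit 0) (nat_lit 0xa529c82),.c (nat_lit 0) (nat_lit 0x6319442),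
    .c (nat_lit 0) (nat_lit 0x6300043),.c (nat_lit 0) (nat_lit 0x18002),.c (nat_lit 0) (nat_lit 0x6328c42),
    .c (nat_lit 3) (nat_lit 0x10862),.c (nat_lit 0) (nat_lit 0x319cc5),.c (nat_lit 4) (nat_lit 0xc43),
    .c (nat_lit 2) (nat_lit 0x6300843),.c (nat_lit 0) (nat_lit 0x18002),.c (nat_lit 0) (nat_lit 0x6328c42),
    .c (nat_lit 0) (nat_lit 0x310c43),.c (nat_lit 0) (nat_lit 0x318c42),.c (nat_lit 0) (nat_lit 0x8319c44),
    .c (nat_lit 0) (nat_lit 0x29483),.c (nat_lit 4) (nat_lit 0x10862),.c (nat_lit 0) (nat_lit 0x18c43),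
    .c (nat_lit 0) (nat_lit 0x29483),.c (nat_lit 0) (nat_lit 0x6311062),.c (nat_lit 3) (nat_lit 0x330862),
    .c (nat_lit 0) (nat_lit 0x320862),.c (nat_lit 3) (nat_lit 0xc43),.c (nat_lit 0) (nat_lit 0x310862),
    .c (nat_lit 2) (nat_lit 0x18043),.c (nat_lit 0) (nat_lit 0x6300002),.c (nat_lit 0) (nat_lit 0xa518c42),
    .r (nat_lit 0x1b96) (nat_lit 8) [nat_lit 0x10001,nat_lit 65,nat_lit 0x80218061],
    .r (nat_lit 32) (nat_lit 10) [nat_lit 0x300861,nat_lit 0x200001],.c (nat_lit 0) (nat_lit 0x6318c42),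
    .c (nat_lit 0) (nat_lit 0xa739cc4),.c (nat_lit 3) (nat_lit 0x330c43),.c (nat_lit 0) (nat_lit 0x18c43),
    .c (nat_lit 0) (nat_lit 0x29483),.c (nat_lit 2) (nat_lit 0x6018043),.c (nat_lit 0) (nat_lit 0x6318c42),
    .r (nat_lit 0x1c06) (nat_lit 3) [nat_lit 0x4518861,nat_lit 0x200001,nat_lit 0x86610c41],
    .c (nat_lit 0) (nat_lit 0x300002),.r (nat_lit 32) (nat_lit 10) [nat_lit 0xc0300861,nat_lit 0x200001],
    .c (nat_lit 0) (nat_lit 0x318c42),.c (nat_lit 0) (nat_lit 0x739cc4),.c (nat_lit 0) (nat_lit 0x529482),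
    .c (nat_lit 0) (nat_lit 0xe739cc2),.c (nat_lit 0) (nat_lit 0xa529482),.c (nat_lit 0) (nat_lit 0x6318c42),
    .c (nat_lit 0) (nat_lit 0x300002),.c (nat_lit 2) (nat_lit 2),.c (nat_lit 0) (nat_lit 0x4001c02),
    .r (nat_lit 0x1397) (nat_lit 9) [nat_lit 0x100618c41,nat_lit 0x529001,nat_lit 0x140310861,nat_lit 0x310861],
    .c (nat_lit 0) (nat_lit 0x4001402),.c (nat_lit 0) (nat_lit 0x8001c02),.c (nat_lit 0) (nat_lit 0x10202404),
    .c (nat_lit 0) (nat_lit 0x10202404),.c (nat_lit 0) (nat_lit 0x8001402),.c (nat_lit 0) (nat_lit 0x6300043),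
    .c (nat_lit 0) (nat_lit 0x18002),.r (nat_lit 0x1c15) (nat_lit 0) [nat_lit 0x200001,nat_lit 0x10001,
    nat_lit 0x318041],.c (nat_lit 0) (nat_lit 0x18c02),.r (nat_lit 0x1bb4) (nat_lit 1) [nat_lit 0x10061,nat_lit 65,
    nat_lit 0x80218041],.c (nat_lit 0) (nat_lit 0x4001402),.r (nat_lit 0x1c17) (nat_lit 1) [nat_lit 0x200001,
    nat_lit 0x10061,nat_lit 0x318801],.r (nat_lit 0xeb4) (nat_lit 6) [nat_lit 0x600001,nat_lit 0x14a020041,
    nat_lit 0xc6729861,nat_lit 0x108010061],.c (nat_lit 2) (nat_lit 0xa301002),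
    .r (nat_lit 0x174b) (nat_lit 1) [nat_lit 0x200001,nat_lit 0x10001,nat_lit 65],.c (nat_lit 0) (nat_lit 0x4000c02),
    .c (nat_lit 0) (nat_lit 0x6300002),.c (nat_lit 0) (nat_lit 0xc02),.c (nat_lit 0) (nat_lit 0x4000c02),
    .c (nat_lit 0) (nat_lit 0x4000c02),.c (nat_lit 0) (nat_lit 0xa338cc5),.c (nat_lit 1) (nat_lit 0x6018043),
    .c (nat_lit 0) (nat_lit 0x301404),.c (nat_lit 0) (nat_lit 0x4000c02),.c (nat_lit 0) (nat_lit 0xc001c02),
    .c (nat_lit 0) (nat_lit 0x8001402),.c (nat_lit 0) (nat_lit 0x301402),.c (nat_lit 0) (nat_lit 0x300002),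
    .c (nat_lit 0) (nat_lit 0xc001402),.c (nat_lit 0) (nat_lit 0x501402),.c (nat_lit 0) (nat_lit 0x8002402),
    .c (nat_lit 0) (nat_lit 0x18c02),.c (nat_lit 0) (nat_lit 0x6329442),.c (nat_lit 0) (nat_lit 0x4000c02),
    .c (nat_lit 0) (nat_lit 0x4000c02),.c (nat_lit 0) (nat_lit 0x4000c02),.c (nat_lit 1) (nat_lit 0x6028c83),
    .c (nat_lit 0) (nat_lit 0x300c02),.c (nat_lit 0) (nat_lit 0xa519442),.c (nat_lit 0) (nat_lit 0x8000c02),
    .c (nat_lit 0) (nat_lit 0x4000c02),.c (nat_lit 0) (nat_lit 0x300002),.c (nat_lit 0) (nat_lit 0x300c02),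
    .c (nat_lit 0) (nat_lit 0x8000c02),.c (nat_lit 0) (nat_lit 0x8000c02),.c (nat_lit 0) (nat_lit 0xc000c02),
    .c (nat_lit 0) (nat_lit 0x500c02),.c (nat_lit 0) (nat_lit 0xe73a4c2),.c (nat_lit 0) (nat_lit 0x6329442),
    .c (nat_lit 0) (nat_lit 0xa529c82),.c (nat_lit 0) (nat_lit 0x6319442),.c (nat_lit 0) (nat_lit 0xa52a482),
    .c (nat_lit 0) (nat_lit 0xc02),.c (nat_lit 1) (nat_lit 0x18043),.c (nat_lit 0) (nat_lit 0x300c43),
    .c (nat_lit 0) (nat_lit 0x319cc5),.c (nat_lit 0) (nat_lit 0x6300002),.c (nat_lit 0) (nat_lit 0x6028002),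
    .c (nat_lit 3) (nat_lit 0x320002),.c (nat_lit 0) (nat_lit 0x18002),.c (nat_lit 0) (nat_lit 0x18002),
    .c (nat_lit 1) (nat_lit 0xc43),.c (nat_lit 0) (nat_lit 0x18002),.c (nat_lit 0) (nat_lit 0x28002),
    .c (nat_lit 0) (nat_lit 0x6328c42),.c (nat_lit 0) (nat_lit 0x4010003),.c (nat_lit 4) (nat_lit 2),
    .c (nat_lit 0) (nat_lit 0x29483),.c (nat_lit 0) (nat_lit 0x18c43),.c (nat_lit 0) (nat_lit 0x29483),
    .r (nat_lit 75) (nat_lit 3) [nat_lit 0x739861,nat_lit 65,nat_lit 0x200001],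
    .r (nat_lit 0xa21) (nat_lit 4) [nat_lit 0x10c900061,nat_lit 0x400001,nat_lit 0x8900001,nat_lit 0xec00041,
    nat_lit 0x14e820041],.c (nat_lit 0) (nat_lit 0x6310862),.c (nat_lit 2) (nat_lit 0xa300802),
    .c (nat_lit 0) (nat_lit 0x6300002),.c (nat_lit 0) (nat_lit 0x29483),.c (nat_lit 0) (nat_lit 0x6520002),
    .c (nat_lit 2) (nat_lit 0x6300802),.c (nat_lit 0) (nat_lit 0x300002),.c (nat_lit 0) (nat_lit 0x6300002),
    .c (nat_lit 3) (nat_lit 0x6310002),.c (nat_lit 0) (nat_lit 0x300002),.c (nat_lit 0) (nat_lit 0xa518c42),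
    .c (nat_lit 0) (nat_lit 0x318c42),.c (nat_lit 3) (nat_lit 0x4020003),.c (nat_lit 0) (nat_lit 0x4010003),
    .c (nat_lit 0) (nat_lit 0xa739cc4),.c (nat_lit 0) (nat_lit 0xe529482),.c (nat_lit 5) (nat_lit 2),
    .c (nat_lit 0) (nat_lit 0x6318c42),.c (nat_lit 3) (nat_lit 0x310002),.c (nat_lit 0) (nat_lit 0x300002),
    .c (nat_lit 4) (nat_lit 0x4200003),.c (nat_lit 0) (nat_lit 0x8218c45),.c (nat_lit 0) (nat_lit 0x6518c42),
    .c (nat_lit 6) (nat_lit 2),.c (nat_lit 0) (nat_lit 0x739cc4),.c (nat_lit 0) (nat_lit 0x500002),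
    .c (nat_lit 0) (nat_lit 0xe739cc2),.c (nat_lit 0) (nat_lit 0xa529482),.c (nat_lit 0) (nat_lit 0x6318c42),
    .c (nat_lit 0) (nat_lit 0xa529482)]]

/-- nodes -/
noncomputable def rD7k_22_21 : List RJ :=
  [.l (nat_lit 13) (nat_lit 0x5a0) (nat_lit 6) (nat_lit 0x2c2000002c2000002fa0000023e000001fa0000033e000002af000002af000002bc000002bc0000026c0000026c0000028f0000028f) (nat_lit 0x7c0000007c000001000000004400000000000001440000008f0000008f0000008200000082000000d2000000d2000000af000000af)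
    (nat_lit 0x123091830427e16104f824e36712009683e016a109884c48c2460bb09f858413211c91e444c24c0fb07c042621313f09f848c2b605a08084be26b13c09c845024212589142ec18209f09185140fa0e4858c3c41a20a3051839e1b509904f81f420212302d830a11f0cf05782041020c585c45842c214502d067c24616a8abc42c2d61360a182b628f23c8d9c2c626b157847c40c220109881c3ba28310008004721270e4897c5aa185136081845a22d06e87743cc1da126096834427216b057845a20711d07b84201ea18c8c3444c2400f109e042c19e116884c41c23a0f507a85262870f805a828c24214304083ba2830f507a82401c60de86f43ec1f00a308a04d810206e87743d42100cd048037a1bd109884c36a24514785c43b42001438c3437a1bd0f007804262130e7892c2b618b0f308005263190de86f43c01e0)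
    (nat_lit 0x1231680b405a02d01680b405a02d01680b405a02d0168048c2462d01680b405a02d01680b405a02d01680b405a00c105d848c5a02d01680b405a02d01680b405a02d016804fc27e15b0918b405a02d01680b405a02d01680b405a011b08a81681f20d71680b405a02d01680b405a02d0168027c1320b503e816c1ae2d01680b405a02d01680b405a009388e44721c90c289f440c5a02d01680b405a02d0168068e3490e9858c23e2171100818b405a02d01680b405a012008984a41e20cf085842622d11d1680b405a02d016804b424c10906882bc25610388b43dc23a2d01680b405a00f807d836c14608107e83ba0dd10807a82405a02d016802d41f00db05182041fa14187743d41ea0e30480b405a0109884c47e1cf0c5856c4001e615c8a4c37a1bd0f0168042621311286d42e2269100076861a2870de86f43c01e0)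
    (nat_lit 4) (nat_lit 101)
    [[nat_lit 2,nat_lit 18,nat_lit 0x10002,nat_lit 17,nat_lit 33,nat_lit 0x1011,nat_lit 0x10011,nat_lit 0x110011,
    nat_lit 0x100011,nat_lit 0x1000011,nat_lit 0x1001,nat_lit 0x1001001,nat_lit 0x11001,nat_lit 0x111001,
    nat_lit 0x101001,nat_lit 0x10001,nat_lit 0x110001,nat_lit 0x20002,nat_lit 0x10021,nat_lit 0x11011,nat_lit 0x10101,
    nat_lit 0x20001,nat_lit 0x120001,nat_lit 0x1010001,nat_lit 0x100001,nat_lit 0x1000001],[nat_lit 32,nat_lit 48,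
    nat_lit 64,nat_lit 0x110030,nat_lit 288,nat_lit 0x1020,nat_lit 0x111020,nat_lit 0x10020,nat_lit 0x110020,
    nat_lit 0x100020,nat_lit 0x1000020,nat_lit 272,nat_lit 0x10110,nat_lit 0x110110,nat_lit 0x1010,nat_lit 0x111010,
    nat_lit 0x101010,nat_lit 0x1001010,nat_lit 0x1110,nat_lit 0x2010,nat_lit 0x11010,nat_lit 0x1111010,
    nat_lit 0x10010,nat_lit 0x120010,nat_lit 0x20010,nat_lit 0x110010,nat_lit 0x220010,nat_lit 0x210010,
    nat_lit 0x1110010,nat_lit 0x1010010,nat_lit 0x100010,nat_lit 0x1100010,nat_lit 0x200010,nat_lit 0x1000010],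
    [nat_lit 512,nat_lit 0x1100,nat_lit 0x1001100,nat_lit 0x10100,nat_lit 0x110100,nat_lit 0x11100,nat_lit 0x120100,
    nat_lit 0x100100,nat_lit 0x1000100],[nat_lit 0x2000,nat_lit 0x11000,nat_lit 0x111000,nat_lit 0x221000,
    nat_lit 0x101000,nat_lit 0x211000,nat_lit 0x1002000,nat_lit 0x1011000,nat_lit 0x1111000,nat_lit 0x1101000],
    [nat_lit 0x20000,nat_lit 0x120000,nat_lit 0x110000,nat_lit 0x220000,nat_lit 0x330000,nat_lit 0x1220000,
    nat_lit 0x210000,nat_lit 0x1110000,nat_lit 0x1010000],[nat_lit 0x200000,nat_lit 0x1100000],[nat_lit 0x2000000]]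
    [.c (nat_lit 1) (nat_lit 2),.r (nat_lit 0x18b5) (nat_lit 11) [nat_lit 0x2001,nat_lit 0x303201,nat_lit 33,
    nat_lit 0x220031],.r (nat_lit 0x18b4) (nat_lit 4) [nat_lit 0x2001,nat_lit 0x20021,nat_lit 0x50021,
    nat_lit 0x737631],.r (nat_lit 0x174d) (nat_lit 4) [nat_lit 0x222031,nat_lit 33],
    .r (nat_lit 0xed5) (nat_lit 1) [nat_lit 0x303201,nat_lit 33,nat_lit 0x2001,nat_lit 0x422031],
    .c (nat_lit 6) (nat_lit 0x22203),.r (nat_lit 32) (nat_lit 7) [nat_lit 0x3231,nat_lit 0x2001],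
    .c (nat_lit 1) (nat_lit 0x30002),.c (nat_lit 4) (nat_lit 0x22203),.r (nat_lit 0x183a) (nat_lit 4) [nat_lit 0x2001,
    nat_lit 0x220031,nat_lit 0x20001,nat_lit 0x30021],.c (nat_lit 0) (nat_lit 0x3302),.c (nat_lit 0) (nat_lit 770),
    .c (nat_lit 0) (nat_lit 0x3302),.c (nat_lit 0) (nat_lit 0x3302),.c (nat_lit 2) (nat_lit 0x22203),
    .r (nat_lit 0) (nat_lit 13) [nat_lit 0x2001,nat_lit 33],.r (nat_lit 0x1c17) (nat_lit 10) [nat_lit 0x2001,
    nat_lit 0x303231,nat_lit 0x200001],.r (nat_lit 32) (nat_lit 1) [nat_lit 34,nat_lit 0x2001],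
    .r (nat_lit 0x174b) (nat_lit 4) [nat_lit 0x2001,nat_lit 0x303201,nat_lit 0x203231],
    .c (nat_lit 0) (nat_lit 0x3302),.c (nat_lit 0) (nat_lit 0x20232),.r (nat_lit 0x1c18) (nat_lit 6) [nat_lit 0x2001,
    nat_lit 0x33021,nat_lit 0x44021,nat_lit 0x75b631],.r (nat_lit 0x174b) (nat_lit 10) [nat_lit 0x2001,
    nat_lit 0x303201,nat_lit 33],.c (nat_lit 1) (nat_lit 0x2002),.r (nat_lit 0x1bfd) (nat_lit 10) [nat_lit 0x303231,
    nat_lit 0x222031,nat_lit 33],.r (nat_lit 10) (nat_lit 1) [nat_lit 0x300231,nat_lit 33],.c (nat_lit 2) (nat_lit 2),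
    .r (nat_lit 45) (nat_lit 6) [nat_lit 33,nat_lit 0x600031,nat_lit 0x2001],.r (nat_lit 40) (nat_lit 6) [nat_lit 34,
    nat_lit 0x800032,nat_lit 0x2001],.r (nat_lit 40) (nat_lit 6) [nat_lit 0x300021,nat_lit 0x600031,nat_lit 0x2001],
    .r (nat_lit 0xef0) (nat_lit 5) [nat_lit 0x50001,nat_lit 0x4001,nat_lit 0x505401,nat_lit 0x202321],
    .r (nat_lit 0x1b8f) (nat_lit 13) [nat_lit 0x3021,nat_lit 0x303201,nat_lit 0x2001],
    .r (nat_lit 0x1bfd) (nat_lit 10) [nat_lit 0x735221,nat_lit 0x300021,nat_lit 0x422031],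
    .c (nat_lit 0) (nat_lit 0x40003),.c (nat_lit 2) (nat_lit 0x30002),.c (nat_lit 0) (nat_lit 0x40003),
    .r (nat_lit 0x1b8f) (nat_lit 9) [nat_lit 0x3021,nat_lit 0x303201,nat_lit 0x2001],
    .r (nat_lit 0x1b04) (nat_lit 8) [nat_lit 33,nat_lit 0x2001],.r (nat_lit 0x196a) (nat_lit 7) [nat_lit 0x303201,
    nat_lit 0x24321,nat_lit 0x200001],.c (nat_lit 1) (nat_lit 803),.r (nat_lit 0x196a) (nat_lit 7) [nat_lit 0x303201,
    nat_lit 0x300021,nat_lit 0x200001],.c (nat_lit 4) (nat_lit 0x30002),.c (nat_lit 1) (nat_lit 0x22203),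
    .c (nat_lit 0) (nat_lit 770),.r (nat_lit 0x1922) (nat_lit 13) [nat_lit 0x303201,nat_lit 0x2001,nat_lit 0x20231,
    nat_lit 0x30001],.r (nat_lit 0xef4) (nat_lit 7) [nat_lit 0x559421,nat_lit 0x848531,nat_lit 0x4031,
    nat_lit 0x505401],.r (nat_lit 0x1b4a) (nat_lit 5) [nat_lit 0x200031,nat_lit 0x2001,nat_lit 0x303201],
    .c (nat_lit 0) (nat_lit 0x30302),.c (nat_lit 0) (nat_lit 0x20003),.c (nat_lit 5) (nat_lit 0x30002),
    .c (nat_lit 0) (nat_lit 0x40003),.c (nat_lit 0) (nat_lit 0x20003),.c (nat_lit 0) (nat_lit 0x40003),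
    .c (nat_lit 6) (nat_lit 0x30002),.c (nat_lit 4) (nat_lit 0x20203),
    .r (nat_lit 0x174d) (nat_lit 4) [nat_lit 0x202031,nat_lit 0x20021],.c (nat_lit 0) (nat_lit 0x20003),
    .r (nat_lit 0x1b4a) (nat_lit 0) [nat_lit 0x200031,nat_lit 0x2001,nat_lit 0x303201],
    .c (nat_lit 0) (nat_lit 0x40003),.r (nat_lit 0x196a) (nat_lit 1) [nat_lit 0x303201,nat_lit 0x300021,
    nat_lit 0x200001],.c (nat_lit 3) (nat_lit 2),.r (nat_lit 10) (nat_lit 1) [nat_lit 33,nat_lit 0x300231],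
    .c (nat_lit 0) (nat_lit 770),.c (nat_lit 0) (nat_lit 0x33523),.r (nat_lit 8) (nat_lit 5) [nat_lit 0x3231,
    nat_lit 0x224321],.c (nat_lit 4) (nat_lit 0x22432),.r (nat_lit 0x1b47) (nat_lit 1) [nat_lit 0x303201,
    nat_lit 0x333231,nat_lit 0x200001],.r (nat_lit 0) (nat_lit 4) [nat_lit 33,nat_lit 0x2001],
    .c (nat_lit 0) (nat_lit 0x33323),.c (nat_lit 4) (nat_lit 2),.r (nat_lit 0x1bec) (nat_lit 7) [nat_lit 33,
    nat_lit 0x303201],.r (nat_lit 0x1b47) (nat_lit 1) [nat_lit 0x303201,nat_lit 0x2031,nat_lit 0x200001],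
    .r (nat_lit 0x1b8f) (nat_lit 9) [nat_lit 0x400031,nat_lit 0x303201,nat_lit 0x2001],
    .r (nat_lit 8) (nat_lit 5) [nat_lit 0x222031,nat_lit 33],.r (nat_lit 0xed5) (nat_lit 1) [nat_lit 0x303201,
    nat_lit 0x422031,nat_lit 0x2001,nat_lit 33],.c (nat_lit 0) (nat_lit 770),.c (nat_lit 0) (nat_lit 770),
    .c (nat_lit 2) (nat_lit 0x20203),.c (nat_lit 0) (nat_lit 770),.c (nat_lit 5) (nat_lit 2),
    .c (nat_lit 0) (nat_lit 0x40003),.c (nat_lit 0) (nat_lit 0x20003),.c (nat_lit 0) (nat_lit 0x40003),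
    .r (nat_lit 75) (nat_lit 6) [nat_lit 0x600031,nat_lit 33,nat_lit 0x2001],
    .r (nat_lit 0x1b8f) (nat_lit 13) [nat_lit 0x400031,nat_lit 0x303201,nat_lit 0x2001],
    .c (nat_lit 0) (nat_lit 0x40003),.r (nat_lit 0x1bfd) (nat_lit 10) [nat_lit 0x333231,nat_lit 0x202031,
    nat_lit 0x20021],.c (nat_lit 0) (nat_lit 0x3003),.c (nat_lit 6) (nat_lit 2),
    .r (nat_lit 0x1bec) (nat_lit 1) [nat_lit 33,nat_lit 0x303201],.c (nat_lit 7) (nat_lit 2)]]

/-- nodes -/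
noncomputable def rD7k_22_22 : List RJ :=
  [.l (nat_lit 15) (nat_lit 0x12f0) (nat_lit 7) (nat_lit 0x91a000008d400000a720000085c00000b76000007d0000008580000096e0000098a000008ec00000ae4000009a2000005aa0000091c) (nat_lit 0x2a20000025c0000031a00000104000003a600000000000002080000031e0000028a000001ec000001d4000000920000025a000005cc)
    (nat_lit 0xcf01af8300077e122832e838905fc09201cb841b09a80d800978319067808441f4031b09dc0d9816d81a103d012902ae838902b00fa01df8328096e0d9830285c1064c0ae0221847b0ce81030097821106000a84194025b085c0ca817f85350d800bb00ea8131029013b832e842e0c0a0e202dd812f08581a1826284d1064c1238196831b0914096c1b3021507100a1012c84b305e4067809782bb04c40b6c17f02ff064c09642160328053a155c1cb01e203a604bc153036607120ca82e08284025e170c194031a078211f4237038a02f207a01cb86c008860bc826283c1072c0e000df843309a80e6009781a1049014d415c04b30d0c0c682ab843907000e3021682b90320157426a01d50ce804bc193046e03a610b426a04880842151414604a408360bb023d819e09a211f40f1038c086604bc244041c03d605600978148025e09881968179054c064009781eb051804c0153838906c004c420602bb091c0e2809782b9073010702a283610260)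
    (nat_lit 0xcf04bc097812f025e04bc097812f025e04bc097812f025e04bc035f067825e04bc097812f025e04bc097812f025e04bc097812f00c00108832812f025e04bc097812f025e04bc097812f025e04bc03bf07d012dc194097812f025e04bc097812f025e04bc097812f0122818d836604b60e204bc097812f025e04bc097812f025e04bc065d09dc181421705bb071025e04bc097812f025e04bc097812f00e241b30495065404bc142032812f025e04bc097812f025e04bc02fe05b60c9817f83cc04b20a74194097812f025e04bc097812f009200d082b808b21738259849f06340e004bc097812f025e04bc039703d0110c27404c505e40e581e081bf070025e04bc097812f0106c252047b05d80c440cf01e2059a10cc1c6044012f025e04bc04d40a7216100ea8302025e074c12f04d4085a1084220097812f00d801c4840c0262097815d812f07140e6015c838d07f804c04bc012f02b004bc0a4032d04c40a980bc812f03200a300f582770260)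
    (nat_lit 5) (nat_lit 0x4c7)
    [[nat_lit 2,nat_lit 3,nat_lit 4,nat_lit 5,nat_lit 6,nat_lit 7,nat_lit 0x1006,nat_lit 0x100006,nat_lit 261,
    nat_lit 0x1005,nat_lit 0x100005,nat_lit 260,nat_lit 0x1000104,nat_lit 0x1004,nat_lit 0x2005,nat_lit 0x101005,
    nat_lit 0x1104,nat_lit 0x2004,nat_lit 0x11004,nat_lit 0x11014,nat_lit 0x101004,nat_lit 0x1001004,nat_lit 0x100004,
    nat_lit 0x200005,nat_lit 0x100104,nat_lit 0x200004,nat_lit 0x1000004,nat_lit 19,nat_lit 259,nat_lit 0x1000103,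
    nat_lit 515,nat_lit 0x1003,nat_lit 0x1103,nat_lit 0x2003,nat_lit 0x11003,nat_lit 0x11013,nat_lit 0x12013,
    nat_lit 0x111013,nat_lit 0x11103,nat_lit 0x12003,nat_lit 0x111003,nat_lit 0x1011003,nat_lit 0x101003,
    nat_lit 0x1001003,nat_lit 0x10003,nat_lit 0x100003,nat_lit 0x100103,nat_lit 0x1100103,nat_lit 0x200003,
    nat_lit 0x1100003,nat_lit 0x1000003,nat_lit 18,nat_lit 0x1012,nat_lit 0x100012,nat_lit 258,nat_lit 0x100102,
    nat_lit 0x1000102,nat_lit 514,nat_lit 0x1000202,nat_lit 0x1102,nat_lit 0x1002,nat_lit 0x3004,nat_lit 0x102004,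
    nat_lit 0x2103,nat_lit 0x102003,nat_lit 0x201004,nat_lit 0x101103,nat_lit 0x201003,nat_lit 0x1001102,
    nat_lit 0x1202,nat_lit 0x2002,nat_lit 0x12002,nat_lit 0x11002,nat_lit 0x11012,nat_lit 0x11022,nat_lit 0x12022,
    nat_lit 0x111022,nat_lit 0x12012,nat_lit 0x111012,nat_lit 0x11102,nat_lit 0x1011102,nat_lit 0x21002,
    nat_lit 0x111002,nat_lit 0x1011002,nat_lit 0x101002,nat_lit 0x101102,nat_lit 0x1001002,nat_lit 0x1101002,
    nat_lit 0x1101003,nat_lit 0x10002,nat_lit 0x10012,nat_lit 0x110002,nat_lit 0x100002,nat_lit 0x200002,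
    nat_lit 0x1100002,nat_lit 0x300004,nat_lit 0x200103,nat_lit 0x300003,nat_lit 0x1100102,nat_lit 0x100202,
    nat_lit 0x200102,nat_lit 0x1200002,nat_lit 0x1000002,nat_lit 0x2000102,nat_lit 0x2000002,nat_lit 17,nat_lit 33,
    nat_lit 0x1011,nat_lit 0x100011,nat_lit 0x10011,nat_lit 0x11011,nat_lit 257,nat_lit 513,nat_lit 0x1101,
    nat_lit 0x100101,nat_lit 0x1000101,nat_lit 0x1000201,nat_lit 0x1100101,nat_lit 0x11112,nat_lit 0x100201,
    nat_lit 0x10101,nat_lit 0x1001101,nat_lit 0x2000101,nat_lit 0x1001,nat_lit 0x3003,nat_lit 0x2102,nat_lit 0x3002,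
    nat_lit 0x13002,nat_lit 0x112002,nat_lit 0x1012002,nat_lit 0x102002,nat_lit 0x1002002,nat_lit 0x201002,
    nat_lit 0x1021,nat_lit 0x2011,nat_lit 0x101011,nat_lit 0x101101,nat_lit 0x1201,nat_lit 0x1001201,nat_lit 0x2101,
    nat_lit 0x2001,nat_lit 0x3001,nat_lit 0x12001,nat_lit 0x12011,nat_lit 0x13001,nat_lit 0x112001,nat_lit 0x102001,
    nat_lit 0x1002001,nat_lit 0x11001,nat_lit 0x11021,nat_lit 0x12021,nat_lit 0x21021,nat_lit 0x111021,
    nat_lit 0x11111,nat_lit 0x112012,nat_lit 0x22011,nat_lit 0x21011,nat_lit 0x111011,nat_lit 0x1011011,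
    nat_lit 0x211012,nat_lit 0x11101,nat_lit 0x111102,nat_lit 0x111101,nat_lit 0x1011101,nat_lit 0x12101,
    nat_lit 0x22001,nat_lit 0x122001,nat_lit 0x1012001,nat_lit 0x12102,nat_lit 0x21001,nat_lit 0x121001,
    nat_lit 0x122002,nat_lit 0x1022002,nat_lit 0x111001,nat_lit 0x211002,nat_lit 0x1111001,nat_lit 0x211001,
    nat_lit 0x1011001,nat_lit 0x1111002,nat_lit 0x101001,nat_lit 0x201001,nat_lit 0x1101001,nat_lit 0x1001001,
    nat_lit 0x2001101,nat_lit 0x2001001,nat_lit 0x10001,nat_lit 0x110011,nat_lit 0x110001,nat_lit 0x1010001,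
    nat_lit 0x20001,nat_lit 0x100001,nat_lit 0x200001,nat_lit 0x1100001,nat_lit 0x1200102,nat_lit 0x300002,
    nat_lit 0x200011,nat_lit 0x200101,nat_lit 0x1100201,nat_lit 0x1200001,nat_lit 0x300001,nat_lit 0x2100001,
    nat_lit 0x1000001,nat_lit 0x2000001],[nat_lit 32,nat_lit 0x11020,nat_lit 0x10020,nat_lit 0x1020,nat_lit 0x12020,
    nat_lit 0x22020,nat_lit 0x21020,nat_lit 0x111020,nat_lit 0x20020,nat_lit 272,nat_lit 0x1110,nat_lit 0x100110,
    nat_lit 0x1010,nat_lit 0x12010,nat_lit 0x11010,nat_lit 0x22010,nat_lit 0x21010,nat_lit 0x111010,nat_lit 0x10010,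
    nat_lit 0x20010,nat_lit 0x100010,nat_lit 0x1011010,nat_lit 0x1001010],[nat_lit 512,nat_lit 0x1000200,
    nat_lit 0x1000300,nat_lit 0x1100,nat_lit 0x1001100,nat_lit 0x1100100,nat_lit 0x1100200,nat_lit 0x1000100,
    nat_lit 0x2000200,nat_lit 0x1011100,nat_lit 0x2000100],[nat_lit 0x2000,nat_lit 0x12000,nat_lit 0x11000,
    nat_lit 0x22000,nat_lit 0x21000,nat_lit 0x111000,nat_lit 0x1011000,nat_lit 0x101000,nat_lit 0x1001000,
    nat_lit 0x1101000],[nat_lit 0x20000,nat_lit 0x110000],[nat_lit 0x200000,nat_lit 0x1200000,nat_lit 0x1100000,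
    nat_lit 0x2100000],[nat_lit 0x2000000]]
    [.c (nat_lit 1) (nat_lit 2),.r (nat_lit 45) (nat_lit 3) [nat_lit 65,nat_lit 0x739861,nat_lit 0x200001],
    .r (nat_lit 40) (nat_lit 3) [nat_lit 66,nat_lit 0x94a062,nat_lit 0x200001],
    .r (nat_lit 0xeb5) (nat_lit 4) [nat_lit 0x50001,nat_lit 0x294a02c41,nat_lit 0xb5a861,nat_lit 0x2d6002861],
    .r (nat_lit 75) (nat_lit 3) [nat_lit 66,nat_lit 0xd6b062,nat_lit 0x200001],
    .r (nat_lit 0x9ec) (nat_lit 4) [nat_lit 0x70001,nat_lit 0x39ce03c41,nat_lit 0x1ef73861,nat_lit 0x1c0e8001,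
    nat_lit 0x3de003861],.r (nat_lit 0x9ed) (nat_lit 4) [nat_lit 0x314063441,nat_lit 0x800001,nat_lit 0x514963441,
    nat_lit 0x65a0ce0a1,nat_lit 0x35602b061],.r (nat_lit 0x9ee) (nat_lit 4) [nat_lit 0x318363441,nat_lit 0xc00001,
    nat_lit 0x618f63441,nat_lit 0x65a4ce0a1,nat_lit 0x35a203061],.r (nat_lit 0x9ef) (nat_lit 12) [nat_lit 0x40001,
    nat_lit 0x2d605a861,nat_lit 0x10000001,nat_lit 0xd695a861,nat_lit 0x294852c41],
    .r (nat_lit 0x9f0) (nat_lit 4) [nat_lit 0x290052c41,nat_lit 0x600001,nat_lit 0x410752c41,nat_lit 0x5560ad0a1,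
    nat_lit 0x2d202a861],.r (nat_lit 0x9f1) (nat_lit 4) [nat_lit 0x294352c41,nat_lit 0xa00001,nat_lit 0x514d52c41,
    nat_lit 0x5564ad0a1,nat_lit 0x2d6202861],.r (nat_lit 0x9f2) (nat_lit 12) [nat_lit 0x30001,nat_lit 0x25204a061,
    nat_lit 0xc000001,nat_lit 0xd274a061,nat_lit 0x210642441],.c (nat_lit 0) (nat_lit 0x4018002),
    .r (nat_lit 0x9f3) (nat_lit 4) [nat_lit 0x20c042441,nat_lit 0x400001,nat_lit 0x30c542441,nat_lit 0x45208c0a1,
    nat_lit 0x24e02a061],.r (nat_lit 0x9f4) (nat_lit 4) [nat_lit 0x28c052c41,nat_lit 0x200001,nat_lit 0x30c352c41,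
    nat_lit 0x5560ad0a1,nat_lit 0x2ce04a861],.r (nat_lit 0x174b) (nat_lit 1) [nat_lit 0x200001,nat_lit 0x10001,
    nat_lit 0x86b2a863],.r (nat_lit 0x9f5) (nat_lit 4) [nat_lit 0x20c042441,nat_lit 0x400001,nat_lit 0x30c542441,
    nat_lit 0x45208c0a1,nat_lit 0x24e02a061],.c (nat_lit 3) (nat_lit 0x12502503),
    .r (nat_lit 75) (nat_lit 3) [nat_lit 0x210c41,nat_lit 0x94a061,nat_lit 0x200001],
    .r (nat_lit 0x9f5) (nat_lit 4) [nat_lit 0x18c232441,nat_lit 0x400001,nat_lit 0x28c332441,nat_lit 0x35256c0a1,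
    nat_lit 0x1ce31a061],.r (nat_lit 0x9f6) (nat_lit 4) [nat_lit 0x20c342441,nat_lit 0x400001,nat_lit 0x30c742441,
    nat_lit 0x45248c0a1,nat_lit 0x24e22a061],.r (nat_lit 0x9f7) (nat_lit 4) [nat_lit 0x20c042441,nat_lit 0x600001,
    nat_lit 0x38c742441,nat_lit 0x44e08c0a1,nat_lit 0x24e01a061],.r (nat_lit 0x9f8) (nat_lit 4) [nat_lit 0x210342441,
    nat_lit 0x800001,nat_lit 0x410b42441,nat_lit 0x45248c0a1,nat_lit 0x252202061],
    .r (nat_lit 0x9f9) (nat_lit 4) [nat_lit 0x294552c41,nat_lit 0xa00001,nat_lit 0x514f52c41,nat_lit 0x5568ad0a1,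
    nat_lit 0x2d6402861],.c (nat_lit 0) (nat_lit 0x18002),.r (nat_lit 0x9f5) (nat_lit 4) [nat_lit 0x210542442,
    nat_lit 0x400001,nat_lit 0x410d42442,nat_lit 0x24a44a061,nat_lit 0x252402062],
    .r (nat_lit 0x9ef) (nat_lit 12) [nat_lit 0x40001,nat_lit 0x25204a061,nat_lit 0x10000001,nat_lit 0x1294a061,
    nat_lit 0x210842441],.r (nat_lit 0x1b8f) (nat_lit 12) [nat_lit 0x84000c41,nat_lit 0x10001,nat_lit 0x200001],
    .r (nat_lit 0xeb4) (nat_lit 6) [nat_lit 0x600001,nat_lit 0x1ce501861,nat_lit 0x300041,nat_lit 0x18c431c41],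
    .c (nat_lit 0) (nat_lit 0x4018002),.c (nat_lit 0) (nat_lit 0x8218862),
    .r (nat_lit 0xeb6) (nat_lit 4) [nat_lit 0x30001,nat_lit 0x18c601c41,nat_lit 0x739861,nat_lit 0x1ce001861],
    .r (nat_lit 0x174b) (nat_lit 1) [nat_lit 0x200001,nat_lit 0x10001,nat_lit 0xc6529861],
    .r (nat_lit 0x9fa) (nat_lit 5) [nat_lit 0x146339861,nat_lit 0x30c063481,nat_lit 0x184041c41,nat_lit 0x24a04a061,
    nat_lit 0x1c6039861],.r (nat_lit 40) (nat_lit 3) [nat_lit 0x210c41,nat_lit 0x739861,nat_lit 0x200001],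
    .r (nat_lit 0x174b) (nat_lit 1) [nat_lit 0x200001,nat_lit 0x10001,nat_lit 0x6719861],
    .r (nat_lit 0x1c06) (nat_lit 0) [nat_lit 0xc6729861,nat_lit 0x200001,nat_lit 0x104631c41],
    .c (nat_lit 0) (nat_lit 0x6000c02),.c (nat_lit 0) (nat_lit 0x82118e4),.c (nat_lit 3) (nat_lit 0xa319cc3),
    .r (nat_lit 0x9f5) (nat_lit 4) [nat_lit 0x108031c41,nat_lit 0x400001,nat_lit 0x208531c41,nat_lit 0x24a06b0a1,
    nat_lit 0x14a019861],.c (nat_lit 0) (nat_lit 0x310864),.r (nat_lit 0x9fb) (nat_lit 4) [nat_lit 0x188331c41,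
    nat_lit 0x200001,nat_lit 0x208531c41,nat_lit 0x34e46b0a1,nat_lit 0x1ca229861],
    .r (nat_lit 0x9f5) (nat_lit 4) [nat_lit 0x188031c41,nat_lit 0x400001,nat_lit 0x288531c41,nat_lit 0x34a06b0a1,
    nat_lit 0x1ca019861],.r (nat_lit 4) (nat_lit 13) [nat_lit 0x146339862,nat_lit 0x4210c42],
    .r (nat_lit 0x9fc) (nat_lit 4) [nat_lit 0x18c331c41,nat_lit 0x600001,nat_lit 0x30c931c41,nat_lit 0x34e46b0a1,
    nat_lit 0x1ce201861],.c (nat_lit 0) (nat_lit 0x18002),.c (nat_lit 0) (nat_lit 0x18002),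
    .r (nat_lit 0x9fd) (nat_lit 4) [nat_lit 0x10001,nat_lit 0x4000001,nat_lit 0x14a529041,nat_lit 0x1ce439861,
    nat_lit 0x10e739861],.c (nat_lit 0) (nat_lit 0x6318c42),.r (nat_lit 0x9f2) (nat_lit 12) [nat_lit 0x30001,
    nat_lit 0x1ce039861,nat_lit 0xc000001,nat_lit 0xe739861,nat_lit 0x18c631c41],
    .r (nat_lit 0x196a) (nat_lit 5) [nat_lit 0x10001,nat_lit 0x84411441,nat_lit 0x318801],
    .r (nat_lit 0x13a2) (nat_lit 1) [nat_lit 0x600001,nat_lit 0x80719061,nat_lit 0x100041441,nat_lit 0xc0028841],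
    .r (nat_lit 0x18ee) (nat_lit 1) [nat_lit 0x84200c41,nat_lit 0xc0000001,nat_lit 0x80010001,nat_lit 0x1ca319061],
    .r (nat_lit 4) (nat_lit 13) [nat_lit 0x146029061,nat_lit 0x84010c41],.c (nat_lit 0) (nat_lit 0x18002),
    .c (nat_lit 0) (nat_lit 0x4018002),.c (nat_lit 2) (nat_lit 0xa500083),.c (nat_lit 0) (nat_lit 0x10238864),
    .c (nat_lit 3) (nat_lit 0xa301483),.c (nat_lit 0) (nat_lit 0x29483),
    .r (nat_lit 0x9ff) (nat_lit 0) [nat_lit 0x400001,nat_lit 0x24604a061,nat_lit 0x34e06b061,nat_lit 0x204062441,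
    nat_lit 0x410084481],.r (nat_lit 0xa00) (nat_lit 0) [nat_lit 0x208842441,nat_lit 0x50001,nat_lit 0xce340841,
    nat_lit 0x24a24a061,nat_lit 0x140a8001],.r (nat_lit 0x1c06) (nat_lit 0) [nat_lit 0x146539861,nat_lit 0x200001,
    nat_lit 0x184441c41],.r (nat_lit 0xa01) (nat_lit 5) [nat_lit 0x104d6b0a1,nat_lit 0x34e46b0a1,nat_lit 0x12080001,
    nat_lit 0x146529081,nat_lit 0x10000001],.r (nat_lit 0xa02) (nat_lit 4) [nat_lit 0x20c542441,nat_lit 0x400001,
    nat_lit 0x30c942441,nat_lit 0x45288c0a1,nat_lit 0x24e42a061],.c (nat_lit 0) (nat_lit 0x18002),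
    .r (nat_lit 0xa03) (nat_lit 4) [nat_lit 0x188531c41,nat_lit 0x200001,nat_lit 0x208731c41,nat_lit 0x34e86b0a1,
    nat_lit 0x1ca429861],.c (nat_lit 0) (nat_lit 0x4000862),.c (nat_lit 0) (nat_lit 0x82010a2),
    .c (nat_lit 0) (nat_lit 0x29483),.c (nat_lit 0) (nat_lit 0x29483),.c (nat_lit 1) (nat_lit 0x10862),
    .c (nat_lit 3) (nat_lit 0x6318c83),.c (nat_lit 5) (nat_lit 0x328083),.c (nat_lit 0) (nat_lit 0x210c62),
    .c (nat_lit 0) (nat_lit 0xa202404),.r (nat_lit 0x1bfd) (nat_lit 6) [nat_lit 0x529061,nat_lit 0x84411441,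
    nat_lit 0x10001],.c (nat_lit 0) (nat_lit 0x6000c02),.c (nat_lit 2) (nat_lit 0x6318c83),
    .c (nat_lit 0) (nat_lit 0x40110a2),.c (nat_lit 0) (nat_lit 0x29483),
    .r (nat_lit 0x174b) (nat_lit 1) [nat_lit 0x200001,nat_lit 0x10001,nat_lit 0x80519061],
    .c (nat_lit 0) (nat_lit 0x310864),.c (nat_lit 3) (nat_lit 0xa311483),.c (nat_lit 0) (nat_lit 0x18002),
    .r (nat_lit 0x174b) (nat_lit 1) [nat_lit 0x200001,nat_lit 0x10001,nat_lit 0x519061],
    .c (nat_lit 0) (nat_lit 0x6318c42),.c (nat_lit 0) (nat_lit 0x6318c42),.c (nat_lit 0) (nat_lit 0x29483),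
    .r (nat_lit 4) (nat_lit 13) [nat_lit 0xc6319061,nat_lit 0x4200c41],
    .r (nat_lit 0xeb4) (nat_lit 6) [nat_lit 0x600001,nat_lit 0xca511061,nat_lit 0x146318841,nat_lit 0x88421441],
    .r (nat_lit 0x1b8f) (nat_lit 12) [nat_lit 0x300041,nat_lit 0x10001,nat_lit 0x200001],
    .r (nat_lit 0x174b) (nat_lit 1) [nat_lit 0x200001,nat_lit 0x10001,nat_lit 0x100501062],
    .c (nat_lit 0) (nat_lit 0x6318c42),.r (nat_lit 0xa04) (nat_lit 4) [nat_lit 0x210742441,nat_lit 0x800001,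
    nat_lit 0x410f42441,nat_lit 0x452c8c0a1,nat_lit 0x252602061],.c (nat_lit 0) (nat_lit 0x6328c42),
    .r (nat_lit 0xa05) (nat_lit 4) [nat_lit 0x18c731c41,nat_lit 0x600001,nat_lit 0x30cd31c41,nat_lit 0x34ec6b0a1,
    nat_lit 0x1ce601861],.c (nat_lit 0) (nat_lit 0x18002),.c (nat_lit 0) (nat_lit 0x4218862),
    .c (nat_lit 0) (nat_lit 0x6328c42),.c (nat_lit 0) (nat_lit 0xa529482),
    .r (nat_lit 0xeb4) (nat_lit 6) [nat_lit 0x600001,nat_lit 0x14a511061,nat_lit 0xc6318841,nat_lit 0x108421441],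
    .c (nat_lit 0) (nat_lit 0x8338c44),.c (nat_lit 0) (nat_lit 0x318c42),.c (nat_lit 0) (nat_lit 0x6300043),
    .c (nat_lit 0) (nat_lit 0x318843),.c (nat_lit 0) (nat_lit 0x338cc5),.c (nat_lit 3) (nat_lit 0x6310043),
    .c (nat_lit 0) (nat_lit 0x318843),.c (nat_lit 2) (nat_lit 0x10862),.c (nat_lit 0) (nat_lit 0x6300043),
    .c (nat_lit 0) (nat_lit 0x8218862),.c (nat_lit 2) (nat_lit 0x4001062),.c (nat_lit 0) (nat_lit 0x18002),
    .c (nat_lit 2) (nat_lit 0x6300843),.c (nat_lit 0) (nat_lit 0x8218862),.c (nat_lit 0) (nat_lit 0x18002),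
    .c (nat_lit 0) (nat_lit 0x42108a2),.c (nat_lit 0) (nat_lit 0x28002),
    .r (nat_lit 0x1bfd) (nat_lit 6) [nat_lit 0x84000c41,nat_lit 0x18861,nat_lit 0x10001],
    .c (nat_lit 0) (nat_lit 0x4000862),.c (nat_lit 0) (nat_lit 0x8338c44),.c (nat_lit 0) (nat_lit 0x18c43),
    .r (nat_lit 0xa06) (nat_lit 11) [nat_lit 0x1c0039861,nat_lit 0x34e06b061,nat_lit 0x180061c41,nat_lit 0x30c063481,
    nat_lit 0x739861],.r (nat_lit 0x1bfd) (nat_lit 6) [nat_lit 0xc0339061,nat_lit 0x104221441,nat_lit 0x10001],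
    .r (nat_lit 0xa07) (nat_lit 3) [nat_lit 0x146821441,nat_lit 0x6441441,nat_lit 0xd6b0a1,nat_lit 0x4529061,
    nat_lit 0x104529061],.r (nat_lit 0x1c1a) (nat_lit 1) [nat_lit 0x200001,nat_lit 0xc0529061,nat_lit 0x318801],
    .r (nat_lit 0x1c06) (nat_lit 0) [nat_lit 0x529061,nat_lit 0x200001,nat_lit 0x80431441],
    .c (nat_lit 0) (nat_lit 0x310862),.r (nat_lit 0xa08) (nat_lit 0) [nat_lit 0x400001,nat_lit 0x140229061,
    nat_lit 0x24a24a061,nat_lit 0x100341441,nat_lit 0x208542481],.r (nat_lit 0x1c06) (nat_lit 0) [nat_lit 0xc0529061,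
    nat_lit 0x200001,nat_lit 0x100431441],.r (nat_lit 0xa09) (nat_lit 0) [nat_lit 0x104421441,nat_lit 0x8000001,
    nat_lit 0x146529041,nat_lit 0xa040001,nat_lit 0x146429061],.r (nat_lit 0x1c1a) (nat_lit 1) [nat_lit 0x200001,
    nat_lit 0xc6310861,nat_lit 0x318801],.r (nat_lit 0x109a) (nat_lit 9) [nat_lit 0x2ce34a861,nat_lit 0x108401481,
    nat_lit 0x184300861,nat_lit 0xc4300861],.r (nat_lit 0xa0a) (nat_lit 11) [nat_lit 0x4000001,nat_lit 0xc0328841,
    nat_lit 0x6020001,nat_lit 0xc6200861,nat_lit 0x80300861],.c (nat_lit 5) (nat_lit 0xc43),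
    .c (nat_lit 1) (nat_lit 0xa301483),.c (nat_lit 0) (nat_lit 0x4000862),
    .r (nat_lit 0x1b4d) (nat_lit 7) [nat_lit 0x80010c41,nat_lit 0x200001,nat_lit 0x10001],
    .c (nat_lit 0) (nat_lit 0x29483),.r (nat_lit 0xa0b) (nat_lit 7) [nat_lit 0x8358861,nat_lit 0x8a260c41,
    nat_lit 0x10001,nat_lit 0xe060041,nat_lit 0xc8068861],.c (nat_lit 2) (nat_lit 0x311862),
    .r (nat_lit 0x1b4d) (nat_lit 7) [nat_lit 0x200c41,nat_lit 0x200001,nat_lit 0x10001],
    .r (nat_lit 0xa0c) (nat_lit 4) [nat_lit 0x8318861,nat_lit 0x800001,nat_lit 0x208b18861,nat_lit 0x421481,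
    nat_lit 0xa250c41],.r (nat_lit 0x1bfd) (nat_lit 6) [nat_lit 0x84328861,nat_lit 0x210c41,nat_lit 0x10001],
    .r (nat_lit 0x196b) (nat_lit 6) [nat_lit 0x200001,nat_lit 0x104518861,nat_lit 0xc4218861,nat_lit 0x86340c41],
    .r (nat_lit 0x1bfd) (nat_lit 6) [nat_lit 0x4328861,nat_lit 0x80210c41,nat_lit 0x10001],
    .c (nat_lit 0) (nat_lit 0x18c43),.c (nat_lit 0) (nat_lit 0x210c62),.c (nat_lit 0) (nat_lit 0x210c62),
    .c (nat_lit 1) (nat_lit 0x328083),.c (nat_lit 0) (nat_lit 0xa202404),.c (nat_lit 1) (nat_lit 0x6318c83),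
    .c (nat_lit 5) (nat_lit 0x4028c83),.r (nat_lit 4) (nat_lit 13) [nat_lit 0xc0400c41,nat_lit 0x519061],
    .c (nat_lit 3) (nat_lit 0x6020062),.c (nat_lit 5) (nat_lit 0x4018043),.c (nat_lit 0) (nat_lit 0x10062),
    .c (nat_lit 0) (nat_lit 0x1232a484),.c (nat_lit 3) (nat_lit 0x10862),.c (nat_lit 0) (nat_lit 0x862),
    .c (nat_lit 0) (nat_lit 0x862),.c (nat_lit 0) (nat_lit 0x4000862),.r (nat_lit 4) (nat_lit 13) [nat_lit 0x210c41,
    nat_lit 0xc0329061],.c (nat_lit 0) (nat_lit 0x29483),.c (nat_lit 0) (nat_lit 0x6311062),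
    .c (nat_lit 0) (nat_lit 0x311062),.c (nat_lit 0) (nat_lit 0x40118a2),.c (nat_lit 5) (nat_lit 0x10862),
    .c (nat_lit 2) (nat_lit 0x4018043),.c (nat_lit 0) (nat_lit 0x6310862),.c (nat_lit 0) (nat_lit 0x6310862),
    .c (nat_lit 3) (nat_lit 0xc43),.c (nat_lit 0) (nat_lit 0xa318c42),.c (nat_lit 0) (nat_lit 0x6300002),
    .c (nat_lit 0) (nat_lit 0xa318c42),.c (nat_lit 2) (nat_lit 0x18043),.c (nat_lit 0) (nat_lit 0x6300002),
    .r (nat_lit 0x13a2) (nat_lit 1) [nat_lit 0x600001,nat_lit 0x104518861,nat_lit 0x86340c41,nat_lit 0x146329041],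
    .r (nat_lit 0xa0e) (nat_lit 5) [nat_lit 0x218861,nat_lit 0x104921481,nat_lit 0x80520c41,nat_lit 0x146429061,
    nat_lit 0xc0418861],.c (nat_lit 0) (nat_lit 0x6318c42),.c (nat_lit 3) (nat_lit 0x6000c43),
    .c (nat_lit 0) (nat_lit 0x318002),.c (nat_lit 0) (nat_lit 0x300002),.c (nat_lit 0) (nat_lit 0x318843),
    .c (nat_lit 0) (nat_lit 0x6000c02),.r (nat_lit 4) (nat_lit 13) [nat_lit 0x18861,nat_lit 0xc0000041],
    .r (nat_lit 0x1b4d) (nat_lit 7) [nat_lit 0x318861,nat_lit 0x200001,nat_lit 0x10001],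
    .c (nat_lit 0) (nat_lit 0x29483),.r (nat_lit 0x196a) (nat_lit 5) [nat_lit 0x10001,nat_lit 0x210c41,
    nat_lit 0x318801],.r (nat_lit 0x18ee) (nat_lit 1) [nat_lit 65,nat_lit 0xc0000001,nat_lit 0x80010001,
    nat_lit 0x146018861],.c (nat_lit 0) (nat_lit 0x6318c42),.c (nat_lit 0) (nat_lit 0x6328c42),
    .r (nat_lit 0xa0f) (nat_lit 4) [nat_lit 0x108721441,nat_lit 0x400001,nat_lit 0x208b21441,nat_lit 0x24ac4a0a1,
    nat_lit 0x14a601061],.r (nat_lit 0xa10) (nat_lit 0) [nat_lit 0x84200c41,nat_lit 0x30001,nat_lit 0x14a501041,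
    nat_lit 0xc6400861,nat_lit 0xc068001],.c (nat_lit 0) (nat_lit 0x6328c42),.c (nat_lit 0) (nat_lit 0x6338c42),
    .c (nat_lit 0) (nat_lit 0xa529482),.r (nat_lit 0xa11) (nat_lit 4) [nat_lit 0x84710c41,nat_lit 0x200001,
    nat_lit 0x104910c41,nat_lit 0x146c290a1,nat_lit 0xc6600861],.c (nat_lit 0) (nat_lit 0x6318c42),
    .r (nat_lit 4) (nat_lit 13) [nat_lit 0xc0018861,nat_lit 65],.c (nat_lit 0) (nat_lit 0x318c42),
    .c (nat_lit 2) (nat_lit 2),.r (nat_lit 0xa12) (nat_lit 13) [nat_lit 0x310861,nat_lit 0x84020061,nat_lit 0x6028041,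
    nat_lit 0x4000001,nat_lit 0xc6228041],.c (nat_lit 0) (nat_lit 0x318843),
    .r (nat_lit 0xa0c) (nat_lit 4) [nat_lit 0x4020061,nat_lit 0x800001,nat_lit 0x204920061,nat_lit 0x8048081,
    nat_lit 0x6020041],.r (nat_lit 0xa13) (nat_lit 13) [nat_lit 0x4310861,nat_lit 0x88020061,nat_lit 0xa028041,
    nat_lit 0x4000001,nat_lit 0xca228041],.r (nat_lit 4) (nat_lit 13) [nat_lit 0x140428042,nat_lit 0x501062],
    .r (nat_lit 40) (nat_lit 3) [nat_lit 0x6501061,nat_lit 0x4028041,nat_lit 0x200001],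
    .c (nat_lit 0) (nat_lit 0xa202404),.c (nat_lit 3) (nat_lit 0xa021402),.c (nat_lit 0) (nat_lit 0x6300043),
    .r (nat_lit 0xa12) (nat_lit 13) [nat_lit 0xc0000861,nat_lit 0x4210061,nat_lit 0x86318041,nat_lit 0x4000001,
    nat_lit 0x6018041],.c (nat_lit 0) (nat_lit 0x18002),.c (nat_lit 2) (nat_lit 0x301002),
    .r (nat_lit 0x1b4e) (nat_lit 6) [nat_lit 0x80010061,nat_lit 0x10001,nat_lit 0xc0218041,nat_lit 0x6310861],
    .c (nat_lit 0) (nat_lit 0x338cc5),.r (nat_lit 0xeb4) (nat_lit 6) [nat_lit 0x600001,nat_lit 0x14a020041,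
    nat_lit 0xc6729861,nat_lit 0x108010061],.r (nat_lit 0x174b) (nat_lit 1) [nat_lit 0x200001,nat_lit 0x10001,
    nat_lit 65],.c (nat_lit 0) (nat_lit 0x6000c02),.c (nat_lit 0) (nat_lit 0x318043),
    .r (nat_lit 0x1c06) (nat_lit 0) [nat_lit 0xc0018041,nat_lit 0x200001,nat_lit 0x100020061],
    .c (nat_lit 0) (nat_lit 0x4000803),.c (nat_lit 1) (nat_lit 0x18043),.c (nat_lit 0) (nat_lit 0xc02),
    .c (nat_lit 3) (nat_lit 2),.c (nat_lit 0) (nat_lit 0x8028002),.c (nat_lit 0) (nat_lit 0xc038002),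
    .c (nat_lit 0) (nat_lit 0xa319cc5),.c (nat_lit 1) (nat_lit 0x6000c43),.c (nat_lit 0) (nat_lit 0x6328c42),
    .c (nat_lit 0) (nat_lit 0x18002),.c (nat_lit 0) (nat_lit 0x4018002),.c (nat_lit 0) (nat_lit 0x8028002),
    .c (nat_lit 0) (nat_lit 0x4018002),.c (nat_lit 0) (nat_lit 0x4018002),.c (nat_lit 4) (nat_lit 2),
    .c (nat_lit 0) (nat_lit 0x29483),.c (nat_lit 0) (nat_lit 0x18c43),.c (nat_lit 0) (nat_lit 0x29483),
    .c (nat_lit 0) (nat_lit 0x29483),.c (nat_lit 2) (nat_lit 0x6300802),.c (nat_lit 3) (nat_lit 0x6310002),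
    .c (nat_lit 0) (nat_lit 0x8218c45),.c (nat_lit 2) (nat_lit 0x300802),.c (nat_lit 5) (nat_lit 0x4200003),
    .c (nat_lit 5) (nat_lit 2),.c (nat_lit 0) (nat_lit 0x4000803),.c (nat_lit 6) (nat_lit 2),
    .c (nat_lit 0) (nat_lit 0xa529482),.c (nat_lit 0) (nat_lit 0x6318c42),.c (nat_lit 0) (nat_lit 0x6318c42),
    .c (nat_lit 7) (nat_lit 2)]]

/-- nodes -/
noncomputable def rD7k_22_23 : List RJ :=
  [.l (nat_lit 12) (nat_lit 960) (nat_lit 3) (nat_lit 0x20700000207000001e0000001e0000001e0000001e0000001e00000023400000214000002d00000025900000259000001ea000001ea) (nat_lit 0xc9000000c9000000f0000000f0000000f0000000f00000009c000000f000000000000000bc0000007700000077000000e6000000e6)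
    (nat_lit 0x14413e11711711711716511d2211a915413e12112113e14411711711710f16b11721719f1901901211131171170f80f00f00f00f00f01e01241771590f40fa1171170f00f80f00f01140f01e010016f1690fa0f410f1170f00f00f00f01680f01e015416f1690fa0f41171170f00f00f00f01680f00f01001731690f40f811711d0f00f00f00f01680f01e010016b2590fa0f016b1651140f01681681e01682341781672550f014e19f1a910012410015417810017c11019d19d1341842172211e01e00f01e02341e02d017c25925923c28c19013e16915916916925525925919d1401e215917319015416f17717316f16716b25919d16a1401731731131210f40fa0f80f414e0f028c18417317314017c1211210fa0f40f40fa0f00fa23c134173159104140)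
    (nat_lit 0x1443c03c03c03c03c03c03c03c03c03c03c03c03c013e1443c03c03c03c03c03c03c03c03c03c03c03c01171170f83c03c03c03c03c03c03c03c03c03c03c01171170f00f83c03c03c03c03c03c03c03c03c03c01171170f00f00f03c03c03c03c03c03c03c03c03c011710f0f00f00f00f03c03c03c03c03c03c03c03c016516b0f01141681681683c03c03c03c03c03c03c011d1170f00f00f00f00f01683c03c03c03c03c03c02071ff1e01e01e00f01e023417c3c03c03c03c03c01a919f12410015410010017811017c3c03c03c03c015419017716f16f17316b16719d2591403c03c03c013e19015916916916924925519d2591e21403c03c01211210f40fa0fa0f40fa0f01341ea1591731403c01211130fa0f40f40f80f014e1841e417317317c140)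
    (nat_lit 4) (nat_lit 61)
    [[nat_lit 2,nat_lit 0x1002,nat_lit 0x10002,nat_lit 0x100002,nat_lit 0x1000002,nat_lit 17,nat_lit 0x1011,
    nat_lit 0x10101,nat_lit 0x1001,nat_lit 0x2001,nat_lit 0x11001,nat_lit 0x101001,nat_lit 0x1001001,nat_lit 0x10001,
    nat_lit 0x20001,nat_lit 0x110001,nat_lit 0x1010001,nat_lit 0x100001,nat_lit 0x200001,nat_lit 0x1100001,
    nat_lit 0x1000001,nat_lit 0x2000001],[nat_lit 32,nat_lit 0x101010,nat_lit 0x1001010,nat_lit 0x10010,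
    nat_lit 0x110010,nat_lit 0x100010,nat_lit 0x1000010],[nat_lit 512,nat_lit 0x1100,nat_lit 0x10100,nat_lit 0x11100,
    nat_lit 0x20100,nat_lit 0x110100,nat_lit 0x1010100,nat_lit 0x100100],[nat_lit 0x2000,nat_lit 0x102000,
    nat_lit 0x11000,nat_lit 0x21000,nat_lit 0x111000,nat_lit 0x1011000,nat_lit 0x101000,nat_lit 0x201000,
    nat_lit 0x1101000,nat_lit 0x1001000],[nat_lit 0x20000,nat_lit 0x30000,nat_lit 0x120000,nat_lit 0x1020000,
    nat_lit 0x110000,nat_lit 0x210000,nat_lit 0x1110000,nat_lit 0x1010000,nat_lit 0x2010000],[nat_lit 0x200000,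
    nat_lit 0x300000,nat_lit 0x1200000,nat_lit 0x1100000,nat_lit 0x2100000],[nat_lit 0x2000000]]
    [.c (nat_lit 1) (nat_lit 2),.r (nat_lit 0x19ce) (nat_lit 12) [nat_lit 0x3021,nat_lit 0x2001,nat_lit 0x53431],
    .r (nat_lit 0x174f) (nat_lit 4) [nat_lit 0x330021,nat_lit 0x200231],
    .r (nat_lit 0x1b92) (nat_lit 10) [nat_lit 0x55431,nat_lit 0x2001,nat_lit 33],
    .r (nat_lit 0x10d1) (nat_lit 13) [nat_lit 33,nat_lit 0x40001,nat_lit 0x550021,nat_lit 0x55431],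
    .c (nat_lit 0) (nat_lit 0x22203),.c (nat_lit 0) (nat_lit 770),.c (nat_lit 0) (nat_lit 0x2232),
    .r (nat_lit 0x174f) (nat_lit 4) [nat_lit 33,nat_lit 0x30231],.r (nat_lit 0x19ce) (nat_lit 3) [nat_lit 0x22321,
    nat_lit 0x33201,nat_lit 0x32231],.c (nat_lit 2) (nat_lit 0x22403),
    .r (nat_lit 0x1b0e) (nat_lit 13) [nat_lit 0x33201,nat_lit 0x2031,nat_lit 0x20001],
    .r (nat_lit 0x1b93) (nat_lit 13) [nat_lit 0x33201,nat_lit 0x2031,nat_lit 0x20001],
    .c (nat_lit 0) (nat_lit 0x22203),.r (nat_lit 0x1bec) (nat_lit 7) [nat_lit 0x330021,nat_lit 0x33201],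
    .r (nat_lit 0x1a29) (nat_lit 13) [nat_lit 0x222031,nat_lit 0x3231,nat_lit 0x330021],
    .r (nat_lit 32) (nat_lit 7) [nat_lit 0x3231,nat_lit 0x330021],.r (nat_lit 0x1baf) (nat_lit 10) [nat_lit 0x33231,
    nat_lit 0x2001,nat_lit 33],.r (nat_lit 0x1ba9) (nat_lit 5) [nat_lit 0x22321,nat_lit 0x33201,nat_lit 0x2001],
    .r (nat_lit 0x1bb3) (nat_lit 10) [nat_lit 0x3231,nat_lit 0x30021,nat_lit 0x2001],
    .r (nat_lit 0x1bec) (nat_lit 4) [nat_lit 33,nat_lit 0x2001],.r (nat_lit 0x1bf5) (nat_lit 2) [nat_lit 33,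
    nat_lit 0x2001,nat_lit 0x33201],.c (nat_lit 2) (nat_lit 2),.c (nat_lit 0) (nat_lit 770),
    .c (nat_lit 0) (nat_lit 770),.c (nat_lit 0) (nat_lit 0x22203),.r (nat_lit 32) (nat_lit 5) [nat_lit 0x22031,
    nat_lit 0x355221],.r (nat_lit 0x1b9f) (nat_lit 5) [nat_lit 0x3021,nat_lit 0x33201,nat_lit 0x2001],
    .r (nat_lit 0x196f) (nat_lit 13) [nat_lit 0x2031,nat_lit 33,nat_lit 0x33201],.c (nat_lit 3) (nat_lit 2),
    .c (nat_lit 0) (nat_lit 0x24232),.r (nat_lit 0x196f) (nat_lit 8) [nat_lit 0x22321,nat_lit 0x33201,nat_lit 0x2001],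
    .c (nat_lit 0) (nat_lit 0x24232),.r (nat_lit 0x1ba3) (nat_lit 8) [nat_lit 0x33201,nat_lit 0x2001,nat_lit 0x22321],
    .r (nat_lit 0x1bac) (nat_lit 4) [nat_lit 0x3231,nat_lit 0x30021,nat_lit 0x2001],
    .r (nat_lit 0x1bae) (nat_lit 5) [nat_lit 0x20031,nat_lit 0x33201,nat_lit 0x2001],
    .r (nat_lit 32) (nat_lit 5) [nat_lit 0x333231,nat_lit 33],.c (nat_lit 4) (nat_lit 2),
    .r (nat_lit 0x1b92) (nat_lit 13) [nat_lit 0x4031,nat_lit 0x33201,nat_lit 33],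
    .r (nat_lit 0x1bec) (nat_lit 7) [nat_lit 33,nat_lit 0x33201],.r (nat_lit 0x1bf5) (nat_lit 6) [nat_lit 33,
    nat_lit 0x33201,nat_lit 0x2001],.r (nat_lit 0x1bb3) (nat_lit 13) [nat_lit 0x22031,nat_lit 0x30021,
    nat_lit 0x33201],.r (nat_lit 0x1bab) (nat_lit 5) [nat_lit 0x20031,nat_lit 0x33201,nat_lit 0x2001],
    .r (nat_lit 0x1a29) (nat_lit 13) [nat_lit 0x2031,nat_lit 0x333231,nat_lit 33],
    .r (nat_lit 0x1ba9) (nat_lit 11) [nat_lit 0x3021,nat_lit 0x2001,nat_lit 0x33201],.c (nat_lit 1) (nat_lit 0x20002),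
    .r (nat_lit 32) (nat_lit 7) [nat_lit 0x333231,nat_lit 33],.c (nat_lit 5) (nat_lit 2),
    .r (nat_lit 0x10d5) (nat_lit 4) [nat_lit 0x60031,nat_lit 33,nat_lit 0x6001,nat_lit 0x7dd621],
    .c (nat_lit 0) (nat_lit 0x4003),.c (nat_lit 0) (nat_lit 0x4003),.c (nat_lit 0) (nat_lit 0x2003),
    .c (nat_lit 0) (nat_lit 0x4003),.c (nat_lit 0) (nat_lit 0x2003),.c (nat_lit 0) (nat_lit 0x2003),
    .c (nat_lit 0) (nat_lit 0x4003),.c (nat_lit 6) (nat_lit 2),.r (nat_lit 0x10d6) (nat_lit 4) [nat_lit 0x60031,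
    nat_lit 33,nat_lit 0x6001,nat_lit 0x7dd601],.c (nat_lit 0) (nat_lit 0x4003),.c (nat_lit 0) (nat_lit 0x2003),
    .c (nat_lit 0) (nat_lit 0x4003),.c (nat_lit 7) (nat_lit 2)]]

/-- nodes -/
noncomputable def rD7k_22_24 : List RJ :=
  [.l (nat_lit 15) (nat_lit 0x13b0) (nat_lit 7) (nat_lit 0x9d8000009d800000a98000007f80000070200000b8e000009b2000009a2000009830000098300000962000009620000065e000009ca) (nat_lit 0x1b6000001b600000396000000f6000000000000048c000001ec000001dc0000020b0000020b0000022c0000022c000001c400000530)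
    (nat_lit 0x1044208837d08e21ea023801ca09c60f9a1f343d603e410280f9041108220aac2388568046013d440783a587cd0fdc1de040a037a11c423883f709a204ec1be045607c411821a3c4cd08ee11a814982ab06fa08c41fb8472036c0c1814903a085ed07d011e015002a008c023801b606f80ff409d828b043a0c9613dc27f0382090c0ed85680f5011c809d85c707fa134426c846c896916dc2588400093c203c271829207c4136410e83f007d60f4e1e9c254083004ec09d84f503940c1822b04d105160fbc1f803978797074020e83ef03440f9a1f342f6868f12d213dc3cb87a70d681d4044287bf182e20a43a587cd0e82230446c864b0e5e1e9c39b06b410021d5c5c387990ef00f9023c08ee12c40e0841d08300eae1efc1f807780f3c0e203f707ac07d026685b704fe074012a040088850ba80fc0431043206f40f90150052612780ed81a202760f3220a4219038809340a4040a08140540235040004860fbc09d85c38c1710c41e78403049a)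
    (nat_lit 0x10444ec09d813b027604ec09d813b027604ec09d813b027604ec0411082227604ec09d813b027604ec09d813b027604ec09d813b00df415583f713b027604ec09d813b027604ec09d813b027604ec047108e213441fb89d813b027604ec09d813b027604ec09d813b012e01f3013b06d80bc44ec09d813b027604ec09d813b027604ec0470046009d80db013b05e227604ec09d813b027604ec09d813b0072827a83c6060c0a2c22083f013b027604ec09d813b027604ec04e30bfa0d60149021d079a0fac1f809d813b027604ec09d813b00f9a1d2c46087410c9623643d3872f0d684ec09d813b027604ec03e687cd0d1e17b427b88630f4e1e5c3a806b427604ec09d813b00f581fb83ba03e809fc197825403a0110a20041f813b027604ec01f207780bf011e01c106ee106020e83df87570ef00fc09d813b00c14205037e02a0090c145813b07de125e26943cf061609344ec01f2037a0a4c0a801db051604ec0d104148799071010c8148049a)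
    (nat_lit 4) (nat_lit 498)
    [[nat_lit 2,nat_lit 3,nat_lit 4,nat_lit 0x1004,nat_lit 0x1003,nat_lit 0x1013,nat_lit 0x1001003,nat_lit 0x110003,
    nat_lit 0x100003,nat_lit 18,nat_lit 0x1012,nat_lit 0x1002,nat_lit 0x2003,nat_lit 0x101003,nat_lit 0x111003,
    nat_lit 0x1022,nat_lit 0x111012,nat_lit 0x1001012,nat_lit 0x2002,nat_lit 0x111002,nat_lit 0x101002,
    nat_lit 0x1001002,nat_lit 0x10002,nat_lit 0x110002,nat_lit 0x110012,nat_lit 0x100002,nat_lit 0x210002,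
    nat_lit 0x220002,nat_lit 0x1110002,nat_lit 0x200002,nat_lit 0x1100002,nat_lit 0x1000002,nat_lit 0x1000012,
    nat_lit 17,nat_lit 0x100012,nat_lit 33,nat_lit 0x1021,nat_lit 0x1011,nat_lit 0x1001011,nat_lit 0x2012,
    nat_lit 0x110011,nat_lit 0x100011,nat_lit 0x1000011,nat_lit 0x1001,nat_lit 0x3003,nat_lit 0x102003,nat_lit 0x2022,
    nat_lit 0x1002012,nat_lit 0x3002,nat_lit 0x112002,nat_lit 0x102002,nat_lit 0x1002002,nat_lit 0x11002,
    nat_lit 0x221002,nat_lit 0x211002,nat_lit 0x1111002,nat_lit 0x2011,nat_lit 0x101012,nat_lit 0x2021,nat_lit 0x1031,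
    nat_lit 0x111021,nat_lit 0x101021,nat_lit 0x1001021,nat_lit 0x11011,nat_lit 0x111011,nat_lit 0x101011,
    nat_lit 0x1111011,nat_lit 0x1002011,nat_lit 0x1101,nat_lit 0x101101,nat_lit 0x2001,nat_lit 0x1002001,
    nat_lit 0x112001,nat_lit 0x11001,nat_lit 0x12001,nat_lit 0x111001,nat_lit 0x221001,nat_lit 0x211001,
    nat_lit 0x1111001,nat_lit 0x121001,nat_lit 0x101001,nat_lit 0x102001,nat_lit 0x1001001,nat_lit 0x2002002,
    nat_lit 0x1101002,nat_lit 0x1011001,nat_lit 0x1101001,nat_lit 0x2001001,nat_lit 0x10001,nat_lit 0x10011,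
    nat_lit 0x120001,nat_lit 0x110001,nat_lit 0x110021,nat_lit 0x220011,nat_lit 0x1110011,nat_lit 0x220001,
    nat_lit 0x210001,nat_lit 0x1110001,nat_lit 0x1010001,nat_lit 0x10021,nat_lit 0x120002,nat_lit 0x100001,
    nat_lit 0x200001,nat_lit 0x1100001,nat_lit 0x1100011,nat_lit 0x100101,nat_lit 0x210011,nat_lit 0x110101,
    nat_lit 0x330001,nat_lit 0x320001,nat_lit 0x1220001,nat_lit 0x1000001],[nat_lit 32,nat_lit 48,nat_lit 64,
    nat_lit 0x110030,nat_lit 0x1020,nat_lit 0x1001020,nat_lit 0x111020,nat_lit 0x10020,nat_lit 0x110020,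
    nat_lit 0x100020,nat_lit 0x1110020,nat_lit 0x1000020,nat_lit 272,nat_lit 0x100110,nat_lit 0x1010,nat_lit 0x1110,
    nat_lit 0x11010,nat_lit 0x111010,nat_lit 0x101010,nat_lit 0x1001010,nat_lit 0x1111010,nat_lit 0x10010,
    nat_lit 0x110010,nat_lit 0x220010,nat_lit 0x1110010,nat_lit 0x100010,nat_lit 0x1100010,nat_lit 0x210010,
    nat_lit 0x110110,nat_lit 0x120010,nat_lit 0x200010,nat_lit 0x1000010],[nat_lit 512,nat_lit 0x1100,
    nat_lit 0x1001100,nat_lit 0x101100,nat_lit 0x10100,nat_lit 0x110100,nat_lit 0x100100,nat_lit 0x1000100],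
    [nat_lit 0x2000,nat_lit 0x11000,nat_lit 0x111000,nat_lit 0x221000,nat_lit 0x101000,nat_lit 0x1011000,
    nat_lit 0x1111000,nat_lit 0x1101000],[nat_lit 0x20000,nat_lit 0x120000,nat_lit 0x110000,nat_lit 0x220000,
    nat_lit 0x330000,nat_lit 0x210000,nat_lit 0x1110000],[nat_lit 0x200000,nat_lit 0x1100000],[nat_lit 0x2000000]]
    [.c (nat_lit 1) (nat_lit 2),.r (nat_lit 0x1392) (nat_lit 5) [nat_lit 0x660031,nat_lit 0x6001,nat_lit 0x707631,
    nat_lit 33],.r (nat_lit 0x1393) (nat_lit 5) [nat_lit 0x880032,nat_lit 0x4001,nat_lit 0x909832,nat_lit 34],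
    .c (nat_lit 0) (nat_lit 0x9302),.c (nat_lit 0) (nat_lit 0x7302),.c (nat_lit 0) (nat_lit 0x7302),
    .c (nat_lit 0) (nat_lit 770),.r (nat_lit 0x1394) (nat_lit 4) [nat_lit 0x370021,nat_lit 0x600001,nat_lit 0x266031,
    nat_lit 0x507631],.r (nat_lit 0x1395) (nat_lit 5) [nat_lit 0x860031,nat_lit 0x8001,nat_lit 0x939831,
    nat_lit 0x20021],.r (nat_lit 0x1396) (nat_lit 4) [nat_lit 0x550021,nat_lit 0x400001,nat_lit 0x444031,
    nat_lit 0x505431],.c (nat_lit 0) (nat_lit 0x5302),.c (nat_lit 0) (nat_lit 0x5302),.c (nat_lit 0) (nat_lit 0x7502),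
    .c (nat_lit 0) (nat_lit 0x7302),.c (nat_lit 0) (nat_lit 0x7302),.c (nat_lit 0) (nat_lit 0x5302),
    .c (nat_lit 0) (nat_lit 0x35302),.c (nat_lit 0) (nat_lit 0x5302),.c (nat_lit 0) (nat_lit 0x5502),
    .c (nat_lit 0) (nat_lit 0x5302),.c (nat_lit 0) (nat_lit 0x5302),.c (nat_lit 0) (nat_lit 770),
    .r (nat_lit 0x1381) (nat_lit 13) [nat_lit 33,nat_lit 0x4001,nat_lit 0x55021,nat_lit 0x505431],
    .r (nat_lit 0x1397) (nat_lit 4) [nat_lit 0x350021,nat_lit 0x400001,nat_lit 0x244031,nat_lit 0x305431],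
    .r (nat_lit 0x1393) (nat_lit 5) [nat_lit 0x640031,nat_lit 0x4001,nat_lit 0x305431,nat_lit 0x300021],
    .r (nat_lit 0x1398) (nat_lit 5) [nat_lit 0x640031,nat_lit 0x6001,nat_lit 0x737631,nat_lit 0x20021],
    .r (nat_lit 0x1399) (nat_lit 4) [nat_lit 0x6001,nat_lit 0x355021,nat_lit 0x844031,nat_lit 0x539631],
    .r (nat_lit 0x1a7c) (nat_lit 13) [nat_lit 0x2001,nat_lit 0x440032,nat_lit 34],
    .r (nat_lit 0x139a) (nat_lit 4) [nat_lit 0x750021,nat_lit 0x600001,nat_lit 0x646031,nat_lit 0x737631],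
    .r (nat_lit 0x139b) (nat_lit 5) [nat_lit 0x840032,nat_lit 0x4001,nat_lit 0x959832,nat_lit 0x40022],
    .r (nat_lit 0x1392) (nat_lit 5) [nat_lit 0x640031,nat_lit 0x6001,nat_lit 0x737631,nat_lit 0x20021],
    .r (nat_lit 0x139c) (nat_lit 7) [nat_lit 0x600001,nat_lit 0x550021,nat_lit 0x220021,nat_lit 0x937631],
    .r (nat_lit 0x139d) (nat_lit 4) [nat_lit 0x50021,nat_lit 0x600001,nat_lit 0x46031,nat_lit 0x737631],
    .r (nat_lit 4) (nat_lit 8) [nat_lit 0x222031,nat_lit 33],.r (nat_lit 0x139e) (nat_lit 4) [nat_lit 0x350021,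
    nat_lit 0x244031,nat_lit 0x305431,nat_lit 0x400001],.r (nat_lit 0x139f) (nat_lit 4) [nat_lit 0x4001,
    nat_lit 0x559401,nat_lit 0x646331,nat_lit 0x202321],.c (nat_lit 0) (nat_lit 0x3302),
    .c (nat_lit 5) (nat_lit 0x22203),.c (nat_lit 0) (nat_lit 0x3302),.c (nat_lit 0) (nat_lit 0x5502),
    .c (nat_lit 1) (nat_lit 0x30002),.r (nat_lit 0x1b4d) (nat_lit 0) [nat_lit 0x200031,nat_lit 0x2001,
    nat_lit 0x303201],.r (nat_lit 0x1c19) (nat_lit 9) [nat_lit 0x303201,nat_lit 0x2001,nat_lit 0x224031,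
    nat_lit 0x335201],.c (nat_lit 0) (nat_lit 0x3302),.c (nat_lit 0) (nat_lit 0x7702),.c (nat_lit 0) (nat_lit 0x7502),
    .c (nat_lit 0) (nat_lit 0x5502),.c (nat_lit 0) (nat_lit 0x5502),.c (nat_lit 0) (nat_lit 0x5702),
    .c (nat_lit 0) (nat_lit 0x35502),.c (nat_lit 0) (nat_lit 0x5502),.c (nat_lit 0) (nat_lit 0x502),
    .c (nat_lit 0) (nat_lit 0x5302),.c (nat_lit 0) (nat_lit 0x5302),.c (nat_lit 0) (nat_lit 0x5302),
    .c (nat_lit 0) (nat_lit 0x5302),.c (nat_lit 0) (nat_lit 0x3502),.c (nat_lit 0) (nat_lit 0x5302),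
    .c (nat_lit 0) (nat_lit 0x3502),.c (nat_lit 0) (nat_lit 0x3302),.c (nat_lit 0) (nat_lit 0x33302),
    .c (nat_lit 5) (nat_lit 0x42203),.c (nat_lit 0) (nat_lit 0x3302),.c (nat_lit 0) (nat_lit 0x33302),
    .c (nat_lit 0) (nat_lit 0x33302),.c (nat_lit 0) (nat_lit 0x3302),.c (nat_lit 0) (nat_lit 0x30302),
    .c (nat_lit 0) (nat_lit 0x3502),.c (nat_lit 0) (nat_lit 0x23032),.c (nat_lit 0) (nat_lit 0x20032),
    .c (nat_lit 0) (nat_lit 0x3502),.c (nat_lit 0) (nat_lit 0x502),.c (nat_lit 0) (nat_lit 0x3502),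
    .c (nat_lit 2) (nat_lit 0x22203),.c (nat_lit 0) (nat_lit 0x3502),.c (nat_lit 0) (nat_lit 0x3302),
    .c (nat_lit 0) (nat_lit 0x3302),.c (nat_lit 0) (nat_lit 0x3302),.c (nat_lit 0) (nat_lit 0x3302),
    .c (nat_lit 2) (nat_lit 0x42203),.c (nat_lit 0) (nat_lit 0x3302),.c (nat_lit 0) (nat_lit 0x3502),
    .c (nat_lit 0) (nat_lit 770),.c (nat_lit 0) (nat_lit 0x502),.c (nat_lit 0) (nat_lit 0x5302),
    .c (nat_lit 0) (nat_lit 0x3302),.c (nat_lit 0) (nat_lit 0x3302),.c (nat_lit 0) (nat_lit 770),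
    .r (nat_lit 0) (nat_lit 13) [nat_lit 0x2001,nat_lit 33],.c (nat_lit 4) (nat_lit 0x22203),
    .r (nat_lit 0x174b) (nat_lit 10) [nat_lit 0x2001,nat_lit 0x303201,nat_lit 33],
    .r (nat_lit 0x1c05) (nat_lit 4) [nat_lit 0x2001,nat_lit 0x20001,nat_lit 0x220031,nat_lit 0x333201],
    .r (nat_lit 4) (nat_lit 10) [nat_lit 0x300021,nat_lit 0x422031],.r (nat_lit 0x1a7c) (nat_lit 13) [nat_lit 0x2001,
    nat_lit 0x420031,nat_lit 0x300021],.r (nat_lit 0x13a0) (nat_lit 7) [nat_lit 0x400001,nat_lit 0x530021,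
    nat_lit 0x20021,nat_lit 0x535431],.r (nat_lit 0x13a1) (nat_lit 4) [nat_lit 0x4001,nat_lit 0x559401,
    nat_lit 0x64a721,nat_lit 0x203231],.r (nat_lit 0x13a2) (nat_lit 4) [nat_lit 0x6001,nat_lit 0x33021,
    nat_lit 0x75b631,nat_lit 0x622031],.r (nat_lit 0x1381) (nat_lit 13) [nat_lit 0x20021,nat_lit 0x4001,
    nat_lit 0x35021,nat_lit 0x535431],.r (nat_lit 0x1c15) (nat_lit 6) [nat_lit 0x2001,nat_lit 0x303201,
    nat_lit 0x200321],.r (nat_lit 0x174b) (nat_lit 4) [nat_lit 0x2001,nat_lit 0x303201,nat_lit 0x203231],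
    .r (nat_lit 0x13a3) (nat_lit 4) [nat_lit 0x6001,nat_lit 0x55021,nat_lit 0x739631,nat_lit 0x644031],
    .r (nat_lit 0x1bb4) (nat_lit 10) [nat_lit 0x303231,nat_lit 33,nat_lit 0x30021],
    .r (nat_lit 0x196b) (nat_lit 5) [nat_lit 0x2001,nat_lit 0x33021,nat_lit 0x44021,nat_lit 0x75b631],
    .c (nat_lit 1) (nat_lit 0x2002),.r (nat_lit 0x1396) (nat_lit 4) [nat_lit 0x530021,nat_lit 0x400001,
    nat_lit 0x424031,nat_lit 0x535431],.c (nat_lit 0) (nat_lit 0x20232),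
    .r (nat_lit 0x139b) (nat_lit 5) [nat_lit 0x620031,nat_lit 0x4001,nat_lit 0x335431,nat_lit 0x320021],
    .c (nat_lit 2) (nat_lit 803),.r (nat_lit 0x13a4) (nat_lit 4) [nat_lit 0x6001,nat_lit 0x77d601,nat_lit 0x86e921,
    nat_lit 0x403231],.r (nat_lit 0x13a5) (nat_lit 4) [nat_lit 0x8001,nat_lit 0x33021,nat_lit 0x97f831,
    nat_lit 0x822031],.r (nat_lit 0x13a3) (nat_lit 4) [nat_lit 0x6001,nat_lit 0x35021,nat_lit 0x759631,
    nat_lit 0x624031],.r (nat_lit 10) (nat_lit 1) [nat_lit 0x300231,nat_lit 33],.c (nat_lit 2) (nat_lit 2),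
    .r (nat_lit 45) (nat_lit 6) [nat_lit 33,nat_lit 0x600031,nat_lit 0x2001],.r (nat_lit 40) (nat_lit 6) [nat_lit 34,
    nat_lit 0x800032,nat_lit 0x2001],.r (nat_lit 40) (nat_lit 6) [nat_lit 0x300021,nat_lit 0x600031,nat_lit 0x2001],
    .r (nat_lit 0x174b) (nat_lit 10) [nat_lit 0x2001,nat_lit 0x303201,nat_lit 0x422031],.c (nat_lit 0) (nat_lit 770),
    .r (nat_lit 0) (nat_lit 13) [nat_lit 0x2001,nat_lit 0x422031],.c (nat_lit 0) (nat_lit 0x40003),
    .c (nat_lit 2) (nat_lit 0x30002),.c (nat_lit 0) (nat_lit 0x40003),.r (nat_lit 0x174b) (nat_lit 4) [nat_lit 0x2001,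
    nat_lit 0x303201,nat_lit 0x233231],.r (nat_lit 0x13a6) (nat_lit 4) [nat_lit 0x4001,nat_lit 0x559401,
    nat_lit 0x84a531,nat_lit 0x3021],.r (nat_lit 0x1a7c) (nat_lit 13) [nat_lit 0x2001,nat_lit 0x222321,
    nat_lit 0x3231],.r (nat_lit 32) (nat_lit 1) [nat_lit 0x3231,nat_lit 0x2001],
    .r (nat_lit 32) (nat_lit 1) [nat_lit 0x222031,nat_lit 0x2001],.r (nat_lit 0x1c1b) (nat_lit 13) [nat_lit 0x303201,
    nat_lit 0x2001,nat_lit 0x20231,nat_lit 0x30001],.c (nat_lit 1) (nat_lit 0x22203),.c (nat_lit 4) (nat_lit 0x30002),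
    .r (nat_lit 0x1b96) (nat_lit 2) [nat_lit 0x303201,nat_lit 33,nat_lit 0x30031],.c (nat_lit 0) (nat_lit 770),
    .c (nat_lit 0) (nat_lit 0x30302),.c (nat_lit 0) (nat_lit 0x20003),.c (nat_lit 0) (nat_lit 0x20003),
    .c (nat_lit 0) (nat_lit 0x40003),.c (nat_lit 4) (nat_lit 0x20203),.c (nat_lit 0) (nat_lit 0x20003),
    .r (nat_lit 4) (nat_lit 8) [nat_lit 0x202031,nat_lit 0x20021],.c (nat_lit 6) (nat_lit 0x30002),
    .c (nat_lit 1) (nat_lit 803),.c (nat_lit 5) (nat_lit 0x30002),.c (nat_lit 0) (nat_lit 0x40003),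
    .r (nat_lit 0x196a) (nat_lit 1) [nat_lit 0x303201,nat_lit 0x300021,nat_lit 0x200001],.c (nat_lit 3) (nat_lit 2),
    .r (nat_lit 10) (nat_lit 1) [nat_lit 33,nat_lit 0x300231],.c (nat_lit 0) (nat_lit 770),
    .c (nat_lit 4) (nat_lit 0x22432),.r (nat_lit 0x1039) (nat_lit 5) [nat_lit 0x422321,nat_lit 0x4001,
    nat_lit 0x533221,nat_lit 0x23231],.r (nat_lit 4) (nat_lit 10) [nat_lit 0x3231,nat_lit 0x224321],
    .c (nat_lit 0) (nat_lit 0x33523),.c (nat_lit 0) (nat_lit 0x33323),.c (nat_lit 4) (nat_lit 2),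
    .r (nat_lit 4) (nat_lit 10) [nat_lit 0x222031,nat_lit 33],.r (nat_lit 0x174b) (nat_lit 4) [nat_lit 0x2001,
    nat_lit 0x303201,nat_lit 0x335221],.r (nat_lit 0x13a6) (nat_lit 4) [nat_lit 0x4001,nat_lit 0x559401,
    nat_lit 0x448521,nat_lit 0x400031],.r (nat_lit 78) (nat_lit 1) [nat_lit 0x2031,nat_lit 0x22031,nat_lit 0x335221,
    nat_lit 33],.c (nat_lit 0) (nat_lit 770),.c (nat_lit 2) (nat_lit 0x20203),.c (nat_lit 0) (nat_lit 770),
    .c (nat_lit 5) (nat_lit 2),.c (nat_lit 0) (nat_lit 0x40003),.c (nat_lit 0) (nat_lit 0x20003),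
    .c (nat_lit 0) (nat_lit 0x40003),.r (nat_lit 75) (nat_lit 6) [nat_lit 0x600031,nat_lit 33,nat_lit 0x2001],
    .c (nat_lit 0) (nat_lit 0x40003),.r (nat_lit 0) (nat_lit 13) [nat_lit 0x2001,nat_lit 0x20021],
    .c (nat_lit 6) (nat_lit 2),.c (nat_lit 0) (nat_lit 0x3003),.c (nat_lit 7) (nat_lit 2)]]

/-- nodes -/
noncomputable def rD7k_22_25 : List RJ :=
  [.l (nat_lit 14) (nat_lit 0xf50) (nat_lit 6) (nat_lit 0x7da000007da0000080a0000080a0000073a0000073a0000077000000a54000007b2000007b200000899000006db0000061f00000995) (nat_lit 0x27a0000027a0000024a0000024a0000031a0000031a00000000000002e4000002a2000002a200000379000001bb000000bf00000435)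
    (nat_lit 0x18005601640590110052007a84d62ca0a28118420f1c6c3a5158060016005900e804f01f684a614a0428118454f1c6c3a5164059016405c01500500246864618e0568124465f1aac3d51600590170059016004f0242863619e04b8140458f1bac44513c052013c05000c404201fa83c615603980d4446f19ec2950e804401600540108031021e845616604a80ec457f1a6c30512984d618d864611583c61d8048c133838e0fdc4b51cc434b1f681ea242891a21e87ea29507601ec87b2182c899129461f10a0a2812e056812a03981ec838e144051010e45f7338c44d14a0b2819e063816605581ec84ce10005100ca45f72c0c26d153c20f163c65f15fc46f22644b517dc5f718c07ee07a8574118446114044910ec4351182c3f70ca44390d8863018702a60e943a511143d50c14295187c34b09b444d0a9857415801ea1c6c71b1bac6ab1a6c67b12947312c0cce318701ea2358560)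
    (nat_lit 0x1800f503d40f503d40f503d40f503d40f503d40f503d40f5015806003d40f503d40f503d40f503d40f503d40f503d40f5016405801640f503d40f503d40f503d40f503d40f503d40f50164059017005903d40f503d40f503d40f503d40f503d40f5011003a015005800c40f503d40f503d40f503d40f503d40f5014804f014004f010803103d40f503d40f503d40f503d40f5007a874a1de876a1b6858a1a40f503d40f503d40f503d40f5013584a619186360f1845612306903d40f503d40f503d40f501ae052818e0678156059813387121440f503d40f503d40f5015e042815a04b80e604a80e3861214405103d40f503d40f50118446112445010d443b10fdc60b10e432918c0f503d40f50083c54f197c58f11bc57f12d473917dc5f71d786303d40f50192c64b19ec6eb14ec59b17844a5188c51307a854c1240f500e943a50f544450a543050d2c58f113426d0f502a607a8490)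
    (nat_lit 4) (nat_lit 267)
    [[nat_lit 2,nat_lit 18,nat_lit 35,nat_lit 274,nat_lit 0x10012,nat_lit 0x1002,nat_lit 0x10002,nat_lit 17,
    nat_lit 34,nat_lit 51,nat_lit 290,nat_lit 0x10022,nat_lit 0x1000022,nat_lit 0x1012,nat_lit 0x1112,nat_lit 33,
    nat_lit 289,nat_lit 0x10021,nat_lit 0x100021,nat_lit 0x1000021,nat_lit 0x1000121,nat_lit 0x1010021,nat_lit 273,
    nat_lit 529,nat_lit 0x10111,nat_lit 0x1000111,nat_lit 0x1111,nat_lit 0x1001111,nat_lit 0x20111,nat_lit 0x100111,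
    nat_lit 0x1011,nat_lit 0x1001011,nat_lit 0x1011011,nat_lit 0x11011,nat_lit 0x10011,nat_lit 0x20011,
    nat_lit 0x30011,nat_lit 0x110011,nat_lit 0x1010011,nat_lit 0x100011,nat_lit 0x1000011,nat_lit 0x1001,
    nat_lit 0x1001001,nat_lit 0x1101,nat_lit 0x1002001,nat_lit 0x11001,nat_lit 0x21001,nat_lit 0x11101,
    nat_lit 0x101001,nat_lit 0x10001,nat_lit 0x10101,nat_lit 0x20001,nat_lit 0x1010001,nat_lit 0x100001,
    nat_lit 0x100101,nat_lit 0x110001,nat_lit 0x1000001,nat_lit 0x1000101,nat_lit 0x1001101],[nat_lit 32,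
    nat_lit 0x10020,nat_lit 0x1010020,nat_lit 0x1000020,nat_lit 0x2000020,nat_lit 272,nat_lit 0x1000120,nat_lit 528,
    nat_lit 0x1000210,nat_lit 0x10110,nat_lit 0x1010110,nat_lit 0x1000110,nat_lit 0x1001110,nat_lit 0x100110,
    nat_lit 0x1010,nat_lit 0x1001010,nat_lit 0x1011010,nat_lit 0x2001010,nat_lit 0x11010,nat_lit 0x10010,
    nat_lit 0x20010,nat_lit 0x30010,nat_lit 0x1030010,nat_lit 0x1020010,nat_lit 0x110010,nat_lit 0x1010010,
    nat_lit 0x2010010,nat_lit 0x100010,nat_lit 0x1110010,nat_lit 0x1100010,nat_lit 0x1000010,nat_lit 0x2000010],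
    [nat_lit 512,nat_lit 768,nat_lit 0x10200,nat_lit 0x1200,nat_lit 0x1001200,nat_lit 0x100200,nat_lit 0x1100,
    nat_lit 0x1001100,nat_lit 0x1011100,nat_lit 0x10100,nat_lit 0x20100,nat_lit 0x1010100,nat_lit 0x100100,
    nat_lit 0x2000100],[nat_lit 0x2000,nat_lit 0x1002000,nat_lit 0x11000,nat_lit 0x1001000,nat_lit 0x2002000,
    nat_lit 0x1011000,nat_lit 0x1021000,nat_lit 0x1101000,nat_lit 0x2001000],[nat_lit 0x20000,nat_lit 0x30000,
    nat_lit 0x40000,nat_lit 0x1030000,nat_lit 0x120000,nat_lit 0x1020000,nat_lit 0x110000,nat_lit 0x1010000,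
    nat_lit 0x1110000,nat_lit 0x2010000],[nat_lit 0x200000,nat_lit 0x1100000],[nat_lit 0x2000000]]
    [.c (nat_lit 1) (nat_lit 2),.c (nat_lit 0) (nat_lit 0x55043),.r (nat_lit 0x198c) (nat_lit 0) [nat_lit 0x2001,
    nat_lit 0x552431,nat_lit 0x200001,nat_lit 0x20001],.c (nat_lit 5) (nat_lit 0x30223),
    .c (nat_lit 1) (nat_lit 0x22032),.r (nat_lit 78) (nat_lit 2) [nat_lit 0x3001,nat_lit 0x200031,nat_lit 33,
    nat_lit 0x22001],.c (nat_lit 0) (nat_lit 0x55043),.c (nat_lit 0) (nat_lit 0x33023),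
    .c (nat_lit 0) (nat_lit 0x55043),.r (nat_lit 75) (nat_lit 4) [nat_lit 0x770631,nat_lit 33,nat_lit 0x20001],
    .c (nat_lit 0) (nat_lit 0x3502),.c (nat_lit 0) (nat_lit 0x55043),.r (nat_lit 0x198c) (nat_lit 0) [nat_lit 0x2001,
    nat_lit 0x550431,nat_lit 0x200001,nat_lit 0x20001],.r (nat_lit 0x174b) (nat_lit 11) [nat_lit 0x20001,
    nat_lit 0x200001,nat_lit 33],.c (nat_lit 0) (nat_lit 0x33502),.c (nat_lit 0) (nat_lit 0x55343),
    .c (nat_lit 0) (nat_lit 0x3302),.c (nat_lit 2) (nat_lit 0x22032),.r (nat_lit 0x174b) (nat_lit 3) [nat_lit 0x20001,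
    nat_lit 0x200001,nat_lit 33],.c (nat_lit 0) (nat_lit 0x55343),.c (nat_lit 0) (nat_lit 0x3302),
    .c (nat_lit 0) (nat_lit 0x55343),.c (nat_lit 0) (nat_lit 0x3302),.c (nat_lit 0) (nat_lit 0x5302),
    .c (nat_lit 1) (nat_lit 0x30223),.c (nat_lit 5) (nat_lit 0x30023),.c (nat_lit 0) (nat_lit 0x33302),
    .c (nat_lit 0) (nat_lit 0x33302),.c (nat_lit 0) (nat_lit 0x3302),.c (nat_lit 0) (nat_lit 0x3302),
    .r (nat_lit 8) (nat_lit 8) [nat_lit 0x30231,nat_lit 0x22001],.r (nat_lit 0x174b) (nat_lit 11) [nat_lit 0x20001,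
    nat_lit 0x200001,nat_lit 0x2021],.r (nat_lit 32) (nat_lit 8) [nat_lit 0x222321,nat_lit 0x20001],
    .c (nat_lit 4) (nat_lit 0x22032),.c (nat_lit 0) (nat_lit 0x33023),.c (nat_lit 5) (nat_lit 0x22032),
    .r (nat_lit 40) (nat_lit 4) [nat_lit 0x220321,nat_lit 0x770631,nat_lit 0x20001],.c (nat_lit 4) (nat_lit 0x3023),
    .c (nat_lit 1) (nat_lit 0x22232),.r (nat_lit 0x12de) (nat_lit 9) [nat_lit 0x200001,nat_lit 0x20001,
    nat_lit 0x22001,nat_lit 0x3021],.c (nat_lit 0) (nat_lit 0x55343),.r (nat_lit 0) (nat_lit 4) [nat_lit 0x222031,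
    nat_lit 0x3021],.r (nat_lit 78) (nat_lit 2) [nat_lit 0x3001,nat_lit 0x203031,nat_lit 0x2021,nat_lit 0x22001],
    .c (nat_lit 0) (nat_lit 0x3302),.r (nat_lit 32) (nat_lit 8) [nat_lit 0x2022,nat_lit 0x20001],
    .r (nat_lit 32) (nat_lit 2) [nat_lit 0x30231,nat_lit 0x20001],.r (nat_lit 0x174b) (nat_lit 3) [nat_lit 0x20001,
    nat_lit 0x200001,nat_lit 0x350431],.c (nat_lit 0) (nat_lit 0x33302),.c (nat_lit 0) (nat_lit 0x30002),
    .c (nat_lit 0) (nat_lit 0x33023),.c (nat_lit 0) (nat_lit 0x3302),.c (nat_lit 0) (nat_lit 0x55343),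
    .c (nat_lit 0) (nat_lit 0x55343),.r (nat_lit 0x1750) (nat_lit 8) [nat_lit 0x222031,nat_lit 33],
    .c (nat_lit 0) (nat_lit 0x3302),.r (nat_lit 0x1b32) (nat_lit 10) [nat_lit 0x30231,nat_lit 0x22031,nat_lit 33],
    .c (nat_lit 1) (nat_lit 514),.c (nat_lit 0) (nat_lit 0x3002),.c (nat_lit 0) (nat_lit 0x3302),
    .c (nat_lit 2) (nat_lit 2),.c (nat_lit 0) (nat_lit 0x55543),.c (nat_lit 2) (nat_lit 0x22232),
    .c (nat_lit 0) (nat_lit 0x55543),.c (nat_lit 0) (nat_lit 0x55543),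
    .r (nat_lit 0x1a3c) (nat_lit 13) [nat_lit 0x30021,nat_lit 0x20001,nat_lit 0x200001],
    .c (nat_lit 0) (nat_lit 0x3002),.c (nat_lit 0) (nat_lit 0x59542),.c (nat_lit 0) (nat_lit 0x5002),
    .r (nat_lit 0x1b4a) (nat_lit 12) [nat_lit 0x330231,nat_lit 0x20001,nat_lit 0x200001],
    .c (nat_lit 1) (nat_lit 0x30023),.c (nat_lit 0) (nat_lit 0x3002),.c (nat_lit 0) (nat_lit 0x33002),
    .r (nat_lit 0x1c1d) (nat_lit 3) [nat_lit 0x20001,nat_lit 0x200031,nat_lit 0x330201],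
    .r (nat_lit 0x1ba2) (nat_lit 10) [nat_lit 33,nat_lit 0x42321,nat_lit 0x30231],
    .r (nat_lit 8) (nat_lit 8) [nat_lit 0x33231,nat_lit 0x22001],.c (nat_lit 4) (nat_lit 0x22232),
    .r (nat_lit 0x174b) (nat_lit 11) [nat_lit 0x20001,nat_lit 0x200001,nat_lit 0x4021],
    .r (nat_lit 0x1b4d) (nat_lit 12) [nat_lit 0x330231,nat_lit 0x20001,nat_lit 0x200001],
    .c (nat_lit 0) (nat_lit 0x33023),.c (nat_lit 0) (nat_lit 0x55543),
    .r (nat_lit 0xecb) (nat_lit 0) [nat_lit 0x600001,nat_lit 0x777631,nat_lit 0x770631,nat_lit 0x6c6721],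
    .r (nat_lit 40) (nat_lit 4) [nat_lit 0x222321,nat_lit 0x773631,nat_lit 0x20001],.c (nat_lit 5) (nat_lit 0x22232),
    .r (nat_lit 32) (nat_lit 8) [nat_lit 0x30231,nat_lit 0x20001],.c (nat_lit 0) (nat_lit 0x33323),
    .c (nat_lit 1) (nat_lit 0x22432),.r (nat_lit 0) (nat_lit 3) [nat_lit 33,nat_lit 0x20001],
    .c (nat_lit 4) (nat_lit 0x3323),.r (nat_lit 0x12de) (nat_lit 9) [nat_lit 0x200001,nat_lit 0x20001,nat_lit 0x22001,
    nat_lit 33],.c (nat_lit 0) (nat_lit 0x33323),.c (nat_lit 0) (nat_lit 0x55543),.c (nat_lit 3) (nat_lit 2),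
    .c (nat_lit 0) (nat_lit 0x7d762),.c (nat_lit 0) (nat_lit 0x59542),.c (nat_lit 0) (nat_lit 0x59542),
    .c (nat_lit 0) (nat_lit 0x5002),.c (nat_lit 0) (nat_lit 0x59542),.r (nat_lit 0x1750) (nat_lit 8) [nat_lit 33,
    nat_lit 0x222031],.c (nat_lit 0) (nat_lit 0x3002),.c (nat_lit 0) (nat_lit 0x33002),
    .r (nat_lit 0x196a) (nat_lit 8) [nat_lit 0x200001,nat_lit 0x220321,nat_lit 0x330201],
    .r (nat_lit 0x198c) (nat_lit 0) [nat_lit 0x2001,nat_lit 0x30021,nat_lit 0x200001,nat_lit 0x20001],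
    .c (nat_lit 0) (nat_lit 0x3002),.r (nat_lit 0) (nat_lit 4) [nat_lit 33,nat_lit 0x220031],
    .c (nat_lit 0) (nat_lit 0x5002),.c (nat_lit 4) (nat_lit 2),.r (nat_lit 0x19f8) (nat_lit 2) [nat_lit 0x3001,
    nat_lit 0x403031,nat_lit 0x2021,nat_lit 0x22001],.r (nat_lit 0x1b04) (nat_lit 7) [nat_lit 33,nat_lit 0x20001],
    .r (nat_lit 0) (nat_lit 4) [nat_lit 0x220031,nat_lit 33],.r (nat_lit 32) (nat_lit 8) [nat_lit 0x4022,
    nat_lit 0x20001],.r (nat_lit 32) (nat_lit 2) [nat_lit 0x33231,nat_lit 0x20001],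
    .r (nat_lit 0x174b) (nat_lit 3) [nat_lit 0x20001,nat_lit 0x200001,nat_lit 0x353431],
    .c (nat_lit 0) (nat_lit 0x30202),.r (nat_lit 78) (nat_lit 2) [nat_lit 0x3001,nat_lit 0x205031,nat_lit 0x4021,
    nat_lit 0x22001],.c (nat_lit 5) (nat_lit 2),.r (nat_lit 45) (nat_lit 4) [nat_lit 33,nat_lit 0x770631,
    nat_lit 0x20001],.r (nat_lit 40) (nat_lit 4) [nat_lit 34,nat_lit 0x990832,nat_lit 0x20001],
    .r (nat_lit 0xecc) (nat_lit 6) [nat_lit 0x600001,nat_lit 0x60001,nat_lit 0x777631,nat_lit 0x6001],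
    .r (nat_lit 0x117a) (nat_lit 13) [nat_lit 0x44001,nat_lit 0x40001,nat_lit 0x400001,nat_lit 0x300021],
    .c (nat_lit 0) (nat_lit 0x55543),.r (nat_lit 0x1750) (nat_lit 6) [nat_lit 33,nat_lit 0x22001],
    .c (nat_lit 0) (nat_lit 0x33323),.r (nat_lit 0x1b32) (nat_lit 10) [nat_lit 0x33231,nat_lit 0x20031,
    nat_lit 0x2021],.c (nat_lit 0) (nat_lit 0x55543),.c (nat_lit 6) (nat_lit 2),
    .r (nat_lit 0x1750) (nat_lit 8) [nat_lit 0x220031,nat_lit 0x2021],.c (nat_lit 7) (nat_lit 2)]]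

/-- nodes -/
noncomputable def rD7k_22_26 : List RJ :=
  [.l (nat_lit 14) (nat_lit 0xf78) (nat_lit 3) (nat_lit 0x69d000006f700000639000006390000070400000704000006f10000057100000571000005710000066400000664000005d5000005d5) (nat_lit 0xd00000067000000cb000000cb000000000000000000000193000000130000019300000193000000a0000000a00000012f0000012f)
    (nat_lit 0x1a406200f785d222046a71428456163856e11ec5fd15b84701860690156862c23446f715e83de1c2862c195c58f172064c18b05d215b864024fc70b0f7844c15b849014543f3142850a15683de1d3856e21b463916f874e15e849c0ffc599140050a1bdc6a718e470b177052415ec4bd15c445919905901f2476f234488121b493f18985dc15c46f1127c493199058620247af0f784561d3844c1bc44bd18f07bc18f055e11dc7230f785c215e850a16f83de15c457b0f7863c0f783de14d44d10f783de18b056e1270490124c4590f7855e0f783de14d44d111083de1c2858e15e856e127c5710f7863c0f783de11fc4d111083de163c5fd16643f31618590134472313444d118a05c412c4587195c47b0ffc515199066414d447711fc535175862818cc5351930470142850a1ebc76f0f785c20f783de14d458718a0494172056e140050a20247c90f783de110844218cc4b112f0628)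
    (nat_lit 0x1a40f783de0f783de0f783de0f783de0f783de0f783de0f7818806903de0f783de0f783de0f783de0f783de0f783de0f780f7855a15b8f783de0f783de0f783de0f783de0f783de0f78174862c190056e3de0f783de0f783de0f783de0f783de0f7822048d124fc86d1770f783de0f783de0f783de0f783de0f781a9c6f71c2c63914905dc3de0f783de0f783de0f783de0f78142857a0f785be15ec57118f0f783de0f783de0f783de0f7811583de113074e12f46f11ef063c3de0f783de0f783de0f78163870a15b857a15c449f18f03de0f78f783de0f783de0f7815b862c124049c116449315783de0f783de3de0f783de0f7811ec65714543ff199066411dc53514d447f18a0f783de0f7817f458f0fcc59916405861c8c4d113444d117106283de0f7815b85c814285001f248090f783de110844212c463318a0f7811c064c142850a1dbc7af17083de0f783de161c5351250628)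
    (nat_lit 4) (nat_lit 49)
    [[nat_lit 2,nat_lit 258,nat_lit 0x1002,nat_lit 0x100002,nat_lit 17,nat_lit 273,nat_lit 0x1011,nat_lit 0x100011,
    nat_lit 257,nat_lit 513,nat_lit 0x1101,nat_lit 0x100101,nat_lit 0x1000101,nat_lit 0x1001,nat_lit 0x2001,
    nat_lit 0x101001,nat_lit 0x1001001,nat_lit 0x100001,nat_lit 0x1100001,nat_lit 0x1000001],[nat_lit 32,
    nat_lit 0x1020,nat_lit 0x100020,nat_lit 272,nat_lit 528,nat_lit 0x10110,nat_lit 0x100110,nat_lit 0x1110,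
    nat_lit 0x1010,nat_lit 0x101010,nat_lit 0x1001010,nat_lit 0x10010,nat_lit 0x100010,nat_lit 0x1100010,
    nat_lit 0x200010,nat_lit 0x1000010],[nat_lit 512,nat_lit 768,nat_lit 0x1200,nat_lit 0x10200,nat_lit 0x100200,
    nat_lit 0x1100,nat_lit 0x101100,nat_lit 0x11100,nat_lit 0x1001100,nat_lit 0x10100,nat_lit 0x20100,
    nat_lit 0x110100,nat_lit 0x100100,nat_lit 0x1000100],[nat_lit 0x2000,nat_lit 0x1002000,nat_lit 0x11000,
    nat_lit 0x101000,nat_lit 0x1101000,nat_lit 0x1001000],[nat_lit 0x20000],[nat_lit 0x200000,nat_lit 0x1100000],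
    [nat_lit 0x2000000]]
    [.c (nat_lit 1) (nat_lit 2),.r (nat_lit 0x1b36) (nat_lit 13) [nat_lit 0x2044032,nat_lit 0x5021,nat_lit 0x200001],
    .r (nat_lit 0x174e) (nat_lit 6) [nat_lit 0x3332231,nat_lit 0x202001],
    .r (nat_lit 32) (nat_lit 0) [nat_lit 0x3332231,nat_lit 0x202001],.c (nat_lit 0) (nat_lit 0x2403),
    .r (nat_lit 0x1b36) (nat_lit 13) [nat_lit 0x2042031,nat_lit 0x3055041,nat_lit 0x200001],
    .r (nat_lit 2) (nat_lit 8) [nat_lit 0x300231,nat_lit 0x233021],.r (nat_lit 0x1bd6) (nat_lit 5) [nat_lit 0x233021,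
    nat_lit 0x320001],.r (nat_lit 0x1b77) (nat_lit 10) [nat_lit 0x303021,nat_lit 0x2242031,nat_lit 0x202001],
    .r (nat_lit 0x1b36) (nat_lit 13) [nat_lit 0x4062033,nat_lit 0x3005043,nat_lit 0x200001],
    .r (nat_lit 32) (nat_lit 4) [nat_lit 0x300231,nat_lit 0x202001],.r (nat_lit 0x1b3d) (nat_lit 2) [nat_lit 0x3001,
    nat_lit 0x300231,nat_lit 0x202001],.r (nat_lit 0x1b36) (nat_lit 13) [nat_lit 0x2042032,nat_lit 0x3021,
    nat_lit 0x200001],.c (nat_lit 0) (nat_lit 0x355045),.r (nat_lit 0x19ed) (nat_lit 9) [nat_lit 0x202001,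
    nat_lit 0x3021,nat_lit 0x322031],.c (nat_lit 2) (nat_lit 0x224032),
    .r (nat_lit 0x174e) (nat_lit 6) [nat_lit 0x3330231,nat_lit 0x202001],.c (nat_lit 0) (nat_lit 0x355045),
    .r (nat_lit 32) (nat_lit 0) [nat_lit 0x3330231,nat_lit 0x202001],.c (nat_lit 1) (nat_lit 514),
    .c (nat_lit 2) (nat_lit 2),.r (nat_lit 0x1b1c) (nat_lit 13) [nat_lit 0x3001,nat_lit 0x202001,nat_lit 0x2240321,
    nat_lit 0x2540451],.r (nat_lit 0x187e) (nat_lit 10) [nat_lit 0x202001,nat_lit 0x200001,nat_lit 0x2442321,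
    nat_lit 0x2945451],.c (nat_lit 1) (nat_lit 0x303402),.r (nat_lit 0x1b36) (nat_lit 13) [nat_lit 0x4060032,
    nat_lit 0x3030021,nat_lit 0x200001],.c (nat_lit 0) (nat_lit 0x557004),
    .r (nat_lit 32) (nat_lit 0) [nat_lit 0x303231,nat_lit 0x202001],.r (nat_lit 0x174e) (nat_lit 6) [nat_lit 0x303231,
    nat_lit 0x202001],.r (nat_lit 0x1c1e) (nat_lit 2) [nat_lit 0x3001,nat_lit 0x202001,nat_lit 33],
    .r (nat_lit 0x1a7f) (nat_lit 10) [nat_lit 0x503231,nat_lit 0x202001,nat_lit 0x200001],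
    .r (nat_lit 2) (nat_lit 8) [nat_lit 0x303231,nat_lit 0x230021],.r (nat_lit 0x1b36) (nat_lit 13) [nat_lit 0x300021,
    nat_lit 0x2440051,nat_lit 0x200001],.r (nat_lit 0) (nat_lit 8) [nat_lit 0x202001,nat_lit 33],
    .r (nat_lit 0x1bd6) (nat_lit 5) [nat_lit 0x230021,nat_lit 0x320001],
    .r (nat_lit 0x1bd6) (nat_lit 5) [nat_lit 0x430022,nat_lit 0x320001],.c (nat_lit 0) (nat_lit 0x2005),
    .c (nat_lit 3) (nat_lit 2),.r (nat_lit 0x1b36) (nat_lit 13) [nat_lit 0x6080034,nat_lit 0x3000022,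
    nat_lit 0x200001],.r (nat_lit 0x193f) (nat_lit 6) [nat_lit 33,nat_lit 0x4080031,nat_lit 0x4809031,
    nat_lit 0x5008021],.r (nat_lit 0x59c) (nat_lit 0) [nat_lit 0x39ffe71,nat_lit 0x5300021,nat_lit 0x530e021,
    nat_lit 0x84e0051,nat_lit 0x3900081],.r (nat_lit 0x188c) (nat_lit 13) [nat_lit 0x3001,nat_lit 33,nat_lit 0x202001,
    nat_lit 0x4080031],.c (nat_lit 0) (nat_lit 0x53545),.c (nat_lit 1) (nat_lit 0x22432),
    .c (nat_lit 6) (nat_lit 0x3323),.r (nat_lit 32) (nat_lit 4) [nat_lit 0x303231,nat_lit 0x202001],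
    .r (nat_lit 0x1b36) (nat_lit 13) [nat_lit 0x2220031,nat_lit 0x3500041,nat_lit 0x200001],
    .c (nat_lit 0) (nat_lit 0x390004),.c (nat_lit 4) (nat_lit 0x3323),.c (nat_lit 0) (nat_lit 0x53545),
    .r (nat_lit 0x1b77) (nat_lit 10) [nat_lit 0x300021,nat_lit 0x2240031,nat_lit 0x202001],.c (nat_lit 4) (nat_lit 2),
    .r (nat_lit 0x19ed) (nat_lit 9) [nat_lit 0x202001,nat_lit 33,nat_lit 0x320031],
    .r (nat_lit 2) (nat_lit 8) [nat_lit 0x33231,nat_lit 33],.c (nat_lit 0) (nat_lit 0x399989),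
    .c (nat_lit 2) (nat_lit 0x224232),.c (nat_lit 0) (nat_lit 0x355545),.c (nat_lit 5) (nat_lit 2),
    .c (nat_lit 6) (nat_lit 2),.c (nat_lit 0) (nat_lit 0x355545),.c (nat_lit 7) (nat_lit 2)],
    .l (nat_lit 14) (nat_lit 0x888) (nat_lit 6) (nat_lit 0x3c1000003c1000003b100000381000002ac0000044e000003a7000003a7000003f9000003f90000036b0000036b000003d7000003d7) (nat_lit 0x8d0000008d000000cd0000009d00000000000001a2000000a7000000a70000005500000055000000e3000000e30000007700000077)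
    (nat_lit 0xd0034c0bd03240e3421f0b383be09f03280d981ee0d2834a0cd03400bd03240f0420b13285ba09e036c0d681e20d2834a0c903240be0314044420f0c2830a11601ac0b383c20cb82be0bd02f40a102f80d541df0b782960f90338095834e0c2830a082c21f077c20f0bc013a07e4231069c253072411108d427d0f0438d0d5411111782f00e9c3a70c143f90e1c36b0ccc41b16e83be0a5830a0e9c2310c002f00d483520a003b80d9031413282ce0b7830a0e9c1f90c00300091835208c03680dd02240db03280ce01ac0fe42530d483520c003a410884220f3841609e027c0f904580c141a709183520e903000c5831611c84ba07881ee0d383c20dac1110da03b80c5842205402880f902f40d6836609582ce0e1c1c908c02800c584220a201500bd02f40d2834a0c282be106c27d089031412e84160bd02f40b603600d2834a0c2832e0ccc2350dd036411c83ce0bd03e40d202d8)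
    (nat_lit 0xd008882220888222088822208882220888222088822208880d303402220888222088822208882220888222088822208880bd02f40be0888222088822208882220888222088822208880c903240c502f8222088822208882220888222088822208880e343c104443550bc08882220888222088822208882220888087c20b083c1df04e82f022208882220888222088822208880b384ca0c282de07e43a70c008882220888222088822208880ef85b20c2829608c43a70bc030022208882220888222088809f02780ae03e4069c3050d482460c00888222088822208880ca036c06b0338094c3f90d483520e90300222088822208880d9835a0b3825607243670a0023010083160540888222088807b81e2088834e044436b0ee036810883160a2015022208880d2834a0cb830a08d43330d903740f384720f902f40b608880d2834a0af830a09f441b0c5022410584ba0bd02f40d802d8)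
    (nat_lit 5) (nat_lit 143)
    [[nat_lit 2,nat_lit 0x1002,nat_lit 17,nat_lit 33,nat_lit 0x10011,nat_lit 0x110011,nat_lit 0x1000011,
    nat_lit 0x1001,nat_lit 0x10001,nat_lit 0x11001,nat_lit 0x110001,nat_lit 0x111001,nat_lit 0x100001,
    nat_lit 0x100011,nat_lit 0x101001,nat_lit 0x200001,nat_lit 0x1000001],[nat_lit 32,nat_lit 48,nat_lit 64,
    nat_lit 80,nat_lit 96,nat_lit 0x110040,nat_lit 0x10030,nat_lit 0x110030,nat_lit 0x1000030,nat_lit 0x1020,
    nat_lit 0x1001020,nat_lit 0x11020,nat_lit 0x111020,nat_lit 0x10020,nat_lit 0x110020,nat_lit 0x100020,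
    nat_lit 0x100120,nat_lit 0x1000020,nat_lit 272,nat_lit 0x10110,nat_lit 0x1000110,nat_lit 0x100110,
    nat_lit 0x110110,nat_lit 0x1010,nat_lit 0x11010,nat_lit 0x111010,nat_lit 0x1001010,nat_lit 0x10010,
    nat_lit 0x20010,nat_lit 0x110010,nat_lit 0x120010,nat_lit 0x220010,nat_lit 0x1110010,nat_lit 0x1010010,
    nat_lit 0x100010,nat_lit 0x210010,nat_lit 0x1100010,nat_lit 0x1100110,nat_lit 0x1000010],[nat_lit 512,
    nat_lit 0x10200,nat_lit 0x1100,nat_lit 0x101100,nat_lit 0x11100,nat_lit 0x111100,nat_lit 0x10100,nat_lit 0x20100,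
    nat_lit 0x110100,nat_lit 0x120100,nat_lit 0x210100,nat_lit 0x1010100,nat_lit 0x100100,nat_lit 0x1000100,
    nat_lit 0x1100100],[nat_lit 0x2000,nat_lit 0x11000,nat_lit 0x111000,nat_lit 0x101000,nat_lit 0x1011000,
    nat_lit 0x1111000],[nat_lit 0x20000,nat_lit 0x120000,nat_lit 0x110000,nat_lit 0x220000,nat_lit 0x210000,
    nat_lit 0x1110000,nat_lit 0x1010000],[nat_lit 0x200000,nat_lit 0x1100000],[nat_lit 0x2000000]]
    [.c (nat_lit 1) (nat_lit 2),.r (nat_lit 0x1b04) (nat_lit 8) [nat_lit 0x4000861,nat_lit 0x10001],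
    .c (nat_lit 0) (nat_lit 0x210803),.r (nat_lit 0x196a) (nat_lit 1) [nat_lit 0x318801,nat_lit 0x6500041,
    nat_lit 0x200001],.r (nat_lit 32) (nat_lit 7) [nat_lit 0x18861,nat_lit 0x10001],.c (nat_lit 1) (nat_lit 0x18002),
    .c (nat_lit 4) (nat_lit 0x211003),.c (nat_lit 0) (nat_lit 0x210803),.r (nat_lit 0) (nat_lit 13) [nat_lit 0x10001,
    nat_lit 65],.r (nat_lit 0x1c1d) (nat_lit 10) [nat_lit 0x10001,nat_lit 0x318861,nat_lit 0x200001],
    .r (nat_lit 0x1c17) (nat_lit 10) [nat_lit 0x10001,nat_lit 0x318861,nat_lit 0x200001],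
    .r (nat_lit 40) (nat_lit 6) [nat_lit 0x4410061,nat_lit 0x6018041,nat_lit 0x10001],
    .r (nat_lit 0xffd) (nat_lit 2) [nat_lit 0x4010041,nat_lit 0x4410061,nat_lit 0x6539061,nat_lit 0x6018041],
    .r (nat_lit 0x1bec) (nat_lit 1) [nat_lit 0x6300041,nat_lit 0x318801],
    .r (nat_lit 0x1c1a) (nat_lit 10) [nat_lit 0x10001,nat_lit 0x318861,nat_lit 0x200001],
    .r (nat_lit 0x1ac5) (nat_lit 2) [nat_lit 65,nat_lit 0x318801,nat_lit 0x6300001,nat_lit 0x400061],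
    .r (nat_lit 10) (nat_lit 1) [nat_lit 0x300861,nat_lit 65],.c (nat_lit 2) (nat_lit 2),
    .r (nat_lit 45) (nat_lit 6) [nat_lit 65,nat_lit 0x600061,nat_lit 0x10001],.r (nat_lit 40) (nat_lit 6) [nat_lit 66,
    nat_lit 0x800062,nat_lit 0x10001],.r (nat_lit 0x163c) (nat_lit 4) [nat_lit 0x1755a841,nat_lit 0xa00061,
    nat_lit 0x154a2c61,nat_lit 65],.r (nat_lit 75) (nat_lit 6) [nat_lit 66,nat_lit 0xc00062,nat_lit 0x10001],
    .r (nat_lit 75) (nat_lit 6) [nat_lit 0x300041,nat_lit 0x800061,nat_lit 0x10001],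
    .r (nat_lit 0x1743) (nat_lit 2) [nat_lit 0xc630061,nat_lit 65,nat_lit 0xed69841,nat_lit 0x600061],
    .r (nat_lit 40) (nat_lit 6) [nat_lit 0x300041,nat_lit 0x600061,nat_lit 0x10001],
    .r (nat_lit 0x163d) (nat_lit 0) [nat_lit 0xed39841,nat_lit 0x94a001,nat_lit 0x4410c41,nat_lit 0xcc71c61],
    .r (nat_lit 0x1b04) (nat_lit 8) [nat_lit 0x6528841,nat_lit 0x10001],.c (nat_lit 0) (nat_lit 0xc02),
    .r (nat_lit 0x1b4d) (nat_lit 5) [nat_lit 0x4620c61,nat_lit 0x10001,nat_lit 0x318801],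
    .c (nat_lit 1) (nat_lit 0x220803),.c (nat_lit 0) (nat_lit 0x20003),.c (nat_lit 2) (nat_lit 0x18002),
    .c (nat_lit 0) (nat_lit 0x20003),.r (nat_lit 0x174b) (nat_lit 10) [nat_lit 0x10001,nat_lit 0x318801,
    nat_lit 0x218861],.r (nat_lit 0x1b8f) (nat_lit 9) [nat_lit 0x18041,nat_lit 0x318801,nat_lit 0x10001],
    .r (nat_lit 0x1b04) (nat_lit 8) [nat_lit 65,nat_lit 0x10001],.r (nat_lit 0x1b4d) (nat_lit 5) [nat_lit 0x200061,
    nat_lit 0x10001,nat_lit 0x318801],.c (nat_lit 0) (nat_lit 0x220862),.r (nat_lit 32) (nat_lit 1) [nat_lit 0x18861,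
    nat_lit 0x10001],.c (nat_lit 1) (nat_lit 0xc43),.c (nat_lit 0) (nat_lit 0x210803),
    .r (nat_lit 0x1972) (nat_lit 2) [nat_lit 0x6528841,nat_lit 0x6300001,nat_lit 0x4410061],
    .c (nat_lit 4) (nat_lit 0x18002),.c (nat_lit 0) (nat_lit 0xc02),.c (nat_lit 0) (nat_lit 0x10003),
    .c (nat_lit 0) (nat_lit 0x20003),.c (nat_lit 0) (nat_lit 0x10003),.c (nat_lit 5) (nat_lit 0x18002),
    .c (nat_lit 0) (nat_lit 0x20003),.c (nat_lit 4) (nat_lit 0x10803),
    .r (nat_lit 0x174b) (nat_lit 4) [nat_lit 0x10001,nat_lit 0x318801,nat_lit 0x6018861],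
    .c (nat_lit 0) (nat_lit 0x10003),.c (nat_lit 6) (nat_lit 0x18002),
    .r (nat_lit 0x1b4a) (nat_lit 0) [nat_lit 0x200061,nat_lit 0x10001,nat_lit 0x318801],
    .c (nat_lit 0) (nat_lit 0x220862),.r (nat_lit 0x196a) (nat_lit 1) [nat_lit 0x318801,nat_lit 0x300041,
    nat_lit 0x200001],.c (nat_lit 3) (nat_lit 2),.r (nat_lit 0x1744) (nat_lit 2) [nat_lit 0x529061,nat_lit 0x8841441,
    nat_lit 65,nat_lit 0xa549061],.r (nat_lit 10) (nat_lit 1) [nat_lit 65,nat_lit 0x300861],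
    .r (nat_lit 0x1c15) (nat_lit 11) [nat_lit 0x10001,nat_lit 0x318801,nat_lit 0x200c41],
    .r (nat_lit 0xe6e) (nat_lit 4) [nat_lit 0x6300861,nat_lit 0x6328841,nat_lit 0x4220c41,nat_lit 0x4620c61],
    .r (nat_lit 0x163e) (nat_lit 4) [nat_lit 0x6300861,nat_lit 0x400001,nat_lit 0x4220c41,nat_lit 0x6728841],
    .r (nat_lit 0x1972) (nat_lit 2) [nat_lit 65,nat_lit 0x6300001,nat_lit 0x18861],
    .r (nat_lit 0x1977) (nat_lit 5) [nat_lit 0x10001,nat_lit 0x318861,nat_lit 65,nat_lit 0x6328861],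
    .c (nat_lit 4) (nat_lit 0x211062),.r (nat_lit 0x1b4a) (nat_lit 0) [nat_lit 0x4210c41,nat_lit 0x10001,
    nat_lit 0x318801],.r (nat_lit 0x174b) (nat_lit 4) [nat_lit 0x10001,nat_lit 0x318801,nat_lit 65],
    .c (nat_lit 6) (nat_lit 0x318c43),.r (nat_lit 0) (nat_lit 4) [nat_lit 65,nat_lit 0x10001],
    .c (nat_lit 0) (nat_lit 0x220862),.c (nat_lit 5) (nat_lit 0x318c43),.c (nat_lit 4) (nat_lit 2),
    .r (nat_lit 0x1bec) (nat_lit 7) [nat_lit 65,nat_lit 0x318801],.r (nat_lit 0x1b47) (nat_lit 1) [nat_lit 0x318801,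
    nat_lit 0x10061,nat_lit 0x200001],.r (nat_lit 0x1c1e) (nat_lit 11) [nat_lit 0x18041,nat_lit 0x10001,
    nat_lit 0x318801],.c (nat_lit 0) (nat_lit 0xc02),.c (nat_lit 2) (nat_lit 0x10803),.c (nat_lit 5) (nat_lit 2),
    .c (nat_lit 0) (nat_lit 0x20003),.c (nat_lit 0) (nat_lit 0x10003),.c (nat_lit 0) (nat_lit 0x20003),
    .c (nat_lit 0) (nat_lit 0x20003),.c (nat_lit 1) (nat_lit 0x200002),.r (nat_lit 32) (nat_lit 7) [nat_lit 0x6318861,
    nat_lit 0x10001],.c (nat_lit 6) (nat_lit 2),.r (nat_lit 0x1bec) (nat_lit 1) [nat_lit 65,nat_lit 0x318801],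
    .c (nat_lit 7) (nat_lit 2)]]

/-- nodes -/
noncomputable def rD7k_22_27 : List RJ :=
  [.s (nat_lit 15) (nat_lit 0x1680) (nat_lit 7) (nat_lit 0x84e00000a3a00000ae900000ae900000b2d00000b2d00000b1400000b14000009980000099800000e2800000e2800000b6200000b62) (nat_lit 0x3ee000005da0000033f0000033f000002fb000002fb000003140000031400000490000004900000000000000000000002c6000002c6)
    (nat_lit 0xba011f039685a70a1e14f42bf053a077c0cd842707c60b10140035805d011021bec28b873f0ec41c982b305aa147428e836e02d00df6169c3d507460fdc19a03ea89fd0cb218747c68b2d0d66208c440872d0f541ea83e007ee0a961ebc2f7865916861b8c41c88230e7e14f43f7066810b020c840c88471546249c5968b970c92203428b850f0f801fb84190858103220646a48bcd165a2da443388670e4c14e83d789fd1032211c16808000c901a1058a0468112421383b1057e0a961f5440c881910000b40342068405a02c5046b084e0b540cd832c861d179a249c34206840a1014204cc09980d1c3c582b303be0bde19646a48aa30d0819202840508133026603ad0fe214741f183718b2d16d22e5c58a04681330266028c0e2816c42d8851d084e16863e345968b2d05a02c504cc09981c5014605f50b6205a01400411882310ce2034427084e1fc43c585b10b621138227036e058810721acc433864911ac22483ad068e17d42d8834a089c)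
    (nat_lit 0xba05a00b4016802d005a00b4016802d005a00b4016802d005a0023e05d02d005a00b4016802d005a00b4016802d005a00b4016800e5a22043d516802d005a00b4016802d005a00b4016802d005a002d386fb0e8c1ea8b4016802d005a00b4016802d005a00b4016800a1e145c3f707c010b05a00b4016802d005a00b4016802d005a0029e873f0cd01fb841908582d005a00b4016802d005a00b4016800afc1d883ea854b1032206416816802d005a00b4016802d005a0029d072613fa1ebc423881910000b40b4016802d005a00b401680077c159832c85ef1546235432406840a105a00b4016802d005a0019b05aa0c3a1964493884d0d081a1028405082d005a00b401680101427d86668a7f162e2ba456802d012a8246028c16802d005a003e30a3a165a1b8c5cb8b6908d02c504cc09981c501460b4016800b101b7035988390c92219c44908d60d1c1d685b10b6210b05a0028002d01046208c40687df10142138303068e152c2b683e80858)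
    (nat_lit 6) (nat_lit 193)
    [[nat_lit 0,nat_lit 4],[nat_lit 0,nat_lit 5],[nat_lit 0,nat_lit 7,nat_lit 6,nat_lit 1,nat_lit 10],[nat_lit 0,
    nat_lit 7,nat_lit 6,nat_lit 1,nat_lit 11],[nat_lit 0,nat_lit 7,nat_lit 6,nat_lit 1,nat_lit 13,nat_lit 12],
    [nat_lit 1,nat_lit 4],[nat_lit 1,nat_lit 5],[nat_lit 2,nat_lit 10],[nat_lit 2,nat_lit 11],[nat_lit 2,nat_lit 12,
    nat_lit 12],[nat_lit 2,nat_lit 12,nat_lit 13],[nat_lit 2,nat_lit 13,nat_lit 13],[nat_lit 3,nat_lit 10],[nat_lit 3,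
    nat_lit 11],[nat_lit 3,nat_lit 12,nat_lit 12],[nat_lit 3,nat_lit 12,nat_lit 13],[nat_lit 3,nat_lit 13,nat_lit 13],
    [nat_lit 4,nat_lit 8],[nat_lit 4,nat_lit 9],[nat_lit 5,nat_lit 8],[nat_lit 5,nat_lit 9]]
    [nat_lit 260,nat_lit 261,nat_lit 0x10761a,nat_lit 0x10761b,nat_lit 0x10761dc,nat_lit 276,nat_lit 277,nat_lit 298,
    nat_lit 299,nat_lit 0x12cc,nat_lit 0x12cd,nat_lit 0x12dd,nat_lit 314,nat_lit 315,nat_lit 0x13cc,nat_lit 0x13cd,
    nat_lit 0x13dd,nat_lit 328,nat_lit 329,nat_lit 344,nat_lit 345]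
    [[[nat_lit 0,nat_lit 4],[nat_lit 0,nat_lit 5],[nat_lit 0,nat_lit 7,nat_lit 6,nat_lit 1,nat_lit 10],[nat_lit 0,
    nat_lit 7,nat_lit 6,nat_lit 1,nat_lit 11],[nat_lit 0,nat_lit 7,nat_lit 6,nat_lit 1,nat_lit 13,nat_lit 12],
    [nat_lit 1,nat_lit 4],[nat_lit 1,nat_lit 5],[nat_lit 1,nat_lit 10,nat_lit 0,nat_lit 7,nat_lit 6],[nat_lit 1,
    nat_lit 11,nat_lit 0,nat_lit 7,nat_lit 6],[nat_lit 1,nat_lit 13,nat_lit 12,nat_lit 0,nat_lit 7,nat_lit 6],
    [nat_lit 2,nat_lit 10],[nat_lit 2,nat_lit 11]],[[nat_lit 2,nat_lit 12,nat_lit 12],[nat_lit 2,nat_lit 12,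
    nat_lit 13],[nat_lit 2,nat_lit 13,nat_lit 13],[nat_lit 3,nat_lit 10],[nat_lit 3,nat_lit 11],[nat_lit 3,nat_lit 12,
    nat_lit 12],[nat_lit 3,nat_lit 12,nat_lit 13],[nat_lit 3,nat_lit 13,nat_lit 13],[nat_lit 4,nat_lit 0],[nat_lit 4,
    nat_lit 1],[nat_lit 4,nat_lit 8],[nat_lit 4,nat_lit 9]],[[nat_lit 5,nat_lit 0],[nat_lit 5,nat_lit 1],[nat_lit 5,
    nat_lit 8],[nat_lit 5,nat_lit 9],[nat_lit 6,nat_lit 1,nat_lit 10,nat_lit 0,nat_lit 7],[nat_lit 6,nat_lit 1,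
    nat_lit 11,nat_lit 0,nat_lit 7],[nat_lit 6,nat_lit 1,nat_lit 13,nat_lit 12,nat_lit 0,nat_lit 7],[nat_lit 7,
    nat_lit 6,nat_lit 1,nat_lit 10,nat_lit 0],[nat_lit 7,nat_lit 6,nat_lit 1,nat_lit 11,nat_lit 0],[nat_lit 7,
    nat_lit 6,nat_lit 1,nat_lit 13,nat_lit 12,nat_lit 0],[nat_lit 8,nat_lit 4],[nat_lit 8,nat_lit 5]],[[nat_lit 9,
    nat_lit 4],[nat_lit 9,nat_lit 5],[nat_lit 10,nat_lit 0,nat_lit 7,nat_lit 6,nat_lit 1],[nat_lit 10,nat_lit 2],
    [nat_lit 10,nat_lit 3],[nat_lit 11,nat_lit 0,nat_lit 7,nat_lit 6,nat_lit 1],[nat_lit 11,nat_lit 2],[nat_lit 11,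
    nat_lit 3],[nat_lit 12,nat_lit 0,nat_lit 7,nat_lit 6,nat_lit 1,nat_lit 13],[nat_lit 12,nat_lit 2,nat_lit 12],
    [nat_lit 12,nat_lit 3,nat_lit 12],[nat_lit 12,nat_lit 12,nat_lit 2]],[[nat_lit 12,nat_lit 12,nat_lit 3],
    [nat_lit 12,nat_lit 13,nat_lit 2],[nat_lit 12,nat_lit 13,nat_lit 3],[nat_lit 13,nat_lit 2,nat_lit 12],[nat_lit 13,
    nat_lit 2,nat_lit 13],[nat_lit 13,nat_lit 3,nat_lit 12],[nat_lit 13,nat_lit 3,nat_lit 13],[nat_lit 13,nat_lit 12,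
    nat_lit 0,nat_lit 7,nat_lit 6,nat_lit 1],[nat_lit 13,nat_lit 13,nat_lit 2],[nat_lit 13,nat_lit 13,nat_lit 3]]]
    [[nat_lit 20,nat_lit 24,nat_lit 31,nat_lit 32,nat_lit 33,nat_lit 21,nat_lit 25,nat_lit 38,nat_lit 41,nat_lit 55,
    nat_lit 39,nat_lit 42],[nat_lit 47,nat_lit 49,nat_lit 56,nat_lit 40,nat_lit 43,nat_lit 48,nat_lit 50,nat_lit 57,
    nat_lit 0,nat_lit 5,nat_lit 34,nat_lit 36],[nat_lit 1,nat_lit 6,nat_lit 35,nat_lit 37,nat_lit 7,nat_lit 8,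
    nat_lit 9,nat_lit 28,nat_lit 29,nat_lit 30,nat_lit 22,nat_lit 26],[nat_lit 23,nat_lit 27,nat_lit 2,nat_lit 10,
    nat_lit 15,nat_lit 3,nat_lit 11,nat_lit 16,nat_lit 4,nat_lit 12,nat_lit 17,nat_lit 45],[nat_lit 46,nat_lit 51,
    nat_lit 53,nat_lit 13,nat_lit 14,nat_lit 18,nat_lit 19,nat_lit 44,nat_lit 52,nat_lit 54]]
    [[nat_lit 20,nat_lit 24,nat_lit 38,nat_lit 41,nat_lit 44,nat_lit 21,nat_lit 25,nat_lit 28,nat_lit 29,nat_lit 30,
    nat_lit 39,nat_lit 42],[nat_lit 45,nat_lit 51,nat_lit 52,nat_lit 40,nat_lit 43,nat_lit 46,nat_lit 53,nat_lit 54,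
    nat_lit 0,nat_lit 5,nat_lit 34,nat_lit 36],[nat_lit 1,nat_lit 6,nat_lit 35,nat_lit 37,nat_lit 31,nat_lit 32,
    nat_lit 33,nat_lit 2,nat_lit 3,nat_lit 4,nat_lit 22,nat_lit 26],[nat_lit 23,nat_lit 27,nat_lit 7,nat_lit 10,
    nat_lit 15,nat_lit 8,nat_lit 11,nat_lit 16,nat_lit 55,nat_lit 47,nat_lit 48,nat_lit 12],[nat_lit 17,nat_lit 13,
    nat_lit 18,nat_lit 49,nat_lit 56,nat_lit 50,nat_lit 57,nat_lit 9,nat_lit 14,nat_lit 19]]
    [[[],[nat_lit 48,nat_lit 50],[],[],[],[],[],[nat_lit 17],[],[nat_lit 16],[nat_lit 4],[]],[[],[],[nat_lit 3],[],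
    [nat_lit 27],[nat_lit 24],[nat_lit 24],[],[],[nat_lit 13,nat_lit 14],[nat_lit 10],[]],[[],[],[],[],[],[],[],[],[],
    [],[],[]],[[],[nat_lit 43],[],[nat_lit 34],[],[nat_lit 56],[],[nat_lit 55],[nat_lit 39],[],[nat_lit 38],[]],[[],
    [],[],[nat_lit 5],[nat_lit 5],[],[],[],[],[]]]
    (nat_lit 58) [nat_lit 0,nat_lit 1,nat_lit 2,nat_lit 3,nat_lit 4,nat_lit 5,nat_lit 6,nat_lit 10,nat_lit 11,
    nat_lit 12,nat_lit 13,nat_lit 14,nat_lit 15,nat_lit 16,nat_lit 17,nat_lit 18,nat_lit 19,nat_lit 22,nat_lit 23,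
    nat_lit 26,nat_lit 27]
    [[[],[],[],[],[nat_lit 0],[nat_lit 1],[],[],[],[],[nat_lit 2],[nat_lit 3],[nat_lit 4],[]],[[],[],[],[],
    [nat_lit 5],[nat_lit 6],[nat_lit 7,nat_lit 8,nat_lit 9],[],[],[],[],[],[],[]],[[],[],[],[],[],[],[],[],[],[],
    [nat_lit 10],[nat_lit 11],[nat_lit 12],[nat_lit 13,nat_lit 14]],[[],[],[],[],[],[],[],[],[],[],[nat_lit 15],
    [nat_lit 16],[nat_lit 17],[nat_lit 18,nat_lit 19]],[[nat_lit 20],[nat_lit 21],[],[],[],[],[],[],[nat_lit 22],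
    [nat_lit 23],[],[],[],[]],[[nat_lit 24],[nat_lit 25],[],[],[],[],[],[],[nat_lit 26],[nat_lit 27],[],[],[],[]],[[],
    [],[],[],[],[],[],[nat_lit 28,nat_lit 29,nat_lit 30],[],[],[],[],[],[]],[[nat_lit 31,nat_lit 32,nat_lit 33],[],[],
    [],[],[],[],[],[],[],[],[],[],[]],[[],[],[],[],[nat_lit 34],[nat_lit 35],[],[],[],[],[],[],[],[]],[[],[],[],[],
    [nat_lit 36],[nat_lit 37],[],[],[],[],[],[],[],[]],[[],[nat_lit 38],[nat_lit 39],[nat_lit 40],[],[],[],[],[],[],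
    [],[],[],[]],[[],[nat_lit 41],[nat_lit 42],[nat_lit 43],[],[],[],[],[],[],[],[],[],[]],[[],[],[nat_lit 47,
    nat_lit 49],[nat_lit 48,nat_lit 50],[],[],[],[],[],[],[],[],[nat_lit 45,nat_lit 46],[nat_lit 44]],[[],
    [nat_lit 55],[nat_lit 56],[nat_lit 57],[],[],[],[],[],[],[],[],[nat_lit 51,nat_lit 53],[nat_lit 52,nat_lit 54]]]
    [[[nat_lit 0,nat_lit 0x5000000000000,nat_lit 0,nat_lit 0,nat_lit 0,nat_lit 0,nat_lit 0,nat_lit 0x20000,nat_lit 0],
    [nat_lit 0x10000,nat_lit 16,nat_lit 0,nat_lit 0,nat_lit 0,nat_lit 8,nat_lit 0,nat_lit 0x8000000,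
    nat_lit 0x1000000],[nat_lit 0x1000000,nat_lit 0,nat_lit 0,nat_lit 0x6000,nat_lit 0x400,nat_lit 0,nat_lit 0,
    nat_lit 0,nat_lit 0],[nat_lit 0,nat_lit 0,nat_lit 0,nat_lit 0,nat_lit 0,nat_lit 0,nat_lit 0,nat_lit 0,nat_lit 0],
    [nat_lit 0,nat_lit 0x80000000000,nat_lit 0,nat_lit 0x400000000,nat_lit 0,nat_lit 0x100000000000000,nat_lit 0,
    nat_lit 0x80000000000000,nat_lit 0x8000000000],[nat_lit 0,nat_lit 0x4000000000,nat_lit 0,nat_lit 0,nat_lit 0,
    nat_lit 0,nat_lit 32,nat_lit 32,nat_lit 0],[nat_lit 0,nat_lit 0,nat_lit 0,nat_lit 0]]]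
    []
    (nat_lit 0) (nat_lit 8) (nat_lit 8)
    [[nat_lit 2,nat_lit 0x1000102,nat_lit 0x1000002,nat_lit 0x2000002,nat_lit 0x2000102,nat_lit 0x1001011,
    nat_lit 0x1000201,nat_lit 0x1101,nat_lit 0x1001101,nat_lit 0x100101,nat_lit 0x1100101,nat_lit 0x1000101,
    nat_lit 0x2000201,nat_lit 0x2000101,nat_lit 0x1001,nat_lit 0x2001,nat_lit 0x1002001,nat_lit 0x101001,
    nat_lit 0x1101001,nat_lit 0x1001001,nat_lit 0x10001,nat_lit 0x1011001,nat_lit 0x110001,nat_lit 0x1010001,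
    nat_lit 0x2010001,nat_lit 0x2010101,nat_lit 0x100001,nat_lit 0x1100001,nat_lit 0x1000001,nat_lit 0x2001001,
    nat_lit 0x2000001,nat_lit 0x3000001,nat_lit 0x3000101],[nat_lit 32,nat_lit 48,nat_lit 64,nat_lit 0x1030,
    nat_lit 0x2030,nat_lit 0x1020,nat_lit 0x3030,nat_lit 0x2020,nat_lit 0x3020,nat_lit 0x4020,nat_lit 272,
    nat_lit 0x1110,nat_lit 0x1010,nat_lit 0x2110,nat_lit 0x101110,nat_lit 0x2010,nat_lit 0x3010,nat_lit 0x4010,
    nat_lit 0x5010,nat_lit 0x6010,nat_lit 0x1002010,nat_lit 0x101010,nat_lit 0x1001010,nat_lit 0x1101010,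
    nat_lit 0x1000010,nat_lit 0x1100010],[nat_lit 512,nat_lit 768,nat_lit 0x400,nat_lit 0x100300,nat_lit 0x1000300,
    nat_lit 0x1200,nat_lit 0x2200,nat_lit 0x1001200,nat_lit 0x100200,nat_lit 0x1100200,nat_lit 0x1000200,
    nat_lit 0x2000200,nat_lit 0x2000300,nat_lit 0x1010200,nat_lit 0x1100,nat_lit 0x2100,nat_lit 0x3100,nat_lit 0x4100,
    nat_lit 0x102100,nat_lit 0x1002100,nat_lit 0x101100,nat_lit 0x1101100,nat_lit 0x1001100,nat_lit 0x2001100,
    nat_lit 0x1010100,nat_lit 0x100100,nat_lit 0x200100,nat_lit 0x1100100,nat_lit 0x1110100,nat_lit 0x2100100,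
    nat_lit 0x1000100,nat_lit 0x3000200,nat_lit 0x2010100,nat_lit 0x2000100,nat_lit 0x3000100],[nat_lit 0x2000,
    nat_lit 0x3000,nat_lit 0x4000,nat_lit 0x5000,nat_lit 0x6000,nat_lit 0x7000,nat_lit 0x1004000,nat_lit 0x13000,
    nat_lit 0x103000,nat_lit 0x1003000,nat_lit 0x12000,nat_lit 0x1012000,nat_lit 0x102000,nat_lit 0x1102000,
    nat_lit 0x1002000,nat_lit 0x2002000,nat_lit 0x11000,nat_lit 0x1011000,nat_lit 0x111000,nat_lit 0x101000,
    nat_lit 0x1101000,nat_lit 0x1111000,nat_lit 0x201000,nat_lit 0x1001000,nat_lit 0x2001000],[nat_lit 0x20000,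
    nat_lit 0x1020000,nat_lit 0x110000,nat_lit 0x210000,nat_lit 0x1110000,nat_lit 0x1010000,nat_lit 0x2010000,
    nat_lit 0x2020000,nat_lit 0x3010000],[nat_lit 0x200000,nat_lit 0x1200000,nat_lit 0x1100000,nat_lit 0x2100000],
    [nat_lit 0x2000000,nat_lit 0x3000000,nat_lit 0x4000000]]
    [.c (nat_lit 1) (nat_lit 2),.c (nat_lit 4) (nat_lit 0xc00c2083),.c (nat_lit 0) (nat_lit 0x145140103),
    .c (nat_lit 0) (nat_lit 0x145140103),.c (nat_lit 0) (nat_lit 0x3003002),.c (nat_lit 2) (nat_lit 0x820800c2),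
    .c (nat_lit 0) (nat_lit 0x5005002),.c (nat_lit 0) (nat_lit 0x3003002),.c (nat_lit 1) (nat_lit 0xc00c2083),
    .c (nat_lit 0) (nat_lit 0xc30c3002),.c (nat_lit 0) (nat_lit 0x1451c5004),.c (nat_lit 0) (nat_lit 0x50c5004),
    .c (nat_lit 0) (nat_lit 0x5005002),.c (nat_lit 0) (nat_lit 0x30c3002),.c (nat_lit 0) (nat_lit 0x1451c0105),
    .c (nat_lit 0) (nat_lit 0x145140103),.c (nat_lit 4) (nat_lit 0x820800c2),.c (nat_lit 7) (nat_lit 0x20800c2),
    .c (nat_lit 2) (nat_lit 0x3000083),.c (nat_lit 0) (nat_lit 0xc30c0083),.c (nat_lit 1) (nat_lit 0x2002),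
    .c (nat_lit 1) (nat_lit 0x820820c2),.c (nat_lit 0) (nat_lit 0xc5143103),.c (nat_lit 0) (nat_lit 0x145143103),
    .c (nat_lit 0) (nat_lit 0x145143103),.c (nat_lit 0) (nat_lit 0x3000002),.c (nat_lit 0) (nat_lit 0xc5140103),
    .r (nat_lit 0x19c6) (nat_lit 7) [nat_lit 0x30c30020c1,nat_lit 0x80080001,nat_lit 0x2002000001],
    .c (nat_lit 0) (nat_lit 0xc30c0083),.c (nat_lit 7) (nat_lit 0x820800c2),.c (nat_lit 0) (nat_lit 0x145140103),
    .r (nat_lit 0x19c6) (nat_lit 7) [nat_lit 0x50c30020c1,nat_lit 0x80080001,nat_lit 0x2002000001],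
    .c (nat_lit 0) (nat_lit 0x51c5004),.c (nat_lit 2) (nat_lit 2),
    .r (nat_lit 0x1bec) (nat_lit 1) [nat_lit 0x40060000c2,nat_lit 0x80080001],
    .r (nat_lit 0xcb7) (nat_lit 4) [nat_lit 0x80000c2,nat_lit 0x80080000c1,nat_lit 0x200000001,nat_lit 0x11859450082,
    nat_lit 129],.r (nat_lit 0xcb8) (nat_lit 1) [nat_lit 0x4004000001,nat_lit 0x5147144141,nat_lit 257,
    nat_lit 0x4206105101,nat_lit 0x5147004141],.r (nat_lit 0xcb9) (nat_lit 1) [nat_lit 0x4004000001,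
    nat_lit 0x51471440c1,nat_lit 129,nat_lit 0x4206105081,nat_lit 0x51470040c1],
    .r (nat_lit 0x1b22) (nat_lit 13) [nat_lit 0xc0001,nat_lit 0x80080001,nat_lit 0x80003081],
    .r (nat_lit 0xcba) (nat_lit 1) [nat_lit 0xc00c000001,nat_lit 0xd35334c141,nat_lit 257,nat_lit 0xc61230d101,
    nat_lit 0xd35300c141],.r (nat_lit 0x19c6) (nat_lit 7) [nat_lit 0x5005000082,nat_lit 0x80080001,
    nat_lit 0x2002000001],.r (nat_lit 0xcbb) (nat_lit 1) [nat_lit 0x8008000141,nat_lit 0x924d248081,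
    nat_lit 0x840c2090c1,nat_lit 257,nat_lit 0x924d008081],.r (nat_lit 0xcbc) (nat_lit 12) [nat_lit 0x4000001,
    nat_lit 0x8404209082,nat_lit 0x5000082,nat_lit 0x92452480c2,nat_lit 0x4000000001],
    .c (nat_lit 0) (nat_lit 0x1471c3102),.c (nat_lit 0) (nat_lit 0x1471c3102),
    .r (nat_lit 0x196a) (nat_lit 13) [nat_lit 0x80000001,nat_lit 0x2082003081,nat_lit 0x30c3002001],
    .c (nat_lit 0) (nat_lit 0x1471c3102),.c (nat_lit 0) (nat_lit 0x145143082),
    .r (nat_lit 8) (nat_lit 8) [nat_lit 0x1431440c2,nat_lit 0x80080001],.r (nat_lit 117) (nat_lit 7) [nat_lit 0x80001,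
    nat_lit 0x80000001,nat_lit 0x2002000001,nat_lit 0x3003000081],
    .r (nat_lit 0xf25) (nat_lit 7) [nat_lit 0x924b2480c2,nat_lit 0x4004000001,nat_lit 0x924b0080c2,
    nat_lit 0x840a209082],.r (nat_lit 0xcbd) (nat_lit 1) [nat_lit 0x4004000141,nat_lit 0x5147144081,
    nat_lit 0x42061050c1,nat_lit 257,nat_lit 0x5147004081],.r (nat_lit 0xcbe) (nat_lit 1) [nat_lit 0x20020000c1,
    nat_lit 0x5147144082,nat_lit 0x42061050c2,nat_lit 129,nat_lit 0x5147004082],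
    .r (nat_lit 0xf25) (nat_lit 7) [nat_lit 0x51451440c1,nat_lit 0x4004000001,nat_lit 0x51450040c1,
    nat_lit 0x4204105081],.c (nat_lit 0) (nat_lit 0xc00c0002),.r (nat_lit 8) (nat_lit 8) [nat_lit 0xc00c20c1,
    nat_lit 0x80080001],.c (nat_lit 1) (nat_lit 0x3000083),.c (nat_lit 0) (nat_lit 0x80005),
    .c (nat_lit 0) (nat_lit 0x1401c0004),.c (nat_lit 3) (nat_lit 2),.c (nat_lit 0) (nat_lit 0x1cd1c7182),
    .c (nat_lit 0) (nat_lit 0x251249202),.c (nat_lit 0) (nat_lit 0x24d1c7182),.c (nat_lit 0) (nat_lit 0x1cd1c7182),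
    .c (nat_lit 0) (nat_lit 0x149145102),.c (nat_lit 0) (nat_lit 0x149145102),.c (nat_lit 1) (nat_lit 0xc20c4083),
    .c (nat_lit 0) (nat_lit 0x1c9145102),.c (nat_lit 0) (nat_lit 0x1c9145102),.c (nat_lit 0) (nat_lit 0x149145102),
    .c (nat_lit 0) (nat_lit 0x149145102),.c (nat_lit 0) (nat_lit 0x1cd1c7182),.c (nat_lit 0) (nat_lit 0x3000002),
    .r (nat_lit 0x1b04) (nat_lit 10) [nat_lit 129,nat_lit 0x2002000001],
    .r (nat_lit 0xcbf) (nat_lit 7) [nat_lit 0x100000001,nat_lit 0x5449248141,nat_lit 0x52451440c1,nat_lit 0x100100001,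
    nat_lit 0x840c209101],.r (nat_lit 0xcc0) (nat_lit 1) [nat_lit 0x3245144101,nat_lit 0x800000c1,nat_lit 129,
    nat_lit 0x4206105141,nat_lit 0x800800c1],.r (nat_lit 0xcc1) (nat_lit 1) [nat_lit 0x3245144101,nat_lit 0x800000c1,
    nat_lit 129,nat_lit 0x4206105141,nat_lit 0x800800c1],.r (nat_lit 0x19c7) (nat_lit 0) [nat_lit 0x30c51440c1,
    nat_lit 0x30c50840c1,nat_lit 0x2204105081,nat_lit 0x2002000001],
    .r (nat_lit 0x174b) (nat_lit 8) [nat_lit 0x2002000001,nat_lit 0x80000001,nat_lit 0x50c50040c1],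
    .r (nat_lit 0x1c20) (nat_lit 8) [nat_lit 0x2002000001,nat_lit 0x30c3002001,nat_lit 0x80003081],
    .r (nat_lit 0xcc2) (nat_lit 2) [nat_lit 0x30030820c1,nat_lit 0x4004000001,nat_lit 0x2102083081,
    nat_lit 0x1430c2081,nat_lit 0x30030c20c1],.r (nat_lit 32) (nat_lit 11) [nat_lit 0x30030020c1,
    nat_lit 0x2002000001],.r (nat_lit 0x1c20) (nat_lit 8) [nat_lit 0x2002000001,nat_lit 0x30c3002001,
    nat_lit 0x2080003081],.c (nat_lit 0) (nat_lit 0x50c0004),.r (nat_lit 0) (nat_lit 1) [nat_lit 0x20820000c1,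
    nat_lit 129],.r (nat_lit 0xd5d) (nat_lit 11) [nat_lit 0x5145144001,nat_lit 0x100001,nat_lit 0x40840000c1,
    nat_lit 0x100000001],.r (nat_lit 0x1ae2) (nat_lit 2) [nat_lit 0x2002000001,nat_lit 0x80080001,
    nat_lit 0x30c30c0081],.c (nat_lit 0) (nat_lit 0x1451c0004),.r (nat_lit 0xd5d) (nat_lit 11) [nat_lit 0x5145144001,
    nat_lit 0x100001,nat_lit 0x20840000c1,nat_lit 0x100000001],.r (nat_lit 0) (nat_lit 3) [nat_lit 0x2002000001,
    nat_lit 129],.c (nat_lit 0) (nat_lit 0x149145102),.c (nat_lit 0) (nat_lit 0x30c0002),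
    .r (nat_lit 0) (nat_lit 1) [nat_lit 0x820000c1,nat_lit 0x2000000081],
    .r (nat_lit 0x1ae2) (nat_lit 2) [nat_lit 0x2002000001,nat_lit 0x80080001,nat_lit 0xc30c0081],
    .c (nat_lit 4) (nat_lit 2),.r (nat_lit 45) (nat_lit 1) [nat_lit 129,nat_lit 0x71c70060c1,nat_lit 0x2002000001],
    .r (nat_lit 40) (nat_lit 1) [nat_lit 130,nat_lit 0x92490080c2,nat_lit 0x2002000001],
    .r (nat_lit 0xcc3) (nat_lit 12) [nat_lit 0xa000001,nat_lit 0xa50a28b081,nat_lit 129,nat_lit 0xb2cb2ca0c1,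
    nat_lit 0xa000000001],.r (nat_lit 75) (nat_lit 1) [nat_lit 130,nat_lit 0xd34d00c0c2,nat_lit 0x2002000001],
    .r (nat_lit 0xcc4) (nat_lit 12) [nat_lit 0xe000001,nat_lit 0xe70e38f081,nat_lit 129,nat_lit 0xf3cf3ce0c1,
    nat_lit 0xe000000001],.r (nat_lit 0xcc5) (nat_lit 1) [nat_lit 0x2000000101,nat_lit 0x30c30c20c1,
    nat_lit 0x2102083081,nat_lit 0x2000141,nat_lit 0x30c30020c1],.r (nat_lit 0xcc6) (nat_lit 1) [nat_lit 0x3145144141,
    nat_lit 129,nat_lit 0x800000c1,nat_lit 0x4106105101,nat_lit 0x80081],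
    .r (nat_lit 0xcc7) (nat_lit 1) [nat_lit 0x734d00c141,nat_lit 0xc0001,nat_lit 0x2104005081,nat_lit 0x80080001,
    nat_lit 0x830e00d101],.r (nat_lit 0xf28) (nat_lit 7) [nat_lit 0x71c71c60c1,nat_lit 0x6006000001,
    nat_lit 0x71c70060c1,nat_lit 0x6306187081],.c (nat_lit 0) (nat_lit 0x145143103),
    .c (nat_lit 4) (nat_lit 0x820820c2),.c (nat_lit 0) (nat_lit 0xc5140103),
    .r (nat_lit 0xcc8) (nat_lit 1) [nat_lit 0x8008000001,nat_lit 0x5247248141,nat_lit 0x5007000101,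
    nat_lit 0x4406209101,nat_lit 0x5247008141],.c (nat_lit 0) (nat_lit 0x145140103),
    .c (nat_lit 0) (nat_lit 0x145140103),.c (nat_lit 0) (nat_lit 0x1451c5105),.c (nat_lit 0) (nat_lit 0xc30c3083),
    .c (nat_lit 7) (nat_lit 0x20820c2),.c (nat_lit 0) (nat_lit 0x50c0105),
    .r (nat_lit 0x1b4a) (nat_lit 4) [nat_lit 0x30c30020c1,nat_lit 0x2002000001,nat_lit 0x80000001],
    .c (nat_lit 2) (nat_lit 0x3003083),.r (nat_lit 0xfee) (nat_lit 9) [nat_lit 0x200200001,nat_lit 0x52492480c1,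
    nat_lit 257,nat_lit 0x5000000081],.c (nat_lit 0) (nat_lit 0xc30c0083),.c (nat_lit 0) (nat_lit 0x1450c0105),
    .c (nat_lit 5) (nat_lit 2),.c (nat_lit 0) (nat_lit 0x145145103),.c (nat_lit 0) (nat_lit 0xc5143103),
    .r (nat_lit 0x1bb5) (nat_lit 5) [nat_lit 0x80001,nat_lit 129,nat_lit 0x80000001],
    .r (nat_lit 0x19c6) (nat_lit 7) [nat_lit 0x30c30c20c1,nat_lit 0x80080001,nat_lit 0x2002000001],
    .c (nat_lit 0) (nat_lit 0xc30c3083),.c (nat_lit 0) (nat_lit 0x145143103),.c (nat_lit 0) (nat_lit 0x145145103),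
    .r (nat_lit 0x19c6) (nat_lit 7) [nat_lit 0x50c30c20c1,nat_lit 0x80080001,nat_lit 0x2002000001],
    .c (nat_lit 6) (nat_lit 2),.r (nat_lit 0xf29) (nat_lit 4) [nat_lit 129,nat_lit 0x100000001,nat_lit 0x5245144001,
    nat_lit 0x40040000c1],.r (nat_lit 0x1bec) (nat_lit 1) [nat_lit 129,nat_lit 0x80080001],
    .c (nat_lit 2) (nat_lit 0x80100003),.c (nat_lit 7) (nat_lit 2),
    .r (nat_lit 0x1bec) (nat_lit 1) [nat_lit 0x2000000081,nat_lit 0x80080001],.c (nat_lit 2) (nat_lit 0x100003)]]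

/-- nodes -/
noncomputable def rD7k_22_28 : List RJ :=
  [.l (nat_lit 16) (nat_lit 0x2d00) (nat_lit 4) (nat_lit 0x146f0000146f0000136b0000136b0000118600001186000017cc000017cc0000146c0000146c0000136e0000136e0000127800001278) (nat_lit 0x35d0000035d00000461000004610000064600000646000000000000000000000360000003600000045e0000045e0000055400000554)
    (nat_lit 0x126c0eca100e100e0e290e2915f316530faf110f0dc910e50f1b0d5f1112126c126c100e09130c6316ad170d13510ae510270e0f0f1b0f1b100e100e10d00f0a0a870ac719951881120d0dcd0f0d0ccb0cbd0e01126c100e0d2610d00d250d25147f136b120d0ffb0f0d12290e170cab0c630e290d250ac70b400d24119611860b0a0d120e940b260c320c3209130e290d250a8714e40b401186118614ae16b60e8409000a4e0c32170d1653136b1881118611860f3c0e281894146c136e0ce61278111c16ad15f3147f199511861196171c0f3c1894146c136e120e127812780ae5110f0ffb0dcd16b60d12146c146c126c11bc100e0be60d940f1813510faf120d120d14ae0b0a18941894110c126c0eae100e0e440d000e0f10e512290ccb09000b26120e0ce6100e0be611280f100f7a0f7a10270dc90f0d0f0d0e840e94136e136e0eae100e0e0c11280fd60e1a0f1b0d5f0cab0e010c320c321278111c0d000f180e1a0f7a0f6c0e280f1b0f1b0e170cbd0a4e0c32127812780e440d940fd60f7a0f6c0f6c)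
    (nat_lit 0x126c2d002d002d002d002d002d002d002d002d002d002d002d002d000eca126c2d002d002d002d002d002d002d002d002d002d002d002d00100e126c10d02d002d002d002d002d002d002d002d002d002d002d00100e100e0f0a10d02d002d002d002d002d002d002d002d002d002d000e2909130a870d250b402d002d002d002d002d002d002d002d002d000e290c630ac70d250d240b402d002d002d002d002d002d002d002d0015f316ad1995147f119611860f3c2d002d002d002d002d002d002d001653170d1881136b118611860e280f3c2d002d002d002d002d002d000faf1351120d120d0b0a14ae18941894126c2d002d002d002d002d00110f0ae50dcd0ffb0d1216b6146c146c11bc126c2d002d002d002d000dc910270f0d0f0d0e940e84136e136e100e0eae11282d002d002d0010e50e0f0ccb12290b2609000ce6120e0be6100e0f1011282d002d000f1b0f1b0cbd0e170c320a4e127812780d940e440f7a0fd60f6c2d000d5f0f1b0e010cab0c320c32111c12780f180d000f7a0e1a0e280f6c)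
    (nat_lit 5) (nat_lit 61)
    [[nat_lit 2,nat_lit 258,nat_lit 0x10002,nat_lit 0x100002,nat_lit 0x1000002,nat_lit 17,nat_lit 273,nat_lit 0x10011,
    nat_lit 0x100011,nat_lit 0x1000011,nat_lit 257,nat_lit 0x10101,nat_lit 0x100101,nat_lit 0x1000101,nat_lit 0x1001,
    nat_lit 0x10001,nat_lit 0x20001,nat_lit 0x110001,nat_lit 0x1010001,nat_lit 0x100001,nat_lit 0x200001,
    nat_lit 0x1100001,nat_lit 0x1000001],[nat_lit 32,nat_lit 288,nat_lit 0x10020,nat_lit 272,nat_lit 0x10110,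
    nat_lit 0x100110,nat_lit 0x1000110,nat_lit 0x1010,nat_lit 0x10010,nat_lit 0x20010,nat_lit 0x110010,
    nat_lit 0x1010010,nat_lit 0x100010,nat_lit 0x200010,nat_lit 0x1000010,nat_lit 0x1010110],[nat_lit 512,
    nat_lit 0x10100,nat_lit 0x110100,nat_lit 0x1010100,nat_lit 0x100100,nat_lit 0x1000100],[nat_lit 0x2000,
    nat_lit 0x11000],[nat_lit 0x20000,nat_lit 0x30000,nat_lit 0x120000,nat_lit 0x1020000,nat_lit 0x110000,
    nat_lit 0x210000,nat_lit 0x1110000,nat_lit 0x1010000,nat_lit 0x2010000],[nat_lit 0x200000,nat_lit 0x1100000],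
    [nat_lit 0x2000000]]
    [.c (nat_lit 1) (nat_lit 2),.r (nat_lit 0x1b1c) (nat_lit 4) [nat_lit 0x10001,nat_lit 0x200001,nat_lit 0x4000041,
    nat_lit 0x47398a1],.r (nat_lit 0x187e) (nat_lit 9) [nat_lit 0x200001,nat_lit 0x210001,nat_lit 0x4200041,
    nat_lit 0x4b398a1],.r (nat_lit 0x1b1b) (nat_lit 2) [nat_lit 0x6200c41,nat_lit 0x6210c41,nat_lit 0x4000861],
    .r (nat_lit 0x1b1b) (nat_lit 2) [nat_lit 0x6210c41,nat_lit 0x6220c41,nat_lit 0x4018861],
    .c (nat_lit 0) (nat_lit 0x218c43),.r (nat_lit 0x174e) (nat_lit 3) [nat_lit 0x300861,nat_lit 0x200001],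
    .r (nat_lit 32) (nat_lit 7) [nat_lit 0x300861,nat_lit 0x200001],.r (nat_lit 0x1b32) (nat_lit 3) [nat_lit 0x300861,
    nat_lit 0x210061,nat_lit 65],.r (nat_lit 0x1b32) (nat_lit 3) [nat_lit 0x318861,nat_lit 0x200061,nat_lit 0x10041],
    .r (nat_lit 0x1c1e) (nat_lit 11) [nat_lit 0x10001,nat_lit 0x200001,nat_lit 65],
    .r (nat_lit 0x1a7f) (nat_lit 9) [nat_lit 0x518861,nat_lit 0x200001,nat_lit 0x210001],
    .r (nat_lit 0x1a0e) (nat_lit 4) [nat_lit 0x300861,nat_lit 0x10001,nat_lit 0x4018041,nat_lit 0x200001],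
    .r (nat_lit 0x1a0e) (nat_lit 4) [nat_lit 0x318861,nat_lit 0x10001,nat_lit 0x4000041,nat_lit 0x200001],
    .r (nat_lit 0x1b32) (nat_lit 3) [nat_lit 0x6300041,nat_lit 0x6210c41,nat_lit 0x4000861],
    .r (nat_lit 0) (nat_lit 13) [nat_lit 0x200001,nat_lit 65],.r (nat_lit 0x1114) (nat_lit 3) [nat_lit 0x67118a1,
    nat_lit 0x8529001,nat_lit 0x48001,nat_lit 0x6210c81],.r (nat_lit 0x1115) (nat_lit 1) [nat_lit 0x420001,
    nat_lit 0x6318c81,nat_lit 0x5010a1,nat_lit 0x4318801],.r (nat_lit 0x1115) (nat_lit 1) [nat_lit 0x420001,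
    nat_lit 0x6310c81,nat_lit 0x5290a1,nat_lit 0x4318801],.r (nat_lit 0x10f9) (nat_lit 1) [nat_lit 0x6210c81,
    nat_lit 0x42108a1,nat_lit 0x5010a1,nat_lit 0x4318801],.r (nat_lit 0x1c1f) (nat_lit 1) [nat_lit 0x18001,nat_lit 65,
    nat_lit 0x210001,nat_lit 0x43188a1],.r (nat_lit 0x1c1f) (nat_lit 1) [nat_lit 0x18001,nat_lit 0x10041,
    nat_lit 0x210001,nat_lit 0x43388a1],.r (nat_lit 0x10f9) (nat_lit 1) [nat_lit 0x6230c81,nat_lit 0x42188a1,
    nat_lit 0x5290a1,nat_lit 0x4318801],.c (nat_lit 2) (nat_lit 2),.r (nat_lit 0x19b1) (nat_lit 1) [nat_lit 0x18001,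
    nat_lit 0x210001,nat_lit 0x4519061,nat_lit 0x4218c81],.r (nat_lit 0x188c) (nat_lit 4) [nat_lit 0x10001,nat_lit 65,
    nat_lit 0x200001,nat_lit 0x8529061],.r (nat_lit 0x1b04) (nat_lit 8) [nat_lit 65,nat_lit 0x200001],
    .r (nat_lit 0x1820) (nat_lit 1) [nat_lit 0x18001,nat_lit 0x300861,nat_lit 0x4218c81,nat_lit 0x210001],
    .r (nat_lit 32) (nat_lit 1) [nat_lit 0x300861,nat_lit 0x200001],.r (nat_lit 32) (nat_lit 1) [nat_lit 0x318861,
    nat_lit 0x200001],.r (nat_lit 0x1b1b) (nat_lit 2) [nat_lit 0x200061,nat_lit 0x210061,nat_lit 65],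
    .r (nat_lit 0x1af7) (nat_lit 3) [nat_lit 65,nat_lit 0x410c41,nat_lit 0x300861],
    .r (nat_lit 32) (nat_lit 7) [nat_lit 0x6310862,nat_lit 0x200001],
    .r (nat_lit 0x1b3d) (nat_lit 11) [nat_lit 0x10001,nat_lit 0x300861,nat_lit 0x200001],
    .r (nat_lit 0x1b3d) (nat_lit 11) [nat_lit 0x10001,nat_lit 0x318861,nat_lit 0x200001],
    .r (nat_lit 0x1b06) (nat_lit 3) [nat_lit 0x210061,nat_lit 65,nat_lit 0x18041,nat_lit 0x4318801],
    .r (nat_lit 0x1b32) (nat_lit 3) [nat_lit 0x6310862,nat_lit 0x6630c62,nat_lit 0x4318842],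
    .r (nat_lit 0x1b06) (nat_lit 3) [nat_lit 0x200061,nat_lit 0x10041,nat_lit 65,nat_lit 0x4318801],
    .c (nat_lit 1) (nat_lit 0x18c43),.c (nat_lit 3) (nat_lit 2),.c (nat_lit 0) (nat_lit 0x318c45),
    .c (nat_lit 1) (nat_lit 0x200c02),.c (nat_lit 1) (nat_lit 0x200002),.c (nat_lit 0) (nat_lit 0x318845),
    .c (nat_lit 0) (nat_lit 0x318c45),.c (nat_lit 4) (nat_lit 2),.r (nat_lit 0x1116) (nat_lit 4) [nat_lit 0x400001,
    nat_lit 0x420001,nat_lit 129,nat_lit 0x67188a1],.c (nat_lit 5) (nat_lit 2),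
    .r (nat_lit 0x1117) (nat_lit 4) [nat_lit 0xc00001,nat_lit 0xc60001,nat_lit 129,nat_lit 0xf3398a1],
    .r (nat_lit 0x1118) (nat_lit 10) [nat_lit 0x400001,nat_lit 0x18041,nat_lit 0x20001,nat_lit 0x4318801],
    .r (nat_lit 0x1118) (nat_lit 10) [nat_lit 0x400001,nat_lit 65,nat_lit 0x20001,nat_lit 0x4318801],
    .c (nat_lit 0) (nat_lit 0x318845),.r (nat_lit 0x1119) (nat_lit 4) [nat_lit 0x28041,nat_lit 65,nat_lit 0x420061,
    nat_lit 0x6310861],.r (nat_lit 0x1119) (nat_lit 4) [nat_lit 0x18041,nat_lit 0x10041,nat_lit 0x410061,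
    nat_lit 0x6300861],.c (nat_lit 0) (nat_lit 0x318c45),.r (nat_lit 0x1119) (nat_lit 4) [nat_lit 65,nat_lit 0x20041,
    nat_lit 0x400061,nat_lit 0x6318861],.c (nat_lit 6) (nat_lit 2),.c (nat_lit 4) (nat_lit 0x20803),
    .c (nat_lit 7) (nat_lit 2)],
    .l (nat_lit 16) (nat_lit 0x2760) (nat_lit 4) (nat_lit 0x10b2000010b2000011ee000010e60000120200000f0e0000101f0000101f0000105e0000131e00000fd800000fd800000ede0000109e) (nat_lit 0x26c0000026c0000023800000130000004100000011c000002ff000002ff00000000000002c000000346000003460000028000000440)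
    (nat_lit 0xde80db214040f820c8c110613b1126111060dfc0bb80d6c0e320c180e460de80e7a0f820ca20f96150113b10b7c0e320d660dc00e320b7c0f820f820fb610be07e010d20eaf0eef119a07e00f9e13de0fcc0db40e7a14040eae0fb60da80fca114f0eb90fca0c62138217c20cf60afc0f9611060fca10d20d2010e610c70e3107e00bda10660fd809f807e00ca20c8c0da807e00afe0d200c0f0c0f11e20c4e0a680c1207e00ace13b112610eb90eef0c0f0e310d200d200fd50d5f0cd90a050db50d3f150113b1114f0eaf0c0f10c70d200d2012410d5f0c950a050d950fab0e320dfc0c6207e00c4e0bda0d5f0d5f13320d9e094c0af607e00c620b7c11060fca119a11e207e012410fd5131e133211820fd8109e0d340dc00d6c17c213de0c120fd80a050a050fd80af60e3c0c920d0409ee0d660bb813820f9e0a6810660c950cd91182094c0c920e3c0db20b980b7c0c180afc0db40ace07e00fab0d3f0d340c620b9809ee0e120a9e0e320e320cf60fcc07e009f80d950db5109e07e00db20d040eb20e12)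
    (nat_lit 0xde827602760276027602760276027602760276027602760276027600db20de827602760276027602760276027602760276027602760276014040e7a0fb6276027602760276027602760276027602760276027600f820f8210be0fb627602760276027602760276027602760276027600c8c0ca207e00da80d2027602760276027602760276027602760276011060f9610d20fca10e60d202760276027602760276027602760276013b115010eaf114f10c70c0f0d202760276027602760276027602760126113b10eef0eb90e310c0f0d200d2027602760276027602760276011060b7c0fc00fca07e011e20fd512411332276027602760276027600dfc0e3207e00c620bda0c4e0d5f0d5f0d9e133227602760276027600bb80d660f9e138210660a680cd90c95094c11820e3c2760276027600d6c0dc013de17c20fd80c120a050a050af60fd80c920e3c276027600e320e320fcc0cf609f807e00db50d9507e00fc00d040db20e1227600c180b7c0db40afc07e00ace0d3f0fab0c620d3409ee0b980a9e0e12)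
    (nat_lit 4) (nat_lit 139)
    [[nat_lit 2,nat_lit 18,nat_lit 258,nat_lit 0x10002,nat_lit 0x1000002,nat_lit 17,nat_lit 33,nat_lit 273,
    nat_lit 0x1011,nat_lit 0x10011,nat_lit 0x1000011,nat_lit 257,nat_lit 0x10102,nat_lit 0x10101,nat_lit 0x10111,
    nat_lit 0x20101,nat_lit 0x110101,nat_lit 0x100101,nat_lit 0x1000101,nat_lit 0x1001,nat_lit 0x1002,nat_lit 0x11001,
    nat_lit 0x10001,nat_lit 0x20002,nat_lit 0x10012,nat_lit 0x20001,nat_lit 0x110001,nat_lit 0x1010001,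
    nat_lit 0x100001,nat_lit 0x100011,nat_lit 0x1000001],[nat_lit 32,nat_lit 0x1020,nat_lit 272,nat_lit 0x1110,
    nat_lit 0x10110,nat_lit 0x11110,nat_lit 0x1000110,nat_lit 0x1010,nat_lit 0x2010,nat_lit 0x11010,nat_lit 0x10010,
    nat_lit 0x1000010,nat_lit 0x1000020],[nat_lit 512,nat_lit 0x1100,nat_lit 0x10100,nat_lit 0x11100,nat_lit 0x20100,
    nat_lit 0x110100,nat_lit 0x210100,nat_lit 0x1010100,nat_lit 0x100100,nat_lit 0x1000100],[nat_lit 0x2000,
    nat_lit 0x11000,nat_lit 0x101000],[nat_lit 0x20000,nat_lit 0x120000,nat_lit 0x110000,nat_lit 0x1010000],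
    [nat_lit 0x200000,nat_lit 0x1100000],[nat_lit 0x2000000]]
    [.c (nat_lit 1) (nat_lit 2),.c (nat_lit 0) (nat_lit 0x235045),.c (nat_lit 0) (nat_lit 0x235045),
    .c (nat_lit 0) (nat_lit 0x39985),.c (nat_lit 0) (nat_lit 0x35543),.c (nat_lit 5) (nat_lit 0x320504),
    .r (nat_lit 32) (nat_lit 3) [nat_lit 0x3205042,nat_lit 0x2024031],.c (nat_lit 0) (nat_lit 0x235045),
    .c (nat_lit 5) (nat_lit 0x224405),.c (nat_lit 4) (nat_lit 0x224405),
    .r (nat_lit 0x1b75) (nat_lit 2) [nat_lit 0x2001,nat_lit 0x3240542,nat_lit 0x33201],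
    .c (nat_lit 0) (nat_lit 0x235545),.c (nat_lit 1) (nat_lit 0x2232),.c (nat_lit 0) (nat_lit 0x3323),
    .c (nat_lit 2) (nat_lit 0x2232),.c (nat_lit 5) (nat_lit 0x2232),.c (nat_lit 2) (nat_lit 0x3023),
    .r (nat_lit 32) (nat_lit 3) [nat_lit 0x30231,nat_lit 0x2284542],.c (nat_lit 5) (nat_lit 0x22232),
    .r (nat_lit 32) (nat_lit 3) [nat_lit 0x2244052,nat_lit 33],.c (nat_lit 2) (nat_lit 0x202403),
    .c (nat_lit 2) (nat_lit 0x224405),.c (nat_lit 0) (nat_lit 0x3323),.c (nat_lit 0) (nat_lit 0x5543),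
    .r (nat_lit 0x174e) (nat_lit 5) [nat_lit 0x3305042,nat_lit 0x2001],.c (nat_lit 0) (nat_lit 0x25545),
    .r (nat_lit 0x1ab9) (nat_lit 10) [nat_lit 0x33231,nat_lit 0x2001,nat_lit 0x20001],
    .r (nat_lit 0x1ab9) (nat_lit 8) [nat_lit 0x33231,nat_lit 0x20001,nat_lit 0x2001],
    .r (nat_lit 0x1af7) (nat_lit 5) [nat_lit 0x20001,nat_lit 0x22321,nat_lit 0x33201],.c (nat_lit 0) (nat_lit 770),
    .c (nat_lit 0) (nat_lit 0x35545),.c (nat_lit 2) (nat_lit 2),.c (nat_lit 1) (nat_lit 0x202403),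
    .c (nat_lit 0) (nat_lit 0x235045),.c (nat_lit 0) (nat_lit 0x339944),
    .r (nat_lit 0x1b75) (nat_lit 5) [nat_lit 0x20001,nat_lit 0x2031,nat_lit 0x33201],
    .c (nat_lit 0) (nat_lit 0x359944),.c (nat_lit 2) (nat_lit 0x224854),.c (nat_lit 0) (nat_lit 0x339944),
    .c (nat_lit 0) (nat_lit 0x33d944),.c (nat_lit 1) (nat_lit 0x224405),
    .r (nat_lit 32) (nat_lit 9) [nat_lit 0x2244052,nat_lit 33],.r (nat_lit 0x1c22) (nat_lit 0) [nat_lit 0x3021,
    nat_lit 0x2001,nat_lit 0x220321],.r (nat_lit 32) (nat_lit 3) [nat_lit 0x200022,nat_lit 0x2044032],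
    .c (nat_lit 3) (nat_lit 2),.r (nat_lit 0x1b04) (nat_lit 10) [nat_lit 33,nat_lit 0x2001],
    .c (nat_lit 0) (nat_lit 0x3323),.r (nat_lit 0x174e) (nat_lit 5) [nat_lit 0x3231,nat_lit 0x2001],
    .c (nat_lit 0) (nat_lit 0x25545),.c (nat_lit 0) (nat_lit 0x307545),.r (nat_lit 32) (nat_lit 9) [nat_lit 0x2042321,
    nat_lit 0x3250452],.r (nat_lit 32) (nat_lit 9) [nat_lit 0x3231,nat_lit 0x2248542],
    .c (nat_lit 0) (nat_lit 0x339545),.c (nat_lit 0) (nat_lit 0x35545),.c (nat_lit 4) (nat_lit 2),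
    .c (nat_lit 0) (nat_lit 0x22005),.r (nat_lit 0x1c22) (nat_lit 0) [nat_lit 0x20031,nat_lit 0x2001,
    nat_lit 0x242331],.c (nat_lit 5) (nat_lit 2),.c (nat_lit 0) (nat_lit 0x325545),.c (nat_lit 1) (nat_lit 0x230004),
    .r (nat_lit 0x1af7) (nat_lit 2) [nat_lit 0x2001,nat_lit 0x22321,nat_lit 0x33201],.c (nat_lit 6) (nat_lit 2),
    .c (nat_lit 0) (nat_lit 0x335545),.c (nat_lit 7) (nat_lit 2)]]

/-- nodes -/
noncomputable def rD7k_22_29 : List RJ :=
  [.l (nat_lit 16) (nat_lit 0x30c0) (nat_lit 3) (nat_lit 0x160600001606000016e000001796000016e0000016e000001176000011aa0000121c000014860000141e0000141e0000125000001250) (nat_lit 0x1900000019000000000000000b6000000b6000000b6000005ec00000620000003100000057a00000378000003780000054600000546)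
    (nat_lit 0x1476141e1b7019e01550197e101a0c3012f6108c0e70128e10c010c01476147616e0155017421b7010720c3012981142124a128e0c300dee155019e010c0162a19e01550103e0ece13d0110e163a13c6119a11de16e01b70179610c01b7016e011aa117614860c3015c214520e2212361b70197e16e01550162a162a16e00c30139c1166138213680c300ff6174215501b7019e00db0162a10c010c013d00c3013681368155013680c300c3011760ece10c00c3010c013d00e660c300c300dfe0c300c301072101a11aa103e10c016e00c3010c00d860c300e320c300c640c641142108c0c30110e0c3011660c300c30110e0c300ea40fb80cd60cd6129812f6148613d013d0139c0d860e661382110e1382110e0f400c30128e128e145213c6136813680c300dfe110e0fb813b60e9a0ed80c64124a0e7015c2163a136813820e320c3013820ea40e7013b60ed80ed80dee10c0123611de13680ff60c640c300c300cd60ed80c6411280f400c3010c00e22119a15500c300c640c300f400cd60ed80ed80d621128)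
    (nat_lit 0x147630c030c030c030c030c030c030c030c030c030c030c030c030c0141e147630c030c030c030c030c030c030c030c030c030c030c030c01b7016e010c030c030c030c030c030c030c030c030c030c030c030c019e01550162a10c030c030c030c030c030c030c030c030c030c030c01550174219e01b70162a30c030c030c030c030c030c030c030c030c0197e1b70155016e0162a162a30c030c030c030c030c030c030c030c0101a1072103e11aa16e010c010c030c030c030c030c030c030c030c00c300c300ece11760c3010c013d010c030c030c030c030c030c030c012f6129813d01486139c13d00e660d86110e30c030c030c030c030c0108c1142110e0c3011660c300c300c300c30110e30c030c030c030c00e70124a163a15c2138213680c300e320ea4138213b630c030c030c0128e128e13c61452136813680dfe0c300fb8110e0e9a13b630c030c010c00c30119a0e220c3015500c300c640cd60f400ed80ed8112830c010c00dee11de12360ff613680c300c640cd60c300c640ed80f401128)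
    (nat_lit 6) (nat_lit 83)
    [[nat_lit 2,nat_lit 3,nat_lit 18,nat_lit 258,nat_lit 0x1002,nat_lit 0x1000002,nat_lit 17,nat_lit 33,nat_lit 273,
    nat_lit 0x1011,nat_lit 0x1000011,nat_lit 257,nat_lit 513,nat_lit 0x1101,nat_lit 0x10101,nat_lit 0x1000101,
    nat_lit 0x100101,nat_lit 0x1001,nat_lit 0x2001,nat_lit 0x11001,nat_lit 0x101001,nat_lit 0x1001001,nat_lit 0x10001,
    nat_lit 0x10011,nat_lit 0x20001,nat_lit 0x1010001,nat_lit 0x100001,nat_lit 0x100002,nat_lit 0x1000001,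
    nat_lit 0x2000001],[nat_lit 32,nat_lit 0x1020,nat_lit 288,nat_lit 272,nat_lit 0x1110,nat_lit 0x1010,
    nat_lit 0x2010,nat_lit 0x11010,nat_lit 0x1001010,nat_lit 0x10010,nat_lit 0x100010,nat_lit 0x1000010,
    nat_lit 0x1000020],[nat_lit 512,nat_lit 0x1200,nat_lit 0x1100,nat_lit 0x2100,nat_lit 0x11100,nat_lit 0x101100,
    nat_lit 0x1001100,nat_lit 0x10100,nat_lit 0x100100,nat_lit 0x1000100],[nat_lit 0x2000,nat_lit 0x12000,
    nat_lit 0x1002000,nat_lit 0x102000,nat_lit 0x11000,nat_lit 0x101000,nat_lit 0x1001000],[nat_lit 0x20000],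
    [nat_lit 0x200000],[nat_lit 0x2000000]]
    [.c (nat_lit 1) (nat_lit 2),.r (nat_lit 4) (nat_lit 13) [nat_lit 0xc50c4002,nat_lit 0xc0081],
    .r (nat_lit 0x1a29) (nat_lit 9) [nat_lit 0x30c0081,nat_lit 0x31c9148104,nat_lit 0x2000001],
    .r (nat_lit 0x1b36) (nat_lit 10) [nat_lit 0x30c0081,nat_lit 0x2088200242,nat_lit 0x2000001],
    .r (nat_lit 0x1c22) (nat_lit 10) [nat_lit 0x20800c1,nat_lit 0xc0081,nat_lit 0x2084005002],
    .c (nat_lit 5) (nat_lit 0x102003),.c (nat_lit 0) (nat_lit 0x2002005),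
    .r (nat_lit 0x1168) (nat_lit 4) [nat_lit 0x8000001,nat_lit 0x103080141,nat_lit 0x31cb1c8101,nat_lit 0x2080000001],
    .r (nat_lit 0x1a29) (nat_lit 9) [nat_lit 0x30c5140202,nat_lit 0x31450c4102,nat_lit 0x2000001],
    .r (nat_lit 0x174c) (nat_lit 13) [nat_lit 0x2000001,nat_lit 0x2080000002,nat_lit 0x30c9008142],
    .r (nat_lit 0x1ae0) (nat_lit 6) [nat_lit 0xc50c4002,nat_lit 0x20000c1,nat_lit 0x80080002],
    .c (nat_lit 0) (nat_lit 0x82004009),.r (nat_lit 4) (nat_lit 0) [nat_lit 0xc50c4002,nat_lit 0x30000c0102],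
    .c (nat_lit 1) (nat_lit 0x2102144),.r (nat_lit 0x1a29) (nat_lit 9) [nat_lit 0x2084100242,nat_lit 0xc0084142,
    nat_lit 0x2000001],.r (nat_lit 0x652) (nat_lit 4) [nat_lit 0x4000001,nat_lit 0x300f140201,nat_lit 0xc2004141,
    nat_lit 0x70c0101,nat_lit 0x208c100241],.r (nat_lit 0x1882) (nat_lit 11) [nat_lit 0x30020c1,nat_lit 0x2000001,
    nat_lit 0x2080000002,nat_lit 0x80001],.c (nat_lit 0) (nat_lit 0xc7240209),.c (nat_lit 0) (nat_lit 0xc5243205),
    .r (nat_lit 0x174e) (nat_lit 13) [nat_lit 0xc50c4002,nat_lit 0x2184009202],.c (nat_lit 3) (nat_lit 0x82100144),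
    .r (nat_lit 0x653) (nat_lit 4) [nat_lit 0x4000001,nat_lit 0x3142008241,nat_lit 0x70c0101,nat_lit 0xc2004141,
    nat_lit 0x2185009201],.c (nat_lit 0) (nat_lit 0x82003),.r (nat_lit 4) (nat_lit 0) [nat_lit 0xc50c4002,
    nat_lit 0x84080142],.r (nat_lit 4) (nat_lit 13) [nat_lit 0xc50c4002,nat_lit 0x40800c1],
    .c (nat_lit 0) (nat_lit 0xc0002),.c (nat_lit 3) (nat_lit 0x80003004),
    .r (nat_lit 4) (nat_lit 0) [nat_lit 0xc50c4002,nat_lit 0xc0081],.r (nat_lit 4) (nat_lit 13) [nat_lit 0xc50c4002,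
    nat_lit 129],.r (nat_lit 0x654) (nat_lit 12) [nat_lit 0xa7a8529002,nat_lit 0x2d52d4002,nat_lit 0xa080141,
    nat_lit 0xb5694e8142,nat_lit 0xc0101],.c (nat_lit 2) (nat_lit 2),
    .r (nat_lit 0x1944) (nat_lit 7) [nat_lit 0x31c9148081,nat_lit 0x40850c4142,nat_lit 0x2188109202,
    nat_lit 0x2000001],.r (nat_lit 0x1882) (nat_lit 11) [nat_lit 0x31450c4102,nat_lit 0x2000001,nat_lit 0x2080000002,
    nat_lit 0x80001],.c (nat_lit 4) (nat_lit 0xc5143104),.c (nat_lit 2) (nat_lit 0x2102144),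
    .r (nat_lit 0x18fb) (nat_lit 11) [nat_lit 0x2000001,nat_lit 129,nat_lit 0x2080000002,nat_lit 0x80001],
    .c (nat_lit 2) (nat_lit 0x86204244),.r (nat_lit 0x657) (nat_lit 4) [nat_lit 0x20000c4141,nat_lit 0x7000085102,
    nat_lit 0x3004085101,nat_lit 0xc50c4001,nat_lit 0x2080000001],.r (nat_lit 0x1999) (nat_lit 3) [nat_lit 0xc50c4002,
    nat_lit 0x2000001,nat_lit 0x30050c4142],.r (nat_lit 0x174e) (nat_lit 13) [nat_lit 0xc50c4002,nat_lit 129],
    .c (nat_lit 0) (nat_lit 0x2002005),.r (nat_lit 0x1a29) (nat_lit 9) [nat_lit 0x3000081,nat_lit 0x31c9008104,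
    nat_lit 0x2000001],.c (nat_lit 6) (nat_lit 0x2000003),.c (nat_lit 3) (nat_lit 2),
    .c (nat_lit 3) (nat_lit 0x2102144),.c (nat_lit 0) (nat_lit 0x3143105),.c (nat_lit 4) (nat_lit 0x2102144),
    .c (nat_lit 5) (nat_lit 0x2102144),.c (nat_lit 6) (nat_lit 0x2102144),.c (nat_lit 5) (nat_lit 0x3003105),
    .r (nat_lit 0x1b2f) (nat_lit 2) [nat_lit 0x20000c1,nat_lit 0xc50c4002,nat_lit 129],
    .r (nat_lit 0x1972) (nat_lit 8) [nat_lit 0x2000001,nat_lit 0xc00c0102,nat_lit 0x30020c1],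
    .r (nat_lit 0x1b36) (nat_lit 10) [nat_lit 0x3000081,nat_lit 0x2088000242,nat_lit 0x2000001],
    .c (nat_lit 4) (nat_lit 2),.r (nat_lit 0x174e) (nat_lit 13) [nat_lit 0xc50c4002,nat_lit 0x2188109102],
    .r (nat_lit 0x1a29) (nat_lit 9) [nat_lit 0x2184109102,nat_lit 0x80082,nat_lit 0x2000001],
    .c (nat_lit 0) (nat_lit 0xc5243205),.r (nat_lit 0x1b51) (nat_lit 3) [nat_lit 0xc50c4002,nat_lit 0x84085102,
    nat_lit 0xc00c4142],.c (nat_lit 0) (nat_lit 0xc5245205),.r (nat_lit 0x1c22) (nat_lit 10) [nat_lit 0x20000c1,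
    nat_lit 129,nat_lit 0x2084005002],.c (nat_lit 5) (nat_lit 2),.c (nat_lit 6) (nat_lit 2),
    .c (nat_lit 7) (nat_lit 2)],
    .l (nat_lit 14) (nat_lit 0xf00) (nat_lit 3) (nat_lit 0x608000006080000056c0000063a00000678000006780000068f0000068f000005f0000006e400000710000005680000067400000564) (nat_lit 0x10800000108000000d6000001a4000000980000009800000081000000810000002c00000120000001a800000000000001ac0000009c)
    (nat_lit 0x14004f818504d415d0570161c5f718883d60f00638117049a14205001690464122850410245ff18a847211806400fb056c11904d414083c0117046215845d114205ca0f1051e0f004d01690614190850216885a212b46930f0051a12483c012383c014105701688462141850217dc5f723186641ab88c60fa85dc1228574168845c1780506161c5f7227063a18e8852117061017fc5f71a4c5d117dc5f714b060e12245df12cc43f137c489102458712b4561161c5f7183852c198c56f165468f17d463311c83d614685ca18e866415bc5df17104d010205f011104a618a86220f0050822708c6198c4891ae05c414f06e4142069a19006380f0051e21488c61a3c43f1b905f01458710147867411803c012483c418e86ae16544b314f04080f0051612384cc15b049a0f004d018405dc18cc4891a684a6133067415a05d80fb045c12383c011703ea17d44df1420444123851e0f00568)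
    (nat_lit 0x1400f003c00f003c00f003c00f003c00f003c00f003c00f0013e05003c00f003c00f003c00f003c00f003c00f003c00f0018505a41408f003c00f003c00f003c00f003c00f003c00f0013504640f005023c00f003c00f003c00f003c00f003c00f0015d048a11705a21418f003c00f003c00f003c00f003c00f0015c050411885a214085063c00f003c00f003c00f003c00f00161c40915844ad17dc58714b0f003c00f003c00f003c00f0017dc5ff174469317dc5f7183852c3c00f003c00f003c00f00188862a14203c0208881c12246631710f003c00f003c00f000f58472172851a199063a177c56f13405c43c00f003c00f000f004600f104921ab863a12cc595102053c1458f003c00f0018e064014783c0208881c10fc68f17c06e41c405163c00f0011703ec0f0048e0fa845c137c5f51110508147848e15a0f00126856c13403c017706101224633129869a19d04cc1760568)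
    (nat_lit 4) (nat_lit 43)
    [[nat_lit 2,nat_lit 0x100002,nat_lit 0x1000002,nat_lit 0x1002,nat_lit 17,nat_lit 0x100011,nat_lit 0x1000011,
    nat_lit 257,nat_lit 0x100101,nat_lit 0x1000101,nat_lit 0x1001,nat_lit 0x101001,nat_lit 0x1001001,nat_lit 0x10001,
    nat_lit 0x10002,nat_lit 0x11001,nat_lit 0x110001,nat_lit 0x1010001,nat_lit 0x100001,nat_lit 0x200001,
    nat_lit 0x1100001,nat_lit 0x1000001,nat_lit 0x2000001],[nat_lit 32,nat_lit 0x1020,nat_lit 0x100020,nat_lit 272,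
    nat_lit 0x1110,nat_lit 0x100110,nat_lit 0x1010,nat_lit 0x101010,nat_lit 0x1001010,nat_lit 0x110010,
    nat_lit 0x100010,nat_lit 0x200010,nat_lit 0x1000010,nat_lit 0x1100010],[nat_lit 512,nat_lit 0x1100,
    nat_lit 0x1001100,nat_lit 0x100100,nat_lit 0x100200,nat_lit 0x1100100,nat_lit 0x110100,nat_lit 0x200100,
    nat_lit 0x1000100],[nat_lit 0x2000,nat_lit 0x11000,nat_lit 0x101000,nat_lit 0x1001000],[nat_lit 0x20000,
    nat_lit 0x110000,nat_lit 0x1010000,nat_lit 0x2010000],[nat_lit 0x200000,nat_lit 0x1100000],[nat_lit 0x2000000]]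
    [.c (nat_lit 1) (nat_lit 2),.r (nat_lit 0xecd) (nat_lit 1) [nat_lit 0x20001,nat_lit 0x220001,nat_lit 0x2001,
    nat_lit 33],.r (nat_lit 0x1c22) (nat_lit 12) [nat_lit 0x23001,nat_lit 0x2001,nat_lit 0x20321],
    .r (nat_lit 0xde4) (nat_lit 1) [nat_lit 0x8001,nat_lit 0x404001,nat_lit 0x89001,nat_lit 0x303041],
    .r (nat_lit 0x1b22) (nat_lit 7) [nat_lit 0x3021,nat_lit 0x20001,nat_lit 0x220321],
    .r (nat_lit 0x1b6e) (nat_lit 0) [nat_lit 0x30231,nat_lit 0x2031,nat_lit 0x23021],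
    .r (nat_lit 0x1b32) (nat_lit 0) [nat_lit 0x30231,nat_lit 0x2031,nat_lit 0x23021],
    .r (nat_lit 0x1b22) (nat_lit 7) [nat_lit 0x30021,nat_lit 0x20001,nat_lit 0x202321],
    .r (nat_lit 0x1b6e) (nat_lit 0) [nat_lit 0x3231,nat_lit 0x20031,nat_lit 33],
    .r (nat_lit 0x1b32) (nat_lit 0) [nat_lit 0x3231,nat_lit 0x20031,nat_lit 33],
    .r (nat_lit 0) (nat_lit 5) [nat_lit 33,nat_lit 0x2001],.r (nat_lit 0x1a7f) (nat_lit 1) [nat_lit 0x33231,
    nat_lit 0x2001,nat_lit 0x20001],.r (nat_lit 32) (nat_lit 6) [nat_lit 0x3231,nat_lit 0x2001],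
    .r (nat_lit 0x10ef) (nat_lit 0) [nat_lit 0x325451,nat_lit 0x50041,nat_lit 0x54001,nat_lit 0x220001],
    .r (nat_lit 32) (nat_lit 9) [nat_lit 0x200022,nat_lit 0x2001],.r (nat_lit 0x13b6) (nat_lit 0) [nat_lit 0x577621,
    nat_lit 0x206051,nat_lit 0x260051,nat_lit 0x200021],.r (nat_lit 0x15f9) (nat_lit 0) [nat_lit 0x355421,
    nat_lit 0x352451,nat_lit 0x325451,nat_lit 0x422321],.r (nat_lit 0x16c7) (nat_lit 13) [nat_lit 0x355421,
    nat_lit 0x244541,nat_lit 0x422321,nat_lit 0x325451],.c (nat_lit 0) (nat_lit 0x35345),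
    .r (nat_lit 0x15fa) (nat_lit 1) [nat_lit 33,nat_lit 0x4001,nat_lit 0x202001,nat_lit 0x45001],
    .c (nat_lit 4) (nat_lit 0x22232),.c (nat_lit 0) (nat_lit 0x35345),.r (nat_lit 0x1179) (nat_lit 8) [nat_lit 0x4001,
    nat_lit 33,nat_lit 0x355431,nat_lit 0x200001],.c (nat_lit 2) (nat_lit 2),
    .r (nat_lit 0x19de) (nat_lit 3) [nat_lit 0x234031,nat_lit 0x20001,nat_lit 0x347041],
    .r (nat_lit 0x138c) (nat_lit 13) [nat_lit 0x595831,nat_lit 0x8051,nat_lit 0x404031,nat_lit 0x89041],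
    .c (nat_lit 2) (nat_lit 0x3202),.r (nat_lit 0x19de) (nat_lit 3) [nat_lit 0x202031,nat_lit 0x20001,
    nat_lit 0x303041],.r (nat_lit 0x138c) (nat_lit 13) [nat_lit 0x577831,nat_lit 0x44051,nat_lit 0x422031,
    nat_lit 0x45041],.c (nat_lit 0) (nat_lit 0x20205),.r (nat_lit 8) (nat_lit 6) [nat_lit 0x30231,nat_lit 0x20001],
    .r (nat_lit 0x1b3d) (nat_lit 8) [nat_lit 0x23001,nat_lit 0x30231,nat_lit 0x2001],.c (nat_lit 0) (nat_lit 770),
    .r (nat_lit 0) (nat_lit 1) [nat_lit 0x2001,nat_lit 0x23021],.r (nat_lit 8) (nat_lit 6) [nat_lit 0x353432,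
    nat_lit 0x20001],.r (nat_lit 0x1b8e) (nat_lit 1) [nat_lit 0x3021,nat_lit 0x2001,nat_lit 0x20001],
    .r (nat_lit 32) (nat_lit 9) [nat_lit 0x30231,nat_lit 0x2001],.c (nat_lit 3) (nat_lit 2),
    .c (nat_lit 0) (nat_lit 0x22005),.r (nat_lit 0x1b3d) (nat_lit 8) [nat_lit 0x23001,nat_lit 0x3231,nat_lit 0x2001],
    .r (nat_lit 0) (nat_lit 1) [nat_lit 0x2001,nat_lit 33],.r (nat_lit 0x138c) (nat_lit 13) [nat_lit 0x559831,
    nat_lit 0x80051,nat_lit 0x440031,nat_lit 65],.r (nat_lit 32) (nat_lit 9) [nat_lit 0x3231,nat_lit 0x2001],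
    .c (nat_lit 0) (nat_lit 0x3002),.r (nat_lit 8) (nat_lit 6) [nat_lit 0x335432,nat_lit 0x20001],
    .r (nat_lit 0x1b8e) (nat_lit 1) [nat_lit 0x30021,nat_lit 0x2001,nat_lit 0x20001],.c (nat_lit 4) (nat_lit 2),
    .r (nat_lit 0x19de) (nat_lit 3) [nat_lit 0x30021,nat_lit 0x20001,nat_lit 0x242051],
    .r (nat_lit 0x1ba2) (nat_lit 0) [nat_lit 33,nat_lit 0x22321,nat_lit 0x3231],
    .r (nat_lit 0x1af7) (nat_lit 0) [nat_lit 33,nat_lit 0x22321,nat_lit 0x3231],.c (nat_lit 5) (nat_lit 2),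
    .r (nat_lit 0xfd6) (nat_lit 8) [nat_lit 0x4001,nat_lit 0x355451,nat_lit 65,nat_lit 0x200001],
    .r (nat_lit 0x1b1b) (nat_lit 13) [nat_lit 0x2031,nat_lit 0x20031,nat_lit 33],
    .r (nat_lit 0x1b6e) (nat_lit 0) [nat_lit 0x200022,nat_lit 0x244522,nat_lit 0x305432],.c (nat_lit 6) (nat_lit 2),
    .c (nat_lit 0) (nat_lit 0x35545),.c (nat_lit 7) (nat_lit 2)]]

/-- nodes -/
noncomputable def rD7k_22_30 : List RJ :=
  [.l (nat_lit 11) (nat_lit 480) (nat_lit 4) (nat_lit 0xc5000000c5000000c7000000c7000000c4000000c4000000c5000000c5000000ec000000ec000000c7000000c7000000c9000000c9) (nat_lit 0x2700000027000000250000002500000028000000280000002700000027000000000000000000000025000000250000002300000023)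
    (nat_lit 0x140288520a01462842909c17a2cc4b052144288520a01402805089d1082785d8b114c188510a01402805109c13e27c5a09c20a384520ac144278500a41442885289f1282687f8db144290500a413a2844f89f144270448971843404f86713a284508a314a27c510a210e2745e0b212e124518a113c2704d09c13a25c5809823636c500a81382a8420521282d0438891542c0828c51402a05a0941622cc6d8e1164340628db1c83806a88722a3245d8bd1fe4145e0c220a46c760e418e31c8b8cb0c4148520ac09219c540a818e21c500a2158290530961442904b89f140280638d5150280520a41402885209e1422844a0aa196324520a4160280510a21402885189d1682708b9151482b0510b0)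
    (nat_lit 0x140780f01e03c0780f01e03c0780f01e03c0780510a03c0780f01e03c0780f01e03c0780f01e0148280511e03c0780f01e03c0780f01e03c0780500a0138288f01e03c0780f01e03c0780f01e01462844f8a5144780f01e03c0780f01e03c07805089d13e27c4e0a23c0780f01e03c0780f01e00a42105a09411221c581e03c0780f01e03c07804e09e1382684b89d1302c0f01e03c0780f01e017a2ec828ff1842f08d9051c8780f01e03c0780598b11c236c680b21b6314700e43c0780f01e012c298520a213e25c500a01aa31c501e03c078029062158290338491502a0438c7144280f01e0144288510a013a28c4e0b422a45c560a4160780510a013c290508a1154250648cb148290500b0)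
    (nat_lit 4) (nat_lit 61)
    [[nat_lit 2,nat_lit 17,nat_lit 0x10011,nat_lit 0x1000011,nat_lit 0x1001,nat_lit 0x11001,nat_lit 0x101001,
    nat_lit 0x1001001,nat_lit 0x10001,nat_lit 0x100001,nat_lit 0x1000001],[nat_lit 32,nat_lit 0x10020,
    nat_lit 0x1000020,nat_lit 0x20020,nat_lit 272,nat_lit 0x1000110,nat_lit 0x1010,nat_lit 0x11010,nat_lit 0x1001010,
    nat_lit 0x1011010,nat_lit 0x10010,nat_lit 0x20010,nat_lit 0x1010010,nat_lit 0x110010,nat_lit 0x100010,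
    nat_lit 0x1100010,nat_lit 0x1000010,nat_lit 0x2000010],[nat_lit 512,nat_lit 0x10100,nat_lit 0x1000100],
    [nat_lit 0x2000,nat_lit 0x12000,nat_lit 0x1002000,nat_lit 0x11000,nat_lit 0x21000,nat_lit 0x111000,
    nat_lit 0x1011000,nat_lit 0x101000,nat_lit 0x201000,nat_lit 0x1101000,nat_lit 0x1001000,nat_lit 0x2001000],
    [nat_lit 0x20000,nat_lit 0x110000,nat_lit 0x1010000],[nat_lit 0x200000,nat_lit 0x1100000],[nat_lit 0x2000000]]
    [.c (nat_lit 1) (nat_lit 2),.c (nat_lit 0) (nat_lit 0x35045),.r (nat_lit 4) (nat_lit 6) [nat_lit 0x30231,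
    nat_lit 0x20001],.c (nat_lit 6) (nat_lit 0x22032),.c (nat_lit 1) (nat_lit 514),
    .r (nat_lit 0x1b36) (nat_lit 11) [nat_lit 0x203032,nat_lit 0x2021,nat_lit 0x22001],
    .r (nat_lit 0x1b6a) (nat_lit 10) [nat_lit 0x2001,nat_lit 0x20001,nat_lit 0x3021],
    .r (nat_lit 0x1b5d) (nat_lit 10) [nat_lit 0x2001,nat_lit 0x20001,nat_lit 0x3021],
    .r (nat_lit 0x1b04) (nat_lit 3) [nat_lit 0x20001,nat_lit 33],.r (nat_lit 0x1750) (nat_lit 8) [nat_lit 0x20001,
    nat_lit 33],.c (nat_lit 0) (nat_lit 0x35045),.c (nat_lit 2) (nat_lit 2),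
    .r (nat_lit 4) (nat_lit 9) [nat_lit 0x350432,nat_lit 0x20001],.r (nat_lit 0x1942) (nat_lit 9) [nat_lit 0x22001,
    nat_lit 0x200001,nat_lit 0x20001,nat_lit 0x284541],.r (nat_lit 2) (nat_lit 13) [nat_lit 34,nat_lit 0x20001],
    .r (nat_lit 0x1b67) (nat_lit 13) [nat_lit 0x33021,nat_lit 0x3001,nat_lit 0x22001],
    .r (nat_lit 0x1bd0) (nat_lit 10) [nat_lit 0x2001,nat_lit 0x20001,nat_lit 0x30021],
    .c (nat_lit 0) (nat_lit 0x35545),.r (nat_lit 4) (nat_lit 6) [nat_lit 0x33231,nat_lit 0x20001],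
    .c (nat_lit 6) (nat_lit 0x22232),.c (nat_lit 6) (nat_lit 0x3323),.r (nat_lit 0x174f) (nat_lit 13) [nat_lit 33,
    nat_lit 0x20001],.r (nat_lit 0x1b11) (nat_lit 0) [nat_lit 0x3001,nat_lit 0x22001,nat_lit 0x20321],
    .r (nat_lit 0x174d) (nat_lit 8) [nat_lit 0x30231,nat_lit 0x20001],.r (nat_lit 4) (nat_lit 9) [nat_lit 0x30231,
    nat_lit 0x20001],.r (nat_lit 0x1b04) (nat_lit 10) [nat_lit 0x20001,nat_lit 33],
    .r (nat_lit 0x1b51) (nat_lit 7) [nat_lit 0x33231,nat_lit 0x42321,nat_lit 0x30231],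
    .c (nat_lit 0) (nat_lit 0x35045),.r (nat_lit 0x18f7) (nat_lit 1) [nat_lit 0x2001,nat_lit 0x20001,nat_lit 0x200001,
    nat_lit 0x222321],.c (nat_lit 3) (nat_lit 2),.r (nat_lit 0x1b61) (nat_lit 0) [nat_lit 0x33021,nat_lit 0x3001,
    nat_lit 0x22001],.r (nat_lit 0x1c22) (nat_lit 11) [nat_lit 0x22031,nat_lit 33,nat_lit 0x222301],
    .c (nat_lit 4) (nat_lit 2),.r (nat_lit 0x1b36) (nat_lit 11) [nat_lit 0x205032,nat_lit 0x4021,nat_lit 0x22001],
    .r (nat_lit 0x1b5d) (nat_lit 10) [nat_lit 0x2001,nat_lit 0x20001,nat_lit 33],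
    .r (nat_lit 0x1b04) (nat_lit 3) [nat_lit 0x20001,nat_lit 0x2021],.r (nat_lit 0x1b2b) (nat_lit 3) [nat_lit 0x20001,
    nat_lit 0x30021,nat_lit 0x22001],.r (nat_lit 0x1b36) (nat_lit 11) [nat_lit 0x203031,nat_lit 0x304041,
    nat_lit 0x22001],.r (nat_lit 0x174c) (nat_lit 6) [nat_lit 0x22001,nat_lit 0x200001,nat_lit 0x355431],
    .r (nat_lit 0x1750) (nat_lit 8) [nat_lit 0x20001,nat_lit 0x2021],
    .r (nat_lit 0x1b61) (nat_lit 0) [nat_lit 0x203031,nat_lit 0x3001,nat_lit 0x22001],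
    .r (nat_lit 2) (nat_lit 13) [nat_lit 0x33231,nat_lit 0x20001],.c (nat_lit 0) (nat_lit 0x35545),
    .r (nat_lit 0x1c04) (nat_lit 11) [nat_lit 33,nat_lit 0x20031,nat_lit 0x2021,nat_lit 0x222321],
    .c (nat_lit 5) (nat_lit 2),.c (nat_lit 0) (nat_lit 0x20005),.r (nat_lit 0x1bbd) (nat_lit 7) [nat_lit 0x3001,
    nat_lit 0x22001,nat_lit 33],.c (nat_lit 6) (nat_lit 2),.r (nat_lit 10) (nat_lit 8) [nat_lit 33,nat_lit 0x20001],
    .c (nat_lit 7) (nat_lit 2)],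
    .l (nat_lit 13) (nat_lit 0x4b0) (nat_lit 4) (nat_lit 0x1c8000001c8000001bf000001bf000001d9000001d9000001a7000001a7000001db000001db000001e4000001e4000001b3000001b3) (nat_lit 0x1c0000001c00000025000000250000000b0000000b0000003d0000003d000000090000000900000000000000000000003100000031)
    (nat_lit 0xd606503f61a30de86f43161f1128888436c1660cb87643481ac0ee868c37a1bd0c5874c51e25f0db059832e1d90d1868c3341a20b605e81c418210c06d82fa0ef0c706803ba1fb0e5066834c1b40ba06082cc1a80e3877431c0ee0de86f436817a0e706783541aa0d907784f22290a8068037a1bd0d305b039c1ce0ce06703a01d014388dc2841d00e987c43041820ce06a82d416a0a006782fe1a70bb032031618b0ba03883381aa0b505a833c19e0ca869c22815612f88843501b60e8077833c19e0e907483f61db0d506f051e2510b308603a01b20cf05003a41d20ed876c4181940b305983ba0ef11b88a434e1a70ed876c3f41e409086cc36c1b60e385f450e2790ca85fc3b61fb0f207e82e21b30ec87641dc1a00e806802ac0c80ca06f03661b30ca060832e1970c7063828415008a05d84181aa0b88484334194)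
    (nat_lit 0xd612c09604b025812c09604b025812c09604b025812c03281ac25812c09604b025812c09604b025812c09604b00fd87743344b025812c09604b025812c09604b025812c03461a30d106689604b025812c09604b025812c09604b00de86f42d81a60e712c09604b025812c09604b025812c037a1bd0bd06d033c1ce25812c09604b025812c09604b00c5862c1c41740d506702d44b025812c09604b025812c03e21d30c1060835419c0b505a89604b025812c09604b01288a3c4301660d9074028019e0e912c09604b025812c044225f0db06a03bc1d00cf06783a41d225812c09604b00db06d82fa1c713c8a1c2fe1950fd876c3f44b025812c02cc16607787744522370d3869c3b61db0f207e89604b00cb865c31c18e0a805082ec1140d508302421710ca12c03b21d90d003b83401d006405583781940d986cc304194)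
    (nat_lit 4) (nat_lit 79)
    [[nat_lit 2,nat_lit 18,nat_lit 0x1002,nat_lit 0x10002,nat_lit 0x100002,nat_lit 0x2002,nat_lit 0x101002,nat_lit 17,
    nat_lit 0x1011,nat_lit 0x101011,nat_lit 0x100011,nat_lit 257,nat_lit 0x1101,nat_lit 0x1001,nat_lit 0x2001,
    nat_lit 0x101001,nat_lit 0x102001,nat_lit 0x11001,nat_lit 0x10001,nat_lit 0x110001,nat_lit 0x111001,
    nat_lit 0x100001,nat_lit 0x200001,nat_lit 0x1000001,nat_lit 0x1001001,nat_lit 0x1100001],[nat_lit 32,nat_lit 272,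
    nat_lit 0x100110,nat_lit 0x1010,nat_lit 0x2010,nat_lit 0x101010,nat_lit 0x1001010,nat_lit 0x100010,
    nat_lit 0x200010,nat_lit 0x1000010,nat_lit 0x1100010],[nat_lit 512,nat_lit 0x1100,nat_lit 0x2100,nat_lit 0x101100,
    nat_lit 0x10100,nat_lit 0x100100],[nat_lit 0x2000,nat_lit 0x3000,nat_lit 0x102000,nat_lit 0x11000,
    nat_lit 0x111000,nat_lit 0x101000,nat_lit 0x201000,nat_lit 0x1001000,nat_lit 0x1002000],[nat_lit 0x20000,
    nat_lit 0x110000,nat_lit 0x1010000],[nat_lit 0x200000,nat_lit 0x1100000],[nat_lit 0x2000000]]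
    [.c (nat_lit 1) (nat_lit 2),.c (nat_lit 0) (nat_lit 0x35343),.c (nat_lit 0) (nat_lit 0x39785),
    .r (nat_lit 32) (nat_lit 2) [nat_lit 0x350432,nat_lit 0x20001],.c (nat_lit 0) (nat_lit 0x35343),
    .c (nat_lit 0) (nat_lit 0x5543),.c (nat_lit 1) (nat_lit 0x2232),.c (nat_lit 0) (nat_lit 0x35343),
    .r (nat_lit 0x1ab9) (nat_lit 11) [nat_lit 0x33231,nat_lit 0x2001,nat_lit 0x20001],.c (nat_lit 2) (nat_lit 0x2232),
    .c (nat_lit 4) (nat_lit 0x22032),.r (nat_lit 0x1af7) (nat_lit 10) [nat_lit 0x2001,nat_lit 0x22321,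
    nat_lit 0x33201],.r (nat_lit 0x1ab9) (nat_lit 5) [nat_lit 0x33231,nat_lit 0x20001,nat_lit 0x2001],
    .c (nat_lit 0) (nat_lit 0x3323),.c (nat_lit 0) (nat_lit 0x5543),.c (nat_lit 0) (nat_lit 0x3323),
    .c (nat_lit 4) (nat_lit 0x2232),.r (nat_lit 32) (nat_lit 2) [nat_lit 0x30231,nat_lit 0x20001],
    .r (nat_lit 0x1a71) (nat_lit 13) [nat_lit 0x2031,nat_lit 0x20001,nat_lit 33],
    .r (nat_lit 0x1b75) (nat_lit 13) [nat_lit 0x20001,nat_lit 0x2031,nat_lit 0x33201],.c (nat_lit 2) (nat_lit 0x3023),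
    .c (nat_lit 0) (nat_lit 0x35345),.c (nat_lit 0) (nat_lit 0x35343),.r (nat_lit 0x1b04) (nat_lit 4) [nat_lit 33,
    nat_lit 0x2001],.r (nat_lit 32) (nat_lit 6) [nat_lit 0x3231,nat_lit 0x2001],
    .r (nat_lit 0x174e) (nat_lit 13) [nat_lit 0x3231,nat_lit 0x2001],.c (nat_lit 2) (nat_lit 2),
    .r (nat_lit 0x1750) (nat_lit 13) [nat_lit 33,nat_lit 0x22031],.r (nat_lit 0x1c23) (nat_lit 12) [nat_lit 0x20001,
    nat_lit 0x2001,nat_lit 0x203001,nat_lit 0x353451],.r (nat_lit 0x1af7) (nat_lit 13) [nat_lit 0x20001,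
    nat_lit 0x22321,nat_lit 0x33201],.c (nat_lit 2) (nat_lit 0x30202),
    .r (nat_lit 0x1aba) (nat_lit 3) [nat_lit 0x33231,nat_lit 0x203001,nat_lit 0x2001,nat_lit 0x20001],
    .r (nat_lit 0x195f) (nat_lit 11) [nat_lit 0x2001,nat_lit 0x20001,nat_lit 33],.c (nat_lit 0) (nat_lit 0x35343),
    .c (nat_lit 0) (nat_lit 0x35343),.r (nat_lit 0x1c22) (nat_lit 3) [nat_lit 0x30021,nat_lit 0x20001,
    nat_lit 0x200321],.r (nat_lit 0x1818) (nat_lit 5) [nat_lit 0x20001,nat_lit 0x2001,nat_lit 0x200001,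
    nat_lit 0x33021],.c (nat_lit 3) (nat_lit 2),.r (nat_lit 0x174f) (nat_lit 13) [nat_lit 0x2001,nat_lit 33],
    .r (nat_lit 0x1750) (nat_lit 13) [nat_lit 0x302021,nat_lit 0x220031],
    .r (nat_lit 0x1886) (nat_lit 12) [nat_lit 0x33231,nat_lit 0x20001,nat_lit 0x2001,nat_lit 0x203001],
    .r (nat_lit 0x1c22) (nat_lit 3) [nat_lit 0x2031,nat_lit 0x20001,nat_lit 0x222331],
    .r (nat_lit 0) (nat_lit 1) [nat_lit 0x2001,nat_lit 33],.c (nat_lit 4) (nat_lit 2),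
    .r (nat_lit 0x1af7) (nat_lit 13) [nat_lit 0x20001,nat_lit 0x324321,nat_lit 0x33201],
    .c (nat_lit 0) (nat_lit 0x5543),.c (nat_lit 0) (nat_lit 0x20003),.r (nat_lit 0x174e) (nat_lit 1) [nat_lit 0x30231,
    nat_lit 0x20001],.c (nat_lit 0) (nat_lit 0x3323),.c (nat_lit 0) (nat_lit 0x39785),
    .r (nat_lit 0x1a71) (nat_lit 3) [nat_lit 0x30021,nat_lit 0x2001,nat_lit 0x20001],
    .r (nat_lit 0x1c22) (nat_lit 3) [nat_lit 0x332021,nat_lit 0x20001,nat_lit 0x2321],.c (nat_lit 5) (nat_lit 2),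
    .r (nat_lit 0x1b04) (nat_lit 5) [nat_lit 33,nat_lit 0x20001],.r (nat_lit 0x1750) (nat_lit 13) [nat_lit 0x22031,
    nat_lit 33],.c (nat_lit 6) (nat_lit 2),.r (nat_lit 0x1b04) (nat_lit 11) [nat_lit 33,nat_lit 0x2001],
    .c (nat_lit 7) (nat_lit 2)]]

/-- nodes -/
noncomputable def rD7k_22_31 : List RJ :=
  [.l (nat_lit 12) (nat_lit 720) (nat_lit 3) (nat_lit 0x12b0000012b00000120000001200000013b0000013b000001680000016800000156000001060000013900000139000001160000011e) (nat_lit 0x3d0000003d00000048000000480000002d0000002d000000000000000000000062000000120000002f0000002f0000004a00000052)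
    (nat_lit 0xf010c0ff0ff0d40ec12b0d30b70d31140fc0e10c71120f00e30e30fe10c10f0b50b91191020e00c50bb0e30ff0ca0b41690f31201200da12a10f1010d40c80e30ff0d80ca0f30f311e1200be0b41071150e80ce10c0ec0f30f310e10e19513b0b512b10c10c0d50d30fe0d40f31690f010e19513b1291290b410c1491470b50d312012013b13b1681861060fc0db0e914816e10f12b11e12019519514a1681061561390e91641881190d30b412a12912b1560fc1441620b512710c1040b90b70be0da1290b51061060f41440c70d70bc0b40e00fc11510110c10c0e90e90d712710a0ba1010f710211410710f0b410c1390db0c70b510a10a1010e70bb0c70ce0c81470d318816e0b41040e70f70b40c40c50e10e80d41490d51641480bc10c1011010b60b4)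
    (nat_lit 0xf02d02d02d02d02d02d02d02d02d02d02d02d02d010c0f02d02d02d02d02d02d02d02d02d02d02d02d00ff0e30ca2d02d02d02d02d02d02d02d02d02d02d00ff0e30b40ca2d02d02d02d02d02d02d02d02d02d00d40fe1690f310e2d02d02d02d02d02d02d02d02d00ec10c0f30f310e10e2d02d02d02d02d02d02d02d012b10f12011e1951951682d02d02d02d02d02d02d00d30b512012013b13b1861682d02d02d02d02d02d00b70b90da0be0b51291061061442d02d02d02d02d00d311912a0b412b1290fc1561621442d02d02d02d011410210f10710c0b40db1390b50c710a2d02d02d00fc0e010111510c10c0e90e91270d70ba10a2d02d00e10c50d40e80d514914816410c0bc1011010b42d00c70bb0c80ce0d314716e1881040b40f70e70c40b4)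
    (nat_lit 5) (nat_lit 83)
    [[nat_lit 2,nat_lit 3,nat_lit 18,nat_lit 258,nat_lit 0x100002,nat_lit 0x1000002,nat_lit 17,nat_lit 273,
    nat_lit 0x10011,nat_lit 0x1000011,nat_lit 33,nat_lit 257,nat_lit 0x100101,nat_lit 0x1000101,nat_lit 0x10101,
    nat_lit 0x10001,nat_lit 0x20001,nat_lit 0x110001,nat_lit 0x1010001,nat_lit 0x100001,nat_lit 0x200001,
    nat_lit 0x1100001,nat_lit 0x1000001,nat_lit 0x2000001],[nat_lit 32,nat_lit 48,nat_lit 288,nat_lit 0x1020,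
    nat_lit 0x10020,nat_lit 272,nat_lit 0x1110,nat_lit 0x10110,nat_lit 0x100110,nat_lit 0x1000110,nat_lit 0x1010,
    nat_lit 0x10010,nat_lit 0x1010010,nat_lit 0x20010,nat_lit 0x110010,nat_lit 0x100010,nat_lit 0x1000010,
    nat_lit 0x1001010],[nat_lit 512,nat_lit 0x1100,nat_lit 0x1001100,nat_lit 0x10100,nat_lit 0x1010100,
    nat_lit 0x100100,nat_lit 0x200100,nat_lit 0x1100100,nat_lit 0x1000100,nat_lit 0x2000100],[nat_lit 0x101000,
    nat_lit 0x1001000],[nat_lit 0x20000,nat_lit 0x110000,nat_lit 0x210000,nat_lit 0x1110000,nat_lit 0x1010000],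
    [nat_lit 0x200000,nat_lit 0x300000,nat_lit 0x1200000,nat_lit 0x1100000],[nat_lit 0x2000000]]
    [.c (nat_lit 1) (nat_lit 2),.r (nat_lit 0x113d) (nat_lit 12) [nat_lit 0x30c600061,nat_lit 0x34073b0a1,
    nat_lit 0xc030061,nat_lit 0x1a000081],.c (nat_lit 0) (nat_lit 0x6500002),
    .r (nat_lit 0x5b5) (nat_lit 3) [nat_lit 0x3184000e1,nat_lit 0x1ce300081,nat_lit 0x3e2500101,nat_lit 0x2102000a1,
    nat_lit 0x252310082],.r (nat_lit 32) (nat_lit 12) [nat_lit 0xa200042,nat_lit 0x140319002],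
    .r (nat_lit 0x5b6) (nat_lit 7) [nat_lit 0x4010041,nat_lit 0xa0000a1,nat_lit 129,nat_lit 0x110000081,
    nat_lit 0xe2000e1],.c (nat_lit 5) (nat_lit 0x6300802),.c (nat_lit 5) (nat_lit 0x8410805),
    .c (nat_lit 3) (nat_lit 0x8410805),.r (nat_lit 0x1a8d) (nat_lit 9) [nat_lit 0x140319002,nat_lit 0x208212482,
    nat_lit 0xc6000801],.r (nat_lit 0x5b7) (nat_lit 9) [nat_lit 0x230002,nat_lit 0x352331082,nat_lit 0x10001,
    nat_lit 0x104038061,nat_lit 0x108028061],.r (nat_lit 32) (nat_lit 3) [nat_lit 0x1082100a2,nat_lit 0x140319002],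
    .r (nat_lit 0x5b8) (nat_lit 8) [nat_lit 0x1082300a2,nat_lit 0x358082,nat_lit 0xa378082,nat_lit 0x10001,
    nat_lit 0xc0020861],.r (nat_lit 0x113f) (nat_lit 4) [nat_lit 0x6000041,nat_lit 0x10001,nat_lit 0x146319061,
    nat_lit 0x104200061],.c (nat_lit 2) (nat_lit 0x8410805),.r (nat_lit 0x174e) (nat_lit 4) [nat_lit 0x1082100a2,
    nat_lit 0x140319002],.c (nat_lit 0) (nat_lit 0x300c02),.r (nat_lit 32) (nat_lit 12) [nat_lit 0xa218082,
    nat_lit 0x140319002],.r (nat_lit 0x111f) (nat_lit 7) [nat_lit 0x10001,nat_lit 0xa218082,nat_lit 0x8318082,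
    nat_lit 0x2082100a2],.c (nat_lit 0) (nat_lit 0x4200003),.r (nat_lit 0x5b7) (nat_lit 9) [nat_lit 0x230002,
    nat_lit 0x1403310a2,nat_lit 0x10001,nat_lit 0x6038041,nat_lit 0x28041],.c (nat_lit 1) (nat_lit 0x200002),
    .r (nat_lit 0x174e) (nat_lit 4) [nat_lit 0x104200062,nat_lit 0x140319002],
    .r (nat_lit 0x5b9) (nat_lit 6) [nat_lit 0x1403190a1,nat_lit 0xe2000c1,nat_lit 0x110000121,nat_lit 129,
    nat_lit 0xa000081],.c (nat_lit 2) (nat_lit 2),.r (nat_lit 0x5ba) (nat_lit 4) [nat_lit 0x180400061,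
    nat_lit 0x300001,nat_lit 0x230002,nat_lit 0x65ab3b082,nat_lit 65],
    .r (nat_lit 0x113f) (nat_lit 4) [nat_lit 0x100200061,nat_lit 0x10001,nat_lit 0x24a519041,nat_lit 65],
    .r (nat_lit 0x5bb) (nat_lit 13) [nat_lit 0x1103590a2,nat_lit 0x10a3b90a2,nat_lit 0x30001,nat_lit 0x24a311041,
    nat_lit 0x690002],.r (nat_lit 0x113c) (nat_lit 4) [nat_lit 0x2004100a1,nat_lit 0x20001,nat_lit 0x45293a081,
    nat_lit 0x18081],.c (nat_lit 0) (nat_lit 0xc020009),.r (nat_lit 0x1807) (nat_lit 7) [nat_lit 0xa2190a2,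
    nat_lit 0x10001,nat_lit 0x140310082,nat_lit 0x84000c41],.c (nat_lit 1) (nat_lit 0x8410805),
    .r (nat_lit 0x1bce) (nat_lit 6) [nat_lit 0x140319002,nat_lit 0x24a319082,nat_lit 0x1c6300841],
    .c (nat_lit 5) (nat_lit 0xa018804),.r (nat_lit 32) (nat_lit 12) [nat_lit 0xa2190a4,nat_lit 0x140319002],
    .r (nat_lit 0) (nat_lit 5) [nat_lit 0x140319002,nat_lit 65],.r (nat_lit 0x5bc) (nat_lit 9) [nat_lit 0x300a301a2,
    nat_lit 0x540b5d002,nat_lit 0xc0020041,nat_lit 0x1000100a1,nat_lit 0x156018081],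
    .r (nat_lit 0x5b7) (nat_lit 9) [nat_lit 0x230002,nat_lit 0x24a311082,nat_lit 0x10001,nat_lit 0x80028061,
    nat_lit 0x84018061],.r (nat_lit 32) (nat_lit 12) [nat_lit 0x1002100a2,nat_lit 0x140319002],
    .c (nat_lit 0) (nat_lit 0x4000005),.c (nat_lit 5) (nat_lit 0x6001002),
    .r (nat_lit 0x5b7) (nat_lit 9) [nat_lit 0x230002,nat_lit 0xc0020041,nat_lit 0x10001,nat_lit 0xa3790a2,
    nat_lit 0x3590a2],.c (nat_lit 3) (nat_lit 2),.r (nat_lit 0x1bce) (nat_lit 6) [nat_lit 0x140319002,nat_lit 65,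
    nat_lit 0x140310082],.c (nat_lit 5) (nat_lit 0x6300043),.c (nat_lit 6) (nat_lit 0x18c04),
    .c (nat_lit 1) (nat_lit 0x418c04),.r (nat_lit 0x1c27) (nat_lit 13) [nat_lit 65,nat_lit 0x140319002,
    nat_lit 0x10001],.r (nat_lit 0x5bd) (nat_lit 9) [nat_lit 0x4000c1,nat_lit 0x740f7f002,nat_lit 0x2700a2,
    nat_lit 0x300081,nat_lit 0x1e2000a1],.r (nat_lit 32) (nat_lit 3) [nat_lit 0x1002100a2,nat_lit 0x140319002],
    .c (nat_lit 0) (nat_lit 0xc020009),.r (nat_lit 0x1807) (nat_lit 7) [nat_lit 65,nat_lit 0x10001,nat_lit 0xc6000861,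
    nat_lit 0x1002180a2],.c (nat_lit 0) (nat_lit 0xa518c85),.c (nat_lit 5) (nat_lit 0x84118a4),
    .c (nat_lit 5) (nat_lit 2),.c (nat_lit 0) (nat_lit 0x803),.c (nat_lit 3) (nat_lit 0x10c04),
    .r (nat_lit 0x174e) (nat_lit 4) [nat_lit 0x1002100a2,nat_lit 0x140319002],
    .r (nat_lit 0x12f3) (nat_lit 4) [nat_lit 129,nat_lit 0x80000061,nat_lit 0x1ca319061,nat_lit 0x80210061],
    .c (nat_lit 6) (nat_lit 2),.c (nat_lit 3) (nat_lit 0x10002),.c (nat_lit 0) (nat_lit 0x4000003),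
    .c (nat_lit 0) (nat_lit 0x300003),.c (nat_lit 7) (nat_lit 2)],
    .l (nat_lit 10) (nat_lit 240) (nat_lit 3) (nat_lit 0x8d0000007a0000007300000081000000730000008d000000a800000073000000890000007300000080000000730000007100000079) (nat_lit 0x2e0000001b00000027000000350000001b000000350000003500000000000000350000001f00000035000000280000002f00000037)
    (nat_lit 0x17c53198582bc6e1d8ad0f06e14c651783c1185f154452084110c7a120551145212c4311458140441603c110500f8560f8481103c15466170501984c1407113062130590f03c1046e1303c1a03c0f8730f8501304b1103c208af198581c8681508d160731e03c0f8531e8ad1c450234731b8a82708d1d8800f05110c76140441503e0f06e18c54104401103c1546e188561cc501508d17c6c1503c0f04f1203c1303e1603e18c9c0f85f0f04b1103c14865164480f04b1008012c3c12c581b44b114531303e1e04c104760f0540f04b1783c10c3c0f03c14c3c0f0510f04f0f04b11c3c12c5e0f0440f8441103c1103c1786d1a447)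
    (nat_lit 0x17cf03c0f03c0f03c0f03c0f03c0f03c0f014c5f3c0f03c0f03c0f03c0f03c0f03c0f019855140f03c0f03c0f03c0f03c0f03c0f016045110503c0f03c0f03c0f03c0f03c0f02bc82160661a0f03c0f03c0f03c0f03c0f01b8410f04c0f0683c0f03c0f03c0f03c0f01d843110500f8541b8f03c0f03c0f03c0f02b47a140711cc8d2a06e3c0f03c0f03c0f00f0480f84c0f8582706317cf03c0f03c0f01b8551586214073234541b05f3c0f03c0f014c450f84c130781d8411503c12cf03c0f0194521205912c3c200400f04b1604b3c0f01784b1103c1103e0f0440f0441b45e11cf00f0430f03c0f0531443c13c3c12c3c0f047)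
    (nat_lit 4) (nat_lit 83)
    [[nat_lit 2,nat_lit 3,nat_lit 258,nat_lit 0x1002,nat_lit 0x10002,nat_lit 0x100002,nat_lit 0x1000002,nat_lit 17,
    nat_lit 0x100011,nat_lit 0x1000011,nat_lit 273,nat_lit 0x1011,nat_lit 0x10011,nat_lit 257,nat_lit 513,
    nat_lit 0x10101,nat_lit 0x100101,nat_lit 0x1000101,nat_lit 0x1101,nat_lit 0x1001,nat_lit 0x2001,nat_lit 0x11001,
    nat_lit 0x101001,nat_lit 0x1001001,nat_lit 0x10001,nat_lit 0x110001,nat_lit 0x20001,nat_lit 0x1010001,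
    nat_lit 0x100001,nat_lit 0x200001,nat_lit 0x1100001,nat_lit 0x1000001,nat_lit 0x2000001],[nat_lit 32,nat_lit 48,
    nat_lit 288,nat_lit 0x10020,nat_lit 0x100020,nat_lit 272,nat_lit 528,nat_lit 0x10110,nat_lit 0x100110,
    nat_lit 0x1000110,nat_lit 0x1010,nat_lit 0x101010,nat_lit 0x10010,nat_lit 0x100010,nat_lit 0x110010,
    nat_lit 0x200010,nat_lit 0x1000010,nat_lit 0x1010010,nat_lit 0x2000010],[nat_lit 512,nat_lit 0x10100,
    nat_lit 0x100100,nat_lit 0x1000100,nat_lit 0x1100100],[nat_lit 0x2000,nat_lit 0x11000,nat_lit 0x101000],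
    [nat_lit 0x20000,nat_lit 0x110000],[nat_lit 0x200000,nat_lit 0x1100000,nat_lit 0x2100000],[nat_lit 0x2000000]]
    [.c (nat_lit 1) (nat_lit 2),.c (nat_lit 3) (nat_lit 0x332323),.c (nat_lit 1) (nat_lit 0x332323),
    .c (nat_lit 0) (nat_lit 0x3302),.r (nat_lit 0x1807) (nat_lit 2) [nat_lit 0x3505431,nat_lit 0x220001,
    nat_lit 0x202321,nat_lit 0x2232321],.r (nat_lit 0x17f8) (nat_lit 1) [nat_lit 0x3505431,nat_lit 0x3020031,
    nat_lit 0x3040031,nat_lit 0x2230021],.c (nat_lit 0) (nat_lit 0x203002),.c (nat_lit 0) (nat_lit 0x22003),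
    .r (nat_lit 0x1b36) (nat_lit 4) [nat_lit 0x220031,nat_lit 0x330041,nat_lit 0x532041],
    .r (nat_lit 0x1b36) (nat_lit 4) [nat_lit 0x300021,nat_lit 0x620051,nat_lit 0x422051],
    .r (nat_lit 0x174e) (nat_lit 3) [nat_lit 0x3231,nat_lit 0x2001],.r (nat_lit 32) (nat_lit 7) [nat_lit 0x3535221,
    nat_lit 0x2001],.r (nat_lit 32) (nat_lit 7) [nat_lit 0x3231,nat_lit 0x2001],.c (nat_lit 2) (nat_lit 0x240232),
    .r (nat_lit 0x111e) (nat_lit 5) [nat_lit 0x8800001,nat_lit 0x8001,nat_lit 0x330041,nat_lit 0x440001],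
    .c (nat_lit 4) (nat_lit 0x30023),.c (nat_lit 4) (nat_lit 0x220432),.c (nat_lit 6) (nat_lit 0x330323),
    .c (nat_lit 5) (nat_lit 0x30023),.r (nat_lit 0x1b36) (nat_lit 4) [nat_lit 0x22031,nat_lit 0x235041,
    nat_lit 0x33041],.r (nat_lit 0x5b0) (nat_lit 2) [nat_lit 33,nat_lit 0x220051,nat_lit 0x3323271,nat_lit 0x2032041,
    nat_lit 0x33041],.c (nat_lit 3) (nat_lit 0x30023),.r (nat_lit 0x5b1) (nat_lit 3) [nat_lit 0x3359261,
    nat_lit 0x235041,nat_lit 0x22031,nat_lit 0x24051,nat_lit 0x2048091],.c (nat_lit 0) (nat_lit 770),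
    .r (nat_lit 0) (nat_lit 13) [nat_lit 0x2001,nat_lit 33],.r (nat_lit 0x111e) (nat_lit 5) [nat_lit 0x8800001,
    nat_lit 0x8001,nat_lit 0x5b39851,nat_lit 0x440001],.r (nat_lit 0x1be6) (nat_lit 6) [nat_lit 0x2001,
    nat_lit 0x220001,nat_lit 0x330041],.r (nat_lit 0x5b2) (nat_lit 6) [nat_lit 0x2034031,nat_lit 0x5545401,
    nat_lit 0x440001,nat_lit 0x3020021,nat_lit 0x2070031],.r (nat_lit 0x1b49) (nat_lit 10) [nat_lit 0x3305231,
    nat_lit 33,nat_lit 0x2001],.r (nat_lit 0x5b3) (nat_lit 9) [nat_lit 0x3323271,nat_lit 0x22051,nat_lit 0x2050081,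
    nat_lit 0x30041,nat_lit 33],.c (nat_lit 3) (nat_lit 0x330323),.r (nat_lit 32) (nat_lit 7) [nat_lit 0x3303231,
    nat_lit 0x2001],.r (nat_lit 0x5b4) (nat_lit 7) [nat_lit 0x2030041,nat_lit 0x30041,nat_lit 33,nat_lit 0x220051,
    nat_lit 0x3323271],.c (nat_lit 2) (nat_lit 2),.c (nat_lit 3) (nat_lit 0x5b3542),
    .r (nat_lit 0x10e2) (nat_lit 6) [nat_lit 0x8001,nat_lit 65,nat_lit 0x440031,nat_lit 0x9d59821],
    .c (nat_lit 0) (nat_lit 0x240003),.c (nat_lit 0) (nat_lit 0x240003),.r (nat_lit 0x1b04) (nat_lit 8) [nat_lit 33,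
    nat_lit 0x2001],.r (nat_lit 0x174e) (nat_lit 3) [nat_lit 0x335432,nat_lit 0x2001],
    .r (nat_lit 0x1b54) (nat_lit 0) [nat_lit 0x2001,nat_lit 0x3300021,nat_lit 0x220001],
    .r (nat_lit 32) (nat_lit 1) [nat_lit 0x3231,nat_lit 0x2001],.r (nat_lit 0x1c28) (nat_lit 3) [nat_lit 0x220001,
    nat_lit 0x5735451,nat_lit 0x2031,nat_lit 0x2200021],.c (nat_lit 0) (nat_lit 0x220203),
    .c (nat_lit 4) (nat_lit 0x30202),.c (nat_lit 0) (nat_lit 0x240003),.c (nat_lit 0) (nat_lit 0x20303),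
    .c (nat_lit 1) (nat_lit 0x332002),.r (nat_lit 0x1b36) (nat_lit 4) [nat_lit 0x220032,nat_lit 33,nat_lit 0x302021],
    .c (nat_lit 0) (nat_lit 0x20003),.c (nat_lit 4) (nat_lit 0x220403),
    .r (nat_lit 0x1b36) (nat_lit 4) [nat_lit 0x320022,nat_lit 0x400031,nat_lit 0x202031],.c (nat_lit 3) (nat_lit 2),
    .c (nat_lit 0) (nat_lit 0x53545),.c (nat_lit 0) (nat_lit 0x353545),
    .r (nat_lit 0x1b54) (nat_lit 0) [nat_lit 0x2001,nat_lit 33,nat_lit 0x220001],.c (nat_lit 1) (nat_lit 0x330323),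
    .c (nat_lit 4) (nat_lit 2),.c (nat_lit 1) (nat_lit 0x302302),.r (nat_lit 0x1b36) (nat_lit 4) [nat_lit 0x22032,
    nat_lit 0x203021,nat_lit 33],.c (nat_lit 5) (nat_lit 2),.c (nat_lit 1) (nat_lit 0x304002),
    .c (nat_lit 6) (nat_lit 2),.c (nat_lit 1) (nat_lit 0x2002),.c (nat_lit 0) (nat_lit 0x200002),
    .c (nat_lit 7) (nat_lit 2)]]

/-- nodes -/
noncomputable def rD7k_22_32 : List RJ :=
  [.l (nat_lit 12) (nat_lit 0x3fc) (nat_lit 4) (nat_lit 0x1c8000001c8000001b5000001b5000001c60000015600000192000001920000018e000001920000019e0000019e0000013e00000198) (nat_lit 0x130000001300000072000000020000003600000036000000360000003a0000002a0000002a000000300000008a)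
    (nat_lit 0x1541541e31b51982142241ec17819815819e1981201c81541b51b51982102101d811c19815819e19811c1b51b51581a20fd1b317513d17f0fd1ad2011f91711b51e31a215813f1b31a317f1a718b1fb24f1371232102141b31b31541c41801940cc1681a41741680cc19819813f0fd0e415412012012011c13412c0cc0cc1d81ec17f13d12019415c15c15c1581681681201002102241a317512018014815c18015816816815810819819818b0fd11c1681581581581681641400cc10411c1781a717f1200cc18015c17415816416816210819e19e24f20112c17416816816814017415c1881181581581fb1ad1341a416816816416415c17418c11411c1201231710cc0cc1081001081041141181540cc1981981371f90cc1681581201620cc18c1881dc154)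
    (nat_lit 0x1543fc3fc3fc3fc3fc3fc3fc3fc3fc3fc3fc3fc3fc1541543fc3fc3fc3fc3fc3fc3fc3fc3fc3fc3fc3fc1e31b51583fc3fc3fc3fc3fc3fc3fc3fc3fc3fc3fc1b51b51a21583fc3fc3fc3fc3fc3fc3fc3fc3fc3fc1981980fd13f1543fc3fc3fc3fc3fc3fc3fc3fc3fc2142101b31b31c41543fc3fc3fc3fc3fc3fc3fc3fc2242101751a318012015c3fc3fc3fc3fc3fc3fc3fc1ec1d813d17f19412015c15c3fc3fc3fc3fc3fc3fc17811c17f1a70cc12015c1801583fc3fc3fc3fc3fc1981980fd18b16811c1581581681583fc3fc3fc3fc1581581ad1fb1a41341681681641641743fc3fc3fc19e19e20124f17412c16816814016815c1743fc3fc1981981f91371680cc1201580cc16218818c1543fc12011c1711230cc0cc1001081041081181140cc154)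
    (nat_lit 4) (nat_lit 86)
    [[nat_lit 2,nat_lit 18,nat_lit 258,nat_lit 0x10102,nat_lit 0x1002,nat_lit 0x10002,nat_lit 17,nat_lit 273,
    nat_lit 0x1011,nat_lit 0x10011,nat_lit 257,nat_lit 514,nat_lit 513,nat_lit 0x10201,nat_lit 0x1101,nat_lit 0x10101,
    nat_lit 0x10111,nat_lit 0x11101,nat_lit 0x20101,nat_lit 0x110101,nat_lit 0x100101,nat_lit 0x1000101,
    nat_lit 0x1001,nat_lit 0x11002,nat_lit 0x2001,nat_lit 0x11001,nat_lit 0x101001,nat_lit 0x10001,nat_lit 0x20002,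
    nat_lit 0x20001,nat_lit 0x110001,nat_lit 0x100001,nat_lit 0x1000001],[nat_lit 32,nat_lit 272,nat_lit 0x10110,
    nat_lit 0x1010,nat_lit 0x10010,nat_lit 0x1000010,nat_lit 0x1000110],[nat_lit 512,nat_lit 0x10200,nat_lit 0x1100,
    nat_lit 0x11100,nat_lit 0x10100,nat_lit 0x20200,nat_lit 0x20100,nat_lit 0x110100,nat_lit 0x100100,
    nat_lit 0x1000100],[nat_lit 0x2000,nat_lit 0x11000,nat_lit 0x21000,nat_lit 0x101000],[nat_lit 0x20000,
    nat_lit 0x110000,nat_lit 0x1010000],[nat_lit 0x200000,nat_lit 0x1100000],[nat_lit 0x2000000]]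
    [.c (nat_lit 1) (nat_lit 2),.r (nat_lit 0x1c27) (nat_lit 6) [nat_lit 0x20001,nat_lit 0x200001,nat_lit 33],
    .c (nat_lit 0) (nat_lit 0x33223),.c (nat_lit 1) (nat_lit 0x22032),.c (nat_lit 1) (nat_lit 0x30302),
    .c (nat_lit 0) (nat_lit 0x33223),.r (nat_lit 0x174d) (nat_lit 4) [nat_lit 0x222031,nat_lit 33],
    .r (nat_lit 0x174e) (nat_lit 3) [nat_lit 0x300231,nat_lit 0x200001],.c (nat_lit 2) (nat_lit 0x30302),
    .r (nat_lit 32) (nat_lit 7) [nat_lit 0x300231,nat_lit 0x200001],.c (nat_lit 0) (nat_lit 0x33023),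
    .c (nat_lit 0) (nat_lit 0x55043),.c (nat_lit 0) (nat_lit 0x55043),.c (nat_lit 3) (nat_lit 0x22032),
    .c (nat_lit 3) (nat_lit 0x30302),.c (nat_lit 0) (nat_lit 0x33023),.c (nat_lit 2) (nat_lit 0x22032),
    .c (nat_lit 4) (nat_lit 0x22032),.c (nat_lit 5) (nat_lit 0x22032),.c (nat_lit 2) (nat_lit 0x30023),
    .r (nat_lit 0x1793) (nat_lit 4) [nat_lit 0x2001,nat_lit 0x330231,nat_lit 0x20001,nat_lit 0x200001],
    .r (nat_lit 0x1abe) (nat_lit 3) [nat_lit 0x20001,nat_lit 0x200031,nat_lit 0x330201],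
    .c (nat_lit 0) (nat_lit 0x20203),.c (nat_lit 0) (nat_lit 0x3223),.c (nat_lit 4) (nat_lit 0x30302),
    .c (nat_lit 5) (nat_lit 0x30302),.c (nat_lit 2) (nat_lit 0x22203),.c (nat_lit 0) (nat_lit 0x33023),
    .c (nat_lit 0) (nat_lit 0x55043),.c (nat_lit 0) (nat_lit 0x55043),
    .r (nat_lit 0x1ab9) (nat_lit 10) [nat_lit 0x330231,nat_lit 0x20001,nat_lit 0x200001],
    .r (nat_lit 0x1a7f) (nat_lit 7) [nat_lit 0x202031,nat_lit 0x20001,nat_lit 33],
    .r (nat_lit 0x174f) (nat_lit 5) [nat_lit 0x20001,nat_lit 33],.c (nat_lit 2) (nat_lit 2),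
    .r (nat_lit 2) (nat_lit 4) [nat_lit 0x202001,nat_lit 33],.r (nat_lit 0x1750) (nat_lit 5) [nat_lit 0x303231,
    nat_lit 0x422321],.r (nat_lit 0x1750) (nat_lit 5) [nat_lit 0x220031,nat_lit 33],
    .r (nat_lit 32) (nat_lit 9) [nat_lit 0x202001,nat_lit 33],.r (nat_lit 8) (nat_lit 5) [nat_lit 0x2021,
    nat_lit 0x220031],.r (nat_lit 0x174f) (nat_lit 3) [nat_lit 0x200001,nat_lit 0x303231],.c (nat_lit 3) (nat_lit 2),
    .c (nat_lit 0) (nat_lit 0x55043),.c (nat_lit 0) (nat_lit 0x3223),.c (nat_lit 4) (nat_lit 0x42232),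
    .c (nat_lit 0) (nat_lit 0x33023),.c (nat_lit 4) (nat_lit 0x84452),.c (nat_lit 0) (nat_lit 0x55043),
    .r (nat_lit 8) (nat_lit 5) [nat_lit 0x300231,nat_lit 0x422321],.r (nat_lit 0) (nat_lit 4) [nat_lit 33,
    nat_lit 0x200001],.c (nat_lit 0) (nat_lit 0x33323),.c (nat_lit 4) (nat_lit 2),.c (nat_lit 0) (nat_lit 0x3223),
    .r (nat_lit 0x1c27) (nat_lit 12) [nat_lit 0x200001,nat_lit 0x20001,nat_lit 33],
    .r (nat_lit 8) (nat_lit 5) [nat_lit 0x222031,nat_lit 33],.c (nat_lit 5) (nat_lit 2),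
    .r (nat_lit 0x174f) (nat_lit 3) [nat_lit 0x200001,nat_lit 33],.c (nat_lit 0) (nat_lit 0x33323),
    .c (nat_lit 6) (nat_lit 2),.r (nat_lit 0x1750) (nat_lit 5) [nat_lit 33,nat_lit 0x220031],
    .c (nat_lit 7) (nat_lit 2)],
    .l (nat_lit 15) (nat_lit 0x1a40) (nat_lit 4) (nat_lit 0xab500000ab50000095600000c1400000aeb00000aeb00000b7000000ae800000c700000097a00000b7d00000b7d0000099a00000caa) (nat_lit 0x1f5000001f50000009600000354000001bf000001bf000001c20000013a000003300000003a0000012d0000012d0000000000000310)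
    (nat_lit 0x1180230050f87610df41e788118d710e0a29ec4a10988156a1b2c46008c0143e1d8437d08c0199e28743828a7b1310262055a86cb0ec21d8447b06020dea1e5c3ca0a180c4c150048188a912ac191850f8a1f176823d852a8a55175428982a00bda12ae2b9c6b6054011801e7852a879713c023d849489b10f7625646c10d6215d625ac37d06fa14aa1bd449609e0110a26c43dd8a0d19bc32f837a8a55143a35c45130a18136226c45290a360a802f683e48a431ad81500667902317541e504428929124c29484650aae159e22a457406c414f629ec5ed0540141a25645570bda14a430d862b8a310a80213038287050a8018983dd87bb1194150036d0a52109a21344bd066a1310262057388a9197c35884548a43109a28c452809c017fa21b44c4094212ae240c66f0d82159e1f244268c5710f4294062b886d0d961b2c2a0064614aa25ac36205400cd42130436886d13c0218055a8ab51ad8255837a8aeb15d035b04bd054018ae2ff465509e0)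
    (nat_lit 0x11806900d201a4034806900d201a4034806900d201a403480690046008c034806900d201a4034806900d201a4034806900d201a40143e287c47b1a4034806900d201a4034806900d201a40348069003b087610c0423d8d201a4034806900d201a4034806900d201a400df41be837a8a5513c06900d201a4034806900d201a40348069003cf08c00f2e295447b09e034806900d201a4034806900d201a402046333c3ca0baa125222145291a4034806900d201a40348069006b88a1d143028984d889b1146c2948d201a4034806900d201a400e0a1c1431305400f761eec2a008ca14a46900d201a403480690053d8a7b0a802f684ac8a0d17b42ab861b0a5234806900d201a401284262048189571b0433783e48acf18ae21345281a40348069004c4098811522b9c6b10cbe148622a4518884d13802940d201a40156a2ad44ab0a8015d61bd45400ae80a8025e85fe8c5713c0690036586cb0c8c15004b58a550a801b10426066a10da21b443009e0)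
    (nat_lit 3) (nat_lit 81)
    [[nat_lit 2,nat_lit 258,nat_lit 0x1002,nat_lit 0x100002,nat_lit 17,nat_lit 257,nat_lit 514,nat_lit 273,
    nat_lit 513,nat_lit 0x100201,nat_lit 0x1101,nat_lit 0x2101,nat_lit 0x101101,nat_lit 0x10101,nat_lit 0x110101,
    nat_lit 0x100101,nat_lit 0x200101,nat_lit 0x1100101,nat_lit 0x1000101,nat_lit 0x1001,nat_lit 0x10001,
    nat_lit 0x11001,nat_lit 0x110001,nat_lit 0x1010001,nat_lit 0x100001,nat_lit 0x200001,nat_lit 0x1000001,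
    nat_lit 0x1100001],[nat_lit 32,nat_lit 272,nat_lit 0x100110,nat_lit 0x1010,nat_lit 0x100010,nat_lit 0x1000010],
    [nat_lit 512,nat_lit 0x100200,nat_lit 0x1100,nat_lit 0x11100,nat_lit 0x101100,nat_lit 0x10100,nat_lit 0x110100,
    nat_lit 0x1010100,nat_lit 0x100100,nat_lit 0x200100,nat_lit 0x200200,nat_lit 0x1100100,nat_lit 0x1000100],
    [nat_lit 0x2000,nat_lit 0x11000,nat_lit 0x101000],[nat_lit 0x20000,nat_lit 0x1020000,nat_lit 0x110000,
    nat_lit 0x1110000,nat_lit 0x1010000,nat_lit 0x2010000],[nat_lit 0x200000,nat_lit 0x1100000],[nat_lit 0x2000000]]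
    [.c (nat_lit 1) (nat_lit 2),.c (nat_lit 0) (nat_lit 0xb63),.r (nat_lit 0) (nat_lit 13) [nat_lit 0x2001,
    nat_lit 0x1b011],.c (nat_lit 0) (nat_lit 0xb63),.c (nat_lit 0) (nat_lit 0x2483),.c (nat_lit 0) (nat_lit 0x6d3),
    .c (nat_lit 0) (nat_lit 0xb63),.r (nat_lit 0x174e) (nat_lit 3) [nat_lit 0x3099,nat_lit 0x2001],
    .c (nat_lit 0) (nat_lit 0xb63),.c (nat_lit 3) (nat_lit 0x49a),.r (nat_lit 0x1972) (nat_lit 2) [nat_lit 0x1b011,
    nat_lit 0x18601,nat_lit 0x10099],.r (nat_lit 0x1b0c) (nat_lit 4) [nat_lit 0x401,nat_lit 0x2001,nat_lit 0x2699,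
    nat_lit 0x1d011],.c (nat_lit 4) (nat_lit 0x49a),.r (nat_lit 0x1c2a) (nat_lit 5) [nat_lit 0x3699,nat_lit 0x2001,
    nat_lit 0x401],.c (nat_lit 2) (nat_lit 0x613),.c (nat_lit 0) (nat_lit 0x6d3),.c (nat_lit 6) (nat_lit 0x49a),
    .c (nat_lit 4) (nat_lit 211),.r (nat_lit 0x1b75) (nat_lit 3) [nat_lit 0x401,nat_lit 0x2019,nat_lit 0x3681],
    .c (nat_lit 0) (nat_lit 0x2483),.r (nat_lit 0) (nat_lit 13) [nat_lit 0x2001,nat_lit 17],
    .c (nat_lit 2) (nat_lit 0x2503),.r (nat_lit 0xec4) (nat_lit 2) [nat_lit 0x12011,nat_lit 0x12819,nat_lit 0x1fb19,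
    nat_lit 0x1b011],.c (nat_lit 0) (nat_lit 0x2002),.c (nat_lit 0) (nat_lit 0x6d3),.c (nat_lit 0) (nat_lit 0xb63),
    .r (nat_lit 0x1b04) (nat_lit 4) [nat_lit 17,nat_lit 0x401],.r (nat_lit 0x174e) (nat_lit 13) [nat_lit 0x699,
    nat_lit 0x401],.c (nat_lit 2) (nat_lit 2),.r (nat_lit 0x1b04) (nat_lit 8) [nat_lit 17,nat_lit 0x2001],
    .r (nat_lit 32) (nat_lit 1) [nat_lit 0x3099,nat_lit 0x2001],.c (nat_lit 0) (nat_lit 0x2483),
    .r (nat_lit 0x1a71) (nat_lit 5) [nat_lit 0x611,nat_lit 0x2001,nat_lit 0x401],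
    .r (nat_lit 0x1750) (nat_lit 3) [nat_lit 0x2419,nat_lit 17],.c (nat_lit 3) (nat_lit 2),
    .c (nat_lit 0) (nat_lit 0xb63),.r (nat_lit 0x174f) (nat_lit 13) [nat_lit 0x401,nat_lit 17],
    .r (nat_lit 0x1b0c) (nat_lit 4) [nat_lit 0x401,nat_lit 0x2001,nat_lit 0x18699,nat_lit 0x3011],
    .r (nat_lit 0x1ab9) (nat_lit 12) [nat_lit 0x3699,nat_lit 0x2001,nat_lit 0x401],
    .r (nat_lit 0x1972) (nat_lit 2) [nat_lit 17,nat_lit 0x18601,nat_lit 0x3099],.c (nat_lit 4) (nat_lit 0x289a),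
    .c (nat_lit 6) (nat_lit 0x36d3),.c (nat_lit 0) (nat_lit 0x6d3),.c (nat_lit 0) (nat_lit 0xb63),
    .c (nat_lit 0) (nat_lit 0xb63),.c (nat_lit 2) (nat_lit 0x251a),.r (nat_lit 0x174e) (nat_lit 3) [nat_lit 0x1b699,
    nat_lit 0x2001],.c (nat_lit 4) (nat_lit 2),.r (nat_lit 0x1750) (nat_lit 3) [nat_lit 17,nat_lit 0x2419],
    .r (nat_lit 0x1af7) (nat_lit 3) [nat_lit 0x401,nat_lit 0x24d1,nat_lit 0x3681],.c (nat_lit 5) (nat_lit 2),
    .c (nat_lit 0) (nat_lit 0x4002),.r (nat_lit 0x174f) (nat_lit 3) [nat_lit 0x2001,nat_lit 17],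
    .c (nat_lit 3) (nat_lit 0x36d3),.c (nat_lit 0) (nat_lit 0x2002),.c (nat_lit 0) (nat_lit 0x2002),
    .c (nat_lit 6) (nat_lit 2),.r (nat_lit 0x1b04) (nat_lit 11) [nat_lit 17,nat_lit 0x401],
    .c (nat_lit 7) (nat_lit 2)]]

/-- nodes -/
noncomputable def rD7k_22_33 : List RJ :=
  [.l (nat_lit 14) (nat_lit 0xeb0) (nat_lit 6) (nat_lit 0x6b8000005ba000007550000075500000699000006990000073b0000073b000006fb000006fb000008460000056800000568000006ca) (nat_lit 0x28c0000018e000000f1000000f1000001ad000001ad0000010b0000010b0000014b0000014b000002de000000000000017c000002de)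
    (nat_lit 0xee02b2141c4fb14dc50b17445d129846c107586c414f01d60cb83b813244c910344f112bc2af1fbc44f0b7067214282dc13244fb16006641ea05a819a864a154860a11dc3d519344771324507199058018b05a821988460f584ce156c851176445313c450b16a05a80bc04ec1b2850a11483320f7c8cd17742d7103453718b07a811b02f01bd858e167854e0ccc7e913e43330abc5d1211864a163850a18c06b0128048813946eb164c4e512bc5d1219866a1bd86ca18c063017c05f00e5470b11ac395113c6c1133860a153833217c048817805b013946fb156c4e51fbca610f58552167845217c04a018c05e00e546fb15cc39519c86c421443d51fa48cd1c2c6eb1bec6fb17c07c607585f00b701d6156c4770ccc3df0e544e50e544e50a285f017c028a0b701d6114c4770ccc2d70e544e50e544e50a285f017c028a142853c176464d13e45dd11ac59315cc55b17c01d61f185f0)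
    (nat_lit 0xee0eb03ac0eb03ac0eb03ac0eb03ac0eb03ac0eb03ac0eb00ac83b83ac0eb03ac0eb03ac0eb03ac0eb03ac0eb03ac0eb0141c4c91600eb03ac0eb03ac0eb03ac0eb03ac0eb03ac0eb013ec4c919905803ac0eb03ac0eb03ac0eb03ac0eb03ac0eb014dc40d1ea062c0bc0eb03ac0eb03ac0eb03ac0eb03ac0eb0142c4f116a05a813b02f03ac0eb03ac0eb03ac0eb03ac0eb017444af19a88661b286f618c0eb03ac0eb03ac0eb03ac0eb015842af19287b6142858e1ac06303ac0eb03ac0eb03ac0eb023447ef15483d6114859e12805f01780eb03ac0eb03ac0eb01b0444f18284ce0cc854e12205f016c05e03ac0eb03ac0eb007582dc11dc55b0f7c3331214395139439517c0eb03ac0eb01b106720f5485123347e91bac70b1bec6fb1f185f03ac0eb00eb04b219345d916d44f9164c46b156c56b07584601180eb007582dc11dc4530b5c33312143951394395118028a0a28460)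
    (nat_lit 4) (nat_lit 291)
    [[nat_lit 2,nat_lit 18,nat_lit 0x10012,nat_lit 0x1000012,nat_lit 0x2000012,nat_lit 0x10002,nat_lit 0x1000002,
    nat_lit 0x2000002,nat_lit 17,nat_lit 34,nat_lit 51,nat_lit 0x1001022,nat_lit 0x10022,nat_lit 0x1000022,
    nat_lit 0x2000022,nat_lit 274,nat_lit 0x1012,nat_lit 0x1001012,nat_lit 33,nat_lit 0x10021,nat_lit 0x1000021,
    nat_lit 0x2000021,nat_lit 0x100021,nat_lit 273,nat_lit 0x10111,nat_lit 0x1111,nat_lit 0x1010111,nat_lit 0x1000111,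
    nat_lit 0x1011,nat_lit 0x1001011,nat_lit 0x11011,nat_lit 0x2001011,nat_lit 0x10011,nat_lit 0x20011,
    nat_lit 0x1020011,nat_lit 0x1010011,nat_lit 0x1010022,nat_lit 0x30011,nat_lit 0x100011,nat_lit 0x1100011,
    nat_lit 0x1000011,nat_lit 0x1010012,nat_lit 0x2010011,nat_lit 0x2000011,nat_lit 0x3000011,nat_lit 0x4000011,
    nat_lit 257,nat_lit 258,nat_lit 0x1101,nat_lit 0x10101,nat_lit 0x100101,nat_lit 0x1010101,nat_lit 0x1000101,
    nat_lit 0x1001,nat_lit 0x1002,nat_lit 0x1001001,nat_lit 0x11001,nat_lit 0x2001001,nat_lit 0x10001,nat_lit 0x20001,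
    nat_lit 0x1010001,nat_lit 0x30001,nat_lit 0x100001,nat_lit 0x1100001,nat_lit 0x1000001,nat_lit 0x2000001,
    nat_lit 0x3000001,nat_lit 0x2010001],[nat_lit 32,nat_lit 0x1000020,nat_lit 272,nat_lit 0x100110,nat_lit 0x1000110,
    nat_lit 0x1010,nat_lit 0x1001010,nat_lit 0x10010,nat_lit 0x110010,nat_lit 0x10110,nat_lit 0x110110,
    nat_lit 0x100010,nat_lit 0x1000010,nat_lit 0x1100110,nat_lit 0x1100010,nat_lit 0x2000010,nat_lit 0x2100010,
    nat_lit 0x2000020,nat_lit 0x3000010],[nat_lit 512,nat_lit 0x1100,nat_lit 0x10100,nat_lit 0x20100,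
    nat_lit 0x1010100,nat_lit 0x100100,nat_lit 0x1100100],[nat_lit 0x2000,nat_lit 0x2002000,nat_lit 0x11000,
    nat_lit 0x1101000,nat_lit 0x1001000,nat_lit 0x2001000,nat_lit 0x3001000],[nat_lit 0x20000,nat_lit 0x30000,
    nat_lit 0x40000,nat_lit 0x1020000,nat_lit 0x2020000,nat_lit 0x110000,nat_lit 0x1010000,nat_lit 0x2010000],
    [nat_lit 0x200000,nat_lit 0x1100000,nat_lit 0x2100000],[nat_lit 0x2000000,nat_lit 0x3000000,nat_lit 0x4000000]]
    [.c (nat_lit 1) (nat_lit 2),.c (nat_lit 0) (nat_lit 0x33223),.c (nat_lit 1) (nat_lit 0x22032),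
    .r (nat_lit 0x17ff) (nat_lit 1) [nat_lit 0x223321,nat_lit 0x222321,nat_lit 0x322231,nat_lit 0x200001],
    .c (nat_lit 0) (nat_lit 0x402),.c (nat_lit 0) (nat_lit 0x33223),.r (nat_lit 0x18d0) (nat_lit 12) [nat_lit 0x2021,
    nat_lit 0x64031,nat_lit 0x5021,nat_lit 0x200001],.c (nat_lit 3) (nat_lit 0x8403),.c (nat_lit 0) (nat_lit 0x33023),
    .c (nat_lit 0) (nat_lit 0x55043),.r (nat_lit 75) (nat_lit 4) [nat_lit 0x770631,nat_lit 33,nat_lit 0x20001],
    .r (nat_lit 0x1343) (nat_lit 13) [nat_lit 0x44001,nat_lit 0x40001,nat_lit 0x400001,nat_lit 0x530431],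
    .c (nat_lit 0) (nat_lit 0x55043),.r (nat_lit 0x1344) (nat_lit 0) [nat_lit 0x600001,nat_lit 0x5021,nat_lit 0x2021,
    nat_lit 0x64031],.c (nat_lit 0) (nat_lit 0x402),.c (nat_lit 0) (nat_lit 0x30223),
    .r (nat_lit 0x174b) (nat_lit 11) [nat_lit 0x20001,nat_lit 0x200001,nat_lit 33],
    .r (nat_lit 0x1345) (nat_lit 11) [nat_lit 0x5021,nat_lit 0x2021,nat_lit 0x64031,nat_lit 0x773631],
    .c (nat_lit 0) (nat_lit 0x55043),.c (nat_lit 2) (nat_lit 0x22032),.r (nat_lit 40) (nat_lit 4) [nat_lit 0x553431,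
    nat_lit 0x2021,nat_lit 0x20001],.c (nat_lit 0) (nat_lit 0x402),.r (nat_lit 0x174b) (nat_lit 3) [nat_lit 0x20001,
    nat_lit 0x200001,nat_lit 33],.c (nat_lit 2) (nat_lit 0x3302),.c (nat_lit 3) (nat_lit 0x22032),
    .r (nat_lit 0x1b4d) (nat_lit 13) [nat_lit 0x333021,nat_lit 0x20001,nat_lit 0x200001],
    .c (nat_lit 0) (nat_lit 0x20032),.c (nat_lit 5) (nat_lit 0x30023),
    .r (nat_lit 0x1c17) (nat_lit 11) [nat_lit 0x20001,nat_lit 0x200031,nat_lit 0x330201],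
    .r (nat_lit 0x1795) (nat_lit 11) [nat_lit 0x2001,nat_lit 0x20001,nat_lit 0x202031,nat_lit 0x333201],
    .c (nat_lit 4) (nat_lit 0x22032),.c (nat_lit 0) (nat_lit 0x402),.c (nat_lit 0) (nat_lit 0x33023),
    .c (nat_lit 5) (nat_lit 0x22032),.c (nat_lit 2) (nat_lit 0x55343),.c (nat_lit 3) (nat_lit 0x30023),
    .c (nat_lit 0) (nat_lit 0x22232),.r (nat_lit 40) (nat_lit 4) [nat_lit 0x220321,nat_lit 0x770631,nat_lit 0x20001],
    .r (nat_lit 0x1c17) (nat_lit 3) [nat_lit 0x20001,nat_lit 0x200031,nat_lit 0x330201],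
    .r (nat_lit 0x18cf) (nat_lit 0) [nat_lit 0x2001,nat_lit 0x200001,nat_lit 0x20001,nat_lit 0x330231],
    .r (nat_lit 0x1b47) (nat_lit 8) [nat_lit 0x200001,nat_lit 0x20031,nat_lit 0x330201],
    .c (nat_lit 3) (nat_lit 0x32223),.c (nat_lit 0) (nat_lit 0x22432),.c (nat_lit 0) (nat_lit 0x402),
    .c (nat_lit 0) (nat_lit 0x602),.c (nat_lit 0) (nat_lit 0x802),.c (nat_lit 0) (nat_lit 0x2203),
    .c (nat_lit 1) (nat_lit 0x3302),.c (nat_lit 4) (nat_lit 0x3302),.c (nat_lit 5) (nat_lit 0x3302),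
    .c (nat_lit 4) (nat_lit 0x22203),.c (nat_lit 2) (nat_lit 0x30023),.c (nat_lit 3) (nat_lit 0x4203),
    .r (nat_lit 0) (nat_lit 6) [nat_lit 0x20001,nat_lit 33],.r (nat_lit 0x133f) (nat_lit 4) [nat_lit 0x200001,
    nat_lit 0x20001,nat_lit 33,nat_lit 0x333201],.r (nat_lit 0x1c1d) (nat_lit 11) [nat_lit 0x20001,nat_lit 0x200031,
    nat_lit 0x330201],.r (nat_lit 32) (nat_lit 2) [nat_lit 0x30231,nat_lit 0x20001],.c (nat_lit 0) (nat_lit 0x402),
    .c (nat_lit 0) (nat_lit 0x33023),.c (nat_lit 0) (nat_lit 0x55043),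
    .r (nat_lit 0x1b4a) (nat_lit 13) [nat_lit 0x330231,nat_lit 0x20001,nat_lit 0x200001],
    .r (nat_lit 0x1346) (nat_lit 6) [nat_lit 0x600001,nat_lit 0x60001,nat_lit 0x775631,nat_lit 0x6001],
    .r (nat_lit 8) (nat_lit 4) [nat_lit 0x222031,nat_lit 33],.r (nat_lit 0x1347) (nat_lit 4) [nat_lit 0x303021,
    nat_lit 0x400001,nat_lit 0x353431,nat_lit 0x242031],.r (nat_lit 0x1a3c) (nat_lit 12) [nat_lit 0x30021,
    nat_lit 0x20001,nat_lit 0x200001],.c (nat_lit 3) (nat_lit 0x6203),.c (nat_lit 0) (nat_lit 0x602),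
    .c (nat_lit 0) (nat_lit 0x402),.c (nat_lit 2) (nat_lit 2),.r (nat_lit 0x1a40) (nat_lit 6) [nat_lit 0x22001,
    nat_lit 0x575431,nat_lit 0x200001,nat_lit 0x20001],.c (nat_lit 0) (nat_lit 0x30223),
    .r (nat_lit 0x1b96) (nat_lit 10) [nat_lit 0x200001,nat_lit 0x333201,nat_lit 0x22321],
    .c (nat_lit 0) (nat_lit 0x3002),.r (nat_lit 0x1b9c) (nat_lit 7) [nat_lit 0x20001,nat_lit 0x222321,
    nat_lit 0x30231],.r (nat_lit 0x174d) (nat_lit 6) [nat_lit 0x22001,nat_lit 0x33231],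
    .c (nat_lit 0) (nat_lit 0x33023),.r (nat_lit 32) (nat_lit 8) [nat_lit 0x30231,nat_lit 0x20001],
    .c (nat_lit 3) (nat_lit 0x24232),.r (nat_lit 0x133f) (nat_lit 4) [nat_lit 0x200001,nat_lit 0x20001,nat_lit 0x2231,
    nat_lit 0x333201],.r (nat_lit 0) (nat_lit 3) [nat_lit 33,nat_lit 0x20001],.c (nat_lit 0) (nat_lit 0x33323),
    .c (nat_lit 0) (nat_lit 0x3002),.r (nat_lit 0x1b04) (nat_lit 7) [nat_lit 0x33231,nat_lit 0x20001],
    .c (nat_lit 0) (nat_lit 0x402),.c (nat_lit 0) (nat_lit 0x402),.c (nat_lit 5) (nat_lit 0x55543),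
    .c (nat_lit 0) (nat_lit 0x602),.c (nat_lit 3) (nat_lit 2),.r (nat_lit 0x174d) (nat_lit 8) [nat_lit 0x222031,
    nat_lit 33],.c (nat_lit 0) (nat_lit 0x30223),.r (nat_lit 0x1344) (nat_lit 0) [nat_lit 0x600001,nat_lit 0x535431,
    nat_lit 0x532431,nat_lit 0x484521],.c (nat_lit 0) (nat_lit 0x3002),.r (nat_lit 32) (nat_lit 8) [nat_lit 0x222031,
    nat_lit 0x20001],.c (nat_lit 0) (nat_lit 0x3002),.c (nat_lit 4) (nat_lit 2),.c (nat_lit 0) (nat_lit 0x402),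
    .r (nat_lit 0x1b04) (nat_lit 7) [nat_lit 33,nat_lit 0x20001],.c (nat_lit 0) (nat_lit 0x30202),
    .r (nat_lit 32) (nat_lit 8) [nat_lit 0x2021,nat_lit 0x20001],.c (nat_lit 0) (nat_lit 0x402),
    .c (nat_lit 0) (nat_lit 0x602),.c (nat_lit 5) (nat_lit 2),.r (nat_lit 45) (nat_lit 4) [nat_lit 33,
    nat_lit 0x770631,nat_lit 0x20001],.r (nat_lit 40) (nat_lit 4) [nat_lit 34,nat_lit 0x990832,nat_lit 0x20001],
    .r (nat_lit 0x1a40) (nat_lit 6) [nat_lit 0x22001,nat_lit 0x30021,nat_lit 0x200001,nat_lit 0x20001],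
    .c (nat_lit 2) (nat_lit 0x55543),.r (nat_lit 0x174d) (nat_lit 6) [nat_lit 0x22001,nat_lit 33],
    .c (nat_lit 0) (nat_lit 0x33323),.c (nat_lit 0) (nat_lit 0x402),.c (nat_lit 6) (nat_lit 2),
    .r (nat_lit 0x174d) (nat_lit 8) [nat_lit 0x2021,nat_lit 0x220031],.c (nat_lit 0) (nat_lit 0x402),
    .c (nat_lit 7) (nat_lit 2),.c (nat_lit 0) (nat_lit 0x602),.c (nat_lit 0) (nat_lit 0x802)]]

/-- nodes -/
noncomputable def rD7k_22_34 : List RJ :=
  [.l (nat_lit 15) (nat_lit 0x1680) (nat_lit 6) (nat_lit 0xa3800000a3800000ad0000008e00000080000000c7000000a3800000a3800000ab100000ab1000009840000098400000aed00000aed) (nat_lit 0x2380000023800000390000001a000000000000004700000023800000238000001bf000001bf000002ec000002ec0000018300000183)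
    (nat_lit 0x100020003540898147014803400cce10f221e43a6053a116a22d440008000d50226051c05081364400043c887912bc1d3045a88b511302260400093005a0198044c089812221d7c3f207e4129a1cec35406a80c2020004d004700e101aa039087210af417d040286550a101480238066010000b402e405080c82178430e05140cfa1bdc51c0a3813400b406380800147028e044f8b111308261030f8aed200033383540898147014203d0080010f221e43a6095e116a22d44d906800e10226051c05c810001e8043c88790a741d3045a87ad10f221e4390875f1622178443c887911e423c846687c5155c2d0043c88790e42244444f864110f221e447908f2119a1f145a00bd20e9814e82fa07e4130814503a6095e0f8a1f141fa069810021be44af074c0af41f904c2061c0a741d3046688cd0c3c0fd04008801116a22d432a873b15da1bdc3d688b517a42d0040086f912d4279045a88b5100a253430f867d116a22d45a00aae100220044b5096a)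
    (nat_lit 0x10005a00b4016802d005a00b4016802d005a00b4016802d005a0040008002d005a00b4016802d005a00b4016802d005a00b4016800d501aa040016802d005a00b4016802d005a00b4016802d005a0044c089812602000b4016802d005a00b4016802d005a00b40168012f025e016808e00e805a00b4016802d005a00b4016802d005a0029005080b4011c016807402d005a00b4016802d005a00b4016800d0026c844c07080b9027603d016802d005a00b4016802d005a006670e800fb01aa0284097810001e80b4016802d005a00b40168010f221e448887210c82227c43c887911e45a00b4016802d005a0043c88790ebe1c842f089f110f221e447908f22d005a00b4016800e9825783f2057a0c3821283a6053a119a23341fa16802d005a0029d074c0fc817d028a08c412bc1d303e287c50d300fd0b401680116a22d44a688050cfa187c45a88b5155c2d00400880112d45a0045a88b50e76195437b8925116a1eb45a00bd20df220044f2096a)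
    (nat_lit 5) (nat_lit 141)
    [[nat_lit 2,nat_lit 17,nat_lit 33,nat_lit 0x1011,nat_lit 0x100011,nat_lit 0x110011,nat_lit 0x1000011,
    nat_lit 0x1001,nat_lit 0x10001,nat_lit 0x110001,nat_lit 0x10011,nat_lit 0x11001,nat_lit 0x20001,nat_lit 0x120001,
    nat_lit 0x1010001,nat_lit 0x100001,nat_lit 0x1000001],[nat_lit 32,nat_lit 48,nat_lit 64,nat_lit 80,
    nat_lit 0x100030,nat_lit 0x110030,nat_lit 288,nat_lit 0x1020,nat_lit 0x10020,nat_lit 0x110020,nat_lit 0x100020,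
    nat_lit 0x1000020,nat_lit 272,nat_lit 0x100110,nat_lit 0x1010,nat_lit 0x2010,nat_lit 0x111010,nat_lit 0x101010,
    nat_lit 0x1001010,nat_lit 0x1110,nat_lit 0x11010,nat_lit 0x10010,nat_lit 0x110010,nat_lit 0x220010,
    nat_lit 0x1110010,nat_lit 0x1010010,nat_lit 0x20010,nat_lit 0x120010,nat_lit 0x100010,nat_lit 0x210010,
    nat_lit 0x200010,nat_lit 0x1100010,nat_lit 0x110110,nat_lit 0x1000010,nat_lit 0x2000010],[nat_lit 512,
    nat_lit 0x1100,nat_lit 0x10100,nat_lit 0x110100,nat_lit 0x11100,nat_lit 0x120100,nat_lit 0x1010100,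
    nat_lit 0x100100,nat_lit 0x210100,nat_lit 0x1000100],[nat_lit 0x2000,nat_lit 0x11000,nat_lit 0x111000,
    nat_lit 0x101000,nat_lit 0x221000,nat_lit 0x1011000,nat_lit 0x1111000,nat_lit 0x1101000],[nat_lit 0x20000,
    nat_lit 0x120000,nat_lit 0x110000,nat_lit 0x220000,nat_lit 0x330000,nat_lit 0x1220000,nat_lit 0x210000,
    nat_lit 0x1110000,nat_lit 0x1010000],[nat_lit 0x200000,nat_lit 0x1100000],[nat_lit 0x2000000]]
    [.c (nat_lit 1) (nat_lit 2),.c (nat_lit 0) (nat_lit 0x210003),.r (nat_lit 0x1b04) (nat_lit 8) [nat_lit 0x6518841,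
    nat_lit 0x10001],.r (nat_lit 10) (nat_lit 1) [nat_lit 0x6518841,nat_lit 0x4210061],
    .c (nat_lit 0) (nat_lit 0x230005),.c (nat_lit 1) (nat_lit 0x18002),.r (nat_lit 0) (nat_lit 6) [nat_lit 0x6518841,
    nat_lit 0x4210061],.r (nat_lit 0) (nat_lit 6) [nat_lit 0x300861,nat_lit 65],.c (nat_lit 0) (nat_lit 0x230005),
    .c (nat_lit 1) (nat_lit 0x200002),.c (nat_lit 0) (nat_lit 0x230005),
    .r (nat_lit 0x1c1d) (nat_lit 10) [nat_lit 0x10001,nat_lit 0x318861,nat_lit 0x200001],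
    .r (nat_lit 0x1be6) (nat_lit 6) [nat_lit 0x10001,nat_lit 0x4200001,nat_lit 0x6300081],
    .r (nat_lit 0x174b) (nat_lit 10) [nat_lit 0x10001,nat_lit 0x318801,nat_lit 65],
    .r (nat_lit 0x1c15) (nat_lit 6) [nat_lit 0x10001,nat_lit 0x318801,nat_lit 0x200c41],
    .c (nat_lit 0) (nat_lit 0x230005),.r (nat_lit 10) (nat_lit 1) [nat_lit 0x300861,nat_lit 65],
    .c (nat_lit 2) (nat_lit 2),.r (nat_lit 0x1b04) (nat_lit 8) [nat_lit 0x6729042,nat_lit 0x10001],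
    .r (nat_lit 40) (nat_lit 6) [nat_lit 66,nat_lit 0x800062,nat_lit 0x10001],
    .r (nat_lit 0x10e5) (nat_lit 9) [nat_lit 0x17fad042,nat_lit 0x50001,nat_lit 0xa00061,nat_lit 0x14a00062],
    .r (nat_lit 0x111b) (nat_lit 10) [nat_lit 0x60001,nat_lit 0xc000a1,nat_lit 0xc600061,nat_lit 129],
    .r (nat_lit 40) (nat_lit 6) [nat_lit 0x300041,nat_lit 0x600061,nat_lit 0x10001],
    .r (nat_lit 0x10e5) (nat_lit 9) [nat_lit 0xad4a041,nat_lit 0x50001,nat_lit 0x64290a1,nat_lit 0x8218861],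
    .r (nat_lit 0x1b8f) (nat_lit 13) [nat_lit 0x18041,nat_lit 0x318801,nat_lit 0x10001],
    .c (nat_lit 0) (nat_lit 0x20003),.c (nat_lit 2) (nat_lit 0x18002),.c (nat_lit 0) (nat_lit 0x20003),
    .r (nat_lit 0x111c) (nat_lit 0) [nat_lit 0x40001,nat_lit 0x8410061,nat_lit 0x28081,nat_lit 0xad5a041],
    .r (nat_lit 0x1b04) (nat_lit 8) [nat_lit 65,nat_lit 0x10001],.r (nat_lit 32) (nat_lit 1) [nat_lit 0x18861,
    nat_lit 0x10001],.r (nat_lit 0x196a) (nat_lit 7) [nat_lit 0x318801,nat_lit 0x300041,nat_lit 0x200001],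
    .r (nat_lit 10) (nat_lit 1) [nat_lit 0x6729042,nat_lit 0x4220062],.c (nat_lit 4) (nat_lit 0x18002),
    .r (nat_lit 0x1c2c) (nat_lit 6) [nat_lit 0x200061,nat_lit 0x10001,nat_lit 0x318801],
    .c (nat_lit 1) (nat_lit 0x210803),.r (nat_lit 0x19f7) (nat_lit 5) [nat_lit 0x10001,nat_lit 0x4018861,
    nat_lit 0x4621481,nat_lit 0x6729041],.r (nat_lit 0x1b4a) (nat_lit 5) [nat_lit 0x200061,nat_lit 0x10001,
    nat_lit 0x318801],.c (nat_lit 0) (nat_lit 0x10003),.c (nat_lit 0) (nat_lit 0x10003),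
    .c (nat_lit 1) (nat_lit 0x218002),.c (nat_lit 4) (nat_lit 0x10803),
    .r (nat_lit 0x1c2c) (nat_lit 11) [nat_lit 0x200061,nat_lit 0x10001,nat_lit 0x318801],
    .c (nat_lit 0) (nat_lit 0x20003),.c (nat_lit 5) (nat_lit 0x18002),.c (nat_lit 0) (nat_lit 0x10003),
    .c (nat_lit 6) (nat_lit 0x18002),.c (nat_lit 0) (nat_lit 0x20003),
    .r (nat_lit 0x1b4a) (nat_lit 0) [nat_lit 0x200061,nat_lit 0x10001,nat_lit 0x318801],
    .c (nat_lit 1) (nat_lit 0xc43),.r (nat_lit 0x196a) (nat_lit 1) [nat_lit 0x318801,nat_lit 0x300041,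
    nat_lit 0x200001],.r (nat_lit 0) (nat_lit 6) [nat_lit 0x6729042,nat_lit 0x4220062],.c (nat_lit 3) (nat_lit 2),
    .r (nat_lit 10) (nat_lit 1) [nat_lit 65,nat_lit 0x300861],.c (nat_lit 0) (nat_lit 0x319485),
    .c (nat_lit 1) (nat_lit 0x210862),.r (nat_lit 0x111a) (nat_lit 4) [nat_lit 0x67010a1,nat_lit 0x400001,
    nat_lit 0x4621481,nat_lit 0x6729001],.r (nat_lit 32) (nat_lit 1) [nat_lit 0x4210c41,nat_lit 0x10001],
    .r (nat_lit 0x1c1a) (nat_lit 4) [nat_lit 0x10001,nat_lit 0x318861,nat_lit 0x200001],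
    .c (nat_lit 0) (nat_lit 0x319485),.r (nat_lit 0x174b) (nat_lit 4) [nat_lit 0x10001,nat_lit 0x318801,nat_lit 65],
    .r (nat_lit 0) (nat_lit 6) [nat_lit 65,nat_lit 0x300861],.c (nat_lit 4) (nat_lit 2),
    .r (nat_lit 0x1a3c) (nat_lit 0) [nat_lit 0x18041,nat_lit 0x10001,nat_lit 0x318801],
    .r (nat_lit 0x1b47) (nat_lit 1) [nat_lit 0x318801,nat_lit 0x10061,nat_lit 0x200001],
    .r (nat_lit 0x1c22) (nat_lit 4) [nat_lit 0x18041,nat_lit 0x10001,nat_lit 0x4200c41],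
    .r (nat_lit 0x111c) (nat_lit 0) [nat_lit 0x40001,nat_lit 0x8000041,nat_lit 0x8000a1,nat_lit 0xa94a061],
    .c (nat_lit 0) (nat_lit 0xc02),.c (nat_lit 2) (nat_lit 0x10803),.c (nat_lit 0) (nat_lit 0xc02),
    .c (nat_lit 5) (nat_lit 2),.c (nat_lit 0) (nat_lit 0x20003),.c (nat_lit 0) (nat_lit 0x10003),
    .c (nat_lit 1) (nat_lit 0x400002),.r (nat_lit 75) (nat_lit 6) [nat_lit 0x600061,nat_lit 65,nat_lit 0x10001],
    .r (nat_lit 0x1b8f) (nat_lit 13) [nat_lit 0x400061,nat_lit 0x318801,nat_lit 0x10001],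
    .c (nat_lit 0) (nat_lit 0x20003),.r (nat_lit 0x1b47) (nat_lit 7) [nat_lit 0x318801,nat_lit 0x10061,
    nat_lit 0x200001],.r (nat_lit 0x1c1e) (nat_lit 6) [nat_lit 0x18041,nat_lit 0x10001,nat_lit 0x318801],
    .c (nat_lit 6) (nat_lit 2),.r (nat_lit 0x1a3c) (nat_lit 5) [nat_lit 0x18041,nat_lit 0x10001,nat_lit 0x318801],
    .c (nat_lit 7) (nat_lit 2)]]

end Pool.Agent.Lib_MP_fa6e45
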