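import Pool.Agent.Lib_MP_fa6e45.DQ7k_0d
import Pool.Agent.Lib_MP_fa6e45.RD7k_22

/-!
MP_fa6e45_co, stage 9: straight-side patterns with `7` sides, part of a certificate (generated by a program).
-/

namespace Pool.Agent.Lib_MP_fa6e45

theorem cD7k_0_k22_0 : allI cD7k_0_c (rjL dJ cD7k_0_q rD7k_22_0) 7155 = true := by
  decide +kernel

theorem cD7k_0_k22_1 : allI cD7k_0_c (rjL dJ cD7k_0_q rD7k_22_1) 7157 = true := by
  decide +kernel

theorem cD7k_0_k22_2 : allI cD7k_0_c (rjL dJ cD7k_0_q rD7k_22_2) 7160 = true := by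
  decide +kernel

theorem cD7k_0_k22_3 : allI cD7k_0_c (rjL dJ cD7k_0_q rD7k_22_3) 7162 = true := by
  decide +kernel

theorem cD7k_0_k22_4 : allI cD7k_0_c (rjL dJ cD7k_0_q rD7k_22_4) 7164 = true := by
  decide +kernel

theorem cD7k_0_k22_5 : allI cD7k_0_c (rjL dJ cD7k_0_q rD7k_22_5) 7166 = true := by
  decide +kernel

theorem cD7k_0_k22_6 : allI cD7k_0_c (rjL dJ cD7k_0_q rD7k_22_6) 7167 = true := by
  decide +kernel

theorem cD7k_0_k22_7 : allI cD7k_0_c (rjL dJ cD7k_0_q rD7k_22_7) 7168 = true := by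
  decide +kernel

theorem cD7k_0_k22_8 : allI cD7k_0_c (rjL dJ cD7k_0_q rD7k_22_8) 7170 = true := by
  decide +kernel

theorem cD7k_0_k22_9 : allI cD7k_0_c (rjL dJ cD7k_0_q rD7k_22_9) 7172 = true := by
  decide +kernel

theorem cD7k_0_k22_10 : allI cD7k_0_c (rjL dJ cD7k_0_q rD7k_22_10) 7173 = true := by
  decide +kernel

theorem cD7k_0_k22_11 : allI cD7k_0_c (rjL dJ cD7k_0_q rD7k_22_11) 7174 = true := by
  decide +kernel

theorem cD7k_0_k22_12 : allI cD7k_0_c (rjL dJ cD7k_0_q rD7k_22_12) 7177 = true := by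
  decide +kernel

theorem cD7k_0_k22_13 : allI cD7k_0_c (rjL dJ cD7k_0_q rD7k_22_13) 7179 = true := by
  decide +kernel

theorem cD7k_0_k22_14 : allI cD7k_0_c (rjL dJ cD7k_0_q rD7k_22_14) 7182 = true := by
  decide +kernel

theorem cD7k_0_k22_15 : allI cD7k_0_c (rjL dJ cD7k_0_q rD7k_22_15) 7185 = true := by
  decide +kernel

theorem cD7k_0_k22_16 : allI cD7k_0_c (rjL dJ cD7k_0_q rD7k_22_16) 7188 = true := by
  decide +kernel

theorem cD7k_0_k22_17 : allI cD7k_0_c (rjL dJ cD7k_0_q rD7k_22_17) 7190 = true := by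
  decide +kernel

theorem cD7k_0_k22_18 : allI cD7k_0_c (rjL dJ cD7k_0_q rD7k_22_18) 7191 = true := by
  decide +kernel

theorem cD7k_0_k22_19 : allI cD7k_0_c (rjL dJ cD7k_0_q rD7k_22_19) 7192 = true := by
  decide +kernel

theorem cD7k_0_k22_20 : allI cD7k_0_c (rjL dJ cD7k_0_q rD7k_22_20) 7193 = true := by
  decide +kernel

theorem cD7k_0_k22_21 : allI cD7k_0_c (rjL dJ cD7k_0_q rD7k_22_21) 7194 = true := by
  decide +kernel

theorem cD7k_0_k22_22 : allI cD7k_0_c (rjL dJ cD7k_0_q rD7k_22_22) 7195 = true := by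
  decide +kernel

theorem cD7k_0_k22_23 : allI cD7k_0_c (rjL dJ cD7k_0_q rD7k_22_23) 7196 = true := by
  decide +kernel

theorem cD7k_0_k22_24 : allI cD7k_0_c (rjL dJ cD7k_0_q rD7k_22_24) 7197 = true := by
  decide +kernel

theorem cD7k_0_k22_25 : allI cD7k_0_c (rjL dJ cD7k_0_q rD7k_22_25) 7198 = true := by
  decide +kernel

theorem cD7k_0_k22_26 : allI cD7k_0_c (rjL dJ cD7k_0_q rD7k_22_26) 7199 = true := by
  decide +kernel

theorem cD7k_0_k22_27 : allI cD7k_0_c (rjL dJ cD7k_0_q rD7k_22_27) 7201 = true := by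
  decide +kernel

theorem cD7k_0_k22_28 : allI cD7k_0_c (rjL dJ cD7k_0_q rD7k_22_28) 7202 = true := by
  decide +kernel

theorem cD7k_0_k22_29 : allI cD7k_0_c (rjL dJ cD7k_0_q rD7k_22_29) 7204 = true := by
  decide +kernel

theorem cD7k_0_k22_30 : allI cD7k_0_c (rjL dJ cD7k_0_q rD7k_22_30) 7206 = true := by
  decide +kernel

theorem cD7k_0_k22_31 : allI cD7k_0_c (rjL dJ cD7k_0_q rD7k_22_31) 7208 = true := by
  decide +kernel

theorem cD7k_0_k22_32 : allI cD7k_0_c (rjL dJ cD7k_0_q rD7k_22_32) 7210 = true := by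
  decide +kernel

theorem cD7k_0_k22_33 : allI cD7k_0_c (rjL dJ cD7k_0_q rD7k_22_33) 7212 = true := by
  decide +kernel

theorem cD7k_0_k22_34 : allI cD7k_0_c (rjL dJ cD7k_0_q rD7k_22_34) 7213 = true := by
  decide +kernel

/-- nodes -/
noncomputable def cD7k_0_n22 : List (QJ PN) :=
  rjL dJ cD7k_0_q rD7k_22_0 ++ (rjL dJ cD7k_0_q rD7k_22_1 ++ (rjL dJ cD7k_0_q rD7k_22_2 ++ (
    rjL dJ cD7k_0_q rD7k_22_3 ++ (rjL dJ cD7k_0_q rD7k_22_4 ++ (rjL dJ cD7k_0_q rD7k_22_5 ++ (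
    rjL dJ cD7k_0_q rD7k_22_6 ++ (rjL dJ cD7k_0_q rD7k_22_7 ++ (rjL dJ cD7k_0_q rD7k_22_8 ++ (
    rjL dJ cD7k_0_q rD7k_22_9 ++ (rjL dJ cD7k_0_q rD7k_22_10 ++ (rjL dJ cD7k_0_q rD7k_22_11 ++ (
    rjL dJ cD7k_0_q rD7k_22_12 ++ (rjL dJ cD7k_0_q rD7k_22_13 ++ (rjL dJ cD7k_0_q rD7k_22_14 ++ (
    rjL dJ cD7k_0_q rD7k_22_15 ++ (rjL dJ cD7k_0_q rD7k_22_16 ++ (rjL dJ cD7k_0_q rD7k_22_17 ++ (
    rjL dJ cD7k_0_q rD7k_22_18 ++ (rjL dJ cD7k_0_q rD7k_22_19 ++ (rjL dJ cD7k_0_q rD7k_22_20 ++ (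
    rjL dJ cD7k_0_q rD7k_22_21 ++ (rjL dJ cD7k_0_q rD7k_22_22 ++ (rjL dJ cD7k_0_q rD7k_22_23 ++ (
    rjL dJ cD7k_0_q rD7k_22_24 ++ (rjL dJ cD7k_0_q rD7k_22_25 ++ (rjL dJ cD7k_0_q rD7k_22_26 ++ (
    rjL dJ cD7k_0_q rD7k_22_27 ++ (rjL dJ cD7k_0_q rD7k_22_28 ++ (rjL dJ cD7k_0_q rD7k_22_29 ++ (
    rjL dJ cD7k_0_q rD7k_22_30 ++ (rjL dJ cD7k_0_q rD7k_22_31 ++ (rjL dJ cD7k_0_q rD7k_22_32 ++ (
    rjL dJ cD7k_0_q rD7k_22_33 ++ rjL dJ cD7k_0_q rD7k_22_34)))))))))))))))))))))))))))))))))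

theorem cD7k_0_k22 : allI cD7k_0_c cD7k_0_n22 7155 = true := by
  refine allI_appQ (k := 2) cD7k_0_k22_0 (by decide +kernel) ?_
  refine allI_appQ (k := 3) cD7k_0_k22_1 (by decide +kernel) ?_
  refine allI_appQ (k := 2) cD7k_0_k22_2 (by decide +kernel) ?_
  refine allI_appQ (k := 2) cD7k_0_k22_3 (by decide +kernel) ?_
  refine allI_appQ (k := 2) cD7k_0_k22_4 (by decide +kernel) ?_
  refine allI_appQ (k := 1) cD7k_0_k22_5 (by decide +kernel) ?_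
  refine allI_appQ (k := 1) cD7k_0_k22_6 (by decide +kernel) ?_
  refine allI_appQ (k := 2) cD7k_0_k22_7 (by decide +kernel) ?_
  refine allI_appQ (k := 2) cD7k_0_k22_8 (by decide +kernel) ?_
  refine allI_appQ (k := 1) cD7k_0_k22_9 (by decide +kernel) ?_
  refine allI_appQ (k := 1) cD7k_0_k22_10 (by decide +kernel) ?_
  refine allI_appQ (k := 3) cD7k_0_k22_11 (by decide +kernel) ?_
  refine allI_appQ (k := 2) cD7k_0_k22_12 (by decide +kernel) ?_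
  refine allI_appQ (k := 3) cD7k_0_k22_13 (by decide +kernel) ?_
  refine allI_appQ (k := 3) cD7k_0_k22_14 (by decide +kernel) ?_
  refine allI_appQ (k := 3) cD7k_0_k22_15 (by decide +kernel) ?_
  refine allI_appQ (k := 2) cD7k_0_k22_16 (by decide +kernel) ?_
  refine allI_appQ (k := 1) cD7k_0_k22_17 (by decide +kernel) ?_
  refine allI_appQ (k := 1) cD7k_0_k22_18 (by decide +kernel) ?_
  refine allI_appQ (k := 1) cD7k_0_k22_19 (by decide +kernel) ?_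
  refine allI_appQ (k := 1) cD7k_0_k22_20 (by decide +kernel) ?_
  refine allI_appQ (k := 1) cD7k_0_k22_21 (by decide +kernel) ?_
  refine allI_appQ (k := 1) cD7k_0_k22_22 (by decide +kernel) ?_
  refine allI_appQ (k := 1) cD7k_0_k22_23 (by decide +kernel) ?_
  refine allI_appQ (k := 1) cD7k_0_k22_24 (by decide +kernel) ?_
  refine allI_appQ (k := 1) cD7k_0_k22_25 (by decide +kernel) ?_
  refine allI_appQ (k := 2) cD7k_0_k22_26 (by decide +kernel) ?_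
  refine allI_appQ (k := 1) cD7k_0_k22_27 (by decide +kernel) ?_
  refine allI_appQ (k := 2) cD7k_0_k22_28 (by decide +kernel) ?_
  refine allI_appQ (k := 2) cD7k_0_k22_29 (by decide +kernel) ?_
  refine allI_appQ (k := 2) cD7k_0_k22_30 (by decide +kernel) ?_
  refine allI_appQ (k := 2) cD7k_0_k22_31 (by decide +kernel) ?_
  refine allI_appQ (k := 2) cD7k_0_k22_32 (by decide +kernel) ?_
  refine allI_appQ (k := 1) cD7k_0_k22_33 (by decide +kernel) ?_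
  exact cD7k_0_k22_34

theorem cD7k_0_l22 : cD7k_0_n22.length = 59 := by
  decide +kernel

end Pool.Agent.Lib_MP_fa6e45
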