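import Pool.Agent.Lib_MP_fa6e45.DQ7k_0d
import Pool.Agent.Lib_MP_fa6e45.RD7k_23

/-!
MP_fa6e45_co, stage 9: straight-side patterns with `7` sides, part of a certificate (generated by a program).
-/

namespace Pool.Agent.Lib_MP_fa6e45

theorem cD7k_0_k23_0 : allI cD7k_0_c (rjL dJ cD7k_0_q rD7k_23_0) 7214 = true := by
  decide +kernel

theorem cD7k_0_k23_1 : allI cD7k_0_c (rjL dJ cD7k_0_q rD7k_23_1) 7216 = true := by
  decide +kernel

theorem cD7k_0_k23_2 : allI cD7k_0_c (rjL dJ cD7k_0_q rD7k_23_2) 7218 = true := by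
  decide +kernel

theorem cD7k_0_k23_3 : allI cD7k_0_c (rjL dJ cD7k_0_q rD7k_23_3) 7220 = true := by
  decide +kernel

theorem cD7k_0_k23_4 : allI cD7k_0_c (rjL dJ cD7k_0_q rD7k_23_4) 7223 = true := by
  decide +kernel

theorem cD7k_0_k23_5 : allI cD7k_0_c (rjL dJ cD7k_0_q rD7k_23_5) 7226 = true := by
  decide +kernel

theorem cD7k_0_k23_6 : allI cD7k_0_c (rjL dJ cD7k_0_q rD7k_23_6) 7229 = true := by
  decide +kernel

theorem cD7k_0_k23_7 : allI cD7k_0_c (rjL dJ cD7k_0_q rD7k_23_7) 7232 = true := by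
  decide +kernel

theorem cD7k_0_k23_8 : allI cD7k_0_c (rjL dJ cD7k_0_q rD7k_23_8) 7235 = true := by
  decide +kernel

theorem cD7k_0_k23_9 : allI cD7k_0_c (rjL dJ cD7k_0_q rD7k_23_9) 7237 = true := by
  decide +kernel

theorem cD7k_0_k23_10 : allI cD7k_0_c (rjL dJ cD7k_0_q rD7k_23_10) 7239 = true := by
  decide +kernel

theorem cD7k_0_k23_11 : allI cD7k_0_c (rjL dJ cD7k_0_q rD7k_23_11) 7241 = true := by
  decide +kernel

theorem cD7k_0_k23_12 : allI cD7k_0_c (rjL dJ cD7k_0_q rD7k_23_12) 7243 = true := by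
  decide +kernel

theorem cD7k_0_k23_13 : allI cD7k_0_c (rjL dJ cD7k_0_q rD7k_23_13) 7245 = true := by
  decide +kernel

theorem cD7k_0_k23_14 : allI cD7k_0_c (rjL dJ cD7k_0_q rD7k_23_14) 7247 = true := by
  decide +kernel

theorem cD7k_0_k23_15 : allI cD7k_0_c (rjL dJ cD7k_0_q rD7k_23_15) 7249 = true := by
  decide +kernel

theorem cD7k_0_k23_16 : allI cD7k_0_c (rjL dJ cD7k_0_q rD7k_23_16) 7251 = true := by
  decide +kernel

theorem cD7k_0_k23_17 : allI cD7k_0_c (rjL dJ cD7k_0_q rD7k_23_17) 7254 = true := by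
  decide +kernel

theorem cD7k_0_k23_18 : allI cD7k_0_c (rjL dJ cD7k_0_q rD7k_23_18) 7257 = true := by
  decide +kernel

theorem cD7k_0_k23_19 : allI cD7k_0_c (rjL dJ cD7k_0_q rD7k_23_19) 7259 = true := by
  decide +kernel

theorem cD7k_0_k23_20 : allI cD7k_0_c (rjL dJ cD7k_0_q rD7k_23_20) 7261 = true := by
  decide +kernel

theorem cD7k_0_k23_21 : allI cD7k_0_c (rjL dJ cD7k_0_q rD7k_23_21) 7262 = true := by
  decide +kernel

theorem cD7k_0_k23_22 : allI cD7k_0_c (rjL dJ cD7k_0_q rD7k_23_22) 7264 = true := by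
  decide +kernel

theorem cD7k_0_k23_23 : allI cD7k_0_c (rjL dJ cD7k_0_q rD7k_23_23) 7267 = true := by
  decide +kernel

theorem cD7k_0_k23_24 : allI cD7k_0_c (rjL dJ cD7k_0_q rD7k_23_24) 7270 = true := by
  decide +kernel

theorem cD7k_0_k23_25 : allI cD7k_0_c (rjL dJ cD7k_0_q rD7k_23_25) 7272 = true := by
  decide +kernel

theorem cD7k_0_k23_26 : allI cD7k_0_c (rjL dJ cD7k_0_q rD7k_23_26) 7274 = true := by
  decide +kernel

theorem cD7k_0_k23_27 : allI cD7k_0_c (rjL dJ cD7k_0_q rD7k_23_27) 7276 = true := by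
  decide +kernel

theorem cD7k_0_k23_28 : allI cD7k_0_c (rjL dJ cD7k_0_q rD7k_23_28) 7279 = true := by
  decide +kernel

theorem cD7k_0_k23_29 : allI cD7k_0_c (rjL dJ cD7k_0_q rD7k_23_29) 7281 = true := by
  decide +kernel

theorem cD7k_0_k23_30 : allI cD7k_0_c (rjL dJ cD7k_0_q rD7k_23_30) 7283 = true := by
  decide +kernel

theorem cD7k_0_k23_31 : allI cD7k_0_c (rjL dJ cD7k_0_q rD7k_23_31) 7285 = true := by
  decide +kernel

theorem cD7k_0_k23_32 : allI cD7k_0_c (rjL dJ cD7k_0_q rD7k_23_32) 7287 = true := by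
  decide +kernel

theorem cD7k_0_k23_33 : allI cD7k_0_c (rjL dJ cD7k_0_q rD7k_23_33) 7289 = true := by
  decide +kernel

theorem cD7k_0_k23_34 : allI cD7k_0_c (rjL dJ cD7k_0_q rD7k_23_34) 7291 = true := by
  decide +kernel

theorem cD7k_0_k23_35 : allI cD7k_0_c (rjL dJ cD7k_0_q rD7k_23_35) 7293 = true := by
  decide +kernel

theorem cD7k_0_k23_36 : allI cD7k_0_c (rjL dJ cD7k_0_q rD7k_23_36) 7295 = true := by
  decide +kernel

theorem cD7k_0_k23_37 : allI cD7k_0_c (rjL dJ cD7k_0_q rD7k_23_37) 7297 = true := by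
  decide +kernel

theorem cD7k_0_k23_38 : allI cD7k_0_c (rjL dJ cD7k_0_q rD7k_23_38) 7300 = true := by
  decide +kernel

theorem cD7k_0_k23_39 : allI cD7k_0_c (rjL dJ cD7k_0_q rD7k_23_39) 7302 = true := by
  decide +kernel

theorem cD7k_0_k23_40 : allI cD7k_0_c (rjL dJ cD7k_0_q rD7k_23_40) 7305 = true := by
  decide +kernel

theorem cD7k_0_k23_41 : allI cD7k_0_c (rjL dJ cD7k_0_q rD7k_23_41) 7308 = true := by
  decide +kernel

theorem cD7k_0_k23_42 : allI cD7k_0_c (rjL dJ cD7k_0_q rD7k_23_42) 7310 = true := by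
  decide +kernel

theorem cD7k_0_k23_43 : allI cD7k_0_c (rjL dJ cD7k_0_q rD7k_23_43) 7313 = true := by
  decide +kernel

theorem cD7k_0_k23_44 : allI cD7k_0_c (rjL dJ cD7k_0_q rD7k_23_44) 7315 = true := by
  decide +kernel

theorem cD7k_0_k23_45 : allI cD7k_0_c (rjL dJ cD7k_0_q rD7k_23_45) 7318 = true := by
  decide +kernel

/-- nodes -/
noncomputable def cD7k_0_n23 : List (QJ PN) :=
  rjL dJ cD7k_0_q rD7k_23_0 ++ (rjL dJ cD7k_0_q rD7k_23_1 ++ (rjL dJ cD7k_0_q rD7k_23_2 ++ (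
    rjL dJ cD7k_0_q rD7k_23_3 ++ (rjL dJ cD7k_0_q rD7k_23_4 ++ (rjL dJ cD7k_0_q rD7k_23_5 ++ (
    rjL dJ cD7k_0_q rD7k_23_6 ++ (rjL dJ cD7k_0_q rD7k_23_7 ++ (rjL dJ cD7k_0_q rD7k_23_8 ++ (
    rjL dJ cD7k_0_q rD7k_23_9 ++ (rjL dJ cD7k_0_q rD7k_23_10 ++ (rjL dJ cD7k_0_q rD7k_23_11 ++ (
    rjL dJ cD7k_0_q rD7k_23_12 ++ (rjL dJ cD7k_0_q rD7k_23_13 ++ (rjL dJ cD7k_0_q rD7k_23_14 ++ (
    rjL dJ cD7k_0_q rD7k_23_15 ++ (rjL dJ cD7k_0_q rD7k_23_16 ++ (rjL dJ cD7k_0_q rD7k_23_17 ++ (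
    rjL dJ cD7k_0_q rD7k_23_18 ++ (rjL dJ cD7k_0_q rD7k_23_19 ++ (rjL dJ cD7k_0_q rD7k_23_20 ++ (
    rjL dJ cD7k_0_q rD7k_23_21 ++ (rjL dJ cD7k_0_q rD7k_23_22 ++ (rjL dJ cD7k_0_q rD7k_23_23 ++ (
    rjL dJ cD7k_0_q rD7k_23_24 ++ (rjL dJ cD7k_0_q rD7k_23_25 ++ (rjL dJ cD7k_0_q rD7k_23_26 ++ (
    rjL dJ cD7k_0_q rD7k_23_27 ++ (rjL dJ cD7k_0_q rD7k_23_28 ++ (rjL dJ cD7k_0_q rD7k_23_29 ++ (
    rjL dJ cD7k_0_q rD7k_23_30 ++ (rjL dJ cD7k_0_q rD7k_23_31 ++ (rjL dJ cD7k_0_q rD7k_23_32 ++ (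
    rjL dJ cD7k_0_q rD7k_23_33 ++ (rjL dJ cD7k_0_q rD7k_23_34 ++ (rjL dJ cD7k_0_q rD7k_23_35 ++ (
    rjL dJ cD7k_0_q rD7k_23_36 ++ (rjL dJ cD7k_0_q rD7k_23_37 ++ (rjL dJ cD7k_0_q rD7k_23_38 ++ (
    rjL dJ cD7k_0_q rD7k_23_39 ++ (rjL dJ cD7k_0_q rD7k_23_40 ++ (rjL dJ cD7k_0_q rD7k_23_41 ++ (
    rjL dJ cD7k_0_q rD7k_23_42 ++ (rjL dJ cD7k_0_q rD7k_23_43 ++ (rjL dJ cD7k_0_q rD7k_23_44 ++
    rjL dJ cD7k_0_q rD7k_23_45))))))))))))))))))))))))))))))))))))))))))))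

theorem cD7k_0_k23 : allI cD7k_0_c cD7k_0_n23 7214 = true := by
  refine allI_appQ (k := 2) cD7k_0_k23_0 (by decide +kernel) ?_
  refine allI_appQ (k := 2) cD7k_0_k23_1 (by decide +kernel) ?_
  refine allI_appQ (k := 2) cD7k_0_k23_2 (by decide +kernel) ?_
  refine allI_appQ (k := 3) cD7k_0_k23_3 (by decide +kernel) ?_
  refine allI_appQ (k := 3) cD7k_0_k23_4 (by decide +kernel) ?_
  refine allI_appQ (k := 3) cD7k_0_k23_5 (by decide +kernel) ?_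
  refine allI_appQ (k := 3) cD7k_0_k23_6 (by decide +kernel) ?_
  refine allI_appQ (k := 3) cD7k_0_k23_7 (by decide +kernel) ?_
  refine allI_appQ (k := 2) cD7k_0_k23_8 (by decide +kernel) ?_
  refine allI_appQ (k := 2) cD7k_0_k23_9 (by decide +kernel) ?_
  refine allI_appQ (k := 2) cD7k_0_k23_10 (by decide +kernel) ?_
  refine allI_appQ (k := 2) cD7k_0_k23_11 (by decide +kernel) ?_
  refine allI_appQ (k := 2) cD7k_0_k23_12 (by decide +kernel) ?_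
  refine allI_appQ (k := 2) cD7k_0_k23_13 (by decide +kernel) ?_
  refine allI_appQ (k := 2) cD7k_0_k23_14 (by decide +kernel) ?_
  refine allI_appQ (k := 2) cD7k_0_k23_15 (by decide +kernel) ?_
  refine allI_appQ (k := 3) cD7k_0_k23_16 (by decide +kernel) ?_
  refine allI_appQ (k := 3) cD7k_0_k23_17 (by decide +kernel) ?_
  refine allI_appQ (k := 2) cD7k_0_k23_18 (by decide +kernel) ?_
  refine allI_appQ (k := 2) cD7k_0_k23_19 (by decide +kernel) ?_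
  refine allI_appQ (k := 1) cD7k_0_k23_20 (by decide +kernel) ?_
  refine allI_appQ (k := 2) cD7k_0_k23_21 (by decide +kernel) ?_
  refine allI_appQ (k := 3) cD7k_0_k23_22 (by decide +kernel) ?_
  refine allI_appQ (k := 3) cD7k_0_k23_23 (by decide +kernel) ?_
  refine allI_appQ (k := 2) cD7k_0_k23_24 (by decide +kernel) ?_
  refine allI_appQ (k := 2) cD7k_0_k23_25 (by decide +kernel) ?_
  refine allI_appQ (k := 2) cD7k_0_k23_26 (by decide +kernel) ?_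
  refine allI_appQ (k := 3) cD7k_0_k23_27 (by decide +kernel) ?_
  refine allI_appQ (k := 2) cD7k_0_k23_28 (by decide +kernel) ?_
  refine allI_appQ (k := 2) cD7k_0_k23_29 (by decide +kernel) ?_
  refine allI_appQ (k := 2) cD7k_0_k23_30 (by decide +kernel) ?_
  refine allI_appQ (k := 2) cD7k_0_k23_31 (by decide +kernel) ?_
  refine allI_appQ (k := 2) cD7k_0_k23_32 (by decide +kernel) ?_
  refine allI_appQ (k := 2) cD7k_0_k23_33 (by decide +kernel) ?_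
  refine allI_appQ (k := 2) cD7k_0_k23_34 (by decide +kernel) ?_
  refine allI_appQ (k := 2) cD7k_0_k23_35 (by decide +kernel) ?_
  refine allI_appQ (k := 2) cD7k_0_k23_36 (by decide +kernel) ?_
  refine allI_appQ (k := 3) cD7k_0_k23_37 (by decide +kernel) ?_
  refine allI_appQ (k := 2) cD7k_0_k23_38 (by decide +kernel) ?_
  refine allI_appQ (k := 3) cD7k_0_k23_39 (by decide +kernel) ?_
  refine allI_appQ (k := 3) cD7k_0_k23_40 (by decide +kernel) ?_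
  refine allI_appQ (k := 2) cD7k_0_k23_41 (by decide +kernel) ?_
  refine allI_appQ (k := 3) cD7k_0_k23_42 (by decide +kernel) ?_
  refine allI_appQ (k := 2) cD7k_0_k23_43 (by decide +kernel) ?_
  refine allI_appQ (k := 3) cD7k_0_k23_44 (by decide +kernel) ?_
  exact cD7k_0_k23_45

theorem cD7k_0_l23 : cD7k_0_n23.length = 105 := by
  decide +kernel

end Pool.Agent.Lib_MP_fa6e45
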