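import Pool.Agent.Lib_MP_fa6e45.RJ0

/-!
MP_fa6e45_co, stage 9: straight-side patterns with `7` sides, raw data (generated by a program).
-/

namespace Pool.Agent.Lib_MP_fa6e45

/-- nodes -/
noncomputable def rD7k_24_0 : List RJ :=
  [.l (nat_lit 13) (nat_lit 0x690) (nat_lit 3) (nat_lit 0x2fb000003220000032c000002f1000002bd0000031b0000036e0000036e000003d600000333000002bd000002bd000002e3000002e7) (nat_lit 0xb4000000db000000e5000000aa000000bb000001190000006800000068000000a3000000000000011900000119000000ef000000f3)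
    (nat_lit 0xf306a042c20c12007887ac31b13a0bec34c1e210608c84c01e611e89e05582091ba8ae85c03220d206904f029e13c083048e290138884c58827f17709c43481b214f0a7847a216106091c4f61d812c091049c2f10ec07604041fe10487883b021312386904aa21010d0bb83481a40e7072855824013d89c454a2470ff0acc3a231b0ff06ac3481a415d0c6c48827f159884060c2c1191108c5b22fc13f89fc6ea3d612c0b103fc2551830c184da36e1ca0edc4fe21d1910bec5e227118d8bb86dc4230e88f5863631b0d206905c02741270bb83a221a1368c885201d110d08684882400d207883b01b20d5869076e2fc10d0c6c3481a40d907283481a60ec06903fc1a41ca0b6443431b0d206903481ca14f08c83fc29e0d2072843a27f12006903941ca11807c04f020c1010a783481ce13f89fc4881a40d206c84e0230)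
    (nat_lit 0xf31a40d206903481a40d206903481a40d206903481a403501e63481a40d206903481a40d206903481a40d2069010b08f448e6903481a40d206903481a40d206903481a40418278148091cd206903481a40d206903481a40d206901200ab04e227b1239a40d206903481a40d206903481a403c420910987603482473481a40d206903481a40d206901eb0dd458825812a87f860c6903481a40d206903481a406362ba13f89104202b31608c18d206903481a40d2069013a0b805dc24e10d074464426d0e89a40d206903481a405f63221388bc45dc31b2118db87ac1d13481a40d206900d306903481d80d207f85b239418d88683486903481a403c41a40d907603481ab17e0e8863621a0d20690d2069010609e053c2020e706904fe27f0d209103641a41181a4046429e14f07f83941a413f88743482400e507283e0230)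
    (nat_lit 4) (nat_lit 61)
    [[nat_lit 2,nat_lit 18,nat_lit 258,nat_lit 0x10002,nat_lit 17,nat_lit 33,nat_lit 273,nat_lit 0x10011,
    nat_lit 0x100011,nat_lit 0x1000011,nat_lit 257,nat_lit 513,nat_lit 0x10101,nat_lit 0x1001,nat_lit 0x11001,
    nat_lit 0x10001,nat_lit 0x20001,nat_lit 0x110001,nat_lit 0x1010001,nat_lit 0x100001,nat_lit 0x1000001,
    nat_lit 0x1000002,nat_lit 0x1100001],[nat_lit 32,nat_lit 48,nat_lit 0x10020,nat_lit 0x100020,nat_lit 0x1000020,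
    nat_lit 272,nat_lit 0x100110,nat_lit 0x11010,nat_lit 0x10010,nat_lit 0x20010,nat_lit 0x110010,nat_lit 0x1010010,
    nat_lit 0x100010,nat_lit 0x200010,nat_lit 0x1100010,nat_lit 0x1000010,nat_lit 0x2000010],[nat_lit 512,nat_lit 768,
    nat_lit 0x10100,nat_lit 0x110100,nat_lit 0x100100,nat_lit 0x1000100],[nat_lit 0x2000,nat_lit 0x11000,
    nat_lit 0x21000,nat_lit 0x111000,nat_lit 0x101000],[nat_lit 0x20000,nat_lit 0x110000,nat_lit 0x1010000,
    nat_lit 0x2010000],[nat_lit 0x200000,nat_lit 0x1100000,nat_lit 0x2100000],[nat_lit 0x2000000,nat_lit 0x3000000]]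
    [.c (nat_lit 1) (nat_lit 2),.c (nat_lit 2) (nat_lit 0x3202),.r (nat_lit 0x1b04) (nat_lit 8) [nat_lit 0x32021,
    nat_lit 0x200001],.r (nat_lit 0x1c82) (nat_lit 1) [nat_lit 0x200001,nat_lit 0x32021],
    .r (nat_lit 0x1b04) (nat_lit 12) [nat_lit 33,nat_lit 0x200001],.r (nat_lit 0x1c5d) (nat_lit 13) [nat_lit 33,
    nat_lit 0x404031,nat_lit 0x5021],.r (nat_lit 0x174e) (nat_lit 3) [nat_lit 0x300231,nat_lit 0x200001],
    .r (nat_lit 32) (nat_lit 7) [nat_lit 0x300231,nat_lit 0x200001],.r (nat_lit 0x19ff) (nat_lit 7) [nat_lit 0x300231,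
    nat_lit 0x624051,nat_lit 0x23021,nat_lit 0x32041],.r (nat_lit 0x1c5d) (nat_lit 13) [nat_lit 0x2021,
    nat_lit 0x402031,nat_lit 0x3021],.r (nat_lit 0x196a) (nat_lit 7) [nat_lit 33,nat_lit 0x402321,nat_lit 0x300231],
    .r (nat_lit 0xd86) (nat_lit 7) [nat_lit 0x932851,nat_lit 0x9001,nat_lit 0x45001,nat_lit 0x32041],
    .r (nat_lit 8) (nat_lit 3) [nat_lit 0x303231,nat_lit 0x202001],.c (nat_lit 0) (nat_lit 0x22003),
    .r (nat_lit 0x1c5a) (nat_lit 2) [nat_lit 0x3001,nat_lit 0x202001,nat_lit 0x303021],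
    .r (nat_lit 0) (nat_lit 13) [nat_lit 0x200001,nat_lit 33],.r (nat_lit 0x1801) (nat_lit 4) [nat_lit 0x2001,
    nat_lit 0x20001,nat_lit 0x200001,nat_lit 0x30041],.r (nat_lit 0x1c74) (nat_lit 13) [nat_lit 0x2001,
    nat_lit 0x303231,nat_lit 0x200001],.r (nat_lit 32) (nat_lit 7) [nat_lit 0x303231,nat_lit 0x200001],
    .r (nat_lit 0xd87) (nat_lit 5) [nat_lit 0x400001,nat_lit 0x505451,nat_lit 0x4001,nat_lit 0x20001],
    .r (nat_lit 0x1b04) (nat_lit 12) [nat_lit 0x2021,nat_lit 0x200001],.c (nat_lit 2) (nat_lit 0x3402),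
    .r (nat_lit 0x19ff) (nat_lit 7) [nat_lit 0x303231,nat_lit 0x620051,nat_lit 0x20021,nat_lit 0x36041],
    .c (nat_lit 2) (nat_lit 2),.r (nat_lit 0x1962) (nat_lit 7) [nat_lit 0x406031,nat_lit 0x3021,nat_lit 0x47021],
    .r (nat_lit 0x1b19) (nat_lit 13) [nat_lit 0x2001,nat_lit 0x200001,nat_lit 0x5021],
    .r (nat_lit 0x1b36) (nat_lit 2) [nat_lit 0x3001,nat_lit 33,nat_lit 0x202001],
    .r (nat_lit 0x1962) (nat_lit 7) [nat_lit 0x404031,nat_lit 33,nat_lit 0x45021],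
    .r (nat_lit 0x1b04) (nat_lit 8) [nat_lit 33,nat_lit 0x200001],.r (nat_lit 32) (nat_lit 1) [nat_lit 0x300231,
    nat_lit 0x200001],.c (nat_lit 0) (nat_lit 0x30302),.r (nat_lit 0x1c82) (nat_lit 1) [nat_lit 0x200001,nat_lit 33],
    .r (nat_lit 32) (nat_lit 1) [nat_lit 0x23022,nat_lit 0x200001],.r (nat_lit 0x1b77) (nat_lit 13) [nat_lit 0x2001,
    nat_lit 0x530451,nat_lit 0x200001],.r (nat_lit 0x1b19) (nat_lit 13) [nat_lit 0x2001,nat_lit 0x200001,
    nat_lit 0x3021],.r (nat_lit 0x1750) (nat_lit 5) [nat_lit 0x3021,nat_lit 0x202001],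
    .r (nat_lit 0x1c71) (nat_lit 2) [nat_lit 0x3001,nat_lit 33,nat_lit 0x202001],
    .r (nat_lit 0x1b36) (nat_lit 2) [nat_lit 0x3001,nat_lit 0x2021,nat_lit 0x202001],.c (nat_lit 2) (nat_lit 514),
    .r (nat_lit 0x1962) (nat_lit 7) [nat_lit 0x402031,nat_lit 0x2021,nat_lit 0x43021],.c (nat_lit 3) (nat_lit 2),
    .r (nat_lit 0xd88) (nat_lit 7) [nat_lit 0xd76c51,nat_lit 0xd001,nat_lit 0x67001,nat_lit 65],
    .r (nat_lit 0x1b9f) (nat_lit 2) [nat_lit 0x3001,nat_lit 33,nat_lit 0x202001],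
    .r (nat_lit 0x1962) (nat_lit 7) [nat_lit 0x824541,nat_lit 0x530451,nat_lit 0x525451],
    .r (nat_lit 0) (nat_lit 4) [nat_lit 33,nat_lit 0x200001],.r (nat_lit 0x1b04) (nat_lit 8) [nat_lit 0x2021,
    nat_lit 0x200001],.c (nat_lit 4) (nat_lit 2),.r (nat_lit 0x1b3a) (nat_lit 0) [nat_lit 0x300021,nat_lit 0x2001,
    nat_lit 0x200001],.r (nat_lit 0x1c5a) (nat_lit 2) [nat_lit 0x3001,nat_lit 0x202001,nat_lit 0x325022],
    .r (nat_lit 0x1b7a) (nat_lit 1) [nat_lit 0x200031,nat_lit 0x202031,nat_lit 33],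
    .r (nat_lit 0x1b1b) (nat_lit 2) [nat_lit 0x3001,nat_lit 0x303021,nat_lit 0x202001],.c (nat_lit 5) (nat_lit 2),
    .r (nat_lit 0x174f) (nat_lit 3) [nat_lit 0x200001,nat_lit 33],.r (nat_lit 0x1c82) (nat_lit 1) [nat_lit 0x200001,
    nat_lit 0x2021],.r (nat_lit 0x1b19) (nat_lit 13) [nat_lit 0x2001,nat_lit 0x200001,nat_lit 33],
    .c (nat_lit 6) (nat_lit 2),.r (nat_lit 0x1750) (nat_lit 5) [nat_lit 33,nat_lit 0x202001],
    .r (nat_lit 0x1b36) (nat_lit 2) [nat_lit 0x3001,nat_lit 0x4021,nat_lit 0x202001],.c (nat_lit 7) (nat_lit 2),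
    .r (nat_lit 0x1962) (nat_lit 7) [nat_lit 0x400031,nat_lit 0x4021,nat_lit 0x40021]],
    .l (nat_lit 12) (nat_lit 960) (nat_lit 3) (nat_lit 0x1c2000001c2000001ab00000159000001830000018300000185000001850000018700000187000001a90000015900000159000001a9) (nat_lit 0x69000000170000003f0000003f0000003d0000003d0000003b0000003b00000069000000190000001900000069)
    (nat_lit 0x1c21c21891ab17b1831851852271971591a91a91891c21c21771ab17d17118516f2291991471a91a91771ab1ab15419418214e15c1741701701240f01921541771890f015412211a11c11011a11a0f013c1400f017118311a14e15014414a13e14c14811a16e13a11a17d17b12218215815014214614814811216a16a11a16f18511017414613e14813414a14e11c16c17412418518511c15c14214a14814814a14a11c17015c13019919711a17014814814a14e14814c10a16e16e11e22922711a17014814c14a14a14814812216e16e1161a91a913c0f016a16e17016c16e16e1481940f013c1471590f012411211a11c11c12210a0f01481100f01771890f015411a11a13012411611e0f013c1400f01a91a914019216a13a15c17416e16e1100f0190140)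
    (nat_lit 0x1c23c03c03c03c03c03c03c03c03c03c03c03c03c01c21c23c03c03c03c03c03c03c03c03c03c03c03c01891771543c03c03c03c03c03c03c03c03c03c03c01ab1ab1941543c03c03c03c03c03c03c03c03c03c017b17d1821221503c03c03c03c03c03c03c03c03c018317114e11a1441503c03c03c03c03c03c03c03c018518515c11c14a1421483c03c03c03c03c03c03c018516f17411013e1461341483c03c03c03c03c03c022722917011a14c14814a14a1483c03c03c03c03c019719917011a14814814e14a14c1483c03c03c03c01591471240f011a11211c11c10a1221483c03c03c01a91a90f013c16e16a16c17016e16e1941483c03c01a91a919214013a16a17415c16e16e0f01101403c01891771540f011a11a12413011e11613c0f00f0140)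
    (nat_lit 5) (nat_lit 43)
    [[nat_lit 2,nat_lit 18,nat_lit 0x10002,nat_lit 17,nat_lit 33,nat_lit 273,nat_lit 0x1011,nat_lit 0x10011,
    nat_lit 0x100011,nat_lit 257,nat_lit 0x1001,nat_lit 0x11001,nat_lit 0x10001,nat_lit 0x10101,nat_lit 0x20001,
    nat_lit 0x110001,nat_lit 0x100001,nat_lit 0x1000001],[nat_lit 32,nat_lit 0x100020,nat_lit 272,nat_lit 0x100110,
    nat_lit 0x1010,nat_lit 0x101010,nat_lit 0x10010,nat_lit 0x110010,nat_lit 0x100010,nat_lit 0x200010,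
    nat_lit 0x1000010],[nat_lit 512,nat_lit 0x1100,nat_lit 0x10100,nat_lit 0x110100,nat_lit 0x100100],[nat_lit 0x2000,
    nat_lit 0x102000,nat_lit 0x11000,nat_lit 0x111000,nat_lit 0x101000,nat_lit 0x1001000],[nat_lit 0x20000,
    nat_lit 0x110000,nat_lit 0x1010000],[nat_lit 0x200000,nat_lit 0x1100000],[nat_lit 0x2000000]]
    [.c (nat_lit 1) (nat_lit 2),.c (nat_lit 6) (nat_lit 0x4208a2),.c (nat_lit 4) (nat_lit 0x2210a2),
    .c (nat_lit 0) (nat_lit 0x328085),.r (nat_lit 0x1c8c) (nat_lit 11) [nat_lit 0x200001,nat_lit 65,nat_lit 0xa92a061,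
    nat_lit 0x20061],.r (nat_lit 0x17f8) (nat_lit 2) [nat_lit 0x10001,nat_lit 0x200061,nat_lit 0x8411401,
    nat_lit 0x6519001],.c (nat_lit 6) (nat_lit 0x210062),.c (nat_lit 0) (nat_lit 0x328c83),
    .r (nat_lit 0x1c58) (nat_lit 11) [nat_lit 0x200001,nat_lit 0x8411441,nat_lit 0x692a0a1,nat_lit 0x4220c61],
    .r (nat_lit 0x1c22) (nat_lit 11) [nat_lit 0x300041,nat_lit 0x200001,nat_lit 0x4000c41],
    .c (nat_lit 0) (nat_lit 0x328085),.r (nat_lit 32) (nat_lit 2) [nat_lit 0x300861,nat_lit 0x200001],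
    .c (nat_lit 0) (nat_lit 0x28c85),.r (nat_lit 0x1c81) (nat_lit 1) [nat_lit 0x10001,nat_lit 0x4000001,
    nat_lit 0x18861,nat_lit 0x6318801],.r (nat_lit 0x110a) (nat_lit 11) [nat_lit 0xc00001,nat_lit 0x1314c0a1,
    nat_lit 0x30001,nat_lit 0x8822501],.c (nat_lit 4) (nat_lit 0x10862),.c (nat_lit 0) (nat_lit 0x28c85),
    .r (nat_lit 0x1bce) (nat_lit 11) [nat_lit 0x200001,nat_lit 65,nat_lit 0x4200c41],.c (nat_lit 2) (nat_lit 2),
    .r (nat_lit 0x1be6) (nat_lit 9) [nat_lit 0x200001,nat_lit 0x4000001,nat_lit 0x6000081],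
    .r (nat_lit 0x1aea) (nat_lit 11) [nat_lit 0x300041,nat_lit 0x200001,nat_lit 0x4000c41],
    .r (nat_lit 0x1c8a) (nat_lit 9) [nat_lit 0x200001,nat_lit 0x4000001,nat_lit 0x6000081],
    .c (nat_lit 0) (nat_lit 0x805),.r (nat_lit 0x174e) (nat_lit 1) [nat_lit 0x6318841,nat_lit 0x200001],
    .c (nat_lit 0) (nat_lit 0x328c83),.r (nat_lit 32) (nat_lit 8) [nat_lit 0x300861,nat_lit 0x200001],
    .r (nat_lit 0) (nat_lit 3) [nat_lit 65,nat_lit 0x200001],.r (nat_lit 0x174e) (nat_lit 1) [nat_lit 0xa519042,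
    nat_lit 0x200001],.r (nat_lit 0x1c4d) (nat_lit 11) [nat_lit 0x200001,nat_lit 65,nat_lit 0x4200c41],
    .c (nat_lit 3) (nat_lit 2),.r (nat_lit 0x1c34) (nat_lit 11) [nat_lit 0x300041,nat_lit 0x200001,nat_lit 0x4000c41],
    .r (nat_lit 0x1b23) (nat_lit 11) [nat_lit 0x300041,nat_lit 0x4200061,nat_lit 0x200001],
    .r (nat_lit 0x1a6d) (nat_lit 11) [nat_lit 0x4200061,nat_lit 0x6500081,nat_lit 0x200001],
    .r (nat_lit 0x1c6f) (nat_lit 10) [nat_lit 0x6000081,nat_lit 0x44000a1,nat_lit 0x4000001],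
    .c (nat_lit 4) (nat_lit 2),.r (nat_lit 32) (nat_lit 8) [nat_lit 0x6318841,nat_lit 0x200001],
    .r (nat_lit 0x1b04) (nat_lit 7) [nat_lit 65,nat_lit 0x200001],.r (nat_lit 0x174e) (nat_lit 1) [nat_lit 0x300861,
    nat_lit 0x200001],.c (nat_lit 1) (nat_lit 0x318c42),.r (nat_lit 0x10dd) (nat_lit 11) [nat_lit 0x18081,
    nat_lit 0x6519001,nat_lit 0x4100a1,nat_lit 0x10001],.c (nat_lit 5) (nat_lit 2),.c (nat_lit 0) (nat_lit 0x200005),
    .r (nat_lit 0x1b77) (nat_lit 6) [nat_lit 0x300041,nat_lit 0x4200061,nat_lit 0x200001],.c (nat_lit 6) (nat_lit 2),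
    .r (nat_lit 0x1a6d) (nat_lit 11) [nat_lit 65,nat_lit 0x40000a1,nat_lit 0x200001],.c (nat_lit 7) (nat_lit 2)]]

/-- nodes -/
noncomputable def rD7k_24_1 : List RJ :=
  [.l (nat_lit 16) (nat_lit 0x21c0) (nat_lit 3) (nat_lit 0xedc00000edc00000dc000000dc000000cb500000cb500000e4e00000e4e00000ca300000ca300000c2700000c2700000dc000000dc0) (nat_lit 0x11c0000011c00000227000002270000008e0000008e0000023900000239000002b5000002b50000011c0000011c)
    (nat_lit 0xedc0edc0dc00dc00cb50b99104010640ca30d9d0c270c270dc00dc00edc0edc0dc00dc00cb50b99115c11800ca30d9d0c270c270dc00dc00dc00dc00dc00ca408670b990c380d320b8708790b0b0b0b0ca40ca40dc00dc00dc00dc00a9f0b990d320c800b870a8d0b0b0b0b0dc00dc00b990b990b990b990b4009720d210d210a7c0a7c08e40a000b990b990cb50cb50a9f08670d0e0b400c270c27088a0a7c0a000a00098309a7118010640c800d320c270d210dc00b400c150c150d8b0d8b0d320d32115c10400d320c380c270d210c140dc00cc70c150c6f0ac30c380c380d9d0d9d0a8d08790a7c0a7c0c150c150b400c160ae8093c09950ab10ca30ca30b870b87088a0a7c0cc70c150a6a0b400ae809ee0b870b870c270c270b0b0b0b0a000a000ac30d8b09ee093c097209720b0b0a110c270c270b0b0b0b0a0008e40c6f0d8b0ae80ae8097209720b0b0b0b0dc00dc00dc00ca409a70b990c380d320b870ab10b0b0a110ca40ca40dc00dc00dc00ca409830b990c380d320b8709950b0b0b0b0ca40ca4)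
    (nat_lit 0xedc21c021c021c021c021c021c021c021c021c021c021c021c021c00edc0edc21c021c021c021c021c021c021c021c021c021c021c021c00dc00dc00dc021c021c021c021c021c021c021c021c021c021c021c00dc00dc00ca40dc021c021c021c021c021c021c021c021c021c021c00cb50cb508670a9f0b4021c021c021c021c021c021c021c021c021c00b990b990b990b9909720b4021c021c021c021c021c021c021c021c01040115c0c380d320d210c270dc021c021c021c021c021c021c021c0106411800d320c800d210c270b400dc021c021c021c021c021c021c00ca30ca30b870b870a7c088a0c150cc70b4021c021c021c021c021c00d9d0d9d08790a8d0a7c0a7c0c150c150c160b4021c021c021c021c00c270c270b0b0b0b08e40a000d8b0c6f0ae80ae8097221c021c021c00c270c270b0b0b0b0a000a000d8b0ac3093c09ee0972097221c021c00dc00dc00ca40dc00b9909830d320c3809950b870b0b0b0b0ca421c00dc00dc00ca40dc00b9909a70d320c380ab10b870a110b0b0ca40ca4)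
    (nat_lit 5) (nat_lit 37)
    [[nat_lit 2,nat_lit 17,nat_lit 33,nat_lit 273,nat_lit 0x10011,nat_lit 257,nat_lit 513,nat_lit 0x10101,
    nat_lit 0x1001,nat_lit 0x10001,nat_lit 0x20001,nat_lit 0x100001,nat_lit 0x1000001],[nat_lit 32,nat_lit 48,
    nat_lit 288,nat_lit 0x10020,nat_lit 0x100020,nat_lit 272,nat_lit 528,nat_lit 0x10110,nat_lit 0x100110,
    nat_lit 0x1010,nat_lit 0x10010,nat_lit 0x11010,nat_lit 0x20010,nat_lit 0x110010,nat_lit 0x100010,
    nat_lit 0x1000010],[nat_lit 512,nat_lit 0x10200,nat_lit 0x100200,nat_lit 0x1100,nat_lit 0x10100,nat_lit 0x20100,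
    nat_lit 0x110100,nat_lit 0x100100,nat_lit 0x1000100],[nat_lit 0x2000,nat_lit 0x11000,nat_lit 0x101000],
    [nat_lit 0x20000,nat_lit 0x120000,nat_lit 0x110000,nat_lit 0x1010000],[nat_lit 0x200000,nat_lit 0x1100000],
    [nat_lit 0x2000000]]
    [.c (nat_lit 1) (nat_lit 2),.c (nat_lit 0) (nat_lit 0x220007),.r (nat_lit 0x174e) (nat_lit 3) [nat_lit 0x82000e3,
    nat_lit 0x10001],.r (nat_lit 0x174e) (nat_lit 3) [nat_lit 0x18861,nat_lit 0x10001],
    .r (nat_lit 32) (nat_lit 7) [nat_lit 0x18861,nat_lit 0x10001],.c (nat_lit 0) (nat_lit 0x311cc7),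
    .r (nat_lit 0x174e) (nat_lit 3) [nat_lit 0xa36b0e3,nat_lit 0x10001],
    .r (nat_lit 32) (nat_lit 7) [nat_lit 0xa36b0e3,nat_lit 0x10001],.r (nat_lit 0x1c76) (nat_lit 4) [nat_lit 0x210061,
    nat_lit 0x82300e3,nat_lit 0xa33b0e3],.r (nat_lit 0) (nat_lit 13) [nat_lit 0x10001,nat_lit 65],
    .r (nat_lit 0x1be6) (nat_lit 6) [nat_lit 0x10001,nat_lit 0x4400003,nat_lit 0x6500183],
    .r (nat_lit 0x10f8) (nat_lit 9) [nat_lit 0x125ce1a3,nat_lit 0x40001,nat_lit 0x3000c1,nat_lit 0x200041],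
    .r (nat_lit 0x1a6d) (nat_lit 4) [nat_lit 65,nat_lit 0x44001a3,nat_lit 0x10001],.c (nat_lit 2) (nat_lit 2),
    .r (nat_lit 0x174e) (nat_lit 3) [nat_lit 0x4000062,nat_lit 0x10001],
    .r (nat_lit 0x174e) (nat_lit 3) [nat_lit 0x43398e6,nat_lit 0x10001],
    .r (nat_lit 0x1c98) (nat_lit 11) [nat_lit 0x1256b0c3,nat_lit 0x10001,nat_lit 0x4400003],
    .r (nat_lit 32) (nat_lit 1) [nat_lit 0x82000e3,nat_lit 0x10001],.c (nat_lit 2) (nat_lit 0x4118e6),
    .r (nat_lit 0x174e) (nat_lit 3) [nat_lit 0x656b0e6,nat_lit 0x10001],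
    .r (nat_lit 0x1c98) (nat_lit 11) [nat_lit 0xa3398c3,nat_lit 0x10001,nat_lit 0x4400003],
    .r (nat_lit 32) (nat_lit 1) [nat_lit 0x18861,nat_lit 0x10001],.r (nat_lit 0x1c34) (nat_lit 4) [nat_lit 0xa3698c3,
    nat_lit 0x10001,nat_lit 0x62380c3],.c (nat_lit 0) (nat_lit 0x200005),
    .r (nat_lit 0x1c80) (nat_lit 4) [nat_lit 0x10001,nat_lit 0x18041,nat_lit 0x44300e3],
    .r (nat_lit 32) (nat_lit 7) [nat_lit 0x656b0e6,nat_lit 0x10001],.c (nat_lit 1) (nat_lit 0x310006),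
    .c (nat_lit 0) (nat_lit 0x200007),.r (nat_lit 0x10ef) (nat_lit 1) [nat_lit 0x4000001,nat_lit 0x200a1,
    nat_lit 0x1256b003,nat_lit 0x4400003],.c (nat_lit 3) (nat_lit 2),.r (nat_lit 0x1c98) (nat_lit 11) [nat_lit 65,
    nat_lit 0x10001,nat_lit 0x4400003],.r (nat_lit 32) (nat_lit 1) [nat_lit 0xa36b0e3,nat_lit 0x10001],
    .r (nat_lit 0x1c34) (nat_lit 4) [nat_lit 0x18041,nat_lit 0x10001,nat_lit 0x4401cc3],
    .c (nat_lit 0) (nat_lit 0x319cc5),.r (nat_lit 32) (nat_lit 7) [nat_lit 0x6339862,nat_lit 0x10001],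
    .c (nat_lit 1) (nat_lit 0x2218e6),.c (nat_lit 0) (nat_lit 0x319cc7),
    .r (nat_lit 0x10ef) (nat_lit 1) [nat_lit 0x4000001,nat_lit 0x125031a3,nat_lit 0x1256b003,nat_lit 0x4400003],
    .c (nat_lit 4) (nat_lit 2),.r (nat_lit 0x1c3b) (nat_lit 0) [nat_lit 0x18041,nat_lit 0x10001,nat_lit 0x6239803],
    .r (nat_lit 0x1c22) (nat_lit 4) [nat_lit 0x18041,nat_lit 0x10001,nat_lit 0x4401cc3],.c (nat_lit 5) (nat_lit 2),
    .r (nat_lit 0x1993) (nat_lit 4) [nat_lit 0x10001,nat_lit 65,nat_lit 0x4000061,nat_lit 0x6339861],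
    .c (nat_lit 1) (nat_lit 0x10002),.r (nat_lit 0x1c4d) (nat_lit 4) [nat_lit 0x10001,nat_lit 65,nat_lit 0x4431cc3],
    .c (nat_lit 6) (nat_lit 2),.r (nat_lit 0x1bce) (nat_lit 4) [nat_lit 0x10001,nat_lit 65,nat_lit 0x4431cc3],
    .c (nat_lit 7) (nat_lit 2)],
    .l (nat_lit 15) (nat_lit 0x13b0) (nat_lit 4) (nat_lit 0x8f2000008f2000008c8000008c8000008c8000008c8000009090000090900000ae2000006d60000091c0000091c0000091c0000091c) (nat_lit 0x1f0000001f00000021a0000021a0000021a0000021a000001d9000001d90000040c00000000000001c6000001c6000001c6000001c6)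
    (nat_lit 0xe041c0839606d80db01cb05f4871909cc23c833f067e0e581cb038107020d081b6036c068419321f1c21f08f2105c20b839606840db01b6038106ae0c001c0837786ef07740d203d507aa0e041800342072c0d5c1c0838106ae0e2a1a6c25e08a20e041c0835707020d081cb035707020e041ab838a869b0978228838107020d5c1c0836c06d80e04180032a07020dde1bbc25e08c80f541ea838107020f8e1c6434d86ef0dde1a6c398078a08aa24243a187430e861a6c64c8be90e2a1bbc37787150e601cc023d89090c26184c3a186c311e423c84510348119022884848909100c2b884ce099e0898293021f04e609780ee825e04bc08f6115428e08060a2014402df0762105c19f838107aa0f541c0830987430a20267828205040eac1d58417067e0e041ea83d507020c261d0c288099c0a0814103ab07560d081cb038106000e041c08361869b0ec429303ab0756100826a0396072c0d5c1c0838106ae0e861d0c2df044c0eac1d583ab0804)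
    (nat_lit 0xe044ec09d813b027604ec09d813b027604ec09d813b027604ec0381070227604ec09d813b027604ec09d813b027604ec09d813b00e581a1038113b027604ec09d813b027604ec09d813b027604ec036c06d80d5c1c089d813b027604ec09d813b027604ec09d813b00db01b6030007020e044ec09d813b027604ec09d813b027604ec039606840e041ab8357070227604ec09d813b027604ec09d813b017d2326437787150e2a1bbc39813b027604ec09d813b027604ec038c87c70dde1a6c34d86ef0f141cc09d813b027604ec09d813b009cc10f81dd04bc097812f022a847b10084ec09d813b027604ec047908f20690228845108c812122424571080427604ec09d813b00cfc20b83d507020e041ea83a186131338144028213b027604ec033f082e0f541c0838107aa0e86184c4cf05100a0814109d813b00e581cb038106ae0d5c1c083a18743089816f83ab075610084ec039606840c001c0838107020d361b0c52507620eac1d584d40804)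
    (nat_lit 3) (nat_lit 27)
    [[nat_lit 2,nat_lit 17,nat_lit 257,nat_lit 273,nat_lit 0x1101,nat_lit 0x10101,nat_lit 0x100101,nat_lit 0x1000101,
    nat_lit 0x1001,nat_lit 0x10001,nat_lit 0x100001,nat_lit 0x1000001],[nat_lit 32,nat_lit 48,nat_lit 0x1020,
    nat_lit 272,nat_lit 0x100110,nat_lit 0x1010,nat_lit 0x10010,nat_lit 0x100010,nat_lit 0x1000010],[nat_lit 512,
    nat_lit 0x100200,nat_lit 0x200200,nat_lit 0x1100,nat_lit 0x101100,nat_lit 0x10100,nat_lit 0x110100,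
    nat_lit 0x100100,nat_lit 0x200100,nat_lit 0x1100100,nat_lit 0x1000100],[nat_lit 0x2000,nat_lit 0x11000,
    nat_lit 0x101000],[nat_lit 0x20000,nat_lit 0x110000,nat_lit 0x1010000],[nat_lit 0x200000,nat_lit 0x1100000],
    [nat_lit 0x2000000]]
    [.c (nat_lit 1) (nat_lit 2),.r (nat_lit 0x1b04) (nat_lit 12) [nat_lit 17,nat_lit 0x401],
    .c (nat_lit 0) (nat_lit 0x34d3),.r (nat_lit 0x174e) (nat_lit 3) [nat_lit 0x699,nat_lit 0x401],
    .r (nat_lit 0x174d) (nat_lit 1) [nat_lit 0x3611,nat_lit 0x1a099],.c (nat_lit 4) (nat_lit 0x211a),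
    .r (nat_lit 0x1c10) (nat_lit 3) [nat_lit 0x699,nat_lit 17,nat_lit 0x10419],.c (nat_lit 5) (nat_lit 0x30d3),
    .c (nat_lit 5) (nat_lit 0x6c2),.r (nat_lit 0) (nat_lit 13) [nat_lit 0x401,nat_lit 17],
    .r (nat_lit 0x1b9c) (nat_lit 12) [nat_lit 0x401,nat_lit 0x18611,nat_lit 0x699],
    .r (nat_lit 0x174d) (nat_lit 1) [nat_lit 0x18699,nat_lit 17],.c (nat_lit 2) (nat_lit 2),
    .r (nat_lit 0x1891) (nat_lit 4) [nat_lit 17,nat_lit 0x401,nat_lit 0x30019,nat_lit 0x2001],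
    .r (nat_lit 0x1c8f) (nat_lit 4) [nat_lit 0x611,nat_lit 0x401,nat_lit 0x20419,nat_lit 0x2001],
    .r (nat_lit 0x1b04) (nat_lit 8) [nat_lit 17,nat_lit 0x401],.r (nat_lit 32) (nat_lit 1) [nat_lit 0x699,
    nat_lit 0x401],.c (nat_lit 0) (nat_lit 0x2083),.c (nat_lit 0) (nat_lit 0x26d5),.c (nat_lit 0) (nat_lit 0x2083),
    .r (nat_lit 0x1b19) (nat_lit 9) [nat_lit 0x611,nat_lit 0x401,nat_lit 0x10819],.c (nat_lit 3) (nat_lit 2),
    .r (nat_lit 0x1c6e) (nat_lit 9) [nat_lit 0x401,nat_lit 17,nat_lit 0x10419],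
    .r (nat_lit 32) (nat_lit 7) [nat_lit 18,nat_lit 0x401],.r (nat_lit 0x1ad6) (nat_lit 2) [nat_lit 0x419,nat_lit 17,
    nat_lit 0x10419],.r (nat_lit 0x1c99) (nat_lit 4) [nat_lit 0x401,nat_lit 0x1c099,nat_lit 0x23099],
    .r (nat_lit 8) (nat_lit 6) [nat_lit 0x18699,nat_lit 17],.r (nat_lit 0x1983) (nat_lit 11) [nat_lit 0x699,
    nat_lit 0x401,nat_lit 0x1a681,nat_lit 0x104d1],.r (nat_lit 0) (nat_lit 4) [nat_lit 17,nat_lit 0x401],
    .r (nat_lit 0x1c10) (nat_lit 3) [nat_lit 0x1369a,nat_lit 0x1a692,nat_lit 0x33cda],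
    .r (nat_lit 0x1b1a) (nat_lit 2) [nat_lit 0x3699,nat_lit 0x1a681,nat_lit 0x34d1,nat_lit 0x234d1],
    .r (nat_lit 32) (nat_lit 1) [nat_lit 0x18699,nat_lit 0x401],.c (nat_lit 4) (nat_lit 2),
    .r (nat_lit 0x1c3b) (nat_lit 0) [nat_lit 0x611,nat_lit 0x401,nat_lit 0x1a681],.c (nat_lit 0) (nat_lit 0x2083),
    .c (nat_lit 5) (nat_lit 2),.c (nat_lit 0) (nat_lit 0x26d5),.c (nat_lit 1) (nat_lit 0x402),
    .c (nat_lit 6) (nat_lit 2),.r (nat_lit 0x1b43) (nat_lit 5) [nat_lit 0x611,nat_lit 0x401,nat_lit 0x10819],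
    .c (nat_lit 7) (nat_lit 2)],
    .l (nat_lit 11) (nat_lit 480) (nat_lit 3) (nat_lit 0xd4000000ac000000bd000000bd000000a6000000da000000d4000000d4000000d0000000b8000000bd000000bd000000c0000000c0) (nat_lit 0x2e000000060000001d0000001d00000000000000340000000600000006000000220000000a0000001d0000001d0000001a0000001a)
    (nat_lit 0x14c3385e8b70f0240670c81301e05b8bd1742e83c0a612a23c5507817c2d84b0cc11e23c4908011e2dc500a615a20c468b913626c5909414628c4a8bd1342805e8891622cc488b3158268598ad0f0240448831541e0500a01142883f89310c2005507817a2b46d0aa1a83505e0d0146314630be16c320598b91a8280670ce1543285c8b322c3505f0ce1622346a0a019c338590ca16e24c860ca1981e05989b1a0288650ca1a4318518b316c2d84b09812226c5e08a1642a84e0d210e26c4c09e11e2f44d09418a24c498b31362cc5009a17a2dc478b71582c85187f16e2e4438a3164280518a31002e8568a317c200650d413c2d8518b714c250490ba16628c630862184584c0b61462f4530a6)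
    (nat_lit 0x14c780f01e03c0780f01e03c0780f01e03c0780670a63c0780f01e03c0780f01e03c0780f01e017a254501e03c0780f01e03c0780f01e03c07805b88f14c280f01e03c0780f01e03c0780f01e00f02a8568bd154780f01e03c0780f01e03c0780480781062243c0aa3c0780f01e03c0780f01e019c2f8468b1140350671e03c0780f01e03c0780640b61722cc500d419c338f01e03c0780f01e01302584d8911142f0550b21a4780f01e03c07803c0cc1362cc510d0194328630d23c0780f01e016e23c590ac0fe28c5c8b714621c501e03c07805e88f128268498c516624c5989b134280f01e0174248518b310c3188b10c16c2605e8a314c7805d0801462b4400be1a83285b09e16e28c4a0a6)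
    (nat_lit 3) (nat_lit 37)
    [[nat_lit 2,nat_lit 17,nat_lit 257,nat_lit 0x1000101,nat_lit 0x10001,nat_lit 0x1010001,nat_lit 0x100001,
    nat_lit 0x1000001],[nat_lit 32,nat_lit 288,nat_lit 0x10020,nat_lit 272,nat_lit 0x100110,nat_lit 0x1000110,
    nat_lit 0x1010,nat_lit 0x10010,nat_lit 0x110010,nat_lit 0x1010010,nat_lit 0x11010,nat_lit 0x100010,
    nat_lit 0x1000010],[nat_lit 512,nat_lit 0x1100,nat_lit 0x10100,nat_lit 0x1010100,nat_lit 0x100100,
    nat_lit 0x200100,nat_lit 0x1100100,nat_lit 0x1000100,nat_lit 0x2000100],[nat_lit 0x2000,nat_lit 0x11000,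
    nat_lit 0x1011000,nat_lit 0x101000,nat_lit 0x1001000],[nat_lit 0x20000,nat_lit 0x1020000,nat_lit 0x110000,
    nat_lit 0x210000,nat_lit 0x1110000,nat_lit 0x1010000,nat_lit 0x2010000],[nat_lit 0x200000,nat_lit 0x1100000],
    [nat_lit 0x2000000]]
    [.c (nat_lit 1) (nat_lit 2),.r (nat_lit 32) (nat_lit 12) [nat_lit 0x12419,nat_lit 0x1b081],
    .c (nat_lit 0) (nat_lit 0x2083),.c (nat_lit 2) (nat_lit 0x2483),.r (nat_lit 0x1c6f) (nat_lit 4) [nat_lit 0x411,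
    nat_lit 0x2d719,nat_lit 0x611],.r (nat_lit 0x1c93) (nat_lit 7) [nat_lit 0x1b099,nat_lit 17,nat_lit 0x2611],
    .c (nat_lit 0) (nat_lit 0x2083),.r (nat_lit 0x174e) (nat_lit 4) [nat_lit 0x12419,nat_lit 0x1b081],
    .c (nat_lit 2) (nat_lit 2),.r (nat_lit 0x1c8e) (nat_lit 13) [nat_lit 0x1b081,nat_lit 0x18611,nat_lit 0x10401],
    .r (nat_lit 0x1c0c) (nat_lit 4) [nat_lit 17,nat_lit 0x5811,nat_lit 0x28b19],
    .r (nat_lit 0x174f) (nat_lit 4) [nat_lit 0x1b081,nat_lit 17],.r (nat_lit 0x1b3d) (nat_lit 13) [nat_lit 0x18611,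
    nat_lit 0x12019,nat_lit 0x1b081],.c (nat_lit 1) (nat_lit 0x2483),
    .r (nat_lit 0x1b3d) (nat_lit 13) [nat_lit 0x120d1,nat_lit 0x18699,nat_lit 0x1b081],
    .r (nat_lit 0) (nat_lit 5) [nat_lit 0x1b081,nat_lit 17],.r (nat_lit 32) (nat_lit 12) [nat_lit 0x12019,
    nat_lit 0x1b081],.c (nat_lit 1) (nat_lit 0x682),.c (nat_lit 7) (nat_lit 0x30d3),
    .r (nat_lit 0x1c82) (nat_lit 3) [nat_lit 0x1b081,nat_lit 17],.c (nat_lit 6) (nat_lit 0x602),
    .c (nat_lit 3) (nat_lit 2),.r (nat_lit 0x1b43) (nat_lit 8) [nat_lit 0x120d1,nat_lit 0x1b081,nat_lit 0x3499],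
    .c (nat_lit 0) (nat_lit 0x2003),.r (nat_lit 0x1c10) (nat_lit 4) [nat_lit 0x12019,nat_lit 17,nat_lit 0x10419],
    .c (nat_lit 0) (nat_lit 0x2083),.c (nat_lit 0) (nat_lit 0x2003),.r (nat_lit 32) (nat_lit 3) [nat_lit 0x12019,
    nat_lit 0x1b081],.r (nat_lit 0x174e) (nat_lit 1) [nat_lit 0x12419,nat_lit 17],
    .r (nat_lit 0x1c0c) (nat_lit 4) [nat_lit 0x14019,nat_lit 0x10819,nat_lit 0x3db11],.c (nat_lit 4) (nat_lit 2),
    .c (nat_lit 0) (nat_lit 0x36d3),.c (nat_lit 2) (nat_lit 0x30d3),.c (nat_lit 0) (nat_lit 0x36d3),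
    .r (nat_lit 32) (nat_lit 3) [nat_lit 0x18699,nat_lit 0x1b081],.c (nat_lit 5) (nat_lit 2),
    .r (nat_lit 0x1c9a) (nat_lit 6) [nat_lit 0x1b081,nat_lit 0x104d1,nat_lit 0x224c1],.c (nat_lit 0) (nat_lit 195),
    .c (nat_lit 0) (nat_lit 0x2003),.r (nat_lit 0x174e) (nat_lit 4) [nat_lit 0x12019,nat_lit 0x1b081],
    .r (nat_lit 0x1c2c) (nat_lit 13) [nat_lit 0x2619,nat_lit 0x1b081,nat_lit 17],
    .r (nat_lit 0x1c8e) (nat_lit 13) [nat_lit 0x1b081,nat_lit 0x4619,nat_lit 0x10401],.c (nat_lit 6) (nat_lit 2),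
    .r (nat_lit 0x1b04) (nat_lit 1) [nat_lit 17,nat_lit 0x1b081],.c (nat_lit 7) (nat_lit 2)]]

/-- nodes -/
noncomputable def rD7k_24_2 : List RJ :=
  [.l (nat_lit 10) (nat_lit 240) (nat_lit 4) (nat_lit 0x6700000067000000630000006300000067000000670000006300000063000000720000005600000061000000610000005100000071) (nat_lit 0xb0000000b0000000f0000000f0000000b0000000b0000000f0000000f0000001c0000000000000011000000110000000100000021)
    (nat_lit 0x1705c19858170602607412c6715856198461705c1a058170601f05812c6715856198461605814054160481505411c3f14852188421a06614050160581505415c7713852178461806016048170601105812c67148461604a1705c160581705c1605812c671585812846160741505416058150541146314852188421f09815054160441505411c631484e1884219c671dc3f19c6718c6316872184610c45112c4b15c4712c4b11c450e85a1144515431158561485216046138521146115050180401585613852158521485211461140541804011846118421184a108420c45110040140301986617862128581886215431180601c050)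
    (nat_lit 0x170f03c0f03c0f03c0f03c0f03c0f03c0f01705c3c0f03c0f03c0f03c0f03c0f03c0f019868140f03c0f03c0f03c0f03c0f03c0f016058150503c0f03c0f03c0f03c0f03c0f01705c16058170f03c0f03c0f03c0f03c0f018060120581805c3c0f03c0f03c0f03c0f02607c1505411058150f03c0f03c0f03c0f01d0581505416058150543c0f03c0f03c0f012c4b11c5712c4b11447168f03c0f03c0f019c670fc7719c6718c631c85a3c0f03c0f0158561484e148561485218445150f03c0f01585614852118581484e18445140543c0f0198661885e1604a188620c45518060140f01184610846128461084214431100400c050)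
    (nat_lit 3) (nat_lit 43)
    [[nat_lit 2,nat_lit 258,nat_lit 0x10002,nat_lit 17,nat_lit 0x10011,nat_lit 257,nat_lit 514,nat_lit 273,
    nat_lit 513,nat_lit 0x1101,nat_lit 0x10101,nat_lit 0x100101,nat_lit 0x1000101,nat_lit 0x1001,nat_lit 0x11001,
    nat_lit 0x10001,nat_lit 0x110001,nat_lit 0x100001,nat_lit 0x1000001],[nat_lit 32,nat_lit 0x10020,nat_lit 272,
    nat_lit 0x100110,nat_lit 0x1010,nat_lit 0x11010,nat_lit 0x10010,nat_lit 0x100010,nat_lit 0x110010,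
    nat_lit 0x1000010],[nat_lit 512,nat_lit 0x1100,nat_lit 0x101100,nat_lit 0x10100,nat_lit 0x110100,nat_lit 0x100100,
    nat_lit 0x200100,nat_lit 0x1000100],[nat_lit 0x2000,nat_lit 0x11000,nat_lit 0x101000],[nat_lit 0x20000,
    nat_lit 0x110000,nat_lit 0x1010000],[nat_lit 0x200000,nat_lit 0x1100000],[nat_lit 0x2000000]]
    [.c (nat_lit 1) (nat_lit 2),.r (nat_lit 0x1c99) (nat_lit 4) [nat_lit 0x401,nat_lit 0x124d1,nat_lit 0x12b29],
    .r (nat_lit 0x1c6e) (nat_lit 13) [nat_lit 0x401,nat_lit 17,nat_lit 0x10019],.c (nat_lit 0) (nat_lit 0x2403),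
    .r (nat_lit 32) (nat_lit 7) [nat_lit 0x699,nat_lit 0x401],.r (nat_lit 0x1c2c) (nat_lit 11) [nat_lit 0x18699,
    nat_lit 0x401,nat_lit 17],.r (nat_lit 0x1c22) (nat_lit 4) [nat_lit 0x28b1a,nat_lit 0x401,nat_lit 0x401a],
    .r (nat_lit 0x174e) (nat_lit 3) [nat_lit 0x699,nat_lit 0x401],.r (nat_lit 0x1c9a) (nat_lit 10) [nat_lit 0x401,
    nat_lit 0x100d1,nat_lit 0x10601],.c (nat_lit 6) (nat_lit 0x3013),.r (nat_lit 0x1c10) (nat_lit 2) [nat_lit 0x699,
    nat_lit 17,nat_lit 0x10019],.c (nat_lit 4) (nat_lit 0x3013),.r (nat_lit 0x1c93) (nat_lit 3) [nat_lit 0x419,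
    nat_lit 17,nat_lit 0x18691],.r (nat_lit 32) (nat_lit 7) [nat_lit 0x18099,nat_lit 0x401],
    .r (nat_lit 0x1c8a) (nat_lit 6) [nat_lit 0x401,nat_lit 0x12001,nat_lit 0x1b021],
    .r (nat_lit 0) (nat_lit 13) [nat_lit 0x401,nat_lit 17],.r (nat_lit 0x1366) (nat_lit 6) [nat_lit 0xc01,
    nat_lit 0x3bf99,nat_lit 0x32029,nat_lit 0x2011],.r (nat_lit 8) (nat_lit 4) [nat_lit 0x18099,nat_lit 17],
    .r (nat_lit 0x1bd6) (nat_lit 4) [nat_lit 17,nat_lit 0x12429],.c (nat_lit 2) (nat_lit 2),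
    .r (nat_lit 0x1b19) (nat_lit 13) [nat_lit 0x18011,nat_lit 0x401,nat_lit 0x20019],
    .r (nat_lit 0x1b04) (nat_lit 8) [nat_lit 17,nat_lit 0x401],.r (nat_lit 32) (nat_lit 1) [nat_lit 0x699,
    nat_lit 0x401],.r (nat_lit 0x1b19) (nat_lit 13) [nat_lit 0x611,nat_lit 0x401,nat_lit 0x10419],
    .c (nat_lit 4) (nat_lit 0x3082),.c (nat_lit 0) (nat_lit 0x20c3),.r (nat_lit 0x1c82) (nat_lit 13) [nat_lit 17,
    nat_lit 0x401],.r (nat_lit 0x1c22) (nat_lit 4) [nat_lit 0x18011,nat_lit 0x401,nat_lit 0x24d1],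
    .c (nat_lit 0) (nat_lit 0x2003),.c (nat_lit 3) (nat_lit 2),.r (nat_lit 0x174d) (nat_lit 8) [nat_lit 0x18099,
    nat_lit 17],.c (nat_lit 1) (nat_lit 0x3013),.c (nat_lit 0) (nat_lit 0x3765),.c (nat_lit 1) (nat_lit 0x249a),
    .c (nat_lit 0) (nat_lit 0x5765),.r (nat_lit 0x1c0c) (nat_lit 2) [nat_lit 17,nat_lit 0x20951,nat_lit 0x28119],
    .r (nat_lit 0x1b54) (nat_lit 0) [nat_lit 0x401,nat_lit 17,nat_lit 0x12001],.c (nat_lit 4) (nat_lit 2),
    .r (nat_lit 32) (nat_lit 7) [nat_lit 0x2b71a,nat_lit 0x401],.r (nat_lit 0x1c22) (nat_lit 4) [nat_lit 0x611,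
    nat_lit 0x401,nat_lit 0x120d1],.c (nat_lit 5) (nat_lit 2),.c (nat_lit 0) (nat_lit 0x3765),
    .c (nat_lit 1) (nat_lit 0x402),.c (nat_lit 6) (nat_lit 2),.r (nat_lit 0x1bce) (nat_lit 4) [nat_lit 0x401,
    nat_lit 17,nat_lit 0x124d1],.c (nat_lit 7) (nat_lit 2)],
    .l (nat_lit 17) (nat_lit 0x6ae0) (nat_lit 3) (nat_lit 0x2cfb00002cfb00002eb6000025840000271a0000304e00002b5300002b5300002ec8000029e800002a08000029d0000027c600002c54) (nat_lit 0x3530000035300000aca000001980000000000000934000004fb000004fb00000666000001860000067e00000646000003fa00000888)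
    (nat_lit 0x14d40a6a055322b63167d88f1c5dc43068134a8add4465a24ed148088cb4535029a816308ad8c59f6258f1d3c0eff84b1e2b7512bc89ad45202232d15b18ad8c44482d1e0d5c06d48537629bb142806ae052fc2976155e09cc858c22a990d5c088904b081c500f8087c044a742b600fa307cf843141e0012c788f1c38a01b521451077a0357a221f105a09c703f301ab80d5c0794859f62cfb12c206ae063ac28a215a98ad4c53d0305010320a82047d8290c1dff0c1a03e0229bb15a98887c49a024d012768a734471e250d13ac8b0dc74f02ee20f808a6ec56a61abd132c09340474e29cd126a88a044eb224d515ba8add456c01ab8182809c70539a29cd15770b5084c8029c811f6099004b1e2695129d0a14053d020b411d3893b449902aee11b508e884f6c1fd8135a893b43e7c2976150406ae04502250d11d10a7204a24227c1307086004af2232d0fa30a5f840c81f98126a88e3c46d4264011a9094484e382148119688cb43c00273214860794849aa2c370fec0990042902180138e07cf85202290110c50aaf047d81ab813ac89d644f6c23ec138e0983850b4271c)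
    (nat_lit 0x14d41ab80d5c06ae035701ab80d5c06ae035701ab80d5c06ae035701ab80535029a835701ab80d5c06ae035701ab80d5c06ae035701ab80d5c06ae0154c8b18444486ae035701ab80d5c06ae035701ab80d5c06ae035701ab8056c62b63168f08890d5c06ae035701ab80d5c06ae035701ab80d5c06ae0167d8b3ec3570258414511ab80d5c06ae035701ab80d5c06ae035701ab80478e258f0da9071403bd028a235701ab80d5c06ae035701ab80d5c06ae017710e9e053761f010d5e8ad4c49a06ae035701ab80d5c06ae035701ab8060d03bfe14dd87c04443e2b53126809340d5c06ae035701ab80d5c06ae0134a8963c50a0253a105a0a7a049da23a715771ab80d5c06ae035701ab8056ea2b750d5c0ad804e38305014e68a7345a842aee35701ab80d5c06ae01196895e452fc1f460fcc08190471e24d5132008da84a246ae035701ab8049da26b514bb07cf835702a08128688a04539023a2113e09448d5c06ae014808a4045578218a0d5c08fb04eb2275911f609ed84c1c271c138e1ab80465a232d1399078003ca4290c161b893544c801fd810c0085203e7c271c)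
    (nat_lit 4) (nat_lit 27)
    [[nat_lit 2,nat_lit 0x10002,nat_lit 17,nat_lit 0x10011,nat_lit 257,nat_lit 273,nat_lit 0x100101,nat_lit 0x1001,
    nat_lit 0x10001,nat_lit 0x110001,nat_lit 0x100001,nat_lit 0x1000001],[nat_lit 32,nat_lit 0x10020,nat_lit 272,
    nat_lit 0x100110,nat_lit 0x1010,nat_lit 0x11010,nat_lit 0x10010,nat_lit 0x110010,nat_lit 0x20010,nat_lit 0x100010,
    nat_lit 0x1000010],[nat_lit 512,nat_lit 0x1100,nat_lit 0x101100,nat_lit 0x10100,nat_lit 0x110100,nat_lit 0x100100,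
    nat_lit 0x200100,nat_lit 0x1000100],[nat_lit 0x2000,nat_lit 0x11000,nat_lit 0x111000,nat_lit 0x101000],
    [nat_lit 0x20000,nat_lit 0x120000,nat_lit 0x110000,nat_lit 0x210000,nat_lit 0x1010000],[nat_lit 0x200000,
    nat_lit 0x300000,nat_lit 0x1100000],[nat_lit 0x2000000]]
    [.c (nat_lit 1) (nat_lit 2),.r (nat_lit 0x1342) (nat_lit 8) [nat_lit 33,nat_lit 0x20001,nat_lit 0x2001,
    nat_lit 0x353402],.c (nat_lit 0) (nat_lit 0x5345),.c (nat_lit 3) (nat_lit 0x2232),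
    .r (nat_lit 0x1c2c) (nat_lit 11) [nat_lit 0x202052,nat_lit 0x20001,nat_lit 33],
    .r (nat_lit 0x174e) (nat_lit 3) [nat_lit 0x30231,nat_lit 0x20001],.c (nat_lit 4) (nat_lit 0x24205),
    .c (nat_lit 3) (nat_lit 0x35204),.c (nat_lit 0) (nat_lit 0x5345),.r (nat_lit 0x134b) (nat_lit 6) [nat_lit 0x20001,
    nat_lit 0x2001,nat_lit 0x203452,nat_lit 0x353402],.r (nat_lit 8) (nat_lit 4) [nat_lit 0x242052,nat_lit 33],
    .r (nat_lit 0x1ad6) (nat_lit 3) [nat_lit 0x20031,nat_lit 33,nat_lit 0x353452],.c (nat_lit 2) (nat_lit 2),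
    .r (nat_lit 0x1b19) (nat_lit 13) [nat_lit 0x242542,nat_lit 0x20001,nat_lit 0x353431],
    .r (nat_lit 0x1b04) (nat_lit 8) [nat_lit 33,nat_lit 0x20001],.r (nat_lit 32) (nat_lit 1) [nat_lit 0x30231,
    nat_lit 0x20001],.r (nat_lit 0x1b19) (nat_lit 13) [nat_lit 0x30021,nat_lit 0x20001,nat_lit 0x303452],
    .c (nat_lit 4) (nat_lit 0x28254),.c (nat_lit 0) (nat_lit 0x5345),
    .r (nat_lit 0x1b3d) (nat_lit 11) [nat_lit 0x242542,nat_lit 0x30231,nat_lit 0x20001],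
    .r (nat_lit 0x1bdf) (nat_lit 8) [nat_lit 0x282542,nat_lit 0x286942],.r (nat_lit 0x1c82) (nat_lit 13) [nat_lit 33,
    nat_lit 0x20001],.c (nat_lit 0) (nat_lit 0x35345),.c (nat_lit 3) (nat_lit 2),
    .r (nat_lit 0x174d) (nat_lit 8) [nat_lit 0x242052,nat_lit 33],.c (nat_lit 1) (nat_lit 0x24205),
    .r (nat_lit 0x1b9c) (nat_lit 8) [nat_lit 0x20001,nat_lit 0x242542,nat_lit 0x30231],
    .r (nat_lit 0x1b88) (nat_lit 6) [nat_lit 0x3021,nat_lit 0x30231,nat_lit 0x2001],.c (nat_lit 0) (nat_lit 515),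
    .r (nat_lit 0x1c0c) (nat_lit 2) [nat_lit 33,nat_lit 0x303021,nat_lit 0x242031],.c (nat_lit 1) (nat_lit 0x20304),
    .c (nat_lit 4) (nat_lit 2),.r (nat_lit 0x1bdf) (nat_lit 8) [nat_lit 33,nat_lit 0x2321],
    .r (nat_lit 0x1c9c) (nat_lit 4) [nat_lit 0x20001,nat_lit 0x220031,nat_lit 0x353402],
    .r (nat_lit 0x1b3d) (nat_lit 11) [nat_lit 0x30021,nat_lit 0x242052,nat_lit 0x20001],.c (nat_lit 5) (nat_lit 2),
    .r (nat_lit 0x1b88) (nat_lit 6) [nat_lit 0x3022,nat_lit 0x53432,nat_lit 0x2001],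
    .r (nat_lit 0x174f) (nat_lit 3) [nat_lit 0x20001,nat_lit 33],.r (nat_lit 0x1c8e) (nat_lit 11) [nat_lit 0x20001,
    nat_lit 0x242542,nat_lit 0x353402],.c (nat_lit 0) (nat_lit 0x35345),.c (nat_lit 6) (nat_lit 2),
    .r (nat_lit 0x1c0c) (nat_lit 2) [nat_lit 0x2022,nat_lit 0x503022,nat_lit 0x482032],
    .r (nat_lit 0x1b42) (nat_lit 2) [nat_lit 0x303042,nat_lit 0x202042,nat_lit 0x282052],.c (nat_lit 7) (nat_lit 2)],
    .l (nat_lit 11) (nat_lit 480) (nat_lit 4) (nat_lit 0xdc000000dc000000c3000000c3000000be000000be000000b6000000c6000000be000000be000000be000000be000000c2000000c2) (nat_lit 0x19000000190000001e0000001e00000016000000260000001e0000001e0000001e0000001e0000001a0000001a)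
    (nat_lit 0x1b8350598c317c2e0630b61b04285f0c81843286e0dc18630c4408818c2d86b1081682f8610ca18630c700aa14a294318d314a2944e88d1522cc618b3154380528a5146274528a5146294578b91102e0528a5140280540981402a8480a0168298440be14a294500a0150260500a0160280520a416c2d84e8d3130260500901302604c098138230630c614618c540a8160280540a81502a03009e210428528a51402a854098140280570a01482906b0d814a294500a0150260500a015c2804d09217c3205288d14028054098140280590a01142585a0be14627458090150260570ae1802c84e0a41943285c8b31482984f08c12429052096150220610c215e2a4520b40c02704d0a4138228580a8)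
    (nat_lit 0x1b8780f01e03c0780f01e03c0780f01e03c07806a0dc3c0780f01e03c0780f01e03c0780f01e016630c701e03c0780f01e03c0780f01e03c0780618c3154380f01e03c0780f01e03c0780f01e017c220528a5140780f01e03c0780f01e03c07805c08814a294500a03c0780f01e03c0780f01e018c318318a31502a0501e03c0780f01e03c07805b0b61a62744c098120280f01e03c0780f01e01b0358528a51402804c0a8140780f01e03c07808510814a294550a01302a0500a03c0780f01e017c2d04e8a31202c04c0a815c2b8591e03c0780640be11a294500a01302a0500a01402c8f01e0184308548af1682904e0601482684509c150780650ca1662e4530a41182785209212c290440a8)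
    (nat_lit 3) (nat_lit 43)
    [[nat_lit 2,nat_lit 18,nat_lit 258,nat_lit 0x1002,nat_lit 17,nat_lit 273,nat_lit 0x1011,nat_lit 0x10011,
    nat_lit 257,nat_lit 513,nat_lit 0x1101,nat_lit 0x1001,nat_lit 0x2001,nat_lit 0x101001,nat_lit 0x2002,
    nat_lit 0x11001,nat_lit 0x10001,nat_lit 0x100001,nat_lit 0x1000001],[nat_lit 32,nat_lit 272,nat_lit 0x1010,
    nat_lit 0x101010,nat_lit 0x10010,nat_lit 0x10110,nat_lit 0x11010,nat_lit 0x20010,nat_lit 0x110010,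
    nat_lit 0x100010,nat_lit 0x200010,nat_lit 0x1000010],[nat_lit 512,nat_lit 0x1100,nat_lit 0x101100,nat_lit 0x10100,
    nat_lit 0x100100],[nat_lit 0x2000,nat_lit 0x102000,nat_lit 0x11000,nat_lit 0x101000,nat_lit 0x111000,
    nat_lit 0x1101000,nat_lit 0x1001000],[nat_lit 0x20000,nat_lit 0x110000,nat_lit 0x1010000],[nat_lit 0x200000,
    nat_lit 0x1100000],[nat_lit 0x2000000]]
    [.c (nat_lit 1) (nat_lit 2),.r (nat_lit 0x1c8e) (nat_lit 4) [nat_lit 0x401,nat_lit 0x124d1,nat_lit 0x1b681],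
    .r (nat_lit 0x174d) (nat_lit 8) [nat_lit 0x18611,nat_lit 0x22819],.c (nat_lit 3) (nat_lit 0x4503),
    .c (nat_lit 0) (nat_lit 0x765),.r (nat_lit 32) (nat_lit 2) [nat_lit 0x18611,nat_lit 0x401],
    .r (nat_lit 0x1c9a) (nat_lit 11) [nat_lit 0x401,nat_lit 0x12019,nat_lit 0x10699],.c (nat_lit 6) (nat_lit 0x49a),
    .c (nat_lit 6) (nat_lit 0x30c2),.r (nat_lit 0) (nat_lit 6) [nat_lit 0x401,nat_lit 0x22819],
    .c (nat_lit 6) (nat_lit 0x2483),.r (nat_lit 0) (nat_lit 6) [nat_lit 0x401,nat_lit 17],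
    .r (nat_lit 0x1c9d) (nat_lit 11) [nat_lit 17,nat_lit 0x401,nat_lit 0x24019],.c (nat_lit 3) (nat_lit 0x2483),
    .r (nat_lit 32) (nat_lit 8) [nat_lit 18,nat_lit 0x401],.r (nat_lit 32) (nat_lit 2) [nat_lit 0x699,nat_lit 0x401],
    .c (nat_lit 0) (nat_lit 0x765),.r (nat_lit 8) (nat_lit 4) [nat_lit 0x12419,nat_lit 17],
    .r (nat_lit 0x1b42) (nat_lit 1) [nat_lit 0x1b011,nat_lit 0x12011,nat_lit 0x12819],.c (nat_lit 2) (nat_lit 2),
    .r (nat_lit 0x1c3b) (nat_lit 13) [nat_lit 0x611,nat_lit 0x401,nat_lit 0x2001],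
    .r (nat_lit 0x1b9c) (nat_lit 7) [nat_lit 0x401,nat_lit 0x124d1,nat_lit 0x699],
    .r (nat_lit 0x1c10) (nat_lit 1) [nat_lit 0x699,nat_lit 17,nat_lit 0x1b699],.c (nat_lit 0) (nat_lit 0x3753),
    .c (nat_lit 3) (nat_lit 0x251a),.r (nat_lit 0x174d) (nat_lit 8) [nat_lit 0x699,nat_lit 0x128d1],
    .r (nat_lit 0x1b19) (nat_lit 0) [nat_lit 0x124d1,nat_lit 0x401,nat_lit 0x2db19],
    .r (nat_lit 32) (nat_lit 8) [nat_lit 0x699,nat_lit 0x401],.r (nat_lit 0) (nat_lit 3) [nat_lit 17,nat_lit 0x401],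
    .r (nat_lit 0x1c6e) (nat_lit 0) [nat_lit 0x401,nat_lit 17,nat_lit 0x1b699],.c (nat_lit 0) (nat_lit 0x36d3),
    .c (nat_lit 3) (nat_lit 2),.r (nat_lit 0x174d) (nat_lit 8) [nat_lit 0x12419,nat_lit 17],
    .c (nat_lit 1) (nat_lit 0x2483),.r (nat_lit 0x1b19) (nat_lit 0) [nat_lit 0x611,nat_lit 0x401,nat_lit 0x1b099],
    .r (nat_lit 32) (nat_lit 8) [nat_lit 0x12419,nat_lit 0x401],.c (nat_lit 4) (nat_lit 2),
    .r (nat_lit 0x1c9a) (nat_lit 3) [nat_lit 0x401,nat_lit 0x1b611,nat_lit 0x1ba81],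
    .r (nat_lit 0x1b04) (nat_lit 7) [nat_lit 17,nat_lit 0x401],.c (nat_lit 0) (nat_lit 0x405),
    .r (nat_lit 0x174e) (nat_lit 1) [nat_lit 0x699,nat_lit 0x401],.r (nat_lit 32) (nat_lit 8) [nat_lit 0x10011,
    nat_lit 0x401],.r (nat_lit 0x1c6a) (nat_lit 3) [nat_lit 0x611,nat_lit 0x2419,nat_lit 0x401],
    .c (nat_lit 5) (nat_lit 2),.r (nat_lit 0x1b04) (nat_lit 5) [nat_lit 17,nat_lit 0x401],
    .c (nat_lit 0) (nat_lit 0x36d3),.c (nat_lit 6) (nat_lit 2),.c (nat_lit 1) (nat_lit 0x2002),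
    .c (nat_lit 7) (nat_lit 2)]]

/-- nodes -/
noncomputable def rD7k_24_3 : List RJ :=
  [.l (nat_lit 12) (nat_lit 960) (nat_lit 4) (nat_lit 0x19200000192000001e2000001e2000001e4000001e40000017a0000016e00000178000001780000018e0000019a0000017500000175) (nat_lit 0x520000005200000002000000020000000000000000000000760000006a0000006c0000006c0000004a000000560000006f0000006f)
    (nat_lit 0x14012c1901ce18c0f612013013811014a1441231231781401901901921921200f217014810a1080e515d1901ce1e01a82181e214a1781aa17215e1421731b11901902181e01de1e21001781761761980e820f24d1920f61e21e21e41ac16e17e21c1e40c018e17517519218c1de2181e41e416a17a1dc1a419a18e16d1e50f213017817817a17e0d811010e1120c00c011110b12012010014a16a16e0f80d80fe1021241201150ff1481101761721a41e410211210410c12e1261051091701381761aa1dc21c0fe10e0d81041661221010db1081440e814218e18e1200c012212617216c10d0e710a14a19815e19a0c01240c016612e17817212b12b15d12324d1b11e51750ff10b0db10912b0e71040de0e512320f17316d17511511110110512b10d11a104)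
    (nat_lit 0x1403c03c03c03c03c03c03c03c03c03c03c03c03c012c1403c03c03c03c03c03c03c03c03c03c03c03c01901901e03c03c03c03c03c03c03c03c03c03c03c01ce1901a81e03c03c03c03c03c03c03c03c03c03c018c1922181de1e43c03c03c03c03c03c03c03c03c00f61921e21e21ac1e43c03c03c03c03c03c03c03c012012014a10016e16a0d83c03c03c03c03c03c03c01300f217817817e17a1100d83c03c03c03c03c03c01381701aa17621c1dc10e0fe1043c03c03c03c03c01101481721761e41a411210210c1043c03c03c03c014a10a15e1980c019a0c012412e1661723c03c03c01441081420e818e18e0c012012612216c1723c03c01230e517320f17516d11111510510110d12b1043c012315d1b120b1751e510b0ff1090db0e712b0de104)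
    (nat_lit 4) (nat_lit 83)
    [[nat_lit 2,nat_lit 3,nat_lit 18,nat_lit 258,nat_lit 0x1002,nat_lit 0x1000002,nat_lit 17,nat_lit 33,nat_lit 273,
    nat_lit 0x1011,nat_lit 0x1111,nat_lit 0x2011,nat_lit 0x10011,nat_lit 0x1000011,nat_lit 257,nat_lit 513,
    nat_lit 0x1101,nat_lit 0x1000101,nat_lit 0x1001,nat_lit 0x2001,nat_lit 0x1001001,nat_lit 0x10001,nat_lit 0x100011,
    nat_lit 0x101001,nat_lit 0x1000001,nat_lit 0x2000001,nat_lit 0x1001011],[nat_lit 32,nat_lit 0x1020,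
    nat_lit 0x100020,nat_lit 272,nat_lit 528,nat_lit 0x1110,nat_lit 0x1000110,nat_lit 0x1010,nat_lit 0x2110,
    nat_lit 0x2010,nat_lit 0x3010,nat_lit 0x11010,nat_lit 0x101010,nat_lit 0x1001010,nat_lit 0x10010,nat_lit 0x10110,
    nat_lit 0x1010010,nat_lit 0x100010,nat_lit 0x1000010,nat_lit 0x2000010],[nat_lit 512,nat_lit 768,nat_lit 0x1200,
    nat_lit 0x1000200,nat_lit 0x1100,nat_lit 0x2100,nat_lit 0x101100,nat_lit 0x1001100,nat_lit 0x100100,
    nat_lit 0x1000100],[nat_lit 0x2000,nat_lit 0x3000,nat_lit 0x4000,nat_lit 0x102000,nat_lit 0x1002000,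
    nat_lit 0x11000,nat_lit 0x1011000,nat_lit 0x101000,nat_lit 0x1001000,nat_lit 0x2001000],[nat_lit 0x20000,
    nat_lit 0x1010000],[nat_lit 0x1100000],[nat_lit 0x2000000]]
    [.c (nat_lit 1) (nat_lit 2),.r (nat_lit 0x1748) (nat_lit 8) [nat_lit 33,nat_lit 0x707631,nat_lit 0x2001],
    .c (nat_lit 1) (nat_lit 0x33002),.r (nat_lit 0x12ef) (nat_lit 4) [nat_lit 0x50021,nat_lit 0x4001,nat_lit 0x505431,
    nat_lit 0x440031],.c (nat_lit 1) (nat_lit 0x20232),.r (nat_lit 0x174c) (nat_lit 1) [nat_lit 0x2001,nat_lit 33,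
    nat_lit 0x305431],.c (nat_lit 0) (nat_lit 0x22003),.c (nat_lit 2) (nat_lit 0x33002),
    .c (nat_lit 3) (nat_lit 0x33002),.c (nat_lit 2) (nat_lit 0x20232),
    .r (nat_lit 0x1310) (nat_lit 4) [nat_lit 0x200001,nat_lit 0x300231,nat_lit 0x533201,nat_lit 0x202321],
    .r (nat_lit 0x174a) (nat_lit 8) [nat_lit 0x325431,nat_lit 0x330021,nat_lit 0x2001],
    .c (nat_lit 3) (nat_lit 0x22203),.c (nat_lit 7) (nat_lit 0x33002),
    .r (nat_lit 0x1774) (nat_lit 4) [nat_lit 0x20001,nat_lit 0x22031,nat_lit 0x200001,nat_lit 0x333201],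
    .r (nat_lit 0x1311) (nat_lit 4) [nat_lit 0x400001,nat_lit 0x224031,nat_lit 0x955401,nat_lit 0x330021],
    .c (nat_lit 3) (nat_lit 0x20232),.r (nat_lit 0x12ae) (nat_lit 4) [nat_lit 0x30021,nat_lit 0x4001,nat_lit 0x535431,
    nat_lit 0x420031],.c (nat_lit 0) (nat_lit 0x30323),.c (nat_lit 2) (nat_lit 0x62452),
    .c (nat_lit 7) (nat_lit 0x20232),.r (nat_lit 0x1310) (nat_lit 4) [nat_lit 0x200001,nat_lit 0x330021,
    nat_lit 0x533201,nat_lit 0x222031],.c (nat_lit 6) (nat_lit 0x33002),.c (nat_lit 6) (nat_lit 0x20232),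
    .r (nat_lit 0x1750) (nat_lit 1) [nat_lit 33,nat_lit 0x2001],.r (nat_lit 0x177a) (nat_lit 3) [nat_lit 0x533201,
    nat_lit 0x220001,nat_lit 0x2001,nat_lit 0x330021],.c (nat_lit 6) (nat_lit 803),.c (nat_lit 2) (nat_lit 2),
    .r (nat_lit 0x1749) (nat_lit 0) [nat_lit 0x955421,nat_lit 0x243231,nat_lit 0x2001],
    .r (nat_lit 8) (nat_lit 6) [nat_lit 0x420031,nat_lit 0x2001],.r (nat_lit 2) (nat_lit 4) [nat_lit 0x303201,
    nat_lit 33],.r (nat_lit 0x12e7) (nat_lit 4) [nat_lit 0x400001,nat_lit 0x4031,nat_lit 0x955401,nat_lit 33],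
    .r (nat_lit 0x1c02) (nat_lit 4) [nat_lit 0x20001,nat_lit 0x200001,nat_lit 0x22321,nat_lit 0x333201],
    .r (nat_lit 4) (nat_lit 1) [nat_lit 0x220001,nat_lit 0x202031],.c (nat_lit 2) (nat_lit 0x42232),
    .r (nat_lit 0x1c96) (nat_lit 4) [nat_lit 0x20001,nat_lit 0x200001,nat_lit 0x333201,nat_lit 0x244521],
    .r (nat_lit 0x1749) (nat_lit 0) [nat_lit 0x533221,nat_lit 0x325431,nat_lit 0x2001],
    .r (nat_lit 0x174a) (nat_lit 8) [nat_lit 0x527632,nat_lit 0x533222,nat_lit 0x2001],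
    .r (nat_lit 0x12ef) (nat_lit 4) [nat_lit 0x30231,nat_lit 0x4001,nat_lit 0x535221,nat_lit 0x420321],
    .r (nat_lit 8) (nat_lit 6) [nat_lit 0x3231,nat_lit 0x2001],.r (nat_lit 0x1a32) (nat_lit 9) [nat_lit 0x222321,
    nat_lit 0x3231,nat_lit 0x2001],.r (nat_lit 32) (nat_lit 9) [nat_lit 0x303201,nat_lit 33],
    .c (nat_lit 1) (nat_lit 0x22203),.r (nat_lit 0x1b6e) (nat_lit 8) [nat_lit 0x303201,nat_lit 0x2031,nat_lit 33],
    .c (nat_lit 0) (nat_lit 0x20003),.c (nat_lit 0) (nat_lit 0x20003),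
    .r (nat_lit 0x17b5) (nat_lit 3) [nat_lit 0x533201,nat_lit 0x220001,nat_lit 0x2001,nat_lit 0x400031],
    .c (nat_lit 3) (nat_lit 2),.r (nat_lit 0x1312) (nat_lit 4) [nat_lit 0x600001,nat_lit 0x6031,nat_lit 0xd77601,
    nat_lit 33],.r (nat_lit 0x12e7) (nat_lit 4) [nat_lit 0x400001,nat_lit 0x532231,nat_lit 0x955401,nat_lit 0x422321],
    .r (nat_lit 0x12f6) (nat_lit 4) [nat_lit 0x400001,nat_lit 0x4031,nat_lit 0x955401,nat_lit 33],
    .r (nat_lit 2) (nat_lit 4) [nat_lit 0x303201,nat_lit 0x422321],.r (nat_lit 0x1c02) (nat_lit 4) [nat_lit 0x20001,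
    nat_lit 0x200001,nat_lit 0x444521,nat_lit 0x333201],.r (nat_lit 0x1aa7) (nat_lit 8) [nat_lit 0x222321,
    nat_lit 0x220001,nat_lit 0x330231],.r (nat_lit 4) (nat_lit 1) [nat_lit 0x220001,nat_lit 0x330231],
    .r (nat_lit 0x1b6e) (nat_lit 8) [nat_lit 0x303201,nat_lit 0x300021,nat_lit 0x202031],
    .r (nat_lit 32) (nat_lit 8) [nat_lit 0x303201,nat_lit 33],.c (nat_lit 4) (nat_lit 2),
    .r (nat_lit 0x1749) (nat_lit 0) [nat_lit 33,nat_lit 0x707631,nat_lit 0x2001],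
    .r (nat_lit 0x174a) (nat_lit 8) [nat_lit 0x909832,nat_lit 34,nat_lit 0x2001],
    .r (nat_lit 8) (nat_lit 6) [nat_lit 0x535431,nat_lit 0x2001],.r (nat_lit 0x1a32) (nat_lit 9) [nat_lit 0x644521,
    nat_lit 0x535431,nat_lit 0x2001],.r (nat_lit 32) (nat_lit 9) [nat_lit 0x303201,nat_lit 0x422321],
    .r (nat_lit 0x1b6e) (nat_lit 8) [nat_lit 0x303201,nat_lit 0x530231,nat_lit 0x422321],
    .c (nat_lit 0) (nat_lit 0x33323),.c (nat_lit 0) (nat_lit 0x33323),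
    .r (nat_lit 0x17b5) (nat_lit 3) [nat_lit 0x533201,nat_lit 0x220001,nat_lit 0x2001,nat_lit 0x33231],
    .c (nat_lit 5) (nat_lit 2),.r (nat_lit 0x1aa7) (nat_lit 8) [nat_lit 0x2031,nat_lit 0x220001,nat_lit 33],
    .c (nat_lit 1) (nat_lit 0x2002),.c (nat_lit 7) (nat_lit 2)],
    .l (nat_lit 10) (nat_lit 240) (nat_lit 3) (nat_lit 0x59000000590000005a0000005a00000058000000640000005f0000005f0000005e000000620000005d0000005d0000005c0000005c) (nat_lit 0xb0000000b0000000a0000000a000000000000000c0000000500000005000000020000000600000007000000070000000800000008)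
    (nat_lit 0x1484e13c5313c431604a15c531385014451148521544f164471505415c53140521345513c531584c16848154551605413c53138541544f138561484e15c491984c14c531705011c43138481904e16c5b1585014c43140501644f1485a1986417c5f0f066174591983c1504a1245517c5b14858184591e07e184571505815c5517c5b1685214c591c87815c3d14c531305419850164590f0581c4611483c15c57198580f05614c611803c16c5b170601485014c53164431e07e16c6114056154551404e14c4f174531c87816c71158501545515451140540f0500f4571803c1545516054134511704e1985015c61170521545515058)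
    (nat_lit 0x148f03c0f03c0f03c0f03c0f03c0f03c0f0138523c0f03c0f03c0f03c0f03c0f03c0f013c55158f03c0f03c0f03c0f03c0f03c0f014c4f130563c0f03c0f03c0f03c0f03c0f013c5916852190f03c0f03c0f03c0f03c0f010c471204e138643c0f03c0f03c0f03c0f0160541545716c5f148f03c0f03c0f03c0f0128541544916c5f160523c0f03c0f03c0f015c57160661583c184530f0f03c0f03c0f014c531504c14066164591603c3c0f03c0f01385013c5314c5d1e0721c45b140f03c0f01405214c5310c591f8781845b158503c0f01444d1385c14066184571485c15455160f014455150501403c15c3d0f0601545515058)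
    (nat_lit 5) (nat_lit 47)
    [[nat_lit 2,nat_lit 0x10002,nat_lit 0x1002,nat_lit 17,nat_lit 273,nat_lit 0x10011,nat_lit 257,nat_lit 513,
    nat_lit 0x10101,nat_lit 0x1001,nat_lit 0x2001,nat_lit 0x11001,nat_lit 0x10001,nat_lit 0x100001,nat_lit 0x101001,
    nat_lit 0x110001,nat_lit 0x1000001,nat_lit 0x1000101,nat_lit 0x1001001,nat_lit 0x1010001],[nat_lit 32,nat_lit 272,
    nat_lit 0x10010,nat_lit 0x100010,nat_lit 0x110010,nat_lit 0x1000010,nat_lit 0x1010010],[nat_lit 512,nat_lit 768,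
    nat_lit 0x1200,nat_lit 0x10200,nat_lit 0x100200,nat_lit 0x1000200,nat_lit 0x1100,nat_lit 0x10100,nat_lit 0x110100,
    nat_lit 0x1010100,nat_lit 0x100100,nat_lit 0x1000100],[nat_lit 0x2000,nat_lit 0x11000,nat_lit 0x101000,
    nat_lit 0x201000,nat_lit 0x1001000],[nat_lit 0x20000,nat_lit 0x110000,nat_lit 0x210000,nat_lit 0x1110000,
    nat_lit 0x1010000,nat_lit 0x2010000],[nat_lit 0x200000,nat_lit 0x1100000],[nat_lit 0x2000000]]
    [.c (nat_lit 1) (nat_lit 2),.c (nat_lit 2) (nat_lit 0x42214a4),.c (nat_lit 5) (nat_lit 0x319085),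
    .r (nat_lit 0x1aef) (nat_lit 9) [nat_lit 0xc60010a2,nat_lit 0xc6028082,nat_lit 0x84020002],
    .c (nat_lit 2) (nat_lit 0x311404),.c (nat_lit 7) (nat_lit 0x6300085),.c (nat_lit 0) (nat_lit 0x200805),
    .c (nat_lit 0) (nat_lit 0x200803),.r (nat_lit 8) (nat_lit 3) [nat_lit 0xc03010a2,nat_lit 0x80200002],
    .c (nat_lit 0) (nat_lit 0x4201005),.c (nat_lit 0) (nat_lit 0x6000c02),.c (nat_lit 1) (nat_lit 0x319085),
    .c (nat_lit 3) (nat_lit 0x44100a4),.c (nat_lit 1) (nat_lit 0x802),.c (nat_lit 5) (nat_lit 0x318085),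
    .c (nat_lit 2) (nat_lit 0x42200a4),.c (nat_lit 0) (nat_lit 0x200803),.c (nat_lit 0) (nat_lit 0x200803),
    .r (nat_lit 0x166f) (nat_lit 11) [nat_lit 0x14e7430a2,nat_lit 0x62010a1,nat_lit 0x1142414a2,nat_lit 0x104201481],
    .c (nat_lit 2) (nat_lit 0x6300085),.c (nat_lit 2) (nat_lit 2),.c (nat_lit 0) (nat_lit 0x210005),
    .r (nat_lit 8) (nat_lit 3) [nat_lit 0xc60290a2,nat_lit 0x80200002],
    .r (nat_lit 0x1aef) (nat_lit 9) [nat_lit 0xc60290a2,nat_lit 0xc6000082,nat_lit 0x84020002],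
    .c (nat_lit 7) (nat_lit 0x6301485),.c (nat_lit 0) (nat_lit 0x210005),.c (nat_lit 1) (nat_lit 0x6300085),
    .c (nat_lit 3) (nat_lit 2),.r (nat_lit 0x14e4) (nat_lit 4) [nat_lit 0x1c076b0a2,nat_lit 0x4986634a2,nat_lit 129,
    nat_lit 0x1da66b082],.c (nat_lit 5) (nat_lit 0xa719484),.r (nat_lit 0x1564) (nat_lit 7) [nat_lit 0xca329041,
    nat_lit 0xc44290a2,nat_lit 0xc49410a2,nat_lit 0x88221482],.c (nat_lit 0) (nat_lit 0x200003),
    .c (nat_lit 0) (nat_lit 0x200803),.c (nat_lit 0) (nat_lit 0x4201005),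
    .r (nat_lit 0x1c42) (nat_lit 3) [nat_lit 0x80200002,nat_lit 65],.r (nat_lit 8) (nat_lit 3) [nat_lit 0xc03290a2,
    nat_lit 0x80200002],.r (nat_lit 0x1bd6) (nat_lit 7) [nat_lit 0x86000082,nat_lit 0x4010061],
    .c (nat_lit 0) (nat_lit 0x200003),.c (nat_lit 0) (nat_lit 0x200805),.c (nat_lit 4) (nat_lit 2),
    .r (nat_lit 0x1bd6) (nat_lit 7) [nat_lit 65,nat_lit 0x840200a2],.c (nat_lit 0) (nat_lit 0x4200005),
    .c (nat_lit 5) (nat_lit 0x319485),.r (nat_lit 0xba9) (nat_lit 3) [nat_lit 0xc4000082,nat_lit 0x802000a2,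
    nat_lit 0x800100a1,nat_lit 0x800000a1,nat_lit 0x246329182],.c (nat_lit 5) (nat_lit 2),
    .c (nat_lit 3) (nat_lit 0x44110a4),.c (nat_lit 2) (nat_lit 0x42210a4),.c (nat_lit 2) (nat_lit 0x6301485),
    .r (nat_lit 0x1c9f) (nat_lit 9) [nat_lit 65,nat_lit 0xc6018861,nat_lit 0x84020002],
    .c (nat_lit 2) (nat_lit 0x6321485),.c (nat_lit 6) (nat_lit 2),.c (nat_lit 0) (nat_lit 0x200003),
    .c (nat_lit 7) (nat_lit 2)]]

/-- nodes -/
noncomputable def rD7k_24_4 : List RJ :=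
  [.s (nat_lit 16) (nat_lit 0x21c0) (nat_lit 5) (nat_lit 0xbaa00000d2a000010940000109400000c1300000c1300000e2400000e2400000eb700000e1b00000f0000000f000000110400001104) (nat_lit 0x3da0000055a0000007000000070000004f1000004f1000002e0000002e0000002e90000024d00000204000002040000000000000000)
    (nat_lit 0x7d006940b3a08ce06b9061905a408ca08c10a6b0f96070a0baa0a660bbc07d006d20cba061308390a4a05a40a4105fb0b260b260f960e520cba08ce10240db81049118b12960fda0dab0e470d680e901094109406d20b3a102410240a610ba311d60f1a08ff0e470e900e9011341134083906190ba3118b05bc072209330a75092a05a4096f0ebb0c130c13061306b90a611049072205bc09330933062009c60a590d790c130c1305a408ca0f1a0fda09330a750b440b4407d10bd70c200f2a0e240dda0a4a05a411d61296093309330b440b4407d10bd709de0f2a0d160a7a05fb0a6b0e470e4709c605a40bd70bd708c40c6a105d101d11dd10f90a4108c108ff0dab0620092a07d107d10b3208c414a30c1710b70fd30b26070a0e900e900d790ebb0f2a0f2a0c17101d0b440cfc0f0006740b260f960e900d680a59096f09de0c2014a3105d0cfc0b4410440f000e520a66113410940c130c130a7a0dda0fd310f90f0006740b1411040f960baa113410940c130c130d160e2410b711dd10440f0010c00b14)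
    (nat_lit 0x7d021c021c021c021c021c021c021c021c021c021c021c021c021c0069407d021c021c021c021c021c021c021c021c021c021c021c021c00b3a06d20fa021c021c021c021c021c021c021c021c021c021c021c008ce0cba0db80fa021c021c021c021c021c021c021c021c021c021c006b906130ee10a6105bc21c021c021c021c021c021c021c021c021c00619083911070ba3072205bc21c021c021c021c021c021c021c021c005a40a4a125e0c76093309330b4421c021c021c021c021c021c021c008ca05a40e720f1a0a7509330b440b4421c021c021c021c021c021c008c10a410dab08ff092a062007d107d108c421c021c021c021c021c00a6b05fb0e470e4705a409c60bd70b9f0c6a08c421c021c021c021c00f960b260d680e90096f0a590c2009de0ffd0f8f0b4421c021c021c0070a0b260e900ddc0ebb0d1d0cae0f2a0d050c170cfc0b4421c021c00baa0f96109411340c130c130e240d1611a510b70f0010440b1421c00a660e52109411340c130c130dda0a7a10610fd306740f0011040b14)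
    (nat_lit 5) (nat_lit 161)
    [[nat_lit 0,nat_lit 0,nat_lit 6],[nat_lit 0,nat_lit 0,nat_lit 7],[nat_lit 0,nat_lit 1,nat_lit 6],[nat_lit 0,
    nat_lit 1,nat_lit 7],[nat_lit 0,nat_lit 4],[nat_lit 0,nat_lit 5],[nat_lit 0,nat_lit 6,nat_lit 0],[nat_lit 0,
    nat_lit 7,nat_lit 0],[nat_lit 0,nat_lit 12,nat_lit 6,nat_lit 3],[nat_lit 1,nat_lit 1,nat_lit 6],[nat_lit 1,
    nat_lit 1,nat_lit 7],[nat_lit 1,nat_lit 2,nat_lit 7,nat_lit 13],[nat_lit 1,nat_lit 4],[nat_lit 1,nat_lit 5],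
    [nat_lit 1,nat_lit 6,nat_lit 1],[nat_lit 1,nat_lit 7,nat_lit 1],[nat_lit 2,nat_lit 4,nat_lit 13],[nat_lit 2,
    nat_lit 5,nat_lit 13],[nat_lit 2,nat_lit 12,nat_lit 4],[nat_lit 2,nat_lit 12,nat_lit 5],[nat_lit 2,nat_lit 13,
    nat_lit 4],[nat_lit 2,nat_lit 13,nat_lit 5],[nat_lit 3,nat_lit 4,nat_lit 12],[nat_lit 3,nat_lit 4,nat_lit 13],
    [nat_lit 3,nat_lit 5,nat_lit 12],[nat_lit 3,nat_lit 5,nat_lit 13],[nat_lit 3,nat_lit 12,nat_lit 4],[nat_lit 3,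
    nat_lit 12,nat_lit 5],[nat_lit 6,nat_lit 10],[nat_lit 6,nat_lit 11],[nat_lit 7,nat_lit 10],[nat_lit 7,nat_lit 11],
    [nat_lit 8,nat_lit 8,nat_lit 10],[nat_lit 8,nat_lit 8,nat_lit 11],[nat_lit 8,nat_lit 9,nat_lit 10],[nat_lit 8,
    nat_lit 9,nat_lit 11],[nat_lit 8,nat_lit 10,nat_lit 8],[nat_lit 8,nat_lit 11,nat_lit 8],[nat_lit 9,nat_lit 9,
    nat_lit 10],[nat_lit 9,nat_lit 9,nat_lit 11],[nat_lit 9,nat_lit 10,nat_lit 9],[nat_lit 9,nat_lit 11,nat_lit 9]]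
    [nat_lit 0x1006,nat_lit 0x1007,nat_lit 0x1016,nat_lit 0x1017,nat_lit 260,nat_lit 261,nat_lit 0x1060,
    nat_lit 0x1070,nat_lit 0x10c63,nat_lit 0x1116,nat_lit 0x1117,nat_lit 0x1127d,nat_lit 276,nat_lit 277,
    nat_lit 0x1161,nat_lit 0x1171,nat_lit 0x124d,nat_lit 0x125d,nat_lit 0x12c4,nat_lit 0x12c5,nat_lit 0x12d4,
    nat_lit 0x12d5,nat_lit 0x134c,nat_lit 0x134d,nat_lit 0x135c,nat_lit 0x135d,nat_lit 0x13c4,nat_lit 0x13c5,
    nat_lit 362,nat_lit 363,nat_lit 378,nat_lit 379,nat_lit 0x188a,nat_lit 0x188b,nat_lit 0x189a,nat_lit 0x189b,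
    nat_lit 0x18a8,nat_lit 0x18b8,nat_lit 0x199a,nat_lit 0x199b,nat_lit 0x19a9,nat_lit 0x19b9]
    [[[nat_lit 0,nat_lit 0,nat_lit 6],[nat_lit 0,nat_lit 0,nat_lit 7],[nat_lit 0,nat_lit 1,nat_lit 6],[nat_lit 0,
    nat_lit 1,nat_lit 7],[nat_lit 0,nat_lit 4],[nat_lit 0,nat_lit 5],[nat_lit 0,nat_lit 6,nat_lit 0],[nat_lit 0,
    nat_lit 7,nat_lit 0],[nat_lit 0,nat_lit 12,nat_lit 6,nat_lit 3],[nat_lit 1,nat_lit 1,nat_lit 6],[nat_lit 1,
    nat_lit 1,nat_lit 7],[nat_lit 1,nat_lit 2,nat_lit 7,nat_lit 13]],[[nat_lit 1,nat_lit 4],[nat_lit 1,nat_lit 5],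
    [nat_lit 1,nat_lit 6,nat_lit 0],[nat_lit 1,nat_lit 6,nat_lit 1],[nat_lit 1,nat_lit 7,nat_lit 0],[nat_lit 1,
    nat_lit 7,nat_lit 1],[nat_lit 2,nat_lit 4,nat_lit 13],[nat_lit 2,nat_lit 5,nat_lit 13],[nat_lit 2,nat_lit 7,
    nat_lit 13,nat_lit 1],[nat_lit 2,nat_lit 12,nat_lit 4],[nat_lit 2,nat_lit 12,nat_lit 5],[nat_lit 2,nat_lit 13,
    nat_lit 4]],[[nat_lit 2,nat_lit 13,nat_lit 5],[nat_lit 3,nat_lit 0,nat_lit 12,nat_lit 6],[nat_lit 3,nat_lit 4,
    nat_lit 12],[nat_lit 3,nat_lit 4,nat_lit 13],[nat_lit 3,nat_lit 5,nat_lit 12],[nat_lit 3,nat_lit 5,nat_lit 13],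
    [nat_lit 3,nat_lit 12,nat_lit 4],[nat_lit 3,nat_lit 12,nat_lit 5],[nat_lit 4,nat_lit 0],[nat_lit 4,nat_lit 1],
    [nat_lit 4,nat_lit 2,nat_lit 12],[nat_lit 4,nat_lit 2,nat_lit 13]],[[nat_lit 4,nat_lit 3,nat_lit 12],[nat_lit 4,
    nat_lit 12,nat_lit 3],[nat_lit 4,nat_lit 13,nat_lit 2],[nat_lit 4,nat_lit 13,nat_lit 3],[nat_lit 5,nat_lit 0],
    [nat_lit 5,nat_lit 1],[nat_lit 5,nat_lit 2,nat_lit 12],[nat_lit 5,nat_lit 2,nat_lit 13],[nat_lit 5,nat_lit 3,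
    nat_lit 12],[nat_lit 5,nat_lit 12,nat_lit 3],[nat_lit 5,nat_lit 13,nat_lit 2],[nat_lit 5,nat_lit 13,nat_lit 3]],
    [[nat_lit 6,nat_lit 0,nat_lit 0],[nat_lit 6,nat_lit 0,nat_lit 1],[nat_lit 6,nat_lit 1,nat_lit 1],[nat_lit 6,
    nat_lit 3,nat_lit 0,nat_lit 12],[nat_lit 6,nat_lit 10],[nat_lit 6,nat_lit 11],[nat_lit 7,nat_lit 0,nat_lit 0],
    [nat_lit 7,nat_lit 0,nat_lit 1],[nat_lit 7,nat_lit 1,nat_lit 1],[nat_lit 7,nat_lit 10],[nat_lit 7,nat_lit 11],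
    [nat_lit 7,nat_lit 13,nat_lit 1,nat_lit 2]],[[nat_lit 8,nat_lit 8,nat_lit 10],[nat_lit 8,nat_lit 8,nat_lit 11],
    [nat_lit 8,nat_lit 9,nat_lit 10],[nat_lit 8,nat_lit 9,nat_lit 11],[nat_lit 8,nat_lit 10,nat_lit 8],[nat_lit 8,
    nat_lit 11,nat_lit 8],[nat_lit 9,nat_lit 9,nat_lit 10],[nat_lit 9,nat_lit 9,nat_lit 11],[nat_lit 9,nat_lit 10,
    nat_lit 8],[nat_lit 9,nat_lit 10,nat_lit 9],[nat_lit 9,nat_lit 11,nat_lit 8],[nat_lit 9,nat_lit 11,nat_lit 9]],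
    [[nat_lit 10,nat_lit 6],[nat_lit 10,nat_lit 7],[nat_lit 10,nat_lit 8,nat_lit 8],[nat_lit 10,nat_lit 8,nat_lit 9],
    [nat_lit 10,nat_lit 9,nat_lit 9],[nat_lit 11,nat_lit 6],[nat_lit 11,nat_lit 7],[nat_lit 11,nat_lit 8,nat_lit 8],
    [nat_lit 11,nat_lit 8,nat_lit 9],[nat_lit 11,nat_lit 9,nat_lit 9],[nat_lit 12,nat_lit 3,nat_lit 4],[nat_lit 12,
    nat_lit 3,nat_lit 5]],[[nat_lit 12,nat_lit 4,nat_lit 2],[nat_lit 12,nat_lit 4,nat_lit 3],[nat_lit 12,nat_lit 5,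
    nat_lit 2],[nat_lit 12,nat_lit 5,nat_lit 3],[nat_lit 12,nat_lit 6,nat_lit 3,nat_lit 0],[nat_lit 13,nat_lit 1,
    nat_lit 2,nat_lit 7],[nat_lit 13,nat_lit 2,nat_lit 4],[nat_lit 13,nat_lit 2,nat_lit 5],[nat_lit 13,nat_lit 3,
    nat_lit 4],[nat_lit 13,nat_lit 3,nat_lit 5],[nat_lit 13,nat_lit 4,nat_lit 2],[nat_lit 13,nat_lit 5,nat_lit 2]]]
    [[nat_lit 6,nat_lit 7,nat_lit 14,nat_lit 16,nat_lit 32,nat_lit 40,nat_lit 48,nat_lit 54,nat_lit 88,nat_lit 15,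
    nat_lit 17,nat_lit 20],[nat_lit 33,nat_lit 41,nat_lit 49,nat_lit 50,nat_lit 55,nat_lit 56,nat_lit 38,nat_lit 46,
    nat_lit 59,nat_lit 84,nat_lit 86,nat_lit 94],[nat_lit 95,nat_lit 8,nat_lit 37,nat_lit 39,nat_lit 45,nat_lit 47,
    nat_lit 85,nat_lit 87,nat_lit 4,nat_lit 12,nat_lit 21,nat_lit 23],[nat_lit 30,nat_lit 82,nat_lit 90,nat_lit 92,
    nat_lit 5,nat_lit 13,nat_lit 22,nat_lit 24,nat_lit 31,nat_lit 83,nat_lit 91,nat_lit 93],[nat_lit 0,nat_lit 2,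
    nat_lit 9,nat_lit 25,nat_lit 72,nat_lit 77,nat_lit 1,nat_lit 3,nat_lit 10,nat_lit 73,nat_lit 78,nat_lit 89],
    [nat_lit 64,nat_lit 65,nat_lit 68,nat_lit 70,nat_lit 74,nat_lit 79,nat_lit 69,nat_lit 71,nat_lit 75,nat_lit 76,
    nat_lit 80,nat_lit 81],[nat_lit 52,nat_lit 57,nat_lit 60,nat_lit 62,nat_lit 66,nat_lit 53,nat_lit 58,nat_lit 61,
    nat_lit 63,nat_lit 67,nat_lit 26,nat_lit 28],[nat_lit 34,nat_lit 36,nat_lit 42,nat_lit 44,nat_lit 51,nat_lit 11,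
    nat_lit 18,nat_lit 19,nat_lit 27,nat_lit 29,nat_lit 35,nat_lit 43]]
    [[nat_lit 48,nat_lit 54,nat_lit 49,nat_lit 55,nat_lit 32,nat_lit 40,nat_lit 0,nat_lit 1,nat_lit 25,nat_lit 50,
    nat_lit 56,nat_lit 89],[nat_lit 33,nat_lit 41,nat_lit 2,nat_lit 9,nat_lit 3,nat_lit 10,nat_lit 90,nat_lit 91,
    nat_lit 11,nat_lit 34,nat_lit 42,nat_lit 35],[nat_lit 43,nat_lit 51,nat_lit 82,nat_lit 92,nat_lit 83,nat_lit 93,
    nat_lit 36,nat_lit 44,nat_lit 4,nat_lit 12,nat_lit 84,nat_lit 94],[nat_lit 85,nat_lit 26,nat_lit 18,nat_lit 27,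
    nat_lit 5,nat_lit 13,nat_lit 86,nat_lit 95,nat_lit 87,nat_lit 28,nat_lit 19,nat_lit 29],[nat_lit 6,nat_lit 14,
    nat_lit 15,nat_lit 88,nat_lit 72,nat_lit 77,nat_lit 7,nat_lit 16,nat_lit 17,nat_lit 73,nat_lit 78,nat_lit 20],
    [nat_lit 74,nat_lit 79,nat_lit 75,nat_lit 80,nat_lit 60,nat_lit 61,nat_lit 76,nat_lit 81,nat_lit 62,nat_lit 66,
    nat_lit 63,nat_lit 67],[nat_lit 52,nat_lit 57,nat_lit 64,nat_lit 68,nat_lit 69,nat_lit 53,nat_lit 58,nat_lit 65,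
    nat_lit 70,nat_lit 71,nat_lit 37,nat_lit 45],[nat_lit 21,nat_lit 30,nat_lit 22,nat_lit 31,nat_lit 8,nat_lit 59,
    nat_lit 38,nat_lit 46,nat_lit 39,nat_lit 47,nat_lit 23,nat_lit 24]]
    [[[nat_lit 84,nat_lit 86],[nat_lit 84,nat_lit 86],[],[],[],[nat_lit 85,nat_lit 87],[],[nat_lit 83],[nat_lit 88],
    [nat_lit 27,nat_lit 29],[nat_lit 27,nat_lit 29],[nat_lit 30]],[[nat_lit 25],[],[],[],[nat_lit 31],[nat_lit 31],
    [nat_lit 0,nat_lit 2],[nat_lit 8],[nat_lit 5],[nat_lit 6,nat_lit 7],[nat_lit 6,nat_lit 7],[]],[[],[nat_lit 46],[],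
    [],[nat_lit 45,nat_lit 47],[nat_lit 45,nat_lit 47],[nat_lit 40],[nat_lit 40],[],[nat_lit 18,nat_lit 19],
    [nat_lit 21,nat_lit 23],[nat_lit 21,nat_lit 23]],[[nat_lit 20],[],[],[],[nat_lit 59],[],[],[],[nat_lit 55,
    nat_lit 56],[nat_lit 54],[nat_lit 58],[nat_lit 58]],[[nat_lit 38],[nat_lit 38],[nat_lit 35],[nat_lit 33],
    [nat_lit 34,nat_lit 36],[],[],[],[],[],[nat_lit 69,nat_lit 71],[nat_lit 67]],[[nat_lit 52],[nat_lit 52],[],[],
    [nat_lit 51],[],[nat_lit 78],[nat_lit 78],[],[],[nat_lit 80,nat_lit 81],[nat_lit 80,nat_lit 81]],[[nat_lit 64,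
    nat_lit 65],[],[nat_lit 60,nat_lit 62],[nat_lit 60,nat_lit 62],[],[],[nat_lit 91,nat_lit 93],[],[],[nat_lit 89],
    [],[]],[[nat_lit 72],[nat_lit 72],[],[],[nat_lit 74],[nat_lit 11],[nat_lit 12],[nat_lit 12],[nat_lit 15,
    nat_lit 17],[nat_lit 15,nat_lit 17],[nat_lit 9],[]]]
    (nat_lit 96) [nat_lit 0,nat_lit 1,nat_lit 2,nat_lit 3,nat_lit 4,nat_lit 5,nat_lit 6,nat_lit 7,nat_lit 8,nat_lit 9,
    nat_lit 10,nat_lit 11,nat_lit 12,nat_lit 13,nat_lit 15,nat_lit 17,nat_lit 18,nat_lit 19,nat_lit 21,nat_lit 22,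
    nat_lit 23,nat_lit 24,nat_lit 26,nat_lit 27,nat_lit 28,nat_lit 29,nat_lit 30,nat_lit 31,nat_lit 52,nat_lit 53,
    nat_lit 57,nat_lit 58,nat_lit 60,nat_lit 61,nat_lit 62,nat_lit 63,nat_lit 64,nat_lit 65,nat_lit 66,nat_lit 67,
    nat_lit 69,nat_lit 71]
    [[[nat_lit 6,nat_lit 7],[],[],[nat_lit 8],[nat_lit 4],[nat_lit 5],[nat_lit 0,nat_lit 2],[nat_lit 1,nat_lit 3],[],
    [],[],[],[],[]],[[nat_lit 14,nat_lit 16],[nat_lit 15,nat_lit 17],[],[],[nat_lit 12],[nat_lit 13],[nat_lit 9],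
    [nat_lit 10],[],[],[],[],[],[nat_lit 11]],[[],[nat_lit 20],[],[],[nat_lit 21,nat_lit 23],[nat_lit 22,nat_lit 24],
    [],[],[],[],[],[],[],[nat_lit 18,nat_lit 19]],[[],[],[],[],[nat_lit 30],[nat_lit 31],[nat_lit 25],[],[],[],[],[],
    [nat_lit 26,nat_lit 28],[nat_lit 27,nat_lit 29]],[[nat_lit 32],[nat_lit 33],[nat_lit 38],[nat_lit 37,nat_lit 39],
    [],[],[],[],[],[],[],[],[nat_lit 34,nat_lit 36],[nat_lit 35]],[[nat_lit 40],[nat_lit 41],[nat_lit 46],[nat_lit 45,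
    nat_lit 47],[],[],[],[],[],[],[],[],[nat_lit 42,nat_lit 44],[nat_lit 43]],[[nat_lit 48],[nat_lit 49,nat_lit 50],
    [],[],[],[],[],[],[],[],[nat_lit 52],[nat_lit 53],[nat_lit 51],[]],[[nat_lit 54],[nat_lit 55,nat_lit 56],
    [nat_lit 59],[],[],[],[],[],[],[],[nat_lit 57],[nat_lit 58],[],[]],[[],[],[],[],[],[],[],[],[nat_lit 64,
    nat_lit 65],[],[nat_lit 60,nat_lit 62],[nat_lit 61,nat_lit 63],[],[]],[[],[],[],[],[],[],[],[],[nat_lit 68,
    nat_lit 70],[nat_lit 69,nat_lit 71],[nat_lit 66],[nat_lit 67],[],[]],[[],[],[],[],[],[],[nat_lit 72],[nat_lit 73],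
    [nat_lit 74],[nat_lit 75,nat_lit 76],[],[],[],[]],[[],[],[],[],[],[],[nat_lit 77],[nat_lit 78],[nat_lit 79],
    [nat_lit 80,nat_lit 81],[],[],[],[]],[[nat_lit 88],[],[nat_lit 84,nat_lit 86],[nat_lit 85,nat_lit 87],
    [nat_lit 82],[nat_lit 83],[],[],[],[],[],[],[],[]],[[],[],[nat_lit 94,nat_lit 95],[],[nat_lit 90,nat_lit 92],
    [nat_lit 91,nat_lit 93],[],[nat_lit 89],[],[],[],[],[],[]]]
    [[[nat_lit 0x5000000000000000000000,nat_lit 0x5000000000000000000000,nat_lit 0,nat_lit 0,nat_lit 0,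
    nat_lit 0xa000000000000000000000,nat_lit 0,nat_lit 0x800000000000000000000,nat_lit 0x10000000000000000000000],
    [nat_lit 0x28000000,nat_lit 0x28000000,nat_lit 0x40000000,nat_lit 0x2000000,nat_lit 0,nat_lit 0,nat_lit 0,
    nat_lit 0x80000000,nat_lit 0x80000000],[nat_lit 5,nat_lit 256,nat_lit 32,nat_lit 192,nat_lit 192,nat_lit 0,
    nat_lit 0,nat_lit 0x400000000000,nat_lit 0],[nat_lit 0,nat_lit 0xa00000000000,nat_lit 0xa00000000000,
    nat_lit 0x10000000000,nat_lit 0x10000000000,nat_lit 0,nat_lit 0xc0000,nat_lit 0xa00000,nat_lit 0xa00000],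
    [nat_lit 0x100000,nat_lit 0,nat_lit 0,nat_lit 0,nat_lit 0x800000000000000,nat_lit 0,nat_lit 0,nat_lit 0,
    nat_lit 0x180000000000000],[nat_lit 0x40000000000000,nat_lit 0x400000000000000,nat_lit 0x400000000000000,
    nat_lit 0x4000000000,nat_lit 0x4000000000,nat_lit 0x800000000,nat_lit 0x200000000,nat_lit 0x1400000000,nat_lit 0],
    [nat_lit 0,nat_lit 0,nat_lit 0,nat_lit 0,nat_lit 0xa00000000000000000,nat_lit 0x80000000000000000,
    nat_lit 0x10000000000000,nat_lit 0x10000000000000,nat_lit 0],[nat_lit 0,nat_lit 0x8000000000000,nat_lit 0,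
    nat_lit 0x40000000000000000000,nat_lit 0x40000000000000000000,nat_lit 0,nat_lit 0,nat_lit 0x300000000000000000000,
    nat_lit 0x300000000000000000000],[nat_lit 0x30000000000000000,nat_lit 0,nat_lit 0x5000000000000000,
    nat_lit 0x5000000000000000,nat_lit 0,nat_lit 0,nat_lit 0x280000000000000000000000,nat_lit 0,nat_lit 0]],
    [[nat_lit 0x20000000000000000000000,nat_lit 0,nat_lit 0,nat_lit 0x1000000000000000000,
    nat_lit 0x1000000000000000000,nat_lit 0,nat_lit 0,nat_lit 0x4000000000000000000,nat_lit 0x800],[nat_lit 0x1000,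
    nat_lit 0x1000,nat_lit 0x28000,nat_lit 0x28000,nat_lit 512,nat_lit 0]]]
    [[[[nat_lit 0,nat_lit 0,nat_lit 0,nat_lit 0,nat_lit 0,nat_lit 0x8000000000000000000000,nat_lit 0,nat_lit 0,
    nat_lit 0],[nat_lit 0,nat_lit 0x20000000,nat_lit 0,nat_lit 0x2000000,nat_lit 0,nat_lit 0,nat_lit 0,nat_lit 0,
    nat_lit 0],[nat_lit 0,nat_lit 0,nat_lit 32,nat_lit 64,nat_lit 0,nat_lit 0,nat_lit 0,nat_lit 0,nat_lit 0],
    [nat_lit 0,nat_lit 0,nat_lit 0,nat_lit 0,nat_lit 0,nat_lit 0,nat_lit 0,nat_lit 0,nat_lit 0],[nat_lit 0,nat_lit 0,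
    nat_lit 0,nat_lit 0,nat_lit 0,nat_lit 0,nat_lit 0,nat_lit 0,nat_lit 0x100000000000000],[nat_lit 0,nat_lit 0,
    nat_lit 0x400000000000000,nat_lit 0x4000000000,nat_lit 0,nat_lit 0,nat_lit 0,nat_lit 0x400000000,nat_lit 0],
    [nat_lit 0,nat_lit 0,nat_lit 0,nat_lit 0,nat_lit 0x800000000000000000,nat_lit 0,nat_lit 0x10000000000000,
    nat_lit 0,nat_lit 0],[nat_lit 0,nat_lit 0,nat_lit 0,nat_lit 0,nat_lit 0,nat_lit 0,nat_lit 0,nat_lit 0,nat_lit 0],
    [nat_lit 0,nat_lit 0,nat_lit 0,nat_lit 0,nat_lit 0,nat_lit 0,nat_lit 0,nat_lit 0,nat_lit 0]],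
    [[nat_lit 0x20000000000000000000000,nat_lit 0,nat_lit 0,nat_lit 0,nat_lit 0,nat_lit 0,nat_lit 0,
    nat_lit 0x4000000000000000000,nat_lit 0],[nat_lit 0x1000,nat_lit 0,nat_lit 0,nat_lit 0,nat_lit 0,nat_lit 0]]]]
    (nat_lit 1) (nat_lit 1) (nat_lit 8)
    [[nat_lit 2,nat_lit 3,nat_lit 17,nat_lit 0x1000101,nat_lit 0x1001,nat_lit 0x1011,nat_lit 0x1001001,
    nat_lit 0x10001,nat_lit 0x10011,nat_lit 0x11001,nat_lit 0x20001,nat_lit 0x1010001,nat_lit 0x10101,nat_lit 0x20011,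
    nat_lit 0x1000001,nat_lit 0x1000011,nat_lit 0x1010011],[nat_lit 32,nat_lit 0x1000020,nat_lit 272,nat_lit 0x1010,
    nat_lit 0x1001110,nat_lit 0x1001010,nat_lit 0x1011010,nat_lit 0x2001010,nat_lit 0x10010,nat_lit 0x10020,
    nat_lit 0x10110,nat_lit 0x1010110,nat_lit 0x20010,nat_lit 0x1020010,nat_lit 0x1010010,nat_lit 0x2010010,
    nat_lit 0x100010,nat_lit 0x1100010,nat_lit 0x1000010,nat_lit 0x2000110,nat_lit 0x2000010],[nat_lit 512,
    nat_lit 768,nat_lit 0x10300,nat_lit 0x1000300,nat_lit 0x1200,nat_lit 0x11200,nat_lit 0x1001200,nat_lit 0x10200,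
    nat_lit 0x20200,nat_lit 0x1010200,nat_lit 0x20300,nat_lit 0x30200,nat_lit 0x1020200,nat_lit 0x100200,
    nat_lit 0x1100200,nat_lit 0x1000200,nat_lit 0x2000200,nat_lit 0x1100,nat_lit 0x2100,nat_lit 0x1002100,
    nat_lit 0x11100,nat_lit 0x21100,nat_lit 0x1011100,nat_lit 0x1001100,nat_lit 0x1011200,nat_lit 0x2002100,
    nat_lit 0x1021100,nat_lit 0x2011100,nat_lit 0x2001100,nat_lit 0x10100,nat_lit 0x20100,nat_lit 0x30100,
    nat_lit 0x40100,nat_lit 0x1030100,nat_lit 0x1020100,nat_lit 0x2020100,nat_lit 0x1010100,nat_lit 0x2010100,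
    nat_lit 0x110100,nat_lit 0x1110100,nat_lit 0x2010200,nat_lit 0x100100,nat_lit 0x1100100,nat_lit 0x2100100,
    nat_lit 0x1000100,nat_lit 0x2000100,nat_lit 0x3000100],[nat_lit 0x2000,nat_lit 0x12000,nat_lit 0x1012000,
    nat_lit 0x1002000,nat_lit 0x2002000,nat_lit 0x11000,nat_lit 0x21000,nat_lit 0x31000,nat_lit 0x1031000,
    nat_lit 0x1021000,nat_lit 0x2021000,nat_lit 0x1011000,nat_lit 0x2012000,nat_lit 0x2011000,nat_lit 0x1101000,
    nat_lit 0x1001000,nat_lit 0x3002000,nat_lit 0x3011000,nat_lit 0x2101000,nat_lit 0x2001000,nat_lit 0x3001000],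
    [nat_lit 0x20000,nat_lit 0x30000,nat_lit 0x40000,nat_lit 0x50000,nat_lit 0x1040000,nat_lit 0x1030000,
    nat_lit 0x2030000,nat_lit 0x1120000,nat_lit 0x1020000,nat_lit 0x2020000,nat_lit 0x2120000,nat_lit 0x3020000,
    nat_lit 0x110000,nat_lit 0x1110000,nat_lit 0x1010000,nat_lit 0x2110000,nat_lit 0x2010000,nat_lit 0x3010000],
    [nat_lit 0x200000,nat_lit 0x1200000,nat_lit 0x1100000,nat_lit 0x2100000,nat_lit 0x2200000,nat_lit 0x3100000],
    [nat_lit 0x2000000,nat_lit 0x3000000,nat_lit 0x4000000]]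
    [.c (nat_lit 1) (nat_lit 2),.r (nat_lit 0x1750) (nat_lit 8) [nat_lit 0x82300a2,nat_lit 0x18041],
    .c (nat_lit 0) (nat_lit 0x6018085),.c (nat_lit 0) (nat_lit 0x18c04),.c (nat_lit 5) (nat_lit 0x4500c04),
    .c (nat_lit 0) (nat_lit 0x6018085),.c (nat_lit 0) (nat_lit 0x6018085),.c (nat_lit 0) (nat_lit 0x4000805),
    .c (nat_lit 2) (nat_lit 0x6000c04),.c (nat_lit 4) (nat_lit 0x6000c04),.c (nat_lit 5) (nat_lit 0x6000c04),
    .c (nat_lit 7) (nat_lit 0x6000c04),.c (nat_lit 1) (nat_lit 0x4011005),.c (nat_lit 0) (nat_lit 0x4518085),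
    .c (nat_lit 0) (nat_lit 0x6018085),.c (nat_lit 1) (nat_lit 0x44110a4),.c (nat_lit 1) (nat_lit 0x4108a4),
    .c (nat_lit 2) (nat_lit 2),.c (nat_lit 0) (nat_lit 0x6318c83),.c (nat_lit 0) (nat_lit 0x6500c85),
    .c (nat_lit 0) (nat_lit 0x6318c83),.c (nat_lit 1) (nat_lit 0x6000885),.c (nat_lit 5) (nat_lit 0x80108a4),
    .c (nat_lit 4) (nat_lit 0x4108a4),.c (nat_lit 0) (nat_lit 0x6318c83),.c (nat_lit 0) (nat_lit 0x518c85),
    .c (nat_lit 0) (nat_lit 0x6729505),.r (nat_lit 0x1c9f) (nat_lit 12) [nat_lit 0x4000001,nat_lit 0x800100a2,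
    nat_lit 0xca019002],.c (nat_lit 1) (nat_lit 0x300043),.c (nat_lit 0) (nat_lit 0x518c83),
    .c (nat_lit 5) (nat_lit 0x4108a4),.c (nat_lit 0) (nat_lit 0x518c85),.c (nat_lit 7) (nat_lit 0x4108a4),
    .r (nat_lit 32) (nat_lit 11) [nat_lit 0x80010002,nat_lit 65],.r (nat_lit 0x1750) (nat_lit 8) [nat_lit 0xc00190a2,
    nat_lit 0x88221482],.c (nat_lit 0) (nat_lit 0x6519485),.c (nat_lit 0) (nat_lit 0x44008a4),
    .c (nat_lit 0) (nat_lit 0x6318c83),.c (nat_lit 3) (nat_lit 2),.c (nat_lit 0) (nat_lit 0x38004),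
    .c (nat_lit 0) (nat_lit 0xc038004),.c (nat_lit 0) (nat_lit 0x38004),.c (nat_lit 1) (nat_lit 0x211003),
    .c (nat_lit 1) (nat_lit 0x4422805),.c (nat_lit 0) (nat_lit 0x218002),.c (nat_lit 1) (nat_lit 0x4021805),
    .c (nat_lit 1) (nat_lit 0x4011003),.c (nat_lit 0) (nat_lit 0x4018002),.c (nat_lit 0) (nat_lit 0xc038004),
    .c (nat_lit 1) (nat_lit 0xc022805),.c (nat_lit 0) (nat_lit 0x4018002),.c (nat_lit 0) (nat_lit 0x18002),
    .c (nat_lit 0) (nat_lit 0x44188a4),.c (nat_lit 0) (nat_lit 0x18002),.c (nat_lit 2) (nat_lit 0x6500c83),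
    .r (nat_lit 0x1750) (nat_lit 8) [nat_lit 65,nat_lit 0x82100a2],.r (nat_lit 0x6d7) (nat_lit 0) [nat_lit 0x102000a1,
    nat_lit 0x2da95d0a2,nat_lit 0x102500a2,nat_lit 0xa400041,nat_lit 0x4300081],
    .r (nat_lit 0x6d8) (nat_lit 6) [nat_lit 0x4010001,nat_lit 0x210002,nat_lit 0xc80310a2,nat_lit 0x12358082,
    nat_lit 0x18001],.r (nat_lit 0x6d9) (nat_lit 3) [nat_lit 0xca600082,nat_lit 0x1da74c0a2,nat_lit 0x882400a2,
    nat_lit 0x882000a1,nat_lit 0x18a300082],.r (nat_lit 0x6d7) (nat_lit 0) [nat_lit 0x1082000a1,nat_lit 0x1e295d0a2,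
    nat_lit 0x1082500a2,nat_lit 0xc6400041,nat_lit 0x14c300081],.r (nat_lit 0x1621) (nat_lit 9) [nat_lit 0xca200082,
    nat_lit 0x8000001,nat_lit 0x8a300082,nat_lit 0x882200a2],.r (nat_lit 32) (nat_lit 11) [nat_lit 0x80010002,
    nat_lit 0xc00190a2],.c (nat_lit 0) (nat_lit 0x6628004),.r (nat_lit 0x6da) (nat_lit 6) [nat_lit 0x8020001,
    nat_lit 0x210001,nat_lit 0x1403120a2,nat_lit 0x12358082,nat_lit 0x28001],
    .r (nat_lit 0x6d8) (nat_lit 6) [nat_lit 0x4010001,nat_lit 0x210002,nat_lit 0x800310a2,nat_lit 0x14a358082,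
    nat_lit 0x18001],.r (nat_lit 0x6db) (nat_lit 9) [nat_lit 0x210001,nat_lit 0x8020001,nat_lit 0x80010001,
    nat_lit 0x28001,nat_lit 0xca348082],.r (nat_lit 0x1183) (nat_lit 6) [nat_lit 0xc000001,nat_lit 0x6200041,
    nat_lit 0x1d253b0a2,nat_lit 0x82300a2],.c (nat_lit 4) (nat_lit 0x6418004),
    .r (nat_lit 0x1750) (nat_lit 8) [nat_lit 0xc4000041,nat_lit 0x1002100a2],
    .r (nat_lit 0x6d9) (nat_lit 3) [nat_lit 0x1c0600082,nat_lit 0xe274c0a2,nat_lit 0x1802400a2,nat_lit 0x1802000a1,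
    nat_lit 0x80300082],.r (nat_lit 0x6d7) (nat_lit 0) [nat_lit 0x2002000a1,nat_lit 0xea95d0a2,nat_lit 0x2002500a2,
    nat_lit 0x140400041,nat_lit 0x254300081],.r (nat_lit 0x1621) (nat_lit 9) [nat_lit 0x1c0200082,nat_lit 0x8000001,
    nat_lit 0xc0300082,nat_lit 0x1802200a2],.r (nat_lit 32) (nat_lit 11) [nat_lit 0x80010002,nat_lit 0x8a0190a2],
    .r (nat_lit 0x1183) (nat_lit 6) [nat_lit 0xc000001,nat_lit 0xc0200041,nat_lit 0xda53b0a2,nat_lit 0x1002300a2],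
    .r (nat_lit 8) (nat_lit 5) [nat_lit 0x6000861,nat_lit 0x4000001],.r (nat_lit 0x6dc) (nat_lit 2) [nat_lit 0x10001,
    nat_lit 0xd232a0a2,nat_lit 0x200001,nat_lit 0x8000001,nat_lit 0x80000001],.c (nat_lit 0) (nat_lit 0x6018004),
    .c (nat_lit 0) (nat_lit 0x6018004),.c (nat_lit 0) (nat_lit 0x4018002),.c (nat_lit 5) (nat_lit 0x4010005),
    .c (nat_lit 0) (nat_lit 0x18002),.c (nat_lit 0) (nat_lit 0x18002),.c (nat_lit 0) (nat_lit 0x6500c85),
    .r (nat_lit 0x1842) (nat_lit 1) [nat_lit 0x210002,nat_lit 0xca019061,nat_lit 0x4000001,nat_lit 0x80000001],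
    .r (nat_lit 0x6dd) (nat_lit 6) [nat_lit 0x4300081,nat_lit 65,nat_lit 0xca0190a2,nat_lit 0x2100a2,
    nat_lit 0x2000a1],.c (nat_lit 4) (nat_lit 2),.r (nat_lit 0x6de) (nat_lit 0) [nat_lit 0x900000a1,
    nat_lit 0x25ab5d0a2,nat_lit 0x900500a2,nat_lit 0xd2a00082,nat_lit 0xc4000081],
    .r (nat_lit 0x6df) (nat_lit 6) [nat_lit 0x4010001,nat_lit 0x210002,nat_lit 0x83310a2,nat_lit 0xd2058082,
    nat_lit 0x18001],.r (nat_lit 0x1182) (nat_lit 3) [nat_lit 0x420001,nat_lit 0x14a52a061,nat_lit 0x100000a1,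
    nat_lit 0x10a000041],.r (nat_lit 8) (nat_lit 5) [nat_lit 0xc0301062,nat_lit 0x4000001],
    .r (nat_lit 0x1bec) (nat_lit 7) [nat_lit 65,nat_lit 0x210002],.c (nat_lit 4) (nat_lit 0x6200002),
    .r (nat_lit 0x6de) (nat_lit 0) [nat_lit 0x1880000a1,nat_lit 0x162b5d0a2,nat_lit 0x1880500a2,nat_lit 0x1caa00082,
    nat_lit 0x1cc000081],.r (nat_lit 0x6df) (nat_lit 6) [nat_lit 0x4010001,nat_lit 0x210002,nat_lit 0x1003310a2,
    nat_lit 0x1ca058082,nat_lit 0x18001],.r (nat_lit 0x1182) (nat_lit 3) [nat_lit 0x420001,nat_lit 0xce52a061,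
    nat_lit 0x1080000a1,nat_lit 0x86000041],.r (nat_lit 8) (nat_lit 5) [nat_lit 0x6301062,nat_lit 0x4000001],
    .r (nat_lit 0x1183) (nat_lit 9) [nat_lit 0x630002,nat_lit 0xc4000081,nat_lit 0x86000041,nat_lit 0x880000a1],
    .r (nat_lit 0x6e0) (nat_lit 6) [nat_lit 0x8020001,nat_lit 0x210001,nat_lit 0xc05120a2,nat_lit 0xd2058082,
    nat_lit 0x28001],.r (nat_lit 0x6e1) (nat_lit 9) [nat_lit 0x210001,nat_lit 0x8020001,nat_lit 0x80010001,
    nat_lit 0x28001,nat_lit 0xca038082],.c (nat_lit 0) (nat_lit 0x300002),.c (nat_lit 0) (nat_lit 0x6318c83),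
    .r (nat_lit 0x6e2) (nat_lit 6) [nat_lit 0x18c633481,nat_lit 0x188833482,nat_lit 0x1ca72b0a2,nat_lit 0x14a52a061,
    nat_lit 0x1ca73b0a1],.r (nat_lit 0x6e3) (nat_lit 2) [nat_lit 0x180030002,nat_lit 0x15273b0a2,nat_lit 0x1c0600002,
    nat_lit 0x1cc000001,nat_lit 0x180000001],.c (nat_lit 0) (nat_lit 0x300002),.c (nat_lit 0) (nat_lit 0x6318c83),
    .r (nat_lit 0x6e4) (nat_lit 6) [nat_lit 0x1ce73b0a1,nat_lit 0x1d253b0a2,nat_lit 0x190643482,nat_lit 0x84211441,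
    nat_lit 0x190633481],.c (nat_lit 5) (nat_lit 2),.r (nat_lit 0x1bec) (nat_lit 7) [nat_lit 0xc4000041,
    nat_lit 0x210002],.c (nat_lit 4) (nat_lit 0xa400002),.r (nat_lit 0x6de) (nat_lit 0) [nat_lit 0x2800000a1,
    nat_lit 0x2ab5d0a2,nat_lit 0x2800500a2,nat_lit 0x2c0a00082,nat_lit 0x2d4000081],
    .r (nat_lit 0x1182) (nat_lit 3) [nat_lit 0x420001,nat_lit 0x1252a061,nat_lit 0x2000000a1,nat_lit 65],
    .r (nat_lit 0x1183) (nat_lit 9) [nat_lit 0x630002,nat_lit 0x1cc000081,nat_lit 65,nat_lit 0x1800000a1],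
    .r (nat_lit 0x6e1) (nat_lit 9) [nat_lit 0x210001,nat_lit 0x8020001,nat_lit 0x80010001,nat_lit 0x28001,
    nat_lit 0x1c0038082],.c (nat_lit 0) (nat_lit 0x6000002),.c (nat_lit 0) (nat_lit 0x518c83),
    .c (nat_lit 0) (nat_lit 0x518c83),.c (nat_lit 0) (nat_lit 0x6000002),
    .r (nat_lit 0x6e4) (nat_lit 6) [nat_lit 0xd673b0a1,nat_lit 0xda53b0a2,nat_lit 0x98643482,nat_lit 0x8211441,
    nat_lit 0x98633481],.c (nat_lit 1) (nat_lit 0x6000804),.r (nat_lit 0x1c9f) (nat_lit 12) [nat_lit 0x4000001,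
    nat_lit 0x4010c41,nat_lit 0xca019002],.c (nat_lit 0) (nat_lit 0x518c85),
    .r (nat_lit 0x6e5) (nat_lit 6) [nat_lit 0x840000a1,nat_lit 0x802000a2,nat_lit 0x14a319082,nat_lit 0xc0010082,
    nat_lit 0xc0000081],.c (nat_lit 0) (nat_lit 0x6729505),.r (nat_lit 0x6e6) (nat_lit 6) [nat_lit 0xc4000081,
    nat_lit 0xc0200082,nat_lit 0xa3190a2,nat_lit 0x800100a2,nat_lit 0x800000a1],.c (nat_lit 6) (nat_lit 2),
    .r (nat_lit 0x11b3) (nat_lit 6) [nat_lit 0xcc3190a1,nat_lit 0xa50002,nat_lit 0x15252a041,nat_lit 0x88211481],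
    .r (nat_lit 2) (nat_lit 6) [nat_lit 0x80010002,nat_lit 65],.r (nat_lit 0x1c9f) (nat_lit 12) [nat_lit 0x4000001,
    nat_lit 0x88021442,nat_lit 0xca019002],.r (nat_lit 0x1181) (nat_lit 6) [nat_lit 0xc4319061,nat_lit 0x630002,
    nat_lit 0x15252a042,nat_lit 0x88211441],.r (nat_lit 0x6e7) (nat_lit 6) [nat_lit 0x80000a1,nat_lit 0x200061,
    nat_lit 0xca319041,nat_lit 0x10041,nat_lit 129],.c (nat_lit 7) (nat_lit 2),
    .r (nat_lit 0x6e8) (nat_lit 4) [nat_lit 65,nat_lit 0x198633481,nat_lit 0x1a73b0a2,nat_lit 0x1ce73b0a1,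
    nat_lit 0x1da03b0a2],.r (nat_lit 0x6e9) (nat_lit 4) [nat_lit 66,nat_lit 0x110422441,nat_lit 0x1252a062,
    nat_lit 0x14a52a061,nat_lit 0x15202a062]]]

/-- nodes -/
noncomputable def rD7k_24_5 : List RJ :=
  [.l (nat_lit 11) (nat_lit 480) (nat_lit 4) (nat_lit 0xb0000000b0000000d2000000d2000000ba000000ba000000c8000000c8000000b9000000b9000000c7000000c7000000b2000000b2) (nat_lit 0x2200000022000000000000000000000018000000180000000a0000000a00000019000000190000000b0000000b0000002000000020)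
    (nat_lit 0x188238580be12c260440a612624c548a91201f85d0c41442c03409814c2686488915a294410901602f8690a618c3206b0f81722e4638950f82a8510b01a43485d0ba1d04284c8b918e31c590921302605d0c80c0288580b0142204678cf13426834096174318510601642c0508a11622c44d09a134298850f81602c05f0be15a2b45e8bd154298530881d0358590b017c2f8578af116264560a811224c5c8b9142204578ad188280570ae16e32c648931322e4508a115e2b4620c415c2b84a8ab14a2a46389516233c4c8bd15c2b85509815629c568a918e31c588cf1162f4570ae1742a85c8a71201f8490aa134268540a615632c538a711c250410901641f04d09a1582a84a8b71722ac4908e)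
    (nat_lit 0x188780f01e03c0780f01e03c0780f01e03c0780470c43c0780f01e03c0780f01e03c0780f01e0160288691e03c0780f01e03c0780f01e03c07805f0b014c348f01e03c0780f01e03c0780f01e012c1a0630ba0c0780f01e03c0780f01e03c07804c0981902e8510603c0780f01e03c0780f01e01102986b0e81602c85f1e03c0780f01e03c07805309a1f0428580b017c2f8f01e03c0780f01e01263245c899142284568af188780f01e03c0780498891722e4408a115a2bc500c43c0780f01e01522b4638c719e2c45e88b15c2b8551e03c0780548a512a31c678b117a264570ae1302a8f01e01202083e0b2134268550ac16e254558b911c7803f0901542484d09a14c2a0658ab14e29c4a08e)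
    (nat_lit 4) (nat_lit 61)
    [[nat_lit 2,nat_lit 3,nat_lit 0x10002,nat_lit 0x100002,nat_lit 0x1000002,nat_lit 17,nat_lit 0x1011,
    nat_lit 0x1000011,nat_lit 257,nat_lit 0x1000101,nat_lit 0x10101,nat_lit 0x1001,nat_lit 0x1001001,nat_lit 0x10001,
    nat_lit 0x20001,nat_lit 0x1010001,nat_lit 0x100001,nat_lit 0x110001,nat_lit 0x1100001,nat_lit 0x1000001,
    nat_lit 0x2000001],[nat_lit 32,nat_lit 272,nat_lit 0x100110,nat_lit 0x1010,nat_lit 0x1001010,nat_lit 0x10010,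
    nat_lit 0x100010,nat_lit 0x1000010],[nat_lit 512,nat_lit 0x1100,nat_lit 0x1001100,nat_lit 0x10100,nat_lit 0x20100,
    nat_lit 0x1010100,nat_lit 0x100100,nat_lit 0x1100100,nat_lit 0x1000100,nat_lit 0x1020100],[nat_lit 0x2000,
    nat_lit 0x11000,nat_lit 0x21000,nat_lit 0x1011000,nat_lit 0x1001000,nat_lit 0x2001000],[nat_lit 0x20000,
    nat_lit 0x30000,nat_lit 0x40000,nat_lit 0x1030000,nat_lit 0x1020000,nat_lit 0x110000,nat_lit 0x1010000,
    nat_lit 0x2010000],[nat_lit 0x200000,nat_lit 0x1100000],[nat_lit 0x2000000]]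
    [.c (nat_lit 1) (nat_lit 2),.r (nat_lit 0x1748) (nat_lit 11) [nat_lit 33,nat_lit 0x606052,nat_lit 0x20001],
    .c (nat_lit 1) (nat_lit 0x30304),.c (nat_lit 4) (nat_lit 0x4203),.r (nat_lit 2) (nat_lit 6) [nat_lit 0x202002,
    nat_lit 0x3021],.r (nat_lit 0x1750) (nat_lit 4) [nat_lit 33,nat_lit 0x20001],
    .r (nat_lit 0x183e) (nat_lit 4) [nat_lit 0x2001,nat_lit 0x53041,nat_lit 0x20001,nat_lit 0x200001],
    .r (nat_lit 0x1ab6) (nat_lit 12) [nat_lit 0x242542,nat_lit 0x30231,nat_lit 0x240541,nat_lit 0x330451],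
    .r (nat_lit 0x1ca1) (nat_lit 4) [nat_lit 0x2001,nat_lit 0x3041,nat_lit 0x20001,nat_lit 0x200001],
    .r (nat_lit 0x183e) (nat_lit 4) [nat_lit 0x2001,nat_lit 0x350451,nat_lit 0x20001,nat_lit 0x200001],
    .c (nat_lit 3) (nat_lit 0x30304),.c (nat_lit 5) (nat_lit 0x25304),
    .r (nat_lit 0x11f8) (nat_lit 9) [nat_lit 0x40001,nat_lit 0x200001,nat_lit 0x53041,nat_lit 0x2001],
    .c (nat_lit 0) (nat_lit 0x20205),.c (nat_lit 5) (nat_lit 0x30304),.c (nat_lit 7) (nat_lit 0x30304),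
    .r (nat_lit 0x1748) (nat_lit 11) [nat_lit 0x2021,nat_lit 0x602052,nat_lit 0x20001],
    .c (nat_lit 4) (nat_lit 0x24205),.r (nat_lit 0xdf6) (nat_lit 12) [nat_lit 0x7d7c02,nat_lit 0x62051,
    nat_lit 0x602052,nat_lit 0x3041],.r (nat_lit 0x1bec) (nat_lit 2) [nat_lit 33,nat_lit 0x20001],
    .r (nat_lit 0xdf8) (nat_lit 8) [nat_lit 0x44001,nat_lit 0x33041,nat_lit 0x80001,nat_lit 0x450001],
    .c (nat_lit 2) (nat_lit 2),.c (nat_lit 0) (nat_lit 0x35345),.r (nat_lit 32) (nat_lit 1) [nat_lit 0x202002,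
    nat_lit 0x303452],.r (nat_lit 0x1a29) (nat_lit 11) [nat_lit 0x20031,nat_lit 0x202002,nat_lit 33],
    .r (nat_lit 0x1b6e) (nat_lit 11) [nat_lit 0x202002,nat_lit 0x20031,nat_lit 33],
    .r (nat_lit 0x1b49) (nat_lit 12) [nat_lit 0x202052,nat_lit 0x20001,nat_lit 33],
    .r (nat_lit 32) (nat_lit 11) [nat_lit 0x202002,nat_lit 33],.c (nat_lit 0) (nat_lit 0x35345),
    .c (nat_lit 3) (nat_lit 2),.r (nat_lit 0x1bd6) (nat_lit 10) [nat_lit 33,nat_lit 0x353452],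
    .r (nat_lit 32) (nat_lit 11) [nat_lit 0x202002,nat_lit 0x303452],
    .r (nat_lit 0x1bab) (nat_lit 12) [nat_lit 0x202052,nat_lit 0x20001,nat_lit 33],
    .r (nat_lit 0x1bd6) (nat_lit 10) [nat_lit 0x320021,nat_lit 0x293452],.r (nat_lit 8) (nat_lit 5) [nat_lit 0x30231,
    nat_lit 0x20001],.r (nat_lit 0x1b6e) (nat_lit 11) [nat_lit 0x202002,nat_lit 0x242542,nat_lit 0x303452],
    .r (nat_lit 0x1a29) (nat_lit 11) [nat_lit 0x242542,nat_lit 0x202002,nat_lit 0x303452],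
    .c (nat_lit 0) (nat_lit 0x35345),.r (nat_lit 32) (nat_lit 11) [nat_lit 0x202002,nat_lit 0x253452],
    .c (nat_lit 4) (nat_lit 2),.r (nat_lit 0x1749) (nat_lit 3) [nat_lit 0x230021,nat_lit 0x246052,nat_lit 0x20001],
    .c (nat_lit 4) (nat_lit 0x32002),.r (nat_lit 0xdf9) (nat_lit 3) [nat_lit 0x7d7c02,nat_lit 0x246052,
    nat_lit 0x240051,nat_lit 0x230021],.r (nat_lit 32) (nat_lit 1) [nat_lit 0x202002,nat_lit 33],
    .r (nat_lit 0x11f8) (nat_lit 9) [nat_lit 0x40001,nat_lit 0x200001,nat_lit 0x30021,nat_lit 0x2001],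
    .c (nat_lit 5) (nat_lit 2),.r (nat_lit 0x1749) (nat_lit 3) [nat_lit 33,nat_lit 0x606052,nat_lit 0x20001],
    .c (nat_lit 4) (nat_lit 0x54002),.r (nat_lit 0xdf9) (nat_lit 3) [nat_lit 0x7d7c02,nat_lit 0x606052,
    nat_lit 0x600051,nat_lit 33],.r (nat_lit 32) (nat_lit 1) [nat_lit 0x202002,nat_lit 0x320021],
    .c (nat_lit 1) (nat_lit 0x30204),.r (nat_lit 0x1b64) (nat_lit 6) [nat_lit 0x20001,nat_lit 0x242542,
    nat_lit 0x30231],.r (nat_lit 0xdfb) (nat_lit 9) [nat_lit 0x80001,nat_lit 0x400001,nat_lit 0x300041,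
    nat_lit 0x4001],.c (nat_lit 6) (nat_lit 2),.r (nat_lit 2) (nat_lit 6) [nat_lit 0x202002,nat_lit 33],
    .c (nat_lit 7) (nat_lit 2)],
    .l (nat_lit 10) (nat_lit 240) (nat_lit 3) (nat_lit 0x61000000610000005d0000005d00000054000000540000005e0000005e0000005d0000005d00000067000000670000006a0000006a) (nat_lit 0x9000000090000000d0000000d00000016000000160000000c0000000c0000000d0000000d00000003000000030000000000000000)
    (nat_lit 0x1685e1205413c4b11c491505417842184611585a1585412c4715455148541c85e18461150541505211c4514451140501685c16c49158481405411c4714453140501685e1744b11c4b11c450f03e1204810c4718c511805412c4f11c470f03c1204811c4519c51180541544914c5112048150541445116c5b1684815447144511204814854144511045b1785c15054140501144714451140501705a1ac77148541405011c4314451140501685a1e485178421785c1445116c5b1685a0f06419c671c85e1685a19c631045b1685c1903c19c671846112c4915054170482147719c671a86a184611745b180601785a1e46b19c671906a)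
    (nat_lit 0x168f03c0f03c0f03c0f03c0f03c0f03c0f01785a3c0f03c0f03c0f03c0f03c0f03c0f012056150f03c0f03c0f03c0f03c0f03c0f015054148543c0f03c0f03c0f03c0f03c0f013c4b11c470f0f03c0f03c0f03c0f03c0f012c47114470f83c3c0f03c0f03c0f03c0f011c551445112048150f03c0f03c0f03c0f0124551445312048150543c0f03c0f03c0f0150521405010c4714451140f03c0f03c0f0150541405011c4514451140503c0f03c0f0178721685a18c6716c411705a0f0f03c0f01085e1705e1445116c5b1685a1903c3c0f01846116c5d180601685e1ac7919c671a8f0184611244b150541205c1dc8519c671a86a)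
    (nat_lit 4) (nat_lit 43)
    [[nat_lit 2,nat_lit 17,nat_lit 0x1001,nat_lit 0x10001,nat_lit 0x100001,nat_lit 0x1000001],[nat_lit 32,nat_lit 48,
    nat_lit 0x1020,nat_lit 272,nat_lit 0x1010,nat_lit 0x1110,nat_lit 0x11010,nat_lit 0x1001010,nat_lit 0x10010,
    nat_lit 0x100010,nat_lit 0x1000010],[nat_lit 512,nat_lit 0x10200,nat_lit 0x1100,nat_lit 0x11100,nat_lit 0x1001100,
    nat_lit 0x10100,nat_lit 0x20100,nat_lit 0x110100,nat_lit 0x1010100,nat_lit 0x100100,nat_lit 0x1100100,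
    nat_lit 0x1000100],[nat_lit 0x2000,nat_lit 0x12000,nat_lit 0x11000,nat_lit 0x21000,nat_lit 0x111000,
    nat_lit 0x1011000,nat_lit 0x101000,nat_lit 0x1101000,nat_lit 0x1001000,nat_lit 0x2001000],[nat_lit 0x20000,
    nat_lit 0x30000,nat_lit 0x120000,nat_lit 0x1020000,nat_lit 0x110000,nat_lit 0x210000,nat_lit 0x1110000,
    nat_lit 0x1010000],[nat_lit 0x200000,nat_lit 0x1100000],[nat_lit 0x2000000]]
    [.c (nat_lit 1) (nat_lit 2),.c (nat_lit 5) (nat_lit 0x33002),.c (nat_lit 0) (nat_lit 0x22203),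
    .r (nat_lit 0x1b72) (nat_lit 7) [nat_lit 33,nat_lit 0x20001,nat_lit 0x202031],
    .r (nat_lit 0x1aa7) (nat_lit 5) [nat_lit 0x22321,nat_lit 0x2001,nat_lit 0x33201],
    .r (nat_lit 4) (nat_lit 11) [nat_lit 0x2001,nat_lit 33],.c (nat_lit 2) (nat_lit 2),
    .r (nat_lit 0x12f1) (nat_lit 0) [nat_lit 0x60031,nat_lit 0x666031,nat_lit 33,nat_lit 0x7dd621],
    .r (nat_lit 0x1bdf) (nat_lit 4) [nat_lit 0x355221,nat_lit 0x200001],.r (nat_lit 0x1bdf) (nat_lit 4) [nat_lit 33,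
    nat_lit 0x200001],.c (nat_lit 0) (nat_lit 0x22203),.c (nat_lit 1) (nat_lit 0x20023),.c (nat_lit 2) (nat_lit 770),
    .r (nat_lit 8) (nat_lit 8) [nat_lit 0x22031,nat_lit 0x33201],.r (nat_lit 0x1972) (nat_lit 0) [nat_lit 0x33201,
    nat_lit 0x30021,nat_lit 0x22031],.c (nat_lit 0) (nat_lit 0x2003),.c (nat_lit 0) (nat_lit 0x2003),
    .c (nat_lit 3) (nat_lit 2),.r (nat_lit 0x12f2) (nat_lit 13) [nat_lit 0x53431,nat_lit 0x557431,nat_lit 0x4001,
    nat_lit 0x3021],.r (nat_lit 0x1b51) (nat_lit 7) [nat_lit 0x2001,nat_lit 0x3021,nat_lit 0x30231],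
    .c (nat_lit 1) (nat_lit 0x3023),.r (nat_lit 0x1c61) (nat_lit 6) [nat_lit 0x2001,nat_lit 0x33201,nat_lit 33],
    .c (nat_lit 2) (nat_lit 0x24232),.r (nat_lit 0x1c9f) (nat_lit 0) [nat_lit 0x33201,nat_lit 0x222321,
    nat_lit 0x330231],.c (nat_lit 7) (nat_lit 0x33323),.c (nat_lit 6) (nat_lit 0x33323),
    .r (nat_lit 0x174e) (nat_lit 8) [nat_lit 0x2001,nat_lit 33],.c (nat_lit 5) (nat_lit 0x33323),
    .r (nat_lit 8) (nat_lit 8) [nat_lit 0x333231,nat_lit 0x33201],.c (nat_lit 4) (nat_lit 2),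
    .c (nat_lit 4) (nat_lit 770),.c (nat_lit 0) (nat_lit 515),.c (nat_lit 5) (nat_lit 770),
    .c (nat_lit 6) (nat_lit 770),.c (nat_lit 7) (nat_lit 770),.r (nat_lit 0x1768) (nat_lit 11) [nat_lit 0x33201,
    nat_lit 0x303021,nat_lit 0x302031,nat_lit 0x202021],.r (nat_lit 0x1c9f) (nat_lit 0) [nat_lit 0x33201,
    nat_lit 0x2031,nat_lit 33],.r (nat_lit 0x1b4a) (nat_lit 0) [nat_lit 0x2031,nat_lit 33,nat_lit 0x33201],
    .r (nat_lit 0x1c01) (nat_lit 1) [nat_lit 0x2001,nat_lit 0x3021,nat_lit 0x33201],.c (nat_lit 5) (nat_lit 2),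
    .r (nat_lit 0x12f4) (nat_lit 4) [nat_lit 0x60001,nat_lit 33,nat_lit 0x6031,nat_lit 0x7d7631],
    .r (nat_lit 0x1c61) (nat_lit 6) [nat_lit 0x2001,nat_lit 0x33201,nat_lit 0x330231],
    .r (nat_lit 0x12f5) (nat_lit 4) [nat_lit 0x40001,nat_lit 0x30021,nat_lit 0x24031,nat_lit 0x575431],
    .r (nat_lit 0x1750) (nat_lit 6) [nat_lit 33,nat_lit 0x33201],.r (nat_lit 0x11cc) (nat_lit 6) [nat_lit 0x557431,
    nat_lit 0x42031,nat_lit 0x402021,nat_lit 0x3021],.c (nat_lit 1) (nat_lit 0x20002),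
    .r (nat_lit 0x191a) (nat_lit 11) [nat_lit 0x300031,nat_lit 0x2031,nat_lit 33,nat_lit 0x33201],
    .c (nat_lit 6) (nat_lit 2),.c (nat_lit 0) (nat_lit 0x2003),.c (nat_lit 7) (nat_lit 2)],
    .l (nat_lit 9) (nat_lit 120) (nat_lit 3) (nat_lit 0x350000003500000031000000310000002f0000002f0000002f0000002f0000002a000000340000002f0000002f0000002a00000036) (nat_lit 0x100000001000000050000000500000007000000070000000700000007000000020000000c0000000700000007000000000000000c)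
    (nat_lit 0x1a0d06030170b85c2e198a474441a8a46834180c05c26130b866291a0f86a29180c0682c150a8542a0f8b4542a1887c6030160d0542a150a85e25150a86225130b8542a140a050281688c50281788c5c2e150a85028140a05a23140a05e23170b8542a140a050281688c50281788c4c2e150a85028140a05a23140a05e23148a44a2d1188c46231407846231507866331787c5a2d168b46428168b43c281f110542a140a050281688c50281788c683a150a85028140a05a23140a05e23148a44a1f1188c46231407846230f0786a35188c45e2f178bc3c2a178bc6c1e)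
    (nat_lit 0x1a1e0f0783c1e0f0783c1e0f0783c1e068343c1e0f0783c1e0f0783c1e0f078180c068783c1e0f0783c1e0f0783c1e06030160d0f0783c1e0f0783c1e0f078170b8542a141e0f0783c1e0f0783c1e05c26150a850283c1e0f0783c1e0f07817098542a140a050783c1e0f0783c1e05c2e150a85028140a0f0783c1e0f078198cc3e2f168b45a2d141e0f0783c1e052291689446231188c3c283c1e0f0781d0d0542a140a05028118b450783c1e0883e150a85028140a0462d140a0f0781a8d46231178bc5e2f150785e2f0f1e052290f89446231188c3c281188c3c1e)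
    (nat_lit 5) (nat_lit 49)
    [[nat_lit 2,nat_lit 3,nat_lit 18,nat_lit 258,nat_lit 0x1002,nat_lit 0x10002,nat_lit 0x100002,nat_lit 17,
    nat_lit 257,nat_lit 0x100101,nat_lit 273,nat_lit 513,nat_lit 0x1101,nat_lit 0x10101,nat_lit 0x1000101,
    nat_lit 0x1001,nat_lit 0x10001,nat_lit 0x100001,nat_lit 0x1000001],[nat_lit 32,nat_lit 272,nat_lit 0x100110,
    nat_lit 0x1010,nat_lit 0x10010,nat_lit 0x100010],[nat_lit 512,nat_lit 0x100200,nat_lit 0x1100,nat_lit 0x10100,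
    nat_lit 0x100100,nat_lit 0x101100,nat_lit 0x110100,nat_lit 0x1000100],[nat_lit 0x2000,nat_lit 0x11000,
    nat_lit 0x101000,nat_lit 0x1001000],[nat_lit 0x20000,nat_lit 0x110000,nat_lit 0x1010000],[nat_lit 0x200000,
    nat_lit 0x1100000],[nat_lit 0x2000000]]
    [.c (nat_lit 1) (nat_lit 2),.c (nat_lit 2) (nat_lit 0x201003),.c (nat_lit 5) (nat_lit 0x411807),
    .r (nat_lit 0x1ca3) (nat_lit 9) [nat_lit 0xc40398e3,nat_lit 0x860000c3,nat_lit 0xc83300e3],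
    .c (nat_lit 2) (nat_lit 0x4403007),.c (nat_lit 2) (nat_lit 0x411807),
    .r (nat_lit 0x1893) (nat_lit 10) [nat_lit 0x4400003,nat_lit 0x10a0000c3,nat_lit 0x1445398e3,nat_lit 0x80330003],
    .c (nat_lit 5) (nat_lit 0x311c06),.c (nat_lit 0) (nat_lit 0x6019cc7),.c (nat_lit 5) (nat_lit 0x40218e6),
    .r (nat_lit 0x1893) (nat_lit 10) [nat_lit 0x4400003,nat_lit 0x803018e3,nat_lit 0xc63380c3,nat_lit 0x80330003],
    .r (nat_lit 0x1c5f) (nat_lit 10) [nat_lit 0x10c41,nat_lit 0x842934c3,nat_lit 0xc636b0e3],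
    .r (nat_lit 0x1ca3) (nat_lit 9) [nat_lit 0x18861,nat_lit 65,nat_lit 0x43300e3],
    .r (nat_lit 0x1c5f) (nat_lit 10) [nat_lit 0x6531d83,nat_lit 0x80393583,nat_lit 0xc026b1a3],
    .r (nat_lit 0x1c63) (nat_lit 0) [nat_lit 0xc02398e3,nat_lit 0x10001,nat_lit 0xc6339803],
    .c (nat_lit 1) (nat_lit 0x6200006),.c (nat_lit 0) (nat_lit 0x22000d),.c (nat_lit 0) (nat_lit 0x6019cc7),
    .r (nat_lit 0x1c71) (nat_lit 3) [nat_lit 0x860380c3,nat_lit 0x44300e3,nat_lit 0x10001],.c (nat_lit 2) (nat_lit 2),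
    .r (nat_lit 0x1b5d) (nat_lit 9) [nat_lit 0x10061,nat_lit 65,nat_lit 0xc63698c3],
    .c (nat_lit 2) (nat_lit 0x42130e6),.c (nat_lit 5) (nat_lit 0x6011c06),
    .r (nat_lit 32) (nat_lit 9) [nat_lit 0x842300e3,nat_lit 65],.r (nat_lit 0x1c22) (nat_lit 0) [nat_lit 0x10061,
    nat_lit 65,nat_lit 0x80431c03],.c (nat_lit 3) (nat_lit 2),.r (nat_lit 0x1b5d) (nat_lit 9) [nat_lit 0xc63398e3,
    nat_lit 0x84261cc3,nat_lit 65],.c (nat_lit 0) (nat_lit 0x319cc7),.r (nat_lit 0x1ae3) (nat_lit 5) [nat_lit 0x10001,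
    nat_lit 65,nat_lit 0xc63698e3],.c (nat_lit 5) (nat_lit 0x42418e6),.c (nat_lit 5) (nat_lit 0x2218e6),
    .r (nat_lit 32) (nat_lit 9) [nat_lit 0x18861,nat_lit 0x84261cc3],.c (nat_lit 0) (nat_lit 0x6319cc7),
    .c (nat_lit 4) (nat_lit 2),.c (nat_lit 0) (nat_lit 0x402000d),.c (nat_lit 0) (nat_lit 0x319cc7),
    .r (nat_lit 0x1c71) (nat_lit 3) [nat_lit 0x18041,nat_lit 0x804300e3,nat_lit 0x10001],.c (nat_lit 5) (nat_lit 2),
    .r (nat_lit 0x1bec) (nat_lit 5) [nat_lit 65,nat_lit 0x10001],.c (nat_lit 1) (nat_lit 0x218006),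
    .c (nat_lit 6) (nat_lit 2),.c (nat_lit 0) (nat_lit 0x6319cc7),.c (nat_lit 7) (nat_lit 2)]]

/-- nodes -/
noncomputable def rD7k_24_6 : List RJ :=
  [.l (nat_lit 16) (nat_lit 0x2760) (nat_lit 3) (nat_lit 0x11700000117000001000000015d4000012d4000012d40000117a0000117a000011e3000011e3000011a4000011a40000115b0000115b) (nat_lit 0x4640000046400000000000005d400000300000003000000045a0000045a000003f1000003f100000430000004300000047900000479)
    (nat_lit 0xe720d0c11700b9c0e060e700cd60d160de90d950cae0cac0cf70c8d0be60e7211700b9c0e460c100d940d6a0d7f0d7f0d400d6a0cf70bd10b9c0b9c12600b520cac0d000ba60bd00be50b910cf60bd00a210b871170117015d4126012d412d407e0117a11e311e31404080a115b115b0c100e7012d40d000fd40fd40e7a0e7a187d187d0ea40ea40e5b0bfb0e460e0612d40cac0fd40fd40e7a0e7a0ee30ee30ea40ea40e5b0e850d6a0d16117a0bd00e7a0e7a0d200d200d890d890d200d4a0d6b0d010d940cd607e00ba60e7a0e7a0d200d200d890d890d9e0d4a0ceb0d7f0d7f0d9511e30b910ee3187d0d890d890df20df20d350db30daa0d160d7f0de911e30be50ee3187d0d890d890df20df20d890db30dfe0d6a0d6a0cac080a0bd00ea40ea40d4a0d4a0db30db30d740d740cc10d550d400cae14040cf60ea40ea40d9e0d200d890d350d4a0d740d950d2b0bd10c8d115b0b870e850bfb0d7f0d010d6a0d160d2b0d550d740d0c0cf70cf7115b0a210e5b0e5b0ceb0d6b0dfe0daa0d950cc10ce20d74)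
    (nat_lit 0xe7227602760276027602760276027602760276027602760276027600d0c0e72276027602760276027602760276027602760276027602760117011701260276027602760276027602760276027602760276027600b9c0b9c0b52126027602760276027602760276027602760276027600e060e460cac12d40fd42760276027602760276027602760276027600e700c100d0012d40fd40fd4276027602760276027602760276027600cd60d940ba607e00e7a0e7a0d2027602760276027602760276027600d160d6a0bd0117a0e7a0e7a0d200d202760276027602760276027600de90d7f0be511e3187d0ee30d890d890df2276027602760276027600d950d7f0b9111e3187d0ee30d890d890df20df227602760276027600cae0d400cf614040ea40ea40d200d9e0d350d890d742760276027600cac0d6a0bd0080a0ea40ea40d4a0d4a0db30db30d740d74276027600cf70cf70a21115b0e5b0e5b0d6b0ceb0daa0dfe0cc10d950d7427600c8d0bd10b87115b0bfb0e850d010d7f0d160d6a0d550d2b0d0c0d74)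
    (nat_lit 4) (nat_lit 43)
    [[nat_lit 2,nat_lit 0x1000002,nat_lit 17,nat_lit 0x1000011,nat_lit 0x100011,nat_lit 257,nat_lit 0x1001,
    nat_lit 0x101001,nat_lit 0x1001001,nat_lit 0x2001,nat_lit 0x10001,nat_lit 0x1010001,nat_lit 0x100001,
    nat_lit 0x1000001,nat_lit 0x2000001],[nat_lit 32,nat_lit 0x100020,nat_lit 272,nat_lit 0x100110,nat_lit 0x1010,
    nat_lit 0x101010,nat_lit 0x10010,nat_lit 0x110010,nat_lit 0x100010,nat_lit 0x1000010,nat_lit 0x1100010,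
    nat_lit 0x2000010],[nat_lit 512,nat_lit 0x1100,nat_lit 0x101100,nat_lit 0x100100,nat_lit 0x1000100],
    [nat_lit 0x2000,nat_lit 0x102000,nat_lit 0x11000,nat_lit 0x101000,nat_lit 0x111000,nat_lit 0x201000,
    nat_lit 0x1101000,nat_lit 0x1001000,nat_lit 0x2001000],[nat_lit 0x20000,nat_lit 0x110000,nat_lit 0x1010000],
    [nat_lit 0x200000,nat_lit 0x1100000],[nat_lit 0x2000000]]
    [.c (nat_lit 1) (nat_lit 2),.r (nat_lit 0x174e) (nat_lit 6) [nat_lit 0x2001,nat_lit 0x3000021],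
    .c (nat_lit 0) (nat_lit 0x30323),.r (nat_lit 0x1b32) (nat_lit 0) [nat_lit 0x300231,nat_lit 0x3000001,
    nat_lit 0x2200001],.c (nat_lit 3) (nat_lit 0x222203),.c (nat_lit 6) (nat_lit 0x330202),
    .c (nat_lit 6) (nat_lit 0x22632),.r (nat_lit 0x1a32) (nat_lit 5) [nat_lit 0x202321,nat_lit 0x300231,
    nat_lit 0x200001],.c (nat_lit 6) (nat_lit 0x22432),.r (nat_lit 0xe16) (nat_lit 11) [nat_lit 0x6000001,
    nat_lit 0x5939851,nat_lit 0x600001,nat_lit 0x5333221],.r (nat_lit 0x174e) (nat_lit 6) [nat_lit 0x2001,nat_lit 33],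
    .c (nat_lit 3) (nat_lit 0x240003),.r (nat_lit 0x1919) (nat_lit 3) [nat_lit 0x2222031,nat_lit 0x200001,nat_lit 33,
    nat_lit 0x5733201],.c (nat_lit 0) (nat_lit 0x220003),.c (nat_lit 0) (nat_lit 0x33323),.c (nat_lit 2) (nat_lit 2),
    .r (nat_lit 0x1a32) (nat_lit 5) [nat_lit 0x24031,nat_lit 0x33021,nat_lit 0x200001],
    .r (nat_lit 4) (nat_lit 12) [nat_lit 0x2001,nat_lit 33],.c (nat_lit 1) (nat_lit 0x222203),
    .c (nat_lit 0) (nat_lit 0x30323),.c (nat_lit 3) (nat_lit 0x240032),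
    .r (nat_lit 0x1b32) (nat_lit 0) [nat_lit 0x3300231,nat_lit 0x3000001,nat_lit 0x2200001],
    .c (nat_lit 4) (nat_lit 0x330023),.c (nat_lit 7) (nat_lit 0x3302),.r (nat_lit 0x1919) (nat_lit 4) [nat_lit 0x2001,
    nat_lit 33,nat_lit 0x200001,nat_lit 0x2020031],.c (nat_lit 2) (nat_lit 770),.c (nat_lit 2) (nat_lit 0x2002),
    .c (nat_lit 3) (nat_lit 2),.r (nat_lit 4) (nat_lit 6) [nat_lit 0x2001,nat_lit 33],
    .r (nat_lit 0x1ca3) (nat_lit 8) [nat_lit 0x2001,nat_lit 0x303201,nat_lit 0x200321],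
    .c (nat_lit 4) (nat_lit 0x353522),.c (nat_lit 0) (nat_lit 0x220003),.c (nat_lit 4) (nat_lit 2),
    .r (nat_lit 0x1999) (nat_lit 11) [nat_lit 0x2001,nat_lit 0x200001,nat_lit 0x3021],
    .c (nat_lit 6) (nat_lit 0x222432),.r (nat_lit 0x1c42) (nat_lit 6) [nat_lit 0x200001,nat_lit 33],
    .c (nat_lit 2) (nat_lit 0x330023),.r (nat_lit 0xe16) (nat_lit 11) [nat_lit 0x6000001,nat_lit 0x5524451,
    nat_lit 0x600001,nat_lit 0x5559421],.c (nat_lit 4) (nat_lit 770),.c (nat_lit 0) (nat_lit 0x33323),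
    .c (nat_lit 0) (nat_lit 0x33323),.c (nat_lit 5) (nat_lit 2),.c (nat_lit 1) (nat_lit 0x200302),
    .c (nat_lit 0) (nat_lit 0x333323),.c (nat_lit 6) (nat_lit 2),.c (nat_lit 0) (nat_lit 515),
    .c (nat_lit 7) (nat_lit 2)],
    .l (nat_lit 11) (nat_lit 480) (nat_lit 3) (nat_lit 0xda000000da000000d1000000ad000000bc000000bc000000bc000000bc000000bd000000c1000000c2000000c2000000bf000000bf) (nat_lit 0x2d000000090000001e0000001e0000001e0000001e000000190000001d00000018000000180000001b0000001b)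
    (nat_lit 0x1b4368568bd1782f05e0bc1822f4630c817e2fc6d0da1823445b0a81782b8608bd230468698bf1a22f45c0c818227c598b90c02d05c8b916c180608ad1002e04488f11e2244a09011e254490921502f04789f1482784f0a414627c520a414229c5b0bc1123044f0a414827854899148278508a115c2f0448b913c2905209e1522645209e1422845e0bc11e2cc5209e13c2905189f148290508a717a2f4480b413227c4f8991482804f8a5144288608c1128180548a31462a4540a41522a4500a62343204a8b913c2905209e152294550aa14e29c8c0c611e2e4520a41482905489f1542a8538a717e2fc4906014229c538a114c288538a7140290698bf1242d8508a1142284500a214e29c520a0)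
    (nat_lit 0x1b4780f01e03c0780f01e03c0780f01e03c07806d0da3c0780f01e03c0780f01e03c0780f01e015a3045c1e03c0780f01e03c0780f01e03c07805e8d11902e0f01e03c0780f01e03c0780f01e01782d860889148780f01e03c0780f01e03c07805e0a813e23c4f0a43c0780f01e03c0780f01e01782f05988f13c290521e03c0780f01e03c07805e0ae1722245209e13c290f01e03c0780f01e0182304300941462a4548a3148780f01e03c07805e8bd1682404f89913227c500a43c0780f01e018c4605c88f148290520a413e2a4551e03c07806411a1722545209e13c290528a91542a8f01e017e34c5b092142284508a1144280538a71407805f8bf0c0248538a114229c510a614e29c520a0)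
    (nat_lit 3) (nat_lit 27)
    [[nat_lit 2,nat_lit 0x100002,nat_lit 17,nat_lit 0x100011,nat_lit 257,nat_lit 0x100101,nat_lit 0x1001,
    nat_lit 0x101001,nat_lit 0x10001,nat_lit 0x110001,nat_lit 0x100001,nat_lit 0x200001,nat_lit 0x1000001],
    [nat_lit 32,nat_lit 272,nat_lit 0x100110,nat_lit 0x1010,nat_lit 0x10010,nat_lit 0x110010,nat_lit 0x100010],
    [nat_lit 512,nat_lit 0x100200,nat_lit 0x1100,nat_lit 0x10100,nat_lit 0x110100,nat_lit 0x100100,nat_lit 0x101100,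
    nat_lit 0x200100,nat_lit 0x1100100,nat_lit 0x1000100],[nat_lit 0x2000,nat_lit 0x11000,nat_lit 0x111000,
    nat_lit 0x101000,nat_lit 0x1001000],[nat_lit 0x20000,nat_lit 0x120000,nat_lit 0x110000,nat_lit 0x1010000],
    [nat_lit 0x200000,nat_lit 0x1100000],[nat_lit 0x2000000]]
    [.c (nat_lit 1) (nat_lit 2),.r (nat_lit 0x1999) (nat_lit 5) [nat_lit 0x2001,nat_lit 0x80001,nat_lit 0x3011],
    .r (nat_lit 4) (nat_lit 2) [nat_lit 0x2001,nat_lit 17],.r (nat_lit 0x1ca3) (nat_lit 9) [nat_lit 0x2001,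
    nat_lit 0xc3081,nat_lit 0x800d1],.c (nat_lit 0) (nat_lit 0x2083),.c (nat_lit 1) (nat_lit 194),
    .c (nat_lit 1) (nat_lit 0x1249a),.r (nat_lit 0x1999) (nat_lit 5) [nat_lit 0x2001,nat_lit 0x80001,nat_lit 0x904d1],
    .c (nat_lit 0) (nat_lit 0x2403),.c (nat_lit 1) (nat_lit 0x602),.c (nat_lit 1) (nat_lit 0x2002),
    .r (nat_lit 0x1b2d) (nat_lit 11) [nat_lit 0x80001,nat_lit 0x18611,nat_lit 0x14419],
    .r (nat_lit 32) (nat_lit 7) [nat_lit 0x401,nat_lit 0xdb691],.c (nat_lit 2) (nat_lit 2),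
    .r (nat_lit 32) (nat_lit 6) [nat_lit 0x401,nat_lit 0x2611],.c (nat_lit 2) (nat_lit 194),
    .r (nat_lit 4) (nat_lit 2) [nat_lit 0x2001,nat_lit 0x924d1],.r (nat_lit 32) (nat_lit 6) [nat_lit 0x401,
    nat_lit 17],.c (nat_lit 2) (nat_lit 0x602),.r (nat_lit 32) (nat_lit 13) [nat_lit 0x80419,nat_lit 17],
    .c (nat_lit 3) (nat_lit 2),.c (nat_lit 3) (nat_lit 194),.c (nat_lit 0) (nat_lit 0x2bae5),
    .c (nat_lit 3) (nat_lit 0x682),.c (nat_lit 3) (nat_lit 0x602),.c (nat_lit 0) (nat_lit 131),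
    .c (nat_lit 1) (nat_lit 0x1241a),.c (nat_lit 1) (nat_lit 0x20c2),.c (nat_lit 2) (nat_lit 0x10083),
    .r (nat_lit 32) (nat_lit 2) [nat_lit 0x80419,nat_lit 17],.c (nat_lit 4) (nat_lit 2),
    .c (nat_lit 0) (nat_lit 0x2b763),.c (nat_lit 1) (nat_lit 0x1209a),.c (nat_lit 1) (nat_lit 0x1449a),
    .r (nat_lit 32) (nat_lit 7) [nat_lit 0x401,nat_lit 17],.c (nat_lit 5) (nat_lit 2),.c (nat_lit 3) (nat_lit 0xa82),
    .c (nat_lit 0) (nat_lit 0x403),.r (nat_lit 32) (nat_lit 2) [nat_lit 0x82019,nat_lit 0x3411],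
    .c (nat_lit 6) (nat_lit 2),.r (nat_lit 4) (nat_lit 4) [nat_lit 0x80419,nat_lit 17],.c (nat_lit 7) (nat_lit 2)]]

/-- nodes -/
noncomputable def rD7k_24_7 : List RJ :=
  [.l (nat_lit 12) (nat_lit 570) (nat_lit 4) (nat_lit 0x1340000016a000001340000014f0000013f000001000000011100000111000001000000013c0000010000000100000000dc000000dc) (nat_lit 0x360000001b000000360000006a0000002b00000059000000590000002e0000006a0000006a0000006a0000008e0000008e)
    (nat_lit 0x1340d01441560c01580db0db1060ae0a61060a60a016a13414f1340e217a15f15f0f008a1341940840721341560de0fe07c1091510f907207c1341160a607214f1441340de13e1241410e91340e51241060720b417a1581241090e21140e608d0f008a0e20c20860720e20c013e07c0960e20990a70d20a409609007207215f0db0e90f90a708d0aa0b80e90b50a70a708d08315f0db1411510990e60b80aa0db0a70a709509f09508a0ae0e507c0a408a0a70b50e409608409e0720720f01061340720d20f00db0e91180e40d20d20720ae1941061061160900c20950a70d209e09608c0720721340a61241340960e20a70a70d20840720960780720720a00b40720720720950830ae0720720720720720840a60720a607208609f08d07207207807207c072)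
    (nat_lit 0x13423a23a23a23a23a23a23a23a23a23a23a23a23a0d013423a23a23a23a23a23a23a23a23a23a23a23a14414f0de23a23a23a23a23a23a23a23a23a23a23a1561340fe0de23a23a23a23a23a23a23a23a23a23a0c00e207c13e0e223a23a23a23a23a23a23a23a23a15817a1091241140e223a23a23a23a23a23a23a23a0db15f1511410e60990aa23a23a23a23a23a23a23a0db15f0f90e908d0a70b80aa23a23a23a23a23a23a1060f00721340f00d20e90db0e423a23a23a23a23a0ae08a07c0e508a0a40b50a70960e423a23a23a23a0a61340f61240e20960a70a70840d209623a23a23a10615c1101060c20900a709509e0d208c09623a23a0a60840a607208607208d09f07207207207807223a0a00720720b40720720830950720ae072072072072)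
    (nat_lit 5) (nat_lit 418)
    [[nat_lit 2,nat_lit 3,nat_lit 4,nat_lit 19,nat_lit 259,nat_lit 0x1003,nat_lit 0x10003,nat_lit 0x100003,
    nat_lit 0x1000003,nat_lit 18,nat_lit 34,nat_lit 274,nat_lit 0x1012,nat_lit 0x10012,nat_lit 0x1000012,nat_lit 258,
    nat_lit 0x10102,nat_lit 0x100102,nat_lit 514,nat_lit 0x1102,nat_lit 0x1000102,nat_lit 0x1002,nat_lit 0x11002,
    nat_lit 0x10002,nat_lit 0x20002,nat_lit 0x110002,nat_lit 0x1010002,nat_lit 0x100002,nat_lit 0x200002,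
    nat_lit 0x1000002,nat_lit 0x2000002,nat_lit 17,nat_lit 0x100012,nat_lit 33,nat_lit 49,nat_lit 0x1021,
    nat_lit 0x10021,nat_lit 0x1000021,nat_lit 289,nat_lit 273,nat_lit 0x100111,nat_lit 0x1011,nat_lit 0x11011,
    nat_lit 0x10011,nat_lit 0x100011,nat_lit 0x1000011,nat_lit 257,nat_lit 513,nat_lit 0x1101,nat_lit 0x10101,
    nat_lit 0x100101,nat_lit 0x1000101,nat_lit 0x10111,nat_lit 0x1000111,nat_lit 0x1111,nat_lit 0x100201,
    nat_lit 0x11101,nat_lit 0x20101,nat_lit 0x110101,nat_lit 0x1010101,nat_lit 0x1001,nat_lit 0x101002,nat_lit 0x2001,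
    nat_lit 0x11001,nat_lit 0x1001001,nat_lit 0x21001,nat_lit 0x101001,nat_lit 0x10001,nat_lit 0x20011,
    nat_lit 0x1010011,nat_lit 0x20001,nat_lit 0x110001,nat_lit 0x1010001,nat_lit 0x100001,nat_lit 0x1100002,
    nat_lit 0x200001,nat_lit 0x200101,nat_lit 0x101101,nat_lit 0x1100101,nat_lit 0x110011,nat_lit 0x111001,
    nat_lit 0x1000001,nat_lit 0x2000001],[nat_lit 32,nat_lit 48,nat_lit 64,nat_lit 288,nat_lit 0x1020,nat_lit 0x10020,
    nat_lit 0x11020,nat_lit 272,nat_lit 0x1110,nat_lit 0x10110,nat_lit 0x100110,nat_lit 0x1010,nat_lit 0x2010,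
    nat_lit 0x11010,nat_lit 0x10010,nat_lit 0x1000110],[nat_lit 512,nat_lit 0x1100,nat_lit 0x11100,nat_lit 0x10100,
    nat_lit 0x20100,nat_lit 0x100100,nat_lit 0x101100,nat_lit 0x200100,nat_lit 0x1000100],[nat_lit 0x2000,
    nat_lit 0x3000,nat_lit 0x12000,nat_lit 0x11000,nat_lit 0x21000],[nat_lit 0x20000,nat_lit 0x110000],
    [nat_lit 0x200000],[]]
    [.c (nat_lit 1) (nat_lit 2),.r (nat_lit 0x1749) (nat_lit 1) [nat_lit 65,nat_lit 0x180030061,nat_lit 0x200001],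
    .r (nat_lit 0x174a) (nat_lit 9) [nat_lit 0x200040062,nat_lit 66,nat_lit 0x200001],
    .r (nat_lit 360) (nat_lit 10) [nat_lit 0x184421401,nat_lit 0x146529001,nat_lit 0x34eb3b061,nat_lit 0x146519001,
    nat_lit 0x30cc33441],.r (nat_lit 361) (nat_lit 8) [nat_lit 0xa00001,nat_lit 0x6018081,nat_lit 0x6068081,
    nat_lit 0x2cab2a861,nat_lit 0x2840600a1],.r (nat_lit 0x174a) (nat_lit 9) [nat_lit 0x180030061,nat_lit 0xc0018041,
    nat_lit 0x200001],.r (nat_lit 361) (nat_lit 8) [nat_lit 0xa00001,nat_lit 0x104411481,nat_lit 0x104449481,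
    nat_lit 0x34ed3b061,nat_lit 0x1865410a1],.r (nat_lit 362) (nat_lit 4) [nat_lit 0x1000001,nat_lit 0x68081,
    nat_lit 0x45315c061,nat_lit 0x4000600a1,nat_lit 0x10030061],.r (nat_lit 363) (nat_lit 6) [nat_lit 0x86000001,
    nat_lit 0xc230061,nat_lit 0x4010001,nat_lit 0xe038041,nat_lit 0x4000001],
    .r (nat_lit 0x18fb) (nat_lit 6) [nat_lit 0x80000001,nat_lit 0x200001,nat_lit 65,nat_lit 0xc4000001],
    .r (nat_lit 8) (nat_lit 5) [nat_lit 66,nat_lit 0x80000001],.r (nat_lit 0x1ae3) (nat_lit 8) [nat_lit 0x80000001,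
    nat_lit 0x200001,nat_lit 0x4020061],.r (nat_lit 8) (nat_lit 5) [nat_lit 0xc0018041,nat_lit 0x80000001],
    .r (nat_lit 0x1ae3) (nat_lit 8) [nat_lit 0x80000001,nat_lit 0x200001,nat_lit 0xc0310861],
    .c (nat_lit 4) (nat_lit 0x8011003),.c (nat_lit 1) (nat_lit 0x300c04),.c (nat_lit 1) (nat_lit 0x4010062),
    .r (nat_lit 0x174c) (nat_lit 0) [nat_lit 0x200001,nat_lit 0x80310861,nat_lit 65],
    .c (nat_lit 1) (nat_lit 0x300c02),.c (nat_lit 1) (nat_lit 0xa301c04),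
    .r (nat_lit 0x1957) (nat_lit 0) [nat_lit 0x10001,nat_lit 0x80000001,nat_lit 0x200001,nat_lit 0xc0310861],
    .c (nat_lit 1) (nat_lit 0x6000c02),.c (nat_lit 1) (nat_lit 0x220ca4),.c (nat_lit 1) (nat_lit 0x82208a4),
    .c (nat_lit 1) (nat_lit 0x82208a2),.r (nat_lit 0x174c) (nat_lit 0) [nat_lit 0x200001,nat_lit 0x6501061,
    nat_lit 0x84210c41],.r (nat_lit 0x1957) (nat_lit 0) [nat_lit 0x10001,nat_lit 0x80000001,nat_lit 0x200001,
    nat_lit 0x146501061],.r (nat_lit 8) (nat_lit 13) [nat_lit 0x6501062,nat_lit 0x200001],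
    .c (nat_lit 4) (nat_lit 0x10001003),.r (nat_lit 0x1962) (nat_lit 11) [nat_lit 0x328041,nat_lit 0x100220061,
    nat_lit 0x8220061],.r (nat_lit 0x1750) (nat_lit 5) [nat_lit 0x28042,nat_lit 0x100420062],
    .r (nat_lit 0x1750) (nat_lit 4) [nat_lit 65,nat_lit 0x80000001],
    .r (nat_lit 365) (nat_lit 10) [nat_lit 0x184421401,nat_lit 0x146529001,nat_lit 0x34eb4b061,nat_lit 0x146519001,
    nat_lit 0x30cc43441],.r (nat_lit 366) (nat_lit 8) [nat_lit 0xc0018041,nat_lit 0x100020001,nat_lit 0x80410061,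
    nat_lit 0x100000001,nat_lit 0x1c6529001],.r (nat_lit 367) (nat_lit 10) [nat_lit 0x1000200a1,nat_lit 0x146519061,
    nat_lit 0x28081,nat_lit 0x400001,nat_lit 129],.r (nat_lit 368) (nat_lit 4) [nat_lit 0x80410061,nat_lit 0x8000001,
    nat_lit 0x14a529001,nat_lit 0x10a000001,nat_lit 0xc0018041],.r (nat_lit 369) (nat_lit 10) [nat_lit 0xc65010a1,
    nat_lit 0x146519061,nat_lit 0x104401481,nat_lit 0x200001,nat_lit 0x104411481],.c (nat_lit 0) (nat_lit 0x28002),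
    .r (nat_lit 369) (nat_lit 10) [nat_lit 0x840200a1,nat_lit 0xc0300861,nat_lit 0x6028081,nat_lit 0x200001,
    nat_lit 0x6018081],.r (nat_lit 0x188e) (nat_lit 10) [nat_lit 0x84210c01,nat_lit 0x80200c41,nat_lit 0xc0000861,
    nat_lit 0x146519001],.r (nat_lit 346) (nat_lit 10) [nat_lit 0x184421401,nat_lit 0x146529001,nat_lit 0x1c6529861,
    nat_lit 0x146519001,nat_lit 0x184621c41],.c (nat_lit 2) (nat_lit 0x6000c02),
    .r (nat_lit 0x1ca3) (nat_lit 11) [nat_lit 0x4200c41,nat_lit 0xc6301061,nat_lit 0x318001],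
    .r (nat_lit 0x188e) (nat_lit 10) [nat_lit 0x84210c01,nat_lit 0x104411441,nat_lit 0x146319061,nat_lit 0x146519001],
    .r (nat_lit 0x190c) (nat_lit 9) [nat_lit 0x4000001,nat_lit 0x86000001,nat_lit 0xc0300801,nat_lit 0x86200c41],
    .c (nat_lit 4) (nat_lit 0x4010803),.c (nat_lit 0) (nat_lit 0x200805),.c (nat_lit 0) (nat_lit 0x200803),
    .c (nat_lit 3) (nat_lit 0x6000c02),.c (nat_lit 0) (nat_lit 0x6018043),
    .r (nat_lit 8) (nat_lit 13) [nat_lit 0x300861,nat_lit 0x200001],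
    .r (nat_lit 0x1ca3) (nat_lit 11) [nat_lit 0x4210061,nat_lit 0xc6318841,nat_lit 0x318001],
    .c (nat_lit 2) (nat_lit 0x4010062),.c (nat_lit 3) (nat_lit 0x210803),
    .r (nat_lit 0x1ca3) (nat_lit 11) [nat_lit 0xc0018041,nat_lit 0x10861,nat_lit 0x318001],
    .c (nat_lit 4) (nat_lit 0x4200803),.c (nat_lit 4) (nat_lit 0x4010062),.c (nat_lit 3) (nat_lit 0x82208a2),
    .c (nat_lit 4) (nat_lit 0x18043),.c (nat_lit 2) (nat_lit 0x6000043),.c (nat_lit 0) (nat_lit 0x4000803),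
    .c (nat_lit 4) (nat_lit 0xc001003),.c (nat_lit 4) (nat_lit 0x6000c02),.c (nat_lit 3) (nat_lit 0x210062),
    .c (nat_lit 2) (nat_lit 0x4010803),.c (nat_lit 4) (nat_lit 0x82208a2),.c (nat_lit 4) (nat_lit 0x8000803),
    .c (nat_lit 0) (nat_lit 0xa328c85),.c (nat_lit 2) (nat_lit 0x82208a2),.c (nat_lit 3) (nat_lit 0x6000043),
    .c (nat_lit 0) (nat_lit 0xa328c83),.r (nat_lit 8) (nat_lit 13) [nat_lit 0xc6519061,nat_lit 0x200001],
    .r (nat_lit 0x1ca3) (nat_lit 11) [nat_lit 0xc0000861,nat_lit 65,nat_lit 0x318001],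
    .r (nat_lit 0x174a) (nat_lit 9) [nat_lit 0x100010061,nat_lit 0x10041,nat_lit 0x200001],
    .r (nat_lit 370) (nat_lit 6) [nat_lit 0x86000001,nat_lit 0xc220061,nat_lit 0x4010001,nat_lit 0xe028041,
    nat_lit 0x4000001],.c (nat_lit 4) (nat_lit 0xc000803),.c (nat_lit 0) (nat_lit 0x301804),
    .c (nat_lit 3) (nat_lit 0x4200803),.r (nat_lit 0x1621) (nat_lit 0) [nat_lit 0x318041,nat_lit 0x400001,
    nat_lit 0x310041,nat_lit 0x100210061],.r (nat_lit 346) (nat_lit 10) [nat_lit 0x184421401,nat_lit 0x146529001,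
    nat_lit 0x24a73a061,nat_lit 0x146519001,nat_lit 0x208832441],.c (nat_lit 3) (nat_lit 0x18043),
    .r (nat_lit 0x1bec) (nat_lit 2) [nat_lit 65,nat_lit 0x80000001],.r (nat_lit 371) (nat_lit 6) [nat_lit 0x100000001,
    nat_lit 0x4000001,nat_lit 0x410061,nat_lit 0x20001,nat_lit 0x18041],.c (nat_lit 2) (nat_lit 2),
    .r (nat_lit 372) (nat_lit 4) [nat_lit 0x600061,nat_lit 0xc000001,nat_lit 0x1ce739801,nat_lit 0x18e000001,
    nat_lit 65],.r (nat_lit 368) (nat_lit 4) [nat_lit 0x800062,nat_lit 0x8000001,nat_lit 0x14a529001,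
    nat_lit 0x10a000001,nat_lit 66],.r (nat_lit 373) (nat_lit 6) [nat_lit 0x86900081,nat_lit 0x500041,
    nat_lit 0x200001,nat_lit 0x48100a1,nat_lit 0x48000a1],.r (nat_lit 0x1ca3) (nat_lit 11) [nat_lit 0xc4000042,
    nat_lit 0xc6001062,nat_lit 0x318001],.r (nat_lit 373) (nat_lit 6) [nat_lit 0x184521481,nat_lit 0x84310c41,
    nat_lit 0x200001,nat_lit 0x1464190a1,nat_lit 0x1464290a1],.r (nat_lit 374) (nat_lit 6) [nat_lit 0x10a000001,
    nat_lit 0x8210c41,nat_lit 0x8020001,nat_lit 0xa218861,nat_lit 0x8000001],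
    .r (nat_lit 32) (nat_lit 9) [nat_lit 0x80010001,nat_lit 0xc6318841],
    .r (nat_lit 0x1957) (nat_lit 0) [nat_lit 0x10001,nat_lit 0x80000001,nat_lit 0x200001,nat_lit 0x146518841],
    .r (nat_lit 0x1750) (nat_lit 5) [nat_lit 0xc0018861,nat_lit 0x100210c41],
    .r (nat_lit 32) (nat_lit 8) [nat_lit 0x80010001,nat_lit 0x4200061],
    .r (nat_lit 0x1750) (nat_lit 5) [nat_lit 0x80200061,nat_lit 65],
    .r (nat_lit 0x1962) (nat_lit 11) [nat_lit 0x100000061,nat_lit 65,nat_lit 0x148000041],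
    .r (nat_lit 0x1957) (nat_lit 0) [nat_lit 0x10001,nat_lit 0x80000001,nat_lit 0x200001,nat_lit 0xc0300041],
    .r (nat_lit 32) (nat_lit 9) [nat_lit 0x80010001,nat_lit 65],.c (nat_lit 1) (nat_lit 0x220805),
    .c (nat_lit 3) (nat_lit 2),.c (nat_lit 0) (nat_lit 0x8201805),.c (nat_lit 4) (nat_lit 0x8010862),
    .c (nat_lit 3) (nat_lit 0x4210862),.c (nat_lit 0) (nat_lit 0x12348d05),.c (nat_lit 1) (nat_lit 0x300804),
    .c (nat_lit 1) (nat_lit 0x8200805),.c (nat_lit 0) (nat_lit 0x301804),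
    .r (nat_lit 32) (nat_lit 8) [nat_lit 0x80010001,nat_lit 65],.c (nat_lit 4) (nat_lit 2),
    .r (nat_lit 8) (nat_lit 13) [nat_lit 0x1c6529042,nat_lit 0x200001],
    .r (nat_lit 0x174c) (nat_lit 0) [nat_lit 0x200001,nat_lit 65,nat_lit 0x80310861],
    .c (nat_lit 0) (nat_lit 0x328885),.c (nat_lit 4) (nat_lit 0xc2210a2),.c (nat_lit 5) (nat_lit 2),
    .c (nat_lit 1) (nat_lit 0x82218a4),.c (nat_lit 6) (nat_lit 2)]]

/-- nodes -/
noncomputable def rD7k_24_8 : List RJ :=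
  [.l (nat_lit 13) (nat_lit 0x780) (nat_lit 3) (nat_lit 0x500000003c60000043200000370000003c5000003c50000038a000003e400000370000003700000037000000370000003fc000004a0) (nat_lit 0x13a0000000000000190000000ce0000013b0000013b0000011c00000176000001900000019000000190000001900000006000000104)
    (nat_lit 0x1e315406e03f026993d43c038a1a60dc06e01e02500f604603c611b0be05162ad10c09404a823611b086075038417c0fc05003c017b8bdc62c2bc1600cd03c02841e90cb846c3700f00a0043623512b07f03c01e00f007803c01e015693d446a2f71440a2855226911a88cc5822351b28b045164d310d8bdc514288161893c46a1ff16188dc6ca2c11280e283f82bc12789a45482140fc07803f41fa10e07e04301e012b0c585862a91640a904a82540f008d87082e011b0dc03c03340ff88cc4a81e00ff07803c01e028a0b804a834c0f00b0046a23512a07e03c01fe0f0078094026c10c07803c028411b88d446c1fa0f007803c01e019a09b046c3700f007805862c10f007e83c01e00f0078066826c1c20f603c032e1608b045c01f81360b804d826c1ce0be07504a00f00f486ca3651c2087094051419a0cd07e039c)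
    (nat_lit 0x1e31e00f007803c01e00f007803c01e00f007803c01e00aa03c63c01e00f007803c01e00f007803c01e00f007801b808d85007803c01e00f007803c01e00f007803c01e007e02f81e00a00f007803c01e00f007803c01e00f007802698a2c5ee21b1441e00f007803c01e00f007803c01e009ea2ad17b88d45142883c01e00f007803c01e00f007800f0086062c2561548b0c5487803c01e00f007803c01e0071425015e07f04d224f10a0a90f007803c01e00f007801a609505801e011a88d43f02540ff1e00f007803c01e006e023619a07804661ff0f009503c01fe3c01e00f007801b808d83c01e01608b0c3f41e00f007803c07803c01e003c0218142078046a2370fd08d83c01e00f00780f007801fe0ea07a41e01b28d9443838423811c06683341ce1e007b038419707805822c10fc0b805c026c13609b05f039c)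
    (nat_lit 5) (nat_lit 49)
    [[nat_lit 2,nat_lit 17,nat_lit 0x1011,nat_lit 0x100011,nat_lit 0x1001,nat_lit 0x1101,nat_lit 0x2001,
    nat_lit 0x101001,nat_lit 0x10001,nat_lit 0x100001],[nat_lit 32,nat_lit 48,nat_lit 288,nat_lit 0x1020,
    nat_lit 0x10020,nat_lit 0x100020,nat_lit 0x1000020,nat_lit 272,nat_lit 528,nat_lit 0x1110,nat_lit 0x10110,
    nat_lit 0x100110,nat_lit 0x1000110,nat_lit 0x1010,nat_lit 0x2010,nat_lit 0x11010,nat_lit 0x101010,
    nat_lit 0x1001010,nat_lit 0x10010,nat_lit 0x110010,nat_lit 0x1010010,nat_lit 0x100010,nat_lit 0x200010,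
    nat_lit 0x1100010,nat_lit 0x1000010],[nat_lit 512,nat_lit 768,nat_lit 0x1200,nat_lit 0x10200,nat_lit 0x100200,
    nat_lit 0x1100,nat_lit 0x2100,nat_lit 0x11100,nat_lit 0x101100,nat_lit 0x1001100,nat_lit 0x10100,nat_lit 0x20100,
    nat_lit 0x110100,nat_lit 0x100100,nat_lit 0x200100,nat_lit 0x1000100],[nat_lit 0x2000,nat_lit 0x1002000,
    nat_lit 0x11000,nat_lit 0x101000,nat_lit 0x1001000,nat_lit 0x1011000,nat_lit 0x1101000],[nat_lit 0x20000,
    nat_lit 0x110000],[nat_lit 0x200000,nat_lit 0x1100000],[]]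
    [.c (nat_lit 1) (nat_lit 2),.r (nat_lit 4) (nat_lit 8) [nat_lit 0xc0000861,nat_lit 65],
    .c (nat_lit 5) (nat_lit 0x6000043),.r (nat_lit 0x46f) (nat_lit 4) [nat_lit 0x204200061,nat_lit 0x146300041,
    nat_lit 0x2084200a1,nat_lit 0x44e729041,nat_lit 0x4300041],.c (nat_lit 0) (nat_lit 0x6300c43),
    .c (nat_lit 0) (nat_lit 0x6018002),.r (nat_lit 0x470) (nat_lit 3) [nat_lit 0x188221441,nat_lit 0x24e54a0a1,
    nat_lit 0x14a029061,nat_lit 0x14a329061,nat_lit 0x210452481],.r (nat_lit 0x1c71) (nat_lit 6) [nat_lit 0x146000861,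
    nat_lit 0x104010c41,nat_lit 0x80200001],.r (nat_lit 0x1c71) (nat_lit 6) [nat_lit 0xc0300041,nat_lit 0x80210061,
    nat_lit 0x80200001],.c (nat_lit 2) (nat_lit 0x218002),.c (nat_lit 2) (nat_lit 2),
    .r (nat_lit 0x1080) (nat_lit 10) [nat_lit 0x1ce039801,nat_lit 0xc030061,nat_lit 0x700001,nat_lit 65],
    .r (nat_lit 0x174c) (nat_lit 6) [nat_lit 0x80200001,nat_lit 0x10001,nat_lit 0x146318841],
    .r (nat_lit 0x1188) (nat_lit 13) [nat_lit 0xa418041,nat_lit 0x140519061,nat_lit 0x10001,nat_lit 0x108010061],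
    .c (nat_lit 1) (nat_lit 0x520c02),.r (nat_lit 0x107d) (nat_lit 4) [nat_lit 0x80529061,nat_lit 0x200421441,
    nat_lit 0x4409120a1,nat_lit 0x140318881],.r (nat_lit 0x107e) (nat_lit 4) [nat_lit 0x529061,nat_lit 0x180421441,
    nat_lit 0x34091a0a1,nat_lit 0x210c81],.c (nat_lit 6) (nat_lit 0x6300002),.c (nat_lit 7) (nat_lit 0x8200003),
    .r (nat_lit 0x1082) (nat_lit 7) [nat_lit 0x8320861,nat_lit 0xa028001,nat_lit 0x200861,nat_lit 0x100200c41],
    .c (nat_lit 6) (nat_lit 0x4200803),.c (nat_lit 5) (nat_lit 0x4200803),.c (nat_lit 1) (nat_lit 0x6310002),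
    .c (nat_lit 0) (nat_lit 0xa028c85),.r (nat_lit 0x1c5f) (nat_lit 7) [nat_lit 0x80200c41,nat_lit 0x184411441,
    nat_lit 0x146319061],.c (nat_lit 1) (nat_lit 0x6000043),.r (nat_lit 0x1b96) (nat_lit 2) [nat_lit 0x80200001,
    nat_lit 65,nat_lit 0x300061],.c (nat_lit 6) (nat_lit 0x4010862),.c (nat_lit 7) (nat_lit 0x300c02),
    .c (nat_lit 1) (nat_lit 0x310c02),.r (nat_lit 0x1082) (nat_lit 7) [nat_lit 0x4020041,nat_lit 0xa028001,
    nat_lit 0x6400041,nat_lit 0x104000061],.r (nat_lit 0x1ae2) (nat_lit 2) [nat_lit 65,nat_lit 0x80200001,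
    nat_lit 0x300061],.r (nat_lit 0x1ca4) (nat_lit 13) [nat_lit 0x80200001,nat_lit 0x6200041,nat_lit 0x8500041,
    nat_lit 0x85300a1],.r (nat_lit 4) (nat_lit 8) [nat_lit 0xc0300861,nat_lit 0x200041],
    .c (nat_lit 0) (nat_lit 0xa028c85),.c (nat_lit 3) (nat_lit 2),
    .r (nat_lit 0x11bd) (nat_lit 11) [nat_lit 0x300c000a1,nat_lit 0x3180300a1,nat_lit 129,nat_lit 0x65ad6b081],
    .r (nat_lit 0x471) (nat_lit 12) [nat_lit 0x208210c41,nat_lit 65,nat_lit 0x34a5190a1,nat_lit 0x184210c41,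
    nat_lit 0x146318861],.c (nat_lit 2) (nat_lit 0x8400803),.c (nat_lit 0) (nat_lit 0xe318c42),
    .r (nat_lit 0x1b5d) (nat_lit 10) [nat_lit 0x80200061,nat_lit 65,nat_lit 0x146318841],
    .r (nat_lit 0x472) (nat_lit 12) [nat_lit 0x208210ce1,nat_lit 65,nat_lit 0x34a519101,nat_lit 0x184210ca1,
    nat_lit 0x146318841],.r (nat_lit 0x107e) (nat_lit 4) [nat_lit 0x6328841,nat_lit 0x184220c61,nat_lit 0x34a519081,
    nat_lit 0x83108a1],.r (nat_lit 0x470) (nat_lit 3) [nat_lit 0x84210c41,nat_lit 0x65290a1,nat_lit 0x6018861,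
    nat_lit 0x6318861,nat_lit 0x8431481],.c (nat_lit 1) (nat_lit 0x310c43),
    .r (nat_lit 0x174c) (nat_lit 6) [nat_lit 0x80200001,nat_lit 0x10001,nat_lit 0x4300861],
    .r (nat_lit 0x473) (nat_lit 13) [nat_lit 0x80220061,nat_lit 0x80020061,nat_lit 0x10001,nat_lit 0x1c6358881,
    nat_lit 0x28041],.c (nat_lit 2) (nat_lit 0x4200803),.c (nat_lit 0) (nat_lit 0x4000003),
    .r (nat_lit 0x1c71) (nat_lit 6) [nat_lit 0x10061,nat_lit 65,nat_lit 0x80200001],
    .c (nat_lit 0) (nat_lit 0x8000c05),.c (nat_lit 4) (nat_lit 2),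
    .r (nat_lit 0x1b5d) (nat_lit 10) [nat_lit 0xc6018861,nat_lit 0x104210c41,nat_lit 65],
    .r (nat_lit 4) (nat_lit 10) [nat_lit 0xc0000861,nat_lit 65],.c (nat_lit 0) (nat_lit 0x6318c43),
    .c (nat_lit 0) (nat_lit 0x6300c43),.r (nat_lit 0x174c) (nat_lit 6) [nat_lit 0x80200001,nat_lit 0x10001,
    nat_lit 0x140519061],.c (nat_lit 0) (nat_lit 0x6318c43),.c (nat_lit 5) (nat_lit 2),.c (nat_lit 0) (nat_lit 0x805),
    .c (nat_lit 6) (nat_lit 2),.c (nat_lit 0) (nat_lit 0x18003)],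
    .l (nat_lit 13) (nat_lit 0x5a0) (nat_lit 4) (nat_lit 0x1fb000001fb0000021d0000021d0000023e0000023e0000021f0000021f00000240000002400000021a0000021a0000021800000218) (nat_lit 0x4500000045000000230000002300000002000000020000002100000021000000000000000000000026000000260000002800000028)
    (nat_lit 0xd606d84341d80fc87e43b41da0fe87ec3aa1d50e9874c36c1ac10d07603f21f90ed07683fa1fb0e587543a61d30ec07603f41fa10d87643f81fc10e88743ee1f50ff87fc43421a0fd07e843621b0d607f043a1d70fb86c43ea1f50fc87e44361d911e08f04c621d1420a384302180ea08583f21f910d886c47823c131887462431c10c086042c2160ed07683f81fc10e88742401fe10f87643f21250fb87dc3b41da0d607f04c62630ff048043e21f12089643ee1f70fd87ec3ae21d18e0a3843e1d90f0090043421a10c07403fa1fd10e887462428410f887c4681e010d08684301d20ea87543621f510c08604b212510d08684742000f807c83961d50fb87dc43021812087e443421a11208e83e41f20e9874c3ea1ff10b08583ee1f70e907403e41f20f807003a61d30fa87fc42c1d40fb87dc4302180f907c03e01f0)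
    (nat_lit 0xd61680b405a02d01680b405a02d01680b405a02d0168036c1ac2d01680b405a02d01680b405a02d01680b405a010d08683f45a02d01680b405a02d01680b405a02d016803b01d80fd07e8b405a02d01680b405a02d01680b405a00fc87e443621b11e1680b405a02d01680b405a02d016803f21f90ec886c47823c2d01680b405a02d01680b405a00ed07683f81ac131898c2405a02d01680b405a02d016803b41da0fe07f043a21d0ff0480b405a02d01680b405a00fe87f443a21d1420c4843e21f0f01680b405a02d016803f61fb10e875c51c31c0ec887c4801e02d01680b405a00ea872c3ee1f710c08603f224110d08684745a02d016803aa1d50fa86c4430218092896443421a10008e8b405a00e9874c3fe1f50ea08583ee1f710c08603e01f20f816803a61d30ff87d442c2160fb87dc3a01d20f907c83801f0)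
    (nat_lit 4) (nat_lit 54)
    [[nat_lit 2,nat_lit 0x1000002,nat_lit 258,nat_lit 17,nat_lit 0x1000011,nat_lit 0x1011,nat_lit 257,nat_lit 0x1001,
    nat_lit 0x2001,nat_lit 0x10001,nat_lit 0x100001,nat_lit 0x1000001,nat_lit 0x2000001],[nat_lit 32,nat_lit 272,
    nat_lit 0x1110,nat_lit 0x1010,nat_lit 0x2010,nat_lit 0x101010,nat_lit 0x10010,nat_lit 0x100010,nat_lit 0x1000010,
    nat_lit 0x1001010,nat_lit 0x1100010,nat_lit 0x2000010],[nat_lit 512,nat_lit 0x1100,nat_lit 0x2100,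
    nat_lit 0x100100,nat_lit 0x1000100],[nat_lit 0x2000,nat_lit 0x3000,nat_lit 0x4000,nat_lit 0x102000,
    nat_lit 0x1002000,nat_lit 0x11000,nat_lit 0x101000,nat_lit 0x1101000,nat_lit 0x1001000,nat_lit 0x2001000],
    [nat_lit 0x20000,nat_lit 0x110000,nat_lit 0x1010000,nat_lit 0x2010000],[nat_lit 0x200000,nat_lit 0x1100000,
    nat_lit 0x2100000],[nat_lit 0x2000000,nat_lit 0x3000000]]
    [.c (nat_lit 1) (nat_lit 2),.r (nat_lit 0x1ab0) (nat_lit 5) [nat_lit 0x20001,nat_lit 0x224031,nat_lit 0x35021,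
    nat_lit 0x30021],.r (nat_lit 0x1b6e) (nat_lit 0) [nat_lit 0x20001,nat_lit 0x330231,nat_lit 0x3021],
    .c (nat_lit 0) (nat_lit 0x20403),.r (nat_lit 0x1bf6) (nat_lit 3) [nat_lit 0x244051,nat_lit 0x333201,
    nat_lit 0x305041],.r (nat_lit 8) (nat_lit 6) [nat_lit 0x224031,nat_lit 0x333201],
    .r (nat_lit 32) (nat_lit 5) [nat_lit 0x20001,nat_lit 0x3021],.c (nat_lit 0) (nat_lit 0x24405),
    .r (nat_lit 0x1c48) (nat_lit 3) [nat_lit 0x333201,nat_lit 0x200001,nat_lit 0x204001,nat_lit 0x305041],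
    .r (nat_lit 32) (nat_lit 0) [nat_lit 0x20001,nat_lit 33],.c (nat_lit 1) (nat_lit 514),
    .c (nat_lit 0) (nat_lit 0x24405),.r (nat_lit 0x174c) (nat_lit 12) [nat_lit 0x333201,nat_lit 33,nat_lit 0x242031],
    .c (nat_lit 2) (nat_lit 2),.r (nat_lit 0x1bd6) (nat_lit 9) [nat_lit 33,nat_lit 0x202031],
    .r (nat_lit 0x19fd) (nat_lit 8) [nat_lit 0x20001,nat_lit 0x200001,nat_lit 0x204001,nat_lit 0x30021],
    .r (nat_lit 0x1bab) (nat_lit 2) [nat_lit 0x20031,nat_lit 0x333201,nat_lit 33],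
    .r (nat_lit 8) (nat_lit 6) [nat_lit 0x244032,nat_lit 0x333201],.r (nat_lit 8) (nat_lit 6) [nat_lit 0x222031,
    nat_lit 0x333201],.r (nat_lit 0x1b6e) (nat_lit 0) [nat_lit 0x20001,nat_lit 0x303021,nat_lit 0x30231],
    .c (nat_lit 0) (nat_lit 0x20005),.r (nat_lit 0x1ca7) (nat_lit 3) [nat_lit 0x20031,nat_lit 0x333201,
    nat_lit 0x200001,nat_lit 33],.c (nat_lit 2) (nat_lit 0x3002),.r (nat_lit 0x1bf6) (nat_lit 3) [nat_lit 0x240051,
    nat_lit 0x333201,nat_lit 0x300041],.r (nat_lit 0x1bf6) (nat_lit 3) [nat_lit 0x40031,nat_lit 0x333201,nat_lit 33],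
    .c (nat_lit 3) (nat_lit 2),.r (nat_lit 0x1ac9) (nat_lit 2) [nat_lit 0x20031,nat_lit 0x333201,nat_lit 33],
    .r (nat_lit 0x1a10) (nat_lit 2) [nat_lit 0x3001,nat_lit 0x40031,nat_lit 0x333201,nat_lit 33],
    .r (nat_lit 32) (nat_lit 5) [nat_lit 0x20001,nat_lit 33],.r (nat_lit 0x1b88) (nat_lit 4) [nat_lit 0x2001,
    nat_lit 0x303231,nat_lit 0x200001],.c (nat_lit 4) (nat_lit 2),.r (nat_lit 0x1749) (nat_lit 8) [nat_lit 33,
    nat_lit 0x60031,nat_lit 0x333201],.r (nat_lit 0x174a) (nat_lit 0) [nat_lit 0x80032,nat_lit 34,nat_lit 0x333201],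
    .r (nat_lit 0x1c48) (nat_lit 3) [nat_lit 0x333201,nat_lit 0x200001,nat_lit 0x204001,nat_lit 0x300041],
    .c (nat_lit 4) (nat_lit 0x3002),.r (nat_lit 0x19ec) (nat_lit 1) [nat_lit 0x20031,nat_lit 0x333201,nat_lit 33],
    .c (nat_lit 0) (nat_lit 0x24005),.c (nat_lit 1) (nat_lit 0x3202),.c (nat_lit 0) (nat_lit 0x2003),
    .c (nat_lit 7) (nat_lit 0x3002),.c (nat_lit 5) (nat_lit 2),.r (nat_lit 32) (nat_lit 0) [nat_lit 0x20001,
    nat_lit 0x2021],.r (nat_lit 0x1b2f) (nat_lit 2) [nat_lit 0x222321,nat_lit 0x303231,nat_lit 0x333201],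
    .r (nat_lit 0x1a10) (nat_lit 2) [nat_lit 0x3001,nat_lit 0x222321,nat_lit 0x333201,nat_lit 0x323231],
    .c (nat_lit 6) (nat_lit 2),.c (nat_lit 0) (nat_lit 0x24005),.r (nat_lit 0x174c) (nat_lit 12) [nat_lit 0x333201,
    nat_lit 0x2021,nat_lit 0x240031],.c (nat_lit 7) (nat_lit 2),.r (nat_lit 0x1748) (nat_lit 0) [nat_lit 33,
    nat_lit 0x60031,nat_lit 0x333201]]]

/-- nodes -/
noncomputable def rD7k_24_9 : List RJ :=
  [.l (nat_lit 11) (nat_lit 368) (nat_lit 3) (nat_lit 0xac000000ac000000a4000000b2000000b80000008100000099000000990000009f000000a70000008d0000008d0000009300000093) (nat_lit 0xc0000000c000000060000001400000037000000000000001f0000001f00000011000000190000002b0000002b0000002500000025)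
    (nat_lit 0x1402c86c0980d02d04688d0ec2184088110e188500a01b02602e0a811a24c3105c12624c43862130260510900ce1c85e09e10222c4f0b20fe1b46c0d81582882e0b21a42d03b08017c348428621502d0590720c02e0590b80b81805c0b80c21702e0680b819c2e0600b81883e0740b81702e05c1262345a09e0c42e037068104218370621021b84688d1a42f02e0b20d01b8440800b8170408740b82184008b0e8180400861402603a0740f4230310760ec2043e05c1102084e0a00f81f041088126204690b20b82e02e0620f81d02e05c11a1a04988117c2782e0b80b81b83e0740b8170468680c41883106d0b81703a06e110230340680dc1d04388710a1fc2e0611022044107a11a2342e06e)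
    (nat_lit 0x1405c0b81702e05c0b81702e05c0b81702e05c0590a02e05c0b81702e05c0b81702e05c0b81701b0360511702e05c0b81702e05c0b81702e05c04c098120288b81702e05c0b81702e05c0b81700d01703385c0c05c0b81702e05c0b81702e05c05a0a80e42c85c0602e05c0b81702e05c0b817011a2345e0d2164170371702e05c0b81702e05c04689313c2d05c0620d01b8b81702e05c0b81700ec188408760b81f0410881405c0b81702e05c04305c1162003007410c2004c0a02e05c0b817010224c4f0be1701703705c0e81f02e1702e05c0408931643485c05c0c41703a07c0b8170b817010e21c3f8850c2170408810f42084688d0dc5c0310620da1882e05c0dc1d0460880d01a03a06e)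
    (nat_lit 5) (nat_lit 79)
    [[nat_lit 2,nat_lit 3,nat_lit 18,nat_lit 0x1002,nat_lit 0x10002,nat_lit 0x100002,nat_lit 0x1000002,nat_lit 17,
    nat_lit 33,nat_lit 0x1011,nat_lit 0x10011,nat_lit 257,nat_lit 273,nat_lit 0x10101,nat_lit 0x100101,
    nat_lit 0x1000101,nat_lit 0x1001,nat_lit 0x2001,nat_lit 0x11001,nat_lit 0x10001,nat_lit 0x20001,nat_lit 0x110001,
    nat_lit 0x1010001,nat_lit 0x100001,nat_lit 0x1000001],[nat_lit 32,nat_lit 48,nat_lit 288,nat_lit 0x1020,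
    nat_lit 272,nat_lit 0x1110,nat_lit 0x10110,nat_lit 0x1000110,nat_lit 0x1010,nat_lit 0x2010,nat_lit 0x10010,
    nat_lit 0x1000010],[nat_lit 512,nat_lit 0x1100,nat_lit 0x11100,nat_lit 0x1001100,nat_lit 0x10100,nat_lit 0x20100,
    nat_lit 0x110100,nat_lit 0x1010100,nat_lit 0x100100,nat_lit 0x1100100,nat_lit 0x1000100],[nat_lit 0x2000,
    nat_lit 0x3000,nat_lit 0x11000,nat_lit 0x1001000],[nat_lit 0x20000,nat_lit 0x30000,nat_lit 0x120000,
    nat_lit 0x110000,nat_lit 0x1010000],[nat_lit 0x200000],[nat_lit 0x2000000]]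
    [.c (nat_lit 1) (nat_lit 2),.r (nat_lit 32) (nat_lit 10) [nat_lit 0xe319863,nat_lit 0xc0010043],
    .r (nat_lit 0x18f9) (nat_lit 0) [nat_lit 0x10001,nat_lit 0x200001,nat_lit 0x4000001,nat_lit 65],
    .r (nat_lit 32) (nat_lit 10) [nat_lit 0x803198e3,nat_lit 0x14e0100c3],
    .r (nat_lit 0x425) (nat_lit 4) [nat_lit 0x200001,nat_lit 0xcc211cc1,nat_lit 0x1a52b0e1,nat_lit 0x803198e1,
    nat_lit 0x10001],.r (nat_lit 0x426) (nat_lit 5) [nat_lit 0xe673c8e1,nat_lit 0x1240000e1,nat_lit 0x30001,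
    nat_lit 0x800000c1,nat_lit 0x600001],.r (nat_lit 32) (nat_lit 10) [nat_lit 0x1a32b0e6,nat_lit 0x1403200c6],
    .c (nat_lit 0) (nat_lit 0x718cc7),.r (nat_lit 0x102f) (nat_lit 11) [nat_lit 65,nat_lit 0x220003,nat_lit 0x4000001,
    nat_lit 0xda52b0e3],.r (nat_lit 0x1ca9) (nat_lit 13) [nat_lit 0xce3000c3,nat_lit 0x803198e3,nat_lit 0x410003],
    .c (nat_lit 0) (nat_lit 0x718cc7),.c (nat_lit 0) (nat_lit 0x4600807),
    .r (nat_lit 0x1b9d) (nat_lit 11) [nat_lit 0xe3118e3,nat_lit 0xc0300003,nat_lit 0x8c200003],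
    .r (nat_lit 4) (nat_lit 7) [nat_lit 0xe3118e3,nat_lit 0xc00180c3],.c (nat_lit 4) (nat_lit 0x4c00807),
    .r (nat_lit 32) (nat_lit 10) [nat_lit 0x6000861,nat_lit 0xc03000c3],.c (nat_lit 0) (nat_lit 0x4600007),
    .r (nat_lit 32) (nat_lit 10) [nat_lit 0x1663198c3,nat_lit 0x980100e3],
    .r (nat_lit 8) (nat_lit 5) [nat_lit 0x803198e3,nat_lit 0x4000001],.c (nat_lit 0) (nat_lit 0x718cc7),
    .r (nat_lit 0xdc4) (nat_lit 2) [nat_lit 0xda52b0e3,nat_lit 0x100020003,nat_lit 0x8000001,nat_lit 65],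
    .r (nat_lit 0x1bd7) (nat_lit 4) [nat_lit 0x10001,nat_lit 0x200001,nat_lit 0x4000001,nat_lit 0xe3198e1,
    nat_lit 0x80000001],.r (nat_lit 4) (nat_lit 7) [nat_lit 0x6000861,nat_lit 0xc03000c3],
    .r (nat_lit 32) (nat_lit 10) [nat_lit 0xda52b0e6,nat_lit 0xc00200c6],.c (nat_lit 0) (nat_lit 0x4610007),
    .c (nat_lit 2) (nat_lit 2),.r (nat_lit 0x1ca9) (nat_lit 13) [nat_lit 0x300043,nat_lit 0xe319863,nat_lit 0x410003],
    .r (nat_lit 0x1ca9) (nat_lit 13) [nat_lit 0x5180c6,nat_lit 0x1a51b0e6,nat_lit 0x410003],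
    .r (nat_lit 0x428) (nat_lit 4) [nat_lit 0x200001,nat_lit 0xc0000e1,nat_lit 0xda3198c1,nat_lit 193,
    nat_lit 0x10001],.r (nat_lit 4) (nat_lit 3) [nat_lit 0xce3018e3,nat_lit 65],
    .r (nat_lit 0xe1d) (nat_lit 13) [nat_lit 0xe3018e1,nat_lit 0x200001,nat_lit 0xc000001,nat_lit 0x10001],
    .c (nat_lit 4) (nat_lit 0x4c100e6),.r (nat_lit 0x1ca9) (nat_lit 13) [nat_lit 0x5180c3,nat_lit 0x6000861,
    nat_lit 0x410003],.r (nat_lit 0x1aa8) (nat_lit 13) [nat_lit 0xce3000c3,nat_lit 0xc0300003,nat_lit 0x8c200003],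
    .r (nat_lit 0x429) (nat_lit 4) [nat_lit 0x200001,nat_lit 0xc000001,nat_lit 0xda3198e1,nat_lit 0x10001,
    nat_lit 193],.c (nat_lit 0) (nat_lit 0x718cc7),.r (nat_lit 4) (nat_lit 3) [nat_lit 0xce0198e3,nat_lit 0x3100c3],
    .c (nat_lit 3) (nat_lit 2),.c (nat_lit 0) (nat_lit 0x4600807),
    .r (nat_lit 0x102d) (nat_lit 11) [nat_lit 0x802018e3,nat_lit 0x220003,nat_lit 0x98201cc3,nat_lit 0xda5298c3],
    .r (nat_lit 32) (nat_lit 10) [nat_lit 0xda5298c3,nat_lit 0xc2200e3],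
    .r (nat_lit 0x1a29) (nat_lit 2) [nat_lit 0x218003,nat_lit 0xce3018e3,nat_lit 65],
    .r (nat_lit 8) (nat_lit 5) [nat_lit 0x1a51b0e6,nat_lit 0x4000001],.c (nat_lit 2) (nat_lit 0x67180c7),
    .r (nat_lit 8) (nat_lit 5) [nat_lit 0x6000861,nat_lit 0x4000001],.r (nat_lit 32) (nat_lit 10) [nat_lit 0xce3018e3,
    nat_lit 65],.c (nat_lit 0) (nat_lit 0x4018c06),.c (nat_lit 0) (nat_lit 0x10807),.c (nat_lit 4) (nat_lit 2),
    .r (nat_lit 32) (nat_lit 10) [nat_lit 0xda319843,nat_lit 0xc010063],.r (nat_lit 0x1bd6) (nat_lit 7) [nat_lit 65,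
    nat_lit 0x8c0100e3],.c (nat_lit 0) (nat_lit 0x4610007),.c (nat_lit 5) (nat_lit 2),
    .r (nat_lit 8) (nat_lit 5) [nat_lit 0xe319863,nat_lit 0x4000001],
    .r (nat_lit 0x102f) (nat_lit 11) [nat_lit 0xda52b0e3,nat_lit 0x220003,nat_lit 0x4000001,nat_lit 65],
    .r (nat_lit 4) (nat_lit 7) [nat_lit 0xce3018e3,nat_lit 65],.r (nat_lit 0x1a29) (nat_lit 2) [nat_lit 0x218003,
    nat_lit 0xce0198e3,nat_lit 0x3100c3],.c (nat_lit 6) (nat_lit 2),.c (nat_lit 7) (nat_lit 2)],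
    .l (nat_lit 14) (nat_lit 0xf00) (nat_lit 4) (nat_lit 0x61e0000061e000005c2000005c20000066a0000066a00000600000006000000062e0000062e000004f1000004f1000005c2000005c2) (nat_lit 0x4c0000004c000000a8000000a800000000000000000000006a0000006a0000003c0000003c0000017900000179000000a8000000a8)
    (nat_lit 0x17485d215c85761f006e416d05b417885e211a44c515d857217485d215c8576207074016d05b417885e211a44c515d857215d85760fe051a17085c6156035a15985861134449146855615c857219383f817085c21eb85b016085a2112444911505121d006e417085c61848536179060018b83d813e44f517185c220707c017085c219a8612180060017485d213d44f117085c216d05b416c035a180060017c859617105c4121c4e30ed855416d05b41eb855818005e417d85f217105c4121c4e3156055817885e2168858617483d817105c4165859212d44b5161858617885e21608566174862e17105c417c859612e44b5159858613144c5112444913c44f5138c4e312d44b50de0378112444511a4469112444d13d44f9121c48712e44b50c00378113444915c8572144855617085c2156055416185861124445155859215d8576115051a17085c615603b6159858611344491468556)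
    (nat_lit 0x1748f003c00f003c00f003c00f003c00f003c00f003c00f0017485d23c00f003c00f003c00f003c00f003c00f003c00f0015c85720fe0f003c00f003c00f003c00f003c00f003c00f0015d857614683f83c00f003c00f003c00f003c00f003c00f001f0081c17085c21848f003c00f003c00f003c00f003c00f001b9074017185c214d86123c00f003c00f003c00f003c00f0016d05b415607ae179060017c8f003c00f003c00f003c00f0016d05b40d685b0180060016585f23c00f003c00f003c00f0017885e2159858218b85d217105c41658f003c00f003c00f0017885e216185a20f605d217105c416485963c00f003c00f0011a4469113444913e44f5121c48712d44b90de0f003c00f0013144c5112444913d44f1138c4e312d44b50de03783c00f0015d8576146845417185c20ed85581618566112444d1558f0015c8572155851217085c21550558161858611144491648556)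
    (nat_lit 4) (nat_lit 61)
    [[nat_lit 2,nat_lit 18,nat_lit 0x1002,nat_lit 17,nat_lit 33,nat_lit 273,nat_lit 0x1011,nat_lit 0x100011,
    nat_lit 0x1000011,nat_lit 257,nat_lit 0x1001,nat_lit 0x101001,nat_lit 0x1001001,nat_lit 0x10001,nat_lit 0x100001,
    nat_lit 0x200001,nat_lit 0x1000001],[nat_lit 32,nat_lit 48,nat_lit 64,nat_lit 288,nat_lit 0x1020,nat_lit 0x10020,
    nat_lit 0x100020,nat_lit 0x1000020,nat_lit 272,nat_lit 0x100110,nat_lit 0x10110,nat_lit 0x1010,nat_lit 0x101010,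
    nat_lit 0x10010,nat_lit 0x100010,nat_lit 0x200010,nat_lit 0x1100010,nat_lit 0x1000010],[nat_lit 512,
    nat_lit 0x1100,nat_lit 0x101100,nat_lit 0x10100,nat_lit 0x100100,nat_lit 0x1000100],[nat_lit 0x2000,
    nat_lit 0x11000,nat_lit 0x101000,nat_lit 0x1001000,nat_lit 0x1101000],[nat_lit 0x20000,nat_lit 0x110000],
    [nat_lit 0x200000,nat_lit 0x300000,nat_lit 0x1200000,nat_lit 0x1100000],[nat_lit 0x2000000]]
    [.c (nat_lit 1) (nat_lit 2),.r (nat_lit 2) (nat_lit 5) [nat_lit 0x2001,nat_lit 0x303021],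
    .r (nat_lit 0x1ca9) (nat_lit 8) [nat_lit 0x33231,nat_lit 0x2001,nat_lit 33],.c (nat_lit 0) (nat_lit 0x22203),
    .r (nat_lit 0x1b2f) (nat_lit 9) [nat_lit 0x333021,nat_lit 0x224031,nat_lit 0x20001],
    .r (nat_lit 32) (nat_lit 2) [nat_lit 0x2001,nat_lit 0x303021],.r (nat_lit 32) (nat_lit 7) [nat_lit 0x30231,
    nat_lit 0x303021],.c (nat_lit 1) (nat_lit 770),.c (nat_lit 5) (nat_lit 0x24203),.c (nat_lit 0) (nat_lit 0x3323),
    .c (nat_lit 0) (nat_lit 0x3323),.r (nat_lit 8) (nat_lit 1) [nat_lit 0x30231,nat_lit 0x20001],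
    .r (nat_lit 0x1a29) (nat_lit 2) [nat_lit 0x22321,nat_lit 0x2001,nat_lit 0x3231],.c (nat_lit 6) (nat_lit 0x33002),
    .r (nat_lit 0x1b64) (nat_lit 5) [nat_lit 0x20001,nat_lit 0x22321,nat_lit 0x30231],
    .r (nat_lit 0x1098) (nat_lit 10) [nat_lit 0x60001,nat_lit 0x300021,nat_lit 0x400021,nat_lit 0x206031],
    .r (nat_lit 2) (nat_lit 5) [nat_lit 0x2001,nat_lit 33],.c (nat_lit 2) (nat_lit 2),
    .r (nat_lit 0x1748) (nat_lit 2) [nat_lit 33,nat_lit 0x6031,nat_lit 0x20001],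
    .r (nat_lit 0x174a) (nat_lit 2) [nat_lit 34,nat_lit 0x8032,nat_lit 0x20001],
    .r (nat_lit 0x174c) (nat_lit 10) [nat_lit 0x20001,nat_lit 33,nat_lit 0x32231],
    .r (nat_lit 0x1bf6) (nat_lit 5) [nat_lit 0x4031,nat_lit 0x20001,nat_lit 33],
    .r (nat_lit 0x11f8) (nat_lit 10) [nat_lit 0x40001,nat_lit 0x24031,nat_lit 0x424031,nat_lit 0x30021],
    .c (nat_lit 2) (nat_lit 770),.r (nat_lit 0x1097) (nat_lit 9) [nat_lit 0x77601,nat_lit 0x464031,nat_lit 0x304031,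
    nat_lit 0x505021],.r (nat_lit 0x1750) (nat_lit 13) [nat_lit 33,nat_lit 0x20001],.c (nat_lit 3) (nat_lit 770),
    .r (nat_lit 0x1ca9) (nat_lit 8) [nat_lit 0x333021,nat_lit 0x2001,nat_lit 0x200231],
    .r (nat_lit 0x195b) (nat_lit 4) [nat_lit 0x2001,nat_lit 0x3021,nat_lit 0x20001,nat_lit 0x200001],
    .c (nat_lit 4) (nat_lit 770),.c (nat_lit 0) (nat_lit 0x22203),.c (nat_lit 0) (nat_lit 515),
    .c (nat_lit 6) (nat_lit 770),.c (nat_lit 5) (nat_lit 0x2203),.r (nat_lit 0x1b2f) (nat_lit 9) [nat_lit 0x30021,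
    nat_lit 0x22031,nat_lit 0x20001],.c (nat_lit 3) (nat_lit 2),.c (nat_lit 0) (nat_lit 0x3323),
    .c (nat_lit 5) (nat_lit 0x24232),.r (nat_lit 0x1a29) (nat_lit 2) [nat_lit 0x20031,nat_lit 0x2001,nat_lit 33],
    .r (nat_lit 32) (nat_lit 5) [nat_lit 0x333231,nat_lit 33],.r (nat_lit 32) (nat_lit 2) [nat_lit 0x2001,nat_lit 33],
    .c (nat_lit 4) (nat_lit 2),.r (nat_lit 0x1b60) (nat_lit 6) [nat_lit 0x2001,nat_lit 0x20031,nat_lit 33],
    .r (nat_lit 0x1c42) (nat_lit 5) [nat_lit 33,nat_lit 0x20001],.r (nat_lit 32) (nat_lit 7) [nat_lit 0x333231,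
    nat_lit 33],.c (nat_lit 3) (nat_lit 0x33323),.c (nat_lit 5) (nat_lit 2),
    .r (nat_lit 0x1ac9) (nat_lit 9) [nat_lit 0x2031,nat_lit 0x20001,nat_lit 33],.c (nat_lit 6) (nat_lit 2),
    .r (nat_lit 0x1749) (nat_lit 6) [nat_lit 33,nat_lit 0x6031,nat_lit 0x20001],
    .r (nat_lit 0x11f8) (nat_lit 10) [nat_lit 0x40001,nat_lit 33,nat_lit 0x400021,nat_lit 0x4031],
    .c (nat_lit 1) (nat_lit 0x20002),.c (nat_lit 7) (nat_lit 2)]]

/-- nodes -/
noncomputable def rD7k_24_10 : List RJ :=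
  [.l (nat_lit 12) (nat_lit 960) (nat_lit 4) (nat_lit 0x160000001600000015e0000015e00000164000001640000018000000180000001670000016700000166000001800000017300000173) (nat_lit 0x200000002000000022000000220000001c0000001c00000000000000000000001900000019000000000000001a0000000d0000000d)
    (nat_lit 0x14014013e13e1441500fa1601471471600fa15315314014012013e16216214814214713f15412e15315313e13e11e13c16016016614015d15d15e14415115d12013e13c11e14214216215e14514515e14414515116215014216014814816416414b14716414a1571571621441421601341481641641311471b619c15715714216015e1401641641841941151671801801731211480fa1621661641641801841671670c016c17315b13f14714515d14714716716714814e17f14d1c021a14714714515d13114b16711514e14818714d1a620012e0fa14414419c14a16c18014d14d0c014c15913915416015e15e1b61640c018018717f1800c017317315315315115d15715715b12120021a1731391661661531531451511571571731731a61c0173159166166)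
    (nat_lit 0x1403c03c03c03c03c03c03c03c03c03c03c03c03c01401403c03c03c03c03c03c03c03c03c03c03c03c013e12011e3c03c03c03c03c03c03c03c03c03c03c013e13e13c11e3c03c03c03c03c03c03c03c03c03c01441621601421483c03c03c03c03c03c03c03c03c01501621601421481483c03c03c03c03c03c03c03c00fa1481661621641641843c03c03c03c03c03c03c016014214015e1641641941843c03c03c03c03c03c014714715d14514b1311151671483c03c03c03c03c014713f15d14514714716716714e1483c03c03c03c016015415e15e1641b61800c017f1870c03c03c03c00fa12e14414414a19c18016c14d14d14c0c03c03c01531531511451571571731731c01a61591731663c015315315d15115715712115b21a200139173166166)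
    (nat_lit 5) (nat_lit 61)
    [[nat_lit 2,nat_lit 17,nat_lit 33,nat_lit 0x1011,nat_lit 0x1001,nat_lit 0x10001,nat_lit 0x100001,
    nat_lit 0x1000001,nat_lit 0x1001001],[nat_lit 32,nat_lit 48,nat_lit 64,nat_lit 288,nat_lit 0x1020,
    nat_lit 0x1001020,nat_lit 0x100020,nat_lit 0x1000020,nat_lit 272,nat_lit 0x1010,nat_lit 0x1001010,nat_lit 0x1110,
    nat_lit 0x11010,nat_lit 0x101010,nat_lit 0x10010,nat_lit 0x100010,nat_lit 0x1100010,nat_lit 0x1000010,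
    nat_lit 0x2000010],[nat_lit 512,nat_lit 0x1100,nat_lit 0x1001100,nat_lit 0x10100,nat_lit 0x100100,
    nat_lit 0x1000100],[nat_lit 0x2000,nat_lit 0x11000,nat_lit 0x101000,nat_lit 0x1001000,nat_lit 0x1101000,
    nat_lit 0x2001000],[nat_lit 0x20000,nat_lit 0x110000,nat_lit 0x1010000],[nat_lit 0x200000,nat_lit 0x300000,
    nat_lit 0x1200000,nat_lit 0x1100000,nat_lit 0x2100000],[nat_lit 0x2000000]]
    [.c (nat_lit 1) (nat_lit 2),.r (nat_lit 4) (nat_lit 8) [nat_lit 0x6000861,nat_lit 65],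
    .r (nat_lit 0x102f) (nat_lit 4) [nat_lit 0xa319061,nat_lit 0x10001,nat_lit 0x4200001,nat_lit 65],
    .c (nat_lit 5) (nat_lit 0x300043),.r (nat_lit 32) (nat_lit 3) [nat_lit 0x6000861,nat_lit 65],
    .r (nat_lit 0x1b9d) (nat_lit 4) [nat_lit 0x6000861,nat_lit 0x200001,nat_lit 0x4000001],
    .r (nat_lit 32) (nat_lit 3) [nat_lit 0xa319062,nat_lit 0x210042],.r (nat_lit 0x1a9a) (nat_lit 2) [nat_lit 65,
    nat_lit 0x300061,nat_lit 0x4200001],.r (nat_lit 0x1b5d) (nat_lit 10) [nat_lit 0x18041,nat_lit 0x4210061,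
    nat_lit 0x10001],.c (nat_lit 2) (nat_lit 2),.r (nat_lit 0x1029) (nat_lit 7) [nat_lit 0x32d3b0a1,
    nat_lit 0x18000001,nat_lit 0x18c00001,nat_lit 129],.r (nat_lit 0x102a) (nat_lit 7) [nat_lit 0x2292a062,
    nat_lit 0x8000001,nat_lit 0x8400001,nat_lit 66],.r (nat_lit 0x102b) (nat_lit 4) [nat_lit 0x8000001,
    nat_lit 0x12519061,nat_lit 0x10001,nat_lit 65],.r (nat_lit 0x102c) (nat_lit 4) [nat_lit 0x10000001,
    nat_lit 0x2291a0a1,nat_lit 0x20001,nat_lit 0x18081],.r (nat_lit 0x1c54) (nat_lit 4) [nat_lit 0x10001,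
    nat_lit 0x18081,nat_lit 0x200001,nat_lit 0x4000001],.r (nat_lit 0x1030) (nat_lit 4) [nat_lit 0x10001,nat_lit 65,
    nat_lit 0xa319061,nat_lit 0x4200001],.r (nat_lit 8) (nat_lit 8) [nat_lit 0xa519062,nat_lit 0x4200001],
    .r (nat_lit 0x1aa5) (nat_lit 4) [nat_lit 0x200001,nat_lit 0x6000041,nat_lit 0x4000001],
    .r (nat_lit 0x1aa1) (nat_lit 7) [nat_lit 0x4200001,nat_lit 0x6300861,nat_lit 0x4210c41],
    .r (nat_lit 8) (nat_lit 8) [nat_lit 0x6300861,nat_lit 0x4200001],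
    .r (nat_lit 0x102d) (nat_lit 4) [nat_lit 0x300861,nat_lit 0x10001,nat_lit 0x8200c41,nat_lit 0xa318841],
    .c (nat_lit 1) (nat_lit 0x300043),.r (nat_lit 0x1b96) (nat_lit 2) [nat_lit 0x4200001,nat_lit 65,nat_lit 0x300061],
    .c (nat_lit 0) (nat_lit 0x528c85),.c (nat_lit 0) (nat_lit 0x528c85),.r (nat_lit 4) (nat_lit 8) [nat_lit 0x6300861,
    nat_lit 0x200041],.r (nat_lit 0x1b93) (nat_lit 4) [nat_lit 65,nat_lit 0x200001,nat_lit 0x6300861],
    .r (nat_lit 0x1c55) (nat_lit 4) [nat_lit 65,nat_lit 0x10001,nat_lit 0x200001,nat_lit 0x4000001],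
    .c (nat_lit 3) (nat_lit 2),.r (nat_lit 0x1b5d) (nat_lit 10) [nat_lit 0x4200061,nat_lit 65,nat_lit 0x10001],
    .r (nat_lit 32) (nat_lit 3) [nat_lit 0xa318841,nat_lit 0x4210061],
    .r (nat_lit 0x17f1) (nat_lit 0) [nat_lit 0x10001,nat_lit 0x6000041,nat_lit 0x200001,nat_lit 0x4000001],
    .c (nat_lit 4) (nat_lit 0x300802),.c (nat_lit 0) (nat_lit 0x200003),.c (nat_lit 4) (nat_lit 2),
    .r (nat_lit 4) (nat_lit 10) [nat_lit 0x6000861,nat_lit 65],.r (nat_lit 0x1ae3) (nat_lit 2) [nat_lit 65,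
    nat_lit 0x4200001,nat_lit 0x300061],.c (nat_lit 0) (nat_lit 0x803),.r (nat_lit 32) (nat_lit 3) [nat_lit 0x6300861,
    nat_lit 0x200041],.r (nat_lit 0x1caa) (nat_lit 11) [nat_lit 0x20061,nat_lit 0x18081,nat_lit 0x4200001,
    nat_lit 0x7100a1],.c (nat_lit 5) (nat_lit 2),.c (nat_lit 0) (nat_lit 0x528c85),
    .r (nat_lit 0x1c53) (nat_lit 2) [nat_lit 0x4200001,nat_lit 0x6300861,nat_lit 0x4000c41],
    .c (nat_lit 6) (nat_lit 2),.r (nat_lit 0x1895) (nat_lit 2) [nat_lit 65,nat_lit 0x4200001,nat_lit 0x700061,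
    nat_lit 0x630041],.r (nat_lit 32) (nat_lit 3) [nat_lit 0xa519062,nat_lit 0x410042],
    .c (nat_lit 0) (nat_lit 0x18003),.r (nat_lit 0x1a9a) (nat_lit 2) [nat_lit 0x200041,nat_lit 0x500061,
    nat_lit 0x4200001],.c (nat_lit 7) (nat_lit 2)],
    .l (nat_lit 14) (nat_lit 0xb40) (nat_lit 5) (nat_lit 0x46a0000046a0000046c0000046c00000479000004790000047e0000047e0000047f0000047f00000518000005180000047d0000047d) (nat_lit 0xae000000ae000000ac000000ac0000009f0000009f0000009a0000009a000000990000009900000000000000000000009b0000009b)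
    (nat_lit 0xe883bc0f803be0f2c3cb0e284080fbc3af11a82940f3c3cf0eb83a20fb03be100c3d70f4041410b43af11a846a0f3c3cf0ef83be0ed03ce0e2439f0fd039a0f4c3d311b04100fac3d10fb03e00f103b40f843cd0fc83c20f4c3bd11b046c0f443a10f5c3cb0f3439f0fa83d60fd43cb0f803c012a44790ef03de100c3cb0f843890f603ea0f7c3df0f183e013844b10e983de10504080f0839a0f7c3cb0f903e60eb43e511f84980f8c37b0f4038a0fc83f40f7c3f50f903e40eb43e50b7047e10143e30ebc3af0ef43d30f803c00f943e50f983e611fc4b710a858610b43ef0f4c3d30f183e00eb43ad0f983e613f447f16e871611a829411b041012c447911f849811fc4b70798518117c3ff11a846a11b046c13844a90b7047e13f447f14601e611f447d0f3c3cf0e843d10f783de0f8c37b1c5858611f43ff0f883e20f3c3cf0f443eb0e983bc10143e316e842a11f445f0f883e2)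
    (nat_lit 0xe88b402d00b402d00b402d00b402d00b402d00b402d00b400ef03a22d00b402d00b402d00b402d00b402d00b402d00b400f803ec0ed0b402d00b402d00b402d00b402d00b402d00b400ef83be0f383b42d00b402d00b402d00b402d00b402d00b400f2c4030e243e10fa8b402d00b402d00b402d00b402d00b400f2c3d70e7c3cd0f583ea2d00b402d00b402d00b402d00b400e283d00fd03f20fd43df0f90b402d00b402d00b402d00b4010204140e683c20f2c3df0f983e42d00b402d00b402d00b400fbc42d0f4c3d30f803c60eb43ad0f98b402d00b402d00b400ebc3af0f4c3bd0f003e00f943e50f983e62d00b402d00b4011a846a11b046c12a44e111f82dc11fc4fd0798b402d00b400a5046a104046c11e44b1126047e12dc47f14601e62d00b400f3c3cf0fac3d10ef03a60f8c40510a85ba117c47d0f88b400f3c3cf0f443a10f783de0dec3e316187160ffc47d0f883e2)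
    (nat_lit 5) (nat_lit 61)
    [[nat_lit 2,nat_lit 17,nat_lit 33,nat_lit 0x1011,nat_lit 0x1000011,nat_lit 0x1001,nat_lit 0x1001001,
    nat_lit 0x10001,nat_lit 0x11001,nat_lit 0x110001,nat_lit 0x100001,nat_lit 0x1000001,nat_lit 0x1100001],
    [nat_lit 32,nat_lit 48,nat_lit 64,nat_lit 80,nat_lit 0x1000030,nat_lit 288,nat_lit 0x1020,nat_lit 0x100020,
    nat_lit 0x1000020,nat_lit 272,nat_lit 0x1010,nat_lit 0x1001010,nat_lit 0x11010,nat_lit 0x101010,nat_lit 0x10010,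
    nat_lit 0x100010,nat_lit 0x1100010,nat_lit 0x1000010,nat_lit 0x2000010],[nat_lit 512,nat_lit 0x1100,
    nat_lit 0x1001100,nat_lit 0x101100,nat_lit 0x10100,nat_lit 0x110100,nat_lit 0x100100,nat_lit 0x1000100],
    [nat_lit 0x2000,nat_lit 0x11000,nat_lit 0x101000,nat_lit 0x1001000,nat_lit 0x1101000],[nat_lit 0x20000,
    nat_lit 0x110000,nat_lit 0x210000,nat_lit 0x1010000],[nat_lit 0x200000,nat_lit 0x300000,nat_lit 0x1100000],
    [nat_lit 0x2000000,nat_lit 0x3000000]]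
    [.c (nat_lit 1) (nat_lit 2),.r (nat_lit 4) (nat_lit 8) [nat_lit 0x6000861,nat_lit 65],
    .r (nat_lit 0x103a) (nat_lit 4) [nat_lit 0x10001,nat_lit 0x8018001,nat_lit 0xe301061,nat_lit 0x6300041],
    .c (nat_lit 5) (nat_lit 0x300043),.r (nat_lit 0x17e2) (nat_lit 4) [nat_lit 0x10001,nat_lit 0x6018861,
    nat_lit 0x200001,nat_lit 0x300041],.r (nat_lit 32) (nat_lit 3) [nat_lit 0x6000861,nat_lit 65],
    .c (nat_lit 0) (nat_lit 0x18c02),.r (nat_lit 0x1b9d) (nat_lit 4) [nat_lit 0x6000861,nat_lit 0x200001,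
    nat_lit 0x4000001],.c (nat_lit 2) (nat_lit 0x300043),.r (nat_lit 0x103b) (nat_lit 13) [nat_lit 0x8400001,
    nat_lit 0x10001,nat_lit 0x8018001,nat_lit 0x12510081],.r (nat_lit 0x1bb4) (nat_lit 10) [nat_lit 0x4200061,
    nat_lit 65,nat_lit 0x300041],.r (nat_lit 0x1b5d) (nat_lit 4) [nat_lit 0x4200061,nat_lit 65,nat_lit 0x10001],
    .c (nat_lit 1) (nat_lit 0x10002),.c (nat_lit 2) (nat_lit 2),.r (nat_lit 0x103c) (nat_lit 1) [nat_lit 0xd38001,
    nat_lit 0x1a0030a1,nat_lit 0x18c00001,nat_lit 129],.r (nat_lit 0x103d) (nat_lit 1) [nat_lit 0x518001,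
    nat_lit 0x12002062,nat_lit 0x8400001,nat_lit 66],.r (nat_lit 0x103e) (nat_lit 1) [nat_lit 0x1558001,
    nat_lit 0x2a0050a1,nat_lit 0x29400001,nat_lit 129],.r (nat_lit 0x103f) (nat_lit 4) [nat_lit 0x30001,
    nat_lit 0x18038001,nat_lit 0x32d130a1,nat_lit 0x18081],.r (nat_lit 0x1040) (nat_lit 4) [nat_lit 0x10001,
    nat_lit 0x8018001,nat_lit 0x12501061,nat_lit 65],.r (nat_lit 8) (nat_lit 8) [nat_lit 0xa519062,nat_lit 0x4200001],
    .r (nat_lit 0x1041) (nat_lit 4) [nat_lit 0xc421441,nat_lit 0x529061,nat_lit 0x1a91a0a1,nat_lit 0x210c81],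
    .r (nat_lit 0x1042) (nat_lit 4) [nat_lit 0x20001,nat_lit 0x10028001,nat_lit 0x229120a1,nat_lit 0x18081],
    .r (nat_lit 0x1aa5) (nat_lit 4) [nat_lit 0x200001,nat_lit 0x6000041,nat_lit 0x4000001],
    .r (nat_lit 0x1c42) (nat_lit 8) [nat_lit 0x4200001,nat_lit 65],.r (nat_lit 8) (nat_lit 8) [nat_lit 0x6300861,
    nat_lit 0x4200001],.c (nat_lit 1) (nat_lit 0x300043),.r (nat_lit 0x1b96) (nat_lit 2) [nat_lit 0x4200001,
    nat_lit 65,nat_lit 0x300061],.c (nat_lit 0) (nat_lit 0x528c85),.c (nat_lit 0) (nat_lit 0x528c85),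
    .r (nat_lit 4) (nat_lit 8) [nat_lit 0x6300861,nat_lit 0x200041],.r (nat_lit 0x1b93) (nat_lit 4) [nat_lit 65,
    nat_lit 0x200001,nat_lit 0x6300861],.r (nat_lit 0x1044) (nat_lit 4) [nat_lit 65,nat_lit 0xa529041,nat_lit 0x200a1,
    nat_lit 0x8000061],.c (nat_lit 3) (nat_lit 2),.r (nat_lit 0x1b95) (nat_lit 7) [nat_lit 0x6000041,nat_lit 0x200001,
    nat_lit 0x4000001],.r (nat_lit 0x1b5d) (nat_lit 4) [nat_lit 0x18041,nat_lit 0x4210061,nat_lit 0x10001],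
    .r (nat_lit 0x1cac) (nat_lit 4) [nat_lit 0x6010041,nat_lit 0x200001,nat_lit 0x4000001],
    .r (nat_lit 0x1aa8) (nat_lit 4) [nat_lit 0x200001,nat_lit 0x6000041,nat_lit 0x4000001],
    .r (nat_lit 0x1cab) (nat_lit 2) [nat_lit 0x318861,nat_lit 0x4200001,nat_lit 0x10c41],
    .c (nat_lit 0) (nat_lit 0x400c05),.c (nat_lit 0) (nat_lit 0x200003),.c (nat_lit 4) (nat_lit 2),
    .r (nat_lit 4) (nat_lit 10) [nat_lit 0x6000861,nat_lit 65],.r (nat_lit 0x1ae3) (nat_lit 2) [nat_lit 65,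
    nat_lit 0x4200001,nat_lit 0x300061],.c (nat_lit 0) (nat_lit 0x805),.r (nat_lit 32) (nat_lit 3) [nat_lit 0x6300861,
    nat_lit 0x200041],.c (nat_lit 5) (nat_lit 2),.c (nat_lit 0) (nat_lit 0x528c85),
    .r (nat_lit 0x1aa9) (nat_lit 4) [nat_lit 0x10001,nat_lit 65,nat_lit 0x200001,nat_lit 0x6318861],
    .r (nat_lit 0x1c53) (nat_lit 2) [nat_lit 0x4200001,nat_lit 0x6300861,nat_lit 0x4000c41],
    .c (nat_lit 6) (nat_lit 2),.r (nat_lit 0x17e4) (nat_lit 2) [nat_lit 65,nat_lit 0x4200001,nat_lit 0x700061,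
    nat_lit 0xc30081],.c (nat_lit 0) (nat_lit 0x18003),.c (nat_lit 7) (nat_lit 2),
    .r (nat_lit 0x1cac) (nat_lit 4) [nat_lit 0x20061,nat_lit 0x200001,nat_lit 0x4000001]],
    .l (nat_lit 12) (nat_lit 960) (nat_lit 3) (nat_lit 0x16300000163000001650000016500000165000001650000015d000001790000018a0000018a0000016b0000016b0000018500000185) (nat_lit 0x270000002700000025000000250000002500000025000000110000002d00000000000000000000001f0000001f0000000500000005)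
    (nat_lit 0x14814414a13a13e1460f813616315f1440f815e15a13c14813e13e14213e19813616316314414416215e13e13a14014014014015413416511f14614615416013e14a14014014014015813416516514614615811413e14614014014414015413816516119214615416014213e14014014014414c13816511f18a13e16016013613613413413813819213016516513e13e1581141980f815815414c1541681921791790f01a017817416315f16511f11f16117916514418a16b16b1df1ef16316316516516516517916518a14416b16b1d11e11440f814614613e1461a013e16b16b0f014c16616614414414614618a1920f013e16b16b14c0f016a16615e15a1141601601601741141e11ef16616618018016215e1581541601541781581d11df16a166178180)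
    (nat_lit 0x1483c03c03c03c03c03c03c03c03c03c03c03c03c01441483c03c03c03c03c03c03c03c03c03c03c03c014a13e1403c03c03c03c03c03c03c03c03c03c03c013a13e1401403c03c03c03c03c03c03c03c03c03c013e1421401401443c03c03c03c03c03c03c03c03c014613e1401401401443c03c03c03c03c03c03c03c00f819815415815414c1923c03c03c03c03c03c03c01361361341341381381301923c03c03c03c03c03c01631631651651651651651791443c03c03c03c03c015f16311f16516111f16517918a1443c03c03c03c014414414614619218a13e0f016b16b0f03c03c03c00f814414614614613e13e1a016b16b14c0f03c03c015e1621541581541601581781df1d116616a1803c015a15e1601141601601141741ef1e1166166180180)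
    (nat_lit 5) (nat_lit 61)
    [[nat_lit 2,nat_lit 17,nat_lit 33,nat_lit 0x1011,nat_lit 0x1001,nat_lit 0x1001001,nat_lit 0x10001,nat_lit 0x11001,
    nat_lit 0x110001,nat_lit 0x100001,nat_lit 0x200001,nat_lit 0x1000001,nat_lit 0x1100001],[nat_lit 32,nat_lit 48,
    nat_lit 0x1020,nat_lit 0x100020,nat_lit 0x1000020,nat_lit 272,nat_lit 0x1010,nat_lit 0x1001010,nat_lit 0x11010,
    nat_lit 0x101010,nat_lit 0x10010,nat_lit 0x100010,nat_lit 0x1100010,nat_lit 0x1000010,nat_lit 0x2000010],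
    [nat_lit 512,nat_lit 0x1100,nat_lit 0x10100,nat_lit 0x100100,nat_lit 0x1000100],[nat_lit 0x2000,nat_lit 0x11000,
    nat_lit 0x101000,nat_lit 0x1001000,nat_lit 0x1011000,nat_lit 0x1101000,nat_lit 0x2001000],[nat_lit 0x20000,
    nat_lit 0x110000,nat_lit 0x1110000,nat_lit 0x1010000],[nat_lit 0x200000,nat_lit 0x1200000,nat_lit 0x1100000],
    [nat_lit 0x2000000]]
    [.c (nat_lit 1) (nat_lit 2),.r (nat_lit 4) (nat_lit 8) [nat_lit 0x6000861,nat_lit 65],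
    .r (nat_lit 0x107a) (nat_lit 4) [nat_lit 0x4329061,nat_lit 0xc221441,nat_lit 0x1a5020a1,nat_lit 0xa500081],
    .c (nat_lit 5) (nat_lit 0x300043),.r (nat_lit 32) (nat_lit 3) [nat_lit 0x6000861,nat_lit 65],
    .r (nat_lit 0x1ca8) (nat_lit 4) [nat_lit 0x10001,nat_lit 0x200001,nat_lit 0x6018861,nat_lit 0x4000001],
    .r (nat_lit 0x1b9d) (nat_lit 4) [nat_lit 0x6000861,nat_lit 0x200001,nat_lit 0x4000001],
    .c (nat_lit 2) (nat_lit 0x300043),.c (nat_lit 0) (nat_lit 0x18c02),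
    .r (nat_lit 0x1bb4) (nat_lit 10) [nat_lit 0x4200061,nat_lit 65,nat_lit 0x300041],
    .r (nat_lit 0x1bb5) (nat_lit 5) [nat_lit 0x18041,nat_lit 0x10001,nat_lit 0x4210061],
    .r (nat_lit 0x1a9a) (nat_lit 2) [nat_lit 65,nat_lit 0x300061,nat_lit 0x4200001],.c (nat_lit 1) (nat_lit 0x10002),
    .c (nat_lit 2) (nat_lit 2),.r (nat_lit 0x107b) (nat_lit 10) [nat_lit 0x1a0030a1,nat_lit 0xc031c41,
    nat_lit 0xed39861,nat_lit 129],.r (nat_lit 0x107c) (nat_lit 4) [nat_lit 0x529061,nat_lit 0x10421441,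
    nat_lit 0x229020a1,nat_lit 129],.r (nat_lit 0x107d) (nat_lit 4) [nat_lit 0x4529061,nat_lit 0x10421441,
    nat_lit 0x229120a1,nat_lit 0xa318881],.r (nat_lit 0x107e) (nat_lit 4) [nat_lit 0x529061,nat_lit 0xc421441,
    nat_lit 0x1a91a0a1,nat_lit 0x210c81],.r (nat_lit 0x1bbb) (nat_lit 11) [nat_lit 0x6300041,nat_lit 0x4200001,
    nat_lit 0x10c41],.c (nat_lit 0) (nat_lit 0x528c85),.c (nat_lit 6) (nat_lit 0x210862),
    .c (nat_lit 1) (nat_lit 0x300043),.r (nat_lit 0x1b96) (nat_lit 2) [nat_lit 0x4200001,nat_lit 65,nat_lit 0x300061],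
    .r (nat_lit 32) (nat_lit 9) [nat_lit 0x6000861,nat_lit 65],.r (nat_lit 0x1ae2) (nat_lit 2) [nat_lit 65,
    nat_lit 0x4200001,nat_lit 0x300061],.r (nat_lit 4) (nat_lit 8) [nat_lit 0x6300861,nat_lit 0x200041],
    .c (nat_lit 0) (nat_lit 0x528c85),.r (nat_lit 0x107f) (nat_lit 1) [nat_lit 0x10001,nat_lit 0xa519061,
    nat_lit 0x8018061,nat_lit 0x410041],.c (nat_lit 3) (nat_lit 2),.r (nat_lit 0x1b95) (nat_lit 7) [nat_lit 0x6000041,
    nat_lit 0x200001,nat_lit 0x4000001],.r (nat_lit 0x1bb5) (nat_lit 5) [nat_lit 0x4200061,nat_lit 0x10001,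
    nat_lit 65],.c (nat_lit 0) (nat_lit 0x200003),.c (nat_lit 0) (nat_lit 0x400c05),.c (nat_lit 4) (nat_lit 2),
    .r (nat_lit 4) (nat_lit 10) [nat_lit 0x6000861,nat_lit 65],.r (nat_lit 0x1ae3) (nat_lit 2) [nat_lit 65,
    nat_lit 0x4200001,nat_lit 0x300061],.c (nat_lit 0) (nat_lit 0x528c85),
    .r (nat_lit 0x174c) (nat_lit 6) [nat_lit 0x4200001,nat_lit 0x10001,nat_lit 0xa519061],
    .r (nat_lit 32) (nat_lit 3) [nat_lit 0x6300861,nat_lit 0x200041],.r (nat_lit 0x1cad) (nat_lit 4) [nat_lit 65,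
    nat_lit 0x200001,nat_lit 0x4000001],.c (nat_lit 5) (nat_lit 2),.c (nat_lit 0) (nat_lit 0x805),
    .r (nat_lit 0x1b9d) (nat_lit 4) [nat_lit 0x6300861,nat_lit 0x200001,nat_lit 0x4000001],
    .r (nat_lit 0x18e2) (nat_lit 6) [nat_lit 0x4200001,nat_lit 0xa010081,nat_lit 0x4010061,nat_lit 0x8018041],
    .c (nat_lit 6) (nat_lit 2),.r (nat_lit 0x1bb4) (nat_lit 10) [nat_lit 0x4000061,nat_lit 0x200041,nat_lit 65],
    .c (nat_lit 0) (nat_lit 0x18003),.c (nat_lit 7) (nat_lit 2)]]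

/-- nodes -/
noncomputable def rD7k_24_11 : List RJ :=
  [.l (nat_lit 16) (nat_lit 0x2d00) (nat_lit 3) (nat_lit 0xfee000011a200001130000011300000119000001190000010a6000011ba00001150000011500000111a0000104600000f8700000f87) (nat_lit 0x18000001cc0000008a0000008a0000002a0000002a00000000000001140000006a0000006a00000174000000a00000023300000233)
    (nat_lit 0x10360b400f640c22114411440efe0faa0f840fe40b480f4e0dbb0dbb118a103611481118117812880b40102e118810380f3e0b4012b10f0f11180c220f9610a6116610d61230101c16881728101c10400e9d0fed11480f6410560f96110611061130101c15d816780fbc11800d7d0efd12881144110610d6116611b60bde107c10361126101c0bde0f5d0f5d1178114411061166116611660f90107c11461146113c0f500e8d0cbd102e0faa101c101c107c107c10860f9211dc123c11d20fe60cf30d530b400efe113012300f900bde12ba108611d01150112611fa0f270f8710380fe416781728114611261150123c10060fe60fdc1030100d0e3d11880f8415d816881146103611d011dc0f5610060fdc10b00f1d0f0d0b400f4e118010400f500bde11fa0fe610b010300fb6120a0ee70ee70f3e0b480fbc101c113c101c112611d20fdc0fdc0b400fb60e130e130f0f0dbb0efd0fed0cbd0f5d0f870d530f0d0e3d0e130ee7108610e612b10dbb0d7d0e9d0e8d0f5d0f270cf30f1d100d0e130ee710361086)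
    (nat_lit 0x10362d002d002d002d002d002d002d002d002d002d002d002d002d000b4010362d002d002d002d002d002d002d002d002d002d002d002d000f6411480f962d002d002d002d002d002d002d002d002d002d002d000c22111810a60f962d002d002d002d002d002d002d002d002d002d00114411781166110611662d002d002d002d002d002d002d002d002d001144128810d6110611b611662d002d002d002d002d002d002d002d000efe0b40123011300bde0f9010862d002d002d002d002d002d002d000faa102e101c101c107c107c0f9210862d002d002d002d002d002d000f841188168815d81036114611dc11d010062d002d002d002d002d000fe410381728167811261146123c11500fe610062d002d002d002d000b480f3e101c0fbc101c113c11d211260fdc0fdc0fb62d002d002d000f4e0b40104011800bde0f500fe611fa103010b0120a0fb62d002d000dbb12b10e9d0d7d0f5d0e8d0cf30f27100d0f1d0ee70e1310862d000dbb0f0f0fed0efd0f5d0cbd0d530f870e3d0f0d0ee70e1310e61086)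
    (nat_lit 4) (nat_lit 43)
    [[nat_lit 2,nat_lit 0x10002,nat_lit 17,nat_lit 33,nat_lit 0x10011,nat_lit 0x1000011,nat_lit 257,nat_lit 0x1001,
    nat_lit 0x11001,nat_lit 0x1001001,nat_lit 0x10001,nat_lit 0x100001,nat_lit 0x110001,nat_lit 0x100011,
    nat_lit 0x1100001,nat_lit 0x1000001],[nat_lit 32,nat_lit 0x10020,nat_lit 0x1000020,nat_lit 288,nat_lit 272,
    nat_lit 0x1000110,nat_lit 0x1010,nat_lit 0x1001010,nat_lit 0x10010,nat_lit 0x1010010,nat_lit 0x100010,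
    nat_lit 0x1100010,nat_lit 0x1000010,nat_lit 0x2000010],[nat_lit 512,nat_lit 0x1100,nat_lit 0x10100,
    nat_lit 0x1000100],[nat_lit 0x2000,nat_lit 0x12000,nat_lit 0x1002000,nat_lit 0x11000,nat_lit 0x101000,
    nat_lit 0x1001000,nat_lit 0x1101000,nat_lit 0x2001000],[nat_lit 0x20000,nat_lit 0x110000,nat_lit 0x1010000],
    [nat_lit 0x200000,nat_lit 0x1100000],[nat_lit 0x2000000]]
    [.c (nat_lit 1) (nat_lit 2),.r (nat_lit 0x1b19) (nat_lit 12) [nat_lit 0x33021,nat_lit 0x2001,nat_lit 0x44031],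
    .r (nat_lit 0x1b04) (nat_lit 13) [nat_lit 33,nat_lit 0x2001],.r (nat_lit 0x1c9c) (nat_lit 9) [nat_lit 0x2001,
    nat_lit 0x33021,nat_lit 0x22001],.r (nat_lit 32) (nat_lit 5) [nat_lit 0x3231,nat_lit 0x2001],
    .r (nat_lit 0x174e) (nat_lit 8) [nat_lit 0x3231,nat_lit 0x2001],.c (nat_lit 0) (nat_lit 0x2203),
    .r (nat_lit 0x1c82) (nat_lit 5) [nat_lit 0x2001,nat_lit 33],.r (nat_lit 0x1b3d) (nat_lit 3) [nat_lit 0x33021,
    nat_lit 0x3231,nat_lit 0x2001],.r (nat_lit 32) (nat_lit 10) [nat_lit 0x3231,nat_lit 0x2001],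
    .c (nat_lit 0) (nat_lit 0x2203),.r (nat_lit 0x1b19) (nat_lit 12) [nat_lit 0x3021,nat_lit 0x2001,nat_lit 0x24031],
    .c (nat_lit 3) (nat_lit 0x2403),.r (nat_lit 0x1c90) (nat_lit 9) [nat_lit 0x2001,nat_lit 0x35021,nat_lit 0x22001],
    .r (nat_lit 0x1c9b) (nat_lit 8) [nat_lit 0x2031,nat_lit 0x33231,nat_lit 0x20021],
    .r (nat_lit 0x1b04) (nat_lit 2) [nat_lit 33,nat_lit 0x2001],.c (nat_lit 2) (nat_lit 2),
    .r (nat_lit 0x1c6e) (nat_lit 12) [nat_lit 0x2001,nat_lit 33,nat_lit 0x22031],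
    .r (nat_lit 0x1c9e) (nat_lit 3) [nat_lit 0x2001,nat_lit 33,nat_lit 0x35231],
    .r (nat_lit 0x1c94) (nat_lit 13) [nat_lit 0x3021,nat_lit 0x2001,nat_lit 0x20001],
    .r (nat_lit 0x1ad6) (nat_lit 11) [nat_lit 0x2031,nat_lit 33,nat_lit 0x22031],
    .r (nat_lit 0x1c93) (nat_lit 11) [nat_lit 0x2031,nat_lit 33,nat_lit 0x35221],
    .r (nat_lit 8) (nat_lit 3) [nat_lit 0x33231,nat_lit 33],.c (nat_lit 3) (nat_lit 0x2432),
    .r (nat_lit 0) (nat_lit 1) [nat_lit 33,nat_lit 0x2001],.r (nat_lit 0x1c10) (nat_lit 8) [nat_lit 0x3231,nat_lit 33,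
    nat_lit 0x22031],.r (nat_lit 32) (nat_lit 5) [nat_lit 0x33231,nat_lit 0x2001],.c (nat_lit 4) (nat_lit 0x3323),
    .r (nat_lit 0x1c2c) (nat_lit 3) [nat_lit 0x35231,nat_lit 0x2001,nat_lit 33],
    .r (nat_lit 0x1c9a) (nat_lit 1) [nat_lit 0x2001,nat_lit 0x22321,nat_lit 0x20001],.c (nat_lit 3) (nat_lit 2),
    .r (nat_lit 0x1b42) (nat_lit 8) [nat_lit 0x24321,nat_lit 0x35221,nat_lit 0x30231],.c (nat_lit 0) (nat_lit 0x2203),
    .r (nat_lit 0x1c6d) (nat_lit 1) [nat_lit 0x3021,nat_lit 0x2001,nat_lit 0x20001],.c (nat_lit 4) (nat_lit 2),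
    .r (nat_lit 0x1c8e) (nat_lit 3) [nat_lit 0x2001,nat_lit 0x33021,nat_lit 0x22001],
    .r (nat_lit 0x1c0c) (nat_lit 8) [nat_lit 33,nat_lit 0x48521,nat_lit 0x55431],
    .r (nat_lit 0x174f) (nat_lit 8) [nat_lit 0x2001,nat_lit 33],.r (nat_lit 0x1b3d) (nat_lit 3) [nat_lit 0x3021,
    nat_lit 0x33231,nat_lit 0x2001],.r (nat_lit 0) (nat_lit 4) [nat_lit 0x2001,nat_lit 33],
    .c (nat_lit 2) (nat_lit 0x3323),.r (nat_lit 0x1c9d) (nat_lit 9) [nat_lit 33,nat_lit 0x2001,nat_lit 0x59431],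
    .c (nat_lit 5) (nat_lit 2),.r (nat_lit 0x1b43) (nat_lit 6) [nat_lit 0x3021,nat_lit 0x2001,nat_lit 0x24031],
    .r (nat_lit 0x1b9c) (nat_lit 2) [nat_lit 0x2001,nat_lit 0x33021,nat_lit 0x3231],.c (nat_lit 6) (nat_lit 2),
    .r (nat_lit 0x174d) (nat_lit 5) [nat_lit 0x33231,nat_lit 33],.c (nat_lit 7) (nat_lit 2)],
    .l (nat_lit 12) (nat_lit 996) (nat_lit 3) (nat_lit 0x18a0000018a0000018800000188000001a200000172000001b8000001b80000018c0000018c000001ab000001610000017a0000017a) (nat_lit 0x2e0000002e0000003000000030000000460000001600000000000000000000002c0000002c000000570000000d0000003e0000003e)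
    (nat_lit 0x1601441521521b417818218a15e1c212318114c14c15c16015a15a1c81740fa1a615e15e1370f915414c15a1521581581261721881041e01ec13117b14614615a15215815813217218816c1f820413117f14614a17417817217217818c0fa1b217217614b0f916c1641c81b413212613817813e17212a14617314d13412c1a618a16c1041721b21b81ac1a41c01691c710a1220fa18218818813e0fa1b81b818c18c1611b711612215e1c22041ec14617618c1c015416018d17f15614e15e15e1f81e012a17218c1a416015412917f14a14e0f918117f17b14d0f91b71c717f17f15419e16d17913712313113117314b16116912918d10215412312314c14c14a14612c16412212214e14e12317914c14415414c14614613416c11610a14a15612316d15414c)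
    (nat_lit 0x1603e43e43e43e43e43e43e43e43e43e43e43e43e41441603e43e43e43e43e43e43e43e43e43e43e43e415215a1583e43e43e43e43e43e43e43e43e43e43e415215a1581583e43e43e43e43e43e43e43e43e43e41b41c81261321783e43e43e43e43e43e43e43e43e417817417217218c1783e43e43e43e43e43e43e43e41820fa1881880fa13e1b83e43e43e43e43e43e43e418a1a610416c1b21721ac1b83e43e43e43e43e43e415e15e1e01f817212a1a418c1543e43e43e43e43e41c215e1ec2041761461c018c1601543e43e43e43e412313713113114b17316916118d1291543e43e43e41810f917b17f0f914d1c71b717f17f19e1543e43e414c15414614616c13410a11615614a16d12314c3e414c14c14614a16412c12212214e14e17912314414c)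
    (nat_lit 5) (nat_lit 61)
    [[nat_lit 2,nat_lit 18,nat_lit 0x1002,nat_lit 0x100002,nat_lit 17,nat_lit 0x1000011,nat_lit 0x10011,nat_lit 257,
    nat_lit 0x1001,nat_lit 0x11001,nat_lit 0x101001,nat_lit 0x1001001,nat_lit 0x10001,nat_lit 0x110001,
    nat_lit 0x100001,nat_lit 0x1000001],[nat_lit 32,nat_lit 0x10020,nat_lit 0x1000020,nat_lit 272,nat_lit 0x10110,
    nat_lit 0x1010,nat_lit 0x11010,nat_lit 0x10010,nat_lit 0x20010,nat_lit 0x100010,nat_lit 0x110010,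
    nat_lit 0x1100010,nat_lit 0x1000010,nat_lit 0x2000010],[nat_lit 512,nat_lit 0x1100,nat_lit 0x10100,
    nat_lit 0x1000100],[nat_lit 0x2000,nat_lit 0x11000,nat_lit 0x111000,nat_lit 0x101000,nat_lit 0x1001000,
    nat_lit 0x1101000],[nat_lit 0x20000,nat_lit 0x110000,nat_lit 0x1010000],[nat_lit 0x200000,nat_lit 0x1100000],
    [nat_lit 0x2000000]]
    [.c (nat_lit 1) (nat_lit 2),.r (nat_lit 0x174e) (nat_lit 5) [nat_lit 0x4020062,nat_lit 0x18041],
    .r (nat_lit 0x1caf) (nat_lit 4) [nat_lit 0x200001,nat_lit 0xca511062],.c (nat_lit 3) (nat_lit 0x20803),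
    .c (nat_lit 0) (nat_lit 0x4400805),.c (nat_lit 5) (nat_lit 0x6518c42),
    .r (nat_lit 32) (nat_lit 5) [nat_lit 0x300861,nat_lit 0x200001],.c (nat_lit 0) (nat_lit 0x10803),
    .r (nat_lit 0x1c82) (nat_lit 5) [nat_lit 0x200001,nat_lit 65],.r (nat_lit 0x1caf) (nat_lit 4) [nat_lit 0x200001,
    nat_lit 0xca501061],.r (nat_lit 0x1caf) (nat_lit 12) [nat_lit 0x200001,nat_lit 0x300041],
    .r (nat_lit 32) (nat_lit 10) [nat_lit 0x300861,nat_lit 0x200001],.c (nat_lit 0) (nat_lit 0xa728085),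
    .c (nat_lit 7) (nat_lit 0x6318043),.r (nat_lit 0x1c79) (nat_lit 10) [nat_lit 0x6100a1,nat_lit 0x10041,
    nat_lit 0x18081],.c (nat_lit 0) (nat_lit 0x201009),.c (nat_lit 2) (nat_lit 2),
    .r (nat_lit 0xe33) (nat_lit 7) [nat_lit 0x25292a001,nat_lit 0x14a521001,nat_lit 193,nat_lit 0x211422401],
    .r (nat_lit 0x1652) (nat_lit 0) [nat_lit 65,nat_lit 0x200001,nat_lit 0x210001,nat_lit 0xca519001],
    .c (nat_lit 5) (nat_lit 0xa738c82),.r (nat_lit 0x1c76) (nat_lit 8) [nat_lit 0x84400c41,nat_lit 0x84000861,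
    nat_lit 0xc6500841],.c (nat_lit 1) (nat_lit 0x6300802),.r (nat_lit 0x174e) (nat_lit 5) [nat_lit 0x300861,
    nat_lit 0x4411481],.r (nat_lit 0) (nat_lit 1) [nat_lit 65,nat_lit 0x200001],
    .r (nat_lit 0x1a8d) (nat_lit 7) [nat_lit 0x200001,nat_lit 0x104000062,nat_lit 0x4000042],
    .r (nat_lit 0x174e) (nat_lit 5) [nat_lit 0x4010062,nat_lit 65],
    .r (nat_lit 0xe48) (nat_lit 13) [nat_lit 0xc6020041,nat_lit 0xc692a0e1,nat_lit 0x14a000081,nat_lit 0x1088000a1],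
    .c (nat_lit 0) (nat_lit 0x300004),.c (nat_lit 0) (nat_lit 0x8600007),.c (nat_lit 3) (nat_lit 0x320002),
    .c (nat_lit 3) (nat_lit 2),.c (nat_lit 0) (nat_lit 0x4210003),
    .r (nat_lit 0x1c51) (nat_lit 11) [nat_lit 0xca018861,nat_lit 0xca318801,nat_lit 0x88210c41],
    .r (nat_lit 0x1b56) (nat_lit 0) [nat_lit 0x300041,nat_lit 0x200001,nat_lit 0xca518841],.c (nat_lit 4) (nat_lit 2),
    .c (nat_lit 0) (nat_lit 0x6528c85),.r (nat_lit 0x1c51) (nat_lit 11) [nat_lit 0x200c41,nat_lit 0xca318801,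
    nat_lit 0x861],.r (nat_lit 0x1caf) (nat_lit 4) [nat_lit 0x200001,nat_lit 0xca501062],
    .c (nat_lit 0) (nat_lit 0x8600005),.r (nat_lit 0x1652) (nat_lit 0) [nat_lit 0x88000061,nat_lit 0x200001,
    nat_lit 0x210001,nat_lit 0xca519001],.c (nat_lit 5) (nat_lit 2),
    .r (nat_lit 0x174e) (nat_lit 5) [nat_lit 0xc6300861,nat_lit 0x10c411481],
    .r (nat_lit 0x19c6) (nat_lit 12) [nat_lit 0xc6500861,nat_lit 65,nat_lit 0x200001],.c (nat_lit 6) (nat_lit 2),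
    .c (nat_lit 0) (nat_lit 0x200005),.c (nat_lit 7) (nat_lit 2)],
    .l (nat_lit 13) (nat_lit 0x5a0) (nat_lit 3) (nat_lit 0x29400000292000002660000022100000285000002340000026600000258000002140000020e00000292000002da000002a7000002a7) (nat_lit 0x4800000046000000b900000074000000a6000000550000008200000074000000cc000000c600000000000000480000003300000033)
    (nat_lit 0x12109382d02200f7092842418c0e407386482b41308a5c43024210a087832c1d0115096038c19617609f04be25f10f08804342240c307584342480b406184cc21e11e87644281680b408682d01cc0fb06882d01680b408503c61ee0e809283981d60f508c03ec2240bf05a050a22a1628c2c32c1ee0b4061830c1ea0f507002d0168139087852a2db12c06303442480e008903d41fa0b405a031821e11987d44542120fb08683d41f60de07a83181920f807c044a1c70cb07382d01860b405a03241680b405a04e41cc0f0892438c1c80b405a02d017e0c605a02d016813907182e61db13e0ad042821e10f08a83e021e0e3073052422412f87ec5d83240b409984e42850f806304e427216d0a484e22a712f8a5c3dc1d916d8c2c38e1f50ed892454e1fb0f209d04be2610f188f452a2c511288cc2e61e1138897c4e81e4)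
    (nat_lit 0x1211680b405a02d01680b405a02d01680b405a02d0168049c2422d01680b405a02d01680b405a02d01680b405a00b408504345a02d01680b405a02d01680b405a02d0168044021e1120868b405a02d01680b405a02d01680b405a00f7065830c1680f51680b405a02d01680b405a02d016804941d00eb07304601ea2d01680b405a02d01680b405a010908a84341f60fb07a83d45a02d01680b405a02d0168031825812406884481c00fd07a8b405a02d01680b405a00e407182d01680bf05a02d018c0b41680b405a02d0168039c1960c305a02d01680b406482d01682d01680b405a01920bb04cc16814289c83181f013909c85245a02d0168056827c10f085045421e10f07c03981c61120a48b405a0130897c47a1e31628a544662250f085cc4be2710f2168052e25f0ec87b86162db0fa871c4921db0fd8a9c4e81e4)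
    (nat_lit 5) (nat_lit 47)
    [[nat_lit 2,nat_lit 17,nat_lit 257,nat_lit 513,nat_lit 0x1101,nat_lit 0x100101,nat_lit 0x1001,nat_lit 0x100001,
    nat_lit 0x200001,nat_lit 0x1000001],[nat_lit 32,nat_lit 272,nat_lit 0x1010,nat_lit 0x1110,nat_lit 0x2010,
    nat_lit 0x10010,nat_lit 0x100010,nat_lit 0x100110,nat_lit 0x110010],[nat_lit 512,nat_lit 768,nat_lit 0x1200,
    nat_lit 0x10200,nat_lit 0x100200,nat_lit 0x1000200,nat_lit 0x1100,nat_lit 0x2100,nat_lit 0x11100,nat_lit 0x101100,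
    nat_lit 0x1001100,nat_lit 0x10100,nat_lit 0x20100,nat_lit 0x110100,nat_lit 0x1010100,nat_lit 0x100100,
    nat_lit 0x200100,nat_lit 0x1100100,nat_lit 0x1000100],[nat_lit 0x2000,nat_lit 0x11000,nat_lit 0x111000,
    nat_lit 0x1011000,nat_lit 0x101000,nat_lit 0x1001000],[nat_lit 0x20000,nat_lit 0x120000,nat_lit 0x110000,
    nat_lit 0x210000,nat_lit 0x1110000,nat_lit 0x1010000],[nat_lit 0x200000,nat_lit 0x1100000],[nat_lit 0x2000000]]
    [.c (nat_lit 1) (nat_lit 2),.r (nat_lit 0x1bec) (nat_lit 12) [nat_lit 65,nat_lit 0xc03018e3],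
    .c (nat_lit 0) (nat_lit 0x4400007),.c (nat_lit 0) (nat_lit 0x8200007),.c (nat_lit 0) (nat_lit 0x862000d),
    .c (nat_lit 4) (nat_lit 0x6310006),.c (nat_lit 6) (nat_lit 0x318006),.c (nat_lit 0) (nat_lit 0x14800019),
    .c (nat_lit 1) (nat_lit 0x200002),.r (nat_lit 0x1b04) (nat_lit 4) [nat_lit 65,nat_lit 0xc03018e3],
    .c (nat_lit 2) (nat_lit 2),.r (nat_lit 0x1b04) (nat_lit 9) [nat_lit 65,nat_lit 0xc0339803],
    .r (nat_lit 0x1b22) (nat_lit 4) [nat_lit 0x18041,nat_lit 0x10001,nat_lit 0x88001cc3],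
    .r (nat_lit 0x174e) (nat_lit 6) [nat_lit 0x802300e3,nat_lit 0xc0339803],
    .r (nat_lit 0x1bec) (nat_lit 12) [nat_lit 0x45000c3,nat_lit 0xc62018e3],
    .r (nat_lit 0x1b04) (nat_lit 4) [nat_lit 0xc03018e3,nat_lit 65],.r (nat_lit 0) (nat_lit 8) [nat_lit 0xc0339803,
    nat_lit 65],.r (nat_lit 32) (nat_lit 0) [nat_lit 0x802300e3,nat_lit 0xc0339803],
    .r (nat_lit 0x1ae2) (nat_lit 11) [nat_lit 0xc0339803,nat_lit 0x10001,nat_lit 0x80201cc3],
    .c (nat_lit 3) (nat_lit 2),.c (nat_lit 0) (nat_lit 0x4000003),.c (nat_lit 0) (nat_lit 0x8010007),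
    .r (nat_lit 0x1ba5) (nat_lit 12) [nat_lit 0x10001,nat_lit 0xc47398e6,nat_lit 0x80200003],
    .c (nat_lit 0) (nat_lit 0x8000007),.r (nat_lit 0x1bcb) (nat_lit 7) [nat_lit 65,nat_lit 0x10001,
    nat_lit 0xc0339803],.c (nat_lit 0) (nat_lit 0x4040019),.c (nat_lit 0) (nat_lit 0x404000d),
    .r (nat_lit 0x1ba5) (nat_lit 12) [nat_lit 0x10001,nat_lit 0xc03398e3,nat_lit 0x80200003],
    .c (nat_lit 0) (nat_lit 0x4010007),.r (nat_lit 32) (nat_lit 4) [nat_lit 0x802300e3,nat_lit 0xc0339803],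
    .c (nat_lit 0) (nat_lit 0x319cc7),.c (nat_lit 1) (nat_lit 0x642b587),.c (nat_lit 0) (nat_lit 0x319cc7),
    .r (nat_lit 0x1caf) (nat_lit 8) [nat_lit 0xc0339803,nat_lit 0x80231cc3],.c (nat_lit 0) (nat_lit 0x4000009),
    .c (nat_lit 4) (nat_lit 0x6020006),.r (nat_lit 0x1ae2) (nat_lit 11) [nat_lit 0xc0339803,nat_lit 0x10001,
    nat_lit 0x860000e3],.r (nat_lit 0x1c82) (nat_lit 8) [nat_lit 65,nat_lit 0xc0339803],.c (nat_lit 4) (nat_lit 2),
    .c (nat_lit 0) (nat_lit 0x6311cc7),.c (nat_lit 1) (nat_lit 0x44018e6),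
    .r (nat_lit 0x1b22) (nat_lit 4) [nat_lit 0xc62398e3,nat_lit 0x10001,nat_lit 0x42000e3],
    .c (nat_lit 0) (nat_lit 0x4010007),.r (nat_lit 0) (nat_lit 13) [nat_lit 65,nat_lit 0xc0339803],
    .c (nat_lit 5) (nat_lit 2),.c (nat_lit 4) (nat_lit 0xa51b587),.c (nat_lit 4) (nat_lit 0x42218e6),
    .c (nat_lit 1) (nat_lit 0x46118e6),.r (nat_lit 32) (nat_lit 0) [nat_lit 0x84431cc3,nat_lit 0xc0339803],
    .r (nat_lit 0x1bec) (nat_lit 12) [nat_lit 0xc03018e3,nat_lit 65],.c (nat_lit 6) (nat_lit 2),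
    .r (nat_lit 0x174f) (nat_lit 6) [nat_lit 0xc0339803,nat_lit 65],.c (nat_lit 7) (nat_lit 2)]]

/-- nodes -/
noncomputable def rD7k_24_12 : List RJ :=
  [.s (nat_lit 12) (nat_lit 960) (nat_lit 4) (nat_lit 0x19a0000019a0000019a0000019a000001a8000001a8000001b6000001b600000167000001670000020a0000020a000001bb000001bb) (nat_lit 0x7000000070000000700000007000000062000000620000005400000054000000a3000000a300000000000000000000004f0000004f)
    (nat_lit 0x14612a11a12a14c15214612c0ad0f719a18614b12f14614610812a14c15214612a0f70e316619414b14b12a12a11010e15415a15a1320fd0f719a19a12f17f10811a13411013813816c1460ff0ef19a19a13118115215213815a14613c15c1541050df1721a016915914c14c1381541461461201540d11051a81a817311112a12c1461321541541621621131471fe1ea15316714614616c15a12015c1181620c91131ca1b616714b0e30f70ef0f71050df1131470c410e1831b11181040f70ad0ff0fd0d11050c91130d40c413916712c11819418619a19a1a81a01b61ea1671b120a1fa2051e916619a19a19a1a81721ca1fe13918320a20a1d71bb14b12f18117f11115914b1671181041bb1e916c16c14b14b13112f17316916715312c1181d720516c16c)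
    (nat_lit 0x1463c03c03c03c03c03c03c03c03c03c03c03c03c012a1463c03c03c03c03c03c03c03c03c03c03c03c011a1081103c03c03c03c03c03c03c03c03c03c03c012a12a10e1103c03c03c03c03c03c03c03c03c03c014c14c1541381463c03c03c03c03c03c03c03c03c015215215a13813c1463c03c03c03c03c03c03c03c014614615a16c15c1201623c03c03c03c03c03c03c012c12a1321461541541621623c03c03c03c03c03c00ad0f70fd0ff1050d11130c90c43c03c03c03c03c00f70e30f70ef0df10514711310e0c43c03c03c03c019a16619a19a1721a81fe1ca18313920a3c03c03c018619419a19a1a01a81ea1b61b11671fa20a3c03c014b14b12f13116917315316711812c2051d716c3c012f14b17f18115911116714b1041181e91bb16c16c)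
    (nat_lit 5) (nat_lit 141)
    [[nat_lit 0,nat_lit 4,nat_lit 5,nat_lit 1],[nat_lit 0,nat_lit 4,nat_lit 10,nat_lit 5],[nat_lit 0,nat_lit 4,
    nat_lit 11,nat_lit 5],[nat_lit 0,nat_lit 5,nat_lit 0,nat_lit 5],[nat_lit 0,nat_lit 5,nat_lit 5,nat_lit 10],
    [nat_lit 0,nat_lit 7,nat_lit 10],[nat_lit 0,nat_lit 7,nat_lit 11],[nat_lit 0,nat_lit 8,nat_lit 12],[nat_lit 0,
    nat_lit 10,nat_lit 5,nat_lit 5],[nat_lit 0,nat_lit 11,nat_lit 6],[nat_lit 0,nat_lit 11,nat_lit 7],[nat_lit 0,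
    nat_lit 12,nat_lit 8],[nat_lit 0,nat_lit 13,nat_lit 8],[nat_lit 0,nat_lit 13,nat_lit 9],[nat_lit 1,nat_lit 4,
    nat_lit 1,nat_lit 4],[nat_lit 1,nat_lit 4,nat_lit 4,nat_lit 11],[nat_lit 1,nat_lit 4,nat_lit 10,nat_lit 5],
    [nat_lit 1,nat_lit 4,nat_lit 11,nat_lit 5],[nat_lit 1,nat_lit 6,nat_lit 10],[nat_lit 1,nat_lit 7,nat_lit 10],
    [nat_lit 1,nat_lit 8,nat_lit 12],[nat_lit 1,nat_lit 9,nat_lit 12],[nat_lit 1,nat_lit 9,nat_lit 13],[nat_lit 1,
    nat_lit 10,nat_lit 6],[nat_lit 1,nat_lit 11,nat_lit 4,nat_lit 4],[nat_lit 1,nat_lit 11,nat_lit 6],[nat_lit 1,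
    nat_lit 13,nat_lit 9],[nat_lit 2,nat_lit 4,nat_lit 4],[nat_lit 2,nat_lit 5,nat_lit 4],[nat_lit 2,nat_lit 5,
    nat_lit 5],[nat_lit 2,nat_lit 6],[nat_lit 2,nat_lit 7],[nat_lit 3,nat_lit 4,nat_lit 4],[nat_lit 3,nat_lit 5,
    nat_lit 4],[nat_lit 3,nat_lit 5,nat_lit 5],[nat_lit 3,nat_lit 6],[nat_lit 3,nat_lit 7],[nat_lit 4,nat_lit 10,
    nat_lit 4,nat_lit 10],[nat_lit 4,nat_lit 10,nat_lit 11,nat_lit 5],[nat_lit 4,nat_lit 11,nat_lit 4,nat_lit 11],
    [nat_lit 4,nat_lit 11,nat_lit 10,nat_lit 5],[nat_lit 5,nat_lit 10,nat_lit 5,nat_lit 10],[nat_lit 5,nat_lit 11,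
    nat_lit 5,nat_lit 11],[nat_lit 6,nat_lit 10,nat_lit 10],[nat_lit 6,nat_lit 11,nat_lit 10],[nat_lit 6,nat_lit 11,
    nat_lit 11],[nat_lit 7,nat_lit 10,nat_lit 10],[nat_lit 7,nat_lit 11,nat_lit 10],[nat_lit 7,nat_lit 11,nat_lit 11],
    [nat_lit 8,nat_lit 10,nat_lit 12],[nat_lit 8,nat_lit 10,nat_lit 13],[nat_lit 8,nat_lit 11,nat_lit 12],[nat_lit 8,
    nat_lit 11,nat_lit 13],[nat_lit 8,nat_lit 12,nat_lit 10],[nat_lit 8,nat_lit 12,nat_lit 11],[nat_lit 8,nat_lit 13,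
    nat_lit 10],[nat_lit 9,nat_lit 10,nat_lit 13],[nat_lit 9,nat_lit 11,nat_lit 12],[nat_lit 9,nat_lit 11,nat_lit 13],
    [nat_lit 9,nat_lit 12,nat_lit 10],[nat_lit 9,nat_lit 12,nat_lit 11],[nat_lit 9,nat_lit 13,nat_lit 10],[nat_lit 9,
    nat_lit 13,nat_lit 11]]
    [nat_lit 0x10451,nat_lit 0x104a5,nat_lit 0x104b5,nat_lit 0x10505,nat_lit 0x1055a,nat_lit 0x107a,nat_lit 0x107b,
    nat_lit 0x108c,nat_lit 0x10a55,nat_lit 0x10b6,nat_lit 0x10b7,nat_lit 0x10c8,nat_lit 0x10d8,nat_lit 0x10d9,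
    nat_lit 0x11414,nat_lit 0x1144b,nat_lit 0x114a5,nat_lit 0x114b5,nat_lit 0x116a,nat_lit 0x117a,nat_lit 0x118c,
    nat_lit 0x119c,nat_lit 0x119d,nat_lit 0x11a6,nat_lit 0x11b44,nat_lit 0x11b6,nat_lit 0x11d9,nat_lit 0x1244,
    nat_lit 0x1254,nat_lit 0x1255,nat_lit 294,nat_lit 295,nat_lit 0x1344,nat_lit 0x1354,nat_lit 0x1355,nat_lit 310,
    nat_lit 311,nat_lit 0x14a4a,nat_lit 0x14ab5,nat_lit 0x14b4b,nat_lit 0x14ba5,nat_lit 0x15a5a,nat_lit 0x15b5b,
    nat_lit 0x16aa,nat_lit 0x16ba,nat_lit 0x16bb,nat_lit 0x17aa,nat_lit 0x17ba,nat_lit 0x17bb,nat_lit 0x18ac,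
    nat_lit 0x18ad,nat_lit 0x18bc,nat_lit 0x18bd,nat_lit 0x18ca,nat_lit 0x18cb,nat_lit 0x18da,nat_lit 0x19ad,
    nat_lit 0x19bc,nat_lit 0x19bd,nat_lit 0x19ca,nat_lit 0x19cb,nat_lit 0x19da,nat_lit 0x19db]
    [[[nat_lit 0,nat_lit 4,nat_lit 5,nat_lit 1],[nat_lit 0,nat_lit 4,nat_lit 10,nat_lit 5],[nat_lit 0,nat_lit 4,
    nat_lit 11,nat_lit 5],[nat_lit 0,nat_lit 5,nat_lit 0,nat_lit 5],[nat_lit 0,nat_lit 5,nat_lit 5,nat_lit 10],
    [nat_lit 0,nat_lit 7,nat_lit 10],[nat_lit 0,nat_lit 7,nat_lit 11],[nat_lit 0,nat_lit 8,nat_lit 12],[nat_lit 0,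
    nat_lit 10,nat_lit 5,nat_lit 5],[nat_lit 0,nat_lit 11,nat_lit 6],[nat_lit 0,nat_lit 11,nat_lit 7],[nat_lit 0,
    nat_lit 12,nat_lit 8]],[[nat_lit 0,nat_lit 13,nat_lit 8],[nat_lit 0,nat_lit 13,nat_lit 9],[nat_lit 1,nat_lit 0,
    nat_lit 4,nat_lit 5],[nat_lit 1,nat_lit 4,nat_lit 1,nat_lit 4],[nat_lit 1,nat_lit 4,nat_lit 4,nat_lit 11],
    [nat_lit 1,nat_lit 4,nat_lit 10,nat_lit 5],[nat_lit 1,nat_lit 4,nat_lit 11,nat_lit 5],[nat_lit 1,nat_lit 6,
    nat_lit 10],[nat_lit 1,nat_lit 7,nat_lit 10],[nat_lit 1,nat_lit 8,nat_lit 12],[nat_lit 1,nat_lit 9,nat_lit 12],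
    [nat_lit 1,nat_lit 9,nat_lit 13]],[[nat_lit 1,nat_lit 10,nat_lit 6],[nat_lit 1,nat_lit 11,nat_lit 4,nat_lit 4],
    [nat_lit 1,nat_lit 11,nat_lit 6],[nat_lit 1,nat_lit 13,nat_lit 9],[nat_lit 2,nat_lit 4,nat_lit 4],[nat_lit 2,
    nat_lit 5,nat_lit 4],[nat_lit 2,nat_lit 5,nat_lit 5],[nat_lit 2,nat_lit 6],[nat_lit 2,nat_lit 7],[nat_lit 3,
    nat_lit 4,nat_lit 4],[nat_lit 3,nat_lit 5,nat_lit 4],[nat_lit 3,nat_lit 5,nat_lit 5]],[[nat_lit 3,nat_lit 6],
    [nat_lit 3,nat_lit 7],[nat_lit 4,nat_lit 1,nat_lit 4,nat_lit 1],[nat_lit 4,nat_lit 1,nat_lit 11,nat_lit 4],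
    [nat_lit 4,nat_lit 2,nat_lit 4],[nat_lit 4,nat_lit 2,nat_lit 5],[nat_lit 4,nat_lit 3,nat_lit 4],[nat_lit 4,
    nat_lit 3,nat_lit 5],[nat_lit 4,nat_lit 4,nat_lit 1,nat_lit 11],[nat_lit 4,nat_lit 4,nat_lit 2],[nat_lit 4,
    nat_lit 4,nat_lit 3],[nat_lit 4,nat_lit 4,nat_lit 11,nat_lit 1]],[[nat_lit 4,nat_lit 5,nat_lit 1,nat_lit 0],
    [nat_lit 4,nat_lit 10,nat_lit 4,nat_lit 10],[nat_lit 4,nat_lit 10,nat_lit 5,nat_lit 0],[nat_lit 4,nat_lit 10,
    nat_lit 5,nat_lit 1],[nat_lit 4,nat_lit 10,nat_lit 11,nat_lit 5],[nat_lit 4,nat_lit 11,nat_lit 1,nat_lit 4],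
    [nat_lit 4,nat_lit 11,nat_lit 4,nat_lit 11],[nat_lit 4,nat_lit 11,nat_lit 5,nat_lit 0],[nat_lit 4,nat_lit 11,
    nat_lit 5,nat_lit 1],[nat_lit 4,nat_lit 11,nat_lit 10,nat_lit 5],[nat_lit 5,nat_lit 0,nat_lit 4,nat_lit 10],
    [nat_lit 5,nat_lit 0,nat_lit 4,nat_lit 11]],[[nat_lit 5,nat_lit 0,nat_lit 5,nat_lit 0],[nat_lit 5,nat_lit 0,
    nat_lit 10,nat_lit 5],[nat_lit 5,nat_lit 1,nat_lit 0,nat_lit 4],[nat_lit 5,nat_lit 1,nat_lit 4,nat_lit 10],
    [nat_lit 5,nat_lit 1,nat_lit 4,nat_lit 11],[nat_lit 5,nat_lit 2,nat_lit 5],[nat_lit 5,nat_lit 3,nat_lit 5],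
    [nat_lit 5,nat_lit 4,nat_lit 2],[nat_lit 5,nat_lit 4,nat_lit 3],[nat_lit 5,nat_lit 4,nat_lit 10,nat_lit 11],
    [nat_lit 5,nat_lit 4,nat_lit 11,nat_lit 10],[nat_lit 5,nat_lit 5,nat_lit 0,nat_lit 10]],[[nat_lit 5,nat_lit 5,
    nat_lit 2],[nat_lit 5,nat_lit 5,nat_lit 3],[nat_lit 5,nat_lit 5,nat_lit 10,nat_lit 0],[nat_lit 5,nat_lit 10,
    nat_lit 0,nat_lit 5],[nat_lit 5,nat_lit 10,nat_lit 5,nat_lit 10],[nat_lit 5,nat_lit 11,nat_lit 5,nat_lit 11],
    [nat_lit 6,nat_lit 0,nat_lit 11],[nat_lit 6,nat_lit 1,nat_lit 10],[nat_lit 6,nat_lit 1,nat_lit 11],[nat_lit 6,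
    nat_lit 2],[nat_lit 6,nat_lit 3],[nat_lit 6,nat_lit 10,nat_lit 1]],[[nat_lit 6,nat_lit 10,nat_lit 10],[nat_lit 6,
    nat_lit 11,nat_lit 10],[nat_lit 6,nat_lit 11,nat_lit 11],[nat_lit 7,nat_lit 0,nat_lit 11],[nat_lit 7,nat_lit 2],
    [nat_lit 7,nat_lit 3],[nat_lit 7,nat_lit 10,nat_lit 0],[nat_lit 7,nat_lit 10,nat_lit 1],[nat_lit 7,nat_lit 10,
    nat_lit 10],[nat_lit 7,nat_lit 11,nat_lit 0],[nat_lit 7,nat_lit 11,nat_lit 10],[nat_lit 7,nat_lit 11,nat_lit 11]],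
    [[nat_lit 8,nat_lit 0,nat_lit 12],[nat_lit 8,nat_lit 0,nat_lit 13],[nat_lit 8,nat_lit 10,nat_lit 12],[nat_lit 8,
    nat_lit 10,nat_lit 13],[nat_lit 8,nat_lit 11,nat_lit 12],[nat_lit 8,nat_lit 11,nat_lit 13],[nat_lit 8,nat_lit 12,
    nat_lit 0],[nat_lit 8,nat_lit 12,nat_lit 1],[nat_lit 8,nat_lit 12,nat_lit 10],[nat_lit 8,nat_lit 12,nat_lit 11],
    [nat_lit 8,nat_lit 13,nat_lit 10],[nat_lit 9,nat_lit 0,nat_lit 13]],[[nat_lit 9,nat_lit 1,nat_lit 13],[nat_lit 9,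
    nat_lit 10,nat_lit 13],[nat_lit 9,nat_lit 11,nat_lit 12],[nat_lit 9,nat_lit 11,nat_lit 13],[nat_lit 9,nat_lit 12,
    nat_lit 1],[nat_lit 9,nat_lit 12,nat_lit 10],[nat_lit 9,nat_lit 12,nat_lit 11],[nat_lit 9,nat_lit 13,nat_lit 1],
    [nat_lit 9,nat_lit 13,nat_lit 10],[nat_lit 9,nat_lit 13,nat_lit 11],[nat_lit 10,nat_lit 0,nat_lit 5,nat_lit 5],
    [nat_lit 10,nat_lit 0,nat_lit 7]],[[nat_lit 10,nat_lit 1,nat_lit 6],[nat_lit 10,nat_lit 1,nat_lit 7],[nat_lit 10,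
    nat_lit 4,nat_lit 10,nat_lit 4],[nat_lit 10,nat_lit 5,nat_lit 0,nat_lit 4],[nat_lit 10,nat_lit 5,nat_lit 1,
    nat_lit 4],[nat_lit 10,nat_lit 5,nat_lit 4,nat_lit 11],[nat_lit 10,nat_lit 5,nat_lit 5,nat_lit 0],[nat_lit 10,
    nat_lit 5,nat_lit 10,nat_lit 5],[nat_lit 10,nat_lit 6,nat_lit 1],[nat_lit 10,nat_lit 6,nat_lit 10],[nat_lit 10,
    nat_lit 6,nat_lit 11],[nat_lit 10,nat_lit 7,nat_lit 10]],[[nat_lit 10,nat_lit 7,nat_lit 11],[nat_lit 10,nat_lit 8,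
    nat_lit 12],[nat_lit 10,nat_lit 8,nat_lit 13],[nat_lit 10,nat_lit 9,nat_lit 12],[nat_lit 10,nat_lit 9,nat_lit 13],
    [nat_lit 10,nat_lit 10,nat_lit 6],[nat_lit 10,nat_lit 10,nat_lit 7],[nat_lit 10,nat_lit 11,nat_lit 5,nat_lit 4],
    [nat_lit 10,nat_lit 12,nat_lit 8],[nat_lit 10,nat_lit 13,nat_lit 8],[nat_lit 10,nat_lit 13,nat_lit 9],[nat_lit 11,
    nat_lit 0,nat_lit 7]],[[nat_lit 11,nat_lit 1,nat_lit 4,nat_lit 4],[nat_lit 11,nat_lit 4,nat_lit 4,nat_lit 1],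
    [nat_lit 11,nat_lit 4,nat_lit 11,nat_lit 4],[nat_lit 11,nat_lit 5,nat_lit 0,nat_lit 4],[nat_lit 11,nat_lit 5,
    nat_lit 1,nat_lit 4],[nat_lit 11,nat_lit 5,nat_lit 4,nat_lit 10],[nat_lit 11,nat_lit 5,nat_lit 11,nat_lit 5],
    [nat_lit 11,nat_lit 6,nat_lit 0],[nat_lit 11,nat_lit 6,nat_lit 1],[nat_lit 11,nat_lit 6,nat_lit 11],[nat_lit 11,
    nat_lit 7,nat_lit 0],[nat_lit 11,nat_lit 7,nat_lit 11]],[[nat_lit 11,nat_lit 8,nat_lit 12],[nat_lit 11,nat_lit 9,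
    nat_lit 12],[nat_lit 11,nat_lit 9,nat_lit 13],[nat_lit 11,nat_lit 10,nat_lit 5,nat_lit 4],[nat_lit 11,nat_lit 10,
    nat_lit 6],[nat_lit 11,nat_lit 10,nat_lit 7],[nat_lit 11,nat_lit 11,nat_lit 6],[nat_lit 11,nat_lit 11,nat_lit 7],
    [nat_lit 11,nat_lit 12,nat_lit 8],[nat_lit 11,nat_lit 12,nat_lit 9],[nat_lit 11,nat_lit 13,nat_lit 8],[nat_lit 11,
    nat_lit 13,nat_lit 9]],[[nat_lit 12,nat_lit 0,nat_lit 8],[nat_lit 12,nat_lit 1,nat_lit 8],[nat_lit 12,nat_lit 1,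
    nat_lit 9],[nat_lit 12,nat_lit 8,nat_lit 0],[nat_lit 12,nat_lit 8,nat_lit 10],[nat_lit 12,nat_lit 8,nat_lit 11],
    [nat_lit 12,nat_lit 9,nat_lit 11],[nat_lit 12,nat_lit 10,nat_lit 8],[nat_lit 12,nat_lit 10,nat_lit 9],[nat_lit 12,
    nat_lit 11,nat_lit 8],[nat_lit 12,nat_lit 11,nat_lit 9],[nat_lit 13,nat_lit 1,nat_lit 9]],[[nat_lit 13,nat_lit 8,
    nat_lit 0],[nat_lit 13,nat_lit 8,nat_lit 10],[nat_lit 13,nat_lit 8,nat_lit 11],[nat_lit 13,nat_lit 9,nat_lit 0],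
    [nat_lit 13,nat_lit 9,nat_lit 1],[nat_lit 13,nat_lit 9,nat_lit 10],[nat_lit 13,nat_lit 9,nat_lit 11],[nat_lit 13,
    nat_lit 10,nat_lit 8],[nat_lit 13,nat_lit 10,nat_lit 9],[nat_lit 13,nat_lit 11,nat_lit 9]]]
    [[nat_lit 48,nat_lit 50,nat_lit 55,nat_lit 60,nat_lit 74,nat_lit 90,nat_lit 93,nat_lit 102,nat_lit 126,
    nat_lit 151,nat_lit 154,nat_lit 171],[nat_lit 180,nat_lit 183,nat_lit 0,nat_lit 38,nat_lit 47,nat_lit 51,
    nat_lit 56,nat_lit 83,nat_lit 91,nat_lit 103,nat_lit 112,nat_lit 115],[nat_lit 128,nat_lit 145,nat_lit 152,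
    nat_lit 184,nat_lit 45,nat_lit 67,nat_lit 72,nat_lit 81,nat_lit 88,nat_lit 46,nat_lit 68,nat_lit 73],[nat_lit 82,
    nat_lit 89,nat_lit 15,nat_lit 25,nat_lit 28,nat_lit 29,nat_lit 33,nat_lit 34,nat_lit 39,nat_lit 40,nat_lit 42,
    nat_lit 53],[nat_lit 62,nat_lit 122,nat_lit 123,nat_lit 124,nat_lit 139,nat_lit 144,nat_lit 146,nat_lit 147,
    nat_lit 148,nat_lit 159,nat_lit 1,nat_lit 2],[nat_lit 3,nat_lit 8,nat_lit 14,nat_lit 17,nat_lit 18,nat_lit 30,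
    nat_lit 35,nat_lit 41,nat_lit 43,nat_lit 52,nat_lit 57,nat_lit 61],[nat_lit 65,nat_lit 66,nat_lit 75,nat_lit 118,
    nat_lit 127,nat_lit 150,nat_lit 9,nat_lit 24,nat_lit 26,nat_lit 31,nat_lit 36,nat_lit 120],[nat_lit 137,
    nat_lit 160,nat_lit 162,nat_lit 10,nat_lit 32,nat_lit 37,nat_lit 119,nat_lit 121,nat_lit 138,nat_lit 143,
    nat_lit 161,nat_lit 163],[nat_lit 11,nat_lit 12,nat_lit 140,nat_lit 141,nat_lit 164,nat_lit 166,nat_lit 168,
    nat_lit 169,nat_lit 175,nat_lit 177,nat_lit 187,nat_lit 13],[nat_lit 27,nat_lit 142,nat_lit 165,nat_lit 167,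
    nat_lit 170,nat_lit 176,nat_lit 178,nat_lit 179,nat_lit 188,nat_lit 189,nat_lit 4,nat_lit 5],[nat_lit 19,
    nat_lit 20,nat_lit 49,nat_lit 58,nat_lit 63,nat_lit 70,nat_lit 71,nat_lit 76,nat_lit 79,nat_lit 84,nat_lit 85,
    nat_lit 92],[nat_lit 94,nat_lit 104,nat_lit 106,nat_lit 113,nat_lit 116,nat_lit 129,nat_lit 131,nat_lit 149,
    nat_lit 172,nat_lit 181,nat_lit 185,nat_lit 6],[nat_lit 16,nat_lit 44,nat_lit 54,nat_lit 59,nat_lit 64,nat_lit 69,
    nat_lit 77,nat_lit 78,nat_lit 80,nat_lit 86,nat_lit 87,nat_lit 95],[nat_lit 105,nat_lit 114,nat_lit 117,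
    nat_lit 125,nat_lit 130,nat_lit 132,nat_lit 153,nat_lit 155,nat_lit 173,nat_lit 174,nat_lit 182,nat_lit 186],
    [nat_lit 7,nat_lit 21,nat_lit 22,nat_lit 96,nat_lit 98,nat_lit 100,nat_lit 110,nat_lit 133,nat_lit 135,
    nat_lit 156,nat_lit 157,nat_lit 23],[nat_lit 97,nat_lit 99,nat_lit 101,nat_lit 107,nat_lit 108,nat_lit 109,
    nat_lit 111,nat_lit 134,nat_lit 136,nat_lit 158]]
    [[nat_lit 14,nat_lit 58,nat_lit 59,nat_lit 60,nat_lit 118,nat_lit 119,nat_lit 143,nat_lit 168,nat_lit 61,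
    nat_lit 78,nat_lit 87,nat_lit 96],[nat_lit 97,nat_lit 107,nat_lit 62,nat_lit 38,nat_lit 144,nat_lit 63,nat_lit 64,
    nat_lit 120,nat_lit 121,nat_lit 169,nat_lit 170,nat_lit 179],[nat_lit 79,nat_lit 39,nat_lit 80,nat_lit 108,
    nat_lit 40,nat_lit 41,nat_lit 65,nat_lit 81,nat_lit 88,nat_lit 42,nat_lit 43,nat_lit 66],[nat_lit 82,nat_lit 89,
    nat_lit 15,nat_lit 44,nat_lit 45,nat_lit 67,nat_lit 46,nat_lit 68,nat_lit 145,nat_lit 28,nat_lit 33,nat_lit 16],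
    [nat_lit 0,nat_lit 122,nat_lit 1,nat_lit 17,nat_lit 69,nat_lit 47,nat_lit 146,nat_lit 2,nat_lit 18,nat_lit 70,
    nat_lit 123,nat_lit 147],[nat_lit 3,nat_lit 71,nat_lit 48,nat_lit 124,nat_lit 148,nat_lit 72,nat_lit 73,
    nat_lit 29,nat_lit 34,nat_lit 149,nat_lit 125,nat_lit 126],[nat_lit 30,nat_lit 35,nat_lit 4,nat_lit 74,
    nat_lit 127,nat_lit 150,nat_lit 151,nat_lit 128,nat_lit 152,nat_lit 31,nat_lit 36,nat_lit 19],[nat_lit 129,
    nat_lit 130,nat_lit 153,nat_lit 154,nat_lit 32,nat_lit 37,nat_lit 5,nat_lit 20,nat_lit 131,nat_lit 6,nat_lit 132,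
    nat_lit 155],[nat_lit 171,nat_lit 180,nat_lit 172,nat_lit 181,nat_lit 173,nat_lit 182,nat_lit 7,nat_lit 21,
    nat_lit 133,nat_lit 156,nat_lit 134,nat_lit 183],[nat_lit 184,nat_lit 185,nat_lit 174,nat_lit 186,nat_lit 22,
    nat_lit 135,nat_lit 157,nat_lit 23,nat_lit 136,nat_lit 158,nat_lit 75,nat_lit 90],[nat_lit 83,nat_lit 91,
    nat_lit 49,nat_lit 50,nat_lit 51,nat_lit 159,nat_lit 8,nat_lit 76,nat_lit 24,nat_lit 137,nat_lit 160,nat_lit 138],
    [nat_lit 161,nat_lit 175,nat_lit 187,nat_lit 176,nat_lit 188,nat_lit 84,nat_lit 92,nat_lit 52,nat_lit 98,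
    nat_lit 99,nat_lit 109,nat_lit 93],[nat_lit 53,nat_lit 25,nat_lit 54,nat_lit 55,nat_lit 56,nat_lit 139,nat_lit 77,
    nat_lit 9,nat_lit 26,nat_lit 162,nat_lit 10,nat_lit 163],[nat_lit 177,nat_lit 178,nat_lit 189,nat_lit 57,
    nat_lit 85,nat_lit 94,nat_lit 86,nat_lit 95,nat_lit 100,nat_lit 110,nat_lit 101,nat_lit 111],[nat_lit 102,
    nat_lit 103,nat_lit 112,nat_lit 11,nat_lit 140,nat_lit 164,nat_lit 165,nat_lit 104,nat_lit 113,nat_lit 105,
    nat_lit 114,nat_lit 115],[nat_lit 12,nat_lit 141,nat_lit 166,nat_lit 13,nat_lit 27,nat_lit 142,nat_lit 167,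
    nat_lit 106,nat_lit 116,nat_lit 117]]
    [[[],[],[],[],[],[],[],[nat_lit 172],[],[nat_lit 170,nat_lit 176,nat_lit 178],[nat_lit 170,nat_lit 176,
    nat_lit 178],[nat_lit 171]],[[nat_lit 173,nat_lit 174],[nat_lit 173,nat_lit 174],[],[nat_lit 36],[nat_lit 36],
    [nat_lit 36],[nat_lit 36],[],[nat_lit 35],[],[nat_lit 37],[nat_lit 37]],[[],[],[],[],[nat_lit 9],[],[],
    [nat_lit 11,nat_lit 12],[nat_lit 1,nat_lit 2,nat_lit 3,nat_lit 8],[],[nat_lit 68,nat_lit 73],[nat_lit 68,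
    nat_lit 73]],[[],[nat_lit 61,nat_lit 65,nat_lit 66,nat_lit 75],[],[],[nat_lit 28,nat_lit 29],[nat_lit 28,
    nat_lit 29],[],[],[nat_lit 31],[nat_lit 31],[nat_lit 31],[nat_lit 31]],[[],[],[],[],[],[],[],[],[],[],
    [nat_lit 88],[nat_lit 88]],[[nat_lit 88],[nat_lit 88],[],[],[],[],[nat_lit 91],[],[],[],[],[nat_lit 89]],
    [[nat_lit 89],[nat_lit 89],[nat_lit 89],[],[],[],[nat_lit 45],[],[],[nat_lit 39,nat_lit 40,nat_lit 42,nat_lit 53],
    [nat_lit 38,nat_lit 47,nat_lit 51,nat_lit 56],[]],[[],[],[],[],[],[nat_lit 112,nat_lit 115],[nat_lit 110],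
    [nat_lit 110],[nat_lit 110],[],[],[]],[[nat_lit 81],[nat_lit 81],[],[],[],[],[],[],[],[],[nat_lit 78,nat_lit 80,
    nat_lit 86],[]],[[nat_lit 158],[nat_lit 156,nat_lit 157],[nat_lit 165,nat_lit 167],[nat_lit 165,nat_lit 167],
    [nat_lit 151,nat_lit 154],[nat_lit 151,nat_lit 154],[nat_lit 151,nat_lit 154],[nat_lit 153,nat_lit 155],
    [nat_lit 153,nat_lit 155],[nat_lit 153,nat_lit 155],[],[]],[[nat_lit 97,nat_lit 99,nat_lit 101],[nat_lit 97,
    nat_lit 99,nat_lit 101],[],[],[],[],[],[],[],[],[],[]],[[],[nat_lit 104,nat_lit 106],[nat_lit 104,nat_lit 106],[],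
    [],[nat_lit 96,nat_lit 98,nat_lit 100],[nat_lit 96,nat_lit 98,nat_lit 100],[],[nat_lit 102],[nat_lit 105],
    [nat_lit 105],[]],[[],[],[],[],[],[],[],[nat_lit 187],[nat_lit 187],[nat_lit 187],[],[]],[[nat_lit 181,
    nat_lit 185],[],[],[],[],[],[nat_lit 179,nat_lit 188,nat_lit 189],[nat_lit 179,nat_lit 188,nat_lit 189],
    [nat_lit 180,nat_lit 183],[nat_lit 180,nat_lit 183],[nat_lit 182,nat_lit 186],[nat_lit 182,nat_lit 186]],[[],
    [nat_lit 134,nat_lit 136],[nat_lit 134,nat_lit 136],[nat_lit 129,nat_lit 131],[nat_lit 129,nat_lit 131],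
    [nat_lit 129,nat_lit 131],[nat_lit 119,nat_lit 121,nat_lit 138],[nat_lit 133,nat_lit 135],[nat_lit 133,
    nat_lit 135],[nat_lit 142],[nat_lit 142],[nat_lit 23]],[[nat_lit 19,nat_lit 20],[nat_lit 19,nat_lit 20],
    [nat_lit 19,nat_lit 20],[],[],[],[],[nat_lit 21,nat_lit 22],[nat_lit 21,nat_lit 22],[nat_lit 27]]]
    (nat_lit 190) [nat_lit 0,nat_lit 1,nat_lit 2,nat_lit 3,nat_lit 4,nat_lit 5,nat_lit 6,nat_lit 7,nat_lit 8,
    nat_lit 9,nat_lit 10,nat_lit 11,nat_lit 12,nat_lit 13,nat_lit 15,nat_lit 16,nat_lit 17,nat_lit 18,nat_lit 19,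
    nat_lit 20,nat_lit 21,nat_lit 22,nat_lit 23,nat_lit 24,nat_lit 25,nat_lit 26,nat_lit 27,nat_lit 28,nat_lit 29,
    nat_lit 30,nat_lit 31,nat_lit 32,nat_lit 33,nat_lit 34,nat_lit 35,nat_lit 36,nat_lit 37,nat_lit 49,nat_lit 52,
    nat_lit 54,nat_lit 57,nat_lit 76,nat_lit 77,nat_lit 84,nat_lit 85,nat_lit 86,nat_lit 92,nat_lit 94,nat_lit 95,
    nat_lit 98,nat_lit 99,nat_lit 100,nat_lit 101,nat_lit 104,nat_lit 105,nat_lit 106,nat_lit 109,nat_lit 110,
    nat_lit 111,nat_lit 113,nat_lit 114,nat_lit 116,nat_lit 117]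
    [[[],[nat_lit 0],[],[],[],[nat_lit 1,nat_lit 2,nat_lit 3,nat_lit 8],[nat_lit 9],[nat_lit 10],[nat_lit 11,
    nat_lit 12],[nat_lit 13],[nat_lit 4,nat_lit 5],[nat_lit 6],[nat_lit 7],[]],[[],[],[],[],[nat_lit 15,nat_lit 25],
    [nat_lit 14,nat_lit 17,nat_lit 18],[nat_lit 24,nat_lit 26],[],[],[nat_lit 27],[nat_lit 19,nat_lit 20],
    [nat_lit 16],[nat_lit 21,nat_lit 22],[nat_lit 23]],[[],[],[],[],[nat_lit 28,nat_lit 29],[nat_lit 30],[nat_lit 31],
    [nat_lit 32],[],[],[],[],[],[]],[[],[],[],[],[nat_lit 33,nat_lit 34],[nat_lit 35],[nat_lit 36],[nat_lit 37],[],[],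
    [],[],[],[]],[[nat_lit 48,nat_lit 50,nat_lit 55],[nat_lit 38,nat_lit 47,nat_lit 51,nat_lit 56],[nat_lit 45],
    [nat_lit 46],[nat_lit 39,nat_lit 40,nat_lit 42,nat_lit 53],[nat_lit 41,nat_lit 43,nat_lit 52,nat_lit 57],[],[],[],
    [],[nat_lit 49],[nat_lit 44,nat_lit 54],[],[]],[[nat_lit 60,nat_lit 74],[],[nat_lit 67,nat_lit 72],[nat_lit 68,
    nat_lit 73],[nat_lit 62],[nat_lit 61,nat_lit 65,nat_lit 66,nat_lit 75],[],[],[],[],[nat_lit 58,nat_lit 63,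
    nat_lit 70,nat_lit 71,nat_lit 76],[nat_lit 59,nat_lit 64,nat_lit 69,nat_lit 77],[],[]],[[],[nat_lit 83],
    [nat_lit 81],[nat_lit 82],[],[],[],[],[],[],[nat_lit 79,nat_lit 84,nat_lit 85],[nat_lit 78,nat_lit 80,nat_lit 86],
    [],[]],[[nat_lit 90,nat_lit 93],[nat_lit 91],[nat_lit 88],[nat_lit 89],[],[],[],[],[],[],[nat_lit 92,nat_lit 94],
    [nat_lit 87,nat_lit 95],[],[]],[[nat_lit 102],[nat_lit 103],[],[],[],[],[],[],[],[],[nat_lit 104,nat_lit 106],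
    [nat_lit 105],[nat_lit 96,nat_lit 98,nat_lit 100],[nat_lit 97,nat_lit 99,nat_lit 101]],[[],[nat_lit 112,
    nat_lit 115],[],[],[],[],[],[],[],[],[nat_lit 113,nat_lit 116],[nat_lit 114,nat_lit 117],[nat_lit 110],
    [nat_lit 107,nat_lit 108,nat_lit 109,nat_lit 111]],[[nat_lit 126],[nat_lit 128],[],[],[nat_lit 122,nat_lit 123,
    nat_lit 124,nat_lit 139],[nat_lit 118,nat_lit 127],[nat_lit 120,nat_lit 137],[nat_lit 119,nat_lit 121,
    nat_lit 138],[nat_lit 140,nat_lit 141],[nat_lit 142],[nat_lit 129,nat_lit 131],[nat_lit 125,nat_lit 130,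
    nat_lit 132],[nat_lit 133,nat_lit 135],[nat_lit 134,nat_lit 136]],[[nat_lit 151,nat_lit 154],[nat_lit 145,
    nat_lit 152],[],[],[nat_lit 144,nat_lit 146,nat_lit 147,nat_lit 148,nat_lit 159],[nat_lit 150],[nat_lit 160,
    nat_lit 162],[nat_lit 143,nat_lit 161,nat_lit 163],[nat_lit 164,nat_lit 166],[nat_lit 165,nat_lit 167],
    [nat_lit 149],[nat_lit 153,nat_lit 155],[nat_lit 156,nat_lit 157],[nat_lit 158]],[[nat_lit 171],[],[],[],[],[],[],
    [],[nat_lit 168,nat_lit 169,nat_lit 175,nat_lit 177],[nat_lit 170,nat_lit 176,nat_lit 178],[nat_lit 172],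
    [nat_lit 173,nat_lit 174],[],[]],[[nat_lit 180,nat_lit 183],[nat_lit 184],[],[],[],[],[],[],[nat_lit 187],
    [nat_lit 179,nat_lit 188,nat_lit 189],[nat_lit 181,nat_lit 185],[nat_lit 182,nat_lit 186],[],[]]]
    [[[nat_lit 0,nat_lit 0,nat_lit 0,nat_lit 0,nat_lit 0,nat_lit 0,nat_lit 0,
    nat_lit 0x10000000000000000000000000000000000000000000,nat_lit 0],
    [nat_lit 0x504000000000000000000000000000000000000000000,nat_lit 0x504000000000000000000000000000000000000000000,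
    nat_lit 0x8000000000000000000000000000000000000000000,nat_lit 0x60000000000000000000000000000000000000000000,
    nat_lit 0x60000000000000000000000000000000000000000000,nat_lit 0,nat_lit 0x1000000000,nat_lit 0x1000000000,
    nat_lit 0x1000000000],[nat_lit 0x1000000000,nat_lit 0,nat_lit 0x800000000,nat_lit 0,nat_lit 0x2000000000,
    nat_lit 0x2000000000,nat_lit 0,nat_lit 0,nat_lit 0],[nat_lit 0,nat_lit 512,nat_lit 0,nat_lit 0,nat_lit 0x1800,
    nat_lit 270,nat_lit 0,nat_lit 0x2100000000000000000,nat_lit 0x2100000000000000000],[nat_lit 0,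
    nat_lit 0x8062000000000000000,nat_lit 0,nat_lit 0,nat_lit 0x30000000,nat_lit 0x30000000,nat_lit 0,nat_lit 0,
    nat_lit 0x80000000],[nat_lit 0x80000000,nat_lit 0x80000000,nat_lit 0x80000000,nat_lit 0,nat_lit 0,nat_lit 0,
    nat_lit 0,nat_lit 0,nat_lit 0],[nat_lit 0,nat_lit 0,nat_lit 0,nat_lit 0,nat_lit 0x10000000000000000000000,
    nat_lit 0x10000000000000000000000,nat_lit 0x10000000000000000000000,nat_lit 0x10000000000000000000000,nat_lit 0],
    [nat_lit 0,nat_lit 0,nat_lit 0,nat_lit 0x80000000000000000000000,nat_lit 0,nat_lit 0,nat_lit 0,nat_lit 0,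
    nat_lit 0x20000000000000000000000],[nat_lit 0x20000000000000000000000,nat_lit 0x20000000000000000000000,
    nat_lit 0x20000000000000000000000,nat_lit 0,nat_lit 0,nat_lit 0,nat_lit 0x200000000000,nat_lit 0,nat_lit 0]],
    [[nat_lit 0x20058000000000,nat_lit 0x108804000000000,nat_lit 0,nat_lit 0,nat_lit 0,nat_lit 0,nat_lit 0,nat_lit 0,
    nat_lit 0x90000000000000000000000000000],[nat_lit 0x4000000000000000000000000000,
    nat_lit 0x4000000000000000000000000000,nat_lit 0x4000000000000000000000000000,nat_lit 0,nat_lit 0,nat_lit 0,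
    nat_lit 0x200000000000000000000,nat_lit 0x200000000000000000000,nat_lit 0],[nat_lit 0,nat_lit 0,nat_lit 0,
    nat_lit 0,nat_lit 0,nat_lit 0,nat_lit 0,nat_lit 0x4140000000000000000000,nat_lit 0],
    [nat_lit 0x4000000000000000000000000000000000000000,nat_lit 0x3000000000000000000000000000000000000000,
    nat_lit 0xa00000000000000000000000000000000000000000,nat_lit 0xa00000000000000000000000000000000000000000,
    nat_lit 0x480000000000000000000000000000000000000,nat_lit 0x480000000000000000000000000000000000000,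
    nat_lit 0x480000000000000000000000000000000000000,nat_lit 0xa00000000000000000000000000000000000000,
    nat_lit 0xa00000000000000000000000000000000000000],[nat_lit 0xa00000000000000000000000000000000000000,nat_lit 0,
    nat_lit 0,nat_lit 0x2a000000000000000000000000,nat_lit 0x2a000000000000000000000000,nat_lit 0,nat_lit 0,nat_lit 0,
    nat_lit 0],[nat_lit 0,nat_lit 0,nat_lit 0,nat_lit 0,nat_lit 0,nat_lit 0,nat_lit 0,
    nat_lit 0x500000000000000000000000000,nat_lit 0x500000000000000000000000000],[nat_lit 0,nat_lit 0,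
    nat_lit 0x15000000000000000000000000,nat_lit 0x15000000000000000000000000,nat_lit 0,
    nat_lit 0x40000000000000000000000000,nat_lit 0x200000000000000000000000000,nat_lit 0x200000000000000000000000000,
    nat_lit 0],[nat_lit 0,nat_lit 0,nat_lit 0,nat_lit 0,nat_lit 0,nat_lit 0,nat_lit 0,
    nat_lit 0x80000000000000000000000000000000000000000000000,
    nat_lit 0x80000000000000000000000000000000000000000000000],
    [nat_lit 0x80000000000000000000000000000000000000000000000,nat_lit 0,nat_lit 0,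
    nat_lit 0x22000000000000000000000000000000000000000000000,nat_lit 0,nat_lit 0,nat_lit 0,nat_lit 0,nat_lit 0]],
    [[nat_lit 0x300800000000000000000000000000000000000000000000,
    nat_lit 0x300800000000000000000000000000000000000000000000,
    nat_lit 0x9000000000000000000000000000000000000000000000,nat_lit 0x9000000000000000000000000000000000000000000000,
    nat_lit 0x44000000000000000000000000000000000000000000000,
    nat_lit 0x44000000000000000000000000000000000000000000000,nat_lit 0,nat_lit 0x14000000000000000000000000000000000,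
    nat_lit 0x14000000000000000000000000000000000],[nat_lit 0xa00000000000000000000000000000000,
    nat_lit 0xa00000000000000000000000000000000,nat_lit 0xa00000000000000000000000000000000,
    nat_lit 0x40002800000000000000000000000000000,nat_lit 0xa000000000000000000000000000000000,
    nat_lit 0xa000000000000000000000000000000000,nat_lit 0x400000000000000000000000000000000000,
    nat_lit 0x400000000000000000000000000000000000,nat_lit 0x800000],[nat_lit 0x180000,nat_lit 0x180000,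
    nat_lit 0x180000,nat_lit 0,nat_lit 0,nat_lit 0,nat_lit 0,nat_lit 0x600000,nat_lit 0x600000],[nat_lit 0x8000000]]]
    []
    (nat_lit 0) (nat_lit 6) (nat_lit 6)
    [[nat_lit 2,nat_lit 258,nat_lit 257,nat_lit 513,nat_lit 769,nat_lit 0x1101,nat_lit 0x10101,nat_lit 0x100101,
    nat_lit 0x1000101,nat_lit 0x1001,nat_lit 0x10001,nat_lit 0x100001,nat_lit 0x110001,nat_lit 0x1100001,
    nat_lit 0x1000001],[nat_lit 272,nat_lit 0x1000110,nat_lit 0x10010,nat_lit 0x100010,nat_lit 0x1000010],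
    [nat_lit 512,nat_lit 768,nat_lit 0x400,nat_lit 0x1300,nat_lit 0x10300,nat_lit 0x100300,nat_lit 0x1000300,
    nat_lit 0x1200,nat_lit 0x101200,nat_lit 0x1001200,nat_lit 0x10200,nat_lit 0x20200,nat_lit 0x100200,
    nat_lit 0x1100200,nat_lit 0x1000200,nat_lit 0x1010200,nat_lit 0x2000200,nat_lit 0x1100,nat_lit 0x2100,
    nat_lit 0x11100,nat_lit 0x101100,nat_lit 0x1001100,nat_lit 0x10100,nat_lit 0x110200,nat_lit 0x20100,
    nat_lit 0x110100,nat_lit 0x1010100,nat_lit 0x100100,nat_lit 0x200100,nat_lit 0x1100100,nat_lit 0x1000100,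
    nat_lit 0x1200100,nat_lit 0x2000100],[nat_lit 0x2000,nat_lit 0x102000,nat_lit 0x1002000,nat_lit 0x11000,
    nat_lit 0x21000,nat_lit 0x111000,nat_lit 0x1011000,nat_lit 0x101000,nat_lit 0x1101000,nat_lit 0x1001000,
    nat_lit 0x2001000],[nat_lit 0x20000,nat_lit 0x110000,nat_lit 0x210000,nat_lit 0x1010000],[nat_lit 0x200000,
    nat_lit 0x300000,nat_lit 0x1200000,nat_lit 0x1100000,nat_lit 0x2100000],[nat_lit 0x2000000,nat_lit 0x3000000]]
    [.c (nat_lit 1) (nat_lit 2),.c (nat_lit 1) (nat_lit 0x18c02),.c (nat_lit 0) (nat_lit 0x10803),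
    .c (nat_lit 3) (nat_lit 0x18c02),.c (nat_lit 2) (nat_lit 0x230803),.c (nat_lit 2) (nat_lit 0x4210803),
    .c (nat_lit 5) (nat_lit 0x18c02),.c (nat_lit 1) (nat_lit 0x18002),.c (nat_lit 7) (nat_lit 0x18c02),
    .c (nat_lit 3) (nat_lit 0x6010c02),.c (nat_lit 0) (nat_lit 0x6318043),.c (nat_lit 1) (nat_lit 0x802),
    .r (nat_lit 32) (nat_lit 6) [nat_lit 0x200001,nat_lit 0x4018041],
    .r (nat_lit 0x174c) (nat_lit 2) [nat_lit 0x84000001,nat_lit 0x18041,nat_lit 0xc6210861],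
    .c (nat_lit 0) (nat_lit 0x6318043),.c (nat_lit 1) (nat_lit 0x318802),.c (nat_lit 5) (nat_lit 0x6000c43),
    .r (nat_lit 32) (nat_lit 6) [nat_lit 0x200001,nat_lit 65],.r (nat_lit 0x1caf) (nat_lit 3) [nat_lit 65,
    nat_lit 0x80010061],.r (nat_lit 0x174c) (nat_lit 2) [nat_lit 0x84000001,nat_lit 0x6000041,nat_lit 0xc0200861],
    .c (nat_lit 3) (nat_lit 2),.r (nat_lit 0x1749) (nat_lit 13) [nat_lit 65,nat_lit 0x600061,nat_lit 0x84000001],
    .c (nat_lit 2) (nat_lit 0x440003),.r (nat_lit 317) (nat_lit 8) [nat_lit 0x114c000a1,nat_lit 0x80650061,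
    nat_lit 0x35715a841,nat_lit 0x80600061,nat_lit 0x180d00081],.r (nat_lit 0xe52) (nat_lit 10) [nat_lit 0x180d00081,
    nat_lit 0x600061,nat_lit 0x1ce701801,nat_lit 0xcc000a1],.c (nat_lit 2) (nat_lit 0x230003),
    .r (nat_lit 318) (nat_lit 12) [nat_lit 0x4000001,nat_lit 0x200001,nat_lit 0x80000001,nat_lit 0xc6418861,
    nat_lit 0x700041],.c (nat_lit 2) (nat_lit 0x4420003),.r (nat_lit 0x1caf) (nat_lit 3) [nat_lit 0x84400061,
    nat_lit 0x6510041],.r (nat_lit 319) (nat_lit 12) [nat_lit 0x4000001,nat_lit 0x200001,nat_lit 0x80000001,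
    nat_lit 0x6218861,nat_lit 0xc0500041],.r (nat_lit 2) (nat_lit 8) [nat_lit 0x200001,nat_lit 0x80500041],
    .r (nat_lit 0x174c) (nat_lit 2) [nat_lit 0x84000001,nat_lit 0x14a029062,nat_lit 0x420042],
    .c (nat_lit 3) (nat_lit 0x18002),.r (nat_lit 32) (nat_lit 6) [nat_lit 0x200001,nat_lit 0xc0218861],
    .r (nat_lit 32) (nat_lit 7) [nat_lit 0x200001,nat_lit 0x80500041],
    .r (nat_lit 0x1caf) (nat_lit 3) [nat_lit 0xc0218861,nat_lit 0x100320c41],
    .r (nat_lit 32) (nat_lit 6) [nat_lit 0x200001,nat_lit 0x140029062],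
    .r (nat_lit 0x1749) (nat_lit 13) [nat_lit 0xc0400041,nat_lit 0x80200061,nat_lit 0x84000001],
    .r (nat_lit 317) (nat_lit 8) [nat_lit 0x2144000a1,nat_lit 0x100250061,nat_lit 0x3d6d5a841,nat_lit 0x100200061,
    nat_lit 0x80500081],.r (nat_lit 0xe52) (nat_lit 10) [nat_lit 0x80500081,nat_lit 0x80200061,nat_lit 0x1ce701801,
    nat_lit 0x10c4000a1],.c (nat_lit 2) (nat_lit 0x4210003),.r (nat_lit 318) (nat_lit 12) [nat_lit 0x4000001,
    nat_lit 0x200001,nat_lit 0x80000001,nat_lit 0x6018861,nat_lit 0xc0300041],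
    .r (nat_lit 0x1c42) (nat_lit 3) [nat_lit 0x84000001,nat_lit 65],
    .r (nat_lit 0x174c) (nat_lit 2) [nat_lit 0x84000001,nat_lit 0xc6218861,nat_lit 0x10041],
    .r (nat_lit 320) (nat_lit 10) [nat_lit 0x80500081,nat_lit 0x200061,nat_lit 0xc6518841,nat_lit 0x210061,
    nat_lit 0x44000a1],.c (nat_lit 5) (nat_lit 0x18002),.c (nat_lit 2) (nat_lit 0x6000c43),
    .c (nat_lit 0) (nat_lit 0x10003),.c (nat_lit 1) (nat_lit 0x18802),.c (nat_lit 7) (nat_lit 0x18002),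
    .r (nat_lit 0x1b49) (nat_lit 11) [nat_lit 0x200061,nat_lit 0x84000001,nat_lit 65],
    .c (nat_lit 5) (nat_lit 0x6300c43),.r (nat_lit 321) (nat_lit 12) [nat_lit 0x44000a1,nat_lit 65,nat_lit 0x80500081,
    nat_lit 0xc6518841,nat_lit 0x200061],.c (nat_lit 4) (nat_lit 2),
    .r (nat_lit 0x1caf) (nat_lit 3) [nat_lit 0x104000061,nat_lit 0xc6010041],
    .r (nat_lit 319) (nat_lit 12) [nat_lit 0x4000001,nat_lit 0x200001,nat_lit 0x80000001,nat_lit 0x86318861,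
    nat_lit 0x140000041],.r (nat_lit 2) (nat_lit 8) [nat_lit 0x200001,nat_lit 65],
    .r (nat_lit 0x174c) (nat_lit 2) [nat_lit 0x84000001,nat_lit 0xca529062,nat_lit 0xc0820042],
    .r (nat_lit 0x174c) (nat_lit 2) [nat_lit 0x84000001,nat_lit 0x6318861,nat_lit 0xc0410041],
    .r (nat_lit 0x1caf) (nat_lit 3) [nat_lit 0x318861,nat_lit 0x80220c41],.c (nat_lit 3) (nat_lit 0x6010002),
    .r (nat_lit 32) (nat_lit 6) [nat_lit 0x200001,nat_lit 0x318861],.r (nat_lit 32) (nat_lit 7) [nat_lit 0x200001,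
    nat_lit 65],.r (nat_lit 32) (nat_lit 6) [nat_lit 0x200001,nat_lit 0xc0529062],.c (nat_lit 5) (nat_lit 2),
    .c (nat_lit 0) (nat_lit 0x6318c43),.r (nat_lit 32) (nat_lit 6) [nat_lit 0x200001,nat_lit 0x4000041],
    .c (nat_lit 3) (nat_lit 0x4220862),.c (nat_lit 6) (nat_lit 2),.r (nat_lit 0x1caf) (nat_lit 3) [nat_lit 0x4000041,
    nat_lit 0x86010061],.r (nat_lit 0x174c) (nat_lit 2) [nat_lit 0x84000001,nat_lit 65,nat_lit 0xc6200861],
    .c (nat_lit 0) (nat_lit 0x6318c43),.r (nat_lit 0x1ca9) (nat_lit 1) [nat_lit 0x84210c41,nat_lit 0x200001,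
    nat_lit 0x14a519061],.c (nat_lit 7) (nat_lit 2),.r (nat_lit 0x1b30) (nat_lit 12) [nat_lit 65,nat_lit 0x200001,
    nat_lit 0x6020001,nat_lit 0x84000001]]]

/-- nodes -/
noncomputable def rD7k_24_13 : List RJ :=
  [.l (nat_lit 15) (nat_lit 0x1e00) (nat_lit 3) (nat_lit 0xcf400000cb400000ee00000122800000f3d00000f3d00000fc200000e7800000e9800000ec000000cf400000cd400000d1400000e70) (nat_lit 0x574000005340000000000000348000002eb000002eb000003b00000026600000368000003900000055400000534000003b800000514)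
    (nat_lit 0x16501e0066a09ac17962a245e40bb813181e003c007c012781f805ac0b281a2825b04478df111181e004a607800f001e0047e078012d826b055c07801d862e5466a0db416f02f204d609ac0f0026b068a0cd424502ae09358f3d209844b03c00f0019a834506f807801be22a2479e8b9515d0314859289a9176a27647be9149174a28a44478bcb24d63b0c5e50ae8188e335c5ea8bad196e3a0c52d8a290f002ee08960db419ae26a46090de40fc02de05370a8e14901f804460bc8209833506238b25159030484c60ae811381e006520b280f001e007800bc8175a27645740b7819e82c203c00ae810b828304a6098c0f002de05ea8bb513181f805cc0cf412d8263058409cc0f001f0068a09ac1d0645243c00a8e13182ba03c0078012781f803c0078019a826b065b8f7d113829b84b607800f001e0048e07c00f001f803c009ac145228a459407e0139828303e007e012f8200047e093c1be01e0052d8ba519482920584085c123824f057c097c)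
    (nat_lit 0x16507800f001e003c007800f001e003c007800f001e003c0078003c00b283c007800f001e003c007800f001e003c007800f001e0019a8345055c1e003c007800f001e003c007800f001e003c0078004d6096c0f002ae0f001e003c007800f001e003c007800f001e001796223c761926b15d07800f001e003c007800f001e003c0078005448df1172a3cf46290ae83c007800f001e003c007800f001e001790223066a104c164a311c6091e003c007800f001e003c0078005dc07801b6844b04d48cd71bc83048f001e003c007800f001e00131825305bc0780176a2f543f0098c19e87800f001e003c0078003c0078017903c004ec8bad16f02ba05840cf43c007800f001e000f001e004d60cd41efa32dc537089c0f0025b03c01e003c0078003e00780135834508948e83151c1e00574098c0f001e00f001e00127823f03c00df0174a296c5240ca410b82c2049e091c12f878003f0078013581e005148a290fc02ca050609cc0fc01f00400097c)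
    (nat_lit 5) (nat_lit 83)
    [[nat_lit 2,nat_lit 3,nat_lit 18,nat_lit 258,nat_lit 0x100002,nat_lit 0x1000002,nat_lit 17,nat_lit 33,nat_lit 273,
    nat_lit 0x1011,nat_lit 0x100011,nat_lit 0x1000011,nat_lit 257,nat_lit 0x1101,nat_lit 0x100101,nat_lit 0x1000101,
    nat_lit 0x1001,nat_lit 0x2001,nat_lit 0x1001001,nat_lit 0x10001,nat_lit 0x1010001,nat_lit 0x11001,
    nat_lit 0x110001,nat_lit 0x100001,nat_lit 0x200001,nat_lit 0x1100001,nat_lit 0x1000001,nat_lit 0x2000001],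
    [nat_lit 32,nat_lit 48,nat_lit 288,nat_lit 0x1020,nat_lit 0x1000020,nat_lit 272,nat_lit 0x1110,nat_lit 0x100110,
    nat_lit 0x1000110,nat_lit 0x1010,nat_lit 0x1001010,nat_lit 0x11010,nat_lit 0x100010,nat_lit 0x1000010,
    nat_lit 0x2000010],[nat_lit 512,nat_lit 0x1000200,nat_lit 0x1100,nat_lit 0x1200,nat_lit 0x1001100,nat_lit 0x10100,
    nat_lit 0x1010100,nat_lit 0x100100,nat_lit 0x1100100,nat_lit 0x1000100,nat_lit 0x2000100],[nat_lit 0x2000,
    nat_lit 0x11000,nat_lit 0x1001000,nat_lit 0x2001000],[nat_lit 0x20000,nat_lit 0x1010000],[nat_lit 0x200000,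
    nat_lit 0x1100000],[nat_lit 0x2000000]]
    [.c (nat_lit 1) (nat_lit 2),.r (nat_lit 0x609) (nat_lit 2) [nat_lit 65,nat_lit 0x18c0300a1,nat_lit 0x1ce600082,
    nat_lit 0x18e76b122,nat_lit 0x1ce000081],.c (nat_lit 6) (nat_lit 0x4200803),
    .r (nat_lit 0x1caf) (nat_lit 2) [nat_lit 0x10001,nat_lit 0xc0018041],
    .r (nat_lit 0x1b36) (nat_lit 5) [nat_lit 0xc4221482,nat_lit 0x803290a1,nat_lit 0x184301122],
    .r (nat_lit 0x174e) (nat_lit 13) [nat_lit 0x6029062,nat_lit 0x10001],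
    .r (nat_lit 32) (nat_lit 6) [nat_lit 0x842200a2,nat_lit 0x10001],
    .r (nat_lit 0x60a) (nat_lit 4) [nat_lit 0xc0748081,nat_lit 0x846400a2,nat_lit 0x300001,nat_lit 0x86e61122,
    nat_lit 0x210001],.c (nat_lit 6) (nat_lit 0x4211005),.r (nat_lit 0x1b54) (nat_lit 10) [nat_lit 0x10001,
    nat_lit 0x863010a2,nat_lit 0x4000001],.c (nat_lit 3) (nat_lit 0x4211005),
    .r (nat_lit 0x60b) (nat_lit 2) [nat_lit 0x88010061,nat_lit 0xce018081,nat_lit 0x8c2200a2,nat_lit 0x1e6369102,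
    nat_lit 0x8c0200a1],.c (nat_lit 0) (nat_lit 0x301485),.c (nat_lit 6) (nat_lit 0x200862),
    .c (nat_lit 2) (nat_lit 0x4211005),.r (nat_lit 0x60c) (nat_lit 5) [nat_lit 0x1402000a1,nat_lit 0x86329002,
    nat_lit 0xc0200061,nat_lit 0x100310081,nat_lit 0x80300081],.c (nat_lit 0) (nat_lit 0x4319485),
    .r (nat_lit 0x609) (nat_lit 2) [nat_lit 0x86329061,nat_lit 0x94472481,nat_lit 0xd624a0a2,nat_lit 0xc4221502,
    nat_lit 0xd654a0a1],.r (nat_lit 32) (nat_lit 6) [nat_lit 0x18861,nat_lit 0x10001],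
    .r (nat_lit 0x1b54) (nat_lit 10) [nat_lit 0x10001,nat_lit 65,nat_lit 0x4000001],
    .r (nat_lit 0x609) (nat_lit 2) [nat_lit 0x80000041,nat_lit 0x8c0300a1,nat_lit 0xce600082,nat_lit 0xce76b122,
    nat_lit 0xce000081],.r (nat_lit 32) (nat_lit 6) [nat_lit 0x4210c41,nat_lit 0x10001],
    .r (nat_lit 0x60d) (nat_lit 5) [nat_lit 0xc6000081,nat_lit 0x18e76b002,nat_lit 0xc6600082,nat_lit 0x840300a1,
    nat_lit 0x1440000a1],.c (nat_lit 3) (nat_lit 0x6310004),.r (nat_lit 32) (nat_lit 6) [nat_lit 0xc6200082,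
    nat_lit 0x10001],.r (nat_lit 0x174e) (nat_lit 13) [nat_lit 0x18861,nat_lit 0x10001],
    .r (nat_lit 0x1b04) (nat_lit 4) [nat_lit 65,nat_lit 0x10001],.r (nat_lit 0x10e8) (nat_lit 12) [nat_lit 0x80001,
    nat_lit 0x1d66ad122,nat_lit 0x9c329122,nat_lit 0xc4221501],.c (nat_lit 2) (nat_lit 2),
    .r (nat_lit 0x1c4d) (nat_lit 5) [nat_lit 0x10001,nat_lit 0x230062,nat_lit 0x8251462],
    .r (nat_lit 0x1c4d) (nat_lit 5) [nat_lit 0x10001,nat_lit 0x220061,nat_lit 0x4230c61],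
    .r (nat_lit 0x1b54) (nat_lit 10) [nat_lit 0x10001,nat_lit 0x863210a4,nat_lit 0x4000001],
    .r (nat_lit 0x1bd6) (nat_lit 5) [nat_lit 0x4020062,nat_lit 0x18041],.c (nat_lit 0) (nat_lit 0x10805),
    .r (nat_lit 0x1caf) (nat_lit 2) [nat_lit 0x10001,nat_lit 0xc62290a2],.c (nat_lit 1) (nat_lit 0x4211005),
    .r (nat_lit 0x1c80) (nat_lit 5) [nat_lit 0x10001,nat_lit 0x18041,nat_lit 0x4010061],
    .r (nat_lit 0x1b36) (nat_lit 5) [nat_lit 0x8c2414a4,nat_lit 0xc6349082,nat_lit 65],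
    .c (nat_lit 2) (nat_lit 0x42120a4),.c (nat_lit 1) (nat_lit 0x4318085),
    .r (nat_lit 0x1b36) (nat_lit 5) [nat_lit 0x8c2414a2,nat_lit 0xca349081,nat_lit 0xce349102],
    .r (nat_lit 32) (nat_lit 6) [nat_lit 0x4210062,nat_lit 0x10001],.r (nat_lit 0x1c80) (nat_lit 5) [nat_lit 0x10001,
    nat_lit 0x218042,nat_lit 0x8310062],.c (nat_lit 3) (nat_lit 2),.c (nat_lit 1) (nat_lit 0x4018002),
    .c (nat_lit 0) (nat_lit 0x6311485),.c (nat_lit 6) (nat_lit 0x46190a4),.c (nat_lit 0) (nat_lit 0x6311485),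
    .r (nat_lit 0x1c4d) (nat_lit 5) [nat_lit 0x10001,nat_lit 65,nat_lit 0x4010c41],
    .r (nat_lit 0x1caf) (nat_lit 2) [nat_lit 0x10001,nat_lit 0x18041],.c (nat_lit 0) (nat_lit 0x210805),
    .c (nat_lit 1) (nat_lit 0x4318004),.c (nat_lit 0) (nat_lit 0x6311489),
    .r (nat_lit 0x1149) (nat_lit 12) [nat_lit 0x60001,nat_lit 0x14a44a0a1,nat_lit 0xd4229122,nat_lit 0x84321501],
    .c (nat_lit 4) (nat_lit 2),.c (nat_lit 6) (nat_lit 0x46110a4),.c (nat_lit 0) (nat_lit 0x631a485),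
    .r (nat_lit 32) (nat_lit 6) [nat_lit 0xc42290a4,nat_lit 0x10001],.c (nat_lit 5) (nat_lit 2),
    .c (nat_lit 1) (nat_lit 0x4000002),.c (nat_lit 6) (nat_lit 2),.c (nat_lit 0) (nat_lit 0x200003),
    .c (nat_lit 7) (nat_lit 2)],
    .l (nat_lit 14) (nat_lit 0x960) (nat_lit 3) (nat_lit 0x4de000004780000060a0000060a0000047800000450000004f200000478000003ea000003ea00000478000004de0000045a0000048c) (nat_lit 0x1920000012c0000000000000000000001ba00000192000001920000011800000220000002200000012c000001920000017e000001b0)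
    (nat_lit 0xf183b213a05800af82d20d8044009602b40ef034c0d802b40f403c60f804780b202e60b982c809602580d302e609602be11e0580182852013a051011e04e80fa83ea13a0478104845a0f804e8180060a114047811e04e80fa836613a0478141854e0b982d211e05100b202f00da8360096025809602e60bc02be0b202be11404e80a582c80ce033809602580b702be096028c0b2044013a04e80ce03600ce03da0b482580f683380f6838a0b9836011e04780ce036a096033809602580cb82580c102c809602b40d983ea0960258096025809602580af8258096025809602580fa83ea096025809602d20960258098825809b02580b9834c11e04780af82e6096033809602580cb82580d803240d303bc13a04e80b702580cb83da09882be0f6832e0f6832e0af82b4153845a0a302be0b2038a09602580cb83240b482820960360141841209602f00c103da09b02580f683600c382d2)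
    (nat_lit 0xf189602580960258096025809602580960258096025809600ec83c625809602580960258096025809602580960258096013a03e01828960258096025809602580960258096025809601600478148060a258096025809602580960258096025809600af82c813a04500b2096025809602580960258096025809600b482e614404780bc02c825809602580960258096025809600d802e611e04780da83380ce096025809602580960258096011002c813a04e80d803380f6833825809602580960258096009602580fa83ea09602580b482580960960258096025809600ad02580fa8366096025809602580960258258096025809600ef034c13a04e809602dc0f6832e0af82620cb896025809600d302e611e04780b982be0ce02580960258096032e25809600d8025810485060bc02580f68304096026c0d803da0b489600ad02be116854e0af828c0e282c809602580c9032e0a082d2)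
    (nat_lit 5) (nat_lit 83)
    [[nat_lit 2,nat_lit 3,nat_lit 258,nat_lit 0x10002,nat_lit 0x1000002,nat_lit 17,nat_lit 273,nat_lit 0x10011,
    nat_lit 257,nat_lit 513,nat_lit 0x1101,nat_lit 0x10101,nat_lit 0x1000101,nat_lit 0x1001,nat_lit 0x11001,
    nat_lit 0x1001001,nat_lit 0x10001,nat_lit 0x20001,nat_lit 0x1010001,nat_lit 0x1000001,nat_lit 0x1000011,
    nat_lit 0x2000001],[nat_lit 32,nat_lit 288,nat_lit 0x10020,nat_lit 272,nat_lit 528,nat_lit 0x1110,nat_lit 0x10110,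
    nat_lit 0x1000110,nat_lit 0x1010,nat_lit 0x11010,nat_lit 0x1001010,nat_lit 0x10010,nat_lit 0x20010,
    nat_lit 0x1010010,nat_lit 0x1000010],[nat_lit 512,nat_lit 768,nat_lit 0x1200,nat_lit 0x10200,nat_lit 0x1000200,
    nat_lit 0x1100,nat_lit 0x2100,nat_lit 0x11100,nat_lit 0x1001100,nat_lit 0x10100,nat_lit 0x20100,nat_lit 0x1010100,
    nat_lit 0x100100,nat_lit 0x1000100,nat_lit 0x2000100],[nat_lit 0x2000,nat_lit 0x12000,nat_lit 0x11000,
    nat_lit 0x1011000,nat_lit 0x1001000],[nat_lit 0x20000,nat_lit 0x30000,nat_lit 0x1020000,nat_lit 0x1010000],[],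
    [nat_lit 0x2000000]]
    [.c (nat_lit 1) (nat_lit 2),.r (nat_lit 0x1caf) (nat_lit 7) [nat_lit 0x80620124,nat_lit 0xc4d00204],
    .r (nat_lit 0x174c) (nat_lit 9) [nat_lit 0x84000004,nat_lit 0x210002,nat_lit 0xc602a0a2],
    .r (nat_lit 8) (nat_lit 4) [nat_lit 0xc022a124,nat_lit 0x80200004],
    .r (nat_lit 0x1caf) (nat_lit 7) [nat_lit 0x802200a4,nat_lit 0xc4500104],.c (nat_lit 0) (nat_lit 0x10805),
    .r (nat_lit 0x1b1b) (nat_lit 8) [nat_lit 0x318082,nat_lit 0x4300004,nat_lit 0x80200004],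
    .r (nat_lit 0x1bd6) (nat_lit 0) [nat_lit 0x80328104,nat_lit 0xc4020004],.c (nat_lit 0) (nat_lit 0x6301509),
    .r (nat_lit 0x1bb5) (nat_lit 10) [nat_lit 0x6200004,nat_lit 0x4300104,nat_lit 0x84000004],
    .r (nat_lit 0x174c) (nat_lit 9) [nat_lit 0x84000004,nat_lit 0x210002,nat_lit 0x14634c124],
    .c (nat_lit 2) (nat_lit 0x4202128),.r (nat_lit 0x1a29) (nat_lit 3) [nat_lit 0x4300004,nat_lit 0xc6002124,
    nat_lit 0x80200004],.c (nat_lit 1) (nat_lit 0x310008),.r (nat_lit 8) (nat_lit 4) [nat_lit 0xc402a124,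
    nat_lit 0x80200004],.r (nat_lit 0x1caf) (nat_lit 7) [nat_lit 0x104240128,nat_lit 0xc0300104],
    .c (nat_lit 0) (nat_lit 0x6301509),.r (nat_lit 0x677) (nat_lit 0) [nat_lit 0x84000002,nat_lit 0xa000001,
    nat_lit 0x6200002,nat_lit 0x4010001,nat_lit 0x14c34c124],.r (nat_lit 0x1aa7) (nat_lit 3) [nat_lit 0x4300004,
    nat_lit 0xc6002124,nat_lit 0x80200004],.r (nat_lit 0x1bec) (nat_lit 2) [nat_lit 65,nat_lit 0x84000004],
    .r (nat_lit 0x1caf) (nat_lit 7) [nat_lit 0x80240124,nat_lit 0xc4548204],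
    .r (nat_lit 0x1caf) (nat_lit 7) [nat_lit 0x18026012c,nat_lit 0x1cc50020c],.c (nat_lit 2) (nat_lit 2),
    .r (nat_lit 0x1940) (nat_lit 4) [nat_lit 0x18041,nat_lit 0x10001,nat_lit 0x84000004,nat_lit 0x200001],
    .r (nat_lit 0x679) (nat_lit 4) [nat_lit 0x6000001,nat_lit 0x84000004,nat_lit 0x6018041,nat_lit 0xd8322124,
    nat_lit 0x4010002],.r (nat_lit 0x1bec) (nat_lit 8) [nat_lit 65,nat_lit 0x84000004],
    .r (nat_lit 0x1b1b) (nat_lit 8) [nat_lit 0x318084,nat_lit 0x4300004,nat_lit 0x80200004],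
    .r (nat_lit 0x1b1b) (nat_lit 8) [nat_lit 0x6328104,nat_lit 0x4300004,nat_lit 0x80200004],
    .r (nat_lit 0x1b2f) (nat_lit 3) [nat_lit 0x4300004,nat_lit 0xc6002124,nat_lit 0x80200004],
    .r (nat_lit 0x174c) (nat_lit 9) [nat_lit 0x84000004,nat_lit 0x210002,nat_lit 0xc631a0a2],
    .c (nat_lit 0) (nat_lit 0x200809),.r (nat_lit 0x1bd6) (nat_lit 0) [nat_lit 0x86028104,nat_lit 0xc4020004],
    .r (nat_lit 0x1caf) (nat_lit 7) [nat_lit 0x84040124,nat_lit 0xc6048204],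
    .r (nat_lit 0x1c15) (nat_lit 7) [nat_lit 65,nat_lit 0x80200004,nat_lit 0xc4020124],
    .r (nat_lit 0x1bd6) (nat_lit 0) [nat_lit 0x80018084,nat_lit 0xc4020004],
    .r (nat_lit 8) (nat_lit 4) [nat_lit 0xc0302124,nat_lit 0x80200004],.c (nat_lit 1) (nat_lit 0x10c04),
    .c (nat_lit 3) (nat_lit 2),.r (nat_lit 0x67b) (nat_lit 5) [nat_lit 0x1cec6e124,nat_lit 0xc700004,nat_lit 65,
    nat_lit 0x630002,nat_lit 0x700001],.r (nat_lit 0x1bb5) (nat_lit 10) [nat_lit 0x6200004,nat_lit 65,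
    nat_lit 0x84000004],.r (nat_lit 0x67c) (nat_lit 3) [nat_lit 0x204222504,nat_lit 0xc0010002,nat_lit 0x80200004,
    nat_lit 0x80000001,nat_lit 0x24632a0a2],.r (nat_lit 0x174c) (nat_lit 9) [nat_lit 0x84000004,nat_lit 0x210002,
    nat_lit 0xc632a062],.c (nat_lit 0) (nat_lit 0x6019509),.r (nat_lit 0x174c) (nat_lit 9) [nat_lit 0x84000004,
    nat_lit 0x210002,nat_lit 0xc032a0a2],.c (nat_lit 2) (nat_lit 0x4012128),
    .r (nat_lit 0x1a29) (nat_lit 3) [nat_lit 0x4300004,nat_lit 0xc0302124,nat_lit 0x80200004],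
    .c (nat_lit 0) (nat_lit 0x6319509),.r (nat_lit 0x67d) (nat_lit 7) [nat_lit 0x84522504,nat_lit 0x80200004,
    nat_lit 0x300001,nat_lit 0x210002,nat_lit 0xc642a0a2],.c (nat_lit 1) (nat_lit 0x4221128),
    .r (nat_lit 0x1b1b) (nat_lit 8) [nat_lit 0xc0300104,nat_lit 0x4300004,nat_lit 0x80200004],
    .c (nat_lit 0) (nat_lit 0x6319509),.r (nat_lit 0x19fe) (nat_lit 1) [nat_lit 0x80200004,nat_lit 0xc0010002,
    nat_lit 0x84000004,nat_lit 0x4222504],.c (nat_lit 4) (nat_lit 2),.r (nat_lit 8) (nat_lit 4) [nat_lit 0xc832a124,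
    nat_lit 0x80200004],.c (nat_lit 0) (nat_lit 0x6019509),.r (nat_lit 0x1aa7) (nat_lit 3) [nat_lit 0x4300004,
    nat_lit 0xc0302124,nat_lit 0x80200004],.r (nat_lit 0x1bec) (nat_lit 2) [nat_lit 0x6200104,nat_lit 0x84000004],
    .c (nat_lit 5) (nat_lit 2),.r (nat_lit 0x18c0) (nat_lit 6) [nat_lit 65,nat_lit 0x6200004,nat_lit 0x84000004,
    nat_lit 0x4010002],.r (nat_lit 8) (nat_lit 4) [nat_lit 0xc032a0a4,nat_lit 0x80200004],
    .c (nat_lit 0) (nat_lit 0x6319509),.c (nat_lit 7) (nat_lit 2)]]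

/-- nodes -/
noncomputable def rD7k_24_14 : List RJ :=
  [.l (nat_lit 10) (nat_lit 240) (nat_lit 3) (nat_lit 0x78000000780000007c0000007c0000007f0000007300000070000000a4000000a20000007600000070000000780000007400000070) (nat_lit 0x2c0000002c0000002800000028000000310000002500000000000000340000002e000000020000002c000000340000003400000030)
    (nat_lit 0x1504c1405011c590f044128a81303c11048140541405013c551e044120a60f03c11046140501485012c57130401587a1484a1005c140501505212c571f042160481885a1085e1545915c571505a2c44b0fc7d1044112c3d13c4712c4b108542943f1146911c3f0fc4311044108400fc4b1e03c1083c1103c0f0401e03c1f04c294b12d078108a2110700f83c298a81207a1a47d2883c1d0902b8a22a8a61204a160561143f108421207413842128460f03c1684a0fc411c03c108a21103c0f03c0f04c1885211c4111044138ae1304411048118481785c10c3d0f040118a61203c1004411044108400fc4b0f83c128aa1103c0f040)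
    (nat_lit 0x150f03c0f03c0f03c0f03c0f03c0f03c0f0130543c0f03c0f03c0f03c0f03c0f03c0f014050148f03c0f03c0f03c0f03c0f03c0f014050140523c0f03c0f03c0f03c0f03c0f011c4f12c4b150f03c0f03c0f03c0f03c0f01645515c57168543c0f03c0f03c0f03c0f00f0781307c2448b1e0f03c0f03c0f03c0f0110441004212c3f0f0783c0f03c0f03c0f012848158580fc45108421d0f03c0f03c0f01e0981e8481f4690f094240743c0f03c0f01303c1486210447110442004e110f03c0f00f03c1285a1043f0f070248420f0443c0f0110441004212c3f0f03e1e84a0f044100f0120461705e0f4431003c1e0460f04811040)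
    (nat_lit 4) (nat_lit 83)
    [[nat_lit 2,nat_lit 3,nat_lit 18,nat_lit 0x1002,nat_lit 0x10002,nat_lit 0x100002,nat_lit 0x1000002,nat_lit 17,
    nat_lit 33,nat_lit 0x1011,nat_lit 0x10011,nat_lit 0x100011,nat_lit 0x1000011,nat_lit 0x1101,nat_lit 0x100101,
    nat_lit 0x1001,nat_lit 0x101001,nat_lit 0x1001001,nat_lit 0x2001,nat_lit 0x11001,nat_lit 0x10001,nat_lit 0x20001,
    nat_lit 0x1010001,nat_lit 0x100001,nat_lit 0x110001,nat_lit 0x1100001,nat_lit 0x1000001,nat_lit 0x2000001],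
    [nat_lit 32,nat_lit 48,nat_lit 0x1020,nat_lit 0x10020,nat_lit 0x1000020,nat_lit 0x100110,nat_lit 0x1010,
    nat_lit 0x101010,nat_lit 0x1001010,nat_lit 0x1110,nat_lit 0x11010,nat_lit 0x10010,nat_lit 0x10110,nat_lit 0x20010,
    nat_lit 0x110010,nat_lit 0x1010010,nat_lit 0x100010,nat_lit 0x1100010,nat_lit 0x1000010,nat_lit 0x2000010],
    [nat_lit 512,nat_lit 0x1100,nat_lit 0x101100,nat_lit 0x10100,nat_lit 0x110100,nat_lit 0x100100,nat_lit 0x1100100,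
    nat_lit 0x1001100],[nat_lit 0x101000,nat_lit 0x111000,nat_lit 0x201000,nat_lit 0x1101000,nat_lit 0x1001000,
    nat_lit 0x1011000,nat_lit 0x2001000],[nat_lit 0x20000,nat_lit 0x110000,nat_lit 0x1010000,nat_lit 0x1110000],
    [nat_lit 0x200000,nat_lit 0x1100000,nat_lit 0x2100000],[nat_lit 0x2000000]]
    [.c (nat_lit 1) (nat_lit 2),.r (nat_lit 0x19de) (nat_lit 13) [nat_lit 0x23001,nat_lit 0x202001,nat_lit 0x3021],
    .r (nat_lit 0x19de) (nat_lit 13) [nat_lit 0x23001,nat_lit 0x202001,nat_lit 0x30021],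
    .c (nat_lit 5) (nat_lit 0x222332),.r (nat_lit 0x1caf) (nat_lit 6) [nat_lit 0x200001,nat_lit 0x325021],
    .r (nat_lit 32) (nat_lit 8) [nat_lit 0x3554432,nat_lit 0x200001],
    .r (nat_lit 0x19de) (nat_lit 13) [nat_lit 0x23001,nat_lit 0x202001,nat_lit 33],.c (nat_lit 1) (nat_lit 0x3202),
    .r (nat_lit 0x19de) (nat_lit 13) [nat_lit 0x23001,nat_lit 0x202001,nat_lit 0x52021],
    .c (nat_lit 5) (nat_lit 0x220032),.r (nat_lit 0x1caf) (nat_lit 6) [nat_lit 0x200001,nat_lit 0x303021],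
    .r (nat_lit 32) (nat_lit 8) [nat_lit 0x3532432,nat_lit 0x200001],
    .r (nat_lit 0x19de) (nat_lit 13) [nat_lit 0x23001,nat_lit 0x202001,nat_lit 0x32021],
    .c (nat_lit 0) (nat_lit 0x30302),.c (nat_lit 5) (nat_lit 0x220203),.c (nat_lit 0) (nat_lit 0x355045),
    .r (nat_lit 0x174d) (nat_lit 13) [nat_lit 0x330231,nat_lit 0x220001],.c (nat_lit 5) (nat_lit 0x222032),
    .r (nat_lit 0x1bdf) (nat_lit 7) [nat_lit 0x220001,nat_lit 0x220321],.r (nat_lit 32) (nat_lit 2) [nat_lit 0x300231,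
    nat_lit 0x200001],.c (nat_lit 0) (nat_lit 0x255449),.r (nat_lit 0x1c71) (nat_lit 11) [nat_lit 0x2000031,
    nat_lit 33,nat_lit 0x202001],.r (nat_lit 0x1caf) (nat_lit 6) [nat_lit 0x200001,nat_lit 0x323021],
    .r (nat_lit 0) (nat_lit 3) [nat_lit 0x23021,nat_lit 0x200001],.r (nat_lit 32) (nat_lit 8) [nat_lit 0x332231,
    nat_lit 0x200001],.r (nat_lit 32) (nat_lit 8) [nat_lit 0x3552432,nat_lit 0x200001],.c (nat_lit 1) (nat_lit 514),
    .r (nat_lit 0x19de) (nat_lit 13) [nat_lit 0x23001,nat_lit 0x202001,nat_lit 0x2021],.c (nat_lit 2) (nat_lit 2),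
    .r (nat_lit 0x19de) (nat_lit 13) [nat_lit 0x23001,nat_lit 0x202001,nat_lit 0x74021],
    .c (nat_lit 5) (nat_lit 0x223232),.r (nat_lit 0x1caf) (nat_lit 6) [nat_lit 0x200001,nat_lit 0x330021],
    .r (nat_lit 0x19de) (nat_lit 13) [nat_lit 0x23001,nat_lit 0x202001,nat_lit 0x54021],
    .c (nat_lit 5) (nat_lit 0x222003),.c (nat_lit 0) (nat_lit 0x350545),
    .r (nat_lit 0x174d) (nat_lit 13) [nat_lit 0x303231,nat_lit 0x220001],.c (nat_lit 5) (nat_lit 0x220232),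
    .c (nat_lit 0) (nat_lit 0x33002),.r (nat_lit 32) (nat_lit 2) [nat_lit 0x323231,nat_lit 0x200001],
    .c (nat_lit 0) (nat_lit 0x254549),.c (nat_lit 0) (nat_lit 0x33002),
    .r (nat_lit 0x1c71) (nat_lit 11) [nat_lit 0x2023031,nat_lit 0x32021,nat_lit 0x202001],
    .r (nat_lit 32) (nat_lit 8) [nat_lit 0x300231,nat_lit 0x200001],.r (nat_lit 0x1caf) (nat_lit 6) [nat_lit 0x200001,
    nat_lit 0x300021],.r (nat_lit 0) (nat_lit 3) [nat_lit 33,nat_lit 0x200001],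
    .r (nat_lit 32) (nat_lit 8) [nat_lit 0x3530432,nat_lit 0x200001],.c (nat_lit 1) (nat_lit 0x3402),
    .r (nat_lit 0x19de) (nat_lit 13) [nat_lit 0x23001,nat_lit 0x202001,nat_lit 0x34021],.c (nat_lit 3) (nat_lit 2),
    .r (nat_lit 0x1b3b) (nat_lit 7) [nat_lit 0x300021,nat_lit 0x20001,nat_lit 0x200001],
    .r (nat_lit 0x1bd6) (nat_lit 8) [nat_lit 0x220001,nat_lit 0x330021],
    .r (nat_lit 32) (nat_lit 8) [nat_lit 0x3530221,nat_lit 0x200001],.c (nat_lit 0) (nat_lit 0x7d5548),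
    .r (nat_lit 0x1c71) (nat_lit 11) [nat_lit 0x303021,nat_lit 0x2202031,nat_lit 0x202001],
    .c (nat_lit 5) (nat_lit 0x220003),.c (nat_lit 0) (nat_lit 0x30002),
    .r (nat_lit 0x1bec) (nat_lit 8) [nat_lit 0x220001,nat_lit 33],.r (nat_lit 0x174e) (nat_lit 1) [nat_lit 0x300231,
    nat_lit 0x200001],.r (nat_lit 0x1c3b) (nat_lit 13) [nat_lit 0x20001,nat_lit 0x200001,nat_lit 33],
    .r (nat_lit 0x174d) (nat_lit 13) [nat_lit 0x333231,nat_lit 0x220001],.c (nat_lit 0) (nat_lit 0x355545),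
    .r (nat_lit 32) (nat_lit 2) [nat_lit 0x303231,nat_lit 0x200001],.c (nat_lit 5) (nat_lit 0x222232),
    .c (nat_lit 5) (nat_lit 2),.c (nat_lit 0) (nat_lit 0x200003),.c (nat_lit 0) (nat_lit 0x255549),
    .r (nat_lit 32) (nat_lit 8) [nat_lit 0x330231,nat_lit 0x200001],.c (nat_lit 6) (nat_lit 2),
    .r (nat_lit 0) (nat_lit 3) [nat_lit 0x20021,nat_lit 0x200001],.r (nat_lit 32) (nat_lit 8) [nat_lit 0x3550432,
    nat_lit 0x200001],.c (nat_lit 7) (nat_lit 2)],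
    .l (nat_lit 9) (nat_lit 120) (nat_lit 3) (nat_lit 0x4c0000004c0000003e0000003b000000350000003e0000003e000000350000003a0000003a00000035000000350000003500000035) (nat_lit 0x110000000e0000000e00000017000000170000000e000000120000001200000017000000170000001700000017)
    (nat_lit 0x26130763e238e874471d0e86a3a1a8d4924c1d8f87c31188f87c3e1f10c6a311f0f862331809c46300f0c0562313878763b150c45424128a85229120843e24188e84827150783c2a130883c1e0f0787c47150c0602a150c06428138843c271f11c5430180a85630190a44e210f09c623a1288c541e0f0ac4c230f0783c1e1f0e85230140884629140a046200f08c7c3a148786426130c850281188c3c23218e84223108783c21118803c1e0f0787c35120ac4e1e0f09c46230f0783c1e188d4481e138783c271188c3c1e0f0786a350f89c3c1e0f0783c1e0f0783c1e)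
    (nat_lit 0x261e0f0783c1e0f0783c1e0f0783c1e0984c3c1e0f0783c1e0f0783c1e0f0781d8ec62783c1e0f0783c1e0f0783c1e07c3e198c4f0783c1e0f0783c1e0f078238f8602a151e0f0783c1e0f0783c1e07431138903c2a3c1e0f0783c1e0f0781d0c446250f0a856783c1e0f0783c1e08e3e180a85430180acf0783c1e0f0781d0f83c29130c86426141e0f0783c1e0743e180a444281488c50283c1e0f0781a8f856240f09c4e1e1188c3c783c1e07443118843c211087840230f078f0781a8d44e1f0f0783c1e0f0783c1e0f1e06a310f0903c271387846230f0783c1e)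
    (nat_lit 5) (nat_lit 59)
    [[nat_lit 2,nat_lit 3,nat_lit 18,nat_lit 258,nat_lit 0x1002,nat_lit 0x10002,nat_lit 0x100002,nat_lit 17,
    nat_lit 33,nat_lit 273,nat_lit 0x1011,nat_lit 0x10011,nat_lit 0x100011,nat_lit 257,nat_lit 513,nat_lit 0x1101,
    nat_lit 0x10101,nat_lit 0x100101,nat_lit 0x1001,nat_lit 0x2001,nat_lit 0x11001,nat_lit 0x101001,nat_lit 0x10001,
    nat_lit 0x20001,nat_lit 0x110001,nat_lit 0x100001,nat_lit 0x200001,nat_lit 0x1000001],[nat_lit 32,nat_lit 48,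
    nat_lit 288,nat_lit 0x1020,nat_lit 0x10020,nat_lit 0x100020,nat_lit 272,nat_lit 528,nat_lit 0x1110,
    nat_lit 0x10110,nat_lit 0x100110,nat_lit 0x1010,nat_lit 0x2010,nat_lit 0x11010,nat_lit 0x101010,nat_lit 0x10010,
    nat_lit 0x20010,nat_lit 0x110010,nat_lit 0x100010],[nat_lit 512,nat_lit 0x1200,nat_lit 0x10200,nat_lit 0x100200,
    nat_lit 0x1100,nat_lit 0x10100,nat_lit 0x100100,nat_lit 0x101100,nat_lit 0x110100],[nat_lit 0x2000,
    nat_lit 0x11000,nat_lit 0x101000,nat_lit 0x111000],[nat_lit 0x20000,nat_lit 0x110000],[nat_lit 0x200000],[]]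
    [.c (nat_lit 1) (nat_lit 2),.r (nat_lit 0x11a7) (nat_lit 12) [nat_lit 0x60001,nat_lit 0x35adce121,
    nat_lit 0xc000001,nat_lit 0x30cc63481],.c (nat_lit 5) (nat_lit 0x44208a2),.c (nat_lit 5) (nat_lit 0x44110a2),
    .c (nat_lit 6) (nat_lit 0x82210a2),.r (nat_lit 0x6a6) (nat_lit 9) [nat_lit 0xca329081,nat_lit 0x40000a1,
    nat_lit 65,nat_lit 0x84210c61,nat_lit 0x884214a1],.r (nat_lit 0x6a7) (nat_lit 9) [nat_lit 0x802000a1,
    nat_lit 0x146529081,nat_lit 0x84210c61,nat_lit 65,nat_lit 0xc0000081],.c (nat_lit 0) (nat_lit 0x6328085),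
    .r (nat_lit 0x1c51) (nat_lit 10) [nat_lit 0x418c41,nat_lit 0x200c41,nat_lit 0x310861],
    .r (nat_lit 0x1c51) (nat_lit 10) [nat_lit 0x200c41,nat_lit 0x10c41,nat_lit 0x861],
    .c (nat_lit 0) (nat_lit 0x6328c83),.r (nat_lit 0x1caf) (nat_lit 0) [nat_lit 0x200001,nat_lit 0x18041],
    .c (nat_lit 5) (nat_lit 0x210062),.c (nat_lit 0) (nat_lit 0x6301485),
    .r (nat_lit 0x1c51) (nat_lit 10) [nat_lit 0x10c41,nat_lit 0x320c41,nat_lit 0x218861],
    .c (nat_lit 0) (nat_lit 0x6319483),.r (nat_lit 0x1caf) (nat_lit 0) [nat_lit 0x200001,nat_lit 0x300041],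
    .c (nat_lit 5) (nat_lit 0x200862),.c (nat_lit 0) (nat_lit 0x6329483),
    .r (nat_lit 0x6a8) (nat_lit 8) [nat_lit 0xc85190a1,nat_lit 0xa000041,nat_lit 0x8a421481,nat_lit 0x86210c41,
    nat_lit 0x4000001],.c (nat_lit 6) (nat_lit 0x4010862),.r (nat_lit 0x1a7f) (nat_lit 0) [nat_lit 0x318861,
    nat_lit 0x200001,nat_lit 0x10001],.c (nat_lit 0) (nat_lit 0x6029485),
    .r (nat_lit 0x192f) (nat_lit 12) [nat_lit 0x6000041,nat_lit 0x218001,nat_lit 0x10001,nat_lit 0x4000001],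
    .r (nat_lit 0x1c01) (nat_lit 5) [nat_lit 0x18861,nat_lit 0x80210c41,nat_lit 0x10001],
    .c (nat_lit 0) (nat_lit 0x329485),.r (nat_lit 0x1bdf) (nat_lit 5) [nat_lit 0xc0000041,nat_lit 0x10c41],
    .r (nat_lit 0x1bdf) (nat_lit 5) [nat_lit 65,nat_lit 0x80010c41],.c (nat_lit 2) (nat_lit 2),
    .r (nat_lit 0x1b5d) (nat_lit 1) [nat_lit 0xc0018042,nat_lit 0x80030062,nat_lit 0x80200001],
    .r (nat_lit 0x1b5d) (nat_lit 1) [nat_lit 0xc0300042,nat_lit 0x80220062,nat_lit 0x80200001],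
    .r (nat_lit 0x19ed) (nat_lit 7) [nat_lit 0x200001,nat_lit 0x80010001,nat_lit 0xc0028041],
    .r (nat_lit 0x6aa) (nat_lit 8) [nat_lit 0x80010001,nat_lit 0x1c6338841,nat_lit 0xc0000001,nat_lit 0x140028041,
    nat_lit 0x2040400a1],.r (nat_lit 0x1b5d) (nat_lit 1) [nat_lit 0xc0018041,nat_lit 0x80020061,nat_lit 0x80200001],
    .c (nat_lit 2) (nat_lit 0x18802),.r (nat_lit 0x1b5d) (nat_lit 1) [nat_lit 0xc0510042,nat_lit 0x80410062,
    nat_lit 0x80200001],.r (nat_lit 0x19ed) (nat_lit 7) [nat_lit 0x200001,nat_lit 0x80010001,nat_lit 0xc0318041],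
    .r (nat_lit 0x6aa) (nat_lit 8) [nat_lit 0x80010001,nat_lit 0x1c6528841,nat_lit 0xc0000001,nat_lit 0x140318041,
    nat_lit 0x2044200a1],.r (nat_lit 0x1b5d) (nat_lit 1) [nat_lit 0xc0300041,nat_lit 0x80210061,nat_lit 0x80200001],
    .c (nat_lit 0) (nat_lit 0x6328c83),.r (nat_lit 0x174c) (nat_lit 3) [nat_lit 0x10001,nat_lit 0x4000001,
    nat_lit 0xca53a062],.r (nat_lit 0x19ed) (nat_lit 7) [nat_lit 0x200001,nat_lit 0x80010001,nat_lit 0xc6028081],
    .r (nat_lit 0x174c) (nat_lit 3) [nat_lit 0x10001,nat_lit 0x4000001,nat_lit 0x6319061],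
    .r (nat_lit 0x1c82) (nat_lit 6) [nat_lit 65,nat_lit 0x200001],.r (nat_lit 32) (nat_lit 8) [nat_lit 0xc0519062,
    nat_lit 0x200001],.r (nat_lit 32) (nat_lit 8) [nat_lit 0x300861,nat_lit 0x200001],
    .c (nat_lit 0) (nat_lit 0x4000805),.c (nat_lit 3) (nat_lit 2),.r (nat_lit 0x19ed) (nat_lit 7) [nat_lit 0x200001,
    nat_lit 0x80010001,nat_lit 0xc0500041],.r (nat_lit 0x6aa) (nat_lit 8) [nat_lit 0x80010001,nat_lit 0x1c6718841,
    nat_lit 0xc0000001,nat_lit 0x140500041,nat_lit 0x2048000a1],.r (nat_lit 0x1b5d) (nat_lit 1) [nat_lit 0xc0510041,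
    nat_lit 0x80400061,nat_lit 0x80200001],.c (nat_lit 0) (nat_lit 0x6319483),
    .r (nat_lit 0x1c82) (nat_lit 6) [nat_lit 0x310041,nat_lit 0x200001],.c (nat_lit 0) (nat_lit 0x4010005),
    .r (nat_lit 0x174c) (nat_lit 3) [nat_lit 0x10001,nat_lit 0x4000001,nat_lit 0x6029061],
    .r (nat_lit 32) (nat_lit 8) [nat_lit 0x18861,nat_lit 0x200001],.c (nat_lit 4) (nat_lit 2),
    .c (nat_lit 0) (nat_lit 0x200005),.r (nat_lit 0x174b) (nat_lit 11) [nat_lit 0x200001,nat_lit 65,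
    nat_lit 0xc6519001],.r (nat_lit 32) (nat_lit 8) [nat_lit 0xc6318841,nat_lit 0x200001],.c (nat_lit 5) (nat_lit 2),
    .c (nat_lit 1) (nat_lit 0x6318c42),.c (nat_lit 6) (nat_lit 2)]]

/-- nodes -/
noncomputable def rD7k_24_15 : List RJ :=
  [.l (nat_lit 15) (nat_lit 0x13b0) (nat_lit 4) (nat_lit 0x7ae000007ae0000076900000769000006cc000008700000085b0000085b0000081c0000081c00000793000007930000076300000763) (nat_lit 0xc2000000c2000001070000010700000000000001a400000015000000150000005400000054000000dd000000dd0000010d0000010d)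
    (nat_lit 0xf4c1bb02f586db0b5818283cc87990edc156031087110d421a8437607a60c3a1a9c46f05800f461e8c387088a0db617ac33686570d4e1b6c37606620ebe193c31206240ff61c2c36b06d80b44194830e85eb0cc41bb03c485c50da8166845587150f0c1e2032e06680b0018282e2864f110c14a035b86970af81be02f184590cf6131446f05ac0f121d7c43808860f8e216c46c081c09020fc43b187630f461e642cd062410b61a5c42308461752226c3bf06c212a029803d187990da818903e386b7108c211858b88070ea41df84a80a601114156038a870b10381be0403889b0f901f20216842f0e1e1cec387076e11561fec46c057c162e2ea43e407c80e761cfc367861f0bd61c443c406d807e211643bf06c20e7e10bc3d306b60ce41a2836d86210f0c1b5824085e30ea41df839d842d0d6c1e9834306860cae1a8433406520ec613145300a600c3e1cec343068a0e0c195833686a10cb816883b1867b12a02540367870f0d0c19c832b0706)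
    (nat_lit 0xf4c4ec09d813b027604ec09d813b027604ec09d813b027604ec037607a627604ec09d813b027604ec09d813b027604ec09d813b00bd6187437613b027604ec09d813b027604ec09d813b027604ec036d86a70cc41bb09d813b027604ec09d813b027604ec09d813b00b5823783af8789110c4ec09d813b027604ec09d813b027604ec030505800c9e1714294088627604ec09d813b027604ec09d813b00f321e8c31206d40d6e1f1c42313b027604ec09d813b027604ec03cc87a30c48166834b885b108c21189d813b027604ec09d813b00edc1c383fd88ab0af823605d48b170f904ec09d813b027604ec02ac088a0e161c5437c081c1136201c3e407c827604ec09d813b00c421b6c36b07860bc612043bf0752085a1cec3d313b027604ec038885eb0db01e2022c83f10d841df8217873f0d6c1e989d813b00d4219b42d1065c0cf61d8c4a809500e1e1b3c33906860e0c4ec035086570ca419a0262876314c0298039d861f0d141a1832b0706)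
    (nat_lit 3) (nat_lit 61)
    [[nat_lit 2,nat_lit 0x10002,nat_lit 0x100002,nat_lit 18,nat_lit 0x1000002,nat_lit 17,nat_lit 273,nat_lit 0x10011,
    nat_lit 0x1000011,nat_lit 257,nat_lit 0x1000101,nat_lit 0x10001,nat_lit 0x1010001,nat_lit 0x110001,
    nat_lit 0x100001,nat_lit 0x100101,nat_lit 0x200001,nat_lit 0x1100001,nat_lit 0x1000001],[nat_lit 32,nat_lit 288,
    nat_lit 0x10020,nat_lit 272,nat_lit 528,nat_lit 0x10110,nat_lit 0x1000110,nat_lit 0x1010,nat_lit 0x11010,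
    nat_lit 0x10010,nat_lit 0x20020,nat_lit 0x20010,nat_lit 0x1010010,nat_lit 0x110010,nat_lit 0x100010,
    nat_lit 0x1100010,nat_lit 0x1000010],[nat_lit 512,nat_lit 0x10100,nat_lit 0x100100,nat_lit 0x1100100,
    nat_lit 0x1000100],[nat_lit 0x2000,nat_lit 0x11000,nat_lit 0x101000,nat_lit 0x201000,nat_lit 0x1001000],
    [nat_lit 0x20000,nat_lit 0x110000,nat_lit 0x1110000,nat_lit 0x1010000,nat_lit 0x2010000],[nat_lit 0x200000,
    nat_lit 0x1200000,nat_lit 0x1100000],[nat_lit 0x2000000]]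
    [.c (nat_lit 1) (nat_lit 2),.r (nat_lit 0x19dd) (nat_lit 8) [nat_lit 0x2601,nat_lit 0x10401,nat_lit 17,
    nat_lit 0x619],.r (nat_lit 0x1caf) (nat_lit 5) [nat_lit 0x10401,nat_lit 0x1aa11],.c (nat_lit 7) (nat_lit 0x3693),
    .c (nat_lit 2) (nat_lit 0x3693),.r (nat_lit 32) (nat_lit 12) [nat_lit 0x18099,nat_lit 0x10401],
    .c (nat_lit 7) (nat_lit 0x3013),.r (nat_lit 4) (nat_lit 6) [nat_lit 0x1b099,nat_lit 0x12001],
    .c (nat_lit 1) (nat_lit 0x3693),.c (nat_lit 1) (nat_lit 0x682),.c (nat_lit 2) (nat_lit 0x3013),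
    .r (nat_lit 0x1b04) (nat_lit 3) [nat_lit 0x12001,nat_lit 17],.r (nat_lit 0x1b59) (nat_lit 7) [nat_lit 0x1b099,
    nat_lit 0x10419,nat_lit 0x2611],.c (nat_lit 1) (nat_lit 130),.r (nat_lit 0x1750) (nat_lit 8) [nat_lit 0x12001,
    nat_lit 17],.r (nat_lit 0x1caf) (nat_lit 5) [nat_lit 0x10401,nat_lit 0x18611],
    .r (nat_lit 0x1c3d) (nat_lit 8) [nat_lit 0x2601,nat_lit 0x10401,nat_lit 17],
    .r (nat_lit 32) (nat_lit 3) [nat_lit 0x1b099,nat_lit 0x10401],.r (nat_lit 0x174e) (nat_lit 4) [nat_lit 0x18099,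
    nat_lit 0x10401],.c (nat_lit 2) (nat_lit 2),.r (nat_lit 0x1c3a) (nat_lit 1) [nat_lit 0x10401,nat_lit 0x1b011,
    nat_lit 0x12001],.r (nat_lit 0x1bdf) (nat_lit 13) [nat_lit 0x12001,nat_lit 0x120d1],
    .r (nat_lit 32) (nat_lit 12) [nat_lit 0x1a699,nat_lit 0x10401],.c (nat_lit 7) (nat_lit 0x34d3),
    .r (nat_lit 4) (nat_lit 6) [nat_lit 0x18699,nat_lit 0x12001],.c (nat_lit 1) (nat_lit 0x3013),
    .r (nat_lit 0x1af9) (nat_lit 8) [nat_lit 0x12019,nat_lit 17,nat_lit 0x10019],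
    .r (nat_lit 0x1c32) (nat_lit 13) [nat_lit 0x18011,nat_lit 0x120d1,nat_lit 153],
    .r (nat_lit 0) (nat_lit 5) [nat_lit 0x10401,nat_lit 17],.r (nat_lit 32) (nat_lit 3) [nat_lit 18,nat_lit 0x10401],
    .r (nat_lit 0x1bdf) (nat_lit 0) [nat_lit 0x12001,nat_lit 0x120d1],
    .r (nat_lit 0x174d) (nat_lit 8) [nat_lit 0x1b099,nat_lit 0x12001],.r (nat_lit 32) (nat_lit 12) [nat_lit 0x18699,
    nat_lit 0x10401],.r (nat_lit 0x1b04) (nat_lit 10) [nat_lit 0x12001,nat_lit 17],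
    .r (nat_lit 0x1a9f) (nat_lit 8) [nat_lit 0x2601,nat_lit 0x1b099,nat_lit 0x10401],
    .r (nat_lit 0x1bec) (nat_lit 10) [nat_lit 0x12001,nat_lit 17],.c (nat_lit 3) (nat_lit 2),
    .r (nat_lit 0x1b04) (nat_lit 3) [nat_lit 0x12001,nat_lit 0x3411],.r (nat_lit 0x1750) (nat_lit 8) [nat_lit 0x12001,
    nat_lit 0x3411],.r (nat_lit 32) (nat_lit 3) [nat_lit 0x18699,nat_lit 0x10401],
    .r (nat_lit 0x174e) (nat_lit 4) [nat_lit 0x1a699,nat_lit 0x10401],.c (nat_lit 4) (nat_lit 2),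
    .c (nat_lit 0) (nat_lit 0x2003),.c (nat_lit 0) (nat_lit 0x2003),.r (nat_lit 0x1bcc) (nat_lit 0) [nat_lit 0x2601,
    nat_lit 0x10619,nat_lit 0x10401],.r (nat_lit 0x1b7b) (nat_lit 1) [nat_lit 0x18011,nat_lit 0x401,nat_lit 0x10001],
    .c (nat_lit 5) (nat_lit 2),.c (nat_lit 0) (nat_lit 195),.r (nat_lit 0x174e) (nat_lit 4) [nat_lit 0x18699,
    nat_lit 0x10401],.r (nat_lit 0x1bec) (nat_lit 3) [nat_lit 0x12001,nat_lit 17],
    .r (nat_lit 0x1c3b) (nat_lit 8) [nat_lit 0x2601,nat_lit 0x10401,nat_lit 17],.c (nat_lit 6) (nat_lit 2),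
    .r (nat_lit 0x1c66) (nat_lit 3) [nat_lit 0x12001,nat_lit 0x1d099,nat_lit 0x100d1],
    .r (nat_lit 0x1b04) (nat_lit 1) [nat_lit 17,nat_lit 0x10401],.c (nat_lit 7) (nat_lit 2)],
    .l (nat_lit 10) (nat_lit 240) (nat_lit 4) (nat_lit 0x78000000780000005a0000005a00000064000000640000006400000064000000580000007400000066000000660000006900000069) (nat_lit 0x1e0000001e00000014000000140000001400000014000000040000002000000012000000120000000f0000000f)
    (nat_lit 0x1e0601685a190501786421066190741a469140781685a19050190642286c1f08c1a4691685a14064118460c8460c03a1203212c351685a0f05011846118461583a1184817c491405011846140501405018044150521545719064118461405014050180401485015455190641184614050150501884414852154551905e118321405014054180441505211c591b0660e83a1004411044150381084613c47228841583018060180621c0541886215c6723074120321405214852188461485411c571f064118481485415052188421505215c571a46912435154571645519c4715c571705a1a46917c4b1545511c5515c4f15c471c85c)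
    (nat_lit 0x1e0f03c0f03c0f03c0f03c0f03c0f03c0f0180783c0f03c0f03c0f03c0f03c0f03c0f01685a140f03c0f03c0f03c0f03c0f03c0f01685a190503c0f03c0f03c0f03c0f03c0f01906411846140f03c0f03c0f03c0f03c0f01405011846140503c0f03c0f03c0f03c0f0178640c84614050150f03c0f03c0f03c0f0190641184614050140543c0f03c0f03c0f02108a0c0561806018860150f03c0f03c0f01986c0e83a11040110440e0543c0f03c0f01907c12046150521485410862148f03c0f01d08c0c848148501485211862150523c0f01a46912c5f154551544713c5711c57170f01a4690d44915c551545911c6715c571685c)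
    (nat_lit 3) (nat_lit 43)
    [[nat_lit 2,nat_lit 17,nat_lit 0x100011,nat_lit 257,nat_lit 0x100101,nat_lit 0x10101,nat_lit 0x1001,
    nat_lit 0x101001,nat_lit 0x11001,nat_lit 0x10001,nat_lit 0x110001,nat_lit 0x100001,nat_lit 0x200001,
    nat_lit 0x1000001],[nat_lit 32,nat_lit 0x100020,nat_lit 272,nat_lit 0x100110,nat_lit 0x200110,nat_lit 0x1010,
    nat_lit 0x101010,nat_lit 0x10010,nat_lit 0x110010,nat_lit 0x100010,nat_lit 0x200010],[nat_lit 512,
    nat_lit 0x100200,nat_lit 0x1100,nat_lit 0x101100,nat_lit 0x10100,nat_lit 0x110100,nat_lit 0x100100,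
    nat_lit 0x200200,nat_lit 0x201100,nat_lit 0x200100],[nat_lit 0x2000,nat_lit 0x102000,nat_lit 0x11000,
    nat_lit 0x111000,nat_lit 0x101000,nat_lit 0x201000,nat_lit 0x1001000],[nat_lit 0x20000,nat_lit 0x120000,
    nat_lit 0x110000,nat_lit 0x210000,nat_lit 0x1010000],[nat_lit 0x200000,nat_lit 0x1100000],[nat_lit 0x2000000]]
    [.c (nat_lit 1) (nat_lit 2),.c (nat_lit 0) (nat_lit 0x3a25),.c (nat_lit 5) (nat_lit 0x241a),
    .c (nat_lit 0) (nat_lit 0x3165),.c (nat_lit 5) (nat_lit 0x209a),.r (nat_lit 0x1b3d) (nat_lit 9) [nat_lit 0x3401,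
    nat_lit 0x699,nat_lit 0x2001],.r (nat_lit 0) (nat_lit 6) [nat_lit 0x2001,nat_lit 17],
    .r (nat_lit 0x192d) (nat_lit 0) [nat_lit 0x3699,nat_lit 0x2001,nat_lit 0x401,nat_lit 0x14961],
    .r (nat_lit 32) (nat_lit 2) [nat_lit 0x3099,nat_lit 0x2001],.r (nat_lit 0x1af7) (nat_lit 1) [nat_lit 17,
    nat_lit 0x24d1,nat_lit 0x3099],.r (nat_lit 0x1177) (nat_lit 8) [nat_lit 0x5129,nat_lit 0x4961,nat_lit 0x18021,
    nat_lit 0x10001],.c (nat_lit 0) (nat_lit 0x3b65),.r (nat_lit 0x1178) (nat_lit 5) [nat_lit 0x10001,nat_lit 0x18b19,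
    nat_lit 0x1d119,nat_lit 0x14951],.r (nat_lit 0x1cb5) (nat_lit 9) [nat_lit 0x3401,nat_lit 0x3011,nat_lit 0x2001,
    nat_lit 0x10001],.c (nat_lit 2) (nat_lit 2),.r (nat_lit 0x1c06) (nat_lit 9) [nat_lit 0x3401,nat_lit 0x2001,
    nat_lit 0x4a11],.c (nat_lit 2) (nat_lit 0x682),.r (nat_lit 0x1c06) (nat_lit 9) [nat_lit 0x3401,nat_lit 0x2001,
    nat_lit 0x2611],.r (nat_lit 32) (nat_lit 2) [nat_lit 0x3412,nat_lit 0x2001],
    .r (nat_lit 0x1154) (nat_lit 8) [nat_lit 33,nat_lit 0x829,nat_lit 0x1d129,nat_lit 0x10001],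
    .r (nat_lit 0x174c) (nat_lit 3) [nat_lit 0x401,nat_lit 0x10001,nat_lit 0x1b719],
    .r (nat_lit 0x1b36) (nat_lit 0) [nat_lit 0x611,nat_lit 0x10829,nat_lit 0x401],
    .r (nat_lit 32) (nat_lit 8) [nat_lit 0x3099,nat_lit 0x2001],.c (nat_lit 0) (nat_lit 0x3a25),
    .r (nat_lit 0x1cb6) (nat_lit 4) [nat_lit 0x401,nat_lit 0x2001,nat_lit 0x10001,nat_lit 0x611],
    .c (nat_lit 3) (nat_lit 2),.r (nat_lit 0x1c06) (nat_lit 9) [nat_lit 0x3401,nat_lit 0x2001,nat_lit 17],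
    .r (nat_lit 0x1154) (nat_lit 8) [nat_lit 0x5821,nat_lit 0x4029,nat_lit 0x18b29,nat_lit 0x10001],
    .r (nat_lit 0x174c) (nat_lit 3) [nat_lit 0x401,nat_lit 0x10001,nat_lit 0x18b19],
    .r (nat_lit 0x1b36) (nat_lit 0) [nat_lit 0x3011,nat_lit 0x14029,nat_lit 0x401],
    .r (nat_lit 32) (nat_lit 8) [nat_lit 0x699,nat_lit 0x2001],.c (nat_lit 0) (nat_lit 0x3165),
    .r (nat_lit 32) (nat_lit 2) [nat_lit 0x5812,nat_lit 0x2001],.r (nat_lit 0x1179) (nat_lit 9) [nat_lit 0x4001,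
    nat_lit 0x10001,nat_lit 0x3011,nat_lit 0x1bb19],.r (nat_lit 0x1cb6) (nat_lit 4) [nat_lit 0x401,nat_lit 0x2001,
    nat_lit 0x10001,nat_lit 0x3011],.c (nat_lit 4) (nat_lit 2),.r (nat_lit 0x1931) (nat_lit 3) [nat_lit 0x3401,
    nat_lit 0x2001,nat_lit 0x10699,nat_lit 0x10961],.c (nat_lit 0) (nat_lit 0x2005),
    .r (nat_lit 0x174e) (nat_lit 1) [nat_lit 0x3099,nat_lit 0x2001],.r (nat_lit 0x1c1e) (nat_lit 9) [nat_lit 0x3401,
    nat_lit 0x2001,nat_lit 17],.r (nat_lit 0x174e) (nat_lit 1) [nat_lit 0x1d11a,nat_lit 0x2001],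
    .r (nat_lit 0x1c70) (nat_lit 4) [nat_lit 0x10419,nat_lit 0x2001,nat_lit 17],.c (nat_lit 5) (nat_lit 2),
    .r (nat_lit 0x192e) (nat_lit 8) [nat_lit 0x2601,nat_lit 0x401,nat_lit 0x120d1,nat_lit 0x15129],
    .r (nat_lit 0x1b04) (nat_lit 5) [nat_lit 17,nat_lit 0x2001],.r (nat_lit 0x1c4d) (nat_lit 11) [nat_lit 0x2001,
    nat_lit 0x401,nat_lit 0x24d1],.r (nat_lit 0x1b1b) (nat_lit 10) [nat_lit 0x2019,nat_lit 0x419,nat_lit 17],
    .c (nat_lit 6) (nat_lit 2),.r (nat_lit 0x1b31) (nat_lit 10) [nat_lit 0x2019,nat_lit 0x419,nat_lit 17],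
    .c (nat_lit 7) (nat_lit 2)]]

/-- nodes -/
noncomputable def rD7k_24_16 : List RJ :=
  [.l (nat_lit 15) (nat_lit 0x1680) (nat_lit 3) (nat_lit 0x7ea000008ae000009f6000009f6000009f7000009f700000a34000007ea000009ce000007ea000008e5000008e5000008c1000008c1) (nat_lit 0x1860000024a0000003e0000003e0000003d0000003d0000024a000000000000024a000000660000014f0000014f0000017300000173)
    (nat_lit 0x107016802ec08000f3623f42d007300b401ba0302863b0cee18a4454083810e021c02ff88710cc8168033205a011ca22bc373873b10e020004dc0838198e26e452a0c680cb8264045388a70d5e1bf443805d8137026e066389b9143030b03d609900e42229c399888310e223f44dc89b90f0826e83d686e90f5a1c9445408a814b028282ff879b198e331c4d70784102627dc3eb89bb10c022a049f08840b401cc06160c6813ee1ba43e00a400fd425a047288bb11a6242433205a01430295040987ad0b401f002d007840c0a18ec38986590b401ba04c8099013761c943c209680fc825a044e887f10b623c433205a00f5819703eb87ad0b401fa82d007e40c9a1a6c36b8641115e18ec45388a7115022a031d88bb0d3621fc3e607960ee41f0047286050e42229c43008a80c0a2394326889d0f2c1f303e007720e7618a444186fd1108282832c89090c8223c43b907c00fc81d3837386770e661abc49f0a580e26234c36b885b0f801dc83a707e4)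
    (nat_lit 0x10705a00b4016802d005a00b4016802d005a00b4016802d005a002d008382d005a00b4016802d005a00b4016802d005a00b4016800bb021c04dc16802d005a00b4016802d005a00b4016802d005a004000870107026e0b4016802d005a00b4016802d005a00b4016800f3617fc6638bd70f085a00b4016802d005a00b4016802d005a0047e8871137226e44dd07842d005a00b4016802d005a00b4016800b40199052a0a180f5a204c3e016802d005a00b4016802d005a0039805a018d02de037489f714801f00b4016802d005a00b4016800b40199032e07ac0f5a1f5c3f505a00fc85a00b4016802d005a0037405a01320264039289bb12d01e104b407e42d005a00b4016800c0a23944538721115021804728605113a19343e616802d005a0031d88af114e229c45408a8117618ec43f869b0f2c1f30b4016800cee1b9c357873314b024f8469871310b61b5c3b907c00fc85a00314873b0dfa220c50508841212196447886410f801dc83a707e4)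
    (nat_lit 4) (nat_lit 61)
    [[nat_lit 2,nat_lit 0x100002,nat_lit 0x1000002,nat_lit 17,nat_lit 273,nat_lit 0x100011,nat_lit 0x1000011,
    nat_lit 257,nat_lit 0x1000101,nat_lit 0x1001,nat_lit 0x1001001,nat_lit 0x10001,nat_lit 0x100001,nat_lit 0x1100001,
    nat_lit 0x1000001,nat_lit 0x2000001],[nat_lit 32,nat_lit 272,nat_lit 0x1000110,nat_lit 528,nat_lit 0x1110,
    nat_lit 0x10110,nat_lit 0x1010,nat_lit 0x1001010,nat_lit 0x11010,nat_lit 0x10010,nat_lit 0x1010010,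
    nat_lit 0x100010,nat_lit 0x100110,nat_lit 0x1100010,nat_lit 0x1000010,nat_lit 0x2000010],[nat_lit 512,
    nat_lit 0x1000200,nat_lit 0x1100,nat_lit 0x1001100,nat_lit 0x11100,nat_lit 0x10100,nat_lit 0x1010100,
    nat_lit 0x100100,nat_lit 0x1100100,nat_lit 0x1000100,nat_lit 0x2000100],[nat_lit 0x2000,nat_lit 0x1002000,
    nat_lit 0x11000,nat_lit 0x1011000,nat_lit 0x1101000,nat_lit 0x1001000,nat_lit 0x2001000],[nat_lit 0x20000,
    nat_lit 0x1010000,nat_lit 0x1110000,nat_lit 0x2010000],[nat_lit 0x200000,nat_lit 0x1100000],[nat_lit 0x2000000]]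
    [.c (nat_lit 1) (nat_lit 2),.r (nat_lit 0x1bec) (nat_lit 0) [nat_lit 0x20001,nat_lit 0x230231],
    .r (nat_lit 0x19af) (nat_lit 11) [nat_lit 0x233231,nat_lit 33,nat_lit 0x400031,nat_lit 0x540021],
    .c (nat_lit 0) (nat_lit 0x23323),.r (nat_lit 2) (nat_lit 3) [nat_lit 0x30231,nat_lit 0x20001],
    .r (nat_lit 0x1b04) (nat_lit 0) [nat_lit 0x20001,nat_lit 0x230231],
    .r (nat_lit 0x1acc) (nat_lit 8) [nat_lit 0x33231,nat_lit 0x2001,nat_lit 0x20001,nat_lit 0x322341],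
    .r (nat_lit 0x1750) (nat_lit 6) [nat_lit 0x20001,nat_lit 33],.r (nat_lit 0x1ac9) (nat_lit 13) [nat_lit 0x33231,
    nat_lit 0x2001,nat_lit 0x20001],.r (nat_lit 0x1b04) (nat_lit 0) [nat_lit 0x20001,nat_lit 33],
    .r (nat_lit 4) (nat_lit 7) [nat_lit 0x30231,nat_lit 0x20001],.r (nat_lit 0x1b04) (nat_lit 0) [nat_lit 0x20001,
    nat_lit 0x32021],.r (nat_lit 0x1bd6) (nat_lit 0) [nat_lit 0x20001,nat_lit 0x230251],
    .r (nat_lit 0x1af9) (nat_lit 6) [nat_lit 0x23001,nat_lit 0x2001,nat_lit 0x3021],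
    .r (nat_lit 0x1bec) (nat_lit 2) [nat_lit 33,nat_lit 0x2001],.r (nat_lit 0x11cd) (nat_lit 11) [nat_lit 0x322341,
    nat_lit 0x455401,nat_lit 0x327651,nat_lit 0x98001],.c (nat_lit 2) (nat_lit 2),
    .r (nat_lit 10) (nat_lit 13) [nat_lit 0x20001,nat_lit 33],.r (nat_lit 0x174c) (nat_lit 9) [nat_lit 0x2001,
    nat_lit 0x233201,nat_lit 0x323231],.r (nat_lit 2) (nat_lit 3) [nat_lit 0x332232,nat_lit 0x20001],
    .r (nat_lit 0x1ae0) (nat_lit 11) [nat_lit 0x30231,nat_lit 0x2031,nat_lit 0x23021],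
    .r (nat_lit 0x1ae0) (nat_lit 11) [nat_lit 0x3231,nat_lit 0x20031,nat_lit 33],
    .r (nat_lit 0x1bec) (nat_lit 0) [nat_lit 0x20001,nat_lit 33],.r (nat_lit 0x174d) (nat_lit 6) [nat_lit 0x30231,
    nat_lit 0x20001],.r (nat_lit 0x1bd6) (nat_lit 0) [nat_lit 0x20001,nat_lit 0x30021],
    .r (nat_lit 0x1bec) (nat_lit 0) [nat_lit 0x20001,nat_lit 0x32021],.r (nat_lit 0x174d) (nat_lit 6) [nat_lit 0x3231,
    nat_lit 0x20001],.r (nat_lit 0x1c71) (nat_lit 9) [nat_lit 0x3021,nat_lit 0x230231,nat_lit 0x2001],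
    .r (nat_lit 0x1aa5) (nat_lit 3) [nat_lit 0x2031,nat_lit 0x20031,nat_lit 33],
    .r (nat_lit 0x1bd6) (nat_lit 5) [nat_lit 0x20001,nat_lit 0x30021],
    .r (nat_lit 0x1bec) (nat_lit 5) [nat_lit 0x20001,nat_lit 33],.r (nat_lit 0x1acc) (nat_lit 8) [nat_lit 0x333232,
    nat_lit 0x2001,nat_lit 0x20001,nat_lit 33],.c (nat_lit 3) (nat_lit 2),
    .r (nat_lit 0x1869) (nat_lit 6) [nat_lit 0x23001,nat_lit 0x2001,nat_lit 33,nat_lit 0x203021],
    .c (nat_lit 0) (nat_lit 0x33225),.c (nat_lit 1) (nat_lit 0x20302),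
    .r (nat_lit 0x19de) (nat_lit 6) [nat_lit 0x23001,nat_lit 0x2001,nat_lit 0x32021],.c (nat_lit 0) (nat_lit 0x32325),
    .c (nat_lit 1) (nat_lit 0x23002),.r (nat_lit 0x1cb8) (nat_lit 0) [nat_lit 0x2001,nat_lit 33,nat_lit 0x233201],
    .r (nat_lit 0x1b66) (nat_lit 11) [nat_lit 0x22321,nat_lit 0x23231,nat_lit 0x32231],
    .c (nat_lit 0) (nat_lit 0x33325),.r (nat_lit 0x11a8) (nat_lit 6) [nat_lit 0x4001,nat_lit 0x555451,
    nat_lit 0x233201,nat_lit 0x222341],.c (nat_lit 4) (nat_lit 2),.r (nat_lit 0x1bdf) (nat_lit 3) [nat_lit 0x20001,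
    nat_lit 0x20321],.c (nat_lit 4) (nat_lit 0x3202),.r (nat_lit 0x1bdf) (nat_lit 3) [nat_lit 0x20001,nat_lit 0x2321],
    .c (nat_lit 0) (nat_lit 770),.c (nat_lit 0) (nat_lit 0x33225),.r (nat_lit 0x1bdf) (nat_lit 2) [nat_lit 0x20001,
    nat_lit 0x20321],.c (nat_lit 5) (nat_lit 2),.c (nat_lit 0) (nat_lit 0x32325),.c (nat_lit 0) (nat_lit 0x3002),
    .r (nat_lit 0x1bdf) (nat_lit 2) [nat_lit 0x20001,nat_lit 0x2321],.c (nat_lit 6) (nat_lit 2),
    .r (nat_lit 0x1b67) (nat_lit 6) [nat_lit 0x23001,nat_lit 0x3021,nat_lit 0x2001],.c (nat_lit 7) (nat_lit 2)],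
    .l (nat_lit 12) (nat_lit 960) (nat_lit 3) (nat_lit 0x1d4000001620000018e00000170000001810000018100000174000001b4000001d40000019a00000194000001940000017e000001b8) (nat_lit 0x72000000000000006400000046000000530000005300000020000000600000003a0000000000000040000000400000001c00000056)
    (nat_lit 0x1401d41701b41971810f016a1e027c19a1521b81600f014010811c10f1051e012a1441e011e1221200f011c1b41341481131310f012e1540f016a13219413c1081700f013411d11d1500f611016215210a15412410518111d13114814a16f12116d18113716716510910f19711d11315214816112114712f13514116f12b12a16a0f612e1211211a60f013a17413413414212a1e00f01500f016116f1941a617a1b40f21de0f01e01e027c1620f012f1811b41741301d411219427c2001441e011015414716d17a13a16013015a15a1c014412215210a1321411671de13415a19415415413213e11e19a15216a1351370f213415a11218415419613e0f016012413c12b1091e012a14420013e13e15c0f81201b815419416f1650f01421c027c19613219c15c)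
    (nat_lit 0x1403c03c03c03c03c03c03c03c03c03c03c03c03c01d41403c03c03c03c03c03c03c03c03c03c03c03c01701081343c03c03c03c03c03c03c03c03c03c03c01b411c1481343c03c03c03c03c03c03c03c03c03c019710f11311d1483c03c03c03c03c03c03c03c03c018110513111d14a1483c03c03c03c03c03c03c03c00f01e00f015016f1611a63c03c03c03c03c03c03c016a12a12e0f61211210f01a63c03c03c03c03c03c01e014415411016d14713a17a1303c03c03c03c03c02601e00f016218112f1741b41d41303c03c03c03c019a11e16a1521371351340f211215a1543c03c03c015212213210a1671411341de19415a1541543c03c01b812019415416516f1420f02441c013219615c3c01600f013c12410912b12a1e020014413e13e0f815c)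
    (nat_lit 4) (nat_lit 61)
    [[nat_lit 2,nat_lit 0x1002,nat_lit 17,nat_lit 273,nat_lit 0x1011,nat_lit 0x10011,nat_lit 0x1000011,nat_lit 0x1001,
    nat_lit 0x11001,nat_lit 0x101001,nat_lit 0x1001001,nat_lit 0x1101,nat_lit 0x10001,nat_lit 0x110001,
    nat_lit 0x100001,nat_lit 0x100101,nat_lit 0x1000001],[nat_lit 32,nat_lit 0x1020,nat_lit 272,nat_lit 528,
    nat_lit 0x100110,nat_lit 0x1000110,nat_lit 0x1010,nat_lit 0x101010,nat_lit 0x1001010,nat_lit 0x11010,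
    nat_lit 0x10010,nat_lit 0x110010,nat_lit 0x1010010,nat_lit 0x100010,nat_lit 0x200010,nat_lit 0x1000010,
    nat_lit 0x2000010],[nat_lit 512,nat_lit 768,nat_lit 0x100200,nat_lit 0x1100,nat_lit 0x101100,nat_lit 0x10100,
    nat_lit 0x110100,nat_lit 0x100100,nat_lit 0x200100,nat_lit 0x1001100,nat_lit 0x1100100],[nat_lit 0x2000,
    nat_lit 0x102000,nat_lit 0x11000,nat_lit 0x111000,nat_lit 0x101000,nat_lit 0x201000,nat_lit 0x1101000,
    nat_lit 0x1001000,nat_lit 0x1011000,nat_lit 0x2001000],[nat_lit 0x20000,nat_lit 0x120000,nat_lit 0x110000,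
    nat_lit 0x210000,nat_lit 0x1110000,nat_lit 0x1010000],[nat_lit 0x200000,nat_lit 0x300000,nat_lit 0x1100000],
    [nat_lit 0x2000000]]
    [.c (nat_lit 1) (nat_lit 2),.r (nat_lit 0x1c01) (nat_lit 1) [nat_lit 0x20001,nat_lit 0x35021,nat_lit 0x202001],
    .c (nat_lit 0) (nat_lit 0x33023),.c (nat_lit 0) (nat_lit 0x30302),.r (nat_lit 8) (nat_lit 8) [nat_lit 0x300231,
    nat_lit 0x202001],.r (nat_lit 0x1b3d) (nat_lit 4) [nat_lit 0x2001,nat_lit 0x300231,nat_lit 0x200001],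
    .r (nat_lit 0x174e) (nat_lit 8) [nat_lit 0x20001,nat_lit 0x30231],.r (nat_lit 0) (nat_lit 6) [nat_lit 0x200001,
    nat_lit 33],.c (nat_lit 1) (nat_lit 0x3002),.r (nat_lit 0x1b6e) (nat_lit 10) [nat_lit 0x300231,nat_lit 0x202031,
    nat_lit 33],.r (nat_lit 0x1c01) (nat_lit 1) [nat_lit 0x20001,nat_lit 0x33021,nat_lit 0x202001],
    .c (nat_lit 5) (nat_lit 0x22203),.r (nat_lit 0x1ab9) (nat_lit 3) [nat_lit 0x20031,nat_lit 33,nat_lit 0x200001],
    .r (nat_lit 0x1b32) (nat_lit 10) [nat_lit 0x300231,nat_lit 0x202031,nat_lit 33],.c (nat_lit 0) (nat_lit 0x33023),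
    .c (nat_lit 0) (nat_lit 0x30302),.c (nat_lit 1) (nat_lit 514),.c (nat_lit 2) (nat_lit 2),
    .r (nat_lit 0x12df) (nat_lit 5) [nat_lit 0x40001,nat_lit 0x400001,nat_lit 33,nat_lit 0x4001],
    .r (nat_lit 0x1ae0) (nat_lit 10) [nat_lit 0x20001,nat_lit 0x222321,nat_lit 0x333201],
    .r (nat_lit 0x12e0) (nat_lit 10) [nat_lit 0x60001,nat_lit 0x233231,nat_lit 0x234231,nat_lit 0x955421],
    .c (nat_lit 1) (nat_lit 0x3223),.c (nat_lit 0) (nat_lit 0x30002),.r (nat_lit 0x1ba2) (nat_lit 10) [nat_lit 33,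
    nat_lit 0x402321,nat_lit 0x300231],.r (nat_lit 0x19d6) (nat_lit 2) [nat_lit 0x3001,nat_lit 0x300231,
    nat_lit 0x220321,nat_lit 0x202001],.r (nat_lit 8) (nat_lit 8) [nat_lit 0x303231,nat_lit 0x202001],
    .c (nat_lit 2) (nat_lit 0x3002),.r (nat_lit 0x1972) (nat_lit 0) [nat_lit 0x202001,nat_lit 0x222321,
    nat_lit 0x303231],.r (nat_lit 32) (nat_lit 8) [nat_lit 0x300231,nat_lit 0x200001],
    .r (nat_lit 0x1b3d) (nat_lit 4) [nat_lit 0x2001,nat_lit 0x303231,nat_lit 0x200001],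
    .c (nat_lit 0) (nat_lit 0x33023),.r (nat_lit 0x174e) (nat_lit 8) [nat_lit 0x20001,nat_lit 0x422321],
    .c (nat_lit 0) (nat_lit 0x33323),.r (nat_lit 0x174e) (nat_lit 8) [nat_lit 0x20001,nat_lit 0x33231],
    .c (nat_lit 3) (nat_lit 2),.r (nat_lit 0x12ce) (nat_lit 10) [nat_lit 0x60001,nat_lit 0xd77621,nat_lit 0x600031,
    nat_lit 0x606031],.r (nat_lit 0x12e2) (nat_lit 2) [nat_lit 0x234231,nat_lit 0x422321,nat_lit 0x60001,
    nat_lit 0x955421],.r (nat_lit 0x19d6) (nat_lit 2) [nat_lit 0x3001,nat_lit 0x222031,nat_lit 0x303021,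
    nat_lit 0x202001],.r (nat_lit 0x12e3) (nat_lit 9) [nat_lit 0x202001,nat_lit 0x303021,nat_lit 0x222031,
    nat_lit 0x3001],.r (nat_lit 32) (nat_lit 8) [nat_lit 0x222031,nat_lit 0x200001],
    .r (nat_lit 0x12ac) (nat_lit 1) [nat_lit 0x553221,nat_lit 0x40001,nat_lit 0x402321,nat_lit 0x2231],
    .r (nat_lit 0x174e) (nat_lit 8) [nat_lit 0x20001,nat_lit 33],.r (nat_lit 0x12cc) (nat_lit 2) [nat_lit 0x352431,
    nat_lit 0x844521,nat_lit 0x60001,nat_lit 0x533221],.c (nat_lit 5) (nat_lit 0x22003),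
    .c (nat_lit 0) (nat_lit 0x30002),.c (nat_lit 4) (nat_lit 2),.r (nat_lit 0x1b2d) (nat_lit 3) [nat_lit 0x202001,
    nat_lit 0x222321,nat_lit 0x323231],.c (nat_lit 0) (nat_lit 0x2003),.c (nat_lit 6) (nat_lit 0x3002),
    .r (nat_lit 0x12de) (nat_lit 9) [nat_lit 33,nat_lit 0x200001,nat_lit 0x202001,nat_lit 0x333201],
    .r (nat_lit 0x1812) (nat_lit 9) [nat_lit 0x20001,nat_lit 0x202001,nat_lit 0x200001,nat_lit 33],
    .r (nat_lit 0x1b6e) (nat_lit 10) [nat_lit 0x303231,nat_lit 0x200031,nat_lit 0x2021],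
    .r (nat_lit 0) (nat_lit 6) [nat_lit 0x200001,nat_lit 0x2021],.c (nat_lit 1) (nat_lit 0x3202),
    .r (nat_lit 0x1c01) (nat_lit 1) [nat_lit 0x20001,nat_lit 0x30021,nat_lit 0x202001],.c (nat_lit 5) (nat_lit 2),
    .r (nat_lit 0x1cb8) (nat_lit 9) [nat_lit 0x202001,nat_lit 0x200001,nat_lit 33],
    .r (nat_lit 0x1750) (nat_lit 6) [nat_lit 33,nat_lit 0x202001],.r (nat_lit 0x1115) (nat_lit 2) [nat_lit 0x404001,
    nat_lit 0x955431,nat_lit 0x40001,nat_lit 33],.r (nat_lit 0x1b32) (nat_lit 10) [nat_lit 0x303231,nat_lit 0x200031,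
    nat_lit 0x2021],.r (nat_lit 0x1ab9) (nat_lit 3) [nat_lit 0x23031,nat_lit 0x2021,nat_lit 0x200001],
    .c (nat_lit 6) (nat_lit 2),.r (nat_lit 0x12e4) (nat_lit 9) [nat_lit 0x606001,nat_lit 0x60001,nat_lit 33,
    nat_lit 0x7001],.c (nat_lit 0) (nat_lit 0x33323),.c (nat_lit 7) (nat_lit 2)]]

/-- nodes -/
noncomputable def rD7k_24_17 : List RJ :=
  [.l (nat_lit 10) (nat_lit 240) (nat_lit 3) (nat_lit 0x77000000770000009200000092000000720000007b0000006700000067000000670000007700000075000000670000006700000067) (nat_lit 0x1b0000001b000000000000000000000017000000200000002b0000002b0000001b0000002b0000002b0000001d0000002b0000002b)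
    (nat_lit 0x1705c1e4781806a1304c1a84c130581304c1705c1e07718857134491284c1384812c4b1dc78248921f87119c65224661a08719c651e079240921fc720f852228671a4881503c15c6a1c8711c05411c43110701c84211445188601fc7e0f070140501803c1405e140501244c1486514043140641303c0f04a0f03c1344c0f867140470f0500f03c0f03c0f03c1304c19c660f0700f03c1683c0f05a0f03c1286a22889180440f04c1685a1685a1383c1205822087178420f04a1685a1685a0f03c1384c1a468140720f03c1683c0f05a0f03c12c4c0f065140450f03c0f03c0f03c0f03c12c4c15067140450f03c1383c0f03c0f03c)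
    (nat_lit 0x170f03c0f03c0f03c0f03c0f03c0f03c0f01705c3c0f03c0f03c0f03c0f03c0f03c0f01e478248f03c0f03c0f03c0f03c0f03c0f01e077248923c0f03c0f03c0f03c0f03c0f0180621f87f1c0f03c0f03c0f03c0f03c0f01a8571c472150703c0f03c0f03c0f03c0f01304d19c3e11c50140f03c0f03c0f03c0f0130491945210c50190503c0f03c0f03c0f01a84a2248a110601303c168f03c0f03c0f01304c198671c03c0f03c0f05a3c0f03c0f01304e1a0691c8500f03c0f05a168f03c0f01604821c881085e1283c1685a1685a3c0f01304b19c54114500f03c0f04e0f03c0f0f01304b1943c114500f03c0f03c0f03c0f03c)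
    (nat_lit 6) (nat_lit 83)
    [[nat_lit 2,nat_lit 3,nat_lit 18,nat_lit 258,nat_lit 0x1002,nat_lit 0x10002,nat_lit 0x100002,nat_lit 0x1000002,
    nat_lit 17,nat_lit 33,nat_lit 273,nat_lit 0x1011,nat_lit 0x10011,nat_lit 0x100011,nat_lit 0x1000011,nat_lit 257,
    nat_lit 513,nat_lit 0x1101,nat_lit 0x10101,nat_lit 0x1000101,nat_lit 0x1001,nat_lit 0x2001,nat_lit 0x11001,
    nat_lit 0x101001,nat_lit 0x1001001,nat_lit 0x10001,nat_lit 0x20001,nat_lit 0x100001,nat_lit 0x1000001],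
    [nat_lit 32,nat_lit 0x1020,nat_lit 0x10020,nat_lit 0x1000020,nat_lit 272,nat_lit 0x1110,nat_lit 0x10110,
    nat_lit 0x1000110,nat_lit 0x1010,nat_lit 0x2010,nat_lit 0x11010,nat_lit 0x1001010,nat_lit 0x10010,
    nat_lit 0x1000010],[nat_lit 512,nat_lit 0x1200,nat_lit 0x10200,nat_lit 0x1100,nat_lit 0x2100,nat_lit 0x11100,
    nat_lit 0x1001100,nat_lit 0x10100,nat_lit 0x1000100],[nat_lit 0x2000,nat_lit 0x12000,nat_lit 0x1002000,
    nat_lit 0x11000,nat_lit 0x21000,nat_lit 0x101000,nat_lit 0x1001000],[nat_lit 0x20000,nat_lit 0x1010000],[],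
    [nat_lit 0x2000000]]
    [.c (nat_lit 1) (nat_lit 2),.r (nat_lit 0xd33) (nat_lit 6) [nat_lit 0x71cd658242,nat_lit 0x6312619202,
    nat_lit 0x734d4d8241,nat_lit 129,nat_lit 0x630c619201],.r (nat_lit 0x19ed) (nat_lit 10) [nat_lit 0x80001,
    nat_lit 0x20000c0082,nat_lit 0x3002000002],.r (nat_lit 0x1652) (nat_lit 12) [nat_lit 0x2002000002,nat_lit 0x80001,
    nat_lit 0x80000001,nat_lit 0x3147248104],.r (nat_lit 0x197e) (nat_lit 12) [nat_lit 0x30c5248142,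
    nat_lit 0x82000002,nat_lit 0xc3000102,nat_lit 0x80001],.r (nat_lit 0xd34) (nat_lit 2) [nat_lit 0x3000080201,
    nat_lit 0x2002000242,nat_lit 0x3080000202,nat_lit 129,nat_lit 0x2000000241],
    .r (nat_lit 0x1caf) (nat_lit 3) [nat_lit 0x80001,nat_lit 0x80140082],
    .r (nat_lit 0x1652) (nat_lit 12) [nat_lit 0x2002000002,nat_lit 0x80001,nat_lit 0x80000001,nat_lit 129],
    .r (nat_lit 0x1aad) (nat_lit 4) [nat_lit 0xc0081,nat_lit 0x82000002,nat_lit 0x80001],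
    .r (nat_lit 0xd35) (nat_lit 6) [nat_lit 0x82000001,nat_lit 0x4100001,nat_lit 0x9240101,nat_lit 0x314a208242,
    nat_lit 0x5000001],.r (nat_lit 0x19ed) (nat_lit 10) [nat_lit 0x80001,nat_lit 0x2003140102,nat_lit 0x3002000002],
    .r (nat_lit 0xd36) (nat_lit 6) [nat_lit 0x82000001,nat_lit 0x4100001,nat_lit 0xc7140101,nat_lit 0x3006008242,
    nat_lit 0x5000001],.r (nat_lit 4) (nat_lit 0) [nat_lit 0x82000002,nat_lit 0xc3004142],
    .c (nat_lit 0) (nat_lit 0x3002),.r (nat_lit 0x174e) (nat_lit 8) [nat_lit 0x2102005102,nat_lit 0x3143008242],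
    .r (nat_lit 0x19b4) (nat_lit 10) [nat_lit 0x82000002,nat_lit 0xc3000102,nat_lit 0x80001],
    .r (nat_lit 8) (nat_lit 4) [nat_lit 0x82000002,nat_lit 0x3000081],.c (nat_lit 1) (nat_lit 0x30c0004),
    .r (nat_lit 0x1652) (nat_lit 12) [nat_lit 0x2002000002,nat_lit 0x80001,nat_lit 0x80000001,nat_lit 0x30c5144102],
    .r (nat_lit 0x174e) (nat_lit 8) [nat_lit 0xc20c1,nat_lit 0x2102209202],.c (nat_lit 0) (nat_lit 0xc014b209),
    .r (nat_lit 0x1aad) (nat_lit 4) [nat_lit 0xc0000081,nat_lit 0x82000002,nat_lit 0x80001],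
    .r (nat_lit 32) (nat_lit 13) [nat_lit 0xc20c1,nat_lit 0x80001],.r (nat_lit 0x1caf) (nat_lit 3) [nat_lit 0x80001,
    nat_lit 0xc0081],.c (nat_lit 4) (nat_lit 0x82108248),.c (nat_lit 0) (nat_lit 0x30c5105),
    .r (nat_lit 0x19ed) (nat_lit 10) [nat_lit 0x80001,nat_lit 129,nat_lit 0x3002000002],
    .r (nat_lit 8) (nat_lit 4) [nat_lit 0x82000002,nat_lit 129],.c (nat_lit 0) (nat_lit 0xc5147209),
    .c (nat_lit 2) (nat_lit 2),.r (nat_lit 0xd37) (nat_lit 7) [nat_lit 0xa0c0240102,nat_lit 0x100400241,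
    nat_lit 0xb4d5868142,nat_lit 0x140100201,nat_lit 0x8a200141],
    .r (nat_lit 0x174e) (nat_lit 8) [nat_lit 0x2180240106,nat_lit 0x2006400246],
    .r (nat_lit 0xd38) (nat_lit 11) [nat_lit 0x4000140081,nat_lit 0x90c3104142,nat_lit 0x3000080001,
    nat_lit 0x2002000002,nat_lit 0x3080000002],.c (nat_lit 4) (nat_lit 0x20c5004),.c (nat_lit 2) (nat_lit 0x30c0004),
    .r (nat_lit 0x174e) (nat_lit 8) [nat_lit 0x83140102,nat_lit 0x2006200242],
    .r (nat_lit 0x1652) (nat_lit 12) [nat_lit 0x2002000002,nat_lit 0x80001,nat_lit 0x80000001,nat_lit 0x3143148142],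
    .r (nat_lit 0x1748) (nat_lit 7) [nat_lit 0x80100141,nat_lit 0x86100142,nat_lit 129],
    .c (nat_lit 2) (nat_lit 0x3002002),.r (nat_lit 0xcec) (nat_lit 7) [nat_lit 0x60c0140102,nat_lit 0x2100200241,
    nat_lit 0x734f65c142,nat_lit 0x3140180201,nat_lit 0x210e200242],.r (nat_lit 0x1c9a) (nat_lit 0) [nat_lit 0x80001,
    nat_lit 0x2002005102,nat_lit 0xc0081],.r (nat_lit 0x174e) (nat_lit 13) [nat_lit 0x82000002,nat_lit 129],
    .r (nat_lit 0x1cba) (nat_lit 1) [nat_lit 0xc0081,nat_lit 0x82000002,nat_lit 0x80001],.c (nat_lit 3) (nat_lit 2),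
    .c (nat_lit 3) (nat_lit 0x30c0004),.r (nat_lit 0x174e) (nat_lit 8) [nat_lit 0x2084000142,nat_lit 0x3007000202],
    .c (nat_lit 0) (nat_lit 0x2080005),.c (nat_lit 4) (nat_lit 0x30c0004),.c (nat_lit 4) (nat_lit 0xc3140008),
    .c (nat_lit 7) (nat_lit 0x30c0004),.c (nat_lit 0) (nat_lit 0x80080009),
    .r (nat_lit 0) (nat_lit 3) [nat_lit 0x80001,nat_lit 129],.c (nat_lit 4) (nat_lit 2),
    .r (nat_lit 0x174e) (nat_lit 13) [nat_lit 0x82000002,nat_lit 0xc0080081],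
    .r (nat_lit 0x1cba) (nat_lit 1) [nat_lit 0xc0000081,nat_lit 0x82000002,nat_lit 0x80001],
    .c (nat_lit 4) (nat_lit 0xc2000008),.c (nat_lit 2) (nat_lit 0xc3004004),.c (nat_lit 3) (nat_lit 0x3080004),
    .c (nat_lit 0) (nat_lit 0xc00c9209),.c (nat_lit 5) (nat_lit 2),.c (nat_lit 0) (nat_lit 0x30c5105),
    .c (nat_lit 7) (nat_lit 2)],
    .l (nat_lit 15) (nat_lit 0x1fe0) (nat_lit 3) (nat_lit 0xc1200000c1200000bf300000bf300000c5c00000c5c00000c0c00000c0c00000bf300000bf300000b5900000b5900000b5000000b50) (nat_lit 0x4a0000004a000000690000006900000000000000000000005000000050000000690000006900000103000001030000010c0000010c)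
    (nat_lit 0x1afc2ec058d8ba9194034d06280bc218f62ea45348b09160c2c185370d7e17522ea46e40a240d4033a85d48ba9186e1fe45830b9417522ea46bc0ce415962fcc5d189ed1d4042b05310af0126226fc5d48b1b19e035e05af8bf317462c9c79a114015e02bc04e28937144834d05f98bf319b02bd832b0ca017e62fcc68487af17bc2d406e40ca016be2b2c5940cd8193430306628a3116b22d645a80b5019d42f0859389ed181832806bf0cf017462c545848a3714e42c003500c5017462e8c64d0656177835f85d18ba316122ea45800a8417522ea48a010ac14622fcc5d18b1515d42e285b60af014b22b9c5d48c7b1e683a806628bf317462e8c5500aea1c002bc05768a9d0ff22c245780af016b21ebc5d48a3715e02bc05500b4012f61cf461b8a6915e029885ac8d0916122c247000b6c14002a805268a4d17282c1849b89bf16a02d405420b00153a2b9c526873d15d42a685830b06138a24c45a80bde160029c85768a59149a25ec52e0aea)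
    (nat_lit 0x1afc7f80ff01fe03fc07f80ff01fe03fc07f80ff01fe03fc07f805d80d7e3fc07f80ff01fe03fc07f80ff01fe03fc07f80ff01fe016362ea46bc1fe03fc07f80ff01fe03fc07f80ff01fe03fc07f805d48ba919c835e0ff01fe03fc07f80ff01fe03fc07f80ff01fe0194037205658b5f19b07f80ff01fe03fc07f80ff01fe03fc07f8069a0a2417e62fcc57b0cd83fc07f80ff01fe03fc07f80ff01fe018a01a805d18ba30cac32686bf1fe03fc07f80ff01fe03fc07f805e10cea13da2c9c6500c0c19e035f8ff01fe03fc07f80ff01fe018f62ea47500f3417e633145d18ba315d47f80ff01fe03fc07f805d48ba9215845005f98a31162a2e8c5c50aea3fc07f80ff01fe014d230dc5310af01a122d645848b0916d838005501fe03fc07f8058487f915e02bc03d78b59146e2ea45780af016802a80ff01fe0160c2c1849889c517bc2d405390b0014b22bb44bd8a4d15d47f805830b94137e24dc5a80b5016002a105738a9d0e7a293454d0aea)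
    (nat_lit 3) (nat_lit 49)
    [[nat_lit 2,nat_lit 18,nat_lit 0x100002,nat_lit 17,nat_lit 33,nat_lit 273,nat_lit 0x1011,nat_lit 0x100011,
    nat_lit 0x1000011,nat_lit 0x10011,nat_lit 257,nat_lit 0x1001,nat_lit 0x11001,nat_lit 0x101001,nat_lit 0x1001001,
    nat_lit 0x10001,nat_lit 0x100001,nat_lit 0x1000001],[nat_lit 32,nat_lit 0x10020,nat_lit 0x1000020,nat_lit 272,
    nat_lit 0x1010,nat_lit 0x11010,nat_lit 0x1001010,nat_lit 0x10010,nat_lit 0x100010,nat_lit 0x110010,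
    nat_lit 0x1100010,nat_lit 0x1000010],[nat_lit 512,nat_lit 0x1100,nat_lit 0x11100,nat_lit 0x1001100,
    nat_lit 0x10100,nat_lit 0x1000100],[nat_lit 0x2000,nat_lit 0x11000,nat_lit 0x21000,nat_lit 0x111000,
    nat_lit 0x101000,nat_lit 0x1001000,nat_lit 0x1101000,nat_lit 0x2001000],[nat_lit 0x20000,nat_lit 0x110000,
    nat_lit 0x1010000],[nat_lit 0x200000,nat_lit 0x1100000],[nat_lit 0x2000000]]
    [.c (nat_lit 1) (nat_lit 2),.c (nat_lit 1) (nat_lit 0x6c4),.c (nat_lit 3) (nat_lit 0x4083),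
    .c (nat_lit 0) (nat_lit 0x485),.c (nat_lit 2) (nat_lit 0x6c4),.c (nat_lit 3) (nat_lit 0x6c4),
    .c (nat_lit 4) (nat_lit 0x6c4),.c (nat_lit 3) (nat_lit 0x4485),.c (nat_lit 7) (nat_lit 0x6c4),
    .c (nat_lit 5) (nat_lit 0x6c4),.c (nat_lit 2) (nat_lit 0x54c4),.r (nat_lit 0x1c82) (nat_lit 5) [nat_lit 0x10001,
    nat_lit 17],.r (nat_lit 0x1594) (nat_lit 6) [nat_lit 0x20001,nat_lit 0x2001,nat_lit 0x401,nat_lit 0x2b129],
    .r (nat_lit 0x1caf) (nat_lit 12) [nat_lit 0x10001,nat_lit 0x18011],.r (nat_lit 32) (nat_lit 10) [nat_lit 0x18099,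
    nat_lit 0x10001],.r (nat_lit 0x1c82) (nat_lit 4) [nat_lit 17,nat_lit 0x10001],
    .r (nat_lit 0x1962) (nat_lit 5) [nat_lit 0x18621,nat_lit 0x10401,nat_lit 0x14429],
    .r (nat_lit 0x1b04) (nat_lit 2) [nat_lit 17,nat_lit 0x10001],.c (nat_lit 2) (nat_lit 2),
    .r (nat_lit 0x1cba) (nat_lit 0) [nat_lit 0x3011,nat_lit 0x2402,nat_lit 0x10001],
    .r (nat_lit 0x174e) (nat_lit 1) [nat_lit 0x2402,nat_lit 0x13011],
    .r (nat_lit 0x1bf7) (nat_lit 13) [nat_lit 0x1a011,nat_lit 0x22029,nat_lit 0x13021],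
    .r (nat_lit 0x19b4) (nat_lit 13) [nat_lit 0x2402,nat_lit 0x3622,nat_lit 0x10001],
    .r (nat_lit 0x1b72) (nat_lit 9) [nat_lit 0x10001,nat_lit 0x2b702,nat_lit 0x1a019],
    .r (nat_lit 0x1c12) (nat_lit 8) [nat_lit 0x18099,nat_lit 0x23402,nat_lit 0x2602],
    .r (nat_lit 0) (nat_lit 1) [nat_lit 17,nat_lit 0x10001],.c (nat_lit 1) (nat_lit 0x684),
    .r (nat_lit 0x1c12) (nat_lit 8) [nat_lit 0x3422,nat_lit 0x23402,nat_lit 0x2602],
    .r (nat_lit 0x1b72) (nat_lit 9) [nat_lit 0x10001,nat_lit 0x2b702,nat_lit 0x2562],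
    .r (nat_lit 0x1b8f) (nat_lit 4) [nat_lit 0x401,nat_lit 17,nat_lit 0x10001],.c (nat_lit 3) (nat_lit 2),
    .r (nat_lit 0x1bd6) (nat_lit 3) [nat_lit 17,nat_lit 0x2b72a],.r (nat_lit 0x1ad8) (nat_lit 1) [nat_lit 0x372a,
    nat_lit 0x401,nat_lit 0x10001],.r (nat_lit 4) (nat_lit 1) [nat_lit 0x2402,nat_lit 0x372a],
    .r (nat_lit 0x1cba) (nat_lit 0) [nat_lit 0x18011,nat_lit 0x2402,nat_lit 0x10001],
    .r (nat_lit 0x174e) (nat_lit 1) [nat_lit 0x2402,nat_lit 17],.c (nat_lit 4) (nat_lit 2),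
    .c (nat_lit 0) (nat_lit 0x56e5),.r (nat_lit 0x1b88) (nat_lit 0) [nat_lit 0x22562,nat_lit 0x2402,nat_lit 0x2b719],
    .r (nat_lit 0x174e) (nat_lit 1) [nat_lit 0x2402,nat_lit 0x372a],.r (nat_lit 8) (nat_lit 5) [nat_lit 0x2402,
    nat_lit 17],.c (nat_lit 0) (nat_lit 0x56e5),.r (nat_lit 0x1cba) (nat_lit 0) [nat_lit 0x2b72a,nat_lit 0x2402,
    nat_lit 0x10001],.r (nat_lit 0x1b88) (nat_lit 0) [nat_lit 0x2b72a,nat_lit 0x2402,nat_lit 17],
    .c (nat_lit 5) (nat_lit 2),.r (nat_lit 4) (nat_lit 1) [nat_lit 0x2402,nat_lit 17],.c (nat_lit 0) (nat_lit 0x56e5),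
    .c (nat_lit 6) (nat_lit 2),.r (nat_lit 0x1ad8) (nat_lit 1) [nat_lit 17,nat_lit 0x401,nat_lit 0x10001],
    .c (nat_lit 7) (nat_lit 2)]]

/-- nodes -/
noncomputable def rD7k_24_18 : List RJ :=
  [.l (nat_lit 13) (nat_lit 0x780) (nat_lit 4) (nat_lit 0x3390000033900000329000003290000032600000326000003ce000003ce0000031f0000031f00000337000003370000030300000303) (nat_lit 0x9500000095000000a5000000a5000000a8000000a80000000000000000000000af000000af0000009700000097000000cb000000cb)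
    (nat_lit 0x1520b904d02940e1891467226b15908a85442a213709b85482a414a0a5067e29114e8ce456428a13108e84dc26e14a0a505082841408a0465227b1710c5852426a12f0a785282681420a1050228119489ec67431615b0b085542aa148891450228119609f851432612389dc4861cf14388dc67e1c31408a0458432c1420c983d23190ba85346521d919c89ac4f627b1930c9865838a2308f047723c51e8907453a3391948ca450828a1e70cb077e31f1dd8f1c6c63af14508a862c31618c89dc63e3c10f009c03b81e812a07405642b219d0b883d22471df91843e81e01440a204a81d811d0a8858426a0a6873c78e3c514407a063831c12209b04c42a215b0a482ea2431dd8ee45101dc1880c704d826c13709b855429e0ec88dc75e41d0ec07404d826c11c07204dc26e15509786522871b18f444a825413609103f0238)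
    (nat_lit 0x1521e00f007803c01e00f007803c01e00f007803c01e005c82a43c01e00f007803c01e00f007803c01e00f007801340a505087803c01e00f007803c01e00f007803c01e005282941420a10f007803c01e00f007803c01e00f007800e18cfc5022811961e00f007803c01e00f007803c01e0048a2911408a044fc32c3c01e00f007803c01e00f0078019c8a746523291450a106587803c01e00f007803c01e004d633913d89ec64c3261c50cb0f007803c01e00f007801590ac85c433a12387a48c23bf0f01e00f007803c01e0045428a18b0c584ee3191e08c7c4e01e03c01e00f0078015109885242b612185d47723bb0ee0a206387803c01e0054423a1350b0839e14d1e28f1c3d028818e0c70f0078013709b84bc2aa1438ca47a236312a095048826c11c1e004dc26e14f0aa846e1d920e8ebc3a01d813609b0390238)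
    (nat_lit 3) (nat_lit 61)
    [[nat_lit 2,nat_lit 3,nat_lit 18,nat_lit 258,nat_lit 0x10002,nat_lit 0x100002,nat_lit 0x1000002,nat_lit 17,
    nat_lit 273,nat_lit 0x10011,nat_lit 0x1000011,nat_lit 257,nat_lit 513,nat_lit 0x10101,nat_lit 0x1000101,
    nat_lit 0x10001,nat_lit 0x1010001,nat_lit 0x100001,nat_lit 0x100101,nat_lit 0x110001,nat_lit 0x1100001,
    nat_lit 0x1000001],[nat_lit 32,nat_lit 0x10020,nat_lit 272,nat_lit 528,nat_lit 0x10210,nat_lit 0x10110,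
    nat_lit 0x1000110,nat_lit 0x10010,nat_lit 0x20020,nat_lit 0x20010,nat_lit 0x110010,nat_lit 0x1010010,
    nat_lit 0x100010,nat_lit 0x1100010,nat_lit 0x1000010],[nat_lit 512,nat_lit 768,nat_lit 0x10200,nat_lit 0x1000200,
    nat_lit 0x10100,nat_lit 0x1010100,nat_lit 0x100100,nat_lit 0x1000100],[nat_lit 0x2000,nat_lit 0x11000,
    nat_lit 0x101000,nat_lit 0x1001000],[nat_lit 0x20000,nat_lit 0x110000,nat_lit 0x1110000,nat_lit 0x1010000,
    nat_lit 0x2010000],[nat_lit 0x200000,nat_lit 0x1100000],[nat_lit 0x2000000]]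
    [.c (nat_lit 1) (nat_lit 2),.r (nat_lit 0x1711) (nat_lit 8) [nat_lit 0x3fda9,nat_lit 17,nat_lit 0xe11,
    nat_lit 0x30c19],.c (nat_lit 5) (nat_lit 0x3693),.r (nat_lit 0x1711) (nat_lit 8) [nat_lit 0x3b5a9,nat_lit 0x3411,
    nat_lit 0x3a11,nat_lit 0x32819],.c (nat_lit 2) (nat_lit 0x3693),.r (nat_lit 0x1caf) (nat_lit 5) [nat_lit 0x10401,
    nat_lit 0x1aa11],.r (nat_lit 0x1c3c) (nat_lit 7) [nat_lit 0x20819,nat_lit 0x4a11,nat_lit 17],
    .r (nat_lit 0x174f) (nat_lit 4) [nat_lit 0x10401,nat_lit 0x2611],.c (nat_lit 5) (nat_lit 0x3013),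
    .c (nat_lit 1) (nat_lit 0x3693),.r (nat_lit 0x1aad) (nat_lit 8) [nat_lit 0x2601,nat_lit 0x1b099,nat_lit 0x10401],
    .c (nat_lit 1) (nat_lit 0x682),.r (nat_lit 0x1711) (nat_lit 8) [nat_lit 0x3a7a9,nat_lit 0x5811,nat_lit 0x5611,
    nat_lit 0x34419],.c (nat_lit 2) (nat_lit 0x3013),.r (nat_lit 0x1c3c) (nat_lit 7) [nat_lit 0x22419,nat_lit 0x2611,
    nat_lit 0x3411],.r (nat_lit 0x174e) (nat_lit 4) [nat_lit 0x18099,nat_lit 0x10401],
    .r (nat_lit 0x1b59) (nat_lit 7) [nat_lit 0x1b099,nat_lit 0x10419,nat_lit 0x2611],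
    .r (nat_lit 0x1750) (nat_lit 8) [nat_lit 0x12001,nat_lit 17],.r (nat_lit 0x1caf) (nat_lit 5) [nat_lit 0x10401,
    nat_lit 0x18611],.r (nat_lit 0x1aef) (nat_lit 7) [nat_lit 0x1b099,nat_lit 0x10419,nat_lit 0x2611],
    .c (nat_lit 1) (nat_lit 130),.r (nat_lit 0) (nat_lit 6) [nat_lit 0x2611,nat_lit 0x10401],
    .c (nat_lit 2) (nat_lit 2),.r (nat_lit 0x1bdf) (nat_lit 13) [nat_lit 0x12001,nat_lit 0x120d1],
    .r (nat_lit 0x174f) (nat_lit 4) [nat_lit 0x10401,nat_lit 17],.c (nat_lit 5) (nat_lit 0x34d3),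
    .c (nat_lit 0) (nat_lit 0x269a),.c (nat_lit 1) (nat_lit 0x3013),.r (nat_lit 0x1aad) (nat_lit 8) [nat_lit 0x2601,
    nat_lit 0x18699,nat_lit 0x10401],.r (nat_lit 0) (nat_lit 5) [nat_lit 0x10401,nat_lit 17],
    .c (nat_lit 1) (nat_lit 0x5b23),.r (nat_lit 0x1bdf) (nat_lit 0) [nat_lit 0x12001,nat_lit 0x120d1],
    .r (nat_lit 32) (nat_lit 12) [nat_lit 0x18699,nat_lit 0x10401],.r (nat_lit 0x174d) (nat_lit 8) [nat_lit 0x1b099,
    nat_lit 0x12001],.r (nat_lit 0x1b04) (nat_lit 10) [nat_lit 0x12001,nat_lit 17],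
    .r (nat_lit 0x174f) (nat_lit 4) [nat_lit 0x10401,nat_lit 0x2011],
    .r (nat_lit 0x1bec) (nat_lit 10) [nat_lit 0x12001,nat_lit 17],.c (nat_lit 3) (nat_lit 2),
    .r (nat_lit 0x1711) (nat_lit 8) [nat_lit 0x3efa9,nat_lit 0x7c11,nat_lit 0x7011,nat_lit 0x36019],
    .c (nat_lit 2) (nat_lit 0x34d3),.r (nat_lit 0x1c3c) (nat_lit 7) [nat_lit 0x24019,nat_lit 17,nat_lit 0x5811],
    .r (nat_lit 0x174e) (nat_lit 4) [nat_lit 0x1a699,nat_lit 0x10401],
    .r (nat_lit 0x1b59) (nat_lit 7) [nat_lit 0x18699,nat_lit 0x12019,nat_lit 17],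
    .r (nat_lit 0x1750) (nat_lit 8) [nat_lit 0x12001,nat_lit 0x3411],.r (nat_lit 0) (nat_lit 6) [nat_lit 17,
    nat_lit 0x10401],.c (nat_lit 4) (nat_lit 2),.r (nat_lit 0x1beb) (nat_lit 3) [nat_lit 0x1b011,nat_lit 0x12001],
    .c (nat_lit 0) (nat_lit 0x2003),.c (nat_lit 0) (nat_lit 0x2003),.c (nat_lit 5) (nat_lit 2),
    .r (nat_lit 0x1b04) (nat_lit 0) [nat_lit 17,nat_lit 0x10401],.r (nat_lit 0x174e) (nat_lit 4) [nat_lit 0x18699,
    nat_lit 0x10401],.r (nat_lit 0x1bec) (nat_lit 3) [nat_lit 0x12001,nat_lit 17],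
    .r (nat_lit 0x1c3b) (nat_lit 8) [nat_lit 0x2601,nat_lit 0x10401,nat_lit 17],.c (nat_lit 6) (nat_lit 2),
    .c (nat_lit 0) (nat_lit 195),.c (nat_lit 7) (nat_lit 2)],
    .l (nat_lit 11) (nat_lit 480) (nat_lit 3) (nat_lit 0xbe000000be000000b9000000b90000009b0000009b000000b9000000b9000000bc000000bc000000b9000000b9000000b0000000b0) (nat_lit 0x50000000500000023000000230000000500000005000000020000000200000005000000050000000e0000000e)
    (nat_lit 0x1642f85c8b91722fc5c8b71c43b0558b91602885f0b21722e4598af1722e47a0fe1562e4580ae1722e4500b412c2583909c16e2dc5b07c16e2e45c8b915c2804b0961682d05b8b71882d0438ab15e2fc4b0960f01f84b0961322644b09611a1f4598b912c2583907812c2584989312c258478871722dc5a09c12c2585d0ba16e2dc5d0ba11a2ac5c8b91681c84b0961682e85b8b71682d03d8ab1fc3b05b8b71262645b8b71742e85b8b715c2b87a0e216e2dc4989916e2dc5d0ba16e2dc570ae1722e45a07c12c2585a0ba16e2dc5a0b410a2ac558ab1882d84b0961682e85b8b71682d05c8ab15c288558b910e1f4558ab15c2b8558ab160288580b010e2dc4788d0f6234570ae172214510b0)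
    (nat_lit 0x164780f01e03c0780f01e03c0780f01e03c07805f0b23c0780f01e03c0780f01e03c0780f01e01722e4501e03c0780f01e03c0780f01e03c07805c8b9168280f01e03c0780f01e03c0780f01e01722cc4b0960f0780f01e03c0780f01e03c07805f8af12c2583f0783c0780f01e03c0780f01e01722e4390b412c2585d1e03c0780f01e03c07805b8b91382d04b0961742e8f01e03c0780f01e01c43d05b8b713224c5b8b7174780f01e03c0780760fe16e2dc4c89316e2dc5d0ba3c0780f01e01562ac5b0c412c2585d0b416e2dc5a1e03c07805c8b90f82d04b0961742d05b8b71682d0f01e01602c05b88711a23c4687b15c2b8428b9160780510ae1722ac3e8871562ac570ae1562ac510b0)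
    (nat_lit 4) (nat_lit 57)
    [[nat_lit 2,nat_lit 0x1002,nat_lit 0x10002,nat_lit 17,nat_lit 0x10011,nat_lit 0x1000011,nat_lit 257,
    nat_lit 0x10101,nat_lit 0x1001,nat_lit 0x11001,nat_lit 0x101001,nat_lit 0x1001001,nat_lit 0x10001,nat_lit 0x20001,
    nat_lit 0x110001,nat_lit 0x100001,nat_lit 0x100011,nat_lit 0x1000001],[nat_lit 32,nat_lit 272,nat_lit 0x1010,
    nat_lit 0x10010,nat_lit 0x20010,nat_lit 0x110010,nat_lit 0x100010,nat_lit 0x1000010],[nat_lit 512,nat_lit 0x1100,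
    nat_lit 0x10100,nat_lit 0x20100,nat_lit 0x100100],[nat_lit 0x2000,nat_lit 0x11000,nat_lit 0x21000,
    nat_lit 0x111000,nat_lit 0x101000,nat_lit 0x201000,nat_lit 0x1001000],[nat_lit 0x20000,nat_lit 0x30000,
    nat_lit 0x120000,nat_lit 0x110000,nat_lit 0x210000,nat_lit 0x1010000],[nat_lit 0x200000,nat_lit 0x1100000],
    [nat_lit 0x2000000]]
    [.c (nat_lit 1) (nat_lit 2),.r (nat_lit 0x1559) (nat_lit 4) [nat_lit 0x255451,nat_lit 0x555421,nat_lit 0x34a541,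
    nat_lit 0x225451],.r (nat_lit 0x155a) (nat_lit 0) [nat_lit 0x39f831,nat_lit 0x8001,nat_lit 0x203021,
    nat_lit 0x484051],.c (nat_lit 0) (nat_lit 0x22003),.r (nat_lit 0x1b36) (nat_lit 10) [nat_lit 0x242051,
    nat_lit 0x330041,nat_lit 0x350041],.r (nat_lit 0x1c51) (nat_lit 1) [nat_lit 0x2321,nat_lit 0x222301,nat_lit 561],
    .r (nat_lit 0x1c51) (nat_lit 1) [nat_lit 0x224331,nat_lit 0x222301,nat_lit 0x333221],
    .r (nat_lit 0x1caf) (nat_lit 0) [nat_lit 0x2001,nat_lit 0x3021],.r (nat_lit 0) (nat_lit 6) [nat_lit 0x2001,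
    nat_lit 33],.r (nat_lit 32) (nat_lit 2) [nat_lit 0x3231,nat_lit 0x2001],.c (nat_lit 3) (nat_lit 0x2432),
    .c (nat_lit 6) (nat_lit 0x3323),.r (nat_lit 0x1c82) (nat_lit 8) [nat_lit 0x2001,nat_lit 33],
    .r (nat_lit 0x17fd) (nat_lit 0) [nat_lit 0x2001,nat_lit 0x300041,nat_lit 0x2a0051,nat_lit 0x400021],
    .r (nat_lit 0x1913) (nat_lit 0) [nat_lit 0x2001,nat_lit 0x300041,nat_lit 0x260051,nat_lit 0x200021],
    .r (nat_lit 0x1b49) (nat_lit 3) [nat_lit 0x35231,nat_lit 33,nat_lit 0x2001],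
    .r (nat_lit 0x1b88) (nat_lit 4) [nat_lit 0x220031,nat_lit 0x3231,nat_lit 0x330041],
    .r (nat_lit 0x1b36) (nat_lit 10) [nat_lit 0x202051,nat_lit 0x320041,nat_lit 0x300041],.c (nat_lit 2) (nat_lit 2),
    .c (nat_lit 0) (nat_lit 0x2203),.r (nat_lit 0x1a46) (nat_lit 12) [nat_lit 0x220001,nat_lit 0x2001,nat_lit 33],
    .c (nat_lit 0) (nat_lit 0x2203),.r (nat_lit 0x1b36) (nat_lit 10) [nat_lit 0x22031,nat_lit 33,nat_lit 0x30021],
    .r (nat_lit 32) (nat_lit 8) [nat_lit 0x3231,nat_lit 0x2001],.r (nat_lit 0) (nat_lit 3) [nat_lit 33,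
    nat_lit 0x2001],.r (nat_lit 0x1c25) (nat_lit 7) [nat_lit 0x2001,nat_lit 33,nat_lit 0x220031],
    .c (nat_lit 3) (nat_lit 2),.r (nat_lit 0x1bf8) (nat_lit 7) [nat_lit 0x3021,nat_lit 0x2001,nat_lit 0x20001],
    .c (nat_lit 1) (nat_lit 0x20302),.r (nat_lit 0x155a) (nat_lit 0) [nat_lit 0x59d831,nat_lit 0x8001,
    nat_lit 0x405021,nat_lit 0x88051],.r (nat_lit 0x1b56) (nat_lit 4) [nat_lit 0x3021,nat_lit 0x2001,
    nat_lit 0x220321],.c (nat_lit 4) (nat_lit 2),.c (nat_lit 0) (nat_lit 0x33545),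
    .r (nat_lit 0x17fc) (nat_lit 5) [nat_lit 0x2001,nat_lit 33,nat_lit 0x203001,nat_lit 0x22001],
    .c (nat_lit 1) (nat_lit 0x22232),.c (nat_lit 0) (nat_lit 0x35545),
    .r (nat_lit 0x180c) (nat_lit 11) [nat_lit 0x2001,nat_lit 0x220001,nat_lit 0x22321,nat_lit 0x300001],
    .r (nat_lit 0x1b54) (nat_lit 0) [nat_lit 33,nat_lit 0x2001,nat_lit 0x220001],.c (nat_lit 5) (nat_lit 2),
    .r (nat_lit 0x17cc) (nat_lit 5) [nat_lit 33,nat_lit 0x2001,nat_lit 0x607021,nat_lit 0x66031],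
    .r (nat_lit 0x155b) (nat_lit 12) [nat_lit 0x44031,nat_lit 0x335431,nat_lit 33,nat_lit 0x50021],
    .c (nat_lit 0) (nat_lit 0x33545),.r (nat_lit 0x1c80) (nat_lit 11) [nat_lit 0x2001,nat_lit 0x20001,
    nat_lit 0x30021],.r (nat_lit 0x1b36) (nat_lit 10) [nat_lit 0x2031,nat_lit 0x20021,nat_lit 33],
    .c (nat_lit 6) (nat_lit 2),.r (nat_lit 32) (nat_lit 8) [nat_lit 0x33231,nat_lit 0x2001],
    .c (nat_lit 7) (nat_lit 2)]]

/-- nodes -/
noncomputable def rD7k_24_19 : List RJ :=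
  [.l (nat_lit 13) (nat_lit 0x4b0) (nat_lit 3) (nat_lit 0x23b0000023b0000026c000001b40000020600000206000001ee0000022e000001fa000001fa000001fa000001ee0000020400000204) (nat_lit 0x3100000031000000b80000000000000066000000660000003e0000007e00000072000000720000007e000000720000006800000068)
    (nat_lit 0xfd082835e23b0ea87543fa1b90f288643221c90e9874c4141fa0f988ec2d613b0f6875452e2cb0ea87243a616911d88ec49c26c0f706582582580fd08284b012c10a07b03e61af096093828414e0a104d826c14209b050829812c09d875429c1960d005c03901940ca07203501a00b906782d61d50a107b83401a00de062038817c0ce06e03441a20ea86e426c2580c406503901700ac06202d814c0c305c83da1fd0a104b03781c80fc07203b01bc0e006002ec1ca165886428420a0be07203781880e206002f016c0c9060852e1e509b07e83881940ec05602d81c4096062032415a0e4872428412c0dc068030014c0c405b03681a40bb07883aa19109b09603381a80e005b02581780ac06d030c1860b4874c2581ec0d106783941720ad060830c1e20e406d03a61d30a608503441720bb06183241920c305d83381c8)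
    (nat_lit 0xfd12c09604b025812c09604b025812c09604b025812c04141fa25812c09604b025812c09604b025812c09604b00d787cc49c4b025812c09604b025812c09604b025812c047623b13609389604b025812c09604b025812c09604b00ea85ac3dc1420d012c09604b025812c09604b025812c03aa13b0cb05382e01a025812c09604b025812c09604b00fe87b42581420e406f03904b025812c09604b025812c03721d512c04d83281880b807209604b025812c09604b00f28a5c3f41360ca07102b01d80e212c09604b025812c04322b7105050839017c0c406f03001c425812c09604b00c887544b01360d406702d81c00bc04b03684b025812c03921c909605083401b80a606002d81880d206d09604b00e9874c42814c0b9068830c1760c906482ec1860e412c03a61690f604b033c1a20b9072830415a0f106183681c8)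
    (nat_lit 5) (nat_lit 49)
    [[nat_lit 2,nat_lit 258,nat_lit 17,nat_lit 273,nat_lit 0x1011,nat_lit 0x100011,nat_lit 0x1000011,nat_lit 257,
    nat_lit 513,nat_lit 0x10101,nat_lit 0x1001,nat_lit 0x1101,nat_lit 0x101001,nat_lit 0x11001,nat_lit 0x1001001,
    nat_lit 0x10001,nat_lit 0x110001,nat_lit 0x100001,nat_lit 0x1000001],[nat_lit 32,nat_lit 288,nat_lit 0x1020,
    nat_lit 0x100020,nat_lit 272,nat_lit 528,nat_lit 0x1110,nat_lit 0x100110,nat_lit 0x10110,nat_lit 0x1010,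
    nat_lit 0x101010,nat_lit 0x10010,nat_lit 0x110010,nat_lit 0x1010010,nat_lit 0x100010,nat_lit 0x1000010],
    [nat_lit 512,nat_lit 0x1100,nat_lit 0x11100,nat_lit 0x101100,nat_lit 0x10100,nat_lit 0x110100,nat_lit 0x100100,
    nat_lit 0x1010100],[nat_lit 0x2000,nat_lit 0x102000,nat_lit 0x11000,nat_lit 0x111000,nat_lit 0x101000,
    nat_lit 0x1001000],[nat_lit 0x20000,nat_lit 0x120000,nat_lit 0x110000,nat_lit 0x1010000],[nat_lit 0x200000,
    nat_lit 0x1100000],[nat_lit 0x2000000]]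
    [.c (nat_lit 1) (nat_lit 2),.c (nat_lit 0) (nat_lit 0x18c02),.c (nat_lit 4) (nat_lit 0x4518004),
    .r (nat_lit 0x1af3) (nat_lit 10) [nat_lit 0x10c41,nat_lit 0x4210c01,nat_lit 0x861],
    .r (nat_lit 0x19ed) (nat_lit 5) [nat_lit 0x10001,nat_lit 0x80200002,nat_lit 0x82180a1],
    .r (nat_lit 0x174e) (nat_lit 8) [nat_lit 0x18861,nat_lit 0xa310081],
    .r (nat_lit 0x174e) (nat_lit 8) [nat_lit 0xa318841,nat_lit 0x82100a1],
    .r (nat_lit 0x174e) (nat_lit 8) [nat_lit 0x6000861,nat_lit 0x318081],.c (nat_lit 5) (nat_lit 0x6918105),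
    .c (nat_lit 4) (nat_lit 0x300043),.c (nat_lit 0) (nat_lit 0x4010009),.c (nat_lit 5) (nat_lit 0x300043),
    .r (nat_lit 0xc09) (nat_lit 3) [nat_lit 0x80410121,nat_lit 0x84400121,nat_lit 0xc0300102,nat_lit 0xc0500101,
    nat_lit 0xc65188c1],.c (nat_lit 3) (nat_lit 0x300043),.r (nat_lit 0x198f) (nat_lit 6) [nat_lit 0xce529081,
    nat_lit 0x10001,nat_lit 0x4200001],.r (nat_lit 0x1c82) (nat_lit 8) [nat_lit 0x10001,nat_lit 65],
    .r (nat_lit 0x1cbe) (nat_lit 4) [nat_lit 0x10001,nat_lit 0xca34a0a2,nat_lit 0x90642482],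
    .r (nat_lit 0x1c16) (nat_lit 5) [nat_lit 0x10001,nat_lit 0x18861,nat_lit 0x4000c41],
    .r (nat_lit 0x1af3) (nat_lit 10) [nat_lit 0x4220c61,nat_lit 0x4210c01,nat_lit 0x6318841],
    .c (nat_lit 2) (nat_lit 2),.r (nat_lit 0x164e) (nat_lit 9) [nat_lit 0x80001,nat_lit 0x10a018041,
    nat_lit 0x14a95c0e1,nat_lit 0x108200a1],.r (nat_lit 0x19ed) (nat_lit 5) [nat_lit 0x10001,nat_lit 0x80200002,
    nat_lit 0xd00380a3],.r (nat_lit 0x1bdf) (nat_lit 7) [nat_lit 0x6010041,nat_lit 0x8a221482],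
    .r (nat_lit 0x1bdf) (nat_lit 7) [nat_lit 65,nat_lit 0x80201482],
    .r (nat_lit 0x1af3) (nat_lit 10) [nat_lit 0x4221442,nat_lit 0x4210c01,nat_lit 0x6301062],
    .r (nat_lit 0xc0a) (nat_lit 7) [nat_lit 0x4010a1,nat_lit 0xd3348102,nat_lit 0x90a40122,nat_lit 0x8400001,
    nat_lit 0xd2b00102],.c (nat_lit 3) (nat_lit 0x300802),.r (nat_lit 0x1cbe) (nat_lit 4) [nat_lit 0x10001,
    nat_lit 0x18041,nat_lit 0x4210061],.r (nat_lit 0x1a46) (nat_lit 12) [nat_lit 0x4200001,nat_lit 0x10001,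
    nat_lit 65],.r (nat_lit 0x198f) (nat_lit 6) [nat_lit 0x63290a1,nat_lit 0x10001,nat_lit 0x4200001],
    .c (nat_lit 0) (nat_lit 0x602a509),.c (nat_lit 4) (nat_lit 0x40110a4),
    .r (nat_lit 0x1caf) (nat_lit 6) [nat_lit 0x10001,nat_lit 0x18041],.c (nat_lit 0) (nat_lit 0x200c03),
    .c (nat_lit 0) (nat_lit 0x200003),.c (nat_lit 3) (nat_lit 2),.r (nat_lit 0x198f) (nat_lit 6) [nat_lit 0xe3010a1,
    nat_lit 0x10001,nat_lit 0x4200001],.c (nat_lit 1) (nat_lit 0x300043),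
    .r (nat_lit 0x1829) (nat_lit 9) [nat_lit 0x10001,nat_lit 0xa319061,nat_lit 0x4018061,nat_lit 0x210041],
    .c (nat_lit 4) (nat_lit 0x44100a4),.r (nat_lit 0x113f) (nat_lit 1) [nat_lit 0x4018041,nat_lit 0xa319061,
    nat_lit 0x6010041,nat_lit 0x4200001],.r (nat_lit 0x174e) (nat_lit 8) [nat_lit 0xa319062,nat_lit 65],
    .c (nat_lit 0) (nat_lit 0xc02),.c (nat_lit 4) (nat_lit 2),.r (nat_lit 0x174e) (nat_lit 8) [nat_lit 0x8a3290a2,
    nat_lit 0xc0010081],.c (nat_lit 0) (nat_lit 0x519485),.c (nat_lit 1) (nat_lit 0x210862),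
    .c (nat_lit 0) (nat_lit 0x319485),.c (nat_lit 5) (nat_lit 0x6519484),.c (nat_lit 5) (nat_lit 2),
    .r (nat_lit 0x1af3) (nat_lit 10) [nat_lit 0xca3010a2,nat_lit 0x4210c01,nat_lit 0x88221482],
    .c (nat_lit 0) (nat_lit 0x632a509),.r (nat_lit 0x1c86) (nat_lit 10) [nat_lit 0x10061,nat_lit 0x80200002,
    nat_lit 65],.c (nat_lit 6) (nat_lit 2),.c (nat_lit 1) (nat_lit 0x10002),.c (nat_lit 7) (nat_lit 2)],
    .l (nat_lit 16) (nat_lit 0x2d00) (nat_lit 3) (nat_lit 0x12ec000012ec00001316000012b2000010bf00001123000011e200001576000012dc000012dc000012aa0000127e0000137400001374) (nat_lit 0x28a0000028a000002c40000026000000453000004b700000000000003940000029a0000029a000002f8000002cc0000020200000202)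
    (nat_lit 0x103210621018108c0e990e15130c11b814d818180e54102010ea11fa106210321028108c0eb90e35136c0f5814e818280eb4102010ea0f9a108c108c105210b60ec30e5f0b400f62107c0ffc116e0bb411441254102810180fde10520e5f0dfb11e20fde10180c42110a0b4010d011e00e350e150dfb0e5f0bac0c1814950d2b12cb0ef50c970df30ecd0d6d0eb90e990e5f0ec30b400bac15290d8f125f0e890fcb10070cc10f210f5811b80fde0f620d8f0d2b11e20fde0d980b420eea0b400fe00e40136c130c11e20b4015291495157611e212dc12dc11ae12da0bae12a4182818180c420ffc0e890ef512dc0b421012104210b4101010ba11aa14e814d81018107c125f12cb12dc0d980f8210120f34101010da102a102010200b400bb410070df312da0b40101010101062109e0c2211580eb40e54110a116e0fcb0c9711ae0eea0f3410b40f8610620f6c107c0f9a11fa11e012540f210d6d12a40e40102a11aa107c11581312117210ea10ea10d011440cc10ecd0bae0fe010da10ba0f6c0c2211721312)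
    (nat_lit 0x10322d002d002d002d002d002d002d002d002d002d002d002d002d00106210322d002d002d002d002d002d002d002d002d002d002d002d001018102810522d002d002d002d002d002d002d002d002d002d002d00108c108c10b610522d002d002d002d002d002d002d002d002d002d000e990eb90ec30e5f0bac2d002d002d002d002d002d002d002d002d000e150e350e5f0dfb0c180bac2d002d002d002d002d002d002d002d00130c136c0b4011e21495152911e22d002d002d002d002d002d002d0011b80f580f620fde0d2b0d8f0fde11e22d002d002d002d002d002d0014d814e8107c101812cb125f0d9812dc10122d002d002d002d002d00181818280ffc0c420ef50e890b4212dc104210122d002d002d002d000e540eb4116e110a0c970fcb0eea11ae10b40f3410622d002d002d00102010200bb40b400df310070b4012da10101010109e10622d002d0010ea10ea114410d00ecd0cc10fe00bae10ba10da0c220f6c13122d0011fa0f9a125411e00d6d0f210e4012a411aa102a1158107c11721312)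
    (nat_lit 4) (nat_lit 49)
    [[nat_lit 2,nat_lit 17,nat_lit 0x1011,nat_lit 0x10011,nat_lit 0x1000011,nat_lit 257,nat_lit 0x10101,
    nat_lit 0x1001,nat_lit 0x1101,nat_lit 0x2001,nat_lit 0x11001,nat_lit 0x101001,nat_lit 0x10001,nat_lit 0x20001,
    nat_lit 0x1010001,nat_lit 0x100001,nat_lit 0x1000001],[nat_lit 32,nat_lit 0x100020,nat_lit 272,nat_lit 0x100110,
    nat_lit 0x10110,nat_lit 0x1010,nat_lit 0x101010,nat_lit 0x10010,nat_lit 0x20010,nat_lit 0x110010,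
    nat_lit 0x1010010,nat_lit 0x100010,nat_lit 0x1000010,nat_lit 0x1100010],[nat_lit 512,nat_lit 0x100200,
    nat_lit 0x1100,nat_lit 0x101100,nat_lit 0x10100,nat_lit 0x100100],[nat_lit 0x2000,nat_lit 0x11000,
    nat_lit 0x101000,nat_lit 0x111000,nat_lit 0x201000,nat_lit 0x1101000,nat_lit 0x1001000],[nat_lit 0x20000,
    nat_lit 0x30000,nat_lit 0x120000,nat_lit 0x1020000,nat_lit 0x110000,nat_lit 0x1010000],[nat_lit 0x200000,
    nat_lit 0x1100000],[nat_lit 0x2000000]]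
    [.c (nat_lit 1) (nat_lit 2),.c (nat_lit 0) (nat_lit 0x3545),.r (nat_lit 4) (nat_lit 3) [nat_lit 0x3231,
    nat_lit 0x334042],.c (nat_lit 4) (nat_lit 0x2232),.r (nat_lit 0x1c12) (nat_lit 10) [nat_lit 0x235452,
    nat_lit 0x30231,nat_lit 0x22321],.r (nat_lit 0x1c06) (nat_lit 4) [nat_lit 0x3021,nat_lit 0x2001,nat_lit 0x224052],
    .r (nat_lit 0x1caf) (nat_lit 0) [nat_lit 0x2001,nat_lit 0x3021],.c (nat_lit 0) (nat_lit 0x22505),
    .c (nat_lit 3) (nat_lit 0x33404),.r (nat_lit 0x1a62) (nat_lit 3) [nat_lit 0x334042,nat_lit 0x245051,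
    nat_lit 0x2001],.r (nat_lit 32) (nat_lit 2) [nat_lit 0x3231,nat_lit 0x2001],
    .r (nat_lit 32) (nat_lit 10) [nat_lit 0x3231,nat_lit 0x334042],.c (nat_lit 0) (nat_lit 0x3545),
    .r (nat_lit 0x1c56) (nat_lit 6) [nat_lit 0x2001,nat_lit 0x225002,nat_lit 0x334042],
    .r (nat_lit 0x174e) (nat_lit 1) [nat_lit 0x235452,nat_lit 0x2001],
    .r (nat_lit 0x1864) (nat_lit 12) [nat_lit 0x2001,nat_lit 0x265052,nat_lit 0x205021,nat_lit 0x304041],
    .c (nat_lit 0) (nat_lit 0x22005),.c (nat_lit 2) (nat_lit 2),.r (nat_lit 0x1c12) (nat_lit 10) [nat_lit 0x35432,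
    nat_lit 0x350432,nat_lit 0x244522],.r (nat_lit 4) (nat_lit 3) [nat_lit 0x330452,nat_lit 33],
    .c (nat_lit 5) (nat_lit 0x33045),.c (nat_lit 6) (nat_lit 0x33045),
    .r (nat_lit 0x1ae2) (nat_lit 12) [nat_lit 0x2001,nat_lit 33,nat_lit 0x225052],
    .r (nat_lit 0x1c12) (nat_lit 10) [nat_lit 0x3231,nat_lit 0x330452,nat_lit 0x224542],
    .c (nat_lit 0) (nat_lit 0x3545),.r (nat_lit 0x175b) (nat_lit 10) [nat_lit 33,nat_lit 0x20001,nat_lit 0x33231,
    nat_lit 0x370452],.c (nat_lit 3) (nat_lit 0x33045),.r (nat_lit 0x1caf) (nat_lit 6) [nat_lit 0x2001,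
    nat_lit 0x3021],.r (nat_lit 0) (nat_lit 3) [nat_lit 33,nat_lit 0x2001],
    .r (nat_lit 0x1c4f) (nat_lit 1) [nat_lit 0x224542,nat_lit 0x335442,nat_lit 0x334452],
    .r (nat_lit 0x1b08) (nat_lit 1) [nat_lit 0x224542,nat_lit 0x20001,nat_lit 0x334452,nat_lit 0x235452],
    .c (nat_lit 3) (nat_lit 2),.c (nat_lit 0) (nat_lit 0x20502),.r (nat_lit 0x1a62) (nat_lit 3) [nat_lit 33,
    nat_lit 0x20051,nat_lit 0x2001],.c (nat_lit 0) (nat_lit 0x23504),.r (nat_lit 32) (nat_lit 2) [nat_lit 0x330452,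
    nat_lit 0x2001],.r (nat_lit 32) (nat_lit 10) [nat_lit 0x330452,nat_lit 33],.c (nat_lit 4) (nat_lit 2),
    .r (nat_lit 0x1b04) (nat_lit 7) [nat_lit 33,nat_lit 0x2001],.c (nat_lit 0) (nat_lit 0x2003),
    .r (nat_lit 0x174e) (nat_lit 1) [nat_lit 0x3231,nat_lit 0x2001],
    .r (nat_lit 0x137f) (nat_lit 12) [nat_lit 0x73dc92,nat_lit 0x6001,nat_lit 0x40031,nat_lit 0x30041],
    .r (nat_lit 0x1a62) (nat_lit 3) [nat_lit 0x22031,nat_lit 0x35041,nat_lit 0x2001],.c (nat_lit 0) (nat_lit 0x22005),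
    .c (nat_lit 5) (nat_lit 2),.r (nat_lit 0x1380) (nat_lit 3) [nat_lit 0xc001,nat_lit 0x77dc51,nat_lit 0x600001,
    nat_lit 65],.r (nat_lit 0x174e) (nat_lit 1) [nat_lit 0x35432,nat_lit 0x2001],
    .r (nat_lit 0x1a57) (nat_lit 3) [nat_lit 0x3021,nat_lit 0x2001,nat_lit 0x332431,nat_lit 0x237431],
    .r (nat_lit 4) (nat_lit 7) [nat_lit 0x330452,nat_lit 33],.r (nat_lit 0x1c5a) (nat_lit 10) [nat_lit 0x2031,
    nat_lit 33,nat_lit 0x220052],.c (nat_lit 6) (nat_lit 2),.r (nat_lit 0x1ada) (nat_lit 5) [nat_lit 0x3021,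
    nat_lit 0x2001,nat_lit 0x225002],.c (nat_lit 7) (nat_lit 2)],
    .l (nat_lit 12) (nat_lit 720) (nat_lit 3) (nat_lit 0x10d0000010d00000107000001070000010800000108000000ff000000ff00000112000001120000010b0000010b0000010600000106) (nat_lit 0x5000000050000000b0000000b0000000a0000000a0000001300000013000000000000000000000007000000070000000c0000000c)
    (nat_lit 0x1081080e80e81031031080f010d10d14c19c1011011081081021020ff0d50de0f610d10d13418411b11b1020e812a0fc1010fd0f40f80891230e61000fb0cd1020e812412a0fb0fd0f40f213511d0e61000fb0fb0d51030fd0fd1000d60df0f71081081010d31161160ff1030fb1010fe1001090f51080f01011011061060f60f00f20f80f50f71040ec0ff0eb0ee0f80f30f30de1080f40f41090df0ec1040ff0ff1060e00f30f310d10d11d1230f01080ff0eb12a11210b10b0f80f810d10d1350891081080ff0ff11212a10b10b07010618419c1001001010d30e00f810b10b1041040ff0ff13414c0e60e61011011060ee10b10b1041040ff0ff11b1010fb0cd1061160f30f31060f80ff0ff0b40fa11b1010fb0fb1061160f30f30700f80ff0ff0fa0b4)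
    (nat_lit 0x1082d02d02d02d02d02d02d02d02d02d02d02d02d01081082d02d02d02d02d02d02d02d02d02d02d02d00e810212a2d02d02d02d02d02d02d02d02d02d02d00e81020fc12a2d02d02d02d02d02d02d02d02d02d01030ff1010fb1002d02d02d02d02d02d02d02d02d01030d50fd0fd0d61002d02d02d02d02d02d02d02d01080de0f40f40df1091042d02d02d02d02d02d02d00f00f60f80f20f70f50ec1042d02d02d02d02d02d010d10d0891351081080ff0ff12a2d02d02d02d02d010d10d12311d1080f00eb0ff11212a2d02d02d02d014c1340e60e61011010ee10610b10b1042d02d02d019c1841001000d31010f80e010b10b1041042d02d010111b0fb0fb1161060f30f30f80700ff0ff0b42d010111b0cd0fb1161060f30f30f81060ff0ff0fa0b4)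
    (nat_lit 3) (nat_lit 49)
    [[nat_lit 2,nat_lit 3,nat_lit 18,nat_lit 258,nat_lit 0x1002,nat_lit 0x100002,nat_lit 17,nat_lit 0x100011,
    nat_lit 257,nat_lit 0x100101,nat_lit 273,nat_lit 513,nat_lit 0x1101,nat_lit 0x10101,nat_lit 0x1000101,
    nat_lit 0x1001,nat_lit 0x101001,nat_lit 0x10001,nat_lit 0x100001,nat_lit 0x1000001],[nat_lit 32,nat_lit 272,
    nat_lit 0x100110,nat_lit 0x10110,nat_lit 0x1010,nat_lit 0x11010,nat_lit 0x10010,nat_lit 0x100010,nat_lit 0x101010,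
    nat_lit 0x110010],[nat_lit 512,nat_lit 0x1100,nat_lit 0x11100,nat_lit 0x10100,nat_lit 0x20100,nat_lit 0x100100,
    nat_lit 0x101100,nat_lit 0x110100,nat_lit 0x1100100,nat_lit 0x1000100],[nat_lit 0x2000,nat_lit 0x11000,
    nat_lit 0x1011000,nat_lit 0x101000,nat_lit 0x1001000,nat_lit 0x1101000],[nat_lit 0x20000,nat_lit 0x110000,
    nat_lit 0x1110000,nat_lit 0x1010000],[nat_lit 0x200000,nat_lit 0x1100000],[nat_lit 0x2000000]]
    [.c (nat_lit 1) (nat_lit 2),.r (nat_lit 0xfab) (nat_lit 6) [nat_lit 0x38f99,nat_lit 0x36019,nat_lit 0xc01,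
    nat_lit 17],.r (nat_lit 0x1cb2) (nat_lit 10) [nat_lit 0x14419,nat_lit 0x3611,nat_lit 0x4819,nat_lit 0x5611],
    .c (nat_lit 1) (nat_lit 0x3602),.r (nat_lit 0x10a8) (nat_lit 9) [nat_lit 0x24019,nat_lit 0x2db01,nat_lit 0x20951,
    nat_lit 17],.r (nat_lit 0xfac) (nat_lit 8) [nat_lit 0x1a499,nat_lit 0x124d1,nat_lit 0x134d1,nat_lit 0x2db01],
    .c (nat_lit 5) (nat_lit 0x6c2),.c (nat_lit 4) (nat_lit 0x3013),.c (nat_lit 0) (nat_lit 0x2403),
    .c (nat_lit 6) (nat_lit 0x3602),.c (nat_lit 2) (nat_lit 0x3602),.c (nat_lit 3) (nat_lit 0x3602),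
    .c (nat_lit 4) (nat_lit 0x3602),.c (nat_lit 5) (nat_lit 0x3602),.c (nat_lit 2) (nat_lit 0x2483),
    .r (nat_lit 0xf01) (nat_lit 4) [nat_lit 0x401,nat_lit 0x18099,nat_lit 0x10601,nat_lit 0x1b011],
    .c (nat_lit 2) (nat_lit 0x3013),.r (nat_lit 0x1b9c) (nat_lit 9) [nat_lit 17,nat_lit 0x18401,nat_lit 0x699],
    .r (nat_lit 0xf88) (nat_lit 3) [nat_lit 0x12019,nat_lit 0x2419,nat_lit 17,nat_lit 0x3011],
    .r (nat_lit 0xfad) (nat_lit 13) [nat_lit 0x2011,nat_lit 0x3011,nat_lit 0x2db01,nat_lit 0x22019],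
    .c (nat_lit 2) (nat_lit 2),.r (nat_lit 0x1b6a) (nat_lit 9) [nat_lit 0x419,nat_lit 17,nat_lit 0x10611],
    .r (nat_lit 0x10a8) (nat_lit 9) [nat_lit 0x220d1,nat_lit 0x2db01,nat_lit 0x228d9,nat_lit 0x2099],
    .c (nat_lit 2) (nat_lit 0x3082),.r (nat_lit 0x1bfd) (nat_lit 1) [nat_lit 0x419,nat_lit 0x18099,nat_lit 17],
    .r (nat_lit 0x1c36) (nat_lit 1) [nat_lit 0x12001,nat_lit 0x124d1,nat_lit 0x1b099],
    .r (nat_lit 0x1b19) (nat_lit 1) [nat_lit 0x419,nat_lit 17,nat_lit 0x10611],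
    .r (nat_lit 0x1b32) (nat_lit 9) [nat_lit 0x12001,nat_lit 0x124d1,nat_lit 0x1b099],.c (nat_lit 1) (nat_lit 0x3013),
    .r (nat_lit 0x1b9d) (nat_lit 1) [nat_lit 0x12001,nat_lit 0x419,nat_lit 17],.c (nat_lit 3) (nat_lit 2),
    .r (nat_lit 0x1b5c) (nat_lit 10) [nat_lit 0x12019,nat_lit 17,nat_lit 0x401],
    .r (nat_lit 0x1bfd) (nat_lit 1) [nat_lit 0x10019,nat_lit 0x699,nat_lit 0x18411],.c (nat_lit 0) (nat_lit 0x20c3),
    .r (nat_lit 0x1b19) (nat_lit 1) [nat_lit 0x10019,nat_lit 0x18411,nat_lit 17],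
    .r (nat_lit 0x1b47) (nat_lit 10) [nat_lit 0x401,nat_lit 0x124d1,nat_lit 0x699],
    .r (nat_lit 0x1cb2) (nat_lit 10) [nat_lit 0x124d1,nat_lit 0x699,nat_lit 0x28d1,nat_lit 0x3699],
    .r (nat_lit 0x1b32) (nat_lit 9) [nat_lit 0x12001,nat_lit 0x28d1,nat_lit 0x3699],
    .r (nat_lit 0x1c62) (nat_lit 4) [nat_lit 0x401,nat_lit 0x12019,nat_lit 17],.c (nat_lit 0) (nat_lit 0x2003),
    .c (nat_lit 4) (nat_lit 2),.c (nat_lit 0) (nat_lit 0x36d3),.r (nat_lit 0x1b32) (nat_lit 9) [nat_lit 0x12001,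
    nat_lit 0x419,nat_lit 17],.c (nat_lit 0) (nat_lit 0x36d3),.r (nat_lit 0x1b9d) (nat_lit 1) [nat_lit 0x12001,
    nat_lit 0x124d1,nat_lit 0x1b099],.r (nat_lit 0x1b19) (nat_lit 1) [nat_lit 0x124d1,nat_lit 0x1b099,nat_lit 0x3699],
    .c (nat_lit 5) (nat_lit 2),.c (nat_lit 0) (nat_lit 0x36d3),.r (nat_lit 0x1bfd) (nat_lit 1) [nat_lit 0x124d1,
    nat_lit 0x2011,nat_lit 0x1b099],.c (nat_lit 1) (nat_lit 0x402),.c (nat_lit 6) (nat_lit 2),
    .r (nat_lit 0x1c36) (nat_lit 1) [nat_lit 0x12001,nat_lit 0x419,nat_lit 17],.c (nat_lit 7) (nat_lit 2)]]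

/-- nodes -/
noncomputable def rD7k_24_20 : List RJ :=
  [.l (nat_lit 12) (nat_lit 720) (nat_lit 3) (nat_lit 0x1230000012300000120000001200000011f0000011f00000102000001460000013800000138000000fc000001500000013700000137) (nat_lit 0x2d0000002d000000300000003000000031000000310000000a0000004e000000180000001800000000000000540000001900000019)
    (nat_lit 0xf60f60f90f10f00f60cf0d510f10b1510cf10a10a0f60f60ed0f30f60f014d0d510310b14d0cd10c1160f30f10f20f00ef0f51160ce10a0d41140d41070dd0ed0f90f00f20f50ef1160c81081041481081031070f00f60ef0f50f80ee1190cb0cb10711f0cb1000de0f60f00f50ef0ee0f81150d11010d31130d11061060d50d50c80ce0d10cb12c0b40e40ea1020b40eb0f514d0cf11611611511913c12c13212e0b40e012d12d10b10b1040d40d310712e0ea1321201380e01691b110310f10810a1010cb1320e411413213c0e411f1670cd0cf1080d40d10cb0e00b40e40e00b40b40df0df14d15114811411311f0b410213c1381500b413713711610a1070dd1060de12d0f51671b11370df0f011e10c10a10310710610012d0eb11f1691370df11e0f0)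
    (nat_lit 0xf62d02d02d02d02d02d02d02d02d02d02d02d02d00f60f62d02d02d02d02d02d02d02d02d02d02d02d00f90ed0f22d02d02d02d02d02d02d02d02d02d02d00f10f30f00f22d02d02d02d02d02d02d02d02d02d00f00f60ef0f50f82d02d02d02d02d02d02d02d02d00f60f00f50ef0ee0f82d02d02d02d02d02d02d02d00cf14d11611611911512c2d02d02d02d02d02d02d00d50d50ce0c80cb0d10b412c2d02d02d02d02d02d010f10310a1080cb1010e41321322d02d02d02d02d010b10b0d41041070d30ea12e1201322d02d02d02d015114d11414811f1131020b413813c0b42d02d02d00cf0cd0d41080cb0d10b40e00e00e40b40b42d02d010a10c1071031001060eb12d16911f0df1370f02d010a1160dd1070de1060f512d1b11670df13711e0f0)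
    (nat_lit 5) (nat_lit 37)
    [[nat_lit 2,nat_lit 17,nat_lit 33,nat_lit 0x1011,nat_lit 0x1001,nat_lit 0x10001,nat_lit 0x20001,nat_lit 0x100001,
    nat_lit 0x1000001],[nat_lit 32,nat_lit 48,nat_lit 0x1020,nat_lit 0x10020,nat_lit 272,nat_lit 0x1010,
    nat_lit 0x1001010,nat_lit 0x1110,nat_lit 0x2010,nat_lit 0x11010,nat_lit 0x101010,nat_lit 0x10010,nat_lit 0x10110,
    nat_lit 0x100010,nat_lit 0x1000010],[nat_lit 512,nat_lit 0x1100,nat_lit 0x101100,nat_lit 0x1001100,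
    nat_lit 0x10100,nat_lit 0x11100,nat_lit 0x20100,nat_lit 0x110100,nat_lit 0x1010100,nat_lit 0x100100,
    nat_lit 0x200100,nat_lit 0x1000100],[nat_lit 0x2000,nat_lit 0x11000,nat_lit 0x101000,nat_lit 0x201000,
    nat_lit 0x1001000,nat_lit 0x1011000,nat_lit 0x1101000,nat_lit 0x2001000],[nat_lit 0x20000,nat_lit 0x110000,
    nat_lit 0x1010000],[nat_lit 0x200000,nat_lit 0x1100000],[nat_lit 0x2000000]]
    [.c (nat_lit 1) (nat_lit 2),.c (nat_lit 5) (nat_lit 0x6328c42),.c (nat_lit 0) (nat_lit 0x18c02),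
    .c (nat_lit 5) (nat_lit 0x300043),.c (nat_lit 0) (nat_lit 0x4010003),
    .r (nat_lit 0x1b9d) (nat_lit 4) [nat_lit 0x6000861,nat_lit 0x200001,nat_lit 0x4000001],
    .r (nat_lit 0x1b5d) (nat_lit 10) [nat_lit 0x88411441,nat_lit 0xc6319061,nat_lit 0xa319061],
    .r (nat_lit 0x1bb4) (nat_lit 10) [nat_lit 0x4200061,nat_lit 65,nat_lit 0x300041],
    .c (nat_lit 5) (nat_lit 0xa538c82),.c (nat_lit 2) (nat_lit 2),
    .r (nat_lit 0x1080) (nat_lit 10) [nat_lit 0x180600001,nat_lit 0x1ce701861,nat_lit 0x700001,nat_lit 65],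
    .c (nat_lit 1) (nat_lit 0x4020803),.r (nat_lit 0x1cc1) (nat_lit 9) [nat_lit 0x4200001,nat_lit 0x80210c01,
    nat_lit 0x4018041],.r (nat_lit 4) (nat_lit 3) [nat_lit 0xc0300861,nat_lit 65],
    .r (nat_lit 0x1c42) (nat_lit 8) [nat_lit 0x4200001,nat_lit 65],.r (nat_lit 4) (nat_lit 3) [nat_lit 0x6300861,
    nat_lit 0xc4000041],.r (nat_lit 0x1082) (nat_lit 7) [nat_lit 0x14a701861,nat_lit 0x108401401,nat_lit 0x200861,
    nat_lit 0x8200c41],.r (nat_lit 0x1c5f) (nat_lit 7) [nat_lit 0x4200c41,nat_lit 0xc8200c41,nat_lit 0x86000861],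
    .c (nat_lit 1) (nat_lit 0x300043),.r (nat_lit 0x1b96) (nat_lit 2) [nat_lit 0x4200001,nat_lit 65,nat_lit 0x300061],
    .c (nat_lit 7) (nat_lit 0x4210062),.c (nat_lit 6) (nat_lit 0x6018043),.c (nat_lit 0) (nat_lit 0x803),
    .c (nat_lit 0) (nat_lit 0x4000805),.c (nat_lit 3) (nat_lit 2),.r (nat_lit 0x1b5d) (nat_lit 10) [nat_lit 0x4200061,
    nat_lit 65,nat_lit 0x86000041],.r (nat_lit 0x474) (nat_lit 3) [nat_lit 0x1ca92a061,nat_lit 0x14a719861,
    nat_lit 0x18ca22441,nat_lit 0xc6519061,nat_lit 0x210c33481],.c (nat_lit 1) (nat_lit 0x4220003),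
    .c (nat_lit 2) (nat_lit 0x4010862),.r (nat_lit 0x1b9d) (nat_lit 4) [nat_lit 0x80210c41,nat_lit 0x200001,
    nat_lit 0x4000001],.c (nat_lit 0) (nat_lit 0x82208a2),.c (nat_lit 2) (nat_lit 0x6018043),
    .r (nat_lit 0x1cc1) (nat_lit 9) [nat_lit 0x4200001,nat_lit 0x80210c01,nat_lit 65],
    .c (nat_lit 0) (nat_lit 0x200003),.r (nat_lit 0xdd1) (nat_lit 9) [nat_lit 0x2600000a1,nat_lit 0x156d3b061,
    nat_lit 0x112000101,nat_lit 0x20ac00081],.c (nat_lit 2) (nat_lit 0x300802),.c (nat_lit 4) (nat_lit 2),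
    .c (nat_lit 0) (nat_lit 0x6528c85),.c (nat_lit 0) (nat_lit 0x4000003),
    .r (nat_lit 0x1cc1) (nat_lit 9) [nat_lit 0x4200001,nat_lit 0x80210c01,nat_lit 0xc0519062],
    .c (nat_lit 0) (nat_lit 0x4010003),.c (nat_lit 2) (nat_lit 0x210862),.c (nat_lit 0) (nat_lit 0x4000003),
    .c (nat_lit 2) (nat_lit 0x6000802),.c (nat_lit 5) (nat_lit 2),.r (nat_lit 4) (nat_lit 7) [nat_lit 0xc0300861,
    nat_lit 65],.c (nat_lit 0) (nat_lit 0x528c85),.c (nat_lit 6) (nat_lit 2),.c (nat_lit 0) (nat_lit 0x18003),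
    .c (nat_lit 7) (nat_lit 2)],
    .l (nat_lit 11) (nat_lit 360) (nat_lit 4) (nat_lit 0x8b0000008b0000008e0000008e000000760000007600000094000000940000009a0000009a0000008c0000008c0000009100000091) (nat_lit 0xf0000000f0000000c0000000c0000002400000024000000060000000600000000000000000000000e0000000e0000000900000009)
    (nat_lit 0xf81f03f87f0b61b42d87311622c418691041f03e07c0fe1fc3086710a1cc428911061f4410760fe1fc410820f81a84108e11c2384608610a1fc3f87f1042083e06a0ec2384708e1001e83f8850ce1b43506a0981483805e0f8220340680da1b43085b0f81f02904c0f81c03b0760d01a83f87f0e61cc4708e0e01784708e1242203a08612e22c4285b0ec2083e0701342384a0940a82184588b12222c4708e0ec2204a0881342384608c17630c4288b11c2383b07c1282484d09a118230528ad0fa1a43d0860d41a0430861182303107e10620c41883100230340680a81d04608c0fc188448830ec1f04287f0fe1b44588b15a30c41883104220410820fe2143f86d11625c528bb11220c44082)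
    (nat_lit 0xf85a0b41682d05a0b41682d05a0b41682d05a03e07c2d05a0b41682d05a0b41682d05a0b41680fe1fc411682d05a0b41682d05a0b41682d05a03f87f104208b41682d05a0b41682d05a0b41680b61843e07c0985a0b41682d05a0b41682d05a0368670d41a82904c2d05a0b41682d05a0b41680b6214410760e01f0471682d05a0b41682d05a03987311c2382f07011c238b41682d05a0b41681162144708e0f81d8490941345a0b41682d05a04589111c238440761102504709a2d05a0b416810620c460800d01a03a054118230311682d05a03487d10c1e83406a10c2184608c0fc188b41681042084287f0da1fc4b88b176294418891045a03e0760fe2143687f11622c618ad10620c44082)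
    (nat_lit 4) (nat_lit 49)
    [[nat_lit 2,nat_lit 17,nat_lit 0x1011,nat_lit 0x10011,nat_lit 0x1001,nat_lit 0x10001,nat_lit 0x20001,
    nat_lit 0x1010001,nat_lit 0x100001,nat_lit 0x1000001],[nat_lit 32,nat_lit 48,nat_lit 0x1020,nat_lit 0x10020,
    nat_lit 0x1000020,nat_lit 272,nat_lit 0x1010,nat_lit 0x11010,nat_lit 0x1001010,nat_lit 0x101010,nat_lit 0x10010,
    nat_lit 0x20010,nat_lit 0x110010,nat_lit 0x1010010,nat_lit 0x100010,nat_lit 0x1000010],[nat_lit 512,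
    nat_lit 0x1100,nat_lit 0x10100,nat_lit 0x20100,nat_lit 0x100100,nat_lit 0x1000100],[nat_lit 0x2000,
    nat_lit 0x1002000,nat_lit 0x11000,nat_lit 0x21000,nat_lit 0x1011000,nat_lit 0x101000,nat_lit 0x111000,
    nat_lit 0x1001000,nat_lit 0x1021000,nat_lit 0x2001000],[nat_lit 0x20000,nat_lit 0x30000,nat_lit 0x40000,
    nat_lit 0x1030000,nat_lit 0x120000,nat_lit 0x1020000,nat_lit 0x110000,nat_lit 0x1110000,nat_lit 0x1010000,
    nat_lit 0x2010000],[nat_lit 0x200000,nat_lit 0x1100000],[nat_lit 0x2000000]]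
    [.c (nat_lit 1) (nat_lit 2),.c (nat_lit 7) (nat_lit 0x3302),.c (nat_lit 6) (nat_lit 0x30023),
    .c (nat_lit 1) (nat_lit 770),.r (nat_lit 32) (nat_lit 3) [nat_lit 0x2001,nat_lit 33],
    .r (nat_lit 0x1b19) (nat_lit 10) [nat_lit 0x220031,nat_lit 33,nat_lit 0x30021],
    .r (nat_lit 0x1ca2) (nat_lit 6) [nat_lit 0x330021,nat_lit 0x220001,nat_lit 0x224031],
    .c (nat_lit 1) (nat_lit 0x2002),.r (nat_lit 0x1b8b) (nat_lit 10) [nat_lit 0x220031,nat_lit 0x2001,nat_lit 33],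
    .r (nat_lit 0x1bd6) (nat_lit 2) [nat_lit 33,nat_lit 0x333231],.c (nat_lit 2) (nat_lit 2),
    .r (nat_lit 0x1749) (nat_lit 4) [nat_lit 33,nat_lit 0x6031,nat_lit 0x220001],
    .r (nat_lit 0xfc1) (nat_lit 10) [nat_lit 0x4031,nat_lit 0x555401,nat_lit 0x44031,nat_lit 33],
    .c (nat_lit 2) (nat_lit 770),.r (nat_lit 0xfc2) (nat_lit 0) [nat_lit 0xb73631,nat_lit 0x405021,nat_lit 0x660001,
    nat_lit 0x302021],.r (nat_lit 0x19ec) (nat_lit 6) [nat_lit 0x2031,nat_lit 0x220001,nat_lit 33],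
    .r (nat_lit 0x1b64) (nat_lit 13) [nat_lit 0x220001,nat_lit 0x222321,nat_lit 0x330231],
    .c (nat_lit 4) (nat_lit 770),.r (nat_lit 8) (nat_lit 8) [nat_lit 0x330231,nat_lit 0x220001],
    .c (nat_lit 1) (nat_lit 0x30023),.c (nat_lit 0) (nat_lit 515),.c (nat_lit 5) (nat_lit 770),
    .c (nat_lit 6) (nat_lit 770),.c (nat_lit 7) (nat_lit 770),.r (nat_lit 0x1b49) (nat_lit 0) [nat_lit 0x2031,
    nat_lit 0x220001,nat_lit 33],.r (nat_lit 0x1bab) (nat_lit 0) [nat_lit 0x2031,nat_lit 0x220001,nat_lit 33],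
    .c (nat_lit 3) (nat_lit 2),.r (nat_lit 2) (nat_lit 13) [nat_lit 0x2001,nat_lit 33],
    .c (nat_lit 0) (nat_lit 0x20003),.r (nat_lit 0x1cc1) (nat_lit 9) [nat_lit 0x220001,nat_lit 0x2031,
    nat_lit 0x200001],.r (nat_lit 32) (nat_lit 10) [nat_lit 0x2001,nat_lit 33],.c (nat_lit 2) (nat_lit 0x30202),
    .c (nat_lit 4) (nat_lit 2),.r (nat_lit 0x1ca9) (nat_lit 5) [nat_lit 0x333231,nat_lit 0x2001,nat_lit 33],
    .r (nat_lit 0x1bec) (nat_lit 7) [nat_lit 33,nat_lit 0x220001],.r (nat_lit 0x17b1) (nat_lit 5) [nat_lit 0x2001,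
    nat_lit 0x220001,nat_lit 33,nat_lit 0x200001],.r (nat_lit 32) (nat_lit 3) [nat_lit 0x2001,nat_lit 0x20021],
    .c (nat_lit 0) (nat_lit 0x33323),.r (nat_lit 0x1cc1) (nat_lit 9) [nat_lit 0x220001,nat_lit 0x530231,
    nat_lit 0x200001],.c (nat_lit 0) (nat_lit 0x33323),.r (nat_lit 0x1cab) (nat_lit 3) [nat_lit 0x2001,
    nat_lit 0x220001,nat_lit 0x303021],.r (nat_lit 0x1a0f) (nat_lit 4) [nat_lit 0x2001,nat_lit 0x333231,nat_lit 33,
    nat_lit 0x20001],.c (nat_lit 5) (nat_lit 2),.r (nat_lit 0x1748) (nat_lit 10) [nat_lit 33,nat_lit 0x6031,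
    nat_lit 0x220001],.r (nat_lit 0x174a) (nat_lit 10) [nat_lit 34,nat_lit 0x8032,nat_lit 0x220001],
    .r (nat_lit 0x1ca2) (nat_lit 6) [nat_lit 0x300021,nat_lit 0x220001,nat_lit 0x204031],
    .r (nat_lit 0x174c) (nat_lit 11) [nat_lit 0x220001,nat_lit 33,nat_lit 0x332231],
    .r (nat_lit 0x1b19) (nat_lit 10) [nat_lit 0x200031,nat_lit 0x20021,nat_lit 33],
    .r (nat_lit 0x1750) (nat_lit 6) [nat_lit 33,nat_lit 0x220001],.r (nat_lit 0x1b8b) (nat_lit 10) [nat_lit 0x200031,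
    nat_lit 0x2001,nat_lit 0x20021],.c (nat_lit 0) (nat_lit 0x3003),.r (nat_lit 0x1bd6) (nat_lit 2) [nat_lit 0x20021,
    nat_lit 0x353231],.c (nat_lit 6) (nat_lit 2),.c (nat_lit 0) (nat_lit 0x33323),.c (nat_lit 7) (nat_lit 2)],
    .l (nat_lit 10) (nat_lit 240) (nat_lit 3) (nat_lit 0x58000000720000006e0000006e000000740000005e0000005c0000007a000000720000005e0000006c0000005e0000006200000062) (nat_lit 0x8000000220000000c0000000c0000001c00000006000000000000001e0000001c000000080000001c0000000e0000001800000018)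
    (nat_lit 0x1403c100460f0581303c0f04a0f04a100401c050198661206c100461583c1586418060198461885c180682705e148981306015856198401886215868248541609e11854140561b0581a0681506e0f05219048160601a0681203c1586011054178401504a0f050110461183c1505e100521a03c100541003c1104a1004c2489c1783c1e868178721306c1a0620f04a27898128481c8541586a158641986c1583c1605215064178400f05610850118401904a15060140601b03c1406415864150541583c1184c0f058130401085612056118461804015856118681884a1006c11854128441804014056110681a04411866118541104a)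
    (nat_lit 0x140f03c0f03c0f03c0f03c0f03c0f03c0f00f0503c0f03c0f03c0f03c0f03c0f03c0f010066188f03c0f03c0f03c0f03c0f03c0f011866170623c0f03c0f03c0f03c0f03c0f00f04818056150f03c0f03c0f03c0f03c0f01606c1a0681b8543c0f03c0f03c0f03c0f013040218800f05e1a0f03c0f03c0f03c0f00f04617854148400f0683c0f03c0f03c0f00f05614858190541005e158f03c0f03c0f01283c2087c1204a150721a8563c0f03c0f00f056130461603c1004c15842158f03c0f01286418054180500f06c19050190563c0f010060158501a044110681984615046128f010060158561a046128621b040150461104a)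
    (nat_lit 3) (nat_lit 49)
    [[nat_lit 2,nat_lit 3,nat_lit 18,nat_lit 0x1000002,nat_lit 17,nat_lit 273,nat_lit 0x1011,nat_lit 0x1000011,
    nat_lit 0x10011,nat_lit 257,nat_lit 0x10101,nat_lit 0x1000101,nat_lit 0x1001,nat_lit 0x11001,nat_lit 0x1001001,
    nat_lit 0x10001,nat_lit 0x100001,nat_lit 0x100002,nat_lit 0x1000001],[nat_lit 32,nat_lit 0x1020,nat_lit 272,
    nat_lit 0x10110,nat_lit 0x1000110,nat_lit 0x1010,nat_lit 0x11010,nat_lit 0x1001010,nat_lit 0x10010,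
    nat_lit 0x1010010,nat_lit 0x100010,nat_lit 0x1000010],[nat_lit 512,nat_lit 0x1000200,nat_lit 0x10200,
    nat_lit 0x1100,nat_lit 0x11100,nat_lit 0x1001100,nat_lit 0x10100,nat_lit 0x1010100,nat_lit 0x1100100,
    nat_lit 0x1000100,nat_lit 0x2000100],[nat_lit 0x2000,nat_lit 0x12000,nat_lit 0x1002000,nat_lit 0x11000,
    nat_lit 0x21000,nat_lit 0x1011000,nat_lit 0x1001000,nat_lit 0x2001000,nat_lit 0x1101000],[nat_lit 0x20000,
    nat_lit 0x110000,nat_lit 0x1010000],[nat_lit 0x200000,nat_lit 0x1100000],[nat_lit 0x2000000]]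
    [.c (nat_lit 1) (nat_lit 2),.r (nat_lit 0x1b36) (nat_lit 8) [nat_lit 0x2419,nat_lit 0x10401,nat_lit 0x611],
    .r (nat_lit 0x1c71) (nat_lit 9) [nat_lit 0x18611,nat_lit 0x10401,nat_lit 0x10001],
    .r (nat_lit 0x1ad8) (nat_lit 1) [nat_lit 0x611,nat_lit 0x401,nat_lit 0x2001],
    .r (nat_lit 0x1750) (nat_lit 4) [nat_lit 17,nat_lit 0x10001],.r (nat_lit 0x1b32) (nat_lit 11) [nat_lit 0x18099,
    nat_lit 0x2019,nat_lit 0x13011],.r (nat_lit 0x1b32) (nat_lit 11) [nat_lit 0x3099,nat_lit 0x10019,nat_lit 17],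
    .r (nat_lit 0x174e) (nat_lit 8) [nat_lit 0x3099,nat_lit 0x2001],.r (nat_lit 32) (nat_lit 5) [nat_lit 0x3099,
    nat_lit 0x2001],.c (nat_lit 0) (nat_lit 0x483),.r (nat_lit 0x1caf) (nat_lit 4) [nat_lit 0x2001,nat_lit 0x3011],
    .r (nat_lit 32) (nat_lit 10) [nat_lit 0x18099,nat_lit 0x2001],.c (nat_lit 0) (nat_lit 0x2083),
    .r (nat_lit 0x1caf) (nat_lit 4) [nat_lit 0x2001,nat_lit 0x18011],.r (nat_lit 32) (nat_lit 10) [nat_lit 0x3099,
    nat_lit 0x2001],.r (nat_lit 0x1c82) (nat_lit 4) [nat_lit 17,nat_lit 0x2001],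
    .r (nat_lit 0x1b36) (nat_lit 8) [nat_lit 0x2019,nat_lit 0x10401,nat_lit 17],.c (nat_lit 3) (nat_lit 0x883),
    .r (nat_lit 0x1b04) (nat_lit 2) [nat_lit 17,nat_lit 0x2001],.c (nat_lit 2) (nat_lit 2),
    .r (nat_lit 0x1b32) (nat_lit 11) [nat_lit 0x1d71a,nat_lit 0x1061a,nat_lit 0x10412],
    .r (nat_lit 0x1bec) (nat_lit 8) [nat_lit 17,nat_lit 0x10001],.r (nat_lit 0x1cba) (nat_lit 3) [nat_lit 0x13001,
    nat_lit 0x18099,nat_lit 0x2001],.r (nat_lit 0x1b6e) (nat_lit 11) [nat_lit 0x18099,nat_lit 0x2019,nat_lit 0x13011],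
    .r (nat_lit 0x1bec) (nat_lit 8) [nat_lit 0x1a011,nat_lit 0x10001],
    .r (nat_lit 0x1cba) (nat_lit 3) [nat_lit 0x13001,nat_lit 0x3099,nat_lit 0x2001],
    .r (nat_lit 0x1b6e) (nat_lit 11) [nat_lit 0x3099,nat_lit 0x10019,nat_lit 17],.c (nat_lit 0) (nat_lit 0x56e5),
    .c (nat_lit 1) (nat_lit 0x249a),.r (nat_lit 0x1c71) (nat_lit 9) [nat_lit 0x18011,nat_lit 0x10401,nat_lit 0x10001],
    .c (nat_lit 0) (nat_lit 0x5ae5),.c (nat_lit 3) (nat_lit 2),.r (nat_lit 0x1c06) (nat_lit 3) [nat_lit 0x13001,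
    nat_lit 0x2001,nat_lit 17],.r (nat_lit 0x1c51) (nat_lit 8) [nat_lit 0x100d1,nat_lit 0x230d1,nat_lit 0x1a099],
    .c (nat_lit 3) (nat_lit 0x3402),.r (nat_lit 0x1c51) (nat_lit 8) [nat_lit 0x20d1,nat_lit 0x100d1,nat_lit 153],
    .r (nat_lit 0x1c06) (nat_lit 3) [nat_lit 0x13001,nat_lit 0x2001,nat_lit 0x1a011],
    .r (nat_lit 0x174f) (nat_lit 8) [nat_lit 0x2001,nat_lit 0x13011],.r (nat_lit 8) (nat_lit 5) [nat_lit 0x18099,
    nat_lit 0x10001],.c (nat_lit 0) (nat_lit 0x602),.r (nat_lit 0) (nat_lit 4) [nat_lit 0x2001,nat_lit 0x13011],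
    .r (nat_lit 32) (nat_lit 10) [nat_lit 0x2b71a,nat_lit 0x2001],.c (nat_lit 4) (nat_lit 2),
    .r (nat_lit 0x1c51) (nat_lit 8) [nat_lit 0x1c0d1,nat_lit 0x20d1,nat_lit 0x13099],
    .r (nat_lit 0x1c06) (nat_lit 3) [nat_lit 0x13001,nat_lit 0x2001,nat_lit 0x2c011],
    .r (nat_lit 0x174f) (nat_lit 8) [nat_lit 0x2001,nat_lit 17],.r (nat_lit 0x1caf) (nat_lit 4) [nat_lit 0x2001,
    nat_lit 0x18412],.r (nat_lit 8) (nat_lit 5) [nat_lit 0x3099,nat_lit 0x10001],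
    .r (nat_lit 0) (nat_lit 4) [nat_lit 0x2001,nat_lit 17],.r (nat_lit 32) (nat_lit 10) [nat_lit 0x1d71a,
    nat_lit 0x2001],.c (nat_lit 0) (nat_lit 0x3002),.c (nat_lit 5) (nat_lit 2),
    .r (nat_lit 0x1c3d) (nat_lit 6) [nat_lit 0x3011,nat_lit 0x2001,nat_lit 0x2401],.c (nat_lit 0) (nat_lit 0x5ae5),
    .c (nat_lit 6) (nat_lit 2),.r (nat_lit 0x1ad8) (nat_lit 1) [nat_lit 17,nat_lit 0x401,nat_lit 0x2001],
    .c (nat_lit 7) (nat_lit 2)]]

/-- nodes -/
noncomputable def rD7k_24_21 : List RJ :=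
  [.l (nat_lit 11) (nat_lit 480) (nat_lit 3) (nat_lit 0xc4000000c4000000c5000000c5000000c6000000c6000000bc000000bc000000bb000000bb000000a6000000da000000cb000000cb) (nat_lit 0x1600000016000000150000001500000014000000140000001e0000001e0000001f0000001f00000000000000340000000f0000000f)
    (nat_lit 0x1402b8578a91601b8530a019e31c6c0a616a2d4570a015e2bc5b0c014c298528a51242405d8b515e2a4500b01622c4538a114c298628911883a0578af160280588b114e274530a618a2347c11c1801b8588b11782c8540a815629c3009216e2dc5b0b01622c4590bc1342a0528a118c2405e8b714c2804e8a11502a05209e13e2ac5e08a15a2b4530a614e29c4d0a81442905289d1642404589f14a31c530a614229c4e8ab1282606487f1582d8528cf14c298528ab14a27c4c09419a21c4b0aa120298468911202484808a10e1fc540760da214490d818a314630601642f0668c91dc2a0658cb16a2d48e0e816e2dc4f8ad1542d8658851502a05d8b51f03105e8b71162b44b0ac1961b45e0a8)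
    (nat_lit 0x140780f01e03c0780f01e03c0780f01e03c0780570a03c0780f01e03c0780f01e03c0780f01e015e2bc501e03c0780f01e03c0780f01e03c0780548af160280f01e03c0780f01e03c0780f01e01602d8588b1178780f01e03c0780f01e03c0780370c01622c4590bc3c0780f01e03c0780f01e014c298538a7150268521e03c0780f01e03c0780500a6142274540a813c290f01e03c0780f01e019e294530a61562944f8a5128780f01e03c0780638a514c298538a11562744c0943c0780f01e01b0248628c50c03185e0b2192334541e03c078053090122234490901142403f8870ec2a0f01e016a2ec620f816e2f45688b158258368cb1507805a8b51d04705b8b715a27c5b0aa10a32c540a8)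
    (nat_lit 5) (nat_lit 59)
    [[nat_lit 2,nat_lit 17,nat_lit 0x1011,nat_lit 0x10011,nat_lit 0x1000011,nat_lit 257,nat_lit 513,nat_lit 0x1001,
    nat_lit 0x2001,nat_lit 0x10001,nat_lit 0x1000001],[nat_lit 32,nat_lit 0x10020,nat_lit 272,nat_lit 0x1010,
    nat_lit 0x1110,nat_lit 0x10010,nat_lit 0x10110,nat_lit 0x11010,nat_lit 0x20010,nat_lit 0x110010,nat_lit 0x1010010,
    nat_lit 0x100010,nat_lit 0x1000010,nat_lit 0x1001010,nat_lit 0x1100010,nat_lit 0x2000010],[nat_lit 512,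
    nat_lit 768,nat_lit 0x1200,nat_lit 0x1100,nat_lit 0x10100,nat_lit 0x1010100,nat_lit 0x100100,nat_lit 0x1000100],
    [nat_lit 0x2000,nat_lit 0x11000,nat_lit 0x1011000,nat_lit 0x101000,nat_lit 0x1001000],[nat_lit 0x20000,
    nat_lit 0x110000,nat_lit 0x1110000,nat_lit 0x1010000,nat_lit 0x2010000],[nat_lit 0x200000,nat_lit 0x1100000],
    [nat_lit 0x2000000]]
    [.c (nat_lit 1) (nat_lit 2),.c (nat_lit 0) (nat_lit 0x201007),.r (nat_lit 0x1caf) (nat_lit 4) [nat_lit 0x884601a3,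
    nat_lit 0xd6bc9b03],.r (nat_lit 0x1892) (nat_lit 8) [nat_lit 0x4400003,nat_lit 0x10001,nat_lit 0xc03398e3,
    nat_lit 0x863398e3],.c (nat_lit 4) (nat_lit 0x311c06),.c (nat_lit 4) (nat_lit 0x6021c06),
    .r (nat_lit 2) (nat_lit 3) [nat_lit 0x1402380c3,nat_lit 0x863018e3],.r (nat_lit 0x1caf) (nat_lit 11) [nat_lit 65,
    nat_lit 0x44301a3],.r (nat_lit 0x1cc4) (nat_lit 7) [nat_lit 0x18041,nat_lit 0x44300e3,nat_lit 0x10001],
    .r (nat_lit 0x1cc4) (nat_lit 8) [nat_lit 0x863398e3,nat_lit 65,nat_lit 0x10001],.c (nat_lit 4) (nat_lit 0x10c02),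
    .c (nat_lit 2) (nat_lit 2),.r (nat_lit 2) (nat_lit 3) [nat_lit 0xc42398e6,nat_lit 0xce3398c6],
    .c (nat_lit 0) (nat_lit 0x4201807),.c (nat_lit 0) (nat_lit 0x22000d),
    .r (nat_lit 0x1caf) (nat_lit 4) [nat_lit 0xca500183,nat_lit 0x84200921],.c (nat_lit 0) (nat_lit 0x6019cc7),
    .r (nat_lit 2) (nat_lit 3) [nat_lit 0x18861,nat_lit 0xc60000c3],.r (nat_lit 0x174c) (nat_lit 7) [nat_lit 0x10001,
    nat_lit 0x802398e3,nat_lit 0xc0339803],.r (nat_lit 0x174c) (nat_lit 7) [nat_lit 0x10001,nat_lit 0x10606b0e6,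
    nat_lit 0xc0339803],.r (nat_lit 0x1892) (nat_lit 7) [nat_lit 0x86339803,nat_lit 0x10001,nat_lit 0xc03398e3,
    nat_lit 0x44000e3],.c (nat_lit 0) (nat_lit 0x6019cc7),.r (nat_lit 0x1cc4) (nat_lit 7) [nat_lit 0x44000e3,
    nat_lit 65,nat_lit 0x10001],.c (nat_lit 0) (nat_lit 0x201007),.c (nat_lit 3) (nat_lit 0x4318006),
    .r (nat_lit 0x1c95) (nat_lit 5) [nat_lit 0xc0300003,nat_lit 0x10c41,nat_lit 0x861],
    .c (nat_lit 3) (nat_lit 0x8300006),.c (nat_lit 3) (nat_lit 2),.r (nat_lit 0x1892) (nat_lit 8) [nat_lit 0x4400003,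
    nat_lit 0x10001,nat_lit 0xc0018041,nat_lit 0xc60380c3],.r (nat_lit 0x174c) (nat_lit 7) [nat_lit 0x10001,
    nat_lit 65,nat_lit 0xc0339803],.c (nat_lit 7) (nat_lit 0x6018006),.c (nat_lit 0) (nat_lit 0x4319cc7),
    .c (nat_lit 4) (nat_lit 0x2218e6),.r (nat_lit 0x1caf) (nat_lit 4) [nat_lit 65,nat_lit 0x863019a3],
    .c (nat_lit 0) (nat_lit 0x32b58d),.c (nat_lit 4) (nat_lit 2),.r (nat_lit 0x1bec) (nat_lit 6) [nat_lit 65,
    nat_lit 0x10001],.c (nat_lit 1) (nat_lit 0x42030e6),.r (nat_lit 0x1caf) (nat_lit 4) [nat_lit 0x80500183,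
    nat_lit 0xc6601b23],.c (nat_lit 0) (nat_lit 0x6211ccd),.c (nat_lit 5) (nat_lit 2),
    .r (nat_lit 2) (nat_lit 3) [nat_lit 0xc60398e3,nat_lit 65],.c (nat_lit 4) (nat_lit 0x6301cc7),
    .c (nat_lit 0) (nat_lit 0x631acc7),.c (nat_lit 4) (nat_lit 0x42318e6),.c (nat_lit 6) (nat_lit 2),
    .r (nat_lit 0x1ae0) (nat_lit 5) [nat_lit 0xc60398e3,nat_lit 0xc6000003,nat_lit 0x840000c3],
    .c (nat_lit 7) (nat_lit 2)],
    .l (nat_lit 17) (nat_lit 0x5820) (nat_lit 3) (nat_lit 0x249e0000218600002290000024520000291200002912000023e2000023e2000024c0000024c000002521000025210000210c00001fb4) (nat_lit 0x78c00000474000004c000000682000000000000000000000530000005300000045200000452000003f1000003f10000095e00000806)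
    (nat_lit 0xeb0081e03fbc1e1c124f064e842ac1f9a0e0708f503aae20ad0da00582034901d600e6306c10430c16220e2b07208381c1ed40eca86eb4305016080d820787052681bc0113208a4037801d601013078f8442e1fc50c7206a28398c1fde12590a4d048a424520f9107c882fec20001030888844cb016080b11064e848a42290148908fc847c423e211800930056ca2d2b0fda08430430c249e12290899052242912113208f88498022d8157a8b2ec3f10210c0e4107e683e441d6011f108f8841341eb20bfb084383fe21ff10d420582038ac21560f9106f0044c823e20f8e08268404c1f900ff8879cc2df81af40f6a08f5040001e3e116c093003f20210e10f608010436e20390cbd072e8381c1c0e0bfb0809849802300101305fd843d821ec0c768833c36c41cba0dd6882b444421fc5165d8b4ac3ce61ff11067880e442601fb21000893f43b2a1d5710308885c55ea2b650ff887fc431da21b71098084c044a61d1b0b04058202c101a8a10860843035e816080e5d072e83a3624fd0d820641830501b40132c063903f101fb40b7e06a1036c4197a1129880042c101b04)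
    (nat_lit 0xeb016080b04058202c1016080b04058202c1016080b04058202c101608040f01d602c1016080b04058202c1016080b04058202c1016080b04058200fef07318526858202c1016080b04058202c1016080b04058202c10160803c381b040de00a4d0b04058202c1016080b04058202c1016080b0405820124f0861844c82452148916080b04058202c1016080b04058202c10160803274162211480914847e429122c1016080b04058202c1016080b040582010ab0715837801f2211f108990413458202c1016080b04058202c10160803f341c820eb007c8847c423e20f5908268b04058202c1016080b04058200e0707038404c17f61180093002fec202610f616080b04058202c101608047a81ed40f1f08000498022d8108707e40400821ec2c1016080b04058200eab87654442e206115b28abd43fe21ff110db863b4426058202c1016080415a1bad0fe2888845a562cbb0ff8879cc407220cf0fd9084c0b04058200da0060a031c826580fda07e20350816fc0cbd06d88400222530d82160802c1016080d45058204218210c0b0406bd039741cba127e8746c320c1b04)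
    (nat_lit 4) (nat_lit 83)
    [[nat_lit 2,nat_lit 3,nat_lit 258,nat_lit 0x1002,nat_lit 0x100002,nat_lit 0x1000002,nat_lit 17,nat_lit 273,
    nat_lit 0x1011,nat_lit 0x1000011,nat_lit 257,nat_lit 0x1101,nat_lit 0x100101,nat_lit 0x1000101,nat_lit 0x1001,
    nat_lit 0x2001,nat_lit 0x101001,nat_lit 0x1001001,nat_lit 0x10001,nat_lit 0x1010001,nat_lit 0x100001,
    nat_lit 0x1100001,nat_lit 0x1000001,nat_lit 0x2000001],[nat_lit 32,nat_lit 272,nat_lit 0x1010,nat_lit 0x100010,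
    nat_lit 0x1000010,nat_lit 0x2000010],[nat_lit 512,nat_lit 0x1100,nat_lit 0x101100,nat_lit 0x10100,
    nat_lit 0x100100,nat_lit 0x200100,nat_lit 0x1100100,nat_lit 0x1000100,nat_lit 0x1010100],[nat_lit 0x2000,
    nat_lit 0x11000,nat_lit 0x101000,nat_lit 0x1001000],[nat_lit 0x20000,nat_lit 0x110000,nat_lit 0x1010000],
    [nat_lit 0x200000,nat_lit 0x1100000],[nat_lit 0x2000000]]
    [.c (nat_lit 1) (nat_lit 2),.r (nat_lit 0xe73) (nat_lit 2) [nat_lit 65,nat_lit 0xc6c051,nat_lit 0xd70041,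
    nat_lit 0x7dc51],.c (nat_lit 2) (nat_lit 0x42403),.r (nat_lit 0x19ed) (nat_lit 11) [nat_lit 0x2001,nat_lit 33,
    nat_lit 0x335231],.r (nat_lit 0xe74) (nat_lit 2) [nat_lit 0x222321,nat_lit 0x4001,nat_lit 0x405451,
    nat_lit 0x555401],.r (nat_lit 0xe75) (nat_lit 6) [nat_lit 0x868051,nat_lit 0x30041,nat_lit 0x40001,
    nat_lit 0x39851],.c (nat_lit 7) (nat_lit 0x30302),.c (nat_lit 7) (nat_lit 0x22203),
    .r (nat_lit 0xf05) (nat_lit 2) [nat_lit 0x2001,nat_lit 0x20001,nat_lit 33,nat_lit 0x200231],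
    .c (nat_lit 3) (nat_lit 0x22203),.r (nat_lit 0x19c6) (nat_lit 1) [nat_lit 0x220031,nat_lit 33,nat_lit 0x2001],
    .r (nat_lit 0x1b72) (nat_lit 5) [nat_lit 0x2001,nat_lit 33,nat_lit 0x203251],
    .r (nat_lit 0xf05) (nat_lit 2) [nat_lit 0x2001,nat_lit 0x20001,nat_lit 0x200231,nat_lit 33],
    .c (nat_lit 2) (nat_lit 0x22203),.c (nat_lit 0) (nat_lit 0x3545),.r (nat_lit 0xe76) (nat_lit 2) [nat_lit 0x424001,
    nat_lit 33,nat_lit 0x530001,nat_lit 0x35431],.c (nat_lit 7) (nat_lit 0x2232),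
    .r (nat_lit 32) (nat_lit 6) [nat_lit 0x3231,nat_lit 0x2001],.r (nat_lit 0x1c70) (nat_lit 7) [nat_lit 0x20001,
    nat_lit 0x2001,nat_lit 33],.r (nat_lit 0xe78) (nat_lit 2) [nat_lit 0x200021,nat_lit 0x224031,nat_lit 0x335431,
    nat_lit 0x330021],.c (nat_lit 0) (nat_lit 0x3545),.r (nat_lit 0x174e) (nat_lit 13) [nat_lit 0x3231,
    nat_lit 0x2001],.r (nat_lit 0x1b04) (nat_lit 4) [nat_lit 33,nat_lit 0x2001],
    .r (nat_lit 0xe79) (nat_lit 10) [nat_lit 0x6001,nat_lit 0x77d601,nat_lit 0x303021,nat_lit 0x404021],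
    .c (nat_lit 2) (nat_lit 2),.r (nat_lit 0x1bd6) (nat_lit 8) [nat_lit 33,nat_lit 0x335201],
    .r (nat_lit 0x1c59) (nat_lit 2) [nat_lit 0x335231,nat_lit 0x2001,nat_lit 33,nat_lit 0x303001],
    .r (nat_lit 0x1c6f) (nat_lit 9) [nat_lit 0x224321,nat_lit 0x335221,nat_lit 0x330231],
    .r (nat_lit 0x1caf) (nat_lit 2) [nat_lit 0x2001,nat_lit 0x20031],.r (nat_lit 0x1cc4) (nat_lit 1) [nat_lit 0x3021,
    nat_lit 0x2001,nat_lit 0x22031],.c (nat_lit 3) (nat_lit 2),.r (nat_lit 0x174f) (nat_lit 13) [nat_lit 0x2001,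
    nat_lit 33],.r (nat_lit 0x1bd6) (nat_lit 8) [nat_lit 0x224321,nat_lit 0x335201],
    .r (nat_lit 0x1cc4) (nat_lit 1) [nat_lit 0x20031,nat_lit 0x2001,nat_lit 33],
    .r (nat_lit 0) (nat_lit 1) [nat_lit 0x2001,nat_lit 33],.r (nat_lit 32) (nat_lit 9) [nat_lit 0x35432,
    nat_lit 0x2001],.r (nat_lit 32) (nat_lit 9) [nat_lit 0x3231,nat_lit 0x2001],.c (nat_lit 0) (nat_lit 0x2005),
    .r (nat_lit 0x1caf) (nat_lit 2) [nat_lit 0x2001,nat_lit 0x3021],.c (nat_lit 4) (nat_lit 2),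
    .c (nat_lit 0) (nat_lit 0x33323),.c (nat_lit 0) (nat_lit 0x33523),.r (nat_lit 0x1c82) (nat_lit 1) [nat_lit 33,
    nat_lit 0x2001],.c (nat_lit 5) (nat_lit 2),.c (nat_lit 0) (nat_lit 0x33323),.c (nat_lit 1) (nat_lit 0x20002),
    .c (nat_lit 6) (nat_lit 2),.r (nat_lit 0x1b04) (nat_lit 11) [nat_lit 33,nat_lit 0x2001],
    .c (nat_lit 7) (nat_lit 2)]]

/-- nodes -/
noncomputable def rD7k_24_22 : List RJ :=
  [.l (nat_lit 11) (nat_lit 480) (nat_lit 3) (nat_lit 0xee000000f4000000dd00000105000000f40000011200000142000000de00000112000000e4000000f6000000ec000000dd000000dd) (nat_lit 0x4e000000540000003d00000065000000300000004e00000064000000000000005e00000030000000560000004c0000006500000065)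
    (nat_lit 0x140268640890f0280450f01201e04c0a2112224530a016e23c620901201e04b09d13c2a04788f11e2245b07825223c500dd0fe2b4438910f01e05b8c81902d8a88b71be3643e8eb15e2e4500781202805b88f1e02983d07812c218630d20f023c620782a24a49d0f015c4485d0e20f01e0558ad0f03c06c8dd2241e06f0ea264448760f02464844808a1be2805707a0f0378670ae1102405f8bd13a1e0758ad1c42185711216c3903c07815a2b44b0900fa1fc5d09619c4c8430b611c2603f87d1502885c8910f0348480f01301e0510aa1222444f09815e21c3c0c61103b04707812c2884388711e2243c07815a23c5e9210fa2b4438910f01e0478891401e05587817e48c3f8ad10e2443c078)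
    (nat_lit 0x140780f01e03c0780f01e03c0780f01e03c07804d0a03c0780f01e03c0780f01e03c0780f01e01902dc5b1e03c0780f01e03c0780f01e03c07804488f0f02d8f01e03c0780f01e03c0780f01e00f03108392f1e0780f01e03c0780f01e03c07805009011e2dc530f03c0780f01e03c0780f01e0114240500df0f42b86f1e03c0780f01e03c0780780781ba3643c0f01d4378f01e03c0780f01e01202583f87d12c2e8840ce16c780f01e03c07803c09d15a3ac430e21e02b8720b63c0780f01e0130278438af18c1e0760880f0238511e03c0780510a81222e4690781e02403c098154288f01e011223c3c0a00f02ac808bf15a1fc488870f07804488f0f01e0478ad2022f45687d12221c3c078)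
    (nat_lit 4) (nat_lit 83)
    [[nat_lit 2,nat_lit 3,nat_lit 18,nat_lit 258,nat_lit 0x10002,nat_lit 0x100002,nat_lit 0x1000002,nat_lit 17,
    nat_lit 33,nat_lit 273,nat_lit 0x10011,nat_lit 0x100011,nat_lit 0x1000011,nat_lit 257,nat_lit 0x100101,
    nat_lit 0x1000101,nat_lit 0x10101,nat_lit 0x1001001,nat_lit 0x10001,nat_lit 0x1010001,nat_lit 0x110001,
    nat_lit 0x100001,nat_lit 0x200001,nat_lit 0x1100001,nat_lit 0x1000001,nat_lit 0x2000001],[nat_lit 32,nat_lit 288,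
    nat_lit 272,nat_lit 528,nat_lit 0x10110,nat_lit 0x100110,nat_lit 0x1000110,nat_lit 0x1010,nat_lit 0x11010,
    nat_lit 0x1001010,nat_lit 0x10010,nat_lit 0x20010,nat_lit 0x110010,nat_lit 0x1010010,nat_lit 0x100010,
    nat_lit 0x1000010],[nat_lit 512,nat_lit 0x1000200,nat_lit 0x1001100,nat_lit 0x10100,nat_lit 0x1010100,
    nat_lit 0x100100,nat_lit 0x1100100,nat_lit 0x1000100,nat_lit 0x2000100],[nat_lit 0x2000,nat_lit 0x11000,
    nat_lit 0x1011000,nat_lit 0x101000,nat_lit 0x1001000,nat_lit 0x2001000],[nat_lit 0x1010000,nat_lit 0x1110000,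
    nat_lit 0x2010000],[nat_lit 0x200000,nat_lit 0x1100000],[nat_lit 0x2000000]]
    [.c (nat_lit 1) (nat_lit 2),.r (nat_lit 0xc01) (nat_lit 2) [nat_lit 33,nat_lit 0x670021,nat_lit 0x6001,
    nat_lit 0x6060031,nat_lit 0x7767651],.r (nat_lit 0xc02) (nat_lit 3) [nat_lit 0x482051,nat_lit 0x440031,
    nat_lit 0x330021,nat_lit 0x350021,nat_lit 0x37b3241],.c (nat_lit 0) (nat_lit 0x5302),
    .c (nat_lit 3) (nat_lit 0x332223),.r (nat_lit 0xc03) (nat_lit 7) [nat_lit 0x3323281,nat_lit 33,nat_lit 0x30031,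
    nat_lit 0x230051,nat_lit 0x2051],.r (nat_lit 0xc04) (nat_lit 3) [nat_lit 0x42041,nat_lit 0x220041,nat_lit 33,
    nat_lit 0x30031,nat_lit 0x3373291],.r (nat_lit 0x1aef) (nat_lit 4) [nat_lit 0x3000231,nat_lit 0x20001,
    nat_lit 0x30021],.r (nat_lit 0x1bdf) (nat_lit 11) [nat_lit 0x203231,nat_lit 0x200031],
    .c (nat_lit 5) (nat_lit 0x300023),.c (nat_lit 3) (nat_lit 0x300023),
    .r (nat_lit 0xc05) (nat_lit 5) [nat_lit 0x3773241,nat_lit 0x2220031,nat_lit 0x442051,nat_lit 0x420031,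
    nat_lit 0x300021],.r (nat_lit 0x1cc6) (nat_lit 0) [nat_lit 0x2020001,nat_lit 0x2001,nat_lit 0x3033231],
    .c (nat_lit 2) (nat_lit 0x23302),.c (nat_lit 0) (nat_lit 0x3302),
    .r (nat_lit 0x1916) (nat_lit 3) [nat_lit 0x3233201,nat_lit 0x2001,nat_lit 0x4542051,nat_lit 0x502001],
    .c (nat_lit 2) (nat_lit 0x300023),.c (nat_lit 0) (nat_lit 0x303002),
    .r (nat_lit 0x174e) (nat_lit 4) [nat_lit 0x3000231,nat_lit 0x2020001],
    .r (nat_lit 0x1c56) (nat_lit 11) [nat_lit 0x2020001,nat_lit 0x3330231,nat_lit 0x2222321],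
    .r (nat_lit 0x1589) (nat_lit 4) [nat_lit 0x4000001,nat_lit 0x5050041,nat_lit 0x5302231,nat_lit 0x203231],
    .r (nat_lit 0x1b36) (nat_lit 7) [nat_lit 0x2020031,nat_lit 0x2001,nat_lit 33],
    .r (nat_lit 0x1bdf) (nat_lit 13) [nat_lit 0x2022031,nat_lit 0x200031],.c (nat_lit 1) (nat_lit 0x2002),
    .r (nat_lit 0x1bd6) (nat_lit 2) [nat_lit 33,nat_lit 0x2000031],.r (nat_lit 0xc06) (nat_lit 3) [nat_lit 0x42051,
    nat_lit 0x220031,nat_lit 33,nat_lit 0x30021,nat_lit 0x3373241],.c (nat_lit 2) (nat_lit 2),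
    .r (nat_lit 32) (nat_lit 12) [nat_lit 0x502022,nat_lit 0x2020001],
    .r (nat_lit 0x174f) (nat_lit 4) [nat_lit 0x2020001,nat_lit 33],.r (nat_lit 0x158b) (nat_lit 4) [nat_lit 0x7372651,
    nat_lit 0xe263741,nat_lit 0x2322341,nat_lit 0x5455401],.c (nat_lit 1) (nat_lit 0x300023),
    .r (nat_lit 32) (nat_lit 12) [nat_lit 0x300021,nat_lit 0x2020001],
    .r (nat_lit 0x158c) (nat_lit 4) [nat_lit 0x302021,nat_lit 0x5050451,nat_lit 0x4203031,nat_lit 0x203021],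
    .c (nat_lit 3) (nat_lit 0x330202),.r (nat_lit 0x1aef) (nat_lit 4) [nat_lit 0x3302021,nat_lit 0x20001,
    nat_lit 0x233231],.r (nat_lit 32) (nat_lit 12) [nat_lit 0x3302021,nat_lit 0x2020001],
    .c (nat_lit 0) (nat_lit 0x323323),.r (nat_lit 0xc07) (nat_lit 1) [nat_lit 0x2322341,nat_lit 0xa244521,
    nat_lit 0x6001,nat_lit 0x5455431,nat_lit 0x5325431],.r (nat_lit 32) (nat_lit 12) [nat_lit 0x3030231,
    nat_lit 0x2020001],.c (nat_lit 6) (nat_lit 0x202232),.c (nat_lit 7) (nat_lit 0x30002),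
    .c (nat_lit 0) (nat_lit 0x327769),.c (nat_lit 3) (nat_lit 2),.r (nat_lit 0x1589) (nat_lit 4) [nat_lit 0x4000001,
    nat_lit 0x9554451,nat_lit 0x3000021,nat_lit 0x2405021],.r (nat_lit 0x1c56) (nat_lit 11) [nat_lit 0x2020001,
    nat_lit 0x3030021,nat_lit 0x2022031],.c (nat_lit 0) (nat_lit 0x333023),.c (nat_lit 0) (nat_lit 0x333023),
    .c (nat_lit 0) (nat_lit 517),.c (nat_lit 2) (nat_lit 0x20302),.c (nat_lit 0) (nat_lit 0x333023),
    .c (nat_lit 2) (nat_lit 0x40302),.c (nat_lit 4) (nat_lit 2),.r (nat_lit 0x1bdf) (nat_lit 11) [nat_lit 33,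
    nat_lit 0x2321],.r (nat_lit 0x1916) (nat_lit 3) [nat_lit 0x3233201,nat_lit 0x2001,nat_lit 0x4042541,
    nat_lit 0x502001],.c (nat_lit 0) (nat_lit 0x200003),.c (nat_lit 0) (nat_lit 0x400305),
    .c (nat_lit 2) (nat_lit 0x320002),.c (nat_lit 0) (nat_lit 0x333023),
    .r (nat_lit 0x174e) (nat_lit 4) [nat_lit 0x3030231,nat_lit 0x2020001],.c (nat_lit 6) (nat_lit 0x222232),
    .c (nat_lit 6) (nat_lit 2),.c (nat_lit 0) (nat_lit 0x3003),.c (nat_lit 7) (nat_lit 2)],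
    .l (nat_lit 16) (nat_lit 0x3480) (nat_lit 4) (nat_lit 0x170f00001673000014a5000014a50000181a0000181a000016530000165300001a6800001a68000013d3000013b50000160300001603) (nat_lit 0x3f500000359000005c3000005c30000024e0000024e00000415000004150000000000000000000006b3000006950000046500000465)
    (nat_lit 0x17a213b6114c11e212ff14fd0a801782170f1241105c0a8012aa1476127e17a2101a10b0104710dd125e125e15fb167311be11dc1178105610b011e2122a0ee2125712ed1090146e12a714a50faa0e880bb80e42101a114c1374122a1347125710e014be11f3140f0df20cd010040c4e10dd14fd125712ed119e113a149b1315195a17ca1559143713b513b5104712ff1347125714fa119e140514051cb61b2614c3144b0f2d1419125e178214be146e140513150f321310138d16530f3c0b2213b00e92125e0a8010e010901405149b123e0f32165316530d200fbe16bc119e16731241140f14a51b2617ca165316531a681a68140513d31e7d188315fb170f11f312a71cb6195a1653138d1a681a6813b513d31bfd160311dc0a800cd00e88144b14370fbe0b2213d313d30d200d3e0f6e0f6e11be105c0df20faa14c315590d200f3c13b514050d020d200d840f50105614760c4e0e42141913b5119e0e92160318830f500f6e119e119e117812aa10040bb80f2d13b516bc13b01bfd1e7d0d840f6e119e119e)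
    (nat_lit 0x17a2348034803480348034803480348034803480348034803480348013b617a2348034803480348034803480348034803480348034803480114c101a122a3480348034803480348034803480348034803480348011e210b00ee2122a348034803480348034803480348034803480348012ff104712571347119e34803480348034803480348034803480348014fd10dd12ed1257113a119e348034803480348034803480348034800a80125e109010e0149b14050f3234803480348034803480348034801782125e146e14be1315140513100f32348034803480348034803480170f15fb12a711f3195a1cb6138d16531a68348034803480348034801241167314a5140f17ca1b26165316531a681a683480348034803480105c11be0faa0df2155914c30f3c0d20140513b50d203480348034800a8011dc0e880cd01437144b0b220fbe13d313d30d3e0d203480348012aa11780bb8100413b50f2d13b016bc1e7d1bfd0f6e0d84119e3480147610560e420c4e13b514190e92119e188316030f6e0f50119e119e)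
    (nat_lit 4) (nat_lit 61)
    [[nat_lit 2,nat_lit 18,nat_lit 0x100002,nat_lit 0x1002,nat_lit 17,nat_lit 33,nat_lit 0x1011,nat_lit 0x100011,
    nat_lit 0x1000011,nat_lit 0x1001011,nat_lit 0x1001,nat_lit 0x101001,nat_lit 0x1001001,nat_lit 0x10001,
    nat_lit 0x110001,nat_lit 0x10011,nat_lit 0x11001,nat_lit 0x100001,nat_lit 0x200002,nat_lit 0x101011,
    nat_lit 0x200001,nat_lit 0x1100001,nat_lit 0x1000001],[nat_lit 32,nat_lit 48,nat_lit 0x1030,nat_lit 0x1020,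
    nat_lit 0x100020,nat_lit 0x1000020,nat_lit 272,nat_lit 0x100110,nat_lit 0x1010,nat_lit 0x2010,nat_lit 0x101010,
    nat_lit 0x1001010,nat_lit 0x2020,nat_lit 0x10010,nat_lit 0x1010010,nat_lit 0x100010,nat_lit 0x200010,
    nat_lit 0x1100010,nat_lit 0x1101010,nat_lit 0x1000010,nat_lit 0x2000010],[nat_lit 0x1100,nat_lit 0x100100,
    nat_lit 0x1000100],[nat_lit 0x2000,nat_lit 0x3000,nat_lit 0x1002000,nat_lit 0x11000,nat_lit 0x101000,
    nat_lit 0x1101000,nat_lit 0x1001000,nat_lit 0x1011000],[nat_lit 0x20000,nat_lit 0x110000,nat_lit 0x1010000],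
    [nat_lit 0x200000,nat_lit 0x1200000,nat_lit 0x1100000],[nat_lit 0x2000000]]
    [.c (nat_lit 1) (nat_lit 2),.r (nat_lit 0x1cae) (nat_lit 8) [nat_lit 0x2001,nat_lit 0x22052,nat_lit 0x203042],
    .r (nat_lit 0x1bf2) (nat_lit 1) [nat_lit 0x2031,nat_lit 33,nat_lit 0x22031,nat_lit 0x203021],
    .r (nat_lit 0x1bb4) (nat_lit 4) [nat_lit 0x302002,nat_lit 0x220002,nat_lit 0x203021],
    .r (nat_lit 0x1add) (nat_lit 0) [nat_lit 0x203002,nat_lit 0x22002,nat_lit 33],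
    .r (nat_lit 0x116e) (nat_lit 9) [nat_lit 0x40001,nat_lit 0x400001,nat_lit 0x553851,nat_lit 0x4001],
    .r (nat_lit 0x1aa7) (nat_lit 4) [nat_lit 0x302002,nat_lit 0x330452,nat_lit 0x220002],
    .r (nat_lit 0x1852) (nat_lit 6) [nat_lit 0x330452,nat_lit 0x620542,nat_lit 0x224542,nat_lit 0x320452],
    .r (nat_lit 0x1170) (nat_lit 13) [nat_lit 0x2001,nat_lit 0x330451,nat_lit 0x200001,nat_lit 0x20001],
    .c (nat_lit 6) (nat_lit 0x33045),.r (nat_lit 0x1add) (nat_lit 4) [nat_lit 0x302002,nat_lit 0x220002,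
    nat_lit 0x203042],.r (nat_lit 0x1bfd) (nat_lit 4) [nat_lit 0x302002,nat_lit 0x330452,nat_lit 0x220002],
    .r (nat_lit 0x1b60) (nat_lit 10) [nat_lit 0x330452,nat_lit 0x2031,nat_lit 0x23042],
    .c (nat_lit 1) (nat_lit 0x30204),.r (nat_lit 0x1bf2) (nat_lit 1) [nat_lit 0x202052,nat_lit 0x302042,
    nat_lit 0x242052,nat_lit 0x203042],.r (nat_lit 0x1cae) (nat_lit 8) [nat_lit 0x2001,nat_lit 0x220052,nat_lit 33],
    .r (nat_lit 0x1bb4) (nat_lit 4) [nat_lit 0x302002,nat_lit 0x220002,nat_lit 0x203042],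
    .r (nat_lit 0x1750) (nat_lit 6) [nat_lit 0x203042,nat_lit 0x22002],.r (nat_lit 8) (nat_lit 8) [nat_lit 0x203022,
    nat_lit 0x22002],.c (nat_lit 7) (nat_lit 0x33045),.r (nat_lit 0x1bb5) (nat_lit 5) [nat_lit 0x302002,
    nat_lit 0x203042,nat_lit 0x220002],.r (nat_lit 0x1b32) (nat_lit 8) [nat_lit 0x330452,nat_lit 0x23002,
    nat_lit 0x202002],.c (nat_lit 0) (nat_lit 515),.c (nat_lit 2) (nat_lit 2),
    .r (nat_lit 0x1171) (nat_lit 9) [nat_lit 0x60001,nat_lit 0x600001,nat_lit 0x777c51,nat_lit 0x6001],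
    .r (nat_lit 0x1172) (nat_lit 13) [nat_lit 0x6001,nat_lit 0x777c51,nat_lit 0x600001,nat_lit 0x60001],
    .r (nat_lit 0x1b22) (nat_lit 13) [nat_lit 0x203002,nat_lit 0x22002,nat_lit 0x220542],
    .r (nat_lit 0x19fe) (nat_lit 9) [nat_lit 0x22002,nat_lit 0x30001,nat_lit 0x220002,nat_lit 0x202542],
    .r (nat_lit 0x1170) (nat_lit 13) [nat_lit 0x2001,nat_lit 0x333431,nat_lit 0x200001,nat_lit 0x20001],
    .r (nat_lit 0x1170) (nat_lit 13) [nat_lit 0x2001,nat_lit 0x303451,nat_lit 0x200001,nat_lit 0x20001],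
    .c (nat_lit 4) (nat_lit 0x30345),.c (nat_lit 0) (nat_lit 0x33345),
    .r (nat_lit 0x1b22) (nat_lit 7) [nat_lit 0x302002,nat_lit 0x220002,nat_lit 0x22542],
    .c (nat_lit 1) (nat_lit 0x22454),.r (nat_lit 8) (nat_lit 8) [nat_lit 0x33452,nat_lit 0x22002],
    .r (nat_lit 0x1b32) (nat_lit 8) [nat_lit 34,nat_lit 0x23002,nat_lit 0x202002],
    .r (nat_lit 0x1add) (nat_lit 0) [nat_lit 0x203002,nat_lit 0x22002,nat_lit 0x302042],
    .r (nat_lit 0x1170) (nat_lit 13) [nat_lit 0x2001,nat_lit 0x33451,nat_lit 0x200001,nat_lit 0x20001],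
    .c (nat_lit 0) (nat_lit 0x33345),.r (nat_lit 0x1c03) (nat_lit 7) [nat_lit 0x302002,nat_lit 0x220002,nat_lit 33,
    nat_lit 0x200001],.r (nat_lit 0x174c) (nat_lit 1) [nat_lit 0x220002,nat_lit 0x2001,nat_lit 0x333431],
    .c (nat_lit 1) (nat_lit 0x33045),.r (nat_lit 0x1173) (nat_lit 12) [nat_lit 65,nat_lit 0x20001,nat_lit 0x200001,
    nat_lit 0x333451],.r (nat_lit 0x1cb4) (nat_lit 12) [nat_lit 33,nat_lit 0x4031,nat_lit 0x400031,nat_lit 0x40021],
    .r (nat_lit 0x1b60) (nat_lit 10) [nat_lit 0x303452,nat_lit 0x22052,nat_lit 33],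
    .r (nat_lit 0x1b32) (nat_lit 8) [nat_lit 0x303452,nat_lit 0x23002,nat_lit 0x202002],
    .r (nat_lit 0x1b1b) (nat_lit 1) [nat_lit 0x330042,nat_lit 0x302002,nat_lit 0x220002],.c (nat_lit 4) (nat_lit 2),
    .r (nat_lit 0x18c0) (nat_lit 7) [nat_lit 33,nat_lit 0x302002,nat_lit 0x220002,nat_lit 0x200001],
    .r (nat_lit 0x1b60) (nat_lit 10) [nat_lit 0x333432,nat_lit 0x2032,nat_lit 0x20022],
    .r (nat_lit 0x1add) (nat_lit 4) [nat_lit 0x302002,nat_lit 0x220002,nat_lit 33],.c (nat_lit 0) (nat_lit 0x33345),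
    .r (nat_lit 0x192a) (nat_lit 9) [nat_lit 0x353452,nat_lit 0x22002,nat_lit 0x30001,nat_lit 0x220002],
    .r (nat_lit 0x1174) (nat_lit 6) [nat_lit 65,nat_lit 0x20001,nat_lit 0x333451,nat_lit 0x2001],
    .r (nat_lit 0x1b60) (nat_lit 10) [nat_lit 0x33452,nat_lit 0x202052,nat_lit 0x320042],.c (nat_lit 5) (nat_lit 2),
    .r (nat_lit 0x1750) (nat_lit 6) [nat_lit 33,nat_lit 0x22002],.c (nat_lit 0) (nat_lit 0x20003),
    .c (nat_lit 6) (nat_lit 2),.r (nat_lit 0x1b32) (nat_lit 8) [nat_lit 0x333432,nat_lit 0x23002,nat_lit 0x202002],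
    .r (nat_lit 0x1bc4) (nat_lit 1) [nat_lit 33,nat_lit 0x2031,nat_lit 0x220002],.c (nat_lit 7) (nat_lit 2)]]

/-- nodes -/
noncomputable def rD7k_24_23 : List RJ :=
  [.l (nat_lit 13) (nat_lit 0x780) (nat_lit 3) (nat_lit 0x3aa000003aa000003600000036400000348000004240000049600000496000003e20000034800000352000003520000032e00000326) (nat_lit 0xec000000ec0000013200000136000000720000014e00000000000000000000014e000000b400000144000001440000017000000168)
    (nat_lit 0x1670a504e023a19c097084842012e0bd848825e11d09106042ce13c09d066025c1b00d704b829013308a04e827813a08e845c1e619e084878c3681280bd83cc21c0f007e04f027011908b870821620c0ee83ec29c11008903e81e012e097042c21214007e86b82b60fb07804402240f007806603381c20cf076428026510905283701a90e1047c1e01ae10807743682120ad892c4961520cf085c3941930af06c042420c0f1899435c22b12586103e21f60d4864c2e41480bd85382f61b807807c433c14a0db85d02de0fc07804b825c0fb09405281f61840a903f429410708103c01e0114097844821c1c208906a43941020b7841c20e0f107804cc24411007986a42201f610b841c2e80fa08383c01ea13c09103c01f80f007805c82bc0f007803d41e00f007804e823a0fa078047c1e01930c983c01f80f007883c01e0)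
    (nat_lit 0x1671e00f007803c01e00f007803c01e00f007803c01e005282ce3c01e00f007803c01e00f007803c01e00f0078013809e045c7803c01e00f007803c01e00f007803c01e004742740f308b8f007803c01e00f007803c01e00f0078019c0cc06783841401e00f007803c01e00f007803c01e004b825c10908583f42803c01e00f007803c01e00f007802120d8078c4181ae132892c7803c01e00f007803c01e0084035c1b40ee856c42424b1258f007803c01e00f0078012e09704a01f60fb0a5054830814a1e00f007803c01e005ec29017b0a703c037019e0f886dc2943c01e00f0078012209983cc2201100d4885c3ec174083841c7803c01e004bc22810e08904483841ca0d485bc2041070838f0078011d09d03c01f40f008f864c3260fc07803c41e00f01e004882780fc07803c01e015e0b903c01e00f007a83c01e0)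
    (nat_lit 4) (nat_lit 83)
    [[nat_lit 2,nat_lit 3,nat_lit 18,nat_lit 258,nat_lit 0x10002,nat_lit 0x100002,nat_lit 0x1000002,nat_lit 17,
    nat_lit 33,nat_lit 273,nat_lit 0x10011,nat_lit 0x100011,nat_lit 0x1000011,nat_lit 257,nat_lit 513,nat_lit 0x10101,
    nat_lit 0x100101,nat_lit 0x1000101,nat_lit 0x1001,nat_lit 0x10001,nat_lit 0x20001,nat_lit 0x110001,
    nat_lit 0x1010001,nat_lit 0x100001,nat_lit 0x200001,nat_lit 0x1100001,nat_lit 0x1000001],[nat_lit 32,nat_lit 48,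
    nat_lit 288,nat_lit 0x100020,nat_lit 0x1000020,nat_lit 272,nat_lit 0x100110,nat_lit 0x1000110,nat_lit 0x10110,
    nat_lit 0x10010,nat_lit 0x100010,nat_lit 0x200010,nat_lit 0x1100010,nat_lit 0x1000010,nat_lit 0x2000010],
    [nat_lit 512,nat_lit 0x10200,nat_lit 0x1100,nat_lit 0x10100,nat_lit 0x20100,nat_lit 0x110100,nat_lit 0x100100,
    nat_lit 0x200100,nat_lit 0x1100100,nat_lit 0x1000100,nat_lit 0x1010100],[],[nat_lit 0x20000,nat_lit 0x110000,
    nat_lit 0x1010000],[nat_lit 0x200000,nat_lit 0x300000,nat_lit 0x1200000,nat_lit 0x1100000],[nat_lit 0x2000000]]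
    [.c (nat_lit 1) (nat_lit 2),.r (nat_lit 0x1750) (nat_lit 4) [nat_lit 0x32021,nat_lit 0x200001],
    .c (nat_lit 2) (nat_lit 0x3202),.r (nat_lit 0x1bec) (nat_lit 8) [nat_lit 0x32021,nat_lit 0x200001],
    .r (nat_lit 0x1bec) (nat_lit 0) [nat_lit 0x30021,nat_lit 0x202001],.c (nat_lit 2) (nat_lit 0x3402),
    .r (nat_lit 0x1750) (nat_lit 5) [nat_lit 0x30021,nat_lit 0x202001],.r (nat_lit 0x1750) (nat_lit 4) [nat_lit 33,
    nat_lit 0x200001],.r (nat_lit 0x1cc8) (nat_lit 13) [nat_lit 33,nat_lit 0x404031,nat_lit 0x5021],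
    .r (nat_lit 0x1bfd) (nat_lit 11) [nat_lit 0x3001,nat_lit 0x300231,nat_lit 0x202001],
    .r (nat_lit 0x1a29) (nat_lit 13) [nat_lit 0x2001,nat_lit 0x300231,nat_lit 0x200001],
    .r (nat_lit 0x1cc8) (nat_lit 13) [nat_lit 0x2021,nat_lit 0x402031,nat_lit 0x3021],
    .r (nat_lit 0xd5a) (nat_lit 12) [nat_lit 0x32041,nat_lit 0x700671,nat_lit 0x624051,nat_lit 0x35041],
    .r (nat_lit 0x1c42) (nat_lit 8) [nat_lit 33,nat_lit 0x202001],.r (nat_lit 0xd5c) (nat_lit 4) [nat_lit 0x932851,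
    nat_lit 0x9001,nat_lit 0x808001,nat_lit 0x32041],.r (nat_lit 8) (nat_lit 3) [nat_lit 0x303231,nat_lit 0x202001],
    .r (nat_lit 0x1bfd) (nat_lit 11) [nat_lit 0x3001,nat_lit 0x303231,nat_lit 0x202001],
    .r (nat_lit 0x1b2f) (nat_lit 13) [nat_lit 0x2001,nat_lit 0x303231,nat_lit 0x200001],
    .c (nat_lit 0) (nat_lit 0x22003),.r (nat_lit 0xd5d) (nat_lit 4) [nat_lit 0x500451,nat_lit 0x5001,nat_lit 0x32041,
    nat_lit 0x404001],.r (nat_lit 0x1802) (nat_lit 4) [nat_lit 0x2001,nat_lit 0x20001,nat_lit 0x200001,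
    nat_lit 0x30041],.r (nat_lit 0x1a29) (nat_lit 13) [nat_lit 0x2001,nat_lit 0x303231,nat_lit 0x200001],
    .r (nat_lit 0x1b2f) (nat_lit 11) [nat_lit 0x3001,nat_lit 0x300231,nat_lit 0x202001],
    .r (nat_lit 0x1750) (nat_lit 4) [nat_lit 0x2021,nat_lit 0x200001],
    .r (nat_lit 0x1cc8) (nat_lit 13) [nat_lit 0x4021,nat_lit 0x400031,nat_lit 33],
    .r (nat_lit 0xd5a) (nat_lit 12) [nat_lit 0x36041,nat_lit 0x707671,nat_lit 0x620051,nat_lit 0x30041],
    .r (nat_lit 0x1bec) (nat_lit 4) [nat_lit 33,nat_lit 0x202001],.c (nat_lit 2) (nat_lit 2),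
    .r (nat_lit 8) (nat_lit 5) [nat_lit 0x23022,nat_lit 0x200001],.r (nat_lit 0x1bb4) (nat_lit 11) [nat_lit 0x3001,
    nat_lit 0x202001,nat_lit 33],.r (nat_lit 8) (nat_lit 5) [nat_lit 0x20022,nat_lit 0x200001],
    .r (nat_lit 0x1962) (nat_lit 7) [nat_lit 0x404031,nat_lit 33,nat_lit 0x45021],
    .r (nat_lit 0x1bec) (nat_lit 8) [nat_lit 33,nat_lit 0x200001],.r (nat_lit 0x1bb4) (nat_lit 11) [nat_lit 0x3001,
    nat_lit 0x202001,nat_lit 0x2021],.r (nat_lit 0x1a29) (nat_lit 11) [nat_lit 0x3001,nat_lit 0x300231,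
    nat_lit 0x202001],.r (nat_lit 0x1bb5) (nat_lit 1) [nat_lit 0x2001,nat_lit 0x530451,nat_lit 0x200001],
    .r (nat_lit 0x1bec) (nat_lit 0) [nat_lit 0x3021,nat_lit 0x202001],.c (nat_lit 2) (nat_lit 514),
    .r (nat_lit 8) (nat_lit 5) [nat_lit 0x22022,nat_lit 0x200001],.r (nat_lit 0x1962) (nat_lit 7) [nat_lit 0x402031,
    nat_lit 0x2021,nat_lit 0x43021],.r (nat_lit 0x1750) (nat_lit 5) [nat_lit 0x3021,nat_lit 0x202001],
    .r (nat_lit 0x1bb5) (nat_lit 1) [nat_lit 0x2001,nat_lit 0x3021,nat_lit 0x200001],.c (nat_lit 3) (nat_lit 2),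
    .r (nat_lit 0x1b22) (nat_lit 8) [nat_lit 0x3001,nat_lit 0x202001,nat_lit 0x200321],
    .r (nat_lit 0x1b61) (nat_lit 13) [nat_lit 0x2001,nat_lit 0x300021,nat_lit 0x200001],
    .r (nat_lit 0x1c42) (nat_lit 6) [nat_lit 33,nat_lit 0x200001],.r (nat_lit 0x1b22) (nat_lit 0) [nat_lit 0x2001,
    nat_lit 0x200001,nat_lit 0x202321],.r (nat_lit 0x1bb5) (nat_lit 1) [nat_lit 0x2001,nat_lit 0x535451,
    nat_lit 0x200001],.r (nat_lit 0x1bec) (nat_lit 8) [nat_lit 0x2021,nat_lit 0x200001],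
    .r (nat_lit 0x1bb4) (nat_lit 11) [nat_lit 0x3001,nat_lit 0x202001,nat_lit 0x4021],
    .r (nat_lit 0x1a29) (nat_lit 11) [nat_lit 0x3001,nat_lit 0x303231,nat_lit 0x202001],
    .r (nat_lit 0x17b0) (nat_lit 4) [nat_lit 0x2001,nat_lit 0x20001,nat_lit 33,nat_lit 0x200001],
    .r (nat_lit 8) (nat_lit 5) [nat_lit 0x300231,nat_lit 0x200001],.c (nat_lit 5) (nat_lit 2),
    .r (nat_lit 0x1bec) (nat_lit 0) [nat_lit 33,nat_lit 0x202001],.r (nat_lit 0x1c42) (nat_lit 5) [nat_lit 0x200001,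
    nat_lit 33],.c (nat_lit 6) (nat_lit 2),.r (nat_lit 8) (nat_lit 5) [nat_lit 0x24022,nat_lit 0x200001],
    .r (nat_lit 0x1962) (nat_lit 7) [nat_lit 0x400031,nat_lit 0x4021,nat_lit 0x40021],
    .r (nat_lit 0x1750) (nat_lit 5) [nat_lit 33,nat_lit 0x202001],.c (nat_lit 7) (nat_lit 2)],
    .l (nat_lit 15) (nat_lit 0x120c) (nat_lit 4) (nat_lit 0x79e0000079e00000785000007850000077b0000077b000007d5000007d500000906000009060000073b00000833000006ef000006ef) (nat_lit 0x1680000016800000181000001810000018b0000018b00000131000001310000000000000000000000d3000001cb0000021700000217)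
    (nat_lit 0xc6c18d83d186270c621a04241875309ec1900365850b0b0e116c31b06360e6a18742f586130cda20443cf079e0d9618642be84010c3a189c302060408ac138832a067c0e7e1e1441c05ba0adc15b839a87a30c0818102fd05fa0b1819f031d878510700f4028005000c261a042fd04e20b9017c0325064a12ca210c38b06fa07bc0f782f586310bf411582bc05c80c9419284e488a70ddc1b4823f056410221d4c33e067c0c9419282bc071c0d661f5438103bc0b4015e033684830b181950325064a0de815e03a987d50738182838e06f40f3c19003c28785114e210c3ea87d5120c22d837e87bd11b229543cf04f60c761cfc4e489650ea61acc4ab09060d6e1cec3db89330c32142c1e805ba0da41be830503bc0e761ef421205200f981a8036586cb107020e0377071607381c0835b86fd0ec010903a4061c0802116c280056e0ac80f7837a05781266295430e06a009b013602be85870a0015b823f03de0e3816803db88d90e901f3026c04d8)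
    (nat_lit 0xc6c4830906120c24184830906120c24184830906120c2418483031b063624184830906120c24184830906120c24184830906120c0f461cd4302120c24184830906120c24184830906120c24184830313861d0c081810906120c24184830906120c24184830906120c0c6217ac22b05fa0b904830906120c24184830906120c24184830340861309c417e82f805c824184830906120c24184830906120c090619b432a058c0c9419282bc120c24184830906120c241848303a988110cf819f0325064a0e3815e0906120c24184830906120c09ec1e7839f863b12ca27243598753120c4830906120c24184830320079e0f0a1e1442188a70faa1f5445b090624184830906120c0d961b2c41c08380e2c1bb8381039c0dfa1adc212120c2418483028586190b740f4037d06d2077818283de873b0a401090906120c0b0e15f42b7050007bc11f82d0071c11b21edc3e6074809b0483022d84010adc14001ef05640af01bd052088f70d40187026c04d8)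
    (nat_lit 5) (nat_lit 118)
    [[nat_lit 2,nat_lit 3,nat_lit 0x1002,nat_lit 0x10002,nat_lit 0x100002,nat_lit 0x1000002,nat_lit 18,nat_lit 17,
    nat_lit 0x1011,nat_lit 0x10011,nat_lit 0x100011,nat_lit 0x1000011,nat_lit 0x1000101,nat_lit 0x1001,
    nat_lit 0x11001,nat_lit 0x101001,nat_lit 0x1001001,nat_lit 0x10001,nat_lit 0x20002,nat_lit 0x1010002,
    nat_lit 0x20001,nat_lit 0x110001,nat_lit 0x1010001,nat_lit 0x100001,nat_lit 0x200001,nat_lit 0x1100001,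
    nat_lit 0x1000001,nat_lit 0x2000001],[nat_lit 32,nat_lit 48,nat_lit 64,nat_lit 0x1030,nat_lit 0x1020,
    nat_lit 0x2020,nat_lit 0x100020,nat_lit 0x1000020,nat_lit 272,nat_lit 0x1010,nat_lit 0x2010,nat_lit 0x101010,
    nat_lit 0x1001010,nat_lit 0x11010,nat_lit 0x10010,nat_lit 0x110010,nat_lit 0x100010,nat_lit 0x1000010,
    nat_lit 0x1100010],[nat_lit 0x1100,nat_lit 0x100100,nat_lit 0x1000100,nat_lit 0x2000100],[nat_lit 0x2000,
    nat_lit 0x3000,nat_lit 0x102000,nat_lit 0x11000,nat_lit 0x111000,nat_lit 0x101000,nat_lit 0x1001000,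
    nat_lit 0x1011000,nat_lit 0x1101000],[nat_lit 0x20000,nat_lit 0x30000,nat_lit 0x120000,nat_lit 0x110000,
    nat_lit 0x210000,nat_lit 0x1010000],[nat_lit 0x200000,nat_lit 0x1100000],[nat_lit 0x2000000]]
    [.c (nat_lit 1) (nat_lit 2),.r (nat_lit 0x1b61) (nat_lit 4) [nat_lit 0x10001,nat_lit 0x230062,nat_lit 0x4000001],
    .r (nat_lit 0x1bb4) (nat_lit 4) [nat_lit 0x10001,nat_lit 0x4000001,nat_lit 0x28041],
    .r (nat_lit 0x1b61) (nat_lit 4) [nat_lit 0x10001,nat_lit 0x220062,nat_lit 0x4000001],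
    .r (nat_lit 0x1cc8) (nat_lit 0) [nat_lit 0x28041,nat_lit 0x8020061,nat_lit 65],
    .r (nat_lit 0x1cc8) (nat_lit 4) [nat_lit 65,nat_lit 0x8020061,nat_lit 0x28041],
    .r (nat_lit 0x1b61) (nat_lit 4) [nat_lit 0x10001,nat_lit 0x220061,nat_lit 0x4000001],
    .c (nat_lit 0) (nat_lit 0x10805),.r (nat_lit 0x1aa7) (nat_lit 4) [nat_lit 0x10001,nat_lit 0x6000861,
    nat_lit 0x4000001],.r (nat_lit 0x1b61) (nat_lit 4) [nat_lit 0x10001,nat_lit 0x210061,nat_lit 0x4000001],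
    .r (nat_lit 0x1bb5) (nat_lit 5) [nat_lit 0x10001,nat_lit 0x328081,nat_lit 0x4000001],
    .r (nat_lit 0x1bb5) (nat_lit 2) [nat_lit 0x18001,nat_lit 0x318081,nat_lit 0x4010001],
    .c (nat_lit 0) (nat_lit 0x300c02),.r (nat_lit 0x1add) (nat_lit 4) [nat_lit 0x10001,nat_lit 0x4000001,
    nat_lit 0x18041],.r (nat_lit 0x1bb4) (nat_lit 4) [nat_lit 0x10001,nat_lit 0x4000001,nat_lit 0x18041],
    .r (nat_lit 0x1bfd) (nat_lit 4) [nat_lit 0x10001,nat_lit 0x6000861,nat_lit 0x4000001],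
    .r (nat_lit 0x1b8b) (nat_lit 4) [nat_lit 0x10001,nat_lit 0x6000861,nat_lit 0x4000001],
    .c (nat_lit 1) (nat_lit 0x802),.r (nat_lit 0xd9b) (nat_lit 4) [nat_lit 0x2296c062,nat_lit 0x28041,
    nat_lit 0x10020061,nat_lit 0x820062],.r (nat_lit 0xd9c) (nat_lit 9) [nat_lit 0x180400a1,nat_lit 0x48081,
    nat_lit 0x1a74b061,nat_lit 0x20081],.r (nat_lit 0x1b61) (nat_lit 4) [nat_lit 0x10001,nat_lit 0x210062,
    nat_lit 0x4000001],.r (nat_lit 0x1cc8) (nat_lit 0) [nat_lit 0x18041,nat_lit 0x8010061,nat_lit 0x10041],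
    .r (nat_lit 0x1cc8) (nat_lit 4) [nat_lit 0x10041,nat_lit 0x8010061,nat_lit 0x18041],
    .r (nat_lit 0x1750) (nat_lit 6) [nat_lit 0x18041,nat_lit 0x4010001],
    .r (nat_lit 0x1bb5) (nat_lit 5) [nat_lit 0x10001,nat_lit 0x18041,nat_lit 0x4000001],
    .r (nat_lit 0xd9d) (nat_lit 7) [nat_lit 0x8000001,nat_lit 0xa028081,nat_lit 0x8020001,nat_lit 0x6200001],
    .r (nat_lit 0x1750) (nat_lit 1) [nat_lit 65,nat_lit 0x4000001],.r (nat_lit 0x1bb5) (nat_lit 2) [nat_lit 0x18001,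
    nat_lit 65,nat_lit 0x4010001],.c (nat_lit 2) (nat_lit 2),.r (nat_lit 0x1b61) (nat_lit 4) [nat_lit 0x10001,
    nat_lit 0x300041,nat_lit 0x4000001],.c (nat_lit 1) (nat_lit 0x21003),
    .r (nat_lit 0xd9e) (nat_lit 9) [nat_lit 0xc700081,nat_lit 0x6000a1,nat_lit 0xe739841,nat_lit 0x6300a1],
    .r (nat_lit 0x1b22) (nat_lit 13) [nat_lit 0x18001,nat_lit 0x4010001,nat_lit 0x4000c41],
    .r (nat_lit 0xd9d) (nat_lit 7) [nat_lit 0x8000001,nat_lit 0x12029061,nat_lit 0x8020001,nat_lit 0x6200001],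
    .r (nat_lit 0x1b1b) (nat_lit 11) [nat_lit 0x318041,nat_lit 0x18001,nat_lit 0x4010001],
    .r (nat_lit 0x1b1b) (nat_lit 1) [nat_lit 0x300041,nat_lit 0x10001,nat_lit 0x4000001],
    .r (nat_lit 0x1b61) (nat_lit 4) [nat_lit 0x10001,nat_lit 0x6000041,nat_lit 0x4000001],
    .r (nat_lit 0x196f) (nat_lit 8) [nat_lit 0x18001,nat_lit 0x4010001,nat_lit 65],
    .r (nat_lit 0x1b22) (nat_lit 7) [nat_lit 0x10001,nat_lit 0x4000001,nat_lit 0x4010c41],
    .r (nat_lit 8) (nat_lit 6) [nat_lit 0x6000861,nat_lit 0x4000001],.r (nat_lit 8) (nat_lit 8) [nat_lit 0x6018861,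
    nat_lit 0x4010001],.r (nat_lit 0x1aa7) (nat_lit 4) [nat_lit 0x10001,nat_lit 0x6018861,nat_lit 0x4000001],
    .c (nat_lit 0) (nat_lit 0x10003),.r (nat_lit 0x1bb5) (nat_lit 5) [nat_lit 0x10001,nat_lit 0x300081,
    nat_lit 0x4000001],.r (nat_lit 0x1a02) (nat_lit 11) [nat_lit 0x18001,nat_lit 0x318081,nat_lit 0x4010001,
    nat_lit 0x210001],.r (nat_lit 0x1baf) (nat_lit 4) [nat_lit 0x10001,nat_lit 65,nat_lit 0x4000001],
    .r (nat_lit 0x1b2f) (nat_lit 4) [nat_lit 0x10001,nat_lit 0x6018861,nat_lit 0x4000001],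
    .r (nat_lit 0x1b22) (nat_lit 13) [nat_lit 0x18001,nat_lit 0x4010001,nat_lit 0x200c41],
    .r (nat_lit 0x1b1b) (nat_lit 11) [nat_lit 0x6018041,nat_lit 0x18001,nat_lit 0x4010001],
    .r (nat_lit 0x1b1b) (nat_lit 1) [nat_lit 0x6000041,nat_lit 0x10001,nat_lit 0x4000001],
    .r (nat_lit 0x1bfd) (nat_lit 4) [nat_lit 0x10001,nat_lit 0x6200042,nat_lit 0x4000001],.c (nat_lit 4) (nat_lit 2),
    .r (nat_lit 0xd9f) (nat_lit 9) [nat_lit 0x18060001,nat_lit 129,nat_lit 0x68001,nat_lit 0x1a73b0a1],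
    .r (nat_lit 0xd6a) (nat_lit 2) [nat_lit 0x20001,nat_lit 0x200001,nat_lit 0x8000001,nat_lit 65],
    .r (nat_lit 0x1add) (nat_lit 4) [nat_lit 0x10001,nat_lit 0x4000001,nat_lit 65],
    .r (nat_lit 0x1bfd) (nat_lit 4) [nat_lit 0x10001,nat_lit 0x6018861,nat_lit 0x4000001],
    .c (nat_lit 0) (nat_lit 0x518c85),.c (nat_lit 0) (nat_lit 0x518c85),
    .r (nat_lit 0x1b8b) (nat_lit 4) [nat_lit 0x10001,nat_lit 0x6018861,nat_lit 0x4000001],
    .c (nat_lit 2) (nat_lit 0x210862),.c (nat_lit 5) (nat_lit 2),.r (nat_lit 0x1b61) (nat_lit 4) [nat_lit 0x10001,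
    nat_lit 0x200062,nat_lit 0x4000001],.r (nat_lit 0x1cc8) (nat_lit 0) [nat_lit 65,nat_lit 0x8000061,
    nat_lit 0x20041],.r (nat_lit 0x1750) (nat_lit 6) [nat_lit 65,nat_lit 0x4010001],
    .r (nat_lit 0x1bb5) (nat_lit 5) [nat_lit 0x10001,nat_lit 65,nat_lit 0x4000001],
    .r (nat_lit 0x1750) (nat_lit 1) [nat_lit 0x10041,nat_lit 0x4000001],.c (nat_lit 6) (nat_lit 2),
    .c (nat_lit 0) (nat_lit 0x519485),.c (nat_lit 7) (nat_lit 2)]]

/-- nodes -/
noncomputable def rD7k_24_24 : List RJ :=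
  [.l (nat_lit 14) (nat_lit 0xb40) (nat_lit 4) (nat_lit 0x39d00000421000004de000004de000004b3000004b3000004b9000004b90000041d0000041d000004b3000004b30000041d0000041d) (nat_lit 0xbd0000014100000000000000000000002b0000002b0000002500000025000000c1000000c10000002b0000002b000000c1000000c1)
    (nat_lit 0xf982fe0e7439d09e82d00de03780b102860dc83720b702dc11703e610844210bc034611183fc0d8024010d040e0d80360108439d16383e612cc4b317645bf10143d312cc4b30c5c3df108439d137858e11a44b316045670e1c3d312cc4b312fc29b0d182d012cc4b30f6848813604d80fc832a182851e0fc83f20bc027a11a44b312203da120848e10f03f218885360fc84ba0ff0378159c5bf12384d812504940d284040f1844413c025e111837816045d912084d80fc84940fe03f810103ec11383e009002860f4c3d30fc832a0fe04040ff83fe10283f20d703e60d802c40e1c40510f03f20fe034a10903fe0d403f20d70424103837212cc4b314d851e0fb04440fc83f20f003c0102849410d037212cc4b3188860a10103c60d4040a12203c00fc83f20d802dc0a6c3df12e83f20f8025e10903e60fc84940d7035c0d802dc12fc3170fc83f211384f00d7035c0fc840a0ae835c)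
    (nat_lit 0xf98b402d00b402d00b402d00b402d00b402d00b402d00b400bf83e62d00b402d00b402d00b402d00b402d00b402d00b400e744211638b402d00b402d00b402d00b402d00b402d00b400e744210f9858e2d00b402d00b402d00b402d00b402d00b4009e82f012cc4690f68b402d00b402d00b402d00b402d00b400b4034612cc4b312203da2d00b402d00b402d00b402d00b400de0446176458113604821250b402d00b402d00b402d00b400de03fc16fc567136048e12504942d00b402d00b402d00b400b1036010143870fc843c0d283f80ff8b402d00b402d00b400a182400f4c3d30ca83f210103f80ff83fe2d00b402d00b400dc843412cc4b318286220f1840410283500f00b402d00b400dc840e12cc4b3147853611103ec0fc83f20f003c02d00b400b703600c5c4bf0fc83f213c044e0d7035c10283f20d70b400b703600f7c29b0fc84ba09783e00f9842412503f20d7035c)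
    (nat_lit 4) (nat_lit 81)
    [[nat_lit 2,nat_lit 3,nat_lit 258,nat_lit 0x1002,nat_lit 0x100002,nat_lit 0x1000002,nat_lit 17,nat_lit 0x1011,
    nat_lit 0x1000011,nat_lit 257,nat_lit 0x1101,nat_lit 0x100101,nat_lit 0x1000101,nat_lit 0x1001,nat_lit 0x1001001,
    nat_lit 0x10001,nat_lit 0x11001,nat_lit 0x1010001,nat_lit 0x100001,nat_lit 0x101001,nat_lit 0x1100001,
    nat_lit 0x1000001,nat_lit 0x2000001],[nat_lit 32,nat_lit 288,nat_lit 272,nat_lit 0x1000110,nat_lit 0x1010,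
    nat_lit 0x100010,nat_lit 0x1000010],[nat_lit 512,nat_lit 0x1000200,nat_lit 0x1100,nat_lit 0x11100,
    nat_lit 0x1001100,nat_lit 0x10100,nat_lit 0x1010100,nat_lit 0x100100,nat_lit 0x1100100,nat_lit 0x1000100,
    nat_lit 0x2000200,nat_lit 0x2010100,nat_lit 0x2000100],[nat_lit 0x2000,nat_lit 0x11000,nat_lit 0x1001000],
    [nat_lit 0x20000,nat_lit 0x1020000,nat_lit 0x110000,nat_lit 0x1010000,nat_lit 0x2010000],[nat_lit 0x200000,
    nat_lit 0x1100000],[nat_lit 0x2000000]]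
    [.c (nat_lit 1) (nat_lit 2),.r (nat_lit 0x1c92) (nat_lit 13) [nat_lit 0x22031,nat_lit 0x200001,nat_lit 0x3021],
    .c (nat_lit 0) (nat_lit 0x53245),.r (nat_lit 0x19a2) (nat_lit 3) [nat_lit 0x33021,nat_lit 0x20001,
    nat_lit 0x222031],.r (nat_lit 0x1add) (nat_lit 13) [nat_lit 0x22031,nat_lit 0x200001,nat_lit 0x3021],
    .c (nat_lit 0) (nat_lit 0x55043),.c (nat_lit 0) (nat_lit 0x2203),.r (nat_lit 0x1174) (nat_lit 7) [nat_lit 0x40001,
    nat_lit 0x422051,nat_lit 0x573401,nat_lit 0x22001],.r (nat_lit 0x1ba5) (nat_lit 0) [nat_lit 0x200001,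
    nat_lit 0x20031,nat_lit 0x330201],.c (nat_lit 0) (nat_lit 0x33023),
    .r (nat_lit 0x19b4) (nat_lit 11) [nat_lit 0x30231,nat_lit 0x220321,nat_lit 0x20001],
    .r (nat_lit 0x1b5a) (nat_lit 4) [nat_lit 0x30231,nat_lit 0x220321,nat_lit 0x2001,nat_lit 0x20001],
    .c (nat_lit 0) (nat_lit 0x33023),.r (nat_lit 0) (nat_lit 5) [nat_lit 33,nat_lit 0x20001],
    .r (nat_lit 32) (nat_lit 6) [nat_lit 0x30231,nat_lit 0x20001],.r (nat_lit 0x1c92) (nat_lit 13) [nat_lit 0x20031,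
    nat_lit 0x200001,nat_lit 33],.r (nat_lit 0x1bcf) (nat_lit 5) [nat_lit 0x200001,nat_lit 0x20001,nat_lit 33],
    .r (nat_lit 0x1972) (nat_lit 13) [nat_lit 0x200001,nat_lit 0x20031,nat_lit 0x330201],
    .r (nat_lit 0x1174) (nat_lit 7) [nat_lit 0x40001,nat_lit 0x33041,nat_lit 0x573401,nat_lit 0x22001],
    .c (nat_lit 0) (nat_lit 0x30002),.r (nat_lit 0x174e) (nat_lit 13) [nat_lit 0x30231,nat_lit 0x20001],
    .c (nat_lit 0) (nat_lit 0x33023),.c (nat_lit 0) (nat_lit 0x55043),.c (nat_lit 2) (nat_lit 2),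
    .r (nat_lit 0x119f) (nat_lit 6) [nat_lit 0xa00001,nat_lit 0x9d5821,nat_lit 0x462541,nat_lit 0x324231],
    .r (nat_lit 0x1bc4) (nat_lit 9) [nat_lit 33,nat_lit 0x22031,nat_lit 0x200001],
    .r (nat_lit 0x174c) (nat_lit 9) [nat_lit 0x200001,nat_lit 0x22001,nat_lit 0x533431],
    .r (nat_lit 0x1add) (nat_lit 13) [nat_lit 0x300021,nat_lit 0x200001,nat_lit 0x220031],
    .r (nat_lit 0x19a2) (nat_lit 3) [nat_lit 0x200031,nat_lit 0x20001,nat_lit 33],
    .r (nat_lit 0x1bc5) (nat_lit 1) [nat_lit 0x30021,nat_lit 0x2001,nat_lit 0x20001,nat_lit 0x200001],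
    .c (nat_lit 3) (nat_lit 2),.c (nat_lit 0) (nat_lit 0x55043),.r (nat_lit 0x174f) (nat_lit 13) [nat_lit 0x20001,
    nat_lit 33],.r (nat_lit 0x1b7d) (nat_lit 0) [nat_lit 0x200001,nat_lit 0x330201,nat_lit 0x20321],
    .r (nat_lit 0x19ba) (nat_lit 7) [nat_lit 0x442541,nat_lit 0x20001,nat_lit 0x2001,nat_lit 0x53451],
    .c (nat_lit 0) (nat_lit 0x55343),.c (nat_lit 1) (nat_lit 0x22232),.r (nat_lit 0) (nat_lit 1) [nat_lit 0x20001,
    nat_lit 33],.r (nat_lit 32) (nat_lit 9) [nat_lit 0x30231,nat_lit 0x20001],.c (nat_lit 0) (nat_lit 0x33023),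
    .c (nat_lit 0) (nat_lit 0x55043),.c (nat_lit 0) (nat_lit 0x55343),.c (nat_lit 0) (nat_lit 0x55043),
    .c (nat_lit 4) (nat_lit 2),.r (nat_lit 0x19a2) (nat_lit 3) [nat_lit 0x30021,nat_lit 0x20001,nat_lit 0x220031],
    .r (nat_lit 0x1af7) (nat_lit 3) [nat_lit 0x20001,nat_lit 0x220321,nat_lit 0x30231],.c (nat_lit 5) (nat_lit 2),
    .r (nat_lit 0x1cb1) (nat_lit 6) [nat_lit 0x200001,nat_lit 0x224321,nat_lit 0x442541,nat_lit 0x995831],
    .r (nat_lit 0x1add) (nat_lit 13) [nat_lit 0x20031,nat_lit 0x200001,nat_lit 33],.c (nat_lit 0) (nat_lit 0x55343),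
    .c (nat_lit 0) (nat_lit 0x55343),.c (nat_lit 6) (nat_lit 2),.r (nat_lit 0x1b04) (nat_lit 11) [nat_lit 33,
    nat_lit 0x20001],.c (nat_lit 7) (nat_lit 2)],
    .l (nat_lit 11) (nat_lit 480) (nat_lit 3) (nat_lit 0xb7000000b7000000b7000000b7000000ce000000ce000000c2000000c2000000bc000000bc000000b7000000b7000000b7000000b7) (nat_lit 0x1700000017000000170000001700000000000000000000000c0000000c000000120000001200000017000000170000001700000017)
    (nat_lit 0x140280500a016e2dc558ab14a314500a0140280500a0140280448b715629c52871140280500a0140280500a01762dc6f8d914a294500a0140280500a01402806d8b720e404628a5140280500a016e2dc5b8b70f03386109e1781805b89716e2dc448b71b62ec67078194308590a41b636c5b8b714e2ac808d9184278670b61182a0558b515621c558ab20e37c650c216c338580b015622c458ab0e2314528a5148180580a81942a8528a514a294528a518a294590bc160230550ca14a2945289b140280500a01b625c458b514a294550a0140280500a01402806d8b71562ac528a51402a8500a0140280500a016e2dc55887136294500a0140280500a01402805b8b71162ac528a5140280500a0)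
    (nat_lit 0x140780f01e03c0780f01e03c0780f01e03c0780500a03c0780f01e03c0780f01e03c0780f01e0140280501e03c0780f01e03c0780f01e03c0780500a0140280f01e03c0780f01e03c0780f01e016e2245d8db0f0780f01e03c0780f01e03c07805b8b716e2dc670783c0780f01e03c0780f01e01562ac6f907184328671e03c0780f01e03c0780558a71b24044f0c216c338f01e03c0780f01e014a294528c51782c8460b0194780f01e03c07806287114a294300a41502c0550ca3c0780f01e0140280500a016e36c558ab14a294551e03c0780500a01402804b8db16a22c528a51402a8f01e0140280500a016e2dc5588b14a294500a0140780500a01402805b8b710e2ac5289b140280500a0)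
    (nat_lit 5) (nat_lit 43)
    [[nat_lit 2,nat_lit 0x1002,nat_lit 17,nat_lit 0x1011,nat_lit 257,nat_lit 0x1101,nat_lit 0x10101,nat_lit 0x1000101,
    nat_lit 0x1001,nat_lit 0x1001001,nat_lit 0x10001,nat_lit 0x100001,nat_lit 0x1000001],[nat_lit 32,nat_lit 272,
    nat_lit 0x1110,nat_lit 0x1000110,nat_lit 0x1010,nat_lit 0x10010,nat_lit 0x100010,nat_lit 0x1000010,
    nat_lit 0x1001010,nat_lit 0x1010010],[nat_lit 512,nat_lit 0x10200,nat_lit 0x1100,nat_lit 0x11100,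
    nat_lit 0x1001100,nat_lit 0x10100,nat_lit 0x20100,nat_lit 0x1010100,nat_lit 0x100100,nat_lit 0x1100100,
    nat_lit 0x1000100,nat_lit 0x2000100],[nat_lit 0x2000,nat_lit 0x11000,nat_lit 0x1001000,nat_lit 0x1011000],
    [nat_lit 0x20000,nat_lit 0x30000,nat_lit 0x1020000,nat_lit 0x110000,nat_lit 0x1010000],[nat_lit 0x200000,
    nat_lit 0x1100000],[nat_lit 0x2000000]]
    [.c (nat_lit 1) (nat_lit 2),.r (nat_lit 0x1c71) (nat_lit 9) [nat_lit 0x4200061,nat_lit 65,nat_lit 0x10001],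
    .c (nat_lit 0) (nat_lit 0x210003),.c (nat_lit 0) (nat_lit 0x329442),.c (nat_lit 0) (nat_lit 0x19443),
    .c (nat_lit 4) (nat_lit 0x11062),.r (nat_lit 0x174d) (nat_lit 3) [nat_lit 0x18861,nat_lit 0x220c41],
    .r (nat_lit 0x1c22) (nat_lit 4) [nat_lit 0x318861,nat_lit 0x220c41,nat_lit 0x4210c01],
    .r (nat_lit 0x1caf) (nat_lit 5) [nat_lit 65,nat_lit 0x318861],.r (nat_lit 0x1cae) (nat_lit 11) [nat_lit 0x4200001,
    nat_lit 0x10061,nat_lit 65],.r (nat_lit 0x1caf) (nat_lit 10) [nat_lit 65,nat_lit 0x318861],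
    .c (nat_lit 0) (nat_lit 0x18c43),.r (nat_lit 0x1bec) (nat_lit 2) [nat_lit 65,nat_lit 0x10001],
    .c (nat_lit 2) (nat_lit 2),.r (nat_lit 0x1bec) (nat_lit 8) [nat_lit 65,nat_lit 0x10001],
    .r (nat_lit 0x1161) (nat_lit 10) [nat_lit 0x4641481,nat_lit 0x62010a1,nat_lit 0x67010a1,nat_lit 0x8400001],
    .r (nat_lit 0x174c) (nat_lit 9) [nat_lit 0x10001,nat_lit 0x4200001,nat_lit 0x6329061],
    .r (nat_lit 0x1bb5) (nat_lit 12) [nat_lit 0x10061,nat_lit 0x4200001,nat_lit 65],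
    .r (nat_lit 0x1ccb) (nat_lit 4) [nat_lit 0x4200061,nat_lit 65,nat_lit 0x10001],
    .r (nat_lit 0x1c71) (nat_lit 9) [nat_lit 0x18041,nat_lit 0x4210061,nat_lit 0x10001],
    .r (nat_lit 8) (nat_lit 13) [nat_lit 0x210061,nat_lit 65],.c (nat_lit 5) (nat_lit 0x10803),
    .c (nat_lit 4) (nat_lit 0x10803),.c (nat_lit 3) (nat_lit 2),.r (nat_lit 0x1162) (nat_lit 2) [nat_lit 0x4200001,
    nat_lit 65,nat_lit 0x4641441,nat_lit 0x6729061],.r (nat_lit 0x1c26) (nat_lit 11) [nat_lit 0x10061,nat_lit 65,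
    nat_lit 0x4200001],.r (nat_lit 0x188a) (nat_lit 8) [nat_lit 0x4200001,nat_lit 0x318041,nat_lit 0x4221481,
    nat_lit 0x63010a1],.r (nat_lit 0x1a51) (nat_lit 1) [nat_lit 0x10001,nat_lit 0x4200c41,nat_lit 0x4401481,
    nat_lit 0x6519061],.c (nat_lit 0) (nat_lit 0x319485),.r (nat_lit 0x1163) (nat_lit 0) [nat_lit 0x30001,
    nat_lit 0x8200c41,nat_lit 0x62010a1,nat_lit 0xa96a061],.c (nat_lit 1) (nat_lit 0x210862),
    .c (nat_lit 0) (nat_lit 0x18c43),.r (nat_lit 0x1c62) (nat_lit 0) [nat_lit 0x10001,nat_lit 0x65290a1,nat_lit 65],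
    .c (nat_lit 0) (nat_lit 0x319485),.r (nat_lit 0x1888) (nat_lit 1) [nat_lit 0x10001,nat_lit 0x4421481,
    nat_lit 0x8210c41,nat_lit 0x62290a1],.c (nat_lit 4) (nat_lit 2),.r (nat_lit 0x174d) (nat_lit 3) [nat_lit 0x210061,
    nat_lit 65],.r (nat_lit 0x1c22) (nat_lit 4) [nat_lit 0x10061,nat_lit 65,nat_lit 0x4210c01],
    .c (nat_lit 2) (nat_lit 0x10803),.c (nat_lit 5) (nat_lit 2),.r (nat_lit 0x1164) (nat_lit 0) [nat_lit 0x60001,
    nat_lit 0xc038041,nat_lit 0xc600a1,nat_lit 0xed9b061],.r (nat_lit 0x1165) (nat_lit 10) [nat_lit 0x40001,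
    nat_lit 129,nat_lit 0x8000041,nat_lit 0x8000a1],.r (nat_lit 0x1cb9) (nat_lit 4) [nat_lit 0x10001,nat_lit 65,
    nat_lit 0x4210c41],.c (nat_lit 0) (nat_lit 0x319485),.c (nat_lit 6) (nat_lit 2),
    .r (nat_lit 0x1c31) (nat_lit 2) [nat_lit 0x210c41,nat_lit 0x220c01,nat_lit 0x318801],.c (nat_lit 7) (nat_lit 2)],
    .l (nat_lit 12) (nat_lit 720) (nat_lit 3) (nat_lit 0x125000001250000012000000104000001080000010800000100000001100000011a0000011e000000ee000001260000011a0000011a) (nat_lit 0x10000000100000022000000060000001e0000001e0000001600000026000000080000000c00000000000000380000000c0000000c)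
    (nat_lit 0xfe12410311f0f310710f0ff11d0cb17f14b1191191240fe10311f0f50e10e90ed11d11918515111915311f11f12411a11410210a10c0b413a0e60e813a0b41031030e21240d20e61140ca1100f80ca0ba0f80d40e11070e61020fe0ea0f20f61120d612c0bc0fc1360f50f30d21140ea0fe1060e210c0e81180d00fc1480ed0ff0ca10c0e20f60fe0da0f80e00b40bc1080e40e910f11410a1060f20fa0fe11a1040b60c41521141190cb0f813a0e80d61040e012610e10a0d010e16811d11d1100b410c11211a0f811212612e0e60b411015114b0ba0e80d00bc0c40bc0e60d00f00ba0e20d218517f0ca0e611812c0b60b412e10a1260f011a11a1531190d40b41481361140e411016811a0d20b410e1191190f813a0fc0fc1521080b410e11a0e210e0b4)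
    (nat_lit 0xfe2d02d02d02d02d02d02d02d02d02d02d02d02d01240fe2d02d02d02d02d02d02d02d02d02d02d02d01031031242d02d02d02d02d02d02d02d02d02d02d011f11f11a1242d02d02d02d02d02d02d02d02d02d00f30f51140d20fe2d02d02d02d02d02d02d02d02d01070e11020e60ea0fe2d02d02d02d02d02d02d02d010f0e910a1140f21060fe2d02d02d02d02d02d02d00ff0ed10c0ca0f60e20da0fe2d02d02d02d02d02d011d11d0b411011210c0f811a1262d02d02d02d02d00cb11913a0f80d60e80e010410e1262d02d02d02d017f1850e60ca12c1180b40b610a12e0f02d02d02d014b1510e80ba0bc0d00bc0c40d00e60ba0f02d02d011911913a0f80fc0fc10815210e0b40e211a0b42d01191530b40d41361480e41141681100d211a10e0b4)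
    (nat_lit 5) (nat_lit 43)
    [[nat_lit 2,nat_lit 3,nat_lit 18,nat_lit 0x100002,nat_lit 17,nat_lit 0x1011,nat_lit 0x100011,nat_lit 257,
    nat_lit 0x100101,nat_lit 273,nat_lit 0x1101,nat_lit 0x1001,nat_lit 0x10001,nat_lit 0x110001,nat_lit 0x100001,
    nat_lit 0x1000001],[nat_lit 32,nat_lit 0x1020,nat_lit 0x10020,nat_lit 0x100020,nat_lit 272,nat_lit 0x1110,
    nat_lit 0x100110,nat_lit 0x1010,nat_lit 0x2010,nat_lit 0x11010,nat_lit 0x101010,nat_lit 0x10010,nat_lit 0x100010,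
    nat_lit 0x110010,nat_lit 0x200010],[nat_lit 512,nat_lit 0x1100,nat_lit 0x1001100,nat_lit 0x10100,
    nat_lit 0x1010100,nat_lit 0x100100,nat_lit 0x101100,nat_lit 0x110100,nat_lit 0x1100100,nat_lit 0x1000100],
    [nat_lit 0x2000,nat_lit 0x11000,nat_lit 0x101000,nat_lit 0x1001000],[nat_lit 0x20000,nat_lit 0x110000,
    nat_lit 0x1010000],[nat_lit 0x200000,nat_lit 0x1100000],[nat_lit 0x2000000]]
    [.c (nat_lit 1) (nat_lit 2),.r (nat_lit 0x18f3) (nat_lit 3) [nat_lit 0xc600122,nat_lit 0xe000101,nat_lit 65,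
    nat_lit 0x43290a2],.r (nat_lit 0x1b36) (nat_lit 3) [nat_lit 0x42000a2,nat_lit 0x6000081,nat_lit 0x10001],
    .r (nat_lit 0x118d) (nat_lit 10) [nat_lit 0x400001,nat_lit 0xa000101,nat_lit 0x40001,nat_lit 0x4000001],
    .r (nat_lit 0x1cb9) (nat_lit 3) [nat_lit 0x10001,nat_lit 65,nat_lit 0x210c41],
    .r (nat_lit 0x1bb9) (nat_lit 1) [nat_lit 0x4240122,nat_lit 0x4200002,nat_lit 0x6300102],
    .r (nat_lit 0x118e) (nat_lit 1) [nat_lit 0x654a001,nat_lit 0x4a42402,nat_lit 0x6221582,nat_lit 0x4329002],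
    .c (nat_lit 0) (nat_lit 0x19485),.c (nat_lit 4) (nat_lit 0x10862),
    .r (nat_lit 0x118f) (nat_lit 9) [nat_lit 0x6048101,nat_lit 0x400001,nat_lit 0x502121,nat_lit 0x4000001],
    .r (nat_lit 0x1190) (nat_lit 12) [nat_lit 0x40001,nat_lit 0x65188c1,nat_lit 0x421481,nat_lit 0x4a121],
    .c (nat_lit 0) (nat_lit 0x210005),.r (nat_lit 0x1ccb) (nat_lit 3) [nat_lit 0x200061,nat_lit 65,nat_lit 0x10001],
    .r (nat_lit 0x11b5) (nat_lit 12) [nat_lit 0x50001,nat_lit 0x6bad1a2,nat_lit 0x4a00122,nat_lit 0x6000101],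
    .c (nat_lit 0) (nat_lit 0x19485),.r (nat_lit 0x1bb9) (nat_lit 1) [nat_lit 0x6300102,nat_lit 0x4200002,
    nat_lit 0x4240122],.c (nat_lit 2) (nat_lit 2),.r (nat_lit 0x1bb9) (nat_lit 1) [nat_lit 0x20061,nat_lit 0x4200002,
    nat_lit 65],.r (nat_lit 0x1b36) (nat_lit 3) [nat_lit 0x200062,nat_lit 65,nat_lit 0x10001],
    .r (nat_lit 0x1191) (nat_lit 4) [nat_lit 0x600e1,nat_lit 0xa98c001,nat_lit 0x4a42401,nat_lit 193],
    .r (nat_lit 0x1a22) (nat_lit 4) [nat_lit 0x18041,nat_lit 0x10001,nat_lit 0x4201482],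
    .r (nat_lit 0x1194) (nat_lit 12) [nat_lit 0x40001,nat_lit 0x548101,nat_lit 0x400001,nat_lit 0x6002121],
    .r (nat_lit 0x1193) (nat_lit 12) [nat_lit 0x4442501,nat_lit 0x400001,nat_lit 0x654a001,nat_lit 0x6502121],
    .r (nat_lit 0x1cc8) (nat_lit 7) [nat_lit 0x200001,nat_lit 0x300081,nat_lit 0x2200a1],
    .r (nat_lit 0x1bb5) (nat_lit 7) [nat_lit 0x300041,nat_lit 0x200001,nat_lit 0x210061],
    .r (nat_lit 0x1b36) (nat_lit 3) [nat_lit 0x200061,nat_lit 0x300081,nat_lit 0x10001],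
    .r (nat_lit 0x1ccc) (nat_lit 3) [nat_lit 0x10001,nat_lit 0x18861,nat_lit 0x210c41],
    .r (nat_lit 0x1c71) (nat_lit 0) [nat_lit 0x18041,nat_lit 0x210061,nat_lit 0x10001],
    .r (nat_lit 0x1cb8) (nat_lit 12) [nat_lit 0x10001,nat_lit 65,nat_lit 0x200001],
    .r (nat_lit 0x1195) (nat_lit 8) [nat_lit 0x40001,nat_lit 0x4018041,nat_lit 0x48101,nat_lit 0x4200a1],
    .r (nat_lit 0x1169) (nat_lit 4) [nat_lit 0x40001,nat_lit 129,nat_lit 0x400001,nat_lit 0x654a0a1],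
    .c (nat_lit 3) (nat_lit 2),.r (nat_lit 0x1bec) (nat_lit 10) [nat_lit 65,nat_lit 0x10001],
    .r (nat_lit 0x107d) (nat_lit 9) [nat_lit 0x6b4a182,nat_lit 0x4a42502,nat_lit 0x604a121,nat_lit 0x4018861],
    .c (nat_lit 0) (nat_lit 0x32a507),.r (nat_lit 0x1187) (nat_lit 11) [nat_lit 0x40001,nat_lit 0x4018041,
    nat_lit 0x4200a1,nat_lit 0x48101],.c (nat_lit 0) (nat_lit 0x32a509),
    .r (nat_lit 0x1875) (nat_lit 0) [nat_lit 0x604a121,nat_lit 0x4018861,nat_lit 0x4a42502,nat_lit 0x10001],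
    .c (nat_lit 1) (nat_lit 0x2110a4),.r (nat_lit 0x1197) (nat_lit 3) [nat_lit 0x6502121,nat_lit 0x4000001,
    nat_lit 0x4442501,nat_lit 0x654a001],.r (nat_lit 0x1114) (nat_lit 1) [nat_lit 0x6502121,nat_lit 0x400001,
    nat_lit 0x48101,nat_lit 0x4000001],.c (nat_lit 4) (nat_lit 2),.c (nat_lit 1) (nat_lit 0x218004),
    .r (nat_lit 0x188b) (nat_lit 4) [nat_lit 0x42000a2,nat_lit 0x10001,nat_lit 65,nat_lit 0x2000a1],
    .r (nat_lit 0x1b36) (nat_lit 3) [nat_lit 0x18041,nat_lit 0x2200a1,nat_lit 0x10001],.c (nat_lit 5) (nat_lit 2),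
    .c (nat_lit 0) (nat_lit 0x32a507),.r (nat_lit 0x1bb5) (nat_lit 7) [nat_lit 0x10061,nat_lit 0x200001,nat_lit 65],
    .c (nat_lit 6) (nat_lit 2),.r (nat_lit 0x1c26) (nat_lit 9) [nat_lit 0x10061,nat_lit 65,nat_lit 0x200001],
    .c (nat_lit 7) (nat_lit 2)]]

/-- nodes -/
noncomputable def rD7k_24_25 : List RJ :=
  [.s (nat_lit 14) (nat_lit 0xa00) (nat_lit 4) (nat_lit 0x52400000524000004a8000004a80000048000000480000003cc000003cc000003fc000003fc000003fc000003fc0000057800000578) (nat_lit 0x5400000054000000d0000000d0000000f8000000f8000001ac000001ac0000017c0000017c0000017c0000017c0000000000000000)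
    (nat_lit 0x10804d0115045410b04f410204080ea03780ea03a814904f41340420115045413f05c410804200e403a808c03a814904dc115045409003d80c203b00bf022c0cb02840dd0344156062011504540f602400e603b00d503540cb031411904340f804a817104f40ec03b00cc03880bb02ec07f02ac0c10304120034813f042c0e603080e203300b502d40d303040c103040fc049810804080d5022c0b502ec0880220094025008e02080f303cc10804080d502fc0b502ec0880220094025008e02380ff03cc0ea03780c502840c102ac09402500a602800a002800db04140e403a80cb032c0d301fc09402500a002980a002800ff03fc0ea03a810d03440c1030408e02080a002800a002800ff03fc08c03a811903740c1030408e02380a002800a0028010b03fc13704f412a062012603480f303cc0ff04140ff03fc15e057814905240f805580fc04800ff03cc0ff036c10b03fc15e0578)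
    (nat_lit 0x1080a002800a002800a002800a002800a002800a002800a0013404202800a002800a002800a002800a002800a002800a0011504540900a002800a002800a002800a002800a002800a0011504540f602402800a002800a002800a002800a002800a0010b04fc0c203980cc0a002800a002800a002800a002800a0013d05c40ec03b00e203302800a002800a002800a002800a0010204200bf03540bb02d40880a002800a002800a002800a00102042008b03540bb02d408802202800a002800a002800a000ea03900cb032c07f034c09402500a60a002800a002800a000de03a80a103140ab030409402500a002982800a002800a000ea02300dd04640c1030408e02380a002800a00a002800a000ea03a80d104340c1030408202380a002800a002802800a00149052415603e012003f00f303fc0db03fc0ff042c15e0a0013d04dc17e04a80d204980f303cc10503fc0ff03fc15e0578)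
    (nat_lit 5) (nat_lit 147)
    [[nat_lit 0,nat_lit 2,nat_lit 4],[nat_lit 0,nat_lit 2,nat_lit 5],[nat_lit 0,nat_lit 3,nat_lit 5],[nat_lit 0,
    nat_lit 4,nat_lit 2],[nat_lit 0,nat_lit 4,nat_lit 3],[nat_lit 0,nat_lit 6,nat_lit 8],[nat_lit 0,nat_lit 6,
    nat_lit 9],[nat_lit 0,nat_lit 7,nat_lit 8],[nat_lit 0,nat_lit 7,nat_lit 9],[nat_lit 0,nat_lit 8,nat_lit 7],
    [nat_lit 1,nat_lit 2,nat_lit 5],[nat_lit 1,nat_lit 3,nat_lit 5],[nat_lit 1,nat_lit 4,nat_lit 2],[nat_lit 1,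
    nat_lit 4,nat_lit 3],[nat_lit 1,nat_lit 5,nat_lit 3],[nat_lit 1,nat_lit 6,nat_lit 9],[nat_lit 1,nat_lit 8,
    nat_lit 6],[nat_lit 1,nat_lit 8,nat_lit 7],[nat_lit 1,nat_lit 9,nat_lit 6],[nat_lit 1,nat_lit 9,nat_lit 7],
    [nat_lit 2,nat_lit 10,nat_lit 10],[nat_lit 2,nat_lit 10,nat_lit 11],[nat_lit 2,nat_lit 11,nat_lit 11],[nat_lit 3,
    nat_lit 10,nat_lit 10],[nat_lit 3,nat_lit 10,nat_lit 11],[nat_lit 3,nat_lit 11,nat_lit 11],[nat_lit 4,nat_lit 6,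
    nat_lit 13],[nat_lit 4,nat_lit 7,nat_lit 13],[nat_lit 4,nat_lit 12,nat_lit 6],[nat_lit 4,nat_lit 12,nat_lit 7],
    [nat_lit 4,nat_lit 13,nat_lit 6],[nat_lit 4,nat_lit 13,nat_lit 7],[nat_lit 5,nat_lit 6,nat_lit 12],[nat_lit 5,
    nat_lit 6,nat_lit 13],[nat_lit 5,nat_lit 7,nat_lit 12],[nat_lit 5,nat_lit 7,nat_lit 13],[nat_lit 5,nat_lit 12,
    nat_lit 6],[nat_lit 5,nat_lit 12,nat_lit 7],[nat_lit 6,nat_lit 6,nat_lit 11,nat_lit 11],[nat_lit 6,nat_lit 7,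
    nat_lit 10,nat_lit 10],[nat_lit 6,nat_lit 7,nat_lit 10,nat_lit 11],[nat_lit 6,nat_lit 7,nat_lit 11,nat_lit 11],
    [nat_lit 6,nat_lit 11,nat_lit 6,nat_lit 11],[nat_lit 6,nat_lit 11,nat_lit 11,nat_lit 6],[nat_lit 7,nat_lit 7,
    nat_lit 10,nat_lit 10],[nat_lit 7,nat_lit 10,nat_lit 7,nat_lit 10],[nat_lit 7,nat_lit 10,nat_lit 10,nat_lit 7],
    [nat_lit 8,nat_lit 12],[nat_lit 8,nat_lit 13],[nat_lit 9,nat_lit 12],[nat_lit 9,nat_lit 13]]
    [nat_lit 0x1024,nat_lit 0x1025,nat_lit 0x1035,nat_lit 0x1042,nat_lit 0x1043,nat_lit 0x1068,nat_lit 0x1069,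
    nat_lit 0x1078,nat_lit 0x1079,nat_lit 0x1087,nat_lit 0x1125,nat_lit 0x1135,nat_lit 0x1142,nat_lit 0x1143,
    nat_lit 0x1153,nat_lit 0x1169,nat_lit 0x1186,nat_lit 0x1187,nat_lit 0x1196,nat_lit 0x1197,nat_lit 0x12aa,
    nat_lit 0x12ab,nat_lit 0x12bb,nat_lit 0x13aa,nat_lit 0x13ab,nat_lit 0x13bb,nat_lit 0x146d,nat_lit 0x147d,
    nat_lit 0x14c6,nat_lit 0x14c7,nat_lit 0x14d6,nat_lit 0x14d7,nat_lit 0x156c,nat_lit 0x156d,nat_lit 0x157c,
    nat_lit 0x157d,nat_lit 0x15c6,nat_lit 0x15c7,nat_lit 0x166bb,nat_lit 0x167aa,nat_lit 0x167ab,nat_lit 0x167bb,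
    nat_lit 0x16b6b,nat_lit 0x16bb6,nat_lit 0x177aa,nat_lit 0x17a7a,nat_lit 0x17aa7,nat_lit 396,nat_lit 397,
    nat_lit 412,nat_lit 413]
    [[[nat_lit 0,nat_lit 2,nat_lit 4],[nat_lit 0,nat_lit 2,nat_lit 5],[nat_lit 0,nat_lit 3,nat_lit 5],[nat_lit 0,
    nat_lit 4,nat_lit 2],[nat_lit 0,nat_lit 4,nat_lit 3],[nat_lit 0,nat_lit 6,nat_lit 8],[nat_lit 0,nat_lit 6,
    nat_lit 9],[nat_lit 0,nat_lit 7,nat_lit 8],[nat_lit 0,nat_lit 7,nat_lit 9],[nat_lit 0,nat_lit 8,nat_lit 7],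
    [nat_lit 1,nat_lit 2,nat_lit 5],[nat_lit 1,nat_lit 3,nat_lit 5]],[[nat_lit 1,nat_lit 4,nat_lit 2],[nat_lit 1,
    nat_lit 4,nat_lit 3],[nat_lit 1,nat_lit 5,nat_lit 3],[nat_lit 1,nat_lit 6,nat_lit 9],[nat_lit 1,nat_lit 8,
    nat_lit 6],[nat_lit 1,nat_lit 8,nat_lit 7],[nat_lit 1,nat_lit 9,nat_lit 6],[nat_lit 1,nat_lit 9,nat_lit 7],
    [nat_lit 2,nat_lit 0,nat_lit 4],[nat_lit 2,nat_lit 1,nat_lit 4],[nat_lit 2,nat_lit 4,nat_lit 0],[nat_lit 2,
    nat_lit 5,nat_lit 0]],[[nat_lit 2,nat_lit 5,nat_lit 1],[nat_lit 2,nat_lit 10,nat_lit 10],[nat_lit 2,nat_lit 10,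
    nat_lit 11],[nat_lit 2,nat_lit 11,nat_lit 11],[nat_lit 3,nat_lit 0,nat_lit 4],[nat_lit 3,nat_lit 1,nat_lit 4],
    [nat_lit 3,nat_lit 1,nat_lit 5],[nat_lit 3,nat_lit 5,nat_lit 0],[nat_lit 3,nat_lit 5,nat_lit 1],[nat_lit 3,
    nat_lit 10,nat_lit 10],[nat_lit 3,nat_lit 10,nat_lit 11],[nat_lit 3,nat_lit 11,nat_lit 11]],[[nat_lit 4,nat_lit 0,
    nat_lit 2],[nat_lit 4,nat_lit 2,nat_lit 0],[nat_lit 4,nat_lit 2,nat_lit 1],[nat_lit 4,nat_lit 3,nat_lit 0],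
    [nat_lit 4,nat_lit 3,nat_lit 1],[nat_lit 4,nat_lit 6,nat_lit 13],[nat_lit 4,nat_lit 7,nat_lit 13],[nat_lit 4,
    nat_lit 12,nat_lit 6],[nat_lit 4,nat_lit 12,nat_lit 7],[nat_lit 4,nat_lit 13,nat_lit 6],[nat_lit 4,nat_lit 13,
    nat_lit 7],[nat_lit 5,nat_lit 0,nat_lit 2]],[[nat_lit 5,nat_lit 0,nat_lit 3],[nat_lit 5,nat_lit 1,nat_lit 2],
    [nat_lit 5,nat_lit 1,nat_lit 3],[nat_lit 5,nat_lit 3,nat_lit 1],[nat_lit 5,nat_lit 6,nat_lit 12],[nat_lit 5,
    nat_lit 6,nat_lit 13],[nat_lit 5,nat_lit 7,nat_lit 12],[nat_lit 5,nat_lit 7,nat_lit 13],[nat_lit 5,nat_lit 12,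
    nat_lit 6],[nat_lit 5,nat_lit 12,nat_lit 7],[nat_lit 6,nat_lit 1,nat_lit 8],[nat_lit 6,nat_lit 1,nat_lit 9]],
    [[nat_lit 6,nat_lit 4,nat_lit 12],[nat_lit 6,nat_lit 4,nat_lit 13],[nat_lit 6,nat_lit 5,nat_lit 12],[nat_lit 6,
    nat_lit 6,nat_lit 11,nat_lit 11],[nat_lit 6,nat_lit 7,nat_lit 10,nat_lit 10],[nat_lit 6,nat_lit 7,nat_lit 10,
    nat_lit 11],[nat_lit 6,nat_lit 7,nat_lit 11,nat_lit 11],[nat_lit 6,nat_lit 8,nat_lit 0],[nat_lit 6,nat_lit 9,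
    nat_lit 0],[nat_lit 6,nat_lit 9,nat_lit 1],[nat_lit 6,nat_lit 11,nat_lit 6,nat_lit 11],[nat_lit 6,nat_lit 11,
    nat_lit 11,nat_lit 6]],[[nat_lit 6,nat_lit 12,nat_lit 5],[nat_lit 6,nat_lit 13,nat_lit 4],[nat_lit 6,nat_lit 13,
    nat_lit 5],[nat_lit 7,nat_lit 0,nat_lit 8],[nat_lit 7,nat_lit 1,nat_lit 8],[nat_lit 7,nat_lit 1,nat_lit 9],
    [nat_lit 7,nat_lit 4,nat_lit 12],[nat_lit 7,nat_lit 4,nat_lit 13],[nat_lit 7,nat_lit 5,nat_lit 12],[nat_lit 7,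
    nat_lit 7,nat_lit 10,nat_lit 10],[nat_lit 7,nat_lit 8,nat_lit 0],[nat_lit 7,nat_lit 9,nat_lit 0]],[[nat_lit 7,
    nat_lit 10,nat_lit 7,nat_lit 10],[nat_lit 7,nat_lit 10,nat_lit 10,nat_lit 6],[nat_lit 7,nat_lit 10,nat_lit 10,
    nat_lit 7],[nat_lit 7,nat_lit 10,nat_lit 11,nat_lit 6],[nat_lit 7,nat_lit 11,nat_lit 11,nat_lit 6],[nat_lit 7,
    nat_lit 12,nat_lit 5],[nat_lit 7,nat_lit 13,nat_lit 4],[nat_lit 7,nat_lit 13,nat_lit 5],[nat_lit 8,nat_lit 0,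
    nat_lit 6],[nat_lit 8,nat_lit 0,nat_lit 7],[nat_lit 8,nat_lit 6,nat_lit 1],[nat_lit 8,nat_lit 7,nat_lit 0]],
    [[nat_lit 8,nat_lit 7,nat_lit 1],[nat_lit 8,nat_lit 12],[nat_lit 8,nat_lit 13],[nat_lit 9,nat_lit 0,nat_lit 6],
    [nat_lit 9,nat_lit 0,nat_lit 7],[nat_lit 9,nat_lit 1,nat_lit 6],[nat_lit 9,nat_lit 6,nat_lit 1],[nat_lit 9,
    nat_lit 7,nat_lit 1],[nat_lit 9,nat_lit 12],[nat_lit 9,nat_lit 13],[nat_lit 10,nat_lit 2,nat_lit 10],[nat_lit 10,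
    nat_lit 3,nat_lit 10]],[[nat_lit 10,nat_lit 6,nat_lit 7,nat_lit 10],[nat_lit 10,nat_lit 7,nat_lit 7,nat_lit 10],
    [nat_lit 10,nat_lit 7,nat_lit 10,nat_lit 7],[nat_lit 10,nat_lit 10,nat_lit 2],[nat_lit 10,nat_lit 10,nat_lit 3],
    [nat_lit 10,nat_lit 10,nat_lit 6,nat_lit 7],[nat_lit 10,nat_lit 10,nat_lit 7,nat_lit 7],[nat_lit 10,nat_lit 11,
    nat_lit 2],[nat_lit 10,nat_lit 11,nat_lit 3],[nat_lit 10,nat_lit 11,nat_lit 6,nat_lit 7],[nat_lit 11,nat_lit 2,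
    nat_lit 10],[nat_lit 11,nat_lit 2,nat_lit 11]],[[nat_lit 11,nat_lit 3,nat_lit 10],[nat_lit 11,nat_lit 3,
    nat_lit 11],[nat_lit 11,nat_lit 6,nat_lit 6,nat_lit 11],[nat_lit 11,nat_lit 6,nat_lit 7,nat_lit 10],[nat_lit 11,
    nat_lit 6,nat_lit 7,nat_lit 11],[nat_lit 11,nat_lit 6,nat_lit 11,nat_lit 6],[nat_lit 11,nat_lit 11,nat_lit 2],
    [nat_lit 11,nat_lit 11,nat_lit 3],[nat_lit 11,nat_lit 11,nat_lit 6,nat_lit 6],[nat_lit 11,nat_lit 11,nat_lit 6,
    nat_lit 7],[nat_lit 12,nat_lit 5,nat_lit 6],[nat_lit 12,nat_lit 5,nat_lit 7]],[[nat_lit 12,nat_lit 6,nat_lit 4],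
    [nat_lit 12,nat_lit 6,nat_lit 5],[nat_lit 12,nat_lit 7,nat_lit 4],[nat_lit 12,nat_lit 7,nat_lit 5],[nat_lit 12,
    nat_lit 8],[nat_lit 12,nat_lit 9],[nat_lit 13,nat_lit 4,nat_lit 6],[nat_lit 13,nat_lit 4,nat_lit 7],[nat_lit 13,
    nat_lit 5,nat_lit 6],[nat_lit 13,nat_lit 5,nat_lit 7],[nat_lit 13,nat_lit 6,nat_lit 4],[nat_lit 13,nat_lit 7,
    nat_lit 4]],[[nat_lit 13,nat_lit 8],[nat_lit 13,nat_lit 9]]]
    [[nat_lit 22,nat_lit 23,nat_lit 31,nat_lit 37,nat_lit 39,nat_lit 67,nat_lit 68,nat_lit 82,nat_lit 83,nat_lit 95,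
    nat_lit 24,nat_lit 32],[nat_lit 38,nat_lit 40,nat_lit 51,nat_lit 69,nat_lit 94,nat_lit 96,nat_lit 102,nat_lit 103,
    nat_lit 3,nat_lit 12,nat_lit 36,nat_lit 47],[nat_lit 49,nat_lit 111,nat_lit 115,nat_lit 126,nat_lit 4,nat_lit 13,
    nat_lit 14,nat_lit 48,nat_lit 50,nat_lit 112,nat_lit 116,nat_lit 127],[nat_lit 0,nat_lit 20,nat_lit 21,nat_lit 28,
    nat_lit 29,nat_lit 73,nat_lit 90,nat_lit 132,nat_lit 134,nat_lit 142,nat_lit 143,nat_lit 1],[nat_lit 2,nat_lit 10,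
    nat_lit 11,nat_lit 30,nat_lit 72,nat_lit 74,nat_lit 89,nat_lit 91,nat_lit 133,nat_lit 135,nat_lit 16,nat_lit 18],
    [nat_lit 43,nat_lit 45,nat_lit 56,nat_lit 71,nat_lit 85,nat_lit 87,nat_lit 88,nat_lit 92,nat_lit 99,nat_lit 101,
    nat_lit 125,nat_lit 128],[nat_lit 130,nat_lit 138,nat_lit 140,nat_lit 9,nat_lit 17,nat_lit 19,nat_lit 44,
    nat_lit 46,nat_lit 57,nat_lit 86,nat_lit 93,nat_lit 100],[nat_lit 110,nat_lit 113,nat_lit 114,nat_lit 117,
    nat_lit 129,nat_lit 131,nat_lit 139,nat_lit 141,nat_lit 5,nat_lit 7,nat_lit 58,nat_lit 75],[nat_lit 76,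
    nat_lit 136,nat_lit 144,nat_lit 6,nat_lit 8,nat_lit 15,nat_lit 59,nat_lit 77,nat_lit 137,nat_lit 145,nat_lit 25,
    nat_lit 33],[nat_lit 64,nat_lit 81,nat_lit 84,nat_lit 106,nat_lit 107,nat_lit 108,nat_lit 109,nat_lit 118,
    nat_lit 120,nat_lit 123,nat_lit 26,nat_lit 27],[nat_lit 34,nat_lit 35,nat_lit 63,nat_lit 65,nat_lit 66,nat_lit 70,
    nat_lit 119,nat_lit 121,nat_lit 122,nat_lit 124,nat_lit 52,nat_lit 54],[nat_lit 60,nat_lit 62,nat_lit 78,
    nat_lit 80,nat_lit 97,nat_lit 104,nat_lit 41,nat_lit 42,nat_lit 53,nat_lit 55,nat_lit 61,nat_lit 79],[nat_lit 98,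
    nat_lit 105]]
    [[nat_lit 36,nat_lit 47,nat_lit 48,nat_lit 20,nat_lit 28,nat_lit 92,nat_lit 99,nat_lit 93,nat_lit 100,nat_lit 75,
    nat_lit 49,nat_lit 50],[nat_lit 21,nat_lit 29,nat_lit 30,nat_lit 101,nat_lit 58,nat_lit 76,nat_lit 59,nat_lit 77,
    nat_lit 37,nat_lit 38,nat_lit 0,nat_lit 1],[nat_lit 10,nat_lit 106,nat_lit 118,nat_lit 119,nat_lit 39,nat_lit 40,
    nat_lit 51,nat_lit 2,nat_lit 11,nat_lit 107,nat_lit 120,nat_lit 121],[nat_lit 22,nat_lit 3,nat_lit 12,nat_lit 4,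
    nat_lit 13,nat_lit 138,nat_lit 139,nat_lit 60,nat_lit 78,nat_lit 61,nat_lit 79,nat_lit 23],[nat_lit 31,nat_lit 24,
    nat_lit 32,nat_lit 14,nat_lit 130,nat_lit 140,nat_lit 131,nat_lit 141,nat_lit 62,nat_lit 80,nat_lit 94,
    nat_lit 102],[nat_lit 132,nat_lit 142,nat_lit 133,nat_lit 122,nat_lit 108,nat_lit 123,nat_lit 124,nat_lit 5,
    nat_lit 6,nat_lit 15,nat_lit 125,nat_lit 63],[nat_lit 52,nat_lit 41,nat_lit 53,nat_lit 95,nat_lit 96,nat_lit 103,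
    nat_lit 134,nat_lit 143,nat_lit 135,nat_lit 109,nat_lit 7,nat_lit 8],[nat_lit 110,nat_lit 64,nat_lit 81,
    nat_lit 65,nat_lit 66,nat_lit 54,nat_lit 42,nat_lit 55,nat_lit 67,nat_lit 82,nat_lit 16,nat_lit 9],[nat_lit 17,
    nat_lit 136,nat_lit 144,nat_lit 68,nat_lit 83,nat_lit 69,nat_lit 18,nat_lit 19,nat_lit 137,nat_lit 145,
    nat_lit 111,nat_lit 112],[nat_lit 113,nat_lit 114,nat_lit 84,nat_lit 25,nat_lit 33,nat_lit 85,nat_lit 86,
    nat_lit 26,nat_lit 34,nat_lit 87,nat_lit 115,nat_lit 126],[nat_lit 116,nat_lit 127,nat_lit 128,nat_lit 117,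
    nat_lit 129,nat_lit 70,nat_lit 27,nat_lit 35,nat_lit 71,nat_lit 88,nat_lit 72,nat_lit 89],[nat_lit 43,nat_lit 56,
    nat_lit 44,nat_lit 57,nat_lit 97,nat_lit 104,nat_lit 73,nat_lit 90,nat_lit 74,nat_lit 91,nat_lit 45,nat_lit 46],
    [nat_lit 98,nat_lit 105]]
    [[[nat_lit 132,nat_lit 134],[nat_lit 132,nat_lit 134],[],[nat_lit 130],[nat_lit 130],[nat_lit 136],[nat_lit 136],
    [nat_lit 133,nat_lit 135],[nat_lit 133,nat_lit 135],[],[nat_lit 28,nat_lit 29],[nat_lit 32]],[[],[],[],[],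
    [nat_lit 33],[nat_lit 33],[],[],[nat_lit 3],[],[],[nat_lit 4]],[[nat_lit 4],[],[],[nat_lit 6,nat_lit 8],
    [nat_lit 47,nat_lit 49],[nat_lit 53,nat_lit 55],[nat_lit 53,nat_lit 55],[nat_lit 48,nat_lit 50],[nat_lit 48,
    nat_lit 50],[nat_lit 52,nat_lit 54],[nat_lit 52,nat_lit 54],[]],[[],[nat_lit 20,nat_lit 21],[nat_lit 20,
    nat_lit 21],[nat_lit 24],[nat_lit 24],[],[],[nat_lit 22,nat_lit 23],[nat_lit 22,nat_lit 23],[nat_lit 26,
    nat_lit 27],[nat_lit 26,nat_lit 27],[]],[[],[nat_lit 79],[nat_lit 79],[],[nat_lit 75,nat_lit 76],[nat_lit 75,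
    nat_lit 76],[nat_lit 89,nat_lit 91],[nat_lit 89,nat_lit 91],[nat_lit 82,nat_lit 83],[nat_lit 82,nat_lit 83],
    [nat_lit 41,nat_lit 42],[nat_lit 41,nat_lit 42]],[[nat_lit 43,nat_lit 45],[nat_lit 43,nat_lit 45],[],[],[],[],[],
    [],[nat_lit 44,nat_lit 46],[nat_lit 44,nat_lit 46],[],[]],[[nat_lit 37,nat_lit 39],[],[],[],[nat_lit 105],
    [nat_lit 105],[nat_lit 99,nat_lit 101],[nat_lit 99,nat_lit 101],[],[],[],[nat_lit 100]],[[nat_lit 104],
    [nat_lit 104],[nat_lit 104],[nat_lit 104],[],[],[],[],[],[],[nat_lit 58],[nat_lit 72,nat_lit 74]],[[nat_lit 72,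
    nat_lit 74],[nat_lit 67,nat_lit 68],[nat_lit 63,nat_lit 65,nat_lit 66,nat_lit 70],[nat_lit 126],[nat_lit 126],[],
    [],[],[],[nat_lit 119,nat_lit 121,nat_lit 122,nat_lit 124],[],[nat_lit 94,nat_lit 96]],[[],[],[],[nat_lit 97],
    [nat_lit 97],[nat_lit 97],[nat_lit 97],[],[],[],[nat_lit 142,nat_lit 143],[nat_lit 142,nat_lit 143]],[[],[],
    [nat_lit 144],[nat_lit 144],[nat_lit 144],[nat_lit 144],[nat_lit 145],[nat_lit 145],[nat_lit 145],[nat_lit 145],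
    [nat_lit 112,nat_lit 116],[nat_lit 112,nat_lit 116]],[[],[],[],[],[nat_lit 106,nat_lit 107,nat_lit 108,
    nat_lit 109],[nat_lit 110,nat_lit 113,nat_lit 114,nat_lit 117],[nat_lit 16,nat_lit 18],[nat_lit 16,nat_lit 18],
    [nat_lit 13,nat_lit 14],[nat_lit 13,nat_lit 14],[],[nat_lit 10,nat_lit 11]],[[],[nat_lit 17,nat_lit 19]]]
    (nat_lit 146) [nat_lit 0,nat_lit 1,nat_lit 2,nat_lit 3,nat_lit 4,nat_lit 5,nat_lit 6,nat_lit 7,nat_lit 8,
    nat_lit 9,nat_lit 10,nat_lit 11,nat_lit 12,nat_lit 13,nat_lit 14,nat_lit 15,nat_lit 16,nat_lit 17,nat_lit 18,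
    nat_lit 19,nat_lit 25,nat_lit 26,nat_lit 27,nat_lit 33,nat_lit 34,nat_lit 35,nat_lit 41,nat_lit 42,nat_lit 43,
    nat_lit 44,nat_lit 45,nat_lit 46,nat_lit 52,nat_lit 53,nat_lit 54,nat_lit 55,nat_lit 56,nat_lit 57,nat_lit 63,
    nat_lit 64,nat_lit 65,nat_lit 66,nat_lit 70,nat_lit 71,nat_lit 81,nat_lit 84,nat_lit 86,nat_lit 97,nat_lit 98,
    nat_lit 104,nat_lit 105]
    [[[],[],[nat_lit 3],[nat_lit 4],[nat_lit 0],[nat_lit 1,nat_lit 2],[],[nat_lit 9],[nat_lit 5,nat_lit 7],[nat_lit 6,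
    nat_lit 8],[],[],[],[]],[[],[],[nat_lit 12],[nat_lit 13,nat_lit 14],[],[nat_lit 10,nat_lit 11],[nat_lit 16,
    nat_lit 18],[nat_lit 17,nat_lit 19],[],[nat_lit 15],[],[],[],[]],[[nat_lit 22,nat_lit 23],[nat_lit 24],[],[],
    [nat_lit 20,nat_lit 21],[],[],[],[],[],[nat_lit 25],[nat_lit 26,nat_lit 27],[],[]],[[nat_lit 31],[nat_lit 32],[],
    [],[nat_lit 28,nat_lit 29],[nat_lit 30],[],[],[],[],[nat_lit 33],[nat_lit 34,nat_lit 35],[],[]],[[nat_lit 37,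
    nat_lit 39],[nat_lit 38,nat_lit 40],[nat_lit 36],[],[],[],[nat_lit 43,nat_lit 45],[nat_lit 44,nat_lit 46],[],[],
    [],[],[],[nat_lit 41,nat_lit 42]],[[],[nat_lit 51],[nat_lit 47,nat_lit 49],[nat_lit 48,nat_lit 50],[],[],
    [nat_lit 56],[nat_lit 57],[],[],[],[],[nat_lit 52,nat_lit 54],[nat_lit 53,nat_lit 55]],[[nat_lit 67,nat_lit 68],
    [nat_lit 69],[],[],[nat_lit 73],[nat_lit 72,nat_lit 74],[nat_lit 71],[],[nat_lit 58],[nat_lit 59],[nat_lit 64],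
    [nat_lit 63,nat_lit 65,nat_lit 66,nat_lit 70],[nat_lit 60,nat_lit 62],[nat_lit 61]],[[nat_lit 82,nat_lit 83],[],
    [],[],[nat_lit 90],[nat_lit 89,nat_lit 91],[nat_lit 85,nat_lit 87,nat_lit 88],[nat_lit 86],[nat_lit 75,
    nat_lit 76],[nat_lit 77],[nat_lit 81,nat_lit 84],[],[nat_lit 78,nat_lit 80],[nat_lit 79]],[[nat_lit 95],
    [nat_lit 94,nat_lit 96],[],[],[],[],[nat_lit 92],[nat_lit 93],[],[],[],[],[nat_lit 97],[nat_lit 98]],[[],
    [nat_lit 102,nat_lit 103],[],[],[],[],[nat_lit 99,nat_lit 101],[nat_lit 100],[],[],[],[],[nat_lit 104],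
    [nat_lit 105]],[[],[],[nat_lit 111,nat_lit 115],[nat_lit 112,nat_lit 116],[],[],[],[nat_lit 110,nat_lit 113,
    nat_lit 114,nat_lit 117],[],[],[nat_lit 106,nat_lit 107,nat_lit 108,nat_lit 109],[],[],[]],[[],[],[nat_lit 126],
    [nat_lit 127],[],[],[nat_lit 125,nat_lit 128],[nat_lit 129],[],[],[nat_lit 118,nat_lit 120,nat_lit 123],
    [nat_lit 119,nat_lit 121,nat_lit 122,nat_lit 124],[],[]],[[],[],[],[],[nat_lit 132,nat_lit 134],[nat_lit 133,
    nat_lit 135],[nat_lit 130],[nat_lit 131],[nat_lit 136],[nat_lit 137],[],[],[],[]],[[],[],[],[],[nat_lit 142,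
    nat_lit 143],[],[nat_lit 138,nat_lit 140],[nat_lit 139,nat_lit 141],[nat_lit 144],[nat_lit 145],[],[],[],[]]]
    [[[nat_lit 0x5000000000000000000000000000000000,nat_lit 0x5000000000000000000000000000000000,nat_lit 0,
    nat_lit 0x400000000000000000000000000000000,nat_lit 0x400000000000000000000000000000000,
    nat_lit 0x10000000000000000000000000000000000,nat_lit 0x10000000000000000000000000000000000,
    nat_lit 0xa000000000000000000000000000000000,nat_lit 0xa000000000000000000000000000000000],[nat_lit 0,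
    nat_lit 0x30000000,nat_lit 0x100000000,nat_lit 0,nat_lit 0,nat_lit 0,nat_lit 0,nat_lit 0x200000000,
    nat_lit 0x200000000],[nat_lit 0,nat_lit 0,nat_lit 8,nat_lit 0,nat_lit 0,nat_lit 16,nat_lit 16,nat_lit 0,
    nat_lit 0],[nat_lit 320,nat_lit 0x2800000000000,nat_lit 0xa0000000000000,nat_lit 0xa0000000000000,
    nat_lit 0x5000000000000,nat_lit 0x5000000000000,nat_lit 0x50000000000000,nat_lit 0x50000000000000,nat_lit 0],
    [nat_lit 0,nat_lit 0x300000,nat_lit 0x300000,nat_lit 0x1000000,nat_lit 0x1000000,nat_lit 0,nat_lit 0,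
    nat_lit 0xc00000,nat_lit 0xc00000],[nat_lit 0xc000000,nat_lit 0xc000000,nat_lit 0,nat_lit 0,
    nat_lit 0x80000000000000000000,nat_lit 0x80000000000000000000,nat_lit 0,nat_lit 0x18000000000000000000,
    nat_lit 0x18000000000000000000],[nat_lit 0xa0000000000000000000000,nat_lit 0xa0000000000000000000000,
    nat_lit 0xc00000000000000000000,nat_lit 0xc00000000000000000000,nat_lit 0x60000000000,nat_lit 0x60000000000,
    nat_lit 0x280000000000,nat_lit 0x280000000000,nat_lit 0],[nat_lit 0,nat_lit 0,nat_lit 0,nat_lit 0,nat_lit 0,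
    nat_lit 0x500000000000,nat_lit 0x500000000000,nat_lit 0,nat_lit 0],[nat_lit 0xa000000000,nat_lit 0,nat_lit 0,
    nat_lit 0,nat_lit 0x200000000000000000000000000,nat_lit 0x200000000000000000000000000,
    nat_lit 0x28000000000000000000000000,nat_lit 0x28000000000000000000000000,nat_lit 0]],[[nat_lit 0,nat_lit 0,
    nat_lit 0x10000000000000000000000000,nat_lit 0x100000000000000000000000000,nat_lit 0x100000000000000000000000000,
    nat_lit 0x100000000000000000000000000,nat_lit 0x100000000000000000000000000,nat_lit 0,nat_lit 0],[nat_lit 0,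
    nat_lit 0,nat_lit 0,nat_lit 0,nat_lit 0x400000000000000,nat_lit 0x5000000000000000000,
    nat_lit 0x5000000000000000000,nat_lit 0x180000000000000000,nat_lit 0x468000000000000000],
    [nat_lit 0x40000000000000000000000000000000,nat_lit 0x40000000000000000000000000000000,nat_lit 0,nat_lit 0,
    nat_lit 0,nat_lit 0,nat_lit 0x16800000000000000000000000000000,nat_lit 0,nat_lit 0x1400000000000000000000000],
    [nat_lit 0,nat_lit 0,nat_lit 0,nat_lit 0x2000000000000000000000000,nat_lit 0x2000000000000000000000000,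
    nat_lit 0x2000000000000000000000000,nat_lit 0x2000000000000000000000000,nat_lit 0,nat_lit 0],[nat_lit 0,
    nat_lit 0xc00000000000000000000000000000000000,nat_lit 0xc00000000000000000000000000000000000,nat_lit 0,nat_lit 0,
    nat_lit 0x1000000000000000000000000000000000000,nat_lit 0x1000000000000000000000000000000000000,
    nat_lit 0x1000000000000000000000000000000000000,nat_lit 0x1000000000000000000000000000000000000],
    [nat_lit 0x2000000000000000000000000000000000000,nat_lit 0x2000000000000000000000000000000000000,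
    nat_lit 0x2000000000000000000000000000000000000,nat_lit 0x2000000000000000000000000000000000000,
    nat_lit 0x110000000000000000000000000000,nat_lit 0x110000000000000000000000000000,nat_lit 0,nat_lit 0,nat_lit 0],
    [nat_lit 0,nat_lit 0x3c00000000000000000000000000,nat_lit 0x264000000000000000000000000000,nat_lit 0x50000,
    nat_lit 0x50000,nat_lit 0x6000,nat_lit 0x6000,nat_lit 0,nat_lit 0xc00],[nat_lit 0,nat_lit 0xa0000]]]
    [[[[nat_lit 0,nat_lit 0x4000000000000000000000000000000000,nat_lit 0,nat_lit 0,nat_lit 0,nat_lit 0,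
    nat_lit 0x10000000000000000000000000000000000,nat_lit 0,nat_lit 0],[nat_lit 0,nat_lit 0,nat_lit 0,nat_lit 0,
    nat_lit 0,nat_lit 0,nat_lit 0,nat_lit 0,nat_lit 0],[nat_lit 0,nat_lit 0,nat_lit 0,nat_lit 0,nat_lit 0,nat_lit 0,
    nat_lit 0,nat_lit 0,nat_lit 0],[nat_lit 0,nat_lit 0x800000000000,nat_lit 0,nat_lit 0,nat_lit 0,nat_lit 0,
    nat_lit 0x10000000000000,nat_lit 0,nat_lit 0],[nat_lit 0,nat_lit 0,nat_lit 0,nat_lit 0,nat_lit 0x1000000,
    nat_lit 0,nat_lit 0,nat_lit 0,nat_lit 0],[nat_lit 0,nat_lit 0x8000000,nat_lit 0,nat_lit 0,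
    nat_lit 0x80000000000000000000,nat_lit 0,nat_lit 0,nat_lit 0,nat_lit 0],[nat_lit 0,nat_lit 0,nat_lit 0,nat_lit 0,
    nat_lit 0,nat_lit 0,nat_lit 0,nat_lit 0,nat_lit 0],[nat_lit 0,nat_lit 0,nat_lit 0,nat_lit 0,nat_lit 0,nat_lit 0,
    nat_lit 0,nat_lit 0,nat_lit 0],[nat_lit 0x8000000000,nat_lit 0,nat_lit 0,nat_lit 0,nat_lit 0,nat_lit 0,
    nat_lit 0x8000000000000000000000000,nat_lit 0,nat_lit 0]],[[nat_lit 0,nat_lit 0,nat_lit 0,nat_lit 0,nat_lit 0,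
    nat_lit 0,nat_lit 0,nat_lit 0,nat_lit 0],[nat_lit 0,nat_lit 0,nat_lit 0,nat_lit 0,nat_lit 0,nat_lit 0,
    nat_lit 0x4000000000000000000,nat_lit 0,nat_lit 0],[nat_lit 0,nat_lit 0,nat_lit 0,nat_lit 0,nat_lit 0,nat_lit 0,
    nat_lit 0,nat_lit 0,nat_lit 0],[nat_lit 0,nat_lit 0,nat_lit 0,nat_lit 0,nat_lit 0,nat_lit 0,nat_lit 0,nat_lit 0,
    nat_lit 0],[nat_lit 0,nat_lit 0,nat_lit 0,nat_lit 0,nat_lit 0,nat_lit 0,nat_lit 0,nat_lit 0,nat_lit 0],
    [nat_lit 0x2000000000000000000000000000000000000,nat_lit 0,nat_lit 0,nat_lit 0,nat_lit 0,nat_lit 0,nat_lit 0,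
    nat_lit 0,nat_lit 0],[nat_lit 0,nat_lit 0x800000000000000000000000000,nat_lit 0,nat_lit 0,nat_lit 0,
    nat_lit 0x2000,nat_lit 0,nat_lit 0,nat_lit 0],[nat_lit 0,nat_lit 0x20000]]]]
    (nat_lit 1) (nat_lit 1) (nat_lit 8)
    [[nat_lit 17,nat_lit 257,nat_lit 0x1101,nat_lit 0x1001,nat_lit 0x2001,nat_lit 0x10001,nat_lit 0x101001],
    [nat_lit 32,nat_lit 48,nat_lit 0x1030,nat_lit 288,nat_lit 0x1120,nat_lit 0x1020,nat_lit 0x2020,nat_lit 0x10020,
    nat_lit 0x1000020,nat_lit 0x100020,nat_lit 272,nat_lit 528,nat_lit 0x1210,nat_lit 0x1110,nat_lit 0x2110,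
    nat_lit 0x10110,nat_lit 0x11110,nat_lit 0x100110,nat_lit 0x1000110,nat_lit 0x101110,nat_lit 0x1010,nat_lit 0x2010,
    nat_lit 0x3010,nat_lit 0x11010,nat_lit 0x101010,nat_lit 0x102010,nat_lit 0x1001010,nat_lit 0x10010,
    nat_lit 0x20010,nat_lit 0x110010,nat_lit 0x100010,nat_lit 0x1000010,nat_lit 0x1010010,nat_lit 0x1100010,
    nat_lit 0x2000010],[nat_lit 512,nat_lit 768,nat_lit 0x1300,nat_lit 0x1200,nat_lit 0x2200,nat_lit 0x10200,
    nat_lit 0x11200,nat_lit 0x100200,nat_lit 0x1000200,nat_lit 0x1100,nat_lit 0x2100,nat_lit 0x3100,nat_lit 0x12100,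
    nat_lit 0x102100,nat_lit 0x11100,nat_lit 0x101100,nat_lit 0x201100,nat_lit 0x10100,nat_lit 0x20100,
    nat_lit 0x110100,nat_lit 0x1010100,nat_lit 0x100100,nat_lit 0x200100,nat_lit 0x1000100],[nat_lit 0x2000,
    nat_lit 0x3000,nat_lit 0x4000,nat_lit 0x103000,nat_lit 0x12000,nat_lit 0x102000,nat_lit 0x11000,nat_lit 0x21000,
    nat_lit 0x111000,nat_lit 0x101000,nat_lit 0x201000,nat_lit 0x1001000],[nat_lit 0x20000,nat_lit 0x30000,
    nat_lit 0x120000,nat_lit 0x110000,nat_lit 0x210000],[nat_lit 0x200000,nat_lit 0x300000,nat_lit 0x400000,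
    nat_lit 0x1100000],[nat_lit 0x2000000]]
    [.c (nat_lit 0) (nat_lit 0x300c43),.c (nat_lit 6) (nat_lit 0x210862),.c (nat_lit 6) (nat_lit 0x210062),
    .c (nat_lit 0) (nat_lit 0x4200803),.c (nat_lit 0) (nat_lit 0x318843),.c (nat_lit 6) (nat_lit 0x6300002),
    .c (nat_lit 1) (nat_lit 0xc02),.c (nat_lit 2) (nat_lit 2),.r (nat_lit 0x1b96) (nat_lit 7) [nat_lit 0x4000001,
    nat_lit 0xa229062,nat_lit 0x14a720042],.r (nat_lit 0x47a) (nat_lit 10) [nat_lit 0x760041,nat_lit 0x39c610061,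
    nat_lit 0x610061,nat_lit 0x3c0718041,nat_lit 0x228081],.r (nat_lit 0x1ccd) (nat_lit 5) [nat_lit 0x4000001,
    nat_lit 65,nat_lit 0x400061],.r (nat_lit 0x47b) (nat_lit 5) [nat_lit 0x88340c41,nat_lit 0x540041,nat_lit 0x228001,
    nat_lit 0x6238861,nat_lit 0xc6248861],.r (nat_lit 0x47c) (nat_lit 10) [nat_lit 0x540041,nat_lit 0x294410061,
    nat_lit 0x410061,nat_lit 0x2c0518041,nat_lit 0x228081],.r (nat_lit 0x1b96) (nat_lit 7) [nat_lit 0x4000001,
    nat_lit 0xa001062,nat_lit 0x14a500042],.r (nat_lit 0x47b) (nat_lit 5) [nat_lit 0x540041,nat_lit 0xca740841,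
    nat_lit 0x228001,nat_lit 0x84438061,nat_lit 0x4448061],.r (nat_lit 0x47d) (nat_lit 3) [nat_lit 0xc6218861,
    nat_lit 0x200001,nat_lit 0x80500041,nat_lit 0x500041,nat_lit 0x4400061],
    .r (nat_lit 0x1b96) (nat_lit 7) [nat_lit 0x4000001,nat_lit 0x6218861,nat_lit 0xc6510041],
    .c (nat_lit 0) (nat_lit 0x300c43),.c (nat_lit 5) (nat_lit 0x88110a2),
    .r (nat_lit 0x1bdf) (nat_lit 5) [nat_lit 0xca319061,nat_lit 0xca018861],
    .r (nat_lit 0x1b9d) (nat_lit 6) [nat_lit 0x6000861,nat_lit 0x88200c01,nat_lit 0xc6300801],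
    .r (nat_lit 0x1ccd) (nat_lit 5) [nat_lit 0x4000001,nat_lit 0x228041,nat_lit 0x220061],
    .r (nat_lit 0x1bdf) (nat_lit 5) [nat_lit 0x18861,nat_lit 0x218061],.c (nat_lit 1) (nat_lit 0x4000043),
    .c (nat_lit 5) (nat_lit 0x4400862),.c (nat_lit 6) (nat_lit 0x6300c43),.c (nat_lit 1) (nat_lit 0x300043),
    .r (nat_lit 0x1c53) (nat_lit 7) [nat_lit 0x4000001,nat_lit 0x6000861,nat_lit 0xc6300041],
    .c (nat_lit 2) (nat_lit 0x11402),.r (nat_lit 0x47c) (nat_lit 10) [nat_lit 0x320041,nat_lit 0x294230061,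
    nat_lit 0x230061,nat_lit 0x2c0338041,nat_lit 0x668081],.r (nat_lit 0x1ccd) (nat_lit 5) [nat_lit 0x4000001,
    nat_lit 0xca028841,nat_lit 0x88420c61],.c (nat_lit 2) (nat_lit 0xc02),
    .r (nat_lit 0x1b96) (nat_lit 7) [nat_lit 0x4000001,nat_lit 0x6010861,nat_lit 0xc6318041],
    .r (nat_lit 0x1cc1) (nat_lit 11) [nat_lit 0x4000001,nat_lit 0x10061,nat_lit 65],
    .r (nat_lit 0x1b9d) (nat_lit 6) [nat_lit 0x84200061,nat_lit 0x88200c01,nat_lit 0xc6300801],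
    .c (nat_lit 1) (nat_lit 0x8410003),.c (nat_lit 1) (nat_lit 0x4210003),.c (nat_lit 4) (nat_lit 0x18802),
    .r (nat_lit 0x1a29) (nat_lit 6) [nat_lit 0x4000061,nat_lit 0xc6018861,nat_lit 65],
    .c (nat_lit 6) (nat_lit 0x210003),.c (nat_lit 3) (nat_lit 0x6300c43),.c (nat_lit 3) (nat_lit 0xa519483),
    .c (nat_lit 3) (nat_lit 2),.r (nat_lit 0x47e) (nat_lit 3) [nat_lit 65,nat_lit 0x37276b0a1,nat_lit 0x324631c41,
    nat_lit 0xc000001,nat_lit 0x198631c41],.r (nat_lit 0x47f) (nat_lit 1) [nat_lit 0x10061,nat_lit 0x88200c41,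
    nat_lit 65,nat_lit 0x228081,nat_lit 0x63108a1],.r (nat_lit 0x108b) (nat_lit 6) [nat_lit 0x20001,nat_lit 0x18041,
    nat_lit 0xa019061,nat_lit 0x14a519061],.c (nat_lit 5) (nat_lit 0x88200a2),
    .r (nat_lit 0x47f) (nat_lit 1) [nat_lit 0x88210c61,nat_lit 65,nat_lit 0xca300841,nat_lit 0x152329081,
    nat_lit 0x10c210ca1],.r (nat_lit 0x480) (nat_lit 1) [nat_lit 0x110411441,nat_lit 0x152501061,nat_lit 0x88200c41,
    nat_lit 0x26272a0a1,nat_lit 0x194411441],.r (nat_lit 0x481) (nat_lit 10) [nat_lit 0x20001,nat_lit 0x110421441,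
    nat_lit 0x14a529061,nat_lit 0xa529061,nat_lit 0x400001],.r (nat_lit 0x1a29) (nat_lit 6) [nat_lit 0x10c221441,
    nat_lit 0x84210c41,nat_lit 0x14a329061],.c (nat_lit 0) (nat_lit 0x6518043),.c (nat_lit 0) (nat_lit 0x318843),
    .r (nat_lit 0x1b9d) (nat_lit 6) [nat_lit 0x6320861,nat_lit 0x88200c01,nat_lit 0xc6300801],
    .r (nat_lit 0x1bdf) (nat_lit 5) [nat_lit 0x310861,nat_lit 0x10061],.c (nat_lit 5) (nat_lit 0x4410c62),
    .c (nat_lit 5) (nat_lit 0x4410062),.c (nat_lit 3) (nat_lit 0xc02),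
    .r (nat_lit 0x1a29) (nat_lit 6) [nat_lit 0x88000c41,nat_lit 0x18041,nat_lit 0xc6000861],
    .r (nat_lit 0x108b) (nat_lit 6) [nat_lit 0x20001,nat_lit 0xca318841,nat_lit 0x80218861,nat_lit 0xc0318861],
    .r (nat_lit 0x480) (nat_lit 1) [nat_lit 0x88210c41,nat_lit 0xca300861,nat_lit 65,nat_lit 0x1523290a1,
    nat_lit 0x10c210c41],.r (nat_lit 0x482) (nat_lit 3) [nat_lit 0xca318841,nat_lit 0x1520290a1,nat_lit 0x190210c41,
    nat_lit 0x8000001,nat_lit 0x88210c41],.c (nat_lit 0) (nat_lit 0x300002),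
    .r (nat_lit 0x1ae2) (nat_lit 7) [nat_lit 65,nat_lit 0x4000001,nat_lit 0xca300861],
    .r (nat_lit 0x1cc1) (nat_lit 11) [nat_lit 0x4000001,nat_lit 0x84010c41,nat_lit 0xc6000861],
    .c (nat_lit 6) (nat_lit 0x4210862),.c (nat_lit 4) (nat_lit 2),.r (nat_lit 0x1c53) (nat_lit 7) [nat_lit 0x4000001,
    nat_lit 0x6320861,nat_lit 0xc6028041],.c (nat_lit 2) (nat_lit 0x22402),.c (nat_lit 2) (nat_lit 0x11c02),
    .r (nat_lit 0x1b9d) (nat_lit 6) [nat_lit 0x84020061,nat_lit 0x88200c01,nat_lit 0xc6300801],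
    .c (nat_lit 4) (nat_lit 0xc02),.c (nat_lit 0) (nat_lit 0x4200803),
    .r (nat_lit 0x1bdf) (nat_lit 5) [nat_lit 0x88010061,nat_lit 0x88210c61],.c (nat_lit 5) (nat_lit 0xc02),
    .c (nat_lit 0) (nat_lit 0x803),.c (nat_lit 6) (nat_lit 0xc02),.c (nat_lit 0) (nat_lit 0x6318043),
    .c (nat_lit 5) (nat_lit 2),.r (nat_lit 0x483) (nat_lit 11) [nat_lit 0xc000061,nat_lit 0x18c030061,
    nat_lit 0x668001,nat_lit 0x1da701841,nat_lit 65],.r (nat_lit 0x484) (nat_lit 1) [nat_lit 0x110421461,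
    nat_lit 0xca318841,nat_lit 0x152519041,nat_lit 0x26274a081,nat_lit 0x21c631ca1],
    .c (nat_lit 3) (nat_lit 0x6518c42),.r (nat_lit 0x1a29) (nat_lit 6) [nat_lit 0x300041,nat_lit 0xca318841,
    nat_lit 0x4200061],.c (nat_lit 6) (nat_lit 2),.r (nat_lit 0x1b96) (nat_lit 7) [nat_lit 0x4000001,
    nat_lit 0x6318841,nat_lit 0xc6010061],.c (nat_lit 2) (nat_lit 0x20003),.c (nat_lit 1) (nat_lit 0x4000002),
    .c (nat_lit 7) (nat_lit 2)]]

/-- nodes -/
noncomputable def rD7k_24_26 : List RJ :=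
  [.l (nat_lit 16) (nat_lit 0x2760) (nat_lit 3) (nat_lit 0x10cc0000118c0000127a00001326000011e5000010cd000010b900000fdd00000fdd000010b900000fdd000010b900000ed900000d21) (nat_lit 0x19a0000025a00000000000000ac0000025900000141000003490000026d0000026d000003490000026d00000349000006050000044d)
    (nat_lit 0xd200a4e111c0e0e0f4f12d30d830e5f0e5f0d830a130d830ac70ca70ff20d20100610e0148d18110b910f1510a50fdd0ce509d90d990f7910e00e0e0ab411ce102b12bf0d970ab3147711e30dd30dab0e8710671006111c11fa0ab4111d11e511f90f3d157d12e910f50fdd09d90ed9181112d311e512bf110811d00b900f280f780c800f7809d80b900d5c148d0f4f111d102b0e7411080d840e600e600d840e600d840ac80ac80f150e5f0f3d0ab30e600f280d700e4c0e4c0d7010040d7009d80c6c0b910d8311f90d970d840b900d700d700d5c0c940f280bb809d809d80fdd0d8312e911e30d840c800c940d700e4c0bb80f280ca809d809d810a50e5f157d14770e600f780d5c0e4c0d5c0e4c10040d700ab409d809d90d830fdd0dab0d8409d80bb80d700d700ca810040d8409d809d80ce50a1310f50dd30e600f780f28100410040f2809d810040a8c0c6c0f790ca70ed910670ac80d5c09d80c6c09d809d80c6c09d80d200f000d990ac709d90e870ac80b9009d809d80ab409d80a8c09d80b400d20)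
    (nat_lit 0xd2027602760276027602760276027602760276027602760276027600a4e0d20276027602760276027602760276027602760276027602760111c10060ab4276027602760276027602760276027602760276027600e0e10e011ce0ab427602760276027602760276027602760276027600f4f148d102b111d110827602760276027602760276027602760276012d3181112bf11e511d01108276027602760276027602760276027600d830b910d9711f90b900d840d7027602760276027602760276027600e5f0f150ab30f3d0f280e600e4c0d702760276027602760276027600e5f10a51477157d0f780e600e4c0d5c0e4c276027602760276027600d830fdd11e312e90c800d840d700c940bb80e4c27602760276027600a130ce50dd310f50f780e6010040f280f28100410042760276027600d8309d90dab0fdd09d80d840d700bb80ca80d700d841004276027600ac70d990e8709d90b900ac809d809d809d80ab409d80a8c0d2027600ca70f7910670ed90d5c0ac80c6c09d809d809d809d80c6c0f000d20)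
    (nat_lit 4) (nat_lit 79)
    [[nat_lit 2,nat_lit 18,nat_lit 258,nat_lit 0x1002,nat_lit 0x10002,nat_lit 17,nat_lit 33,nat_lit 273,
    nat_lit 0x1011,nat_lit 0x10011,nat_lit 0x100011,nat_lit 0x1000011,nat_lit 257,nat_lit 513,nat_lit 0x1101,
    nat_lit 0x10101,nat_lit 0x1000101,nat_lit 0x1001,nat_lit 0x2001,nat_lit 0x11001,nat_lit 0x101001,
    nat_lit 0x1001001,nat_lit 0x10001,nat_lit 0x100001,nat_lit 0x100101,nat_lit 0x200001,nat_lit 0x1000001],
    [nat_lit 32,nat_lit 0x1000020,nat_lit 288,nat_lit 0x1020,nat_lit 0x10020,nat_lit 272,nat_lit 0x1010,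
    nat_lit 0x10010,nat_lit 0x100010,nat_lit 0x1000010,nat_lit 0x1001010,nat_lit 0x2000010,nat_lit 0x1010010],
    [nat_lit 512,nat_lit 0x1100,nat_lit 0x10100,nat_lit 0x1000100],[nat_lit 0x2000,nat_lit 0x11000,nat_lit 0x101000,
    nat_lit 0x1001000,nat_lit 0x2001000],[nat_lit 0x20000,nat_lit 0x110000],[nat_lit 0x200000,nat_lit 0x300000,
    nat_lit 0x1100000],[nat_lit 0x2000000]]
    [.c (nat_lit 1) (nat_lit 2),.c (nat_lit 0) (nat_lit 0x33223),.c (nat_lit 1) (nat_lit 0x3302),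
    .c (nat_lit 0) (nat_lit 0x33223),.r (nat_lit 0x1bcb) (nat_lit 9) [nat_lit 33,nat_lit 0x200001,nat_lit 0x20001],
    .c (nat_lit 0) (nat_lit 0x33023),.c (nat_lit 0) (nat_lit 0x55043),.c (nat_lit 2) (nat_lit 0x3302),
    .c (nat_lit 0) (nat_lit 0x33023),.r (nat_lit 32) (nat_lit 5) [nat_lit 0x30231,nat_lit 0x20001],
    .r (nat_lit 0x1a32) (nat_lit 7) [nat_lit 0x333231,nat_lit 0x22001,nat_lit 0x200001],
    .r (nat_lit 0x174e) (nat_lit 8) [nat_lit 0x30231,nat_lit 0x20001],.c (nat_lit 0) (nat_lit 0x2203),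
    .c (nat_lit 3) (nat_lit 0x3302),.c (nat_lit 4) (nat_lit 0x3302),.c (nat_lit 5) (nat_lit 0x3302),
    .c (nat_lit 5) (nat_lit 0x22203),.c (nat_lit 0) (nat_lit 0x33023),.c (nat_lit 0) (nat_lit 0x55043),
    .r (nat_lit 0x1ba6) (nat_lit 9) [nat_lit 0x330231,nat_lit 0x200001,nat_lit 0x20001],
    .r (nat_lit 8) (nat_lit 1) [nat_lit 0x300231,nat_lit 0x200001],.r (nat_lit 32) (nat_lit 10) [nat_lit 0x30231,
    nat_lit 0x20001],.r (nat_lit 0x1af7) (nat_lit 6) [nat_lit 0x20001,nat_lit 0x220321,nat_lit 0x30231],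
    .r (nat_lit 0x1b9f) (nat_lit 8) [nat_lit 0x20031,nat_lit 0x200001,nat_lit 33],.c (nat_lit 3) (nat_lit 0x4203),
    .c (nat_lit 3) (nat_lit 0x6203),.r (nat_lit 0x174d) (nat_lit 1) [nat_lit 0x222031,nat_lit 33],
    .c (nat_lit 2) (nat_lit 2),.r (nat_lit 0xed8) (nat_lit 4) [nat_lit 0x400001,nat_lit 0x40001,nat_lit 0x395431,
    nat_lit 0x300021],.r (nat_lit 0x1ccb) (nat_lit 13) [nat_lit 0x30021,nat_lit 0x20001,nat_lit 0x200001],
    .c (nat_lit 0) (nat_lit 0x55043),.r (nat_lit 0xed9) (nat_lit 4) [nat_lit 0x400001,nat_lit 0x40001,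
    nat_lit 0x595431,nat_lit 33],.c (nat_lit 0) (nat_lit 0x30223),.c (nat_lit 0) (nat_lit 0x33023),
    .r (nat_lit 0) (nat_lit 1) [nat_lit 33,nat_lit 0x20001],.c (nat_lit 0) (nat_lit 0x33323),
    .r (nat_lit 0x1bfd) (nat_lit 9) [nat_lit 0x300021,nat_lit 0x22001,nat_lit 0x200001],
    .r (nat_lit 0x174d) (nat_lit 6) [nat_lit 0x22001,nat_lit 0x33231],.r (nat_lit 0xeda) (nat_lit 4) [nat_lit 33,
    nat_lit 0x40001,nat_lit 0x400031,nat_lit 0x595401],.c (nat_lit 0) (nat_lit 0x30002),.c (nat_lit 3) (nat_lit 2),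
    .c (nat_lit 0) (nat_lit 0x30223),.r (nat_lit 8) (nat_lit 6) [nat_lit 0x222031,nat_lit 33],
    .r (nat_lit 0x174d) (nat_lit 6) [nat_lit 0x22001,nat_lit 0x220031],.c (nat_lit 4) (nat_lit 2),
    .r (nat_lit 0x174f) (nat_lit 8) [nat_lit 0x20001,nat_lit 33],.c (nat_lit 0) (nat_lit 0x33323),
    .r (nat_lit 0) (nat_lit 4) [nat_lit 0x20001,nat_lit 33],.r (nat_lit 0xedb) (nat_lit 4) [nat_lit 33,
    nat_lit 0x40001,nat_lit 0x400031,nat_lit 0x595401],.c (nat_lit 5) (nat_lit 2),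
    .r (nat_lit 0x174d) (nat_lit 6) [nat_lit 0x22001,nat_lit 33],.c (nat_lit 6) (nat_lit 2),
    .c (nat_lit 0) (nat_lit 0x602),.r (nat_lit 8) (nat_lit 6) [nat_lit 0x2021,nat_lit 0x220031],
    .c (nat_lit 7) (nat_lit 2)],
    .l (nat_lit 9) (nat_lit 120) (nat_lit 3) (nat_lit 0x38000000320000003200000040000000460000003600000038000000380000003e0000003200000038000000380000003a00000032) (nat_lit 0x140000000e000000060000001400000010000000000000000e0000000e00000014000000080000000e0000000e000000140000000c)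
    (nat_lit 0x120986c24140e86c2e120c8502a120783c241a0784032120903c20130903c260f090581e110a85c260f0a848240f09068361d0b06040291284438180c8541e190e8802a0f1187038190789c42170f04028180884c1e140a0442e1b0a83c2c120b89426140e0542a110c0502a120784836290b85038140a854301b0a0442c100c8702a170786030160e0602a0f0983c24110784432150883c2c110903c24120a8642415108502a120a8582a120b84c28180906c4e1b0a04430150b0642c130783c24160f0581e12098582e140b83c24150783c2e110903c1e190904428)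
    (nat_lit 0x121e0f0783c1e0f0783c1e0f0783c1e04c243c1e0f0783c1e0f0783c1e0f0781b0d058783c1e0f0783c1e0f0783c1e0481e0f0b0f0783c1e0f0783c1e0f0781408044300f1e0f0783c1e0f0783c1e07432151008c1e3c1e0f0783c1e0f0781b0905c521c0a054783c1e0f0783c1e05c24131287028150a8f0783c1e0f078120783c2219088442a161e0f0783c1e06420150e03c2e180c0702c3c1e0f078140984830200d850361808858783c1e05424120c8842a150a05424150b0f078120783c2a1707848220f0784832141e03c2612078782c0f0b04c24170b05c28)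
    (nat_lit 4) (nat_lit 79)
    [[nat_lit 2,nat_lit 258,nat_lit 0x1002,nat_lit 0x100002,nat_lit 0x1000002,nat_lit 17,nat_lit 273,nat_lit 0x100011,
    nat_lit 0x1000011,nat_lit 257,nat_lit 513,nat_lit 0x1101,nat_lit 0x100101,nat_lit 0x1000101,nat_lit 0x10101,
    nat_lit 0x1001,nat_lit 0x2001,nat_lit 0x101001,nat_lit 0x1001001,nat_lit 0x10001,nat_lit 0x11001,nat_lit 0x110001,
    nat_lit 0x1010001,nat_lit 0x100001,nat_lit 0x200001,nat_lit 0x1100001,nat_lit 0x1000001,nat_lit 0x2000001],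
    [nat_lit 32,nat_lit 272,nat_lit 0x100110,nat_lit 0x10110,nat_lit 0x1000110,nat_lit 0x1010,nat_lit 0x1001010,
    nat_lit 0x100010,nat_lit 0x1000010,nat_lit 0x2000010],[nat_lit 512,nat_lit 0x10200,nat_lit 0x1000200,
    nat_lit 0x1100,nat_lit 0x11100,nat_lit 0x10100,nat_lit 0x20100,nat_lit 0x100100,nat_lit 0x110100,
    nat_lit 0x1100100,nat_lit 0x1000100,nat_lit 0x1010100,nat_lit 0x2000100],[nat_lit 0x2000,nat_lit 0x11000,
    nat_lit 0x1001000,nat_lit 0x2001000],[nat_lit 0x20000,nat_lit 0x30000,nat_lit 0x110000,nat_lit 0x1010000],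
    [nat_lit 0x200000,nat_lit 0x1100000],[nat_lit 0x2000000,nat_lit 0x3000000]]
    [.c (nat_lit 1) (nat_lit 2),.c (nat_lit 0) (nat_lit 0x5543),.r (nat_lit 0x1c92) (nat_lit 13) [nat_lit 0x222031,
    nat_lit 0x20001,nat_lit 0x330021],.r (nat_lit 0xf3d) (nat_lit 7) [nat_lit 0x6001,nat_lit 0x505021,
    nat_lit 0x379631,nat_lit 0x202021],.c (nat_lit 0) (nat_lit 0x5543),.c (nat_lit 0) (nat_lit 0x22203),
    .r (nat_lit 0) (nat_lit 1) [nat_lit 0x2001,nat_lit 0x303021],.c (nat_lit 4) (nat_lit 0x24203),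
    .r (nat_lit 0x1b04) (nat_lit 11) [nat_lit 0x303021,nat_lit 0x2001],.c (nat_lit 0) (nat_lit 0x3323),
    .c (nat_lit 0) (nat_lit 0x5543),.r (nat_lit 0x19b4) (nat_lit 11) [nat_lit 0x3231,nat_lit 0x22321,nat_lit 0x2001],
    .r (nat_lit 0xefe) (nat_lit 4) [nat_lit 0x357431,nat_lit 0x303021,nat_lit 0x4001,nat_lit 0x242031],
    .c (nat_lit 0) (nat_lit 0x3323),.r (nat_lit 0x1ccf) (nat_lit 1) [nat_lit 0x33231,nat_lit 0x2001,nat_lit 0x20001],
    .c (nat_lit 0) (nat_lit 0x22203),.r (nat_lit 0x1b04) (nat_lit 6) [nat_lit 0x330021,nat_lit 0x242031],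
    .c (nat_lit 0) (nat_lit 0x3002),.r (nat_lit 32) (nat_lit 6) [nat_lit 0x3231,nat_lit 0x2001],
    .r (nat_lit 0x1c92) (nat_lit 13) [nat_lit 0x2031,nat_lit 0x20001,nat_lit 33],.c (nat_lit 2) (nat_lit 0x22403),
    .c (nat_lit 0) (nat_lit 0x20002),.r (nat_lit 0x1972) (nat_lit 13) [nat_lit 0x20001,nat_lit 0x2031,
    nat_lit 0x33201],.r (nat_lit 0x1c15) (nat_lit 7) [nat_lit 0x2001,nat_lit 33,nat_lit 0x220031],
    .r (nat_lit 0x1672) (nat_lit 7) [nat_lit 0x6001,nat_lit 0x303021,nat_lit 0x57b631,nat_lit 0x404021],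
    .r (nat_lit 0x174e) (nat_lit 13) [nat_lit 0x3231,nat_lit 0x2001],.c (nat_lit 0) (nat_lit 0x3323),
    .c (nat_lit 0) (nat_lit 0x5543),.c (nat_lit 2) (nat_lit 2),.r (nat_lit 0x1bec) (nat_lit 8) [nat_lit 33,
    nat_lit 0x20001],.r (nat_lit 0x1ae2) (nat_lit 10) [nat_lit 0x2001,nat_lit 0x20001,nat_lit 0x33021],
    .c (nat_lit 0) (nat_lit 770),.r (nat_lit 0x1b49) (nat_lit 12) [nat_lit 0x33231,nat_lit 0x20001,nat_lit 0x2001],
    .c (nat_lit 0) (nat_lit 0x22203),.r (nat_lit 0x1caf) (nat_lit 1) [nat_lit 0x2001,nat_lit 0x3021],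
    .r (nat_lit 0x1b04) (nat_lit 6) [nat_lit 0x22031,nat_lit 33],.r (nat_lit 0x1956) (nat_lit 4) [nat_lit 0x2031,
    nat_lit 33,nat_lit 0x20001,nat_lit 0x202031],.r (nat_lit 0x1667) (nat_lit 4) [nat_lit 0x355221,nat_lit 0x60001,
    nat_lit 0x593431,nat_lit 0x488521],.c (nat_lit 3) (nat_lit 2),.r (nat_lit 0x1c8d) (nat_lit 4) [nat_lit 0x2001,
    nat_lit 33,nat_lit 0x20001],.c (nat_lit 0) (nat_lit 0x5543),.r (nat_lit 0x174f) (nat_lit 13) [nat_lit 0x2001,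
    nat_lit 33],.r (nat_lit 0x1b7d) (nat_lit 0) [nat_lit 0x20001,nat_lit 0x33201,nat_lit 0x2321],
    .r (nat_lit 0x19b4) (nat_lit 11) [nat_lit 0x333231,nat_lit 0x242321,nat_lit 0x2001],
    .r (nat_lit 0x19b2) (nat_lit 0) [nat_lit 0x20001,nat_lit 0x33201,nat_lit 0x22321],
    .r (nat_lit 0) (nat_lit 1) [nat_lit 0x2001,nat_lit 33],.c (nat_lit 7) (nat_lit 0x33323),
    .c (nat_lit 2) (nat_lit 0x22432),.c (nat_lit 0) (nat_lit 0x3323),.c (nat_lit 4) (nat_lit 0x24232),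
    .c (nat_lit 0) (nat_lit 0x5543),.c (nat_lit 4) (nat_lit 2),.r (nat_lit 0x1b04) (nat_lit 6) [nat_lit 33,
    nat_lit 0x22031],.r (nat_lit 0x1c82) (nat_lit 1) [nat_lit 33,nat_lit 0x2001],
    .r (nat_lit 0x1bcb) (nat_lit 12) [nat_lit 33,nat_lit 0x20001,nat_lit 0x2001],.c (nat_lit 5) (nat_lit 2),
    .r (nat_lit 0xffa) (nat_lit 4) [nat_lit 0x7d7631,nat_lit 0x60001,nat_lit 33,nat_lit 0x6031],
    .c (nat_lit 0) (nat_lit 0x20002),.r (nat_lit 32) (nat_lit 6) [nat_lit 0x333231,nat_lit 0x2001],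
    .c (nat_lit 6) (nat_lit 2),.r (nat_lit 0x1b04) (nat_lit 11) [nat_lit 33,nat_lit 0x2001],
    .c (nat_lit 7) (nat_lit 2),.r (nat_lit 0xff3) (nat_lit 4) [nat_lit 33,nat_lit 0x60001,nat_lit 0x7d7631,
    nat_lit 0x6cc721]],
    .l (nat_lit 12) (nat_lit 720) (nat_lit 3) (nat_lit 0x1290000012900000125000001250000010800000144000001380000013800000141000001410000012c0000012c0000015c000000fc) (nat_lit 0x33000000330000003700000037000000180000005400000024000000240000001b0000001b00000030000000300000006000000000)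
    (nat_lit 0xfc0de0e60f21170db10510510e10e0ff0db0c91290f60fc0ea0f21050cd0dd10310e10e0f90f90c912d0f20f20f60ee10f0d910110d10a1320f10f50bf1250ea0e60ee0f61130d10e310110a1280f50f50bf1250cd0db0d10d90f00b40c60de0ed10b0d80d80b410810511711310f12c0f01201200cf1291141140e40b410310510110d1200de11411411d11d1981620d21380dd1050e31011200c611411412311d16e1380d813810e10e12813212910b11d11d0f612611110b0e10db10e10e10a10a0cf0ed12311d1260f61111110ff1410f90db0f50f51140d813816211110b0fc0fc0cc12c0f90ff0f50f11140d816e1981111110fc0fc0cc12c12d1291251250b41081381381410db12c12c0f615c0c90c90bf0bf0e40b40d80d20ff0e10cc0cc0b40f6)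
    (nat_lit 0xfc2d02d02d02d02d02d02d02d02d02d02d02d02d00de0fc2d02d02d02d02d02d02d02d02d02d02d02d00e60ea0f62d02d02d02d02d02d02d02d02d02d02d00f20f20ee0f62d02d02d02d02d02d02d02d02d02d011710510f1130f02d02d02d02d02d02d02d02d02d00db0cd0d90d10b40f02d02d02d02d02d02d02d02d01050dd1010e30c61201142d02d02d02d02d02d02d010510310d1010de1201141142d02d02d02d02d02d010e10e10a10a0ed0cf11d1230f62d02d02d02d02d010e10e13212810b12911d11d1260f62d02d02d02d00ff0f90f10f50d811419816e1111110fc2d02d02d00db0f90f50f50d811416213810b1110fc0fc2d02d00c90c90bf0bf0b40e40d20d80e10ff0cc0cc0f62d012912d1251251080b41381380db14112c12c15c0f6)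
    (nat_lit 4) (nat_lit 43)
    [[nat_lit 2,nat_lit 0x10002,nat_lit 17,nat_lit 273,nat_lit 0x10011,nat_lit 257,nat_lit 0x10101,nat_lit 0x1001,
    nat_lit 0x11001,nat_lit 0x10001,nat_lit 0x20001,nat_lit 0x100001,nat_lit 0x100101,nat_lit 0x110001,
    nat_lit 0x1000001,nat_lit 0x1000101,nat_lit 0x1010001],[nat_lit 32,nat_lit 272,nat_lit 0x10110,nat_lit 0x10010,
    nat_lit 0x1010010,nat_lit 0x100010,nat_lit 0x1100010,nat_lit 0x1000010],[nat_lit 512,nat_lit 0x1100,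
    nat_lit 0x10100,nat_lit 0x11100,nat_lit 0x20100,nat_lit 0x1010100,nat_lit 0x100100,nat_lit 0x1000100],
    [nat_lit 0x2000,nat_lit 0x11000,nat_lit 0x101000,nat_lit 0x1001000,nat_lit 0x2001000],[nat_lit 0x20000,
    nat_lit 0x110000,nat_lit 0x1110000,nat_lit 0x1010000,nat_lit 0x2010000],[nat_lit 0x200000,nat_lit 0x1200000,
    nat_lit 0x1100000,nat_lit 0x2100000],[nat_lit 0x2000000]]
    [.c (nat_lit 1) (nat_lit 2),.r (nat_lit 0xe16) (nat_lit 4) [nat_lit 0x607001,nat_lit 0x5004021,nat_lit 0x66001,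
    nat_lit 0x2773651],.r (nat_lit 0x1c36) (nat_lit 13) [nat_lit 0x330231,nat_lit 0x22031,nat_lit 33],
    .c (nat_lit 5) (nat_lit 0x33023),.c (nat_lit 3) (nat_lit 0x33023),.c (nat_lit 0) (nat_lit 0x233323),
    .c (nat_lit 2) (nat_lit 0x33023),.c (nat_lit 5) (nat_lit 0x303002),
    .r (nat_lit 0x1c5f) (nat_lit 4) [nat_lit 0x2300001,nat_lit 0x2322031,nat_lit 0x3200021],
    .r (nat_lit 0x1c17) (nat_lit 13) [nat_lit 33,nat_lit 0x302001,nat_lit 0x33231],
    .r (nat_lit 0xe17) (nat_lit 4) [nat_lit 0x3277651,nat_lit 0x3222341,nat_lit 0x26e6741,nat_lit 0x3772651],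
    .r (nat_lit 0x14c5) (nat_lit 2) [nat_lit 97,nat_lit 0x506001,nat_lit 0x460001,nat_lit 0x377671],
    .r (nat_lit 0x19d3) (nat_lit 4) [nat_lit 0x2001,nat_lit 0x20001,nat_lit 0x200001,nat_lit 0x2000001],
    .r (nat_lit 0x19d3) (nat_lit 4) [nat_lit 0x2001,nat_lit 0x20001,nat_lit 0x200001,nat_lit 0x2000001],
    .c (nat_lit 0) (nat_lit 0x63776d),.r (nat_lit 0x1ae0) (nat_lit 7) [nat_lit 0x33231,nat_lit 0x3242321,nat_lit 33],
    .r (nat_lit 0x19d3) (nat_lit 4) [nat_lit 0x2001,nat_lit 0x20001,nat_lit 0x200001,nat_lit 0x2000001],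
    .c (nat_lit 2) (nat_lit 2),.r (nat_lit 0x1bdf) (nat_lit 4) [nat_lit 33,nat_lit 0x2300001],
    .c (nat_lit 1) (nat_lit 0x33023),.c (nat_lit 1) (nat_lit 0x200302),
    .r (nat_lit 0x1bdf) (nat_lit 4) [nat_lit 0x3334251,nat_lit 0x2300001],
    .r (nat_lit 0x1b36) (nat_lit 5) [nat_lit 0x33021,nat_lit 0x242031,nat_lit 0x22001],
    .c (nat_lit 2) (nat_lit 0x30202),.c (nat_lit 0) (nat_lit 517),.c (nat_lit 3) (nat_lit 2),
    .r (nat_lit 0x1ae0) (nat_lit 7) [nat_lit 0x3203232,nat_lit 0x3242322,nat_lit 0x2353222],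
    .r (nat_lit 0x1c42) (nat_lit 3) [nat_lit 0x22001,nat_lit 33],.r (nat_lit 0x109c) (nat_lit 3) [nat_lit 0x2333201,
    nat_lit 0x2001,nat_lit 0x3203231,nat_lit 0x22001],.c (nat_lit 2) (nat_lit 0x333223),
    .r (nat_lit 0x19d3) (nat_lit 4) [nat_lit 0x2001,nat_lit 0x20001,nat_lit 0x200001,nat_lit 0x2000001],
    .r (nat_lit 0x1cd0) (nat_lit 2) [nat_lit 33,nat_lit 0x22001,nat_lit 0x203031],
    .r (nat_lit 0x1c8d) (nat_lit 5) [nat_lit 33,nat_lit 0x2333201,nat_lit 0x22001],.c (nat_lit 4) (nat_lit 2),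
    .r (nat_lit 0x108a) (nat_lit 5) [nat_lit 33,nat_lit 0x22001,nat_lit 0x2333201,nat_lit 0x2001],
    .c (nat_lit 0) (nat_lit 0x46005),.c (nat_lit 0) (nat_lit 0x22003),.c (nat_lit 2) (nat_lit 0x2403),
    .c (nat_lit 5) (nat_lit 2),.c (nat_lit 0) (nat_lit 0x323325),.c (nat_lit 1) (nat_lit 0x230002),
    .c (nat_lit 0) (nat_lit 0x323325),.r (nat_lit 0x108a) (nat_lit 5) [nat_lit 0x20021,nat_lit 0x22001,
    nat_lit 0x2333201,nat_lit 0x2001],.c (nat_lit 6) (nat_lit 2),.r (nat_lit 0x1b36) (nat_lit 5) [nat_lit 0x330021,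
    nat_lit 0x440031,nat_lit 0x22001],.c (nat_lit 0) (nat_lit 0x20007),.c (nat_lit 0) (nat_lit 0x40007),
    .c (nat_lit 7) (nat_lit 2)]]

/-- nodes -/
noncomputable def rD7k_24_27 : List RJ :=
  [.l (nat_lit 11) (nat_lit 480) (nat_lit 3) (nat_lit 0xe3000000de000000e9000000e9000000e9000000f3000000dd000000dd000000dd000000ff000000d30000012e000000f9000000f2) (nat_lit 0x500000004b00000045000000450000003b0000004500000051000000510000002f00000051000000000000005b0000003c00000035)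
    (nat_lit 0x1262384f8a317028c3c0921a62207187814e2d0428931322645e8950f02346288d1e02144e8b513228c540ad15c2904c07e1702b46e87815a2884c89f1482a0540a4130260458a81e02385408b12a28c520a415c2904409e174260890bd1582b45e8b81502b8510ae16c288620782463385b8be11a2484c07e1442785b0a20f01e06e8821221e03c0781302605b0881402d85708c0f0208558a811a220540ad0f02604607815c1e06e882176434628d31162e0620ba15c1e0680ae1fe2906992510a1e04707819c2f4410821482083c0780f0278780e31e0374919120f03747f8dd25c1e0760f916a2d0458a217c2b45407824a4347c89e17a3104e8a71502b45b8ac156244698bb1d81e0600bd)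
    (nat_lit 0x126780f01e03c0780f01e03c0780f01e03c0780470933c0780f01e03c0780f01e03c0780f01e013e264541e03c0780f01e03c0780f01e03c07805189915a2a0f01e03c0780f01e03c0780f01e01702f4570a815c780f01e03c0780f01e03c078051895148290520ae3c0780f01e03c0780f01e00f01e04c0981102d85b1e03c0780f01e03c07804908d0fc2604f0a21442d8f01e03c0780f01e01a63145c08b1743103c0ae15c780f01e03c07804408d15a2a04c0780f02303c0ae3c0780f01e01c63c06e8f02244686e8781ba3c03c1e03c07803c0850f02385e8ce104208410a40f01e0f01e014e274568a81582dc488ab17634c3c0ec17a7805a0b514422c568be0f02a08212013c3c0620bd)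
    (nat_lit 5) (nat_lit 37)
    [[nat_lit 2,nat_lit 17,nat_lit 0x1011,nat_lit 0x1101,nat_lit 0x1001,nat_lit 0x2001,nat_lit 0x11001,
    nat_lit 0x101001,nat_lit 0x1001001,nat_lit 0x10001,nat_lit 0x100001,nat_lit 0x1000001,nat_lit 0x1100001],
    [nat_lit 32,nat_lit 48,nat_lit 0x1020,nat_lit 272,nat_lit 0x1110,nat_lit 0x1010,nat_lit 0x1001010,nat_lit 0x2010,
    nat_lit 0x11010,nat_lit 0x101010,nat_lit 0x100010,nat_lit 0x1000010],[nat_lit 512,nat_lit 0x1200,nat_lit 0x1100,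
    nat_lit 0x2100,nat_lit 0x11100,nat_lit 0x101100,nat_lit 0x1001100,nat_lit 0x10100,nat_lit 0x100100,
    nat_lit 0x100200,nat_lit 0x110100,nat_lit 0x1100100,nat_lit 0x1000100],[nat_lit 0x2000,nat_lit 0x102000,
    nat_lit 0x1002000,nat_lit 0x11000,nat_lit 0x21000,nat_lit 0x111000,nat_lit 0x1011000,nat_lit 0x101000,
    nat_lit 0x201000,nat_lit 0x1101000,nat_lit 0x1001000,nat_lit 0x2001000],[nat_lit 0x20000,nat_lit 0x1020000,
    nat_lit 0x110000,nat_lit 0x1010000],[nat_lit 0x200000,nat_lit 0x1100000,nat_lit 0x2100000],[nat_lit 0x2000000,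
    nat_lit 0x3000000]]
    [.c (nat_lit 1) (nat_lit 2),.r (nat_lit 0x1bec) (nat_lit 13) [nat_lit 65,nat_lit 0x300861],
    .r (nat_lit 0x1b04) (nat_lit 9) [nat_lit 0x6518841,nat_lit 0x4210061],.c (nat_lit 1) (nat_lit 0x200c43),
    .c (nat_lit 0) (nat_lit 0x210003),.r (nat_lit 0x174f) (nat_lit 13) [nat_lit 0x10001,nat_lit 0x6518841],
    .r (nat_lit 0x1bec) (nat_lit 13) [nat_lit 0x4210061,nat_lit 0x6518841],.c (nat_lit 0) (nat_lit 0x230005),
    .c (nat_lit 0) (nat_lit 0x230005),.r (nat_lit 0x1b04) (nat_lit 9) [nat_lit 0x300861,nat_lit 65],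
    .c (nat_lit 0) (nat_lit 0x230005),.c (nat_lit 0) (nat_lit 0x230005),.c (nat_lit 1) (nat_lit 0x200002),
    .c (nat_lit 2) (nat_lit 2),.r (nat_lit 0xdf1) (nat_lit 4) [nat_lit 0xc00001,nat_lit 0x600a1,nat_lit 0xf36b001,
    nat_lit 129],.r (nat_lit 0x1b04) (nat_lit 9) [nat_lit 0x6729042,nat_lit 0x4220062],
    .r (nat_lit 0x1b04) (nat_lit 9) [nat_lit 65,nat_lit 0x300861],.r (nat_lit 0x1b7d) (nat_lit 13) [nat_lit 0x318801,
    nat_lit 0x200001,nat_lit 0x10c41],.r (nat_lit 0x1c42) (nat_lit 8) [nat_lit 0x318801,nat_lit 65],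
    .r (nat_lit 8) (nat_lit 8) [nat_lit 0x210061,nat_lit 0x318801],.r (nat_lit 0x1c8d) (nat_lit 11) [nat_lit 0x10001,
    nat_lit 65,nat_lit 0x318801],.c (nat_lit 1) (nat_lit 0x210803),.r (nat_lit 0xedb) (nat_lit 2) [nat_lit 0x4200001,
    nat_lit 0x20001,nat_lit 0x6729001,nat_lit 0x28081],.r (nat_lit 0x1c92) (nat_lit 5) [nat_lit 0x18041,
    nat_lit 0x318801,nat_lit 0x10001],.r (nat_lit 0x1c42) (nat_lit 13) [nat_lit 65,nat_lit 0x318801],
    .c (nat_lit 3) (nat_lit 2),.c (nat_lit 1) (nat_lit 0x219483),.r (nat_lit 0x174f) (nat_lit 13) [nat_lit 0x10001,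
    nat_lit 65],.r (nat_lit 0x1a46) (nat_lit 3) [nat_lit 65,nat_lit 0x10001,nat_lit 0x318801],
    .r (nat_lit 0x13c7) (nat_lit 4) [nat_lit 0x60010a1,nat_lit 0x30001,nat_lit 0x4601481,nat_lit 0x6739041],
    .r (nat_lit 0x19b4) (nat_lit 4) [nat_lit 0x18861,nat_lit 0x300041,nat_lit 0x10001],
    .r (nat_lit 0x19f5) (nat_lit 5) [nat_lit 0x63290a1,nat_lit 0x4200001,nat_lit 0x10001,nat_lit 0x6729001],
    .r (nat_lit 0x1bec) (nat_lit 13) [nat_lit 0x300861,nat_lit 65],.c (nat_lit 0) (nat_lit 0x319485),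
    .c (nat_lit 7) (nat_lit 0x329483),.r (nat_lit 0x1cd0) (nat_lit 11) [nat_lit 0x10001,nat_lit 0x318801,
    nat_lit 0x200c41],.c (nat_lit 1) (nat_lit 0x210862),.c (nat_lit 0) (nat_lit 0x319485),.c (nat_lit 4) (nat_lit 2),
    .c (nat_lit 0) (nat_lit 0x20003),.c (nat_lit 0) (nat_lit 0x20003),.r (nat_lit 0x1bec) (nat_lit 7) [nat_lit 65,
    nat_lit 0x318801],.r (nat_lit 0x1bec) (nat_lit 13) [nat_lit 0x4220062,nat_lit 0x6729042],
    .r (nat_lit 0x19ed) (nat_lit 11) [nat_lit 0x10001,nat_lit 0x4200001,nat_lit 0x6318041],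
    .r (nat_lit 0x1b49) (nat_lit 5) [nat_lit 0x200061,nat_lit 0x318801,nat_lit 0x10001],
    .c (nat_lit 0) (nat_lit 0x10003),.c (nat_lit 0) (nat_lit 0x20003),.c (nat_lit 0) (nat_lit 0x10003),
    .c (nat_lit 0) (nat_lit 0x10003),.c (nat_lit 0) (nat_lit 0x20003),.c (nat_lit 5) (nat_lit 2),
    .r (nat_lit 0xdf2) (nat_lit 4) [nat_lit 0x400001,nat_lit 65,nat_lit 0x6729001,nat_lit 0x20061],
    .r (nat_lit 0x1750) (nat_lit 6) [nat_lit 65,nat_lit 0x318801],.r (nat_lit 0x1c86) (nat_lit 13) [nat_lit 0x10061,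
    nat_lit 0x4200001,nat_lit 65],.c (nat_lit 6) (nat_lit 2),.c (nat_lit 0) (nat_lit 0x10003),
    .c (nat_lit 0) (nat_lit 0x20003),.c (nat_lit 7) (nat_lit 2),.r (nat_lit 0x1c7f) (nat_lit 2) [nat_lit 65,
    nat_lit 0x10001,nat_lit 0x318801]],
    .l (nat_lit 12) (nat_lit 888) (nat_lit 3) (nat_lit 0x14600000152000001ac000001ac0000019900000199000001b80000014a000001840000015000000150000001a20000016400000164) (nat_lit 0x66000000720000000c0000000c0000001f0000001f0000006e00000000000000680000003400000016000000680000005400000054)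
    (nat_lit 0x1280de10012c1271270de1380de1120de0de0f20f217212815e1461291710e215e0de0de1280e210c0fe14612c16211a18117517e1b614c17a19615011016c15e1001a016218d18d1c21fa0e217c17e15415810617112718d17512c17a1271991210e11d519317f15d12912718d18117a12c0f719916b12b1e51a315314515e1381fa1b61991991841b80de1b81a21161641020e20de1c217e0f71270e21840e21160de0e20f60f00de11217c17a12b0e11161b811c14a17411c12a1860de0de0e214c16b1210e20de0e811c1460e80fc0fc0e20de1541501a31930e21160e811c13a0e80fc0f01280de17e1961e51d50de1a214617418c13a14e14e0fe0f210616c14515d0f01020fc18614e0f016211010c0f215811015317f0f61640fc12a14e0fc106162)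
    (nat_lit 0x1283783783783783783783783783783783783783780de12837837837837837837837837837837837837810015e16237837837837837837837837837837837812c14611a16237837837837837837837837837837812712918118d12c37837837837837837837837837812717117518d17a12c3783783783783783783783780de0e217e1c21270f718437837837837837837837813815e1b61fa1991991b81843783783783783783780de0de14c0e212116b0de0e211c3783783783783781120de17a17c0e112b1b811614a11c3783783783780de12819617e1d51e51a20de17414613a3783783780de0e21501541931a31160e211c0e80e813a3783780f210c11015817f1531640f612a0fc0fc14e1623780f20fe16c10615d1451020f01860fc0f014e110162)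
    (nat_lit 4) (nat_lit 79)
    [[nat_lit 2,nat_lit 0x1002,nat_lit 0x1000002,nat_lit 18,nat_lit 17,nat_lit 273,nat_lit 0x1011,nat_lit 0x1000011,
    nat_lit 257,nat_lit 258,nat_lit 513,nat_lit 0x1101,nat_lit 0x1000101,nat_lit 0x10101,nat_lit 0x1001,
    nat_lit 0x2001,nat_lit 0x1001001,nat_lit 0x10001,nat_lit 0x100001,nat_lit 0x1100001,nat_lit 0x1000001,
    nat_lit 0x2000001],[nat_lit 32,nat_lit 0x1020,nat_lit 0x1000020,nat_lit 272,nat_lit 0x1110,nat_lit 0x1000110,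
    nat_lit 0x1010,nat_lit 0x1001010,nat_lit 0x100010,nat_lit 0x1000010,nat_lit 0x2000010],[nat_lit 512,nat_lit 768,
    nat_lit 0x1200,nat_lit 0x10200,nat_lit 0x1000200,nat_lit 0x1100,nat_lit 0x11100,nat_lit 0x1001100,nat_lit 0x10100,
    nat_lit 0x1010100,nat_lit 0x100100,nat_lit 0x1100100,nat_lit 0x110100,nat_lit 0x1000100,nat_lit 0x2000100],
    [nat_lit 0x2000,nat_lit 0x11000,nat_lit 0x1001000,nat_lit 0x2001000],[nat_lit 0x20000,nat_lit 0x110000,
    nat_lit 0x1010000],[nat_lit 0x200000,nat_lit 0x1100000,nat_lit 0x2100000],[nat_lit 0x2000000]]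
    [.c (nat_lit 1) (nat_lit 2),.c (nat_lit 0) (nat_lit 0x33543),.c (nat_lit 0) (nat_lit 0x50543),
    .r (nat_lit 0x1ccb) (nat_lit 4) [nat_lit 0x3021,nat_lit 0x2001,nat_lit 0x200001],
    .r (nat_lit 0x1750) (nat_lit 4) [nat_lit 33,nat_lit 0x200001],.r (nat_lit 0x19c6) (nat_lit 2) [nat_lit 0x303231,
    nat_lit 0x200001,nat_lit 0x2001],.r (nat_lit 0x1cd0) (nat_lit 4) [nat_lit 0x2001,nat_lit 0x200001,
    nat_lit 0x303021],.r (nat_lit 0x1ba5) (nat_lit 0) [nat_lit 0x200001,nat_lit 0x2031,nat_lit 0x303201],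
    .c (nat_lit 0) (nat_lit 0x30323),.c (nat_lit 0) (nat_lit 0x50543),.c (nat_lit 0) (nat_lit 0x50543),
    .r (nat_lit 0x19b4) (nat_lit 11) [nat_lit 0x3231,nat_lit 0x202321,nat_lit 0x2001],
    .c (nat_lit 0) (nat_lit 0x30323),.r (nat_lit 0x1ccf) (nat_lit 1) [nat_lit 0x303231,nat_lit 0x2001,
    nat_lit 0x200001],.c (nat_lit 0) (nat_lit 0x33543),.r (nat_lit 0xd98) (nat_lit 10) [nat_lit 65,nat_lit 0x8001,
    nat_lit 0x800051,nat_lit 0x559831],.c (nat_lit 3) (nat_lit 0x2232),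
    .r (nat_lit 0x1bcb) (nat_lit 13) [nat_lit 0x20001,nat_lit 0x200001,nat_lit 33],
    .r (nat_lit 0x17b0) (nat_lit 8) [nat_lit 0x200031,nat_lit 0x20031,nat_lit 0x2001,nat_lit 33],
    .r (nat_lit 0x174e) (nat_lit 13) [nat_lit 0x3231,nat_lit 0x2001],.c (nat_lit 0) (nat_lit 0x30323),
    .c (nat_lit 0) (nat_lit 0x50543),.c (nat_lit 2) (nat_lit 2),.r (nat_lit 0x1972) (nat_lit 13) [nat_lit 0x200001,
    nat_lit 0x224522,nat_lit 0x303201],.r (nat_lit 0xd99) (nat_lit 0) [nat_lit 0x400001,nat_lit 0x335401,nat_lit 33,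
    nat_lit 0x320001],.r (nat_lit 0x1bec) (nat_lit 8) [nat_lit 33,nat_lit 0x200001],
    .r (nat_lit 0x13c6) (nat_lit 4) [nat_lit 0x420051,nat_lit 0x6001,nat_lit 0x230041,nat_lit 0x320021],
    .r (nat_lit 0x1b49) (nat_lit 12) [nat_lit 0x303231,nat_lit 0x200001,nat_lit 0x2001],
    .r (nat_lit 0x1bec) (nat_lit 0) [nat_lit 0x202031,nat_lit 33],.r (nat_lit 0x1caf) (nat_lit 1) [nat_lit 0x2001,
    nat_lit 0x3021],.r (nat_lit 0x1b04) (nat_lit 6) [nat_lit 0x202031,nat_lit 33],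
    .r (nat_lit 0x19b7) (nat_lit 0) [nat_lit 0x2031,nat_lit 0x200001,nat_lit 0x20001,nat_lit 33],
    .r (nat_lit 0x19c8) (nat_lit 1) [nat_lit 0x3021,nat_lit 0x2001,nat_lit 0x20001,nat_lit 0x200001],
    .c (nat_lit 3) (nat_lit 2),.r (nat_lit 0x174f) (nat_lit 13) [nat_lit 0x2001,nat_lit 0x230021],
    .c (nat_lit 4) (nat_lit 0x23002),.r (nat_lit 0x1b04) (nat_lit 6) [nat_lit 0x230021,nat_lit 0x22031],
    .c (nat_lit 0) (nat_lit 0x50543),.r (nat_lit 0x174f) (nat_lit 13) [nat_lit 0x2001,nat_lit 33],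
    .r (nat_lit 0x1b7d) (nat_lit 0) [nat_lit 0x200001,nat_lit 0x303201,nat_lit 0x2321],
    .r (nat_lit 0x10c9) (nat_lit 8) [nat_lit 0x537631,nat_lit 0x420051,nat_lit 0x6001,nat_lit 0x230041],
    .r (nat_lit 0x1c42) (nat_lit 6) [nat_lit 33,nat_lit 0x200001],.r (nat_lit 8) (nat_lit 5) [nat_lit 0x300231,
    nat_lit 0x200001],.c (nat_lit 0) (nat_lit 0x2003),.r (nat_lit 32) (nat_lit 9) [nat_lit 0x3231,nat_lit 0x2001],
    .r (nat_lit 0x1bec) (nat_lit 8) [nat_lit 0x22031,nat_lit 0x200001],.c (nat_lit 0) (nat_lit 0x30323),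
    .c (nat_lit 0) (nat_lit 0x50543),.c (nat_lit 4) (nat_lit 2),.r (nat_lit 0x1b04) (nat_lit 6) [nat_lit 33,
    nat_lit 0x202031],.c (nat_lit 0) (nat_lit 0x33543),.c (nat_lit 0) (nat_lit 0x33543),.c (nat_lit 5) (nat_lit 2),
    .r (nat_lit 0x1bec) (nat_lit 0) [nat_lit 33,nat_lit 0x202031],.r (nat_lit 0x1c42) (nat_lit 5) [nat_lit 0x200001,
    nat_lit 33],.c (nat_lit 6) (nat_lit 2),.r (nat_lit 0x1b04) (nat_lit 11) [nat_lit 33,nat_lit 0x2001],
    .r (nat_lit 32) (nat_lit 9) [nat_lit 0x35432,nat_lit 0x2001],.c (nat_lit 7) (nat_lit 2)]]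

/-- nodes -/
noncomputable def rD7k_24_28 : List RJ :=
  [.l (nat_lit 15) (nat_lit 0x1e00) (nat_lit 4) (nat_lit 0xbd200000bd200000c8300000c8300000b1100000b11000009f000000ba200000bda00000bda00000cfe00000cfe00000bea00000bea) (nat_lit 0x12c0000012c0000007b0000007b000001ed000001ed0000015c0000030e000001240000012400000000000000000000011400000114)
    (nat_lit 0x19902a983ae8af117ee340c28005a61a0c328065405a6157c21f05d90cc8174e2d5c4f289e513cc20d04660a8e17242f48592083616ae2bc46040afc164c29185a3897516be2fbc7858e65129a2ebc5d3875d1500302054b0a9617ae21a45c48b5f1f363bd44288b6f13ca340c54b0a4614602ab04da88030ef624f45888ae71bee1b944f28bf7152c2c984920a30136a200c49b88311b1223bc68d8c451068169843489751006200c52806e215dc23303d40aa60d9419904f3050017ae2d1c4da89b5199c29406500a7e12b4371044e08d2151c32805af8bef106224f453f08cc112820b86cb09b8207834384660d0617122d7c49b877b19402bb855b089417b42f688790dc417a4169877a8e6511de2b9c6e20aa617b426e05000cfe13242fa85c90ca81f363c2c6c48b1112b41ea05ed0d9616e428007160bea106c21f05b78baf188a1b9446906641b8834385f50bea140031885920abe10a2253468d8df711381b28879103c1c58264856b0a00)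
    (nat_lit 0x19907800f001e003c007800f001e003c007800f001e003c0078005530cc83c007800f001e003c007800f001e003c007800f001e000eba2e9c6041e003c007800f001e003c007800f001e003c0078005788b5715f83020f001e003c007800f001e003c007800f001e0017ee27945930a9614607800f001e003c007800f001e003c00780068189e5148c2a585560a303c007800f001e003c007800f001e000a0027985a38bd7136a26d45281e003c007800f001e003c0078002d3083412ea21a440188030dc42940f001e003c007800f001e001a0c23305af8b890ef624dc5770ca011287800f001e003c0078006500a8e17de2d7c49e8831119829f841708943c007800f001e0019502e487858f9b162236243d4095a1b2c2f685001e003c0078002d30bd21cca3bd457388ef154c37104dc0bda19fc2800f001e00157c2c904a688511bee346c365089c207843c84c90e2c1400780043e0836175e2dbc3728c450cc823486870dc417d42fa86310a00)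
    (nat_lit 4) (nat_lit 43)
    [[nat_lit 2,nat_lit 0x1002,nat_lit 0x1000002,nat_lit 17,nat_lit 0x1011,nat_lit 0x1000011,nat_lit 0x1001,
    nat_lit 0x2001,nat_lit 0x11001,nat_lit 0x101001,nat_lit 0x1001001,nat_lit 0x1002001,nat_lit 0x1011001,
    nat_lit 0x10001,nat_lit 0x100001,nat_lit 0x110001,nat_lit 0x1100001,nat_lit 0x1000001,nat_lit 0x1010001],
    [nat_lit 32,nat_lit 0x1000020,nat_lit 272,nat_lit 0x1000110,nat_lit 0x1010,nat_lit 0x11010,nat_lit 0x1001010,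
    nat_lit 0x10010,nat_lit 0x1010010,nat_lit 0x1000010],[nat_lit 512,nat_lit 768,nat_lit 0x10200,nat_lit 0x1100,
    nat_lit 0x11100,nat_lit 0x1001100,nat_lit 0x10100,nat_lit 0x20100,nat_lit 0x100100,nat_lit 0x1100100,
    nat_lit 0x1000100],[nat_lit 0x2000,nat_lit 0x12000,nat_lit 0x1002000,nat_lit 0x11000,nat_lit 0x21000,
    nat_lit 0x111000,nat_lit 0x1011000,nat_lit 0x101000,nat_lit 0x1101000,nat_lit 0x1001000,nat_lit 0x2002000,
    nat_lit 0x2001000],[nat_lit 0x20000,nat_lit 0x110000,nat_lit 0x1110000,nat_lit 0x1010000],[nat_lit 0x200000,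
    nat_lit 0x1100000],[nat_lit 0x2000000]]
    [.c (nat_lit 1) (nat_lit 2),.c (nat_lit 1) (nat_lit 0x33002),.r (nat_lit 0x198f) (nat_lit 7) [nat_lit 0x440031,
    nat_lit 0x2001,nat_lit 33],.r (nat_lit 0x174d) (nat_lit 4) [nat_lit 0x222031,nat_lit 33],
    .c (nat_lit 2) (nat_lit 0x33002),.r (nat_lit 0x1b7d) (nat_lit 9) [nat_lit 0x303201,nat_lit 0x200001,
    nat_lit 0x2321],.c (nat_lit 0) (nat_lit 0x22003),.c (nat_lit 4) (nat_lit 0x33002),
    .c (nat_lit 5) (nat_lit 0x33002),.c (nat_lit 2) (nat_lit 0x22203),.c (nat_lit 7) (nat_lit 0x33002),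
    .c (nat_lit 0) (nat_lit 0x42003),.c (nat_lit 1) (nat_lit 0x30002),.c (nat_lit 0) (nat_lit 0x42003),
    .r (nat_lit 2) (nat_lit 4) [nat_lit 0x220001,nat_lit 0x300231],.r (nat_lit 0x1cd0) (nat_lit 6) [nat_lit 0x2001,
    nat_lit 0x303201,nat_lit 0x200321],.r (nat_lit 0x13c8) (nat_lit 13) [nat_lit 0x20021,nat_lit 0x30021,
    nat_lit 0x420031,nat_lit 0x535431],.c (nat_lit 0) (nat_lit 0x42003),.c (nat_lit 1) (nat_lit 0x2002),
    .c (nat_lit 2) (nat_lit 2),.r (nat_lit 0x19b2) (nat_lit 9) [nat_lit 0x303201,nat_lit 0x200001,nat_lit 0x300021],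
    .r (nat_lit 2) (nat_lit 4) [nat_lit 0x220001,nat_lit 33],.r (nat_lit 0x1750) (nat_lit 6) [nat_lit 0x330231,
    nat_lit 0x303201],.r (nat_lit 0x1b9f) (nat_lit 5) [nat_lit 0x2031,nat_lit 0x303201,nat_lit 33],
    .r (nat_lit 0x1972) (nat_lit 5) [nat_lit 0x303201,nat_lit 0x2031,nat_lit 0x200001],
    .r (nat_lit 8) (nat_lit 8) [nat_lit 0x202031,nat_lit 0x303201],.r (nat_lit 32) (nat_lit 9) [nat_lit 0x220001,
    nat_lit 33],.r (nat_lit 0x174d) (nat_lit 4) [nat_lit 0x202031,nat_lit 0x20021],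
    .r (nat_lit 0x1b6e) (nat_lit 9) [nat_lit 0x220001,nat_lit 0x222321,nat_lit 0x333201],.c (nat_lit 3) (nat_lit 2),
    .c (nat_lit 0) (nat_lit 0xc6672),.c (nat_lit 0) (nat_lit 0x84452),.r (nat_lit 0x1b04) (nat_lit 10) [nat_lit 33,
    nat_lit 0x2001],.r (nat_lit 0x174e) (nat_lit 5) [nat_lit 0x3231,nat_lit 0x2001],
    .r (nat_lit 32) (nat_lit 11) [nat_lit 0x3231,nat_lit 0x2001],.c (nat_lit 0) (nat_lit 0x33323),
    .r (nat_lit 0x1cd3) (nat_lit 6) [nat_lit 0x2001,nat_lit 0x555431,nat_lit 0x303201],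
    .r (nat_lit 0x174d) (nat_lit 4) [nat_lit 0x422321,nat_lit 0x300231],.r (nat_lit 32) (nat_lit 9) [nat_lit 0x220001,
    nat_lit 0x330231],.c (nat_lit 0) (nat_lit 0x33323),.c (nat_lit 4) (nat_lit 2),.c (nat_lit 0) (nat_lit 0x42003),
    .c (nat_lit 0) (nat_lit 0x40003),.c (nat_lit 0) (nat_lit 0x20003),.c (nat_lit 0) (nat_lit 0x40003),
    .r (nat_lit 0x1cc1) (nat_lit 9) [nat_lit 0x303201,nat_lit 0x424331,nat_lit 0x333201],
    .c (nat_lit 0) (nat_lit 0x20003),.r (nat_lit 8) (nat_lit 5) [nat_lit 0x222031,nat_lit 33],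
    .r (nat_lit 0x1b49) (nat_lit 0) [nat_lit 0x200031,nat_lit 0x303201,nat_lit 0x2001],
    .c (nat_lit 0) (nat_lit 0x20003),.c (nat_lit 0) (nat_lit 0x40003),.c (nat_lit 0) (nat_lit 0x40003),
    .c (nat_lit 5) (nat_lit 2),.r (nat_lit 0x1750) (nat_lit 6) [nat_lit 33,nat_lit 0x303201],
    .r (nat_lit 2) (nat_lit 4) [nat_lit 0x220001,nat_lit 0x330231],.c (nat_lit 0) (nat_lit 0x3003),
    .c (nat_lit 6) (nat_lit 2),.r (nat_lit 0x1bec) (nat_lit 1) [nat_lit 33,nat_lit 0x303201],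
    .c (nat_lit 7) (nat_lit 2)],
    .l (nat_lit 13) (nat_lit 0x5a0) (nat_lit 3) (nat_lit 0x2390000023900000255000002520000028600000239000001f90000027f0000024d0000024e0000023300000233000002480000021e) (nat_lit 0x4d0000004d00000034000000310000004d00000000000000070000008d00000038000000390000005300000053000000680000003e)
    (nat_lit 0x11987b040a20e0f608cc46420510088483cc1e60e887ec3d8233102882044e2390b40930402200110864c3961f510408384422240b4095449c18d1380b984102020d3077040a20510f088436425212585c85743300ff87fc3e021a11c88cc4a42551460a182d024c127093445a19310f092044e1ec0d905a03d828c11906b03501bf11c88fc2f01a812608142e418d0d6093046616c0b407003f21ff0c885a02d0232125893846416815388cc4a624613088b040a22f10008486602e60df893448c1c010a87944181ee0f2876840220115d09c035024e12985a042c2150fd87ec3cc2100c987983fe20211f864c4581ff0fd87b83c01e00e587d44421e60ff882047222d13087e43f620c0f007803961f50fa87ec4341dc0d4092045e16810807683ea1f50f008283961d10f806982f021e10286443cc1e50e5872c36c1e0)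
    (nat_lit 0x1199680b405a02d01680b405a02d01680b405a02d016803d82332d01680b405a02d01680b405a02d01680b405a010288144425a02d01680b405a02d01680b405a02d0168041c2081120884b405a02d01680b405a02d01680b405a00f6089c2d01b21461680b405a02d01680b405a02d0168046623912a894850c28c2d01680b405a02d01680b405a011905a049c24b0b408c84665a02d01680b405a02d0168040a24c0c685c84981ac0b608ccb405a02d01680b405a010088044e02ba12706a02d025310a9680b405a02d016804242001730cc049a1bf0e009183ca2152d01680b405a00f308844101ff11688e43f226110607ec3c05a02d016803cc19310107fc32623f0ff88b03dc1fb0f00780b405a00e8872c34c1f010f05e03222050f287983961cb0f016803f61f50ee08684901a80b408bc3b42100fa87d44141e0)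
    (nat_lit 4) (nat_lit 43)
    [[nat_lit 2,nat_lit 0x1002,nat_lit 17,nat_lit 0x1011,nat_lit 0x10011,nat_lit 0x1000011,nat_lit 257,nat_lit 0x1101,
    nat_lit 0x1001,nat_lit 0x11001,nat_lit 0x1001001,nat_lit 0x101001,nat_lit 0x10001,nat_lit 0x100001,
    nat_lit 0x100011,nat_lit 0x1000001],[nat_lit 32,nat_lit 0x1000020,nat_lit 272,nat_lit 0x10110,nat_lit 0x1010,
    nat_lit 0x1001010,nat_lit 0x10010,nat_lit 0x110010,nat_lit 0x100010,nat_lit 0x1000010],[nat_lit 512,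
    nat_lit 0x1100,nat_lit 0x11100,nat_lit 0x1001100,nat_lit 0x10100,nat_lit 0x1000100],[nat_lit 0x2000,
    nat_lit 0x12000,nat_lit 0x11000,nat_lit 0x111000,nat_lit 0x1011000,nat_lit 0x101000,nat_lit 0x1001000,
    nat_lit 0x1002000,nat_lit 0x1101000],[nat_lit 0x20000,nat_lit 0x110000,nat_lit 0x1010000],[nat_lit 0x200000,
    nat_lit 0x1100000],[nat_lit 0x2000000]]
    [.c (nat_lit 1) (nat_lit 2),.c (nat_lit 1) (nat_lit 0x2232),.c (nat_lit 0) (nat_lit 0x22203),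
    .c (nat_lit 2) (nat_lit 0x2232),.r (nat_lit 32) (nat_lit 5) [nat_lit 0x3231,nat_lit 0x2001],
    .r (nat_lit 0x174e) (nat_lit 8) [nat_lit 0x3231,nat_lit 0x2001],.c (nat_lit 0) (nat_lit 0x22203),
    .c (nat_lit 3) (nat_lit 0x2232),.c (nat_lit 0) (nat_lit 0x3323),.c (nat_lit 5) (nat_lit 0x2232),
    .c (nat_lit 7) (nat_lit 0x2232),.c (nat_lit 3) (nat_lit 0x3023),.r (nat_lit 0x1c82) (nat_lit 4) [nat_lit 33,
    nat_lit 0x2001],.r (nat_lit 8) (nat_lit 4) [nat_lit 0x30231,nat_lit 33],.c (nat_lit 3) (nat_lit 0x22403),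
    .r (nat_lit 0x1b04) (nat_lit 2) [nat_lit 33,nat_lit 0x2001],.c (nat_lit 2) (nat_lit 2),
    .r (nat_lit 0x1caf) (nat_lit 4) [nat_lit 0x2001,nat_lit 0x240031],.c (nat_lit 4) (nat_lit 0x35522),
    .r (nat_lit 0x174e) (nat_lit 8) [nat_lit 0x355221,nat_lit 0x2001],.r (nat_lit 0x1cd4) (nat_lit 7) [nat_lit 0x2001,
    nat_lit 0x30021,nat_lit 0x3231],.r (nat_lit 0x1b10) (nat_lit 6) [nat_lit 0x20031,nat_lit 0x33201,nat_lit 0x2001],
    .c (nat_lit 0) (nat_lit 0x2003),.r (nat_lit 32) (nat_lit 8) [nat_lit 0x33201,nat_lit 0x22031],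
    .r (nat_lit 0x1b53) (nat_lit 8) [nat_lit 0x2031,nat_lit 0x33201,nat_lit 33],.c (nat_lit 0) (nat_lit 0x2003),
    .c (nat_lit 3) (nat_lit 2),.r (nat_lit 0x174d) (nat_lit 8) [nat_lit 0x30231,nat_lit 33],
    .r (nat_lit 0x1952) (nat_lit 0) [nat_lit 0x33201,nat_lit 0x2001,nat_lit 0x330231,nat_lit 0x20321],
    .r (nat_lit 0x1c12) (nat_lit 11) [nat_lit 0x33201,nat_lit 0x30231,nat_lit 0x22321],
    .r (nat_lit 0x1b6e) (nat_lit 8) [nat_lit 0x33201,nat_lit 0x30021,nat_lit 0x20001],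
    .r (nat_lit 32) (nat_lit 8) [nat_lit 0x33201,nat_lit 33],.c (nat_lit 4) (nat_lit 2),
    .r (nat_lit 0x198f) (nat_lit 4) [nat_lit 0x55431,nat_lit 0x2001,nat_lit 33],
    .r (nat_lit 0x174f) (nat_lit 8) [nat_lit 0x2001,nat_lit 33],.c (nat_lit 7) (nat_lit 0x33323),
    .c (nat_lit 3) (nat_lit 0x22432),.c (nat_lit 2) (nat_lit 0x24232),
    .r (nat_lit 0x174e) (nat_lit 3) [nat_lit 0x333231,nat_lit 33],.r (nat_lit 0x1b70) (nat_lit 11) [nat_lit 33,
    nat_lit 0x55431,nat_lit 0x595431,nat_lit 0x20001],.c (nat_lit 5) (nat_lit 0x33323),.c (nat_lit 5) (nat_lit 2),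
    .r (nat_lit 32) (nat_lit 5) [nat_lit 0x333231,nat_lit 0x2001],.c (nat_lit 0) (nat_lit 0x2003),
    .c (nat_lit 6) (nat_lit 2),.r (nat_lit 0x174e) (nat_lit 8) [nat_lit 0x333231,nat_lit 0x2001],
    .c (nat_lit 7) (nat_lit 2)],
    .l (nat_lit 9) (nat_lit 120) (nat_lit 3) (nat_lit 0x310000002f000000300000003000000030000000300000002b0000003500000030000000300000002b000000370000003800000038) (nat_lit 0x90000000700000008000000080000000800000008000000030000000d0000000800000008000000010000000d0000000000000000)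
    (nat_lit 0x140a85229148a43c24148a46822188c44c281389c4e27160884e271a0885e2f138a45028140a05a23140a05e23180a84e29140a050281688c50281788c6030138a45028140a05a23140a05e23180c04e29140a050281688c50281788c60301109046231188c501e1188c541e158ac581e168b45a2d190a05a2d0f0a06a31138a45028140a05a23140a06623201184e29140a050281688c50281988c64381108846231188c501e1188c441e1589c6834178bc5e2f0f0a866331b0886e37178c4602a180c0622b1c1186e271a0e05e31180c060301a8ac64401b8ac7034)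
    (nat_lit 0x141e0f0783c1e0f0783c1e0f0783c1e054283c1e0f0783c1e0f0783c1e0f0781489c50783c1e0f0783c1e0f0783c1e05227140a0f0783c1e0f0783c1e0f0781489c5028141e0f0783c1e0f0783c1e05227140a050283c1e0f0783c1e0f0780f0b05a2d168b450783c1e0f0783c1e048221188c46230f0a0f0783c1e0f0781489c5028140a0462d141e0f0783c1e05227140a05028118b450283c1e0f0781a0d05e2f178bc541e198cc44783c1e044221188c46230f0a046230f088f078188bc6030180c05635200c856371a1e0622f150c06030158c48c38138dc7034)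
    (nat_lit 4) (nat_lit 37)
    [[nat_lit 2,nat_lit 17,nat_lit 0x1011,nat_lit 0x1001,nat_lit 0x10001,nat_lit 0x100001,nat_lit 0x1000001],
    [nat_lit 32,nat_lit 48,nat_lit 0x1020,nat_lit 0x10020,nat_lit 0x100020,nat_lit 272,nat_lit 0x1010,
    nat_lit 0x1001010,nat_lit 0x1110,nat_lit 0x2010,nat_lit 0x11010,nat_lit 0x101010,nat_lit 0x10010,nat_lit 0x100010,
    nat_lit 0x1000010],[nat_lit 512,nat_lit 0x1100,nat_lit 0x1001100,nat_lit 0x10100,nat_lit 0x100100,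
    nat_lit 0x1000100],[nat_lit 0x2000,nat_lit 0x1002000,nat_lit 0x11000,nat_lit 0x101000,nat_lit 0x1001000,
    nat_lit 0x1011000,nat_lit 0x1101000,nat_lit 0x2001000],[nat_lit 0x20000,nat_lit 0x110000,nat_lit 0x1010000],
    [nat_lit 0x200000,nat_lit 0x1100000],[nat_lit 0x2000000]]
    [.c (nat_lit 1) (nat_lit 2),.r (nat_lit 4) (nat_lit 8) [nat_lit 0x300231,nat_lit 33],
    .c (nat_lit 5) (nat_lit 0x30023),.c (nat_lit 0) (nat_lit 0x33023),
    .r (nat_lit 0x1b9d) (nat_lit 4) [nat_lit 0x300231,nat_lit 0x2001,nat_lit 0x200001],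
    .r (nat_lit 0x1bb4) (nat_lit 10) [nat_lit 0x202031,nat_lit 33,nat_lit 0x3021],.c (nat_lit 0) (nat_lit 0x33023),
    .c (nat_lit 2) (nat_lit 2),.r (nat_lit 0x1080) (nat_lit 10) [nat_lit 0x770601,nat_lit 0x60031,nat_lit 0x7001,
    nat_lit 33],.r (nat_lit 0x1081) (nat_lit 4) [nat_lit 0x333201,nat_lit 0x323231,nat_lit 0x622301,nat_lit 33],
    .r (nat_lit 0x1cce) (nat_lit 3) [nat_lit 0x30021,nat_lit 33,nat_lit 0x202001,nat_lit 0x503231],
    .r (nat_lit 0x1cc2) (nat_lit 4) [nat_lit 33,nat_lit 0x2001,nat_lit 0x200001,nat_lit 0x333201],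
    .r (nat_lit 4) (nat_lit 3) [nat_lit 0x220031,nat_lit 33],.r (nat_lit 0x1b93) (nat_lit 13) [nat_lit 0x202001,
    nat_lit 0x220321,nat_lit 0x303231],.r (nat_lit 4) (nat_lit 3) [nat_lit 0x303231,nat_lit 0x422321],
    .r (nat_lit 0x1082) (nat_lit 7) [nat_lit 0x43231,nat_lit 0x50001,nat_lit 0x2231,nat_lit 0x402321],
    .r (nat_lit 0x1083) (nat_lit 6) [nat_lit 65,nat_lit 0xc44521,nat_lit 0x554431,nat_lit 0x555431],
    .c (nat_lit 1) (nat_lit 0x30023),.r (nat_lit 0x1b96) (nat_lit 2) [nat_lit 0x202001,nat_lit 33,nat_lit 0x3031],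
    .c (nat_lit 7) (nat_lit 0x3002),.r (nat_lit 0x1ae2) (nat_lit 2) [nat_lit 33,nat_lit 0x202001,nat_lit 0x3031],
    .r (nat_lit 0x1b93) (nat_lit 4) [nat_lit 33,nat_lit 0x2001,nat_lit 0x303231],.c (nat_lit 3) (nat_lit 2),
    .r (nat_lit 0x1b5d) (nat_lit 10) [nat_lit 0x202031,nat_lit 33,nat_lit 0x533221],.c (nat_lit 1) (nat_lit 0x3223),
    .r (nat_lit 0x1b8b) (nat_lit 4) [nat_lit 0x202031,nat_lit 0x220031,nat_lit 33],.c (nat_lit 0) (nat_lit 0x20003),
    .c (nat_lit 0) (nat_lit 0x20003),.c (nat_lit 4) (nat_lit 2),.r (nat_lit 0x1b5d) (nat_lit 10) [nat_lit 0x330231,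
    nat_lit 0x422321,nat_lit 33],.r (nat_lit 4) (nat_lit 10) [nat_lit 0x300231,nat_lit 33],
    .c (nat_lit 0) (nat_lit 0x33323),.c (nat_lit 0) (nat_lit 0x33023),
    .r (nat_lit 0x1b8b) (nat_lit 4) [nat_lit 0x330231,nat_lit 0x303231,nat_lit 0x422321],
    .c (nat_lit 0) (nat_lit 0x33323),.c (nat_lit 0) (nat_lit 0x33323),.c (nat_lit 5) (nat_lit 2),
    .r (nat_lit 4) (nat_lit 7) [nat_lit 0x220031,nat_lit 33],.r (nat_lit 0x1c53) (nat_lit 2) [nat_lit 0x202001,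
    nat_lit 0x303231,nat_lit 0x200321],.c (nat_lit 6) (nat_lit 2),.c (nat_lit 0) (nat_lit 771),
    .c (nat_lit 7) (nat_lit 2)]]

/-- nodes -/
noncomputable def rD7k_24_29 : List RJ :=
  [.l (nat_lit 11) (nat_lit 480) (nat_lit 3) (nat_lit 0xc3000000c3000000cf000000cf000000cd000000cd000000dc000000a8000000c1000000c1000000b9000000b9000000aa000000d2) (nat_lit 0x19000000190000000d0000000d0000000f0000000f00000034000000000000001b0000001b00000023000000230000000a00000032)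
    (nat_lit 0x1402805b0b621c380438c51502a84f098172244550a016c2d8800d20f6314560a81302705c89116c2d8520c217c3004d883170320560a819e2945b0b6184290600c01723945a0b01582b04c89d1a4380600c01502f84e8cd164250550aa18626c8010e1802f85e0a813a334520b415c2a86088718a3147288319a334530de1822f4668c70f02983d88717226c4e89d0f02983f88d10a20c4e0781502a8580c8168250468bd1502884e0ac17e23c560a81682e0520b20fe3044c0a81442785f87f138260560a81542a8418c713c2b0530a415e20c4c09e1582b0570aa10a3345109c12c298578871222444e8a510e26c3c0a60fe23c438831441e05c8b913233c608c31381e05f8bf15e2bc690a2)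
    (nat_lit 0x140780f01e03c0780f01e03c0780f01e03c0780500a03c0780f01e03c0780f01e03c0780f01e016c2d8521e03c0780f01e03c0780f01e03c07805b0b6184290f01e03c0780f01e03c0780f01e021c4005f0c0150780f01e03c0780f01e03c0780700d21803005f0a83c0780f01e03c0780f01e010e1ec4d8b913a274531e03c0780f01e03c0780628c5106394668cd1bc298f01e03c0780f01e01502b05c0b41642906087f150780f01e03c0780550a81902c04a0b417a234510a83c0780f01e013c260560ac1542b866885138288531e03c07804c09c1502b0550aa18e20c5609e148298f01e01722e4678991863043c09c17e2fc578af1447804889114a2744d88714c1e04787f10621c3c0a2)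
    (nat_lit 5) (nat_lit 61)
    [[nat_lit 2,nat_lit 18,nat_lit 0x1002,nat_lit 17,nat_lit 33,nat_lit 273,nat_lit 0x1011,nat_lit 0x1000011,
    nat_lit 257,nat_lit 0x10101,nat_lit 0x1001,nat_lit 0x1101,nat_lit 0x2001,nat_lit 0x11001,nat_lit 0x101001,
    nat_lit 0x1001001,nat_lit 0x10001,nat_lit 0x100001,nat_lit 0x100011,nat_lit 0x1000001],[nat_lit 32,
    nat_lit 0x1000020,nat_lit 272,nat_lit 0x1010,nat_lit 0x101010,nat_lit 0x10010,nat_lit 0x100010,nat_lit 0x1000010,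
    nat_lit 0x2000010],[nat_lit 512,nat_lit 0x1100,nat_lit 0x101100,nat_lit 0x10100,nat_lit 0x100100,
    nat_lit 0x1000100],[nat_lit 0x2000,nat_lit 0x11000,nat_lit 0x101000,nat_lit 0x1001000,nat_lit 0x1101000],
    [nat_lit 0x20000,nat_lit 0x110000],[nat_lit 0x200000,nat_lit 0x1100000],[nat_lit 0x2000000]]
    [.c (nat_lit 1) (nat_lit 2),.r (nat_lit 0x1a9a) (nat_lit 4) [nat_lit 0x60180c3,nat_lit 0x80200e3,
    nat_lit 0x200001],.r (nat_lit 0x1cad) (nat_lit 2) [nat_lit 65,nat_lit 0x6018003,nat_lit 0x4610003],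
    .c (nat_lit 0) (nat_lit 0x230807),.r (nat_lit 0x1a9a) (nat_lit 4) [nat_lit 0x6048183,nat_lit 0x80501a3,
    nat_lit 0x200001],.r (nat_lit 0x1b9d) (nat_lit 2) [nat_lit 0x300861,nat_lit 0x6018003,nat_lit 0x4610003],
    .r (nat_lit 32) (nat_lit 7) [nat_lit 0x300861,nat_lit 0x60180c3],.c (nat_lit 5) (nat_lit 0x260807),
    .r (nat_lit 0x1c53) (nat_lit 4) [nat_lit 0x200001,nat_lit 0x300861,nat_lit 0x4611cc3],
    .r (nat_lit 0x1ccc) (nat_lit 10) [nat_lit 0x200001,nat_lit 0x300861,nat_lit 0xa711e43],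
    .r (nat_lit 0x1c1d) (nat_lit 2) [nat_lit 65,nat_lit 0x6018003,nat_lit 0x300861],
    .r (nat_lit 0x1748) (nat_lit 2) [nat_lit 0x10001,nat_lit 0x7198e1,nat_lit 0x200001],
    .r (nat_lit 0x1cac) (nat_lit 2) [nat_lit 65,nat_lit 0x6018003,nat_lit 0x4610003],
    .r (nat_lit 0x1b9b) (nat_lit 2) [nat_lit 0x67180c3,nat_lit 0x6018003,nat_lit 0x4610003],
    .r (nat_lit 8) (nat_lit 1) [nat_lit 0x300861,nat_lit 0x200001],.r (nat_lit 0x1cd6) (nat_lit 2) [nat_lit 0x6018003,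
    nat_lit 0x67198e3,nat_lit 0x4610003],.c (nat_lit 0) (nat_lit 0x230007),
    .r (nat_lit 0x1c42) (nat_lit 1) [nat_lit 0x200001,nat_lit 65],.r (nat_lit 4) (nat_lit 0) [nat_lit 0x300861,
    nat_lit 0x60180c3],.r (nat_lit 0x1a9a) (nat_lit 4) [nat_lit 65,nat_lit 0x40100e3,nat_lit 0x200001],
    .c (nat_lit 2) (nat_lit 2),.c (nat_lit 0) (nat_lit 0x201406),.r (nat_lit 0x1750) (nat_lit 13) [nat_lit 65,
    nat_lit 0x200001],.r (nat_lit 0x1ae3) (nat_lit 4) [nat_lit 65,nat_lit 0x200001,nat_lit 0x40100e3],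
    .r (nat_lit 0x1b96) (nat_lit 4) [nat_lit 0x200001,nat_lit 65,nat_lit 0x40100e3],.c (nat_lit 0) (nat_lit 0x230807),
    .r (nat_lit 0x1ae2) (nat_lit 4) [nat_lit 65,nat_lit 0x200001,nat_lit 0x40100e3],
    .r (nat_lit 0x1a9a) (nat_lit 4) [nat_lit 0x4028183,nat_lit 0x100a1,nat_lit 0x200001],
    .c (nat_lit 0) (nat_lit 0x400c06),.c (nat_lit 3) (nat_lit 2),.r (nat_lit 4) (nat_lit 6) [nat_lit 0x67198e3,
    nat_lit 65],.c (nat_lit 5) (nat_lit 0x2608e6),.r (nat_lit 0x1aa8) (nat_lit 8) [nat_lit 0x67180c3,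
    nat_lit 0x6018003,nat_lit 0x4610003],.r (nat_lit 32) (nat_lit 5) [nat_lit 0x67198e3,nat_lit 65],
    .r (nat_lit 0x1b9d) (nat_lit 2) [nat_lit 0x67198e3,nat_lit 0x6018003,nat_lit 0x4610003],
    .c (nat_lit 4) (nat_lit 2),.r (nat_lit 0x1b95) (nat_lit 3) [nat_lit 0x67180c3,nat_lit 0x6018003,
    nat_lit 0x4610003],.r (nat_lit 0x1c42) (nat_lit 5) [nat_lit 65,nat_lit 0x200001],
    .r (nat_lit 32) (nat_lit 7) [nat_lit 0x67198e3,nat_lit 65],.c (nat_lit 3) (nat_lit 0x338cc7),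
    .c (nat_lit 5) (nat_lit 2),.r (nat_lit 0x1aa5) (nat_lit 2) [nat_lit 0x6018003,nat_lit 0x67180c3,
    nat_lit 0x4610003],.c (nat_lit 6) (nat_lit 2),.r (nat_lit 4) (nat_lit 0) [nat_lit 0x67198e3,nat_lit 65],
    .c (nat_lit 7) (nat_lit 2)],
    .l (nat_lit 12) (nat_lit 960) (nat_lit 3) (nat_lit 0x19f0000019f000001ae000001ae000001a1000001a100000198000001980000018f0000018f0000018f0000018f0000016c000001e4) (nat_lit 0x4500000045000000360000003600000043000000430000004c0000004c000000550000005500000055000000550000000000000078)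
    (nat_lit 0x14015a16916923420615315314a14a13e14a19f12715a1401691691ba18c15315314a14a13c14a19f12716916914817816b16b1621041591591591591c814416916917814816b16b17417015915918b15910413618c20616b16b15015e15515514c13a14c14c1a10f71ba23416b16b15e15015515513a14c14c13a1a112915315317010415515514c14c1551431431550c012015315317416215515514c14c13114316313119812014a14a15915914c13a14314314c13a13a14c18f0f714a14a15915913a14c13115513a14c14c13a18f10514a14a15915913a14c13115513a14c14c13a18f10513c13e18b15914c14c16314314c13a13a14c18f1171271271361441290f71201201050f71171051780f419f19f1041c81a11a11980c018f18f18f18f1e4178)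
    (nat_lit 0x1403c03c03c03c03c03c03c03c03c03c03c03c03c015a1403c03c03c03c03c03c03c03c03c03c03c03c01691691483c03c03c03c03c03c03c03c03c03c03c01691691781483c03c03c03c03c03c03c03c03c03c02341ba16b16b1503c03c03c03c03c03c03c03c03c020618c16b16b15e1503c03c03c03c03c03c03c03c015315316217415515514c3c03c03c03c03c03c03c015315310417015515514c14c3c03c03c03c03c03c014a14a15915914c13a15513114c3c03c03c03c03c014a14a15915913a14c14314313a14c3c03c03c03c013e13c15918b14c14c14316313a14c14c3c03c03c014a14a15915914c13a15513114c13a13a14c3c03c019f19f1c81041a11a10c019818f18f18f18f1783c01271271441360f71291201200f71051051170f4178)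
    (nat_lit 3) (nat_lit 43)
    [[nat_lit 2,nat_lit 0x1002,nat_lit 17,nat_lit 257,nat_lit 0x1001,nat_lit 0x1011,nat_lit 0x1101,nat_lit 0x2001,
    nat_lit 0x11001,nat_lit 0x101001,nat_lit 0x1001001,nat_lit 0x10001,nat_lit 0x100001,nat_lit 0x100011,
    nat_lit 0x100101,nat_lit 0x110001,nat_lit 0x200001,nat_lit 0x1100001,nat_lit 0x1000001],[nat_lit 32,nat_lit 272,
    nat_lit 0x1010,nat_lit 0x10010,nat_lit 0x100010,nat_lit 0x1000010,nat_lit 0x1000020],[nat_lit 512,nat_lit 0x1100,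
    nat_lit 0x101100,nat_lit 0x10100,nat_lit 0x100100,nat_lit 0x1000100],[nat_lit 0x2000,nat_lit 0x11000,
    nat_lit 0x101000,nat_lit 0x1001000],[nat_lit 0x20000,nat_lit 0x110000],[nat_lit 0x200000,nat_lit 0x1100000],
    [nat_lit 0x2000000]]
    [.c (nat_lit 1) (nat_lit 2),.r (nat_lit 0x1cac) (nat_lit 6) [nat_lit 17,nat_lit 0x1a001,nat_lit 0x10001],
    .r (nat_lit 4) (nat_lit 2) [nat_lit 0x18099,nat_lit 17],.c (nat_lit 0) (nat_lit 0xae5),
    .r (nat_lit 0x1c1d) (nat_lit 6) [nat_lit 17,nat_lit 0x1a001,nat_lit 0x3099],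
    .r (nat_lit 0x1cac) (nat_lit 6) [nat_lit 0x621,nat_lit 0x1a001,nat_lit 0x10001],
    .r (nat_lit 32) (nat_lit 4) [nat_lit 0x3099,nat_lit 0x1a011],.r (nat_lit 0x1cad) (nat_lit 6) [nat_lit 17,
    nat_lit 0x1a001,nat_lit 0x10001],.r (nat_lit 0x1cd6) (nat_lit 6) [nat_lit 0x1a001,nat_lit 0x18099,
    nat_lit 0x10001],.r (nat_lit 8) (nat_lit 1) [nat_lit 0x3099,nat_lit 0x2001],
    .r (nat_lit 0x1b9b) (nat_lit 6) [nat_lit 0x18011,nat_lit 0x1a001,nat_lit 0x10001],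
    .r (nat_lit 32) (nat_lit 4) [nat_lit 0x18099,nat_lit 17],.c (nat_lit 0) (nat_lit 0x3ae5),
    .c (nat_lit 5) (nat_lit 0x3013),.c (nat_lit 2) (nat_lit 0x49a),.c (nat_lit 2) (nat_lit 0x3013),
    .r (nat_lit 0x1099) (nat_lit 6) [nat_lit 0x5719,nat_lit 0x401,nat_lit 0x24551,nat_lit 17],
    .r (nat_lit 0x109a) (nat_lit 2) [nat_lit 0x2d721,nat_lit 0x801,nat_lit 0x25729,nat_lit 0x2c729],
    .r (nat_lit 0x1b95) (nat_lit 12) [nat_lit 0x18011,nat_lit 0x1a001,nat_lit 0x10001],.c (nat_lit 2) (nat_lit 2),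
    .r (nat_lit 0x1750) (nat_lit 13) [nat_lit 17,nat_lit 0x2001],.c (nat_lit 0) (nat_lit 131),
    .r (nat_lit 0x1caf) (nat_lit 1) [nat_lit 17,nat_lit 0x2429],.r (nat_lit 32) (nat_lit 11) [nat_lit 0x18099,
    nat_lit 17],.r (nat_lit 0x1cc8) (nat_lit 6) [nat_lit 0x4429,nat_lit 0x621,nat_lit 0x401],
    .r (nat_lit 0x1a9a) (nat_lit 7) [nat_lit 0x2419,nat_lit 0x15611,nat_lit 0x2001],.c (nat_lit 3) (nat_lit 2),
    .c (nat_lit 0) (nat_lit 0x2603),.r (nat_lit 4) (nat_lit 1) [nat_lit 0x3099,nat_lit 0x1a011],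
    .r (nat_lit 0x1caf) (nat_lit 1) [nat_lit 0x1a412,nat_lit 0x10019],.c (nat_lit 0) (nat_lit 0xae5),
    .c (nat_lit 2) (nat_lit 0x3082),.c (nat_lit 4) (nat_lit 2),.r (nat_lit 0x1a9a) (nat_lit 7) [nat_lit 17,
    nat_lit 0x13019,nat_lit 0x2001],.r (nat_lit 0x1b93) (nat_lit 6) [nat_lit 17,nat_lit 0x1a001,nat_lit 0x3099],
    .c (nat_lit 0) (nat_lit 0x2003),.c (nat_lit 5) (nat_lit 2),.r (nat_lit 4) (nat_lit 1) [nat_lit 0x18099,
    nat_lit 17],.c (nat_lit 6) (nat_lit 2),.r (nat_lit 0x1aa5) (nat_lit 6) [nat_lit 0x1a001,nat_lit 0x18011,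
    nat_lit 0x10001],.c (nat_lit 7) (nat_lit 2)],
    .l (nat_lit 10) (nat_lit 240) (nat_lit 4) (nat_lit 0x60000000600000006000000060000000500000007000000064000000640000006b0000006b00000063000000630000006a00000056) (nat_lit 0x1000000010000000100000001000000000000000200000000c0000000c00000005000000050000000d0000000d0000001a00000006)
    (nat_lit 0x1405014050180401505416c5b14c531185a1405014050180401505416c5b14c531185a1405014050180401505416c5b14c531185a1405014050180401305416c5b14c531185a1004010040140301104412c5310c430d84a18060180601c050190640fc6b18c63158301505415054190441605817c5f244831285e1505413054190441605817c5f1b45f1285e16c5b16c5b1ac5317c5f178661785e1444f16c5b16c5b0fc4b17c5f1985e1785e1446514c5314c5318c4317c831785e158561245d14c5314c5318c431b4911785e158561245d1685a1685a0c04a1785e1944f1745d140641184611846158361284a14451124490f050)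
    (nat_lit 0x140f03c0f03c0f03c0f03c0f03c0f03c0f0140503c0f03c0f03c0f03c0f03c0f03c0f014050140f03c0f03c0f03c0f03c0f03c0f014050140503c0f03c0f03c0f03c0f03c0f01806018060140f03c0f03c0f03c0f03c0f010040100400c0503c0f03c0f03c0f03c0f0150541504c11064160f03c0f03c0f03c0f0150541505411064160583c0f03c0f03c0f016c5b16c5b12c3f17c5f178f03c0f03c0f016c5b16c5b14c6b17c5f1985e3c0f03c0f014c5314c5310c632446d1785e158f03c0f014c5314c5310c6320c5f1785e158563c0f011846118460d8561284a1445112449140f01685a1685a128301785e13c651745d19050)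
    (nat_lit 3) (nat_lit 27)
    [[nat_lit 2,nat_lit 0x10002,nat_lit 0x20002,nat_lit 17,nat_lit 0x10011,nat_lit 257,nat_lit 0x10101,nat_lit 0x1001,
    nat_lit 0x11001,nat_lit 0x10001,nat_lit 0x20001,nat_lit 0x100001,nat_lit 0x110001,nat_lit 0x1000001,
    nat_lit 0x1010001],[nat_lit 32,nat_lit 272,nat_lit 0x10110,nat_lit 0x10010,nat_lit 0x100010,nat_lit 0x1000010],
    [nat_lit 512,nat_lit 0x1100,nat_lit 0x10100,nat_lit 0x11100,nat_lit 0x20100,nat_lit 0x110100,nat_lit 0x1010100,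
    nat_lit 0x100100,nat_lit 0x1000100],[nat_lit 0x2000,nat_lit 0x11000,nat_lit 0x101000,nat_lit 0x1001000],
    [nat_lit 0x20000,nat_lit 0x110000,nat_lit 0x1010000],[nat_lit 0x200000,nat_lit 0x1100000],[nat_lit 0x2000000]]
    [.c (nat_lit 1) (nat_lit 2),.r (nat_lit 0x1cad) (nat_lit 13) [nat_lit 17,nat_lit 0x2601,nat_lit 0x10401],
    .r (nat_lit 0x109b) (nat_lit 13) [nat_lit 0x1b481,nat_lit 0x2d119,nat_lit 0x126d1,nat_lit 0x324c1],
    .r (nat_lit 0x1a9a) (nat_lit 12) [nat_lit 17,nat_lit 0x3419,nat_lit 0x12001],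
    .r (nat_lit 0x1cd6) (nat_lit 13) [nat_lit 0x2601,nat_lit 0x18699,nat_lit 0x10401],.c (nat_lit 0) (nat_lit 0x3693),
    .r (nat_lit 8) (nat_lit 3) [nat_lit 0x1b099,nat_lit 0x12001],.c (nat_lit 0) (nat_lit 0x2083),
    .r (nat_lit 0x1c5f) (nat_lit 4) [nat_lit 0x401,nat_lit 0x12419,nat_lit 0x611],
    .r (nat_lit 0x1c1d) (nat_lit 13) [nat_lit 17,nat_lit 0x2601,nat_lit 0x1b099],
    .r (nat_lit 0x1cac) (nat_lit 13) [nat_lit 17,nat_lit 0x2601,nat_lit 0x10401],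
    .r (nat_lit 0x1c53) (nat_lit 12) [nat_lit 0x12001,nat_lit 0x1b099,nat_lit 0x104d1],
    .r (nat_lit 0x1cab) (nat_lit 12) [nat_lit 0x1b099,nat_lit 0x12001,nat_lit 0x104d1],.c (nat_lit 0) (nat_lit 0x683),
    .r (nat_lit 32) (nat_lit 6) [nat_lit 0x1b099,nat_lit 0x2611],.c (nat_lit 2) (nat_lit 2),
    .r (nat_lit 4) (nat_lit 3) [nat_lit 0x18699,nat_lit 17],.c (nat_lit 6) (nat_lit 0x30d3),
    .r (nat_lit 32) (nat_lit 6) [nat_lit 0x18699,nat_lit 17],.r (nat_lit 0x1b9d) (nat_lit 13) [nat_lit 0x18699,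
    nat_lit 0x2601,nat_lit 0x10401],.r (nat_lit 0x1b22) (nat_lit 4) [nat_lit 0x12019,nat_lit 17,nat_lit 0x401],
    .c (nat_lit 3) (nat_lit 2),.r (nat_lit 0x1aa5) (nat_lit 13) [nat_lit 0x2601,nat_lit 0x18611,nat_lit 0x10401],
    .r (nat_lit 0x1c42) (nat_lit 3) [nat_lit 0x12001,nat_lit 17],.r (nat_lit 0x18ee) (nat_lit 13) [nat_lit 0x1b481,
    nat_lit 0x2601,nat_lit 0x10401,nat_lit 0x2ad1],.r (nat_lit 8) (nat_lit 3) [nat_lit 0x1b69a,nat_lit 0x12001],
    .c (nat_lit 2) (nat_lit 0x30d3),.r (nat_lit 0x1b96) (nat_lit 12) [nat_lit 0x12001,nat_lit 17,nat_lit 0x3419],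
    .r (nat_lit 32) (nat_lit 10) [nat_lit 0x18699,nat_lit 17],.r (nat_lit 0x1ae2) (nat_lit 12) [nat_lit 17,
    nat_lit 0x12001,nat_lit 0x3419],.c (nat_lit 4) (nat_lit 2),.r (nat_lit 0x1b95) (nat_lit 0) [nat_lit 0x18611,
    nat_lit 0x2601,nat_lit 0x10401],.r (nat_lit 0x1aa8) (nat_lit 13) [nat_lit 0x2601,nat_lit 0x18611,nat_lit 0x10401],
    .c (nat_lit 0) (nat_lit 0x2083),.c (nat_lit 5) (nat_lit 2),.c (nat_lit 0) (nat_lit 0x36d5),
    .c (nat_lit 0) (nat_lit 0x36d5),.c (nat_lit 6) (nat_lit 2),.c (nat_lit 0) (nat_lit 0x36d5),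
    .c (nat_lit 7) (nat_lit 2)]]

/-- nodes -/
noncomputable def rD7k_24_30 : List RJ :=
  [.l (nat_lit 15) (nat_lit 0x13b0) (nat_lit 3) (nat_lit 0x7910000079100000791000007910000081400000814000007a1000007a1000007520000075200000738000007380000077c0000077c) (nat_lit 0x8300000083000000830000008300000000000000000000007300000073000000c2000000c2000000dc000000dc0000009800000098)
    (nat_lit 0xdc81b90387070e1796238438f071e0d9e1b64345866b0df21be438706e40e1c1c3856787e50e3c1c7836786cf0cc21ad437c86f90e1c1c3835d070e0f221e4438f03e00d9e1b3c35a86b50e461d34387070e0e1c1ae841787910f0c228836786cf0d6a1ad42d486f90fca23843c887910d2020503d087030ea41ba839c07380ef81df05678bcb105e1e4440a0690107e1e8438f06360e701ce03be077c0e3c1c7845103e00f421c0c425072e0dbe190436286f9059e1c2438f071e0f0c1c7841f87a10e5c212833b86df0df2197437f87090d9e1b6436786cf0c6c1ba836f86410df01a4033b06de0d741a1836786cf0d9e1b3c38f07520cee1b7c34806f80e2819d8382061c0d6a19ac35a86b50e701ce032e86f90cec1b7837d065c0d401808330868b0d6a1ad439c07380df21b1438a06760cb81be835006a00df21be437c874d0ef81df038487090c381a1835006020e1c1b9037c86f90b521c8c3be077c0dfe0b3c38206ba0d401a80387070e)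
    (nat_lit 0xdc84ec09d813b027604ec09d813b027604ec09d813b027604ec037206e427604ec09d813b027604ec09d813b027604ec09d813b00e1c1c3835d13b027604ec09d813b027604ec09d813b027604ec0387070e0e1c1ae89d813b027604ec09d813b027604ec09d813b017962b3c3c8882f0d204ec09d813b027604ec09d813b027604ec047087e50f221e4440a069027604ec09d813b027604ec09d813b00e3c1c7838f07860f4220fc42513b027604ec09d813b027604ec038f071e07c0228838187a10e5c21289d813b027604ec09d813b00d9e1b3c36786cf0ea41c7836f86770df04ec09d813b027604ec036c86cf0d9e1b3c37506360c821b7c34806f827604ec09d813b00d16198435a86b50e701ce036286f90cec1c5037d13b027604ec033586b50d6a1ad439c07380df2197436f06760cb81be89d813b00df21be439185a90ef81df016786ff0d741c1035006a00e1c4ec037c86f90e9a1be43be077c0e121c24343061c0c041a80372070e)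
    (nat_lit 4) (nat_lit 49)
    [[nat_lit 2,nat_lit 0x1002,nat_lit 17,nat_lit 33,nat_lit 273,nat_lit 257,nat_lit 0x1001,nat_lit 0x1011,
    nat_lit 0x1101,nat_lit 0x2001,nat_lit 0x11001,nat_lit 0x101001,nat_lit 0x1001001,nat_lit 0x10001,nat_lit 0x100001,
    nat_lit 0x100011,nat_lit 0x100101,nat_lit 0x1000001,nat_lit 0x1000011],[nat_lit 32,nat_lit 0x1000020,nat_lit 272,
    nat_lit 0x1010,nat_lit 0x101010,nat_lit 0x10010,nat_lit 0x100010,nat_lit 0x1000010],[nat_lit 512,nat_lit 0x1100,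
    nat_lit 0x101100,nat_lit 0x10100,nat_lit 0x100100,nat_lit 0x1000100],[nat_lit 0x2000,nat_lit 0x11000,
    nat_lit 0x101000,nat_lit 0x201000,nat_lit 0x1001000,nat_lit 0x1101000],[nat_lit 0x20000,nat_lit 0x110000],
    [nat_lit 0x200000,nat_lit 0x1100000],[nat_lit 0x2000000]]
    [.c (nat_lit 1) (nat_lit 2),.r (nat_lit 32) (nat_lit 7) [nat_lit 0x53432,nat_lit 0x300022],
    .c (nat_lit 0) (nat_lit 0x24205),.r (nat_lit 0x1cc8) (nat_lit 6) [nat_lit 0x244051,nat_lit 0x305041,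
    nat_lit 0x2001],.r (nat_lit 0x1b9d) (nat_lit 2) [nat_lit 0x30231,nat_lit 0x303002,nat_lit 0x242002],
    .c (nat_lit 0) (nat_lit 0x5345),.r (nat_lit 0x1c1d) (nat_lit 2) [nat_lit 33,nat_lit 0x303002,nat_lit 0x30231],
    .r (nat_lit 32) (nat_lit 7) [nat_lit 0x30231,nat_lit 0x303042],.r (nat_lit 0x1bf6) (nat_lit 5) [nat_lit 0x53451,
    nat_lit 0x20001,nat_lit 0x2001],.r (nat_lit 0x1cac) (nat_lit 2) [nat_lit 33,nat_lit 0x303002,nat_lit 0x242002],
    .r (nat_lit 0x1b9b) (nat_lit 2) [nat_lit 0x353042,nat_lit 0x303002,nat_lit 0x242002],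
    .r (nat_lit 8) (nat_lit 1) [nat_lit 0x30231,nat_lit 0x20001],.r (nat_lit 0x1cd6) (nat_lit 2) [nat_lit 0x303002,
    nat_lit 0x353452,nat_lit 0x242002],.c (nat_lit 0) (nat_lit 0x24205),.c (nat_lit 0) (nat_lit 0x5345),
    .r (nat_lit 4) (nat_lit 0) [nat_lit 0x30231,nat_lit 0x303042],.c (nat_lit 2) (nat_lit 0x2232),
    .r (nat_lit 0x1a9a) (nat_lit 4) [nat_lit 33,nat_lit 0x202052,nat_lit 0x20001],.c (nat_lit 5) (nat_lit 0x28205),
    .c (nat_lit 2) (nat_lit 2),.r (nat_lit 0x1b95) (nat_lit 3) [nat_lit 0x302052,nat_lit 0x303002,nat_lit 0x242002],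
    .r (nat_lit 0x1750) (nat_lit 13) [nat_lit 33,nat_lit 0x20001],.c (nat_lit 0) (nat_lit 515),
    .r (nat_lit 0x1b96) (nat_lit 4) [nat_lit 0x20001,nat_lit 33,nat_lit 0x202052],.c (nat_lit 0) (nat_lit 0x24205),
    .r (nat_lit 0x1ae2) (nat_lit 4) [nat_lit 33,nat_lit 0x20001,nat_lit 0x202052],
    .r (nat_lit 0x1cc8) (nat_lit 6) [nat_lit 0x42051,nat_lit 0x3041,nat_lit 0x2001],.c (nat_lit 3) (nat_lit 2),
    .r (nat_lit 4) (nat_lit 6) [nat_lit 0x353452,nat_lit 33],.c (nat_lit 5) (nat_lit 0x28254),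
    .r (nat_lit 0x1aa8) (nat_lit 8) [nat_lit 0x353042,nat_lit 0x303002,nat_lit 0x242002],
    .c (nat_lit 0) (nat_lit 0x5345),.r (nat_lit 0x1b9d) (nat_lit 2) [nat_lit 0x353452,nat_lit 0x303002,
    nat_lit 0x242002],.c (nat_lit 4) (nat_lit 2),.r (nat_lit 0x1b95) (nat_lit 3) [nat_lit 0x353042,nat_lit 0x303002,
    nat_lit 0x242002],.r (nat_lit 0x1c42) (nat_lit 5) [nat_lit 33,nat_lit 0x20001],
    .r (nat_lit 0x1b96) (nat_lit 4) [nat_lit 0x20001,nat_lit 0x2022,nat_lit 0x200032],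
    .r (nat_lit 32) (nat_lit 7) [nat_lit 0x353452,nat_lit 33],.c (nat_lit 3) (nat_lit 0x35345),
    .c (nat_lit 5) (nat_lit 2),.r (nat_lit 0x1aa5) (nat_lit 2) [nat_lit 0x303002,nat_lit 0x353042,nat_lit 0x242002],
    .c (nat_lit 6) (nat_lit 2),.r (nat_lit 4) (nat_lit 0) [nat_lit 0x353452,nat_lit 33],.c (nat_lit 7) (nat_lit 2)],
    .l (nat_lit 12) (nat_lit 960) (nat_lit 3) (nat_lit 0x1b20000016a0000017c000001960000018c0000018a0000015c000001dc000001a9000001a9000001b2000001b20000019800000198) (nat_lit 0x720000002a00000046000000600000005200000050000000000000008000000033000000330000002a0000002a0000004400000044)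
    (nat_lit 0x14019015c15217415c0f013217f17f18812c16e16e0f01400fa10a12410c16a0f013713714014012612610a15214412412415617c0f01491491521521381380fa15c1501441601461ac0f016314316c16c15814410c15c14615616013c1ac0f015914317016215814812417416012412416018a10a1351571881601461460f01320f00f010a0f015c0f01291291321541040f016a0f01ac17c18a1ac1e015c1a91a91181b819819813717f1431491571431a912917017217f17f2271ff13717f1631491351591a912917617017f17f1c119914012c16c1521601621b815417f17f15418816e16e14018816c15218817011813217f17f18815416e16e12616e1441381461481980f01991ff16e16e15415412616e1581381461581981041c122716e16e14c154)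
    (nat_lit 0x1403c03c03c03c03c03c03c03c03c03c03c03c03c01901403c03c03c03c03c03c03c03c03c03c03c03c015c0fa1443c03c03c03c03c03c03c03c03c03c03c015210a1241443c03c03c03c03c03c03c03c03c03c01741241241601603c03c03c03c03c03c03c03c03c015c10c15614613c1603c03c03c03c03c03c03c03c00f016a17c1ac1ac18a15c3c03c03c03c03c03c03c01320f00f00f00f010a0f015c3c03c03c03c03c03c017f1371491631591351291a91703c03c03c03c03c017f1371491431431571291a91721703c03c03c03c018814015216c17018813211817f17f1543c03c03c012c14015216c1621601541b817f17f1881543c03c016e1261381581581461041982271c116e16e1543c016e1261381441481460f01981ff19916e16e154154)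
    (nat_lit 3) (nat_lit 27)
    [[nat_lit 2,nat_lit 17,nat_lit 0x1011,nat_lit 0x1001,nat_lit 0x1001001,nat_lit 0x10001,nat_lit 0x100001,
    nat_lit 0x1100001,nat_lit 0x1000001],[nat_lit 32,nat_lit 272,nat_lit 0x1010,nat_lit 0x1001010,nat_lit 0x11010,
    nat_lit 0x101010,nat_lit 0x10010,nat_lit 0x100010,nat_lit 0x1100010,nat_lit 0x1000010,nat_lit 0x2000010],
    [nat_lit 512,nat_lit 0x1100,nat_lit 0x1001100,nat_lit 0x10100,nat_lit 0x100100,nat_lit 0x1000100],[nat_lit 0x2000,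
    nat_lit 0x1002000,nat_lit 0x11000,nat_lit 0x101000,nat_lit 0x201000,nat_lit 0x1101000,nat_lit 0x1001000,
    nat_lit 0x1011000,nat_lit 0x2001000],[nat_lit 0x20000,nat_lit 0x1020000,nat_lit 0x110000,nat_lit 0x210000,
    nat_lit 0x1110000,nat_lit 0x1010000],[nat_lit 0x200000,nat_lit 0x300000,nat_lit 0x1200000,nat_lit 0x1100000,
    nat_lit 0x2100000],[nat_lit 0x2000000]]
    [.c (nat_lit 1) (nat_lit 2),.r (nat_lit 4) (nat_lit 8) [nat_lit 0x3099,nat_lit 17],.c (nat_lit 5) (nat_lit 0x613),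
    .r (nat_lit 32) (nat_lit 3) [nat_lit 0x3099,nat_lit 17],.r (nat_lit 0x1cd6) (nat_lit 4) [nat_lit 0x401,
    nat_lit 0x3099,nat_lit 0x2001],.r (nat_lit 0x1b9d) (nat_lit 4) [nat_lit 0x3099,nat_lit 0x401,nat_lit 0x2001],
    .r (nat_lit 0x1bb4) (nat_lit 10) [nat_lit 0x2419,nat_lit 17,nat_lit 0x611],.c (nat_lit 1) (nat_lit 130),
    .r (nat_lit 0x1a9a) (nat_lit 2) [nat_lit 17,nat_lit 0x619,nat_lit 0x2401],.c (nat_lit 2) (nat_lit 2),
    .r (nat_lit 0x1aa5) (nat_lit 4) [nat_lit 0x401,nat_lit 0x3011,nat_lit 0x2001],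
    .r (nat_lit 0x1c42) (nat_lit 8) [nat_lit 0x2401,nat_lit 17],.r (nat_lit 8) (nat_lit 8) [nat_lit 0x3699,
    nat_lit 0x2401],.c (nat_lit 1) (nat_lit 0x613),.r (nat_lit 0x1b96) (nat_lit 2) [nat_lit 0x2401,nat_lit 17,
    nat_lit 0x619],.r (nat_lit 32) (nat_lit 9) [nat_lit 0x3099,nat_lit 17],
    .r (nat_lit 0x1ae2) (nat_lit 2) [nat_lit 17,nat_lit 0x2401,nat_lit 0x619],
    .r (nat_lit 4) (nat_lit 8) [nat_lit 0x3699,nat_lit 0x411],.r (nat_lit 0x1b93) (nat_lit 4) [nat_lit 17,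
    nat_lit 0x401,nat_lit 0x3699],.r (nat_lit 0x1cd9) (nat_lit 1) [nat_lit 0x24d1,nat_lit 0x28d1,nat_lit 0x699],
    .c (nat_lit 3) (nat_lit 2),.r (nat_lit 0x1b95) (nat_lit 7) [nat_lit 0x3011,nat_lit 0x401,nat_lit 0x2001],
    .r (nat_lit 0x1b9b) (nat_lit 4) [nat_lit 0x3011,nat_lit 0x401,nat_lit 0x2001],
    .r (nat_lit 0x1aa8) (nat_lit 4) [nat_lit 0x401,nat_lit 0x3011,nat_lit 0x2001],.c (nat_lit 0) (nat_lit 0x403),
    .c (nat_lit 0) (nat_lit 0x403),.c (nat_lit 4) (nat_lit 2),.r (nat_lit 0x1cac) (nat_lit 4) [nat_lit 17,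
    nat_lit 0x401,nat_lit 0x2001],.r (nat_lit 4) (nat_lit 10) [nat_lit 0x3099,nat_lit 17],
    .r (nat_lit 0x1ae3) (nat_lit 2) [nat_lit 17,nat_lit 0x2401,nat_lit 0x619],
    .r (nat_lit 0x1cda) (nat_lit 2) [nat_lit 17,nat_lit 0x2401,nat_lit 0xa19],
    .r (nat_lit 32) (nat_lit 3) [nat_lit 0x3699,nat_lit 0x411],.r (nat_lit 0x1c1d) (nat_lit 4) [nat_lit 17,
    nat_lit 0x401,nat_lit 0x3699],.r (nat_lit 0x1cab) (nat_lit 2) [nat_lit 0x3699,nat_lit 0x2401,nat_lit 0x20d1],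
    .r (nat_lit 0x1cad) (nat_lit 4) [nat_lit 17,nat_lit 0x401,nat_lit 0x2001],.c (nat_lit 5) (nat_lit 2),
    .r (nat_lit 0x1cd8) (nat_lit 3) [nat_lit 17,nat_lit 0x2401,nat_lit 0x2001],
    .r (nat_lit 0x1750) (nat_lit 6) [nat_lit 17,nat_lit 0x2401],.r (nat_lit 0x1cae) (nat_lit 4) [nat_lit 17,
    nat_lit 0x401,nat_lit 0x2001],.r (nat_lit 0x1b9d) (nat_lit 4) [nat_lit 0x3699,nat_lit 0x401,nat_lit 0x2001],
    .r (nat_lit 0x1c53) (nat_lit 2) [nat_lit 0x2401,nat_lit 0x3699,nat_lit 0x20d1],.c (nat_lit 6) (nat_lit 2),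
    .r (nat_lit 0x1cd7) (nat_lit 2) [nat_lit 17,nat_lit 0x2401,nat_lit 0xe19],
    .r (nat_lit 0x1bb4) (nat_lit 10) [nat_lit 0x2019,nat_lit 0x411,nat_lit 17],.c (nat_lit 0) (nat_lit 195),
    .r (nat_lit 0x1a9a) (nat_lit 2) [nat_lit 0x411,nat_lit 0xa19,nat_lit 0x2401],.c (nat_lit 7) (nat_lit 2)]]

/-- nodes -/
noncomputable def rD7k_24_31 : List RJ :=
  [.s (nat_lit 15) (nat_lit 0x12c0) (nat_lit 5) (nat_lit 0x7540000075400000a0000000a000000084c0000084c0000079400000794000008800000088000000824000008240000087c0000087c) (nat_lit 0x2ac000002ac0000000000000000000001b4000001b40000026c0000026c0000018000000180000001dc000001dc0000018400000184)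
    (nat_lit 0x6c012e03a606fc0b50156027404e80ba816102c405780ba0176025403600ea81d502d00678079013a034e06a407f00f2031406400ea81bf04940a00109821303620794146026803da075c138827f03aa074c140024a0422084c0e281f9048808801048209046208fc0cf01560426084c0c901a602f005e80d981d302f805e00da01b202d005a81088213036c06480bb0178036206cc0d0019c036406c809d013a03f207940bc017a029404e80c2818702dc05c00c1018001e404e80e281b102ec05e00a5014a030a06140c10186033006500d48161044009a00d981d3030a061c0d401c0033206a40df81ab034e05d4122028c036206cc0c28185038006a00d481a9037e06fc079015e0412075c0ce0178030c05c00d481a9032406480d401a801fc058810481ed034005f00c1016e035206640cb0192034c06a00c80176047e09fc0d901b2032806000df81ab035006a00dd01ba031405d01188271036406d00cc0182037e06fc0d301a8037406e8)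
    (nat_lit 0x6c04b0096012c025804b0096012c025804b0096012c025804b0025c036025804b0096012c025804b0096012c025804b0096012c00e981d5049412c025804b0096012c025804b0096012c025804b0037e0754140024a096012c025804b0096012c025804b0096012c00b50168042608440c904b0096012c025804b0096012c025804b002ac06781098213034c064825804b0096012c025804b0096012c009d00f2036207140bc0176029412c025804b0096012c025804b0027404e80f281f902f405e009d014a096012c025804b0096012c00ba81a7051809100d981b1030a06140d404b0096012c025804b002c206a4134022003a606cc0c38185038006a025804b0096012c00b100fe03da08240be01a002dc06080cc81a9032412c025804b002bc03c80eb820902f006700b80186035206a40c90192096012c00ba018a04e208c40da01b2030406600df81bf035006980dd04b002ec064013f823f036406c80c00194035606fc0d401a8037406e8)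
    (nat_lit 6) (nat_lit 61)
    [[nat_lit 0,nat_lit 2,nat_lit 6],[nat_lit 0,nat_lit 2,nat_lit 7],[nat_lit 0,nat_lit 3,nat_lit 6],[nat_lit 0,
    nat_lit 3,nat_lit 7],[nat_lit 0,nat_lit 4,nat_lit 13],[nat_lit 0,nat_lit 6,nat_lit 3],[nat_lit 0,nat_lit 6,
    nat_lit 8],[nat_lit 0,nat_lit 6,nat_lit 9],[nat_lit 0,nat_lit 7,nat_lit 3],[nat_lit 0,nat_lit 8,nat_lit 6],
    [nat_lit 0,nat_lit 8,nat_lit 7],[nat_lit 0,nat_lit 9,nat_lit 7],[nat_lit 0,nat_lit 13,nat_lit 4],[nat_lit 0,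
    nat_lit 13,nat_lit 5],[nat_lit 0,nat_lit 13,nat_lit 6,nat_lit 13],[nat_lit 1,nat_lit 2,nat_lit 6],[nat_lit 1,
    nat_lit 2,nat_lit 7],[nat_lit 1,nat_lit 4,nat_lit 12],[nat_lit 1,nat_lit 5,nat_lit 12],[nat_lit 1,nat_lit 6,
    nat_lit 2],[nat_lit 1,nat_lit 6,nat_lit 3],[nat_lit 1,nat_lit 6,nat_lit 8],[nat_lit 1,nat_lit 6,nat_lit 9],
    [nat_lit 1,nat_lit 7,nat_lit 2],[nat_lit 1,nat_lit 7,nat_lit 3],[nat_lit 1,nat_lit 7,nat_lit 9],[nat_lit 1,
    nat_lit 8,nat_lit 7],[nat_lit 1,nat_lit 9,nat_lit 7],[nat_lit 1,nat_lit 12,nat_lit 5],[nat_lit 1,nat_lit 12,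
    nat_lit 7,nat_lit 12],[nat_lit 2,nat_lit 2,nat_lit 2],[nat_lit 2,nat_lit 2,nat_lit 8],[nat_lit 2,nat_lit 2,
    nat_lit 9],[nat_lit 2,nat_lit 3,nat_lit 8],[nat_lit 2,nat_lit 3,nat_lit 9],[nat_lit 2,nat_lit 3,nat_lit 13,
    nat_lit 12],[nat_lit 2,nat_lit 8,nat_lit 2],[nat_lit 2,nat_lit 8,nat_lit 3],[nat_lit 2,nat_lit 8,nat_lit 8],
    [nat_lit 2,nat_lit 8,nat_lit 9],[nat_lit 2,nat_lit 8,nat_lit 12,nat_lit 12],[nat_lit 2,nat_lit 9,nat_lit 2],
    [nat_lit 2,nat_lit 9,nat_lit 3],[nat_lit 2,nat_lit 9,nat_lit 8],[nat_lit 2,nat_lit 9,nat_lit 9],[nat_lit 2,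
    nat_lit 9,nat_lit 12,nat_lit 12],[nat_lit 2,nat_lit 12,nat_lit 2,nat_lit 12],[nat_lit 2,nat_lit 12,nat_lit 12,
    nat_lit 9],[nat_lit 2,nat_lit 13,nat_lit 2,nat_lit 13],[nat_lit 2,nat_lit 13,nat_lit 13,nat_lit 9],[nat_lit 3,
    nat_lit 3,nat_lit 3],[nat_lit 3,nat_lit 3,nat_lit 8],[nat_lit 3,nat_lit 3,nat_lit 9],[nat_lit 3,nat_lit 8,
    nat_lit 3],[nat_lit 3,nat_lit 8,nat_lit 8],[nat_lit 3,nat_lit 8,nat_lit 9],[nat_lit 3,nat_lit 8,nat_lit 12,
    nat_lit 12],[nat_lit 3,nat_lit 8,nat_lit 13,nat_lit 13],[nat_lit 3,nat_lit 9,nat_lit 3],[nat_lit 3,nat_lit 9,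
    nat_lit 8],[nat_lit 3,nat_lit 9,nat_lit 9],[nat_lit 3,nat_lit 12,nat_lit 3,nat_lit 12],[nat_lit 3,nat_lit 13,
    nat_lit 3,nat_lit 13],[nat_lit 3,nat_lit 13,nat_lit 13,nat_lit 8],[nat_lit 3,nat_lit 13,nat_lit 13,nat_lit 9],
    [nat_lit 4,nat_lit 10],[nat_lit 4,nat_lit 11],[nat_lit 5,nat_lit 10],[nat_lit 5,nat_lit 11],[nat_lit 6,nat_lit 12,
    nat_lit 10],[nat_lit 6,nat_lit 13,nat_lit 10],[nat_lit 6,nat_lit 13,nat_lit 11],[nat_lit 7,nat_lit 10,nat_lit 12],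
    [nat_lit 7,nat_lit 11,nat_lit 12],[nat_lit 7,nat_lit 11,nat_lit 13],[nat_lit 8,nat_lit 8,nat_lit 8],[nat_lit 8,
    nat_lit 8,nat_lit 9],[nat_lit 8,nat_lit 9,nat_lit 8],[nat_lit 8,nat_lit 9,nat_lit 9],[nat_lit 9,nat_lit 9,
    nat_lit 9]]
    [nat_lit 0x1026,nat_lit 0x1027,nat_lit 0x1036,nat_lit 0x1037,nat_lit 0x104d,nat_lit 0x1063,nat_lit 0x1068,
    nat_lit 0x1069,nat_lit 0x1073,nat_lit 0x1086,nat_lit 0x1087,nat_lit 0x1097,nat_lit 0x10d4,nat_lit 0x10d5,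
    nat_lit 0x10d6d,nat_lit 0x1126,nat_lit 0x1127,nat_lit 0x114c,nat_lit 0x115c,nat_lit 0x1162,nat_lit 0x1163,
    nat_lit 0x1168,nat_lit 0x1169,nat_lit 0x1172,nat_lit 0x1173,nat_lit 0x1179,nat_lit 0x1187,nat_lit 0x1197,
    nat_lit 0x11c5,nat_lit 0x11c7c,nat_lit 0x1222,nat_lit 0x1228,nat_lit 0x1229,nat_lit 0x1238,nat_lit 0x1239,
    nat_lit 0x123dc,nat_lit 0x1282,nat_lit 0x1283,nat_lit 0x1288,nat_lit 0x1289,nat_lit 0x128cc,nat_lit 0x1292,
    nat_lit 0x1293,nat_lit 0x1298,nat_lit 0x1299,nat_lit 0x129cc,nat_lit 0x12c2c,nat_lit 0x12cc9,nat_lit 0x12d2d,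
    nat_lit 0x12dd9,nat_lit 0x1333,nat_lit 0x1338,nat_lit 0x1339,nat_lit 0x1383,nat_lit 0x1388,nat_lit 0x1389,
    nat_lit 0x138cc,nat_lit 0x138dd,nat_lit 0x1393,nat_lit 0x1398,nat_lit 0x1399,nat_lit 0x13c3c,nat_lit 0x13d3d,
    nat_lit 0x13dd8,nat_lit 0x13dd9,nat_lit 330,nat_lit 331,nat_lit 346,nat_lit 347,nat_lit 0x16ca,nat_lit 0x16da,
    nat_lit 0x16db,nat_lit 0x17ac,nat_lit 0x17bc,nat_lit 0x17bd,nat_lit 0x1888,nat_lit 0x1889,nat_lit 0x1898,
    nat_lit 0x1899,nat_lit 0x1999]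
    [[[nat_lit 0,nat_lit 2,nat_lit 6],[nat_lit 0,nat_lit 2,nat_lit 7],[nat_lit 0,nat_lit 3,nat_lit 6],[nat_lit 0,
    nat_lit 3,nat_lit 7],[nat_lit 0,nat_lit 4,nat_lit 13],[nat_lit 0,nat_lit 6,nat_lit 3],[nat_lit 0,nat_lit 6,
    nat_lit 8],[nat_lit 0,nat_lit 6,nat_lit 9],[nat_lit 0,nat_lit 7,nat_lit 3],[nat_lit 0,nat_lit 8,nat_lit 6],
    [nat_lit 0,nat_lit 8,nat_lit 7],[nat_lit 0,nat_lit 9,nat_lit 7]],[[nat_lit 0,nat_lit 13,nat_lit 4],[nat_lit 0,
    nat_lit 13,nat_lit 5],[nat_lit 0,nat_lit 13,nat_lit 6,nat_lit 13],[nat_lit 1,nat_lit 2,nat_lit 6],[nat_lit 1,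
    nat_lit 2,nat_lit 7],[nat_lit 1,nat_lit 4,nat_lit 12],[nat_lit 1,nat_lit 5,nat_lit 12],[nat_lit 1,nat_lit 6,
    nat_lit 2],[nat_lit 1,nat_lit 6,nat_lit 3],[nat_lit 1,nat_lit 6,nat_lit 8],[nat_lit 1,nat_lit 6,nat_lit 9],
    [nat_lit 1,nat_lit 7,nat_lit 2]],[[nat_lit 1,nat_lit 7,nat_lit 3],[nat_lit 1,nat_lit 7,nat_lit 9],[nat_lit 1,
    nat_lit 8,nat_lit 7],[nat_lit 1,nat_lit 9,nat_lit 7],[nat_lit 1,nat_lit 12,nat_lit 5],[nat_lit 1,nat_lit 12,
    nat_lit 7,nat_lit 12],[nat_lit 2,nat_lit 1,nat_lit 6],[nat_lit 2,nat_lit 1,nat_lit 7],[nat_lit 2,nat_lit 2,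
    nat_lit 2],[nat_lit 2,nat_lit 2,nat_lit 8],[nat_lit 2,nat_lit 2,nat_lit 9],[nat_lit 2,nat_lit 3,nat_lit 8]],
    [[nat_lit 2,nat_lit 3,nat_lit 9],[nat_lit 2,nat_lit 3,nat_lit 13,nat_lit 12],[nat_lit 2,nat_lit 6,nat_lit 0],
    [nat_lit 2,nat_lit 6,nat_lit 1],[nat_lit 2,nat_lit 7,nat_lit 0],[nat_lit 2,nat_lit 7,nat_lit 1],[nat_lit 2,
    nat_lit 8,nat_lit 2],[nat_lit 2,nat_lit 8,nat_lit 3],[nat_lit 2,nat_lit 8,nat_lit 8],[nat_lit 2,nat_lit 8,
    nat_lit 9],[nat_lit 2,nat_lit 8,nat_lit 12,nat_lit 12],[nat_lit 2,nat_lit 9,nat_lit 2]],[[nat_lit 2,nat_lit 9,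
    nat_lit 3],[nat_lit 2,nat_lit 9,nat_lit 8],[nat_lit 2,nat_lit 9,nat_lit 9],[nat_lit 2,nat_lit 9,nat_lit 12,
    nat_lit 12],[nat_lit 2,nat_lit 12,nat_lit 2,nat_lit 12],[nat_lit 2,nat_lit 12,nat_lit 12,nat_lit 9],[nat_lit 2,
    nat_lit 13,nat_lit 2,nat_lit 13],[nat_lit 2,nat_lit 13,nat_lit 13,nat_lit 9],[nat_lit 3,nat_lit 0,nat_lit 6],
    [nat_lit 3,nat_lit 0,nat_lit 7],[nat_lit 3,nat_lit 1,nat_lit 6],[nat_lit 3,nat_lit 1,nat_lit 7]],[[nat_lit 3,
    nat_lit 2,nat_lit 8],[nat_lit 3,nat_lit 2,nat_lit 9],[nat_lit 3,nat_lit 3,nat_lit 3],[nat_lit 3,nat_lit 3,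
    nat_lit 8],[nat_lit 3,nat_lit 3,nat_lit 9],[nat_lit 3,nat_lit 6,nat_lit 0],[nat_lit 3,nat_lit 7,nat_lit 0],
    [nat_lit 3,nat_lit 8,nat_lit 2],[nat_lit 3,nat_lit 8,nat_lit 3],[nat_lit 3,nat_lit 8,nat_lit 8],[nat_lit 3,
    nat_lit 8,nat_lit 9],[nat_lit 3,nat_lit 8,nat_lit 12,nat_lit 12]],[[nat_lit 3,nat_lit 8,nat_lit 13,nat_lit 13],
    [nat_lit 3,nat_lit 9,nat_lit 2],[nat_lit 3,nat_lit 9,nat_lit 3],[nat_lit 3,nat_lit 9,nat_lit 8],[nat_lit 3,
    nat_lit 9,nat_lit 9],[nat_lit 3,nat_lit 12,nat_lit 3,nat_lit 12],[nat_lit 3,nat_lit 13,nat_lit 3,nat_lit 13],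
    [nat_lit 3,nat_lit 13,nat_lit 12,nat_lit 2],[nat_lit 3,nat_lit 13,nat_lit 13,nat_lit 8],[nat_lit 3,nat_lit 13,
    nat_lit 13,nat_lit 9],[nat_lit 4,nat_lit 0,nat_lit 13],[nat_lit 4,nat_lit 10]],[[nat_lit 4,nat_lit 11],[nat_lit 4,
    nat_lit 12,nat_lit 1],[nat_lit 4,nat_lit 13,nat_lit 0],[nat_lit 5,nat_lit 0,nat_lit 13],[nat_lit 5,nat_lit 1,
    nat_lit 12],[nat_lit 5,nat_lit 10],[nat_lit 5,nat_lit 11],[nat_lit 5,nat_lit 12,nat_lit 1],[nat_lit 6,nat_lit 0,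
    nat_lit 2],[nat_lit 6,nat_lit 0,nat_lit 3],[nat_lit 6,nat_lit 0,nat_lit 8],[nat_lit 6,nat_lit 1,nat_lit 2]],
    [[nat_lit 6,nat_lit 2,nat_lit 1],[nat_lit 6,nat_lit 3,nat_lit 0],[nat_lit 6,nat_lit 3,nat_lit 1],[nat_lit 6,
    nat_lit 8,nat_lit 0],[nat_lit 6,nat_lit 8,nat_lit 1],[nat_lit 6,nat_lit 9,nat_lit 0],[nat_lit 6,nat_lit 9,
    nat_lit 1],[nat_lit 6,nat_lit 12,nat_lit 10],[nat_lit 6,nat_lit 13,nat_lit 0,nat_lit 13],[nat_lit 6,nat_lit 13,
    nat_lit 10],[nat_lit 6,nat_lit 13,nat_lit 11],[nat_lit 7,nat_lit 0,nat_lit 2]],[[nat_lit 7,nat_lit 0,nat_lit 3],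
    [nat_lit 7,nat_lit 0,nat_lit 8],[nat_lit 7,nat_lit 0,nat_lit 9],[nat_lit 7,nat_lit 1,nat_lit 2],[nat_lit 7,
    nat_lit 1,nat_lit 8],[nat_lit 7,nat_lit 1,nat_lit 9],[nat_lit 7,nat_lit 2,nat_lit 1],[nat_lit 7,nat_lit 3,
    nat_lit 0],[nat_lit 7,nat_lit 3,nat_lit 1],[nat_lit 7,nat_lit 9,nat_lit 1],[nat_lit 7,nat_lit 10,nat_lit 12],
    [nat_lit 7,nat_lit 11,nat_lit 12]],[[nat_lit 7,nat_lit 11,nat_lit 13],[nat_lit 7,nat_lit 12,nat_lit 1,nat_lit 12],
    [nat_lit 8,nat_lit 0,nat_lit 6],[nat_lit 8,nat_lit 1,nat_lit 6],[nat_lit 8,nat_lit 2,nat_lit 2],[nat_lit 8,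
    nat_lit 2,nat_lit 3],[nat_lit 8,nat_lit 2,nat_lit 8],[nat_lit 8,nat_lit 2,nat_lit 9],[nat_lit 8,nat_lit 3,
    nat_lit 2],[nat_lit 8,nat_lit 3,nat_lit 3],[nat_lit 8,nat_lit 3,nat_lit 8],[nat_lit 8,nat_lit 3,nat_lit 9]],
    [[nat_lit 8,nat_lit 3,nat_lit 13,nat_lit 13],[nat_lit 8,nat_lit 6,nat_lit 0],[nat_lit 8,nat_lit 7,nat_lit 0],
    [nat_lit 8,nat_lit 7,nat_lit 1],[nat_lit 8,nat_lit 8,nat_lit 2],[nat_lit 8,nat_lit 8,nat_lit 3],[nat_lit 8,
    nat_lit 8,nat_lit 8],[nat_lit 8,nat_lit 8,nat_lit 9],[nat_lit 8,nat_lit 9,nat_lit 2],[nat_lit 8,nat_lit 9,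
    nat_lit 3],[nat_lit 8,nat_lit 9,nat_lit 8],[nat_lit 8,nat_lit 9,nat_lit 9]],[[nat_lit 8,nat_lit 12,nat_lit 12,
    nat_lit 2],[nat_lit 8,nat_lit 12,nat_lit 12,nat_lit 3],[nat_lit 8,nat_lit 13,nat_lit 13,nat_lit 3],[nat_lit 9,
    nat_lit 0,nat_lit 6],[nat_lit 9,nat_lit 1,nat_lit 6],[nat_lit 9,nat_lit 1,nat_lit 7],[nat_lit 9,nat_lit 2,
    nat_lit 2],[nat_lit 9,nat_lit 2,nat_lit 3],[nat_lit 9,nat_lit 2,nat_lit 8],[nat_lit 9,nat_lit 2,nat_lit 9],
    [nat_lit 9,nat_lit 2,nat_lit 12,nat_lit 12],[nat_lit 9,nat_lit 2,nat_lit 13,nat_lit 13]],[[nat_lit 9,nat_lit 3,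
    nat_lit 2],[nat_lit 9,nat_lit 3,nat_lit 3],[nat_lit 9,nat_lit 3,nat_lit 8],[nat_lit 9,nat_lit 3,nat_lit 9],
    [nat_lit 9,nat_lit 3,nat_lit 13,nat_lit 13],[nat_lit 9,nat_lit 7,nat_lit 0],[nat_lit 9,nat_lit 7,nat_lit 1],
    [nat_lit 9,nat_lit 8,nat_lit 2],[nat_lit 9,nat_lit 8,nat_lit 3],[nat_lit 9,nat_lit 8,nat_lit 8],[nat_lit 9,
    nat_lit 8,nat_lit 9],[nat_lit 9,nat_lit 9,nat_lit 2]],[[nat_lit 9,nat_lit 9,nat_lit 3],[nat_lit 9,nat_lit 9,
    nat_lit 8],[nat_lit 9,nat_lit 9,nat_lit 9],[nat_lit 9,nat_lit 12,nat_lit 12,nat_lit 2],[nat_lit 10,nat_lit 4],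
    [nat_lit 10,nat_lit 5],[nat_lit 10,nat_lit 6,nat_lit 12],[nat_lit 10,nat_lit 6,nat_lit 13],[nat_lit 10,nat_lit 12,
    nat_lit 7],[nat_lit 11,nat_lit 4],[nat_lit 11,nat_lit 5],[nat_lit 11,nat_lit 6,nat_lit 13]],[[nat_lit 11,
    nat_lit 12,nat_lit 7],[nat_lit 11,nat_lit 13,nat_lit 7],[nat_lit 12,nat_lit 1,nat_lit 4],[nat_lit 12,nat_lit 1,
    nat_lit 5],[nat_lit 12,nat_lit 1,nat_lit 12,nat_lit 7],[nat_lit 12,nat_lit 2,nat_lit 3,nat_lit 13],[nat_lit 12,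
    nat_lit 2,nat_lit 8,nat_lit 12],[nat_lit 12,nat_lit 2,nat_lit 9,nat_lit 12],[nat_lit 12,nat_lit 2,nat_lit 12,
    nat_lit 2],[nat_lit 12,nat_lit 3,nat_lit 8,nat_lit 12],[nat_lit 12,nat_lit 3,nat_lit 12,nat_lit 3],[nat_lit 12,
    nat_lit 5,nat_lit 1]],[[nat_lit 12,nat_lit 7,nat_lit 10],[nat_lit 12,nat_lit 7,nat_lit 11],[nat_lit 12,nat_lit 7,
    nat_lit 12,nat_lit 1],[nat_lit 12,nat_lit 9,nat_lit 2,nat_lit 12],[nat_lit 12,nat_lit 10,nat_lit 6],[nat_lit 12,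
    nat_lit 12,nat_lit 2,nat_lit 8],[nat_lit 12,nat_lit 12,nat_lit 2,nat_lit 9],[nat_lit 12,nat_lit 12,nat_lit 3,
    nat_lit 8],[nat_lit 12,nat_lit 12,nat_lit 9,nat_lit 2],[nat_lit 13,nat_lit 0,nat_lit 4],[nat_lit 13,nat_lit 0,
    nat_lit 13,nat_lit 6],[nat_lit 13,nat_lit 2,nat_lit 13,nat_lit 2]],[[nat_lit 13,nat_lit 3,nat_lit 8,nat_lit 13],
    [nat_lit 13,nat_lit 3,nat_lit 13,nat_lit 3],[nat_lit 13,nat_lit 4,nat_lit 0],[nat_lit 13,nat_lit 5,nat_lit 0],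
    [nat_lit 13,nat_lit 6,nat_lit 13,nat_lit 0],[nat_lit 13,nat_lit 7,nat_lit 11],[nat_lit 13,nat_lit 8,nat_lit 3,
    nat_lit 13],[nat_lit 13,nat_lit 9,nat_lit 2,nat_lit 13],[nat_lit 13,nat_lit 9,nat_lit 3,nat_lit 13],[nat_lit 13,
    nat_lit 10,nat_lit 6],[nat_lit 13,nat_lit 11,nat_lit 6],[nat_lit 13,nat_lit 12,nat_lit 2,nat_lit 3]],[[nat_lit 13,
    nat_lit 13,nat_lit 3,nat_lit 8],[nat_lit 13,nat_lit 13,nat_lit 8,nat_lit 3],[nat_lit 13,nat_lit 13,nat_lit 9,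
    nat_lit 2],[nat_lit 13,nat_lit 13,nat_lit 9,nat_lit 3]]]
    [[nat_lit 38,nat_lit 40,nat_lit 65,nat_lit 66,nat_lit 86,nat_lit 97,nat_lit 99,nat_lit 101,nat_lit 115,
    nat_lit 133,nat_lit 134,nat_lit 161],[nat_lit 206,nat_lit 207,nat_lit 208,nat_lit 39,nat_lit 41,nat_lit 85,
    nat_lit 91,nat_lit 96,nat_lit 98,nat_lit 100,nat_lit 102,nat_lit 114],[nat_lit 116,nat_lit 117,nat_lit 135,
    nat_lit 162,nat_lit 191,nat_lit 194,nat_lit 19,nat_lit 23,nat_lit 32,nat_lit 42,nat_lit 47,nat_lit 67],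
    [nat_lit 73,nat_lit 79,nat_lit 92,nat_lit 95,nat_lit 107,nat_lit 111,nat_lit 124,nat_lit 128,nat_lit 136,
    nat_lit 140,nat_lit 144,nat_lit 150],[nat_lit 156,nat_lit 163,nat_lit 167,nat_lit 171,nat_lit 188,nat_lit 200,
    nat_lit 203,nat_lit 218,nat_lit 5,nat_lit 8,nat_lit 20,nat_lit 24],[nat_lit 43,nat_lit 48,nat_lit 62,nat_lit 68,
    nat_lit 74,nat_lit 93,nat_lit 108,nat_lit 125,nat_lit 129,nat_lit 137,nat_lit 141,nat_lit 145],[nat_lit 146,
    nat_lit 151,nat_lit 157,nat_lit 164,nat_lit 168,nat_lit 190,nat_lit 205,nat_lit 215,nat_lit 217,nat_lit 219,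
    nat_lit 12,nat_lit 172],[nat_lit 177,nat_lit 182,nat_lit 201,nat_lit 13,nat_lit 28,nat_lit 173,nat_lit 178,
    nat_lit 183,nat_lit 0,nat_lit 2,nat_lit 9,nat_lit 15],[nat_lit 30,nat_lit 56,nat_lit 58,nat_lit 122,nat_lit 123,
    nat_lit 147,nat_lit 148,nat_lit 196,nat_lit 202,nat_lit 213,nat_lit 214,nat_lit 1],[nat_lit 3,nat_lit 10,
    nat_lit 11,nat_lit 16,nat_lit 26,nat_lit 27,nat_lit 31,nat_lit 57,nat_lit 59,nat_lit 149,nat_lit 176,nat_lit 180],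
    [nat_lit 181,nat_lit 184,nat_lit 6,nat_lit 21,nat_lit 33,nat_lit 35,nat_lit 44,nat_lit 49,nat_lit 60,nat_lit 63,
    nat_lit 69,nat_lit 75],[nat_lit 80,nat_lit 94,nat_lit 109,nat_lit 112,nat_lit 126,nat_lit 130,nat_lit 138,
    nat_lit 142,nat_lit 152,nat_lit 158,nat_lit 165,nat_lit 169],[nat_lit 197,nat_lit 199,nat_lit 216,nat_lit 7,
    nat_lit 22,nat_lit 25,nat_lit 34,nat_lit 36,nat_lit 45,nat_lit 50,nat_lit 53,nat_lit 55],[nat_lit 61,nat_lit 64,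
    nat_lit 70,nat_lit 76,nat_lit 81,nat_lit 110,nat_lit 113,nat_lit 127,nat_lit 131,nat_lit 139,nat_lit 143,
    nat_lit 153],[nat_lit 159,nat_lit 166,nat_lit 170,nat_lit 198,nat_lit 83,nat_lit 89,nat_lit 103,nat_lit 105,
    nat_lit 192,nat_lit 84,nat_lit 90,nat_lit 106],[nat_lit 193,nat_lit 209,nat_lit 17,nat_lit 18,nat_lit 29,
    nat_lit 37,nat_lit 46,nat_lit 51,nat_lit 52,nat_lit 71,nat_lit 77,nat_lit 88],[nat_lit 118,nat_lit 119,
    nat_lit 121,nat_lit 154,nat_lit 174,nat_lit 186,nat_lit 187,nat_lit 189,nat_lit 195,nat_lit 4,nat_lit 14,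
    nat_lit 54],[nat_lit 72,nat_lit 78,nat_lit 82,nat_lit 87,nat_lit 104,nat_lit 120,nat_lit 132,nat_lit 155,
    nat_lit 160,nat_lit 175,nat_lit 179,nat_lit 185],[nat_lit 204,nat_lit 210,nat_lit 211,nat_lit 212]]
    [[nat_lit 92,nat_lit 107,nat_lit 93,nat_lit 108,nat_lit 201,nat_lit 56,nat_lit 122,nat_lit 147,nat_lit 57,
    nat_lit 94,nat_lit 109,nat_lit 110],[nat_lit 82,nat_lit 87,nat_lit 202,nat_lit 95,nat_lit 111,nat_lit 182,
    nat_lit 183,nat_lit 30,nat_lit 58,nat_lit 123,nat_lit 148,nat_lit 31],[nat_lit 59,nat_lit 149,nat_lit 112,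
    nat_lit 113,nat_lit 88,nat_lit 184,nat_lit 96,nat_lit 114,nat_lit 32,nat_lit 124,nat_lit 150,nat_lit 125],
    [nat_lit 151,nat_lit 185,nat_lit 0,nat_lit 15,nat_lit 1,nat_lit 16,nat_lit 33,nat_lit 60,nat_lit 126,nat_lit 152,
    nat_lit 186,nat_lit 34],[nat_lit 61,nat_lit 127,nat_lit 153,nat_lit 187,nat_lit 188,nat_lit 154,nat_lit 203,
    nat_lit 155,nat_lit 97,nat_lit 115,nat_lit 98,nat_lit 116],[nat_lit 128,nat_lit 156,nat_lit 62,nat_lit 129,
    nat_lit 157,nat_lit 2,nat_lit 3,nat_lit 35,nat_lit 63,nat_lit 130,nat_lit 158,nat_lit 189],[nat_lit 204,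
    nat_lit 36,nat_lit 64,nat_lit 131,nat_lit 159,nat_lit 190,nat_lit 205,nat_lit 37,nat_lit 132,nat_lit 160,
    nat_lit 206,nat_lit 172],[nat_lit 177,nat_lit 17,nat_lit 4,nat_lit 207,nat_lit 191,nat_lit 173,nat_lit 178,
    nat_lit 18,nat_lit 38,nat_lit 65,nat_lit 133,nat_lit 39],[nat_lit 19,nat_lit 5,nat_lit 20,nat_lit 6,nat_lit 21,
    nat_lit 7,nat_lit 22,nat_lit 174,nat_lit 208,nat_lit 175,nat_lit 179,nat_lit 40],[nat_lit 66,nat_lit 134,
    nat_lit 161,nat_lit 41,nat_lit 135,nat_lit 162,nat_lit 23,nat_lit 8,nat_lit 24,nat_lit 25,nat_lit 192,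
    nat_lit 193],[nat_lit 209,nat_lit 194,nat_lit 99,nat_lit 100,nat_lit 42,nat_lit 67,nat_lit 136,nat_lit 163,
    nat_lit 43,nat_lit 68,nat_lit 137,nat_lit 164],[nat_lit 210,nat_lit 9,nat_lit 10,nat_lit 26,nat_lit 44,nat_lit 69,
    nat_lit 138,nat_lit 165,nat_lit 45,nat_lit 70,nat_lit 139,nat_lit 166],[nat_lit 46,nat_lit 71,nat_lit 72,
    nat_lit 101,nat_lit 102,nat_lit 117,nat_lit 47,nat_lit 73,nat_lit 140,nat_lit 167,nat_lit 195,nat_lit 211],
    [nat_lit 48,nat_lit 74,nat_lit 141,nat_lit 168,nat_lit 212,nat_lit 11,nat_lit 27,nat_lit 49,nat_lit 75,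
    nat_lit 142,nat_lit 169,nat_lit 50],[nat_lit 76,nat_lit 143,nat_lit 170,nat_lit 51,nat_lit 83,nat_lit 89,
    nat_lit 196,nat_lit 213,nat_lit 118,nat_lit 84,nat_lit 90,nat_lit 214],[nat_lit 119,nat_lit 120,nat_lit 85,
    nat_lit 91,nat_lit 121,nat_lit 215,nat_lit 197,nat_lit 198,nat_lit 52,nat_lit 199,nat_lit 77,nat_lit 28],
    [nat_lit 176,nat_lit 180,nat_lit 29,nat_lit 200,nat_lit 103,nat_lit 144,nat_lit 171,nat_lit 145,nat_lit 53,
    nat_lit 86,nat_lit 104,nat_lit 54],[nat_lit 216,nat_lit 78,nat_lit 12,nat_lit 13,nat_lit 14,nat_lit 181,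
    nat_lit 217,nat_lit 218,nat_lit 219,nat_lit 105,nat_lit 106,nat_lit 79],[nat_lit 146,nat_lit 80,nat_lit 55,
    nat_lit 81]]
    [[[nat_lit 182],[nat_lit 182],[nat_lit 191,nat_lit 194],[nat_lit 191,nat_lit 194],[nat_lit 196],[nat_lit 197,
    nat_lit 199],[nat_lit 197,nat_lit 199],[nat_lit 197,nat_lit 199],[nat_lit 183],[nat_lit 192],[nat_lit 192],
    [nat_lit 184]],[[nat_lit 193],[nat_lit 193],[nat_lit 193],[],[],[nat_lit 56,nat_lit 58],[nat_lit 62,nat_lit 68,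
    nat_lit 74],[nat_lit 60,nat_lit 63,nat_lit 69,nat_lit 75,nat_lit 80],[nat_lit 60,nat_lit 63,nat_lit 69,nat_lit 75,
    nat_lit 80],[nat_lit 60,nat_lit 63,nat_lit 69,nat_lit 75,nat_lit 80],[nat_lit 60,nat_lit 63,nat_lit 69,nat_lit 75,
    nat_lit 80],[]],[[],[],[],[nat_lit 57,nat_lit 59],[nat_lit 65,nat_lit 66],[nat_lit 65,nat_lit 66],[nat_lit 4,
    nat_lit 14],[nat_lit 4,nat_lit 14],[nat_lit 12],[nat_lit 12],[nat_lit 12],[]],[[],[],[nat_lit 6],[nat_lit 6],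
    [nat_lit 13],[nat_lit 13],[],[],[],[],[],[nat_lit 1,nat_lit 3,nat_lit 10,nat_lit 11]],[[nat_lit 1,nat_lit 3,
    nat_lit 10,nat_lit 11],[nat_lit 1,nat_lit 3,nat_lit 10,nat_lit 11],[nat_lit 1,nat_lit 3,nat_lit 10,nat_lit 11],
    [nat_lit 1,nat_lit 3,nat_lit 10,nat_lit 11],[],[],[],[],[],[],[nat_lit 87],[nat_lit 87]],[[],[],[nat_lit 91],
    [nat_lit 91],[nat_lit 91],[],[],[nat_lit 89],[nat_lit 89],[nat_lit 89],[nat_lit 89],[nat_lit 89]],[[nat_lit 89],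
    [],[],[],[],[],[nat_lit 90],[nat_lit 90],[nat_lit 90],[nat_lit 90],[nat_lit 32,nat_lit 42,nat_lit 47],[nat_lit 37,
    nat_lit 46,nat_lit 51,nat_lit 52]],[[nat_lit 34,nat_lit 36,nat_lit 45,nat_lit 50,nat_lit 53,nat_lit 55],
    [nat_lit 38,nat_lit 40],[],[nat_lit 107,nat_lit 111],[nat_lit 120],[nat_lit 118,nat_lit 119,nat_lit 121],
    [nat_lit 110,nat_lit 113],[nat_lit 115],[],[],[],[nat_lit 82]],[[],[nat_lit 85],[nat_lit 85],[nat_lit 83],
    [nat_lit 83],[],[],[nat_lit 86],[nat_lit 84],[nat_lit 84],[nat_lit 84],[nat_lit 150,nat_lit 156,nat_lit 163,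
    nat_lit 167,nat_lit 171]],[[nat_lit 150,nat_lit 156,nat_lit 163,nat_lit 167,nat_lit 171],[nat_lit 150,nat_lit 156,
    nat_lit 163,nat_lit 167,nat_lit 171],[nat_lit 150,nat_lit 156,nat_lit 163,nat_lit 167,nat_lit 171],[nat_lit 155,
    nat_lit 160],[nat_lit 155,nat_lit 160],[nat_lit 155,nat_lit 160],[],[nat_lit 162],[nat_lit 162],[nat_lit 149],
    [nat_lit 154],[nat_lit 153,nat_lit 159,nat_lit 166,nat_lit 170]],[[nat_lit 153,nat_lit 159,nat_lit 166,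
    nat_lit 170],[nat_lit 161],[nat_lit 92,nat_lit 95],[nat_lit 104],[],[],[],[],[nat_lit 96,nat_lit 98,nat_lit 100,
    nat_lit 102],[nat_lit 96,nat_lit 98,nat_lit 100,nat_lit 102],[nat_lit 96,nat_lit 98,nat_lit 100,nat_lit 102],
    [nat_lit 96,nat_lit 98,nat_lit 100,nat_lit 102]],[[nat_lit 96,nat_lit 98,nat_lit 100,nat_lit 102],[nat_lit 94],[],
    [],[nat_lit 103,nat_lit 105],[nat_lit 103,nat_lit 105],[nat_lit 103,nat_lit 105],[nat_lit 103,nat_lit 105],[],[],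
    [],[]],[[nat_lit 97,nat_lit 99,nat_lit 101],[nat_lit 97,nat_lit 99,nat_lit 101],[nat_lit 106],[],[nat_lit 179],
    [nat_lit 179],[nat_lit 177],[nat_lit 177],[nat_lit 177],[nat_lit 177],[nat_lit 177],[nat_lit 177]],[[],[],[],[],
    [],[nat_lit 178],[nat_lit 178],[],[],[],[],[nat_lit 180,nat_lit 181]],[[nat_lit 180,nat_lit 181],[nat_lit 180,
    nat_lit 181],[nat_lit 180,nat_lit 181],[],[nat_lit 122,nat_lit 123],[nat_lit 125,nat_lit 129,nat_lit 137,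
    nat_lit 141,nat_lit 145,nat_lit 146],[nat_lit 126,nat_lit 130,nat_lit 138,nat_lit 142],[nat_lit 126,nat_lit 130,
    nat_lit 138,nat_lit 142],[nat_lit 133,nat_lit 134],[nat_lit 202,nat_lit 213,nat_lit 214],[nat_lit 205,nat_lit 215,
    nat_lit 217,nat_lit 219],[nat_lit 216]],[[nat_lit 206,nat_lit 207,nat_lit 208],[nat_lit 209],[nat_lit 175],
    [nat_lit 175],[nat_lit 175],[nat_lit 172],[nat_lit 172],[nat_lit 172],[nat_lit 172],[],[],[]],[[nat_lit 173],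
    [nat_lit 173],[nat_lit 173],[nat_lit 176],[nat_lit 174],[],[],[],[],[nat_lit 19,nat_lit 23],[nat_lit 19,
    nat_lit 23],[]],[[],[],[nat_lit 15],[nat_lit 20,nat_lit 24],[nat_lit 21],[nat_lit 28],[],[nat_lit 16,nat_lit 26,
    nat_lit 27],[nat_lit 16,nat_lit 26,nat_lit 27],[nat_lit 17,nat_lit 18,nat_lit 29],[nat_lit 22,nat_lit 25],[]],[[],
    [],[],[]]]
    (nat_lit 220) [nat_lit 0,nat_lit 1,nat_lit 2,nat_lit 3,nat_lit 4,nat_lit 5,nat_lit 6,nat_lit 7,nat_lit 8,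
    nat_lit 9,nat_lit 10,nat_lit 11,nat_lit 12,nat_lit 13,nat_lit 14,nat_lit 15,nat_lit 16,nat_lit 17,nat_lit 18,
    nat_lit 19,nat_lit 20,nat_lit 21,nat_lit 22,nat_lit 23,nat_lit 24,nat_lit 25,nat_lit 26,nat_lit 27,nat_lit 28,
    nat_lit 29,nat_lit 32,nat_lit 33,nat_lit 34,nat_lit 35,nat_lit 36,nat_lit 37,nat_lit 42,nat_lit 43,nat_lit 44,
    nat_lit 45,nat_lit 46,nat_lit 47,nat_lit 48,nat_lit 49,nat_lit 50,nat_lit 51,nat_lit 52,nat_lit 53,nat_lit 54,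
    nat_lit 55,nat_lit 62,nat_lit 63,nat_lit 64,nat_lit 68,nat_lit 69,nat_lit 70,nat_lit 71,nat_lit 72,nat_lit 74,
    nat_lit 75,nat_lit 76,nat_lit 77,nat_lit 78,nat_lit 80,nat_lit 81,nat_lit 83,nat_lit 84,nat_lit 89,nat_lit 90,
    nat_lit 103,nat_lit 105,nat_lit 106,nat_lit 118,nat_lit 119,nat_lit 120,nat_lit 138,nat_lit 139,nat_lit 142,
    nat_lit 143,nat_lit 170]
    [[[],[],[],[nat_lit 5,nat_lit 8],[nat_lit 12],[nat_lit 13],[nat_lit 0,nat_lit 2,nat_lit 9],[nat_lit 1,nat_lit 3,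
    nat_lit 10,nat_lit 11],[nat_lit 6],[nat_lit 7],[],[],[],[nat_lit 4,nat_lit 14]],[[],[],[nat_lit 19,nat_lit 23],
    [nat_lit 20,nat_lit 24],[],[nat_lit 28],[nat_lit 15],[nat_lit 16,nat_lit 26,nat_lit 27],[nat_lit 21],[nat_lit 22,
    nat_lit 25],[],[],[nat_lit 17,nat_lit 18,nat_lit 29],[]],[[nat_lit 38,nat_lit 40],[nat_lit 39,nat_lit 41],
    [nat_lit 32,nat_lit 42,nat_lit 47],[nat_lit 43,nat_lit 48],[],[],[nat_lit 30],[nat_lit 31],[nat_lit 33,nat_lit 35,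
    nat_lit 44,nat_lit 49],[nat_lit 34,nat_lit 36,nat_lit 45,nat_lit 50,nat_lit 53,nat_lit 55],[],[],[nat_lit 37,
    nat_lit 46,nat_lit 51,nat_lit 52],[nat_lit 54]],[[nat_lit 65,nat_lit 66],[],[nat_lit 67,nat_lit 73,nat_lit 79],
    [nat_lit 62,nat_lit 68,nat_lit 74],[],[],[nat_lit 56,nat_lit 58],[nat_lit 57,nat_lit 59],[nat_lit 60,nat_lit 63,
    nat_lit 69,nat_lit 75,nat_lit 80],[nat_lit 61,nat_lit 64,nat_lit 70,nat_lit 76,nat_lit 81],[],[],[nat_lit 71,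
    nat_lit 77],[nat_lit 72,nat_lit 78]],[[nat_lit 86],[nat_lit 85],[],[],[],[],[],[],[],[],[nat_lit 83],[nat_lit 84],
    [],[nat_lit 82]],[[],[nat_lit 91],[],[],[],[],[],[],[],[],[nat_lit 89],[nat_lit 90],[nat_lit 88],[nat_lit 87]],
    [[nat_lit 97,nat_lit 99,nat_lit 101],[nat_lit 96,nat_lit 98,nat_lit 100,nat_lit 102],[nat_lit 92,nat_lit 95],
    [nat_lit 93],[],[],[],[],[nat_lit 94],[],[nat_lit 103,nat_lit 105],[nat_lit 106],[],[nat_lit 104]],[[nat_lit 115],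
    [nat_lit 114,nat_lit 116,nat_lit 117],[nat_lit 107,nat_lit 111],[nat_lit 108],[],[],[],[],[nat_lit 109,
    nat_lit 112],[nat_lit 110,nat_lit 113],[],[],[nat_lit 118,nat_lit 119,nat_lit 121],[nat_lit 120]],[[nat_lit 133,
    nat_lit 134],[nat_lit 135],[nat_lit 124,nat_lit 128,nat_lit 136,nat_lit 140,nat_lit 144],[nat_lit 125,nat_lit 129,
    nat_lit 137,nat_lit 141,nat_lit 145,nat_lit 146],[],[],[nat_lit 122,nat_lit 123],[],[nat_lit 126,nat_lit 130,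
    nat_lit 138,nat_lit 142],[nat_lit 127,nat_lit 131,nat_lit 139,nat_lit 143],[],[],[],[nat_lit 132]],[[nat_lit 161],
    [nat_lit 162],[nat_lit 150,nat_lit 156,nat_lit 163,nat_lit 167,nat_lit 171],[nat_lit 151,nat_lit 157,nat_lit 164,
    nat_lit 168],[],[],[nat_lit 147,nat_lit 148],[nat_lit 149],[nat_lit 152,nat_lit 158,nat_lit 165,nat_lit 169],
    [nat_lit 153,nat_lit 159,nat_lit 166,nat_lit 170],[],[],[nat_lit 154],[nat_lit 155,nat_lit 160]],[[],[],[],[],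
    [nat_lit 172],[nat_lit 173],[],[nat_lit 176],[],[],[],[],[nat_lit 174],[nat_lit 175]],[[],[],[],[],[nat_lit 177],
    [nat_lit 178],[],[nat_lit 180,nat_lit 181],[],[],[],[],[],[nat_lit 179]],[[],[nat_lit 191,nat_lit 194],
    [nat_lit 188,nat_lit 200],[nat_lit 190],[nat_lit 182],[nat_lit 183],[nat_lit 196],[nat_lit 184],[nat_lit 197,
    nat_lit 199],[nat_lit 198],[nat_lit 192],[nat_lit 193],[nat_lit 186,nat_lit 187,nat_lit 189,nat_lit 195],
    [nat_lit 185]],[[nat_lit 206,nat_lit 207,nat_lit 208],[],[nat_lit 203,nat_lit 218],[nat_lit 205,nat_lit 215,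
    nat_lit 217,nat_lit 219],[nat_lit 201],[],[nat_lit 202,nat_lit 213,nat_lit 214],[],[nat_lit 216],[],[],
    [nat_lit 209],[],[nat_lit 204,nat_lit 210,nat_lit 211,nat_lit 212]]]
    [[[nat_lit 0x4000000000000000000000000000000000000000000000,
    nat_lit 0x4000000000000000000000000000000000000000000000,
    nat_lit 0x4800000000000000000000000000000000000000000000000,
    nat_lit 0x4800000000000000000000000000000000000000000000000,
    nat_lit 0x10000000000000000000000000000000000000000000000000,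
    nat_lit 0xa0000000000000000000000000000000000000000000000000,
    nat_lit 0xa0000000000000000000000000000000000000000000000000,
    nat_lit 0xa0000000000000000000000000000000000000000000000000,
    nat_lit 0x8000000000000000000000000000000000000000000000],
    [nat_lit 0x1000000000000000000000000000000000000000000000000,
    nat_lit 0x1000000000000000000000000000000000000000000000000,
    nat_lit 0x10000000000000000000000000000000000000000000000,
    nat_lit 0x2000000000000000000000000000000000000000000000000,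
    nat_lit 0x2000000000000000000000000000000000000000000000000,
    nat_lit 0x2000000000000000000000000000000000000000000000000,nat_lit 0,nat_lit 0,nat_lit 0x500000000000000],
    [nat_lit 0x4104000000000000000,nat_lit 0x108209000000000000000,nat_lit 0x108209000000000000000,
    nat_lit 0x108209000000000000000,nat_lit 0x108209000000000000000,nat_lit 0,nat_lit 0,nat_lit 0,nat_lit 0],
    [nat_lit 0xa00000000000000,nat_lit 0x60000000000000000,nat_lit 0x60000000000000000,nat_lit 0x4010,nat_lit 0x4010,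
    nat_lit 0x1000,nat_lit 0x1000,nat_lit 0x1000,nat_lit 0],[nat_lit 0,nat_lit 0,nat_lit 64,nat_lit 64,nat_lit 0x2000,
    nat_lit 0x2000,nat_lit 0,nat_lit 0,nat_lit 0],[nat_lit 0,nat_lit 0,nat_lit 0xc0a,nat_lit 0xc0a,nat_lit 0xc0a,
    nat_lit 0xc0a,nat_lit 0xc0a,nat_lit 0,nat_lit 0],[nat_lit 0,nat_lit 0,nat_lit 0,nat_lit 0,
    nat_lit 0x8000000000000000000000,nat_lit 0x8000000000000000000000,nat_lit 0,nat_lit 0,
    nat_lit 0x80000000000000000000000],[nat_lit 0x80000000000000000000000,nat_lit 0x80000000000000000000000,nat_lit 0,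
    nat_lit 0,nat_lit 0x20000000000000000000000,nat_lit 0x20000000000000000000000,nat_lit 0x20000000000000000000000,
    nat_lit 0x20000000000000000000000,nat_lit 0x20000000000000000000000],[nat_lit 0x20000000000000000000000,nat_lit 0,
    nat_lit 0,nat_lit 0,nat_lit 0,nat_lit 0,nat_lit 0x40000000000000000000000,nat_lit 0x40000000000000000000000,
    nat_lit 0x40000000000000000000000]],[[nat_lit 0x40000000000000000000000,nat_lit 0x840100000000,
    nat_lit 0x18402000000000,nat_lit 0xa4201400000000,nat_lit 0x14000000000,nat_lit 0,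
    nat_lit 0x8800000000000000000000000000,nat_lit 0x1000000000000000000000000000000,
    nat_lit 0x2c00000000000000000000000000000],[nat_lit 0x24000000000000000000000000000,
    nat_lit 0x80000000000000000000000000000,nat_lit 0,nat_lit 0,nat_lit 0,nat_lit 0x400000000000000000000,nat_lit 0,
    nat_lit 0x2000000000000000000000,nat_lit 0x2000000000000000000000],[nat_lit 0x800000000000000000000,
    nat_lit 0x800000000000000000000,nat_lit 0,nat_lit 0,nat_lit 0x4000000000000000000000,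
    nat_lit 0x1000000000000000000000,nat_lit 0x1000000000000000000000,nat_lit 0x1000000000000000000000,
    nat_lit 0x8881040000000000000000000000000000000000000],[nat_lit 0x8881040000000000000000000000000000000000000,
    nat_lit 0x8881040000000000000000000000000000000000000,nat_lit 0x8881040000000000000000000000000000000000000,
    nat_lit 0x10800000000000000000000000000000000000000,nat_lit 0x10800000000000000000000000000000000000000,
    nat_lit 0x10800000000000000000000000000000000000000,nat_lit 0,nat_lit 0x40000000000000000000000000000000000000000,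
    nat_lit 0x40000000000000000000000000000000000000000],[nat_lit 0x20000000000000000000000000000000000000,
    nat_lit 0x400000000000000000000000000000000000000,nat_lit 0x4408200000000000000000000000000000000000000,
    nat_lit 0x4408200000000000000000000000000000000000000,nat_lit 0x20000000000000000000000000000000000000000,
    nat_lit 0x900000000000000000000000,nat_lit 0x100000000000000000000000000,nat_lit 0,nat_lit 0],[nat_lit 0,
    nat_lit 0,nat_lit 0x55000000000000000000000000,nat_lit 0x55000000000000000000000000,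
    nat_lit 0x55000000000000000000000000,nat_lit 0x55000000000000000000000000,nat_lit 0x55000000000000000000000000,
    nat_lit 0x400000000000000000000000,nat_lit 0],[nat_lit 0,nat_lit 0x280000000000000000000000000,
    nat_lit 0x280000000000000000000000000,nat_lit 0x280000000000000000000000000,nat_lit 0x280000000000000000000000000,
    nat_lit 0,nat_lit 0,nat_lit 0,nat_lit 0],[nat_lit 0x2a000000000000000000000000,
    nat_lit 0x2a000000000000000000000000,nat_lit 0x400000000000000000000000000,nat_lit 0,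
    nat_lit 0x800000000000000000000000000000000000000000000,nat_lit 0x800000000000000000000000000000000000000000000,
    nat_lit 0x200000000000000000000000000000000000000000000,nat_lit 0x200000000000000000000000000000000000000000000,
    nat_lit 0x200000000000000000000000000000000000000000000],[nat_lit 0x200000000000000000000000000000000000000000000,
    nat_lit 0x200000000000000000000000000000000000000000000,nat_lit 0x200000000000000000000000000000000000000000000,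
    nat_lit 0,nat_lit 0,nat_lit 0,nat_lit 0,nat_lit 0,nat_lit 0x400000000000000000000000000000000000000000000]],
    [[nat_lit 0x400000000000000000000000000000000000000000000,nat_lit 0,nat_lit 0,nat_lit 0,nat_lit 0,
    nat_lit 0x3000000000000000000000000000000000000000000000,nat_lit 0x3000000000000000000000000000000000000000000000,
    nat_lit 0x3000000000000000000000000000000000000000000000,
    nat_lit 0x3000000000000000000000000000000000000000000000],[nat_lit 0,nat_lit 0xc000000000000000000000000000000,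
    nat_lit 0x6220220000000000000000000000000000000,nat_lit 0x440440000000000000000000000000000000,
    nat_lit 0x440440000000000000000000000000000000,nat_lit 0x6000000000000000000000000000000000,
    nat_lit 0x600400000000000000000000000000000000000000000000000000,
    nat_lit 0xa802000000000000000000000000000000000000000000000000000,
    nat_lit 0x1000000000000000000000000000000000000000000000000000000],
    [nat_lit 0x1c000000000000000000000000000000000000000000000000000,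
    nat_lit 0x20000000000000000000000000000000000000000000000000000,
    nat_lit 0x80000000000000000000000000000000000000000000,nat_lit 0x80000000000000000000000000000000000000000000,
    nat_lit 0x80000000000000000000000000000000000000000000,nat_lit 0x10000000000000000000000000000000000000000000,
    nat_lit 0x10000000000000000000000000000000000000000000,nat_lit 0x10000000000000000000000000000000000000000000,
    nat_lit 0x10000000000000000000000000000000000000000000],[nat_lit 0,nat_lit 0,nat_lit 0,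
    nat_lit 0x20000000000000000000000000000000000000000000,nat_lit 0x20000000000000000000000000000000000000000000,
    nat_lit 0x20000000000000000000000000000000000000000000,nat_lit 0x100000000000000000000000000000000000000000000,
    nat_lit 0x40000000000000000000000000000000000000000000,nat_lit 0],[nat_lit 0,nat_lit 0,nat_lit 0,nat_lit 0x880000,
    nat_lit 0x880000,nat_lit 0,nat_lit 0,nat_lit 0,nat_lit 0x8000],[nat_lit 0x1100000,nat_lit 0x200000,
    nat_lit 0x10000000,nat_lit 0,nat_lit 0xc010000,nat_lit 0xc010000,nat_lit 0x20060000,nat_lit 0x2400000,nat_lit 0],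
    [nat_lit 0,nat_lit 0,nat_lit 0,nat_lit 0]]]
    [[[[nat_lit 0,nat_lit 0x4000000000000000000000000000000000000000000000,nat_lit 0,nat_lit 0,nat_lit 0,
    nat_lit 0x80000000000000000000000000000000000000000000000000,
    nat_lit 0x80000000000000000000000000000000000000000000000000,nat_lit 0,nat_lit 0],[nat_lit 0,nat_lit 0,nat_lit 0,
    nat_lit 0,nat_lit 0x2000000000000000000000000000000000000000000000000,
    nat_lit 0x2000000000000000000000000000000000000000000000000,nat_lit 0,nat_lit 0,nat_lit 0x500000000000000],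
    [nat_lit 0,nat_lit 0,nat_lit 0x8000000000000000,nat_lit 0x208000000000000000,nat_lit 0,nat_lit 0,nat_lit 0,
    nat_lit 0,nat_lit 0],[nat_lit 0,nat_lit 0,nat_lit 0x40000000000000000,nat_lit 0x4000,nat_lit 0,nat_lit 0,
    nat_lit 0,nat_lit 0,nat_lit 0],[nat_lit 0,nat_lit 0,nat_lit 0,nat_lit 0,nat_lit 0x2000,nat_lit 0x2000,nat_lit 0,
    nat_lit 0,nat_lit 0],[nat_lit 0,nat_lit 0,nat_lit 0x802,nat_lit 0,nat_lit 0,nat_lit 0x800,nat_lit 0,nat_lit 0,
    nat_lit 0],[nat_lit 0,nat_lit 0,nat_lit 0,nat_lit 0,nat_lit 0x8000000000000000000000,nat_lit 0,nat_lit 0,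
    nat_lit 0,nat_lit 0],[nat_lit 0x80000000000000000000000,nat_lit 0,nat_lit 0,nat_lit 0,nat_lit 0,
    nat_lit 0x20000000000000000000000,nat_lit 0x20000000000000000000000,nat_lit 0,nat_lit 0x20000000000000000000000],
    [nat_lit 0x20000000000000000000000,nat_lit 0,nat_lit 0,nat_lit 0,nat_lit 0,nat_lit 0,nat_lit 0,nat_lit 0,
    nat_lit 0]],[[nat_lit 0,nat_lit 0x800000000000,nat_lit 0,nat_lit 0xa4000400000000,nat_lit 0x10000000000,nat_lit 0,
    nat_lit 0x800000000000000000000000000,nat_lit 0,nat_lit 0x2c00000000000000000000000000000],[nat_lit 0,nat_lit 0,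
    nat_lit 0,nat_lit 0,nat_lit 0,nat_lit 0,nat_lit 0,nat_lit 0,nat_lit 0x2000000000000000000000],[nat_lit 0,
    nat_lit 0,nat_lit 0,nat_lit 0,nat_lit 0,nat_lit 0x1000000000000000000000,nat_lit 0x1000000000000000000000,
    nat_lit 0x1000000000000000000000,nat_lit 0x8800000000000000000000000000000000000000000],
    [nat_lit 0x8800000000000000000000000000000000000000000,nat_lit 0x8800000000000000000000000000000000000000000,
    nat_lit 0x8800000000000000000000000000000000000000000,nat_lit 0,nat_lit 0,nat_lit 0,nat_lit 0,nat_lit 0,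
    nat_lit 0],[nat_lit 0,nat_lit 0,nat_lit 0x4000200000000000000000000000000000000000000,nat_lit 0,
    nat_lit 0x20000000000000000000000000000000000000000,nat_lit 0,nat_lit 0x100000000000000000000000000,nat_lit 0,
    nat_lit 0],[nat_lit 0,nat_lit 0,nat_lit 0,nat_lit 0,nat_lit 0x55000000000000000000000000,nat_lit 0,
    nat_lit 0x55000000000000000000000000,nat_lit 0,nat_lit 0],[nat_lit 0,nat_lit 0,
    nat_lit 0x200000000000000000000000000,nat_lit 0x200000000000000000000000000,nat_lit 0,nat_lit 0,nat_lit 0,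
    nat_lit 0,nat_lit 0],[nat_lit 0,nat_lit 0,nat_lit 0,nat_lit 0,
    nat_lit 0x800000000000000000000000000000000000000000000,nat_lit 0,
    nat_lit 0x200000000000000000000000000000000000000000000,nat_lit 0,nat_lit 0],
    [nat_lit 0x200000000000000000000000000000000000000000000,nat_lit 0,nat_lit 0,nat_lit 0,nat_lit 0,nat_lit 0,
    nat_lit 0,nat_lit 0,nat_lit 0x400000000000000000000000000000000000000000000]],
    [[nat_lit 0x400000000000000000000000000000000000000000000,nat_lit 0,nat_lit 0,nat_lit 0,nat_lit 0,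
    nat_lit 0x1000000000000000000000000000000000000000000000,nat_lit 0,nat_lit 0,
    nat_lit 0x1000000000000000000000000000000000000000000000],[nat_lit 0,nat_lit 0xc000000000000000000000000000000,
    nat_lit 0x20200000000000000000000000000000000,nat_lit 0,nat_lit 0x40400000000000000000000000000000000,
    nat_lit 0x4000000000000000000000000000000000,nat_lit 0x600000000000000000000000000000000000000000000000000000,
    nat_lit 0x2000000000000000000000000000000000000000000000000000000,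
    nat_lit 0x1000000000000000000000000000000000000000000000000000000],
    [nat_lit 0xc000000000000000000000000000000000000000000000000000,nat_lit 0,
    nat_lit 0x80000000000000000000000000000000000000000000,nat_lit 0x80000000000000000000000000000000000000000000,
    nat_lit 0,nat_lit 0,nat_lit 0,nat_lit 0x10000000000000000000000000000000000000000000,nat_lit 0],[nat_lit 0,
    nat_lit 0,nat_lit 0,nat_lit 0x20000000000000000000000000000000000000000000,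
    nat_lit 0x20000000000000000000000000000000000000000000,nat_lit 0,
    nat_lit 0x100000000000000000000000000000000000000000000,nat_lit 0,nat_lit 0],[nat_lit 0,nat_lit 0,nat_lit 0,
    nat_lit 0,nat_lit 0,nat_lit 0,nat_lit 0,nat_lit 0,nat_lit 0],[nat_lit 0x100000,nat_lit 0,nat_lit 0,nat_lit 0,
    nat_lit 0x8010000,nat_lit 0,nat_lit 0x20020000,nat_lit 0,nat_lit 0],[nat_lit 0,nat_lit 0,nat_lit 0,nat_lit 0]]]]
    (nat_lit 1) (nat_lit 1) (nat_lit 8)
    [[nat_lit 2,nat_lit 17,nat_lit 0x1000011,nat_lit 257,nat_lit 0x1001,nat_lit 0x2001,nat_lit 0x1001001,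
    nat_lit 0x10001,nat_lit 0x1010001,nat_lit 0x1000001,nat_lit 0x2000001],[nat_lit 32,nat_lit 0x1020,
    nat_lit 0x1000020,nat_lit 272,nat_lit 0x1110,nat_lit 0x1000110,nat_lit 0x1010,nat_lit 0x2010,nat_lit 0x11010,
    nat_lit 0x1001010,nat_lit 0x2001010,nat_lit 0x10010,nat_lit 0x1010010,nat_lit 0x100010,nat_lit 0x1000010,
    nat_lit 0x2000010,nat_lit 0x3000010,nat_lit 0x1100010],[nat_lit 512,nat_lit 0x1100,nat_lit 0x2100,
    nat_lit 0x1001100,nat_lit 0x10100,nat_lit 0x1010100,nat_lit 0x1000100,nat_lit 0x2000100],[nat_lit 0x2000,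
    nat_lit 0x3000,nat_lit 0x12000,nat_lit 0x1002000,nat_lit 0x2002000,nat_lit 0x11000,nat_lit 0x21000,
    nat_lit 0x1011000,nat_lit 0x101000,nat_lit 0x1001000,nat_lit 0x2001000,nat_lit 0x3001000,nat_lit 0x2011000],
    [nat_lit 0x20000,nat_lit 0x1020000,nat_lit 0x110000,nat_lit 0x1010000,nat_lit 0x2010000,nat_lit 0x3010000],
    [nat_lit 0x200000,nat_lit 0x1100000,nat_lit 0x2100000],[nat_lit 0x2000000,nat_lit 0x3000000,nat_lit 0x4000000,
    nat_lit 0x5000000]]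
    [.c (nat_lit 1) (nat_lit 2),.c (nat_lit 0) (nat_lit 0x1c3003187),.c (nat_lit 1) (nat_lit 0xc3006),
    .c (nat_lit 0) (nat_lit 0x2180000007),.c (nat_lit 0) (nat_lit 0x1c30c3187),.c (nat_lit 3) (nat_lit 0x2484104346),
    .c (nat_lit 0) (nat_lit 0x1c30c0187),.c (nat_lit 0) (nat_lit 0x1c00c3187),.c (nat_lit 1) (nat_lit 0x3003006),
    .c (nat_lit 0) (nat_lit 0x2180002007),.c (nat_lit 0) (nat_lit 0x1c30c2187),.c (nat_lit 2) (nat_lit 2),
    .c (nat_lit 3) (nat_lit 0x23020c21c6),.c (nat_lit 0) (nat_lit 0x102007),.c (nat_lit 4) (nat_lit 0x3343143186),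
    .r (nat_lit 0x1cdb) (nat_lit 5) [nat_lit 0x60c20001c3,nat_lit 0x70030c6003],.c (nat_lit 3) (nat_lit 0xc3006),
    .c (nat_lit 0) (nat_lit 0x1c3003187),.c (nat_lit 3) (nat_lit 0x4604084346),.c (nat_lit 3) (nat_lit 0x23000021c6),
    .c (nat_lit 4) (nat_lit 0xc3006),.c (nat_lit 3) (nat_lit 0x23020031c6),.c (nat_lit 0) (nat_lit 0x2080007),
    .c (nat_lit 0) (nat_lit 0x2082007),.c (nat_lit 1) (nat_lit 0x20000c0006),.c (nat_lit 0) (nat_lit 0x82007),
    .c (nat_lit 0) (nat_lit 0x84007),.c (nat_lit 0) (nat_lit 0x86007),.c (nat_lit 3) (nat_lit 0x180082007),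
    .c (nat_lit 3) (nat_lit 2),.r (nat_lit 0x1bdf) (nat_lit 13) [nat_lit 129,nat_lit 0x84007183],
    .r (nat_lit 447) (nat_lit 7) [nat_lit 0x11820410d183,nat_lit 0x4000000001,nat_lit 0x15914500c1c3,
    nat_lit 0x22410410d183,nat_lit 0x271245258343],.c (nat_lit 3) (nat_lit 0x23020801c6),
    .c (nat_lit 4) (nat_lit 0x33450c3186),.c (nat_lit 3) (nat_lit 0x3003006),.c (nat_lit 0) (nat_lit 0x2180002007),
    .c (nat_lit 4) (nat_lit 0x33430c7186),.c (nat_lit 4) (nat_lit 2),.c (nat_lit 3) (nat_lit 0x23020821c2),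
    .c (nat_lit 3) (nat_lit 0x4602104346),.r (nat_lit 0x1bdf) (nat_lit 13) [nat_lit 0x8c082007183,
    nat_lit 0x8c10600d183],.c (nat_lit 3) (nat_lit 0x4604100346),.c (nat_lit 0) (nat_lit 0x1c00c3187),
    .c (nat_lit 3) (nat_lit 0x23030821c6),.c (nat_lit 4) (nat_lit 0x3003006),.c (nat_lit 0) (nat_lit 0x31c30c3187),
    .c (nat_lit 0) (nat_lit 0x1c30c0187),.c (nat_lit 0) (nat_lit 0x1c30c2187),.c (nat_lit 4) (nat_lit 0x3002),
    .c (nat_lit 3) (nat_lit 0x23000831c6),.c (nat_lit 5) (nat_lit 2),.c (nat_lit 0) (nat_lit 0x4002007),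
    .c (nat_lit 1) (nat_lit 0x2003000006),.c (nat_lit 0) (nat_lit 0x2002007),.c (nat_lit 0) (nat_lit 0x2004007),
    .c (nat_lit 0) (nat_lit 0x2006007),.c (nat_lit 6) (nat_lit 2),.c (nat_lit 0) (nat_lit 0x31c30c0187),
    .c (nat_lit 1) (nat_lit 0x2000005006),.c (nat_lit 7) (nat_lit 2),.c (nat_lit 0) (nat_lit 0x2003),
    .c (nat_lit 0) (nat_lit 0x8007),.c (nat_lit 0) (nat_lit 0xa007)]]

/-- nodes -/
noncomputable def rD7k_24_32 : List RJ :=
  [.s (nat_lit 14) (nat_lit 0xf00) (nat_lit 4) (nat_lit 0x6860000068600000573000005730000057a0000057a0000060b0000060b00000614000006140000058a0000058a000005d1000005d1) (nat_lit 0x113000001130000010c0000010c0000007b0000007b0000007200000072000000fc000000fc000000b5000000b5)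
    (nat_lit 0x1a1868610f457315e857a182c523185076c169858a17445791a1868615cc57315e857a182c57b1cd088c1b7058a174459f15cc573118046013dc4670a004f8140450112a435712f836c15cc43d12a8460119c46713e05b614045010dcc47712f844a15e857a119c4670ec042413fc4ff142050813c847e17ec5c915e857a119c4f711b83b015cc4ff142050811884f216b455515ec52316d84f813fc4ff1640590149452511fc50f1558572182c60b13e028015cc4ff16405901664599143c50f0ff8572223076c14045011420508166452516885a213f0518157c55f1cd061414045011420508166452516885a21460518157c55f162858a11dc35713c847e143c50f1460518123848e13544d51b705a60dcc4a911884f2143c47f14604fc123848e14b44d5167c579112836c15545c915c8572157c55f13544d5140051c17445d112f84be16b45fb0ff8556157c55f14b44d51470500)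
    (nat_lit 0x1a18f003c00f003c00f003c00f003c00f003c00f003c00f001a186863c00f003c00f003c00f003c00f003c00f003c00f0010f45731180f003c00f003c00f003c00f003c00f003c00f0015cc57311804603c00f003c00f003c00f003c00f003c00f0015e857a13dc4670ec0f003c00f003c00f003c00f003c00f0015e857a119c46710903b03c00f003c00f003c00f003c00f00182c60b0a004f813fc5731640f003c00f003c00f003c00f00148c57b13e05b613fc4ff16405903c00f003c00f003c00f0018507341404501142050814945991688f003c00f003c00f001db088c14045011420508149459916885a23c00f003c00f0016986dc12a437313c846211fc50f13f05181238f003c00f00162858a0d5c47711f84f2143c50f1460518123848e3c00f0017445d112f84be17ec5ad15583fe157c55f135452d1400f0015e459f0db044a172455515c8572157c55f13544d51470500)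
    (nat_lit 5) (nat_lit 61)
    [[nat_lit 0,nat_lit 0,nat_lit 6],[nat_lit 0,nat_lit 0,nat_lit 7],[nat_lit 0,nat_lit 1,nat_lit 10,nat_lit 10],
    [nat_lit 0,nat_lit 1,nat_lit 10,nat_lit 11],[nat_lit 0,nat_lit 1,nat_lit 11,nat_lit 11],[nat_lit 0,nat_lit 2,
    nat_lit 2,nat_lit 11],[nat_lit 0,nat_lit 2,nat_lit 3,nat_lit 10],[nat_lit 0,nat_lit 2,nat_lit 4],[nat_lit 0,
    nat_lit 2,nat_lit 5],[nat_lit 0,nat_lit 2,nat_lit 11,nat_lit 2],[nat_lit 0,nat_lit 3,nat_lit 4],[nat_lit 0,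
    nat_lit 6,nat_lit 0],[nat_lit 0,nat_lit 6,nat_lit 1],[nat_lit 0,nat_lit 7,nat_lit 0],[nat_lit 0,nat_lit 7,
    nat_lit 1],[nat_lit 0,nat_lit 10,nat_lit 0,nat_lit 10],[nat_lit 0,nat_lit 11,nat_lit 0,nat_lit 11],[nat_lit 1,
    nat_lit 1,nat_lit 6],[nat_lit 1,nat_lit 1,nat_lit 7],[nat_lit 1,nat_lit 3,nat_lit 10,nat_lit 3],[nat_lit 1,
    nat_lit 4,nat_lit 3],[nat_lit 1,nat_lit 5,nat_lit 2],[nat_lit 1,nat_lit 5,nat_lit 3],[nat_lit 1,nat_lit 6,
    nat_lit 1],[nat_lit 1,nat_lit 7,nat_lit 1],[nat_lit 1,nat_lit 10,nat_lit 1,nat_lit 10],[nat_lit 1,nat_lit 10,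
    nat_lit 3,nat_lit 3],[nat_lit 1,nat_lit 11,nat_lit 1,nat_lit 11],[nat_lit 1,nat_lit 11,nat_lit 2,nat_lit 3],
    [nat_lit 2,nat_lit 2,nat_lit 2,nat_lit 2],[nat_lit 2,nat_lit 6,nat_lit 8],[nat_lit 2,nat_lit 6,nat_lit 9],
    [nat_lit 2,nat_lit 7,nat_lit 9],[nat_lit 2,nat_lit 9,nat_lit 6],[nat_lit 2,nat_lit 9,nat_lit 7],[nat_lit 2,
    nat_lit 10,nat_lit 12],[nat_lit 2,nat_lit 11,nat_lit 12],[nat_lit 2,nat_lit 11,nat_lit 13],[nat_lit 2,nat_lit 12,
    nat_lit 10],[nat_lit 2,nat_lit 12,nat_lit 11],[nat_lit 2,nat_lit 13,nat_lit 10],[nat_lit 2,nat_lit 13,nat_lit 11],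
    [nat_lit 3,nat_lit 3,nat_lit 3,nat_lit 3],[nat_lit 3,nat_lit 6,nat_lit 8],[nat_lit 3,nat_lit 7,nat_lit 8],
    [nat_lit 3,nat_lit 8,nat_lit 6],[nat_lit 3,nat_lit 8,nat_lit 7],[nat_lit 3,nat_lit 9,nat_lit 7],[nat_lit 3,
    nat_lit 10,nat_lit 12],[nat_lit 3,nat_lit 10,nat_lit 13],[nat_lit 3,nat_lit 11,nat_lit 12],[nat_lit 3,nat_lit 11,
    nat_lit 13],[nat_lit 3,nat_lit 12,nat_lit 10],[nat_lit 3,nat_lit 13,nat_lit 10],[nat_lit 3,nat_lit 13,nat_lit 11],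
    [nat_lit 4,nat_lit 8,nat_lit 10],[nat_lit 4,nat_lit 8,nat_lit 11],[nat_lit 4,nat_lit 9,nat_lit 10],[nat_lit 4,
    nat_lit 9,nat_lit 11],[nat_lit 4,nat_lit 10,nat_lit 8],[nat_lit 4,nat_lit 10,nat_lit 9],[nat_lit 4,nat_lit 11,
    nat_lit 8],[nat_lit 4,nat_lit 12],[nat_lit 4,nat_lit 13],[nat_lit 5,nat_lit 8,nat_lit 11],[nat_lit 5,nat_lit 9,
    nat_lit 10],[nat_lit 5,nat_lit 9,nat_lit 11],[nat_lit 5,nat_lit 10,nat_lit 8],[nat_lit 5,nat_lit 10,nat_lit 9],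
    [nat_lit 5,nat_lit 11,nat_lit 8],[nat_lit 5,nat_lit 11,nat_lit 9],[nat_lit 5,nat_lit 12],[nat_lit 5,nat_lit 13]]
    [nat_lit 0x1006,nat_lit 0x1007,nat_lit 0x101aa,nat_lit 0x101ab,nat_lit 0x101bb,nat_lit 0x1022b,nat_lit 0x1023a,
    nat_lit 0x1024,nat_lit 0x1025,nat_lit 0x102b2,nat_lit 0x1034,nat_lit 0x1060,nat_lit 0x1061,nat_lit 0x1070,
    nat_lit 0x1071,nat_lit 0x10a0a,nat_lit 0x10b0b,nat_lit 0x1116,nat_lit 0x1117,nat_lit 0x113a3,nat_lit 0x1143,
    nat_lit 0x1152,nat_lit 0x1153,nat_lit 0x1161,nat_lit 0x1171,nat_lit 0x11a1a,nat_lit 0x11a33,nat_lit 0x11b1b,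
    nat_lit 0x11b23,nat_lit 0x12222,nat_lit 0x1268,nat_lit 0x1269,nat_lit 0x1279,nat_lit 0x1296,nat_lit 0x1297,
    nat_lit 0x12ac,nat_lit 0x12bc,nat_lit 0x12bd,nat_lit 0x12ca,nat_lit 0x12cb,nat_lit 0x12da,nat_lit 0x12db,
    nat_lit 0x13333,nat_lit 0x1368,nat_lit 0x1378,nat_lit 0x1386,nat_lit 0x1387,nat_lit 0x1397,nat_lit 0x13ac,
    nat_lit 0x13ad,nat_lit 0x13bc,nat_lit 0x13bd,nat_lit 0x13ca,nat_lit 0x13da,nat_lit 0x13db,nat_lit 0x148a,
    nat_lit 0x148b,nat_lit 0x149a,nat_lit 0x149b,nat_lit 0x14a8,nat_lit 0x14a9,nat_lit 0x14b8,nat_lit 332,nat_lit 333,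
    nat_lit 0x158b,nat_lit 0x159a,nat_lit 0x159b,nat_lit 0x15a8,nat_lit 0x15a9,nat_lit 0x15b8,nat_lit 0x15b9,
    nat_lit 348,nat_lit 349]
    [[[nat_lit 0,nat_lit 0,nat_lit 6],[nat_lit 0,nat_lit 0,nat_lit 7],[nat_lit 0,nat_lit 1,nat_lit 10,nat_lit 10],
    [nat_lit 0,nat_lit 1,nat_lit 10,nat_lit 11],[nat_lit 0,nat_lit 1,nat_lit 11,nat_lit 11],[nat_lit 0,nat_lit 2,
    nat_lit 2,nat_lit 11],[nat_lit 0,nat_lit 2,nat_lit 3,nat_lit 10],[nat_lit 0,nat_lit 2,nat_lit 4],[nat_lit 0,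
    nat_lit 2,nat_lit 5],[nat_lit 0,nat_lit 2,nat_lit 11,nat_lit 2],[nat_lit 0,nat_lit 3,nat_lit 4],[nat_lit 0,
    nat_lit 6,nat_lit 0]],[[nat_lit 0,nat_lit 6,nat_lit 1],[nat_lit 0,nat_lit 7,nat_lit 0],[nat_lit 0,nat_lit 7,
    nat_lit 1],[nat_lit 0,nat_lit 10,nat_lit 0,nat_lit 10],[nat_lit 0,nat_lit 11,nat_lit 0,nat_lit 11],[nat_lit 1,
    nat_lit 0,nat_lit 6],[nat_lit 1,nat_lit 0,nat_lit 7],[nat_lit 1,nat_lit 1,nat_lit 6],[nat_lit 1,nat_lit 1,
    nat_lit 7],[nat_lit 1,nat_lit 3,nat_lit 10,nat_lit 3],[nat_lit 1,nat_lit 4,nat_lit 3],[nat_lit 1,nat_lit 5,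
    nat_lit 2]],[[nat_lit 1,nat_lit 5,nat_lit 3],[nat_lit 1,nat_lit 6,nat_lit 1],[nat_lit 1,nat_lit 7,nat_lit 1],
    [nat_lit 1,nat_lit 10,nat_lit 1,nat_lit 10],[nat_lit 1,nat_lit 10,nat_lit 3,nat_lit 3],[nat_lit 1,nat_lit 10,
    nat_lit 10,nat_lit 0],[nat_lit 1,nat_lit 10,nat_lit 11,nat_lit 0],[nat_lit 1,nat_lit 11,nat_lit 1,nat_lit 11],
    [nat_lit 1,nat_lit 11,nat_lit 2,nat_lit 3],[nat_lit 1,nat_lit 11,nat_lit 11,nat_lit 0],[nat_lit 2,nat_lit 0,
    nat_lit 2,nat_lit 11],[nat_lit 2,nat_lit 1,nat_lit 5]],[[nat_lit 2,nat_lit 2,nat_lit 2,nat_lit 2],[nat_lit 2,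
    nat_lit 2,nat_lit 11,nat_lit 0],[nat_lit 2,nat_lit 3,nat_lit 1,nat_lit 11],[nat_lit 2,nat_lit 3,nat_lit 10,
    nat_lit 0],[nat_lit 2,nat_lit 4,nat_lit 0],[nat_lit 2,nat_lit 5,nat_lit 0],[nat_lit 2,nat_lit 6,nat_lit 8],
    [nat_lit 2,nat_lit 6,nat_lit 9],[nat_lit 2,nat_lit 7,nat_lit 9],[nat_lit 2,nat_lit 9,nat_lit 6],[nat_lit 2,
    nat_lit 9,nat_lit 7],[nat_lit 2,nat_lit 10,nat_lit 12]],[[nat_lit 2,nat_lit 11,nat_lit 0,nat_lit 2],[nat_lit 2,
    nat_lit 11,nat_lit 2,nat_lit 0],[nat_lit 2,nat_lit 11,nat_lit 12],[nat_lit 2,nat_lit 11,nat_lit 13],[nat_lit 2,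
    nat_lit 12,nat_lit 10],[nat_lit 2,nat_lit 12,nat_lit 11],[nat_lit 2,nat_lit 13,nat_lit 10],[nat_lit 2,nat_lit 13,
    nat_lit 11],[nat_lit 3,nat_lit 1,nat_lit 3,nat_lit 10],[nat_lit 3,nat_lit 1,nat_lit 4],[nat_lit 3,nat_lit 1,
    nat_lit 5],[nat_lit 3,nat_lit 1,nat_lit 10,nat_lit 3]],[[nat_lit 3,nat_lit 1,nat_lit 11,nat_lit 2],[nat_lit 3,
    nat_lit 3,nat_lit 1,nat_lit 10],[nat_lit 3,nat_lit 3,nat_lit 3,nat_lit 3],[nat_lit 3,nat_lit 4,nat_lit 0],
    [nat_lit 3,nat_lit 6,nat_lit 8],[nat_lit 3,nat_lit 7,nat_lit 8],[nat_lit 3,nat_lit 8,nat_lit 6],[nat_lit 3,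
    nat_lit 8,nat_lit 7],[nat_lit 3,nat_lit 9,nat_lit 7],[nat_lit 3,nat_lit 10,nat_lit 0,nat_lit 2],[nat_lit 3,
    nat_lit 10,nat_lit 3,nat_lit 1],[nat_lit 3,nat_lit 10,nat_lit 12]],[[nat_lit 3,nat_lit 10,nat_lit 13],[nat_lit 3,
    nat_lit 11,nat_lit 12],[nat_lit 3,nat_lit 11,nat_lit 13],[nat_lit 3,nat_lit 12,nat_lit 10],[nat_lit 3,nat_lit 13,
    nat_lit 10],[nat_lit 3,nat_lit 13,nat_lit 11],[nat_lit 4,nat_lit 0,nat_lit 2],[nat_lit 4,nat_lit 0,nat_lit 3],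
    [nat_lit 4,nat_lit 3,nat_lit 1],[nat_lit 4,nat_lit 8,nat_lit 10],[nat_lit 4,nat_lit 8,nat_lit 11],[nat_lit 4,
    nat_lit 9,nat_lit 10]],[[nat_lit 4,nat_lit 9,nat_lit 11],[nat_lit 4,nat_lit 10,nat_lit 8],[nat_lit 4,nat_lit 10,
    nat_lit 9],[nat_lit 4,nat_lit 11,nat_lit 8],[nat_lit 4,nat_lit 12],[nat_lit 4,nat_lit 13],[nat_lit 5,nat_lit 0,
    nat_lit 2],[nat_lit 5,nat_lit 2,nat_lit 1],[nat_lit 5,nat_lit 3,nat_lit 1],[nat_lit 5,nat_lit 8,nat_lit 11],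
    [nat_lit 5,nat_lit 9,nat_lit 10],[nat_lit 5,nat_lit 9,nat_lit 11]],[[nat_lit 5,nat_lit 10,nat_lit 8],[nat_lit 5,
    nat_lit 10,nat_lit 9],[nat_lit 5,nat_lit 11,nat_lit 8],[nat_lit 5,nat_lit 11,nat_lit 9],[nat_lit 5,nat_lit 12],
    [nat_lit 5,nat_lit 13],[nat_lit 6,nat_lit 0,nat_lit 0],[nat_lit 6,nat_lit 1,nat_lit 0],[nat_lit 6,nat_lit 1,
    nat_lit 1],[nat_lit 6,nat_lit 2,nat_lit 9],[nat_lit 6,nat_lit 3,nat_lit 8],[nat_lit 6,nat_lit 8,nat_lit 2]],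
    [[nat_lit 6,nat_lit 8,nat_lit 3],[nat_lit 6,nat_lit 9,nat_lit 2],[nat_lit 7,nat_lit 0,nat_lit 0],[nat_lit 7,
    nat_lit 1,nat_lit 0],[nat_lit 7,nat_lit 1,nat_lit 1],[nat_lit 7,nat_lit 2,nat_lit 9],[nat_lit 7,nat_lit 3,
    nat_lit 8],[nat_lit 7,nat_lit 3,nat_lit 9],[nat_lit 7,nat_lit 8,nat_lit 3],[nat_lit 7,nat_lit 9,nat_lit 2],
    [nat_lit 8,nat_lit 2,nat_lit 6],[nat_lit 8,nat_lit 3,nat_lit 6]],[[nat_lit 8,nat_lit 3,nat_lit 7],[nat_lit 8,
    nat_lit 4,nat_lit 10],[nat_lit 8,nat_lit 4,nat_lit 11],[nat_lit 8,nat_lit 5,nat_lit 10],[nat_lit 8,nat_lit 5,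
    nat_lit 11],[nat_lit 8,nat_lit 6,nat_lit 3],[nat_lit 8,nat_lit 7,nat_lit 3],[nat_lit 8,nat_lit 10,nat_lit 4],
    [nat_lit 8,nat_lit 11,nat_lit 4],[nat_lit 8,nat_lit 11,nat_lit 5],[nat_lit 9,nat_lit 2,nat_lit 6],[nat_lit 9,
    nat_lit 2,nat_lit 7]],[[nat_lit 9,nat_lit 4,nat_lit 10],[nat_lit 9,nat_lit 5,nat_lit 10],[nat_lit 9,nat_lit 5,
    nat_lit 11],[nat_lit 9,nat_lit 6,nat_lit 2],[nat_lit 9,nat_lit 7,nat_lit 2],[nat_lit 9,nat_lit 7,nat_lit 3],
    [nat_lit 9,nat_lit 10,nat_lit 4],[nat_lit 9,nat_lit 10,nat_lit 5],[nat_lit 9,nat_lit 11,nat_lit 4],[nat_lit 9,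
    nat_lit 11,nat_lit 5],[nat_lit 10,nat_lit 0,nat_lit 1,nat_lit 10],[nat_lit 10,nat_lit 0,nat_lit 2,nat_lit 3]],
    [[nat_lit 10,nat_lit 0,nat_lit 10,nat_lit 0],[nat_lit 10,nat_lit 1,nat_lit 10,nat_lit 1],[nat_lit 10,nat_lit 2,
    nat_lit 12],[nat_lit 10,nat_lit 2,nat_lit 13],[nat_lit 10,nat_lit 3,nat_lit 1,nat_lit 3],[nat_lit 10,nat_lit 3,
    nat_lit 3,nat_lit 1],[nat_lit 10,nat_lit 3,nat_lit 12],[nat_lit 10,nat_lit 3,nat_lit 13],[nat_lit 10,nat_lit 4,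
    nat_lit 8],[nat_lit 10,nat_lit 4,nat_lit 9],[nat_lit 10,nat_lit 5,nat_lit 9],[nat_lit 10,nat_lit 8,nat_lit 4]],
    [[nat_lit 10,nat_lit 8,nat_lit 5],[nat_lit 10,nat_lit 9,nat_lit 4],[nat_lit 10,nat_lit 9,nat_lit 5],[nat_lit 10,
    nat_lit 10,nat_lit 0,nat_lit 1],[nat_lit 10,nat_lit 11,nat_lit 0,nat_lit 1],[nat_lit 10,nat_lit 12,nat_lit 2],
    [nat_lit 10,nat_lit 12,nat_lit 3],[nat_lit 10,nat_lit 13,nat_lit 3],[nat_lit 11,nat_lit 0,nat_lit 1,nat_lit 10],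
    [nat_lit 11,nat_lit 0,nat_lit 1,nat_lit 11],[nat_lit 11,nat_lit 0,nat_lit 2,nat_lit 2],[nat_lit 11,nat_lit 0,
    nat_lit 11,nat_lit 0]],[[nat_lit 11,nat_lit 1,nat_lit 11,nat_lit 1],[nat_lit 11,nat_lit 2,nat_lit 0,nat_lit 2],
    [nat_lit 11,nat_lit 2,nat_lit 3,nat_lit 1],[nat_lit 11,nat_lit 2,nat_lit 12],[nat_lit 11,nat_lit 2,nat_lit 13],
    [nat_lit 11,nat_lit 3,nat_lit 13],[nat_lit 11,nat_lit 4,nat_lit 8],[nat_lit 11,nat_lit 4,nat_lit 9],[nat_lit 11,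
    nat_lit 5,nat_lit 8],[nat_lit 11,nat_lit 5,nat_lit 9],[nat_lit 11,nat_lit 8,nat_lit 4],[nat_lit 11,nat_lit 8,
    nat_lit 5]],[[nat_lit 11,nat_lit 9,nat_lit 5],[nat_lit 11,nat_lit 11,nat_lit 0,nat_lit 1],[nat_lit 11,nat_lit 12,
    nat_lit 2],[nat_lit 11,nat_lit 12,nat_lit 3],[nat_lit 11,nat_lit 13,nat_lit 2],[nat_lit 11,nat_lit 13,nat_lit 3],
    [nat_lit 12,nat_lit 2,nat_lit 10],[nat_lit 12,nat_lit 2,nat_lit 11],[nat_lit 12,nat_lit 3,nat_lit 10],[nat_lit 12,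
    nat_lit 3,nat_lit 11],[nat_lit 12,nat_lit 4],[nat_lit 12,nat_lit 5]],[[nat_lit 12,nat_lit 10,nat_lit 2],
    [nat_lit 12,nat_lit 10,nat_lit 3],[nat_lit 12,nat_lit 11,nat_lit 2],[nat_lit 13,nat_lit 2,nat_lit 11],[nat_lit 13,
    nat_lit 3,nat_lit 10],[nat_lit 13,nat_lit 3,nat_lit 11],[nat_lit 13,nat_lit 4],[nat_lit 13,nat_lit 5],[nat_lit 13,
    nat_lit 10,nat_lit 2],[nat_lit 13,nat_lit 10,nat_lit 3],[nat_lit 13,nat_lit 11,nat_lit 2],[nat_lit 13,nat_lit 11,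
    nat_lit 3]]]
    [[nat_lit 11,nat_lit 13,nat_lit 29,nat_lit 30,nat_lit 33,nat_lit 37,nat_lit 39,nat_lit 40,nat_lit 41,nat_lit 49,
    nat_lit 63,nat_lit 102],[nat_lit 103,nat_lit 110,nat_lit 111,nat_lit 144,nat_lit 167,nat_lit 12,nat_lit 14,
    nat_lit 25,nat_lit 26,nat_lit 70,nat_lit 80,nat_lit 91],[nat_lit 92,nat_lit 104,nat_lit 112,nat_lit 145,
    nat_lit 149,nat_lit 159,nat_lit 160,nat_lit 168,nat_lit 170,nat_lit 181,nat_lit 9,nat_lit 23],[nat_lit 36,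
    nat_lit 48,nat_lit 60,nat_lit 69,nat_lit 78,nat_lit 90,nat_lit 107,nat_lit 109,nat_lit 117,nat_lit 135,
    nat_lit 136,nat_lit 161],[nat_lit 166,nat_lit 169,nat_lit 182,nat_lit 184,nat_lit 192,nat_lit 194,nat_lit 200,
    nat_lit 202,nat_lit 21,nat_lit 22,nat_lit 24,nat_lit 28],[nat_lit 32,nat_lit 59,nat_lit 62,nat_lit 79,nat_lit 108,
    nat_lit 116,nat_lit 125,nat_lit 126,nat_lit 137,nat_lit 143,nat_lit 148,nat_lit 162],[nat_lit 163,nat_lit 183,
    nat_lit 185,nat_lit 193,nat_lit 201,nat_lit 203,nat_lit 7,nat_lit 10,nat_lit 57,nat_lit 127,nat_lit 128,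
    nat_lit 138],[nat_lit 140,nat_lit 155,nat_lit 157,nat_lit 178,nat_lit 190,nat_lit 198,nat_lit 8,nat_lit 35,
    nat_lit 58,nat_lit 129,nat_lit 139,nat_lit 141],[nat_lit 156,nat_lit 158,nat_lit 179,nat_lit 180,nat_lit 191,
    nat_lit 199,nat_lit 0,nat_lit 17,nat_lit 19,nat_lit 45,nat_lit 66,nat_lit 118],[nat_lit 119,nat_lit 130,nat_lit 1,
    nat_lit 18,nat_lit 20,nat_lit 46,nat_lit 67,nat_lit 68,nat_lit 120,nat_lit 131,nat_lit 42,nat_lit 64],[nat_lit 65,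
    nat_lit 85,nat_lit 87,nat_lit 96,nat_lit 98,nat_lit 106,nat_lit 114,nat_lit 152,nat_lit 174,nat_lit 176,
    nat_lit 43,nat_lit 44],[nat_lit 86,nat_lit 97,nat_lit 99,nat_lit 105,nat_lit 113,nat_lit 115,nat_lit 153,
    nat_lit 154,nat_lit 175,nat_lit 177,nat_lit 2,nat_lit 6],[nat_lit 15,nat_lit 27,nat_lit 52,nat_lit 54,nat_lit 56,
    nat_lit 61,nat_lit 75,nat_lit 76,nat_lit 81,nat_lit 83,nat_lit 94,nat_lit 121],[nat_lit 123,nat_lit 132,
    nat_lit 133,nat_lit 142,nat_lit 164,nat_lit 186,nat_lit 188,nat_lit 196,nat_lit 3,nat_lit 4,nat_lit 5,nat_lit 16],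
    [nat_lit 31,nat_lit 34,nat_lit 38,nat_lit 53,nat_lit 55,nat_lit 77,nat_lit 82,nat_lit 84,nat_lit 93,nat_lit 95,
    nat_lit 122,nat_lit 124],[nat_lit 134,nat_lit 165,nat_lit 187,nat_lit 189,nat_lit 195,nat_lit 197,nat_lit 47,
    nat_lit 50,nat_lit 71,nat_lit 73,nat_lit 88,nat_lit 100],[nat_lit 146,nat_lit 150,nat_lit 171,nat_lit 51,
    nat_lit 72,nat_lit 74,nat_lit 89,nat_lit 101,nat_lit 147,nat_lit 151,nat_lit 172,nat_lit 173]]
    [[nat_lit 102,nat_lit 110,nat_lit 142,nat_lit 164,nat_lit 165,nat_lit 166,nat_lit 143,nat_lit 78,nat_lit 90,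
    nat_lit 34,nat_lit 79,nat_lit 0],[nat_lit 17,nat_lit 1,nat_lit 18,nat_lit 144,nat_lit 167,nat_lit 103,nat_lit 111,
    nat_lit 104,nat_lit 112,nat_lit 56,nat_lit 57,nat_lit 35],[nat_lit 58,nat_lit 19,nat_lit 20,nat_lit 145,
    nat_lit 59,nat_lit 2,nat_lit 3,nat_lit 168,nat_lit 60,nat_lit 4,nat_lit 169,nat_lit 91],[nat_lit 36,nat_lit 5,
    nat_lit 170,nat_lit 6,nat_lit 7,nat_lit 8,nat_lit 118,nat_lit 130,nat_lit 131,nat_lit 105,nat_lit 113,
    nat_lit 186],[nat_lit 37,nat_lit 9,nat_lit 187,nat_lit 195,nat_lit 146,nat_lit 171,nat_lit 147,nat_lit 172,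
    nat_lit 148,nat_lit 80,nat_lit 92,nat_lit 61],[nat_lit 38,nat_lit 149,nat_lit 62,nat_lit 10,nat_lit 119,
    nat_lit 120,nat_lit 106,nat_lit 114,nat_lit 115,nat_lit 39,nat_lit 21,nat_lit 188],[nat_lit 196,nat_lit 189,
    nat_lit 197,nat_lit 150,nat_lit 151,nat_lit 173,nat_lit 40,nat_lit 63,nat_lit 22,nat_lit 152,nat_lit 174,
    nat_lit 153],[nat_lit 175,nat_lit 121,nat_lit 132,nat_lit 122,nat_lit 190,nat_lit 198,nat_lit 41,nat_lit 23,
    nat_lit 24,nat_lit 176,nat_lit 154,nat_lit 177],[nat_lit 123,nat_lit 133,nat_lit 124,nat_lit 134,nat_lit 191,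
    nat_lit 199,nat_lit 11,nat_lit 12,nat_lit 25,nat_lit 135,nat_lit 125,nat_lit 42],[nat_lit 64,nat_lit 43,
    nat_lit 13,nat_lit 14,nat_lit 26,nat_lit 136,nat_lit 126,nat_lit 137,nat_lit 65,nat_lit 44,nat_lit 107,
    nat_lit 108],[nat_lit 116,nat_lit 155,nat_lit 178,nat_lit 156,nat_lit 179,nat_lit 66,nat_lit 67,nat_lit 81,
    nat_lit 82,nat_lit 93,nat_lit 109,nat_lit 117],[nat_lit 157,nat_lit 158,nat_lit 180,nat_lit 45,nat_lit 46,
    nat_lit 68,nat_lit 83,nat_lit 94,nat_lit 84,nat_lit 95,nat_lit 159,nat_lit 69],[nat_lit 15,nat_lit 27,nat_lit 192,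
    nat_lit 200,nat_lit 70,nat_lit 28,nat_lit 193,nat_lit 201,nat_lit 127,nat_lit 138,nat_lit 139,nat_lit 85],
    [nat_lit 96,nat_lit 86,nat_lit 97,nat_lit 29,nat_lit 30,nat_lit 47,nat_lit 71,nat_lit 72,nat_lit 160,nat_lit 181,
    nat_lit 48,nat_lit 16],[nat_lit 31,nat_lit 49,nat_lit 32,nat_lit 194,nat_lit 202,nat_lit 203,nat_lit 128,
    nat_lit 140,nat_lit 129,nat_lit 141,nat_lit 87,nat_lit 98],[nat_lit 99,nat_lit 33,nat_lit 50,nat_lit 73,
    nat_lit 51,nat_lit 74,nat_lit 161,nat_lit 182,nat_lit 162,nat_lit 183,nat_lit 88,nat_lit 100],[nat_lit 52,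
    nat_lit 75,nat_lit 53,nat_lit 184,nat_lit 163,nat_lit 185,nat_lit 89,nat_lit 101,nat_lit 54,nat_lit 76,nat_lit 55,
    nat_lit 77]]
    [[[nat_lit 192,nat_lit 194],[nat_lit 192,nat_lit 194],[],[],[],[nat_lit 190],[nat_lit 190],[nat_lit 190],
    [nat_lit 190],[nat_lit 190],[],[]],[[],[nat_lit 191],[nat_lit 191],[],[],[nat_lit 60,nat_lit 69],[nat_lit 60,
    nat_lit 69],[nat_lit 72,nat_lit 74],[nat_lit 72,nat_lit 74],[nat_lit 70],[nat_lit 66],[nat_lit 59,nat_lit 62]],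
    [[nat_lit 59,nat_lit 62],[nat_lit 64,nat_lit 65],[nat_lit 58],[nat_lit 71,nat_lit 73],[nat_lit 71,nat_lit 73],
    [nat_lit 71,nat_lit 73],[nat_lit 71,nat_lit 73],[],[],[],[nat_lit 9],[]],[[nat_lit 7,nat_lit 10],[nat_lit 7,
    nat_lit 10],[nat_lit 12,nat_lit 14],[nat_lit 12,nat_lit 14],[nat_lit 0],[],[],[],[nat_lit 8],[nat_lit 1],
    [nat_lit 1],[]],[[],[],[],[],[nat_lit 11,nat_lit 13],[nat_lit 11,nat_lit 13],[nat_lit 3,nat_lit 4,nat_lit 5,
    nat_lit 16],[nat_lit 3,nat_lit 4,nat_lit 5,nat_lit 16],[nat_lit 101],[nat_lit 101],[nat_lit 101],[nat_lit 101]],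
    [[nat_lit 101],[nat_lit 91,nat_lit 92],[nat_lit 91,nat_lit 92],[],[nat_lit 96,nat_lit 98],[],[nat_lit 94],
    [nat_lit 94],[],[nat_lit 100],[nat_lit 100],[nat_lit 100]],[[nat_lit 100],[nat_lit 97,nat_lit 99],[nat_lit 97,
    nat_lit 99],[],[nat_lit 93,nat_lit 95],[nat_lit 93,nat_lit 95],[nat_lit 36,nat_lit 48],[nat_lit 36,nat_lit 48],[],
    [nat_lit 52,nat_lit 54],[nat_lit 52,nat_lit 54],[nat_lit 46]],[[nat_lit 46],[nat_lit 47,nat_lit 50],[nat_lit 47,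
    nat_lit 50],[nat_lit 43,nat_lit 44],[nat_lit 37,nat_lit 39,nat_lit 40,nat_lit 41,nat_lit 49],[nat_lit 34,
    nat_lit 38,nat_lit 53,nat_lit 55],[nat_lit 117],[],[nat_lit 112],[],[],[]],[[],[],[nat_lit 113,nat_lit 115],
    [nat_lit 113,nat_lit 115],[nat_lit 110,nat_lit 111],[],[nat_lit 78],[nat_lit 89],[nat_lit 89],[],[nat_lit 80],
    [nat_lit 81,nat_lit 83]],[[nat_lit 81,nat_lit 83],[],[nat_lit 135,nat_lit 136],[],[],[nat_lit 138,nat_lit 140],[],
    [],[nat_lit 132,nat_lit 133],[nat_lit 131],[],[nat_lit 104]],[[nat_lit 104],[],[],[nat_lit 108],[nat_lit 108],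
    [nat_lit 106],[],[],[nat_lit 105],[nat_lit 105],[nat_lit 178],[nat_lit 178]],[[],[nat_lit 183,nat_lit 185],
    [nat_lit 183,nat_lit 185],[nat_lit 174,nat_lit 176],[nat_lit 179,nat_lit 180],[nat_lit 179,nat_lit 180],
    [nat_lit 171],[nat_lit 171],[nat_lit 175,nat_lit 177],[nat_lit 175,nat_lit 177],[],[]],[[],[],[nat_lit 127,
    nat_lit 128],[nat_lit 127,nat_lit 128],[],[],[],[],[nat_lit 118,nat_lit 119],[nat_lit 118,nat_lit 119],
    [nat_lit 125,nat_lit 126],[nat_lit 121,nat_lit 123]],[[nat_lit 121,nat_lit 123],[nat_lit 120],[nat_lit 120],[],[],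
    [],[],[nat_lit 122,nat_lit 124],[nat_lit 200,nat_lit 202],[nat_lit 200,nat_lit 202],[nat_lit 200,nat_lit 202],
    [nat_lit 200,nat_lit 202]],[[],[nat_lit 198],[nat_lit 198],[nat_lit 198],[nat_lit 198],[],[],[],[nat_lit 201,
    nat_lit 203],[nat_lit 201,nat_lit 203],[nat_lit 196],[nat_lit 196]],[[],[],[],[],[nat_lit 195,nat_lit 197],
    [nat_lit 195,nat_lit 197],[nat_lit 155,nat_lit 157],[nat_lit 155,nat_lit 157],[nat_lit 145,nat_lit 149,
    nat_lit 159,nat_lit 160],[nat_lit 145,nat_lit 149,nat_lit 159,nat_lit 160],[],[nat_lit 143,nat_lit 148,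
    nat_lit 162,nat_lit 163]],[[nat_lit 146,nat_lit 150],[nat_lit 146,nat_lit 150],[nat_lit 153,nat_lit 154],[],
    [nat_lit 25,nat_lit 26],[nat_lit 25,nat_lit 26],[nat_lit 17,nat_lit 19],[nat_lit 21,nat_lit 22,nat_lit 24,
    nat_lit 28,nat_lit 32],[],[],[],[]]]
    (nat_lit 204) [nat_lit 0,nat_lit 1,nat_lit 2,nat_lit 3,nat_lit 4,nat_lit 5,nat_lit 6,nat_lit 7,nat_lit 8,
    nat_lit 9,nat_lit 10,nat_lit 11,nat_lit 12,nat_lit 13,nat_lit 14,nat_lit 15,nat_lit 16,nat_lit 19,nat_lit 20,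
    nat_lit 21,nat_lit 22,nat_lit 23,nat_lit 24,nat_lit 25,nat_lit 26,nat_lit 27,nat_lit 28,nat_lit 31,nat_lit 32,
    nat_lit 36,nat_lit 42,nat_lit 43,nat_lit 44,nat_lit 45,nat_lit 46,nat_lit 47,nat_lit 50,nat_lit 51,nat_lit 52,
    nat_lit 53,nat_lit 54,nat_lit 55,nat_lit 62,nat_lit 64,nat_lit 65,nat_lit 66,nat_lit 67,nat_lit 68,nat_lit 71,
    nat_lit 72,nat_lit 73,nat_lit 74,nat_lit 75,nat_lit 76,nat_lit 77,nat_lit 81,nat_lit 82,nat_lit 83,nat_lit 84,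
    nat_lit 85,nat_lit 86,nat_lit 87,nat_lit 88,nat_lit 89,nat_lit 93,nat_lit 94,nat_lit 95,nat_lit 96,nat_lit 97,
    nat_lit 98,nat_lit 99,nat_lit 100,nat_lit 101]
    [[[nat_lit 11,nat_lit 13],[nat_lit 12,nat_lit 14],[nat_lit 9],[],[nat_lit 7,nat_lit 10],[nat_lit 8],[nat_lit 0],
    [nat_lit 1],[],[],[nat_lit 2,nat_lit 6,nat_lit 15],[nat_lit 3,nat_lit 4,nat_lit 5,nat_lit 16],[],[]],[[nat_lit 29,
    nat_lit 30,nat_lit 33],[nat_lit 25,nat_lit 26],[nat_lit 23],[nat_lit 21,nat_lit 22,nat_lit 24,nat_lit 28,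
    nat_lit 32],[],[],[nat_lit 17,nat_lit 19],[nat_lit 18,nat_lit 20],[],[],[nat_lit 27],[nat_lit 31],[],[]],
    [[nat_lit 37,nat_lit 39,nat_lit 40,nat_lit 41,nat_lit 49],[],[nat_lit 36,nat_lit 48],[],[],[nat_lit 35],
    [nat_lit 45],[nat_lit 46],[nat_lit 42],[nat_lit 43,nat_lit 44],[nat_lit 52,nat_lit 54],[nat_lit 34,nat_lit 38,
    nat_lit 53,nat_lit 55],[nat_lit 47,nat_lit 50],[nat_lit 51]],[[nat_lit 63],[nat_lit 70],[nat_lit 60,nat_lit 69],
    [nat_lit 59,nat_lit 62],[nat_lit 57],[nat_lit 58],[nat_lit 66],[nat_lit 67,nat_lit 68],[nat_lit 64,nat_lit 65],[],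
    [nat_lit 56,nat_lit 61,nat_lit 75,nat_lit 76],[nat_lit 77],[nat_lit 71,nat_lit 73],[nat_lit 72,nat_lit 74]],[[],
    [nat_lit 80],[nat_lit 78],[nat_lit 79],[],[],[],[],[nat_lit 85,nat_lit 87],[nat_lit 86],[nat_lit 81,nat_lit 83],
    [nat_lit 82,nat_lit 84],[nat_lit 88],[nat_lit 89]],[[],[nat_lit 91,nat_lit 92],[nat_lit 90],[],[],[],[],[],
    [nat_lit 96,nat_lit 98],[nat_lit 97,nat_lit 99],[nat_lit 94],[nat_lit 93,nat_lit 95],[nat_lit 100],[nat_lit 101]],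
    [[nat_lit 102,nat_lit 103],[nat_lit 104],[nat_lit 107,nat_lit 109],[nat_lit 108],[],[],[],[],[nat_lit 106],
    [nat_lit 105],[],[],[],[]],[[nat_lit 110,nat_lit 111],[nat_lit 112],[nat_lit 117],[nat_lit 116],[],[],[],[],
    [nat_lit 114],[nat_lit 113,nat_lit 115],[],[],[],[]],[[],[],[],[nat_lit 125,nat_lit 126],[nat_lit 127,
    nat_lit 128],[nat_lit 129],[nat_lit 118,nat_lit 119],[nat_lit 120],[],[],[nat_lit 121,nat_lit 123],[nat_lit 122,
    nat_lit 124],[],[]],[[],[],[nat_lit 135,nat_lit 136],[nat_lit 137],[nat_lit 138,nat_lit 140],[nat_lit 139,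
    nat_lit 141],[nat_lit 130],[nat_lit 131],[],[],[nat_lit 132,nat_lit 133],[nat_lit 134],[],[]],[[nat_lit 144],
    [nat_lit 145,nat_lit 149,nat_lit 159,nat_lit 160],[nat_lit 161],[nat_lit 143,nat_lit 148,nat_lit 162,nat_lit 163],
    [nat_lit 155,nat_lit 157],[nat_lit 156,nat_lit 158],[],[],[nat_lit 152],[nat_lit 153,nat_lit 154],[nat_lit 142],
    [],[nat_lit 146,nat_lit 150],[nat_lit 147,nat_lit 151]],[[nat_lit 167],[nat_lit 168,nat_lit 170,nat_lit 181],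
    [nat_lit 166,nat_lit 169,nat_lit 182,nat_lit 184],[nat_lit 183,nat_lit 185],[nat_lit 178],[nat_lit 179,
    nat_lit 180],[],[],[nat_lit 174,nat_lit 176],[nat_lit 175,nat_lit 177],[nat_lit 164],[nat_lit 165],[nat_lit 171],
    [nat_lit 172,nat_lit 173]],[[],[],[nat_lit 192,nat_lit 194],[nat_lit 193],[nat_lit 190],[nat_lit 191],[],[],[],[],
    [nat_lit 186,nat_lit 188],[nat_lit 187,nat_lit 189],[],[]],[[],[],[nat_lit 200,nat_lit 202],[nat_lit 201,
    nat_lit 203],[nat_lit 198],[nat_lit 199],[],[],[],[],[nat_lit 196],[nat_lit 195,nat_lit 197],[],[]]]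
    [[[nat_lit 0x5000000000000000000000000000000000000000000000000,
    nat_lit 0x5000000000000000000000000000000000000000000000000,nat_lit 0,nat_lit 0,nat_lit 0,
    nat_lit 0x400000000000000000000000000000000000000000000000,
    nat_lit 0x400000000000000000000000000000000000000000000000,
    nat_lit 0x400000000000000000000000000000000000000000000000,
    nat_lit 0x400000000000000000000000000000000000000000000000],
    [nat_lit 0x400000000000000000000000000000000000000000000000,nat_lit 0,nat_lit 0,nat_lit 0,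
    nat_lit 0x800000000000000000000000000000000000000000000000,
    nat_lit 0x800000000000000000000000000000000000000000000000,nat_lit 0,nat_lit 0,nat_lit 0x201000000000000000],
    [nat_lit 0x201000000000000000,nat_lit 0x5000000000000000000,nat_lit 0x5000000000000000000,
    nat_lit 0x400000000000000000,nat_lit 0x40000000000000000,nat_lit 0x4800000000000000,nat_lit 0x4800000000000000,
    nat_lit 0x30000000000000000,nat_lit 0x400000000000000],[nat_lit 0x2800000000000000000,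
    nat_lit 0x2800000000000000000,nat_lit 0x2800000000000000000,nat_lit 0x2800000000000000000,nat_lit 0,nat_lit 0,
    nat_lit 0,nat_lit 512,nat_lit 0],[nat_lit 0x480,nat_lit 0x480,nat_lit 0x5000,nat_lit 0x5000,nat_lit 1,nat_lit 0,
    nat_lit 0,nat_lit 0,nat_lit 256],[nat_lit 2,nat_lit 2,nat_lit 0,nat_lit 0,nat_lit 0,nat_lit 0,nat_lit 0,
    nat_lit 0x2800,nat_lit 0x2800],[nat_lit 0x10038,nat_lit 0x10038,nat_lit 0x20000000000000000000000000,
    nat_lit 0x20000000000000000000000000,nat_lit 0x20000000000000000000000000,nat_lit 0x20000000000000000000000000,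
    nat_lit 0x20000000000000000000000000,nat_lit 0x180000000000000000000000,nat_lit 0x180000000000000000000000],
    [nat_lit 0,nat_lit 0x5000000000000000000000000,nat_lit 0,nat_lit 0x400000000000000000000000,
    nat_lit 0x400000000000000000000000,nat_lit 0,nat_lit 0x10000000000000000000000000,
    nat_lit 0x10000000000000000000000000,nat_lit 0x10000000000000000000000000],[nat_lit 0x10000000000000000000000000,
    nat_lit 0xa000000000000000000000000,nat_lit 0xa000000000000000000000000,nat_lit 0,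
    nat_lit 0xa00000000000000000000000,nat_lit 0xa00000000000000000000000,nat_lit 0x1001000000000,
    nat_lit 0x1001000000000,nat_lit 0]],[[nat_lit 0x50000000000000,nat_lit 0x50000000000000,nat_lit 0x400000000000,
    nat_lit 0x400000000000,nat_lit 0x4800000000000,nat_lit 0x4800000000000,nat_lit 0x180000000000,
    nat_lit 0x203a000000000,nat_lit 0xa0004400000000],[nat_lit 0x200000000000000000000000000000,nat_lit 0,
    nat_lit 0x10000000000000000000000000000,nat_lit 0,nat_lit 0,nat_lit 0,nat_lit 0,nat_lit 0,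
    nat_lit 0xa0000000000000000000000000000],[nat_lit 0xa0000000000000000000000000000,
    nat_lit 0xc000000000000000000000000000,nat_lit 0,nat_lit 0x40000000000000000000,nat_lit 0x20000000000000000000000,
    nat_lit 0x20000000000000000000000,nat_lit 0,nat_lit 0x100000000000000000000,nat_lit 0xa00000000000000000000],
    [nat_lit 0xa00000000000000000000,nat_lit 0,nat_lit 0x18000000000000000000000000000000000,nat_lit 0,nat_lit 0,
    nat_lit 0x140000000000000000000000000000000000,nat_lit 0,nat_lit 0,nat_lit 0x3000000000000000000000000000000000],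
    [nat_lit 0x800000000000000000000000000000000,nat_lit 0,nat_lit 0x100000000000000000000000000,
    nat_lit 0x100000000000000000000000000,nat_lit 0,nat_lit 0,nat_lit 0x1000000000000000000000000000,
    nat_lit 0x1000000000000000000000000000,nat_lit 0x400000000000000000000000000],[nat_lit 0,nat_lit 0,
    nat_lit 0x200000000000000000000000000,nat_lit 0x200000000000000000000000000,
    nat_lit 0x400000000000000000000000000000000000000000000,nat_lit 0x400000000000000000000000000000000000000000000,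
    nat_lit 0,nat_lit 0x28000000000000000000000000000000000000000000000,
    nat_lit 0x28000000000000000000000000000000000000000000000],
    [nat_lit 0x140000000000000000000000000000000000000000000,nat_lit 0x1800000000000000000000000000000000000000000000,
    nat_lit 0x1800000000000000000000000000000000000000000000,nat_lit 0x8000000000000000000000000000000000000000000,
    nat_lit 0x8000000000000000000000000000000000000000000,nat_lit 0x280000000000000000000000000000000000000000000,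
    nat_lit 0x280000000000000000000000000000000000000000000,nat_lit 0,nat_lit 0],[nat_lit 0,nat_lit 0,
    nat_lit 0x180000000000000000000000000000000,nat_lit 0x180000000000000000000000000000000,nat_lit 0,nat_lit 0,
    nat_lit 0,nat_lit 0,nat_lit 0xc00000000000000000000000000000],[nat_lit 0xc00000000000000000000000000000,
    nat_lit 0x60000000000000000000000000000000,nat_lit 0xa000000000000000000000000000000,
    nat_lit 0xa000000000000000000000000000000,nat_lit 0x1000000000000000000000000000000,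
    nat_lit 0x1000000000000000000000000000000,nat_lit 0,nat_lit 0,nat_lit 0]],[[nat_lit 0,
    nat_lit 0x14000000000000000000000000000000,nat_lit 0x500000000000000000000000000000000000000000000000000,
    nat_lit 0x500000000000000000000000000000000000000000000000000,
    nat_lit 0x500000000000000000000000000000000000000000000000000,
    nat_lit 0x500000000000000000000000000000000000000000000000000,nat_lit 0,
    nat_lit 0x40000000000000000000000000000000000000000000000000,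
    nat_lit 0x40000000000000000000000000000000000000000000000000],
    [nat_lit 0x40000000000000000000000000000000000000000000000000,
    nat_lit 0x40000000000000000000000000000000000000000000000000,nat_lit 0,nat_lit 0,nat_lit 0,
    nat_lit 0xa00000000000000000000000000000000000000000000000000,
    nat_lit 0xa00000000000000000000000000000000000000000000000000,
    nat_lit 0x10000000000000000000000000000000000000000000000000,
    nat_lit 0x10000000000000000000000000000000000000000000000000],[nat_lit 0,nat_lit 0,nat_lit 0,nat_lit 0,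
    nat_lit 0x28000000000000000000000000000000000000000000000000,
    nat_lit 0x28000000000000000000000000000000000000000000000000,nat_lit 0x2800000000000000000000000000000000000000,
    nat_lit 0x2800000000000000000000000000000000000000,nat_lit 0x18022000000000000000000000000000000000000],
    [nat_lit 0x18022000000000000000000000000000000000000,nat_lit 0,
    nat_lit 0xc0010800000000000000000000000000000000000,nat_lit 0x44000000000000000000000000000000000000,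
    nat_lit 0x44000000000000000000000000000000000000,nat_lit 0x600000000000000000000000000000000000000,nat_lit 0,
    nat_lit 0x6000000,nat_lit 0x6000000],[nat_lit 0xa0000,nat_lit 0x111600000,nat_lit 0,nat_lit 0,nat_lit 0,
    nat_lit 0]]]
    [[[[nat_lit 0,nat_lit 0x1000000000000000000000000000000000000000000000000,nat_lit 0,nat_lit 0,nat_lit 0,nat_lit 0,
    nat_lit 0,nat_lit 0,nat_lit 0],[nat_lit 0,nat_lit 0,nat_lit 0,nat_lit 0,nat_lit 0,nat_lit 0,nat_lit 0,nat_lit 0,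
    nat_lit 0],[nat_lit 0,nat_lit 0,nat_lit 0,nat_lit 0,nat_lit 0,nat_lit 0,nat_lit 0,nat_lit 0,nat_lit 0],[nat_lit 0,
    nat_lit 0,nat_lit 0,nat_lit 0,nat_lit 0,nat_lit 0,nat_lit 0,nat_lit 0,nat_lit 0],[nat_lit 0,nat_lit 0,nat_lit 0,
    nat_lit 0,nat_lit 0,nat_lit 0,nat_lit 0,nat_lit 0,nat_lit 0],[nat_lit 0,nat_lit 0,nat_lit 0,nat_lit 0,nat_lit 0,
    nat_lit 0,nat_lit 0,nat_lit 0,nat_lit 0],[nat_lit 0,nat_lit 0,nat_lit 0,nat_lit 0,nat_lit 0,nat_lit 0,nat_lit 0,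
    nat_lit 0,nat_lit 0],[nat_lit 0,nat_lit 0x4000000000000000000000000,nat_lit 0,nat_lit 0,nat_lit 0,nat_lit 0,
    nat_lit 0,nat_lit 0,nat_lit 0],[nat_lit 0x10000000000000000000000000,nat_lit 0,nat_lit 0,nat_lit 0,nat_lit 0,
    nat_lit 0,nat_lit 0,nat_lit 0,nat_lit 0]],[[nat_lit 0,nat_lit 0,nat_lit 0x400000000000,nat_lit 0,nat_lit 0,
    nat_lit 0,nat_lit 0,nat_lit 0,nat_lit 0x20000000000000],[nat_lit 0,nat_lit 0,nat_lit 0,nat_lit 0,nat_lit 0,
    nat_lit 0,nat_lit 0,nat_lit 0,nat_lit 0],[nat_lit 0,nat_lit 0x4000000000000000000000000000,nat_lit 0,nat_lit 0,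
    nat_lit 0,nat_lit 0x20000000000000000000000,nat_lit 0,nat_lit 0,nat_lit 0],[nat_lit 0,nat_lit 0,nat_lit 0,
    nat_lit 0,nat_lit 0,nat_lit 0,nat_lit 0,nat_lit 0,nat_lit 0],[nat_lit 0,nat_lit 0,nat_lit 0,nat_lit 0,nat_lit 0,
    nat_lit 0,nat_lit 0,nat_lit 0,nat_lit 0],[nat_lit 0,nat_lit 0,nat_lit 0,nat_lit 0,nat_lit 0,nat_lit 0,nat_lit 0,
    nat_lit 0,nat_lit 0x20000000000000000000000000000000000000000000000],[nat_lit 0,
    nat_lit 0x1000000000000000000000000000000000000000000000,nat_lit 0,nat_lit 0,nat_lit 0,nat_lit 0,nat_lit 0,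
    nat_lit 0,nat_lit 0],[nat_lit 0,nat_lit 0,nat_lit 0x80000000000000000000000000000000,nat_lit 0,nat_lit 0,
    nat_lit 0,nat_lit 0,nat_lit 0,nat_lit 0x800000000000000000000000000000],[nat_lit 0,nat_lit 0,nat_lit 0,nat_lit 0,
    nat_lit 0,nat_lit 0,nat_lit 0,nat_lit 0,nat_lit 0]],[[nat_lit 0,nat_lit 0,nat_lit 0,nat_lit 0,nat_lit 0,nat_lit 0,
    nat_lit 0,nat_lit 0,nat_lit 0],[nat_lit 0,nat_lit 0,nat_lit 0,nat_lit 0,nat_lit 0,nat_lit 0,nat_lit 0,nat_lit 0,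
    nat_lit 0x10000000000000000000000000000000000000000000000000],[nat_lit 0,nat_lit 0,nat_lit 0,nat_lit 0,nat_lit 0,
    nat_lit 0,nat_lit 0,nat_lit 0,nat_lit 0],[nat_lit 0,nat_lit 0,nat_lit 0,nat_lit 0,nat_lit 0,
    nat_lit 0x200000000000000000000000000000000000000,nat_lit 0,nat_lit 0,nat_lit 0x2000000],[nat_lit 0,nat_lit 0,
    nat_lit 0,nat_lit 0,nat_lit 0,nat_lit 0]]]]
    (nat_lit 1) (nat_lit 6) (nat_lit 48)
    [[nat_lit 2,nat_lit 18,nat_lit 0x100002,nat_lit 17,nat_lit 33,nat_lit 0x1011,nat_lit 0x100011,nat_lit 257,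
    nat_lit 0x100101,nat_lit 0x1001,nat_lit 0x101001,nat_lit 0x1101,nat_lit 0x11001,nat_lit 0x1001001,nat_lit 0x10001,
    nat_lit 0x110001,nat_lit 0x100001,nat_lit 0x200001,nat_lit 0x1100001,nat_lit 0x200011,nat_lit 0x1000001],
    [nat_lit 32,nat_lit 48,nat_lit 288,nat_lit 0x1020,nat_lit 0x10020,nat_lit 0x100020,nat_lit 272,nat_lit 0x10110,
    nat_lit 0x100110,nat_lit 0x1010,nat_lit 0x101010,nat_lit 0x10010,nat_lit 0x20010,nat_lit 0x110010,
    nat_lit 0x100010,nat_lit 0x200010,nat_lit 0x200020,nat_lit 0x1000010],[nat_lit 512,nat_lit 0x1100,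
    nat_lit 0x101100,nat_lit 0x10100,nat_lit 0x20100,nat_lit 0x100100,nat_lit 0x200100],[nat_lit 0x2000,
    nat_lit 0x102000,nat_lit 0x11000,nat_lit 0x21000,nat_lit 0x111000,nat_lit 0x101000,nat_lit 0x201000,
    nat_lit 0x1101000,nat_lit 0x1001000],[nat_lit 0x20000,nat_lit 0x30000,nat_lit 0x40000,nat_lit 0x120000,
    nat_lit 0x1020000,nat_lit 0x110000,nat_lit 0x210000,nat_lit 0x1110000,nat_lit 0x1010000],[nat_lit 0x200000,
    nat_lit 0x300000,nat_lit 0x1200000,nat_lit 0x1100000],[nat_lit 0x2000000]]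
    [.c (nat_lit 1) (nat_lit 2),.c (nat_lit 5) (nat_lit 0x80028c04),.c (nat_lit 1) (nat_lit 0x884008a4),
    .c (nat_lit 0) (nat_lit 0x410805),.c (nat_lit 1) (nat_lit 0xc02),.c (nat_lit 3) (nat_lit 0xa418c04),
    .c (nat_lit 0) (nat_lit 0xca500085),.c (nat_lit 0) (nat_lit 0x410005),.c (nat_lit 3) (nat_lit 0x884008a4),
    .c (nat_lit 6) (nat_lit 0xd2528c84),.c (nat_lit 3) (nat_lit 0x80c008a4),.c (nat_lit 5) (nat_lit 0x88410005),
    .c (nat_lit 3) (nat_lit 0x88410005),.c (nat_lit 0) (nat_lit 0xa018004),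
    .r (nat_lit 0x1c82) (nat_lit 8) [nat_lit 0x4000001,nat_lit 65],.c (nat_lit 5) (nat_lit 0x884008a4),
    .c (nat_lit 0) (nat_lit 0xca500c85),.c (nat_lit 6) (nat_lit 0x884008a4),.c (nat_lit 3) (nat_lit 0xca000c85),
    .c (nat_lit 3) (nat_lit 0x110c10924),.c (nat_lit 5) (nat_lit 0x80018004),.c (nat_lit 2) (nat_lit 2),
    .c (nat_lit 0) (nat_lit 0x1805),.c (nat_lit 3) (nat_lit 0xc02),.c (nat_lit 3) (nat_lit 0x6400c02),
    .c (nat_lit 5) (nat_lit 0xc02),.c (nat_lit 6) (nat_lit 0xc02),.c (nat_lit 6) (nat_lit 0xca919484),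
    .c (nat_lit 3) (nat_lit 0x80800805),.c (nat_lit 3) (nat_lit 0x888100a4),.c (nat_lit 0) (nat_lit 0x88000805),
    .c (nat_lit 3) (nat_lit 0x810100a4),.c (nat_lit 1) (nat_lit 0xc0020c04),
    .r (nat_lit 0x1916) (nat_lit 8) [nat_lit 0x80200001,nat_lit 65,nat_lit 0x1008300061,nat_lit 0x14a501061],
    .c (nat_lit 1) (nat_lit 0x4210062),.c (nat_lit 0) (nat_lit 0xca500085),.c (nat_lit 0) (nat_lit 0xd2928d05),
    .c (nat_lit 3) (nat_lit 0x888100a2),.c (nat_lit 1) (nat_lit 0x10c04),.c (nat_lit 3) (nat_lit 2),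
    .c (nat_lit 3) (nat_lit 0x6400002),.r (nat_lit 0x1916) (nat_lit 8) [nat_lit 0x80200001,nat_lit 0x10003010a2,
    nat_lit 0x1010301482,nat_lit 0x1a52701082],.c (nat_lit 1) (nat_lit 0xc0510004),
    .c (nat_lit 3) (nat_lit 0x80800003),.c (nat_lit 0) (nat_lit 0xa018c85),.c (nat_lit 3) (nat_lit 0x888108a2),
    .c (nat_lit 4) (nat_lit 2),.r (nat_lit 449) (nat_lit 0) [nat_lit 0x2b5252a041,nat_lit 0x14000001,
    nat_lit 0x190a8190a2,nat_lit 0x19323410a2,nat_lit 0x1188211481],.c (nat_lit 0) (nat_lit 0x88000005),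
    .c (nat_lit 3) (nat_lit 0x84400003),.c (nat_lit 3) (nat_lit 0x8108a4),
    .r (nat_lit 0x174b) (nat_lit 3) [nat_lit 0x4000001,nat_lit 65,nat_lit 0x194a011002],
    .c (nat_lit 3) (nat_lit 0x84c108a2),.c (nat_lit 5) (nat_lit 0x518c85),.c (nat_lit 3) (nat_lit 0x6200002),
    .c (nat_lit 5) (nat_lit 2),.r (nat_lit 0xce7) (nat_lit 5) [nat_lit 65,nat_lit 0x31800000a1,nat_lit 0xc000001,
    nat_lit 0x3800030082,nat_lit 0x3800600082],.c (nat_lit 3) (nat_lit 0x101000003),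
    .r (nat_lit 0x1cdb) (nat_lit 2) [nat_lit 0x318002,nat_lit 0x84210c41],.c (nat_lit 3) (nat_lit 0x80a00003),
    .c (nat_lit 0) (nat_lit 0xd2929509),.c (nat_lit 0) (nat_lit 0xd2929505),.c (nat_lit 3) (nat_lit 0xa418c85),
    .r (nat_lit 0x1cdb) (nat_lit 2) [nat_lit 0x318002,nat_lit 0x210082],.c (nat_lit 6) (nat_lit 2),
    .r (nat_lit 0x174b) (nat_lit 3) [nat_lit 0x4000001,nat_lit 0x1188211441,nat_lit 0x194a011002],
    .c (nat_lit 3) (nat_lit 0x886108a2),.c (nat_lit 0) (nat_lit 0xca518c85),.c (nat_lit 7) (nat_lit 2)]]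

end Pool.Agent.Lib_MP_fa6e45
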