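import Pool.Agent.Lib_MP_fa6e45.DQ7k_0d
import Pool.Agent.Lib_MP_fa6e45.RD7k_24

/-!
MP_fa6e45_co, stage 9: straight-side patterns with `7` sides, part of a certificate (generated by a program).
-/

namespace Pool.Agent.Lib_MP_fa6e45

theorem cD7k_0_k24_0 : allI cD7k_0_c (rjL dJ cD7k_0_q rD7k_24_0) 7319 = true := by
  decide +kernel

theorem cD7k_0_k24_1 : allI cD7k_0_c (rjL dJ cD7k_0_q rD7k_24_1) 7321 = true := by
  decide +kernel

theorem cD7k_0_k24_2 : allI cD7k_0_c (rjL dJ cD7k_0_q rD7k_24_2) 7324 = true := by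
  decide +kernel

theorem cD7k_0_k24_3 : allI cD7k_0_c (rjL dJ cD7k_0_q rD7k_24_3) 7327 = true := by
  decide +kernel

theorem cD7k_0_k24_4 : allI cD7k_0_c (rjL dJ cD7k_0_q rD7k_24_4) 7329 = true := by
  decide +kernel

theorem cD7k_0_k24_5 : allI cD7k_0_c (rjL dJ cD7k_0_q rD7k_24_5) 7330 = true := by
  decide +kernel

theorem cD7k_0_k24_6 : allI cD7k_0_c (rjL dJ cD7k_0_q rD7k_24_6) 7333 = true := by
  decide +kernel

theorem cD7k_0_k24_7 : allI cD7k_0_c (rjL dJ cD7k_0_q rD7k_24_7) 7335 = true := by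
  decide +kernel

theorem cD7k_0_k24_8 : allI cD7k_0_c (rjL dJ cD7k_0_q rD7k_24_8) 7336 = true := by
  decide +kernel

theorem cD7k_0_k24_9 : allI cD7k_0_c (rjL dJ cD7k_0_q rD7k_24_9) 7338 = true := by
  decide +kernel

theorem cD7k_0_k24_10 : allI cD7k_0_c (rjL dJ cD7k_0_q rD7k_24_10) 7340 = true := by
  decide +kernel

theorem cD7k_0_k24_11 : allI cD7k_0_c (rjL dJ cD7k_0_q rD7k_24_11) 7343 = true := by
  decide +kernel

theorem cD7k_0_k24_12 : allI cD7k_0_c (rjL dJ cD7k_0_q rD7k_24_12) 7346 = true := by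
  decide +kernel

theorem cD7k_0_k24_13 : allI cD7k_0_c (rjL dJ cD7k_0_q rD7k_24_13) 7347 = true := by
  decide +kernel

theorem cD7k_0_k24_14 : allI cD7k_0_c (rjL dJ cD7k_0_q rD7k_24_14) 7349 = true := by
  decide +kernel

theorem cD7k_0_k24_15 : allI cD7k_0_c (rjL dJ cD7k_0_q rD7k_24_15) 7351 = true := by
  decide +kernel

theorem cD7k_0_k24_16 : allI cD7k_0_c (rjL dJ cD7k_0_q rD7k_24_16) 7353 = true := by
  decide +kernel

theorem cD7k_0_k24_17 : allI cD7k_0_c (rjL dJ cD7k_0_q rD7k_24_17) 7355 = true := by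
  decide +kernel

theorem cD7k_0_k24_18 : allI cD7k_0_c (rjL dJ cD7k_0_q rD7k_24_18) 7357 = true := by
  decide +kernel

theorem cD7k_0_k24_19 : allI cD7k_0_c (rjL dJ cD7k_0_q rD7k_24_19) 7359 = true := by
  decide +kernel

theorem cD7k_0_k24_20 : allI cD7k_0_c (rjL dJ cD7k_0_q rD7k_24_20) 7362 = true := by
  decide +kernel

theorem cD7k_0_k24_21 : allI cD7k_0_c (rjL dJ cD7k_0_q rD7k_24_21) 7365 = true := by
  decide +kernel

theorem cD7k_0_k24_22 : allI cD7k_0_c (rjL dJ cD7k_0_q rD7k_24_22) 7367 = true := by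
  decide +kernel

theorem cD7k_0_k24_23 : allI cD7k_0_c (rjL dJ cD7k_0_q rD7k_24_23) 7369 = true := by
  decide +kernel

theorem cD7k_0_k24_24 : allI cD7k_0_c (rjL dJ cD7k_0_q rD7k_24_24) 7371 = true := by
  decide +kernel

theorem cD7k_0_k24_25 : allI cD7k_0_c (rjL dJ cD7k_0_q rD7k_24_25) 7374 = true := by
  decide +kernel

theorem cD7k_0_k24_26 : allI cD7k_0_c (rjL dJ cD7k_0_q rD7k_24_26) 7375 = true := by
  decide +kernel

theorem cD7k_0_k24_27 : allI cD7k_0_c (rjL dJ cD7k_0_q rD7k_24_27) 7378 = true := by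
  decide +kernel

theorem cD7k_0_k24_28 : allI cD7k_0_c (rjL dJ cD7k_0_q rD7k_24_28) 7380 = true := by
  decide +kernel

theorem cD7k_0_k24_29 : allI cD7k_0_c (rjL dJ cD7k_0_q rD7k_24_29) 7383 = true := by
  decide +kernel

theorem cD7k_0_k24_30 : allI cD7k_0_c (rjL dJ cD7k_0_q rD7k_24_30) 7386 = true := by
  decide +kernel

theorem cD7k_0_k24_31 : allI cD7k_0_c (rjL dJ cD7k_0_q rD7k_24_31) 7388 = true := by
  decide +kernel

theorem cD7k_0_k24_32 : allI cD7k_0_c (rjL dJ cD7k_0_q rD7k_24_32) 7389 = true := by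
  decide +kernel

/-- nodes -/
noncomputable def cD7k_0_n24 : List (QJ PN) :=
  rjL dJ cD7k_0_q rD7k_24_0 ++ (rjL dJ cD7k_0_q rD7k_24_1 ++ (rjL dJ cD7k_0_q rD7k_24_2 ++ (
    rjL dJ cD7k_0_q rD7k_24_3 ++ (rjL dJ cD7k_0_q rD7k_24_4 ++ (rjL dJ cD7k_0_q rD7k_24_5 ++ (
    rjL dJ cD7k_0_q rD7k_24_6 ++ (rjL dJ cD7k_0_q rD7k_24_7 ++ (rjL dJ cD7k_0_q rD7k_24_8 ++ (
    rjL dJ cD7k_0_q rD7k_24_9 ++ (rjL dJ cD7k_0_q rD7k_24_10 ++ (rjL dJ cD7k_0_q rD7k_24_11 ++ (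
    rjL dJ cD7k_0_q rD7k_24_12 ++ (rjL dJ cD7k_0_q rD7k_24_13 ++ (rjL dJ cD7k_0_q rD7k_24_14 ++ (
    rjL dJ cD7k_0_q rD7k_24_15 ++ (rjL dJ cD7k_0_q rD7k_24_16 ++ (rjL dJ cD7k_0_q rD7k_24_17 ++ (
    rjL dJ cD7k_0_q rD7k_24_18 ++ (rjL dJ cD7k_0_q rD7k_24_19 ++ (rjL dJ cD7k_0_q rD7k_24_20 ++ (
    rjL dJ cD7k_0_q rD7k_24_21 ++ (rjL dJ cD7k_0_q rD7k_24_22 ++ (rjL dJ cD7k_0_q rD7k_24_23 ++ (
    rjL dJ cD7k_0_q rD7k_24_24 ++ (rjL dJ cD7k_0_q rD7k_24_25 ++ (rjL dJ cD7k_0_q rD7k_24_26 ++ (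
    rjL dJ cD7k_0_q rD7k_24_27 ++ (rjL dJ cD7k_0_q rD7k_24_28 ++ (rjL dJ cD7k_0_q rD7k_24_29 ++ (
    rjL dJ cD7k_0_q rD7k_24_30 ++ (rjL dJ cD7k_0_q rD7k_24_31 ++
    rjL dJ cD7k_0_q rD7k_24_32)))))))))))))))))))))))))))))))

theorem cD7k_0_k24 : allI cD7k_0_c cD7k_0_n24 7319 = true := by
  refine allI_appQ (k := 2) cD7k_0_k24_0 (by decide +kernel) ?_
  refine allI_appQ (k := 3) cD7k_0_k24_1 (by decide +kernel) ?_
  refine allI_appQ (k := 3) cD7k_0_k24_2 (by decide +kernel) ?_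
  refine allI_appQ (k := 2) cD7k_0_k24_3 (by decide +kernel) ?_
  refine allI_appQ (k := 1) cD7k_0_k24_4 (by decide +kernel) ?_
  refine allI_appQ (k := 3) cD7k_0_k24_5 (by decide +kernel) ?_
  refine allI_appQ (k := 2) cD7k_0_k24_6 (by decide +kernel) ?_
  refine allI_appQ (k := 1) cD7k_0_k24_7 (by decide +kernel) ?_
  refine allI_appQ (k := 2) cD7k_0_k24_8 (by decide +kernel) ?_
  refine allI_appQ (k := 2) cD7k_0_k24_9 (by decide +kernel) ?_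
  refine allI_appQ (k := 3) cD7k_0_k24_10 (by decide +kernel) ?_
  refine allI_appQ (k := 3) cD7k_0_k24_11 (by decide +kernel) ?_
  refine allI_appQ (k := 1) cD7k_0_k24_12 (by decide +kernel) ?_
  refine allI_appQ (k := 2) cD7k_0_k24_13 (by decide +kernel) ?_
  refine allI_appQ (k := 2) cD7k_0_k24_14 (by decide +kernel) ?_
  refine allI_appQ (k := 2) cD7k_0_k24_15 (by decide +kernel) ?_
  refine allI_appQ (k := 2) cD7k_0_k24_16 (by decide +kernel) ?_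
  refine allI_appQ (k := 2) cD7k_0_k24_17 (by decide +kernel) ?_
  refine allI_appQ (k := 2) cD7k_0_k24_18 (by decide +kernel) ?_
  refine allI_appQ (k := 3) cD7k_0_k24_19 (by decide +kernel) ?_
  refine allI_appQ (k := 3) cD7k_0_k24_20 (by decide +kernel) ?_
  refine allI_appQ (k := 2) cD7k_0_k24_21 (by decide +kernel) ?_
  refine allI_appQ (k := 2) cD7k_0_k24_22 (by decide +kernel) ?_
  refine allI_appQ (k := 2) cD7k_0_k24_23 (by decide +kernel) ?_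
  refine allI_appQ (k := 3) cD7k_0_k24_24 (by decide +kernel) ?_
  refine allI_appQ (k := 1) cD7k_0_k24_25 (by decide +kernel) ?_
  refine allI_appQ (k := 3) cD7k_0_k24_26 (by decide +kernel) ?_
  refine allI_appQ (k := 2) cD7k_0_k24_27 (by decide +kernel) ?_
  refine allI_appQ (k := 3) cD7k_0_k24_28 (by decide +kernel) ?_
  refine allI_appQ (k := 3) cD7k_0_k24_29 (by decide +kernel) ?_
  refine allI_appQ (k := 2) cD7k_0_k24_30 (by decide +kernel) ?_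
  refine allI_appQ (k := 1) cD7k_0_k24_31 (by decide +kernel) ?_
  exact cD7k_0_k24_32

theorem cD7k_0_l24 : cD7k_0_n24.length = 71 := by
  decide +kernel

end Pool.Agent.Lib_MP_fa6e45
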