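import Pool.Agent.Lib_MP_fa6e45.RJ0

/-!
MP_fa6e45_co, stage 9: straight-side patterns with `7` sides, raw data (generated by a program).
-/

namespace Pool.Agent.Lib_MP_fa6e45

/-- nodes -/
noncomputable def rD7k_25_0 : List RJ :=
  [.l (nat_lit 13) (nat_lit 0x5a0) (nat_lit 4) (nat_lit 0x240000002400000023c0000023c0000027e0000027e0000020e0000020e0000022f0000022f0000026e0000026e0000021800000218) (nat_lit 0x3e0000003e0000004200000042000000000000000000000070000000700000004f0000004f00000010000000100000006600000066)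
    (nat_lit 0x101080832c1d812006884341f80f887744042300ed07184042020de07f848016012008803ca1cf11808c040022a0ff07605b41fa0f609f83dc1cc0f685f43b82380eb075837819611c0b6847823c0e6085829225d11608584e81320b0068847827e11a090033c20e12288bc624312140086048024011e07b05402340ec083841a2651480a403e01da11007e042c1cc10708382d017c0ce87d44782200d4061848021a0e607b83b019e0cf05a02c61bf11307f83781a80e787744ba17d13288bc37e1f50f0078043e27b0bf86843ca1f10a487b441a2450b186743e81e010f887c3921c911808c042c2381480c483fc22010f89ec4bc24a1040820460202116077052031211308f043e21f101097843820811507182641d60ed08603501860e486844102080f008384001da13a07583e02800de06a039217f10e08203641e0)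
    (nat_lit 0x1011680b405a02d01680b405a02d01680b405a02d016804042022d01680b405a02d01680b405a02d01680b405a00cb06f05b45a02d01680b405a02d01680b405a02d016803b01fe0fd0b68b405a02d01680b405a02d01680b405a012009003d823c11a1680b405a02d01680b405a02d0168034416013f08f04802342d01680b405a02d01680b405a010d09003dc1cc0cf07602d05a02d01680b405a02d016803f02200e6085841c20e0be05a0b405a02d01680b405a00f887943da149122883433a1630f01680b405a02d016803ba1cf0be897445e2650fa86fc3c01e02d01680b405a010108c03b822c1890a4047822610f887c4bc5a02d0168046023011c085862429011007f84f621f1250978b405a00ed08003ac27414007c03501bc0bf872441021c0f0168038c22a0eb04c84301da0c306a03421c9104082041c1e0)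
    (nat_lit 4) (nat_lit 49)
    [[nat_lit 2,nat_lit 258,nat_lit 0x1002,nat_lit 0x100002,nat_lit 17,nat_lit 0x100011,nat_lit 257,nat_lit 513,
    nat_lit 0x1101,nat_lit 0x10101,nat_lit 0x100101,nat_lit 0x1000101,nat_lit 0x1001,nat_lit 0x2001,nat_lit 0x11001,
    nat_lit 0x101001,nat_lit 0x10001,nat_lit 0x110001,nat_lit 0x1010001,nat_lit 0x100001,nat_lit 0x1100001,
    nat_lit 0x1000001],[nat_lit 32,nat_lit 272,nat_lit 0x1010,nat_lit 0x100010,nat_lit 0x1000010],[nat_lit 512,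
    nat_lit 0x1200,nat_lit 0x100200,nat_lit 0x1100,nat_lit 0x2100,nat_lit 0x101100,nat_lit 0x1001100,nat_lit 0x10100,
    nat_lit 0x1010100,nat_lit 0x100100,nat_lit 0x1100100,nat_lit 0x200200,nat_lit 0x110100,nat_lit 0x1000100],
    [nat_lit 0x2000,nat_lit 0x3000,nat_lit 0x12000,nat_lit 0x102000,nat_lit 0x11000,nat_lit 0x1011000,
    nat_lit 0x101000,nat_lit 0x1001000],[nat_lit 0x20000,nat_lit 0x110000,nat_lit 0x1110000,nat_lit 0x1010000],
    [nat_lit 0x200000,nat_lit 0x1100000,nat_lit 0x1200000,nat_lit 0x2100000],[nat_lit 0x2000000]]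
    [.c (nat_lit 1) (nat_lit 2),.c (nat_lit 1) (nat_lit 0x303004),.r (nat_lit 0x1979) (nat_lit 10) [nat_lit 0x2042052,
    nat_lit 0x200001,nat_lit 0x33042],.r (nat_lit 0xa7c) (nat_lit 8) [nat_lit 0x400001,nat_lit 0x20001,
    nat_lit 0x3523451,nat_lit 0x50041,nat_lit 0x2001],.c (nat_lit 0) (nat_lit 0x42005),
    .c (nat_lit 7) (nat_lit 0x300345),.c (nat_lit 0) (nat_lit 0x202005),.c (nat_lit 3) (nat_lit 0x303004),
    .c (nat_lit 0) (nat_lit 0x202205),.c (nat_lit 2) (nat_lit 0x242005),.c (nat_lit 6) (nat_lit 0x303004),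
    .c (nat_lit 7) (nat_lit 0x303004),.c (nat_lit 0) (nat_lit 0x42205),.c (nat_lit 1) (nat_lit 770),
    .c (nat_lit 2) (nat_lit 0x82205),.r (nat_lit 0x174d) (nat_lit 6) [nat_lit 0x2020002,nat_lit 0x33042],
    .r (nat_lit 0x1979) (nat_lit 10) [nat_lit 0x2020052,nat_lit 0x200001,nat_lit 33],
    .r (nat_lit 204) (nat_lit 8) [nat_lit 0x400001,nat_lit 0x20001,nat_lit 0x3503451,nat_lit 0x30041,nat_lit 0x2001],
    .r (nat_lit 0x1cdd) (nat_lit 8) [nat_lit 0x2001,nat_lit 0x2500001,nat_lit 0x200001,nat_lit 0x3403452,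
    nat_lit 0x930041],.r (nat_lit 0x174b) (nat_lit 5) [nat_lit 0x200001,nat_lit 33,nat_lit 0x2024002],
    .c (nat_lit 2) (nat_lit 0x300345),.r (nat_lit 2) (nat_lit 5) [nat_lit 0x3003452,nat_lit 33],
    .c (nat_lit 2) (nat_lit 2),.r (nat_lit 0x1af3) (nat_lit 0) [nat_lit 0x2402502,nat_lit 0x2002542,
    nat_lit 0x3003402],.c (nat_lit 3) (nat_lit 0x250304),.r (nat_lit 0x174e) (nat_lit 5) [nat_lit 0x3003452,
    nat_lit 33],.r (nat_lit 0x1cdb) (nat_lit 9) [nat_lit 0x3403002,nat_lit 0x2502042],.c (nat_lit 3) (nat_lit 2),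
    .r (nat_lit 0x1af3) (nat_lit 0) [nat_lit 0x2402502,nat_lit 0x200321,nat_lit 0x3003402],
    .r (nat_lit 0x1cdd) (nat_lit 8) [nat_lit 0x2001,nat_lit 0x2500001,nat_lit 0x200001,nat_lit 0x3400021,
    nat_lit 0x2d33451],.c (nat_lit 0) (nat_lit 0x202205),.c (nat_lit 3) (nat_lit 770),
    .r (nat_lit 0x174e) (nat_lit 5) [nat_lit 0x300231,nat_lit 0x3403042],
    .r (nat_lit 0x1cdb) (nat_lit 9) [nat_lit 0x3403002,nat_lit 33],.c (nat_lit 0) (nat_lit 0x200005),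
    .c (nat_lit 6) (nat_lit 0x53345),.r (nat_lit 0) (nat_lit 1) [nat_lit 0x200001,nat_lit 33],
    .c (nat_lit 2) (nat_lit 0x82254),.r (nat_lit 32) (nat_lit 6) [nat_lit 34,nat_lit 0x200001],
    .c (nat_lit 7) (nat_lit 0x53345),.r (nat_lit 0x1c82) (nat_lit 6) [nat_lit 0x200001,nat_lit 33],
    .c (nat_lit 4) (nat_lit 2),.c (nat_lit 0) (nat_lit 0x605),.c (nat_lit 2) (nat_lit 0x20203),
    .c (nat_lit 6) (nat_lit 770),.c (nat_lit 1) (nat_lit 0x2304),.r (nat_lit 0x174e) (nat_lit 5) [nat_lit 0x23042,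
    nat_lit 0x3030452],.c (nat_lit 0) (nat_lit 0x353045),.c (nat_lit 0) (nat_lit 0x353045),.c (nat_lit 5) (nat_lit 2),
    .r (nat_lit 0x174d) (nat_lit 6) [nat_lit 0x2020002,nat_lit 33],.c (nat_lit 3) (nat_lit 0x53345),
    .r (nat_lit 32) (nat_lit 6) [nat_lit 0x533452,nat_lit 0x200001],.c (nat_lit 6) (nat_lit 2),
    .c (nat_lit 0) (nat_lit 0x353345),.c (nat_lit 7) (nat_lit 0x353343),.c (nat_lit 6) (nat_lit 0x353343),
    .c (nat_lit 7) (nat_lit 2)],
    .l (nat_lit 11) (nat_lit 480) (nat_lit 3) (nat_lit 0xc6000000c6000000ce000000a6000000c9000000c9000000d0000000a4000000b7000000b7000000b7000000b7000000bd000000bd) (nat_lit 0xa0000000a0000002a0000000200000007000000070000002c00000000000000190000001900000019000000190000001300000013)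
    (nat_lit 0x1782f0520c41ea32c4d0c615a23c478ad1662cc5e0bc1483108a8eb128310568b31662b4598ad1883103c0cc1922fc4e07816a2ec5d8b51762d4520a40f81e05489f0f42984688710e234438931d632c4f8bf184308518bf1602c0580b015c2f08a8f5152324610c213a324550b01602a85b0b6188318530781922fc520d017a2dc5b8bd10e2f44a09a0f42704e8a30f02904288b1162145789116623c438bb1602c0458b71482784f0a4148290568ad11a2d4550b010a2f44f0a41482785209e15a2b4468b51542c0428bd13c2905209e1482785988f10e2ec580b01162dc5209e13c290520a415a2cc498b516c2f0488bd13c2905209e1902a8598b310e2ec5b0ae15e21c520a4148290550c8)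
    (nat_lit 0x178780f01e03c0780f01e03c0780f01e03c07805e0bc3c0780f01e03c0780f01e03c0780f01e01482903c1e03c0780f01e03c0780f01e03c0780620c41981e0f01e03c0780f01e03c0780f01e01ea454648a9184780f01e03c0780f01e03c0780658eb17e27c610c23c0780f01e03c0780f01e01342504e07a146274521e03c0780f01e03c0780630c40f02985f8c91a0290f01e03c0780f01e015a2b45a88d1602a85e885148780f01e03c0780478b317621c580b016e22c4f0a43c0780f01e011e2cc5d8871602c05b88b13c290521e03c0780568ad16a234580aa17a2145209e13c290f01e01662cc5d88715c2d8438af148290520a4190780598ad16a24c5e0b617a2445209e13c290550c8)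
    (nat_lit 4) (nat_lit 37)
    [[nat_lit 2,nat_lit 17,nat_lit 257,nat_lit 0x1001,nat_lit 0x1011,nat_lit 0x1101,nat_lit 0x2001,nat_lit 0x101001,
    nat_lit 0x1001001,nat_lit 0x10001,nat_lit 0x100001,nat_lit 0x200001,nat_lit 0x1000001],[nat_lit 32,nat_lit 272,
    nat_lit 0x1010,nat_lit 0x101010,nat_lit 0x10010,nat_lit 0x100010,nat_lit 0x200010,nat_lit 0x1000010,
    nat_lit 0x1001010],[nat_lit 512,nat_lit 0x1100,nat_lit 0x101100,nat_lit 0x1001100,nat_lit 0x10100,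
    nat_lit 0x100100,nat_lit 0x200100,nat_lit 0x1000100],[nat_lit 0x2000,nat_lit 0x102000,nat_lit 0x11000,
    nat_lit 0x111000,nat_lit 0x101000,nat_lit 0x201000,nat_lit 0x1001000,nat_lit 0x1101000],[nat_lit 0x20000,
    nat_lit 0x110000],[nat_lit 0x200000,nat_lit 0x300000,nat_lit 0x1100000],[nat_lit 0x2000000]]
    [.c (nat_lit 1) (nat_lit 2),.c (nat_lit 0) (nat_lit 0x2207),.c (nat_lit 0) (nat_lit 0x20207),
    .c (nat_lit 0) (nat_lit 0x600207),.r (nat_lit 0x174c) (nat_lit 13) [nat_lit 0x7333603,nat_lit 0x420003,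
    nat_lit 0xc024073],.r (nat_lit 0x174c) (nat_lit 13) [nat_lit 0x7333603,nat_lit 0x420003,nat_lit 0xc204073],
    .r (nat_lit 0x174c) (nat_lit 13) [nat_lit 0x7333603,nat_lit 0x420003,nat_lit 0x8002032],
    .c (nat_lit 0) (nat_lit 0x600207),.r (nat_lit 0x1cdb) (nat_lit 6) [nat_lit 0x7530673,nat_lit 0x203063],
    .r (nat_lit 0x1b36) (nat_lit 13) [nat_lit 0x6240763,nat_lit 0xd350cd3,nat_lit 0x7333603],
    .c (nat_lit 0) (nat_lit 0x600207),.r (nat_lit 0x1ccd) (nat_lit 5) [nat_lit 0x7333603,nat_lit 0x240003,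
    nat_lit 0x3050c3],.r (nat_lit 0x1cdb) (nat_lit 2) [nat_lit 0x35063,nat_lit 0x7302673],.c (nat_lit 2) (nat_lit 2),
    .c (nat_lit 0) (nat_lit 0x22007),.c (nat_lit 0) (nat_lit 0x602007),.c (nat_lit 0) (nat_lit 0x602007),
    .r (nat_lit 0x1b36) (nat_lit 13) [nat_lit 0x6222763,nat_lit 0xd305cd3,nat_lit 0x7333603],
    .c (nat_lit 0) (nat_lit 0x602007),.r (nat_lit 0x1ccd) (nat_lit 5) [nat_lit 0x7333603,nat_lit 0x240003,
    nat_lit 0x3500c3],.r (nat_lit 0x1cdb) (nat_lit 2) [nat_lit 0x53063,nat_lit 0x7320673],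
    .r (nat_lit 0x1cdb) (nat_lit 6) [nat_lit 0x7503673,nat_lit 0x230063],.c (nat_lit 3) (nat_lit 2),
    .c (nat_lit 0) (nat_lit 0x620007),.c (nat_lit 0) (nat_lit 0x620007),
    .r (nat_lit 0x1cdb) (nat_lit 6) [nat_lit 0x7333673,nat_lit 33],
    .r (nat_lit 0x1b36) (nat_lit 13) [nat_lit 0x6042763,nat_lit 0xd255cd3,nat_lit 0x7333603],
    .c (nat_lit 0) (nat_lit 0x620007),.r (nat_lit 0x1ccd) (nat_lit 5) [nat_lit 0x7333603,nat_lit 0x240003,
    nat_lit 0x300041],.r (nat_lit 0x1cdb) (nat_lit 2) [nat_lit 0x333063,nat_lit 0x3000231],.c (nat_lit 4) (nat_lit 2),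
    .c (nat_lit 4) (nat_lit 0x300002),.r (nat_lit 0x1c26) (nat_lit 2) [nat_lit 0x7333673,nat_lit 33,nat_lit 0x240003],
    .c (nat_lit 5) (nat_lit 0x300002),.c (nat_lit 0) (nat_lit 0x200003),.c (nat_lit 6) (nat_lit 0x300002),
    .r (nat_lit 0x174e) (nat_lit 3) [nat_lit 0x333673,nat_lit 33],.c (nat_lit 5) (nat_lit 0x33367),
    .c (nat_lit 5) (nat_lit 2),.r (nat_lit 2) (nat_lit 3) [nat_lit 0x333673,nat_lit 33],.c (nat_lit 6) (nat_lit 2),
    .r (nat_lit 0x1ccd) (nat_lit 5) [nat_lit 0x7333603,nat_lit 0x240003,nat_lit 0x300083],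
    .r (nat_lit 0x1bbb) (nat_lit 10) [nat_lit 0x6222763,nat_lit 0x7333603,nat_lit 0x420763],
    .c (nat_lit 7) (nat_lit 2)],
    .l (nat_lit 12) (nat_lit 960) (nat_lit 3) (nat_lit 0x151000001b1000001b2000001b2000001ad00000153000001b1000001570000019f000001510000017c0000017c000001680000017e) (nat_lit 0x10000006100000000000000000000005f000000050000005b0000000100000061000000130000003600000036000000340000004a)
    (nat_lit 0x1de0f81511510f01da0f61320f213e0ff11511d1031b01de1171b11441ac1d80f01d80f017b17b17d17b1b11511b21b22132472051bf15111d1680f40f01681171511b21b21791ad2011bb14b11117c1960f01681ac1da1ad2471441a81e01861320f017717d1791631440f01792130f41440f61520f214011f11513d1230f01321bb1bf1521861561b01581a016117b17f1651d80f62012050f61e00f81560f014412511f1230fd0f013e11111d1400f01441a014019017916f16b1511d80f214b1510f21320f01580f014010111b1230fd17b1151960f411517d11f17b11b16f15014614614c17b0ff17c16811f17712516110117913615014c13217b1031681681231630fd1650fd15113214c15012e17d11d0f00f013d17912317f12316b14c146142150)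
    (nat_lit 0x1de3c03c03c03c03c03c03c03c03c03c03c03c03c00f81de3c03c03c03c03c03c03c03c03c03c03c03c01511171b23c03c03c03c03c03c03c03c03c03c03c01511b11b21b23c03c03c03c03c03c03c03c03c03c00f01442131791443c03c03c03c03c03c03c03c03c01da1ac2471ad1a81443c03c03c03c03c03c03c03c00f61d82052011e00f61563c03c03c03c03c03c03c01320f01bf1bb1861521b01563c03c03c03c03c03c00f21d815114b1320f21580f01403c03c03c03c03c013e0f011d1110f01401a01441901403c03c03c03c00ff17b16817c17711f1611251791011503c03c03c011517b0f419617d11517b11f16f11b1461503c03c011d17d0f00f017913d17f12316b12314614c1503c010317b1681681631231650fd1510fd14c13212e150)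
    (nat_lit 5) (nat_lit 43)
    [[nat_lit 2,nat_lit 258,nat_lit 0x100002,nat_lit 0x1002,nat_lit 17,nat_lit 273,nat_lit 0x1011,nat_lit 0x100011,
    nat_lit 257,nat_lit 513,nat_lit 0x10101,nat_lit 0x100101,nat_lit 0x1000101,nat_lit 0x1001,nat_lit 0x1001001,
    nat_lit 0x10001,nat_lit 0x100001,nat_lit 0x101001,nat_lit 0x1100001,nat_lit 0x1000001],[nat_lit 32,nat_lit 272,
    nat_lit 0x100110,nat_lit 528,nat_lit 0x10110,nat_lit 0x1000110,nat_lit 0x1010,nat_lit 0x1001010,nat_lit 0x10010,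
    nat_lit 0x100010,nat_lit 0x1100010,nat_lit 0x1000010],[nat_lit 512,nat_lit 0x10200,nat_lit 0x100200,
    nat_lit 0x1000200,nat_lit 0x1100,nat_lit 0x11100,nat_lit 0x1001100,nat_lit 0x10100,nat_lit 0x20100,
    nat_lit 0x1010100,nat_lit 0x110100,nat_lit 0x100100,nat_lit 0x1100100,nat_lit 0x1000100],[nat_lit 0x2000,
    nat_lit 0x1002000,nat_lit 0x11000,nat_lit 0x1001000],[nat_lit 0x20000,nat_lit 0x1010000],[nat_lit 0x200000,
    nat_lit 0x1100000],[nat_lit 0x2000000]]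
    [.c (nat_lit 1) (nat_lit 2),.r (nat_lit 0x174c) (nat_lit 4) [nat_lit 0x4000001,nat_lit 0x80840062,
    nat_lit 0xd292a062],.r (nat_lit 0x108b) (nat_lit 3) [nat_lit 0xa529001,nat_lit 0x84610c01,nat_lit 0xc6310801,
    nat_lit 0x84238c81],.r (nat_lit 0x1cdb) (nat_lit 11) [nat_lit 0x4010061,nat_lit 0x18041],
    .c (nat_lit 0) (nat_lit 0x11003),.r (nat_lit 0x174c) (nat_lit 4) [nat_lit 0x4000001,nat_lit 0x80620061,
    nat_lit 0xa319061],.r (nat_lit 0x19de) (nat_lit 2) [nat_lit 0x18001,nat_lit 0x4220061,nat_lit 0x220001],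
    .r (nat_lit 0x11b4) (nat_lit 2) [nat_lit 0xc0050861,nat_lit 0x100a01481,nat_lit 0x80002121,nat_lit 0x14000001],
    .c (nat_lit 0) (nat_lit 0x6b58d49),.r (nat_lit 0x174c) (nat_lit 4) [nat_lit 0x4000001,nat_lit 0x100c40063,
    nat_lit 0xdad5b063],.c (nat_lit 1) (nat_lit 0x210862),.r (nat_lit 0x1cc1) (nat_lit 0) [nat_lit 0x4000001,
    nat_lit 0x6318861,nat_lit 65],.r (nat_lit 0x174c) (nat_lit 4) [nat_lit 0x4000001,nat_lit 0x80830062,
    nat_lit 0xd293a062],.r (nat_lit 0x11b4) (nat_lit 2) [nat_lit 0xc6330841,nat_lit 0x108e414a1,nat_lit 0x9298a101,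
    nat_lit 0x14000001],.r (nat_lit 0x1cdb) (nat_lit 11) [nat_lit 0x4000061,nat_lit 65],
    .c (nat_lit 0) (nat_lit 0x6948109),.r (nat_lit 0x19de) (nat_lit 2) [nat_lit 0x18001,nat_lit 65,nat_lit 0x220001],
    .c (nat_lit 0) (nat_lit 0x300002),.r (nat_lit 0x108b) (nat_lit 3) [nat_lit 0xa529001,nat_lit 0x84610c01,
    nat_lit 0xc6310801,nat_lit 0x84218c81],.c (nat_lit 1) (nat_lit 0x802),.c (nat_lit 2) (nat_lit 2),
    .c (nat_lit 1) (nat_lit 0x6019002),.r (nat_lit 0x108b) (nat_lit 3) [nat_lit 0xa529001,nat_lit 0x84610c01,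
    nat_lit 0xc6310801,nat_lit 0xc4310c81],.r (nat_lit 0x174c) (nat_lit 4) [nat_lit 0x4000001,nat_lit 0x100a20062,
    nat_lit 0x1274a062],.c (nat_lit 2) (nat_lit 0x210862),.r (nat_lit 0x174c) (nat_lit 4) [nat_lit 0x4000001,
    nat_lit 0x80610061,nat_lit 0xa329061],.r (nat_lit 0x108b) (nat_lit 3) [nat_lit 0xa529001,nat_lit 0x84610c01,
    nat_lit 0xc6310801,nat_lit 0x8c610ca1],.r (nat_lit 0x19de) (nat_lit 2) [nat_lit 0x18001,nat_lit 0x4210061,
    nat_lit 0x220001],.c (nat_lit 2) (nat_lit 0x4230862),.r (nat_lit 0x1cdb) (nat_lit 11) [nat_lit 0x318041,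
    nat_lit 0x4210061],.r (nat_lit 0x11b4) (nat_lit 2) [nat_lit 0xc0040861,nat_lit 0x100a21481,nat_lit 0x8004a121,
    nat_lit 0x14000001],.c (nat_lit 0) (nat_lit 0x10005),.c (nat_lit 3) (nat_lit 2),.c (nat_lit 3) (nat_lit 0x210862),
    .r (nat_lit 0xda5) (nat_lit 0) [nat_lit 0x10000001,nat_lit 0x146040041,nat_lit 0x104800061,nat_lit 0xa000081],
    .r (nat_lit 0x174c) (nat_lit 4) [nat_lit 0x4000001,nat_lit 0x100c30063,nat_lit 0xdad6b063],
    .r (nat_lit 0x1b2b) (nat_lit 10) [nat_lit 65,nat_lit 0x80400061,nat_lit 0x4000001],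
    .c (nat_lit 4) (nat_lit 0x210862),.r (nat_lit 0x1859) (nat_lit 12) [nat_lit 0x4000001,nat_lit 0xc6718801,
    nat_lit 0x80400001,nat_lit 0xc0500041],.c (nat_lit 0) (nat_lit 0x318c43),.c (nat_lit 2) (nat_lit 0x44410a2),
    .c (nat_lit 1) (nat_lit 0x211062),.c (nat_lit 4) (nat_lit 0x18c43),
    .r (nat_lit 0x174e) (nat_lit 8) [nat_lit 0x318861,nat_lit 65],.r (nat_lit 0x1cc1) (nat_lit 0) [nat_lit 0x4000001,
    nat_lit 0x6328861,nat_lit 0x10041],.c (nat_lit 0) (nat_lit 0x6b5ad49),.c (nat_lit 4) (nat_lit 2),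
    .r (nat_lit 0x782) (nat_lit 2) [nat_lit 0xa010041,nat_lit 0x102000a1,nat_lit 0xa2000101,nat_lit 0x4000001,
    nat_lit 0xdc318921],.r (nat_lit 2) (nat_lit 8) [nat_lit 0x318861,nat_lit 65],
    .r (nat_lit 0x11b4) (nat_lit 2) [nat_lit 0xc6340841,nat_lit 0x108e214a1,nat_lit 0x9294a101,nat_lit 0x14000001],
    .c (nat_lit 5) (nat_lit 2),.c (nat_lit 0) (nat_lit 0x694a509),.c (nat_lit 6) (nat_lit 2),
    .r (nat_lit 0x19de) (nat_lit 2) [nat_lit 0x18001,nat_lit 0x10041,nat_lit 0x220001],.c (nat_lit 7) (nat_lit 2)]]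

/-- nodes -/
noncomputable def rD7k_25_1 : List RJ :=
  [.l (nat_lit 14) (nat_lit 0xb40) (nat_lit 3) (nat_lit 0x43800000502000004d20000061a000005fa000004fc0000055000000550000004b4000004b20000051c0000051c000004b2000004c4) (nat_lit 0x118000001e200000000000001480000011e00000020000000ca000000ca0000016800000166000000fe000000fe0000015600000168)
    (nat_lit 0xf302d010b02f00c683f00db833c0b402d00b583c60b882d012903cc14083ba0f004b010e04380de02d0127849e0eb03780ee82f014102d00ed04b2135042c0b4036c0fd83f60b402d0140842c186850413f05fa1c5066c0b405a0144051c13b038412c03f017e84b20f005da111053012482d018a86de12c049e0f0031a13f03b40f783c00ff043212c039611885160f603ae10e033c19b042c10c853012184860b4042010e03360fe838410e036e1c504d40ff044411404860b403ea11482e80ff04c80b402d0168036c0e582d00fa842012d83840b584ce0d7834c0de02d00b402d012c04920b402d00e704b610203b40b4034a12783c614703f614586de0ba03360ed04ce10783cc0f1836012782d614403f6118862a114843810202d6107841e0f183b40de02d00e102d00eb849e13203840d2834c0ed03600f0034a0eb02e213b02d00f604b00ff03fa0b4035e0f183c60bd03c0)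
    (nat_lit 0xf30b402d00b402d00b402d00b402d00b402d00b402d00b400b403cc2d00b402d00b402d00b402d00b402d00b402d00b4010b05021410b402d00b402d00b402d00b402d00b402d00b400bc03ba0b405042d00b402d00b402d00b402d00b402d00b400c683c00ed04fc0f00b402d00b402d00b402d00b402d00b400fc04b012c85fa17683c02d00b402d00b402d00b402d00b400db8438135071411103fc1218b402d00b402d00b402d00b400cf043810b066c14c043212184862d00b402d00b402d00b400b403780b402d012484b00b402d012d8b402d00b402d00b400b402d00db05a00b4039610803ea0e104b62d00b402d00b400b5849e0fd851018a846210e04520b584081078b402d00b400f1849e0fd851c1a105160cd82e813383b40f3041e2d00b400b883ac0b404ec12c03d80fe83fc0d782d00f183c60f00b400b403780b4038412783ae0e104c80d3034a0d803b40d283c0)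
    (nat_lit 3) (nat_lit 83)
    [[nat_lit 2,nat_lit 3,nat_lit 18,nat_lit 258,nat_lit 0x100002,nat_lit 0x1000002,nat_lit 17,nat_lit 273,
    nat_lit 0x1000011,nat_lit 0x1011,nat_lit 257,nat_lit 513,nat_lit 0x1101,nat_lit 0x100101,nat_lit 0x1000101,
    nat_lit 0x10101,nat_lit 0x1001,nat_lit 0x1001001,nat_lit 0x10001,nat_lit 0x100001,nat_lit 0x1100001,
    nat_lit 0x1000001,nat_lit 0x2000001],[nat_lit 32,nat_lit 288,nat_lit 0x1020,nat_lit 272,nat_lit 0x1110,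
    nat_lit 0x100110,nat_lit 0x1000110,nat_lit 0x1010,nat_lit 0x10110,nat_lit 0x100010,nat_lit 0x1000010,
    nat_lit 0x1001010],[nat_lit 512,nat_lit 0x100200,nat_lit 0x1000200,nat_lit 0x10200,nat_lit 0x1100,nat_lit 0x1200,
    nat_lit 0x11100,nat_lit 0x1001100,nat_lit 0x10100,nat_lit 0x1010100,nat_lit 0x100100,nat_lit 0x110100,
    nat_lit 0x1100100,nat_lit 0x101100,nat_lit 0x1000100,nat_lit 0x2000100],[nat_lit 0x2000,nat_lit 0x11000,
    nat_lit 0x1001000],[nat_lit 0x20000,nat_lit 0x110000,nat_lit 0x1010000],[nat_lit 0x200000,nat_lit 0x1100000],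
    [nat_lit 0x2000000]]
    [.c (nat_lit 1) (nat_lit 2),.r (nat_lit 0x19c7) (nat_lit 12) [nat_lit 17,nat_lit 0x30c29,nat_lit 0xe21,
    nat_lit 0x2001],.r (nat_lit 0x1b04) (nat_lit 6) [nat_lit 0x12419,nat_lit 0x611],.c (nat_lit 0) (nat_lit 0x5a23),
    .c (nat_lit 4) (nat_lit 0x4083),.c (nat_lit 0) (nat_lit 0x5a23),.r (nat_lit 0x1750) (nat_lit 4) [nat_lit 17,
    nat_lit 0x10001],.r (nat_lit 0x19c6) (nat_lit 2) [nat_lit 0x1b099,nat_lit 0x10001,nat_lit 0x2001],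
    .r (nat_lit 0x1ba5) (nat_lit 0) [nat_lit 0x10001,nat_lit 0x2019,nat_lit 0x1b081],
    .r (nat_lit 0x1cd0) (nat_lit 4) [nat_lit 0x2001,nat_lit 0x10001,nat_lit 0x1b011],.c (nat_lit 0) (nat_lit 0x3613),
    .c (nat_lit 0) (nat_lit 0x5a23),.r (nat_lit 0x19b4) (nat_lit 11) [nat_lit 0x3099,nat_lit 0x120d1,nat_lit 0x2001],
    .r (nat_lit 0x1cd4) (nat_lit 3) [nat_lit 0x2001,nat_lit 0x10019,nat_lit 0x1b081],.c (nat_lit 0) (nat_lit 0x3613),
    .r (nat_lit 0x1ccf) (nat_lit 1) [nat_lit 0x1b099,nat_lit 0x2001,nat_lit 0x10001],.c (nat_lit 0) (nat_lit 0x2083),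
    .r (nat_lit 32) (nat_lit 6) [nat_lit 0x3099,nat_lit 0x2001],.r (nat_lit 0x1cd0) (nat_lit 4) [nat_lit 0x2001,
    nat_lit 0x10001,nat_lit 0x419],.r (nat_lit 0x19c7) (nat_lit 12) [nat_lit 0x411,nat_lit 0x30429,nat_lit 0x621,
    nat_lit 0x2001],.r (nat_lit 0x174e) (nat_lit 13) [nat_lit 0x3099,nat_lit 0x2001],.c (nat_lit 0) (nat_lit 0x3613),
    .c (nat_lit 0) (nat_lit 0x5a23),.c (nat_lit 2) (nat_lit 2),.r (nat_lit 0xde7) (nat_lit 13) [nat_lit 0x10401,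
    nat_lit 0x3d701,nat_lit 0x20001,nat_lit 0x4019],.r (nat_lit 0x1cd0) (nat_lit 4) [nat_lit 0x2001,nat_lit 0x10001,
    nat_lit 0x1d412],.r (nat_lit 0x1b25) (nat_lit 4) [nat_lit 0x401,nat_lit 17,nat_lit 0x10001],
    .r (nat_lit 0x13c9) (nat_lit 6) [nat_lit 0x34561,nat_lit 0x3d711,nat_lit 0x3499,nat_lit 0x5729],
    .r (nat_lit 0x1cdb) (nat_lit 3) [nat_lit 0x10019,nat_lit 17],.r (nat_lit 0x1b49) (nat_lit 12) [nat_lit 0x1b099,
    nat_lit 0x10001,nat_lit 0x2001],.r (nat_lit 0x1add) (nat_lit 13) [nat_lit 0x18011,nat_lit 0x10001,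
    nat_lit 0x12019],.c (nat_lit 0) (nat_lit 0x602),.r (nat_lit 0x1b04) (nat_lit 6) [nat_lit 0x12019,nat_lit 17],
    .r (nat_lit 0x15a6) (nat_lit 1) [nat_lit 0x10001,nat_lit 0x2001,nat_lit 0x10401,nat_lit 17],
    .r (nat_lit 0x1b9c) (nat_lit 11) [nat_lit 0x2001,nat_lit 0x10019,nat_lit 0x1b081],.c (nat_lit 3) (nat_lit 2),
    .c (nat_lit 0) (nat_lit 0x5ae3),.c (nat_lit 0) (nat_lit 0x5a23),.r (nat_lit 0x1c8d) (nat_lit 4) [nat_lit 0x2001,
    nat_lit 17,nat_lit 0x10001],.r (nat_lit 0x174f) (nat_lit 13) [nat_lit 0x2001,nat_lit 17],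
    .r (nat_lit 0x19b4) (nat_lit 11) [nat_lit 0x1d71a,nat_lit 0x34552,nat_lit 0x2001],
    .r (nat_lit 0x1b7d) (nat_lit 0) [nat_lit 0x10001,nat_lit 0x1b081,nat_lit 0x20d1],
    .r (nat_lit 0x1ba6) (nat_lit 12) [nat_lit 0x1b099,nat_lit 0x10001,nat_lit 0x2001],
    .r (nat_lit 0x1ba2) (nat_lit 0) [nat_lit 0x10001,nat_lit 0x120d1,nat_lit 0x1b081],
    .r (nat_lit 8) (nat_lit 5) [nat_lit 0x18099,nat_lit 0x10001],.c (nat_lit 0) (nat_lit 0x5ae3),
    .r (nat_lit 0x1c16) (nat_lit 11) [nat_lit 0x2001,nat_lit 0x1b081,nat_lit 0x100d1],.c (nat_lit 1) (nat_lit 0x249a),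
    .c (nat_lit 0) (nat_lit 0x3002),.c (nat_lit 0) (nat_lit 0x3613),.c (nat_lit 0) (nat_lit 0x5a23),
    .c (nat_lit 4) (nat_lit 2),.r (nat_lit 0x1b04) (nat_lit 6) [nat_lit 17,nat_lit 0x12019],
    .r (nat_lit 0x1af7) (nat_lit 3) [nat_lit 0x2001,nat_lit 0x120d1,nat_lit 0x3099],.c (nat_lit 5) (nat_lit 2),
    .r (nat_lit 0x1add) (nat_lit 13) [nat_lit 0x2019,nat_lit 0x10001,nat_lit 17],
    .r (nat_lit 0x1b9f) (nat_lit 13) [nat_lit 0x2019,nat_lit 0x10001,nat_lit 17],.c (nat_lit 6) (nat_lit 2),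
    .c (nat_lit 0) (nat_lit 0x5ae3),.c (nat_lit 7) (nat_lit 2)],
    .l (nat_lit 11) (nat_lit 480) (nat_lit 3) (nat_lit 0xb1000000b1000000b0000000c2000000bb000000bb000000c6000000b0000000be000000ca000000bb000000bb000000bb000000bb) (nat_lit 0x1900000019000000080000001a0000000f0000000f0000001a00000004000000000000000c0000000f0000000f0000000f0000000f)
    (nat_lit 0x148270548971442783f88717222c5109a144288520a416a25c510aa12e24c5c88b144288510a212e25c5008a176254580ac1602905089912a2845a8a9174280558b31a43283c09e1662dc5b879154278598951402b05c8bf16e214730f61582b0510a21562ec530a01c62dc5d8af1d43e8690ac12621c650ac16e2fc560c80f01e05b8b716e1e44b87f1a42c0718b91202b0580a40fa26c5d8bf11622c4f0a415e214520781882e0488af18e34c5c8b90f02c05d8b71601e0650c41762ec618bb1442685b8991f43d84d8b71762bc560ac1482b0510a2166284750e60fa2dc5d8911582b0560ac1442883c8a11582b05f87917634c560ac1582b0510a216e254690ac1762dc618c7158290540ac)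
    (nat_lit 0x148780f01e03c0780f01e03c0780f01e03c07804e0a43c0780f01e03c0780f01e03c0780f01e01522d4501e03c0780f01e03c0780f01e03c07804b897114280f01e03c0780f01e03c0780f01e01442885d8ab140780f01e03c0780f01e03c07804f0aa12a2cc560a03c0780f01e03c0780f01e00fe25c580d217238c561e03c0780f01e03c0780438931583285f8b71902b0f01e03c0780f01e01722e45807816e2ec3c0b0188780f01e03c07804588b148278428af0f02905c0c43c0780f01e0144288508b31cc3a85b87d1222ec561e03c07804d0a21322dc7b0fa16e26c578bb1582b0f01e01442884a8b71583485b8bb18e30c520ac158780510a21421e4560ac0f22fc698bb1582b0560ac)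
    (nat_lit 4) (nat_lit 61)
    [[nat_lit 2,nat_lit 0x100002,nat_lit 17,nat_lit 0x1011,nat_lit 0x100011,nat_lit 257,nat_lit 0x1001,nat_lit 0x2001,
    nat_lit 0x1001001,nat_lit 0x10001,nat_lit 0x100001,nat_lit 0x200001,nat_lit 0x1000001,nat_lit 0x1100001],
    [nat_lit 32,nat_lit 272,nat_lit 0x1110,nat_lit 0x100110,nat_lit 0x1010,nat_lit 0x1001010,nat_lit 0x100010,
    nat_lit 0x1000010],[nat_lit 512,nat_lit 0x1100,nat_lit 0x2100,nat_lit 0x101100,nat_lit 0x1001100,nat_lit 0x10100,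
    nat_lit 0x100100,nat_lit 0x110100,nat_lit 0x200100,nat_lit 0x1100100,nat_lit 0x1000100],[nat_lit 0x2000,
    nat_lit 0x1002000,nat_lit 0x11000,nat_lit 0x101000,nat_lit 0x1001000,nat_lit 0x2001000],[nat_lit 0x20000,
    nat_lit 0x110000,nat_lit 0x1010000],[nat_lit 0x200000,nat_lit 0x1100000],[nat_lit 0x2000000]]
    [.c (nat_lit 1) (nat_lit 2),.r (nat_lit 0x1b88) (nat_lit 8) [nat_lit 0x303231,nat_lit 0x30021,nat_lit 0x22001],
    .r (nat_lit 0x1b50) (nat_lit 0) [nat_lit 0x200031,nat_lit 0x2001,nat_lit 33],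
    .r (nat_lit 32) (nat_lit 0) [nat_lit 0x2001,nat_lit 0x222031],.r (nat_lit 0x1b6e) (nat_lit 0) [nat_lit 0x2001,
    nat_lit 0x200031,nat_lit 0x303201],.c (nat_lit 0) (nat_lit 0x30323),.c (nat_lit 0) (nat_lit 0x2203),
    .r (nat_lit 0x1765) (nat_lit 1) [nat_lit 0x28051,nat_lit 0x44031,nat_lit 0x33041,nat_lit 0x200001],
    .c (nat_lit 1) (nat_lit 770),.r (nat_lit 32) (nat_lit 0) [nat_lit 0x2001,nat_lit 33],
    .c (nat_lit 0) (nat_lit 0x30323),.r (nat_lit 0x1c87) (nat_lit 5) [nat_lit 0x2001,nat_lit 0x22001,nat_lit 0x200001,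
    nat_lit 0x33041],.c (nat_lit 1) (nat_lit 0x2002),.r (nat_lit 0x174e) (nat_lit 13) [nat_lit 0x300231,
    nat_lit 0x200001],.c (nat_lit 2) (nat_lit 2),.r (nat_lit 0x1bdf) (nat_lit 4) [nat_lit 33,nat_lit 0x22321],
    .r (nat_lit 0x1904) (nat_lit 13) [nat_lit 0x22001,nat_lit 0x30001,nat_lit 0x303201,nat_lit 0x230321],
    .r (nat_lit 32) (nat_lit 0) [nat_lit 0x2001,nat_lit 0x3231],.r (nat_lit 0x1a7f) (nat_lit 2) [nat_lit 0x2031,
    nat_lit 0x200001,nat_lit 33],.c (nat_lit 2) (nat_lit 770),.r (nat_lit 0x1b53) (nat_lit 5) [nat_lit 0x300021,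
    nat_lit 0x2001,nat_lit 0x200001],.r (nat_lit 8) (nat_lit 13) [nat_lit 0x202031,nat_lit 33],
    .c (nat_lit 3) (nat_lit 2),.r (nat_lit 0x174f) (nat_lit 13) [nat_lit 0x200001,nat_lit 33],
    .r (nat_lit 0x198f) (nat_lit 2) [nat_lit 0x4031,nat_lit 0x200001,nat_lit 33],
    .r (nat_lit 0x1765) (nat_lit 1) [nat_lit 0x530451,nat_lit 0x320231,nat_lit 0x426541,nat_lit 0x200001],
    .c (nat_lit 3) (nat_lit 770),.r (nat_lit 0x1b6e) (nat_lit 0) [nat_lit 0x2001,nat_lit 0x202321,nat_lit 0x303201],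
    .c (nat_lit 0) (nat_lit 0x30323),.r (nat_lit 0x1b50) (nat_lit 0) [nat_lit 0x202321,nat_lit 0x2001,nat_lit 0x3231],
    .r (nat_lit 0x1b10) (nat_lit 3) [nat_lit 0x426521,nat_lit 0x535431,nat_lit 0x200001],
    .c (nat_lit 1) (nat_lit 0x22232),.c (nat_lit 0) (nat_lit 0x53345),.c (nat_lit 4) (nat_lit 2),
    .c (nat_lit 4) (nat_lit 770),.r (nat_lit 0x174d) (nat_lit 3) [nat_lit 0x202031,nat_lit 33],
    .r (nat_lit 0x1ce1) (nat_lit 4) [nat_lit 0x22031,nat_lit 0x200001,nat_lit 33],.c (nat_lit 0) (nat_lit 515),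
    .c (nat_lit 1) (nat_lit 0x2302),.c (nat_lit 5) (nat_lit 2),.r (nat_lit 2) (nat_lit 3) [nat_lit 0x2001,nat_lit 33],
    .r (nat_lit 0x1c86) (nat_lit 13) [nat_lit 0x200031,nat_lit 0x22001,nat_lit 33],.c (nat_lit 6) (nat_lit 2),
    .c (nat_lit 0) (nat_lit 0x53345),.c (nat_lit 7) (nat_lit 2)],
    .l (nat_lit 14) (nat_lit 0xc30) (nat_lit 3) (nat_lit 0x55100000551000005b8000004e5000004f7000004c6000005200000054800000600000004ee000004f0000004e50000053500000502) (nat_lit 0xaf000000af0000011b000000480000013a00000109000000b8000000e000000112000000000000011b00000110000000fe000000cb)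
    (nat_lit 0x12884a20d94509105c3771a344eb0ed45510edc4bb114c50512884a20f2c509105c3dd1d145a310b45510fa438d114c56d142450914205700d3051a14004d8156830c0ed84ba12e853a0f2c3650f285080eac3dc0f9830c10d86180f2838e12e041a0f743770f7051a12d83ee0c3041710b053e0f70384132842c105c4170eac34c0e304b60ef83e60ed04c60d9030c0d384f4168c4eb0c304d80f9841711a044012e05700c30410108849c1d1468d0f985000ef830c1240468121854811d0438112846a1544551186030c131853e152057013b860013e04a00c384ee10b43b510d855a0ed042c12184b80c304ee0f983de0dd830c0e344bb0e384ba0c3038410e04100f784a013b04b011f04120fa43b70f283b60d903dc11d030c0f984f80fa04ec0da041a15b4505106853a13d042c11a849c0c304ee106841212d844c114c45312e04ba0d384ca11284220dd830e0da047c10104b6)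
    (nat_lit 0x1288c3030c0c3030c0c3030c0c3030c0c3030c0c3030c0c3012884a230c0c3030c0c3030c0c3030c0c3030c0c3030c0c300d943cb1420c3030c0c3030c0c3030c0c3030c0c3030c0c30142450915c050830c0c3030c0c3030c0c3030c0c3030c0c30105c4170d303ab12d8c3030c0c3030c0c3030c0c3030c0c300ddc3dd14683dc0fb84b630c0c3030c0c3030c0c3030c0c301a3472314003e60c303be11a0c3030c0c3030c0c3030c0c3013ac5a3136030c105c3e6110046830c0c3030c0c3030c0c300ed442d156843610b03b412e048613b8c3030c0c3030c0c3015445510c3061814f84c615c054818004ee30c0c3030c0c300edc3e90ed83ca0f703640c3047413e03e613b0c3030c0c3012ec38d12e838e0e1030c104043812803de12c04ec30c0c30114c45312e84b8132834e108844a0c3837611f036812d8c30141456d14e841a10b04f4127046a13b830c104841a11304b6)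
    (nat_lit 4) (nat_lit 43)
    [[nat_lit 2,nat_lit 258,nat_lit 17,nat_lit 0x1011,nat_lit 0x10011,nat_lit 273,nat_lit 0x1000011,nat_lit 257,
    nat_lit 513,nat_lit 0x10101,nat_lit 0x100101,nat_lit 0x1001,nat_lit 0x11001,nat_lit 0x10001,nat_lit 0x100001,
    nat_lit 0x1000001],[nat_lit 32,nat_lit 0x10020,nat_lit 272,nat_lit 0x100110,nat_lit 0x1010,nat_lit 0x2010,
    nat_lit 0x11010,nat_lit 0x101010,nat_lit 0x10010,nat_lit 0x20010,nat_lit 0x110010,nat_lit 0x1010010,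
    nat_lit 0x100010,nat_lit 0x1100010,nat_lit 0x1000010,nat_lit 0x2000010],[nat_lit 512,nat_lit 0x1100,
    nat_lit 0x101100,nat_lit 0x10100,nat_lit 0x110100,nat_lit 0x100100,nat_lit 0x1000100,nat_lit 0x1100100],
    [nat_lit 0x2000,nat_lit 0x12000,nat_lit 0x11000,nat_lit 0x21000,nat_lit 0x111000,nat_lit 0x1011000,
    nat_lit 0x101000],[nat_lit 0x20000,nat_lit 0x120000,nat_lit 0x1020000,nat_lit 0x110000,nat_lit 0x1110000,
    nat_lit 0x1010000],[nat_lit 0x200000,nat_lit 0x1100000],[nat_lit 0x2000000]]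
    [.c (nat_lit 1) (nat_lit 2),.r (nat_lit 32) (nat_lit 1) [nat_lit 0x303042,nat_lit 0x20001],
    .c (nat_lit 0) (nat_lit 0x25345),.r (nat_lit 0x1bd6) (nat_lit 4) [nat_lit 0x203452,nat_lit 0x302582],
    .c (nat_lit 3) (nat_lit 0x2232),.r (nat_lit 0x174e) (nat_lit 3) [nat_lit 0x30231,nat_lit 0x20001],
    .r (nat_lit 0x1c6f) (nat_lit 3) [nat_lit 0x243492,nat_lit 0x342582,nat_lit 0x253402],
    .c (nat_lit 5) (nat_lit 0x30304),.r (nat_lit 0x1a8e) (nat_lit 11) [nat_lit 0x2031,nat_lit 0x303021,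
    nat_lit 0x20001,nat_lit 33],.r (nat_lit 0x1ce2) (nat_lit 8) [nat_lit 0x30231,nat_lit 0x22321,nat_lit 0x20001],
    .r (nat_lit 0x174e) (nat_lit 3) [nat_lit 0x303042,nat_lit 0x20001],
    .r (nat_lit 0x1c6f) (nat_lit 3) [nat_lit 0x342582,nat_lit 0x243492,nat_lit 0x253402],
    .r (nat_lit 0x1c8a) (nat_lit 6) [nat_lit 0x20001,nat_lit 0x253402,nat_lit 0x342582],
    .c (nat_lit 0) (nat_lit 0x5345),.r (nat_lit 0x1ce1) (nat_lit 8) [nat_lit 0x2031,nat_lit 0x20001,nat_lit 33],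
    .r (nat_lit 0x1bd6) (nat_lit 4) [nat_lit 33,nat_lit 0x203492],.c (nat_lit 2) (nat_lit 2),
    .r (nat_lit 0x1149) (nat_lit 10) [nat_lit 0xc0001,nat_lit 0x595851,nat_lit 0x295851,nat_lit 0x242581],
    .r (nat_lit 0x1b04) (nat_lit 8) [nat_lit 33,nat_lit 0x20001],.r (nat_lit 32) (nat_lit 1) [nat_lit 0x30231,
    nat_lit 0x20001],.r (nat_lit 0x1c57) (nat_lit 4) [nat_lit 0x30021,nat_lit 0x203452,nat_lit 0x20001],
    .r (nat_lit 0x1bd6) (nat_lit 4) [nat_lit 0x243454,nat_lit 0x30021],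
    .r (nat_lit 0x1c80) (nat_lit 4) [nat_lit 0x20001,nat_lit 0x30021,nat_lit 0x203452],
    .r (nat_lit 0x1caf) (nat_lit 13) [nat_lit 0x20001,nat_lit 0x30021],.c (nat_lit 0) (nat_lit 0x35349),
    .c (nat_lit 3) (nat_lit 0x24654),.c (nat_lit 0) (nat_lit 0x35345),
    .r (nat_lit 0x1caf) (nat_lit 9) [nat_lit 0x20001,nat_lit 0x30021],.c (nat_lit 0) (nat_lit 0x35345),
    .r (nat_lit 0x1cb3) (nat_lit 8) [nat_lit 0x20001,nat_lit 0x353452,nat_lit 0x253402,nat_lit 0x2031],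
    .r (nat_lit 0x1b77) (nat_lit 9) [nat_lit 0x30021,nat_lit 0x203452,nat_lit 0x20001],
    .r (nat_lit 0x1c6f) (nat_lit 3) [nat_lit 0x40031,nat_lit 33,nat_lit 0x253402],.c (nat_lit 3) (nat_lit 2),
    .r (nat_lit 0x1c34) (nat_lit 4) [nat_lit 0x30021,nat_lit 0x20001,nat_lit 0x253042],
    .r (nat_lit 0x1b54) (nat_lit 0) [nat_lit 0x20001,nat_lit 0x22031,nat_lit 0x253402],
    .c (nat_lit 0) (nat_lit 0x35249),.c (nat_lit 1) (nat_lit 0x20304),.c (nat_lit 0) (nat_lit 515),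
    .r (nat_lit 0x1b54) (nat_lit 0) [nat_lit 0x20001,nat_lit 33,nat_lit 0x253402],
    .r (nat_lit 0x1c34) (nat_lit 4) [nat_lit 0x2031,nat_lit 0x20001,nat_lit 0x202052],.c (nat_lit 4) (nat_lit 2),
    .r (nat_lit 0x18ba) (nat_lit 2) [nat_lit 0x2001,nat_lit 0x253402,nat_lit 0x303002,nat_lit 0x383052],
    .r (nat_lit 0x1bdf) (nat_lit 8) [nat_lit 33,nat_lit 0x2321],.r (nat_lit 0x1cb3) (nat_lit 8) [nat_lit 0x20001,
    nat_lit 0x30021,nat_lit 0x253402,nat_lit 0x206542],.r (nat_lit 0x1caf) (nat_lit 9) [nat_lit 0x20001,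
    nat_lit 0x353452],.c (nat_lit 0) (nat_lit 0x3002),.r (nat_lit 0x1c22) (nat_lit 4) [nat_lit 0x30021,
    nat_lit 0x20001,nat_lit 0x253042],.c (nat_lit 5) (nat_lit 2),.c (nat_lit 1) (nat_lit 0x20002),
    .r (nat_lit 0x1caf) (nat_lit 13) [nat_lit 0x20001,nat_lit 0x353452],.c (nat_lit 0) (nat_lit 0x35349),
    .r (nat_lit 0x1c80) (nat_lit 4) [nat_lit 0x20001,nat_lit 0x353452,nat_lit 0x200021],
    .r (nat_lit 0x1c4d) (nat_lit 4) [nat_lit 0x20001,nat_lit 33,nat_lit 0x203042],.c (nat_lit 6) (nat_lit 2),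
    .r (nat_lit 0x1bce) (nat_lit 4) [nat_lit 0x20001,nat_lit 33,nat_lit 0x203042],.c (nat_lit 7) (nat_lit 2)]]

/-- nodes -/
noncomputable def rD7k_25_2 : List RJ :=
  [.l (nat_lit 16) (nat_lit 0x2058) (nat_lit 4) (nat_lit 0x10760000107600000ec500000ec500000eca00000eca00000e8f00000e8f00000d3a00000eea000010000000100000000d28000012f0) (nat_lit 0x27a0000027a0000042b0000042b0000042600000426000004610000046100000406000005b6000002f0000002f000000000000005c8)
    (nat_lit 0xac80dfc0eb70ce30c5006e00c7f0c150b9209fe0fb615f810760aae0dfc0ac80bd50c4b0eb00ed40c15091111260c940a6010a20fde0aae0c4b0ce308160a9a0da30b150890080407a3090f0bd5071f11f90c230bd50eb70a9a08160d2d0a9f0a6409f80abf0b730b810bd514350e5f0ed406e00a9f0b150b100aa4080507db0ac4091406780bda0c5e09560eb00c500d2d0da30aa40b100a690a690ce408520ba609d40eca090209110c1509f808040a6907db0af00a2e0c8f08d90b9f097f0e8f08fb0c150c7f0a6408900a6908050b3a0af00a6d08d90c4709e30f5106d90c9409fe0b73090f0852091408d908d90af006780c380a660cd006ca11260b920abf07a30ce40ac40a6d0c8f0ef00af00b1c0bfa0678087a10a215f80bd5071f09d40bda09e3097f0bfa0a660db8090410de0b160a600fb60b810bd50ba606780c470b9f0b1c0c380d640db810000a380aae0aae0e5f0c230902095606d908fb087a06ca0a380b160af8070c0fde1076143511f90eca0c5e0f510e8f06780cd0100010de12f00af8)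
    (nat_lit 0xac820582058205820582058205820582058205820582058205820580dfc0ac82058205820582058205820582058205820582058205820580eb70bd50816205820582058205820582058205820582058205820580ce30c4b0a9a081620582058205820582058205820582058205820580c500eb00da30d2d0b1020582058205820582058205820582058205806e00ed40b150a9f0aa40b10205820582058205820582058205820580c7f0c1508900a6408050a690af020582058205820582058205820580c150911080409f807db0a690a2e0af02058205820582058205820580b92112607a30abf0ac40ce40c8f0a6d0af02058205820582058205809fe0c94090f0b730914085208d908d906780af020582058205820580fb60a600bd50b8106780ba60b9f0c470c380b1c0db820582058205810b410a2071f0bd50bda09d4097f09e30a660bfa09040db82058205810760fde0f8711eb0c5e0eca0e8f0f510cd0067810de10000af820580aae0aae0c230e5f0956090208fb06d906ca087a0b160a38070c0af8)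
    (nat_lit 3) (nat_lit 47)
    [[nat_lit 2,nat_lit 258,nat_lit 17,nat_lit 257,nat_lit 513,nat_lit 0x1101,nat_lit 514,nat_lit 273,nat_lit 0x11101,
    nat_lit 0x10101,nat_lit 0x100101,nat_lit 0x1000101,nat_lit 0x1001,nat_lit 0x11001,nat_lit 0x10001,
    nat_lit 0x1000001,nat_lit 0x1010001],[nat_lit 32,nat_lit 0x10020,nat_lit 272,nat_lit 0x1110,nat_lit 0x100110,
    nat_lit 528,nat_lit 0x10110,nat_lit 0x1010,nat_lit 0x11010,nat_lit 0x101010,nat_lit 0x10010,nat_lit 0x20010,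
    nat_lit 0x110010,nat_lit 0x100010,nat_lit 0x200010,nat_lit 0x1010010,nat_lit 0x1100010],[nat_lit 512,
    nat_lit 0x1200,nat_lit 0x10200,nat_lit 0x100200,nat_lit 0x1100,nat_lit 0x11100,nat_lit 0x101100,nat_lit 0x2100,
    nat_lit 0x1001100,nat_lit 0x10100,nat_lit 0x20100,nat_lit 0x100100,nat_lit 0x110100,nat_lit 0x200100,
    nat_lit 0x1100100,nat_lit 0x1000100],[nat_lit 0x2000,nat_lit 0x12000,nat_lit 0x102000,nat_lit 0x11000,
    nat_lit 0x21000,nat_lit 0x111000,nat_lit 0x1011000,nat_lit 0x101000,nat_lit 0x201000,nat_lit 0x1001000],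
    [nat_lit 0x20000,nat_lit 0x110000,nat_lit 0x1010000],[nat_lit 0x200000,nat_lit 0x300000,nat_lit 0x1100000],
    [nat_lit 0x2000000]]
    [.c (nat_lit 1) (nat_lit 2),.r (nat_lit 0x1ba8) (nat_lit 4) [nat_lit 0x401,nat_lit 0x2001,nat_lit 0xa11],
    .r (nat_lit 0x1a91) (nat_lit 1) [nat_lit 0x2419,nat_lit 17],.r (nat_lit 0x196f) (nat_lit 4) [nat_lit 0x611,
    nat_lit 0x401,nat_lit 0x2001],.r (nat_lit 0x1ba3) (nat_lit 4) [nat_lit 0x401,nat_lit 0x2001,nat_lit 0x611],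
    .r (nat_lit 0x1bac) (nat_lit 5) [nat_lit 0x3099,nat_lit 0x24d1,nat_lit 0x2001],
    .r (nat_lit 0x1c42) (nat_lit 4) [nat_lit 0x401,nat_lit 0x2001],.r (nat_lit 0x1bb2) (nat_lit 9) [nat_lit 0x401,
    nat_lit 0x611,nat_lit 0x3681],.c (nat_lit 1) (nat_lit 0x49a),.r (nat_lit 0x1bae) (nat_lit 3) [nat_lit 0x3699,
    nat_lit 0x401,nat_lit 0x2001],.c (nat_lit 0) (nat_lit 194),.r (nat_lit 0x1c42) (nat_lit 4) [nat_lit 0x401,
    nat_lit 0x2001],.r (nat_lit 0x1b9f) (nat_lit 7) [nat_lit 0x611,nat_lit 0x2001,nat_lit 0x401],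
    .r (nat_lit 0x1cdb) (nat_lit 5) [nat_lit 0x419,nat_lit 17],.r (nat_lit 0x1ba2) (nat_lit 12) [nat_lit 0x2001,
    nat_lit 0x24d1,nat_lit 0x3099],.r (nat_lit 0x174f) (nat_lit 5) [nat_lit 0x2419,nat_lit 17],
    .r (nat_lit 0x1c42) (nat_lit 4) [nat_lit 0x401,nat_lit 0x2001],.c (nat_lit 2) (nat_lit 2),
    .r (nat_lit 0x1aa1) (nat_lit 9) [nat_lit 0x401,nat_lit 0x3681,nat_lit 0x24d1],
    .r (nat_lit 0x1ba7) (nat_lit 9) [nat_lit 0x2019,nat_lit 17,nat_lit 0x401],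
    .r (nat_lit 0x1c42) (nat_lit 4) [nat_lit 0x401,nat_lit 0x2001],.r (nat_lit 0x1cdb) (nat_lit 12) [nat_lit 0x419,
    nat_lit 17],.r (nat_lit 0x1bf5) (nat_lit 8) [nat_lit 17,nat_lit 0x401,nat_lit 0x2001],
    .r (nat_lit 0x1bab) (nat_lit 3) [nat_lit 0x3699,nat_lit 0x401,nat_lit 0x2001],
    .r (nat_lit 0x1baf) (nat_lit 1) [nat_lit 0x2019,nat_lit 0x401,nat_lit 17],
    .r (nat_lit 0x1b64) (nat_lit 1) [nat_lit 0x401,nat_lit 0x2019,nat_lit 0x3681],
    .r (nat_lit 0x1b0e) (nat_lit 1) [nat_lit 0x401,nat_lit 0x2019,nat_lit 0x3681],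
    .r (nat_lit 0x196a) (nat_lit 9) [nat_lit 0x401,nat_lit 0x24d1,nat_lit 0x699],
    .r (nat_lit 0x1c42) (nat_lit 4) [nat_lit 0x401,nat_lit 0x2001],.r (nat_lit 0x1cdb) (nat_lit 1) [nat_lit 0x2019,
    nat_lit 17],.r (nat_lit 0x174f) (nat_lit 5) [nat_lit 17,nat_lit 0x2419],
    .r (nat_lit 0x1c42) (nat_lit 4) [nat_lit 0x401,nat_lit 0x2001],.c (nat_lit 0) (nat_lit 0x602),
    .c (nat_lit 0) (nat_lit 0x6c2),.c (nat_lit 3) (nat_lit 2),.c (nat_lit 0) (nat_lit 0xb63),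
    .c (nat_lit 0) (nat_lit 0xb63),.r (nat_lit 0x1c42) (nat_lit 4) [nat_lit 0x401,nat_lit 0x2001],
    .c (nat_lit 0) (nat_lit 0x6d3),.c (nat_lit 0) (nat_lit 0x6d3),.r (nat_lit 0x1b64) (nat_lit 12) [nat_lit 0x2001,
    nat_lit 0x419,nat_lit 0x3681],.c (nat_lit 0) (nat_lit 0xb63),.r (nat_lit 0x1cdb) (nat_lit 9) [nat_lit 0x2019,
    nat_lit 17],.c (nat_lit 0) (nat_lit 0x6d3),.c (nat_lit 0) (nat_lit 0xb63),
    .r (nat_lit 0x196a) (nat_lit 5) [nat_lit 0x2001,nat_lit 0x24d1,nat_lit 0x3099],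
    .r (nat_lit 0x1bab) (nat_lit 7) [nat_lit 0x3699,nat_lit 0x2001,nat_lit 0x401],
    .r (nat_lit 0x1aa1) (nat_lit 5) [nat_lit 0x2001,nat_lit 0x3681,nat_lit 0x24d1],
    .r (nat_lit 0x1c42) (nat_lit 4) [nat_lit 0x401,nat_lit 0x2001],.r (nat_lit 0x1ba2) (nat_lit 1) [nat_lit 0x401,
    nat_lit 0x24d1,nat_lit 0x699],.c (nat_lit 4) (nat_lit 2),.c (nat_lit 0) (nat_lit 0xb63),
    .r (nat_lit 0x1ba9) (nat_lit 3) [nat_lit 0x611,nat_lit 0x401,nat_lit 0x2001],.c (nat_lit 0) (nat_lit 0x6d3),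
    .c (nat_lit 0) (nat_lit 0xb63),.r (nat_lit 0x1c42) (nat_lit 4) [nat_lit 0x401,nat_lit 0x2001],
    .r (nat_lit 0x1bac) (nat_lit 9) [nat_lit 0x699,nat_lit 0x24d1,nat_lit 0x401],
    .r (nat_lit 0x1baf) (nat_lit 12) [nat_lit 0x419,nat_lit 0x2001,nat_lit 17],
    .r (nat_lit 0x1b92) (nat_lit 12) [nat_lit 0x819,nat_lit 0x2001,nat_lit 17],
    .r (nat_lit 0x1b9f) (nat_lit 3) [nat_lit 0x3011,nat_lit 0x401,nat_lit 0x2001],.c (nat_lit 5) (nat_lit 2),
    .r (nat_lit 0x1ba7) (nat_lit 5) [nat_lit 0x419,nat_lit 17,nat_lit 0x2001],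
    .r (nat_lit 0x196f) (nat_lit 1) [nat_lit 0x2019,nat_lit 17,nat_lit 0x401],.c (nat_lit 6) (nat_lit 2),
    .r (nat_lit 0x1c42) (nat_lit 4) [nat_lit 0x401,nat_lit 0x2001],.r (nat_lit 0x1a91) (nat_lit 1) [nat_lit 17,
    nat_lit 0x2419],.c (nat_lit 7) (nat_lit 2)],
    .l (nat_lit 12) (nat_lit 960) (nat_lit 6) (nat_lit 0x13c00000200000001aa000001aa000001a4000001a4000001b5000001b5000001c4000001c4000001b0000001b0000001aa00000188) (nat_lit 0xc400000056000000560000005c0000005c0000004b0000004b0000003c0000003c00000050000000500000007800000056)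
    (nat_lit 0x1480780e60da0e00e00f10f10d81000de0ec0c40be20c1481aa1aa1a41a41b51b51601c41b01b01940781aa0da15414814e14e15f15f16e16e28c1be1261541aa0e615415414214e09b15f17810020213413215c1a40e014e14e1481481c716518e22c14c14a12c0a61a40e014214e1481481bb15919423215415412c0f81b50f115f15f1591650a016a1791171bb13913d15f1b50f109b15f1bb1c716a0a016b1791e716513d15f1c410010016e23222c17911718818817418214c0ec1600d817816e19418e16b17918818817417414c16e1b00ec1341be15414a16513917418216016016015a1b00de20228c15414c1e71bb17417414416016015a0780be15c1540f80a615f15f16e0ec15a15a1401701940c413212612c12c13d13d14c14c160160110140)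
    (nat_lit 0x1483c03c03c03c03c03c03c03c03c03c03c03c03c00781483c03c03c03c03c03c03c03c03c03c03c03c00e61aa1543c03c03c03c03c03c03c03c03c03c03c00da1aa1481543c03c03c03c03c03c03c03c03c03c00e01a414e1421483c03c03c03c03c03c03c03c03c00e01a414e14e1481483c03c03c03c03c03c03c03c00f11b515f09b1c71bb0a03c03c03c03c03c03c03c00f11b515f15f16515916a0a03c03c03c03c03c03c00d816016e17818e19417916b1883c03c03c03c03c01001c416e10022c2321171791881883c03c03c03c00de1b028820214c1541bb1e71741741603c03c03c00ec1b01be13414a1541391651821741601603c03c00c419412613212c12c13d13d14c14c16016013c3c00be07815215c0a60f815f15f0ec15015a15613613c)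
    (nat_lit 5) (nat_lit 197)
    [[nat_lit 2,nat_lit 0x1000003,nat_lit 0x2000003,nat_lit 258,nat_lit 0x10002,nat_lit 0x1000002,nat_lit 0x1000102,
    nat_lit 0x20002,nat_lit 0x1010002,nat_lit 0x1100002,nat_lit 0x2000002,nat_lit 0x3000003,nat_lit 17,
    nat_lit 0x10011,nat_lit 0x1000011,nat_lit 257,nat_lit 0x10101,nat_lit 0x1000101,nat_lit 0x2000101,
    nat_lit 0x100101,nat_lit 0x1100101,nat_lit 0x1001,nat_lit 0x1001002,nat_lit 0x1101,nat_lit 0x2001,
    nat_lit 0x1002001,nat_lit 0x11001,nat_lit 0x101001,nat_lit 0x1101001,nat_lit 0x1001001,nat_lit 0x1001101,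
    nat_lit 0x10001,nat_lit 0x20001,nat_lit 0x1010001,nat_lit 0x100001,nat_lit 0x100011,nat_lit 0x1100011,
    nat_lit 0x110001,nat_lit 0x1100001,nat_lit 0x1000001,nat_lit 0x2000001],[nat_lit 32,nat_lit 272,nat_lit 0x1010,
    nat_lit 0x10010,nat_lit 0x1000010,nat_lit 0x1100010],[nat_lit 512,nat_lit 0x1100,nat_lit 0x2100,nat_lit 0x101100,
    nat_lit 0x100100,nat_lit 0x1000100,nat_lit 0x1001100,nat_lit 0x1100100,nat_lit 0x2000100],[nat_lit 0x2000,
    nat_lit 0x3000,nat_lit 0x4000,nat_lit 0x5000,nat_lit 0x103000,nat_lit 0x102000,nat_lit 0x1002000,nat_lit 0x11000,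
    nat_lit 0x101000,nat_lit 0x111000,nat_lit 0x201000,nat_lit 0x1101000,nat_lit 0x1001000],[nat_lit 0x20000,
    nat_lit 0x110000,nat_lit 0x1010000],[nat_lit 0x200000,nat_lit 0x1100000],[nat_lit 0x2000000]]
    [.c (nat_lit 1) (nat_lit 2),.r (nat_lit 544) (nat_lit 8) [nat_lit 0xca53a121,nat_lit 65,nat_lit 0x88442501,
    nat_lit 0x8c442502,nat_lit 0x63290a2],.r (nat_lit 0) (nat_lit 8) [nat_lit 0x8c442482,nat_lit 0x10001],
    .c (nat_lit 0) (nat_lit 0x651a505),.r (nat_lit 32) (nat_lit 13) [nat_lit 0xc604a0a4,nat_lit 0x10001],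
    .c (nat_lit 0) (nat_lit 0x6529d05),.c (nat_lit 0) (nat_lit 0x651a505),.c (nat_lit 0) (nat_lit 0x300002),
    .r (nat_lit 0x174b) (nat_lit 8) [nat_lit 0x10001,nat_lit 0x4200002,nat_lit 65],
    .r (nat_lit 0x1c15) (nat_lit 1) [nat_lit 0x10001,nat_lit 0x4200002,nat_lit 0xce54a0a2],
    .c (nat_lit 0) (nat_lit 0x6529d05),.r (nat_lit 10) (nat_lit 13) [nat_lit 0x19ccc6502,nat_lit 0x1dabae122],
    .r (nat_lit 0x1bec) (nat_lit 13) [nat_lit 65,nat_lit 0x4200002],.c (nat_lit 0) (nat_lit 0x300c04),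
    .r (nat_lit 10) (nat_lit 13) [nat_lit 0xc6502122,nat_lit 0x88622502],.c (nat_lit 0) (nat_lit 0x651a505),
    .c (nat_lit 0) (nat_lit 0x318004),.c (nat_lit 4) (nat_lit 0x42010a4),.c (nat_lit 0) (nat_lit 0x651a505),
    .r (nat_lit 0) (nat_lit 8) [nat_lit 0x4300082,nat_lit 0x10001],.r (nat_lit 10) (nat_lit 13) [nat_lit 0x8c042502,
    nat_lit 0xca22a122],.c (nat_lit 0) (nat_lit 0x319485),.c (nat_lit 1) (nat_lit 0x2110a4),
    .c (nat_lit 0) (nat_lit 0x301c85),.c (nat_lit 0) (nat_lit 0x319483),.c (nat_lit 4) (nat_lit 0x2110a4),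
    .r (nat_lit 32) (nat_lit 13) [nat_lit 0x18861,nat_lit 0x10001],.r (nat_lit 0x1caf) (nat_lit 3) [nat_lit 0x10001,
    nat_lit 0x18041],.c (nat_lit 2) (nat_lit 0x318085),.c (nat_lit 0) (nat_lit 0x319485),
    .c (nat_lit 3) (nat_lit 0x2110a4),.r (nat_lit 0) (nat_lit 8) [nat_lit 65,nat_lit 0x10001],
    .c (nat_lit 0) (nat_lit 0x300002),.r (nat_lit 10) (nat_lit 13) [nat_lit 0x84442502,nat_lit 0xc032a122],
    .r (nat_lit 0x1c1e) (nat_lit 12) [nat_lit 0x18041,nat_lit 0x10001,nat_lit 0x4200002],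
    .c (nat_lit 0) (nat_lit 0xc02),.c (nat_lit 4) (nat_lit 0x318085),
    .r (nat_lit 0x1c15) (nat_lit 12) [nat_lit 0x10001,nat_lit 0x4200002,nat_lit 0x6328082],
    .r (nat_lit 0x1b47) (nat_lit 13) [nat_lit 0x4200002,nat_lit 0x10061,nat_lit 0x6329002],
    .c (nat_lit 0) (nat_lit 0x6529d09),.c (nat_lit 0) (nat_lit 0x6529d05),.c (nat_lit 2) (nat_lit 2),
    .r (nat_lit 10) (nat_lit 13) [nat_lit 0x42200a2,nat_lit 65],.r (nat_lit 0x1ce4) (nat_lit 3) [nat_lit 65,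
    nat_lit 0x4200002],.c (nat_lit 0) (nat_lit 0x300c04),.r (nat_lit 0x174b) (nat_lit 8) [nat_lit 0x10001,
    nat_lit 0x4200002,nat_lit 0xc652a0a2],.c (nat_lit 0) (nat_lit 0xc02),.c (nat_lit 3) (nat_lit 2),
    .c (nat_lit 0) (nat_lit 0x4021c09),.c (nat_lit 3) (nat_lit 0x6010004),.c (nat_lit 0) (nat_lit 0x4030009),
    .c (nat_lit 0) (nat_lit 0x10003),.c (nat_lit 0) (nat_lit 0x651a505),.c (nat_lit 0) (nat_lit 0x301485),
    .r (nat_lit 0x1cdb) (nat_lit 0) [nat_lit 0x42000a2,nat_lit 65],.c (nat_lit 0) (nat_lit 0x651a505),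
    .c (nat_lit 4) (nat_lit 2),.c (nat_lit 0) (nat_lit 0xc001c09),.c (nat_lit 3) (nat_lit 0x6010002),
    .r (nat_lit 0x1ce4) (nat_lit 3) [nat_lit 0xc0010041,nat_lit 0x4200002],.c (nat_lit 0) (nat_lit 0x4000003),
    .c (nat_lit 0) (nat_lit 0x4000003),.c (nat_lit 0) (nat_lit 0x319483),.c (nat_lit 0) (nat_lit 0x4200005),
    .c (nat_lit 0) (nat_lit 0x4000003),.r (nat_lit 0x1ce4) (nat_lit 3) [nat_lit 0x840200a2,nat_lit 0x4200002],
    .r (nat_lit 0xeb4) (nat_lit 2) [nat_lit 0x30001,nat_lit 0x80600122,nat_lit 0x80000061,nat_lit 0xcc000102],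
    .r (nat_lit 0x1b4a) (nat_lit 4) [nat_lit 0x63290a2,nat_lit 0x10001,nat_lit 0x4200002],
    .c (nat_lit 0) (nat_lit 0x319485),.c (nat_lit 5) (nat_lit 2),.r (nat_lit 10) (nat_lit 13) [nat_lit 65,
    nat_lit 0x42200a2],.r (nat_lit 0x1cdb) (nat_lit 0) [nat_lit 0x4000061,nat_lit 0x6200082],
    .c (nat_lit 6) (nat_lit 2),.r (nat_lit 0x1bec) (nat_lit 11) [nat_lit 65,nat_lit 0x4200002],
    .c (nat_lit 7) (nat_lit 2)]]

/-- nodes -/
noncomputable def rD7k_25_3 : List RJ :=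
  [.l (nat_lit 13) (nat_lit 0x438) (nat_lit 4) (nat_lit 0x27d0000027d0000025c000002a60000020700000207000001da000001da000001f0000001f0000001f5000001f5000001c2000001ca) (nat_lit 0x2900000029000000000000004a0000009f0000009f000000cc000000cc000000b6000000b6000000b1000000b1000000dc000000e4)
    (nat_lit 0x12a07f84fa2330d80b403da1c10e8866434c1cc0d085c44a825413e88cc2d028813b892c2a60f91360a4834212d11988cc36421209186f44bc206070038042e21f0c003604fa27d15206c84be20711907684381f010c88841b01c21440b4040e1bd0b405a82760e309283e42ac12a09583fc2d01b012f848c2cc16809d84ec2a21510ac05f823612312587043b420609d838c21c11007e049025212909603d04ee1ed119097827613b08604381fc12409483d42580f607c86643e00e00a883e42481240b704f027e16506c04302a61d110e03802a212507f03f034c16e09f84fc228148149073044221f0bf04a81ea12909f85942100d808784444d81a610c885c2b015609484a427e13f071042028211109685c43840d809183fc1ec0f40a4043022211108605003421a106c060023612b09604b02280d80a0843c28810c)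
    (nat_lit 0x12a10e087043821c10e087043821c10e087043821c10e03fc25421c10e087043821c10e087043821c10e087043813e89f436443821c10e087043821c10e087043821c10e046623310906c887043821c10e087043821c10e08704380d805a024625f0b410e087043821c10e087043821c10e05a02880de881c2d416821c10e087043821c10e08704380f689dc4bc23209d84ec21c43821c10e087043821c10e038224b10307681c613b088043887043821c10e08704380e8854c1c021c09285441f80fe0b710e087043821c10e03320f907007c01f2151092049027816e21c10e08704380d308e042e2190ab056025212909f84fc21043821c10e039823810f888425417e09483d42ca13f06c04208704380d086843000d8095846c25812c06c045021e14108610e02e212d06c07081fe12307a03d8218148088844428010c)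
    (nat_lit 6) (nat_lit 294)
    [[nat_lit 2,nat_lit 3,nat_lit 4,nat_lit 0x10003,nat_lit 0x100003,nat_lit 18,nat_lit 34,nat_lit 0x1012,nat_lit 258,
    nat_lit 274,nat_lit 0x1102,nat_lit 0x10102,nat_lit 0x1002,nat_lit 0x10002,nat_lit 0x11002,nat_lit 0x100002,
    nat_lit 0x100102,nat_lit 0x110002,nat_lit 0x1000002,nat_lit 17,nat_lit 0x100012,nat_lit 33,nat_lit 49,
    nat_lit 0x1021,nat_lit 273,nat_lit 0x1011,nat_lit 0x10011,nat_lit 0x100011,nat_lit 0x1000011,nat_lit 257,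
    nat_lit 289,nat_lit 0x1111,nat_lit 513,nat_lit 0x1101,nat_lit 0x1201,nat_lit 0x2101,nat_lit 0x11101,
    nat_lit 0x10101,nat_lit 0x100101,nat_lit 0x1000101,nat_lit 0x1001,nat_lit 0x101002,nat_lit 0x2001,nat_lit 0x11001,
    nat_lit 0x101001,nat_lit 0x1001001,nat_lit 0x10001,nat_lit 0x20001,nat_lit 0x110001,nat_lit 0x1010001,
    nat_lit 0x20002,nat_lit 0x11011,nat_lit 0x12001,nat_lit 0x100001,nat_lit 0x200002,nat_lit 0x100111,
    nat_lit 0x101101,nat_lit 0x110101,nat_lit 0x100201,nat_lit 0x1100101,nat_lit 0x110011,nat_lit 0x111001,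
    nat_lit 0x200001,nat_lit 0x1000001],[nat_lit 32,nat_lit 48,nat_lit 64,nat_lit 0x1030,nat_lit 288,nat_lit 0x1020,
    nat_lit 0x2020,nat_lit 0x10020,nat_lit 272,nat_lit 528,nat_lit 0x1110,nat_lit 0x10110,nat_lit 0x1000110,
    nat_lit 0x1010,nat_lit 0x2010,nat_lit 0x11010,nat_lit 0x10010,nat_lit 0x20010],[nat_lit 512,nat_lit 0x1200,
    nat_lit 0x10200,nat_lit 0x1100,nat_lit 0x2100,nat_lit 0x11100,nat_lit 0x101100,nat_lit 0x1001100,nat_lit 0x10100,
    nat_lit 0x20100,nat_lit 0x1010100,nat_lit 0x100100,nat_lit 0x1000100],[nat_lit 0x2000,nat_lit 0x3000,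
    nat_lit 0x12000,nat_lit 0x11000,nat_lit 0x21000],[nat_lit 0x20000,nat_lit 0x110000],[nat_lit 0x200000],[]]
    [.c (nat_lit 1) (nat_lit 2),.r (nat_lit 0x1749) (nat_lit 1) [nat_lit 129,nat_lit 0x60001800c1,nat_lit 0x2000001],
    .r (nat_lit 0x1ce4) (nat_lit 4) [nat_lit 0x140082,nat_lit 0x2000001],
    .r (nat_lit 347) (nat_lit 8) [nat_lit 0x40c3204141,nat_lit 0x2000080001,nat_lit 0x5084245101,nat_lit 0x2000000001,
    nat_lit 0x70001c0081],.r (nat_lit 348) (nat_lit 0) [nat_lit 0x1c0081,nat_lit 0x200000001,nat_lit 0x80081,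
    nat_lit 0x248000001,nat_lit 0x80001800c1],.c (nat_lit 0) (nat_lit 0x1430c0103),
    .r (nat_lit 8) (nat_lit 5) [nat_lit 130,nat_lit 0x2000000001],.r (nat_lit 8) (nat_lit 5) [nat_lit 0x30000c0081,
    nat_lit 0x2000000001],.c (nat_lit 0) (nat_lit 0x243240205),.r (nat_lit 0x1c95) (nat_lit 3) [nat_lit 0x30030020c1,
    nat_lit 0x20000800c1,nat_lit 0xc0081],.c (nat_lit 0) (nat_lit 0xc2083),.c (nat_lit 1) (nat_lit 0x800800c2),
    .c (nat_lit 1) (nat_lit 0xc0003002),.c (nat_lit 0) (nat_lit 0x143140103),.c (nat_lit 0) (nat_lit 0x30c4105),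
    .r (nat_lit 0x1748) (nat_lit 9) [nat_lit 0x60001000c1,nat_lit 0x80081,nat_lit 0x2000001],
    .r (nat_lit 0x174c) (nat_lit 0) [nat_lit 0x2000001,nat_lit 0x20030820c1,nat_lit 129],
    .r (nat_lit 0x1957) (nat_lit 0) [nat_lit 0x80001,nat_lit 0x2000000001,nat_lit 0x2000001,nat_lit 0x50c50040c1],
    .r (nat_lit 0x1ca9) (nat_lit 12) [nat_lit 0xc0000082,nat_lit 0x50c00040c2,nat_lit 0x80000001],
    .c (nat_lit 0) (nat_lit 0x143000105),.r (nat_lit 0x1183) (nat_lit 4) [nat_lit 0x6000001,nat_lit 0x83140081,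
    nat_lit 0x70c50c60c1,nat_lit 0x60c21000c1],.r (nat_lit 350) (nat_lit 8) [nat_lit 0x4000001,nat_lit 0x9000101,
    nat_lit 0x9140101,nat_lit 0x50c4004141,nat_lit 0x4008100141],.r (nat_lit 351) (nat_lit 8) [nat_lit 0x4000001,
    nat_lit 0xd000101,nat_lit 0xd140101,nat_lit 0x50c8004141,nat_lit 0x400c100141],
    .r (nat_lit 352) (nat_lit 4) [nat_lit 0x4008100141,nat_lit 0x8000000001,nat_lit 0xf1451c80c1,nat_lit 0x31050c0081,
    nat_lit 0x5000140101],.r (nat_lit 0x19bb) (nat_lit 10) [nat_lit 0x2002003081,nat_lit 0x30000020c1,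
    nat_lit 0x2080003081,nat_lit 0x2000000001],.c (nat_lit 2) (nat_lit 0xc0003002),
    .c (nat_lit 3) (nat_lit 0x820000c2),.r (nat_lit 353) (nat_lit 10) [nat_lit 0x40000800c1,nat_lit 0x50c30c40c1,
    nat_lit 0xc0081,nat_lit 0x4000001,nat_lit 0x80081],.c (nat_lit 4) (nat_lit 0x80082003),
    .c (nat_lit 0) (nat_lit 0x102004005),.r (nat_lit 354) (nat_lit 8) [nat_lit 0x4000001,nat_lit 0xc9000101,
    nat_lit 0xc9140101,nat_lit 0x5004004141,nat_lit 0x4088100141],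
    .r (nat_lit 0x1ca3) (nat_lit 11) [nat_lit 0x30000c0081,nat_lit 0x820c1,nat_lit 0x30c0001],
    .c (nat_lit 0) (nat_lit 0x142140105),.c (nat_lit 3) (nat_lit 0xc0003002),.c (nat_lit 2) (nat_lit 0xc3083002),
    .r (nat_lit 0x1ca9) (nat_lit 12) [nat_lit 0x40001000c1,nat_lit 0x70c0142081,nat_lit 0x80000001],
    .c (nat_lit 4) (nat_lit 0x800800c2),.c (nat_lit 0) (nat_lit 0xc00c0083),
    .r (nat_lit 8) (nat_lit 13) [nat_lit 0x30020c1,nat_lit 0x2000001],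
    .r (nat_lit 0x1ca9) (nat_lit 12) [nat_lit 0xc0000081,nat_lit 0x30000020c1,nat_lit 0x80000001],
    .c (nat_lit 0) (nat_lit 0x80002003),.c (nat_lit 4) (nat_lit 0x180004003),.c (nat_lit 4) (nat_lit 0xc0003002),
    .c (nat_lit 5) (nat_lit 0xc0003002),.c (nat_lit 4) (nat_lit 0x100002003),.c (nat_lit 2) (nat_lit 0x80082003),
    .c (nat_lit 0) (nat_lit 0x1430c0105),.c (nat_lit 0) (nat_lit 0x143140103),
    .r (nat_lit 0x1ca9) (nat_lit 12) [nat_lit 0x2002083081,nat_lit 0x50c30c40c1,nat_lit 0x80000001],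
    .r (nat_lit 0x1ca3) (nat_lit 11) [nat_lit 0x30000020c1,nat_lit 129,nat_lit 0x30c0001],
    .c (nat_lit 0) (nat_lit 0x1430c0103),.r (nat_lit 0x1ca9) (nat_lit 12) [nat_lit 0xc00820c1,nat_lit 0x30000c0081,
    nat_lit 0x80000001],.r (nat_lit 8) (nat_lit 13) [nat_lit 0x30000c0081,nat_lit 0x2000001],
    .r (nat_lit 0x1ce4) (nat_lit 4) [nat_lit 129,nat_lit 0x2000001],.c (nat_lit 4) (nat_lit 0x200004003),
    .r (nat_lit 355) (nat_lit 8) [nat_lit 0x8086109101,nat_lit 0x70c50c60c1,nat_lit 0x90c5148141,nat_lit 0x70c51460c1,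
    nat_lit 0x8084107081],.c (nat_lit 5) (nat_lit 0xc0083),.c (nat_lit 4) (nat_lit 0xc0083),
    .r (nat_lit 353) (nat_lit 10) [nat_lit 0x40830800c1,nat_lit 0x50050c40c1,nat_lit 0xc20c0081,nat_lit 0x4000001,
    nat_lit 0xc2080081],.c (nat_lit 0) (nat_lit 0x3004004),.c (nat_lit 5) (nat_lit 0x1430c3103),
    .c (nat_lit 3) (nat_lit 0xc0083),.c (nat_lit 4) (nat_lit 0x180002003),
    .r (nat_lit 0x1bec) (nat_lit 2) [nat_lit 129,nat_lit 0x2000000001],.c (nat_lit 2) (nat_lit 2),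
    .r (nat_lit 0x1ca3) (nat_lit 11) [nat_lit 0x83000082,nat_lit 0x50c20040c2,nat_lit 0x30c0001],
    .r (nat_lit 352) (nat_lit 4) [nat_lit 0x80000c1,nat_lit 0x8000000001,nat_lit 0x212494500c2,nat_lit 0x209000082,
    nat_lit 129],.r (nat_lit 356) (nat_lit 8) [nat_lit 0x4000001,nat_lit 0x400c100141,nat_lit 0x400c000141,
    nat_lit 0x90d1144101,nat_lit 0xd000101],.r (nat_lit 357) (nat_lit 4) [nat_lit 0x88000141,nat_lit 0xa000000001,
    nat_lit 0x151472ca0c1,nat_lit 0x105000081,nat_lit 0xc2000101],.r (nat_lit 0x1962) (nat_lit 1) [nat_lit 0x40000c1,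
    nat_lit 129,nat_lit 0x105000081],.r (nat_lit 0x1bec) (nat_lit 2) [nat_lit 0x40041000c2,nat_lit 0x2000000001],
    .r (nat_lit 358) (nat_lit 8) [nat_lit 0x4000001,nat_lit 0x50c4004141,nat_lit 0x50c4144141,nat_lit 0x9000101,
    nat_lit 0x8085105101],.r (nat_lit 2) (nat_lit 4) [nat_lit 0x2000080001,nat_lit 129],
    .c (nat_lit 2) (nat_lit 0x3080002),.r (nat_lit 358) (nat_lit 8) [nat_lit 0x4000001,nat_lit 0x4084100141,
    nat_lit 0x4084000141,nat_lit 0x9149144101,nat_lit 0xc5000101],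
    .r (nat_lit 0x1750) (nat_lit 5) [nat_lit 0x30000c20c1,nat_lit 0x4002083081],.c (nat_lit 0) (nat_lit 0x30c0004),
    .r (nat_lit 0x1750) (nat_lit 5) [nat_lit 0x20020000c1,nat_lit 129],
    .r (nat_lit 0x1ca9) (nat_lit 12) [nat_lit 0x40c21000c2,nat_lit 0x90c3144082,nat_lit 0x80000001],
    .r (nat_lit 0x1957) (nat_lit 0) [nat_lit 0x80001,nat_lit 0x2000000001,nat_lit 0x2000001,nat_lit 0x3003000081],
    .c (nat_lit 0) (nat_lit 0x143000105),.c (nat_lit 4) (nat_lit 0x202084142),.c (nat_lit 3) (nat_lit 2),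
    .r (nat_lit 0x1750) (nat_lit 5) [nat_lit 0x20800000c1,nat_lit 0xc2000081],.c (nat_lit 0) (nat_lit 0x142140105),
    .c (nat_lit 0) (nat_lit 0x102004005),.r (nat_lit 0x1957) (nat_lit 0) [nat_lit 0x80001,nat_lit 0x2000000001,
    nat_lit 0x2000001,nat_lit 0x70c30c2081],.c (nat_lit 4) (nat_lit 0x1000820c2),.c (nat_lit 0) (nat_lit 0xc0000002),
    .c (nat_lit 0) (nat_lit 0x1430c3082),.c (nat_lit 0) (nat_lit 0xc00c0083),.c (nat_lit 0) (nat_lit 0x243240205),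
    .r (nat_lit 8) (nat_lit 5) [nat_lit 0x30000020c1,nat_lit 0x2000000001],.c (nat_lit 0) (nat_lit 0xc00c3083),
    .c (nat_lit 0) (nat_lit 0x2000003),.c (nat_lit 4) (nat_lit 2),.r (nat_lit 0x1748) (nat_lit 9) [nat_lit 129,
    nat_lit 0x60001800c1,nat_lit 0x2000001],.r (nat_lit 0x174c) (nat_lit 0) [nat_lit 0x2000001,nat_lit 129,
    nat_lit 0x20030820c1],.c (nat_lit 0) (nat_lit 0x3144105),.r (nat_lit 0x1183) (nat_lit 4) [nat_lit 0x6000001,
    nat_lit 0x30051440c1,nat_lit 0x50030c2081,nat_lit 0x8004105081],.c (nat_lit 5) (nat_lit 2),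
    .c (nat_lit 0) (nat_lit 0x1430c5105),.c (nat_lit 6) (nat_lit 2)]]

/-- nodes -/
noncomputable def rD7k_25_4 : List RJ :=
  [.l (nat_lit 15) (nat_lit 0x13b0) (nat_lit 7) (nat_lit 0x7fa00000cfe00000b7000000b7000000b6600000b660000093d0000093d00000a1c00000a1c000007830000084f00000ac500000835) (nat_lit 0x5040000018e0000018e0000019800000198000003c1000003c1000002e2000002e2000004af0000057b000004c900000239)
    (nat_lit 0x13700f8042006ec081c2030271833905880f6813b827f0662120c75e09b819882dc02360b660daa24f43ba085e109e1e0c3da827716e01bb04f1082413b022104b68ea9111c2bd8787889d09d224dc662084010f0278859609d80a0e290c45c0b221626128427e868f16cc20304ec08840e742ce0288865113b02cb04af85c10992136c236040e16582760507073a0d221e9444209d80d6e0c5c3ce892d127a0ce45218ea90f4a1944214053c125e1dbc24703c20d901c1036a84e30a0e25b434885110ba410a040c865b06f40f082d9070410bc0f685910af613b02cb032d876f0e741b902b682e3095223dc3ba02c41170223844209d8103224bc35d073a0ada12842a988390f0609fc250889d062e17041e103c209420b8c13f02880a1c1528427827716263c3c35b895f06f412382b6856d04ec09f8262061604ee120c3478937125a136c3820704107223dc30b054a0da026d83da833109fa13a43ce84c90b641b202a984a90988143814106d0)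
    (nat_lit 0x13704ec09d813b027604ec09d813b027604ec09d813b027604ec01f009b827604ec09d813b027604ec09d813b027604ec09d813b0108033104f113b027604ec09d813b027604ec09d813b027604ec03760b70104827889d813b027604ec09d813b027604ec09d813b0081c11b04ec0b2c0e744ec09d813b027604ec09d813b027604ec04060b661108276059c073a27604ec09d813b027604ec09d813b009c61b544b685070a221a4421413b027604ec09d813b027604ec019c893d1d52290c32887a50a7810a09d813b027604ec09d813b005881dd044708b813b01cc049788190e744ec09d813b027604ec01ed085e15ec2c8859608460ede196c372073a27604ec09d813b004ee213c6f3899512be1adc247037a0ada15b413f13b027604ec013f8783113a12842e0831707840f0817184a1051009f89d813b006621ed427484fd09921e7436405b20952154c28704c40b504ec02418277126e1a3c26d86850b601c10328853b09ec13b837d05a8)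
    (nat_lit 7) (nat_lit 738)
    [[nat_lit 2,nat_lit 0x1000003,nat_lit 3,nat_lit 0x1000013,nat_lit 0x2000013,nat_lit 0x2000003,nat_lit 18,
    nat_lit 0x1000022,nat_lit 34,nat_lit 0x1000012,nat_lit 0x10012,nat_lit 0x1000102,nat_lit 0x1002,nat_lit 0x1001002,
    nat_lit 0x1010012,nat_lit 0x1010002,nat_lit 0x10002,nat_lit 0x100002,nat_lit 0x1000002,nat_lit 50,
    nat_lit 0x1000032,nat_lit 0x1001022,nat_lit 0x1000122,nat_lit 0x10022,nat_lit 0x1000112,nat_lit 0x1012,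
    nat_lit 0x1001012,nat_lit 0x1002002,nat_lit 0x1010022,nat_lit 0x1011012,nat_lit 0x1011002,nat_lit 0x2010003,
    nat_lit 0x2010012,nat_lit 0x2010002,nat_lit 0x1100002,nat_lit 0x2000004,nat_lit 0x2000103,nat_lit 0x2000012,
    nat_lit 0x2001002,nat_lit 0x2000002,nat_lit 0x3000013,nat_lit 0x3000003,nat_lit 0x2000032,nat_lit 0x2001022,
    nat_lit 0x2000022,nat_lit 0x2000122,nat_lit 0x2000112,nat_lit 0x2001012,nat_lit 0x2000102,nat_lit 17,nat_lit 33,
    nat_lit 49,nat_lit 65,nat_lit 0x1000041,nat_lit 0x1001031,nat_lit 0x1000031,nat_lit 0x1000131,nat_lit 0x10031,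
    nat_lit 0x1000121,nat_lit 0x1021,nat_lit 0x1001021,nat_lit 0x10021,nat_lit 0x1000021,nat_lit 0x1010021,
    nat_lit 289,nat_lit 273,nat_lit 0x1000111,nat_lit 0x1011,nat_lit 0x1001011,nat_lit 0x1002011,nat_lit 0x10011,
    nat_lit 0x1000011,nat_lit 0x1010011,nat_lit 0x1011011,nat_lit 0x100011,nat_lit 0x1100011,nat_lit 0x2000011,
    nat_lit 257,nat_lit 305,nat_lit 0x1001111,nat_lit 0x1000211,nat_lit 0x10111,nat_lit 0x1000201,nat_lit 0x1001101,
    nat_lit 0x10101,nat_lit 0x1000101,nat_lit 0x1010101,nat_lit 0x2000101,nat_lit 0x2000111,nat_lit 0x1000221,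
    nat_lit 0x10121,nat_lit 0x1111,nat_lit 0x1101,nat_lit 0x1001,nat_lit 0x11011,nat_lit 0x2001,nat_lit 0x1002001,
    nat_lit 0x1011001,nat_lit 0x11001,nat_lit 0x1001001,nat_lit 0x10001,nat_lit 0x1010031,nat_lit 0x1011021,
    nat_lit 0x1010121,nat_lit 0x20021,nat_lit 0x1010111,nat_lit 0x20011,nat_lit 0x1020011,nat_lit 0x1020001,
    nat_lit 0x1010001,nat_lit 0x2010021,nat_lit 0x2010011,nat_lit 0x2010101,nat_lit 0x2010001,nat_lit 0x100001,
    nat_lit 0x2100002,nat_lit 0x100021,nat_lit 0x1100031,nat_lit 0x1100021,nat_lit 0x1101011,nat_lit 0x101001,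
    nat_lit 0x1101001,nat_lit 0x1100001,nat_lit 0x1000001,nat_lit 0x2000021,nat_lit 0x2001011,nat_lit 0x2001001,
    nat_lit 0x2011001,nat_lit 0x2000001],[nat_lit 32,nat_lit 48,nat_lit 64,nat_lit 80,nat_lit 96,nat_lit 112,
    nat_lit 336,nat_lit 0x1050,nat_lit 0x10050,nat_lit 320,nat_lit 0x1040,nat_lit 0x2040,nat_lit 0x1000040,
    nat_lit 0x11040,nat_lit 0x10040,nat_lit 304,nat_lit 0x1030,nat_lit 0x2030,nat_lit 0x11030,nat_lit 0x1001030,
    nat_lit 0x10030,nat_lit 0x1000030,nat_lit 0x1000130,nat_lit 0x1010030,nat_lit 560,nat_lit 0x100030,nat_lit 288,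
    nat_lit 544,nat_lit 0x1000120,nat_lit 0x1130,nat_lit 0x1120,nat_lit 0x1020,nat_lit 0x2020,nat_lit 0x3020,
    nat_lit 0x12020,nat_lit 0x11020,nat_lit 0x1011020,nat_lit 0x1001020,nat_lit 0x1001120,nat_lit 0x10020,
    nat_lit 0x1010020,nat_lit 0x1000020,nat_lit 0x10130,nat_lit 0x10120,nat_lit 0x100120,nat_lit 0x1000220,
    nat_lit 0x1010120,nat_lit 0x20020,nat_lit 0x110020,nat_lit 0x100020,nat_lit 272,nat_lit 528,nat_lit 0x1110,
    nat_lit 0x10110,nat_lit 0x100110,nat_lit 0x1000110,nat_lit 0x1000210,nat_lit 0x1001110,nat_lit 0x1010110,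
    nat_lit 0x1010,nat_lit 0x2010,nat_lit 0x3010,nat_lit 0x12010,nat_lit 0x1002010,nat_lit 0x11010,nat_lit 0x1011010,
    nat_lit 0x101010,nat_lit 0x1001010,nat_lit 0x10010,nat_lit 0x1010010,nat_lit 0x1000010,nat_lit 0x1100010],
    [nat_lit 512,nat_lit 0x1000200,nat_lit 0x1100,nat_lit 0x1010100,nat_lit 0x100100,nat_lit 0x1000100,
    nat_lit 0x1001100],[nat_lit 0x2000,nat_lit 0x3000,nat_lit 0x4000,nat_lit 0x1003000,nat_lit 0x12000,
    nat_lit 0x1012000,nat_lit 0x1002000,nat_lit 0x11000,nat_lit 0x1011000,nat_lit 0x1001000],[nat_lit 0x20000,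
    nat_lit 0x1010000],[nat_lit 0x200000],[nat_lit 0x2000000]]
    [.c (nat_lit 1) (nat_lit 2),.c (nat_lit 0) (nat_lit 0x583061050b),.c (nat_lit 0) (nat_lit 0x1800b),
    .r (nat_lit 0x1c15) (nat_lit 1) [nat_lit 0x80000000001,nat_lit 0x1020000005,nat_lit 0x2c0030e00505],
    .r (nat_lit 472) (nat_lit 3) [nat_lit 0x1000000001,nat_lit 0xe00501,nat_lit 0x400001,nat_lit 0x280000c00581,
    nat_lit 0x20000001],.r (nat_lit 0x174b) (nat_lit 8) [nat_lit 0x80000000001,nat_lit 0x1020000005,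
    nat_lit 0x4040050a],.r (nat_lit 0) (nat_lit 1) [nat_lit 0x20a00505,nat_lit 0x281000800585],
    .r (nat_lit 473) (nat_lit 9) [nat_lit 0x1000000001,nat_lit 0x281830428581,nat_lit 0x20000001,
    nat_lit 0x540000a00501,nat_lit 0x400001],.r (nat_lit 0x1b4a) (nat_lit 4) [nat_lit 0x140000000102,
    nat_lit 0x80000000001,nat_lit 0x1020000005],.r (nat_lit 0x1c1a) (nat_lit 8) [nat_lit 0x80000000001,
    nat_lit 0x1000800585,nat_lit 0x2c1830028005],.r (nat_lit 0x19ed) (nat_lit 10) [nat_lit 0x80000000001,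
    nat_lit 0x40400005,nat_lit 0x2c1070a00505],.c (nat_lit 0) (nat_lit 0x3001400a),
    .c (nat_lit 0) (nat_lit 0x583060850b),.c (nat_lit 0) (nat_lit 0x583060850b),
    .r (nat_lit 474) (nat_lit 9) [nat_lit 0x1000000001,nat_lit 0x2c1830628001,nat_lit 0x20000001,
    nat_lit 0x280020800581,nat_lit 0x400001],.r (nat_lit 0x174b) (nat_lit 8) [nat_lit 0x80000000001,
    nat_lit 0x1020000005,nat_lit 257],.c (nat_lit 0) (nat_lit 0x41000b),
    .r (nat_lit 0x1cdb) (nat_lit 8) [nat_lit 0x2c1000e00505,nat_lit 0x280020c00585],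
    .c (nat_lit 0) (nat_lit 0x583060850b),.r (nat_lit 0x19ed) (nat_lit 10) [nat_lit 0x80000000001,nat_lit 0x40400005,
    nat_lit 0x7c30d0a0050f],.r (nat_lit 475) (nat_lit 9) [nat_lit 0x1000000001,nat_lit 0x501830428581,
    nat_lit 0x20000001,nat_lit 0x7c0000a00501,nat_lit 0x400001],.r (nat_lit 476) (nat_lit 11) [nat_lit 0x542850a50001,
    nat_lit 0x800001,nat_lit 0x28102062c501,nat_lit 0x2000000001,nat_lit 0x40000001],
    .c (nat_lit 0) (nat_lit 0x3001400a),.r (nat_lit 477) (nat_lit 9) [nat_lit 0x1000000001,nat_lit 0x2c1830628001,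
    nat_lit 0x20000001,nat_lit 0x500020800582,nat_lit 0x400001],.c (nat_lit 0) (nat_lit 0x3001400a),
    .r (nat_lit 0x1c20) (nat_lit 0) [nat_lit 0x80000000001,nat_lit 0x2c1830028005,nat_lit 0x1040a2c505],
    .r (nat_lit 0x1b4a) (nat_lit 4) [nat_lit 0x102002c505,nat_lit 0x80000000001,nat_lit 0x1020000005],
    .c (nat_lit 0) (nat_lit 0xa850a00a0b),.r (nat_lit 478) (nat_lit 9) [nat_lit 0x1000000001,nat_lit 0x281800428581,
    nat_lit 0x20000001,nat_lit 0x540030a00501,nat_lit 0x400001],.c (nat_lit 0) (nat_lit 0x502000c58a),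
    .c (nat_lit 0) (nat_lit 0x502000c58a),.c (nat_lit 0) (nat_lit 0x61c00a),
    .r (nat_lit 479) (nat_lit 3) [nat_lit 0x1000000001,nat_lit 0x30a00501,nat_lit 0x400001,nat_lit 0x280020800581,
    nat_lit 0x20000001],.r (nat_lit 0x174b) (nat_lit 0) [nat_lit 0x80000000001,nat_lit 0x1020000005,
    nat_lit 0x1030600505],.r (nat_lit 480) (nat_lit 7) [nat_lit 0x20000001,nat_lit 0x280000000001,
    nat_lit 0x2c0000a00501,nat_lit 0x400001,nat_lit 0x1000000001],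
    .r (nat_lit 0x174b) (nat_lit 0) [nat_lit 0x80000000001,nat_lit 0x1020000005,nat_lit 0x1000e00505],
    .c (nat_lit 0) (nat_lit 0x3001c00a),.r (nat_lit 0x1b8f) (nat_lit 3) [nat_lit 0x542850050585,nat_lit 0x1020000005,
    nat_lit 0x80000000001],.c (nat_lit 0) (nat_lit 0xa850a00a0b),.c (nat_lit 0) (nat_lit 0xa850a00a0b),
    .r (nat_lit 481) (nat_lit 3) [nat_lit 0x1000000001,nat_lit 0xe00501,nat_lit 0x400001,nat_lit 0x280000c00581,
    nat_lit 0x20000001],.r (nat_lit 75) (nat_lit 1) [nat_lit 0x7c3870078585,nat_lit 257,nat_lit 0x80000000001],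
    .r (nat_lit 482) (nat_lit 9) [nat_lit 0x2000000001,nat_lit 0x282850050581,nat_lit 0x40000001,
    nat_lit 0x7c0000a00501,nat_lit 0x800001],.r (nat_lit 483) (nat_lit 9) [nat_lit 0x1000000001,nat_lit 0x2850050581,
    nat_lit 0x20000001,nat_lit 0x2c102062c501,nat_lit 0x400001],.r (nat_lit 0x1ce4) (nat_lit 6) [nat_lit 0x1020000005,
    nat_lit 0x285005058a],.c (nat_lit 0) (nat_lit 0x3001400a),.c (nat_lit 0) (nat_lit 0x3001400a),
    .r (nat_lit 0x1ce4) (nat_lit 6) [nat_lit 0x1020000005,nat_lit 0x2c2850050585],.c (nat_lit 0) (nat_lit 0x3001400a),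
    .r (nat_lit 0x1bec) (nat_lit 13) [nat_lit 257,nat_lit 0x1020000005],
    .r (nat_lit 0x1cdb) (nat_lit 8) [nat_lit 0x200060058a,nat_lit 0x4040050a],
    .r (nat_lit 484) (nat_lit 4) [nat_lit 0x7c3870e78001,nat_lit 0x780000400581,nat_lit 0x60000001,
    nat_lit 0x3000000001,nat_lit 0x600501],.r (nat_lit 0x19ed) (nat_lit 10) [nat_lit 0x80000000001,nat_lit 0x40400005,
    nat_lit 0xa44110600514],.r (nat_lit 485) (nat_lit 9) [nat_lit 0x1000000001,nat_lit 0x781830028581,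
    nat_lit 0x20000001,nat_lit 0xa40000600501,nat_lit 0x400001],.r (nat_lit 486) (nat_lit 9) [nat_lit 0x3000000001,
    nat_lit 0x7c3870e78001,nat_lit 0x60000001,nat_lit 0x501830028581,nat_lit 0xc00001],
    .r (nat_lit 487) (nat_lit 9) [nat_lit 0x1000000001,nat_lit 0x501830028581,nat_lit 0x20000001,
    nat_lit 0x7c0000600501,nat_lit 0x400001],.r (nat_lit 488) (nat_lit 9) [nat_lit 0x1000000001,
    nat_lit 0x500030028581,nat_lit 0x20000001,nat_lit 0x7c1800600501,nat_lit 0x400001],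
    .r (nat_lit 489) (nat_lit 4) [nat_lit 0x7c3870e78001,nat_lit 0x780020400581,nat_lit 0x60000001,
    nat_lit 0x3000000001,nat_lit 0x30600501],.r (nat_lit 478) (nat_lit 9) [nat_lit 0x1000000001,
    nat_lit 0x280030028581,nat_lit 0x20000001,nat_lit 0x541800600501,nat_lit 0x400001],
    .r (nat_lit 490) (nat_lit 13) [nat_lit 0x400001,nat_lit 0x281830028581,nat_lit 0x20000001,nat_lit 0x540000600501,
    nat_lit 0x1000000001],.r (nat_lit 491) (nat_lit 9) [nat_lit 0x2000000001,nat_lit 0x542850a50001,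
    nat_lit 0x40000001,nat_lit 0x281830028581,nat_lit 0x800001],
    .r (nat_lit 0x19ed) (nat_lit 10) [nat_lit 0x80000000001,nat_lit 0x40400005,nat_lit 0x5420b060050a],
    .r (nat_lit 492) (nat_lit 9) [nat_lit 0x1000000001,nat_lit 0x281830028581,nat_lit 0x20000001,
    nat_lit 0x540000600501,nat_lit 0x400001],.r (nat_lit 493) (nat_lit 9) [nat_lit 0x1000000001,
    nat_lit 0x281800028581,nat_lit 0x20000001,nat_lit 0x540030600501,nat_lit 0x400001],
    .r (nat_lit 477) (nat_lit 9) [nat_lit 0x1000000001,nat_lit 0x2c1830628001,nat_lit 0x20000001,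
    nat_lit 0x501000400582,nat_lit 0x400001],.r (nat_lit 0x19ed) (nat_lit 10) [nat_lit 0x80000000001,
    nat_lit 0x40400005,nat_lit 0x2c0050600505],.r (nat_lit 474) (nat_lit 9) [nat_lit 0x1000000001,
    nat_lit 0x2c1830628001,nat_lit 0x20000001,nat_lit 0x281000400581,nat_lit 0x400001],
    .r (nat_lit 0x1b4a) (nat_lit 2) [nat_lit 0x2c1830028585,nat_lit 0x80000000001,nat_lit 0x1020000005],
    .c (nat_lit 2) (nat_lit 0x502040058a),.r (nat_lit 0x1b47) (nat_lit 13) [nat_lit 0x1020000005,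
    nat_lit 0x502040054505,nat_lit 0x2c1830028005],.r (nat_lit 0x1cdb) (nat_lit 8) [nat_lit 0x1020000585,nat_lit 257],
    .r (nat_lit 0x1b47) (nat_lit 11) [nat_lit 0x1020000005,nat_lit 0x80000000181,nat_lit 0x2c1830028005],
    .r (nat_lit 0x1c15) (nat_lit 1) [nat_lit 0x80000000001,nat_lit 0x1020000005,nat_lit 0x2c0050600505],
    .r (nat_lit 477) (nat_lit 9) [nat_lit 0x1000000001,nat_lit 0x2c1830628001,nat_lit 0x20000001,nat_lit 0x1800028581,
    nat_lit 0x400001],.c (nat_lit 0) (nat_lit 0x580000c00a),.c (nat_lit 4) (nat_lit 0x3060050b),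
    .r (nat_lit 494) (nat_lit 3) [nat_lit 0x1000000001,nat_lit 0x600501,nat_lit 0x400001,nat_lit 0x280000400581,
    nat_lit 0x20000001],.c (nat_lit 0) (nat_lit 0x2000800b),.r (nat_lit 495) (nat_lit 9) [nat_lit 0x3000000001,
    nat_lit 0x7c3870e78001,nat_lit 0x60000001,nat_lit 0x781000400581,nat_lit 0xc00001],
    .c (nat_lit 0) (nat_lit 0x500040058a),.c (nat_lit 0) (nat_lit 0x5000c00a),.c (nat_lit 0) (nat_lit 0x3060c00a),
    .c (nat_lit 0) (nat_lit 0x5000c00a),.c (nat_lit 0) (nat_lit 0x500040058a),.c (nat_lit 0) (nat_lit 0x3060c00a),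
    .r (nat_lit 0x174b) (nat_lit 8) [nat_lit 0x80000000001,nat_lit 0x1020000005,nat_lit 0x1820400505],
    .c (nat_lit 4) (nat_lit 0x1800000103),.r (nat_lit 0x174b) (nat_lit 0) [nat_lit 0x80000000001,nat_lit 0x1020000005,
    nat_lit 257],.r (nat_lit 479) (nat_lit 3) [nat_lit 0x1000000001,nat_lit 0x1800600501,nat_lit 0x400001,
    nat_lit 0x281000400581,nat_lit 0x20000001],.c (nat_lit 0) (nat_lit 0x5000c00a),
    .c (nat_lit 0) (nat_lit 0x3060c00a),.r (nat_lit 496) (nat_lit 13) [nat_lit 0x400001,nat_lit 0x2c1830628001,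
    nat_lit 0x281000400581,nat_lit 0x20000001,nat_lit 0x1000000001],
    .r (nat_lit 0x174b) (nat_lit 0) [nat_lit 0x80000000001,nat_lit 0x1020000005,nat_lit 0x541050450a85],
    .c (nat_lit 0) (nat_lit 0x583060050b),.r (nat_lit 0x17c6) (nat_lit 0) [nat_lit 0x80000000001,nat_lit 0x102002c505,
    nat_lit 0x2c103062ca05,nat_lit 0x8181],.c (nat_lit 0) (nat_lit 0xa850a0ca0b),
    .c (nat_lit 4) (nat_lit 0x502040058a),.c (nat_lit 0) (nat_lit 0x583000050b),.c (nat_lit 0) (nat_lit 0x583000050b),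
    .c (nat_lit 0) (nat_lit 0x583060050b),.c (nat_lit 0) (nat_lit 0x40800b),
    .r (nat_lit 497) (nat_lit 9) [nat_lit 0x1000000001,nat_lit 0x501800028581,nat_lit 0x20000001,
    nat_lit 0x7c0030600501,nat_lit 0x400001],.r (nat_lit 498) (nat_lit 9) [nat_lit 0x2000000001,
    nat_lit 0x542850a50001,nat_lit 0x40000001,nat_lit 0x281800028581,nat_lit 0x800001],
    .c (nat_lit 0) (nat_lit 0x3060c00a),.c (nat_lit 0) (nat_lit 0xa0c00a),.c (nat_lit 0) (nat_lit 0x3060c00a),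
    .c (nat_lit 0) (nat_lit 0xa0c00a),.c (nat_lit 0) (nat_lit 0xa0c00a),.c (nat_lit 0) (nat_lit 0xa0c00a),
    .c (nat_lit 0) (nat_lit 0x583000050b),.r (nat_lit 474) (nat_lit 9) [nat_lit 0x1000000001,nat_lit 0x2c1830628001,
    nat_lit 0x20000001,nat_lit 0x500020400582,nat_lit 0x400001],.r (nat_lit 472) (nat_lit 3) [nat_lit 0x1000000001,
    nat_lit 0x30600501,nat_lit 0x400001,nat_lit 0x280020400581,nat_lit 0x20000001],
    .c (nat_lit 0) (nat_lit 0x3060c00a),.r (nat_lit 0x174b) (nat_lit 8) [nat_lit 0x80000000001,nat_lit 0x1020000005,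
    nat_lit 0x20c0050a],.r (nat_lit 0x19ed) (nat_lit 10) [nat_lit 0x80000000001,nat_lit 0x40400005,
    nat_lit 0x1050400585],.r (nat_lit 0x1b8f) (nat_lit 7) [nat_lit 0x542850050585,nat_lit 0x1020000005,
    nat_lit 0x80000000001],.c (nat_lit 0) (nat_lit 0x580000c00a),.c (nat_lit 0) (nat_lit 0x580000c00a),
    .c (nat_lit 0) (nat_lit 0x580000c00a),.c (nat_lit 0) (nat_lit 0x2040058a),
    .r (nat_lit 0x1caf) (nat_lit 3) [nat_lit 0x80000000001,nat_lit 0xc0000000101],.c (nat_lit 2) (nat_lit 0x3060050b),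
    .r (nat_lit 0x1b47) (nat_lit 13) [nat_lit 0x1020000005,nat_lit 0x80000000181,nat_lit 0x2c1830028005],
    .c (nat_lit 0) (nat_lit 0x583060050b),.r (nat_lit 0x1c15) (nat_lit 1) [nat_lit 0x80000000001,nat_lit 0x1020000005,
    nat_lit 0x54005060050a],.r (nat_lit 0x1caf) (nat_lit 3) [nat_lit 0x80000000001,nat_lit 0x542850050585],
    .c (nat_lit 7) (nat_lit 0x502040058a),.r (nat_lit 0x174b) (nat_lit 0) [nat_lit 0x80000000001,nat_lit 0x1020000005,
    nat_lit 0x503000454a05],.c (nat_lit 0) (nat_lit 0xa850a0ca0b),.c (nat_lit 2) (nat_lit 2),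
    .r (nat_lit 499) (nat_lit 9) [nat_lit 0x3000000001,nat_lit 0x7c3870e78001,nat_lit 0x60000001,
    nat_lit 0x780000000581,nat_lit 0xc00001],.r (nat_lit 491) (nat_lit 9) [nat_lit 0x2000000001,
    nat_lit 0x542850a50001,nat_lit 0x40000001,nat_lit 0xa00000000582,nat_lit 0x800001],
    .r (nat_lit 0x19ed) (nat_lit 10) [nat_lit 0x80000000001,nat_lit 0x40400005,nat_lit 0x2c1050000105],
    .r (nat_lit 486) (nat_lit 9) [nat_lit 0x3000000001,nat_lit 0x7c3870e78001,nat_lit 0x60000001,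
    nat_lit 0xf00000000582,nat_lit 0xc00001],.r (nat_lit 500) (nat_lit 11) [nat_lit 0x11c78f1f18001,nat_lit 0x1c00001,
    nat_lit 0x501,nat_lit 0x7000000001,nat_lit 0xe0000001],.r (nat_lit 501) (nat_lit 4) [nat_lit 0xcc58b16c8001,
    nat_lit 0xc81000000581,nat_lit 0xa0000001,nat_lit 0x5000000001,nat_lit 0x1800000501],
    .r (nat_lit 502) (nat_lit 13) [nat_lit 0x400001,nat_lit 0x2c1830628001,nat_lit 0x280000000181,nat_lit 0x20000001,
    nat_lit 0x1000000001],.r (nat_lit 503) (nat_lit 4) [nat_lit 0xcc58b16c8001,nat_lit 0xc80020000581,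
    nat_lit 0xa0000001,nat_lit 0x5000000001,nat_lit 0x30000501],.r (nat_lit 477) (nat_lit 9) [nat_lit 0x1000000001,
    nat_lit 0x2c1830628001,nat_lit 0x20000001,nat_lit 0xa01000000584,nat_lit 0x400001],
    .r (nat_lit 504) (nat_lit 5) [nat_lit 0x20000001,nat_lit 0x501,nat_lit 0x1000000001,nat_lit 0x400001,
    nat_lit 0x2c1830628581],.r (nat_lit 505) (nat_lit 13) [nat_lit 0x400001,nat_lit 0x502850a50582,nat_lit 0x20000001,
    nat_lit 0xa40000000502,nat_lit 0x1000000001],.r (nat_lit 506) (nat_lit 9) [nat_lit 0x1000000001,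
    nat_lit 0x781830628581,nat_lit 0x20000001,nat_lit 0xa40000000501,nat_lit 0x400001],
    .r (nat_lit 507) (nat_lit 5) [nat_lit 0x20000001,nat_lit 0x30000501,nat_lit 0x1000000001,nat_lit 0x400001,
    nat_lit 0x2c1800628581],.r (nat_lit 476) (nat_lit 11) [nat_lit 0x542850a50001,nat_lit 0x800001,nat_lit 0x30000502,
    nat_lit 0x2000000001,nat_lit 0x40000001],.r (nat_lit 489) (nat_lit 4) [nat_lit 0x7c3870e78001,
    nat_lit 0x781000000581,nat_lit 0x60000001,nat_lit 0x3000000001,nat_lit 0x1800000501],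
    .r (nat_lit 508) (nat_lit 5) [nat_lit 0x20000001,nat_lit 0x501,nat_lit 0x1000000001,nat_lit 0x400001,
    nat_lit 0x2c1830628581],.r (nat_lit 509) (nat_lit 13) [nat_lit 0x800001,nat_lit 0x282850a50581,nat_lit 0x40000001,
    nat_lit 0x7c0000000501,nat_lit 0x2000000001],.r (nat_lit 510) (nat_lit 13) [nat_lit 0x400001,
    nat_lit 0x501800628581,nat_lit 0x20000001,nat_lit 0x7c0030000501,nat_lit 0x1000000001],
    .r (nat_lit 511) (nat_lit 4) [nat_lit 0x7c3870e78001,nat_lit 0x501830628581,nat_lit 0x60000001,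
    nat_lit 0x3000000001,nat_lit 0x28102042c501],.r (nat_lit 0x19ed) (nat_lit 10) [nat_lit 0x80000000001,
    nat_lit 0x40400005,nat_lit 0x7c30f000050f],.r (nat_lit 512) (nat_lit 9) [nat_lit 0x1000000001,
    nat_lit 0x501830628581,nat_lit 0x20000001,nat_lit 0x7c0000000501,nat_lit 0x400001],
    .r (nat_lit 497) (nat_lit 9) [nat_lit 0x1000000001,nat_lit 0x500030628581,nat_lit 0x20000001,
    nat_lit 0x7c1800000501,nat_lit 0x400001],.r (nat_lit 475) (nat_lit 9) [nat_lit 0x1000000001,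
    nat_lit 0x501800628581,nat_lit 0x20000001,nat_lit 0x7c0030000501,nat_lit 0x400001],
    .c (nat_lit 0) (nat_lit 0x5000000a),.c (nat_lit 0) (nat_lit 0x1800000002),
    .r (nat_lit 0x19ed) (nat_lit 10) [nat_lit 0x80000000001,nat_lit 0x40400005,nat_lit 0x54109000050a],
    .c (nat_lit 0) (nat_lit 0x5000000a),.r (nat_lit 493) (nat_lit 9) [nat_lit 0x1000000001,nat_lit 0x280030628581,
    nat_lit 0x20000001,nat_lit 0x541800000501,nat_lit 0x400001],.r (nat_lit 513) (nat_lit 13) [nat_lit 0x400001,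
    nat_lit 0x500030628581,nat_lit 0x20000001,nat_lit 0x7c1800000501,nat_lit 0x1000000001],
    .r (nat_lit 514) (nat_lit 13) [nat_lit 0x400001,nat_lit 0x280030628581,nat_lit 0x20000001,nat_lit 0x541800000501,
    nat_lit 0x1000000001],.r (nat_lit 515) (nat_lit 5) [nat_lit 0x20000001,nat_lit 0x501,nat_lit 0x1000000001,
    nat_lit 0x400001,nat_lit 0x2c1830628581],.r (nat_lit 0x1b47) (nat_lit 13) [nat_lit 0x1020000005,
    nat_lit 0x50204005450a,nat_lit 0x2c1830028005],.r (nat_lit 516) (nat_lit 2) [nat_lit 0x800001,nat_lit 0x501,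
    nat_lit 0x2000000001,nat_lit 0x40000001,nat_lit 0x500000000581],
    .r (nat_lit 0x1bec) (nat_lit 11) [nat_lit 0x2830a5058a,nat_lit 0x1020000005],
    .r (nat_lit 517) (nat_lit 13) [nat_lit 0x400001,nat_lit 0x281800628581,nat_lit 0x20000001,nat_lit 0x540030000501,
    nat_lit 0x1000000001],.r (nat_lit 476) (nat_lit 11) [nat_lit 0x542850a50001,nat_lit 0x800001,
    nat_lit 0x28100042c501,nat_lit 0x2000000001,nat_lit 0x40000001],
    .r (nat_lit 518) (nat_lit 11) [nat_lit 0x542850a50001,nat_lit 0x800001,nat_lit 0x28102042c501,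
    nat_lit 0x2000000001,nat_lit 0x40000001],.r (nat_lit 498) (nat_lit 9) [nat_lit 0x2000000001,
    nat_lit 0x542850a50001,nat_lit 0x40000001,nat_lit 0x280030628581,nat_lit 0x800001],
    .r (nat_lit 0x1b4a) (nat_lit 4) [nat_lit 0x54003080050a,nat_lit 0x80000000001,nat_lit 0x1020000005],
    .r (nat_lit 473) (nat_lit 9) [nat_lit 0x1000000001,nat_lit 0x281800628581,nat_lit 0x20000001,
    nat_lit 0x540030000501,nat_lit 0x400001],.r (nat_lit 519) (nat_lit 9) [nat_lit 0x1000000001,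
    nat_lit 0x281830628581,nat_lit 0x20000001,nat_lit 0x540000000501,nat_lit 0x400001],
    .c (nat_lit 0) (nat_lit 0x3060000a),.c (nat_lit 0) (nat_lit 0x3060000a),.c (nat_lit 0) (nat_lit 0x583000000a),
    .c (nat_lit 0) (nat_lit 0x5000000a),.c (nat_lit 0) (nat_lit 0x3060000a),
    .r (nat_lit 477) (nat_lit 9) [nat_lit 0x1000000001,nat_lit 0x2c1830628001,nat_lit 0x20000001,
    nat_lit 0x500040000582,nat_lit 0x400001],.c (nat_lit 0) (nat_lit 0x580060000a),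
    .c (nat_lit 0) (nat_lit 0x1800000002),.r (nat_lit 0x1cdb) (nat_lit 8) [nat_lit 0x2000600585,nat_lit 0x1820400505],
    .c (nat_lit 0) (nat_lit 0x5000000a),.r (nat_lit 0x17c6) (nat_lit 0) [nat_lit 0x80000000001,nat_lit 0x4042c505,
    nat_lit 0x2c182042ca05,nat_lit 0x1030628585],.c (nat_lit 0) (nat_lit 0x3060000a),
    .c (nat_lit 0) (nat_lit 0x583000000a),.r (nat_lit 0x1c15) (nat_lit 1) [nat_lit 0x80000000001,nat_lit 0x1020000005,
    nat_lit 0x2c1830000505],.c (nat_lit 0) (nat_lit 0x5000000a),.r (nat_lit 477) (nat_lit 9) [nat_lit 0x1000000001,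
    nat_lit 0x2c1830628001,nat_lit 0x20000001,nat_lit 0x30628581,nat_lit 0x400001],
    .c (nat_lit 0) (nat_lit 0x3060000a),.r (nat_lit 0x1ce4) (nat_lit 3) [nat_lit 257,nat_lit 0x1020000005],
    .r (nat_lit 0x1b8f) (nat_lit 7) [nat_lit 0xc0000000101,nat_lit 0x1020000005,nat_lit 0x80000000001],
    .r (nat_lit 520) (nat_lit 2) [nat_lit 0x400001,nat_lit 0x501,nat_lit 0x1000000001,nat_lit 0x20000001,
    nat_lit 0x280000000581],.r (nat_lit 521) (nat_lit 7) [nat_lit 0x20000001,nat_lit 0x2c2830a50581,nat_lit 0x400001,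
    nat_lit 0x502020854501,nat_lit 0x1000000001],.r (nat_lit 480) (nat_lit 7) [nat_lit 0x20000001,
    nat_lit 0x280000000001,nat_lit 0x542850a50581,nat_lit 0x400001,nat_lit 0x1000000001],
    .r (nat_lit 0x1c20) (nat_lit 0) [nat_lit 0x80000000001,nat_lit 0x2c1830028005,nat_lit 0x102002c505],
    .r (nat_lit 0x1b4a) (nat_lit 4) [nat_lit 0x100082c505,nat_lit 0x80000000001,nat_lit 0x1020000005],
    .c (nat_lit 0) (nat_lit 0x1800000002),.r (nat_lit 0x1caf) (nat_lit 7) [nat_lit 0x80000000001,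
    nat_lit 0xc0000000101],.r (nat_lit 0) (nat_lit 1) [nat_lit 257,nat_lit 0x281020000585],
    .r (nat_lit 0x1c1a) (nat_lit 8) [nat_lit 0x80000000001,nat_lit 0x1020000585,nat_lit 0x2c1830028005],
    .r (nat_lit 0x1c1e) (nat_lit 1) [nat_lit 0xc0000000101,nat_lit 0x80000000001,nat_lit 0x1020000005],
    .c (nat_lit 0) (nat_lit 0x1800000002),.c (nat_lit 3) (nat_lit 2),.c (nat_lit 4) (nat_lit 0x582060c50b),
    .c (nat_lit 0) (nat_lit 0x580060c50b),.c (nat_lit 0) (nat_lit 0x3060000a),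
    .r (nat_lit 0) (nat_lit 1) [nat_lit 0x281020000585,nat_lit 257],.c (nat_lit 0) (nat_lit 0x580060c50b),
    .c (nat_lit 0) (nat_lit 0x580060c50b),.c (nat_lit 4) (nat_lit 2),.c (nat_lit 0) (nat_lit 0xf870e1cf0b),
    .r (nat_lit 40) (nat_lit 1) [nat_lit 258,nat_lit 0xa448900a058a,nat_lit 0x80000000001],
    .c (nat_lit 0) (nat_lit 0xf870e1cf0b),.c (nat_lit 0) (nat_lit 0xa850614a0b),.c (nat_lit 0) (nat_lit 0xa850614a0b),
    .c (nat_lit 0) (nat_lit 0xa850a14a0b),.c (nat_lit 0) (nat_lit 0x583000c50b),.c (nat_lit 0) (nat_lit 0x583000c50b),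
    .c (nat_lit 0) (nat_lit 0x583060c50b),.c (nat_lit 5) (nat_lit 2),.c (nat_lit 0) (nat_lit 0x583000c50b),
    .c (nat_lit 6) (nat_lit 2),.c (nat_lit 7) (nat_lit 2)]]

/-- nodes -/
noncomputable def rD7k_25_5 : List RJ :=
  [.l (nat_lit 11) (nat_lit 480) (nat_lit 3) (nat_lit 0xde000000d9000000f0000000f0000000e1000000e1000000cf000001020000012600000126000000cc000000cc000000d2000000d2) (nat_lit 0x4d0000004800000036000000360000004500000045000000240000005700000000000000000000005a0000005a0000005400000054)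
    (nat_lit 0x160270540a81382c03c0871bc2703c0781142284a0b014628c5809416a2086c8d90f01fc428781462a05d0b21562ac6607d1e03c0518960fa28c518a81802e8558ab156214780f015620c428a91282c0558ab1602585e88a1e84083d08711a1e05809c1562ac4e0b01802286f0ec0f01e04688a10421c4287d114228500781bc3303c0780f02285a878156330600bd1bc2808a1020f02a0780de1b2270780f01d8408810cc24c4984e0ba2284086c8de1e03c06f0f4228378901261983306f0cc0fe1e0418960f021c540781982e83c0780f01e03c07815628c3c07a0f01e06609c0f01e03c0780f0228548a31141e06f08a1984083c0781141e04288a10a1f44688d1e01e06f1140f01e03c08a)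
    (nat_lit 0x160780f01e03c0780f01e03c0780f01e03c07804e0b03c0780f01e03c0780f01e03c0780f01e015028c5d1e03c0780f01e03c0780f01e03c0780540a31642e8f01e03c0780f01e03c0780f01e01382c0558ab160780f01e03c0780f01e03c0780580941562ac4b0b03c0780f01e03c0780f01e00f02d4660ab17a300501e03c0780f01e03c0780438820fa2144508a0f0280f01e03c0780f01e01bc364780f01e83786f11424c780f01e03c07804e0d91e03c0810ec198408931263c0780f01e00f01e0518ab0f41e03c0781383303c1e03c07803c07f12c20c438780f02a05d0cc0f01e0f01e01142143e88511a2343c0f02283783c078114780450781462a43c08a114378810cc0f01e03c08a)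
    (nat_lit 5) (nat_lit 83)
    [[nat_lit 2,nat_lit 3,nat_lit 18,nat_lit 0x10002,nat_lit 0x100002,nat_lit 0x1000002,nat_lit 17,nat_lit 33,
    nat_lit 0x1011,nat_lit 0x10011,nat_lit 0x100011,nat_lit 0x1000011,nat_lit 0x1001,nat_lit 0x11001,nat_lit 0x101001,
    nat_lit 0x1001001,nat_lit 0x10001,nat_lit 0x20001,nat_lit 0x110001,nat_lit 0x1010001,nat_lit 0x100001,
    nat_lit 0x1100001,nat_lit 0x1000001,nat_lit 0x2000001],[nat_lit 32,nat_lit 48,nat_lit 0x1020,nat_lit 0x10020,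
    nat_lit 0x100020,nat_lit 0x1000020,nat_lit 272,nat_lit 0x1010,nat_lit 0x2010,nat_lit 0x11010,nat_lit 0x101010,
    nat_lit 0x1001010,nat_lit 0x10010,nat_lit 0x20010,nat_lit 0x110010,nat_lit 0x1010010,nat_lit 0x100010,
    nat_lit 0x1100010,nat_lit 0x1000010,nat_lit 0x2000010],[nat_lit 0x1000100],[nat_lit 0x2000,nat_lit 0x102000,
    nat_lit 0x1002000,nat_lit 0x11000,nat_lit 0x1011000,nat_lit 0x101000,nat_lit 0x1101000,nat_lit 0x1001000,
    nat_lit 0x2001000],[nat_lit 0x20000,nat_lit 0x110000,nat_lit 0x1010000],[nat_lit 0x200000,nat_lit 0x1100000],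
    [nat_lit 0x2000000]]
    [.c (nat_lit 1) (nat_lit 2),.r (nat_lit 870) (nat_lit 2) [nat_lit 129,nat_lit 0x330000001,nat_lit 0xc600a1,
    nat_lit 0x37ed030a1,nat_lit 0x68081],.r (nat_lit 32) (nat_lit 5) [nat_lit 0xca501062,nat_lit 0x88420062],
    .r (nat_lit 870) (nat_lit 2) [nat_lit 0x20081,nat_lit 0x330000001,nat_lit 0xc400a1,nat_lit 0x37ed2b0a1,
    nat_lit 0x48081],.r (nat_lit 0x1b1b) (nat_lit 1) [nat_lit 0x4020062,nat_lit 0x10001,nat_lit 0x200001],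
    .r (nat_lit 0x1cc8) (nat_lit 4) [nat_lit 65,nat_lit 0x420061,nat_lit 0x28041],.c (nat_lit 0) (nat_lit 0x6948107),
    .r (nat_lit 0x1cca) (nat_lit 4) [nat_lit 0x10001,nat_lit 0x18041,nat_lit 0x200001],
    .c (nat_lit 7) (nat_lit 0x210062),.r (nat_lit 32) (nat_lit 5) [nat_lit 0xca519062,nat_lit 0x88410062],
    .r (nat_lit 32) (nat_lit 5) [nat_lit 0x300861,nat_lit 0x88210061],
    .r (nat_lit 0x1bfd) (nat_lit 0) [nat_lit 0x18001,nat_lit 0x300861,nat_lit 0x210001],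
    .c (nat_lit 0) (nat_lit 0x6948109),.r (nat_lit 0x1cdb) (nat_lit 10) [nat_lit 0x210061,nat_lit 65],
    .r (nat_lit 0x1bfd) (nat_lit 4) [nat_lit 0x10001,nat_lit 0x300861,nat_lit 0x200001],
    .c (nat_lit 6) (nat_lit 0x4410062),.c (nat_lit 1) (nat_lit 0x802),.r (nat_lit 870) (nat_lit 2) [nat_lit 0x40081,
    nat_lit 0x330000001,nat_lit 0xc200a1,nat_lit 0x37ed4b0a1,nat_lit 0x28081],
    .r (nat_lit 0x1b1b) (nat_lit 1) [nat_lit 0x4010062,nat_lit 0x10001,nat_lit 0x200001],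
    .r (nat_lit 0x1cc8) (nat_lit 4) [nat_lit 0x10041,nat_lit 0x410061,nat_lit 0x18041],
    .r (nat_lit 0x1750) (nat_lit 6) [nat_lit 0x18041,nat_lit 0x210001],
    .r (nat_lit 0x1b1b) (nat_lit 1) [nat_lit 0x4010061,nat_lit 0x10001,nat_lit 0x200001],
    .c (nat_lit 0) (nat_lit 0x6528085),.r (nat_lit 32) (nat_lit 5) [nat_lit 0xc6300861,nat_lit 0x4210061],
    .c (nat_lit 2) (nat_lit 2),.r (nat_lit 0x1b2f) (nat_lit 4) [nat_lit 0x10001,nat_lit 0xd294a064,nat_lit 0x200001],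
    .r (nat_lit 0x1b22) (nat_lit 13) [nat_lit 0x18001,nat_lit 0x210001,nat_lit 0x200c41],
    .r (nat_lit 0x1cca) (nat_lit 4) [nat_lit 0x10001,nat_lit 65,nat_lit 0x200001],
    .r (nat_lit 0x1b2f) (nat_lit 4) [nat_lit 0x10001,nat_lit 0x6529062,nat_lit 0x200001],
    .r (nat_lit 0x1b2f) (nat_lit 4) [nat_lit 0x10001,nat_lit 0xce739863,nat_lit 0x200001],
    .r (nat_lit 0x1bb5) (nat_lit 5) [nat_lit 0x10001,nat_lit 0x88200061,nat_lit 0x200001],
    .c (nat_lit 0) (nat_lit 0x6948107),.r (nat_lit 8) (nat_lit 6) [nat_lit 0xca501062,nat_lit 0x200001],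
    .c (nat_lit 7) (nat_lit 0x210862),.r (nat_lit 8) (nat_lit 6) [nat_lit 0x300861,nat_lit 0x200001],
    .r (nat_lit 8) (nat_lit 8) [nat_lit 0x318861,nat_lit 0x210001],.c (nat_lit 0) (nat_lit 0x6949d07),
    .r (nat_lit 32) (nat_lit 5) [nat_lit 0xca529062,nat_lit 0x88400062],.r (nat_lit 32) (nat_lit 5) [nat_lit 0x318861,
    nat_lit 0x88200061],.r (nat_lit 0x1bfd) (nat_lit 0) [nat_lit 0x18001,nat_lit 0x318861,nat_lit 0x210001],
    .c (nat_lit 7) (nat_lit 0x6300002),.r (nat_lit 0x1b2f) (nat_lit 4) [nat_lit 0x10001,nat_lit 0x318861,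
    nat_lit 0x200001],.r (nat_lit 0x1ce4) (nat_lit 13) [nat_lit 65,nat_lit 0x210001],
    .r (nat_lit 0x1b2f) (nat_lit 4) [nat_lit 0x10001,nat_lit 0xca529062,nat_lit 0x200001],
    .r (nat_lit 0x1b1b) (nat_lit 1) [nat_lit 0x300041,nat_lit 0x10001,nat_lit 0x200001],.c (nat_lit 4) (nat_lit 2),
    .r (nat_lit 0x1c01) (nat_lit 11) [nat_lit 0x6501062,nat_lit 0x114401442,nat_lit 0x200001],
    .r (nat_lit 0x190f) (nat_lit 0) [nat_lit 0x18001,nat_lit 0x210001,nat_lit 0x4000001,nat_lit 0x6000081],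
    .c (nat_lit 0) (nat_lit 0x694a509),.c (nat_lit 6) (nat_lit 0x4410862),
    .r (nat_lit 0x1ce4) (nat_lit 6) [nat_lit 0x200001,nat_lit 65],.r (nat_lit 0x1c01) (nat_lit 11) [nat_lit 0x300861,
    nat_lit 0x88200c41,nat_lit 0x200001],.c (nat_lit 0) (nat_lit 0x6528085),
    .r (nat_lit 8) (nat_lit 6) [nat_lit 0xc6300861,nat_lit 0x200001],.c (nat_lit 5) (nat_lit 2),
    .r (nat_lit 0x1750) (nat_lit 6) [nat_lit 65,nat_lit 0x210001],.c (nat_lit 0) (nat_lit 0x6529485),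
    .c (nat_lit 6) (nat_lit 2),.c (nat_lit 0) (nat_lit 0x200005),.c (nat_lit 7) (nat_lit 2)]]

/-- nodes -/
noncomputable def rD7k_25_6 : List RJ :=
  [.l (nat_lit 14) (nat_lit 0x9ce) (nat_lit 4) (nat_lit 0x47b000004af000004b30000049b000004d700000463000004e7000004e7000005f4000005f4000004710000045f000003f9000003f9) (nat_lit 0x145000001790000015900000141000001910000011d0000010d0000010d00000000000000000000019500000183000001fb000001fb)
    (nat_lit 0xf2030a0c8833a0c2838809c03e00dec3ff0b981f60a002480df83c80d5836e0d1837e0de839612bc4af0f703100ad01f60db833a0db835e0cb83960e9837e133c4db0f7033008981f60d583220cf036e0c5837e0b8838e13cc4ff0fb028409d81f60df83880df83960d183c00d983be15ac5830fb02fc0b701f60d1830a0c5832e0b203460d58356112c4630cb82e007d82680e583e00e3837e0d583be0f683e4139c4e70d4837c0b3028c0de82700b883a60d5836611d83da139c4e709e03720da034e12bc3ff13fc4db118c583139c4e717985580ff447113dc4d312bc37b13cc4cf112c56b139c4e717485e60d7c47113ec4d70c401f60a103300b802fc0dc837c11c447107f83100dd83760f702e60fb03dc0cb83ec09e03520d7c3fd0b281fe0a7026407d824807d81f609a01f60d3828c135c4d3099037607f81fe0ad028009d822607d82dc0da02cc13ec4f70a7037607d81fe)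
    (nat_lit 0xf209ce27389ce27389ce27389ce27389ce27389ce27389ce0c283c827389ce27389ce27389ce27389ce27389ce27389ce0c883560db89ce27389ce27389ce27389ce27389ce27389ce0ce836e0d7836e27389ce27389ce27389ce27389ce27389ce0c283460cb83160d189ce27389ce27389ce27389ce27389ce0e2037e0e5837e0f0034627389ce27389ce27389ce27389ce09c037a0e982e20d983560f689ce27389ce27389ce27389ce0f803960df838e0ef83560f903da27389ce27389ce27389ce0dec4af133c4f315ac44b139c4e717989ce27389ce27389ce0ffc4af136c4ff160c463139c4e715605e627389ce27389ce0b983dc0f703ec0fb032e0d482780ff435f07f89ce27389ce07d83100cc02840bf02e00df037211c44710c401fe27389ce0a002b408982760b701f60b3036813dc4fb0dd829c07f89ce09201f607d81f607d82680a3034e134c4d70dd826407f81fe)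
    (nat_lit 5) (nat_lit 161)
    [[nat_lit 2,nat_lit 3,nat_lit 4,nat_lit 0x10003,nat_lit 0x100003,nat_lit 0x1000003,nat_lit 18,nat_lit 0x10012,
    nat_lit 0x100012,nat_lit 0x1000012,nat_lit 0x1002,nat_lit 0x101002,nat_lit 0x1001002,nat_lit 0x10002,
    nat_lit 0x20002,nat_lit 0x110002,nat_lit 0x1010002,nat_lit 0x100002,nat_lit 0x200002,nat_lit 0x1100002,
    nat_lit 0x1000002,nat_lit 0x2000002,nat_lit 17,nat_lit 33,nat_lit 0x1011,nat_lit 0x10011,nat_lit 0x100011,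
    nat_lit 0x1000011,nat_lit 0x10021,nat_lit 0x100021,nat_lit 0x1000021,nat_lit 0x1001,nat_lit 0x101011,
    nat_lit 0x1001011,nat_lit 0x11001,nat_lit 0x101001,nat_lit 0x1001001,nat_lit 0x10001,nat_lit 0x20001,
    nat_lit 0x110001,nat_lit 0x1010001,nat_lit 0x100001,nat_lit 0x1100011,nat_lit 0x200001,nat_lit 0x1100001,
    nat_lit 0x1000001,nat_lit 0x2000001,nat_lit 0x2000011],[nat_lit 32,nat_lit 48,nat_lit 64,nat_lit 0x1020,
    nat_lit 0x10020,nat_lit 0x100020,nat_lit 0x1000020,nat_lit 272,nat_lit 0x1010,nat_lit 0x11010,nat_lit 0x101010,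
    nat_lit 0x1001010,nat_lit 0x10010,nat_lit 0x20010,nat_lit 0x110010,nat_lit 0x1010010,nat_lit 0x100010,
    nat_lit 0x1100010,nat_lit 0x1000010,nat_lit 0x2000010],[nat_lit 0x1000100],[nat_lit 0x2000,nat_lit 0x11000,
    nat_lit 0x101000,nat_lit 0x1101000,nat_lit 0x1001000,nat_lit 0x1011000],[nat_lit 0x20000,nat_lit 0x110000,
    nat_lit 0x1010000],[nat_lit 0x200000,nat_lit 0x1100000],[nat_lit 0x2000000]]
    [.c (nat_lit 1) (nat_lit 2),.r (nat_lit 607) (nat_lit 5) [nat_lit 0x18e000041,nat_lit 0x600001,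
    nat_lit 0x1c0739861,nat_lit 0x180300a1,nat_lit 65],.r (nat_lit 0x1b35) (nat_lit 5) [nat_lit 0xc4000001,
    nat_lit 0x10420062,nat_lit 0x12500042,nat_lit 0x6318801],.r (nat_lit 0x1b35) (nat_lit 5) [nat_lit 0xc4000001,
    nat_lit 0x8c420062,nat_lit 0xce500042,nat_lit 0x6318801],.r (nat_lit 872) (nat_lit 4) [nat_lit 0x24694a061,
    nat_lit 0x180631c41,nat_lit 0x6318801,nat_lit 0x409284481,nat_lit 0x340d5b0a1],
    .r (nat_lit 872) (nat_lit 0) [nat_lit 0x24694a061,nat_lit 0x180631c41,nat_lit 0xc0318801,nat_lit 0x409094481,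
    nat_lit 0x340b6b0a1],.c (nat_lit 7) (nat_lit 0x500c02),.r (nat_lit 0x1bb5) (nat_lit 2) [nat_lit 0x86000001,
    nat_lit 0xc6018041,nat_lit 0xc0318801],.r (nat_lit 8) (nat_lit 6) [nat_lit 0x6018041,nat_lit 0x6318801],
    .r (nat_lit 0x186e) (nat_lit 0) [nat_lit 0x106200a1,nat_lit 0xa018041,nat_lit 0x86000001,nat_lit 0xc0318801],
    .c (nat_lit 6) (nat_lit 0x518002),.r (nat_lit 0x186e) (nat_lit 4) [nat_lit 0x104300a1,nat_lit 0xa300041,
    nat_lit 0xc4000001,nat_lit 0x6318801],.r (nat_lit 8) (nat_lit 8) [nat_lit 0x8a300041,nat_lit 0xc0318801],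
    .r (nat_lit 607) (nat_lit 5) [nat_lit 0x10a000041,nat_lit 0x600001,nat_lit 0x146739861,nat_lit 0x1100300a1,
    nat_lit 0xc4000041],.r (nat_lit 0x1b35) (nat_lit 5) [nat_lit 0xc4000001,nat_lit 0x108420062,nat_lit 0x14a500042,
    nat_lit 0x6318801],.r (nat_lit 872) (nat_lit 4) [nat_lit 0x1ca94a061,nat_lit 0x104631c41,nat_lit 0x6318801,
    nat_lit 0x311284481,nat_lit 0x24ad5b0a1],.r (nat_lit 872) (nat_lit 0) [nat_lit 0x1ca94a061,nat_lit 0x104631c41,
    nat_lit 0xc0318801,nat_lit 0x311094481,nat_lit 0x24ab6b0a1],.r (nat_lit 0x1cc8) (nat_lit 0) [nat_lit 0x10a000041,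
    nat_lit 0x140529061,nat_lit 65],.r (nat_lit 8) (nat_lit 8) [nat_lit 0x10a000042,nat_lit 0xc0318801],
    .r (nat_lit 873) (nat_lit 5) [nat_lit 0x18a000041,nat_lit 0x600001,nat_lit 0x1c6739861,nat_lit 0x100300a1,
    nat_lit 0x4000041],.r (nat_lit 0x1cc8) (nat_lit 4) [nat_lit 65,nat_lit 0x140529061,nat_lit 0x10a000041],
    .r (nat_lit 8) (nat_lit 6) [nat_lit 66,nat_lit 0x6318801],.c (nat_lit 0) (nat_lit 0x410803),
    .r (nat_lit 0x1cca) (nat_lit 4) [nat_lit 0xc4000001,nat_lit 0x86000041,nat_lit 0x6318801],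
    .c (nat_lit 0) (nat_lit 0x410803),.c (nat_lit 7) (nat_lit 0x6300c02),.c (nat_lit 7) (nat_lit 0x300c02),
    .r (nat_lit 0x1bfd) (nat_lit 0) [nat_lit 0x86000001,nat_lit 0x4210061,nat_lit 0xc0318801],
    .r (nat_lit 0x1c01) (nat_lit 1) [nat_lit 0x184420062,nat_lit 0x1c6028042,nat_lit 0xc0318801],
    .r (nat_lit 0x1bfd) (nat_lit 4) [nat_lit 0xc4000001,nat_lit 0x6018041,nat_lit 0x6318801],
    .r (nat_lit 874) (nat_lit 11) [nat_lit 0x10020061,nat_lit 0xa018081,nat_lit 0x1d2759841,nat_lit 0x600001,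
    nat_lit 0x184020061],.c (nat_lit 0) (nat_lit 0x420805),.c (nat_lit 7) (nat_lit 0x210803),
    .c (nat_lit 6) (nat_lit 0x210803),.c (nat_lit 6) (nat_lit 0x6318002),
    .r (nat_lit 0x1bfd) (nat_lit 4) [nat_lit 0xc4000001,nat_lit 0x4210061,nat_lit 0x6318801],
    .c (nat_lit 6) (nat_lit 0x318002),.c (nat_lit 1) (nat_lit 0x6200002),
    .r (nat_lit 607) (nat_lit 5) [nat_lit 0x86000041,nat_lit 0x600001,nat_lit 0xca739861,nat_lit 0x2080300a1,
    nat_lit 0x148000041],.r (nat_lit 0x1cc8) (nat_lit 0) [nat_lit 0x86000041,nat_lit 0xc6529061,nat_lit 0xc4000041],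
    .r (nat_lit 0x1cc8) (nat_lit 4) [nat_lit 0xc4000041,nat_lit 0xc6529061,nat_lit 0x86000041],
    .c (nat_lit 0) (nat_lit 0x411005),.c (nat_lit 4) (nat_lit 0x210803),
    .r (nat_lit 0x1bb5) (nat_lit 5) [nat_lit 0xc4000001,nat_lit 0x86000041,nat_lit 0x6318801],
    .r (nat_lit 0x1b35) (nat_lit 5) [nat_lit 0xc4000001,nat_lit 0x4210061,nat_lit 0x6300041,nat_lit 0x6318801],
    .c (nat_lit 0) (nat_lit 0x420805),.r (nat_lit 0x1bb5) (nat_lit 2) [nat_lit 0x86000001,nat_lit 65,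
    nat_lit 0xc0318801],.r (nat_lit 0x1cca) (nat_lit 0) [nat_lit 0x86000001,nat_lit 0x8410061,nat_lit 0xc0318801],
    .c (nat_lit 2) (nat_lit 2),.r (nat_lit 0x186e) (nat_lit 4) [nat_lit 65,nat_lit 0x30062,nat_lit 0xc4000001,
    nat_lit 0x6318801],.r (nat_lit 875) (nat_lit 0) [nat_lit 0x40062,nat_lit 0x400001,nat_lit 0x20840062,nat_lit 65,
    nat_lit 0x4639cc042],.r (nat_lit 8) (nat_lit 8) [nat_lit 0x100220062,nat_lit 0xc0318801],
    .r (nat_lit 0x1cca) (nat_lit 4) [nat_lit 0xc4000001,nat_lit 65,nat_lit 0x6318801],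
    .r (nat_lit 0x186e) (nat_lit 4) [nat_lit 0x18081,nat_lit 0x20061,nat_lit 0xc4000001,nat_lit 0x6318801],
    .r (nat_lit 0xf2b) (nat_lit 4) [nat_lit 0x20061,nat_lit 0x200820061,nat_lit 0x25316a041,nat_lit 129],
    .r (nat_lit 0x1bb5) (nat_lit 5) [nat_lit 0xc4000001,nat_lit 0x6300861,nat_lit 0x6318801],
    .c (nat_lit 0) (nat_lit 0x410803),.c (nat_lit 0) (nat_lit 0x4210803),
    .r (nat_lit 8) (nat_lit 6) [nat_lit 0x4210061,nat_lit 0x6318801],.r (nat_lit 8) (nat_lit 8) [nat_lit 0x80210061,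
    nat_lit 0xc0318801],.c (nat_lit 0) (nat_lit 0x4210803),.c (nat_lit 7) (nat_lit 0xa000c02),
    .c (nat_lit 7) (nat_lit 0x6000c02),.r (nat_lit 0x1bfd) (nat_lit 0) [nat_lit 0x86000001,nat_lit 0x80210061,
    nat_lit 0xc0318801],.c (nat_lit 0) (nat_lit 0x805),.r (nat_lit 0x1c01) (nat_lit 1) [nat_lit 0x80210061,
    nat_lit 0xc0018041,nat_lit 0xc0318801],.r (nat_lit 0x1ce4) (nat_lit 13) [nat_lit 65,nat_lit 0xc0318801],
    .r (nat_lit 0x1c01) (nat_lit 1) [nat_lit 0x100410062,nat_lit 0x140018042,nat_lit 0xc0318801],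
    .c (nat_lit 6) (nat_lit 0x6318c43),.c (nat_lit 4) (nat_lit 2),.c (nat_lit 0) (nat_lit 0x8020805),
    .r (nat_lit 0x1ce4) (nat_lit 6) [nat_lit 0x6318801,nat_lit 65],
    .r (nat_lit 0x1c01) (nat_lit 1) [nat_lit 0x80000041,nat_lit 0xc0200061,nat_lit 0xc0318801],
    .c (nat_lit 0) (nat_lit 0x10005),.c (nat_lit 6) (nat_lit 0x6018002),.c (nat_lit 5) (nat_lit 2),
    .c (nat_lit 0) (nat_lit 0x8011005),.c (nat_lit 0) (nat_lit 0x8020805),.c (nat_lit 6) (nat_lit 2),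
    .c (nat_lit 1) (nat_lit 0x200002),.c (nat_lit 7) (nat_lit 2)]]

/-- nodes -/
noncomputable def rD7k_25_7 : List RJ :=
  [.l (nat_lit 16) (nat_lit 0x2760) (nat_lit 7) (nat_lit 0x11a4000010a800000cb8000014d80000111b0000111b0000113b0000113b000011990000119900001333000013330000111100001111) (nat_lit 0x430000003340000000000000820000003bd000003bd0000039d0000039d0000033f0000033f000001a5000001a5000003c7000003c7)
    (nat_lit 0xd200e7004ec09700de70dd30e070d3513cf0f0d185d185d0ddd14830c240d20106808880cab0c590d0b0d0b127f0d690f030f030cf512df088809700d4a04ec08fb093b091b095b09790979051505fd094508f1106804ec152c0d4a1159111b0a57113b11991199074d0ddd1125114f0c590dd3111b093b0d5e0d0a0d7e0d40133214c00f380f761a0c193a0cab0de7115908fb0d340d5e0dd20d7e0c760e060f760f760e260d540d0b0d35113b095b0d7e0d400d740dc80dfc0da80f9610fc0d740d740d0b0e070a57091b0dd20d7e0d9e0d740dfc0dfc166417ca0ccc0c240d690f0d119909790e0614c00dfc0da806260e5a11440ff40dd20704127f13cf119909790c7613320dfc0dfc0e5a062611440ff405740dd20f03185d0ddd05fd0f760f7617ca10fc0ff40ff4118e118e0a020e1c0f03185d074d05150f760f3816640f9611441144118e118e08c60f6c12df1483114f08f10d54193a0c240d740dd207040f6c0e1c04ec0d4a0cf50ddd112509450e261a0c0ccc0d7405740dd208c60a020d4a04ec)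
    (nat_lit 0xd2027602760276027602760276027602760276027602760276027600e700d2027602760276027602760276027602760276027602760276004ec10680d4a276027602760276027602760276027602760276027600970088804ec0d4a27602760276027602760276027602760276027600de70cab08fb11590d5e2760276027602760276027602760276027600dd30c59093b111b0d0a0d5e276027602760276027602760276027600e070d0b091b0a570d7e0dd20d7427602760276027602760276027600d350d0b095b113b0d400d7e0dc80d742760276027602760276027600e65127f0979119913320c760dfc0dfc0626276027602760276027600e650d690979119914c00e060da80dfc0e5a062627602760276027600a010f030515074d0f380f760f960f6c10c610c60d4a2760276027600ae90f0305fd0ddd0f760f7610fc10540ff40ff4118e0d4a276027600ddd0cf509451125183c0e260d740ccc0dd205740a0208c604ec27600ddd12df08f1114f193a0d540d740c2407040dd20e1c0f6c0d4a04ec)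
    (nat_lit 5) (nat_lit 277)
    [[nat_lit 2,nat_lit 3,nat_lit 4,nat_lit 5,nat_lit 6,nat_lit 7,nat_lit 262,nat_lit 261,nat_lit 517,nat_lit 20,
    nat_lit 260,nat_lit 516,nat_lit 19,nat_lit 0x100013,nat_lit 259,nat_lit 515,nat_lit 771,nat_lit 0x1003,
    nat_lit 0x100003,nat_lit 0x1100003,nat_lit 18,nat_lit 274,nat_lit 0x100012,nat_lit 0x100112,nat_lit 258,
    nat_lit 514,nat_lit 770,nat_lit 0x402,nat_lit 0x1102,nat_lit 0x100102,nat_lit 0x1100102,nat_lit 0x1002,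
    nat_lit 0x101002,nat_lit 0x100002,nat_lit 0x1100002,nat_lit 0x1000002,nat_lit 17,nat_lit 273,nat_lit 0x1011,
    nat_lit 0x10011,nat_lit 0x100011,nat_lit 0x100021,nat_lit 0x101011,nat_lit 0x1100011,nat_lit 0x100111,nat_lit 529,
    nat_lit 257,nat_lit 513,nat_lit 769,nat_lit 0x401,nat_lit 0x501,nat_lit 0x1201,nat_lit 0x100201,nat_lit 0x1100201,
    nat_lit 0x1101,nat_lit 0x101101,nat_lit 0x100101,nat_lit 0x1100101,nat_lit 0x1001,nat_lit 0x2001,nat_lit 0x101001,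
    nat_lit 0x100001,nat_lit 0x1100001,nat_lit 0x1000001,nat_lit 0x1001001],[nat_lit 32,nat_lit 0x100020,nat_lit 272,
    nat_lit 528,nat_lit 0x101010,nat_lit 0x10010,nat_lit 0x110010,nat_lit 0x1110010,nat_lit 0x100010,nat_lit 0x200020,
    nat_lit 0x1200020,nat_lit 0x100110,nat_lit 0x201010,nat_lit 0x200010,nat_lit 0x1200010,nat_lit 0x1100010,
    nat_lit 0x1100110,nat_lit 0x2200010,nat_lit 0x2100010,nat_lit 0x100210],[nat_lit 512,nat_lit 768,nat_lit 0x400,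
    nat_lit 0x500,nat_lit 0x600,nat_lit 0x100300,nat_lit 0x1200,nat_lit 0x10200,nat_lit 0x100200,nat_lit 0x1100200,
    nat_lit 0x1000200,nat_lit 0x1100,nat_lit 0x101100,nat_lit 0x10100,nat_lit 0x110100,nat_lit 0x1110100,
    nat_lit 0x100100,nat_lit 0x1100100,nat_lit 0x1000100],[nat_lit 0x2000,nat_lit 0x102000,nat_lit 0x11000,
    nat_lit 0x1011000,nat_lit 0x101000,nat_lit 0x1101000,nat_lit 0x111000,nat_lit 0x201000,nat_lit 0x1201000,
    nat_lit 0x1001000],[nat_lit 0x20000,nat_lit 0x110000,nat_lit 0x120000,nat_lit 0x1110000,nat_lit 0x1010000],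
    [nat_lit 0x200000,nat_lit 0x1200000,nat_lit 0x1100000,nat_lit 0x2200000,nat_lit 0x2100000],[nat_lit 0x2000000]]
    [.c (nat_lit 1) (nat_lit 2),.c (nat_lit 0) (nat_lit 0xe000004),.c (nat_lit 0) (nat_lit 0xa500002),
    .c (nat_lit 0) (nat_lit 0x16b00004),.c (nat_lit 0) (nat_lit 0xe700002),.c (nat_lit 0) (nat_lit 0x1ef00004),
    .c (nat_lit 0) (nat_lit 0x6300002),.c (nat_lit 0) (nat_lit 0x6300002),.c (nat_lit 0) (nat_lit 0xa500002),
    .c (nat_lit 0) (nat_lit 0xa518002),.c (nat_lit 0) (nat_lit 0x6300002),.c (nat_lit 0) (nat_lit 0xa500002),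
    .c (nat_lit 0) (nat_lit 0xe028004),.c (nat_lit 0) (nat_lit 0xe028004),.c (nat_lit 0) (nat_lit 0x6300002),
    .c (nat_lit 0) (nat_lit 0xa500002),.c (nat_lit 0) (nat_lit 0xe700002),.c (nat_lit 0) (nat_lit 0xe001404),
    .c (nat_lit 0) (nat_lit 0xe000004),.c (nat_lit 0) (nat_lit 0xe000004),.c (nat_lit 0) (nat_lit 0x6018002),
    .c (nat_lit 0) (nat_lit 0xa318002),.c (nat_lit 0) (nat_lit 0x6018002),.c (nat_lit 0) (nat_lit 0x6318002),
    .c (nat_lit 0) (nat_lit 0x6300002),.c (nat_lit 0) (nat_lit 0xa500002),.c (nat_lit 0) (nat_lit 0x6300002),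
    .c (nat_lit 0) (nat_lit 0x6300002),.c (nat_lit 0) (nat_lit 0x6318c02),.c (nat_lit 0) (nat_lit 0x6300002),
    .c (nat_lit 0) (nat_lit 0x6500002),.c (nat_lit 0) (nat_lit 0x6000c02),.c (nat_lit 1) (nat_lit 0x4000c02),
    .c (nat_lit 0) (nat_lit 0x6000002),.c (nat_lit 1) (nat_lit 0x4000002),.c (nat_lit 0) (nat_lit 0x6000002),
    .c (nat_lit 0) (nat_lit 0x6028004),.c (nat_lit 0) (nat_lit 0x6228004),.c (nat_lit 0) (nat_lit 0x18c02),
    .c (nat_lit 0) (nat_lit 0x6200862),.c (nat_lit 0) (nat_lit 0x6028004),.c (nat_lit 0) (nat_lit 0x6048004),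
    .c (nat_lit 0) (nat_lit 0x6029404),.c (nat_lit 0) (nat_lit 0x6028004),.c (nat_lit 0) (nat_lit 0x6228004),
    .c (nat_lit 0) (nat_lit 0x6228004),.c (nat_lit 1) (nat_lit 0x4200003),
    .r (nat_lit 75) (nat_lit 5) [nat_lit 0xc6000081,nat_lit 0x900000a1,nat_lit 0x6318801],
    .r (nat_lit 117) (nat_lit 10) [nat_lit 0x18001,nat_lit 0x210001,nat_lit 0x6318801,nat_lit 0x4210c41],
    .r (nat_lit 911) (nat_lit 10) [nat_lit 0xe70001,nat_lit 0x26ef7b841,nat_lit 0xa0f000a1,nat_lit 0xe00001,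
    nat_lit 0x210000061],.r (nat_lit 912) (nat_lit 10) [nat_lit 0x1290001,nat_lit 0x2fb39c841,nat_lit 0xa93000a1,
    nat_lit 0x1200001,nat_lit 0x294000061],.r (nat_lit 0x1ce4) (nat_lit 4) [nat_lit 0x88010061,nat_lit 0x200001],
    .r (nat_lit 0) (nat_lit 5) [nat_lit 0x88010061,nat_lit 0xce018841],.c (nat_lit 0) (nat_lit 0x6500002),
    .r (nat_lit 8) (nat_lit 13) [nat_lit 0xca318841,nat_lit 0x200001],.c (nat_lit 1) (nat_lit 0x300c02),
    .r (nat_lit 8) (nat_lit 13) [nat_lit 0x300861,nat_lit 0x200001],.c (nat_lit 1) (nat_lit 0x300002),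
    .r (nat_lit 0) (nat_lit 5) [nat_lit 65,nat_lit 0x6000861],.r (nat_lit 0x1cdb) (nat_lit 13) [nat_lit 0x220061,
    nat_lit 0x18041],.r (nat_lit 75) (nat_lit 5) [nat_lit 0x8c0200a1,nat_lit 0xc0028081,nat_lit 0x6318801],
    .r (nat_lit 0x1ce4) (nat_lit 4) [nat_lit 65,nat_lit 0x200001],.r (nat_lit 75) (nat_lit 5) [nat_lit 0x8c0000a1,
    nat_lit 0xc0000081,nat_lit 0x6318801],.r (nat_lit 0) (nat_lit 5) [nat_lit 0x10041,nat_lit 0x6018861],
    .r (nat_lit 0x1cdb) (nat_lit 13) [nat_lit 0x210061,nat_lit 65],.c (nat_lit 2) (nat_lit 2),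
    .c (nat_lit 0) (nat_lit 0x428002),.r (nat_lit 0x1b04) (nat_lit 9) [nat_lit 65,nat_lit 0x6318801],
    .r (nat_lit 913) (nat_lit 10) [nat_lit 0x108210061,nat_lit 0x6318801,nat_lit 0x1ca300041,nat_lit 0x108200061,
    nat_lit 0x14a000041],.c (nat_lit 0) (nat_lit 0x18c02),.r (nat_lit 0) (nat_lit 5) [nat_lit 0x6000861,nat_lit 65],
    .r (nat_lit 0x1cdb) (nat_lit 1) [nat_lit 0x200061,nat_lit 65],.c (nat_lit 0) (nat_lit 0x44010a4),
    .r (nat_lit 8) (nat_lit 13) [nat_lit 0xca301062,nat_lit 0x200001],.c (nat_lit 0) (nat_lit 0x428002),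
    .c (nat_lit 0) (nat_lit 0x28002),.r (nat_lit 32) (nat_lit 0) [nat_lit 0x4210061,nat_lit 0x6318801],
    .c (nat_lit 0) (nat_lit 0x18c02),.r (nat_lit 0x17b0) (nat_lit 5) [nat_lit 0x18001,nat_lit 0x318041,
    nat_lit 0x6318801,nat_lit 0x210001],.c (nat_lit 0) (nat_lit 0x18002),.c (nat_lit 0) (nat_lit 0x18002),
    .c (nat_lit 2) (nat_lit 0x300002),.c (nat_lit 0) (nat_lit 0x18002),.c (nat_lit 1) (nat_lit 0x4018002),
    .r (nat_lit 0) (nat_lit 5) [nat_lit 0x88220062,nat_lit 0xd2329042],.c (nat_lit 3) (nat_lit 2),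
    .r (nat_lit 45) (nat_lit 5) [nat_lit 65,nat_lit 0xc000061,nat_lit 0x6318801],
    .r (nat_lit 40) (nat_lit 5) [nat_lit 66,nat_lit 0x10000062,nat_lit 0x6318801],
    .r (nat_lit 915) (nat_lit 12) [nat_lit 0x1400001,nat_lit 129,nat_lit 0xa0001,nat_lit 0x2ff5ad041,
    nat_lit 0x280000a1],.r (nat_lit 75) (nat_lit 5) [nat_lit 66,nat_lit 0x18000062,nat_lit 0x6318801],
    .r (nat_lit 0xf28) (nat_lit 10) [nat_lit 0xc030061,nat_lit 0xe739801,nat_lit 0xc000061,nat_lit 0xe600041],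
    .c (nat_lit 0) (nat_lit 0x400803),.r (nat_lit 0x1b8f) (nat_lit 8) [nat_lit 0x4210c41,nat_lit 0x210001,
    nat_lit 0x6318801],.c (nat_lit 0) (nat_lit 0x400003),.c (nat_lit 1) (nat_lit 0x4400003),
    .c (nat_lit 0) (nat_lit 0x400003),.c (nat_lit 0) (nat_lit 0x200803),.c (nat_lit 0) (nat_lit 0x200803),
    .c (nat_lit 1) (nat_lit 0x4018c43),.c (nat_lit 0) (nat_lit 0x6029485),.c (nat_lit 1) (nat_lit 0x18c43),
    .c (nat_lit 0) (nat_lit 0x200803),.c (nat_lit 0) (nat_lit 0x200003),.c (nat_lit 0) (nat_lit 0x200003),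
    .c (nat_lit 4) (nat_lit 2),.c (nat_lit 0) (nat_lit 0x401003),.c (nat_lit 0) (nat_lit 0x6528085),
    .r (nat_lit 0x1cdb) (nat_lit 1) [nat_lit 0x88411441,nat_lit 0xca319061],.c (nat_lit 0) (nat_lit 0x6000803),
    .c (nat_lit 0) (nat_lit 0x400803),.c (nat_lit 0) (nat_lit 0x6318043),.c (nat_lit 0) (nat_lit 0x400803),
    .c (nat_lit 0) (nat_lit 0x400803),.c (nat_lit 2) (nat_lit 0x20803),.c (nat_lit 5) (nat_lit 2),
    .c (nat_lit 0) (nat_lit 0x6529483),.c (nat_lit 0) (nat_lit 0x6528c83),.c (nat_lit 0) (nat_lit 0x6529483),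
    .c (nat_lit 0) (nat_lit 0x6529485),.c (nat_lit 6) (nat_lit 2),.c (nat_lit 0) (nat_lit 0x400003),
    .c (nat_lit 0) (nat_lit 0x6000003),.c (nat_lit 0) (nat_lit 0x400003),.c (nat_lit 0) (nat_lit 0x400003),
    .c (nat_lit 7) (nat_lit 2)]]

/-- nodes -/
noncomputable def rD7k_25_8 : List RJ :=
  [.l (nat_lit 10) (nat_lit 240) (nat_lit 3) (nat_lit 0x80000000680000005e0000005e00000075000000670000006f000000670000005e0000005e0000005e000000770000007800000078) (nat_lit 0x18000000000000002200000022000000190000000b0000001900000011000000220000002200000009000000220000000800000008)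
    (nat_lit 0x1e0801505e19c770f0641e0781dc3c1e090140780f0460fc3c13c3c1183f1e046180781185e1743c1805d1305d0f03c0f43c1183d0f05415c5d18453120450f03c0f03c1504a0f07714c5d1904f1704814c501e0531dc860fc67184600f464138560f03c1e03d1a8790f0641145d1584817c6f1544d1305619c4d13c3c1204c1385c1385f114450f045114530fc780f03c0f0501144d0f03c1843c20478118780f03c0f053114550f03c18c3c1e06f1183c0f03c0f453114560f03c0f03c0f0481e0770f03d1e0780f04c18c611b83c15c6f1e0901283d1e48614c4d1bc781bc481c07018078150461a877114671e08115c3c1c070)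
    (nat_lit 0x1e0f03c0f03c0f03c0f03c0f03c0f03c0f0200783c0f03c0f03c0f03c0f03c0f03c0f01503c174f03c0f03c0f03c0f03c0f03c0f0178460f05d3c0f03c0f03c0f03c0f03c0f019c3f18061190f03c0f03c0f03c0f03c0f01dc3c1745313c643c0f03c0f03c0f03c0f00f04f130481704e17cf03c0f03c0f03c0f01903c17445120561bc5f3c0f03c0f03c0f01e0460f03c14c3c154450f0f03c0f03c0f01e03f0f03c1403c134450f03c3c0f03c0f01dc780f43c1e0781303c184630f0f03c0f00f0460f03c14c3d158450f03c0f03c3c0f01e060118541dc6a19c45204780f0571c0f0224780f44a21879134531e06f1206f1c070)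
    (nat_lit 5) (nat_lit 71)
    [[nat_lit 2,nat_lit 17,nat_lit 33,nat_lit 0x1011,nat_lit 0x100011,nat_lit 0x1001,nat_lit 0x101001,
    nat_lit 0x100001,nat_lit 0x200001,nat_lit 0x1001001],[nat_lit 32,nat_lit 48,nat_lit 288,nat_lit 0x1020,
    nat_lit 0x100020,nat_lit 272,nat_lit 528,nat_lit 0x100110,nat_lit 0x1000110,nat_lit 0x1010,nat_lit 0x1110,
    nat_lit 0x11010,nat_lit 0x101010,nat_lit 0x1001010,nat_lit 0x10010,nat_lit 0x100010,nat_lit 0x110010,
    nat_lit 0x200010,nat_lit 0x1100010,nat_lit 0x1000010],[nat_lit 512,nat_lit 768,nat_lit 0x1200,nat_lit 0x10200,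
    nat_lit 0x100200,nat_lit 0x1100,nat_lit 0x11100,nat_lit 0x101100,nat_lit 0x1001100,nat_lit 0x10100,
    nat_lit 0x20100,nat_lit 0x110100,nat_lit 0x100100,nat_lit 0x200100,nat_lit 0x1100100,nat_lit 0x1000100],
    [nat_lit 0x2000,nat_lit 0x1002000,nat_lit 0x12000,nat_lit 0x11000,nat_lit 0x21000,nat_lit 0x1011000,
    nat_lit 0x101000,nat_lit 0x201000,nat_lit 0x1101000,nat_lit 0x1001000],[nat_lit 0x20000,nat_lit 0x120000,
    nat_lit 0x110000,nat_lit 0x1010000],[nat_lit 0x200000,nat_lit 0x1100000,nat_lit 0x1200000],[nat_lit 0x2000000]]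
    [.c (nat_lit 1) (nat_lit 2),.r (nat_lit 0x1c57) (nat_lit 7) [nat_lit 0x104210c01,nat_lit 0xc0010861,
    nat_lit 0xc0318801],.r (nat_lit 0xbde) (nat_lit 9) [nat_lit 0x84400061,nat_lit 0x10001,nat_lit 0xc0218861,
    nat_lit 0x6500041,nat_lit 0x500041],.r (nat_lit 0x1b04) (nat_lit 3) [nat_lit 0x84220061,nat_lit 0xc0318801],
    .r (nat_lit 0x14ec) (nat_lit 2) [nat_lit 0x210242501,nat_lit 0x34a121,nat_lit 0x440001,nat_lit 0x25234a001],
    .r (nat_lit 0x174e) (nat_lit 6) [nat_lit 0x6018041,nat_lit 0xc0318801],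
    .r (nat_lit 0xf0e) (nat_lit 2) [nat_lit 0x252202121,nat_lit 0x294000001,nat_lit 0x108451481,nat_lit 0x14a5590c1],
    .r (nat_lit 0x1b1b) (nat_lit 6) [nat_lit 0x146318801,nat_lit 0xc6000041,nat_lit 0x84000001],
    .r (nat_lit 0x174e) (nat_lit 6) [nat_lit 0x6000043,nat_lit 0xc0318801],.c (nat_lit 0) (nat_lit 0x511404),
    .c (nat_lit 2) (nat_lit 2),.r (nat_lit 8) (nat_lit 8) [nat_lit 0x25234a064,nat_lit 0x84000001],
    .r (nat_lit 0x1b77) (nat_lit 10) [nat_lit 0x104210c01,nat_lit 0x146318841,nat_lit 0xc0318801],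
    .r (nat_lit 8) (nat_lit 8) [nat_lit 0x14a019062,nat_lit 0x84000001],
    .r (nat_lit 0x15a7) (nat_lit 1) [nat_lit 0x140529001,nat_lit 0x128200a1,nat_lit 0x108000001,nat_lit 65],
    .c (nat_lit 0) (nat_lit 0x8020805),.r (nat_lit 0x174e) (nat_lit 6) [nat_lit 0x100200062,nat_lit 0xc0318801],
    .c (nat_lit 7) (nat_lit 0x6018002),.r (nat_lit 0x1c88) (nat_lit 6) [nat_lit 0x146318801,nat_lit 0x80210061,
    nat_lit 0x84000001],.c (nat_lit 7) (nat_lit 0x18c02),.r (nat_lit 0x174e) (nat_lit 6) [nat_lit 0x80210061,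
    nat_lit 0xc0318801],.r (nat_lit 0x174e) (nat_lit 6) [nat_lit 0xc6000861,nat_lit 0xc0318801],
    .r (nat_lit 0x198f) (nat_lit 10) [nat_lit 0x1006300e1,nat_lit 0xc0318801,nat_lit 0x318041],
    .r (nat_lit 8) (nat_lit 8) [nat_lit 0xc6000861,nat_lit 0x84000001],.c (nat_lit 0) (nat_lit 0xa500c85),
    .c (nat_lit 0) (nat_lit 0x8020805),.c (nat_lit 7) (nat_lit 0x4200862),
    .r (nat_lit 0x198f) (nat_lit 10) [nat_lit 0x2006000e2,nat_lit 0xc0318801,nat_lit 0x300042],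
    .r (nat_lit 0x1c01) (nat_lit 1) [nat_lit 0xc6000861,nat_lit 0x84010c41,nat_lit 0x84000001],
    .r (nat_lit 0x1ce4) (nat_lit 13) [nat_lit 65,nat_lit 0x84000001],.c (nat_lit 3) (nat_lit 2),
    .r (nat_lit 0x1c79) (nat_lit 0) [nat_lit 0x34e739841,nat_lit 65,nat_lit 0x18c000061],
    .r (nat_lit 32) (nat_lit 4) [nat_lit 0x100410062,nat_lit 0xc0318801],
    .r (nat_lit 0x1c79) (nat_lit 0) [nat_lit 0x24a529041,nat_lit 0x104210c41,nat_lit 0x88318861],
    .r (nat_lit 0x1b36) (nat_lit 6) [nat_lit 0x146318801,nat_lit 65,nat_lit 0x84000001],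
    .r (nat_lit 0x1b04) (nat_lit 3) [nat_lit 65,nat_lit 0xc0318801],.r (nat_lit 32) (nat_lit 4) [nat_lit 0x6200862,
    nat_lit 0xc0318801],.r (nat_lit 0xbe0) (nat_lit 11) [nat_lit 0x80010061,nat_lit 0x2c0b5a801,nat_lit 0x200a40121,
    nat_lit 0x514a52c01,nat_lit 0x140030081],.r (nat_lit 32) (nat_lit 4) [nat_lit 0x80210061,nat_lit 0xc0318801],
    .c (nat_lit 1) (nat_lit 0x218c43),.r (nat_lit 0x1c79) (nat_lit 0) [nat_lit 0x146318841,nat_lit 0x208421441,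
    nat_lit 0xc4529061],.r (nat_lit 0x1b36) (nat_lit 6) [nat_lit 0x146318801,nat_lit 0x104210c41,nat_lit 0x84000001],
    .c (nat_lit 0) (nat_lit 0x10030009),.r (nat_lit 0x1c71) (nat_lit 6) [nat_lit 0x146318801,nat_lit 65,
    nat_lit 0x84000001],.c (nat_lit 4) (nat_lit 0x6000802),.c (nat_lit 0) (nat_lit 0x8010005),
    .c (nat_lit 4) (nat_lit 2),.r (nat_lit 8) (nat_lit 8) [nat_lit 0xc6338841,nat_lit 0x84000001],
    .r (nat_lit 0x1c57) (nat_lit 7) [nat_lit 0x104210c01,nat_lit 65,nat_lit 0xc0318801],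
    .r (nat_lit 0x1b04) (nat_lit 3) [nat_lit 0x104210c41,nat_lit 0xc0318801],
    .r (nat_lit 32) (nat_lit 4) [nat_lit 0x14a019062,nat_lit 0xc0318801],
    .r (nat_lit 32) (nat_lit 4) [nat_lit 0xc6000861,nat_lit 0xc0318801],
    .r (nat_lit 0x1cd3) (nat_lit 9) [nat_lit 0xc0318801,nat_lit 0x10001,nat_lit 65],
    .r (nat_lit 0x1c74) (nat_lit 10) [nat_lit 0x104210c01,nat_lit 0x14a019062,nat_lit 0xc0318801],
    .r (nat_lit 0x1c74) (nat_lit 10) [nat_lit 0x104210c01,nat_lit 0xc6000861,nat_lit 0xc0318801],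
    .c (nat_lit 0) (nat_lit 0x805),.c (nat_lit 5) (nat_lit 2),.r (nat_lit 0x1b36) (nat_lit 6) [nat_lit 0x146318801,
    nat_lit 0x208421441,nat_lit 0x84000001],.c (nat_lit 0) (nat_lit 0x1291a509),.c (nat_lit 0) (nat_lit 0xa519485),
    .c (nat_lit 6) (nat_lit 2),.c (nat_lit 0) (nat_lit 0x8010005),.r (nat_lit 0x15a1) (nat_lit 6) [nat_lit 0x128300a1,
    nat_lit 0x18c000001,nat_lit 0x8500041,nat_lit 0x6200041],.c (nat_lit 7) (nat_lit 2)],
    .l (nat_lit 11) (nat_lit 480) (nat_lit 3) (nat_lit 0xbb000000bb000000c3000000c3000000c7000000cf000000ea000000ea000000db000000bb000000bb000000bb000000d1000000d1) (nat_lit 0x2f0000002f00000027000000270000001b0000002300000000000000000000002f0000000f0000002f0000002f0000001900000019)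
    (nat_lit 0x1181c84a0941802608e90d1182f0390881442884608c1282506d0941a630c460bc118230510a21282505009c140280598891282704a0941542a84a094148280540a018630c480ac128250550aa128260500a0158270678c71302e04c09c15c2b86d0c01502805a0ac19e33c480c0188368320601864346188919e31c750ea10236c888cb1622b46991d1862cc678cf1d43a8558db22a33c608c11782f05609c1802e06d8db1303305e0bc0c01a04608c1202504809815620446098118230530ae1182204a0941b4270678cb1182f04008c144288460721282506209822a444460bc0d4200510a2144288550aa0c02b8608ad15c1a0510a21a4368510a21542a8320ae1822c453060144288690d2)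
    (nat_lit 0x118780f01e03c0780f01e03c0780f01e03c07803908c3c0780f01e03c0780f01e03c0780f01e0128250501e03c0780f01e03c0780f01e03c07804a094138280f01e03c0780f01e03c0780f01e0180368500a8158780f01e03c0780f01e03c07804c0941402804e0ac3c0780f01e03c0780f01e023a34c598c319e33c751e03c0780f01e03c0780868c311230c638cf1d43a8f01e03c0780f01e01182304a090130240408ab130780f01e03c07805e0bc1382b05c0c01b636c660983c0780f01e00e42304a09413031088915178230401e03c07804408c1282504e0da19633c5e08c118200f01e0144288550aa15c190588c10c0298510a21a4780510a21542a85706015a304340ae1442886d0d2)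
    (nat_lit 4) (nat_lit 59)
    [[nat_lit 2,nat_lit 17,nat_lit 33,nat_lit 273,nat_lit 0x10011,nat_lit 0x1000011,nat_lit 257,nat_lit 513,
    nat_lit 0x1101,nat_lit 0x10101,nat_lit 0x100101,nat_lit 0x1000101,nat_lit 0x1001,nat_lit 0x10001,nat_lit 0x20001,
    nat_lit 0x110001,nat_lit 0x1010001,nat_lit 0x100001,nat_lit 0x1000001,nat_lit 0x2000001],[nat_lit 32,nat_lit 48,
    nat_lit 288,nat_lit 0x100020,nat_lit 0x1000020,nat_lit 272,nat_lit 0x1000110,nat_lit 0x100110,nat_lit 0x10010,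
    nat_lit 0x110010,nat_lit 0x100010,nat_lit 0x200010,nat_lit 0x1100010,nat_lit 0x1000010,nat_lit 0x2000010],
    [nat_lit 512,nat_lit 768,nat_lit 0x100200,nat_lit 0x1100,nat_lit 0x10100,nat_lit 0x110100,nat_lit 0x100100,
    nat_lit 0x200100,nat_lit 0x1000100,nat_lit 0x1100100,nat_lit 0x2000100],[nat_lit 0x2000,nat_lit 0x11000,
    nat_lit 0x101000],[nat_lit 0x20000,nat_lit 0x110000,nat_lit 0x1110000,nat_lit 0x1010000],[nat_lit 0x200000,
    nat_lit 0x1200000,nat_lit 0x1100000,nat_lit 0x2100000],[nat_lit 0x2000000,nat_lit 0x3000000]]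
    [.c (nat_lit 1) (nat_lit 2),.r (nat_lit 0x1b04) (nat_lit 12) [nat_lit 33,nat_lit 0x20001],
    .r (nat_lit 0x1c5d) (nat_lit 13) [nat_lit 33,nat_lit 0x44031,nat_lit 0x5021],
    .r (nat_lit 0x174e) (nat_lit 3) [nat_lit 0x30231,nat_lit 0x20001],.r (nat_lit 32) (nat_lit 7) [nat_lit 0x30231,
    nat_lit 0x20001],.r (nat_lit 0x1c5d) (nat_lit 13) [nat_lit 0x2021,nat_lit 0x42031,nat_lit 0x3021],
    .c (nat_lit 0) (nat_lit 0x23323),.r (nat_lit 0x157d) (nat_lit 7) [nat_lit 0x352431,nat_lit 0x7001,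
    nat_lit 0x455431,nat_lit 0x322341],.r (nat_lit 0x1b04) (nat_lit 12) [nat_lit 0x200231,nat_lit 0x20001],
    .r (nat_lit 8) (nat_lit 3) [nat_lit 0x33231,nat_lit 0x22001],.r (nat_lit 0x1c77) (nat_lit 2) [nat_lit 0x3001,
    nat_lit 0x30231,nat_lit 0x22001],.r (nat_lit 0x174e) (nat_lit 3) [nat_lit 0x33231,nat_lit 0x20001],
    .r (nat_lit 0x174e) (nat_lit 3) [nat_lit 0x330021,nat_lit 0x20001],.r (nat_lit 0) (nat_lit 13) [nat_lit 0x20001,
    nat_lit 33],.r (nat_lit 0x1ceb) (nat_lit 7) [nat_lit 33,nat_lit 0x233251,nat_lit 0x220031,nat_lit 0x302021],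
    .r (nat_lit 0x1c74) (nat_lit 13) [nat_lit 0x2001,nat_lit 0x33231,nat_lit 0x20001],
    .r (nat_lit 32) (nat_lit 7) [nat_lit 0x33231,nat_lit 0x20001],.r (nat_lit 0x157e) (nat_lit 2) [nat_lit 0x233201,
    nat_lit 0x44001,nat_lit 0x95451,nat_lit 0x322341],.r (nat_lit 0x1b04) (nat_lit 12) [nat_lit 0x2021,
    nat_lit 0x20001],.r (nat_lit 0x1c5d) (nat_lit 13) [nat_lit 0x4021,nat_lit 0x40031,nat_lit 33],
    .c (nat_lit 2) (nat_lit 2),.r (nat_lit 0x1c79) (nat_lit 1) [nat_lit 0x7021,nat_lit 33,nat_lit 0x66031],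
    .r (nat_lit 0x174e) (nat_lit 3) [nat_lit 0x332232,nat_lit 0x20001],
    .r (nat_lit 0x1b36) (nat_lit 2) [nat_lit 0x3001,nat_lit 33,nat_lit 0x22001],
    .r (nat_lit 0x1c79) (nat_lit 1) [nat_lit 0x5021,nat_lit 0x2021,nat_lit 0x64031],
    .r (nat_lit 0x1b04) (nat_lit 8) [nat_lit 33,nat_lit 0x20001],.r (nat_lit 0x174e) (nat_lit 3) [nat_lit 0x330232,
    nat_lit 0x20001],.r (nat_lit 32) (nat_lit 1) [nat_lit 0x30231,nat_lit 0x20001],.c (nat_lit 0) (nat_lit 0x33225),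
    .c (nat_lit 1) (nat_lit 0x20302),.c (nat_lit 0) (nat_lit 0x33225),.r (nat_lit 0x1c71) (nat_lit 2) [nat_lit 0x3001,
    nat_lit 33,nat_lit 0x22001],.r (nat_lit 0x1b36) (nat_lit 2) [nat_lit 0x3001,nat_lit 0x2021,nat_lit 0x22001],
    .c (nat_lit 2) (nat_lit 514),.r (nat_lit 0x1c79) (nat_lit 1) [nat_lit 0x3021,nat_lit 0x4021,nat_lit 0x62031],
    .c (nat_lit 3) (nat_lit 2),.r (nat_lit 0x157d) (nat_lit 7) [nat_lit 0x776632,nat_lit 0x7001,nat_lit 0x677632,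
    nat_lit 33],.r (nat_lit 0x1c7a) (nat_lit 2) [nat_lit 0x3001,nat_lit 0x22001,nat_lit 0x233201,nat_lit 0x544521],
    .r (nat_lit 0x1c57) (nat_lit 4) [nat_lit 0x2001,nat_lit 0x203231,nat_lit 0x20001],
    .r (nat_lit 0x1ce4) (nat_lit 3) [nat_lit 0x22001,nat_lit 33],.r (nat_lit 0x1324) (nat_lit 7) [nat_lit 65,
    nat_lit 0x333251,nat_lit 0x233201,nat_lit 0x332251],.r (nat_lit 0) (nat_lit 4) [nat_lit 33,nat_lit 0x20001],
    .r (nat_lit 0x1c77) (nat_lit 2) [nat_lit 0x3001,nat_lit 0x332232,nat_lit 0x22001],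
    .r (nat_lit 0x1b04) (nat_lit 8) [nat_lit 0x2021,nat_lit 0x20001],.r (nat_lit 32) (nat_lit 1) [nat_lit 0x33231,
    nat_lit 0x20001],.r (nat_lit 0x174e) (nat_lit 3) [nat_lit 0x333232,nat_lit 0x20001],.c (nat_lit 4) (nat_lit 2),
    .r (nat_lit 0x1c3b) (nat_lit 0) [nat_lit 0x30021,nat_lit 0x20001,nat_lit 0x233201],
    .r (nat_lit 0x1b1b) (nat_lit 2) [nat_lit 0x3001,nat_lit 0x33021,nat_lit 0x22001],.c (nat_lit 5) (nat_lit 2),
    .c (nat_lit 0) (nat_lit 0x33325),.c (nat_lit 1) (nat_lit 0x20002),.c (nat_lit 0) (nat_lit 0x33325),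
    .c (nat_lit 6) (nat_lit 2),.r (nat_lit 0x1c71) (nat_lit 2) [nat_lit 0x3001,nat_lit 0x2021,nat_lit 0x22001],
    .c (nat_lit 0) (nat_lit 0x33325),.r (nat_lit 0x1b36) (nat_lit 2) [nat_lit 0x3001,nat_lit 0x4021,nat_lit 0x22001],
    .c (nat_lit 7) (nat_lit 2),.r (nat_lit 0x1c79) (nat_lit 1) [nat_lit 33,nat_lit 0x6021,nat_lit 0x60031]]]

/-- nodes -/
noncomputable def rD7k_25_9 : List RJ :=
  [.l (nat_lit 12) (nat_lit 720) (nat_lit 4) (nat_lit 0x1280000011a00000122000001220000012100000121000000f00000015000000123000001230000012c0000012c0000014600000146) (nat_lit 0x36000000280000002e0000002e0000002f0000002f00000000000000600000002d0000002d00000024000000240000000a0000000a)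
    (nat_lit 0x1021000fa0b00fd0f50900c80fb0fb15c09011e11e0e41020e80ec0e50eb1180b40ed0e713e0f615a15e0ec0b00f40f40f90f71280c80f50f70b00fe1080d00e80fa0f80f40e90f31220be0e50f70fe0fe11c1180eb0f50f30f70f60ee11f0cb0f40f40fd10d1171170e50fd0e90f90f20f61210c10f40f40fd1031171170b40c80be0c80c10cb0f00900bd0c30cc0cc0e20e611809012212812111f1500f012312310212c1461460e70fb0f70f70f40f41230c30f60f60ff0ff1b11430ed0fb0e50f50f40f41230bd0f60f60ff0ff18d11f0f60900fe0fe10310d12c0cc0ff0ff10210812212213e15c0fe0b00fd0fd1020cc0ff0ff14a10212212215e11e1180d01171171460e611f1431221220e40fa15a11e11c1081171171460e218d1b112212213c0e4)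
    (nat_lit 0x1022d02d02d02d02d02d02d02d02d02d02d02d02d01001022d02d02d02d02d02d02d02d02d02d02d02d00fa0e80f42d02d02d02d02d02d02d02d02d02d02d00b00ec0f40f42d02d02d02d02d02d02d02d02d02d00fd0e50f90e90f62d02d02d02d02d02d02d02d02d00f50eb0f70f30ee0f62d02d02d02d02d02d02d02d009011812812211f1210f02d02d02d02d02d02d02d00c80b40c80be0cb0c10900f02d02d02d02d02d02d00fb0ed0f50e50f40f40bd1230f62d02d02d02d02d00fb0e70f70f70f40f40c31230f60f62d02d02d02d015c13e0b00fe0fd0fd0cc1020ff0ff1022d02d02d00900f60fe0fe10d1030cc12c0ff0ff1081022d02d011e15a10811c1171170e21461b118d1221220e42d011e15e0d01181171170e614614311f1221220fa0e4)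
    (nat_lit 4) (nat_lit 43)
    [[nat_lit 2,nat_lit 3,nat_lit 17,nat_lit 0x1001,nat_lit 0x10001,nat_lit 0x100001,nat_lit 0x1000001],[nat_lit 32,
    nat_lit 0x100020,nat_lit 272,nat_lit 0x1000110,nat_lit 0x1010,nat_lit 0x1001010,nat_lit 0x1110,nat_lit 0x2010,
    nat_lit 0x101010,nat_lit 0x10010,nat_lit 0x1010010,nat_lit 0x100010,nat_lit 0x100110,nat_lit 0x110010,
    nat_lit 0x200010,nat_lit 0x1100010,nat_lit 0x1000010],[nat_lit 512,nat_lit 0x1100,nat_lit 0x1001100,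
    nat_lit 0x10100,nat_lit 0x100100,nat_lit 0x1100100,nat_lit 0x1000100],[nat_lit 0x2000,nat_lit 0x1002000,
    nat_lit 0x11000,nat_lit 0x1011000,nat_lit 0x101000,nat_lit 0x1101000,nat_lit 0x1001000,nat_lit 0x2002000,
    nat_lit 0x2001000],[nat_lit 0x20000,nat_lit 0x110000,nat_lit 0x1110000,nat_lit 0x1010000],[nat_lit 0x200000,
    nat_lit 0x1200000,nat_lit 0x1100000,nat_lit 0x2100000],[nat_lit 0x2000000]]
    [.c (nat_lit 1) (nat_lit 2),.r (nat_lit 0x12a2) (nat_lit 5) [nat_lit 0x700021,nat_lit 0x77631,nat_lit 0x660031,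
    nat_lit 33],.c (nat_lit 7) (nat_lit 0x33002),.r (nat_lit 0x1cba) (nat_lit 10) [nat_lit 0x33231,nat_lit 0x2001,
    nat_lit 33],.r (nat_lit 0x174e) (nat_lit 6) [nat_lit 0x2001,nat_lit 33],.c (nat_lit 0) (nat_lit 0x22203),
    .r (nat_lit 0x1b51) (nat_lit 1) [nat_lit 0x2001,nat_lit 0x3021,nat_lit 0x30231],.c (nat_lit 2) (nat_lit 2),
    .r (nat_lit 4) (nat_lit 12) [nat_lit 0x2001,nat_lit 0x355221],.r (nat_lit 4) (nat_lit 12) [nat_lit 0x2001,
    nat_lit 33],.r (nat_lit 0x1ca3) (nat_lit 10) [nat_lit 0x2001,nat_lit 0x20001,nat_lit 0x33021],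
    .c (nat_lit 0) (nat_lit 0x2003),.r (nat_lit 8) (nat_lit 8) [nat_lit 0x22031,nat_lit 0x33201],
    .r (nat_lit 0x174e) (nat_lit 6) [nat_lit 0x2001,nat_lit 0x3231],.r (nat_lit 0x12a3) (nat_lit 5) [nat_lit 0x40031,
    nat_lit 33,nat_lit 0x595401,nat_lit 0x440001],.r (nat_lit 4) (nat_lit 6) [nat_lit 0x2001,nat_lit 0x355221],
    .c (nat_lit 0) (nat_lit 0x2003),.r (nat_lit 0x1a32) (nat_lit 2) [nat_lit 0x30021,nat_lit 0x22031,nat_lit 0x33201],
    .c (nat_lit 0) (nat_lit 0x22203),.c (nat_lit 1) (nat_lit 0x20023),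
    .r (nat_lit 0x1a29) (nat_lit 0) [nat_lit 0x333021,nat_lit 0x22031,nat_lit 0x33201],
    .r (nat_lit 0x12a4) (nat_lit 5) [nat_lit 0x40001,nat_lit 0x599421,nat_lit 0x444031,nat_lit 0x4031],
    .c (nat_lit 2) (nat_lit 770),.r (nat_lit 0x1ce4) (nat_lit 13) [nat_lit 33,nat_lit 0x33201],
    .c (nat_lit 3) (nat_lit 2),.r (nat_lit 4) (nat_lit 6) [nat_lit 0x2001,nat_lit 33],
    .c (nat_lit 5) (nat_lit 0x33323),.r (nat_lit 0x1a29) (nat_lit 0) [nat_lit 0x22321,nat_lit 0x333231,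
    nat_lit 0x33201],.r (nat_lit 0x12a4) (nat_lit 5) [nat_lit 0x40001,nat_lit 0x355221,nat_lit 0x200231,
    nat_lit 0x350231],.c (nat_lit 1) (nat_lit 0x3023),.c (nat_lit 2) (nat_lit 0x24232),.c (nat_lit 4) (nat_lit 2),
    .r (nat_lit 0x1c01) (nat_lit 7) [nat_lit 0x2001,nat_lit 0x3021,nat_lit 0x33201],.c (nat_lit 0) (nat_lit 0x2003),
    .c (nat_lit 1) (nat_lit 0x20002),.r (nat_lit 0x1919) (nat_lit 0) [nat_lit 0x2001,nat_lit 33,nat_lit 0x33201,
    nat_lit 0x303031],.c (nat_lit 4) (nat_lit 770),.r (nat_lit 0x1b4a) (nat_lit 5) [nat_lit 0x2031,nat_lit 33,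
    nat_lit 0x33201],.r (nat_lit 0x1a29) (nat_lit 0) [nat_lit 0x500032,nat_lit 34,nat_lit 0x33201],
    .r (nat_lit 0x1ca5) (nat_lit 0) [nat_lit 0x2001,nat_lit 0x5021,nat_lit 0x33201,nat_lit 0x302031],
    .c (nat_lit 5) (nat_lit 2),.r (nat_lit 0x1750) (nat_lit 6) [nat_lit 33,nat_lit 0x33201],
    .c (nat_lit 5) (nat_lit 770),.r (nat_lit 0x199b) (nat_lit 7) [nat_lit 0x300031,nat_lit 0x2031,nat_lit 0x33201,
    nat_lit 33],.c (nat_lit 6) (nat_lit 2),.c (nat_lit 6) (nat_lit 770),.c (nat_lit 0) (nat_lit 515),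
    .c (nat_lit 7) (nat_lit 770),.c (nat_lit 7) (nat_lit 2)],
    .l (nat_lit 16) (nat_lit 0x2580) (nat_lit 4) (nat_lit 0xef400000ef40000112600000ea600001149000011490000106b0000106b000014180000141800000fe600000fe60000104e000010ee) (nat_lit 0x5240000052400000572000002f2000002cf000002cf000003ad000003ad000000000000000000000432000004320000032a000003ca)
    (nat_lit 0x104c0be009820c020a570c2508970a150ef40d380a9e0ac20bca0b2a0954104c0d4e0c020b9707dd102b10690ef40ea4109e10c20bca0a5e0c020c020ffc0eb009350a8b0dc90e070b260c420dc00cf4078007800d4e09820e180ffc0af90bd70af90bd70bce0ea60f0c07c40b7c0a6407dd0c250bd70a8b0d9c09960d9c0e7a13f911490d8f0fef0e1f08e70b970a570af909350e7a0d9c0ea60d9c143711870e990f110f5110e510690a150bd70e070d9c0e7a0c800cbe0e710f6108d3094b0f0f0b1f102b08970af90dc90ea60d9c0cbe0c80106b106b07f50c390efd09f10ea40d380ea60c4211871149106b0f611418141812960fe6139e14920ef40ef40bce0b26143713f9106b0e7114181418117a0fe610ee11e210c20ac207c40cf40f110fef0c39094b0fe60fe60a200bb40cbc0a88109e0a9e0f0c0dc00e990d8f07f508d3117a12960bb40a200cbc0c1c0a5e0b2a0a64078010e508e709f10b1f11e214920c1c0a880d480c840bca0bca0b7c07800f510e1f0efd0f0f10ee139e0cbc0cbc0bb40d48)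
    (nat_lit 0x104c25802580258025802580258025802580258025802580258025800be0104c25802580258025802580258025802580258025802580258009820d4e0ffc258025802580258025802580258025802580258025800c020c020eb00ffc25802580258025802580258025802580258025800a570b9709350af90d9c2580258025802580258025802580258025800c2507dd0a8b0bd709960d9c258025802580258025802580258025800897102b0dc90af90d9c0ea60c8025802580258025802580258025800a1510690e070bd70e7a0d9c0cbe0c802580258025802580258025800ef40ef40b260bce13f914370e71106b1418258025802580258025800d380ea40c420ea6114911870f61106b1418141825802580258025800a9e109e0dc00f0c0d8f0e9908d307f51296117a0a202580258025800ac210c20cf407c40fef0f11094b0c390fe60fe60bb40a20258025800bca0bca07800b7c0e1f0f510f0f0efd139e10ee0cbc0cbc0d4825800b2a0a5e07800a6408e710e50b1f09f1149211e20a880c1c0c840d48)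
    (nat_lit 3) (nat_lit 79)
    [[nat_lit 2,nat_lit 18,nat_lit 0x100002,nat_lit 0x1000002,nat_lit 0x1002,nat_lit 17,nat_lit 33,nat_lit 0x1011,
    nat_lit 0x10011,nat_lit 0x100011,nat_lit 0x1000011,nat_lit 0x1001,nat_lit 0x101001,nat_lit 0x1001001,
    nat_lit 0x10001,nat_lit 0x110001,nat_lit 0x1010001,nat_lit 0x100001,nat_lit 0x200002,nat_lit 0x101011,
    nat_lit 0x1100011,nat_lit 0x200001,nat_lit 0x1100001,nat_lit 0x1000001,nat_lit 0x2000001],[nat_lit 32,nat_lit 48,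
    nat_lit 0x1020,nat_lit 0x100020,nat_lit 272,nat_lit 0x1010,nat_lit 0x2010,nat_lit 0x101010,nat_lit 0x1001010,
    nat_lit 0x1101010,nat_lit 0x2020,nat_lit 0x10010,nat_lit 0x110010,nat_lit 0x1010010,nat_lit 0x100010,
    nat_lit 0x1000010,nat_lit 0x1110010,nat_lit 0x1100010,nat_lit 0x2000010],[nat_lit 0x1100,nat_lit 0x100100,
    nat_lit 0x1100100,nat_lit 0x1000100],[nat_lit 0x2000,nat_lit 0x11000,nat_lit 0x111000,nat_lit 0x1011000,
    nat_lit 0x101000,nat_lit 0x1101000,nat_lit 0x1001000,nat_lit 0x2001000],[nat_lit 0x20000,nat_lit 0x120000,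
    nat_lit 0x1020000,nat_lit 0x110000,nat_lit 0x210000,nat_lit 0x1110000,nat_lit 0x1010000,nat_lit 0x2020000,
    nat_lit 0x2010000],[nat_lit 0x200000,nat_lit 0x1100000,nat_lit 0x2100000],[nat_lit 0x2000000]]
    [.c (nat_lit 1) (nat_lit 2),.r (nat_lit 32) (nat_lit 5) [nat_lit 0x2b11a,nat_lit 0x2281a],
    .r (nat_lit 0x1cc8) (nat_lit 0) [nat_lit 0xa11,nat_lit 0x20819,nat_lit 17],
    .r (nat_lit 0x1cc8) (nat_lit 4) [nat_lit 17,nat_lit 0x20819,nat_lit 0xa11],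
    .r (nat_lit 0x1cdb) (nat_lit 10) [nat_lit 0x10819,nat_lit 0x611],.r (nat_lit 0x1bec) (nat_lit 13) [nat_lit 17,
    nat_lit 0x10001],.r (nat_lit 0x1cca) (nat_lit 4) [nat_lit 0x401,nat_lit 0x611,nat_lit 0x10001],
    .r (nat_lit 0x1aa7) (nat_lit 4) [nat_lit 0x401,nat_lit 0x18099,nat_lit 0x10001],
    .r (nat_lit 32) (nat_lit 5) [nat_lit 0x2b71a,nat_lit 0x2241a],.r (nat_lit 32) (nat_lit 5) [nat_lit 0x18099,
    nat_lit 0x12419],.r (nat_lit 0x1bfd) (nat_lit 0) [nat_lit 0x601,nat_lit 0x18099,nat_lit 0x10401],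
    .c (nat_lit 0) (nat_lit 0x5625),.r (nat_lit 0x1bfd) (nat_lit 4) [nat_lit 0x401,nat_lit 0x18099,nat_lit 0x10001],
    .c (nat_lit 6) (nat_lit 0x241a),.c (nat_lit 1) (nat_lit 130),.r (nat_lit 0x1cc8) (nat_lit 0) [nat_lit 0x611,
    nat_lit 0x20419,nat_lit 0x411],.r (nat_lit 0x1cc8) (nat_lit 4) [nat_lit 0x411,nat_lit 0x20419,nat_lit 0x611],
    .r (nat_lit 0x1750) (nat_lit 6) [nat_lit 0x611,nat_lit 0x10401],.r (nat_lit 8) (nat_lit 8) [nat_lit 0xa12,
    nat_lit 0x10401],.c (nat_lit 7) (nat_lit 0x3013),.c (nat_lit 4) (nat_lit 0x3013),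
    .r (nat_lit 0x1bb5) (nat_lit 5) [nat_lit 0x401,nat_lit 0x611,nat_lit 0x10001],
    .r (nat_lit 0x1b35) (nat_lit 5) [nat_lit 0x401,nat_lit 0x18099,nat_lit 0x120d1,nat_lit 0x10001],
    .c (nat_lit 0) (nat_lit 0x5625),.r (nat_lit 0x1bb5) (nat_lit 2) [nat_lit 0x601,nat_lit 17,nat_lit 0x10401],
    .c (nat_lit 2) (nat_lit 2),.r (nat_lit 0x186e) (nat_lit 4) [nat_lit 17,nat_lit 0x601a,nat_lit 0x401,
    nat_lit 0x10001],.r (nat_lit 0x1b22) (nat_lit 13) [nat_lit 0x601,nat_lit 0x10401,nat_lit 0x100d1],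
    .r (nat_lit 0x186e) (nat_lit 4) [nat_lit 0x3021,nat_lit 0x4019,nat_lit 0x401,nat_lit 0x10001],
    .r (nat_lit 0x1bb5) (nat_lit 5) [nat_lit 0x401,nat_lit 0x12019,nat_lit 0x10001],
    .r (nat_lit 0x1ce4) (nat_lit 3) [nat_lit 17,nat_lit 0x10001],.r (nat_lit 8) (nat_lit 6) [nat_lit 0x2b11a,
    nat_lit 0x10001],.r (nat_lit 8) (nat_lit 6) [nat_lit 0x18099,nat_lit 0x10001],
    .r (nat_lit 8) (nat_lit 8) [nat_lit 0x18699,nat_lit 0x10401],.c (nat_lit 1) (nat_lit 0x3013),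
    .r (nat_lit 0x1b35) (nat_lit 5) [nat_lit 0x401,nat_lit 18,nat_lit 0x401a,nat_lit 0x10001],
    .r (nat_lit 0x1bec) (nat_lit 13) [nat_lit 0x411,nat_lit 0x10001],.r (nat_lit 32) (nat_lit 5) [nat_lit 0x18699,
    nat_lit 0x12019],.r (nat_lit 0x1bfd) (nat_lit 0) [nat_lit 0x601,nat_lit 0x18699,nat_lit 0x10401],
    .c (nat_lit 0) (nat_lit 0x405),.r (nat_lit 0x1ce4) (nat_lit 13) [nat_lit 17,nat_lit 0x10401],
    .c (nat_lit 4) (nat_lit 0x30d3),.r (nat_lit 0x1b2f) (nat_lit 4) [nat_lit 0x401,nat_lit 0x18699,nat_lit 0x10001],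
    .r (nat_lit 0x1b2f) (nat_lit 4) [nat_lit 0x401,nat_lit 0x2bb1a,nat_lit 0x10001],
    .r (nat_lit 0x1b61) (nat_lit 0) [nat_lit 0x601,nat_lit 0x18611,nat_lit 0x10401],
    .r (nat_lit 32) (nat_lit 5) [nat_lit 0x2b691,nat_lit 17],.r (nat_lit 0x1cdb) (nat_lit 4) [nat_lit 0x10419,
    nat_lit 17],.r (nat_lit 0x1b1b) (nat_lit 1) [nat_lit 0x18011,nat_lit 0x401,nat_lit 0x10001],
    .c (nat_lit 4) (nat_lit 2),.c (nat_lit 0) (nat_lit 0x5765),.r (nat_lit 0x1bfd) (nat_lit 4) [nat_lit 0x401,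
    nat_lit 0x18699,nat_lit 0x10001],.c (nat_lit 6) (nat_lit 0x249a),.r (nat_lit 0x1ce4) (nat_lit 6) [nat_lit 0x10001,
    nat_lit 17],.r (nat_lit 0x1c01) (nat_lit 11) [nat_lit 0x18099,nat_lit 0x120d1,nat_lit 0x10001],
    .c (nat_lit 0) (nat_lit 0x5625),.r (nat_lit 0x1ce9) (nat_lit 4) [nat_lit 0x2001,nat_lit 17,nat_lit 0x1b099,
    nat_lit 0x1b699],.c (nat_lit 5) (nat_lit 2),.r (nat_lit 0x1cc8) (nat_lit 0) [nat_lit 17,nat_lit 0x20019,
    nat_lit 0x811],.r (nat_lit 0x1cc8) (nat_lit 4) [nat_lit 0x811,nat_lit 0x20019,nat_lit 17],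
    .r (nat_lit 0x1750) (nat_lit 6) [nat_lit 17,nat_lit 0x10401],.r (nat_lit 0x1bb5) (nat_lit 5) [nat_lit 0x401,
    nat_lit 17,nat_lit 0x10001],.r (nat_lit 0x1b35) (nat_lit 5) [nat_lit 0x401,nat_lit 0x18699,nat_lit 0x124d1,
    nat_lit 0x10001],.c (nat_lit 0) (nat_lit 0x5765),.r (nat_lit 8) (nat_lit 6) [nat_lit 0x812,nat_lit 0x10001],
    .r (nat_lit 0x1bb5) (nat_lit 2) [nat_lit 0x601,nat_lit 0x411,nat_lit 0x10401],.c (nat_lit 6) (nat_lit 2),
    .r (nat_lit 0x1bec) (nat_lit 1) [nat_lit 17,nat_lit 0x10401],.r (nat_lit 0x1ce8) (nat_lit 4) [nat_lit 0x401,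
    nat_lit 0x10001,nat_lit 17,nat_lit 0x2029],.c (nat_lit 7) (nat_lit 2)]]

/-- nodes -/
noncomputable def rD7k_25_10 : List RJ :=
  [.l (nat_lit 16) (nat_lit 0x2760) (nat_lit 3) (nat_lit 0xe8f00000e8f00000f5400000f5400000f6000000f600000131c0000131c0000125800001258000010eb000010eb0000106e0000106e) (nat_lit 0x48d0000048d000003c8000003c8000003bc000003bc0000000000000000000000c4000000c40000023100000231000002ae000002ae)
    (nat_lit 0xa020a020a8b0af10ad3095b0ef90e8f129915070a6a0c5e0be109ed09d80a020ac70ac70ad309310ecf0e8f125914c70cc60c5e0bb70be10ac70af10d2e0bb60b980b9808580f540e900e500d2308950ca60c3e0ac70a8b0e7c0d2e0b980b980b4411200d960e900ce7082d0e1e0d8c0931095b0b980b9809d808b40f600f60139212ac0c490e290cee0cee0ad30ad30b980b980afc09d810460f6014b413d00d2f0a7f0cb20cb20e8f0e8f11200f540f600f600de813c41508117210eb0ad3106e106e0ecf0ef90b44085810460f60131c0de815ee125810eb10eb0932106e14c715070e900e5013d012ac125811721194119410270c910f400faa125912990d960e9014b4139215ee1508101c11940f2d10270faa0dca0c5e0c5e082d08950a7f0e2910eb0ad310270c91109a1032096f0f370cc60a6a0ce70d230d2f0c4910eb10eb0f2d10270eba109a10310e3d0be109ed0d8c0c3e0cb20cee106e106e0dca0faa0e3d0f370fb40dc00bb70be10e1e0ca60cb20cee0932106e0faa0f401031096f0dc00fb4)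
    (nat_lit 0xa0227602760276027602760276027602760276027602760276027600a020a022760276027602760276027602760276027602760276027600a8b0ac70d2e276027602760276027602760276027602760276027600af10ac70bb60d2e27602760276027602760276027602760276027600ad30ad30b980b9809d8276027602760276027602760276027602760095b09310b980b9808b409d8276027602760276027602760276027600ef90ecf08580b440f6010460de827602760276027602760276027600e8f0e8f0f5411200f600f6013c40de8276027602760276027602760129912590e900d96139214b4150815ee119427602760276027602760150714c70e500e9012ac13d0117212581194119427602760276027600a6a0cc60d230ce70c490d2f10eb10eb10270f2d109a2760276027600c5e0c5e0895082d0e290a7f0ad310850c9110271032109a276027600be10bb70ca60e1e0cee0cb2106e09320f400faa096f10310fb4276009ed0be10c3e0d8c0cee0cb2106e106e0faa0dca0f370e3d0dc00fb4)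
    (nat_lit 4) (nat_lit 61)
    [[nat_lit 2,nat_lit 0x1000002,nat_lit 17,nat_lit 0x10011,nat_lit 0x100011,nat_lit 0x1000011,nat_lit 257,
    nat_lit 0x1001,nat_lit 0x101001,nat_lit 0x1011,nat_lit 0x11001,nat_lit 0x1001001,nat_lit 0x10001,nat_lit 0x20001,
    nat_lit 0x110001,nat_lit 0x1010001,nat_lit 0x100001,nat_lit 0x1100001,nat_lit 0x1000001,nat_lit 0x2000001],
    [nat_lit 32,nat_lit 0x100020,nat_lit 272,nat_lit 0x100110,nat_lit 0x1010,nat_lit 0x101010,nat_lit 0x10010,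
    nat_lit 0x20010,nat_lit 0x110010,nat_lit 0x1010010,nat_lit 0x100010,nat_lit 0x200010,nat_lit 0x1100010,
    nat_lit 0x1000010,nat_lit 0x1001010,nat_lit 0x2000010],[nat_lit 512,nat_lit 0x100100],[nat_lit 0x2000,
    nat_lit 0x11000,nat_lit 0x101000,nat_lit 0x111000,nat_lit 0x201000,nat_lit 0x1101000,nat_lit 0x1001000],
    [nat_lit 0x20000,nat_lit 0x30000,nat_lit 0x120000,nat_lit 0x1020000,nat_lit 0x110000,nat_lit 0x210000,
    nat_lit 0x1110000,nat_lit 0x1010000,nat_lit 0x2010000],[nat_lit 0x200000,nat_lit 0x1200000,nat_lit 0x1100000,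
    nat_lit 0x2100000],[nat_lit 0x2000000,nat_lit 0x3000000]]
    [.c (nat_lit 1) (nat_lit 2),.r (nat_lit 0x1c71) (nat_lit 1) [nat_lit 0x3001,nat_lit 0x2021,nat_lit 0x22001],
    .c (nat_lit 0) (nat_lit 0x23323),.r (nat_lit 0x1cdb) (nat_lit 8) [nat_lit 0x22031,nat_lit 33],
    .r (nat_lit 0x1b88) (nat_lit 4) [nat_lit 0x233231,nat_lit 0x30231,nat_lit 0x322341],
    .r (nat_lit 0x1cdb) (nat_lit 8) [nat_lit 0x20031,nat_lit 0x2021],
    .r (nat_lit 0x1cdb) (nat_lit 8) [nat_lit 0x322321,nat_lit 0x200231],.r (nat_lit 0) (nat_lit 6) [nat_lit 0x20001,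
    nat_lit 33],.r (nat_lit 0x1c77) (nat_lit 1) [nat_lit 0x3001,nat_lit 0x30231,nat_lit 0x22001],
    .r (nat_lit 0x15a0) (nat_lit 7) [nat_lit 0x44001,nat_lit 0x95451,nat_lit 0x40001,nat_lit 0x233201],
    .r (nat_lit 32) (nat_lit 2) [nat_lit 0x30231,nat_lit 0x20001],.r (nat_lit 32) (nat_lit 2) [nat_lit 0x33231,
    nat_lit 0x20001],.r (nat_lit 0x1750) (nat_lit 1) [nat_lit 0x3021,nat_lit 0x22001],
    .r (nat_lit 0x1b36) (nat_lit 1) [nat_lit 0x3001,nat_lit 33,nat_lit 0x22001],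
    .r (nat_lit 0xe80) (nat_lit 1) [nat_lit 0x333341,nat_lit 0x44001,nat_lit 0x50451,nat_lit 0x233201],
    .r (nat_lit 0x1b36) (nat_lit 1) [nat_lit 0x3001,nat_lit 0x2021,nat_lit 0x22001],
    .r (nat_lit 0x1bed) (nat_lit 1) [nat_lit 0x3001,nat_lit 33,nat_lit 0x233251,nat_lit 0x22001],
    .r (nat_lit 0xe80) (nat_lit 1) [nat_lit 0x332341,nat_lit 0x44001,nat_lit 0x55451,nat_lit 0x233201],
    .r (nat_lit 0x1750) (nat_lit 1) [nat_lit 33,nat_lit 0x22001],.r (nat_lit 0x1b36) (nat_lit 1) [nat_lit 0x3001,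
    nat_lit 0x4021,nat_lit 0x22001],.c (nat_lit 2) (nat_lit 2),.r (nat_lit 0x15a1) (nat_lit 1) [nat_lit 0x5d5431,
    nat_lit 0x66001,nat_lit 0x262341,nat_lit 0x275431],.r (nat_lit 0x1c71) (nat_lit 1) [nat_lit 0x3001,
    nat_lit 0x200231,nat_lit 0x22001],.r (nat_lit 0x1c5a) (nat_lit 1) [nat_lit 0x3001,nat_lit 0x22001,
    nat_lit 0x33021],.r (nat_lit 0x1ce4) (nat_lit 3) [nat_lit 33,nat_lit 0x22001],
    .r (nat_lit 8) (nat_lit 6) [nat_lit 0x33231,nat_lit 0x22001],.r (nat_lit 0x1c82) (nat_lit 6) [nat_lit 33,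
    nat_lit 0x20001],.r (nat_lit 0x1cdb) (nat_lit 8) [nat_lit 0x366332,nat_lit 0x233222],
    .r (nat_lit 32) (nat_lit 8) [nat_lit 0x30231,nat_lit 0x20001],.r (nat_lit 0x1cdb) (nat_lit 8) [nat_lit 0x364332,
    nat_lit 0x230222],.r (nat_lit 0) (nat_lit 3) [nat_lit 33,nat_lit 0x20001],
    .r (nat_lit 0x1b88) (nat_lit 4) [nat_lit 0x233232,nat_lit 0x332232,nat_lit 33],
    .r (nat_lit 32) (nat_lit 8) [nat_lit 0x33231,nat_lit 0x20001],.r (nat_lit 0x1c82) (nat_lit 6) [nat_lit 0x2021,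
    nat_lit 0x20001],.r (nat_lit 0x1c88) (nat_lit 1) [nat_lit 0x3001,nat_lit 0x33231,nat_lit 0x22001],
    .r (nat_lit 0x1cdb) (nat_lit 8) [nat_lit 0x362332,nat_lit 0x232222],.c (nat_lit 3) (nat_lit 2),
    .r (nat_lit 0x1b56) (nat_lit 4) [nat_lit 0x30021,nat_lit 0x20001,nat_lit 0x233021],.c (nat_lit 4) (nat_lit 2),
    .c (nat_lit 0) (nat_lit 0x33225),.c (nat_lit 0) (nat_lit 0x33325),.c (nat_lit 1) (nat_lit 0x20302),
    .r (nat_lit 0x1cec) (nat_lit 11) [nat_lit 0x2001,nat_lit 0x20001,nat_lit 0x22321],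
    .c (nat_lit 1) (nat_lit 0x20002),.c (nat_lit 0) (nat_lit 0x33325),.c (nat_lit 5) (nat_lit 2),
    .r (nat_lit 0x1c79) (nat_lit 2) [nat_lit 0x7021,nat_lit 33,nat_lit 0x66031],
    .r (nat_lit 0x1c5d) (nat_lit 0) [nat_lit 33,nat_lit 0x44031,nat_lit 0x5021],
    .r (nat_lit 0x1c79) (nat_lit 2) [nat_lit 0x5021,nat_lit 0x2021,nat_lit 0x64031],.c (nat_lit 0) (nat_lit 0x33225),
    .r (nat_lit 0x1c57) (nat_lit 11) [nat_lit 0x2001,nat_lit 0x3021,nat_lit 0x20001],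
    .r (nat_lit 0x1c5d) (nat_lit 0) [nat_lit 0x2021,nat_lit 0x42031,nat_lit 0x3021],.c (nat_lit 3) (nat_lit 0x4203),
    .r (nat_lit 0x1c79) (nat_lit 2) [nat_lit 0x3021,nat_lit 0x4021,nat_lit 0x62031],.c (nat_lit 6) (nat_lit 2),
    .r (nat_lit 0x1c57) (nat_lit 11) [nat_lit 0x2001,nat_lit 33,nat_lit 0x20001],.c (nat_lit 0) (nat_lit 0x33325),
    .r (nat_lit 0x1c5d) (nat_lit 0) [nat_lit 0x4021,nat_lit 0x40031,nat_lit 33],.c (nat_lit 7) (nat_lit 2),
    .r (nat_lit 0x1c79) (nat_lit 2) [nat_lit 33,nat_lit 0x6021,nat_lit 0x60031]],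
    .l (nat_lit 13) (nat_lit 0x5a0) (nat_lit 4) (nat_lit 0x20a0000020a000002370000023700000213000002130000021900000219000002250000022500000258000002580000025100000251) (nat_lit 0x4e0000004e000000210000002100000045000000450000003f0000003f000000330000003300000000000000000000000700000007)
    (nat_lit 0xf006f03d21fb0d6871419a1dd0eb86843780f410189444081e00fd87a438a1c50dc872c3421b915e08283e21070f487ec42c1ce0f9078042c1f8102085866626d10605f83f61e910b08583c01f20fc076842c20419989b44602300e287143e41e00f607383a81e60d50780426201106044038a1ad0f007c842c1ec0f307503a820a10987bc3f42480e587743b41f80ea079836019210507503ba22511508483720cd0fc08583cc1d40ed06c04501e60e5890c4902120dc868440821610507803cc1d40e407c844a1e318e09b03421d710b08103a81aa11408283e41c8112889466828410503d04da26d0f78804486225112878c3e425812889445781bc1998ccc4262130e5877444a22515207c8406251083894446017e124044042421214209b04a225114c07f83e220311808303f420c12408a866831c1018944494298)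
    (nat_lit 0xf01680b405a02d01680b405a02d01680b405a02d016803781e02d01680b405a02d01680b405a02d01680b405a00f487ec42c5a02d01680b405a02d01680b405a02d016803f61e90e70858b405a02d01680b405a02d01680b405a00d687143e41e00f61680b405a02d01680b405a02d0168038a1c50f007c839c1ec2d01680b405a02d01680b405a006686e442c1f80ea07983605a02d01680b405a02d016803ba1cb0fc07683cc1d40c906c0b405a02d01680b405a00eb86844082160d507504142280e41680b405a02d016803421b910b08103c020a0ea07983e41c82d01680b405a00de0af0666333109884c3ba1cb11288943e45a02d016801e820a13689b44021ef112890c3c622512c07c8b405a010187c441823010607e845424818e0cd04a220314c16804a21070bf08c022024810907504d82840fd89443fc298)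
    (nat_lit 4) (nat_lit 61)
    [[nat_lit 2,nat_lit 17,nat_lit 0x10011,nat_lit 0x1000011,nat_lit 0x1001,nat_lit 0x11001,nat_lit 0x1001001,
    nat_lit 0x10001,nat_lit 0x20001,nat_lit 0x110001,nat_lit 0x1010001,nat_lit 0x100001,nat_lit 0x1100001,
    nat_lit 0x1000001,nat_lit 0x2000001],[nat_lit 32,nat_lit 272,nat_lit 0x1000110,nat_lit 0x1010,nat_lit 0x1001010,
    nat_lit 0x10010,nat_lit 0x1010010,nat_lit 0x1000010,nat_lit 0x2000010],[nat_lit 512,nat_lit 768,nat_lit 0x10200,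
    nat_lit 0x1000200,nat_lit 0x1100,nat_lit 0x1001100,nat_lit 0x10100,nat_lit 0x11100,nat_lit 0x1010100,
    nat_lit 0x100100,nat_lit 0x1000100,nat_lit 0x2000100],[nat_lit 0x2000,nat_lit 0x3000,nat_lit 0x12000,
    nat_lit 0x1002000,nat_lit 0x11000,nat_lit 0x21000,nat_lit 0x1011000,nat_lit 0x101000,nat_lit 0x1001000,
    nat_lit 0x2002000,nat_lit 0x1101000,nat_lit 0x2001000],[nat_lit 0x20000,nat_lit 0x1020000,nat_lit 0x110000,
    nat_lit 0x1110000,nat_lit 0x1010000,nat_lit 0x2010000],[nat_lit 0x200000,nat_lit 0x1100000],[nat_lit 0x2000000]]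
    [.c (nat_lit 1) (nat_lit 2),.r (nat_lit 0x1b04) (nat_lit 13) [nat_lit 33,nat_lit 0x242052],
    .r (nat_lit 0x1bcf) (nat_lit 8) [nat_lit 0x202002,nat_lit 0x20001,nat_lit 33],
    .r (nat_lit 0x1bec) (nat_lit 9) [nat_lit 0x203042,nat_lit 0x22031],.c (nat_lit 0) (nat_lit 0x35045),
    .c (nat_lit 1) (nat_lit 0x24654),.c (nat_lit 0) (nat_lit 0x35045),.c (nat_lit 0) (nat_lit 0x35045),
    .r (nat_lit 0x1ce1) (nat_lit 6) [nat_lit 0x303042,nat_lit 0x20001,nat_lit 0x202002],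
    .r (nat_lit 0x1cd0) (nat_lit 6) [nat_lit 0x20001,nat_lit 0x202002,nat_lit 0x353042],
    .c (nat_lit 0) (nat_lit 0x35045),.r (nat_lit 0x1bec) (nat_lit 9) [nat_lit 0x242052,nat_lit 33],
    .r (nat_lit 0x1b04) (nat_lit 13) [nat_lit 0x22031,nat_lit 0x203042],.c (nat_lit 0) (nat_lit 515),
    .r (nat_lit 0) (nat_lit 3) [nat_lit 0x20001,nat_lit 0x203042],.c (nat_lit 2) (nat_lit 2),
    .r (nat_lit 0x1bec) (nat_lit 9) [nat_lit 33,nat_lit 0x242052],.r (nat_lit 0x1c16) (nat_lit 10) [nat_lit 0x20001,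
    nat_lit 0x353402,nat_lit 0x202542],.r (nat_lit 0x1ce4) (nat_lit 8) [nat_lit 0x202002,nat_lit 33],
    .r (nat_lit 8) (nat_lit 8) [nat_lit 0x303452,nat_lit 0x202002],.r (nat_lit 0x1b54) (nat_lit 3) [nat_lit 33,
    nat_lit 0x20001,nat_lit 0x2001],.r (nat_lit 0x1ccf) (nat_lit 3) [nat_lit 0x353452,nat_lit 0x20001,
    nat_lit 0x202002],.r (nat_lit 0x1ce4) (nat_lit 13) [nat_lit 33,nat_lit 0x202002],
    .r (nat_lit 0x1c8d) (nat_lit 6) [nat_lit 0x20001,nat_lit 33,nat_lit 0x202002],.c (nat_lit 3) (nat_lit 2),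
    .c (nat_lit 0) (nat_lit 0x70004),.c (nat_lit 4) (nat_lit 0x25345),.c (nat_lit 1) (nat_lit 0x20403),
    .c (nat_lit 0) (nat_lit 0x5345),.r (nat_lit 32) (nat_lit 11) [nat_lit 0x30231,nat_lit 0x20001],
    .c (nat_lit 0) (nat_lit 0x5345),.c (nat_lit 1) (nat_lit 0x2232),.r (nat_lit 0x198f) (nat_lit 7) [nat_lit 0x53451,
    nat_lit 0x20001,nat_lit 0x2001],.r (nat_lit 0x1b04) (nat_lit 13) [nat_lit 0x242052,nat_lit 33],
    .r (nat_lit 0) (nat_lit 3) [nat_lit 0x20001,nat_lit 33],.r (nat_lit 0x1cd3) (nat_lit 6) [nat_lit 0x20001,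
    nat_lit 33,nat_lit 0x202002],.c (nat_lit 4) (nat_lit 2),.r (nat_lit 0xff5) (nat_lit 7) [nat_lit 0x7d7c51,
    nat_lit 0xc0001,nat_lit 0x6001,nat_lit 0x600001],.c (nat_lit 0) (nat_lit 0x35343),
    .c (nat_lit 0) (nat_lit 0x35343),.c (nat_lit 0) (nat_lit 0x35345),.c (nat_lit 0) (nat_lit 0x35343),
    .c (nat_lit 0) (nat_lit 0x35345),.r (nat_lit 0x1cef) (nat_lit 12) [nat_lit 0x30021,nat_lit 0x20001,
    nat_lit 0x2321],.c (nat_lit 0) (nat_lit 0x35345),.c (nat_lit 0) (nat_lit 0x35343),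
    .r (nat_lit 0x1b49) (nat_lit 0) [nat_lit 0x353452,nat_lit 0x202002,nat_lit 0x20001],
    .c (nat_lit 0) (nat_lit 0x35343),.c (nat_lit 5) (nat_lit 2),.c (nat_lit 0) (nat_lit 0x35343),
    .r (nat_lit 0x1750) (nat_lit 6) [nat_lit 33,nat_lit 0x202002],.r (nat_lit 0x19c6) (nat_lit 7) [nat_lit 0x353452,
    nat_lit 0x202002,nat_lit 0x20001],.c (nat_lit 0) (nat_lit 0x35345),.c (nat_lit 0) (nat_lit 0x35343),
    .c (nat_lit 6) (nat_lit 2),.r (nat_lit 0x1bec) (nat_lit 1) [nat_lit 33,nat_lit 0x202002],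
    .c (nat_lit 7) (nat_lit 2)]]

/-- nodes -/
noncomputable def rD7k_25_11 : List RJ :=
  [.l (nat_lit 10) (nat_lit 240) (nat_lit 3) (nat_lit 0x7d0000006900000069000000690000006b0000007b0000006900000069000000960000009600000079000000790000006900000079) (nat_lit 0x2d000000190000002d0000002d0000001b0000002b0000002d0000002d00000000000000000000001d0000001d0000001d0000002d)
    (nat_lit 0x1506413048188520f04c21c8d15060180580f0540f03c1383e0f03c18c691304c1503c0f0480f03c1383e0f03c1a469130521203c0f04c0f03c1383e0f03c18c69120421303c0f8520f83e140400f83e1d46b1385414842138621384e180500f04e2147b17840188520f04c0f03c1383e0f03c21c7b120421303c0f03c0f03c0f03e0f03c1d4690f84c0f03c1a48d1a4691ec6b1a47b258961e46d2347718c8718c69214751d4872589620c791e463130601085210054130421e46d1885c14842130541204c1784e0f84820c79170621504c0f0580f03c148420f03c18c77130421603c1506013048188520f04c1e48d1505217058)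
    (nat_lit 0x150f03c0f03c0f03c0f03c0f03c0f03c0f0190543c0f03c0f03c0f03c0f03c0f03c0f01303c0f0f03c0f03c0f03c0f03c0f03c0f01203c0f03c3c0f03c0f03c0f03c0f03c0f01884e1384e140f03c0f03c0f03c0f03c0f01483e0f83e100503c0f03c0f03c0f03c0f00f03c0f03c0f83c0f0f03c0f03c0f03c0f01303c0f03c0f84e0f03c3c0f03c0f03c0f021c631a4631d48521c75258f03c0f03c0f0234691a4691ac7b1ec69258963c0f03c0f01504c130481385e1203e1e483188f03c0f01804c14842150401084c1b479170623c0f0180541204c148621303c2347914854160f01603c0f03c108520f03c1dc631084c0f058)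
    (nat_lit 5) (nat_lit 61)
    [[nat_lit 2,nat_lit 18,nat_lit 0x1002,nat_lit 0x100002,nat_lit 17,nat_lit 0x1011,nat_lit 0x100011,
    nat_lit 0x1000011,nat_lit 0x10011,nat_lit 0x1001,nat_lit 0x2001,nat_lit 0x11001,nat_lit 0x101001,
    nat_lit 0x1001001,nat_lit 0x10001,nat_lit 0x110001,nat_lit 0x100001,nat_lit 0x200001,nat_lit 0x1100001,
    nat_lit 0x1000001],[nat_lit 32,nat_lit 0x1020,nat_lit 0x1010,nat_lit 0x2010,nat_lit 0x11010,nat_lit 0x101010,
    nat_lit 0x1001010,nat_lit 0x10010,nat_lit 0x20010,nat_lit 0x110010,nat_lit 0x100010,nat_lit 0x200010,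
    nat_lit 0x1100010,nat_lit 0x1000010,nat_lit 0x1010010],[nat_lit 0x100100],[nat_lit 0x2000,nat_lit 0x3000,
    nat_lit 0x12000,nat_lit 0x102000,nat_lit 0x1002000,nat_lit 0x11000,nat_lit 0x21000,nat_lit 0x111000,
    nat_lit 0x1011000,nat_lit 0x101000,nat_lit 0x201000,nat_lit 0x1101000,nat_lit 0x1001000,nat_lit 0x2001000],
    [nat_lit 0x20000,nat_lit 0x120000,nat_lit 0x110000,nat_lit 0x210000,nat_lit 0x1110000,nat_lit 0x1010000],
    [nat_lit 0x200000,nat_lit 0x300000,nat_lit 0x1200000,nat_lit 0x1100000,nat_lit 0x2100000],[nat_lit 0x2000000]]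
    [.c (nat_lit 1) (nat_lit 2),.r (nat_lit 0x1cdb) (nat_lit 8) [nat_lit 0x4010061,nat_lit 0x18041],
    .r (nat_lit 0x1cdb) (nat_lit 10) [nat_lit 0x4020061,nat_lit 0x18041],
    .r (nat_lit 0x1b5d) (nat_lit 8) [nat_lit 0x328042,nat_lit 0x8220062,nat_lit 0x200001],
    .r (nat_lit 0x1add) (nat_lit 0) [nat_lit 0x18001,nat_lit 0x4010001,nat_lit 65],
    .r (nat_lit 0x1c01) (nat_lit 13) [nat_lit 0x6000861,nat_lit 0x4200c41,nat_lit 0x4000001],
    .r (nat_lit 0x1b5d) (nat_lit 8) [nat_lit 0x318041,nat_lit 0x4210061,nat_lit 0x200001],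
    .r (nat_lit 0x1bfd) (nat_lit 0) [nat_lit 0x18001,nat_lit 0x6000861,nat_lit 0x4010001],
    .r (nat_lit 0x1cdb) (nat_lit 8) [nat_lit 0x4000061,nat_lit 65],.c (nat_lit 0) (nat_lit 0x518085),
    .r (nat_lit 0x1cca) (nat_lit 0) [nat_lit 0x18001,nat_lit 65,nat_lit 0x4010001],
    .r (nat_lit 0x1cdb) (nat_lit 10) [nat_lit 0x4010061,nat_lit 65],.r (nat_lit 0x1bfd) (nat_lit 4) [nat_lit 0x10001,
    nat_lit 0x6000861,nat_lit 0x4000001],.c (nat_lit 2) (nat_lit 0x210062),.c (nat_lit 1) (nat_lit 0x802),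
    .r (nat_lit 0x1b5d) (nat_lit 8) [nat_lit 0x318042,nat_lit 0x8210062,nat_lit 0x200001],
    .r (nat_lit 0x1750) (nat_lit 6) [nat_lit 0x18041,nat_lit 0x4010001],
    .r (nat_lit 0x1ccd) (nat_lit 9) [nat_lit 0x4010001,nat_lit 0x18041,nat_lit 0x410061],
    .r (nat_lit 0x1bff) (nat_lit 13) [nat_lit 0x18001,nat_lit 0x4010001,nat_lit 0x200061,nat_lit 0xa301061],
    .c (nat_lit 0) (nat_lit 0x518085),.c (nat_lit 2) (nat_lit 2),.r (nat_lit 0x1b22) (nat_lit 13) [nat_lit 0x18001,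
    nat_lit 0x4010001,nat_lit 0x4000c41],.r (nat_lit 0x196f) (nat_lit 8) [nat_lit 0x18001,nat_lit 0x4010001,
    nat_lit 65],.r (nat_lit 0x1b22) (nat_lit 7) [nat_lit 0x10001,nat_lit 0x4000001,nat_lit 0x4010c41],
    .r (nat_lit 0x1c01) (nat_lit 13) [nat_lit 0x6018861,nat_lit 0x4210c41,nat_lit 0x4000001],
    .r (nat_lit 8) (nat_lit 6) [nat_lit 0x6000861,nat_lit 0x4000001],.r (nat_lit 8) (nat_lit 8) [nat_lit 0x6018861,
    nat_lit 0x4010001],.r (nat_lit 0x1add) (nat_lit 0) [nat_lit 0x18001,nat_lit 0x4010001,nat_lit 0x10041],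
    .r (nat_lit 0x1cdb) (nat_lit 8) [nat_lit 0x4018061,nat_lit 0x10041],
    .r (nat_lit 0x1b5d) (nat_lit 8) [nat_lit 0x300041,nat_lit 0x4200061,nat_lit 0x200001],
    .c (nat_lit 0) (nat_lit 0x10003),.r (nat_lit 0x186e) (nat_lit 4) [nat_lit 0x400061,nat_lit 0x300081,
    nat_lit 0x10001,nat_lit 0x4000001],.r (nat_lit 0x1b2f) (nat_lit 4) [nat_lit 0x10001,nat_lit 0x6018861,
    nat_lit 0x4000001],.r (nat_lit 0x1baf) (nat_lit 4) [nat_lit 0x10001,nat_lit 65,nat_lit 0x4000001],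
    .r (nat_lit 0x1bfd) (nat_lit 0) [nat_lit 0x18001,nat_lit 0x6018861,nat_lit 0x4010001],
    .r (nat_lit 0x1b1b) (nat_lit 11) [nat_lit 0x6018041,nat_lit 0x18001,nat_lit 0x4010001],.c (nat_lit 4) (nat_lit 2),
    .r (nat_lit 0xf20) (nat_lit 13) [nat_lit 0x18060001,nat_lit 0x3276b0a1,nat_lit 0x18000001,nat_lit 129],
    .r (nat_lit 0x1cca) (nat_lit 0) [nat_lit 0x18001,nat_lit 0x10041,nat_lit 0x4010001],
    .r (nat_lit 8) (nat_lit 6) [nat_lit 0xa301062,nat_lit 0x4000001],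
    .r (nat_lit 0xf21) (nat_lit 13) [nat_lit 0x8020001,nat_lit 0x2254a0a1,nat_lit 0x8000001,nat_lit 0x10221481],
    .c (nat_lit 0) (nat_lit 0x519485),.r (nat_lit 0x1cdb) (nat_lit 10) [nat_lit 0x4000061,nat_lit 0x10041],
    .r (nat_lit 0x1bfd) (nat_lit 4) [nat_lit 0x10001,nat_lit 0x6018861,nat_lit 0x4000001],
    .c (nat_lit 2) (nat_lit 0x210862),.r (nat_lit 0x1baf) (nat_lit 0) [nat_lit 0x18001,nat_lit 65,nat_lit 0x4010001],
    .r (nat_lit 0x1911) (nat_lit 9) [nat_lit 0x4010001,nat_lit 65,nat_lit 0x4000001,nat_lit 0x400061],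
    .r (nat_lit 0x1b2f) (nat_lit 0) [nat_lit 0x18001,nat_lit 0x6000861,nat_lit 0x4010001],
    .c (nat_lit 0) (nat_lit 0x518085),.r (nat_lit 0x1cee) (nat_lit 0) [nat_lit 0x18001,nat_lit 65,nat_lit 0x4010001],
    .c (nat_lit 5) (nat_lit 2),.r (nat_lit 0x1b5d) (nat_lit 8) [nat_lit 0x300042,nat_lit 0x8200062,nat_lit 0x200001],
    .r (nat_lit 0x1750) (nat_lit 6) [nat_lit 65,nat_lit 0x4010001],.r (nat_lit 0x1ccd) (nat_lit 9) [nat_lit 0x4010001,
    nat_lit 65,nat_lit 0x400061],.r (nat_lit 0x1bff) (nat_lit 13) [nat_lit 0x18001,nat_lit 0x4010001,nat_lit 0x218061,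
    nat_lit 0xa319061],.c (nat_lit 0) (nat_lit 0x519485),.c (nat_lit 6) (nat_lit 2),
    .r (nat_lit 0x186e) (nat_lit 4) [nat_lit 0x600062,nat_lit 65,nat_lit 0x10001,nat_lit 0x4000001],
    .r (nat_lit 0x190f) (nat_lit 4) [nat_lit 0x10001,nat_lit 0x4000001,nat_lit 65,nat_lit 0x400061],
    .r (nat_lit 0x1be7) (nat_lit 13) [nat_lit 0x200061,nat_lit 0x4010001,nat_lit 65],
    .r (nat_lit 0x1b2f) (nat_lit 4) [nat_lit 0x10001,nat_lit 0xa329062,nat_lit 0x4000001],.c (nat_lit 7) (nat_lit 2)],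
    .l (nat_lit 16) (nat_lit 0x3cf0) (nat_lit 3) (nat_lit 0x1f2200001f2200001ace0000172f00001a4f00001b1c0000188d0000172f0000180600001a3b00001bb700001bb70000182000001ace) (nat_lit 0x7f30000045400000406000004d3000007f300000695000004e70000071c0000036b0000036b0000045400000702)
    (nat_lit 0x1f221f22171e1ace20191cd7190d13fe18a0190d1a8e1caa1ace16851f221f2214a71ace20191cd7172f151419b61696204622621ace179b1ace1ace1053167a1a411883144b0f3c0f3c13b217e817e8167a0f3d14a7171e0f3c105317a7125c0f3c0f3c1248101314b514b51053102d1cd71cd7125c188317a7157c125c0f3c1477133316e416e4160c125c2019201917a71a410fcd17a70f50148712c50f3c17b112ed1b57141a151413fe0f3c0f3c14870f3c155e1941186a154a152218920f3c118b172f190d0f3c144b0f50125c0f3c155e139c101311c1127011d40f3c1696190d101313b20f3c13331013154a147310ea158c134711d4130719b618a012480f3c12c51477139c186a1793147316d016d014f4162722621caa14b517e812ed16e41270189216d01347155e160d18fe14b520461a8e14b517e817b116e411c1152216d0158c1342155e18fe14b5179b1685102d0f3d141a125c0f3c118b1627130714b514b514f516281ace1ace1053167a1b57160c11d40f3c14f411d418fe18fe167a14f5)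
    (nat_lit 0x1f223cf03cf03cf03cf03cf03cf03cf03cf03cf03cf03cf03cf03cf01f221f223cf03cf03cf03cf03cf03cf03cf03cf03cf03cf03cf03cf0171e14a710533cf03cf03cf03cf03cf03cf03cf03cf03cf03cf03cf01ace1ace167a10533cf03cf03cf03cf03cf03cf03cf03cf03cf03cf0201920191a4117a717a73cf03cf03cf03cf03cf03cf03cf03cf03cf01cd71cd71883125c157c17a73cf03cf03cf03cf03cf03cf03cf03cf0190d172f144b0f3c125c0f50155e3cf03cf03cf03cf03cf03cf03cf013fe15140f3c0f3c0f3c14871941155e3cf03cf03cf03cf03cf03cf018a019b60f3c1248147712c5186a139c14733cf03cf03cf03cf03cf0190d169613b2101313330f3c154a101310ea14733cf03cf03cf03cf01a8e204617e814b516e417b1152211c1158c16d0155e3cf03cf03cf01caa226217e814b516e412ed18921270134716d0160d155e3cf03cf01ace1ace167a1053160c1b570f3c11d411d414f418fe18fe14f53cf01685179b0f3d102d125c141a118b0f3c1307162714b514b5162814f5)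
    (nat_lit 4) (nat_lit 59)
    [[nat_lit 2,nat_lit 0x1002,nat_lit 0x100002,nat_lit 17,nat_lit 0x1011,nat_lit 257,nat_lit 513,nat_lit 0x1101,
    nat_lit 0x10101,nat_lit 0x100101,nat_lit 0x1001,nat_lit 0x2001,nat_lit 0x11001,nat_lit 0x101001,nat_lit 0x10001,
    nat_lit 0x20001,nat_lit 0x100001,nat_lit 0x200001,nat_lit 0x1000001],[nat_lit 32,nat_lit 272,nat_lit 0x100110,
    nat_lit 0x1010,nat_lit 0x1110,nat_lit 0x11010,nat_lit 0x101010,nat_lit 0x10010,nat_lit 0x100010],[nat_lit 512,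
    nat_lit 0x10200,nat_lit 0x100200,nat_lit 0x1100,nat_lit 0x11100,nat_lit 0x101100,nat_lit 0x10100,nat_lit 0x20100,
    nat_lit 0x110100,nat_lit 0x100100,nat_lit 0x200100,nat_lit 0x1000100],[nat_lit 0x2000,nat_lit 0x12000,
    nat_lit 0x102000,nat_lit 0x1002000,nat_lit 0x11000,nat_lit 0x21000,nat_lit 0x111000,nat_lit 0x101000,
    nat_lit 0x201000,nat_lit 0x1001000],[nat_lit 0x20000,nat_lit 0x120000,nat_lit 0x110000],[nat_lit 0x200000,
    nat_lit 0x300000,nat_lit 0x1100000],[]]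
    [.c (nat_lit 1) (nat_lit 2),.r (nat_lit 0x1cf1) (nat_lit 9) [nat_lit 0x32003,nat_lit 33,nat_lit 0x220003],
    .r (nat_lit 0x1b22) (nat_lit 12) [nat_lit 0x23003,nat_lit 0x202003,nat_lit 0x220763],
    .c (nat_lit 0) (nat_lit 0x23326d),.r (nat_lit 0x1a29) (nat_lit 6) [nat_lit 0x23003,nat_lit 0x330673,
    nat_lit 0x202003],.c (nat_lit 0) (nat_lit 0x233367),.r (nat_lit 0x1cdb) (nat_lit 2) [nat_lit 0x5a43d69,
    nat_lit 0x4522c79],.r (nat_lit 0x1748) (nat_lit 2) [nat_lit 0x2001,nat_lit 0x333671,nat_lit 0x220003],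
    .r (nat_lit 0x1cdb) (nat_lit 2) [nat_lit 0x3400763,nat_lit 0x2320673],
    .r (nat_lit 8) (nat_lit 13) [nat_lit 0x303673,nat_lit 0x202003],.r (nat_lit 0x19b2) (nat_lit 4) [nat_lit 0x202003,
    nat_lit 0x303673,nat_lit 0x2030063],.r (nat_lit 0x1cee) (nat_lit 9) [nat_lit 0x32003,nat_lit 33,nat_lit 0x220003],
    .r (nat_lit 0x1a29) (nat_lit 6) [nat_lit 0x23003,nat_lit 0x303673,nat_lit 0x202003],
    .r (nat_lit 8) (nat_lit 1) [nat_lit 0x330673,nat_lit 0x220003],.c (nat_lit 0) (nat_lit 0x23236d),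
    .r (nat_lit 0x1cdb) (nat_lit 2) [nat_lit 0x243073,nat_lit 0x32063],.r (nat_lit 0x1ce4) (nat_lit 4) [nat_lit 33,
    nat_lit 0x202003],.r (nat_lit 0x1b22) (nat_lit 5) [nat_lit 0x32003,nat_lit 0x220003,nat_lit 0x202763],
    .r (nat_lit 0x1cdb) (nat_lit 2) [nat_lit 0x403073,nat_lit 0x322063],.c (nat_lit 2) (nat_lit 2),
    .r (nat_lit 0x1750) (nat_lit 13) [nat_lit 33,nat_lit 0x220003],.r (nat_lit 0x1a29) (nat_lit 9) [nat_lit 0x32003,
    nat_lit 0x330673,nat_lit 0x220003],.c (nat_lit 0) (nat_lit 0x33326d),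
    .r (nat_lit 0xf22) (nat_lit 6) [nat_lit 0x3061,nat_lit 0x2001,nat_lit 0x330671,nat_lit 0x200001],
    .r (nat_lit 0x1b36) (nat_lit 3) [nat_lit 0x35063,nat_lit 0x24003,nat_lit 0x202003],
    .c (nat_lit 1) (nat_lit 0x200306),.c (nat_lit 0) (nat_lit 0x2207),.c (nat_lit 0) (nat_lit 0x33326d),
    .c (nat_lit 3) (nat_lit 2),.r (nat_lit 0x1cdb) (nat_lit 2) [nat_lit 0x5c25d6c,nat_lit 0x4564c7c],
    .r (nat_lit 0x1cee) (nat_lit 6) [nat_lit 0x23003,nat_lit 33,nat_lit 0x202003],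
    .r (nat_lit 0x1bec) (nat_lit 3) [nat_lit 33,nat_lit 0x220003],.r (nat_lit 0xf22) (nat_lit 6) [nat_lit 0x30061,
    nat_lit 0x2001,nat_lit 0x303671,nat_lit 0x200001],.r (nat_lit 0x1750) (nat_lit 13) [nat_lit 0x22247c3,
    nat_lit 0x220003],.r (nat_lit 0x1750) (nat_lit 13) [nat_lit 0x32063,nat_lit 0x220003],
    .r (nat_lit 0x1cdb) (nat_lit 2) [nat_lit 0x3633766,nat_lit 0x2362676],
    .r (nat_lit 0x1a29) (nat_lit 9) [nat_lit 0x32003,nat_lit 0x303673,nat_lit 0x220003],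
    .r (nat_lit 0x1b8f) (nat_lit 4) [nat_lit 0x2333673,nat_lit 0x202003,nat_lit 33],
    .r (nat_lit 8) (nat_lit 13) [nat_lit 0x3323676,nat_lit 0x202003],
    .r (nat_lit 0x1cdb) (nat_lit 2) [nat_lit 0x3423766,nat_lit 0x2022676],.c (nat_lit 4) (nat_lit 2),
    .r (nat_lit 0x1b36) (nat_lit 3) [nat_lit 0x35066,nat_lit 0x24003,nat_lit 0x202003],
    .r (nat_lit 228) (nat_lit 4) [nat_lit 0x200001,nat_lit 97,nat_lit 0x20001,nat_lit 0x33336d1,nat_lit 0x2001],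
    .r (nat_lit 8) (nat_lit 13) [nat_lit 0x340066,nat_lit 0x202003],.c (nat_lit 0) (nat_lit 0x33236d),
    .r (nat_lit 0x1b36) (nat_lit 3) [nat_lit 0x53063,nat_lit 0x24003,nat_lit 0x202003],
    .c (nat_lit 1) (nat_lit 0x203006),.c (nat_lit 0) (nat_lit 0x33336d),
    .r (nat_lit 0x1cdb) (nat_lit 6) [nat_lit 0x2242763,nat_lit 0x3033673],
    .r (nat_lit 0x1b36) (nat_lit 3) [nat_lit 0x303063,nat_lit 0x24003,nat_lit 0x202003],.c (nat_lit 5) (nat_lit 2),
    .r (nat_lit 0x1cdb) (nat_lit 1) [nat_lit 0x220073,nat_lit 0x32063],.c (nat_lit 0) (nat_lit 0x33236d),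
    .c (nat_lit 6) (nat_lit 2),.r (nat_lit 0x1cdb) (nat_lit 1) [nat_lit 0x230033,nat_lit 0x22023],
    .r (nat_lit 0x1cdb) (nat_lit 1) [nat_lit 0x430073,nat_lit 0x322063]]]

/-- nodes -/
noncomputable def rD7k_25_12 : List RJ :=
  [.l (nat_lit 13) (nat_lit 0x4b0) (nat_lit 4) (nat_lit 0x25800000258000001f5000001f50000021300000213000001c8000001c8000001d100000225000001ed000001ed000001f6000001f6) (nat_lit 0x63000000630000004500000045000000900000009000000033000000870000006b0000006b0000006200000062)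
    (nat_lit 0x12c09483ea1f512f8a743901a010d87443e22570fb07b04bc2580f787d44262510e206183b21cb12c8afc3ec1ce0fa87d42a818c0f906d82d616507805c83641d60c9849c3de1f50c905503b01b00c4881c2ec1900c306a82121451288a743601b609607382c215b0e005a03ec1f40d886d442625f0ec07c829412c083860c3c01020dc06383b21f10c3068040e1650c1856c3841bc0d786f423a15d08d05583881c80c485ac20e1610a2070838614108284ec2cc1660e5874432017208105a02821bd0e004f82cc1380b7871c3b221b0bb03c03c01c00e186bc4241c00dd06e82b221915f895c3541d60c707d027615d0dd04e02581620ca862c4b21f10c306c83701f6082847437416609704b032a18b0e707b028a1270f886d42cc15610c871c31618b0c807a03ec1f6084864c3b21b10b304682b216f0ca8654334190)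
    (nat_lit 0x12c12c09604b025812c09604b025812c09604b025812c04a425825812c09604b025812c09604b025812c09604b00fa87bc2a84b025812c09604b025812c09604b025812c03ea1f50c605509604b025812c09604b025812c09604b012f884c3e41d809612c09604b025812c09604b025812c053a2510db06c039c12c25812c09604b025812c09604b00e407102d61890b0841c3844b025812c09604b025812c03401860b2881c2b61830de07089604b025812c09604b010d87641e01760e0078035e1c30e012c09604b025812c03a21cb0b906402d01020de850427c1c025812c09604b00f889643641860fb06e023a1050b306e82584b025812c04ae2bf0eb06a83e818e0ae84ec2701ba0b104b09604b00fb07d83261090d887642341660b7856432a1950c812c03d81ce093851436a1f10ab059838e2190c5862c3d0190)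
    (nat_lit 4) (nat_lit 59)
    [[nat_lit 2,nat_lit 0x1002,nat_lit 0x100002,nat_lit 17,nat_lit 33,nat_lit 0x1011,nat_lit 0x100011,nat_lit 257,
    nat_lit 0x1101,nat_lit 0x100101,nat_lit 273,nat_lit 0x10101,nat_lit 0x1001,nat_lit 0x101101,nat_lit 0x2001,
    nat_lit 0x11001,nat_lit 0x101001,nat_lit 0x10001,nat_lit 0x100001,nat_lit 0x200001,nat_lit 0x200002,
    nat_lit 0x1000001],[nat_lit 32,nat_lit 48,nat_lit 288,nat_lit 0x1020,nat_lit 0x100020,nat_lit 272,nat_lit 0x1110,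
    nat_lit 0x100110,nat_lit 0x1010,nat_lit 0x2010,nat_lit 0x11010,nat_lit 0x101010,nat_lit 0x10010,nat_lit 0x100010],
    [nat_lit 512,nat_lit 0x10200,nat_lit 0x100200,nat_lit 0x1100,nat_lit 0x11100,nat_lit 0x101100,nat_lit 0x10100,
    nat_lit 0x20100,nat_lit 0x100100,nat_lit 0x110100,nat_lit 0x200100,nat_lit 0x1000100],[nat_lit 0x2000,
    nat_lit 0x12000,nat_lit 0x1002000,nat_lit 0x11000,nat_lit 0x21000,nat_lit 0x111000,nat_lit 0x101000,
    nat_lit 0x201000,nat_lit 0x1001000],[nat_lit 0x20000,nat_lit 0x30000,nat_lit 0x110000],[nat_lit 0x200000,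
    nat_lit 0x300000,nat_lit 0x1100000],[]]
    [.c (nat_lit 1) (nat_lit 2),.r (nat_lit 0x1cf1) (nat_lit 9) [nat_lit 0x32001,nat_lit 33,nat_lit 0x20001],
    .r (nat_lit 0x1b22) (nat_lit 12) [nat_lit 0x23001,nat_lit 0x2001,nat_lit 0x20321],
    .r (nat_lit 0x1bec) (nat_lit 12) [nat_lit 33,nat_lit 0x20001],.r (nat_lit 0x1cdb) (nat_lit 2) [nat_lit 0x2031,
    nat_lit 0x23021],.r (nat_lit 0x1b8b) (nat_lit 6) [nat_lit 0x23001,nat_lit 0x30231,nat_lit 0x2001],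
    .r (nat_lit 0x1999) (nat_lit 10) [nat_lit 0x30231,nat_lit 0x2001,nat_lit 0x203021],
    .c (nat_lit 0) (nat_lit 0x23323),.r (nat_lit 0x1b2f) (nat_lit 9) [nat_lit 0x32001,nat_lit 0x3231,nat_lit 0x20001],
    .r (nat_lit 8) (nat_lit 13) [nat_lit 0x3231,nat_lit 0x2001],.r (nat_lit 0x19de) (nat_lit 12) [nat_lit 0x233231,
    nat_lit 0x2001,nat_lit 0x322341],.r (nat_lit 0x19de) (nat_lit 12) [nat_lit 0x205231,nat_lit 0x2001,
    nat_lit 0x336341],.r (nat_lit 0x19b2) (nat_lit 4) [nat_lit 0x2001,nat_lit 0x3231,nat_lit 0x230021],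
    .c (nat_lit 2) (nat_lit 0x3023),.r (nat_lit 0x1cee) (nat_lit 9) [nat_lit 0x32001,nat_lit 33,nat_lit 0x20001],
    .r (nat_lit 0x1b8b) (nat_lit 6) [nat_lit 0x23001,nat_lit 0x3231,nat_lit 0x2001],
    .r (nat_lit 8) (nat_lit 1) [nat_lit 0x30231,nat_lit 0x20001],.r (nat_lit 0x1bec) (nat_lit 12) [nat_lit 0x32021,
    nat_lit 0x20001],.r (nat_lit 0x196f) (nat_lit 1) [nat_lit 0x32001,nat_lit 0x20001,nat_lit 33],
    .r (nat_lit 0x1b22) (nat_lit 5) [nat_lit 0x32001,nat_lit 0x20001,nat_lit 0x2321],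
    .r (nat_lit 0x1bb6) (nat_lit 11) [nat_lit 34,nat_lit 0x20001,nat_lit 0x233201,nat_lit 0x2001],
    .r (nat_lit 0x19de) (nat_lit 12) [nat_lit 0x3021,nat_lit 0x2001,nat_lit 0x232251],.c (nat_lit 2) (nat_lit 2),
    .r (nat_lit 0x1cf2) (nat_lit 4) [nat_lit 33,nat_lit 0x67021,nat_lit 0x6031,nat_lit 0x607021],
    .r (nat_lit 0x19de) (nat_lit 12) [nat_lit 0x233232,nat_lit 0x2001,nat_lit 33],
    .r (nat_lit 0x1cc8) (nat_lit 6) [nat_lit 0x45021,nat_lit 0x4031,nat_lit 33],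
    .r (nat_lit 0x1cdb) (nat_lit 1) [nat_lit 0x34031,nat_lit 0x23021],.r (nat_lit 0x1750) (nat_lit 13) [nat_lit 33,
    nat_lit 0x20001],.r (nat_lit 0x1bb6) (nat_lit 11) [nat_lit 0x30231,nat_lit 0x20001,nat_lit 0x233201,
    nat_lit 0x2001],.r (nat_lit 0x1b8b) (nat_lit 9) [nat_lit 0x32001,nat_lit 0x30231,nat_lit 0x20001],
    .c (nat_lit 0) (nat_lit 0x33225),.r (nat_lit 0x1bb5) (nat_lit 7) [nat_lit 0x32001,nat_lit 0x23021,
    nat_lit 0x20001],.r (nat_lit 0x1cc8) (nat_lit 6) [nat_lit 0x23021,nat_lit 0x22031,nat_lit 0x32021],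
    .c (nat_lit 1) (nat_lit 0x20302),.c (nat_lit 2) (nat_lit 0x3202),.c (nat_lit 0) (nat_lit 0x33225),
    .c (nat_lit 3) (nat_lit 2),.r (nat_lit 0x1bb5) (nat_lit 8) [nat_lit 0x23001,nat_lit 0x32021,nat_lit 0x2001],
    .r (nat_lit 0x1cee) (nat_lit 6) [nat_lit 0x23001,nat_lit 33,nat_lit 0x2001],
    .r (nat_lit 0x1bec) (nat_lit 3) [nat_lit 33,nat_lit 0x20001],.r (nat_lit 0x1bb6) (nat_lit 11) [nat_lit 0x3231,
    nat_lit 0x20001,nat_lit 0x233201,nat_lit 0x2001],.r (nat_lit 0x1b2f) (nat_lit 6) [nat_lit 0x23001,nat_lit 0x30231,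
    nat_lit 0x2001],.r (nat_lit 0x1750) (nat_lit 13) [nat_lit 0x32021,nat_lit 0x20001],
    .r (nat_lit 0x19de) (nat_lit 12) [nat_lit 0x227232,nat_lit 0x2001,nat_lit 0x54021],
    .r (nat_lit 0x1b8f) (nat_lit 4) [nat_lit 0x233231,nat_lit 0x2001,nat_lit 33],
    .r (nat_lit 0x1b8b) (nat_lit 9) [nat_lit 0x32001,nat_lit 0x3231,nat_lit 0x20001],
    .r (nat_lit 8) (nat_lit 13) [nat_lit 0x323232,nat_lit 0x2001],.r (nat_lit 0x1b1b) (nat_lit 10) [nat_lit 0x30021,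
    nat_lit 0x32001,nat_lit 0x20001],.c (nat_lit 4) (nat_lit 2),.r (nat_lit 0x1bb5) (nat_lit 7) [nat_lit 0x32001,
    nat_lit 33,nat_lit 0x20001],.r (nat_lit 0x1cc9) (nat_lit 3) [nat_lit 0x23001,nat_lit 0x3021,nat_lit 0x2001],
    .c (nat_lit 0) (nat_lit 0x32325),.r (nat_lit 0x1cc8) (nat_lit 6) [nat_lit 33,nat_lit 0x40031,nat_lit 0x54021],
    .c (nat_lit 1) (nat_lit 0x23002),.c (nat_lit 0) (nat_lit 0x33325),.r (nat_lit 0xf2e) (nat_lit 1) [nat_lit 33,
    nat_lit 0x323231,nat_lit 0x332231,nat_lit 0x233201],.r (nat_lit 0x1b1b) (nat_lit 3) [nat_lit 0x3021,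
    nat_lit 0x23001,nat_lit 0x2001],.c (nat_lit 5) (nat_lit 2),.r (nat_lit 0x1cf2) (nat_lit 4) [nat_lit 0x76021,
    nat_lit 33,nat_lit 0x60031,nat_lit 0x670021],.c (nat_lit 0) (nat_lit 0x32325),.c (nat_lit 6) (nat_lit 2),
    .r (nat_lit 0xf2f) (nat_lit 7) [nat_lit 0xcd001,nat_lit 65,nat_lit 0xc001,nat_lit 0x677601],
    .r (nat_lit 0x1b61) (nat_lit 6) [nat_lit 0x23001,nat_lit 0x3021,nat_lit 0x2001]]]

/-- nodes -/
noncomputable def rD7k_25_13 : List RJ :=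
  [.l (nat_lit 13) (nat_lit 0x780) (nat_lit 6) (nat_lit 0x2ac0000045e0000032600000326000003740000037400000322000003220000044a0000044a00000387000003870000046800000308) (nat_lit 0xa000001bc0000014200000142000000f4000000f400000146000001460000001e0000001e000000e1000000e10000016000000000)
    (nat_lit 0x18403c02201040f308482801381160a3839622d0a60ab08a830818e0c705542c218c0c704b43dc1be8df46c80f018e04105181e411708c84882a01840c20b6642b0b00c986381101880a304482320f008f06102e41aa87342d8326161084846423211205504a423c1e70d5852629313709905541e611208b850022412208b88543b21498a4c48437418e04e04782a011708f03001dc1820bb848216d0ca0c886301400f009104882520ee06006243040c989043843221ee0a385c83081d90d586082ee21610b06d235b18813e04b422c1840c208543ce1890c1085842c1b48da45104701be88b439a42b1498a4c48216d1b48d6c5002a61448e1c6fa1cb1aa96cc5262930c989046d236912d0a0044e3870780ab064c3261ba099064432223813e070e38718412d06c814c0b6058048426e0e106505103101138a24350308)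
    (nat_lit 0x1841e00f007803c01e00f007803c01e00f007803c01e001e03083c01e00f007803c01e00f007803c01e00f007800880c705187803c01e00f007803c01e00f007803c01e0020831c0f20a30f007803c01e00f007803c01e00f007800f30aa845c2241121e00f007803c01e00f007803c01e004242c211908c82a82243c01e00f007803c01e00f007800a00c604881e012909103007803c01e00f007803c01e0027031c15008f047822e0ee0600f007803c01e00f0078011609686103081e710a86083122161e00f007803c01e0051c3dc1840b906ac3b21770c1085842c3c01e00f007800e58df48663551498a4c4821931b48da45007803c01e0045a37d1d887345262930b689046b63691530a00f007800a60d902c016c13709083281c21880a2051222711e1e003c00f00fa08004c82d611408c06fc31c18e8aec5a023c)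
    (nat_lit 4) (nat_lit 177)
    [[nat_lit 2,nat_lit 0x1001002,nat_lit 0x1100002,nat_lit 0x1000002,nat_lit 0x1010002,nat_lit 0x3000003,
    nat_lit 0x2001002,nat_lit 0x2100002,nat_lit 0x2000002,nat_lit 17,nat_lit 0x1001011,nat_lit 0x1011,
    nat_lit 0x1000011,nat_lit 0x1002011,nat_lit 0x1101011,nat_lit 0x10011,nat_lit 0x100011,nat_lit 0x1100011,
    nat_lit 0x1000101,nat_lit 0x2000101,nat_lit 0x1100101,nat_lit 0x1001,nat_lit 0x2101002,nat_lit 0x2001,
    nat_lit 0x1003001,nat_lit 0x1102001,nat_lit 0x1002001,nat_lit 0x11001,nat_lit 0x1011001,nat_lit 0x101001,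
    nat_lit 0x1101001,nat_lit 0x1201001,nat_lit 0x1001001,nat_lit 0x2001001,nat_lit 0x10001,nat_lit 0x1020001,
    nat_lit 0x20001,nat_lit 0x1110001,nat_lit 0x1010001,nat_lit 0x2010001,nat_lit 0x100001,nat_lit 0x2200002,
    nat_lit 0x110001,nat_lit 0x200001,nat_lit 0x1200001,nat_lit 0x1100001,nat_lit 0x2100001,nat_lit 0x1000001,
    nat_lit 0x2000001],[nat_lit 32,nat_lit 0x1020,nat_lit 0x2020,nat_lit 272,nat_lit 0x1010,nat_lit 0x2010,
    nat_lit 0x3010,nat_lit 0x11010,nat_lit 0x101010,nat_lit 0x1001010,nat_lit 0x1002010,nat_lit 0x10010,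
    nat_lit 0x20010,nat_lit 0x110010,nat_lit 0x1010010,nat_lit 0x200010,nat_lit 0x1000010,nat_lit 0x1100010],
    [nat_lit 0x1100,nat_lit 0x100100,nat_lit 0x1000100,nat_lit 0x1001100,nat_lit 0x1100100,nat_lit 0x2000100],
    [nat_lit 0x2000,nat_lit 0x3000,nat_lit 0x4000,nat_lit 0x1003000,nat_lit 0x12000,nat_lit 0x22000,nat_lit 0x102000,
    nat_lit 0x1002000,nat_lit 0x11000,nat_lit 0x21000,nat_lit 0x111000,nat_lit 0x1011000,nat_lit 0x1021000,
    nat_lit 0x101000,nat_lit 0x201000,nat_lit 0x1101000,nat_lit 0x1001000,nat_lit 0x2001000],[nat_lit 0x20000,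
    nat_lit 0x30000,nat_lit 0x120000,nat_lit 0x1020000,nat_lit 0x110000,nat_lit 0x210000,nat_lit 0x1110000,
    nat_lit 0x1120000,nat_lit 0x1010000,nat_lit 0x2010000],[nat_lit 0x200000,nat_lit 0x1200000,nat_lit 0x1100000,
    nat_lit 0x2100000],[nat_lit 0x2000000]]
    [.c (nat_lit 1) (nat_lit 2),.c (nat_lit 1) (nat_lit 0x22032),.r (nat_lit 0xf25) (nat_lit 7) [nat_lit 0x35021,
    nat_lit 0x40001,nat_lit 0x30021,nat_lit 0x424031],.c (nat_lit 0) (nat_lit 0x55043),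
    .r (nat_lit 0x174b) (nat_lit 8) [nat_lit 0x20001,nat_lit 0x200001,nat_lit 33],
    .r (nat_lit 75) (nat_lit 1) [nat_lit 0x770631,nat_lit 33,nat_lit 0x20001],.c (nat_lit 0) (nat_lit 0x55043),
    .r (nat_lit 0x1b22) (nat_lit 7) [nat_lit 0x2001,nat_lit 0x200001,nat_lit 0x332231],
    .c (nat_lit 0) (nat_lit 0x55043),.r (nat_lit 0) (nat_lit 1) [nat_lit 0x3021,nat_lit 0x222031],
    .c (nat_lit 2) (nat_lit 0x22032),.r (nat_lit 0x1972) (nat_lit 5) [nat_lit 0x202001,nat_lit 0x22031,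
    nat_lit 0x333201],.r (nat_lit 0x1bfd) (nat_lit 0) [nat_lit 0x3001,nat_lit 0x300231,nat_lit 0x202001],
    .r (nat_lit 0x19c6) (nat_lit 7) [nat_lit 0x200321,nat_lit 0x202001,nat_lit 0x20001],
    .c (nat_lit 0) (nat_lit 0x20032),.r (nat_lit 0x1cdb) (nat_lit 8) [nat_lit 0x200031,nat_lit 33],
    .c (nat_lit 0) (nat_lit 0x3002),.c (nat_lit 4) (nat_lit 0x30023),.c (nat_lit 0) (nat_lit 0x30302),
    .c (nat_lit 0) (nat_lit 0x30302),.c (nat_lit 0) (nat_lit 0x33302),.c (nat_lit 0) (nat_lit 0x33023),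
    .r (nat_lit 0x196a) (nat_lit 13) [nat_lit 0x200001,nat_lit 0x300231,nat_lit 0x330201],
    .c (nat_lit 0) (nat_lit 0x55043),.r (nat_lit 40) (nat_lit 1) [nat_lit 0x220321,nat_lit 0x770631,nat_lit 0x20001],
    .r (nat_lit 0x1bfd) (nat_lit 0) [nat_lit 0x3001,nat_lit 0x220321,nat_lit 0x202001],
    .c (nat_lit 4) (nat_lit 0x22032),.c (nat_lit 0) (nat_lit 0x55343),.c (nat_lit 1) (nat_lit 0x22232),
    .r (nat_lit 0x1b9c) (nat_lit 10) [nat_lit 0x20001,nat_lit 0x202031,nat_lit 0x333201],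
    .c (nat_lit 2) (nat_lit 0x30023),.r (nat_lit 0xf26) (nat_lit 4) [nat_lit 0x955401,nat_lit 0x220321,
    nat_lit 0x400001,nat_lit 0x320231],.c (nat_lit 0) (nat_lit 0x33023),.c (nat_lit 7) (nat_lit 0x22032),
    .c (nat_lit 1) (nat_lit 514),.r (nat_lit 0x174b) (nat_lit 8) [nat_lit 0x20001,nat_lit 0x200001,nat_lit 0x2021],
    .r (nat_lit 0x1ce1) (nat_lit 6) [nat_lit 0x303021,nat_lit 0x20001,nat_lit 0x202001],
    .r (nat_lit 0xf25) (nat_lit 7) [nat_lit 0x33021,nat_lit 0x40001,nat_lit 0x32021,nat_lit 0x422031],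
    .c (nat_lit 0) (nat_lit 0x55343),.c (nat_lit 0) (nat_lit 0x55343),.r (nat_lit 0x1750) (nat_lit 6) [nat_lit 0x3021,
    nat_lit 0x202001],.r (nat_lit 0x196a) (nat_lit 13) [nat_lit 0x200001,nat_lit 0x40032,nat_lit 0x330201],
    .r (nat_lit 0x1cc8) (nat_lit 0) [nat_lit 0x3021,nat_lit 0x402031,nat_lit 0x2021],
    .r (nat_lit 0x1bb5) (nat_lit 5) [nat_lit 0x2001,nat_lit 0x3021,nat_lit 0x200001],
    .r (nat_lit 0x1cea) (nat_lit 13) [nat_lit 0x3001,nat_lit 0x202001,nat_lit 0x330201,nat_lit 0x40031],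
    .r (nat_lit 0x19c6) (nat_lit 7) [nat_lit 0x330231,nat_lit 0x202001,nat_lit 0x20001],
    .r (nat_lit 0x18d5) (nat_lit 7) [nat_lit 0x2001,nat_lit 0x200001,nat_lit 0x20001,nat_lit 0x553431],
    .c (nat_lit 0) (nat_lit 0x33023),.c (nat_lit 0) (nat_lit 0x55043),.c (nat_lit 2) (nat_lit 2),
    .r (nat_lit 0x1b22) (nat_lit 13) [nat_lit 0x3001,nat_lit 0x202001,nat_lit 0x200321],
    .r (nat_lit 0x19c6) (nat_lit 7) [nat_lit 0x50022,nat_lit 0x202001,nat_lit 0x20001],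
    .r (nat_lit 0x1750) (nat_lit 6) [nat_lit 0x220031,nat_lit 0x202001],
    .r (nat_lit 0x196a) (nat_lit 13) [nat_lit 0x200001,nat_lit 0x220321,nat_lit 0x330201],
    .r (nat_lit 0x1b22) (nat_lit 7) [nat_lit 0x2001,nat_lit 0x200001,nat_lit 0x202321],
    .r (nat_lit 117) (nat_lit 7) [nat_lit 0x2001,nat_lit 0x200001,nat_lit 0x20001,nat_lit 0x30021],
    .r (nat_lit 0x1972) (nat_lit 5) [nat_lit 0x202001,nat_lit 0x20031,nat_lit 0x333201],
    .c (nat_lit 0) (nat_lit 0x3002),.r (nat_lit 8) (nat_lit 8) [nat_lit 0x303231,nat_lit 0x202001],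
    .r (nat_lit 0xf25) (nat_lit 7) [nat_lit 0x555431,nat_lit 0x40001,nat_lit 0x550431,nat_lit 0x844521],
    .r (nat_lit 0) (nat_lit 1) [nat_lit 33,nat_lit 0x220031],.r (nat_lit 0x1cdb) (nat_lit 8) [nat_lit 0x203031,
    nat_lit 0x2021],.c (nat_lit 0) (nat_lit 0x3202),.r (nat_lit 0x1bfd) (nat_lit 0) [nat_lit 0x3001,nat_lit 0x303231,
    nat_lit 0x202001],.c (nat_lit 0) (nat_lit 0x5002),.r (nat_lit 0x1ba2) (nat_lit 9) [nat_lit 0x202001,
    nat_lit 0x222321,nat_lit 0x333201],.c (nat_lit 0) (nat_lit 0x3002),.r (nat_lit 0x1b04) (nat_lit 10) [nat_lit 33,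
    nat_lit 0x20001],.r (nat_lit 0) (nat_lit 1) [nat_lit 0x220031,nat_lit 33],
    .r (nat_lit 0) (nat_lit 3) [nat_lit 0x20001,nat_lit 33],.r (nat_lit 32) (nat_lit 11) [nat_lit 0x30231,
    nat_lit 0x20001],.r (nat_lit 0x1cdb) (nat_lit 4) [nat_lit 0x202031,nat_lit 33],
    .r (nat_lit 0x1cd3) (nat_lit 6) [nat_lit 0x20001,nat_lit 33,nat_lit 0x202001],.c (nat_lit 4) (nat_lit 2),
    .r (nat_lit 45) (nat_lit 1) [nat_lit 33,nat_lit 0x770631,nat_lit 0x20001],.r (nat_lit 40) (nat_lit 1) [nat_lit 34,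
    nat_lit 0x990832,nat_lit 0x20001],.r (nat_lit 0xf28) (nat_lit 7) [nat_lit 0x777631,nat_lit 0x60001,
    nat_lit 0x770631,nat_lit 0xc66721],.c (nat_lit 0) (nat_lit 0x55343),.c (nat_lit 0) (nat_lit 0x55543),
    .r (nat_lit 0x1cf3) (nat_lit 3) [nat_lit 0x200001,nat_lit 0x202001,nat_lit 0x402321],
    .c (nat_lit 0) (nat_lit 0x55043),.c (nat_lit 0) (nat_lit 0x33323),.c (nat_lit 0) (nat_lit 0x55543),
    .r (nat_lit 0x1b9c) (nat_lit 10) [nat_lit 0x20001,nat_lit 0x200031,nat_lit 0x333201],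
    .c (nat_lit 0) (nat_lit 0x33323),.c (nat_lit 1) (nat_lit 0x22432),
    .r (nat_lit 0x196a) (nat_lit 11) [nat_lit 0x200001,nat_lit 0x220321,nat_lit 0x330201],
    .r (nat_lit 0x1a03) (nat_lit 11) [nat_lit 0x3001,nat_lit 0x202001,nat_lit 0x330201,nat_lit 0x220321],
    .r (nat_lit 0x1b2f) (nat_lit 0) [nat_lit 0x3001,nat_lit 0x300231,nat_lit 0x202001],
    .c (nat_lit 0) (nat_lit 0x33023),.c (nat_lit 0) (nat_lit 0x55043),.c (nat_lit 5) (nat_lit 2),
    .r (nat_lit 0x1ce1) (nat_lit 6) [nat_lit 0x300021,nat_lit 0x20001,nat_lit 0x202001],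
    .r (nat_lit 0x1cc8) (nat_lit 0) [nat_lit 33,nat_lit 0x400031,nat_lit 0x4021],.c (nat_lit 0) (nat_lit 0x55543),
    .r (nat_lit 0x1750) (nat_lit 6) [nat_lit 33,nat_lit 0x202001],.r (nat_lit 0x1bb5) (nat_lit 5) [nat_lit 0x2001,
    nat_lit 33,nat_lit 0x200001],.r (nat_lit 0x19c6) (nat_lit 7) [nat_lit 0x333231,nat_lit 0x202001,nat_lit 0x20001],
    .r (nat_lit 0xf25) (nat_lit 7) [nat_lit 0x30021,nat_lit 0x40001,nat_lit 0x34021,nat_lit 0x420031],
    .c (nat_lit 0) (nat_lit 0x33323),.c (nat_lit 0) (nat_lit 0x55343),.c (nat_lit 6) (nat_lit 2),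
    .r (nat_lit 0xf29) (nat_lit 4) [nat_lit 33,nat_lit 0x400001,nat_lit 0x955401,nat_lit 0x40031],
    .r (nat_lit 0x1a3c) (nat_lit 2) [nat_lit 0x30021,nat_lit 0x20001,nat_lit 0x200001],
    .r (nat_lit 0x18c2) (nat_lit 4) [nat_lit 0x2001,nat_lit 0x20031,nat_lit 0x200001,nat_lit 33],
    .c (nat_lit 7) (nat_lit 2)]]

/-- nodes -/
noncomputable def rD7k_25_14 : List RJ :=
  [.l (nat_lit 15) (nat_lit 0x1050) (nat_lit 6) (nat_lit 0x580000008f60000076b0000076b0000075b0000075b000007db000007db000007730000077300000743000007430000073a0000071c) (nat_lit 0x3760000018b0000018b0000019b0000019b0000011b0000011b0000018300000183000001b3000001b3000001da000001bc)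
    (nat_lit 0xae008281fa83f5074a0f942ca8485085a14141ce839d074c0e5048b05700ed61dac3ad875b12761fec19187730e861d0c38e020a0ed60fd42f005c00b60174032806500bd012205740a080b4216bc3b583f50bc017802d005d008c018c030404880c9015a02c885af0eb60f942e805d00bc017003d006700c501f202d405880b02143c3ad83a50b4016c02e005e00ee019004440a280af016a02b0859f0ff6121431806500c8019c013806c00cb014a031403780c82193c49d859508c019403b807a0096009c032c06580ff01d2027c861f0ee61414244048814501f2032c052809a020002e005c008d20f9c191842d0c1017a044406280cb019602f804d00b8017002e485b70e860e742b40a080b5016203a403780b8017002c805900a72161c3a1839d0c902ba02bc05a80ff018a02e005c00b2016402cc858704140e502d785af0b3e143c30f864f0b6e0f9c2c385870b2015f838e03a60b2216842b0858109f219042e484690b3214e42a10590)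
    (nat_lit 0xae04140828105020a04140828105020a04140828105020a04140105057020a04140828105020a04140828105020a04140828105007ea1dac2f0105020a04140828105020a04140828105020a041401fa876b0b801780828105020a04140828105020a041408281050074a1d6c2d805a00bc04140828105020a04140828105020a041401f2875b0ba017402e005e020a04140828105020a0414082810500b2a24ec32804600f401dc0138105020a04140828105020a0414024287fb0ca018c033806400d8009c0828105020a041408281050085a0c8c2f406080c501b2032c065809a04140828105020a041402828773091012203e40a280a50196040004d020a041408281050073a1d0c52406480b5015e031407f80b8017002c8105020a041401ce8743139015a02c405a806f01d202e005c00b2016408281050074c1c702d085910b02158432084f908d2172429c85990b2041401ca020a0b5e16bc287859f0c9e187c1f385b70b0e161c2bf0590)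
    (nat_lit 4) (nat_lit 79)
    [[nat_lit 2,nat_lit 258,nat_lit 0x1000102,nat_lit 0x10002,nat_lit 0x1000002,nat_lit 0x1010002,nat_lit 0x2000002,
    nat_lit 17,nat_lit 273,nat_lit 0x10011,nat_lit 0x1000011,nat_lit 0x1000111,nat_lit 0x1011,nat_lit 257,nat_lit 513,
    nat_lit 0x1000201,nat_lit 0x10101,nat_lit 0x1010101,nat_lit 0x100101,nat_lit 0x1000101,nat_lit 0x2000101,
    nat_lit 0x1001,nat_lit 0x2001,nat_lit 0x1001001,nat_lit 0x1001011,nat_lit 0x1101,nat_lit 0x3001,nat_lit 0x1002001,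
    nat_lit 0x11001,nat_lit 0x10001,nat_lit 0x1010001,nat_lit 0x100001,nat_lit 0x1100001,nat_lit 0x1000001,
    nat_lit 0x2000001],[nat_lit 32,nat_lit 272,nat_lit 0x1110,nat_lit 0x1000110,nat_lit 0x100110,nat_lit 0x1010,
    nat_lit 0x2010,nat_lit 0x10010,nat_lit 0x101010,nat_lit 0x1000010],[nat_lit 512,nat_lit 768,nat_lit 0x100200,
    nat_lit 0x1000200,nat_lit 0x1100,nat_lit 0x2100,nat_lit 0x101100,nat_lit 0x100100,nat_lit 0x1000100,
    nat_lit 0x1100100,nat_lit 0x1001100,nat_lit 0x1010100,nat_lit 0x2000100],[nat_lit 0x2000,nat_lit 0x3000,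
    nat_lit 0x4000,nat_lit 0x5000,nat_lit 0x6000,nat_lit 0x103000,nat_lit 0x102000,nat_lit 0x1002000,nat_lit 0x11000,
    nat_lit 0x101000,nat_lit 0x1001000],[nat_lit 0x20000,nat_lit 0x110000,nat_lit 0x1010000],[nat_lit 0x200000,
    nat_lit 0x1100000],[nat_lit 0x2000000]]
    [.c (nat_lit 1) (nat_lit 2),.c (nat_lit 0) (nat_lit 0x33543),.c (nat_lit 0) (nat_lit 0x33543),
    .r (nat_lit 32) (nat_lit 13) [nat_lit 0x305432,nat_lit 0x2001],.c (nat_lit 0) (nat_lit 0x33543),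
    .r (nat_lit 0x174b) (nat_lit 8) [nat_lit 0x2001,nat_lit 0x20001,nat_lit 33],.c (nat_lit 0) (nat_lit 0x33543),
    .r (nat_lit 0x1a3c) (nat_lit 4) [nat_lit 0x3021,nat_lit 0x2001,nat_lit 0x20001],
    .r (nat_lit 0xe6c) (nat_lit 2) [nat_lit 0x50041,nat_lit 0x40001,nat_lit 0x200001,nat_lit 0x44051],
    .r (nat_lit 0x1cdb) (nat_lit 8) [nat_lit 0x20031,nat_lit 33],.r (nat_lit 0x1b47) (nat_lit 11) [nat_lit 0x20001,
    nat_lit 0x2031,nat_lit 0x33201],.r (nat_lit 0x1b47) (nat_lit 13) [nat_lit 0x20001,nat_lit 0x224521,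
    nat_lit 0x33201],.r (nat_lit 0x1b4a) (nat_lit 2) [nat_lit 0x33231,nat_lit 0x2001,nat_lit 0x20001],
    .c (nat_lit 0) (nat_lit 0x33543),.r (nat_lit 0xed1) (nat_lit 3) [nat_lit 65,nat_lit 0x8001,nat_lit 0x559831,
    nat_lit 0x80051],.r (nat_lit 75) (nat_lit 1) [nat_lit 0x432321,nat_lit 0x559831,nat_lit 0x2001],
    .c (nat_lit 0) (nat_lit 0x3002),.c (nat_lit 4) (nat_lit 803),.r (nat_lit 0x1c1a) (nat_lit 0) [nat_lit 0x2001,
    nat_lit 0x20031,nat_lit 0x33201],.c (nat_lit 4) (nat_lit 0x20232),.c (nat_lit 0) (nat_lit 0x33543),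
    .c (nat_lit 0) (nat_lit 0x3323),.c (nat_lit 0) (nat_lit 0x5543),.c (nat_lit 0) (nat_lit 0x3323),
    .c (nat_lit 2) (nat_lit 0x2232),.r (nat_lit 0x1b4d) (nat_lit 2) [nat_lit 0x33231,nat_lit 0x2001,nat_lit 0x20001],
    .r (nat_lit 0x1b4d) (nat_lit 2) [nat_lit 0x253231,nat_lit 0x2001,nat_lit 0x20001],.c (nat_lit 4) (nat_lit 0x2232),
    .r (nat_lit 32) (nat_lit 13) [nat_lit 0x3231,nat_lit 0x2001],.r (nat_lit 0) (nat_lit 8) [nat_lit 33,
    nat_lit 0x2001],.r (nat_lit 75) (nat_lit 1) [nat_lit 0x233231,nat_lit 0x355421,nat_lit 0x2001],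
    .r (nat_lit 0x1c1e) (nat_lit 12) [nat_lit 0x3021,nat_lit 0x2001,nat_lit 0x20001],
    .r (nat_lit 0x1b47) (nat_lit 13) [nat_lit 0x20001,nat_lit 0x2031,nat_lit 0x33201],
    .c (nat_lit 0) (nat_lit 0x33545),.c (nat_lit 0) (nat_lit 0x33543),.c (nat_lit 2) (nat_lit 2),
    .r (nat_lit 10) (nat_lit 13) [nat_lit 0x22031,nat_lit 33],.r (nat_lit 0xeb4) (nat_lit 2) [nat_lit 0x6001,
    nat_lit 0x325041,nat_lit 0x233021,nat_lit 0x244051],.r (nat_lit 0x1c15) (nat_lit 1) [nat_lit 0x2001,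
    nat_lit 0x20001,nat_lit 0x33021],.c (nat_lit 0) (nat_lit 770),.r (nat_lit 0x196a) (nat_lit 13) [nat_lit 0x20001,
    nat_lit 0x22321,nat_lit 0x33201],.r (nat_lit 10) (nat_lit 13) [nat_lit 0x202031,nat_lit 0x320021],
    .r (nat_lit 0) (nat_lit 1) [nat_lit 33,nat_lit 0x22031],.c (nat_lit 0) (nat_lit 770),
    .r (nat_lit 0x1cb8) (nat_lit 12) [nat_lit 33,nat_lit 0x2001,nat_lit 0x200001],.c (nat_lit 3) (nat_lit 2),
    .r (nat_lit 75) (nat_lit 1) [nat_lit 0x670022,nat_lit 0x77dc32,nat_lit 0x2001],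
    .r (nat_lit 0x1ce5) (nat_lit 4) [nat_lit 0x2001,nat_lit 33,nat_lit 0x40031,nat_lit 0x450021],
    .r (nat_lit 0x174b) (nat_lit 8) [nat_lit 0x2001,nat_lit 0x20001,nat_lit 0x305431],
    .r (nat_lit 0x1b04) (nat_lit 10) [nat_lit 33,nat_lit 0x2001],.c (nat_lit 3) (nat_lit 0x32002),
    .r (nat_lit 0x1c20) (nat_lit 8) [nat_lit 0x2001,nat_lit 0x33201,nat_lit 0x20321],
    .r (nat_lit 0) (nat_lit 1) [nat_lit 0x22031,nat_lit 33],.c (nat_lit 0) (nat_lit 0x33543),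
    .r (nat_lit 0x1cdb) (nat_lit 0) [nat_lit 0x20031,nat_lit 33],.r (nat_lit 32) (nat_lit 11) [nat_lit 0x3231,
    nat_lit 0x2001],.c (nat_lit 0) (nat_lit 0x3002),.c (nat_lit 0) (nat_lit 0x33543),.c (nat_lit 4) (nat_lit 2),
    .r (nat_lit 0x1b04) (nat_lit 10) [nat_lit 0x320021,nat_lit 0x2001],.c (nat_lit 3) (nat_lit 0x54002),
    .r (nat_lit 0x10e5) (nat_lit 7) [nat_lit 0xa00051,nat_lit 0xa001,nat_lit 0xbba31,nat_lit 0xba0041],
    .r (nat_lit 75) (nat_lit 1) [nat_lit 34,nat_lit 0xddc32,nat_lit 0x2001],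
    .r (nat_lit 0x1c20) (nat_lit 8) [nat_lit 0x2001,nat_lit 0x33201,nat_lit 0x340321],
    .r (nat_lit 0) (nat_lit 1) [nat_lit 0x202031,nat_lit 0x320021],.c (nat_lit 0) (nat_lit 0x5543),
    .c (nat_lit 0) (nat_lit 0x20003),.r (nat_lit 0x196a) (nat_lit 11) [nat_lit 0x20001,nat_lit 0x22321,
    nat_lit 0x33201],.c (nat_lit 0) (nat_lit 0x3323),.c (nat_lit 5) (nat_lit 2),
    .r (nat_lit 10) (nat_lit 13) [nat_lit 33,nat_lit 0x22031],.r (nat_lit 0x1cf4) (nat_lit 2) [nat_lit 0x30021,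
    nat_lit 0x2001,nat_lit 0x20001],.c (nat_lit 6) (nat_lit 2),.r (nat_lit 0x1a3c) (nat_lit 2) [nat_lit 0x3021,
    nat_lit 0x2001,nat_lit 0x20001],.c (nat_lit 7) (nat_lit 2)],
    .l (nat_lit 11) (nat_lit 480) (nat_lit 3) (nat_lit 0xc0000000c0000000a8000000d2000000c2000000de000000cc000000d4000000c0000000c0000000de000000a8000000c0000000c0) (nat_lit 0x1e0000001e0000000c00000036000000000000001c0000000a000000120000001e0000001e00000036000000000000001e0000001e)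
    (nat_lit 0x1442885d08a1202785b0de144288450c01442884e0a21682286008e16c378510a21143005109c114228590780f02304f0961142283c0a81142285a0ba1b82c86c0b60f0300580a41301e05d0b411c2785b08c184240640aa1fc3d0460c613c2a0600901b01e06f0c21a8330760e20f0378480c01bc378600961982a8500ba15c2b84b0a01bc3785b0b60f02786a0c81942805b0b61403505b0b61442885208a1c43d05b0ae144288450c0144280510a2160228760fe16c2b8510a2100300510a21803003c0a81bc3186a0a0180300540de1803284508a1301e03c08c1402584008a0f02a04508a1382885a08a1802a05b0de144280450ca144270510a21742284809e16c378510a2114300510a2)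
    (nat_lit 0x144780f01e03c0780f01e03c0780f01e03c0780510a23c0780f01e03c0780f01e03c0780f01e01742d0591e03c0780f01e03c0780f01e03c07804508a0f02c8f01e03c0780f01e03c0780f01e01203003c0d8184780f01e03c0780f01e03c07804f08e1182d8480c23c0780f01e03c0780f01e016c2d84f078190350501e03c0780f01e03c07806f0de12c300550cc174280f01e03c0780f01e0144288450b01fc3b0570b6144780f01e03c0780510a21142907a0e215c2d8510a23c0780f01e01142283c0981181e04b0a0114200541e03c0780600c01501e0630de140350600c01bc2a0f01e0144288450ba13c2406f0b61442886008a1447805109c1142d0540c01bc2d8500a21942284e0a2)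
    (nat_lit 5) (nat_lit 43)
    [[nat_lit 2,nat_lit 0x10002,nat_lit 17,nat_lit 0x100011,nat_lit 257,nat_lit 0x100101,nat_lit 0x1001,
    nat_lit 0x10001,nat_lit 0x110001,nat_lit 0x1010001,nat_lit 0x100001,nat_lit 0x1000001],[nat_lit 32,
    nat_lit 0x100020,nat_lit 272,nat_lit 0x100110,nat_lit 0x1110,nat_lit 0x1010,nat_lit 0x101010,nat_lit 0x10010,
    nat_lit 0x110010,nat_lit 0x1010010,nat_lit 0x100010,nat_lit 0x200010,nat_lit 0x1000010,nat_lit 0x1100010],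
    [nat_lit 512,nat_lit 0x100200,nat_lit 0x1100,nat_lit 0x101100,nat_lit 0x100100,nat_lit 0x200100,nat_lit 0x1100100,
    nat_lit 0x1000100],[nat_lit 0x2000,nat_lit 0x102000,nat_lit 0x11000,nat_lit 0x101000,nat_lit 0x111000,
    nat_lit 0x201000,nat_lit 0x1001000],[nat_lit 0x20000,nat_lit 0x110000,nat_lit 0x1110000,nat_lit 0x1010000,
    nat_lit 0x2010000],[nat_lit 0x200000,nat_lit 0x1100000],[nat_lit 0x2000000]]
    [.c (nat_lit 1) (nat_lit 2),.r (nat_lit 0x14db) (nat_lit 0) [nat_lit 0x733c8e1,nat_lit 0x40000c1,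
    nat_lit 0x92000e1,nat_lit 0x30001],.r (nat_lit 0x1bc3) (nat_lit 3) [nat_lit 0x10001,nat_lit 0x200001,nat_lit 65],
    .r (nat_lit 0x1749) (nat_lit 8) [nat_lit 0x10001,nat_lit 0x7198e1,nat_lit 0x200001],
    .c (nat_lit 0) (nat_lit 0x230007),.r (nat_lit 0x14c1) (nat_lit 4) [nat_lit 0x7198e1,nat_lit 0x67000c1,
    nat_lit 0x600001,nat_lit 0x10001],.c (nat_lit 0) (nat_lit 0x230807),
    .r (nat_lit 0x1a6d) (nat_lit 7) [nat_lit 0x60200c6,nat_lit 0x44000e2,nat_lit 65],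
    .r (nat_lit 0x14dc) (nat_lit 3) [nat_lit 0x4c000e1,nat_lit 0x6d2b0e1,nat_lit 0x40000c1,nat_lit 0x60000c1],
    .r (nat_lit 0x14dd) (nat_lit 7) [nat_lit 0x60000c1,nat_lit 0x40000c1,nat_lit 0x6d2b0e1,nat_lit 0x4c000e1],
    .r (nat_lit 0x14de) (nat_lit 3) [nat_lit 0x600001,nat_lit 0x7198e1,nat_lit 0x4000001,nat_lit 0x60000c1],
    .r (nat_lit 0x1750) (nat_lit 1) [nat_lit 65,nat_lit 0x200001],.c (nat_lit 2) (nat_lit 2),
    .r (nat_lit 0x14df) (nat_lit 13) [nat_lit 0x8c00001,nat_lit 0xb92b0e1,nat_lit 0xc00001,nat_lit 0x20001],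
    .r (nat_lit 0x14e0) (nat_lit 12) [nat_lit 0x7000c1,nat_lit 0x600001,nat_lit 0x10001,nat_lit 0x60198e1],
    .r (nat_lit 0x14ba) (nat_lit 7) [nat_lit 0x60198e1,nat_lit 0x40198e1,nat_lit 0x6d198c1,nat_lit 0x4c11cc1],
    .r (nat_lit 0x11f4) (nat_lit 13) [nat_lit 0x4600001,nat_lit 0x6d018e1,nat_lit 0x600001,nat_lit 0x10001],
    .r (nat_lit 0x1c42) (nat_lit 3) [nat_lit 65,nat_lit 0x200001],.r (nat_lit 8) (nat_lit 6) [nat_lit 0x300861,
    nat_lit 0x200001],.r (nat_lit 0x1cba) (nat_lit 8) [nat_lit 0x200061,nat_lit 0x67198e3,nat_lit 65],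
    .c (nat_lit 7) (nat_lit 0x338cc7),.c (nat_lit 6) (nat_lit 0x338cc7),.r (nat_lit 45) (nat_lit 1) [nat_lit 0x10001,
    nat_lit 0x7198e1,nat_lit 65],.r (nat_lit 0x14e1) (nat_lit 11) [nat_lit 0xad2b0e1,nat_lit 0x8000001,
    nat_lit 0xc00001,nat_lit 0x20001],.r (nat_lit 0x14e2) (nat_lit 3) [nat_lit 0x600001,nat_lit 193,nat_lit 0x4000001,
    nat_lit 0x67198e1],.c (nat_lit 3) (nat_lit 0x2608e6),.c (nat_lit 3) (nat_lit 2),
    .r (nat_lit 0x14e3) (nat_lit 4) [nat_lit 0xb92b0c1,nat_lit 0xc000e1,nat_lit 0x20001,nat_lit 193],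
    .c (nat_lit 0) (nat_lit 0x230807),.r (nat_lit 0x14e4) (nat_lit 11) [nat_lit 0x40018e1,nat_lit 0x4c01cc1,
    nat_lit 0x20001,nat_lit 0x60018e1],.r (nat_lit 0x14e5) (nat_lit 4) [nat_lit 0x6d198e1,nat_lit 193,
    nat_lit 0x600001,nat_lit 0x10001],.r (nat_lit 0x14e6) (nat_lit 11) [nat_lit 0x472b0e3,nat_lit 0x98234c3,
    nat_lit 0x10001,nat_lit 0xa72b0e3],.r (nat_lit 0x1cdb) (nat_lit 0) [nat_lit 0x200061,nat_lit 65],
    .r (nat_lit 0x14e7) (nat_lit 1) [nat_lit 0x60198e1,nat_lit 0x20001,nat_lit 0x4c11cc1,nat_lit 0x40198e1],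
    .c (nat_lit 4) (nat_lit 2),.r (nat_lit 0x14c1) (nat_lit 4) [nat_lit 0x6d118e1,nat_lit 0x280c1,nat_lit 0x600001,
    nat_lit 0x10001],.r (nat_lit 0x1a6d) (nat_lit 7) [nat_lit 65,nat_lit 0x2100e1,nat_lit 0x4028183],
    .r (nat_lit 0x1ce4) (nat_lit 6) [nat_lit 0x200001,nat_lit 65],.r (nat_lit 0x14bc) (nat_lit 3) [nat_lit 0x600001,
    nat_lit 0x4000001,nat_lit 0x67018e1,nat_lit 0x180c1],.r (nat_lit 0x14c1) (nat_lit 4) [nat_lit 0xb91b0e2,
    nat_lit 0x180c2,nat_lit 0x600001,nat_lit 0x10001],.r (nat_lit 0x1ba4) (nat_lit 4) [nat_lit 0x200001,nat_lit 65,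
    nat_lit 0x40100e3],.c (nat_lit 5) (nat_lit 2),.r (nat_lit 0x1be1) (nat_lit 3) [nat_lit 0x10001,nat_lit 0x300041,
    nat_lit 0x67198e3,nat_lit 0x200001],.c (nat_lit 2) (nat_lit 0x338cc7),
    .r (nat_lit 0x1b8b) (nat_lit 2) [nat_lit 0x300041,nat_lit 0x67198e3,nat_lit 0x200001],
    .r (nat_lit 0x14e9) (nat_lit 3) [nat_lit 0xc00001,nat_lit 0x8000001,nat_lit 193,nat_lit 0xad2b0e1],
    .c (nat_lit 6) (nat_lit 2),.r (nat_lit 0x1bc3) (nat_lit 7) [nat_lit 0x10001,nat_lit 0x200001,nat_lit 65],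
    .c (nat_lit 7) (nat_lit 2)]]

/-- nodes -/
noncomputable def rD7k_25_15 : List RJ :=
  [.l (nat_lit 17) (nat_lit 0x6540) (nat_lit 4) (nat_lit 0x3222000040cc0000312e0000312e0000307a0000307a000032060000320600003176000031760000340f0000340f00002e9500002e95) (nat_lit 0xeaa00000f9e00000f9e000010520000105200000ec600000ec600000f5600000f5600000cbd00000cbd0000123700001237)
    (nat_lit 0x19a108de039cc1ce60ef108740543423ec0edf0739856062c230ff5869348390334218970c4b82a782d1a15020a5d062ec14401c8e8e8f468662e9518970739849e0209414b7083707f3c3da60dd50a76848e224710eeb867a4625c1ce60fde093c05b4820dc13cd096883fc024cc1238896443dee19e9168d0874041b820dc0e77087f03d8014ec100206fc8519625b511f08790c2a781de216d20a5b847101cee10da086d043f828ba11de87e1c3b661a0d14ba08fb04b443da610da053b037541fe0137308ac052fe247111de87f3c54082a1a13cd0fe7843681ec00dd506ea85a2822b012a48805c4b6a21c70a2007398499829da145d06fc8456022b013a90a6d845821a550c4087cfc62ec1dbe0ff006ea843f82004168a09b985054275211cc892e431021f3f1d1e8b08c4b2224710fc3896d4402e2471125c869544ea42148137308be0723a2b031238891c4477a28cb12a48a5fc473222c1131909d484eec21d8174a8693433d219e90d068790c438e1fcf0f9f87cfc43b022f80b60075f868661feb0f7b8775c3b6623e112da88ef43102188113bb09b9838bc16c0)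
    (nat_lit 0x19a119500ca80654032a019500ca80654032a019500ca80654032a01950046f0334232a019500ca80654032a019500ca80654032a019500ca8065400e730c4b849e0654032a019500ca80654032a019500ca80654032a01950039cc312e104a093c0ca80654032a019500ca80654032a019500ca8065400ef1054f052dc2da40e7719500ca80654032a019500ca80654032a01950043a02d1a106e0837043f81cee32a019500ca80654032a019500ca806540150d0a8107f3c279a0f60086d03754654032a019500ca80654032a01950047d829741ed30968829d821b40ff006ea8ca80654032a019500ca8065400edf0c5d837541fe01002087f04dcc2d1413a919500ca80654032a01950039cc144014ed0933037e428ba115808ac0536c275232a019500ca80654015818df6448e22471146588ef452fe2549116088e644ea4654032a019500584638f91238896444b6a1f8712388805c34aa24b910a409d48ca8065400ff58b3043bae1ef711f0876cc477a25b50c40862044dcc27760b6019500349a2e950cf4867a43c861a0d0fe78871c3e7e1f3f117c087603afc16c0)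
    (nat_lit 4) (nat_lit 79)
    [[nat_lit 2,nat_lit 3,nat_lit 4,nat_lit 18,nat_lit 258,nat_lit 0x100102,nat_lit 0x1000102,nat_lit 0x1002,
    nat_lit 0x10002,nat_lit 0x100002,nat_lit 17,nat_lit 273,nat_lit 257,nat_lit 513,nat_lit 0x1101,nat_lit 0x10101,
    nat_lit 0x100101,nat_lit 0x1000101,nat_lit 0x1010101,nat_lit 0x1100101,nat_lit 0x1001,nat_lit 0x2001,
    nat_lit 0x11001,nat_lit 0x10001,nat_lit 0x20001,nat_lit 0x1010001,nat_lit 0x110001,nat_lit 0x100001,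
    nat_lit 0x200001,nat_lit 0x1000001],[nat_lit 32,nat_lit 272,nat_lit 0x10110,nat_lit 0x100110,nat_lit 0x1000110,
    nat_lit 0x1010,nat_lit 0x11010,nat_lit 0x10010,nat_lit 0x100010,nat_lit 0x110010],[nat_lit 512,nat_lit 0x1000200,
    nat_lit 0x1100,nat_lit 0x11100,nat_lit 0x10100,nat_lit 0x20100,nat_lit 0x1010100,nat_lit 0x100100,
    nat_lit 0x101100,nat_lit 0x1100100,nat_lit 0x1000100,nat_lit 0x2000200],[nat_lit 0x2000,nat_lit 0x3000,
    nat_lit 0x12000,nat_lit 0x11000,nat_lit 0x21000,nat_lit 0x1011000,nat_lit 0x1001000],[nat_lit 0x20000,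
    nat_lit 0x30000,nat_lit 0x1020000,nat_lit 0x110000,nat_lit 0x1010000,nat_lit 0x1110000],[nat_lit 0x200000,
    nat_lit 0x1100000],[]]
    [.c (nat_lit 1) (nat_lit 2),.r (nat_lit 0x1749) (nat_lit 1) [nat_lit 33,nat_lit 0x606031,nat_lit 0x20001],
    .r (nat_lit 0x174a) (nat_lit 9) [nat_lit 0x808032,nat_lit 34,nat_lit 0x20001],
    .r (nat_lit 0x1ca1) (nat_lit 3) [nat_lit 0x404031,nat_lit 0x5021,nat_lit 0x20001,nat_lit 33],
    .c (nat_lit 0) (nat_lit 0x33223),.r (nat_lit 0x174c) (nat_lit 0) [nat_lit 0x20001,nat_lit 0x232231,nat_lit 33],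
    .r (nat_lit 0x1957) (nat_lit 0) [nat_lit 0x2001,nat_lit 0x200001,nat_lit 0x20001,nat_lit 0x332231],
    .c (nat_lit 1) (nat_lit 0x30302),.c (nat_lit 0) (nat_lit 0x33223),
    .r (nat_lit 0x1748) (nat_lit 9) [nat_lit 0x604031,nat_lit 0x2021,nat_lit 0x20001],
    .r (nat_lit 0x1750) (nat_lit 4) [nat_lit 33,nat_lit 0x200001],.r (nat_lit 0x1958) (nat_lit 3) [nat_lit 0x330231,
    nat_lit 0x20001,nat_lit 0x202031,nat_lit 33],.c (nat_lit 0) (nat_lit 0x33023),.c (nat_lit 0) (nat_lit 0x55043),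
    .c (nat_lit 3) (nat_lit 0x30302),.c (nat_lit 0) (nat_lit 0x33023),.r (nat_lit 8) (nat_lit 13) [nat_lit 0x30231,
    nat_lit 0x20001],.r (nat_lit 0x183f) (nat_lit 4) [nat_lit 0x2001,nat_lit 0x330231,nat_lit 0x20001,
    nat_lit 0x200001],.c (nat_lit 2) (nat_lit 0x30023),.r (nat_lit 0x1621) (nat_lit 0) [nat_lit 0x33021,
    nat_lit 0x40001,nat_lit 0x32021,nat_lit 0x422031],.c (nat_lit 0) (nat_lit 0x20203),
    .c (nat_lit 4) (nat_lit 0x30302),.c (nat_lit 5) (nat_lit 0x30302),.c (nat_lit 0) (nat_lit 0x33023),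
    .c (nat_lit 0) (nat_lit 0x55043),.r (nat_lit 0x1ca3) (nat_lit 11) [nat_lit 0x300231,nat_lit 33,nat_lit 0x33001],
    .r (nat_lit 0x1c9f) (nat_lit 7) [nat_lit 0x20001,nat_lit 0x202031,nat_lit 0x333201],
    .r (nat_lit 0x174a) (nat_lit 9) [nat_lit 0x402031,nat_lit 0x2021,nat_lit 0x20001],
    .c (nat_lit 4) (nat_lit 0x60203),.r (nat_lit 0x1ac9) (nat_lit 7) [nat_lit 0x202031,nat_lit 0x20001,nat_lit 33],
    .c (nat_lit 2) (nat_lit 2),.r (nat_lit 2) (nat_lit 4) [nat_lit 0x202001,nat_lit 33],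
    .r (nat_lit 0x1750) (nat_lit 5) [nat_lit 0x303231,nat_lit 0x422321],
    .r (nat_lit 0x1068) (nat_lit 3) [nat_lit 0x333201,nat_lit 0x222321,nat_lit 0x2001,nat_lit 0x303231],
    .c (nat_lit 0) (nat_lit 0x3002),.r (nat_lit 0x1750) (nat_lit 5) [nat_lit 0x220031,nat_lit 33],
    .r (nat_lit 0x1957) (nat_lit 0) [nat_lit 0x2001,nat_lit 0x200001,nat_lit 0x20001,nat_lit 0x330021],
    .r (nat_lit 32) (nat_lit 9) [nat_lit 0x202001,nat_lit 33],.r (nat_lit 8) (nat_lit 5) [nat_lit 0x2021,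
    nat_lit 0x200001],.r (nat_lit 32) (nat_lit 8) [nat_lit 0x202001,nat_lit 0x303231],.c (nat_lit 3) (nat_lit 2),
    .r (nat_lit 0x1ce6) (nat_lit 4) [nat_lit 0x2001,nat_lit 0x20001,nat_lit 33,nat_lit 0x200001],
    .c (nat_lit 0) (nat_lit 0x3223),.c (nat_lit 4) (nat_lit 0x42232),.c (nat_lit 0) (nat_lit 0x33023),
    .c (nat_lit 0) (nat_lit 0x55043),.r (nat_lit 8) (nat_lit 5) [nat_lit 0x300231,nat_lit 0x200001],
    .c (nat_lit 0) (nat_lit 0x33323),.c (nat_lit 0) (nat_lit 0x30002),.r (nat_lit 32) (nat_lit 9) [nat_lit 0x202001,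
    nat_lit 0x303231],.r (nat_lit 32) (nat_lit 8) [nat_lit 0x202001,nat_lit 33],
    .r (nat_lit 0x17fa) (nat_lit 1) [nat_lit 0x2001,nat_lit 0x200001,nat_lit 0x444522,nat_lit 0x333201],
    .c (nat_lit 4) (nat_lit 2),.r (nat_lit 0x1748) (nat_lit 9) [nat_lit 33,nat_lit 0x606031,nat_lit 0x20001],
    .r (nat_lit 0x174c) (nat_lit 0) [nat_lit 0x20001,nat_lit 33,nat_lit 0x232231],.c (nat_lit 0) (nat_lit 0x3223),
    .r (nat_lit 0x1183) (nat_lit 4) [nat_lit 0x60001,nat_lit 0x355431,nat_lit 0x533221,nat_lit 0x844521],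
    .r (nat_lit 0x195a) (nat_lit 4) [nat_lit 0x2001,nat_lit 0x20001,nat_lit 0x200001,nat_lit 0x300021],
    .r (nat_lit 8) (nat_lit 5) [nat_lit 0x222031,nat_lit 0x200001],.c (nat_lit 5) (nat_lit 2),
    .r (nat_lit 0x15fc) (nat_lit 4) [nat_lit 0x60001,nat_lit 0x777631,nat_lit 33,nat_lit 0xc66721],
    .r (nat_lit 0x15eb) (nat_lit 4) [nat_lit 0x40001,nat_lit 0x400001,nat_lit 0x30021,nat_lit 0x935431],
    .c (nat_lit 0) (nat_lit 0x33323),.r (nat_lit 0x1068) (nat_lit 3) [nat_lit 0x333201,nat_lit 0x20031,nat_lit 0x2001,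
    nat_lit 33],.r (nat_lit 2) (nat_lit 4) [nat_lit 0x202001,nat_lit 0x303231],.c (nat_lit 6) (nat_lit 2),
    .r (nat_lit 0x1750) (nat_lit 5) [nat_lit 33,nat_lit 0x220031]]]

/-- nodes -/
noncomputable def rD7k_25_16 : List RJ :=
  [.s (nat_lit 16) (nat_lit 0x3c00) (nat_lit 5) (nat_lit 0x1ab400001c3c0000232000001f0400001db800001db800001de200001de200001bd800001bd800001c4400001c440000267c00001b18) (nat_lit 0xa4000000bc8000007780000035c000008c4000008c40000089a0000089a00000aa400000aa400000a3800000a3800000b6400000000)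
    (nat_lit 0x10740f940f3415d811f011f0121a121a101010101b20107c0f501b14137c107414c418e00a00121013a213a2109010782b24208012581c3c18e015d81d101e441a5c1a5c1ba623fe0a00187c18e819f017bc0a0014c40f3418f41d101640164017a21ffa10581460106414cc13a01568121011f016401a5c0b64138c151e151e131411dc1d1c1788165c22200a0011f016401a5c14f40b641656151e144c13141914138012541db813a2121a1ffa23fe151e151e15481548133e120613aa1272127e184e13a2121a17a21ba61656151e154815481476133e136213aa127e1de2107810101460187c131411dc133e12061134113411a0106810741c201090101010580a00144c13141476133e108c113411a011a010741c382080107c14cc19f01380178813aa127211a0106811ac12b410e01c442b241b20106418e819141d1c136213aa11a011a0120c11ac10801c441c3c1b1415680a001db822201de2184e1c381c201c441c441074267c12580f5013a017bc1254165c127e127e10741074108010e00f0c1074)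
    (nat_lit 0x10743c003c003c003c003c003c003c003c003c003c003c003c003c000f9410743c003c003c003c003c003c003c003c003c003c003c003c000f3414c41d103c003c003c003c003c003c003c003c003c003c003c0015d818e01e441d103c003c003c003c003c003c003c003c003c003c0011f00a001a5c16400b643c003c003c003c003c003c003c003c003c0011f012101a5c1640138c0b643c003c003c003c003c003c003c003c00121a13a21ba617a2151e165615483c003c003c003c003c003c003c00121a13a223fe1ffa151e151e154815483c003c003c003c003c003c00101010900a0010581314144c133e147611343c003c003c003c003c0010101078187c146011dc13141206133e113411343c003c003c003c001b20221818e810641d1c191413aa136211a011a011ac3c003c003c00107c208019f014cc17881380127213aa106811a012b411ac3c003c000f50125817bc13a0165c1254127e127e1074107410e0108010743c0019341c3c0a00156820401db8184e1de21c201a581c441a641f681074)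
    (nat_lit 5) (nat_lit 101)
    [[nat_lit 0,nat_lit 2,nat_lit 4,nat_lit 10],[nat_lit 0,nat_lit 2,nat_lit 4,nat_lit 11],[nat_lit 0,nat_lit 2,
    nat_lit 6],[nat_lit 0,nat_lit 2,nat_lit 7],[nat_lit 0,nat_lit 3,nat_lit 4,nat_lit 10],[nat_lit 0,nat_lit 3,
    nat_lit 4,nat_lit 11],[nat_lit 0,nat_lit 3,nat_lit 7],[nat_lit 0,nat_lit 5,nat_lit 2,nat_lit 11],[nat_lit 0,
    nat_lit 6,nat_lit 2],[nat_lit 0,nat_lit 8,nat_lit 13],[nat_lit 0,nat_lit 10,nat_lit 0,nat_lit 10],[nat_lit 0,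
    nat_lit 11,nat_lit 0,nat_lit 11],[nat_lit 0,nat_lit 12,nat_lit 8],[nat_lit 0,nat_lit 12,nat_lit 9],[nat_lit 1,
    nat_lit 3,nat_lit 7],[nat_lit 1,nat_lit 6,nat_lit 2],[nat_lit 1,nat_lit 6,nat_lit 3],[nat_lit 1,nat_lit 7,
    nat_lit 3],[nat_lit 1,nat_lit 8,nat_lit 13],[nat_lit 1,nat_lit 9,nat_lit 13],[nat_lit 1,nat_lit 10,nat_lit 1,
    nat_lit 10],[nat_lit 1,nat_lit 10,nat_lit 3,nat_lit 4],[nat_lit 1,nat_lit 10,nat_lit 5,nat_lit 2],[nat_lit 1,
    nat_lit 10,nat_lit 5,nat_lit 3],[nat_lit 1,nat_lit 11,nat_lit 1,nat_lit 11],[nat_lit 1,nat_lit 11,nat_lit 5,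
    nat_lit 2],[nat_lit 1,nat_lit 11,nat_lit 5,nat_lit 3],[nat_lit 1,nat_lit 12,nat_lit 9],[nat_lit 2,nat_lit 4,
    nat_lit 2,nat_lit 4],[nat_lit 2,nat_lit 4,nat_lit 5,nat_lit 3],[nat_lit 2,nat_lit 12],[nat_lit 2,nat_lit 13],
    [nat_lit 3,nat_lit 5,nat_lit 3,nat_lit 5],[nat_lit 3,nat_lit 12],[nat_lit 3,nat_lit 13],[nat_lit 4,nat_lit 6,
    nat_lit 8],[nat_lit 4,nat_lit 6,nat_lit 9],[nat_lit 4,nat_lit 7,nat_lit 9],[nat_lit 4,nat_lit 8,nat_lit 6],
    [nat_lit 4,nat_lit 8,nat_lit 7],[nat_lit 4,nat_lit 9,nat_lit 7],[nat_lit 4,nat_lit 10,nat_lit 10],[nat_lit 4,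
    nat_lit 10,nat_lit 11],[nat_lit 5,nat_lit 6,nat_lit 8],[nat_lit 5,nat_lit 6,nat_lit 9],[nat_lit 5,nat_lit 7,
    nat_lit 9],[nat_lit 5,nat_lit 8,nat_lit 6],[nat_lit 5,nat_lit 8,nat_lit 7],[nat_lit 5,nat_lit 9,nat_lit 7],
    [nat_lit 5,nat_lit 10,nat_lit 11],[nat_lit 5,nat_lit 11,nat_lit 11],[nat_lit 6,nat_lit 10],[nat_lit 6,nat_lit 11],
    [nat_lit 7,nat_lit 10],[nat_lit 7,nat_lit 11]]
    [nat_lit 0x1024a,nat_lit 0x1024b,nat_lit 0x1026,nat_lit 0x1027,nat_lit 0x1034a,nat_lit 0x1034b,nat_lit 0x1037,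
    nat_lit 0x1052b,nat_lit 0x1062,nat_lit 0x108d,nat_lit 0x10a0a,nat_lit 0x10b0b,nat_lit 0x10c8,nat_lit 0x10c9,
    nat_lit 0x1137,nat_lit 0x1162,nat_lit 0x1163,nat_lit 0x1173,nat_lit 0x118d,nat_lit 0x119d,nat_lit 0x11a1a,
    nat_lit 0x11a34,nat_lit 0x11a52,nat_lit 0x11a53,nat_lit 0x11b1b,nat_lit 0x11b52,nat_lit 0x11b53,nat_lit 0x11c9,
    nat_lit 0x12424,nat_lit 0x12453,nat_lit 300,nat_lit 301,nat_lit 0x13535,nat_lit 316,nat_lit 317,nat_lit 0x1468,
    nat_lit 0x1469,nat_lit 0x1479,nat_lit 0x1486,nat_lit 0x1487,nat_lit 0x1497,nat_lit 0x14aa,nat_lit 0x14ab,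
    nat_lit 0x1568,nat_lit 0x1569,nat_lit 0x1579,nat_lit 0x1586,nat_lit 0x1587,nat_lit 0x1597,nat_lit 0x15ab,
    nat_lit 0x15bb,nat_lit 362,nat_lit 363,nat_lit 378,nat_lit 379]
    [[[nat_lit 0,nat_lit 2,nat_lit 4,nat_lit 10],[nat_lit 0,nat_lit 2,nat_lit 4,nat_lit 11],[nat_lit 0,nat_lit 2,
    nat_lit 6],[nat_lit 0,nat_lit 2,nat_lit 7],[nat_lit 0,nat_lit 3,nat_lit 4,nat_lit 10],[nat_lit 0,nat_lit 3,
    nat_lit 4,nat_lit 11],[nat_lit 0,nat_lit 3,nat_lit 7],[nat_lit 0,nat_lit 5,nat_lit 2,nat_lit 11],[nat_lit 0,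
    nat_lit 6,nat_lit 2],[nat_lit 0,nat_lit 8,nat_lit 13],[nat_lit 0,nat_lit 10,nat_lit 0,nat_lit 10],[nat_lit 0,
    nat_lit 11,nat_lit 0,nat_lit 11]],[[nat_lit 0,nat_lit 12,nat_lit 8],[nat_lit 0,nat_lit 12,nat_lit 9],[nat_lit 1,
    nat_lit 3,nat_lit 7],[nat_lit 1,nat_lit 6,nat_lit 2],[nat_lit 1,nat_lit 6,nat_lit 3],[nat_lit 1,nat_lit 7,
    nat_lit 3],[nat_lit 1,nat_lit 8,nat_lit 13],[nat_lit 1,nat_lit 9,nat_lit 13],[nat_lit 1,nat_lit 10,nat_lit 1,
    nat_lit 10],[nat_lit 1,nat_lit 10,nat_lit 3,nat_lit 4],[nat_lit 1,nat_lit 10,nat_lit 5,nat_lit 2],[nat_lit 1,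
    nat_lit 10,nat_lit 5,nat_lit 3]],[[nat_lit 1,nat_lit 11,nat_lit 1,nat_lit 11],[nat_lit 1,nat_lit 11,nat_lit 5,
    nat_lit 2],[nat_lit 1,nat_lit 11,nat_lit 5,nat_lit 3],[nat_lit 1,nat_lit 12,nat_lit 9],[nat_lit 2,nat_lit 0,
    nat_lit 6],[nat_lit 2,nat_lit 1,nat_lit 6],[nat_lit 2,nat_lit 1,nat_lit 10,nat_lit 5],[nat_lit 2,nat_lit 1,
    nat_lit 11,nat_lit 5],[nat_lit 2,nat_lit 4,nat_lit 2,nat_lit 4],[nat_lit 2,nat_lit 4,nat_lit 5,nat_lit 3],
    [nat_lit 2,nat_lit 4,nat_lit 10,nat_lit 0],[nat_lit 2,nat_lit 4,nat_lit 11,nat_lit 0]],[[nat_lit 2,nat_lit 6,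
    nat_lit 0],[nat_lit 2,nat_lit 7,nat_lit 0],[nat_lit 2,nat_lit 11,nat_lit 0,nat_lit 5],[nat_lit 2,nat_lit 12],
    [nat_lit 2,nat_lit 13],[nat_lit 3,nat_lit 1,nat_lit 6],[nat_lit 3,nat_lit 1,nat_lit 7],[nat_lit 3,nat_lit 1,
    nat_lit 10,nat_lit 5],[nat_lit 3,nat_lit 1,nat_lit 11,nat_lit 5],[nat_lit 3,nat_lit 2,nat_lit 4,nat_lit 5],
    [nat_lit 3,nat_lit 4,nat_lit 1,nat_lit 10],[nat_lit 3,nat_lit 4,nat_lit 10,nat_lit 0]],[[nat_lit 3,nat_lit 4,
    nat_lit 11,nat_lit 0],[nat_lit 3,nat_lit 5,nat_lit 3,nat_lit 5],[nat_lit 3,nat_lit 7,nat_lit 0],[nat_lit 3,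
    nat_lit 7,nat_lit 1],[nat_lit 3,nat_lit 12],[nat_lit 3,nat_lit 13],[nat_lit 4,nat_lit 1,nat_lit 10,nat_lit 3],
    [nat_lit 4,nat_lit 2,nat_lit 4,nat_lit 2],[nat_lit 4,nat_lit 5,nat_lit 3,nat_lit 2],[nat_lit 4,nat_lit 6,
    nat_lit 8],[nat_lit 4,nat_lit 6,nat_lit 9],[nat_lit 4,nat_lit 7,nat_lit 9]],[[nat_lit 4,nat_lit 8,nat_lit 6],
    [nat_lit 4,nat_lit 8,nat_lit 7],[nat_lit 4,nat_lit 9,nat_lit 7],[nat_lit 4,nat_lit 10,nat_lit 0,nat_lit 2],
    [nat_lit 4,nat_lit 10,nat_lit 0,nat_lit 3],[nat_lit 4,nat_lit 10,nat_lit 10],[nat_lit 4,nat_lit 10,nat_lit 11],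
    [nat_lit 4,nat_lit 11,nat_lit 0,nat_lit 2],[nat_lit 4,nat_lit 11,nat_lit 0,nat_lit 3],[nat_lit 5,nat_lit 2,
    nat_lit 1,nat_lit 10],[nat_lit 5,nat_lit 2,nat_lit 1,nat_lit 11],[nat_lit 5,nat_lit 2,nat_lit 11,nat_lit 0]],
    [[nat_lit 5,nat_lit 3,nat_lit 1,nat_lit 10],[nat_lit 5,nat_lit 3,nat_lit 1,nat_lit 11],[nat_lit 5,nat_lit 3,
    nat_lit 2,nat_lit 4],[nat_lit 5,nat_lit 3,nat_lit 5,nat_lit 3],[nat_lit 5,nat_lit 6,nat_lit 8],[nat_lit 5,
    nat_lit 6,nat_lit 9],[nat_lit 5,nat_lit 7,nat_lit 9],[nat_lit 5,nat_lit 8,nat_lit 6],[nat_lit 5,nat_lit 8,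
    nat_lit 7],[nat_lit 5,nat_lit 9,nat_lit 7],[nat_lit 5,nat_lit 10,nat_lit 11],[nat_lit 5,nat_lit 11,nat_lit 11]],
    [[nat_lit 6,nat_lit 0,nat_lit 2],[nat_lit 6,nat_lit 2,nat_lit 0],[nat_lit 6,nat_lit 2,nat_lit 1],[nat_lit 6,
    nat_lit 3,nat_lit 1],[nat_lit 6,nat_lit 4,nat_lit 8],[nat_lit 6,nat_lit 5,nat_lit 8],[nat_lit 6,nat_lit 8,
    nat_lit 4],[nat_lit 6,nat_lit 8,nat_lit 5],[nat_lit 6,nat_lit 9,nat_lit 4],[nat_lit 6,nat_lit 9,nat_lit 5],
    [nat_lit 6,nat_lit 10],[nat_lit 6,nat_lit 11]],[[nat_lit 7,nat_lit 0,nat_lit 2],[nat_lit 7,nat_lit 0,nat_lit 3],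
    [nat_lit 7,nat_lit 1,nat_lit 3],[nat_lit 7,nat_lit 3,nat_lit 1],[nat_lit 7,nat_lit 4,nat_lit 8],[nat_lit 7,
    nat_lit 4,nat_lit 9],[nat_lit 7,nat_lit 5,nat_lit 8],[nat_lit 7,nat_lit 5,nat_lit 9],[nat_lit 7,nat_lit 9,
    nat_lit 4],[nat_lit 7,nat_lit 9,nat_lit 5],[nat_lit 7,nat_lit 10],[nat_lit 7,nat_lit 11]],[[nat_lit 8,nat_lit 0,
    nat_lit 12],[nat_lit 8,nat_lit 4,nat_lit 6],[nat_lit 8,nat_lit 5,nat_lit 6],[nat_lit 8,nat_lit 6,nat_lit 4],
    [nat_lit 8,nat_lit 6,nat_lit 5],[nat_lit 8,nat_lit 7,nat_lit 4],[nat_lit 8,nat_lit 7,nat_lit 5],[nat_lit 8,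
    nat_lit 13,nat_lit 0],[nat_lit 8,nat_lit 13,nat_lit 1],[nat_lit 9,nat_lit 0,nat_lit 12],[nat_lit 9,nat_lit 1,
    nat_lit 12],[nat_lit 9,nat_lit 4,nat_lit 6]],[[nat_lit 9,nat_lit 4,nat_lit 7],[nat_lit 9,nat_lit 5,nat_lit 6],
    [nat_lit 9,nat_lit 5,nat_lit 7],[nat_lit 9,nat_lit 7,nat_lit 4],[nat_lit 9,nat_lit 7,nat_lit 5],[nat_lit 9,
    nat_lit 13,nat_lit 1],[nat_lit 10,nat_lit 0,nat_lit 2,nat_lit 4],[nat_lit 10,nat_lit 0,nat_lit 3,nat_lit 4],
    [nat_lit 10,nat_lit 0,nat_lit 10,nat_lit 0],[nat_lit 10,nat_lit 1,nat_lit 10,nat_lit 1],[nat_lit 10,nat_lit 3,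
    nat_lit 4,nat_lit 1],[nat_lit 10,nat_lit 4,nat_lit 10]],[[nat_lit 10,nat_lit 5,nat_lit 2,nat_lit 1],[nat_lit 10,
    nat_lit 5,nat_lit 3,nat_lit 1],[nat_lit 10,nat_lit 6],[nat_lit 10,nat_lit 7],[nat_lit 10,nat_lit 10,nat_lit 4],
    [nat_lit 10,nat_lit 11,nat_lit 4],[nat_lit 10,nat_lit 11,nat_lit 5],[nat_lit 11,nat_lit 0,nat_lit 2,nat_lit 4],
    [nat_lit 11,nat_lit 0,nat_lit 3,nat_lit 4],[nat_lit 11,nat_lit 0,nat_lit 5,nat_lit 2],[nat_lit 11,nat_lit 0,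
    nat_lit 11,nat_lit 0],[nat_lit 11,nat_lit 1,nat_lit 11,nat_lit 1]],[[nat_lit 11,nat_lit 4,nat_lit 10],[nat_lit 11,
    nat_lit 5,nat_lit 2,nat_lit 1],[nat_lit 11,nat_lit 5,nat_lit 3,nat_lit 1],[nat_lit 11,nat_lit 5,nat_lit 10],
    [nat_lit 11,nat_lit 5,nat_lit 11],[nat_lit 11,nat_lit 6],[nat_lit 11,nat_lit 7],[nat_lit 11,nat_lit 11,nat_lit 5],
    [nat_lit 12,nat_lit 2],[nat_lit 12,nat_lit 3],[nat_lit 12,nat_lit 8,nat_lit 0],[nat_lit 12,nat_lit 9,nat_lit 0]],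
    [[nat_lit 12,nat_lit 9,nat_lit 1],[nat_lit 13,nat_lit 0,nat_lit 8],[nat_lit 13,nat_lit 1,nat_lit 8],[nat_lit 13,
    nat_lit 1,nat_lit 9],[nat_lit 13,nat_lit 2],[nat_lit 13,nat_lit 3]]]
    [[nat_lit 34,nat_lit 35,nat_lit 36,nat_lit 37,nat_lit 47,nat_lit 48,nat_lit 50,nat_lit 71,nat_lit 85,nat_lit 115,
    nat_lit 128,nat_lit 142],[nat_lit 154,nat_lit 155,nat_lit 51,nat_lit 86,nat_lit 87,nat_lit 99,nat_lit 116,
    nat_lit 125,nat_lit 129,nat_lit 130,nat_lit 132,nat_lit 133],[nat_lit 143,nat_lit 145,nat_lit 146,nat_lit 156,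
    nat_lit 8,nat_lit 15,nat_lit 22,nat_lit 25,nat_lit 55,nat_lit 56,nat_lit 63,nat_lit 67],[nat_lit 84,nat_lit 96,
    nat_lit 141,nat_lit 152,nat_lit 160,nat_lit 16,nat_lit 17,nat_lit 23,nat_lit 26,nat_lit 33,nat_lit 54,nat_lit 64],
    [nat_lit 68,nat_lit 75,nat_lit 97,nat_lit 98,nat_lit 153,nat_lit 161,nat_lit 21,nat_lit 32,nat_lit 74,nat_lit 90,
    nat_lit 92,nat_lit 104],[nat_lit 111,nat_lit 113,nat_lit 123,nat_lit 126,nat_lit 127,nat_lit 136,nat_lit 137,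
    nat_lit 139,nat_lit 140,nat_lit 30,nat_lit 31,nat_lit 38],[nat_lit 43,nat_lit 44,nat_lit 45,nat_lit 49,nat_lit 91,
    nat_lit 93,nat_lit 105,nat_lit 112,nat_lit 114,nat_lit 124,nat_lit 138,nat_lit 151],[nat_lit 2,nat_lit 28,
    nat_lit 29,nat_lit 41,nat_lit 60,nat_lit 79,nat_lit 109,nat_lit 110,nat_lit 119,nat_lit 121,nat_lit 134,
    nat_lit 149],[nat_lit 3,nat_lit 6,nat_lit 14,nat_lit 42,nat_lit 61,nat_lit 62,nat_lit 80,nat_lit 81,nat_lit 120,
    nat_lit 122,nat_lit 135,nat_lit 150],[nat_lit 12,nat_lit 57,nat_lit 76,nat_lit 88,nat_lit 89,nat_lit 100,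
    nat_lit 102,nat_lit 157,nat_lit 158,nat_lit 13,nat_lit 27,nat_lit 58],[nat_lit 59,nat_lit 77,nat_lit 78,
    nat_lit 101,nat_lit 103,nat_lit 159,nat_lit 0,nat_lit 4,nat_lit 10,nat_lit 20,nat_lit 46,nat_lit 65],[nat_lit 69,
    nat_lit 72,nat_lit 94,nat_lit 106,nat_lit 131,nat_lit 144,nat_lit 147,nat_lit 1,nat_lit 5,nat_lit 7,nat_lit 11,
    nat_lit 24],[nat_lit 66,nat_lit 70,nat_lit 73,nat_lit 82,nat_lit 83,nat_lit 95,nat_lit 107,nat_lit 148,nat_lit 39,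
    nat_lit 52,nat_lit 108,nat_lit 117],[nat_lit 118,nat_lit 9,nat_lit 18,nat_lit 19,nat_lit 40,nat_lit 53]]
    [[nat_lit 126,nat_lit 139,nat_lit 84,nat_lit 96,nat_lit 127,nat_lit 140,nat_lit 97,nat_lit 141,nat_lit 28,
    nat_lit 157,nat_lit 128,nat_lit 142],[nat_lit 108,nat_lit 117,nat_lit 98,nat_lit 29,nat_lit 41,nat_lit 42,
    nat_lit 158,nat_lit 159,nat_lit 129,nat_lit 54,nat_lit 30,nat_lit 43],[nat_lit 143,nat_lit 31,nat_lit 44,
    nat_lit 118,nat_lit 85,nat_lit 86,nat_lit 69,nat_lit 70,nat_lit 55,nat_lit 45,nat_lit 0,nat_lit 1],[nat_lit 2,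
    nat_lit 3,nat_lit 71,nat_lit 152,nat_lit 160,nat_lit 87,nat_lit 99,nat_lit 72,nat_lit 73,nat_lit 74,nat_lit 130,
    nat_lit 4],[nat_lit 5,nat_lit 75,nat_lit 6,nat_lit 14,nat_lit 153,nat_lit 161,nat_lit 46,nat_lit 32,nat_lit 33,
    nat_lit 109,nat_lit 119,nat_lit 120],[nat_lit 88,nat_lit 100,nat_lit 101,nat_lit 34,nat_lit 47,nat_lit 131,
    nat_lit 144,nat_lit 35,nat_lit 48,nat_lit 132,nat_lit 145,nat_lit 7],[nat_lit 133,nat_lit 146,nat_lit 56,
    nat_lit 49,nat_lit 110,nat_lit 121,nat_lit 122,nat_lit 89,nat_lit 102,nat_lit 103,nat_lit 147,nat_lit 148],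
    [nat_lit 36,nat_lit 8,nat_lit 15,nat_lit 16,nat_lit 111,nat_lit 112,nat_lit 57,nat_lit 76,nat_lit 58,nat_lit 77,
    nat_lit 134,nat_lit 149],[nat_lit 37,nat_lit 50,nat_lit 51,nat_lit 17,nat_lit 113,nat_lit 123,nat_lit 114,
    nat_lit 124,nat_lit 59,nat_lit 78,nat_lit 135,nat_lit 150],[nat_lit 154,nat_lit 90,nat_lit 91,nat_lit 60,
    nat_lit 79,nat_lit 61,nat_lit 80,nat_lit 9,nat_lit 18,nat_lit 155,nat_lit 156,nat_lit 92],[nat_lit 104,nat_lit 93,
    nat_lit 105,nat_lit 62,nat_lit 81,nat_lit 19,nat_lit 63,nat_lit 64,nat_lit 10,nat_lit 20,nat_lit 21,nat_lit 136],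
    [nat_lit 22,nat_lit 23,nat_lit 94,nat_lit 106,nat_lit 65,nat_lit 66,nat_lit 82,nat_lit 67,nat_lit 68,nat_lit 38,
    nat_lit 11,nat_lit 24],[nat_lit 137,nat_lit 25,nat_lit 26,nat_lit 138,nat_lit 151,nat_lit 95,nat_lit 107,
    nat_lit 83,nat_lit 39,nat_lit 52,nat_lit 12,nat_lit 13],[nat_lit 27,nat_lit 115,nat_lit 116,nat_lit 125,
    nat_lit 40,nat_lit 53]]
    [[[],[],[],[],[nat_lit 156],[nat_lit 156],[nat_lit 156],[nat_lit 153],[],[],[],[]],[[nat_lit 154,nat_lit 155],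
    [nat_lit 154,nat_lit 155],[nat_lit 51],[],[],[nat_lit 43,nat_lit 44,nat_lit 45,nat_lit 49],[nat_lit 46],
    [nat_lit 42],[nat_lit 52],[nat_lit 52],[nat_lit 52],[nat_lit 52]],[[],[],[],[nat_lit 47,nat_lit 48,nat_lit 50],
    [nat_lit 8],[nat_lit 9],[nat_lit 9],[nat_lit 9],[nat_lit 2],[nat_lit 2],[nat_lit 2],[nat_lit 2]],[[nat_lit 12],[],
    [nat_lit 13],[],[nat_lit 1,nat_lit 5,nat_lit 7,nat_lit 11],[],[],[],[],[nat_lit 74],[nat_lit 79],[nat_lit 79]],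
    [[nat_lit 79],[nat_lit 75],[],[],[nat_lit 71],[nat_lit 70,nat_lit 73,nat_lit 82,nat_lit 83],[nat_lit 40],
    [nat_lit 32],[nat_lit 33],[],[],[nat_lit 30,nat_lit 31,nat_lit 38]],[[],[],[],[nat_lit 39],[nat_lit 39],
    [nat_lit 39],[nat_lit 39],[],[],[nat_lit 104],[nat_lit 104],[nat_lit 104]],[[nat_lit 99],[nat_lit 99],
    [nat_lit 99],[nat_lit 99],[nat_lit 100,nat_lit 102],[nat_lit 100,nat_lit 102],[nat_lit 105],[nat_lit 106],
    [nat_lit 106],[],[],[nat_lit 101,nat_lit 103]],[[nat_lit 55,nat_lit 56,nat_lit 63,nat_lit 67],[],[],[],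
    [nat_lit 60],[nat_lit 54,nat_lit 64,nat_lit 68],[nat_lit 65],[nat_lit 65],[nat_lit 61,nat_lit 62],[nat_lit 61,
    nat_lit 62],[],[nat_lit 58,nat_lit 59]],[[],[],[],[nat_lit 125],[nat_lit 119,nat_lit 121],[nat_lit 119,
    nat_lit 121],[],[],[nat_lit 120,nat_lit 122],[nat_lit 120,nat_lit 122],[nat_lit 117,nat_lit 118],[]],
    [[nat_lit 84],[],[],[nat_lit 88,nat_lit 89],[nat_lit 88,nat_lit 89],[nat_lit 91,nat_lit 93],[nat_lit 91,
    nat_lit 93],[nat_lit 95],[nat_lit 95],[nat_lit 141],[],[nat_lit 149]],[[nat_lit 149],[],[],[nat_lit 151],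
    [nat_lit 151],[nat_lit 148],[],[],[],[],[nat_lit 116],[nat_lit 109,nat_lit 110]],[[],[],[],[nat_lit 112,
    nat_lit 114],[nat_lit 108],[],[],[nat_lit 160],[nat_lit 160],[nat_lit 160],[nat_lit 160],[]],[[],[nat_lit 161],
    [nat_lit 161],[nat_lit 161],[nat_lit 161],[nat_lit 157,nat_lit 158],[],[nat_lit 159],[nat_lit 126,nat_lit 127,
    nat_lit 136,nat_lit 137],[nat_lit 129,nat_lit 130,nat_lit 132,nat_lit 133],[nat_lit 131],[nat_lit 135]],
    [[nat_lit 135],[nat_lit 15,nat_lit 22,nat_lit 25],[nat_lit 18,nat_lit 19],[nat_lit 18,nat_lit 19],[nat_lit 21],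
    []]]
    (nat_lit 162) [nat_lit 0,nat_lit 1,nat_lit 2,nat_lit 3,nat_lit 4,nat_lit 5,nat_lit 6,nat_lit 7,nat_lit 8,
    nat_lit 9,nat_lit 10,nat_lit 11,nat_lit 12,nat_lit 13,nat_lit 14,nat_lit 15,nat_lit 16,nat_lit 17,nat_lit 18,
    nat_lit 19,nat_lit 20,nat_lit 21,nat_lit 22,nat_lit 23,nat_lit 24,nat_lit 25,nat_lit 26,nat_lit 27,nat_lit 32,
    nat_lit 33,nat_lit 39,nat_lit 40,nat_lit 49,nat_lit 52,nat_lit 53,nat_lit 57,nat_lit 58,nat_lit 59,nat_lit 60,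
    nat_lit 61,nat_lit 62,nat_lit 65,nat_lit 66,nat_lit 76,nat_lit 77,nat_lit 78,nat_lit 79,nat_lit 80,nat_lit 81,
    nat_lit 82,nat_lit 83,nat_lit 94,nat_lit 95,nat_lit 106,nat_lit 107]
    [[[],[],[nat_lit 8],[],[],[],[nat_lit 2],[nat_lit 3,nat_lit 6],[nat_lit 12],[nat_lit 13],[nat_lit 0,nat_lit 4,
    nat_lit 10],[nat_lit 1,nat_lit 5,nat_lit 7,nat_lit 11],[],[nat_lit 9]],[[],[],[nat_lit 15,nat_lit 22,nat_lit 25],
    [nat_lit 16,nat_lit 17,nat_lit 23,nat_lit 26],[nat_lit 21],[],[],[nat_lit 14],[],[nat_lit 27],[nat_lit 20],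
    [nat_lit 24],[],[nat_lit 18,nat_lit 19]],[[nat_lit 34,nat_lit 35,nat_lit 36,nat_lit 37],[],[],[nat_lit 33],
    [nat_lit 32],[nat_lit 30,nat_lit 31,nat_lit 38],[nat_lit 28,nat_lit 29],[],[],[],[],[],[nat_lit 39],[nat_lit 40]],
    [[nat_lit 47,nat_lit 48,nat_lit 50],[nat_lit 51],[],[],[],[nat_lit 43,nat_lit 44,nat_lit 45,nat_lit 49],
    [nat_lit 41],[nat_lit 42],[],[],[nat_lit 46],[],[nat_lit 52],[nat_lit 53]],[[],[],[nat_lit 55,nat_lit 56,
    nat_lit 63,nat_lit 67],[nat_lit 54,nat_lit 64,nat_lit 68],[],[],[nat_lit 60],[nat_lit 61,nat_lit 62],[nat_lit 57],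
    [nat_lit 58,nat_lit 59],[nat_lit 65],[nat_lit 66],[],[]],[[nat_lit 71],[],[],[nat_lit 75],[nat_lit 74],[],
    [nat_lit 79],[nat_lit 80,nat_lit 81],[nat_lit 76],[nat_lit 77,nat_lit 78],[nat_lit 69,nat_lit 72],[nat_lit 70,
    nat_lit 73,nat_lit 82,nat_lit 83],[],[]],[[nat_lit 85],[nat_lit 86,nat_lit 87],[nat_lit 84],[],[nat_lit 90,
    nat_lit 92],[nat_lit 91,nat_lit 93],[],[],[nat_lit 88,nat_lit 89],[],[nat_lit 94],[nat_lit 95],[],[]],[[],
    [nat_lit 99],[nat_lit 96],[nat_lit 97,nat_lit 98],[nat_lit 104],[nat_lit 105],[],[],[nat_lit 100,nat_lit 102],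
    [nat_lit 101,nat_lit 103],[nat_lit 106],[nat_lit 107],[],[]],[[nat_lit 115],[nat_lit 116],[],[],[nat_lit 111,
    nat_lit 113],[nat_lit 112,nat_lit 114],[nat_lit 109,nat_lit 110],[],[],[],[],[],[nat_lit 108],[]],[[],
    [nat_lit 125],[],[],[nat_lit 123],[nat_lit 124],[nat_lit 119,nat_lit 121],[nat_lit 120,nat_lit 122],[],[],[],[],
    [nat_lit 117,nat_lit 118],[]],[[nat_lit 128],[nat_lit 129,nat_lit 130,nat_lit 132,nat_lit 133],[],[],[nat_lit 126,
    nat_lit 127,nat_lit 136,nat_lit 137],[nat_lit 138],[nat_lit 134],[nat_lit 135],[],[],[nat_lit 131],[],[],[]],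
    [[nat_lit 142],[nat_lit 143,nat_lit 145,nat_lit 146],[nat_lit 141],[],[nat_lit 139,nat_lit 140],[nat_lit 151],
    [nat_lit 149],[nat_lit 150],[],[],[nat_lit 144,nat_lit 147],[nat_lit 148],[],[]],[[nat_lit 154,nat_lit 155],
    [nat_lit 156],[nat_lit 152],[nat_lit 153],[],[],[],[],[],[],[],[],[],[]],[[],[],[nat_lit 160],[nat_lit 161],[],[],
    [],[],[nat_lit 157,nat_lit 158],[nat_lit 159],[],[],[],[]]]
    [[[nat_lit 0,nat_lit 0,nat_lit 0,nat_lit 0,nat_lit 0x1000000000000000000000000000000000000000,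
    nat_lit 0x1000000000000000000000000000000000000000,nat_lit 0x1000000000000000000000000000000000000000,
    nat_lit 0x200000000000000000000000000000000000000,nat_lit 0],[nat_lit 0,nat_lit 0,nat_lit 0,
    nat_lit 0xc00000000000000000000000000000000000000,nat_lit 0xc00000000000000000000000000000000000000,
    nat_lit 0x8000000000000,nat_lit 0,nat_lit 0,nat_lit 0x2380000000000],[nat_lit 0x400000000000,
    nat_lit 0x40000000000,nat_lit 0x10000000000000,nat_lit 0x10000000000000,nat_lit 0x10000000000000,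
    nat_lit 0x10000000000000,nat_lit 0,nat_lit 0,nat_lit 0],[nat_lit 0x5800000000000,nat_lit 256,nat_lit 512,
    nat_lit 512,nat_lit 512,nat_lit 4,nat_lit 4,nat_lit 4,nat_lit 4],[nat_lit 0x1000,nat_lit 0,nat_lit 0x2000,
    nat_lit 0,nat_lit 0x8a2,nat_lit 0,nat_lit 0,nat_lit 0,nat_lit 0],[nat_lit 0x4000000000000000000,
    nat_lit 0x80000000000000000000,nat_lit 0x80000000000000000000,nat_lit 0x80000000000000000000,
    nat_lit 0x8000000000000000000,nat_lit 0,nat_lit 0,nat_lit 0x800000000000000000,nat_lit 0xc02400000000000000000],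
    [nat_lit 0x10000000000,nat_lit 0x100000000,nat_lit 0x200000000,nat_lit 0,nat_lit 0,nat_lit 0x40c0000000,nat_lit 0,
    nat_lit 0,nat_lit 0],[nat_lit 0x8000000000,nat_lit 0x8000000000,nat_lit 0x8000000000,nat_lit 0x8000000000,
    nat_lit 0,nat_lit 0,nat_lit 0x100000000000000000000000000,nat_lit 0x100000000000000000000000000,
    nat_lit 0x100000000000000000000000000],[nat_lit 0x8000000000000000000000000,nat_lit 0x8000000000000000000000000,
    nat_lit 0x8000000000000000000000000,nat_lit 0x8000000000000000000000000,nat_lit 0x50000000000000000000000000,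
    nat_lit 0x50000000000000000000000000,nat_lit 0x200000000000000000000000000,nat_lit 0x400000000000000000000000000,
    nat_lit 0x400000000000000000000000000]],[[nat_lit 0,nat_lit 0,nat_lit 0xa0000000000000000000000000,
    nat_lit 0x88180000000000000,nat_lit 0,nat_lit 0,nat_lit 0,nat_lit 0x1000000000000000,
    nat_lit 0x110040000000000000],[nat_lit 0x20000000000000000,nat_lit 0x20000000000000000,nat_lit 0x6000000000000000,
    nat_lit 0x6000000000000000,nat_lit 0,nat_lit 0xc00000000000000,nat_lit 0,nat_lit 0,nat_lit 0],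
    [nat_lit 0x20000000000000000000000000000000,nat_lit 0x2800000000000000000000000000000,
    nat_lit 0x2800000000000000000000000000000,nat_lit 0,nat_lit 0,nat_lit 0x5000000000000000000000000000000,
    nat_lit 0x5000000000000000000000000000000,nat_lit 0x600000000000000000000000000000,nat_lit 0],
    [nat_lit 0x1000000000000000000000,nat_lit 0,nat_lit 0,nat_lit 0x30000000000000000000000,
    nat_lit 0x30000000000000000000000,nat_lit 0x280000000000000000000000,nat_lit 0x280000000000000000000000,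
    nat_lit 0x800000000000000000000000,nat_lit 0x800000000000000000000000],
    [nat_lit 0x200000000000000000000000000000000000,nat_lit 0,nat_lit 0x20000000000000000000000000000000000000,
    nat_lit 0x20000000000000000000000000000000000000,nat_lit 0,nat_lit 0,
    nat_lit 0x80000000000000000000000000000000000000,nat_lit 0x80000000000000000000000000000000000000,
    nat_lit 0x10000000000000000000000000000000000000],[nat_lit 0,nat_lit 0,nat_lit 0,nat_lit 0,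
    nat_lit 0x100000000000000000000000000000,nat_lit 0x6000000000000000000000000000,nat_lit 0,nat_lit 0,nat_lit 0],
    [nat_lit 0x50000000000000000000000000000,nat_lit 0x1000000000000000000000000000,nat_lit 0,nat_lit 0,
    nat_lit 0x10000000000000000000000000000000000000000,nat_lit 0x10000000000000000000000000000000000000000,
    nat_lit 0x10000000000000000000000000000000000000000,nat_lit 0x10000000000000000000000000000000000000000,
    nat_lit 0],[nat_lit 0,nat_lit 0x20000000000000000000000000000000000000000,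
    nat_lit 0x20000000000000000000000000000000000000000,nat_lit 0x20000000000000000000000000000000000000000,
    nat_lit 0x20000000000000000000000000000000000000000,nat_lit 0x6000000000000000000000000000000000000000,nat_lit 0,
    nat_lit 0x8000000000000000000000000000000000000000,nat_lit 0x300c0000000000000000000000000000000],
    [nat_lit 0x3600000000000000000000000000000000,nat_lit 0x800000000000000000000000000000000,
    nat_lit 0x8000000000000000000000000000000000,nat_lit 0x8000000000000000000000000000000000,nat_lit 0x2408000,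
    nat_lit 0xc0000,nat_lit 0xc0000,nat_lit 0x200000,nat_lit 0]]]
    [[[[nat_lit 0,nat_lit 0,nat_lit 0,nat_lit 0,nat_lit 0,nat_lit 0,nat_lit 0,
    nat_lit 0x200000000000000000000000000000000000000,nat_lit 0],[nat_lit 0,nat_lit 0,nat_lit 0,nat_lit 0,nat_lit 0,
    nat_lit 0,nat_lit 0,nat_lit 0,nat_lit 0],[nat_lit 0,nat_lit 0,nat_lit 0,nat_lit 0,nat_lit 0,nat_lit 0,nat_lit 0,
    nat_lit 0,nat_lit 0],[nat_lit 0x1000000000000,nat_lit 0,nat_lit 0,nat_lit 512,nat_lit 0,nat_lit 0,nat_lit 0,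
    nat_lit 0,nat_lit 0],[nat_lit 0,nat_lit 0,nat_lit 0,nat_lit 0,nat_lit 0,nat_lit 0,nat_lit 0,nat_lit 0,nat_lit 0],
    [nat_lit 0,nat_lit 0x80000000000000000000,nat_lit 0,nat_lit 0,nat_lit 0,nat_lit 0,nat_lit 0,nat_lit 0,nat_lit 0],
    [nat_lit 0,nat_lit 0,nat_lit 0,nat_lit 0,nat_lit 0,nat_lit 0x4000000000,nat_lit 0,nat_lit 0,nat_lit 0],[nat_lit 0,
    nat_lit 0,nat_lit 0,nat_lit 0,nat_lit 0,nat_lit 0,nat_lit 0,nat_lit 0,nat_lit 0],[nat_lit 0,nat_lit 0,nat_lit 0,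
    nat_lit 0,nat_lit 0,nat_lit 0,nat_lit 0,nat_lit 0x400000000000000000000000000,nat_lit 0]],[[nat_lit 0,nat_lit 0,
    nat_lit 0,nat_lit 0,nat_lit 0,nat_lit 0,nat_lit 0,nat_lit 0,nat_lit 0],[nat_lit 0,nat_lit 0,nat_lit 0,nat_lit 0,
    nat_lit 0,nat_lit 0x800000000000000,nat_lit 0,nat_lit 0,nat_lit 0],[nat_lit 0,nat_lit 0,nat_lit 0,nat_lit 0,
    nat_lit 0,nat_lit 0x1000000000000000000000000000000,nat_lit 0,nat_lit 0x400000000000000000000000000000,nat_lit 0],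
    [nat_lit 0,nat_lit 0,nat_lit 0,nat_lit 0,nat_lit 0x20000000000000000000000,nat_lit 0,nat_lit 0,
    nat_lit 0x800000000000000000000000,nat_lit 0],[nat_lit 0,nat_lit 0,nat_lit 0,nat_lit 0,nat_lit 0,nat_lit 0,
    nat_lit 0,nat_lit 0,nat_lit 0],[nat_lit 0,nat_lit 0,nat_lit 0,nat_lit 0,nat_lit 0,nat_lit 0,nat_lit 0,nat_lit 0,
    nat_lit 0],[nat_lit 0,nat_lit 0,nat_lit 0,nat_lit 0,nat_lit 0,nat_lit 0x10000000000000000000000000000000000000000,
    nat_lit 0,nat_lit 0,nat_lit 0],[nat_lit 0,nat_lit 0,nat_lit 0,nat_lit 0,nat_lit 0,nat_lit 0,nat_lit 0,nat_lit 0,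
    nat_lit 0],[nat_lit 0x1000000000000000000000000000000000,nat_lit 0,nat_lit 0,nat_lit 0,nat_lit 0,nat_lit 0,
    nat_lit 0,nat_lit 0x200000,nat_lit 0]]]]
    (nat_lit 1) (nat_lit 6) (nat_lit 48)
    [[nat_lit 2,nat_lit 3,nat_lit 0x100012,nat_lit 0x100102,nat_lit 0x1002,nat_lit 0x100002,nat_lit 17,
    nat_lit 0x100011,nat_lit 257,nat_lit 0x100101,nat_lit 0x1100101,nat_lit 0x1001,nat_lit 0x101001,nat_lit 0x10001,
    nat_lit 0x110001,nat_lit 0x1110001,nat_lit 0x100001,nat_lit 0x200001,nat_lit 0x1000001,nat_lit 0x1001001,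
    nat_lit 0x1100001],[nat_lit 32,nat_lit 48,nat_lit 288,nat_lit 0x1020,nat_lit 272,nat_lit 528,nat_lit 0x1110,
    nat_lit 0x10110,nat_lit 0x100110,nat_lit 0x1000110,nat_lit 0x1010,nat_lit 0x2010,nat_lit 0x1001010,
    nat_lit 0x10010,nat_lit 0x1010010,nat_lit 0x100010,nat_lit 0x1100110,nat_lit 0x1100010],[nat_lit 512,nat_lit 768,
    nat_lit 0x1200,nat_lit 0x10200,nat_lit 0x100200,nat_lit 0x1100200,nat_lit 0x1000200,nat_lit 0x1100,nat_lit 0x2100,
    nat_lit 0x1001100,nat_lit 0x10100,nat_lit 0x20100,nat_lit 0x1020100,nat_lit 0x1010100,nat_lit 0x100100,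
    nat_lit 0x101100,nat_lit 0x110100,nat_lit 0x1110100,nat_lit 0x1100100,nat_lit 0x2100100,nat_lit 0x1000100,
    nat_lit 0x2000100],[nat_lit 0x2000,nat_lit 0x1002000,nat_lit 0x11000,nat_lit 0x21000,nat_lit 0x1011000,
    nat_lit 0x1001000,nat_lit 0x2001000],[nat_lit 0x20000,nat_lit 0x30000,nat_lit 0x40000,nat_lit 0x50000,
    nat_lit 0x1030000,nat_lit 0x1020000,nat_lit 0x2020000,nat_lit 0x110000,nat_lit 0x1110000,nat_lit 0x1010000,
    nat_lit 0x2010000],[nat_lit 0x200000,nat_lit 0x1100000,nat_lit 0x2100000],[nat_lit 0x2000000,nat_lit 0x3000000]]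
    [.c (nat_lit 1) (nat_lit 2),.c (nat_lit 0) (nat_lit 0x630005),.c (nat_lit 2) (nat_lit 0xc0328004),
    .c (nat_lit 0) (nat_lit 0x6510085),.c (nat_lit 0) (nat_lit 0xc0511485),.c (nat_lit 1) (nat_lit 0xc0018004),
    .c (nat_lit 0) (nat_lit 0x210003),.c (nat_lit 2) (nat_lit 0xc0018004),.c (nat_lit 0) (nat_lit 0x611005),
    .c (nat_lit 3) (nat_lit 0xc0018004),.c (nat_lit 2) (nat_lit 0x80811005),.c (nat_lit 3) (nat_lit 0x6019004),
    .c (nat_lit 2) (nat_lit 0x84210005),.c (nat_lit 0) (nat_lit 0xc6521485),.c (nat_lit 2) (nat_lit 0x4a010a4),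
    .c (nat_lit 1) (nat_lit 0x6511485),.c (nat_lit 0) (nat_lit 0x80010005),.c (nat_lit 2) (nat_lit 0x140218004),
    .c (nat_lit 0) (nat_lit 0xc6501485),.c (nat_lit 2) (nat_lit 0x4810005),.c (nat_lit 2) (nat_lit 0x80410005),
    .c (nat_lit 2) (nat_lit 2),.r (nat_lit 0x1cdb) (nat_lit 1) [nat_lit 0xa02214a2,nat_lit 0xda329082],
    .c (nat_lit 2) (nat_lit 0x300c02),.c (nat_lit 0) (nat_lit 0xcad19484),.c (nat_lit 0) (nat_lit 0x200803),
    .c (nat_lit 3) (nat_lit 0x300c02),.c (nat_lit 2) (nat_lit 0x4601005),.c (nat_lit 2) (nat_lit 0x846100a4),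
    .c (nat_lit 2) (nat_lit 0xc0301404),.c (nat_lit 2) (nat_lit 0x400803),.c (nat_lit 2) (nat_lit 0x6300004),
    .c (nat_lit 0) (nat_lit 0x6300002),.c (nat_lit 0) (nat_lit 0x6700004),.c (nat_lit 2) (nat_lit 0x84a110a4),
    .c (nat_lit 0) (nat_lit 0x300002),.c (nat_lit 2) (nat_lit 0xc0200004),.c (nat_lit 0) (nat_lit 0xc0701404),
    .c (nat_lit 1) (nat_lit 0x80410005),.c (nat_lit 3) (nat_lit 2),.c (nat_lit 0) (nat_lit 0xc6518883),
    .r (nat_lit 0x1cf7) (nat_lit 0) [nat_lit 0x180a3210a2,nat_lit 0x1080000002,nat_lit 0x4000001],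
    .c (nat_lit 1) (nat_lit 0x844214a4),.c (nat_lit 0) (nat_lit 0x6519085),.c (nat_lit 2) (nat_lit 0x80a02005),
    .r (nat_lit 0x1cdb) (nat_lit 1) [nat_lit 0x88229482,nat_lit 0xc03210a2],.c (nat_lit 0) (nat_lit 0xc0518085),
    .c (nat_lit 2) (nat_lit 0x4400803),.c (nat_lit 2) (nat_lit 0x4a01005),.c (nat_lit 0) (nat_lit 0xc6518885),
    .c (nat_lit 2) (nat_lit 0x848108a2),.c (nat_lit 3) (nat_lit 0xc6518083),.c (nat_lit 2) (nat_lit 0xc6318085),
    .c (nat_lit 1) (nat_lit 0xc0011404),.c (nat_lit 2) (nat_lit 0x84401005),.c (nat_lit 2) (nat_lit 0x48100a4),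
    .c (nat_lit 0) (nat_lit 0x44100a4),.c (nat_lit 2) (nat_lit 0x80601005),.c (nat_lit 0) (nat_lit 0xc0001804),
    .r (nat_lit 0x174b) (nat_lit 3) [nat_lit 65,nat_lit 0x1080000002,nat_lit 0x10102200a2],
    .c (nat_lit 2) (nat_lit 0x600803),.c (nat_lit 4) (nat_lit 2),.c (nat_lit 0) (nat_lit 0x6020002),
    .c (nat_lit 2) (nat_lit 0x808110a4),.r (nat_lit 0x1cf7) (nat_lit 0) [nat_lit 0x1008221482,nat_lit 0x1080000002,
    nat_lit 0x4000001],.c (nat_lit 0) (nat_lit 0x804110a4),.c (nat_lit 2) (nat_lit 0x4600005),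
    .c (nat_lit 0) (nat_lit 0x6050004),.c (nat_lit 5) (nat_lit 2),
    .r (nat_lit 0x1561) (nat_lit 4) [nat_lit 0x3b5a7030a2,nat_lit 0x3180000002,nat_lit 65,nat_lit 0x3330603482],
    .r (nat_lit 0x1cdb) (nat_lit 1) [nat_lit 0x28ca329062,nat_lit 0x2090221442],
    .r (nat_lit 0x1cf7) (nat_lit 0) [nat_lit 0x1088221443,nat_lit 0x1080000002,nat_lit 0x4000001],
    .r (nat_lit 0x8be) (nat_lit 6) [nat_lit 0x1080000001,nat_lit 0x69da72b0a2,nat_lit 0x61a8663482,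
    nat_lit 0x1000200001,nat_lit 0x69da76b0a2],.r (nat_lit 0x174b) (nat_lit 3) [nat_lit 0x18ca319061,
    nat_lit 0x1080000002,nat_lit 0x3120642482],.c (nat_lit 1) (nat_lit 0xc6501483),.c (nat_lit 2) (nat_lit 0x4c110a4),
    .c (nat_lit 3) (nat_lit 0x6518085),.c (nat_lit 2) (nat_lit 0x846110a4),.c (nat_lit 0) (nat_lit 0x108822126),
    .c (nat_lit 6) (nat_lit 2),.c (nat_lit 2) (nat_lit 0x80200005),.c (nat_lit 0) (nat_lit 0xc0030004),
    .c (nat_lit 7) (nat_lit 2),.c (nat_lit 0) (nat_lit 0x30002)]]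

/-- nodes -/
noncomputable def rD7k_25_17 : List RJ :=
  [.l (nat_lit 10) (nat_lit 240) (nat_lit 4) (nat_lit 0x5b000000690000006400000064000000620000006200000066000000760000006f0000006200000064000000640000006600000066) (nat_lit 0xd0000001b000000120000001200000014000000140000000000000010000000140000000700000012000000120000001000000010)
    (nat_lit 0x14844134490f4470a04b0ec541243412c4b1705215c570a0551d85914428164571645315c4914852140502788114050160561405215c4d14852148501bc521405d150521505415447140501404e188501385014050138500a03d148501485016c521405214052148521644b14881148501bc521406615052180561d8281bc9e16c621d86f1646f0e864198660a05417450148501bc6616c6817466248891443b140501404e164501385b1385019c5e15c341485614850190521406611852180561644915058140500e8541385d148461505414c4b1505214850198561788915056158561644b150501484e1986019c921506014856)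
    (nat_lit 0x148f03c0f03c0f03c0f03c0f03c0f03c0f0110523c0f03c0f03c0f03c0f03c0f03c0f013457148f03c0f03c0f03c0f03c0f03c0f012457148523c0f03c0f03c0f03c0f03c0f00f42814052140f03c0f03c0f03c0f03c0f011c5514050138503c0f03c0f03c0f03c0f00a0761fc6f188501bcf03c0f03c0f03c0f012c5920452140521486f3c0f03c0f03c0f00ec5114050138501405916cf03c0f03c0f0150281405d14052198501a05b3c0f03c0f01245916054140501503a1744e118f03c0f00d05715852140521486417050148463c0f012c591405413852180661cc6718054158f012c531485414052158661cc5e1585415856)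
    (nat_lit 4) (nat_lit 99)
    [[nat_lit 2,nat_lit 17,nat_lit 0x1000011,nat_lit 0x1000101,nat_lit 0x1001,nat_lit 0x1001001,nat_lit 0x10001,
    nat_lit 0x1010001,nat_lit 0x100001,nat_lit 0x1000001],[nat_lit 32,nat_lit 48,nat_lit 0x1020,nat_lit 0x10020,
    nat_lit 0x1000020,nat_lit 272,nat_lit 0x1000110,nat_lit 0x1010,nat_lit 0x1001010,nat_lit 0x1001110,
    nat_lit 0x11010,nat_lit 0x1011010,nat_lit 0x101010,nat_lit 0x10010,nat_lit 0x1010010,nat_lit 0x100010,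
    nat_lit 0x1100010,nat_lit 0x1000010,nat_lit 0x2000010],[nat_lit 512,nat_lit 0x1000200,nat_lit 0x2000200,
    nat_lit 0x1100,nat_lit 0x1001100,nat_lit 0x10100,nat_lit 0x1010100,nat_lit 0x2010100,nat_lit 0x100100,
    nat_lit 0x1100100,nat_lit 0x1000100,nat_lit 0x2001100,nat_lit 0x2000100],[nat_lit 0x2000,nat_lit 0x11000,
    nat_lit 0x1011000,nat_lit 0x1001000,nat_lit 0x1101000,nat_lit 0x2001000],[nat_lit 0x20000,nat_lit 0x1020000,
    nat_lit 0x110000,nat_lit 0x1110000,nat_lit 0x1010000,nat_lit 0x2010000,nat_lit 0x2020000],[nat_lit 0x200000,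
    nat_lit 0x1100000],[nat_lit 0x2000000]]
    [.c (nat_lit 1) (nat_lit 2),.c (nat_lit 0) (nat_lit 0x220405),.r (nat_lit 0x1bec) (nat_lit 1) [nat_lit 0x3300042,
    nat_lit 0x3035402],.c (nat_lit 0) (nat_lit 0x202454),.c (nat_lit 0) (nat_lit 0x220405),
    .r (nat_lit 0x1cdb) (nat_lit 11) [nat_lit 0x2031,nat_lit 33],.c (nat_lit 7) (nat_lit 0x33004),
    .r (nat_lit 0x1184) (nat_lit 1) [nat_lit 0x4001,nat_lit 0x23001,nat_lit 0x3035401,nat_lit 0x2020051],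
    .r (nat_lit 0x1750) (nat_lit 8) [nat_lit 0x3030452,nat_lit 33],.r (nat_lit 0x1bec) (nat_lit 2) [nat_lit 33,
    nat_lit 0x2001],.c (nat_lit 2) (nat_lit 2),.r (nat_lit 0x1180) (nat_lit 1) [nat_lit 0xc001,nat_lit 0x67001,
    nat_lit 0x707dc01,nat_lit 65],.c (nat_lit 0) (nat_lit 0x200203),.c (nat_lit 0) (nat_lit 0x402205),
    .c (nat_lit 0) (nat_lit 0x200203),.c (nat_lit 0) (nat_lit 0x33545),.c (nat_lit 0) (nat_lit 0x33545),
    .c (nat_lit 0) (nat_lit 0x200203),.c (nat_lit 5) (nat_lit 0x302504),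
    .r (nat_lit 0x1bec) (nat_lit 1) [nat_lit 0x330452,nat_lit 0x3035402],
    .r (nat_lit 0x1ce4) (nat_lit 6) [nat_lit 0x5339442,nat_lit 0x2001],.c (nat_lit 4) (nat_lit 0x303004),
    .c (nat_lit 0) (nat_lit 770),.c (nat_lit 0) (nat_lit 0x222005),.c (nat_lit 0) (nat_lit 0x202005),
    .r (nat_lit 0x1b36) (nat_lit 9) [nat_lit 0x3021,nat_lit 0x2208052,nat_lit 0x2001],
    .r (nat_lit 0x1ca3) (nat_lit 4) [nat_lit 0x2024052,nat_lit 33,nat_lit 0x230002],.c (nat_lit 0) (nat_lit 0x230005),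
    .c (nat_lit 0) (nat_lit 0x230005),.c (nat_lit 3) (nat_lit 2),.r (nat_lit 0x1bec) (nat_lit 1) [nat_lit 0x3335431,
    nat_lit 0x3035402],.c (nat_lit 0) (nat_lit 0x222652),.r (nat_lit 0x1750) (nat_lit 8) [nat_lit 33,
    nat_lit 0x3030452],.r (nat_lit 0x1ca3) (nat_lit 4) [nat_lit 0x2244542,nat_lit 0x330452,nat_lit 0x230002],
    .r (nat_lit 0x1ce4) (nat_lit 6) [nat_lit 33,nat_lit 0x2001],.c (nat_lit 4) (nat_lit 0x220854),
    .r (nat_lit 0x1cdb) (nat_lit 10) [nat_lit 0x3337431,nat_lit 0x2428542],.c (nat_lit 0) (nat_lit 0x422454),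
    .c (nat_lit 5) (nat_lit 0x330545),.c (nat_lit 5) (nat_lit 0x224454),
    .r (nat_lit 0x1b36) (nat_lit 9) [nat_lit 0x335452,nat_lit 0x2428542,nat_lit 0x2001],
    .c (nat_lit 0) (nat_lit 0x33545),.c (nat_lit 4) (nat_lit 2),.r (nat_lit 0x1bec) (nat_lit 7) [nat_lit 33,
    nat_lit 0x3035402],.r (nat_lit 0x1cf7) (nat_lit 9) [nat_lit 0x2020052,nat_lit 0x3035402,nat_lit 0x2001],
    .c (nat_lit 0) (nat_lit 0x200203),.c (nat_lit 0) (nat_lit 770),.c (nat_lit 0) (nat_lit 0x200203),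
    .c (nat_lit 5) (nat_lit 2),.c (nat_lit 0) (nat_lit 0x202003),.c (nat_lit 0) (nat_lit 0x2003),
    .c (nat_lit 1) (nat_lit 0x23004),.c (nat_lit 0) (nat_lit 0x202005),.c (nat_lit 0) (nat_lit 0x432549),
    .c (nat_lit 0) (nat_lit 0x202003),.c (nat_lit 6) (nat_lit 2),.r (nat_lit 0x1bec) (nat_lit 1) [nat_lit 33,
    nat_lit 0x3035402],.c (nat_lit 7) (nat_lit 2)],
    .l (nat_lit 13) (nat_lit 0x720) (nat_lit 3) (nat_lit 0x2ec000003a0000004100000036600000372000002ec0000034a0000034a000002f4000003560000033100000331000002e4000003b8) (nat_lit 0x7000000124000000aa00000000000001240000009e000000c6000000c6000000ba0000011c000000df000000df000000580000012c)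
    (nat_lit 0x13e07203982a40e4073044c2260e407405a234314a07205b827c1720e803a82d81970cb85cc1c81ee913c7202c41d00a9072046414c0e1080c3f20e40a805c23311dc07205c81cc15e0e403902c81970c684d81d010a8a1c7201f816c07305903840ea0b5064c32615c07205aa2d31c80ae03a81c80e40a603901d411308984641d0110882c5281c819708986343f21130c9850828414908b84c626b179082865c226197101844c3261300a1052422e13589145e41ea0e407403a02a00e8072045c22e13007f049221314e07205cc1c813607204642b81490a4858826015689dc3901c82278d0c50e3311058b4c48a26b13b884c56822a1a1873c7ba2d110a8b844422d5135898c55a2491210ad05a220516207203f01c80e40ae03d420a0e4072040a1cf0e407207202941c80ee05283901790bc839029c1688d0c6c01c8)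
    (nat_lit 0x13e1c80e407203901c80e407203901c80e407203901c8039027c3901c80e407203901c80e407203901c80e407200e60b907207203901c80e407203901c80e407203901c805483a02320e40e407203901c80e407203901c80e407200e407505301c80ea1c80e407203901c80e407203901c803982d81c20b205a81d43901c80e407203901c80e407201130cb880c32e19308985087203901c80e407203901c8044c32e1f90c6864c2261420a10e407203901c80e407200e40b9839026c15c08c85242921301c80e407203901c803a01c815007403901d011708b83f82603901c80e407201688f745c221516a88844c626b1248ab45687203901c8068643f1988a1c5a620b13589144262771150ad0e4072014a0e407703901c80a505e42f214e07206862d10e41c803902c40e407e05701c810507a83901c80e788143901c8)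
    (nat_lit 4) (nat_lit 49)
    [[nat_lit 2,nat_lit 3,nat_lit 18,nat_lit 258,nat_lit 0x1002,nat_lit 0x10002,nat_lit 17,nat_lit 33,nat_lit 273,
    nat_lit 257,nat_lit 513,nat_lit 0x1101,nat_lit 0x10101,nat_lit 0x100101,nat_lit 0x1000101,nat_lit 0x1001,
    nat_lit 0x10001,nat_lit 0x100001,nat_lit 0x1000001],[nat_lit 32,nat_lit 288,nat_lit 0x1020,nat_lit 272,
    nat_lit 0x10110,nat_lit 0x100110,nat_lit 0x1010,nat_lit 0x1110,nat_lit 0x10010,nat_lit 0x20010,nat_lit 0x100010,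
    nat_lit 0x1000110],[nat_lit 512,nat_lit 0x10200,nat_lit 0x100200,nat_lit 0x1000200,nat_lit 0x1100,nat_lit 0x11100,
    nat_lit 0x1001100,nat_lit 0x10100,nat_lit 0x20100,nat_lit 0x1010100,nat_lit 0x100100,nat_lit 0x101100,
    nat_lit 0x110100,nat_lit 0x1100100,nat_lit 0x1000100,nat_lit 0x2000100],[nat_lit 0x2000,nat_lit 0x11000,
    nat_lit 0x1001000],[nat_lit 0x20000,nat_lit 0x30000,nat_lit 0x1020000,nat_lit 0x110000,nat_lit 0x1010000,
    nat_lit 0x2010000],[nat_lit 0x1100000],[nat_lit 0x2000000]]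
    [.c (nat_lit 1) (nat_lit 2),.r (nat_lit 0x14e2) (nat_lit 4) [nat_lit 0x60001,nat_lit 0x600001,nat_lit 0x7d7631,
    nat_lit 0x66001],.r (nat_lit 0x1ce4) (nat_lit 4) [nat_lit 0x3030021,nat_lit 0x20001],
    .c (nat_lit 0) (nat_lit 0x55043),.c (nat_lit 0) (nat_lit 0x203323),.c (nat_lit 0) (nat_lit 0x203323),
    .c (nat_lit 0) (nat_lit 0x222003),.r (nat_lit 0x1c82) (nat_lit 13) [nat_lit 0x3030021,nat_lit 0x2240031],
    .c (nat_lit 1) (nat_lit 0x3302),.c (nat_lit 0) (nat_lit 0x33023),.c (nat_lit 0) (nat_lit 0x33223),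
    .r (nat_lit 0x1b4a) (nat_lit 13) [nat_lit 0x2222031,nat_lit 0x3300021,nat_lit 0x200001],
    .c (nat_lit 0) (nat_lit 0x33023),.r (nat_lit 8) (nat_lit 13) [nat_lit 0x30231,nat_lit 0x20001],
    .r (nat_lit 0x1cf7) (nat_lit 0) [nat_lit 0x330231,nat_lit 0x200001,nat_lit 0x20001],
    .c (nat_lit 3) (nat_lit 0x330202),.c (nat_lit 0) (nat_lit 0x233323),.r (nat_lit 0x1ce4) (nat_lit 4) [nat_lit 33,
    nat_lit 0x20001],.c (nat_lit 0) (nat_lit 0x33323),.c (nat_lit 2) (nat_lit 2),.c (nat_lit 2) (nat_lit 0x3302),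
    .c (nat_lit 0) (nat_lit 0x357322),.c (nat_lit 0) (nat_lit 0x2203),.c (nat_lit 5) (nat_lit 0x3302),
    .c (nat_lit 4) (nat_lit 0x22203),.c (nat_lit 0) (nat_lit 0x222003),.c (nat_lit 4) (nat_lit 0x3302),
    .c (nat_lit 0) (nat_lit 0x30223),.r (nat_lit 0x12a8) (nat_lit 6) [nat_lit 0x600001,nat_lit 0x5532431,
    nat_lit 0x4484521,nat_lit 0x2535431],.r (nat_lit 0x1c82) (nat_lit 13) [nat_lit 33,nat_lit 0x220031],
    .c (nat_lit 2) (nat_lit 0x4203),.c (nat_lit 3) (nat_lit 2),.c (nat_lit 0) (nat_lit 0x33223),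
    .c (nat_lit 0) (nat_lit 0x333223),.r (nat_lit 0x1cdb) (nat_lit 1) [nat_lit 0x2223321,nat_lit 0x3302231],
    .r (nat_lit 0x1bec) (nat_lit 10) [nat_lit 33,nat_lit 0x20001],.r (nat_lit 0x1cf8) (nat_lit 4) [nat_lit 0x2001,
    nat_lit 0x2030231,nat_lit 0x20001,nat_lit 0x2420321,nat_lit 0x3030231],
    .r (nat_lit 0x1cdb) (nat_lit 9) [nat_lit 0x20031,nat_lit 33],.c (nat_lit 0) (nat_lit 0x33023),
    .c (nat_lit 0) (nat_lit 0x55043),.c (nat_lit 4) (nat_lit 0x242032),.c (nat_lit 1) (nat_lit 0x200302),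
    .c (nat_lit 2) (nat_lit 0x22203),.c (nat_lit 2) (nat_lit 0x224032),.c (nat_lit 5) (nat_lit 0x333023),
    .r (nat_lit 0x1b4a) (nat_lit 13) [nat_lit 0x22031,nat_lit 33,nat_lit 0x200001],.c (nat_lit 2) (nat_lit 0x6203),
    .c (nat_lit 4) (nat_lit 2),.c (nat_lit 0) (nat_lit 0x203323),.r (nat_lit 0x1c82) (nat_lit 13) [nat_lit 0x220031,
    nat_lit 33],.c (nat_lit 5) (nat_lit 2),.r (nat_lit 0x1561) (nat_lit 4) [nat_lit 0x7d70631,nat_lit 0x600001,
    nat_lit 33,nat_lit 0x6cc0721],.r (nat_lit 0x1ced) (nat_lit 3) [nat_lit 0x22001,nat_lit 0x333201,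
    nat_lit 0x2642521],.c (nat_lit 2) (nat_lit 0x226232),.c (nat_lit 0) (nat_lit 0x33323),
    .c (nat_lit 0) (nat_lit 0x242232),.c (nat_lit 0) (nat_lit 0x200002),.c (nat_lit 7) (nat_lit 2)]]

/-- nodes -/
noncomputable def rD7k_25_18 : List RJ :=
  [.l (nat_lit 16) (nat_lit 0x2760) (nat_lit 4) (nat_lit 0x155000001358000012f0000012f00000122f0000122f0000119b0000119b000011420000114200000e0400000e9800000fee0000126a) (nat_lit 0x1f80000000000000260000002600000032100000321000003b5000003b50000040e0000040e000006b80000074c000002e600000562)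
    (nat_lit 0x13760fde166a1b820f8514091143119b11f4148007e0082a126a0936175613760be010f807e110370fa307e10f7609f60ca00c0c07e00d8010f81b8210900a9a179114e7148f17910ee20ee20cae0b780fec0d8e0be0166a0fa2109012790fcf0fcf12d30d520f7611240ba40e300c48103714090fcf14e70b760ffc0de60bd00e210d8d0cbd0c730bcf07e107e10f85127917910f0e0b76101a0e7a0e5d0dc90c1b0ae30f490ccd07e1119b12d317910e7a0bd00e3e0de60d8d0bed0ae30a13115f0b950fa311430fcf148f101a0de60de60e3e0dc90d8d093509610b770c3909f614800f760ee20dc90d8d0d8d0bed0e220d340a8a09ba0eb40d8e0f7611f40d520ee20e5d0e210dc90d8d0c0c0e2209f609f614360b020c0c082a0ba40b780ae30c7309610a1309f609ba082a07e00a6c09360ca007e011240cae0c1b0cbd09350ae309f60a8a07e0082a126a09360d8009360c480d8e0ccd07e10c390b950b020d8e0936093613c00a8c07e0126a0e300fec0f490bcf0b77115f14360eb4126a0a6c14f613c0)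
    (nat_lit 0x137627602760276027602760276027602760276027602760276027600fde1376276027602760276027602760276027602760276027602760166a0be01090276027602760276027602760276027602760276027601b8210f80a9a109027602760276027602760276027602760276027600f8507e1179112790b762760276027602760276027602760276027601409103714e70fcf0ffc0b762760276027602760276027602760276011430fa3148f0fcf0de6101a0e3e2760276027602760276027602760119b07e1179112d30bd00e7a0de60e3e27602760276027602760276011f40f760ee20d520e210e5d0d8d0dc90e2227602760276027602760148009f60ee20f760d8d0dc90bed0d8d0d340e22276027602760276007e00ca00cae11240cbd0c1b0ae309350a8a09f6082a276027602760082a0c0c0b780ba40c730ae30a13096109ba09f607e0082a27602760124c07e00fec0e300bcf0f49115f0b770eb414360a6c0fc01116276009360d800d8e0c4807e10ccd0b950c390d8e0b02093609360a8c1116)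
    (nat_lit 5) (nat_lit 201)
    [[nat_lit 0x1000002,nat_lit 2,nat_lit 17,nat_lit 34,nat_lit 0x1000012,nat_lit 33,nat_lit 49,nat_lit 0x10021,
    nat_lit 289,nat_lit 0x1021,nat_lit 273,nat_lit 0x1011,nat_lit 0x1001011,nat_lit 0x10011,nat_lit 0x100011,
    nat_lit 0x1000011,nat_lit 0x1000111,nat_lit 0x1010011,nat_lit 257,nat_lit 0x10101,nat_lit 0x1001,nat_lit 0x1101,
    nat_lit 0x2001,nat_lit 0x11001,nat_lit 0x1001001,nat_lit 0x10001,nat_lit 0x10002,nat_lit 0x20001,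
    nat_lit 0x1010001,nat_lit 0x100001,nat_lit 0x1100001,nat_lit 0x200001,nat_lit 0x1000001,nat_lit 0x2000002,
    nat_lit 0x1000021,nat_lit 0x2000011,nat_lit 0x2000001],[nat_lit 32,nat_lit 48,nat_lit 64,nat_lit 304,
    nat_lit 0x1030,nat_lit 0x1000030,nat_lit 0x100030,nat_lit 288,nat_lit 0x1000120,nat_lit 0x1020,nat_lit 0x1120,
    nat_lit 0x1001020,nat_lit 0x10020,nat_lit 0x1010020,nat_lit 0x100020,nat_lit 0x1000020,nat_lit 272,nat_lit 528,
    nat_lit 0x1110,nat_lit 0x10110,nat_lit 0x100110,nat_lit 0x1000110,nat_lit 0x1010,nat_lit 0x2010,nat_lit 0x11010,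
    nat_lit 0x101010,nat_lit 0x1001010,nat_lit 0x2020,nat_lit 0x1011010,nat_lit 0x10010,nat_lit 0x20010,
    nat_lit 0x1010010,nat_lit 0x100010,nat_lit 0x1100010,nat_lit 0x1000010,nat_lit 0x1001110,nat_lit 0x1010110],
    [nat_lit 512,nat_lit 0x1200,nat_lit 0x1100,nat_lit 0x10100,nat_lit 0x100100,nat_lit 0x1000100],[nat_lit 0x2000,
    nat_lit 0x11000,nat_lit 0x1011000,nat_lit 0x1001000],[nat_lit 0x20000,nat_lit 0x30000,nat_lit 0x1010000],
    [nat_lit 0x200000],[nat_lit 0x2000000]]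
    [.r (nat_lit 0x174e) (nat_lit 3) [nat_lit 0x156519102,nat_lit 0x4200061],.c (nat_lit 1) (nat_lit 2),
    .c (nat_lit 0) (nat_lit 0x4200003),.c (nat_lit 1) (nat_lit 0x8400003),.c (nat_lit 0) (nat_lit 0x6500004),
    .r (nat_lit 0x174c) (nat_lit 4) [nat_lit 0x200001,nat_lit 65,nat_lit 0x691a0a2],
    .r (nat_lit 0x1ccd) (nat_lit 6) [nat_lit 0x200001,nat_lit 0x84000001,nat_lit 0x8692a0a1],
    .c (nat_lit 1) (nat_lit 0x8228c85),.r (nat_lit 0x1cc3) (nat_lit 11) [nat_lit 0x6519002,nat_lit 0x1040100a2,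
    nat_lit 0x146418082],.r (nat_lit 0x65d) (nat_lit 10) [nat_lit 0x252000081,nat_lit 0x14e519001,nat_lit 0x2104000a1,
    nat_lit 0x10c200061,nat_lit 0x108000001],.r (nat_lit 0x174e) (nat_lit 3) [nat_lit 0x104511122,
    nat_lit 0x146418082],.r (nat_lit 0x1a29) (nat_lit 3) [nat_lit 0xc6000041,nat_lit 0x6519002,nat_lit 0x84200061],
    .c (nat_lit 0) (nat_lit 0x328804),.c (nat_lit 1) (nat_lit 0x2208a4),
    .r (nat_lit 32) (nat_lit 3) [nat_lit 0x6519002,nat_lit 0x84200061],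
    .r (nat_lit 0x1cdb) (nat_lit 3) [nat_lit 0x44180a2,nat_lit 0x6010082],.c (nat_lit 1) (nat_lit 0x8600805),
    .c (nat_lit 3) (nat_lit 0x18043),.c (nat_lit 0) (nat_lit 0x4200805),
    .r (nat_lit 0x1a30) (nat_lit 0) [nat_lit 0x6018082,nat_lit 0x300861,nat_lit 0x200001],
    .r (nat_lit 32) (nat_lit 3) [nat_lit 0x6519002,nat_lit 65],.r (nat_lit 0x1bd6) (nat_lit 1) [nat_lit 0x44100a2,
    nat_lit 0x300041],.r (nat_lit 0x65f) (nat_lit 10) [nat_lit 0x400001,nat_lit 0x14f519101,nat_lit 0x48000a1,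
    nat_lit 0x900081,nat_lit 0x109000121],.r (nat_lit 0x660) (nat_lit 10) [nat_lit 0x1402190a1,nat_lit 0x106511502,
    nat_lit 0x100011481,nat_lit 0x104011482,nat_lit 0xc00190a1],.c (nat_lit 0) (nat_lit 0x328804),
    .c (nat_lit 1) (nat_lit 0x86208a4),.r (nat_lit 0x174a) (nat_lit 3) [nat_lit 0x1045190a2,nat_lit 0x14e519082,
    nat_lit 0x200001],.r (nat_lit 0x1ccd) (nat_lit 6) [nat_lit 0x200001,nat_lit 0x84000001,nat_lit 0xc6000081],
    .r (nat_lit 0x1ca3) (nat_lit 11) [nat_lit 0x300861,nat_lit 65,nat_lit 0x6411482],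
    .r (nat_lit 0x1a29) (nat_lit 3) [nat_lit 0x200061,nat_lit 0x6519002,nat_lit 65],
    .r (nat_lit 2) (nat_lit 13) [nat_lit 0x6519002,nat_lit 0x44100a2],
    .r (nat_lit 0x661) (nat_lit 10) [nat_lit 0x400001,nat_lit 0x14e519101,nat_lit 0x40000a1,nat_lit 129,
    nat_lit 0x108000121],.c (nat_lit 0) (nat_lit 0x200805),.c (nat_lit 3) (nat_lit 0x200803),
    .r (nat_lit 0x1788) (nat_lit 0) [nat_lit 0x200001,nat_lit 0x106d3b122,nat_lit 0xc6000081,nat_lit 0x108000061],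
    .r (nat_lit 0x662) (nat_lit 10) [nat_lit 0x146200081,nat_lit 0x104519122,nat_lit 0x1040000a1,nat_lit 0x84000061,
    nat_lit 0xc6000081],.r (nat_lit 32) (nat_lit 3) [nat_lit 0x6519002,nat_lit 0x4200061],.c (nat_lit 2) (nat_lit 2),
    .r (nat_lit 0x174c) (nat_lit 4) [nat_lit 0x200001,nat_lit 0x84000042,nat_lit 0xca91a062],
    .r (nat_lit 0x174a) (nat_lit 3) [nat_lit 66,nat_lit 0xa92a062,nat_lit 0x200001],
    .r (nat_lit 0x663) (nat_lit 10) [nat_lit 0x35a218081,nat_lit 0x14e519002,nat_lit 0x3180100a1,nat_lit 0x31c0100a2,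
    nat_lit 0x84000001],.r (nat_lit 0x1cc3) (nat_lit 11) [nat_lit 0x6519002,nat_lit 0x80200062,nat_lit 0xc0200042],
    .r (nat_lit 0x664) (nat_lit 10) [nat_lit 0x31c2000a1,nat_lit 0x14e519002,nat_lit 0x35e000081,nat_lit 0x1ce000041,
    nat_lit 0x84000001],.r (nat_lit 0x1a30) (nat_lit 0) [nat_lit 0x86519062,nat_lit 0xc0000042,nat_lit 0x200001],
    .r (nat_lit 0x665) (nat_lit 10) [nat_lit 0x252218081,nat_lit 0x14e519002,nat_lit 0x2100100a1,nat_lit 0x2140100a2,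
    nat_lit 0x84000001],.r (nat_lit 0x1ccd) (nat_lit 6) [nat_lit 0x200001,nat_lit 0x84000001,nat_lit 0xca91a0a1],
    .r (nat_lit 0x1ca3) (nat_lit 11) [nat_lit 0x310042,nat_lit 0x319062,nat_lit 0x6200062],
    .r (nat_lit 0x666) (nat_lit 10) [nat_lit 0x252218081,nat_lit 0x366d3b002,nat_lit 0x2104100a1,nat_lit 0x21c4100a2,
    nat_lit 0x18c000001],.r (nat_lit 0x667) (nat_lit 10) [nat_lit 0x256300081,nat_lit 0x14e519002,nat_lit 0x2144000a1,
    nat_lit 0x10c200061,nat_lit 0x84000001],.c (nat_lit 2) (nat_lit 0x2208a4),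
    .r (nat_lit 0x1a30) (nat_lit 0) [nat_lit 0x6519061,nat_lit 0x4411482,nat_lit 0x200001],
    .r (nat_lit 0x1cdb) (nat_lit 3) [nat_lit 0x418062,nat_lit 0x10042],
    .r (nat_lit 0x1bf6) (nat_lit 0) [nat_lit 0x6519061,nat_lit 0x200001,nat_lit 65],.c (nat_lit 0) (nat_lit 0x328085),
    .r (nat_lit 0x174e) (nat_lit 3) [nat_lit 0x65110a2,nat_lit 0xc0418042],
    .r (nat_lit 0x668) (nat_lit 10) [nat_lit 0x14a218081,nat_lit 0x366d3b002,nat_lit 0x1084100a1,nat_lit 0x1144100a2,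
    nat_lit 0x18c000001],.c (nat_lit 3) (nat_lit 0x2208a4),.r (nat_lit 0x1cdb) (nat_lit 3) [nat_lit 0x200061,
    nat_lit 65],.r (nat_lit 0x174c) (nat_lit 4) [nat_lit 0x200001,nat_lit 0x104018082,nat_lit 0xc6501061],
    .r (nat_lit 0x174e) (nat_lit 3) [nat_lit 0x60190a2,nat_lit 0xc0200042],
    .r (nat_lit 0x1a29) (nat_lit 3) [nat_lit 0xc6000042,nat_lit 0x6519002,nat_lit 0x84400062],
    .c (nat_lit 4) (nat_lit 0x2208a4),.c (nat_lit 1) (nat_lit 0x4210003),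
    .r (nat_lit 0x1cc3) (nat_lit 11) [nat_lit 0x6519002,nat_lit 0x200061,nat_lit 65],
    .r (nat_lit 0x1ac9) (nat_lit 13) [nat_lit 0x500042,nat_lit 0x200001,nat_lit 0x6019062],
    .c (nat_lit 0) (nat_lit 0x42010a4),.c (nat_lit 0) (nat_lit 0x328c85),.c (nat_lit 1) (nat_lit 0x44208a2),
    .c (nat_lit 7) (nat_lit 0x2208a4),.c (nat_lit 7) (nat_lit 0x6000002),
    .r (nat_lit 0x669) (nat_lit 4) [nat_lit 0xc0000041,nat_lit 0x30001,nat_lit 0x14ed33122,nat_lit 0x638001,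
    nat_lit 0x80038081],.r (nat_lit 0x1cf7) (nat_lit 0) [nat_lit 0x65190a2,nat_lit 0x200001,nat_lit 65],
    .r (nat_lit 0x65d) (nat_lit 10) [nat_lit 0x14e018081,nat_lit 0x14e519001,nat_lit 0x10c4100a1,nat_lit 0x1144100a2,
    nat_lit 0x108000001],.c (nat_lit 1) (nat_lit 0x18043),.c (nat_lit 3) (nat_lit 2),.c (nat_lit 4) (nat_lit 0x10c02),
    .r (nat_lit 2) (nat_lit 13) [nat_lit 0x6519002,nat_lit 65],.c (nat_lit 0) (nat_lit 0x6328085),
    .c (nat_lit 0) (nat_lit 0x803),.c (nat_lit 0) (nat_lit 0x200805),.c (nat_lit 4) (nat_lit 2),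
    .r (nat_lit 0x1bdf) (nat_lit 8) [nat_lit 65,nat_lit 0x10c41],.c (nat_lit 7) (nat_lit 0xa300c85),
    .r (nat_lit 0x174e) (nat_lit 3) [nat_lit 0x146419122,nat_lit 65],.c (nat_lit 5) (nat_lit 2),
    .r (nat_lit 0x1749) (nat_lit 11) [nat_lit 65,nat_lit 0xed3b0a2,nat_lit 0x200001],
    .c (nat_lit 0) (nat_lit 0x6328085),.c (nat_lit 6) (nat_lit 2),.c (nat_lit 7) (nat_lit 2)]]

/-- nodes -/
noncomputable def rD7k_25_19 : List RJ :=
  [.s (nat_lit 13) (nat_lit 0x4b0) (nat_lit 4) (nat_lit 0x1e7000001e70000021c0000021c000001d9000001d9000001c6000001c6000001d2000001d2000001e0000001e0000001e3000001e3) (nat_lit 0x35000000350000000000000000000000430000004300000056000000560000004a0000004a0000003c0000003c0000003900000039)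
    (nat_lit 0xd906c83ce1e70bf06903221910e885dc38a27b0d706b83641b20f3879c2c41a40c8864433a0c91188b9c35c1ae0f3879c43821c0ec876453420804b07483c01e00f185743ce1e710e08703b21d915208483a41780f007803c61e30d206903b21d90a506583ba1830c782c433a19d0d006802c417e0ec876432c14a0ee860c31e18f0ce87243401ec0c886444242080c1860c2e01700a8048827c18a0d986343221911520a683ba1dd0b805c01a417c069060836618d06485dc2f01d20c782c42f81220c8062032c2400cc894433a1d10e9025831e18f069054033019007606581921a717389ec3c01e00e4867430418a0cb090032c1940b989444621c50f0078033a19d06904f81d81960d2065834e1a70d706b83c615d0f6068031a18d0d3894434e2510c806a835c1ae0f1878c3401a00d986cc1921990d385cc354190)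
    (nat_lit 0xd912c09604b025812c09604b025812c09604b025812c03641b225812c09604b025812c09604b025812c09604b00f3879c4384b025812c09604b025812c09604b025812c03ce1e710e08709604b025812c09604b025812c09604b00bf05883b21d90a512c09604b025812c09604b025812c03481a40ec876432c14a25812c09604b025812c09604b00c886445342a40ee87742e04b025812c09604b025812c032219110408483061830b805c09604b025812c09604b00e8867412c1d20c7863c2a00d20c812c09604b025812c02ee0c90e905e016218f09105f031019025812c09604b00e286d43c01e00ce867427c0d20cb03b032c4b025812c04f625f0f0078033a1c90c506084801960ca06589604b00d706483c61e30bd06803661b30cc83242e61a70c812c035c1ae0ae878c3401ec0c686344a21a7128869c354190)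
    (nat_lit 4) (nat_lit 129)
    [[nat_lit 0,nat_lit 0,nat_lit 2],[nat_lit 0,nat_lit 0,nat_lit 3],[nat_lit 0,nat_lit 2,nat_lit 0],[nat_lit 0,
    nat_lit 3,nat_lit 0],[nat_lit 1,nat_lit 1,nat_lit 2],[nat_lit 1,nat_lit 1,nat_lit 3],[nat_lit 1,nat_lit 2,
    nat_lit 1],[nat_lit 1,nat_lit 3,nat_lit 1],[nat_lit 2,nat_lit 12],[nat_lit 2,nat_lit 13],[nat_lit 3,nat_lit 12],
    [nat_lit 3,nat_lit 13],[nat_lit 4,nat_lit 5,nat_lit 11,nat_lit 12],[nat_lit 4,nat_lit 5,nat_lit 11,nat_lit 13],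
    [nat_lit 4,nat_lit 5,nat_lit 12,nat_lit 10],[nat_lit 4,nat_lit 5,nat_lit 13,nat_lit 10],[nat_lit 4,nat_lit 8,
    nat_lit 4,nat_lit 8,nat_lit 12],[nat_lit 4,nat_lit 8,nat_lit 12,nat_lit 4,nat_lit 8],[nat_lit 4,nat_lit 10,
    nat_lit 4,nat_lit 12],[nat_lit 4,nat_lit 10,nat_lit 4,nat_lit 13],[nat_lit 4,nat_lit 10,nat_lit 5,nat_lit 12],
    [nat_lit 4,nat_lit 10,nat_lit 5,nat_lit 13],[nat_lit 4,nat_lit 11,nat_lit 5,nat_lit 12],[nat_lit 4,nat_lit 11,
    nat_lit 5,nat_lit 13],[nat_lit 4,nat_lit 12,nat_lit 4,nat_lit 10],[nat_lit 4,nat_lit 13,nat_lit 4,nat_lit 10],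
    [nat_lit 5,nat_lit 9,nat_lit 5,nat_lit 13,nat_lit 9],[nat_lit 5,nat_lit 11,nat_lit 5,nat_lit 12],[nat_lit 5,
    nat_lit 11,nat_lit 5,nat_lit 13],[nat_lit 5,nat_lit 12,nat_lit 5,nat_lit 11],[nat_lit 5,nat_lit 13,nat_lit 5,
    nat_lit 11],[nat_lit 5,nat_lit 13,nat_lit 9,nat_lit 5,nat_lit 9],[nat_lit 6,nat_lit 8,nat_lit 8],[nat_lit 6,
    nat_lit 8,nat_lit 9],[nat_lit 6,nat_lit 9,nat_lit 8],[nat_lit 6,nat_lit 9,nat_lit 9],[nat_lit 6,nat_lit 10],
    [nat_lit 6,nat_lit 11],[nat_lit 7,nat_lit 8,nat_lit 8],[nat_lit 7,nat_lit 8,nat_lit 9],[nat_lit 7,nat_lit 9,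
    nat_lit 8],[nat_lit 7,nat_lit 9,nat_lit 9],[nat_lit 7,nat_lit 10],[nat_lit 7,nat_lit 11]]
    [nat_lit 0x1002,nat_lit 0x1003,nat_lit 0x1020,nat_lit 0x1030,nat_lit 0x1112,nat_lit 0x1113,nat_lit 0x1121,
    nat_lit 0x1131,nat_lit 300,nat_lit 301,nat_lit 316,nat_lit 317,nat_lit 0x145bc,nat_lit 0x145bd,nat_lit 0x145ca,
    nat_lit 0x145da,nat_lit 0x14848c,nat_lit 0x148c48,nat_lit 0x14a4c,nat_lit 0x14a4d,nat_lit 0x14a5c,nat_lit 0x14a5d,
    nat_lit 0x14b5c,nat_lit 0x14b5d,nat_lit 0x14c4a,nat_lit 0x14d4a,nat_lit 0x1595d9,nat_lit 0x15b5c,nat_lit 0x15b5d,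
    nat_lit 0x15c5b,nat_lit 0x15d5b,nat_lit 0x15d959,nat_lit 0x1688,nat_lit 0x1689,nat_lit 0x1698,nat_lit 0x1699,
    nat_lit 362,nat_lit 363,nat_lit 0x1788,nat_lit 0x1789,nat_lit 0x1798,nat_lit 0x1799,nat_lit 378,nat_lit 379]
    [[[nat_lit 0,nat_lit 0,nat_lit 2],[nat_lit 0,nat_lit 0,nat_lit 3],[nat_lit 0,nat_lit 2,nat_lit 0],[nat_lit 0,
    nat_lit 3,nat_lit 0],[nat_lit 1,nat_lit 1,nat_lit 2],[nat_lit 1,nat_lit 1,nat_lit 3],[nat_lit 1,nat_lit 2,
    nat_lit 1],[nat_lit 1,nat_lit 3,nat_lit 1],[nat_lit 2,nat_lit 0,nat_lit 0],[nat_lit 2,nat_lit 1,nat_lit 1],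
    [nat_lit 2,nat_lit 12],[nat_lit 2,nat_lit 13]],[[nat_lit 3,nat_lit 0,nat_lit 0],[nat_lit 3,nat_lit 1,nat_lit 1],
    [nat_lit 3,nat_lit 12],[nat_lit 3,nat_lit 13],[nat_lit 4,nat_lit 5,nat_lit 11,nat_lit 12],[nat_lit 4,nat_lit 5,
    nat_lit 11,nat_lit 13],[nat_lit 4,nat_lit 5,nat_lit 12,nat_lit 10],[nat_lit 4,nat_lit 5,nat_lit 13,nat_lit 10],
    [nat_lit 4,nat_lit 8,nat_lit 4,nat_lit 8,nat_lit 12],[nat_lit 4,nat_lit 8,nat_lit 12,nat_lit 4,nat_lit 8],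
    [nat_lit 4,nat_lit 10,nat_lit 4,nat_lit 12],[nat_lit 4,nat_lit 10,nat_lit 4,nat_lit 13]],[[nat_lit 4,nat_lit 10,
    nat_lit 5,nat_lit 12],[nat_lit 4,nat_lit 10,nat_lit 5,nat_lit 13],[nat_lit 4,nat_lit 11,nat_lit 5,nat_lit 12],
    [nat_lit 4,nat_lit 11,nat_lit 5,nat_lit 13],[nat_lit 4,nat_lit 12,nat_lit 4,nat_lit 10],[nat_lit 4,nat_lit 13,
    nat_lit 4,nat_lit 10],[nat_lit 5,nat_lit 9,nat_lit 5,nat_lit 13,nat_lit 9],[nat_lit 5,nat_lit 11,nat_lit 5,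
    nat_lit 12],[nat_lit 5,nat_lit 11,nat_lit 5,nat_lit 13],[nat_lit 5,nat_lit 11,nat_lit 12,nat_lit 4],[nat_lit 5,
    nat_lit 11,nat_lit 13,nat_lit 4],[nat_lit 5,nat_lit 12,nat_lit 4,nat_lit 10]],[[nat_lit 5,nat_lit 12,nat_lit 4,
    nat_lit 11],[nat_lit 5,nat_lit 12,nat_lit 5,nat_lit 11],[nat_lit 5,nat_lit 12,nat_lit 10,nat_lit 4],[nat_lit 5,
    nat_lit 13,nat_lit 4,nat_lit 10],[nat_lit 5,nat_lit 13,nat_lit 4,nat_lit 11],[nat_lit 5,nat_lit 13,nat_lit 5,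
    nat_lit 11],[nat_lit 5,nat_lit 13,nat_lit 9,nat_lit 5,nat_lit 9],[nat_lit 5,nat_lit 13,nat_lit 10,nat_lit 4],
    [nat_lit 6,nat_lit 8,nat_lit 8],[nat_lit 6,nat_lit 8,nat_lit 9],[nat_lit 6,nat_lit 9,nat_lit 8],[nat_lit 6,
    nat_lit 9,nat_lit 9]],[[nat_lit 6,nat_lit 10],[nat_lit 6,nat_lit 11],[nat_lit 7,nat_lit 8,nat_lit 8],[nat_lit 7,
    nat_lit 8,nat_lit 9],[nat_lit 7,nat_lit 9,nat_lit 8],[nat_lit 7,nat_lit 9,nat_lit 9],[nat_lit 7,nat_lit 10],
    [nat_lit 7,nat_lit 11],[nat_lit 8,nat_lit 4,nat_lit 8,nat_lit 12,nat_lit 4],[nat_lit 8,nat_lit 6,nat_lit 8],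
    [nat_lit 8,nat_lit 6,nat_lit 9],[nat_lit 8,nat_lit 7,nat_lit 8]],[[nat_lit 8,nat_lit 7,nat_lit 9],[nat_lit 8,
    nat_lit 8,nat_lit 6],[nat_lit 8,nat_lit 8,nat_lit 7],[nat_lit 8,nat_lit 9,nat_lit 6],[nat_lit 8,nat_lit 9,
    nat_lit 7],[nat_lit 8,nat_lit 12,nat_lit 4,nat_lit 8,nat_lit 4],[nat_lit 9,nat_lit 5,nat_lit 9,nat_lit 5,
    nat_lit 13],[nat_lit 9,nat_lit 5,nat_lit 13,nat_lit 9,nat_lit 5],[nat_lit 9,nat_lit 6,nat_lit 8],[nat_lit 9,
    nat_lit 6,nat_lit 9],[nat_lit 9,nat_lit 7,nat_lit 8],[nat_lit 9,nat_lit 7,nat_lit 9]],[[nat_lit 9,nat_lit 8,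
    nat_lit 6],[nat_lit 9,nat_lit 8,nat_lit 7],[nat_lit 9,nat_lit 9,nat_lit 6],[nat_lit 9,nat_lit 9,nat_lit 7],
    [nat_lit 10,nat_lit 4,nat_lit 5,nat_lit 12],[nat_lit 10,nat_lit 4,nat_lit 5,nat_lit 13],[nat_lit 10,nat_lit 4,
    nat_lit 12,nat_lit 4],[nat_lit 10,nat_lit 4,nat_lit 13,nat_lit 4],[nat_lit 10,nat_lit 5,nat_lit 12,nat_lit 4],
    [nat_lit 10,nat_lit 5,nat_lit 13,nat_lit 4],[nat_lit 10,nat_lit 6],[nat_lit 10,nat_lit 7]],[[nat_lit 11,nat_lit 5,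
    nat_lit 12,nat_lit 4],[nat_lit 11,nat_lit 5,nat_lit 12,nat_lit 5],[nat_lit 11,nat_lit 5,nat_lit 13,nat_lit 4],
    [nat_lit 11,nat_lit 5,nat_lit 13,nat_lit 5],[nat_lit 11,nat_lit 6],[nat_lit 11,nat_lit 7],[nat_lit 11,nat_lit 12,
    nat_lit 4,nat_lit 5],[nat_lit 11,nat_lit 13,nat_lit 4,nat_lit 5],[nat_lit 12,nat_lit 2],[nat_lit 12,nat_lit 3],
    [nat_lit 12,nat_lit 4,nat_lit 5,nat_lit 11],[nat_lit 12,nat_lit 4,nat_lit 8,nat_lit 4,nat_lit 8]],[[nat_lit 12,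
    nat_lit 4,nat_lit 10,nat_lit 4],[nat_lit 12,nat_lit 4,nat_lit 10,nat_lit 5],[nat_lit 12,nat_lit 4,nat_lit 11,
    nat_lit 5],[nat_lit 12,nat_lit 5,nat_lit 11,nat_lit 5],[nat_lit 12,nat_lit 10,nat_lit 4,nat_lit 5],[nat_lit 13,
    nat_lit 2],[nat_lit 13,nat_lit 3],[nat_lit 13,nat_lit 4,nat_lit 5,nat_lit 11],[nat_lit 13,nat_lit 4,nat_lit 10,
    nat_lit 4],[nat_lit 13,nat_lit 4,nat_lit 10,nat_lit 5],[nat_lit 13,nat_lit 4,nat_lit 11,nat_lit 5],[nat_lit 13,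
    nat_lit 5,nat_lit 11,nat_lit 5]],[[nat_lit 13,nat_lit 9,nat_lit 5,nat_lit 9,nat_lit 5],[nat_lit 13,nat_lit 10,
    nat_lit 4,nat_lit 5]]]
    [[nat_lit 2,nat_lit 3,nat_lit 8,nat_lit 12,nat_lit 6,nat_lit 7,nat_lit 9,nat_lit 13,nat_lit 0,nat_lit 4,
    nat_lit 92,nat_lit 101],[nat_lit 1,nat_lit 5,nat_lit 93,nat_lit 102,nat_lit 33,nat_lit 34,nat_lit 38,nat_lit 43,
    nat_lit 56,nat_lit 65,nat_lit 78,nat_lit 79],[nat_lit 80,nat_lit 81,nat_lit 84,nat_lit 86,nat_lit 96,nat_lit 104,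
    nat_lit 67,nat_lit 85,nat_lit 87,nat_lit 90,nat_lit 91,nat_lit 97],[nat_lit 98,nat_lit 99,nat_lit 100,nat_lit 105,
    nat_lit 106,nat_lit 107,nat_lit 108,nat_lit 109,nat_lit 61,nat_lit 63,nat_lit 72,nat_lit 74],[nat_lit 82,
    nat_lit 88,nat_lit 62,nat_lit 64,nat_lit 73,nat_lit 75,nat_lit 83,nat_lit 89,nat_lit 21,nat_lit 44,nat_lit 46,
    nat_lit 50],[nat_lit 52,nat_lit 57,nat_lit 59,nat_lit 68,nat_lit 70,nat_lit 95,nat_lit 30,nat_lit 42,nat_lit 45,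
    nat_lit 47,nat_lit 51,nat_lit 53],[nat_lit 58,nat_lit 60,nat_lit 69,nat_lit 71,nat_lit 18,nat_lit 19,nat_lit 28,
    nat_lit 29,nat_lit 35,nat_lit 39,nat_lit 48,nat_lit 54],[nat_lit 36,nat_lit 37,nat_lit 40,nat_lit 41,nat_lit 49,
    nat_lit 55,nat_lit 94,nat_lit 103,nat_lit 10,nat_lit 14,nat_lit 16,nat_lit 20],[nat_lit 22,nat_lit 24,nat_lit 26,
    nat_lit 31,nat_lit 76,nat_lit 11,nat_lit 15,nat_lit 17,nat_lit 23,nat_lit 25,nat_lit 27,nat_lit 32],[nat_lit 66,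
    nat_lit 77]]
    [[nat_lit 8,nat_lit 12,nat_lit 0,nat_lit 1,nat_lit 9,nat_lit 13,nat_lit 4,nat_lit 5,nat_lit 2,nat_lit 6,
    nat_lit 92,nat_lit 101],[nat_lit 3,nat_lit 7,nat_lit 93,nat_lit 102,nat_lit 94,nat_lit 103,nat_lit 76,nat_lit 77,
    nat_lit 95,nat_lit 56,nat_lit 96,nat_lit 104],[nat_lit 97,nat_lit 105,nat_lit 98,nat_lit 106,nat_lit 78,
    nat_lit 79,nat_lit 66,nat_lit 99,nat_lit 107,nat_lit 16,nat_lit 17,nat_lit 80],[nat_lit 84,nat_lit 85,nat_lit 18,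
    nat_lit 81,nat_lit 86,nat_lit 87,nat_lit 67,nat_lit 19,nat_lit 57,nat_lit 68,nat_lit 58,nat_lit 69],[nat_lit 82,
    nat_lit 88,nat_lit 59,nat_lit 70,nat_lit 60,nat_lit 71,nat_lit 83,nat_lit 89,nat_lit 20,nat_lit 61,nat_lit 72,
    nat_lit 62],[nat_lit 73,nat_lit 44,nat_lit 50,nat_lit 45,nat_lit 51,nat_lit 21,nat_lit 108,nat_lit 30,nat_lit 63,
    nat_lit 74,nat_lit 64,nat_lit 75],[nat_lit 46,nat_lit 52,nat_lit 47,nat_lit 53,nat_lit 100,nat_lit 109,nat_lit 22,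
    nat_lit 23,nat_lit 24,nat_lit 25,nat_lit 48,nat_lit 54],[nat_lit 26,nat_lit 31,nat_lit 27,nat_lit 32,nat_lit 49,
    nat_lit 55,nat_lit 33,nat_lit 34,nat_lit 10,nat_lit 14,nat_lit 90,nat_lit 65],[nat_lit 28,nat_lit 35,nat_lit 36,
    nat_lit 37,nat_lit 38,nat_lit 11,nat_lit 15,nat_lit 91,nat_lit 29,nat_lit 39,nat_lit 40,nat_lit 41],[nat_lit 42,
    nat_lit 43]]
    [[[nat_lit 92],[nat_lit 92],[nat_lit 96],[],[nat_lit 15],[nat_lit 15],[],[nat_lit 13],[nat_lit 0],[],[nat_lit 2,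
    nat_lit 3],[]],[[],[nat_lit 32],[],[nat_lit 36,nat_lit 37,nat_lit 40,nat_lit 41],[],[],[],[],[],[],[nat_lit 10],
    [nat_lit 10]],[[nat_lit 10],[nat_lit 10],[],[],[nat_lit 8],[],[],[nat_lit 51,nat_lit 53],[nat_lit 51,nat_lit 53],
    [nat_lit 51,nat_lit 53],[nat_lit 51,nat_lit 53],[]],[[],[],[],[nat_lit 55],[nat_lit 55],[nat_lit 55],[nat_lit 55],
    [nat_lit 55],[nat_lit 18,nat_lit 19,nat_lit 28,nat_lit 29],[nat_lit 18,nat_lit 19,nat_lit 28,nat_lit 29],[],[]],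
    [[nat_lit 16,nat_lit 20,nat_lit 22,nat_lit 24,nat_lit 26],[],[],[],[nat_lit 73,nat_lit 75],[nat_lit 73,
    nat_lit 75],[],[nat_lit 69,nat_lit 71],[],[nat_lit 44,nat_lit 46],[nat_lit 44,nat_lit 46],[]],[[],[nat_lit 48],
    [nat_lit 48],[],[],[],[],[],[],[],[nat_lit 85,nat_lit 87,nat_lit 90,nat_lit 91],[nat_lit 85,nat_lit 87,nat_lit 90,
    nat_lit 91]],[[],[],[nat_lit 89],[nat_lit 89],[nat_lit 61,nat_lit 63],[nat_lit 61,nat_lit 63],[nat_lit 61,
    nat_lit 63],[nat_lit 61,nat_lit 63],[],[],[nat_lit 57,nat_lit 59],[]],[[nat_lit 102],[nat_lit 102],[nat_lit 102],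
    [nat_lit 102],[],[nat_lit 105,nat_lit 106,nat_lit 107,nat_lit 108,nat_lit 109],[],[nat_lit 103],[nat_lit 78,
    nat_lit 79,nat_lit 80,nat_lit 81],[],[nat_lit 82],[nat_lit 82]],[[nat_lit 82],[nat_lit 82],[nat_lit 82],[],
    [nat_lit 76],[],[nat_lit 6,nat_lit 7],[],[],[],[],[nat_lit 5]],[[],[]]]
    (nat_lit 110) [nat_lit 0,nat_lit 1,nat_lit 2,nat_lit 3,nat_lit 4,nat_lit 5,nat_lit 6,nat_lit 7,nat_lit 10,
    nat_lit 11,nat_lit 14,nat_lit 15,nat_lit 16,nat_lit 17,nat_lit 18,nat_lit 19,nat_lit 20,nat_lit 21,nat_lit 22,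
    nat_lit 23,nat_lit 24,nat_lit 25,nat_lit 26,nat_lit 27,nat_lit 28,nat_lit 29,nat_lit 30,nat_lit 31,nat_lit 32,
    nat_lit 37,nat_lit 41,nat_lit 42,nat_lit 44,nat_lit 45,nat_lit 46,nat_lit 47,nat_lit 48,nat_lit 49,nat_lit 50,
    nat_lit 51,nat_lit 52,nat_lit 53,nat_lit 54,nat_lit 55]
    [[[nat_lit 2,nat_lit 3],[],[nat_lit 0],[nat_lit 1],[],[],[],[],[],[],[],[],[],[]],[[],[nat_lit 6,nat_lit 7],
    [nat_lit 4],[nat_lit 5],[],[],[],[],[],[],[],[],[],[]],[[nat_lit 8],[nat_lit 9],[],[],[],[],[],[],[],[],[],[],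
    [nat_lit 10],[nat_lit 11]],[[nat_lit 12],[nat_lit 13],[],[],[],[],[],[],[],[],[],[],[nat_lit 14],[nat_lit 15]],
    [[],[],[],[],[],[],[],[],[nat_lit 21],[],[nat_lit 18,nat_lit 19,nat_lit 28,nat_lit 29],[],[nat_lit 16,nat_lit 20,
    nat_lit 22,nat_lit 24,nat_lit 26],[nat_lit 17,nat_lit 23,nat_lit 25,nat_lit 27]],[[],[],[],[],[nat_lit 33,
    nat_lit 34,nat_lit 38,nat_lit 43],[],[],[],[],[nat_lit 30,nat_lit 42],[nat_lit 35,nat_lit 39],[nat_lit 36,
    nat_lit 37,nat_lit 40,nat_lit 41],[nat_lit 31],[nat_lit 32]],[[],[],[],[],[],[],[],[],[nat_lit 44,nat_lit 46],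
    [nat_lit 45,nat_lit 47],[nat_lit 48],[nat_lit 49],[],[]],[[],[],[],[],[],[],[],[],[nat_lit 50,nat_lit 52],
    [nat_lit 51,nat_lit 53],[nat_lit 54],[nat_lit 55],[],[]],[[],[],[],[],[nat_lit 56,nat_lit 65],[],[nat_lit 61,
    nat_lit 63],[nat_lit 62,nat_lit 64],[nat_lit 57,nat_lit 59],[nat_lit 58,nat_lit 60],[],[],[],[]],[[],[],[],[],[],
    [nat_lit 67],[nat_lit 72,nat_lit 74],[nat_lit 73,nat_lit 75],[nat_lit 68,nat_lit 70],[nat_lit 69,nat_lit 71],[],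
    [],[],[nat_lit 66]],[[],[],[],[],[nat_lit 78,nat_lit 79,nat_lit 80,nat_lit 81],[],[nat_lit 82],[nat_lit 83],[],[],
    [],[],[nat_lit 76],[nat_lit 77]],[[],[],[],[],[nat_lit 84,nat_lit 86],[nat_lit 85,nat_lit 87,nat_lit 90,
    nat_lit 91],[nat_lit 88],[nat_lit 89],[],[],[],[],[],[]],[[],[],[nat_lit 92],[nat_lit 93],[nat_lit 96],
    [nat_lit 97,nat_lit 98,nat_lit 99,nat_lit 100],[],[],[nat_lit 95],[],[],[nat_lit 94],[],[]],[[],[],[nat_lit 101],
    [nat_lit 102],[nat_lit 104],[nat_lit 105,nat_lit 106,nat_lit 107,nat_lit 108,nat_lit 109],[],[],[],[],[],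
    [nat_lit 103],[],[]]]
    [[[nat_lit 0x100000000000000000000000,nat_lit 0x100000000000000000000000,nat_lit 0x1000000000000000000000000,
    nat_lit 0,nat_lit 0x8000,nat_lit 0x8000,nat_lit 0,nat_lit 0x2000,nat_lit 1],[nat_lit 0,nat_lit 12,nat_lit 0,
    nat_lit 0,nat_lit 0x100000000,nat_lit 0,nat_lit 0x33000000000,nat_lit 0,nat_lit 0],[nat_lit 0,nat_lit 0,nat_lit 0,
    nat_lit 0,nat_lit 0x400,nat_lit 0x400,nat_lit 0x400,nat_lit 0x400,nat_lit 0],[nat_lit 0,nat_lit 256,nat_lit 0,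
    nat_lit 0,nat_lit 0x28000000000000,nat_lit 0x28000000000000,nat_lit 0x28000000000000,nat_lit 0x28000000000000,
    nat_lit 0],[nat_lit 0,nat_lit 0,nat_lit 0,nat_lit 0x80000000000000,nat_lit 0x80000000000000,
    nat_lit 0x80000000000000,nat_lit 0x80000000000000,nat_lit 0x80000000000000,nat_lit 0x300c0000],
    [nat_lit 0x300c0000,nat_lit 0,nat_lit 0,nat_lit 0x5510000,nat_lit 0,nat_lit 0,nat_lit 0,
    nat_lit 0xa000000000000000000,nat_lit 0xa000000000000000000],[nat_lit 0,nat_lit 0xa00000000000000000,nat_lit 0,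
    nat_lit 0x500000000000,nat_lit 0x500000000000,nat_lit 0,nat_lit 0,nat_lit 0x1000000000000,
    nat_lit 0x1000000000000],[nat_lit 0,nat_lit 0,nat_lit 0,nat_lit 0,nat_lit 0,nat_lit 0,nat_lit 0,
    nat_lit 0xca000000000000000000000,nat_lit 0xca000000000000000000000],[nat_lit 0,nat_lit 0,
    nat_lit 0x20000000000000000000000,nat_lit 0x20000000000000000000000,nat_lit 0xa000000000000000,
    nat_lit 0xa000000000000000,nat_lit 0xa000000000000000,nat_lit 0xa000000000000000,nat_lit 0]],[[nat_lit 0,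
    nat_lit 0xa00000000000000,nat_lit 0,nat_lit 0x40000000000000000000000000,nat_lit 0x40000000000000000000000000,
    nat_lit 0x40000000000000000000000000,nat_lit 0x40000000000000000000000000,nat_lit 0,
    nat_lit 0x3e00000000000000000000000000],[nat_lit 0,nat_lit 0x80000000000000000000000000,
    nat_lit 0x3c0000000000000000000,nat_lit 0,nat_lit 0x400000000000000000000,nat_lit 0x400000000000000000000,
    nat_lit 0x400000000000000000000,nat_lit 0x400000000000000000000,nat_lit 0x400000000000000000000],[nat_lit 0,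
    nat_lit 0x10000000000000000000,nat_lit 0,nat_lit 192,nat_lit 0,nat_lit 0,nat_lit 0,nat_lit 0,nat_lit 32],
    [nat_lit 0,nat_lit 0]]]
    []
    (nat_lit 0) (nat_lit 2) (nat_lit 2)
    [[nat_lit 2,nat_lit 258,nat_lit 17,nat_lit 0x1011,nat_lit 257,nat_lit 0x1101,nat_lit 0x100101,nat_lit 513,
    nat_lit 0x10101,nat_lit 0x11101,nat_lit 0x1010101,nat_lit 0x1000101,nat_lit 0x1001,nat_lit 0x10001,
    nat_lit 0x20001,nat_lit 0x100001,nat_lit 0x1000001],[nat_lit 32,nat_lit 0x1020,nat_lit 272,nat_lit 288,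
    nat_lit 0x1110,nat_lit 0x100110,nat_lit 528,nat_lit 0x1120,nat_lit 0x10110,nat_lit 0x11110,nat_lit 0x1000110,
    nat_lit 0x1010,nat_lit 0x2010,nat_lit 0x2110,nat_lit 0x101110,nat_lit 0x2020,nat_lit 0x11010,nat_lit 0x10010,
    nat_lit 0x20010,nat_lit 0x100010],[nat_lit 512,nat_lit 0x1200,nat_lit 0x11200,nat_lit 0x10200,nat_lit 0x100200,
    nat_lit 0x1000200,nat_lit 0x20200,nat_lit 0x1010200,nat_lit 0x1100,nat_lit 0x1001200,nat_lit 0x2100,
    nat_lit 0x11100,nat_lit 0x1001100,nat_lit 0x2200,nat_lit 0x101200,nat_lit 0x1002100,nat_lit 0x12100,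
    nat_lit 0x21100,nat_lit 0x1011100,nat_lit 0x101100,nat_lit 0x10100,nat_lit 0x20100,nat_lit 0x1010100,
    nat_lit 0x110200,nat_lit 0x100100,nat_lit 0x200200,nat_lit 0x110100,nat_lit 0x120100,nat_lit 0x200100,
    nat_lit 0x1100100,nat_lit 0x1110100,nat_lit 0x1000100,nat_lit 0x2000100],[nat_lit 0x2000,nat_lit 0x3000,
    nat_lit 0x1002000,nat_lit 0x12000,nat_lit 0x11000,nat_lit 0x1001000,nat_lit 0x1011000],[nat_lit 0x20000,
    nat_lit 0x30000,nat_lit 0x1020000,nat_lit 0x110000,nat_lit 0x1010000],[nat_lit 0x200000,nat_lit 0x1100000],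
    [nat_lit 0x2000000]]
    [.c (nat_lit 1) (nat_lit 2),.c (nat_lit 0) (nat_lit 0x375245),.c (nat_lit 0) (nat_lit 0x2203),
    .c (nat_lit 0) (nat_lit 0x5dd784),.c (nat_lit 0) (nat_lit 0x375045),
    .r (nat_lit 0x1184) (nat_lit 8) [nat_lit 0x40001,nat_lit 0x2001,nat_lit 0x400001,nat_lit 0x550451],
    .c (nat_lit 5) (nat_lit 0x222032),.c (nat_lit 0) (nat_lit 0x5d9385),.c (nat_lit 0) (nat_lit 0x33023),
    .c (nat_lit 4) (nat_lit 0x22032),.c (nat_lit 2) (nat_lit 0x30023),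
    .r (nat_lit 0x1cf7) (nat_lit 0) [nat_lit 0x330231,nat_lit 0x200001,nat_lit 0x20001],
    .r (nat_lit 0x1b36) (nat_lit 4) [nat_lit 0x300021,nat_lit 0x422051,nat_lit 0x200001],
    .c (nat_lit 0) (nat_lit 0x33023),.c (nat_lit 0) (nat_lit 0x99385),.c (nat_lit 0) (nat_lit 0x599385),
    .r (nat_lit 0x1bec) (nat_lit 2) [nat_lit 33,nat_lit 0x200001],.c (nat_lit 2) (nat_lit 2),
    .c (nat_lit 0) (nat_lit 0x379342),.r (nat_lit 0x1bec) (nat_lit 8) [nat_lit 33,nat_lit 0x200001],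
    .r (nat_lit 0x11b3) (nat_lit 4) [nat_lit 0x543451,nat_lit 0xa00001,nat_lit 0x9d5821,nat_lit 0x462541],
    .c (nat_lit 0) (nat_lit 0x377342),.r (nat_lit 0x1cdb) (nat_lit 3) [nat_lit 0x200031,nat_lit 33],
    .r (nat_lit 0x1834) (nat_lit 0) [nat_lit 0x2000001,nat_lit 0x200001,nat_lit 0x2462521,nat_lit 0x3533431],
    .c (nat_lit 0) (nat_lit 0x379342),.r (nat_lit 0x1184) (nat_lit 10) [nat_lit 0x400001,nat_lit 0x2000001,
    nat_lit 0x40001,nat_lit 0x550451],.c (nat_lit 0) (nat_lit 0x599344),.c (nat_lit 0) (nat_lit 0x3002),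
    .c (nat_lit 0) (nat_lit 0x377342),.c (nat_lit 0) (nat_lit 0x5db582),.c (nat_lit 0) (nat_lit 0x5db582),
    .c (nat_lit 0) (nat_lit 0x33002),.c (nat_lit 0) (nat_lit 0x5dd582),.c (nat_lit 0) (nat_lit 0x599344),
    .r (nat_lit 0x1b36) (nat_lit 0) [nat_lit 0x30021,nat_lit 0x2240051,nat_lit 0x20001],
    .r (nat_lit 32) (nat_lit 13) [nat_lit 0x533432,nat_lit 0x3000021],.r (nat_lit 32) (nat_lit 13) [nat_lit 0x3533432,
    nat_lit 33],.c (nat_lit 3) (nat_lit 2),.r (nat_lit 0x1834) (nat_lit 4) [nat_lit 0x2001,nat_lit 0x20001,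
    nat_lit 0x2642521,nat_lit 0x3353431],.r (nat_lit 0x18fc) (nat_lit 8) [nat_lit 0x200001,nat_lit 0x20001,
    nat_lit 0x22001,nat_lit 0x373431],.c (nat_lit 0) (nat_lit 0x3b9585),.c (nat_lit 0) (nat_lit 0x355043),
    .c (nat_lit 0) (nat_lit 0x375343),.c (nat_lit 0) (nat_lit 0x55043),.c (nat_lit 0) (nat_lit 0x3b9585),
    .r (nat_lit 0x1bec) (nat_lit 10) [nat_lit 33,nat_lit 0x20001],.c (nat_lit 4) (nat_lit 0x264252),
    .r (nat_lit 0x11b3) (nat_lit 0) [nat_lit 0x3450451,nat_lit 0xa0001,nat_lit 0x5d90821,nat_lit 0x2640541],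
    .r (nat_lit 0x1834) (nat_lit 4) [nat_lit 0x2001,nat_lit 0x20001,nat_lit 0x442541,nat_lit 0x53451],
    .r (nat_lit 0x1cdb) (nat_lit 9) [nat_lit 0x20031,nat_lit 33],.r (nat_lit 0x1181) (nat_lit 0) [nat_lit 0x3050431,
    nat_lit 0x60001,nat_lit 0x5d90822,nat_lit 0x2640521],.c (nat_lit 0) (nat_lit 0x30002),
    .r (nat_lit 0x6eb) (nat_lit 0) [nat_lit 0x400001,nat_lit 0x4c84981,nat_lit 0x2644541,nat_lit 0x5d55891,
    nat_lit 0x5d95851],.r (nat_lit 0x6ec) (nat_lit 0) [nat_lit 0x400001,nat_lit 0x995891,nat_lit 0x550451,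
    nat_lit 0x8c4981,nat_lit 0x3300041],.c (nat_lit 0) (nat_lit 0x330002),
    .r (nat_lit 0x1cf7) (nat_lit 4) [nat_lit 0x22321,nat_lit 0x20001,nat_lit 0x200001],
    .c (nat_lit 0) (nat_lit 0x30002),.c (nat_lit 0) (nat_lit 0x33023),.c (nat_lit 0) (nat_lit 0x55343),
    .c (nat_lit 1) (nat_lit 0x22232),.r (nat_lit 0x1b36) (nat_lit 0) [nat_lit 0x2442521,nat_lit 0x3795851,
    nat_lit 0x20001],.c (nat_lit 0) (nat_lit 0x355343),.r (nat_lit 32) (nat_lit 13) [nat_lit 0x5995832,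
    nat_lit 0x2462521],.r (nat_lit 0x1cf7) (nat_lit 4) [nat_lit 0x330231,nat_lit 0x20001,nat_lit 0x200001],
    .r (nat_lit 0x1cdb) (nat_lit 9) [nat_lit 0x262521,nat_lit 0x353431],
    .r (nat_lit 0x1cdb) (nat_lit 9) [nat_lit 0x2262521,nat_lit 0x3353431],.c (nat_lit 0) (nat_lit 0x355343),
    .r (nat_lit 0x1834) (nat_lit 4) [nat_lit 0x2001,nat_lit 0x20001,nat_lit 0x53451,nat_lit 0x442541],
    .c (nat_lit 0) (nat_lit 0x375345),.r (nat_lit 0x1cdb) (nat_lit 3) [nat_lit 0x2622521,nat_lit 0x3533431],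
    .c (nat_lit 4) (nat_lit 2),.r (nat_lit 0x1bec) (nat_lit 5) [nat_lit 0x2600032,nat_lit 0x20001],
    .r (nat_lit 0x1cf7) (nat_lit 4) [nat_lit 0x502022,nat_lit 0x20001,nat_lit 0x200001],
    .r (nat_lit 0x1bec) (nat_lit 5) [nat_lit 0x2400031,nat_lit 0x20001],.c (nat_lit 0) (nat_lit 0x220005),
    .r (nat_lit 32) (nat_lit 13) [nat_lit 0x3753422,nat_lit 0x220031],
    .r (nat_lit 0x1b36) (nat_lit 0) [nat_lit 0x2200031,nat_lit 0x3300041,nat_lit 0x20001],.c (nat_lit 5) (nat_lit 2),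
    .r (nat_lit 0x1bec) (nat_lit 5) [nat_lit 0x3000021,nat_lit 0x20001],.c (nat_lit 0) (nat_lit 0x55343),
    .r (nat_lit 0x1bec) (nat_lit 5) [nat_lit 33,nat_lit 0x20001],.c (nat_lit 0) (nat_lit 0x55345),
    .c (nat_lit 6) (nat_lit 2),.c (nat_lit 0) (nat_lit 0x355343),.c (nat_lit 7) (nat_lit 2)]]

/-- nodes -/
noncomputable def rD7k_25_20 : List RJ :=
  [.l (nat_lit 10) (nat_lit 240) (nat_lit 4) (nat_lit 0x620000006200000059000000590000005900000059000000590000005900000059000000590000005e0000005e0000005d0000005d) (nat_lit 0x90000000900000009000000090000000900000009000000090000000900000004000000040000000500000005)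
    (nat_lit 0x18862164591645916459144592008a1745d18862164591644711c5916459198701745d164591885014050140500f862154551504c1645914062140501405014050174551505411c5914050140501405014050154551504c164591405014050140501405015455150541645914050140501405014050154551505411c5914050140501405014050134551504c1645914062140501405014050174551505c164511403e140501405014050134550a0541c08a154551545515455154551685a18461198801745515455134551345d1685a164591745d1504c1504c130541505c164610d8581745d1505415054150540a0541646116036)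
    (nat_lit 0x188f03c0f03c0f03c0f03c0f03c0f03c0f0188623c0f03c0f03c0f03c0f03c0f03c0f016459188f03c0f03c0f03c0f03c0f03c0f016459140623c0f03c0f03c0f03c0f03c0f01645914050140f03c0f03c0f03c0f03c0f01644714050140503c0f03c0f03c0f03c0f0164471405014050140f03c0f03c0f03c0f0164591405014050140503c0f03c0f03c0f0144590f8501405014050140f03c0f03c0f016459188501405014050140503c0f03c0f0200661545d154551544d1744d168f03c0f022870154551545515455154551685a3c0f01745d15054150541505415028184590d8f01745d13054130541504c170541845916036)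
    (nat_lit 4) (nat_lit 49)
    [[nat_lit 2,nat_lit 3,nat_lit 4,nat_lit 258,nat_lit 0x1002,nat_lit 0x10002,nat_lit 0x100002,nat_lit 17,
    nat_lit 257,nat_lit 0x100101,nat_lit 273,nat_lit 513,nat_lit 0x1101,nat_lit 0x10101,nat_lit 0x1000101,
    nat_lit 0x1001,nat_lit 0x10001,nat_lit 0x100001,nat_lit 0x1000001],[nat_lit 32,nat_lit 272,nat_lit 0x1010,
    nat_lit 0x10010,nat_lit 0x100010],[nat_lit 512,nat_lit 0x100200,nat_lit 0x1100,nat_lit 0x10100,nat_lit 0x100100,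
    nat_lit 0x101100,nat_lit 0x110100,nat_lit 0x1000100,nat_lit 0x1001100,nat_lit 0x1010100],[nat_lit 0x2000,
    nat_lit 0x11000,nat_lit 0x101000,nat_lit 0x1001000],[nat_lit 0x20000,nat_lit 0x110000,nat_lit 0x1010000],
    [nat_lit 0x200000,nat_lit 0x1100000],[nat_lit 0x2000000]]
    [.c (nat_lit 1) (nat_lit 2),.r (nat_lit 0x1166) (nat_lit 8) [nat_lit 0xc001,nat_lit 65,nat_lit 0x77dc51,
    nat_lit 0x600001],.r (nat_lit 0x1167) (nat_lit 8) [nat_lit 0x4001,nat_lit 34,nat_lit 0x559832,nat_lit 0x200001],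
    .r (nat_lit 0x1168) (nat_lit 8) [nat_lit 0x8001,nat_lit 0x30041,nat_lit 0x539851,nat_lit 0x400001],
    .r (nat_lit 0x1a2a) (nat_lit 4) [nat_lit 0x300022,nat_lit 0x2001,nat_lit 0x20001,nat_lit 0x200001],
    .r (nat_lit 0x1ccd) (nat_lit 12) [nat_lit 0x2001,nat_lit 0x200001,nat_lit 0x300041],
    .r (nat_lit 0x116a) (nat_lit 12) [nat_lit 0x4001,nat_lit 0x20001,nat_lit 0x559851,nat_lit 0x424521],
    .r (nat_lit 0x1bdf) (nat_lit 10) [nat_lit 33,nat_lit 0x20321],.c (nat_lit 0) (nat_lit 0x30545),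
    .c (nat_lit 5) (nat_lit 0x20232),.r (nat_lit 0x1ae7) (nat_lit 10) [nat_lit 0x200001,nat_lit 0x204541,
    nat_lit 0x300451,nat_lit 0x240541],.r (nat_lit 0x1bdf) (nat_lit 10) [nat_lit 0x32021,nat_lit 0x2321],
    .r (nat_lit 0x1c24) (nat_lit 8) [nat_lit 0x23001,nat_lit 0x2001,nat_lit 0x32041,nat_lit 0x423051],
    .r (nat_lit 0x1882) (nat_lit 12) [nat_lit 0x3231,nat_lit 0x2001,nat_lit 0x200001,nat_lit 0x23001],
    .r (nat_lit 0x116b) (nat_lit 12) [nat_lit 0x4001,nat_lit 0x20001,nat_lit 0x200001,nat_lit 0x305451],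
    .r (nat_lit 0x1ccb) (nat_lit 0) [nat_lit 0x200031,nat_lit 33,nat_lit 0x2001],
    .r (nat_lit 0x1bcb) (nat_lit 7) [nat_lit 0x20001,nat_lit 0x2001,nat_lit 33],.c (nat_lit 0) (nat_lit 0x33545),
    .r (nat_lit 0x1cb9) (nat_lit 0) [nat_lit 0x2001,nat_lit 33,nat_lit 0x202321],.c (nat_lit 2) (nat_lit 2),
    .r (nat_lit 0x1c26) (nat_lit 1) [nat_lit 0x2031,nat_lit 33,nat_lit 0x200001],
    .r (nat_lit 0x1bb5) (nat_lit 6) [nat_lit 0x2031,nat_lit 0x200001,nat_lit 33],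
    .r (nat_lit 0x1b36) (nat_lit 0) [nat_lit 0x3021,nat_lit 0x204051,nat_lit 0x2001],
    .r (nat_lit 0x1c22) (nat_lit 0) [nat_lit 0x2031,nat_lit 33,nat_lit 0x202301],.c (nat_lit 3) (nat_lit 2),
    .r (nat_lit 0x1c22) (nat_lit 0) [nat_lit 0x20031,nat_lit 0x32021,nat_lit 0x202301],
    .r (nat_lit 0x1bec) (nat_lit 10) [nat_lit 33,nat_lit 0x2001],.c (nat_lit 0) (nat_lit 0x22005),
    .c (nat_lit 0) (nat_lit 0x30545),.r (nat_lit 0x174c) (nat_lit 3) [nat_lit 0x2001,nat_lit 0x200001,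
    nat_lit 0x305431],.r (nat_lit 0x1cfb) (nat_lit 0) [nat_lit 0x20001,nat_lit 0x2001,nat_lit 0x30041,
    nat_lit 0x220051],.c (nat_lit 0) (nat_lit 0x2003),.r (nat_lit 0x1cd8) (nat_lit 11) [nat_lit 0x220031,
    nat_lit 0x2001,nat_lit 33],.r (nat_lit 0x1bb5) (nat_lit 6) [nat_lit 0x330041,nat_lit 0x200001,nat_lit 0x222051],
    .c (nat_lit 4) (nat_lit 2),.c (nat_lit 0) (nat_lit 0x20005),.r (nat_lit 0x18fb) (nat_lit 12) [nat_lit 0x2001,
    nat_lit 33,nat_lit 0x200001,nat_lit 0x23001],.r (nat_lit 0x1c71) (nat_lit 3) [nat_lit 0x3021,nat_lit 0x202031,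
    nat_lit 0x2001],.c (nat_lit 5) (nat_lit 2),.r (nat_lit 0x1bec) (nat_lit 5) [nat_lit 33,nat_lit 0x2001],
    .r (nat_lit 0x1cc8) (nat_lit 6) [nat_lit 0x200001,nat_lit 0x300041,nat_lit 0x204051],.c (nat_lit 6) (nat_lit 2),
    .r (nat_lit 0x116d) (nat_lit 0) [nat_lit 0x559841,nat_lit 0x448981,nat_lit 0x554891,nat_lit 0x345451],
    .c (nat_lit 7) (nat_lit 2)],
    .l (nat_lit 11) (nat_lit 480) (nat_lit 3) (nat_lit 0xd7000000d7000000d8000000d2000000e8000000e8000000d7000000d7000000b20000010c000000f4000000d8000000c4000000de) (nat_lit 0x35000000350000003a0000003400000024000000240000003500000035000000000000005a00000034000000180000002e00000048)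
    (nat_lit 0x1442884e8a316629c560a21ae1f46092515225c500a213a28c5888f1502886b87d17647c5489514628c610a61682d0518a50f01e04f0c01541e04e89d17c308570ae0f2304690781181e05808a11e29c570b4140278598b32542c85a0d01742c8588b315c2d0620a01662cc970b61682f85d0b6144288608a51662cc3d0a21d21f44687915223c540ac0f228c598b31041e87787d12a2fc548950fa1f43c07816c2c83e87d1641e03c0820f41e06b8d71a41e09712a1de3a4860b21d43d03c0b223e4943c0c017c3405f8791e8208690dc18c2685d8c11182785a0b412a234750781503485109012a25c4507816c2c84a88f1641e04809a0f01e0548a91602a85d0ba1522a43c07a14431858078)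
    (nat_lit 0x144780f01e03c0780f01e03c0780f01e03c0780510a23c0780f01e03c0780f01e03c0780f01e013a274611e03c0780f01e03c0780f01e03c0780518a314c308f01e03c0780f01e03c0780f01e01662c45a0ae140780f01e03c0780f01e03c07805388f1682b84f0a03c0780f01e03c0780f01e01582a0518791662cc3d1e03c0780f01e03c0780510a214a304598b31441e8f01e03c0780f01e01ae35c3c0d224c498748ef164780f01e03c07803e87d0f01e0590b60fa1f43c0b23c0780f01e01822ec4f08c1682d0468950f03a8691e03c07808d91b1801e0680be0f22fc410f01b8348f01e01522a4550b01742e8548a90f41e0630a20f07804b8950f0228590b611e2543c0b21342403c078)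
    (nat_lit 4) (nat_lit 74)
    [[nat_lit 2,nat_lit 3,nat_lit 18,nat_lit 258,nat_lit 0x1002,nat_lit 0x100002,nat_lit 0x1000002,nat_lit 17,
    nat_lit 0x100011,nat_lit 273,nat_lit 0x1011,nat_lit 257,nat_lit 513,nat_lit 0x100101,nat_lit 0x1101,
    nat_lit 0x1000101,nat_lit 0x1001,nat_lit 0x2001,nat_lit 0x101001,nat_lit 0x10001,nat_lit 0x100001,
    nat_lit 0x1100001,nat_lit 0x1000001],[nat_lit 32,nat_lit 272,nat_lit 0x100110,nat_lit 0x1010,nat_lit 0x2010,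
    nat_lit 0x101010,nat_lit 0x10010,nat_lit 0x100010,nat_lit 0x200010,nat_lit 0x1100010],[nat_lit 512,
    nat_lit 0x100200,nat_lit 0x1100,nat_lit 0x101100,nat_lit 0x100100,nat_lit 0x110100,nat_lit 0x200100,
    nat_lit 0x1100100,nat_lit 0x1000100],[nat_lit 0x2000,nat_lit 0x3000,nat_lit 0x102000,nat_lit 0x1002000,
    nat_lit 0x11000,nat_lit 0x101000,nat_lit 0x1101000,nat_lit 0x1001000],[nat_lit 0x20000,nat_lit 0x110000,
    nat_lit 0x1010000],[nat_lit 0x200000,nat_lit 0x1100000],[nat_lit 0x2000000]]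
    [.c (nat_lit 1) (nat_lit 2),.r (nat_lit 0x1180) (nat_lit 5) [nat_lit 0xc0001,nat_lit 0x670001,nat_lit 0xc001,
    nat_lit 65],.r (nat_lit 0x1842) (nat_lit 5) [nat_lit 0x2001,nat_lit 33,nat_lit 0x20001,nat_lit 0x200001],
    .c (nat_lit 0) (nat_lit 0x33543),.c (nat_lit 0) (nat_lit 0x37985),.c (nat_lit 0) (nat_lit 0x33543),
    .r (nat_lit 0x1cfc) (nat_lit 3) [nat_lit 0x230001,nat_lit 0x20001,nat_lit 0x2001,nat_lit 0x3021],
    .r (nat_lit 0x1bec) (nat_lit 13) [nat_lit 33,nat_lit 0x20001],.r (nat_lit 0x1cf7) (nat_lit 3) [nat_lit 0x33231,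
    nat_lit 0x20001,nat_lit 0x2001],.r (nat_lit 0x18fc) (nat_lit 5) [nat_lit 0x2001,nat_lit 0x20001,nat_lit 0x200001,
    nat_lit 0x30021],.r (nat_lit 0x18fd) (nat_lit 5) [nat_lit 0x33231,nat_lit 0x2001,nat_lit 0x20001,
    nat_lit 0x200001],.c (nat_lit 0) (nat_lit 0x33543),.r (nat_lit 0x18fe) (nat_lit 3) [nat_lit 0x230001,
    nat_lit 0x20001,nat_lit 0x2001,nat_lit 33],.c (nat_lit 4) (nat_lit 0x20232),
    .r (nat_lit 0x1181) (nat_lit 3) [nat_lit 0x320041,nat_lit 0x6001,nat_lit 0x357631,nat_lit 0x240051],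
    .r (nat_lit 0x1cf9) (nat_lit 1) [nat_lit 0x20001,nat_lit 0x200001,nat_lit 0x204541,nat_lit 0x355401],
    .c (nat_lit 0) (nat_lit 0x3323),.c (nat_lit 0) (nat_lit 0x5543),.c (nat_lit 0) (nat_lit 0x3323),
    .r (nat_lit 0x1bc5) (nat_lit 8) [nat_lit 0x20031,nat_lit 0x200031,nat_lit 33,nat_lit 0x2001],
    .c (nat_lit 0) (nat_lit 0x33545),.r (nat_lit 0x1834) (nat_lit 3) [nat_lit 0x230001,nat_lit 0x20001,
    nat_lit 0x224541,nat_lit 0x330451],.r (nat_lit 0x1750) (nat_lit 1) [nat_lit 33,nat_lit 0x20001],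
    .c (nat_lit 2) (nat_lit 2),.r (nat_lit 0x1750) (nat_lit 13) [nat_lit 33,nat_lit 0x22031],
    .r (nat_lit 0x18e1) (nat_lit 12) [nat_lit 0x2001,nat_lit 0x20001,nat_lit 0x230001,nat_lit 0x335451],
    .r (nat_lit 0x1173) (nat_lit 3) [nat_lit 0x40001,nat_lit 0x300041,nat_lit 0x204051,nat_lit 0x355401],
    .r (nat_lit 0x1750) (nat_lit 13) [nat_lit 0x320021,nat_lit 0x202031],.r (nat_lit 8) (nat_lit 6) [nat_lit 0x30231,
    nat_lit 0x20001],.r (nat_lit 0x1c22) (nat_lit 3) [nat_lit 0x30021,nat_lit 0x22031,nat_lit 0x202301],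
    .r (nat_lit 0x1cb8) (nat_lit 12) [nat_lit 0x2001,nat_lit 33,nat_lit 0x200001],
    .r (nat_lit 0x1cfd) (nat_lit 12) [nat_lit 0x2001,nat_lit 33,nat_lit 0x200001],.c (nat_lit 0) (nat_lit 770),
    .c (nat_lit 3) (nat_lit 2),.r (nat_lit 0x1182) (nat_lit 8) [nat_lit 0x8001,nat_lit 0x559831,nat_lit 0x80051,
    nat_lit 0x450021],.r (nat_lit 0x1bc4) (nat_lit 3) [nat_lit 33,nat_lit 0x220051,nat_lit 0x2001],
    .r (nat_lit 0x1183) (nat_lit 12) [nat_lit 0x6001,nat_lit 0x320041,nat_lit 0x230021,nat_lit 0x240051],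
    .c (nat_lit 0) (nat_lit 0x33543),.c (nat_lit 0) (nat_lit 0x3002),.c (nat_lit 0) (nat_lit 0x33543),
    .r (nat_lit 0x1ae3) (nat_lit 5) [nat_lit 0x2001,nat_lit 0x20001,nat_lit 0x33021],
    .r (nat_lit 0x1c22) (nat_lit 3) [nat_lit 0x2031,nat_lit 33,nat_lit 0x202301],.c (nat_lit 4) (nat_lit 2),
    .r (nat_lit 0x1bc4) (nat_lit 3) [nat_lit 0x320021,nat_lit 0x630051,nat_lit 0x2001],
    .c (nat_lit 0) (nat_lit 0x5543),.r (nat_lit 0x1c22) (nat_lit 3) [nat_lit 0x232031,nat_lit 0x320021,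
    nat_lit 0x202301],.c (nat_lit 0) (nat_lit 0x20003),.c (nat_lit 0) (nat_lit 0x3323),
    .r (nat_lit 0x1184) (nat_lit 5) [nat_lit 0x40001,nat_lit 0x230001,nat_lit 0x4001,nat_lit 0x55451],
    .r (nat_lit 0x1b36) (nat_lit 3) [nat_lit 0x3021,nat_lit 0x204051,nat_lit 0x2001],.c (nat_lit 5) (nat_lit 2),
    .r (nat_lit 0x1bbd) (nat_lit 11) [nat_lit 0x30021,nat_lit 0x20001,nat_lit 0x2001],
    .r (nat_lit 0x1750) (nat_lit 13) [nat_lit 0x22031,nat_lit 33],.c (nat_lit 6) (nat_lit 2),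
    .r (nat_lit 0x1bbd) (nat_lit 5) [nat_lit 0x3021,nat_lit 0x2001,nat_lit 0x20001],.c (nat_lit 7) (nat_lit 2)],
    .l (nat_lit 14) (nat_lit 0x870) (nat_lit 3) (nat_lit 0x41c0000041c0000041800000418000004010000040100000414000003a6000003a2000005080000044a0000039800000392000003fc) (nat_lit 0xec000000ec000000f0000000f0000001070000010700000162000000f4000000000000016600000170000000be0000010c00000176)
    (nat_lit 0xcc03300c102ec0c443150b2032810702a40c5853e0c402e00a003300ec032c0c5429b09803680d283500cc855a0d4029c0cb02ec0e883d80b4428d0870324087030c0ac842c0c3021c0ec03040d203a20ba4311087032410602b209f021c0c302a20a6c3150c4428d0be82da0a7c33514fc3350a443430c742b70c543110ba42d10be82fa0ab430d14ec331094c3430bd42c50da03280c903240c34335087032010502a009a821c0c302dc09802c8087021c0ab429f091021c10e024008d82e80ab02460d402a40ac830c0cc433509002a00e8823c08702520a2022c0d2841c106021c14ec53f10e041414203a2105044a08702ca156853e087042c0d0c3430ba021c11282520e8838c0cf82580cc831609f02b2094c29108d826a105021c08a03a209482220a702e00a8821c0b142b709182dc0b2822c0888258087021c0d403100c3030c0bd431d0ab030c0870288094833e0bc021c)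
    (nat_lit 0xcc087021c087021c087021c087021c087021c087021c08700cc033021c087021c087021c087021c087021c087021c08700c103b00e8887021c087021c087021c087021c087021c08700bb032c0f603a221c087021c087021c087021c087021c08700c443150b442e90be887021c087021c087021c087021c08700c5429b0a343110b682fa21c087021c087021c087021c08700b20260087021c0a7c2ad087087021c087021c087021c08700ca03680c903240cd430d0c8021c21c087021c087021c0870107034a087041814b450510504380e8887021c087021c08700a903500c302b20cd43310a8024008f03a221c087021c08700c583320ac827c0a4425309a823608704140e8887021c0870139047c10b021c0d0c34308702e809484380e303a221c08700c403500c3030c0c742f50c302ac0a2021c0cf825208708700b8029c08702a20adc2c50b7024608b02ca0960222087021c)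
    (nat_lit 4) (nat_lit 79)
    [[nat_lit 2,nat_lit 3,nat_lit 18,nat_lit 258,nat_lit 0x1002,nat_lit 0x10002,nat_lit 0x100002,nat_lit 0x1000002,
    nat_lit 17,nat_lit 33,nat_lit 273,nat_lit 0x1011,nat_lit 0x10011,nat_lit 0x100011,nat_lit 257,nat_lit 0x100101,
    nat_lit 513,nat_lit 0x1101,nat_lit 0x10101,nat_lit 0x1000101,nat_lit 0x1001,nat_lit 0x2001,nat_lit 0x101001,
    nat_lit 0x1001001,nat_lit 0x10001,nat_lit 0x110001,nat_lit 0x100001,nat_lit 0x1000001],[nat_lit 32,nat_lit 0x1020,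
    nat_lit 272,nat_lit 0x100110,nat_lit 0x1010,nat_lit 0x2010,nat_lit 0x11010,nat_lit 0x101010,nat_lit 0x10010,
    nat_lit 0x110010,nat_lit 0x100010,nat_lit 0x1001010,nat_lit 0x1100010],[nat_lit 512,nat_lit 0x1100,
    nat_lit 0x100100,nat_lit 0x101100,nat_lit 0x110100,nat_lit 0x1000100],[nat_lit 0x2000,nat_lit 0x3000,
    nat_lit 0x12000,nat_lit 0x102000,nat_lit 0x1002000,nat_lit 0x11000,nat_lit 0x111000,nat_lit 0x101000,
    nat_lit 0x1001000],[nat_lit 0x20000,nat_lit 0x110000,nat_lit 0x1010000],[nat_lit 0x200000,nat_lit 0x1100000],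
    [nat_lit 0x2000000]]
    [.c (nat_lit 1) (nat_lit 2),.c (nat_lit 0) (nat_lit 0x777665),.c (nat_lit 1) (nat_lit 0x30302),
    .r (nat_lit 0xe9a) (nat_lit 3) [nat_lit 0x4000001,nat_lit 0x2840521,nat_lit 0x3000021,nat_lit 0x3550431],
    .c (nat_lit 0) (nat_lit 0x773265),.r (nat_lit 0x1184) (nat_lit 5) [nat_lit 0x4000001,nat_lit 0x3045021,
    nat_lit 0x400001,nat_lit 0x4001],.c (nat_lit 0) (nat_lit 0x333223),
    .r (nat_lit 0x1cfe) (nat_lit 7) [nat_lit 0x2000001,nat_lit 0x200001,nat_lit 33],.c (nat_lit 0) (nat_lit 0x20203),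
    .c (nat_lit 2) (nat_lit 0x30302),.c (nat_lit 3) (nat_lit 0x30302),.c (nat_lit 1) (nat_lit 0x33002),
    .c (nat_lit 3) (nat_lit 0x220203),.c (nat_lit 2) (nat_lit 0x242032),
    .r (nat_lit 2) (nat_lit 13) [nat_lit 0x2202031,nat_lit 0x23021],.r (nat_lit 8) (nat_lit 13) [nat_lit 0x300231,
    nat_lit 0x200001],.r (nat_lit 0x12db) (nat_lit 0) [nat_lit 0x5905401,nat_lit 0x400001,nat_lit 0x404001,
    nat_lit 0x303021],.r (nat_lit 0xe9a) (nat_lit 3) [nat_lit 0x4000001,nat_lit 0x2822521,nat_lit 0x3032021,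
    nat_lit 0x3533431],.c (nat_lit 2) (nat_lit 0x220203),.r (nat_lit 4) (nat_lit 1) [nat_lit 0x202001,
    nat_lit 0x330231],.c (nat_lit 1) (nat_lit 0x3202),.c (nat_lit 0) (nat_lit 0x772365),
    .c (nat_lit 0) (nat_lit 0x330023),.r (nat_lit 0x1cfe) (nat_lit 7) [nat_lit 0x2000001,nat_lit 0x200001,
    nat_lit 0x32021],.r (nat_lit 4) (nat_lit 10) [nat_lit 0x202001,nat_lit 0x23021],
    .r (nat_lit 0x174e) (nat_lit 1) [nat_lit 0x202001,nat_lit 0x330231],.c (nat_lit 0) (nat_lit 0x333223),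
    .c (nat_lit 0) (nat_lit 0x333023),.c (nat_lit 2) (nat_lit 2),.c (nat_lit 2) (nat_lit 0x33002),
    .r (nat_lit 8) (nat_lit 13) [nat_lit 0x2220031,nat_lit 0x200001],
    .r (nat_lit 0x1c61) (nat_lit 12) [nat_lit 0x202001,nat_lit 0x2000001,nat_lit 33],.c (nat_lit 0) (nat_lit 0x22003),
    .c (nat_lit 1) (nat_lit 0x35202),.c (nat_lit 3) (nat_lit 0x222003),.c (nat_lit 2) (nat_lit 0x240232),
    .r (nat_lit 0x174e) (nat_lit 1) [nat_lit 0x202001,nat_lit 0x2200031],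
    .r (nat_lit 0x1cdb) (nat_lit 1) [nat_lit 0x200031,nat_lit 33],.c (nat_lit 2) (nat_lit 0x262232),
    .c (nat_lit 2) (nat_lit 0x42003),.c (nat_lit 0) (nat_lit 0x30002),.c (nat_lit 3) (nat_lit 2),
    .r (nat_lit 2) (nat_lit 13) [nat_lit 0x2220031,nat_lit 33],.r (nat_lit 0x1b32) (nat_lit 8) [nat_lit 0x220001,
    nat_lit 0x2220321,nat_lit 0x330231],.r (nat_lit 8) (nat_lit 13) [nat_lit 0x323231,nat_lit 0x200001],
    .c (nat_lit 0) (nat_lit 0x300002),.r (nat_lit 0x174e) (nat_lit 1) [nat_lit 0x202001,nat_lit 33],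
    .c (nat_lit 4) (nat_lit 2),.c (nat_lit 0) (nat_lit 0x776765),.r (nat_lit 0x1184) (nat_lit 5) [nat_lit 0x4000001,
    nat_lit 0x3000021,nat_lit 0x400001,nat_lit 0x4001],.c (nat_lit 0) (nat_lit 0x332323),
    .r (nat_lit 0x1cfe) (nat_lit 7) [nat_lit 0x2000001,nat_lit 0x200001,nat_lit 0x54021],
    .r (nat_lit 4) (nat_lit 10) [nat_lit 0x202001,nat_lit 33],.r (nat_lit 0x174e) (nat_lit 1) [nat_lit 0x202001,
    nat_lit 0x303231],.c (nat_lit 0) (nat_lit 0x332323),.c (nat_lit 0) (nat_lit 0x330323),.c (nat_lit 5) (nat_lit 2),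
    .r (nat_lit 4) (nat_lit 1) [nat_lit 0x202001,nat_lit 33],.r (nat_lit 8) (nat_lit 13) [nat_lit 0x20021,
    nat_lit 0x200001],.c (nat_lit 6) (nat_lit 2),.c (nat_lit 2) (nat_lit 0x242232),.c (nat_lit 7) (nat_lit 2)]]

/-- nodes -/
noncomputable def rD7k_25_21 : List RJ :=
  [.l (nat_lit 12) (nat_lit 960) (nat_lit 4) (nat_lit 0x1ae00000196000001c0000001ea000001d8000001d80000021e0000021e000001e9000001e9000001960000018a0000018a00000254) (nat_lit 0xbe000000a60000006a000000940000007c0000007c00000036000000360000006b0000006b000000ca000000be00000000000000ca)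
    (nat_lit 0xf010817e1482901dc0c01781431430e40cc1ae0d60d80f01501021e41300c216812b12b0cc0c01680cc10214814012c13c12018a0c016d1f30f61021c00f615017e17614016e16e1c017e1cd2531641741400c01301dc16e1201921660ce1a212516116e0cc19e0ca1e429016e13c18619216a1a214d16d19a0c01d80ee16817817e0c01a21a21e81be20d1eb1741800c00c80c20c01c018a16a0ce2021e81d51b30c017821e15412b1432531f316d1611b31eb16616411f1092a11b312b1431cd16d14d1251d520d17a16611f12b20d11f0c00cc1741020c00cc17818012b1090cc0dc1960cc0cc0e41640f619a16e0c017411f11f0c00cc1980c00cc0d60c00f60ee0ca1540c811f1b30c00cc18a0c01681ae1401c01d819e21e0c020d2a119819625418a)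
    (nat_lit 0xf03c03c03c03c03c03c03c03c03c03c03c03c03c01080f03c03c03c03c03c03c03c03c03c03c03c03c017e1501403c03c03c03c03c03c03c03c03c03c03c014810212c1403c03c03c03c03c03c03c03c03c03c02901e413c16e1923c03c03c03c03c03c03c03c03c01dc13012016e1661923c03c03c03c03c03c03c03c00c00c218a1c00ce16a1e83c03c03c03c03c03c03c01781680c017e1a21a21be1e83c03c03c03c03c03c014312b16d1cd12514d20d1d51663c03c03c03c03c014312b1f325316116d1eb1b31641663c03c03c03c00e40cc0f616416e19a1740c011f11f0cc3c03c03c00cc0c01021740cc0c018017810912b0dc0cc3c03c01801681c014018e1d80c021e27320d19618018a3c00d60cc0f60c00ca0ee0c81541b311f0cc0c00c018a)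
    (nat_lit 5) (nat_lit 159)
    [[nat_lit 2,nat_lit 0x1002,nat_lit 17,nat_lit 33,nat_lit 0x1011,nat_lit 0x100011,nat_lit 0x1000011,
    nat_lit 0x10011,nat_lit 0x1001,nat_lit 0x1021,nat_lit 0x1111,nat_lit 0x11011,nat_lit 0x101011,nat_lit 0x1001011,
    nat_lit 0x1101,nat_lit 0x2001,nat_lit 0x11001,nat_lit 0x111001,nat_lit 0x101001,nat_lit 0x1001001,
    nat_lit 0x1001002,nat_lit 0x1002001,nat_lit 0x1011001,nat_lit 0x1101001,nat_lit 0x2001001,nat_lit 0x10001,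
    nat_lit 0x110001,nat_lit 0x100001,nat_lit 0x200001,nat_lit 0x1100001,nat_lit 0x1000001,nat_lit 0x2000001],
    [nat_lit 32,nat_lit 48,nat_lit 64,nat_lit 0x1000030,nat_lit 0x10030,nat_lit 288,nat_lit 0x1020,nat_lit 0x10020,
    nat_lit 0x100020,nat_lit 0x1000020,nat_lit 0x1010020,nat_lit 0x2000020,nat_lit 0x10120,nat_lit 0x20020,
    nat_lit 272,nat_lit 528,nat_lit 0x10110,nat_lit 0x1000110,nat_lit 0x1010,nat_lit 0x11010,nat_lit 0x1001010,
    nat_lit 0x101010,nat_lit 0x111010,nat_lit 0x1101010,nat_lit 0x10010,nat_lit 0x1010010,nat_lit 0x100010,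
    nat_lit 0x110010,nat_lit 0x200010,nat_lit 0x1100010,nat_lit 0x1000010,nat_lit 0x2000010,nat_lit 0x3000010],
    [nat_lit 512,nat_lit 0x10100,nat_lit 0x1000100,nat_lit 0x2000100],[nat_lit 0x11000,nat_lit 0x111000,
    nat_lit 0x101000,nat_lit 0x1001000,nat_lit 0x1002000,nat_lit 0x1011000,nat_lit 0x1101000,nat_lit 0x2001000],
    [nat_lit 0x20000,nat_lit 0x110000],[nat_lit 0x200000,nat_lit 0x1100000,nat_lit 0x2100000],[nat_lit 0x2000000,
    nat_lit 0x3000000]]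
    [.c (nat_lit 1) (nat_lit 2),.c (nat_lit 0) (nat_lit 0xa500083),.c (nat_lit 0) (nat_lit 0x6300043),
    .c (nat_lit 0) (nat_lit 0xa500083),.c (nat_lit 0) (nat_lit 0x6300043),.c (nat_lit 0) (nat_lit 0xa500c83),
    .r (nat_lit 0x174e) (nat_lit 8) [nat_lit 0x6000861,nat_lit 0x4000001],.c (nat_lit 0) (nat_lit 0x510085),
    .c (nat_lit 0) (nat_lit 0x6300043),.c (nat_lit 2) (nat_lit 0x4200062),.c (nat_lit 1) (nat_lit 0x6000843),
    .c (nat_lit 5) (nat_lit 0x4200062),.c (nat_lit 1) (nat_lit 0x4200862),.c (nat_lit 5) (nat_lit 0x300043),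
    .c (nat_lit 0) (nat_lit 0x300c02),.c (nat_lit 0) (nat_lit 0xa500083),.c (nat_lit 5) (nat_lit 0xc210062),
    .r (nat_lit 0x15a4) (nat_lit 4) [nat_lit 0x100000001,nat_lit 0x18041,nat_lit 0x8010061,nat_lit 0x14a019061],
    .c (nat_lit 0) (nat_lit 0xa500c83),.c (nat_lit 5) (nat_lit 0x8210062),
    .r (nat_lit 8) (nat_lit 8) [nat_lit 0x104218c41,nat_lit 0x4010001],
    .r (nat_lit 0x174e) (nat_lit 8) [nat_lit 0x104200c41,nat_lit 0x4000001],.c (nat_lit 2) (nat_lit 0x300043),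
    .r (nat_lit 8) (nat_lit 8) [nat_lit 0x104200c41,nat_lit 0x4010001],.c (nat_lit 0) (nat_lit 0x4210062),
    .c (nat_lit 0) (nat_lit 0x510085),.r (nat_lit 0x1b36) (nat_lit 11) [nat_lit 0x18001,nat_lit 0x10041,
    nat_lit 0x4010001],.c (nat_lit 1) (nat_lit 0x802),.r (nat_lit 0x1c79) (nat_lit 5) [nat_lit 0x18041,
    nat_lit 0x20041,nat_lit 0xc010061],.r (nat_lit 0x1c5d) (nat_lit 4) [nat_lit 0x10041,nat_lit 0x8010061,
    nat_lit 0x18041],.c (nat_lit 0) (nat_lit 0xa518085),.c (nat_lit 4) (nat_lit 0x6318043),.c (nat_lit 2) (nat_lit 2),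
    .r (nat_lit 0x1ce4) (nat_lit 13) [nat_lit 0x300042,nat_lit 0x4010001],
    .r (nat_lit 0xbc0) (nat_lit 4) [nat_lit 0x900042,nat_lit 0x10000001,nat_lit 0x400800062,nat_lit 0x26204a061,
    nat_lit 65],.r (nat_lit 0xbc1) (nat_lit 4) [nat_lit 0x700041,nat_lit 0x1c000001,nat_lit 0x380600061,
    nat_lit 0x3fa37b8a1,nat_lit 0x200081],.r (nat_lit 0xbc2) (nat_lit 4) [nat_lit 0xc0700041,nat_lit 0x14000001,
    nat_lit 0x300600061,nat_lit 0x1ea25a8a1,nat_lit 0x140300081],.r (nat_lit 0x1cfe) (nat_lit 5) [nat_lit 0x80000001,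
    nat_lit 0x4010001,nat_lit 65],.c (nat_lit 0) (nat_lit 0xa500083),
    .r (nat_lit 0x1ce4) (nat_lit 13) [nat_lit 0xc0300041,nat_lit 0x4010001],.c (nat_lit 0) (nat_lit 0xa500c83),
    .r (nat_lit 0xbc2) (nat_lit 4) [nat_lit 0x500041,nat_lit 0x14000001,nat_lit 0x280400061,nat_lit 0x2ea35a8a1,
    nat_lit 0x200081],.c (nat_lit 5) (nat_lit 0x14020003),.c (nat_lit 5) (nat_lit 0x18020003),
    .c (nat_lit 0) (nat_lit 0x12919484),.c (nat_lit 5) (nat_lit 0x10020003),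
    .r (nat_lit 0x1750) (nat_lit 13) [nat_lit 65,nat_lit 0x80000001],.c (nat_lit 0) (nat_lit 0xa901482),
    .c (nat_lit 0) (nat_lit 0x12919484),.c (nat_lit 0) (nat_lit 0xa911484),.c (nat_lit 0) (nat_lit 0x6300043),
    .c (nat_lit 0) (nat_lit 0x510085),.r (nat_lit 8) (nat_lit 8) [nat_lit 0x6018861,nat_lit 0x4010001],
    .c (nat_lit 0) (nat_lit 0x6300c43),.c (nat_lit 5) (nat_lit 0x4200862),.c (nat_lit 5) (nat_lit 0x300c43),
    .c (nat_lit 0) (nat_lit 0x8010005),.c (nat_lit 5) (nat_lit 0xc010003),.c (nat_lit 0) (nat_lit 0x6300c43),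
    .c (nat_lit 0) (nat_lit 0x511485),.c (nat_lit 0) (nat_lit 0xa501483),
    .r (nat_lit 0x174e) (nat_lit 8) [nat_lit 0x6018861,nat_lit 0x4000001],
    .r (nat_lit 0x1ce4) (nat_lit 13) [nat_lit 65,nat_lit 0x4010001],.c (nat_lit 5) (nat_lit 0x10010003),
    .c (nat_lit 0) (nat_lit 0x30004),.c (nat_lit 3) (nat_lit 2),.c (nat_lit 0) (nat_lit 0x12919484),
    .c (nat_lit 0) (nat_lit 0xa911484),.c (nat_lit 0) (nat_lit 0x6510c42),.c (nat_lit 0) (nat_lit 0x510085),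
    .c (nat_lit 5) (nat_lit 0xc210862),.c (nat_lit 0) (nat_lit 0x6300c43),.c (nat_lit 0) (nat_lit 0xa518085),
    .r (nat_lit 0x1526) (nat_lit 5) [nat_lit 0x100200001,nat_lit 0x108201481,nat_lit 0x8020001,nat_lit 0x2525020a1],
    .c (nat_lit 0) (nat_lit 0x6000002),.c (nat_lit 5) (nat_lit 0x8210862),.c (nat_lit 1) (nat_lit 0x6318043),
    .c (nat_lit 5) (nat_lit 2),.c (nat_lit 0) (nat_lit 0x511485),.c (nat_lit 6) (nat_lit 2),
    .c (nat_lit 0) (nat_lit 0xa519485),.c (nat_lit 4) (nat_lit 0x6318c43),.c (nat_lit 7) (nat_lit 2),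
    .c (nat_lit 0) (nat_lit 0x30004)],
    .l (nat_lit 13) (nat_lit 0x4b0) (nat_lit 4) (nat_lit 0x25100000251000001cd000001cd00000225000002250000026200000262000001db000001db000001e1000001e1000001cd000001cd) (nat_lit 0x110000001100000095000000950000003d0000003d0000000000000000000000870000008700000081000000810000009500000095)
    (nat_lit 0x12009003781bc09e08504be2510e503203a01d00de06f04802400de06f031821412f894439410c0e807403781bc0de06f02701380c806405162550a304e029814c09c04e03781bc09c04e032019012d88942702400a604c827013810a08503201900c807a02562250dc04403481b20c8064031813c0c806403d019011288944202680c80690320190128894444a25511288943302620ed876c3c216f15287844be25f12d8a2c44a12b0c206603b61db07383d459e20b086032048013813404403b61db12008c823815a09c09003941ca09c05184201b80ed876c2702400c1056828c1380e8074026414c0d206c81ea16f0ad05682dc17c0a604903a01d00a605303201a4073878430411c0b005b829814c0de06f02701380c806404161e109c090029812409c04e03781bc09c04e03201901678a9428c1380a60530270138)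
    (nat_lit 0x12012c09604b025812c09604b025812c09604b025812c048024025812c09604b025812c09604b025812c09604b00de06f02704b025812c09604b025812c09604b025812c03781bc09c04e09604b025812c09604b025812c09604b009e06303201900c812c09604b025812c09604b025812c04282140c806403d019025812c09604b025812c09604b012f897c51625b09588943304b025812c09604b025812c04a225112a889444a22513106609604b025812c09604b00e5072828c1380dc08403b61db12012c09604b025812c019010c09c09002202480ed876c3a824025812c09604b00e8074029814c0d206403c20e708e06082dc4b025812c03a01d00a604c83641a40b783d42b415a0be05b89604b00de06f02701380c8064054a23309c051829814c09c12c03781bc09c04e03201900f0882c4801380920530270138)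
    (nat_lit 5) (nat_lit 79)
    [[nat_lit 2,nat_lit 3,nat_lit 18,nat_lit 258,nat_lit 0x10002,nat_lit 0x100002,nat_lit 17,nat_lit 33,nat_lit 273,
    nat_lit 0x1011,nat_lit 0x10011,nat_lit 0x100011,nat_lit 257,nat_lit 0x10101,nat_lit 0x100101,nat_lit 0x1000101,
    nat_lit 0x1000201,nat_lit 0x10001,nat_lit 0x110001,nat_lit 0x1010001,nat_lit 0x11001,nat_lit 0x100001,
    nat_lit 0x200001,nat_lit 0x1000001],[nat_lit 32,nat_lit 48,nat_lit 288,nat_lit 0x1020,nat_lit 0x100020,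
    nat_lit 272,nat_lit 528,nat_lit 0x1110,nat_lit 0x10110,nat_lit 0x100110,nat_lit 0x1000110,nat_lit 0x1010,
    nat_lit 0x2010,nat_lit 0x2020,nat_lit 0x101010,nat_lit 0x10010,nat_lit 0x110010,nat_lit 0x11010,nat_lit 0x100010,
    nat_lit 0x200010,nat_lit 0x1000010],[nat_lit 512,nat_lit 0x1010200,nat_lit 0x1000200,nat_lit 0x1100,
    nat_lit 0x10100,nat_lit 0x110100,nat_lit 0x1010100,nat_lit 0x100100,nat_lit 0x1100200,nat_lit 0x200100,
    nat_lit 0x1100100,nat_lit 0x1000100],[nat_lit 0x2000,nat_lit 0x11000],[nat_lit 0x20000,nat_lit 0x110000,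
    nat_lit 0x210000,nat_lit 0x1010000,nat_lit 0x1110000],[nat_lit 0x200000,nat_lit 0x300000,nat_lit 0x1100000],
    [nat_lit 0x2000000]]
    [.c (nat_lit 1) (nat_lit 2),.r (nat_lit 0x1c79) (nat_lit 12) [nat_lit 65,nat_lit 0x38041,nat_lit 0xc030061],
    .r (nat_lit 0x1b36) (nat_lit 4) [nat_lit 0x10001,nat_lit 0x28041,nat_lit 0x4000001],
    .r (nat_lit 0x1caf) (nat_lit 5) [nat_lit 0x4010001,nat_lit 0x6028041],
    .r (nat_lit 32) (nat_lit 12) [nat_lit 0xa301062,nat_lit 0x4010001],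
    .r (nat_lit 0x1c79) (nat_lit 12) [nat_lit 0x10041,nat_lit 0x28041,nat_lit 0xc020061],
    .r (nat_lit 0x1750) (nat_lit 4) [nat_lit 65,nat_lit 0x4000001],.r (nat_lit 0x1c71) (nat_lit 4) [nat_lit 0x10001,
    nat_lit 0x18041,nat_lit 0x4000001],.r (nat_lit 0x1cdb) (nat_lit 3) [nat_lit 0x4010061,nat_lit 0x18041],
    .c (nat_lit 0) (nat_lit 0x300c02),.r (nat_lit 32) (nat_lit 12) [nat_lit 0x6000861,nat_lit 0x4010001],
    .r (nat_lit 0x1b36) (nat_lit 4) [nat_lit 0x10001,nat_lit 0x18041,nat_lit 0x4000001],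
    .c (nat_lit 0) (nat_lit 0x518085),.r (nat_lit 0x1c88) (nat_lit 4) [nat_lit 0x10001,nat_lit 0x6000861,
    nat_lit 0x4000001],.r (nat_lit 0x1caf) (nat_lit 5) [nat_lit 0x4010001,nat_lit 0x6018041],
    .c (nat_lit 2) (nat_lit 0x210062),.r (nat_lit 0x174e) (nat_lit 4) [nat_lit 0x4200c41,nat_lit 0x4010001],
    .r (nat_lit 0x1b04) (nat_lit 0) [nat_lit 0x18041,nat_lit 0x4010001],
    .r (nat_lit 32) (nat_lit 12) [nat_lit 0xa319062,nat_lit 0x4010001],
    .r (nat_lit 0x174e) (nat_lit 4) [nat_lit 0x6000861,nat_lit 0x4010001],.c (nat_lit 2) (nat_lit 0x210803),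
    .c (nat_lit 1) (nat_lit 0x802),.r (nat_lit 0x1c79) (nat_lit 12) [nat_lit 0x20041,nat_lit 0x18041,
    nat_lit 0xc010061],.c (nat_lit 0) (nat_lit 0x518085),.c (nat_lit 2) (nat_lit 2),
    .r (nat_lit 0x1522) (nat_lit 11) [nat_lit 0x1a739841,nat_lit 0xc030001,nat_lit 65,nat_lit 0x6000a1],
    .r (nat_lit 0x1cef) (nat_lit 13) [nat_lit 0x18001,nat_lit 0x4010001,nat_lit 0x4000c41],
    .r (nat_lit 0x1b04) (nat_lit 0) [nat_lit 0x4200061,nat_lit 0x4010001],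
    .r (nat_lit 0x1c71) (nat_lit 4) [nat_lit 0x10001,nat_lit 65,nat_lit 0x4000001],
    .r (nat_lit 0x174f) (nat_lit 4) [nat_lit 0x4010001,nat_lit 65],
    .r (nat_lit 0x1523) (nat_lit 4) [nat_lit 0x2234a0a1,nat_lit 0x10000001,nat_lit 0x300081,nat_lit 0x400001],
    .r (nat_lit 0x1b7a) (nat_lit 12) [nat_lit 0x4010061,nat_lit 0x4000061,nat_lit 65],
    .r (nat_lit 0x1524) (nat_lit 9) [nat_lit 0x300081,nat_lit 0x8020001,nat_lit 0x28001,nat_lit 0xa0010a1],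
    .r (nat_lit 0x1cdb) (nat_lit 3) [nat_lit 0x4000061,nat_lit 65],.r (nat_lit 0x1c74) (nat_lit 11) [nat_lit 0x18001,
    nat_lit 0x6000861,nat_lit 0x4010001],.r (nat_lit 32) (nat_lit 12) [nat_lit 0xa318841,nat_lit 0x4010001],
    .r (nat_lit 0x1525) (nat_lit 4) [nat_lit 0x102000a1,nat_lit 0x300081,nat_lit 0x2274a081,nat_lit 0x400001],
    .c (nat_lit 0) (nat_lit 0x929482),.c (nat_lit 0) (nat_lit 0x300002),.c (nat_lit 0) (nat_lit 0x10003),
    .r (nat_lit 32) (nat_lit 12) [nat_lit 0x6018861,nat_lit 0x4010001],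
    .r (nat_lit 0x1750) (nat_lit 4) [nat_lit 0x4210061,nat_lit 0x4000001],
    .r (nat_lit 0x1750) (nat_lit 4) [nat_lit 0x10041,nat_lit 0x4000001],
    .r (nat_lit 0x1b36) (nat_lit 4) [nat_lit 0x10001,nat_lit 65,nat_lit 0x4000001],
    .r (nat_lit 0x1d00) (nat_lit 11) [nat_lit 0x18001,nat_lit 0x2000a1,nat_lit 0x4010001,nat_lit 65],
    .c (nat_lit 3) (nat_lit 2),.r (nat_lit 0x1c5d) (nat_lit 11) [nat_lit 0xa329061,nat_lit 0x10221441,
    nat_lit 0xa301061],.r (nat_lit 0x1526) (nat_lit 12) [nat_lit 0x200001,nat_lit 0x8221481,nat_lit 0x8000001,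
    nat_lit 0x1254a0a1],.r (nat_lit 0x1bdf) (nat_lit 13) [nat_lit 65,nat_lit 0x200c41],
    .r (nat_lit 0x1ce4) (nat_lit 6) [nat_lit 65,nat_lit 0x4000001],.r (nat_lit 0x1c88) (nat_lit 4) [nat_lit 0x10001,
    nat_lit 0x6018861,nat_lit 0x4000001],.r (nat_lit 8) (nat_lit 5) [nat_lit 0x6000861,nat_lit 0x4000001],
    .c (nat_lit 0) (nat_lit 0x519485),.r (nat_lit 0x174e) (nat_lit 4) [nat_lit 0x4210c41,nat_lit 0x4010001],
    .r (nat_lit 0x1caf) (nat_lit 5) [nat_lit 0x4010001,nat_lit 0x6000041],.c (nat_lit 2) (nat_lit 0x210862),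
    .c (nat_lit 0) (nat_lit 0x519485),.c (nat_lit 4) (nat_lit 2),.r (nat_lit 0x1c71) (nat_lit 4) [nat_lit 0x10001,
    nat_lit 0x4200061,nat_lit 0x4000001],.c (nat_lit 5) (nat_lit 2),.r (nat_lit 0x1b04) (nat_lit 0) [nat_lit 65,
    nat_lit 0x4010001],.r (nat_lit 32) (nat_lit 12) [nat_lit 0xa329062,nat_lit 0x4010001],
    .r (nat_lit 0x1ce4) (nat_lit 5) [nat_lit 0x4000001,nat_lit 65],.r (nat_lit 0x174e) (nat_lit 4) [nat_lit 0x6018861,
    nat_lit 0x4010001],.c (nat_lit 6) (nat_lit 2),.r (nat_lit 0x1c79) (nat_lit 12) [nat_lit 0x30041,nat_lit 65,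
    nat_lit 0xc000061],.c (nat_lit 0) (nat_lit 0x519485),.c (nat_lit 7) (nat_lit 2)]]

/-- nodes -/
noncomputable def rD7k_25_22 : List RJ :=
  [.l (nat_lit 16) (nat_lit 0x2238) (nat_lit 4) (nat_lit 0xe6200000e6200000d5e00000d5e00000da400000da400000e0800000e0800000e4900000e4900000c9100000c9100000d5c00000f68) (nat_lit 0x106000001060000020a0000020a000001c4000001c400000160000001600000011f0000011f000002d7000002d7000000000000020c)
    (nat_lit 0xca80d5c0c580f0a13ce132407da0d020d430d39087f07f30e620f080d5c0ca80c4e0c580f140e6a0cd00db60e470ebf0be50b590bb00c560c580f0a09880b540ae60ba40a8209880c710c710a8709830e120af80c4e0c580b5409880ce40b9a0c580bfe0c3f0c3f0c850a8706d809540e6a13240b9a0ba40be00be00c440afa0c850c2b0ccb0acd0da4099a0f1413ce0ce40ae60afa0be00d160c440af50c850d1b0c170da40b980db60d020bfe09880c440afa0ca80d8e0b9f0c170b310cc106d809ae0cd007da0c580a820d160c440cb20ca80ce90ce907170b310e120af80ebf0d390c3f0c710c850c2b0ce90c170d2a0d200c760b72137110570e470d430c3f0c710af50c850ce90b9f0d2a0d2a0c760b7211e10ec70b5907f30a8709830c170acd0b310cc10b720b72073009ba0c9109810be5087f0c850a870d1b0ccb07170b310c760c7607bc073009df0a850c560f0809540af80b98099a0af809ae0ec710570a85098110680d4e0bb00e6206d80e120da40da40e1206d811e1137109df0c910f681068)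
    (nat_lit 0xca822382238223822382238223822382238223822382238223822380d5c0ca82238223822382238223822382238223822382238223822380c580c4e0988223822382238223822382238223822382238223822380f0a0c580b540988223822382238223822382238223822382238223813ce0f140ae60ce40be022382238223822382238223822382238223813240e6a0ba40b9a0be00be02238223822382238223822382238223807da0cd00a820c580c440d160ca822382238223822382238223822380d020db609880bfe0afa0c440d8e0ca82238223822382238223822380d430e470c710c3f0c850af50b9f0ce90d2a223822382238223822380d390ebf0c710c3f0c2b0c850c170ce90d200d2a2238223822382238087f0be50a870c850ccb0d1b0b3107170c760c76073022382238223807f30b5909830a870acd0c170cc10b310b720b7209ba0730223822380e620bb00e1206d80da40da406d80e12134911e10c9109df106822380f080c560af80954099a0b9809ae0af810570ec709810a850d4e1068)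
    (nat_lit 4) (nat_lit 79)
    [[nat_lit 2,nat_lit 17,nat_lit 33,nat_lit 0x1011,nat_lit 0x100011,nat_lit 0x1000011,nat_lit 49,nat_lit 0x10011,
    nat_lit 0x1001,nat_lit 0x1021,nat_lit 0x101011,nat_lit 0x2001,nat_lit 0x11001,nat_lit 0x101001,nat_lit 0x1001001,
    nat_lit 0x10001,nat_lit 0x110001,nat_lit 0x100001,nat_lit 0x200001,nat_lit 0x100021,nat_lit 0x100101,
    nat_lit 0x1000001],[nat_lit 32,nat_lit 48,nat_lit 64,nat_lit 288,nat_lit 0x1020,nat_lit 0x10020,nat_lit 0x100020,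
    nat_lit 0x1000020,nat_lit 272,nat_lit 0x1010,nat_lit 0x101010,nat_lit 0x1001010,nat_lit 0x1110,nat_lit 0x2010,
    nat_lit 0x11010,nat_lit 0x10010,nat_lit 0x100010,nat_lit 0x200010,nat_lit 0x1100010,nat_lit 0x1000010,
    nat_lit 0x2000010],[nat_lit 512,nat_lit 0x1100,nat_lit 0x10100,nat_lit 0x100100,nat_lit 0x1000100],
    [nat_lit 0x2000,nat_lit 0x11000,nat_lit 0x101000,nat_lit 0x201000,nat_lit 0x1001000,nat_lit 0x1011000,
    nat_lit 0x1101000],[nat_lit 0x20000,nat_lit 0x110000,nat_lit 0x210000],[nat_lit 0x200000,nat_lit 0x300000,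
    nat_lit 0x1100000],[nat_lit 0x2000000]]
    [.c (nat_lit 1) (nat_lit 2),.c (nat_lit 0) (nat_lit 0x22003),.c (nat_lit 2) (nat_lit 0x33002),
    .c (nat_lit 4) (nat_lit 0x33002),.c (nat_lit 6) (nat_lit 0x33002),.c (nat_lit 5) (nat_lit 0x22203),
    .r (nat_lit 0x1750) (nat_lit 13) [nat_lit 0x753221,nat_lit 0x2001],.c (nat_lit 5) (nat_lit 0x33002),
    .c (nat_lit 0) (nat_lit 0x42003),.c (nat_lit 0) (nat_lit 0x42003),.c (nat_lit 1) (nat_lit 0x30002),
    .r (nat_lit 0x1c01) (nat_lit 3) [nat_lit 0x220001,nat_lit 0x330021,nat_lit 0x2001],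
    .r (nat_lit 0x1ae3) (nat_lit 3) [nat_lit 0x2001,nat_lit 0x303201,nat_lit 0x200321],
    .c (nat_lit 1) (nat_lit 0x2002),.r (nat_lit 0x1c61) (nat_lit 13) [nat_lit 0x220001,nat_lit 0x2001,nat_lit 33],
    .r (nat_lit 0x174e) (nat_lit 1) [nat_lit 0x220001,nat_lit 0x300231],
    .r (nat_lit 0x1ca3) (nat_lit 6) [nat_lit 0x220001,nat_lit 0x333201,nat_lit 0x2321],
    .c (nat_lit 0) (nat_lit 0x42003),.r (nat_lit 0x12d7) (nat_lit 9) [nat_lit 0x757631,nat_lit 0x6001,nat_lit 0x30021,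
    nat_lit 0x40021],.c (nat_lit 0) (nat_lit 0x42003),.c (nat_lit 0) (nat_lit 0x20232),
    .r (nat_lit 0x1750) (nat_lit 1) [nat_lit 33,nat_lit 0x300231],.c (nat_lit 2) (nat_lit 2),
    .r (nat_lit 0x1bf1) (nat_lit 4) [nat_lit 0x660031,nat_lit 33,nat_lit 0xd77621,nat_lit 0x2001],
    .r (nat_lit 0x1750) (nat_lit 13) [nat_lit 0x955422,nat_lit 0x2001],
    .r (nat_lit 0x1cfe) (nat_lit 5) [nat_lit 0x2001,nat_lit 0x303201,nat_lit 33],.c (nat_lit 0) (nat_lit 0x42003),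
    .r (nat_lit 0x12dd) (nat_lit 9) [nat_lit 0x2001,nat_lit 0x303201,nat_lit 33,nat_lit 0x333201],
    .c (nat_lit 0) (nat_lit 0x40003),.r (nat_lit 0x19c3) (nat_lit 10) [nat_lit 0x957421,nat_lit 0x3021,
    nat_lit 0x442031,nat_lit 0x2001],.r (nat_lit 0x1750) (nat_lit 13) [nat_lit 33,nat_lit 0x2001],
    .c (nat_lit 0) (nat_lit 0x20003),.c (nat_lit 0) (nat_lit 0x20003),.r (nat_lit 8) (nat_lit 8) [nat_lit 0x202031,
    nat_lit 0x303201],.r (nat_lit 0x1cff) (nat_lit 9) [nat_lit 0x422301,nat_lit 0x200031,nat_lit 0x303201,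
    nat_lit 0x2001],.c (nat_lit 0) (nat_lit 0x40003),.r (nat_lit 0x12d8) (nat_lit 4) [nat_lit 0x2001,nat_lit 0x200031,
    nat_lit 33,nat_lit 0x533201],.r (nat_lit 0x19b4) (nat_lit 4) [nat_lit 0x222031,nat_lit 0x535221,nat_lit 33],
    .c (nat_lit 0) (nat_lit 0x20003),.c (nat_lit 0) (nat_lit 0x40003),
    .r (nat_lit 0x1ced) (nat_lit 2) [nat_lit 0x220001,nat_lit 0x333201,nat_lit 0x2321],
    .r (nat_lit 0x1bab) (nat_lit 6) [nat_lit 0x424331,nat_lit 33,nat_lit 0x303201],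
    .r (nat_lit 0x12db) (nat_lit 6) [nat_lit 0x50001,nat_lit 0x505401,nat_lit 0x440001,nat_lit 0x330021],
    .c (nat_lit 3) (nat_lit 2),.c (nat_lit 0) (nat_lit 0x33323),.r (nat_lit 0x1750) (nat_lit 1) [nat_lit 0x300231,
    nat_lit 33],.c (nat_lit 0) (nat_lit 0x33323),.r (nat_lit 0x174e) (nat_lit 1) [nat_lit 0x220001,nat_lit 33],
    .c (nat_lit 4) (nat_lit 2),.r (nat_lit 4) (nat_lit 10) [nat_lit 0x220001,nat_lit 33],
    .c (nat_lit 0) (nat_lit 0x3003),.c (nat_lit 0) (nat_lit 0x40003),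
    .r (nat_lit 0x12de) (nat_lit 11) [nat_lit 0x303201,nat_lit 33,nat_lit 0x2001,nat_lit 0x333201],
    .c (nat_lit 0) (nat_lit 770),.r (nat_lit 0x1750) (nat_lit 1) [nat_lit 0x20021,nat_lit 0x330231],
    .c (nat_lit 5) (nat_lit 2),.r (nat_lit 4) (nat_lit 1) [nat_lit 0x220001,nat_lit 33],
    .r (nat_lit 0x1184) (nat_lit 7) [nat_lit 0x4001,nat_lit 0x3021,nat_lit 0x505401,nat_lit 0x844501],
    .c (nat_lit 6) (nat_lit 2),.r (nat_lit 0x12dc) (nat_lit 7) [nat_lit 0x6001,nat_lit 33,nat_lit 0x707601,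
    nat_lit 0xc66701],.r (nat_lit 0x1ae0) (nat_lit 2) [nat_lit 0x220001,nat_lit 0x222321,nat_lit 0x333201],
    .c (nat_lit 7) (nat_lit 2)],
    .l (nat_lit 15) (nat_lit 0x12c0) (nat_lit 3) (nat_lit 0x9d8000009a00000094c0000094c0000096000000de800000b0c00000ac400000bd60000094c00000999000009990000094c00000b5c) (nat_lit 0x448000004100000049c0000049c000000000000048800000324000002dc0000049c000002120000044f0000044f0000028c0000049c)
    (nat_lit 0xf40172029e04b01b501d8035a06fc09b023e02c4857f0e9813382ac07a00a0814105b005180cf81b10296083a0aa215443d005220a0812c025804b0129813102be04b009601ce826f84d5096012c0282053c096012c04a604c40a2819c025804b009fa13f425804b00a301d8026204c412c0136046306840988218828885110da813105b00da8129825306f4096015882c302580a5e133226645ae054a0d881bf033804b016181a104b008300ce023e855f8b59096019c033e06b40a2815f056208c60f40258025808b20ece200438304b0107423e0258073a14bc218845908fa0b5c271047f88ff1294192029604d8096012c025804c4096019c025805ae0a0e13f436504b00aa215fc27e84d5133214444008b5909fa23fc2a5054a0ee213cc2a8858909fa137c4cc85110ece2afc28388ff0a9415283bd84fd0a44133825804b00a94131025806700960192027e84f30d8012c03d0074c096012c05ae06d40e0c12c0365094a0ef61dc446806c0)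
    (nat_lit 0xf404b0096012c025804b0096012c025804b0096012c025804b002e407a025804b0096012c025804b0096012c025804b0096012c00a78141025812c025804b0096012c025804b0096012c025804b002580504096012c096012c025804b0096012c025804b0096012c01b502d804a6094c12c04b0096012c025804b0096012c025804b003b005180988131026c096025804b0096012c025804b0096012c00d6819f02be0514118c2b104b012c025804b0096012c025804b0037e06c4096019c03420b0c1060258096012c025804b0096012c009b014b025804b0098812c033804b00b5c4b0096012c025804b0047c083a0e7412c04310a5e11f422c84e205ae25804b0096012c00b12154426f84fd0a2226644d6876711fe141c2a512c025804b002bf855109aa13f42888999135a200447f84fd0a94152896012c00e981e8025804b00da82d70258070612941b283b8877b0d804b002670522096012c0262054a0ce012c032404b009e613f425806c0)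
    (nat_lit 3) (nat_lit 61)
    [[nat_lit 2,nat_lit 0x1002,nat_lit 0x100002,nat_lit 17,nat_lit 33,nat_lit 0x10011,nat_lit 0x100011,
    nat_lit 0x1000011,nat_lit 257,nat_lit 0x10101,nat_lit 0x100101,nat_lit 0x1001,nat_lit 0x1011,nat_lit 0x1101,
    nat_lit 0x101001,nat_lit 0x1001001,nat_lit 0x10001,nat_lit 0x100001,nat_lit 0x110001,nat_lit 0x200001,
    nat_lit 0x1100001,nat_lit 0x1000001,nat_lit 0x1010001,nat_lit 0x2000001],[nat_lit 32,nat_lit 48,nat_lit 0x100020,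
    nat_lit 0x1000020,nat_lit 272,nat_lit 0x100110,nat_lit 0x101010,nat_lit 0x10010,nat_lit 0x100010,nat_lit 0x200010,
    nat_lit 0x1100010,nat_lit 0x1000010,nat_lit 0x2000010],[nat_lit 512,nat_lit 768,nat_lit 0x100200,nat_lit 0x1100,
    nat_lit 0x101100,nat_lit 0x10100,nat_lit 0x110100,nat_lit 0x100100,nat_lit 0x200100,nat_lit 0x1100100,
    nat_lit 0x1000100],[nat_lit 0x2000,nat_lit 0x11000,nat_lit 0x101000,nat_lit 0x201000,nat_lit 0x1101000,
    nat_lit 0x1001000],[nat_lit 0x110000],[nat_lit 0x200000,nat_lit 0x300000,nat_lit 0x1200000,nat_lit 0x1100000,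
    nat_lit 0x2100000],[nat_lit 0x2000000]]
    [.c (nat_lit 1) (nat_lit 2),.r (nat_lit 0x1bec) (nat_lit 4) [nat_lit 0xc3011,nat_lit 0x2401],
    .c (nat_lit 0) (nat_lit 0x17ff5),.c (nat_lit 0) (nat_lit 0x3613),.c (nat_lit 0) (nat_lit 322),
    .c (nat_lit 2) (nat_lit 0x1b082),.r (nat_lit 0x1d02) (nat_lit 7) [nat_lit 0x10001,nat_lit 0x2419,nat_lit 0x1b681],
    .c (nat_lit 0) (nat_lit 0x100c2),.c (nat_lit 0) (nat_lit 0x136d3),.c (nat_lit 0) (nat_lit 0x106d3),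
    .c (nat_lit 0) (nat_lit 0x36d3),.c (nat_lit 0) (nat_lit 0x30d3),.c (nat_lit 0) (nat_lit 0x6c2),
    .c (nat_lit 2) (nat_lit 0x3093),.c (nat_lit 1) (nat_lit 0x602),.c (nat_lit 5) (nat_lit 0x14403),
    .c (nat_lit 6) (nat_lit 0x1b002),.c (nat_lit 0) (nat_lit 0x36d3),.r (nat_lit 32) (nat_lit 13) [nat_lit 0x3699,
    nat_lit 0xd8411],.c (nat_lit 0) (nat_lit 0x1fff5),.r (nat_lit 0xe99) (nat_lit 6) [nat_lit 0x2001,nat_lit 0x1b681,
    nat_lit 0x401,nat_lit 17],.r (nat_lit 0x1bec) (nat_lit 4) [nat_lit 17,nat_lit 0x2401],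
    .c (nat_lit 0) (nat_lit 0x3002),.r (nat_lit 0x17de) (nat_lit 13) [nat_lit 17,nat_lit 0x140019,nat_lit 0xd8401,
    nat_lit 0x83681],.c (nat_lit 2) (nat_lit 2),.c (nat_lit 0) (nat_lit 450),.c (nat_lit 2) (nat_lit 130),
    .c (nat_lit 0) (nat_lit 0x20142),.c (nat_lit 0) (nat_lit 0x3613),.c (nat_lit 5) (nat_lit 0x1441a),
    .c (nat_lit 2) (nat_lit 0x602),.r (nat_lit 0x174e) (nat_lit 3) [nat_lit 0x611,nat_lit 0x12419],
    .r (nat_lit 32) (nat_lit 13) [nat_lit 0xdb099,nat_lit 17],.r (nat_lit 0x1cdb) (nat_lit 6) [nat_lit 0xa00d1,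
    nat_lit 0xd8099],.c (nat_lit 3) (nat_lit 0x1b613),.c (nat_lit 0) (nat_lit 0x100c2),
    .c (nat_lit 0) (nat_lit 0x100c2),.c (nat_lit 3) (nat_lit 2),.r (nat_lit 0x10a4) (nat_lit 5) [nat_lit 0x30001,
    nat_lit 0x186001,nat_lit 17,nat_lit 0x1c0c01],.c (nat_lit 0) (nat_lit 0x5b63),.c (nat_lit 0) (nat_lit 0x30d3),
    .c (nat_lit 3) (nat_lit 0x602),.c (nat_lit 0) (nat_lit 0x106d3),.r (nat_lit 0x1898) (nat_lit 12) [nat_lit 0x2401,
    nat_lit 0x10619,nat_lit 0x90a19,nat_lit 0x411],.c (nat_lit 0) (nat_lit 0x1b6d5),.c (nat_lit 0) (nat_lit 0x1d6d3),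
    .c (nat_lit 2) (nat_lit 0x1b613),.c (nat_lit 2) (nat_lit 0x1b693),.c (nat_lit 4) (nat_lit 2),
    .c (nat_lit 0) (nat_lit 0x12403),.c (nat_lit 0) (nat_lit 0x403),.c (nat_lit 6) (nat_lit 0x602),
    .c (nat_lit 5) (nat_lit 0x2403),.r (nat_lit 0x174e) (nat_lit 3) [nat_lit 0x12019,nat_lit 17],
    .r (nat_lit 2) (nat_lit 3) [nat_lit 0x12019,nat_lit 17],.c (nat_lit 6) (nat_lit 2),
    .r (nat_lit 0x10a4) (nat_lit 10) [nat_lit 0x6c01,nat_lit 0x1b0e01,nat_lit 17,nat_lit 0x1c0c01],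
    .c (nat_lit 0) (nat_lit 0x1b6d3),.c (nat_lit 1) (nat_lit 0x10002),
    .r (nat_lit 0x1898) (nat_lit 12) [nat_lit 0x2401,nat_lit 0x920d1,nat_lit 0x1126d1,nat_lit 0xc3099],
    .c (nat_lit 7) (nat_lit 2)]]

/-- nodes -/
noncomputable def rD7k_25_23 : List RJ :=
  [.l (nat_lit 15) (nat_lit 0x13b0) (nat_lit 5) (nat_lit 0x76c0000076c0000085600000856000007cc000007cc0000098000000980000008f7000008f700000736000007360000089700000897) (nat_lit 0x214000002140000012a0000012a000001b4000001b4000000000000000000000089000000890000024a0000024a000000e9000000e9)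
    (nat_lit 0xe58205832108160b7016e01eb05020c9a188c2b102b40d061f542ac072c0c84190816504ce0ed81db037185f50a44168025786eb0c84205840b072c0d441a884a20b440e9e1f342d2060c0b321db43210642100020582b006a210d829b035c85cb0d1c17d83b685d7099c16e035106a2080415104e7090e0eb21cb438c06960dc6198416505b80ac01a8833604020f981f303a187430bac12504a688cb0ed814085360b440f9824384c0092c13ca23dc2a70736112e210c3b603d610d825103e609ce1300260047b88f70c1c1cd84ab87810bea188c2e587cd0e861cb447b88f710dc21b83e186ad174824d8371864d0d721d3c3a1875911ee27943ce086e0fde1ab453e080e0b400ad02fb060c09281a5839b07360d5a1ab427605be0dc6142c29105620d1c16902eb07180c1c15383f787c3083413b027d864d0dd61f542eb876d119619843c08843101c24d8326850b0edc220025786830eda16644a686e312ae225c53e0ba409f61b8c278076e)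
    (nat_lit 0xe584ec09d813b027604ec09d813b027604ec09d813b027604ec040b072c27604ec09d813b027604ec09d813b027604ec09d813b00c84190840b13b027604ec09d813b027604ec09d813b027604ec040b06420e5820589d813b027604ec09d813b027604ec09d813b00b700b28351056008044ec09d813b027604ec09d813b027604ec02dc04ce0d441a882a2040227604ec09d813b027604ec09d813b007ac1db04a2086c11481a804c013b027604ec09d813b027604ec0281076c168829b048707cc125826009d813b027604ec09d813b00c9a1b8c3a786b90eb21d0c4f288f710dc4ec09d813b027604ec031185f50f9a172c396874311ee23dc437086e27604ec09d813b00ac414882d2068e0e3017582a7060e0f861fbc27613b027604ec015a05a00c1817d834b04940e6c1cd835686ad0b7c13b09d813b00d0612bc2cc876d0dc6253444b888515a429f037184fb0edc4ec03ea86eb0eda175c33088cb10861e0449b080e0a161934440076e)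
    (nat_lit 4) (nat_lit 137)
    [[nat_lit 2,nat_lit 18,nat_lit 0x100002,nat_lit 34,nat_lit 17,nat_lit 33,nat_lit 0x10011,nat_lit 0x100011,
    nat_lit 0x1000011,nat_lit 0x1000021,nat_lit 0x1010011,nat_lit 0x1001,nat_lit 0x1001001,nat_lit 0x10001,
    nat_lit 0x110001,nat_lit 0x1010001,nat_lit 0x100001,nat_lit 0x100101,nat_lit 0x200001,nat_lit 0x1100001,
    nat_lit 0x1000001,nat_lit 0x1100011,nat_lit 0x1000101,nat_lit 0x1001011],[nat_lit 32,nat_lit 48,nat_lit 0x1000030,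
    nat_lit 288,nat_lit 0x1020,nat_lit 0x10020,nat_lit 0x1010020,nat_lit 0x100020,nat_lit 0x1100020,nat_lit 0x1000020,
    nat_lit 0x2000020,nat_lit 0x1000120,nat_lit 0x20020,nat_lit 0x1020020,nat_lit 0x2010020,nat_lit 272,
    nat_lit 0x1000110,nat_lit 0x1010,nat_lit 0x1001010,nat_lit 0x1011010,nat_lit 0x2011010,nat_lit 0x2001010,
    nat_lit 0x10010,nat_lit 0x20010,nat_lit 0x1020010,nat_lit 0x110010,nat_lit 0x1010010,nat_lit 0x2010010,
    nat_lit 0x100010,nat_lit 0x100110,nat_lit 0x1110010,nat_lit 0x1100010,nat_lit 0x1000010,nat_lit 0x2020010,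
    nat_lit 0x2000010],[nat_lit 512,nat_lit 0x1100,nat_lit 0x10100,nat_lit 0x20100,nat_lit 0x1010100,nat_lit 0x100100,
    nat_lit 0x1100100,nat_lit 0x1000100,nat_lit 0x2000100],[nat_lit 0x2000,nat_lit 0x11000,nat_lit 0x1011000,
    nat_lit 0x1001000,nat_lit 0x2011000,nat_lit 0x2001000],[nat_lit 0x20000,nat_lit 0x30000,nat_lit 0x40000,
    nat_lit 0x1030000,nat_lit 0x120000,nat_lit 0x1020000,nat_lit 0x110000,nat_lit 0x1110000,nat_lit 0x210000,
    nat_lit 0x1010000,nat_lit 0x2020000,nat_lit 0x2010000],[nat_lit 0x200000,nat_lit 0x1100000],[nat_lit 0x2000000]]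
    [.c (nat_lit 1) (nat_lit 2),.r (nat_lit 0x1898) (nat_lit 1) [nat_lit 0x2001,nat_lit 0x202321,nat_lit 0x424521,
    nat_lit 0x335431],.c (nat_lit 0) (nat_lit 0x22232),.r (nat_lit 4) (nat_lit 1) [nat_lit 34,nat_lit 0x505432],
    .r (nat_lit 4) (nat_lit 2) [nat_lit 0x303231,nat_lit 33],.r (nat_lit 0x1cfe) (nat_lit 0) [nat_lit 0x2001,
    nat_lit 0x33201,nat_lit 33],.c (nat_lit 4) (nat_lit 0x20432),.c (nat_lit 5) (nat_lit 0x30323),
    .r (nat_lit 0x1d03) (nat_lit 1) [nat_lit 0x30021,nat_lit 0x3231,nat_lit 0x2001,nat_lit 0x202321],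
    .r (nat_lit 0x1cfe) (nat_lit 13) [nat_lit 0x33201,nat_lit 0x2001,nat_lit 0x323231],
    .c (nat_lit 1) (nat_lit 0x3002),.r (nat_lit 0x1c82) (nat_lit 5) [nat_lit 0x30231,nat_lit 33],
    .c (nat_lit 1) (nat_lit 0x33522),.r (nat_lit 32) (nat_lit 4) [nat_lit 0x303231,nat_lit 33],
    .c (nat_lit 2) (nat_lit 0x30323),.r (nat_lit 0x1d02) (nat_lit 10) [nat_lit 0x2001,nat_lit 0x33231,
    nat_lit 0x20001],.c (nat_lit 0) (nat_lit 0x22232),.c (nat_lit 0) (nat_lit 0x24452),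
    .c (nat_lit 0) (nat_lit 0x44452),.c (nat_lit 0) (nat_lit 0x22232),.r (nat_lit 0x1bec) (nat_lit 2) [nat_lit 33,
    nat_lit 0x2001],.c (nat_lit 0) (nat_lit 0x22232),.c (nat_lit 0) (nat_lit 0x2232),
    .r (nat_lit 0x1898) (nat_lit 1) [nat_lit 0x2001,nat_lit 0x33021,nat_lit 0x200321,nat_lit 561],
    .c (nat_lit 2) (nat_lit 2),.r (nat_lit 0x10a4) (nat_lit 6) [nat_lit 0x6001,nat_lit 0x600001,nat_lit 33,
    nat_lit 0x777601],.r (nat_lit 0x10a6) (nat_lit 9) [nat_lit 0x77601,nat_lit 0x66c701,nat_lit 0x60031,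
    nat_lit 0x777601],.r (nat_lit 0x1c63) (nat_lit 9) [nat_lit 33,nat_lit 0x2001,nat_lit 0x202001],
    .r (nat_lit 0x1862) (nat_lit 6) [nat_lit 0x2001,nat_lit 0x33201,nat_lit 33,nat_lit 0x202001],
    .c (nat_lit 0) (nat_lit 0x4003),.c (nat_lit 2) (nat_lit 0x3002),.r (nat_lit 0x189b) (nat_lit 6) [nat_lit 0x2001,
    nat_lit 0x33201,nat_lit 0x3021,nat_lit 0x543031],.r (nat_lit 0x189b) (nat_lit 9) [nat_lit 0x33201,nat_lit 0x2001,
    nat_lit 0x340031,nat_lit 0x305021],.c (nat_lit 0) (nat_lit 0x4003),.c (nat_lit 0) (nat_lit 0x4003),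
    .r (nat_lit 0x189b) (nat_lit 6) [nat_lit 0x2001,nat_lit 0x33201,nat_lit 0x303021,nat_lit 0x343031],
    .c (nat_lit 0) (nat_lit 0x4003),.c (nat_lit 0) (nat_lit 0x4003),.c (nat_lit 0) (nat_lit 0x4003),
    .r (nat_lit 0x1bec) (nat_lit 8) [nat_lit 33,nat_lit 0x2001],.r (nat_lit 32) (nat_lit 11) [nat_lit 0x3231,
    nat_lit 0x300021],.r (nat_lit 0x1ce4) (nat_lit 8) [nat_lit 0x33201,nat_lit 33],
    .r (nat_lit 4) (nat_lit 2) [nat_lit 0x22031,nat_lit 0x335221],.c (nat_lit 4) (nat_lit 0x3002),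
    .c (nat_lit 1) (nat_lit 0x35522),.r (nat_lit 0x1d03) (nat_lit 1) [nat_lit 0x355221,nat_lit 0x222031,
    nat_lit 0x2001,nat_lit 0x33021],.c (nat_lit 0) (nat_lit 0x2003),.c (nat_lit 0) (nat_lit 0x4003),
    .c (nat_lit 5) (nat_lit 0x3002),.c (nat_lit 1) (nat_lit 0x30323),.c (nat_lit 0) (nat_lit 0x2003),
    .c (nat_lit 7) (nat_lit 0x3002),.r (nat_lit 32) (nat_lit 11) [nat_lit 0x303231,nat_lit 33],
    .r (nat_lit 0x1cdb) (nat_lit 3) [nat_lit 0x2031,nat_lit 33],.c (nat_lit 4) (nat_lit 0x2203),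
    .r (nat_lit 0x1d02) (nat_lit 3) [nat_lit 0x33201,nat_lit 0x2031,nat_lit 0x20001],.c (nat_lit 0) (nat_lit 0x2003),
    .c (nat_lit 0) (nat_lit 0x4003),.c (nat_lit 0) (nat_lit 0x4003),.c (nat_lit 3) (nat_lit 2),
    .c (nat_lit 0) (nat_lit 0x20203),.r (nat_lit 0x1ce4) (nat_lit 6) [nat_lit 33,nat_lit 0x2001],
    .r (nat_lit 0x1862) (nat_lit 9) [nat_lit 0x33201,nat_lit 0x2001,nat_lit 33,nat_lit 0x202001],
    .r (nat_lit 4) (nat_lit 1) [nat_lit 0x3231,nat_lit 0x300021],.r (nat_lit 0x1c82) (nat_lit 5) [nat_lit 33,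
    nat_lit 0x30231],.c (nat_lit 4) (nat_lit 0x20403),.c (nat_lit 0) (nat_lit 0x20203),
    .r (nat_lit 0x1bec) (nat_lit 1) [nat_lit 0x300021,nat_lit 0x33201],.c (nat_lit 4) (nat_lit 2),
    .r (nat_lit 0x1bec) (nat_lit 7) [nat_lit 33,nat_lit 0x33201],.r (nat_lit 32) (nat_lit 4) [nat_lit 0x22031,
    nat_lit 0x335221],.c (nat_lit 0) (nat_lit 0x22433),.r (nat_lit 0x1d02) (nat_lit 10) [nat_lit 0x2001,
    nat_lit 0x202031,nat_lit 0x20001],.r (nat_lit 0x1bec) (nat_lit 2) [nat_lit 0x335221,nat_lit 0x2001],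
    .c (nat_lit 5) (nat_lit 2),.r (nat_lit 0x10a4) (nat_lit 9) [nat_lit 0x77601,nat_lit 0x66c701,nat_lit 33,
    nat_lit 0x777601],.r (nat_lit 0x10a5) (nat_lit 9) [nat_lit 0x55401,nat_lit 0x448501,nat_lit 34,nat_lit 0x555401],
    .r (nat_lit 0x10a6) (nat_lit 6) [nat_lit 0x6001,nat_lit 0x600001,nat_lit 0x60031,nat_lit 0x777601],
    .r (nat_lit 0x1cfe) (nat_lit 13) [nat_lit 0x33201,nat_lit 0x2001,nat_lit 33],.c (nat_lit 0) (nat_lit 0x4003),
    .r (nat_lit 4) (nat_lit 1) [nat_lit 0x303231,nat_lit 33],.r (nat_lit 0x1d03) (nat_lit 2) [nat_lit 0x30021,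
    nat_lit 0x22031,nat_lit 0x33201,nat_lit 0x202321],.r (nat_lit 0x1898) (nat_lit 2) [nat_lit 0x33201,
    nat_lit 0x202321,nat_lit 0x424521,nat_lit 0x300231],.c (nat_lit 0) (nat_lit 0x2003),
    .c (nat_lit 0) (nat_lit 0x4003),.c (nat_lit 0) (nat_lit 0x4003),.c (nat_lit 6) (nat_lit 2),
    .r (nat_lit 0x1bec) (nat_lit 1) [nat_lit 33,nat_lit 0x33201],.c (nat_lit 7) (nat_lit 2)],
    .l (nat_lit 13) (nat_lit 0x780) (nat_lit 4) (nat_lit 0x345000003450000034300000343000002de000003ec000003a80000036c0000038e0000029c00000345000003450000037c0000030e) (nat_lit 0xa7000000a7000000a9000000a9000000000000010e0000008000000044000001500000005e000000a7000000a7000000de00000070)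
    (nat_lit 0x16a0a784b829c2478b4458a3011028b744842d41338b5453c2d413e0a7095e2f113d8b643ea2fd16a09a84ce27b14e0a703c029a1b5895455a1951138cbc5ec29c1178a744f825c10d07807522351618d3c40e3011820aa83962d31788b4446a25514709404842340c00a0046e223120081895e48f1d48dac7d828e1db0ea050038e18c8d1461c18016c8c0469e1951d408d065036412c0c009fa31d0c00d904f62c51618ab476c24214e0ca043830e2318a0c53030617e8b7460232f1c70a0061c3001400e005ba2e715806003ea205103889c50018010e09603002800f187d43101f61350b5055429c1a2888c50631d0fa8b9c5a826a12b8b9c5a82421820bd863223723193f43c62dd1210b504ce2d513d8b545a629d0c0081860c3640fb06005aa2e717d0da04ce2670e588bc61c24014c06003102b0133895c4602fa)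
    (nat_lit 0x16a1e00f007803c01e00f007803c01e00f007803c01e0053c2d43c01e00f007803c01e00f007803c01e00f0078012e09f03c07803c01e00f007803c01e00f007803c01e0053829c14d0780f007803c01e00f007803c01e00f0078024792bc6d63a91471e00f007803c01e00f007803c01e005a22f112a88d44a028e3c01e00f007803c01e00f0078016289ec55a2c31210ed86507803c01e00f007803c01e006022d90ca8d3c4683a81b20ca0f007803c01e00f0078010287d444e2070c00a004b021c1401e00f007803c01e005ba2fd1978c0450038e1800c387002803c01e00f007801210b505ec30411b8c6493246316e878c5a87803c01e005a826a14e0aa844634518e8a0c5ce1f51350b50f00780133899c45e1cb1200c3830029815806204ae26717d1e005aa27b14e8b4c40c1801b20c183001f61738b546d02fa)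
    (nat_lit 4) (nat_lit 113)
    [[nat_lit 2,nat_lit 258,nat_lit 0x10002,nat_lit 0x100002,nat_lit 514,nat_lit 0x10102,nat_lit 17,nat_lit 273,
    nat_lit 0x10011,nat_lit 0x1000011,nat_lit 257,nat_lit 513,nat_lit 0x10101,nat_lit 0x100101,nat_lit 0x1000101,
    nat_lit 0x100102,nat_lit 0x1001,nat_lit 0x1011,nat_lit 0x1111,nat_lit 0x1101,nat_lit 0x11001,nat_lit 0x101001,
    nat_lit 0x1001001,nat_lit 0x10001,nat_lit 0x20001,nat_lit 0x100001,nat_lit 0x110001,nat_lit 0x200001,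
    nat_lit 0x1100001,nat_lit 0x100011,nat_lit 0x101101,nat_lit 0x111001,nat_lit 0x200101,nat_lit 0x1000001,
    nat_lit 0x1010001],[nat_lit 32,nat_lit 288,nat_lit 272,nat_lit 528,nat_lit 0x1000110,nat_lit 0x1110,
    nat_lit 0x10010,nat_lit 0x100010,nat_lit 0x101010,nat_lit 0x1000010,nat_lit 0x1100010],[nat_lit 512,
    nat_lit 0x1000200,nat_lit 0x1100,nat_lit 0x101100,nat_lit 0x10100,nat_lit 0x100100,nat_lit 0x200100,
    nat_lit 0x1000100],[nat_lit 0x2000,nat_lit 0x11000,nat_lit 0x101000,nat_lit 0x201000,nat_lit 0x1001000,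
    nat_lit 0x1101000],[nat_lit 0x20000,nat_lit 0x110000],[nat_lit 0x200000,nat_lit 0x300000,nat_lit 0x1200000,
    nat_lit 0x1100000],[nat_lit 0x2000000]]
    [.c (nat_lit 1) (nat_lit 2),.c (nat_lit 0) (nat_lit 0x33223),.c (nat_lit 1) (nat_lit 0x30302),
    .c (nat_lit 0) (nat_lit 0x33223),.c (nat_lit 0) (nat_lit 0x55043),.c (nat_lit 0) (nat_lit 0x3223),
    .r (nat_lit 4) (nat_lit 8) [nat_lit 0x222031,nat_lit 33],.r (nat_lit 0x1780) (nat_lit 11) [nat_lit 0x330231,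
    nat_lit 0x2001,nat_lit 0x200001,nat_lit 0x20001],.c (nat_lit 2) (nat_lit 0x30302),
    .r (nat_lit 0x1582) (nat_lit 4) [nat_lit 0x3021,nat_lit 0x402031,nat_lit 0x40001,nat_lit 0x553431],
    .c (nat_lit 0) (nat_lit 0x33023),.c (nat_lit 0) (nat_lit 0x55043),.c (nat_lit 3) (nat_lit 0x30302),
    .c (nat_lit 0) (nat_lit 0x33023),.r (nat_lit 0x1d02) (nat_lit 6) [nat_lit 0x20001,nat_lit 0x200031,
    nat_lit 0x330201],.c (nat_lit 1) (nat_lit 0x22032),.r (nat_lit 32) (nat_lit 3) [nat_lit 0x222031,nat_lit 33],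
    .c (nat_lit 5) (nat_lit 0x22203),.c (nat_lit 6) (nat_lit 0x30023),
    .r (nat_lit 0x1cf7) (nat_lit 5) [nat_lit 0x330231,nat_lit 0x200001,nat_lit 0x20001],
    .c (nat_lit 2) (nat_lit 0x22203),.r (nat_lit 8) (nat_lit 1) [nat_lit 0x300231,nat_lit 0x200001],
    .r (nat_lit 0x1cdb) (nat_lit 13) [nat_lit 0x20031,nat_lit 33],.c (nat_lit 0) (nat_lit 0x20203),
    .c (nat_lit 5) (nat_lit 0x30302),.c (nat_lit 0) (nat_lit 0x33023),.c (nat_lit 6) (nat_lit 0x30302),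
    .c (nat_lit 0) (nat_lit 0x55043),.r (nat_lit 0x188e) (nat_lit 12) [nat_lit 0x222321,nat_lit 0x220321,
    nat_lit 0x30231,nat_lit 0x553431],.r (nat_lit 0x1d02) (nat_lit 7) [nat_lit 0x200001,nat_lit 0x20031,
    nat_lit 0x330201],.c (nat_lit 2) (nat_lit 0x30023),.r (nat_lit 0x1780) (nat_lit 11) [nat_lit 0x333021,
    nat_lit 0x2001,nat_lit 0x200001,nat_lit 0x20001],.c (nat_lit 6) (nat_lit 0x22032),
    .r (nat_lit 0x1bec) (nat_lit 4) [nat_lit 33,nat_lit 0x20001],.c (nat_lit 5) (nat_lit 0x40203),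
    .c (nat_lit 2) (nat_lit 2),.r (nat_lit 0x1bbe) (nat_lit 13) [nat_lit 0x202001,nat_lit 0x3001,nat_lit 0x330201,
    nat_lit 0x220321],.r (nat_lit 0x1750) (nat_lit 13) [nat_lit 33,nat_lit 0x200001],
    .r (nat_lit 0x1cfe) (nat_lit 11) [nat_lit 0x200001,nat_lit 0x20001,nat_lit 33],
    .r (nat_lit 0x1ce4) (nat_lit 5) [nat_lit 0x303231,nat_lit 0x200001],.c (nat_lit 0) (nat_lit 0x3002),
    .r (nat_lit 32) (nat_lit 1) [nat_lit 0x202001,nat_lit 0x220031],.r (nat_lit 32) (nat_lit 11) [nat_lit 0x202001,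
    nat_lit 33],.c (nat_lit 0) (nat_lit 0x3002),.r (nat_lit 4) (nat_lit 10) [nat_lit 0x2021,nat_lit 0x220031],
    .r (nat_lit 0x1bec) (nat_lit 3) [nat_lit 0x303231,nat_lit 0x200001],.c (nat_lit 3) (nat_lit 2),
    .r (nat_lit 0x1cfe) (nat_lit 8) [nat_lit 0x20001,nat_lit 0x200001,nat_lit 0x555431],
    .r (nat_lit 0x1bec) (nat_lit 3) [nat_lit 33,nat_lit 0x200001],.r (nat_lit 4) (nat_lit 10) [nat_lit 0x300231,
    nat_lit 0x422321],.c (nat_lit 0) (nat_lit 0x3223),.c (nat_lit 0) (nat_lit 0x33023),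
    .c (nat_lit 0) (nat_lit 0x55043),.c (nat_lit 0) (nat_lit 0x33323),.c (nat_lit 4) (nat_lit 2),
    .r (nat_lit 4) (nat_lit 10) [nat_lit 0x222031,nat_lit 33],.r (nat_lit 0x1ce4) (nat_lit 5) [nat_lit 33,
    nat_lit 0x200001],.r (nat_lit 0x1583) (nat_lit 11) [nat_lit 0x400001,nat_lit 0x404001,nat_lit 0x40001,
    nat_lit 0x955431],.r (nat_lit 32) (nat_lit 1) [nat_lit 0x202001,nat_lit 33],
    .r (nat_lit 0x1750) (nat_lit 13) [nat_lit 0x303231,nat_lit 0x200001],.c (nat_lit 5) (nat_lit 2),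
    .c (nat_lit 0) (nat_lit 0x3223),.c (nat_lit 6) (nat_lit 2),.r (nat_lit 0x1584) (nat_lit 10) [nat_lit 0x60001,
    nat_lit 0x606001,nat_lit 33,nat_lit 0x7001],.r (nat_lit 0x1cfe) (nat_lit 8) [nat_lit 0x20001,nat_lit 0x200001,
    nat_lit 33],.c (nat_lit 0) (nat_lit 0x33323),.c (nat_lit 7) (nat_lit 2)]]

/-- nodes -/
noncomputable def rD7k_25_24 : List RJ :=
  [.l (nat_lit 16) (nat_lit 0x2760) (nat_lit 4) (nat_lit 0x12ca000012ca000010880000108800000eb000000eb0000012b5000012b500000eb000000eb000000ff500000ff500000f9600000f96) (nat_lit 0x242000002420000041a0000041a00000015000000150000041a0000041a000002d5000002d50000033400000334)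
    (nat_lit 0x123612f4108810880b14126012b512b50eb0099a1423115b0f960f96118e1236108810880a6c11b814ad14ad0c3a08341607133d0f960f96108810880b3e0f820a760c6e16ef14b709260a760db310290de807421088108806fa0b3e0c6e0c6e12ab10730c6e0dd40db30c8d09a40d5411b812600c6e0c6e0a9611e20d350e9b0bbc085e0bdb0bdb0b7c0b7c0a6c0b140c6e0a760a960a960e9b0e9b0c100a9608930c2f0b7c0b7c14ad12b5107314b70e9b0e9b12a012a00e470e9b0fe00e66131d12c914ad12b512ab16ef0e9b0d35115012a00e9b0e9b0e7c0ab4149714430834099a0dd40a760a96085e0e9b0e9b0fc20be607190bdb0b7c0ce00c3a0eb00c6e09260c100bbc0e9b0e470bbc0fc20a9f0bdb0a160b7c133d115b0c8d10290c2f0bdb0ab40e660bdb0bdb0d200bfa0cc10dfd160714230db30db308930bdb0e7c0fe00a9f07190e460d200cc10cc10f960f960d5407420b7c0b7c144312c90b7c0ce00cc10dfd08340b3c0f960f9609a40de80b7c0b7c1497131d0a160b7c0cc10cc10c380834)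
    (nat_lit 0x1236276027602760276027602760276027602760276027602760276012f41236276027602760276027602760276027602760276027602760108810880b3e27602760276027602760276027602760276027602760108810880f820b3e27602760276027602760276027602760276027600b140a6c0a760c6e0a96276027602760276027602760276027602760126011b80c6e0c6e11e20a962760276027602760276027602760276012b514ad16ef12ab0d350e9b12a0276027602760276027602760276012b514ad14b710730e9b0e9b12a012a02760276027602760276027600eb00c3a09260c6e0bbc0c100e470e9b0fc227602760276027602760099a08340a760dd4085e0a960e9b0e9b0be60fc22760276027602760142312d30db30db30bdb08930fe00e7c07190a9f0d20276027602760115b133d10290c8d0bdb0c2f0e660ab40bdb0bdb0bfa0d20276027600f960f960de809a40b7c0b7c131d14970b7c0a160cc10cc1083427600f960f9607420d540b7c0b7c12c914430ce00b7c0dfd0cc10b3c0834)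
    (nat_lit 4) (nat_lit 139)
    [[nat_lit 2,nat_lit 3,nat_lit 4,nat_lit 259,nat_lit 0x100003,nat_lit 18,nat_lit 258,nat_lit 0x10102,
    nat_lit 0x10002,nat_lit 0x100002,nat_lit 0x200002,nat_lit 17,nat_lit 33,nat_lit 273,nat_lit 0x10011,
    nat_lit 0x100011,nat_lit 257,nat_lit 513,nat_lit 0x10101,nat_lit 0x100101,nat_lit 0x200101,nat_lit 0x1000101,
    nat_lit 0x100111,nat_lit 0x110101,nat_lit 0x10001,nat_lit 0x20001,nat_lit 0x110001,nat_lit 0x210001,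
    nat_lit 0x1010001,nat_lit 0x100001,nat_lit 0x200001,nat_lit 0x1000001],[nat_lit 32,nat_lit 288,nat_lit 0x10020,
    nat_lit 272,nat_lit 544,nat_lit 528,nat_lit 0x1110,nat_lit 0x10110,nat_lit 0x100110,nat_lit 0x1000110,
    nat_lit 0x1010,nat_lit 0x10010,nat_lit 0x11010,nat_lit 0x20010,nat_lit 0x110010,nat_lit 0x110110,nat_lit 0x100010,
    nat_lit 0x200010],[nat_lit 512,nat_lit 0x10200,nat_lit 0x100200,nat_lit 0x1000200,nat_lit 0x20200,nat_lit 0x1100,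
    nat_lit 0x11100,nat_lit 0x10100,nat_lit 0x20100,nat_lit 0x110100,nat_lit 0x1010100,nat_lit 0x100100,
    nat_lit 0x200100,nat_lit 0x300100,nat_lit 0x200200,nat_lit 0x210100,nat_lit 0x1100100,nat_lit 0x1000100],
    [nat_lit 0x2000,nat_lit 0x11000,nat_lit 0x21000],[nat_lit 0x20000,nat_lit 0x30000,nat_lit 0x120000,
    nat_lit 0x110000,nat_lit 0x210000,nat_lit 0x1010000],[nat_lit 0x200000,nat_lit 0x300000,nat_lit 0x1100000],
    [nat_lit 0x2000000]]
    [.c (nat_lit 1) (nat_lit 2),.r (nat_lit 0x1c79) (nat_lit 12) [nat_lit 33,nat_lit 0x7021,nat_lit 0x606031],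
    .r (nat_lit 0x19c6) (nat_lit 5) [nat_lit 0x509022,nat_lit 0x20001,nat_lit 0x202001],
    .r (nat_lit 0x15a2) (nat_lit 11) [nat_lit 0x60001,nat_lit 33,nat_lit 0x606031,nat_lit 0x770631],
    .r (nat_lit 0x19c6) (nat_lit 5) [nat_lit 0x507022,nat_lit 0x20001,nat_lit 0x202001],
    .r (nat_lit 0x1b36) (nat_lit 4) [nat_lit 0x2001,nat_lit 0x5021,nat_lit 0x200001],.c (nat_lit 0) (nat_lit 0x55043),
    .c (nat_lit 1) (nat_lit 0x22032),.c (nat_lit 0) (nat_lit 0x55043),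
    .r (nat_lit 0x1c79) (nat_lit 12) [nat_lit 0x2021,nat_lit 0x5021,nat_lit 0x604031],
    .r (nat_lit 0x19c6) (nat_lit 5) [nat_lit 0x505022,nat_lit 0x20001,nat_lit 0x202001],
    .r (nat_lit 0x1750) (nat_lit 4) [nat_lit 33,nat_lit 0x200001],.r (nat_lit 0x1c71) (nat_lit 4) [nat_lit 0x2001,
    nat_lit 0x3021,nat_lit 0x200001],.r (nat_lit 0x1cdb) (nat_lit 3) [nat_lit 0x202031,nat_lit 0x3021],
    .r (nat_lit 32) (nat_lit 12) [nat_lit 0x300231,nat_lit 0x202001],.r (nat_lit 0x1b36) (nat_lit 4) [nat_lit 0x2001,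
    nat_lit 0x3021,nat_lit 0x200001],.c (nat_lit 0) (nat_lit 0x33023),.c (nat_lit 0) (nat_lit 0x55343),
    .c (nat_lit 0) (nat_lit 0x33023),.c (nat_lit 0) (nat_lit 0x55343),
    .r (nat_lit 0x15a2) (nat_lit 11) [nat_lit 0x60001,nat_lit 0x4021,nat_lit 0x602031,nat_lit 0x775631],
    .r (nat_lit 32) (nat_lit 3) [nat_lit 0x300231,nat_lit 0x202001],.r (nat_lit 0x15a4) (nat_lit 11) [nat_lit 0x40001,
    nat_lit 0x2021,nat_lit 0x402031,nat_lit 0x553431],.c (nat_lit 1) (nat_lit 0x22232),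
    .c (nat_lit 0) (nat_lit 0x33023),.c (nat_lit 0) (nat_lit 0x55343),.c (nat_lit 0) (nat_lit 0x55343),
    .r (nat_lit 0x15a3) (nat_lit 4) [nat_lit 0x60001,nat_lit 0x3021,nat_lit 0x602031,nat_lit 0x775631],
    .r (nat_lit 0x174e) (nat_lit 4) [nat_lit 0x300231,nat_lit 0x202001],.c (nat_lit 1) (nat_lit 514),
    .r (nat_lit 0x1c79) (nat_lit 12) [nat_lit 0x4021,nat_lit 0x3021,nat_lit 0x602031],
    .r (nat_lit 0x1750) (nat_lit 5) [nat_lit 0x3021,nat_lit 0x222031],.c (nat_lit 2) (nat_lit 2),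
    .r (nat_lit 0x1cef) (nat_lit 13) [nat_lit 0x3001,nat_lit 0x202001,nat_lit 0x200321],
    .r (nat_lit 0x1d01) (nat_lit 4) [nat_lit 0x2001,nat_lit 33,nat_lit 0x200001],
    .r (nat_lit 0x174f) (nat_lit 4) [nat_lit 0x202001,nat_lit 33],.r (nat_lit 0x174e) (nat_lit 4) [nat_lit 34,
    nat_lit 0x202001],.r (nat_lit 0x1a46) (nat_lit 8) [nat_lit 33,nat_lit 0x202001,nat_lit 0x20001],
    .r (nat_lit 0x1b7a) (nat_lit 12) [nat_lit 0x202031,nat_lit 0x200031,nat_lit 33],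
    .r (nat_lit 0x19b4) (nat_lit 1) [nat_lit 0x303231,nat_lit 0x222321,nat_lit 0x202001],
    .r (nat_lit 0x1cdb) (nat_lit 3) [nat_lit 0x200031,nat_lit 33],.c (nat_lit 0) (nat_lit 0x3002),
    .r (nat_lit 0x1750) (nat_lit 5) [nat_lit 0x220031,nat_lit 33],.r (nat_lit 0) (nat_lit 5) [nat_lit 0x202001,
    nat_lit 33],.r (nat_lit 0x1cd0) (nat_lit 0) [nat_lit 0x202001,nat_lit 0x20001,nat_lit 0x333021],
    .r (nat_lit 0x1ce1) (nat_lit 0) [nat_lit 0x30021,nat_lit 0x202001,nat_lit 0x20001],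
    .r (nat_lit 32) (nat_lit 12) [nat_lit 0x303231,nat_lit 0x202001],.c (nat_lit 2) (nat_lit 0x22232),
    .r (nat_lit 0x1750) (nat_lit 4) [nat_lit 0x2021,nat_lit 0x200001],.r (nat_lit 0x1b36) (nat_lit 4) [nat_lit 0x2001,
    nat_lit 33,nat_lit 0x200001],.c (nat_lit 3) (nat_lit 2),.c (nat_lit 0) (nat_lit 0x55543),
    .c (nat_lit 0) (nat_lit 0x55543),.r (nat_lit 0x1cd3) (nat_lit 0) [nat_lit 0x202001,nat_lit 33,nat_lit 0x20001],
    .c (nat_lit 0) (nat_lit 0x55043),.r (nat_lit 0x1bec) (nat_lit 10) [nat_lit 33,nat_lit 0x20001],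
    .r (nat_lit 0x19c6) (nat_lit 5) [nat_lit 0x333231,nat_lit 0x20001,nat_lit 0x202001],
    .c (nat_lit 0) (nat_lit 0x33023),.c (nat_lit 0) (nat_lit 0x55543),.c (nat_lit 0) (nat_lit 0x33323),
    .r (nat_lit 8) (nat_lit 5) [nat_lit 0x300231,nat_lit 0x200001],.c (nat_lit 0) (nat_lit 0x33323),
    .c (nat_lit 0) (nat_lit 0x55543),.r (nat_lit 0x15a2) (nat_lit 11) [nat_lit 0x60001,nat_lit 0x6021,
    nat_lit 0x600031,nat_lit 0x777631],.c (nat_lit 0) (nat_lit 0x55543),.c (nat_lit 1) (nat_lit 0x22432),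
    .r (nat_lit 32) (nat_lit 3) [nat_lit 0x303231,nat_lit 0x202001],.r (nat_lit 0) (nat_lit 6) [nat_lit 33,
    nat_lit 0x202001],.c (nat_lit 4) (nat_lit 2),.r (nat_lit 0x1750) (nat_lit 3) [nat_lit 33,nat_lit 0x20001],
    .r (nat_lit 0x1cfe) (nat_lit 12) [nat_lit 0x20001,nat_lit 0x200001,nat_lit 33],.c (nat_lit 5) (nat_lit 2),
    .r (nat_lit 0x1a47) (nat_lit 11) [nat_lit 33,nat_lit 0x3001,nat_lit 0x202001,nat_lit 0x20001],
    .c (nat_lit 0) (nat_lit 0x55543),.c (nat_lit 0) (nat_lit 0x33323),.c (nat_lit 0) (nat_lit 0x55543),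
    .r (nat_lit 0x1ce4) (nat_lit 5) [nat_lit 0x200001,nat_lit 33],.c (nat_lit 6) (nat_lit 2),
    .r (nat_lit 0x1c79) (nat_lit 12) [nat_lit 0x6021,nat_lit 33,nat_lit 0x600031],
    .r (nat_lit 0x1750) (nat_lit 5) [nat_lit 33,nat_lit 0x220031],.c (nat_lit 7) (nat_lit 2)],
    .l (nat_lit 17) (nat_lit 0x7800) (nat_lit 4) (nat_lit 0x2f1200002f120000317e0000317e00002a9d00002a9d00002c0900002c0900003083000030830000288500002b3f0000317e0000317e) (nat_lit 0x26c0000026c0000000000000000000006e1000006e10000057500000575000000fb000000fb0000063f000008f90000000000000000)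
    (nat_lit 0x14000b2985e242f1214188978c533a2a931fbf8e96450ce2c3f17890bc48594c2800170e0bc485eae304d14ce8a6747b4e38810b0e898645e242f1217890bc4852c4317e154e8ae4c433e24e318418c20c567e18f51b12110d05c382f1218bf0a588534e2a9d16f08b3fc61062f8d152488f04679841dc18268978c553a2b93116308ef04c3c261e173309f28280021a4154e8ae4c5eae283114d38aa7443a022c61294094a05ae026d4150c08690534e2a9d14ce8aa4c59fe24e312940987852c4288015870ac384b941f4216048993c533a299d16f08867c4a50261e134a0a588561c2b0e12b408c403f8e20331c408e9645f1a3083136a09f28561c2b0e17c40be206c34278a18418c3947b4e3f7f18418c20c5ae02e6615870ac3852c42f8817ff09e2854ba2ac9130c8b0fc478218f510d20869046201f4213c509e28500025b20b8e88b2c2c3a286715248acfc5430140012b4097285ffc361a15270a000567e2b3f17890bc4883b84434154e8ae4c4066264f15648c394567e22cb18f50b0c05e242f1219e60d890534e2a9d0fe38b02454ba3083159f85c7462fc31ea)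
    (nat_lit 0x14001e000f00078003c001e000f00078003c001e000f00078003c001e000594c28003c001e000f00078003c001e000f00078003c001e000f000780017890b87052c478003c001e000f00078003c001e000f00078003c001e0005e242f1218bf0a588f00078003c001e000f00078003c001e000f000780014188bd5c553a29a711631e000f00078003c001e000f00078003c001e0004bc6304d15c98aa74477822c63c001e000f00078003c001e000f000780014ce8a674433e2de1130f094a052c478003c001e000f00078003c001e0005526299d12718b3fc4c3c252814400a588f00078003c001e000f00078001fbf8f69c6106308317330b5c0561c2b0e17c41e000f00078003c001e00074b2388118418be344f9426d415870ac385f102f883c001e000f0007800143385874567e2a490a000a8604b9425681b0d0bff8500078003c001e000587e26190c7a88f04434821a40fa108c404f14278a12d90a000f000780017890b4e86c4833cc154e8a69c58121fc718418a9742e3a2b3f18f51e0005e242f12221a1077057262a9d1327880cc61ca2ac911658acfc586031ea)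
    (nat_lit 3) (nat_lit 59)
    [[nat_lit 2,nat_lit 18,nat_lit 17,nat_lit 33,nat_lit 0x1011,nat_lit 0x10011,nat_lit 0x11011,nat_lit 0x1000011,
    nat_lit 257,nat_lit 0x1101,nat_lit 0x1001,nat_lit 0x2001,nat_lit 0x11001,nat_lit 0x10001,nat_lit 0x1000001],
    [nat_lit 32,nat_lit 0x1020,nat_lit 0x10020,nat_lit 0x100020,nat_lit 0x1000020,nat_lit 272,nat_lit 0x1010,
    nat_lit 0x2010,nat_lit 0x11010,nat_lit 0x101010,nat_lit 0x1001010,nat_lit 0x10010,nat_lit 0x20020,nat_lit 0x10110,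
    nat_lit 0x20010,nat_lit 0x110010,nat_lit 0x1010010,nat_lit 0x100010,nat_lit 0x200010,nat_lit 0x1000010,
    nat_lit 0x1100010,nat_lit 0x2000010],[nat_lit 512,nat_lit 0x1100,nat_lit 0x10100,nat_lit 0x100100],
    [nat_lit 0x2000,nat_lit 0x12000,nat_lit 0x11000,nat_lit 0x21000,nat_lit 0x111000,nat_lit 0x1011000,
    nat_lit 0x101000,nat_lit 0x1001000],[nat_lit 0x20000,nat_lit 0x30000,nat_lit 0x110000,nat_lit 0x1010000],
    [nat_lit 0x200000,nat_lit 0x1100000],[nat_lit 0x2000000]]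
    [.c (nat_lit 1) (nat_lit 2),.r (nat_lit 0x1cf0) (nat_lit 12) [nat_lit 17,nat_lit 0x2001,nat_lit 0x819],
    .r (nat_lit 0x174f) (nat_lit 1) [nat_lit 0x2001,nat_lit 17],.r (nat_lit 0x1a46) (nat_lit 13) [nat_lit 17,
    nat_lit 0x2001,nat_lit 0x401],.r (nat_lit 0x19b4) (nat_lit 5) [nat_lit 0x3099,nat_lit 0x24d1,nat_lit 0x2001],
    .r (nat_lit 0x1ba6) (nat_lit 3) [nat_lit 0x3699,nat_lit 0x401,nat_lit 0x2001],.c (nat_lit 1) (nat_lit 0x49a),
    .r (nat_lit 0x1b7d) (nat_lit 1) [nat_lit 0x401,nat_lit 0x3681,nat_lit 0x20d1],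
    .r (nat_lit 0x1add) (nat_lit 10) [nat_lit 0x611,nat_lit 0x401,nat_lit 0x2419],
    .r (nat_lit 0x1cd0) (nat_lit 7) [nat_lit 0x2001,nat_lit 0x401,nat_lit 0x3611],
    .r (nat_lit 0) (nat_lit 6) [nat_lit 0x2001,nat_lit 17],.r (nat_lit 0x1ce1) (nat_lit 7) [nat_lit 0x611,
    nat_lit 0x2001,nat_lit 0x401],.r (nat_lit 32) (nat_lit 2) [nat_lit 0x3099,nat_lit 0x2001],
    .r (nat_lit 0x1af7) (nat_lit 12) [nat_lit 0x2001,nat_lit 0x24d1,nat_lit 0x3099],
    .r (nat_lit 0x1b04) (nat_lit 2) [nat_lit 17,nat_lit 0x2419],.c (nat_lit 2) (nat_lit 2),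
    .c (nat_lit 0) (nat_lit 0xb63),.c (nat_lit 0) (nat_lit 0xb63),.r (nat_lit 0x1cd3) (nat_lit 7) [nat_lit 0x2001,
    nat_lit 17,nat_lit 0x401],.r (nat_lit 0x1c8d) (nat_lit 7) [nat_lit 0x2001,nat_lit 17,nat_lit 0x401],
    .r (nat_lit 0x1bc9) (nat_lit 10) [nat_lit 0x401,nat_lit 0x24d1,nat_lit 0x3681],.c (nat_lit 0) (nat_lit 0x6d3),
    .c (nat_lit 0) (nat_lit 0xb63),.c (nat_lit 0) (nat_lit 0x6d3),.r (nat_lit 0x1cd4) (nat_lit 12) [nat_lit 0x2001,
    nat_lit 0x419,nat_lit 0x3681],.r (nat_lit 0x1ccf) (nat_lit 0) [nat_lit 0x3699,nat_lit 0x2001,nat_lit 0x401],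
    .c (nat_lit 0) (nat_lit 0x6d3),.c (nat_lit 0) (nat_lit 0xb63),.r (nat_lit 0x1b49) (nat_lit 3) [nat_lit 0x3699,
    nat_lit 0x401,nat_lit 0x2001],.c (nat_lit 0) (nat_lit 0xb63),.r (nat_lit 32) (nat_lit 8) [nat_lit 0x3099,
    nat_lit 0x2001],.r (nat_lit 8) (nat_lit 4) [nat_lit 0x699,nat_lit 0x401],.r (nat_lit 0) (nat_lit 3) [nat_lit 17,
    nat_lit 0x2001],.r (nat_lit 0x1cd2) (nat_lit 5) [nat_lit 0x2001,nat_lit 0x3681,nat_lit 0x24d1],
    .r (nat_lit 0x1ba2) (nat_lit 1) [nat_lit 0x401,nat_lit 0x24d1,nat_lit 0x3681],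
    .r (nat_lit 0x1c16) (nat_lit 5) [nat_lit 0x2001,nat_lit 0x3681,nat_lit 0x4d1],
    .r (nat_lit 0x19b2) (nat_lit 1) [nat_lit 0x401,nat_lit 0x3681,nat_lit 0x24d1],.c (nat_lit 3) (nat_lit 2),
    .r (nat_lit 0x1750) (nat_lit 8) [nat_lit 17,nat_lit 0x401],.r (nat_lit 0x1d06) (nat_lit 1) [nat_lit 0x2019,
    nat_lit 0x401,nat_lit 17],.r (nat_lit 0x1b04) (nat_lit 2) [nat_lit 0x2419,nat_lit 17],.c (nat_lit 4) (nat_lit 2),
    .c (nat_lit 0) (nat_lit 0xb63),.c (nat_lit 0) (nat_lit 0x6d3),.c (nat_lit 0) (nat_lit 0xb63),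
    .r (nat_lit 0x174e) (nat_lit 1) [nat_lit 0x3099,nat_lit 0x2001],.r (nat_lit 0x1972) (nat_lit 10) [nat_lit 0x401,
    nat_lit 0x2019,nat_lit 0x3681],.r (nat_lit 0x1cf4) (nat_lit 12) [nat_lit 0x419,nat_lit 0x2001,nat_lit 17],
    .r (nat_lit 0x1c92) (nat_lit 3) [nat_lit 0x3011,nat_lit 0x401,nat_lit 0x2001],.c (nat_lit 5) (nat_lit 2),
    .r (nat_lit 0x1c7f) (nat_lit 0) [nat_lit 17,nat_lit 0x2001,nat_lit 0x401],
    .r (nat_lit 0x1b04) (nat_lit 5) [nat_lit 17,nat_lit 0x2001],.r (nat_lit 0x1b9f) (nat_lit 10) [nat_lit 0x2019,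
    nat_lit 0x401,nat_lit 17],.c (nat_lit 6) (nat_lit 2),.r (nat_lit 0x1add) (nat_lit 10) [nat_lit 0x2019,
    nat_lit 0x401,nat_lit 17],.c (nat_lit 7) (nat_lit 2)]]

/-- nodes -/
noncomputable def rD7k_25_25 : List RJ :=
  [.l (nat_lit 13) (nat_lit 0x5a0) (nat_lit 3) (nat_lit 0x252000002520000024a000002060000021c0000021c000001f60000024200000225000002250000022b0000022b0000022200000222) (nat_lit 0x4c000000080000003600000036000000100000005c0000002d0000002d00000027000000270000003000000030)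
    (nat_lit 0x12908e840c24a11708a049c1de13089e43d222b11108284a4252103092843819212107d864e33f11588ac44418c125092851024210a08502401ee10e887457212110d086840c2060e30a203a01d00f206c035e1c10fb877c3941a00c908a03a02140f007684481c00f7880445621f0f6075043822e0e808503cc1e011807003ae1ef10686e44081ec0fb07783601ee0e007003cc19a102869439e1e70da06b848424e0f20480460224119079842a215119886c37c21219f89e438221d0f7880442a1a50fc07e03fc1fe0f4877464e2610d788743ae1ef10a88143f01f80f307f83ea23d11588ac3be1210dc887c4361e70ff07f83782040df884c4561e90fb8ae441a22b119873c3cc1fe0e406f04261fb0c6082834021a0f607504241ae11e87743f621311a08b84442220e508684081ec0df06d03ea1e910986fc414234)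
    (nat_lit 0x1291680b405a02d01680b405a02d01680b405a02d016804742522d01680b405a02d01680b405a02d01680b405a010308185105a02d01680b405a02d01680b405a02d0168049424a1210a20b405a02d01680b405a02d01680b405a011708704281d00f01680b405a02d01680b405a02d0168045019210a07403b41e02d01680b405a02d01680b405a012709082401e411208c03cc5a02d01680b405a02d016803bc1f60f706c03801c00cd0798b405a02d01680b405a01308c9c43a1af0f7875c40a2150fc1680b405a02d016804f233f10e87044021ef0d288543f01f82d01680b405a00f488ac5721f7115883439e2330ff07983785a02d0168045622b090877c43e1b90f3886c3fc1fe10206f0b405a011108884341ca0f608103681be0f487d437e21311a168041418c10d06803a81ec0d708483ba23d10987ec45c234)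
    (nat_lit 5) (nat_lit 49)
    [[nat_lit 2,nat_lit 17,nat_lit 33,nat_lit 273,nat_lit 0x1000011,nat_lit 0x100011,nat_lit 257,nat_lit 0x10101,
    nat_lit 0x1001,nat_lit 0x2001,nat_lit 0x101001,nat_lit 0x1001001,nat_lit 0x11001,nat_lit 0x10001,nat_lit 0x100001,
    nat_lit 0x1000001],[nat_lit 32,nat_lit 48,nat_lit 0x100020,nat_lit 272,nat_lit 0x100110,nat_lit 0x1010,
    nat_lit 0x101010,nat_lit 0x10010,nat_lit 0x110010,nat_lit 0x100010,nat_lit 0x1000010,nat_lit 0x1010010,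
    nat_lit 0x1100010],[nat_lit 512,nat_lit 0x1100,nat_lit 0x101100,nat_lit 0x10100,nat_lit 0x100100],[nat_lit 0x2000,
    nat_lit 0x102000,nat_lit 0x11000,nat_lit 0x101000,nat_lit 0x111000,nat_lit 0x201000,nat_lit 0x1101000,
    nat_lit 0x1001000],[nat_lit 0x20000,nat_lit 0x110000,nat_lit 0x1010000],[nat_lit 0x200000,nat_lit 0x1100000],
    [nat_lit 0x2000000]]
    [.c (nat_lit 1) (nat_lit 2),.c (nat_lit 0) (nat_lit 0x300c43),.r (nat_lit 0x113f) (nat_lit 10) [nat_lit 0x6310801,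
    nat_lit 0x6218861,nat_lit 0x146318801,nat_lit 65],.c (nat_lit 6) (nat_lit 0x4210003),
    .r (nat_lit 0x1cdb) (nat_lit 8) [nat_lit 0x4000061,nat_lit 0x6018801],.c (nat_lit 3) (nat_lit 0x4210003),
    .c (nat_lit 6) (nat_lit 0x6300002),.r (nat_lit 0x1caf) (nat_lit 0) [nat_lit 0x4000001,nat_lit 0x6000041],
    .c (nat_lit 0) (nat_lit 0x4200803),.c (nat_lit 0) (nat_lit 0x318843),.c (nat_lit 1) (nat_lit 0xc02),
    .c (nat_lit 3) (nat_lit 0x4400803),.c (nat_lit 6) (nat_lit 0x210062),.c (nat_lit 6) (nat_lit 0x210862),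
    .r (nat_lit 0x1d07) (nat_lit 4) [nat_lit 65,nat_lit 0x4000001],.r (nat_lit 0x1bdf) (nat_lit 5) [nat_lit 65,
    nat_lit 0x200c41],.c (nat_lit 2) (nat_lit 2),.r (nat_lit 0x1cdc) (nat_lit 6) [nat_lit 0x760042,nat_lit 0x600062,
    nat_lit 65,nat_lit 0x4000001,nat_lit 0x37276b062],.r (nat_lit 0x1cdc) (nat_lit 6) [nat_lit 0x530041,
    nat_lit 0x400061,nat_lit 0x300081,nat_lit 0x4000001,nat_lit 0x1da339861],
    .r (nat_lit 0x1aef) (nat_lit 10) [nat_lit 0x84200061,nat_lit 0x88200c01,nat_lit 0xca300841],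
    .c (nat_lit 1) (nat_lit 0x4210003),.r (nat_lit 0x1d07) (nat_lit 9) [nat_lit 65,nat_lit 0x4000001],
    .c (nat_lit 2) (nat_lit 0xc02),.c (nat_lit 0) (nat_lit 0x300c43),.c (nat_lit 3) (nat_lit 0x4400862),
    .c (nat_lit 4) (nat_lit 0x18802),.r (nat_lit 0x1caf) (nat_lit 0) [nat_lit 0x4000001,nat_lit 0x6018861],
    .c (nat_lit 6) (nat_lit 0x6300c43),.c (nat_lit 5) (nat_lit 0x6300c43),.c (nat_lit 3) (nat_lit 2),
    .c (nat_lit 0) (nat_lit 0x4200803),.c (nat_lit 3) (nat_lit 0xc02),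
    .r (nat_lit 0x1cdb) (nat_lit 8) [nat_lit 0x4010c41,nat_lit 0x6018801],.c (nat_lit 5) (nat_lit 0x6518c42),
    .c (nat_lit 4) (nat_lit 2),.c (nat_lit 4) (nat_lit 0xc02),.c (nat_lit 0) (nat_lit 0x6518043),
    .c (nat_lit 0) (nat_lit 0x803),.c (nat_lit 5) (nat_lit 0xc02),.c (nat_lit 6) (nat_lit 0xc02),
    .c (nat_lit 3) (nat_lit 0x200803),.c (nat_lit 0) (nat_lit 0x6318043),.c (nat_lit 5) (nat_lit 2),
    .r (nat_lit 0x1b04) (nat_lit 5) [nat_lit 65,nat_lit 0x4000001],.c (nat_lit 6) (nat_lit 0x4210862),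
    .c (nat_lit 6) (nat_lit 2),.c (nat_lit 1) (nat_lit 0x4000002),.c (nat_lit 7) (nat_lit 2)],
    .l (nat_lit 10) (nat_lit 240) (nat_lit 3) (nat_lit 0x690000006900000077000000770000006d0000006d00000082000000820000006a0000006a00000078000000940000007200000072) (nat_lit 0x2b0000002b0000001d0000001d000000270000002700000012000000120000002a0000002a000000000000001c0000002200000022)
    (nat_lit 0xf03e1484c1003a164590f43d1a44d11c470f83c1484c1084216c5b0fc3f0ac4d11c471304c1685a1304a19465134491dc5b15c93148521685a140501545b1344d1dc5b174991083a1404a1404616c5b10c530a4511144b108401404c1685016c5b1345d1b4511243316c5916c6516c5b1585c160582685c1886016c591546516c5b140561605825056188600fc3d134491745316058140601a84e118360fc3d1344d1344316058100501a84e120481344d16c5b144511585c1384e1e05c160560ac691dc771b4292509a1a86a250781c87211c47264930cc4b18060120361c8561405011c47174571244518862120461c85814050)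
    (nat_lit 0xf0f03c0f03c0f03c0f03c0f03c0f03c0f00f83c3c0f03c0f03c0f03c0f03c0f03c0f014852168f03c0f03c0f03c0f03c0f03c0f01304c1685a3c0f03c0f03c0f03c0f03c0f01004213050140f03c0f03c0f03c0f03c0f00e84212850118503c0f03c0f03c0f03c0f01645b1945516c5b158f03c0f03c0f03c0f01645b1945b16c5b170563c0f03c0f03c0f00f43f1344d10c4d16058140f03c0f03c0f00f43f1244d14c5d16058180503c0f03c0f01a42b1d4770a46b210841a0681e0f03c0f01344d16c5b14451170561384e170783c0f011c4715c5d11449188621184816072140f011c471f48312c33180600d8481585c14050)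
    (nat_lit 4) (nat_lit 59)
    [[nat_lit 2,nat_lit 258,nat_lit 0x10002,nat_lit 0x1000002,nat_lit 17,nat_lit 0x10011,nat_lit 0x1000011,
    nat_lit 257,nat_lit 513,nat_lit 0x10101,nat_lit 0x1000101,nat_lit 0x1001,nat_lit 0x10001,nat_lit 0x20001,
    nat_lit 0x1010001,nat_lit 0x100101,nat_lit 0x110001,nat_lit 0x1000001,nat_lit 0x2000001],[nat_lit 272,
    nat_lit 0x10010,nat_lit 0x10110,nat_lit 0x11010,nat_lit 0x20010,nat_lit 0x110010,nat_lit 0x1010010,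
    nat_lit 0x100010,nat_lit 0x1000010,nat_lit 0x1000110,nat_lit 0x1001010,nat_lit 0x1100010,nat_lit 0x2000010],
    [nat_lit 512,nat_lit 0x100200,nat_lit 0x1000200,nat_lit 0x1100,nat_lit 0x10100,nat_lit 0x110100,nat_lit 0x1010100,
    nat_lit 0x100100,nat_lit 0x1100100,nat_lit 0x1000100,nat_lit 0x2000100],[nat_lit 0x2000,nat_lit 0x11000,
    nat_lit 0x101000,nat_lit 0x1001000],[nat_lit 0x20000,nat_lit 0x120000,nat_lit 0x1020000,nat_lit 0x110000,
    nat_lit 0x1110000,nat_lit 0x1010000,nat_lit 0x2010000],[nat_lit 0x200000,nat_lit 0x1100000,nat_lit 0x2100000],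
    [nat_lit 0x2000000,nat_lit 0x3000000]]
    [.c (nat_lit 1) (nat_lit 2),.c (nat_lit 5) (nat_lit 0x202203),.c (nat_lit 1) (nat_lit 0x2302),
    .c (nat_lit 1) (nat_lit 0x2002),.r (nat_lit 0x1750) (nat_lit 4) [nat_lit 33,nat_lit 0x3003231],
    .r (nat_lit 0x1898) (nat_lit 6) [nat_lit 0x200001,nat_lit 0x5535221,nat_lit 0x3533041,nat_lit 0x2222031],
    .r (nat_lit 0x1898) (nat_lit 6) [nat_lit 0x200001,nat_lit 0x5533221,nat_lit 0x3532041,nat_lit 0x2220031],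
    .c (nat_lit 1) (nat_lit 0x204003),.r (nat_lit 0x1930) (nat_lit 6) [nat_lit 33,nat_lit 0x200001,nat_lit 0x9757621,
    nat_lit 0x4026051],.c (nat_lit 1) (nat_lit 0x202203),.c (nat_lit 1) (nat_lit 0x202003),
    .r (nat_lit 0x1c82) (nat_lit 3) [nat_lit 33,nat_lit 0x3003231],.c (nat_lit 0) (nat_lit 0x604809),
    .r (nat_lit 0x174c) (nat_lit 2) [nat_lit 0x200001,nat_lit 0x5535401,nat_lit 0x4026031],
    .r (nat_lit 0x174c) (nat_lit 2) [nat_lit 0x200001,nat_lit 0x5535401,nat_lit 0x4024031],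
    .c (nat_lit 0) (nat_lit 0x220232),.c (nat_lit 1) (nat_lit 0x222032),.c (nat_lit 0) (nat_lit 0x604009),
    .r (nat_lit 0x174c) (nat_lit 2) [nat_lit 0x200001,nat_lit 0x5535401,nat_lit 0x4022031],
    .r (nat_lit 0x1bec) (nat_lit 9) [nat_lit 33,nat_lit 0x3303201],.r (nat_lit 0x1ce4) (nat_lit 4) [nat_lit 0x3303201,
    nat_lit 0x3021],.r (nat_lit 0x1cf7) (nat_lit 2) [nat_lit 0x2002031,nat_lit 0x3303201,nat_lit 0x200001],
    .c (nat_lit 1) (nat_lit 0x32302),.r (nat_lit 8) (nat_lit 4) [nat_lit 0x2204031,nat_lit 0x3303201],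
    .r (nat_lit 0x1750) (nat_lit 4) [nat_lit 0x2220321,nat_lit 0x5333431],
    .r (nat_lit 8) (nat_lit 4) [nat_lit 0x2202031,nat_lit 0x3303201],
    .r (nat_lit 0x1c82) (nat_lit 3) [nat_lit 0x3003231,nat_lit 33],.r (nat_lit 0x1ce4) (nat_lit 4) [nat_lit 0x3303201,
    nat_lit 33],.r (nat_lit 0x1cf7) (nat_lit 2) [nat_lit 0x2000031,nat_lit 0x3303201,nat_lit 0x200001],
    .c (nat_lit 1) (nat_lit 0x32002),.r (nat_lit 0x1750) (nat_lit 4) [nat_lit 0x2222321,nat_lit 0x5335431],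
    .r (nat_lit 8) (nat_lit 4) [nat_lit 0x2200031,nat_lit 0x3303201],.c (nat_lit 3) (nat_lit 2),
    .r (nat_lit 0x1ccd) (nat_lit 8) [nat_lit 0x200001,nat_lit 0x5535401,nat_lit 0x4424541],
    .c (nat_lit 1) (nat_lit 0x406003),.r (nat_lit 0x1750) (nat_lit 8) [nat_lit 33,nat_lit 0x3303201],
    .c (nat_lit 0) (nat_lit 0x200405),.c (nat_lit 1) (nat_lit 0x32023),.c (nat_lit 0) (nat_lit 0x200203),
    .c (nat_lit 1) (nat_lit 0x34323),.c (nat_lit 1) (nat_lit 0x32323),.c (nat_lit 0) (nat_lit 0x200005),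
    .c (nat_lit 0) (nat_lit 0x200003),.c (nat_lit 4) (nat_lit 2),.r (nat_lit 0x1d07) (nat_lit 11) [nat_lit 0x3303201,
    nat_lit 0x3021],.r (nat_lit 0x1750) (nat_lit 4) [nat_lit 0x3003231,nat_lit 33],
    .r (nat_lit 0x1d07) (nat_lit 11) [nat_lit 0x3303201,nat_lit 33],.c (nat_lit 5) (nat_lit 2),
    .c (nat_lit 0) (nat_lit 0x395889),.c (nat_lit 0) (nat_lit 0x600805),.c (nat_lit 0) (nat_lit 0x553345),
    .c (nat_lit 0) (nat_lit 0x395089),.c (nat_lit 5) (nat_lit 514),.c (nat_lit 0) (nat_lit 0x600405),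
    .c (nat_lit 6) (nat_lit 2),.c (nat_lit 0) (nat_lit 0x553543),.c (nat_lit 0) (nat_lit 0x395989),
    .c (nat_lit 7) (nat_lit 2),.c (nat_lit 0) (nat_lit 0x600005)],
    .l (nat_lit 13) (nat_lit 0x5a0) (nat_lit 3) (nat_lit 0x25e0000024a0000021e000002a200000224000002d4000002ac000002ac000002960000021200000255000002650000026000000260) (nat_lit 0x8a0000007600000032000000b600000000000000b00000002800000028000000c20000003e0000006f0000007f0000007400000074)
    (nat_lit 0xf307e84701a80b406b846c22a0b405a03f61e50f507a83801e610f06502d019a11108883101680f386fc3ac1dc0ca06a03d816810f05a05342d80b4078035219f0cc067843c23813807b04981f21650c202d016a11c887445c22e0cd06b83e41680cb05d05ec2520b4065836a21d0d206a82d016812608785a81961a80ab04e82a20f689544d827211108a86102d815609484f02840f507284561cb1970ac04442361650a686a02f611c09e036c26e11b87845e02720b405a02d41e015106584dc1ca1100a903da24b11108a03101680b405a04e81680db07a82d02200b4864c33019e0df879443a19f12a88743c21cb0c9892c3cc1be10a886c3ce1fb11c86a43da1b511b88ac2d21ed0fe07983e21f10ee07a845c19e13906a84e42b00cf08a03e221b0f007983ac1ea11706604d81a41780cb83302220f888543b41e0)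
    (nat_lit 0xf31680b405a02d01680b405a02d01680b405a02d016803f41e62d01680b405a02d01680b405a02d01680b405a011c08783d85a02d01680b405a02d01680b405a02d016803501940b407b0b405a02d01680b405a02d01680b405a00b405a043c24c0cb1680b405a02d01680b405a02d0168035c19a0b407c82e81962d01680b405a02d01680b405a011b08885342ca17b0d404f05a02d01680b405a02d0168045422216c0c204a42ac14209e0b405a02d01680b405a00b406202d01680b409d03d41b61101680b405a02d016802d01680f005a832c2a20e509b85482202d01680b405a00fd879c3522390da87b44562370f685a43cc5a02d016803ca1bf0cf887443a2550e587844961930df0798b405a00f5075833022e0d209b065c2f0111066042a1f10f016803d41dc0cf08b835427215809c845019e10d87c43cc1e0)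
    (nat_lit 5) (nat_lit 37)
    [[nat_lit 2,nat_lit 17,nat_lit 0x1000011,nat_lit 257,nat_lit 0x100101,nat_lit 0x1000101,nat_lit 0x10001,
    nat_lit 0x110001,nat_lit 0x1010001,nat_lit 0x100001,nat_lit 0x1000001,nat_lit 0x2000001],[nat_lit 32,nat_lit 288,
    nat_lit 272,nat_lit 0x1110,nat_lit 0x100110,nat_lit 0x1000110,nat_lit 0x10110,nat_lit 0x1010,nat_lit 0x10010,
    nat_lit 0x10020,nat_lit 0x1010010,nat_lit 0x110010,nat_lit 0x100010,nat_lit 0x1000010],[nat_lit 512,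
    nat_lit 0x100200,nat_lit 0x1000200,nat_lit 0x1100,nat_lit 0x1001100,nat_lit 0x10100,nat_lit 0x110100,
    nat_lit 0x1010100,nat_lit 0x100100,nat_lit 0x200100,nat_lit 0x1100100,nat_lit 0x1000100,nat_lit 0x2000100],
    [nat_lit 0x2000,nat_lit 0x1001000],[nat_lit 0x20000,nat_lit 0x30000,nat_lit 0x120000,nat_lit 0x1020000,
    nat_lit 0x110000,nat_lit 0x1110000,nat_lit 0x1010000,nat_lit 0x2010000],[nat_lit 0x200000,nat_lit 0x1100000],
    [nat_lit 0x2000000]]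
    [.c (nat_lit 1) (nat_lit 2),.r (nat_lit 0x1750) (nat_lit 4) [nat_lit 65,nat_lit 0x200001],
    .c (nat_lit 1) (nat_lit 0x300802),.c (nat_lit 0) (nat_lit 0x6528885),.c (nat_lit 5) (nat_lit 0x318043),
    .c (nat_lit 5) (nat_lit 0x4210062),.c (nat_lit 0) (nat_lit 0x4329089),.c (nat_lit 3) (nat_lit 0x318043),
    .r (nat_lit 0x174e) (nat_lit 4) [nat_lit 0x300861,nat_lit 0x210001],.c (nat_lit 1) (nat_lit 0x802),
    .c (nat_lit 0) (nat_lit 0x6328085),.r (nat_lit 0x1c57) (nat_lit 2) [nat_lit 0x18001,nat_lit 65,nat_lit 0x210001],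
    .c (nat_lit 2) (nat_lit 2),.r (nat_lit 0x1cef) (nat_lit 13) [nat_lit 0x18001,nat_lit 0x210001,nat_lit 0x200c41],
    .c (nat_lit 0) (nat_lit 0x6229485),.r (nat_lit 0x1b7a) (nat_lit 12) [nat_lit 0x210061,nat_lit 0x200061,
    nat_lit 65],.r (nat_lit 0x1cdb) (nat_lit 3) [nat_lit 0x200061,nat_lit 65],.c (nat_lit 0) (nat_lit 0x6229485),
    .r (nat_lit 0x1b88) (nat_lit 10) [nat_lit 0xc6000041,nat_lit 0x318861,nat_lit 0x84000001],
    .c (nat_lit 0) (nat_lit 0x210003),.c (nat_lit 0) (nat_lit 0x4200005),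
    .r (nat_lit 0x1522) (nat_lit 11) [nat_lit 0xc6d39861,nat_lit 0x630001,nat_lit 0xc6000081,nat_lit 0x108000061],
    .c (nat_lit 0) (nat_lit 0x4629489),.r (nat_lit 32) (nat_lit 12) [nat_lit 0x318861,nat_lit 0x210001],
    .r (nat_lit 0x1750) (nat_lit 4) [nat_lit 0x10041,nat_lit 0x200001],.c (nat_lit 0) (nat_lit 0x200c03),
    .c (nat_lit 3) (nat_lit 2),.r (nat_lit 0x1c5d) (nat_lit 11) [nat_lit 0xca529061,nat_lit 0x88821441,
    nat_lit 0xca501061],.r (nat_lit 0x15a7) (nat_lit 8) [nat_lit 0x420001,nat_lit 0x14b14a0a1,nat_lit 0x400001,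
    nat_lit 0x84000001],.r (nat_lit 0x1bdf) (nat_lit 0) [nat_lit 65,nat_lit 0x84000c41],
    .r (nat_lit 0x1c5a) (nat_lit 4) [nat_lit 0x10001,nat_lit 0x200001,nat_lit 0x300041],
    .r (nat_lit 0x1d07) (nat_lit 10) [nat_lit 65,nat_lit 0x210001],.c (nat_lit 1) (nat_lit 0x318043),
    .r (nat_lit 8) (nat_lit 5) [nat_lit 0x300861,nat_lit 0x200001],.c (nat_lit 0) (nat_lit 0x6529487),
    .c (nat_lit 5) (nat_lit 0x318c43),.c (nat_lit 5) (nat_lit 0x4210862),.c (nat_lit 0) (nat_lit 0x6229485),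
    .c (nat_lit 5) (nat_lit 0x8210862),.c (nat_lit 4) (nat_lit 2),.c (nat_lit 5) (nat_lit 0x4018002),
    .c (nat_lit 5) (nat_lit 2),.r (nat_lit 0x1522) (nat_lit 11) [nat_lit 0x1ced39841,nat_lit 0x630001,
    nat_lit 0x18c0000a1,nat_lit 65],.c (nat_lit 0) (nat_lit 0x6000002),
    .r (nat_lit 0xd86) (nat_lit 3) [nat_lit 0x8094a0e1,nat_lit 0x40001,nat_lit 0x140000081,nat_lit 0x80000041],
    .c (nat_lit 0) (nat_lit 0x4329489),.r (nat_lit 0x174e) (nat_lit 4) [nat_lit 0x318861,nat_lit 0x210001],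
    .c (nat_lit 0) (nat_lit 0x4629489),.r (nat_lit 0x1cec) (nat_lit 2) [nat_lit 0x18001,nat_lit 0x210001,
    nat_lit 0x200c41],.c (nat_lit 6) (nat_lit 2),.c (nat_lit 0) (nat_lit 0x6329485),.c (nat_lit 7) (nat_lit 2)]]

/-- nodes -/
noncomputable def rD7k_25_26 : List RJ :=
  [.l (nat_lit 16) (nat_lit 0x2760) (nat_lit 3) (nat_lit 0xf8000000f800000123e00000fee00000ccc0000127400001223000012230000103600000e26000010d7000010d700000f4c00000f80) (nat_lit 0x2f4000002f4000002860000003600000000000005a800000051000000510000044e0000023e0000019d0000019d000002f400000328)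
    (nat_lit 0x11fe09d80cfa115c0f8009d8124910ed0a6a0d420a1b0c350c8c0cc4111011fe0e3e0f4a0a5e09d80f010eb10b3209d812430b450a7a0c580f4a115c0fb80d8412bc0b521557170f108e102e10a110a109d80ab60e3e0cfa0ab40fb811b00a461051120b0c2c0db00e1d0cf70cfa0a3e09d809d80a460b520a5e09d80c7b0ab909d809da0db70aa309d809d80a5e0f8011b012bc12740a5e1249122309d81036125f11b70dc209d80eb110ed120b170f12230ab911d211d20cf50fbf15fa14d40f2f0d730f0112491051155712490c7b117a11d20c9d0fe5128c11660f2f0aad09d80d420db0102e103609da0fe50fbf0b080e5012e70fd10a280b080b320a6a0c2c108e09d809d80c9d0cf509d80b080c890c890ce00d180b450c350cf710a111b70aa3116614d40c890fd10d200f3a0eab0daf12430a1b0e1d10a1125f0db7128c15fa0c8912e70b060d200d770daf0c580cc40a3e0ab609d809d80aad0d730d180b080daf0daf102010580a7a0c8c0cfa09d80dc209d80f2f0f2f0ce00a280d770eab0f401020)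
    (nat_lit 0x11fe276027602760276027602760276027602760276027602760276009d811fe2760276027602760276027602760276027602760276027600cfa0e3e0fb827602760276027602760276027602760276027602760115c0f4a0d840fb827602760276027602760276027602760276027600f800a5e12bc11b00a5e27602760276027602760276027602760276009d809d80b520a4609d80a5e2760276027602760276027602760276012490f01155710510c7b124911d2276027602760276027602760276010ed0eb1170f120b0ab9122311d211d22760276027602760276027600a6a0b32108e0c2c09d809d80cf50c9d0b08276027602760276027600d4209d8102e0db009da10360fbf0fe50e500b0827602760276027600a1b124310a10e1d0db7125f15fa128c12e70c890d202760276027600c350b4510a10cf70aa311b714d411660fd10c890f3a0d20276027600c8c0a7a09d80cfa09d80dc20f2f0f2f0a280ce00eab0d77102027600cc40c580ab60a3e09d809d80d730aad0b080d180daf0daf10581020)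
    (nat_lit 4) (nat_lit 79)
    [[nat_lit 2,nat_lit 0x10002,nat_lit 0x100002,nat_lit 0x1000002,nat_lit 17,nat_lit 273,nat_lit 0x10011,
    nat_lit 0x1000011,nat_lit 0x100011,nat_lit 257,nat_lit 513,nat_lit 0x1101,nat_lit 0x10101,nat_lit 0x100101,
    nat_lit 0x1000101,nat_lit 0x1001,nat_lit 0x11001,nat_lit 0x10001,nat_lit 0x20001,nat_lit 0x110001,
    nat_lit 0x1010001,nat_lit 0x100001,nat_lit 0x101001,nat_lit 0x200001,nat_lit 0x1100001,nat_lit 0x1000001,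
    nat_lit 0x1001001,nat_lit 0x2000001],[nat_lit 32,nat_lit 0x1000020,nat_lit 272,nat_lit 0x1000110,nat_lit 0x10010,
    nat_lit 0x1010010,nat_lit 0x100010,nat_lit 0x1000010,nat_lit 0x1100010,nat_lit 0x2000010],[nat_lit 512,
    nat_lit 768,nat_lit 0x10200,nat_lit 0x1000200,nat_lit 0x1100,nat_lit 0x10100,nat_lit 0x20100,nat_lit 0x1010100,
    nat_lit 0x11100,nat_lit 0x110100,nat_lit 0x100100,nat_lit 0x1000100,nat_lit 0x2000100],[nat_lit 0x2000,
    nat_lit 0x11000,nat_lit 0x1001000],[nat_lit 0x20000,nat_lit 0x30000,nat_lit 0x1020000,nat_lit 0x110000,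
    nat_lit 0x1010000,nat_lit 0x1110000,nat_lit 0x2010000],[nat_lit 0x200000,nat_lit 0x1100000],[nat_lit 0x2000000]]
    [.c (nat_lit 1) (nat_lit 2),.r (nat_lit 0x1cee) (nat_lit 11) [nat_lit 0x23003,nat_lit 33,nat_lit 0x202003],
    .r (nat_lit 0x1cdb) (nat_lit 3) [nat_lit 0x3400763,nat_lit 0x2320673],
    .r (nat_lit 899) (nat_lit 9) [nat_lit 0x2333601,nat_lit 0x200001,nat_lit 0x3000071,nat_lit 0x20001,nat_lit 97],
    .c (nat_lit 0) (nat_lit 0x23326d),.r (nat_lit 0x1cdb) (nat_lit 3) [nat_lit 0x20306d3,nat_lit 0x32407c3],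
    .r (nat_lit 0x1a29) (nat_lit 13) [nat_lit 0x32003,nat_lit 0x330673,nat_lit 0x220003],
    .r (nat_lit 0xf22) (nat_lit 13) [nat_lit 0x3061,nat_lit 0x20001,nat_lit 0x330671,nat_lit 0x200001],
    .r (nat_lit 0x1cdb) (nat_lit 3) [nat_lit 0x34357c3,nat_lit 0x23446d3],.c (nat_lit 0) (nat_lit 0x233367),
    .r (nat_lit 0x1cdb) (nat_lit 3) [nat_lit 0x24396d9,nat_lit 0x32887c9],.c (nat_lit 0) (nat_lit 0x33227c),
    .r (nat_lit 8) (nat_lit 3) [nat_lit 0x303673,nat_lit 0x202003],.r (nat_lit 0x1cdb) (nat_lit 3) [nat_lit 0x20256d3,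
    nat_lit 0x32047c3],.r (nat_lit 0x1748) (nat_lit 3) [nat_lit 0x2001,nat_lit 0x333671,nat_lit 0x220003],
    .r (nat_lit 0x1cdb) (nat_lit 3) [nat_lit 0x30207c3,nat_lit 0x22006d3],
    .r (nat_lit 0x1c5f) (nat_lit 4) [nat_lit 0x2030003,nat_lit 0x2232073,nat_lit 0x3020063],
    .r (nat_lit 0x1d07) (nat_lit 5) [nat_lit 0x220003,nat_lit 33],.r (nat_lit 0x1911) (nat_lit 6) [nat_lit 0x220003,
    nat_lit 0x2333603,nat_lit 0x202003,nat_lit 0x32227c3],.r (nat_lit 0x1a29) (nat_lit 13) [nat_lit 0x32003,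
    nat_lit 0x303673,nat_lit 0x220003],.r (nat_lit 0x1748) (nat_lit 7) [nat_lit 0x20001,nat_lit 0x333671,
    nat_lit 0x202003],.c (nat_lit 0) (nat_lit 0x23236d),.c (nat_lit 0) (nat_lit 0x33006),
    .r (nat_lit 0x1cdb) (nat_lit 3) [nat_lit 0x34707c3,nat_lit 0x23806d3],
    .r (nat_lit 0xf22) (nat_lit 13) [nat_lit 0x30061,nat_lit 0x20001,nat_lit 0x303671,nat_lit 0x200001],
    .r (nat_lit 0x1bec) (nat_lit 4) [nat_lit 33,nat_lit 0x202003],.r (nat_lit 0x1cdb) (nat_lit 13) [nat_lit 0x202073,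
    nat_lit 33],.r (nat_lit 900) (nat_lit 9) [nat_lit 0x23336d1,nat_lit 0x200001,nat_lit 0x3000061,nat_lit 0x20001,
    nat_lit 97],.c (nat_lit 2) (nat_lit 2),.r (nat_lit 0x1b36) (nat_lit 2) [nat_lit 0x3021,nat_lit 0x24003,
    nat_lit 0x202003],.r (nat_lit 8) (nat_lit 5) [nat_lit 0x2334676,nat_lit 0x220003],
    .r (nat_lit 0x1a29) (nat_lit 11) [nat_lit 0x23003,nat_lit 0x330673,nat_lit 0x202003],
    .c (nat_lit 0) (nat_lit 0x33326d),.c (nat_lit 1) (nat_lit 0x200306),.c (nat_lit 0) (nat_lit 0x2207),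
    .c (nat_lit 0) (nat_lit 0x33326d),.r (nat_lit 0x1b36) (nat_lit 2) [nat_lit 0x35063,nat_lit 0x24003,
    nat_lit 0x202003],.r (nat_lit 0x1b36) (nat_lit 2) [nat_lit 0x3022,nat_lit 0x24003,nat_lit 0x202003],
    .c (nat_lit 3) (nat_lit 2),.r (nat_lit 0x1cdb) (nat_lit 3) [nat_lit 0x203033,nat_lit 0x22023],
    .r (nat_lit 0x1b22) (nat_lit 8) [nat_lit 0x23003,nat_lit 0x202003,nat_lit 0x220763],
    .r (nat_lit 0x1cf1) (nat_lit 13) [nat_lit 0x32003,nat_lit 33,nat_lit 0x220003],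
    .r (nat_lit 0x1cdb) (nat_lit 3) [nat_lit 0x403073,nat_lit 0x322063],.r (nat_lit 0x1ce4) (nat_lit 6) [nat_lit 33,
    nat_lit 0x220003],.r (nat_lit 8) (nat_lit 3) [nat_lit 0x3323676,nat_lit 0x202003],
    .r (nat_lit 8) (nat_lit 5) [nat_lit 0x330673,nat_lit 0x220003],.r (nat_lit 901) (nat_lit 5) [nat_lit 0x3033671,
    nat_lit 0x200001,nat_lit 0x23227c1,nat_lit 0x2001,nat_lit 0x33671],
    .r (nat_lit 0x1aa7) (nat_lit 13) [nat_lit 0x32003,nat_lit 0x303673,nat_lit 0x220003],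
    .r (nat_lit 8) (nat_lit 5) [nat_lit 0x2302676,nat_lit 0x220003],.r (nat_lit 0x1d07) (nat_lit 9) [nat_lit 0x202003,
    nat_lit 33],.r (nat_lit 0x1748) (nat_lit 3) [nat_lit 0x2001,nat_lit 0x3333672,nat_lit 0x220003],
    .c (nat_lit 4) (nat_lit 2),.r (nat_lit 0x1cdb) (nat_lit 7) [nat_lit 0x430073,nat_lit 0x322063],
    .r (nat_lit 0x1b36) (nat_lit 2) [nat_lit 0x303063,nat_lit 0x24003,nat_lit 0x202003],.c (nat_lit 5) (nat_lit 2),
    .r (nat_lit 0x1cdb) (nat_lit 7) [nat_lit 0x230033,nat_lit 0x22023],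
    .r (nat_lit 0x1cf3) (nat_lit 6) [nat_lit 0x220003,nat_lit 0x202003,nat_lit 0x422763],
    .c (nat_lit 0) (nat_lit 0x33236d),.c (nat_lit 0) (nat_lit 0x33336d),.c (nat_lit 1) (nat_lit 0x203006),
    .r (nat_lit 901) (nat_lit 5) [nat_lit 97,nat_lit 0x200001,nat_lit 0x33336d1,nat_lit 0x2001,nat_lit 0x2000061],
    .c (nat_lit 6) (nat_lit 2),.c (nat_lit 0) (nat_lit 0x33236d),.c (nat_lit 7) (nat_lit 2)],
    .l (nat_lit 13) (nat_lit 0x780) (nat_lit 3) (nat_lit 0x3c00000057800000482000003ac0000047a000003ac0000043300000433000003ac000003e00000041700000417000003ac000003ac) (nat_lit 0x1b8000001cc000000f6000001cc000000fe000001450000014500000198000001cc0000016100000161000001cc000001cc)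
    (nat_lit 0x1e008203c02ca0fa0b084f627b11407d04be2930fa0880af03c00f0120853c47a219885c7801e027694847583ac2410b2856c38c2691540a1244b0f00ad864234115b07803c01e00f00ad84602ae19a89dc4281e0105892c3c01e023d0b0855c55014f0df066a2e517107806323191610bb853c1f411813483c029e0fe899c3d81e011187843c01e010b89ec4ee44b1338b945dc2ee1828b445a42fa1338a3c86627b19a94243fa3351770bb85362671690b484ce2670f007d03c02b60f007804ce2d110a078049624b0f0078078022810a07803d82e214d8c1449021413f89fc3c02142908a4c4963410f08c645a42fa13f892c56c2b6125892c9da25f1058c844463191690b484fe24b15b0ad843e24b1d608803c01e00f00bb84ce28f10a078049624b0f007807581f40f00ad83c02c2133899c3c01e010f892c3c01e0)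
    (nat_lit 0x1e01e00f007803c01e00f007803c01e00f007803c01e004103c03c01e00f007803c01e00f007803c01e00f007800f0078056c7803c01e00f007803c01e00f007803c01e005944821c60ad8f007803c01e00f007803c01e00f007800fa0a789a423014f1e00f007803c01e00f007803c01e0058447a2a80ab86f829e3c01e00f007803c01e00f0078013d90cca1233519a87f45dc7803c01e00f007803c01e004f621722589dc5ca2671770bb8f007803c01e00f007801140f003c021417107b060a29b10a1e00f007803c01e003e81e015b07803c01e0168899c3c02143c01e00f0078012f917c64220b18c888c5a42d212589fc56c7803c01e0052645f1a0892c6321e117d0b4849627f15b0ad8f007800fa0eb056c1e016107804ce2670f0078049621f0f01e004403ac0f007805dc1e0147899c3c0214125892c3c01e0)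
    (nat_lit 5) (nat_lit 79)
    [[nat_lit 2,nat_lit 3,nat_lit 18,nat_lit 258,nat_lit 0x1002,nat_lit 0x10002,nat_lit 0x100002,nat_lit 17,
    nat_lit 33,nat_lit 273,nat_lit 0x10011,nat_lit 0x100011,nat_lit 257,nat_lit 513,nat_lit 0x1101,nat_lit 0x10101,
    nat_lit 0x100101,nat_lit 0x1000101,nat_lit 0x1001,nat_lit 0x11001,nat_lit 0x101001,nat_lit 0x1001001,
    nat_lit 0x10001,nat_lit 0x20001,nat_lit 0x110001,nat_lit 0x100001,nat_lit 0x200001,nat_lit 0x1100001,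
    nat_lit 0x1000001],[nat_lit 32,nat_lit 272,nat_lit 528,nat_lit 0x10110,nat_lit 0x100110,nat_lit 0x1000110,
    nat_lit 0x1010,nat_lit 0x1001010,nat_lit 0x10010,nat_lit 0x100010],[nat_lit 512,nat_lit 768,nat_lit 0x10200,
    nat_lit 0x100200,nat_lit 0x1000200,nat_lit 0x1100,nat_lit 0x11100,nat_lit 0x1001100,nat_lit 0x10100,
    nat_lit 0x20100,nat_lit 0x1010100,nat_lit 0x110100,nat_lit 0x100100,nat_lit 0x101100,nat_lit 0x200100,
    nat_lit 0x1100100,nat_lit 0x1000100],[nat_lit 0x2000,nat_lit 0x11000,nat_lit 0x1011000,nat_lit 0x1001000],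
    [nat_lit 0x20000,nat_lit 0x1010000],[nat_lit 0x200000,nat_lit 0x1200000,nat_lit 0x1100000],[]]
    [.c (nat_lit 1) (nat_lit 2),.r (nat_lit 0x1cf6) (nat_lit 7) [nat_lit 65,nat_lit 0x10001,nat_lit 0x180600061],
    .c (nat_lit 0) (nat_lit 0x10528887),.c (nat_lit 0) (nat_lit 0x8329485),
    .r (nat_lit 0x1bec) (nat_lit 2) [nat_lit 0xc0300041,nat_lit 0x200001],.c (nat_lit 0) (nat_lit 0x834a507),
    .r (nat_lit 0x14c5) (nat_lit 4) [nat_lit 0x30001,nat_lit 0x140028041,nat_lit 0x100620061,nat_lit 0xc0749861],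
    .c (nat_lit 0) (nat_lit 0x8319047),.r (nat_lit 0x1c82) (nat_lit 13) [nat_lit 0xc0018041,nat_lit 0x80220061],
    .c (nat_lit 0) (nat_lit 0x8328085),.r (nat_lit 0x1bec) (nat_lit 5) [nat_lit 0xc0018041,nat_lit 0x10001],
    .c (nat_lit 4) (nat_lit 0x4020803),.c (nat_lit 0) (nat_lit 0x18c43),.c (nat_lit 0) (nat_lit 0x29483),
    .c (nat_lit 4) (nat_lit 0x230862),.c (nat_lit 0) (nat_lit 0x18c43),.c (nat_lit 4) (nat_lit 0x220862),
    .r (nat_lit 0x1cf7) (nat_lit 0) [nat_lit 0x318861,nat_lit 0x200001,nat_lit 0x10001],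
    .c (nat_lit 0) (nat_lit 0x4010803),.c (nat_lit 0) (nat_lit 0x4211487),.c (nat_lit 0) (nat_lit 0x18002),
    .c (nat_lit 2) (nat_lit 0x4011003),.c (nat_lit 0) (nat_lit 0x18c43),.c (nat_lit 0) (nat_lit 0x29483),
    .r (nat_lit 0x1198) (nat_lit 5) [nat_lit 0x148000081,nat_lit 0x84800061,nat_lit 0x10a94a0a1,nat_lit 0x40001],
    .c (nat_lit 0) (nat_lit 0x4529487),.c (nat_lit 3) (nat_lit 0x318c43),.c (nat_lit 0) (nat_lit 0x4000002),
    .r (nat_lit 0x1bec) (nat_lit 2) [nat_lit 65,nat_lit 0x200001],.c (nat_lit 2) (nat_lit 2),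
    .c (nat_lit 0) (nat_lit 0x8328085),.r (nat_lit 0x716) (nat_lit 10) [nat_lit 0xc8a11441,nat_lit 0x10692a0a1,
    nat_lit 0x8a519061,nat_lit 0x248411441,nat_lit 0x20a521061],.r (nat_lit 0x1d02) (nat_lit 1) [nat_lit 0x200001,
    nat_lit 0x10061,nat_lit 0x318801],.r (nat_lit 0x1cdb) (nat_lit 3) [nat_lit 0x200061,nat_lit 65],
    .c (nat_lit 0) (nat_lit 0xc02),.c (nat_lit 0) (nat_lit 0x4010803),.c (nat_lit 0) (nat_lit 0xc02),
    .r (nat_lit 0x1d07) (nat_lit 7) [nat_lit 0x200001,nat_lit 65],.r (nat_lit 0x1c82) (nat_lit 13) [nat_lit 65,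
    nat_lit 0x210061],.c (nat_lit 3) (nat_lit 2),.r (nat_lit 0x717) (nat_lit 5) [nat_lit 0xcc00001,nat_lit 65,
    nat_lit 0x18d861c41,nat_lit 0xf339861,nat_lit 0x1cf939861],.c (nat_lit 0) (nat_lit 0x29483),
    .r (nat_lit 0x718) (nat_lit 10) [nat_lit 0x400001,nat_lit 0x8000001,nat_lit 0x14a529061,nat_lit 0xa529061,
    nat_lit 0x108441441],.r (nat_lit 0x719) (nat_lit 8) [nat_lit 0x109031441,nat_lit 0xcaf29061,nat_lit 0x14b129061,
    nat_lit 0x200001,nat_lit 0x4400001],.c (nat_lit 0) (nat_lit 0x201485),.c (nat_lit 0) (nat_lit 0x201485),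
    .r (nat_lit 0x1cdb) (nat_lit 9) [nat_lit 0x10061,nat_lit 65],.c (nat_lit 0) (nat_lit 0xa229487),
    .c (nat_lit 0) (nat_lit 0x29483),.c (nat_lit 4) (nat_lit 0x4020862),.c (nat_lit 2) (nat_lit 0x4011062),
    .c (nat_lit 0) (nat_lit 0x329485),.c (nat_lit 0) (nat_lit 0x18002),.c (nat_lit 1) (nat_lit 0x318c43),
    .c (nat_lit 5) (nat_lit 0x6018c43),.c (nat_lit 4) (nat_lit 0x4240862),.c (nat_lit 4) (nat_lit 2),
    .c (nat_lit 0) (nat_lit 0x220003),.c (nat_lit 0) (nat_lit 0x4318002),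
    .r (nat_lit 0x1c82) (nat_lit 13) [nat_lit 0x210061,nat_lit 65],.c (nat_lit 5) (nat_lit 2),
    .c (nat_lit 0) (nat_lit 0xa229487),.c (nat_lit 6) (nat_lit 2),.c (nat_lit 0) (nat_lit 0x8000002),
    .c (nat_lit 0) (nat_lit 0x4000002)]]

/-- nodes -/
noncomputable def rD7k_25_27 : List RJ :=
  [.l (nat_lit 18) (nat_lit 0x8700) (nat_lit 3) (nat_lit 0x30f40000372e000034ee000039c00000377b0000377b00003d960000311800003e5c00003bf8000039e4000039e400003160000031cc) (nat_lit 0x72e00000d680000049c0000096e000006e1000006e100000d44000000c60000026400000000000004780000047800000c9000000cfc)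
    (nat_lit 0xc19023440b16027860aad42a1308ec0371409b902344087002b380919023f80cd6030640d7f02dc00c134336f09a003d3c08700372e0cad821c00aa7822980b70027860b4c0282809ce42aa309ea8342810e0038580e04043800870027f20d7f02c580d4902d300cb7c32df0a5b038fa087003d180f46021c00b4c021c00cdbc2a130cb7c2aa30c268309a09b7c36b51227c3a8b0f81c489f0abac22af0c1342ab50cb7c27390c268309a0a8dc36b5131d43e610f98448f90901422310f4f037140e3e834280dad436b50a5b03cd0094f03d96105b021c00c190253c09a0023b00a5b027aa0a8dc26df08f50296c0bad031180ef50269c0c8e03c400dcb823440f46038580f9843a8b0c4603d96107f03e5c0870039e40c730222c0870026e4087004380131d4489f0bad0253c0e65041fc0bf5037800c2b03040087002b38087004380123e4489f09a7021c00de0039e40d0a0356c0d40034940cad821c00f46038100f9843e070ef50416c0bf5021c009f8034280b5502ce808a6023f80870027f2088c422af0f100253c0c100222c0b3a034940be3031f00aa7824640b4c021c0090142aeb0c8e030640c2b031cc0b5503500096102f8c)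
    (nat_lit 0xc190870021c00870021c00870021c00870021c00870021c00870021c00870008d10306421c00870021c00870021c00870021c00870021c00870021c0087000b16035fc0b4c0870021c00870021c00870021c00870021c00870021c00870009e182dc00a0a02d3021c00870021c00870021c00870021c00870021c0087000aad4304d09ce432df0c268870021c00870021c00870021c00870021c0087000a84c336f0aa8c32df0c268309a21c00870021c00870021c00870021c00870008ec0268009ea8296c09b7c2a370a5b0870021c00870021c00870021c0087000dc503d3c0d0a038fa0dad436b50f340296c21c00870021c00870021c00870009b9021c010e0021c01227c48f9094f02eb4107f0870021c00870021c00870008d10372e0e1603d180ea2c3e610f65831180f97041fc21c00870021c0087000870032b60e0403d180f81c3e61105b03bd4087002fd40d0a0870021c0087000ace021c010e0021c01227c48f908700269c0e79037800d5b0342821c008700091902a9e087002d300abac24050c19032380c73030ac0d4002d540be30870008fe0229809fc821c008abc2231094f03c40088b030400d2502ce80c7c02f8c)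
    (nat_lit 5) (nat_lit 79)
    [[nat_lit 2,nat_lit 258,nat_lit 0x10002,nat_lit 0x100002,nat_lit 0x1000002,nat_lit 17,nat_lit 0x1000011,
    nat_lit 0x1011,nat_lit 0x100011,nat_lit 257,nat_lit 0x1101,nat_lit 0x100101,nat_lit 0x1000101,nat_lit 0x1001,
    nat_lit 0x2001,nat_lit 0x11001,nat_lit 0x101001,nat_lit 0x1001001,nat_lit 0x10001,nat_lit 0x20001,
    nat_lit 0x110001,nat_lit 0x1010001,nat_lit 0x100001,nat_lit 0x200001,nat_lit 0x1100001,nat_lit 0x1000001,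
    nat_lit 0x2000001],[nat_lit 32,nat_lit 0x1000020,nat_lit 0x1020,nat_lit 272,nat_lit 0x1110,nat_lit 0x1000110,
    nat_lit 0x1010,nat_lit 0x1001010,nat_lit 0x100010,nat_lit 0x101010,nat_lit 0x1100010,nat_lit 0x1000010,
    nat_lit 0x2000010],[nat_lit 512,nat_lit 0x1100,nat_lit 0x2100,nat_lit 0x1001100,nat_lit 0x100100,nat_lit 0x110100,
    nat_lit 0x1100100,nat_lit 0x1000100,nat_lit 0x2000100],[nat_lit 0x2000,nat_lit 0x3000,nat_lit 0x11000,
    nat_lit 0x101000,nat_lit 0x1001000],[nat_lit 0x20000,nat_lit 0x110000,nat_lit 0x1010000],[nat_lit 0x200000,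
    nat_lit 0x1100000],[nat_lit 0x2000000]]
    [.c (nat_lit 1) (nat_lit 2),.r (nat_lit 0x9bf) (nat_lit 4) [nat_lit 0x10001,nat_lit 0xc4c198e1,nat_lit 0x600001,
    nat_lit 0x80d00001,nat_lit 0xad000c1],.r (nat_lit 0x1c4f) (nat_lit 13) [nat_lit 0x4c180e3,nat_lit 0x10c0100e3,
    nat_lit 0x60100c3],.r (nat_lit 0xec3) (nat_lit 12) [nat_lit 0xc00001,nat_lit 0x14ad2b001,nat_lit 0x1080000e1,
    nat_lit 0x20001],.c (nat_lit 2) (nat_lit 0x460807),.c (nat_lit 0) (nat_lit 0x230007),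
    .c (nat_lit 0) (nat_lit 0x338c06),.r (nat_lit 32) (nat_lit 0) [nat_lit 0x67100c3,nat_lit 0x886000e3],
    .r (nat_lit 0x1b88) (nat_lit 8) [nat_lit 0xc60198e3,nat_lit 0x67100c3,nat_lit 0x88000003],
    .r (nat_lit 0x1d07) (nat_lit 8) [nat_lit 65,nat_lit 0x200001],.r (nat_lit 0x1b88) (nat_lit 8) [nat_lit 0xca0000c3,
    nat_lit 0x300861,nat_lit 0x88000003],.r (nat_lit 32) (nat_lit 0) [nat_lit 0x300861,nat_lit 0x84611cc3],
    .r (nat_lit 0x9c0) (nat_lit 4) [nat_lit 0x10001,nat_lit 0xc06018e1,nat_lit 0x600001,nat_lit 0x80d00001,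
    nat_lit 0x67180c1],.c (nat_lit 0) (nat_lit 0x4400007),.c (nat_lit 2) (nat_lit 0xa390006),
    .c (nat_lit 0) (nat_lit 0x6300006),.r (nat_lit 0x1c12) (nat_lit 0) [nat_lit 0x300861,nat_lit 0x840100e3,
    nat_lit 0xc66180c3],.c (nat_lit 2) (nat_lit 0x6330c06),.r (nat_lit 32) (nat_lit 0) [nat_lit 0x840100e3,
    nat_lit 65],.r (nat_lit 0x9c1) (nat_lit 3) [nat_lit 0x1d333c8c1,nat_lit 0x52000e1,nat_lit 0x80000c1,
    nat_lit 0x30001,nat_lit 0x60000c1],.r (nat_lit 0x187d) (nat_lit 2) [nat_lit 0x200001,nat_lit 0x88000003,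
    nat_lit 0x6710003,nat_lit 0x300041],.c (nat_lit 4) (nat_lit 0x4200807),
    .r (nat_lit 0x1cdb) (nat_lit 12) [nat_lit 0x84011cc3,nat_lit 0xc6019803],
    .r (nat_lit 0x1cc0) (nat_lit 8) [nat_lit 0x200001,nat_lit 65,nat_lit 0x14a02b0e3],
    .r (nat_lit 0x174e) (nat_lit 13) [nat_lit 0x300861,nat_lit 0x200001],.c (nat_lit 0) (nat_lit 0x440100d),
    .c (nat_lit 2) (nat_lit 0x231007),.c (nat_lit 2) (nat_lit 2),.c (nat_lit 1) (nat_lit 0x460807),
    .r (nat_lit 32) (nat_lit 0) [nat_lit 0x80d200c6,nat_lit 0x88c000e6],.c (nat_lit 0) (nat_lit 0x6300cc7),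
    .r (nat_lit 0xec3) (nat_lit 12) [nat_lit 0xc00001,nat_lit 0x14ad2b001,nat_lit 0x104011cc1,nat_lit 0x20001],
    .r (nat_lit 0x1c80) (nat_lit 5) [nat_lit 0x200001,nat_lit 0x300041,nat_lit 0x14a613263],
    .r (nat_lit 0x1c4f) (nat_lit 13) [nat_lit 0xc66180c3,nat_lit 0x847100c3,nat_lit 0x846100e3],
    .r (nat_lit 0x1caf) (nat_lit 1) [nat_lit 0x200001,nat_lit 0x300041],.c (nat_lit 0) (nat_lit 0x6300cc7),
    .r (nat_lit 0x9bf) (nat_lit 4) [nat_lit 0x10001,nat_lit 0xc0c000c1,nat_lit 0x600001,nat_lit 0x80d00001,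
    nat_lit 0x6d198e1],.r (nat_lit 0x19ed) (nat_lit 11) [nat_lit 0x200001,nat_lit 0x88000003,nat_lit 0xad180c3],
    .r (nat_lit 32) (nat_lit 1) [nat_lit 0x4c201a3,nat_lit 0x80d18183],.c (nat_lit 1) (nat_lit 0x231007),
    .c (nat_lit 3) (nat_lit 2),.r (nat_lit 0x174f) (nat_lit 13) [nat_lit 0x200001,nat_lit 65],
    .r (nat_lit 0x9c2) (nat_lit 1) [nat_lit 0x887198e1,nat_lit 0x6000001,nat_lit 0x88000001,nat_lit 0x1520000c1,
    nat_lit 0x4600001],.r (nat_lit 0x187a) (nat_lit 12) [nat_lit 0x200001,nat_lit 0x847100e3,nat_lit 0x80d200e3,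
    nat_lit 0xc6019803],.c (nat_lit 0) (nat_lit 0x6300cc7),.c (nat_lit 2) (nat_lit 0x6330cc7),
    .c (nat_lit 1) (nat_lit 0x44300e6),.c (nat_lit 0) (nat_lit 0x656818d),
    .r (nat_lit 0x19ed) (nat_lit 11) [nat_lit 0x200001,nat_lit 0x88000003,nat_lit 0xced118e3],
    .c (nat_lit 4) (nat_lit 2),.c (nat_lit 2) (nat_lit 0x6060002),.r (nat_lit 32) (nat_lit 1) [nat_lit 0x1040001a3,
    nat_lit 0xc0010183],.r (nat_lit 0x1cdb) (nat_lit 3) [nat_lit 0x84011cc3,nat_lit 0xc6019803],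
    .r (nat_lit 32) (nat_lit 1) [nat_lit 0x840100e3,nat_lit 65],.c (nat_lit 5) (nat_lit 2),
    .r (nat_lit 0x1384) (nat_lit 2) [nat_lit 0x88000003,nat_lit 0x200001,nat_lit 65,nat_lit 0xc6019803],
    .c (nat_lit 1) (nat_lit 0x200c06),.c (nat_lit 6) (nat_lit 2),.c (nat_lit 0) (nat_lit 0x656818d),
    .c (nat_lit 7) (nat_lit 2)],
    .l (nat_lit 13) (nat_lit 0x5a0) (nat_lit 4) (nat_lit 0x239000002390000022d0000022d00000227000002270000024b0000024b0000027a0000027a0000022d0000022d0000023300000233) (nat_lit 0x41000000410000004d0000004d00000053000000530000002f0000002f00000000000000000000004d0000004d0000004700000047)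
    (nat_lit 0xf607c83f01f20f308281a020a1a18d843c00d00f907c83f01ec0e407b03cc1da15b085847e25d0f607683d81ec0f607c83d81e00e707f83b41fe11f86043cc1da0f907983901f80f007b03fc1da0ff076843622d0f307983841d40ed08283b41fe0fc07503f01d4110889c3d81ec0ea07683cc1e60ff07383a81f80fc07e048a1870ea07e03c01d410b08283b41fe0fc075057821c116892c4141e0102082856c0d00ff07683f01f810e0af049624b0f007f81b82aa12e8d8445a1810c3889c49624b13d09e830e22d1b6894447e34310d88fc48a22112588b44f427a11688b469e2330ed03403cc1da0fc07b03fc1e011688b43c01e006e07983d81e00f307983a81ec0f0082845a1870f007803cc1e60f607c83a81e60ea076855420a11989443cc1e60fc07b03d81f20e107c83c01d406e081069e36d0f303703e41f8)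
    (nat_lit 0xf61680b405a02d01680b405a02d01680b405a02d016803e41ec2d01680b405a02d01680b405a02d01680b405a00fc07203d85a02d01680b405a02d01680b405a02d016803e41ec0f007b0b405a02d01680b405a02d01680b405a00f3079839c1fe0fc1680b405a02d01680b405a02d016804141da0ff07683a81f82d01680b405a02d01680b405a00680ad83b41fe0fc07e05785a02d01680b405a02d016804142160ff07683a81f810e0af0b405a02d01680b405a017e88fc47e21b110891445a24b13d1680b405a02d0168063625d0c088b444e187125892c4f427a2d01680b405a00f007b03cc1e60f607504141e00c388b43c05a02d016801a01da0ed07983d81f80f007f845a22d0f00780b405a00f907b03e41c20ea07804080dc1318c241b81e60fc16803e41ec0f307503b41d41050aa84a22330f307983d81f8)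
    (nat_lit 3) (nat_lit 83)
    [[nat_lit 2,nat_lit 18,nat_lit 0x1002,nat_lit 17,nat_lit 34,nat_lit 33,nat_lit 0x1000021,nat_lit 273,
    nat_lit 0x1011,nat_lit 0x10011,nat_lit 0x100011,nat_lit 0x1000011,nat_lit 0x1001,nat_lit 0x1001001,nat_lit 0x1101,
    nat_lit 0x11001,nat_lit 0x101001,nat_lit 0x10001,nat_lit 0x10101,nat_lit 0x20001,nat_lit 0x110001,
    nat_lit 0x100001,nat_lit 0x100101,nat_lit 0x200001,nat_lit 0x1000001],[nat_lit 32,nat_lit 288,nat_lit 0x1000020,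
    nat_lit 0x2000020,nat_lit 272,nat_lit 0x100110,nat_lit 0x1000110,nat_lit 0x1010,nat_lit 0x1001010,
    nat_lit 0x101010,nat_lit 0x10010,nat_lit 0x1010010,nat_lit 0x110010,nat_lit 0x100010,nat_lit 0x1100010,
    nat_lit 0x1000010,nat_lit 0x2000010],[nat_lit 512,nat_lit 0x1100,nat_lit 0x1001100,nat_lit 0x10100,
    nat_lit 0x100100,nat_lit 0x200100],[nat_lit 0x2000,nat_lit 0x11000,nat_lit 0x101000,nat_lit 0x1001000,
    nat_lit 0x1011000,nat_lit 0x1101000,nat_lit 0x2001000],[nat_lit 0x20000,nat_lit 0x110000,nat_lit 0x210000,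
    nat_lit 0x1010000],[nat_lit 0x200000,nat_lit 0x1100000],[nat_lit 0x2000000]]
    [.c (nat_lit 1) (nat_lit 2),.r (nat_lit 0x1c51) (nat_lit 1) [nat_lit 0x26d1,nat_lit 0x20d1,nat_lit 0x499],
    .r (nat_lit 0x1b5d) (nat_lit 10) [nat_lit 0x18611,nat_lit 0x12819,nat_lit 0x10001],
    .r (nat_lit 0x174f) (nat_lit 1) [nat_lit 0x2001,nat_lit 17],.r (nat_lit 0x174e) (nat_lit 1) [nat_lit 18,
    nat_lit 0x2001],.r (nat_lit 8) (nat_lit 8) [nat_lit 0x1d71a,nat_lit 0x2401],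
    .r (nat_lit 0x174e) (nat_lit 1) [nat_lit 0x412,nat_lit 0x2001],.c (nat_lit 0) (nat_lit 0x6c2),
    .r (nat_lit 8) (nat_lit 8) [nat_lit 0x3099,nat_lit 0x2401],.r (nat_lit 0x1caf) (nat_lit 6) [nat_lit 0x2001,
    nat_lit 0x3611],.r (nat_lit 0x1cba) (nat_lit 4) [nat_lit 0x401,nat_lit 0x3099,nat_lit 0x2001],
    .r (nat_lit 0x1c51) (nat_lit 1) [nat_lit 0x20d1,nat_lit 0x24d1,nat_lit 153],.c (nat_lit 0) (nat_lit 0x2085),
    .r (nat_lit 0x1b5d) (nat_lit 10) [nat_lit 0x18011,nat_lit 0x12419,nat_lit 0x10001],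
    .c (nat_lit 0) (nat_lit 0x3bc4),.r (nat_lit 32) (nat_lit 2) [nat_lit 0x3099,nat_lit 0x2001],
    .r (nat_lit 0x1b6e) (nat_lit 10) [nat_lit 0x3099,nat_lit 0x2419,nat_lit 17],
    .r (nat_lit 0x1c82) (nat_lit 8) [nat_lit 0x2001,nat_lit 17],.c (nat_lit 0) (nat_lit 0x6c2),
    .r (nat_lit 32) (nat_lit 2) [nat_lit 0x1d71a,nat_lit 0x2001],.r (nat_lit 0x1b32) (nat_lit 10) [nat_lit 0x3099,
    nat_lit 0x2419,nat_lit 17],.r (nat_lit 0x1d07) (nat_lit 4) [nat_lit 17,nat_lit 0x2001],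
    .c (nat_lit 0) (nat_lit 0x6c2),.r (nat_lit 0x1b6e) (nat_lit 10) [nat_lit 0x1d71a,nat_lit 0x1c41a,nat_lit 0x10412],
    .c (nat_lit 1) (nat_lit 130),.c (nat_lit 2) (nat_lit 2),.r (nat_lit 0x1b32) (nat_lit 10) [nat_lit 0x13012,
    nat_lit 0x16952,nat_lit 0x1b11a],.r (nat_lit 8) (nat_lit 8) [nat_lit 0x1db1a,nat_lit 0x2401],
    .r (nat_lit 0x174e) (nat_lit 1) [nat_lit 0x812,nat_lit 0x2001],.r (nat_lit 0x1bdf) (nat_lit 7) [nat_lit 17,
    nat_lit 0x104d1],.r (nat_lit 0x1c4f) (nat_lit 10) [nat_lit 0x44d1,nat_lit 0x499,nat_lit 0x699],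
    .c (nat_lit 0) (nat_lit 0x602),.r (nat_lit 0x1d07) (nat_lit 9) [nat_lit 17,nat_lit 0x2001],
    .r (nat_lit 8) (nat_lit 8) [nat_lit 0x3699,nat_lit 0x2401],.r (nat_lit 0x1a7f) (nat_lit 6) [nat_lit 0x5699,
    nat_lit 0x2001,nat_lit 0x2401],.c (nat_lit 0) (nat_lit 0x3b65),.r (nat_lit 0x1caf) (nat_lit 6) [nat_lit 0x2001,
    nat_lit 0x3011],.c (nat_lit 4) (nat_lit 0x249a),.c (nat_lit 0) (nat_lit 0x3b65),
    .r (nat_lit 0x1cba) (nat_lit 4) [nat_lit 0x401,nat_lit 0x3699,nat_lit 0x2001],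
    .r (nat_lit 0x174f) (nat_lit 1) [nat_lit 0x2001,nat_lit 0x411],.r (nat_lit 0x1c51) (nat_lit 1) [nat_lit 0x24d1,
    nat_lit 0x28d1,nat_lit 0x699],.c (nat_lit 3) (nat_lit 2),.r (nat_lit 0x1b5d) (nat_lit 10) [nat_lit 0x2419,
    nat_lit 17,nat_lit 0x10001],.c (nat_lit 0) (nat_lit 0x3604),.r (nat_lit 0x1b1b) (nat_lit 1) [nat_lit 0x2019,
    nat_lit 0x2419,nat_lit 17],.r (nat_lit 0x1c6a) (nat_lit 11) [nat_lit 0x3011,nat_lit 0x10001,nat_lit 0x2001],
    .r (nat_lit 0x1caf) (nat_lit 6) [nat_lit 0x2001,nat_lit 0x1fb1a],.c (nat_lit 4) (nat_lit 2),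
    .r (nat_lit 0x1b04) (nat_lit 7) [nat_lit 17,nat_lit 0x2001],.r (nat_lit 0x1c1e) (nat_lit 4) [nat_lit 0x401,
    nat_lit 0x2001,nat_lit 17],.c (nat_lit 0) (nat_lit 0x2003),.r (nat_lit 32) (nat_lit 2) [nat_lit 0x3699,
    nat_lit 0x2001],.r (nat_lit 0x1b6e) (nat_lit 10) [nat_lit 0x3699,nat_lit 0x2019,nat_lit 0x411],
    .r (nat_lit 0x1b5d) (nat_lit 10) [nat_lit 0x18411,nat_lit 0x12019,nat_lit 0x10001],.c (nat_lit 5) (nat_lit 2),
    .c (nat_lit 0) (nat_lit 0x3b65),.r (nat_lit 0x1c22) (nat_lit 11) [nat_lit 0x401,nat_lit 0x2001,nat_lit 0x24d1],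
    .r (nat_lit 0x1c82) (nat_lit 8) [nat_lit 0x2001,nat_lit 0x411],.c (nat_lit 6) (nat_lit 2),
    .r (nat_lit 0x1d07) (nat_lit 4) [nat_lit 0x411,nat_lit 0x2001],.c (nat_lit 7) (nat_lit 2)],
    .l (nat_lit 9) (nat_lit 120) (nat_lit 4) (nat_lit 0x2f0000002f0000002d0000002d0000002d0000002d0000002d0000002d00000032000000320000002f0000002f0000002d0000002d) (nat_lit 0x300000003000000050000000500000005000000050000000500000005000000000000000000000003000000030000000500000005)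
    (nat_lit 0x160b0542a130a85c2a1589c582c15098582c150a8542a110a85e2f16090542a150a85028140a050281a8d4542a140a0542a140a05028140a08643150a85028150a85028140a02428168b45414140a05426140a050280e0a05a29150685028150a85028140a058281e8e4542a160a0442e140a03812140b05a2d170a860201789c8635148b45a39190c86e2f148a45e2b218d45a2d168f464321d8bc5a2d120b0542a0d050542a178bc582c17078582c150a8542a170a87637160b05c2a150985028140a04028168a4541e140a0542a140a05028180b05a29170b85028)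
    (nat_lit 0x161e0f0783c1e0f0783c1e0f0783c1e0582c3c1e0f0783c1e0f0783c1e0f078150a850783c1e0f0783c1e0f0783c1e0542a140a0f0783c1e0f0783c1e0f078130a85028141e0f0783c1e0f0783c1e0542a140a050283c1e0f0783c1e0f0781708850280907058783c1e0f0783c1e0542a140a05028140b0f0783c1e0f078158bc6a43168b47a2d191e0f0783c1e04e2f1a90c5a291c8b464323c1e0f078160b0542a150a8542e1b8ec58783c1e05824150a8281a150a85e2f160b0f078150a85028140a05830148b45c2e141e04c2a140a0502814080522d0f0a85028)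
    (nat_lit 3) (nat_lit 43)
    [[nat_lit 2,nat_lit 18,nat_lit 0x1002,nat_lit 17,nat_lit 0x10011,nat_lit 257,nat_lit 0x1001,nat_lit 0x11001,
    nat_lit 0x1001001,nat_lit 0x10001,nat_lit 0x100001,nat_lit 0x100011,nat_lit 0x101001,nat_lit 0x1000001,
    nat_lit 0x1000011],[nat_lit 32,nat_lit 0x10020,nat_lit 272,nat_lit 0x1010,nat_lit 0x11010,nat_lit 0x10010,
    nat_lit 0x20010,nat_lit 0x1010010,nat_lit 0x100010,nat_lit 0x110010,nat_lit 0x1000010],[nat_lit 512,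
    nat_lit 0x1100,nat_lit 0x10100,nat_lit 0x1000100],[nat_lit 0x2000,nat_lit 0x12000,nat_lit 0x11000,nat_lit 0x22000,
    nat_lit 0x21000,nat_lit 0x111000,nat_lit 0x1011000,nat_lit 0x101000,nat_lit 0x1001000,nat_lit 0x1101000],
    [nat_lit 0x20000,nat_lit 0x110000,nat_lit 0x1010000],[nat_lit 0x200000,nat_lit 0x1100000],[nat_lit 0x2000000]]
    [.c (nat_lit 1) (nat_lit 2),.r (nat_lit 0x1b9e) (nat_lit 10) [nat_lit 0x2001,nat_lit 0x188d1,nat_lit 0x3b19,
    nat_lit 0x2961],.c (nat_lit 3) (nat_lit 0x5702),.c (nat_lit 0) (nat_lit 0x765),.c (nat_lit 7) (nat_lit 0x49a),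
    .r (nat_lit 0x1c86) (nat_lit 11) [nat_lit 0x419,nat_lit 0x2001,nat_lit 17],
    .r (nat_lit 0x1c82) (nat_lit 5) [nat_lit 0x401,nat_lit 17],.r (nat_lit 0x1d08) (nat_lit 0) [nat_lit 0x699,
    nat_lit 0x2001,nat_lit 0x401,nat_lit 0x1b011],.c (nat_lit 3) (nat_lit 0x3682),.c (nat_lit 0) (nat_lit 0x765),
    .c (nat_lit 7) (nat_lit 0x3002),.r (nat_lit 0x1d08) (nat_lit 0) [nat_lit 0x18011,nat_lit 0x2001,nat_lit 0x401,
    nat_lit 0x3699],.c (nat_lit 7) (nat_lit 0x2403),.r (nat_lit 0x1b04) (nat_lit 2) [nat_lit 17,nat_lit 0x401],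
    .r (nat_lit 0x174e) (nat_lit 8) [nat_lit 0x699,nat_lit 0x401],.c (nat_lit 2) (nat_lit 2),
    .r (nat_lit 0x19a6) (nat_lit 9) [nat_lit 0x120d1,nat_lit 0x2001,nat_lit 0x401,nat_lit 0x2d119],
    .c (nat_lit 0) (nat_lit 0x3613),.r (nat_lit 0x1d07) (nat_lit 3) [nat_lit 17,nat_lit 0x401],
    .r (nat_lit 0x1cba) (nat_lit 3) [nat_lit 0x120d1,nat_lit 0x699,nat_lit 0x401],.c (nat_lit 0) (nat_lit 0x3613),
    .r (nat_lit 0x1bdf) (nat_lit 2) [nat_lit 0x124d1,nat_lit 0x14551],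
    .r (nat_lit 0x1b50) (nat_lit 8) [nat_lit 0x1b099,nat_lit 0x699,nat_lit 0x124d1],
    .r (nat_lit 0x19a6) (nat_lit 9) [nat_lit 0x611,nat_lit 0x2001,nat_lit 0x401,nat_lit 0x1b499],
    .c (nat_lit 3) (nat_lit 0x3693),.r (nat_lit 0x1c15) (nat_lit 0) [nat_lit 0x401,nat_lit 17,nat_lit 0x1b699],
    .c (nat_lit 3) (nat_lit 2),.r (nat_lit 0x1c40) (nat_lit 8) [nat_lit 0x1b411,nat_lit 0x12611,nat_lit 0x12419],
    .c (nat_lit 0) (nat_lit 0x3613),.c (nat_lit 1) (nat_lit 0x20c2),.c (nat_lit 4) (nat_lit 2),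
    .r (nat_lit 0x1cbf) (nat_lit 3) [nat_lit 0x401,nat_lit 0x120d1,nat_lit 0x1b081,nat_lit 0x1a099],
    .r (nat_lit 0x174f) (nat_lit 8) [nat_lit 0x401,nat_lit 17],.r (nat_lit 0x174e) (nat_lit 8) [nat_lit 18,
    nat_lit 0x401],.r (nat_lit 0x1b88) (nat_lit 0) [nat_lit 0x3012,nat_lit 0x3b1a,nat_lit 0x2001],
    .r (nat_lit 0x1b9e) (nat_lit 10) [nat_lit 0x2001,nat_lit 0x419,nat_lit 0x1b691,nat_lit 0x22029],
    .r (nat_lit 0x1b88) (nat_lit 0) [nat_lit 0x3011,nat_lit 0x699,nat_lit 0x2001],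
    .r (nat_lit 0x1cba) (nat_lit 3) [nat_lit 0x611,nat_lit 0x12019,nat_lit 0x401],.c (nat_lit 0) (nat_lit 0x405),
    .c (nat_lit 1) (nat_lit 0x2403),.c (nat_lit 5) (nat_lit 2),.r (nat_lit 0x1bdf) (nat_lit 2) [nat_lit 17,
    nat_lit 0x20d1],.r (nat_lit 0x1d07) (nat_lit 0) [nat_lit 17,nat_lit 0x401],.c (nat_lit 6) (nat_lit 2),
    .r (nat_lit 0x1b50) (nat_lit 8) [nat_lit 0x419,nat_lit 0x12019,nat_lit 17],.c (nat_lit 7) (nat_lit 2)]]

/-- nodes -/
noncomputable def rD7k_25_28 : List RJ :=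
  [.l (nat_lit 10) (nat_lit 240) (nat_lit 4) (nat_lit 0x5c0000005c00000059000000590000005d0000005d000000590000005900000059000000590000005c0000005c0000006200000062) (nat_lit 0x600000006000000090000000900000005000000050000000900000009000000090000000900000006000000060000000000000000)
    (nat_lit 0x158560a44d15c5714c3114c4d158561705c158560dc5315c5710c3714c53158461886214c4d140501c070140501806013453164590dc29140501505414050140500f4531645915c571507016058150541505415c5721c7315c571507016058150541304c15c571fc6b0dc31140501505416050140501145b1645910c53140501505414058140501545317c5f14c4d14060130541405014050134531645714c531406013054140501405014c53164571185614c5315c5714c5b14c53160561705c158560f44d15c571544514c4d158581705c1885c164591ac7317c5915c571705c188621885c164591fc8717c59164591705c18862)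
    (nat_lit 0x158f03c0f03c0f03c0f03c0f03c0f03c0f0158563c0f03c0f03c0f03c0f03c0f03c0f00a437140f03c0f03c0f03c0f03c0f03c0f013453140503c0f03c0f03c0f03c0f03c0f015c571c054160f03c0f03c0f03c0f03c0f015c571c054160583c0f03c0f03c0f03c0f014c431405015054160f03c0f03c0f03c0f00c4371405015054140583c0f03c0f03c0f014c53180501504c14050140f03c0f03c0f013453180501504c14050140503c0f03c0f0158561343d15c571145513453160f03c0f01584614c5315c5716c5314c53158583c0f0170621645921c7f1645f164591705c188f017062164591cc6b1645f15c571705c18862)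
    (nat_lit 3) (nat_lit 29)
    [[nat_lit 2,nat_lit 17,nat_lit 257,nat_lit 0x1001,nat_lit 0x100001,nat_lit 0x1100001,nat_lit 0x1000001],
    [nat_lit 32,nat_lit 0x100020,nat_lit 272,nat_lit 0x1000110,nat_lit 0x1010,nat_lit 0x1110,nat_lit 0x101010,
    nat_lit 0x1001010,nat_lit 0x10010,nat_lit 0x100010,nat_lit 0x1100010,nat_lit 0x200010,nat_lit 0x1000010],
    [nat_lit 512,nat_lit 0x1100,nat_lit 0x1001100,nat_lit 0x10100,nat_lit 0x100100,nat_lit 0x1100100,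
    nat_lit 0x1000100],[nat_lit 0x2000,nat_lit 0x1002000,nat_lit 0x11000,nat_lit 0x1011000,nat_lit 0x101000,
    nat_lit 0x1101000,nat_lit 0x1001000,nat_lit 0x2001000,nat_lit 0x2002000],[nat_lit 0x20000,nat_lit 0x110000,
    nat_lit 0x1010000],[nat_lit 0x200000,nat_lit 0x1200000,nat_lit 0x1100000,nat_lit 0x2100000],[nat_lit 0x2000000]]
    [.c (nat_lit 1) (nat_lit 2),.c (nat_lit 0) (nat_lit 0x10403),.r (nat_lit 0x1cdb) (nat_lit 4) [nat_lit 0x2001,
    nat_lit 0x3011],.r (nat_lit 0x174e) (nat_lit 4) [nat_lit 0x92419,nat_lit 17],.c (nat_lit 0) (nat_lit 0x10403),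
    .c (nat_lit 1) (nat_lit 0x402),.r (nat_lit 0x174e) (nat_lit 4) [nat_lit 0x92019,nat_lit 0x411],
    .c (nat_lit 2) (nat_lit 2),.r (nat_lit 0x19ed) (nat_lit 3) [nat_lit 0xd8681,nat_lit 17,nat_lit 0x3419],
    .r (nat_lit 2) (nat_lit 4) [nat_lit 0x92419,nat_lit 17],.c (nat_lit 1) (nat_lit 0x12403),
    .c (nat_lit 0) (nat_lit 0x10083),.c (nat_lit 1) (nat_lit 0x12483),.c (nat_lit 0) (nat_lit 0x10083),
    .r (nat_lit 0xf05) (nat_lit 8) [nat_lit 0xd8681,nat_lit 0xa0419,nat_lit 0x82001,nat_lit 17],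
    .r (nat_lit 0x19ed) (nat_lit 3) [nat_lit 0xd8681,nat_lit 0x1124d1,nat_lit 0x15d099],
    .c (nat_lit 0) (nat_lit 0x10005),.c (nat_lit 0) (nat_lit 0x10003),.c (nat_lit 0) (nat_lit 0x10083),
    .c (nat_lit 0) (nat_lit 0x10003),.c (nat_lit 3) (nat_lit 2),.c (nat_lit 6) (nat_lit 0x30c2),
    .c (nat_lit 1) (nat_lit 0x34c2),.r (nat_lit 32) (nat_lit 0) [nat_lit 0xc3099,nat_lit 0xd8681],
    .r (nat_lit 0x1c82) (nat_lit 4) [nat_lit 0xd8681,nat_lit 17],.r (nat_lit 0x1cdb) (nat_lit 4) [nat_lit 0x2001,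
    nat_lit 17],.c (nat_lit 6) (nat_lit 0x3002),.c (nat_lit 4) (nat_lit 2),
    .r (nat_lit 0x1d0f) (nat_lit 10) [nat_lit 0xd8681,nat_lit 17,nat_lit 0xc3099],.c (nat_lit 0) (nat_lit 0x1b613),
    .c (nat_lit 3) (nat_lit 0x18613),.c (nat_lit 0) (nat_lit 0x683),.r (nat_lit 0x174e) (nat_lit 4) [nat_lit 0x90419,
    nat_lit 0x2011],.c (nat_lit 4) (nat_lit 130),.r (nat_lit 0x1d0f) (nat_lit 10) [nat_lit 0xd8681,nat_lit 0x411,
    nat_lit 0xc3699],.r (nat_lit 32) (nat_lit 0) [nat_lit 18,nat_lit 0xd8681],.c (nat_lit 5) (nat_lit 2),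
    .c (nat_lit 0) (nat_lit 0x1b613),.c (nat_lit 0) (nat_lit 0x1b6d3),.c (nat_lit 6) (nat_lit 2),
    .c (nat_lit 0) (nat_lit 0x10003),.c (nat_lit 0) (nat_lit 0x603),.r (nat_lit 0x174e) (nat_lit 4) [nat_lit 0x90019,
    nat_lit 0x2411],.c (nat_lit 7) (nat_lit 2)],
    .l (nat_lit 14) (nat_lit 0xb40) (nat_lit 3) (nat_lit 0x45500000455000004410000044100000441000004410000042f0000042f000004290000042900000420000004200000048200000482) (nat_lit 0x2d0000002d000000410000004100000041000000410000005300000053000000590000005900000062000000620000000000000000)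
    (nat_lit 0x141042806c0414105041413481aa0ff03fc0fcc3f31154455131050409a04140f9041412482860ff03fc0fcc3f311543fb1050414100036415f05ac0fb841e0fa035810e43df0d9444109a01b01000400100040010484120fd03e80de43df1104441105041410005ac0f704000fb83ee0fa03c40f7c3d31a944a70f90414100057c10003dc0fe83ee0e803a00f7c3df1a6449b0a181aa104841e0fb83ee10903dc0f583ca0dcc41510bc42f12484d210483ee0fe83ee0ee04240f583d60f343a910bc3c90ff03fc0fa03580e803c40f583ca0fd03f410b43c70d644290ff03fc0fd03e80e803e80f583d610003f40e143c710a43f30fcc3f30f7c3df0f7c3d30ea44150f1c3c70fd038e10804620fcc3f30de44390f7c3df0f343730e1442d0ef83f410804200fec4551104441126c4a70f2442f0fcc42910804621208482115445511043651a646a510bc42f10a435910804201208482)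
    (nat_lit 0x1410b402d00b402d00b402d00b402d00b402d00b402d00b4010a05042d00b402d00b402d00b402d00b402d00b402d00b4006c02681000b402d00b402d00b402d00b402d00b402d00b4010504140d904002d00b402d00b402d00b402d00b402d00b4010503e415f04000f70b402d00b402d00b402d00b402d00b40105041416b040010003dc2d00b402d00b402d00b402d00b4013484920fb84120fb83fa1090b402d00b402d00b402d00b4006a828610784120fb83ee0f704242d00b402d00b402d00b400ff03fc0fa03f40fa03a00f583d60fd0b402d00b402d00b400ff03fc0d603e80f103a00f283d60fd03f42d00b402d00b400fcc3f310e43790f7c3df0dcc3cd10b43850fd0b402d00b400fcc3f30f7c3df0f4c3df10543a90f1c3c70e383f42d00b4011544550d944411a9469910bc42f0d6442910804201208b4011543fb1104441129c49b10bc3c910a43f311884201208482)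
    (nat_lit 4) (nat_lit 43)
    [[nat_lit 2,nat_lit 17,nat_lit 257,nat_lit 0x1101,nat_lit 0x1001,nat_lit 0x1001001,nat_lit 0x100001,
    nat_lit 0x1100001,nat_lit 0x1000001],[nat_lit 32,nat_lit 0x1020,nat_lit 272,nat_lit 0x1110,nat_lit 0x10110,
    nat_lit 0x100110,nat_lit 0x1010,nat_lit 0x1001010,nat_lit 0x10010,nat_lit 0x100010,nat_lit 0x1100010,
    nat_lit 0x200010,nat_lit 0x1000010],[nat_lit 512,nat_lit 0x1100,nat_lit 0x1001100,nat_lit 0x10100,
    nat_lit 0x110100,nat_lit 0x100100,nat_lit 0x1100100,nat_lit 0x1000100],[nat_lit 0x2000,nat_lit 0x1002000,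
    nat_lit 0x11000,nat_lit 0x1011000,nat_lit 0x101000,nat_lit 0x1101000,nat_lit 0x1001000],[nat_lit 0x20000,
    nat_lit 0x110000,nat_lit 0x1010000],[nat_lit 0x200000,nat_lit 0x1200000,nat_lit 0x1100000,nat_lit 0x2100000],
    [nat_lit 0x2000000]]
    [.c (nat_lit 1) (nat_lit 2),.c (nat_lit 0) (nat_lit 0x22003),.r (nat_lit 0x1cdb) (nat_lit 4) [nat_lit 0x20001,
    nat_lit 0x30021],.c (nat_lit 2) (nat_lit 0x222203),.r (nat_lit 0x174e) (nat_lit 4) [nat_lit 0x2222031,nat_lit 33],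
    .c (nat_lit 0) (nat_lit 0x3302),.c (nat_lit 0) (nat_lit 0x22003),.c (nat_lit 1) (nat_lit 0x2002),
    .c (nat_lit 3) (nat_lit 0x203002),.c (nat_lit 2) (nat_lit 2),.c (nat_lit 1) (nat_lit 0x48203),
    .c (nat_lit 0) (nat_lit 0x440205),.c (nat_lit 1) (nat_lit 0x222203),
    .r (nat_lit 0x1cde) (nat_lit 9) [nat_lit 0x33231,nat_lit 0x4866721,nat_lit 0x3303201,nat_lit 0x5533221],
    .c (nat_lit 7) (nat_lit 0x330002),.r (nat_lit 0x174b) (nat_lit 7) [nat_lit 0x3303201,nat_lit 33,nat_lit 0x200001],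
    .c (nat_lit 1) (nat_lit 0x24203),.r (nat_lit 0x1b7b) (nat_lit 4) [nat_lit 0x20001,nat_lit 0x2222321,
    nat_lit 0x3333201],.c (nat_lit 0) (nat_lit 0x20005),.c (nat_lit 0) (nat_lit 0x20003),
    .c (nat_lit 0) (nat_lit 0x40305),.c (nat_lit 0) (nat_lit 0x20003),.c (nat_lit 3) (nat_lit 2),
    .c (nat_lit 6) (nat_lit 0x300302),.c (nat_lit 1) (nat_lit 0x302302),.c (nat_lit 7) (nat_lit 0x22232),
    .c (nat_lit 1) (nat_lit 0x24232),.c (nat_lit 0) (nat_lit 0x440205),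
    .r (nat_lit 0x1cdb) (nat_lit 4) [nat_lit 0x20001,nat_lit 33],.r (nat_lit 0x1c82) (nat_lit 8) [nat_lit 33,
    nat_lit 0x3303201],.c (nat_lit 4) (nat_lit 2),.r (nat_lit 0x1d0f) (nat_lit 10) [nat_lit 0x3303201,nat_lit 33,
    nat_lit 0x330231],.r (nat_lit 0x1b50) (nat_lit 12) [nat_lit 0x3303231,nat_lit 0x330231,nat_lit 33],
    .c (nat_lit 3) (nat_lit 0x33023),.r (nat_lit 0x1d07) (nat_lit 5) [nat_lit 33,nat_lit 0x3303201],
    .r (nat_lit 0x174e) (nat_lit 4) [nat_lit 0x2202031,nat_lit 0x20021],.c (nat_lit 0) (nat_lit 517),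
    .c (nat_lit 5) (nat_lit 2),.c (nat_lit 0) (nat_lit 0x555745),.c (nat_lit 0) (nat_lit 0x333323),
    .c (nat_lit 6) (nat_lit 2),.c (nat_lit 0) (nat_lit 0x20003),.c (nat_lit 0) (nat_lit 0x3003),
    .c (nat_lit 3) (nat_lit 0x200002),.c (nat_lit 7) (nat_lit 2)]]

/-- nodes -/
noncomputable def rD7k_25_29 : List RJ :=
  [.l (nat_lit 15) (nat_lit 0x1680) (nat_lit 4) (nat_lit 0xac100000ac10000094e0000094e000009b5000009b500000cf600000cf600000ad900000ad900000a3b00000a3b000009a9000009a9) (nat_lit 0x23500000235000003a8000003a8000003410000034100000000000000000000021d0000021d000002bb000002bb0000034d0000034d)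
    (nat_lit 0x112c1da0287862510e81e0056c8ac1152c2960365072a0ee81e3044608960d261c643cc0780177e2e9c45203b4100c1c8043407740e3218942d305a60a4e1a4c71f0936102e18cc34986930bee1804349850f0b4c1698306860d1a94210840b87d90c1a1a4c30085d10f001e0030686930f0019d048689b50f300e70395061410e41bb83cc08740c1a149c446078011ce26d42c707980e8418b033404e4174e2b044210936136a26d467b0ade174e2e9c5df8c45116a25845df8ad91a9438f8473890d19ec33d856c8ad914762b043fa87cf076829603ec86330f300e7056c8ba7106c22f04fc081e0ee81e304520a96102e205c2c7079815b22e9c43a083613f02078434078c0e401ca834986930c5818505608c45103c20783c007c809f8145040306ca0c1a1a4c3a1072a14762efc4fc09f80e701e0036b06ee0ee81e302e8860109c81bb83e789610f181e3037705140f301a9043407740c0217dc33408720fea22d443407740dac13f03c00798)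
    (nat_lit 0x112c5a00b4016802d005a00b4016802d005a00b4016802d005a003b408962d005a00b4016802d005a00b4016802d005a00b4016800a1e1a4c2d316802d005a00b4016802d005a00b4016802d005a0031287190b4c1698b4016802d005a00b4016802d005a00b40168010e81e60293860d0f005a00b4016802d005a00b4016802d005a003c007800d26183433a07802d005a00b4016802d005a00b40168015b22efc71a0d4a121a239c67b16802d005a00b4016802d005a005608ba7126c21084da89b515bc33d8b4016802d005a00b401680152c229040b88170f3016385d38ad9106c5a00b4016802d005a0052c03b40c661f641ce0798174e2b6445e08362d005a00b4016800d942018349860d0e541d085df8a3b13f027e03c016802d005a0039507200d261a4c30a062c188a2b0440f081e0f901e00b4016800ee821a02fb860110e419a045a87f50ee821a027e06d60f305a003c607740c02174437704e412c21f3c3c6078c0a281bb83520798)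
    (nat_lit 3) (nat_lit 107)
    [[nat_lit 2,nat_lit 3,nat_lit 18,nat_lit 0x10002,nat_lit 0x100002,nat_lit 17,nat_lit 33,nat_lit 0x10011,
    nat_lit 0x100011,nat_lit 0x1000011,nat_lit 257,nat_lit 0x10101,nat_lit 0x100101,nat_lit 0x1000101,nat_lit 0x1001,
    nat_lit 0x101001,nat_lit 0x10001,nat_lit 0x20001,nat_lit 0x110001,nat_lit 0x1010001,nat_lit 0x100001,
    nat_lit 0x200001,nat_lit 0x1100001,nat_lit 0x1100101,nat_lit 0x110101,nat_lit 0x1000001],[nat_lit 32,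
    nat_lit 0x10020,nat_lit 0x100020,nat_lit 0x1000020,nat_lit 272,nat_lit 0x10110,nat_lit 0x1000110,nat_lit 0x10010,
    nat_lit 0x20010,nat_lit 0x110010,nat_lit 0x1010010,nat_lit 0x100010,nat_lit 0x200010,nat_lit 0x1100010,
    nat_lit 0x100110,nat_lit 0x1000010,nat_lit 0x1010110],[nat_lit 512,nat_lit 0x10200,nat_lit 0x10100,
    nat_lit 0x20100,nat_lit 0x110100,nat_lit 0x120100,nat_lit 0x1110100,nat_lit 0x1010100,nat_lit 0x20200,
    nat_lit 0x100100,nat_lit 0x200100,nat_lit 0x1100100,nat_lit 0x1000100,nat_lit 0x2000100],[nat_lit 0x11000,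
    nat_lit 0x111000],[nat_lit 0x20000,nat_lit 0x120000,nat_lit 0x110000,nat_lit 0x220000,nat_lit 0x210000,
    nat_lit 0x1110000,nat_lit 0x1010000],[nat_lit 0x200000,nat_lit 0x300000,nat_lit 0x1200000,nat_lit 0x1100000,
    nat_lit 0x2100000],[nat_lit 0x2000000]]
    [.c (nat_lit 1) (nat_lit 2),.r (nat_lit 0x1cf3) (nat_lit 10) [nat_lit 0x2401,nat_lit 0x2001,nat_lit 0x20699],
    .r (nat_lit 0x1bb5) (nat_lit 12) [nat_lit 0x601,nat_lit 17,nat_lit 0x2401],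
    .r (nat_lit 0x1cee) (nat_lit 11) [nat_lit 0x601,nat_lit 17,nat_lit 0x2401],
    .r (nat_lit 0x1bb5) (nat_lit 12) [nat_lit 0x601,nat_lit 0x411,nat_lit 0x2401],
    .r (nat_lit 0x1750) (nat_lit 4) [nat_lit 17,nat_lit 0x2001],.r (nat_lit 0x1cc8) (nat_lit 13) [nat_lit 17,
    nat_lit 0x4819,nat_lit 0xa11],.r (nat_lit 0x1a29) (nat_lit 13) [nat_lit 0x401,nat_lit 0x3099,nat_lit 0x2001],
    .r (nat_lit 0x1cc8) (nat_lit 13) [nat_lit 0x411,nat_lit 0x4419,nat_lit 0x611],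
    .r (nat_lit 0x18e6) (nat_lit 6) [nat_lit 0x3099,nat_lit 0x2001,nat_lit 0x13681,nat_lit 0x2401],
    .c (nat_lit 0) (nat_lit 0x26d3),.r (nat_lit 8) (nat_lit 3) [nat_lit 0x3699,nat_lit 0x2401],
    .r (nat_lit 0x1cdb) (nat_lit 3) [nat_lit 0x10aa9,nat_lit 0x1a8e1],.r (nat_lit 0x1b2f) (nat_lit 13) [nat_lit 0x401,
    nat_lit 0x3699,nat_lit 0x2001],.r (nat_lit 0x1cdb) (nat_lit 3) [nat_lit 0x180e1,nat_lit 0x120a9],
    .c (nat_lit 0) (nat_lit 0x602),.r (nat_lit 0x1d07) (nat_lit 5) [nat_lit 0x2001,nat_lit 17],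
    .r (nat_lit 0x1cf1) (nat_lit 11) [nat_lit 0x601,nat_lit 17,nat_lit 0x2401],
    .r (nat_lit 0x1a29) (nat_lit 13) [nat_lit 0x401,nat_lit 0x3699,nat_lit 0x2001],
    .r (nat_lit 0x1b2f) (nat_lit 11) [nat_lit 0x601,nat_lit 0x3099,nat_lit 0x2401],
    .r (nat_lit 0x1750) (nat_lit 4) [nat_lit 0x411,nat_lit 0x2001],.r (nat_lit 0x1cc8) (nat_lit 13) [nat_lit 0x811,
    nat_lit 0x4019,nat_lit 17],.r (nat_lit 0x18e6) (nat_lit 6) [nat_lit 0x3699,nat_lit 0x2001,nat_lit 0x13681,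
    nat_lit 0x2401],.c (nat_lit 5) (nat_lit 0x6d3),.c (nat_lit 7) (nat_lit 0x6d3),
    .r (nat_lit 0x1bec) (nat_lit 4) [nat_lit 17,nat_lit 0x2401],.c (nat_lit 2) (nat_lit 2),
    .r (nat_lit 0x1cdb) (nat_lit 7) [nat_lit 0x2819,nat_lit 0x611],.r (nat_lit 0x1d0b) (nat_lit 4) [nat_lit 0x411,
    nat_lit 0xa11,nat_lit 0x6819,nat_lit 0x30a11],.r (nat_lit 0x1cc8) (nat_lit 11) [nat_lit 0xa11,nat_lit 0x4819,
    nat_lit 17],.r (nat_lit 0x1d07) (nat_lit 3) [nat_lit 0x2401,nat_lit 0x611],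
    .r (nat_lit 0x1aa7) (nat_lit 13) [nat_lit 0x401,nat_lit 0x3099,nat_lit 0x2001],
    .r (nat_lit 0x1a29) (nat_lit 11) [nat_lit 0x601,nat_lit 0x3099,nat_lit 0x2401],.c (nat_lit 0) (nat_lit 0x3695),
    .r (nat_lit 0x1cca) (nat_lit 11) [nat_lit 0x601,nat_lit 17,nat_lit 0x2401],
    .r (nat_lit 0x1cdb) (nat_lit 7) [nat_lit 0x2419,nat_lit 17],.c (nat_lit 1) (nat_lit 0x20c2),
    .c (nat_lit 2) (nat_lit 130),.r (nat_lit 0x1d0b) (nat_lit 4) [nat_lit 0x811,nat_lit 0x611,nat_lit 0x6419,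
    nat_lit 0x30611],.r (nat_lit 0x1cc8) (nat_lit 11) [nat_lit 0x611,nat_lit 0x4419,nat_lit 0x411],
    .r (nat_lit 0x1cdb) (nat_lit 3) [nat_lit 0x2019,nat_lit 17],.c (nat_lit 0) (nat_lit 0x3695),
    .c (nat_lit 1) (nat_lit 0x613),.c (nat_lit 3) (nat_lit 2),.r (nat_lit 0x1b22) (nat_lit 8) [nat_lit 0x601,
    nat_lit 0x2401,nat_lit 0x20d1],.r (nat_lit 0x1ce4) (nat_lit 6) [nat_lit 17,nat_lit 0x2001],
    .r (nat_lit 8) (nat_lit 3) [nat_lit 0x1b69a,nat_lit 0x2401],.r (nat_lit 0x1aa7) (nat_lit 13) [nat_lit 0x401,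
    nat_lit 0x3699,nat_lit 0x2001],.r (nat_lit 0x1bb5) (nat_lit 1) [nat_lit 0x401,nat_lit 0x1b699,nat_lit 0x2001],
    .c (nat_lit 1) (nat_lit 0x6d3),.r (nat_lit 8) (nat_lit 5) [nat_lit 0x3099,nat_lit 0x2001],
    .r (nat_lit 0x18e6) (nat_lit 6) [nat_lit 18,nat_lit 0x2001,nat_lit 0x13681,nat_lit 0x2401],
    .r (nat_lit 0x1d07) (nat_lit 3) [nat_lit 0x2401,nat_lit 17],.r (nat_lit 0x1cdb) (nat_lit 3) [nat_lit 0x2619,
    nat_lit 0x411],.r (nat_lit 0x1a29) (nat_lit 11) [nat_lit 0x601,nat_lit 0x3699,nat_lit 0x2401],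
    .r (nat_lit 0x1d07) (nat_lit 9) [nat_lit 0x2401,nat_lit 17],.r (nat_lit 0x1b2f) (nat_lit 13) [nat_lit 0x401,
    nat_lit 0x1b69a,nat_lit 0x2001],.r (nat_lit 0x1b61) (nat_lit 11) [nat_lit 0x601,nat_lit 0x3611,nat_lit 0x2401],
    .c (nat_lit 0) (nat_lit 0x602),.c (nat_lit 5) (nat_lit 2),.r (nat_lit 0x1cca) (nat_lit 11) [nat_lit 0x601,
    nat_lit 0x411,nat_lit 0x2401],.c (nat_lit 0) (nat_lit 0x36d5),.r (nat_lit 0x1b2f) (nat_lit 13) [nat_lit 0x401,
    nat_lit 18,nat_lit 0x2001],.r (nat_lit 0x1cdb) (nat_lit 7) [nat_lit 0x2019,nat_lit 0x411],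
    .c (nat_lit 1) (nat_lit 0x2002),.c (nat_lit 0) (nat_lit 0x36d5),.c (nat_lit 6) (nat_lit 2),
    .r (nat_lit 0x1d0b) (nat_lit 4) [nat_lit 0xc11,nat_lit 17,nat_lit 0x6019,nat_lit 0x30011],
    .r (nat_lit 0x1cc8) (nat_lit 11) [nat_lit 17,nat_lit 0x4019,nat_lit 0x811],.c (nat_lit 0) (nat_lit 0x36d5),
    .r (nat_lit 0x1bb5) (nat_lit 1) [nat_lit 0x401,nat_lit 17,nat_lit 0x2001],.c (nat_lit 7) (nat_lit 2)],
    .l (nat_lit 17) (nat_lit 0x4380) (nat_lit 3) (nat_lit 0x191600001916000019780000197800001acb00001acb00001c6e00001c6e000019d7000019d700001a6c00001a6c000019c5000019c5) (nat_lit 0x35800000358000002f6000002f6000001a3000001a3000000000000000000000297000002970000020200000202000002a9000002a9)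
    (nat_lit 0xe37063582c40162007f885dcc322c19160d9b844242ac817140b36859b42e801c6e0a520588034ce15f70c8b064582c12167f0b8a04e582cda143d0b10058802ffc15000bea8654432f016840d2f85b84334c17ec080f85b3c294816200b4105ff82faa17d50cbc05420386616e10dbd06e782d9e16cf0afb85dcc2faa19510ecc064a035961acb0a06060d0319213770c110507834ce0ff10bea85f5432501d980a9386b2c306818340724823dc30441b5e0c8b064582a1016840d6586b2c38dc1c6e14d487dec2e601a6c10a389114322c19160cbc065e02a4e1acb0e37071b8480a19d70b98069b03e7622390b3f844242dc216e10c1a060d033ae1f7b0ba005d001ec20da70b97069a82c121b370e198697c3068140c12028a6a42e8017400bd885f542e5c151209cb05c50373c17ec047b84ddc34d81a6c0bea8369c350c186a098585f9c2e2815640dbd066981c9218c90b9805cc02f620f610c6b06a182f8617c30a1e859b42d9e16cf0daf05078447224450a89069a82f8617e70c6605ac02cda166d0b678407c304418220f9d8851c2e5c172e0be184c2c280818cc)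
    (nat_lit 0xe3710e008700438021c010e008700438021c010e008700438021c010e0031ac1c6e21c010e008700438021c010e008700438021c010e00870043800b10052902ffc438021c010e008700438021c010e008700438021c010e002c4016200a8005ff88700438021c010e008700438021c010e008700438007f88699c2faa17d50ecc10e008700438021c010e008700438021c010e002ee615f70ca885f5432501d9821c010e008700438021c010e00870043800c8b0645832f019780d658549c38dc438021c010e008700438021c010e00322c19160b420542035961acb0e37071b88700438021c010e00870043800d9b8582434be1c330a06060d0535224050ba010e008700438021c010e002212167f0b7085b84306818340fbd8675c2e80174021c010e00870043800ab205c50334c1b7a0c64839242e60173007b085ec4350c438021c010e002e2813960bf606e7826ee08f70d36069b01b4e17d50c3506a18870043800b36859b4203e16cf0c1106088428e1f3b0b9705cb8261617c30c6610e002cda143d0b6785b3c283c1b5e1222888e434d415120bf385f0c2d6018cc)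
    (nat_lit 3) (nat_lit 61)
    [[nat_lit 2,nat_lit 0x100002,nat_lit 0x1000002,nat_lit 17,nat_lit 18,nat_lit 273,nat_lit 0x10011,
    nat_lit 0x1000011,nat_lit 257,nat_lit 0x1000101,nat_lit 0x10001,nat_lit 0x1010001,nat_lit 0x100001,
    nat_lit 0x100101,nat_lit 0x110001,nat_lit 0x200001,nat_lit 0x1100001,nat_lit 0x1000001],[nat_lit 32,nat_lit 288,
    nat_lit 0x10020,nat_lit 272,nat_lit 528,nat_lit 0x10110,nat_lit 0x1000110,nat_lit 0x1010,nat_lit 0x11010,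
    nat_lit 0x10010,nat_lit 0x20010,nat_lit 0x1010010,nat_lit 0x110010,nat_lit 0x100010,nat_lit 0x1100010,
    nat_lit 0x1000010],[nat_lit 512,nat_lit 0x1000200,nat_lit 0x10100,nat_lit 0x110100,nat_lit 0x1010100,
    nat_lit 0x100100,nat_lit 0x1100100,nat_lit 0x1000100],[nat_lit 0x2000,nat_lit 0x11000,nat_lit 0x101000,
    nat_lit 0x1001000],[nat_lit 0x20000,nat_lit 0x110000,nat_lit 0x1010000,nat_lit 0x1110000,nat_lit 0x2010000],
    [nat_lit 0x200000,nat_lit 0x1200000,nat_lit 0x1100000],[nat_lit 0x2000000]]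
    [.c (nat_lit 1) (nat_lit 2),.r (nat_lit 0x1caf) (nat_lit 5) [nat_lit 0x10401,nat_lit 0x1aa11],
    .c (nat_lit 2) (nat_lit 0x3693),.r (nat_lit 32) (nat_lit 12) [nat_lit 0x18099,nat_lit 0x10401],
    .c (nat_lit 7) (nat_lit 0x3693),.c (nat_lit 7) (nat_lit 0x3013),.r (nat_lit 4) (nat_lit 6) [nat_lit 0x1b099,
    nat_lit 0x12001],.c (nat_lit 1) (nat_lit 0x3693),.c (nat_lit 1) (nat_lit 0x682),.c (nat_lit 2) (nat_lit 0x3013),
    .r (nat_lit 0x1b04) (nat_lit 3) [nat_lit 0x12001,nat_lit 17],.r (nat_lit 0x1b59) (nat_lit 7) [nat_lit 0x1b099,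
    nat_lit 0x10419,nat_lit 0x2611],.r (nat_lit 0x1750) (nat_lit 8) [nat_lit 0x12001,nat_lit 17],
    .r (nat_lit 0x1caf) (nat_lit 5) [nat_lit 0x10401,nat_lit 0x18611],.c (nat_lit 1) (nat_lit 130),
    .r (nat_lit 0x1c3d) (nat_lit 8) [nat_lit 0x2601,nat_lit 0x10401,nat_lit 17],
    .r (nat_lit 32) (nat_lit 3) [nat_lit 0x1b099,nat_lit 0x10401],.r (nat_lit 0x174e) (nat_lit 4) [nat_lit 0x18099,
    nat_lit 0x10401],.c (nat_lit 2) (nat_lit 2),.r (nat_lit 0x1c3a) (nat_lit 1) [nat_lit 0x10401,nat_lit 0x1b011,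
    nat_lit 0x12001],.r (nat_lit 0x1bdf) (nat_lit 13) [nat_lit 0x12001,nat_lit 0x120d1],
    .r (nat_lit 32) (nat_lit 12) [nat_lit 0x1a699,nat_lit 0x10401],.c (nat_lit 7) (nat_lit 0x34d3),
    .r (nat_lit 4) (nat_lit 6) [nat_lit 0x18699,nat_lit 0x12001],.c (nat_lit 1) (nat_lit 0x3013),
    .r (nat_lit 0x1af9) (nat_lit 8) [nat_lit 0x12019,nat_lit 17,nat_lit 0x10019],
    .r (nat_lit 0x1c32) (nat_lit 13) [nat_lit 0x18011,nat_lit 0x120d1,nat_lit 153],
    .r (nat_lit 0) (nat_lit 5) [nat_lit 0x10401,nat_lit 17],.r (nat_lit 0x1bdf) (nat_lit 0) [nat_lit 0x12001,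
    nat_lit 0x120d1],.r (nat_lit 0x174d) (nat_lit 8) [nat_lit 0x1b099,nat_lit 0x12001],
    .r (nat_lit 32) (nat_lit 12) [nat_lit 0x18699,nat_lit 0x10401],.r (nat_lit 0x1b04) (nat_lit 10) [nat_lit 0x12001,
    nat_lit 17],.r (nat_lit 0x1a9f) (nat_lit 8) [nat_lit 0x2601,nat_lit 0x1b099,nat_lit 0x10401],
    .r (nat_lit 0x1d07) (nat_lit 13) [nat_lit 17,nat_lit 0x10401],.c (nat_lit 3) (nat_lit 2),
    .c (nat_lit 2) (nat_lit 0x34d3),.r (nat_lit 0x1b04) (nat_lit 3) [nat_lit 0x12001,nat_lit 0x3411],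
    .c (nat_lit 1) (nat_lit 0x702),.r (nat_lit 0x1b59) (nat_lit 7) [nat_lit 0x18699,nat_lit 0x12019,nat_lit 17],
    .r (nat_lit 0x1750) (nat_lit 8) [nat_lit 0x12001,nat_lit 0x3411],.r (nat_lit 32) (nat_lit 3) [nat_lit 0x18699,
    nat_lit 0x10401],.r (nat_lit 0x174e) (nat_lit 4) [nat_lit 0x1a699,nat_lit 0x10401],.c (nat_lit 4) (nat_lit 2),
    .c (nat_lit 0) (nat_lit 0x2003),.c (nat_lit 0) (nat_lit 0x2003),.r (nat_lit 0x1b7b) (nat_lit 1) [nat_lit 0x18011,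
    nat_lit 0x401,nat_lit 0x10001],.c (nat_lit 5) (nat_lit 2),.c (nat_lit 0) (nat_lit 195),
    .r (nat_lit 0x1bec) (nat_lit 3) [nat_lit 0x12001,nat_lit 17],.r (nat_lit 0x174e) (nat_lit 4) [nat_lit 0x18699,
    nat_lit 0x10401],.r (nat_lit 0x1c3b) (nat_lit 8) [nat_lit 0x2601,nat_lit 0x10401,nat_lit 17],
    .c (nat_lit 6) (nat_lit 2),.r (nat_lit 0x1cb7) (nat_lit 4) [nat_lit 0x401,nat_lit 0x2001,nat_lit 0x10001],
    .r (nat_lit 0x1b04) (nat_lit 1) [nat_lit 17,nat_lit 0x10401],.c (nat_lit 7) (nat_lit 2)]]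

/-- nodes -/
noncomputable def rD7k_25_30 : List RJ :=
  [.l (nat_lit 13) (nat_lit 0x780) (nat_lit 4) (nat_lit 0x326000003260000031700000317000002de000002de0000033c0000033c0000038800000388000002aa000002aa0000033100000331) (nat_lit 0x62000000620000007100000071000000aa000000aa0000004c0000004c0000000000000000000000de000000de0000005700000057)
    (nat_lit 0x1b50b1075e3af13e09f033c31e1930c984901fc1678ac458836a15a8ad42c827c1aa0a907980f010909203aa2e715a8ebc54c2a615189b4a023e318b8a7444219310d0bd856a3af1380a984da26d1ce89fc62e31711c88e45802c013e09f04da26d14009a852429216f08304002000c68a1c2c827c1368a8c52c2801420a485e82220fa08004862871520c784fe3e31490a4875828e19e0d284bc2481728bc46a819e1ce94045082921780eb05f433c0c60d985ca2930780c9862e29d111083067834a1400e205f82ec236900c79832618b8c5c5e82de17d0cf06f42801550aa86fa31312407f047219310008006cc2481550bb03d41da129894c42424811c88843e82000c609785542fc0f507a84e22531738ac45802f61438a1c5262f1189900c4a625316d0af03aa2cf160086848618d1728b946fa46d138894c5b42da)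
    (nat_lit 0x1b51e00f007803c01e00f007803c01e00f007803c01e0058836a3c01e00f007803c01e00f007803c01e00f007801d78ad454c7803c01e00f007803c01e00f007803c01e0075e2b51530a98f007803c01e00f007803c01e00f0078013e059054626d1401e00f007803c01e00f007803c01e004f827c13689b44d42803c01e00f007803c01e00f007800cf0d508a639d1490a107587803c01e00f007803c01e0063c2a41f189fc5242921470eb0f007803c01e00f007801930f3062e31716f0bd06782fa1401e00f007803c01e0064c0f014e8c5c4182221a50a387102803c01e00f00780124084844223910007d04bc18c17e0aa83d47803c01e003f82480c988e44002001240d985d82aa0ed07a8f0078016787544342c00c6890c5ca2e51d78df44a627116d1e005622e717b0b0050e2871788a4c742313129894c5782da)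
    (nat_lit 4) (nat_lit 83)
    [[nat_lit 2,nat_lit 0x10002,nat_lit 0x1000002,nat_lit 17,nat_lit 33,nat_lit 0x1011,nat_lit 0x10011,
    nat_lit 0x100011,nat_lit 0x1000011,nat_lit 0x1000101,nat_lit 0x1001,nat_lit 0x1001001,nat_lit 0x10001,
    nat_lit 0x10101,nat_lit 0x11001,nat_lit 0x20001,nat_lit 0x110001,nat_lit 0x1010001,nat_lit 0x1010011,
    nat_lit 0x100001,nat_lit 0x101001,nat_lit 0x1000001],[nat_lit 32,nat_lit 48,nat_lit 0x1020,nat_lit 0x10020,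
    nat_lit 0x1010020,nat_lit 0x100020,nat_lit 0x1000020,nat_lit 272,nat_lit 0x10110,nat_lit 0x100110,
    nat_lit 0x1000110,nat_lit 0x1010,nat_lit 0x11010,nat_lit 0x1001010,nat_lit 0x1011010,nat_lit 0x101010,
    nat_lit 0x10010,nat_lit 0x20010,nat_lit 0x110010,nat_lit 0x1010010,nat_lit 0x100010,nat_lit 0x200010,
    nat_lit 0x1100010,nat_lit 0x1000010,nat_lit 0x2000010],[nat_lit 512,nat_lit 0x1000200,nat_lit 0x1100,
    nat_lit 0x1001100,nat_lit 0x10100,nat_lit 0x1010100,nat_lit 0x100100,nat_lit 0x1000100],[nat_lit 0x2000,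
    nat_lit 0x11000,nat_lit 0x1011000,nat_lit 0x111000,nat_lit 0x1001000,nat_lit 0x1101000],[nat_lit 0x20000,
    nat_lit 0x120000,nat_lit 0x1020000,nat_lit 0x110000,nat_lit 0x1010000,nat_lit 0x2010000],[nat_lit 0x200000,
    nat_lit 0x1100000],[nat_lit 0x2000000]]
    [.c (nat_lit 1) (nat_lit 2),.r (nat_lit 0x1b13) (nat_lit 10) [nat_lit 0x220031,nat_lit 0x55431,nat_lit 33,
    nat_lit 0x300021],.r (nat_lit 0x1d09) (nat_lit 8) [nat_lit 0x330021,nat_lit 0x375401,nat_lit 0x2001,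
    nat_lit 0x240031],.c (nat_lit 0) (nat_lit 0x22003),.r (nat_lit 0x1bec) (nat_lit 8) [nat_lit 0x353221,
    nat_lit 0x2001],.r (nat_lit 0x1750) (nat_lit 8) [nat_lit 0x353221,nat_lit 0x222031],
    .c (nat_lit 0) (nat_lit 0x26005),.r (nat_lit 0x1c82) (nat_lit 5) [nat_lit 0x353221,nat_lit 0x222031],
    .c (nat_lit 0) (nat_lit 0x26005),.c (nat_lit 0) (nat_lit 0x2232),.r (nat_lit 0x1c82) (nat_lit 5) [nat_lit 0x30231,
    nat_lit 33],.r (nat_lit 0x1cdb) (nat_lit 11) [nat_lit 0x2031,nat_lit 33],.c (nat_lit 0) (nat_lit 0x26005),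
    .c (nat_lit 0) (nat_lit 0x2232),.r (nat_lit 0x1cdb) (nat_lit 10) [nat_lit 0x33231,nat_lit 33],
    .r (nat_lit 0x1ccd) (nat_lit 6) [nat_lit 0x2001,nat_lit 0x220001,nat_lit 0x330041],
    .r (nat_lit 0x1d0c) (nat_lit 6) [nat_lit 0x2001,nat_lit 0x33201,nat_lit 0x264501,nat_lit 0x20321],
    .c (nat_lit 1) (nat_lit 0x20002),.c (nat_lit 1) (nat_lit 0x3002),.r (nat_lit 0x1750) (nat_lit 8) [nat_lit 0x30231,
    nat_lit 33],.c (nat_lit 0) (nat_lit 770),.c (nat_lit 0) (nat_lit 0x26005),.c (nat_lit 2) (nat_lit 2),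
    .r (nat_lit 0x1bec) (nat_lit 8) [nat_lit 0x375422,nat_lit 0x2001],.r (nat_lit 0x1198) (nat_lit 8) [nat_lit 65,
    nat_lit 0x440031,nat_lit 0x80051,nat_lit 0x8001],.c (nat_lit 0) (nat_lit 0x4003),.c (nat_lit 2) (nat_lit 0x3002),
    .r (nat_lit 0x17f6) (nat_lit 4) [nat_lit 33,nat_lit 0x2001,nat_lit 0x440031,nat_lit 0x5d9821],
    .c (nat_lit 0) (nat_lit 0x4003),.r (nat_lit 0x1bec) (nat_lit 8) [nat_lit 33,nat_lit 0x2001],
    .r (nat_lit 0x18ff) (nat_lit 8) [nat_lit 0x375401,nat_lit 0x2001,nat_lit 0x335451,nat_lit 0x220001],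
    .r (nat_lit 0x1cdb) (nat_lit 3) [nat_lit 0x2031,nat_lit 33],.r (nat_lit 0x174c) (nat_lit 9) [nat_lit 0x2001,
    nat_lit 0x220001,nat_lit 0x335431],.r (nat_lit 0x1ce4) (nat_lit 8) [nat_lit 0x33201,nat_lit 33],
    .r (nat_lit 0x1975) (nat_lit 2) [nat_lit 0x20031,nat_lit 0x2001,nat_lit 0x33201,nat_lit 0x220001],
    .r (nat_lit 8) (nat_lit 8) [nat_lit 0x22031,nat_lit 0x33201],.c (nat_lit 4) (nat_lit 0x3002),
    .c (nat_lit 1) (nat_lit 0x22203),.c (nat_lit 0) (nat_lit 0x2003),.c (nat_lit 0) (nat_lit 0x4003),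
    .r (nat_lit 0x1d05) (nat_lit 1) [nat_lit 0x20031,nat_lit 0x33201,nat_lit 0x2001],.c (nat_lit 0) (nat_lit 0x2003),
    .r (nat_lit 0x1d07) (nat_lit 12) [nat_lit 0x33201,nat_lit 33],.r (nat_lit 0x1c82) (nat_lit 5) [nat_lit 0x375422,
    nat_lit 0x224032],.r (nat_lit 0x1d02) (nat_lit 3) [nat_lit 0x33201,nat_lit 0x2031,nat_lit 0x20001],
    .c (nat_lit 0) (nat_lit 0x2003),.c (nat_lit 0) (nat_lit 0x4003),.c (nat_lit 3) (nat_lit 2),
    .c (nat_lit 5) (nat_lit 0x35543),.r (nat_lit 0x1750) (nat_lit 8) [nat_lit 33,nat_lit 0x30231],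
    .r (nat_lit 0x1898) (nat_lit 1) [nat_lit 0x2001,nat_lit 0x220321,nat_lit 0x240541,nat_lit 0x353431],
    .c (nat_lit 0) (nat_lit 0x33545),.c (nat_lit 1) (nat_lit 0x22232),.r (nat_lit 0x1c82) (nat_lit 5) [nat_lit 33,
    nat_lit 0x30231],.c (nat_lit 0) (nat_lit 0x33545),.c (nat_lit 4) (nat_lit 2),
    .r (nat_lit 0x1bec) (nat_lit 7) [nat_lit 33,nat_lit 0x33201],.r (nat_lit 0x1cf7) (nat_lit 9) [nat_lit 0x20031,
    nat_lit 0x33201,nat_lit 0x2001],.c (nat_lit 0) (nat_lit 770),.r (nat_lit 0x1c22) (nat_lit 4) [nat_lit 0x2031,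
    nat_lit 33,nat_lit 0x222301],.c (nat_lit 0) (nat_lit 770),.c (nat_lit 5) (nat_lit 2),
    .r (nat_lit 0x1cfe) (nat_lit 13) [nat_lit 0x33201,nat_lit 0x2001,nat_lit 33],.c (nat_lit 0) (nat_lit 0x4003),
    .r (nat_lit 0x1750) (nat_lit 6) [nat_lit 33,nat_lit 0x33201],.c (nat_lit 0) (nat_lit 0x2003),
    .c (nat_lit 0) (nat_lit 0x4003),.c (nat_lit 6) (nat_lit 2),.r (nat_lit 0x1bec) (nat_lit 1) [nat_lit 33,
    nat_lit 0x33201],.c (nat_lit 7) (nat_lit 2)],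
    .l (nat_lit 14) (nat_lit 0x960) (nat_lit 3) (nat_lit 0x39a0000038a000003aa0000044a00000446000003c4000003e3000003e3000003e2000003e20000042800000428000004880000039a) (nat_lit 0xfe000000ee0000003e000000de000000c400000042000000a5000000a5000000a6000000a60000006000000060000000ee00000000)
    (nat_lit 0x96025811702bc09602780cd43210c483120b303700ab039a0a3025811702ac09a82ac0cd43110c483120b303700a7039a0ab02bc10202cc0ae82580b5c3610af82b40ce831c0c00408117045c11384080e184080e4c3a50b083800fa83e810f02580ab027810202580e083c20f143a10e883b217604c8096044609a82580e182ba0c003820a5431f0ce028212603880aa83c40c443210e943610c7c3a10f6833e0c643c70e0c3690dcc2af0cd43350e4c2d70a543c50cf83da0cf433d0e543830b5c3e30c483120e002b40a083b20cf43c70cf033c0e083820ad03d00c483120b082be0ce03a20cf43190cf033c0e083820af84860dc03700fa031c0e204c80e0c3690e083820c903c80c704280b302cc0fa833a12605d80e543830e083820f203240ce84280e6839a09604080f104460f8c2af12183d010a042810204880a702ac10f03000aa82580b5c3730af82b40ce831c0c00408)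
    (nat_lit 0x9609602580960258096025809602580960258096025809600960258258096025809602580960258096025809602580960117045c1020960258096025809602580960258096025809600af02ac0b3040825809602580960258096025809602580960096026a0ae83860e08960258096025809602580960258096009e02ac09604080f0838225809602580960258096025809600cd43350b5c3930f142950f689602580960258096025809600c843110d843a50e8431f0cf83da2580960258096025809600c483120af82c20e883380c6433d0cf0960258096025809600c483120ad03800ec82820f1c33d0cf033c258096025809600b302cc0ce83ea15104980e0c3950e083820c9096025809600dc03700c703e813203880da43830e083820f2032425809600ab029c0c0043c09602aa0dcc2d70ad02be0c7033a10209600e6839a102025811183c40abc3e30f4048610a04281220408)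
    (nat_lit 4) (nat_lit 37)
    [[nat_lit 2,nat_lit 17,nat_lit 0x100011,nat_lit 257,nat_lit 0x1101,nat_lit 0x100101,nat_lit 0x1001,
    nat_lit 0x101001,nat_lit 0x10001,nat_lit 0x11001,nat_lit 0x110001,nat_lit 0x1010001,nat_lit 0x100001,
    nat_lit 0x1000001,nat_lit 0x1001001,nat_lit 0x1100001,nat_lit 0x2000001],[nat_lit 32,nat_lit 272,nat_lit 0x1010,
    nat_lit 0x100010,nat_lit 0x1000010,nat_lit 0x1010010,nat_lit 0x2000010],[nat_lit 512,nat_lit 0x100200,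
    nat_lit 0x1100,nat_lit 0x10100,nat_lit 0x1010100,nat_lit 0x110100,nat_lit 0x100100,nat_lit 0x200100,
    nat_lit 0x1100100,nat_lit 0x1000100,nat_lit 0x2000100],[nat_lit 0x2000,nat_lit 0x11000,nat_lit 0x1011000,
    nat_lit 0x111000,nat_lit 0x101000,nat_lit 0x1001000,nat_lit 0x2001000],[nat_lit 0x20000,nat_lit 0x1020000,
    nat_lit 0x110000,nat_lit 0x1110000,nat_lit 0x1010000,nat_lit 0x2010000],[nat_lit 0x200000,nat_lit 0x1100000],
    [nat_lit 0x2000000,nat_lit 0x3000000]]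
    [.c (nat_lit 1) (nat_lit 2),.c (nat_lit 7) (nat_lit 0x3302),.r (nat_lit 0x1b88) (nat_lit 8) [nat_lit 0x202031,
    nat_lit 0x33021,nat_lit 0x323201],.r (nat_lit 0x1d07) (nat_lit 8) [nat_lit 33,nat_lit 0x2001],
    .r (nat_lit 0x1b88) (nat_lit 8) [nat_lit 0x232321,nat_lit 0x3231,nat_lit 0x323201],
    .r (nat_lit 32) (nat_lit 0) [nat_lit 0x3231,nat_lit 0x300021],.c (nat_lit 0) (nat_lit 0x32323),
    .r (nat_lit 0x1c12) (nat_lit 0) [nat_lit 0x3231,nat_lit 0x303231,nat_lit 0x204321],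
    .r (nat_lit 32) (nat_lit 0) [nat_lit 0x303231,nat_lit 33],.c (nat_lit 7) (nat_lit 0x30323),
    .r (nat_lit 0x187d) (nat_lit 2) [nat_lit 0x2001,nat_lit 0x323201,nat_lit 0x33001,nat_lit 0x3021],
    .c (nat_lit 4) (nat_lit 0x30323),.r (nat_lit 0x1cdb) (nat_lit 12) [nat_lit 0x303021,nat_lit 0x202001],
    .r (nat_lit 4) (nat_lit 11) [nat_lit 0x303231,nat_lit 33],.c (nat_lit 2) (nat_lit 0x20432),
    .r (nat_lit 0x174e) (nat_lit 13) [nat_lit 0x3231,nat_lit 0x2001],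
    .r (nat_lit 0x1c50) (nat_lit 9) [nat_lit 0x323201,nat_lit 0x232341,nat_lit 0x62e741,nat_lit 0x737651],
    .c (nat_lit 2) (nat_lit 2),.c (nat_lit 0) (nat_lit 0x20203),.r (nat_lit 0x1d0e) (nat_lit 7) [nat_lit 0x3021,
    nat_lit 0x2001,nat_lit 0x320231],.c (nat_lit 0) (nat_lit 0x20203),.r (nat_lit 0x1c5a) (nat_lit 0) [nat_lit 0x2031,
    nat_lit 33,nat_lit 0x202031],.c (nat_lit 0) (nat_lit 770),.r (nat_lit 0x18f0) (nat_lit 1) [nat_lit 0x3021,
    nat_lit 0x2001,nat_lit 0x43021,nat_lit 0x330231],.c (nat_lit 3) (nat_lit 2),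
    .r (nat_lit 0x1c06) (nat_lit 8) [nat_lit 0x303021,nat_lit 0x2001,nat_lit 0x404031],
    .r (nat_lit 0x174f) (nat_lit 13) [nat_lit 0x2001,nat_lit 33],.r (nat_lit 0x1c06) (nat_lit 8) [nat_lit 0x3021,
    nat_lit 0x2001,nat_lit 0x204031],.r (nat_lit 0x1caf) (nat_lit 2) [nat_lit 0x2001,nat_lit 0x3021],
    .c (nat_lit 2) (nat_lit 0x20403),.c (nat_lit 0) (nat_lit 0x20203),
    .r (nat_lit 0x1384) (nat_lit 2) [nat_lit 0x323201,nat_lit 0x2001,nat_lit 0x300021,nat_lit 0x202001],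
    .c (nat_lit 1) (nat_lit 0x32002),.c (nat_lit 0) (nat_lit 0x23325),
    .r (nat_lit 0x19ed) (nat_lit 11) [nat_lit 0x2001,nat_lit 0x323201,nat_lit 0x253031],.c (nat_lit 4) (nat_lit 2),
    .r (nat_lit 4) (nat_lit 5) [nat_lit 0x303231,nat_lit 33],.c (nat_lit 1) (nat_lit 0x30323),
    .r (nat_lit 0x19ed) (nat_lit 11) [nat_lit 0x2001,nat_lit 0x323201,nat_lit 0x230321],
    .r (nat_lit 0x1cdb) (nat_lit 3) [nat_lit 0x303021,nat_lit 0x202001],.r (nat_lit 32) (nat_lit 1) [nat_lit 0x303231,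
    nat_lit 33],.c (nat_lit 2) (nat_lit 0x22632),.c (nat_lit 5) (nat_lit 2),
    .r (nat_lit 32) (nat_lit 1) [nat_lit 0x20021,nat_lit 0x333231],.r (nat_lit 0x1384) (nat_lit 2) [nat_lit 0x323201,
    nat_lit 0x2001,nat_lit 33,nat_lit 0x202001],.r (nat_lit 0x187a) (nat_lit 12) [nat_lit 0x2001,nat_lit 0x323021,
    nat_lit 0x305021,nat_lit 0x202001],.c (nat_lit 1) (nat_lit 0x2002),.r (nat_lit 4) (nat_lit 5) [nat_lit 0x20021,
    nat_lit 0x333231],.c (nat_lit 6) (nat_lit 2),.c (nat_lit 0) (nat_lit 0x23325),.c (nat_lit 7) (nat_lit 2),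
    .r (nat_lit 0x1d0d) (nat_lit 4) [nat_lit 33,nat_lit 0x2001,nat_lit 0x60021,nat_lit 0x777651]]]

/-- nodes -/
noncomputable def rD7k_25_31 : List RJ :=
  [.l (nat_lit 14) (nat_lit 0xb40) (nat_lit 3) (nat_lit 0x556000005560000050c0000042400000491000004910000048e0000048e000005160000040c000004900000049000000424000004f4) (nat_lit 0x1320000004a000000c5000000c5000000c8000000c80000014a00000040000000c6000000c60000006200000132)
    (nat_lit 0x155854c109850c124447319c84b611b851611c849013d04261558556100850c12444911a284ce1128516116849013d0402143050c0f684c2101c46911104440f082d011a040812a841010084260b403da0d2c35f0d703480b683bc0d903880f8030c12444730d7c4690f803ee0fc43dd0c744510ec43cb10b435912444910d2c4070f483e00f243c90d1c4570f4c3d3101c34b13384b60d204440f243dd0f003c00cf044e0f703c810b03541a286720d704440f243f10f003c00d1044e0fc03c810b035c14585160ef02d0115c451113844e0f304dc11404500b403bc112846e0b683c20d1c31d0d1033c0b403cc0d183460ea82d012404900e204080f4c3cb0f203c80d184500f503bc0f3035e11684720d904680f4c3b10fc03dc0d184500ec03d410b035e10084260c304100d2c3590d703540b403bc0d7835e0f8030c13d04f40f804aa101c42d10b042c0ea82d010b03cc12703e0)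
    (nat_lit 0x1558b402d00b402d00b402d00b402d00b402d00b402d00b4015305562d00b402d00b402d00b402d00b402d00b402d00b4010984020f68b402d00b402d00b402d00b402d00b402d00b40143050c13083da2d00b402d00b402d00b402d00b402d00b401244491101c34b0f80b402d00b402d00b402d00b402d00b4011cc49111a435f0fb83e02d00b402d00b402d00b402d00b4019c868a111035c0fc43c90f00b402d00b402d00b402d00b4012d84ce11103480f743c90f003c02d00b402d00b402d00b4011b844a0f082da0c743470cf03440f30b402d00b402d00b4014585160b403bc1144457113844e13703cc2d00b402d00b4011c845a11a03640ec43d30f703f011403460f50b402d00b40124049010203880f2c3d30f203c811403460ef03d42d00b4013d04f412a83e010b440710b042c0b403aa0f3042c0f80b401098402104030c0d6434b0d5035c0ef02d00d7835e0c303e0)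
    (nat_lit 4) (nat_lit 37)
    [[nat_lit 2,nat_lit 18,nat_lit 258,nat_lit 17,nat_lit 33,nat_lit 273,nat_lit 0x1011,nat_lit 0x10011,nat_lit 257,
    nat_lit 513,nat_lit 0x1101,nat_lit 0x10101,nat_lit 0x100101,nat_lit 0x1001,nat_lit 0x10001,nat_lit 0x100001,
    nat_lit 0x1000001],[nat_lit 32,nat_lit 272,nat_lit 0x100110,nat_lit 0x1010,nat_lit 0x10010,nat_lit 0x110010,
    nat_lit 0x100010,nat_lit 0x1000010],[nat_lit 512,nat_lit 0x100200,nat_lit 0x1100,nat_lit 0x101100,nat_lit 0x10100,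
    nat_lit 0x11100,nat_lit 0x110100,nat_lit 0x100100,nat_lit 0x200100,nat_lit 0x1000100],[nat_lit 0x2000,
    nat_lit 0x11000,nat_lit 0x101000],[nat_lit 0x20000,nat_lit 0x110000,nat_lit 0x1010000],[nat_lit 0x200000,
    nat_lit 0x1100000],[nat_lit 0x2000000]]
    [.c (nat_lit 1) (nat_lit 2),.r (nat_lit 0x1c6f) (nat_lit 3) [nat_lit 0x408521,nat_lit 0x505431,nat_lit 33],
    .r (nat_lit 0x1c6f) (nat_lit 3) [nat_lit 0x228521,nat_lit 0x335431,nat_lit 0x320021],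
    .c (nat_lit 0) (nat_lit 0x30523),.r (nat_lit 0x174e) (nat_lit 3) [nat_lit 0x323231,nat_lit 0x2001],
    .r (nat_lit 0x174e) (nat_lit 3) [nat_lit 0x3231,nat_lit 0x2001],.c (nat_lit 4) (nat_lit 0x20432),
    .r (nat_lit 32) (nat_lit 7) [nat_lit 0x3231,nat_lit 0x2001],.c (nat_lit 0) (nat_lit 0x3523),
    .r (nat_lit 0x174e) (nat_lit 3) [nat_lit 0x233231,nat_lit 0x2001],.c (nat_lit 4) (nat_lit 0x2432),
    .r (nat_lit 32) (nat_lit 7) [nat_lit 0x233231,nat_lit 0x2001],.r (nat_lit 0x1b6e) (nat_lit 3) [nat_lit 0x3231,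
    nat_lit 0x24301,nat_lit 33],.r (nat_lit 0x1c6f) (nat_lit 3) [nat_lit 0x204321,nat_lit 0x300231,nat_lit 0x305221],
    .r (nat_lit 0) (nat_lit 13) [nat_lit 0x2001,nat_lit 33],.r (nat_lit 0x1d07) (nat_lit 11) [nat_lit 33,
    nat_lit 0x2001],.c (nat_lit 0) (nat_lit 0x30323),.c (nat_lit 2) (nat_lit 2),.c (nat_lit 2) (nat_lit 0x32002),
    .r (nat_lit 32) (nat_lit 1) [nat_lit 0x3231,nat_lit 0x2001],.r (nat_lit 0x174e) (nat_lit 3) [nat_lit 0x22031,
    nat_lit 0x2001],.r (nat_lit 0x1d07) (nat_lit 6) [nat_lit 0x230021,nat_lit 0x2001],.c (nat_lit 4) (nat_lit 0x2203),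
    .r (nat_lit 0x174e) (nat_lit 8) [nat_lit 0x22031,nat_lit 0x230021],.c (nat_lit 0) (nat_lit 0x30323),
    .c (nat_lit 3) (nat_lit 2),.r (nat_lit 32) (nat_lit 1) [nat_lit 0x233231,nat_lit 0x2001],
    .r (nat_lit 0x174e) (nat_lit 3) [nat_lit 0x202031,nat_lit 0x2001],.c (nat_lit 5) (nat_lit 0x20203),
    .r (nat_lit 0x1d07) (nat_lit 6) [nat_lit 33,nat_lit 0x2001],.c (nat_lit 6) (nat_lit 0x20203),
    .c (nat_lit 4) (nat_lit 0x20203),.r (nat_lit 0x174e) (nat_lit 8) [nat_lit 0x202031,nat_lit 33],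
    .r (nat_lit 0x188d) (nat_lit 3) [nat_lit 0x320001,nat_lit 33,nat_lit 0x24301,nat_lit 0x33201],
    .c (nat_lit 0) (nat_lit 0x3323),.c (nat_lit 4) (nat_lit 2),.r (nat_lit 32) (nat_lit 7) [nat_lit 0x202031,
    nat_lit 0x2001],.r (nat_lit 0x1b6e) (nat_lit 3) [nat_lit 0x22031,nat_lit 0x24301,nat_lit 0x35221],
    .c (nat_lit 5) (nat_lit 2),.r (nat_lit 0x174f) (nat_lit 3) [nat_lit 0x2001,nat_lit 33],
    .r (nat_lit 0x1c46) (nat_lit 3) [nat_lit 0x320001,nat_lit 0x24301,nat_lit 0x22321,nat_lit 0x33201],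
    .c (nat_lit 6) (nat_lit 2),.r (nat_lit 0x1bd6) (nat_lit 1) [nat_lit 33,nat_lit 0x33231],
    .c (nat_lit 7) (nat_lit 2)],
    .l (nat_lit 14) (nat_lit 0xf00) (nat_lit 3) (nat_lit 0x7a8000005b40000069600000696000005e4000006a1000006b6000006b600000731000005b4000005c40000069a00000682000006ca) (nat_lit 0x1f400000000000001120000011200000107000001c4000000f2000000f2000001f4000000770000010e000001e4000000de00000126)
    (nat_lit 0x16d07a816a069615b06c225248b916d03c016f05c41b287600f005b412884a216903e0191c5b70f0053d12983c0135847e1288696165058412684d216904ad12c849a16604b216e057012885a816d059415a04d2166c4bd13486a616204b213685700f806c213484d217103f011ac5190fc057613583d017d04be169056c15a049a19685c416bc5af11586ba15b05a40f0057b16dc8b912f44ad16bc51914d05040f6c63f16a05291c345b7191c949166c5a416bc46b1710534162463f16a047b25247f314f43c01a9849a1ae857618fc63f16506ba0f004860f0060b0f005b413484b211583f016243db0f0059412983d013583c00f005c412c84b216903d011ec5290f4048616103e0139849e12985bc162059815b04d616a05a812983c01670584137857411f876015c057015ec4be1fcc5b70f0060b15d049e1a0854c13586ca13685b80f005f4252470d13583c013784e617b0682)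
    (nat_lit 0x16d0f003c00f003c00f003c00f003c00f003c00f003c00f001ea05b43c00f003c00f003c00f003c00f003c00f003c00f0016a04a21650f003c00f003c00f003c00f003c00f003c00f001a584a216105943c00f003c00f003c00f003c00f003c00f0015b05a412685681710f003c00f003c00f003c00f003c00f001b083e013484d20fc05c43c00f003c00f003c00f003c00f002524647169059b11ac5af14d0f003c00f003c00f003c00f0022e45b712b44bd14645af14105343c00f003c00f003c00f0016d03c012c84d20fc04560f6c5891650f003c00f003c00f000f0053d12686a615d86ba18fc63f1ae85943c00f003c00f0016f04a61660588135856c16a05a80f004a61610f003c00f0017103c012c84b20f405a414a447b12183d00f805843c00f001b284d616e04da17d03c01c3482b0f004d613984de1a08f001d8047e15c057012f857b16dc7f3182c3c012785741530682)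
    (nat_lit 3) (nat_lit 49)
    [[nat_lit 2,nat_lit 258,nat_lit 17,nat_lit 273,nat_lit 33,nat_lit 0x10011,nat_lit 257,nat_lit 513,nat_lit 0x10101,
    nat_lit 0x100101,nat_lit 0x1000101,nat_lit 0x10001,nat_lit 0x11001,nat_lit 0x20001,nat_lit 0x110001,
    nat_lit 0x100001,nat_lit 0x1000001],[nat_lit 32,nat_lit 288,nat_lit 0x10020,nat_lit 272,nat_lit 528,
    nat_lit 0x1110,nat_lit 0x10110,nat_lit 0x100110,nat_lit 0x1000110,nat_lit 0x1010,nat_lit 0x10010,nat_lit 0x110010,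
    nat_lit 0x1010010,nat_lit 0x100010,nat_lit 0x101010,nat_lit 0x1000010,nat_lit 0x1000020],[nat_lit 512,
    nat_lit 0x1000200,nat_lit 0x1100,nat_lit 0x101100,nat_lit 0x1001100,nat_lit 0x10100,nat_lit 0x110100,
    nat_lit 0x1010100,nat_lit 0x100100,nat_lit 0x1100100,nat_lit 0x1000100,nat_lit 0x2000100],[nat_lit 0x2000,
    nat_lit 0x11000,nat_lit 0x111000,nat_lit 0x101000],[nat_lit 0x20000,nat_lit 0x110000,nat_lit 0x120000,
    nat_lit 0x1110000,nat_lit 0x1010000],[nat_lit 0x200000,nat_lit 0x1100000],[nat_lit 0x2000000]]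
    [.c (nat_lit 1) (nat_lit 2),.r (nat_lit 32) (nat_lit 3) [nat_lit 0x2b11a,nat_lit 0x10401],
    .c (nat_lit 0) (nat_lit 0x5625),.r (nat_lit 0x174e) (nat_lit 3) [nat_lit 0x18099,nat_lit 0x10001],
    .r (nat_lit 0x1b58) (nat_lit 9) [nat_lit 0x18611,nat_lit 0x10401,nat_lit 0x10001],.c (nat_lit 6) (nat_lit 0x241a),
    .r (nat_lit 0) (nat_lit 6) [nat_lit 0x611,nat_lit 0x10401],.r (nat_lit 0x1c6a) (nat_lit 4) [nat_lit 0x401,
    nat_lit 0x611,nat_lit 0x10001],.r (nat_lit 0x1b53) (nat_lit 4) [nat_lit 0x401,nat_lit 0x18099,nat_lit 0x10001],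
    .r (nat_lit 32) (nat_lit 3) [nat_lit 0x18099,nat_lit 0x10401],.r (nat_lit 32) (nat_lit 3) [nat_lit 0x2b71a,
    nat_lit 0x10401],.c (nat_lit 0) (nat_lit 0x5625),.c (nat_lit 0) (nat_lit 0x30c2),
    .r (nat_lit 0x1c6a) (nat_lit 2) [nat_lit 0x601,nat_lit 17,nat_lit 0x10401],
    .r (nat_lit 0x174e) (nat_lit 4) [nat_lit 0x18099,nat_lit 0x10401],.r (nat_lit 0x1b04) (nat_lit 1) [nat_lit 0x611,
    nat_lit 0x10401],.c (nat_lit 1) (nat_lit 130),.c (nat_lit 2) (nat_lit 2),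
    .r (nat_lit 32) (nat_lit 1) [nat_lit 0x2b11a,nat_lit 0x10001],.r (nat_lit 0x1669) (nat_lit 4) [nat_lit 0x10001,
    nat_lit 0x2001,nat_lit 17,nat_lit 0x10401],.r (nat_lit 0x174f) (nat_lit 4) [nat_lit 0x10401,nat_lit 17],
    .r (nat_lit 0x1b54) (nat_lit 5) [nat_lit 0x10001,nat_lit 0x10401,nat_lit 17],
    .r (nat_lit 0x1b7b) (nat_lit 12) [nat_lit 0x10419,nat_lit 0x10019,nat_lit 17],
    .r (nat_lit 0x1979) (nat_lit 5) [nat_lit 0x28699,nat_lit 0x10001,nat_lit 0x10401],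
    .r (nat_lit 32) (nat_lit 1) [nat_lit 0x18099,nat_lit 0x10001],.r (nat_lit 0x174e) (nat_lit 3) [nat_lit 0x18699,
    nat_lit 0x10001],.r (nat_lit 0x1d01) (nat_lit 2) [nat_lit 0x10019,nat_lit 0x2001,nat_lit 17],
    .c (nat_lit 0) (nat_lit 0x5765),.r (nat_lit 32) (nat_lit 12) [nat_lit 0x18699,nat_lit 0x10401],
    .c (nat_lit 6) (nat_lit 0x249a),.r (nat_lit 0x1c82) (nat_lit 3) [nat_lit 0x10401,nat_lit 17],
    .r (nat_lit 0x1caf) (nat_lit 13) [nat_lit 0x10001,nat_lit 0x18011],.c (nat_lit 0) (nat_lit 0x5765),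
    .r (nat_lit 0x1b58) (nat_lit 9) [nat_lit 0x18011,nat_lit 0x10401,nat_lit 0x10001],.c (nat_lit 3) (nat_lit 2),
    .r (nat_lit 0x1c6a) (nat_lit 4) [nat_lit 0x401,nat_lit 17,nat_lit 0x10001],
    .r (nat_lit 0x1b58) (nat_lit 5) [nat_lit 0x2019,nat_lit 0x10001,nat_lit 0x10401],
    .r (nat_lit 0x1b04) (nat_lit 1) [nat_lit 0x12019,nat_lit 0x10401],.c (nat_lit 6) (nat_lit 0x2403),
    .r (nat_lit 0x1d07) (nat_lit 6) [nat_lit 17,nat_lit 0x10001],.r (nat_lit 0x1979) (nat_lit 9) [nat_lit 0x28699,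
    nat_lit 0x10401,nat_lit 0x10001],.r (nat_lit 0x1b53) (nat_lit 4) [nat_lit 0x401,nat_lit 0x18699,nat_lit 0x10001],
    .c (nat_lit 0) (nat_lit 0x405),.r (nat_lit 32) (nat_lit 3) [nat_lit 0x18699,nat_lit 0x10401],
    .r (nat_lit 0) (nat_lit 6) [nat_lit 17,nat_lit 0x10401],.r (nat_lit 32) (nat_lit 3) [nat_lit 0x2bb1a,
    nat_lit 0x10401],.c (nat_lit 4) (nat_lit 2),.r (nat_lit 0x1bdf) (nat_lit 11) [nat_lit 17,nat_lit 0x20d1],
    .r (nat_lit 0x1b7b) (nat_lit 1) [nat_lit 0x10019,nat_lit 0x10419,nat_lit 17],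
    .r (nat_lit 32) (nat_lit 3) [nat_lit 0x2b691,nat_lit 0x10401],.c (nat_lit 5) (nat_lit 2),
    .r (nat_lit 0x174f) (nat_lit 3) [nat_lit 0x10001,nat_lit 17],.r (nat_lit 0x1b54) (nat_lit 9) [nat_lit 0x10401,
    nat_lit 0x10001,nat_lit 17],.r (nat_lit 0x174e) (nat_lit 4) [nat_lit 0x18699,nat_lit 0x10401],
    .c (nat_lit 0) (nat_lit 0x5765),.c (nat_lit 6) (nat_lit 2),.r (nat_lit 0x1b04) (nat_lit 1) [nat_lit 17,
    nat_lit 0x10401],.c (nat_lit 7) (nat_lit 2)]]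

/-- nodes -/
noncomputable def rD7k_25_32 : List RJ :=
  [.l (nat_lit 16) (nat_lit 0x2760) (nat_lit 6) (nat_lit 0x1106000011060000118f00000fff00000d20000014980000115a0000115a0000131e0000131e0000111b0000111b00000ef800001314) (nat_lit 0x39200000392000004990000030900000000000007780000033e0000033e0000017a0000017a0000037d0000037d00000184000005a0)
    (nat_lit 0x13b01a160c190dfd1106093a0cf60e700d400f8c1309070f0f820a940d4a13b00c970dfd1106093a18f01a6a0eba0f8c14030d890f820b660dfd0dfd0d4a0eb004ed09ed0e510e51101504ed0e120ee409cf05750c970c190b660d4a0fff08870d150cc1107d0e310c2e0d000ecf0a5f093a093a088709ed0d2005a80a3609e20b280b5209a307ab0bf007d4110611060fff04ed14ec0d20115a115a11f8131e1367116f126c0f4c1a6a0e700cc10e51115a09e20e1c0dc80f8c0fe00d890f030fd6096e18f00cf60d150e51115a0a360e1c0e1c0de80fe00c0f0d890fd609c20f8c0f8c0e3104ed131e0b520fe00fe011f811a411991199126c0f4c0eba0d40107d101511f80b280de80f8c144411f80fa10fa1181414f40d89070f0d000ee4116f07ab0d890f030fa1119906280afe11e30b7b140313090c2e0e12136709a30c0f0d890fa111990d9e062810690b7b0b660a940a5f05750f4c07d409c2096e14f40f4c0b7b0b7b07f409580f820f820ecf09cf126c0bf00fd60fd61814126c106911e304ee07f4)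
    (nat_lit 0x13b027602760276027602760276027602760276027602760276027601a1613b02760276027602760276027602760276027602760276027600c190c970d4a276027602760276027602760276027602760276027600dfd0dfd0eb00d4a27602760276027602760276027602760276027601106110604ed0fff0d20276027602760276027602760276027602760093a093a09ed088705a80d20276027602760276027602760276027600cf618f00e510d150a36115a0e1c27602760276027602760276027600e701a6a0e510cc109e2115a0dc80e1c2760276027602760276027600d400eba1015107d0b2811f80f8c0de811f8276027602760276027600f8c0f8c04ed0e310b52131e0fe00fe011a411f82760276027602760130914030e120c2e09a3111b0d890c0f111b0fa10628276027602760070f0d890c980d0007ab116f0f030d8911990fa10afe0628276027600f820f8209cf0ecf0bf0126c0fd60fd6126c181411e3106907f427600a940b6605750a5f07d40f4c096e09c20f4c14f40b7b0b7b095807f4)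
    (nat_lit 5) (nat_lit 199)
    [[nat_lit 2,nat_lit 3,nat_lit 4,nat_lit 5,nat_lit 0x100004,nat_lit 0x100003,nat_lit 19,nat_lit 0x1003,
    nat_lit 0x10003,nat_lit 0x110003,nat_lit 0x200003,nat_lit 0x1000003,nat_lit 18,nat_lit 0x1002,nat_lit 0x10002,
    nat_lit 0x110002,nat_lit 0x100002,nat_lit 0x200002,nat_lit 0x1000002,nat_lit 0x1004,nat_lit 34,nat_lit 0x1012,
    nat_lit 0x100012,nat_lit 0x1000012,nat_lit 0x2002,nat_lit 0x101002,nat_lit 0x1001002,nat_lit 0x210002,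
    nat_lit 0x1100002,nat_lit 17,nat_lit 33,nat_lit 0x100011,nat_lit 0x1000011,nat_lit 0x1001,nat_lit 0x101001,
    nat_lit 0x10001,nat_lit 0x11001,nat_lit 0x110001,nat_lit 0x210001,nat_lit 0x10011,nat_lit 0x1010001,
    nat_lit 0x100001,nat_lit 0x200001,nat_lit 0x1100001,nat_lit 0x110011,nat_lit 0x1000001,nat_lit 0x1001001],
    [nat_lit 32,nat_lit 48,nat_lit 64,nat_lit 80,nat_lit 96,nat_lit 0x110030,nat_lit 0x1020,nat_lit 0x10020,
    nat_lit 0x110020,nat_lit 0x100020,nat_lit 0x100120,nat_lit 0x1000020,nat_lit 272,nat_lit 0x100110,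
    nat_lit 0x1000110,nat_lit 0x1010,nat_lit 0x11010,nat_lit 0x111010,nat_lit 0x10010,nat_lit 0x20010,
    nat_lit 0x110010,nat_lit 0x120010,nat_lit 0x220010,nat_lit 0x1110010,nat_lit 0x1010010,nat_lit 0x100010,
    nat_lit 0x210010,nat_lit 0x1100010,nat_lit 0x1100110,nat_lit 0x1000010],[nat_lit 512,nat_lit 0x1100,
    nat_lit 0x101100,nat_lit 0x10100,nat_lit 0x110100,nat_lit 0x210100,nat_lit 0x100100,nat_lit 0x200100,
    nat_lit 0x1000100,nat_lit 0x1100100],[nat_lit 0x2000,nat_lit 0x11000,nat_lit 0x111000,nat_lit 0x101000],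
    [nat_lit 0x20000,nat_lit 0x120000,nat_lit 0x110000,nat_lit 0x220000,nat_lit 0x210000,nat_lit 0x1110000,
    nat_lit 0x1010000],[nat_lit 0x200000,nat_lit 0x1100000],[]]
    [.c (nat_lit 1) (nat_lit 2),.c (nat_lit 0) (nat_lit 0x1c04),.c (nat_lit 0) (nat_lit 0x1402),
    .c (nat_lit 0) (nat_lit 0x2c04),.c (nat_lit 0) (nat_lit 0x1402),.c (nat_lit 0) (nat_lit 0x1c04),
    .c (nat_lit 0) (nat_lit 0x1c04),.c (nat_lit 0) (nat_lit 0x501c04),.c (nat_lit 0) (nat_lit 0x4114a4),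
    .c (nat_lit 0) (nat_lit 0x4114a4),.c (nat_lit 0) (nat_lit 0x1c04),.c (nat_lit 0) (nat_lit 0x1c04),
    .c (nat_lit 5) (nat_lit 0x518885),.c (nat_lit 0) (nat_lit 0x300c02),.c (nat_lit 2) (nat_lit 0x518885),
    .c (nat_lit 0) (nat_lit 0xc02),.c (nat_lit 1) (nat_lit 0x802),.c (nat_lit 1) (nat_lit 0x1002),
    .c (nat_lit 0) (nat_lit 0xc02),.c (nat_lit 0) (nat_lit 0x301402),.c (nat_lit 0) (nat_lit 0xc02),
    .c (nat_lit 0) (nat_lit 0x300c02),.c (nat_lit 0) (nat_lit 0xc02),.c (nat_lit 0) (nat_lit 0xc02),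
    .c (nat_lit 0) (nat_lit 0x500c02),.c (nat_lit 0) (nat_lit 0x300c02),.c (nat_lit 0) (nat_lit 0x300002),
    .c (nat_lit 0) (nat_lit 0xc02),.c (nat_lit 0) (nat_lit 0xc02),.c (nat_lit 0) (nat_lit 0x518085),
    .r (nat_lit 0x174b) (nat_lit 10) [nat_lit 0x4000001,nat_lit 0x210002,nat_lit 0xa301061],
    .r (nat_lit 0x1b4d) (nat_lit 0) [nat_lit 0xa3190a2,nat_lit 0x4000001,nat_lit 0x210002],
    .r (nat_lit 0x17c6) (nat_lit 10) [nat_lit 0x4000001,nat_lit 0x200c41,nat_lit 0xa219502,nat_lit 0x3110a2],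
    .r (nat_lit 0) (nat_lit 6) [nat_lit 0x82100a2,nat_lit 65],.r (nat_lit 0x1c1a) (nat_lit 10) [nat_lit 0x4000001,
    nat_lit 0x2100a2,nat_lit 0xa319002],.c (nat_lit 0) (nat_lit 0x518085),
    .r (nat_lit 0x1cdb) (nat_lit 10) [nat_lit 0x2100a2,nat_lit 65],.r (nat_lit 0x174b) (nat_lit 4) [nat_lit 0x4000001,
    nat_lit 0x210002,nat_lit 0x218082],.r (nat_lit 0x194c) (nat_lit 4) [nat_lit 0x10001,nat_lit 0x200001,
    nat_lit 0x4000001,nat_lit 0xa3010a1],.c (nat_lit 1) (nat_lit 0x518885),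
    .r (nat_lit 0x1c15) (nat_lit 6) [nat_lit 0x4000001,nat_lit 0x210002,nat_lit 0xa318082],
    .r (nat_lit 0x1d07) (nat_lit 11) [nat_lit 65,nat_lit 0x4000001],.r (nat_lit 0x1ce7) (nat_lit 5) [nat_lit 0x18081,
    nat_lit 0xa100a2,nat_lit 0x20041,nat_lit 0x4000001],.r (nat_lit 0x19ed) (nat_lit 12) [nat_lit 0x4000001,
    nat_lit 0x200001,nat_lit 0x6300041],.c (nat_lit 1) (nat_lit 0x4108a4),
    .r (nat_lit 10) (nat_lit 1) [nat_lit 0x82100a2,nat_lit 65],.c (nat_lit 0) (nat_lit 0x300002),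
    .c (nat_lit 2) (nat_lit 2),.r (nat_lit 45) (nat_lit 6) [nat_lit 65,nat_lit 0x1a73b0a2,nat_lit 0x4000001],
    .r (nat_lit 40) (nat_lit 6) [nat_lit 66,nat_lit 0x1252a062,nat_lit 0x4000001],
    .r (nat_lit 0xde6) (nat_lit 4) [nat_lit 0x28000001,nat_lit 0x2ab5d0a1,nat_lit 0x29e55482,nat_lit 129],
    .r (nat_lit 75) (nat_lit 6) [nat_lit 66,nat_lit 0x1a73b062,nat_lit 0x4000001],
    .r (nat_lit 40) (nat_lit 6) [nat_lit 0x8211482,nat_lit 0x1a73b0a2,nat_lit 0x4000001],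
    .r (nat_lit 0x1b8f) (nat_lit 13) [nat_lit 0x6000041,nat_lit 0x210002,nat_lit 0x4000001],
    .c (nat_lit 0) (nat_lit 0x518c83),.c (nat_lit 2) (nat_lit 0x4108a4),.c (nat_lit 0) (nat_lit 0x518c83),
    .r (nat_lit 0x174b) (nat_lit 10) [nat_lit 0x4000001,nat_lit 0x210002,nat_lit 0x1231a0a2],
    .r (nat_lit 0x1b8f) (nat_lit 9) [nat_lit 0x6000041,nat_lit 0x210002,nat_lit 0x4000001],
    .c (nat_lit 0) (nat_lit 0x500c85),.c (nat_lit 0) (nat_lit 0x500c85),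
    .r (nat_lit 0x1c20) (nat_lit 10) [nat_lit 0x4000001,nat_lit 0xa319002,nat_lit 0x211482],
    .r (nat_lit 0x1ce4) (nat_lit 8) [nat_lit 0x210002,nat_lit 65],.r (nat_lit 0x1b4a) (nat_lit 5) [nat_lit 0xa3190a2,
    nat_lit 0x4000001,nat_lit 0x210002],.c (nat_lit 4) (nat_lit 0x4108a4),.c (nat_lit 0) (nat_lit 0x518c85),
    .c (nat_lit 0) (nat_lit 0x518c83),.c (nat_lit 0) (nat_lit 0x518c85),.c (nat_lit 5) (nat_lit 0x4108a4),
    .c (nat_lit 0) (nat_lit 0x518c83),.c (nat_lit 4) (nat_lit 0x18c85),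
    .r (nat_lit 0x1caf) (nat_lit 9) [nat_lit 0x4000001,nat_lit 0x6000041],.c (nat_lit 0) (nat_lit 0x518c85),
    .c (nat_lit 6) (nat_lit 0x4108a4),.r (nat_lit 0x1b4a) (nat_lit 0) [nat_lit 0xa3190a2,nat_lit 0x4000001,
    nat_lit 0x210002],.r (nat_lit 0x17c6) (nat_lit 10) [nat_lit 0x4000001,nat_lit 0x211482,nat_lit 0xa311502,
    nat_lit 0x861],.r (nat_lit 0x1ce4) (nat_lit 13) [nat_lit 65,nat_lit 0x210002],.c (nat_lit 3) (nat_lit 2),
    .r (nat_lit 10) (nat_lit 1) [nat_lit 65,nat_lit 0x82100a2],.r (nat_lit 0) (nat_lit 6) [nat_lit 0x4200061,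
    nat_lit 0x310082],.c (nat_lit 0) (nat_lit 0x500c85),.c (nat_lit 0) (nat_lit 0x500c85),
    .r (nat_lit 0x174b) (nat_lit 4) [nat_lit 0x4000001,nat_lit 0x210002,nat_lit 65],.c (nat_lit 0) (nat_lit 0x10003),
    .r (nat_lit 0x1d07) (nat_lit 11) [nat_lit 0x310082,nat_lit 0x4000001],.r (nat_lit 0) (nat_lit 6) [nat_lit 65,
    nat_lit 0x82100a2],.r (nat_lit 10) (nat_lit 1) [nat_lit 0x4200061,nat_lit 0x310082],.c (nat_lit 4) (nat_lit 2),
    .r (nat_lit 0x1bec) (nat_lit 7) [nat_lit 65,nat_lit 0x210002],.r (nat_lit 0x1b47) (nat_lit 1) [nat_lit 0x210002,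
    nat_lit 0x4000061,nat_lit 0xa319002],.r (nat_lit 0x1c1e) (nat_lit 11) [nat_lit 0x6000041,nat_lit 0x4000001,
    nat_lit 0x210002],.c (nat_lit 5) (nat_lit 2),.c (nat_lit 0) (nat_lit 0x518c83),.c (nat_lit 0) (nat_lit 0x518c85),
    .c (nat_lit 0) (nat_lit 0x518c83),.c (nat_lit 0) (nat_lit 0x518c83),
    .r (nat_lit 0x1b47) (nat_lit 7) [nat_lit 0x210002,nat_lit 0x4000061,nat_lit 0xa319002],
    .r (nat_lit 0x1c1e) (nat_lit 6) [nat_lit 0x6000041,nat_lit 0x4000001,nat_lit 0x210002],.c (nat_lit 6) (nat_lit 2),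
    .r (nat_lit 0x1bec) (nat_lit 1) [nat_lit 65,nat_lit 0x210002]]]

/-- nodes -/
noncomputable def rD7k_25_33 : List RJ :=
  [.l (nat_lit 16) (nat_lit 0x2640) (nat_lit 7) (nat_lit 0x160c0000160c000015c4000011d600000f52000017e0000012500000132400000e5400000e54000012ac000016860000103d0000103d) (nat_lit 0x1d4000001d40000060a0000021c000000000000088e000004bc000005900000098c0000098c0000015a00000534000007a3000007a3)
    (nat_lit 0x1438143812500ff8160c120404c81b7408e40884152c04fc0e690b9712081438164813f0143c10340acc217808200c801c480c1812610f8f13f00ff80d0415d804c806f01108120410f812bc134414f00e21068b164812500d840d040e5c09480e180c70068009e80f600a7805ad0a3310341204094806f00f28050c08f80d3c07f004c80df80be8056108cb143c160c0e5c04c819880f281324125012500f28185816480545103d21781b740c70120412500d3c0cc00b18052808c410f609200aad08db0acc04c80e181108132408f80e680cc0063c099804c80df00f7d0dab0c80088409e812bc0f2804c8099808c404c804c80ad00c7c133913b3082008e4068010f8125007f0063c052804c804c80b300920128d13070c1804fc0a7814f016480be80df0092009200c7c04fc0d780ea50cd31c48152c0f60134418580df804c810f60b300ad0152c04fc11b50ee30f8f0b970a33068b103d08cb0dab08db130713b30ee30cd30820089a12610e6905ad0e21054505610f7d0aad128d133911b50ea5089a0820)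
    (nat_lit 0x1438264026402640264026402640264026402640264026402640264014381438264026402640264026402640264026402640264026402640125016480d04264026402640264026402640264026402640264026400ff813f015d80d042640264026402640264026402640264026402640160c143c04c80e5c0e102640264026402640264026402640264026401204103406f00948050c0e102640264026402640264026402640264004c80acc0dc00e1808f812e00cc026402640264026402640264026400fe015e412040c700d3c11380b180cc026402640264026402640264008e408200cb8068007f00b480528063c04c82640264026402640264008840c80099009e804c80eb008c4099804c804c82640264026402640127412f012c00f600df814280fe004c80ad009f004fc26402640264004fc0c1810b00a780be80f4009200df00c7c09200d7804fc264026400e69122d0a2905ad056105450aad0e3d0a0d0d350ea50f75082026400b970f8f068b0a3308cb0ddf08db0dab10730d0b0cd30da3089a0820)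
    (nat_lit 7) (nat_lit 963)
    [[nat_lit 2,nat_lit 3,nat_lit 4,nat_lit 0x100004,nat_lit 0x10003,nat_lit 0x10004,nat_lit 0x110003,
    nat_lit 0x100003,nat_lit 18,nat_lit 0x1012,nat_lit 0x1002,nat_lit 0x10002,nat_lit 0x110002,nat_lit 0x20003,
    nat_lit 0x10102,nat_lit 0x11202,nat_lit 0x110202,nat_lit 0x11102,nat_lit 0x110102,nat_lit 0x1010102,
    nat_lit 0x11002,nat_lit 0x20002,nat_lit 0x120002,nat_lit 0x120003,nat_lit 0x100002,nat_lit 0x200003,
    nat_lit 0x210002,nat_lit 0x210102,nat_lit 0x111002,nat_lit 0x200002,nat_lit 0x1000002,nat_lit 0x101002,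
    nat_lit 0x1001002,nat_lit 0x200102,nat_lit 17,nat_lit 33,nat_lit 0x1021,nat_lit 0x1011,nat_lit 0x100011,
    nat_lit 0x100201,nat_lit 0x1101,nat_lit 0x100101,nat_lit 0x1001,nat_lit 0x101021,nat_lit 0x101011,
    nat_lit 0x1001011,nat_lit 0x101201,nat_lit 0x2101,nat_lit 0x101101,nat_lit 0x2201,nat_lit 0x11101,
    nat_lit 0x111101,nat_lit 0x2001,nat_lit 0x11001,nat_lit 0x111001,nat_lit 0x101001,nat_lit 0x1001001,
    nat_lit 0x1002001,nat_lit 0x10001,nat_lit 0x11012,nat_lit 0x1010002,nat_lit 0x110101,nat_lit 0x20001,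
    nat_lit 0x120001,nat_lit 0x110001,nat_lit 0x210003,nat_lit 0x110011,nat_lit 0x111011,nat_lit 0x210201,
    nat_lit 0x210101,nat_lit 0x111201,nat_lit 0x120101,nat_lit 0x120102,nat_lit 0x220101,nat_lit 0x220001,
    nat_lit 0x210001,nat_lit 0x1010001,nat_lit 0x21002,nat_lit 0x10011,nat_lit 0x10021,nat_lit 0x11021,
    nat_lit 0x11011,nat_lit 0x10101,nat_lit 0x10111,nat_lit 0x11121,nat_lit 0x11111,nat_lit 0x10201,nat_lit 0x11211,
    nat_lit 0x110401,nat_lit 0x11301,nat_lit 0x110301,nat_lit 0x11201,nat_lit 0x20202,nat_lit 0x120201,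
    nat_lit 0x110201,nat_lit 0x1010201,nat_lit 0x1011201,nat_lit 0x20201,nat_lit 0x111111,nat_lit 0x21102,
    nat_lit 0x1011101,nat_lit 0x111102,nat_lit 0x12101,nat_lit 0x20101,nat_lit 0x20102,nat_lit 0x1010101,
    nat_lit 0x1010111,nat_lit 0x1011111,nat_lit 0x12011,nat_lit 0x12001,nat_lit 0x220002,nat_lit 0x121001,
    nat_lit 0x1011001,nat_lit 0x100001,nat_lit 0x200101,nat_lit 0x200001,nat_lit 0x300003,nat_lit 0x300002,
    nat_lit 0x310001,nat_lit 0x210301,nat_lit 0x1110101,nat_lit 0x1111101,nat_lit 0x1100001,nat_lit 0x1000001],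
    [nat_lit 32,nat_lit 48,nat_lit 64,nat_lit 80,nat_lit 96,nat_lit 112,nat_lit 0x1050,nat_lit 320,nat_lit 0x1040,
    nat_lit 0x1140,nat_lit 304,nat_lit 560,nat_lit 0x1130,nat_lit 0x1000130,nat_lit 0x1030,nat_lit 0x2040,
    nat_lit 0x1230,nat_lit 0x1001130,nat_lit 0x1001230,nat_lit 0x2030,nat_lit 288,nat_lit 544,nat_lit 800,
    nat_lit 0x1220,nat_lit 0x1000220,nat_lit 0x1120,nat_lit 0x1001120,nat_lit 0x1000120,nat_lit 0x110120,
    nat_lit 0x1020,nat_lit 0x1001020,nat_lit 0x1320,nat_lit 0x1001220,nat_lit 0x2120,nat_lit 0x1001320,nat_lit 0x2220,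
    nat_lit 0x111120,nat_lit 0x2020,nat_lit 0x1002020,nat_lit 0x110020,nat_lit 0x100020,nat_lit 272,nat_lit 528,
    nat_lit 784,nat_lit 0x410,nat_lit 0x1310,nat_lit 0x1000310,nat_lit 0x1210,nat_lit 0x1001210,nat_lit 0x1000210,
    nat_lit 0x110210,nat_lit 0x1110,nat_lit 0x1001110,nat_lit 0x110110,nat_lit 0x1000110,nat_lit 0x1010,
    nat_lit 0x1001010,nat_lit 0x1410,nat_lit 0x1001310,nat_lit 0x2210,nat_lit 0x2110,nat_lit 0x1002110,
    nat_lit 0x111110,nat_lit 0x1510,nat_lit 0x1001410,nat_lit 0x2310,nat_lit 0x1002210,nat_lit 0x111210,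
    nat_lit 0x11110,nat_lit 0x2010,nat_lit 0x1002010,nat_lit 0x111010,nat_lit 0x11010,nat_lit 0x101010,
    nat_lit 0x10010,nat_lit 0x110010,nat_lit 0x100010,nat_lit 0x210010,nat_lit 0x1110110,nat_lit 0x1000010],
    [nat_lit 512,nat_lit 768,nat_lit 0x400,nat_lit 0x500,nat_lit 0x600,nat_lit 0x700,nat_lit 0x1500,nat_lit 0x1600,
    nat_lit 0x110500,nat_lit 0x1000500,nat_lit 0x1400,nat_lit 0x1001400,nat_lit 0x1001500,nat_lit 0x10400,
    nat_lit 0x110400,nat_lit 0x1000400,nat_lit 0x1300,nat_lit 0x2300,nat_lit 0x1001300,nat_lit 0x2400,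
    nat_lit 0x111300,nat_lit 0x10300,nat_lit 0x110300,nat_lit 0x100300,nat_lit 0x100400,nat_lit 0x210300,
    nat_lit 0x1000300,nat_lit 0x1200,nat_lit 0x2500,nat_lit 0x111400,nat_lit 0x11300,nat_lit 0x2200,nat_lit 0x11200,
    nat_lit 0x111200,nat_lit 0x101200,nat_lit 0x1001200,nat_lit 0x1002200,nat_lit 0x1002300,nat_lit 0x10200,
    nat_lit 0x110200,nat_lit 0x120200,nat_lit 0x100200,nat_lit 0x210200,nat_lit 0x220300,nat_lit 0x1110300,
    nat_lit 0x220200,nat_lit 0x1000200,nat_lit 0x2000300,nat_lit 0x1100,nat_lit 0x2100,nat_lit 0x1002100,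
    nat_lit 0x11100,nat_lit 0x111100,nat_lit 0x121100,nat_lit 0x101100,nat_lit 0x1001100,nat_lit 0x1011200,
    nat_lit 0x1111200,nat_lit 0x1011100,nat_lit 0x2001100,nat_lit 0x10100,nat_lit 0x120100,nat_lit 0x110100,
    nat_lit 0x220100,nat_lit 0x210100,nat_lit 0x1010100,nat_lit 0x100100,nat_lit 0x1110200,nat_lit 0x1110100,
    nat_lit 0x1100100,nat_lit 0x1100200,nat_lit 0x1000100,nat_lit 0x2000200,nat_lit 0x1010200,nat_lit 0x2000100,
    nat_lit 0x1111100],[nat_lit 0x2000,nat_lit 0x11000,nat_lit 0x111000,nat_lit 0x101000,nat_lit 0x1002000,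
    nat_lit 0x1111000,nat_lit 0x1101000],[nat_lit 0x20000,nat_lit 0x120000,nat_lit 0x110000,nat_lit 0x220000,
    nat_lit 0x210000],[nat_lit 0x200000],[]]
    [.c (nat_lit 1) (nat_lit 2),.c (nat_lit 0) (nat_lit 0x1060000003),
    .r (nat_lit 680) (nat_lit 4) [nat_lit 0x40000001,nat_lit 0x240000000302,nat_lit 0x800001,nat_lit 0xc891260382,
    nat_lit 0x20c000000382],.r (nat_lit 681) (nat_lit 9) [nat_lit 0x3830618001,nat_lit 0x400001,nat_lit 0xc0000000381,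
    nat_lit 769,nat_lit 0x20000001],.r (nat_lit 682) (nat_lit 10) [nat_lit 0x400001,nat_lit 0x1c9800000301,
    nat_lit 0x18c000000381,nat_lit 0x20000001,nat_lit 0x83000000001],.r (nat_lit 683) (nat_lit 10) [nat_lit 0x400001,
    nat_lit 0x24c800000301,nat_lit 0x20f000000381,nat_lit 0x20000001,nat_lit 0x83000000001],
    .r (nat_lit 684) (nat_lit 13) [nat_lit 0x80000000301,nat_lit 0x80000001,nat_lit 0x1c0000000301,nat_lit 0x1000001,
    nat_lit 0xcc891260381],.r (nat_lit 685) (nat_lit 9) [nat_lit 0x3830618001,nat_lit 0x400001,nat_lit 0xc0000000381,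
    nat_lit 769,nat_lit 0x20000001],.c (nat_lit 0) (nat_lit 0x20c0000007),.c (nat_lit 0) (nat_lit 0x20c0008007),
    .c (nat_lit 0) (nat_lit 0x20c0008007),.r (nat_lit 0x1d18) (nat_lit 10) [nat_lit 0x6850a30383,nat_lit 257,
    nat_lit 0x20400003],.r (nat_lit 686) (nat_lit 13) [nat_lit 0x80000000301,nat_lit 0x60000001,
    nat_lit 0x140000000301,nat_lit 0xc00001,nat_lit 0xc9870e48381],.r (nat_lit 687) (nat_lit 10) [nat_lit 0x400001,
    nat_lit 0xc0000000101,nat_lit 0x20000001,nat_lit 257,nat_lit 0x83000000181],.c (nat_lit 0) (nat_lit 0x60408386),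
    .c (nat_lit 0) (nat_lit 0x10c0808686),.c (nat_lit 0) (nat_lit 0x10c0810686),.c (nat_lit 0) (nat_lit 0x1860400386),
    .c (nat_lit 0) (nat_lit 0x1060408386),.c (nat_lit 0) (nat_lit 0x1860008386),
    .r (nat_lit 688) (nat_lit 10) [nat_lit 0x400001,nat_lit 0x146800600301,nat_lit 0x109000400381,nat_lit 0x20000001,
    nat_lit 0x83000000001],.r (nat_lit 32) (nat_lit 1) [nat_lit 258,nat_lit 0x20400003],
    .r (nat_lit 689) (nat_lit 10) [nat_lit 0x400001,nat_lit 0x149800000301,nat_lit 0x10c000000381,nat_lit 0x20000001,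
    nat_lit 0x83000000001],.r (nat_lit 690) (nat_lit 10) [nat_lit 0x400001,nat_lit 0x1cc800000301,
    nat_lit 0x18f000000381,nat_lit 0x20000001,nat_lit 0x83000000001],
    .r (nat_lit 691) (nat_lit 9) [nat_lit 0x3830618001,nat_lit 0x400001,nat_lit 0xc0000000381,nat_lit 769,
    nat_lit 0x20000001],.r (nat_lit 692) (nat_lit 9) [nat_lit 0x3830618181,nat_lit 0x400001,nat_lit 0xc0000000101,
    nat_lit 0x20000001,nat_lit 257],.r (nat_lit 693) (nat_lit 9) [nat_lit 0x3830618001,nat_lit 0x400001,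
    nat_lit 0x140000000381,nat_lit 0x80000000301,nat_lit 0x20000001],.c (nat_lit 0) (nat_lit 0x1060408386),
    .r (nat_lit 2) (nat_lit 4) [nat_lit 0x80000800309,nat_lit 0x80070648689],
    .r (nat_lit 0x1b4d) (nat_lit 5) [nat_lit 0x6040834306,nat_lit 0x20400003,nat_lit 0x3830618003],
    .r (nat_lit 2) (nat_lit 4) [nat_lit 0x30800306,nat_lit 0x80000618383],
    .r (nat_lit 694) (nat_lit 9) [nat_lit 0x3830618001,nat_lit 0x400001,nat_lit 0xc0000400381,nat_lit 0x600301,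
    nat_lit 0x20000001],.c (nat_lit 0) (nat_lit 0x60c006),.c (nat_lit 0) (nat_lit 0x60408386),
    .c (nat_lit 0) (nat_lit 0x1060000007),.c (nat_lit 0) (nat_lit 0x20c0000007),.c (nat_lit 0) (nat_lit 0x20c0008007),
    .c (nat_lit 0) (nat_lit 0x1060008007),.c (nat_lit 0) (nat_lit 0x10c0000007),.c (nat_lit 0) (nat_lit 0xc0810686),
    .c (nat_lit 0) (nat_lit 0x60400386),.c (nat_lit 0) (nat_lit 0x60408386),.c (nat_lit 0) (nat_lit 0x1060008007),
    .r (nat_lit 0x174e) (nat_lit 8) [nat_lit 0x86000800383,nat_lit 0x149830a18303],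
    .r (nat_lit 0x1bec) (nat_lit 1) [nat_lit 0xc3820600303,nat_lit 0x3830618003],
    .c (nat_lit 0) (nat_lit 0x187060c006),.c (nat_lit 0) (nat_lit 0xc0808686),.c (nat_lit 0) (nat_lit 0x6040c386),
    .c (nat_lit 0) (nat_lit 0x60400386),.c (nat_lit 0) (nat_lit 0xc0800686),.c (nat_lit 0) (nat_lit 0x60400386),
    .c (nat_lit 0) (nat_lit 0x1060400386),.c (nat_lit 0) (nat_lit 0x1060010007),
    .r (nat_lit 0x1cdb) (nat_lit 10) [nat_lit 0x3830618383,nat_lit 257],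
    .r (nat_lit 680) (nat_lit 4) [nat_lit 0x40000001,nat_lit 0xc0000600301,nat_lit 0x800001,nat_lit 0xc6850630381,
    nat_lit 0x86000400381],.r (nat_lit 0x1c1a) (nat_lit 10) [nat_lit 0x20400003,nat_lit 0x3830618383,
    nat_lit 0x1000000001],.c (nat_lit 0) (nat_lit 0x60c006),.c (nat_lit 0) (nat_lit 0x614006),
    .c (nat_lit 0) (nat_lit 0x10c0000007),.r (nat_lit 0x1c15) (nat_lit 6) [nat_lit 0x20400003,nat_lit 0x3830618003,
    nat_lit 0xc002061c303],.r (nat_lit 695) (nat_lit 10) [nat_lit 0x400001,nat_lit 0x146830000301,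
    nat_lit 0x109020000381,nat_lit 0x20000001,nat_lit 0x83000000001],.c (nat_lit 2) (nat_lit 0x60c307),
    .r (nat_lit 0x17af) (nat_lit 9) [nat_lit 0x3830618003,nat_lit 0x20400003,nat_lit 0x302041c303,
    nat_lit 0x8602001c003],.r (nat_lit 0x174b) (nat_lit 10) [nat_lit 0x20400003,nat_lit 0x3830618003,nat_lit 257],
    .c (nat_lit 0) (nat_lit 0x10c0000007),.r (nat_lit 696) (nat_lit 9) [nat_lit 0x3830618001,nat_lit 0x400001,
    nat_lit 0x140000000381,nat_lit 0x80000000301,nat_lit 0x20000001],.c (nat_lit 1) (nat_lit 0x30000002),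
    .r (nat_lit 2) (nat_lit 4) [nat_lit 0x1800000101,nat_lit 0x86030418683],.c (nat_lit 0) (nat_lit 0x20c0810686),
    .c (nat_lit 0) (nat_lit 0x1060408386),.c (nat_lit 0) (nat_lit 0x10c0808686),.c (nat_lit 0) (nat_lit 0x60408386),
    .c (nat_lit 0) (nat_lit 0x1060408386),.c (nat_lit 2) (nat_lit 0x6060c307),
    .r (nat_lit 0xeb4) (nat_lit 0) [nat_lit 0x20400001,nat_lit 0x100000a00303,nat_lit 0x89000600383,
    nat_lit 0x149870648383],.r (nat_lit 697) (nat_lit 9) [nat_lit 0x3830618001,nat_lit 0x400001,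
    nat_lit 0x140000000381,nat_lit 0x80000000301,nat_lit 0x20000001],
    .r (nat_lit 0x1c15) (nat_lit 6) [nat_lit 0x20400003,nat_lit 0x3830618003,nat_lit 0x100000c101],
    .r (nat_lit 0x1c15) (nat_lit 6) [nat_lit 0x20400003,nat_lit 0x3830618003,nat_lit 0x6040634306],
    .c (nat_lit 0) (nat_lit 0x10c0000007),.c (nat_lit 0) (nat_lit 0x10c0000007),
    .r (nat_lit 0x1d07) (nat_lit 6) [nat_lit 0x149830a18303,nat_lit 0x20400003],
    .r (nat_lit 0x1c1e) (nat_lit 6) [nat_lit 0xc3800a00303,nat_lit 0x20400003,nat_lit 0x3830618003],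
    .c (nat_lit 0) (nat_lit 0x60408386),.c (nat_lit 6) (nat_lit 0x60c307),.c (nat_lit 0) (nat_lit 0x60400386),
    .c (nat_lit 0) (nat_lit 0x60400386),.c (nat_lit 0) (nat_lit 0xc0810686),.c (nat_lit 0) (nat_lit 0x10c0808686),
    .c (nat_lit 0) (nat_lit 0x1181020c86),.c (nat_lit 0) (nat_lit 0x1120c10986),.c (nat_lit 0) (nat_lit 0x1120c18986),
    .c (nat_lit 0) (nat_lit 0xc0808686),.c (nat_lit 0) (nat_lit 0xc0810686),.c (nat_lit 0) (nat_lit 0x20c0810686),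
    .c (nat_lit 0) (nat_lit 0x10c0810686),.c (nat_lit 0) (nat_lit 0xc0410686),.c (nat_lit 0) (nat_lit 0xc0408686),
    .c (nat_lit 0) (nat_lit 0x10c0810686),.c (nat_lit 0) (nat_lit 0x400386),.c (nat_lit 0) (nat_lit 0x1860400386),
    .c (nat_lit 0) (nat_lit 0x1060000386),.c (nat_lit 0) (nat_lit 0x1060400386),.c (nat_lit 0) (nat_lit 0x6040c386),
    .c (nat_lit 0) (nat_lit 0x60408386),.c (nat_lit 0) (nat_lit 0x60408386),.c (nat_lit 0) (nat_lit 0x60008386),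
    .c (nat_lit 0) (nat_lit 0x1800008386),.c (nat_lit 0) (nat_lit 0x1800000386),.c (nat_lit 0) (nat_lit 0x1870014006),
    .r (nat_lit 0x1c15) (nat_lit 6) [nat_lit 0x20400003,nat_lit 0x3830618003,nat_lit 0x3020a1c303],
    .r (nat_lit 2) (nat_lit 4) [nat_lit 0x10000100030c,nat_lit 0x50a30386],
    .r (nat_lit 698) (nat_lit 10) [nat_lit 0x400001,nat_lit 0xc6800600301,nat_lit 0x89000400381,nat_lit 0x20000001,
    nat_lit 0x83000000001],.c (nat_lit 0) (nat_lit 0x60c006),.c (nat_lit 0) (nat_lit 0x10c0000007),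
    .c (nat_lit 0) (nat_lit 0x60408386),.r (nat_lit 558) (nat_lit 9) [nat_lit 0x3830618381,nat_lit 0x400001,
    nat_lit 0xc0000000301,nat_lit 0x20000001,nat_lit 769],.r (nat_lit 699) (nat_lit 9) [nat_lit 0x3830618001,
    nat_lit 0x400001,nat_lit 0xc0000000181,nat_lit 257,nat_lit 0x20000001],
    .r (nat_lit 700) (nat_lit 9) [nat_lit 0x3830618001,nat_lit 0x400001,nat_lit 0xc0000000181,nat_lit 257,
    nat_lit 0x20000001],.r (nat_lit 701) (nat_lit 9) [nat_lit 0x6850a30001,nat_lit 0x800001,nat_lit 0x1c0000000381,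
    nat_lit 0x80000000301,nat_lit 0x40000001],.c (nat_lit 0) (nat_lit 0x1120c18986),
    .c (nat_lit 0) (nat_lit 0x1060008386),.c (nat_lit 0) (nat_lit 0x1060000386),
    .r (nat_lit 699) (nat_lit 9) [nat_lit 0x3830618001,nat_lit 0x400001,nat_lit 0xc0020000381,nat_lit 0x30000301,
    nat_lit 0x20000001],.c (nat_lit 0) (nat_lit 0x1060400007),.c (nat_lit 2) (nat_lit 2),
    .c (nat_lit 0) (nat_lit 0x1060000003),.r (nat_lit 40) (nat_lit 6) [nat_lit 258,nat_lit 0x4000000182,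
    nat_lit 0x20400003],.r (nat_lit 0xeb5) (nat_lit 9) [nat_lit 0xf8b1678003,nat_lit 0x2cf801400303,
    nat_lit 0x5000000181,nat_lit 0x28f0a0000383],.r (nat_lit 2) (nat_lit 4) [nat_lit 0x106000800186,
    nat_lit 0xc6830618103],.r (nat_lit 702) (nat_lit 7) [nat_lit 0x15000000381,nat_lit 0xe0000001,
    nat_lit 0x395000000381,nat_lit 769,nat_lit 0x3ea8f1ea8301],.r (nat_lit 703) (nat_lit 7) [nat_lit 0xf000400381,
    nat_lit 0xa0000001,nat_lit 0x28f000400381,nat_lit 0x600301,nat_lit 0x2de8b1a78301],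
    .r (nat_lit 704) (nat_lit 13) [nat_lit 0x209030618381,nat_lit 0xa0000001,nat_lit 0xc9030618381,nat_lit 0x1400001,
    nat_lit 0x258891260301],.r (nat_lit 2) (nat_lit 4) [nat_lit 0x20c00140038c,nat_lit 0x14c850e30306],
    .c (nat_lit 0) (nat_lit 0x10c0400386),.r (nat_lit 680) (nat_lit 4) [nat_lit 0x40000001,nat_lit 0xc6030618382,
    nat_lit 0x800001,nat_lit 0x1d2870e48302,nat_lit 0x8602041c302],.c (nat_lit 0) (nat_lit 0x2180810686),
    .c (nat_lit 0) (nat_lit 0x10c0400386),.c (nat_lit 0) (nat_lit 0x10c0008386),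
    .r (nat_lit 705) (nat_lit 8) [nat_lit 0x600301,nat_lit 0x189000400381,nat_lit 0x60000001,nat_lit 0x9000400381,
    nat_lit 0xc00001],.r (nat_lit 680) (nat_lit 4) [nat_lit 0x40000001,nat_lit 0xc000800382,nat_lit 0x800001,
    nat_lit 0x258891a60302,nat_lit 0xa00302],.c (nat_lit 0) (nat_lit 0x2180808686),
    .c (nat_lit 1) (nat_lit 0x1040000103),.c (nat_lit 0) (nat_lit 0x2180408686),
    .r (nat_lit 0xeb4) (nat_lit 0) [nat_lit 0x20400001,nat_lit 0x83000000181,nat_lit 0x600101,nat_lit 0xc6830618101],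
    .r (nat_lit 0xeb4) (nat_lit 0) [nat_lit 0x20400001,nat_lit 0x103030e18383,nat_lit 0x8602001c303,
    nat_lit 0x14c850030303],.c (nat_lit 0) (nat_lit 0x2180810686),.c (nat_lit 0) (nat_lit 0x10c0408382),
    .c (nat_lit 1) (nat_lit 0x2000a0c607),.c (nat_lit 0) (nat_lit 0x2180410686),.c (nat_lit 0) (nat_lit 0x10c0400386),
    .c (nat_lit 0) (nat_lit 0x10c0000386),.c (nat_lit 0) (nat_lit 0x10c0008386),.c (nat_lit 0) (nat_lit 0x1060408386),
    .c (nat_lit 0) (nat_lit 0x20c0008007),.c (nat_lit 0) (nat_lit 0x60c006),.c (nat_lit 0) (nat_lit 0x3240c10986),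
    .c (nat_lit 0) (nat_lit 0x2180408686),.c (nat_lit 0) (nat_lit 0x10c040c386),.c (nat_lit 0) (nat_lit 0x3240810986),
    .c (nat_lit 0) (nat_lit 0x2180800686),.c (nat_lit 0) (nat_lit 0x1060400386),
    .r (nat_lit 2) (nat_lit 4) [nat_lit 0x106001000386,nat_lit 0xc6830e18303],.c (nat_lit 1) (nat_lit 0x20c0410007),
    .c (nat_lit 2) (nat_lit 0x30000002),.c (nat_lit 0) (nat_lit 0x40000003),
    .r (nat_lit 2) (nat_lit 4) [nat_lit 0x80030418386,nat_lit 257],.c (nat_lit 0) (nat_lit 0x2180810686),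
    .c (nat_lit 0) (nat_lit 0x10c0408382),.c (nat_lit 0) (nat_lit 0x4301020c86),.c (nat_lit 0) (nat_lit 0x3240c10986),
    .c (nat_lit 0) (nat_lit 0x3240818986),.c (nat_lit 0) (nat_lit 0x2180808686),.c (nat_lit 0) (nat_lit 0x2180408686),
    .c (nat_lit 0) (nat_lit 0x2180410686),.c (nat_lit 0) (nat_lit 0x2120810686),.c (nat_lit 0) (nat_lit 0x10c0400386),
    .c (nat_lit 0) (nat_lit 0x10c0000386),.c (nat_lit 1) (nat_lit 0x60c307),.c (nat_lit 1) (nat_lit 0x100000c307),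
    .c (nat_lit 0) (nat_lit 0x1060008007),.c (nat_lit 0) (nat_lit 0x60c006),.c (nat_lit 0) (nat_lit 0x4301018c86),
    .c (nat_lit 0) (nat_lit 0x3240810986),.c (nat_lit 0) (nat_lit 0x2180800686),.c (nat_lit 1) (nat_lit 0x1000608307),
    .c (nat_lit 0) (nat_lit 0x10c000c386),.c (nat_lit 0) (nat_lit 0x1060400386),.c (nat_lit 0) (nat_lit 0x53c1420f86),
    .c (nat_lit 0) (nat_lit 0x4300c18c86),.c (nat_lit 0) (nat_lit 0x3240c08986),.c (nat_lit 0) (nat_lit 0x2180400686),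
    .c (nat_lit 0) (nat_lit 0x2120808686),.c (nat_lit 0) (nat_lit 0x10c0400386),.c (nat_lit 0) (nat_lit 0x1060010007),
    .c (nat_lit 0) (nat_lit 0x614006),.c (nat_lit 0) (nat_lit 0x60008007),.c (nat_lit 0) (nat_lit 0x60008007),
    .c (nat_lit 0) (nat_lit 0x60008007),.c (nat_lit 0) (nat_lit 0x20000003),.c (nat_lit 0) (nat_lit 0x20000003),
    .c (nat_lit 0) (nat_lit 0x20000003),.c (nat_lit 6) (nat_lit 0x30000002),.c (nat_lit 0) (nat_lit 0x1060008386),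
    .c (nat_lit 0) (nat_lit 0x1060400007),.c (nat_lit 3) (nat_lit 2),.c (nat_lit 0) (nat_lit 0x10c0408382),
    .c (nat_lit 0) (nat_lit 0x4301020c86),.c (nat_lit 0) (nat_lit 0x53c1428f86),.c (nat_lit 0) (nat_lit 0x2180810682),
    .c (nat_lit 0) (nat_lit 0x7541c39586),.c (nat_lit 0) (nat_lit 0x53c1420f86),.c (nat_lit 0) (nat_lit 0x6481829286),
    .c (nat_lit 0) (nat_lit 0x1060408386),.c (nat_lit 0) (nat_lit 0x53c1028f86),.c (nat_lit 0) (nat_lit 0x4301018c86),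
    .c (nat_lit 0) (nat_lit 0x60c006),.c (nat_lit 0) (nat_lit 0x60c006),.c (nat_lit 0) (nat_lit 0x42a1020c86),
    .c (nat_lit 0) (nat_lit 0x1060408386),.c (nat_lit 0) (nat_lit 0x4300c20c86),.c (nat_lit 0) (nat_lit 0x3240c10986),
    .c (nat_lit 0) (nat_lit 0x3240c08986),.c (nat_lit 0) (nat_lit 0x60c006),.c (nat_lit 0) (nat_lit 0x4301010c86),
    .c (nat_lit 0) (nat_lit 0x1060400386),.c (nat_lit 0) (nat_lit 0x10a0408382),.c (nat_lit 0) (nat_lit 0x1060408386),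
    .c (nat_lit 0) (nat_lit 0x10c0408382),.c (nat_lit 0) (nat_lit 0x4301020c86),.c (nat_lit 0) (nat_lit 0x1060408386),
    .c (nat_lit 0) (nat_lit 0x3240818986),.c (nat_lit 0) (nat_lit 0x2180808686),.c (nat_lit 0) (nat_lit 0x53c1418f86),
    .c (nat_lit 0) (nat_lit 0x1060400386),.c (nat_lit 0) (nat_lit 0x31e0c10986),.c (nat_lit 0) (nat_lit 0x2180800686),
    .c (nat_lit 0) (nat_lit 0x2120808686),.c (nat_lit 0) (nat_lit 0x1060400386),.c (nat_lit 0) (nat_lit 0x2180808686),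
    .c (nat_lit 0) (nat_lit 0x60c006),.c (nat_lit 0) (nat_lit 0x614006),.c (nat_lit 0) (nat_lit 0x614006),
    .c (nat_lit 0) (nat_lit 0x2180810686),.c (nat_lit 0) (nat_lit 0x1060408386),.c (nat_lit 0) (nat_lit 0x1060408386),
    .c (nat_lit 0) (nat_lit 0x2180810686),.c (nat_lit 0) (nat_lit 0x1060408386),.c (nat_lit 0) (nat_lit 0x20c0810686),
    .c (nat_lit 0) (nat_lit 0x1060008386),.c (nat_lit 0) (nat_lit 0x20c0810686),.c (nat_lit 0) (nat_lit 0x2180410686),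
    .c (nat_lit 0) (nat_lit 0xa00006),.c (nat_lit 0) (nat_lit 0x10c0400386),.c (nat_lit 0) (nat_lit 0x10c040c386),
    .c (nat_lit 0) (nat_lit 0x614006),.c (nat_lit 6) (nat_lit 0x1870600307),.c (nat_lit 0) (nat_lit 0x1060400386),
    .c (nat_lit 0) (nat_lit 0x1060400386),.c (nat_lit 5) (nat_lit 0x1870600307),.c (nat_lit 0) (nat_lit 0x60c006),
    .c (nat_lit 0) (nat_lit 0x1060000386),.c (nat_lit 0) (nat_lit 0x1060000386),.c (nat_lit 0) (nat_lit 0x60c006),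
    .c (nat_lit 0) (nat_lit 0xa0c006),.r (nat_lit 0x1d07) (nat_lit 6) [nat_lit 257,nat_lit 0x20400003],
    .c (nat_lit 0) (nat_lit 0x1060408386),.c (nat_lit 0) (nat_lit 0x1060408386),.c (nat_lit 0) (nat_lit 0x20c0810686),
    .c (nat_lit 0) (nat_lit 0x1060408386),.c (nat_lit 0) (nat_lit 0x10c0008386),
    .r (nat_lit 0x174e) (nat_lit 8) [nat_lit 0xc3830018383,nat_lit 257],.c (nat_lit 0) (nat_lit 0x1060008386),
    .c (nat_lit 0) (nat_lit 0x1060008386),.c (nat_lit 0) (nat_lit 0x10c0008386),.c (nat_lit 0) (nat_lit 0x2180410686),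
    .c (nat_lit 0) (nat_lit 0x10c0008386),.c (nat_lit 0) (nat_lit 0xa00006),.c (nat_lit 0) (nat_lit 0x2120410686),
    .c (nat_lit 0) (nat_lit 0xa00006),.c (nat_lit 0) (nat_lit 0x1060000386),.c (nat_lit 4) (nat_lit 2),
    .c (nat_lit 0) (nat_lit 0x60008007),.c (nat_lit 1) (nat_lit 0x100000c006),.c (nat_lit 0) (nat_lit 0x60008007),
    .c (nat_lit 0) (nat_lit 0x614006),.c (nat_lit 2) (nat_lit 0x60408007),.c (nat_lit 0) (nat_lit 0x60c006),
    .c (nat_lit 5) (nat_lit 2),.c (nat_lit 0) (nat_lit 0x40000003),.c (nat_lit 0) (nat_lit 0x20000003),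
    .c (nat_lit 0) (nat_lit 0x40000003),.c (nat_lit 0) (nat_lit 0x40000003),.c (nat_lit 6) (nat_lit 2)]]

/-- nodes -/
noncomputable def rD7k_25_34 : List RJ :=
  [.l (nat_lit 15) (nat_lit 0x1680) (nat_lit 3) (nat_lit 0xa7800000a7800000a78000007ba000008f0000008f000000a0a0000084c0000080c000009a60000093d0000093d0000078400000a74) (nat_lit 0x2be0000000000000188000001880000022c0000006e000000d20000026c0000013b0000013b00000004000002f4)
    (nat_lit 0x14f029e02da09fc1aac2c184ea08e011e820c049e8b9b14e81db052a0a780c6029e05bd092a12e822004b8080c15ca350c578070c14f027f03c00a9c14f429e842607800b401b904da897314e8177031805b40b401e0031906320cb023802d405a00bca19fc2d005a012542c183190a7a0ba81b103390882103c16e836d88f515e41a585bd0d560c6429e83b405d40ce4220840f05ba117e1a6450b05ba11002380470078011042208454099c14a81fc048888cf0b4018304ba09d40cb0213033906720c4022a042205e00d121afc41205a0101820c02d006e40b7416e82f007f00f18168034486070d0016804b808f40b50168040f081e108829504f8078c11da21ac3a205a81a862e6c33f89730d3223d435f88cf10d6181c48606e613d6171c572893d0bca26d445f86db0d12244447686890de424304a886490e181db02d005dc0b741a582d0060c0b50168032485c70f0016805780a740b4029d050b0af2104816803a2068012a227ac5380780)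
    (nat_lit 0x14f05a00b4016802d005a00b4016802d005a00b4016802d005a0053c0a782d005a00b4016802d005a00b4016802d005a00b4016800b6818c03c016802d005a00b4016802d005a00b4016802d005a004fe0a7815381e00b4016802d005a00b4016802d005a00b4016801aac2de853d06320ba85a00b4016802d005a00b4016802d005a00583092a14f418c836205d42d005a00b4016802d005a00b40168013a825d042606580ce419c845416802d005a00b4016802d005a0047008800f0023804410882133822a0b4016802d005a00b40168011e825c02d005a8103c207852a08440f185a00b4016802d005a00418080c0dc816802dd05ba0fe017802d0078c2d005a00b401680127a2b944da85e50db622fc48886890d1223b448616802d005a005cd8d4312e619fc47a8699119e1afc303886b0dcc2430b40168014e82bc053a05a015e428582d008240d001d104f589510f005a003b6070c0bb8168034b05ba0c1816802d005a80b8e19242d00780)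
    (nat_lit 3) (nat_lit 59)
    [[nat_lit 2,nat_lit 258,nat_lit 0x1002,nat_lit 0x100002,nat_lit 17,nat_lit 273,nat_lit 0x100011,nat_lit 0x1011,
    nat_lit 257,nat_lit 513,nat_lit 0x1101,nat_lit 0x10101,nat_lit 0x100101,nat_lit 0x1001,nat_lit 0x2001,
    nat_lit 0x11001,nat_lit 0x101001,nat_lit 0x10001,nat_lit 0x110001,nat_lit 0x100001,nat_lit 0x200001,
    nat_lit 0x1000001],[nat_lit 32,nat_lit 288,nat_lit 272,nat_lit 0x10110,nat_lit 0x100110,nat_lit 0x1010,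
    nat_lit 0x11010,nat_lit 0x101010,nat_lit 0x10010,nat_lit 0x20010,nat_lit 0x100010],[nat_lit 512,nat_lit 0x10200,
    nat_lit 0x100200,nat_lit 0x1100,nat_lit 0x101100,nat_lit 0x10100,nat_lit 0x20100,nat_lit 0x110100,
    nat_lit 0x100100,nat_lit 0x200100,nat_lit 0x1100100,nat_lit 0x1000100],[nat_lit 0x2000,nat_lit 0x11000,
    nat_lit 0x21000,nat_lit 0x111000,nat_lit 0x101000,nat_lit 0x201000,nat_lit 0x1001000],[nat_lit 0x20000,
    nat_lit 0x30000,nat_lit 0x110000],[nat_lit 0x200000,nat_lit 0x1100000],[nat_lit 0x2000000]]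
    [.c (nat_lit 1) (nat_lit 2),.r (nat_lit 0x1cf3) (nat_lit 4) [nat_lit 0x2001,nat_lit 0x10001,nat_lit 0x120d1],
    .r (nat_lit 0x1bff) (nat_lit 12) [nat_lit 0x13001,nat_lit 0x2001,nat_lit 0x104d1,nat_lit 0x18499],
    .c (nat_lit 1) (nat_lit 194),.r (nat_lit 0x174e) (nat_lit 6) [nat_lit 0x2419,nat_lit 0x13011],
    .r (nat_lit 0x1bfd) (nat_lit 6) [nat_lit 0x13001,nat_lit 0x18099,nat_lit 0x2001],.c (nat_lit 2) (nat_lit 194),
    .r (nat_lit 0x1b8b) (nat_lit 6) [nat_lit 0x13001,nat_lit 0x18099,nat_lit 0x2001],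
    .r (nat_lit 0x1baf) (nat_lit 9) [nat_lit 0x1a001,nat_lit 17,nat_lit 0x10001],
    .r (nat_lit 0x1d12) (nat_lit 10) [nat_lit 0x1a001,nat_lit 0x10001,nat_lit 0x20d1],
    .r (nat_lit 2) (nat_lit 5) [nat_lit 0x18099,nat_lit 0x124d1],.r (nat_lit 0x1bfd) (nat_lit 6) [nat_lit 0x13001,
    nat_lit 0x3099,nat_lit 0x2001],.c (nat_lit 3) (nat_lit 194),.r (nat_lit 0x19c6) (nat_lit 5) [nat_lit 0x419,
    nat_lit 0x2001,nat_lit 17],.r (nat_lit 0x1cee) (nat_lit 9) [nat_lit 0x1a001,nat_lit 17,nat_lit 0x10001],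
    .r (nat_lit 0x1b8b) (nat_lit 6) [nat_lit 0x13001,nat_lit 0x3099,nat_lit 0x2001],.c (nat_lit 4) (nat_lit 194),
    .r (nat_lit 0x174e) (nat_lit 6) [nat_lit 0x10419,nat_lit 17],.c (nat_lit 2) (nat_lit 0x34c2),
    .c (nat_lit 0) (nat_lit 131),.c (nat_lit 6) (nat_lit 194),.r (nat_lit 2) (nat_lit 5) [nat_lit 0x2419,nat_lit 17],
    .c (nat_lit 2) (nat_lit 2),.r (nat_lit 0x1b32) (nat_lit 2) [nat_lit 0x401,nat_lit 0x2019,nat_lit 0x13011],
    .c (nat_lit 0) (nat_lit 0x30d3),.r (nat_lit 0x1b32) (nat_lit 2) [nat_lit 0x401,nat_lit 0x10019,nat_lit 17],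
    .r (nat_lit 0x1b8b) (nat_lit 9) [nat_lit 0x1a001,nat_lit 0x18099,nat_lit 0x10001],.c (nat_lit 0) (nat_lit 0x30d3),
    .r (nat_lit 0x1b32) (nat_lit 1) [nat_lit 0x401,nat_lit 0x2019,nat_lit 17],
    .r (nat_lit 0x1bfd) (nat_lit 9) [nat_lit 0x1a001,nat_lit 0x18099,nat_lit 0x10001],.c (nat_lit 2) (nat_lit 0x3402),
    .r (nat_lit 0xf22) (nat_lit 6) [nat_lit 0x1df99,nat_lit 0x2c011,nat_lit 0xc01,nat_lit 0x22019],
    .r (nat_lit 0x174e) (nat_lit 5) [nat_lit 0x2419,nat_lit 17],.c (nat_lit 3) (nat_lit 2),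
    .r (nat_lit 0x1bb5) (nat_lit 8) [nat_lit 0x13001,nat_lit 0x1a011,nat_lit 0x2001],
    .r (nat_lit 0x1cee) (nat_lit 6) [nat_lit 0x13001,nat_lit 17,nat_lit 0x2001],.c (nat_lit 0) (nat_lit 0x30d3),
    .r (nat_lit 2) (nat_lit 6) [nat_lit 0x3099,nat_lit 0x124d1],.c (nat_lit 0) (nat_lit 0x6d3),
    .r (nat_lit 0x1b32) (nat_lit 2) [nat_lit 0x401,nat_lit 0x23019,nat_lit 0x1a011],
    .r (nat_lit 0x1b8b) (nat_lit 9) [nat_lit 0x1a001,nat_lit 0x3099,nat_lit 0x10001],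
    .r (nat_lit 0x19c6) (nat_lit 12) [nat_lit 0x419,nat_lit 0x10001,nat_lit 17],
    .r (nat_lit 0x1bff) (nat_lit 5) [nat_lit 0x1a001,nat_lit 0x10001,nat_lit 0x24d1,nat_lit 0x3499],
    .r (nat_lit 0x18e7) (nat_lit 8) [nat_lit 0x13001,nat_lit 0x401,nat_lit 0x2001,nat_lit 0x3611],
    .r (nat_lit 0x1b32) (nat_lit 1) [nat_lit 0x401,nat_lit 0x24d1,nat_lit 0x699],.c (nat_lit 4) (nat_lit 2),
    .c (nat_lit 0) (nat_lit 0x6d3),.r (nat_lit 0x1b32) (nat_lit 1) [nat_lit 0x401,nat_lit 0x10019,nat_lit 0x1a011],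
    .r (nat_lit 0x1bfd) (nat_lit 9) [nat_lit 0x1a001,nat_lit 0x3099,nat_lit 0x10001],
    .r (nat_lit 0x1baf) (nat_lit 6) [nat_lit 0x13001,nat_lit 17,nat_lit 0x2001],
    .r (nat_lit 0x1cf3) (nat_lit 11) [nat_lit 0x10001,nat_lit 0x2001,nat_lit 0x120d1],
    .r (nat_lit 0x1b32) (nat_lit 2) [nat_lit 0x401,nat_lit 0x104d1,nat_lit 0x699],.c (nat_lit 5) (nat_lit 2),
    .r (nat_lit 0xf22) (nat_lit 6) [nat_lit 0x7f99,nat_lit 0x3e011,nat_lit 0xc01,nat_lit 0x30019],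
    .r (nat_lit 0x174e) (nat_lit 5) [nat_lit 0x10419,nat_lit 0x1a011],.c (nat_lit 6) (nat_lit 2),
    .r (nat_lit 2) (nat_lit 6) [nat_lit 0x10419,nat_lit 17],.c (nat_lit 7) (nat_lit 2)],
    .l (nat_lit 12) (nat_lit 960) (nat_lit 3) (nat_lit 0x1a60000016900000167000001ba0000016a000001ae00000166000001be000001de000001de000001ba000001640000019500000195) (nat_lit 0x750000003800000024000000770000003000000074000000200000007800000000000000000000007a000000240000004900000049)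
    (nat_lit 0x14618619a1321761320f01221a61661220f215d16f0f41461480f20f00f21490f11bc17c0f014411d11d0f21321460f01370f01341381681670f00f010911d14819a19c14618a14614418c1aa15a1360f01711710f21321460f00f00f01aa0f22101c00f015610912b0f017618a1371240f01e01362001b013419c1711610f112218c1381360f21441481541140f00f011d11d1490f01441341e01aa19e1441be1be13e19a1b51c717c16615a1671b01c01be1141de1de1121ba22b19b1bc1a61aa1682002101be1541d81de1521ba2251951440f20f00f019c15619a0f01ba1ba14019c1711830f01221360f01340f013e0f01521120f014010911b11d16f17111d16112b1c711d19519b11b18315614611d15d1711091711091b511d22522b109171134156)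
    (nat_lit 0x1463c03c03c03c03c03c03c03c03c03c03c03c03c01861463c03c03c03c03c03c03c03c03c03c03c03c019a1481463c03c03c03c03c03c03c03c03c03c03c01320f20f01463c03c03c03c03c03c03c03c03c03c01760f013718a0f03c03c03c03c03c03c03c03c03c01320f20f01460f00f03c03c03c03c03c03c03c03c00f01491341441aa1e01443c03c03c03c03c03c03c01220f113818c0f21361481443c03c03c03c03c03c01a61bc1681aa2102001541be1de3c03c03c03c03c016617c16715a1c01b01141be1de1de3c03c03c03c01220f00f01360f01340f013e1121521403c03c03c00f21440f00f015619c0f019a1ba1ba19c1403c03c015d11d10917110917111d1b522b2251711091563c016f11d11d17112b16111d1c719b19518311b146156)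
    (nat_lit 5) (nat_lit 61)
    [[nat_lit 2,nat_lit 17,nat_lit 0x1000011,nat_lit 0x100011,nat_lit 0x1001,nat_lit 0x101001,nat_lit 0x1001001,
    nat_lit 0x10001,nat_lit 0x20001,nat_lit 0x110001,nat_lit 0x1010001,nat_lit 0x100001,nat_lit 0x1000001],
    [nat_lit 32,nat_lit 0x1020,nat_lit 0x100020,nat_lit 0x1000020,nat_lit 272,nat_lit 0x100110,nat_lit 0x1010,
    nat_lit 0x2010,nat_lit 0x101010,nat_lit 0x1001010,nat_lit 0x10010,nat_lit 0x20010,nat_lit 0x110010,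
    nat_lit 0x1010010,nat_lit 0x100010,nat_lit 0x200010,nat_lit 0x1100010,nat_lit 0x1000010,nat_lit 0x2000010],
    [nat_lit 512,nat_lit 0x1100,nat_lit 0x100100,nat_lit 0x1000100],[nat_lit 0x2000,nat_lit 0x1002000,nat_lit 0x11000,
    nat_lit 0x1011000,nat_lit 0x101000,nat_lit 0x111000,nat_lit 0x1101000,nat_lit 0x1001000,nat_lit 0x2001000],
    [nat_lit 0x20000,nat_lit 0x30000,nat_lit 0x120000,nat_lit 0x1020000,nat_lit 0x110000,nat_lit 0x1110000,
    nat_lit 0x1010000,nat_lit 0x2010000],[nat_lit 0x200000,nat_lit 0x1100000],[nat_lit 0x2000000]]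
    [.c (nat_lit 1) (nat_lit 2),.r (nat_lit 0x1d07) (nat_lit 8) [nat_lit 0x4200001,nat_lit 0x300041],
    .r (nat_lit 0x1bfd) (nat_lit 0) [nat_lit 0x300001,nat_lit 0x6000861,nat_lit 0x4200001],
    .r (nat_lit 0x1a29) (nat_lit 0) [nat_lit 0x300001,nat_lit 0x6000861,nat_lit 0x4200001],
    .r (nat_lit 0x1d07) (nat_lit 10) [nat_lit 0x4000001,nat_lit 65],.r (nat_lit 0x1bfd) (nat_lit 4) [nat_lit 0x200001,
    nat_lit 0x6000861,nat_lit 0x4000001],.r (nat_lit 0x1749) (nat_lit 10) [nat_lit 0x10001,nat_lit 0xe0198e1,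
    nat_lit 0x4200001],.c (nat_lit 1) (nat_lit 0x10002),.r (nat_lit 0x1cdb) (nat_lit 8) [nat_lit 0xc3180a3,
    nat_lit 0x210083],.r (nat_lit 0x1cc8) (nat_lit 0) [nat_lit 0x300041,nat_lit 0x8200061,nat_lit 0x200041],
    .r (nat_lit 0x1cc8) (nat_lit 4) [nat_lit 0x200041,nat_lit 0x8200061,nat_lit 0x300041],
    .r (nat_lit 0x1750) (nat_lit 6) [nat_lit 0x300041,nat_lit 0x4200001],.r (nat_lit 0x1750) (nat_lit 1) [nat_lit 65,
    nat_lit 0x4000001],.c (nat_lit 2) (nat_lit 2),.r (nat_lit 0x1b22) (nat_lit 13) [nat_lit 0x300001,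
    nat_lit 0x4200001,nat_lit 0x4000c41],.r (nat_lit 0x1cee) (nat_lit 4) [nat_lit 0x200001,nat_lit 0x18081,
    nat_lit 0x4000001],.r (nat_lit 0x1cf3) (nat_lit 9) [nat_lit 0x4200001,nat_lit 0x4000001,nat_lit 0x8200c41],
    .r (nat_lit 0x1cdb) (nat_lit 8) [nat_lit 0x6318081,nat_lit 0x82100a1],
    .r (nat_lit 0x1c4e) (nat_lit 4) [nat_lit 0x200001,nat_lit 0x4000001,nat_lit 0x6000041],
    .r (nat_lit 0x1ce4) (nat_lit 3) [nat_lit 65,nat_lit 0x4000001],.r (nat_lit 0x1b22) (nat_lit 13) [nat_lit 0x300001,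
    nat_lit 0x4200001,nat_lit 0x8011442],.r (nat_lit 8) (nat_lit 6) [nat_lit 0x6000861,nat_lit 0x4000001],
    .r (nat_lit 8) (nat_lit 8) [nat_lit 0x6300861,nat_lit 0x4200001],
    .r (nat_lit 0x1d07) (nat_lit 8) [nat_lit 0x4200001,nat_lit 65],.r (nat_lit 0x1cdb) (nat_lit 8) [nat_lit 0x4300061,
    nat_lit 0x200041],.r (nat_lit 0x1a29) (nat_lit 0) [nat_lit 0x300001,nat_lit 0x6300861,nat_lit 0x4200001],
    .r (nat_lit 0x1bfd) (nat_lit 0) [nat_lit 0x300001,nat_lit 0x6300861,nat_lit 0x4200001],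
    .r (nat_lit 0x1d07) (nat_lit 12) [nat_lit 0x4200001,nat_lit 65],.r (nat_lit 0x1cee) (nat_lit 4) [nat_lit 0x200001,
    nat_lit 65,nat_lit 0x4000001],.r (nat_lit 0x1b2f) (nat_lit 4) [nat_lit 0x200001,nat_lit 0x6300861,
    nat_lit 0x4000001],.r (nat_lit 0x1ce4) (nat_lit 13) [nat_lit 65,nat_lit 0x4200001],
    .r (nat_lit 0x1cf3) (nat_lit 9) [nat_lit 0x4200001,nat_lit 0x4000001,nat_lit 0x10411442],
    .c (nat_lit 3) (nat_lit 2),.r (nat_lit 0x1b61) (nat_lit 0) [nat_lit 0x300001,nat_lit 0x6300041,nat_lit 0x4200001],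
    .r (nat_lit 0x1b1b) (nat_lit 11) [nat_lit 0x6300041,nat_lit 0x300001,nat_lit 0x4200001],
    .r (nat_lit 0x1b1b) (nat_lit 1) [nat_lit 0x6000041,nat_lit 0x200001,nat_lit 0x4000001],.c (nat_lit 4) (nat_lit 2),
    .r (nat_lit 0xf20) (nat_lit 7) [nat_lit 0x18000001,nat_lit 0x32d2b0e1,nat_lit 0x18c00001,nat_lit 0x20001],
    .r (nat_lit 0x1d07) (nat_lit 10) [nat_lit 0x4000001,nat_lit 0x200041],
    .r (nat_lit 0x1749) (nat_lit 10) [nat_lit 0x10001,nat_lit 0xe7198e1,nat_lit 0x4200001],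
    .r (nat_lit 0x1ce4) (nat_lit 6) [nat_lit 0x4000001,nat_lit 65],.r (nat_lit 0x1bfd) (nat_lit 4) [nat_lit 0x200001,
    nat_lit 0x6300861,nat_lit 0x4000001],.r (nat_lit 0x1749) (nat_lit 4) [nat_lit 0x10001,nat_lit 0xe7198e1,
    nat_lit 0x4200001],.r (nat_lit 0x1d07) (nat_lit 6) [nat_lit 0x4000001,nat_lit 65],
    .r (nat_lit 0x1cee) (nat_lit 0) [nat_lit 0x300001,nat_lit 65,nat_lit 0x4200001],.c (nat_lit 5) (nat_lit 2),
    .r (nat_lit 0x1cdb) (nat_lit 8) [nat_lit 0xc7180a3,nat_lit 0x610083],.r (nat_lit 0x1cc8) (nat_lit 0) [nat_lit 65,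
    nat_lit 0x8000061,nat_lit 0x400041],.r (nat_lit 0x1cc8) (nat_lit 4) [nat_lit 0x400041,nat_lit 0x8000061,
    nat_lit 65],.r (nat_lit 0x1750) (nat_lit 6) [nat_lit 65,nat_lit 0x4200001],
    .r (nat_lit 0x1d1a) (nat_lit 3) [nat_lit 0x6300861,nat_lit 0x4000001,nat_lit 0x4200001],
    .r (nat_lit 0x1750) (nat_lit 1) [nat_lit 0x200041,nat_lit 0x4000001],
    .r (nat_lit 0x1bb5) (nat_lit 2) [nat_lit 0x300001,nat_lit 0x200041,nat_lit 0x4200001],.c (nat_lit 6) (nat_lit 2),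
    .r (nat_lit 0x1bec) (nat_lit 1) [nat_lit 65,nat_lit 0x4200001],.c (nat_lit 7) (nat_lit 2)]]

/-- nodes -/
noncomputable def rD7k_25_35 : List RJ :=
  [.l (nat_lit 14) (nat_lit 0xdb0) (nat_lit 6) (nat_lit 0x4900000076a0000061500000615000006e5000006e5000005e5000005e50000063d0000063d000005fd000005fd00000616000005d4) (nat_lit 0x2da0000015500000155000000850000008500000185000001850000012d0000012d0000016d0000016d0000019600000154)
    (nat_lit 0x12401b60dac33b0eac39b0c2c46b0c4c4630bcc3130be830c1ea849017146151a546e517944a512f473d193466d17501b6185433b13004801b405e00e404e011e04e8242062811fc471171436b13004c01a0059009c03e013a04e81e204a813bc5011b9439b16405e01c40660158047016e07d814e0578147c2b11a543ab1a006d0198071015c056017607f80fa05780fbc561129446b0f804e01580470088046012e04a812a045812bc621179430b09c039015c05600e4022013204b814604c80d3c4c11cf446313a04e81fe07d812e04a813005e012804c0129c44912f431313a047817605b813204b814404c012c04d012dc52919b431312a062815e0578132045813404c0114049012dc4c919342f31e209080fa053814604a812c04a01240450125c4a906d830c140447115842b1130462114a444912a44c912c04c217502fa13bc47f0fbc51f0d3c4af12dc4a7125c4b710f84b0)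
    (nat_lit 0x1240db036c0db036c0db036c0db036c0db036c0db036c0db006d849036c0db036c0db036c0db036c0db036c0db036c0db00dac5c51300db036c0db036c0db036c0db036c0db036c0db00cec61512004c036c0db036c0db036c0db036c0db036c0db00eac6951b406801c40db036c0db036c0db036c0db036c0db00e6c6e51780590198071036c0db036c0db036c0db036c0db00c2c5e50e4027015805700880db036c0db036c0db036c0db011ac4a513803e011c0560118022036c0db036c0db036c0db00c4c4bd11e04e816e05d812e04c81300db036c0db036c0db0118c73d13a04e81f607f812a04b817804c036c0db036c0db00bcc64d20e071814e03e812a051812804b01140db036c0db00c4c66d18a04a815e057811604c813004d0124045036c0db00be85d411fc4ef147c3ef12bc34f129c4b712dc49712c0db00c301b611c45010ac456118844c111244c913244a913084b0)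
    (nat_lit 4) (nat_lit 103)
    [[nat_lit 2,nat_lit 0x10002,nat_lit 0x1000002,nat_lit 0x1000102,nat_lit 0x1010002,nat_lit 0x2000002,nat_lit 17,
    nat_lit 0x10011,nat_lit 0x1000011,nat_lit 257,nat_lit 0x10101,nat_lit 0x1000101,nat_lit 0x2000101,nat_lit 0x1001,
    nat_lit 0x1002,nat_lit 0x1001002,nat_lit 0x2001002,nat_lit 0x2001,nat_lit 0x1002001,nat_lit 0x11001,
    nat_lit 0x101001,nat_lit 0x1101001,nat_lit 0x1001001,nat_lit 0x1011,nat_lit 0x1001011,nat_lit 0x1101,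
    nat_lit 0x1001101,nat_lit 0x12001,nat_lit 0x2002001,nat_lit 0x1011001,nat_lit 0x2001001,nat_lit 0x10001,
    nat_lit 0x1010001,nat_lit 0x20002,nat_lit 0x100001,nat_lit 0x1100001,nat_lit 0x1000001,nat_lit 0x2000001,
    nat_lit 0x2000011],[nat_lit 32,nat_lit 48,nat_lit 272,nat_lit 0x1000110,nat_lit 0x1010,nat_lit 0x2010,
    nat_lit 0x101010,nat_lit 0x1001010,nat_lit 0x10010,nat_lit 0x11010,nat_lit 0x1000010],[nat_lit 512,nat_lit 0x1100,
    nat_lit 0x2100,nat_lit 0x101100,nat_lit 0x100100,nat_lit 0x1000100,nat_lit 0x1001100,nat_lit 0x1100100],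
    [nat_lit 0x2000,nat_lit 0x3000,nat_lit 0x4000,nat_lit 0x5000,nat_lit 0x6000,nat_lit 0x103000,nat_lit 0x1003000,
    nat_lit 0x12000,nat_lit 0x102000,nat_lit 0x202000,nat_lit 0x1102000,nat_lit 0x1002000,nat_lit 0x11000,
    nat_lit 0x101000,nat_lit 0x201000,nat_lit 0x1101000,nat_lit 0x1001000,nat_lit 0x2001000],[nat_lit 0x20000,
    nat_lit 0x110000,nat_lit 0x1010000],[nat_lit 0x200000,nat_lit 0x1100000,nat_lit 0x2100000],[nat_lit 0x2000000]]
    [.c (nat_lit 1) (nat_lit 2),.r (nat_lit 0x17af) (nat_lit 3) [nat_lit 0x20001,nat_lit 0x2001,nat_lit 0x30021,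
    nat_lit 0x233001],.c (nat_lit 0) (nat_lit 0x5543),.r (nat_lit 0x1caf) (nat_lit 7) [nat_lit 0x2001,
    nat_lit 0x335431],.r (nat_lit 0x174b) (nat_lit 8) [nat_lit 0x2001,nat_lit 0x20001,nat_lit 33],
    .c (nat_lit 0) (nat_lit 0x5543),.r (nat_lit 32) (nat_lit 13) [nat_lit 0x300231,nat_lit 0x2001],
    .r (nat_lit 0x1cdb) (nat_lit 8) [nat_lit 0x20031,nat_lit 33],.c (nat_lit 3) (nat_lit 0x30023),
    .r (nat_lit 0x1bfd) (nat_lit 4) [nat_lit 0x30021,nat_lit 0x300231,nat_lit 0x20001],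
    .c (nat_lit 0) (nat_lit 0x3002),.c (nat_lit 2) (nat_lit 0x30023),.r (nat_lit 0x174b) (nat_lit 0) [nat_lit 0x2001,
    nat_lit 0x20001,nat_lit 33],.c (nat_lit 0) (nat_lit 0x3323),.c (nat_lit 0) (nat_lit 0x5543),
    .c (nat_lit 1) (nat_lit 0x2232),.c (nat_lit 0) (nat_lit 0x5543),.c (nat_lit 0) (nat_lit 0x5543),
    .c (nat_lit 4) (nat_lit 0x2232),.r (nat_lit 32) (nat_lit 13) [nat_lit 0x3231,nat_lit 0x2001],
    .r (nat_lit 0x1bfd) (nat_lit 4) [nat_lit 0x300021,nat_lit 0x30231,nat_lit 0x20001],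
    .c (nat_lit 2) (nat_lit 0x3023),.c (nat_lit 0) (nat_lit 0x3323),.r (nat_lit 0x174b) (nat_lit 0) [nat_lit 0x2001,
    nat_lit 0x20001,nat_lit 0x333431],.c (nat_lit 2) (nat_lit 0x2232),
    .r (nat_lit 0x1b4d) (nat_lit 2) [nat_lit 0x33231,nat_lit 0x2001,nat_lit 0x20001],.c (nat_lit 3) (nat_lit 0x2232),
    .r (nat_lit 0x174b) (nat_lit 0) [nat_lit 0x2001,nat_lit 0x20001,nat_lit 0x35431],.c (nat_lit 0) (nat_lit 0x5543),
    .c (nat_lit 3) (nat_lit 803),.c (nat_lit 7) (nat_lit 0x2232),.r (nat_lit 0) (nat_lit 8) [nat_lit 33,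
    nat_lit 0x2001],.r (nat_lit 0x1c17) (nat_lit 8) [nat_lit 0x2001,nat_lit 0x20031,nat_lit 0x33201],
    .r (nat_lit 32) (nat_lit 11) [nat_lit 34,nat_lit 0x2001],.r (nat_lit 0x1c1e) (nat_lit 12) [nat_lit 0x3021,
    nat_lit 0x2001,nat_lit 0x20001],.r (nat_lit 0x1b47) (nat_lit 13) [nat_lit 0x20001,nat_lit 0x2031,nat_lit 0x33201],
    .c (nat_lit 0) (nat_lit 0x3323),.c (nat_lit 0) (nat_lit 0x5543),.r (nat_lit 0x1b4d) (nat_lit 2) [nat_lit 0x200321,
    nat_lit 0x2001,nat_lit 0x20001],.c (nat_lit 2) (nat_lit 2),.r (nat_lit 0x1d19) (nat_lit 0) [nat_lit 33,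
    nat_lit 0x6031,nat_lit 0x33201,nat_lit 0x660721],.c (nat_lit 0) (nat_lit 0x23302),
    .c (nat_lit 1) (nat_lit 0x30023),.r (nat_lit 0x196a) (nat_lit 13) [nat_lit 0x20001,nat_lit 0x22321,
    nat_lit 0x33201],.r (nat_lit 0x1b8f) (nat_lit 7) [nat_lit 0x3021,nat_lit 0x20001,nat_lit 0x2001],
    .c (nat_lit 0) (nat_lit 770),.r (nat_lit 0x1caf) (nat_lit 7) [nat_lit 0x2001,nat_lit 0x3021],
    .r (nat_lit 0) (nat_lit 1) [nat_lit 33,nat_lit 0x22031],.c (nat_lit 2) (nat_lit 0x30202),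
    .r (nat_lit 0x1b32) (nat_lit 9) [nat_lit 0x300231,nat_lit 0x302001,nat_lit 0x203021],.c (nat_lit 3) (nat_lit 2),
    .r (nat_lit 0x1b04) (nat_lit 10) [nat_lit 33,nat_lit 0x2001],.r (nat_lit 0xeb4) (nat_lit 4) [nat_lit 0x6001,
    nat_lit 0x425031,nat_lit 0x233021,nat_lit 0x544021],.c (nat_lit 3) (nat_lit 0x32002),
    .r (nat_lit 0) (nat_lit 1) [nat_lit 0x22031,nat_lit 33],.r (nat_lit 0x174e) (nat_lit 1) [nat_lit 0x300231,
    nat_lit 33],.r (nat_lit 32) (nat_lit 11) [nat_lit 0x3231,nat_lit 0x2001],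
    .r (nat_lit 0x1cdb) (nat_lit 0) [nat_lit 0x20031,nat_lit 33],.c (nat_lit 4) (nat_lit 2),
    .r (nat_lit 45) (nat_lit 1) [nat_lit 33,nat_lit 0x77631,nat_lit 0x2001],.r (nat_lit 40) (nat_lit 1) [nat_lit 34,
    nat_lit 0x99832,nat_lit 0x2001],.r (nat_lit 0xeb5) (nat_lit 3) [nat_lit 0xa0001,nat_lit 0xb0a021,nat_lit 0xbba31,
    nat_lit 0xa00031],.r (nat_lit 75) (nat_lit 1) [nat_lit 34,nat_lit 0xddc32,nat_lit 0x2001],
    .r (nat_lit 0xeb4) (nat_lit 4) [nat_lit 0x6001,nat_lit 0x605031,nat_lit 0x3021,nat_lit 0x764021],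
    .r (nat_lit 0xeb6) (nat_lit 3) [nat_lit 0x60001,nat_lit 0x706021,nat_lit 0x77631,nat_lit 0x600031],
    .r (nat_lit 0x196a) (nat_lit 13) [nat_lit 0x20001,nat_lit 0x324321,nat_lit 0x33201],
    .r (nat_lit 0x1b04) (nat_lit 10) [nat_lit 0x320021,nat_lit 0x2001],.c (nat_lit 3) (nat_lit 0x54002),
    .r (nat_lit 32) (nat_lit 11) [nat_lit 0x233231,nat_lit 0x2001],.c (nat_lit 0) (nat_lit 0x5543),
    .c (nat_lit 0) (nat_lit 0x20303),.c (nat_lit 0) (nat_lit 0x23003),.r (nat_lit 0) (nat_lit 1) [nat_lit 0x202031,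
    nat_lit 0x320021],.r (nat_lit 0x174e) (nat_lit 1) [nat_lit 0x30231,nat_lit 0x320021],
    .c (nat_lit 0) (nat_lit 0x3323),.c (nat_lit 0) (nat_lit 0x5543),.c (nat_lit 5) (nat_lit 2),
    .c (nat_lit 0) (nat_lit 0x20003),.r (nat_lit 0x1cf4) (nat_lit 2) [nat_lit 0x30021,nat_lit 0x2001,nat_lit 0x20001],
    .c (nat_lit 6) (nat_lit 2),.r (nat_lit 0x1ae5) (nat_lit 0) [nat_lit 33,nat_lit 0x30231,nat_lit 0x220321],
    .r (nat_lit 0x1b4e) (nat_lit 4) [nat_lit 0x2031,nat_lit 0x20001,nat_lit 33,nat_lit 0x200031],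
    .c (nat_lit 7) (nat_lit 2)],
    .l (nat_lit 11) (nat_lit 480) (nat_lit 6) (nat_lit 0xe1000000e1000000da000000da000000e4000000c6000000a200000108000000e1000000e1000000e9000000e9000000c3000000c3) (nat_lit 0x27000000270000002e0000002e0000004200000024000000000000006600000027000000270000001f0000001f0000004500000045)
    (nat_lit 0x1742d8568b913e2ec7387b1742c0780e21382a85d0ba1662cc4e8bd17a1ec5d0ba1fc3c04b0b41662e4560ac1302d86d07610a35c518bb12a164598ad1582b0490b61b41a88495b1362ec4b86d17a2ec5b0b61583001e08417a2f47686f14a2fc4e89f124260420ac1981804f89918a29c4089b0f61ec350760c02105403c0f61d4348830ba0fc5e8e71b43686603c2102a0708e11823a4668af1742c0ad8d71322f4708751742e86b0c212c3105d0ba2122144f8bd1c21ec5d0ba1b03083e0aa1e03885d8bb14e1bc748831843085e0ca1482387f0f013628c628ed1821a46c0d61942f04b0a41682a8368591362fc5783f1543105208e0a01f84b09c12e254408a519a1743e09612c29041050)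
    (nat_lit 0x174780f01e03c0780f01e03c0780f01e03c07805b0ba3c0780f01e03c0780f01e03c0780f01e015a2cc561e03c0780f01e03c0780f01e03c07805c8b31582b0f01e03c0780f01e03c0780f01e013e2744c092158780f01e03c0780f01e03c07805d8bd16c2d8600ac3c0780f01e03c0780f01e01b62f46a0ce0783004e1e03c0780f01e03c07803d87b0ec1a83c060078270f01e03c0780f01e01742e84290916e27c3d8db174780f01e03c0780580ba1ae4fc588990ea3545d0ba3c0780f01e01e03f85189b14a314348c11ac3605e1e03c0780710f01762ec378a710638c610c21942f0f01e01382584a8971322042e8bd12c1f0520960a0780550b40b21b43d89b07e2bc620aa11c2903f050)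
    (nat_lit 4) (nat_lit 177)
    [[nat_lit 2,nat_lit 3,nat_lit 4,nat_lit 5,nat_lit 19,nat_lit 0x1003,nat_lit 0x11003,nat_lit 0x100003,nat_lit 18,
    nat_lit 258,nat_lit 0x100102,nat_lit 0x1002,nat_lit 0x11002,nat_lit 0x111002,nat_lit 0x10002,nat_lit 0x100002,
    nat_lit 0x1000002,nat_lit 17,nat_lit 0x1011,nat_lit 0x100011,nat_lit 0x10011,nat_lit 0x11011,nat_lit 257,
    nat_lit 0x1101,nat_lit 0x11101,nat_lit 0x100101,nat_lit 0x10101,nat_lit 0x1001,nat_lit 0x2001,nat_lit 0x12001,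
    nat_lit 0x11001,nat_lit 0x22001,nat_lit 0x21001,nat_lit 0x111001,nat_lit 0x101001,nat_lit 0x1001001,
    nat_lit 0x10001,nat_lit 0x110001,nat_lit 0x20001,nat_lit 0x100001,nat_lit 0x200001,nat_lit 0x1000001,
    nat_lit 0x1011001,nat_lit 0x1100001],[nat_lit 32,nat_lit 272,nat_lit 0x1010,nat_lit 0x11010,nat_lit 0x21010,
    nat_lit 0x10010,nat_lit 0x100010,nat_lit 0x110010],[nat_lit 512,nat_lit 0x1100,nat_lit 0x11100,nat_lit 0x10100,
    nat_lit 0x101100,nat_lit 0x111100,nat_lit 0x110100,nat_lit 0x1000100],[nat_lit 0x2000,nat_lit 0x12000,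
    nat_lit 0x11000,nat_lit 0x22000,nat_lit 0x33000,nat_lit 0x122000,nat_lit 0x1012000,nat_lit 0x21000,
    nat_lit 0x111000,nat_lit 0x1011000,nat_lit 0x101000,nat_lit 0x1001000],[nat_lit 0x20000,nat_lit 0x110000,
    nat_lit 0x1010000],[nat_lit 0x200000,nat_lit 0x1100000],[nat_lit 0x2000000]]
    [.c (nat_lit 1) (nat_lit 2),.c (nat_lit 0) (nat_lit 0x22003),.r (nat_lit 0x1ce4) (nat_lit 4) [nat_lit 0x300021,
    nat_lit 0x2001],.r (nat_lit 0x1b8f) (nat_lit 12) [nat_lit 0x330021,nat_lit 0x2001,nat_lit 0x20001],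
    .r (nat_lit 0) (nat_lit 3) [nat_lit 0x300021,nat_lit 0x222031],.r (nat_lit 0x1c1e) (nat_lit 3) [nat_lit 0x330021,
    nat_lit 0x20001,nat_lit 0x2001],.r (nat_lit 0x1ce4) (nat_lit 4) [nat_lit 0x344541,nat_lit 0x2001],
    .c (nat_lit 3) (nat_lit 0x24003),.r (nat_lit 0x1c20) (nat_lit 1) [nat_lit 0x20001,nat_lit 0x33201,
    nat_lit 0x224331],.c (nat_lit 0) (nat_lit 0x22003),.c (nat_lit 0) (nat_lit 0x3002),
    .c (nat_lit 0) (nat_lit 0x27767),.c (nat_lit 1) (nat_lit 0x2232),.r (nat_lit 0x1b47) (nat_lit 5) [nat_lit 0x2001,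
    nat_lit 0x44521,nat_lit 0x33201],.c (nat_lit 0) (nat_lit 0x27767),
    .r (nat_lit 0x1b8f) (nat_lit 12) [nat_lit 0x30021,nat_lit 0x2001,nat_lit 0x20001],
    .r (nat_lit 0xeb4) (nat_lit 6) [nat_lit 0x60001,nat_lit 0x406071,nat_lit 0x200001,nat_lit 0x500061],
    .r (nat_lit 0x1b04) (nat_lit 13) [nat_lit 33,nat_lit 0x20001],.r (nat_lit 0x1b4d) (nat_lit 6) [nat_lit 0x33231,
    nat_lit 0x20001,nat_lit 0x2001],.r (nat_lit 0x1c20) (nat_lit 9) [nat_lit 0x20001,nat_lit 0x33201,nat_lit 0x2321],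
    .r (nat_lit 32) (nat_lit 5) [nat_lit 0x30231,nat_lit 0x20001],.c (nat_lit 2) (nat_lit 0x2232),
    .c (nat_lit 0) (nat_lit 0x22003),.r (nat_lit 0x1b4a) (nat_lit 6) [nat_lit 0x33231,nat_lit 0x20001,nat_lit 0x2001],
    .c (nat_lit 3) (nat_lit 0x2232),.c (nat_lit 0) (nat_lit 0x3002),.r (nat_lit 0x1caf) (nat_lit 4) [nat_lit 0x20001,
    nat_lit 0x30021],.c (nat_lit 0) (nat_lit 0x3323),.c (nat_lit 0) (nat_lit 0x3ddc7),.c (nat_lit 4) (nat_lit 0x2232),
    .c (nat_lit 0) (nat_lit 0x3323),.c (nat_lit 0) (nat_lit 0x5543),.c (nat_lit 5) (nat_lit 0x2232),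
    .c (nat_lit 3) (nat_lit 803),.r (nat_lit 0x1caf) (nat_lit 12) [nat_lit 0x20001,nat_lit 0x30021],
    .r (nat_lit 32) (nat_lit 10) [nat_lit 0x30231,nat_lit 0x20001],.c (nat_lit 0) (nat_lit 0x3323),
    .r (nat_lit 0x1b4a) (nat_lit 7) [nat_lit 0x33231,nat_lit 0x20001,nat_lit 0x2001],.c (nat_lit 0) (nat_lit 0x3ddc7),
    .r (nat_lit 0x1ce4) (nat_lit 4) [nat_lit 33,nat_lit 0x2001],.r (nat_lit 0xed2) (nat_lit 12) [nat_lit 0xe001,
    nat_lit 0x2e0071,nat_lit 0x5ffe31,nat_lit 0x300061],.r (nat_lit 0x1b04) (nat_lit 2) [nat_lit 33,nat_lit 0x20001],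
    .c (nat_lit 2) (nat_lit 0x3023),.r (nat_lit 0x1d1c) (nat_lit 7) [nat_lit 0x20001,nat_lit 0x2001,nat_lit 33],
    .c (nat_lit 2) (nat_lit 2),.r (nat_lit 10) (nat_lit 5) [nat_lit 33,nat_lit 0x22031],
    .r (nat_lit 0x1d07) (nat_lit 3) [nat_lit 33,nat_lit 0x20001],.r (nat_lit 0x1c17) (nat_lit 1) [nat_lit 0x20001,
    nat_lit 0x2031,nat_lit 0x33201],.r (nat_lit 0x174b) (nat_lit 1) [nat_lit 0x20001,nat_lit 0x2001,nat_lit 33],
    .r (nat_lit 0) (nat_lit 1) [nat_lit 33,nat_lit 0x20001],.r (nat_lit 0) (nat_lit 3) [nat_lit 33,nat_lit 0x22031],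
    .r (nat_lit 0x1cdb) (nat_lit 1) [nat_lit 0x2031,nat_lit 33],.c (nat_lit 3) (nat_lit 2),
    .r (nat_lit 0x1bec) (nat_lit 10) [nat_lit 33,nat_lit 0x2001],.r (nat_lit 0x1b47) (nat_lit 5) [nat_lit 0x2001,
    nat_lit 0x20031,nat_lit 0x33201],.r (nat_lit 0x1c1e) (nat_lit 0) [nat_lit 0x30021,nat_lit 0x20001,nat_lit 0x2001],
    .c (nat_lit 0) (nat_lit 0x3002),.c (nat_lit 1) (nat_lit 803),.c (nat_lit 0) (nat_lit 0x3002),
    .r (nat_lit 0) (nat_lit 3) [nat_lit 0x22031,nat_lit 33],.c (nat_lit 4) (nat_lit 2),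
    .c (nat_lit 0) (nat_lit 0x5ddc7),.c (nat_lit 0) (nat_lit 0x3323),.c (nat_lit 0) (nat_lit 0x5543),
    .c (nat_lit 3) (nat_lit 0x28672),.c (nat_lit 0) (nat_lit 0x24452),
    .r (nat_lit 0x174b) (nat_lit 9) [nat_lit 0x20001,nat_lit 0x2001,nat_lit 33],.c (nat_lit 0) (nat_lit 0x5ddc7),
    .r (nat_lit 0x1ce4) (nat_lit 4) [nat_lit 0x244541,nat_lit 0x2001],
    .r (nat_lit 0x1c17) (nat_lit 9) [nat_lit 0x20001,nat_lit 0x2031,nat_lit 0x33201],
    .r (nat_lit 0x1c1e) (nat_lit 3) [nat_lit 0x30021,nat_lit 0x20001,nat_lit 0x2001],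
    .r (nat_lit 0) (nat_lit 4) [nat_lit 0x20001,nat_lit 33],.c (nat_lit 5) (nat_lit 2),
    .r (nat_lit 0x1bec) (nat_lit 5) [nat_lit 33,nat_lit 0x2001],.r (nat_lit 0x1d07) (nat_lit 0) [nat_lit 33,
    nat_lit 0x20001],.c (nat_lit 6) (nat_lit 2),.r (nat_lit 10) (nat_lit 5) [nat_lit 0x22031,nat_lit 33],
    .c (nat_lit 7) (nat_lit 2)]]

/-- nodes -/
noncomputable def rD7k_25_36 : List RJ :=
  [.l (nat_lit 14) (nat_lit 0xb40) (nat_lit 6) (nat_lit 0x558000004c8000003d800000648000004f8000004f80000054500000545000004b7000004b700000563000005630000059200000592) (nat_lit 0x180000000f00000000000000270000001500000015000000103000001030000019100000191000000e5000000e5000000b6000000b6)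
    (nat_lit 0x116850205a02e81020408135c3210ebc44911cc3a912884a20d2045a13202580e403780f143ad0a743a10f8c39b104841209602e80f601680a8028809ac2bd0a3c2470bcc38d0a80322132016819203d813e04f8148454515144fd0f6c5fd16485920de040813e02880ea03a80ebc3f50b3438b104c38520c85ca0e4040813e02a00ea03a80f443f5089c34f107c3ef15d830e0eb432115142bd0fd43f511684420f603d816505a0123c4830f144d7148426b0f443af11c845a0ed03b416805ac103448f0e8444913f42470d3c38b0ed03d807682f60f483d20dfc2c10a743af151428f089c2cd0ed03d80c981da0ee83d2132c43d0e6c3a917f438d0fbc38516b05a00f483d2110847e13144c50f8c4730f6c2f3107c41316805940ee83d211f844212b44ad10484a216483220c385ca123c48310f42c112b44c513704dc10484a216482a015d8832103448f132c37f12b44c511084dc)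
    (nat_lit 0x1168b402d00b402d00b402d00b402d00b402d00b402d00b40140845a2d00b402d00b402d00b402d00b402d00b402d00b4005a04b00f00b402d00b402d00b402d00b402d00b402d00b400b4025805a03c02d00b402d00b402d00b402d00b402d00b4010203900a804f80ea0b402d00b402d00b402d00b402d00b400fc03780a204e00ea03a82d00b402d00b402d00b402d00b400f4c3c509ac5210ebc3d11168b402d00b402d00b402d00b400c843ad0af45150fd43f5110845a2d00b402d00b402d00b400ebc29d0a3c4050b342270f603b40768b402d00b402d00b400ebc3a1091c4fd0e2c34f0f603b40bd81da2d00b402d00b40116c3e30bcc3db104c41f16505a00f483ba1108b402d00b400ea439b0e345030e143ef16805ac0f483d211f84422d00b4010204120a8057a1930576123c40d0dfc4cb13144ad1370b4012284120c8857a163830e120c48f0b0443d13144ad13704dc)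
    (nat_lit 5) (nat_lit 81)
    [[nat_lit 2,nat_lit 17,nat_lit 257,nat_lit 513,nat_lit 0x10201,nat_lit 0x10101,nat_lit 0x1000101,
    nat_lit 0x1100101,nat_lit 0x1001,nat_lit 0x1101,nat_lit 0x11001,nat_lit 0x100001,nat_lit 0x100101,
    nat_lit 0x110001,nat_lit 0x1100001,nat_lit 0x1110001,nat_lit 0x1000001,nat_lit 0x1010001],[nat_lit 32,nat_lit 272,
    nat_lit 528,nat_lit 0x10110,nat_lit 0x1000110,nat_lit 0x1100110,nat_lit 0x10010,nat_lit 0x100010,
    nat_lit 0x1100010,nat_lit 0x100110,nat_lit 0x110010,nat_lit 0x1200010,nat_lit 0x1000010],[nat_lit 512,nat_lit 768,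
    nat_lit 0x400,nat_lit 0x500,nat_lit 0x600,nat_lit 0x10300,nat_lit 0x1000300,nat_lit 0x1100300,nat_lit 0x1200,
    nat_lit 0x10200,nat_lit 0x20200,nat_lit 0x1110200,nat_lit 0x100200,nat_lit 0x1100200,nat_lit 0x1000200,
    nat_lit 0x1100,nat_lit 0x11100,nat_lit 0x1001100,nat_lit 0x1101100,nat_lit 0x10100,nat_lit 0x20100,
    nat_lit 0x110100,nat_lit 0x1110100,nat_lit 0x1010100,nat_lit 0x100100,nat_lit 0x200100,nat_lit 0x1100100,
    nat_lit 0x1200100,nat_lit 0x2200100,nat_lit 0x1000100,nat_lit 0x2100100],[nat_lit 0x2000,nat_lit 0x11000,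
    nat_lit 0x1011000,nat_lit 0x101000,nat_lit 0x1101000,nat_lit 0x2101000,nat_lit 0x1001000],[nat_lit 0x20000,
    nat_lit 0x30000,nat_lit 0x1120000,nat_lit 0x120000,nat_lit 0x1020000,nat_lit 0x110000,nat_lit 0x1110000,
    nat_lit 0x1010000],[nat_lit 0x200000,nat_lit 0x1200000,nat_lit 0x1100000,nat_lit 0x2200000,nat_lit 0x2100000],
    [nat_lit 0x2000000]]
    [.c (nat_lit 1) (nat_lit 2),.r (nat_lit 10) (nat_lit 4) [nat_lit 0x300861,nat_lit 65],
    .c (nat_lit 0) (nat_lit 0x210003),.r (nat_lit 0x1ce4) (nat_lit 3) [nat_lit 0x10001,nat_lit 0x6518841],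
    .c (nat_lit 1) (nat_lit 0x410c43),.c (nat_lit 1) (nat_lit 0x200c43),.c (nat_lit 0) (nat_lit 0x230005),
    .c (nat_lit 1) (nat_lit 0x18002),.r (nat_lit 0) (nat_lit 5) [nat_lit 65,nat_lit 0x300861],
    .r (nat_lit 10) (nat_lit 4) [nat_lit 0x6518841,nat_lit 0x4210061],.c (nat_lit 0) (nat_lit 0x10062),
    .c (nat_lit 0) (nat_lit 0x230005),.c (nat_lit 0) (nat_lit 0x230005),.c (nat_lit 0) (nat_lit 0x10862),
    .c (nat_lit 1) (nat_lit 0x200002),.c (nat_lit 3) (nat_lit 0xc43),.c (nat_lit 0) (nat_lit 0x230005),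
    .c (nat_lit 0) (nat_lit 0x10862),.c (nat_lit 2) (nat_lit 2),.r (nat_lit 0x1b04) (nat_lit 9) [nat_lit 65,
    nat_lit 0x318801],.r (nat_lit 0x1cf5) (nat_lit 11) [nat_lit 0x318801,nat_lit 0x10001,nat_lit 65],
    .r (nat_lit 0x1c20) (nat_lit 13) [nat_lit 0x318801,nat_lit 0x200001,nat_lit 0x10c41],
    .r (nat_lit 0x1b4d) (nat_lit 11) [nat_lit 0x200061,nat_lit 0x318801,nat_lit 0x10001],
    .c (nat_lit 2) (nat_lit 0x18002),.r (nat_lit 0) (nat_lit 5) [nat_lit 0x300861,nat_lit 65],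
    .r (nat_lit 0) (nat_lit 8) [nat_lit 0x318801,nat_lit 65],.r (nat_lit 0x1c17) (nat_lit 7) [nat_lit 0x318801,
    nat_lit 0x10061,nat_lit 0x200001],.r (nat_lit 32) (nat_lit 0) [nat_lit 0x210061,nat_lit 0x318801],
    .r (nat_lit 0x1cdb) (nat_lit 7) [nat_lit 0x10061,nat_lit 65],.r (nat_lit 0x174b) (nat_lit 7) [nat_lit 0x318801,
    nat_lit 0x10001,nat_lit 65],.r (nat_lit 0x1d07) (nat_lit 2) [nat_lit 65,nat_lit 0x318801],
    .c (nat_lit 3) (nat_lit 2),.r (nat_lit 0x1ce4) (nat_lit 3) [nat_lit 0x10001,nat_lit 0x6729042],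
    .r (nat_lit 40) (nat_lit 5) [nat_lit 66,nat_lit 0x800062,nat_lit 0x318801],
    .r (nat_lit 0x1b8f) (nat_lit 8) [nat_lit 0x6300042,nat_lit 0x10001,nat_lit 0x318801],
    .r (nat_lit 75) (nat_lit 5) [nat_lit 66,nat_lit 0xc00062,nat_lit 0x318801],
    .r (nat_lit 0xed2) (nat_lit 10) [nat_lit 0x70001,nat_lit 0xf36b041,nat_lit 0x68290a1,nat_lit 0xc418861],
    .r (nat_lit 0x167b) (nat_lit 6) [nat_lit 0x60001,nat_lit 129,nat_lit 0xc600061,nat_lit 0xc000a1],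
    .r (nat_lit 40) (nat_lit 5) [nat_lit 0x300041,nat_lit 0x600061,nat_lit 0x318801],
    .r (nat_lit 0x1cf5) (nat_lit 1) [nat_lit 0x318801,nat_lit 0x10001,nat_lit 65],
    .r (nat_lit 0x1b8f) (nat_lit 8) [nat_lit 0x210c41,nat_lit 0x10001,nat_lit 0x318801],
    .c (nat_lit 1) (nat_lit 0x401483),.c (nat_lit 1) (nat_lit 0x210c43),.c (nat_lit 0) (nat_lit 0x20003),
    .c (nat_lit 3) (nat_lit 0x18002),.c (nat_lit 0) (nat_lit 0x20003),.r (nat_lit 0x1b04) (nat_lit 3) [nat_lit 65,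
    nat_lit 0x318801],.r (nat_lit 0x1d1c) (nat_lit 1) [nat_lit 0x318801,nat_lit 0x10001,nat_lit 65],
    .r (nat_lit 32) (nat_lit 4) [nat_lit 0x210061,nat_lit 0x318801],.c (nat_lit 2) (nat_lit 0x10803),
    .r (nat_lit 0x1ce4) (nat_lit 3) [nat_lit 0x10001,nat_lit 65],.c (nat_lit 1) (nat_lit 0x219483),
    .r (nat_lit 0x1b4a) (nat_lit 1) [nat_lit 0x200061,nat_lit 0x318801,nat_lit 0x10001],
    .c (nat_lit 1) (nat_lit 0xc43),.r (nat_lit 0x1caf) (nat_lit 8) [nat_lit 0x318801,nat_lit 0x210c41],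
    .c (nat_lit 0) (nat_lit 0x10003),.c (nat_lit 0) (nat_lit 0x20003),.c (nat_lit 0) (nat_lit 0x10003),
    .c (nat_lit 6) (nat_lit 0x18002),.c (nat_lit 1) (nat_lit 0x218002),.c (nat_lit 0) (nat_lit 0x10003),
    .c (nat_lit 7) (nat_lit 0x18002),.c (nat_lit 4) (nat_lit 2),.r (nat_lit 10) (nat_lit 4) [nat_lit 65,
    nat_lit 0x300861],.r (nat_lit 0x1c15) (nat_lit 2) [nat_lit 0x318801,nat_lit 0x10001,nat_lit 0x200c41],
    .r (nat_lit 0x1d07) (nat_lit 5) [nat_lit 65,nat_lit 0x318801],.r (nat_lit 0x1c17) (nat_lit 13) [nat_lit 0x318801,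
    nat_lit 0x10061,nat_lit 0x200001],.r (nat_lit 0x174b) (nat_lit 13) [nat_lit 0x318801,nat_lit 0x10001,nat_lit 65],
    .r (nat_lit 0) (nat_lit 13) [nat_lit 65,nat_lit 0x318801],.c (nat_lit 5) (nat_lit 2),
    .c (nat_lit 0) (nat_lit 0x6931a4),.c (nat_lit 0) (nat_lit 0x2210a2),.c (nat_lit 7) (nat_lit 0x329483),
    .c (nat_lit 6) (nat_lit 0x329483),.c (nat_lit 0) (nat_lit 0x319485),.c (nat_lit 1) (nat_lit 0x210862),
    .c (nat_lit 0) (nat_lit 0x319485),.c (nat_lit 6) (nat_lit 2),.c (nat_lit 0) (nat_lit 0x20003),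
    .c (nat_lit 0) (nat_lit 0x10003),.c (nat_lit 1) (nat_lit 0x400002),.c (nat_lit 0) (nat_lit 0x20003),
    .c (nat_lit 7) (nat_lit 2)],
    .l (nat_lit 10) (nat_lit 240) (nat_lit 4) (nat_lit 0x6c000000680000005e0000005e000000730000007300000060000000640000007c0000007c0000005d0000005d0000006600000066) (nat_lit 0x14000000100000001e0000001e0000000900000009000000180000001c00000000000000000000001f0000001f0000001600000016)
    (nat_lit 0x1605c1785614c630c0501b0421343315856130581284a17c4f1584c1a068144491284a128561404815455118421785811c3f120401285e1605014c55110421505e0fc351203613c63154551a85216c591f4751985e1345d17c5314c551a86a16c571ec731b85c1745d130501084215c5912044160601043916830158301104616c5b19848190640ec451e04e1a042178581cc75190601f0621745d228701a06c1505e1ec7d190581f07c1945d20066124330d43f1705e114391745d0f83e11c3f1444d0fc471b8660ec411945d0f83e11c47128560d8401745d138301987011c3f1405012856120481744d1e05a2008a11c4714050)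
    (nat_lit 0x160f03c0f03c0f03c0f03c0f03c0f03c0f0170583c0f03c0f03c0f03c0f03c0f03c0f01784a140f03c0f03c0f03c0f03c0f03c0f01584a120503c0f03c0f03c0f03c0f03c0f014c5f154531a8f03c0f03c0f03c0f03c0f018c4f154551486a3c0f03c0f03c0f03c0f00c0561184416c5b120f03c0f03c0f03c0f01404c1084216457110483c0f03c0f03c0f01b068178541f47b160641f0f03c0f03c0f0108681605e1d473180641887c3c0f03c0f01345111c3f1986e1043b174650f8f03c0f00cc490fc351785c0e4451745d0f83e3c0f01584a120481345d168782288011c47140f01584a100361745d0c04e1c0660fc4714050)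
    (nat_lit 3) (nat_lit 61)
    [[nat_lit 2,nat_lit 18,nat_lit 0x100002,nat_lit 0x1002,nat_lit 17,nat_lit 33,nat_lit 0x1011,nat_lit 0x100011,
    nat_lit 0x1000011,nat_lit 0x1001,nat_lit 0x101001,nat_lit 0x1001001,nat_lit 0x10001,nat_lit 0x11001,
    nat_lit 0x110001,nat_lit 0x1010001,nat_lit 0x100001,nat_lit 0x101011,nat_lit 0x200001,nat_lit 0x1100001,
    nat_lit 0x1000001,nat_lit 0x1001011],[nat_lit 32,nat_lit 48,nat_lit 0x1020,nat_lit 0x100020,nat_lit 0x1000020,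
    nat_lit 272,nat_lit 0x1010,nat_lit 0x2010,nat_lit 0x101010,nat_lit 0x1001010,nat_lit 0x2020,nat_lit 0x10010,
    nat_lit 0x100010,nat_lit 0x200010,nat_lit 0x1100010,nat_lit 0x1000010,nat_lit 0x2000010],[nat_lit 512,
    nat_lit 0x1100,nat_lit 0x100100,nat_lit 0x1100100,nat_lit 0x1000100],[nat_lit 0x2000,nat_lit 0x3000,
    nat_lit 0x102000,nat_lit 0x1002000,nat_lit 0x11000,nat_lit 0x101000,nat_lit 0x201000,nat_lit 0x1101000,
    nat_lit 0x1001000,nat_lit 0x1011000,nat_lit 0x2001000],[nat_lit 0x20000,nat_lit 0x110000,nat_lit 0x1010000],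
    [nat_lit 0x200000,nat_lit 0x1100000],[nat_lit 0x2000000]]
    [.c (nat_lit 1) (nat_lit 2),.r (nat_lit 0x1cdb) (nat_lit 8) [nat_lit 0x2419,nat_lit 0x611],
    .r (nat_lit 0x1cc8) (nat_lit 0) [nat_lit 0xa11,nat_lit 0x4819,nat_lit 17],
    .r (nat_lit 0x1cdb) (nat_lit 10) [nat_lit 0x2819,nat_lit 0x611],.r (nat_lit 0x1add) (nat_lit 0) [nat_lit 0x601,
    nat_lit 0x2401,nat_lit 17],.r (nat_lit 0x1cca) (nat_lit 4) [nat_lit 0x401,nat_lit 0x611,nat_lit 0x2001],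
    .r (nat_lit 0x1aa7) (nat_lit 4) [nat_lit 0x401,nat_lit 0x3099,nat_lit 0x2001],
    .r (nat_lit 0x1b8b) (nat_lit 0) [nat_lit 0x601,nat_lit 0x3099,nat_lit 0x2401],
    .r (nat_lit 0x1bfd) (nat_lit 0) [nat_lit 0x601,nat_lit 0x3099,nat_lit 0x2401],
    .r (nat_lit 0x1add) (nat_lit 4) [nat_lit 0x401,nat_lit 0x2001,nat_lit 0x611],
    .r (nat_lit 0x1bfd) (nat_lit 4) [nat_lit 0x401,nat_lit 0x3099,nat_lit 0x2001],
    .r (nat_lit 0x1b8b) (nat_lit 4) [nat_lit 0x401,nat_lit 0x3099,nat_lit 0x2001],.c (nat_lit 1) (nat_lit 130),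
    .r (nat_lit 0x1cdb) (nat_lit 10) [nat_lit 0x2419,nat_lit 17],.r (nat_lit 0x1cc8) (nat_lit 0) [nat_lit 0x611,
    nat_lit 0x4419,nat_lit 0x411],.r (nat_lit 0x1cc8) (nat_lit 4) [nat_lit 0x411,nat_lit 0x4419,nat_lit 0x611],
    .r (nat_lit 0x1750) (nat_lit 6) [nat_lit 0x611,nat_lit 0x2401],.c (nat_lit 7) (nat_lit 0x613),
    .r (nat_lit 0x1bb5) (nat_lit 5) [nat_lit 0x401,nat_lit 0x611,nat_lit 0x2001],
    .r (nat_lit 0x1d1a) (nat_lit 3) [nat_lit 0x3099,nat_lit 0x2001,nat_lit 0x2401],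
    .r (nat_lit 0x1750) (nat_lit 1) [nat_lit 17,nat_lit 0x2001],.c (nat_lit 6) (nat_lit 0x613),
    .c (nat_lit 2) (nat_lit 2),.r (nat_lit 0x1d1b) (nat_lit 4) [nat_lit 17,nat_lit 0x401,nat_lit 0x2001],
    .r (nat_lit 0x1b22) (nat_lit 13) [nat_lit 0x601,nat_lit 0x2401,nat_lit 0x20d1],
    .r (nat_lit 0x1cf1) (nat_lit 4) [nat_lit 0x401,nat_lit 17,nat_lit 0x2001],
    .r (nat_lit 0x1cf3) (nat_lit 9) [nat_lit 0x2401,nat_lit 0x2001,nat_lit 0x44d1],
    .r (nat_lit 0x1b61) (nat_lit 4) [nat_lit 0x401,nat_lit 0x3011,nat_lit 0x2001],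
    .r (nat_lit 0x196f) (nat_lit 8) [nat_lit 0x601,nat_lit 0x2401,nat_lit 17],
    .r (nat_lit 0x1b22) (nat_lit 7) [nat_lit 0x401,nat_lit 0x2001,nat_lit 0x24d1],
    .r (nat_lit 8) (nat_lit 6) [nat_lit 0x3099,nat_lit 0x2001],.r (nat_lit 8) (nat_lit 8) [nat_lit 0x3699,
    nat_lit 0x2401],.r (nat_lit 0x1d1a) (nat_lit 3) [nat_lit 18,nat_lit 0x2001,nat_lit 0x2401],
    .r (nat_lit 0x1add) (nat_lit 0) [nat_lit 0x601,nat_lit 0x2401,nat_lit 0x411],
    .r (nat_lit 0x1cf4) (nat_lit 4) [nat_lit 0x401,nat_lit 17,nat_lit 0x2001],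
    .r (nat_lit 0x1cee) (nat_lit 4) [nat_lit 0x401,nat_lit 17,nat_lit 0x2001],
    .r (nat_lit 0x1b2f) (nat_lit 4) [nat_lit 0x401,nat_lit 0x3699,nat_lit 0x2001],
    .r (nat_lit 0x1baf) (nat_lit 4) [nat_lit 0x401,nat_lit 17,nat_lit 0x2001],
    .r (nat_lit 0x1d12) (nat_lit 1) [nat_lit 0x401,nat_lit 0x2001,nat_lit 0x24d1],.c (nat_lit 3) (nat_lit 2),
    .r (nat_lit 0x1b61) (nat_lit 0) [nat_lit 0x601,nat_lit 0x3611,nat_lit 0x2401],
    .r (nat_lit 0x1b1b) (nat_lit 11) [nat_lit 0x3611,nat_lit 0x601,nat_lit 0x2401],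
    .r (nat_lit 0x1cdb) (nat_lit 4) [nat_lit 0x2419,nat_lit 17],.r (nat_lit 0x1b1b) (nat_lit 1) [nat_lit 0x3011,
    nat_lit 0x401,nat_lit 0x2001],.c (nat_lit 4) (nat_lit 2),.r (nat_lit 0x1d1b) (nat_lit 0) [nat_lit 17,
    nat_lit 0x601,nat_lit 0x2401],.r (nat_lit 0x1cf3) (nat_lit 3) [nat_lit 0x2001,nat_lit 0x2401,nat_lit 0x44d1],
    .r (nat_lit 0x1cf1) (nat_lit 0) [nat_lit 0x601,nat_lit 17,nat_lit 0x2401],
    .r (nat_lit 0x1add) (nat_lit 4) [nat_lit 0x401,nat_lit 0x2001,nat_lit 17],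
    .r (nat_lit 0x1baf) (nat_lit 0) [nat_lit 0x601,nat_lit 17,nat_lit 0x2401],
    .r (nat_lit 0x1d12) (nat_lit 11) [nat_lit 0x601,nat_lit 0x2401,nat_lit 0x20d1],
    .r (nat_lit 0x1b2f) (nat_lit 0) [nat_lit 0x601,nat_lit 0x3099,nat_lit 0x2401],
    .r (nat_lit 0x1cf4) (nat_lit 0) [nat_lit 0x601,nat_lit 17,nat_lit 0x2401],
    .r (nat_lit 0x1b8b) (nat_lit 4) [nat_lit 0x401,nat_lit 0x3699,nat_lit 0x2001],
    .r (nat_lit 0x1cee) (nat_lit 0) [nat_lit 0x601,nat_lit 17,nat_lit 0x2401],.c (nat_lit 5) (nat_lit 2),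
    .r (nat_lit 0x1750) (nat_lit 6) [nat_lit 17,nat_lit 0x2401],.r (nat_lit 0x1750) (nat_lit 1) [nat_lit 0x411,
    nat_lit 0x2001],.c (nat_lit 6) (nat_lit 2),.r (nat_lit 0x1bbc) (nat_lit 4) [nat_lit 0x401,nat_lit 0x2001,
    nat_lit 17],.c (nat_lit 7) (nat_lit 2)]]

/-- nodes -/
noncomputable def rD7k_25_37 : List RJ :=
  [.l (nat_lit 13) (nat_lit 0x5a0) (nat_lit 4) (nat_lit 0x29400000294000002bc0000026400000281000002810000027e0000027e00000224000003280000029600000296000002af000002af) (nat_lit 0x9400000094000000c40000006c000000a7000000a7000000aa000000aa000000000000010400000092000000920000007900000079)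
    (nat_lit 0xf508003ac2220fa879c3d41f214a04e840430410d87f44001ea0ee08a039e1df0f5076852819014e0e7844221b114088840c250112882442423009006e045422a12c86a43b81d60cf081833e1bd0fd06704c81580ed06f03e21eb0ef879c37a2090fc07703be1f514b84f43de1ef101080039e1f50cf88943b41f80fd875c50e1590f787bc4002080ed07c83382300eb87d43f01d413f05583d81e60fe88143d41ea0fd08483f61df0ea07e047417a0ed07684b61c70c804e82b01b80ac84f42f415611b04803a01d60d586f4528294132048050e29711d09f86502361480a5835a2d31cf0c1037822a0f787bc3b41e614b07583c020410e888c5382020ed08a83de1ef0ed07b05201d00f9078047621d10d87f43d61a9104080038e20516986f443a22311b092044221b0f8896440020212d87f435a1ab11d887446c236)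
    (nat_lit 0xf51680b405a02d01680b405a02d01680b405a02d016804001ea2d01680b405a02d01680b405a02d01680b405a00eb077040c5a02d01680b405a02d01680b405a02d016804442281280818b405a02d01680b405a02d01680b405a00fa873c44a19f0fc1680b405a02d01680b405a02d016803ce1df10486f43b81f82d01680b405a02d01680b405a00f507a84241fa0ef87ec3f05a02d01680b405a02d016803e41da11806703ea1d70ea07e0b405a02d01680b405a014a0a5024026414b8a1c4fc23a11b1680b405a02d016802741900dc056027a1590ab05e82402362d01680b405a01010a704541da0f787bc3d81da0e80a403c05a02d0168060839e11506f03de1ef0f307683ac2961020780b405a010d88844b21f110108003fa25b0d586b443a23b11b16803fa21b0d487ac400208102871c37a2d31118874490236)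
    (nat_lit 4) (nat_lit 43)
    [[nat_lit 2,nat_lit 17,nat_lit 257,nat_lit 0x100101,nat_lit 0x1101,nat_lit 0x10101,nat_lit 0x1000101,
    nat_lit 0x1001,nat_lit 0x10001,nat_lit 0x110001,nat_lit 0x100001,nat_lit 0x1000001],[nat_lit 32,nat_lit 272,
    nat_lit 0x100110,nat_lit 0x1010,nat_lit 0x2010,nat_lit 0x10010,nat_lit 0x100010],[nat_lit 512,nat_lit 0x100200,
    nat_lit 0x1100,nat_lit 0x2100,nat_lit 0x11100,nat_lit 0x101100,nat_lit 0x1001100,nat_lit 0x10100,nat_lit 0x100100,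
    nat_lit 0x200200,nat_lit 0x110100,nat_lit 0x200100,nat_lit 0x1100100,nat_lit 0x1000100],[nat_lit 0x2000,
    nat_lit 0x11000,nat_lit 0x101000,nat_lit 0x1001000],[nat_lit 0x20000,nat_lit 0x110000,nat_lit 0x1010000],
    [nat_lit 0x200000,nat_lit 0x1100000],[nat_lit 0x2000000]]
    [.c (nat_lit 1) (nat_lit 2),.c (nat_lit 6) (nat_lit 0x3302),.c (nat_lit 0) (nat_lit 0x24003),
    .c (nat_lit 2) (nat_lit 0x33202),.r (nat_lit 32) (nat_lit 7) [nat_lit 0x2420031,nat_lit 0x3550041],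
    .r (nat_lit 0x1cf6) (nat_lit 7) [nat_lit 0x3063231,nat_lit 0x2001,nat_lit 0x2005451],
    .c (nat_lit 6) (nat_lit 0x22003),.r (nat_lit 0x1d07) (nat_lit 13) [nat_lit 0x2001,nat_lit 33],
    .c (nat_lit 0) (nat_lit 0x332323),.c (nat_lit 2) (nat_lit 0x220432),.r (nat_lit 0x1ce4) (nat_lit 4) [nat_lit 33,
    nat_lit 0x2001],.r (nat_lit 32) (nat_lit 7) [nat_lit 0x220031,nat_lit 0x2050041],.c (nat_lit 2) (nat_lit 2),
    .c (nat_lit 0) (nat_lit 0x220203),.r (nat_lit 0x1cdb) (nat_lit 1) [nat_lit 0x2424331,nat_lit 0x3533221],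
    .c (nat_lit 1) (nat_lit 0x304302),.r (nat_lit 0xe2e) (nat_lit 10) [nat_lit 65,nat_lit 0x599d831,nat_lit 0x8001,
    nat_lit 0x5085021],.c (nat_lit 0) (nat_lit 0x33023),.r (nat_lit 0x176e) (nat_lit 11) [nat_lit 0x3021,
    nat_lit 0x240001,nat_lit 0x2001,nat_lit 0x2050001],.c (nat_lit 3) (nat_lit 2),
    .r (nat_lit 0x1ca9) (nat_lit 6) [nat_lit 0x3533201,nat_lit 0x2420031,nat_lit 33],
    .c (nat_lit 0) (nat_lit 0x460005),.r (nat_lit 32) (nat_lit 7) [nat_lit 0x4600032,nat_lit 0x3300021],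
    .r (nat_lit 0x1d1f) (nat_lit 6) [nat_lit 0x3303021,nat_lit 0x2001],.c (nat_lit 1) (nat_lit 0x332002),
    .c (nat_lit 2) (nat_lit 0x220403),.c (nat_lit 3) (nat_lit 0x242232),.c (nat_lit 0) (nat_lit 0x240005),
    .r (nat_lit 32) (nat_lit 7) [nat_lit 34,nat_lit 0x2400031],.r (nat_lit 0x1ca9) (nat_lit 6) [nat_lit 0x3533201,
    nat_lit 0x3231,nat_lit 0x2422321],.c (nat_lit 2) (nat_lit 0x30402),.c (nat_lit 1) (nat_lit 0x22003),
    .r (nat_lit 0x1d1f) (nat_lit 6) [nat_lit 0x3535221,nat_lit 0x2001],.c (nat_lit 4) (nat_lit 2),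
    .c (nat_lit 0) (nat_lit 0x377767),.c (nat_lit 1) (nat_lit 0x306002),
    .r (nat_lit 32) (nat_lit 7) [nat_lit 0x2400032,nat_lit 33],.c (nat_lit 5) (nat_lit 2),
    .c (nat_lit 0) (nat_lit 0x355545),.r (nat_lit 0x1d1f) (nat_lit 6) [nat_lit 0x3021,nat_lit 0x2001],
    .c (nat_lit 6) (nat_lit 2),.c (nat_lit 1) (nat_lit 0x2002),.c (nat_lit 7) (nat_lit 2)],
    .l (nat_lit 10) (nat_lit 240) (nat_lit 4) (nat_lit 0x5e0000005e0000005e0000005e0000005e0000005e0000005f0000005f00000061000000610000005f0000005f0000006c0000006c) (nat_lit 0xe0000000e0000000e0000000e0000000e0000000e0000000d0000000d0000000b0000000b0000000d0000000d0000000000000000)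
    (nat_lit 0x180541504c1105c0945114c4d144271785c14060140501404c1445514c5514451188601404c150501305013c5114c5313c511385e14054150541405014c5114c51144511485e1305c140501404c14c5114c51144511685e140441404c1505014c5113c5511c511785c1545114451144511404e15052150561ac691442514c4f14c531485015054138581943d1544d144531545115052140561d8542346514c5314c5313c5315054158501d05422c6314427144511445116056150541405217c3f144511444f11c51138541d076148501845f1805c1785e1705e0f46918c6517c3f1b06c1885e1484e1785a1946b22c8d1845f1a06c)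
    (nat_lit 0x180f03c0f03c0f03c0f03c0f03c0f03c0f0150603c0f03c0f03c0f03c0f03c0f03c0f015050150f03c0f03c0f03c0f03c0f03c0f013050140543c0f03c0f03c0f03c0f03c0f01105013050140f03c0f03c0f03c0f03c0f01704c14050130503c0f03c0f03c0f03c0f00945113c5314c53140f03c0f03c0f03c0f0144551445114451138503c0f03c0f03c0f014c5314c5314c4f15054140f03c0f03c0f01345514c511445514854158503c0f03c0f01445113c51144471504e1d874140f03c0f009c5114451144511585815054148503c0f017862138521685e1ac652348b17c611b0f0170601785e1785c1a43d194630fc5f1b06c)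
    (nat_lit 4) (nat_lit 59)
    [[nat_lit 2,nat_lit 17,nat_lit 0x1000011,nat_lit 0x1001,nat_lit 0x10001,nat_lit 0x10011,nat_lit 0x11001,
    nat_lit 0x100001,nat_lit 0x100011,nat_lit 0x101001,nat_lit 0x1000001],[nat_lit 32,nat_lit 0x10020,
    nat_lit 0x1000020,nat_lit 272,nat_lit 0x1010,nat_lit 0x1001010,nat_lit 0x10010,nat_lit 0x110010,nat_lit 0x1010010,
    nat_lit 0x10110,nat_lit 0x20010,nat_lit 0x100010,nat_lit 0x1100010,nat_lit 0x1000010,nat_lit 0x2000010],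
    [nat_lit 512,nat_lit 0x1100,nat_lit 0x1001100,nat_lit 0x10100,nat_lit 0x1010100,nat_lit 0x100100,
    nat_lit 0x1000100],[nat_lit 0x2000,nat_lit 0x1002000,nat_lit 0x11000,nat_lit 0x1011000,nat_lit 0x101000,
    nat_lit 0x1001000,nat_lit 0x1101000,nat_lit 0x2001000,nat_lit 0x2002000],[nat_lit 0x20000,nat_lit 0x120000,
    nat_lit 0x1020000,nat_lit 0x110000,nat_lit 0x1110000,nat_lit 0x1010000],[nat_lit 0x200000,nat_lit 0x1100000],
    [nat_lit 0x2000000]]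
    [.c (nat_lit 1) (nat_lit 2),.r (nat_lit 0x1ae0) (nat_lit 4) [nat_lit 0x3305452,nat_lit 0x3025002,
    nat_lit 0x2034042],.c (nat_lit 5) (nat_lit 0x330045),.c (nat_lit 0) (nat_lit 0x202005),
    .r (nat_lit 0x1d1f) (nat_lit 5) [nat_lit 0x335042,nat_lit 0x220002],.c (nat_lit 7) (nat_lit 0x330045),
    .c (nat_lit 1) (nat_lit 0x302504),.r (nat_lit 0x1d1f) (nat_lit 5) [nat_lit 0x330042,nat_lit 0x220002],
    .c (nat_lit 7) (nat_lit 0x330545),.c (nat_lit 1) (nat_lit 0x302004),.c (nat_lit 0) (nat_lit 0x202005),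
    .c (nat_lit 2) (nat_lit 2),.r (nat_lit 0x1175) (nat_lit 7) [nat_lit 33,nat_lit 0x220002,nat_lit 0x3330431,
    nat_lit 0x2020002],.r (nat_lit 0x11ab) (nat_lit 3) [nat_lit 0x440001,nat_lit 65,nat_lit 0x5509851,
    nat_lit 0x3354431],.r (nat_lit 4) (nat_lit 3) [nat_lit 0x3030452,nat_lit 33],
    .r (nat_lit 0x1cdb) (nat_lit 13) [nat_lit 0x3030042,nat_lit 0x2020002],
    .r (nat_lit 4) (nat_lit 3) [nat_lit 0x330452,nat_lit 0x3200042],.c (nat_lit 4) (nat_lit 0x422054),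
    .c (nat_lit 1) (nat_lit 0x224054),.c (nat_lit 1) (nat_lit 0x330045),.c (nat_lit 5) (nat_lit 0x303445),
    .c (nat_lit 1) (nat_lit 0x224554),.c (nat_lit 4) (nat_lit 0x422454),.c (nat_lit 1) (nat_lit 0x330545),
    .r (nat_lit 0x1ce4) (nat_lit 13) [nat_lit 33,nat_lit 0x220002],.c (nat_lit 1) (nat_lit 0x334545),
    .c (nat_lit 3) (nat_lit 2),.c (nat_lit 0) (nat_lit 0x220405),.c (nat_lit 1) (nat_lit 0x224005),
    .c (nat_lit 0) (nat_lit 0x220405),.r (nat_lit 0x1cdb) (nat_lit 4) [nat_lit 0x224052,nat_lit 0x3021],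
    .c (nat_lit 0) (nat_lit 0x220005),.r (nat_lit 0x1c06) (nat_lit 4) [nat_lit 0x220052,nat_lit 33,nat_lit 0x2300042],
    .c (nat_lit 4) (nat_lit 2),.c (nat_lit 0) (nat_lit 0x200203),.c (nat_lit 0) (nat_lit 0x200203),
    .c (nat_lit 0) (nat_lit 0x200203),.c (nat_lit 0) (nat_lit 0x200003),.c (nat_lit 0) (nat_lit 0x202005),
    .c (nat_lit 0) (nat_lit 0x200003),.r (nat_lit 0x1c06) (nat_lit 4) [nat_lit 0x2020052,nat_lit 0x3200042,
    nat_lit 33],.c (nat_lit 1) (nat_lit 0x202003),.c (nat_lit 5) (nat_lit 2),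
    .r (nat_lit 0x11ab) (nat_lit 3) [nat_lit 0x440001,nat_lit 0x5550851,nat_lit 0x49041,nat_lit 0x34021],
    .r (nat_lit 0x1175) (nat_lit 7) [nat_lit 0x3332431,nat_lit 0x220002,nat_lit 0x3021,nat_lit 0x2020002],
    .c (nat_lit 5) (nat_lit 514),.r (nat_lit 0x1175) (nat_lit 7) [nat_lit 0x3330431,nat_lit 0x220002,nat_lit 33,
    nat_lit 0x2020002],.c (nat_lit 0) (nat_lit 0x200203),.c (nat_lit 6) (nat_lit 2),.c (nat_lit 0) (nat_lit 0x200003),
    .c (nat_lit 7) (nat_lit 2)]]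

/-- nodes -/
noncomputable def rD7k_25_38 : List RJ :=
  [.s (nat_lit 13) (nat_lit 0x780) (nat_lit 5) (nat_lit 0x33600000336000002b7000002b70000028700000287000002e4000002e4000002ec000002ec00000346000003460000033600000336) (nat_lit 0x10000000100000008f0000008f000000bf000000bf00000062000000620000005a0000005a00000000000000000000001000000010)
    (nat_lit 0x17a0c982ba17313b89dc5a821c22d0e107b83f01930c985a42f41538a9c4ee16310c0b5068c2dc1c20e608b445a15385cc67827c0fc07e04aa2550fd8c6430624d16c896454e15d12d0cf02cc1f812a895459a2370f68adc54e25d0b189dc3f01f80e406584962b711688b45a22171e08d044ee2770b307e02981c8112889450e1b11438a1c65e2f716a08704aa2551128adc5fc2fe1450a284c828a16a0b504302d412a895444a24b1490bf851428a1720b904582d416e0e1046e3190d888b451428a1490a085d82ec16e0b7068c45a16687ec50e22d1450a283902921760bb04442dc1cc0fc056e24d143885c5c828a1760bb068c4100dc0cd87083dc0f6860c50e2d117209905d82ec1a30d1866c33622d0c984ba25917b8d045a82d416e0b7066c3361400c988b43261538b6465e3c11160b504442dc19b06e064c280)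
    (nat_lit 0x17a1e00f007803c01e00f007803c01e00f007803c01e0064c2f43c01e00f007803c01e00f007803c01e00f007800ae8a9c6787803c01e00f007803c01e00f007803c01e002e62a713e0cf0f007803c01e00f007803c01e00f0078013b89dc3f01660e41e00f007803c01e00f007803c01e004ee1630fc07e032c1c83c01e00f007803c01e00f0078016a08604aa25512588945fc7803c01e00f007803c01e004382d412a895456e22517f0bf8f007803c01e00f007801ac0d183f62cd1168a1c51428a1491e00f007803c01e007082dc18c88dc45a1b11450a285042923c01e00f007801700e103061ed1688a1c4c82e41760bb068c7803c01e007543981268adc42e2871450b905d82ec2080d18f0078019311685b22a71e08cbc5a822c16e08883703361401e0064c45a12c89746822f716a0b505b82dc19b0cd864c280)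
    (nat_lit 5) (nat_lit 81)
    [[nat_lit 0,nat_lit 0,nat_lit 2],[nat_lit 0,nat_lit 2,nat_lit 0],[nat_lit 1,nat_lit 1,nat_lit 3],[nat_lit 1,
    nat_lit 3,nat_lit 1],[nat_lit 2,nat_lit 12],[nat_lit 2,nat_lit 13],[nat_lit 3,nat_lit 12],[nat_lit 3,nat_lit 13],
    [nat_lit 4,nat_lit 9,nat_lit 12],[nat_lit 4,nat_lit 9,nat_lit 13],[nat_lit 4,nat_lit 10,nat_lit 10],[nat_lit 4,
    nat_lit 10,nat_lit 11],[nat_lit 4,nat_lit 11,nat_lit 11],[nat_lit 4,nat_lit 12,nat_lit 8],[nat_lit 4,nat_lit 13,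
    nat_lit 8],[nat_lit 5,nat_lit 9,nat_lit 12],[nat_lit 5,nat_lit 9,nat_lit 13],[nat_lit 5,nat_lit 10,nat_lit 10],
    [nat_lit 5,nat_lit 10,nat_lit 11],[nat_lit 5,nat_lit 11,nat_lit 11],[nat_lit 5,nat_lit 12,nat_lit 8],[nat_lit 5,
    nat_lit 13,nat_lit 8],[nat_lit 6,nat_lit 6,nat_lit 8],[nat_lit 6,nat_lit 6,nat_lit 9],[nat_lit 6,nat_lit 7,
    nat_lit 8],[nat_lit 6,nat_lit 7,nat_lit 9],[nat_lit 6,nat_lit 8,nat_lit 6],[nat_lit 6,nat_lit 8,nat_lit 7],
    [nat_lit 6,nat_lit 9,nat_lit 6],[nat_lit 6,nat_lit 9,nat_lit 7],[nat_lit 7,nat_lit 7,nat_lit 8],[nat_lit 7,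
    nat_lit 7,nat_lit 9],[nat_lit 7,nat_lit 8,nat_lit 7],[nat_lit 7,nat_lit 9,nat_lit 7]]
    [nat_lit 0x1002,nat_lit 0x1020,nat_lit 0x1113,nat_lit 0x1131,nat_lit 300,nat_lit 301,nat_lit 316,nat_lit 317,
    nat_lit 0x149c,nat_lit 0x149d,nat_lit 0x14aa,nat_lit 0x14ab,nat_lit 0x14bb,nat_lit 0x14c8,nat_lit 0x14d8,
    nat_lit 0x159c,nat_lit 0x159d,nat_lit 0x15aa,nat_lit 0x15ab,nat_lit 0x15bb,nat_lit 0x15c8,nat_lit 0x15d8,
    nat_lit 0x1668,nat_lit 0x1669,nat_lit 0x1678,nat_lit 0x1679,nat_lit 0x1686,nat_lit 0x1687,nat_lit 0x1696,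
    nat_lit 0x1697,nat_lit 0x1778,nat_lit 0x1779,nat_lit 0x1787,nat_lit 0x1797]
    [[[nat_lit 0,nat_lit 0,nat_lit 2],[nat_lit 0,nat_lit 2,nat_lit 0],[nat_lit 1,nat_lit 1,nat_lit 3],[nat_lit 1,
    nat_lit 3,nat_lit 1],[nat_lit 2,nat_lit 0,nat_lit 0],[nat_lit 2,nat_lit 12],[nat_lit 2,nat_lit 13],[nat_lit 3,
    nat_lit 1,nat_lit 1],[nat_lit 3,nat_lit 12],[nat_lit 3,nat_lit 13],[nat_lit 4,nat_lit 9,nat_lit 12],[nat_lit 4,
    nat_lit 9,nat_lit 13]],[[nat_lit 4,nat_lit 10,nat_lit 10],[nat_lit 4,nat_lit 10,nat_lit 11],[nat_lit 4,nat_lit 11,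
    nat_lit 11],[nat_lit 4,nat_lit 12,nat_lit 8],[nat_lit 4,nat_lit 13,nat_lit 8],[nat_lit 5,nat_lit 9,nat_lit 12],
    [nat_lit 5,nat_lit 9,nat_lit 13],[nat_lit 5,nat_lit 10,nat_lit 10],[nat_lit 5,nat_lit 10,nat_lit 11],[nat_lit 5,
    nat_lit 11,nat_lit 11],[nat_lit 5,nat_lit 12,nat_lit 8],[nat_lit 5,nat_lit 13,nat_lit 8]],[[nat_lit 6,nat_lit 6,
    nat_lit 8],[nat_lit 6,nat_lit 6,nat_lit 9],[nat_lit 6,nat_lit 7,nat_lit 8],[nat_lit 6,nat_lit 7,nat_lit 9],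
    [nat_lit 6,nat_lit 8,nat_lit 6],[nat_lit 6,nat_lit 8,nat_lit 7],[nat_lit 6,nat_lit 9,nat_lit 6],[nat_lit 6,
    nat_lit 9,nat_lit 7],[nat_lit 7,nat_lit 6,nat_lit 8],[nat_lit 7,nat_lit 6,nat_lit 9],[nat_lit 7,nat_lit 7,
    nat_lit 8],[nat_lit 7,nat_lit 7,nat_lit 9]],[[nat_lit 7,nat_lit 8,nat_lit 6],[nat_lit 7,nat_lit 8,nat_lit 7],
    [nat_lit 7,nat_lit 9,nat_lit 6],[nat_lit 7,nat_lit 9,nat_lit 7],[nat_lit 8,nat_lit 4,nat_lit 12],[nat_lit 8,
    nat_lit 4,nat_lit 13],[nat_lit 8,nat_lit 5,nat_lit 12],[nat_lit 8,nat_lit 5,nat_lit 13],[nat_lit 8,nat_lit 6,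
    nat_lit 6],[nat_lit 8,nat_lit 6,nat_lit 7],[nat_lit 8,nat_lit 7,nat_lit 6],[nat_lit 8,nat_lit 7,nat_lit 7]],
    [[nat_lit 9,nat_lit 6,nat_lit 6],[nat_lit 9,nat_lit 6,nat_lit 7],[nat_lit 9,nat_lit 7,nat_lit 6],[nat_lit 9,
    nat_lit 7,nat_lit 7],[nat_lit 9,nat_lit 12,nat_lit 4],[nat_lit 9,nat_lit 12,nat_lit 5],[nat_lit 9,nat_lit 13,
    nat_lit 4],[nat_lit 9,nat_lit 13,nat_lit 5],[nat_lit 10,nat_lit 4,nat_lit 10],[nat_lit 10,nat_lit 5,nat_lit 10],
    [nat_lit 10,nat_lit 10,nat_lit 4],[nat_lit 10,nat_lit 10,nat_lit 5]],[[nat_lit 10,nat_lit 11,nat_lit 4],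
    [nat_lit 10,nat_lit 11,nat_lit 5],[nat_lit 11,nat_lit 4,nat_lit 10],[nat_lit 11,nat_lit 4,nat_lit 11],[nat_lit 11,
    nat_lit 5,nat_lit 10],[nat_lit 11,nat_lit 5,nat_lit 11],[nat_lit 11,nat_lit 11,nat_lit 4],[nat_lit 11,nat_lit 11,
    nat_lit 5],[nat_lit 12,nat_lit 2],[nat_lit 12,nat_lit 3],[nat_lit 12,nat_lit 4,nat_lit 9],[nat_lit 12,nat_lit 5,
    nat_lit 9]],[[nat_lit 12,nat_lit 8,nat_lit 4],[nat_lit 12,nat_lit 8,nat_lit 5],[nat_lit 13,nat_lit 2],[nat_lit 13,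
    nat_lit 3],[nat_lit 13,nat_lit 4,nat_lit 9],[nat_lit 13,nat_lit 5,nat_lit 9],[nat_lit 13,nat_lit 8,nat_lit 4],
    [nat_lit 13,nat_lit 8,nat_lit 5]]]
    [[nat_lit 1,nat_lit 4,nat_lit 3,nat_lit 7,nat_lit 0,nat_lit 68,nat_lit 74,nat_lit 2,nat_lit 69,nat_lit 75,
    nat_lit 52,nat_lit 54],[nat_lit 58,nat_lit 60,nat_lit 66,nat_lit 72,nat_lit 78,nat_lit 53,nat_lit 55,nat_lit 59,
    nat_lit 61,nat_lit 67,nat_lit 73,nat_lit 79],[nat_lit 28,nat_lit 30,nat_lit 36,nat_lit 38,nat_lit 44,nat_lit 46,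
    nat_lit 48,nat_lit 50,nat_lit 29,nat_lit 31,nat_lit 37,nat_lit 39],[nat_lit 45,nat_lit 47,nat_lit 49,nat_lit 51,
    nat_lit 15,nat_lit 16,nat_lit 22,nat_lit 23,nat_lit 24,nat_lit 26,nat_lit 32,nat_lit 34],[nat_lit 25,nat_lit 27,
    nat_lit 33,nat_lit 35,nat_lit 70,nat_lit 71,nat_lit 76,nat_lit 77,nat_lit 12,nat_lit 19,nat_lit 56,nat_lit 57],
    [nat_lit 62,nat_lit 64,nat_lit 13,nat_lit 14,nat_lit 20,nat_lit 21,nat_lit 63,nat_lit 65,nat_lit 5,nat_lit 8,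
    nat_lit 10,nat_lit 17],[nat_lit 40,nat_lit 42,nat_lit 6,nat_lit 9,nat_lit 11,nat_lit 18,nat_lit 41,nat_lit 43]]
    [[nat_lit 4,nat_lit 0,nat_lit 7,nat_lit 2,nat_lit 1,nat_lit 68,nat_lit 74,nat_lit 3,nat_lit 69,nat_lit 75,
    nat_lit 70,nat_lit 76],[nat_lit 56,nat_lit 62,nat_lit 63,nat_lit 40,nat_lit 41,nat_lit 71,nat_lit 77,nat_lit 57,
    nat_lit 64,nat_lit 65,nat_lit 42,nat_lit 43],[nat_lit 44,nat_lit 48,nat_lit 45,nat_lit 49,nat_lit 24,nat_lit 32,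
    nat_lit 25,nat_lit 33,nat_lit 46,nat_lit 50,nat_lit 47,nat_lit 51],[nat_lit 26,nat_lit 34,nat_lit 27,nat_lit 35,
    nat_lit 72,nat_lit 78,nat_lit 73,nat_lit 79,nat_lit 28,nat_lit 36,nat_lit 29,nat_lit 37],[nat_lit 30,nat_lit 38,
    nat_lit 31,nat_lit 39,nat_lit 10,nat_lit 17,nat_lit 11,nat_lit 18,nat_lit 58,nat_lit 59,nat_lit 12,nat_lit 19],
    [nat_lit 13,nat_lit 20,nat_lit 60,nat_lit 66,nat_lit 61,nat_lit 67,nat_lit 14,nat_lit 21,nat_lit 5,nat_lit 8,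
    nat_lit 52,nat_lit 53],[nat_lit 15,nat_lit 22,nat_lit 6,nat_lit 9,nat_lit 54,nat_lit 55,nat_lit 16,nat_lit 23]]
    [[[nat_lit 68],[nat_lit 72],[nat_lit 9],[nat_lit 7],[nat_lit 0],[nat_lit 1],[],[nat_lit 18],[],[nat_lit 20,
    nat_lit 21],[],[]],[[nat_lit 5],[nat_lit 5],[],[nat_lit 4],[],[nat_lit 37,nat_lit 39],[nat_lit 37,nat_lit 39],[],
    [],[nat_lit 33,nat_lit 35],[],[]],[[nat_lit 15,nat_lit 16],[nat_lit 15,nat_lit 16],[],[],[nat_lit 12],
    [nat_lit 12],[],[],[],[],[nat_lit 53,nat_lit 55],[nat_lit 53,nat_lit 55]],[[],[],[nat_lit 49,nat_lit 51],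
    [nat_lit 49,nat_lit 51],[nat_lit 28,nat_lit 30],[nat_lit 28,nat_lit 30],[],[],[nat_lit 24,nat_lit 26],[nat_lit 24,
    nat_lit 26],[],[]],[[],[],[nat_lit 67],[nat_lit 67],[],[],[nat_lit 63,nat_lit 65],[nat_lit 63,nat_lit 65],
    [nat_lit 44,nat_lit 46],[],[nat_lit 40,nat_lit 42],[nat_lit 40,nat_lit 42]],[[],[],[],[],[nat_lit 75],
    [nat_lit 75],[nat_lit 76,nat_lit 77],[nat_lit 76,nat_lit 77],[nat_lit 58,nat_lit 60],[],[],[]],[[nat_lit 56,
    nat_lit 57],[nat_lit 56,nat_lit 57],[],[nat_lit 3],[],[nat_lit 2],[],[]]]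
    (nat_lit 80) [nat_lit 0,nat_lit 1,nat_lit 2,nat_lit 3,nat_lit 5,nat_lit 6,nat_lit 8,nat_lit 9,nat_lit 10,
    nat_lit 11,nat_lit 12,nat_lit 13,nat_lit 14,nat_lit 15,nat_lit 16,nat_lit 17,nat_lit 18,nat_lit 19,nat_lit 20,
    nat_lit 21,nat_lit 22,nat_lit 23,nat_lit 24,nat_lit 25,nat_lit 26,nat_lit 27,nat_lit 28,nat_lit 29,nat_lit 30,
    nat_lit 31,nat_lit 34,nat_lit 35,nat_lit 37,nat_lit 39]
    [[[nat_lit 1],[],[nat_lit 0],[],[],[],[],[],[],[],[],[],[],[]],[[],[nat_lit 3],[],[nat_lit 2],[],[],[],[],[],[],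
    [],[],[],[]],[[nat_lit 4],[],[],[],[],[],[],[],[],[],[],[],[nat_lit 5],[nat_lit 6]],[[],[nat_lit 7],[],[],[],[],
    [],[],[],[],[],[],[nat_lit 8],[nat_lit 9]],[[],[],[],[],[],[],[],[],[nat_lit 15,nat_lit 16],[],[nat_lit 12],
    [nat_lit 13,nat_lit 14],[nat_lit 10],[nat_lit 11]],[[],[],[],[],[],[],[],[],[nat_lit 22,nat_lit 23],[],
    [nat_lit 19],[nat_lit 20,nat_lit 21],[nat_lit 17],[nat_lit 18]],[[],[],[],[],[],[],[nat_lit 28,nat_lit 30],
    [nat_lit 29,nat_lit 31],[nat_lit 24,nat_lit 26],[nat_lit 25,nat_lit 27],[],[],[],[]],[[],[],[],[],[],[],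
    [nat_lit 36,nat_lit 38],[nat_lit 37,nat_lit 39],[nat_lit 32,nat_lit 34],[nat_lit 33,nat_lit 35],[],[],[],[]],[[],
    [],[],[],[],[],[nat_lit 44,nat_lit 46],[nat_lit 45,nat_lit 47],[],[],[],[],[nat_lit 40,nat_lit 42],[nat_lit 41,
    nat_lit 43]],[[],[],[],[],[nat_lit 52,nat_lit 54],[nat_lit 53,nat_lit 55],[nat_lit 48,nat_lit 50],[nat_lit 49,
    nat_lit 51],[],[],[],[],[],[]],[[],[],[],[],[nat_lit 58,nat_lit 60],[nat_lit 59,nat_lit 61],[],[],[],[],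
    [nat_lit 56,nat_lit 57],[],[],[]],[[],[],[],[],[nat_lit 66],[nat_lit 67],[],[],[],[],[nat_lit 62,nat_lit 64],
    [nat_lit 63,nat_lit 65],[],[]],[[],[],[nat_lit 68],[nat_lit 69],[nat_lit 72],[nat_lit 73],[],[],[],[nat_lit 70,
    nat_lit 71],[],[],[],[]],[[],[],[nat_lit 74],[nat_lit 75],[nat_lit 78],[nat_lit 79],[],[],[],[nat_lit 76,
    nat_lit 77],[],[],[],[]]]
    [[[nat_lit 0x100000000000000000,nat_lit 0x1000000000000000000,nat_lit 512,nat_lit 128,nat_lit 1,nat_lit 2,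
    nat_lit 0,nat_lit 0x40000,nat_lit 0],[nat_lit 0x300000,nat_lit 0,nat_lit 0,nat_lit 32,nat_lit 32,nat_lit 0,
    nat_lit 16,nat_lit 0,nat_lit 0xa000000000],[nat_lit 0xa000000000,nat_lit 0,nat_lit 0,nat_lit 0xa00000000,
    nat_lit 0,nat_lit 0,nat_lit 0x18000,nat_lit 0x18000,nat_lit 0],[nat_lit 0,nat_lit 0x1000,nat_lit 0x1000,nat_lit 0,
    nat_lit 0,nat_lit 0,nat_lit 0,nat_lit 0xa0000000000000,nat_lit 0xa0000000000000],[nat_lit 0,nat_lit 0,
    nat_lit 0xa000000000000,nat_lit 0xa000000000000,nat_lit 0x50000000,nat_lit 0x50000000,nat_lit 0,nat_lit 0,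
    nat_lit 0x5000000],[nat_lit 0x5000000,nat_lit 0,nat_lit 0,nat_lit 0,nat_lit 0,nat_lit 0x80000000000000000,
    nat_lit 0x80000000000000000,nat_lit 0,nat_lit 0],[nat_lit 0x28000000000000000,nat_lit 0x28000000000000000,
    nat_lit 0x500000000000,nat_lit 0,nat_lit 0x50000000000,nat_lit 0x50000000000,nat_lit 0,nat_lit 0,nat_lit 0],
    [nat_lit 0,nat_lit 0x8000000000000000000,nat_lit 0x8000000000000000000,nat_lit 0x30000000000000000000,
    nat_lit 0x30000000000000000000,nat_lit 0x1400000000000000,nat_lit 0,nat_lit 0,nat_lit 0],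
    [nat_lit 0x300000000000000,nat_lit 0x300000000000000,nat_lit 0,nat_lit 8,nat_lit 0,nat_lit 4,nat_lit 0,
    nat_lit 0]]]
    []
    (nat_lit 0) (nat_lit 6) (nat_lit 6)
    [[nat_lit 2,nat_lit 258,nat_lit 17,nat_lit 0x1011,nat_lit 0x100011,nat_lit 257,nat_lit 0x100101,nat_lit 0x10101,
    nat_lit 0x1001,nat_lit 0x101001,nat_lit 0x10001,nat_lit 0x100001],[nat_lit 32,nat_lit 272,nat_lit 0x10110,
    nat_lit 0x100110,nat_lit 0x1010,nat_lit 0x11010,nat_lit 0x101010,nat_lit 0x10010,nat_lit 0x20010,nat_lit 0x110010,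
    nat_lit 0x100010,nat_lit 0x120010,nat_lit 0x210010,nat_lit 0x200010,nat_lit 0x1100010,nat_lit 0x1110010],
    [nat_lit 512,nat_lit 768,nat_lit 0x10200,nat_lit 0x100200,nat_lit 0x1200,nat_lit 0x20200,nat_lit 0x1100,
    nat_lit 0x11100,nat_lit 0x101100,nat_lit 0x10100,nat_lit 0x20100,nat_lit 0x30100,nat_lit 0x110100,
    nat_lit 0x120100,nat_lit 0x100100,nat_lit 0x1100100,nat_lit 0x1110100,nat_lit 0x1000100],[nat_lit 0x2000,
    nat_lit 0x1002000,nat_lit 0x102000,nat_lit 0x11000,nat_lit 0x21000,nat_lit 0x31000,nat_lit 0x1021000,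
    nat_lit 0x111000,nat_lit 0x1011000,nat_lit 0x121000,nat_lit 0x1111000,nat_lit 0x101000,nat_lit 0x201000,
    nat_lit 0x1101000,nat_lit 0x1001000,nat_lit 0x2001000],[nat_lit 0x20000,nat_lit 0x30000,nat_lit 0x40000,
    nat_lit 0x130000,nat_lit 0x1030000,nat_lit 0x120000,nat_lit 0x1120000,nat_lit 0x1020000,nat_lit 0x1130000,
    nat_lit 0x2120000,nat_lit 0x2020000,nat_lit 0x110000,nat_lit 0x220000,nat_lit 0x210000,nat_lit 0x1210000,
    nat_lit 0x1110000,nat_lit 0x2110000,nat_lit 0x1010000,nat_lit 0x2010000],[nat_lit 0x200000,nat_lit 0x1200000,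
    nat_lit 0x1100000,nat_lit 0x2100000],[nat_lit 0x2000000]]
    [.c (nat_lit 1) (nat_lit 2),.c (nat_lit 4) (nat_lit 0x4300c02),.c (nat_lit 0) (nat_lit 0x10803),
    .c (nat_lit 6) (nat_lit 0x4020805),.c (nat_lit 4) (nat_lit 0x4020805),.c (nat_lit 0) (nat_lit 0x6028085),
    .c (nat_lit 4) (nat_lit 0x4500c04),.c (nat_lit 0) (nat_lit 0x6028885),.c (nat_lit 0) (nat_lit 0x4528889),
    .c (nat_lit 2) (nat_lit 0x4020805),.c (nat_lit 0) (nat_lit 0x6028085),.c (nat_lit 0) (nat_lit 0x200805),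
    .c (nat_lit 2) (nat_lit 2),.r (nat_lit 0x1d1f) (nat_lit 1) [nat_lit 0xc4200062,nat_lit 0x86200042],
    .c (nat_lit 2) (nat_lit 0x40408a4),.r (nat_lit 0x1b5d) (nat_lit 1) [nat_lit 0x6000041,nat_lit 0x4200061,
    nat_lit 0x4000001],.r (nat_lit 0x1d1f) (nat_lit 1) [nat_lit 0x200061,nat_lit 65],
    .r (nat_lit 0x1b36) (nat_lit 3) [nat_lit 0x8a5190a2,nat_lit 0xc8411502,nat_lit 0x200001],
    .c (nat_lit 1) (nat_lit 0x4020805),.r (nat_lit 32) (nat_lit 9) [nat_lit 0x8a0110a4,nat_lit 65],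
    .r (nat_lit 0xdbd) (nat_lit 7) [nat_lit 0x88811441,nat_lit 0x800001,nat_lit 0x420001,nat_lit 0x14112a0a1],
    .r (nat_lit 0x1cdb) (nat_lit 1) [nat_lit 0x200061,nat_lit 65],.r (nat_lit 32) (nat_lit 9) [nat_lit 0x804100a2,
    nat_lit 0xca919102],.r (nat_lit 0x6ef) (nat_lit 3) [nat_lit 0x14b12a101,nat_lit 0xca919101,nat_lit 0x88c31522,
    nat_lit 0x88c11521,nat_lit 0x888114a1],.c (nat_lit 4) (nat_lit 0xc500c85),.c (nat_lit 4) (nat_lit 0x4010003),
    .c (nat_lit 0) (nat_lit 0x328004),.c (nat_lit 0) (nat_lit 0x6568c88),.c (nat_lit 3) (nat_lit 2),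
    .r (nat_lit 0xe1d) (nat_lit 6) [nat_lit 0x18e030042,nat_lit 65,nat_lit 0x600001,nat_lit 0xc000062],
    .r (nat_lit 0x1d1f) (nat_lit 1) [nat_lit 0x1c85190a4,nat_lit 0x18ac11484],
    .r (nat_lit 0xe1d) (nat_lit 6) [nat_lit 0x192030082,nat_lit 0x6000081,nat_lit 0x600001,nat_lit 0x8000061],
    .r (nat_lit 0x6f0) (nat_lit 11) [nat_lit 0x148000101,nat_lit 0xc4010081,nat_lit 0x10a400121,nat_lit 129,
    nat_lit 0x8a519121],.c (nat_lit 2) (nat_lit 0x40408a2),.r (nat_lit 0x1bec) (nat_lit 10) [nat_lit 65,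
    nat_lit 0x200001],.r (nat_lit 0x1d1f) (nat_lit 1) [nat_lit 0xc05190a2,nat_lit 0x80811482],
    .r (nat_lit 0x1ca9) (nat_lit 7) [nat_lit 0x6000041,nat_lit 0x300861,nat_lit 0x4000001],
    .c (nat_lit 0) (nat_lit 0x6028885),.r (nat_lit 32) (nat_lit 9) [nat_lit 0x6501062,nat_lit 0x80811482],
    .r (nat_lit 0xdbd) (nat_lit 7) [nat_lit 0x191833482,nat_lit 0x800001,nat_lit 0x420001,nat_lit 0x1c193b0a1],
    .r (nat_lit 32) (nat_lit 9) [nat_lit 0x300861,nat_lit 0x8a811502],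
    .r (nat_lit 0x1cdb) (nat_lit 1) [nat_lit 0xc05190a2,nat_lit 0x80811482],.c (nat_lit 0) (nat_lit 0x200005),
    .r (nat_lit 32) (nat_lit 9) [nat_lit 0x8a010082,nat_lit 0xc8019122],.c (nat_lit 0) (nat_lit 0x43208a4),
    .c (nat_lit 4) (nat_lit 0x4300002),.c (nat_lit 4) (nat_lit 2),.r (nat_lit 32) (nat_lit 9) [nat_lit 0x10042,
    nat_lit 0x8a0190a2],.r (nat_lit 32) (nat_lit 9) [nat_lit 0xc0010082,nat_lit 0x18a019122],
    .c (nat_lit 0) (nat_lit 0x4528c85),.r (nat_lit 0x1cdb) (nat_lit 9) [nat_lit 0x4611441,nat_lit 0x6519061],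
    .r (nat_lit 0x6f1) (nat_lit 8) [nat_lit 0x119633481,nat_lit 0xce711861,nat_lit 0x15ad3b0a1,nat_lit 0xc8411502,
    nat_lit 0x19ad3b0a2],.r (nat_lit 0x1bec) (nat_lit 10) [nat_lit 0x6519061,nat_lit 0x200001],
    .r (nat_lit 0x1ca9) (nat_lit 7) [nat_lit 0x8a5190a2,nat_lit 0xc0010082,nat_lit 0x4000001],
    .r (nat_lit 0x1d1f) (nat_lit 1) [nat_lit 0xc8411482,nat_lit 0x8a0190a2],
    .r (nat_lit 0x6f2) (nat_lit 4) [nat_lit 0x1d0822481,nat_lit 0xc8411441,nat_lit 0x8a519002,nat_lit 0x10e92a0a1,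
    nat_lit 0x19272a0a1],.r (nat_lit 0x6f3) (nat_lit 4) [nat_lit 0x8411481,nat_lit 0xdad3b122,nat_lit 0x88411482,
    nat_lit 0x4000001,nat_lit 0xa3190a1],.c (nat_lit 1) (nat_lit 0x6000804),
    .r (nat_lit 0x1d1f) (nat_lit 1) [nat_lit 0xc0000041,nat_lit 0x80200061],
    .r (nat_lit 0x6f4) (nat_lit 5) [nat_lit 0x19ad3b002,nat_lit 0x14c0000a1,nat_lit 0x806000a1,nat_lit 0xc0030082,
    nat_lit 0xc0000081],.r (nat_lit 0x1b36) (nat_lit 3) [nat_lit 0x300041,nat_lit 0x8a419122,nat_lit 0x200001],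
    .r (nat_lit 0x6f5) (nat_lit 4) [nat_lit 0x400001,nat_lit 0x80a000a1,nat_lit 0x8ac19121,nat_lit 0x900081,
    nat_lit 0x149500101],.c (nat_lit 5) (nat_lit 2),.r (nat_lit 0x1cdb) (nat_lit 9) [nat_lit 0x89433484,
    nat_lit 0xcad3b0a4],.r (nat_lit 0x6f6) (nat_lit 8) [nat_lit 0x111022441,nat_lit 0x152922062,nat_lit 0x15292a061,
    nat_lit 65,nat_lit 0x11292a062],.r (nat_lit 0x6f7) (nat_lit 4) [nat_lit 0x258c33481,nat_lit 0x1d8c33482,
    nat_lit 0x8a519002,nat_lit 0x196d3b0a1,nat_lit 0x21ab3b0a1],.r (nat_lit 0x1189) (nat_lit 0) [nat_lit 0x199c73484,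
    nat_lit 0x600001,nat_lit 0x1c111b0a2,nat_lit 0x19a51b0a4],.r (nat_lit 0x193d) (nat_lit 0) [nat_lit 65,
    nat_lit 0x200001,nat_lit 0x8a519061,nat_lit 0xc0519061],.r (nat_lit 0x6f9) (nat_lit 4) [nat_lit 0x15292a0a1,
    nat_lit 0x88411481,nat_lit 0xa519061,nat_lit 0x8000001,nat_lit 0x110c22481],
    .r (nat_lit 0x1ca9) (nat_lit 7) [nat_lit 0xa519062,nat_lit 0x10042,nat_lit 0x4000001],
    .r (nat_lit 0x6fa) (nat_lit 4) [nat_lit 0x258c33481,nat_lit 0xd8c33482,nat_lit 0x19ad3b002,nat_lit 0x8ed3b0a1,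
    nat_lit 0x21a73b0a1],.r (nat_lit 0x6fb) (nat_lit 4) [nat_lit 0x1d0822481,nat_lit 0x88411441,nat_lit 0x2ab55d002,
    nat_lit 0x14492a0a1,nat_lit 0x19222a0a1],.c (nat_lit 3) (nat_lit 0x6028c83),
    .r (nat_lit 0x1bec) (nat_lit 5) [nat_lit 65,nat_lit 0x200001],.r (nat_lit 0x1189) (nat_lit 0) [nat_lit 0x88c31442,
    nat_lit 0x600001,nat_lit 0xc4701061,nat_lit 0x10a001062],.r (nat_lit 0x1ca9) (nat_lit 7) [nat_lit 0x8a5190a4,
    nat_lit 0xca511084,nat_lit 0x4000001],.c (nat_lit 3) (nat_lit 0x6428c85),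
    .r (nat_lit 0xe1d) (nat_lit 6) [nat_lit 0x86310861,nat_lit 0xc45190a1,nat_lit 0x600001,nat_lit 0x88411482],
    .r (nat_lit 0x6fc) (nat_lit 4) [nat_lit 0x88411481,nat_lit 0x15292a0a1,nat_lit 0x188411482,nat_lit 0x8000001,
    nat_lit 0xca0190a1],.c (nat_lit 6) (nat_lit 0x44208a4),.r (nat_lit 0x1d1f) (nat_lit 1) [nat_lit 0xc8411484,
    nat_lit 0x8a4190a4],.c (nat_lit 6) (nat_lit 2),.r (nat_lit 0x1d1f) (nat_lit 1) [nat_lit 0xc0000042,
    nat_lit 0x80400062],.r (nat_lit 0x1b5d) (nat_lit 1) [nat_lit 0x200061,nat_lit 65,nat_lit 0x4000001],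
    .r (nat_lit 0x6fd) (nat_lit 4) [nat_lit 0x400001,nat_lit 0x900081,nat_lit 0xcb919101,nat_lit 0x80a000a1,
    nat_lit 0x9000121],.c (nat_lit 7) (nat_lit 2)]]

/-- nodes -/
noncomputable def rD7k_25_39 : List RJ :=
  [.l (nat_lit 13) (nat_lit 0x690) (nat_lit 3) (nat_lit 0x285000002cb0000030b0000029f0000030700000307000002e2000002e2000002f3000003480000035c0000028f000002710000027b) (nat_lit 0x91000000d7000000bd0000005100000055000000550000007a0000007a0000001400000069000000cd00000000000000e1000000eb)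
    (nat_lit 0x13d06903902560f708c041621313886d03483480d206904e427a13909e84ec2761288a6c55c2620ff06903901b413d095849c282136094852229120f0a884d43140d208804e41c80e9093849424a10188747dc27211b076037c1b413b08c049425215d0b084a228d1dd0b004741a411306e04ec1ee12509b05642ba1468a347a02d611d06f843c1b014d884c43a2911468a3446026820b89e450220512187dc4a220b1018a4451a25113408c082e27912f8b9c4d221d13106d04e42a216b0b004f227916d0a284001aa10906f855c2711f710787a03ba20b905c6682da13d8d203481a40d20d203b03140df06905ce2051a406a869035c13d89c43fc1a411b09a847423a12f8a044f62000d20d203481a40da06903682200d806e043a1f70d206f83482710d206903901a40df069043c226134890c3482120d209ec3481a4)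
    (nat_lit 0x13d1a40d206903481a40d206903481a40d206903481a4034827a3481a40d206903481a40d206903481a40d206900e409c849c6903481a40d206903481a40d206903481a404ac27a1410938d206903481a40d206903481a40d206900f709d84d824a15d1a40d206903481a40d206903481a4046027612909285842ba3481a40d206903481a40d2069010589445222031288a344606903481a40d206903481a4042629b148887451a28d13408c0d206903481a40d206901388ab883c3ee1dd0f4082e41716d1a40d206903481a4036826215109c85802d613c89e45142da3481a40d206900d207f84d423611d08e850225f10009ec6906903481a406901a418a07603481be1028b9c3543481ae0d20d206900d207203481be113087848626910906904f61a40d21a403481b411006d03701b00fb887437c1a413886903481a4)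
    (nat_lit 4) (nat_lit 83)
    [[nat_lit 2,nat_lit 3,nat_lit 18,nat_lit 258,nat_lit 0x1002,nat_lit 0x10002,nat_lit 0x100002,nat_lit 0x1000002,
    nat_lit 17,nat_lit 273,nat_lit 0x10011,nat_lit 0x1000011,nat_lit 0x1011,nat_lit 0x100011,nat_lit 257,
    nat_lit 0x1000101,nat_lit 513,nat_lit 0x1101,nat_lit 0x10101,nat_lit 0x100101,nat_lit 0x1001,nat_lit 0x11001,
    nat_lit 0x101001,nat_lit 0x1001001,nat_lit 0x10001,nat_lit 0x110001,nat_lit 0x1010001,nat_lit 0x100001,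
    nat_lit 0x200001,nat_lit 0x1100001,nat_lit 0x1000001,nat_lit 0x2000001],[nat_lit 32,nat_lit 0x10020,nat_lit 272,
    nat_lit 0x1000110,nat_lit 0x1010,nat_lit 0x1001010,nat_lit 0x10010,nat_lit 0x110010,nat_lit 0x1010010,
    nat_lit 0x100010,nat_lit 0x101010,nat_lit 0x1100010,nat_lit 0x1000010,nat_lit 0x2000010],[nat_lit 512,
    nat_lit 0x1000100],[nat_lit 0x2000,nat_lit 0x11000,nat_lit 0x101000,nat_lit 0x1001000],[nat_lit 0x20000,
    nat_lit 0x110000,nat_lit 0x1010000],[nat_lit 0x200000,nat_lit 0x1100000],[nat_lit 0x2000000]]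
    [.c (nat_lit 1) (nat_lit 2),.r (nat_lit 0x7e2) (nat_lit 2) [nat_lit 33,nat_lit 0x6667721,nat_lit 0xd776c51,
    nat_lit 0x77dcc51,nat_lit 0xc6c7d41],.r (nat_lit 0x7e3) (nat_lit 11) [nat_lit 0x3333221,nat_lit 65,
    nat_lit 0x3223271,nat_lit 0x4400091,nat_lit 0x2322361],.r (nat_lit 0x109c) (nat_lit 6) [nat_lit 0x2200001,
    nat_lit 33,nat_lit 0x5333431,nat_lit 0x20001],.r (nat_lit 0x1ced) (nat_lit 0) [nat_lit 0x3350432,
    nat_lit 0x2200022,nat_lit 0x2020301],.r (nat_lit 0x7e4) (nat_lit 11) [nat_lit 0x5355421,nat_lit 0x3233241,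
    nat_lit 0x60071,nat_lit 0xa244591,nat_lit 97],.r (nat_lit 0x1cdb) (nat_lit 0) [nat_lit 0x4240521,
    nat_lit 0x5330431],.r (nat_lit 0x1cdb) (nat_lit 0) [nat_lit 0x4242521,nat_lit 0x5333431],
    .r (nat_lit 2) (nat_lit 1) [nat_lit 0x3003231,nat_lit 33],.c (nat_lit 6) (nat_lit 0x300023),
    .r (nat_lit 0x1cdb) (nat_lit 8) [nat_lit 0x20031,nat_lit 33],.c (nat_lit 3) (nat_lit 0x300323),
    .r (nat_lit 0x1ced) (nat_lit 0) [nat_lit 0x30231,nat_lit 33,nat_lit 0x2020301],.c (nat_lit 3) (nat_lit 0x300023),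
    .r (nat_lit 0x1d1f) (nat_lit 4) [nat_lit 0x30021,nat_lit 0x20001],.c (nat_lit 2) (nat_lit 0x300323),
    .c (nat_lit 2) (nat_lit 0x322323),.r (nat_lit 0x14ea) (nat_lit 13) [nat_lit 0x7570831,nat_lit 0x4040051,
    nat_lit 0x4050041,nat_lit 0x5040041],.c (nat_lit 0) (nat_lit 0x3002),.c (nat_lit 2) (nat_lit 0x300023),
    .r (nat_lit 0x1d07) (nat_lit 10) [nat_lit 0x20001,nat_lit 33],.r (nat_lit 0x7e6) (nat_lit 1) [nat_lit 0x2002031,
    nat_lit 0xa244571,nat_lit 0xb355481,nat_lit 0xb335461,nat_lit 0x6222351],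
    .r (nat_lit 0x1d1f) (nat_lit 4) [nat_lit 0x3003021,nat_lit 0x20001],
    .r (nat_lit 0x1d1f) (nat_lit 4) [nat_lit 0x3000021,nat_lit 0x20001],
    .r (nat_lit 0x1cec) (nat_lit 13) [nat_lit 0x20031,nat_lit 33,nat_lit 0x2220301],
    .r (nat_lit 0x7e7) (nat_lit 11) [nat_lit 0x5350451,nat_lit 0x4243561,nat_lit 0x3030231,nat_lit 0x20001,
    nat_lit 0x6240541],.r (nat_lit 0x7e7) (nat_lit 11) [nat_lit 0x5355451,nat_lit 0x4244561,nat_lit 0x3033231,
    nat_lit 0x20001,nat_lit 0x6244541],.c (nat_lit 0) (nat_lit 0x533045),.c (nat_lit 2) (nat_lit 0x222332),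
    .c (nat_lit 2) (nat_lit 0x222032),.c (nat_lit 0) (nat_lit 0x533545),.c (nat_lit 2) (nat_lit 0x222232),
    .c (nat_lit 2) (nat_lit 2),.r (nat_lit 0x1bdf) (nat_lit 13) [nat_lit 0x2220031,nat_lit 0x2220301],
    .r (nat_lit 0x174e) (nat_lit 1) [nat_lit 0x3223251,nat_lit 0x330041],.c (nat_lit 1) (nat_lit 0x300323),
    .c (nat_lit 0) (nat_lit 0x220003),.r (nat_lit 0x174e) (nat_lit 1) [nat_lit 0x2233251,nat_lit 0x5320041],
    .r (nat_lit 0x1c51) (nat_lit 13) [nat_lit 0x2220301,nat_lit 0x2240331,nat_lit 0x3330221],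
    .r (nat_lit 0x1cf6) (nat_lit 2) [nat_lit 0x6204051,nat_lit 0x20001,nat_lit 0x375041],
    .r (nat_lit 0x1cf6) (nat_lit 2) [nat_lit 0x6200051,nat_lit 0x20001,nat_lit 0x370041],
    .c (nat_lit 0) (nat_lit 0x225449),.r (nat_lit 0x174e) (nat_lit 1) [nat_lit 0x2232251,nat_lit 0x5325041],
    .r (nat_lit 0x14ec) (nat_lit 5) [nat_lit 0xa284941,nat_lit 0xb305851,nat_lit 0x4400001,nat_lit 0x3395851],
    .c (nat_lit 0) (nat_lit 0x225549),.r (nat_lit 0x14ec) (nat_lit 5) [nat_lit 0xa288941,nat_lit 0xb309851,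
    nat_lit 0x4400001,nat_lit 0x3399851],.c (nat_lit 3) (nat_lit 2),
    .r (nat_lit 0x174e) (nat_lit 1) [nat_lit 0x3003231,nat_lit 33],.c (nat_lit 4) (nat_lit 2),
    .c (nat_lit 0) (nat_lit 0x200203),.c (nat_lit 0) (nat_lit 0x203203),.c (nat_lit 0) (nat_lit 0x203003),
    .c (nat_lit 5) (nat_lit 2),.c (nat_lit 2) (nat_lit 0x20302),.c (nat_lit 2) (nat_lit 0x20002),
    .c (nat_lit 6) (nat_lit 2),.c (nat_lit 6) (nat_lit 514),.c (nat_lit 7) (nat_lit 2)],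
    .l (nat_lit 11) (nat_lit 480) (nat_lit 4) (nat_lit 0xbe000000be000000b8000000b8000000ba000000ba000000c0000000c0000000d4000000ca000000ba000000be000000c1000000c1) (nat_lit 0x16000000160000001c0000001c0000001a0000001a00000014000000140000000a00000000000000160000001a0000001300000013)
    (nat_lit 0x1502a0550a21402a0230aa1680f0560981562ac540a8134288520981542a85c0be1502a05589f1442885409c13c298520a41542e05709a14a2944d0aa1382a05309e150270570b814c278508a51302a04f0a61502805309e1602d8520a013e28c520a014c278500a814c298580ba140280538a71542a84e0a414c278560ac16c300550a61622c455046150290530a61582b0460c009c1f09792f17c0f05c0b81742d8600c01e83501e0e424a4745c0b415c2a8580b01182d8600f41682c0618bb1502604f09a1402803e0a6160390500a014e29c540ac14c2b8500a409c2a85a03c150280558ab13e2ac528a514e28c978b1176474558a71542b8558ab1422945389f25e2c46192515629c570aa)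
    (nat_lit 0x150780f01e03c0780f01e03c0780f01e03c0780540a83c0780f01e03c0780f01e03c0780f01e0154268541e03c0780f01e03c0780f01e03c0780510a21382a0f01e03c0780f01e03c0780f01e01402904f0a6150780f01e03c0780f01e03c07805409814c278500a83c0780f01e03c0780f01e008c2a8520a814c298561e03c0780f01e03c0780550aa1482704f0a61582b0f01e03c0780f01e01682e0550ae1602c05b08c1e8780f01e03c07801e0be1702e05b0ba1803006a0f43c0780f01e01582a0570a61482805504e0782d0501e03c07804c0a8134278500a014c1f06e0b0140280f01e01562ac528a113e29c588f11c630c538ab1547805589f14a294518a71623946d8bb14e2ac570aa)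
    (nat_lit 3) (nat_lit 43)
    [[nat_lit 2,nat_lit 17,nat_lit 273,nat_lit 0x1011,nat_lit 0x1000101,nat_lit 0x1001001,nat_lit 0x10001,
    nat_lit 0x1010001,nat_lit 0x100001,nat_lit 0x1000001],[nat_lit 32,nat_lit 288,nat_lit 0x1020,nat_lit 272,
    nat_lit 544,nat_lit 0x1110,nat_lit 0x10110,nat_lit 0x100110,nat_lit 0x1000110,nat_lit 0x1010,nat_lit 0x2010,
    nat_lit 0x1001010,nat_lit 0x11010,nat_lit 0x101010,nat_lit 0x10010,nat_lit 0x110010,nat_lit 0x1010010,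
    nat_lit 0x100010,nat_lit 0x1000010],[nat_lit 512,nat_lit 0x1000200,nat_lit 0x1100,nat_lit 0x1001100,
    nat_lit 0x10100,nat_lit 0x1010100,nat_lit 0x100100,nat_lit 0x1100100,nat_lit 0x1000100,nat_lit 0x2000100],
    [nat_lit 0x2000,nat_lit 0x1002000,nat_lit 0x11000,nat_lit 0x101000,nat_lit 0x1001000,nat_lit 0x1011000,
    nat_lit 0x1101000,nat_lit 0x2001000],[nat_lit 0x20000,nat_lit 0x110000,nat_lit 0x1010000],[nat_lit 0x200000,
    nat_lit 0x1100000],[nat_lit 0x2000000]]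
    [.c (nat_lit 1) (nat_lit 2),.r (nat_lit 0x1caf) (nat_lit 11) [nat_lit 0x10402,nat_lit 0x611],
    .c (nat_lit 0) (nat_lit 0x6c4),.c (nat_lit 0) (nat_lit 0x30c4),.c (nat_lit 0) (nat_lit 0x6c4),
    .c (nat_lit 0) (nat_lit 0x30c4),.r (nat_lit 0x1b36) (nat_lit 6) [nat_lit 0x3622,nat_lit 0x2001,nat_lit 0x2402],
    .c (nat_lit 2) (nat_lit 0x3625),.r (nat_lit 0x1d1f) (nat_lit 5) [nat_lit 0x3622,nat_lit 0x2402],
    .r (nat_lit 32) (nat_lit 3) [nat_lit 0x1b12a,nat_lit 0x10402],.c (nat_lit 2) (nat_lit 2),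
    .r (nat_lit 0x1c25) (nat_lit 0) [nat_lit 0x10402,nat_lit 0x2402,nat_lit 0x3622],
    .r (nat_lit 0x1c25) (nat_lit 0) [nat_lit 0x10402,nat_lit 0x2402,nat_lit 0x18622],
    .r (nat_lit 0x174f) (nat_lit 4) [nat_lit 0x10402,nat_lit 17],.r (nat_lit 0x174e) (nat_lit 4) [nat_lit 18,
    nat_lit 0x10402],.r (nat_lit 0x1c51) (nat_lit 7) [nat_lit 0x10562,nat_lit 0x2562,nat_lit 153],
    .r (nat_lit 0x1cba) (nat_lit 10) [nat_lit 0x1a002,nat_lit 0x1872a,nat_lit 0x10402],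
    .r (nat_lit 0x1caf) (nat_lit 11) [nat_lit 0x10402,nat_lit 0x3622],.r (nat_lit 8) (nat_lit 8) [nat_lit 0x1872a,
    nat_lit 0x2402],.r (nat_lit 0x174f) (nat_lit 4) [nat_lit 0x10402,nat_lit 0x1a022],
    .r (nat_lit 0x1c51) (nat_lit 7) [nat_lit 0x2562,nat_lit 0x1c562,nat_lit 0x1312a],
    .r (nat_lit 8) (nat_lit 8) [nat_lit 0x372a,nat_lit 0x2402],.r (nat_lit 0x1cba) (nat_lit 10) [nat_lit 0x1a002,
    nat_lit 0x372a,nat_lit 0x10402],.r (nat_lit 0x1caf) (nat_lit 11) [nat_lit 0x10402,nat_lit 0x18622],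
    .c (nat_lit 0) (nat_lit 0x36e5),.r (nat_lit 32) (nat_lit 12) [nat_lit 0x1872a,nat_lit 0x10402],
    .c (nat_lit 1) (nat_lit 0x3625),.r (nat_lit 0x1d07) (nat_lit 12) [nat_lit 0x2402,nat_lit 17],
    .c (nat_lit 0) (nat_lit 0x36e5),.c (nat_lit 3) (nat_lit 2),.r (nat_lit 0x1c06) (nat_lit 10) [nat_lit 0x1a002,
    nat_lit 0x10402,nat_lit 0x13011],.c (nat_lit 1) (nat_lit 0x2505),
    .r (nat_lit 0x1c06) (nat_lit 10) [nat_lit 0x1a002,nat_lit 0x10402,nat_lit 0x13022],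
    .r (nat_lit 0x1d07) (nat_lit 10) [nat_lit 17,nat_lit 0x10402],.r (nat_lit 0x1b6e) (nat_lit 4) [nat_lit 0x1872a,
    nat_lit 0x242a,nat_lit 17],.c (nat_lit 0) (nat_lit 0x403),.r (nat_lit 32) (nat_lit 3) [nat_lit 0x1872a,
    nat_lit 0x10402],.r (nat_lit 0) (nat_lit 6) [nat_lit 17,nat_lit 0x10402],
    .r (nat_lit 0x1d0e) (nat_lit 10) [nat_lit 0x1a002,nat_lit 0x10402,nat_lit 0x13022],.c (nat_lit 4) (nat_lit 2),
    .r (nat_lit 0x1c06) (nat_lit 10) [nat_lit 0x1a002,nat_lit 0x10402,nat_lit 17],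
    .r (nat_lit 0x1d07) (nat_lit 10) [nat_lit 0x1a022,nat_lit 0x10402],.c (nat_lit 0) (nat_lit 0x2003),
    .r (nat_lit 0) (nat_lit 6) [nat_lit 0x1a022,nat_lit 0x10402],.r (nat_lit 0x1b6e) (nat_lit 4) [nat_lit 0x372a,
    nat_lit 0x1042a,nat_lit 0x1a022],.r (nat_lit 32) (nat_lit 3) [nat_lit 0x372a,nat_lit 0x10402],
    .r (nat_lit 0x1d0e) (nat_lit 10) [nat_lit 0x1a002,nat_lit 0x10402,nat_lit 17],.c (nat_lit 5) (nat_lit 2),
    .r (nat_lit 0x1750) (nat_lit 6) [nat_lit 17,nat_lit 0x2402],.c (nat_lit 0) (nat_lit 0x36e5),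
    .c (nat_lit 6) (nat_lit 2),.r (nat_lit 0x1b04) (nat_lit 1) [nat_lit 17,nat_lit 0x10402],
    .c (nat_lit 7) (nat_lit 2)],
    .l (nat_lit 13) (nat_lit 0x780) (nat_lit 3) (nat_lit 0x2fd000002fd000002c1000002c1000002c1000002c10000029d000002d90000031a0000031a000002ee000002ee000002f1000002f1) (nat_lit 0x1d0000001d00000059000000590000005900000059000000410000007d00000000000000000000002c0000002c0000002900000029)
    (nat_lit 0x1880b805782a41520af028028017e8bf463218716a0b505c031012e0a9054825c15e0a0064237f1748b445a82c21520a905602681340ac03fc2441608b0454e2711340a004b82bc1340ac056026814007f05822c114a8a5450029812e0af04d02b015809a05001fc1608b0452a2951400a605482a415809a04d02b00ff091055627d15389c45302b01400a003f824412207f05402201608c7c4b228713a098857814014007f83fc2801600a8060e2d912c8c1c5602b01bf8bf45822c113e8b045b231f1600bc85dc2c02368d146422fd1608b045562c11838b0461c2c01770bb8876313168861c52a2711388a5460e2871770b005402ce1628b145d231914a8a9c54e29512c89645dc2ee1610a8058a2c51610b505302801580a605602621898d1458a2c51400b205a82d414009a053028015809d087646d1628b14590280)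
    (nat_lit 0x1881e00f007803c01e00f007803c01e00f007803c01e005c03103c01e00f007803c01e00f007803c01e00f0078015e09705607803c01e00f007803c01e00f007803c01e005482a41340ac0f007803c01e00f007803c01e00f007801520a904d02b01581e00f007803c01e00f007803c01e0057825c15809a04d02b03c01e00f007803c01e00f007800a00af03fc28014007f85407803c01e00f007803c01e0050028012207f03f82441100a80f007803c01e00f0078017e8c845822c11608aac5823071601e00f007803c01e005fa37f1608b0458227d18f8b645e42c03c01e00f0078018c8ba454e29514a8a9c4b22591770bb85407803c01e0030e2d11388a5452a2711438c1c5802ee1670a80f0078016a0b504d02801400a604e82b023690ec58a2c51401e005a82c21400a605302b01310ac068a3131628b14590280)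
    (nat_lit 4) (nat_lit 43)
    [[nat_lit 2,nat_lit 17,nat_lit 0x1000011,nat_lit 0x1001,nat_lit 0x11001,nat_lit 0x101001,nat_lit 0x1001001,
    nat_lit 0x10001,nat_lit 0x100001,nat_lit 0x200001,nat_lit 0x1000001],[nat_lit 32,nat_lit 0x1000020,nat_lit 272,
    nat_lit 0x1010,nat_lit 0x11010,nat_lit 0x101010,nat_lit 0x1001010,nat_lit 0x10010,nat_lit 0x1010010,
    nat_lit 0x100010,nat_lit 0x1100010,nat_lit 0x1000010],[nat_lit 512,nat_lit 0x1100,nat_lit 0x10100,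
    nat_lit 0x100100,nat_lit 0x1000100],[nat_lit 0x2000,nat_lit 0x12000,nat_lit 0x102000,nat_lit 0x1002000,
    nat_lit 0x11000,nat_lit 0x21000,nat_lit 0x111000,nat_lit 0x1011000,nat_lit 0x101000,nat_lit 0x201000,
    nat_lit 0x1101000,nat_lit 0x1001000,nat_lit 0x2001000],[nat_lit 0x20000,nat_lit 0x110000,nat_lit 0x1010000],
    [nat_lit 0x200000,nat_lit 0x1100000],[nat_lit 0x2000000]]
    [.c (nat_lit 1) (nat_lit 2),.r (nat_lit 0x1ae0) (nat_lit 4) [nat_lit 0x303231,nat_lit 0x23001,nat_lit 0x32021],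
    .c (nat_lit 5) (nat_lit 0x30023),.r (nat_lit 0x1d24) (nat_lit 4) [nat_lit 0x20021,nat_lit 0x420031,
    nat_lit 0x30021],.c (nat_lit 1) (nat_lit 0x2302),.c (nat_lit 1) (nat_lit 0x2002),
    .r (nat_lit 0x1d21) (nat_lit 4) [nat_lit 0x2001,nat_lit 0x20021,nat_lit 0x420031,nat_lit 0x30021],
    .r (nat_lit 0x1b32) (nat_lit 12) [nat_lit 0x300231,nat_lit 0x303021,nat_lit 0x200001],
    .r (nat_lit 0x1b32) (nat_lit 12) [nat_lit 0x303231,nat_lit 0x300021,nat_lit 0x200001],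
    .r (nat_lit 0x177d) (nat_lit 0) [nat_lit 0x2001,nat_lit 0x220031,nat_lit 33,nat_lit 0x30021],
    .r (nat_lit 2) (nat_lit 5) [nat_lit 0x303231,nat_lit 33],.c (nat_lit 2) (nat_lit 2),
    .r (nat_lit 0x17d9) (nat_lit 0) [nat_lit 0x2001,nat_lit 33,nat_lit 0x555431,nat_lit 0x844521],
    .r (nat_lit 0x1b80) (nat_lit 13) [nat_lit 0x330021,nat_lit 0x220001,nat_lit 0x30001],
    .r (nat_lit 0x1bb2) (nat_lit 7) [nat_lit 0x220001,nat_lit 0x32001,nat_lit 0x330231],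
    .r (nat_lit 0x1ae0) (nat_lit 4) [nat_lit 0x330231,nat_lit 0x23001,nat_lit 33],
    .r (nat_lit 0x1ae0) (nat_lit 4) [nat_lit 0x333231,nat_lit 0x23001,nat_lit 0x2021],
    .r (nat_lit 8) (nat_lit 8) [nat_lit 0x330231,nat_lit 0x220001],.r (nat_lit 0x174e) (nat_lit 5) [nat_lit 0x300231,
    nat_lit 0x3021],.c (nat_lit 1) (nat_lit 0x30023),.r (nat_lit 0x174e) (nat_lit 5) [nat_lit 0x303231,nat_lit 33],
    .c (nat_lit 1) (nat_lit 0x30323),.r (nat_lit 0x1bab) (nat_lit 6) [nat_lit 0x530231,nat_lit 33,nat_lit 0x220001],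
    .c (nat_lit 3) (nat_lit 2),.c (nat_lit 0) (nat_lit 0x20203),.c (nat_lit 0) (nat_lit 0x20203),
    .c (nat_lit 0) (nat_lit 0x20003),.r (nat_lit 0x1c46) (nat_lit 1) [nat_lit 0x2001,nat_lit 0x300021,nat_lit 0x20001,
    nat_lit 0x200001],.c (nat_lit 4) (nat_lit 2),.r (nat_lit 0x1d24) (nat_lit 4) [nat_lit 0x43021,nat_lit 0x402031,
    nat_lit 0x3021],.r (nat_lit 0x1d24) (nat_lit 4) [nat_lit 0x40021,nat_lit 0x400031,nat_lit 33],
    .r (nat_lit 0x1b1d) (nat_lit 11) [nat_lit 33,nat_lit 0x220001,nat_lit 0x50031,nat_lit 0x54031],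
    .c (nat_lit 0) (nat_lit 0x3203),.r (nat_lit 0x1b32) (nat_lit 12) [nat_lit 0x332231,nat_lit 0x325021,
    nat_lit 0x200001],.r (nat_lit 0x1b32) (nat_lit 12) [nat_lit 0x330231,nat_lit 0x323021,nat_lit 0x200001],
    .r (nat_lit 2) (nat_lit 5) [nat_lit 0x330231,nat_lit 0x23021],.c (nat_lit 0) (nat_lit 0x3003),
    .r (nat_lit 0x1b32) (nat_lit 12) [nat_lit 0x333231,nat_lit 0x320021,nat_lit 0x200001],
    .r (nat_lit 2) (nat_lit 5) [nat_lit 0x333231,nat_lit 0x20021],.r (nat_lit 0x1c15) (nat_lit 11) [nat_lit 33,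
    nat_lit 0x220001,nat_lit 0x30031],.r (nat_lit 0x1c44) (nat_lit 11) [nat_lit 33,nat_lit 0x220001,nat_lit 0x30031,
    nat_lit 0x32031],.c (nat_lit 5) (nat_lit 2),.c (nat_lit 5) (nat_lit 514),
    .r (nat_lit 0x1ae0) (nat_lit 2) [nat_lit 0x300231,nat_lit 0x303021,nat_lit 0x200001],.c (nat_lit 6) (nat_lit 2),
    .r (nat_lit 0x1ae0) (nat_lit 2) [nat_lit 0x303231,nat_lit 0x300021,nat_lit 0x200001],.c (nat_lit 7) (nat_lit 2)]]

/-- nodes -/
noncomputable def rD7k_25_40 : List RJ :=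
  [.l (nat_lit 12) (nat_lit 768) (nat_lit 3) (nat_lit 0x1230000015b0000015a000001120000016400000164000001120000015a0000015500000140000001120000011f000001280000012f) (nat_lit 0x900000041000000520000000a00000000000000000000000a00000052000000240000000f0000004500000052000000350000003c)
    (nat_lit 0x1790c40c91191231231190d20c71790c00d60ee0c916a17910315110015b15110317c0c01740c812611f1511191081381601601dc16317714b1150c30c60c01030c90c010811211219d1241270fd0c70c00dd0c715b1231121601001641601121400c012e0d913712e10012311216016410016011214017912e0d912e12e1030d21241631121120e40c01270fd0c70c00dd0c715111919d1dc1601601440e416e14b1150c00c00c00c01790fd14b1790c014b0fd17915216e0cb12011917c0c712717714014016e1270c71790c00ee1060c00c80d60c00c30d90d90c00c00ee0cb1111151151111740c00c711512e12e1150c70c016e0da1111080e311f0c90c70c012e12e0c00c70c01190e31111110ec1260ee0dd0c612e1370c00dd106120108115118111)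
    (nat_lit 0x1793003003003003003003003003003003003003000c41793003003003003003003003003003003003000c910310830030030030030030030030030030030011915113810830030030030030030030030030030012310016011210030030030030030030030030030012315b1601121641003003003003003003003003001191511dc19d1601600e43003003003003003003000d21031631241121120c00e43003003003003003000c717c17712714014012716e1793003003003003001790c014b0fd0c01790fd14b1521793003003003000c01741150c712e12e0c711516e0c01113003003000d60c80c30c00d90d90c00c00cb0ee1151113003000ee1260c60dd13712e0dd0c01201061151081113000c911f0c00c712e12e0c70c01190c01110e30ec111)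
    (nat_lit 5) (nat_lit 61)
    [[nat_lit 2,nat_lit 258,nat_lit 0x1002,nat_lit 0x100002,nat_lit 17,nat_lit 273,nat_lit 0x1011,nat_lit 0x100011,
    nat_lit 0x1000011,nat_lit 257,nat_lit 0x1101,nat_lit 0x10101,nat_lit 0x100101,nat_lit 0x1000101,nat_lit 0x1001,
    nat_lit 0x2001,nat_lit 0x1001001,nat_lit 0x101001,nat_lit 0x10001,nat_lit 0x10011,nat_lit 0x100001,
    nat_lit 0x200001,nat_lit 0x1100001,nat_lit 0x1000001],[nat_lit 32,nat_lit 288,nat_lit 0x1020,nat_lit 0x100020,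
    nat_lit 0x1000020,nat_lit 0x10020,nat_lit 272,nat_lit 0x1000110,nat_lit 0x1110,nat_lit 0x10110,nat_lit 0x100110,
    nat_lit 0x1010,nat_lit 0x2010,nat_lit 0x1001010,nat_lit 0x101010,nat_lit 0x10010,nat_lit 0x100010,
    nat_lit 0x200010,nat_lit 0x1100010,nat_lit 0x1000010,nat_lit 0x1010010],[nat_lit 512,nat_lit 0x1100,
    nat_lit 0x10100,nat_lit 0x100100,nat_lit 0x1000100,nat_lit 0x1010100],[nat_lit 0x2000,nat_lit 0x3000,
    nat_lit 0x11000,nat_lit 0x1001000],[nat_lit 0x20000,nat_lit 0x110000,nat_lit 0x1010000],[nat_lit 0x200000,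
    nat_lit 0x1100000],[nat_lit 0x2000000]]
    [.c (nat_lit 1) (nat_lit 2),.r (nat_lit 0x1cdf) (nat_lit 10) [nat_lit 0x280c1,nat_lit 0x200001,nat_lit 0x10001,
    nat_lit 0xe3118e3],.r (nat_lit 0x1d1f) (nat_lit 3) [nat_lit 0x18041,nat_lit 0x4010061],
    .r (nat_lit 0x1d1f) (nat_lit 13) [nat_lit 0x2200e3,nat_lit 0x4000001],.c (nat_lit 0) (nat_lit 0x10807),
    .r (nat_lit 0x1cdf) (nat_lit 10) [nat_lit 0x3180c1,nat_lit 0x200001,nat_lit 0x10001,nat_lit 0x6000861],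
    .r (nat_lit 0x1d1f) (nat_lit 3) [nat_lit 0x3280c3,nat_lit 0xc2200e3],
    .r (nat_lit 0x1d1f) (nat_lit 13) [nat_lit 0x4100e3,nat_lit 0x4000001],
    .r (nat_lit 0x1cdf) (nat_lit 1) [nat_lit 0x3180c1,nat_lit 0x10001,nat_lit 0x200001,nat_lit 0x6000861],
    .r (nat_lit 0x1bec) (nat_lit 8) [nat_lit 0x2180c3,nat_lit 0x4000001],
    .r (nat_lit 0x1d25) (nat_lit 11) [nat_lit 0x218003,nat_lit 0x4000061,nat_lit 65],
    .r (nat_lit 0x199e) (nat_lit 1) [nat_lit 0xe3018e1,nat_lit 0x10001,nat_lit 0x200001,nat_lit 0x4000001],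
    .r (nat_lit 0x1cdb) (nat_lit 3) [nat_lit 0xc3100e3,nat_lit 0x2180c3],
    .r (nat_lit 0x174c) (nat_lit 4) [nat_lit 0x4000001,nat_lit 0x410003,nat_lit 0x1a51b0e3],
    .r (nat_lit 0x1d1f) (nat_lit 13) [nat_lit 0xe2180c3,nat_lit 0x4000001],
    .r (nat_lit 0x1d1f) (nat_lit 3) [nat_lit 0x18042,nat_lit 0x8010062],
    .r (nat_lit 0x1cdb) (nat_lit 11) [nat_lit 0x4000061,nat_lit 65],.c (nat_lit 0) (nat_lit 0x700c06),
    .r (nat_lit 0x1d07) (nat_lit 5) [nat_lit 0x4000001,nat_lit 65],.r (nat_lit 0x1ccd) (nat_lit 6) [nat_lit 0x4000001,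
    nat_lit 0x220003,nat_lit 0xb48303],.r (nat_lit 0x1d1f) (nat_lit 3) [nat_lit 0x4000061,nat_lit 65],
    .r (nat_lit 0x1d1f) (nat_lit 13) [nat_lit 0x4100e6,nat_lit 0x4000001],
    .r (nat_lit 0x1d25) (nat_lit 3) [nat_lit 0x310003,nat_lit 0xc3100e3,nat_lit 0x2180c3],
    .r (nat_lit 0x1bec) (nat_lit 2) [nat_lit 65,nat_lit 0x4000001],.c (nat_lit 2) (nat_lit 2),
    .r (nat_lit 0x1cdf) (nat_lit 10) [nat_lit 0x5000c1,nat_lit 0x200001,nat_lit 0x10001,nat_lit 0xe2198e3],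
    .r (nat_lit 0x1d1f) (nat_lit 3) [nat_lit 0x5180c3,nat_lit 0xc4100e3],
    .r (nat_lit 0x1d1f) (nat_lit 13) [nat_lit 0x200061,nat_lit 0x4000001],
    .r (nat_lit 0x1cdf) (nat_lit 1) [nat_lit 0x5000c1,nat_lit 0x10001,nat_lit 0x200001,nat_lit 0xe2198e3],
    .r (nat_lit 0x1ccd) (nat_lit 6) [nat_lit 0x4000001,nat_lit 0x220003,nat_lit 0x700101],
    .r (nat_lit 0x1bec) (nat_lit 8) [nat_lit 65,nat_lit 0x4000001],.r (nat_lit 0x174c) (nat_lit 4) [nat_lit 0x4000001,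
    nat_lit 0x410003,nat_lit 0x1a32b0e3],.r (nat_lit 0x1d25) (nat_lit 11) [nat_lit 0x218003,nat_lit 0xc2180e3,
    nat_lit 0x3100c3],.r (nat_lit 0x199e) (nat_lit 1) [nat_lit 0xe0198e1,nat_lit 0x10001,nat_lit 0x200001,
    nat_lit 0x4000001],.r (nat_lit 0x1cdb) (nat_lit 3) [nat_lit 0x4000061,nat_lit 65],
    .r (nat_lit 0x1d1f) (nat_lit 13) [nat_lit 0x6000041,nat_lit 0x4000001],
    .r (nat_lit 0x1d1f) (nat_lit 3) [nat_lit 0x3280c6,nat_lit 0x182200e6],
    .r (nat_lit 0x1cdb) (nat_lit 11) [nat_lit 0xc2180e3,nat_lit 0x3100c3],.c (nat_lit 0) (nat_lit 0x718006),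
    .r (nat_lit 0x1d07) (nat_lit 5) [nat_lit 0x4000001,nat_lit 0x3100c3],
    .r (nat_lit 0x1d1f) (nat_lit 3) [nat_lit 0xc2180e3,nat_lit 0x3100c3],
    .r (nat_lit 0x1d1f) (nat_lit 13) [nat_lit 0x200062,nat_lit 0x4000001],
    .r (nat_lit 0x1d25) (nat_lit 3) [nat_lit 0x310003,nat_lit 0x4000061,nat_lit 65],
    .r (nat_lit 0x1bec) (nat_lit 2) [nat_lit 0x3100c3,nat_lit 0x4000001],
    .r (nat_lit 0x199e) (nat_lit 10) [nat_lit 0xe0198e1,nat_lit 0x200001,nat_lit 0x10001,nat_lit 0x4000001],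
    .c (nat_lit 3) (nat_lit 2),.r (nat_lit 0x1c26) (nat_lit 11) [nat_lit 0x4000061,nat_lit 65,nat_lit 0x220003],
    .c (nat_lit 0) (nat_lit 0x718cc7),.r (nat_lit 0x1c22) (nat_lit 9) [nat_lit 0x4000061,nat_lit 65,
    nat_lit 0xc411c03],.c (nat_lit 0) (nat_lit 0x718cc7),.c (nat_lit 0) (nat_lit 0x718cc7),.c (nat_lit 4) (nat_lit 2),
    .r (nat_lit 0x1d1f) (nat_lit 3) [nat_lit 0x18043,nat_lit 0xc010063],
    .r (nat_lit 0x1bbb) (nat_lit 4) [nat_lit 0x6000041,nat_lit 0x4000001,nat_lit 0x221cc3],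
    .r (nat_lit 0x1c22) (nat_lit 4) [nat_lit 0x4000061,nat_lit 65,nat_lit 0xc221c03],.c (nat_lit 5) (nat_lit 2),
    .r (nat_lit 0x1bbb) (nat_lit 9) [nat_lit 0x6000041,nat_lit 0x4000001,nat_lit 0x411cc3],
    .c (nat_lit 0) (nat_lit 0x718cc7),.c (nat_lit 6) (nat_lit 2),.r (nat_lit 0x1c26) (nat_lit 3) [nat_lit 0x4000061,
    nat_lit 65,nat_lit 0x410003],.c (nat_lit 7) (nat_lit 2)]]

end Pool.Agent.Lib_MP_fa6e45
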