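import Pool.Agent.Lib_MP_fa6e45.DQ7k_0d
import Pool.Agent.Lib_MP_fa6e45.RD7k_25

/-!
MP_fa6e45_co, stage 9: straight-side patterns with `7` sides, part of a certificate (generated by a program).
-/

namespace Pool.Agent.Lib_MP_fa6e45

theorem cD7k_0_k25_0 : allI cD7k_0_c (rjL dJ cD7k_0_q rD7k_25_0) 7390 = true := by
  decide +kernel

theorem cD7k_0_k25_1 : allI cD7k_0_c (rjL dJ cD7k_0_q rD7k_25_1) 7393 = true := by
  decide +kernel

theorem cD7k_0_k25_2 : allI cD7k_0_c (rjL dJ cD7k_0_q rD7k_25_2) 7396 = true := by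
  decide +kernel

theorem cD7k_0_k25_3 : allI cD7k_0_c (rjL dJ cD7k_0_q rD7k_25_3) 7398 = true := by
  decide +kernel

theorem cD7k_0_k25_4 : allI cD7k_0_c (rjL dJ cD7k_0_q rD7k_25_4) 7399 = true := by
  decide +kernel

theorem cD7k_0_k25_5 : allI cD7k_0_c (rjL dJ cD7k_0_q rD7k_25_5) 7400 = true := by
  decide +kernel

theorem cD7k_0_k25_6 : allI cD7k_0_c (rjL dJ cD7k_0_q rD7k_25_6) 7401 = true := by
  decide +kernel

theorem cD7k_0_k25_7 : allI cD7k_0_c (rjL dJ cD7k_0_q rD7k_25_7) 7402 = true := by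
  decide +kernel

theorem cD7k_0_k25_8 : allI cD7k_0_c (rjL dJ cD7k_0_q rD7k_25_8) 7403 = true := by
  decide +kernel

theorem cD7k_0_k25_9 : allI cD7k_0_c (rjL dJ cD7k_0_q rD7k_25_9) 7405 = true := by
  decide +kernel

theorem cD7k_0_k25_10 : allI cD7k_0_c (rjL dJ cD7k_0_q rD7k_25_10) 7407 = true := by
  decide +kernel

theorem cD7k_0_k25_11 : allI cD7k_0_c (rjL dJ cD7k_0_q rD7k_25_11) 7409 = true := by
  decide +kernel

theorem cD7k_0_k25_12 : allI cD7k_0_c (rjL dJ cD7k_0_q rD7k_25_12) 7411 = true := by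
  decide +kernel

theorem cD7k_0_k25_13 : allI cD7k_0_c (rjL dJ cD7k_0_q rD7k_25_13) 7412 = true := by
  decide +kernel

theorem cD7k_0_k25_14 : allI cD7k_0_c (rjL dJ cD7k_0_q rD7k_25_14) 7413 = true := by
  decide +kernel

theorem cD7k_0_k25_15 : allI cD7k_0_c (rjL dJ cD7k_0_q rD7k_25_15) 7415 = true := by
  decide +kernel

theorem cD7k_0_k25_16 : allI cD7k_0_c (rjL dJ cD7k_0_q rD7k_25_16) 7416 = true := by
  decide +kernel

theorem cD7k_0_k25_17 : allI cD7k_0_c (rjL dJ cD7k_0_q rD7k_25_17) 7417 = true := by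
  decide +kernel

theorem cD7k_0_k25_18 : allI cD7k_0_c (rjL dJ cD7k_0_q rD7k_25_18) 7419 = true := by
  decide +kernel

theorem cD7k_0_k25_19 : allI cD7k_0_c (rjL dJ cD7k_0_q rD7k_25_19) 7420 = true := by
  decide +kernel

theorem cD7k_0_k25_20 : allI cD7k_0_c (rjL dJ cD7k_0_q rD7k_25_20) 7421 = true := by
  decide +kernel

theorem cD7k_0_k25_21 : allI cD7k_0_c (rjL dJ cD7k_0_q rD7k_25_21) 7424 = true := by
  decide +kernel

theorem cD7k_0_k25_22 : allI cD7k_0_c (rjL dJ cD7k_0_q rD7k_25_22) 7426 = true := by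
  decide +kernel

theorem cD7k_0_k25_23 : allI cD7k_0_c (rjL dJ cD7k_0_q rD7k_25_23) 7428 = true := by
  decide +kernel

theorem cD7k_0_k25_24 : allI cD7k_0_c (rjL dJ cD7k_0_q rD7k_25_24) 7430 = true := by
  decide +kernel

theorem cD7k_0_k25_25 : allI cD7k_0_c (rjL dJ cD7k_0_q rD7k_25_25) 7432 = true := by
  decide +kernel

theorem cD7k_0_k25_26 : allI cD7k_0_c (rjL dJ cD7k_0_q rD7k_25_26) 7435 = true := by
  decide +kernel

theorem cD7k_0_k25_27 : allI cD7k_0_c (rjL dJ cD7k_0_q rD7k_25_27) 7437 = true := by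
  decide +kernel

theorem cD7k_0_k25_28 : allI cD7k_0_c (rjL dJ cD7k_0_q rD7k_25_28) 7440 = true := by
  decide +kernel

theorem cD7k_0_k25_29 : allI cD7k_0_c (rjL dJ cD7k_0_q rD7k_25_29) 7442 = true := by
  decide +kernel

theorem cD7k_0_k25_30 : allI cD7k_0_c (rjL dJ cD7k_0_q rD7k_25_30) 7444 = true := by
  decide +kernel

theorem cD7k_0_k25_31 : allI cD7k_0_c (rjL dJ cD7k_0_q rD7k_25_31) 7446 = true := by
  decide +kernel

theorem cD7k_0_k25_32 : allI cD7k_0_c (rjL dJ cD7k_0_q rD7k_25_32) 7448 = true := by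
  decide +kernel

theorem cD7k_0_k25_33 : allI cD7k_0_c (rjL dJ cD7k_0_q rD7k_25_33) 7449 = true := by
  decide +kernel

theorem cD7k_0_k25_34 : allI cD7k_0_c (rjL dJ cD7k_0_q rD7k_25_34) 7450 = true := by
  decide +kernel

theorem cD7k_0_k25_35 : allI cD7k_0_c (rjL dJ cD7k_0_q rD7k_25_35) 7452 = true := by
  decide +kernel

theorem cD7k_0_k25_36 : allI cD7k_0_c (rjL dJ cD7k_0_q rD7k_25_36) 7454 = true := by
  decide +kernel

theorem cD7k_0_k25_37 : allI cD7k_0_c (rjL dJ cD7k_0_q rD7k_25_37) 7456 = true := by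
  decide +kernel

theorem cD7k_0_k25_38 : allI cD7k_0_c (rjL dJ cD7k_0_q rD7k_25_38) 7458 = true := by
  decide +kernel

theorem cD7k_0_k25_39 : allI cD7k_0_c (rjL dJ cD7k_0_q rD7k_25_39) 7459 = true := by
  decide +kernel

theorem cD7k_0_k25_40 : allI cD7k_0_c (rjL dJ cD7k_0_q rD7k_25_40) 7462 = true := by
  decide +kernel

/-- nodes -/
noncomputable def cD7k_0_n25 : List (QJ PN) :=
  rjL dJ cD7k_0_q rD7k_25_0 ++ (rjL dJ cD7k_0_q rD7k_25_1 ++ (rjL dJ cD7k_0_q rD7k_25_2 ++ (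
    rjL dJ cD7k_0_q rD7k_25_3 ++ (rjL dJ cD7k_0_q rD7k_25_4 ++ (rjL dJ cD7k_0_q rD7k_25_5 ++ (
    rjL dJ cD7k_0_q rD7k_25_6 ++ (rjL dJ cD7k_0_q rD7k_25_7 ++ (rjL dJ cD7k_0_q rD7k_25_8 ++ (
    rjL dJ cD7k_0_q rD7k_25_9 ++ (rjL dJ cD7k_0_q rD7k_25_10 ++ (rjL dJ cD7k_0_q rD7k_25_11 ++ (
    rjL dJ cD7k_0_q rD7k_25_12 ++ (rjL dJ cD7k_0_q rD7k_25_13 ++ (rjL dJ cD7k_0_q rD7k_25_14 ++ (
    rjL dJ cD7k_0_q rD7k_25_15 ++ (rjL dJ cD7k_0_q rD7k_25_16 ++ (rjL dJ cD7k_0_q rD7k_25_17 ++ (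
    rjL dJ cD7k_0_q rD7k_25_18 ++ (rjL dJ cD7k_0_q rD7k_25_19 ++ (rjL dJ cD7k_0_q rD7k_25_20 ++ (
    rjL dJ cD7k_0_q rD7k_25_21 ++ (rjL dJ cD7k_0_q rD7k_25_22 ++ (rjL dJ cD7k_0_q rD7k_25_23 ++ (
    rjL dJ cD7k_0_q rD7k_25_24 ++ (rjL dJ cD7k_0_q rD7k_25_25 ++ (rjL dJ cD7k_0_q rD7k_25_26 ++ (
    rjL dJ cD7k_0_q rD7k_25_27 ++ (rjL dJ cD7k_0_q rD7k_25_28 ++ (rjL dJ cD7k_0_q rD7k_25_29 ++ (
    rjL dJ cD7k_0_q rD7k_25_30 ++ (rjL dJ cD7k_0_q rD7k_25_31 ++ (rjL dJ cD7k_0_q rD7k_25_32 ++ (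
    rjL dJ cD7k_0_q rD7k_25_33 ++ (rjL dJ cD7k_0_q rD7k_25_34 ++ (rjL dJ cD7k_0_q rD7k_25_35 ++ (
    rjL dJ cD7k_0_q rD7k_25_36 ++ (rjL dJ cD7k_0_q rD7k_25_37 ++ (rjL dJ cD7k_0_q rD7k_25_38 ++ (
    rjL dJ cD7k_0_q rD7k_25_39 ++ rjL dJ cD7k_0_q rD7k_25_40)))))))))))))))))))))))))))))))))))))))

theorem cD7k_0_k25 : allI cD7k_0_c cD7k_0_n25 7390 = true := by
  refine allI_appQ (k := 3) cD7k_0_k25_0 (by decide +kernel) ?_
  refine allI_appQ (k := 3) cD7k_0_k25_1 (by decide +kernel) ?_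
  refine allI_appQ (k := 2) cD7k_0_k25_2 (by decide +kernel) ?_
  refine allI_appQ (k := 1) cD7k_0_k25_3 (by decide +kernel) ?_
  refine allI_appQ (k := 1) cD7k_0_k25_4 (by decide +kernel) ?_
  refine allI_appQ (k := 1) cD7k_0_k25_5 (by decide +kernel) ?_
  refine allI_appQ (k := 1) cD7k_0_k25_6 (by decide +kernel) ?_
  refine allI_appQ (k := 1) cD7k_0_k25_7 (by decide +kernel) ?_
  refine allI_appQ (k := 2) cD7k_0_k25_8 (by decide +kernel) ?_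
  refine allI_appQ (k := 2) cD7k_0_k25_9 (by decide +kernel) ?_
  refine allI_appQ (k := 2) cD7k_0_k25_10 (by decide +kernel) ?_
  refine allI_appQ (k := 2) cD7k_0_k25_11 (by decide +kernel) ?_
  refine allI_appQ (k := 1) cD7k_0_k25_12 (by decide +kernel) ?_
  refine allI_appQ (k := 1) cD7k_0_k25_13 (by decide +kernel) ?_
  refine allI_appQ (k := 2) cD7k_0_k25_14 (by decide +kernel) ?_
  refine allI_appQ (k := 1) cD7k_0_k25_15 (by decide +kernel) ?_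
  refine allI_appQ (k := 1) cD7k_0_k25_16 (by decide +kernel) ?_
  refine allI_appQ (k := 2) cD7k_0_k25_17 (by decide +kernel) ?_
  refine allI_appQ (k := 1) cD7k_0_k25_18 (by decide +kernel) ?_
  refine allI_appQ (k := 1) cD7k_0_k25_19 (by decide +kernel) ?_
  refine allI_appQ (k := 3) cD7k_0_k25_20 (by decide +kernel) ?_
  refine allI_appQ (k := 2) cD7k_0_k25_21 (by decide +kernel) ?_
  refine allI_appQ (k := 2) cD7k_0_k25_22 (by decide +kernel) ?_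
  refine allI_appQ (k := 2) cD7k_0_k25_23 (by decide +kernel) ?_
  refine allI_appQ (k := 2) cD7k_0_k25_24 (by decide +kernel) ?_
  refine allI_appQ (k := 3) cD7k_0_k25_25 (by decide +kernel) ?_
  refine allI_appQ (k := 2) cD7k_0_k25_26 (by decide +kernel) ?_
  refine allI_appQ (k := 3) cD7k_0_k25_27 (by decide +kernel) ?_
  refine allI_appQ (k := 2) cD7k_0_k25_28 (by decide +kernel) ?_
  refine allI_appQ (k := 2) cD7k_0_k25_29 (by decide +kernel) ?_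
  refine allI_appQ (k := 2) cD7k_0_k25_30 (by decide +kernel) ?_
  refine allI_appQ (k := 2) cD7k_0_k25_31 (by decide +kernel) ?_
  refine allI_appQ (k := 1) cD7k_0_k25_32 (by decide +kernel) ?_
  refine allI_appQ (k := 1) cD7k_0_k25_33 (by decide +kernel) ?_
  refine allI_appQ (k := 2) cD7k_0_k25_34 (by decide +kernel) ?_
  refine allI_appQ (k := 2) cD7k_0_k25_35 (by decide +kernel) ?_
  refine allI_appQ (k := 2) cD7k_0_k25_36 (by decide +kernel) ?_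
  refine allI_appQ (k := 2) cD7k_0_k25_37 (by decide +kernel) ?_
  refine allI_appQ (k := 1) cD7k_0_k25_38 (by decide +kernel) ?_
  refine allI_appQ (k := 3) cD7k_0_k25_39 (by decide +kernel) ?_
  exact cD7k_0_k25_40

theorem cD7k_0_l25 : cD7k_0_n25.length = 73 := by
  decide +kernel

end Pool.Agent.Lib_MP_fa6e45
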