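import Pool.Agent.Lib_MP_fa6e45.DQ7k_0d
import Pool.Agent.Lib_MP_fa6e45.RD7k_27

/-!
MP_fa6e45_co, stage 9: straight-side patterns with `7` sides, part of a certificate (generated by a program).
-/

namespace Pool.Agent.Lib_MP_fa6e45

theorem cD7k_0_k27_0 : allI cD7k_0_c (rjL dJ cD7k_0_q rD7k_27_0) 7556 = true := by
  decide +kernel

theorem cD7k_0_k27_1 : allI cD7k_0_c (rjL dJ cD7k_0_q rD7k_27_1) 7559 = true := by
  decide +kernel

theorem cD7k_0_k27_2 : allI cD7k_0_c (rjL dJ cD7k_0_q rD7k_27_2) 7561 = true := by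
  decide +kernel

theorem cD7k_0_k27_3 : allI cD7k_0_c (rjL dJ cD7k_0_q rD7k_27_3) 7563 = true := by
  decide +kernel

theorem cD7k_0_k27_4 : allI cD7k_0_c (rjL dJ cD7k_0_q rD7k_27_4) 7564 = true := by
  decide +kernel

theorem cD7k_0_k27_5 : allI cD7k_0_c (rjL dJ cD7k_0_q rD7k_27_5) 7565 = true := by
  decide +kernel

theorem cD7k_0_k27_6 : allI cD7k_0_c (rjL dJ cD7k_0_q rD7k_27_6) 7568 = true := by
  decide +kernel

theorem cD7k_0_k27_7 : allI cD7k_0_c (rjL dJ cD7k_0_q rD7k_27_7) 7571 = true := by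
  decide +kernel

theorem cD7k_0_k27_8 : allI cD7k_0_c (rjL dJ cD7k_0_q rD7k_27_8) 7574 = true := by
  decide +kernel

theorem cD7k_0_k27_9 : allI cD7k_0_c (rjL dJ cD7k_0_q rD7k_27_9) 7577 = true := by
  decide +kernel

theorem cD7k_0_k27_10 : allI cD7k_0_c (rjL dJ cD7k_0_q rD7k_27_10) 7580 = true := by
  decide +kernel

theorem cD7k_0_k27_11 : allI cD7k_0_c (rjL dJ cD7k_0_q rD7k_27_11) 7582 = true := by
  decide +kernel

theorem cD7k_0_k27_12 : allI cD7k_0_c (rjL dJ cD7k_0_q rD7k_27_12) 7585 = true := by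
  decide +kernel

theorem cD7k_0_k27_13 : allI cD7k_0_c (rjL dJ cD7k_0_q rD7k_27_13) 7587 = true := by
  decide +kernel

theorem cD7k_0_k27_14 : allI cD7k_0_c (rjL dJ cD7k_0_q rD7k_27_14) 7589 = true := by
  decide +kernel

theorem cD7k_0_k27_15 : allI cD7k_0_c (rjL dJ cD7k_0_q rD7k_27_15) 7591 = true := by
  decide +kernel

theorem cD7k_0_k27_16 : allI cD7k_0_c (rjL dJ cD7k_0_q rD7k_27_16) 7594 = true := by
  decide +kernel

theorem cD7k_0_k27_17 : allI cD7k_0_c (rjL dJ cD7k_0_q rD7k_27_17) 7596 = true := by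
  decide +kernel

theorem cD7k_0_k27_18 : allI cD7k_0_c (rjL dJ cD7k_0_q rD7k_27_18) 7598 = true := by
  decide +kernel

theorem cD7k_0_k27_19 : allI cD7k_0_c (rjL dJ cD7k_0_q rD7k_27_19) 7600 = true := by
  decide +kernel

theorem cD7k_0_k27_20 : allI cD7k_0_c (rjL dJ cD7k_0_q rD7k_27_20) 7602 = true := by
  decide +kernel

theorem cD7k_0_k27_21 : allI cD7k_0_c (rjL dJ cD7k_0_q rD7k_27_21) 7604 = true := by
  decide +kernel

theorem cD7k_0_k27_22 : allI cD7k_0_c (rjL dJ cD7k_0_q rD7k_27_22) 7607 = true := by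
  decide +kernel

theorem cD7k_0_k27_23 : allI cD7k_0_c (rjL dJ cD7k_0_q rD7k_27_23) 7609 = true := by
  decide +kernel

theorem cD7k_0_k27_24 : allI cD7k_0_c (rjL dJ cD7k_0_q rD7k_27_24) 7611 = true := by
  decide +kernel

theorem cD7k_0_k27_25 : allI cD7k_0_c (rjL dJ cD7k_0_q rD7k_27_25) 7614 = true := by
  decide +kernel

theorem cD7k_0_k27_26 : allI cD7k_0_c (rjL dJ cD7k_0_q rD7k_27_26) 7617 = true := by
  decide +kernel

theorem cD7k_0_k27_27 : allI cD7k_0_c (rjL dJ cD7k_0_q rD7k_27_27) 7620 = true := by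
  decide +kernel

theorem cD7k_0_k27_28 : allI cD7k_0_c (rjL dJ cD7k_0_q rD7k_27_28) 7623 = true := by
  decide +kernel

theorem cD7k_0_k27_29 : allI cD7k_0_c (rjL dJ cD7k_0_q rD7k_27_29) 7626 = true := by
  decide +kernel

theorem cD7k_0_k27_30 : allI cD7k_0_c (rjL dJ cD7k_0_q rD7k_27_30) 7629 = true := by
  decide +kernel

theorem cD7k_0_k27_31 : allI cD7k_0_c (rjL dJ cD7k_0_q rD7k_27_31) 7632 = true := by
  decide +kernel

theorem cD7k_0_k27_32 : allI cD7k_0_c (rjL dJ cD7k_0_q rD7k_27_32) 7634 = true := by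
  decide +kernel

theorem cD7k_0_k27_33 : allI cD7k_0_c (rjL dJ cD7k_0_q rD7k_27_33) 7636 = true := by
  decide +kernel

theorem cD7k_0_k27_34 : allI cD7k_0_c (rjL dJ cD7k_0_q rD7k_27_34) 7638 = true := by
  decide +kernel

theorem cD7k_0_k27_35 : allI cD7k_0_c (rjL dJ cD7k_0_q rD7k_27_35) 7641 = true := by
  decide +kernel

theorem cD7k_0_k27_36 : allI cD7k_0_c (rjL dJ cD7k_0_q rD7k_27_36) 7643 = true := by
  decide +kernel

theorem cD7k_0_k27_37 : allI cD7k_0_c (rjL dJ cD7k_0_q rD7k_27_37) 7645 = true := by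
  decide +kernel

theorem cD7k_0_k27_38 : allI cD7k_0_c (rjL dJ cD7k_0_q rD7k_27_38) 7646 = true := by
  decide +kernel

theorem cD7k_0_k27_39 : allI cD7k_0_c (rjL dJ cD7k_0_q rD7k_27_39) 7647 = true := by
  decide +kernel

theorem cD7k_0_k27_40 : allI cD7k_0_c (rjL dJ cD7k_0_q rD7k_27_40) 7650 = true := by
  decide +kernel

theorem cD7k_0_k27_41 : allI cD7k_0_c (rjL dJ cD7k_0_q rD7k_27_41) 7653 = true := by
  decide +kernel

theorem cD7k_0_k27_42 : allI cD7k_0_c (rjL dJ cD7k_0_q rD7k_27_42) 7656 = true := by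
  decide +kernel

/-- nodes -/
noncomputable def cD7k_0_n27 : List (QJ PN) :=
  rjL dJ cD7k_0_q rD7k_27_0 ++ (rjL dJ cD7k_0_q rD7k_27_1 ++ (rjL dJ cD7k_0_q rD7k_27_2 ++ (
    rjL dJ cD7k_0_q rD7k_27_3 ++ (rjL dJ cD7k_0_q rD7k_27_4 ++ (rjL dJ cD7k_0_q rD7k_27_5 ++ (
    rjL dJ cD7k_0_q rD7k_27_6 ++ (rjL dJ cD7k_0_q rD7k_27_7 ++ (rjL dJ cD7k_0_q rD7k_27_8 ++ (
    rjL dJ cD7k_0_q rD7k_27_9 ++ (rjL dJ cD7k_0_q rD7k_27_10 ++ (rjL dJ cD7k_0_q rD7k_27_11 ++ (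
    rjL dJ cD7k_0_q rD7k_27_12 ++ (rjL dJ cD7k_0_q rD7k_27_13 ++ (rjL dJ cD7k_0_q rD7k_27_14 ++ (
    rjL dJ cD7k_0_q rD7k_27_15 ++ (rjL dJ cD7k_0_q rD7k_27_16 ++ (rjL dJ cD7k_0_q rD7k_27_17 ++ (
    rjL dJ cD7k_0_q rD7k_27_18 ++ (rjL dJ cD7k_0_q rD7k_27_19 ++ (rjL dJ cD7k_0_q rD7k_27_20 ++ (
    rjL dJ cD7k_0_q rD7k_27_21 ++ (rjL dJ cD7k_0_q rD7k_27_22 ++ (rjL dJ cD7k_0_q rD7k_27_23 ++ (
    rjL dJ cD7k_0_q rD7k_27_24 ++ (rjL dJ cD7k_0_q rD7k_27_25 ++ (rjL dJ cD7k_0_q rD7k_27_26 ++ (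
    rjL dJ cD7k_0_q rD7k_27_27 ++ (rjL dJ cD7k_0_q rD7k_27_28 ++ (rjL dJ cD7k_0_q rD7k_27_29 ++ (
    rjL dJ cD7k_0_q rD7k_27_30 ++ (rjL dJ cD7k_0_q rD7k_27_31 ++ (rjL dJ cD7k_0_q rD7k_27_32 ++ (
    rjL dJ cD7k_0_q rD7k_27_33 ++ (rjL dJ cD7k_0_q rD7k_27_34 ++ (rjL dJ cD7k_0_q rD7k_27_35 ++ (
    rjL dJ cD7k_0_q rD7k_27_36 ++ (rjL dJ cD7k_0_q rD7k_27_37 ++ (rjL dJ cD7k_0_q rD7k_27_38 ++ (
    rjL dJ cD7k_0_q rD7k_27_39 ++ (rjL dJ cD7k_0_q rD7k_27_40 ++ (rjL dJ cD7k_0_q rD7k_27_41 ++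
    rjL dJ cD7k_0_q rD7k_27_42)))))))))))))))))))))))))))))))))))))))))

theorem cD7k_0_k27 : allI cD7k_0_c cD7k_0_n27 7556 = true := by
  refine allI_appQ (k := 3) cD7k_0_k27_0 (by decide +kernel) ?_
  refine allI_appQ (k := 2) cD7k_0_k27_1 (by decide +kernel) ?_
  refine allI_appQ (k := 2) cD7k_0_k27_2 (by decide +kernel) ?_
  refine allI_appQ (k := 1) cD7k_0_k27_3 (by decide +kernel) ?_
  refine allI_appQ (k := 1) cD7k_0_k27_4 (by decide +kernel) ?_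
  refine allI_appQ (k := 3) cD7k_0_k27_5 (by decide +kernel) ?_
  refine allI_appQ (k := 3) cD7k_0_k27_6 (by decide +kernel) ?_
  refine allI_appQ (k := 3) cD7k_0_k27_7 (by decide +kernel) ?_
  refine allI_appQ (k := 3) cD7k_0_k27_8 (by decide +kernel) ?_
  refine allI_appQ (k := 3) cD7k_0_k27_9 (by decide +kernel) ?_
  refine allI_appQ (k := 2) cD7k_0_k27_10 (by decide +kernel) ?_
  refine allI_appQ (k := 3) cD7k_0_k27_11 (by decide +kernel) ?_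
  refine allI_appQ (k := 2) cD7k_0_k27_12 (by decide +kernel) ?_
  refine allI_appQ (k := 2) cD7k_0_k27_13 (by decide +kernel) ?_
  refine allI_appQ (k := 2) cD7k_0_k27_14 (by decide +kernel) ?_
  refine allI_appQ (k := 3) cD7k_0_k27_15 (by decide +kernel) ?_
  refine allI_appQ (k := 2) cD7k_0_k27_16 (by decide +kernel) ?_
  refine allI_appQ (k := 2) cD7k_0_k27_17 (by decide +kernel) ?_
  refine allI_appQ (k := 2) cD7k_0_k27_18 (by decide +kernel) ?_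
  refine allI_appQ (k := 2) cD7k_0_k27_19 (by decide +kernel) ?_
  refine allI_appQ (k := 2) cD7k_0_k27_20 (by decide +kernel) ?_
  refine allI_appQ (k := 3) cD7k_0_k27_21 (by decide +kernel) ?_
  refine allI_appQ (k := 2) cD7k_0_k27_22 (by decide +kernel) ?_
  refine allI_appQ (k := 2) cD7k_0_k27_23 (by decide +kernel) ?_
  refine allI_appQ (k := 3) cD7k_0_k27_24 (by decide +kernel) ?_
  refine allI_appQ (k := 3) cD7k_0_k27_25 (by decide +kernel) ?_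
  refine allI_appQ (k := 3) cD7k_0_k27_26 (by decide +kernel) ?_
  refine allI_appQ (k := 3) cD7k_0_k27_27 (by decide +kernel) ?_
  refine allI_appQ (k := 3) cD7k_0_k27_28 (by decide +kernel) ?_
  refine allI_appQ (k := 3) cD7k_0_k27_29 (by decide +kernel) ?_
  refine allI_appQ (k := 3) cD7k_0_k27_30 (by decide +kernel) ?_
  refine allI_appQ (k := 2) cD7k_0_k27_31 (by decide +kernel) ?_
  refine allI_appQ (k := 2) cD7k_0_k27_32 (by decide +kernel) ?_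
  refine allI_appQ (k := 2) cD7k_0_k27_33 (by decide +kernel) ?_
  refine allI_appQ (k := 3) cD7k_0_k27_34 (by decide +kernel) ?_
  refine allI_appQ (k := 2) cD7k_0_k27_35 (by decide +kernel) ?_
  refine allI_appQ (k := 2) cD7k_0_k27_36 (by decide +kernel) ?_
  refine allI_appQ (k := 1) cD7k_0_k27_37 (by decide +kernel) ?_
  refine allI_appQ (k := 1) cD7k_0_k27_38 (by decide +kernel) ?_
  refine allI_appQ (k := 3) cD7k_0_k27_39 (by decide +kernel) ?_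
  refine allI_appQ (k := 3) cD7k_0_k27_40 (by decide +kernel) ?_
  refine allI_appQ (k := 3) cD7k_0_k27_41 (by decide +kernel) ?_
  exact cD7k_0_k27_42

theorem cD7k_0_l27 : cD7k_0_n27.length = 101 := by
  decide +kernel

end Pool.Agent.Lib_MP_fa6e45
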