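import Pool.Agent.Lib_MP_fa6e45.DQ7k_0d
import Pool.Agent.Lib_MP_fa6e45.RD7k_28

/-!
MP_fa6e45_co, stage 9: straight-side patterns with `7` sides, part of a certificate (generated by a program).
-/

namespace Pool.Agent.Lib_MP_fa6e45

theorem cD7k_0_k28_0 : allI cD7k_0_c (rjL dJ cD7k_0_q rD7k_28_0) 7657 = true := by
  decide +kernel

theorem cD7k_0_k28_1 : allI cD7k_0_c (rjL dJ cD7k_0_q rD7k_28_1) 7659 = true := by
  decide +kernel

theorem cD7k_0_k28_2 : allI cD7k_0_c (rjL dJ cD7k_0_q rD7k_28_2) 7661 = true := by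
  decide +kernel

theorem cD7k_0_k28_3 : allI cD7k_0_c (rjL dJ cD7k_0_q rD7k_28_3) 7663 = true := by
  decide +kernel

theorem cD7k_0_k28_4 : allI cD7k_0_c (rjL dJ cD7k_0_q rD7k_28_4) 7665 = true := by
  decide +kernel

theorem cD7k_0_k28_5 : allI cD7k_0_c (rjL dJ cD7k_0_q rD7k_28_5) 7668 = true := by
  decide +kernel

theorem cD7k_0_k28_6 : allI cD7k_0_c (rjL dJ cD7k_0_q rD7k_28_6) 7671 = true := by
  decide +kernel

theorem cD7k_0_k28_7 : allI cD7k_0_c (rjL dJ cD7k_0_q rD7k_28_7) 7674 = true := by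
  decide +kernel

theorem cD7k_0_k28_8 : allI cD7k_0_c (rjL dJ cD7k_0_q rD7k_28_8) 7677 = true := by
  decide +kernel

theorem cD7k_0_k28_9 : allI cD7k_0_c (rjL dJ cD7k_0_q rD7k_28_9) 7680 = true := by
  decide +kernel

theorem cD7k_0_k28_10 : allI cD7k_0_c (rjL dJ cD7k_0_q rD7k_28_10) 7682 = true := by
  decide +kernel

theorem cD7k_0_k28_11 : allI cD7k_0_c (rjL dJ cD7k_0_q rD7k_28_11) 7684 = true := by
  decide +kernel

theorem cD7k_0_k28_12 : allI cD7k_0_c (rjL dJ cD7k_0_q rD7k_28_12) 7687 = true := by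
  decide +kernel

theorem cD7k_0_k28_13 : allI cD7k_0_c (rjL dJ cD7k_0_q rD7k_28_13) 7690 = true := by
  decide +kernel

theorem cD7k_0_k28_14 : allI cD7k_0_c (rjL dJ cD7k_0_q rD7k_28_14) 7693 = true := by
  decide +kernel

theorem cD7k_0_k28_15 : allI cD7k_0_c (rjL dJ cD7k_0_q rD7k_28_15) 7696 = true := by
  decide +kernel

theorem cD7k_0_k28_16 : allI cD7k_0_c (rjL dJ cD7k_0_q rD7k_28_16) 7698 = true := by
  decide +kernel

theorem cD7k_0_k28_17 : allI cD7k_0_c (rjL dJ cD7k_0_q rD7k_28_17) 7701 = true := by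
  decide +kernel

theorem cD7k_0_k28_18 : allI cD7k_0_c (rjL dJ cD7k_0_q rD7k_28_18) 7705 = true := by
  decide +kernel

theorem cD7k_0_k28_19 : allI cD7k_0_c (rjL dJ cD7k_0_q rD7k_28_19) 7708 = true := by
  decide +kernel

theorem cD7k_0_k28_20 : allI cD7k_0_c (rjL dJ cD7k_0_q rD7k_28_20) 7711 = true := by
  decide +kernel

theorem cD7k_0_k28_21 : allI cD7k_0_c (rjL dJ cD7k_0_q rD7k_28_21) 7714 = true := by
  decide +kernel

theorem cD7k_0_k28_22 : allI cD7k_0_c (rjL dJ cD7k_0_q rD7k_28_22) 7717 = true := by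
  decide +kernel

theorem cD7k_0_k28_23 : allI cD7k_0_c (rjL dJ cD7k_0_q rD7k_28_23) 7720 = true := by
  decide +kernel

theorem cD7k_0_k28_24 : allI cD7k_0_c (rjL dJ cD7k_0_q rD7k_28_24) 7723 = true := by
  decide +kernel

theorem cD7k_0_k28_25 : allI cD7k_0_c (rjL dJ cD7k_0_q rD7k_28_25) 7726 = true := by
  decide +kernel

theorem cD7k_0_k28_26 : allI cD7k_0_c (rjL dJ cD7k_0_q rD7k_28_26) 7729 = true := by
  decide +kernel

theorem cD7k_0_k28_27 : allI cD7k_0_c (rjL dJ cD7k_0_q rD7k_28_27) 7732 = true := by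
  decide +kernel

theorem cD7k_0_k28_28 : allI cD7k_0_c (rjL dJ cD7k_0_q rD7k_28_28) 7735 = true := by
  decide +kernel

theorem cD7k_0_k28_29 : allI cD7k_0_c (rjL dJ cD7k_0_q rD7k_28_29) 7738 = true := by
  decide +kernel

theorem cD7k_0_k28_30 : allI cD7k_0_c (rjL dJ cD7k_0_q rD7k_28_30) 7741 = true := by
  decide +kernel

theorem cD7k_0_k28_31 : allI cD7k_0_c (rjL dJ cD7k_0_q rD7k_28_31) 7744 = true := by
  decide +kernel

theorem cD7k_0_k28_32 : allI cD7k_0_c (rjL dJ cD7k_0_q rD7k_28_32) 7747 = true := by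
  decide +kernel

theorem cD7k_0_k28_33 : allI cD7k_0_c (rjL dJ cD7k_0_q rD7k_28_33) 7750 = true := by
  decide +kernel

theorem cD7k_0_k28_34 : allI cD7k_0_c (rjL dJ cD7k_0_q rD7k_28_34) 7753 = true := by
  decide +kernel

theorem cD7k_0_k28_35 : allI cD7k_0_c (rjL dJ cD7k_0_q rD7k_28_35) 7756 = true := by
  decide +kernel

theorem cD7k_0_k28_36 : allI cD7k_0_c (rjL dJ cD7k_0_q rD7k_28_36) 7759 = true := by
  decide +kernel

theorem cD7k_0_k28_37 : allI cD7k_0_c (rjL dJ cD7k_0_q rD7k_28_37) 7762 = true := by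
  decide +kernel

theorem cD7k_0_k28_38 : allI cD7k_0_c (rjL dJ cD7k_0_q rD7k_28_38) 7764 = true := by
  decide +kernel

theorem cD7k_0_k28_39 : allI cD7k_0_c (rjL dJ cD7k_0_q rD7k_28_39) 7766 = true := by
  decide +kernel

theorem cD7k_0_k28_40 : allI cD7k_0_c (rjL dJ cD7k_0_q rD7k_28_40) 7768 = true := by
  decide +kernel

theorem cD7k_0_k28_41 : allI cD7k_0_c (rjL dJ cD7k_0_q rD7k_28_41) 7772 = true := by
  decide +kernel

theorem cD7k_0_k28_42 : allI cD7k_0_c (rjL dJ cD7k_0_q rD7k_28_42) 7776 = true := by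
  decide +kernel

theorem cD7k_0_k28_43 : allI cD7k_0_c (rjL dJ cD7k_0_q rD7k_28_43) 7778 = true := by
  decide +kernel

/-- nodes -/
noncomputable def cD7k_0_n28 : List (QJ PN) :=
  rjL dJ cD7k_0_q rD7k_28_0 ++ (rjL dJ cD7k_0_q rD7k_28_1 ++ (rjL dJ cD7k_0_q rD7k_28_2 ++ (
    rjL dJ cD7k_0_q rD7k_28_3 ++ (rjL dJ cD7k_0_q rD7k_28_4 ++ (rjL dJ cD7k_0_q rD7k_28_5 ++ (
    rjL dJ cD7k_0_q rD7k_28_6 ++ (rjL dJ cD7k_0_q rD7k_28_7 ++ (rjL dJ cD7k_0_q rD7k_28_8 ++ (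
    rjL dJ cD7k_0_q rD7k_28_9 ++ (rjL dJ cD7k_0_q rD7k_28_10 ++ (rjL dJ cD7k_0_q rD7k_28_11 ++ (
    rjL dJ cD7k_0_q rD7k_28_12 ++ (rjL dJ cD7k_0_q rD7k_28_13 ++ (rjL dJ cD7k_0_q rD7k_28_14 ++ (
    rjL dJ cD7k_0_q rD7k_28_15 ++ (rjL dJ cD7k_0_q rD7k_28_16 ++ (rjL dJ cD7k_0_q rD7k_28_17 ++ (
    rjL dJ cD7k_0_q rD7k_28_18 ++ (rjL dJ cD7k_0_q rD7k_28_19 ++ (rjL dJ cD7k_0_q rD7k_28_20 ++ (
    rjL dJ cD7k_0_q rD7k_28_21 ++ (rjL dJ cD7k_0_q rD7k_28_22 ++ (rjL dJ cD7k_0_q rD7k_28_23 ++ (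
    rjL dJ cD7k_0_q rD7k_28_24 ++ (rjL dJ cD7k_0_q rD7k_28_25 ++ (rjL dJ cD7k_0_q rD7k_28_26 ++ (
    rjL dJ cD7k_0_q rD7k_28_27 ++ (rjL dJ cD7k_0_q rD7k_28_28 ++ (rjL dJ cD7k_0_q rD7k_28_29 ++ (
    rjL dJ cD7k_0_q rD7k_28_30 ++ (rjL dJ cD7k_0_q rD7k_28_31 ++ (rjL dJ cD7k_0_q rD7k_28_32 ++ (
    rjL dJ cD7k_0_q rD7k_28_33 ++ (rjL dJ cD7k_0_q rD7k_28_34 ++ (rjL dJ cD7k_0_q rD7k_28_35 ++ (
    rjL dJ cD7k_0_q rD7k_28_36 ++ (rjL dJ cD7k_0_q rD7k_28_37 ++ (rjL dJ cD7k_0_q rD7k_28_38 ++ (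
    rjL dJ cD7k_0_q rD7k_28_39 ++ (rjL dJ cD7k_0_q rD7k_28_40 ++ (rjL dJ cD7k_0_q rD7k_28_41 ++ (
    rjL dJ cD7k_0_q rD7k_28_42 ++
    rjL dJ cD7k_0_q rD7k_28_43))))))))))))))))))))))))))))))))))))))))))

theorem cD7k_0_k28 : allI cD7k_0_c cD7k_0_n28 7657 = true := by
  refine allI_appQ (k := 2) cD7k_0_k28_0 (by decide +kernel) ?_
  refine allI_appQ (k := 2) cD7k_0_k28_1 (by decide +kernel) ?_
  refine allI_appQ (k := 2) cD7k_0_k28_2 (by decide +kernel) ?_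
  refine allI_appQ (k := 2) cD7k_0_k28_3 (by decide +kernel) ?_
  refine allI_appQ (k := 3) cD7k_0_k28_4 (by decide +kernel) ?_
  refine allI_appQ (k := 3) cD7k_0_k28_5 (by decide +kernel) ?_
  refine allI_appQ (k := 3) cD7k_0_k28_6 (by decide +kernel) ?_
  refine allI_appQ (k := 3) cD7k_0_k28_7 (by decide +kernel) ?_
  refine allI_appQ (k := 3) cD7k_0_k28_8 (by decide +kernel) ?_
  refine allI_appQ (k := 2) cD7k_0_k28_9 (by decide +kernel) ?_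
  refine allI_appQ (k := 2) cD7k_0_k28_10 (by decide +kernel) ?_
  refine allI_appQ (k := 3) cD7k_0_k28_11 (by decide +kernel) ?_
  refine allI_appQ (k := 3) cD7k_0_k28_12 (by decide +kernel) ?_
  refine allI_appQ (k := 3) cD7k_0_k28_13 (by decide +kernel) ?_
  refine allI_appQ (k := 3) cD7k_0_k28_14 (by decide +kernel) ?_
  refine allI_appQ (k := 2) cD7k_0_k28_15 (by decide +kernel) ?_
  refine allI_appQ (k := 3) cD7k_0_k28_16 (by decide +kernel) ?_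
  refine allI_appQ (k := 4) cD7k_0_k28_17 (by decide +kernel) ?_
  refine allI_appQ (k := 3) cD7k_0_k28_18 (by decide +kernel) ?_
  refine allI_appQ (k := 3) cD7k_0_k28_19 (by decide +kernel) ?_
  refine allI_appQ (k := 3) cD7k_0_k28_20 (by decide +kernel) ?_
  refine allI_appQ (k := 3) cD7k_0_k28_21 (by decide +kernel) ?_
  refine allI_appQ (k := 3) cD7k_0_k28_22 (by decide +kernel) ?_
  refine allI_appQ (k := 3) cD7k_0_k28_23 (by decide +kernel) ?_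
  refine allI_appQ (k := 3) cD7k_0_k28_24 (by decide +kernel) ?_
  refine allI_appQ (k := 3) cD7k_0_k28_25 (by decide +kernel) ?_
  refine allI_appQ (k := 3) cD7k_0_k28_26 (by decide +kernel) ?_
  refine allI_appQ (k := 3) cD7k_0_k28_27 (by decide +kernel) ?_
  refine allI_appQ (k := 3) cD7k_0_k28_28 (by decide +kernel) ?_
  refine allI_appQ (k := 3) cD7k_0_k28_29 (by decide +kernel) ?_
  refine allI_appQ (k := 3) cD7k_0_k28_30 (by decide +kernel) ?_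
  refine allI_appQ (k := 3) cD7k_0_k28_31 (by decide +kernel) ?_
  refine allI_appQ (k := 3) cD7k_0_k28_32 (by decide +kernel) ?_
  refine allI_appQ (k := 3) cD7k_0_k28_33 (by decide +kernel) ?_
  refine allI_appQ (k := 3) cD7k_0_k28_34 (by decide +kernel) ?_
  refine allI_appQ (k := 3) cD7k_0_k28_35 (by decide +kernel) ?_
  refine allI_appQ (k := 3) cD7k_0_k28_36 (by decide +kernel) ?_
  refine allI_appQ (k := 2) cD7k_0_k28_37 (by decide +kernel) ?_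
  refine allI_appQ (k := 2) cD7k_0_k28_38 (by decide +kernel) ?_
  refine allI_appQ (k := 2) cD7k_0_k28_39 (by decide +kernel) ?_
  refine allI_appQ (k := 4) cD7k_0_k28_40 (by decide +kernel) ?_
  refine allI_appQ (k := 4) cD7k_0_k28_41 (by decide +kernel) ?_
  refine allI_appQ (k := 2) cD7k_0_k28_42 (by decide +kernel) ?_
  exact cD7k_0_k28_43

theorem cD7k_0_l28 : cD7k_0_n28.length = 122 := by
  decide +kernel

end Pool.Agent.Lib_MP_fa6e45
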