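import Pool.Agent.Lib_MP_fa6e45.DQ7k_0d
import Pool.Agent.Lib_MP_fa6e45.RD7k_29

/-!
MP_fa6e45_co, stage 9: straight-side patterns with `7` sides, part of a certificate (generated by a program).
-/

namespace Pool.Agent.Lib_MP_fa6e45

theorem cD7k_0_k29_0 : allI cD7k_0_c (rjL dJ cD7k_0_q rD7k_29_0) 7779 = true := by
  decide +kernel

theorem cD7k_0_k29_1 : allI cD7k_0_c (rjL dJ cD7k_0_q rD7k_29_1) 7782 = true := by
  decide +kernel

theorem cD7k_0_k29_2 : allI cD7k_0_c (rjL dJ cD7k_0_q rD7k_29_2) 7785 = true := by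
  decide +kernel

theorem cD7k_0_k29_3 : allI cD7k_0_c (rjL dJ cD7k_0_q rD7k_29_3) 7788 = true := by
  decide +kernel

theorem cD7k_0_k29_4 : allI cD7k_0_c (rjL dJ cD7k_0_q rD7k_29_4) 7791 = true := by
  decide +kernel

theorem cD7k_0_k29_5 : allI cD7k_0_c (rjL dJ cD7k_0_q rD7k_29_5) 7794 = true := by
  decide +kernel

theorem cD7k_0_k29_6 : allI cD7k_0_c (rjL dJ cD7k_0_q rD7k_29_6) 7796 = true := by
  decide +kernel

theorem cD7k_0_k29_7 : allI cD7k_0_c (rjL dJ cD7k_0_q rD7k_29_7) 7799 = true := by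
  decide +kernel

theorem cD7k_0_k29_8 : allI cD7k_0_c (rjL dJ cD7k_0_q rD7k_29_8) 7802 = true := by
  decide +kernel

theorem cD7k_0_k29_9 : allI cD7k_0_c (rjL dJ cD7k_0_q rD7k_29_9) 7805 = true := by
  decide +kernel

theorem cD7k_0_k29_10 : allI cD7k_0_c (rjL dJ cD7k_0_q rD7k_29_10) 7808 = true := by
  decide +kernel

theorem cD7k_0_k29_11 : allI cD7k_0_c (rjL dJ cD7k_0_q rD7k_29_11) 7811 = true := by
  decide +kernel

theorem cD7k_0_k29_12 : allI cD7k_0_c (rjL dJ cD7k_0_q rD7k_29_12) 7814 = true := by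
  decide +kernel

theorem cD7k_0_k29_13 : allI cD7k_0_c (rjL dJ cD7k_0_q rD7k_29_13) 7817 = true := by
  decide +kernel

theorem cD7k_0_k29_14 : allI cD7k_0_c (rjL dJ cD7k_0_q rD7k_29_14) 7820 = true := by
  decide +kernel

theorem cD7k_0_k29_15 : allI cD7k_0_c (rjL dJ cD7k_0_q rD7k_29_15) 7823 = true := by
  decide +kernel

theorem cD7k_0_k29_16 : allI cD7k_0_c (rjL dJ cD7k_0_q rD7k_29_16) 7827 = true := by
  decide +kernel

theorem cD7k_0_k29_17 : allI cD7k_0_c (rjL dJ cD7k_0_q rD7k_29_17) 7830 = true := by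
  decide +kernel

theorem cD7k_0_k29_18 : allI cD7k_0_c (rjL dJ cD7k_0_q rD7k_29_18) 7833 = true := by
  decide +kernel

theorem cD7k_0_k29_19 : allI cD7k_0_c (rjL dJ cD7k_0_q rD7k_29_19) 7836 = true := by
  decide +kernel

theorem cD7k_0_k29_20 : allI cD7k_0_c (rjL dJ cD7k_0_q rD7k_29_20) 7839 = true := by
  decide +kernel

theorem cD7k_0_k29_21 : allI cD7k_0_c (rjL dJ cD7k_0_q rD7k_29_21) 7843 = true := by
  decide +kernel

theorem cD7k_0_k29_22 : allI cD7k_0_c (rjL dJ cD7k_0_q rD7k_29_22) 7845 = true := by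
  decide +kernel

theorem cD7k_0_k29_23 : allI cD7k_0_c (rjL dJ cD7k_0_q rD7k_29_23) 7849 = true := by
  decide +kernel

theorem cD7k_0_k29_24 : allI cD7k_0_c (rjL dJ cD7k_0_q rD7k_29_24) 7852 = true := by
  decide +kernel

theorem cD7k_0_k29_25 : allI cD7k_0_c (rjL dJ cD7k_0_q rD7k_29_25) 7855 = true := by
  decide +kernel

theorem cD7k_0_k29_26 : allI cD7k_0_c (rjL dJ cD7k_0_q rD7k_29_26) 7858 = true := by
  decide +kernel

theorem cD7k_0_k29_27 : allI cD7k_0_c (rjL dJ cD7k_0_q rD7k_29_27) 7861 = true := by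
  decide +kernel

theorem cD7k_0_k29_28 : allI cD7k_0_c (rjL dJ cD7k_0_q rD7k_29_28) 7864 = true := by
  decide +kernel

theorem cD7k_0_k29_29 : allI cD7k_0_c (rjL dJ cD7k_0_q rD7k_29_29) 7867 = true := by
  decide +kernel

theorem cD7k_0_k29_30 : allI cD7k_0_c (rjL dJ cD7k_0_q rD7k_29_30) 7870 = true := by
  decide +kernel

theorem cD7k_0_k29_31 : allI cD7k_0_c (rjL dJ cD7k_0_q rD7k_29_31) 7873 = true := by
  decide +kernel

theorem cD7k_0_k29_32 : allI cD7k_0_c (rjL dJ cD7k_0_q rD7k_29_32) 7876 = true := by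
  decide +kernel

theorem cD7k_0_k29_33 : allI cD7k_0_c (rjL dJ cD7k_0_q rD7k_29_33) 7879 = true := by
  decide +kernel

theorem cD7k_0_k29_34 : allI cD7k_0_c (rjL dJ cD7k_0_q rD7k_29_34) 7882 = true := by
  decide +kernel

theorem cD7k_0_k29_35 : allI cD7k_0_c (rjL dJ cD7k_0_q rD7k_29_35) 7884 = true := by
  decide +kernel

theorem cD7k_0_k29_36 : allI cD7k_0_c (rjL dJ cD7k_0_q rD7k_29_36) 7886 = true := by
  decide +kernel

theorem cD7k_0_k29_37 : allI cD7k_0_c (rjL dJ cD7k_0_q rD7k_29_37) 7889 = true := by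
  decide +kernel

theorem cD7k_0_k29_38 : allI cD7k_0_c (rjL dJ cD7k_0_q rD7k_29_38) 7892 = true := by
  decide +kernel

theorem cD7k_0_k29_39 : allI cD7k_0_c (rjL dJ cD7k_0_q rD7k_29_39) 7895 = true := by
  decide +kernel

theorem cD7k_0_k29_40 : allI cD7k_0_c (rjL dJ cD7k_0_q rD7k_29_40) 7900 = true := by
  decide +kernel

theorem cD7k_0_k29_41 : allI cD7k_0_c (rjL dJ cD7k_0_q rD7k_29_41) 7905 = true := by
  decide +kernel

theorem cD7k_0_k29_42 : allI cD7k_0_c (rjL dJ cD7k_0_q rD7k_29_42) 7908 = true := by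
  decide +kernel

theorem cD7k_0_k29_43 : allI cD7k_0_c (rjL dJ cD7k_0_q rD7k_29_43) 7911 = true := by
  decide +kernel

/-- nodes -/
noncomputable def cD7k_0_n29 : List (QJ PN) :=
  rjL dJ cD7k_0_q rD7k_29_0 ++ (rjL dJ cD7k_0_q rD7k_29_1 ++ (rjL dJ cD7k_0_q rD7k_29_2 ++ (
    rjL dJ cD7k_0_q rD7k_29_3 ++ (rjL dJ cD7k_0_q rD7k_29_4 ++ (rjL dJ cD7k_0_q rD7k_29_5 ++ (
    rjL dJ cD7k_0_q rD7k_29_6 ++ (rjL dJ cD7k_0_q rD7k_29_7 ++ (rjL dJ cD7k_0_q rD7k_29_8 ++ (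
    rjL dJ cD7k_0_q rD7k_29_9 ++ (rjL dJ cD7k_0_q rD7k_29_10 ++ (rjL dJ cD7k_0_q rD7k_29_11 ++ (
    rjL dJ cD7k_0_q rD7k_29_12 ++ (rjL dJ cD7k_0_q rD7k_29_13 ++ (rjL dJ cD7k_0_q rD7k_29_14 ++ (
    rjL dJ cD7k_0_q rD7k_29_15 ++ (rjL dJ cD7k_0_q rD7k_29_16 ++ (rjL dJ cD7k_0_q rD7k_29_17 ++ (
    rjL dJ cD7k_0_q rD7k_29_18 ++ (rjL dJ cD7k_0_q rD7k_29_19 ++ (rjL dJ cD7k_0_q rD7k_29_20 ++ (
    rjL dJ cD7k_0_q rD7k_29_21 ++ (rjL dJ cD7k_0_q rD7k_29_22 ++ (rjL dJ cD7k_0_q rD7k_29_23 ++ (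
    rjL dJ cD7k_0_q rD7k_29_24 ++ (rjL dJ cD7k_0_q rD7k_29_25 ++ (rjL dJ cD7k_0_q rD7k_29_26 ++ (
    rjL dJ cD7k_0_q rD7k_29_27 ++ (rjL dJ cD7k_0_q rD7k_29_28 ++ (rjL dJ cD7k_0_q rD7k_29_29 ++ (
    rjL dJ cD7k_0_q rD7k_29_30 ++ (rjL dJ cD7k_0_q rD7k_29_31 ++ (rjL dJ cD7k_0_q rD7k_29_32 ++ (
    rjL dJ cD7k_0_q rD7k_29_33 ++ (rjL dJ cD7k_0_q rD7k_29_34 ++ (rjL dJ cD7k_0_q rD7k_29_35 ++ (
    rjL dJ cD7k_0_q rD7k_29_36 ++ (rjL dJ cD7k_0_q rD7k_29_37 ++ (rjL dJ cD7k_0_q rD7k_29_38 ++ (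
    rjL dJ cD7k_0_q rD7k_29_39 ++ (rjL dJ cD7k_0_q rD7k_29_40 ++ (rjL dJ cD7k_0_q rD7k_29_41 ++ (
    rjL dJ cD7k_0_q rD7k_29_42 ++
    rjL dJ cD7k_0_q rD7k_29_43))))))))))))))))))))))))))))))))))))))))))

theorem cD7k_0_k29 : allI cD7k_0_c cD7k_0_n29 7779 = true := by
  refine allI_appQ (k := 3) cD7k_0_k29_0 (by decide +kernel) ?_
  refine allI_appQ (k := 3) cD7k_0_k29_1 (by decide +kernel) ?_
  refine allI_appQ (k := 3) cD7k_0_k29_2 (by decide +kernel) ?_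
  refine allI_appQ (k := 3) cD7k_0_k29_3 (by decide +kernel) ?_
  refine allI_appQ (k := 3) cD7k_0_k29_4 (by decide +kernel) ?_
  refine allI_appQ (k := 2) cD7k_0_k29_5 (by decide +kernel) ?_
  refine allI_appQ (k := 3) cD7k_0_k29_6 (by decide +kernel) ?_
  refine allI_appQ (k := 3) cD7k_0_k29_7 (by decide +kernel) ?_
  refine allI_appQ (k := 3) cD7k_0_k29_8 (by decide +kernel) ?_
  refine allI_appQ (k := 3) cD7k_0_k29_9 (by decide +kernel) ?_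
  refine allI_appQ (k := 3) cD7k_0_k29_10 (by decide +kernel) ?_
  refine allI_appQ (k := 3) cD7k_0_k29_11 (by decide +kernel) ?_
  refine allI_appQ (k := 3) cD7k_0_k29_12 (by decide +kernel) ?_
  refine allI_appQ (k := 3) cD7k_0_k29_13 (by decide +kernel) ?_
  refine allI_appQ (k := 3) cD7k_0_k29_14 (by decide +kernel) ?_
  refine allI_appQ (k := 4) cD7k_0_k29_15 (by decide +kernel) ?_
  refine allI_appQ (k := 3) cD7k_0_k29_16 (by decide +kernel) ?_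
  refine allI_appQ (k := 3) cD7k_0_k29_17 (by decide +kernel) ?_
  refine allI_appQ (k := 3) cD7k_0_k29_18 (by decide +kernel) ?_
  refine allI_appQ (k := 3) cD7k_0_k29_19 (by decide +kernel) ?_
  refine allI_appQ (k := 4) cD7k_0_k29_20 (by decide +kernel) ?_
  refine allI_appQ (k := 2) cD7k_0_k29_21 (by decide +kernel) ?_
  refine allI_appQ (k := 4) cD7k_0_k29_22 (by decide +kernel) ?_
  refine allI_appQ (k := 3) cD7k_0_k29_23 (by decide +kernel) ?_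
  refine allI_appQ (k := 3) cD7k_0_k29_24 (by decide +kernel) ?_
  refine allI_appQ (k := 3) cD7k_0_k29_25 (by decide +kernel) ?_
  refine allI_appQ (k := 3) cD7k_0_k29_26 (by decide +kernel) ?_
  refine allI_appQ (k := 3) cD7k_0_k29_27 (by decide +kernel) ?_
  refine allI_appQ (k := 3) cD7k_0_k29_28 (by decide +kernel) ?_
  refine allI_appQ (k := 3) cD7k_0_k29_29 (by decide +kernel) ?_
  refine allI_appQ (k := 3) cD7k_0_k29_30 (by decide +kernel) ?_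
  refine allI_appQ (k := 3) cD7k_0_k29_31 (by decide +kernel) ?_
  refine allI_appQ (k := 3) cD7k_0_k29_32 (by decide +kernel) ?_
  refine allI_appQ (k := 3) cD7k_0_k29_33 (by decide +kernel) ?_
  refine allI_appQ (k := 2) cD7k_0_k29_34 (by decide +kernel) ?_
  refine allI_appQ (k := 2) cD7k_0_k29_35 (by decide +kernel) ?_
  refine allI_appQ (k := 3) cD7k_0_k29_36 (by decide +kernel) ?_
  refine allI_appQ (k := 3) cD7k_0_k29_37 (by decide +kernel) ?_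
  refine allI_appQ (k := 3) cD7k_0_k29_38 (by decide +kernel) ?_
  refine allI_appQ (k := 5) cD7k_0_k29_39 (by decide +kernel) ?_
  refine allI_appQ (k := 5) cD7k_0_k29_40 (by decide +kernel) ?_
  refine allI_appQ (k := 3) cD7k_0_k29_41 (by decide +kernel) ?_
  refine allI_appQ (k := 3) cD7k_0_k29_42 (by decide +kernel) ?_
  exact cD7k_0_k29_43

theorem cD7k_0_l29 : cD7k_0_n29.length = 133 := by
  decide +kernel

end Pool.Agent.Lib_MP_fa6e45
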