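import Pool.Agent.Lib_MP_fa6e45.DQ7k_0d
import Pool.Agent.Lib_MP_fa6e45.RD7k_3

/-!
MP_fa6e45_co, stage 9: straight-side patterns with `7` sides, part of a certificate (generated by a program).
-/

namespace Pool.Agent.Lib_MP_fa6e45

theorem cD7k_0_k3_0 : allI cD7k_0_c (rjL dJ cD7k_0_q rD7k_3_0) 3836 = true := by
  decide +kernel

theorem cD7k_0_k3_1 : allI cD7k_0_c (rjL dJ cD7k_0_q rD7k_3_1) 3847 = true := by
  decide +kernel

theorem cD7k_0_k3_2 : allI cD7k_0_c (rjL dJ cD7k_0_q rD7k_3_2) 3855 = true := by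
  decide +kernel

theorem cD7k_0_k3_3 : allI cD7k_0_c (rjL dJ cD7k_0_q rD7k_3_3) 3865 = true := by
  decide +kernel

theorem cD7k_0_k3_4 : allI cD7k_0_c (rjL dJ cD7k_0_q rD7k_3_4) 3877 = true := by
  decide +kernel

theorem cD7k_0_k3_5 : allI cD7k_0_c (rjL dJ cD7k_0_q rD7k_3_5) 3883 = true := by
  decide +kernel

theorem cD7k_0_k3_6 : allI cD7k_0_c (rjL dJ cD7k_0_q rD7k_3_6) 3892 = true := by
  decide +kernel

theorem cD7k_0_k3_7 : allI cD7k_0_c (rjL dJ cD7k_0_q rD7k_3_7) 3901 = true := by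
  decide +kernel

theorem cD7k_0_k3_8 : allI cD7k_0_c (rjL dJ cD7k_0_q rD7k_3_8) 3910 = true := by
  decide +kernel

theorem cD7k_0_k3_9 : allI cD7k_0_c (rjL dJ cD7k_0_q rD7k_3_9) 3928 = true := by
  decide +kernel

theorem cD7k_0_k3_10 : allI cD7k_0_c (rjL dJ cD7k_0_q rD7k_3_10) 3945 = true := by
  decide +kernel

theorem cD7k_0_k3_11 : allI cD7k_0_c (rjL dJ cD7k_0_q rD7k_3_11) 3960 = true := by
  decide +kernel

theorem cD7k_0_k3_12 : allI cD7k_0_c (rjL dJ cD7k_0_q rD7k_3_12) 3972 = true := by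
  decide +kernel

theorem cD7k_0_k3_13 : allI cD7k_0_c (rjL dJ cD7k_0_q rD7k_3_13) 3985 = true := by
  decide +kernel

theorem cD7k_0_k3_14 : allI cD7k_0_c (rjL dJ cD7k_0_q rD7k_3_14) 3995 = true := by
  decide +kernel

theorem cD7k_0_k3_15 : allI cD7k_0_c (rjL dJ cD7k_0_q rD7k_3_15) 4005 = true := by
  decide +kernel

theorem cD7k_0_k3_16 : allI cD7k_0_c (rjL dJ cD7k_0_q rD7k_3_16) 4016 = true := by
  decide +kernel

theorem cD7k_0_k3_17 : allI cD7k_0_c (rjL dJ cD7k_0_q rD7k_3_17) 4026 = true := by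
  decide +kernel

theorem cD7k_0_k3_18 : allI cD7k_0_c (rjL dJ cD7k_0_q rD7k_3_18) 4036 = true := by
  decide +kernel

theorem cD7k_0_k3_19 : allI cD7k_0_c (rjL dJ cD7k_0_q rD7k_3_19) 4052 = true := by
  decide +kernel

theorem cD7k_0_k3_20 : allI cD7k_0_c (rjL dJ cD7k_0_q rD7k_3_20) 4064 = true := by
  decide +kernel

theorem cD7k_0_k3_21 : allI cD7k_0_c (rjL dJ cD7k_0_q rD7k_3_21) 4077 = true := by
  decide +kernel

theorem cD7k_0_k3_22 : allI cD7k_0_c (rjL dJ cD7k_0_q rD7k_3_22) 4090 = true := by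
  decide +kernel

theorem cD7k_0_k3_23 : allI cD7k_0_c (rjL dJ cD7k_0_q rD7k_3_23) 4105 = true := by
  decide +kernel

theorem cD7k_0_k3_24 : allI cD7k_0_c (rjL dJ cD7k_0_q rD7k_3_24) 4124 = true := by
  decide +kernel

theorem cD7k_0_k3_25 : allI cD7k_0_c (rjL dJ cD7k_0_q rD7k_3_25) 4138 = true := by
  decide +kernel

theorem cD7k_0_k3_26 : allI cD7k_0_c (rjL dJ cD7k_0_q rD7k_3_26) 4154 = true := by
  decide +kernel

theorem cD7k_0_k3_27 : allI cD7k_0_c (rjL dJ cD7k_0_q rD7k_3_27) 4168 = true := by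
  decide +kernel

theorem cD7k_0_k3_28 : allI cD7k_0_c (rjL dJ cD7k_0_q rD7k_3_28) 4186 = true := by
  decide +kernel

theorem cD7k_0_k3_29 : allI cD7k_0_c (rjL dJ cD7k_0_q rD7k_3_29) 4201 = true := by
  decide +kernel

theorem cD7k_0_k3_30 : allI cD7k_0_c (rjL dJ cD7k_0_q rD7k_3_30) 4213 = true := by
  decide +kernel

theorem cD7k_0_k3_31 : allI cD7k_0_c (rjL dJ cD7k_0_q rD7k_3_31) 4227 = true := by
  decide +kernel

theorem cD7k_0_k3_32 : allI cD7k_0_c (rjL dJ cD7k_0_q rD7k_3_32) 4244 = true := by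
  decide +kernel

theorem cD7k_0_k3_33 : allI cD7k_0_c (rjL dJ cD7k_0_q rD7k_3_33) 4260 = true := by
  decide +kernel

theorem cD7k_0_k3_34 : allI cD7k_0_c (rjL dJ cD7k_0_q rD7k_3_34) 4270 = true := by
  decide +kernel

theorem cD7k_0_k3_35 : allI cD7k_0_c (rjL dJ cD7k_0_q rD7k_3_35) 4285 = true := by
  decide +kernel

theorem cD7k_0_k3_36 : allI cD7k_0_c (rjL dJ cD7k_0_q rD7k_3_36) 4302 = true := by
  decide +kernel

theorem cD7k_0_k3_37 : allI cD7k_0_c (rjL dJ cD7k_0_q rD7k_3_37) 4316 = true := by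
  decide +kernel

/-- nodes -/
noncomputable def cD7k_0_n3 : List (QJ PN) :=
  rjL dJ cD7k_0_q rD7k_3_0 ++ (rjL dJ cD7k_0_q rD7k_3_1 ++ (rjL dJ cD7k_0_q rD7k_3_2 ++ (
    rjL dJ cD7k_0_q rD7k_3_3 ++ (rjL dJ cD7k_0_q rD7k_3_4 ++ (rjL dJ cD7k_0_q rD7k_3_5 ++ (
    rjL dJ cD7k_0_q rD7k_3_6 ++ (rjL dJ cD7k_0_q rD7k_3_7 ++ (rjL dJ cD7k_0_q rD7k_3_8 ++ (
    rjL dJ cD7k_0_q rD7k_3_9 ++ (rjL dJ cD7k_0_q rD7k_3_10 ++ (rjL dJ cD7k_0_q rD7k_3_11 ++ (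
    rjL dJ cD7k_0_q rD7k_3_12 ++ (rjL dJ cD7k_0_q rD7k_3_13 ++ (rjL dJ cD7k_0_q rD7k_3_14 ++ (
    rjL dJ cD7k_0_q rD7k_3_15 ++ (rjL dJ cD7k_0_q rD7k_3_16 ++ (rjL dJ cD7k_0_q rD7k_3_17 ++ (
    rjL dJ cD7k_0_q rD7k_3_18 ++ (rjL dJ cD7k_0_q rD7k_3_19 ++ (rjL dJ cD7k_0_q rD7k_3_20 ++ (
    rjL dJ cD7k_0_q rD7k_3_21 ++ (rjL dJ cD7k_0_q rD7k_3_22 ++ (rjL dJ cD7k_0_q rD7k_3_23 ++ (
    rjL dJ cD7k_0_q rD7k_3_24 ++ (rjL dJ cD7k_0_q rD7k_3_25 ++ (rjL dJ cD7k_0_q rD7k_3_26 ++ (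
    rjL dJ cD7k_0_q rD7k_3_27 ++ (rjL dJ cD7k_0_q rD7k_3_28 ++ (rjL dJ cD7k_0_q rD7k_3_29 ++ (
    rjL dJ cD7k_0_q rD7k_3_30 ++ (rjL dJ cD7k_0_q rD7k_3_31 ++ (rjL dJ cD7k_0_q rD7k_3_32 ++ (
    rjL dJ cD7k_0_q rD7k_3_33 ++ (rjL dJ cD7k_0_q rD7k_3_34 ++ (rjL dJ cD7k_0_q rD7k_3_35 ++ (
    rjL dJ cD7k_0_q rD7k_3_36 ++ rjL dJ cD7k_0_q rD7k_3_37))))))))))))))))))))))))))))))))))))

theorem cD7k_0_k3 : allI cD7k_0_c cD7k_0_n3 3836 = true := by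
  refine allI_appQ (k := 11) cD7k_0_k3_0 (by decide +kernel) ?_
  refine allI_appQ (k := 8) cD7k_0_k3_1 (by decide +kernel) ?_
  refine allI_appQ (k := 10) cD7k_0_k3_2 (by decide +kernel) ?_
  refine allI_appQ (k := 12) cD7k_0_k3_3 (by decide +kernel) ?_
  refine allI_appQ (k := 6) cD7k_0_k3_4 (by decide +kernel) ?_
  refine allI_appQ (k := 9) cD7k_0_k3_5 (by decide +kernel) ?_
  refine allI_appQ (k := 9) cD7k_0_k3_6 (by decide +kernel) ?_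
  refine allI_appQ (k := 9) cD7k_0_k3_7 (by decide +kernel) ?_
  refine allI_appQ (k := 18) cD7k_0_k3_8 (by decide +kernel) ?_
  refine allI_appQ (k := 17) cD7k_0_k3_9 (by decide +kernel) ?_
  refine allI_appQ (k := 15) cD7k_0_k3_10 (by decide +kernel) ?_
  refine allI_appQ (k := 12) cD7k_0_k3_11 (by decide +kernel) ?_
  refine allI_appQ (k := 13) cD7k_0_k3_12 (by decide +kernel) ?_
  refine allI_appQ (k := 10) cD7k_0_k3_13 (by decide +kernel) ?_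
  refine allI_appQ (k := 10) cD7k_0_k3_14 (by decide +kernel) ?_
  refine allI_appQ (k := 11) cD7k_0_k3_15 (by decide +kernel) ?_
  refine allI_appQ (k := 10) cD7k_0_k3_16 (by decide +kernel) ?_
  refine allI_appQ (k := 10) cD7k_0_k3_17 (by decide +kernel) ?_
  refine allI_appQ (k := 16) cD7k_0_k3_18 (by decide +kernel) ?_
  refine allI_appQ (k := 12) cD7k_0_k3_19 (by decide +kernel) ?_
  refine allI_appQ (k := 13) cD7k_0_k3_20 (by decide +kernel) ?_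
  refine allI_appQ (k := 13) cD7k_0_k3_21 (by decide +kernel) ?_
  refine allI_appQ (k := 15) cD7k_0_k3_22 (by decide +kernel) ?_
  refine allI_appQ (k := 19) cD7k_0_k3_23 (by decide +kernel) ?_
  refine allI_appQ (k := 14) cD7k_0_k3_24 (by decide +kernel) ?_
  refine allI_appQ (k := 16) cD7k_0_k3_25 (by decide +kernel) ?_
  refine allI_appQ (k := 14) cD7k_0_k3_26 (by decide +kernel) ?_
  refine allI_appQ (k := 18) cD7k_0_k3_27 (by decide +kernel) ?_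
  refine allI_appQ (k := 15) cD7k_0_k3_28 (by decide +kernel) ?_
  refine allI_appQ (k := 12) cD7k_0_k3_29 (by decide +kernel) ?_
  refine allI_appQ (k := 14) cD7k_0_k3_30 (by decide +kernel) ?_
  refine allI_appQ (k := 17) cD7k_0_k3_31 (by decide +kernel) ?_
  refine allI_appQ (k := 16) cD7k_0_k3_32 (by decide +kernel) ?_
  refine allI_appQ (k := 10) cD7k_0_k3_33 (by decide +kernel) ?_
  refine allI_appQ (k := 15) cD7k_0_k3_34 (by decide +kernel) ?_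
  refine allI_appQ (k := 17) cD7k_0_k3_35 (by decide +kernel) ?_
  refine allI_appQ (k := 14) cD7k_0_k3_36 (by decide +kernel) ?_
  exact cD7k_0_k3_37

theorem cD7k_0_l3 : cD7k_0_n3.length = 493 := by
  decide +kernel

end Pool.Agent.Lib_MP_fa6e45
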