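import Pool.Agent.Lib_MP_fa6e45.DQ7k_0d
import Pool.Agent.Lib_MP_fa6e45.RD7k_4

/-!
MP_fa6e45_co, stage 9: straight-side patterns with `7` sides, part of a certificate (generated by a program).
-/

namespace Pool.Agent.Lib_MP_fa6e45

theorem cD7k_0_k4_0 : allI cD7k_0_c (rjL dJ cD7k_0_q rD7k_4_0) 4329 = true := by
  decide +kernel

theorem cD7k_0_k4_1 : allI cD7k_0_c (rjL dJ cD7k_0_q rD7k_4_1) 4343 = true := by
  decide +kernel

theorem cD7k_0_k4_2 : allI cD7k_0_c (rjL dJ cD7k_0_q rD7k_4_2) 4358 = true := by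
  decide +kernel

theorem cD7k_0_k4_3 : allI cD7k_0_c (rjL dJ cD7k_0_q rD7k_4_3) 4373 = true := by
  decide +kernel

theorem cD7k_0_k4_4 : allI cD7k_0_c (rjL dJ cD7k_0_q rD7k_4_4) 4387 = true := by
  decide +kernel

theorem cD7k_0_k4_5 : allI cD7k_0_c (rjL dJ cD7k_0_q rD7k_4_5) 4396 = true := by
  decide +kernel

theorem cD7k_0_k4_6 : allI cD7k_0_c (rjL dJ cD7k_0_q rD7k_4_6) 4411 = true := by
  decide +kernel

theorem cD7k_0_k4_7 : allI cD7k_0_c (rjL dJ cD7k_0_q rD7k_4_7) 4421 = true := by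
  decide +kernel

theorem cD7k_0_k4_8 : allI cD7k_0_c (rjL dJ cD7k_0_q rD7k_4_8) 4434 = true := by
  decide +kernel

theorem cD7k_0_k4_9 : allI cD7k_0_c (rjL dJ cD7k_0_q rD7k_4_9) 4450 = true := by
  decide +kernel

theorem cD7k_0_k4_10 : allI cD7k_0_c (rjL dJ cD7k_0_q rD7k_4_10) 4459 = true := by
  decide +kernel

theorem cD7k_0_k4_11 : allI cD7k_0_c (rjL dJ cD7k_0_q rD7k_4_11) 4468 = true := by
  decide +kernel

theorem cD7k_0_k4_12 : allI cD7k_0_c (rjL dJ cD7k_0_q rD7k_4_12) 4478 = true := by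
  decide +kernel

theorem cD7k_0_k4_13 : allI cD7k_0_c (rjL dJ cD7k_0_q rD7k_4_13) 4491 = true := by
  decide +kernel

theorem cD7k_0_k4_14 : allI cD7k_0_c (rjL dJ cD7k_0_q rD7k_4_14) 4503 = true := by
  decide +kernel

theorem cD7k_0_k4_15 : allI cD7k_0_c (rjL dJ cD7k_0_q rD7k_4_15) 4518 = true := by
  decide +kernel

theorem cD7k_0_k4_16 : allI cD7k_0_c (rjL dJ cD7k_0_q rD7k_4_16) 4528 = true := by
  decide +kernel

theorem cD7k_0_k4_17 : allI cD7k_0_c (rjL dJ cD7k_0_q rD7k_4_17) 4536 = true := by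
  decide +kernel

theorem cD7k_0_k4_18 : allI cD7k_0_c (rjL dJ cD7k_0_q rD7k_4_18) 4554 = true := by
  decide +kernel

theorem cD7k_0_k4_19 : allI cD7k_0_c (rjL dJ cD7k_0_q rD7k_4_19) 4570 = true := by
  decide +kernel

theorem cD7k_0_k4_20 : allI cD7k_0_c (rjL dJ cD7k_0_q rD7k_4_20) 4584 = true := by
  decide +kernel

theorem cD7k_0_k4_21 : allI cD7k_0_c (rjL dJ cD7k_0_q rD7k_4_21) 4596 = true := by
  decide +kernel

theorem cD7k_0_k4_22 : allI cD7k_0_c (rjL dJ cD7k_0_q rD7k_4_22) 4613 = true := by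
  decide +kernel

theorem cD7k_0_k4_23 : allI cD7k_0_c (rjL dJ cD7k_0_q rD7k_4_23) 4628 = true := by
  decide +kernel

theorem cD7k_0_k4_24 : allI cD7k_0_c (rjL dJ cD7k_0_q rD7k_4_24) 4646 = true := by
  decide +kernel

theorem cD7k_0_k4_25 : allI cD7k_0_c (rjL dJ cD7k_0_q rD7k_4_25) 4666 = true := by
  decide +kernel

theorem cD7k_0_k4_26 : allI cD7k_0_c (rjL dJ cD7k_0_q rD7k_4_26) 4689 = true := by
  decide +kernel

theorem cD7k_0_k4_27 : allI cD7k_0_c (rjL dJ cD7k_0_q rD7k_4_27) 4711 = true := by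
  decide +kernel

theorem cD7k_0_k4_28 : allI cD7k_0_c (rjL dJ cD7k_0_q rD7k_4_28) 4731 = true := by
  decide +kernel

theorem cD7k_0_k4_29 : allI cD7k_0_c (rjL dJ cD7k_0_q rD7k_4_29) 4748 = true := by
  decide +kernel

theorem cD7k_0_k4_30 : allI cD7k_0_c (rjL dJ cD7k_0_q rD7k_4_30) 4759 = true := by
  decide +kernel

theorem cD7k_0_k4_31 : allI cD7k_0_c (rjL dJ cD7k_0_q rD7k_4_31) 4773 = true := by
  decide +kernel

theorem cD7k_0_k4_32 : allI cD7k_0_c (rjL dJ cD7k_0_q rD7k_4_32) 4790 = true := by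
  decide +kernel

theorem cD7k_0_k4_33 : allI cD7k_0_c (rjL dJ cD7k_0_q rD7k_4_33) 4801 = true := by
  decide +kernel

theorem cD7k_0_k4_34 : allI cD7k_0_c (rjL dJ cD7k_0_q rD7k_4_34) 4810 = true := by
  decide +kernel

theorem cD7k_0_k4_35 : allI cD7k_0_c (rjL dJ cD7k_0_q rD7k_4_35) 4828 = true := by
  decide +kernel

theorem cD7k_0_k4_36 : allI cD7k_0_c (rjL dJ cD7k_0_q rD7k_4_36) 4844 = true := by
  decide +kernel

theorem cD7k_0_k4_37 : allI cD7k_0_c (rjL dJ cD7k_0_q rD7k_4_37) 4856 = true := by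
  decide +kernel

/-- nodes -/
noncomputable def cD7k_0_n4 : List (QJ PN) :=
  rjL dJ cD7k_0_q rD7k_4_0 ++ (rjL dJ cD7k_0_q rD7k_4_1 ++ (rjL dJ cD7k_0_q rD7k_4_2 ++ (
    rjL dJ cD7k_0_q rD7k_4_3 ++ (rjL dJ cD7k_0_q rD7k_4_4 ++ (rjL dJ cD7k_0_q rD7k_4_5 ++ (
    rjL dJ cD7k_0_q rD7k_4_6 ++ (rjL dJ cD7k_0_q rD7k_4_7 ++ (rjL dJ cD7k_0_q rD7k_4_8 ++ (
    rjL dJ cD7k_0_q rD7k_4_9 ++ (rjL dJ cD7k_0_q rD7k_4_10 ++ (rjL dJ cD7k_0_q rD7k_4_11 ++ (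
    rjL dJ cD7k_0_q rD7k_4_12 ++ (rjL dJ cD7k_0_q rD7k_4_13 ++ (rjL dJ cD7k_0_q rD7k_4_14 ++ (
    rjL dJ cD7k_0_q rD7k_4_15 ++ (rjL dJ cD7k_0_q rD7k_4_16 ++ (rjL dJ cD7k_0_q rD7k_4_17 ++ (
    rjL dJ cD7k_0_q rD7k_4_18 ++ (rjL dJ cD7k_0_q rD7k_4_19 ++ (rjL dJ cD7k_0_q rD7k_4_20 ++ (
    rjL dJ cD7k_0_q rD7k_4_21 ++ (rjL dJ cD7k_0_q rD7k_4_22 ++ (rjL dJ cD7k_0_q rD7k_4_23 ++ (
    rjL dJ cD7k_0_q rD7k_4_24 ++ (rjL dJ cD7k_0_q rD7k_4_25 ++ (rjL dJ cD7k_0_q rD7k_4_26 ++ (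
    rjL dJ cD7k_0_q rD7k_4_27 ++ (rjL dJ cD7k_0_q rD7k_4_28 ++ (rjL dJ cD7k_0_q rD7k_4_29 ++ (
    rjL dJ cD7k_0_q rD7k_4_30 ++ (rjL dJ cD7k_0_q rD7k_4_31 ++ (rjL dJ cD7k_0_q rD7k_4_32 ++ (
    rjL dJ cD7k_0_q rD7k_4_33 ++ (rjL dJ cD7k_0_q rD7k_4_34 ++ (rjL dJ cD7k_0_q rD7k_4_35 ++ (
    rjL dJ cD7k_0_q rD7k_4_36 ++ rjL dJ cD7k_0_q rD7k_4_37))))))))))))))))))))))))))))))))))))

theorem cD7k_0_k4 : allI cD7k_0_c cD7k_0_n4 4329 = true := by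
  refine allI_appQ (k := 14) cD7k_0_k4_0 (by decide +kernel) ?_
  refine allI_appQ (k := 15) cD7k_0_k4_1 (by decide +kernel) ?_
  refine allI_appQ (k := 15) cD7k_0_k4_2 (by decide +kernel) ?_
  refine allI_appQ (k := 14) cD7k_0_k4_3 (by decide +kernel) ?_
  refine allI_appQ (k := 9) cD7k_0_k4_4 (by decide +kernel) ?_
  refine allI_appQ (k := 15) cD7k_0_k4_5 (by decide +kernel) ?_
  refine allI_appQ (k := 10) cD7k_0_k4_6 (by decide +kernel) ?_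
  refine allI_appQ (k := 13) cD7k_0_k4_7 (by decide +kernel) ?_
  refine allI_appQ (k := 16) cD7k_0_k4_8 (by decide +kernel) ?_
  refine allI_appQ (k := 9) cD7k_0_k4_9 (by decide +kernel) ?_
  refine allI_appQ (k := 9) cD7k_0_k4_10 (by decide +kernel) ?_
  refine allI_appQ (k := 10) cD7k_0_k4_11 (by decide +kernel) ?_
  refine allI_appQ (k := 13) cD7k_0_k4_12 (by decide +kernel) ?_
  refine allI_appQ (k := 12) cD7k_0_k4_13 (by decide +kernel) ?_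
  refine allI_appQ (k := 15) cD7k_0_k4_14 (by decide +kernel) ?_
  refine allI_appQ (k := 10) cD7k_0_k4_15 (by decide +kernel) ?_
  refine allI_appQ (k := 8) cD7k_0_k4_16 (by decide +kernel) ?_
  refine allI_appQ (k := 18) cD7k_0_k4_17 (by decide +kernel) ?_
  refine allI_appQ (k := 16) cD7k_0_k4_18 (by decide +kernel) ?_
  refine allI_appQ (k := 14) cD7k_0_k4_19 (by decide +kernel) ?_
  refine allI_appQ (k := 12) cD7k_0_k4_20 (by decide +kernel) ?_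
  refine allI_appQ (k := 17) cD7k_0_k4_21 (by decide +kernel) ?_
  refine allI_appQ (k := 15) cD7k_0_k4_22 (by decide +kernel) ?_
  refine allI_appQ (k := 18) cD7k_0_k4_23 (by decide +kernel) ?_
  refine allI_appQ (k := 20) cD7k_0_k4_24 (by decide +kernel) ?_
  refine allI_appQ (k := 23) cD7k_0_k4_25 (by decide +kernel) ?_
  refine allI_appQ (k := 22) cD7k_0_k4_26 (by decide +kernel) ?_
  refine allI_appQ (k := 20) cD7k_0_k4_27 (by decide +kernel) ?_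
  refine allI_appQ (k := 17) cD7k_0_k4_28 (by decide +kernel) ?_
  refine allI_appQ (k := 11) cD7k_0_k4_29 (by decide +kernel) ?_
  refine allI_appQ (k := 14) cD7k_0_k4_30 (by decide +kernel) ?_
  refine allI_appQ (k := 17) cD7k_0_k4_31 (by decide +kernel) ?_
  refine allI_appQ (k := 11) cD7k_0_k4_32 (by decide +kernel) ?_
  refine allI_appQ (k := 9) cD7k_0_k4_33 (by decide +kernel) ?_
  refine allI_appQ (k := 18) cD7k_0_k4_34 (by decide +kernel) ?_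
  refine allI_appQ (k := 16) cD7k_0_k4_35 (by decide +kernel) ?_
  refine allI_appQ (k := 12) cD7k_0_k4_36 (by decide +kernel) ?_
  exact cD7k_0_k4_37

theorem cD7k_0_l4 : cD7k_0_n4.length = 539 := by
  decide +kernel

end Pool.Agent.Lib_MP_fa6e45
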