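import Pool.Agent.Lib_MP_fa6e45.DQ7k_0d
import Pool.Agent.Lib_MP_fa6e45.RD7k_5

/-!
MP_fa6e45_co, stage 9: straight-side patterns with `7` sides, part of a certificate (generated by a program).
-/

namespace Pool.Agent.Lib_MP_fa6e45

theorem cD7k_0_k5_0 : allI cD7k_0_c (rjL dJ cD7k_0_q rD7k_5_0) 4868 = true := by
  decide +kernel

theorem cD7k_0_k5_1 : allI cD7k_0_c (rjL dJ cD7k_0_q rD7k_5_1) 4885 = true := by
  decide +kernel

theorem cD7k_0_k5_2 : allI cD7k_0_c (rjL dJ cD7k_0_q rD7k_5_2) 4895 = true := by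
  decide +kernel

theorem cD7k_0_k5_3 : allI cD7k_0_c (rjL dJ cD7k_0_q rD7k_5_3) 4907 = true := by
  decide +kernel

theorem cD7k_0_k5_4 : allI cD7k_0_c (rjL dJ cD7k_0_q rD7k_5_4) 4924 = true := by
  decide +kernel

theorem cD7k_0_k5_5 : allI cD7k_0_c (rjL dJ cD7k_0_q rD7k_5_5) 4935 = true := by
  decide +kernel

theorem cD7k_0_k5_6 : allI cD7k_0_c (rjL dJ cD7k_0_q rD7k_5_6) 4949 = true := by
  decide +kernel

theorem cD7k_0_k5_7 : allI cD7k_0_c (rjL dJ cD7k_0_q rD7k_5_7) 4959 = true := by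
  decide +kernel

theorem cD7k_0_k5_8 : allI cD7k_0_c (rjL dJ cD7k_0_q rD7k_5_8) 4965 = true := by
  decide +kernel

theorem cD7k_0_k5_9 : allI cD7k_0_c (rjL dJ cD7k_0_q rD7k_5_9) 4977 = true := by
  decide +kernel

theorem cD7k_0_k5_10 : allI cD7k_0_c (rjL dJ cD7k_0_q rD7k_5_10) 4988 = true := by
  decide +kernel

theorem cD7k_0_k5_11 : allI cD7k_0_c (rjL dJ cD7k_0_q rD7k_5_11) 5005 = true := by
  decide +kernel

theorem cD7k_0_k5_12 : allI cD7k_0_c (rjL dJ cD7k_0_q rD7k_5_12) 5025 = true := by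
  decide +kernel

theorem cD7k_0_k5_13 : allI cD7k_0_c (rjL dJ cD7k_0_q rD7k_5_13) 5040 = true := by
  decide +kernel

theorem cD7k_0_k5_14 : allI cD7k_0_c (rjL dJ cD7k_0_q rD7k_5_14) 5058 = true := by
  decide +kernel

theorem cD7k_0_k5_15 : allI cD7k_0_c (rjL dJ cD7k_0_q rD7k_5_15) 5080 = true := by
  decide +kernel

theorem cD7k_0_k5_16 : allI cD7k_0_c (rjL dJ cD7k_0_q rD7k_5_16) 5096 = true := by
  decide +kernel

theorem cD7k_0_k5_17 : allI cD7k_0_c (rjL dJ cD7k_0_q rD7k_5_17) 5111 = true := by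
  decide +kernel

theorem cD7k_0_k5_18 : allI cD7k_0_c (rjL dJ cD7k_0_q rD7k_5_18) 5119 = true := by
  decide +kernel

theorem cD7k_0_k5_19 : allI cD7k_0_c (rjL dJ cD7k_0_q rD7k_5_19) 5132 = true := by
  decide +kernel

theorem cD7k_0_k5_20 : allI cD7k_0_c (rjL dJ cD7k_0_q rD7k_5_20) 5148 = true := by
  decide +kernel

theorem cD7k_0_k5_21 : allI cD7k_0_c (rjL dJ cD7k_0_q rD7k_5_21) 5161 = true := by
  decide +kernel

theorem cD7k_0_k5_22 : allI cD7k_0_c (rjL dJ cD7k_0_q rD7k_5_22) 5185 = true := by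
  decide +kernel

theorem cD7k_0_k5_23 : allI cD7k_0_c (rjL dJ cD7k_0_q rD7k_5_23) 5206 = true := by
  decide +kernel

theorem cD7k_0_k5_24 : allI cD7k_0_c (rjL dJ cD7k_0_q rD7k_5_24) 5228 = true := by
  decide +kernel

theorem cD7k_0_k5_25 : allI cD7k_0_c (rjL dJ cD7k_0_q rD7k_5_25) 5247 = true := by
  decide +kernel

theorem cD7k_0_k5_26 : allI cD7k_0_c (rjL dJ cD7k_0_q rD7k_5_26) 5260 = true := by
  decide +kernel

theorem cD7k_0_k5_27 : allI cD7k_0_c (rjL dJ cD7k_0_q rD7k_5_27) 5274 = true := by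
  decide +kernel

theorem cD7k_0_k5_28 : allI cD7k_0_c (rjL dJ cD7k_0_q rD7k_5_28) 5290 = true := by
  decide +kernel

theorem cD7k_0_k5_29 : allI cD7k_0_c (rjL dJ cD7k_0_q rD7k_5_29) 5305 = true := by
  decide +kernel

theorem cD7k_0_k5_30 : allI cD7k_0_c (rjL dJ cD7k_0_q rD7k_5_30) 5317 = true := by
  decide +kernel

theorem cD7k_0_k5_31 : allI cD7k_0_c (rjL dJ cD7k_0_q rD7k_5_31) 5328 = true := by
  decide +kernel

theorem cD7k_0_k5_32 : allI cD7k_0_c (rjL dJ cD7k_0_q rD7k_5_32) 5346 = true := by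
  decide +kernel

theorem cD7k_0_k5_33 : allI cD7k_0_c (rjL dJ cD7k_0_q rD7k_5_33) 5358 = true := by
  decide +kernel

theorem cD7k_0_k5_34 : allI cD7k_0_c (rjL dJ cD7k_0_q rD7k_5_34) 5375 = true := by
  decide +kernel

theorem cD7k_0_k5_35 : allI cD7k_0_c (rjL dJ cD7k_0_q rD7k_5_35) 5392 = true := by
  decide +kernel

theorem cD7k_0_k5_36 : allI cD7k_0_c (rjL dJ cD7k_0_q rD7k_5_36) 5405 = true := by
  decide +kernel

theorem cD7k_0_k5_37 : allI cD7k_0_c (rjL dJ cD7k_0_q rD7k_5_37) 5414 = true := by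
  decide +kernel

/-- nodes -/
noncomputable def cD7k_0_n5 : List (QJ PN) :=
  rjL dJ cD7k_0_q rD7k_5_0 ++ (rjL dJ cD7k_0_q rD7k_5_1 ++ (rjL dJ cD7k_0_q rD7k_5_2 ++ (
    rjL dJ cD7k_0_q rD7k_5_3 ++ (rjL dJ cD7k_0_q rD7k_5_4 ++ (rjL dJ cD7k_0_q rD7k_5_5 ++ (
    rjL dJ cD7k_0_q rD7k_5_6 ++ (rjL dJ cD7k_0_q rD7k_5_7 ++ (rjL dJ cD7k_0_q rD7k_5_8 ++ (
    rjL dJ cD7k_0_q rD7k_5_9 ++ (rjL dJ cD7k_0_q rD7k_5_10 ++ (rjL dJ cD7k_0_q rD7k_5_11 ++ (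
    rjL dJ cD7k_0_q rD7k_5_12 ++ (rjL dJ cD7k_0_q rD7k_5_13 ++ (rjL dJ cD7k_0_q rD7k_5_14 ++ (
    rjL dJ cD7k_0_q rD7k_5_15 ++ (rjL dJ cD7k_0_q rD7k_5_16 ++ (rjL dJ cD7k_0_q rD7k_5_17 ++ (
    rjL dJ cD7k_0_q rD7k_5_18 ++ (rjL dJ cD7k_0_q rD7k_5_19 ++ (rjL dJ cD7k_0_q rD7k_5_20 ++ (
    rjL dJ cD7k_0_q rD7k_5_21 ++ (rjL dJ cD7k_0_q rD7k_5_22 ++ (rjL dJ cD7k_0_q rD7k_5_23 ++ (
    rjL dJ cD7k_0_q rD7k_5_24 ++ (rjL dJ cD7k_0_q rD7k_5_25 ++ (rjL dJ cD7k_0_q rD7k_5_26 ++ (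
    rjL dJ cD7k_0_q rD7k_5_27 ++ (rjL dJ cD7k_0_q rD7k_5_28 ++ (rjL dJ cD7k_0_q rD7k_5_29 ++ (
    rjL dJ cD7k_0_q rD7k_5_30 ++ (rjL dJ cD7k_0_q rD7k_5_31 ++ (rjL dJ cD7k_0_q rD7k_5_32 ++ (
    rjL dJ cD7k_0_q rD7k_5_33 ++ (rjL dJ cD7k_0_q rD7k_5_34 ++ (rjL dJ cD7k_0_q rD7k_5_35 ++ (
    rjL dJ cD7k_0_q rD7k_5_36 ++ rjL dJ cD7k_0_q rD7k_5_37))))))))))))))))))))))))))))))))))))

theorem cD7k_0_k5 : allI cD7k_0_c cD7k_0_n5 4868 = true := by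
  refine allI_appQ (k := 17) cD7k_0_k5_0 (by decide +kernel) ?_
  refine allI_appQ (k := 10) cD7k_0_k5_1 (by decide +kernel) ?_
  refine allI_appQ (k := 12) cD7k_0_k5_2 (by decide +kernel) ?_
  refine allI_appQ (k := 17) cD7k_0_k5_3 (by decide +kernel) ?_
  refine allI_appQ (k := 11) cD7k_0_k5_4 (by decide +kernel) ?_
  refine allI_appQ (k := 14) cD7k_0_k5_5 (by decide +kernel) ?_
  refine allI_appQ (k := 10) cD7k_0_k5_6 (by decide +kernel) ?_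
  refine allI_appQ (k := 6) cD7k_0_k5_7 (by decide +kernel) ?_
  refine allI_appQ (k := 12) cD7k_0_k5_8 (by decide +kernel) ?_
  refine allI_appQ (k := 11) cD7k_0_k5_9 (by decide +kernel) ?_
  refine allI_appQ (k := 17) cD7k_0_k5_10 (by decide +kernel) ?_
  refine allI_appQ (k := 20) cD7k_0_k5_11 (by decide +kernel) ?_
  refine allI_appQ (k := 15) cD7k_0_k5_12 (by decide +kernel) ?_
  refine allI_appQ (k := 18) cD7k_0_k5_13 (by decide +kernel) ?_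
  refine allI_appQ (k := 22) cD7k_0_k5_14 (by decide +kernel) ?_
  refine allI_appQ (k := 16) cD7k_0_k5_15 (by decide +kernel) ?_
  refine allI_appQ (k := 15) cD7k_0_k5_16 (by decide +kernel) ?_
  refine allI_appQ (k := 8) cD7k_0_k5_17 (by decide +kernel) ?_
  refine allI_appQ (k := 13) cD7k_0_k5_18 (by decide +kernel) ?_
  refine allI_appQ (k := 16) cD7k_0_k5_19 (by decide +kernel) ?_
  refine allI_appQ (k := 13) cD7k_0_k5_20 (by decide +kernel) ?_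
  refine allI_appQ (k := 24) cD7k_0_k5_21 (by decide +kernel) ?_
  refine allI_appQ (k := 21) cD7k_0_k5_22 (by decide +kernel) ?_
  refine allI_appQ (k := 22) cD7k_0_k5_23 (by decide +kernel) ?_
  refine allI_appQ (k := 19) cD7k_0_k5_24 (by decide +kernel) ?_
  refine allI_appQ (k := 13) cD7k_0_k5_25 (by decide +kernel) ?_
  refine allI_appQ (k := 14) cD7k_0_k5_26 (by decide +kernel) ?_
  refine allI_appQ (k := 16) cD7k_0_k5_27 (by decide +kernel) ?_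
  refine allI_appQ (k := 15) cD7k_0_k5_28 (by decide +kernel) ?_
  refine allI_appQ (k := 12) cD7k_0_k5_29 (by decide +kernel) ?_
  refine allI_appQ (k := 11) cD7k_0_k5_30 (by decide +kernel) ?_
  refine allI_appQ (k := 18) cD7k_0_k5_31 (by decide +kernel) ?_
  refine allI_appQ (k := 12) cD7k_0_k5_32 (by decide +kernel) ?_
  refine allI_appQ (k := 17) cD7k_0_k5_33 (by decide +kernel) ?_
  refine allI_appQ (k := 17) cD7k_0_k5_34 (by decide +kernel) ?_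
  refine allI_appQ (k := 13) cD7k_0_k5_35 (by decide +kernel) ?_
  refine allI_appQ (k := 9) cD7k_0_k5_36 (by decide +kernel) ?_
  exact cD7k_0_k5_37

theorem cD7k_0_l5 : cD7k_0_n5.length = 559 := by
  decide +kernel

end Pool.Agent.Lib_MP_fa6e45
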