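import Pool.Agent.Lib_MP_fa6e45.DQ7k_0d
import Pool.Agent.Lib_MP_fa6e45.RD7k_6

/-!
MP_fa6e45_co, stage 9: straight-side patterns with `7` sides, part of a certificate (generated by a program).
-/

namespace Pool.Agent.Lib_MP_fa6e45

theorem cD7k_0_k6_0 : allI cD7k_0_c (rjL dJ cD7k_0_q rD7k_6_0) 5427 = true := by
  decide +kernel

theorem cD7k_0_k6_1 : allI cD7k_0_c (rjL dJ cD7k_0_q rD7k_6_1) 5449 = true := by
  decide +kernel

theorem cD7k_0_k6_2 : allI cD7k_0_c (rjL dJ cD7k_0_q rD7k_6_2) 5464 = true := by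
  decide +kernel

theorem cD7k_0_k6_3 : allI cD7k_0_c (rjL dJ cD7k_0_q rD7k_6_3) 5475 = true := by
  decide +kernel

theorem cD7k_0_k6_4 : allI cD7k_0_c (rjL dJ cD7k_0_q rD7k_6_4) 5487 = true := by
  decide +kernel

theorem cD7k_0_k6_5 : allI cD7k_0_c (rjL dJ cD7k_0_q rD7k_6_5) 5497 = true := by
  decide +kernel

theorem cD7k_0_k6_6 : allI cD7k_0_c (rjL dJ cD7k_0_q rD7k_6_6) 5513 = true := by
  decide +kernel

theorem cD7k_0_k6_7 : allI cD7k_0_c (rjL dJ cD7k_0_q rD7k_6_7) 5525 = true := by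
  decide +kernel

theorem cD7k_0_k6_8 : allI cD7k_0_c (rjL dJ cD7k_0_q rD7k_6_8) 5540 = true := by
  decide +kernel

theorem cD7k_0_k6_9 : allI cD7k_0_c (rjL dJ cD7k_0_q rD7k_6_9) 5548 = true := by
  decide +kernel

theorem cD7k_0_k6_10 : allI cD7k_0_c (rjL dJ cD7k_0_q rD7k_6_10) 5562 = true := by
  decide +kernel

theorem cD7k_0_k6_11 : allI cD7k_0_c (rjL dJ cD7k_0_q rD7k_6_11) 5577 = true := by
  decide +kernel

theorem cD7k_0_k6_12 : allI cD7k_0_c (rjL dJ cD7k_0_q rD7k_6_12) 5597 = true := by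
  decide +kernel

theorem cD7k_0_k6_13 : allI cD7k_0_c (rjL dJ cD7k_0_q rD7k_6_13) 5611 = true := by
  decide +kernel

theorem cD7k_0_k6_14 : allI cD7k_0_c (rjL dJ cD7k_0_q rD7k_6_14) 5624 = true := by
  decide +kernel

theorem cD7k_0_k6_15 : allI cD7k_0_c (rjL dJ cD7k_0_q rD7k_6_15) 5640 = true := by
  decide +kernel

theorem cD7k_0_k6_16 : allI cD7k_0_c (rjL dJ cD7k_0_q rD7k_6_16) 5657 = true := by
  decide +kernel

theorem cD7k_0_k6_17 : allI cD7k_0_c (rjL dJ cD7k_0_q rD7k_6_17) 5666 = true := by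
  decide +kernel

theorem cD7k_0_k6_18 : allI cD7k_0_c (rjL dJ cD7k_0_q rD7k_6_18) 5680 = true := by
  decide +kernel

theorem cD7k_0_k6_19 : allI cD7k_0_c (rjL dJ cD7k_0_q rD7k_6_19) 5694 = true := by
  decide +kernel

theorem cD7k_0_k6_20 : allI cD7k_0_c (rjL dJ cD7k_0_q rD7k_6_20) 5708 = true := by
  decide +kernel

theorem cD7k_0_k6_21 : allI cD7k_0_c (rjL dJ cD7k_0_q rD7k_6_21) 5721 = true := by
  decide +kernel

theorem cD7k_0_k6_22 : allI cD7k_0_c (rjL dJ cD7k_0_q rD7k_6_22) 5742 = true := by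
  decide +kernel

theorem cD7k_0_k6_23 : allI cD7k_0_c (rjL dJ cD7k_0_q rD7k_6_23) 5760 = true := by
  decide +kernel

theorem cD7k_0_k6_24 : allI cD7k_0_c (rjL dJ cD7k_0_q rD7k_6_24) 5777 = true := by
  decide +kernel

theorem cD7k_0_k6_25 : allI cD7k_0_c (rjL dJ cD7k_0_q rD7k_6_25) 5788 = true := by
  decide +kernel

theorem cD7k_0_k6_26 : allI cD7k_0_c (rjL dJ cD7k_0_q rD7k_6_26) 5797 = true := by
  decide +kernel

theorem cD7k_0_k6_27 : allI cD7k_0_c (rjL dJ cD7k_0_q rD7k_6_27) 5809 = true := by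
  decide +kernel

theorem cD7k_0_k6_28 : allI cD7k_0_c (rjL dJ cD7k_0_q rD7k_6_28) 5825 = true := by
  decide +kernel

theorem cD7k_0_k6_29 : allI cD7k_0_c (rjL dJ cD7k_0_q rD7k_6_29) 5838 = true := by
  decide +kernel

theorem cD7k_0_k6_30 : allI cD7k_0_c (rjL dJ cD7k_0_q rD7k_6_30) 5852 = true := by
  decide +kernel

theorem cD7k_0_k6_31 : allI cD7k_0_c (rjL dJ cD7k_0_q rD7k_6_31) 5870 = true := by
  decide +kernel

theorem cD7k_0_k6_32 : allI cD7k_0_c (rjL dJ cD7k_0_q rD7k_6_32) 5883 = true := by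
  decide +kernel

theorem cD7k_0_k6_33 : allI cD7k_0_c (rjL dJ cD7k_0_q rD7k_6_33) 5907 = true := by
  decide +kernel

theorem cD7k_0_k6_34 : allI cD7k_0_c (rjL dJ cD7k_0_q rD7k_6_34) 5917 = true := by
  decide +kernel

theorem cD7k_0_k6_35 : allI cD7k_0_c (rjL dJ cD7k_0_q rD7k_6_35) 5932 = true := by
  decide +kernel

theorem cD7k_0_k6_36 : allI cD7k_0_c (rjL dJ cD7k_0_q rD7k_6_36) 5946 = true := by
  decide +kernel

theorem cD7k_0_k6_37 : allI cD7k_0_c (rjL dJ cD7k_0_q rD7k_6_37) 5961 = true := by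
  decide +kernel

theorem cD7k_0_k6_38 : allI cD7k_0_c (rjL dJ cD7k_0_q rD7k_6_38) 5970 = true := by
  decide +kernel

/-- nodes -/
noncomputable def cD7k_0_n6 : List (QJ PN) :=
  rjL dJ cD7k_0_q rD7k_6_0 ++ (rjL dJ cD7k_0_q rD7k_6_1 ++ (rjL dJ cD7k_0_q rD7k_6_2 ++ (
    rjL dJ cD7k_0_q rD7k_6_3 ++ (rjL dJ cD7k_0_q rD7k_6_4 ++ (rjL dJ cD7k_0_q rD7k_6_5 ++ (
    rjL dJ cD7k_0_q rD7k_6_6 ++ (rjL dJ cD7k_0_q rD7k_6_7 ++ (rjL dJ cD7k_0_q rD7k_6_8 ++ (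
    rjL dJ cD7k_0_q rD7k_6_9 ++ (rjL dJ cD7k_0_q rD7k_6_10 ++ (rjL dJ cD7k_0_q rD7k_6_11 ++ (
    rjL dJ cD7k_0_q rD7k_6_12 ++ (rjL dJ cD7k_0_q rD7k_6_13 ++ (rjL dJ cD7k_0_q rD7k_6_14 ++ (
    rjL dJ cD7k_0_q rD7k_6_15 ++ (rjL dJ cD7k_0_q rD7k_6_16 ++ (rjL dJ cD7k_0_q rD7k_6_17 ++ (
    rjL dJ cD7k_0_q rD7k_6_18 ++ (rjL dJ cD7k_0_q rD7k_6_19 ++ (rjL dJ cD7k_0_q rD7k_6_20 ++ (
    rjL dJ cD7k_0_q rD7k_6_21 ++ (rjL dJ cD7k_0_q rD7k_6_22 ++ (rjL dJ cD7k_0_q rD7k_6_23 ++ (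
    rjL dJ cD7k_0_q rD7k_6_24 ++ (rjL dJ cD7k_0_q rD7k_6_25 ++ (rjL dJ cD7k_0_q rD7k_6_26 ++ (
    rjL dJ cD7k_0_q rD7k_6_27 ++ (rjL dJ cD7k_0_q rD7k_6_28 ++ (rjL dJ cD7k_0_q rD7k_6_29 ++ (
    rjL dJ cD7k_0_q rD7k_6_30 ++ (rjL dJ cD7k_0_q rD7k_6_31 ++ (rjL dJ cD7k_0_q rD7k_6_32 ++ (
    rjL dJ cD7k_0_q rD7k_6_33 ++ (rjL dJ cD7k_0_q rD7k_6_34 ++ (rjL dJ cD7k_0_q rD7k_6_35 ++ (
    rjL dJ cD7k_0_q rD7k_6_36 ++ (rjL dJ cD7k_0_q rD7k_6_37 ++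
    rjL dJ cD7k_0_q rD7k_6_38)))))))))))))))))))))))))))))))))))))

theorem cD7k_0_k6 : allI cD7k_0_c cD7k_0_n6 5427 = true := by
  refine allI_appQ (k := 22) cD7k_0_k6_0 (by decide +kernel) ?_
  refine allI_appQ (k := 15) cD7k_0_k6_1 (by decide +kernel) ?_
  refine allI_appQ (k := 11) cD7k_0_k6_2 (by decide +kernel) ?_
  refine allI_appQ (k := 12) cD7k_0_k6_3 (by decide +kernel) ?_
  refine allI_appQ (k := 10) cD7k_0_k6_4 (by decide +kernel) ?_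
  refine allI_appQ (k := 16) cD7k_0_k6_5 (by decide +kernel) ?_
  refine allI_appQ (k := 12) cD7k_0_k6_6 (by decide +kernel) ?_
  refine allI_appQ (k := 15) cD7k_0_k6_7 (by decide +kernel) ?_
  refine allI_appQ (k := 8) cD7k_0_k6_8 (by decide +kernel) ?_
  refine allI_appQ (k := 14) cD7k_0_k6_9 (by decide +kernel) ?_
  refine allI_appQ (k := 15) cD7k_0_k6_10 (by decide +kernel) ?_
  refine allI_appQ (k := 20) cD7k_0_k6_11 (by decide +kernel) ?_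
  refine allI_appQ (k := 14) cD7k_0_k6_12 (by decide +kernel) ?_
  refine allI_appQ (k := 13) cD7k_0_k6_13 (by decide +kernel) ?_
  refine allI_appQ (k := 16) cD7k_0_k6_14 (by decide +kernel) ?_
  refine allI_appQ (k := 17) cD7k_0_k6_15 (by decide +kernel) ?_
  refine allI_appQ (k := 9) cD7k_0_k6_16 (by decide +kernel) ?_
  refine allI_appQ (k := 14) cD7k_0_k6_17 (by decide +kernel) ?_
  refine allI_appQ (k := 14) cD7k_0_k6_18 (by decide +kernel) ?_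
  refine allI_appQ (k := 14) cD7k_0_k6_19 (by decide +kernel) ?_
  refine allI_appQ (k := 13) cD7k_0_k6_20 (by decide +kernel) ?_
  refine allI_appQ (k := 21) cD7k_0_k6_21 (by decide +kernel) ?_
  refine allI_appQ (k := 18) cD7k_0_k6_22 (by decide +kernel) ?_
  refine allI_appQ (k := 17) cD7k_0_k6_23 (by decide +kernel) ?_
  refine allI_appQ (k := 11) cD7k_0_k6_24 (by decide +kernel) ?_
  refine allI_appQ (k := 9) cD7k_0_k6_25 (by decide +kernel) ?_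
  refine allI_appQ (k := 12) cD7k_0_k6_26 (by decide +kernel) ?_
  refine allI_appQ (k := 16) cD7k_0_k6_27 (by decide +kernel) ?_
  refine allI_appQ (k := 13) cD7k_0_k6_28 (by decide +kernel) ?_
  refine allI_appQ (k := 14) cD7k_0_k6_29 (by decide +kernel) ?_
  refine allI_appQ (k := 18) cD7k_0_k6_30 (by decide +kernel) ?_
  refine allI_appQ (k := 13) cD7k_0_k6_31 (by decide +kernel) ?_
  refine allI_appQ (k := 24) cD7k_0_k6_32 (by decide +kernel) ?_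
  refine allI_appQ (k := 10) cD7k_0_k6_33 (by decide +kernel) ?_
  refine allI_appQ (k := 15) cD7k_0_k6_34 (by decide +kernel) ?_
  refine allI_appQ (k := 14) cD7k_0_k6_35 (by decide +kernel) ?_
  refine allI_appQ (k := 15) cD7k_0_k6_36 (by decide +kernel) ?_
  refine allI_appQ (k := 9) cD7k_0_k6_37 (by decide +kernel) ?_
  exact cD7k_0_k6_38

theorem cD7k_0_l6 : cD7k_0_n6.length = 544 := by
  decide +kernel

end Pool.Agent.Lib_MP_fa6e45
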