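import Pool.Agent.Lib_MP_fa6e45.DQ7k_0d
import Pool.Agent.Lib_MP_fa6e45.RD7k_7

/-!
MP_fa6e45_co, stage 9: straight-side patterns with `7` sides, part of a certificate (generated by a program).
-/

namespace Pool.Agent.Lib_MP_fa6e45

theorem cD7k_0_k7_0 : allI cD7k_0_c (rjL dJ cD7k_0_q rD7k_7_0) 5971 = true := by
  decide +kernel

theorem cD7k_0_k7_1 : allI cD7k_0_c (rjL dJ cD7k_0_q rD7k_7_1) 5973 = true := by
  decide +kernel

theorem cD7k_0_k7_2 : allI cD7k_0_c (rjL dJ cD7k_0_q rD7k_7_2) 5975 = true := by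
  decide +kernel

theorem cD7k_0_k7_3 : allI cD7k_0_c (rjL dJ cD7k_0_q rD7k_7_3) 5976 = true := by
  decide +kernel

theorem cD7k_0_k7_4 : allI cD7k_0_c (rjL dJ cD7k_0_q rD7k_7_4) 5977 = true := by
  decide +kernel

theorem cD7k_0_k7_5 : allI cD7k_0_c (rjL dJ cD7k_0_q rD7k_7_5) 5978 = true := by
  decide +kernel

theorem cD7k_0_k7_6 : allI cD7k_0_c (rjL dJ cD7k_0_q rD7k_7_6) 5980 = true := by
  decide +kernel

theorem cD7k_0_k7_7 : allI cD7k_0_c (rjL dJ cD7k_0_q rD7k_7_7) 5982 = true := by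
  decide +kernel

theorem cD7k_0_k7_8 : allI cD7k_0_c (rjL dJ cD7k_0_q rD7k_7_8) 5985 = true := by
  decide +kernel

theorem cD7k_0_k7_9 : allI cD7k_0_c (rjL dJ cD7k_0_q rD7k_7_9) 5987 = true := by
  decide +kernel

theorem cD7k_0_k7_10 : allI cD7k_0_c (rjL dJ cD7k_0_q rD7k_7_10) 5989 = true := by
  decide +kernel

theorem cD7k_0_k7_11 : allI cD7k_0_c (rjL dJ cD7k_0_q rD7k_7_11) 5991 = true := by
  decide +kernel

theorem cD7k_0_k7_12 : allI cD7k_0_c (rjL dJ cD7k_0_q rD7k_7_12) 5993 = true := by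
  decide +kernel

theorem cD7k_0_k7_13 : allI cD7k_0_c (rjL dJ cD7k_0_q rD7k_7_13) 5995 = true := by
  decide +kernel

theorem cD7k_0_k7_14 : allI cD7k_0_c (rjL dJ cD7k_0_q rD7k_7_14) 5997 = true := by
  decide +kernel

theorem cD7k_0_k7_15 : allI cD7k_0_c (rjL dJ cD7k_0_q rD7k_7_15) 5999 = true := by
  decide +kernel

theorem cD7k_0_k7_16 : allI cD7k_0_c (rjL dJ cD7k_0_q rD7k_7_16) 6000 = true := by
  decide +kernel

theorem cD7k_0_k7_17 : allI cD7k_0_c (rjL dJ cD7k_0_q rD7k_7_17) 6002 = true := by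
  decide +kernel

theorem cD7k_0_k7_18 : allI cD7k_0_c (rjL dJ cD7k_0_q rD7k_7_18) 6004 = true := by
  decide +kernel

theorem cD7k_0_k7_19 : allI cD7k_0_c (rjL dJ cD7k_0_q rD7k_7_19) 6006 = true := by
  decide +kernel

theorem cD7k_0_k7_20 : allI cD7k_0_c (rjL dJ cD7k_0_q rD7k_7_20) 6008 = true := by
  decide +kernel

theorem cD7k_0_k7_21 : allI cD7k_0_c (rjL dJ cD7k_0_q rD7k_7_21) 6010 = true := by
  decide +kernel

theorem cD7k_0_k7_22 : allI cD7k_0_c (rjL dJ cD7k_0_q rD7k_7_22) 6013 = true := by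
  decide +kernel

theorem cD7k_0_k7_23 : allI cD7k_0_c (rjL dJ cD7k_0_q rD7k_7_23) 6015 = true := by
  decide +kernel

theorem cD7k_0_k7_24 : allI cD7k_0_c (rjL dJ cD7k_0_q rD7k_7_24) 6017 = true := by
  decide +kernel

theorem cD7k_0_k7_25 : allI cD7k_0_c (rjL dJ cD7k_0_q rD7k_7_25) 6019 = true := by
  decide +kernel

theorem cD7k_0_k7_26 : allI cD7k_0_c (rjL dJ cD7k_0_q rD7k_7_26) 6022 = true := by
  decide +kernel

theorem cD7k_0_k7_27 : allI cD7k_0_c (rjL dJ cD7k_0_q rD7k_7_27) 6024 = true := by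
  decide +kernel

theorem cD7k_0_k7_28 : allI cD7k_0_c (rjL dJ cD7k_0_q rD7k_7_28) 6026 = true := by
  decide +kernel

theorem cD7k_0_k7_29 : allI cD7k_0_c (rjL dJ cD7k_0_q rD7k_7_29) 6029 = true := by
  decide +kernel

theorem cD7k_0_k7_30 : allI cD7k_0_c (rjL dJ cD7k_0_q rD7k_7_30) 6031 = true := by
  decide +kernel

theorem cD7k_0_k7_31 : allI cD7k_0_c (rjL dJ cD7k_0_q rD7k_7_31) 6034 = true := by
  decide +kernel

theorem cD7k_0_k7_32 : allI cD7k_0_c (rjL dJ cD7k_0_q rD7k_7_32) 6036 = true := by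
  decide +kernel

theorem cD7k_0_k7_33 : allI cD7k_0_c (rjL dJ cD7k_0_q rD7k_7_33) 6037 = true := by
  decide +kernel

theorem cD7k_0_k7_34 : allI cD7k_0_c (rjL dJ cD7k_0_q rD7k_7_34) 6039 = true := by
  decide +kernel

theorem cD7k_0_k7_35 : allI cD7k_0_c (rjL dJ cD7k_0_q rD7k_7_35) 6041 = true := by
  decide +kernel

theorem cD7k_0_k7_36 : allI cD7k_0_c (rjL dJ cD7k_0_q rD7k_7_36) 6042 = true := by
  decide +kernel

theorem cD7k_0_k7_37 : allI cD7k_0_c (rjL dJ cD7k_0_q rD7k_7_37) 6044 = true := by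
  decide +kernel

theorem cD7k_0_k7_38 : allI cD7k_0_c (rjL dJ cD7k_0_q rD7k_7_38) 6046 = true := by
  decide +kernel

theorem cD7k_0_k7_39 : allI cD7k_0_c (rjL dJ cD7k_0_q rD7k_7_39) 6047 = true := by
  decide +kernel

theorem cD7k_0_k7_40 : allI cD7k_0_c (rjL dJ cD7k_0_q rD7k_7_40) 6048 = true := by
  decide +kernel

theorem cD7k_0_k7_41 : allI cD7k_0_c (rjL dJ cD7k_0_q rD7k_7_41) 6050 = true := by
  decide +kernel

theorem cD7k_0_k7_42 : allI cD7k_0_c (rjL dJ cD7k_0_q rD7k_7_42) 6053 = true := by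
  decide +kernel

/-- nodes -/
noncomputable def cD7k_0_n7 : List (QJ PN) :=
  rjL dJ cD7k_0_q rD7k_7_0 ++ (rjL dJ cD7k_0_q rD7k_7_1 ++ (rjL dJ cD7k_0_q rD7k_7_2 ++ (
    rjL dJ cD7k_0_q rD7k_7_3 ++ (rjL dJ cD7k_0_q rD7k_7_4 ++ (rjL dJ cD7k_0_q rD7k_7_5 ++ (
    rjL dJ cD7k_0_q rD7k_7_6 ++ (rjL dJ cD7k_0_q rD7k_7_7 ++ (rjL dJ cD7k_0_q rD7k_7_8 ++ (
    rjL dJ cD7k_0_q rD7k_7_9 ++ (rjL dJ cD7k_0_q rD7k_7_10 ++ (rjL dJ cD7k_0_q rD7k_7_11 ++ (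
    rjL dJ cD7k_0_q rD7k_7_12 ++ (rjL dJ cD7k_0_q rD7k_7_13 ++ (rjL dJ cD7k_0_q rD7k_7_14 ++ (
    rjL dJ cD7k_0_q rD7k_7_15 ++ (rjL dJ cD7k_0_q rD7k_7_16 ++ (rjL dJ cD7k_0_q rD7k_7_17 ++ (
    rjL dJ cD7k_0_q rD7k_7_18 ++ (rjL dJ cD7k_0_q rD7k_7_19 ++ (rjL dJ cD7k_0_q rD7k_7_20 ++ (
    rjL dJ cD7k_0_q rD7k_7_21 ++ (rjL dJ cD7k_0_q rD7k_7_22 ++ (rjL dJ cD7k_0_q rD7k_7_23 ++ (
    rjL dJ cD7k_0_q rD7k_7_24 ++ (rjL dJ cD7k_0_q rD7k_7_25 ++ (rjL dJ cD7k_0_q rD7k_7_26 ++ (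
    rjL dJ cD7k_0_q rD7k_7_27 ++ (rjL dJ cD7k_0_q rD7k_7_28 ++ (rjL dJ cD7k_0_q rD7k_7_29 ++ (
    rjL dJ cD7k_0_q rD7k_7_30 ++ (rjL dJ cD7k_0_q rD7k_7_31 ++ (rjL dJ cD7k_0_q rD7k_7_32 ++ (
    rjL dJ cD7k_0_q rD7k_7_33 ++ (rjL dJ cD7k_0_q rD7k_7_34 ++ (rjL dJ cD7k_0_q rD7k_7_35 ++ (
    rjL dJ cD7k_0_q rD7k_7_36 ++ (rjL dJ cD7k_0_q rD7k_7_37 ++ (rjL dJ cD7k_0_q rD7k_7_38 ++ (
    rjL dJ cD7k_0_q rD7k_7_39 ++ (rjL dJ cD7k_0_q rD7k_7_40 ++ (rjL dJ cD7k_0_q rD7k_7_41 ++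
    rjL dJ cD7k_0_q rD7k_7_42)))))))))))))))))))))))))))))))))))))))))

theorem cD7k_0_k7 : allI cD7k_0_c cD7k_0_n7 5971 = true := by
  refine allI_appQ (k := 2) cD7k_0_k7_0 (by decide +kernel) ?_
  refine allI_appQ (k := 2) cD7k_0_k7_1 (by decide +kernel) ?_
  refine allI_appQ (k := 1) cD7k_0_k7_2 (by decide +kernel) ?_
  refine allI_appQ (k := 1) cD7k_0_k7_3 (by decide +kernel) ?_
  refine allI_appQ (k := 1) cD7k_0_k7_4 (by decide +kernel) ?_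
  refine allI_appQ (k := 2) cD7k_0_k7_5 (by decide +kernel) ?_
  refine allI_appQ (k := 2) cD7k_0_k7_6 (by decide +kernel) ?_
  refine allI_appQ (k := 3) cD7k_0_k7_7 (by decide +kernel) ?_
  refine allI_appQ (k := 2) cD7k_0_k7_8 (by decide +kernel) ?_
  refine allI_appQ (k := 2) cD7k_0_k7_9 (by decide +kernel) ?_
  refine allI_appQ (k := 2) cD7k_0_k7_10 (by decide +kernel) ?_
  refine allI_appQ (k := 2) cD7k_0_k7_11 (by decide +kernel) ?_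
  refine allI_appQ (k := 2) cD7k_0_k7_12 (by decide +kernel) ?_
  refine allI_appQ (k := 2) cD7k_0_k7_13 (by decide +kernel) ?_
  refine allI_appQ (k := 2) cD7k_0_k7_14 (by decide +kernel) ?_
  refine allI_appQ (k := 1) cD7k_0_k7_15 (by decide +kernel) ?_
  refine allI_appQ (k := 2) cD7k_0_k7_16 (by decide +kernel) ?_
  refine allI_appQ (k := 2) cD7k_0_k7_17 (by decide +kernel) ?_
  refine allI_appQ (k := 2) cD7k_0_k7_18 (by decide +kernel) ?_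
  refine allI_appQ (k := 2) cD7k_0_k7_19 (by decide +kernel) ?_
  refine allI_appQ (k := 2) cD7k_0_k7_20 (by decide +kernel) ?_
  refine allI_appQ (k := 3) cD7k_0_k7_21 (by decide +kernel) ?_
  refine allI_appQ (k := 2) cD7k_0_k7_22 (by decide +kernel) ?_
  refine allI_appQ (k := 2) cD7k_0_k7_23 (by decide +kernel) ?_
  refine allI_appQ (k := 2) cD7k_0_k7_24 (by decide +kernel) ?_
  refine allI_appQ (k := 3) cD7k_0_k7_25 (by decide +kernel) ?_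
  refine allI_appQ (k := 2) cD7k_0_k7_26 (by decide +kernel) ?_
  refine allI_appQ (k := 2) cD7k_0_k7_27 (by decide +kernel) ?_
  refine allI_appQ (k := 3) cD7k_0_k7_28 (by decide +kernel) ?_
  refine allI_appQ (k := 2) cD7k_0_k7_29 (by decide +kernel) ?_
  refine allI_appQ (k := 3) cD7k_0_k7_30 (by decide +kernel) ?_
  refine allI_appQ (k := 2) cD7k_0_k7_31 (by decide +kernel) ?_
  refine allI_appQ (k := 1) cD7k_0_k7_32 (by decide +kernel) ?_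
  refine allI_appQ (k := 2) cD7k_0_k7_33 (by decide +kernel) ?_
  refine allI_appQ (k := 2) cD7k_0_k7_34 (by decide +kernel) ?_
  refine allI_appQ (k := 1) cD7k_0_k7_35 (by decide +kernel) ?_
  refine allI_appQ (k := 2) cD7k_0_k7_36 (by decide +kernel) ?_
  refine allI_appQ (k := 2) cD7k_0_k7_37 (by decide +kernel) ?_
  refine allI_appQ (k := 1) cD7k_0_k7_38 (by decide +kernel) ?_
  refine allI_appQ (k := 1) cD7k_0_k7_39 (by decide +kernel) ?_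
  refine allI_appQ (k := 2) cD7k_0_k7_40 (by decide +kernel) ?_
  refine allI_appQ (k := 3) cD7k_0_k7_41 (by decide +kernel) ?_
  exact cD7k_0_k7_42

theorem cD7k_0_l7 : cD7k_0_n7.length = 83 := by
  decide +kernel

end Pool.Agent.Lib_MP_fa6e45
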