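import Pool.Agent.Lib_MP_fa6e45.DQ7k_0d
import Pool.Agent.Lib_MP_fa6e45.RD7k_8

/-!
MP_fa6e45_co, stage 9: straight-side patterns with `7` sides, part of a certificate (generated by a program).
-/

namespace Pool.Agent.Lib_MP_fa6e45

theorem cD7k_0_k8_0 : allI cD7k_0_c (rjL dJ cD7k_0_q rD7k_8_0) 6054 = true := by
  decide +kernel

theorem cD7k_0_k8_1 : allI cD7k_0_c (rjL dJ cD7k_0_q rD7k_8_1) 6056 = true := by
  decide +kernel

theorem cD7k_0_k8_2 : allI cD7k_0_c (rjL dJ cD7k_0_q rD7k_8_2) 6057 = true := by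
  decide +kernel

theorem cD7k_0_k8_3 : allI cD7k_0_c (rjL dJ cD7k_0_q rD7k_8_3) 6058 = true := by
  decide +kernel

theorem cD7k_0_k8_4 : allI cD7k_0_c (rjL dJ cD7k_0_q rD7k_8_4) 6059 = true := by
  decide +kernel

theorem cD7k_0_k8_5 : allI cD7k_0_c (rjL dJ cD7k_0_q rD7k_8_5) 6061 = true := by
  decide +kernel

theorem cD7k_0_k8_6 : allI cD7k_0_c (rjL dJ cD7k_0_q rD7k_8_6) 6062 = true := by
  decide +kernel

theorem cD7k_0_k8_7 : allI cD7k_0_c (rjL dJ cD7k_0_q rD7k_8_7) 6063 = true := by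
  decide +kernel

theorem cD7k_0_k8_8 : allI cD7k_0_c (rjL dJ cD7k_0_q rD7k_8_8) 6064 = true := by
  decide +kernel

theorem cD7k_0_k8_9 : allI cD7k_0_c (rjL dJ cD7k_0_q rD7k_8_9) 6065 = true := by
  decide +kernel

theorem cD7k_0_k8_10 : allI cD7k_0_c (rjL dJ cD7k_0_q rD7k_8_10) 6067 = true := by
  decide +kernel

theorem cD7k_0_k8_11 : allI cD7k_0_c (rjL dJ cD7k_0_q rD7k_8_11) 6069 = true := by
  decide +kernel

theorem cD7k_0_k8_12 : allI cD7k_0_c (rjL dJ cD7k_0_q rD7k_8_12) 6071 = true := by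
  decide +kernel

theorem cD7k_0_k8_13 : allI cD7k_0_c (rjL dJ cD7k_0_q rD7k_8_13) 6073 = true := by
  decide +kernel

theorem cD7k_0_k8_14 : allI cD7k_0_c (rjL dJ cD7k_0_q rD7k_8_14) 6075 = true := by
  decide +kernel

theorem cD7k_0_k8_15 : allI cD7k_0_c (rjL dJ cD7k_0_q rD7k_8_15) 6077 = true := by
  decide +kernel

theorem cD7k_0_k8_16 : allI cD7k_0_c (rjL dJ cD7k_0_q rD7k_8_16) 6078 = true := by
  decide +kernel

theorem cD7k_0_k8_17 : allI cD7k_0_c (rjL dJ cD7k_0_q rD7k_8_17) 6080 = true := by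
  decide +kernel

theorem cD7k_0_k8_18 : allI cD7k_0_c (rjL dJ cD7k_0_q rD7k_8_18) 6081 = true := by
  decide +kernel

theorem cD7k_0_k8_19 : allI cD7k_0_c (rjL dJ cD7k_0_q rD7k_8_19) 6082 = true := by
  decide +kernel

theorem cD7k_0_k8_20 : allI cD7k_0_c (rjL dJ cD7k_0_q rD7k_8_20) 6085 = true := by
  decide +kernel

theorem cD7k_0_k8_21 : allI cD7k_0_c (rjL dJ cD7k_0_q rD7k_8_21) 6086 = true := by
  decide +kernel

theorem cD7k_0_k8_22 : allI cD7k_0_c (rjL dJ cD7k_0_q rD7k_8_22) 6088 = true := by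
  decide +kernel

theorem cD7k_0_k8_23 : allI cD7k_0_c (rjL dJ cD7k_0_q rD7k_8_23) 6091 = true := by
  decide +kernel

theorem cD7k_0_k8_24 : allI cD7k_0_c (rjL dJ cD7k_0_q rD7k_8_24) 6094 = true := by
  decide +kernel

theorem cD7k_0_k8_25 : allI cD7k_0_c (rjL dJ cD7k_0_q rD7k_8_25) 6096 = true := by
  decide +kernel

theorem cD7k_0_k8_26 : allI cD7k_0_c (rjL dJ cD7k_0_q rD7k_8_26) 6098 = true := by
  decide +kernel

theorem cD7k_0_k8_27 : allI cD7k_0_c (rjL dJ cD7k_0_q rD7k_8_27) 6100 = true := by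
  decide +kernel

theorem cD7k_0_k8_28 : allI cD7k_0_c (rjL dJ cD7k_0_q rD7k_8_28) 6102 = true := by
  decide +kernel

theorem cD7k_0_k8_29 : allI cD7k_0_c (rjL dJ cD7k_0_q rD7k_8_29) 6104 = true := by
  decide +kernel

theorem cD7k_0_k8_30 : allI cD7k_0_c (rjL dJ cD7k_0_q rD7k_8_30) 6107 = true := by
  decide +kernel

theorem cD7k_0_k8_31 : allI cD7k_0_c (rjL dJ cD7k_0_q rD7k_8_31) 6109 = true := by
  decide +kernel

theorem cD7k_0_k8_32 : allI cD7k_0_c (rjL dJ cD7k_0_q rD7k_8_32) 6112 = true := by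
  decide +kernel

theorem cD7k_0_k8_33 : allI cD7k_0_c (rjL dJ cD7k_0_q rD7k_8_33) 6115 = true := by
  decide +kernel

theorem cD7k_0_k8_34 : allI cD7k_0_c (rjL dJ cD7k_0_q rD7k_8_34) 6118 = true := by
  decide +kernel

theorem cD7k_0_k8_35 : allI cD7k_0_c (rjL dJ cD7k_0_q rD7k_8_35) 6120 = true := by
  decide +kernel

theorem cD7k_0_k8_36 : allI cD7k_0_c (rjL dJ cD7k_0_q rD7k_8_36) 6122 = true := by
  decide +kernel

theorem cD7k_0_k8_37 : allI cD7k_0_c (rjL dJ cD7k_0_q rD7k_8_37) 6124 = true := by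
  decide +kernel

theorem cD7k_0_k8_38 : allI cD7k_0_c (rjL dJ cD7k_0_q rD7k_8_38) 6125 = true := by
  decide +kernel

theorem cD7k_0_k8_39 : allI cD7k_0_c (rjL dJ cD7k_0_q rD7k_8_39) 6127 = true := by
  decide +kernel

theorem cD7k_0_k8_40 : allI cD7k_0_c (rjL dJ cD7k_0_q rD7k_8_40) 6129 = true := by
  decide +kernel

theorem cD7k_0_k8_41 : allI cD7k_0_c (rjL dJ cD7k_0_q rD7k_8_41) 6131 = true := by
  decide +kernel

theorem cD7k_0_k8_42 : allI cD7k_0_c (rjL dJ cD7k_0_q rD7k_8_42) 6133 = true := by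
  decide +kernel

theorem cD7k_0_k8_43 : allI cD7k_0_c (rjL dJ cD7k_0_q rD7k_8_43) 6135 = true := by
  decide +kernel

theorem cD7k_0_k8_44 : allI cD7k_0_c (rjL dJ cD7k_0_q rD7k_8_44) 6137 = true := by
  decide +kernel

theorem cD7k_0_k8_45 : allI cD7k_0_c (rjL dJ cD7k_0_q rD7k_8_45) 6139 = true := by
  decide +kernel

theorem cD7k_0_k8_46 : allI cD7k_0_c (rjL dJ cD7k_0_q rD7k_8_46) 6142 = true := by
  decide +kernel

/-- nodes -/
noncomputable def cD7k_0_n8 : List (QJ PN) :=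
  rjL dJ cD7k_0_q rD7k_8_0 ++ (rjL dJ cD7k_0_q rD7k_8_1 ++ (rjL dJ cD7k_0_q rD7k_8_2 ++ (
    rjL dJ cD7k_0_q rD7k_8_3 ++ (rjL dJ cD7k_0_q rD7k_8_4 ++ (rjL dJ cD7k_0_q rD7k_8_5 ++ (
    rjL dJ cD7k_0_q rD7k_8_6 ++ (rjL dJ cD7k_0_q rD7k_8_7 ++ (rjL dJ cD7k_0_q rD7k_8_8 ++ (
    rjL dJ cD7k_0_q rD7k_8_9 ++ (rjL dJ cD7k_0_q rD7k_8_10 ++ (rjL dJ cD7k_0_q rD7k_8_11 ++ (
    rjL dJ cD7k_0_q rD7k_8_12 ++ (rjL dJ cD7k_0_q rD7k_8_13 ++ (rjL dJ cD7k_0_q rD7k_8_14 ++ (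
    rjL dJ cD7k_0_q rD7k_8_15 ++ (rjL dJ cD7k_0_q rD7k_8_16 ++ (rjL dJ cD7k_0_q rD7k_8_17 ++ (
    rjL dJ cD7k_0_q rD7k_8_18 ++ (rjL dJ cD7k_0_q rD7k_8_19 ++ (rjL dJ cD7k_0_q rD7k_8_20 ++ (
    rjL dJ cD7k_0_q rD7k_8_21 ++ (rjL dJ cD7k_0_q rD7k_8_22 ++ (rjL dJ cD7k_0_q rD7k_8_23 ++ (
    rjL dJ cD7k_0_q rD7k_8_24 ++ (rjL dJ cD7k_0_q rD7k_8_25 ++ (rjL dJ cD7k_0_q rD7k_8_26 ++ (
    rjL dJ cD7k_0_q rD7k_8_27 ++ (rjL dJ cD7k_0_q rD7k_8_28 ++ (rjL dJ cD7k_0_q rD7k_8_29 ++ (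
    rjL dJ cD7k_0_q rD7k_8_30 ++ (rjL dJ cD7k_0_q rD7k_8_31 ++ (rjL dJ cD7k_0_q rD7k_8_32 ++ (
    rjL dJ cD7k_0_q rD7k_8_33 ++ (rjL dJ cD7k_0_q rD7k_8_34 ++ (rjL dJ cD7k_0_q rD7k_8_35 ++ (
    rjL dJ cD7k_0_q rD7k_8_36 ++ (rjL dJ cD7k_0_q rD7k_8_37 ++ (rjL dJ cD7k_0_q rD7k_8_38 ++ (
    rjL dJ cD7k_0_q rD7k_8_39 ++ (rjL dJ cD7k_0_q rD7k_8_40 ++ (rjL dJ cD7k_0_q rD7k_8_41 ++ (
    rjL dJ cD7k_0_q rD7k_8_42 ++ (rjL dJ cD7k_0_q rD7k_8_43 ++ (rjL dJ cD7k_0_q rD7k_8_44 ++ (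
    rjL dJ cD7k_0_q rD7k_8_45 ++
    rjL dJ cD7k_0_q rD7k_8_46)))))))))))))))))))))))))))))))))))))))))))))

theorem cD7k_0_k8 : allI cD7k_0_c cD7k_0_n8 6054 = true := by
  refine allI_appQ (k := 2) cD7k_0_k8_0 (by decide +kernel) ?_
  refine allI_appQ (k := 1) cD7k_0_k8_1 (by decide +kernel) ?_
  refine allI_appQ (k := 1) cD7k_0_k8_2 (by decide +kernel) ?_
  refine allI_appQ (k := 1) cD7k_0_k8_3 (by decide +kernel) ?_
  refine allI_appQ (k := 2) cD7k_0_k8_4 (by decide +kernel) ?_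
  refine allI_appQ (k := 1) cD7k_0_k8_5 (by decide +kernel) ?_
  refine allI_appQ (k := 1) cD7k_0_k8_6 (by decide +kernel) ?_
  refine allI_appQ (k := 1) cD7k_0_k8_7 (by decide +kernel) ?_
  refine allI_appQ (k := 1) cD7k_0_k8_8 (by decide +kernel) ?_
  refine allI_appQ (k := 2) cD7k_0_k8_9 (by decide +kernel) ?_
  refine allI_appQ (k := 2) cD7k_0_k8_10 (by decide +kernel) ?_
  refine allI_appQ (k := 2) cD7k_0_k8_11 (by decide +kernel) ?_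
  refine allI_appQ (k := 2) cD7k_0_k8_12 (by decide +kernel) ?_
  refine allI_appQ (k := 2) cD7k_0_k8_13 (by decide +kernel) ?_
  refine allI_appQ (k := 2) cD7k_0_k8_14 (by decide +kernel) ?_
  refine allI_appQ (k := 1) cD7k_0_k8_15 (by decide +kernel) ?_
  refine allI_appQ (k := 2) cD7k_0_k8_16 (by decide +kernel) ?_
  refine allI_appQ (k := 1) cD7k_0_k8_17 (by decide +kernel) ?_
  refine allI_appQ (k := 1) cD7k_0_k8_18 (by decide +kernel) ?_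
  refine allI_appQ (k := 3) cD7k_0_k8_19 (by decide +kernel) ?_
  refine allI_appQ (k := 1) cD7k_0_k8_20 (by decide +kernel) ?_
  refine allI_appQ (k := 2) cD7k_0_k8_21 (by decide +kernel) ?_
  refine allI_appQ (k := 3) cD7k_0_k8_22 (by decide +kernel) ?_
  refine allI_appQ (k := 3) cD7k_0_k8_23 (by decide +kernel) ?_
  refine allI_appQ (k := 2) cD7k_0_k8_24 (by decide +kernel) ?_
  refine allI_appQ (k := 2) cD7k_0_k8_25 (by decide +kernel) ?_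
  refine allI_appQ (k := 2) cD7k_0_k8_26 (by decide +kernel) ?_
  refine allI_appQ (k := 2) cD7k_0_k8_27 (by decide +kernel) ?_
  refine allI_appQ (k := 2) cD7k_0_k8_28 (by decide +kernel) ?_
  refine allI_appQ (k := 3) cD7k_0_k8_29 (by decide +kernel) ?_
  refine allI_appQ (k := 2) cD7k_0_k8_30 (by decide +kernel) ?_
  refine allI_appQ (k := 3) cD7k_0_k8_31 (by decide +kernel) ?_
  refine allI_appQ (k := 3) cD7k_0_k8_32 (by decide +kernel) ?_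
  refine allI_appQ (k := 3) cD7k_0_k8_33 (by decide +kernel) ?_
  refine allI_appQ (k := 2) cD7k_0_k8_34 (by decide +kernel) ?_
  refine allI_appQ (k := 2) cD7k_0_k8_35 (by decide +kernel) ?_
  refine allI_appQ (k := 2) cD7k_0_k8_36 (by decide +kernel) ?_
  refine allI_appQ (k := 1) cD7k_0_k8_37 (by decide +kernel) ?_
  refine allI_appQ (k := 2) cD7k_0_k8_38 (by decide +kernel) ?_
  refine allI_appQ (k := 2) cD7k_0_k8_39 (by decide +kernel) ?_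
  refine allI_appQ (k := 2) cD7k_0_k8_40 (by decide +kernel) ?_
  refine allI_appQ (k := 2) cD7k_0_k8_41 (by decide +kernel) ?_
  refine allI_appQ (k := 2) cD7k_0_k8_42 (by decide +kernel) ?_
  refine allI_appQ (k := 2) cD7k_0_k8_43 (by decide +kernel) ?_
  refine allI_appQ (k := 2) cD7k_0_k8_44 (by decide +kernel) ?_
  refine allI_appQ (k := 3) cD7k_0_k8_45 (by decide +kernel) ?_
  exact cD7k_0_k8_46

theorem cD7k_0_l8 : cD7k_0_n8.length = 89 := by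
  decide +kernel

end Pool.Agent.Lib_MP_fa6e45
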