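import Pool.Agent.Lib_MP_fa6e45.DQ7k_0d
import Pool.Agent.Lib_MP_fa6e45.RD7k_9

/-!
MP_fa6e45_co, stage 9: straight-side patterns with `7` sides, part of a certificate (generated by a program).
-/

namespace Pool.Agent.Lib_MP_fa6e45

theorem cD7k_0_k9_0 : allI cD7k_0_c (rjL dJ cD7k_0_q rD7k_9_0) 6143 = true := by
  decide +kernel

theorem cD7k_0_k9_1 : allI cD7k_0_c (rjL dJ cD7k_0_q rD7k_9_1) 6145 = true := by
  decide +kernel

theorem cD7k_0_k9_2 : allI cD7k_0_c (rjL dJ cD7k_0_q rD7k_9_2) 6147 = true := by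
  decide +kernel

theorem cD7k_0_k9_3 : allI cD7k_0_c (rjL dJ cD7k_0_q rD7k_9_3) 6149 = true := by
  decide +kernel

theorem cD7k_0_k9_4 : allI cD7k_0_c (rjL dJ cD7k_0_q rD7k_9_4) 6152 = true := by
  decide +kernel

theorem cD7k_0_k9_5 : allI cD7k_0_c (rjL dJ cD7k_0_q rD7k_9_5) 6153 = true := by
  decide +kernel

theorem cD7k_0_k9_6 : allI cD7k_0_c (rjL dJ cD7k_0_q rD7k_9_6) 6155 = true := by
  decide +kernel

theorem cD7k_0_k9_7 : allI cD7k_0_c (rjL dJ cD7k_0_q rD7k_9_7) 6157 = true := by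
  decide +kernel

theorem cD7k_0_k9_8 : allI cD7k_0_c (rjL dJ cD7k_0_q rD7k_9_8) 6158 = true := by
  decide +kernel

theorem cD7k_0_k9_9 : allI cD7k_0_c (rjL dJ cD7k_0_q rD7k_9_9) 6160 = true := by
  decide +kernel

theorem cD7k_0_k9_10 : allI cD7k_0_c (rjL dJ cD7k_0_q rD7k_9_10) 6162 = true := by
  decide +kernel

theorem cD7k_0_k9_11 : allI cD7k_0_c (rjL dJ cD7k_0_q rD7k_9_11) 6164 = true := by
  decide +kernel

theorem cD7k_0_k9_12 : allI cD7k_0_c (rjL dJ cD7k_0_q rD7k_9_12) 6166 = true := by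
  decide +kernel

theorem cD7k_0_k9_13 : allI cD7k_0_c (rjL dJ cD7k_0_q rD7k_9_13) 6168 = true := by
  decide +kernel

theorem cD7k_0_k9_14 : allI cD7k_0_c (rjL dJ cD7k_0_q rD7k_9_14) 6170 = true := by
  decide +kernel

theorem cD7k_0_k9_15 : allI cD7k_0_c (rjL dJ cD7k_0_q rD7k_9_15) 6173 = true := by
  decide +kernel

theorem cD7k_0_k9_16 : allI cD7k_0_c (rjL dJ cD7k_0_q rD7k_9_16) 6175 = true := by
  decide +kernel

theorem cD7k_0_k9_17 : allI cD7k_0_c (rjL dJ cD7k_0_q rD7k_9_17) 6177 = true := by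
  decide +kernel

theorem cD7k_0_k9_18 : allI cD7k_0_c (rjL dJ cD7k_0_q rD7k_9_18) 6179 = true := by
  decide +kernel

theorem cD7k_0_k9_19 : allI cD7k_0_c (rjL dJ cD7k_0_q rD7k_9_19) 6182 = true := by
  decide +kernel

theorem cD7k_0_k9_20 : allI cD7k_0_c (rjL dJ cD7k_0_q rD7k_9_20) 6184 = true := by
  decide +kernel

theorem cD7k_0_k9_21 : allI cD7k_0_c (rjL dJ cD7k_0_q rD7k_9_21) 6186 = true := by
  decide +kernel

theorem cD7k_0_k9_22 : allI cD7k_0_c (rjL dJ cD7k_0_q rD7k_9_22) 6188 = true := by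
  decide +kernel

theorem cD7k_0_k9_23 : allI cD7k_0_c (rjL dJ cD7k_0_q rD7k_9_23) 6189 = true := by
  decide +kernel

theorem cD7k_0_k9_24 : allI cD7k_0_c (rjL dJ cD7k_0_q rD7k_9_24) 6191 = true := by
  decide +kernel

theorem cD7k_0_k9_25 : allI cD7k_0_c (rjL dJ cD7k_0_q rD7k_9_25) 6193 = true := by
  decide +kernel

theorem cD7k_0_k9_26 : allI cD7k_0_c (rjL dJ cD7k_0_q rD7k_9_26) 6195 = true := by
  decide +kernel

theorem cD7k_0_k9_27 : allI cD7k_0_c (rjL dJ cD7k_0_q rD7k_9_27) 6197 = true := by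
  decide +kernel

theorem cD7k_0_k9_28 : allI cD7k_0_c (rjL dJ cD7k_0_q rD7k_9_28) 6199 = true := by
  decide +kernel

theorem cD7k_0_k9_29 : allI cD7k_0_c (rjL dJ cD7k_0_q rD7k_9_29) 6201 = true := by
  decide +kernel

theorem cD7k_0_k9_30 : allI cD7k_0_c (rjL dJ cD7k_0_q rD7k_9_30) 6202 = true := by
  decide +kernel

theorem cD7k_0_k9_31 : allI cD7k_0_c (rjL dJ cD7k_0_q rD7k_9_31) 6203 = true := by
  decide +kernel

theorem cD7k_0_k9_32 : allI cD7k_0_c (rjL dJ cD7k_0_q rD7k_9_32) 6205 = true := by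
  decide +kernel

theorem cD7k_0_k9_33 : allI cD7k_0_c (rjL dJ cD7k_0_q rD7k_9_33) 6207 = true := by
  decide +kernel

theorem cD7k_0_k9_34 : allI cD7k_0_c (rjL dJ cD7k_0_q rD7k_9_34) 6209 = true := by
  decide +kernel

theorem cD7k_0_k9_35 : allI cD7k_0_c (rjL dJ cD7k_0_q rD7k_9_35) 6211 = true := by
  decide +kernel

theorem cD7k_0_k9_36 : allI cD7k_0_c (rjL dJ cD7k_0_q rD7k_9_36) 6213 = true := by
  decide +kernel

theorem cD7k_0_k9_37 : allI cD7k_0_c (rjL dJ cD7k_0_q rD7k_9_37) 6214 = true := by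
  decide +kernel

theorem cD7k_0_k9_38 : allI cD7k_0_c (rjL dJ cD7k_0_q rD7k_9_38) 6215 = true := by
  decide +kernel

theorem cD7k_0_k9_39 : allI cD7k_0_c (rjL dJ cD7k_0_q rD7k_9_39) 6216 = true := by
  decide +kernel

theorem cD7k_0_k9_40 : allI cD7k_0_c (rjL dJ cD7k_0_q rD7k_9_40) 6217 = true := by
  decide +kernel

theorem cD7k_0_k9_41 : allI cD7k_0_c (rjL dJ cD7k_0_q rD7k_9_41) 6218 = true := by
  decide +kernel

theorem cD7k_0_k9_42 : allI cD7k_0_c (rjL dJ cD7k_0_q rD7k_9_42) 6219 = true := by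
  decide +kernel

theorem cD7k_0_k9_43 : allI cD7k_0_c (rjL dJ cD7k_0_q rD7k_9_43) 6220 = true := by
  decide +kernel

theorem cD7k_0_k9_44 : allI cD7k_0_c (rjL dJ cD7k_0_q rD7k_9_44) 6222 = true := by
  decide +kernel

theorem cD7k_0_k9_45 : allI cD7k_0_c (rjL dJ cD7k_0_q rD7k_9_45) 6224 = true := by
  decide +kernel

theorem cD7k_0_k9_46 : allI cD7k_0_c (rjL dJ cD7k_0_q rD7k_9_46) 6226 = true := by
  decide +kernel

/-- nodes -/
noncomputable def cD7k_0_n9 : List (QJ PN) :=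
  rjL dJ cD7k_0_q rD7k_9_0 ++ (rjL dJ cD7k_0_q rD7k_9_1 ++ (rjL dJ cD7k_0_q rD7k_9_2 ++ (
    rjL dJ cD7k_0_q rD7k_9_3 ++ (rjL dJ cD7k_0_q rD7k_9_4 ++ (rjL dJ cD7k_0_q rD7k_9_5 ++ (
    rjL dJ cD7k_0_q rD7k_9_6 ++ (rjL dJ cD7k_0_q rD7k_9_7 ++ (rjL dJ cD7k_0_q rD7k_9_8 ++ (
    rjL dJ cD7k_0_q rD7k_9_9 ++ (rjL dJ cD7k_0_q rD7k_9_10 ++ (rjL dJ cD7k_0_q rD7k_9_11 ++ (
    rjL dJ cD7k_0_q rD7k_9_12 ++ (rjL dJ cD7k_0_q rD7k_9_13 ++ (rjL dJ cD7k_0_q rD7k_9_14 ++ (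
    rjL dJ cD7k_0_q rD7k_9_15 ++ (rjL dJ cD7k_0_q rD7k_9_16 ++ (rjL dJ cD7k_0_q rD7k_9_17 ++ (
    rjL dJ cD7k_0_q rD7k_9_18 ++ (rjL dJ cD7k_0_q rD7k_9_19 ++ (rjL dJ cD7k_0_q rD7k_9_20 ++ (
    rjL dJ cD7k_0_q rD7k_9_21 ++ (rjL dJ cD7k_0_q rD7k_9_22 ++ (rjL dJ cD7k_0_q rD7k_9_23 ++ (
    rjL dJ cD7k_0_q rD7k_9_24 ++ (rjL dJ cD7k_0_q rD7k_9_25 ++ (rjL dJ cD7k_0_q rD7k_9_26 ++ (
    rjL dJ cD7k_0_q rD7k_9_27 ++ (rjL dJ cD7k_0_q rD7k_9_28 ++ (rjL dJ cD7k_0_q rD7k_9_29 ++ (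
    rjL dJ cD7k_0_q rD7k_9_30 ++ (rjL dJ cD7k_0_q rD7k_9_31 ++ (rjL dJ cD7k_0_q rD7k_9_32 ++ (
    rjL dJ cD7k_0_q rD7k_9_33 ++ (rjL dJ cD7k_0_q rD7k_9_34 ++ (rjL dJ cD7k_0_q rD7k_9_35 ++ (
    rjL dJ cD7k_0_q rD7k_9_36 ++ (rjL dJ cD7k_0_q rD7k_9_37 ++ (rjL dJ cD7k_0_q rD7k_9_38 ++ (
    rjL dJ cD7k_0_q rD7k_9_39 ++ (rjL dJ cD7k_0_q rD7k_9_40 ++ (rjL dJ cD7k_0_q rD7k_9_41 ++ (
    rjL dJ cD7k_0_q rD7k_9_42 ++ (rjL dJ cD7k_0_q rD7k_9_43 ++ (rjL dJ cD7k_0_q rD7k_9_44 ++ (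
    rjL dJ cD7k_0_q rD7k_9_45 ++
    rjL dJ cD7k_0_q rD7k_9_46)))))))))))))))))))))))))))))))))))))))))))))

theorem cD7k_0_k9 : allI cD7k_0_c cD7k_0_n9 6143 = true := by
  refine allI_appQ (k := 2) cD7k_0_k9_0 (by decide +kernel) ?_
  refine allI_appQ (k := 2) cD7k_0_k9_1 (by decide +kernel) ?_
  refine allI_appQ (k := 2) cD7k_0_k9_2 (by decide +kernel) ?_
  refine allI_appQ (k := 3) cD7k_0_k9_3 (by decide +kernel) ?_
  refine allI_appQ (k := 1) cD7k_0_k9_4 (by decide +kernel) ?_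
  refine allI_appQ (k := 2) cD7k_0_k9_5 (by decide +kernel) ?_
  refine allI_appQ (k := 2) cD7k_0_k9_6 (by decide +kernel) ?_
  refine allI_appQ (k := 1) cD7k_0_k9_7 (by decide +kernel) ?_
  refine allI_appQ (k := 2) cD7k_0_k9_8 (by decide +kernel) ?_
  refine allI_appQ (k := 2) cD7k_0_k9_9 (by decide +kernel) ?_
  refine allI_appQ (k := 2) cD7k_0_k9_10 (by decide +kernel) ?_
  refine allI_appQ (k := 2) cD7k_0_k9_11 (by decide +kernel) ?_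
  refine allI_appQ (k := 2) cD7k_0_k9_12 (by decide +kernel) ?_
  refine allI_appQ (k := 2) cD7k_0_k9_13 (by decide +kernel) ?_
  refine allI_appQ (k := 3) cD7k_0_k9_14 (by decide +kernel) ?_
  refine allI_appQ (k := 2) cD7k_0_k9_15 (by decide +kernel) ?_
  refine allI_appQ (k := 2) cD7k_0_k9_16 (by decide +kernel) ?_
  refine allI_appQ (k := 2) cD7k_0_k9_17 (by decide +kernel) ?_
  refine allI_appQ (k := 3) cD7k_0_k9_18 (by decide +kernel) ?_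
  refine allI_appQ (k := 2) cD7k_0_k9_19 (by decide +kernel) ?_
  refine allI_appQ (k := 2) cD7k_0_k9_20 (by decide +kernel) ?_
  refine allI_appQ (k := 2) cD7k_0_k9_21 (by decide +kernel) ?_
  refine allI_appQ (k := 1) cD7k_0_k9_22 (by decide +kernel) ?_
  refine allI_appQ (k := 2) cD7k_0_k9_23 (by decide +kernel) ?_
  refine allI_appQ (k := 2) cD7k_0_k9_24 (by decide +kernel) ?_
  refine allI_appQ (k := 2) cD7k_0_k9_25 (by decide +kernel) ?_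
  refine allI_appQ (k := 2) cD7k_0_k9_26 (by decide +kernel) ?_
  refine allI_appQ (k := 2) cD7k_0_k9_27 (by decide +kernel) ?_
  refine allI_appQ (k := 2) cD7k_0_k9_28 (by decide +kernel) ?_
  refine allI_appQ (k := 1) cD7k_0_k9_29 (by decide +kernel) ?_
  refine allI_appQ (k := 1) cD7k_0_k9_30 (by decide +kernel) ?_
  refine allI_appQ (k := 2) cD7k_0_k9_31 (by decide +kernel) ?_
  refine allI_appQ (k := 2) cD7k_0_k9_32 (by decide +kernel) ?_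
  refine allI_appQ (k := 2) cD7k_0_k9_33 (by decide +kernel) ?_
  refine allI_appQ (k := 2) cD7k_0_k9_34 (by decide +kernel) ?_
  refine allI_appQ (k := 2) cD7k_0_k9_35 (by decide +kernel) ?_
  refine allI_appQ (k := 1) cD7k_0_k9_36 (by decide +kernel) ?_
  refine allI_appQ (k := 1) cD7k_0_k9_37 (by decide +kernel) ?_
  refine allI_appQ (k := 1) cD7k_0_k9_38 (by decide +kernel) ?_
  refine allI_appQ (k := 1) cD7k_0_k9_39 (by decide +kernel) ?_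
  refine allI_appQ (k := 1) cD7k_0_k9_40 (by decide +kernel) ?_
  refine allI_appQ (k := 1) cD7k_0_k9_41 (by decide +kernel) ?_
  refine allI_appQ (k := 1) cD7k_0_k9_42 (by decide +kernel) ?_
  refine allI_appQ (k := 2) cD7k_0_k9_43 (by decide +kernel) ?_
  refine allI_appQ (k := 2) cD7k_0_k9_44 (by decide +kernel) ?_
  refine allI_appQ (k := 2) cD7k_0_k9_45 (by decide +kernel) ?_
  exact cD7k_0_k9_46

theorem cD7k_0_l9 : cD7k_0_n9.length = 84 := by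
  decide +kernel

end Pool.Agent.Lib_MP_fa6e45
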