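import Pool.Agent.Lib_MP_fa6e45.RJ1
import Pool.Agent.Lib_MP_fa6e45.CJ3
import Pool.Agent.Lib_MP_fa6e45.DQ7kT
import Pool.Agent.Lib_MP_fa6e45.RD7k_d0
import Pool.Agent.Lib_MP_fa6e45.RD7k_d1
import Pool.Agent.Lib_MP_fa6e45.RD7k_d2
import Pool.Agent.Lib_MP_fa6e45.RD7k_d3
import Pool.Agent.Lib_MP_fa6e45.RD7k_d4
import Pool.Agent.Lib_MP_fa6e45.RD7k_d5
import Pool.Agent.Lib_MP_fa6e45.RD7k_d6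
import Pool.Agent.Lib_MP_fa6e45.RD7k_d7
import Pool.Agent.Lib_MP_fa6e45.RD7k_d8
import Pool.Agent.Lib_MP_fa6e45.RD7k_d9
import Pool.Agent.Lib_MP_fa6e45.RD7k_d10
import Pool.Agent.Lib_MP_fa6e45.RD7k_d11
import Pool.Agent.Lib_MP_fa6e45.RD7k_d12

/-!
MP_fa6e45_co, stage 9: straight-side patterns with `7` sides, data of a certificate (generated by a program).
-/

namespace Pool.Agent.Lib_MP_fa6e45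

/-- classes `0 0 0 0 0 0 0` -/
noncomputable def cD7k_0_w : List ℕ := [k0,k0,k0,k0,k0,k0,k0]

/-- symmetries -/
noncomputable def cD7k_0_s : List (Bool × ℕ × List ℕ) :=
  [(true,k4,[k4,k3,k2,k1,k0,k6,k5]),(false,k1,[k1,k2,k3,k4,k5,k6,k0]),(true,k6,[k6,k5,k4,k3,k2,k1,k0]),(false,k4,[k4,
    k5,k6,k0,k1,k2,k3]),(false,k0,[k0,k1,k2,k3,k4,k5,k6]),(false,k2,[k2,k3,k4,k5,k6,k0,k1]),(false,k3,[k3,k4,k5,k6,k0,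
    k1,k2]),(true,k3,[k3,k2,k1,k0,k6,k5,k4]),(false,k5,[k5,k6,k0,k1,k2,k3,k4]),(true,k1,[k1,k0,k6,k5,k4,k3,k2]),(true,
    k2,[k2,k1,k0,k6,k5,k4,k3]),(true,k5,[k5,k4,k3,k2,k1,k0,k6]),(true,k0,[k0,k6,k5,k4,k3,k2,k1]),(false,k6,[k6,k0,k1,
    k2,k3,k4,k5])]

/-- steps -/
noncomputable def cD7k_0_t : List (ℕ × ℕ × ℕ × ℕ × ℕ × ℕ) :=
  [(k0,k40,k0,k0,k2,k12),(k1,k194,k0,k1,k13,k12),(k2,k68,k0,k2,k4,k12),(k3,k26,k0,k3,k1,k12),(k4,k96,k0,k4,k6,k12),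
    (k5,k54,k0,k5,k3,k12),(k6,k124,k0,k6,k8,k12),(k7,k82,k0,k7,k5,k12),(k8,k152,k0,k8,k10,k12),(k9,k110,k0,k9,k7,k12),
    (k10,k180,k0,k10,k12,k12),(k11,k138,k0,k11,k9,k12),(k12,k12,k0,k12,k0,k12),(k13,k166,k0,k13,k11,k12),(k14,k31,k1,
    k0,k2,k3),(k15,k185,k1,k1,k13,k3),(k16,k59,k1,k2,k4,k3),(k17,k17,k1,k3,k1,k3),(k18,k87,k1,k4,k6,k3),(k19,k45,k1,
    k5,k3,k3),(k20,k115,k1,k6,k8,k3),(k21,k73,k1,k7,k5,k3),(k22,k143,k1,k8,k10,k3),(k23,k101,k1,k9,k7,k3),(k24,k171,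
    k1,k10,k12,k3),(k25,k129,k1,k11,k9,k3),(k27,k157,k1,k13,k11,k3),(k28,k28,k2,k0,k2,k0),(k29,k182,k2,k1,k13,k0),
    (k30,k56,k2,k2,k4,k0),(k32,k84,k2,k4,k6,k0),(k33,k42,k2,k5,k3,k0),(k34,k112,k2,k6,k8,k0),(k35,k70,k2,k7,k5,k0),
    (k36,k140,k2,k8,k10,k0),(k37,k98,k2,k9,k7,k0),(k38,k168,k2,k10,k12,k0),(k39,k126,k2,k11,k9,k0),(k41,k154,k2,k13,
    k11,k0),(k43,k187,k3,k1,k13,k5),(k44,k61,k3,k2,k4,k5),(k46,k89,k3,k4,k6,k5),(k47,k47,k3,k5,k3,k5),(k48,k117,k3,k6,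
    k8,k5),(k49,k75,k3,k7,k5,k5),(k50,k145,k3,k8,k10,k5),(k51,k103,k3,k9,k7,k5),(k52,k173,k3,k10,k12,k5),(k53,k131,k3,
    k11,k9,k5),(k55,k159,k3,k13,k11,k5),(k57,k184,k4,k1,k13,k2),(k58,k58,k4,k2,k4,k2),(k60,k86,k4,k4,k6,k2),(k62,k114,
    k4,k6,k8,k2),(k63,k72,k4,k7,k5,k2),(k64,k142,k4,k8,k10,k2),(k65,k100,k4,k9,k7,k2),(k66,k170,k4,k10,k12,k2),(k67,
    k128,k4,k11,k9,k2),(k69,k156,k4,k13,k11,k2),(k71,k189,k5,k1,k13,k7),(k74,k91,k5,k4,k6,k7),(k76,k119,k5,k6,k8,k7),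
    (k77,k77,k5,k7,k5,k7),(k78,k147,k5,k8,k10,k7),(k79,k105,k5,k9,k7,k7),(k80,k175,k5,k10,k12,k7),(k81,k133,k5,k11,k9,
    k7),(k83,k161,k5,k13,k11,k7),(k85,k186,k6,k1,k13,k4),(k88,k88,k6,k4,k6,k4),(k90,k116,k6,k6,k8,k4),(k92,k144,k6,k8,
    k10,k4),(k93,k102,k6,k9,k7,k4),(k94,k172,k6,k10,k12,k4),(k95,k130,k6,k11,k9,k4),(k97,k158,k6,k13,k11,k4),(k99,
    k191,k7,k1,k13,k9),(k104,k121,k7,k6,k8,k9),(k106,k149,k7,k8,k10,k9),(k107,k107,k7,k9,k7,k9),(k108,k177,k7,k10,k12,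
    k9),(k109,k135,k7,k11,k9,k9),(k111,k163,k7,k13,k11,k9),(k113,k188,k8,k1,k13,k6),(k118,k118,k8,k6,k8,k6),(k120,
    k146,k8,k8,k10,k6),(k122,k174,k8,k10,k12,k6),(k123,k132,k8,k11,k9,k6),(k125,k160,k8,k13,k11,k6),(k127,k193,k9,k1,
    k13,k11),(k134,k151,k9,k8,k10,k11),(k136,k179,k9,k10,k12,k11),(k137,k137,k9,k11,k9,k11),(k139,k165,k9,k13,k11,
    k11),(k141,k190,k10,k1,k13,k8),(k148,k148,k10,k8,k10,k8),(k150,k176,k10,k10,k12,k8),(k153,k162,k10,k13,k11,k8),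
    (k155,k195,k11,k1,k13,k13),(k164,k181,k11,k10,k12,k13),(k167,k167,k11,k13,k11,k13),(k169,k192,k12,k1,k13,k10),
    (k178,k178,k12,k10,k12,k10),(k183,k183,k13,k1,k13,k1)]

/-- equations of the nodes -/
noncomputable def cD7k_0_D : List (List (List (List (ℕ × ℕ)))) :=
  [cD7k_0_D0, cD7k_0_D1, cD7k_0_D2, cD7k_0_D3, cD7k_0_D4, cD7k_0_D5, cD7k_0_D6, cD7k_0_D7, cD7k_0_D8, cD7k_0_D9,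
     cD7k_0_D10, cD7k_0_D11, cD7k_0_D12, cD7k_0_D13, cD7k_0_D14, cD7k_0_D15, cD7k_0_D16, cD7k_0_D17, cD7k_0_D18,
     cD7k_0_D19, cD7k_0_D20, cD7k_0_D21, cD7k_0_D22, cD7k_0_D23, cD7k_0_D24, cD7k_0_D25, cD7k_0_D26, cD7k_0_D27,
     cD7k_0_D28, cD7k_0_D29, cD7k_0_D30]

/-- other nodes -/
noncomputable def cD7k_0_q0 : List (QJ PN) :=
  [.i (.h (.n (.q (.old [([z0,z0,z1,z0,z0,z1,z0],z2),([z0,z0,z0,z1,z0,z0,z1],z2)]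
    (.z (.x (.old (.leafM k1 [k0,k1,k4] [] [(k2,k5,z1,[z1]),(k3,k6,z1,[z0,z1]),(k5,k2,z1,[z1]),(k6,k3,z1,[z0,
    z1])])))))))),
    .i (.h (.n (.q (.old [([z1,z0,z0,z1,z0,z0,z0],z1),([z0,z1,z1,z0,z0,z0,z0],z2)]
    (.z (.x (.old (.leafM k0 [k0,k3,k4,k5,k6] [(z1,[z1])] [(k1,k2,z1,[z0,z1]),(k2,k1,z1,[z0,z1])])))))))),
    .i (.h (.n (.q (.old [([z0,z1,z1,z0,z0,z0,z0],z1),([z0,z0,z0,z0,z0,z1,z1],z2)]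
    (.z (.x (.old (.leafM k0 [k1,k2,k3,k4,k0] [(z1,[z1])] [(k5,k6,z1,[z0,z1]),(k6,k5,z1,[z0,z1])])))))))),
    .i (.h (.n (.q (.old [([z0,z0,z1,z1,z0,z0,z0],z1),([z1,z0,z0,z0,z0,z1,z0],z2)]
    (.z (.x (.old (.leafM k3 [k4,k6,k1,k2,k3] [(z1,[z1])] [(k5,k0,z1,[z0,z1]),(k0,k5,z1,[z0,z1])])))))))),
    .i (.h (.n (.q (.old [([z0,z0,z0,z1,z1,z0,z0],z2),([z1,z1,z0,z0,z0,z0,z0],z2)]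
    (.z (.x (.old (.leafM k0 [k2,k5,k6] [] [(k3,k4,z1,[z1]),(k4,k3,z1,[z1]),(k0,k1,z1,[z0,z1]),(k1,k0,z1,[z0,
    z1])])))))))),
    .i (.h (.n (.q (.old [([z0,z1,z0,z0,z0,z1,z0],z1),([z1,z0,z0,z0,z1,z0,z0],z2)]
    (.z (.x (.old (.leafM k2 [k3,k5,k6,k1,k2] [(z1,[z1])] [(k4,k0,z1,[z0,z1]),(k0,k4,z1,[z0,z1])])))))))),
    .i (.h (.n (.q (.old [([z0,z0,z0,z0,z2,z0,z0],z1),([z2,z2,z0,z0,z0,z0,z0],z1),([z0,z0,z1,z0,z0,z0,z1],z2)]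
    (.z (.x (.old (.leafM k3 [k1,k4,k0] [(z1,[z1]),(z1,[z0,z1])] [(k2,k6,z1,[z0,z0,z1]),(k3,k5,z2,[y1,y1,y2,z2]),(k5,
    k3,z2,[y1,y1,y2,z2]),(k6,k2,z1,[z0,z0,z1])])))))))),
    .i (.h (.n (.q (.old [([z0,z0,z0,z0,z3,z0,z0],z2),([z3,z3,z0,z0,z0,z0,z0],z1),([z0,z0,z1,z0,z0,z0,z1],z2)]
    (.z (.x (.old (.leafM k2 [k1,k4,k0] [(z1,[z1]),(z1,[z0,z1])] [(k2,k6,z1,[z0,z0,z1]),(k3,k5,z3,[y1,y1,y3,z3]),(k5,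
    k3,z3,[y1,y1,y3,z3]),(k6,k2,z1,[z0,z0,z1])])))))))),
    .i (.h (.n (.q (.old [([z0,z0,z0,z0,z3,z0,z0],z1),([z3,z3,z0,z0,z0,z0,z0],z2),([z0,z0,z1,z0,z0,z0,z1],z2)]
    (.z (.x (.old (.leafM k4 [k1,k4,k0] [(z1,[z1]),(z1,[z0,z1])] [(k2,k6,z1,[z0,z0,z1]),(k3,k5,z3,[y1,y1,y3,z3]),(k5,
    k3,z3,[y1,y1,y3,z3]),(k6,k2,z1,[z0,z0,z1])])))))))),
    .i (.h (.n (.q (.old [([z0,z0,z0,z0,z1,z0,z1],z2),([z0,z0,z1,z1,z0,z0,z0],z2),([z1,z0,z1,z0,z0,z0,z0],z2),([z0,z1,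
    z0,z0,z0,z1,z1],z2)]
    (.z (.x (.old (.tor k0 false k0 [(z1,[z1]),(z1,[z0,z1]),(z1,[z0,z0,z0,z1]),(z1,[z0,z0,z1]),(z1,[y1,y1,y1,y1,
    z2])])))))))),
    .i (.h (.n (.q (.old [([z0,z0,z0,z0,z0,z2,z1],z2),([z0,z0,z0,z0,z1,z0,z1],z2),([z0,z0,z1,z0,z0,z1,z0],z2),([z0,z2,
    z0,z0,z1,z0,z0],z2),([z2,z0,z0,z0,z2,z0,z0],z2)]
    (.z (.x (.old (.tor k1 false k0 [(z1,[z1]),(z1,[z0,z1]),(z1,[z0,z0,z1]),(z2,[z0,z0,y2,z0,y1,z2]),(z1,[z0,z0,z0,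
    z1]),(z2,[y1,y1,z0,y1,z0,z2]),(z1,[z0,z0,z0,z0,z1])])))))))),
    .i (.h (.n (.q (.old [([z0,z0,z0,z0,z0,z1,z1],z2),([z0,z0,z1,z0,z1,z0,z0],z2),([z0,z1,z0,z0,z0,z0,z1],z2),([z0,z1,
    z1,z0,z0,z1,z0],z2),([z1,z0,z0,z3,z1,z0,z0],z2)]
    (.z (.x (.old (.tor k2 false k0 [(z1,[z1]),(z1,[z0,z1]),(z1,[z0,z0,z1]),(z1,[z0,z0,z0,z1]),(z1,[z0,z0,z0,z0,z1]),
    (z1,[y2,y2,y2,y2,y1,z4])])))))))),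
    .i (.h (.n (.q (.old [([z1,z0,z0,z0,z0,z0,y1],y1),([z0,z1,z0,z0,z0,z0,z1],z2),([z0,z0,z0,z0,z5,z0,y1],z2),([z0,z0,
    z5,z0,z0,z0,y4],y2),([z0,z0,z0,z5,z0,z0,z2],z6)]
    (.z (.num k1 z5 k6 [(y5,z5),(z10,y5),(y2,z4),(z6,y2),(z2,z1),(z14,y8),(z0,z5)] [(z1,[z5]),(z1,[z0,z5]),(z1,[z0,z0,
    z0,z1]),(z1,[z0,z0,z0,z0,z1]),(z1,[z0,z0,z1]),(z1,[y5,y5,y1,y1,y1,z5]),(z1,[])]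
    (.spl .bnd (.spl (.dir 0 5 [.z2 0 5, .z2 1 6, .p2 2 4 0 0 ⟨⟨5, 30, 0, 0, [(0, true, 7)]⟩, ⟨1048576, 524288, 0, 7,
     []⟩⟩ ⟨⟨5, 40, 0, 0, [(0, true, 1)]⟩, ⟨8, 10, 0, 0, [(5, true, 1)]⟩⟩, .p1 3 0 ⟨⟨5, 35, 0, 0, [(0, true, 4)]⟩, ⟨8,
     0, 0, 0, [(5, true,
     4)]⟩⟩]) (.spl (.spl (.spl (.dir 7 1 [.z2 1 6]) (.spl (.dir 4 3 [.z2 1 6]) (.spl (.dir 4 3 [.z2 1 6]) (.dir 4 3 [.z2 1 6])))) (.spl (.spl (.spl (.spl (.dir 4 3 [.z2 1 6]) (.dir 0 5 [.z2 0 5,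
     .z2 1 6])) (.spl (.spl (.spl (.dir 4 2 [.z2 1 6,
     .z2 2 3]) (.spl (.dir 5 1 [.z2 1 6]) (.dir 3 2 [.z2 1 6]))) (.spl (.dir 4 1 [.z2 1 6]) (.dir 5 0 [.z2 1 6]))) (.dir 0 3 [.z2 1 6]))) (.spl (.dir 3 1 [.z2 1 6]) (.dir 6 5 [.z2 1 6]))) (.dir 3 1 [.z2 1 6]))) .bnd))))))))),
    
    .i (.h (.n (.q (.old [([z0,z1,z0,z0,z0,z0,z1],z2),([z0,z0,z0,z1,z0,z0,z2],z3),([z5,z0,z0,z0,z0,z0,y2],y2),([z0,z0,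
    z5,z0,z0,z0,y3],z2),([z0,z0,z0,z0,z5,z0,y8],y8)]
    (.z (.num k1 z5 k6 [(y2,z2),(z10,y5),(z2,z3),(z15,y10),(y8,z8),(z8,y3),(z0,z5)] [(z1,[z0,z0,z1]),(z1,[z5]),(z1,
    [z0,z0,z0,z1]),(z1,[z0,z5]),(z1,[z0,z0,z0,z0,z1]),(z1,[y5,y5,y1,y1,y1,z5]),(z1,[])]
    (.spl .bnd (.spl (.spl (.spl (.dir 4 6 [.z2 1 5, .z2 2 6]) (.dir 2 8 [.z2 2 6,
     .z2 3 4])) (.spl (.spl (.spl (.spl (.dir 9 2 [.z2 2 6]) (.dir 5 5 [.z2 2 6])) (.spl (.spl (.spl (.dir 6 4 [.z2 2 6]) (.spl (.dir 4 5 [.z2 2 6]) (.spl (.dir 3 5 [.z2 2 6]) (.dir 2 5 [.z2 2 6])))) (.dir 7 8 [.z2 2 6,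
     .z2 3 4])) (.dir 3 3 [.z2 2 6]))) (.dir 9 6 [.z2 1 5, .z2 2 6])) (.dir 9 6 [.z2 1 5, .z2 2 6]))) .bnd)))))))),
    .i (.h (.n (.q (.old [([z0,z0,z1,z0,z0,z0,y1],z0),([z2,z0,z0,z0,z0,z0,y1],z0),([z0,z1,z0,z0,z0,z0,z1],z2),([z0,z0,
    z0,z0,z1,z0,z2],z2),([z0,z0,z0,z0,z0,z4,z1],z4)]
    (.z (.num k1 z4 k6 [(z0,z2),(z8,y4),(z0,z4),(z0,z3),(z8,y8),(z4,y1),(z0,z4)] [(z1,[z0,z2]),(z1,[z0,z0,z4]),(z1,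
    [z4]),(z1,[y4,y2,y4,y4,y1,z4]),(z1,[z0,z0,z0,z4]),(z1,[z0,z0,z0,z0,z1]),(z1,[])]
    (.spl (.spl (.dir 2 2 [.z1 6, .p2 0 3 0 0 ⟨⟨4, 16, 0, 0, [(6, true, 7)]⟩, ⟨1048576, 524288, 0, 7, []⟩⟩ ⟨⟨8, 40, 0,
     0, [(4, true, 3)]⟩, ⟨4, 0, 0, 0, [(6, true, 3)]⟩⟩, .p2 1 4 1 1 ⟨⟨1048576, 1572864, 0, 5, []⟩, ⟨4, 16, 0, 0, [(6,
     true, 5)]⟩⟩ ⟨⟨4, 0, 0, 0, [(6, true, 1)]⟩, ⟨8, 56, 0, 0, [(4, true, 1)]⟩⟩, .p2 2 5 0 0 ⟨⟨8, 48, 0, 0, [(4, true,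
     2)]⟩, ⟨4, 0, 0, 0, [(6, true, 2)]⟩⟩ ⟨⟨4, 16, 0, 0, [(6, true, 6)]⟩, ⟨1048576, 1048576, 0, 6,
     []⟩⟩]) (.spl (.spl (.spl (.dir 7 6 []) (.spl (.dir 0 4 [.z2 5 6]) (.spl (.dir 0 4 [.z2 5 6]) (.dir 0 4 [.z2 5 6])))) (.spl (.spl (.spl (.spl (.spl (.dir 1 2 []) (.dir 0 4 [.z2 5 6])) (.spl (.spl (.spl (.dir 0 2 [.z2 0 1]) (.dir 0 1 [.z2 0 6,
     .z2 3 4])) (.dir 6 3 [.z2 0 5,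
     .z2 1 6])) (.dir 7 0 []))) (.dir 4 4 [.z2 5 6])) (.dir 6 1 [])) (.dir 6 1 []))) (.dir 6 1 []))) .bnd))))))),
    .i (.h (.n (.q (.old [([z2,z0,z0,z0,z0,z0,y1],z0),([z0,z1,z0,z0,z0,z0,z1],z2),([z0,z0,z0,z2,z0,z0,z1],z2),([z0,z0,
    z0,z0,z0,z2,z1],z2),([z0,z0,z0,z0,z3,z0,y2],z1)]
    (.z (.num k1 z6 k6 [(z0,z3),(z12,y6),(z4,y1),(z6,y3),(z2,z4),(z6,y3),(z0,z6)] [(z1,[z3]),(z1,[z0,z6]),(z1,[y3,y6,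
    y3,y3,y2,z6]),(z1,[z0,z0,z3]),(z1,[z0,z0,z0,z0,z2]),(z1,[z0,z0,z0,z3]),(z1,[])]
    (.spl (.spl (.dir 9 7 [.z2 1 4, .p1 0 1 ⟨⟨6, 0, 0, 0, [(6, true, 14)]⟩, ⟨1048576, 5242880, 0, 14, []⟩⟩,
     .p2 2 5 2 0 ⟨⟨6, 0, 0, 0, [(6, false, 2)]⟩, ⟨6, 48, 0, 0, [(6, true, 2)]⟩⟩ ⟨⟨6, 60, 0, 0, [(6, true, 2)]⟩,
     ⟨1048576, 1048576, 0, 2, []⟩⟩, .p2 3 6 1 1 ⟨⟨6, 60, 0, 0, [(6, true, 1)]⟩, ⟨6, 0, 0, 0, [(6, false,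
     1)]⟩⟩ ⟨⟨1048576, 524288, 0, 7, []⟩, ⟨6, 48, 0, 0, [(6, true, 7)]⟩⟩]) (.spl (.dir 10 5 [.z2 1 4,
     .z2 2 6]) (.spl (.spl (.spl (.dir 6 10 [.z2 1 4]) (.spl (.dir 9 6 [.z1 1, .z1 4]) (.spl (.dir 9 6 [.z1 1,
     .z1 4]) (.dir 6 9 [.z2 1 4])))) (.spl (.spl (.spl (.spl (.spl (.dir 7 7 [.z2 1 4]) (.dir 7 5 [.z2 0 3,
     .z2 1 4])) (.spl (.dir 6 6 [.z2 1 4, .z2 5 6]) (.dir 9 0 [.z1 0,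
     .z2 1 4]))) (.dir 2 8 [.z2 1 4])) (.dir 0 10 [.z2 1 4])) (.dir 4 5 [.z2 1 4, .z2 2 6]))) (.dir 4 5 [.z2 1 4,
     .z2 2 6])))) (.spl (.dir 4 5 [.z2 1 4, .z2 2 6]) (.dir 6 3 [.z2 0 1, .p2 2 3 0 0 ⟨⟨6, 24, 0, 0, [(6, false,
     11)]⟩, ⟨1048576, 2621440, 11, 0, []⟩⟩ ⟨⟨6, 36, 0, 0, [(6, true, 3)]⟩, ⟨6, 0, 0, 0, [(6, false, 3)]⟩⟩,
     .p1 4 0 ⟨⟨6, 36, 0, 0, [(6, false, 6)]⟩, ⟨1048576, 3145728, 6, 0, []⟩⟩, .p2 5 6 0 0 ⟨⟨6, 0, 0, 0, [(6, false,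
     6)]⟩, ⟨6, 0, 0, 0, [(6, true, 6)]⟩⟩ ⟨⟨6, 0, 0, 0, [(6, false, 6)]⟩, ⟨6, 0, 0, 0, [(6, true, 6)]⟩⟩])))))))))]

/-- other nodes -/
noncomputable def cD7k_0_q1 : List (QJ PN) :=
  [.i (.h (.n (.q (.old [([z0,z0,z0,z1,z0,z1,z0],z2),([z0,z1,z0,z0,z2,z0,z0],z2),([z2,z0,z0,z1,z0,z0,z0],z2),([z0,z0,
    z1,z0,z0,z1,z1],z2)]
    (.z (.x (.old (.tor k3 false k0 [(z1,[z1]),(z1,[z0,z0,z0,z1]),(z1,[z0,z1]),(z1,[y1,y1,y1,y1,z2]),(z1,[z0,z0,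
    z1])])))))))),
    .i (.h (.n (.q (.old [([z0,z0,z2,z0,z0,z0,z1],z2),([z0,z1,z0,z0,z0,z1,z0],z2),([z1,z0,z0,z0,z2,z0,z0],z2),([z1,z1,
    z0,z0,z0,z0,z0],z2)]
    (.z (.x (.old (.tor k4 false k0 [(z1,[y1,y1,y1,y1,z2]),(z1,[z1]),(z1,[z0,z1]),(z1,[z0,z0,z1]),(z1,[z0,z0,z0,
    z1])])))))))),
    .i (.h (.n (.q (.old [([z0,z0,z0,z0,z1,z0,z1],z2),([z0,z0,z1,z0,z1,z0,z0],z2),([z0,z1,z0,z1,z0,z0,z1],z2),([z1,z0,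
    z0,z1,z0,z2,z0],z2)]
    (.z (.x (.old (.tor k5 false k0 [(z1,[z1]),(z1,[z0,z1]),(z1,[z0,z0,z1]),(z1,[z0,z0,z0,z1]),(z1,[y1,y1,y1,y1,
    z2])])))))))),
    .i (.h (.n (.q (.old [([z0,z0,z0,z0,z0,z1,z1],z2),([z0,z0,z1,z0,z1,z0,z0],z2),([z1,z0,z1,z0,z0,z0,z0],z2),([z0,z0,
    z0,z1,z1,z1,z0],z2)]
    (.z (.x (.old (.tor k6 false k0 [(z1,[z1]),(z1,[z0,z0,z0,z1]),(z1,[z0,z1]),(z1,[z0,z0,z1]),(z1,[y1,y1,y1,y1,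
    z2])])))))))),
    .i (.h (.n (.q (.old [([z0,z0,z0,z0,z0,z1,z1],z2),([z0,z1,z0,z0,z0,z0,z1],z2),([z2,z0,z0,z0,z1,z0,z0],z2),([z0,z0,
    z1,z1,z1,z0,z0],z2)]
    (.z (.x (.old (.tor k7 false k0 [(z1,[z1]),(z1,[z0,z0,z0,z1]),(z1,[z0,z1]),(z1,[y1,y1,y1,y1,z2]),(z1,[z0,z0,
    z1])])))))))),
    .i (.h (.n (.q (.old [([z0,z0,z0,z0,z0,z1,z1],z2),([z0,z0,z1,z0,z1,z0,z0],z2),([z1,z0,z0,z1,z0,z0,z1],z2),([z1,z1,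
    z1,z0,z0,z0,z0],z2)]
    (.z (.x (.old (.tor k8 false k0 [(z1,[z1]),(z1,[z0,z1]),(z1,[y1,y1,y1,y1,z2]),(z1,[z0,z0,z1]),(z1,[z0,z0,z0,
    z1])])))))))),
    .i (.h (.n (.q (.old [([z0,z0,z1,z1,z0,z0,z0],z2),([z0,z1,z0,z0,z0,z0,z1],z2),([z1,z0,z1,z0,z0,z0,z0],z2),([z0,z0,
    z0,z0,z1,z1,z1],z2)]
    (.z (.x (.old (.tor k9 false k0 [(z1,[z0,z0,z0,z1]),(z1,[z1]),(z1,[z0,z1]),(z1,[z0,z0,z1]),(z1,[y1,y1,y1,y1,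
    z2])])))))))),
    .i (.h (.n (.q (.old [([z0,z0,z0,z0,z1,z1,z0],z2),([z0,z0,z0,z1,z1,z0,z0],z2),([z0,z2,z0,z0,z0,z0,z1],z2),([z2,z0,
    z1,z0,z0,z0,z0],z2)]
    (.z (.x (.old (.tor k10 false k0 [(z1,[z1]),(z1,[z0,z1]),(z1,[y1,y1,y1,y1,z2]),(z1,[z0,z0,z1]),(z1,[z0,z0,z0,
    z1])])))))))),
    .i (.h (.n (.q (.old [([z0,z0,z0,z1,z0,z1,z0],z2),([z0,z0,z0,z1,z2,z0,z0],z2),([z0,z0,z1,z0,z0,z1,z0],z2),([z0,z2,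
    z0,z0,z0,z0,z1],z2)]
    (.z (.x (.old (.tor k11 false k0 [(z1,[z1]),(z1,[z0,z1]),(z1,[z0,z0,z1]),(z1,[z0,z0,z0,z1]),(z1,[y1,y1,y1,y1,
    z2])])))))))),
    .i (.h (.n (.q (.old [([z0,z0,z0,z1,z0,z0,z1],z2),([z0,z1,z0,z0,z0,z1,z0],z2),([z1,z0,z0,z1,z0,z0,z0],z2),([z0,z0,
    z2,z0,z0,z1,z1],z2)]
    (.z (.x (.old (.tor k12 false k0 [(z1,[z1]),(z1,[z0,z0,z0,z1]),(z1,[z0,z1]),(z1,[z0,z0,z1]),(z1,[y1,y1,y1,y1,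
    z2])])))))))),
    .i (.h (.n (.q (.old [([z0,z1,z0,z1,z0,z0,z0],z2),([z0,z1,z2,z0,z0,z0,z0],z2),([z1,z0,z0,z0,z1,z0,z0],z2),([z0,z0,
    z0,z0,z1,z1,z2],z2)]
    (.z (.x (.old (.tor k13 false k0 [(z1,[z0,z0,z0,z1]),(z1,[z1]),(z1,[z0,z1]),(z1,[z0,z0,z1]),(z1,[y1,y1,y1,y1,
    z2])])))))))),
    .i (.h (.n (.q (.old [([z0,z0,z1,z0,z0,z1,z0],z2),([z0,z1,z0,z0,z0,z0,z1],z2),([z0,z0,z0,z1,z1,z0,z1],z2),([z0,z1,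
    z0,z1,z0,z1,z0],z2)]
    (.z (.x (.old (.tor k14 false k0 [(z1,[z0,z0,z1]),(z1,[z1]),(z1,[z0,z1]),(z1,[z0,z0,z0,z1]),(z1,[y1,y1,y1,y1,
    z2])])))))))),
    .i (.h (.n (.q (.old [([z0,z0,z1,z0,z0,z1,z0],z2),([z2,z0,z0,z0,z1,z0,z0],z2),([z0,z0,z0,z1,z0,z1,z1],z2),([z0,z1,
    z0,z0,z1,z0,z1],z2)]
    (.z (.x (.old (.tor k15 false k0 [(z1,[z0,z0,z1]),(z1,[z1]),(z1,[z0,z0,z0,z1]),(z1,[y1,y1,y1,y1,z2]),(z1,[z0,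
    z1])])))))))),
    .i (.h (.n (.q (.old [([z0,z0,z0,z0,z0,z1,z1],z2),([z0,z0,z1,z0,z1,z0,z0],z2),([z0,z1,z0,z0,z0,z0,z1],z2),([z1,z0,
    z1,z0,z0,z0,z0],z2)]
    (.z (.x (.old (.tor k16 false k0 [(z1,[z1]),(z1,[z0,z1]),(z1,[z0,z0,z1]),(z1,[z0,z0,z0,z1]),(z1,[y1,y1,y1,y1,
    z2])])))))))),
    .i (.h (.n (.q (.old [([z0,z0,z0,z0,z1,z0,z1],z2),([z0,z0,z0,z1,z0,z1,z0],z2),([z1,z0,z0,z0,z0,z1,z0],z2),([z0,z0,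
    z2,z1,z1,z0,z0],z2)]
    (.z (.x (.old (.tor k17 false k0 [(z1,[z1]),(z1,[z0,z1]),(z1,[z0,z0,z0,z1]),(z1,[z0,z0,z1]),(z1,[y1,y1,y1,y1,
    z2])])))))))),
    .i (.h (.n (.q (.old [([z0,z0,z0,z0,z1,z0,z1],z2),([z0,z0,z0,z1,z0,z1,z0],z2),([z0,z0,z2,z0,z1,z0,z0],z2),([z1,z0,
    z0,z0,z0,z1,z0],z2)]
    (.z (.x (.old (.tor k18 false k0 [(z1,[z1]),(z1,[z0,z1]),(z1,[z0,z0,z1]),(z1,[z0,z0,z0,z1]),(z1,[y1,y1,y1,y1,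
    z2])]))))))))]

/-- other nodes -/
noncomputable def cD7k_0_q2 : List (QJ PN) :=
  [.i (.h (.n (.q (.old [([z0,z0,z0,z0,z1,z0,z1],z2),([z0,z0,z0,z2,z0,z1,z0],z2),([z0,z0,z2,z0,z1,z0,z0],z2),([z1,z0,
    z0,z0,z0,z1,z0],z2)]
    (.z (.x (.old (.tor k19 false k0 [(z1,[z1]),(z1,[z0,z1]),(z1,[z0,z0,z1]),(z1,[z0,z0,z0,z1]),(z1,[y1,y1,y1,y1,
    z2])])))))))),
    .i (.h (.n (.q (.old [([z0,z0,z0,z0,z2,z0,z1],z2),([z0,z1,z0,z0,z0,z0,z1],z2),([z1,z0,z0,z0,z0,z1,z0],z2),([z1,z0,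
    z2,z0,z0,z0,z0],z2)]
    (.z (.x (.old (.tor k20 false k0 [(z1,[z1]),(z1,[z0,z1]),(z1,[y1,y1,y1,y1,z2]),(z1,[z0,z0,z1]),(z1,[z0,z0,z0,
    z1])])))))))),
    .i (.h (.n (.q (.old [([z0,z0,z0,z0,z2,z0,z1],z2),([z0,z0,z0,z2,z0,z1,z0],z2),([z0,z1,z2,z0,z0,z0,z0],z2),([z1,z1,
    z0,z0,z0,z0,z0],z2)]
    (.z (.x (.old (.tor k21 false k0 [(z1,[z1]),(z1,[z0,z1]),(z1,[z0,z0,z1]),(z1,[y1,y1,y1,y1,z2]),(z1,[z0,z0,z0,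
    z1])])))))))),
    .i (.h (.n (.q (.old [([z0,z0,z1,z0,z0,z1,z0],z2),([z0,z1,z0,z0,z2,z0,z0],z2),([z0,z1,z1,z0,z0,z0,z0],z2),([z0,z0,
    z0,z1,z0,z1,z1],z2)]
    (.z (.x (.old (.tor k22 false k0 [(z1,[z0,z0,z0,z1]),(z1,[z1]),(z1,[z0,z1]),(z1,[z0,z0,z1]),(z1,[y1,y1,y1,y1,
    z2])])))))))),
    .i (.h (.n (.q (.old [([z0,z0,z0,z0,z2,z1,z0],z2),([z0,z0,z0,z1,z0,z1,z0],z2),([z2,z0,z1,z0,z0,z0,z0],z2),([z0,z1,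
    z0,z1,z0,z0,z1],z2)]
    (.z (.x (.old (.tor k23 false k0 [(z1,[z1]),(z1,[z0,z1]),(z1,[z0,z0,z0,z1]),(z1,[y1,y1,y1,y1,z2]),(z1,[z0,z0,
    z1])])))))))),
    .i (.h (.n (.q (.old [([z0,z0,z0,z1,z0,z1,z0],z2),([z0,z0,z1,z0,z0,z1,z0],z2),([z0,z1,z0,z0,z2,z0,z0],z2),([z0,z1,
    z1,z0,z0,z0,z1],z2)]
    (.z (.x (.old (.tor k24 false k0 [(z1,[z1]),(z1,[z0,z1]),(z1,[z0,z0,z1]),(z1,[z0,z0,z0,z1]),(z1,[y1,y1,y1,y1,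
    z2])])))))))),
    .i (.h (.n (.q (.old [([z0,z0,z0,z1,z0,z1,z0],z2),([z0,z0,z1,z0,z0,z0,z2],z2),([z0,z0,z1,z1,z0,z0,z0],z2),([z0,z1,
    z0,z0,z2,z0,z0],z2)]
    (.z (.x (.old (.tor k25 false k0 [(z1,[z1]),(z1,[z0,z1]),(z1,[z0,z0,z1]),(z1,[z0,z0,z0,z1]),(z1,[y1,y1,y1,y1,
    z2])])))))))),
    .i (.h (.n (.q (.old [([z0,z0,z0,z1,z0,z1,z0],z2),([z0,z0,z1,z0,z1,z0,z0],z2),([z0,z1,z1,z0,z0,z0,z0],z2),([z0,z0,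
    z0,z0,z1,z1,z2],z2)]
    (.z (.x (.old (.tor k26 false k0 [(z1,[z0,z0,z0,z1]),(z1,[z1]),(z1,[z0,z1]),(z1,[z0,z0,z1]),(z1,[y1,y1,y1,y1,
    z2])])))))))),
    .i (.h (.n (.q (.old [([z0,z0,z0,z1,z0,z1,z0],z2),([z0,z1,z0,z0,z0,z0,z1],z2),([z0,z1,z1,z0,z0,z0,z0],z2),([z2,z0,
    z0,z1,z1,z0,z0],z2)]
    (.z (.x (.old (.tor k27 false k0 [(z1,[z1]),(z1,[y1,y1,y1,y1,z2]),(z1,[z0,z1]),(z1,[z0,z0,z1]),(z1,[z0,z0,z0,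
    z1])])))))))),
    .i (.h (.n (.q (.old [([z0,z0,z0,z1,z0,z0,z1],z2),([z0,z0,z0,z1,z1,z0,z0],z2),([z0,z2,z0,z0,z0,z0,z1],z2),([z2,z0,
    z1,z0,z0,z0,z0],z2)]
    (.z (.x (.old (.tor k28 false k0 [(z1,[z1]),(z1,[z0,z1]),(z1,[y1,y1,y1,y1,z2]),(z1,[z0,z0,z1]),(z1,[z0,z0,z0,
    z1])])))))))),
    .i (.h (.n (.q (.old [([z0,z0,z1,z0,z1,z0,z0],z2),([z1,z0,z0,z1,z0,z0,z0],z2),([z1,z1,z0,z0,z0,z0,z0],z2),([z0,z0,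
    z1,z0,z0,z1,z2],z2)]
    (.z (.x (.old (.tor k29 false k0 [(z1,[z0,z0,z0,z1]),(z1,[z1]),(z1,[y1,y1,y1,y1,z2]),(z1,[z0,z1]),(z1,[z0,z0,
    z1])])))))))),
    .i (.h (.n (.q (.old [([z0,z0,z0,z1,z0,z1,z0],z2),([z0,z1,z0,z0,z0,z1,z0],z2),([z0,z0,z1,z0,z2,z0,z1],z2),([z1,z0,
    z0,z1,z0,z0,z1],z2)]
    (.z (.x (.old (.tor k30 false k0 [(z1,[z1]),(z1,[z0,z0,z1]),(z1,[z0,z1]),(z1,[z0,z0,z0,z1]),(z1,[y1,y1,y1,y1,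
    z2])])))))))),
    .i (.h (.n (.q (.old [([z0,z0,z0,z0,z2,z1,z0],z2),([z0,z0,z0,z2,z0,z0,z1],z2),([z1,z0,z1,z0,z0,z0,z0],z2),([z1,z2,
    z0,z0,z0,z0,z0],z2)]
    (.z (.x (.old (.tor k31 false k0 [(z1,[z1]),(z1,[z0,z1]),(z1,[y1,y1,y1,y1,z2]),(z1,[z0,z0,z1]),(z1,[z0,z0,z0,
    z1])])))))))),
    .i (.h (.n (.q (.old [([z0,z0,z0,z2,z0,z0,z1],z2),([z0,z2,z0,z0,z0,z1,z0],z2),([z1,z0,z0,z0,z2,z0,z0],z2),([z1,z0,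
    z1,z0,z0,z0,z0],z2)]
    (.z (.x (.old (.tor k32 false k0 [(z1,[z1]),(z1,[y1,y1,y1,y1,z2]),(z1,[z0,z1]),(z1,[z0,z0,z1]),(z1,[z0,z0,z0,
    z1])])))))))),
    .i (.h (.n (.q (.old [([z0,z0,z0,z1,z0,z1,z0],z2),([z0,z1,z0,z0,z0,z0,z1],z2),([z0,z0,z1,z1,z0,z0,z1],z2),([z1,z0,
    z0,z0,z2,z1,z0],z2)]
    (.z (.x (.old (.tor k33 false k0 [(z1,[z1]),(z1,[z0,z0,z1]),(z1,[z0,z1]),(z1,[z0,z0,z0,z1]),(z1,[y1,y1,y1,y1,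
    z2])])))))))),
    .i (.h (.n (.q (.old [([z0,z0,z0,z0,z1,z0,z1],z2),([z0,z1,z0,z0,z0,z2,z0],z2),([z0,z1,z0,z1,z0,z0,z0],z2),([z1,z0,
    z0,z1,z0,z0,z1],z2)]
    (.z (.x (.old (.tor k34 false k0 [(z1,[z1]),(z1,[z0,z1]),(z1,[z0,z0,z1]),(z1,[z0,z0,z0,z1]),(z1,[y1,y1,y1,y1,
    z2])]))))))))]

/-- other nodes -/
noncomputable def cD7k_0_q3 : List (QJ PN) :=
  [.i (.h (.n (.q (.old [([z0,z0,z0,z0,z0,z1,z1],z2),([z0,z0,z0,z1,z0,z1,z0],z2),([z0,z0,z2,z0,z1,z0,z0],z2),([z0,z2,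
    z0,z1,z0,z0,z0],z2)]
    (.z (.x (.old (.tor k35 false k0 [(z1,[z1]),(z1,[z0,z1]),(z1,[z0,z0,z1]),(z1,[z0,z0,z0,z1]),(z1,[y1,y1,y1,y1,
    z2])])))))))),
    .i (.h (.n (.q (.old [([z0,z0,z0,z0,z2,z0,z1],z2),([z0,z0,z0,z2,z0,z1,z0],z2),([z0,z1,z2,z0,z0,z0,z0],z2),([z1,z0,
    z0,z0,z0,z1,z0],z2)]
    (.z (.x (.old (.tor k36 false k0 [(z1,[z1]),(z1,[z0,z1]),(z1,[z0,z0,z1]),(z1,[z0,z0,z0,z1]),(z1,[y1,y1,y1,y1,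
    z2])])))))))),
    .i (.h (.n (.q (.old [([z0,z0,z0,z0,z1,z0,z1],z2),([z0,z2,z1,z0,z0,z0,z0],z2),([z0,z0,z0,z1,z0,z1,z1],z2),([z1,z0,
    z0,z1,z1,z0,z0],z2)]
    (.z (.x (.old (.tor k37 false k0 [(z1,[z1]),(z1,[z0,z0,z1]),(z1,[z0,z1]),(z1,[z0,z0,z0,z1]),(z1,[y1,y1,y1,y1,
    z2])])))))))),
    .i (.h (.n (.q (.old [([z0,z1,z0,z1,z0,z0,z0],z2),([z1,z1,z0,z0,z0,z0,z0],z2),([z0,z0,z0,z0,z1,z1,z1],z2),([z0,z0,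
    z2,z0,z0,z1,z1],z2)]
    (.z (.x (.old (.tor k38 false k0 [(z1,[z0,z0,z1]),(z1,[z0,z0,z0,z1]),(z1,[z1]),(z1,[y1,y1,y1,y1,z2]),(z1,[z0,
    z1])])))))))),
    .i (.h (.n (.q (.old [([z0,z0,z0,z1,z1,z0,z0],z2),([z0,z0,z1,z0,z0,z0,z1],z2),([z1,z0,z0,z0,z1,z0,z0],z2),([z0,z1,
    z0,z0,z0,z1,z1],z2)]
    (.z (.x (.old (.tor k39 false k0 [(z1,[z1]),(z1,[z0,z1]),(z1,[z0,z0,z0,z1]),(z1,[z0,z0,z1]),(z1,[y1,y1,y1,y1,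
    z2])])))))))),
    .i (.h (.n (.q (.old [([z0,z0,z0,z1,z0,z0,z1],z2),([z0,z0,z1,z1,z0,z0,z0],z2),([z0,z0,z1,z0,z0,z1,z1],z2),([z1,z0,
    z0,z0,z1,z1,z0],z2)]
    (.z (.x (.old (.tor k40 false k0 [(z1,[z1]),(z1,[z0,z0,z1]),(z1,[z0,z1]),(z1,[z0,z0,z0,z1]),(z1,[y1,y1,y1,y1,
    z2])])))))))),
    .i (.h (.n (.q (.old [([z0,z0,z0,z0,z2,z1,z0],z2),([z0,z0,z0,z1,z0,z1,z0],z2),([z0,z1,z1,z0,z0,z0,z0],z2),([z2,z1,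
    z0,z0,z0,z0,z0],z2)]
    (.z (.x (.old (.tor k41 false k0 [(z1,[z1]),(z1,[z0,z1]),(z1,[y1,y1,y1,y1,z2]),(z1,[z0,z0,z1]),(z1,[z0,z0,z0,
    z1])])))))))),
    .i (.h (.n (.q (.old [([z0,z0,z0,z0,z0,z1,z2],z2),([z0,z0,z0,z0,z1,z1,z0],z2),([z0,z1,z0,z1,z0,z0,z0],z2),([z0,z0,
    z1,z1,z1,z0,z0],z2)]
    (.z (.x (.old (.tor k42 false k0 [(z1,[z1]),(z1,[z0,z1]),(z1,[z0,z0,z0,z1]),(z1,[z0,z0,z1]),(z1,[y1,y1,y1,y1,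
    z2])])))))))),
    .i (.h (.n (.q (.old [([z0,z0,z2,z0,z0,z0,z1],z2),([z0,z1,z0,z1,z0,z0,z0],z2),([z0,z0,z0,z0,z1,z1,z1],z2),([z1,z0,
    z0,z1,z1,z0,z0],z2)]
    (.z (.x (.old (.tor k43 false k0 [(z1,[z0,z0,z1]),(z1,[z1]),(z1,[z0,z1]),(z1,[z0,z0,z0,z1]),(z1,[y1,y1,y1,y1,
    z2])])))))))),
    .i (.h (.n (.q (.old [([z0,z0,z0,z0,z2,z1,z0],z2),([z0,z1,z2,z0,z0,z0,z0],z2),([z1,z0,z0,z0,z0,z0,z1],z2),([z1,z1,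
    z0,z0,z0,z0,z0],z2)]
    (.z (.x (.old (.tor k44 false k0 [(z1,[z1]),(z1,[y1,y1,y1,y1,z2]),(z1,[z0,z1]),(z1,[z0,z0,z1]),(z1,[z0,z0,z0,
    z1])])))))))),
    .i (.h (.n (.q (.old [([z0,z0,z0,z0,z2,z1,z0],z2),([z0,z0,z1,z2,z0,z0,z0],z2),([z0,z1,z0,z0,z0,z0,z1],z2),([z1,z0,
    z0,z0,z0,z1,z1],z2)]
    (.z (.x (.old (.tor k45 false k0 [(z1,[z1]),(z1,[z0,z1]),(z1,[z0,z0,z1]),(z1,[z0,z0,z0,z1]),(z1,[y1,y1,y1,y1,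
    z2])])))))))),
    .i (.h (.n (.q (.old [([z0,z0,z0,z0,z2,z0,z1],z2),([z0,z1,z0,z0,z0,z0,z1],z2),([z0,z1,z1,z0,z0,z0,z0],z2),([z0,z0,
    z1,z1,z0,z1,z0],z2)]
    (.z (.x (.old (.tor k46 false k0 [(z1,[z1]),(z1,[z0,z0,z0,z1]),(z1,[z0,z1]),(z1,[z0,z0,z1]),(z1,[y1,y1,y1,y1,
    z2])])))))))),
    .i (.h (.n (.q (.old [([z0,z0,z0,z0,z0,z1,z1],z2),([z0,z0,z0,z1,z1,z0,z0],z2),([z0,z0,z1,z0,z0,z0,z1],z2),([z1,z0,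
    z1,z1,z0,z0,z0],z2)]
    (.z (.x (.old (.tor k47 false k0 [(z1,[z1]),(z1,[z0,z1]),(z1,[z0,z0,z1]),(z1,[z0,z0,z0,z1]),(z1,[y1,y1,y1,y1,
    z2])])))))))),
    .i (.h (.n (.q (.old [([z0,z0,z0,z0,z1,z1,z0],z2),([z0,z0,z1,z0,z1,z0,z0],z2),([z2,z1,z0,z0,z0,z0,z0],z2),([z0,z0,
    z1,z2,z0,z0,z1],z2)]
    (.z (.x (.old (.tor k48 false k0 [(z1,[z1]),(z1,[z0,z1]),(z1,[z0,z0,z0,z1]),(z1,[y1,y1,y1,y1,z2]),(z1,[z0,z0,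
    z1])])))))))),
    .i (.h (.n (.q (.old [([z0,z0,z0,z0,z1,z1,z0],z2),([z0,z0,z0,z2,z1,z0,z0],z2),([z0,z0,z2,z0,z0,z0,z1],z2),([z2,z1,
    z0,z0,z0,z0,z0],z2)]
    (.z (.x (.old (.tor k49 false k0 [(z1,[z1]),(z1,[z0,z1]),(z1,[z0,z0,z1]),(z1,[y1,y1,y1,y1,z2]),(z1,[z0,z0,z0,
    z1])])))))))),
    .i (.h (.n (.q (.old [([z0,z0,z0,z0,z0,z1,z1],z2),([z0,z2,z0,z0,z1,z0,z0],z2),([z1,z0,z0,z2,z0,z0,z0],z2),([z0,z0,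
    z1,z0,z1,z1,z0],z2)]
    (.z (.x (.old (.tor k50 false k0 [(z1,[z1]),(z1,[z0,z0,z0,z1]),(z1,[z0,z1]),(z1,[z0,z0,z1]),(z1,[y1,y1,y1,y1,
    z2])]))))))))]

/-- other nodes -/
noncomputable def cD7k_0_q4 : List (QJ PN) :=
  [.i (.h (.n (.q (.old [([z0,z0,z0,z0,z0,z1,z2],z2),([z0,z0,z0,z0,z1,z1,z0],z2),([z0,z0,z1,z1,z0,z0,z0],z2),([z0,z1,
    z0,z1,z1,z0,z0],z2)]
    (.z (.x (.old (.tor k51 false k0 [(z1,[z1]),(z1,[z0,z1]),(z1,[z0,z0,z1]),(z1,[z0,z0,z0,z1]),(z1,[y1,y1,y1,y1,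
    z2])])))))))),
    .i (.h (.n (.q (.old [([z0,z0,z0,z0,z0,z1,z1],z2),([z0,z1,z0,z0,z0,z0,z1],z2),([z0,z0,z1,z1,z1,z0,z0],z2),([z1,z0,
    z1,z1,z0,z0,z0],z2)]
    (.z (.x (.old (.tor k52 false k0 [(z1,[z1]),(z1,[z0,z0,z1]),(z1,[z0,z1]),(z1,[z0,z0,z0,z1]),(z1,[y1,y1,y1,y1,
    z2])])))))))),
    .i (.h (.n (.q (.old [([z0,z0,z1,z0,z1,z0,z0],z2),([z0,z1,z0,z0,z0,z0,z1],z2),([z2,z0,z0,z0,z1,z0,z0],z2),([z0,z0,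
    z0,z1,z0,z1,z1],z2)]
    (.z (.x (.old (.tor k53 false k0 [(z1,[z0,z0,z0,z1]),(z1,[z1]),(z1,[z0,z1]),(z1,[y1,y1,y1,y1,z2]),(z1,[z0,z0,
    z1])])))))))),
    .i (.h (.n (.q (.old [([z0,z0,z0,z1,z0,z1,z0],z2),([z0,z0,z1,z0,z0,z0,z1],z2),([z0,z1,z0,z0,z0,z0,z1],z2),([z1,z0,
    z1,z1,z0,z0,z0],z2)]
    (.z (.x (.old (.tor k54 false k0 [(z1,[z1]),(z1,[z0,z1]),(z1,[z0,z0,z1]),(z1,[z0,z0,z0,z1]),(z1,[y1,y1,y1,y1,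
    z2])])))))))),
    .i (.h (.n (.q (.old [([z0,z0,z0,z1,z0,z0,z1],z2),([z0,z1,z0,z0,z0,z1,z0],z2),([z0,z0,z1,z0,z1,z1,z0],z2),([z1,z0,
    z1,z0,z0,z0,z1],z2)]
    (.z (.x (.old (.tor k55 false k0 [(z1,[z1]),(z1,[z0,z0,z1]),(z1,[z0,z1]),(z1,[z0,z0,z0,z1]),(z1,[y1,y1,y1,y1,
    z2])])))))))),
    .i (.h (.n (.q (.old [([z0,z0,z0,z1,z0,z1,z0],z2),([z0,z0,z1,z0,z0,z0,z1],z2),([z2,z0,z0,z1,z0,z0,z0],z2),([z0,z1,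
    z0,z0,z1,z0,z1],z2)]
    (.z (.x (.old (.tor k56 false k0 [(z1,[z1]),(z1,[z0,z1]),(z1,[z0,z0,z0,z1]),(z1,[y1,y1,y1,y1,z2]),(z1,[z0,z0,
    z1])])))))))),
    .i (.h (.n (.q (.old [([z0,z0,z1,z0,z0,z2,z0],z2),([z0,z1,z0,z0,z1,z0,z0],z2),([z2,z0,z0,z1,z0,z0,z0],z2),([z0,z0,
    z1,z0,z1,z0,z1],z2)]
    (.z (.x (.old (.tor k57 false k0 [(z1,[z1]),(z1,[z0,z0,z0,z1]),(z1,[z0,z1]),(z1,[y1,y1,y1,y1,z2]),(z1,[z0,z0,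
    z1])])))))))),
    .i (.h (.n (.q (.old [([z0,z0,z1,z0,z0,z0,z1],z2),([z0,z1,z0,z0,z0,z2,z0],z2),([z0,z0,z0,z1,z1,z0,z1],z2),([z1,z0,
    z1,z0,z1,z0,z0],z2)]
    (.z (.x (.old (.tor k58 false k0 [(z1,[z0,z0,z1]),(z1,[z1]),(z1,[z0,z1]),(z1,[z0,z0,z0,z1]),(z1,[y1,y1,y1,y1,
    z2])])))))))),
    .i (.h (.n (.q (.old [([z0,z0,z0,z1,z0,z0,z2],z2),([z0,z0,z1,z0,z0,z1,z0],z2),([z0,z1,z1,z0,z0,z0,z0],z2),([z0,z1,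
    z0,z0,z1,z1,z0],z2)]
    (.z (.x (.old (.tor k59 false k0 [(z1,[z1]),(z1,[z0,z1]),(z1,[z0,z0,z0,z1]),(z1,[z0,z0,z1]),(z1,[y1,y1,y1,y1,
    z2])])))))))),
    .i (.h (.n (.q (.old [([z0,z0,z0,z1,z1,z0,z0],z2),([z0,z1,z0,z0,z0,z1,z0],z2),([z1,z0,z0,z1,z0,z0,z0],z2),([z0,z0,
    z2,z0,z0,z1,z2],z2)]
    (.z (.x (.old (.tor k60 false k0 [(z1,[z1]),(z1,[z0,z0,z0,z1]),(z1,[z0,z1]),(z1,[z0,z0,z1]),(z1,[y1,y1,y1,y1,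
    z2])])))))))),
    .i (.h (.n (.q (.old [([z0,z0,z0,z1,z1,z0,z0],z2),([z0,z0,z1,z0,z0,z0,z1],z2),([z0,z1,z0,z0,z0,z1,z1],z2),([z1,z0,
    z0,z0,z1,z1,z0],z2)]
    (.z (.x (.old (.tor k61 false k0 [(z1,[z1]),(z1,[z0,z1]),(z1,[z0,z0,z1]),(z1,[z0,z0,z0,z1]),(z1,[y1,y1,y1,y1,
    z2])])))))))),
    .i (.h (.n (.q (.old [([z0,z0,z0,z1,z0,z0,z1],z2),([z0,z1,z0,z0,z1,z0,z0],z2),([z0,z1,z1,z0,z0,z0,z0],z2),([z0,z0,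
    z1,z0,z0,z2,z1],z2)]
    (.z (.x (.old (.tor k62 false k0 [(z1,[z1]),(z1,[z0,z0,z0,z1]),(z1,[z0,z1]),(z1,[z0,z0,z1]),(z1,[y1,y1,y1,y1,
    z2])])))))))),
    .i (.h (.n (.q (.old [([z0,z0,z0,z1,z1,z0,z0],z2),([z0,z0,z1,z1,z0,z0,z0],z2),([z0,z1,z0,z0,z0,z1,z0],z2),([z0,z0,
    z1,z0,z0,z1,z2],z2)]
    (.z (.x (.old (.tor k63 false k0 [(z1,[z1]),(z1,[z0,z0,z0,z1]),(z1,[z0,z1]),(z1,[z0,z0,z1]),(z1,[y1,y1,y1,y1,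
    z2])])))))))),
    .i (.h (.n (.q (.old [([z0,z0,z1,z0,z0,z1,z0],z2),([z1,z0,z0,z0,z0,z0,z1],z2),([z1,z1,z0,z0,z0,z0,z0],z2),([z0,z0,
    z0,z2,z0,z1,z1],z2)]
    (.z (.x (.old (.tor k64 false k0 [(z1,[z0,z0,z0,z1]),(z1,[z1]),(z1,[y1,y1,y1,y1,z2]),(z1,[z0,z1]),(z1,[z0,z0,
    z1])])))))))),
    .i (.h (.n (.q (.old [([z0,z1,z0,z0,z0,z0,z1],z2),([z2,z0,z0,z0,z1,z0,z0],z2),([z0,z0,z0,z1,z1,z1,z0],z2),([z0,z0,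
    z1,z0,z0,z1,z1],z2)]
    (.z (.x (.old (.tor k65 false k0 [(z1,[z0,z0,z1]),(z1,[z0,z0,z0,z1]),(z1,[z1]),(z1,[y1,y1,y1,y1,z2]),(z1,[z0,
    z1])])))))))),
    .i (.h (.n (.q (.old [([z0,z0,z1,z1,z0,z0,z0],z2),([z0,z1,z0,z0,z0,z0,z1],z2),([z0,z0,z0,z1,z1,z1,z0],z2),([z0,z0,
    z1,z0,z0,z1,z1],z2)]
    (.z (.x (.old (.tor k66 false k0 [(z1,[z0,z0,z1]),(z1,[z0,z0,z0,z1]),(z1,[z1]),(z1,[z0,z1]),(z1,[y1,y1,y1,y1,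
    z2])]))))))))]

/-- other nodes -/
noncomputable def cD7k_0_q5 : List (QJ PN) :=
  [.i (.h (.n (.q (.old [([z0,z1,z0,z0,z0,z0,z1],z2),([z0,z1,z0,z1,z0,z0,z0],z2),([z0,z0,z0,z1,z1,z1,z0],z2),([z0,z0,
    z1,z0,z0,z1,z1],z2)]
    (.z (.x (.old (.tor k67 false k0 [(z1,[z0,z0,z1]),(z1,[z0,z0,z0,z1]),(z1,[z1]),(z1,[z0,z1]),(z1,[y1,y1,y1,y1,
    z2])])))))))),
    .i (.h (.n (.q (.old [([z0,z0,z0,z0,z1,z2,z0],z2),([z0,z0,z0,z1,z1,z0,z0],z2),([z0,z0,z1,z1,z0,z0,z0],z2),([z0,z1,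
    z0,z0,z0,z0,z2],z2)]
    (.z (.x (.old (.tor k68 false k0 [(z1,[z1]),(z1,[z0,z1]),(z1,[z0,z0,z1]),(z1,[z0,z0,z0,z1]),(z1,[y1,y1,y1,y1,
    z2])])))))))),
    .i (.h (.n (.q (.old [([z0,z0,z0,z0,z1,z1,z0],z2),([z0,z0,z2,z0,z0,z1,z0],z2),([z0,z1,z0,z1,z0,z0,z0],z2),([z1,z1,
    z0,z0,z0,z0,z1],z2)]
    (.z (.x (.old (.tor k69 false k0 [(z1,[z1]),(z1,[z0,z1]),(z1,[z0,z0,z1]),(z1,[y1,y1,y1,y1,z2]),(z1,[z0,z0,z0,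
    z1])])))))))),
    .i (.h (.n (.q (.old [([z0,z0,z1,z1,z0,z0,z0],z2),([z2,z0,z0,z1,z0,z0,z0],z2),([z0,z0,z0,z0,z1,z1,z1],z2),([z0,z1,
    z0,z0,z0,z1,z1],z2)]
    (.z (.x (.old (.tor k70 false k0 [(z1,[z0,z0,z1]),(z1,[z1]),(z1,[z0,z0,z0,z1]),(z1,[y1,y1,y1,y1,z2]),(z1,[z0,
    z1])])))))))),
    .i (.h (.n (.q (.old [([z0,z0,z0,z0,z0,z1,z1],z2),([z0,z0,z2,z0,z0,z1,z0],z2),([z0,z1,z0,z0,z1,z0,z0],z2),([z1,z0,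
    z0,z2,z1,z0,z0],z2)]
    (.z (.x (.old (.tor k71 false k0 [(z1,[z1]),(z1,[z0,z1]),(z1,[z0,z0,z1]),(z1,[z0,z0,z0,z1]),(z1,[y1,y1,y1,y1,
    z2])])))))))),
    .i (.h (.n (.q (.old [([z0,z0,z0,z0,z1,z1,z0],z2),([z0,z1,z0,z0,z0,z0,z1],z2),([z2,z0,z0,z0,z1,z0,z0],z2),([z0,z0,
    z1,z2,z0,z0,z1],z2)]
    (.z (.x (.old (.tor k72 false k0 [(z1,[z1]),(z1,[z0,z0,z0,z1]),(z1,[z0,z1]),(z1,[y1,y1,y1,y1,z2]),(z1,[z0,z0,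
    z1])])))))))),
    .i (.h (.n (.q (.old [([z0,z0,z0,z0,z0,z1,z1],z2),([z0,z0,z0,z1,z1,z0,z0],z2),([z0,z0,z2,z0,z0,z1,z0],z2),([z1,z0,
    z0,z1,z0,z0,z1],z2)]
    (.z (.x (.old (.tor k73 false k0 [(z1,[z1]),(z1,[z0,z1]),(z1,[z0,z0,z1]),(z1,[z0,z0,z0,z1]),(z1,[y1,y1,y1,y1,
    z2])])))))))),
    .i (.h (.n (.q (.old [([z0,z0,z0,z0,z1,z1,z0],z2),([z0,z1,z0,z1,z0,z0,z0],z2),([z0,z0,z0,z1,z0,z1,z1],z2),([z0,z1,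
    z1,z0,z0,z0,z1],z2)]
    (.z (.x (.old (.tor k74 false k0 [(z1,[z1]),(z1,[z0,z0,z1]),(z1,[z0,z1]),(z1,[z0,z0,z0,z1]),(z1,[y1,y1,y1,y1,
    z2])])))))))),
    .i (.h (.n (.q (.old [([z0,z0,z0,z1,z0,z1,z0],z2),([z0,z1,z0,z0,z0,z1,z0],z2),([z2,z0,z0,z0,z1,z0,z0],z2),([z0,z0,
    z1,z0,z1,z0,z2],z2)]
    (.z (.x (.old (.tor k75 false k0 [(z1,[z1]),(z1,[z0,z0,z0,z1]),(z1,[z0,z1]),(z1,[y1,y1,y1,y1,z2]),(z1,[z0,z0,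
    z1])])))))))),
    .i (.h (.n (.q (.old [([z0,z0,z0,z1,z0,z0,z1],z2),([z0,z1,z0,z0,z0,z0,z1],z2),([z2,z0,z0,z0,z1,z0,z0],z2),([z0,z0,
    z1,z0,z1,z1,z0],z2)]
    (.z (.x (.old (.tor k76 false k0 [(z1,[z1]),(z1,[z0,z0,z0,z1]),(z1,[z0,z1]),(z1,[y1,y1,y1,y1,z2]),(z1,[z0,z0,
    z1])])))))))),
    .i (.h (.n (.q (.old [([z0,z0,z0,z0,z0,z1,z2],z2),([z0,z0,z1,z1,z0,z0,z0],z2),([z2,z1,z0,z0,z0,z0,z0],z2),([z0,z0,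
    z0,z1,z1,z1,z0],z2)]
    (.z (.x (.old (.tor k77 false k0 [(z1,[z1]),(z1,[z0,z0,z0,z1]),(z1,[z0,z1]),(z1,[y1,y1,y1,y1,z2]),(z1,[z0,z0,
    z1])])))))))),
    .i (.h (.n (.q (.old [([z0,z0,z0,z0,z1,z0,z1],z2),([z0,z0,z1,z0,z0,z1,z0],z2),([z0,z2,z0,z0,z1,z0,z0],z2),([z1,z0,
    z1,z0,z0,z0,z0],z2)]
    (.z (.x (.old (.tor k78 false k0 [(z1,[z1]),(z1,[z0,z1]),(z1,[z0,z0,z1]),(z1,[y1,y1,y1,y1,z2]),(z1,[z0,z0,z0,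
    z1])])))))))),
    .i (.h (.n (.q (.old [([z0,z0,z0,z1,z1,z0,z0],z2),([z2,z1,z0,z0,z0,z0,z0],z2),([z0,z0,z1,z0,z1,z1,z0],z2),([z0,z0,
    z1,z1,z0,z0,z1],z2)]
    (.z (.x (.old (.tor k79 false k0 [(z1,[z1]),(z1,[z0,z0,z1]),(z1,[z0,z0,z0,z1]),(z1,[y1,y1,y1,y1,z2]),(z1,[z0,
    z1])])))))))),
    .i (.h (.n (.q (.old [([z0,z0,z0,z0,z0,z1,z2],z2),([z0,z0,z0,z1,z1,z0,z0],z2),([z0,z2,z0,z1,z0,z0,z0],z2),([z2,z0,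
    z1,z0,z0,z0,z0],z2)]
    (.z (.x (.old (.tor k80 false k0 [(z1,[z1]),(z1,[z0,z1]),(z1,[y1,y1,y1,y1,z2]),(z1,[z0,z0,z1]),(z1,[z0,z0,z0,
    z1])])))))))),
    .i (.h (.n (.q (.old [([z0,z0,z0,z0,z1,z2,z0],z2),([z0,z1,z1,z0,z0,z0,z0],z2),([z1,z1,z0,z0,z0,z0,z0],z2),([z0,z0,
    z0,z1,z1,z0,z1],z2)]
    (.z (.x (.old (.tor k81 false k0 [(z1,[z1]),(z1,[z0,z0,z0,z1]),(z1,[z0,z1]),(z1,[y1,y1,y1,y1,z2]),(z1,[z0,z0,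
    z1])])))))))),
    .i (.h (.n (.q (.old [([z0,z0,z0,z1,z0,z1,z0],z2),([z0,z1,z0,z0,z0,z0,z1],z2),([z0,z1,z0,z0,z2,z0,z0],z2),([z2,z0,
    z0,z1,z0,z0,z0],z2)]
    (.z (.x (.old (.tor k82 false k0 [(z1,[z1]),(z1,[y1,y1,y1,y1,z2]),(z1,[z0,z1]),(z1,[z0,z0,z1]),(z1,[z0,z0,z0,
    z1])]))))))))]

/-- other nodes -/
noncomputable def cD7k_0_q6 : List (QJ PN) :=
  [.i (.h (.n (.q (.old [([z0,z0,z0,z1,z2,z0,z0],z2),([z0,z0,z1,z0,z0,z1,z0],z2),([z0,z1,z0,z0,z0,z0,z2],z2),([z0,z1,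
    z1,z0,z0,z0,z0],z2)]
    (.z (.x (.old (.tor k83 false k0 [(z1,[z1]),(z1,[z0,z1]),(z1,[z0,z0,z1]),(z1,[z0,z0,z0,z1]),(z1,[y1,y1,y1,y1,
    z2])])))))))),
    .i (.h (.n (.q (.old [([z0,z0,z0,z2,z0,z1,z0],z2),([z0,z0,z1,z0,z0,z0,z1],z2),([z0,z0,z1,z0,z2,z0,z0],z2),([z2,z1,
    z0,z0,z0,z0,z0],z2)]
    (.z (.x (.old (.tor k84 false k0 [(z1,[z1]),(z1,[z0,z1]),(z1,[z0,z0,z1]),(z1,[y1,y1,y1,y1,z2]),(z1,[z0,z0,z0,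
    z1])])))))))),
    .i (.h (.n (.q (.old [([z0,z0,z0,z1,z0,z0,z1],z2),([z0,z0,z1,z0,z0,z2,z0],z2),([z0,z2,z0,z0,z1,z0,z0],z2),([z1,z0,
    z0,z1,z0,z0,z0],z2)]
    (.z (.x (.old (.tor k85 false k0 [(z1,[z1]),(z1,[z0,z1]),(z1,[z0,z0,z1]),(z1,[z0,z0,z0,z1]),(z1,[y1,y1,y1,y1,
    z2])])))))))),
    .i (.h (.n (.q (.old [([z0,z0,z0,z0,z0,z2,z1],z2),([z0,z0,z0,z1,z2,z0,z0],z2),([z0,z1,z1,z0,z0,z0,z0],z2),([z1,z1,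
    z0,z0,z0,z0,z0],z2)]
    (.z (.x (.old (.tor k86 false k0 [(z1,[z1]),(z1,[z0,z1]),(z1,[z0,z0,z1]),(z1,[y1,y1,y1,y1,z2]),(z1,[z0,z0,z0,
    z1])])))))))),
    .i (.h (.n (.q (.old [([z0,z0,z1,z0,z1,z0,z0],z2),([z0,z1,z0,z0,z0,z0,z2],z2),([z2,z0,z0,z0,z0,z1,z0],z2),([z0,z0,
    z1,z1,z0,z1,z0],z2)]
    (.z (.x (.old (.tor k87 false k0 [(z1,[z1]),(z1,[z0,z0,z0,z1]),(z1,[z0,z1]),(z1,[y1,y1,y1,y1,z2]),(z1,[z0,z0,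
    z1])])))))))),
    .i (.h (.n (.q (.old [([z0,z0,z0,z0,z0,z3,z0],z2),([z0,z3,z0,z0,z0,z0,z0],z1),([z1,z0,z1,z0,z0,z0,z0],z2)]
    (.z (.x (.old (.leafM k4 [k4,k5,k6,k1,k3] [(z1,[z1]),(z1,[z0,z1])] [(k0,k2,z1,[z0,z0,z1]),(k2,k0,z1,[z0,z0,
    z1])])))))))),
    .i (.h (.n (.q (.old [([z0,z3,z0,z0,z0,z0,z0],z2),([z0,z0,z0,z0,z3,z0,z0],z1),([z1,z0,z1,z0,z0,z0,z0],z2)]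
    (.z (.x (.old (.leafM k4 [k6,k1,k3,k4,k5] [(z1,[z1]),(z1,[z0,z1])] [(k0,k2,z1,[z0,z0,z1]),(k2,k0,z1,[z0,z0,
    z1])])))))))),
    .i (.h (.n (.q (.old [([z0,z0,z0,z0,z0,z2,z0],z1),([z0,z2,z0,z0,z0,z0,z0],z1),([z1,z0,z1,z0,z0,z0,z0],z2)]
    (.z (.x (.old (.leafM k5 [k4,k5,k6,k1,k3] [(z1,[z1]),(z1,[z0,z1])] [(k0,k2,z1,[z0,z0,z1]),(k2,k0,z1,[z0,z0,
    z1])])))))))),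
    .i (.h (.n (.q (.old [([z0,z0,z0,z1,z0,z0,z1],z2),([z1,z0,z1,z0,z0,z0,z0],z2),([z0,z0,z1,z0,z1,z2,z0],z2)]
    (.z (.x (.old (.tor k88 false k0 [(z1,[z1]),(z1,[z0,z0,z1]),(z1,[z0,z1]),(z1,[y2,y1,y1,z2])])))))))),
    .i (.h (.n (.q (.old [([z0,z0,z0,z1,z0,z1,z0],z2),([z1,z2,z0,z0,z0,z0,z0],z2),([z0,z0,z1,z0,z2,z0,z1],z2)]
    (.z (.x (.old (.tor k89 false k0 [(z1,[z1]),(z1,[z0,z0,z1]),(z1,[y2,y1,y1,z2]),(z1,[z0,z1])])))))))),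
    .i (.h (.n (.q (.old [([z0,z0,z0,z1,z0,z1,z0],z1),([z1,z1,z0,z0,z0,z0,z0],z2)]
    (.z (.x (.old (.leafM k2 [k2,k3,k4,k5,k6] [(z1,[z1])] [(k0,k1,z1,[z0,z1]),(k1,k0,z1,[z0,z1])])))))))),
    .i (.h (.n (.q (.old [([z0,z1,z1,z0,z0,z0,z0],z1),([z1,z0,z0,z1,z0,z0,z0],z2)]
    (.z (.x (.old (.leafM k1 [k6,k1,k2,k4,k5] [(z1,[z1])] [(k0,k3,z1,[z0,z1]),(k3,k0,z1,[z0,z1])])))))))),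
    .i (.h (.n (.q (.old [([z1,z0,z0,z1,z0,z0,z0],z2),([z0,z1,z1,z0,z0,z0,z0],z2)]
    (.z (.x (.old (.leafM k0 [k4,k5,k6] [] [(k0,k3,z1,[z1]),(k1,k2,z1,[z0,z1]),(k2,k1,z1,[z0,z1]),(k3,k0,z1,
    [z1])])))))))),
    .i (.h (.n (.q (.old [([z1,z1,z0,z0,z0,z0,z0],z2),([z0,z0,z0,z1,z0,z1,z0],z2)]
    (.z (.x (.old (.leafM k1 [k6,k2,k4] [] [(k0,k1,z1,[z1]),(k1,k0,z1,[z1]),(k3,k5,z1,[z0,z1]),(k5,k3,z1,[z0,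
    z1])]))))))))]

/-- other nodes -/
noncomputable def cD7k_0_q : List (QJ PN) :=
  cD7k_0_q0 ++ (cD7k_0_q1 ++ (cD7k_0_q2 ++ (cD7k_0_q3 ++ (cD7k_0_q4 ++ (cD7k_0_q5 ++ cD7k_0_q6)))))

/-- the check of a node -/
noncomputable def cD7k_0_c : ℕ → QJ PN → Bool :=
  chkJ (ckP 7 ttD7k cD7k_0_w cD7k_0_s) 7 cD7k_0_w 1 cD7k_0_s cD7k_0_t (bl3 [] cD7k_0_D)

end Pool.Agent.Lib_MP_fa6e45
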