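import Pool.Agent.Lib_MP_fa6e45.DQA
import Pool.Agent.Lib_MP_fa6e45.DQ7k_0b
import Pool.Agent.Lib_MP_fa6e45.DQ7k_0_0
import Pool.Agent.Lib_MP_fa6e45.DQ7k_0_1
import Pool.Agent.Lib_MP_fa6e45.DQ7k_0_2
import Pool.Agent.Lib_MP_fa6e45.DQ7k_0_3
import Pool.Agent.Lib_MP_fa6e45.DQ7k_0_4
import Pool.Agent.Lib_MP_fa6e45.DQ7k_0_5
import Pool.Agent.Lib_MP_fa6e45.DQ7k_0_6
import Pool.Agent.Lib_MP_fa6e45.DQ7k_0_7
import Pool.Agent.Lib_MP_fa6e45.DQ7k_0_8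
import Pool.Agent.Lib_MP_fa6e45.DQ7k_0_9
import Pool.Agent.Lib_MP_fa6e45.DQ7k_0_10
import Pool.Agent.Lib_MP_fa6e45.DQ7k_0_11
import Pool.Agent.Lib_MP_fa6e45.DQ7k_0_12
import Pool.Agent.Lib_MP_fa6e45.DQ7k_0_13
import Pool.Agent.Lib_MP_fa6e45.DQ7k_0_14
import Pool.Agent.Lib_MP_fa6e45.DQ7k_0_15
import Pool.Agent.Lib_MP_fa6e45.DQ7k_0_16
import Pool.Agent.Lib_MP_fa6e45.DQ7k_0_17
import Pool.Agent.Lib_MP_fa6e45.DQ7k_0_18
import Pool.Agent.Lib_MP_fa6e45.DQ7k_0_19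
import Pool.Agent.Lib_MP_fa6e45.DQ7k_0_20
import Pool.Agent.Lib_MP_fa6e45.DQ7k_0_21
import Pool.Agent.Lib_MP_fa6e45.DQ7k_0_22
import Pool.Agent.Lib_MP_fa6e45.DQ7k_0_23
import Pool.Agent.Lib_MP_fa6e45.DQ7k_0_24
import Pool.Agent.Lib_MP_fa6e45.DQ7k_0_25
import Pool.Agent.Lib_MP_fa6e45.DQ7k_0_26
import Pool.Agent.Lib_MP_fa6e45.DQ7k_0_27
import Pool.Agent.Lib_MP_fa6e45.DQ7k_0_28
import Pool.Agent.Lib_MP_fa6e45.DQ7k_0_29

/-!
MP_fa6e45_co, stage 9: straight-side patterns with `7` sides, a large certificate (generated by a program).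
-/

namespace Pool.Agent.Lib_MP_fa6e45

/-- nodes -/
noncomputable def cD7k_0_n : List (QJ PN) :=
  cD7k_0_n0 ++ (cD7k_0_n1 ++ (cD7k_0_n2 ++ (cD7k_0_n3 ++ (cD7k_0_n4 ++ (cD7k_0_n5 ++ (cD7k_0_n6 ++ (
    cD7k_0_n7 ++ (cD7k_0_n8 ++ (cD7k_0_n9 ++ (cD7k_0_n10 ++ (cD7k_0_n11 ++ (cD7k_0_n12 ++ (
    cD7k_0_n13 ++ (cD7k_0_n14 ++ (cD7k_0_n15 ++ (cD7k_0_n16 ++ (cD7k_0_n17 ++ (cD7k_0_n18 ++ (
    cD7k_0_n19 ++ (cD7k_0_n20 ++ (cD7k_0_n21 ++ (cD7k_0_n22 ++ (cD7k_0_n23 ++ (cD7k_0_n24 ++ (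
    cD7k_0_n25 ++ (cD7k_0_n26 ++ (cD7k_0_n27 ++ (cD7k_0_n28 ++
    cD7k_0_n29))))))))))))))))))))))))))))

theorem cD7k_0_ok : allI cD7k_0_c cD7k_0_n 0 = true := by
  refine allI_appQ (k := 1464) cD7k_0_k0 (by decide +kernel) ?_
  refine allI_appQ (k := 1738) cD7k_0_k1 (by decide +kernel) ?_
  refine allI_appQ (k := 634) cD7k_0_k2 (by decide +kernel) ?_
  refine allI_appQ (k := 493) cD7k_0_k3 (by decide +kernel) ?_
  refine allI_appQ (k := 539) cD7k_0_k4 (by decide +kernel) ?_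
  refine allI_appQ (k := 559) cD7k_0_k5 (by decide +kernel) ?_
  refine allI_appQ (k := 544) cD7k_0_k6 (by decide +kernel) ?_
  refine allI_appQ (k := 83) cD7k_0_k7 (by decide +kernel) ?_
  refine allI_appQ (k := 89) cD7k_0_k8 (by decide +kernel) ?_
  refine allI_appQ (k := 84) cD7k_0_k9 (by decide +kernel) ?_
  refine allI_appQ (k := 85) cD7k_0_k10 (by decide +kernel) ?_
  refine allI_appQ (k := 87) cD7k_0_k11 (by decide +kernel) ?_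
  refine allI_appQ (k := 80) cD7k_0_k12 (by decide +kernel) ?_
  refine allI_appQ (k := 80) cD7k_0_k13 (by decide +kernel) ?_
  refine allI_appQ (k := 85) cD7k_0_k14 (by decide +kernel) ?_
  refine allI_appQ (k := 76) cD7k_0_k15 (by decide +kernel) ?_
  refine allI_appQ (k := 82) cD7k_0_k16 (by decide +kernel) ?_
  refine allI_appQ (k := 85) cD7k_0_k17 (by decide +kernel) ?_
  refine allI_appQ (k := 80) cD7k_0_k18 (by decide +kernel) ?_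
  refine allI_appQ (k := 37) cD7k_0_k19 (by decide +kernel) ?_
  refine allI_appQ (k := 62) cD7k_0_k20 (by decide +kernel) ?_
  refine allI_appQ (k := 89) cD7k_0_k21 (by decide +kernel) ?_
  refine allI_appQ (k := 59) cD7k_0_k22 (by decide +kernel) ?_
  refine allI_appQ (k := 105) cD7k_0_k23 (by decide +kernel) ?_
  refine allI_appQ (k := 71) cD7k_0_k24 (by decide +kernel) ?_
  refine allI_appQ (k := 73) cD7k_0_k25 (by decide +kernel) ?_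
  refine allI_appQ (k := 93) cD7k_0_k26 (by decide +kernel) ?_
  refine allI_appQ (k := 101) cD7k_0_k27 (by decide +kernel) ?_
  refine allI_appQ (k := 122) cD7k_0_k28 (by decide +kernel) ?_
  exact cD7k_0_k29

theorem cD7k_0_len : cD7k_0_n.length = 7912 := by
  unfold cD7k_0_n
  simp only [List.length_append, cD7k_0_l0, cD7k_0_l1, cD7k_0_l2, cD7k_0_l3, cD7k_0_l4, cD7k_0_l5, cD7k_0_l6, cD7k_0_l7, cD7k_0_l8, cD7k_0_l9,
        cD7k_0_l10, cD7k_0_l11, cD7k_0_l12, cD7k_0_l13, cD7k_0_l14, cD7k_0_l15, cD7k_0_l16, cD7k_0_l17, cD7k_0_l18,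
        cD7k_0_l19, cD7k_0_l20, cD7k_0_l21, cD7k_0_l22, cD7k_0_l23, cD7k_0_l24, cD7k_0_l25, cD7k_0_l26, cD7k_0_l27,
        cD7k_0_l28, cD7k_0_l29]

theorem cD7k_0 : NodeU 7 cD7k_0_w [] :=
  nodeJ_parts (C := 1) (sy := cD7k_0_s) (st := cD7k_0_t) (D := cD7k_0_D) (Ns := cD7k_0_n) (by norm_num) (by norm_num)
    ttD7k_ok cD7k_0_gw cD7k_0_pr cD7k_0_mk cD7k_0_bd cD7k_0_len cD7k_0_ls cD7k_0_ok

theorem sD7k_J : Solved 7 [cD7k_0_w] :=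
  Solved.cons cD7k_0 Solved.nil

end Pool.Agent.Lib_MP_fa6e45
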