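import Pool.Agent.Lib_MP_fa6e45.CT5

/-!
MP_fa6e45_co, stage 9: straight-side patterns with `7` sides, tables of tori (generated by a program).
-/

namespace Pool.Agent.Lib_MP_fa6e45

/-- the torus -/
def ttd7r_110 : TT where
  k := 4
  rf := [false, false, false, false]
  tau := [7, 16, 11, 10, 9, 22, 24, 0, 23, 4, 3, 2, 15, 17, 18, 12, 1, 13, 14, 26, 27, 25, 5, 8, 6, 21, 19, 20]
  par := [0, 0, 1, 5]
  stars := [[0, 24, 8], [1, 7, 17], [2, 16, 12], [3, 11], [4, 10], [5, 9, 23], [6, 22, 25], [13, 15, 18], [14, 27,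
    19], [20, 26, 21]]
  word := [[], [], [1], [1], [1], [], [3, 0, 2], [], [0], [0], [0], [0], [0], [], [1], [1], [], [], [0], [0, 2], [2],
    [3, 0, 2], [], [1], [3, 1, 2], [3, 1, 2], [3, 1], [3]]
  rank := [0, 0, 1, 2, 3, 0, 5, 0, 4, 3, 2, 1, 0, 1, 2, 0, 0, 1, 2, 3, 0, 4, 0, 4, 5, 4, 3, 0]
  just := [0, 0, 2, 3, 4, 0, 6, 0, 5, 4, 3, 2, 0, 1, 7, 0, 0, 1, 7, 8, 0, 9, 0, 5, 6, 9, 8, 0]
  gA := 12
  gB := 20
  fin := 0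
  sid := [0, 1, 2, 3, 4, 5, 6, 1, 0, 5, 4, 3, 2, 7, 8, 7, 2, 1, 7, 8, 9, 9, 6, 5, 0, 6, 9, 8]
  off := [(0, 0), (0, 0), (0, 0), (0, 0), (0, 0), (0, 0), (0, 0), (0, 0), (0, 0), (1, 0), (1, 0), (1, 0), (1, 0), (0,
    0), (0, 0), (-1, 0), (0, 0), (0, 0), (0, 0), (1, 0), (0, 0), (0, -1), (0, 0), (0, 0), (-1, 0), (-1, 0), (-1, -1),
    (0, -1)]

/-- glued arcs and equations -/
def tord7r_110 : TorT :=
  ⟨[(0, 0, true), (0, 4, true), (1, 2, true), (1, 5, true), (2, 4, true), (3, 3, true), (3, 6, true), (5, 5, true),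
    (6, 6, true)],
    [([0, 0, 0, 1, 1, 0, 0], 2), ([0, 0, 2, 0, 0, 1, 0], 2), ([0, 1, 0, 0, 1, 0, 1], 2), ([1, 0, 0, 0, 0, 1, 1], 2),
    ([1, 1, 0, 1, 0, 0, 0], 2)]⟩

theorem tord7r_110_ok : tord7r_110.OK 7 := TT.leaf_ok (T := ttd7r_110) (by decide +kernel)

/-- the torus -/
def ttd7r_111 : TT where
  k := 8
  rf := [false, false, true, true, true, false, false, true]
  tau := [8, 19, 25, 34, 28, 15, 38, 18, 0, 37, 48, 51, 40, 17, 29, 5, 39, 13, 7, 1, 24, 46, 49, 30, 20, 2, 33, 45,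
    4, 14, 23, 55, 44, 26, 3, 53, 42, 9, 6, 16, 12, 52, 36, 54, 32, 27, 21, 50, 10, 22, 47, 11, 41, 35, 43, 31]
  par := [0, 0, 1, 2, 3, 6, 10, 11]
  stars := [[0, 38, 9], [1, 8, 19], [2, 20, 25], [3, 26, 34], [4, 28], [5, 29, 15], [6, 16, 39], [7, 18], [10, 37,
    42], [11, 48, 51], [12, 52, 41], [13, 40, 17], [14, 30, 24], [21, 46], [22, 50, 47], [23, 31, 49], [27, 45, 33],
    [32, 44, 55], [35, 53], [36, 54, 43]]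
  word := [[], [], [], [], [], [0], [], [], [], [3, 0, 2, 1], [], [], [1], [], [1], [1], [1], [], [], [], [], [2],
    [2], [1], [], [], [], [2], [], [0], [0], [0, 2], [2], [], [], [0], [0, 3, 1, 2], [0, 3, 1, 2], [], [0], [0], [0],
    [3, 0, 2, 1], [3, 0, 2], [3], [3], [3], [], [], [3], [], [], [1], [1], [3, 1, 2], [3, 1]]
  rank := [0, 0, 0, 0, 1, 0, 0, 1, 0, 7, 0, 0, 3, 2, 2, 0, 1, 2, 1, 0, 1, 0, 2, 3, 1, 0, 1, 1, 1, 2, 3, 4, 2, 1, 0,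
    5, 6, 7, 0, 1, 3, 4, 6, 5, 2, 1, 0, 1, 0, 2, 1, 0, 4, 5, 5, 4]
  just := [0, 0, 0, 0, 4, 0, 0, 1, 0, 8, 0, 0, 11, 7, 5, 0, 6, 7, 1, 0, 2, 0, 14, 12, 2, 0, 3, 13, 4, 5, 12, 15, 16,
    3, 0, 18, 19, 8, 0, 6, 11, 10, 19, 17, 16, 13, 0, 9, 0, 14, 9, 0, 10, 18, 17, 15]
  gA := 5
  gB := 21
  fin := 0
  sid := [0, 1, 2, 3, 4, 5, 6, 7, 1, 0, 8, 9, 10, 11, 12, 5, 6, 11, 7, 1, 2, 13, 14, 15, 12, 2, 3, 16, 4, 5, 12, 15,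
    17, 16, 3, 18, 19, 8, 0, 6, 11, 10, 8, 19, 17, 16, 13, 14, 9, 15, 14, 9, 10, 18, 19, 17]
  off := [(0, 0), (0, 0), (0, 0), (0, 0), (0, 0), (0, 0), (0, 0), (0, 0), (0, 0), (0, 0), (0, 0), (0, 0), (0, 0), (0,
    0), (0, 0), (-1, 0), (-1, 0), (0, 0), (0, 0), (0, 0), (0, 0), (0, 0), (0, 0), (0, 0), (0, 0), (0, 0), (0, 0), (0,
    0), (0, 0), (0, 0), (1, 0), (1, 0), (0, 0), (0, 0), (0, 0), (0, 0), (0, 0), (0, 0), (0, 0), (0, 0), (1, 0), (1,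
    0), (0, 0), (0, 0), (0, -1), (0, -1), (0, -1), (0, -1), (0, 0), (0, -1), (0, -1), (0, 0), (0, 0), (-1, 0), (-1,
    0), (-1, -1)]

/-- glued arcs and equations -/
def tord7r_111 : TorT :=
  ⟨[(0, 1, true), (0, 4, false), (1, 5, false), (2, 2, true), (2, 4, false), (3, 6, false), (3, 6, true), (5, 5,
    true)],
    [([0, 0, 0, 1, 0, 1, 1], 2), ([0, 0, 1, 0, 1, 0, 1], 2), ([0, 2, 0, 0, 0, 1, 0], 2), ([1, 0, 0, 0, 1, 0, 0], 2),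
    ([1, 0, 1, 1, 0, 0, 0], 2)]⟩

theorem tord7r_111_ok : tord7r_111.OK 7 := TT.leaf_ok (T := ttd7r_111) (by decide +kernel)

/-- the torus -/
def ttd7r_112 : TT where
  k := 8
  rf := [false, false, false, false, true, true, true, true]
  tau := [7, 14, 9, 27, 26, 30, 31, 0, 21, 2, 20, 19, 37, 38, 1, 39, 47, 48, 36, 11, 10, 8, 32, 54, 55, 29, 4, 3, 43,
    25, 5, 6, 22, 53, 52, 50, 18, 12, 13, 15, 46, 45, 49, 28, 51, 41, 40, 16, 17, 42, 35, 44, 34, 33, 23, 24]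
  par := [0, 0, 1, 3, 5, 12, 16, 23]
  stars := [[0, 32, 22, 8], [1, 7, 39, 15], [2, 14, 10], [3, 9, 21], [4, 27], [5, 26, 30], [6, 31], [11, 20], [12,
    19, 37], [13, 38], [16, 40, 47], [17, 48], [18, 42, 50, 36], [23, 33, 54], [24, 55], [25, 49, 43, 29], [28, 44,
    52], [34, 53], [35, 51, 45], [41, 46]]
  word := [[], [], [2, 1], [], [], [], [], [], [0, 3], [0, 3], [0, 3], [0, 3], [], [], [], [], [], [], [2, 1], [2,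
    1], [2, 1], [2, 1], [1, 2], [], [], [], [], [], [3], [], [], [], [3, 0], [3, 0], [3, 0], [0], [0, 3], [], [], [],
    [], [], [2], [2], [0], [], [], [], [], [3], [1], [1], [1, 2], [1, 2], [], []]
  rank := [0, 0, 5, 0, 1, 0, 1, 0, 6, 5, 4, 3, 0, 1, 0, 2, 0, 1, 2, 3, 4, 6, 8, 0, 1, 2, 1, 0, 3, 2, 0, 1, 8, 7, 6,
    0, 2, 0, 1, 2, 3, 4, 0, 3, 5, 4, 3, 0, 1, 0, 0, 5, 6, 7, 0, 1]
  just := [0, 0, 2, 0, 4, 0, 6, 0, 3, 2, 7, 8, 0, 9, 0, 1, 0, 11, 12, 8, 7, 3, 13, 0, 14, 5, 4, 0, 15, 5, 0, 6, 13,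
    17, 16, 0, 12, 0, 9, 1, 10, 19, 0, 15, 18, 19, 10, 0, 11, 0, 0, 18, 16, 17, 0, 14]
  gA := 35
  gB := 42
  fin := 0
  sid := [0, 1, 2, 3, 4, 5, 6, 1, 0, 3, 2, 7, 8, 9, 2, 1, 10, 11, 12, 8, 7, 3, 0, 13, 14, 15, 5, 4, 16, 15, 5, 6, 0,
    13, 17, 18, 12, 8, 9, 1, 10, 19, 12, 15, 16, 18, 19, 10, 11, 15, 12, 18, 16, 17, 13, 14]
  off := [(0, 0), (0, 0), (0, 0), (0, 0), (0, 0), (0, 0), (0, 0), (0, 0), (0, 0), (1, -1), (1, -1), (0, 0), (0, 0),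
    (0, 0), (0, 0), (0, 0), (0, 0), (0, 0), (0, 0), (-1, 1), (-1, 1), (0, 0), (-1, 1), (0, 0), (0, 0), (0, 0), (0,
    0), (0, 0), (0, 0), (0, 0), (0, 0), (0, 0), (0, 0), (1, -1), (0, 0), (0, 0), (1, -1), (0, 0), (0, 0), (0, 0), (0,
    0), (0, 0), (0, 0), (0, 1), (0, 1), (0, 0), (0, 0), (0, 0), (0, 0), (0, 0), (0, -1), (-1, 0), (-1, 1), (-1, 1),
    (0, 0), (0, 0)]

/-- glued arcs and equations -/
def tord7r_112 : TorT :=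
  ⟨[(0, 0, true), (0, 1, true), (1, 4, false), (2, 2, true), (2, 5, false), (3, 6, false), (3, 6, true), (4, 5,
    true)],
    [([0, 0, 0, 0, 1, 0, 1], 2), ([0, 0, 0, 1, 0, 0, 1], 2), ([0, 0, 1, 0, 0, 2, 0], 2), ([1, 0, 1, 1, 0, 0, 0], 2),
    ([1, 2, 0, 0, 1, 0, 0], 2)]⟩

theorem tord7r_112_ok : tord7r_112.OK 7 := TT.leaf_ok (T := ttd7r_112) (by decide +kernel)

/-- the torus -/
def ttd7r_113 : TT where
  k := 4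
  rf := [false, false, false, false]
  tau := [9, 8, 7, 10, 16, 15, 17, 2, 1, 0, 3, 23, 22, 24, 26, 5, 4, 6, 25, 21, 27, 19, 12, 11, 13, 18, 14, 20]
  par := [0, 0, 4, 11]
  stars := [[0, 17, 4, 10], [1, 9], [2, 8], [3, 7, 24, 11], [5, 16], [6, 15, 26, 18], [12, 23], [13, 22, 19, 25],
    [14, 27], [20, 21]]
  word := [[], [], [], [3, 0], [], [], [2, 1], [], [], [], [1, 2], [], [], [3, 0], [2], [], [], [0, 3], [0], [2],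
    [2], [3], [], [], [1, 2], [1], [3], [3]]
  rank := [0, 1, 2, 3, 0, 1, 2, 2, 1, 0, 3, 0, 1, 2, 1, 1, 0, 2, 0, 1, 0, 1, 1, 0, 2, 0, 1, 0]
  just := [0, 1, 2, 3, 0, 4, 5, 2, 1, 0, 3, 0, 6, 7, 8, 4, 0, 5, 0, 9, 0, 9, 6, 0, 7, 0, 8, 0]
  gA := 18
  gB := 20
  fin := 0
  sid := [0, 1, 2, 3, 0, 4, 5, 3, 2, 1, 0, 3, 6, 7, 8, 5, 4, 0, 5, 7, 9, 9, 7, 6, 3, 7, 5, 8]
  off := [(0, 0), (0, 0), (0, 0), (0, 0), (1, -1), (0, 0), (0, 0), (0, 0), (0, 0), (0, 0), (0, 0), (-1, 1), (0, 0),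
    (0, 0), (0, 0), (0, 0), (0, 0), (1, -1), (1, -1), (0, 1), (0, 0), (0, -1), (0, 0), (0, 0), (-1, 1), (-1, 1), (0,
    -1), (0, -1)]

/-- glued arcs and equations -/
def tord7r_113 : TorT :=
  ⟨[(0, 2, true), (0, 5, true), (1, 1, true), (1, 5, true), (2, 4, true), (3, 3, true), (3, 6, true), (4, 4, true),
    (6, 6, true)],
    [([0, 0, 1, 0, 0, 1, 0], 2), ([0, 1, 0, 0, 1, 1, 1], 2), ([0, 1, 1, 0, 0, 0, 0], 2), ([1, 0, 0, 0, 0, 0, 1], 2),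
    ([1, 0, 0, 2, 1, 0, 0], 2)]⟩

theorem tord7r_113_ok : tord7r_113.OK 7 := TT.leaf_ok (T := ttd7r_113) (by decide +kernel)

/-- the torus -/
def ttd7r_114 : TT where
  k := 4
  rf := [false, false, false, false]
  tau := [7, 14, 9, 27, 26, 15, 13, 0, 21, 2, 20, 19, 22, 6, 1, 5, 25, 24, 23, 11, 10, 8, 12, 18, 17, 16, 4, 3]
  par := [0, 0, 1, 3]
  stars := [[0, 13, 22, 8], [1, 7, 6, 15], [2, 14, 10], [3, 9, 21], [4, 27], [5, 26, 16], [11, 20], [12, 19, 23],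
    [17, 25], [18, 24]]
  word := [[], [], [1], [], [], [3], [3], [], [0], [0], [0], [0], [0, 2], [2], [], [2], [2], [2], [2], [1], [1], [1],
    [3, 1], [3], [3], [3], [], []]
  rank := [0, 0, 1, 0, 1, 2, 3, 0, 2, 1, 0, 1, 2, 3, 0, 2, 1, 0, 1, 1, 0, 2, 2, 1, 0, 1, 1, 0]
  just := [0, 0, 2, 0, 4, 5, 1, 0, 3, 2, 0, 6, 7, 1, 0, 5, 8, 0, 9, 6, 0, 3, 7, 9, 0, 8, 4, 0]
  gA := 10
  gB := 17
  fin := 0
  sid := [0, 1, 2, 3, 4, 5, 1, 1, 0, 3, 2, 6, 7, 0, 2, 1, 5, 8, 9, 7, 6, 3, 0, 7, 9, 8, 5, 4]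
  off := [(0, 0), (0, 0), (0, 0), (0, 0), (0, 0), (0, 0), (0, -1), (0, 0), (0, 0), (1, 0), (1, 0), (0, 0), (0, 0),
    (0, 1), (0, 0), (0, 0), (0, 1), (0, 0), (0, 0), (-1, 0), (-1, 0), (0, 0), (-1, 0), (-1, -1), (0, -1), (0, -1),
    (0, 0), (0, 0)]

/-- glued arcs and equations -/
def tord7r_114 : TorT :=
  ⟨[(0, 0, true), (0, 1, true), (1, 5, true), (2, 2, true), (2, 4, true), (3, 3, true), (3, 6, true), (4, 5, true),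
    (6, 6, true)],
    [([0, 0, 0, 0, 1, 0, 1], 2), ([0, 0, 0, 1, 1, 0, 0], 2), ([0, 0, 1, 0, 0, 2, 0], 2), ([1, 0, 1, 1, 0, 0, 0], 2),
    ([1, 2, 0, 0, 0, 0, 1], 2)]⟩

theorem tord7r_114_ok : tord7r_114.OK 7 := TT.leaf_ok (T := ttd7r_114) (by decide +kernel)

/-- the torus -/
def ttd7r_115 : TT where
  k := 4
  rf := [false, false, false, false]
  tau := [7, 5, 18, 20, 19, 1, 13, 0, 12, 25, 27, 26, 8, 6, 23, 22, 21, 24, 2, 4, 3, 16, 15, 14, 17, 9, 11, 10]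
  par := [0, 0, 2, 9]
  stars := [[0, 13, 8], [1, 7, 6], [2, 5, 19], [3, 18, 24, 14], [4, 20], [9, 12, 26], [10, 25, 17, 21], [11, 27],
    [15, 23], [16, 22]]
  word := [[], [0, 3], [], [2, 1], [2, 1], [2, 1], [2, 1], [], [1, 2], [], [3, 0], [3, 0], [3, 0], [0, 3], [0], [0],
    [0], [2], [], [0, 3], [0, 3], [1], [1], [1], [3], [], [1, 2], [1, 2]]
  rank := [0, 4, 0, 2, 3, 4, 5, 0, 4, 0, 2, 3, 4, 5, 1, 0, 1, 0, 0, 3, 2, 1, 0, 1, 0, 0, 3, 2]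
  just := [0, 2, 0, 3, 4, 2, 1, 0, 5, 0, 6, 7, 5, 1, 8, 0, 9, 0, 0, 4, 3, 9, 0, 8, 0, 0, 7, 6]
  gA := 15
  gB := 17
  fin := 0
  sid := [0, 1, 2, 3, 4, 2, 1, 1, 0, 5, 6, 7, 5, 0, 3, 8, 9, 6, 3, 2, 4, 6, 9, 8, 3, 6, 5, 7]
  off := [(0, 0), (0, 0), (0, 0), (0, 0), (0, 0), (-1, 1), (-1, 1), (0, 0), (0, 0), (0, 0), (0, 0), (0, 0), (1, -1),
    (1, -1), (1, -1), (0, 0), (0, 0), (0, 1), (0, 0), (0, 0), (1, -1), (-1, 1), (-1, 0), (-1, 0), (0, -1), (0, 0),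
    (0, 0), (-1, 1)]

/-- glued arcs and equations -/
def tord7r_115 : TorT :=
  ⟨[(0, 0, true), (0, 2, true), (1, 1, true), (1, 5, true), (2, 4, true), (3, 3, true), (3, 6, true), (4, 5, true),
    (6, 6, true)],
    [([0, 0, 0, 0, 1, 0, 1], 2), ([0, 0, 1, 0, 0, 2, 0], 2), ([0, 1, 1, 0, 0, 0, 0], 2), ([1, 0, 0, 2, 1, 0, 0], 2),
    ([1, 1, 0, 0, 0, 0, 1], 2)]⟩

theorem tord7r_115_ok : tord7r_115.OK 7 := TT.leaf_ok (T := ttd7r_115) (by decide +kernel)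

/-- the torus -/
def ttd7r_116 : TT where
  k := 8
  rf := [false, false, false, true, true, false, true, true]
  tau := [9, 8, 7, 20, 19, 22, 31, 2, 1, 0, 41, 40, 29, 24, 25, 47, 37, 55, 21, 4, 3, 18, 5, 30, 13, 14, 46, 45, 39,
    12, 23, 6, 35, 53, 52, 32, 54, 16, 48, 28, 11, 10, 51, 50, 49, 27, 26, 15, 38, 44, 43, 42, 34, 33, 36, 17]
  par := [0, 0, 3, 5, 6, 10, 15, 17]
  stars := [[0, 32, 35, 10], [1, 9], [2, 8], [3, 7, 25, 14], [4, 20], [5, 19, 22], [6, 23, 31], [11, 41], [12, 40,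
    29], [13, 30, 24], [15, 26, 47], [16, 48, 38], [17, 37, 55], [18, 49, 45, 21], [27, 46], [28, 39, 42, 52], [33,
    54, 36], [34, 53], [43, 51], [44, 50]]
  word := [[], [], [], [], [], [], [], [], [], [], [], [], [1], [1], [1], [], [3], [], [], [], [], [], [], [], [0],
    [0], [0], [0], [0], [0], [], [], [0, 2, 1, 3], [0, 2, 1], [0, 2, 1], [2, 0, 3, 1], [2], [2], [2], [1], [], [],
    [1], [1], [1], [1], [1], [], [3], [0], [0], [0], [0, 3, 1], [0, 3, 1], [3], []]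
  rank := [0, 1, 2, 0, 1, 0, 0, 2, 1, 0, 0, 1, 4, 3, 1, 0, 1, 0, 2, 1, 0, 2, 0, 1, 3, 1, 0, 1, 5, 4, 1, 0, 8, 7, 6,
    8, 2, 1, 0, 5, 1, 0, 5, 4, 3, 1, 0, 0, 0, 3, 4, 5, 6, 7, 2, 0]
  just := [0, 1, 2, 0, 4, 0, 0, 2, 1, 0, 0, 7, 9, 3, 10, 0, 11, 0, 5, 4, 0, 5, 0, 6, 3, 10, 0, 14, 8, 9, 6, 0, 16,
    17, 15, 16, 12, 11, 0, 8, 7, 0, 18, 19, 13, 14, 0, 0, 0, 13, 19, 18, 15, 17, 12, 0]
  gA := 26
  gB := 38
  fin := 0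
  sid := [0, 1, 2, 3, 4, 5, 6, 3, 2, 1, 0, 7, 8, 9, 3, 10, 11, 12, 13, 5, 4, 13, 5, 6, 9, 3, 10, 14, 15, 8, 9, 6, 0,
    16, 17, 0, 16, 12, 11, 15, 8, 7, 15, 18, 19, 13, 14, 10, 11, 13, 19, 18, 15, 17, 16, 12]
  off := [(0, 0), (0, 0), (0, 0), (0, 0), (0, 0), (0, 0), (0, 0), (0, 0), (0, 0), (0, 0), (0, 0), (0, 0), (0, 0), (0,
    0), (0, 0), (0, 0), (0, 0), (0, 0), (0, 0), (0, 0), (0, 0), (0, 0), (0, 0), (0, 0), (1, 0), (1, 0), (1, 0), (0,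
    0), (0, 0), (1, 0), (1, 0), (0, 0), (0, 0), (0, 0), (0, 0), (0, 0), (0, 0), (0, 1), (0, 1), (-1, 0), (0, 0), (0,
    0), (-1, -1), (0, 0), (0, 0), (-1, 0), (-1, 0), (0, 0), (0, 0), (0, 0), (1, 0), (1, 0), (0, -1), (0, -1), (0,
    -1), (0, 0)]

/-- glued arcs and equations -/
def tord7r_116 : TorT :=
  ⟨[(0, 2, true), (0, 4, false), (1, 1, true), (1, 5, false), (2, 2, true), (3, 6, false), (3, 6, true), (4, 5,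
    true)],
    [([0, 0, 0, 0, 1, 0, 1], 2), ([0, 0, 1, 1, 0, 0, 1], 2), ([0, 1, 0, 0, 0, 2, 0], 2), ([0, 1, 1, 0, 0, 0, 0], 2),
    ([2, 0, 0, 1, 1, 0, 0], 2)]⟩

theorem tord7r_116_ok : tord7r_116.OK 7 := TT.leaf_ok (T := ttd7r_116) (by decide +kernel)

/-- the torus -/
def ttd7r_117 : TT where
  k := 4
  rf := [false, false, false, false]
  tau := [9, 15, 22, 17, 7, 13, 10, 4, 16, 0, 6, 25, 26, 5, 23, 1, 8, 3, 21, 27, 24, 18, 2, 14, 20, 11, 12, 19]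
  par := [0, 0, 1, 2]
  stars := [[0, 10], [1, 9, 16], [2, 15, 23], [3, 22, 18], [4, 17, 8], [5, 7], [6, 13, 26, 11], [12, 25, 20, 27],
    [14, 24], [19, 21]]
  word := [[], [], [], [3], [3], [3], [3, 0, 2, 1], [2], [], [], [0, 3, 1, 2], [0, 3], [0], [2], [], [], [], [2],
    [2], [2], [], [3], [], [], [], [2, 1], [1], [3]]
  rank := [0, 0, 0, 1, 2, 3, 4, 2, 1, 0, 4, 3, 0, 3, 1, 0, 1, 1, 0, 1, 2, 0, 0, 1, 2, 3, 0, 1]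
  just := [0, 0, 0, 3, 4, 5, 6, 4, 1, 0, 6, 7, 0, 5, 2, 0, 1, 3, 0, 9, 8, 0, 0, 2, 8, 7, 0, 9]
  gA := 12
  gB := 18
  fin := 0
  sid := [0, 1, 2, 3, 4, 5, 6, 5, 4, 1, 0, 6, 7, 6, 8, 2, 1, 4, 3, 9, 7, 9, 3, 2, 8, 7, 6, 7]
  off := [(0, 0), (0, 0), (0, 0), (0, 0), (0, 0), (0, 0), (0, 0), (0, 1), (0, 1), (0, 0), (0, 0), (0, 0), (0, 0), (0,
    1), (0, 0), (0, 0), (0, 0), (0, 1), (0, 1), (0, 0), (-1, 1), (0, -1), (0, 0), (0, 0), (0, 0), (-1, 1), (-1, 1),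
    (-1, 0)]

/-- glued arcs and equations -/
def tord7r_117 : TorT :=
  ⟨[(0, 2, true), (0, 4, true), (1, 1, true), (1, 2, true), (3, 3, true), (3, 6, true), (4, 4, true), (5, 5, true),
    (5, 6, true)],
    [([0, 0, 0, 0, 1, 1, 2], 2), ([0, 1, 0, 1, 1, 0, 0], 2), ([0, 1, 2, 0, 0, 0, 0], 2), ([1, 0, 0, 0, 0, 1, 0], 2),
    ([1, 0, 0, 1, 0, 0, 0], 2)]⟩

theorem tord7r_117_ok : tord7r_117.OK 7 := TT.leaf_ok (T := ttd7r_117) (by decide +kernel)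

/-- the torus -/
def ttd7r_118 : TT where
  k := 8
  rf := [false, false, true, false, true, true, true, false]
  tau := [11, 14, 15, 24, 30, 26, 12, 36, 37, 46, 20, 0, 6, 17, 1, 2, 25, 13, 35, 41, 10, 53, 28, 29, 3, 16, 5, 54,
    22, 23, 4, 55, 42, 48, 52, 18, 7, 8, 45, 51, 47, 19, 32, 49, 50, 38, 9, 40, 33, 43, 44, 39, 34, 21, 27, 31]
  par := [0, 0, 1, 3, 4, 7, 9, 21]
  stars := [[0, 12], [1, 11, 14], [2, 15], [3, 16, 25], [4, 24, 30], [5, 31, 55, 27], [6, 26, 17, 13], [7, 18, 36],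
    [8, 37], [9, 38, 46], [10, 47, 41, 20], [19, 35], [21, 54], [22, 53, 28], [23, 29], [32, 43, 49], [33, 42], [34,
    52, 40, 48], [39, 51, 45], [44, 50]]
  word := [[], [], [], [], [], [1, 2, 0], [1, 2, 0, 3], [], [], [], [], [], [2, 1, 3, 0], [2], [], [], [], [3], [3],
    [3], [], [], [], [], [], [], [1, 3, 0], [], [], [], [], [1, 2, 0], [1, 2], [1, 2], [], [2], [], [], [], [0], [2],
    [2], [3, 0], [0], [0], [], [], [3], [3, 0], [1], [1], [1], [], [], [], [1, 3, 0]]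
  rank := [0, 0, 1, 0, 0, 7, 8, 0, 1, 0, 1, 0, 8, 4, 0, 1, 2, 4, 3, 2, 1, 0, 2, 1, 0, 2, 7, 1, 2, 1, 0, 6, 5, 4, 3,
    3, 0, 1, 2, 0, 0, 2, 5, 4, 3, 2, 0, 0, 4, 4, 3, 0, 3, 0, 1, 6]
  just := [0, 0, 2, 0, 0, 5, 6, 0, 8, 0, 1, 0, 6, 7, 0, 2, 3, 7, 11, 10, 1, 0, 14, 4, 0, 3, 5, 12, 14, 4, 0, 15, 16,
    17, 13, 11, 0, 8, 9, 0, 0, 10, 16, 19, 18, 9, 0, 0, 17, 19, 18, 0, 13, 0, 12, 15]
  gA := 39
  gB := 40
  fin := 0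
  sid := [0, 1, 2, 3, 4, 5, 6, 7, 8, 9, 10, 1, 0, 6, 1, 2, 3, 6, 7, 11, 10, 12, 13, 14, 4, 3, 6, 5, 13, 14, 4, 5, 15,
    16, 17, 11, 7, 8, 9, 18, 17, 10, 16, 15, 19, 18, 9, 10, 17, 15, 19, 18, 17, 13, 12, 5]
  off := [(0, 0), (0, 0), (0, 0), (0, 0), (0, 0), (0, 0), (0, 0), (0, 0), (0, 0), (0, 0), (0, 0), (0, 0), (0, 0), (0,
    0), (0, 0), (0, 0), (0, 0), (0, -1), (0, -1), (0, 0), (0, 0), (0, 0), (0, 0), (0, 0), (0, 0), (0, 0), (0, -1),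
    (0, -1), (0, 0), (0, 0), (0, 0), (0, 0), (0, 0), (0, 0), (0, 0), (0, 1), (0, 0), (0, 0), (0, 0), (0, 0), (1, 0),
    (0, 1), (1, -1), (1, -1), (0, 0), (0, 0), (0, 0), (0, 0), (1, -1), (0, -1), (-1, 0), (-1, 0), (0, 0), (0, 0), (0,
    0), (0, -1)]

/-- glued arcs and equations -/
def tord7r_118 : TorT :=
  ⟨[(0, 1, false), (0, 4, true), (1, 2, false), (2, 4, false), (3, 3, true), (3, 6, false), (5, 5, true), (5, 6,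
    true)],
    [([0, 0, 0, 1, 0, 1, 2], 2), ([0, 0, 1, 1, 1, 0, 0], 2), ([0, 1, 1, 0, 0, 0, 0], 2), ([1, 0, 0, 0, 0, 1, 0], 2),
    ([1, 1, 0, 0, 1, 0, 0], 2)]⟩

theorem tord7r_118_ok : tord7r_118.OK 7 := TT.leaf_ok (T := ttd7r_118) (by decide +kernel)

/-- the torus -/
def ttd7r_119 : TT where
  k := 4
  rf := [false, false, false, false]
  tau := [9, 8, 7, 19, 14, 20, 13, 2, 1, 0, 26, 21, 27, 6, 4, 18, 23, 24, 15, 3, 5, 11, 25, 16, 17, 22, 10, 12]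
  par := [0, 0, 3, 10]
  stars := [[0, 13, 27, 10], [1, 9], [2, 8], [3, 7, 6, 20], [4, 19, 15], [5, 14], [11, 26, 22], [12, 21], [16, 18,
    24], [17, 23, 25]]
  word := [[], [], [], [], [2, 1], [2, 1], [2, 1], [], [], [], [], [3, 0], [3, 0], [0, 3], [0, 3], [0, 3], [0], [2],
    [2, 1], [], [0, 3], [1, 2], [1, 2], [1], [3], [3, 0], [], [1, 2]]
  rank := [0, 1, 2, 0, 2, 3, 4, 2, 1, 0, 0, 2, 3, 4, 2, 1, 0, 0, 1, 0, 3, 2, 1, 0, 0, 1, 0, 3]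
  just := [0, 1, 2, 0, 4, 5, 3, 2, 1, 0, 0, 6, 7, 3, 4, 8, 0, 0, 8, 0, 5, 6, 9, 0, 0, 9, 0, 7]
  gA := 16
  gB := 17
  fin := 0
  sid := [0, 1, 2, 3, 4, 5, 3, 3, 2, 1, 0, 6, 7, 0, 5, 4, 8, 9, 8, 4, 3, 7, 6, 9, 8, 9, 6, 0]
  off := [(0, 0), (0, 0), (0, 0), (0, 0), (0, 0), (0, 0), (-1, 1), (0, 0), (0, 0), (0, 0), (0, 0), (0, 0), (0, 0),
    (1, -1), (1, -1), (1, -1), (0, 0), (0, 0), (-1, 1), (0, 0), (0, 0), (-1, 1), (-1, 1), (-1, 0), (-1, 0), (0, -1),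
    (0, 0), (0, 0)]

/-- glued arcs and equations -/
def tord7r_119 : TorT :=
  ⟨[(0, 2, true), (0, 4, true), (1, 1, true), (1, 4, true), (2, 2, true), (3, 3, true), (3, 5, true), (5, 6, true),
    (6, 6, true)],
    [([0, 0, 1, 1, 1, 0, 0], 2), ([0, 1, 0, 0, 1, 1, 0], 2), ([0, 1, 1, 0, 0, 0, 0], 2), ([1, 0, 0, 0, 0, 1, 0], 2),
    ([1, 0, 0, 1, 0, 0, 2], 2)]⟩

theorem tord7r_119_ok : tord7r_119.OK 7 := TT.leaf_ok (T := ttd7r_119) (by decide +kernel)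

/-- the torus -/
def ttd7r_120 : TT where
  k := 8
  rf := [false, false, true, false, true, true, true, false]
  tau := [11, 14, 15, 24, 30, 31, 12, 36, 37, 46, 47, 0, 6, 55, 1, 2, 25, 26, 35, 41, 34, 53, 28, 29, 3, 16, 17, 54,
    22, 23, 4, 5, 42, 48, 20, 18, 7, 8, 45, 51, 52, 19, 32, 49, 50, 38, 9, 10, 33, 43, 44, 39, 40, 21, 27, 13]
  par := [0, 0, 1, 3, 4, 7, 9, 13]
  stars := [[0, 12], [1, 11, 48, 34, 14], [2, 15], [3, 16, 25], [4, 24, 30], [5, 31], [6, 32, 43, 49, 13], [7, 55,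
    27, 18, 36], [8, 37], [9, 38, 46], [10, 47], [17, 26], [19, 35], [20, 28, 22, 53, 41], [21, 54], [23, 29], [33,
    42], [39, 51, 45], [40, 52], [44, 50]]
  word := [[], [], [], [], [], [], [0, 3, 1, 2], [], [], [], [], [], [3, 0, 2, 1], [], [], [], [], [], [0], [0], [0,
    2, 1], [0], [], [], [], [], [], [0], [], [], [], [], [0, 3, 1], [0, 3, 1], [0, 3, 1], [1], [], [], [], [2], [2],
    [1], [0, 2, 1], [2], [2], [], [], [], [0, 2, 1], [3], [3], [3], [3], [1], [1], []]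
  rank := [0, 0, 1, 0, 0, 1, 9, 0, 1, 0, 1, 0, 9, 0, 0, 1, 2, 3, 4, 5, 6, 1, 2, 1, 0, 2, 3, 0, 2, 1, 0, 1, 8, 7, 6,
    4, 0, 1, 2, 1, 0, 5, 8, 4, 3, 2, 0, 1, 7, 4, 3, 1, 0, 1, 0, 0]
  just := [0, 0, 2, 0, 0, 5, 6, 0, 8, 0, 10, 0, 6, 0, 0, 2, 3, 11, 7, 12, 13, 14, 15, 4, 0, 3, 11, 0, 15, 4, 0, 5,
    16, 1, 13, 7, 0, 8, 9, 18, 0, 12, 16, 19, 17, 9, 0, 10, 1, 19, 17, 18, 0, 14, 0, 0]
  gA := 27
  gB := 40
  fin := 0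
  sid := [0, 1, 2, 3, 4, 5, 6, 7, 8, 9, 10, 1, 0, 6, 1, 2, 3, 11, 7, 12, 13, 14, 13, 15, 4, 3, 11, 7, 13, 15, 4, 5,
    6, 16, 1, 12, 7, 8, 9, 17, 18, 13, 16, 6, 19, 17, 9, 10, 1, 6, 19, 17, 18, 13, 14, 7]
  off := [(0, 0), (0, 0), (0, 0), (0, 0), (0, 0), (0, 0), (0, 0), (0, 0), (0, 0), (0, 0), (0, 0), (0, 0), (0, 0), (0,
    0), (0, 0), (0, 0), (0, 0), (0, 0), (1, 0), (0, 0), (0, 0), (0, 0), (0, -1), (0, 0), (0, 0), (0, 0), (0, 0), (1,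
    0), (0, -1), (0, 0), (0, 0), (0, 0), (0, 0), (0, 0), (0, -1), (-1, 0), (0, 0), (0, 0), (0, 0), (0, 0), (0, 0),
    (-1, 0), (0, 1), (0, 1), (0, 0), (0, 0), (0, 0), (0, 0), (0, 0), (0, 0), (0, -1), (0, -1), (0, -1), (-1, -1),
    (-1, 0), (0, 0)]

/-- glued arcs and equations -/
def tord7r_120 : TorT :=
  ⟨[(0, 1, false), (0, 4, true), (1, 2, false), (2, 4, false), (3, 3, true), (3, 5, false), (5, 6, true), (6, 6,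
    true)],
    [([0, 0, 0, 1, 0, 1, 0], 2), ([0, 0, 1, 1, 1, 0, 0], 2), ([0, 1, 1, 0, 0, 0, 0], 2), ([1, 0, 0, 0, 0, 1, 0], 2),
    ([1, 1, 0, 0, 1, 0, 2], 2)]⟩

theorem tord7r_120_ok : tord7r_120.OK 7 := TT.leaf_ok (T := ttd7r_120) (by decide +kernel)

end Pool.Agent.Lib_MP_fa6e45
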