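import Pool.Agent.Lib_MP_fa6e45.CT5

/-!
MP_fa6e45_co, stage 9: straight-side patterns with `7` sides, tables of tori (generated by a program).
-/

namespace Pool.Agent.Lib_MP_fa6e45

/-- the torus -/
def ttd7r_121 : TT where
  k := 4
  rf := [false, false, false, false]
  tau := [9, 15, 22, 17, 7, 13, 20, 4, 16, 0, 26, 25, 24, 5, 23, 1, 8, 3, 21, 27, 6, 18, 2, 14, 12, 11, 10, 19]
  par := [0, 0, 1, 2]
  stars := [[0, 20, 27, 10], [1, 9, 16], [2, 15, 23], [3, 22, 18], [4, 17, 8], [5, 7], [6, 13, 24, 14], [11, 26],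
    [12, 25], [19, 21]]
  word := [[], [], [], [0], [0], [0], [0, 2], [1], [], [], [2], [2], [2], [1], [], [], [], [1], [1], [1], [3, 1],
    [0], [], [], [3], [3], [3], [0]]
  rank := [0, 0, 0, 0, 2, 3, 4, 2, 1, 0, 1, 0, 1, 3, 1, 0, 1, 0, 1, 2, 4, 1, 0, 1, 1, 0, 1, 2]
  just := [0, 0, 0, 0, 4, 5, 6, 4, 1, 0, 7, 0, 8, 5, 2, 0, 1, 0, 3, 9, 6, 3, 0, 2, 8, 0, 7, 9]
  gA := 3
  gB := 11
  fin := 0
  sid := [0, 1, 2, 3, 4, 5, 6, 5, 4, 1, 0, 7, 8, 6, 6, 2, 1, 4, 3, 9, 0, 9, 3, 2, 6, 8, 7, 0]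
  off := [(0, 0), (0, 0), (0, 0), (0, 0), (0, 0), (0, 0), (0, 0), (-1, 0), (-1, 0), (0, 0), (0, 0), (0, 0), (0, 0),
    (-1, 0), (-1, -1), (0, 0), (0, 0), (-1, 0), (-1, 0), (0, 0), (-1, -1), (1, 0), (0, 0), (0, 0), (-1, -1), (0, -1),
    (0, -1), (0, -1)]

/-- glued arcs and equations -/
def tord7r_121 : TorT :=
  ⟨[(0, 2, true), (0, 4, true), (1, 1, true), (1, 2, true), (3, 3, true), (3, 5, true), (4, 4, true), (5, 6, true),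
    (6, 6, true)],
    [([0, 0, 0, 0, 1, 1, 0], 2), ([0, 1, 0, 1, 1, 0, 0], 2), ([0, 1, 2, 0, 0, 0, 0], 2), ([1, 0, 0, 0, 0, 1, 0], 2),
    ([1, 0, 0, 1, 0, 0, 2], 2)]⟩

theorem tord7r_121_ok : tord7r_121.OK 7 := TT.leaf_ok (T := ttd7r_121) (by decide +kernel)

/-- the torus -/
def ttd7r_122 : TT where
  k := 4
  rf := [false, false, false, false]
  tau := [8, 15, 21, 27, 18, 19, 26, 16, 0, 25, 24, 23, 20, 17, 22, 1, 7, 13, 4, 5, 12, 2, 14, 11, 10, 9, 6, 3]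
  par := [0, 0, 1, 2]
  stars := [[0, 26, 9], [1, 8, 16], [2, 15, 22], [3, 21], [4, 27, 6, 19], [5, 18, 13, 20], [7, 17], [10, 25], [11,
    24], [12, 23, 14]]
  word := [[], [], [], [], [0, 3], [0], [0, 2, 1], [], [], [2], [2], [2], [2], [], [], [], [], [], [2, 1], [1], [3],
    [], [], [3], [3], [3], [0, 3, 1], []]
  rank := [0, 0, 0, 1, 3, 0, 4, 1, 0, 2, 1, 0, 2, 2, 1, 0, 1, 2, 3, 0, 2, 0, 1, 0, 1, 2, 4, 1]
  just := [0, 0, 0, 3, 5, 0, 4, 1, 0, 7, 8, 0, 9, 6, 2, 0, 1, 6, 5, 0, 9, 0, 2, 0, 8, 7, 4, 3]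
  gA := 5
  gB := 11
  fin := 0
  sid := [0, 1, 2, 3, 4, 5, 4, 6, 1, 0, 7, 8, 9, 5, 9, 2, 1, 6, 5, 4, 5, 3, 2, 9, 8, 7, 0, 4]
  off := [(0, 0), (0, 0), (0, 0), (0, 0), (0, 0), (0, 0), (0, 1), (0, 0), (0, 0), (0, 0), (0, 0), (0, 0), (0, 0),
    (-1, 1), (0, -1), (0, 0), (0, 0), (0, 0), (-1, 1), (-1, 1), (-1, 0), (0, 0), (0, 0), (0, -1), (0, -1), (0, -1),
    (0, -1), (0, 0)]

/-- glued arcs and equations -/
def tord7r_122 : TorT :=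
  ⟨[(0, 1, true), (0, 2, true), (1, 1, true), (2, 4, true), (3, 3, true), (3, 6, true), (4, 4, true), (5, 5, true),
    (5, 6, true)],
    [([0, 0, 0, 0, 1, 1, 2], 2), ([0, 0, 0, 1, 1, 0, 0], 2), ([0, 2, 1, 0, 0, 0, 0], 2), ([1, 0, 0, 1, 0, 0, 0], 2),
    ([1, 0, 1, 0, 0, 1, 0], 2)]⟩

theorem tord7r_122_ok : tord7r_122.OK 7 := TT.leaf_ok (T := ttd7r_122) (by decide +kernel)

/-- the torus -/
def ttd7r_123 : TT where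
  k := 4
  rf := [false, false, false, false]
  tau := [8, 15, 21, 19, 18, 17, 26, 16, 0, 25, 24, 23, 20, 27, 22, 1, 7, 5, 4, 3, 12, 2, 14, 11, 10, 9, 6, 13]
  par := [0, 0, 1, 2]
  stars := [[0, 26, 9], [1, 8, 16], [2, 15, 22], [3, 21, 13, 20], [4, 19], [5, 18], [6, 17, 7, 27], [10, 25], [11,
    24], [12, 23, 14]]
  word := [[], [], [], [0], [0], [0], [0, 2, 1], [], [], [2], [2], [2], [2], [2, 1], [], [], [], [1], [1], [1], [3],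
    [], [], [3], [3], [3], [0, 3, 1], [0, 3]]
  rank := [0, 0, 0, 0, 1, 2, 4, 1, 0, 2, 1, 0, 2, 3, 1, 0, 1, 2, 1, 0, 2, 0, 1, 0, 1, 2, 4, 3]
  just := [0, 0, 0, 0, 4, 5, 6, 1, 0, 7, 8, 0, 9, 3, 2, 0, 1, 5, 4, 0, 9, 0, 2, 0, 8, 7, 6, 3]
  gA := 3
  gB := 11
  fin := 0
  sid := [0, 1, 2, 3, 4, 5, 6, 6, 1, 0, 7, 8, 9, 3, 9, 2, 1, 6, 5, 4, 3, 3, 2, 9, 8, 7, 0, 6]
  off := [(0, 0), (0, 0), (0, 0), (0, 0), (0, 0), (0, 0), (0, 0), (-1, 0), (0, 0), (0, 0), (0, 0), (0, 0), (0, 0),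
    (-1, 1), (0, -1), (0, 0), (0, 0), (-1, 0), (-1, 0), (-1, 0), (-1, 0), (0, 0), (0, 0), (0, -1), (0, -1), (0, -1),
    (0, -1), (0, -1)]

/-- glued arcs and equations -/
def tord7r_123 : TorT :=
  ⟨[(0, 1, true), (0, 2, true), (1, 1, true), (2, 4, true), (3, 3, true), (3, 5, true), (4, 4, true), (5, 6, true),
    (6, 6, true)],
    [([0, 0, 0, 0, 1, 1, 0], 2), ([0, 0, 0, 1, 1, 0, 0], 2), ([0, 2, 1, 0, 0, 0, 0], 2), ([1, 0, 0, 1, 0, 0, 2], 2),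
    ([1, 0, 1, 0, 0, 1, 0], 2)]⟩

theorem tord7r_123_ok : tord7r_123.OK 7 := TT.leaf_ok (T := ttd7r_123) (by decide +kernel)

/-- the torus -/
def ttd7r_124 : TT where
  k := 8
  rf := [false, true, false, false, true, true, false, true]
  tau := [4, 7, 8, 13, 0, 19, 20, 1, 2, 25, 26, 23, 24, 3, 18, 28, 29, 34, 14, 5, 6, 36, 37, 11, 12, 9, 10, 38, 15,
    16, 46, 47, 44, 45, 17, 39, 21, 22, 27, 35, 54, 55, 50, 51, 32, 33, 30, 31, 52, 53, 42, 43, 48, 49, 40, 41]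
  par := [0, 1, 5, 9, 15, 21, 30, 40]
  stars := [[0, 20, 5], [1, 4, 7], [2, 8], [3, 9, 25, 13], [6, 19, 14], [10, 26], [11, 23, 38, 27], [12, 24], [15,
    18, 28], [16, 29], [17, 30, 46, 34], [21, 39, 36], [22, 37], [31, 47], [32, 44, 52, 48], [33, 45], [35, 40, 55],
    [41, 49, 54], [42, 53, 50], [43, 51]]
  word := [[3], [], [], [2], [2], [], [0, 3, 1], [], [], [], [], [3], [3], [3], [0, 2, 1], [], [], [0, 3, 1], [0, 3,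
    1], [], [0, 2, 1], [], [], [2], [2], [], [], [3], [], [], [], [], [0, 2, 1], [0, 2, 1], [0, 2, 1], [3], [], [],
    [2], [2], [], [3], [0], [0], [0, 3, 1], [0, 3, 1], [], [], [0, 2], [2], [1], [1], [3, 1], [3], [], [2]]
  rank := [7, 0, 1, 6, 7, 0, 6, 0, 1, 0, 1, 4, 5, 6, 5, 0, 1, 4, 5, 0, 6, 0, 1, 4, 5, 0, 1, 3, 0, 1, 0, 1, 2, 3, 4,
    2, 0, 1, 3, 2, 0, 1, 0, 1, 2, 3, 0, 1, 1, 0, 0, 1, 1, 0, 0, 1]
  just := [1, 0, 2, 3, 1, 0, 4, 0, 2, 0, 5, 6, 7, 3, 8, 0, 9, 10, 8, 0, 4, 0, 12, 6, 7, 0, 5, 11, 0, 9, 0, 13, 14,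
    15, 10, 16, 0, 12, 11, 16, 0, 17, 0, 19, 14, 15, 0, 13, 18, 0, 0, 19, 18, 0, 0, 17]
  gA := 42
  gB := 49
  fin := 0
  sid := [0, 1, 2, 3, 1, 0, 4, 1, 2, 3, 5, 6, 7, 3, 4, 8, 9, 10, 8, 4, 0, 11, 12, 6, 7, 3, 5, 6, 8, 9, 10, 13, 14,
    15, 10, 16, 11, 12, 6, 11, 16, 17, 18, 19, 14, 15, 10, 13, 14, 17, 18, 19, 14, 18, 17, 16]
  off := [(0, 0), (0, 0), (0, 0), (0, 0), (0, 1), (0, 1), (0, 0), (0, 0), (0, 0), (0, 0), (0, 0), (0, 0), (0, 0), (0,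
    -1), (0, 1), (0, 0), (0, 0), (0, 0), (0, -1), (0, 0), (0, 1), (0, 0), (0, 0), (0, 1), (0, 1), (0, 0), (0, 0), (0,
    0), (0, 0), (0, 0), (0, 0), (0, 0), (0, 0), (0, 0), (0, 1), (0, 0), (0, 0), (0, 0), (0, 1), (0, 1), (0, 1), (0,
    0), (0, 0), (0, 0), (0, -1), (0, -1), (0, 0), (0, 0), (0, 0), (0, 1), (-1, 0), (-1, 0), (-1, -1), (-1, -1), (0,
    0), (0, 1)]

/-- glued arcs and equations -/
def tord7r_124 : TorT :=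
  ⟨[(0, 1, false), (0, 4, true), (1, 2, false), (2, 4, false), (3, 5, false), (3, 6, false), (5, 5, true), (6, 6,
    true)],
    [([0, 0, 0, 1, 0, 1, 0], 2), ([0, 0, 1, 1, 1, 0, 1], 2), ([0, 1, 1, 0, 0, 0, 0], 2), ([1, 0, 0, 0, 0, 1, 1], 2),
    ([1, 1, 0, 0, 1, 0, 0], 2)]⟩

theorem tord7r_124_ok : tord7r_124.OK 7 := TT.leaf_ok (T := ttd7r_124) (by decide +kernel)

/-- the torus -/
def ttd7r_125 : TT where
  k := 8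
  rf := [false, true, false, false, true, true, false, true]
  tau := [8, 9, 18, 13, 7, 26, 27, 4, 0, 1, 19, 30, 17, 3, 32, 28, 29, 12, 2, 10, 31, 36, 37, 46, 41, 35, 5, 6, 15,
    16, 11, 20, 14, 54, 55, 25, 21, 22, 47, 51, 45, 24, 53, 49, 50, 40, 23, 38, 52, 43, 44, 39, 48, 42, 33, 34]
  par := [0, 0, 2, 5, 11, 21, 23, 33]
  stars := [[0, 27, 5, 8], [1, 9], [2, 10, 19], [3, 18, 13], [4, 7], [6, 26, 36, 21], [11, 31, 20], [12, 17, 30],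
    [14, 32], [15, 33, 55, 28], [16, 29], [22, 37], [23, 38, 47], [24, 46, 41], [25, 35], [34, 49, 43, 54], [39, 52,
    48], [40, 45, 51], [42, 53], [44, 50]]
  word := [[], [], [], [3, 0], [3, 0], [], [2, 1], [1, 2], [], [], [], [], [1, 2], [1, 2], [], [3, 0], [3, 0], [3,
    0], [], [], [], [], [], [], [2, 1], [2, 1], [], [0, 3], [1, 2], [1, 2], [], [], [], [], [1, 2], [0, 3], [], [],
    [], [0], [0, 3], [0, 3], [0], [2], [2], [2, 1], [], [], [0], [3], [3], [1], [1], [1], [], [3, 0]]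
  rank := [0, 1, 0, 8, 9, 0, 7, 9, 0, 1, 2, 0, 7, 8, 4, 5, 6, 7, 0, 2, 3, 0, 1, 0, 5, 6, 0, 7, 5, 6, 0, 3, 4, 0, 1,
    6, 0, 1, 2, 3, 4, 5, 0, 0, 1, 4, 0, 2, 1, 0, 1, 3, 1, 0, 0, 1]
  just := [0, 1, 0, 3, 4, 0, 5, 4, 0, 1, 2, 0, 7, 3, 8, 9, 10, 7, 0, 2, 6, 0, 11, 0, 13, 14, 0, 5, 9, 10, 0, 6, 8, 0,
    15, 14, 0, 11, 12, 16, 17, 13, 0, 0, 19, 17, 0, 12, 18, 0, 19, 16, 18, 0, 0, 15]
  gA := 42
  gB := 43
  fin := 0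
  sid := [0, 1, 2, 3, 4, 0, 5, 4, 0, 1, 2, 6, 7, 3, 8, 9, 10, 7, 3, 2, 6, 5, 11, 12, 13, 14, 5, 0, 9, 10, 7, 6, 8, 9,
    15, 14, 5, 11, 12, 16, 17, 13, 18, 15, 19, 17, 13, 12, 16, 15, 19, 17, 16, 18, 15, 9]
  off := [(0, 0), (0, 0), (0, 0), (0, 0), (0, 0), (1, -1), (0, 0), (-1, 1), (0, 0), (0, 0), (0, 0), (0, 0), (0, 0),
    (-1, 1), (0, 0), (0, 0), (0, 0), (1, -1), (0, 0), (0, 0), (0, 0), (1, -1), (0, 0), (0, 0), (0, 0), (0, 0), (0,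
    0), (1, -1), (-1, 1), (-1, 1), (0, 0), (0, 0), (0, 0), (0, 0), (0, 0), (1, -1), (1, -1), (0, 0), (0, 0), (0, 0),
    (0, 0), (1, -1), (0, 0), (1, 0), (0, 0), (-1, 1), (0, 0), (0, 0), (0, 0), (1, -1), (0, -1), (-1, 0), (-1, 0),
    (-1, 0), (0, 0), (0, 0)]

/-- glued arcs and equations -/
def tord7r_125 : TorT :=
  ⟨[(0, 1, false), (0, 4, false), (1, 2, false), (2, 4, true), (3, 5, false), (3, 6, false), (5, 5, true), (6, 6,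
    true)],
    [([0, 0, 0, 1, 1, 0, 1], 2), ([0, 0, 1, 1, 0, 1, 0], 2), ([0, 1, 1, 0, 0, 0, 0], 2), ([1, 0, 0, 0, 1, 0, 0], 2),
    ([1, 1, 0, 0, 0, 1, 1], 2)]⟩

theorem tord7r_125_ok : tord7r_125.OK 7 := TT.leaf_ok (T := ttd7r_125) (by decide +kernel)

/-- the torus -/
def ttd7r_126 : TT where
  k := 8
  rf := [false, true, false, false, true, true, false, true]
  tau := [8, 9, 18, 17, 16, 19, 26, 25, 0, 1, 27, 21, 34, 24, 36, 37, 4, 3, 2, 5, 47, 11, 28, 29, 13, 7, 6, 10, 22,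
    23, 53, 52, 51, 54, 12, 46, 14, 15, 48, 42, 55, 45, 39, 49, 50, 41, 35, 20, 38, 43, 44, 32, 31, 30, 33, 40]
  par := [0, 0, 2, 6, 12, 14, 20, 30]
  stars := [[0, 26, 8], [1, 9], [2, 10, 27, 6, 19], [3, 18], [4, 17], [5, 16, 38, 48, 20], [7, 25], [11, 21], [12,
    28, 22], [13, 24, 30, 54, 34], [14, 47, 36], [15, 37], [23, 29], [31, 53], [32, 52], [33, 55, 41, 45, 51], [35,
    46], [39, 42], [40, 49, 43], [44, 50]]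
  word := [[], [], [], [], [], [0], [], [3, 0, 2, 1], [], [], [1], [1], [], [3, 0, 2, 1], [], [], [], [], [], [1],
    [], [0], [0], [0], [0, 3, 1, 2], [0, 3, 1, 2], [], [0], [1], [1], [], [], [], [3, 0, 2], [], [], [], [], [0],
    [0], [0, 2], [], [1], [2], [2], [], [], [], [1], [3], [3], [], [], [], [3, 1, 2], [3, 1]]
  rank := [0, 1, 0, 1, 2, 0, 0, 8, 0, 1, 2, 3, 0, 7, 0, 1, 2, 1, 0, 0, 0, 3, 4, 5, 7, 8, 0, 2, 4, 5, 0, 1, 2, 6, 0,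
    1, 0, 1, 3, 4, 5, 2, 4, 0, 1, 2, 1, 0, 3, 0, 1, 2, 1, 0, 6, 5]
  just := [0, 1, 0, 3, 4, 0, 0, 6, 0, 1, 2, 7, 0, 9, 0, 11, 4, 3, 0, 0, 0, 7, 8, 12, 9, 6, 0, 2, 8, 12, 0, 13, 14,
    15, 0, 10, 0, 11, 5, 17, 18, 16, 17, 0, 19, 16, 10, 0, 5, 0, 19, 14, 13, 0, 15, 18]
  gA := 5
  gB := 43
  fin := 0
  sid := [0, 1, 2, 3, 4, 5, 2, 6, 0, 1, 2, 7, 8, 9, 10, 11, 5, 4, 3, 2, 5, 7, 8, 12, 9, 6, 0, 2, 8, 12, 9, 13, 14,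
    15, 9, 16, 10, 11, 5, 17, 18, 15, 17, 18, 19, 15, 16, 10, 5, 18, 19, 15, 14, 13, 9, 15]
  off := [(0, 0), (0, 0), (0, 0), (0, 0), (0, 0), (0, 0), (1, 0), (0, 0), (0, 0), (0, 0), (0, 0), (0, 0), (0, 0), (0,
    0), (0, 0), (0, 0), (0, 0), (0, 0), (0, 0), (0, 0), (-1, 0), (1, 0), (1, 0), (0, 0), (0, 0), (0, 0), (0, 0), (1,
    0), (0, 0), (-1, 0), (-1, 0), (0, 0), (0, 0), (0, 0), (0, 0), (0, 0), (0, 0), (0, 0), (0, 0), (0, 0), (0, 0), (0,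
    1), (-1, 0), (-1, 0), (0, 0), (0, 1), (0, 0), (0, 0), (-1, 0), (-1, -1), (0, -1), (0, 0), (0, 0), (0, 0), (-1,
    0), (-1, 0)]

/-- glued arcs and equations -/
def tord7r_126 : TorT :=
  ⟨[(0, 1, false), (0, 4, false), (1, 2, false), (2, 4, true), (3, 3, true), (3, 6, false), (5, 5, true), (5, 6,
    true)],
    [([0, 0, 0, 1, 1, 0, 0], 2), ([0, 0, 1, 1, 0, 1, 2], 2), ([0, 1, 1, 0, 0, 0, 0], 2), ([1, 0, 0, 0, 1, 0, 0], 2),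
    ([1, 1, 0, 0, 0, 1, 0], 2)]⟩

theorem tord7r_126_ok : tord7r_126.OK 7 := TT.leaf_ok (T := ttd7r_126) (by decide +kernel)

/-- the torus -/
def ttd7r_127 : TT where
  k := 8
  rf := [false, true, false, true, false, true, false, true]
  tau := [8, 9, 18, 17, 16, 24, 33, 32, 0, 1, 19, 28, 41, 27, 22, 23, 4, 3, 2, 10, 47, 46, 14, 15, 5, 42, 55, 13, 11,
    35, 36, 54, 7, 6, 48, 29, 30, 53, 52, 51, 45, 12, 25, 49, 50, 40, 21, 20, 34, 43, 44, 39, 38, 37, 31, 26]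
  par := [0, 0, 2, 5, 6, 12, 20, 26]
  stars := [[0, 33, 8], [1, 9], [2, 10, 19], [3, 18], [4, 17], [5, 16, 24], [6, 25, 42, 34], [7, 32, 55, 27], [11,
    28, 48, 20], [12, 35, 29], [13, 21, 46, 41], [14, 47, 22], [15, 23], [26, 49, 43], [30, 36], [31, 37, 54], [38,
    53], [39, 52], [40, 45, 51], [44, 50]]
  word := [[], [], [], [], [], [], [], [2, 0, 3, 1], [], [], [], [1], [], [2, 0], [], [], [], [], [], [], [], [], [],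
    [], [], [0], [], [1, 3], [0], [0], [0], [0, 2], [0, 2, 1, 3], [], [0], [1], [1], [2], [2], [2], [2, 0], [], [1],
    [1], [1], [1, 3], [], [], [1], [0], [0], [3], [3], [3], [3, 1], []]
  rank := [0, 1, 0, 1, 2, 0, 0, 7, 0, 1, 2, 3, 0, 6, 4, 3, 2, 1, 0, 2, 0, 5, 4, 3, 0, 1, 0, 6, 3, 4, 5, 6, 7, 0, 0,
    4, 5, 1, 0, 1, 4, 0, 1, 2, 3, 4, 5, 0, 0, 2, 3, 1, 0, 1, 6, 0]
  just := [0, 1, 0, 3, 4, 0, 0, 7, 0, 1, 2, 8, 0, 10, 12, 5, 4, 3, 0, 2, 0, 11, 12, 5, 0, 6, 0, 10, 8, 9, 14, 15, 7,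
    0, 0, 9, 14, 16, 0, 17, 18, 0, 6, 13, 19, 18, 11, 0, 0, 13, 19, 17, 0, 16, 15, 0]
  gA := 34
  gB := 38
  fin := 0
  sid := [0, 1, 2, 3, 4, 5, 6, 7, 0, 1, 2, 8, 9, 10, 11, 12, 5, 4, 3, 2, 8, 10, 11, 12, 5, 6, 13, 7, 8, 9, 14, 15, 7,
    0, 6, 9, 14, 15, 16, 17, 18, 10, 6, 13, 19, 18, 10, 11, 8, 13, 19, 18, 17, 16, 15, 7]
  off := [(0, 0), (0, 0), (0, 0), (0, 0), (0, 0), (0, 0), (0, 0), (0, 0), (0, 0), (0, 0), (0, 0), (0, 0), (0, 0), (0,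
    0), (0, 0), (0, 0), (0, 0), (0, 0), (0, 0), (0, 0), (0, 0), (-1, -1), (0, 0), (0, 0), (0, 0), (0, 0), (0, 0),
    (-1, -1), (1, 0), (1, 0), (0, 0), (0, 0), (0, 0), (0, 0), (0, 0), (0, 0), (-1, 0), (-1, 0), (0, 0), (0, 0), (0,
    0), (0, 0), (-1, 0), (-1, 0), (0, 0), (-1, -1), (-1, -1), (0, 0), (0, 0), (0, 0), (1, 0), (0, -1), (0, -1), (0,
    -1), (-1, -1), (-1, -1)]

/-- glued arcs and equations -/
def tord7r_127 : TorT :=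
  ⟨[(0, 1, false), (0, 4, false), (1, 2, false), (2, 4, true), (3, 3, true), (3, 5, false), (5, 6, true), (6, 6,
    true)],
    [([0, 0, 0, 1, 1, 0, 0], 2), ([0, 0, 1, 1, 0, 1, 0], 2), ([0, 1, 1, 0, 0, 0, 0], 2), ([1, 0, 0, 0, 1, 0, 2], 2),
    ([1, 1, 0, 0, 0, 1, 0], 2)]⟩

theorem tord7r_127_ok : tord7r_127.OK 7 := TT.leaf_ok (T := ttd7r_127) (by decide +kernel)

/-- the torus -/
def ttd7r_128 : TT where
  k := 4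
  rf := [false, false, false, false]
  tau := [7, 18, 11, 10, 9, 24, 26, 0, 25, 4, 3, 2, 17, 19, 23, 22, 21, 12, 1, 13, 27, 16, 15, 14, 5, 8, 6, 20]
  par := [0, 0, 1, 5]
  stars := [[0, 26, 8], [1, 7, 19], [2, 18, 12], [3, 11], [4, 10], [5, 9, 25], [6, 24, 14, 27], [13, 17, 21, 20],
    [15, 23], [16, 22]]
  word := [[], [], [0], [0], [0], [], [3, 1, 2], [], [1], [1], [1], [1], [1], [], [2], [2], [2], [0], [], [], [1, 2],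
    [3], [3], [3], [], [0], [3, 0, 2], [3, 0]]
  rank := [0, 0, 0, 1, 2, 0, 3, 0, 3, 2, 1, 0, 1, 1, 2, 1, 0, 1, 0, 1, 2, 0, 1, 2, 0, 3, 3, 2]
  just := [0, 0, 0, 3, 4, 0, 6, 0, 5, 4, 3, 0, 2, 1, 8, 9, 0, 2, 0, 1, 7, 0, 9, 8, 0, 5, 6, 7]
  gA := 2
  gB := 16
  fin := 0
  sid := [0, 1, 2, 3, 4, 5, 6, 1, 0, 5, 4, 3, 2, 7, 6, 8, 9, 7, 2, 1, 7, 7, 9, 8, 6, 5, 0, 6]
  off := [(0, 0), (0, 0), (0, 0), (0, 0), (0, 0), (0, 0), (0, 0), (0, 0), (0, 0), (-1, 0), (-1, 0), (-1, 0), (-1, 0),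
    (0, 0), (0, 1), (0, 0), (0, 0), (1, 0), (0, 0), (0, 0), (0, 0), (1, -1), (0, -1), (0, -1), (0, 0), (0, 0), (1,
    0), (1, 0)]

/-- glued arcs and equations -/
def tord7r_128 : TorT :=
  ⟨[(0, 0, true), (0, 2, true), (1, 1, true), (1, 4, true), (2, 4, true), (3, 3, true), (3, 5, true), (5, 6, true),
    (6, 6, true)],
    [([0, 0, 0, 1, 1, 0, 0], 2), ([0, 0, 1, 0, 1, 1, 0], 2), ([0, 1, 1, 0, 0, 0, 0], 2), ([1, 0, 0, 1, 0, 0, 2], 2),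
    ([1, 1, 0, 0, 0, 1, 0], 2)]⟩

theorem tord7r_128_ok : tord7r_128.OK 7 := TT.leaf_ok (T := ttd7r_128) (by decide +kernel)

/-- the torus -/
def ttd7r_129 : TT where
  k := 8
  rf := [false, false, false, true, true, true, false, true]
  tau := [11, 10, 16, 21, 22, 19, 12, 31, 32, 41, 1, 0, 6, 37, 46, 45, 2, 35, 36, 5, 47, 3, 4, 48, 29, 28, 34, 44,
    25, 24, 51, 7, 8, 54, 26, 17, 18, 13, 50, 49, 55, 9, 52, 53, 27, 15, 14, 20, 23, 39, 38, 30, 42, 43, 33, 40]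
  par := [0, 0, 2, 3, 7, 9, 14, 30]
  stars := [[0, 12], [1, 11], [2, 10, 35, 17], [3, 16, 45, 21], [4, 22], [5, 23, 48, 20], [6, 19, 37, 13], [7, 38,
    51, 31], [8, 32], [9, 33, 55, 41], [14, 47], [15, 46], [18, 36], [24, 30, 52, 42], [25, 29], [26, 28], [27, 44,
    54, 34], [39, 50], [40, 49], [43, 53]]
  word := [[], [], [], [], [], [0, 3, 1], [0, 3, 1, 2], [], [], [], [], [], [3, 0, 2, 1], [3], [], [], [], [], [],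
    [0, 2, 1], [], [], [], [0, 3, 1], [0], [0], [0], [], [1], [1], [], [], [], [2], [1], [], [], [2], [2], [2], [2],
    [], [0, 2], [0, 2], [], [], [], [], [0, 2, 1], [3], [3], [], [3, 1], [3, 1], [3], [3]]
  rank := [0, 1, 0, 0, 1, 6, 7, 0, 1, 0, 1, 0, 7, 5, 0, 1, 0, 2, 3, 6, 1, 0, 1, 5, 2, 1, 0, 2, 1, 2, 0, 0, 1, 0, 0,
    2, 3, 5, 4, 3, 2, 0, 4, 3, 2, 1, 0, 1, 5, 3, 4, 0, 4, 3, 0, 2]
  just := [0, 1, 0, 0, 4, 5, 6, 0, 8, 0, 1, 0, 6, 7, 0, 11, 0, 2, 12, 5, 10, 0, 4, 13, 14, 15, 0, 3, 15, 14, 0, 0, 8,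
    0, 0, 2, 12, 7, 17, 18, 9, 0, 19, 16, 3, 11, 0, 10, 13, 18, 17, 0, 19, 16, 0, 9]
  gA := 26
  gB := 33
  fin := 0
  sid := [0, 1, 2, 3, 4, 5, 6, 7, 8, 9, 2, 1, 0, 6, 10, 11, 3, 2, 12, 6, 5, 3, 4, 5, 13, 14, 15, 16, 15, 14, 13, 7,
    8, 9, 16, 2, 12, 6, 7, 17, 18, 9, 13, 19, 16, 3, 11, 10, 5, 18, 17, 7, 13, 19, 16, 9]
  off := [(0, 0), (0, 0), (0, 0), (0, 0), (0, 0), (0, 0), (0, 0), (0, 0), (0, 0), (0, 0), (0, 0), (0, 0), (0, 0), (0,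
    0), (0, 0), (0, 0), (0, 0), (0, 0), (0, 0), (0, 1), (0, 1), (0, 0), (0, 0), (0, 0), (0, 0), (0, 0), (0, 0), (0,
    0), (-1, 0), (-1, 0), (-1, 0), (0, 0), (0, 0), (0, 0), (-1, 0), (0, 0), (0, 0), (0, 1), (0, 1), (0, 0), (0, 0),
    (0, 0), (0, 1), (0, 0), (0, 0), (0, 0), (0, 0), (0, 0), (0, 1), (0, -1), (0, -1), (0, 0), (-1, 0), (-1, -1), (-1,
    -1), (0, -1)]

/-- glued arcs and equations -/
def tord7r_129 : TorT :=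
  ⟨[(0, 3, false), (0, 4, true), (1, 3, true), (1, 4, false), (2, 2, true), (2, 6, false), (5, 5, true), (5, 6,
    true)],
    [([0, 0, 1, 0, 0, 1, 2], 2), ([0, 1, 0, 0, 1, 0, 0], 2), ([1, 0, 0, 0, 0, 1, 0], 2), ([1, 0, 1, 2, 0, 0, 0], 2)]⟩

theorem tord7r_129_ok : tord7r_129.OK 7 := TT.leaf_ok (T := ttd7r_129) (by decide +kernel)

/-- the torus -/
def ttd7r_130 : TT where
  k := 4
  rf := [false, false, false, false]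
  tau := [7, 8, 6, 15, 17, 16, 2, 0, 1, 13, 22, 24, 23, 9, 18, 3, 5, 4, 14, 26, 27, 25, 10, 12, 11, 21, 19, 20]
  par := [0, 0, 3, 10]
  stars := [[0, 2, 8], [1, 7, 9], [3, 6, 16], [4, 15, 18], [5, 17], [10, 13, 23], [11, 22, 25], [12, 24], [14, 27,
    19], [20, 26, 21]]
  word := [[], [3, 0], [0, 3], [], [2, 1], [2, 1], [2, 1], [], [1, 2], [1, 2], [], [3, 0], [3, 0], [3, 0], [2, 1],
    [], [0, 3], [0, 3], [0, 3], [0], [2], [3, 0], [], [1, 2], [1, 2], [1, 2], [1], [3]]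
  rank := [0, 5, 4, 0, 2, 3, 4, 0, 5, 4, 0, 2, 3, 4, 1, 0, 3, 2, 1, 0, 0, 1, 0, 3, 2, 1, 0, 0]
  just := [0, 1, 2, 0, 3, 4, 2, 0, 1, 5, 0, 6, 7, 5, 8, 0, 4, 3, 8, 0, 0, 9, 0, 7, 6, 9, 0, 0]
  gA := 19
  gB := 20
  fin := 0
  sid := [0, 1, 0, 2, 3, 4, 2, 1, 0, 1, 5, 6, 7, 5, 8, 3, 2, 4, 3, 8, 9, 9, 6, 5, 7, 6, 9, 8]
  off := [(0, 0), (0, 0), (1, -1), (0, 0), (0, 0), (0, 0), (-1, 1), (0, 0), (0, 0), (-1, 1), (0, 0), (0, 0), (0, 0),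
    (1, -1), (0, 0), (0, 0), (0, 0), (1, -1), (1, -1), (1, -1), (0, 0), (0, -1), (0, 0), (0, 0), (-1, 1), (-1, 1),
    (-1, 0), (0, -1)]

/-- glued arcs and equations -/
def tord7r_130 : TorT :=
  ⟨[(0, 0, true), (0, 4, true), (1, 1, true), (1, 3, true), (2, 5, true), (2, 6, true), (3, 4, true), (5, 5, true),
    (6, 6, true)],
    [([0, 0, 0, 1, 0, 1, 0], 2), ([0, 0, 1, 1, 0, 0, 1], 2), ([0, 1, 0, 0, 2, 0, 0], 2), ([1, 0, 0, 0, 0, 1, 1], 2),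
    ([1, 1, 1, 0, 0, 0, 0], 2)]⟩

theorem tord7r_130_ok : tord7r_130.OK 7 := TT.leaf_ok (T := ttd7r_130) (by decide +kernel)

/-- the torus -/
def ttd7r_131 : TT where
  k := 12
  rf := [false, true, false, true, true, false, false, false, false, true, false, false]
  tau := [7, 17, 16, 15, 22, 23, 34, 0, 18, 19, 35, 46, 55, 62, 21, 3, 2, 1, 8, 9, 69, 14, 4, 5, 42, 39, 76, 83, 56,
    81, 82, 70, 53, 48, 6, 10, 45, 44, 43, 25, 75, 68, 24, 38, 37, 36, 11, 54, 33, 66, 73, 72, 71, 32, 47, 12, 28,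
    80, 79, 78, 64, 65, 13, 77, 60, 61, 49, 74, 41, 20, 31, 52, 51, 50, 67, 40, 26, 63, 59, 58, 57, 29, 30, 27]
  par := [0, 0, 1, 4, 6, 10, 11, 12, 13, 20, 26, 27]
  stars := [[0, 28, 56, 7], [1, 8, 18], [2, 17], [3, 16], [4, 15, 22], [5, 23], [6, 24, 42, 34], [9, 19], [10, 35,
    69, 20], [11, 46, 36], [12, 55, 47], [13, 62, 66, 49], [14, 63, 77, 21], [25, 39, 43], [26, 76, 40], [27, 83, 31,
    70], [29, 81, 57], [30, 82], [32, 53, 71], [33, 48, 54], [37, 45], [38, 44], [41, 75, 68], [50, 67, 74], [51,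
    73], [52, 72], [58, 80], [59, 79], [60, 78, 64], [61, 65]]
  word := [[], [], [], [], [], [], [], [], [], [], [], [], [], [], [], [], [], [], [], [], [], [], [], [], [1], [1],
    [], [], [1, 2, 0, 3], [1, 2, 0], [1, 2, 0], [1, 2, 0], [1], [1], [], [], [], [], [], [0], [0], [], [0], [], [],
    [], [], [], [0], [2], [2, 0], [2, 0], [2, 0], [0], [], [], [2, 1, 3, 0], [2], [2], [2], [2], [2], [], [], [3],
    [3], [3], [0], [], [], [1, 3, 0], [1, 3], [1, 3], [1, 3], [1], [1], [], [], [3], [3], [3], [1, 3, 0], [1, 3, 0],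
    []]
  rank := [0, 0, 1, 2, 0, 1, 0, 0, 1, 2, 0, 0, 0, 0, 3, 2, 1, 0, 1, 2, 0, 3, 0, 1, 4, 1, 0, 0, 11, 10, 9, 8, 6, 5, 0,
    0, 1, 2, 3, 1, 0, 3, 4, 3, 2, 1, 0, 1, 5, 0, 5, 6, 7, 6, 1, 0, 11, 7, 6, 5, 2, 1, 0, 4, 2, 1, 0, 4, 3, 0, 8, 7,
    6, 5, 4, 0, 0, 4, 5, 6, 7, 10, 9, 0]
  just := [0, 0, 2, 3, 0, 5, 0, 0, 1, 7, 0, 0, 0, 0, 4, 3, 2, 0, 1, 7, 0, 4, 0, 5, 13, 14, 0, 0, 16, 17, 15, 18, 19,
    6, 0, 0, 9, 20, 21, 14, 0, 8, 13, 21, 20, 9, 0, 10, 6, 0, 23, 24, 25, 19, 10, 0, 16, 26, 27, 28, 29, 11, 0, 12,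
    29, 11, 0, 22, 8, 0, 18, 25, 24, 23, 22, 0, 0, 12, 28, 27, 26, 17, 15, 0]
  gA := 40
  gB := 49
  fin := 0
  sid := [0, 1, 2, 3, 4, 5, 6, 0, 1, 7, 8, 9, 10, 11, 12, 4, 3, 2, 1, 7, 8, 12, 4, 5, 6, 13, 14, 15, 0, 16, 17, 15,
    18, 19, 6, 8, 9, 20, 21, 13, 14, 22, 6, 13, 21, 20, 9, 10, 19, 11, 23, 24, 25, 18, 19, 10, 0, 16, 26, 27, 28, 29,
    11, 12, 28, 29, 11, 23, 22, 8, 15, 18, 25, 24, 23, 22, 14, 12, 28, 27, 26, 16, 17, 15]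
  off := [(0, 0), (0, 0), (0, 0), (0, 0), (0, 0), (0, 0), (0, 0), (0, 0), (0, 0), (0, 0), (0, 0), (0, 0), (0, 0), (0,
    0), (0, 0), (0, 0), (0, 0), (0, 0), (0, 0), (0, 0), (0, 0), (0, 0), (0, 0), (0, 0), (0, 0), (0, 0), (0, 0), (0,
    0), (0, 0), (0, 0), (0, 0), (0, 1), (0, 0), (0, 0), (0, 0), (0, 0), (0, 0), (0, 0), (0, 0), (1, 0), (1, 0), (0,
    0), (1, 0), (1, 0), (0, 0), (0, 0), (0, 0), (0, 0), (1, 0), (0, 0), (0, 0), (0, 0), (0, 0), (1, 0), (1, 0), (0,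
    0), (0, 0), (0, 0), (0, 0), (0, 0), (0, 0), (0, 0), (0, 0), (0, 0), (0, -1), (0, -1), (0, -1), (0, -1), (0, 0),
    (0, 0), (0, 0), (0, -1), (-1, -1), (-1, -1), (-1, -1), (-1, 0), (0, 0), (0, 0), (0, -1), (0, -1), (0, -1), (0,
    -1), (0, -1), (0, 0)]

/-- glued arcs and equations -/
def tord7r_131 : TorT :=
  ⟨[(0, 0, false), (0, 3, false), (1, 3, true), (1, 4, false), (2, 2, true), (2, 5, false), (4, 4, false), (5, 5,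
    true), (5, 6, false), (6, 6, false)],
    [([0, 0, 0, 0, 0, 2, 1], 2), ([0, 0, 1, 0, 0, 1, 0], 2), ([0, 0, 1, 1, 0, 0, 0], 2), ([0, 1, 0, 0, 2, 0, 0], 2),
    ([0, 2, 0, 0, 1, 0, 0], 2), ([1, 0, 0, 1, 0, 0, 2], 2), ([4, 0, 0, 0, 0, 0, 0], 2)]⟩

theorem tord7r_131_ok : tord7r_131.OK 7 := TT.leaf_ok (T := ttd7r_131) (by decide +kernel)

end Pool.Agent.Lib_MP_fa6e45
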