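import Pool.Agent.Lib_MP_fa6e45.CT5

/-!
MP_fa6e45_co, stage 9: straight-side patterns with `7` sides, tables of tori (generated by a program).
-/

namespace Pool.Agent.Lib_MP_fa6e45

/-- the torus -/
def ttd7r_143 : TT where
  k := 2
  rf := [false, true]
  tau := [3, 7, 13, 0, 6, 10, 4, 1, 12, 11, 5, 9, 8, 2]
  par := [0, 1]
  stars := [[0, 4], [1, 3, 7], [2, 8, 13], [5, 6, 11, 10], [9, 12]]
  word := [[3], [], [2], [2], [0, 2, 1], [0], [0, 3, 1], [], [2], [2], [1], [3], [3], [3]]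
  rank := [2, 0, 1, 2, 2, 0, 2, 0, 0, 1, 0, 1, 0, 1]
  just := [1, 0, 2, 1, 3, 0, 3, 0, 0, 4, 0, 4, 0, 2]
  gA := 5
  gB := 8
  fin := 0
  sid := [0, 1, 2, 1, 0, 3, 3, 1, 2, 4, 3, 3, 4, 2]
  off := [(0, 0), (0, 0), (0, 0), (0, 1), (0, 1), (0, 0), (0, -1), (0, 0), (0, 0), (0, 0), (-1, 0), (-1, -1), (0,
    -1), (0, -1)]

/-- glued arcs and equations -/
def tord7r_143 : TorT :=
  ⟨[(0, 1, false), (0, 3, true), (1, 5, true), (2, 4, true), (2, 6, false), (3, 5, false), (4, 6, true)],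
    [([0, 0, 0, 1, 1, 1, 1], 2), ([0, 0, 1, 0, 0, 1, 0], 2), ([0, 1, 1, 0, 0, 0, 1], 2), ([1, 0, 0, 0, 1, 0, 0], 2),
    ([1, 1, 0, 1, 0, 0, 0], 2)]⟩

theorem tord7r_143_ok : tord7r_143.OK 7 := TT.leaf_ok (T := ttd7r_143) (by decide +kernel)

/-- the torus -/
def ttd7r_144 : TT where
  k := 2
  rf := [false, false]
  tau := [5, 12, 11, 7, 13, 0, 9, 3, 10, 6, 8, 2, 1, 4]
  par := [0, 1]
  stars := [[0, 9, 10, 6], [1, 5, 13], [2, 12], [3, 11, 8], [4, 7]]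
  word := [[1], [], [], [0], [0], [0], [2], [1], [1], [3], [0], [], [], [1]]
  rank := [2, 0, 1, 0, 1, 2, 0, 0, 2, 0, 2, 1, 0, 1]
  just := [1, 0, 2, 0, 4, 1, 0, 0, 3, 0, 3, 2, 0, 4]
  gA := 3
  gB := 6
  fin := 0
  sid := [0, 1, 2, 3, 4, 1, 0, 4, 3, 0, 0, 3, 2, 1]
  off := [(0, 0), (0, 0), (0, 0), (0, 0), (0, 0), (1, 0), (1, 0), (-1, 0), (-1, 0), (0, -1), (1, -1), (0, 0), (0, 0),
    (0, 0)]

/-- glued arcs and equations -/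
def tord7r_144 : TorT :=
  ⟨[(0, 3, true), (0, 5, true), (1, 3, true), (1, 5, true), (2, 4, true), (2, 6, true), (4, 6, true)],
    [([0, 0, 1, 0, 0, 1, 0], 2), ([0, 1, 0, 0, 0, 1, 1], 2), ([0, 1, 0, 1, 1, 0, 0], 2), ([1, 0, 0, 0, 1, 0, 0], 2),
    ([1, 0, 1, 1, 0, 0, 1], 2)]⟩

theorem tord7r_144_ok : tord7r_144.OK 7 := TT.leaf_ok (T := ttd7r_144) (by decide +kernel)

/-- the torus -/
def ttd7r_145 : TT where
  k := 4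
  rf := [false, false, false, false]
  tau := [7, 14, 20, 19, 16, 15, 13, 0, 21, 27, 26, 23, 22, 6, 1, 5, 4, 24, 25, 3, 2, 8, 12, 11, 17, 18, 10, 9]
  par := [0, 0, 1, 8]
  stars := [[0, 13, 22, 8], [1, 7, 6, 15], [2, 14], [3, 20], [4, 19, 25, 17], [5, 16], [9, 21], [10, 27], [11, 26,
    18, 24], [12, 23]]
  word := [[], [], [], [], [2, 1], [2, 1], [2, 1], [], [], [], [], [3, 0], [3, 0], [0, 3], [], [0, 3], [0, 3], [0],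
    [2], [], [], [], [1, 2], [1, 2], [1], [3], [], []]
  rank := [0, 0, 1, 2, 3, 4, 5, 0, 0, 1, 2, 3, 4, 5, 0, 4, 3, 0, 0, 2, 1, 0, 4, 3, 0, 0, 2, 1]
  just := [0, 0, 2, 3, 4, 5, 1, 0, 0, 6, 7, 8, 9, 1, 0, 5, 4, 0, 0, 3, 2, 0, 9, 8, 0, 0, 7, 6]
  gA := 17
  gB := 18
  fin := 0
  sid := [0, 1, 2, 3, 4, 5, 1, 1, 0, 6, 7, 8, 9, 0, 2, 1, 5, 4, 8, 4, 3, 6, 0, 9, 8, 4, 8, 7]
  off := [(0, 0), (0, 0), (0, 0), (0, 0), (0, 0), (0, 0), (-1, 1), (0, 0), (0, 0), (0, 0), (0, 0), (0, 0), (0, 0),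
    (1, -1), (0, 0), (0, 0), (1, -1), (1, -1), (0, 1), (0, 0), (0, 0), (0, 0), (0, 0), (-1, 1), (-1, 1), (0, -1), (0,
    0), (0, 0)]

/-- glued arcs and equations -/
def tord7r_145 : TorT :=
  ⟨[(0, 0, true), (0, 1, true), (1, 5, true), (2, 4, true), (2, 6, true), (3, 3, true), (3, 5, true), (4, 4, true),
    (6, 6, true)],
    [([0, 0, 0, 1, 0, 0, 1], 2), ([0, 0, 0, 1, 2, 1, 0], 2), ([0, 0, 1, 0, 0, 1, 0], 2), ([1, 0, 1, 0, 0, 0, 0], 2),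
    ([1, 2, 0, 0, 0, 0, 1], 2)]⟩

theorem tord7r_145_ok : tord7r_145.OK 7 := TT.leaf_ok (T := ttd7r_145) (by decide +kernel)

/-- the torus -/
def ttd7r_146 : TT where
  k := 4
  rf := [false, false, true, true]
  tau := [8, 12, 11, 14, 20, 10, 9, 24, 0, 6, 5, 2, 1, 25, 3, 21, 27, 26, 23, 22, 4, 15, 19, 18, 7, 13, 17, 16]
  par := [0, 0, 3, 7]
  stars := [[0, 9], [1, 8, 25, 13], [2, 12], [3, 11, 5, 14], [4, 15, 22, 20], [6, 10], [7, 26, 18, 24], [16, 21],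
    [17, 27], [19, 23]]
  word := [[], [1, 2], [1, 2], [], [0, 3], [0, 3, 1, 2], [0, 3, 1, 2], [], [], [3, 0, 2, 1], [3, 0, 2, 1], [3, 0],
    [3, 0], [3, 0], [], [0], [0], [0], [2], [2], [2, 1], [1], [3], [3], [], [1, 2], [1], [1]]
  rank := [0, 2, 3, 0, 3, 4, 5, 0, 0, 5, 4, 3, 2, 1, 0, 2, 1, 0, 0, 1, 3, 2, 1, 0, 0, 1, 0, 1]
  just := [0, 1, 2, 0, 4, 3, 5, 0, 0, 5, 3, 2, 1, 6, 0, 7, 8, 0, 0, 9, 4, 7, 9, 0, 0, 6, 0, 8]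
  gA := 17
  gB := 18
  fin := 0
  sid := [0, 1, 2, 3, 4, 3, 5, 6, 1, 0, 5, 3, 2, 1, 3, 4, 7, 8, 6, 9, 4, 7, 4, 9, 6, 1, 6, 8]
  off := [(0, 0), (0, 0), (0, 0), (0, 0), (0, 0), (1, -1), (0, 0), (0, 0), (0, 0), (0, 0), (0, 0), (1, -1), (1, -1),
    (1, -1), (0, 0), (0, 0), (0, 0), (0, 0), (0, 1), (0, 0), (-1, 1), (-1, 0), (-1, 0), (0, -1), (0, 0), (0, 0), (-1,
    1), (-1, 0)]

/-- glued arcs and equations -/
def tord7r_146 : TorT :=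
  ⟨[(0, 1, true), (0, 3, false), (1, 5, true), (2, 4, true), (2, 6, true), (3, 5, true), (4, 6, false)],
    [([0, 0, 0, 1, 0, 0, 1], 2), ([0, 0, 1, 0, 0, 1, 0], 2), ([0, 2, 0, 0, 1, 0, 1], 2), ([1, 0, 0, 1, 1, 1, 0], 2),
    ([1, 0, 1, 0, 0, 0, 0], 2)]⟩

theorem tord7r_146_ok : tord7r_146.OK 7 := TT.leaf_ok (T := ttd7r_146) (by decide +kernel)

/-- the torus -/
def ttd7r_147 : TT where
  k := 8
  rf := [false, false, false, true, false, true, true, true]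
  tau := [8, 10, 16, 19, 18, 17, 9, 26, 0, 6, 1, 27, 21, 25, 29, 31, 2, 5, 4, 3, 30, 12, 35, 41, 36, 13, 7, 11, 47,
    14, 20, 15, 48, 42, 46, 22, 24, 51, 54, 53, 52, 23, 33, 49, 55, 50, 34, 28, 32, 43, 45, 37, 40, 39, 38, 44]
  par := [0, 0, 2, 7, 14, 22, 28, 37]
  stars := [[0, 9], [1, 8, 27, 11], [2, 10, 6, 17], [3, 16, 31, 20], [4, 19], [5, 18], [7, 26], [12, 21], [13, 22,
    36, 25], [14, 30], [15, 29, 48, 32], [23, 35], [24, 37, 52, 41], [28, 47], [33, 42], [34, 43, 50, 46], [38, 55,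
    45, 51], [39, 54], [40, 53], [44, 49]]
  word := [[], [1, 2], [], [0, 3], [0, 3], [0, 3], [0, 3, 1, 2], [], [], [3, 0, 2, 1], [3, 0], [3, 0], [3, 0], [],
    [], [0, 3], [], [2, 1], [2, 1], [2, 1], [], [1, 2], [], [], [3, 0], [], [], [1, 2], [], [], [], [2, 1], [2, 1],
    [2, 1], [], [], [1, 2], [], [3, 0], [3, 0], [3, 0], [], [0, 3], [0], [0], [2], [], [], [0, 3], [1], [3], [], [1,
    2], [1, 2], [1, 2], [1]]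
  rank := [0, 7, 0, 5, 6, 7, 8, 0, 0, 8, 7, 6, 5, 1, 0, 4, 0, 7, 6, 5, 1, 5, 0, 1, 4, 1, 0, 6, 0, 0, 1, 4, 3, 2, 1,
    0, 4, 0, 1, 2, 3, 1, 2, 1, 0, 0, 1, 0, 3, 1, 0, 0, 3, 2, 1, 0]
  just := [0, 1, 0, 3, 4, 5, 2, 0, 0, 2, 1, 7, 8, 6, 0, 10, 0, 5, 4, 3, 9, 8, 0, 11, 12, 6, 0, 7, 0, 0, 9, 10, 14,
    15, 13, 0, 12, 0, 16, 17, 18, 11, 15, 19, 0, 0, 13, 0, 14, 19, 0, 0, 18, 17, 16, 0]
  gA := 44
  gB := 45
  fin := 0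
  sid := [0, 1, 2, 3, 4, 5, 2, 6, 1, 0, 2, 1, 7, 8, 9, 10, 3, 2, 5, 4, 3, 7, 8, 11, 12, 8, 6, 1, 13, 10, 9, 3, 10,
    14, 15, 11, 8, 12, 16, 17, 18, 12, 14, 15, 19, 16, 15, 13, 10, 19, 15, 16, 12, 18, 17, 16]
  off := [(0, 0), (0, 0), (0, 0), (0, 0), (0, 0), (0, 0), (1, -1), (0, 0), (0, 0), (0, 0), (1, -1), (1, -1), (0, 0),
    (0, 0), (0, 0), (0, 0), (0, 0), (0, 0), (-1, 1), (-1, 1), (-1, 1), (-1, 1), (-1, 1), (0, 0), (0, 0), (0, 0), (0,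
    0), (0, 0), (0, 0), (0, 0), (0, 0), (-1, 1), (-1, 1), (0, 0), (0, 0), (0, 0), (-1, 1), (-1, 1), (0, 0), (0, 0),
    (0, 0), (0, 0), (1, -1), (1, -1), (0, 0), (0, 1), (0, 0), (0, 0), (0, 0), (-1, 0), (0, -1), (0, 0), (-1, 1), (-1,
    1), (-1, 1), (-1, 1)]

/-- glued arcs and equations -/
def tord7r_147 : TorT :=
  ⟨[(0, 1, true), (0, 5, false), (1, 3, true), (2, 2, true), (2, 6, true), (3, 5, true), (4, 4, true), (4, 6, false)],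
    [([0, 0, 0, 0, 1, 1, 0], 2), ([0, 0, 1, 2, 0, 0, 1], 2), ([0, 2, 0, 0, 1, 0, 1], 2), ([1, 0, 0, 0, 0, 1, 0], 2),
    ([1, 0, 1, 0, 0, 0, 0], 2)]⟩

theorem tord7r_147_ok : tord7r_147.OK 7 := TT.leaf_ok (T := ttd7r_147) (by decide +kernel)

/-- the torus -/
def ttd7r_148 : TT where
  k := 8
  rf := [false, false, true, false, true, false, true, true]
  tau := [8, 17, 18, 19, 25, 14, 9, 33, 0, 6, 29, 30, 31, 41, 5, 28, 34, 1, 2, 3, 48, 36, 45, 46, 47, 4, 42, 37, 15,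
    10, 11, 12, 53, 7, 16, 54, 21, 27, 50, 51, 52, 13, 26, 49, 55, 22, 23, 24, 20, 43, 38, 39, 40, 32, 35, 44]
  par := [0, 0, 1, 4, 7, 13, 20, 32]
  stars := [[0, 9], [1, 8, 34, 17], [2, 18], [3, 19], [4, 20, 42, 26], [5, 25, 48, 14], [6, 15, 29, 10], [7, 41, 53,
    33], [11, 30], [12, 31], [13, 32, 54, 35], [16, 28], [21, 37], [22, 36, 55, 45], [23, 46], [24, 47], [27, 43, 50,
    38], [39, 51], [40, 52], [44, 49]]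
  word := [[], [], [], [], [], [2, 0, 3], [2, 0, 3, 1], [], [], [0, 2, 1, 3], [0], [0], [0], [], [2, 1, 3], [], [],
    [], [], [], [], [2], [2, 0, 3], [2, 0, 3], [2, 0, 3], [], [], [2], [], [1], [1], [1], [], [], [], [0], [3], [3],
    [], [], [], [], [], [2], [2], [2, 1, 3], [2, 1, 3], [2, 1, 3], [], [3], [], [], [], [], [1], [3]]
  rank := [0, 0, 1, 2, 0, 9, 10, 0, 0, 10, 3, 2, 1, 0, 9, 2, 1, 0, 1, 2, 0, 5, 6, 7, 8, 0, 3, 4, 2, 3, 2, 1, 0, 0, 1,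
    0, 5, 4, 3, 2, 1, 0, 3, 0, 1, 6, 7, 8, 0, 0, 3, 2, 1, 0, 0, 1]
  just := [0, 0, 2, 3, 0, 5, 6, 0, 0, 6, 8, 9, 10, 0, 5, 11, 1, 0, 2, 3, 0, 12, 13, 14, 15, 0, 4, 16, 11, 8, 9, 10,
    0, 0, 1, 0, 12, 16, 17, 18, 7, 0, 4, 0, 19, 13, 14, 15, 0, 0, 17, 18, 7, 0, 0, 19]
  gA := 35
  gB := 43
  fin := 0
  sid := [0, 1, 2, 3, 4, 5, 6, 7, 1, 0, 6, 8, 9, 10, 5, 6, 11, 1, 2, 3, 4, 12, 13, 14, 15, 5, 4, 16, 11, 6, 8, 9, 10,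
    7, 1, 10, 13, 12, 16, 17, 18, 7, 4, 16, 19, 13, 14, 15, 5, 19, 16, 17, 18, 7, 10, 13]
  off := [(0, 0), (0, 0), (0, 0), (0, 0), (0, 0), (0, 0), (0, 0), (0, 0), (0, 0), (0, 0), (0, 0), (0, 0), (0, 0), (0,
    0), (-1, 0), (-1, 0), (0, 0), (0, 0), (0, 0), (0, 0), (0, 0), (0, 0), (0, 0), (0, 0), (0, 0), (0, 0), (0, 0), (0,
    0), (0, 0), (-1, 0), (-1, 0), (-1, 0), (-1, 0), (0, 0), (0, 0), (0, 0), (0, -1), (0, -1), (0, -1), (0, 0), (0,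
    0), (0, 0), (0, 0), (0, 0), (0, 0), (-1, 0), (-1, 0), (-1, 0), (-1, 0), (0, -1), (0, -1), (0, 0), (0, 0), (0, 0),
    (-1, 0), (-1, -1)]

/-- glued arcs and equations -/
def tord7r_148 : TorT :=
  ⟨[(0, 1, true), (0, 5, false), (1, 3, false), (2, 4, false), (2, 6, true), (3, 5, false), (4, 4, true), (6, 6,
    true)],
    [([0, 0, 0, 1, 0, 1, 0], 2), ([0, 0, 1, 0, 1, 0, 0], 2), ([0, 2, 0, 1, 0, 0, 1], 2), ([1, 0, 0, 0, 1, 1, 1], 2),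
    ([1, 0, 1, 0, 0, 0, 0], 2)]⟩

theorem tord7r_148_ok : tord7r_148.OK 7 := TT.leaf_ok (T := ttd7r_148) (by decide +kernel)

/-- the torus -/
def ttd7r_149 : TT where
  k := 8
  rf := [false, false, false, false, true, true, true, true]
  tau := [7, 14, 20, 19, 13, 12, 11, 0, 21, 27, 26, 6, 5, 4, 1, 31, 32, 29, 30, 3, 2, 8, 38, 39, 36, 37, 10, 9, 43,
    17, 18, 15, 16, 45, 44, 50, 24, 25, 22, 23, 52, 51, 49, 28, 34, 33, 55, 54, 53, 42, 35, 41, 40, 48, 47, 46]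
  par := [0, 0, 1, 8, 15, 22, 28, 35]
  stars := [[0, 11, 26, 38, 22, 8], [1, 7, 4, 19, 31, 15], [2, 14], [3, 20], [5, 13], [6, 12], [9, 21], [10, 27],
    [16, 32], [17, 33, 46, 49, 43, 29], [18, 30], [23, 39], [24, 40, 53, 42, 50, 36], [25, 37], [28, 44], [34, 45],
    [35, 51], [41, 52], [47, 55], [48, 54]]
  word := [[], [], [], [], [0], [0], [0], [], [], [], [], [1], [1], [1], [], [], [], [0], [0], [], [], [], [], [],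
    [3, 1, 2], [3, 1, 2], [], [], [], [1], [1], [], [], [], [], [], [3, 0, 2], [3, 0, 2], [], [], [], [], [1, 2], [],
    [], [], [2], [2], [2], [3, 0], [], [], [], [3], [3], [3]]
  rank := [0, 0, 1, 2, 3, 4, 5, 0, 0, 1, 2, 5, 4, 3, 0, 0, 1, 0, 1, 2, 1, 0, 0, 1, 4, 5, 2, 1, 0, 0, 1, 0, 1, 2, 1,
    0, 4, 5, 0, 1, 2, 1, 3, 0, 1, 2, 1, 0, 1, 3, 0, 1, 2, 1, 0, 1]
  just := [0, 0, 2, 3, 1, 4, 5, 0, 0, 6, 7, 5, 4, 1, 0, 0, 8, 0, 10, 3, 2, 0, 0, 11, 12, 13, 7, 6, 0, 0, 10, 0, 8,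
    15, 14, 0, 12, 13, 0, 11, 17, 16, 9, 0, 14, 15, 18, 0, 19, 9, 0, 16, 17, 19, 0, 18]
  gA := 17
  gB := 47
  fin := 0
  sid := [0, 1, 2, 3, 1, 4, 5, 1, 0, 6, 7, 0, 5, 4, 2, 1, 8, 9, 10, 1, 3, 6, 0, 11, 12, 13, 0, 7, 14, 9, 10, 1, 8, 9,
    15, 16, 12, 13, 0, 11, 12, 17, 12, 9, 14, 15, 9, 18, 19, 9, 12, 16, 17, 12, 19, 18]
  off := [(0, 0), (0, 0), (0, 0), (0, 0), (1, 0), (0, 0), (0, 0), (0, 0), (0, 0), (0, 0), (0, 0), (-1, 0), (-1, 0),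
    (-1, 0), (0, 0), (0, 0), (0, 0), (0, 0), (0, 0), (1, 0), (0, 0), (0, 0), (0, 0), (0, 0), (0, 0), (0, 0), (-1, 0),
    (0, 0), (0, 0), (-1, 0), (-1, 0), (0, 0), (0, 0), (0, 0), (0, 0), (0, 0), (1, 0), (1, 0), (0, 0), (0, 0), (0, 0),
    (0, 0), (0, 1), (-1, 0), (0, 0), (0, 0), (0, 0), (0, 0), (0, 0), (0, -1), (1, 0), (0, 0), (0, 0), (0, 0), (0,
    -1), (0, -1)]

/-- glued arcs and equations -/
def tord7r_149 : TorT :=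
  ⟨[(0, 0, true), (0, 1, true), (1, 3, false), (2, 4, false), (2, 6, true), (3, 5, true), (4, 6, true), (5, 5, true)],
    [([0, 0, 0, 0, 0, 1, 1], 2), ([0, 0, 0, 1, 0, 0, 1], 2), ([0, 0, 1, 0, 1, 0, 0], 2), ([1, 0, 1, 0, 0, 0, 0], 2),
    ([1, 2, 0, 1, 1, 1, 0], 2)]⟩

theorem tord7r_149_ok : tord7r_149.OK 7 := TT.leaf_ok (T := ttd7r_149) (by decide +kernel)

/-- the torus -/
def ttd7r_150 : TT where
  k := 8
  rf := [false, false, false, true, false, true, true, true]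
  tau := [8, 10, 18, 17, 16, 19, 9, 26, 0, 6, 1, 27, 21, 25, 29, 31, 4, 3, 2, 5, 30, 12, 35, 41, 36, 13, 7, 11, 47,
    14, 20, 15, 48, 42, 46, 22, 24, 53, 52, 51, 54, 23, 33, 49, 55, 50, 34, 28, 32, 43, 45, 39, 38, 37, 40, 44]
  par := [0, 0, 2, 7, 14, 22, 28, 37]
  stars := [[0, 9], [1, 8, 27, 11], [2, 10, 6, 19], [3, 18], [4, 17], [5, 16, 31, 20], [7, 26], [12, 21], [13, 22,
    36, 25], [14, 30], [15, 29, 48, 32], [23, 35], [24, 37, 54, 41], [28, 47], [33, 42], [34, 43, 50, 46], [38, 53],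
    [39, 52], [40, 55, 45, 51], [44, 49]]
  word := [[], [1, 2], [], [], [], [0, 3], [0, 3, 1, 2], [], [], [3, 0, 2, 1], [3, 0], [3, 0], [3, 0], [], [], [0,
    3], [], [], [], [2, 1], [], [1, 2], [], [], [3, 0], [], [], [1, 2], [], [], [], [2, 1], [2, 1], [2, 1], [], [],
    [1, 2], [], [], [], [3, 0], [], [0, 3], [0], [0], [2], [], [], [0, 3], [1], [3], [], [], [], [1, 2], [1]]
  rank := [0, 7, 0, 1, 2, 5, 8, 0, 0, 8, 7, 6, 5, 1, 0, 4, 2, 1, 0, 5, 1, 5, 0, 1, 4, 1, 0, 6, 0, 0, 1, 4, 3, 2, 1,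
    0, 4, 0, 1, 2, 3, 1, 2, 1, 0, 0, 1, 0, 3, 1, 0, 2, 1, 0, 3, 0]
  just := [0, 1, 0, 3, 4, 5, 2, 0, 0, 2, 1, 7, 8, 6, 0, 10, 4, 3, 0, 5, 9, 8, 0, 11, 12, 6, 0, 7, 0, 0, 9, 10, 14,
    15, 13, 0, 12, 0, 16, 17, 18, 11, 15, 19, 0, 0, 13, 0, 14, 19, 0, 17, 16, 0, 18, 0]
  gA := 44
  gB := 45
  fin := 0
  sid := [0, 1, 2, 3, 4, 5, 2, 6, 1, 0, 2, 1, 7, 8, 9, 10, 5, 4, 3, 2, 5, 7, 8, 11, 12, 8, 6, 1, 13, 10, 9, 5, 10,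
    14, 15, 11, 8, 12, 16, 17, 18, 12, 14, 15, 19, 18, 15, 13, 10, 19, 15, 18, 17, 16, 12, 18]
  off := [(0, 0), (0, 0), (0, 0), (0, 0), (0, 0), (0, 0), (1, -1), (0, 0), (0, 0), (0, 0), (1, -1), (1, -1), (0, 0),
    (0, 0), (0, 0), (0, 0), (0, 0), (0, 0), (0, 0), (0, 0), (-1, 1), (-1, 1), (-1, 1), (0, 0), (0, 0), (0, 0), (0,
    0), (0, 0), (0, 0), (0, 0), (0, 0), (-1, 1), (-1, 1), (0, 0), (0, 0), (0, 0), (-1, 1), (-1, 1), (0, 0), (0, 0),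
    (0, 0), (0, 0), (1, -1), (1, -1), (0, 0), (0, 1), (0, 0), (0, 0), (0, 0), (-1, 0), (0, -1), (0, 0), (0, 0), (0,
    0), (-1, 1), (-1, 1)]

/-- glued arcs and equations -/
def tord7r_150 : TorT :=
  ⟨[(0, 1, true), (0, 5, false), (1, 3, true), (2, 4, true), (2, 6, true), (3, 3, true), (4, 6, false), (5, 5, true)],
    [([0, 0, 0, 1, 1, 0, 0], 2), ([0, 0, 1, 1, 0, 1, 1], 2), ([0, 2, 0, 0, 1, 0, 1], 2), ([1, 0, 0, 0, 0, 1, 0], 2),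
    ([1, 0, 1, 0, 0, 0, 0], 2)]⟩

theorem tord7r_150_ok : tord7r_150.OK 7 := TT.leaf_ok (T := ttd7r_150) (by decide +kernel)

/-- the torus -/
def ttd7r_151 : TT where
  k := 8
  rf := [false, false, true, true, false, false, true, true]
  tau := [7, 8, 6, 15, 16, 14, 2, 0, 1, 13, 22, 23, 21, 9, 5, 3, 4, 33, 34, 31, 32, 12, 10, 11, 40, 41, 38, 39, 47,
    45, 46, 19, 20, 17, 18, 54, 52, 53, 26, 27, 24, 25, 49, 50, 48, 29, 30, 28, 44, 42, 43, 55, 36, 37, 35, 51]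
  par := [0, 0, 3, 10, 17, 24, 28, 35]
  stars := [[0, 2, 8], [1, 7, 9], [3, 6, 15], [4, 16], [5, 17, 33, 14], [10, 13, 22], [11, 23], [12, 24, 40, 21],
    [18, 34], [19, 31, 47, 28], [20, 32], [25, 41], [26, 38, 54, 35], [27, 39], [29, 48, 45], [30, 46], [36, 55, 52],
    [37, 53], [42, 50, 44], [43, 51, 49]]
  word := [[], [1, 2], [2, 1], [], [], [0, 3], [0, 3], [], [3, 0], [3, 0], [], [], [1, 2], [1, 2], [2, 1], [], [],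
    [], [], [2, 1], [2, 1], [3, 0], [], [], [], [], [3, 0], [3, 0], [], [0, 3], [0, 3], [0, 3], [0, 3], [], [], [],
    [1, 2], [1, 2], [1, 2], [1, 2], [], [], [0], [2], [2, 1], [2, 1], [2, 1], [], [0, 3], [1], [3], [3, 0], [3, 0],
    [3, 0], [], [1, 2]]
  rank := [0, 8, 7, 0, 1, 6, 7, 0, 8, 7, 0, 1, 6, 7, 6, 0, 1, 0, 1, 4, 5, 6, 0, 1, 0, 1, 4, 5, 0, 2, 3, 4, 5, 0, 1,
    0, 2, 3, 4, 5, 0, 1, 0, 0, 1, 2, 3, 0, 1, 0, 0, 1, 2, 3, 0, 1]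
  just := [0, 1, 2, 0, 3, 4, 2, 0, 1, 5, 0, 6, 7, 5, 4, 0, 3, 0, 8, 9, 10, 7, 0, 6, 0, 11, 12, 13, 0, 14, 15, 9, 10,
    0, 8, 0, 16, 17, 12, 13, 0, 11, 0, 0, 18, 14, 15, 0, 18, 0, 0, 19, 16, 17, 0, 19]
  gA := 42
  gB := 43
  fin := 0
  sid := [0, 1, 0, 2, 3, 4, 2, 1, 0, 1, 5, 6, 7, 5, 4, 2, 3, 4, 8, 9, 10, 7, 5, 6, 7, 11, 12, 13, 9, 14, 15, 9, 10,
    4, 8, 12, 16, 17, 12, 13, 7, 11, 18, 19, 18, 14, 15, 9, 14, 19, 18, 19, 16, 17, 12, 16]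
  off := [(0, 0), (0, 0), (-1, 1), (0, 0), (0, 0), (0, 0), (1, -1), (0, 0), (0, 0), (1, -1), (0, 0), (0, 0), (0, 0),
    (-1, 1), (-1, 1), (0, 0), (0, 0), (0, 0), (0, 0), (0, 0), (0, 0), (1, -1), (0, 0), (0, 0), (0, 0), (0, 0), (0,
    0), (0, 0), (0, 0), (0, 0), (0, 0), (1, -1), (1, -1), (0, 0), (0, 0), (0, 0), (0, 0), (0, 0), (-1, 1), (-1, 1),
    (0, 0), (0, 0), (0, 0), (0, 0), (-1, 1), (-1, 1), (-1, 1), (0, 0), (0, 0), (-1, 0), (-1, 0), (0, -1), (1, -1),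
    (1, -1), (0, 0), (0, 0)]

/-- glued arcs and equations -/
def tord7r_151 : TorT :=
  ⟨[(0, 0, true), (0, 5, false), (1, 1, true), (1, 3, false), (2, 4, false), (2, 6, true), (3, 5, false), (4, 6,
    false)],
    [([0, 0, 0, 0, 1, 0, 1], 2), ([0, 0, 1, 0, 1, 0, 0], 2), ([0, 1, 0, 1, 0, 0, 1], 2), ([1, 0, 0, 1, 0, 2, 0], 2),
    ([1, 1, 1, 0, 0, 0, 0], 2)]⟩

theorem tord7r_151_ok : tord7r_151.OK 7 := TT.leaf_ok (T := ttd7r_151) (by decide +kernel)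

/-- the torus -/
def ttd7r_152 : TT where
  k := 8
  rf := [false, false, true, true, false, false, true, true]
  tau := [7, 8, 6, 19, 20, 14, 2, 0, 1, 13, 26, 27, 21, 9, 5, 31, 32, 29, 30, 3, 4, 12, 38, 39, 36, 37, 10, 11, 47,
    17, 18, 15, 16, 45, 46, 54, 24, 25, 22, 23, 52, 53, 49, 50, 48, 33, 34, 28, 44, 42, 43, 55, 40, 41, 35, 51]
  par := [0, 0, 3, 10, 15, 22, 28, 35]
  stars := [[0, 2, 8], [1, 7, 9], [3, 6, 15, 31, 19], [4, 20], [5, 14], [10, 13, 22, 38, 26], [11, 27], [12, 21],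
    [16, 32], [17, 29, 48, 45, 33], [18, 30], [23, 39], [24, 36, 55, 52, 40], [25, 37], [28, 47], [34, 46], [35, 54],
    [41, 53], [42, 50, 44], [43, 51, 49]]
  word := [[], [1, 2], [2, 1], [], [], [], [0, 3], [], [3, 0], [3, 0], [], [], [], [1, 2], [], [], [], [2, 1], [2,
    1], [], [], [], [], [], [3, 0], [3, 0], [], [], [], [0, 3], [0, 3], [], [], [], [], [], [1, 2], [1, 2], [], [],
    [], [], [0], [2], [2, 1], [], [], [], [0, 3], [1], [3], [3, 0], [], [], [], [1, 2]]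
  rank := [0, 6, 5, 0, 1, 2, 5, 0, 6, 5, 0, 1, 2, 5, 2, 0, 1, 3, 4, 0, 1, 2, 0, 1, 3, 4, 0, 1, 0, 3, 4, 0, 1, 2, 1,
    0, 3, 4, 0, 1, 2, 1, 0, 0, 1, 2, 1, 0, 1, 0, 0, 1, 2, 1, 0, 1]
  just := [0, 1, 2, 0, 3, 4, 2, 0, 1, 5, 0, 6, 7, 5, 4, 0, 8, 9, 10, 0, 3, 7, 0, 11, 12, 13, 0, 6, 0, 9, 10, 0, 8,
    15, 14, 0, 12, 13, 0, 11, 17, 16, 0, 0, 18, 15, 14, 0, 18, 0, 0, 19, 17, 16, 0, 19]
  gA := 42
  gB := 43
  fin := 0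
  sid := [0, 1, 0, 2, 3, 4, 2, 1, 0, 1, 5, 6, 7, 5, 4, 2, 8, 9, 10, 2, 3, 7, 5, 11, 12, 13, 5, 6, 14, 9, 10, 2, 8, 9,
    15, 16, 12, 13, 5, 11, 12, 17, 18, 19, 18, 9, 15, 14, 9, 19, 18, 19, 12, 17, 16, 12]
  off := [(0, 0), (0, 0), (-1, 1), (0, 0), (0, 0), (0, 0), (1, -1), (0, 0), (0, 0), (1, -1), (0, 0), (0, 0), (0, 0),
    (-1, 1), (0, 0), (1, -1), (0, 0), (0, 0), (0, 0), (0, 0), (0, 0), (0, 0), (-1, 1), (0, 0), (0, 0), (0, 0), (0,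
    0), (0, 0), (0, 0), (1, -1), (1, -1), (1, -1), (0, 0), (0, 0), (0, 0), (0, 0), (-1, 1), (-1, 1), (-1, 1), (0, 0),
    (0, 0), (0, 0), (0, 0), (0, 0), (-1, 1), (0, 0), (0, 0), (0, 0), (1, -1), (-1, 0), (-1, 0), (0, -1), (0, 0), (0,
    0), (0, 0), (-1, 1)]

/-- glued arcs and equations -/
def tord7r_152 : TorT :=
  ⟨[(0, 0, true), (0, 5, false), (1, 1, true), (1, 3, false), (2, 4, false), (2, 6, true), (3, 5, false), (4, 6,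
    false)],
    [([0, 0, 0, 0, 1, 0, 1], 2), ([0, 0, 1, 0, 1, 0, 0], 2), ([0, 1, 0, 2, 0, 1, 1], 2), ([1, 0, 0, 0, 0, 1, 0], 2),
    ([1, 1, 1, 0, 0, 0, 0], 2)]⟩

theorem tord7r_152_ok : tord7r_152.OK 7 := TT.leaf_ok (T := ttd7r_152) (by decide +kernel)

/-- the torus -/
def ttd7r_153 : TT where
  k := 4
  rf := [false, true, true, false]
  tau := [8, 17, 18, 24, 20, 14, 27, 26, 0, 16, 22, 23, 19, 25, 5, 21, 9, 1, 2, 12, 4, 15, 10, 11, 3, 13, 7, 6]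
  par := [0, 0, 1, 3]
  stars := [[0, 27, 8], [1, 9, 17], [2, 18], [3, 19, 13, 25], [4, 24, 12, 20], [5, 14], [6, 15, 21], [7, 26], [10,
    22, 16], [11, 23]]
  word := [[], [], [], [], [1, 2], [1, 2], [1, 2, 0], [2], [], [], [0], [0], [2], [2], [3, 0], [0], [], [], [], [3],
    [3, 0], [1], [1], [1], [], [3], [3], [1, 3, 0]]
  rank := [0, 0, 1, 0, 1, 2, 3, 3, 0, 1, 1, 0, 0, 2, 2, 2, 1, 0, 1, 0, 1, 2, 1, 0, 0, 2, 3, 3]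
  just := [0, 0, 2, 0, 4, 5, 6, 7, 0, 1, 9, 0, 0, 3, 5, 8, 1, 0, 2, 0, 4, 8, 9, 0, 0, 3, 7, 6]
  gA := 11
  gB := 12
  fin := 0
  sid := [0, 1, 2, 3, 4, 5, 6, 7, 0, 1, 8, 9, 4, 3, 5, 6, 8, 1, 2, 3, 4, 6, 8, 9, 4, 3, 7, 0]
  off := [(0, 0), (0, 0), (0, 0), (0, 0), (0, 0), (0, 0), (0, 0), (0, 0), (0, 0), (0, 0), (0, 0), (0, 0), (1, 0), (0,
    1), (1, -1), (1, -1), (0, 0), (0, 0), (0, 0), (0, 0), (1, -1), (0, -1), (-1, 0), (-1, 0), (0, 0), (0, 0), (0,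
    -1), (0, -1)]

/-- glued arcs and equations -/
def tord7r_153 : TorT :=
  ⟨[(0, 1, false), (0, 5, false), (1, 3, false), (2, 2, true), (2, 4, false), (3, 3, true), (4, 6, false), (5, 5,
    true), (6, 6, true)],
    [([0, 0, 0, 1, 1, 1, 1], 2), ([0, 0, 1, 0, 1, 0, 0], 2), ([0, 1, 1, 1, 0, 0, 0], 2), ([1, 0, 0, 0, 0, 1, 0], 2),
    ([1, 1, 0, 0, 0, 0, 1], 2)]⟩

theorem tord7r_153_ok : tord7r_153.OK 7 := TT.leaf_ok (T := ttd7r_153) (by decide +kernel)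

end Pool.Agent.Lib_MP_fa6e45
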