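import Pool.Agent.Lib_MP_fa6e45.CT5

/-!
MP_fa6e45_co, stage 9: straight-side patterns with `7` sides, tables of tori (generated by a program).
-/

namespace Pool.Agent.Lib_MP_fa6e45

/-- the torus -/
def ttd7r_154 : TT where
  k := 4
  rf := [false, false, true, true]
  tau := [7, 17, 18, 19, 20, 14, 13, 0, 24, 25, 26, 27, 21, 6, 5, 22, 23, 1, 2, 3, 4, 12, 15, 16, 8, 9, 10, 11]
  par := [0, 0, 1, 8]
  stars := [[0, 13, 22, 16, 24, 8], [1, 7, 6, 15, 23, 17], [2, 18], [3, 19], [4, 20], [5, 14], [9, 25], [10, 26],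
    [11, 27], [12, 21]]
  word := [[], [], [], [], [], [], [0, 3], [], [], [], [], [], [], [2, 1], [], [0], [2], [], [], [], [], [], [1],
    [3], [], [], [], []]
  rank := [0, 0, 1, 2, 3, 4, 5, 0, 0, 1, 2, 3, 4, 5, 4, 0, 0, 0, 1, 2, 3, 4, 0, 0, 0, 1, 2, 3]
  just := [0, 0, 2, 3, 4, 5, 1, 0, 0, 6, 7, 8, 9, 1, 5, 0, 0, 0, 2, 3, 4, 9, 0, 0, 0, 6, 7, 8]
  gA := 15
  gB := 16
  fin := 0
  sid := [0, 1, 2, 3, 4, 5, 1, 1, 0, 6, 7, 8, 9, 0, 5, 1, 0, 1, 2, 3, 4, 9, 0, 1, 0, 6, 7, 8]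
  off := [(0, 0), (0, 0), (0, 0), (0, 0), (0, 0), (0, 0), (1, -1), (0, 0), (0, 0), (0, 0), (0, 0), (0, 0), (0, 0),
    (-1, 1), (0, 0), (1, -1), (0, 1), (0, 0), (0, 0), (0, 0), (0, 0), (0, 0), (-1, 1), (0, -1), (0, 0), (0, 0), (0,
    0), (0, 0)]

/-- glued arcs and equations -/
def tord7r_154 : TorT :=
  ⟨[(0, 0, true), (0, 5, false), (1, 1, true), (1, 3, false), (2, 2, true), (2, 4, false), (3, 5, false), (4, 6,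
    false), (6, 6, true)],
    [([0, 0, 0, 0, 1, 0, 1], 2), ([0, 0, 0, 1, 0, 1, 0], 2), ([0, 0, 1, 0, 1, 0, 0], 2), ([1, 0, 0, 0, 0, 1, 0], 2),
    ([1, 2, 1, 1, 0, 0, 1], 2)]⟩

theorem tord7r_154_ok : tord7r_154.OK 7 := TT.leaf_ok (T := ttd7r_154) (by decide +kernel)

/-- the torus -/
def ttd7r_155 : TT where
  k := 4
  rf := [false, false, true, true]
  tau := [7, 14, 9, 22, 23, 24, 25, 0, 21, 2, 15, 16, 17, 18, 1, 10, 11, 12, 13, 26, 27, 8, 3, 4, 5, 6, 19, 20]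
  par := [0, 0, 1, 3]
  stars := [[0, 26, 20, 21, 8], [1, 7, 19, 27, 14], [2, 15, 10], [3, 9, 22], [4, 23], [5, 24], [6, 25], [11, 16],
    [12, 17], [13, 18]]
  word := [[], [], [1], [], [], [], [], [], [0], [0], [0], [0], [0], [0], [], [1], [1], [1], [1], [1, 2], [2], [1],
    [], [], [], [], [3, 0], [3]]
  rank := [0, 0, 2, 0, 1, 2, 3, 0, 3, 2, 1, 0, 1, 2, 0, 1, 0, 1, 2, 3, 0, 3, 0, 1, 2, 3, 3, 0]
  just := [0, 0, 2, 0, 4, 5, 6, 0, 3, 2, 7, 0, 8, 9, 0, 7, 0, 8, 9, 1, 0, 3, 0, 4, 5, 6, 1, 0]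
  gA := 11
  gB := 20
  fin := 0
  sid := [0, 1, 2, 3, 4, 5, 6, 1, 0, 3, 2, 7, 8, 9, 1, 2, 7, 8, 9, 1, 0, 0, 3, 4, 5, 6, 0, 1]
  off := [(0, 0), (0, 0), (0, 0), (0, 0), (0, 0), (0, 0), (0, 0), (0, 0), (0, 0), (1, 0), (1, 0), (0, 0), (0, 0), (0,
    0), (0, 0), (0, 0), (-1, 0), (-1, 0), (-1, 0), (-1, 0), (-1, 1), (-1, 0), (0, 0), (0, 0), (0, 0), (0, 0), (0, 0),
    (0, -1)]

/-- glued arcs and equations -/
def tord7r_155 : TorT :=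
  ⟨[(0, 0, true), (0, 1, false), (1, 3, false), (2, 2, true), (2, 4, false), (3, 5, false), (4, 6, false), (5, 5,
    true), (6, 6, true)],
    [([0, 0, 0, 0, 1, 0, 1], 2), ([0, 0, 0, 1, 0, 1, 0], 2), ([0, 0, 1, 0, 1, 0, 0], 2), ([0, 1, 1, 1, 0, 0, 0], 2),
    ([2, 1, 0, 0, 0, 1, 1], 2)]⟩

theorem tord7r_155_ok : tord7r_155.OK 7 := TT.leaf_ok (T := ttd7r_155) (by decide +kernel)

/-- the torus -/
def ttd7r_156 : TT where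
  k := 4
  rf := [false, false, true, true]
  tau := [7, 17, 9, 19, 20, 14, 23, 0, 24, 2, 26, 27, 21, 16, 5, 22, 13, 1, 25, 3, 4, 12, 15, 6, 8, 18, 10, 11]
  par := [0, 0, 1, 6]
  stars := [[0, 24, 8], [1, 7, 17], [2, 18, 26, 10], [3, 9, 25, 19], [4, 20], [5, 14], [6, 15, 23], [11, 27], [12,
    21], [13, 22, 16]]
  word := [[], [], [2, 1], [1], [1], [1], [], [], [0, 3, 1, 2], [0, 3], [0], [0], [0], [], [0], [0], [], [], [2],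
    [0], [0], [1], [1], [], [3, 0, 2, 1], [3], [1], [1]]
  rank := [0, 0, 5, 3, 2, 1, 0, 0, 6, 5, 4, 3, 2, 1, 1, 0, 1, 0, 0, 3, 2, 2, 0, 0, 6, 0, 4, 3]
  just := [0, 0, 2, 4, 5, 6, 0, 0, 3, 2, 7, 8, 9, 1, 6, 0, 1, 0, 0, 4, 5, 9, 0, 0, 3, 0, 7, 8]
  gA := 15
  gB := 18
  fin := 0
  sid := [0, 1, 2, 3, 4, 5, 6, 1, 0, 3, 2, 7, 8, 9, 5, 6, 9, 1, 2, 3, 4, 8, 9, 6, 0, 3, 2, 7]
  off := [(0, 0), (0, 0), (0, 0), (0, 0), (0, 0), (0, 0), (0, 0), (0, 0), (0, 0), (1, -1), (1, -1), (0, 0), (0, 0),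
    (0, 0), (1, 0), (1, 0), (0, 0), (0, 0), (0, 0), (1, 0), (1, 0), (-1, 0), (-1, 0), (0, 0), (0, 0), (1, -1), (0,
    -1), (-1, 0)]

/-- glued arcs and equations -/
def tord7r_156 : TorT :=
  ⟨[(0, 0, true), (0, 5, false), (1, 1, true), (1, 3, false), (2, 2, true), (2, 6, false), (3, 5, false), (4, 4,
    true), (4, 6, false)],
    [([0, 0, 0, 0, 1, 0, 1], 2), ([0, 0, 1, 1, 1, 1, 0], 2), ([0, 1, 1, 0, 0, 0, 1], 2), ([1, 0, 0, 0, 0, 1, 0], 2),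
    ([1, 1, 0, 1, 0, 0, 0], 2)]⟩

theorem tord7r_156_ok : tord7r_156.OK 7 := TT.leaf_ok (T := ttd7r_156) (by decide +kernel)

/-- the torus -/
def ttd7r_157 : TT where
  k := 8
  rf := [false, true, false, false, true, true, true, false]
  tau := [8, 17, 23, 33, 34, 28, 27, 26, 0, 18, 36, 16, 24, 25, 47, 35, 11, 1, 9, 45, 46, 29, 52, 2, 12, 13, 7, 6, 5,
    21, 53, 43, 51, 3, 4, 15, 10, 44, 54, 55, 49, 48, 50, 31, 37, 19, 20, 14, 41, 40, 42, 32, 22, 30, 38, 39]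
  par := [0, 0, 1, 2, 3, 10, 14, 22]
  stars := [[0, 27, 8], [1, 9, 18], [2, 17, 12, 24], [3, 23, 52, 33], [4, 34], [5, 28], [6, 29, 21], [7, 26], [10,
    37, 45, 19], [11, 16, 36], [13, 25], [14, 47], [15, 48, 35], [20, 46], [22, 30, 53], [31, 44, 38, 54], [32, 51,
    43], [39, 55], [40, 49], [41, 42, 50]]
  word := [[], [], [], [], [], [], [1, 2, 0], [2], [], [], [], [2], [2], [2], [], [3], [3], [], [], [], [], [1, 3,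
    0], [], [], [3], [3], [3], [1, 3, 0], [], [1, 2, 0], [1, 2, 0], [1, 2], [], [], [], [2], [], [], [0], [0], [0],
    [2], [3, 0], [3, 0], [], [], [], [], [3], [1], [1, 2], [], [], [1, 3, 0], [1], [1]]
  rank := [0, 0, 0, 0, 1, 2, 6, 5, 0, 1, 0, 2, 3, 4, 0, 1, 2, 0, 1, 2, 1, 5, 0, 0, 3, 4, 5, 6, 2, 5, 4, 2, 1, 0, 1,
    1, 0, 3, 2, 1, 0, 0, 1, 2, 3, 2, 1, 0, 0, 0, 1, 1, 0, 4, 2, 1]
  just := [0, 0, 0, 0, 4, 5, 6, 7, 0, 1, 0, 9, 2, 10, 0, 12, 9, 0, 1, 13, 11, 14, 0, 0, 2, 10, 7, 6, 5, 14, 15, 16,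
    3, 0, 4, 12, 0, 8, 17, 18, 0, 0, 19, 16, 8, 13, 11, 0, 0, 0, 19, 3, 0, 15, 17, 18]
  gA := 40
  gB := 41
  fin := 0
  sid := [0, 1, 2, 3, 4, 5, 6, 7, 0, 1, 8, 9, 2, 10, 11, 12, 9, 2, 1, 8, 13, 6, 14, 3, 2, 10, 7, 0, 5, 6, 14, 15, 16,
    3, 4, 12, 9, 8, 15, 17, 18, 19, 19, 16, 15, 8, 13, 11, 12, 18, 19, 16, 3, 14, 15, 17]
  off := [(0, 0), (0, 0), (0, 0), (0, 0), (0, 0), (0, 0), (0, 0), (0, 0), (0, 0), (0, 0), (0, 0), (0, 0), (0, 1), (0,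
    0), (0, 0), (0, 0), (0, -1), (0, 0), (0, 0), (0, 0), (0, 0), (0, -1), (0, 0), (0, 0), (0, 0), (0, -1), (0, -1),
    (0, -1), (0, 0), (0, 0), (0, 1), (0, 0), (0, 0), (0, 0), (0, 0), (0, 1), (0, 0), (0, 0), (1, -1), (0, 0), (0, 0),
    (0, 0), (0, -1), (1, -1), (1, -1), (0, 0), (0, 0), (0, 0), (0, 0), (-1, 0), (-1, 0), (0, 0), (0, 0), (0, 0), (0,
    -1), (-1, 0)]

/-- glued arcs and equations -/
def tord7r_157 : TorT :=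
  ⟨[(0, 1, false), (0, 5, false), (1, 3, true), (2, 2, true), (2, 4, false), (3, 5, false), (4, 6, false), (6, 6,
    true)],
    [([0, 0, 0, 0, 1, 0, 1], 2), ([0, 0, 1, 2, 0, 1, 0], 2), ([0, 1, 1, 0, 1, 0, 0], 2), ([1, 0, 0, 0, 0, 1, 0], 2),
    ([1, 1, 0, 0, 0, 0, 1], 2)]⟩

theorem tord7r_157_ok : tord7r_157.OK 7 := TT.leaf_ok (T := ttd7r_157) (by decide +kernel)

/-- the torus -/
def ttd7r_158 : TT where
  k := 8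
  rf := [false, false, true, true, false, false, true, true]
  tau := [12, 14, 9, 22, 27, 7, 13, 5, 21, 2, 15, 20, 0, 6, 1, 10, 32, 33, 30, 31, 11, 8, 3, 39, 40, 37, 38, 4, 43,
    52, 18, 19, 16, 17, 53, 50, 45, 25, 26, 23, 24, 46, 54, 28, 51, 36, 41, 49, 55, 47, 35, 44, 29, 34, 42, 48]
  par := [0, 0, 1, 3, 16, 23, 28, 29]
  stars := [[0, 13], [1, 12, 14], [2, 15, 10], [3, 9, 22], [4, 23, 39, 27], [5, 21, 8], [6, 7], [11, 16, 32, 20],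
    [17, 33], [18, 30, 53, 34], [19, 31], [24, 40], [25, 37, 46, 41], [26, 38], [28, 54, 43], [29, 44, 52], [35, 47,
    50], [36, 51, 45], [42, 55], [48, 49]]
  word := [[], [], [3], [], [0, 2, 1], [0, 2, 1, 3], [0, 2, 1, 3], [2, 0, 3, 1], [2], [2], [2], [], [], [2, 0, 3, 1],
    [], [3], [], [], [2], [2], [], [3], [], [], [], [0, 3, 1], [0, 3, 1], [0, 3, 1], [], [], [3], [3], [], [], [2],
    [0], [0], [0, 2, 1], [0, 2, 1], [], [], [0, 3], [2], [], [], [1], [2, 1], [2], [2], [3], [1], [], [], [3], [3],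
    [3]]
  rank := [0, 0, 5, 0, 6, 7, 8, 7, 6, 5, 4, 1, 0, 8, 0, 4, 0, 1, 2, 3, 1, 6, 0, 0, 1, 4, 5, 6, 0, 0, 2, 3, 0, 1, 1,
    0, 2, 4, 5, 0, 1, 3, 0, 0, 1, 2, 3, 2, 1, 2, 0, 1, 0, 1, 0, 1]
  just := [0, 0, 2, 0, 4, 5, 6, 5, 3, 2, 7, 1, 0, 6, 0, 7, 0, 8, 9, 10, 1, 3, 0, 0, 11, 12, 13, 4, 0, 0, 9, 10, 0, 8,
    14, 0, 17, 12, 13, 0, 11, 16, 0, 0, 15, 17, 16, 19, 18, 19, 0, 15, 0, 14, 0, 18]
  gA := 35
  gB := 42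
  fin := 0
  sid := [0, 1, 2, 3, 4, 5, 6, 6, 5, 3, 2, 7, 1, 0, 1, 2, 7, 8, 9, 10, 7, 5, 3, 4, 11, 12, 13, 4, 14, 15, 9, 10, 7,
    8, 9, 16, 17, 12, 13, 4, 11, 12, 18, 14, 15, 17, 12, 16, 19, 19, 16, 17, 15, 9, 14, 18]
  off := [(0, 0), (0, 0), (0, 0), (0, 0), (0, 0), (0, 0), (0, 0), (0, 0), (0, 0), (0, 1), (0, 1), (0, 0), (0, 0), (0,
    0), (0, 0), (0, 0), (0, -1), (0, 0), (0, 0), (0, 0), (0, 0), (0, -1), (0, 0), (0, 0), (0, 0), (0, 0), (0, 0), (0,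
    -1), (0, 0), (0, 0), (0, -1), (0, -1), (0, -1), (0, 0), (0, 0), (0, 0), (0, 0), (0, 1), (0, 1), (0, 0), (0, 0),
    (0, 0), (0, 0), (0, 0), (0, 0), (-1, 0), (-1, 1), (-1, 1), (0, 0), (0, -1), (-1, 0), (-1, 0), (0, 0), (0, -1),
    (0, -1), (0, -1)]

/-- glued arcs and equations -/
def tord7r_158 : TorT :=
  ⟨[(0, 1, false), (0, 5, true), (1, 3, false), (2, 2, true), (2, 4, false), (3, 5, false), (4, 6, false), (6, 6,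
    true)],
    [([0, 0, 0, 1, 0, 1, 0], 2), ([0, 0, 1, 0, 2, 0, 1], 2), ([0, 1, 1, 1, 0, 0, 0], 2), ([1, 0, 0, 0, 0, 0, 1], 2),
    ([1, 1, 0, 0, 0, 1, 0], 2)]⟩

theorem tord7r_158_ok : tord7r_158.OK 7 := TT.leaf_ok (T := ttd7r_158) (by decide +kernel)

/-- the torus -/
def ttd7r_159 : TT where
  k := 4
  rf := [false, false, false, false]
  tau := [12, 14, 20, 10, 16, 7, 13, 5, 21, 27, 3, 23, 0, 6, 1, 22, 4, 26, 25, 24, 2, 8, 15, 11, 19, 18, 17, 9]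
  par := [0, 0, 1, 8]
  stars := [[0, 13], [1, 12, 23, 15], [2, 14], [3, 20, 24, 11], [4, 10, 27, 17], [5, 16, 22, 8], [6, 7], [9, 21],
    [18, 26], [19, 25]]
  word := [[], [], [], [2, 1], [2, 1, 3], [2, 1, 3, 0], [2, 1, 3, 0], [1, 2, 0, 3], [], [], [0, 3], [0], [], [1, 2,
    0, 3], [], [0], [2, 0, 3], [2], [2], [2], [], [], [1], [1], [3], [3], [3], []]
  rank := [0, 0, 1, 2, 3, 4, 5, 4, 0, 1, 2, 0, 0, 5, 0, 1, 3, 1, 0, 1, 1, 0, 1, 0, 1, 0, 1, 1]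
  just := [0, 0, 2, 3, 4, 5, 6, 5, 0, 7, 3, 0, 0, 6, 0, 1, 4, 8, 0, 9, 2, 0, 1, 0, 9, 0, 8, 7]
  gA := 11
  gB := 18
  fin := 0
  sid := [0, 1, 2, 3, 4, 5, 6, 6, 5, 7, 4, 3, 1, 0, 2, 1, 5, 4, 8, 9, 3, 7, 5, 1, 3, 9, 8, 4]
  off := [(0, 0), (0, 0), (0, 0), (0, 0), (0, 0), (0, 0), (0, 0), (0, 0), (0, 0), (0, 0), (1, -1), (1, -1), (0, 0),
    (0, 0), (0, 0), (0, 0), (1, 0), (1, 0), (0, 0), (0, 0), (0, 0), (0, 0), (0, 0), (-1, 0), (0, -1), (0, -1), (0,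
    -1), (1, -1)]

/-- glued arcs and equations -/
def tord7r_159 : TorT :=
  ⟨[(0, 1, true), (0, 5, true), (1, 1, true), (2, 4, true), (2, 6, true), (3, 3, true), (3, 5, true), (4, 4, true),
    (6, 6, true)],
    [([0, 0, 0, 0, 1, 1, 0], 2), ([0, 0, 0, 2, 1, 0, 1], 2), ([0, 2, 1, 0, 0, 1, 0], 2), ([1, 0, 0, 0, 0, 0, 1], 2),
    ([1, 0, 1, 0, 0, 0, 0], 2)]⟩

theorem tord7r_159_ok : tord7r_159.OK 7 := TT.leaf_ok (T := ttd7r_159) (by decide +kernel)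

/-- the torus -/
def ttd7r_160 : TT where
  k := 4
  rf := [false, false, false, false]
  tau := [7, 14, 20, 19, 11, 15, 13, 0, 21, 27, 26, 4, 22, 6, 1, 5, 25, 24, 23, 3, 2, 8, 12, 18, 17, 16, 10, 9]
  par := [0, 0, 1, 8]
  stars := [[0, 13, 22, 8], [1, 7, 6, 15], [2, 14], [3, 20], [4, 19, 23, 12], [5, 11, 26, 16], [9, 21], [10, 27],
    [17, 25], [18, 24]]
  word := [[], [], [], [], [0], [0, 3], [0, 3], [], [], [], [], [1], [1, 2], [2, 1], [], [2, 1], [2], [2], [2], [],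
    [], [], [3, 0], [3], [3], [3], [], []]
  rank := [0, 0, 1, 2, 0, 3, 4, 0, 0, 1, 2, 0, 3, 4, 0, 3, 1, 0, 1, 2, 1, 0, 3, 1, 0, 1, 2, 1]
  just := [0, 0, 2, 3, 0, 5, 1, 0, 0, 6, 7, 0, 4, 1, 0, 5, 8, 0, 9, 3, 2, 0, 4, 9, 0, 8, 7, 6]
  gA := 4
  gB := 17
  fin := 0
  sid := [0, 1, 2, 3, 4, 5, 1, 1, 0, 6, 7, 5, 4, 0, 2, 1, 5, 8, 9, 4, 3, 6, 0, 4, 9, 8, 5, 7]
  off := [(0, 0), (0, 0), (0, 0), (0, 0), (0, 0), (0, 0), (1, -1), (0, 0), (0, 0), (0, 0), (0, 0), (-1, 0), (-1, 0),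
    (-1, 1), (0, 0), (0, 0), (-1, 1), (0, 0), (0, 0), (0, 0), (0, 0), (0, 0), (0, 0), (0, -1), (0, -1), (0, -1), (-1,
    0), (0, 0)]

/-- glued arcs and equations -/
def tord7r_160 : TorT :=
  ⟨[(0, 0, true), (0, 1, true), (1, 5, true), (2, 4, true), (2, 6, true), (3, 3, true), (3, 5, true), (4, 4, true),
    (6, 6, true)],
    [([0, 0, 0, 1, 0, 0, 1], 2), ([0, 0, 0, 1, 1, 0, 0], 2), ([0, 0, 1, 0, 1, 2, 0], 2), ([1, 0, 1, 0, 0, 0, 0], 2),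
    ([1, 2, 0, 0, 0, 0, 1], 2)]⟩

theorem tord7r_160_ok : tord7r_160.OK 7 := TT.leaf_ok (T := ttd7r_160) (by decide +kernel)

/-- the torus -/
def ttd7r_161 : TT where
  k := 8
  rf := [false, false, false, true, true, true, false, true]
  tau := [8, 15, 25, 28, 23, 10, 9, 38, 0, 6, 5, 48, 47, 46, 43, 1, 39, 49, 37, 45, 44, 50, 36, 4, 42, 2, 52, 51, 3,
    35, 41, 40, 55, 54, 53, 29, 22, 18, 7, 16, 31, 30, 24, 14, 20, 19, 13, 12, 11, 17, 21, 27, 26, 34, 33, 32]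
  par := [0, 0, 1, 2, 3, 7, 11, 17]
  stars := [[0, 9], [1, 8, 39, 16], [2, 15, 43, 25], [3, 26, 53, 28], [4, 29, 36, 23], [5, 24, 42, 11], [6, 10], [7,
    46, 19, 38], [12, 48], [13, 47], [14, 44], [17, 40, 32, 49], [18, 50, 22, 37], [20, 45], [21, 51], [27, 52], [30,
    35], [31, 41], [33, 55], [34, 54]]
  word := [[], [], [], [], [2, 1, 3], [2, 1, 3, 0], [2, 1, 3, 0], [], [], [1, 2, 0, 3], [1, 2, 0, 3], [], [], [],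
    [0], [], [], [], [0], [0], [0], [2], [2, 0], [2, 0, 3], [0], [], [2], [2], [], [2], [2], [2], [2], [2], [2], [3],
    [1, 3], [1], [], [], [3], [3], [1], [1], [1], [1], [], [], [], [], [3], [3], [3], [3], [3], [3]]
  rank := [0, 0, 0, 0, 6, 7, 8, 0, 0, 8, 7, 0, 1, 2, 2, 0, 1, 0, 3, 0, 1, 4, 5, 6, 3, 0, 2, 3, 0, 4, 3, 2, 1, 0, 1,
    4, 5, 3, 0, 1, 2, 3, 3, 2, 1, 0, 2, 1, 0, 0, 4, 3, 2, 1, 0, 1]
  just := [0, 0, 0, 0, 4, 5, 6, 0, 0, 6, 5, 0, 8, 9, 10, 0, 1, 0, 7, 0, 13, 14, 12, 4, 2, 0, 3, 15, 0, 16, 17, 11,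
    18, 0, 19, 16, 12, 7, 0, 1, 11, 17, 2, 10, 13, 0, 9, 8, 0, 0, 14, 15, 3, 19, 0, 18]
  gA := 19
  gB := 33
  fin := 0
  sid := [0, 1, 2, 3, 4, 5, 6, 7, 1, 0, 6, 5, 8, 9, 10, 2, 1, 11, 12, 7, 13, 14, 12, 4, 5, 2, 3, 15, 3, 4, 16, 17,
    11, 18, 19, 16, 4, 12, 7, 1, 11, 17, 5, 2, 10, 13, 7, 9, 8, 11, 12, 14, 15, 3, 19, 18]
  off := [(0, 0), (0, 0), (0, 0), (0, 0), (0, 0), (0, 0), (0, 0), (0, 0), (0, 0), (0, 0), (0, 0), (0, 0), (0, 0), (0,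
    0), (0, 0), (0, 0), (0, 0), (0, 0), (0, 0), (1, 0), (0, 0), (0, 0), (0, 1), (1, 0), (1, 0), (0, 0), (0, 0), (0,
    0), (0, 0), (0, 0), (0, 0), (0, 0), (0, 1), (0, 0), (0, 0), (0, -1), (0, -1), (-1, 0), (0, 0), (0, 0), (0, 0),
    (0, -1), (0, 0), (-1, 0), (-1, 0), (-1, 0), (0, 0), (0, 0), (0, 0), (0, 0), (0, 0), (0, -1), (0, -1), (0, -1),
    (0, -1), (0, -1)]

/-- glued arcs and equations -/
def tord7r_161 : TorT :=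
  ⟨[(0, 1, true), (0, 3, false), (1, 1, true), (2, 4, false), (2, 6, true), (3, 5, true), (4, 6, true), (5, 5, true)],
    [([0, 0, 0, 0, 0, 1, 1], 2), ([0, 0, 0, 1, 0, 0, 1], 2), ([0, 2, 1, 0, 1, 0, 0], 2), ([1, 0, 0, 1, 1, 1, 0], 2),
    ([1, 0, 1, 0, 0, 0, 0], 2)]⟩

theorem tord7r_161_ok : tord7r_161.OK 7 := TT.leaf_ok (T := ttd7r_161) (by decide +kernel)

/-- the torus -/
def ttd7r_162 : TT where
  k := 4
  rf := [false, false, false, false]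
  tau := [8, 15, 18, 17, 16, 7, 9, 5, 0, 6, 26, 25, 24, 27, 22, 1, 4, 3, 2, 21, 23, 19, 14, 20, 12, 11, 10, 13]
  par := [0, 0, 1, 10]
  stars := [[0, 9], [1, 8, 5, 16], [2, 15, 22, 19], [3, 18], [4, 17], [6, 7, 27, 10], [11, 26], [12, 25], [13, 24,
    20, 21], [14, 23]]
  word := [[], [], [0], [0], [0], [0], [0, 3, 1, 2], [1], [], [3, 0, 2, 1], [], [], [], [3, 1, 2], [2], [], [1], [1],
    [1], [1, 2], [2], [3, 0], [3], [3], [], [], [], [3, 0, 2]]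
  rank := [0, 0, 0, 1, 2, 3, 4, 3, 0, 4, 0, 1, 2, 3, 0, 0, 2, 1, 0, 1, 1, 1, 0, 1, 2, 1, 0, 3]
  just := [0, 0, 0, 3, 4, 1, 5, 1, 0, 5, 0, 6, 7, 8, 0, 0, 4, 3, 0, 2, 9, 2, 0, 9, 7, 6, 0, 8]
  gA := 2
  gB := 14
  fin := 0
  sid := [0, 1, 2, 3, 4, 1, 5, 5, 1, 0, 5, 6, 7, 8, 9, 2, 1, 4, 3, 2, 8, 8, 2, 9, 8, 7, 6, 5]
  off := [(0, 0), (0, 0), (0, 0), (0, 0), (0, 0), (1, 0), (0, 0), (-1, 0), (0, 0), (0, 0), (0, 0), (0, 0), (0, 0),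
    (0, 0), (0, 0), (0, 0), (0, 0), (-1, 0), (-1, 0), (-1, 0), (0, 1), (1, 0), (0, -1), (0, -1), (0, 0), (0, 0), (0,
    0), (0, 0)]

/-- glued arcs and equations -/
def tord7r_162 : TorT :=
  ⟨[(0, 1, true), (0, 5, true), (1, 1, true), (2, 4, true), (2, 6, true), (3, 3, true), (3, 5, true), (4, 4, true),
    (6, 6, true)],
    [([0, 0, 0, 0, 1, 1, 0], 2), ([0, 0, 0, 1, 1, 0, 0], 2), ([0, 2, 1, 0, 0, 1, 0], 2), ([1, 0, 0, 1, 0, 0, 2], 2),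
    ([1, 0, 1, 0, 0, 0, 0], 2)]⟩

theorem tord7r_162_ok : tord7r_162.OK 7 := TT.leaf_ok (T := ttd7r_162) (by decide +kernel)

/-- the torus -/
def ttd7r_163 : TT where
  k := 8
  rf := [false, false, false, false, true, true, true, true]
  tau := [7, 14, 20, 15, 13, 12, 11, 0, 21, 27, 22, 6, 5, 4, 1, 3, 32, 33, 30, 31, 2, 8, 10, 39, 40, 37, 38, 9, 43,
    45, 18, 19, 16, 17, 44, 50, 52, 25, 26, 23, 24, 51, 49, 28, 34, 29, 55, 54, 53, 42, 35, 41, 36, 48, 47, 46]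
  par := [0, 0, 1, 8, 16, 23, 28, 35]
  stars := [[0, 11, 22, 8], [1, 7, 4, 15], [2, 14], [3, 20, 32, 16], [5, 13], [6, 12], [9, 21], [10, 27, 39, 23],
    [17, 33], [18, 34, 45, 30], [19, 31], [24, 40], [25, 41, 52, 37], [26, 38], [28, 44], [29, 46, 49, 43], [35, 51],
    [36, 53, 42, 50], [47, 55], [48, 54]]
  word := [[], [], [], [1], [1], [1], [1], [], [], [], [3, 0, 2], [0], [0], [0], [], [0], [], [], [1], [1], [], [],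
    [3, 1, 2], [], [], [3, 0, 2], [3, 0, 2], [], [], [0], [0], [0], [], [], [], [], [3, 1, 2], [3, 1, 2], [3, 1, 2],
    [], [], [], [0, 2], [], [], [1], [2], [2], [2], [3, 1], [], [], [3, 0, 2], [3], [3], [3]]
  rank := [0, 0, 1, 4, 5, 6, 7, 0, 0, 1, 6, 7, 6, 5, 0, 4, 0, 1, 2, 3, 1, 0, 6, 0, 1, 4, 5, 1, 0, 0, 2, 3, 0, 1, 1,
    0, 3, 4, 5, 0, 1, 1, 2, 0, 1, 0, 1, 0, 1, 2, 0, 1, 3, 1, 0, 1]
  just := [0, 0, 2, 3, 1, 4, 5, 0, 0, 6, 7, 5, 4, 1, 0, 3, 0, 8, 9, 10, 2, 0, 7, 0, 11, 12, 13, 6, 0, 0, 9, 10, 0, 8,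
    14, 0, 17, 12, 13, 0, 11, 16, 15, 0, 14, 0, 18, 0, 19, 15, 0, 16, 17, 19, 0, 18]
  gA := 29
  gB := 47
  fin := 0
  sid := [0, 1, 2, 3, 1, 4, 5, 1, 0, 6, 7, 0, 5, 4, 2, 1, 3, 8, 9, 10, 3, 6, 0, 7, 11, 12, 13, 7, 14, 15, 9, 10, 3,
    8, 9, 16, 17, 12, 13, 7, 11, 12, 17, 15, 14, 9, 15, 18, 19, 15, 17, 16, 12, 17, 19, 18]
  off := [(0, 0), (0, 0), (0, 0), (0, 0), (-1, 0), (0, 0), (0, 0), (0, 0), (0, 0), (0, 0), (0, 0), (1, 0), (1, 0),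
    (1, 0), (0, 0), (0, 0), (1, 0), (0, 0), (0, 0), (0, 0), (0, 0), (0, 0), (0, 0), (-1, 0), (0, 0), (0, 0), (0, 0),
    (0, 0), (0, 0), (0, 0), (1, 0), (1, 0), (1, 0), (0, 0), (0, 0), (0, 0), (0, 0), (-1, 0), (-1, 0), (-1, 0), (0,
    0), (0, 0), (1, 1), (0, 0), (0, 0), (0, 0), (-1, 0), (0, 0), (0, 0), (-1, -1), (0, 0), (0, 0), (0, 0), (1, 0),
    (0, -1), (0, -1)]

/-- glued arcs and equations -/
def tord7r_163 : TorT :=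
  ⟨[(0, 0, true), (0, 1, true), (1, 3, true), (2, 4, false), (2, 6, true), (3, 5, false), (4, 6, true), (5, 5, true)],
    [([0, 0, 0, 0, 0, 1, 1], 2), ([0, 0, 0, 1, 0, 1, 0], 2), ([0, 0, 1, 1, 1, 0, 1], 2), ([1, 0, 1, 0, 0, 0, 0], 2),
    ([1, 2, 0, 0, 1, 0, 0], 2)]⟩

theorem tord7r_163_ok : tord7r_163.OK 7 := TT.leaf_ok (T := ttd7r_163) (by decide +kernel)

/-- the torus -/
def ttd7r_164 : TT where
  k := 4
  rf := [false, false, true, true]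
  tau := [7, 19, 9, 14, 23, 24, 25, 0, 26, 2, 21, 16, 17, 18, 3, 22, 11, 12, 13, 1, 27, 10, 15, 4, 5, 6, 8, 20]
  par := [0, 0, 1, 4]
  stars := [[0, 26, 8], [1, 7, 19], [2, 20, 21, 10], [3, 9, 27, 14], [4, 15, 23], [5, 24], [6, 25], [11, 22, 16],
    [12, 17], [13, 18]]
  word := [[], [], [2, 1], [1], [], [], [], [], [0, 3, 1, 2], [0, 3], [0], [], [], [], [0], [0], [], [], [], [], [2],
    [1], [1], [], [], [], [3, 0, 2, 1], [3]]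
  rank := [0, 0, 5, 1, 0, 1, 2, 0, 6, 5, 4, 3, 2, 1, 1, 0, 3, 2, 1, 0, 0, 4, 0, 0, 1, 2, 6, 0]
  just := [0, 0, 2, 4, 0, 5, 6, 0, 3, 2, 7, 8, 9, 1, 4, 0, 8, 9, 1, 0, 0, 7, 0, 0, 5, 6, 3, 0]
  gA := 15
  gB := 20
  fin := 0
  sid := [0, 1, 2, 3, 4, 5, 6, 1, 0, 3, 2, 7, 8, 9, 3, 4, 7, 8, 9, 1, 2, 2, 7, 4, 5, 6, 0, 3]
  off := [(0, 0), (0, 0), (0, 0), (0, 0), (0, 0), (0, 0), (0, 0), (0, 0), (0, 0), (1, -1), (1, -1), (0, 0), (0, 0),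
    (0, 0), (1, 0), (1, 0), (0, 0), (0, 0), (0, 0), (0, 0), (0, 0), (0, -1), (-1, 0), (0, 0), (0, 0), (0, 0), (0, 0),
    (1, -1)]

/-- glued arcs and equations -/
def tord7r_164 : TorT :=
  ⟨[(0, 0, true), (0, 3, false), (1, 1, true), (1, 5, false), (2, 2, true), (2, 4, false), (3, 5, false), (4, 6,
    false), (6, 6, true)],
    [([0, 0, 0, 0, 1, 0, 1], 2), ([0, 0, 0, 1, 0, 1, 0], 2), ([0, 1, 1, 0, 1, 0, 0], 2), ([1, 0, 1, 1, 0, 0, 1], 2),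
    ([1, 1, 0, 0, 0, 1, 0], 2)]⟩

theorem tord7r_164_ok : tord7r_164.OK 7 := TT.leaf_ok (T := ttd7r_164) (by decide +kernel)

end Pool.Agent.Lib_MP_fa6e45
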