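import Pool.Agent.Lib_MP_fa6e45.CT5

/-!
MP_fa6e45_co, stage 9: straight-side patterns with `7` sides, tables of tori (generated by a program).
-/

namespace Pool.Agent.Lib_MP_fa6e45

/-- the torus -/
def ttd7r_165 : TT where
  k := 2
  rf := [false, true]
  tau := [3, 7, 13, 0, 9, 10, 11, 1, 12, 4, 5, 6, 8, 2]
  par := [0, 1]
  stars := [[0, 12, 9, 4], [1, 3, 7], [2, 8, 13], [5, 10], [6, 11]]
  word := [[1], [], [0], [0], [2], [2], [2], [], [0], [3], [3], [3], [1], [1]]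
  rank := [1, 0, 0, 1, 1, 0, 1, 0, 1, 1, 0, 1, 1, 0]
  just := [1, 0, 0, 1, 3, 0, 4, 0, 2, 3, 0, 4, 2, 0]
  gA := 2
  gB := 5
  fin := 0
  sid := [0, 1, 2, 1, 0, 3, 4, 1, 2, 0, 3, 4, 0, 2]
  off := [(0, 0), (0, 0), (0, 0), (1, 0), (1, 0), (0, 0), (0, 0), (0, 0), (0, 0), (1, -1), (0, -1), (0, -1), (0, -1),
    (-1, 0)]

/-- glued arcs and equations -/
def tord7r_165 : TorT :=
  ⟨[(0, 1, false), (0, 3, true), (1, 5, true), (2, 4, false), (2, 6, false), (3, 5, false), (4, 6, false)],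
    [([0, 0, 0, 0, 1, 0, 1], 2), ([0, 0, 0, 1, 0, 1, 0], 2), ([0, 1, 1, 0, 0, 0, 1], 2), ([1, 0, 1, 0, 1, 1, 0], 2),
    ([1, 1, 0, 1, 0, 0, 0], 2)]⟩

theorem tord7r_165_ok : tord7r_165.OK 7 := TT.leaf_ok (T := ttd7r_165) (by decide +kernel)

end Pool.Agent.Lib_MP_fa6e45
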