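import Pool.Agent.Lib_MP_fa6e45.CT5

/-!
MP_fa6e45_co, stage 9: straight-side patterns with `7` sides, tables of tori (generated by a program).
-/

namespace Pool.Agent.Lib_MP_fa6e45

/-- the torus -/
def ttd7r_22 : TT where
  k := 6
  rf := [false, false, false, true, true, true]
  tau := [8, 14, 20, 27, 28, 40, 9, 15, 0, 6, 41, 21, 33, 16, 1, 7, 13, 34, 35, 26, 2, 11, 32, 31, 37, 36, 19, 3, 4,
    39, 38, 23, 22, 12, 17, 18, 25, 24, 30, 29, 5, 10]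
  par := [0, 0, 1, 3, 4, 5]
  stars := [[0, 9], [1, 8, 15], [2, 14], [3, 20, 27], [4, 21, 11, 35, 18, 28], [5, 29, 40], [6, 41, 10], [7, 16],
    [12, 22, 33], [13, 34, 17], [19, 36, 26], [23, 32], [24, 38, 31], [25, 37], [30, 39]]
  word := [[], [], [], [], [], [], [3, 0, 2, 1], [], [], [0, 3, 1, 2], [0, 3, 1, 2], [0, 3], [0], [], [], [], [],
    [0], [2], [], [], [2, 1], [2], [2], [2], [2], [], [], [], [], [], [3], [3], [1], [1], [3], [3], [3], [], [], [],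
    [3, 0, 2, 1]]
  rank := [0, 0, 1, 0, 0, 0, 7, 1, 0, 7, 6, 5, 0, 2, 0, 1, 2, 3, 3, 2, 1, 5, 4, 3, 0, 1, 2, 0, 0, 1, 2, 3, 4, 0, 3,
    3, 1, 0, 2, 1, 0, 6]
  just := [0, 0, 2, 0, 0, 0, 6, 1, 0, 6, 4, 8, 0, 7, 0, 1, 7, 9, 10, 3, 2, 8, 11, 12, 0, 13, 3, 0, 0, 5, 14, 12, 11,
    0, 9, 10, 13, 0, 14, 5, 0, 4]
  gA := 12
  gB := 24
  fin := 0
  sid := [0, 1, 2, 3, 4, 5, 6, 7, 1, 0, 6, 4, 8, 9, 2, 1, 7, 9, 4, 10, 3, 4, 8, 11, 12, 13, 10, 3, 4, 5, 14, 12, 11,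
    8, 9, 4, 10, 13, 12, 14, 5, 6]
  off := [(0, 0), (0, 0), (0, 0), (0, 0), (0, 0), (0, 0), (0, 0), (0, 0), (0, 0), (0, 0), (0, 0), (1, -1), (0, 0),
    (0, 0), (0, 0), (0, 0), (0, 0), (0, 0), (1, 0), (0, 0), (0, 0), (0, 0), (-1, 1), (0, 0), (0, 0), (0, 0), (0, 0),
    (0, 0), (0, 0), (0, 0), (0, 0), (0, -1), (0, -1), (-1, 0), (-1, 0), (1, -1), (0, -1), (0, -1), (0, -1), (0, 0),
    (0, 0), (0, 0)]

/-- glued arcs and equations -/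
def tord7r_22 : TorT :=
  ⟨[(0, 1, true), (0, 4, false), (1, 4, true), (2, 3, true), (2, 6, true), (3, 6, false), (5, 5, false)],
    [([0, 0, 0, 1, 0, 0, 2], 2), ([0, 0, 0, 3, 0, 0, 0], 2), ([0, 0, 1, 0, 1, 0, 0], 2), ([0, 1, 0, 0, 0, 2, 0], 2),
    ([0, 3, 0, 0, 0, 0, 0], 2), ([1, 0, 1, 0, 0, 0, 0], 2), ([3, 0, 0, 0, 3, 0, 0], 2)]⟩

theorem tord7r_22_ok : tord7r_22.OK 7 := TT.leaf_ok (T := ttd7r_22) (by decide +kernel)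

/-- the torus -/
def ttd7r_23 : TT where
  k := 4
  rf := [false, false, true, true]
  tau := [7, 8, 6, 20, 14, 19, 2, 0, 1, 13, 27, 21, 26, 9, 4, 18, 23, 24, 15, 5, 3, 11, 25, 16, 17, 22, 12, 10]
  par := [0, 0, 3, 10]
  stars := [[0, 2, 8], [1, 7, 9], [3, 6, 20], [4, 14], [5, 15, 19], [10, 13, 27], [11, 21], [12, 22, 26], [16, 24,
    18], [17, 25, 23]]
  word := [[], [1, 2], [2, 1], [], [], [0, 3], [0, 3], [], [3, 0], [3, 0], [], [], [1, 2], [1, 2], [], [0, 3], [0],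
    [2], [2, 1], [2, 1], [], [], [1, 2], [1], [3], [3, 0], [3, 0], []]
  rank := [0, 4, 3, 0, 1, 2, 3, 0, 4, 3, 0, 1, 2, 3, 1, 1, 0, 0, 1, 2, 0, 1, 1, 0, 0, 1, 2, 0]
  just := [0, 1, 2, 0, 3, 4, 2, 0, 1, 5, 0, 6, 7, 5, 3, 8, 0, 0, 8, 4, 0, 6, 9, 0, 0, 9, 7, 0]
  gA := 16
  gB := 17
  fin := 0
  sid := [0, 1, 0, 2, 3, 4, 2, 1, 0, 1, 5, 6, 7, 5, 3, 4, 8, 9, 8, 4, 2, 6, 7, 9, 8, 9, 7, 5]
  off := [(0, 0), (0, 0), (-1, 1), (0, 0), (0, 0), (0, 0), (1, -1), (0, 0), (0, 0), (1, -1), (0, 0), (0, 0), (0, 0),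
    (-1, 1), (0, 0), (0, 0), (0, 0), (0, 0), (-1, 1), (-1, 1), (0, 0), (0, 0), (0, 0), (-1, 0), (-1, 0), (0, -1), (1,
    -1), (0, 0)]

/-- glued arcs and equations -/
def tord7r_23 : TorT :=
  ⟨[(0, 0, true), (0, 4, false), (1, 1, true), (1, 4, true), (2, 2, true), (2, 6, true), (3, 3, true), (3, 6, false),
    (5, 5, false)],
    [([0, 0, 0, 1, 0, 0, 2], 2), ([0, 0, 1, 1, 1, 0, 0], 2), ([0, 1, 0, 0, 0, 2, 0], 2), ([1, 0, 0, 0, 1, 0, 0], 2),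
    ([1, 1, 1, 0, 0, 0, 0], 2)]⟩

theorem tord7r_23_ok : tord7r_23.OK 7 := TT.leaf_ok (T := ttd7r_23) (by decide +kernel)

/-- the torus -/
def ttd7r_24 : TT where
  k := 4
  rf := [false, false, true, true]
  tau := [7, 17, 18, 19, 21, 22, 13, 0, 24, 25, 26, 14, 15, 6, 11, 12, 23, 1, 2, 3, 27, 4, 5, 16, 8, 9, 10, 20]
  par := [0, 0, 1, 4]
  stars := [[0, 13, 16, 24, 8], [1, 7, 6, 23, 17], [2, 18], [3, 19], [4, 20, 21], [5, 22], [9, 25], [10, 26], [11,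
    27, 14], [12, 15]]
  word := [[], [], [], [], [], [], [3], [], [0], [0], [0], [0], [0], [2], [1], [1], [2], [], [], [], [], [], [], [3],
    [1], [1], [1], []]
  rank := [0, 0, 1, 2, 0, 1, 2, 0, 2, 1, 0, 4, 5, 2, 4, 5, 0, 0, 1, 2, 3, 0, 1, 0, 2, 1, 0, 3]
  just := [0, 0, 2, 3, 0, 5, 1, 0, 6, 7, 0, 8, 9, 1, 8, 9, 0, 0, 2, 3, 4, 0, 5, 0, 6, 7, 0, 4]
  gA := 10
  gB := 16
  fin := 0
  sid := [0, 1, 2, 3, 4, 5, 1, 1, 0, 6, 7, 8, 9, 0, 8, 9, 0, 1, 2, 3, 4, 4, 5, 1, 0, 6, 7, 8]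
  off := [(0, 0), (0, 0), (0, 0), (0, 0), (0, 0), (0, 0), (0, -1), (0, 0), (0, 0), (0, 0), (0, 0), (0, 0), (0, 0),
    (0, 1), (-1, 0), (-1, 0), (-1, 1), (0, 0), (0, 0), (0, 0), (0, 0), (0, 0), (0, 0), (0, -1), (-1, 0), (-1, 0),
    (-1, 0), (-1, 0)]

/-- glued arcs and equations -/
def tord7r_24 : TorT :=
  ⟨[(0, 0, true), (0, 4, false), (1, 3, false), (1, 5, false), (2, 2, true), (2, 4, false), (3, 5, false), (6, 6,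
    true)],
    [([0, 0, 0, 1, 0, 1, 0], 2), ([0, 0, 1, 0, 1, 0, 0], 2), ([0, 1, 0, 0, 0, 1, 0], 2), ([1, 0, 0, 0, 1, 0, 1], 2),
    ([1, 1, 1, 1, 0, 0, 1], 2)]⟩

theorem tord7r_24_ok : tord7r_24.OK 7 := TT.leaf_ok (T := ttd7r_24) (by decide +kernel)

/-- the torus -/
def ttd7r_25 : TT where
  k := 4
  rf := [false, true, false, true]
  tau := [9, 17, 16, 15, 21, 22, 20, 18, 19, 0, 26, 25, 24, 27, 23, 3, 2, 1, 7, 8, 6, 4, 5, 14, 12, 11, 10, 13]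
  par := [0, 0, 1, 4]
  stars := [[0, 20, 9], [1, 10, 27, 7, 18], [2, 17], [3, 16], [4, 15, 24, 13, 21], [5, 22], [6, 23, 14], [8, 19],
    [11, 26], [12, 25]]
  word := [[], [], [], [], [], [], [1, 2], [2, 1], [2, 1], [], [0], [0], [0], [2], [3, 0], [], [], [], [0, 3], [0,
    3], [3, 0], [], [], [1, 2], [1], [1], [1], [3]]
  rank := [0, 0, 1, 2, 0, 1, 4, 2, 3, 0, 1, 0, 1, 0, 3, 2, 1, 0, 2, 3, 4, 0, 1, 3, 1, 0, 1, 0]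
  just := [0, 0, 2, 3, 0, 5, 6, 1, 7, 0, 8, 0, 9, 0, 4, 3, 2, 0, 1, 7, 6, 0, 5, 4, 9, 0, 8, 0]
  gA := 11
  gB := 13
  fin := 0
  sid := [0, 1, 2, 3, 4, 5, 6, 1, 7, 0, 1, 8, 9, 4, 6, 4, 3, 2, 1, 7, 0, 4, 5, 6, 4, 9, 8, 1]
  off := [(0, 0), (0, 0), (0, 0), (0, 0), (0, 0), (0, 0), (0, 0), (-1, 1), (0, 0), (0, 0), (0, 0), (0, 0), (0, 0),
    (0, 1), (1, -1), (0, 0), (0, 0), (0, 0), (0, 0), (1, -1), (1, -1), (0, 0), (0, 0), (0, 0), (-1, 1), (-1, 0), (-1,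
    0), (-1, 0)]

/-- glued arcs and equations -/
def tord7r_25 : TorT :=
  ⟨[(0, 2, false), (0, 4, false), (1, 3, true), (1, 5, false), (2, 2, true), (3, 5, true), (4, 4, true), (6, 6,
    true)],
    [([0, 0, 0, 0, 1, 1, 0], 2), ([0, 0, 1, 1, 0, 0, 0], 2), ([0, 1, 0, 0, 0, 1, 0], 2), ([1, 0, 1, 0, 0, 0, 1], 2),
    ([1, 1, 0, 1, 1, 0, 1], 2)]⟩

theorem tord7r_25_ok : tord7r_25.OK 7 := TT.leaf_ok (T := ttd7r_25) (by decide +kernel)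

/-- the torus -/
def ttd7r_26 : TT where
  k := 8
  rf := [false, false, true, true, false, false, true, true]
  tau := [7, 10, 9, 8, 14, 15, 20, 0, 3, 2, 1, 21, 22, 27, 4, 5, 32, 33, 30, 31, 6, 11, 12, 39, 40, 37, 38, 13, 46,
    47, 18, 19, 16, 17, 48, 53, 54, 25, 26, 23, 24, 55, 49, 52, 51, 50, 28, 29, 34, 42, 45, 44, 43, 35, 36, 41]
  par := [0, 0, 4, 11, 16, 23, 28, 35]
  stars := [[0, 14, 4, 8], [1, 7, 21, 11], [2, 10], [3, 9], [5, 15], [6, 16, 32, 20], [12, 22], [13, 23, 39, 27],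
    [17, 33], [18, 30, 48, 34], [19, 31], [24, 40], [25, 37, 55, 41], [26, 38], [28, 42, 50, 46], [29, 47], [35, 49,
    43, 53], [36, 54], [44, 52], [45, 51]]
  word := [[], [1], [1], [1], [], [], [2, 0, 3], [], [0], [0], [0], [], [], [1], [], [], [], [], [2, 1, 3], [2, 1,
    3], [2, 1, 3], [], [], [], [], [0], [0], [0], [], [], [2, 0, 3], [2, 0, 3], [], [], [2, 1, 3], [], [], [1], [1],
    [], [], [0], [2, 0], [2], [2], [2], [], [], [2, 0, 3], [1, 3], [3], [3], [3], [], [], [1]]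
  rank := [0, 5, 6, 7, 0, 1, 6, 0, 7, 6, 5, 0, 1, 4, 0, 1, 0, 1, 4, 5, 6, 0, 1, 0, 1, 2, 3, 4, 0, 1, 4, 5, 0, 1, 3,
    0, 1, 2, 3, 0, 1, 0, 2, 1, 0, 1, 0, 1, 3, 2, 1, 0, 1, 0, 1, 0]
  just := [0, 1, 2, 3, 0, 4, 5, 0, 3, 2, 1, 0, 6, 7, 0, 4, 0, 8, 9, 10, 5, 0, 6, 0, 11, 12, 13, 7, 0, 15, 9, 10, 0,
    8, 14, 0, 17, 12, 13, 0, 11, 0, 16, 18, 0, 19, 0, 15, 14, 16, 19, 0, 18, 0, 17, 0]
  gA := 41
  gB := 44
  fin := 0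
  sid := [0, 1, 2, 3, 0, 4, 5, 1, 0, 3, 2, 1, 6, 7, 0, 4, 5, 8, 9, 10, 5, 1, 6, 7, 11, 12, 13, 7, 14, 15, 9, 10, 5,
    8, 9, 16, 17, 12, 13, 7, 11, 12, 14, 16, 18, 19, 14, 15, 9, 16, 14, 19, 18, 16, 17, 12]
  off := [(0, 0), (0, 0), (0, 0), (0, 0), (-1, 0), (0, 0), (0, 0), (0, 0), (0, 0), (1, 0), (1, 0), (1, 0), (0, 0),
    (0, 0), (-1, 0), (0, 0), (0, 0), (0, 0), (0, 0), (0, 0), (-1, 0), (1, 0), (0, 0), (0, 0), (0, 0), (0, 0), (0, 0),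
    (1, 0), (0, 0), (0, 0), (1, 0), (1, 0), (0, 0), (0, 0), (0, 0), (0, 0), (0, 0), (-1, 0), (-1, 0), (0, 0), (0, 0),
    (0, 0), (1, 0), (0, 1), (0, 0), (0, 0), (0, 0), (0, 0), (1, 0), (-1, 0), (0, -1), (0, -1), (0, -1), (0, 0), (0,
    0), (-1, 0)]

/-- glued arcs and equations -/
def tord7r_26 : TorT :=
  ⟨[(0, 0, true), (0, 4, false), (1, 3, true), (1, 5, false), (2, 2, true), (2, 4, false), (3, 5, false), (6, 6,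
    false)],
    [([0, 0, 0, 1, 0, 1, 0], 2), ([0, 0, 1, 0, 1, 0, 2], 2), ([0, 0, 1, 1, 0, 0, 0], 2), ([0, 1, 0, 0, 0, 1, 0], 2),
    ([2, 1, 0, 0, 1, 0, 0], 2)]⟩

theorem tord7r_26_ok : tord7r_26.OK 7 := TT.leaf_ok (T := ttd7r_26) (by decide +kernel)

/-- the torus -/
def ttd7r_27 : TT where
  k := 4
  rf := [false, false, true, true]
  tau := [7, 10, 9, 8, 14, 15, 20, 0, 3, 2, 1, 21, 22, 27, 4, 5, 25, 24, 23, 26, 6, 11, 12, 18, 17, 16, 19, 13]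
  par := [0, 0, 4, 11]
  stars := [[0, 14, 4, 8], [1, 7, 21, 11], [2, 10], [3, 9], [5, 15], [6, 16, 26, 20], [12, 22], [13, 23, 19, 27],
    [17, 25], [18, 24]]
  word := [[], [0], [0], [0], [], [], [2, 1, 3], [], [1], [1], [1], [], [], [0], [], [], [2], [2], [2], [2, 0], [2,
    0, 3], [], [], [3], [3], [3], [1, 3], [1]]
  rank := [0, 1, 2, 3, 0, 1, 3, 0, 3, 2, 1, 0, 1, 0, 0, 1, 2, 1, 0, 2, 3, 0, 1, 0, 1, 2, 2, 0]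
  just := [0, 1, 2, 3, 0, 4, 5, 0, 3, 2, 1, 0, 6, 0, 0, 4, 8, 9, 0, 7, 5, 0, 6, 0, 9, 8, 7, 0]
  gA := 13
  gB := 18
  fin := 0
  sid := [0, 1, 2, 3, 0, 4, 5, 1, 0, 3, 2, 1, 6, 7, 0, 4, 5, 8, 9, 7, 5, 1, 6, 7, 9, 8, 5, 7]
  off := [(0, 0), (0, 0), (0, 0), (0, 0), (1, 0), (0, 0), (0, 0), (0, 0), (0, 0), (-1, 0), (-1, 0), (-1, 0), (0, 0),
    (0, 0), (1, 0), (0, 0), (0, 0), (0, 0), (0, 0), (0, 1), (1, 0), (-1, 0), (0, 0), (0, 0), (0, -1), (0, -1), (0,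
    -1), (-1, 0)]

/-- glued arcs and equations -/
def tord7r_27 : TorT :=
  ⟨[(0, 0, true), (0, 4, false), (1, 3, true), (1, 5, false), (2, 2, true), (2, 4, true), (3, 3, true), (5, 5, true),
    (6, 6, false)],
    [([0, 0, 0, 1, 1, 0, 0], 2), ([0, 0, 1, 0, 0, 1, 2], 2), ([0, 0, 1, 1, 0, 0, 0], 2), ([0, 1, 0, 0, 0, 1, 0], 2),
    ([2, 1, 0, 0, 1, 0, 0], 2)]⟩

theorem tord7r_27_ok : tord7r_27.OK 7 := TT.leaf_ok (T := ttd7r_27) (by decide +kernel)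

/-- the torus -/
def ttd7r_28 : TT where
  k := 4
  rf := [false, true, false, true]
  tau := [9, 10, 16, 12, 21, 22, 20, 18, 19, 0, 1, 25, 3, 27, 23, 24, 2, 26, 7, 8, 6, 4, 5, 14, 15, 11, 17, 13]
  par := [0, 0, 2, 4]
  stars := [[0, 20, 9], [1, 10], [2, 11, 26, 17], [3, 16, 25, 12], [4, 13, 21], [5, 22], [6, 23, 14], [7, 18, 27],
    [8, 19], [15, 24]]
  word := [[], [], [], [0], [], [], [3, 1], [1, 3], [1, 3], [], [], [2], [1], [1], [0, 2], [0, 2], [], [2], [2, 0],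
    [2, 0], [0, 2], [], [], [3, 1], [3, 1], [3], [3], [0]]
  rank := [0, 1, 0, 0, 0, 1, 3, 3, 4, 0, 1, 0, 0, 1, 2, 1, 0, 2, 3, 4, 3, 0, 1, 2, 1, 0, 2, 1]
  just := [0, 1, 0, 0, 0, 5, 6, 7, 8, 0, 1, 0, 0, 4, 9, 3, 0, 2, 7, 8, 6, 0, 5, 9, 3, 0, 2, 4]
  gA := 3
  gB := 11
  fin := 0
  sid := [0, 1, 2, 3, 4, 5, 6, 7, 8, 0, 1, 2, 3, 4, 6, 9, 3, 2, 7, 8, 0, 4, 5, 6, 9, 3, 2, 7]
  off := [(0, 0), (0, 0), (0, 0), (0, 0), (0, 0), (0, 0), (0, 0), (0, 0), (0, 0), (0, 0), (0, 0), (0, 0), (-1, 0),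
    (-1, 0), (1, 1), (0, 0), (0, 0), (0, 0), (1, 1), (1, 1), (1, 1), (0, 0), (0, 0), (0, 0), (-1, -1), (-1, -1), (0,
    -1), (1, 0)]

/-- glued arcs and equations -/
def tord7r_28 : TorT :=
  ⟨[(0, 2, false), (0, 4, false), (1, 3, false), (1, 5, false), (2, 2, true), (3, 5, false), (4, 4, true), (6, 6,
    true)],
    [([0, 0, 1, 1, 1, 1, 0], 2), ([0, 1, 0, 0, 0, 1, 0], 2), ([0, 1, 0, 1, 0, 0, 0], 2), ([1, 0, 0, 0, 1, 0, 1], 2),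
    ([1, 0, 1, 0, 0, 0, 1], 2)]⟩

theorem tord7r_28_ok : tord7r_28.OK 7 := TT.leaf_ok (T := ttd7r_28) (by decide +kernel)

/-- the torus -/
def ttd7r_29 : TT where
  k := 4
  rf := [false, false, true, true]
  tau := [7, 8, 14, 15, 16, 12, 20, 0, 1, 21, 22, 23, 5, 27, 2, 3, 4, 26, 25, 24, 6, 9, 10, 11, 19, 18, 17, 13]
  par := [0, 0, 2, 9]
  stars := [[0, 14, 2, 8], [1, 7, 21, 9], [3, 15], [4, 16], [5, 17, 27, 13], [6, 12, 24, 20], [10, 22], [11, 23],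
    [18, 26], [19, 25]]
  word := [[], [1, 2], [], [], [], [0], [0, 3], [], [3, 0], [], [], [], [1], [1, 2], [], [], [], [2], [2], [2], [2,
    1], [], [], [], [3], [3], [3], [3, 0]]
  rank := [0, 4, 0, 1, 2, 0, 3, 0, 4, 0, 1, 2, 0, 3, 0, 1, 2, 1, 0, 1, 3, 0, 1, 2, 1, 0, 1, 3]
  just := [0, 1, 0, 2, 3, 0, 5, 0, 1, 0, 6, 7, 0, 4, 0, 2, 3, 8, 0, 9, 5, 0, 6, 7, 9, 0, 8, 4]
  gA := 5
  gB := 18
  fin := 0
  sid := [0, 1, 0, 2, 3, 4, 5, 1, 0, 1, 6, 7, 5, 4, 0, 2, 3, 4, 8, 9, 5, 1, 6, 7, 5, 9, 8, 4]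
  off := [(0, 0), (0, 0), (-1, 1), (0, 0), (0, 0), (0, 0), (0, 0), (0, 0), (0, 0), (1, -1), (0, 0), (0, 0), (-1, 0),
    (-1, 0), (-1, 1), (0, 0), (0, 0), (0, 0), (0, 0), (0, 0), (-1, 1), (1, -1), (0, 0), (0, 0), (-1, 0), (0, -1), (0,
    -1), (0, -1)]

/-- glued arcs and equations -/
def tord7r_29 : TorT :=
  ⟨[(0, 0, true), (0, 2, false), (1, 1, true), (1, 3, false), (2, 4, false), (3, 5, true), (4, 4, true), (5, 5,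
    true), (6, 6, false)],
    [([0, 0, 0, 0, 1, 1, 0], 2), ([0, 0, 0, 1, 0, 1, 2], 2), ([0, 0, 1, 0, 1, 0, 0], 2), ([0, 1, 0, 1, 0, 0, 0], 2),
    ([2, 1, 1, 0, 0, 0, 0], 2)]⟩

theorem tord7r_29_ok : tord7r_29.OK 7 := TT.leaf_ok (T := ttd7r_29) (by decide +kernel)

/-- the torus -/
def ttd7r_30 : TT where
  k := 4
  rf := [false, false, true, true]
  tau := [7, 5, 14, 15, 16, 1, 13, 0, 12, 21, 22, 23, 8, 6, 2, 3, 4, 26, 25, 24, 27, 9, 10, 11, 19, 18, 17, 20]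
  par := [0, 0, 2, 9]
  stars := [[0, 13, 8], [1, 7, 6], [2, 5, 17, 27, 14], [3, 15], [4, 16], [9, 12, 24, 20, 21], [10, 22], [11, 23],
    [18, 26], [19, 25]]
  word := [[], [2, 1], [], [], [], [0, 3], [0, 3], [], [3, 0], [], [], [], [1, 2], [2, 1], [], [], [], [0], [0], [0],
    [2], [], [], [], [1], [1], [1], [3]]
  rank := [0, 3, 0, 1, 2, 3, 4, 0, 3, 0, 1, 2, 3, 4, 0, 1, 2, 1, 0, 1, 0, 0, 1, 2, 1, 0, 1, 0]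
  just := [0, 2, 0, 3, 4, 2, 1, 0, 5, 0, 6, 7, 5, 1, 0, 3, 4, 8, 0, 9, 0, 0, 6, 7, 9, 0, 8, 0]
  gA := 18
  gB := 20
  fin := 0
  sid := [0, 1, 2, 3, 4, 2, 1, 1, 0, 5, 6, 7, 5, 0, 2, 3, 4, 2, 8, 9, 5, 5, 6, 7, 5, 9, 8, 2]
  off := [(0, 0), (0, 0), (0, 0), (0, 0), (0, 0), (1, -1), (1, -1), (0, 0), (0, 0), (0, 0), (0, 0), (0, 0), (-1, 1),
    (-1, 1), (0, 0), (0, 0), (0, 0), (1, -1), (0, 0), (0, 0), (0, 1), (0, 0), (0, 0), (0, 0), (-1, 1), (-1, 0), (-1,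
    0), (0, -1)]

/-- glued arcs and equations -/
def tord7r_30 : TorT :=
  ⟨[(0, 0, true), (0, 2, false), (1, 3, false), (1, 5, true), (2, 4, false), (3, 5, true), (4, 4, true), (6, 6,
    true)],
    [([0, 0, 0, 0, 1, 1, 0], 2), ([0, 0, 1, 0, 1, 0, 0], 2), ([0, 1, 0, 1, 0, 0, 0], 2), ([1, 0, 1, 1, 0, 1, 1], 2),
    ([1, 1, 0, 0, 0, 0, 1], 2)]⟩

theorem tord7r_30_ok : tord7r_30.OK 7 := TT.leaf_ok (T := ttd7r_30) (by decide +kernel)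

/-- the torus -/
def ttd7r_31 : TT where
  k := 4
  rf := [false, true, true, false]
  tau := [9, 10, 11, 12, 14, 26, 27, 25, 15, 0, 1, 2, 3, 20, 4, 8, 21, 22, 23, 24, 13, 16, 17, 18, 19, 7, 5, 6]
  par := [0, 0, 4, 5]
  stars := [[0, 27, 5, 15, 9], [1, 10], [2, 11], [3, 12], [4, 13, 14], [6, 26, 8, 16, 21], [7, 25, 20], [17, 22],
    [18, 23], [19, 24]]
  word := [[], [], [], [], [], [], [3, 0, 2], [2], [0], [], [], [], [], [], [], [1], [2], [2], [2], [2], [], [3],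
    [3], [3], [3], [3], [], [3, 1, 2]]
  rank := [0, 1, 2, 3, 0, 0, 6, 5, 0, 0, 1, 2, 3, 4, 0, 0, 2, 1, 0, 1, 4, 2, 1, 0, 1, 5, 0, 6]
  just := [0, 1, 2, 3, 0, 0, 5, 6, 0, 0, 1, 2, 3, 4, 0, 0, 7, 8, 0, 9, 4, 7, 8, 0, 9, 6, 0, 5]
  gA := 8
  gB := 18
  fin := 0
  sid := [0, 1, 2, 3, 4, 0, 5, 6, 5, 0, 1, 2, 3, 4, 4, 0, 5, 7, 8, 9, 6, 5, 7, 8, 9, 6, 5, 0]
  off := [(0, 0), (0, 0), (0, 0), (0, 0), (0, 0), (-1, 0), (0, 0), (0, 0), (0, 1), (0, 0), (0, 0), (0, 0), (0, 0),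
    (0, 0), (0, 0), (-1, 0), (-1, 1), (0, 0), (0, 0), (0, 0), (0, 0), (-1, 0), (0, -1), (0, -1), (0, -1), (0, -1),
    (0, 0), (-1, 0)]

/-- glued arcs and equations -/
def tord7r_31 : TorT :=
  ⟨[(0, 2, false), (0, 4, false), (1, 1, true), (1, 3, false), (2, 4, false), (3, 5, false), (5, 5, true), (6, 6,
    true)],
    [([0, 0, 0, 1, 0, 1, 0], 2), ([0, 0, 1, 0, 1, 0, 0], 2), ([0, 1, 0, 1, 0, 0, 0], 2), ([1, 0, 0, 0, 1, 0, 1], 2),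
    ([1, 1, 1, 0, 0, 1, 1], 2)]⟩

theorem tord7r_31_ok : tord7r_31.OK 7 := TT.leaf_ok (T := ttd7r_31) (by decide +kernel)

/-- the torus -/
def ttd7r_32 : TT where
  k := 4
  rf := [false, false, true, true]
  tau := [7, 8, 14, 15, 16, 17, 20, 0, 1, 21, 22, 23, 24, 27, 2, 3, 4, 5, 25, 26, 6, 9, 10, 11, 12, 18, 19, 13]
  par := [0, 0, 2, 9]
  stars := [[0, 14, 2, 8], [1, 7, 21, 9], [3, 15], [4, 16], [5, 17], [6, 18, 26, 20], [10, 22], [11, 23], [12, 24],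
    [13, 25, 19, 27]]
  word := [[], [1, 2], [], [], [], [], [0, 3], [], [3, 0], [], [], [], [], [1, 2], [], [], [], [], [0], [2], [2, 1],
    [], [], [], [], [1], [3], [3, 0]]
  rank := [0, 5, 0, 1, 2, 3, 4, 0, 5, 0, 1, 2, 3, 4, 0, 1, 2, 3, 0, 0, 4, 0, 1, 2, 3, 0, 0, 4]
  just := [0, 1, 0, 2, 3, 4, 5, 0, 1, 0, 6, 7, 8, 9, 0, 2, 3, 4, 0, 0, 5, 0, 6, 7, 8, 0, 0, 9]
  gA := 18
  gB := 19
  fin := 0
  sid := [0, 1, 0, 2, 3, 4, 5, 1, 0, 1, 6, 7, 8, 9, 0, 2, 3, 4, 5, 9, 5, 1, 6, 7, 8, 9, 5, 9]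
  off := [(0, 0), (0, 0), (-1, 1), (0, 0), (0, 0), (0, 0), (0, 0), (0, 0), (0, 0), (1, -1), (0, 0), (0, 0), (0, 0),
    (0, 0), (-1, 1), (0, 0), (0, 0), (0, 0), (0, 0), (1, 0), (-1, 1), (1, -1), (0, 0), (0, 0), (0, 0), (0, 0), (-1,
    0), (1, -1)]

/-- glued arcs and equations -/
def tord7r_32 : TorT :=
  ⟨[(0, 0, true), (0, 2, false), (1, 1, true), (1, 3, false), (2, 4, false), (3, 5, false), (4, 4, true), (5, 5,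
    true), (6, 6, false)],
    [([0, 0, 0, 0, 1, 1, 2], 2), ([0, 0, 0, 1, 0, 1, 0], 2), ([0, 0, 1, 0, 1, 0, 0], 2), ([0, 1, 0, 1, 0, 0, 0], 2),
    ([2, 1, 1, 0, 0, 0, 0], 2)]⟩

theorem tord7r_32_ok : tord7r_32.OK 7 := TT.leaf_ok (T := ttd7r_32) (by decide +kernel)

end Pool.Agent.Lib_MP_fa6e45
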