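import Pool.Agent.Lib_MP_fa6e45.CT5

/-!
MP_fa6e45_co, stage 9: straight-side patterns with `7` sides, tables of tori (generated by a program).
-/

namespace Pool.Agent.Lib_MP_fa6e45

/-- the torus -/
def ttd7r_33 : TT where
  k := 4
  rf := [false, true, true, false]
  tau := [4, 12, 14, 15, 0, 26, 27, 23, 24, 18, 17, 16, 1, 20, 2, 3, 11, 10, 9, 22, 13, 25, 19, 7, 8, 21, 5, 6]
  par := [0, 1, 2, 5]
  stars := [[0, 27, 5], [1, 4, 16, 12], [2, 13, 14], [3, 15], [6, 26, 21], [7, 23, 20], [8, 24], [9, 19, 22, 25],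
    [10, 18], [11, 17]]
  word := [[2], [], [], [], [3], [], [1, 2, 0], [0], [0], [2], [2], [2], [], [], [], [], [3], [3], [3], [0], [], [1,
    3, 0], [1], [1], [1], [1, 2, 0], [], [1, 3, 0]]
  rank := [3, 0, 0, 1, 3, 0, 4, 0, 1, 0, 1, 2, 0, 1, 0, 1, 2, 1, 0, 2, 1, 3, 2, 0, 1, 3, 0, 4]
  just := [1, 0, 0, 3, 1, 0, 4, 0, 6, 0, 8, 9, 0, 2, 0, 3, 9, 8, 0, 5, 2, 7, 5, 0, 6, 7, 0, 4]
  gA := 7
  gB := 9
  fin := 0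
  sid := [0, 1, 2, 3, 1, 0, 4, 5, 6, 7, 8, 9, 1, 2, 2, 3, 1, 9, 8, 7, 5, 4, 7, 5, 6, 7, 4, 0]
  off := [(0, 0), (0, 0), (0, 0), (0, 0), (0, -1), (0, -1), (0, 0), (0, 0), (0, 0), (0, 0), (0, 0), (0, 0), (0, 0),
    (0, 0), (0, 0), (0, 0), (0, -1), (0, -1), (0, -1), (0, -1), (0, 0), (0, -1), (-1, -1), (-1, 0), (-1, 0), (-1, 0),
    (0, 0), (0, -1)]

/-- glued arcs and equations -/
def tord7r_33 : TorT :=
  ⟨[(0, 2, false), (0, 4, true), (1, 3, false), (1, 5, false), (2, 4, true), (3, 3, true), (5, 5, true), (6, 6,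
    true)],
    [([0, 0, 0, 1, 1, 0, 0], 2), ([0, 1, 0, 1, 0, 0, 0], 2), ([0, 1, 1, 0, 1, 1, 0], 2), ([1, 0, 0, 0, 0, 1, 1], 2),
    ([1, 0, 1, 0, 0, 0, 1], 2)]⟩

theorem tord7r_33_ok : tord7r_33.OK 7 := TT.leaf_ok (T := ttd7r_33) (by decide +kernel)

/-- the torus -/
def ttd7r_34 : TT where
  k := 4
  rf := [false, false, true, true]
  tau := [12, 8, 14, 15, 20, 7, 13, 5, 1, 21, 22, 27, 0, 6, 2, 3, 19, 24, 25, 16, 4, 9, 10, 26, 17, 18, 23, 11]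
  par := [0, 0, 2, 9]
  stars := [[0, 13], [1, 12, 21, 9], [2, 8, 5, 14], [3, 15], [4, 16, 20], [6, 7], [10, 22], [11, 23, 27], [17, 25,
    19], [18, 26, 24]]
  word := [[], [1, 2], [], [], [0, 3], [0, 3, 1, 2], [0, 3, 1, 2], [3, 0, 2, 1], [3, 0], [], [], [1, 2], [], [3, 0,
    2, 1], [], [], [0, 3], [0], [2], [2, 1], [2, 1], [], [], [1, 2], [1], [3], [3, 0], [3, 0]]
  rank := [0, 3, 0, 1, 2, 4, 5, 4, 3, 0, 1, 2, 0, 5, 0, 1, 1, 0, 0, 1, 2, 0, 1, 1, 0, 0, 1, 2]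
  just := [0, 1, 0, 3, 4, 2, 5, 2, 1, 0, 6, 7, 0, 5, 0, 3, 8, 0, 0, 8, 4, 0, 6, 9, 0, 0, 9, 7]
  gA := 17
  gB := 18
  fin := 0
  sid := [0, 1, 2, 3, 4, 2, 5, 5, 2, 1, 6, 7, 1, 0, 2, 3, 4, 8, 9, 8, 4, 1, 6, 7, 9, 8, 9, 7]
  off := [(0, 0), (0, 0), (0, 0), (0, 0), (0, 0), (1, -1), (0, 0), (0, 0), (1, -1), (1, -1), (0, 0), (0, 0), (0, 0),
    (0, 0), (0, 0), (0, 0), (0, 0), (0, 0), (0, 0), (-1, 1), (-1, 1), (1, -1), (0, 0), (0, 0), (-1, 0), (-1, 0), (0,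
    -1), (1, -1)]

/-- glued arcs and equations -/
def tord7r_34 : TorT :=
  ⟨[(0, 2, false), (0, 5, true), (1, 1, true), (1, 3, false), (2, 5, true), (3, 3, true), (4, 4, true), (4, 6,
    false), (6, 6, true)],
    [([0, 0, 0, 1, 1, 1, 0], 2), ([0, 0, 1, 0, 1, 0, 1], 2), ([0, 1, 0, 1, 0, 0, 0], 2), ([1, 0, 0, 0, 0, 0, 1], 2),
    ([1, 1, 1, 0, 0, 1, 0], 2)]⟩

theorem tord7r_34_ok : tord7r_34.OK 7 := TT.leaf_ok (T := ttd7r_34) (by decide +kernel)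

/-- the torus -/
def ttd7r_35 : TT where
  k := 4
  rf := [false, true, true, false]
  tau := [9, 10, 19, 24, 13, 7, 27, 5, 15, 0, 1, 18, 23, 4, 26, 8, 21, 22, 11, 2, 25, 16, 17, 12, 3, 20, 14, 6]
  par := [0, 0, 2, 3]
  stars := [[0, 27, 15, 9], [1, 10], [2, 11, 19], [3, 20, 25], [4, 24, 13], [5, 7], [6, 8, 16, 21], [12, 23, 18],
    [14, 26], [17, 22]]
  word := [[], [], [], [], [3], [3], [3, 0, 2], [2], [0], [], [], [], [2], [2], [], [1], [2], [2], [], [], [], [3],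
    [3], [3], [], [], [], [3, 1, 2]]
  rank := [0, 1, 0, 0, 1, 2, 5, 2, 0, 0, 1, 2, 0, 1, 2, 0, 4, 3, 2, 0, 1, 4, 3, 0, 0, 1, 2, 5]
  just := [0, 1, 0, 0, 4, 5, 6, 5, 0, 0, 1, 2, 0, 4, 8, 0, 9, 7, 2, 0, 3, 9, 7, 0, 0, 3, 8, 6]
  gA := 8
  gB := 12
  fin := 0
  sid := [0, 1, 2, 3, 4, 5, 6, 5, 6, 0, 1, 2, 7, 4, 8, 0, 6, 9, 7, 2, 3, 6, 9, 7, 4, 3, 8, 0]
  off := [(0, 0), (0, 0), (0, 0), (0, 0), (0, 0), (0, 0), (0, 0), (0, 1), (0, 1), (0, 0), (0, 0), (0, 0), (0, 0), (0,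
    1), (0, 0), (-1, 0), (-1, 1), (0, 0), (0, 0), (0, 0), (0, 0), (-1, 0), (0, -1), (0, -1), (0, 0), (0, 0), (0, 0),
    (-1, 0)]

/-- glued arcs and equations -/
def tord7r_35 : TorT :=
  ⟨[(0, 2, false), (0, 5, false), (1, 1, true), (1, 3, false), (2, 5, false), (3, 3, true), (4, 4, true), (4, 6,
    false), (6, 6, true)],
    [([0, 0, 0, 1, 1, 0, 1], 2), ([0, 0, 1, 0, 1, 1, 0], 2), ([0, 1, 0, 1, 0, 0, 0], 2), ([1, 0, 0, 0, 0, 1, 0], 2),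
    ([1, 1, 1, 0, 0, 0, 1], 2)]⟩

theorem tord7r_35_ok : tord7r_35.OK 7 := TT.leaf_ok (T := ttd7r_35) (by decide +kernel)

/-- the torus -/
def ttd7r_36 : TT where
  k := 4
  rf := [false, false, true, true]
  tau := [9, 8, 7, 15, 11, 23, 18, 2, 1, 0, 22, 4, 16, 25, 26, 3, 12, 24, 6, 21, 27, 19, 10, 5, 17, 13, 14, 20]
  par := [0, 0, 3, 5]
  stars := [[0, 19, 22, 10], [1, 9], [2, 8], [3, 7, 26, 15], [4, 16, 12], [5, 11, 23], [6, 24, 18], [13, 17, 25],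
    [14, 27], [20, 21]]
  word := [[], [], [], [], [1], [], [3, 0], [], [], [], [0], [0], [0], [2], [2], [], [1], [1, 2], [1, 2], [2], [2],
    [3], [1], [], [3, 0], [3], [3], [3]]
  rank := [0, 1, 2, 0, 1, 0, 5, 2, 1, 0, 2, 1, 0, 3, 0, 0, 0, 4, 5, 2, 1, 2, 2, 0, 4, 3, 0, 1]
  just := [0, 1, 2, 0, 4, 0, 6, 2, 1, 0, 5, 4, 0, 3, 0, 0, 0, 7, 6, 9, 8, 9, 5, 0, 7, 3, 0, 8]
  gA := 12
  gB := 14
  fin := 0
  sid := [0, 1, 2, 3, 4, 5, 6, 3, 2, 1, 0, 5, 4, 7, 8, 3, 4, 7, 6, 0, 9, 9, 0, 5, 6, 7, 3, 8]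
  off := [(0, 0), (0, 0), (0, 0), (0, 0), (0, 0), (0, 0), (0, 0), (0, 0), (0, 0), (0, 0), (0, 0), (1, 0), (1, 0), (0,
    0), (0, 0), (0, 0), (0, 0), (-1, 0), (-1, 1), (-1, 1), (0, 0), (0, -1), (-1, 0), (0, 0), (0, 0), (0, -1), (0,
    -1), (0, -1)]

/-- glued arcs and equations -/
def tord7r_36 : TorT :=
  ⟨[(0, 2, true), (0, 5, true), (1, 1, true), (1, 3, false), (2, 5, false), (3, 3, true), (4, 4, true), (4, 6,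
    false), (6, 6, true)],
    [([0, 0, 0, 1, 1, 0, 1], 2), ([0, 0, 1, 0, 1, 1, 0], 2), ([0, 1, 1, 0, 0, 0, 0], 2), ([1, 0, 0, 0, 0, 0, 1], 2),
    ([1, 1, 0, 1, 0, 1, 0], 2)]⟩

theorem tord7r_36_ok : tord7r_36.OK 7 := TT.leaf_ok (T := ttd7r_36) (by decide +kernel)

/-- the torus -/
def ttd7r_37 : TT where
  k := 12
  rf := [false, false, true, false, true, false, true, false, true, false, true, true]
  tau := [10, 9, 18, 24, 32, 40, 48, 16, 17, 1, 0, 42, 43, 55, 53, 54, 7, 8, 2, 59, 27, 52, 51, 46, 3, 60, 68, 20,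
    73, 72, 39, 47, 4, 61, 69, 81, 82, 70, 71, 30, 5, 62, 11, 12, 49, 50, 23, 31, 6, 44, 45, 22, 21, 14, 15, 13, 80,
    79, 67, 19, 25, 33, 41, 74, 75, 77, 78, 58, 26, 34, 37, 38, 29, 28, 63, 64, 83, 65, 66, 57, 56, 35, 36, 76]
  par := [0, 0, 2, 3, 4, 5, 6, 13, 19, 26, 28, 35]
  stars := [[0, 42, 11], [1, 10], [2, 9, 18], [3, 19, 60, 25], [4, 24, 47, 32], [5, 33, 62, 41], [6, 40, 31, 48], [7,
    55, 16], [8, 17], [12, 43], [13, 44, 49], [14, 53, 21], [15, 54], [20, 27, 68, 59], [22, 52], [23, 51, 46], [26,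
    61, 34, 69], [28, 74, 63], [29, 73], [30, 39, 72], [35, 56, 81], [36, 82], [37, 83, 70], [38, 71], [45, 50], [57,
    80], [58, 67, 79], [64, 75], [65, 76, 77], [66, 78]]
  word := [[], [], [], [], [], [], [], [], [], [], [], [1, 3, 0, 2], [1, 3, 0, 2], [], [], [], [], [], [], [], [1, 3,
    0], [1, 2, 0], [1, 2, 0], [2], [], [], [], [1, 2, 0], [], [], [2], [2], [], [0], [0], [], [], [3], [3], [3], [],
    [0], [3, 1, 2, 0], [3, 1, 2, 0], [3, 1, 2, 0], [3, 1, 2, 0], [3], [3], [], [1, 3, 0, 2], [1, 3, 0, 2], [1, 3, 0],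
    [1, 3, 0], [], [], [], [1], [1], [1, 3, 0], [], [], [1], [1], [1], [1], [1, 2], [1, 2], [1, 2, 0], [], [1], [2],
    [2], [], [], [0], [0], [2], [3, 0], [3, 0], [0], [0], [], [], [3]]
  rank := [0, 1, 0, 0, 0, 0, 0, 3, 2, 1, 0, 13, 12, 0, 5, 4, 3, 2, 0, 0, 7, 8, 9, 6, 0, 1, 0, 7, 0, 1, 4, 5, 0, 2, 0,
    0, 1, 2, 3, 4, 0, 3, 13, 12, 11, 10, 6, 5, 0, 11, 10, 9, 8, 5, 4, 0, 4, 5, 6, 0, 1, 2, 3, 1, 2, 3, 4, 6, 0, 0, 2,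
    3, 1, 0, 1, 2, 0, 3, 4, 5, 4, 0, 1, 0]
  just := [0, 1, 0, 0, 0, 0, 0, 8, 2, 1, 0, 9, 10, 0, 12, 7, 8, 2, 0, 0, 13, 11, 14, 4, 0, 3, 0, 13, 0, 18, 19, 6, 0,
    16, 0, 0, 21, 22, 23, 19, 0, 5, 9, 10, 24, 15, 4, 6, 0, 24, 15, 14, 11, 12, 7, 0, 20, 25, 26, 0, 3, 16, 5, 17,
    27, 28, 29, 26, 0, 0, 22, 23, 18, 0, 17, 27, 0, 28, 29, 25, 20, 0, 21, 0]
  gA := 34
  gB := 76
  fin := 0
  sid := [0, 1, 2, 3, 4, 5, 6, 7, 8, 2, 1, 0, 9, 10, 11, 12, 7, 8, 2, 3, 13, 11, 14, 15, 4, 3, 16, 13, 17, 18, 19, 6,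
    4, 5, 16, 20, 21, 22, 23, 19, 6, 5, 0, 9, 10, 24, 15, 4, 6, 10, 24, 15, 14, 11, 12, 7, 20, 25, 26, 13, 3, 16, 5,
    17, 27, 28, 29, 26, 13, 16, 22, 23, 19, 18, 17, 27, 28, 28, 29, 26, 25, 20, 21, 22]
  off := [(0, 0), (0, 0), (0, 0), (0, 0), (0, 0), (0, 0), (0, 0), (0, 0), (0, 0), (0, 0), (0, 0), (0, 0), (0, 0), (0,
    0), (0, 0), (0, 0), (0, 0), (0, 0), (0, 0), (0, 0), (0, 0), (0, 1), (0, 0), (0, 0), (0, 0), (0, 0), (0, 0), (0,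
    1), (0, 0), (0, 0), (0, 0), (0, 1), (0, 0), (0, 0), (1, 0), (0, 0), (0, 0), (0, 0), (0, 0), (0, -1), (0, 0), (0,
    0), (0, 0), (0, 0), (0, 0), (0, 0), (0, -1), (0, -1), (0, 0), (0, 0), (0, 0), (0, -1), (0, -1), (0, 0), (0, 0),
    (0, 0), (-1, 0), (0, 0), (0, 0), (0, 0), (0, 0), (0, 0), (-1, 0), (-1, 0), (0, 0), (0, 0), (0, 0), (0, 1), (0,
    1), (0, 0), (0, 1), (0, 1), (0, 0), (0, 0), (0, 0), (1, 0), (1, 0), (1, -1), (1, -1), (1, 0), (1, 0), (0, 0), (0,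
    0), (0, 0)]

/-- glued arcs and equations -/
def tord7r_37 : TorT :=
  ⟨[(0, 2, false), (0, 3, true), (0, 4, false), (1, 2, true), (1, 3, false), (1, 5, false), (2, 4, false), (3, 3,
    true), (3, 5, true), (4, 4, false), (5, 5, true), (6, 6, false), (6, 6, true)],
    [([0, 0, 0, 0, 0, 2, 2], 2), ([0, 0, 0, 1, 0, 1, 2], 2), ([0, 0, 0, 1, 2, 1, 0], 2), ([0, 0, 2, 0, 1, 0, 0], 2),
    ([0, 1, 0, 0, 0, 1, 0], 2), ([0, 1, 0, 1, 0, 0, 0], 2), ([1, 0, 1, 0, 0, 0, 1], 2), ([2, 0, 0, 0, 1, 0, 0], 2)]⟩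

theorem tord7r_37_ok : tord7r_37.OK 7 := TT.leaf_ok (T := ttd7r_37) (by decide +kernel)

/-- the torus -/
def ttd7r_38 : TT where
  k := 12
  rf := [false, false, true, false, false, true, false, false, false, true, true, false]
  tau := [7, 14, 9, 22, 31, 30, 41, 0, 35, 2, 43, 52, 51, 20, 1, 44, 60, 61, 49, 50, 13, 64, 3, 36, 45, 59, 58, 76,
    39, 40, 5, 4, 65, 66, 83, 8, 23, 81, 82, 28, 29, 6, 71, 10, 15, 24, 80, 79, 69, 18, 19, 12, 11, 72, 73, 62, 74,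
    75, 26, 25, 16, 17, 55, 70, 21, 32, 33, 77, 78, 48, 63, 42, 53, 54, 56, 57, 27, 67, 68, 47, 46, 37, 38, 34]
  par := [0, 0, 1, 3, 4, 6, 10, 11, 16, 21, 27, 34]
  stars := [[0, 35, 8], [1, 7, 14], [2, 15, 44, 10], [3, 9, 36, 23], [4, 22, 65, 32], [5, 31], [6, 30, 41], [11, 43,
    72, 53], [12, 52], [13, 51, 20], [16, 60, 25, 45], [17, 61], [18, 49, 62], [19, 50], [21, 70, 64], [24, 37, 81,
    46], [26, 59], [27, 58, 76], [28, 83, 39], [29, 40], [33, 66], [34, 67, 77], [38, 82], [42, 63, 71], [47, 80],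
    [48, 79, 69], [54, 73], [55, 74, 56], [57, 75], [68, 78]]
  word := [[], [], [2, 0], [], [], [], [], [], [1, 3, 0, 2], [1, 3], [], [], [], [], [], [2, 0], [], [], [], [], [],
    [], [], [0, 2], [0], [3], [3], [], [], [], [], [], [], [], [], [3, 1, 2, 0], [3, 1], [], [], [], [], [], [2], [],
    [1, 3], [1], [2], [2], [2], [], [], [], [], [2], [2], [], [2], [2], [2], [2], [], [], [], [], [], [], [], [], [],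
    [3], [], [3], [3], [3], [3], [3], [], [], [], [3], [3], [], [], []]
  rank := [0, 0, 10, 0, 0, 1, 0, 0, 11, 10, 0, 0, 1, 1, 0, 9, 0, 1, 3, 2, 1, 0, 0, 7, 0, 8, 7, 0, 3, 2, 1, 0, 1, 2,
    0, 11, 7, 5, 4, 3, 2, 0, 2, 0, 9, 0, 6, 5, 3, 3, 2, 1, 0, 1, 0, 4, 5, 6, 7, 8, 0, 1, 4, 1, 0, 1, 2, 3, 4, 3, 1,
    2, 1, 0, 5, 6, 0, 3, 4, 5, 6, 5, 4, 0]
  just := [0, 0, 2, 0, 0, 5, 0, 0, 3, 2, 0, 0, 8, 1, 0, 10, 0, 11, 13, 9, 1, 0, 0, 15, 0, 16, 17, 0, 19, 6, 5, 0, 4,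
    20, 0, 3, 15, 22, 18, 19, 6, 0, 7, 0, 10, 0, 24, 25, 23, 13, 9, 8, 0, 26, 0, 12, 27, 28, 17, 16, 0, 11, 12, 14,
    0, 4, 20, 21, 29, 23, 14, 7, 26, 0, 27, 28, 0, 21, 29, 25, 24, 22, 18, 0]
  gA := 24
  gB := 54
  fin := 0
  sid := [0, 1, 2, 3, 4, 5, 6, 1, 0, 3, 2, 7, 8, 9, 1, 2, 10, 11, 12, 13, 9, 14, 4, 3, 15, 10, 16, 17, 18, 19, 6, 5,
    4, 20, 21, 0, 3, 15, 22, 18, 19, 6, 23, 7, 2, 10, 15, 24, 25, 12, 13, 9, 8, 7, 26, 27, 27, 28, 17, 16, 10, 11,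
    12, 23, 14, 4, 20, 21, 29, 25, 14, 23, 7, 26, 27, 28, 17, 21, 29, 25, 24, 15, 22, 18]
  off := [(0, 0), (0, 0), (0, 0), (0, 0), (0, 0), (0, 0), (0, 0), (0, 0), (0, 0), (-1, -1), (-1, -1), (0, 0), (0, 0),
    (0, 0), (0, 0), (0, 0), (0, 0), (0, 0), (0, 0), (0, 0), (0, 0), (0, 0), (0, 0), (0, 0), (0, 0), (0, -1), (0, 0),
    (0, 0), (0, 0), (0, 0), (0, 0), (0, 0), (0, 0), (0, 0), (0, 0), (0, 0), (-1, -1), (-1, -1), (0, 0), (0, 0), (0,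
    0), (0, 0), (0, 0), (0, 0), (-1, -1), (-1, -1), (-1, 0), (0, 0), (0, 0), (0, 0), (0, 0), (0, 0), (0, 0), (0, 0),
    (0, 0), (0, 0), (0, 0), (0, 0), (0, 1), (0, 1), (0, 0), (0, 0), (0, 0), (0, -1), (0, 0), (0, 0), (0, 0), (0, 0),
    (0, 0), (0, -1), (0, 0), (0, -1), (0, -1), (0, -1), (0, -1), (0, -1), (0, 0), (0, 0), (0, 0), (0, -1), (0, -1),
    (-1, -1), (0, 0), (0, 0)]

/-- glued arcs and equations -/
def tord7r_38 : TorT :=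
  ⟨[(0, 0, true), (0, 1, false), (0, 4, false), (1, 2, false), (1, 3, true), (1, 5, false), (2, 2, true), (2, 4,
    false), (2, 5, true), (3, 3, true), (3, 4, true), (3, 5, false), (6, 6, false), (6, 6, true)],
    [([0, 0, 0, 1, 0, 1, 0], 2), ([0, 0, 1, 0, 0, 0, 2], 2), ([0, 0, 1, 1, 2, 0, 0], 2), ([0, 1, 0, 0, 0, 1, 0], 2),
    ([0, 1, 1, 0, 2, 0, 0], 2), ([0, 1, 2, 1, 0, 0, 0], 2), ([1, 0, 0, 0, 1, 0, 1], 2), ([2, 1, 0, 0, 0, 0, 0], 2)]⟩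

theorem tord7r_38_ok : tord7r_38.OK 7 := TT.leaf_ok (T := ttd7r_38) (by decide +kernel)

/-- the torus -/
def ttd7r_39 : TT where
  k := 12
  rf := [false, false, false, true, true, true, false, false, false, false, true, false]
  tau := [10, 9, 18, 17, 16, 25, 34, 30, 31, 1, 0, 28, 36, 48, 52, 51, 4, 3, 2, 32, 27, 53, 61, 49, 50, 5, 33, 20,
    11, 47, 7, 8, 19, 26, 6, 46, 12, 42, 43, 68, 75, 83, 37, 38, 78, 77, 35, 29, 13, 23, 24, 15, 14, 21, 71, 62, 72,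
    73, 64, 63, 70, 22, 55, 59, 58, 81, 80, 79, 39, 76, 60, 54, 56, 57, 82, 40, 69, 45, 44, 67, 66, 65, 74, 41]
  par := [0, 0, 2, 5, 6, 12, 13, 14, 22, 39, 40, 41]
  stars := [[0, 28, 11], [1, 10], [2, 9, 32, 19], [3, 18], [4, 17], [5, 16, 51, 25], [6, 26, 34], [7, 48, 30], [8,
    31], [12, 29, 47, 36], [13, 37, 42], [14, 21, 53], [15, 52], [20, 33, 27], [22, 61, 71, 54], [23, 49, 62], [24,
    50], [35, 46, 77], [38, 43], [39, 68, 79, 44], [40, 76, 69], [41, 83, 75], [45, 78], [55, 72, 56], [57, 73], [58,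
    74, 82, 65], [59, 64], [60, 63, 70], [66, 81], [67, 80]]
  word := [[], [], [], [], [], [], [], [0, 3], [0, 3], [], [], [1, 2, 0, 3], [], [], [], [], [], [], [], [0, 3], [0,
    3], [2, 1], [], [], [], [], [], [2, 1], [2, 1, 3, 0], [2, 1], [2, 1], [2, 1], [2, 1], [], [], [1, 2], [], [], [],
    [], [], [], [], [], [3, 0], [3, 0], [3, 0], [0, 3], [], [], [], [], [], [0, 3], [0], [], [0], [0], [2], [2], [2],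
    [], [], [3], [3], [3, 0], [3, 0], [3, 0], [], [], [3], [1], [1], [1], [], [], [], [1, 2], [1, 2], [1, 2], [1, 2],
    [1, 2], [], []]
  rank := [0, 1, 0, 1, 2, 0, 0, 11, 10, 1, 0, 13, 0, 0, 0, 1, 2, 1, 0, 9, 8, 7, 0, 4, 3, 0, 1, 8, 13, 12, 11, 10, 9,
    1, 0, 7, 0, 1, 2, 0, 0, 0, 1, 2, 5, 6, 7, 12, 0, 4, 3, 1, 0, 7, 6, 5, 0, 1, 1, 0, 2, 0, 5, 0, 1, 2, 3, 4, 0, 1,
    2, 6, 0, 1, 1, 0, 1, 6, 5, 4, 3, 2, 1, 0]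
  just := [0, 1, 0, 3, 4, 0, 0, 8, 2, 1, 0, 9, 0, 0, 0, 12, 4, 3, 0, 13, 11, 14, 0, 16, 5, 0, 6, 11, 9, 7, 8, 2, 13,
    6, 0, 17, 0, 10, 18, 0, 0, 0, 10, 18, 19, 22, 17, 7, 0, 16, 5, 12, 0, 14, 23, 15, 0, 24, 26, 0, 27, 0, 15, 0, 26,
    25, 28, 29, 0, 20, 27, 23, 0, 24, 21, 0, 20, 22, 19, 29, 28, 25, 21, 0]
  gA := 56
  gB := 59
  fin := 0
  sid := [0, 1, 2, 3, 4, 5, 6, 7, 8, 2, 1, 0, 9, 10, 11, 12, 5, 4, 3, 2, 13, 11, 14, 15, 16, 5, 6, 13, 0, 9, 7, 8, 2,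
    13, 6, 17, 9, 10, 18, 19, 20, 21, 10, 18, 19, 22, 17, 9, 7, 15, 16, 5, 12, 11, 14, 23, 23, 24, 25, 26, 27, 14,
    15, 27, 26, 25, 28, 29, 19, 20, 27, 14, 23, 24, 25, 21, 20, 17, 22, 19, 29, 28, 25, 21]
  off := [(0, 0), (0, 0), (0, 0), (0, 0), (0, 0), (0, 0), (0, 0), (0, 0), (0, 0), (0, 0), (0, 0), (0, 0), (0, 0), (0,
    0), (0, 0), (0, 0), (0, 0), (0, 0), (0, 0), (0, 0), (0, 0), (-1, 1), (0, 0), (0, 0), (0, 0), (0, 0), (0, 0), (-1,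
    1), (0, 0), (0, 0), (-1, 1), (-1, 1), (-1, 1), (-1, 1), (0, 0), (0, 0), (0, 0), (0, 0), (0, 0), (0, 0), (0, 0),
    (0, 0), (0, 0), (0, 0), (0, 0), (0, 0), (1, -1), (1, -1), (0, 0), (0, 0), (0, 0), (0, 0), (0, 0), (0, 0), (1,
    -1), (0, 0), (0, 0), (0, 0), (0, 0), (0, 0), (0, 0), (0, 0), (0, 0), (0, -1), (0, -1), (0, -1), (0, 0), (0, 0),
    (0, 0), (0, 0), (0, -1), (0, -1), (-1, 0), (-1, 0), (-1, 0), (0, 0), (0, 0), (0, 0), (-1, 1), (-1, 1), (-1, 1),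
    (-1, 1), (-1, 0), (0, 0)]

/-- glued arcs and equations -/
def tord7r_39 : TorT :=
  ⟨[(0, 2, false), (0, 3, true), (0, 4, false), (1, 2, true), (1, 3, false), (1, 5, false), (2, 4, true), (3, 3,
    true), (4, 5, false), (5, 5, true), (6, 6, false), (6, 6, true)],
    [([0, 0, 0, 0, 0, 1, 2], 2), ([0, 0, 0, 1, 1, 0, 0], 2), ([0, 0, 2, 0, 1, 1, 0], 2), ([0, 1, 0, 1, 0, 0, 0], 2),
    ([0, 2, 0, 0, 0, 2, 0], 2), ([1, 0, 1, 0, 0, 0, 1], 2), ([2, 0, 0, 0, 1, 0, 0], 2)]⟩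

theorem tord7r_39_ok : tord7r_39.OK 7 := TT.leaf_ok (T := ttd7r_39) (by decide +kernel)

/-- the torus -/
def ttd7r_40 : TT where
  k := 6
  rf := [false, false, false, true, true, true]
  tau := [8, 14, 25, 26, 12, 18, 34, 15, 0, 39, 40, 19, 4, 27, 1, 7, 32, 33, 5, 11, 41, 31, 30, 36, 35, 2, 3, 13, 38,
    37, 22, 21, 16, 17, 6, 24, 23, 29, 28, 9, 10, 20]
  par := [0, 0, 1, 2, 6, 9]
  stars := [[0, 28, 39, 9], [1, 8, 15], [2, 14, 35, 25], [3, 26], [4, 27, 13], [5, 12, 19], [6, 18, 34], [7, 21, 32,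
    16], [10, 40], [11, 41, 20], [17, 33], [22, 31], [23, 37, 30], [24, 36], [29, 38]]
  word := [[], [], [], [], [0, 3], [0], [], [], [], [], [], [2], [2, 1], [2, 1], [], [], [1], [1], [1], [3], [3], [0,
    3, 1], [0, 3, 1], [3], [3], [], [], [0, 3], [0, 2, 1, 3], [0, 2, 1, 3], [0, 2, 1], [0, 2, 1], [0], [0], [], [2],
    [2], [2, 0, 3, 1], [2, 0, 3, 1], [], [], [2]]
  rank := [0, 0, 0, 1, 1, 0, 0, 1, 0, 0, 1, 0, 1, 2, 0, 1, 2, 1, 0, 0, 2, 3, 4, 4, 3, 0, 1, 2, 6, 5, 4, 3, 2, 1, 0,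
    3, 4, 5, 6, 0, 1, 2]
  just := [0, 0, 0, 3, 5, 0, 0, 1, 0, 0, 8, 0, 5, 4, 0, 1, 10, 6, 0, 0, 9, 7, 11, 13, 2, 0, 3, 4, 14, 12, 11, 7, 10,
    6, 0, 2, 13, 12, 14, 0, 8, 9]
  gA := 5
  gB := 11
  fin := 0
  sid := [0, 1, 2, 3, 4, 5, 6, 7, 1, 0, 8, 9, 5, 4, 2, 1, 7, 10, 6, 5, 9, 7, 11, 12, 13, 2, 3, 4, 0, 14, 12, 11, 7,
    10, 6, 2, 13, 12, 14, 0, 8, 9]
  off := [(0, 0), (0, 0), (0, 0), (0, 0), (0, 0), (0, 0), (0, 0), (0, 0), (0, 0), (0, 0), (0, 0), (0, 0), (-1, 1),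
    (-1, 1), (0, 0), (0, 0), (0, 0), (0, 0), (-1, 0), (-1, 0), (0, -1), (1, -1), (0, 0), (0, 0), (0, 0), (0, 0), (0,
    0), (0, 0), (0, 0), (0, 0), (0, 1), (0, 1), (1, 0), (1, 0), (0, 0), (0, 1), (0, 1), (0, 1), (0, 0), (0, 0), (0,
    0), (0, 0)]

/-- glued arcs and equations -/
def tord7r_40 : TorT :=
  ⟨[(0, 1, true), (0, 3, true), (1, 2, true), (2, 4, false), (3, 5, false), (4, 5, true), (6, 6, false)],
    [([0, 0, 0, 0, 0, 3, 0], 2), ([0, 0, 0, 0, 1, 0, 2], 2), ([0, 0, 0, 1, 0, 1, 0], 2), ([0, 0, 3, 0, 0, 0, 0], 2),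
    ([0, 1, 0, 1, 0, 0, 0], 2), ([0, 3, 0, 0, 0, 0, 0], 2), ([2, 0, 1, 0, 1, 0, 0], 2)]⟩

theorem tord7r_40_ok : tord7r_40.OK 7 := TT.leaf_ok (T := ttd7r_40) (by decide +kernel)

/-- the torus -/
def ttd7r_41 : TT where
  k := 12
  rf := [false, false, true, true, true, true, true, false, false, true, false, false]
  tau := [7, 8, 14, 15, 16, 17, 27, 0, 1, 28, 29, 30, 31, 41, 2, 3, 4, 5, 26, 46, 55, 58, 59, 60, 61, 47, 18, 6, 9,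
    10, 11, 12, 40, 67, 76, 79, 80, 81, 82, 68, 32, 13, 51, 52, 53, 54, 19, 25, 62, 57, 71, 42, 43, 44, 45, 20, 77,
    49, 21, 22, 23, 24, 48, 72, 73, 74, 75, 33, 39, 83, 78, 50, 63, 64, 65, 66, 34, 56, 70, 35, 36, 37, 38, 69]
  par := [0, 0, 2, 6, 9, 13, 19, 20, 21, 33, 34, 35]
  stars := [[0, 21, 58, 49, 14, 2, 8], [1, 7, 35, 79, 70, 28, 9], [3, 15], [4, 16], [5, 17], [6, 18, 27], [10, 29],
    [11, 30], [12, 31], [13, 32, 41], [19, 47, 26], [20, 55, 46], [22, 59], [23, 60], [24, 61], [25, 48, 62], [33,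
    68, 40], [34, 76, 67], [36, 80], [37, 81], [38, 82], [39, 69, 83], [42, 51, 71, 78, 56], [43, 52], [44, 53], [45,
    54], [50, 57, 77, 63, 72], [64, 73], [65, 74], [66, 75]]
  word := [[], [3, 0], [], [], [], [], [], [], [1, 2], [], [], [], [], [], [], [], [], [], [], [], [], [], [], [],
    [], [], [], [], [], [], [], [], [], [], [], [], [], [], [], [], [], [], [], [], [], [], [], [], [], [0, 3], [0],
    [], [], [], [], [], [2], [2, 1], [], [], [], [], [], [], [], [], [], [], [], [], [1, 2], [1], [], [], [], [], [],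
    [3], [3, 0], [], [], [], [], []]
  rank := [0, 8, 0, 1, 2, 3, 0, 0, 8, 0, 1, 2, 3, 0, 0, 1, 2, 3, 4, 0, 0, 0, 1, 2, 3, 5, 4, 0, 0, 1, 2, 3, 4, 0, 0,
    0, 1, 2, 3, 5, 4, 0, 4, 3, 2, 1, 0, 5, 6, 7, 0, 4, 3, 2, 1, 0, 0, 7, 0, 1, 2, 3, 6, 4, 3, 2, 1, 0, 5, 6, 7, 0, 4,
    3, 2, 1, 0, 0, 7, 0, 1, 2, 3, 6]
  just := [0, 1, 0, 2, 3, 4, 0, 0, 1, 0, 6, 7, 8, 0, 0, 2, 3, 4, 5, 0, 0, 0, 12, 13, 14, 10, 5, 0, 0, 6, 7, 8, 9, 0,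
    0, 0, 18, 19, 20, 16, 9, 0, 23, 24, 25, 11, 0, 10, 15, 26, 0, 23, 24, 25, 11, 0, 0, 26, 0, 12, 13, 14, 15, 27,
    28, 29, 17, 0, 16, 21, 22, 0, 27, 28, 29, 17, 0, 0, 22, 0, 18, 19, 20, 21]
  gA := 50
  gB := 56
  fin := 0
  sid := [0, 1, 0, 2, 3, 4, 5, 1, 0, 1, 6, 7, 8, 9, 0, 2, 3, 4, 5, 10, 11, 0, 12, 13, 14, 15, 10, 5, 1, 6, 7, 8, 9,
    16, 17, 1, 18, 19, 20, 21, 16, 9, 22, 23, 24, 25, 11, 10, 15, 0, 26, 22, 23, 24, 25, 11, 22, 26, 0, 12, 13, 14,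
    15, 26, 27, 28, 29, 17, 16, 21, 1, 22, 26, 27, 28, 29, 17, 26, 22, 1, 18, 19, 20, 21]
  off := [(0, 0), (0, 0), (1, -1), (0, 0), (0, 0), (0, 0), (0, 0), (0, 0), (0, 0), (-1, 1), (0, 0), (0, 0), (0, 0),
    (0, 0), (1, -1), (0, 0), (0, 0), (0, 0), (0, 0), (0, 0), (0, 0), (0, 0), (0, 0), (0, 0), (0, 0), (0, 0), (0, 0),
    (0, 0), (-1, 1), (0, 0), (0, 0), (0, 0), (0, 0), (0, 0), (0, 0), (0, 0), (0, 0), (0, 0), (0, 0), (0, 0), (0, 0),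
    (0, 0), (0, 0), (0, 0), (0, 0), (0, 0), (0, 0), (0, 0), (0, 0), (1, -1), (0, 0), (0, 0), (0, 0), (0, 0), (0, 0),
    (0, 0), (0, 0), (-1, 1), (0, 0), (0, 0), (0, 0), (0, 0), (0, 0), (-1, 0), (0, 0), (0, 0), (0, 0), (0, 0), (0, 0),
    (0, 0), (-1, 1), (-1, 0), (-1, 0), (0, 0), (0, 0), (0, 0), (0, 0), (-1, 0), (0, -1), (0, 0), (0, 0), (0, 0), (0,
    0), (0, 0)]

/-- glued arcs and equations -/
def tord7r_41 : TorT :=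
  ⟨[(0, 0, true), (0, 1, true), (0, 2, false), (1, 1, true), (1, 3, false), (2, 4, false), (3, 5, false), (4, 5,
    true), (6, 6, false)],
    [([0, 0, 0, 0, 0, 3, 0], 2), ([0, 0, 0, 0, 1, 0, 2], 2), ([0, 0, 0, 1, 0, 1, 0], 2), ([0, 0, 1, 0, 1, 0, 0], 2),
    ([0, 1, 0, 1, 0, 0, 0], 2), ([2, 2, 1, 0, 0, 0, 0], 2), ([4, 1, 2, 0, 0, 0, 0], 2)]⟩

theorem tord7r_41_ok : tord7r_41.OK 7 := TT.leaf_ok (T := ttd7r_41) (by decide +kernel)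

/-- the torus -/
def ttd7r_42 : TT where
  k := 6
  rf := [false, false, false, true, true, true]
  tau := [8, 14, 21, 22, 30, 31, 41, 15, 0, 35, 36, 23, 24, 34, 1, 7, 28, 29, 37, 38, 27, 2, 3, 11, 12, 33, 39, 20,
    16, 17, 4, 5, 40, 25, 13, 9, 10, 18, 19, 26, 32, 6]
  par := [0, 0, 1, 2, 4, 6]
  stars := [[0, 35, 9], [1, 8, 15], [2, 14, 21], [3, 22], [4, 23, 11, 37, 18, 30], [5, 31], [6, 32, 41], [7, 28, 16],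
    [10, 36], [12, 24], [13, 25, 34], [17, 29], [19, 38], [20, 39, 27], [26, 40, 33]]
  word := [[], [], [], [], [], [], [], [], [], [0, 3, 1, 2], [0, 3, 1, 2], [0, 3], [0, 3], [0], [], [], [0], [0],
    [2], [2], [], [], [], [2, 1], [2, 1], [2], [2], [], [1], [1], [], [], [], [3], [1], [3, 0, 2, 1], [3, 0, 2, 1],
    [3], [3], [3], [], []]
  rank := [0, 0, 0, 1, 0, 1, 0, 1, 0, 7, 6, 5, 4, 0, 0, 1, 2, 3, 3, 2, 1, 0, 1, 5, 4, 3, 0, 1, 2, 3, 0, 1, 2, 3, 0,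
    7, 6, 3, 2, 0, 2, 0]
  just := [0, 0, 0, 3, 0, 5, 0, 1, 0, 8, 4, 9, 10, 0, 0, 1, 7, 11, 12, 13, 2, 0, 3, 9, 10, 14, 0, 2, 7, 11, 0, 5, 6,
    14, 0, 8, 4, 12, 13, 0, 6, 0]
  gA := 13
  gB := 26
  fin := 0
  sid := [0, 1, 2, 3, 4, 5, 6, 7, 1, 0, 8, 4, 9, 10, 2, 1, 7, 11, 4, 12, 13, 2, 3, 4, 9, 10, 14, 13, 7, 11, 4, 5, 6,
    14, 10, 0, 8, 4, 12, 13, 14, 6]
  off := [(0, 0), (0, 0), (0, 0), (0, 0), (0, 0), (0, 0), (0, 0), (0, 0), (0, 0), (0, 0), (0, 0), (1, -1), (0, 0),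
    (0, 0), (0, 0), (0, 0), (0, 0), (0, 0), (1, 0), (0, 0), (0, 0), (0, 0), (0, 0), (0, 0), (-1, 1), (-1, 1), (0, 0),
    (0, 0), (-1, 0), (-1, 0), (0, 0), (0, 0), (0, 0), (0, -1), (-1, 0), (0, 0), (0, 0), (1, -1), (0, -1), (0, -1),
    (0, -1), (0, 0)]

/-- glued arcs and equations -/
def tord7r_42 : TorT :=
  ⟨[(0, 1, true), (0, 2, false), (1, 3, false), (2, 4, false), (3, 5, false), (4, 5, true), (6, 6, false)],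
    [([0, 0, 0, 0, 0, 3, 0], 2), ([0, 0, 0, 0, 1, 0, 2], 2), ([0, 0, 0, 1, 0, 1, 0], 2), ([0, 0, 3, 0, 3, 0, 0], 2),
    ([0, 1, 0, 1, 0, 0, 0], 2), ([0, 3, 0, 0, 0, 0, 0], 2), ([2, 0, 1, 0, 0, 0, 0], 2)]⟩

theorem tord7r_42_ok : tord7r_42.OK 7 := TT.leaf_ok (T := ttd7r_42) (by decide +kernel)

/-- the torus -/
def ttd7r_43 : TT where
  k := 8
  rf := [false, false, false, true, true, true, false, true]
  tau := [8, 14, 21, 22, 30, 31, 41, 43, 0, 35, 36, 51, 52, 34, 1, 42, 49, 50, 37, 38, 27, 2, 3, 46, 47, 54, 39, 20,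
    44, 45, 4, 5, 40, 53, 13, 9, 10, 18, 19, 26, 32, 6, 15, 7, 28, 29, 23, 24, 55, 16, 17, 11, 12, 33, 25, 48]
  par := [0, 0, 1, 2, 4, 6, 7, 11]
  stars := [[0, 35, 9], [1, 8, 43, 15], [2, 14, 21], [3, 22], [4, 23, 46, 30], [5, 31], [6, 32, 41], [7, 28, 44],
    [10, 36], [11, 37, 18, 51], [12, 52], [13, 53, 34], [16, 42, 49], [17, 50], [19, 38], [20, 39, 27], [24, 47],
    [25, 55, 48], [26, 40, 33, 54], [29, 45]]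
  word := [[], [], [], [], [], [], [], [], [], [1, 2, 0, 3], [1, 2, 0, 3], [], [], [3], [], [], [3, 0], [3, 0], [0,
    3], [0, 3], [], [], [], [2], [2], [0], [0, 3], [], [2], [2], [], [], [], [2], [2], [2, 1, 3, 0], [2, 1, 3, 0],
    [2, 1], [2, 1], [2, 1], [], [], [], [], [3], [3], [3], [3], [3, 0], [1, 2], [1, 2], [], [], [3], [1], [1, 2]]
  rank := [0, 0, 0, 1, 0, 1, 0, 0, 0, 8, 7, 0, 1, 1, 0, 1, 5, 6, 5, 4, 1, 0, 1, 2, 3, 0, 3, 1, 0, 1, 0, 1, 2, 2, 1,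
    8, 7, 5, 4, 3, 2, 0, 1, 0, 0, 1, 2, 3, 4, 5, 6, 0, 1, 2, 0, 4]
  just := [0, 0, 0, 3, 0, 5, 0, 0, 0, 8, 9, 0, 10, 7, 0, 1, 12, 13, 14, 15, 2, 0, 3, 4, 16, 0, 18, 2, 0, 19, 0, 5, 6,
    11, 7, 8, 9, 14, 15, 18, 6, 0, 1, 0, 0, 19, 4, 16, 17, 12, 13, 0, 10, 11, 0, 17]
  gA := 25
  gB := 28
  fin := 0
  sid := [0, 1, 2, 3, 4, 5, 6, 7, 1, 0, 8, 9, 10, 11, 2, 1, 12, 13, 9, 14, 15, 2, 3, 4, 16, 17, 18, 15, 7, 19, 4, 5,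
    6, 18, 11, 0, 8, 9, 14, 15, 18, 6, 12, 1, 7, 19, 4, 16, 17, 12, 13, 9, 10, 11, 18, 17]
  off := [(0, 0), (0, 0), (0, 0), (0, 0), (0, 0), (0, 0), (0, 0), (0, 0), (0, 0), (0, 0), (0, 0), (0, 0), (0, 0), (0,
    0), (0, 0), (0, 0), (0, 0), (0, 0), (1, -1), (0, 0), (0, 0), (0, 0), (0, 0), (0, 0), (0, 0), (0, 0), (0, 0), (0,
    0), (0, 1), (0, 0), (0, 0), (0, 0), (0, 0), (-1, 1), (0, 1), (0, 0), (0, 0), (0, 0), (-1, 1), (-1, 1), (-1, 1),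
    (0, 0), (0, 0), (0, 0), (0, 0), (0, -1), (0, -1), (0, -1), (0, -1), (-1, 1), (-1, 1), (0, 0), (0, 0), (0, 0),
    (-1, 0), (-1, 0)]

/-- glued arcs and equations -/
def tord7r_43 : TorT :=
  ⟨[(0, 1, true), (0, 2, false), (1, 3, false), (2, 4, false), (3, 5, false), (4, 5, true), (6, 6, false)],
    [([0, 0, 0, 0, 0, 4, 0], 2), ([0, 0, 0, 0, 1, 0, 2], 2), ([0, 0, 0, 1, 0, 1, 0], 2), ([0, 0, 2, 0, 2, 0, 0], 2),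
    ([0, 1, 0, 1, 0, 0, 0], 2), ([0, 4, 0, 0, 0, 0, 0], 2), ([2, 0, 1, 0, 0, 0, 0], 2)]⟩

theorem tord7r_43_ok : tord7r_43.OK 7 := TT.leaf_ok (T := ttd7r_43) (by decide +kernel)

end Pool.Agent.Lib_MP_fa6e45
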