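import Pool.Agent.Lib_MP_fa6e45.CT5

/-!
MP_fa6e45_co, stage 9: straight-side patterns with `7` sides, tables of tori (generated by a program).
-/

namespace Pool.Agent.Lib_MP_fa6e45

/-- the torus -/
def ttd7r_44 : TT where
  k := 8
  rf := [false, false, true, false, true, false, true, true]
  tau := [7, 14, 15, 16, 11, 25, 34, 0, 28, 29, 30, 4, 39, 20, 1, 2, 3, 40, 47, 38, 13, 43, 44, 45, 33, 5, 31, 55, 8,
    9, 10, 26, 54, 24, 6, 50, 51, 52, 19, 12, 17, 48, 49, 21, 22, 23, 53, 18, 41, 42, 35, 36, 37, 46, 32, 27]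
  par := [0, 0, 1, 5, 6, 12, 18, 27]
  stars := [[0, 28, 8], [1, 7, 14], [2, 15], [3, 16], [4, 17, 40, 12], [5, 11, 31, 26], [6, 25, 34], [9, 29], [10,
    30], [13, 39, 20], [18, 48, 41], [19, 38, 53, 47], [21, 49, 43], [22, 44], [23, 45], [24, 46, 54, 33], [27, 32,
    55], [35, 42, 50], [36, 51], [37, 52]]
  word := [[], [], [], [], [1, 3], [], [], [], [2, 0, 3, 1], [2, 0, 3, 1], [2, 0, 3, 1], [2, 0], [], [], [], [], [],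
    [1, 3], [], [], [], [0], [0], [0], [], [], [3, 1], [], [0, 2, 1, 3], [0, 2, 1, 3], [0, 2, 1, 3], [0, 2], [0, 2],
    [], [], [2], [2], [2], [], [], [2, 0], [2, 0], [1], [1], [1], [1], [2], [], [1, 3], [0], [3], [3], [3], [3], [3,
    1], []]
  rank := [0, 0, 1, 2, 4, 0, 0, 0, 8, 7, 6, 4, 0, 1, 0, 1, 2, 3, 0, 2, 1, 0, 1, 2, 1, 0, 5, 0, 8, 7, 6, 5, 4, 1, 0,
    1, 0, 1, 2, 0, 3, 2, 1, 0, 1, 2, 3, 0, 2, 1, 1, 0, 1, 3, 4, 0]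
  just := [0, 0, 2, 3, 4, 0, 0, 0, 7, 8, 5, 4, 0, 1, 0, 2, 3, 10, 0, 9, 1, 0, 13, 14, 6, 0, 16, 0, 7, 8, 5, 16, 15,
    6, 0, 18, 0, 19, 9, 0, 10, 17, 12, 0, 13, 14, 11, 0, 17, 12, 18, 0, 19, 11, 15, 0]
  gA := 21
  gB := 36
  fin := 0
  sid := [0, 1, 2, 3, 4, 5, 6, 1, 0, 7, 8, 5, 4, 9, 1, 2, 3, 4, 10, 11, 9, 12, 13, 14, 15, 6, 5, 16, 0, 7, 8, 5, 16,
    15, 6, 17, 18, 19, 11, 9, 4, 10, 17, 12, 13, 14, 15, 11, 10, 12, 17, 18, 19, 11, 15, 16]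
  off := [(0, 0), (0, 0), (0, 0), (0, 0), (0, 0), (0, 0), (0, 0), (0, 0), (0, 0), (0, 0), (0, 0), (1, 1), (1, 1), (0,
    0), (0, 0), (0, 0), (0, 0), (0, 0), (0, 0), (0, 0), (0, 0), (0, 0), (0, 0), (0, 0), (0, 0), (0, 0), (0, 0), (0,
    0), (0, 0), (0, 0), (0, 0), (1, 1), (1, 1), (0, 0), (0, 0), (0, 0), (0, 0), (0, 0), (0, 0), (0, 0), (1, 1), (1,
    1), (-1, -1), (-1, 0), (-1, 0), (-1, 0), (-1, 0), (0, 0), (0, 0), (0, 0), (0, -1), (0, -1), (0, -1), (0, -1),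
    (-1, -1), (0, 0)]

/-- glued arcs and equations -/
def tord7r_44 : TorT :=
  ⟨[(0, 0, true), (0, 1, false), (1, 2, false), (2, 3, false), (3, 5, false), (4, 4, true), (4, 5, true), (6, 6,
    false)],
    [([0, 0, 0, 0, 1, 0, 2], 2), ([0, 0, 0, 1, 1, 2, 0], 2), ([0, 0, 1, 1, 0, 0, 0], 2), ([0, 1, 1, 0, 0, 0, 0], 2),
    ([2, 1, 0, 0, 0, 0, 0], 2)]⟩

theorem tord7r_44_ok : tord7r_44.OK 7 := TT.leaf_ok (T := ttd7r_44) (by decide +kernel)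

/-- the torus -/
def ttd7r_45 : TT where
  k := 8
  rf := [false, false, true, false, false, true, true, true]
  tau := [7, 14, 15, 16, 26, 31, 41, 0, 35, 36, 37, 33, 24, 20, 1, 2, 3, 47, 39, 53, 13, 50, 51, 52, 12, 32, 4, 48,
    43, 44, 45, 5, 25, 11, 55, 8, 9, 10, 54, 18, 46, 6, 49, 28, 29, 30, 40, 17, 27, 42, 21, 22, 23, 19, 38, 34]
  par := [0, 0, 1, 4, 5, 6, 17, 19]
  stars := [[0, 35, 8], [1, 7, 14], [2, 15], [3, 16], [4, 17, 48, 27], [5, 26, 32], [6, 31, 46, 41], [9, 36], [10,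
    37], [11, 38, 55, 34], [12, 33, 25], [13, 24, 53, 20], [18, 40, 47], [19, 54, 39], [21, 42, 50], [22, 51], [23,
    52], [28, 49, 43], [29, 44], [30, 45]]
  word := [[], [], [], [], [], [], [], [], [1, 2, 0, 3], [1, 2, 0, 3], [1, 2, 0, 3], [1], [1], [], [], [], [], [],
    [3], [], [], [0], [0], [0], [0], [], [], [], [2], [2], [2], [], [], [0], [2, 0], [2, 1, 3, 0], [2, 1, 3, 0], [2,
    1, 3, 0], [2], [2], [2], [], [0], [3], [3], [3], [3], [], [], [1], [1], [1], [1], [], [3], [1, 3]]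
  rank := [0, 0, 1, 2, 0, 0, 0, 0, 8, 7, 6, 3, 2, 1, 0, 1, 2, 0, 2, 0, 1, 1, 0, 1, 2, 1, 0, 3, 2, 1, 0, 0, 1, 3, 5,
    8, 7, 6, 3, 2, 1, 0, 4, 2, 1, 0, 1, 0, 3, 4, 1, 0, 1, 0, 3, 5]
  just := [0, 0, 2, 3, 0, 0, 0, 0, 7, 8, 9, 10, 11, 1, 0, 2, 3, 0, 12, 0, 1, 15, 0, 16, 11, 5, 0, 4, 18, 19, 0, 0, 5,
    10, 17, 7, 8, 9, 13, 12, 6, 0, 14, 18, 19, 0, 6, 0, 4, 14, 15, 0, 16, 0, 13, 17]
  gA := 22
  gB := 30
  fin := 0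
  sid := [0, 1, 2, 3, 4, 5, 6, 1, 0, 7, 8, 9, 10, 11, 1, 2, 3, 4, 12, 13, 11, 14, 15, 16, 11, 10, 5, 4, 17, 18, 19,
    6, 5, 10, 9, 0, 7, 8, 9, 13, 12, 6, 14, 17, 18, 19, 6, 12, 4, 17, 14, 15, 16, 11, 13, 9]
  off := [(0, 0), (0, 0), (0, 0), (0, 0), (0, 0), (0, 0), (0, 0), (0, 0), (0, 0), (0, 0), (0, 0), (0, 0), (0, 0), (0,
    0), (0, 0), (0, 0), (0, 0), (0, 0), (0, 0), (0, 0), (0, 0), (0, 0), (0, 0), (0, 0), (1, 0), (1, 0), (0, 0), (0,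
    0), (0, 0), (0, 0), (0, 0), (0, 0), (0, 0), (1, 0), (1, 0), (0, 0), (0, 0), (0, 0), (0, 0), (0, 1), (0, 1), (0,
    0), (0, 0), (0, -1), (0, -1), (0, -1), (0, -1), (0, 0), (0, 0), (-1, -1), (-1, 0), (-1, 0), (-1, 0), (0, 0), (0,
    0), (0, -1)]

/-- glued arcs and equations -/
def tord7r_45 : TorT :=
  ⟨[(0, 0, true), (0, 1, false), (1, 2, false), (2, 3, false), (3, 5, true), (4, 4, true), (4, 5, true), (6, 6,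
    false)],
    [([0, 0, 0, 0, 1, 2, 0], 2), ([0, 0, 0, 1, 1, 0, 2], 2), ([0, 0, 1, 1, 0, 0, 0], 2), ([0, 1, 1, 0, 0, 0, 0], 2),
    ([2, 1, 0, 0, 0, 0, 0], 2)]⟩

theorem tord7r_45_ok : tord7r_45.OK 7 := TT.leaf_ok (T := ttd7r_45) (by decide +kernel)

/-- the torus -/
def ttd7r_46 : TT where
  k := 8
  rf := [false, false, false, false, true, true, true, true]
  tau := [10, 9, 16, 22, 33, 19, 41, 39, 17, 1, 0, 35, 46, 55, 24, 23, 2, 8, 40, 5, 34, 32, 3, 15, 14, 28, 53, 48,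
    25, 52, 43, 42, 21, 4, 20, 11, 45, 50, 49, 7, 18, 6, 31, 30, 51, 36, 12, 54, 27, 38, 37, 44, 29, 26, 47, 13]
  par := [0, 0, 2, 3, 4, 6, 12, 13]
  stars := [[0, 35, 11], [1, 10], [2, 9, 17], [3, 16, 23], [4, 22, 33], [5, 34, 20], [6, 19, 41], [7, 49, 39], [8,
    40, 18], [12, 36, 46], [13, 47, 55], [14, 28, 25], [15, 24], [21, 42, 32], [26, 29, 53], [27, 54, 48], [30, 44,
    52], [31, 43], [37, 51, 45], [38, 50]]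
  word := [[], [], [], [], [], [0], [], [1], [], [], [], [3, 0, 2, 1], [], [], [], [], [], [], [1], [1], [1], [], [],
    [], [], [1], [2], [2], [0], [0, 2], [2], [2], [], [], [0], [0, 3, 1, 2], [0, 3, 1, 2], [0], [0], [0], [0], [],
    [3], [3], [3, 0, 2], [3, 0, 2, 1], [], [], [3], [1], [1], [3, 1, 2], [3, 1], [3], [], []]
  rank := [0, 1, 0, 0, 0, 0, 0, 3, 2, 1, 0, 7, 0, 0, 2, 1, 0, 2, 1, 0, 1, 1, 0, 1, 2, 3, 2, 0, 3, 4, 3, 2, 1, 0, 1,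
    7, 6, 5, 4, 3, 1, 0, 2, 3, 5, 6, 0, 1, 0, 4, 5, 5, 4, 2, 1, 0]
  just := [0, 1, 0, 0, 0, 0, 0, 8, 2, 1, 0, 9, 0, 0, 12, 3, 0, 2, 6, 0, 5, 4, 0, 3, 12, 11, 15, 0, 11, 14, 17, 13, 4,
    0, 5, 9, 18, 19, 7, 8, 6, 0, 13, 17, 16, 18, 0, 10, 0, 7, 19, 16, 14, 15, 10, 0]
  gA := 5
  gB := 27
  fin := 0
  sid := [0, 1, 2, 3, 4, 5, 6, 7, 8, 2, 1, 0, 9, 10, 11, 12, 3, 2, 8, 6, 5, 13, 4, 3, 12, 11, 14, 15, 11, 14, 16, 17,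
    13, 4, 5, 0, 9, 18, 19, 7, 8, 6, 13, 17, 16, 18, 9, 10, 15, 7, 19, 18, 16, 14, 15, 10]
  off := [(0, 0), (0, 0), (0, 0), (0, 0), (0, 0), (0, 0), (0, 0), (0, 0), (0, 0), (0, 0), (0, 0), (0, 0), (0, 0), (0,
    0), (0, 0), (0, 0), (0, 0), (0, 0), (0, 0), (-1, 0), (-1, 0), (0, 0), (0, 0), (0, 0), (0, 0), (0, 0), (0, 0), (0,
    0), (1, 0), (1, 0), (0, 0), (0, 0), (0, 0), (0, 0), (0, 0), (0, 0), (0, 0), (0, 0), (0, 0), (1, 0), (1, 0), (0,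
    0), (0, -1), (0, -1), (0, -1), (0, 0), (0, 0), (0, 0), (0, -1), (0, 0), (-1, 0), (-1, 0), (-1, -1), (0, -1), (0,
    -1), (0, 0)]

/-- glued arcs and equations -/
def tord7r_46 : TorT :=
  ⟨[(0, 3, true), (0, 4, false), (1, 2, true), (1, 3, true), (2, 2, true), (4, 5, false), (5, 5, true), (6, 6,
    false)],
    [([0, 0, 0, 0, 0, 1, 2], 2), ([0, 0, 2, 1, 0, 0, 0], 2), ([0, 1, 0, 0, 1, 1, 0], 2), ([0, 1, 0, 1, 0, 0, 0], 2),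
    ([2, 0, 0, 0, 1, 0, 0], 2)]⟩

theorem tord7r_46_ok : tord7r_46.OK 7 := TT.leaf_ok (T := ttd7r_46) (by decide +kernel)

/-- the torus -/
def ttd7r_47 : TT where
  k := 8
  rf := [false, false, true, false, false, true, true, true]
  tau := [7, 14, 15, 26, 31, 30, 41, 0, 35, 36, 33, 24, 23, 20, 1, 2, 47, 46, 39, 52, 13, 50, 51, 12, 11, 32, 3, 48,
    43, 44, 5, 4, 25, 10, 55, 8, 9, 54, 53, 18, 45, 6, 49, 28, 29, 40, 17, 16, 27, 42, 21, 22, 19, 38, 37, 34]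
  par := [0, 0, 1, 3, 4, 6, 16, 19]
  stars := [[0, 35, 8], [1, 7, 14], [2, 15], [3, 16, 48, 27], [4, 26, 32], [5, 31], [6, 30, 45, 41], [9, 36], [10,
    37, 55, 34], [11, 33, 25], [12, 24], [13, 23, 52, 20], [17, 47], [18, 40, 46], [19, 53, 39], [21, 42, 50], [22,
    51], [28, 49, 43], [29, 44], [38, 54]]
  word := [[], [], [], [], [], [], [], [], [1, 2, 0, 3], [1, 2, 0, 3], [1], [1], [1], [], [], [], [], [], [3], [],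
    [], [0], [0], [0], [0], [], [], [], [2], [2], [], [], [], [0], [2, 0], [2, 1, 3, 0], [2, 1, 3, 0], [2], [2], [2],
    [2], [], [0], [3], [3], [3], [], [], [], [1], [1], [1], [], [3], [3], [1, 3]]
  rank := [0, 0, 1, 0, 0, 1, 0, 0, 6, 5, 4, 3, 2, 1, 0, 1, 0, 1, 2, 0, 1, 1, 0, 2, 3, 1, 0, 2, 3, 2, 1, 0, 1, 4, 4,
    6, 5, 4, 3, 2, 0, 0, 3, 3, 2, 0, 1, 0, 2, 3, 1, 0, 0, 3, 4, 4]
  just := [0, 0, 2, 0, 0, 5, 0, 0, 7, 8, 9, 10, 11, 1, 0, 2, 0, 12, 13, 0, 1, 16, 0, 11, 10, 4, 0, 3, 18, 6, 5, 0, 4,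
    9, 17, 7, 8, 19, 14, 13, 0, 0, 15, 18, 6, 0, 12, 0, 3, 15, 16, 0, 0, 14, 19, 17]
  gA := 22
  gB := 40
  fin := 0
  sid := [0, 1, 2, 3, 4, 5, 6, 1, 0, 7, 8, 9, 10, 11, 1, 2, 3, 12, 13, 14, 11, 15, 16, 11, 10, 9, 4, 3, 17, 18, 6, 5,
    4, 9, 8, 0, 7, 8, 19, 14, 13, 6, 15, 17, 18, 6, 13, 12, 3, 17, 15, 16, 11, 14, 19, 8]
  off := [(0, 0), (0, 0), (0, 0), (0, 0), (0, 0), (0, 0), (0, 0), (0, 0), (0, 0), (0, 0), (0, 0), (0, 0), (0, 0), (0,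
    0), (0, 0), (0, 0), (0, 0), (0, 0), (0, 0), (0, 0), (0, 0), (0, 0), (0, 0), (1, 0), (1, 0), (1, 0), (0, 0), (0,
    0), (0, 0), (0, 0), (0, 0), (0, 0), (0, 0), (1, 0), (1, 0), (0, 0), (0, 0), (0, 0), (0, 0), (0, 1), (0, 1), (0,
    0), (0, 0), (0, -1), (0, -1), (0, -1), (0, 0), (0, 0), (0, 0), (-1, -1), (-1, 0), (-1, 0), (0, 0), (0, 0), (0,
    -1), (0, -1)]

/-- glued arcs and equations -/
def tord7r_47 : TorT :=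
  ⟨[(0, 0, true), (0, 1, false), (1, 2, false), (2, 5, true), (3, 4, true), (3, 5, true), (4, 4, true), (6, 6,
    false)],
    [([0, 0, 0, 0, 2, 1, 0], 2), ([0, 0, 0, 1, 0, 1, 0], 2), ([0, 0, 1, 1, 0, 0, 2], 2), ([0, 1, 1, 0, 0, 0, 0], 2),
    ([2, 1, 0, 0, 0, 0, 0], 2)]⟩

theorem tord7r_47_ok : tord7r_47.OK 7 := TT.leaf_ok (T := ttd7r_47) (by decide +kernel)

/-- the torus -/
def ttd7r_48 : TT where
  k := 4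
  rf := [false, false, true, true]
  tau := [9, 19, 25, 26, 23, 24, 20, 17, 18, 0, 14, 15, 22, 27, 10, 11, 21, 7, 8, 1, 6, 16, 12, 4, 5, 2, 3, 13]
  par := [0, 0, 1, 2]
  stars := [[0, 14, 10], [1, 9, 19], [2, 20, 6, 25], [3, 26], [4, 27, 13, 23], [5, 24], [7, 21, 17], [8, 18], [11,
    15], [12, 16, 22]]
  word := [[], [], [], [], [3, 0], [3, 0], [3, 0], [], [], [], [0, 3], [0, 3], [0], [2], [2, 1], [2, 1], [2], [], [],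
    [], [1, 2], [3], [1], [1, 2], [1, 2], [], [], [3]]
  rank := [0, 0, 0, 1, 2, 3, 4, 2, 1, 0, 5, 4, 0, 0, 5, 4, 3, 2, 1, 0, 4, 3, 0, 2, 3, 0, 1, 0]
  just := [0, 0, 0, 3, 4, 5, 2, 7, 1, 0, 8, 9, 0, 0, 8, 9, 6, 7, 1, 0, 2, 6, 0, 4, 5, 0, 3, 0]
  gA := 12
  gB := 13
  fin := 0
  sid := [0, 1, 2, 3, 4, 5, 2, 6, 7, 1, 0, 8, 9, 4, 0, 8, 9, 6, 7, 1, 2, 6, 9, 4, 5, 2, 3, 4]
  off := [(0, 0), (0, 0), (0, 0), (0, 0), (0, 0), (0, 0), (1, -1), (0, 0), (0, 0), (0, 0), (0, 0), (0, 0), (0, 0),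
    (0, 1), (-1, 1), (-1, 1), (-1, 1), (0, 0), (0, 0), (0, 0), (0, 0), (0, -1), (-1, 0), (-1, 1), (-1, 1), (0, 0),
    (0, 0), (0, 0)]

/-- glued arcs and equations -/
def tord7r_48 : TorT :=
  ⟨[(0, 2, true), (0, 3, false), (1, 4, false), (1, 5, false), (2, 4, false), (3, 5, false), (6, 6, false)],
    [([0, 0, 0, 1, 0, 1, 0], 2), ([0, 0, 1, 0, 1, 0, 2], 2), ([0, 1, 0, 0, 1, 0, 0], 2), ([0, 1, 1, 0, 0, 1, 0], 2),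
    ([2, 0, 0, 1, 0, 0, 0], 2)]⟩

theorem tord7r_48_ok : tord7r_48.OK 7 := TT.leaf_ok (T := ttd7r_48) (by decide +kernel)

/-- the torus -/
def ttd7r_49 : TT where
  k := 8
  rf := [false, false, false, false, true, true, true, true]
  tau := [10, 9, 18, 17, 16, 22, 34, 32, 19, 1, 0, 28, 26, 41, 24, 23, 4, 3, 2, 8, 48, 46, 5, 15, 14, 42, 12, 55, 11,
    54, 36, 35, 7, 47, 6, 31, 30, 53, 52, 51, 43, 13, 25, 40, 50, 49, 21, 33, 20, 45, 44, 39, 38, 37, 29, 27]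
  par := [0, 0, 2, 5, 6, 13, 20, 27]
  stars := [[0, 28, 11], [1, 10], [2, 9, 19], [3, 18], [4, 17], [5, 16, 23], [6, 22, 47, 34], [7, 35, 32], [8, 33,
    48, 20], [12, 29, 55, 27], [13, 26, 43, 41], [14, 42, 25], [15, 24], [21, 49, 46], [30, 37, 54], [31, 36], [38,
    53], [39, 52], [40, 44, 51], [45, 50]]
  word := [[], [], [], [], [], [], [], [1], [], [], [], [2, 0, 3, 1], [2, 0], [], [], [], [], [], [], [], [], [0],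
    [], [], [], [], [1, 3], [], [0, 2, 1, 3], [0, 2], [0], [0], [0], [0], [], [1], [1], [2], [2], [2], [2, 0], [],
    [], [1, 3], [1], [1], [1], [1], [], [0], [0], [3], [3], [3], [3, 1], []]
  rank := [0, 1, 0, 1, 2, 0, 0, 3, 2, 1, 0, 7, 6, 0, 4, 3, 2, 1, 0, 2, 0, 1, 0, 3, 4, 5, 6, 0, 7, 6, 5, 4, 3, 0, 0,
    4, 5, 1, 0, 1, 4, 0, 5, 4, 3, 2, 1, 0, 0, 2, 3, 1, 0, 1, 6, 0]
  just := [0, 1, 0, 3, 4, 0, 0, 8, 2, 1, 0, 9, 10, 0, 12, 5, 4, 3, 0, 2, 0, 6, 0, 5, 12, 11, 10, 0, 9, 14, 15, 7, 8,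
    0, 0, 7, 15, 16, 0, 17, 18, 0, 11, 18, 19, 13, 6, 0, 0, 13, 19, 17, 0, 16, 14, 0]
  gA := 33
  gB := 38
  fin := 0
  sid := [0, 1, 2, 3, 4, 5, 6, 7, 8, 2, 1, 0, 9, 10, 11, 12, 5, 4, 3, 2, 8, 13, 6, 5, 12, 11, 10, 9, 0, 9, 14, 15, 7,
    8, 6, 7, 15, 14, 16, 17, 18, 10, 11, 10, 18, 19, 13, 6, 8, 13, 19, 18, 17, 16, 14, 9]
  off := [(0, 0), (0, 0), (0, 0), (0, 0), (0, 0), (0, 0), (0, 0), (0, 0), (0, 0), (0, 0), (0, 0), (0, 0), (0, 0), (0,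
    0), (0, 0), (0, 0), (0, 0), (0, 0), (0, 0), (0, 0), (0, 0), (0, 0), (0, 0), (0, 0), (0, 0), (0, 0), (-1, -1),
    (-1, -1), (0, 0), (0, 0), (0, 0), (0, 0), (1, 0), (1, 0), (0, 0), (0, 0), (-1, 0), (-1, 0), (0, 0), (0, 0), (0,
    0), (0, 0), (0, 0), (-1, -1), (-1, -1), (0, 0), (-1, 0), (-1, 0), (0, 0), (0, 0), (1, 0), (0, -1), (0, -1), (0,
    -1), (-1, -1), (-1, -1)]

/-- glued arcs and equations -/
def tord7r_49 : TorT :=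
  ⟨[(0, 3, true), (0, 4, false), (1, 2, true), (1, 5, true), (2, 4, true), (3, 3, true), (5, 5, true), (6, 6, false)],
    [([0, 0, 0, 1, 1, 0, 0], 2), ([0, 0, 2, 0, 0, 1, 0], 2), ([0, 1, 0, 0, 0, 1, 2], 2), ([0, 1, 0, 1, 0, 0, 0], 2),
    ([2, 0, 0, 0, 1, 0, 0], 2)]⟩

theorem tord7r_49_ok : tord7r_49.OK 7 := TT.leaf_ok (T := ttd7r_49) (by decide +kernel)

/-- the torus -/
def ttd7r_50 : TT where
  k := 4
  rf := [false, false, true, true]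
  tau := [10, 9, 19, 12, 22, 16, 27, 25, 18, 1, 0, 21, 3, 20, 24, 23, 5, 26, 8, 2, 13, 11, 4, 15, 14, 7, 17, 6]
  par := [0, 0, 2, 4]
  stars := [[0, 21, 11], [1, 10], [2, 9, 19], [3, 20, 13], [4, 12, 22], [5, 23, 16], [6, 17, 27], [7, 14, 25], [8,
    26, 18], [15, 24]]
  word := [[], [], [], [1], [], [3], [3, 0, 2], [0, 2], [], [], [], [0], [0], [0], [2], [2], [2], [0, 2], [], [],
    [1], [1], [], [3], [3], [3, 1], [3, 1], [3, 1, 2]]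
  rank := [0, 1, 0, 1, 0, 2, 4, 1, 2, 1, 0, 2, 1, 0, 0, 1, 2, 3, 2, 0, 0, 2, 0, 1, 0, 1, 3, 4]
  just := [0, 1, 0, 3, 0, 5, 6, 7, 2, 1, 0, 4, 3, 0, 0, 9, 5, 8, 2, 0, 0, 4, 0, 9, 0, 7, 8, 6]
  gA := 13
  gB := 14
  fin := 0
  sid := [0, 1, 2, 3, 4, 5, 6, 7, 8, 2, 1, 0, 4, 3, 7, 9, 5, 6, 8, 2, 3, 0, 4, 5, 9, 7, 8, 6]
  off := [(0, 0), (0, 0), (0, 0), (0, 0), (0, 0), (0, 0), (0, 0), (0, 0), (0, 0), (0, 0), (0, 0), (0, 0), (1, 0), (1,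
    0), (-1, 0), (0, 0), (0, 1), (0, 1), (0, 0), (0, 0), (0, 0), (-1, 0), (0, 0), (0, 0), (0, -1), (-1, -1), (-1,
    -1), (-1, 0)]

/-- glued arcs and equations -/
def tord7r_50 : TorT :=
  ⟨[(0, 3, true), (0, 4, false), (1, 2, true), (1, 4, false), (2, 5, false), (3, 5, true), (6, 6, false)],
    [([0, 0, 0, 1, 0, 0, 2], 2), ([0, 0, 2, 0, 0, 1, 0], 2), ([0, 1, 0, 0, 1, 1, 0], 2), ([0, 1, 0, 1, 0, 0, 0], 2),
    ([2, 0, 0, 0, 1, 0, 0], 2)]⟩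

theorem tord7r_50_ok : tord7r_50.OK 7 := TT.leaf_ok (T := ttd7r_50) (by decide +kernel)

/-- the torus -/
def ttd7r_51 : TT where
  k := 8
  rf := [false, false, true, false, true, false, true, true]
  tau := [8, 17, 18, 19, 25, 26, 20, 16, 0, 14, 29, 30, 31, 34, 9, 28, 7, 1, 2, 3, 6, 36, 45, 46, 47, 4, 5, 48, 15,
    10, 11, 12, 53, 54, 13, 44, 21, 42, 50, 51, 52, 55, 37, 49, 35, 22, 23, 24, 27, 43, 38, 39, 40, 32, 33, 41]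
  par := [0, 0, 1, 4, 10, 21, 22, 32]
  stars := [[0, 14, 9], [1, 8, 17], [2, 18], [3, 19], [4, 20, 6, 26], [5, 25, 48, 27], [7, 28, 16], [10, 15, 29],
    [11, 30], [12, 31], [13, 32, 54, 34], [21, 42, 37], [22, 36, 45], [23, 46], [24, 47], [33, 55, 41, 53], [35, 49,
    44], [38, 43, 50], [39, 51], [40, 52]]
  word := [[], [], [], [], [], [2, 1], [2, 1], [], [], [1, 2], [], [], [], [3, 0], [3, 0], [3, 0], [], [], [], [],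
    [0, 3], [], [], [], [], [], [0, 3], [0, 3], [1, 2], [], [], [], [], [1, 2], [1, 2], [], [], [0, 3], [0], [0],
    [0], [2], [2, 1], [2], [], [], [], [], [2, 1], [3], [1], [1], [1], [], [3, 0], [3]]
  rank := [0, 0, 1, 2, 0, 5, 6, 1, 0, 5, 0, 1, 2, 3, 5, 4, 1, 0, 1, 2, 6, 0, 0, 1, 2, 0, 5, 4, 4, 0, 1, 2, 0, 2, 3,
    1, 0, 3, 1, 0, 1, 0, 3, 2, 1, 0, 1, 2, 4, 2, 1, 0, 1, 0, 2, 0]
  just := [0, 0, 2, 3, 0, 5, 4, 1, 0, 7, 0, 8, 9, 10, 7, 6, 1, 0, 2, 3, 4, 0, 0, 13, 14, 0, 5, 11, 6, 0, 8, 9, 0, 15,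
    10, 12, 0, 17, 18, 0, 19, 0, 17, 16, 12, 0, 13, 14, 11, 16, 18, 0, 19, 0, 15, 0]
  gA := 39
  gB := 41
  fin := 0
  sid := [0, 1, 2, 3, 4, 5, 4, 6, 1, 0, 7, 8, 9, 10, 0, 7, 6, 1, 2, 3, 4, 11, 12, 13, 14, 5, 4, 5, 6, 7, 8, 9, 10,
    15, 10, 16, 12, 11, 17, 18, 19, 15, 11, 17, 16, 12, 13, 14, 5, 16, 17, 18, 19, 15, 10, 15]
  off := [(0, 0), (0, 0), (0, 0), (0, 0), (0, 0), (0, 0), (-1, 1), (0, 0), (0, 0), (0, 0), (0, 0), (0, 0), (0, 0),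
    (0, 0), (1, -1), (1, -1), (0, 0), (0, 0), (0, 0), (0, 0), (0, 0), (0, 0), (0, 0), (0, 0), (0, 0), (0, 0), (0, 0),
    (1, -1), (-1, 1), (0, 0), (0, 0), (0, 0), (0, 0), (0, 0), (-1, 1), (0, 0), (0, 0), (0, 0), (0, 0), (0, 0), (0,
    0), (1, 0), (-1, 1), (-1, 1), (0, 0), (0, 0), (0, 0), (0, 0), (0, 0), (0, -1), (-1, 0), (-1, 0), (-1, 0), (0, 0),
    (0, 0), (1, -1)]

/-- glued arcs and equations -/
def tord7r_51 : TorT :=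
  ⟨[(0, 1, true), (0, 2, false), (1, 3, false), (2, 4, false), (3, 5, false), (4, 4, true), (5, 5, true), (6, 6,
    false)],
    [([0, 0, 0, 0, 1, 1, 2], 2), ([0, 0, 0, 1, 0, 1, 0], 2), ([0, 0, 1, 0, 1, 0, 0], 2), ([0, 2, 0, 1, 0, 0, 0], 2),
    ([2, 0, 1, 0, 0, 0, 0], 2)]⟩

theorem tord7r_51_ok : tord7r_51.OK 7 := TT.leaf_ok (T := ttd7r_51) (by decide +kernel)

/-- the torus -/
def ttd7r_52 : TT where
  k := 8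
  rf := [false, false, true, true, false, false, true, true]
  tau := [3, 8, 9, 0, 14, 15, 20, 10, 1, 2, 7, 21, 22, 27, 4, 5, 32, 33, 30, 31, 6, 11, 12, 39, 40, 37, 38, 13, 46,
    47, 18, 19, 16, 17, 48, 53, 54, 25, 26, 23, 24, 55, 45, 50, 51, 42, 28, 29, 34, 52, 43, 44, 49, 35, 36, 41]
  par := [0, 1, 4, 11, 16, 23, 28, 35]
  stars := [[0, 14, 4], [1, 3, 9], [2, 8, 10], [5, 15], [6, 16, 32, 20], [7, 21, 11], [12, 22], [13, 23, 39, 27],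
    [17, 33], [18, 30, 48, 34], [19, 31], [24, 40], [25, 37, 55, 41], [26, 38], [28, 42, 46], [29, 47], [35, 49, 53],
    [36, 54], [43, 51, 45], [44, 52, 50]]
  word := [[3], [], [2], [2], [], [], [0, 3, 1], [2], [], [3], [3], [], [], [2], [], [], [], [], [0, 2, 1], [0, 2,
    1], [0, 2, 1], [], [], [], [], [3], [3], [3], [], [], [0, 3, 1], [0, 3, 1], [], [], [0, 2, 1], [], [], [2], [2],
    [], [], [3], [0, 3, 1], [0, 3], [0], [0, 2, 1], [], [], [0, 3, 1], [2], [2, 1], [1], [3], [], [], [2]]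
  rank := [7, 0, 6, 7, 0, 1, 6, 5, 0, 6, 5, 0, 1, 4, 0, 1, 0, 1, 4, 5, 6, 0, 1, 0, 1, 2, 3, 4, 0, 1, 4, 5, 0, 1, 3,
    0, 1, 2, 3, 0, 1, 1, 2, 1, 0, 2, 0, 1, 3, 0, 1, 0, 0, 0, 1, 1]
  just := [1, 0, 2, 1, 0, 3, 4, 5, 0, 2, 5, 0, 6, 7, 0, 3, 0, 8, 9, 10, 4, 0, 6, 0, 11, 12, 13, 7, 0, 15, 9, 10, 0,
    8, 14, 0, 17, 12, 13, 0, 11, 16, 18, 19, 0, 18, 0, 15, 14, 0, 19, 0, 0, 0, 17, 16]
  gA := 44
  gB := 49
  fin := 0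
  sid := [0, 1, 2, 1, 0, 3, 4, 5, 2, 1, 2, 5, 6, 7, 0, 3, 4, 8, 9, 10, 4, 5, 6, 7, 11, 12, 13, 7, 14, 15, 9, 10, 4,
    8, 9, 16, 17, 12, 13, 7, 11, 12, 14, 18, 19, 18, 14, 15, 9, 16, 19, 18, 19, 16, 17, 12]
  off := [(0, 0), (0, 0), (0, 0), (0, 1), (0, 1), (0, 0), (0, 0), (0, 0), (0, 0), (0, 0), (0, -1), (0, -1), (0, 0),
    (0, 0), (0, 1), (0, 0), (0, 0), (0, 0), (0, 0), (0, 0), (0, 1), (0, -1), (0, 0), (0, 0), (0, 0), (0, 0), (0, 0),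
    (0, -1), (0, 0), (0, 0), (0, -1), (0, -1), (0, 0), (0, 0), (0, 0), (0, 0), (0, 0), (0, 1), (0, 1), (0, 0), (0,
    0), (0, 0), (0, -1), (0, 0), (0, 0), (0, 1), (0, 0), (0, 0), (0, -1), (0, 1), (-1, 1), (-1, 1), (-1, 0), (0, 0),
    (0, 0), (0, 1)]

/-- glued arcs and equations -/
def tord7r_52 : TorT :=
  ⟨[(0, 3, true), (0, 4, false), (1, 1, true), (1, 5, false), (2, 2, true), (2, 4, false), (3, 5, false), (6, 6,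
    false)],
    [([0, 0, 0, 1, 0, 1, 0], 2), ([0, 0, 1, 0, 1, 0, 2], 2), ([0, 1, 0, 0, 0, 1, 0], 2), ([0, 1, 1, 1, 0, 0, 0], 2),
    ([2, 0, 0, 0, 1, 0, 0], 2)]⟩

theorem tord7r_52_ok : tord7r_52.OK 7 := TT.leaf_ok (T := ttd7r_52) (by decide +kernel)

/-- the torus -/
def ttd7r_53 : TT where
  k := 8
  rf := [false, false, false, true, true, false, true, true]
  tau := [10, 9, 16, 19, 18, 17, 27, 25, 26, 1, 0, 21, 22, 34, 38, 37, 2, 5, 4, 3, 48, 11, 12, 29, 28, 7, 8, 6, 24,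
    23, 51, 54, 53, 52, 13, 46, 47, 15, 14, 42, 43, 55, 39, 40, 50, 49, 35, 36, 20, 45, 44, 30, 33, 32, 31, 41]
  par := [0, 0, 2, 6, 13, 14, 20, 30]
  stars := [[0, 21, 11], [1, 10], [2, 9, 27, 6, 17], [3, 16, 37, 48, 20], [4, 19], [5, 18], [7, 28, 25], [8, 26],
    [12, 22], [13, 23, 30, 52, 34], [14, 42, 39], [15, 38], [24, 29], [31, 55, 41, 44, 51], [32, 54], [33, 53], [35,
    49, 46], [36, 47], [40, 43], [45, 50]]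
  word := [[], [], [], [0], [0], [0], [], [1], [1], [], [], [3, 0, 2, 1], [3, 0, 2, 1], [], [], [], [], [1], [1],
    [1], [], [0, 3, 1, 2], [0, 3, 1, 2], [0], [0], [0], [0], [], [1], [1], [], [3, 0, 2], [3, 0, 2], [3, 0, 2], [],
    [0], [0], [], [], [], [], [0, 2], [], [], [2], [2], [1], [1], [], [3], [3], [], [3, 1, 2], [3, 1, 2], [3, 1, 2],
    [3, 1]]
  rank := [0, 1, 0, 0, 1, 2, 0, 4, 3, 1, 0, 9, 8, 0, 0, 1, 0, 2, 1, 0, 0, 9, 8, 6, 5, 4, 3, 0, 5, 6, 0, 5, 6, 7, 0,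
    3, 2, 1, 0, 1, 2, 4, 1, 2, 1, 0, 3, 2, 0, 0, 1, 0, 7, 6, 5, 4]
  just := [0, 1, 0, 0, 4, 5, 0, 7, 2, 1, 0, 8, 9, 0, 0, 11, 0, 5, 4, 0, 0, 8, 9, 12, 6, 7, 2, 0, 6, 12, 0, 13, 14,
    15, 0, 17, 3, 11, 0, 10, 18, 16, 10, 18, 19, 0, 17, 3, 0, 0, 19, 0, 15, 14, 13, 16]
  gA := 3
  gB := 45
  fin := 0
  sid := [0, 1, 2, 3, 4, 5, 2, 6, 7, 2, 1, 0, 8, 9, 10, 11, 3, 2, 5, 4, 3, 0, 8, 9, 12, 6, 7, 2, 6, 12, 9, 13, 14,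
    15, 9, 16, 17, 3, 11, 10, 18, 13, 10, 18, 13, 19, 16, 17, 3, 16, 19, 13, 9, 15, 14, 13]
  off := [(0, 0), (0, 0), (0, 0), (0, 0), (0, 0), (0, 0), (1, 0), (0, 0), (0, 0), (0, 0), (0, 0), (0, 0), (0, 0), (0,
    0), (0, 0), (0, 0), (0, 0), (0, 0), (-1, 0), (-1, 0), (-1, 0), (0, 0), (0, 0), (0, 0), (0, 0), (1, 0), (1, 0),
    (1, 0), (0, 0), (-1, 0), (-1, 0), (0, 0), (0, 0), (0, 0), (0, 0), (0, 0), (0, 0), (0, 0), (0, 0), (0, 0), (0, 0),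
    (0, 1), (0, 0), (0, 0), (0, 1), (0, 0), (-1, 0), (-1, 0), (-1, 0), (-1, -1), (0, -1), (0, 0), (-1, 0), (-1, 0),
    (-1, 0), (-1, 0)]

/-- glued arcs and equations -/
def tord7r_53 : TorT :=
  ⟨[(0, 3, true), (0, 4, false), (1, 2, true), (1, 5, false), (2, 2, true), (3, 5, true), (4, 4, true), (6, 6,
    false)],
    [([0, 0, 0, 0, 1, 1, 0], 2), ([0, 0, 2, 1, 0, 0, 2], 2), ([0, 1, 0, 0, 0, 1, 0], 2), ([0, 1, 0, 1, 0, 0, 0], 2),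
    ([2, 0, 0, 0, 1, 0, 0], 2)]⟩

theorem tord7r_53_ok : tord7r_53.OK 7 := TT.leaf_ok (T := ttd7r_53) (by decide +kernel)

/-- the torus -/
def ttd7r_54 : TT where
  k := 8
  rf := [false, false, true, false, true, false, true, true]
  tau := [10, 9, 19, 26, 25, 24, 34, 32, 36, 1, 0, 28, 44, 55, 39, 29, 43, 42, 35, 2, 27, 38, 37, 33, 5, 4, 3, 20,
    11, 15, 50, 49, 7, 23, 6, 18, 8, 22, 21, 14, 51, 48, 17, 16, 12, 54, 53, 52, 41, 31, 30, 40, 47, 46, 45, 13]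
  par := [0, 0, 2, 3, 6, 8, 12, 13]
  stars := [[0, 28, 11], [1, 10], [2, 9, 36, 19], [3, 20, 27], [4, 26], [5, 25], [6, 24, 34], [7, 49, 32], [8, 33,
    23, 37], [12, 29, 16, 44], [13, 45, 55], [14, 39, 21], [15, 30, 51, 40], [17, 43], [18, 35, 42], [22, 38], [31,
    50], [41, 52, 48], [46, 54], [47, 53]]
  word := [[], [], [], [], [], [], [], [0], [], [], [], [3, 1, 2, 0], [], [], [1], [1, 2, 0], [2], [2], [], [], [],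
    [1], [1], [], [], [], [], [], [1, 3, 0, 2], [1, 3, 0], [1], [1], [1], [], [], [], [], [0], [0], [0], [2], [2],
    [3], [3], [], [], [], [], [3], [0], [0], [3], [], [], [], []]
  rank := [0, 1, 0, 0, 1, 2, 0, 0, 0, 1, 0, 8, 0, 0, 6, 7, 4, 3, 2, 0, 1, 5, 4, 3, 2, 1, 0, 1, 8, 7, 2, 1, 0, 3, 0,
    2, 0, 4, 5, 6, 4, 0, 3, 4, 0, 1, 2, 3, 0, 1, 2, 4, 3, 2, 1, 0]
  just := [0, 1, 0, 0, 4, 5, 0, 0, 0, 1, 0, 9, 0, 0, 11, 12, 13, 14, 2, 0, 3, 15, 8, 6, 5, 4, 0, 3, 9, 12, 16, 7, 0,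
    6, 0, 2, 0, 8, 15, 11, 17, 0, 14, 13, 0, 10, 18, 19, 0, 7, 16, 17, 19, 18, 10, 0]
  gA := 7
  gB := 41
  fin := 0
  sid := [0, 1, 2, 3, 4, 5, 6, 7, 8, 2, 1, 0, 9, 10, 11, 12, 9, 13, 14, 2, 3, 11, 15, 8, 6, 5, 4, 3, 0, 9, 12, 16, 7,
    8, 6, 14, 2, 8, 15, 11, 12, 17, 14, 13, 9, 10, 18, 19, 17, 7, 16, 12, 17, 19, 18, 10]
  off := [(0, 0), (0, 0), (0, 0), (0, 0), (0, 0), (0, 0), (0, 0), (0, 0), (0, 0), (0, 0), (0, 0), (0, 0), (0, 0), (0,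
    0), (0, 0), (0, 0), (0, 1), (0, 0), (0, 0), (0, 0), (0, 0), (0, 0), (0, 0), (-1, 0), (0, 0), (0, 0), (0, 0), (0,
    0), (0, 0), (0, 0), (0, -1), (0, 0), (-1, 0), (-1, 0), (0, 0), (0, 0), (0, 0), (0, 0), (1, 0), (1, 0), (1, 0),
    (0, 0), (0, -1), (0, -1), (0, 0), (0, 0), (0, 0), (0, 0), (0, -1), (0, 0), (1, 0), (1, -1), (0, -1), (0, 0), (0,
    0), (0, 0)]

/-- glued arcs and equations -/
def tord7r_54 : TorT :=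
  ⟨[(0, 3, true), (0, 4, false), (1, 1, true), (1, 2, true), (2, 5, false), (3, 5, true), (4, 4, true), (6, 6,
    false)],
    [([0, 0, 0, 0, 1, 1, 0], 2), ([0, 0, 0, 1, 0, 0, 2], 2), ([0, 1, 0, 1, 0, 0, 0], 2), ([0, 1, 2, 0, 0, 1, 0], 2),
    ([2, 0, 0, 0, 1, 0, 0], 2)]⟩

theorem tord7r_54_ok : tord7r_54.OK 7 := TT.leaf_ok (T := ttd7r_54) (by decide +kernel)

end Pool.Agent.Lib_MP_fa6e45
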