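import Pool.Agent.Lib_MP_fa6e45.CT5

/-!
MP_fa6e45_co, stage 9: straight-side patterns with `7` sides, tables of tori (generated by a program).
-/

namespace Pool.Agent.Lib_MP_fa6e45

/-- the torus -/
def ttd7r_55 : TT where
  k := 4
  rf := [false, false, false, false]
  tau := [9, 8, 7, 15, 17, 16, 13, 2, 1, 0, 22, 24, 23, 6, 18, 3, 5, 4, 14, 26, 27, 25, 10, 12, 11, 21, 19, 20]
  par := [0, 0, 3, 10]
  stars := [[0, 13, 23, 10], [1, 9], [2, 8], [3, 7, 6, 16], [4, 15, 18], [5, 17], [11, 22, 25], [12, 24], [14, 27,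
    19], [20, 26, 21]]
  word := [[], [], [], [], [2, 1], [2, 1], [2, 1], [], [], [], [], [3, 0], [3, 0], [0, 3], [2, 1], [], [0, 3], [0,
    3], [0, 3], [0], [2], [3, 0], [], [1, 2], [1, 2], [1, 2], [1], [3]]
  rank := [0, 1, 2, 0, 2, 3, 4, 2, 1, 0, 0, 2, 3, 4, 1, 0, 3, 2, 1, 0, 0, 1, 0, 3, 2, 1, 0, 0]
  just := [0, 1, 2, 0, 4, 5, 3, 2, 1, 0, 0, 6, 7, 3, 8, 0, 5, 4, 8, 0, 0, 9, 0, 7, 6, 9, 0, 0]
  gA := 19
  gB := 20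
  fin := 0
  sid := [0, 1, 2, 3, 4, 5, 3, 3, 2, 1, 0, 6, 7, 0, 8, 4, 3, 5, 4, 8, 9, 9, 6, 0, 7, 6, 9, 8]
  off := [(0, 0), (0, 0), (0, 0), (0, 0), (0, 0), (0, 0), (-1, 1), (0, 0), (0, 0), (0, 0), (0, 0), (0, 0), (0, 0),
    (1, -1), (0, 0), (0, 0), (0, 0), (1, -1), (1, -1), (1, -1), (0, 0), (0, -1), (0, 0), (0, 0), (-1, 1), (-1, 1),
    (-1, 0), (0, -1)]

/-- glued arcs and equations -/
def tord7r_55 : TorT :=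
  ⟨[(0, 2, true), (0, 4, true), (1, 1, true), (1, 3, true), (2, 5, true), (3, 4, true), (5, 5, true), (6, 6, true)],
    [([0, 0, 0, 1, 0, 1, 0], 2), ([0, 1, 0, 0, 2, 0, 0], 2), ([0, 1, 1, 0, 0, 0, 0], 2), ([1, 0, 0, 0, 0, 1, 1], 2),
    ([1, 0, 1, 1, 0, 0, 1], 2)]⟩

theorem tord7r_55_ok : tord7r_55.OK 7 := TT.leaf_ok (T := ttd7r_55) (by decide +kernel)

/-- the torus -/
def ttd7r_56 : TT where
  k := 8
  rf := [false, false, true, true, false, false, true, true]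
  tau := [7, 18, 19, 12, 11, 10, 27, 0, 25, 26, 5, 4, 3, 20, 30, 31, 28, 29, 1, 2, 13, 37, 38, 35, 36, 8, 9, 6, 16,
    17, 14, 15, 43, 44, 55, 23, 24, 21, 22, 50, 51, 48, 49, 32, 33, 54, 53, 52, 41, 42, 39, 40, 47, 46, 45, 34]
  par := [0, 0, 1, 6, 14, 21, 32, 34]
  stars := [[0, 21, 37, 25, 8], [1, 7, 14, 30, 18], [2, 19], [3, 20, 13], [4, 12], [5, 11], [6, 10, 27], [9, 26],
    [15, 31], [16, 28, 49, 43, 32], [17, 29], [22, 38], [23, 35, 42, 50, 39], [24, 36], [33, 44], [34, 45, 55], [40,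
    51], [41, 52, 48], [46, 54], [47, 53]]
  word := [[], [], [], [1], [1], [1], [], [], [0], [0], [0], [0], [0], [0], [], [], [0], [0], [], [], [1], [], [],
    [2, 1, 3], [2, 1, 3], [1], [1], [], [1], [1], [], [], [], [], [], [2, 0, 3], [2, 0, 3], [], [], [2], [2], [2],
    [0], [], [], [], [], [], [3], [1], [3], [3], [], [], [], []]
  rank := [0, 0, 1, 2, 3, 4, 0, 0, 6, 5, 4, 3, 2, 0, 0, 1, 2, 1, 0, 1, 0, 0, 1, 6, 7, 6, 5, 0, 2, 1, 0, 1, 0, 1, 0,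
    6, 7, 0, 1, 1, 0, 5, 3, 0, 1, 2, 3, 4, 5, 3, 1, 0, 4, 3, 2, 0]
  just := [0, 0, 2, 3, 4, 5, 0, 0, 7, 6, 5, 4, 3, 0, 0, 8, 10, 1, 0, 2, 0, 0, 11, 12, 13, 7, 6, 0, 10, 1, 0, 8, 0,
    14, 0, 12, 13, 0, 11, 16, 0, 17, 9, 0, 14, 15, 18, 19, 17, 9, 16, 0, 19, 18, 15, 0]
  gA := 13
  gB := 40
  fin := 0
  sid := [0, 1, 2, 3, 4, 5, 6, 1, 0, 7, 6, 5, 4, 3, 1, 8, 9, 10, 1, 2, 3, 0, 11, 12, 13, 0, 7, 6, 9, 10, 1, 8, 9, 14,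
    15, 12, 13, 0, 11, 12, 16, 17, 12, 9, 14, 15, 18, 19, 17, 9, 12, 16, 17, 19, 18, 15]
  off := [(0, 0), (0, 0), (0, 0), (0, 0), (0, 0), (0, 0), (0, 0), (0, 0), (0, 0), (0, 0), (1, 0), (1, 0), (1, 0), (1,
    0), (-1, 0), (0, 0), (0, 0), (0, 0), (0, 0), (0, 0), (0, 0), (0, 0), (0, 0), (0, 0), (0, 0), (-1, 0), (-1, 0),
    (0, 0), (-1, 0), (-1, 0), (-1, 0), (0, 0), (0, 0), (0, 0), (0, 0), (1, 0), (1, 0), (0, 0), (0, 0), (0, 0), (0,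
    0), (0, 0), (1, -1), (0, 0), (0, 0), (0, 0), (0, 0), (0, 0), (0, -1), (-1, 0), (0, -1), (0, -1), (0, -1), (0, 0),
    (0, 0), (0, 0)]

/-- glued arcs and equations -/
def tord7r_56 : TorT :=
  ⟨[(0, 0, true), (0, 2, false), (1, 3, false), (1, 4, false), (2, 5, false), (3, 5, true), (4, 4, true), (6, 6,
    false)],
    [([0, 0, 0, 0, 1, 1, 0], 2), ([0, 0, 0, 1, 0, 0, 2], 2), ([0, 0, 1, 0, 0, 1, 0], 2), ([0, 1, 0, 1, 0, 0, 0], 2),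
    ([2, 1, 1, 0, 1, 0, 0], 2)]⟩

theorem tord7r_56_ok : tord7r_56.OK 7 := TT.leaf_ok (T := ttd7r_56) (by decide +kernel)

/-- the torus -/
def ttd7r_57 : TT where
  k := 8
  rf := [false, false, true, false, true, true, true, false]
  tau := [7, 18, 22, 21, 15, 30, 41, 0, 46, 50, 49, 43, 37, 34, 42, 4, 29, 28, 1, 23, 55, 3, 2, 19, 54, 53, 52, 48,
    17, 16, 5, 40, 39, 38, 13, 45, 44, 12, 33, 32, 31, 6, 14, 11, 36, 35, 8, 51, 27, 10, 9, 47, 26, 25, 24, 20]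
  par := [0, 0, 1, 2, 5, 6, 8, 9]
  stars := [[0, 35, 46, 8], [1, 7, 28, 18], [2, 19, 23], [3, 22], [4, 21, 42, 15], [5, 16, 30], [6, 31, 41], [9, 47,
    51], [10, 50], [11, 49, 14, 43], [12, 44, 37], [13, 38, 34], [17, 29], [20, 55, 24], [25, 54], [26, 53], [27, 52,
    48], [32, 40], [33, 39], [36, 45]]
  word := [[], [], [], [], [1], [], [], [], [], [], [], [3, 0, 2], [0], [0], [0, 2], [0], [0], [0], [], [], [2], [],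
    [], [], [2], [2], [2], [2], [1], [1], [], [], [], [], [1], [1, 3, 0, 2], [1, 3, 0, 2], [1], [], [], [], [], [3,
    1], [3, 1, 2], [3, 1, 2, 0], [3, 1, 2, 0], [], [], [3], [], [], [], [3], [3], [3], [3]]
  rank := [0, 0, 0, 1, 1, 0, 0, 0, 0, 0, 1, 4, 4, 2, 3, 1, 0, 1, 0, 1, 2, 1, 0, 1, 1, 0, 1, 2, 1, 0, 0, 1, 2, 3, 2,
    6, 5, 4, 3, 2, 1, 0, 3, 4, 5, 6, 0, 1, 2, 1, 0, 1, 1, 0, 1, 2]
  just := [0, 0, 0, 3, 5, 0, 0, 0, 0, 0, 8, 9, 11, 1, 4, 5, 0, 12, 0, 2, 13, 3, 0, 2, 14, 0, 15, 16, 12, 0, 0, 6, 17,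
    18, 1, 19, 10, 11, 18, 17, 6, 0, 4, 9, 10, 19, 0, 7, 16, 8, 0, 7, 15, 0, 14, 13]
  gA := 16
  gB := 25
  fin := 0
  sid := [0, 1, 2, 3, 4, 5, 6, 1, 0, 7, 8, 9, 10, 11, 9, 4, 5, 12, 1, 2, 13, 4, 3, 2, 13, 14, 15, 16, 1, 12, 5, 6,
    17, 18, 11, 0, 19, 10, 11, 18, 17, 6, 4, 9, 10, 19, 0, 7, 16, 9, 8, 7, 16, 15, 14, 13]
  off := [(0, 0), (0, 0), (0, 0), (0, 0), (0, 0), (0, 0), (0, 0), (0, 0), (0, 0), (0, 0), (0, 0), (0, 0), (0, 0), (0,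
    0), (0, 1), (1, 0), (1, 0), (0, 0), (0, 0), (0, 0), (0, 0), (0, 0), (0, 0), (0, 0), (0, 0), (0, 0), (0, 0), (0,
    0), (-1, 0), (-1, 0), (0, 0), (0, 0), (0, 0), (0, 0), (-1, 0), (0, 0), (0, 0), (-1, 0), (-1, 0), (0, 0), (0, 0),
    (0, 0), (0, -1), (-1, 0), (-1, 0), (0, 0), (0, 0), (0, 0), (0, -1), (0, 0), (0, 0), (0, 0), (0, -1), (0, -1), (0,
    -1), (0, -1)]

/-- glued arcs and equations -/
def tord7r_57 : TorT :=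
  ⟨[(0, 0, true), (0, 3, true), (1, 2, true), (1, 4, false), (2, 5, false), (3, 5, true), (4, 4, true), (6, 6,
    false)],
    [([0, 0, 0, 0, 1, 1, 0], 2), ([0, 0, 0, 1, 0, 0, 2], 2), ([0, 0, 2, 0, 0, 1, 0], 2), ([0, 1, 0, 1, 0, 0, 0], 2),
    ([2, 1, 0, 0, 1, 0, 0], 2)]⟩

theorem tord7r_57_ok : tord7r_57.OK 7 := TT.leaf_ok (T := ttd7r_57) (by decide +kernel)

/-- the torus -/
def ttd7r_58 : TT where
  k := 8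
  rf := [false, true, true, true, false, false, false, true]
  tau := [9, 10, 7, 8, 14, 23, 20, 2, 3, 0, 1, 28, 37, 34, 4, 22, 47, 26, 25, 24, 6, 46, 15, 5, 19, 18, 17, 48, 11,
    36, 54, 40, 39, 38, 13, 53, 29, 12, 33, 32, 31, 55, 51, 52, 49, 50, 21, 16, 27, 44, 45, 42, 43, 35, 30, 41]
  par := [0, 0, 4, 5, 11, 12, 16, 30]
  stars := [[0, 14, 4, 9], [1, 10], [2, 11, 28, 7], [3, 8], [5, 15, 23], [6, 24, 20], [12, 37, 29], [13, 34, 38],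
    [16, 47, 22], [17, 27, 48], [18, 26], [19, 25], [21, 46, 51, 42], [30, 36, 54], [31, 55, 41], [32, 40], [33, 39],
    [35, 49, 44, 53], [43, 52], [45, 50]]
  word := [[], [], [3, 0], [3, 0], [], [], [2, 1], [1, 2], [1, 2], [], [], [], [], [1, 2], [], [], [], [0, 3], [0,
    3], [0, 3], [0, 3], [], [], [], [2, 1], [2, 1], [2, 1], [2, 1], [], [], [], [3, 0], [3, 0], [3, 0], [3, 0], [],
    [], [], [1, 2], [1, 2], [1, 2], [1, 2], [0], [0], [2], [2], [], [], [0, 3], [3], [3], [1], [1], [], [], [3, 0]]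
  rank := [0, 1, 8, 9, 0, 0, 7, 8, 9, 0, 1, 0, 0, 7, 0, 1, 0, 4, 5, 6, 7, 2, 1, 0, 6, 5, 4, 3, 0, 1, 0, 4, 5, 6, 7,
    2, 1, 0, 6, 5, 4, 3, 1, 0, 0, 1, 2, 0, 3, 0, 1, 1, 0, 2, 0, 3]
  just := [0, 1, 2, 3, 0, 0, 5, 2, 3, 0, 1, 0, 0, 7, 0, 4, 0, 9, 10, 11, 5, 8, 4, 0, 11, 10, 9, 12, 0, 6, 0, 14, 15,
    16, 7, 13, 6, 0, 16, 15, 14, 17, 18, 0, 0, 19, 8, 0, 12, 0, 19, 18, 0, 13, 0, 17]
  gA := 43
  gB := 44
  fin := 0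
  sid := [0, 1, 2, 3, 0, 4, 5, 2, 3, 0, 1, 2, 6, 7, 0, 4, 8, 9, 10, 11, 5, 12, 8, 4, 5, 11, 10, 9, 2, 6, 13, 14, 15,
    16, 7, 17, 13, 6, 7, 16, 15, 14, 12, 18, 17, 19, 12, 8, 9, 17, 19, 12, 18, 17, 13, 14]
  off := [(0, 0), (0, 0), (0, 0), (0, 0), (1, -1), (0, 0), (0, 0), (-1, 1), (-1, 1), (0, 0), (0, 0), (0, 0), (0, 0),
    (0, 0), (1, -1), (0, 0), (0, 0), (0, 0), (0, 0), (0, 0), (1, -1), (0, 0), (0, 0), (0, 0), (0, 0), (-1, 1), (-1,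
    1), (-1, 1), (0, 0), (0, 0), (0, 0), (0, 0), (0, 0), (0, 0), (1, -1), (0, 0), (0, 0), (0, 0), (0, 0), (-1, 1),
    (-1, 1), (-1, 1), (1, -1), (0, 0), (1, 0), (0, 0), (0, 0), (0, 0), (0, 0), (1, -1), (0, -1), (0, -1), (-1, 0),
    (0, 0), (0, 0), (0, 0)]

/-- glued arcs and equations -/
def tord7r_58 : TorT :=
  ⟨[(0, 2, false), (0, 4, false), (1, 1, true), (1, 3, false), (2, 5, false), (3, 5, true), (4, 4, true), (6, 6,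
    false)],
    [([0, 0, 0, 0, 1, 1, 0], 2), ([0, 0, 0, 1, 0, 0, 2], 2), ([0, 1, 0, 1, 0, 0, 0], 2), ([0, 1, 1, 0, 0, 1, 0], 2),
    ([2, 0, 1, 0, 1, 0, 0], 2)]⟩

theorem tord7r_58_ok : tord7r_58.OK 7 := TT.leaf_ok (T := ttd7r_58) (by decide +kernel)

/-- the torus -/
def ttd7r_59 : TT where
  k := 8
  rf := [false, false, true, false, false, true, true, true]
  tau := [9, 8, 7, 14, 26, 29, 41, 2, 1, 0, 35, 33, 22, 20, 3, 47, 39, 38, 37, 53, 13, 52, 12, 32, 31, 30, 4, 48, 45,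
    5, 25, 24, 23, 11, 55, 10, 54, 18, 17, 16, 46, 6, 51, 50, 49, 28, 40, 15, 27, 44, 43, 42, 21, 19, 36, 34]
  par := [0, 0, 3, 4, 5, 6, 15, 19]
  stars := [[0, 35, 10], [1, 9], [2, 8], [3, 7, 14], [4, 15, 48, 27], [5, 26, 30], [6, 29, 46, 41], [11, 36, 55, 34],
    [12, 33, 23], [13, 22, 53, 20], [16, 40, 47], [17, 39], [18, 38], [19, 54, 37], [21, 42, 52], [24, 32], [25, 31],
    [28, 49, 45], [43, 51], [44, 50]]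
  word := [[], [], [], [], [], [], [], [], [], [], [3, 1, 2, 0], [3], [3], [], [], [], [0], [0], [0], [], [], [2],
    [2], [], [], [], [], [], [1], [], [], [], [], [2], [1, 2], [1, 3, 0, 2], [1], [1], [1], [1], [1], [], [2], [2],
    [2], [0], [0], [], [], [3], [3], [3], [3], [], [0], [3, 0]]
  rank := [0, 1, 2, 0, 0, 0, 0, 2, 1, 0, 6, 5, 4, 3, 0, 0, 0, 1, 2, 0, 3, 2, 4, 3, 2, 1, 0, 1, 2, 0, 1, 2, 3, 5, 3,
    6, 3, 2, 1, 0, 1, 0, 0, 1, 2, 2, 1, 0, 1, 2, 1, 0, 2, 0, 3, 3]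
  just := [0, 1, 2, 0, 0, 0, 0, 2, 1, 0, 7, 8, 9, 3, 0, 0, 0, 11, 12, 0, 3, 14, 9, 15, 16, 5, 0, 4, 6, 0, 5, 16, 15,
    8, 17, 7, 13, 12, 11, 0, 10, 0, 0, 18, 19, 6, 10, 0, 4, 19, 18, 0, 14, 0, 13, 17]
  gA := 16
  gB := 42
  fin := 0
  sid := [0, 1, 2, 3, 4, 5, 6, 3, 2, 1, 0, 7, 8, 9, 3, 4, 10, 11, 12, 13, 9, 14, 9, 8, 15, 16, 5, 4, 17, 6, 5, 16,
    15, 8, 7, 0, 7, 13, 12, 11, 10, 6, 14, 18, 19, 17, 6, 10, 4, 17, 19, 18, 14, 9, 13, 7]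
  off := [(0, 0), (0, 0), (0, 0), (0, 0), (0, 0), (0, 0), (0, 0), (0, 0), (0, 0), (0, 0), (0, 0), (0, 0), (0, 0), (0,
    0), (0, 0), (0, 0), (0, 0), (0, 0), (0, 0), (0, 0), (0, 0), (0, 0), (0, 1), (0, 1), (0, 0), (0, 0), (0, 0), (0,
    0), (0, 0), (0, 0), (0, 0), (0, 0), (0, 0), (0, 1), (0, 1), (0, 0), (0, 0), (-1, 0), (-1, 0), (-1, 0), (-1, 0),
    (0, 0), (0, 0), (0, 0), (0, 0), (1, 0), (1, 0), (0, 0), (0, 0), (1, -1), (0, -1), (0, -1), (0, -1), (0, 0), (0,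
    0), (1, 0)]

/-- glued arcs and equations -/
def tord7r_59 : TorT :=
  ⟨[(0, 2, true), (0, 3, false), (1, 1, true), (1, 5, true), (2, 4, true), (3, 3, true), (4, 5, true), (6, 6, false)],
    [([0, 0, 0, 1, 1, 0, 0], 2), ([0, 0, 1, 0, 0, 2, 0], 2), ([0, 1, 0, 0, 1, 0, 2], 2), ([0, 1, 1, 0, 0, 0, 0], 2),
    ([2, 0, 0, 1, 0, 0, 0], 2)]⟩

theorem tord7r_59_ok : tord7r_59.OK 7 := TT.leaf_ok (T := ttd7r_59) (by decide +kernel)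

/-- the torus -/
def ttd7r_60 : TT where
  k := 8
  rf := [false, false, false, false, true, true, true, true]
  tau := [9, 15, 22, 32, 33, 19, 41, 38, 16, 0, 35, 45, 46, 55, 23, 1, 8, 39, 40, 5, 34, 31, 2, 14, 28, 52, 53, 48,
    24, 51, 42, 21, 3, 4, 20, 10, 44, 49, 7, 17, 18, 6, 30, 50, 36, 11, 12, 54, 27, 37, 43, 29, 25, 26, 47, 13]
  par := [0, 0, 1, 2, 3, 6, 11, 13]
  stars := [[0, 35, 10], [1, 9, 16], [2, 15, 23], [3, 22, 32], [4, 33], [5, 34, 20], [6, 19, 41], [7, 49, 38], [8,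
    39, 17], [11, 36, 45], [12, 46], [13, 47, 55], [14, 28, 24], [18, 40], [21, 42, 31], [25, 29, 52], [26, 53], [27,
    54, 48], [30, 43, 51], [37, 50, 44]]
  word := [[], [], [], [], [], [0], [], [1], [], [], [3, 0, 2, 1], [], [], [], [], [], [], [1], [1], [1], [1], [],
    [], [], [1], [2], [2], [2], [0], [0, 2], [2], [], [], [], [0], [0, 3, 1, 2], [0, 3, 1, 2], [0], [0], [0], [0],
    [], [3], [3, 0, 2], [3, 0, 2, 1], [], [], [], [3], [1], [3, 1, 2], [3, 1], [3], [3], [], []]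
  rank := [0, 0, 0, 0, 1, 0, 0, 3, 1, 0, 7, 0, 1, 0, 1, 0, 1, 2, 1, 0, 2, 1, 0, 1, 3, 1, 0, 3, 3, 4, 4, 1, 0, 1, 2,
    7, 6, 4, 3, 2, 1, 0, 4, 5, 6, 0, 1, 2, 3, 4, 5, 4, 1, 0, 2, 0]
  just := [0, 0, 0, 0, 4, 0, 0, 8, 1, 0, 9, 0, 10, 0, 2, 0, 1, 13, 6, 0, 5, 3, 0, 2, 12, 16, 0, 17, 12, 15, 14, 3, 0,
    4, 5, 9, 19, 7, 8, 13, 6, 0, 14, 18, 19, 0, 10, 11, 17, 7, 18, 15, 16, 0, 11, 0]
  gA := 5
  gB := 26
  fin := 0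
  sid := [0, 1, 2, 3, 4, 5, 6, 7, 8, 1, 0, 9, 10, 11, 12, 2, 1, 8, 13, 6, 5, 14, 3, 2, 12, 15, 16, 17, 12, 15, 18,
    14, 3, 4, 5, 0, 9, 19, 7, 8, 13, 6, 14, 18, 19, 9, 10, 11, 17, 7, 19, 18, 15, 16, 17, 11]
  off := [(0, 0), (0, 0), (0, 0), (0, 0), (0, 0), (0, 0), (0, 0), (0, 0), (0, 0), (0, 0), (0, 0), (0, 0), (0, 0), (0,
    0), (0, 0), (0, 0), (0, 0), (0, 0), (0, 0), (-1, 0), (-1, 0), (0, 0), (0, 0), (0, 0), (0, 0), (0, 0), (0, 0), (0,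
    0), (1, 0), (1, 0), (0, 0), (0, 0), (0, 0), (0, 0), (0, 0), (0, 0), (0, 0), (0, 0), (1, 0), (1, 0), (1, 0), (0,
    0), (0, -1), (0, -1), (0, 0), (0, 0), (0, 0), (0, 0), (0, -1), (0, 0), (-1, 0), (-1, -1), (0, -1), (0, -1), (0,
    -1), (0, 0)]

/-- glued arcs and equations -/
def tord7r_60 : TorT :=
  ⟨[(0, 2, true), (0, 3, false), (1, 1, true), (1, 2, true), (3, 4, false), (4, 5, false), (5, 5, true), (6, 6,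
    false)],
    [([0, 0, 0, 0, 0, 1, 2], 2), ([0, 0, 0, 0, 1, 1, 0], 2), ([0, 1, 0, 1, 1, 0, 0], 2), ([0, 1, 2, 0, 0, 0, 0], 2),
    ([2, 0, 0, 1, 0, 0, 0], 2)]⟩

theorem tord7r_60_ok : tord7r_60.OK 7 := TT.leaf_ok (T := ttd7r_60) (by decide +kernel)

/-- the torus -/
def ttd7r_61 : TT where
  k := 8
  rf := [false, false, true, false, true, false, true, true]
  tau := [9, 8, 7, 14, 15, 24, 34, 2, 1, 0, 28, 29, 38, 20, 3, 4, 25, 47, 23, 33, 13, 45, 46, 18, 5, 16, 40, 55, 10,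
    11, 39, 54, 37, 19, 6, 52, 53, 32, 12, 30, 26, 48, 51, 50, 49, 21, 22, 17, 41, 44, 43, 42, 35, 36, 31, 27]
  par := [0, 0, 3, 5, 6, 12, 17, 27]
  stars := [[0, 28, 10], [1, 9], [2, 8], [3, 7, 14], [4, 15], [5, 16, 25], [6, 24, 19, 34], [11, 29], [12, 30, 39],
    [13, 38, 33, 20], [17, 48, 41, 26], [18, 23, 47], [21, 49, 45], [22, 46], [27, 40, 31, 55], [32, 37, 54], [35,
    42, 52], [36, 53], [43, 51], [44, 50]]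
  word := [[], [], [], [], [], [], [], [], [], [], [2, 0, 3, 1], [2, 0, 3, 1], [], [], [], [], [], [], [1], [1], [],
    [0], [0], [0], [], [], [1, 3], [], [0, 2, 1, 3], [0, 2, 1, 3], [0, 2, 1, 3], [0, 2], [0], [0], [], [2], [2], [1],
    [], [2, 0, 3, 1], [2, 0], [2, 0], [1], [1], [1], [1], [1], [], [1, 3], [0], [0], [0], [3], [3], [3, 1], []]
  rank := [0, 1, 2, 0, 1, 0, 0, 2, 1, 0, 8, 7, 0, 3, 0, 1, 2, 0, 2, 3, 3, 0, 1, 2, 0, 2, 5, 0, 8, 7, 6, 5, 4, 3, 0,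
    0, 1, 4, 0, 6, 5, 4, 3, 2, 1, 0, 1, 0, 4, 1, 2, 3, 0, 1, 5, 0]
  just := [0, 1, 2, 0, 4, 0, 0, 2, 1, 0, 7, 8, 0, 3, 0, 4, 5, 0, 11, 6, 3, 0, 13, 11, 0, 5, 10, 0, 7, 8, 14, 15, 9,
    6, 0, 0, 17, 9, 0, 14, 10, 16, 18, 19, 12, 0, 13, 0, 16, 12, 19, 18, 0, 17, 15, 0]
  gA := 21
  gB := 35
  fin := 0
  sid := [0, 1, 2, 3, 4, 5, 6, 3, 2, 1, 0, 7, 8, 9, 3, 4, 5, 10, 11, 6, 9, 12, 13, 11, 6, 5, 10, 14, 0, 7, 8, 14, 15,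
    9, 6, 16, 17, 15, 9, 8, 14, 10, 16, 18, 19, 12, 13, 11, 10, 12, 19, 18, 16, 17, 15, 14]
  off := [(0, 0), (0, 0), (0, 0), (0, 0), (0, 0), (0, 0), (0, 0), (0, 0), (0, 0), (0, 0), (0, 0), (0, 0), (0, 0), (0,
    0), (0, 0), (0, 0), (0, 0), (0, 0), (0, 0), (-1, 0), (0, 0), (0, 0), (0, 0), (1, 0), (0, 0), (0, 0), (0, 0), (0,
    0), (0, 0), (0, 0), (0, 0), (1, 1), (0, 0), (1, 0), (0, 0), (0, 0), (0, 0), (-1, 0), (0, 0), (0, 0), (1, 1), (1,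
    1), (-1, -1), (0, 0), (0, 0), (-1, 0), (-1, 0), (0, 0), (0, 0), (0, 0), (1, 0), (1, 0), (0, -1), (0, -1), (-1,
    -1), (0, 0)]

/-- glued arcs and equations -/
def tord7r_61 : TorT :=
  ⟨[(0, 2, true), (0, 3, false), (1, 1, true), (1, 4, false), (2, 4, false), (3, 5, true), (5, 5, true), (6, 6,
    false)],
    [([0, 0, 0, 1, 0, 1, 2], 2), ([0, 0, 1, 0, 1, 1, 0], 2), ([0, 1, 0, 0, 1, 0, 0], 2), ([0, 1, 1, 0, 0, 0, 0], 2),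
    ([2, 0, 0, 1, 0, 0, 0], 2)]⟩

theorem tord7r_61_ok : tord7r_61.OK 7 := TT.leaf_ok (T := ttd7r_61) (by decide +kernel)

/-- the torus -/
def ttd7r_62 : TT where
  k := 8
  rf := [false, false, true, false, true, false, true, true]
  tau := [8, 18, 19, 26, 25, 24, 34, 17, 0, 37, 14, 43, 44, 55, 10, 42, 30, 7, 1, 2, 27, 36, 32, 33, 5, 4, 3, 20, 38,
    49, 16, 35, 22, 23, 6, 31, 21, 9, 28, 50, 51, 48, 15, 11, 12, 54, 53, 52, 41, 29, 39, 40, 47, 46, 45, 13]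
  par := [0, 0, 1, 3, 6, 9, 11, 13]
  stars := [[0, 28, 38, 9], [1, 8, 18], [2, 19], [3, 20, 27], [4, 26], [5, 25], [6, 24, 34], [7, 49, 30, 17], [10,
    37, 21, 14], [11, 15, 43], [12, 44], [13, 45, 55], [16, 31, 35, 42], [22, 36, 32], [23, 33], [29, 50, 39], [40,
    51], [41, 52, 48], [46, 54], [47, 53]]
  word := [[], [], [], [], [], [], [], [], [], [], [1], [], [], [], [0], [0], [0, 3, 1], [], [], [], [], [0], [], [],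
    [], [], [], [], [0, 2, 1, 3], [0, 2, 1], [0, 2, 1], [0], [], [], [], [1], [1], [], [2, 0, 3, 1], [2], [2], [2],
    [1], [], [], [], [], [], [3], [0, 3, 1], [3], [3], [], [], [], []]
  rank := [0, 0, 1, 0, 1, 2, 0, 1, 0, 0, 3, 0, 1, 0, 3, 4, 6, 1, 0, 1, 2, 0, 4, 3, 2, 1, 0, 2, 8, 7, 6, 5, 4, 3, 0,
    5, 0, 0, 8, 6, 5, 0, 4, 0, 1, 2, 3, 4, 0, 7, 6, 5, 4, 3, 2, 0]
  just := [0, 0, 2, 0, 4, 5, 0, 1, 0, 0, 8, 0, 10, 0, 8, 9, 12, 1, 0, 2, 3, 0, 14, 6, 5, 4, 0, 3, 15, 7, 12, 13, 14,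
    6, 0, 13, 0, 0, 15, 16, 17, 0, 9, 0, 10, 11, 18, 19, 0, 7, 16, 17, 19, 18, 11, 0]
  gA := 21
  gB := 41
  fin := 0
  sid := [0, 1, 2, 3, 4, 5, 6, 7, 1, 0, 8, 9, 10, 11, 8, 9, 12, 7, 1, 2, 3, 8, 13, 14, 6, 5, 4, 3, 0, 15, 7, 12, 13,
    14, 6, 12, 13, 8, 0, 15, 16, 17, 12, 9, 10, 11, 18, 19, 17, 7, 15, 16, 17, 19, 18, 11]
  off := [(0, 0), (0, 0), (0, 0), (0, 0), (0, 0), (0, 0), (0, 0), (0, 0), (0, 0), (0, 0), (0, 0), (0, 0), (0, 0), (0,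
    0), (1, 0), (1, 0), (0, 0), (0, 0), (0, 0), (0, 0), (0, 0), (1, 0), (0, 0), (0, 0), (0, 0), (0, 0), (0, 0), (0,
    0), (0, 0), (0, 0), (0, 1), (0, 1), (0, 0), (0, 0), (0, 0), (-1, 1), (-1, 0), (0, 0), (0, 0), (0, 0), (0, 0), (0,
    0), (-1, 0), (0, 0), (0, 0), (0, 0), (0, 0), (0, 0), (0, -1), (0, 0), (0, -1), (0, -1), (0, -1), (0, 0), (0, 0),
    (0, 0)]

/-- glued arcs and equations -/
def tord7r_62 : TorT :=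
  ⟨[(0, 1, true), (0, 3, false), (1, 4, false), (2, 2, true), (2, 5, false), (3, 5, true), (4, 4, true), (6, 6,
    false)],
    [([0, 0, 0, 0, 1, 1, 0], 2), ([0, 0, 0, 1, 0, 0, 2], 2), ([0, 0, 1, 0, 0, 1, 0], 2), ([0, 2, 0, 0, 1, 0, 0], 2),
    ([2, 0, 1, 1, 0, 0, 0], 2)]⟩

theorem tord7r_62_ok : tord7r_62.OK 7 := TT.leaf_ok (T := ttd7r_62) (by decide +kernel)

/-- the torus -/
def ttd7r_63 : TT where
  k := 8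
  rf := [false, false, true, false, true, false, true, true]
  tau := [9, 8, 7, 14, 15, 25, 34, 2, 1, 0, 28, 29, 39, 20, 3, 4, 30, 40, 47, 38, 13, 45, 46, 37, 33, 5, 31, 55, 10,
    11, 16, 26, 54, 24, 6, 52, 53, 23, 19, 12, 17, 48, 51, 50, 49, 21, 22, 18, 41, 44, 43, 42, 35, 36, 32, 27]
  par := [0, 0, 3, 5, 6, 12, 18, 27]
  stars := [[0, 28, 10], [1, 9], [2, 8], [3, 7, 14], [4, 15], [5, 16, 31, 26], [6, 25, 34], [11, 29], [12, 30, 17,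
    40], [13, 39, 20], [18, 48, 41], [19, 38, 23, 47], [21, 49, 45], [22, 46], [24, 37, 54, 33], [27, 32, 55], [35,
    42, 52], [36, 53], [43, 51], [44, 50]]
  word := [[], [], [], [], [], [], [], [], [], [], [2, 0, 3, 1], [2, 0, 3, 1], [], [], [], [], [3, 1], [1, 3], [],
    [], [], [0], [0], [0], [], [], [3, 1], [], [0, 2, 1, 3], [0, 2, 1, 3], [0, 2], [0, 2], [0, 2], [], [], [2], [2],
    [1], [], [], [2, 0], [2, 0], [1], [1], [1], [1], [1], [], [1, 3], [0], [0], [0], [3], [3], [3, 1], []]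
  rank := [0, 1, 2, 0, 1, 0, 0, 2, 1, 0, 10, 9, 0, 3, 0, 1, 8, 5, 0, 4, 3, 0, 1, 5, 1, 0, 7, 0, 10, 9, 8, 7, 6, 1, 0,
    1, 0, 5, 4, 0, 5, 4, 3, 2, 1, 0, 1, 0, 4, 1, 2, 3, 1, 0, 6, 0]
  just := [0, 1, 2, 0, 4, 0, 0, 2, 1, 0, 7, 8, 0, 3, 0, 4, 5, 10, 0, 9, 3, 0, 13, 11, 6, 0, 15, 0, 7, 8, 5, 15, 14,
    6, 0, 17, 0, 11, 9, 0, 10, 16, 18, 19, 12, 0, 13, 0, 16, 12, 19, 18, 17, 0, 14, 0]
  gA := 21
  gB := 36
  fin := 0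
  sid := [0, 1, 2, 3, 4, 5, 6, 3, 2, 1, 0, 7, 8, 9, 3, 4, 5, 8, 10, 11, 9, 12, 13, 11, 14, 6, 5, 15, 0, 7, 8, 5, 15,
    14, 6, 16, 17, 14, 11, 9, 8, 10, 16, 18, 19, 12, 13, 11, 10, 12, 19, 18, 16, 17, 14, 15]
  off := [(0, 0), (0, 0), (0, 0), (0, 0), (0, 0), (0, 0), (0, 0), (0, 0), (0, 0), (0, 0), (0, 0), (0, 0), (0, 0), (0,
    0), (0, 0), (0, 0), (0, 0), (-1, -1), (0, 0), (0, 0), (0, 0), (0, 0), (0, 0), (1, 0), (0, 0), (0, 0), (0, 0), (0,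
    0), (0, 0), (0, 0), (0, 0), (1, 1), (1, 1), (0, 0), (0, 0), (0, 0), (0, 0), (-1, 0), (0, 0), (0, 0), (0, 0), (1,
    1), (-1, -1), (0, 0), (0, 0), (-1, 0), (-1, 0), (0, 0), (0, 0), (0, 0), (1, 0), (1, 0), (0, -1), (0, -1), (-1,
    -1), (0, 0)]

/-- glued arcs and equations -/
def tord7r_63 : TorT :=
  ⟨[(0, 2, true), (0, 3, false), (1, 1, true), (1, 4, false), (2, 2, true), (3, 5, false), (4, 5, true), (6, 6,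
    false)],
    [([0, 0, 0, 0, 1, 0, 2], 2), ([0, 0, 1, 1, 0, 2, 0], 2), ([0, 1, 0, 0, 1, 0, 0], 2), ([0, 1, 1, 0, 0, 0, 0], 2),
    ([2, 0, 0, 1, 0, 0, 0], 2)]⟩

theorem tord7r_63_ok : tord7r_63.OK 7 := TT.leaf_ok (T := ttd7r_63) (by decide +kernel)

/-- the torus -/
def ttd7r_64 : TT where
  k := 8
  rf := [false, false, false, false, true, true, true, true]
  tau := [11, 15, 24, 17, 9, 8, 34, 33, 5, 4, 16, 0, 28, 41, 25, 1, 10, 3, 23, 22, 48, 47, 19, 18, 2, 14, 42, 55, 12,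
    40, 39, 51, 35, 7, 6, 32, 50, 45, 52, 30, 29, 13, 26, 54, 53, 37, 49, 21, 20, 46, 36, 31, 38, 44, 43, 27]
  par := [0, 0, 1, 2, 6, 13, 20, 27]
  stars := [[0, 28, 12], [1, 11, 16], [2, 15, 25], [3, 24, 18], [4, 17, 10], [5, 9], [6, 8, 34], [7, 35, 33], [13,
    29, 41], [14, 42, 26], [19, 23], [20, 22, 48], [21, 49, 47], [27, 43, 55], [30, 40], [31, 52, 39], [32, 36, 51],
    [37, 46, 50], [38, 53, 45], [44, 54]]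
  word := [[], [], [], [1], [1], [1], [], [0], [0], [0], [], [], [2, 1, 3, 0], [], [], [], [], [0], [0], [0], [],
    [1], [1], [1], [], [], [], [], [1, 2, 0, 3], [1, 2, 0, 3], [1, 2, 0, 3], [1, 2, 0], [1], [1], [], [0], [2, 0],
    [2], [2], [2, 1, 3, 0], [2, 1, 3, 0], [], [], [], [], [3], [0], [0], [], [1], [1, 3], [1, 3, 0], [3], [], [], []]
  rank := [0, 0, 0, 1, 2, 3, 0, 4, 3, 2, 1, 0, 9, 0, 1, 0, 1, 1, 0, 1, 0, 2, 1, 0, 0, 1, 2, 0, 9, 8, 7, 6, 5, 4, 0,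
    5, 4, 0, 5, 7, 8, 0, 2, 3, 4, 0, 3, 2, 0, 3, 4, 6, 5, 4, 3, 0]
  just := [0, 0, 0, 3, 4, 5, 0, 6, 5, 4, 1, 0, 8, 0, 2, 0, 1, 3, 0, 10, 0, 11, 10, 0, 0, 2, 9, 0, 8, 14, 15, 16, 7,
    6, 0, 7, 17, 0, 18, 15, 14, 0, 9, 13, 19, 0, 12, 11, 0, 12, 17, 16, 18, 19, 13, 0]
  gA := 18
  gB := 37
  fin := 0
  sid := [0, 1, 2, 3, 4, 5, 6, 7, 6, 5, 4, 1, 0, 8, 9, 2, 1, 4, 3, 10, 11, 12, 11, 10, 3, 2, 9, 13, 0, 8, 14, 15, 16,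
    7, 6, 7, 16, 17, 18, 15, 14, 8, 9, 13, 19, 18, 17, 12, 11, 12, 17, 16, 15, 18, 19, 13]
  off := [(0, 0), (0, 0), (0, 0), (0, 0), (0, 0), (0, 0), (0, 0), (0, 0), (1, 0), (1, 0), (1, 0), (0, 0), (0, 0), (0,
    0), (0, 0), (0, 0), (0, 0), (1, 0), (1, 0), (0, 0), (0, 0), (0, 0), (-1, 0), (-1, 0), (0, 0), (0, 0), (0, 0), (0,
    0), (0, 0), (0, 0), (0, 0), (0, 0), (0, 0), (-1, 0), (0, 0), (0, 0), (1, 0), (0, 0), (0, 0), (0, 0), (0, 0), (0,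
    0), (0, 0), (0, 0), (0, 0), (0, -1), (0, -1), (1, 0), (0, 0), (0, 0), (-1, -1), (0, -1), (0, -1), (0, -1), (0,
    0), (0, 0)]

/-- glued arcs and equations -/
def tord7r_64 : TorT :=
  ⟨[(0, 4, true), (0, 5, false), (1, 1, true), (1, 5, true), (2, 3, true), (2, 4, true), (3, 3, true), (6, 6, false)],
    [([0, 0, 0, 2, 1, 0, 0], 2), ([0, 0, 1, 0, 0, 1, 0], 2), ([0, 1, 0, 0, 0, 0, 2], 2), ([0, 1, 1, 0, 1, 0, 0], 2),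
    ([2, 0, 0, 0, 0, 1, 0], 2)]⟩

theorem tord7r_64_ok : tord7r_64.OK 7 := TT.leaf_ok (T := ttd7r_64) (by decide +kernel)

/-- the torus -/
def ttd7r_65 : TT where
  k := 8
  rf := [false, false, false, false, true, true, true, true]
  tau := [10, 9, 16, 22, 21, 32, 41, 18, 17, 1, 0, 47, 26, 55, 24, 23, 2, 8, 7, 39, 34, 4, 3, 15, 14, 54, 12, 48, 53,
    52, 43, 42, 5, 40, 20, 46, 45, 50, 49, 19, 33, 6, 31, 30, 51, 36, 35, 11, 27, 38, 37, 44, 29, 28, 25, 13]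
  par := [0, 0, 2, 3, 5, 6, 11, 13]
  stars := [[0, 35, 47, 11], [1, 10], [2, 9, 17], [3, 16, 23], [4, 22], [5, 21, 42, 32], [6, 33, 41], [7, 49, 39,
    19], [8, 18], [12, 48, 27], [13, 26, 55], [14, 28, 54, 25], [15, 24], [20, 40, 34], [29, 53], [30, 44, 52], [31,
    43], [36, 46], [37, 51, 45], [38, 50]]
  word := [[], [], [], [], [], [], [], [], [], [], [], [], [0], [], [], [], [], [], [], [2], [2], [], [], [], [],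
    [1], [1], [1], [3, 1], [3, 1], [1], [1], [], [], [3], [3, 0, 2, 1], [3, 0, 2, 1], [3], [3], [3], [], [], [0],
    [0], [0, 3, 1], [0, 3, 1, 2], [0, 3, 1, 2], [], [0], [2], [2], [0, 2, 1], [0, 2], [0, 2], [0], []]
  rank := [0, 1, 0, 0, 1, 0, 0, 3, 2, 1, 0, 0, 0, 0, 2, 1, 0, 2, 3, 2, 0, 1, 0, 1, 2, 1, 0, 1, 3, 4, 3, 2, 0, 1, 0,
    7, 6, 5, 4, 2, 1, 0, 2, 3, 5, 6, 7, 0, 1, 4, 5, 5, 4, 3, 1, 0]
  just := [0, 1, 0, 0, 4, 0, 0, 8, 2, 1, 0, 0, 0, 0, 12, 3, 0, 2, 8, 13, 0, 4, 0, 3, 12, 10, 0, 9, 11, 14, 16, 5, 0,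
    6, 0, 17, 18, 19, 7, 13, 6, 0, 5, 16, 15, 18, 17, 0, 9, 7, 19, 15, 14, 11, 10, 0]
  gA := 12
  gB := 20
  fin := 0
  sid := [0, 1, 2, 3, 4, 5, 6, 7, 8, 2, 1, 0, 9, 10, 11, 12, 3, 2, 8, 7, 13, 5, 4, 3, 12, 11, 10, 9, 11, 14, 15, 16,
    5, 6, 13, 0, 17, 18, 19, 7, 13, 6, 5, 16, 15, 18, 17, 0, 9, 7, 19, 18, 15, 14, 11, 10]
  off := [(0, 0), (0, 0), (0, 0), (0, 0), (0, 0), (0, 0), (0, 0), (0, 0), (0, 0), (0, 0), (0, 0), (0, 0), (0, 0), (0,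
    0), (0, 0), (0, 0), (0, 0), (0, 0), (0, 0), (0, 0), (0, 0), (0, 0), (0, 0), (0, 0), (0, 0), (0, 0), (-1, 0), (-1,
    0), (0, -1), (0, 0), (0, 0), (0, 0), (0, 0), (0, 0), (0, -1), (0, 0), (0, 0), (0, 0), (0, 0), (0, -1), (0, -1),
    (0, 0), (1, 0), (1, 0), (1, 0), (0, 0), (0, 0), (0, 0), (0, 0), (0, 0), (0, 1), (0, 1), (1, 1), (1, 1), (1, 0),
    (0, 0)]

/-- glued arcs and equations -/
def tord7r_65 : TorT :=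
  ⟨[(0, 3, true), (0, 4, true), (1, 2, true), (1, 3, true), (2, 2, true), (4, 5, false), (5, 5, true), (6, 6, false)],
    [([0, 0, 0, 0, 0, 1, 2], 2), ([0, 0, 2, 1, 0, 0, 0], 2), ([0, 1, 0, 0, 1, 0, 0], 2), ([0, 1, 0, 1, 0, 0, 0], 2),
    ([2, 0, 0, 0, 1, 1, 0], 2)]⟩

theorem tord7r_65_ok : tord7r_65.OK 7 := TT.leaf_ok (T := ttd7r_65) (by decide +kernel)

end Pool.Agent.Lib_MP_fa6e45
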