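import Pool.Agent.Lib_MP_fa6e45.CT5

/-!
MP_fa6e45_co, stage 9: straight-side patterns with `7` sides, tables of tori (generated by a program).
-/

namespace Pool.Agent.Lib_MP_fa6e45

/-- the torus -/
def ttd7r_66 : TT where
  k := 8
  rf := [false, false, false, false, true, true, true, true]
  tau := [11, 17, 16, 15, 24, 23, 34, 33, 22, 19, 18, 0, 28, 41, 25, 3, 2, 1, 10, 9, 48, 47, 8, 5, 4, 14, 42, 55, 12,
    43, 54, 53, 35, 7, 6, 32, 52, 51, 50, 45, 44, 13, 26, 29, 40, 39, 49, 21, 20, 46, 38, 37, 36, 31, 30, 27]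
  par := [0, 0, 1, 4, 6, 13, 20, 27]
  stars := [[0, 28, 12], [1, 11, 18], [2, 17], [3, 16], [4, 15, 25], [5, 24], [6, 23, 8, 34], [7, 35, 33], [9, 22,
    48, 20], [10, 19], [13, 29, 44, 41], [14, 42, 26], [21, 49, 47], [27, 43, 30, 55], [31, 54], [32, 36, 53], [37,
    52], [38, 51], [39, 46, 50], [40, 45]]
  word := [[], [], [], [], [], [], [], [0], [0], [], [], [], [2, 1, 3, 0], [], [], [], [], [], [], [], [], [1], [1],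
    [], [], [], [], [], [1, 2, 0, 3], [1, 2], [1, 2], [1, 2], [1], [1], [], [0], [2], [2], [2], [2, 1], [2, 1], [],
    [], [3, 0], [0, 3], [0, 3], [0], [0], [], [1], [3], [3], [3], [3, 0], [3, 0], []]
  rank := [0, 0, 1, 2, 0, 1, 0, 2, 0, 2, 1, 0, 7, 0, 3, 2, 1, 0, 1, 2, 0, 3, 0, 1, 0, 3, 4, 0, 7, 6, 5, 4, 3, 2, 0,
    3, 1, 0, 1, 5, 6, 0, 4, 6, 6, 5, 4, 3, 0, 4, 1, 0, 1, 4, 5, 0]
  just := [0, 0, 2, 3, 0, 5, 0, 6, 0, 9, 1, 0, 10, 0, 4, 3, 2, 0, 1, 9, 0, 8, 0, 5, 0, 4, 11, 0, 10, 13, 14, 15, 7,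
    6, 0, 7, 16, 0, 17, 18, 19, 0, 11, 13, 19, 18, 12, 8, 0, 12, 17, 0, 16, 15, 14, 0]
  gA := 8
  gB := 37
  fin := 0
  sid := [0, 1, 2, 3, 4, 5, 6, 7, 6, 8, 9, 1, 0, 10, 11, 4, 3, 2, 1, 9, 8, 12, 8, 6, 5, 4, 11, 13, 0, 10, 13, 14, 15,
    7, 6, 7, 15, 16, 17, 18, 19, 10, 11, 13, 10, 19, 18, 12, 8, 12, 18, 17, 16, 15, 14, 13]
  off := [(0, 0), (0, 0), (0, 0), (0, 0), (0, 0), (0, 0), (0, 0), (0, 0), (1, 0), (0, 0), (0, 0), (0, 0), (0, 0), (0,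
    0), (0, 0), (0, 0), (0, 0), (0, 0), (0, 0), (0, 0), (0, 0), (0, 0), (-1, 0), (0, 0), (0, 0), (0, 0), (0, 0), (0,
    0), (0, 0), (0, 0), (-1, 1), (0, 0), (0, 0), (-1, 0), (0, 0), (0, 0), (1, 0), (0, 0), (0, 0), (0, 0), (0, 0), (0,
    0), (0, 0), (0, 0), (1, -1), (1, -1), (1, -1), (1, 0), (0, 0), (0, 0), (0, -1), (0, -1), (0, -1), (1, -1), (1,
    -1), (0, 0)]

/-- glued arcs and equations -/
def tord7r_66 : TorT :=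
  ⟨[(0, 4, true), (0, 5, false), (1, 1, true), (1, 3, true), (2, 2, true), (2, 5, true), (3, 4, true), (6, 6, false)],
    [([0, 0, 0, 1, 0, 1, 0], 2), ([0, 0, 1, 1, 0, 0, 0], 2), ([0, 1, 0, 0, 2, 0, 0], 2), ([0, 1, 1, 0, 0, 0, 2], 2),
    ([2, 0, 0, 0, 0, 1, 0], 2)]⟩

theorem tord7r_66_ok : tord7r_66.OK 7 := TT.leaf_ok (T := ttd7r_66) (by decide +kernel)

/-- the torus -/
def ttd7r_67 : TT where
  k := 8
  rf := [false, false, false, false, true, true, true, true]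
  tau := [11, 10, 16, 23, 22, 19, 34, 33, 18, 17, 1, 0, 28, 41, 25, 24, 2, 9, 8, 5, 48, 47, 4, 3, 15, 14, 42, 55, 12,
    53, 52, 36, 35, 7, 6, 32, 31, 51, 44, 43, 54, 13, 26, 39, 38, 50, 49, 21, 20, 46, 45, 37, 30, 29, 40, 27]
  par := [0, 0, 2, 3, 6, 13, 20, 27]
  stars := [[0, 28, 12], [1, 11], [2, 10, 17], [3, 16, 24], [4, 23], [5, 22, 48, 20], [6, 19, 8, 34], [7, 35, 33],
    [9, 18], [13, 29, 54, 41], [14, 42, 26], [15, 25], [21, 49, 47], [27, 43, 40, 55], [30, 53], [31, 37, 52], [32,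
    36], [38, 45, 51], [39, 44], [46, 50]]
  word := [[], [], [], [], [], [0], [], [1], [], [], [], [], [2, 0, 3, 1], [], [], [], [], [], [], [1], [], [0], [],
    [], [], [], [], [], [0, 2, 1, 3], [0, 2, 1], [0, 2, 1], [0], [0], [0], [], [1], [1], [2, 1], [2], [2], [2], [],
    [], [3], [3], [1], [1], [1], [], [0], [0], [0, 3], [0, 3, 1], [0, 3, 1], [3], []]
  rank := [0, 1, 0, 0, 1, 2, 0, 4, 3, 2, 1, 0, 9, 0, 2, 1, 0, 2, 3, 2, 0, 0, 1, 0, 1, 2, 3, 0, 9, 8, 7, 6, 5, 4, 0,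
    5, 6, 3, 0, 1, 4, 0, 3, 1, 0, 2, 1, 0, 0, 1, 2, 3, 7, 8, 4, 0]
  just := [0, 1, 0, 0, 4, 5, 0, 6, 8, 2, 1, 0, 9, 0, 11, 3, 0, 2, 8, 5, 0, 0, 4, 0, 3, 11, 10, 0, 9, 14, 15, 16, 7,
    6, 0, 7, 16, 17, 0, 18, 13, 0, 10, 18, 0, 19, 12, 0, 0, 12, 19, 17, 15, 14, 13, 0]
  gA := 21
  gB := 38
  fin := 0
  sid := [0, 1, 2, 3, 4, 5, 6, 7, 6, 8, 2, 1, 0, 9, 10, 11, 3, 2, 8, 6, 5, 12, 5, 4, 3, 11, 10, 13, 0, 9, 14, 15, 16,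
    7, 6, 7, 16, 15, 17, 18, 13, 9, 10, 13, 18, 17, 19, 12, 5, 12, 19, 17, 15, 14, 9, 13]
  off := [(0, 0), (0, 0), (0, 0), (0, 0), (0, 0), (0, 0), (0, 0), (0, 0), (-1, 0), (0, 0), (0, 0), (0, 0), (0, 0),
    (0, 0), (0, 0), (0, 0), (0, 0), (0, 0), (0, 0), (-1, 0), (-1, 0), (0, 0), (0, 0), (0, 0), (0, 0), (0, 0), (0, 0),
    (0, 0), (0, 0), (0, 0), (0, 0), (0, 0), (0, 0), (1, 0), (0, 0), (0, 0), (-1, 0), (-1, 0), (0, 0), (0, 0), (0, 1),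
    (0, 0), (0, 0), (0, 0), (0, -1), (0, -1), (0, 0), (-1, 0), (-1, 0), (0, 0), (1, 0), (1, -1), (0, -1), (0, -1),
    (0, -1), (0, 0)]

/-- glued arcs and equations -/
def tord7r_67 : TorT :=
  ⟨[(0, 4, true), (0, 5, false), (1, 3, true), (1, 4, true), (2, 2, true), (2, 3, true), (5, 5, true), (6, 6, false)],
    [([0, 0, 1, 0, 1, 0, 0], 2), ([0, 0, 1, 2, 0, 0, 0], 2), ([0, 1, 0, 0, 0, 1, 2], 2), ([0, 1, 0, 0, 1, 0, 0], 2),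
    ([2, 0, 0, 0, 0, 1, 0], 2)]⟩

theorem tord7r_67_ok : tord7r_67.OK 7 := TT.leaf_ok (T := ttd7r_67) (by decide +kernel)

/-- the torus -/
def ttd7r_68 : TT where
  k := 4
  rf := [false, false, false, false]
  tau := [4, 12, 15, 14, 0, 26, 27, 24, 23, 18, 17, 16, 1, 20, 3, 2, 11, 10, 9, 22, 13, 25, 19, 8, 7, 21, 5, 6]
  par := [0, 1, 2, 5]
  stars := [[0, 27, 5], [1, 4, 14, 13], [2, 12, 16], [3, 15], [6, 26, 21], [7, 20, 22, 25], [8, 24], [9, 23, 19],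
    [10, 18], [11, 17]]
  word := [[0, 3, 1], [], [], [], [0, 2, 1], [], [3], [0], [0], [], [], [], [], [0, 3, 1], [], [], [], [], [], [0],
    [0, 2, 1], [2], [1], [1], [1], [3], [], [2]]
  rank := [6, 0, 0, 1, 6, 0, 1, 1, 0, 3, 2, 1, 0, 5, 1, 0, 1, 2, 3, 4, 5, 0, 4, 0, 1, 0, 0, 1]
  just := [1, 0, 0, 3, 1, 0, 4, 6, 0, 8, 9, 2, 0, 5, 3, 0, 2, 9, 8, 7, 5, 0, 7, 0, 6, 0, 0, 4]
  gA := 8
  gB := 21
  fin := 0
  sid := [0, 1, 2, 3, 1, 0, 4, 5, 6, 7, 8, 9, 2, 1, 1, 3, 2, 9, 8, 7, 5, 4, 5, 7, 6, 5, 4, 0]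
  off := [(0, 0), (0, 0), (0, 0), (0, 0), (0, 1), (0, 1), (0, 0), (0, 0), (0, 0), (0, 0), (0, 0), (0, 0), (0, 0), (0,
    0), (0, 1), (0, 0), (0, 0), (0, 0), (0, 0), (0, 0), (0, 1), (0, 1), (-1, 1), (-1, 0), (-1, 0), (-1, 0), (0, 0),
    (0, 1)]

/-- glued arcs and equations -/
def tord7r_68 : TorT :=
  ⟨[(0, 3, true), (0, 4, true), (1, 2, true), (1, 5, true), (2, 4, true), (3, 3, true), (5, 5, true), (6, 6, true)],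
    [([0, 0, 0, 1, 1, 0, 0], 2), ([0, 0, 2, 0, 0, 1, 0], 2), ([0, 1, 0, 1, 0, 0, 0], 2), ([1, 0, 0, 0, 0, 1, 1], 2),
    ([1, 1, 0, 0, 1, 0, 1], 2)]⟩

theorem tord7r_68_ok : tord7r_68.OK 7 := TT.leaf_ok (T := ttd7r_68) (by decide +kernel)

/-- the torus -/
def ttd7r_69 : TT where
  k := 8
  rf := [false, false, false, true, false, true, true, true]
  tau := [11, 17, 16, 15, 9, 8, 27, 26, 5, 4, 31, 0, 21, 41, 32, 3, 2, 1, 30, 29, 48, 12, 40, 39, 45, 35, 7, 6, 47,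
    19, 18, 10, 14, 42, 55, 25, 52, 51, 50, 23, 22, 13, 33, 54, 53, 24, 49, 28, 20, 46, 38, 37, 36, 44, 43, 34]
  par := [0, 0, 1, 6, 10, 13, 20, 34]
  stars := [[0, 21, 12], [1, 11, 31, 18], [2, 17], [3, 16], [4, 15, 32, 10], [5, 9], [6, 8, 27], [7, 35, 26], [13,
    22, 41], [14, 42, 33], [19, 30], [20, 29, 48], [23, 40], [24, 46, 50, 39], [25, 36, 53, 45], [28, 49, 47], [34,
    43, 55], [37, 52], [38, 51], [44, 54]]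
  word := [[], [], [], [], [0], [0], [], [1], [1], [1], [], [], [2, 0, 3, 1], [], [0], [], [], [], [], [], [], [0, 2,
    1, 3], [0, 2, 1, 3], [0, 2, 1, 3], [0, 2, 1], [0], [0], [], [], [], [], [], [1], [1], [], [1], [2], [2], [2], [2,
    0, 3, 1], [2, 0, 3, 1], [], [0], [0], [0], [0, 3, 1], [], [], [], [], [3], [3], [3], [1], [1], []]
  rank := [0, 0, 1, 2, 3, 4, 0, 5, 4, 3, 0, 0, 10, 0, 0, 2, 1, 0, 1, 2, 0, 10, 9, 8, 7, 6, 5, 0, 3, 2, 1, 0, 0, 1, 0,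
    6, 1, 0, 1, 8, 9, 0, 1, 2, 3, 7, 4, 3, 0, 4, 1, 0, 1, 3, 2, 0]
  just := [0, 0, 2, 3, 4, 5, 0, 6, 5, 4, 0, 0, 8, 0, 0, 3, 2, 0, 1, 10, 0, 8, 12, 13, 14, 7, 6, 0, 11, 10, 1, 0, 0,
    9, 0, 7, 17, 0, 18, 13, 12, 0, 9, 16, 19, 14, 15, 11, 0, 15, 18, 0, 17, 19, 16, 0]
  gA := 14
  gB := 37
  fin := 0
  sid := [0, 1, 2, 3, 4, 5, 6, 7, 6, 5, 4, 1, 0, 8, 9, 4, 3, 2, 1, 10, 11, 0, 8, 12, 13, 14, 7, 6, 15, 11, 10, 1, 4,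
    9, 16, 7, 14, 17, 18, 13, 12, 8, 9, 16, 19, 14, 13, 15, 11, 15, 13, 18, 17, 14, 19, 16]
  off := [(0, 0), (0, 0), (0, 0), (0, 0), (0, 0), (0, 0), (0, 0), (0, 0), (-1, 0), (-1, 0), (-1, 0), (0, 0), (0, 0),
    (0, 0), (0, 0), (0, 0), (0, 0), (0, 0), (0, 0), (0, 0), (0, 0), (0, 0), (0, 0), (0, 0), (0, 0), (0, 0), (1, 0),
    (0, 0), (0, 0), (0, 0), (0, 0), (0, 0), (-1, 0), (-1, 0), (0, 0), (0, 0), (-1, 0), (0, 0), (0, 0), (0, 0), (0,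
    0), (0, 0), (0, 0), (1, 0), (0, 0), (0, -1), (0, -1), (0, 0), (0, 0), (0, 0), (0, -1), (0, -1), (0, -1), (-1,
    -1), (-1, 0), (0, 0)]

/-- glued arcs and equations -/
def tord7r_69 : TorT :=
  ⟨[(0, 4, true), (0, 5, false), (1, 3, true), (1, 5, true), (2, 2, true), (2, 4, true), (3, 3, true), (6, 6, false)],
    [([0, 0, 1, 0, 0, 1, 0], 2), ([0, 0, 1, 1, 0, 0, 0], 2), ([0, 1, 0, 0, 0, 0, 2], 2), ([0, 1, 0, 1, 2, 0, 0], 2),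
    ([2, 0, 0, 0, 0, 1, 0], 2)]⟩

theorem tord7r_69_ok : tord7r_69.OK 7 := TT.leaf_ok (T := ttd7r_69) (by decide +kernel)

/-- the torus -/
def ttd7r_70 : TT where
  k := 8
  rf := [false, false, true, false, true, false, true, true]
  tau := [9, 19, 5, 24, 25, 2, 20, 17, 18, 0, 14, 15, 29, 34, 10, 11, 28, 7, 8, 1, 6, 37, 47, 26, 3, 4, 23, 48, 16,
    12, 33, 52, 53, 30, 13, 45, 46, 21, 42, 43, 50, 55, 38, 39, 49, 35, 36, 22, 27, 44, 40, 54, 31, 32, 51, 41]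
  par := [0, 0, 1, 3, 12, 21, 22, 31]
  stars := [[0, 14, 10], [1, 9, 19], [2, 20, 6], [3, 5, 25], [4, 24, 26], [7, 28, 17], [8, 18], [11, 15], [12, 16,
    29], [13, 30, 34], [21, 42, 38], [22, 37, 47], [23, 48, 27], [31, 53, 33], [32, 54, 52], [35, 49, 45], [36, 46],
    [39, 43], [40, 44, 50], [41, 51, 55]]
  word := [[], [], [0, 3], [], [2, 1], [2, 1], [2, 1], [], [], [], [1, 2], [1, 2], [], [3, 0], [3, 0], [3, 0], [3,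
    0], [], [], [], [0, 3], [], [], [2, 1], [], [0, 3], [0, 3], [0, 3], [1, 2], [], [3, 0], [], [1, 2], [1, 2], [1,
    2], [], [], [], [0, 3], [0, 3], [0], [2], [2, 1], [2, 1], [2], [], [], [], [2, 1], [3], [1], [1, 2], [], [3, 0],
    [3, 0], [3]]
  rank := [0, 0, 9, 0, 8, 9, 10, 2, 1, 0, 7, 6, 0, 4, 7, 6, 5, 2, 1, 0, 10, 0, 0, 7, 0, 8, 7, 6, 5, 0, 3, 0, 2, 3, 4,
    2, 1, 0, 5, 4, 0, 0, 5, 4, 3, 2, 1, 0, 6, 3, 0, 1, 0, 2, 1, 0]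
  just := [0, 0, 3, 0, 4, 3, 2, 6, 1, 0, 7, 8, 0, 9, 7, 8, 5, 6, 1, 0, 2, 0, 0, 12, 0, 4, 12, 10, 5, 0, 13, 0, 14,
    13, 9, 16, 11, 0, 17, 18, 0, 0, 17, 18, 15, 16, 11, 0, 10, 15, 0, 19, 0, 14, 19, 0]
  gA := 40
  gB := 41
  fin := 0
  sid := [0, 1, 2, 3, 4, 3, 2, 5, 6, 1, 0, 7, 8, 9, 0, 7, 8, 5, 6, 1, 2, 10, 11, 12, 4, 3, 4, 12, 5, 8, 9, 13, 14,
    13, 9, 15, 16, 11, 10, 17, 18, 19, 10, 17, 18, 15, 16, 11, 12, 15, 18, 19, 14, 13, 14, 19]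
  off := [(0, 0), (0, 0), (0, 0), (0, 0), (0, 0), (-1, 1), (-1, 1), (0, 0), (0, 0), (0, 0), (0, 0), (0, 0), (0, 0),
    (0, 0), (1, -1), (1, -1), (1, -1), (0, 0), (0, 0), (0, 0), (0, 0), (0, 0), (0, 0), (0, 0), (0, 0), (0, 0), (1,
    -1), (1, -1), (-1, 1), (0, 0), (0, 0), (0, 0), (0, 0), (-1, 1), (-1, 1), (0, 0), (0, 0), (0, 0), (0, 0), (0, 0),
    (0, 0), (0, 0), (-1, 1), (-1, 1), (-1, 1), (0, 0), (0, 0), (0, 0), (0, 0), (0, -1), (-1, 0), (-1, 0), (0, 0), (0,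
    0), (1, -1), (0, -1)]

/-- glued arcs and equations -/
def tord7r_70 : TorT :=
  ⟨[(0, 2, true), (0, 3, false), (1, 4, false), (1, 5, false), (2, 5, true), (3, 3, true), (4, 4, true), (6, 6,
    false)],
    [([0, 0, 0, 1, 1, 1, 0], 2), ([0, 0, 1, 0, 0, 0, 2], 2), ([0, 1, 0, 0, 1, 0, 0], 2), ([0, 1, 1, 0, 0, 1, 0], 2),
    ([2, 0, 0, 1, 0, 0, 0], 2)]⟩

theorem tord7r_70_ok : tord7r_70.OK 7 := TT.leaf_ok (T := ttd7r_70) (by decide +kernel)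

/-- the torus -/
def ttd7r_71 : TT where
  k := 8
  rf := [false, false, true, true, false, false, true, true]
  tau := [7, 14, 15, 10, 23, 32, 27, 0, 21, 22, 3, 16, 39, 20, 1, 2, 11, 40, 47, 38, 13, 8, 9, 4, 33, 54, 31, 6, 43,
    44, 53, 26, 5, 24, 55, 50, 51, 46, 19, 12, 17, 48, 49, 28, 29, 52, 37, 18, 41, 42, 35, 36, 45, 30, 25, 34]
  par := [0, 0, 1, 4, 5, 12, 18, 25]
  stars := [[0, 21, 8], [1, 7, 14], [2, 15], [3, 16, 11], [4, 10, 23], [5, 24, 33], [6, 32, 27], [9, 22], [12, 17,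
    40], [13, 39, 20], [18, 48, 41], [19, 38, 47], [25, 55, 34], [26, 31, 54], [28, 49, 43], [29, 44], [30, 45, 53],
    [35, 42, 50], [36, 51], [37, 52, 46]]
  word := [[], [], [], [3], [], [], [1, 2, 0], [], [2], [2], [2], [2], [], [], [], [], [3], [3], [], [], [], [3],
    [3], [], [], [], [1, 3, 0], [1, 3, 0], [1, 2], [1, 2], [1, 2, 0], [1, 2, 0], [], [], [], [0], [0], [], [], [],
    [2], [2], [3, 0], [3, 0], [3, 0], [0], [], [], [3], [1, 2], [1], [1], [1], [1, 3, 0], [], []]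
  rank := [0, 0, 1, 3, 0, 0, 7, 0, 5, 4, 3, 2, 0, 1, 0, 1, 2, 1, 0, 2, 1, 5, 4, 0, 1, 0, 6, 7, 3, 4, 5, 6, 0, 1, 2,
    0, 1, 3, 2, 0, 1, 0, 1, 3, 4, 4, 3, 0, 0, 1, 0, 1, 4, 5, 0, 2]
  just := [0, 0, 2, 3, 0, 0, 6, 0, 7, 4, 3, 8, 0, 1, 0, 2, 8, 10, 0, 9, 1, 7, 4, 0, 5, 0, 13, 6, 14, 15, 16, 13, 0,
    5, 12, 0, 18, 11, 9, 0, 10, 0, 17, 14, 15, 19, 11, 0, 0, 17, 0, 18, 19, 16, 0, 12]
  gA := 35
  gB := 41
  fin := 0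
  sid := [0, 1, 2, 3, 4, 5, 6, 1, 0, 7, 4, 3, 8, 9, 1, 2, 3, 8, 10, 11, 9, 0, 7, 4, 5, 12, 13, 6, 14, 15, 16, 13, 6,
    5, 12, 17, 18, 19, 11, 9, 8, 10, 17, 14, 15, 16, 19, 11, 10, 14, 17, 18, 19, 16, 13, 12]
  off := [(0, 0), (0, 0), (0, 0), (0, 0), (0, 0), (0, 0), (0, 0), (0, 0), (0, 0), (0, 0), (0, 1), (0, 1), (0, 0), (0,
    0), (0, 0), (0, 0), (0, 0), (0, -1), (0, 0), (0, 0), (0, 0), (0, -1), (0, -1), (0, 0), (0, 0), (0, 0), (0, 0),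
    (0, -1), (0, 0), (0, 0), (0, 0), (0, 1), (0, 0), (0, 0), (0, 0), (0, 0), (0, 0), (0, 0), (0, 0), (0, 0), (0, 0),
    (0, 1), (0, -1), (1, -1), (1, -1), (1, -1), (0, 0), (0, 0), (0, 0), (0, 0), (-1, 0), (-1, 0), (-1, 0), (0, -1),
    (0, 0), (0, 0)]

/-- glued arcs and equations -/
def tord7r_71 : TorT :=
  ⟨[(0, 0, true), (0, 1, false), (1, 2, false), (2, 4, false), (3, 3, true), (3, 5, false), (4, 5, true), (6, 6,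
    false)],
    [([0, 0, 0, 0, 1, 0, 2], 2), ([0, 0, 0, 1, 0, 2, 0], 2), ([0, 0, 1, 1, 1, 0, 0], 2), ([0, 1, 1, 0, 0, 0, 0], 2),
    ([2, 1, 0, 0, 0, 0, 0], 2)]⟩

theorem tord7r_71_ok : tord7r_71.OK 7 := TT.leaf_ok (T := ttd7r_71) (by decide +kernel)

/-- the torus -/
def ttd7r_72 : TT where
  k := 8
  rf := [false, false, true, false, true, false, true, true]
  tau := [9, 19, 23, 26, 25, 24, 20, 17, 18, 0, 14, 15, 29, 34, 10, 11, 28, 7, 8, 1, 6, 37, 47, 2, 5, 4, 3, 48, 16,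
    12, 51, 54, 53, 52, 13, 45, 46, 21, 42, 43, 50, 55, 38, 39, 49, 35, 36, 22, 27, 44, 40, 30, 33, 32, 31, 41]
  par := [0, 0, 1, 2, 12, 21, 22, 30]
  stars := [[0, 14, 10], [1, 9, 19], [2, 20, 6, 24], [3, 23, 48, 27], [4, 26], [5, 25], [7, 28, 17], [8, 18], [11,
    15], [12, 16, 29], [13, 30, 52, 34], [21, 42, 38], [22, 37, 47], [31, 55, 41, 51], [32, 54], [33, 53], [35, 49,
    45], [36, 46], [39, 43], [40, 44, 50]]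
  word := [[], [], [], [2, 1], [2, 1], [2, 1], [2, 1], [], [], [], [1, 2], [1, 2], [], [3, 0], [3, 0], [3, 0], [3,
    0], [], [], [], [0, 3], [], [], [], [0, 3], [0, 3], [0, 3], [0, 3], [1, 2], [], [], [1, 2], [1, 2], [1, 2], [1,
    2], [], [], [], [0, 3], [0, 3], [0], [2], [2, 1], [2, 1], [2], [], [], [], [2, 1], [3], [1], [], [3, 0], [3, 0],
    [3, 0], [3]]
  rank := [0, 0, 0, 7, 8, 9, 10, 2, 1, 0, 7, 6, 0, 4, 7, 6, 5, 2, 1, 0, 10, 0, 0, 0, 9, 8, 7, 6, 5, 0, 0, 1, 2, 3, 4,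
    2, 1, 0, 5, 4, 0, 0, 5, 4, 3, 2, 1, 0, 6, 3, 0, 0, 3, 2, 1, 0]
  just := [0, 0, 0, 3, 4, 5, 2, 7, 1, 0, 8, 9, 0, 10, 8, 9, 6, 7, 1, 0, 2, 0, 0, 0, 5, 4, 3, 11, 6, 0, 0, 13, 14, 15,
    10, 17, 12, 0, 18, 19, 0, 0, 18, 19, 16, 17, 12, 0, 11, 16, 0, 0, 15, 14, 13, 0]
  gA := 40
  gB := 41
  fin := 0
  sid := [0, 1, 2, 3, 4, 5, 2, 6, 7, 1, 0, 8, 9, 10, 0, 8, 9, 6, 7, 1, 2, 11, 12, 3, 2, 5, 4, 3, 6, 9, 10, 13, 14,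
    15, 10, 16, 17, 12, 11, 18, 19, 13, 11, 18, 19, 16, 17, 12, 3, 16, 19, 13, 10, 15, 14, 13]
  off := [(0, 0), (0, 0), (0, 0), (0, 0), (0, 0), (0, 0), (-1, 1), (0, 0), (0, 0), (0, 0), (0, 0), (0, 0), (0, 0),
    (0, 0), (1, -1), (1, -1), (1, -1), (0, 0), (0, 0), (0, 0), (0, 0), (0, 0), (0, 0), (0, 0), (0, 0), (1, -1), (1,
    -1), (1, -1), (-1, 1), (0, 0), (0, 0), (0, 0), (0, 0), (0, 0), (-1, 1), (0, 0), (0, 0), (0, 0), (0, 0), (0, 0),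
    (0, 0), (1, 0), (-1, 1), (-1, 1), (-1, 1), (0, 0), (0, 0), (0, 0), (0, 0), (0, -1), (-1, 0), (0, 0), (0, 0), (1,
    -1), (1, -1), (1, -1)]

/-- glued arcs and equations -/
def tord7r_72 : TorT :=
  ⟨[(0, 2, true), (0, 3, false), (1, 4, false), (1, 5, false), (2, 2, true), (3, 5, true), (4, 4, true), (6, 6,
    false)],
    [([0, 0, 0, 0, 1, 1, 0], 2), ([0, 0, 1, 1, 0, 0, 2], 2), ([0, 1, 0, 0, 1, 0, 0], 2), ([0, 1, 1, 0, 0, 1, 0], 2),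
    ([2, 0, 0, 1, 0, 0, 0], 2)]⟩

theorem tord7r_72_ok : tord7r_72.OK 7 := TT.leaf_ok (T := ttd7r_72) (by decide +kernel)

/-- the torus -/
def ttd7r_73 : TT where
  k := 8
  rf := [false, false, true, true, false, false, true, true]
  tau := [7, 14, 19, 12, 11, 10, 27, 0, 21, 26, 5, 4, 3, 20, 1, 31, 32, 29, 30, 2, 13, 8, 38, 39, 36, 37, 9, 6, 43,
    17, 18, 15, 16, 44, 55, 50, 24, 25, 22, 23, 51, 48, 49, 28, 33, 54, 53, 52, 41, 42, 35, 40, 47, 46, 45, 34]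
  par := [0, 0, 1, 6, 15, 22, 28, 34]
  stars := [[0, 21, 8], [1, 7, 14], [2, 15, 31, 19], [3, 20, 13], [4, 12], [5, 11], [6, 10, 27], [9, 22, 38, 26],
    [16, 32], [17, 29, 44, 33], [18, 30], [23, 39], [24, 36, 51, 40], [25, 37], [28, 49, 43], [34, 45, 55], [35, 42,
    50], [41, 52, 48], [46, 54], [47, 53]]
  word := [[], [], [1], [1], [1], [1], [], [], [0, 2, 1, 3], [0], [0], [0], [0], [], [], [], [], [0], [0], [0], [],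
    [2, 0, 3, 1], [], [], [2, 1, 3], [2, 1, 3], [1], [], [], [1], [1], [], [], [0], [], [2], [2, 0, 3], [2, 0, 3],
    [], [], [2, 1], [2], [], [], [1], [1], [1], [1], [3], [], [3], [0, 3], [0], [0], [0], []]
  rank := [0, 0, 4, 5, 6, 7, 0, 0, 9, 8, 7, 6, 5, 1, 0, 0, 1, 2, 3, 4, 1, 9, 0, 1, 5, 6, 8, 0, 0, 2, 3, 0, 1, 0, 0,
    2, 5, 6, 0, 1, 4, 0, 1, 0, 0, 1, 2, 3, 0, 1, 2, 4, 3, 2, 1, 0]
  just := [0, 0, 2, 3, 4, 5, 0, 0, 7, 6, 5, 4, 3, 1, 0, 0, 8, 9, 10, 2, 1, 7, 0, 11, 12, 13, 6, 0, 0, 9, 10, 0, 8, 0,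
    0, 16, 12, 13, 0, 11, 17, 0, 14, 0, 0, 15, 18, 19, 0, 14, 16, 17, 19, 18, 15, 0]
  gA := 33
  gB := 41
  fin := 0
  sid := [0, 1, 2, 3, 4, 5, 6, 1, 0, 7, 6, 5, 4, 3, 1, 2, 8, 9, 10, 2, 3, 0, 7, 11, 12, 13, 7, 6, 14, 9, 10, 2, 8, 9,
    15, 16, 12, 13, 7, 11, 12, 17, 16, 14, 9, 15, 18, 19, 17, 14, 16, 12, 17, 19, 18, 15]
  off := [(0, 0), (0, 0), (0, 0), (0, 0), (0, 0), (0, 0), (0, 0), (0, 0), (0, 0), (0, 0), (1, 0), (1, 0), (1, 0), (1,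
    0), (0, 0), (0, 0), (0, 0), (0, 0), (0, 0), (1, 0), (1, 0), (0, 0), (0, 0), (0, 0), (0, 0), (0, 0), (-1, 0), (0,
    0), (0, 0), (-1, 0), (-1, 0), (0, 0), (0, 0), (0, 0), (0, 0), (0, 0), (1, 0), (1, 0), (0, 0), (0, 0), (0, 0), (0,
    0), (0, -1), (0, 0), (-1, 0), (-1, 0), (0, 0), (0, 0), (0, -1), (0, 0), (0, -1), (1, -1), (1, -1), (1, 0), (1,
    0), (0, 0)]

/-- glued arcs and equations -/
def tord7r_73 : TorT :=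
  ⟨[(0, 0, true), (0, 1, false), (1, 3, false), (2, 4, false), (2, 5, false), (3, 5, true), (4, 4, true), (6, 6,
    false)],
    [([0, 0, 0, 0, 1, 1, 0], 2), ([0, 0, 0, 1, 0, 0, 2], 2), ([0, 0, 1, 0, 1, 0, 0], 2), ([0, 1, 1, 1, 0, 1, 0], 2),
    ([2, 1, 0, 0, 0, 0, 0], 2)]⟩

theorem tord7r_73_ok : tord7r_73.OK 7 := TT.leaf_ok (T := ttd7r_73) (by decide +kernel)

/-- the torus -/
def ttd7r_74 : TT where
  k := 8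
  rf := [false, false, false, true, true, false, true, true]
  tau := [7, 16, 26, 12, 11, 10, 34, 0, 37, 33, 5, 4, 3, 27, 24, 25, 1, 21, 22, 44, 55, 17, 18, 43, 14, 15, 2, 13,
    38, 39, 50, 35, 36, 9, 6, 31, 32, 8, 28, 29, 51, 48, 49, 23, 19, 54, 53, 52, 41, 42, 30, 40, 47, 46, 45, 20]
  par := [0, 0, 1, 2, 6, 8, 19, 20]
  stars := [[0, 28, 38, 8], [1, 7, 21, 17], [2, 16, 26], [3, 27, 13], [4, 12], [5, 11], [6, 10, 34], [9, 37, 33],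
    [14, 49, 43, 24], [15, 25], [18, 22], [19, 23, 44], [20, 45, 55], [29, 39], [30, 51, 40], [31, 35, 42, 50], [32,
    36], [41, 52, 48], [46, 54], [47, 53]]
  word := [[], [], [], [0], [0], [0], [], [], [], [1], [1], [1], [1], [1], [], [], [], [1], [1], [], [], [0], [0],
    [0], [], [], [], [0], [0, 2, 1, 3], [0, 2, 1, 3], [0, 2, 1], [0], [0], [0], [], [1], [1], [], [2, 0, 3, 1], [2,
    0, 3, 1], [2], [2], [1], [1], [], [], [], [], [3], [0], [0, 3, 1], [3], [], [], [], []]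
  rank := [0, 0, 0, 0, 1, 2, 0, 0, 0, 3, 2, 1, 0, 1, 2, 1, 0, 2, 3, 0, 0, 2, 3, 4, 2, 1, 0, 1, 8, 7, 6, 5, 4, 3, 0,
    5, 4, 0, 8, 7, 4, 0, 5, 4, 0, 1, 2, 3, 0, 5, 6, 4, 3, 2, 1, 0]
  just := [0, 0, 0, 0, 4, 5, 0, 0, 0, 6, 5, 4, 0, 3, 9, 2, 0, 1, 10, 0, 0, 1, 10, 11, 9, 2, 0, 3, 13, 14, 15, 16, 7,
    6, 0, 16, 7, 0, 13, 14, 17, 0, 8, 11, 0, 12, 18, 19, 0, 8, 15, 17, 19, 18, 12, 0]
  gA := 3
  gB := 41
  fin := 0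
  sid := [0, 1, 2, 3, 4, 5, 6, 1, 0, 7, 6, 5, 4, 3, 8, 9, 2, 1, 10, 11, 12, 1, 10, 11, 8, 9, 2, 3, 0, 13, 14, 15, 16,
    7, 6, 15, 16, 7, 0, 13, 14, 17, 15, 8, 11, 12, 18, 19, 17, 8, 15, 14, 17, 19, 18, 12]
  off := [(0, 0), (0, 0), (0, 0), (0, 0), (0, 0), (0, 0), (0, 0), (0, 0), (0, 0), (0, 0), (-1, 0), (-1, 0), (-1, 0),
    (-1, 0), (0, 0), (0, 0), (0, 0), (0, 0), (0, 0), (0, 0), (0, 0), (1, 0), (1, 0), (1, 0), (0, 0), (0, 0), (0, 0),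
    (0, 0), (0, 0), (0, 0), (0, 0), (0, 0), (0, 0), (1, 0), (0, 0), (-1, 0), (-1, 0), (0, 0), (0, 0), (0, 0), (0, 0),
    (0, 0), (-1, -1), (-1, 0), (0, 0), (0, 0), (0, 0), (0, 0), (0, -1), (0, 0), (0, -1), (0, -1), (0, -1), (0, 0),
    (0, 0), (0, 0)]

/-- glued arcs and equations -/
def tord7r_74 : TorT :=
  ⟨[(0, 0, true), (0, 3, false), (1, 2, true), (1, 4, false), (2, 5, false), (3, 5, true), (4, 4, true), (6, 6,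
    false)],
    [([0, 0, 0, 0, 1, 1, 0], 2), ([0, 0, 0, 1, 0, 0, 2], 2), ([0, 0, 2, 0, 0, 1, 0], 2), ([0, 1, 0, 0, 1, 0, 0], 2),
    ([2, 1, 0, 1, 0, 0, 0], 2)]⟩

theorem tord7r_74_ok : tord7r_74.OK 7 := TT.leaf_ok (T := ttd7r_74) (by decide +kernel)

/-- the torus -/
def ttd7r_75 : TT where
  k := 8
  rf := [false, false, false, false, true, true, true, true]
  tau := [9, 8, 7, 18, 23, 22, 34, 2, 1, 0, 25, 16, 15, 41, 40, 12, 11, 24, 3, 35, 48, 33, 5, 4, 17, 10, 28, 55, 26,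
    54, 53, 38, 45, 21, 6, 19, 47, 46, 31, 52, 14, 13, 51, 50, 49, 32, 37, 36, 20, 44, 43, 42, 39, 30, 29, 27]
  par := [0, 0, 3, 4, 6, 13, 20, 27]
  stars := [[0, 28, 26, 10], [1, 9], [2, 8], [3, 7, 35, 19], [4, 18, 24], [5, 23], [6, 22, 34], [11, 25, 17], [12,
    16], [13, 15, 41], [14, 42, 52, 40], [20, 36, 48], [21, 49, 45, 33], [27, 29, 55], [30, 54], [31, 39, 53], [32,
    46, 38], [37, 47], [43, 51], [44, 50]]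
  word := [[], [], [], [], [], [], [], [], [], [], [0, 3], [0, 3], [0, 3], [], [2, 1], [2, 1], [2, 1], [], [], [],
    [], [], [], [], [], [2, 1], [1, 2], [], [3, 0], [3, 0], [3, 0], [3], [3], [], [], [], [], [], [2], [0], [0, 3],
    [], [2], [2], [2], [2], [], [], [], [3], [3], [3], [1], [1, 2], [1, 2], []]
  rank := [0, 1, 2, 0, 0, 1, 0, 2, 1, 0, 6, 5, 4, 0, 3, 4, 5, 1, 0, 3, 0, 2, 1, 0, 1, 6, 9, 0, 9, 8, 7, 6, 3, 2, 0,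
    3, 4, 5, 6, 0, 3, 0, 2, 1, 0, 3, 5, 4, 0, 0, 1, 2, 0, 7, 8, 0]
  just := [0, 1, 2, 0, 0, 5, 0, 2, 1, 0, 7, 8, 9, 0, 10, 9, 8, 4, 0, 3, 0, 6, 5, 0, 4, 7, 13, 0, 13, 14, 15, 16, 12,
    6, 0, 3, 11, 17, 16, 0, 10, 0, 18, 19, 0, 12, 17, 11, 0, 0, 19, 18, 0, 15, 14, 0]
  gA := 39
  gB := 44
  fin := 0
  sid := [0, 1, 2, 3, 4, 5, 6, 3, 2, 1, 0, 7, 8, 9, 10, 9, 8, 7, 4, 3, 11, 12, 6, 5, 4, 7, 0, 13, 0, 13, 14, 15, 16,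
    12, 6, 3, 11, 17, 16, 15, 10, 9, 10, 18, 19, 12, 16, 17, 11, 12, 19, 18, 10, 15, 14, 13]
  off := [(0, 0), (0, 0), (0, 0), (0, 0), (0, 0), (0, 0), (0, 0), (0, 0), (0, 0), (0, 0), (0, 0), (0, 0), (0, 0), (0,
    0), (0, 0), (-1, 1), (-1, 1), (-1, 1), (0, 0), (0, 0), (0, 0), (0, 0), (0, 0), (0, 0), (0, 0), (-1, 1), (-1, 1),
    (0, 0), (0, 0), (1, -1), (0, 0), (0, 0), (0, 0), (0, 0), (0, 0), (0, 0), (0, 0), (0, 0), (0, 1), (0, 1), (1, -1),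
    (0, 0), (0, 0), (0, 0), (0, 0), (0, 1), (0, 1), (0, 0), (0, 0), (0, 0), (0, -1), (0, -1), (0, -1), (-1, 1), (-1,
    1), (0, 0)]

/-- glued arcs and equations -/
def tord7r_75 : TorT :=
  ⟨[(0, 2, true), (0, 5, false), (1, 1, true), (1, 5, true), (2, 4, true), (3, 3, true), (3, 4, true), (6, 6, false)],
    [([0, 0, 0, 1, 2, 0, 0], 2), ([0, 0, 1, 0, 0, 1, 0], 2), ([0, 1, 0, 0, 0, 0, 2], 2), ([0, 1, 1, 0, 0, 0, 0], 2),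
    ([2, 0, 0, 1, 0, 1, 0], 2)]⟩

theorem tord7r_75_ok : tord7r_75.OK 7 := TT.leaf_ok (T := ttd7r_75) (by decide +kernel)

/-- the torus -/
def ttd7r_76 : TT where
  k := 8
  rf := [false, false, true, true, true, false, true, false]
  tau := [7, 14, 25, 33, 40, 31, 27, 0, 21, 18, 47, 54, 45, 20, 1, 24, 23, 22, 9, 46, 13, 8, 17, 16, 15, 2, 32, 6,
    42, 49, 39, 5, 26, 3, 41, 43, 52, 51, 50, 30, 4, 34, 28, 35, 53, 12, 19, 10, 55, 29, 38, 37, 36, 44, 11, 48]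
  par := [0, 0, 1, 2, 3, 4, 10, 11]
  stars := [[0, 21, 8], [1, 7, 14], [2, 15, 25], [3, 26, 33], [4, 34, 41], [5, 40, 31], [6, 32, 27], [9, 22, 18],
    [10, 19, 47], [11, 48, 55], [12, 54, 45], [13, 46, 20], [16, 24], [17, 23], [28, 43, 35], [29, 49, 42], [30, 39,
    50], [36, 44, 53], [37, 52], [38, 51]]
  word := [[], [], [], [], [], [2, 1], [2, 1], [], [1, 2], [1, 2], [], [], [3, 0], [], [], [], [], [], [3, 0], [3,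
    0], [], [3, 0], [], [], [], [], [], [0, 3], [0], [0], [0, 3], [0, 3], [], [], [], [0], [2], [2], [2], [2, 1], [],
    [], [1], [1], [1, 2], [1, 2], [1, 2], [], [], [1], [3], [3], [3], [3, 0], [], []]
  rank := [0, 0, 0, 0, 0, 5, 6, 0, 5, 4, 0, 0, 2, 1, 0, 1, 2, 3, 4, 3, 1, 5, 3, 2, 1, 0, 1, 6, 2, 3, 4, 5, 1, 0, 1,
    0, 0, 1, 2, 4, 0, 1, 2, 0, 1, 2, 3, 0, 1, 3, 2, 1, 0, 1, 0, 1]
  just := [0, 0, 0, 0, 0, 5, 6, 0, 7, 8, 0, 0, 10, 1, 0, 2, 12, 13, 8, 11, 1, 7, 13, 12, 2, 0, 3, 6, 14, 15, 16, 5,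
    3, 0, 4, 0, 0, 18, 19, 16, 0, 4, 14, 0, 17, 10, 11, 0, 9, 15, 19, 18, 0, 17, 0, 9]
  gA := 35
  gB := 36
  fin := 0
  sid := [0, 1, 2, 3, 4, 5, 6, 1, 0, 7, 8, 9, 10, 11, 1, 2, 12, 13, 7, 8, 11, 0, 7, 13, 12, 2, 3, 6, 14, 15, 16, 5,
    6, 3, 4, 14, 17, 18, 19, 16, 5, 4, 15, 14, 17, 10, 11, 8, 9, 15, 16, 19, 18, 17, 10, 9]
  off := [(0, 0), (0, 0), (0, 0), (0, 0), (0, 0), (0, 0), (0, 0), (0, 0), (0, 0), (0, 0), (0, 0), (0, 0), (0, 0), (0,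
    0), (0, 0), (0, 0), (0, 0), (0, 0), (1, -1), (1, -1), (0, 0), (1, -1), (1, -1), (0, 0), (0, 0), (0, 0), (0, 0),
    (1, -1), (0, 0), (0, 0), (0, 0), (1, -1), (1, -1), (0, 0), (0, 0), (0, 0), (0, 0), (0, 0), (0, 0), (-1, 1), (0,
    0), (0, 0), (-1, 0), (-1, 0), (-1, 0), (-1, 1), (-1, 1), (0, 0), (0, 0), (-1, 0), (-1, 0), (0, -1), (0, -1), (0,
    -1), (0, 0), (0, 0)]

/-- glued arcs and equations -/
def tord7r_76 : TorT :=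
  ⟨[(0, 0, true), (0, 1, false), (1, 3, true), (2, 2, true), (2, 4, false), (3, 5, false), (4, 5, true), (6, 6,
    false)],
    [([0, 0, 0, 0, 1, 0, 2], 2), ([0, 0, 0, 1, 0, 2, 0], 2), ([0, 0, 1, 1, 0, 0, 0], 2), ([0, 1, 1, 0, 1, 0, 0], 2),
    ([2, 1, 0, 0, 0, 0, 0], 2)]⟩

theorem tord7r_76_ok : tord7r_76.OK 7 := TT.leaf_ok (T := ttd7r_76) (by decide +kernel)

end Pool.Agent.Lib_MP_fa6e45
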