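import Pool.Agent.Lib_MP_fa6e45.CT5

/-!
MP_fa6e45_co, stage 9: straight-side patterns with `7` sides, tables of tori (generated by a program).
-/

namespace Pool.Agent.Lib_MP_fa6e45

/-- the torus -/
def ttd7r_77 : TT where
  k := 4
  rf := [false, false, false, false]
  tau := [9, 17, 16, 15, 22, 21, 20, 19, 18, 0, 26, 25, 24, 27, 23, 3, 2, 1, 8, 7, 6, 5, 4, 14, 12, 11, 10, 13]
  par := [0, 0, 1, 4]
  stars := [[0, 20, 7, 27, 10], [1, 9, 18], [2, 17], [3, 16], [4, 15, 23], [5, 22], [6, 21, 13, 24, 14], [8, 19],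
    [11, 26], [12, 25]]
  word := [[], [], [], [], [], [], [3, 0], [], [], [], [0], [0], [0], [2], [], [], [], [], [], [], [1, 2], [], [],
    [], [1], [1], [1], [3]]
  rank := [0, 0, 1, 2, 0, 1, 4, 2, 1, 0, 1, 0, 1, 0, 3, 2, 1, 0, 1, 2, 4, 1, 0, 3, 1, 0, 1, 0]
  just := [0, 0, 2, 3, 0, 5, 6, 7, 1, 0, 8, 0, 9, 0, 4, 3, 2, 0, 1, 7, 6, 5, 0, 4, 9, 0, 8, 0]
  gA := 11
  gB := 13
  fin := 0
  sid := [0, 1, 2, 3, 4, 5, 6, 0, 7, 1, 0, 8, 9, 6, 6, 4, 3, 2, 1, 7, 0, 6, 5, 4, 6, 9, 8, 0]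
  off := [(0, 0), (0, 0), (0, 0), (0, 0), (0, 0), (0, 0), (0, 0), (-1, 1), (0, 0), (0, 0), (0, 0), (0, 0), (0, 0),
    (0, 1), (-1, 1), (0, 0), (0, 0), (0, 0), (0, 0), (0, 0), (-1, 1), (0, 0), (0, 0), (0, 0), (-1, 1), (-1, 0), (-1,
    0), (-1, 0)]

/-- glued arcs and equations -/
def tord7r_77 : TorT :=
  ⟨[(0, 2, true), (0, 5, true), (1, 3, true), (1, 4, true), (2, 2, true), (3, 5, true), (4, 4, true), (6, 6, true)],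
    [([0, 0, 0, 0, 1, 1, 0], 2), ([0, 0, 1, 1, 0, 0, 0], 2), ([0, 1, 0, 0, 0, 1, 0], 2), ([0, 1, 1, 0, 1, 0, 0], 2),
    ([2, 0, 0, 1, 0, 0, 2], 2)]⟩

theorem tord7r_77_ok : tord7r_77.OK 7 := TT.leaf_ok (T := ttd7r_77) (by decide +kernel)

/-- the torus -/
def ttd7r_78 : TT where
  k := 4
  rf := [false, false, false, false]
  tau := [7, 5, 14, 16, 15, 1, 13, 0, 12, 21, 23, 22, 8, 6, 2, 4, 3, 26, 25, 24, 27, 9, 11, 10, 19, 18, 17, 20]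
  par := [0, 0, 2, 9]
  stars := [[0, 13, 8], [1, 7, 6], [2, 5, 15], [3, 14, 27, 17], [4, 16], [9, 12, 22], [10, 21, 20, 24], [11, 23],
    [18, 26], [19, 25]]
  word := [[], [0, 3], [], [2, 1], [2, 1], [2, 1], [2, 1], [], [1, 2], [], [3, 0], [3, 0], [3, 0], [0, 3], [], [0,
    3], [0, 3], [0], [0], [0], [2], [], [1, 2], [1, 2], [1], [1], [1], [3]]
  rank := [0, 4, 0, 2, 3, 4, 5, 0, 4, 0, 2, 3, 4, 5, 0, 3, 2, 1, 0, 1, 0, 0, 3, 2, 1, 0, 1, 0]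
  just := [0, 2, 0, 3, 4, 2, 1, 0, 5, 0, 6, 7, 5, 1, 0, 4, 3, 8, 0, 9, 0, 0, 7, 6, 9, 0, 8, 0]
  gA := 18
  gB := 20
  fin := 0
  sid := [0, 1, 2, 3, 4, 2, 1, 1, 0, 5, 6, 7, 5, 0, 3, 2, 4, 3, 8, 9, 6, 6, 5, 7, 6, 9, 8, 3]
  off := [(0, 0), (0, 0), (0, 0), (0, 0), (0, 0), (-1, 1), (-1, 1), (0, 0), (0, 0), (0, 0), (0, 0), (0, 0), (1, -1),
    (1, -1), (0, 0), (0, 0), (1, -1), (1, -1), (0, 0), (0, 0), (0, 1), (0, 0), (0, 0), (-1, 1), (-1, 1), (-1, 0),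
    (-1, 0), (0, -1)]

/-- glued arcs and equations -/
def tord7r_78 : TorT :=
  ⟨[(0, 0, true), (0, 2, true), (1, 4, true), (1, 5, true), (2, 3, true), (3, 5, true), (4, 4, true), (6, 6, true)],
    [([0, 0, 0, 0, 1, 1, 0], 2), ([0, 0, 1, 0, 1, 0, 0], 2), ([0, 1, 1, 0, 0, 1, 0], 2), ([1, 0, 0, 2, 0, 0, 1], 2),
    ([1, 1, 0, 0, 0, 0, 1], 2)]⟩

theorem tord7r_78_ok : tord7r_78.OK 7 := TT.leaf_ok (T := ttd7r_78) (by decide +kernel)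

/-- the torus -/
def ttd7r_79 : TT where
  k := 8
  rf := [false, false, true, true, false, true, true, false]
  tau := [7, 14, 15, 26, 33, 24, 41, 0, 35, 36, 47, 54, 45, 20, 1, 2, 39, 38, 37, 46, 13, 42, 49, 50, 5, 40, 3, 34,
    43, 44, 53, 52, 51, 4, 27, 8, 9, 18, 17, 16, 25, 6, 21, 28, 29, 12, 19, 10, 55, 22, 23, 32, 31, 30, 11, 48]
  par := [0, 0, 1, 3, 4, 6, 10, 11]
  stars := [[0, 35, 8], [1, 7, 14], [2, 15], [3, 16, 40, 26], [4, 27, 34], [5, 33, 51, 24], [6, 25, 41], [9, 36],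
    [10, 37, 19, 47], [11, 48, 55], [12, 54, 30, 45], [13, 46, 20], [17, 39], [18, 38], [21, 43, 28], [22, 49, 42],
    [23, 50], [29, 44], [31, 53], [32, 52]]
  word := [[], [], [], [], [], [2, 1], [], [], [1, 2, 0, 3], [1, 2, 0, 3], [], [], [3, 0], [], [], [], [0, 3], [0,
    3], [0, 3], [3, 0], [], [0], [0], [0], [0, 3], [0, 3], [], [], [0], [0], [2], [2], [2], [], [], [2, 1, 3, 0], [2,
    1, 3, 0], [2, 1], [2, 1], [2, 1], [2, 1], [], [1], [1], [1], [1, 2], [1, 2], [], [], [1], [1], [3], [3], [3], [],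
    []]
  rank := [0, 0, 1, 0, 0, 2, 0, 0, 8, 7, 0, 0, 5, 1, 0, 1, 4, 5, 6, 6, 1, 2, 0, 1, 2, 3, 0, 1, 3, 4, 2, 1, 0, 0, 1,
    8, 7, 6, 5, 4, 3, 0, 2, 3, 4, 5, 6, 0, 1, 0, 1, 0, 1, 2, 0, 1]
  just := [0, 0, 2, 0, 0, 5, 0, 0, 7, 8, 0, 0, 10, 1, 0, 2, 3, 12, 13, 11, 1, 15, 0, 16, 5, 6, 0, 4, 14, 17, 18, 19,
    0, 0, 4, 7, 8, 13, 12, 3, 6, 0, 15, 14, 17, 10, 11, 0, 9, 0, 16, 0, 19, 18, 0, 9]
  gA := 22
  gB := 32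
  fin := 0
  sid := [0, 1, 2, 3, 4, 5, 6, 1, 0, 7, 8, 9, 10, 11, 1, 2, 3, 12, 13, 8, 11, 14, 15, 16, 5, 6, 3, 4, 14, 17, 10, 18,
    19, 5, 4, 0, 7, 8, 13, 12, 3, 6, 15, 14, 17, 10, 11, 8, 9, 15, 16, 5, 19, 18, 10, 9]
  off := [(0, 0), (0, 0), (0, 0), (0, 0), (0, 0), (0, 0), (0, 0), (0, 0), (0, 0), (0, 0), (0, 0), (0, 0), (0, 0), (0,
    0), (0, 0), (0, 0), (0, 0), (0, 0), (0, 0), (1, -1), (0, 0), (0, 0), (0, 0), (0, 0), (1, -1), (1, -1), (0, 0),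
    (0, 0), (0, 0), (0, 0), (0, 1), (0, 0), (0, 0), (0, 0), (0, 0), (0, 0), (0, 0), (0, 0), (-1, 1), (-1, 1), (-1,
    1), (0, 0), (-1, 0), (-1, 0), (-1, 0), (-1, 1), (-1, 1), (0, 0), (0, 0), (-1, 0), (-1, 0), (0, -1), (0, -1), (0,
    -1), (0, 0), (0, 0)]

/-- glued arcs and equations -/
def tord7r_79 : TorT :=
  ⟨[(0, 0, true), (0, 1, false), (1, 2, false), (2, 4, true), (3, 3, true), (3, 5, false), (4, 5, true), (6, 6,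
    false)],
    [([0, 0, 0, 0, 1, 0, 2], 2), ([0, 0, 0, 1, 1, 0, 0], 2), ([0, 0, 1, 1, 0, 2, 0], 2), ([0, 1, 1, 0, 0, 0, 0], 2),
    ([2, 1, 0, 0, 0, 0, 0], 2)]⟩

theorem tord7r_79_ok : tord7r_79.OK 7 := TT.leaf_ok (T := ttd7r_79) (by decide +kernel)

/-- the torus -/
def ttd7r_80 : TT where
  k := 4
  rf := [false, false, false, false]
  tau := [7, 5, 18, 21, 19, 1, 13, 0, 12, 25, 14, 26, 8, 6, 10, 24, 23, 22, 2, 4, 27, 3, 17, 16, 15, 9, 11, 20]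
  par := [0, 0, 2, 3]
  stars := [[0, 13, 8], [1, 7, 6], [2, 5, 19], [3, 18, 22], [4, 21, 20], [9, 12, 26], [10, 25, 15], [11, 14, 27],
    [16, 24], [17, 23]]
  word := [[], [2], [], [], [3], [3], [3], [], [0, 3, 1], [0], [0], [0, 2], [0, 2, 1], [2], [1], [], [], [], [], [2],
    [2], [], [], [], [], [1], [3, 1], [3]]
  rank := [0, 2, 0, 0, 1, 2, 3, 0, 5, 4, 0, 1, 5, 3, 0, 3, 2, 1, 0, 1, 0, 0, 1, 2, 3, 4, 1, 0]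
  just := [0, 2, 0, 0, 4, 2, 1, 0, 5, 6, 0, 7, 5, 1, 0, 8, 9, 3, 0, 4, 0, 0, 3, 9, 8, 6, 7, 0]
  gA := 10
  gB := 20
  fin := 0
  sid := [0, 1, 2, 3, 4, 2, 1, 1, 0, 5, 6, 7, 5, 0, 7, 6, 8, 9, 3, 2, 4, 4, 3, 9, 8, 6, 5, 7]
  off := [(0, 0), (0, 0), (0, 0), (0, 0), (0, 0), (0, -1), (0, -1), (0, 0), (0, 0), (0, 0), (0, 0), (0, 0), (0, 1),
    (0, 1), (-1, 0), (-1, 0), (0, 0), (0, 0), (0, 0), (0, 0), (0, 1), (0, 0), (0, 0), (0, 0), (0, 0), (-1, 0), (-1,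
    0), (-1, -1)]

/-- glued arcs and equations -/
def tord7r_80 : TorT :=
  ⟨[(0, 0, true), (0, 3, true), (1, 3, true), (1, 5, true), (2, 2, true), (2, 4, true), (4, 5, true), (6, 6, true)],
    [([0, 0, 1, 0, 0, 2, 0], 2), ([0, 0, 1, 1, 0, 0, 0], 2), ([0, 1, 0, 1, 1, 0, 0], 2), ([1, 0, 0, 0, 1, 0, 1], 2),
    ([1, 1, 0, 0, 0, 0, 1], 2)]⟩

theorem tord7r_80_ok : tord7r_80.OK 7 := TT.leaf_ok (T := ttd7r_80) (by decide +kernel)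

/-- the torus -/
def ttd7r_81 : TT where
  k := 4
  rf := [false, false, false, false]
  tau := [9, 8, 7, 14, 26, 15, 13, 2, 1, 0, 21, 19, 22, 6, 3, 5, 25, 24, 23, 11, 27, 10, 12, 18, 17, 16, 4, 20]
  par := [0, 0, 3, 4]
  stars := [[0, 13, 22, 10], [1, 9], [2, 8], [3, 7, 6, 15], [4, 14, 27], [5, 26, 16], [11, 21, 20], [12, 19, 23],
    [17, 25], [18, 24]]
  word := [[], [], [], [], [], [3], [3], [], [], [], [0], [0], [0, 2], [2], [], [2], [2], [2], [2], [1], [], [1], [3,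
    1], [3], [3], [3], [], []]
  rank := [0, 1, 2, 0, 0, 2, 3, 2, 1, 0, 2, 0, 2, 3, 0, 2, 1, 0, 1, 0, 1, 2, 2, 1, 0, 1, 0, 1]
  just := [0, 1, 2, 0, 0, 5, 3, 2, 1, 0, 6, 0, 7, 3, 0, 5, 8, 0, 9, 0, 4, 6, 7, 9, 0, 8, 0, 4]
  gA := 11
  gB := 17
  fin := 0
  sid := [0, 1, 2, 3, 4, 5, 3, 3, 2, 1, 0, 6, 7, 0, 4, 3, 5, 8, 9, 7, 6, 6, 0, 7, 9, 8, 5, 4]
  off := [(0, 0), (0, 0), (0, 0), (0, 0), (0, 0), (0, 0), (0, -1), (0, 0), (0, 0), (0, 0), (0, 0), (0, 0), (0, 0),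
    (0, 1), (0, 0), (0, 0), (0, 1), (0, 0), (0, 0), (-1, 0), (-1, 0), (-1, 0), (-1, 0), (-1, -1), (0, -1), (0, -1),
    (0, 0), (0, 0)]

/-- glued arcs and equations -/
def tord7r_81 : TorT :=
  ⟨[(0, 2, true), (0, 3, true), (1, 1, true), (1, 5, true), (2, 4, true), (3, 3, true), (4, 5, true), (6, 6, true)],
    [([0, 0, 0, 1, 1, 0, 0], 2), ([0, 0, 1, 0, 0, 2, 0], 2), ([0, 1, 1, 0, 0, 0, 0], 2), ([1, 0, 0, 0, 1, 0, 1], 2),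
    ([1, 1, 0, 1, 0, 0, 1], 2)]⟩

theorem tord7r_81_ok : tord7r_81.OK 7 := TT.leaf_ok (T := ttd7r_81) (by decide +kernel)

/-- the torus -/
def ttd7r_82 : TT where
  k := 8
  rf := [false, false, true, true, false, true, true, false]
  tau := [7, 17, 18, 26, 33, 24, 20, 0, 38, 39, 47, 54, 45, 41, 37, 36, 35, 1, 2, 25, 6, 42, 31, 32, 5, 19, 3, 34,
    51, 50, 49, 22, 23, 4, 27, 16, 15, 14, 8, 9, 46, 13, 21, 52, 53, 12, 40, 10, 55, 30, 29, 28, 43, 44, 11, 48]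
  par := [0, 0, 1, 3, 4, 8, 10, 11]
  stars := [[0, 14, 38, 8], [1, 7, 35, 17], [2, 18], [3, 19, 26], [4, 27, 34], [5, 33, 24], [6, 25, 20], [9, 39],
    [10, 40, 47], [11, 48, 55], [12, 54, 45], [13, 46, 41], [15, 37], [16, 36], [21, 43, 52, 28], [22, 31, 49, 42],
    [23, 32], [29, 51], [30, 50], [44, 53]]
  word := [[], [], [], [], [], [0, 2, 1], [0, 2, 1], [], [], [], [], [], [3], [3], [3], [3], [3], [], [], [], [0, 3,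
    1], [0, 3], [0, 3, 1], [0, 3, 1], [0, 3, 1], [], [], [], [0], [0], [0], [0, 2, 1], [0, 2, 1], [], [], [2], [2],
    [2], [], [], [], [2], [2, 1], [2], [2], [2], [], [], [], [1], [1], [1], [3], [3], [], []]
  rank := [0, 0, 1, 0, 0, 5, 6, 0, 0, 1, 0, 0, 1, 3, 6, 5, 4, 0, 1, 2, 6, 2, 3, 4, 5, 2, 0, 1, 1, 0, 1, 3, 4, 0, 1,
    4, 5, 6, 0, 1, 2, 3, 2, 1, 0, 1, 2, 0, 1, 1, 0, 1, 1, 0, 0, 1]
  just := [0, 0, 2, 0, 0, 5, 6, 0, 0, 7, 0, 0, 10, 11, 12, 13, 1, 0, 2, 3, 6, 14, 15, 16, 5, 3, 0, 4, 17, 0, 18, 15,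
    16, 0, 4, 1, 13, 12, 0, 7, 8, 11, 14, 19, 0, 10, 8, 0, 9, 18, 0, 17, 19, 0, 0, 9]
  gA := 29
  gB := 44
  fin := 0
  sid := [0, 1, 2, 3, 4, 5, 6, 1, 0, 7, 8, 9, 10, 11, 0, 12, 13, 1, 2, 3, 6, 14, 15, 16, 5, 6, 3, 4, 14, 17, 18, 15,
    16, 5, 4, 1, 13, 12, 0, 7, 8, 11, 15, 14, 19, 10, 11, 8, 9, 15, 18, 17, 14, 19, 10, 9]
  off := [(0, 0), (0, 0), (0, 0), (0, 0), (0, 0), (0, 0), (0, 0), (0, 0), (0, 0), (0, 0), (0, 0), (0, 0), (0, 0), (0,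
    0), (0, -1), (0, 0), (0, 0), (0, 0), (0, 0), (0, 0), (0, -1), (0, 0), (0, 0), (0, 0), (0, -1), (0, -1), (0, 0),
    (0, 0), (0, 0), (0, 0), (0, 0), (0, 1), (0, 1), (0, 0), (0, 0), (0, 1), (0, 1), (0, 1), (0, 0), (0, 0), (0, 0),
    (0, 1), (-1, 1), (-1, 1), (0, 0), (0, 1), (0, 1), (0, 0), (0, 0), (-1, 1), (-1, 0), (-1, 0), (-1, 0), (0, -1),
    (0, 0), (0, 0)]

/-- glued arcs and equations -/
def tord7r_82 : TorT :=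
  ⟨[(0, 0, true), (0, 2, true), (1, 1, true), (1, 3, false), (2, 4, false), (3, 5, false), (4, 5, true), (6, 6,
    false)],
    [([0, 0, 0, 0, 1, 0, 2], 2), ([0, 0, 0, 1, 0, 2, 0], 2), ([0, 0, 1, 0, 1, 0, 0], 2), ([0, 1, 1, 0, 0, 0, 0], 2),
    ([2, 1, 0, 1, 0, 0, 0], 2)]⟩

theorem tord7r_82_ok : tord7r_82.OK 7 := TT.leaf_ok (T := ttd7r_82) (by decide +kernel)

/-- the torus -/
def ttd7r_83 : TT where
  k := 2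
  rf := [false, true]
  tau := [4, 9, 10, 11, 0, 7, 13, 5, 12, 1, 2, 3, 8, 6]
  par := [0, 1]
  stars := [[0, 7, 5], [1, 4, 12, 9], [2, 10], [3, 11], [6, 8, 13]]
  word := [[2], [], [], [], [3], [0, 3], [0], [2, 1], [2], [], [], [], [3], [1]]
  rank := [3, 0, 1, 2, 3, 1, 0, 1, 0, 0, 1, 2, 0, 0]
  just := [1, 0, 2, 3, 1, 4, 0, 4, 0, 0, 2, 3, 0, 0]
  gA := 6
  gB := 8
  fin := 0
  sid := [0, 1, 2, 3, 1, 0, 4, 0, 4, 1, 2, 3, 1, 4]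
  off := [(0, 0), (0, 0), (0, 0), (0, 0), (0, -1), (0, -1), (0, 0), (-1, 0), (-1, 1), (0, 0), (0, 0), (0, 0), (0,
    -1), (-1, 0)]

/-- glued arcs and equations -/
def tord7r_83 : TorT :=
  ⟨[(0, 4, true), (0, 5, false), (1, 2, false), (1, 5, true), (2, 3, false), (3, 4, false), (6, 6, false)],
    [([0, 0, 0, 1, 1, 0, 0], 2), ([0, 0, 1, 1, 0, 0, 0], 2), ([0, 1, 0, 0, 0, 0, 2], 2), ([0, 1, 1, 0, 1, 1, 0], 2),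
    ([2, 0, 0, 0, 0, 1, 0], 2)]⟩

theorem tord7r_83_ok : tord7r_83.OK 7 := TT.leaf_ok (T := ttd7r_83) (by decide +kernel)

/-- the torus -/
def ttd7r_84 : TT where
  k := 8
  rf := [false, false, true, true, false, false, true, true]
  tau := [7, 14, 9, 22, 23, 32, 27, 0, 21, 2, 15, 16, 39, 20, 1, 10, 11, 40, 47, 38, 13, 8, 3, 4, 33, 54, 31, 6, 43,
    52, 53, 26, 5, 24, 55, 50, 45, 46, 19, 12, 17, 48, 49, 28, 51, 36, 37, 18, 41, 42, 35, 44, 29, 30, 25, 34]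
  par := [0, 0, 1, 3, 5, 12, 18, 25]
  stars := [[0, 21, 8], [1, 7, 14], [2, 15, 10], [3, 9, 22], [4, 23], [5, 24, 33], [6, 32, 27], [11, 16], [12, 17,
    40], [13, 39, 20], [18, 48, 41], [19, 38, 47], [25, 55, 34], [26, 31, 54], [28, 49, 43], [29, 44, 52], [30, 53],
    [35, 42, 50], [36, 51, 45], [37, 46]]
  word := [[], [], [3], [], [], [], [1, 2, 0], [], [2], [2], [2], [2], [], [], [], [3], [3], [3], [], [], [], [3],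
    [], [], [], [], [1, 3, 0], [1, 3, 0], [1, 2], [1, 2, 0], [1, 2, 0], [1, 2, 0], [], [], [], [0], [], [], [], [],
    [2], [2], [3, 0], [3, 0], [0], [], [], [], [3], [1, 2], [1], [1], [1, 3, 0], [1, 3, 0], [], []]
  rank := [0, 0, 4, 0, 1, 0, 9, 0, 5, 4, 3, 2, 0, 1, 0, 3, 2, 1, 0, 2, 1, 5, 0, 1, 2, 0, 8, 9, 4, 6, 7, 8, 0, 2, 3,
    0, 4, 3, 2, 0, 1, 0, 1, 4, 5, 4, 3, 0, 0, 1, 0, 5, 6, 7, 0, 3]
  just := [0, 0, 2, 0, 4, 0, 6, 0, 3, 2, 7, 8, 0, 1, 0, 7, 8, 10, 0, 9, 1, 3, 0, 4, 5, 0, 13, 6, 14, 15, 16, 13, 0,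
    5, 12, 0, 19, 11, 9, 0, 10, 0, 17, 14, 18, 19, 11, 0, 0, 17, 0, 18, 15, 16, 0, 12]
  gA := 35
  gB := 41
  fin := 0
  sid := [0, 1, 2, 3, 4, 5, 6, 1, 0, 3, 2, 7, 8, 9, 1, 2, 7, 8, 10, 11, 9, 0, 3, 4, 5, 12, 13, 6, 14, 15, 16, 13, 6,
    5, 12, 17, 18, 19, 11, 9, 8, 10, 17, 14, 15, 18, 19, 11, 10, 14, 17, 18, 15, 16, 13, 12]
  off := [(0, 0), (0, 0), (0, 0), (0, 0), (0, 0), (0, 0), (0, 0), (0, 0), (0, 0), (0, 1), (0, 1), (0, 0), (0, 0), (0,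
    0), (0, 0), (0, 0), (0, -1), (0, -1), (0, 0), (0, 0), (0, 0), (0, -1), (0, 0), (0, 0), (0, 0), (0, 0), (0, 0),
    (0, -1), (0, 0), (0, 0), (0, 0), (0, 1), (0, 0), (0, 0), (0, 0), (0, 0), (0, 0), (0, 0), (0, 0), (0, 0), (0, 0),
    (0, 1), (0, -1), (1, -1), (1, -1), (0, 0), (0, 0), (0, 0), (0, 0), (0, 0), (-1, 0), (-1, 0), (0, -1), (0, -1),
    (0, 0), (0, 0)]

/-- glued arcs and equations -/
def tord7r_84 : TorT :=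
  ⟨[(0, 0, true), (0, 1, false), (1, 3, false), (2, 2, true), (2, 4, false), (3, 5, false), (4, 5, true), (6, 6,
    false)],
    [([0, 0, 0, 0, 1, 0, 2], 2), ([0, 0, 0, 1, 0, 2, 0], 2), ([0, 0, 1, 0, 1, 0, 0], 2), ([0, 1, 1, 1, 0, 0, 0], 2),
    ([2, 1, 0, 0, 0, 0, 0], 2)]⟩

theorem tord7r_84_ok : tord7r_84.OK 7 := TT.leaf_ok (T := ttd7r_84) (by decide +kernel)

/-- the torus -/
def ttd7r_85 : TT where
  k := 2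
  rf := [false, true]
  tau := [4, 10, 11, 9, 0, 7, 13, 5, 12, 3, 1, 2, 8, 6]
  par := [0, 1]
  stars := [[0, 7, 5], [1, 4, 10], [2, 11], [3, 12, 9], [6, 8, 13]]
  word := [[2], [], [], [3], [3], [0, 3], [0], [2, 1], [2], [2], [], [], [3], [1]]
  rank := [3, 0, 1, 2, 3, 1, 0, 1, 0, 2, 0, 1, 0, 0]
  just := [1, 0, 2, 3, 1, 4, 0, 4, 0, 3, 0, 2, 0, 0]
  gA := 6
  gB := 8
  fin := 0
  sid := [0, 1, 2, 3, 1, 0, 4, 0, 4, 3, 1, 2, 3, 4]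
  off := [(0, 0), (0, 0), (0, 0), (0, 0), (0, -1), (0, -1), (0, 0), (-1, 0), (-1, 1), (0, 1), (0, 0), (0, 0), (0, 0),
    (-1, 0)]

/-- glued arcs and equations -/
def tord7r_85 : TorT :=
  ⟨[(0, 4, true), (0, 5, false), (1, 3, false), (1, 5, true), (2, 3, false), (2, 4, false), (6, 6, false)],
    [([0, 0, 1, 0, 1, 0, 0], 2), ([0, 0, 1, 1, 0, 1, 0], 2), ([0, 1, 0, 0, 0, 0, 2], 2), ([0, 1, 0, 1, 1, 0, 0], 2),
    ([2, 0, 0, 0, 0, 1, 0], 2)]⟩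

theorem tord7r_85_ok : tord7r_85.OK 7 := TT.leaf_ok (T := ttd7r_85) (by decide +kernel)

/-- the torus -/
def ttd7r_86 : TT where
  k := 8
  rf := [false, false, true, false, true, false, true, true]
  tau := [9, 8, 7, 14, 23, 18, 34, 2, 1, 0, 28, 37, 32, 20, 3, 24, 46, 22, 5, 33, 13, 45, 17, 4, 15, 47, 40, 55, 10,
    38, 53, 36, 12, 19, 6, 52, 31, 11, 29, 54, 26, 48, 51, 50, 49, 21, 16, 25, 41, 44, 43, 42, 35, 30, 39, 27]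
  par := [0, 0, 3, 4, 6, 11, 16, 27]
  stars := [[0, 28, 10], [1, 9], [2, 8], [3, 7, 14], [4, 15, 24], [5, 23, 18], [6, 19, 34], [11, 29, 38], [12, 37,
    32], [13, 33, 20], [16, 47, 25], [17, 22, 46], [21, 49, 45], [26, 48, 41], [27, 40, 55], [30, 54, 39], [31, 36,
    53], [35, 42, 52], [43, 51], [44, 50]]
  word := [[], [], [], [], [], [0], [], [], [], [], [2, 0, 3, 1], [], [1], [], [], [], [], [1], [1], [1], [], [0],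
    [0], [], [], [], [3], [], [0, 2, 1, 3], [0, 2, 1, 3], [0, 2, 1], [0], [0], [0], [], [2, 1], [1], [], [2, 0, 3,
    1], [2], [2], [2], [1], [1], [1], [1], [], [], [3], [0], [0], [0], [0, 3], [0, 3, 1], [3], []]
  rank := [0, 1, 2, 0, 0, 2, 0, 2, 1, 0, 8, 0, 4, 3, 0, 1, 0, 1, 2, 3, 3, 0, 1, 0, 1, 2, 3, 0, 8, 7, 6, 5, 4, 3, 0,
    4, 5, 0, 7, 4, 3, 0, 3, 2, 1, 0, 0, 2, 0, 1, 2, 3, 4, 6, 4, 0]
  just := [0, 1, 2, 0, 0, 5, 0, 2, 1, 0, 7, 0, 9, 3, 0, 4, 0, 11, 5, 6, 3, 0, 11, 0, 4, 10, 13, 0, 7, 15, 16, 8, 9,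
    6, 0, 17, 8, 0, 15, 14, 13, 0, 18, 19, 12, 0, 0, 10, 0, 12, 19, 18, 17, 16, 14, 0]
  gA := 21
  gB := 41
  fin := 0
  sid := [0, 1, 2, 3, 4, 5, 6, 3, 2, 1, 0, 7, 8, 9, 3, 4, 10, 11, 5, 6, 9, 12, 11, 5, 4, 10, 13, 14, 0, 7, 15, 16, 8,
    9, 6, 17, 16, 8, 7, 15, 14, 13, 17, 18, 19, 12, 11, 10, 13, 12, 19, 18, 17, 16, 15, 14]
  off := [(0, 0), (0, 0), (0, 0), (0, 0), (0, 0), (0, 0), (0, 0), (0, 0), (0, 0), (0, 0), (0, 0), (0, 0), (0, 0), (0,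
    0), (0, 0), (0, 0), (0, 0), (0, 0), (-1, 0), (-1, 0), (0, 0), (0, 0), (1, 0), (0, 0), (0, 0), (0, 0), (0, 0), (0,
    0), (0, 0), (0, 0), (0, 0), (0, 0), (1, 0), (1, 0), (0, 0), (0, 0), (-1, 0), (0, 0), (0, 0), (0, 0), (0, 1), (0,
    1), (0, -1), (0, 0), (0, 0), (-1, 0), (0, 0), (0, 0), (0, 0), (0, 0), (1, 0), (1, 0), (1, -1), (0, -1), (0, -1),
    (0, 0)]

/-- glued arcs and equations -/
def tord7r_86 : TorT :=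
  ⟨[(0, 2, true), (0, 3, false), (1, 1, true), (1, 3, false), (2, 4, true), (4, 5, false), (5, 5, true), (6, 6,
    false)],
    [([0, 0, 0, 0, 0, 1, 2], 2), ([0, 0, 1, 0, 1, 1, 0], 2), ([0, 1, 0, 1, 1, 0, 0], 2), ([0, 1, 1, 0, 0, 0, 0], 2),
    ([2, 0, 0, 1, 0, 0, 0], 2)]⟩

theorem tord7r_86_ok : tord7r_86.OK 7 := TT.leaf_ok (T := ttd7r_86) (by decide +kernel)

/-- the torus -/
def ttd7r_87 : TT where
  k := 2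
  rf := [false, true]
  tau := [3, 11, 10, 0, 7, 8, 13, 4, 5, 12, 2, 1, 9, 6]
  par := [0, 1]
  stars := [[0, 7, 4], [1, 3, 11], [2, 12, 10], [5, 8], [6, 9, 13]]
  word := [[2], [], [3], [3], [0], [0], [0, 2], [1], [1], [2], [2], [], [3], [3, 1]]
  rank := [2, 0, 1, 2, 1, 0, 1, 1, 0, 0, 1, 0, 0, 1]
  just := [1, 0, 2, 1, 3, 0, 4, 3, 0, 0, 2, 0, 0, 4]
  gA := 5
  gB := 9
  fin := 0
  sid := [0, 1, 2, 1, 0, 3, 4, 0, 3, 4, 2, 1, 2, 4]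
  off := [(0, 0), (0, 0), (0, 0), (0, -1), (0, -1), (0, 0), (0, 0), (-1, -1), (-1, 0), (-1, 0), (0, 1), (0, 0), (0,
    0), (-1, -1)]

/-- glued arcs and equations -/
def tord7r_87 : TorT :=
  ⟨[(0, 3, true), (0, 4, false), (1, 4, false), (1, 5, false), (2, 3, false), (2, 5, true), (6, 6, false)],
    [([0, 0, 1, 0, 0, 0, 2], 2), ([0, 0, 1, 1, 0, 1, 0], 2), ([0, 1, 0, 0, 0, 1, 0], 2), ([0, 1, 0, 1, 1, 0, 0], 2),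
    ([2, 0, 0, 0, 1, 0, 0], 2)]⟩

theorem tord7r_87_ok : tord7r_87.OK 7 := TT.leaf_ok (T := ttd7r_87) (by decide +kernel)

end Pool.Agent.Lib_MP_fa6e45
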