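import Pool.Agent.Lib_MP_fa6e45.CT5

/-!
MP_fa6e45_co, stage 9: straight-side patterns with `7` sides, tables of tori (generated by a program).
-/

namespace Pool.Agent.Lib_MP_fa6e45

/-- the torus -/
def ttd7r_88 : TT where
  k := 2
  rf := [false, true]
  tau := [11, 12, 8, 9, 10, 7, 13, 5, 2, 3, 4, 0, 1, 6]
  par := [0, 0]
  stars := [[0, 7, 5, 11], [1, 12], [2, 13, 6, 8], [3, 9], [4, 10]]
  word := [[], [], [0], [0], [0], [2, 0], [2], [1, 3], [1], [1], [1], [], [], [3]]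
  rank := [0, 1, 0, 1, 2, 2, 0, 2, 0, 1, 2, 0, 1, 0]
  just := [0, 1, 0, 3, 4, 2, 0, 2, 0, 3, 4, 0, 1, 0]
  gA := 2
  gB := 6
  fin := 0
  sid := [0, 1, 2, 3, 4, 0, 2, 0, 2, 3, 4, 0, 1, 2]
  off := [(0, 0), (0, 0), (0, 0), (0, 0), (0, 0), (1, 0), (0, 1), (0, -1), (-1, 0), (-1, 0), (-1, 0), (0, 0), (0, 0),
    (0, 0)]

/-- glued arcs and equations -/
def tord7r_88 : TorT :=
  ⟨[(0, 4, false), (0, 5, false), (1, 2, false), (1, 5, false), (2, 3, false), (3, 4, false), (6, 6, false)],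
    [([0, 0, 0, 1, 1, 0, 0], 2), ([0, 0, 1, 1, 0, 0, 0], 2), ([0, 1, 0, 0, 0, 1, 0], 2), ([0, 1, 1, 0, 0, 0, 2], 2),
    ([2, 0, 0, 0, 1, 1, 0], 2)]⟩

theorem tord7r_88_ok : tord7r_88.OK 7 := TT.leaf_ok (T := ttd7r_88) (by decide +kernel)

/-- the torus -/
def ttd7r_89 : TT where
  k := 4
  rf := [false, false, false, false]
  tau := [9, 8, 7, 18, 21, 12, 26, 2, 1, 0, 25, 14, 5, 19, 11, 24, 23, 22, 3, 13, 27, 4, 17, 16, 15, 10, 6, 20]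
  par := [0, 0, 3, 4]
  stars := [[0, 26, 10], [1, 9], [2, 8], [3, 7, 19], [4, 18, 22], [5, 21, 20, 13], [6, 12, 14, 27], [11, 25, 15],
    [16, 24], [17, 23]]
  word := [[], [], [], [], [], [3], [3, 0, 2], [], [], [], [0], [0], [2], [], [1], [], [], [], [], [], [2], [], [],
    [], [], [1], [3, 1, 2], [3]]
  rank := [0, 1, 2, 0, 0, 4, 5, 2, 1, 0, 4, 0, 4, 3, 0, 3, 2, 1, 0, 3, 0, 0, 1, 2, 3, 4, 5, 0]
  just := [0, 1, 2, 0, 0, 5, 6, 2, 1, 0, 7, 0, 5, 3, 0, 8, 9, 4, 0, 3, 0, 0, 4, 9, 8, 7, 6, 0]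
  gA := 11
  gB := 20
  fin := 0
  sid := [0, 1, 2, 3, 4, 5, 6, 3, 2, 1, 0, 7, 6, 5, 6, 7, 8, 9, 4, 3, 5, 5, 4, 9, 8, 7, 0, 6]
  off := [(0, 0), (0, 0), (0, 0), (0, 0), (0, 0), (0, 0), (0, 0), (0, 0), (0, 0), (0, 0), (0, 0), (0, 0), (0, 1), (0,
    1), (-1, 1), (-1, 0), (0, 0), (0, 0), (0, 0), (0, 0), (0, 1), (0, 0), (0, 0), (0, 0), (0, 0), (-1, 0), (-1, 0),
    (-1, 0)]

/-- glued arcs and equations -/
def tord7r_89 : TorT :=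
  ⟨[(0, 2, true), (0, 4, true), (1, 1, true), (1, 3, true), (2, 2, true), (3, 4, true), (5, 5, true), (5, 6, true),
    (6, 6, true)],
    [([0, 0, 1, 1, 0, 0, 0], 2), ([0, 1, 0, 0, 2, 0, 0], 2), ([0, 1, 1, 0, 0, 0, 0], 2), ([1, 0, 0, 0, 0, 1, 2], 2),
    ([1, 0, 0, 1, 0, 1, 0], 2)]⟩

theorem tord7r_89_ok : tord7r_89.OK 7 := TT.leaf_ok (T := ttd7r_89) (by decide +kernel)

/-- the torus -/
def ttd7r_90 : TT where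
  k := 4
  rf := [false, false, false, false]
  tau := [7, 18, 17, 22, 21, 12, 26, 0, 25, 24, 15, 14, 5, 19, 11, 10, 23, 2, 1, 13, 27, 4, 3, 16, 9, 8, 6, 20]
  par := [0, 0, 1, 3]
  stars := [[0, 26, 8], [1, 7, 19], [2, 18], [3, 17, 23], [4, 22], [5, 21, 20, 13], [6, 12, 14, 27], [9, 25], [10,
    24, 16], [11, 15]]
  word := [[], [], [], [], [], [3], [3, 0, 2], [], [0], [0], [0], [0], [2], [], [1], [1], [], [], [], [], [2], [],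
    [], [], [1], [1], [3, 1, 2], [3]]
  rank := [0, 0, 1, 0, 1, 2, 3, 0, 4, 3, 0, 1, 2, 1, 1, 0, 2, 1, 0, 1, 0, 1, 0, 2, 3, 4, 3, 0]
  just := [0, 0, 2, 0, 4, 5, 6, 0, 7, 8, 0, 9, 5, 1, 9, 0, 3, 2, 0, 1, 0, 4, 0, 3, 8, 7, 6, 0]
  gA := 10
  gB := 20
  fin := 0
  sid := [0, 1, 2, 3, 4, 5, 6, 1, 0, 7, 8, 9, 6, 5, 6, 9, 8, 3, 2, 1, 5, 5, 4, 3, 8, 7, 0, 6]
  off := [(0, 0), (0, 0), (0, 0), (0, 0), (0, 0), (0, 0), (0, 0), (0, 0), (0, 0), (0, 0), (0, 0), (0, 0), (0, 1), (0,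
    1), (-1, 1), (-1, 0), (-1, 0), (0, 0), (0, 0), (0, 0), (0, 1), (0, 0), (0, 0), (0, 0), (-1, 0), (-1, 0), (-1, 0),
    (-1, 0)]

/-- glued arcs and equations -/
def tord7r_90 : TorT :=
  ⟨[(0, 0, true), (0, 4, true), (1, 3, true), (1, 4, true), (2, 2, true), (2, 3, true), (5, 5, true), (5, 6, true),
    (6, 6, true)],
    [([0, 0, 1, 0, 1, 0, 0], 2), ([0, 0, 1, 2, 0, 0, 0], 2), ([0, 1, 0, 0, 1, 0, 0], 2), ([1, 0, 0, 0, 0, 1, 2], 2),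
    ([1, 1, 0, 0, 0, 1, 0], 2)]⟩

theorem tord7r_90_ok : tord7r_90.OK 7 := TT.leaf_ok (T := ttd7r_90) (by decide +kernel)

/-- the torus -/
def ttd7r_91 : TT where
  k := 12
  rf := [false, false, false, false, true, true, true, true, false, false, false, false]
  tau := [10, 17, 16, 15, 23, 33, 26, 35, 46, 18, 0, 25, 20, 48, 24, 3, 2, 1, 9, 47, 12, 49, 32, 4, 14, 11, 6, 34,
    56, 52, 51, 50, 22, 5, 27, 7, 45, 44, 43, 64, 75, 69, 63, 38, 37, 36, 8, 19, 13, 21, 31, 30, 29, 57, 82, 62, 28,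
    53, 81, 70, 67, 83, 55, 42, 39, 74, 77, 60, 76, 41, 59, 80, 79, 78, 65, 40, 68, 66, 73, 72, 71, 58, 54, 61]
  par := [0, 0, 1, 4, 5, 7, 8, 21, 28, 39, 40, 54]
  stars := [[0, 26, 11], [1, 10, 18], [2, 17], [3, 16], [4, 15, 24], [5, 23, 33], [6, 34, 27], [7, 42, 63, 35], [8,
    36, 46], [9, 47, 19], [12, 25, 14], [13, 20, 48], [21, 28, 56, 49], [22, 50, 32], [29, 53, 57], [30, 52], [31,
    51], [37, 45], [38, 44], [39, 64, 43], [40, 75, 65], [41, 69, 76], [54, 82, 58], [55, 62, 83], [59, 81, 71], [60,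
    70, 68], [61, 67, 77], [66, 74, 78], [72, 80], [73, 79]]
  word := [[], [], [], [], [], [], [3, 1, 2], [], [], [], [], [1], [1], [1], [], [], [], [], [], [], [0], [], [], [],
    [], [0], [3, 0, 2], [3, 0, 2], [], [], [], [], [], [], [3, 1, 2], [], [], [], [], [], [], [1], [], [], [], [],
    [], [], [0], [], [], [], [], [], [], [3, 0, 2], [], [], [], [3], [3, 1], [3, 1, 2], [3, 1, 2], [], [], [], [2],
    [0, 2], [0], [0], [2], [2], [2], [2], [], [], [1], [3], [3], [3], [3], [], [], [3, 0, 2]]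
  rank := [0, 0, 1, 2, 0, 0, 12, 0, 0, 1, 0, 7, 6, 5, 3, 2, 1, 0, 1, 2, 6, 0, 1, 0, 3, 7, 12, 11, 0, 4, 3, 2, 1, 0,
    11, 0, 1, 2, 3, 0, 0, 1, 4, 3, 2, 1, 0, 2, 5, 0, 2, 3, 4, 5, 0, 10, 0, 5, 6, 7, 8, 9, 10, 4, 0, 1, 2, 8, 0, 1, 7,
    1, 0, 1, 1, 0, 0, 2, 1, 0, 1, 6, 0, 9]
  just := [0, 0, 2, 3, 0, 0, 6, 0, 0, 1, 0, 10, 11, 7, 4, 3, 2, 0, 1, 9, 11, 0, 5, 0, 4, 10, 6, 12, 0, 15, 16, 13, 5,
    0, 12, 0, 8, 17, 18, 0, 0, 21, 19, 18, 17, 8, 0, 9, 7, 0, 13, 16, 15, 14, 0, 23, 0, 14, 22, 24, 25, 26, 23, 19,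
    0, 20, 27, 25, 0, 21, 24, 28, 0, 29, 20, 0, 0, 27, 29, 0, 28, 22, 0, 26]
  gA := 68
  gB := 72
  fin := 0
  sid := [0, 1, 2, 3, 4, 5, 6, 7, 8, 9, 1, 0, 10, 11, 10, 4, 3, 2, 1, 9, 11, 12, 13, 5, 4, 10, 0, 6, 12, 14, 15, 16,
    13, 5, 6, 7, 8, 17, 18, 19, 20, 21, 7, 19, 18, 17, 8, 9, 11, 12, 13, 16, 15, 14, 22, 23, 12, 14, 22, 24, 25, 26,
    23, 7, 19, 20, 27, 26, 25, 21, 25, 24, 28, 29, 27, 20, 21, 26, 27, 29, 28, 24, 22, 23]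
  off := [(0, 0), (0, 0), (0, 0), (0, 0), (0, 0), (0, 0), (0, 0), (0, 0), (0, 0), (0, 0), (0, 0), (0, 0), (0, 0), (0,
    0), (1, 0), (0, 0), (0, 0), (0, 0), (0, 0), (0, 0), (1, 0), (0, 0), (0, 0), (0, 0), (0, 0), (1, 0), (1, 0), (1,
    0), (-1, 0), (0, 0), (0, 0), (0, 0), (0, 0), (0, 0), (0, 0), (0, 0), (0, 0), (0, 0), (0, 0), (0, 0), (0, 0), (0,
    0), (1, 0), (0, 0), (0, 0), (0, 0), (0, 0), (0, 0), (1, 0), (0, 0), (0, 0), (0, 0), (0, 0), (0, 0), (0, 0), (0,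
    0), (-1, 0), (0, 0), (0, 0), (0, 0), (0, 0), (0, 0), (-1, 0), (1, 0), (0, 0), (0, 0), (0, 0), (1, 1), (1, 1), (1,
    0), (0, 1), (0, 1), (0, 0), (0, 0), (0, 0), (0, 0), (0, 0), (1, 0), (0, -1), (0, -1), (0, -1), (0, 0), (0, 0),
    (0, 0)]

/-- glued arcs and equations -/
def tord7r_91 : TorT :=
  ⟨[(0, 0, false), (0, 3, true), (1, 3, true), (1, 4, false), (2, 2, true), (2, 4, true), (4, 4, true), (5, 5,
    false), (5, 6, true), (6, 6, false)],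
    [([0, 0, 0, 0, 0, 0, 3], 2), ([0, 0, 1, 0, 0, 2, 0], 2), ([0, 0, 1, 1, 0, 0, 0], 2), ([0, 1, 0, 1, 1, 0, 0], 2),
    ([0, 2, 0, 0, 1, 0, 0], 2), ([1, 0, 0, 0, 1, 1, 0], 2), ([4, 0, 0, 0, 0, 0, 0], 2)]⟩

theorem tord7r_91_ok : tord7r_91.OK 7 := TT.leaf_ok (T := ttd7r_91) (by decide +kernel)

/-- the torus -/
def ttd7r_92 : TT where
  k := 12
  rf := [false, false, false, false, true, true, true, true, false, false, false, false]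
  tau := [9, 8, 7, 14, 11, 27, 34, 2, 1, 0, 21, 4, 20, 41, 3, 35, 36, 44, 45, 40, 12, 10, 28, 29, 51, 52, 33, 5, 22,
    23, 59, 60, 53, 26, 6, 15, 16, 66, 67, 46, 19, 13, 64, 65, 17, 18, 39, 68, 76, 57, 58, 24, 25, 32, 61, 83, 73,
    49, 50, 30, 31, 54, 82, 80, 42, 43, 37, 38, 47, 75, 79, 78, 77, 56, 81, 69, 48, 72, 71, 70, 63, 74, 62, 55]
  par := [0, 0, 3, 5, 6, 13, 17, 24, 30, 37, 48, 55]
  stars := [[0, 28, 22, 10], [1, 9], [2, 8], [3, 7, 35, 15], [4, 14, 12], [5, 11, 21], [6, 27, 34], [13, 20, 41],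
    [16, 36], [17, 37, 66, 44], [18, 45], [19, 46, 40], [23, 29], [24, 30, 59, 51], [25, 52], [26, 53, 33], [31, 60],
    [32, 54, 61], [38, 67], [39, 47, 68], [42, 64, 80, 70], [43, 65], [48, 76, 69], [49, 57, 73, 77], [50, 58], [55,
    83, 62], [56, 82, 74], [63, 75, 81], [71, 79], [72, 78]]
  word := [[], [], [], [], [1], [], [], [], [], [], [0], [0], [0], [], [], [], [], [], [], [1], [1], [1], [3, 1, 2],
    [3, 1, 2], [], [], [], [], [3, 0, 2], [3, 0, 2], [], [], [], [], [], [], [], [], [], [0], [0], [], [], [], [],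
    [], [1], [1], [], [3, 1, 2], [3, 1, 2], [], [], [], [], [], [3, 0], [3, 0, 2], [3, 0, 2], [], [], [], [], [2],
    [], [], [], [], [0], [0], [2], [2], [2], [1, 2], [1, 2], [1], [], [3], [3], [3], [3], [3, 0], [], []]
  rank := [0, 1, 2, 0, 5, 0, 0, 2, 1, 0, 6, 5, 4, 0, 0, 3, 4, 0, 1, 3, 4, 6, 13, 12, 0, 1, 1, 0, 13, 12, 0, 1, 2, 1,
    0, 3, 4, 0, 1, 2, 3, 0, 6, 5, 0, 1, 2, 1, 0, 10, 11, 0, 1, 2, 3, 0, 9, 10, 11, 0, 1, 3, 4, 7, 6, 5, 0, 1, 1, 0,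
    0, 1, 2, 9, 8, 0, 0, 2, 1, 0, 7, 8, 4, 0]
  just := [0, 1, 2, 0, 4, 0, 0, 2, 1, 0, 5, 4, 7, 0, 0, 3, 8, 0, 10, 11, 7, 5, 12, 13, 0, 14, 6, 0, 12, 13, 0, 16,
    15, 6, 0, 3, 8, 0, 18, 19, 11, 0, 21, 9, 0, 10, 19, 22, 0, 23, 24, 0, 14, 15, 17, 0, 26, 23, 24, 0, 16, 17, 25,
    20, 21, 9, 0, 18, 22, 0, 0, 28, 29, 26, 27, 0, 0, 29, 28, 0, 20, 27, 25, 0]
  gA := 69
  gB := 70
  fin := 0
  sid := [0, 1, 2, 3, 4, 5, 6, 3, 2, 1, 0, 5, 4, 7, 4, 3, 8, 9, 10, 11, 7, 5, 0, 12, 13, 14, 15, 6, 0, 12, 13, 16,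
    17, 15, 6, 3, 8, 9, 18, 19, 11, 7, 20, 21, 9, 10, 11, 19, 22, 23, 24, 13, 14, 15, 17, 25, 26, 23, 24, 13, 16, 17,
    25, 27, 20, 21, 9, 18, 19, 22, 20, 28, 29, 23, 26, 27, 22, 23, 29, 28, 20, 27, 26, 25]
  off := [(0, 0), (0, 0), (0, 0), (0, 0), (0, 0), (0, 0), (0, 0), (0, 0), (0, 0), (0, 0), (0, 0), (1, 0), (1, 0), (0,
    0), (0, 0), (0, 0), (0, 0), (0, 0), (0, 0), (0, 0), (-1, 0), (0, 0), (-1, 0), (0, 0), (0, 0), (0, 0), (0, 0), (0,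
    0), (0, 0), (1, 0), (1, 0), (0, 0), (0, 0), (0, 0), (0, 0), (0, 0), (0, 0), (0, 0), (0, 0), (0, 0), (1, 0), (0,
    0), (0, 0), (0, 0), (0, 0), (0, 0), (0, 0), (-1, 0), (0, 0), (0, 0), (0, 0), (0, 0), (0, 0), (0, 0), (0, 0), (0,
    0), (0, 0), (1, 0), (1, 0), (1, 0), (0, 0), (0, 0), (0, 0), (0, 0), (0, 0), (0, 0), (0, 0), (0, 0), (0, 0), (1,
    0), (0, 0), (0, 0), (0, 0), (0, 1), (-1, 1), (-1, 0), (0, 0), (0, 0), (0, -1), (0, -1), (0, -1), (0, -1), (0, 0),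
    (0, 0)]

/-- glued arcs and equations -/
def tord7r_92 : TorT :=
  ⟨[(0, 1, false), (0, 2, true), (0, 3, true), (1, 1, true), (1, 2, false), (2, 3, false), (3, 4, false), (4, 4,
    true), (5, 5, false), (5, 6, true), (6, 6, false)],
    [([0, 0, 0, 0, 0, 0, 3], 2), ([0, 0, 0, 0, 1, 2, 0], 2), ([0, 0, 0, 1, 1, 0, 0], 2), ([0, 0, 2, 2, 0, 0, 0], 2),
    ([0, 1, 1, 0, 0, 0, 0], 2), ([1, 0, 0, 0, 1, 1, 0], 2), ([2, 1, 0, 1, 0, 0, 0], 2)]⟩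

theorem tord7r_92_ok : tord7r_92.OK 7 := TT.leaf_ok (T := ttd7r_92) (by decide +kernel)

/-- the torus -/
def ttd7r_93 : TT where
  k := 8
  rf := [false, false, true, false, true, false, true, true]
  tau := [7, 19, 22, 21, 27, 31, 32, 0, 33, 36, 35, 41, 17, 18, 45, 44, 30, 12, 13, 1, 46, 3, 2, 37, 54, 55, 43, 4,
    52, 51, 16, 5, 6, 8, 53, 10, 9, 23, 47, 48, 50, 11, 49, 26, 15, 14, 20, 38, 39, 42, 40, 29, 28, 34, 24, 25]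
  par := [0, 0, 1, 2, 5, 9, 14, 24]
  stars := [[0, 33, 8], [1, 7, 19], [2, 20, 47, 38, 23], [3, 22], [4, 21], [5, 27, 44, 16, 31], [6, 32], [9, 34, 54,
    24, 37], [10, 36], [11, 35], [12, 41, 51, 30, 17], [13, 18], [14, 46], [15, 45], [25, 55], [26, 49, 43], [28,
    53], [29, 52], [39, 48], [40, 42, 50]]
  word := [[], [], [], [], [], [], [], [], [2, 0, 3, 1], [], [], [], [], [], [], [], [1], [], [], [], [], [], [], [1,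
    3], [], [], [0], [], [0, 2], [0, 2], [0], [], [], [0, 2, 1, 3], [0, 2], [], [], [2, 0], [2, 0], [2, 0], [2], [],
    [1], [1], [], [], [], [1, 3], [1, 3], [0], [3], [3, 1], [3, 1], [3, 1], [], []]
  rank := [0, 0, 0, 1, 2, 0, 1, 0, 7, 0, 1, 2, 2, 1, 0, 1, 3, 2, 1, 0, 1, 1, 0, 5, 0, 1, 0, 2, 5, 4, 3, 0, 1, 7, 6,
    1, 0, 5, 4, 3, 0, 2, 2, 0, 1, 0, 1, 4, 3, 2, 0, 4, 5, 6, 0, 1]
  just := [0, 0, 0, 3, 4, 0, 6, 0, 7, 0, 8, 9, 11, 1, 0, 13, 5, 11, 1, 0, 12, 3, 0, 2, 0, 14, 0, 4, 17, 10, 5, 0, 6,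
    7, 16, 8, 0, 2, 18, 19, 0, 9, 15, 0, 13, 0, 12, 18, 19, 15, 0, 10, 17, 16, 0, 14]
  gA := 26
  gB := 40
  fin := 0
  sid := [0, 1, 2, 3, 4, 5, 6, 1, 0, 7, 8, 9, 10, 11, 12, 13, 5, 10, 11, 1, 2, 4, 3, 2, 7, 14, 15, 5, 16, 17, 10, 5,
    6, 0, 7, 9, 8, 7, 2, 18, 19, 10, 19, 15, 5, 13, 12, 2, 18, 15, 19, 10, 17, 16, 7, 14]
  off := [(0, 0), (0, 0), (0, 0), (0, 0), (0, 0), (0, 0), (0, 0), (0, 0), (0, 0), (0, 0), (0, 0), (0, 0), (0, 0), (0,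
    0), (0, 0), (0, 0), (-1, 0), (0, 0), (0, 0), (0, 0), (0, 0), (0, 0), (0, 0), (0, 0), (-1, -1), (0, 0), (0, 0),
    (0, 0), (0, 0), (0, 0), (1, 0), (0, 0), (0, 0), (0, 0), (0, 0), (0, 0), (0, 0), (0, 0), (1, 1), (0, 0), (0, 0),
    (0, 0), (-1, -1), (-1, 0), (-1, 0), (0, 0), (0, 0), (0, 0), (-1, -1), (0, 0), (0, -1), (0, -1), (-1, -1), (-1,
    -1), (-1, -1), (0, 0)]

/-- glued arcs and equations -/
def tord7r_93 : TorT :=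
  ⟨[(0, 0, true), (0, 3, true), (1, 2, true), (1, 5, false), (2, 2, true), (3, 5, false), (4, 6, false), (4, 6,
    true)],
    [([0, 0, 0, 0, 1, 0, 1], 2), ([0, 0, 2, 1, 0, 1, 1], 2), ([0, 1, 0, 1, 0, 0, 0], 2), ([1, 0, 0, 0, 1, 0, 0], 2),
    ([1, 1, 0, 0, 0, 1, 0], 2)]⟩

theorem tord7r_93_ok : tord7r_93.OK 7 := TT.leaf_ok (T := ttd7r_93) (by decide +kernel)

/-- the torus -/
def ttd7r_94 : TT where
  k := 8
  rf := [false, false, false, false, true, true, true, true]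
  tau := [9, 15, 22, 21, 27, 31, 32, 17, 16, 0, 40, 41, 26, 18, 23, 1, 8, 7, 13, 45, 46, 3, 2, 14, 54, 55, 12, 4, 52,
    51, 35, 5, 6, 47, 53, 30, 50, 43, 42, 48, 10, 11, 38, 37, 49, 19, 20, 33, 39, 44, 36, 29, 28, 34, 24, 25]
  par := [0, 0, 1, 2, 5, 10, 19, 24]
  stars := [[0, 33, 48, 40, 10], [1, 9, 16], [2, 15, 23], [3, 22], [4, 21], [5, 27, 12, 35, 31], [6, 32], [7, 18],
    [8, 17], [11, 41], [13, 26, 49, 45, 19], [14, 47, 34, 54, 24], [20, 46], [25, 55], [28, 53], [29, 52], [30, 36,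
    51], [37, 44, 50], [38, 43], [39, 42]]
  word := [[], [], [], [], [], [], [], [], [], [], [], [], [0], [], [], [], [], [], [], [], [], [], [], [], [], [],
    [1], [], [1, 2], [1, 2], [1], [], [], [1, 2], [1, 2], [0], [2], [2, 1], [2, 1], [2, 1], [], [], [0, 3], [0, 3],
    [0], [], [], [3, 0], [0, 3], [1], [3], [3, 0], [3, 0], [3, 0], [], []]
  rank := [0, 0, 0, 1, 2, 0, 1, 2, 1, 0, 0, 1, 0, 3, 1, 0, 1, 2, 3, 0, 1, 1, 0, 1, 0, 1, 0, 2, 5, 4, 3, 0, 1, 7, 6,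
    3, 0, 5, 6, 7, 0, 1, 6, 5, 4, 0, 1, 7, 7, 4, 0, 4, 5, 6, 0, 1]
  just := [0, 0, 0, 3, 4, 0, 6, 8, 1, 0, 0, 9, 0, 7, 2, 0, 1, 8, 7, 0, 12, 3, 0, 2, 0, 13, 0, 4, 15, 16, 5, 0, 6, 11,
    14, 5, 0, 17, 18, 19, 0, 9, 18, 17, 10, 0, 12, 11, 19, 10, 0, 16, 15, 14, 0, 13]
  gA := 12
  gB := 36
  fin := 0
  sid := [0, 1, 2, 3, 4, 5, 6, 7, 8, 1, 0, 9, 5, 10, 11, 2, 1, 8, 7, 10, 12, 4, 3, 2, 11, 13, 10, 5, 14, 15, 16, 5,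
    6, 0, 11, 5, 16, 17, 18, 19, 0, 9, 19, 18, 17, 10, 12, 11, 0, 10, 17, 16, 15, 14, 11, 13]
  off := [(0, 0), (0, 0), (0, 0), (0, 0), (0, 0), (0, 0), (0, 0), (0, 0), (0, 0), (0, 0), (0, 0), (0, 0), (1, 0), (0,
    0), (0, 0), (0, 0), (0, 0), (0, 0), (0, 0), (0, 0), (0, 0), (0, 0), (0, 0), (0, 0), (0, 0), (0, 0), (-1, 0), (0,
    0), (0, 0), (0, 0), (0, 0), (0, 0), (0, 0), (0, 0), (-1, 1), (1, 0), (1, 0), (0, 0), (0, 0), (0, 0), (0, 0), (0,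
    0), (1, -1), (1, -1), (1, -1), (0, 0), (0, 0), (0, 0), (1, -1), (-1, 0), (0, -1), (1, -1), (1, -1), (1, -1), (0,
    0), (0, 0)]

/-- glued arcs and equations -/
def tord7r_94 : TorT :=
  ⟨[(0, 2, true), (0, 3, true), (1, 1, true), (1, 2, true), (3, 5, false), (4, 6, false), (4, 6, true), (5, 5, true)],
    [([0, 0, 0, 0, 1, 0, 1], 2), ([0, 1, 0, 1, 0, 0, 0], 2), ([0, 1, 2, 0, 0, 0, 0], 2), ([1, 0, 0, 0, 1, 0, 0], 2),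
    ([1, 0, 0, 1, 0, 2, 1], 2)]⟩

theorem tord7r_94_ok : tord7r_94.OK 7 := TT.leaf_ok (T := ttd7r_94) (by decide +kernel)

/-- the torus -/
def ttd7r_95 : TT where
  k := 4
  rf := [false, false, false, false]
  tau := [9, 15, 22, 21, 27, 24, 20, 17, 16, 0, 19, 25, 26, 18, 23, 1, 8, 7, 13, 10, 6, 3, 2, 14, 5, 11, 12, 4]
  par := [0, 0, 1, 2]
  stars := [[0, 20, 10], [1, 9, 16], [2, 15, 23], [3, 22], [4, 21], [5, 27, 12, 25], [6, 24, 14], [7, 18], [8, 17],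
    [11, 19, 13, 26]]
  word := [[], [], [], [], [], [3, 0], [3, 0], [], [], [], [0, 3], [0], [2], [], [], [], [], [], [], [2, 1], [1, 2],
    [], [], [], [1, 2], [1], [3], []]
  rank := [0, 0, 0, 1, 2, 3, 4, 2, 1, 0, 4, 0, 0, 3, 1, 0, 1, 2, 3, 4, 4, 1, 0, 1, 3, 0, 0, 2]
  just := [0, 0, 0, 3, 4, 5, 6, 8, 1, 0, 9, 0, 0, 7, 2, 0, 1, 8, 7, 9, 6, 3, 0, 2, 5, 0, 0, 4]
  gA := 11
  gB := 12
  fin := 0
  sid := [0, 1, 2, 3, 4, 5, 6, 7, 8, 1, 0, 9, 5, 9, 6, 2, 1, 8, 7, 9, 0, 4, 3, 2, 6, 5, 9, 5]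
  off := [(0, 0), (0, 0), (0, 0), (0, 0), (0, 0), (0, 0), (0, 0), (0, 0), (0, 0), (0, 0), (0, 0), (0, 0), (0, 1),
    (-1, 1), (-1, 1), (0, 0), (0, 0), (0, 0), (0, 0), (-1, 1), (-1, 1), (0, 0), (0, 0), (0, 0), (-1, 1), (-1, 1),
    (-1, 0), (0, 0)]

/-- glued arcs and equations -/
def tord7r_95 : TorT :=
  ⟨[(0, 2, true), (0, 3, true), (1, 1, true), (1, 2, true), (3, 5, true), (4, 4, true), (4, 6, true), (5, 5, true),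
    (6, 6, true)],
    [([0, 0, 0, 0, 1, 2, 1], 2), ([0, 1, 0, 1, 0, 0, 0], 2), ([0, 1, 2, 0, 0, 0, 0], 2), ([1, 0, 0, 0, 1, 0, 0], 2),
    ([1, 0, 0, 1, 0, 0, 1], 2)]⟩

theorem tord7r_95_ok : tord7r_95.OK 7 := TT.leaf_ok (T := ttd7r_95) (by decide +kernel)

/-- the torus -/
def ttd7r_96 : TT where
  k := 4
  rf := [false, false, false, false]
  tau := [9, 15, 22, 21, 27, 19, 20, 17, 16, 0, 26, 25, 24, 18, 23, 1, 8, 7, 13, 5, 6, 3, 2, 14, 12, 11, 10, 4]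
  par := [0, 0, 1, 2]
  stars := [[0, 20, 5, 27, 10], [1, 9, 16], [2, 15, 23], [3, 22], [4, 21], [6, 19, 13, 24, 14], [7, 18], [8, 17],
    [11, 26], [12, 25]]
  word := [[], [], [], [], [], [0, 3], [0], [], [], [], [2], [2], [2], [], [], [], [], [], [], [2, 1], [1], [], [],
    [], [3], [3], [3], []]
  rank := [0, 0, 0, 1, 2, 4, 0, 2, 1, 0, 1, 0, 1, 3, 1, 0, 1, 2, 3, 4, 0, 1, 0, 1, 1, 0, 1, 2]
  just := [0, 0, 0, 3, 4, 5, 0, 7, 1, 0, 8, 0, 9, 6, 2, 0, 1, 7, 6, 5, 0, 3, 0, 2, 9, 0, 8, 4]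
  gA := 6
  gB := 11
  fin := 0
  sid := [0, 1, 2, 3, 4, 0, 5, 6, 7, 1, 0, 8, 9, 5, 5, 2, 1, 7, 6, 5, 0, 4, 3, 2, 5, 9, 8, 0]
  off := [(0, 0), (0, 0), (0, 0), (0, 0), (0, 0), (0, -1), (0, 0), (0, 0), (0, 0), (0, 0), (0, 0), (0, 0), (0, 0),
    (-1, 1), (-1, 0), (0, 0), (0, 0), (0, 0), (0, 0), (-1, 1), (-1, 0), (0, 0), (0, 0), (0, 0), (-1, 0), (0, -1), (0,
    -1), (0, -1)]

/-- glued arcs and equations -/
def tord7r_96 : TorT :=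
  ⟨[(0, 2, true), (0, 3, true), (1, 1, true), (1, 2, true), (3, 5, true), (4, 4, true), (4, 6, true), (5, 5, true),
    (6, 6, true)],
    [([0, 0, 0, 0, 1, 1, 0], 2), ([0, 1, 0, 1, 0, 0, 0], 2), ([0, 1, 2, 0, 0, 0, 0], 2), ([1, 0, 0, 0, 1, 0, 0], 2),
    ([1, 0, 0, 1, 0, 1, 2], 2)]⟩

theorem tord7r_96_ok : tord7r_96.OK 7 := TT.leaf_ok (T := ttd7r_96) (by decide +kernel)

/-- the torus -/
def ttd7r_97 : TT where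
  k := 4
  rf := [false, false, false, false]
  tau := [7, 5, 15, 14, 20, 1, 13, 0, 12, 22, 21, 27, 8, 6, 3, 2, 23, 26, 25, 24, 4, 10, 9, 16, 19, 18, 17, 11]
  par := [0, 0, 2, 9]
  stars := [[0, 13, 8], [1, 7, 6], [2, 5, 20, 24, 16], [3, 15], [4, 14], [9, 12, 27, 17, 23], [10, 22], [11, 21],
    [18, 26], [19, 25]]
  word := [[], [0, 3], [], [], [], [2, 1], [2, 1], [], [1, 2], [], [], [], [3, 0], [0, 3], [], [], [0], [2], [2],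
    [2], [], [], [], [1], [3], [3], [3], []]
  rank := [0, 3, 0, 1, 2, 3, 4, 0, 3, 0, 1, 2, 3, 4, 1, 0, 0, 1, 0, 1, 2, 1, 0, 0, 1, 0, 1, 2]
  just := [0, 2, 0, 3, 4, 2, 1, 0, 5, 0, 6, 7, 5, 1, 3, 0, 0, 8, 0, 9, 4, 6, 0, 0, 9, 0, 8, 7]
  gA := 16
  gB := 18
  fin := 0
  sid := [0, 1, 2, 3, 4, 2, 1, 1, 0, 5, 6, 7, 5, 0, 4, 3, 2, 5, 8, 9, 2, 7, 6, 5, 2, 9, 8, 5]
  off := [(0, 0), (0, 0), (0, 0), (0, 0), (0, 0), (-1, 1), (-1, 1), (0, 0), (0, 0), (0, 0), (0, 0), (0, 0), (1, -1),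
    (1, -1), (0, 0), (0, 0), (0, 0), (1, 0), (0, 0), (0, 0), (-1, 1), (0, 0), (0, 0), (0, 0), (-1, 0), (0, -1), (0,
    -1), (1, -1)]

/-- glued arcs and equations -/
def tord7r_97 : TorT :=
  ⟨[(0, 0, true), (0, 3, true), (1, 2, true), (1, 5, true), (2, 2, true), (3, 5, true), (4, 4, true), (4, 6, true),
    (6, 6, true)],
    [([0, 0, 0, 0, 1, 1, 0], 2), ([0, 0, 2, 1, 0, 1, 1], 2), ([0, 1, 0, 1, 0, 0, 0], 2), ([1, 0, 0, 0, 1, 0, 0], 2),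
    ([1, 1, 0, 0, 0, 0, 1], 2)]⟩

theorem tord7r_97_ok : tord7r_97.OK 7 := TT.leaf_ok (T := ttd7r_97) (by decide +kernel)

/-- the torus -/
def ttd7r_98 : TT where
  k := 8
  rf := [false, false, false, false, true, true, true, true]
  tau := [9, 15, 22, 21, 27, 19, 32, 17, 16, 0, 33, 41, 31, 18, 23, 1, 8, 7, 13, 5, 46, 3, 2, 14, 47, 55, 45, 4, 52,
    51, 35, 12, 6, 10, 53, 30, 50, 43, 42, 48, 54, 11, 38, 37, 49, 26, 20, 24, 39, 44, 36, 29, 28, 34, 40, 25]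
  par := [0, 0, 1, 2, 6, 11, 20, 25]
  stars := [[0, 33, 10], [1, 9, 16], [2, 15, 23], [3, 22], [4, 21], [5, 27, 46, 20], [6, 19, 13, 32], [7, 18], [8,
    17], [11, 34, 54, 41], [12, 35, 31], [14, 47, 24], [25, 48, 40, 55], [26, 49, 45], [28, 53], [29, 52], [30, 36,
    51], [37, 44, 50], [38, 43], [39, 42]]
  word := [[], [], [], [], [], [0], [], [], [], [], [2, 0, 3, 1], [], [1], [], [], [], [], [], [], [1], [], [], [],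
    [], [], [], [0], [], [0, 2, 1], [0, 2, 1], [0], [0], [], [0, 2, 1, 3], [0, 2, 1], [1], [2, 1], [2], [2], [2],
    [2], [], [3], [3], [1], [1], [], [], [3], [0], [0, 3], [0, 3, 1], [0, 3, 1], [0, 3, 1], [3], []]
  rank := [0, 0, 0, 1, 2, 3, 0, 2, 1, 0, 9, 0, 4, 3, 1, 0, 1, 2, 3, 3, 0, 1, 0, 1, 2, 0, 0, 2, 7, 6, 5, 4, 0, 9, 8,
    5, 2, 0, 1, 2, 3, 0, 1, 0, 1, 0, 0, 2, 2, 1, 2, 6, 7, 8, 3, 0]
  just := [0, 0, 0, 3, 4, 5, 0, 8, 1, 0, 9, 0, 6, 7, 2, 0, 1, 8, 7, 5, 0, 3, 0, 2, 11, 0, 0, 4, 15, 16, 10, 6, 0, 9,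
    14, 10, 17, 0, 18, 19, 12, 0, 18, 0, 13, 0, 0, 11, 19, 13, 17, 16, 15, 14, 12, 0]
  gA := 26
  gB := 37
  fin := 0
  sid := [0, 1, 2, 3, 4, 5, 6, 7, 8, 1, 0, 9, 10, 6, 11, 2, 1, 8, 7, 6, 5, 4, 3, 2, 11, 12, 13, 5, 14, 15, 16, 10, 6,
    0, 9, 10, 16, 17, 18, 19, 12, 9, 19, 18, 17, 13, 5, 11, 12, 13, 17, 16, 15, 14, 9, 12]
  off := [(0, 0), (0, 0), (0, 0), (0, 0), (0, 0), (0, 0), (0, 0), (0, 0), (0, 0), (0, 0), (0, 0), (0, 0), (0, 0),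
    (-1, 0), (0, 0), (0, 0), (0, 0), (0, 0), (0, 0), (-1, 0), (-1, 0), (0, 0), (0, 0), (0, 0), (0, 0), (0, 0), (0,
    0), (0, 0), (0, 0), (0, 0), (0, 0), (1, 0), (0, 0), (0, 0), (0, 0), (0, 0), (-1, 0), (0, 0), (0, 0), (0, 0), (0,
    1), (0, 0), (0, -1), (0, -1), (0, -1), (-1, 0), (-1, 0), (0, 0), (0, 0), (0, 0), (1, -1), (0, -1), (0, -1), (0,
    -1), (0, -1), (0, 0)]

/-- glued arcs and equations -/
def tord7r_98 : TorT :=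
  ⟨[(0, 2, true), (0, 3, true), (1, 1, true), (1, 2, true), (3, 5, false), (4, 6, false), (4, 6, true), (5, 5, true)],
    [([0, 0, 0, 0, 1, 1, 2], 2), ([0, 1, 0, 1, 0, 0, 0], 2), ([0, 1, 2, 0, 0, 0, 0], 2), ([1, 0, 0, 0, 1, 0, 0], 2),
    ([1, 0, 0, 1, 0, 1, 0], 2)]⟩

theorem tord7r_98_ok : tord7r_98.OK 7 := TT.leaf_ok (T := ttd7r_98) (by decide +kernel)

end Pool.Agent.Lib_MP_fa6e45
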