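import Pool.Agent.Lib_MP_fa6e45.DQ7rT0
import Pool.Agent.Lib_MP_fa6e45.DQ7rT1
import Pool.Agent.Lib_MP_fa6e45.DQ7rT2
import Pool.Agent.Lib_MP_fa6e45.DQ7rT3
import Pool.Agent.Lib_MP_fa6e45.DQ7rT4
import Pool.Agent.Lib_MP_fa6e45.DQ7rT5
import Pool.Agent.Lib_MP_fa6e45.DQ7rT6
import Pool.Agent.Lib_MP_fa6e45.DQ7rT7
import Pool.Agent.Lib_MP_fa6e45.DQ7rT8
import Pool.Agent.Lib_MP_fa6e45.DQ7rT9
import Pool.Agent.Lib_MP_fa6e45.DQ7rT10
import Pool.Agent.Lib_MP_fa6e45.DQ7rT11
import Pool.Agent.Lib_MP_fa6e45.DQ7rT12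
import Pool.Agent.Lib_MP_fa6e45.DQ7rT13
import Pool.Agent.Lib_MP_fa6e45.DQ7rT14
import Pool.Agent.Lib_MP_fa6e45.DQ7rT15

/-!
MP_fa6e45_co, stage 9: straight-side patterns with `7` sides, the list of tori (generated by a program).
-/

namespace Pool.Agent.Lib_MP_fa6e45

/-- tables -/
def ttD7r_0 : List TorT := [tord7r_0, tord7r_1, tord7r_2, tord7r_3, tord7r_4, tord7r_5, tord7r_6, tord7r_7, tord7r_8,
    tord7r_9, tord7r_10]

theorem ttD7r_0_ok : ∀ T ∈ ttD7r_0, T.OK 7 := by
  intro T hT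
  simp only [ttD7r_0, List.mem_cons, List.not_mem_nil, or_false] at hT
  rcases hT with rfl | rfl | rfl | rfl | rfl | rfl | rfl | rfl | rfl | rfl | rfl
  · exact tord7r_0_ok
  · exact tord7r_1_ok
  · exact tord7r_2_ok
  · exact tord7r_3_ok
  · exact tord7r_4_ok
  · exact tord7r_5_ok
  · exact tord7r_6_ok
  · exact tord7r_7_ok
  · exact tord7r_8_ok
  · exact tord7r_9_ok
  · exact tord7r_10_ok

/-- tables -/
def ttD7r_1 : List TorT := [tord7r_11, tord7r_12, tord7r_13, tord7r_14, tord7r_15, tord7r_16, tord7r_17, tord7r_18,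
    tord7r_19, tord7r_20, tord7r_21]

theorem ttD7r_1_ok : ∀ T ∈ ttD7r_1, T.OK 7 := by
  intro T hT
  simp only [ttD7r_1, List.mem_cons, List.not_mem_nil, or_false] at hT
  rcases hT with rfl | rfl | rfl | rfl | rfl | rfl | rfl | rfl | rfl | rfl | rfl
  · exact tord7r_11_ok
  · exact tord7r_12_ok
  · exact tord7r_13_ok
  · exact tord7r_14_ok
  · exact tord7r_15_ok
  · exact tord7r_16_ok
  · exact tord7r_17_ok
  · exact tord7r_18_ok
  · exact tord7r_19_ok
  · exact tord7r_20_ok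
  · exact tord7r_21_ok

/-- tables -/
def ttD7r_2 : List TorT := [tord7r_22, tord7r_23, tord7r_24, tord7r_25, tord7r_26, tord7r_27, tord7r_28, tord7r_29,
    tord7r_30, tord7r_31, tord7r_32]

theorem ttD7r_2_ok : ∀ T ∈ ttD7r_2, T.OK 7 := by
  intro T hT
  simp only [ttD7r_2, List.mem_cons, List.not_mem_nil, or_false] at hT
  rcases hT with rfl | rfl | rfl | rfl | rfl | rfl | rfl | rfl | rfl | rfl | rfl
  · exact tord7r_22_ok
  · exact tord7r_23_ok
  · exact tord7r_24_ok
  · exact tord7r_25_ok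
  · exact tord7r_26_ok
  · exact tord7r_27_ok
  · exact tord7r_28_ok
  · exact tord7r_29_ok
  · exact tord7r_30_ok
  · exact tord7r_31_ok
  · exact tord7r_32_ok

/-- tables -/
def ttD7r_3 : List TorT := [tord7r_33, tord7r_34, tord7r_35, tord7r_36, tord7r_37, tord7r_38, tord7r_39, tord7r_40,
    tord7r_41, tord7r_42, tord7r_43]

theorem ttD7r_3_ok : ∀ T ∈ ttD7r_3, T.OK 7 := by
  intro T hT
  simp only [ttD7r_3, List.mem_cons, List.not_mem_nil, or_false] at hT
  rcases hT with rfl | rfl | rfl | rfl | rfl | rfl | rfl | rfl | rfl | rfl | rfl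
  · exact tord7r_33_ok
  · exact tord7r_34_ok
  · exact tord7r_35_ok
  · exact tord7r_36_ok
  · exact tord7r_37_ok
  · exact tord7r_38_ok
  · exact tord7r_39_ok
  · exact tord7r_40_ok
  · exact tord7r_41_ok
  · exact tord7r_42_ok
  · exact tord7r_43_ok

/-- tables -/
def ttD7r_4 : List TorT := [tord7r_44, tord7r_45, tord7r_46, tord7r_47, tord7r_48, tord7r_49, tord7r_50, tord7r_51,
    tord7r_52, tord7r_53, tord7r_54]

theorem ttD7r_4_ok : ∀ T ∈ ttD7r_4, T.OK 7 := by
  intro T hT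
  simp only [ttD7r_4, List.mem_cons, List.not_mem_nil, or_false] at hT
  rcases hT with rfl | rfl | rfl | rfl | rfl | rfl | rfl | rfl | rfl | rfl | rfl
  · exact tord7r_44_ok
  · exact tord7r_45_ok
  · exact tord7r_46_ok
  · exact tord7r_47_ok
  · exact tord7r_48_ok
  · exact tord7r_49_ok
  · exact tord7r_50_ok
  · exact tord7r_51_ok
  · exact tord7r_52_ok
  · exact tord7r_53_ok
  · exact tord7r_54_ok

/-- tables -/
def ttD7r_5 : List TorT := [tord7r_55, tord7r_56, tord7r_57, tord7r_58, tord7r_59, tord7r_60, tord7r_61, tord7r_62,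
    tord7r_63, tord7r_64, tord7r_65]

theorem ttD7r_5_ok : ∀ T ∈ ttD7r_5, T.OK 7 := by
  intro T hT
  simp only [ttD7r_5, List.mem_cons, List.not_mem_nil, or_false] at hT
  rcases hT with rfl | rfl | rfl | rfl | rfl | rfl | rfl | rfl | rfl | rfl | rfl
  · exact tord7r_55_ok
  · exact tord7r_56_ok
  · exact tord7r_57_ok
  · exact tord7r_58_ok
  · exact tord7r_59_ok
  · exact tord7r_60_ok
  · exact tord7r_61_ok
  · exact tord7r_62_ok
  · exact tord7r_63_ok
  · exact tord7r_64_ok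
  · exact tord7r_65_ok

/-- tables -/
def ttD7r_6 : List TorT := [tord7r_66, tord7r_67, tord7r_68, tord7r_69, tord7r_70, tord7r_71, tord7r_72, tord7r_73,
    tord7r_74, tord7r_75, tord7r_76]

theorem ttD7r_6_ok : ∀ T ∈ ttD7r_6, T.OK 7 := by
  intro T hT
  simp only [ttD7r_6, List.mem_cons, List.not_mem_nil, or_false] at hT
  rcases hT with rfl | rfl | rfl | rfl | rfl | rfl | rfl | rfl | rfl | rfl | rfl
  · exact tord7r_66_ok
  · exact tord7r_67_ok
  · exact tord7r_68_ok
  · exact tord7r_69_ok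
  · exact tord7r_70_ok
  · exact tord7r_71_ok
  · exact tord7r_72_ok
  · exact tord7r_73_ok
  · exact tord7r_74_ok
  · exact tord7r_75_ok
  · exact tord7r_76_ok

/-- tables -/
def ttD7r_7 : List TorT := [tord7r_77, tord7r_78, tord7r_79, tord7r_80, tord7r_81, tord7r_82, tord7r_83, tord7r_84,
    tord7r_85, tord7r_86, tord7r_87]

theorem ttD7r_7_ok : ∀ T ∈ ttD7r_7, T.OK 7 := by
  intro T hT
  simp only [ttD7r_7, List.mem_cons, List.not_mem_nil, or_false] at hT
  rcases hT with rfl | rfl | rfl | rfl | rfl | rfl | rfl | rfl | rfl | rfl | rfl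
  · exact tord7r_77_ok
  · exact tord7r_78_ok
  · exact tord7r_79_ok
  · exact tord7r_80_ok
  · exact tord7r_81_ok
  · exact tord7r_82_ok
  · exact tord7r_83_ok
  · exact tord7r_84_ok
  · exact tord7r_85_ok
  · exact tord7r_86_ok
  · exact tord7r_87_ok

/-- tables -/
def ttD7r_8 : List TorT := [tord7r_88, tord7r_89, tord7r_90, tord7r_91, tord7r_92, tord7r_93, tord7r_94, tord7r_95,
    tord7r_96, tord7r_97, tord7r_98]

theorem ttD7r_8_ok : ∀ T ∈ ttD7r_8, T.OK 7 := by
  intro T hT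
  simp only [ttD7r_8, List.mem_cons, List.not_mem_nil, or_false] at hT
  rcases hT with rfl | rfl | rfl | rfl | rfl | rfl | rfl | rfl | rfl | rfl | rfl
  · exact tord7r_88_ok
  · exact tord7r_89_ok
  · exact tord7r_90_ok
  · exact tord7r_91_ok
  · exact tord7r_92_ok
  · exact tord7r_93_ok
  · exact tord7r_94_ok
  · exact tord7r_95_ok
  · exact tord7r_96_ok
  · exact tord7r_97_ok
  · exact tord7r_98_ok

/-- tables -/
def ttD7r_9 : List TorT := [tord7r_99, tord7r_100, tord7r_101, tord7r_102, tord7r_103, tord7r_104, tord7r_105,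
    tord7r_106, tord7r_107, tord7r_108, tord7r_109]

theorem ttD7r_9_ok : ∀ T ∈ ttD7r_9, T.OK 7 := by
  intro T hT
  simp only [ttD7r_9, List.mem_cons, List.not_mem_nil, or_false] at hT
  rcases hT with rfl | rfl | rfl | rfl | rfl | rfl | rfl | rfl | rfl | rfl | rfl
  · exact tord7r_99_ok
  · exact tord7r_100_ok
  · exact tord7r_101_ok
  · exact tord7r_102_ok
  · exact tord7r_103_ok
  · exact tord7r_104_ok
  · exact tord7r_105_ok
  · exact tord7r_106_ok
  · exact tord7r_107_ok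
  · exact tord7r_108_ok
  · exact tord7r_109_ok

/-- tables -/
def ttD7r_10 : List TorT := [tord7r_110, tord7r_111, tord7r_112, tord7r_113, tord7r_114, tord7r_115, tord7r_116,
    tord7r_117, tord7r_118, tord7r_119, tord7r_120]

theorem ttD7r_10_ok : ∀ T ∈ ttD7r_10, T.OK 7 := by
  intro T hT
  simp only [ttD7r_10, List.mem_cons, List.not_mem_nil, or_false] at hT
  rcases hT with rfl | rfl | rfl | rfl | rfl | rfl | rfl | rfl | rfl | rfl | rfl
  · exact tord7r_110_ok
  · exact tord7r_111_ok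
  · exact tord7r_112_ok
  · exact tord7r_113_ok
  · exact tord7r_114_ok
  · exact tord7r_115_ok
  · exact tord7r_116_ok
  · exact tord7r_117_ok
  · exact tord7r_118_ok
  · exact tord7r_119_ok
  · exact tord7r_120_ok

/-- tables -/
def ttD7r_11 : List TorT := [tord7r_121, tord7r_122, tord7r_123, tord7r_124, tord7r_125, tord7r_126, tord7r_127,
    tord7r_128, tord7r_129, tord7r_130, tord7r_131]

theorem ttD7r_11_ok : ∀ T ∈ ttD7r_11, T.OK 7 := by
  intro T hT
  simp only [ttD7r_11, List.mem_cons, List.not_mem_nil, or_false] at hT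
  rcases hT with rfl | rfl | rfl | rfl | rfl | rfl | rfl | rfl | rfl | rfl | rfl
  · exact tord7r_121_ok
  · exact tord7r_122_ok
  · exact tord7r_123_ok
  · exact tord7r_124_ok
  · exact tord7r_125_ok
  · exact tord7r_126_ok
  · exact tord7r_127_ok
  · exact tord7r_128_ok
  · exact tord7r_129_ok
  · exact tord7r_130_ok
  · exact tord7r_131_ok

/-- tables -/
def ttD7r_12 : List TorT := [tord7r_132, tord7r_133, tord7r_134, tord7r_135, tord7r_136, tord7r_137, tord7r_138,
    tord7r_139, tord7r_140, tord7r_141, tord7r_142]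

theorem ttD7r_12_ok : ∀ T ∈ ttD7r_12, T.OK 7 := by
  intro T hT
  simp only [ttD7r_12, List.mem_cons, List.not_mem_nil, or_false] at hT
  rcases hT with rfl | rfl | rfl | rfl | rfl | rfl | rfl | rfl | rfl | rfl | rfl
  · exact tord7r_132_ok
  · exact tord7r_133_ok
  · exact tord7r_134_ok
  · exact tord7r_135_ok
  · exact tord7r_136_ok
  · exact tord7r_137_ok
  · exact tord7r_138_ok
  · exact tord7r_139_ok
  · exact tord7r_140_ok
  · exact tord7r_141_ok
  · exact tord7r_142_ok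

/-- tables -/
def ttD7r_13 : List TorT := [tord7r_143, tord7r_144, tord7r_145, tord7r_146, tord7r_147, tord7r_148, tord7r_149,
    tord7r_150, tord7r_151, tord7r_152, tord7r_153]

theorem ttD7r_13_ok : ∀ T ∈ ttD7r_13, T.OK 7 := by
  intro T hT
  simp only [ttD7r_13, List.mem_cons, List.not_mem_nil, or_false] at hT
  rcases hT with rfl | rfl | rfl | rfl | rfl | rfl | rfl | rfl | rfl | rfl | rfl
  · exact tord7r_143_ok
  · exact tord7r_144_ok
  · exact tord7r_145_ok
  · exact tord7r_146_ok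
  · exact tord7r_147_ok
  · exact tord7r_148_ok
  · exact tord7r_149_ok
  · exact tord7r_150_ok
  · exact tord7r_151_ok
  · exact tord7r_152_ok
  · exact tord7r_153_ok

/-- tables -/
def ttD7r_14 : List TorT := [tord7r_154, tord7r_155, tord7r_156, tord7r_157, tord7r_158, tord7r_159, tord7r_160,
    tord7r_161, tord7r_162, tord7r_163, tord7r_164]

theorem ttD7r_14_ok : ∀ T ∈ ttD7r_14, T.OK 7 := by
  intro T hT
  simp only [ttD7r_14, List.mem_cons, List.not_mem_nil, or_false] at hT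
  rcases hT with rfl | rfl | rfl | rfl | rfl | rfl | rfl | rfl | rfl | rfl | rfl
  · exact tord7r_154_ok
  · exact tord7r_155_ok
  · exact tord7r_156_ok
  · exact tord7r_157_ok
  · exact tord7r_158_ok
  · exact tord7r_159_ok
  · exact tord7r_160_ok
  · exact tord7r_161_ok
  · exact tord7r_162_ok
  · exact tord7r_163_ok
  · exact tord7r_164_ok

/-- tables -/
def ttD7r_15 : List TorT := [tord7r_165]

theorem ttD7r_15_ok : ∀ T ∈ ttD7r_15, T.OK 7 := by
  intro T hT
  simp only [ttD7r_15, List.mem_cons, List.not_mem_nil, or_false] at hT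
  rw [hT]
  intro n P S b h1 h2 h3 h4
  exact tord7r_165_ok P S b h1 h2 h3 h4

/-- all tables -/
def ttD7r : List TorT :=
  ttD7r_0 ++ (ttD7r_1 ++ (ttD7r_2 ++ (ttD7r_3 ++ (ttD7r_4 ++ (ttD7r_5 ++ (ttD7r_6 ++ (ttD7r_7 ++ (
    ttD7r_8 ++ (ttD7r_9 ++ (ttD7r_10 ++ (ttD7r_11 ++ (ttD7r_12 ++ (ttD7r_13 ++ (ttD7r_14 ++
    ttD7r_15))))))))))))))

theorem ttD7r_ok : ∀ T ∈ ttD7r, T.OK 7 := by
  intro T hT
  unfold ttD7r at hT
  rcases List.mem_append.1 hT with hT | hT
  · exact ttD7r_0_ok T hT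
  rcases List.mem_append.1 hT with hT | hT
  · exact ttD7r_1_ok T hT
  rcases List.mem_append.1 hT with hT | hT
  · exact ttD7r_2_ok T hT
  rcases List.mem_append.1 hT with hT | hT
  · exact ttD7r_3_ok T hT
  rcases List.mem_append.1 hT with hT | hT
  · exact ttD7r_4_ok T hT
  rcases List.mem_append.1 hT with hT | hT
  · exact ttD7r_5_ok T hT
  rcases List.mem_append.1 hT with hT | hT
  · exact ttD7r_6_ok T hT
  rcases List.mem_append.1 hT with hT | hT
  · exact ttD7r_7_ok T hT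
  rcases List.mem_append.1 hT with hT | hT
  · exact ttD7r_8_ok T hT
  rcases List.mem_append.1 hT with hT | hT
  · exact ttD7r_9_ok T hT
  rcases List.mem_append.1 hT with hT | hT
  · exact ttD7r_10_ok T hT
  rcases List.mem_append.1 hT with hT | hT
  · exact ttD7r_11_ok T hT
  rcases List.mem_append.1 hT with hT | hT
  · exact ttD7r_12_ok T hT
  rcases List.mem_append.1 hT with hT | hT
  · exact ttD7r_13_ok T hT
  rcases List.mem_append.1 hT with hT | hT
  · exact ttD7r_14_ok T hT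
  exact ttD7r_15_ok T hT

end Pool.Agent.Lib_MP_fa6e45
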