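import Pool.Agent.Lib_MP_fa6e45.CT5

/-!
MP_fa6e45_co, stage 9: straight-side patterns with `7` sides, tables of tori (generated by a program).
-/

namespace Pool.Agent.Lib_MP_fa6e45

/-- the torus -/
def ttd7r_132 : TT where
  k := 12
  rf := [false, false, false, false, false, true, true, true, true, false, true, true]
  tau := [8, 14, 20, 26, 32, 35, 9, 29, 0, 6, 36, 37, 38, 30, 1, 28, 34, 43, 44, 45, 2, 54, 59, 60, 61, 48, 3, 46,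
    15, 7, 13, 68, 4, 42, 16, 5, 10, 11, 12, 69, 52, 67, 33, 17, 18, 19, 27, 73, 25, 57, 77, 83, 40, 74, 21, 58, 71,
    49, 55, 22, 23, 24, 72, 75, 80, 81, 82, 41, 31, 39, 78, 56, 62, 47, 53, 63, 79, 50, 70, 76, 64, 65, 66, 51]
  par := [0, 0, 1, 3, 4, 5, 17, 21, 22, 31, 47, 50]
  stars := [[0, 9], [1, 8, 29, 15], [2, 14], [3, 20, 46, 27], [4, 26, 42, 33], [5, 32, 68, 35], [6, 36, 10], [7, 30],
    [11, 37], [12, 38], [13, 39, 69, 31], [16, 28], [17, 34, 43], [18, 44], [19, 45], [21, 47, 74, 54], [22, 55, 59],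
    [23, 60], [24, 61], [25, 62, 73, 48], [40, 53, 75, 63], [41, 67, 83, 52], [49, 58], [50, 78, 71, 57], [51, 77],
    [56, 72], [64, 76, 80], [65, 81], [66, 82], [70, 79]]
  word := [[], [], [], [], [], [], [2, 1, 3, 0], [1], [], [1, 2, 0, 3], [1, 2, 0, 3], [1, 2, 0, 3], [1, 2, 0, 3],
    [1], [], [1], [1], [], [], [], [], [], [], [], [], [0], [], [], [0], [0], [0], [], [], [0], [0], [], [2, 1, 3,
    0], [2, 1, 3, 0], [2, 1, 3, 0], [2, 1, 3], [2], [], [1], [], [], [], [], [], [1], [], [], [], [3], [], [], [],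
    [0], [], [], [], [], [], [0], [2, 0], [2], [2], [2], [], [], [2, 0, 3], [1], [1], [1], [], [], [1, 3], [1], [],
    [0], [0], [3], [3], [3], []]
  rank := [0, 0, 1, 0, 0, 0, 12, 7, 0, 12, 11, 10, 9, 8, 0, 6, 5, 0, 1, 2, 1, 0, 0, 1, 2, 3, 0, 3, 6, 7, 8, 0, 0, 4,
    5, 0, 11, 10, 9, 6, 2, 1, 4, 0, 1, 2, 3, 0, 3, 2, 0, 1, 2, 4, 0, 1, 1, 2, 1, 0, 1, 2, 0, 5, 1, 0, 1, 1, 0, 6, 3,
    1, 0, 0, 4, 5, 4, 0, 3, 4, 1, 0, 1, 1]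
  just := [0, 0, 2, 0, 0, 0, 6, 1, 0, 6, 8, 9, 10, 7, 0, 11, 12, 0, 13, 14, 2, 0, 0, 17, 18, 19, 0, 3, 11, 1, 7, 0,
    0, 4, 12, 0, 8, 9, 10, 20, 21, 5, 4, 0, 13, 14, 3, 0, 19, 22, 0, 24, 21, 15, 0, 16, 25, 22, 16, 0, 17, 18, 0, 26,
    27, 0, 28, 5, 0, 20, 23, 25, 0, 0, 15, 26, 29, 0, 23, 29, 27, 0, 28, 24]
  gA := 62
  gB := 65
  fin := 0
  sid := [0, 1, 2, 3, 4, 5, 6, 7, 1, 0, 6, 8, 9, 10, 2, 1, 11, 12, 13, 14, 3, 15, 16, 17, 18, 19, 4, 3, 11, 1, 7, 10,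
    5, 4, 12, 5, 6, 8, 9, 10, 20, 21, 4, 12, 13, 14, 3, 15, 19, 22, 23, 24, 21, 20, 15, 16, 25, 23, 22, 16, 17, 18,
    19, 20, 26, 27, 28, 21, 5, 10, 29, 23, 25, 19, 15, 20, 26, 24, 23, 29, 26, 27, 28, 21]
  off := [(0, 0), (0, 0), (0, 0), (0, 0), (0, 0), (0, 0), (0, 0), (0, 0), (0, 0), (0, 0), (0, 0), (0, 0), (0, 0), (0,
    0), (0, 0), (0, 0), (0, 0), (0, 0), (0, 0), (0, 0), (0, 0), (0, 0), (0, 0), (0, 0), (0, 0), (0, 0), (0, 0), (0,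
    0), (1, 0), (1, 0), (1, 0), (1, 0), (0, 0), (0, 0), (1, 0), (0, 0), (0, 0), (0, 0), (0, 0), (0, 0), (0, 0), (0,
    0), (-1, 0), (0, 0), (0, 0), (0, 0), (0, 0), (0, 0), (-1, 0), (0, 0), (0, 0), (0, 0), (0, -1), (0, -1), (0, 0),
    (0, 0), (0, 0), (0, 0), (0, 0), (0, 0), (0, 0), (0, 0), (0, 0), (1, 0), (0, 0), (0, 0), (0, 0), (0, 0), (0, 0),
    (1, 0), (0, 0), (-1, 0), (-1, 0), (-1, 0), (0, 0), (0, -1), (-1, -1), (0, 0), (0, 0), (1, 0), (0, -1), (0, -1),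
    (0, -1), (0, -1)]

/-- glued arcs and equations -/
def tord7r_132 : TorT :=
  ⟨[(0, 1, true), (0, 5, false), (1, 3, false), (2, 4, false), (2, 6, true), (3, 5, false), (3, 5, true), (4, 4,
    true), (4, 6, false)],
    [([0, 0, 0, 1, 0, 1, 0], 2), ([0, 0, 0, 1, 1, 0, 2], 2), ([0, 0, 1, 0, 1, 0, 0], 2), ([0, 1, 0, 1, 0, 0, 1], 2),
    ([0, 4, 0, 0, 0, 0, 0], 2), ([1, 0, 0, 0, 1, 2, 0], 2), ([1, 0, 1, 0, 0, 0, 0], 2)]⟩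

theorem tord7r_132_ok : tord7r_132.OK 7 := TT.leaf_ok (T := ttd7r_132) (by decide +kernel)

/-- the torus -/
def ttd7r_133 : TT where
  k := 4
  rf := [false, false, false, false]
  tau := [8, 15, 16, 7, 13, 19, 9, 3, 0, 6, 26, 25, 24, 4, 22, 1, 2, 21, 27, 5, 23, 17, 14, 20, 12, 11, 10, 18]
  par := [0, 0, 1, 10]
  stars := [[0, 9], [1, 8, 3, 16], [2, 15, 22, 17], [4, 7], [5, 13, 24, 20], [6, 19, 27, 10], [11, 26], [12, 25],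
    [14, 23], [18, 21]]
  word := [[], [], [0], [0], [0], [0, 3], [0, 3, 1, 2], [1], [], [3, 0, 2, 1], [], [], [], [1], [2], [], [1], [1, 2],
    [1, 2], [2, 1], [2], [3, 0], [3], [3], [], [], [], [3, 0]]
  rank := [0, 0, 0, 1, 2, 3, 4, 1, 0, 4, 0, 1, 2, 2, 0, 0, 0, 1, 2, 3, 1, 1, 0, 1, 2, 1, 0, 2]
  just := [0, 0, 0, 1, 3, 4, 5, 1, 0, 5, 0, 6, 7, 3, 0, 0, 0, 2, 9, 4, 8, 2, 0, 8, 7, 6, 0, 9]
  gA := 2
  gB := 14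
  fin := 0
  sid := [0, 1, 2, 1, 3, 4, 5, 3, 1, 0, 5, 6, 7, 4, 8, 2, 1, 2, 9, 5, 4, 9, 2, 8, 4, 7, 6, 5]
  off := [(0, 0), (0, 0), (0, 0), (1, 0), (0, 0), (0, 0), (0, 0), (-1, 0), (0, 0), (0, 0), (0, 0), (0, 0), (0, 0),
    (-1, 0), (0, 0), (0, 0), (0, 0), (-1, 0), (0, 0), (-1, 1), (-1, 1), (1, -1), (0, -1), (0, -1), (-1, 0), (0, 0),
    (0, 0), (0, 0)]

/-- glued arcs and equations -/
def tord7r_133 : TorT :=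
  ⟨[(0, 1, true), (0, 3, true), (1, 1, true), (2, 2, true), (2, 6, true), (3, 5, true), (4, 4, true), (4, 6, true),
    (5, 5, true)],
    [([0, 0, 0, 0, 1, 1, 0], 2), ([0, 0, 0, 1, 0, 1, 2], 2), ([0, 2, 1, 1, 0, 0, 0], 2), ([1, 0, 0, 0, 1, 0, 0], 2),
    ([1, 0, 1, 0, 0, 0, 0], 2)]⟩

theorem tord7r_133_ok : tord7r_133.OK 7 := TT.leaf_ok (T := ttd7r_133) (by decide +kernel)

/-- the torus -/
def ttd7r_134 : TT where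
  k := 4
  rf := [false, false, true, true]
  tau := [7, 19, 20, 12, 11, 10, 25, 0, 26, 27, 5, 4, 3, 18, 17, 22, 23, 14, 13, 1, 2, 24, 15, 16, 21, 6, 8, 9]
  par := [0, 0, 1, 6]
  stars := [[0, 26, 8], [1, 7, 19], [2, 20], [3, 14, 18, 13], [4, 12], [5, 11], [6, 10, 21, 25], [9, 27], [15, 23,
    17], [16, 24, 22]]
  word := [[], [], [], [0], [0], [0], [], [], [1, 3, 0, 2], [1, 3, 0, 2], [1], [1], [1], [], [0], [0, 2], [2], [1],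
    [], [], [], [3, 1, 2], [3, 1], [3], [3, 0, 2], [], [3, 1, 2, 0], [3, 1, 2, 0]]
  rank := [0, 0, 1, 2, 3, 4, 0, 0, 6, 5, 4, 3, 2, 1, 0, 1, 0, 0, 1, 0, 1, 2, 1, 0, 2, 0, 6, 5]
  just := [0, 0, 2, 3, 4, 5, 0, 0, 7, 6, 5, 4, 3, 1, 0, 8, 0, 0, 1, 0, 2, 9, 8, 0, 9, 0, 7, 6]
  gA := 14
  gB := 16
  fin := 0
  sid := [0, 1, 2, 3, 4, 5, 6, 1, 0, 7, 6, 5, 4, 3, 3, 8, 9, 8, 3, 1, 2, 6, 9, 8, 9, 6, 0, 7]
  off := [(0, 0), (0, 0), (0, 0), (0, 0), (0, 0), (0, 0), (0, 0), (0, 0), (0, 0), (0, 0), (-1, 0), (-1, 0), (-1, 0),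
    (-1, 0), (0, 0), (0, 0), (0, 0), (-1, 0), (-1, 0), (0, 0), (0, 0), (-1, 0), (-1, -1), (-1, -1), (0, -1), (0, 0),
    (0, 0), (0, 0)]

/-- glued arcs and equations -/
def tord7r_134 : TorT :=
  ⟨[(0, 0, true), (0, 3, true), (1, 1, true), (1, 5, false), (2, 2, true), (2, 6, false), (3, 5, true), (4, 4, true),
    (4, 6, false)],
    [([0, 0, 0, 0, 1, 1, 0], 2), ([0, 0, 1, 0, 0, 0, 1], 2), ([0, 1, 1, 1, 0, 0, 0], 2), ([1, 0, 0, 1, 1, 0, 1], 2),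
    ([1, 1, 0, 0, 0, 1, 0], 2)]⟩

theorem tord7r_134_ok : tord7r_134.OK 7 := TT.leaf_ok (T := ttd7r_134) (by decide +kernel)

/-- the torus -/
def ttd7r_135 : TT where
  k := 8
  rf := [false, false, false, true, true, false, true, true]
  tau := [10, 15, 18, 17, 16, 21, 11, 33, 26, 27, 0, 6, 22, 23, 38, 1, 4, 3, 2, 42, 39, 5, 12, 13, 28, 34, 8, 9, 24,
    50, 53, 52, 51, 7, 25, 54, 47, 48, 14, 20, 43, 44, 19, 40, 41, 49, 55, 36, 37, 45, 29, 32, 31, 30, 35, 46]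
  par := [0, 0, 1, 5, 7, 14, 19, 29]
  stars := [[0, 11], [1, 10, 21, 5, 16], [2, 15, 38, 42, 19], [3, 18], [4, 17], [6, 22, 12], [7, 24, 29, 51, 33], [8,
    34, 26], [9, 27], [13, 23], [14, 39], [20, 43, 40], [25, 28], [30, 54, 35, 45, 50], [31, 53], [32, 52], [36, 55,
    47], [37, 48], [41, 44], [46, 49]]
  word := [[], [], [0], [0], [0], [], [0, 3, 1, 2], [], [1], [1], [], [3, 0, 2, 1], [3, 0, 2, 1], [3, 0, 2, 1], [],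
    [], [1], [1], [1], [], [], [], [0, 3, 1, 2], [0, 3, 1, 2], [0], [0], [0], [0], [1], [], [3, 0, 2], [3, 0, 2], [3,
    0, 2], [], [1], [0, 2], [0], [0], [], [], [], [], [], [], [], [2], [2], [1], [1], [3], [], [3, 1, 2], [3, 1, 2],
    [3, 1, 2], [3, 1], [3]]
  rank := [0, 0, 0, 1, 2, 0, 9, 0, 4, 3, 0, 9, 8, 7, 0, 0, 2, 1, 0, 0, 1, 0, 8, 7, 6, 5, 4, 3, 6, 0, 4, 5, 6, 0, 5,
    3, 2, 1, 0, 1, 2, 3, 0, 2, 3, 1, 0, 2, 1, 1, 0, 6, 5, 4, 3, 0]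
  just := [0, 0, 0, 3, 4, 0, 5, 0, 8, 1, 0, 5, 9, 6, 0, 0, 4, 3, 0, 0, 10, 0, 9, 6, 12, 7, 8, 1, 12, 0, 13, 14, 15,
    0, 7, 16, 17, 2, 0, 10, 11, 18, 0, 11, 18, 19, 0, 17, 2, 19, 0, 15, 14, 13, 16, 0]
  gA := 2
  gB := 46
  fin := 0
  sid := [0, 1, 2, 3, 4, 1, 5, 6, 7, 8, 1, 0, 5, 9, 10, 2, 1, 4, 3, 2, 11, 1, 5, 9, 6, 12, 7, 8, 12, 6, 13, 14, 15,
    6, 7, 13, 16, 17, 2, 10, 11, 18, 2, 11, 18, 13, 19, 16, 17, 19, 13, 6, 15, 14, 13, 16]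
  off := [(0, 0), (0, 0), (0, 0), (0, 0), (0, 0), (1, 0), (0, 0), (0, 0), (0, 0), (0, 0), (0, 0), (0, 0), (0, 0), (0,
    0), (0, 0), (0, 0), (0, 0), (-1, 0), (-1, 0), (-1, 0), (0, 0), (1, 0), (0, 0), (0, 0), (0, 0), (0, 0), (1, 0),
    (1, 0), (-1, 0), (-1, 0), (0, 0), (0, 0), (0, 0), (0, 0), (0, 0), (0, 1), (0, 0), (0, 0), (0, 0), (0, 0), (0, 0),
    (0, 0), (-1, 0), (0, 0), (0, 0), (0, 1), (0, 0), (-1, 0), (-1, 0), (0, -1), (0, 0), (-1, 0), (-1, 0), (-1, 0),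
    (-1, 0), (-1, -1)]

/-- glued arcs and equations -/
def tord7r_135 : TorT :=
  ⟨[(0, 3, true), (0, 5, false), (1, 1, true), (1, 5, false), (2, 4, true), (2, 6, false), (3, 3, true), (4, 6,
    true)],
    [([0, 0, 0, 1, 1, 0, 0], 2), ([0, 0, 1, 0, 0, 0, 1], 2), ([0, 1, 0, 0, 0, 1, 1], 2), ([1, 0, 0, 0, 1, 0, 0], 2),
    ([1, 1, 1, 1, 0, 1, 0], 2)]⟩

theorem tord7r_135_ok : tord7r_135.OK 7 := TT.leaf_ok (T := ttd7r_135) (by decide +kernel)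

/-- the torus -/
def ttd7r_136 : TT where
  k := 8
  rf := [false, false, true, false, true, false, true, true]
  tau := [10, 14, 11, 24, 27, 26, 25, 29, 19, 20, 0, 2, 15, 16, 1, 12, 13, 28, 30, 8, 9, 38, 42, 39, 3, 6, 5, 4, 17,
    7, 18, 52, 55, 54, 53, 50, 47, 48, 21, 23, 43, 44, 22, 40, 41, 49, 51, 36, 37, 45, 35, 46, 31, 34, 33, 32]
  par := [0, 0, 1, 3, 7, 21, 22, 31]
  stars := [[0, 25, 3, 11], [1, 10, 14], [2, 15, 12], [4, 24, 39, 21], [5, 27], [6, 26], [7, 17, 29], [8, 30, 19],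
    [9, 20], [13, 16], [18, 31, 53, 28], [22, 38, 42], [23, 43, 40], [32, 49, 46, 52], [33, 55], [34, 54], [35, 45,
    50], [36, 51, 47], [37, 48], [41, 44]]
  word := [[], [], [1, 2], [], [0, 3], [0, 3], [0, 3], [], [], [], [], [3, 0], [3, 0], [3, 0], [], [1, 2], [1, 2],
    [1, 2], [], [], [], [], [], [0, 3], [], [2, 1], [2, 1], [2, 1], [3, 0], [], [], [], [3, 0], [3, 0], [3, 0], [2],
    [], [], [], [2, 1], [2, 1], [2, 1], [], [0, 3], [0, 3], [0], [2], [], [], [1], [3], [3], [], [1, 2], [1, 2], [1,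
    2]]
  rank := [0, 0, 7, 0, 7, 8, 9, 0, 2, 1, 0, 7, 6, 5, 0, 6, 5, 4, 3, 2, 1, 0, 0, 6, 0, 9, 8, 7, 4, 0, 3, 0, 1, 2, 3,
    3, 2, 1, 0, 6, 5, 4, 0, 5, 4, 0, 0, 2, 1, 0, 3, 0, 0, 3, 2, 1]
  just := [0, 0, 2, 0, 3, 4, 5, 0, 8, 1, 0, 2, 9, 6, 0, 9, 6, 10, 7, 8, 1, 0, 0, 12, 0, 5, 4, 3, 10, 0, 7, 0, 13, 14,
    15, 17, 18, 11, 0, 12, 19, 16, 0, 19, 16, 0, 0, 18, 11, 0, 17, 0, 0, 15, 14, 13]
  gA := 45
  gB := 46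
  fin := 0
  sid := [0, 1, 2, 0, 3, 4, 5, 6, 7, 8, 1, 0, 2, 9, 1, 2, 9, 6, 10, 7, 8, 3, 11, 12, 3, 0, 5, 4, 10, 6, 7, 10, 13,
    14, 15, 16, 17, 18, 11, 3, 12, 19, 11, 12, 19, 16, 13, 17, 18, 13, 16, 17, 13, 10, 15, 14]
  off := [(0, 0), (0, 0), (0, 0), (-1, 1), (0, 0), (0, 0), (0, 0), (0, 0), (0, 0), (0, 0), (0, 0), (0, 0), (1, -1),
    (0, 0), (0, 0), (0, 0), (-1, 1), (-1, 1), (0, 0), (0, 0), (0, 0), (-1, 1), (0, 0), (0, 0), (0, 0), (-1, 1), (-1,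
    1), (-1, 1), (1, -1), (0, 0), (0, 0), (0, 0), (0, 0), (0, 0), (0, 0), (0, 0), (0, 0), (0, 0), (0, 0), (-1, 1),
    (-1, 1), (0, 0), (0, 0), (0, 0), (1, -1), (1, -1), (0, 1), (0, 0), (0, 0), (-1, 1), (0, -1), (0, -1), (0, 0), (0,
    0), (-1, 1), (-1, 1)]

/-- glued arcs and equations -/
def tord7r_136 : TorT :=
  ⟨[(0, 1, false), (0, 3, true), (1, 5, false), (2, 4, true), (2, 6, false), (3, 3, true), (4, 6, true), (5, 5,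
    true)],
    [([0, 0, 0, 0, 0, 1, 1], 2), ([0, 0, 1, 0, 0, 0, 1], 2), ([0, 1, 1, 0, 0, 1, 0], 2), ([1, 0, 0, 1, 2, 0, 0], 2),
    ([1, 1, 0, 1, 0, 0, 0], 2)]⟩

theorem tord7r_136_ok : tord7r_136.OK 7 := TT.leaf_ok (T := ttd7r_136) (by decide +kernel)

/-- the torus -/
def ttd7r_137 : TT where
  k := 4
  rf := [false, false, true, true]
  tau := [7, 5, 18, 19, 20, 1, 13, 0, 12, 25, 26, 27, 8, 6, 17, 22, 23, 14, 2, 3, 4, 24, 15, 16, 21, 9, 10, 11]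
  par := [0, 0, 2, 9]
  stars := [[0, 13, 8], [1, 7, 6], [2, 5, 14, 18], [3, 19], [4, 20], [9, 12, 21, 25], [10, 26], [11, 27], [15, 23,
    17], [16, 24, 22]]
  word := [[], [2, 1], [], [], [], [0, 3], [0, 3], [], [3, 0], [], [], [], [1, 2], [2, 1], [0, 3], [0], [2], [2, 1],
    [], [], [], [1, 2], [1], [3], [3, 0], [], [], []]
  rank := [0, 3, 0, 1, 2, 3, 4, 0, 3, 0, 1, 2, 3, 4, 1, 0, 0, 1, 0, 1, 2, 1, 0, 0, 1, 0, 1, 2]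
  just := [0, 2, 0, 3, 4, 2, 1, 0, 5, 0, 6, 7, 5, 1, 8, 0, 0, 8, 0, 3, 4, 9, 0, 0, 9, 0, 6, 7]
  gA := 15
  gB := 16
  fin := 0
  sid := [0, 1, 2, 3, 4, 2, 1, 1, 0, 5, 6, 7, 5, 0, 2, 8, 9, 8, 2, 3, 4, 5, 9, 8, 9, 5, 6, 7]
  off := [(0, 0), (0, 0), (0, 0), (0, 0), (0, 0), (1, -1), (1, -1), (0, 0), (0, 0), (0, 0), (0, 0), (0, 0), (-1, 1),
    (-1, 1), (1, -1), (0, 0), (0, 0), (-1, 1), (0, 0), (0, 0), (0, 0), (-1, 1), (-1, 0), (-1, 0), (0, -1), (0, 0),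
    (0, 0), (0, 0)]

/-- glued arcs and equations -/
def tord7r_137 : TorT :=
  ⟨[(0, 0, true), (0, 3, true), (1, 1, true), (1, 5, true), (2, 2, true), (2, 4, false), (3, 5, false), (4, 6,
    false), (6, 6, true)],
    [([0, 0, 0, 0, 1, 0, 1], 2), ([0, 0, 0, 1, 0, 1, 0], 2), ([0, 1, 1, 1, 0, 0, 0], 2), ([1, 0, 1, 0, 1, 1, 0], 2),
    ([1, 1, 0, 0, 0, 0, 1], 2)]⟩

theorem tord7r_137_ok : tord7r_137.OK 7 := TT.leaf_ok (T := ttd7r_137) (by decide +kernel)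

/-- the torus -/
def ttd7r_138 : TT where
  k := 8
  rf := [false, false, false, true, false, true, true, true]
  tau := [7, 17, 11, 10, 9, 21, 32, 0, 31, 4, 3, 2, 35, 18, 47, 40, 41, 1, 13, 36, 37, 5, 33, 34, 43, 55, 29, 30, 54,
    26, 27, 8, 6, 22, 23, 12, 19, 20, 50, 48, 15, 16, 49, 24, 53, 52, 51, 14, 39, 42, 38, 46, 45, 44, 28, 25]
  par := [0, 0, 1, 5, 6, 12, 14, 25]
  stars := [[0, 32, 8], [1, 7, 18], [2, 17, 35, 12], [3, 11], [4, 10], [5, 9, 31, 21], [6, 22, 33], [13, 36, 19],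
    [14, 38, 51, 47], [15, 48, 40], [16, 41], [20, 37], [23, 34], [24, 44, 54, 28], [25, 49, 43], [26, 29, 55], [27,
    30], [39, 42, 50], [45, 53], [46, 52]]
  word := [[], [], [1], [1], [1], [], [], [], [0, 3, 1, 2], [0], [0], [0], [], [], [], [1], [1], [], [], [], [], [],
    [], [], [3, 0], [], [3, 1, 2], [3, 1, 2], [3, 0, 2], [3, 0, 2], [3, 0, 2], [3, 0, 2, 1], [], [], [], [], [], [],
    [2], [0], [0], [0], [1, 2], [1, 2], [2], [2], [2], [], [1], [3, 0], [3], [3], [3], [3], [3, 1, 2], []]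
  rank := [0, 0, 3, 4, 5, 0, 0, 0, 10, 5, 4, 3, 0, 1, 0, 1, 2, 0, 1, 2, 3, 0, 1, 2, 6, 0, 8, 9, 7, 8, 9, 10, 0, 1, 2,
    0, 2, 3, 4, 0, 1, 2, 5, 6, 2, 1, 0, 0, 0, 5, 4, 0, 1, 2, 7, 0]
  just := [0, 0, 2, 3, 4, 0, 0, 0, 5, 4, 3, 2, 0, 1, 0, 9, 10, 0, 1, 7, 11, 0, 6, 12, 14, 0, 15, 16, 13, 15, 16, 5,
    0, 6, 12, 0, 7, 11, 8, 0, 9, 10, 17, 14, 18, 19, 0, 0, 0, 17, 8, 0, 19, 18, 13, 0]
  gA := 39
  gB := 46
  fin := 0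
  sid := [0, 1, 2, 3, 4, 5, 6, 1, 0, 5, 4, 3, 2, 7, 8, 9, 10, 2, 1, 7, 11, 5, 6, 12, 13, 14, 15, 16, 13, 15, 16, 5,
    0, 6, 12, 2, 7, 11, 8, 17, 9, 10, 17, 14, 13, 18, 19, 8, 9, 14, 17, 8, 19, 18, 13, 15]
  off := [(0, 0), (0, 0), (0, 0), (0, 0), (0, 0), (0, 0), (0, 0), (0, 0), (0, 0), (1, 0), (1, 0), (1, 0), (1, 0), (0,
    0), (0, 0), (0, 0), (0, 0), (0, 0), (0, 0), (0, 0), (0, 0), (0, 0), (0, 0), (0, 0), (0, 0), (0, 0), (0, 0), (0,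
    0), (0, 0), (1, 0), (1, 0), (1, 0), (0, 0), (0, 0), (0, 0), (1, 0), (0, 0), (0, 0), (0, 0), (0, 0), (1, 0), (1,
    0), (-1, 0), (-1, 1), (-1, 1), (0, 0), (0, 0), (0, 0), (0, 0), (0, 0), (0, -1), (0, -1), (0, -1), (0, -1), (-1,
    0), (0, 0)]

/-- glued arcs and equations -/
def tord7r_138 : TorT :=
  ⟨[(0, 0, true), (0, 5, false), (1, 3, true), (1, 5, false), (2, 4, true), (2, 6, false), (3, 3, true), (4, 6,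
    true)],
    [([0, 0, 0, 1, 1, 0, 0], 2), ([0, 0, 1, 0, 0, 0, 1], 2), ([0, 1, 0, 0, 0, 1, 1], 2), ([1, 0, 1, 1, 0, 1, 0], 2),
    ([1, 1, 0, 0, 1, 0, 0], 2)]⟩

theorem tord7r_138_ok : tord7r_138.OK 7 := TT.leaf_ok (T := ttd7r_138) (by decide +kernel)

/-- the torus -/
def ttd7r_139 : TT where
  k := 8
  rf := [false, false, false, false, true, true, true, true]
  tau := [12, 14, 20, 15, 11, 7, 13, 5, 21, 27, 22, 4, 0, 6, 1, 3, 32, 33, 30, 31, 2, 8, 10, 39, 40, 37, 38, 9, 43,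
    45, 18, 19, 16, 17, 44, 50, 52, 25, 26, 23, 24, 51, 54, 28, 34, 29, 53, 49, 55, 47, 35, 41, 36, 46, 42, 48]
  par := [0, 0, 1, 8, 16, 23, 28, 35]
  stars := [[0, 13], [1, 12, 4, 15], [2, 14], [3, 20, 32, 16], [5, 11, 22, 8], [6, 7], [9, 21], [10, 27, 39, 23],
    [17, 33], [18, 34, 45, 30], [19, 31], [24, 40], [25, 41, 52, 37], [26, 38], [28, 44], [29, 46, 54, 43], [35, 51],
    [36, 53, 47, 50], [42, 55], [48, 49]]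
  word := [[], [], [], [0, 3], [0, 3], [0, 3, 1, 2], [0, 3, 1, 2], [3, 0, 2, 1], [], [], [1, 2], [2, 1], [], [3, 0,
    2, 1], [], [2, 1], [], [], [0, 3], [0, 3], [], [], [3, 0], [], [], [1, 2], [1, 2], [], [], [2, 1], [2, 1], [2,
    1], [], [], [], [], [3, 0], [3, 0], [3, 0], [], [], [], [2], [], [], [0, 3], [0], [2], [2], [3], [], [], [1, 2],
    [1], [3], [3]]
  rank := [0, 0, 1, 5, 6, 7, 8, 7, 0, 1, 5, 6, 0, 8, 0, 5, 0, 1, 3, 4, 1, 0, 5, 0, 1, 3, 4, 1, 0, 2, 3, 4, 0, 1, 1,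
    0, 2, 3, 4, 0, 1, 1, 1, 0, 1, 2, 0, 1, 0, 1, 0, 1, 2, 0, 1, 0]
  just := [0, 0, 2, 3, 1, 4, 5, 4, 0, 6, 7, 1, 0, 5, 0, 3, 0, 8, 9, 10, 2, 0, 7, 0, 11, 12, 13, 6, 0, 15, 9, 10, 0,
    8, 14, 0, 17, 12, 13, 0, 11, 16, 18, 0, 14, 15, 0, 19, 0, 19, 0, 16, 17, 0, 18, 0]
  gA := 46
  gB := 48
  fin := 0
  sid := [0, 1, 2, 3, 1, 4, 5, 5, 4, 6, 7, 4, 1, 0, 2, 1, 3, 8, 9, 10, 3, 6, 4, 7, 11, 12, 13, 7, 14, 15, 9, 10, 3,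
    8, 9, 16, 17, 12, 13, 7, 11, 12, 18, 15, 14, 9, 15, 17, 19, 19, 17, 16, 12, 17, 15, 18]
  off := [(0, 0), (0, 0), (0, 0), (0, 0), (1, -1), (0, 0), (0, 0), (0, 0), (0, 0), (0, 0), (0, 0), (-1, 1), (0, 0),
    (0, 0), (0, 0), (0, 0), (-1, 1), (0, 0), (0, 0), (0, 0), (0, 0), (0, 0), (0, 0), (1, -1), (0, 0), (0, 0), (0, 0),
    (0, 0), (0, 0), (0, 0), (-1, 1), (-1, 1), (-1, 1), (0, 0), (0, 0), (0, 0), (0, 0), (1, -1), (1, -1), (1, -1), (0,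
    0), (0, 0), (0, 0), (0, 0), (0, 0), (0, 0), (1, -1), (0, 1), (0, 0), (0, -1), (0, 0), (0, 0), (0, 0), (-1, 1),
    (0, -1), (0, -1)]

/-- glued arcs and equations -/
def tord7r_139 : TorT :=
  ⟨[(0, 1, true), (0, 5, true), (1, 3, true), (2, 4, false), (2, 6, true), (3, 5, false), (4, 4, true), (6, 6, true)],
    [([0, 0, 0, 1, 0, 1, 0], 2), ([0, 0, 1, 1, 1, 0, 1], 2), ([0, 2, 0, 0, 1, 1, 0], 2), ([1, 0, 0, 0, 0, 0, 1], 2),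
    ([1, 0, 1, 0, 0, 0, 0], 2)]⟩

theorem tord7r_139_ok : tord7r_139.OK 7 := TT.leaf_ok (T := ttd7r_139) (by decide +kernel)

/-- the torus -/
def ttd7r_140 : TT where
  k := 8
  rf := [false, false, false, false, true, true, true, true]
  tau := [7, 8, 6, 14, 16, 15, 2, 0, 1, 13, 21, 23, 22, 9, 3, 5, 4, 33, 34, 31, 32, 10, 12, 11, 40, 41, 38, 39, 45,
    47, 46, 19, 20, 17, 18, 52, 54, 53, 26, 27, 24, 25, 49, 50, 48, 28, 30, 29, 44, 42, 43, 55, 35, 37, 36, 51]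
  par := [0, 0, 3, 10, 17, 24, 28, 35]
  stars := [[0, 2, 8], [1, 7, 9], [3, 6, 15], [4, 14, 33, 17], [5, 16], [10, 13, 22], [11, 21, 40, 24], [12, 23],
    [18, 34], [19, 28, 46, 31], [20, 32], [25, 41], [26, 35, 53, 38], [27, 39], [29, 48, 45], [30, 47], [36, 55, 52],
    [37, 54], [42, 50, 44], [43, 51, 49]]
  word := [[], [1, 2], [2, 1], [], [0, 3], [0, 3], [0, 3], [], [3, 0], [3, 0], [], [1, 2], [1, 2], [1, 2], [], [2,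
    1], [2, 1], [], [], [0, 3], [0, 3], [], [3, 0], [3, 0], [], [], [1, 2], [1, 2], [], [2, 1], [2, 1], [2, 1], [2,
    1], [], [], [], [3, 0], [3, 0], [3, 0], [3, 0], [], [], [0], [2], [2, 1], [], [0, 3], [0, 3], [0, 3], [1], [3],
    [3, 0], [], [1, 2], [1, 2], [1, 2]]
  rank := [0, 9, 8, 0, 6, 7, 8, 0, 9, 8, 0, 6, 7, 8, 0, 7, 6, 0, 1, 4, 5, 0, 7, 6, 0, 1, 4, 5, 0, 2, 3, 4, 5, 0, 1,
    0, 2, 3, 4, 5, 0, 1, 0, 0, 1, 0, 3, 2, 1, 0, 0, 1, 0, 3, 2, 1]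
  just := [0, 1, 2, 0, 3, 4, 2, 0, 1, 5, 0, 6, 7, 5, 0, 4, 3, 0, 8, 9, 10, 0, 7, 6, 0, 11, 12, 13, 0, 14, 15, 9, 10,
    0, 8, 0, 16, 17, 12, 13, 0, 11, 0, 0, 18, 0, 15, 14, 18, 0, 0, 19, 0, 17, 16, 19]
  gA := 42
  gB := 43
  fin := 0
  sid := [0, 1, 0, 2, 3, 4, 2, 1, 0, 1, 5, 6, 7, 5, 3, 2, 4, 3, 8, 9, 10, 6, 5, 7, 6, 11, 12, 13, 9, 14, 15, 9, 10,
    3, 8, 12, 16, 17, 12, 13, 6, 11, 18, 19, 18, 14, 9, 15, 14, 19, 18, 19, 16, 12, 17, 16]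
  off := [(0, 0), (0, 0), (-1, 1), (0, 0), (0, 0), (0, 0), (1, -1), (0, 0), (0, 0), (1, -1), (0, 0), (0, 0), (0, 0),
    (-1, 1), (0, 0), (0, 0), (-1, 1), (-1, 1), (0, 0), (0, 0), (0, 0), (0, 0), (0, 0), (1, -1), (1, -1), (0, 0), (0,
    0), (0, 0), (0, 0), (0, 0), (0, 0), (-1, 1), (-1, 1), (-1, 1), (0, 0), (0, 0), (0, 0), (0, 0), (1, -1), (1, -1),
    (1, -1), (0, 0), (0, 0), (0, 0), (-1, 1), (0, 0), (0, 0), (1, -1), (1, -1), (-1, 0), (-1, 0), (0, -1), (0, 0),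
    (0, 0), (-1, 1), (-1, 1)]

/-- glued arcs and equations -/
def tord7r_140 : TorT :=
  ⟨[(0, 0, true), (0, 3, true), (1, 1, true), (1, 5, true), (2, 4, true), (2, 6, true), (3, 5, false), (4, 6, false)],
    [([0, 0, 0, 0, 1, 0, 1], 2), ([0, 0, 1, 0, 0, 1, 0], 2), ([0, 1, 0, 1, 0, 0, 1], 2), ([1, 0, 0, 1, 1, 1, 0], 2),
    ([1, 1, 1, 0, 0, 0, 0], 2)]⟩

theorem tord7r_140_ok : tord7r_140.OK 7 := TT.leaf_ok (T := ttd7r_140) (by decide +kernel)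

/-- the torus -/
def ttd7r_141 : TT where
  k := 4
  rf := [false, false, false, false]
  tau := [7, 17, 9, 10, 16, 15, 25, 0, 24, 2, 3, 23, 22, 18, 26, 5, 4, 1, 13, 21, 27, 19, 12, 11, 8, 6, 14, 20]
  par := [0, 0, 1, 6]
  stars := [[0, 25, 8], [1, 7, 18], [2, 17, 4, 10], [3, 9, 24, 11], [5, 16], [6, 15, 26], [12, 23], [13, 22, 19],
    [14, 27], [20, 21]]
  word := [[], [], [2, 0], [0], [3], [3], [], [], [1, 3, 0, 2], [1, 3], [1], [2], [2], [], [2], [2], [2], [], [],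
    [2], [2], [3], [3], [3], [3, 1, 2, 0], [], [3], [3]]
  rank := [0, 0, 4, 0, 3, 2, 0, 0, 5, 4, 0, 3, 2, 1, 1, 2, 3, 0, 1, 1, 0, 1, 2, 3, 5, 0, 1, 0]
  just := [0, 0, 2, 0, 4, 5, 0, 0, 3, 2, 0, 6, 7, 1, 8, 5, 4, 0, 1, 9, 0, 9, 7, 6, 3, 0, 8, 0]
  gA := 3
  gB := 20
  fin := 0
  sid := [0, 1, 2, 3, 2, 4, 5, 1, 0, 3, 2, 3, 6, 7, 8, 5, 4, 2, 1, 7, 9, 9, 7, 6, 3, 0, 5, 8]
  off := [(0, 0), (0, 0), (0, 0), (0, 0), (0, -1), (0, 0), (0, 0), (0, 0), (0, 0), (-1, -1), (-1, -1), (-1, 0), (0,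
    0), (0, 0), (0, 0), (0, 1), (0, 1), (0, 0), (0, 0), (0, 0), (0, 0), (0, -1), (0, -1), (0, -1), (-1, -1), (0, 0),
    (0, 0), (0, -1)]

/-- glued arcs and equations -/
def tord7r_141 : TorT :=
  ⟨[(0, 0, true), (0, 5, true), (1, 3, true), (1, 5, true), (2, 2, true), (2, 4, true), (3, 3, true), (4, 6, true),
    (6, 6, true)],
    [([0, 0, 1, 0, 0, 1, 0], 2), ([0, 0, 1, 2, 1, 0, 0], 2), ([0, 1, 0, 0, 0, 1, 1], 2), ([1, 0, 0, 0, 0, 0, 1], 2),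
    ([1, 1, 0, 0, 1, 0, 0], 2)]⟩

theorem tord7r_141_ok : tord7r_141.OK 7 := TT.leaf_ok (T := ttd7r_141) (by decide +kernel)

/-- the torus -/
def ttd7r_142 : TT where
  k := 4
  rf := [false, false, false, false]
  tau := [7, 5, 18, 21, 27, 1, 13, 0, 12, 25, 14, 20, 8, 6, 10, 24, 23, 22, 2, 26, 11, 3, 17, 16, 15, 9, 19, 4]
  par := [0, 0, 2, 3]
  stars := [[0, 13, 8], [1, 7, 6], [2, 5, 27, 19], [3, 18, 22], [4, 21], [9, 12, 20, 26], [10, 25, 15], [11, 14],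
    [16, 24], [17, 23]]
  word := [[], [2], [], [], [], [3], [3], [], [0, 3, 1], [0], [0], [0], [0, 2, 1], [2], [1], [], [], [], [], [2],
    [1], [], [], [], [], [1], [3], []]
  rank := [0, 2, 0, 0, 1, 2, 3, 0, 5, 4, 0, 1, 5, 3, 0, 3, 2, 1, 0, 0, 1, 0, 1, 2, 3, 4, 0, 1]
  just := [0, 2, 0, 0, 4, 2, 1, 0, 5, 6, 0, 7, 5, 1, 0, 8, 9, 3, 0, 0, 7, 0, 3, 9, 8, 6, 0, 4]
  gA := 10
  gB := 19
  fin := 0
  sid := [0, 1, 2, 3, 4, 2, 1, 1, 0, 5, 6, 7, 5, 0, 7, 6, 8, 9, 3, 2, 5, 4, 3, 9, 8, 6, 5, 2]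
  off := [(0, 0), (0, 0), (0, 0), (0, 0), (0, 0), (0, -1), (0, -1), (0, 0), (0, 0), (0, 0), (0, 0), (0, 0), (0, 1),
    (0, 1), (-1, 0), (-1, 0), (0, 0), (0, 0), (0, 0), (0, 0), (-1, 1), (0, 0), (0, 0), (0, 0), (0, 0), (-1, 0), (-1,
    0), (0, -1)]

/-- glued arcs and equations -/
def tord7r_142 : TorT :=
  ⟨[(0, 0, true), (0, 3, true), (1, 3, true), (1, 5, true), (2, 2, true), (2, 4, true), (4, 6, true), (5, 5, true),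
    (6, 6, true)],
    [([0, 0, 1, 0, 0, 2, 1], 2), ([0, 0, 1, 1, 0, 0, 0], 2), ([0, 1, 0, 1, 1, 0, 0], 2), ([1, 0, 0, 0, 1, 0, 0], 2),
    ([1, 1, 0, 0, 0, 0, 1], 2)]⟩

theorem tord7r_142_ok : tord7r_142.OK 7 := TT.leaf_ok (T := ttd7r_142) (by decide +kernel)

end Pool.Agent.Lib_MP_fa6e45
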