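import Pool.Agent.Lib_MP_fa6e45.DQA
import Pool.Agent.Lib_MP_fa6e45.DQ7r_5_0
import Pool.Agent.Lib_MP_fa6e45.DQ7r_5_1
import Pool.Agent.Lib_MP_fa6e45.DQ7r_5_2
import Pool.Agent.Lib_MP_fa6e45.DQ7r_5_3
import Pool.Agent.Lib_MP_fa6e45.DQ7r_5_4
import Pool.Agent.Lib_MP_fa6e45.DQ7r_6_0
import Pool.Agent.Lib_MP_fa6e45.DQ7r_7_0
import Pool.Agent.Lib_MP_fa6e45.DQ7r_7_1
import Pool.Agent.Lib_MP_fa6e45.DQ7r_8_0
import Pool.Agent.Lib_MP_fa6e45.DQ7r_8_1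
import Pool.Agent.Lib_MP_fa6e45.DQ7r_9_0
import Pool.Agent.Lib_MP_fa6e45.DQ7r_9_1
import Pool.Agent.Lib_MP_fa6e45.DQ7r_9_2

/-!
MP_fa6e45_co, stage 9: straight-side patterns with `7` sides, large certificates (generated by a program).
-/

namespace Pool.Agent.Lib_MP_fa6e45

/-- nodes -/
noncomputable def cD7r_84_n : List (QG PN) :=
  cD7r_84_n0 ++ (cD7r_84_n1 ++ (cD7r_84_n2 ++ (cD7r_84_n3 ++ cD7r_84_n4)))

theorem cD7r_84_ok :
    allI (chkG (ckP 7 ttD7r cD7r_84_w cD7r_84_s) 7 cD7r_84_w 2 cD7r_84_s cD7r_84_t (bl3 [] cD7r_84_D)) cD7r_84_n 0 = true := by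
  refine allI_appQ (k := 353) cD7r_84_k0 (by decide +kernel) ?_
  refine allI_appQ (k := 130) cD7r_84_k1 (by decide +kernel) ?_
  refine allI_appQ (k := 134) cD7r_84_k2 (by decide +kernel) ?_
  refine allI_appQ (k := 143) cD7r_84_k3 (by decide +kernel) ?_
  exact cD7r_84_k4

theorem cD7r_84 : NodeU 7 cD7r_84_w [] :=
  nodeG_of (C := 2) (sy := cD7r_84_s) (st := cD7r_84_t) (D := cD7r_84_D) (Ns := cD7r_84_n) (by norm_num) (by norm_num)
    ttD7r_ok (by decide +kernel) (by decide +kernel) cD7r_84_ok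

/-- nodes -/
noncomputable def cD7r_85_n : List (QG PN) :=
  cD7r_85_n0

theorem cD7r_85_ok :
    allI (chkG (ckP 7 ttD7r cD7r_85_w cD7r_85_s) 7 cD7r_85_w 2 cD7r_85_s cD7r_85_t (bl3 [] cD7r_85_D)) cD7r_85_n 0 = true := by
  exact cD7r_85_k0

theorem cD7r_85 : NodeU 7 cD7r_85_w [] :=
  nodeG_of (C := 2) (sy := cD7r_85_s) (st := cD7r_85_t) (D := cD7r_85_D) (Ns := cD7r_85_n) (by norm_num) (by norm_num)
    ttD7r_ok (by decide +kernel) (by decide +kernel) cD7r_85_ok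

/-- nodes -/
noncomputable def cD7r_86_n : List (QG PN) :=
  cD7r_86_n0 ++ cD7r_86_n1

theorem cD7r_86_ok :
    allI (chkG (ckP 7 ttD7r cD7r_86_w cD7r_86_s) 7 cD7r_86_w 2 cD7r_86_s cD7r_86_t (bl3 [] cD7r_86_D)) cD7r_86_n 0 = true := by
  refine allI_appQ (k := 118) cD7r_86_k0 (by decide +kernel) ?_
  exact cD7r_86_k1

theorem cD7r_86 : NodeU 7 cD7r_86_w [] :=
  nodeG_of (C := 2) (sy := cD7r_86_s) (st := cD7r_86_t) (D := cD7r_86_D) (Ns := cD7r_86_n) (by norm_num) (by norm_num)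
    ttD7r_ok (by decide +kernel) (by decide +kernel) cD7r_86_ok

/-- nodes -/
noncomputable def cD7r_89_n : List (QG PN) :=
  cD7r_89_n0 ++ cD7r_89_n1

theorem cD7r_89_ok :
    allI (chkG (ckP 7 ttD7r cD7r_89_w cD7r_89_s) 7 cD7r_89_w 2 cD7r_89_s cD7r_89_t (bl3 [] cD7r_89_D)) cD7r_89_n 0 = true := by
  refine allI_appQ (k := 172) cD7r_89_k0 (by decide +kernel) ?_
  exact cD7r_89_k1

theorem cD7r_89 : NodeU 7 cD7r_89_w [] :=
  nodeG_of (C := 2) (sy := cD7r_89_s) (st := cD7r_89_t) (D := cD7r_89_D) (Ns := cD7r_89_n) (by norm_num) (by norm_num)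
    ttD7r_ok (by decide +kernel) (by decide +kernel) cD7r_89_ok

/-- nodes -/
noncomputable def cD7r_91_n : List (QG PN) :=
  cD7r_91_n0 ++ (cD7r_91_n1 ++ cD7r_91_n2)

theorem cD7r_91_ok :
    allI (chkG (ckP 7 ttD7r cD7r_91_w cD7r_91_s) 7 cD7r_91_w 2 cD7r_91_s cD7r_91_t (bl3 [] cD7r_91_D)) cD7r_91_n 0 = true := by
  refine allI_appQ (k := 153) cD7r_91_k0 (by decide +kernel) ?_
  refine allI_appQ (k := 72) cD7r_91_k1 (by decide +kernel) ?_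
  exact cD7r_91_k2

theorem cD7r_91 : NodeU 7 cD7r_91_w [] :=
  nodeG_of (C := 2) (sy := cD7r_91_s) (st := cD7r_91_t) (D := cD7r_91_D) (Ns := cD7r_91_n) (by norm_num) (by norm_num)
    ttD7r_ok (by decide +kernel) (by decide +kernel) cD7r_91_ok

theorem sD7r_J : Solved 7 [cD7r_84_w, cD7r_85_w, cD7r_86_w, cD7r_89_w, cD7r_91_w] :=
  Solved.cons cD7r_84 (
  Solved.cons cD7r_85 (
  Solved.cons cD7r_86 (
  Solved.cons cD7r_89 (
  Solved.cons cD7r_91 (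
  Solved.nil)))))

end Pool.Agent.Lib_MP_fa6e45
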