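import Pool.Agent.Lib_MP_fa6e45.CT5

/-!
MP_fa6e45_co, stage 9: straight-side patterns with `8` sides, tables of tori (generated by a program).
-/

namespace Pool.Agent.Lib_MP_fa6e45

/-- the torus -/
def ttd8a_6 : TT where
  k := 4
  rf := [false, true, true, false]
  tau := [9, 19, 20, 14, 15, 29, 16, 31, 30, 0, 18, 25, 26, 21, 3, 4, 6, 24, 10, 1, 2, 13, 27, 28, 17, 11, 12, 22,
    23, 5, 8, 7]
  par := [0, 0, 1, 5]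
  stars := [[0, 31, 9], [1, 10, 19], [2, 20], [3, 21, 14], [4, 15], [5, 8, 30], [6, 29, 16], [7, 17, 24], [11, 25,
    18], [12, 26], [13, 22, 27], [23, 28]]
  word := [[], [], [], [3], [3], [], [1, 2], [1, 2, 0], [2], [], [], [0], [0], [2], [2], [2], [3, 0], [0], [], [],
    [], [3], [3, 0], [3, 0], [1], [1], [1], [1, 2], [1, 2], [], [3], [1, 3, 0]]
  rank := [0, 0, 1, 2, 3, 0, 3, 4, 4, 0, 1, 1, 0, 0, 2, 3, 3, 2, 1, 0, 1, 0, 1, 2, 2, 1, 0, 1, 2, 0, 4, 4]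
  just := [0, 0, 2, 3, 4, 0, 6, 7, 5, 0, 1, 9, 0, 0, 3, 4, 6, 8, 1, 0, 2, 0, 10, 11, 8, 9, 0, 10, 11, 0, 5, 7]
  gA := 12
  gB := 13
  fin := 0
  sid := [0, 1, 2, 3, 4, 5, 6, 7, 5, 0, 1, 8, 9, 10, 3, 4, 6, 7, 8, 1, 2, 3, 10, 11, 7, 8, 9, 10, 11, 6, 5, 0]
  off := [(0, 0), (0, 0), (0, 0), (0, 0), (0, 0), (0, 0), (0, 0), (0, 0), (0, 1), (0, 0), (0, 0), (0, 0), (0, 0), (0,
    0), (0, 1), (0, 1), (1, -1), (1, -1), (0, 0), (0, 0), (0, 0), (0, 0), (0, -1), (0, 0), (0, -1), (-1, 0), (-1, 0),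
    (-1, 0), (-1, 1), (0, 0), (0, 0), (0, -1)]

/-- glued arcs and equations -/
def tord8a_6 : TorT :=
  ⟨[(0, 1, false), (0, 6, false), (1, 3, false), (2, 2, true), (2, 4, false), (3, 6, false), (4, 7, false), (5, 5,
    true), (7, 7, true)],
    [([0, 0, 0, 0, 1, 0, 0, 1], 2), ([0, 0, 0, 1, 0, 1, 1, 0], 2), ([0, 0, 1, 0, 1, 0, 0, 0], 2), ([0, 1, 1, 1, 0, 0,
    0, 0], 2), ([1, 0, 0, 0, 0, 1, 1, 0], 2), ([1, 1, 0, 0, 0, 0, 0, 1], 2)]⟩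

theorem tord8a_6_ok : tord8a_6.OK 8 := TT.leaf_ok (T := ttd8a_6) (by decide +kernel)

/-- the torus -/
def ttd8a_7 : TT where
  k := 4
  rf := [false, true, false, true]
  tau := [10, 11, 12, 13, 14, 21, 8, 23, 6, 25, 0, 1, 2, 3, 4, 31, 26, 27, 28, 29, 30, 5, 24, 7, 22, 9, 16, 17, 18,
    19, 20, 15]
  par := [0, 0, 5, 9]
  stars := [[0, 23, 25, 10], [1, 11], [2, 12], [3, 13], [4, 14], [5, 15, 24, 22], [6, 21, 31, 8], [7, 9, 26, 16],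
    [17, 27], [18, 28], [19, 29], [20, 30]]
  word := [[], [], [], [], [], [], [2, 1], [2, 1, 3], [0, 3], [], [], [], [], [], [], [0], [2], [2], [2], [2], [2],
    [], [0], [2, 0, 3], [1], [], [3], [3], [3], [3], [3], [1]]
  rank := [0, 1, 2, 3, 4, 0, 3, 4, 3, 0, 0, 1, 2, 3, 4, 0, 2, 1, 0, 1, 2, 0, 5, 4, 5, 0, 2, 1, 0, 1, 2, 0]
  just := [0, 1, 2, 3, 4, 0, 6, 7, 6, 0, 0, 1, 2, 3, 4, 0, 8, 9, 0, 10, 11, 0, 5, 7, 5, 0, 8, 9, 0, 10, 11, 0]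
  gA := 15
  gB := 18
  fin := 0
  sid := [0, 1, 2, 3, 4, 5, 6, 7, 6, 7, 0, 1, 2, 3, 4, 5, 7, 8, 9, 10, 11, 6, 5, 0, 5, 0, 7, 8, 9, 10, 11, 6]
  off := [(0, 0), (0, 0), (0, 0), (0, 0), (0, 0), (0, 0), (0, 0), (0, 0), (1, -1), (1, -1), (0, 0), (0, 0), (0, 0),
    (0, 0), (0, 0), (0, 0), (1, 0), (0, 0), (0, 0), (0, 0), (0, 0), (0, 0), (0, 0), (1, 0), (-1, 0), (0, 0), (1, -1),
    (0, -1), (0, -1), (0, -1), (0, -1), (0, -1)]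

/-- glued arcs and equations -/
def tord8a_7 : TorT :=
  ⟨[(0, 2, false), (0, 6, false), (1, 1, true), (1, 3, false), (2, 4, false), (3, 5, false), (4, 6, false), (5, 5,
    true), (7, 7, true)],
    [([0, 0, 0, 0, 1, 0, 1, 0], 2), ([0, 0, 0, 1, 0, 1, 0, 0], 2), ([0, 0, 1, 0, 1, 0, 0, 0], 2), ([0, 1, 0, 1, 0, 0,
    0, 0], 2), ([1, 0, 0, 0, 0, 1, 1, 1], 2), ([1, 1, 1, 0, 0, 0, 0, 1], 2)]⟩

theorem tord8a_7_ok : tord8a_7.OK 8 := TT.leaf_ok (T := ttd8a_7) (by decide +kernel)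

end Pool.Agent.Lib_MP_fa6e45
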