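import Pool.Agent.Lib_MP_fa6e45.DQ8aT0
import Pool.Agent.Lib_MP_fa6e45.DQ8aT1

/-!
MP_fa6e45_co, stage 9: straight-side patterns with `8` sides, the list of tori (generated by a program).
-/

namespace Pool.Agent.Lib_MP_fa6e45

/-- tables -/
def ttD8a_0 : List TorT := [tord8a_0, tord8a_1, tord8a_2, tord8a_3, tord8a_4, tord8a_5]

theorem ttD8a_0_ok : ∀ T ∈ ttD8a_0, T.OK 8 := by
  intro T hT
  simp only [ttD8a_0, List.mem_cons, List.not_mem_nil, or_false] at hT
  rcases hT with rfl | rfl | rfl | rfl | rfl | rfl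
  · exact tord8a_0_ok
  · exact tord8a_1_ok
  · exact tord8a_2_ok
  · exact tord8a_3_ok
  · exact tord8a_4_ok
  · exact tord8a_5_ok

/-- tables -/
def ttD8a_1 : List TorT := [tord8a_6, tord8a_7]

theorem ttD8a_1_ok : ∀ T ∈ ttD8a_1, T.OK 8 := by
  intro T hT
  simp only [ttD8a_1, List.mem_cons, List.not_mem_nil, or_false] at hT
  rcases hT with rfl | rfl
  · exact tord8a_6_ok
  · exact tord8a_7_ok

/-- all tables -/
def ttD8a : List TorT :=
  ttD8a_0 ++ ttD8a_1

theorem ttD8a_ok : ∀ T ∈ ttD8a, T.OK 8 := by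
  intro T hT
  unfold ttD8a at hT
  rcases List.mem_append.1 hT with hT | hT
  · exact ttD8a_0_ok T hT
  exact ttD8a_1_ok T hT

end Pool.Agent.Lib_MP_fa6e45
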