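import Pool.Agent.Lib_MP_fa6e45.CT5

/-!
MP_fa6e45_co, stage 9: straight-side patterns with `8` sides, tables of tori (generated by a program).
-/

namespace Pool.Agent.Lib_MP_fa6e45

/-- the torus -/
def ttd8a_0 : TT where
  k := 4
  rf := [false, false, true, true]
  tau := [8, 16, 17, 18, 28, 13, 21, 31, 0, 24, 25, 26, 20, 5, 29, 23, 1, 2, 3, 27, 12, 6, 30, 15, 9, 10, 11, 19, 4,
    14, 22, 7]
  par := [0, 0, 1, 4]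
  stars := [[0, 24, 9], [1, 8, 16], [2, 17], [3, 18], [4, 19, 28], [5, 29, 14], [6, 13, 21], [7, 22, 31], [10, 25],
    [11, 26], [12, 27, 20], [15, 30, 23]]
  word := [[], [], [], [], [], [3], [3, 0], [3, 0, 2], [], [0], [0], [0], [0], [2], [2], [], [], [], [], [], [1], [1,
    2], [2], [], [1], [1], [1], [], [], [3], [3], [3, 1, 2]]
  rank := [0, 0, 1, 2, 0, 1, 5, 6, 0, 2, 1, 0, 4, 1, 0, 1, 0, 1, 2, 3, 4, 5, 2, 1, 2, 1, 0, 3, 0, 0, 2, 6]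
  just := [0, 0, 2, 3, 0, 5, 6, 7, 0, 8, 9, 0, 10, 5, 0, 1, 0, 2, 3, 4, 10, 6, 11, 1, 8, 9, 0, 4, 0, 0, 11, 7]
  gA := 11
  gB := 14
  fin := 0
  sid := [0, 1, 2, 3, 4, 5, 6, 7, 1, 0, 8, 9, 10, 6, 5, 11, 1, 2, 3, 4, 10, 6, 7, 11, 0, 8, 9, 10, 4, 5, 11, 7]
  off := [(0, 0), (0, 0), (0, 0), (0, 0), (0, 0), (0, 0), (0, 0), (0, 0), (0, 0), (0, 0), (0, 0), (0, 0), (0, 0), (0,
    1), (0, 1), (0, 0), (0, 0), (0, 0), (0, 0), (0, 0), (-1, 0), (-1, 1), (-1, 1), (0, 0), (-1, 0), (-1, 0), (-1, 0),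
    (-1, 0), (0, 0), (0, 0), (0, -1), (-1, 0)]

/-- glued arcs and equations -/
def tord8a_0 : TorT :=
  ⟨[(0, 0, true), (0, 1, false), (1, 2, false), (2, 3, false), (3, 3, true), (4, 4, false), (5, 5, true), (5, 6,
    false), (6, 6, true), (7, 7, false)],
    [([0, 0, 0, 0, 0, 0, 1, 2], 2), ([0, 0, 0, 0, 0, 2, 1, 0], 2), ([0, 0, 0, 1, 2, 0, 0, 0], 2), ([0, 0, 1, 1, 0, 0,
    0, 0], 2), ([0, 1, 1, 0, 0, 0, 0, 0], 2), ([2, 1, 0, 0, 0, 0, 0, 0], 2)]⟩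

theorem tord8a_0_ok : tord8a_0.OK 8 := TT.leaf_ok (T := ttd8a_0) (by decide +kernel)

/-- the torus -/
def ttd8a_1 : TT where
  k := 6
  rf := [false, false, false, true, true, true]
  tau := [9, 16, 24, 25, 26, 27, 38, 47, 17, 0, 40, 41, 42, 43, 30, 39, 1, 8, 32, 33, 34, 35, 46, 31, 2, 3, 4, 5, 37,
    44, 14, 23, 18, 19, 20, 21, 45, 28, 6, 15, 10, 11, 12, 13, 29, 36, 22, 7]
  par := [0, 0, 1, 2, 6, 7]
  stars := [[0, 40, 10], [1, 9, 17], [2, 16, 24], [3, 25], [4, 26], [5, 27], [6, 28, 38], [7, 39, 15, 31, 23, 47],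
    [8, 32, 18], [11, 41], [12, 42], [13, 43], [14, 44, 30], [19, 33], [20, 34], [21, 35], [22, 36, 46], [29, 45, 37]]
  word := [[], [], [], [], [], [], [], [], [], [], [0, 3, 1, 2], [0, 3, 1, 2], [0, 3, 1, 2], [0, 3, 1, 2], [0, 3, 1],
    [0], [], [], [0], [0], [0], [0], [0, 2], [], [], [], [], [], [], [2], [0, 2, 1], [], [1], [1], [1], [1], [2], [],
    [], [1], [3, 0, 2, 1], [3, 0, 2, 1], [3, 0, 2, 1], [3, 0, 2, 1], [3], [3], [3, 1], []]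
  rank := [0, 0, 0, 1, 2, 3, 0, 0, 1, 0, 9, 8, 7, 6, 4, 3, 0, 1, 2, 1, 0, 1, 2, 1, 0, 1, 2, 3, 4, 5, 4, 1, 2, 1, 0,
    1, 0, 4, 0, 3, 9, 8, 7, 6, 5, 0, 2, 0]
  just := [0, 0, 0, 3, 4, 5, 0, 0, 1, 0, 9, 10, 11, 12, 7, 8, 0, 1, 13, 14, 0, 15, 16, 2, 0, 3, 4, 5, 6, 17, 7, 2,
    13, 14, 0, 15, 0, 6, 0, 8, 9, 10, 11, 12, 17, 0, 16, 0]
  gA := 20
  gB := 36
  fin := 0
  sid := [0, 1, 2, 3, 4, 5, 6, 7, 8, 1, 0, 9, 10, 11, 12, 7, 2, 1, 8, 13, 14, 15, 16, 7, 2, 3, 4, 5, 6, 17, 12, 7, 8,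
    13, 14, 15, 16, 17, 6, 7, 0, 9, 10, 11, 12, 17, 16, 7]
  off := [(0, 0), (0, 0), (0, 0), (0, 0), (0, 0), (0, 0), (0, 0), (0, 0), (0, 0), (0, 0), (0, 0), (0, 0), (0, 0), (0,
    0), (0, 0), (1, 0), (0, 0), (0, 0), (0, 0), (0, 0), (0, 0), (0, 0), (0, 0), (1, 1), (0, 0), (0, 0), (0, 0), (0,
    0), (0, 0), (0, 0), (0, 1), (1, 1), (-1, 0), (-1, 0), (-1, 0), (-1, 0), (-1, 0), (0, 0), (0, 0), (0, 0), (0, 0),
    (0, 0), (0, 0), (0, 0), (0, 0), (0, -1), (-1, -1), (0, 0)]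

/-- glued arcs and equations -/
def tord8a_1 : TorT :=
  ⟨[(0, 1, true), (0, 2, false), (1, 3, false), (2, 4, false), (3, 5, false), (4, 5, true), (6, 6, false), (7, 7,
    false)],
    [([0, 0, 0, 0, 0, 0, 0, 6], 2), ([0, 0, 0, 0, 0, 3, 0, 0], 2), ([0, 0, 0, 0, 1, 0, 2, 0], 2), ([0, 0, 0, 1, 0, 1,
    0, 0], 2), ([0, 0, 1, 0, 1, 0, 0, 0], 2), ([0, 1, 0, 1, 0, 0, 0, 0], 2), ([0, 3, 0, 0, 0, 0, 0, 0], 2), ([2, 0,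
    1, 0, 0, 0, 0, 0], 2)]⟩

theorem tord8a_1_ok : tord8a_1.OK 8 := TT.leaf_ok (T := ttd8a_1) (by decide +kernel)

/-- the torus -/
def ttd8a_2 : TT where
  k := 8
  rf := [false, false, false, true, true, true, false, true]
  tau := [9, 16, 24, 25, 26, 27, 38, 47, 49, 0, 40, 41, 42, 43, 30, 63, 1, 48, 32, 33, 34, 35, 62, 31, 2, 3, 4, 5,
    37, 44, 14, 23, 18, 19, 20, 21, 61, 28, 6, 55, 10, 11, 12, 13, 29, 60, 54, 7, 17, 8, 56, 57, 58, 59, 46, 39, 50,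
    51, 52, 53, 45, 36, 22, 15]
  par := [0, 0, 1, 2, 6, 7, 8, 15]
  stars := [[0, 40, 10], [1, 9, 49, 17], [2, 16, 24], [3, 25], [4, 26], [5, 27], [6, 28, 38], [7, 39, 55, 47], [8,
    56, 50], [11, 41], [12, 42], [13, 43], [14, 44, 30], [15, 31, 23, 63], [18, 48, 32], [19, 33], [20, 34], [21,
    35], [22, 36, 62], [29, 45, 61, 37], [46, 54, 60], [51, 57], [52, 58], [53, 59]]
  word := [[], [], [], [], [], [], [], [], [], [], [3, 1, 2, 0], [3, 1, 2, 0], [3, 1, 2, 0], [3, 1, 2, 0], [3, 1],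
    [], [], [], [0], [0], [0], [0], [0, 2], [], [], [], [], [], [], [2, 0], [0, 2], [], [1], [1], [1], [1], [2], [],
    [], [1], [1, 3, 0, 2], [1, 3, 0, 2], [1, 3, 0, 2], [1, 3, 0, 2], [1, 3], [1], [1], [], [], [], [], [], [], [],
    [0], [0], [], [], [], [], [0], [3], [3, 1], []]
  rank := [0, 0, 0, 1, 2, 3, 0, 0, 0, 0, 10, 9, 8, 7, 5, 0, 0, 1, 0, 1, 2, 3, 4, 1, 0, 1, 2, 3, 4, 6, 5, 1, 0, 1, 2,
    3, 0, 4, 0, 2, 10, 9, 8, 7, 6, 5, 3, 0, 1, 0, 1, 2, 3, 4, 3, 2, 1, 2, 3, 4, 5, 0, 4, 0]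
  just := [0, 0, 0, 3, 4, 5, 0, 0, 0, 0, 9, 10, 11, 12, 13, 0, 0, 1, 0, 15, 16, 17, 18, 2, 0, 3, 4, 5, 6, 19, 13, 2,
    0, 15, 16, 17, 0, 6, 0, 14, 9, 10, 11, 12, 19, 20, 7, 0, 1, 0, 8, 21, 22, 23, 7, 14, 8, 21, 22, 23, 20, 0, 18, 0]
  gA := 18
  gB := 36
  fin := 0
  sid := [0, 1, 2, 3, 4, 5, 6, 7, 8, 1, 0, 9, 10, 11, 12, 13, 2, 1, 14, 15, 16, 17, 18, 13, 2, 3, 4, 5, 6, 19, 12,
    13, 14, 15, 16, 17, 18, 19, 6, 7, 0, 9, 10, 11, 12, 19, 20, 7, 14, 1, 8, 21, 22, 23, 20, 7, 8, 21, 22, 23, 20,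
    19, 18, 13]
  off := [(0, 0), (0, 0), (0, 0), (0, 0), (0, 0), (0, 0), (0, 0), (0, 0), (0, 0), (0, 0), (0, 0), (0, 0), (0, 0), (0,
    0), (0, 0), (0, 0), (0, 0), (0, 0), (0, 0), (0, 0), (0, 0), (0, 0), (0, 0), (1, 1), (0, 0), (0, 0), (0, 0), (0,
    0), (0, 0), (0, 0), (1, 1), (1, 1), (-1, 0), (-1, 0), (-1, 0), (-1, 0), (-1, 0), (0, 0), (0, 0), (0, 0), (0, 0),
    (0, 0), (0, 0), (0, 0), (0, 0), (-1, -1), (0, 0), (0, 0), (0, 0), (0, 0), (0, 0), (0, 0), (0, 0), (0, 0), (1, 0),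
    (1, 0), (0, 0), (0, 0), (0, 0), (0, 0), (1, 0), (0, -1), (-1, -1), (0, 0)]

/-- glued arcs and equations -/
def tord8a_2 : TorT :=
  ⟨[(0, 1, true), (0, 2, false), (1, 3, false), (2, 4, false), (3, 5, false), (4, 5, true), (6, 6, false), (7, 7,
    false)],
    [([0, 0, 0, 0, 0, 0, 0, 4], 2), ([0, 0, 0, 0, 0, 4, 0, 0], 2), ([0, 0, 0, 0, 1, 0, 2, 0], 2), ([0, 0, 0, 1, 0, 1,
    0, 0], 2), ([0, 0, 1, 0, 1, 0, 0, 0], 2), ([0, 1, 0, 1, 0, 0, 0, 0], 2), ([0, 4, 0, 0, 0, 0, 0, 0], 2), ([2, 0,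
    1, 0, 0, 0, 0, 0], 2)]⟩

theorem tord8a_2_ok : tord8a_2.OK 8 := TT.leaf_ok (T := ttd8a_2) (by decide +kernel)

/-- the torus -/
def ttd8a_3 : TT where
  k := 8
  rf := [false, false, false, false, false, false, false, false]
  tau := [10, 9, 8, 16, 31, 30, 21, 20, 2, 1, 0, 32, 47, 46, 37, 36, 3, 35, 34, 33, 7, 6, 53, 52, 51, 43, 42, 41, 55,
    54, 5, 4, 11, 19, 18, 17, 15, 14, 61, 60, 59, 27, 26, 25, 63, 62, 13, 12, 58, 57, 56, 24, 23, 22, 29, 28, 50, 49,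
    48, 40, 39, 38, 45, 44]
  par := [0, 0, 3, 4, 11, 12, 22, 38]
  stars := [[0, 20, 33, 11], [1, 10], [2, 9], [3, 8, 36, 17], [4, 16, 52, 24], [5, 31], [6, 30, 54, 22], [7, 21],
    [12, 32, 60, 40], [13, 47], [14, 46, 62, 38], [15, 37], [18, 35], [19, 34], [23, 53], [25, 51, 56, 44], [26, 43],
    [27, 42], [28, 41, 59, 48], [29, 55], [39, 61], [45, 63], [49, 58], [50, 57]]
  word := [[], [], [], [], [], [], [2, 1, 3], [2, 1, 3], [], [], [], [], [], [], [0], [0], [], [0], [0], [0], [2, 0,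
    3], [2, 0, 3], [], [], [], [2, 1], [2, 1], [2, 1], [2, 1, 3], [2, 1, 3], [], [], [], [1], [1], [1], [1], [1], [],
    [], [], [0, 3], [0, 3], [0, 3], [0], [0], [], [], [2], [2], [2], [], [], [], [2, 0, 3], [2, 0, 3], [3], [3], [3],
    [], [], [], [1], [1]]
  rank := [0, 1, 2, 0, 0, 1, 8, 9, 2, 1, 0, 0, 0, 1, 2, 3, 0, 4, 5, 6, 9, 8, 0, 1, 2, 3, 4, 5, 6, 7, 1, 0, 0, 6, 5,
    4, 3, 2, 0, 1, 2, 5, 4, 3, 0, 1, 1, 0, 2, 1, 0, 2, 1, 0, 7, 6, 0, 1, 2, 2, 1, 0, 1, 0]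
  just := [0, 1, 2, 0, 0, 5, 6, 7, 2, 1, 0, 0, 0, 9, 10, 11, 0, 3, 12, 13, 7, 6, 0, 14, 4, 15, 16, 17, 18, 19, 5, 0,
    0, 13, 12, 3, 11, 10, 0, 20, 8, 17, 16, 15, 0, 21, 9, 0, 22, 23, 0, 4, 14, 0, 19, 18, 0, 23, 22, 8, 20, 0, 21, 0]
  gA := 44
  gB := 50
  fin := 0
  sid := [0, 1, 2, 3, 4, 5, 6, 7, 3, 2, 1, 0, 8, 9, 10, 11, 4, 3, 12, 13, 0, 7, 6, 14, 4, 15, 16, 17, 18, 19, 6, 5,
    8, 0, 13, 12, 3, 11, 10, 20, 8, 18, 17, 16, 15, 21, 10, 9, 18, 22, 23, 15, 4, 14, 6, 19, 15, 23, 22, 18, 8, 20,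
    10, 21]
  off := [(0, 0), (0, 0), (0, 0), (0, 0), (0, 0), (0, 0), (0, 0), (0, 0), (0, 0), (0, 0), (0, 0), (0, 0), (0, 0), (0,
    0), (0, 0), (0, 0), (0, 0), (0, 0), (0, 0), (0, 0), (1, 0), (1, 0), (1, 0), (0, 0), (0, 0), (0, 0), (0, 0), (0,
    0), (0, 0), (0, 0), (0, 0), (0, 0), (0, 0), (0, 0), (-1, 0), (-1, 0), (-1, 0), (-1, 0), (-1, 0), (0, 0), (0, 0),
    (1, -1), (1, -1), (1, -1), (1, -1), (0, 0), (0, 0), (0, 0), (1, 0), (0, 0), (0, 0), (0, 0), (0, 0), (0, 0), (1,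
    0), (1, 0), (0, -1), (0, -1), (0, -1), (1, -1), (0, 0), (0, 0), (-1, 0), (-1, 0)]

/-- glued arcs and equations -/
def tord8a_3 : TorT :=
  ⟨[(0, 2, true), (0, 3, true), (1, 1, true), (1, 3, true), (2, 2, true), (4, 7, true), (5, 6, true)],
    [([0, 0, 0, 0, 0, 0, 4, 0], 2), ([0, 0, 0, 0, 0, 1, 0, 1], 2), ([0, 0, 1, 1, 0, 0, 0, 0], 2), ([0, 1, 1, 0, 0, 0,
    0, 0], 2), ([1, 1, 0, 1, 1, 0, 0, 0], 2), ([2, 0, 0, 0, 2, 0, 0, 0], 2)]⟩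

theorem tord8a_3_ok : tord8a_3.OK 8 := TT.leaf_ok (T := ttd8a_3) (by decide +kernel)

/-- the torus -/
def ttd8a_4 : TT where
  k := 4
  rf := [false, true, true, false]
  tau := [9, 19, 20, 21, 22, 8, 30, 31, 5, 0, 18, 25, 26, 27, 28, 23, 29, 24, 10, 1, 2, 3, 4, 15, 17, 11, 12, 13, 14,
    16, 6, 7]
  par := [0, 0, 1, 6]
  stars := [[0, 31, 6, 9], [1, 10, 19], [2, 20], [3, 21], [4, 22], [5, 23, 8], [7, 30, 17, 24], [11, 25, 18], [12,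
    26], [13, 27], [14, 28], [15, 16, 29]]
  word := [[], [], [], [], [], [2, 1], [], [3, 0], [0, 3], [], [], [0], [0], [0], [0], [0, 3], [2], [0], [], [], [],
    [], [], [2, 1], [1], [1], [1], [1], [1], [3], [], [1, 2]]
  rank := [0, 0, 1, 2, 3, 4, 0, 3, 4, 0, 1, 1, 0, 1, 2, 3, 0, 2, 1, 0, 1, 2, 3, 3, 2, 1, 0, 1, 2, 0, 0, 3]
  just := [0, 0, 2, 3, 4, 5, 0, 6, 5, 0, 1, 8, 0, 9, 10, 11, 0, 7, 1, 0, 2, 3, 4, 11, 7, 8, 0, 9, 10, 0, 0, 6]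
  gA := 12
  gB := 16
  fin := 0
  sid := [0, 1, 2, 3, 4, 5, 0, 6, 5, 0, 1, 7, 8, 9, 10, 11, 11, 6, 7, 1, 2, 3, 4, 5, 6, 7, 8, 9, 10, 11, 6, 0]
  off := [(0, 0), (0, 0), (0, 0), (0, 0), (0, 0), (0, 0), (-1, 1), (0, 0), (1, -1), (0, 0), (0, 0), (0, 0), (0, 0),
    (0, 0), (0, 0), (0, 0), (-1, 1), (0, 1), (0, 0), (0, 0), (0, 0), (0, 0), (0, 0), (0, 0), (-1, 1), (-1, 0), (-1,
    0), (-1, 0), (-1, 0), (-1, 0), (0, 0), (-1, 1)]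

/-- glued arcs and equations -/
def tord8a_4 : TorT :=
  ⟨[(0, 1, false), (0, 5, false), (1, 3, false), (2, 2, true), (2, 4, false), (3, 5, false), (4, 6, false), (6, 6,
    true), (7, 7, true)],
    [([0, 0, 0, 0, 1, 0, 1, 0], 2), ([0, 0, 0, 1, 0, 1, 0, 0], 2), ([0, 0, 1, 0, 1, 0, 0, 0], 2), ([0, 1, 1, 1, 0, 0,
    0, 0], 2), ([1, 0, 0, 0, 0, 1, 0, 1], 2), ([1, 1, 0, 0, 0, 0, 1, 1], 2)]⟩

theorem tord8a_4_ok : tord8a_4.OK 8 := TT.leaf_ok (T := ttd8a_4) (by decide +kernel)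

/-- the torus -/
def ttd8a_5 : TT where
  k := 4
  rf := [false, true, true, false]
  tau := [9, 19, 20, 21, 15, 8, 30, 31, 5, 0, 18, 25, 26, 27, 22, 4, 29, 24, 10, 1, 2, 3, 14, 28, 17, 11, 12, 13, 23,
    16, 6, 7]
  par := [0, 0, 1, 6]
  stars := [[0, 31, 6, 9], [1, 10, 19], [2, 20], [3, 21], [4, 22, 15], [5, 8], [7, 30, 17, 24], [11, 25, 18], [12,
    26], [13, 27], [14, 23, 28], [16, 29]]
  word := [[], [], [], [], [2, 1], [2, 1], [], [3, 0], [0, 3], [], [], [0], [0], [0], [0, 3], [0, 3], [2], [0], [],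
    [], [], [], [2, 1], [2], [1], [1], [1], [1], [3], [3], [], [1, 2]]
  rank := [0, 0, 1, 2, 3, 4, 0, 3, 4, 0, 1, 1, 0, 1, 2, 3, 1, 2, 1, 0, 1, 2, 2, 0, 2, 1, 0, 1, 0, 1, 0, 3]
  just := [0, 0, 2, 3, 4, 5, 0, 6, 5, 0, 1, 8, 0, 9, 10, 4, 11, 7, 1, 0, 2, 3, 10, 0, 7, 8, 0, 9, 0, 11, 0, 6]
  gA := 12
  gB := 23
  fin := 0
  sid := [0, 1, 2, 3, 4, 5, 0, 6, 5, 0, 1, 7, 8, 9, 10, 4, 11, 6, 7, 1, 2, 3, 4, 10, 6, 7, 8, 9, 10, 11, 6, 0]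
  off := [(0, 0), (0, 0), (0, 0), (0, 0), (0, 0), (0, 0), (-1, 1), (0, 0), (1, -1), (0, 0), (0, 0), (0, 0), (0, 0),
    (0, 0), (0, 0), (1, -1), (0, 0), (0, 1), (0, 0), (0, 0), (0, 0), (0, 0), (0, 0), (-1, 1), (-1, 1), (-1, 0), (-1,
    0), (-1, 0), (-1, 0), (0, -1), (0, 0), (-1, 1)]

/-- glued arcs and equations -/
def tord8a_5 : TorT :=
  ⟨[(0, 1, false), (0, 5, false), (1, 3, false), (2, 2, true), (2, 4, false), (3, 5, false), (4, 7, false), (6, 6,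
    true), (7, 7, true)],
    [([0, 0, 0, 0, 1, 0, 1, 1], 2), ([0, 0, 0, 1, 0, 1, 0, 0], 2), ([0, 0, 1, 0, 1, 0, 0, 0], 2), ([0, 1, 1, 1, 0, 0,
    0, 0], 2), ([1, 0, 0, 0, 0, 1, 0, 0], 2), ([1, 1, 0, 0, 0, 0, 1, 1], 2)]⟩

theorem tord8a_5_ok : tord8a_5.OK 8 := TT.leaf_ok (T := ttd8a_5) (by decide +kernel)

end Pool.Agent.Lib_MP_fa6e45
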