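import Pool.Agent.Lib_MP_fa6e45.CT5

/-!
MP_fa6e45_co, stage 9: straight-side patterns with `8` sides, tables of tori (generated by a program).
-/

namespace Pool.Agent.Lib_MP_fa6e45

/-- the torus -/
def ttd8b_6 : TT where
  k := 4
  rf := [false, false, false, false]
  tau := [9, 19, 18, 17, 24, 21, 15, 29, 20, 0, 28, 27, 26, 23, 30, 6, 25, 3, 2, 1, 8, 5, 31, 13, 4, 16, 12, 11, 10,
    7, 14, 22]
  par := [0, 0, 1, 4]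
  stars := [[0, 29, 10], [1, 9, 20], [2, 19], [3, 18], [4, 17, 25], [5, 24, 22], [6, 21, 8], [7, 15, 30], [11, 28],
    [12, 27], [13, 26, 16], [14, 23, 31]]
  word := [[], [], [], [], [], [3], [3], [3, 0, 2], [], [], [0], [0], [0], [0], [0, 2], [2], [], [], [], [], [], [2],
    [2], [1], [], [], [1], [1], [1], [3, 1, 2], [3, 1], [3]]
  rank := [0, 0, 1, 2, 0, 1, 2, 6, 1, 0, 2, 1, 0, 4, 5, 2, 3, 2, 1, 0, 1, 1, 0, 4, 0, 3, 0, 1, 2, 6, 5, 0]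
  just := [0, 0, 2, 3, 0, 5, 6, 7, 1, 0, 8, 9, 0, 10, 11, 6, 4, 3, 2, 0, 1, 5, 0, 10, 0, 4, 0, 9, 8, 7, 11, 0]
  gA := 12
  gB := 22
  fin := 0
  sid := [0, 1, 2, 3, 4, 5, 6, 7, 6, 1, 0, 8, 9, 10, 11, 7, 10, 4, 3, 2, 1, 6, 5, 11, 5, 4, 10, 9, 8, 0, 7, 11]
  off := [(0, 0), (0, 0), (0, 0), (0, 0), (0, 0), (0, 0), (0, 0), (0, 0), (0, 1), (0, 0), (0, 0), (0, 0), (0, 0), (0,
    0), (0, 0), (0, 1), (-1, 0), (0, 0), (0, 0), (0, 0), (0, 0), (0, 1), (0, 1), (-1, 0), (0, 0), (0, 0), (-1, 0),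
    (-1, 0), (-1, 0), (-1, 0), (-1, 0), (-1, -1)]

/-- glued arcs and equations -/
def tord8b_6 : TorT :=
  ⟨[(0, 1, true), (0, 4, true), (1, 3, true), (2, 2, true), (2, 4, true), (3, 3, true), (5, 5, true), (5, 7, true),
    (6, 6, true), (6, 7, true)],
    [([0, 0, 0, 0, 0, 0, 1, 2], 2), ([0, 0, 0, 1, 1, 0, 0, 0], 2), ([0, 0, 1, 1, 0, 0, 0, 0], 2), ([0, 2, 0, 0, 1, 0,
    0, 0], 2), ([1, 0, 0, 0, 0, 1, 1, 0], 2), ([1, 0, 1, 0, 0, 1, 0, 0], 2)]⟩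

theorem tord8b_6_ok : tord8b_6.OK 8 := TT.leaf_ok (T := ttd8b_6) (by decide +kernel)

/-- the torus -/
def ttd8b_7 : TT where
  k := 4
  rf := [false, true, false, true]
  tau := [8, 17, 25, 26, 27, 13, 22, 30, 0, 18, 19, 20, 28, 5, 23, 31, 24, 1, 9, 10, 11, 29, 6, 14, 16, 2, 3, 4, 12,
    21, 7, 15]
  par := [0, 0, 1, 2]
  stars := [[0, 31, 8], [1, 9, 18], [2, 17, 25], [3, 26], [4, 27], [5, 28, 13], [6, 14, 23], [7, 22, 30], [10, 19],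
    [11, 20], [12, 29, 21], [15, 24, 16]]
  word := [[], [], [], [], [], [1], [1, 2], [1, 2, 0], [], [], [], [], [0], [0], [2], [2], [], [], [], [], [], [0],
    [3, 0], [3], [], [], [], [], [1], [1], [1, 3, 0], [3]]
  rank := [0, 0, 0, 1, 2, 3, 4, 5, 0, 1, 2, 3, 0, 3, 0, 2, 1, 0, 1, 2, 3, 4, 4, 0, 1, 0, 1, 2, 0, 4, 5, 2]
  just := [0, 0, 0, 3, 4, 5, 6, 7, 0, 1, 8, 9, 0, 5, 0, 11, 2, 0, 1, 8, 9, 10, 6, 0, 2, 0, 3, 4, 0, 10, 7, 11]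
  gA := 12
  gB := 14
  fin := 0
  sid := [0, 1, 2, 3, 4, 5, 6, 7, 0, 1, 8, 9, 10, 5, 6, 11, 11, 2, 1, 8, 9, 10, 7, 6, 11, 2, 3, 4, 5, 10, 7, 0]
  off := [(0, 0), (0, 0), (0, 0), (0, 0), (0, 0), (0, 0), (0, 0), (0, 0), (0, 0), (0, 0), (0, 0), (0, 0), (0, 0), (1,
    0), (1, 0), (0, 0), (0, -1), (0, 0), (0, 0), (0, 0), (0, 0), (0, 0), (1, -1), (1, -1), (0, -1), (0, 0), (0, 0),
    (0, 0), (0, 0), (-1, 0), (0, -1), (0, -1)]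

/-- glued arcs and equations -/
def tord8b_7 : TorT :=
  ⟨[(0, 0, false), (1, 1, true), (1, 2, false), (2, 3, false), (3, 4, false), (4, 4, true), (5, 5, false), (6, 6,
    true), (6, 7, false), (7, 7, true)],
    [([0, 0, 0, 0, 0, 0, 2, 1], 2), ([0, 0, 0, 0, 1, 2, 0, 0], 2), ([0, 0, 0, 1, 1, 0, 0, 0], 2), ([0, 0, 1, 1, 0, 0,
    0, 0], 2), ([0, 2, 1, 0, 0, 0, 0, 0], 2), ([2, 0, 0, 0, 0, 0, 0, 1], 2)]⟩

theorem tord8b_7_ok : tord8b_7.OK 8 := TT.leaf_ok (T := ttd8b_7) (by decide +kernel)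

/-- the torus -/
def ttd8b_8 : TT where
  k := 4
  rf := [false, false, false, false]
  tau := [9, 19, 18, 17, 24, 14, 22, 29, 20, 0, 28, 27, 26, 23, 5, 31, 25, 3, 2, 1, 8, 30, 6, 13, 4, 16, 12, 11, 10,
    7, 21, 15]
  par := [0, 0, 1, 4]
  stars := [[0, 29, 10], [1, 9, 20], [2, 19], [3, 18], [4, 17, 25], [5, 24, 15], [6, 14, 23], [7, 22, 30], [8, 31,
    21], [11, 28], [12, 27], [13, 26, 16]]
  word := [[], [], [], [], [], [3], [3, 0], [3, 0, 2], [], [], [0], [0], [0], [0], [2], [2], [], [], [], [], [], [2],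
    [1, 2], [1], [], [], [1], [1], [1], [3, 1, 2], [3], [3]]
  rank := [0, 0, 1, 2, 0, 1, 5, 6, 1, 0, 2, 1, 0, 4, 1, 0, 3, 2, 1, 0, 1, 2, 5, 4, 0, 3, 0, 1, 2, 6, 2, 0]
  just := [0, 0, 2, 3, 0, 5, 6, 7, 1, 0, 9, 10, 0, 11, 5, 0, 4, 3, 2, 0, 1, 8, 6, 11, 0, 4, 0, 10, 9, 7, 8, 0]
  gA := 12
  gB := 15
  fin := 0
  sid := [0, 1, 2, 3, 4, 5, 6, 7, 8, 1, 0, 9, 10, 11, 6, 5, 11, 4, 3, 2, 1, 8, 7, 6, 5, 4, 11, 10, 9, 0, 7, 8]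
  off := [(0, 0), (0, 0), (0, 0), (0, 0), (0, 0), (0, 0), (0, 0), (0, 0), (0, 0), (0, 0), (0, 0), (0, 0), (0, 0), (0,
    0), (0, 1), (0, 1), (-1, 0), (0, 0), (0, 0), (0, 0), (0, 0), (0, 0), (-1, 1), (-1, 1), (0, 0), (0, 0), (-1, 0),
    (-1, 0), (-1, 0), (-1, 0), (-1, 0), (0, -1)]

/-- glued arcs and equations -/
def tord8b_8 : TorT :=
  ⟨[(0, 1, true), (0, 4, true), (1, 3, true), (2, 2, true), (2, 4, true), (3, 3, true), (5, 6, true), (5, 7, true),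
    (6, 6, true), (7, 7, true)],
    [([0, 0, 0, 0, 0, 0, 2, 1], 2), ([0, 0, 0, 1, 1, 0, 0, 0], 2), ([0, 0, 1, 1, 0, 0, 0, 0], 2), ([0, 2, 0, 0, 1, 0,
    0, 0], 2), ([1, 0, 0, 0, 0, 1, 0, 1], 2), ([1, 0, 1, 0, 0, 1, 0, 0], 2)]⟩

theorem tord8b_8_ok : tord8b_8.OK 8 := TT.leaf_ok (T := ttd8b_8) (by decide +kernel)

/-- the torus -/
def ttd8b_9 : TT where
  k := 4
  rf := [false, false, false, false]
  tau := [8, 20, 19, 25, 24, 13, 23, 29, 0, 28, 27, 17, 16, 5, 31, 21, 12, 11, 26, 2, 1, 15, 30, 6, 4, 3, 18, 10, 9,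
    7, 22, 14]
  par := [0, 0, 1, 3]
  stars := [[0, 29, 9], [1, 8, 21], [2, 20], [3, 19, 26], [4, 25], [5, 24, 14], [6, 13, 16], [7, 23, 30], [10, 28],
    [11, 27, 18], [12, 17], [15, 31, 22]]
  word := [[], [], [], [], [], [3], [3, 0], [3, 0, 2], [], [0], [0], [0], [0], [2], [2], [], [1], [1], [], [], [],
    [], [2], [1, 2], [], [], [], [1], [1], [3, 1, 2], [3], [3]]
  rank := [0, 0, 1, 0, 1, 2, 3, 4, 0, 4, 3, 0, 1, 2, 0, 1, 1, 0, 2, 1, 0, 1, 2, 3, 1, 0, 2, 3, 4, 4, 2, 0]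
  just := [0, 0, 2, 0, 4, 5, 6, 7, 0, 8, 9, 0, 10, 5, 0, 1, 10, 0, 3, 2, 0, 1, 11, 6, 4, 0, 3, 9, 8, 7, 11, 0]
  gA := 11
  gB := 14
  fin := 0
  sid := [0, 1, 2, 3, 4, 5, 6, 7, 1, 0, 8, 9, 10, 6, 5, 11, 6, 10, 9, 3, 2, 1, 11, 7, 5, 4, 3, 9, 8, 0, 7, 11]
  off := [(0, 0), (0, 0), (0, 0), (0, 0), (0, 0), (0, 0), (0, 0), (0, 0), (0, 0), (0, 0), (0, 0), (0, 0), (0, 0), (0,
    1), (0, 1), (0, 0), (-1, 1), (-1, 0), (-1, 0), (0, 0), (0, 0), (0, 0), (0, 0), (-1, 1), (0, 0), (0, 0), (0, 0),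
    (-1, 0), (-1, 0), (-1, 0), (-1, 0), (0, -1)]

/-- glued arcs and equations -/
def tord8b_9 : TorT :=
  ⟨[(0, 0, true), (0, 4, true), (1, 3, true), (1, 4, true), (2, 2, true), (2, 3, true), (5, 5, true), (5, 7, true),
    (6, 6, true), (6, 7, true)],
    [([0, 0, 0, 0, 0, 0, 1, 2], 2), ([0, 0, 1, 0, 1, 0, 0, 0], 2), ([0, 0, 1, 2, 0, 0, 0, 0], 2), ([0, 1, 0, 0, 1, 0,
    0, 0], 2), ([1, 0, 0, 0, 0, 1, 1, 0], 2), ([1, 1, 0, 0, 0, 1, 0, 0], 2)]⟩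

theorem tord8b_9_ok : tord8b_9.OK 8 := TT.leaf_ok (T := ttd8b_9) (by decide +kernel)

/-- the torus -/
def ttd8b_10 : TT where
  k := 4
  rf := [false, false, false, false]
  tau := [8, 20, 19, 25, 24, 22, 14, 29, 0, 28, 27, 17, 16, 30, 6, 21, 12, 11, 26, 2, 1, 15, 5, 31, 4, 3, 18, 10, 9,
    7, 13, 23]
  par := [0, 0, 1, 3]
  stars := [[0, 29, 9], [1, 8, 21], [2, 20], [3, 19, 26], [4, 25], [5, 24, 23], [6, 22, 15], [7, 14, 30], [10, 28],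
    [11, 27, 18], [12, 17], [13, 16, 31]]
  word := [[], [], [], [], [], [3], [3], [3, 0, 2], [], [0], [0], [0], [0], [0, 2], [2], [], [1], [1], [], [], [],
    [], [2], [2], [], [], [], [1], [1], [3, 1, 2], [3, 1], [3]]
  rank := [0, 0, 1, 0, 1, 2, 3, 4, 0, 4, 3, 0, 1, 2, 3, 1, 1, 0, 2, 1, 0, 1, 2, 0, 1, 0, 2, 3, 4, 4, 2, 0]
  just := [0, 0, 2, 0, 4, 5, 6, 7, 0, 8, 9, 0, 10, 11, 6, 1, 10, 0, 3, 2, 0, 1, 5, 0, 4, 0, 3, 9, 8, 7, 11, 0]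
  gA := 11
  gB := 23
  fin := 0
  sid := [0, 1, 2, 3, 4, 5, 6, 7, 1, 0, 8, 9, 10, 11, 7, 6, 11, 10, 9, 3, 2, 1, 6, 5, 5, 4, 3, 9, 8, 0, 7, 11]
  off := [(0, 0), (0, 0), (0, 0), (0, 0), (0, 0), (0, 0), (0, 0), (0, 0), (0, 0), (0, 0), (0, 0), (0, 0), (0, 0), (0,
    0), (0, 1), (0, 1), (-1, 0), (-1, 0), (-1, 0), (0, 0), (0, 0), (0, 0), (0, 1), (0, 1), (0, 0), (0, 0), (0, 0),
    (-1, 0), (-1, 0), (-1, 0), (-1, 0), (-1, -1)]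

/-- glued arcs and equations -/
def tord8b_10 : TorT :=
  ⟨[(0, 0, true), (0, 4, true), (1, 3, true), (1, 4, true), (2, 2, true), (2, 3, true), (5, 6, true), (5, 7, true),
    (6, 6, true), (7, 7, true)],
    [([0, 0, 0, 0, 0, 0, 2, 1], 2), ([0, 0, 1, 0, 1, 0, 0, 0], 2), ([0, 0, 1, 2, 0, 0, 0, 0], 2), ([0, 1, 0, 0, 1, 0,
    0, 0], 2), ([1, 0, 0, 0, 0, 1, 0, 1], 2), ([1, 1, 0, 0, 0, 1, 0, 0], 2)]⟩

theorem tord8b_10_ok : tord8b_10.OK 8 := TT.leaf_ok (T := ttd8b_10) (by decide +kernel)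

/-- the torus -/
def ttd8b_11 : TT where
  k := 8
  rf := [false, false, false, false, true, true, true, true]
  tau := [11, 10, 17, 16, 23, 19, 18, 12, 30, 13, 1, 0, 7, 9, 24, 31, 3, 2, 6, 5, 36, 34, 35, 4, 14, 29, 45, 46, 44,
    25, 8, 15, 54, 37, 21, 22, 20, 33, 48, 55, 59, 58, 62, 61, 28, 26, 27, 60, 38, 53, 57, 56, 63, 49, 32, 39, 51,
    50, 41, 40, 47, 43, 42, 52]
  par := [0, 0, 2, 8, 20, 26, 32, 40]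
  stars := [[0, 12], [1, 11], [2, 10, 13, 7, 18], [3, 17], [4, 16], [5, 23, 36, 20], [6, 19], [8, 31], [9, 30, 25,
    14], [15, 24], [21, 37, 34], [22, 35], [26, 29, 45], [27, 46], [28, 47, 61, 44], [32, 55], [33, 38, 49, 54], [39,
    48], [40, 60], [41, 59], [42, 63, 53, 50, 58], [43, 62], [51, 57], [52, 56]]
  word := [[], [], [], [], [], [0], [0], [0, 3, 1, 2], [], [3, 1, 2], [], [], [3, 0, 2, 1], [3, 0, 2], [], [], [],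
    [], [1], [1], [], [0], [0], [], [], [3, 0, 2], [], [], [3, 1, 2], [3, 1, 2], [], [], [], [1], [1], [1], [], [0],
    [], [], [], [], [3, 0, 2], [3, 0, 2], [3, 0, 2], [], [], [], [], [0], [2], [2], [2], [1], [], [], [3], [3], [],
    [], [], [3, 1, 2], [3, 1, 2], [3]]
  rank := [0, 1, 0, 1, 2, 6, 7, 8, 0, 6, 1, 0, 8, 6, 2, 1, 1, 0, 7, 6, 0, 4, 5, 2, 2, 5, 0, 1, 4, 5, 0, 1, 0, 3, 4,
    5, 0, 3, 2, 1, 0, 1, 2, 3, 4, 0, 1, 1, 2, 0, 1, 0, 1, 0, 0, 1, 0, 1, 1, 0, 1, 3, 2, 1]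
  just := [0, 1, 0, 3, 4, 5, 6, 2, 0, 8, 1, 0, 2, 8, 9, 7, 3, 0, 6, 5, 0, 10, 11, 4, 9, 12, 0, 13, 14, 12, 0, 7, 0,
    16, 10, 11, 0, 16, 17, 15, 0, 19, 20, 21, 14, 0, 13, 18, 17, 0, 22, 0, 23, 0, 0, 15, 0, 22, 19, 0, 18, 21, 20, 23]
  gA := 49
  gB := 51
  fin := 0
  sid := [0, 1, 2, 3, 4, 5, 6, 2, 7, 8, 2, 1, 0, 2, 8, 9, 4, 3, 2, 6, 5, 10, 11, 5, 9, 8, 12, 13, 14, 12, 8, 7, 15,
    16, 10, 11, 5, 10, 16, 17, 18, 19, 20, 21, 14, 12, 13, 14, 17, 16, 20, 22, 23, 20, 16, 15, 23, 22, 20, 19, 18,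
    14, 21, 20]
  off := [(0, 0), (0, 0), (0, 0), (0, 0), (0, 0), (0, 0), (0, 0), (1, 0), (0, 0), (0, 0), (0, 0), (0, 0), (0, 0), (1,
    0), (1, 0), (0, 0), (0, 0), (0, 0), (0, 0), (-1, 0), (-1, 0), (0, 0), (0, 0), (0, 0), (0, 0), (1, 0), (0, 0), (0,
    0), (0, 0), (-1, 0), (0, 0), (0, 0), (0, 0), (0, 0), (-1, 0), (-1, 0), (-1, 0), (0, 0), (1, 0), (0, 0), (0, 0),
    (0, 0), (0, 0), (0, 0), (1, 0), (0, 0), (0, 0), (0, 0), (0, 0), (1, 0), (0, 1), (0, 0), (0, 0), (-1, 1), (0, 0),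
    (0, 0), (0, -1), (0, -1), (0, 0), (0, 0), (0, 0), (0, 0), (-1, 0), (-1, 0)]

/-- glued arcs and equations -/
def tord8b_11 : TorT :=
  ⟨[(0, 3, true), (0, 6, true), (1, 2, true), (1, 5, true), (2, 5, false), (2, 6, true), (3, 5, true), (3, 6, false),
    (4, 4, false), (4, 7, true), (7, 7, true)],
    [([0, 0, 0, 0, 2, 1, 0, 1], 2), ([0, 0, 0, 1, 0, 0, 1, 0], 2), ([0, 0, 1, 0, 0, 2, 0, 0], 2), ([0, 0, 3, 0, 0, 1,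
    0, 1], 2), ([0, 1, 0, 1, 0, 0, 0, 0], 2), ([0, 2, 0, 0, 0, 0, 2, 0], 2), ([1, 0, 0, 0, 0, 0, 0, 1], 2), ([1, 0,
    0, 0, 1, 0, 0, 0], 2)]⟩

theorem tord8b_11_ok : tord8b_11.OK 8 := TT.leaf_ok (T := ttd8b_11) (by decide +kernel)

end Pool.Agent.Lib_MP_fa6e45
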