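import Pool.Agent.Lib_MP_fa6e45.CT5

/-!
MP_fa6e45_co, stage 9: straight-side patterns with `8` sides, tables of tori (generated by a program).
-/

namespace Pool.Agent.Lib_MP_fa6e45

/-- the torus -/
def ttd8b_60 : TT where
  k := 8
  rf := [false, false, true, false, false, false, true, false]
  tau := [8, 19, 29, 28, 35, 34, 40, 50, 0, 51, 61, 60, 43, 42, 32, 18, 57, 46, 15, 1, 30, 31, 24, 55, 22, 48, 37,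
    36, 3, 2, 20, 21, 14, 41, 5, 4, 27, 26, 49, 47, 6, 33, 13, 12, 59, 58, 17, 39, 25, 38, 7, 9, 62, 63, 56, 23, 54,
    16, 45, 44, 11, 10, 52, 53]
  par := [0, 0, 1, 2, 4, 6, 7, 10]
  stars := [[0, 51, 9], [1, 8, 19], [2, 20, 30], [3, 29], [4, 28, 36], [5, 35], [6, 34, 41], [7, 40, 39, 50], [10,
    52, 62], [11, 61], [12, 60, 44], [13, 43], [14, 42, 33], [15, 32, 47, 18], [16, 57, 55], [17, 46, 58], [21, 31],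
    [22, 24], [23, 48, 25], [26, 49, 38], [27, 37], [45, 59], [53, 63], [54, 56]]
  word := [[], [], [], [], [], [], [], [], [], [0, 3, 1, 2], [], [], [0], [0], [0], [], [0, 2, 1], [0, 2], [], [],
    [], [], [], [2], [], [2], [], [], [], [], [], [], [1], [], [], [], [], [], [2], [2], [], [], [1], [1], [1], [1],
    [3, 1], [3], [3], [3], [], [3, 0, 2, 1], [3, 0, 2, 1], [3, 0, 2, 1], [3, 0, 2, 1], [3], [0, 3, 1, 2], [0, 3, 1],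
    [0], [0], [], [], [0, 3, 1, 2], [0, 3, 1, 2]]
  rank := [0, 0, 0, 1, 0, 1, 0, 0, 0, 9, 0, 1, 0, 1, 3, 1, 5, 4, 1, 0, 1, 2, 3, 5, 3, 4, 3, 2, 1, 0, 1, 2, 3, 2, 1,
    0, 2, 3, 0, 1, 0, 2, 1, 0, 2, 3, 4, 1, 4, 0, 0, 9, 8, 7, 6, 5, 6, 5, 3, 2, 1, 0, 8, 7]
  just := [0, 0, 0, 3, 0, 5, 0, 0, 0, 8, 0, 9, 0, 11, 12, 1, 15, 13, 1, 0, 2, 16, 17, 18, 17, 19, 20, 4, 3, 0, 2, 16,
    12, 6, 5, 0, 4, 20, 0, 7, 0, 6, 11, 0, 10, 21, 13, 7, 19, 0, 0, 8, 22, 23, 14, 18, 14, 15, 21, 10, 9, 0, 22, 23]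
  gA := 12
  gB := 38
  fin := 0
  sid := [0, 1, 2, 3, 4, 5, 6, 7, 1, 0, 8, 9, 10, 11, 12, 13, 14, 15, 13, 1, 2, 16, 17, 18, 17, 18, 19, 20, 4, 3, 2,
    16, 13, 12, 6, 5, 4, 20, 19, 7, 7, 6, 12, 11, 10, 21, 15, 13, 18, 19, 7, 0, 8, 22, 23, 14, 23, 14, 15, 21, 10, 9,
    8, 22]
  off := [(0, 0), (0, 0), (0, 0), (0, 0), (0, 0), (0, 0), (0, 0), (0, 0), (0, 0), (0, 0), (0, 0), (0, 0), (0, 0), (0,
    0), (0, 0), (0, 0), (0, 0), (0, 0), (0, 0), (0, 0), (0, 0), (0, 0), (0, 0), (0, 0), (0, 0), (0, 0), (0, 0), (0,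
    0), (0, 0), (0, 0), (0, 0), (0, 0), (-1, 0), (-1, 0), (0, 0), (0, 0), (0, 0), (0, 0), (0, 0), (0, 1), (0, 0), (0,
    0), (-1, 0), (-1, 0), (-1, 0), (0, 0), (-1, -1), (-1, -1), (0, -1), (0, -1), (0, 0), (0, 0), (0, 0), (0, 0), (0,
    0), (0, -1), (0, 0), (0, -1), (0, -1), (1, 0), (0, 0), (0, 0), (0, 0), (0, 0)]

/-- glued arcs and equations -/
def tord8b_60 : TorT :=
  ⟨[(0, 0, true), (0, 1, false), (0, 6, false), (0, 6, true), (1, 1, true), (1, 3, false), (1, 6, false), (2, 5,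
    true), (2, 7, false), (3, 4, true), (4, 6, false), (5, 7, false), (7, 7, true)],
    [([0, 0, 0, 0, 0, 1, 0, 1], 2), ([0, 0, 0, 0, 3, 0, 0, 0], 2), ([0, 0, 0, 1, 0, 1, 0, 0], 2), ([0, 0, 1, 0, 1, 0,
    1, 0], 2), ([0, 1, 1, 0, 0, 0, 1, 0], 2), ([1, 0, 0, 0, 0, 0, 1, 0], 2), ([1, 0, 1, 0, 0, 0, 0, 2], 2), ([1, 1,
    0, 0, 0, 0, 0, 1], 2), ([1, 1, 0, 1, 0, 0, 0, 0], 2)]⟩

theorem tord8b_60_ok : tord8b_60.OK 8 := TT.leaf_ok (T := ttd8b_60) (by decide +kernel)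

/-- the torus -/
def ttd8b_61 : TT where
  k := 4
  rf := [false, false, true, true]
  tau := [9, 19, 13, 12, 22, 23, 16, 10, 30, 0, 7, 25, 3, 2, 28, 29, 6, 24, 31, 1, 27, 26, 4, 5, 17, 11, 21, 20, 14,
    15, 8, 18]
  par := [0, 0, 1, 8]
  stars := [[0, 10], [1, 9, 31, 19], [2, 20, 28, 14], [3, 13], [4, 12, 26, 22], [5, 23], [6, 16], [7, 17, 25, 11],
    [8, 30], [15, 29], [18, 24], [21, 27]]
  word := [[], [], [2], [2], [0], [0], [0], [0, 3, 1, 2], [], [], [3, 0, 2, 1], [3, 0, 2], [3], [3], [], [], [1], [],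
    [], [], [2], [2], [1], [1], [], [3, 1, 2], [3], [3], [], [], [], []]
  rank := [0, 0, 3, 4, 0, 1, 2, 6, 0, 0, 6, 5, 4, 3, 2, 1, 2, 2, 1, 0, 0, 1, 0, 1, 2, 5, 1, 0, 2, 1, 0, 1]
  just := [0, 0, 2, 3, 0, 5, 6, 7, 0, 0, 7, 4, 3, 2, 9, 8, 6, 10, 1, 0, 0, 11, 0, 5, 10, 4, 11, 0, 9, 8, 0, 1]
  gA := 4
  gB := 20
  fin := 0
  sid := [0, 1, 2, 3, 4, 5, 6, 7, 8, 1, 0, 7, 4, 3, 2, 9, 6, 7, 10, 1, 2, 11, 4, 5, 10, 7, 4, 11, 2, 9, 8, 1]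
  off := [(0, 0), (0, 0), (0, 0), (0, 0), (0, 0), (0, 0), (0, 0), (0, 0), (0, 0), (0, 0), (0, 0), (0, 0), (0, -1),
    (0, -1), (0, -1), (0, 0), (-1, 0), (-1, 0), (0, 0), (0, 0), (0, 0), (0, 0), (-1, 0), (-1, 0), (0, 0), (-1, 0),
    (-1, -1), (0, -1), (0, -1), (0, 0), (0, 0), (0, 0)]

/-- glued arcs and equations -/
def tord8b_61 : TorT :=
  ⟨[(0, 1, true), (0, 6, false), (1, 3, false), (2, 5, true), (2, 7, true), (3, 4, true), (4, 6, false), (5, 7,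
    false)],
    [([0, 0, 0, 0, 0, 1, 0, 1], 2), ([0, 0, 0, 1, 0, 1, 0, 0], 2), ([0, 0, 1, 0, 2, 0, 1, 0], 2), ([0, 2, 0, 1, 0, 0,
    0, 1], 2), ([1, 0, 0, 0, 0, 0, 1, 0], 2), ([1, 0, 1, 0, 0, 0, 0, 0], 2)]⟩

theorem tord8b_61_ok : tord8b_61.OK 8 := TT.leaf_ok (T := ttd8b_61) (by decide +kernel)

/-- the torus -/
def ttd8b_62 : TT where
  k := 4
  rf := [false, false, true, true]
  tau := [8, 19, 10, 28, 22, 23, 25, 26, 0, 27, 2, 20, 30, 31, 17, 18, 24, 14, 15, 1, 11, 29, 4, 5, 16, 6, 7, 9, 3,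
    21, 12, 13]
  par := [0, 0, 1, 3]
  stars := [[0, 27, 9], [1, 8, 19], [2, 20, 11], [3, 10, 28], [4, 29, 22], [5, 23], [6, 16, 25], [7, 26], [12, 21,
    30], [13, 31], [14, 24, 17], [15, 18]]
  word := [[], [], [2, 1], [], [3], [3], [3, 0], [3, 0], [], [0, 3], [0, 3], [0, 3], [0], [0], [], [], [0], [], [],
    [], [2, 1], [2], [2], [2], [1], [1, 2], [1, 2], [2, 1], [], [3], [1], [1]]
  rank := [0, 0, 2, 0, 1, 2, 4, 5, 0, 3, 2, 1, 0, 1, 2, 1, 3, 2, 1, 0, 1, 0, 1, 2, 3, 4, 5, 3, 0, 0, 0, 1]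
  just := [0, 0, 2, 0, 4, 5, 6, 7, 0, 3, 2, 8, 0, 9, 11, 1, 10, 11, 1, 0, 8, 0, 4, 5, 10, 6, 7, 3, 0, 0, 0, 9]
  gA := 12
  gB := 21
  fin := 0
  sid := [0, 1, 2, 3, 4, 5, 6, 7, 1, 0, 3, 2, 8, 9, 10, 11, 6, 10, 11, 1, 2, 8, 4, 5, 10, 6, 7, 0, 3, 4, 8, 9]
  off := [(0, 0), (0, 0), (0, 0), (0, 0), (0, 0), (0, 0), (0, 0), (0, 0), (0, 0), (0, 0), (1, -1), (1, -1), (0, 0),
    (0, 0), (0, 0), (0, 0), (0, 1), (0, 0), (0, 0), (0, 0), (0, 0), (-1, 1), (0, 1), (0, 1), (-1, 0), (-1, 1), (-1,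
    1), (-1, 1), (0, 0), (0, 0), (-1, 0), (-1, 0)]

/-- glued arcs and equations -/
def tord8b_62 : TorT :=
  ⟨[(0, 0, true), (1, 3, false), (1, 6, false), (2, 2, true), (2, 7, false), (3, 4, false), (4, 6, false), (5, 5,
    true), (5, 7, false)],
    [([0, 0, 0, 0, 0, 1, 0, 1], 2), ([0, 0, 0, 0, 1, 1, 1, 0], 2), ([0, 0, 1, 0, 0, 0, 0, 1], 2), ([0, 0, 1, 1, 1, 0,
    0, 0], 2), ([1, 1, 0, 0, 0, 0, 1, 0], 2), ([1, 1, 0, 1, 0, 0, 0, 0], 2)]⟩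

theorem tord8b_62_ok : tord8b_62.OK 8 := TT.leaf_ok (T := ttd8b_62) (by decide +kernel)

/-- the torus -/
def ttd8b_63 : TT where
  k := 4
  rf := [false, false, false, false]
  tau := [14, 16, 23, 11, 19, 18, 8, 15, 6, 24, 31, 3, 27, 26, 0, 7, 1, 25, 5, 4, 30, 29, 28, 2, 9, 17, 13, 12, 22,
    21, 20, 10]
  par := [0, 0, 1, 9]
  stars := [[0, 15], [1, 14, 26, 17], [2, 16], [3, 23, 28, 12], [4, 11, 31, 20], [5, 19], [6, 18, 25, 9], [7, 8],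
    [10, 24], [13, 27], [21, 30], [22, 29]]
  word := [[], [], [], [2, 1], [2, 1, 3], [2, 1, 3], [2, 1, 3, 0], [2, 1, 3, 0], [1, 2, 0, 3], [], [], [0, 3], [0],
    [0], [], [1, 2, 0, 3], [], [0], [2, 0, 3], [2, 0, 3], [2], [2], [2], [], [], [1], [1], [1], [3], [3], [3], []]
  rank := [0, 0, 1, 2, 3, 4, 5, 6, 5, 0, 1, 2, 0, 1, 0, 6, 0, 2, 4, 3, 1, 0, 1, 1, 0, 2, 1, 0, 1, 0, 1, 1]
  just := [0, 0, 2, 3, 4, 5, 6, 7, 6, 0, 8, 3, 0, 9, 0, 7, 0, 1, 5, 4, 10, 0, 11, 2, 0, 1, 9, 0, 11, 0, 10, 8]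
  gA := 12
  gB := 21
  fin := 0
  sid := [0, 1, 2, 3, 4, 5, 6, 7, 7, 6, 8, 4, 3, 9, 1, 0, 2, 1, 6, 5, 4, 10, 11, 3, 8, 6, 1, 9, 3, 11, 10, 4]
  off := [(0, 0), (0, 0), (0, 0), (0, 0), (0, 0), (0, 0), (0, 0), (0, 0), (0, 0), (0, 0), (0, 0), (1, -1), (1, -1),
    (0, 0), (0, 0), (0, 0), (0, 0), (0, 0), (1, 0), (1, 0), (1, 0), (0, 0), (0, 0), (0, 0), (0, 0), (0, 0), (-1, 0),
    (-1, 0), (0, -1), (0, -1), (0, -1), (1, -1)]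

/-- glued arcs and equations -/
def tord8b_63 : TorT :=
  ⟨[(0, 1, true), (0, 6, true), (1, 1, true), (2, 5, true), (2, 7, true), (3, 3, true), (3, 4, true), (4, 6, true),
    (5, 5, true), (7, 7, true)],
    [([0, 0, 0, 0, 0, 1, 1, 0], 2), ([0, 0, 0, 1, 0, 1, 0, 0], 2), ([0, 0, 0, 1, 2, 0, 0, 1], 2), ([0, 2, 1, 0, 0, 0,
    1, 0], 2), ([1, 0, 0, 0, 0, 0, 0, 1], 2), ([1, 0, 1, 0, 0, 0, 0, 0], 2)]⟩

theorem tord8b_63_ok : tord8b_63.OK 8 := TT.leaf_ok (T := ttd8b_63) (by decide +kernel)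

/-- the torus -/
def ttd8b_64 : TT where
  k := 4
  rf := [false, false, false, false]
  tau := [8, 16, 23, 22, 19, 18, 17, 15, 0, 24, 31, 30, 27, 26, 25, 7, 1, 6, 5, 4, 28, 29, 3, 2, 9, 14, 13, 12, 20,
    21, 11, 10]
  par := [0, 0, 1, 9]
  stars := [[0, 15, 25, 9], [1, 8, 7, 17], [2, 16], [3, 23], [4, 22, 29, 20], [5, 19], [6, 18], [10, 24], [11, 31],
    [12, 30, 21, 28], [13, 27], [14, 26]]
  word := [[], [], [], [], [2, 1], [2, 1], [2, 1], [2, 1], [], [], [], [], [3, 0], [3, 0], [3, 0], [0, 3], [], [0,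
    3], [0, 3], [0, 3], [0], [2], [], [], [], [1, 2], [1, 2], [1, 2], [1], [3], [], []]
  rank := [0, 0, 1, 2, 3, 4, 5, 6, 0, 0, 1, 2, 3, 4, 5, 6, 0, 5, 4, 3, 0, 0, 2, 1, 0, 5, 4, 3, 0, 0, 2, 1]
  just := [0, 0, 2, 3, 4, 5, 6, 1, 0, 0, 7, 8, 9, 10, 11, 1, 0, 6, 5, 4, 0, 0, 3, 2, 0, 11, 10, 9, 0, 0, 8, 7]
  gA := 20
  gB := 21
  fin := 0
  sid := [0, 1, 2, 3, 4, 5, 6, 1, 1, 0, 7, 8, 9, 10, 11, 0, 2, 1, 6, 5, 4, 9, 4, 3, 7, 0, 11, 10, 9, 4, 9, 8]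
  off := [(0, 0), (0, 0), (0, 0), (0, 0), (0, 0), (0, 0), (0, 0), (-1, 1), (0, 0), (0, 0), (0, 0), (0, 0), (0, 0),
    (0, 0), (0, 0), (1, -1), (0, 0), (0, 0), (1, -1), (1, -1), (1, -1), (0, 1), (0, 0), (0, 0), (0, 0), (0, 0), (-1,
    1), (-1, 1), (-1, 1), (0, -1), (0, 0), (0, 0)]

/-- glued arcs and equations -/
def tord8b_64 : TorT :=
  ⟨[(0, 0, true), (0, 1, true), (1, 6, true), (2, 5, true), (2, 7, true), (3, 4, true), (3, 6, true), (4, 4, true),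
    (5, 5, true), (7, 7, true)],
    [([0, 0, 0, 0, 2, 1, 1, 0], 2), ([0, 0, 0, 1, 0, 0, 0, 1], 2), ([0, 0, 0, 1, 0, 1, 0, 0], 2), ([0, 0, 1, 0, 0, 0,
    1, 0], 2), ([1, 0, 1, 0, 0, 0, 0, 0], 2), ([1, 2, 0, 0, 0, 0, 0, 1], 2)]⟩

theorem tord8b_64_ok : tord8b_64.OK 8 := TT.leaf_ok (T := ttd8b_64) (by decide +kernel)

/-- the torus -/
def ttd8b_65 : TT where
  k := 4
  rf := [false, false, true, true]
  tau := [9, 14, 13, 12, 16, 23, 11, 10, 28, 0, 7, 6, 3, 2, 1, 29, 4, 24, 31, 30, 27, 26, 25, 5, 17, 22, 21, 20, 8,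
    15, 19, 18]
  par := [0, 0, 4, 8]
  stars := [[0, 10], [1, 9, 29, 15], [2, 14], [3, 13], [4, 12, 6, 16], [5, 17, 25, 23], [7, 11], [8, 30, 20, 28],
    [18, 24], [19, 31], [21, 27], [22, 26]]
  word := [[], [1, 2], [1, 2], [1, 2], [], [0, 3], [0, 3, 1, 2], [0, 3, 1, 2], [], [], [3, 0, 2, 1], [3, 0, 2, 1],
    [3, 0], [3, 0], [3, 0], [3, 0], [], [0], [0], [0], [2], [2], [2], [2, 1], [1], [3], [3], [3], [], [1, 2], [1],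
    [1]]
  rank := [0, 2, 3, 4, 0, 3, 5, 6, 0, 0, 6, 5, 4, 3, 2, 1, 0, 2, 1, 0, 0, 1, 2, 3, 2, 2, 1, 0, 0, 1, 0, 1]
  just := [0, 1, 2, 3, 0, 5, 4, 6, 0, 0, 6, 4, 3, 2, 1, 7, 0, 8, 9, 0, 0, 10, 11, 5, 8, 11, 10, 0, 0, 7, 0, 9]
  gA := 19
  gB := 20
  fin := 0
  sid := [0, 1, 2, 3, 4, 5, 4, 6, 7, 1, 0, 6, 4, 3, 2, 1, 4, 5, 8, 9, 7, 10, 11, 5, 8, 5, 11, 10, 7, 1, 7, 9]
  off := [(0, 0), (0, 0), (0, 0), (0, 0), (0, 0), (0, 0), (1, -1), (0, 0), (0, 0), (0, 0), (0, 0), (0, 0), (1, -1),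
    (1, -1), (1, -1), (1, -1), (0, 0), (0, 0), (0, 0), (0, 0), (0, 1), (0, 0), (0, 0), (-1, 1), (-1, 0), (-1, 0), (0,
    -1), (0, -1), (0, 0), (0, 0), (-1, 1), (-1, 0)]

/-- glued arcs and equations -/
def tord8b_65 : TorT :=
  ⟨[(0, 1, true), (0, 4, false), (1, 6, true), (2, 5, true), (2, 7, true), (3, 4, true), (3, 6, true), (5, 7, false)],
    [([0, 0, 0, 1, 0, 0, 0, 1], 2), ([0, 0, 0, 1, 0, 1, 0, 0], 2), ([0, 0, 1, 0, 0, 0, 1, 0], 2), ([0, 2, 0, 0, 0, 1,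
    0, 1], 2), ([1, 0, 0, 0, 2, 0, 1, 0], 2), ([1, 0, 1, 0, 0, 0, 0, 0], 2)]⟩

theorem tord8b_65_ok : tord8b_65.OK 8 := TT.leaf_ok (T := ttd8b_65) (by decide +kernel)

end Pool.Agent.Lib_MP_fa6e45
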