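import Pool.Agent.Lib_MP_fa6e45.CT5

/-!
MP_fa6e45_co, stage 9: straight-side patterns with `8` sides, tables of tori (generated by a program).
-/

namespace Pool.Agent.Lib_MP_fa6e45

/-- the torus -/
def ttd8b_78 : TT where
  k := 16
  rf := [false, false, false, false, false, false, false, false, false, false, false, false, false, false, false,
    false]
  tau := [9, 16, 23, 26, 25, 36, 35, 10, 41, 0, 7, 50, 49, 60, 59, 42, 1, 40, 47, 66, 65, 76, 75, 2, 37, 4, 3, 58,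
    57, 84, 83, 38, 93, 68, 67, 6, 5, 24, 31, 94, 17, 8, 15, 98, 97, 108, 107, 18, 61, 12, 11, 106, 105, 116, 115,
    62, 85, 28, 27, 14, 13, 48, 55, 86, 77, 20, 19, 34, 33, 92, 91, 78, 125, 100, 99, 22, 21, 64, 71, 126, 113, 88,
    95, 30, 29, 56, 63, 114, 81, 120, 127, 70, 69, 32, 39, 82, 109, 44, 43, 74, 73, 124, 123, 110, 117, 52, 51, 46,
    45, 96, 103, 118, 121, 80, 87, 54, 53, 104, 111, 122, 89, 112, 119, 102, 101, 72, 79, 90]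
  par := [0, 0, 1, 3, 5, 8, 11, 13, 19, 21, 29, 32, 43, 45, 53, 72]
  stars := [[0, 10], [1, 9, 41, 17], [2, 16], [3, 23, 75, 99, 43, 15, 59, 27], [4, 26], [5, 25, 37], [6, 36], [7, 35,
    67, 19, 47, 107, 51, 11], [8, 42], [12, 50], [13, 49, 61], [14, 60], [18, 40], [20, 66], [21, 65, 77], [22, 76],
    [24, 38], [28, 58], [29, 57, 85], [30, 84], [31, 83, 95, 39], [32, 94], [33, 93, 69], [34, 68], [44, 98], [45,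
    97, 109], [46, 108], [48, 62], [52, 106], [53, 105, 117], [54, 116], [55, 115, 87, 63], [56, 86], [64, 78], [70,
    92], [71, 91, 127, 79], [72, 126], [73, 125, 101], [74, 100], [80, 114], [81, 113, 121, 89], [82, 88], [90, 120],
    [96, 110], [102, 124], [103, 123, 119, 111], [104, 118], [112, 122]]
  word := [[], [], [], [], [], [], [], [0, 2, 1, 3], [], [], [2, 0, 3, 1], [], [], [], [], [], [], [], [], [], [],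
    [], [], [], [], [], [], [0], [0], [], [], [], [], [0, 2], [0, 2], [], [], [], [], [], [], [], [], [], [], [], [],
    [], [], [], [], [2, 0], [2, 0], [], [], [], [1], [1], [1], [], [], [], [], [1], [], [], [], [3, 1], [3, 1], [3,
    1], [3, 1], [], [], [0], [0], [], [], [], [], [], [0], [], [], [], [], [0], [0], [0], [], [0, 2], [0, 2], [0, 2],
    [0, 2], [], [], [], [], [], [], [1], [1], [1], [1], [], [1, 3], [1, 3], [1, 3], [], [], [], [], [1, 3], [2], [1],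
    [1], [], [], [2, 0], [2, 0], [2], [3, 1], [3], [3], [0], [0], [], [], [3, 1]]
  rank := [0, 0, 1, 0, 1, 0, 1, 12, 0, 0, 12, 0, 1, 0, 1, 1, 0, 1, 2, 0, 1, 0, 1, 1, 2, 1, 0, 1, 0, 0, 1, 3, 0, 10,
    11, 1, 0, 2, 3, 1, 1, 0, 1, 0, 1, 0, 1, 2, 2, 1, 0, 9, 8, 0, 1, 3, 1, 0, 1, 1, 0, 2, 3, 2, 2, 1, 0, 11, 10, 9, 8,
    3, 0, 3, 2, 1, 0, 2, 3, 1, 5, 5, 4, 1, 0, 1, 2, 4, 5, 6, 7, 8, 9, 0, 1, 4, 2, 1, 0, 2, 3, 4, 5, 3, 7, 8, 9, 1, 0,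
    2, 3, 6, 0, 5, 4, 1, 0, 7, 6, 1, 6, 0, 1, 5, 4, 0, 1, 7]
  just := [0, 0, 2, 0, 4, 0, 6, 7, 0, 0, 7, 0, 9, 0, 11, 8, 0, 1, 12, 0, 13, 0, 15, 2, 5, 4, 0, 17, 0, 0, 19, 16, 0,
    22, 23, 6, 0, 5, 16, 21, 1, 0, 8, 0, 24, 0, 26, 12, 10, 9, 0, 28, 29, 0, 30, 27, 18, 0, 17, 11, 0, 10, 27, 32,
    14, 13, 0, 23, 22, 34, 35, 33, 0, 38, 3, 15, 0, 14, 33, 36, 39, 41, 20, 19, 0, 18, 32, 31, 41, 40, 42, 35, 34, 0,
    21, 20, 25, 24, 0, 3, 38, 37, 44, 43, 46, 29, 28, 26, 0, 25, 43, 45, 0, 39, 31, 30, 0, 46, 45, 47, 40, 0, 47, 44,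
    37, 0, 36, 42]
  gA := 28
  gB := 112
  fin := 0
  sid := [0, 1, 2, 3, 4, 5, 6, 7, 8, 1, 0, 7, 9, 10, 11, 3, 2, 1, 12, 7, 13, 14, 15, 3, 16, 5, 4, 3, 17, 18, 19, 20,
    21, 22, 23, 7, 6, 5, 16, 20, 12, 1, 8, 3, 24, 25, 26, 7, 27, 10, 9, 7, 28, 29, 30, 31, 32, 18, 17, 3, 11, 10, 27,
    31, 33, 14, 13, 7, 23, 22, 34, 35, 36, 37, 38, 3, 15, 14, 33, 35, 39, 40, 41, 20, 19, 18, 32, 31, 41, 40, 42, 35,
    34, 22, 21, 20, 43, 25, 24, 3, 38, 37, 44, 45, 46, 29, 28, 7, 26, 25, 43, 45, 47, 40, 39, 31, 30, 29, 46, 45, 42,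
    40, 47, 45, 44, 37, 36, 35]
  off := [(0, 0), (0, 0), (0, 0), (0, 0), (0, 0), (0, 0), (0, 0), (0, 0), (0, 0), (0, 0), (0, 0), (0, 0), (0, 0), (0,
    0), (0, 0), (-1, 0), (0, 0), (0, 0), (0, 0), (-1, -1), (0, 0), (0, 0), (0, 0), (0, 0), (0, 0), (0, 0), (0, 0),
    (0, 0), (0, 0), (0, 0), (0, 0), (0, 0), (0, 0), (0, 0), (0, 0), (0, 0), (0, 0), (0, 0), (0, 0), (0, 0), (0, 0),
    (0, 0), (0, 0), (-1, 0), (0, 0), (0, 0), (0, 0), (-1, -1), (0, 0), (0, 0), (0, 0), (0, 0), (0, 0), (0, 0), (0,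
    0), (0, 0), (0, 0), (-1, 0), (-1, 0), (-1, 0), (0, 0), (0, 0), (0, 0), (0, 0), (0, 0), (0, 0), (0, 0), (-1, -1),
    (-1, -1), (-1, -1), (0, 0), (0, 0), (0, 0), (0, 0), (0, 0), (0, 0), (0, 0), (0, 0), (0, 0), (0, 0), (0, 0), (0,
    0), (0, 0), (0, 0), (0, 0), (0, 0), (1, 0), (1, 0), (0, 0), (0, 0), (0, 0), (1, 1), (1, 1), (0, 0), (0, 0), (0,
    0), (0, 0), (0, 0), (0, 0), (-1, 0), (-1, 0), (-1, 0), (0, 0), (0, 0), (0, 0), (-1, -1), (-1, -1), (-1, -1), (0,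
    0), (0, 0), (0, 0), (0, 0), (0, 0), (-1, 0), (-1, 0), (0, 0), (0, 0), (0, 0), (1, 1), (1, 1), (-1, -1), (-1, -1),
    (0, -1), (1, 0), (1, 0), (0, 0), (0, 0), (0, 0)]

/-- glued arcs and equations -/
def tord8b_78 : TorT :=
  ⟨[(0, 1, true), (0, 5, true), (1, 4, true), (2, 3, true), (2, 7, true), (3, 6, true), (4, 5, true), (6, 7, true)],
    [([0, 0, 0, 0, 1, 0, 1, 0], 2), ([0, 0, 0, 1, 0, 0, 0, 3], 2), ([0, 0, 0, 6, 0, 0, 0, 2], 2), ([0, 0, 1, 0, 1, 0,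
    0, 0], 2), ([0, 1, 0, 0, 0, 2, 0, 0], 2), ([0, 4, 0, 0, 0, 0, 0, 0], 2), ([1, 0, 0, 0, 0, 0, 1, 0], 2), ([1, 0,
    1, 0, 0, 0, 0, 0], 2)]⟩

theorem tord8b_78_ok : tord8b_78.OK 8 := TT.leaf_ok (T := ttd8b_78) (by decide +kernel)

/-- the torus -/
def ttd8b_79 : TT where
  k := 11
  rf := [false, false, false, false, false, false, false, false, false, false, false]
  tau := [9, 20, 19, 26, 25, 36, 35, 10, 17, 0, 7, 42, 41, 52, 51, 18, 57, 8, 15, 2, 1, 64, 71, 58, 37, 4, 3, 50, 49,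
    76, 75, 38, 61, 84, 83, 6, 5, 24, 31, 62, 53, 12, 11, 82, 81, 68, 67, 54, 77, 28, 27, 14, 13, 40, 47, 78, 73, 16,
    23, 86, 85, 32, 39, 74, 21, 72, 79, 46, 45, 80, 87, 22, 65, 56, 63, 30, 29, 48, 55, 66, 69, 44, 43, 34, 33, 60,
    59, 70]
  par := [0, 0, 1, 3, 5, 11, 13, 16, 21, 29, 33]
  stars := [[0, 10], [1, 9, 17, 57, 73, 65, 21], [2, 20], [3, 19, 15, 51, 27], [4, 26], [5, 25, 37], [6, 36], [7, 35,
    83, 43, 11], [8, 18], [12, 42], [13, 41, 53], [14, 52], [16, 58], [22, 64], [23, 71, 87, 59], [24, 38], [28, 50],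
    [29, 49, 77], [30, 76], [31, 75, 63, 39], [32, 62], [33, 61, 85], [34, 84], [40, 54], [44, 82], [45, 81, 69],
    [46, 68], [47, 67, 79, 55], [48, 78], [56, 74], [60, 86], [66, 72], [70, 80]]
  word := [[], [], [], [], [], [], [], [2, 0, 3, 1], [0], [], [0, 2, 1, 3], [], [], [], [], [0], [], [1], [1], [],
    [], [], [], [], [], [], [], [1], [1], [], [], [], [2], [], [], [], [], [], [], [2], [], [], [], [0, 2, 1, 3], [0,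
    2, 1, 3], [0, 2, 1], [0, 2, 1], [], [0], [0], [0], [], [], [], [], [0], [3], [], [], [3], [3], [3], [3], [3], [],
    [0, 3], [0, 3], [0, 3, 1], [0, 3, 1], [3], [3], [], [2, 1], [2], [2], [], [], [1], [1], [2, 1], [2], [2, 0, 3,
    1], [2, 0, 3, 1], [], [], [2], [2], [2]]
  rank := [0, 0, 1, 0, 1, 0, 1, 12, 1, 0, 12, 0, 1, 0, 1, 0, 0, 1, 0, 1, 0, 0, 1, 1, 2, 1, 0, 2, 3, 0, 1, 3, 1, 0, 1,
    1, 0, 2, 3, 0, 2, 1, 0, 11, 10, 9, 8, 3, 4, 3, 2, 1, 0, 2, 3, 5, 5, 0, 1, 3, 2, 1, 0, 4, 0, 6, 7, 8, 9, 5, 4, 1,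
    6, 5, 4, 1, 0, 4, 5, 7, 5, 10, 11, 1, 0, 2, 3, 4]
  just := [0, 0, 2, 0, 4, 0, 6, 7, 8, 0, 7, 0, 9, 0, 11, 0, 0, 8, 0, 2, 0, 0, 13, 12, 5, 4, 0, 3, 16, 0, 18, 15, 20,
    0, 22, 6, 0, 5, 15, 0, 10, 9, 0, 24, 25, 26, 27, 23, 17, 16, 3, 11, 0, 10, 23, 28, 29, 0, 12, 30, 21, 20, 0, 19,
    0, 1, 31, 27, 26, 32, 14, 13, 1, 29, 19, 18, 0, 17, 28, 31, 32, 25, 24, 22, 0, 21, 30, 14]
  gA := 15
  gB := 39
  fin := 0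
  sid := [0, 1, 2, 3, 4, 5, 6, 7, 8, 1, 0, 7, 9, 10, 11, 3, 12, 1, 8, 3, 2, 1, 13, 14, 15, 5, 4, 3, 16, 17, 18, 19,
    20, 21, 22, 7, 6, 5, 15, 19, 23, 10, 9, 7, 24, 25, 26, 27, 28, 17, 16, 3, 11, 10, 23, 27, 29, 1, 12, 14, 30, 21,
    20, 19, 13, 1, 31, 27, 26, 25, 32, 14, 31, 1, 29, 19, 18, 17, 28, 27, 32, 25, 24, 7, 22, 21, 30, 14]
  off := [(0, 0), (0, 0), (0, 0), (0, 0), (0, 0), (0, 0), (0, 0), (0, 0), (0, 0), (0, 0), (0, 0), (0, 0), (0, 0), (0,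
    0), (0, 0), (1, 0), (0, 0), (-1, 0), (-1, 0), (0, 0), (0, 0), (0, 0), (0, 0), (0, 0), (0, 0), (0, 0), (0, 0), (0,
    0), (0, 0), (0, 0), (0, 0), (0, 0), (0, 0), (0, 0), (0, 0), (0, 0), (0, 0), (0, 0), (0, 0), (0, 0), (0, 0), (0,
    0), (0, 0), (0, 0), (0, 0), (0, 0), (0, 0), (0, 0), (0, 0), (1, 0), (1, 0), (1, 0), (0, 0), (0, 0), (0, 0), (0,
    0), (0, 0), (-1, 0), (0, 0), (0, 0), (0, 0), (0, -1), (0, -1), (0, -1), (0, 0), (0, 0), (0, 0), (0, -1), (0, -1),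
    (0, -1), (0, 0), (0, 0), (-1, 1), (-1, 1), (0, 1), (0, 0), (0, 0), (0, 0), (-1, 0), (-1, 0), (0, 1), (0, 0), (0,
    0), (0, 0), (0, 0), (0, 0), (0, 1), (0, 1)]

/-- glued arcs and equations -/
def tord8b_79 : TorT :=
  ⟨[(0, 1, true), (0, 5, true), (1, 4, true), (2, 3, true), (2, 7, true), (3, 6, true), (4, 5, true), (6, 7, true)],
    [([0, 0, 0, 0, 1, 0, 1, 0], 2), ([0, 0, 0, 1, 0, 0, 0, 3], 2), ([0, 0, 0, 4, 0, 0, 0, 1], 2), ([0, 0, 1, 0, 1, 0,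
    0, 0], 2), ([0, 1, 0, 0, 0, 2, 0, 0], 2), ([0, 6, 0, 0, 0, 1, 0, 0], 2), ([1, 0, 0, 0, 0, 0, 1, 0], 2), ([1, 0,
    1, 0, 0, 0, 0, 0], 2)]⟩

theorem tord8b_79_ok : tord8b_79.OK 8 := TT.leaf_ok (T := ttd8b_79) (by decide +kernel)

/-- the torus -/
def ttd8b_80 : TT where
  k := 4
  rf := [false, false, false, false]
  tau := [8, 9, 7, 22, 21, 16, 23, 2, 0, 1, 15, 30, 29, 24, 31, 10, 5, 20, 26, 27, 17, 4, 3, 6, 13, 28, 18, 19, 25,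
    12, 11, 14]
  par := [0, 0, 3, 11]
  stars := [[0, 2, 9], [1, 8, 10], [3, 7, 23], [4, 22], [5, 21, 17], [6, 16], [11, 15, 31], [12, 30], [13, 29, 25],
    [14, 24], [18, 20, 27], [19, 26, 28]]
  word := [[], [3, 0], [0, 3], [], [], [2, 1], [2, 1], [2, 1], [], [1, 2], [1, 2], [], [], [3, 0], [3, 0], [3, 0],
    [0, 3], [0, 3], [0], [2], [2, 1], [], [], [0, 3], [1, 2], [1, 2], [1], [3], [3, 0], [], [], [1, 2]]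
  rank := [0, 5, 4, 0, 1, 2, 3, 4, 0, 5, 4, 0, 1, 2, 3, 4, 2, 1, 0, 0, 1, 1, 0, 3, 2, 1, 0, 0, 1, 1, 0, 3]
  just := [0, 1, 2, 0, 3, 4, 5, 2, 0, 1, 6, 0, 7, 8, 9, 6, 4, 10, 0, 0, 10, 3, 0, 5, 8, 11, 0, 0, 11, 7, 0, 9]
  gA := 18
  gB := 19
  fin := 0
  sid := [0, 1, 0, 2, 3, 4, 5, 2, 1, 0, 1, 6, 7, 8, 9, 6, 5, 4, 10, 11, 10, 4, 3, 2, 9, 8, 11, 10, 11, 8, 7, 6]
  off := [(0, 0), (0, 0), (1, -1), (0, 0), (0, 0), (0, 0), (0, 0), (-1, 1), (0, 0), (0, 0), (-1, 1), (0, 0), (0, 0),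
    (0, 0), (0, 0), (1, -1), (1, -1), (1, -1), (0, 0), (0, 0), (-1, 1), (0, 0), (0, 0), (0, 0), (-1, 1), (-1, 1),
    (-1, 0), (-1, 0), (0, -1), (0, 0), (0, 0), (0, 0)]

/-- glued arcs and equations -/
def tord8b_80 : TorT :=
  ⟨[(0, 0, true), (0, 5, true), (1, 1, true), (1, 4, true), (2, 2, true), (2, 7, true), (3, 3, true), (3, 6, true),
    (4, 5, true), (6, 7, true)],
    [([0, 0, 0, 0, 1, 0, 1, 0], 2), ([0, 0, 0, 1, 0, 0, 0, 2], 2), ([0, 0, 1, 1, 1, 0, 0, 0], 2), ([0, 1, 0, 0, 0, 2,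
    0, 0], 2), ([1, 0, 0, 0, 0, 0, 1, 0], 2), ([1, 1, 1, 0, 0, 0, 0, 0], 2)]⟩

theorem tord8b_80_ok : tord8b_80.OK 8 := TT.leaf_ok (T := ttd8b_80) (by decide +kernel)

/-- the torus -/
def ttd8b_81 : TT where
  k := 5
  rf := [false, false, false, false, false]
  tau := [9, 16, 23, 26, 25, 32, 39, 10, 29, 0, 7, 38, 37, 20, 19, 30, 1, 24, 31, 14, 13, 36, 35, 2, 17, 4, 3, 34,
    33, 8, 15, 18, 5, 28, 27, 22, 21, 12, 11, 6]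
  par := [0, 0, 1, 3, 5]
  stars := [[0, 10], [1, 9, 29, 33, 5, 25, 17], [2, 16], [3, 23, 35, 27], [4, 26], [6, 32], [7, 39, 11], [8, 30],
    [12, 38], [13, 37, 21], [14, 20], [15, 19, 31], [18, 24], [22, 36], [28, 34]]
  word := [[], [], [], [], [], [], [], [3, 0, 2, 1], [0, 3], [], [0, 3, 1, 2], [0, 3, 1, 2], [0, 3, 1, 2], [0, 3, 1],
    [0, 3, 1], [0, 3], [], [0], [0], [0, 2, 1], [0, 2, 1], [2], [2], [], [1], [], [], [2], [2], [2, 1], [2, 1], [1],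
    [], [3], [3], [3], [3], [3, 0, 2, 1], [3, 0, 2, 1], []]
  rank := [0, 0, 1, 0, 1, 0, 1, 8, 2, 0, 8, 7, 6, 5, 4, 3, 0, 0, 1, 4, 5, 3, 2, 1, 0, 1, 0, 1, 0, 2, 3, 1, 0, 0, 1,
    2, 3, 6, 7, 1]
  just := [0, 0, 2, 0, 4, 0, 5, 6, 1, 0, 6, 8, 9, 10, 11, 7, 0, 0, 12, 11, 10, 13, 3, 2, 0, 4, 0, 14, 0, 1, 7, 12, 0,
    0, 14, 3, 13, 9, 8, 5]
  gA := 17
  gB := 28
  fin := 0
  sid := [0, 1, 2, 3, 4, 1, 5, 6, 7, 1, 0, 6, 8, 9, 10, 11, 2, 1, 12, 11, 10, 9, 13, 3, 12, 1, 4, 3, 14, 1, 7, 11, 5,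
    1, 14, 3, 13, 9, 8, 6]
  off := [(0, 0), (0, 0), (0, 0), (0, 0), (0, 0), (-1, 0), (0, 0), (0, 0), (0, 0), (0, 0), (0, 0), (0, 0), (0, 0),
    (0, 0), (0, 0), (0, 0), (0, 0), (0, 0), (0, 0), (0, 1), (0, 1), (0, 1), (0, 0), (0, 0), (-1, 0), (-1, 0), (0, 0),
    (0, 0), (0, 0), (-1, 1), (-1, 1), (-1, 1), (0, 0), (-1, 0), (0, -1), (0, -1), (0, -1), (0, 0), (0, 0), (0, 0)]

/-- glued arcs and equations -/
def tord8b_81 : TorT :=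
  ⟨[(0, 1, true), (0, 5, true), (1, 4, true), (2, 3, true), (2, 7, true), (3, 6, true), (4, 5, true), (6, 7, true)],
    [([0, 0, 0, 0, 0, 3, 0, 0], 2), ([0, 0, 0, 0, 1, 0, 1, 0], 2), ([0, 0, 0, 1, 0, 0, 0, 2], 2), ([0, 0, 0, 3, 0, 0,
    0, 1], 2), ([0, 0, 1, 0, 1, 0, 0, 0], 2), ([0, 5, 0, 0, 0, 2, 0, 0], 2), ([1, 0, 0, 0, 0, 0, 1, 0], 2), ([1, 0,
    1, 0, 0, 0, 0, 0], 2)]⟩

theorem tord8b_81_ok : tord8b_81.OK 8 := TT.leaf_ok (T := ttd8b_81) (by decide +kernel)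

/-- the torus -/
def ttd8b_82 : TT where
  k := 9
  rf := [false, false, false, false, false, false, false, false, false]
  tau := [9, 16, 23, 30, 29, 32, 39, 10, 17, 0, 7, 38, 37, 40, 47, 18, 1, 8, 15, 46, 45, 24, 31, 2, 21, 48, 55, 58,
    57, 4, 3, 22, 5, 68, 67, 54, 53, 12, 11, 6, 13, 64, 71, 62, 61, 20, 19, 14, 25, 60, 59, 66, 65, 36, 35, 26, 69,
    28, 27, 50, 49, 44, 43, 70, 41, 52, 51, 34, 33, 56, 63, 42]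
  par := [0, 0, 1, 3, 5, 13, 25, 27, 33]
  stars := [[0, 10], [1, 9, 17], [2, 16], [3, 23, 31], [4, 30], [5, 29, 57, 69, 33], [6, 32], [7, 39, 11], [8, 18],
    [12, 38], [13, 37, 53, 65, 41], [14, 40], [15, 47, 19], [20, 46], [21, 45, 61, 49, 25], [22, 24], [26, 48], [27,
    55, 35, 67, 51, 59], [28, 58], [34, 68], [36, 54], [42, 64], [43, 71, 63], [44, 62], [50, 60], [52, 66], [56, 70]]
  word := [[], [], [], [], [], [], [], [3, 0, 2, 1], [], [], [0, 3, 1, 2], [0, 3, 1, 2], [0, 3, 1, 2], [], [], [],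
    [], [], [], [], [], [], [], [], [], [], [], [], [], [], [], [], [], [], [], [3, 0], [3, 0], [3, 0, 2, 1], [3, 0,
    2, 1], [], [], [0], [0], [0], [0], [], [], [], [], [0], [0], [2], [2], [1, 2], [1, 2], [], [], [], [], [1], [1],
    [1], [1], [], [1], [3], [3], [], [], [], [], [1]]
  rank := [0, 0, 1, 0, 1, 0, 1, 11, 1, 0, 11, 10, 9, 0, 1, 2, 0, 1, 2, 3, 4, 3, 2, 1, 3, 0, 1, 0, 1, 1, 0, 2, 0, 0,
    1, 7, 8, 9, 10, 1, 0, 5, 4, 1, 0, 4, 3, 1, 0, 5, 6, 0, 1, 8, 7, 1, 2, 1, 0, 6, 5, 0, 1, 3, 5, 1, 0, 1, 0, 2, 3, 4]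
  just := [0, 0, 2, 0, 4, 0, 6, 7, 1, 0, 7, 9, 10, 0, 11, 8, 0, 1, 8, 12, 13, 15, 3, 2, 15, 0, 16, 0, 18, 4, 0, 3, 0,
    0, 19, 17, 20, 10, 9, 6, 0, 21, 22, 23, 0, 13, 12, 11, 0, 14, 24, 0, 25, 20, 17, 16, 5, 18, 0, 24, 14, 0, 23, 26,
    21, 25, 0, 19, 0, 5, 26, 22]
  gA := 44
  gB := 51
  fin := 0
  sid := [0, 1, 2, 3, 4, 5, 6, 7, 8, 1, 0, 7, 9, 10, 11, 12, 2, 1, 8, 12, 13, 14, 15, 3, 15, 14, 16, 17, 18, 5, 4, 3,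
    6, 5, 19, 17, 20, 10, 9, 7, 11, 10, 21, 22, 23, 14, 13, 12, 16, 14, 24, 17, 25, 10, 20, 17, 26, 5, 18, 17, 24,
    14, 23, 22, 21, 10, 25, 17, 19, 5, 26, 22]
  off := [(0, 0), (0, 0), (0, 0), (0, 0), (0, 0), (0, 0), (0, 0), (0, 0), (0, 0), (0, 0), (0, 0), (0, 0), (0, 0), (0,
    0), (0, 0), (0, 0), (0, 0), (0, 0), (0, 0), (0, 0), (0, 0), (0, 0), (0, 0), (0, 0), (0, 0), (0, 0), (0, 0), (0,
    0), (0, 0), (0, 0), (0, 0), (0, 0), (0, 0), (0, 0), (0, 0), (1, -1), (0, 0), (0, 0), (0, 0), (0, 0), (0, 0), (0,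
    0), (0, 0), (0, 0), (0, 0), (0, 0), (0, 0), (0, 0), (0, 0), (0, 0), (0, 0), (1, 0), (0, 0), (-1, 1), (-1, 1), (0,
    0), (0, 0), (0, 0), (0, 0), (0, 0), (-1, 0), (-1, 0), (-1, 0), (-1, 0), (-1, 0), (-1, 0), (0, -1), (1, -1), (0,
    0), (0, 0), (0, 0), (-1, 0)]

/-- glued arcs and equations -/
def tord8b_82 : TorT :=
  ⟨[(0, 1, true), (0, 5, true), (1, 4, true), (2, 3, true), (2, 7, true), (3, 6, true), (4, 5, true), (6, 7, true)],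
    [([0, 0, 0, 0, 1, 0, 1, 0], 2), ([0, 0, 0, 1, 0, 0, 0, 2], 2), ([0, 0, 0, 5, 0, 0, 0, 1], 2), ([0, 0, 1, 0, 1, 0,
    0, 0], 2), ([0, 2, 0, 0, 0, 3, 0, 0], 2), ([0, 3, 0, 0, 0, 0, 0, 0], 2), ([1, 0, 0, 0, 0, 0, 1, 0], 2), ([1, 0,
    1, 0, 0, 0, 0, 0], 2)]⟩

theorem tord8b_82_ok : tord8b_82.OK 8 := TT.leaf_ok (T := ttd8b_82) (by decide +kernel)

/-- the torus -/
def ttd8b_83 : TT where
  k := 12
  rf := [false, false, false, false, false, false, false, false, false, false, false, false]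
  tau := [9, 16, 23, 26, 25, 36, 35, 10, 41, 0, 7, 50, 49, 60, 59, 42, 1, 64, 71, 58, 57, 76, 75, 2, 37, 4, 3, 46,
    45, 80, 87, 38, 85, 68, 67, 6, 5, 24, 31, 86, 89, 8, 15, 82, 81, 28, 27, 90, 61, 12, 11, 94, 93, 72, 79, 62, 77,
    20, 19, 14, 13, 48, 55, 78, 17, 88, 95, 34, 33, 84, 83, 18, 53, 92, 91, 22, 21, 56, 63, 54, 29, 44, 43, 70, 69,
    32, 39, 30, 65, 40, 47, 74, 73, 52, 51, 66]
  par := [0, 0, 1, 3, 5, 8, 11, 13, 17, 21, 29, 40]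
  stars := [[0, 10], [1, 9, 41, 89, 65, 17], [2, 16], [3, 23, 75, 91, 47, 27], [4, 26], [5, 25, 37], [6, 36], [7, 35,
    67, 95, 51, 11], [8, 42], [12, 50], [13, 49, 61], [14, 60], [15, 59, 19, 71, 83, 43], [18, 64], [20, 58], [21,
    57, 77], [22, 76], [24, 38], [28, 46], [29, 45, 81], [30, 80], [31, 87, 39], [32, 86], [33, 85, 69], [34, 68],
    [40, 90], [44, 82], [48, 62], [52, 94], [53, 93, 73], [54, 72], [55, 79, 63], [56, 78], [66, 88], [70, 84], [74,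
    92]]
  word := [[], [], [], [], [], [], [], [0, 2, 1, 3], [], [], [2, 0, 3, 1], [], [], [], [], [], [], [], [], [3], [3],
    [], [], [], [], [], [], [0], [0], [], [], [], [], [0, 2], [0, 2], [], [], [], [], [], [], [], [], [1], [1], [1],
    [1], [], [], [], [], [2, 0], [2, 0], [2], [2], [], [2], [2], [2], [], [], [], [], [2], [], [], [], [3, 1], [3,
    1], [3, 1], [3, 1], [], [3], [0], [0], [], [], [3], [3], [3], [], [0], [0], [0, 2], [0, 2], [], [], [], [], [],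
    [], [1], [1], [1, 3], [1, 3], []]
  rank := [0, 0, 1, 0, 1, 0, 1, 8, 0, 0, 8, 0, 1, 0, 1, 1, 0, 0, 1, 2, 1, 0, 1, 1, 2, 1, 0, 1, 0, 0, 1, 3, 5, 6, 7,
    1, 0, 2, 3, 4, 0, 0, 1, 2, 1, 0, 1, 1, 2, 1, 0, 7, 6, 5, 4, 3, 0, 1, 2, 1, 0, 2, 3, 1, 0, 1, 2, 7, 6, 4, 3, 1, 5,
    3, 2, 1, 0, 0, 1, 4, 0, 1, 2, 3, 4, 5, 4, 1, 1, 0, 1, 2, 3, 6, 7, 2]
  just := [0, 0, 2, 0, 4, 0, 6, 7, 0, 0, 7, 0, 9, 0, 11, 8, 0, 0, 13, 14, 15, 0, 16, 2, 5, 4, 0, 18, 0, 0, 20, 17,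
    22, 23, 24, 6, 0, 5, 17, 21, 0, 0, 8, 26, 19, 0, 18, 25, 10, 9, 0, 28, 29, 30, 31, 27, 0, 15, 14, 11, 0, 10, 27,
    32, 0, 1, 33, 24, 23, 34, 12, 13, 30, 35, 3, 16, 0, 0, 32, 31, 0, 19, 26, 12, 34, 22, 21, 20, 1, 0, 25, 3, 35,
    29, 28, 33]
  gA := 28
  gB := 56
  fin := 0
  sid := [0, 1, 2, 3, 4, 5, 6, 7, 8, 1, 0, 7, 9, 10, 11, 12, 2, 1, 13, 12, 14, 15, 16, 3, 17, 5, 4, 3, 18, 19, 20,
    21, 22, 23, 24, 7, 6, 5, 17, 21, 25, 1, 8, 12, 26, 19, 18, 3, 27, 10, 9, 7, 28, 29, 30, 31, 32, 15, 14, 12, 11,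
    10, 27, 31, 13, 1, 33, 7, 24, 23, 34, 12, 30, 29, 35, 3, 16, 15, 32, 31, 20, 19, 26, 12, 34, 23, 22, 21, 33, 1,
    25, 3, 35, 29, 28, 7]
  off := [(0, 0), (0, 0), (0, 0), (0, 0), (0, 0), (0, 0), (0, 0), (0, 0), (0, 0), (0, 0), (0, 0), (0, 0), (0, 0), (0,
    0), (0, 0), (0, 0), (0, 0), (0, 0), (0, 0), (0, -1), (0, 0), (0, 0), (0, 0), (0, 0), (0, 0), (0, 0), (0, 0), (0,
    0), (0, 0), (0, 0), (0, 0), (0, 0), (0, 0), (0, 0), (0, 0), (0, 0), (0, 0), (0, 0), (0, 0), (0, 0), (0, 0), (0,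
    0), (0, 0), (0, 0), (0, 0), (-1, 0), (-1, 0), (-1, 0), (0, 0), (0, 0), (0, 0), (0, 0), (0, 0), (0, 0), (0, 0),
    (0, 0), (0, 0), (0, 1), (0, 1), (0, 0), (0, 0), (0, 0), (0, 0), (0, 0), (0, 0), (0, 0), (0, 0), (-1, -1), (-1,
    -1), (-1, -1), (0, 0), (0, -1), (0, -1), (0, -1), (0, 0), (0, 0), (0, 0), (0, 0), (0, -1), (0, -1), (0, 0), (0,
    0), (1, 0), (1, 0), (1, 1), (0, 0), (0, 0), (0, 0), (0, 0), (0, 0), (0, 0), (-1, 0), (-1, 0), (-1, -1), (-1, -1),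
    (-1, -1)]

/-- glued arcs and equations -/
def tord8b_83 : TorT :=
  ⟨[(0, 1, true), (0, 5, true), (1, 4, true), (2, 3, true), (2, 7, true), (3, 6, true), (4, 5, true), (6, 7, true)],
    [([0, 0, 0, 0, 0, 0, 0, 3], 2), ([0, 0, 0, 0, 1, 0, 1, 0], 2), ([0, 0, 0, 4, 0, 0, 0, 2], 2), ([0, 0, 1, 0, 1, 0,
    0, 0], 2), ([0, 1, 0, 0, 0, 2, 0, 0], 2), ([0, 6, 0, 0, 0, 0, 0, 0], 2), ([1, 0, 0, 0, 0, 0, 1, 0], 2), ([1, 0,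
    1, 0, 0, 0, 0, 0], 2)]⟩

theorem tord8b_83_ok : tord8b_83.OK 8 := TT.leaf_ok (T := ttd8b_83) (by decide +kernel)

end Pool.Agent.Lib_MP_fa6e45
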