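import Pool.Agent.Lib_MP_fa6e45.CT5

/-!
MP_fa6e45_co, stage 9: straight-side patterns with `8` sides, tables of tori (generated by a program).
-/

namespace Pool.Agent.Lib_MP_fa6e45

/-- the torus -/
def ttd8b_84 : TT where
  k := 5
  rf := [false, false, false, false, false]
  tau := [9, 16, 23, 14, 13, 28, 27, 10, 21, 0, 7, 34, 33, 4, 3, 22, 1, 24, 31, 38, 37, 8, 15, 2, 17, 36, 35, 6, 5,
    32, 39, 18, 29, 12, 11, 26, 25, 20, 19, 30]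
  par := [0, 0, 1, 5, 11]
  stars := [[0, 10], [1, 9, 21, 37, 25, 17], [2, 16], [3, 23, 15], [4, 14], [5, 13, 33, 29], [6, 28], [7, 27, 35,
    11], [8, 22], [12, 34], [18, 24], [19, 31, 39], [20, 38], [26, 36], [30, 32]]
  word := [[], [], [], [2], [2], [], [], [2, 1, 3, 0], [3], [], [1, 2, 0, 3], [], [], [3], [3], [3], [], [0, 3], [0,
    3], [0], [0], [2], [2], [], [2, 1], [2, 1, 3, 0], [2, 1, 3, 0], [], [], [2], [2], [2, 1], [3], [], [], [1, 2, 0,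
    3], [1, 2, 0, 3], [1], [1], [3]]
  rank := [0, 0, 1, 3, 2, 0, 1, 8, 5, 0, 8, 0, 1, 2, 3, 4, 0, 3, 2, 0, 1, 5, 4, 1, 3, 6, 7, 1, 0, 0, 1, 2, 0, 1, 0,
    7, 6, 1, 0, 1]
  just := [0, 0, 2, 4, 5, 0, 6, 7, 8, 0, 7, 0, 9, 5, 4, 3, 0, 10, 11, 0, 12, 8, 3, 2, 10, 1, 13, 6, 0, 0, 14, 11, 0,
    9, 0, 13, 1, 12, 0, 14]
  gA := 19
  gB := 29
  fin := 0
  sid := [0, 1, 2, 3, 4, 5, 6, 7, 8, 1, 0, 7, 9, 5, 4, 3, 2, 1, 10, 11, 12, 1, 8, 3, 10, 1, 13, 7, 6, 5, 14, 11, 14,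
    5, 9, 7, 13, 1, 12, 11]
  off := [(0, 0), (0, 0), (0, 0), (0, 0), (0, 0), (0, 0), (0, 0), (0, 0), (0, 0), (0, 0), (0, 0), (0, 0), (0, 0), (0,
    -1), (0, -1), (0, -1), (0, 0), (0, 0), (0, 0), (0, 0), (0, 0), (0, 1), (0, 1), (0, 0), (-1, 1), (-1, 1), (0, 0),
    (0, 0), (0, 0), (0, 0), (0, 0), (-1, 1), (0, -1), (0, -1), (0, 0), (0, 0), (0, 0), (-1, 1), (-1, 0), (-1, 0)]

/-- glued arcs and equations -/
def tord8b_84 : TorT :=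
  ⟨[(0, 1, true), (0, 5, true), (1, 4, true), (2, 3, true), (2, 7, true), (3, 6, true), (4, 5, true), (6, 7, true)],
    [([0, 0, 0, 0, 1, 0, 1, 0], 2), ([0, 0, 0, 1, 0, 0, 0, 2], 2), ([0, 0, 0, 3, 0, 0, 0, 1], 2), ([0, 0, 1, 0, 1, 0,
    0, 0], 2), ([0, 1, 0, 0, 0, 3, 0, 0], 2), ([0, 4, 0, 0, 0, 2, 0, 0], 2), ([1, 0, 0, 0, 0, 0, 1, 0], 2), ([1, 0,
    1, 0, 0, 0, 0, 0], 2)]⟩

theorem tord8b_84_ok : tord8b_84.OK 8 := TT.leaf_ok (T := ttd8b_84) (by decide +kernel)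

/-- the torus -/
def ttd8b_85 : TT where
  k := 5
  rf := [false, false, false, false, false]
  tau := [9, 12, 11, 18, 17, 20, 19, 10, 25, 0, 7, 2, 1, 32, 39, 26, 29, 4, 3, 6, 5, 36, 35, 30, 33, 8, 15, 38, 37,
    16, 23, 34, 13, 24, 31, 22, 21, 28, 27, 14]
  par := [0, 0, 3, 8, 13]
  stars := [[0, 10], [1, 9, 25, 33, 13], [2, 12], [3, 11, 7, 19], [4, 18], [5, 17, 29, 37, 21], [6, 20], [8, 26],
    [14, 32], [15, 39, 27], [16, 30], [22, 36], [23, 35, 31], [24, 34], [28, 38]]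
  word := [[], [3, 0], [3, 0], [], [], [2, 1], [2, 1], [2, 1, 3, 0], [], [], [1, 2, 0, 3], [1, 2], [1, 2], [], [],
    [], [2], [], [], [0, 3], [0, 3], [0], [0], [2], [3, 0], [], [], [], [], [3], [3], [3, 0], [], [1, 2], [1, 2],
    [1], [1], [], [], []]
  rank := [0, 3, 4, 0, 1, 4, 5, 6, 0, 0, 6, 4, 3, 0, 1, 1, 1, 1, 0, 5, 4, 1, 0, 0, 2, 0, 1, 2, 3, 1, 0, 1, 0, 2, 1,
    0, 1, 3, 2, 1]
  just := [0, 1, 2, 0, 4, 5, 6, 3, 0, 0, 3, 2, 1, 0, 8, 7, 10, 4, 0, 6, 5, 11, 0, 0, 13, 0, 7, 9, 14, 10, 0, 12, 0,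
    13, 12, 0, 11, 14, 9, 8]
  gA := 22
  gB := 23
  fin := 0
  sid := [0, 1, 2, 3, 4, 5, 6, 3, 7, 1, 0, 3, 2, 1, 8, 9, 10, 5, 4, 3, 6, 5, 11, 12, 13, 1, 7, 9, 14, 5, 10, 12, 8,
    1, 13, 12, 11, 5, 14, 9]
  off := [(0, 0), (0, 0), (0, 0), (0, 0), (0, 0), (0, 0), (0, 0), (-1, 1), (0, 0), (0, 0), (0, 0), (-1, 1), (-1, 1),
    (-1, 1), (0, 0), (0, 0), (0, 0), (0, 0), (0, 0), (0, 0), (1, -1), (1, -1), (0, 0), (0, 0), (0, 0), (0, 0), (0,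
    0), (0, 0), (0, 0), (0, -1), (0, -1), (0, -1), (0, 0), (-1, 1), (-1, 1), (-1, 0), (-1, 0), (0, -1), (0, 0), (0,
    0)]

/-- glued arcs and equations -/
def tord8b_85 : TorT :=
  ⟨[(0, 1, true), (0, 5, true), (1, 4, true), (2, 3, true), (2, 7, true), (3, 6, true), (4, 5, true), (6, 7, true)],
    [([0, 0, 0, 0, 1, 0, 1, 0], 2), ([0, 0, 0, 1, 0, 0, 0, 2], 2), ([0, 0, 0, 3, 0, 0, 0, 1], 2), ([0, 0, 1, 0, 1, 0,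
    0, 0], 2), ([0, 1, 0, 0, 0, 4, 0, 0], 2), ([0, 4, 0, 0, 0, 1, 0, 0], 2), ([1, 0, 0, 0, 0, 0, 1, 0], 2), ([1, 0,
    1, 0, 0, 0, 0, 0], 2)]⟩

theorem tord8b_85_ok : tord8b_85.OK 8 := TT.leaf_ok (T := ttd8b_85) (by decide +kernel)

/-- the torus -/
def ttd8b_86 : TT where
  k := 8
  rf := [false, false, false, false, false, false, false, false]
  tau := [9, 16, 23, 30, 29, 32, 39, 10, 41, 0, 7, 38, 37, 48, 55, 42, 1, 40, 47, 62, 61, 24, 31, 2, 21, 36, 35, 58,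
    57, 4, 3, 22, 5, 52, 51, 26, 25, 12, 11, 6, 17, 8, 15, 54, 53, 56, 63, 18, 13, 60, 59, 34, 33, 44, 43, 14, 45,
    28, 27, 50, 49, 20, 19, 46]
  par := [0, 0, 1, 3, 5, 8, 13, 19]
  stars := [[0, 10], [1, 9, 41, 17], [2, 16], [3, 23, 31], [4, 30], [5, 29, 57, 45, 53, 33], [6, 32], [7, 39, 11],
    [8, 42], [12, 38], [13, 37, 25, 21, 61, 49], [14, 48], [15, 55, 43], [18, 40], [19, 47, 63], [20, 62], [22, 24],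
    [26, 36], [27, 35, 51, 59], [28, 58], [34, 52], [44, 54], [46, 56], [50, 60]]
  word := [[], [], [], [], [], [], [], [0, 2, 1, 3], [], [], [2, 0, 3, 1], [2, 0, 3, 1], [2, 0, 3, 1], [], [], [],
    [], [], [], [], [], [], [], [], [], [0, 3, 1], [0, 3, 1], [0], [0], [], [], [], [], [0], [0], [0, 2, 1], [0, 2,
    1], [0, 2, 1, 3], [0, 2, 1, 3], [], [], [], [], [], [], [], [], [], [], [2], [2], [1], [1], [], [], [], [], [1],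
    [1], [3], [3], [], [], []]
  rank := [0, 0, 1, 0, 1, 0, 1, 11, 0, 0, 11, 10, 9, 0, 1, 1, 0, 1, 2, 0, 1, 3, 2, 1, 3, 8, 7, 6, 5, 1, 0, 2, 0, 0,
    1, 7, 8, 9, 10, 1, 1, 0, 1, 2, 3, 4, 3, 2, 0, 1, 0, 1, 0, 3, 2, 1, 4, 5, 6, 0, 1, 1, 0, 3]
  just := [0, 0, 2, 0, 4, 0, 6, 7, 0, 0, 7, 9, 10, 0, 11, 8, 0, 1, 13, 0, 15, 16, 3, 2, 16, 17, 18, 19, 5, 4, 0, 3,
    0, 0, 20, 18, 17, 10, 9, 6, 1, 0, 8, 12, 21, 22, 14, 13, 0, 23, 0, 20, 0, 21, 12, 11, 22, 5, 19, 0, 23, 15, 0, 14]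
  gA := 33
  gB := 50
  fin := 0
  sid := [0, 1, 2, 3, 4, 5, 6, 7, 8, 1, 0, 7, 9, 10, 11, 12, 2, 1, 13, 14, 15, 10, 16, 3, 16, 10, 17, 18, 19, 5, 4,
    3, 6, 5, 20, 18, 17, 10, 9, 7, 13, 1, 8, 12, 21, 5, 22, 14, 11, 10, 23, 18, 20, 5, 21, 12, 22, 5, 19, 18, 23, 10,
    15, 14]
  off := [(0, 0), (0, 0), (0, 0), (0, 0), (0, 0), (0, 0), (0, 0), (0, 0), (0, 0), (0, 0), (0, 0), (0, 0), (0, 0), (0,
    0), (0, 0), (0, 0), (0, 0), (0, 0), (0, 0), (0, 0), (0, 0), (0, -1), (0, 0), (0, 0), (0, 0), (0, -1), (0, 0), (0,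
    0), (0, 0), (0, 0), (0, 0), (0, 0), (0, 0), (0, 0), (0, 0), (0, 1), (0, 1), (0, 0), (0, 0), (0, 0), (0, 0), (0,
    0), (0, 0), (0, 0), (0, 0), (-1, 0), (0, 0), (0, 0), (0, 0), (0, 0), (0, 0), (-1, 1), (-1, 0), (-1, 0), (0, 0),
    (0, 0), (0, 0), (-1, 0), (-1, 0), (-1, 0), (0, -1), (0, -1), (0, 0), (0, 0)]

/-- glued arcs and equations -/
def tord8b_86 : TorT :=
  ⟨[(0, 1, true), (0, 5, true), (1, 4, true), (2, 3, true), (2, 7, true), (3, 6, true), (4, 5, true), (6, 7, true)],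
    [([0, 0, 0, 0, 1, 0, 1, 0], 2), ([0, 0, 0, 1, 0, 0, 0, 2], 2), ([0, 0, 0, 4, 0, 0, 0, 0], 2), ([0, 0, 1, 0, 1, 0,
    0, 0], 2), ([0, 2, 0, 0, 0, 4, 0, 0], 2), ([0, 4, 0, 0, 0, 0, 0, 0], 2), ([1, 0, 0, 0, 0, 0, 1, 0], 2), ([1, 0,
    1, 0, 0, 0, 0, 0], 2)]⟩

theorem tord8b_86_ok : tord8b_86.OK 8 := TT.leaf_ok (T := ttd8b_86) (by decide +kernel)

/-- the torus -/
def ttd8b_87 : TT where
  k := 7
  rf := [false, false, false, false, false, false, false]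
  tau := [9, 12, 11, 18, 17, 28, 27, 10, 33, 0, 7, 2, 1, 40, 47, 34, 53, 4, 3, 26, 25, 44, 43, 54, 37, 20, 19, 6, 5,
    52, 51, 38, 49, 8, 15, 46, 45, 24, 31, 50, 13, 48, 55, 22, 21, 36, 35, 14, 41, 32, 39, 30, 29, 16, 23, 42]
  par := [0, 0, 3, 5, 8, 13, 16]
  stars := [[0, 10], [1, 9, 33, 49, 41, 13], [2, 12], [3, 11, 7, 27, 19], [4, 18], [5, 17, 53, 29], [6, 28], [8, 34],
    [14, 40], [15, 47, 35], [16, 54], [20, 26], [21, 25, 37, 45], [22, 44], [23, 43, 55], [24, 38], [30, 52], [31,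
    51, 39], [32, 50], [36, 46], [42, 48]]
  word := [[], [3, 0], [3, 0], [], [], [], [], [2, 1, 3, 0], [], [], [1, 2, 0, 3], [1, 2], [1, 2], [], [], [], [],
    [], [], [0, 3], [0, 3], [0], [0], [], [2], [2, 1], [2, 1], [], [], [], [], [2], [3], [], [], [], [], [3], [3],
    [3], [], [1], [1], [1], [1], [], [], [], [0], [2], [2], [], [], [], [], [0]]
  rank := [0, 6, 7, 0, 1, 0, 1, 8, 0, 0, 8, 7, 6, 0, 1, 1, 0, 1, 0, 5, 4, 1, 0, 1, 1, 4, 5, 1, 0, 2, 3, 0, 5, 0, 1,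
    2, 3, 1, 0, 4, 0, 3, 2, 0, 1, 3, 2, 1, 3, 5, 4, 3, 2, 0, 1, 2]
  just := [0, 1, 2, 0, 4, 0, 6, 3, 0, 0, 3, 2, 1, 0, 8, 7, 0, 4, 0, 11, 12, 13, 0, 10, 15, 12, 11, 6, 0, 5, 16, 0,
    18, 0, 7, 9, 19, 15, 0, 17, 0, 20, 14, 0, 13, 19, 9, 8, 20, 18, 17, 16, 5, 0, 10, 14]
  gA := 22
  gB := 31
  fin := 0
  sid := [0, 1, 2, 3, 4, 5, 6, 3, 7, 1, 0, 3, 2, 1, 8, 9, 10, 5, 4, 3, 11, 12, 13, 14, 15, 12, 11, 3, 6, 5, 16, 17,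
    18, 1, 7, 9, 19, 12, 15, 17, 8, 1, 20, 14, 13, 12, 19, 9, 20, 1, 18, 17, 16, 5, 10, 14]
  off := [(0, 0), (0, 0), (0, 0), (0, 0), (0, 0), (0, 0), (0, 0), (-1, 1), (0, 0), (0, 0), (0, 0), (-1, 1), (-1, 1),
    (-1, 1), (0, 0), (0, 0), (0, 0), (0, 0), (0, 0), (0, 0), (0, 0), (0, 0), (0, 0), (0, 0), (0, 0), (-1, 1), (-1,
    1), (-1, 1), (0, 0), (0, 0), (0, 0), (0, 0), (0, 0), (0, 0), (0, 0), (0, 0), (0, 0), (-1, 0), (0, -1), (0, -1),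
    (0, 0), (-1, 1), (0, 0), (-1, 0), (-1, 0), (-1, 0), (0, 0), (0, 0), (1, 0), (0, 1), (0, 1), (0, 0), (0, 0), (0,
    0), (0, 0), (0, 0)]

/-- glued arcs and equations -/
def tord8b_87 : TorT :=
  ⟨[(0, 1, true), (0, 5, true), (1, 4, true), (2, 3, true), (2, 7, true), (3, 6, true), (4, 5, true), (6, 7, true)],
    [([0, 0, 0, 0, 1, 0, 1, 0], 2), ([0, 0, 0, 1, 0, 0, 0, 2], 2), ([0, 0, 0, 4, 0, 0, 0, 1], 2), ([0, 0, 1, 0, 1, 0,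
    0, 0], 2), ([0, 1, 0, 0, 0, 3, 0, 0], 2), ([0, 5, 0, 0, 0, 1, 0, 0], 2), ([1, 0, 0, 0, 0, 0, 1, 0], 2), ([1, 0,
    1, 0, 0, 0, 0, 0], 2)]⟩

theorem tord8b_87_ok : tord8b_87.OK 8 := TT.leaf_ok (T := ttd8b_87) (by decide +kernel)

/-- the torus -/
def ttd8b_88 : TT where
  k := 9
  rf := [false, false, false, false, false, false, false, false, false]
  tau := [9, 16, 23, 30, 29, 32, 39, 10, 17, 0, 7, 46, 45, 48, 55, 18, 1, 8, 15, 62, 61, 64, 71, 2, 69, 44, 43, 58,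
    57, 4, 3, 70, 5, 52, 51, 66, 65, 40, 47, 6, 37, 60, 59, 26, 25, 12, 11, 38, 13, 68, 67, 34, 33, 56, 63, 14, 53,
    28, 27, 42, 41, 20, 19, 54, 21, 36, 35, 50, 49, 24, 31, 22]
  par := [0, 0, 1, 3, 5, 11, 13, 19, 21]
  stars := [[0, 10], [1, 9, 17], [2, 16], [3, 23, 71, 31], [4, 30], [5, 29, 57, 53, 33], [6, 32], [7, 39, 47, 11],
    [8, 18], [12, 46], [13, 45, 25, 69, 49], [14, 48], [15, 55, 63, 19], [20, 62], [21, 61, 41, 37, 65], [22, 64],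
    [24, 70], [26, 44], [27, 43, 59], [28, 58], [34, 52], [35, 51, 67], [36, 66], [38, 40], [42, 60], [50, 68], [54,
    56]]
  word := [[], [], [], [], [], [], [], [2, 1, 3, 0], [], [], [1, 2, 0, 3], [], [], [], [], [], [], [], [], [], [],
    [], [], [], [], [0], [0], [2], [2], [], [], [], [], [2], [2], [2, 1], [2, 1], [2, 1, 3, 0], [2, 1, 3, 0], [], [1,
    2, 0, 3], [1, 2], [1, 2], [1], [1], [], [], [1, 2, 0, 3], [], [1], [1], [3], [3], [], [], [], [], [3], [3], [3,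
    0], [3, 0], [], [], [], [], [0, 3], [0, 3], [0], [0], [], [], []]
  rank := [0, 0, 1, 0, 1, 0, 1, 11, 1, 0, 11, 0, 1, 0, 1, 2, 0, 1, 2, 0, 1, 0, 1, 1, 3, 0, 1, 1, 0, 1, 0, 2, 0, 5, 6,
    7, 8, 9, 10, 1, 9, 3, 2, 1, 0, 1, 0, 10, 0, 4, 5, 6, 5, 4, 3, 1, 4, 0, 1, 2, 3, 1, 0, 3, 0, 8, 7, 5, 4, 3, 2, 1]
  just := [0, 0, 2, 0, 4, 0, 6, 7, 1, 0, 7, 0, 9, 0, 11, 8, 0, 1, 8, 0, 13, 0, 15, 2, 16, 0, 17, 19, 0, 4, 0, 3, 0,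
    5, 20, 21, 22, 14, 23, 6, 14, 24, 18, 17, 0, 9, 0, 23, 0, 10, 25, 20, 5, 26, 12, 11, 26, 0, 19, 18, 24, 13, 0,
    12, 0, 22, 21, 25, 10, 16, 3, 15]
  gA := 25
  gB := 28
  fin := 0
  sid := [0, 1, 2, 3, 4, 5, 6, 7, 8, 1, 0, 7, 9, 10, 11, 12, 2, 1, 8, 12, 13, 14, 15, 3, 16, 10, 17, 18, 19, 5, 4, 3,
    6, 5, 20, 21, 22, 14, 23, 7, 23, 14, 24, 18, 17, 10, 9, 7, 11, 10, 25, 21, 20, 5, 26, 12, 26, 5, 19, 18, 24, 14,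
    13, 12, 15, 14, 22, 21, 25, 10, 16, 3]
  off := [(0, 0), (0, 0), (0, 0), (0, 0), (0, 0), (0, 0), (0, 0), (0, 0), (0, 0), (0, 0), (0, 0), (0, 0), (0, 0), (0,
    0), (0, 0), (0, 0), (0, 0), (0, 0), (0, 0), (0, 0), (0, 0), (0, 0), (0, 0), (0, 0), (0, 0), (1, 0), (0, 0), (0,
    0), (0, 0), (0, 0), (0, 0), (0, 0), (0, 0), (0, 0), (0, 0), (0, 0), (0, 0), (-1, 1), (0, 0), (0, 0), (0, 0), (-1,
    1), (0, 0), (-1, 0), (-1, 0), (0, 0), (0, 0), (0, 0), (0, 0), (0, 0), (0, 0), (0, -1), (0, -1), (0, -1), (0, 0),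
    (0, 0), (0, 0), (0, -1), (0, -1), (0, -1), (1, -1), (0, 0), (0, 0), (0, 0), (0, 0), (0, 0), (1, -1), (1, -1), (1,
    0), (1, 0), (0, 0), (0, 0)]

/-- glued arcs and equations -/
def tord8b_88 : TorT :=
  ⟨[(0, 1, true), (0, 5, true), (1, 4, true), (2, 3, true), (2, 7, true), (3, 6, true), (4, 5, true), (6, 7, true)],
    [([0, 0, 0, 0, 1, 0, 1, 0], 2), ([0, 0, 0, 1, 0, 0, 0, 3], 2), ([0, 0, 0, 3, 0, 0, 0, 0], 2), ([0, 0, 1, 0, 1, 0,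
    0, 0], 2), ([0, 2, 0, 0, 0, 3, 0, 0], 2), ([0, 3, 0, 0, 0, 0, 0, 0], 2), ([1, 0, 0, 0, 0, 0, 1, 0], 2), ([1, 0,
    1, 0, 0, 0, 0, 0], 2)]⟩

theorem tord8b_88_ok : tord8b_88.OK 8 := TT.leaf_ok (T := ttd8b_88) (by decide +kernel)

/-- the torus -/
def ttd8b_89 : TT where
  k := 2
  rf := [false, false]
  tau := [9, 12, 11, 14, 13, 8, 15, 10, 5, 0, 7, 2, 1, 4, 3, 6]
  par := [0, 0]
  stars := [[0, 10], [1, 9, 5, 13], [2, 12], [3, 11, 7, 15], [4, 14], [6, 8]]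
  word := [[], [3, 0], [3, 0], [0], [0], [2], [2], [2, 1, 3, 0], [3], [], [1, 2, 0, 3], [1, 2], [1, 2], [1], [1], [3]]
  rank := [0, 1, 2, 1, 0, 0, 1, 3, 0, 0, 3, 2, 1, 0, 1, 1]
  just := [0, 1, 2, 4, 0, 0, 5, 3, 0, 0, 3, 2, 1, 0, 4, 5]
  gA := 4
  gB := 5
  fin := 0
  sid := [0, 1, 2, 3, 4, 1, 5, 3, 5, 1, 0, 3, 2, 1, 4, 3]
  off := [(0, 0), (0, 0), (0, 0), (0, 0), (0, 0), (0, 1), (0, 0), (-1, 1), (0, -1), (0, 0), (0, 0), (-1, 1), (-1, 1),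
    (-1, 1), (-1, 0), (-1, 0)]

/-- glued arcs and equations -/
def tord8b_89 : TorT :=
  ⟨[(0, 1, true), (0, 5, true), (1, 4, true), (2, 3, true), (2, 7, true), (3, 6, true), (4, 5, true), (6, 7, true)],
    [([0, 0, 0, 0, 1, 0, 1, 0], 2), ([0, 0, 0, 2, 0, 0, 0, 2], 2), ([0, 0, 1, 0, 1, 0, 0, 0], 2), ([0, 2, 0, 0, 0, 2,
    0, 0], 2), ([1, 0, 0, 0, 0, 0, 1, 0], 2), ([1, 0, 1, 0, 0, 0, 0, 0], 2)]⟩

theorem tord8b_89_ok : tord8b_89.OK 8 := TT.leaf_ok (T := ttd8b_89) (by decide +kernel)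

end Pool.Agent.Lib_MP_fa6e45
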