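import Pool.Agent.Lib_MP_fa6e45.CT5

/-!
MP_fa6e45_co, stage 9: straight-side patterns with `8` sides, tables of tori (generated by a program).
-/

namespace Pool.Agent.Lib_MP_fa6e45

/-- the torus -/
def ttd8b_90 : TT where
  k := 2
  rf := [false, true]
  tau := [10, 5, 4, 13, 2, 1, 8, 9, 6, 7, 0, 15, 14, 3, 12, 11]
  par := [0, 0]
  stars := [[0, 10], [1, 11, 8, 6], [2, 5], [3, 4, 14, 13], [7, 9], [12, 15]]
  word := [[], [0, 2, 1], [0, 2, 1], [0], [0, 3, 1], [0, 3, 1], [0, 3, 1, 2], [0, 3, 1, 2], [3, 0, 2, 1], [3, 0, 2,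
    1], [], [2], [2], [1], [3], [3]]
  rank := [0, 2, 1, 0, 1, 2, 3, 4, 3, 4, 0, 1, 0, 0, 0, 1]
  just := [0, 2, 3, 0, 3, 2, 1, 4, 1, 4, 0, 5, 0, 0, 0, 5]
  gA := 3
  gB := 12
  fin := 0
  sid := [0, 1, 2, 3, 3, 2, 1, 4, 1, 4, 0, 1, 5, 3, 3, 5]
  off := [(0, 0), (0, 0), (0, 0), (0, 0), (0, -1), (0, -1), (0, -1), (0, 0), (0, -1), (0, 0), (0, 0), (0, 0), (0, 0),
    (-1, 0), (-1, -1), (0, -1)]

/-- glued arcs and equations -/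
def tord8b_90 : TorT :=
  ⟨[(0, 2, false), (0, 6, false), (1, 5, true), (1, 7, false), (2, 4, true), (3, 5, false), (3, 7, true), (4, 6,
    true)],
    [([0, 0, 0, 0, 1, 0, 0, 1], 2), ([0, 0, 0, 1, 1, 1, 1, 0], 2), ([0, 0, 1, 0, 0, 1, 0, 0], 2), ([0, 1, 0, 0, 0, 0,
    0, 1], 2), ([1, 0, 1, 0, 0, 0, 0, 0], 2), ([1, 1, 0, 1, 0, 0, 1, 0], 2)]⟩

theorem tord8b_90_ok : tord8b_90.OK 8 := TT.leaf_ok (T := ttd8b_90) (by decide +kernel)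

/-- the torus -/
def ttd8b_91 : TT where
  k := 4
  rf := [false, true, true, false]
  tau := [10, 11, 8, 9, 18, 19, 20, 17, 2, 3, 0, 1, 26, 27, 28, 25, 30, 7, 4, 5, 6, 31, 24, 29, 22, 15, 12, 13, 14,
    23, 16, 21]
  par := [0, 0, 4, 12]
  stars := [[0, 18, 4, 10], [1, 11], [2, 12, 26, 8], [3, 9], [5, 19], [6, 20], [7, 21, 31, 17], [13, 27], [14, 28],
    [15, 25, 23, 29], [16, 30], [22, 24]]
  word := [[], [], [1, 2], [1, 2], [], [], [], [0, 3], [3, 0], [3, 0], [], [], [], [], [], [3, 0], [2], [2, 1], [],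
    [], [], [0], [0], [2], [1], [1, 2], [], [], [], [3], [3], [1]]
  rank := [0, 1, 4, 5, 0, 1, 2, 3, 4, 5, 0, 1, 0, 1, 2, 3, 1, 3, 0, 1, 2, 1, 0, 0, 0, 3, 0, 1, 2, 0, 1, 1]
  just := [0, 1, 2, 3, 0, 4, 5, 6, 2, 3, 0, 1, 0, 7, 8, 9, 10, 6, 0, 4, 5, 11, 0, 0, 0, 9, 0, 7, 8, 0, 10, 11]
  gA := 22
  gB := 23
  fin := 0
  sid := [0, 1, 2, 3, 0, 4, 5, 6, 2, 3, 0, 1, 2, 7, 8, 9, 10, 6, 0, 4, 5, 6, 11, 9, 11, 9, 2, 7, 8, 9, 10, 6]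
  off := [(0, 0), (0, 0), (0, 0), (0, 0), (-1, 1), (0, 0), (0, 0), (0, 0), (1, -1), (1, -1), (0, 0), (0, 0), (0, 0),
    (0, 0), (0, 0), (0, 0), (0, 0), (-1, 1), (-1, 1), (0, 0), (0, 0), (0, 0), (0, 0), (0, 1), (-1, 0), (-1, 1), (0,
    0), (0, 0), (0, 0), (0, 0), (0, -1), (-1, 0)]

/-- glued arcs and equations -/
def tord8b_91 : TorT :=
  ⟨[(0, 2, false), (0, 6, false), (1, 3, false), (1, 7, false), (2, 4, false), (3, 5, false), (4, 6, false), (5, 7,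
    false)],
    [([0, 0, 0, 0, 1, 0, 1, 0], 2), ([0, 0, 0, 1, 0, 1, 0, 0], 2), ([0, 1, 0, 0, 0, 1, 0, 2], 2), ([0, 1, 0, 1, 0, 0,
    0, 0], 2), ([1, 0, 0, 0, 0, 0, 1, 0], 2), ([1, 0, 2, 0, 1, 0, 0, 0], 2)]⟩

theorem tord8b_91_ok : tord8b_91.OK 8 := TT.leaf_ok (T := ttd8b_91) (by decide +kernel)

end Pool.Agent.Lib_MP_fa6e45
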