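import Pool.Agent.Lib_MP_fa6e45.CT5

/-!
MP_fa6e45_co, stage 9: straight-side patterns with `8` sides, tables of tori (generated by a program).
-/

namespace Pool.Agent.Lib_MP_fa6e45

/-- the torus -/
def ttd8b_12 : TT where
  k := 10
  rf := [false, false, false, true, false, false, true, false, false, false]
  tau := [8, 6, 22, 21, 28, 37, 1, 15, 0, 14, 46, 45, 52, 61, 9, 7, 35, 34, 65, 64, 71, 3, 2, 36, 48, 30, 69, 70, 4,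
    38, 25, 55, 67, 66, 17, 16, 23, 5, 29, 68, 59, 58, 73, 72, 79, 11, 10, 60, 24, 54, 77, 78, 12, 62, 49, 31, 75,
    74, 41, 40, 47, 13, 53, 76, 19, 18, 33, 32, 39, 26, 27, 20, 43, 42, 57, 56, 63, 50, 51, 44]
  par := [0, 0, 2, 4, 5, 10, 12, 13, 18, 42]
  stars := [[0, 15, 9], [1, 8, 7], [2, 6, 37, 23], [3, 22], [4, 21, 71, 28], [5, 29, 38], [10, 14, 61, 47], [11, 46],
    [12, 45, 79, 52], [13, 53, 62], [16, 36], [17, 35], [18, 34, 66], [19, 65], [20, 64], [24, 49, 55], [25, 31, 48],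
    [26, 69, 39, 30], [27, 70], [32, 68], [33, 67], [40, 60], [41, 59], [42, 58, 74], [43, 73], [44, 72], [50, 77,
    63, 54], [51, 78], [56, 76], [57, 75]]
  word := [[], [0, 3], [], [], [], [], [2, 1], [2, 1], [], [1, 2], [], [], [], [], [3, 0], [0, 3], [0, 3], [0, 3],
    [], [], [], [], [], [0, 3], [0], [0, 3], [], [], [], [], [2, 1], [2], [2, 1], [2, 1], [2, 1], [2, 1], [2, 1], [],
    [], [2, 1], [1, 2], [1, 2], [], [], [], [], [], [1, 2], [1], [1, 2], [], [], [], [], [3, 0], [3], [3, 0], [3, 0],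
    [3, 0], [3, 0], [3, 0], [], [], [3, 0], [], [], [0, 3], [0, 3], [0, 3], [], [], [], [], [], [1, 2], [1, 2], [1,
    2], [], [], []]
  rank := [0, 11, 0, 1, 0, 0, 11, 12, 0, 11, 0, 1, 0, 0, 11, 12, 9, 8, 0, 1, 2, 1, 0, 10, 0, 1, 4, 3, 0, 1, 1, 0, 6,
    7, 8, 9, 10, 0, 1, 5, 9, 8, 0, 1, 2, 1, 0, 10, 0, 1, 4, 3, 0, 1, 1, 0, 6, 7, 8, 9, 10, 0, 1, 5, 1, 0, 7, 6, 5, 4,
    3, 2, 1, 0, 7, 6, 5, 4, 3, 2]
  just := [0, 2, 0, 3, 0, 0, 2, 1, 0, 6, 0, 7, 0, 0, 6, 1, 11, 12, 0, 13, 14, 3, 0, 10, 0, 16, 18, 4, 0, 5, 16, 0,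
    19, 20, 12, 11, 10, 0, 5, 17, 22, 23, 0, 24, 25, 7, 0, 21, 0, 15, 27, 8, 0, 9, 15, 0, 28, 29, 23, 22, 21, 0, 9,
    26, 13, 0, 20, 19, 17, 18, 4, 14, 24, 0, 29, 28, 26, 27, 8, 25]
  gA := 24
  gB := 31
  fin := 0
  sid := [0, 1, 2, 3, 4, 5, 2, 1, 1, 0, 6, 7, 8, 9, 6, 0, 10, 11, 12, 13, 14, 4, 3, 2, 15, 16, 17, 18, 4, 5, 17, 16,
    19, 20, 12, 11, 10, 2, 5, 17, 21, 22, 23, 24, 25, 8, 7, 6, 16, 15, 26, 27, 8, 9, 26, 15, 28, 29, 23, 22, 21, 6,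
    9, 26, 14, 13, 12, 20, 19, 17, 18, 4, 25, 24, 23, 29, 28, 26, 27, 8]
  off := [(0, 0), (0, 0), (0, 0), (0, 0), (0, 0), (0, 0), (-1, 1), (-1, 1), (0, 0), (0, 0), (0, 0), (0, 0), (0, 0),
    (0, 0), (1, -1), (1, -1), (0, 0), (0, 0), (0, 0), (0, 0), (0, 0), (0, 0), (0, 0), (0, 0), (0, 0), (0, 0), (0, 0),
    (0, 0), (0, 0), (0, 0), (-1, 1), (-1, 1), (0, 0), (0, 0), (-1, 1), (-1, 1), (-1, 1), (-1, 1), (0, 0), (-1, 1),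
    (0, 0), (0, 0), (0, 0), (0, 0), (0, 0), (0, 0), (0, 0), (0, 0), (-1, 0), (-1, 0), (0, 0), (0, 0), (0, 0), (0, 0),
    (1, -1), (0, -1), (0, 0), (0, 0), (1, -1), (1, -1), (1, -1), (1, -1), (0, 0), (1, -1), (0, 0), (0, 0), (0, 0),
    (1, -1), (1, -1), (0, 0), (0, 0), (0, 0), (0, 0), (0, 0), (0, 0), (-1, 1), (-1, 1), (0, 0), (0, 0), (0, 0)]

/-- glued arcs and equations -/
def tord8b_12 : TorT :=
  ⟨[(0, 0, true), (0, 3, true), (1, 2, true), (1, 6, true), (2, 5, false), (2, 6, true), (3, 5, true), (3, 6, false),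
    (4, 4, false), (4, 7, true), (5, 5, true), (5, 6, false), (7, 7, true)],
    [([0, 0, 0, 0, 0, 2, 1, 0], 2), ([0, 0, 0, 0, 2, 1, 0, 1], 2), ([0, 0, 0, 1, 0, 0, 1, 0], 2), ([0, 0, 1, 0, 0, 1,
    1, 1], 2), ([0, 0, 3, 0, 0, 0, 0, 0], 2), ([0, 1, 0, 1, 0, 0, 0, 0], 2), ([1, 0, 0, 0, 1, 0, 0, 0], 2), ([1, 1,
    0, 0, 0, 0, 0, 1], 2)]⟩

theorem tord8b_12_ok : tord8b_12.OK 8 := TT.leaf_ok (T := ttd8b_12) (by decide +kernel)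

/-- the torus -/
def ttd8b_13 : TT where
  k := 4
  rf := [false, false, false, false]
  tau := [5, 14, 9, 8, 15, 0, 22, 23, 3, 2, 13, 27, 28, 10, 1, 4, 21, 30, 25, 24, 31, 16, 6, 7, 19, 18, 29, 11, 12,
    26, 17, 20]
  par := [0, 1, 6, 11]
  stars := [[0, 23, 6], [1, 5, 15], [2, 14, 10], [3, 9], [4, 8], [7, 22, 16], [11, 13, 28], [12, 27, 29], [17, 21,
    31], [18, 30, 26], [19, 25], [20, 24]]
  word := [[1], [], [0], [0], [0], [0], [], [2, 1, 3], [1], [1], [1], [], [0], [0], [], [1], [2, 0, 3], [2, 0], [2],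
    [2], [2], [2, 1, 3], [], [2, 0, 3], [3], [3], [0], [], [1], [1], [1, 3], [3]]
  rank := [5, 0, 2, 3, 4, 5, 0, 4, 3, 2, 1, 0, 0, 1, 0, 4, 3, 2, 1, 0, 1, 3, 0, 4, 0, 1, 1, 0, 0, 1, 2, 1]
  just := [1, 0, 2, 3, 4, 1, 0, 5, 3, 2, 6, 0, 0, 6, 0, 4, 8, 9, 10, 0, 11, 8, 0, 5, 0, 10, 7, 0, 0, 7, 9, 11]
  gA := 12
  gB := 19
  fin := 0
  sid := [0, 1, 2, 3, 4, 1, 0, 5, 4, 3, 2, 6, 7, 6, 2, 1, 5, 8, 9, 10, 11, 8, 5, 0, 11, 10, 9, 7, 6, 7, 9, 8]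
  off := [(0, 0), (0, 0), (0, 0), (0, 0), (0, 0), (1, 0), (1, 0), (0, 0), (-1, 0), (-1, 0), (-1, 0), (0, 0), (0, 0),
    (1, 0), (0, 0), (0, 0), (1, 0), (0, 0), (0, 0), (0, 0), (0, 0), (-1, 0), (0, 0), (1, 0), (0, -1), (0, -1), (0,
    -1), (0, 0), (0, 0), (-1, 0), (-1, -1), (-1, -1)]

/-- glued arcs and equations -/
def tord8b_13 : TorT :=
  ⟨[(0, 3, true), (0, 5, true), (1, 2, true), (1, 6, true), (2, 5, true), (3, 3, true), (4, 4, true), (4, 7, true),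
    (6, 6, true), (7, 7, true)],
    [([0, 0, 0, 1, 1, 1, 0, 0], 2), ([0, 0, 2, 0, 0, 0, 1, 0], 2), ([0, 1, 0, 0, 0, 1, 0, 1], 2), ([0, 1, 0, 1, 0, 0,
    0, 0], 2), ([1, 0, 0, 0, 0, 0, 1, 1], 2), ([1, 0, 0, 0, 1, 0, 0, 0], 2)]⟩

theorem tord8b_13_ok : tord8b_13.OK 8 := TT.leaf_ok (T := ttd8b_13) (by decide +kernel)

/-- the torus -/
def ttd8b_14 : TT where
  k := 8
  rf := [false, false, true, false, true, true, true, false]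
  tau := [11, 10, 22, 27, 39, 29, 16, 12, 46, 21, 1, 0, 7, 17, 42, 52, 6, 13, 41, 40, 47, 9, 2, 28, 59, 58, 38, 3,
    23, 5, 32, 60, 30, 61, 49, 48, 55, 57, 26, 4, 19, 18, 14, 51, 63, 53, 8, 20, 35, 34, 62, 43, 15, 45, 56, 36, 54,
    37, 25, 24, 31, 33, 50, 44]
  par := [0, 0, 2, 3, 4, 8, 15, 24]
  stars := [[0, 12], [1, 11], [2, 10, 22], [3, 23, 28], [4, 27, 39], [5, 32, 30], [6, 29, 16], [7, 17, 13], [8, 53,
    46], [9, 47, 21], [14, 18, 42], [15, 43, 52], [19, 41], [20, 40], [24, 60], [25, 59], [26, 58, 38], [31, 33, 61],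
    [34, 50, 62], [35, 49], [36, 48], [37, 57, 55], [44, 63, 51], [45, 54, 56]]
  word := [[], [], [], [], [], [0, 2], [0, 2], [0, 2, 1, 3], [], [], [], [], [2, 0, 3, 1], [2, 0], [2, 0], [], [3,
    1], [1, 3], [], [], [], [], [], [], [], [], [], [], [], [3, 1], [3, 1], [], [0, 2], [0, 2], [0], [0], [0], [],
    [], [], [], [], [1, 3], [1, 3], [1], [], [], [], [1], [1], [2], [2, 0], [], [], [1], [1], [0], [], [], [], [],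
    [3, 1], [3], [0]]
  rank := [0, 1, 0, 0, 0, 5, 6, 8, 0, 2, 1, 0, 8, 7, 6, 0, 6, 7, 5, 4, 3, 2, 0, 1, 0, 1, 1, 0, 1, 5, 4, 1, 4, 3, 2,
    1, 0, 2, 1, 0, 4, 5, 6, 5, 4, 1, 0, 3, 1, 2, 0, 5, 0, 1, 3, 0, 3, 2, 1, 0, 1, 3, 0, 4]
  just := [0, 1, 0, 0, 0, 5, 6, 7, 0, 2, 1, 0, 7, 10, 11, 0, 6, 10, 12, 13, 9, 2, 0, 3, 0, 15, 4, 0, 3, 5, 17, 14,
    17, 18, 19, 20, 0, 16, 4, 0, 13, 12, 11, 22, 23, 8, 0, 9, 20, 19, 0, 22, 0, 8, 21, 0, 21, 16, 15, 0, 14, 18, 0,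
    23]
  gA := 36
  gB := 50
  fin := 0
  sid := [0, 1, 2, 3, 4, 5, 6, 7, 8, 9, 2, 1, 0, 7, 10, 11, 6, 7, 10, 12, 13, 9, 2, 3, 14, 15, 16, 4, 3, 6, 5, 17, 5,
    17, 18, 19, 20, 21, 16, 4, 13, 12, 10, 11, 22, 23, 8, 9, 20, 19, 18, 22, 11, 8, 23, 21, 23, 21, 16, 15, 14, 17,
    18, 22]
  off := [(0, 0), (0, 0), (0, 0), (0, 0), (0, 0), (0, 0), (0, 0), (0, 0), (0, 0), (0, 0), (0, 0), (0, 0), (0, 0), (0,
    0), (0, 0), (0, 0), (-1, -1), (-1, -1), (-1, -1), (0, 0), (0, 0), (0, 0), (0, 0), (0, 0), (0, 0), (0, 0), (0, 0),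
    (0, 0), (0, 0), (-1, -1), (-1, -1), (0, 0), (0, 0), (1, 1), (0, 0), (0, 0), (0, 0), (0, 0), (0, 0), (0, 0), (0,
    0), (0, 0), (-1, -1), (-1, -1), (0, 0), (0, 0), (0, 0), (0, 0), (-1, 0), (-1, 0), (-1, 0), (1, 1), (0, 0), (0,
    0), (0, 0), (-1, 0), (1, 0), (0, 0), (0, 0), (0, 0), (0, 0), (0, 0), (-1, -1), (1, 0)]

/-- glued arcs and equations -/
def tord8b_14 : TorT :=
  ⟨[(0, 3, true), (0, 6, false), (1, 2, true), (1, 5, false), (2, 6, false), (3, 3, true), (4, 7, false), (4, 7,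
    true), (5, 5, true)],
    [([0, 0, 0, 1, 1, 0, 0, 1], 2), ([0, 0, 2, 0, 0, 0, 1, 0], 2), ([0, 1, 0, 0, 0, 1, 0, 1], 2), ([0, 1, 0, 1, 0, 0,
    0, 0], 2), ([1, 0, 0, 0, 0, 1, 1, 0], 2), ([1, 0, 0, 0, 1, 0, 0, 0], 2)]⟩

theorem tord8b_14_ok : tord8b_14.OK 8 := TT.leaf_ok (T := ttd8b_14) (by decide +kernel)

/-- the torus -/
def ttd8b_15 : TT where
  k := 16
  rf := [false, false, true, true, true, false, false, true, false, true, false, true, true, false, false, true]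
  tau := [11, 10, 17, 18, 28, 33, 44, 12, 53, 61, 1, 0, 7, 64, 71, 54, 77, 2, 3, 27, 84, 88, 95, 78, 101, 82, 83, 19,
    4, 32, 39, 102, 29, 5, 57, 56, 63, 96, 103, 30, 109, 67, 66, 65, 6, 112, 119, 110, 69, 122, 123, 115, 60, 8, 15,
    70, 35, 34, 113, 114, 52, 9, 76, 36, 13, 43, 42, 41, 86, 48, 55, 14, 93, 99, 98, 97, 62, 16, 23, 94, 107, 106,
    25, 26, 20, 89, 68, 108, 21, 85, 121, 120, 127, 72, 79, 22, 37, 75, 74, 73, 126, 24, 31, 38, 117, 125, 81, 80,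
    87, 40, 47, 118, 45, 58, 59, 51, 124, 104, 111, 46, 91, 90, 49, 50, 116, 105, 100, 92]
  par := [0, 0, 2, 4, 5, 6, 8, 9, 13, 16, 20, 21, 24, 40, 45, 49]
  stars := [[0, 12], [1, 11], [2, 10, 62, 77, 17], [3, 18], [4, 19, 28], [5, 29, 33], [6, 34, 58, 113, 45], [7, 44,
    65, 13], [8, 54], [9, 53, 61], [14, 64], [15, 71, 55], [16, 78], [20, 84, 27], [21, 89, 85], [22, 88], [23, 79,
    95], [24, 102], [25, 82, 106, 126, 101], [26, 83], [30, 32], [31, 103, 39], [35, 57], [36, 56], [37, 97, 76, 63],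
    [38, 96], [40, 110], [41, 109, 87, 68], [42, 67], [43, 66], [46, 112], [47, 119, 111], [48, 70], [49, 69, 86, 90,
    122], [50, 123], [51, 124, 116], [52, 115, 60], [59, 114], [72, 94], [73, 100, 127, 93], [74, 99], [75, 98], [80,
    108], [81, 107], [91, 121], [92, 120], [104, 118], [105, 117, 125]]
  word := [[], [], [], [], [], [], [], [0, 3, 1, 2], [], [], [], [], [3, 0, 2, 1], [], [], [], [], [], [], [], [],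
    [], [], [], [], [], [], [], [], [], [], [], [], [], [0], [0], [0], [], [], [], [], [0, 3, 1, 2], [0, 3, 1, 2],
    [0, 3, 1, 2], [], [], [], [], [], [], [], [1], [], [], [], [], [1], [1], [1], [1], [], [], [], [1], [], [3, 0, 2,
    1], [3, 0, 2, 1], [3, 0, 2, 1], [3, 0], [], [], [], [], [1], [1], [1], [], [], [], [], [2, 1], [2, 1], [], [],
    [], [], [1, 2], [2, 1], [], [], [1, 2], [1, 2], [1, 2], [], [], [], [], [0], [0], [0], [2], [], [], [], [], [0],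
    [0, 3], [0, 3], [0, 3], [], [], [], [], [0], [0], [0], [0], [], [], [], [3, 0], [3, 0], [], [], [1], [1], [3],
    [3, 0]]
  rank := [0, 1, 0, 1, 0, 0, 0, 15, 0, 0, 1, 0, 15, 0, 1, 1, 0, 0, 1, 2, 0, 0, 1, 1, 0, 4, 3, 2, 0, 1, 2, 1, 1, 0, 0,
    1, 2, 4, 3, 2, 0, 12, 13, 14, 0, 0, 1, 1, 3, 0, 1, 3, 1, 0, 1, 2, 1, 0, 1, 2, 1, 0, 2, 2, 0, 14, 13, 12, 11, 3,
    2, 1, 3, 7, 6, 5, 2, 0, 1, 2, 7, 6, 4, 3, 0, 1, 11, 8, 0, 1, 10, 9, 8, 3, 2, 1, 4, 5, 6, 7, 0, 0, 1, 3, 3, 5, 6,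
    7, 8, 0, 1, 2, 0, 1, 2, 3, 4, 3, 2, 1, 9, 10, 0, 1, 4, 5, 0, 8]
  just := [0, 1, 0, 3, 0, 0, 0, 7, 0, 0, 1, 0, 7, 0, 10, 8, 0, 0, 3, 4, 0, 0, 15, 12, 0, 19, 13, 4, 0, 5, 20, 17, 5,
    0, 0, 22, 23, 25, 21, 20, 0, 27, 28, 29, 0, 0, 30, 26, 32, 0, 34, 36, 9, 0, 8, 11, 22, 0, 6, 37, 9, 0, 2, 23, 0,
    29, 28, 27, 33, 32, 11, 10, 38, 40, 41, 24, 2, 0, 12, 16, 43, 18, 19, 13, 0, 14, 33, 42, 0, 14, 44, 45, 39, 38,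
    16, 15, 25, 24, 41, 40, 0, 0, 17, 21, 46, 47, 18, 43, 42, 0, 26, 31, 0, 6, 37, 36, 35, 46, 31, 30, 45, 44, 0, 34,
    35, 47, 0, 39]
  gA := 34
  gB := 100
  fin := 0
  sid := [0, 1, 2, 3, 4, 5, 6, 7, 8, 9, 2, 1, 0, 7, 10, 11, 12, 2, 3, 4, 13, 14, 15, 16, 17, 18, 19, 13, 4, 5, 20,
    21, 20, 5, 6, 22, 23, 24, 25, 21, 26, 27, 28, 29, 7, 6, 30, 31, 32, 33, 34, 35, 36, 9, 8, 11, 23, 22, 6, 37, 36,
    9, 2, 24, 10, 7, 29, 28, 27, 33, 32, 11, 38, 39, 40, 41, 24, 2, 12, 16, 42, 43, 18, 19, 13, 14, 33, 27, 15, 14,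
    33, 44, 45, 39, 38, 16, 25, 24, 41, 40, 39, 18, 17, 21, 46, 47, 18, 43, 42, 27, 26, 31, 30, 6, 37, 36, 35, 47,
    46, 31, 45, 44, 33, 34, 35, 47, 18, 39]
  off := [(0, 0), (0, 0), (0, 0), (0, 0), (0, 0), (0, 0), (0, 0), (0, 0), (0, 0), (0, 0), (0, 0), (0, 0), (0, 0), (0,
    0), (0, 0), (0, 0), (0, 0), (0, 0), (0, 0), (0, 0), (0, 0), (0, 0), (0, 0), (0, 0), (0, 0), (0, 0), (0, 0), (0,
    0), (0, 0), (0, 0), (0, 0), (0, 0), (0, 0), (0, 0), (0, 0), (0, 0), (0, 0), (0, 0), (0, 0), (0, 0), (0, 0), (0,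
    0), (0, 0), (0, 0), (0, 0), (0, 0), (0, 0), (0, 0), (0, 0), (0, 0), (0, 0), (0, 0), (0, 0), (0, 0), (0, 0), (0,
    0), (-1, 0), (-1, 0), (-1, 0), (0, 0), (0, 0), (0, 0), (0, 0), (-1, 0), (0, 0), (0, 0), (0, 0), (0, 0), (0, 0),
    (0, 0), (0, 0), (0, 0), (0, 0), (0, 0), (0, 0), (0, 0), (-1, 0), (0, 0), (0, 0), (0, 0), (0, 0), (0, 0), (0, 0),
    (0, 0), (0, 0), (0, 0), (-1, 1), (-1, 1), (0, 0), (0, 0), (-1, 1), (0, 0), (0, 0), (0, 0), (0, 0), (0, 0), (0,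
    0), (0, 0), (1, 0), (1, 0), (1, 0), (0, 0), (0, 0), (0, 0), (0, 0), (0, 0), (1, -1), (1, -1), (1, -1), (0, 0),
    (0, 0), (0, 0), (0, 0), (0, 0), (1, 0), (1, 0), (1, 0), (0, 0), (0, 0), (0, 0), (1, -1), (1, -1), (0, 0), (0, 0),
    (0, 0), (-1, 0), (0, -1), (1, -1)]

/-- glued arcs and equations -/
def tord8b_15 : TorT :=
  ⟨[(0, 3, true), (0, 5, true), (1, 2, false), (1, 2, true), (1, 3, true), (1, 5, false), (2, 2, true), (2, 3,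
    false), (3, 3, true), (4, 4, false), (4, 6, true), (4, 7, true), (6, 7, true)],
    [([0, 0, 0, 0, 0, 0, 0, 3], 2), ([0, 0, 0, 1, 2, 0, 0, 0], 2), ([0, 0, 1, 1, 0, 0, 0, 0], 2), ([0, 1, 0, 0, 0, 2,
    0, 0], 2), ([0, 1, 0, 0, 1, 1, 0, 1], 2), ([0, 1, 0, 1, 0, 0, 0, 0], 2), ([0, 1, 2, 0, 0, 1, 1, 0], 2), ([1, 0,
    0, 0, 0, 0, 1, 0], 2), ([1, 0, 0, 0, 1, 0, 0, 0], 2)]⟩

theorem tord8b_15_ok : tord8b_15.OK 8 := TT.leaf_ok (T := ttd8b_15) (by decide +kernel)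

/-- the torus -/
def ttd8b_16 : TT where
  k := 16
  rf := [false, false, false, true, true, false, false, false, true, false, true, true, true, true, true, false]
  tau := [11, 10, 17, 16, 23, 26, 36, 12, 19, 18, 1, 0, 7, 40, 47, 20, 3, 2, 9, 8, 15, 53, 62, 4, 69, 61, 5, 35, 78,
    57, 86, 70, 93, 45, 77, 27, 6, 41, 102, 94, 13, 37, 109, 59, 118, 33, 54, 14, 75, 74, 121, 120, 127, 21, 46, 76,
    125, 29, 117, 43, 110, 25, 22, 126, 99, 98, 105, 104, 111, 24, 31, 100, 123, 122, 49, 48, 55, 34, 28, 124, 115,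
    114, 89, 88, 95, 101, 30, 116, 83, 82, 113, 112, 119, 32, 39, 84, 107, 106, 65, 64, 71, 85, 38, 108, 67, 66, 97,
    96, 103, 42, 60, 68, 91, 90, 81, 80, 87, 58, 44, 92, 51, 50, 73, 72, 79, 56, 63, 52]
  par := [0, 0, 2, 5, 6, 13, 21, 22, 24, 28, 30, 32, 38, 42, 44, 50]
  stars := [[0, 12], [1, 11], [2, 10, 18], [3, 17], [4, 16], [5, 23, 62, 26], [6, 27, 36], [7, 37, 41, 13], [8, 20],
    [9, 19], [14, 40], [15, 47, 54, 21], [22, 53, 127, 63], [24, 70], [25, 61, 111, 69], [28, 78, 35], [29, 57, 125,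
    79], [30, 87, 117, 58], [31, 71, 101, 86], [32, 94], [33, 45, 119, 93], [34, 77, 55, 46], [38, 103, 109, 42],
    [39, 95, 85, 102], [43, 110, 60], [44, 59, 118], [48, 76], [49, 75], [50, 74, 122], [51, 121], [52, 120], [56,
    126], [64, 100], [65, 99], [66, 106, 98], [67, 105], [68, 104], [72, 124], [73, 123], [80, 116], [81, 115], [82,
    90, 114], [83, 89], [84, 88], [91, 113], [92, 112], [96, 108], [97, 107]]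
  word := [[], [], [], [], [], [], [], [1, 3, 0, 2], [], [], [], [], [3, 1, 2, 0], [], [], [], [], [], [], [], [],
    [], [], [], [], [], [], [], [], [1], [], [], [], [1], [], [], [], [1, 3, 0, 2], [], [], [], [3, 1, 2, 0], [], [3,
    1], [], [0], [], [], [0], [0], [], [], [], [], [], [0], [], [0], [0, 2], [0, 2], [0, 2], [], [], [], [2, 0], [2,
    0], [0, 2], [0, 2], [0, 2], [], [], [2, 0], [1], [1], [1], [1], [1], [], [], [1], [2], [2], [2, 0], [2, 0], [2,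
    0], [2, 0], [], [2], [1, 3], [1, 3], [1], [1], [1], [], [], [1, 3], [1, 3, 0, 2], [1, 3, 0, 2], [1, 3], [1, 3],
    [1, 3], [1, 3], [], [1, 3, 0, 2], [3, 1], [3, 1], [3, 1, 2, 0], [3, 1, 2, 0], [3, 1, 2, 0], [], [3, 1], [3, 1],
    [0], [0], [3], [3], [3], [3, 1], [], [0], [], [], [0], [0], [0], [], [], []]
  rank := [0, 1, 0, 1, 2, 0, 0, 21, 3, 2, 1, 0, 21, 0, 1, 4, 1, 0, 2, 3, 4, 0, 0, 2, 0, 3, 0, 1, 0, 5, 0, 1, 0, 6, 2,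
    1, 0, 20, 0, 1, 0, 20, 0, 7, 0, 6, 5, 1, 0, 1, 0, 1, 2, 0, 5, 1, 4, 5, 6, 7, 8, 3, 0, 3, 15, 16, 11, 10, 9, 0, 1,
    14, 3, 2, 1, 0, 1, 2, 0, 4, 0, 1, 10, 11, 12, 13, 0, 1, 11, 10, 9, 8, 7, 0, 1, 12, 18, 17, 16, 15, 14, 13, 0, 19,
    10, 11, 17, 18, 19, 0, 8, 9, 8, 9, 1, 0, 1, 6, 0, 7, 1, 0, 2, 3, 4, 4, 3, 2]
  just := [0, 1, 0, 3, 4, 0, 0, 7, 9, 2, 1, 0, 7, 0, 10, 8, 3, 0, 2, 9, 8, 0, 0, 4, 0, 5, 0, 6, 0, 16, 0, 13, 0, 21,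
    15, 6, 0, 22, 0, 19, 0, 22, 0, 25, 0, 21, 11, 10, 0, 27, 0, 29, 30, 0, 11, 26, 31, 16, 17, 25, 24, 5, 0, 12, 32,
    33, 35, 36, 14, 0, 13, 18, 38, 28, 27, 0, 26, 15, 0, 37, 0, 40, 41, 42, 43, 23, 0, 39, 42, 41, 44, 45, 20, 0, 19,
    43, 47, 34, 33, 32, 18, 23, 0, 46, 36, 35, 34, 47, 46, 0, 24, 14, 45, 44, 40, 0, 39, 17, 0, 20, 29, 0, 28, 38,
    37, 31, 12, 30]
  gA := 48
  gB := 80
  fin := 0
  sid := [0, 1, 2, 3, 4, 5, 6, 7, 8, 9, 2, 1, 0, 7, 10, 11, 4, 3, 2, 9, 8, 11, 12, 5, 13, 14, 5, 6, 15, 16, 17, 18,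
    19, 20, 21, 15, 6, 7, 22, 23, 10, 7, 22, 24, 25, 20, 21, 11, 26, 27, 28, 29, 30, 12, 11, 21, 31, 16, 17, 25, 24,
    14, 5, 12, 32, 33, 34, 35, 36, 14, 13, 18, 37, 38, 28, 27, 26, 21, 15, 16, 39, 40, 41, 42, 43, 23, 18, 17, 43,
    42, 41, 44, 45, 20, 19, 23, 46, 47, 34, 33, 32, 18, 23, 22, 36, 35, 34, 47, 46, 22, 24, 14, 45, 44, 41, 40, 39,
    17, 25, 20, 30, 29, 28, 38, 37, 16, 31, 12]
  off := [(0, 0), (0, 0), (0, 0), (0, 0), (0, 0), (0, 0), (0, 0), (0, 0), (0, 0), (0, 0), (0, 0), (0, 0), (0, 0), (0,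
    0), (0, 0), (0, 0), (0, 0), (0, 0), (0, 0), (0, 0), (0, 0), (0, 0), (0, 0), (0, 0), (0, 0), (0, 0), (0, 0), (0,
    0), (0, 0), (0, 0), (0, 0), (0, 0), (0, 0), (0, 0), (0, 0), (0, 0), (0, 0), (0, 0), (0, 0), (0, 0), (0, 0), (0,
    0), (0, 0), (0, 0), (0, 0), (1, 0), (1, 0), (0, 0), (0, 0), (0, 0), (0, 0), (0, 0), (0, 0), (0, 0), (0, 0), (1,
    0), (0, 0), (1, 0), (1, 0), (1, 1), (1, 1), (0, 0), (0, 0), (0, 0), (0, 0), (0, 0), (0, 0), (0, 0), (0, 0), (0,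
    0), (0, 0), (0, 0), (0, 0), (0, 0), (-1, 0), (-1, 0), (-1, 0), (0, 0), (0, 0), (0, 0), (0, 0), (0, 0), (0, 0),
    (0, 0), (0, 0), (1, 1), (0, 0), (0, 0), (-1, -1), (-1, -1), (-1, -1), (0, 0), (0, 0), (0, 0), (0, 0), (0, 0), (0,
    0), (0, 0), (-1, -1), (-1, -1), (-1, -1), (-1, -1), (0, 0), (0, 0), (-1, -1), (-1, -1), (-1, -1), (0, 0), (0, 0),
    (0, 0), (0, 0), (-1, -1), (1, 0), (1, 0), (0, -1), (0, -1), (0, -1), (0, -1), (0, 0), (1, 0), (0, 0), (0, 0), (0,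
    0), (1, 0), (1, 0), (1, 0), (0, 0), (0, 0)]

/-- glued arcs and equations -/
def tord8b_16 : TorT :=
  ⟨[(0, 3, true), (0, 5, true), (1, 2, true), (1, 5, false), (2, 5, false), (3, 3, true), (4, 6, false), (4, 7,
    true), (5, 5, true), (6, 6, true), (6, 7, true)],
    [([0, 0, 0, 0, 0, 1, 1, 2], 2), ([0, 0, 0, 1, 1, 0, 1, 0], 2), ([0, 0, 1, 0, 0, 1, 1, 1], 2), ([0, 0, 3, 0, 0, 0,
    0, 0], 2), ([0, 1, 0, 0, 0, 2, 0, 1], 2), ([0, 1, 0, 1, 0, 0, 0, 0], 2), ([1, 0, 0, 0, 0, 0, 1, 0], 2), ([1, 0,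
    0, 0, 1, 0, 0, 0], 2)]⟩

theorem tord8b_16_ok : tord8b_16.OK 8 := TT.leaf_ok (T := ttd8b_16) (by decide +kernel)

/-- the torus -/
def ttd8b_17 : TT where
  k := 8
  rf := [false, false, false, true, false, false, true, false]
  tau := [13, 17, 24, 25, 20, 32, 39, 14, 37, 43, 42, 41, 55, 0, 7, 38, 45, 1, 48, 49, 4, 56, 63, 46, 2, 3, 57, 58,
    52, 35, 36, 44, 5, 50, 51, 29, 30, 8, 15, 6, 61, 11, 10, 9, 31, 16, 23, 62, 18, 19, 33, 34, 28, 59, 60, 12, 21,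
    26, 27, 53, 54, 40, 47, 22]
  par := [0, 0, 1, 2, 5, 9, 12, 21]
  stars := [[0, 14], [1, 13, 48, 18], [2, 17, 45, 24], [3, 25], [4, 26, 57, 21], [5, 20, 50, 33], [6, 32], [7, 39,
    15], [8, 38], [9, 37, 31, 44], [10, 43], [11, 42], [12, 41, 61, 55], [16, 46], [19, 49], [22, 56], [23, 63, 47],
    [27, 58], [28, 53, 59], [29, 35, 52], [30, 36], [34, 51], [40, 62], [54, 60]]
  word := [[], [], [], [], [0], [], [], [0, 2, 1, 3], [2, 0, 3, 1], [], [], [], [], [], [2, 0, 3, 1], [2, 0, 3, 1],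
    [3], [], [], [], [1], [], [], [3], [], [], [0], [0], [0, 3], [0, 3, 1], [0, 3, 1], [3], [], [0], [0], [0, 2, 1],
    [0, 2, 1], [0, 2, 1, 3], [0, 2, 1, 3], [], [2], [], [], [], [2], [2], [2], [2], [], [], [1], [1], [2, 1], [2],
    [2], [], [], [1], [1], [3], [3], [3], [3], []]
  rank := [0, 0, 0, 1, 0, 0, 1, 10, 8, 0, 1, 2, 0, 0, 10, 9, 3, 0, 1, 2, 0, 0, 1, 2, 0, 1, 2, 3, 5, 6, 7, 4, 0, 3, 4,
    6, 7, 8, 9, 1, 0, 2, 1, 0, 4, 3, 2, 1, 1, 2, 3, 4, 5, 4, 3, 0, 0, 2, 3, 4, 3, 0, 1, 1]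
  just := [0, 0, 0, 3, 0, 0, 6, 7, 9, 0, 10, 11, 0, 0, 7, 8, 13, 0, 1, 14, 0, 0, 15, 16, 0, 3, 4, 17, 18, 19, 20, 2,
    0, 5, 21, 19, 20, 9, 8, 6, 0, 11, 10, 0, 2, 13, 16, 22, 1, 14, 5, 21, 18, 23, 12, 0, 0, 4, 17, 23, 12, 0, 22, 15]
  gA := 4
  gB := 40
  fin := 0
  sid := [0, 1, 2, 3, 4, 5, 6, 7, 8, 9, 10, 11, 12, 1, 0, 7, 13, 2, 1, 14, 5, 4, 15, 16, 2, 3, 4, 17, 18, 19, 20, 9,
    6, 5, 21, 19, 20, 9, 8, 7, 22, 12, 11, 10, 9, 2, 13, 16, 1, 14, 5, 21, 19, 18, 23, 12, 15, 4, 17, 18, 23, 12, 22,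
    16]
  off := [(0, 0), (0, 0), (0, 0), (0, 0), (0, 0), (0, 0), (0, 0), (0, 0), (0, 0), (0, 0), (0, 0), (0, 0), (0, 0), (0,
    0), (0, 0), (0, 0), (0, 0), (0, 0), (0, 0), (0, 0), (-1, 0), (-1, 0), (0, 0), (0, 0), (0, 0), (0, 0), (0, 0), (0,
    0), (0, 0), (0, 0), (0, 0), (0, -1), (0, 0), (0, 0), (0, 0), (0, 1), (0, 1), (0, 0), (0, 0), (0, 0), (0, 0), (0,
    0), (0, 0), (0, 0), (0, 0), (0, 1), (0, 1), (0, 1), (0, 0), (0, 0), (-1, 0), (-1, 0), (-1, 1), (-1, 1), (0, 0),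
    (0, 0), (0, 0), (-1, 0), (-1, 0), (-1, 0), (0, -1), (0, -1), (0, -1), (0, 0)]

/-- glued arcs and equations -/
def tord8b_17 : TorT :=
  ⟨[(0, 2, false), (0, 5, true), (1, 1, true), (1, 2, false), (1, 3, false), (1, 3, true), (2, 2, true), (2, 3,
    false), (3, 5, false), (4, 4, true), (4, 6, false), (4, 7, false), (6, 7, true)],
    [([0, 0, 0, 0, 0, 0, 0, 3], 2), ([0, 0, 0, 0, 1, 0, 1, 0], 2), ([0, 0, 0, 1, 1, 1, 0, 0], 2), ([0, 0, 1, 1, 0, 0,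
    0, 0], 2), ([0, 1, 0, 0, 1, 1, 0, 1], 2), ([0, 1, 0, 1, 0, 0, 0, 0], 2), ([0, 1, 1, 0, 1, 1, 0, 0], 2), ([1, 0,
    0, 0, 0, 0, 1, 0], 2), ([1, 1, 1, 0, 0, 1, 0, 0], 2)]⟩

theorem tord8b_17_ok : tord8b_17.OK 8 := TT.leaf_ok (T := ttd8b_17) (by decide +kernel)

end Pool.Agent.Lib_MP_fa6e45
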