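import Pool.Agent.Lib_MP_fa6e45.CT5

/-!
MP_fa6e45_co, stage 9: straight-side patterns with `8` sides, tables of tori (generated by a program).
-/

namespace Pool.Agent.Lib_MP_fa6e45

/-- the torus -/
def ttd8b_18 : TT where
  k := 4
  rf := [false, false, false, false]
  tau := [10, 17, 25, 24, 31, 21, 22, 30, 19, 18, 0, 29, 28, 27, 23, 20, 26, 1, 9, 8, 15, 5, 6, 14, 3, 2, 16, 13, 12,
    11, 7, 4]
  par := [0, 0, 1, 2]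
  stars := [[0, 30, 11], [1, 10, 18], [2, 17, 26], [3, 25], [4, 24], [5, 31, 7, 22], [6, 21, 15, 23], [8, 20], [9,
    19], [12, 29], [13, 28], [14, 27, 16]]
  word := [[], [], [], [], [], [0, 3], [0], [0, 2, 1], [], [], [], [2], [2], [2], [2], [], [], [], [], [], [], [2,
    1], [1], [3], [], [], [], [3], [3], [3], [0, 3, 1], []]
  rank := [0, 0, 0, 1, 2, 4, 0, 5, 2, 1, 0, 2, 1, 0, 2, 3, 1, 0, 1, 2, 3, 4, 0, 2, 1, 0, 1, 0, 1, 2, 5, 2]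
  just := [0, 0, 0, 3, 4, 6, 0, 5, 8, 1, 0, 9, 10, 0, 11, 7, 2, 0, 1, 8, 7, 6, 0, 11, 3, 0, 2, 0, 10, 9, 5, 4]
  gA := 6
  gB := 13
  fin := 0
  sid := [0, 1, 2, 3, 4, 5, 6, 5, 7, 8, 1, 0, 9, 10, 11, 6, 11, 2, 1, 8, 7, 6, 5, 6, 4, 3, 2, 11, 10, 9, 0, 5]
  off := [(0, 0), (0, 0), (0, 0), (0, 0), (0, 0), (0, 0), (0, 0), (0, 1), (0, 0), (0, 0), (0, 0), (0, 0), (0, 0), (0,
    0), (0, 0), (-1, 1), (0, -1), (0, 0), (0, 0), (0, 0), (0, 0), (-1, 1), (-1, 1), (-1, 0), (0, 0), (0, 0), (0, 0),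
    (0, -1), (0, -1), (0, -1), (0, -1), (0, 0)]

/-- glued arcs and equations -/
def tord8b_18 : TorT :=
  ⟨[(0, 2, true), (0, 3, true), (1, 1, true), (1, 2, true), (3, 5, true), (4, 4, true), (4, 7, true), (5, 5, true),
    (6, 6, true), (6, 7, true)],
    [([0, 0, 0, 0, 0, 1, 1, 2], 2), ([0, 0, 0, 0, 1, 1, 0, 0], 2), ([0, 1, 0, 1, 0, 0, 0, 0], 2), ([0, 1, 2, 0, 0, 0,
    0, 0], 2), ([1, 0, 0, 0, 1, 0, 0, 0], 2), ([1, 0, 0, 1, 0, 0, 1, 0], 2)]⟩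

theorem tord8b_18_ok : tord8b_18.OK 8 := TT.leaf_ok (T := ttd8b_18) (by decide +kernel)

/-- the torus -/
def ttd8b_19 : TT where
  k := 4
  rf := [false, false, false, false]
  tau := [11, 10, 18, 25, 20, 8, 15, 12, 5, 19, 1, 0, 7, 29, 30, 6, 27, 26, 2, 9, 4, 24, 31, 28, 21, 3, 17, 16, 23,
    13, 14, 22]
  par := [0, 0, 2, 3]
  stars := [[0, 12], [1, 11], [2, 10, 19], [3, 18, 26], [4, 25, 21], [5, 20, 9], [6, 8], [7, 15, 30, 13], [14, 29,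
    23, 31], [16, 28], [17, 27], [22, 24]]
  word := [[], [], [], [], [3], [3], [3], [3, 0, 2, 1], [2], [], [], [], [0, 3, 1, 2], [0, 3], [0], [2], [], [], [],
    [], [2], [2], [2], [], [3], [], [], [], [], [2, 1], [1], [3]]
  rank := [0, 1, 0, 0, 1, 3, 4, 5, 3, 2, 1, 0, 5, 4, 0, 4, 2, 1, 0, 2, 1, 0, 1, 3, 0, 0, 1, 2, 3, 4, 0, 1]
  just := [0, 1, 0, 0, 4, 5, 6, 7, 5, 2, 1, 0, 7, 8, 0, 6, 10, 3, 0, 2, 4, 0, 11, 9, 0, 0, 3, 10, 9, 8, 0, 11]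
  gA := 14
  gB := 21
  fin := 0
  sid := [0, 1, 2, 3, 4, 5, 6, 7, 6, 5, 2, 1, 0, 7, 8, 7, 9, 10, 3, 2, 5, 4, 11, 8, 11, 4, 3, 10, 9, 8, 7, 8]
  off := [(0, 0), (0, 0), (0, 0), (0, 0), (0, 0), (0, 0), (0, 0), (0, 0), (0, 1), (0, 1), (0, 0), (0, 0), (0, 0), (0,
    0), (0, 0), (0, 1), (0, 0), (0, 0), (0, 0), (0, 0), (0, 1), (0, 1), (0, 0), (-1, 1), (0, -1), (0, 0), (0, 0), (0,
    0), (0, 0), (-1, 1), (-1, 1), (-1, 0)]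

/-- glued arcs and equations -/
def tord8b_19 : TorT :=
  ⟨[(0, 3, true), (0, 5, true), (1, 2, true), (1, 3, true), (2, 2, true), (4, 4, true), (4, 7, true), (5, 5, true),
    (6, 6, true), (6, 7, true)],
    [([0, 0, 0, 0, 0, 1, 1, 2], 2), ([0, 0, 2, 1, 0, 0, 0, 0], 2), ([0, 1, 0, 0, 1, 1, 0, 0], 2), ([0, 1, 0, 1, 0, 0,
    0, 0], 2), ([1, 0, 0, 0, 0, 0, 1, 0], 2), ([1, 0, 0, 0, 1, 0, 0, 0], 2)]⟩

theorem tord8b_19_ok : tord8b_19.OK 8 := TT.leaf_ok (T := ttd8b_19) (by decide +kernel)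

/-- the torus -/
def ttd8b_20 : TT where
  k := 8
  rf := [false, false, true, true, true, true, true, true]
  tau := [8, 21, 29, 13, 12, 11, 38, 46, 0, 53, 37, 5, 4, 3, 30, 62, 35, 34, 57, 56, 63, 1, 54, 36, 43, 42, 49, 48,
    55, 2, 14, 44, 59, 58, 17, 16, 23, 10, 6, 60, 51, 50, 25, 24, 31, 61, 7, 52, 27, 26, 41, 40, 47, 9, 22, 28, 19,
    18, 33, 32, 39, 45, 15, 20]
  par := [0, 0, 1, 2, 6, 7, 9, 15]
  stars := [[0, 47, 53, 9], [1, 8, 63, 21], [2, 22, 55, 29], [3, 30, 14], [4, 13], [5, 12], [6, 11, 38], [7, 39, 61,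
    46], [10, 54, 23, 37], [15, 31, 45, 62], [16, 36], [17, 35], [18, 58, 34], [19, 57], [20, 56], [24, 44], [25,
    43], [26, 50, 42], [27, 49], [28, 48], [32, 60], [33, 59], [40, 52], [41, 51]]
  word := [[], [], [], [0], [0], [0], [], [], [], [], [1], [1], [1], [1], [1], [], [2], [2], [], [], [], [], [2, 0],
    [2], [0, 2], [0, 2], [2, 0], [2, 0], [2, 0], [], [0], [0, 2], [3], [3], [3], [3], [3], [0], [], [3], [3, 1, 2,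
    0], [3, 1, 2, 0], [3, 1], [3, 1], [3, 1], [3], [], [3, 1, 2, 0], [1, 3], [1, 3], [1, 3, 0, 2], [1, 3, 0, 2], [1,
    3, 0, 2], [], [1, 3], [1, 3], [], [], [2], [2], [2], [2], [], []]
  rank := [0, 0, 0, 2, 1, 0, 0, 0, 0, 0, 1, 0, 1, 2, 3, 0, 1, 0, 3, 2, 1, 0, 3, 2, 9, 10, 6, 5, 4, 0, 3, 8, 5, 4, 0,
    1, 2, 1, 0, 6, 12, 11, 10, 9, 8, 7, 0, 13, 5, 6, 11, 12, 13, 0, 3, 4, 2, 3, 4, 5, 6, 7, 0, 1]
  just := [0, 0, 0, 4, 5, 0, 0, 0, 0, 0, 6, 0, 5, 4, 3, 0, 11, 0, 13, 14, 1, 0, 8, 10, 15, 16, 18, 19, 2, 0, 3, 9,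
    21, 12, 0, 11, 10, 6, 0, 20, 23, 17, 16, 15, 9, 7, 0, 22, 19, 18, 17, 23, 22, 0, 8, 2, 14, 13, 12, 21, 20, 7, 0,
    1]
  gA := 5
  gB := 17
  fin := 0
  sid := [0, 1, 2, 3, 4, 5, 6, 7, 1, 0, 8, 6, 5, 4, 3, 9, 10, 11, 12, 13, 14, 1, 2, 8, 15, 16, 17, 18, 19, 2, 3, 9,
    20, 21, 12, 11, 10, 8, 6, 7, 22, 23, 17, 16, 15, 9, 7, 0, 19, 18, 17, 23, 22, 0, 8, 2, 14, 13, 12, 21, 20, 7, 9,
    1]
  off := [(0, 0), (0, 0), (0, 0), (0, 0), (0, 0), (0, 0), (0, 0), (0, 0), (0, 0), (0, 0), (0, 0), (-1, 0), (-1, 0),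
    (-1, 0), (-1, 0), (0, 0), (0, 0), (0, 0), (0, 0), (0, 0), (0, 0), (0, 0), (0, 0), (1, 1), (0, 0), (0, 0), (0, 0),
    (0, 0), (0, 0), (0, 0), (0, 0), (1, 0), (0, 0), (0, 0), (0, -1), (0, -1), (0, -1), (1, 0), (0, 0), (0, 0), (0,
    0), (0, 0), (-1, -1), (-1, -1), (-1, -1), (0, -1), (0, 0), (0, 0), (-1, -1), (-1, -1), (-1, -1), (0, 0), (0, 0),
    (0, 0), (0, 0), (-1, -1), (0, 0), (0, 0), (0, 0), (0, 1), (0, 1), (0, 1), (0, 0), (0, 0)]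

/-- glued arcs and equations -/
def tord8b_20 : TorT :=
  ⟨[(0, 0, true), (0, 3, true), (1, 2, true), (1, 5, false), (2, 5, false), (3, 5, true), (4, 4, true), (4, 7, true),
    (5, 5, true), (6, 6, false), (6, 6, true), (6, 7, false)],
    [([0, 0, 0, 0, 0, 1, 1, 2], 2), ([0, 0, 0, 0, 1, 1, 0, 0], 2), ([0, 0, 0, 1, 0, 0, 2, 0], 2), ([0, 0, 1, 0, 0, 1,
    1, 1], 2), ([0, 0, 3, 0, 0, 0, 0, 0], 2), ([0, 1, 0, 1, 0, 0, 0, 0], 2), ([1, 0, 0, 0, 1, 0, 0, 0], 2), ([1, 1,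
    0, 0, 0, 1, 0, 1], 2)]⟩

theorem tord8b_20_ok : tord8b_20.OK 8 := TT.leaf_ok (T := ttd8b_20) (by decide +kernel)

/-- the torus -/
def ttd8b_21 : TT where
  k := 4
  rf := [false, false, false, false]
  tau := [10, 4, 18, 19, 1, 9, 8, 11, 6, 5, 0, 7, 30, 29, 28, 31, 26, 20, 2, 3, 17, 25, 24, 27, 22, 21, 16, 23, 14,
    13, 12, 15]
  par := [0, 0, 2, 12]
  stars := [[0, 11], [1, 10, 5], [2, 4, 19], [3, 18, 20], [6, 9], [7, 8, 31, 12], [13, 30], [14, 29], [15, 28, 23,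
    24], [16, 27], [17, 26, 21], [22, 25]]
  word := [[], [3], [], [2], [2], [2], [2], [2, 1, 3, 0], [3], [3], [], [1, 2, 0, 3], [], [], [], [1, 3, 0], [0],
    [2], [], [3], [3], [3, 0], [3, 0], [0], [1, 2], [1, 2], [1], [1], [], [], [], [1, 2, 0]]
  rank := [0, 2, 0, 1, 2, 3, 4, 5, 4, 3, 0, 5, 0, 1, 2, 3, 0, 0, 0, 1, 0, 1, 2, 1, 2, 1, 0, 1, 2, 1, 0, 3]
  just := [0, 2, 0, 3, 2, 1, 4, 5, 4, 1, 0, 5, 0, 6, 7, 8, 0, 0, 0, 3, 0, 10, 11, 9, 11, 10, 0, 9, 7, 6, 0, 8]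
  gA := 16
  gB := 17
  fin := 0
  sid := [0, 1, 2, 3, 2, 1, 4, 5, 5, 4, 1, 0, 5, 6, 7, 8, 9, 10, 3, 2, 3, 10, 11, 8, 8, 11, 10, 9, 8, 7, 6, 5]
  off := [(0, 0), (0, 0), (0, 0), (0, 0), (0, 1), (0, 1), (0, 0), (0, 0), (0, -1), (0, -1), (0, 0), (0, 0), (0, 0),
    (0, 0), (0, 0), (0, 0), (0, 0), (0, 0), (0, 0), (0, 0), (0, -1), (0, -1), (0, 0), (1, 0), (0, 1), (-1, 1), (-1,
    0), (-1, 0), (0, 0), (0, 0), (0, 0), (0, 0)]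

/-- glued arcs and equations -/
def tord8b_21 : TorT :=
  ⟨[(0, 2, true), (0, 6, true), (1, 4, true), (1, 5, true), (2, 2, true), (3, 3, true), (3, 7, true), (4, 6, true),
    (5, 5, true), (7, 7, true)],
    [([0, 0, 0, 0, 0, 1, 1, 0], 2), ([0, 0, 1, 1, 1, 0, 0, 0], 2), ([0, 1, 0, 0, 0, 0, 1, 0], 2), ([0, 1, 1, 0, 0, 1,
    0, 0], 2), ([1, 0, 0, 0, 1, 0, 0, 2], 2), ([1, 0, 0, 1, 0, 0, 0, 0], 2)]⟩

theorem tord8b_21_ok : tord8b_21.OK 8 := TT.leaf_ok (T := ttd8b_21) (by decide +kernel)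

/-- the torus -/
def ttd8b_22 : TT where
  k := 8
  rf := [false, false, true, false, true, false, true, true]
  tau := [8, 20, 24, 31, 14, 13, 12, 35, 0, 36, 40, 47, 6, 5, 4, 19, 50, 29, 30, 15, 1, 25, 26, 51, 2, 21, 22, 63,
    49, 17, 18, 3, 58, 45, 46, 7, 9, 41, 42, 59, 10, 37, 38, 55, 57, 33, 34, 11, 56, 28, 16, 23, 62, 61, 60, 43, 48,
    44, 32, 39, 54, 53, 52, 27]
  par := [0, 0, 1, 2, 7, 10, 16, 27]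
  stars := [[0, 36, 9], [1, 8, 20], [2, 21, 25], [3, 24], [4, 31, 19, 15], [5, 14], [6, 13], [7, 12, 47, 35], [10,
    37, 41], [11, 40], [16, 51], [17, 29, 50], [18, 30], [22, 26], [23, 52, 63, 27], [28, 56, 49], [32, 59], [33, 45,
    58], [34, 46], [38, 42], [39, 60, 55, 43], [44, 48, 57], [53, 62], [54, 61]]
  word := [[], [], [], [], [0], [0], [0], [], [], [2, 0, 3, 1], [], [], [1], [1], [1], [], [], [1], [1], [], [], [],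
    [], [], [], [], [], [], [0], [0], [0], [], [0, 2], [0], [0], [], [0, 2, 1, 3], [0, 2, 1, 3], [0, 2, 1, 3], [0,
    2], [], [2, 0, 3, 1], [2, 0, 3, 1], [2, 0], [2], [1], [1], [], [1], [1], [], [], [], [], [], [1, 3], [0], [3],
    [3, 1], [3, 1], [], [], [], []]
  rank := [0, 0, 0, 1, 0, 1, 2, 0, 0, 9, 0, 1, 2, 1, 0, 1, 0, 3, 2, 1, 0, 1, 2, 1, 0, 1, 2, 0, 4, 3, 2, 1, 5, 4, 3,
    0, 9, 8, 7, 6, 0, 8, 7, 6, 0, 4, 3, 1, 5, 4, 0, 1, 3, 4, 5, 6, 5, 0, 5, 6, 5, 4, 3, 0]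
  just := [0, 0, 0, 3, 0, 5, 6, 0, 0, 8, 0, 9, 6, 5, 0, 1, 0, 12, 4, 1, 0, 2, 13, 10, 0, 2, 13, 0, 11, 12, 4, 3, 17,
    18, 7, 0, 8, 19, 20, 16, 0, 19, 20, 21, 0, 18, 7, 9, 15, 11, 0, 10, 14, 22, 23, 21, 15, 0, 17, 16, 23, 22, 14, 0]
  gA := 4
  gB := 44
  fin := 0
  sid := [0, 1, 2, 3, 4, 5, 6, 7, 1, 0, 8, 9, 7, 6, 5, 4, 10, 11, 12, 4, 1, 2, 13, 14, 3, 2, 13, 14, 15, 11, 12, 4,
    16, 17, 18, 7, 0, 8, 19, 20, 9, 8, 19, 20, 21, 17, 18, 7, 21, 15, 11, 10, 14, 22, 23, 20, 15, 21, 17, 16, 20, 23,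
    22, 14]
  off := [(0, 0), (0, 0), (0, 0), (0, 0), (0, 0), (0, 0), (0, 0), (0, 0), (0, 0), (0, 0), (0, 0), (0, 0), (-1, 0),
    (-1, 0), (-1, 0), (-1, 0), (0, 0), (0, 0), (0, 0), (-1, 0), (0, 0), (0, 0), (0, 0), (0, 0), (0, 0), (0, 0), (0,
    0), (0, 0), (0, 0), (1, 0), (1, 0), (0, 0), (0, 0), (0, 0), (0, 0), (0, 0), (0, 0), (0, 0), (0, 0), (0, 0), (0,
    0), (0, 0), (0, 0), (0, 0), (0, 0), (-1, 0), (-1, 0), (-1, 0), (-1, -1), (-1, 0), (0, 0), (0, 0), (0, 0), (0, 0),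
    (0, 0), (-1, -1), (0, 0), (0, -1), (-1, -1), (-1, -1), (-1, -1), (0, 0), (0, 0), (0, 0)]

/-- glued arcs and equations -/
def tord8b_22 : TorT :=
  ⟨[(0, 0, true), (0, 2, true), (1, 4, false), (1, 5, false), (2, 6, false), (3, 7, false), (3, 7, true), (4, 6,
    true), (5, 5, true)],
    [([0, 0, 0, 0, 0, 1, 1, 0], 2), ([0, 0, 0, 1, 1, 0, 0, 2], 2), ([0, 0, 1, 0, 0, 0, 1, 0], 2), ([0, 1, 1, 0, 0, 1,
    0, 0], 2), ([1, 0, 0, 1, 0, 0, 0, 0], 2), ([1, 1, 0, 0, 1, 0, 0, 0], 2)]⟩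

theorem tord8b_22_ok : tord8b_22.OK 8 := TT.leaf_ok (T := ttd8b_22) (by decide +kernel)

/-- the torus -/
def ttd8b_23 : TT where
  k := 4
  rf := [false, false, false, false]
  tau := [10, 9, 8, 22, 21, 16, 23, 15, 2, 1, 0, 30, 29, 24, 31, 7, 5, 20, 26, 27, 17, 4, 3, 6, 13, 28, 18, 19, 25,
    12, 11, 14]
  par := [0, 0, 3, 11]
  stars := [[0, 15, 31, 11], [1, 10], [2, 9], [3, 8, 7, 23], [4, 22], [5, 21, 17], [6, 16], [12, 30], [13, 29, 25],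
    [14, 24], [18, 20, 27], [19, 26, 28]]
  word := [[], [], [], [], [], [2, 1], [2, 1], [2, 1], [], [], [], [], [], [3, 0], [3, 0], [0, 3], [0, 3], [0, 3],
    [0], [2], [2, 1], [], [], [0, 3], [1, 2], [1, 2], [1], [3], [3, 0], [], [], [1, 2]]
  rank := [0, 1, 2, 0, 1, 2, 3, 4, 2, 1, 0, 0, 1, 2, 3, 4, 2, 1, 0, 0, 1, 1, 0, 3, 2, 1, 0, 0, 1, 1, 0, 3]
  just := [0, 1, 2, 0, 4, 5, 6, 3, 2, 1, 0, 0, 7, 8, 9, 3, 5, 10, 0, 0, 10, 4, 0, 6, 8, 11, 0, 0, 11, 7, 0, 9]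
  gA := 18
  gB := 19
  fin := 0
  sid := [0, 1, 2, 3, 4, 5, 6, 3, 3, 2, 1, 0, 7, 8, 9, 0, 6, 5, 10, 11, 10, 5, 4, 3, 9, 8, 11, 10, 11, 8, 7, 0]
  off := [(0, 0), (0, 0), (0, 0), (0, 0), (0, 0), (0, 0), (0, 0), (-1, 1), (0, 0), (0, 0), (0, 0), (0, 0), (0, 0),
    (0, 0), (0, 0), (1, -1), (1, -1), (1, -1), (0, 0), (0, 0), (-1, 1), (0, 0), (0, 0), (0, 0), (-1, 1), (-1, 1),
    (-1, 0), (-1, 0), (0, -1), (0, 0), (0, 0), (0, 0)]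

/-- glued arcs and equations -/
def tord8b_23 : TorT :=
  ⟨[(0, 2, true), (0, 5, true), (1, 1, true), (1, 4, true), (2, 2, true), (3, 3, true), (3, 6, true), (4, 5, true),
    (6, 7, true), (7, 7, true)],
    [([0, 0, 0, 0, 1, 0, 1, 0], 2), ([0, 0, 1, 1, 1, 0, 0, 0], 2), ([0, 1, 0, 0, 0, 2, 0, 0], 2), ([0, 1, 1, 0, 0, 0,
    0, 0], 2), ([1, 0, 0, 0, 0, 0, 1, 0], 2), ([1, 0, 0, 1, 0, 0, 0, 2], 2)]⟩

theorem tord8b_23_ok : tord8b_23.OK 8 := TT.leaf_ok (T := ttd8b_23) (by decide +kernel)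

end Pool.Agent.Lib_MP_fa6e45
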