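import Pool.Agent.Lib_MP_fa6e45.CT5

/-!
MP_fa6e45_co, stage 9: straight-side patterns with `8` sides, tables of tori (generated by a program).
-/

namespace Pool.Agent.Lib_MP_fa6e45

/-- the torus -/
def ttd8b_24 : TT where
  k := 8
  rf := [false, false, false, false, false, false, false, false]
  tau := [8, 21, 20, 30, 29, 36, 35, 46, 0, 45, 44, 54, 53, 60, 59, 22, 42, 41, 40, 31, 2, 1, 15, 39, 50, 49, 48, 38,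
    37, 4, 3, 19, 58, 57, 56, 6, 5, 28, 27, 23, 18, 17, 16, 55, 10, 9, 7, 63, 26, 25, 24, 62, 61, 12, 11, 43, 34, 33,
    32, 14, 13, 52, 51, 47]
  par := [0, 0, 1, 3, 5, 7, 11, 13]
  stars := [[0, 46, 9], [1, 8, 22], [2, 21], [3, 20, 31], [4, 30], [5, 29, 37], [6, 36], [7, 35, 56, 47], [10, 45],
    [11, 44, 55], [12, 54], [13, 53, 61], [14, 60], [15, 59, 32, 23], [16, 39, 27, 48, 43], [17, 42], [18, 41], [19,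
    40, 63, 51, 24], [25, 50], [26, 49], [28, 38], [33, 58], [34, 57], [52, 62]]
  word := [[], [], [], [], [], [], [], [], [], [1, 2, 0, 3], [1, 2, 0, 3], [], [], [], [], [], [0, 3], [0, 3], [0,
    3], [], [], [], [], [3], [0], [0], [0], [], [], [], [], [], [2], [2], [2], [], [], [], [], [2], [2, 1], [2, 1],
    [2, 1], [2, 1, 3, 0], [2, 1, 3, 0], [2, 1, 3, 0], [], [2], [1], [1], [1], [], [], [], [], [1, 2, 0, 3], [3], [3],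
    [3], [], [], [], [], [3]]
  rank := [0, 0, 1, 0, 1, 0, 1, 0, 0, 9, 8, 0, 1, 0, 1, 1, 6, 5, 4, 2, 1, 0, 1, 3, 0, 1, 2, 3, 2, 1, 0, 2, 2, 1, 0,
    1, 0, 2, 3, 3, 4, 5, 6, 7, 8, 9, 0, 2, 2, 1, 0, 3, 2, 1, 0, 7, 0, 1, 2, 1, 0, 2, 3, 2]
  just := [0, 0, 2, 0, 4, 0, 6, 0, 0, 8, 9, 0, 10, 0, 12, 1, 15, 16, 17, 3, 2, 0, 1, 13, 0, 18, 19, 20, 5, 4, 0, 3,
    21, 22, 0, 6, 0, 5, 20, 13, 17, 16, 15, 14, 9, 8, 0, 7, 19, 18, 0, 23, 11, 10, 0, 14, 0, 22, 21, 12, 0, 11, 23, 7]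
  gA := 24
  gB := 34
  fin := 0
  sid := [0, 1, 2, 3, 4, 5, 6, 7, 1, 0, 8, 9, 10, 11, 12, 13, 14, 15, 16, 17, 3, 2, 1, 13, 17, 18, 19, 14, 20, 5, 4,
    3, 13, 21, 22, 7, 6, 5, 20, 14, 17, 16, 15, 14, 9, 8, 0, 7, 14, 19, 18, 17, 23, 11, 10, 9, 7, 22, 21, 13, 12, 11,
    23, 17]
  off := [(0, 0), (0, 0), (0, 0), (0, 0), (0, 0), (0, 0), (0, 0), (0, 0), (0, 0), (0, 0), (0, 0), (0, 0), (0, 0), (0,
    0), (0, 0), (0, 0), (0, 0), (0, 0), (0, 0), (0, 0), (0, 0), (0, 0), (0, 0), (0, 0), (0, 0), (0, 0), (0, 0), (0,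
    1), (0, 0), (0, 0), (0, 0), (0, 0), (0, 1), (0, 0), (0, 0), (0, 0), (0, 0), (0, 0), (0, 0), (0, 1), (-1, 1), (-1,
    1), (-1, 1), (-1, 1), (0, 0), (0, 0), (0, 0), (0, 0), (-1, 1), (-1, 0), (-1, 0), (-1, 0), (0, 0), (0, 0), (0, 0),
    (0, 0), (0, -1), (0, -1), (0, -1), (0, 0), (0, 0), (0, 0), (0, 0), (-1, 0)]

/-- glued arcs and equations -/
def tord8b_24 : TorT :=
  ⟨[(0, 0, true), (0, 2, true), (1, 1, true), (1, 5, true), (2, 4, true), (3, 6, true), (3, 7, true), (4, 5, true),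
    (6, 7, true), (7, 7, true)],
    [([0, 0, 0, 0, 0, 3, 0, 0], 2), ([0, 0, 0, 0, 1, 0, 1, 0], 2), ([0, 0, 0, 1, 1, 0, 0, 1], 2), ([0, 0, 1, 0, 0, 1,
    0, 0], 2), ([0, 1, 1, 0, 0, 0, 0, 0], 2), ([1, 0, 0, 1, 0, 0, 0, 2], 2), ([1, 1, 0, 0, 0, 0, 1, 0], 2), ([2, 0,
    0, 2, 0, 0, 0, 1], 2)]⟩

theorem tord8b_24_ok : tord8b_24.OK 8 := TT.leaf_ok (T := ttd8b_24) (by decide +kernel)

/-- the torus -/
def ttd8b_25 : TT where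
  k := 12
  rf := [false, false, false, false, false, false, false, false, false, false, false, false]
  tau := [8, 21, 20, 30, 29, 36, 35, 46, 0, 45, 44, 54, 53, 60, 59, 22, 34, 33, 32, 31, 2, 1, 15, 47, 66, 65, 64, 78,
    77, 4, 3, 19, 18, 17, 16, 6, 5, 76, 75, 67, 58, 57, 56, 55, 10, 9, 7, 23, 82, 81, 80, 94, 93, 12, 11, 43, 42, 41,
    40, 14, 13, 92, 91, 83, 26, 25, 24, 39, 74, 73, 95, 87, 88, 69, 68, 38, 37, 28, 27, 86, 50, 49, 48, 63, 90, 89,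
    79, 71, 72, 85, 84, 62, 61, 52, 51, 70]
  par := [0, 0, 1, 3, 5, 7, 11, 13, 24, 27, 48, 51]
  stars := [[0, 46, 9], [1, 8, 22], [2, 21], [3, 20, 31], [4, 30], [5, 29, 77, 37], [6, 36], [7, 35, 16, 47], [10,
    45], [11, 44, 55], [12, 54], [13, 53, 93, 61], [14, 60], [15, 59, 40, 23], [17, 34], [18, 33], [19, 32, 67, 24],
    [25, 66], [26, 65], [27, 64, 87, 79], [28, 78], [38, 76], [39, 75, 68], [41, 58], [42, 57], [43, 56, 83, 48],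
    [49, 82], [50, 81], [51, 80, 71, 95], [52, 94], [62, 92], [63, 91, 84], [69, 74], [70, 73, 88], [72, 86, 89],
    [85, 90]]
  word := [[], [], [], [], [], [], [], [], [], [3, 0, 2, 1], [3, 0, 2, 1], [], [], [], [], [], [1], [1], [1], [], [],
    [], [], [1], [], [], [], [], [], [], [], [], [0], [0], [0], [], [], [], [], [0], [0], [0], [0], [0, 3, 1, 2], [0,
    3, 1, 2], [0, 3, 1, 2], [], [0], [], [], [], [], [], [], [], [3, 0, 2, 1], [1], [1], [1], [], [], [], [], [3, 1,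
    2], [], [], [], [1], [1], [1], [2], [2], [0, 2], [0], [0], [], [], [], [], [2], [], [], [], [3, 0, 2], [3, 0, 2],
    [3, 0, 2], [3], [3], [3, 1], [3, 1, 2], [3, 1, 2], [], [], [], [], [3]]
  rank := [0, 0, 1, 0, 1, 0, 1, 0, 0, 12, 11, 0, 1, 0, 1, 1, 5, 4, 3, 2, 1, 0, 1, 6, 0, 1, 2, 0, 1, 1, 0, 2, 3, 4, 5,
    1, 0, 2, 3, 0, 7, 8, 9, 10, 11, 12, 0, 6, 0, 1, 2, 0, 1, 1, 0, 10, 9, 8, 7, 1, 0, 2, 3, 9, 2, 1, 0, 0, 4, 5, 3,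
    0, 6, 5, 4, 3, 2, 1, 0, 3, 2, 1, 0, 9, 8, 7, 3, 0, 6, 7, 8, 3, 2, 1, 0, 3]
  just := [0, 0, 2, 0, 4, 0, 6, 0, 0, 8, 9, 0, 10, 0, 12, 1, 14, 15, 16, 3, 2, 0, 1, 7, 0, 17, 18, 0, 20, 4, 0, 3,
    16, 15, 14, 6, 0, 5, 21, 0, 13, 23, 24, 25, 9, 8, 0, 7, 0, 26, 27, 0, 29, 10, 0, 25, 24, 23, 13, 12, 0, 11, 30,
    31, 18, 17, 0, 0, 22, 32, 28, 0, 33, 32, 22, 21, 5, 20, 0, 19, 27, 26, 0, 31, 35, 34, 19, 0, 33, 34, 35, 30, 11,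
    29, 0, 28]
  gA := 39
  gB := 71
  fin := 0
  sid := [0, 1, 2, 3, 4, 5, 6, 7, 1, 0, 8, 9, 10, 11, 12, 13, 7, 14, 15, 16, 3, 2, 1, 13, 16, 17, 18, 19, 20, 5, 4,
    3, 16, 15, 14, 7, 6, 5, 21, 22, 13, 23, 24, 25, 9, 8, 0, 7, 25, 26, 27, 28, 29, 11, 10, 9, 25, 24, 23, 13, 12,
    11, 30, 31, 19, 18, 17, 16, 22, 32, 33, 28, 34, 33, 32, 22, 21, 5, 20, 19, 28, 27, 26, 25, 31, 35, 34, 19, 33,
    34, 35, 31, 30, 11, 29, 28]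
  off := [(0, 0), (0, 0), (0, 0), (0, 0), (0, 0), (0, 0), (0, 0), (0, 0), (0, 0), (0, 0), (0, 0), (0, 0), (0, 0), (0,
    0), (0, 0), (0, 0), (-1, 0), (0, 0), (0, 0), (0, 0), (0, 0), (0, 0), (0, 0), (0, 0), (0, 0), (0, 0), (0, 0), (0,
    0), (0, 0), (0, 0), (0, 0), (0, 0), (1, 0), (1, 0), (1, 0), (0, 0), (0, 0), (0, 0), (0, 0), (0, 0), (1, 0), (0,
    0), (0, 0), (0, 0), (0, 0), (0, 0), (0, 0), (0, 0), (0, 0), (0, 0), (0, 0), (0, 0), (0, 0), (0, 0), (0, 0), (0,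
    0), (-1, 0), (-1, 0), (-1, 0), (0, 0), (0, 0), (0, 0), (0, 0), (0, 0), (0, 0), (0, 0), (0, 0), (0, 0), (-1, 0),
    (0, 0), (0, 0), (0, 1), (0, 0), (1, 0), (1, 0), (0, 0), (0, 0), (0, 0), (0, 0), (0, 0), (0, 0), (0, 0), (0, 0),
    (0, 0), (1, 0), (0, 0), (0, -1), (0, -1), (0, -1), (-1, -1), (-1, 0), (0, 0), (0, 0), (0, 0), (0, 0), (0, 0)]

/-- glued arcs and equations -/
def tord8b_25 : TorT :=
  ⟨[(0, 0, true), (0, 2, true), (1, 1, true), (1, 5, true), (2, 4, true), (3, 6, true), (3, 7, true), (4, 5, true),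
    (6, 7, true), (7, 7, true)],
    [([0, 0, 0, 0, 0, 4, 0, 0], 2), ([0, 0, 0, 0, 1, 0, 1, 0], 2), ([0, 0, 0, 1, 1, 0, 0, 1], 2), ([0, 0, 1, 0, 0, 1,
    0, 0], 2), ([0, 1, 1, 0, 0, 0, 0, 0], 2), ([1, 0, 0, 1, 0, 0, 0, 2], 2), ([1, 1, 0, 0, 0, 0, 1, 0], 2), ([2, 0,
    0, 2, 0, 0, 0, 0], 2)]⟩

theorem tord8b_25_ok : tord8b_25.OK 8 := TT.leaf_ok (T := ttd8b_25) (by decide +kernel)

/-- the torus -/
def ttd8b_26 : TT where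
  k := 2
  rf := [false, false]
  tau := [10, 13, 12, 14, 9, 8, 15, 11, 5, 4, 0, 7, 2, 1, 3, 6]
  par := [0, 0]
  stars := [[0, 11], [1, 10, 4, 14], [2, 13], [3, 12, 7, 15], [5, 9], [6, 8]]
  word := [[], [0], [0], [2, 0], [2], [2], [2], [2, 1, 3, 0], [3], [3], [], [1, 2, 0, 3], [1], [1], [1, 3], [3]]
  rank := [0, 0, 1, 2, 1, 0, 1, 3, 0, 1, 0, 3, 1, 0, 2, 1]
  just := [0, 0, 2, 1, 4, 0, 5, 3, 0, 4, 0, 3, 2, 0, 1, 5]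
  gA := 1
  gB := 5
  fin := 0
  sid := [0, 1, 2, 3, 1, 4, 5, 3, 5, 4, 1, 0, 3, 2, 1, 3]
  off := [(0, 0), (0, 0), (0, 0), (0, 0), (0, 1), (0, 0), (0, 0), (-1, 0), (0, -1), (0, -1), (0, 0), (0, 0), (-1, 0),
    (-1, 0), (-1, 0), (-1, -1)]

/-- glued arcs and equations -/
def tord8b_26 : TorT :=
  ⟨[(0, 2, true), (0, 5, true), (1, 4, true), (1, 5, true), (2, 4, true), (3, 6, true), (3, 7, true), (6, 7, true)],
    [([0, 0, 0, 1, 1, 0, 0, 2], 2), ([0, 0, 1, 0, 0, 1, 0, 0], 2), ([0, 1, 0, 0, 0, 1, 0, 0], 2), ([0, 1, 1, 0, 1, 0,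
    1, 0], 2), ([1, 0, 0, 0, 0, 0, 1, 0], 2), ([1, 0, 0, 1, 0, 0, 0, 0], 2)]⟩

theorem tord8b_26_ok : tord8b_26.OK 8 := TT.leaf_ok (T := ttd8b_26) (by decide +kernel)

/-- the torus -/
def ttd8b_27 : TT where
  k := 8
  rf := [false, false, false, false, false, false, false, false]
  tau := [10, 9, 8, 22, 21, 28, 27, 35, 2, 1, 0, 46, 45, 52, 51, 59, 42, 41, 40, 30, 29, 4, 3, 39, 61, 60, 50, 6, 5,
    20, 19, 62, 58, 57, 56, 7, 49, 48, 55, 23, 18, 17, 16, 54, 53, 12, 11, 63, 37, 36, 26, 14, 13, 44, 43, 38, 34,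
    33, 32, 15, 25, 24, 31, 47]
  par := [0, 0, 3, 5, 7, 11, 13, 15]
  stars := [[0, 35, 56, 47, 11], [1, 10], [2, 9], [3, 8, 59, 32, 23], [4, 22], [5, 21, 29], [6, 28], [7, 27, 50, 36],
    [12, 46], [13, 45, 53], [14, 52], [15, 51, 26, 60], [16, 39, 55, 43], [17, 42], [18, 41], [19, 40, 63, 31], [20,
    30], [24, 62], [25, 61], [33, 58], [34, 57], [37, 49], [38, 48], [44, 54]]
  word := [[], [], [], [], [], [], [], [], [], [], [], [], [], [], [], [], [0], [0], [0], [], [], [], [], [0, 3],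
    [2], [2], [2], [], [], [], [], [2], [2, 1], [2, 1], [2, 1], [], [2], [2], [2], [2, 1], [1], [1], [1], [], [], [],
    [], [1, 2], [3], [3], [3], [], [], [], [], [3], [0, 3], [0, 3], [0, 3], [], [3], [3], [3], [3, 0]]
  rank := [0, 1, 2, 0, 1, 0, 1, 0, 2, 1, 0, 0, 1, 0, 1, 0, 0, 1, 2, 3, 2, 1, 0, 4, 4, 3, 2, 1, 0, 2, 3, 5, 5, 6, 7,
    0, 0, 1, 2, 4, 2, 1, 0, 3, 2, 1, 0, 6, 1, 0, 2, 1, 0, 2, 3, 2, 7, 6, 5, 0, 3, 4, 5, 6]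
  just := [0, 1, 2, 0, 4, 0, 6, 0, 2, 1, 0, 0, 8, 0, 10, 0, 0, 13, 14, 16, 5, 4, 0, 12, 18, 11, 7, 6, 0, 5, 16, 17,
    3, 19, 20, 0, 0, 21, 22, 12, 14, 13, 0, 23, 9, 8, 0, 15, 21, 0, 7, 10, 0, 9, 23, 22, 20, 19, 3, 0, 11, 18, 17, 15]
  gA := 16
  gB := 36
  fin := 0
  sid := [0, 1, 2, 3, 4, 5, 6, 7, 3, 2, 1, 0, 8, 9, 10, 11, 12, 13, 14, 15, 16, 5, 4, 3, 17, 18, 11, 7, 6, 5, 16, 15,
    3, 19, 20, 0, 7, 21, 22, 12, 15, 14, 13, 12, 23, 9, 8, 0, 22, 21, 7, 11, 10, 9, 23, 12, 0, 20, 19, 3, 11, 18, 17,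
    15]
  off := [(0, 0), (0, 0), (0, 0), (0, 0), (0, 0), (0, 0), (0, 0), (0, 0), (0, 0), (0, 0), (0, 0), (0, 0), (0, 0), (0,
    0), (0, 0), (0, 0), (0, 0), (0, 0), (0, 0), (0, 0), (0, 0), (0, 0), (0, 0), (0, 0), (0, 0), (0, 0), (0, 1), (0,
    0), (0, 0), (0, 0), (0, 0), (0, 0), (-1, 1), (0, 0), (0, 0), (0, 0), (0, 0), (0, 0), (0, 0), (-1, 1), (-1, 0),
    (-1, 0), (-1, 0), (-1, 0), (0, 0), (0, 0), (0, 0), (0, 0), (0, -1), (0, -1), (0, -1), (0, 0), (0, 0), (0, 0), (0,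
    0), (-1, 0), (1, -1), (1, -1), (1, -1), (0, 0), (0, 0), (0, -1), (0, -1), (0, -1)]

/-- glued arcs and equations -/
def tord8b_27 : TorT :=
  ⟨[(0, 2, true), (0, 5, true), (1, 1, true), (1, 4, true), (2, 2, true), (3, 6, true), (3, 7, true), (4, 5, true),
    (6, 7, true), (7, 7, true)],
    [([0, 0, 0, 0, 0, 3, 0, 0], 2), ([0, 0, 0, 0, 1, 0, 1, 0], 2), ([0, 0, 1, 1, 1, 0, 0, 1], 2), ([0, 1, 0, 0, 0, 1,
    0, 0], 2), ([0, 1, 1, 0, 0, 0, 0, 0], 2), ([1, 0, 0, 0, 0, 0, 1, 0], 2), ([1, 0, 0, 1, 0, 0, 0, 2], 2), ([2, 0,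
    0, 2, 0, 0, 0, 1], 2)]⟩

theorem tord8b_27_ok : tord8b_27.OK 8 := TT.leaf_ok (T := ttd8b_27) (by decide +kernel)

/-- the torus -/
def ttd8b_28 : TT where
  k := 12
  rf := [false, false, false, false, false, false, false, false, false, false, false, false]
  tau := [10, 9, 8, 22, 21, 28, 27, 35, 2, 1, 0, 47, 49, 48, 55, 63, 61, 60, 50, 46, 45, 4, 3, 62, 69, 68, 74, 6, 5,
    44, 43, 70, 42, 41, 40, 7, 73, 72, 79, 71, 34, 33, 32, 30, 29, 20, 19, 11, 13, 12, 18, 86, 85, 92, 91, 14, 90,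
    89, 88, 87, 17, 16, 23, 15, 82, 81, 80, 95, 25, 24, 31, 39, 37, 36, 26, 94, 93, 84, 83, 38, 66, 65, 64, 78, 77,
    52, 51, 59, 58, 57, 56, 54, 53, 76, 75, 67]
  par := [0, 0, 3, 5, 7, 11, 12, 15, 24, 26, 51, 53]
  stars := [[0, 35, 40, 11], [1, 10], [2, 9], [3, 8, 63, 23], [4, 22], [5, 21, 45, 29], [6, 28], [7, 27, 74, 36],
    [12, 47, 19, 50], [13, 49], [14, 48], [15, 55, 91, 56], [16, 62], [17, 61], [18, 60, 87, 51], [20, 46], [24, 70],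
    [25, 69], [26, 68, 95, 75], [30, 44], [31, 43, 32, 71], [33, 42], [34, 41], [37, 73], [38, 72], [39, 79, 83, 64],
    [52, 86], [53, 85, 77, 93], [54, 92], [57, 90], [58, 89], [59, 88, 67, 80], [65, 82], [66, 81], [76, 94], [78,
    84]]
  word := [[], [], [], [], [], [], [], [], [], [], [], [], [], [], [], [], [], [], [0], [0], [0], [], [], [], [], [],
    [], [], [], [0], [0], [], [2, 1, 3, 0], [2, 1, 3, 0], [2, 1, 3, 0], [], [], [], [], [2, 1, 3], [1, 2, 0, 3], [1,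
    2, 0, 3], [1, 2, 0, 3], [1], [1], [1], [1], [], [], [], [1], [], [], [], [], [], [], [], [], [0], [], [], [], [],
    [2, 0], [2, 0], [2, 0], [2], [], [], [], [2, 0, 3], [], [], [], [2], [2], [2], [2], [], [1, 3], [1, 3], [1, 3],
    [3], [3], [], [], [1], [], [], [], [], [], [3], [3], [3]]
  rank := [0, 1, 2, 0, 1, 0, 1, 0, 2, 1, 0, 0, 0, 1, 2, 0, 4, 5, 6, 7, 8, 1, 0, 3, 0, 1, 0, 1, 0, 9, 10, 1, 11, 12,
    13, 0, 2, 3, 4, 9, 13, 12, 11, 10, 9, 8, 7, 0, 1, 0, 6, 0, 1, 0, 1, 2, 3, 4, 5, 0, 5, 4, 3, 0, 8, 7, 6, 2, 1, 0,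
    1, 9, 3, 2, 0, 0, 1, 2, 3, 4, 6, 7, 8, 3, 2, 1, 0, 0, 5, 4, 3, 1, 0, 1, 0, 2]
  just := [0, 1, 2, 0, 4, 0, 6, 0, 2, 1, 0, 0, 0, 9, 10, 0, 12, 13, 14, 8, 15, 4, 0, 3, 0, 17, 0, 6, 0, 5, 19, 16,
    20, 21, 22, 0, 7, 23, 24, 25, 22, 21, 20, 19, 5, 15, 8, 0, 9, 0, 14, 0, 26, 0, 28, 10, 11, 29, 30, 0, 13, 12, 3,
    0, 32, 33, 31, 18, 17, 0, 16, 25, 23, 7, 0, 0, 34, 27, 35, 24, 31, 33, 32, 35, 27, 26, 0, 0, 30, 29, 11, 28, 0,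
    34, 0, 18]
  gA := 59
  gB := 75
  fin := 0
  sid := [0, 1, 2, 3, 4, 5, 6, 7, 3, 2, 1, 0, 8, 9, 10, 11, 12, 13, 14, 8, 15, 5, 4, 3, 16, 17, 18, 7, 6, 5, 19, 20,
    20, 21, 22, 0, 7, 23, 24, 25, 0, 22, 21, 20, 19, 5, 15, 8, 10, 9, 8, 14, 26, 27, 28, 11, 11, 29, 30, 31, 14, 13,
    12, 3, 25, 32, 33, 31, 18, 17, 16, 20, 24, 23, 7, 18, 34, 27, 35, 25, 31, 33, 32, 25, 35, 27, 26, 14, 31, 30, 29,
    11, 28, 27, 34, 18]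
  off := [(0, 0), (0, 0), (0, 0), (0, 0), (0, 0), (0, 0), (0, 0), (0, 0), (0, 0), (0, 0), (0, 0), (0, 0), (0, 0), (0,
    0), (0, 0), (0, 0), (0, 0), (0, 0), (0, 0), (1, 0), (0, 0), (0, 0), (0, 0), (0, 0), (0, 0), (0, 0), (0, 0), (0,
    0), (0, 0), (0, 0), (0, 0), (0, 0), (-1, 0), (0, 0), (0, 0), (0, 0), (0, 0), (0, 0), (0, 0), (0, 0), (0, 0), (0,
    0), (0, 0), (-1, 0), (-1, 0), (-1, 0), (-1, 0), (0, 0), (0, 0), (0, 0), (0, 0), (-1, 0), (0, 0), (0, 0), (0, 0),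
    (0, 0), (0, 0), (0, 0), (0, 0), (0, 0), (0, 0), (0, 0), (0, 0), (0, 0), (1, 0), (0, 0), (0, 0), (0, 1), (0, 0),
    (0, 0), (0, 0), (0, 0), (0, 0), (0, 0), (0, 0), (0, 0), (0, 0), (0, 1), (0, 0), (0, 0), (-1, 0), (-1, -1), (-1,
    -1), (0, -1), (0, -1), (0, 0), (0, 0), (-1, 0), (0, 0), (0, 0), (0, 0), (0, 0), (0, 0), (0, 0), (0, -1), (0, -1)]

/-- glued arcs and equations -/
def tord8b_28 : TorT :=
  ⟨[(0, 2, true), (0, 5, true), (1, 1, true), (1, 4, true), (2, 2, true), (3, 6, true), (3, 7, true), (4, 5, true),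
    (6, 7, true), (7, 7, true)],
    [([0, 0, 0, 0, 0, 4, 0, 0], 2), ([0, 0, 0, 0, 1, 0, 1, 0], 2), ([0, 0, 1, 1, 1, 0, 0, 1], 2), ([0, 1, 0, 0, 0, 1,
    0, 0], 2), ([0, 1, 1, 0, 0, 0, 0, 0], 2), ([1, 0, 0, 0, 0, 0, 1, 0], 2), ([1, 0, 0, 1, 0, 0, 0, 2], 2), ([2, 0,
    0, 2, 0, 0, 0, 0], 2)]⟩

theorem tord8b_28_ok : tord8b_28.OK 8 := TT.leaf_ok (T := ttd8b_28) (by decide +kernel)

/-- the torus -/
def ttd8b_29 : TT where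
  k := 4
  rf := [false, false, false, false]
  tau := [8, 21, 12, 11, 10, 28, 27, 30, 0, 29, 4, 3, 2, 20, 19, 22, 26, 25, 24, 14, 13, 1, 15, 31, 18, 17, 16, 6, 5,
    9, 7, 23]
  par := [0, 0, 1, 5]
  stars := [[0, 30, 9], [1, 8, 22], [2, 21, 13], [3, 12], [4, 11], [5, 10, 29], [6, 28], [7, 27, 16, 31], [14, 20],
    [15, 19, 24, 23], [17, 26], [18, 25]]
  word := [[], [], [0], [0], [0], [], [], [3, 1, 2], [], [1], [1], [1], [1], [1], [1], [], [2], [2], [2], [0], [0],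
    [], [], [1, 2], [3], [3], [3], [], [], [0], [3, 0, 2], [3, 0]]
  rank := [0, 0, 0, 1, 2, 0, 1, 4, 0, 3, 2, 1, 0, 1, 2, 1, 2, 1, 0, 2, 1, 0, 1, 3, 0, 1, 2, 1, 0, 3, 4, 3]
  just := [0, 0, 0, 3, 4, 0, 6, 7, 0, 5, 4, 3, 0, 2, 8, 1, 10, 11, 0, 8, 2, 0, 1, 9, 0, 11, 10, 6, 0, 5, 7, 9]
  gA := 2
  gB := 18
  fin := 0
  sid := [0, 1, 2, 3, 4, 5, 6, 7, 1, 0, 5, 4, 3, 2, 8, 9, 7, 10, 11, 9, 8, 2, 1, 9, 9, 11, 10, 7, 6, 5, 0, 7]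
  off := [(0, 0), (0, 0), (0, 0), (0, 0), (0, 0), (0, 0), (0, 0), (0, 0), (0, 0), (0, 0), (-1, 0), (-1, 0), (-1, 0),
    (-1, 0), (0, 0), (0, 0), (0, 1), (0, 0), (0, 0), (1, 0), (1, 0), (0, 0), (0, 0), (0, 0), (1, -1), (0, -1), (0,
    -1), (0, 0), (0, 0), (0, 0), (1, 0), (1, 0)]

/-- glued arcs and equations -/
def tord8b_29 : TorT :=
  ⟨[(0, 0, true), (0, 2, true), (1, 1, true), (1, 5, true), (2, 4, true), (3, 3, true), (3, 6, true), (4, 5, true),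
    (6, 7, true), (7, 7, true)],
    [([0, 0, 0, 0, 1, 0, 1, 0], 2), ([0, 0, 0, 1, 1, 0, 0, 0], 2), ([0, 0, 1, 0, 0, 2, 0, 0], 2), ([0, 1, 1, 0, 0, 0,
    0, 0], 2), ([1, 0, 0, 1, 0, 0, 0, 2], 2), ([1, 1, 0, 0, 0, 0, 1, 0], 2)]⟩

theorem tord8b_29_ok : tord8b_29.OK 8 := TT.leaf_ok (T := ttd8b_29) (by decide +kernel)

end Pool.Agent.Lib_MP_fa6e45
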