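import Pool.Agent.Lib_MP_fa6e45.CT5

/-!
MP_fa6e45_co, stage 9: straight-side patterns with `8` sides, tables of tori (generated by a program).
-/

namespace Pool.Agent.Lib_MP_fa6e45

/-- the torus -/
def ttd8b_30 : TT where
  k := 8
  rf := [false, false, false, false, false, false, false, false]
  tau := [9, 20, 26, 35, 17, 44, 43, 51, 21, 0, 50, 31, 58, 40, 47, 22, 45, 4, 34, 27, 1, 8, 15, 46, 49, 36, 2, 19,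
    33, 60, 59, 11, 61, 28, 18, 3, 25, 48, 55, 62, 13, 57, 52, 6, 5, 16, 23, 14, 37, 24, 10, 7, 42, 56, 63, 38, 53,
    41, 12, 30, 29, 32, 39, 54]
  par := [0, 0, 1, 2, 3, 5, 7, 12]
  stars := [[0, 51, 10], [1, 9, 21], [2, 20, 27], [3, 26, 36], [4, 35, 18], [5, 17, 45], [6, 44], [7, 43, 52], [8,
    22], [11, 50, 24], [12, 31, 59], [13, 58, 41], [14, 40], [15, 47, 23], [16, 46], [19, 34, 28], [25, 49, 37], [29,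
    33, 61], [30, 60], [32, 62], [38, 48], [39, 55, 63], [42, 57, 53], [54, 56]]
  word := [[], [], [], [], [1], [], [], [], [], [], [3, 1, 2, 0], [3, 1], [], [0], [0], [], [0], [0], [0], [], [],
    [], [], [0], [2, 0], [], [], [], [0], [0, 2], [0, 2], [0, 2], [2], [1], [1], [], [], [2, 0], [2, 0], [2], [1],
    [1], [], [], [], [1], [1], [1], [1, 3], [1, 3], [1, 3, 0, 2], [], [], [1], [1], [1, 3], [0], [0], [], [3, 1], [3,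
    1], [3], [3], [0]]
  rank := [0, 0, 0, 0, 5, 0, 1, 0, 1, 0, 11, 10, 0, 1, 0, 2, 4, 5, 6, 1, 0, 1, 2, 3, 7, 1, 0, 1, 7, 8, 9, 10, 1, 7,
    6, 0, 1, 6, 5, 0, 1, 2, 2, 1, 0, 4, 3, 0, 6, 7, 11, 0, 2, 3, 4, 5, 3, 2, 0, 9, 8, 1, 0, 4]
  just := [0, 0, 0, 0, 5, 0, 6, 0, 1, 0, 9, 10, 0, 12, 0, 8, 14, 5, 4, 2, 0, 1, 8, 13, 16, 3, 0, 2, 15, 17, 18, 10,
    19, 15, 4, 0, 3, 20, 21, 0, 12, 11, 7, 6, 0, 14, 13, 0, 20, 16, 9, 0, 7, 22, 23, 21, 22, 11, 0, 18, 17, 19, 0, 23]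
  gA := 14
  gB := 39
  fin := 0
  sid := [0, 1, 2, 3, 4, 5, 6, 7, 8, 1, 0, 9, 10, 11, 12, 13, 14, 5, 4, 15, 2, 1, 8, 13, 9, 16, 3, 2, 15, 17, 18, 10,
    19, 17, 15, 4, 3, 16, 20, 21, 12, 11, 22, 7, 6, 5, 14, 13, 20, 16, 9, 0, 7, 22, 23, 21, 23, 22, 11, 10, 18, 17,
    19, 21]
  off := [(0, 0), (0, 0), (0, 0), (0, 0), (0, 0), (0, 0), (0, 0), (0, 0), (0, 0), (0, 0), (0, 0), (0, 0), (0, 0), (0,
    0), (0, 0), (0, 0), (0, 0), (1, 0), (1, 0), (0, 0), (0, 0), (0, 0), (0, 0), (0, 0), (1, 1), (0, 0), (0, 0), (0,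
    0), (0, 0), (0, 0), (0, 0), (1, 1), (0, 0), (-1, 0), (-1, 0), (0, 0), (0, 0), (0, 0), (0, 0), (0, 0), (-1, 0),
    (-1, 0), (0, 0), (0, 0), (0, 0), (0, 0), (-1, 0), (-1, 0), (-1, -1), (-1, -1), (0, 0), (0, 0), (0, 0), (0, 0),
    (0, 0), (-1, -1), (1, 0), (1, 0), (0, 0), (0, 0), (-1, -1), (-1, -1), (0, -1), (0, -1)]

/-- glued arcs and equations -/
def tord8b_30 : TorT :=
  ⟨[(0, 1, true), (0, 5, true), (1, 1, true), (1, 4, true), (2, 2, true), (2, 4, true), (3, 3, true), (3, 6, true),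
    (3, 7, true), (4, 5, true), (6, 7, true)],
    [([0, 0, 0, 0, 0, 0, 0, 3], 2), ([0, 0, 0, 0, 1, 0, 1, 0], 2), ([0, 0, 0, 1, 1, 0, 0, 1], 2), ([0, 0, 1, 1, 1, 0,
    0, 0], 2), ([0, 1, 0, 0, 0, 2, 0, 0], 2), ([0, 1, 1, 0, 0, 1, 0, 0], 2), ([0, 2, 0, 0, 0, 1, 0, 0], 2), ([1, 0,
    0, 0, 0, 0, 1, 0], 2), ([1, 0, 1, 1, 0, 0, 0, 0], 2)]⟩

theorem tord8b_30_ok : tord8b_30.OK 8 := TT.leaf_ok (T := ttd8b_30) (by decide +kernel)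

/-- the torus -/
def ttd8b_31 : TT where
  k := 4
  rf := [false, false, false, false]
  tau := [9, 17, 24, 31, 30, 27, 26, 23, 18, 0, 22, 21, 28, 29, 20, 19, 25, 1, 8, 15, 14, 11, 10, 7, 2, 16, 6, 5, 12,
    13, 4, 3]
  par := [0, 0, 1, 2]
  stars := [[0, 23, 10], [1, 9, 18], [2, 17, 25], [3, 24], [4, 31], [5, 30, 13, 28], [6, 27], [7, 26, 16], [8, 19],
    [11, 22], [12, 21, 14, 29], [15, 20]]
  word := [[], [], [], [], [], [3, 0], [3, 0], [3, 0], [], [], [0, 3], [0, 3], [0], [2], [], [], [], [], [], [], [],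
    [2, 1], [2, 1], [1, 2], [], [], [1, 2], [1, 2], [1], [3], [], []]
  rank := [0, 0, 0, 1, 2, 3, 4, 5, 1, 0, 5, 4, 0, 0, 3, 2, 1, 0, 1, 2, 3, 4, 5, 5, 0, 1, 4, 3, 0, 0, 2, 1]
  just := [0, 0, 0, 3, 4, 5, 6, 7, 1, 0, 9, 10, 0, 0, 11, 8, 2, 0, 1, 8, 11, 10, 9, 7, 0, 2, 6, 5, 0, 0, 4, 3]
  gA := 12
  gB := 13
  fin := 0
  sid := [0, 1, 2, 3, 4, 5, 6, 7, 8, 1, 0, 9, 10, 5, 10, 11, 7, 2, 1, 8, 11, 10, 9, 0, 3, 2, 7, 6, 5, 10, 5, 4]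
  off := [(0, 0), (0, 0), (0, 0), (0, 0), (0, 0), (0, 0), (0, 0), (0, 0), (0, 0), (0, 0), (0, 0), (0, 0), (0, 0), (0,
    1), (-1, 1), (0, 0), (-1, 1), (0, 0), (0, 0), (0, 0), (0, 0), (-1, 1), (-1, 1), (-1, 1), (0, 0), (0, 0), (-1, 1),
    (-1, 1), (-1, 1), (-1, 0), (0, 0), (0, 0)]

/-- glued arcs and equations -/
def tord8b_31 : TorT :=
  ⟨[(0, 1, true), (0, 2, true), (1, 1, true), (2, 6, true), (3, 5, true), (3, 7, true), (4, 4, true), (4, 6, true),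
    (5, 5, true), (7, 7, true)],
    [([0, 0, 0, 0, 1, 0, 0, 1], 2), ([0, 0, 0, 0, 1, 2, 1, 0], 2), ([0, 0, 0, 1, 0, 0, 1, 0], 2), ([0, 2, 1, 0, 0, 0,
    0, 0], 2), ([1, 0, 0, 1, 0, 0, 0, 0], 2), ([1, 0, 1, 0, 0, 0, 0, 1], 2)]⟩

theorem tord8b_31_ok : tord8b_31.OK 8 := TT.leaf_ok (T := ttd8b_31) (by decide +kernel)

/-- the torus -/
def ttd8b_32 : TT where
  k := 6
  rf := [false, false, false, true, true, false]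
  tau := [10, 17, 8, 15, 25, 21, 34, 11, 2, 41, 0, 7, 30, 31, 24, 3, 42, 1, 40, 47, 33, 5, 26, 43, 14, 4, 22, 37, 36,
    35, 12, 13, 46, 20, 6, 29, 28, 27, 44, 45, 18, 9, 16, 23, 38, 39, 32, 19]
  par := [0, 0, 1, 4, 6, 9]
  stars := [[0, 11], [1, 10, 41, 18], [2, 17, 42, 9], [3, 8], [4, 15, 25], [5, 26, 22], [6, 21, 34], [7, 35, 30, 12],
    [13, 31], [14, 24], [16, 43], [19, 40], [20, 47, 33], [23, 27, 38, 44], [28, 37], [29, 36], [32, 46], [39, 45]]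
  word := [[], [], [0], [0], [], [2], [], [2, 1, 3, 0], [1], [], [], [1, 2, 0, 3], [1], [1], [1], [1], [0], [], [],
    [], [3], [3], [3], [0], [0], [], [2], [2, 0, 3], [2, 0, 3], [2, 0, 3], [0], [0], [2], [2], [], [2, 1, 3], [2, 1,
    3], [2, 1, 3], [2], [2], [], [], [1], [1], [3], [3], [3], []]
  rank := [0, 0, 1, 2, 0, 4, 0, 9, 1, 0, 0, 9, 5, 4, 3, 2, 0, 0, 1, 2, 3, 4, 5, 1, 3, 0, 5, 6, 7, 8, 5, 4, 0, 3, 0,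
    8, 7, 6, 2, 1, 1, 0, 0, 1, 2, 1, 0, 2]
  just := [0, 0, 2, 3, 0, 6, 0, 7, 2, 0, 0, 7, 8, 9, 4, 3, 0, 0, 1, 11, 12, 6, 5, 10, 4, 0, 5, 13, 14, 15, 8, 9, 0,
    12, 0, 15, 14, 13, 17, 16, 1, 0, 0, 10, 17, 16, 0, 11]
  gA := 16
  gB := 32
  fin := 0
  sid := [0, 1, 2, 3, 4, 5, 6, 7, 3, 2, 1, 0, 7, 8, 9, 4, 10, 2, 1, 11, 12, 6, 5, 13, 9, 4, 5, 13, 14, 15, 7, 8, 16,
    12, 6, 7, 15, 14, 13, 17, 11, 1, 2, 10, 13, 17, 16, 12]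
  off := [(0, 0), (0, 0), (0, 0), (0, 0), (0, 0), (0, 0), (0, 0), (0, 0), (-1, 0), (-1, 0), (0, 0), (0, 0), (0, 0),
    (0, 0), (0, 0), (-1, 0), (0, 0), (0, 0), (0, 0), (0, 0), (0, 0), (0, -1), (0, -1), (0, 0), (1, 0), (0, 0), (0,
    0), (0, 1), (0, 0), (0, 0), (1, 0), (1, 0), (0, 0), (0, 1), (0, 0), (0, 0), (-1, 0), (-1, 0), (-1, 1), (0, 0),
    (0, 0), (0, 0), (-1, 0), (-1, 0), (-1, 0), (0, -1), (0, -1), (0, 0)]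

/-- glued arcs and equations -/
def tord8b_32 : TorT :=
  ⟨[(0, 2, true), (0, 6, false), (1, 1, true), (1, 4, false), (2, 6, false), (3, 5, true), (3, 7, true), (4, 4,
    true), (4, 6, false), (5, 5, true), (5, 7, false)],
    [([0, 0, 0, 0, 0, 1, 0, 1], 2), ([0, 0, 0, 0, 1, 1, 0, 0], 2), ([0, 0, 0, 1, 1, 0, 1, 1], 2), ([0, 0, 1, 0, 0, 1,
    1, 0], 2), ([0, 1, 0, 0, 1, 0, 0, 1], 2), ([0, 2, 2, 0, 0, 0, 0, 0], 2), ([1, 0, 0, 0, 0, 0, 1, 0], 2), ([1, 0,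
    0, 1, 0, 0, 0, 0], 2)]⟩

theorem tord8b_32_ok : tord8b_32.OK 8 := TT.leaf_ok (T := ttd8b_32) (by decide +kernel)

/-- the torus -/
def ttd8b_33 : TT where
  k := 4
  rf := [false, true, false, true]
  tau := [9, 12, 18, 29, 30, 31, 24, 23, 22, 0, 26, 27, 1, 19, 20, 21, 25, 28, 2, 13, 14, 15, 8, 7, 6, 16, 10, 11,
    17, 3, 4, 5]
  par := [0, 0, 2, 3]
  stars := [[0, 23, 9], [1, 10, 27, 12], [2, 13, 19], [3, 18, 29], [4, 30], [5, 31], [6, 24], [7, 25, 16], [8, 22],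
    [11, 28, 17, 26], [14, 20], [15, 21]]
  word := [[], [3], [], [], [], [], [], [1, 2, 0], [2], [], [3, 0], [0], [2], [2], [2], [2], [1, 3, 0], [], [], [3],
    [3], [3], [3], [1, 3, 0], [], [1, 2, 0], [1, 2], [1], [], [], [], []]
  rank := [0, 1, 0, 0, 1, 2, 3, 4, 3, 0, 2, 0, 1, 0, 1, 2, 3, 1, 0, 0, 1, 2, 3, 4, 3, 3, 2, 0, 1, 0, 1, 2]
  just := [0, 2, 0, 0, 4, 5, 6, 7, 8, 0, 1, 0, 2, 0, 10, 11, 9, 3, 0, 0, 10, 11, 8, 7, 6, 9, 1, 0, 3, 0, 4, 5]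
  gA := 11
  gB := 13
  fin := 0
  sid := [0, 1, 2, 3, 4, 5, 6, 7, 8, 0, 1, 9, 1, 2, 10, 11, 7, 9, 3, 2, 10, 11, 8, 0, 6, 7, 9, 1, 9, 3, 4, 5]
  off := [(0, 0), (0, 0), (0, 0), (0, 0), (0, 0), (0, 0), (0, 0), (0, 0), (0, 0), (0, 0), (0, 0), (0, 0), (0, 1), (0,
    1), (0, 0), (0, 0), (0, -1), (-1, 0), (0, 0), (0, 0), (0, -1), (0, -1), (0, -1), (0, -1), (0, 0), (0, 0), (-1,
    1), (-1, 1), (-1, 0), (0, 0), (0, 0), (0, 0)]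

/-- glued arcs and equations -/
def tord8b_33 : TorT :=
  ⟨[(0, 1, false), (0, 6, false), (1, 4, false), (2, 2, true), (3, 3, true), (3, 5, false), (4, 6, false), (5, 7,
    false), (7, 7, true)],
    [([0, 0, 0, 0, 0, 1, 0, 1], 2), ([0, 0, 0, 0, 1, 0, 1, 0], 2), ([0, 0, 1, 1, 0, 1, 0, 0], 2), ([0, 1, 1, 1, 1, 0,
    0, 0], 2), ([1, 0, 0, 0, 0, 0, 1, 0], 2), ([1, 1, 0, 0, 0, 0, 0, 1], 2)]⟩

theorem tord8b_33_ok : tord8b_33.OK 8 := TT.leaf_ok (T := ttd8b_33) (by decide +kernel)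

/-- the torus -/
def ttd8b_34 : TT where
  k := 2
  rf := [false, false]
  tau := [10, 6, 14, 13, 8, 15, 1, 11, 4, 12, 0, 7, 9, 3, 2, 5]
  par := [0, 0]
  stars := [[0, 11], [1, 10, 12, 7], [2, 6, 15], [3, 14], [4, 13, 9], [5, 8]]
  word := [[], [0, 3], [0], [0], [2], [2], [2, 1], [2, 1, 3, 0], [3], [3, 0], [], [1, 2, 0, 3], [1, 2], [1], [1], [3]]
  rank := [0, 2, 1, 0, 0, 1, 2, 3, 0, 1, 0, 3, 1, 0, 1, 1]
  just := [0, 2, 3, 0, 0, 5, 2, 1, 0, 4, 0, 1, 4, 0, 3, 5]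
  gA := 3
  gB := 4
  fin := 0
  sid := [0, 1, 2, 3, 4, 5, 2, 1, 5, 4, 1, 0, 1, 4, 3, 2]
  off := [(0, 0), (0, 0), (0, 0), (0, 0), (0, 0), (0, 0), (-1, 1), (-1, 1), (0, -1), (0, -1), (0, 0), (0, 0), (-1,
    1), (-1, 0), (-1, 0), (-1, 0)]

/-- glued arcs and equations -/
def tord8b_34 : TorT :=
  ⟨[(0, 2, true), (0, 4, true), (1, 4, true), (1, 6, true), (2, 6, true), (3, 5, true), (3, 7, true), (5, 7, true)],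
    [([0, 0, 0, 1, 0, 0, 1, 0], 2), ([0, 0, 1, 0, 0, 0, 1, 1], 2), ([0, 1, 0, 0, 1, 1, 0, 0], 2), ([0, 1, 1, 0, 1, 0,
    0, 1], 2), ([1, 0, 0, 0, 0, 1, 0, 0], 2), ([1, 0, 0, 1, 0, 0, 0, 0], 2)]⟩

theorem tord8b_34_ok : tord8b_34.OK 8 := TT.leaf_ok (T := ttd8b_34) (by decide +kernel)

/-- the torus -/
def ttd8b_35 : TT where
  k := 4
  rf := [false, true, false, true]
  tau := [10, 17, 12, 13, 14, 15, 8, 23, 6, 25, 0, 27, 2, 3, 4, 5, 26, 1, 28, 29, 30, 31, 24, 7, 22, 9, 16, 11, 18,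
    19, 20, 21]
  par := [0, 0, 1, 9]
  stars := [[0, 23, 25, 10], [1, 11, 28, 18], [2, 17, 27, 12], [3, 13], [4, 14], [5, 15], [6, 8], [7, 9, 26, 16],
    [19, 29], [20, 30], [21, 31], [22, 24]]
  word := [[], [], [0], [0], [0], [0], [0], [0, 3, 1], [1], [], [], [2], [1], [1], [1], [1], [0, 2], [], [2], [2],
    [2], [2], [2], [0, 2, 1], [3], [], [3, 1], [3], [3], [3], [3], [3]]
  rank := [0, 0, 1, 0, 1, 2, 3, 4, 3, 0, 0, 2, 1, 0, 1, 2, 3, 0, 1, 0, 1, 2, 3, 4, 3, 0, 3, 2, 1, 0, 1, 2]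
  just := [0, 0, 3, 0, 4, 5, 6, 7, 6, 0, 0, 1, 3, 0, 4, 5, 2, 0, 8, 0, 9, 10, 11, 7, 11, 0, 2, 1, 8, 0, 9, 10]
  gA := 3
  gB := 19
  fin := 0
  sid := [0, 1, 2, 3, 4, 5, 6, 7, 6, 7, 0, 1, 2, 3, 4, 5, 7, 2, 1, 8, 9, 10, 11, 0, 11, 0, 7, 2, 1, 8, 9, 10]
  off := [(0, 0), (0, 0), (0, 0), (0, 0), (0, 0), (0, 0), (0, 0), (0, 0), (-1, 0), (-1, 0), (0, 0), (0, 0), (-1, 0),
    (-1, 0), (-1, 0), (-1, 0), (0, 1), (0, 0), (0, 0), (0, 0), (0, 0), (0, 0), (0, 0), (0, 1), (0, -1), (0, 0), (-1,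
    0), (-1, -1), (0, -1), (0, -1), (0, -1), (0, -1)]

/-- glued arcs and equations -/
def tord8b_35 : TorT :=
  ⟨[(0, 2, false), (0, 6, false), (1, 1, true), (2, 4, false), (3, 3, true), (3, 5, false), (4, 6, false), (5, 7,
    false), (7, 7, true)],
    [([0, 0, 0, 0, 0, 1, 0, 1], 2), ([0, 0, 0, 0, 1, 0, 1, 0], 2), ([0, 0, 0, 1, 0, 1, 0, 0], 2), ([0, 1, 1, 1, 1, 0,
    0, 0], 2), ([1, 0, 0, 0, 0, 0, 1, 0], 2), ([1, 1, 1, 0, 0, 0, 0, 1], 2)]⟩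

theorem tord8b_35_ok : tord8b_35.OK 8 := TT.leaf_ok (T := ttd8b_35) (by decide +kernel)

end Pool.Agent.Lib_MP_fa6e45
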