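import Pool.Agent.Lib_MP_fa6e45.CT5

/-!
MP_fa6e45_co, stage 9: straight-side patterns with `8` sides, tables of tori (generated by a program).
-/

namespace Pool.Agent.Lib_MP_fa6e45

/-- the torus -/
def ttd8b_36 : TT where
  k := 4
  rf := [false, false, false, false]
  tau := [9, 17, 24, 31, 22, 21, 20, 29, 18, 0, 28, 27, 26, 23, 30, 19, 25, 1, 8, 15, 6, 5, 4, 13, 2, 16, 12, 11, 10,
    7, 14, 3]
  par := [0, 0, 1, 2]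
  stars := [[0, 29, 10], [1, 9, 18], [2, 17, 25], [3, 24], [4, 31, 14, 23], [5, 22], [6, 21], [7, 20, 15, 30], [8,
    19], [11, 28], [12, 27], [13, 26, 16]]
  word := [[], [], [], [], [0], [0], [0], [0, 2, 1], [], [], [2], [2], [2], [2], [2, 1], [], [], [], [], [], [1],
    [1], [1], [3], [], [], [3], [3], [3], [0, 3, 1], [0, 3], []]
  rank := [0, 0, 0, 1, 0, 1, 2, 4, 1, 0, 2, 1, 0, 2, 3, 2, 1, 0, 1, 2, 2, 1, 0, 2, 0, 1, 0, 1, 2, 4, 3, 1]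
  just := [0, 0, 0, 3, 0, 5, 6, 7, 1, 0, 9, 10, 0, 11, 4, 8, 2, 0, 1, 8, 6, 5, 0, 11, 0, 2, 0, 10, 9, 7, 4, 3]
  gA := 4
  gB := 12
  fin := 0
  sid := [0, 1, 2, 3, 4, 5, 6, 7, 8, 1, 0, 9, 10, 11, 4, 7, 11, 2, 1, 8, 7, 6, 5, 4, 3, 2, 11, 10, 9, 0, 7, 4]
  off := [(0, 0), (0, 0), (0, 0), (0, 0), (0, 0), (0, 0), (0, 0), (0, 0), (0, 0), (0, 0), (0, 0), (0, 0), (0, 0), (0,
    0), (-1, 1), (-1, 0), (0, -1), (0, 0), (0, 0), (0, 0), (-1, 0), (-1, 0), (-1, 0), (-1, 0), (0, 0), (0, 0), (0,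
    -1), (0, -1), (0, -1), (0, -1), (0, -1), (0, 0)]

/-- glued arcs and equations -/
def tord8b_36 : TorT :=
  ⟨[(0, 1, true), (0, 2, true), (1, 1, true), (2, 4, true), (3, 3, true), (3, 7, true), (4, 6, true), (5, 5, true),
    (5, 7, true), (6, 6, true)],
    [([0, 0, 0, 0, 0, 1, 1, 0], 2), ([0, 0, 0, 0, 1, 0, 1, 2], 2), ([0, 0, 0, 1, 1, 0, 0, 0], 2), ([0, 2, 1, 0, 0, 0,
    0, 0], 2), ([1, 0, 0, 1, 0, 0, 0, 0], 2), ([1, 0, 1, 0, 0, 1, 0, 0], 2)]⟩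

theorem tord8b_36_ok : tord8b_36.OK 8 := TT.leaf_ok (T := ttd8b_36) (by decide +kernel)

/-- the torus -/
def ttd8b_37 : TT where
  k := 12
  rf := [false, false, false, false, false, false, true, true, true, true, true, true]
  tau := [9, 17, 24, 31, 33, 27, 26, 23, 18, 0, 22, 21, 40, 43, 42, 19, 25, 1, 8, 15, 41, 11, 10, 7, 2, 16, 6, 5, 32,
    35, 34, 3, 28, 4, 30, 29, 54, 55, 52, 53, 12, 20, 14, 13, 62, 63, 60, 61, 68, 76, 70, 69, 38, 39, 36, 37, 84, 92,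
    86, 85, 46, 47, 44, 45, 74, 88, 78, 77, 48, 51, 50, 75, 81, 89, 64, 71, 49, 67, 66, 95, 90, 72, 94, 93, 56, 59,
    58, 91, 65, 73, 80, 87, 57, 83, 82, 79]
  par := [0, 0, 1, 2, 4, 12, 36, 44, 48, 49, 56, 57]
  stars := [[0, 23, 10], [1, 9, 18], [2, 17, 25], [3, 24], [4, 31, 34], [5, 33, 28], [6, 27], [7, 26, 16], [8, 19],
    [11, 22], [12, 21, 41], [13, 40, 62, 44], [14, 43], [15, 42, 20], [29, 32, 54, 36], [30, 35], [37, 55], [38, 48,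
    69, 52], [39, 53], [45, 63], [46, 56, 85, 60], [47, 61], [49, 77, 68], [50, 71, 76], [51, 70], [57, 93, 84], [58,
    87, 92], [59, 86], [64, 75], [65, 89, 74], [66, 79, 88], [67, 78], [72, 82, 95], [73, 90, 81], [80, 91], [83, 94]]
  word := [[], [], [], [], [], [0, 3, 1], [0, 3, 1], [0, 3, 1], [], [], [3], [3], [], [2], [2], [], [], [], [], [],
    [2], [2], [2], [0, 2, 1], [], [], [0, 2, 1], [0, 2, 1], [0, 2, 1], [], [], [], [0, 3, 1], [], [], [], [], [], [0,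
    3, 1], [0, 3, 1], [], [3], [3], [3], [], [], [2], [2], [], [], [0, 2, 1], [0, 2, 1], [0, 2, 1], [0, 2, 1], [],
    [], [], [], [3], [3], [3], [3], [], [], [0, 3, 1], [0], [], [], [], [0, 3, 1], [0, 3, 1], [0, 3, 1], [0], [0, 2],
    [0, 2, 1], [0, 2, 1], [], [], [], [0], [2], [1], [], [], [], [2], [2], [2], [1], [3, 1], [3], [3], [], [], [],
    [1]]
  rank := [0, 0, 0, 1, 0, 12, 13, 14, 1, 0, 10, 9, 0, 6, 7, 2, 1, 0, 1, 2, 8, 9, 10, 14, 0, 1, 13, 12, 11, 3, 2, 1,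
    11, 0, 2, 3, 0, 1, 9, 10, 0, 8, 7, 6, 0, 1, 4, 5, 0, 0, 7, 8, 9, 10, 0, 1, 0, 0, 2, 3, 4, 5, 0, 1, 5, 4, 2, 1, 0,
    8, 7, 6, 0, 1, 5, 6, 0, 1, 2, 3, 0, 0, 2, 1, 0, 3, 2, 1, 4, 1, 0, 1, 0, 1, 2, 3]
  just := [0, 0, 0, 3, 0, 5, 6, 7, 1, 0, 9, 10, 0, 11, 12, 8, 2, 0, 1, 8, 13, 10, 9, 7, 0, 2, 6, 5, 14, 15, 4, 3, 14,
    0, 4, 15, 0, 16, 17, 18, 0, 13, 12, 11, 0, 19, 20, 21, 0, 0, 23, 24, 17, 18, 0, 16, 0, 0, 26, 27, 20, 21, 0, 19,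
    29, 30, 31, 22, 0, 24, 23, 28, 0, 33, 29, 28, 0, 22, 31, 32, 0, 0, 35, 25, 0, 27, 26, 34, 30, 33, 0, 34, 0, 25,
    35, 32]
  gA := 72
  gB := 80
  fin := 0
  sid := [0, 1, 2, 3, 4, 5, 6, 7, 8, 1, 0, 9, 10, 11, 12, 13, 7, 2, 1, 8, 13, 10, 9, 0, 3, 2, 7, 6, 5, 14, 15, 4, 14,
    5, 4, 15, 14, 16, 17, 18, 11, 10, 13, 12, 11, 19, 20, 21, 17, 22, 23, 24, 17, 18, 14, 16, 20, 25, 26, 27, 20, 21,
    11, 19, 28, 29, 30, 31, 22, 17, 24, 23, 32, 33, 29, 28, 23, 22, 31, 30, 34, 33, 32, 35, 25, 20, 27, 26, 30, 29,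
    33, 34, 26, 25, 35, 32]
  off := [(0, 0), (0, 0), (0, 0), (0, 0), (0, 0), (0, 0), (0, 0), (0, 0), (0, 0), (0, 0), (0, 0), (0, 0), (0, 0), (0,
    0), (0, 0), (0, 0), (0, 1), (0, 0), (0, 0), (0, 0), (0, 0), (0, 1), (0, 1), (0, 1), (0, 0), (0, 0), (0, 1), (0,
    1), (0, 1), (0, 0), (0, 0), (0, 0), (0, -1), (0, 0), (0, 0), (0, 0), (0, 0), (0, 0), (0, 0), (0, 0), (0, 0), (0,
    0), (0, -1), (0, -1), (0, -1), (0, 0), (0, 0), (0, 0), (0, 0), (0, 0), (0, 0), (0, 0), (0, 1), (0, 1), (0, 0),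
    (0, 0), (0, 0), (0, 0), (0, 0), (0, 0), (0, -1), (0, -1), (0, -1), (0, 0), (0, 0), (0, 0), (0, 0), (0, 0), (0,
    0), (0, 0), (0, -1), (0, -1), (0, 0), (0, 0), (0, 1), (0, 1), (0, 0), (0, 0), (0, 0), (0, 0), (0, 0), (-1, 0),
    (-1, 0), (0, 0), (0, 0), (0, 0), (0, 1), (0, 1), (-1, 0), (-1, 0), (-1, -1), (0, -1), (0, 0), (0, 0), (0, 0),
    (-1, 0)]

/-- glued arcs and equations -/
def tord8b_37 : TorT :=
  ⟨[(0, 1, true), (0, 2, true), (0, 4, true), (1, 1, true), (1, 4, true), (2, 6, true), (3, 5, true), (3, 7, true),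
    (4, 6, false), (5, 7, false), (7, 7, true)],
    [([0, 0, 0, 0, 0, 1, 0, 1], 2), ([0, 0, 0, 1, 0, 0, 1, 0], 2), ([0, 0, 1, 0, 1, 0, 0, 1], 2), ([0, 1, 0, 0, 1, 1,
    0, 0], 2), ([0, 2, 1, 0, 0, 0, 0, 0], 2), ([1, 0, 0, 0, 1, 1, 1, 0], 2), ([1, 0, 0, 1, 0, 0, 0, 0], 2), ([1, 0,
    1, 0, 0, 0, 0, 1], 2)]⟩

theorem tord8b_37_ok : tord8b_37.OK 8 := TT.leaf_ok (T := ttd8b_37) (by decide +kernel)

/-- the torus -/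
def ttd8b_38 : TT where
  k := 8
  rf := [false, false, false, false, true, true, true, true]
  tau := [10, 17, 25, 21, 20, 19, 12, 11, 38, 18, 0, 7, 6, 39, 32, 37, 26, 1, 9, 5, 4, 3, 28, 27, 46, 2, 16, 23, 22,
    47, 40, 45, 14, 50, 56, 63, 62, 15, 8, 13, 30, 58, 48, 55, 54, 31, 24, 29, 42, 57, 33, 61, 60, 59, 44, 43, 34,
    49, 41, 53, 52, 51, 36, 35]
  par := [0, 0, 1, 2, 8, 24, 33, 34]
  stars := [[0, 11], [1, 10, 18], [2, 17, 26], [3, 25, 47, 29, 22], [4, 21], [5, 20], [6, 19, 9, 39, 13], [7, 12],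
    [8, 38], [14, 32], [15, 33, 51, 62, 37], [16, 27], [23, 28], [24, 46], [30, 40], [31, 41, 59, 54, 45], [34, 57,
    50], [35, 56], [36, 63], [42, 49, 58], [43, 48], [44, 55], [52, 61], [53, 60]]
  word := [[], [], [], [0, 3, 1], [0, 3, 1], [0, 3, 1], [0, 3, 1, 2], [0, 3, 1, 2], [], [], [], [3, 0, 2, 1], [3, 0,
    2, 1], [3], [3], [], [], [], [], [0, 2, 1], [0, 2, 1], [0, 2, 1], [], [], [], [], [], [], [], [0, 2, 1], [0, 2,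
    1], [], [2], [], [], [], [], [], [], [2], [0, 3, 1], [0], [0], [0], [0], [], [], [0, 3, 1], [1], [], [], [2],
    [2], [2], [1], [1], [], [], [1], [3], [3], [3], [], []]
  rank := [0, 0, 0, 5, 6, 7, 8, 9, 0, 1, 0, 9, 8, 4, 3, 1, 1, 0, 1, 7, 6, 5, 3, 2, 0, 0, 1, 2, 3, 4, 3, 1, 3, 0, 0,
    1, 2, 1, 0, 4, 3, 2, 1, 0, 1, 1, 0, 4, 1, 1, 0, 2, 1, 0, 1, 0, 0, 1, 2, 0, 1, 2, 2, 1]
  just := [0, 0, 0, 3, 4, 5, 6, 7, 0, 1, 0, 7, 6, 9, 10, 8, 2, 0, 1, 5, 4, 3, 12, 11, 0, 0, 2, 11, 12, 14, 15, 13,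
    10, 0, 0, 17, 18, 8, 0, 9, 15, 19, 20, 0, 21, 13, 0, 14, 20, 16, 0, 22, 23, 0, 21, 0, 0, 16, 19, 0, 23, 22, 18,
    17]
  gA := 43
  gB := 53
  fin := 0
  sid := [0, 1, 2, 3, 4, 5, 6, 7, 8, 6, 1, 0, 7, 6, 9, 10, 11, 2, 1, 6, 5, 4, 3, 12, 13, 3, 2, 11, 12, 3, 14, 15, 9,
    10, 16, 17, 18, 10, 8, 6, 14, 15, 19, 20, 21, 15, 13, 3, 20, 19, 16, 10, 22, 23, 15, 21, 17, 16, 19, 15, 23, 22,
    10, 18]
  off := [(0, 0), (0, 0), (0, 0), (0, 0), (0, 0), (0, 0), (0, 0), (0, 0), (0, 0), (0, 1), (0, 0), (0, 0), (0, 0), (0,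
    0), (0, 0), (0, 0), (0, 0), (0, 0), (0, 0), (0, 1), (0, 1), (0, 1), (0, 1), (0, 0), (0, 0), (0, 0), (0, 0), (0,
    0), (0, 0), (0, 1), (0, 0), (0, 0), (0, 1), (0, 1), (0, 0), (0, 0), (0, 0), (0, 0), (0, 0), (0, 1), (0, -1), (0,
    -1), (0, 0), (0, 0), (0, 0), (0, 0), (0, 0), (0, 0), (-1, 0), (-1, 0), (0, 0), (0, 1), (0, 0), (0, 0), (-1, 0),
    (-1, 0), (0, 0), (0, 0), (-1, 0), (-1, -1), (0, -1), (0, -1), (0, 0), (0, 0)]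

/-- glued arcs and equations -/
def tord8b_38 : TorT :=
  ⟨[(0, 2, true), (0, 6, false), (1, 1, true), (1, 2, true), (3, 5, true), (3, 7, true), (4, 4, true), (4, 6, true),
    (5, 7, false)],
    [([0, 0, 0, 0, 1, 0, 0, 1], 2), ([0, 0, 0, 0, 1, 1, 0, 0], 2), ([0, 1, 0, 1, 0, 1, 1, 1], 2), ([0, 1, 2, 0, 0, 0,
    0, 0], 2), ([1, 0, 0, 0, 0, 0, 1, 0], 2), ([1, 0, 0, 1, 0, 0, 0, 0], 2)]⟩

theorem tord8b_38_ok : tord8b_38.OK 8 := TT.leaf_ok (T := ttd8b_38) (by decide +kernel)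

/-- the torus -/
def ttd8b_39 : TT where
  k := 8
  rf := [false, false, false, false, true, true, true, true]
  tau := [9, 17, 24, 31, 30, 39, 42, 37, 18, 0, 38, 29, 28, 27, 20, 19, 25, 1, 8, 15, 14, 55, 58, 53, 2, 16, 54, 13,
    12, 11, 4, 3, 41, 49, 56, 63, 62, 7, 10, 5, 50, 32, 6, 61, 60, 59, 52, 51, 57, 33, 40, 47, 46, 23, 26, 21, 34,
    48, 22, 45, 44, 43, 36, 35]
  par := [0, 0, 1, 2, 5, 6, 21, 22]
  stars := [[0, 38, 10], [1, 9, 18], [2, 17, 25], [3, 24], [4, 31], [5, 30, 11, 39], [6, 32, 42], [7, 43, 62, 37],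
    [8, 19], [12, 29], [13, 28], [14, 27, 55, 21], [15, 20], [16, 54, 26], [22, 48, 58], [23, 59, 46, 53], [33, 50,
    41], [34, 57, 49], [35, 56], [36, 63], [40, 51], [44, 61], [45, 60], [47, 52]]
  word := [[], [], [], [], [], [], [], [2, 1, 3], [], [], [1], [1], [1], [1], [], [], [], [], [], [], [], [], [],
    [0], [], [], [0], [0], [0], [0], [], [], [], [2], [2], [2], [2], [2, 0, 3], [0], [], [2], [], [], [2, 1], [2, 1],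
    [2, 1], [2], [2], [], [3], [3], [3], [3], [1], [1], [], [3], [], [], [0, 3], [0, 3], [0, 3], [3], [3]]
  rank := [0, 0, 0, 1, 2, 0, 0, 6, 1, 0, 7, 6, 5, 4, 3, 2, 1, 0, 1, 2, 3, 0, 0, 2, 0, 1, 0, 4, 5, 6, 2, 1, 1, 2, 3,
    4, 5, 6, 7, 0, 1, 1, 0, 5, 4, 3, 1, 0, 1, 2, 1, 0, 1, 2, 0, 0, 3, 1, 0, 3, 4, 5, 5, 4]
  just := [0, 0, 0, 3, 4, 0, 0, 7, 1, 0, 5, 9, 10, 11, 12, 8, 2, 0, 1, 8, 12, 0, 0, 13, 0, 2, 0, 11, 10, 9, 4, 3, 6,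
    16, 17, 18, 19, 7, 5, 0, 20, 6, 0, 21, 22, 15, 23, 0, 14, 16, 20, 0, 23, 13, 0, 0, 17, 14, 0, 15, 22, 21, 19, 18]
  gA := 26
  gB := 47
  fin := 0
  sid := [0, 1, 2, 3, 4, 5, 6, 7, 8, 1, 0, 5, 9, 10, 11, 12, 13, 2, 1, 8, 12, 11, 14, 15, 3, 2, 13, 11, 10, 9, 5, 4,
    6, 16, 17, 18, 19, 7, 0, 5, 20, 16, 6, 7, 21, 22, 15, 23, 14, 17, 16, 20, 23, 15, 13, 11, 18, 17, 14, 15, 22, 21,
    7, 19]
  off := [(0, 0), (0, 0), (0, 0), (0, 0), (0, 0), (0, 0), (0, 0), (0, 0), (0, 0), (0, 0), (0, 0), (-1, 0), (0, 0),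
    (0, 0), (0, 0), (0, 0), (0, 0), (0, 0), (0, 0), (0, 0), (0, 0), (0, 0), (0, 0), (0, 0), (0, 0), (0, 0), (0, 0),
    (1, 0), (1, 0), (1, 0), (0, 0), (0, 0), (0, 0), (0, 0), (0, 0), (0, 0), (0, 0), (1, 0), (1, 0), (0, 0), (0, 0),
    (0, 0), (0, 0), (0, 0), (0, 0), (0, 0), (-1, 1), (0, 0), (0, 0), (0, -1), (0, -1), (0, -1), (0, -1), (-1, 0),
    (-1, 0), (0, 0), (0, -1), (0, -1), (0, 0), (0, 0), (1, -1), (1, -1), (1, -1), (0, -1)]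

/-- glued arcs and equations -/
def tord8b_39 : TorT :=
  ⟨[(0, 1, true), (0, 2, true), (1, 1, true), (2, 6, false), (3, 5, true), (3, 7, true), (4, 4, true), (4, 6, true),
    (5, 7, false)],
    [([0, 0, 0, 0, 1, 0, 0, 1], 2), ([0, 0, 0, 0, 1, 1, 0, 0], 2), ([0, 0, 0, 1, 0, 1, 1, 1], 2), ([0, 2, 1, 0, 0, 0,
    0, 0], 2), ([1, 0, 0, 1, 0, 0, 0, 0], 2), ([1, 0, 1, 0, 0, 0, 1, 0], 2)]⟩

theorem tord8b_39_ok : tord8b_39.OK 8 := TT.leaf_ok (T := ttd8b_39) (by decide +kernel)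

/-- the torus -/
def ttd8b_40 : TT where
  k := 8
  rf := [false, false, false, false, true, true, true, true]
  tau := [10, 17, 25, 21, 20, 19, 37, 38, 36, 18, 0, 39, 32, 46, 47, 35, 26, 1, 9, 5, 4, 3, 53, 54, 52, 2, 16, 55,
    48, 62, 63, 51, 12, 58, 40, 15, 8, 6, 7, 11, 34, 57, 49, 61, 60, 59, 13, 14, 28, 42, 56, 31, 24, 22, 23, 27, 50,
    41, 33, 45, 44, 43, 29, 30]
  par := [0, 0, 1, 2, 6, 13, 22, 29]
  stars := [[0, 39, 11], [1, 10, 18], [2, 17, 26], [3, 25, 53, 22], [4, 21], [5, 20], [6, 19, 9, 37], [7, 38], [8,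
    36], [12, 32], [13, 33, 59, 46], [14, 47], [15, 40, 35], [16, 55, 27], [23, 54], [24, 52], [28, 48], [29, 49, 43,
    62], [30, 63], [31, 56, 51], [34, 41, 58], [42, 50, 57], [44, 61], [45, 60]]
  word := [[], [], [], [0], [0], [0], [], [], [1], [], [], [2, 0, 3, 1], [2, 0, 3, 1], [], [], [1], [], [], [], [1],
    [1], [1], [], [], [0], [], [], [], [], [], [], [0], [0, 2, 1, 3], [0, 2, 1], [0], [0], [0], [], [], [0, 2, 1, 3],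
    [1], [2, 1], [2], [2], [2], [2], [], [], [], [3], [1], [1], [1], [], [], [], [0], [0, 3], [0, 3, 1], [3], [3],
    [3], [], []]
  rank := [0, 0, 0, 0, 1, 2, 0, 1, 3, 1, 0, 8, 7, 0, 1, 4, 1, 0, 1, 2, 1, 0, 0, 1, 1, 0, 1, 2, 3, 0, 1, 2, 7, 6, 5,
    4, 3, 0, 1, 8, 5, 5, 4, 0, 1, 2, 0, 1, 3, 4, 3, 2, 1, 0, 1, 2, 3, 5, 6, 2, 1, 0, 0, 1]
  just := [0, 0, 0, 0, 4, 5, 0, 7, 6, 1, 0, 9, 10, 0, 11, 8, 2, 0, 1, 5, 4, 0, 0, 14, 3, 0, 2, 13, 16, 0, 18, 15, 10,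
    20, 12, 8, 6, 0, 7, 9, 12, 21, 17, 0, 22, 23, 0, 11, 16, 17, 19, 15, 3, 0, 14, 13, 19, 21, 20, 23, 22, 0, 0, 18]
  gA := 3
  gB := 43
  fin := 0
  sid := [0, 1, 2, 3, 4, 5, 6, 7, 8, 6, 1, 0, 9, 10, 11, 12, 13, 2, 1, 6, 5, 4, 3, 14, 15, 3, 2, 13, 16, 17, 18, 19,
    9, 10, 20, 12, 8, 6, 7, 0, 12, 20, 21, 17, 22, 23, 10, 11, 16, 17, 21, 19, 15, 3, 14, 13, 19, 21, 20, 10, 23, 22,
    17, 18]
  off := [(0, 0), (0, 0), (0, 0), (0, 0), (0, 0), (0, 0), (0, 0), (0, 0), (0, 0), (-1, 0), (0, 0), (0, 0), (0, 0),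
    (0, 0), (0, 0), (0, 0), (0, 0), (0, 0), (0, 0), (-1, 0), (-1, 0), (-1, 0), (-1, 0), (0, 0), (0, 0), (0, 0), (0,
    0), (0, 0), (0, 0), (0, 0), (0, 0), (0, 0), (0, 0), (0, 0), (0, 0), (1, 0), (1, 0), (0, 0), (0, 0), (0, 0), (0,
    0), (-1, 0), (0, 0), (0, 1), (0, 0), (0, 0), (0, 0), (0, 0), (0, 0), (0, 0), (0, -1), (-1, 0), (-1, 0), (-1, 0),
    (0, 0), (0, 0), (0, 0), (1, -1), (0, -1), (0, -1), (0, -1), (0, -1), (0, 0), (0, 0)]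

/-- glued arcs and equations -/
def tord8b_40 : TorT :=
  ⟨[(0, 2, true), (0, 4, false), (1, 1, true), (1, 2, true), (3, 5, true), (3, 7, false), (4, 4, true), (5, 6,
    false), (6, 7, false)],
    [([0, 0, 0, 0, 0, 0, 1, 1], 2), ([0, 0, 0, 0, 1, 1, 0, 0], 2), ([0, 1, 0, 1, 0, 1, 1, 0], 2), ([0, 1, 2, 0, 0, 0,
    0, 0], 2), ([1, 0, 0, 0, 1, 0, 0, 0], 2), ([1, 0, 0, 1, 0, 0, 0, 1], 2)]⟩

theorem tord8b_40_ok : tord8b_40.OK 8 := TT.leaf_ok (T := ttd8b_40) (by decide +kernel)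

/-- the torus -/
def ttd8b_41 : TT where
  k := 8
  rf := [false, false, false, false, true, true, true, true]
  tau := [9, 17, 24, 39, 42, 54, 55, 35, 18, 0, 36, 29, 28, 27, 61, 62, 25, 1, 8, 63, 50, 46, 47, 59, 2, 16, 60, 13,
    12, 11, 37, 38, 41, 57, 48, 7, 10, 30, 31, 3, 58, 32, 4, 53, 52, 51, 21, 22, 34, 56, 20, 45, 44, 43, 5, 6, 49,
    33, 40, 23, 26, 14, 15, 19]
  par := [0, 0, 1, 2, 3, 4, 5, 14]
  stars := [[0, 36, 10], [1, 9, 18], [2, 17, 25], [3, 24, 39], [4, 32, 42], [5, 43, 54], [6, 55], [7, 48, 35], [8,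
    63, 19], [11, 37, 30], [12, 29], [13, 28], [14, 27, 61], [15, 62], [16, 60, 26], [20, 56, 50], [21, 51, 46], [22,
    47], [23, 40, 59], [31, 38], [33, 58, 41], [34, 49, 57], [44, 53], [45, 52]]
  word := [[], [], [], [], [], [], [], [1, 3, 0], [], [], [3], [3], [3], [3], [], [], [], [], [], [], [0], [0], [0],
    [2], [], [], [2], [2], [2], [2], [], [], [], [1, 2], [1, 2, 0], [1, 2, 0], [2], [], [], [], [1, 2], [], [], [],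
    [], [], [1], [1], [1, 3, 0], [1], [1], [], [], [], [], [], [0], [3, 0], [3, 0], [3], [3], [], [], []]
  rank := [0, 0, 0, 0, 0, 0, 1, 7, 1, 0, 4, 3, 2, 1, 0, 1, 1, 0, 1, 2, 4, 0, 1, 2, 0, 1, 0, 1, 2, 3, 2, 1, 1, 4, 6,
    7, 4, 2, 1, 0, 3, 1, 0, 1, 2, 3, 0, 1, 6, 5, 4, 3, 2, 1, 0, 1, 5, 4, 3, 2, 0, 0, 1, 2]
  just := [0, 0, 0, 0, 0, 0, 6, 7, 1, 0, 9, 10, 11, 12, 0, 13, 2, 0, 1, 8, 16, 0, 17, 14, 0, 2, 0, 12, 11, 10, 19, 3,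
    4, 20, 21, 7, 9, 19, 3, 0, 18, 4, 0, 5, 22, 23, 0, 17, 21, 15, 16, 23, 22, 5, 0, 6, 15, 20, 18, 14, 0, 0, 13, 8]
  gA := 21
  gB := 26
  fin := 0
  sid := [0, 1, 2, 3, 4, 5, 6, 7, 8, 1, 0, 9, 10, 11, 12, 13, 14, 2, 1, 8, 15, 16, 17, 18, 3, 2, 14, 12, 11, 10, 9,
    19, 4, 20, 21, 7, 0, 9, 19, 3, 18, 20, 4, 5, 22, 23, 16, 17, 7, 21, 15, 16, 23, 22, 5, 6, 15, 21, 20, 18, 14, 12,
    13, 8]
  off := [(0, 0), (0, 0), (0, 0), (0, 0), (0, 0), (0, 0), (0, 0), (0, 0), (0, 0), (0, 0), (0, 0), (0, 0), (0, 0), (0,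
    0), (0, 0), (0, 0), (0, 0), (0, 0), (0, 0), (0, 0), (0, 0), (0, 0), (0, 0), (0, 0), (0, 0), (0, 0), (0, 0), (0,
    1), (0, 1), (0, 1), (0, 1), (0, 0), (0, 0), (0, 0), (0, 0), (0, 1), (0, 1), (0, 1), (0, 0), (0, 0), (-1, 0), (0,
    0), (0, 0), (0, 0), (0, 0), (0, 0), (-1, 0), (-1, 0), (0, 0), (0, -1), (-1, 0), (-1, 0), (0, 0), (0, 0), (0, 0),
    (0, 0), (0, 0), (1, -1), (1, -1), (0, -1), (0, -1), (0, 0), (0, 0), (0, 0)]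

/-- glued arcs and equations -/
def tord8b_41 : TorT :=
  ⟨[(0, 1, true), (0, 2, true), (1, 1, true), (2, 4, false), (3, 5, true), (3, 7, false), (4, 4, true), (5, 6,
    false), (6, 7, false)],
    [([0, 0, 0, 0, 0, 0, 1, 1], 2), ([0, 0, 0, 0, 1, 1, 0, 0], 2), ([0, 0, 0, 1, 0, 1, 1, 0], 2), ([0, 2, 1, 0, 0, 0,
    0, 0], 2), ([1, 0, 0, 1, 0, 0, 0, 1], 2), ([1, 0, 1, 0, 1, 0, 0, 0], 2)]⟩

theorem tord8b_41_ok : tord8b_41.OK 8 := TT.leaf_ok (T := ttd8b_41) (by decide +kernel)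

end Pool.Agent.Lib_MP_fa6e45
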