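import Pool.Agent.Lib_MP_fa6e45.CT5

/-!
MP_fa6e45_co, stage 9: straight-side patterns with `8` sides, tables of tori (generated by a program).
-/

namespace Pool.Agent.Lib_MP_fa6e45

/-- the torus -/
def ttd8b_42 : TT where
  k := 4
  rf := [false, false, false, false]
  tau := [10, 17, 25, 19, 8, 15, 22, 30, 4, 18, 0, 29, 28, 27, 23, 5, 26, 1, 9, 3, 24, 31, 6, 14, 20, 2, 16, 13, 12,
    11, 7, 21]
  par := [0, 0, 1, 2]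
  stars := [[0, 30, 11], [1, 10, 18], [2, 17, 26], [3, 25, 20], [4, 19, 9], [5, 8], [6, 15, 23], [7, 22, 31], [12,
    29], [13, 28], [14, 27, 16], [21, 24]]
  word := [[], [], [], [0], [0], [0], [0, 2], [0, 2, 1], [1], [], [], [2], [2], [2], [2], [1], [], [], [], [1], [1],
    [1], [3, 1], [3], [0], [], [], [3], [3], [3], [0, 3, 1], [0]]
  rank := [0, 0, 0, 0, 2, 3, 4, 5, 2, 1, 0, 2, 1, 0, 2, 3, 1, 0, 1, 0, 1, 2, 4, 2, 1, 0, 1, 0, 1, 2, 5, 2]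
  just := [0, 0, 0, 0, 4, 5, 6, 7, 4, 1, 0, 8, 9, 0, 10, 5, 2, 0, 1, 0, 3, 11, 6, 10, 3, 0, 2, 0, 9, 8, 7, 11]
  gA := 3
  gB := 13
  fin := 0
  sid := [0, 1, 2, 3, 4, 5, 6, 7, 5, 4, 1, 0, 8, 9, 10, 6, 10, 2, 1, 4, 3, 11, 7, 6, 11, 3, 2, 10, 9, 8, 0, 7]
  off := [(0, 0), (0, 0), (0, 0), (0, 0), (0, 0), (0, 0), (0, 0), (0, 0), (-1, 0), (-1, 0), (0, 0), (0, 0), (0, 0),
    (0, 0), (0, 0), (-1, 0), (0, -1), (0, 0), (0, 0), (-1, 0), (-1, 0), (0, 0), (-1, -1), (-1, -1), (1, 0), (0, 0),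
    (0, 0), (0, -1), (0, -1), (0, -1), (0, -1), (0, -1)]

/-- glued arcs and equations -/
def tord8b_42 : TorT :=
  ⟨[(0, 2, true), (0, 4, true), (1, 1, true), (1, 2, true), (3, 3, true), (3, 5, true), (4, 4, true), (5, 7, true),
    (6, 6, true), (6, 7, true)],
    [([0, 0, 0, 0, 0, 0, 1, 2], 2), ([0, 0, 0, 0, 1, 1, 0, 0], 2), ([0, 1, 0, 1, 1, 0, 0, 0], 2), ([0, 1, 2, 0, 0, 0,
    0, 0], 2), ([1, 0, 0, 0, 0, 1, 0, 0], 2), ([1, 0, 0, 1, 0, 0, 1, 0], 2)]⟩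

theorem tord8b_42_ok : tord8b_42.OK 8 := TT.leaf_ok (T := ttd8b_42) (by decide +kernel)

/-- the torus -/
def ttd8b_43 : TT where
  k := 4
  rf := [false, false, false, false]
  tau := [9, 17, 24, 21, 20, 19, 15, 29, 18, 0, 28, 27, 26, 23, 30, 6, 25, 1, 8, 5, 4, 3, 31, 13, 2, 16, 12, 11, 10,
    7, 14, 22]
  par := [0, 0, 1, 2]
  stars := [[0, 29, 10], [1, 9, 18], [2, 17, 25], [3, 24, 22], [4, 21], [5, 20], [6, 19, 8], [7, 15, 30], [11, 28],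
    [12, 27], [13, 26, 16], [14, 23, 31]]
  word := [[], [], [], [0], [0], [0], [0], [0, 2, 1], [], [], [2], [2], [2], [2], [2, 1], [1], [], [], [], [1], [1],
    [1], [1], [3], [], [], [3], [3], [3], [0, 3, 1], [0, 3], [0]]
  rank := [0, 0, 0, 0, 1, 2, 3, 4, 1, 0, 2, 1, 0, 2, 3, 3, 1, 0, 1, 2, 1, 0, 1, 2, 0, 1, 0, 1, 2, 4, 3, 1]
  just := [0, 0, 0, 0, 4, 5, 6, 7, 1, 0, 8, 9, 0, 10, 11, 6, 2, 0, 1, 5, 4, 0, 3, 10, 0, 2, 0, 9, 8, 7, 11, 3]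
  gA := 3
  gB := 12
  fin := 0
  sid := [0, 1, 2, 3, 4, 5, 6, 7, 6, 1, 0, 8, 9, 10, 11, 7, 10, 2, 1, 6, 5, 4, 3, 11, 3, 2, 10, 9, 8, 0, 7, 11]
  off := [(0, 0), (0, 0), (0, 0), (0, 0), (0, 0), (0, 0), (0, 0), (0, 0), (-1, 0), (0, 0), (0, 0), (0, 0), (0, 0),
    (0, 0), (0, 0), (-1, 0), (0, -1), (0, 0), (0, 0), (-1, 0), (-1, 0), (-1, 0), (-1, 0), (0, -1), (0, 0), (0, 0),
    (0, -1), (0, -1), (0, -1), (0, -1), (0, -1), (1, -1)]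

/-- glued arcs and equations -/
def tord8b_43 : TorT :=
  ⟨[(0, 1, true), (0, 2, true), (1, 1, true), (2, 4, true), (3, 3, true), (3, 5, true), (4, 4, true), (5, 7, true),
    (6, 6, true), (6, 7, true)],
    [([0, 0, 0, 0, 0, 0, 1, 2], 2), ([0, 0, 0, 0, 1, 1, 0, 0], 2), ([0, 0, 0, 1, 1, 0, 0, 0], 2), ([0, 2, 1, 0, 0, 0,
    0, 0], 2), ([1, 0, 0, 1, 0, 0, 1, 0], 2), ([1, 0, 1, 0, 0, 1, 0, 0], 2)]⟩

theorem tord8b_43_ok : tord8b_43.OK 8 := TT.leaf_ok (T := ttd8b_43) (by decide +kernel)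

/-- the torus -/
def ttd8b_44 : TT where
  k := 8
  rf := [false, false, false, false, true, true, true, true]
  tau := [9, 17, 24, 31, 34, 35, 45, 46, 18, 0, 52, 53, 28, 62, 63, 19, 25, 1, 8, 15, 42, 43, 37, 38, 2, 16, 60, 61,
    12, 54, 55, 3, 58, 48, 4, 5, 44, 22, 23, 59, 50, 56, 20, 21, 36, 6, 7, 51, 33, 57, 40, 47, 10, 11, 29, 30, 41,
    49, 32, 39, 26, 27, 13, 14]
  par := [0, 0, 1, 2, 4, 6, 10, 13]
  stars := [[0, 47, 52, 10], [1, 9, 18], [2, 17, 25], [3, 24], [4, 31, 48, 34], [5, 35], [6, 36, 45], [7, 46], [8,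
    19], [11, 53], [12, 54, 29], [13, 28, 62], [14, 63], [15, 56, 42, 20], [16, 39, 60, 26], [21, 43], [22, 44, 37],
    [23, 38], [27, 61], [30, 55], [32, 59], [33, 49, 58], [40, 51], [41, 57, 50]]
  word := [[], [], [], [], [], [], [], [], [], [], [], [], [0], [], [], [], [], [], [], [], [2], [2], [2], [2], [],
    [], [1], [1], [1], [1], [1], [], [3, 1], [1], [], [], [], [3], [3], [3, 1], [3, 0, 2, 1], [3], [3], [3], [], [],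
    [], [3, 0, 2, 1], [0], [0, 3, 1], [0, 3, 1, 2], [0, 3, 1, 2], [], [], [0], [0], [2], [0, 2, 1], [0, 2], [0, 2],
    [0], [0], [], []]
  rank := [0, 0, 0, 1, 0, 1, 0, 1, 1, 0, 0, 1, 0, 0, 1, 2, 1, 0, 1, 2, 4, 3, 1, 0, 0, 1, 2, 1, 0, 2, 3, 1, 4, 4, 0,
    1, 2, 1, 0, 3, 6, 5, 4, 3, 2, 0, 1, 7, 4, 5, 6, 7, 0, 1, 2, 3, 5, 5, 4, 3, 2, 1, 0, 1]
  just := [0, 0, 0, 3, 0, 5, 0, 7, 1, 0, 0, 9, 0, 0, 12, 8, 2, 0, 1, 8, 15, 16, 17, 0, 0, 2, 18, 11, 0, 10, 19, 3,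
    20, 4, 0, 5, 6, 17, 0, 14, 23, 13, 15, 16, 6, 0, 7, 22, 4, 21, 23, 22, 0, 9, 10, 19, 13, 21, 20, 14, 18, 11, 0,
    12]
  gA := 12
  gB := 23
  fin := 0
  sid := [0, 1, 2, 3, 4, 5, 6, 7, 8, 1, 0, 9, 10, 11, 12, 13, 14, 2, 1, 8, 13, 15, 16, 17, 3, 2, 14, 18, 11, 10, 19,
    4, 20, 21, 4, 5, 6, 16, 17, 14, 22, 23, 13, 15, 16, 6, 7, 0, 4, 21, 23, 22, 0, 9, 10, 19, 13, 23, 21, 20, 14, 18,
    11, 12]
  off := [(0, 0), (0, 0), (0, 0), (0, 0), (0, 0), (0, 0), (0, 0), (0, 0), (0, 0), (0, 0), (0, 0), (0, 0), (0, 0), (0,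
    0), (0, 0), (0, 0), (0, 0), (0, 0), (0, 0), (0, 0), (0, 0), (0, 0), (0, 0), (0, 0), (0, 0), (0, 0), (0, 0), (0,
    0), (-1, 0), (-1, 0), (0, 0), (0, 0), (0, 0), (0, 0), (0, 0), (0, 0), (0, 0), (0, -1), (0, -1), (0, -1), (0, 0),
    (0, 0), (0, -1), (0, -1), (0, -1), (0, 0), (0, 0), (0, 0), (1, 0), (1, 0), (0, 0), (0, 0), (0, 0), (0, 0), (0,
    0), (1, 0), (0, 0), (0, 1), (1, 1), (1, 1), (1, 0), (1, 0), (0, 0), (0, 0)]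

/-- glued arcs and equations -/
def tord8b_44 : TorT :=
  ⟨[(0, 1, true), (0, 2, true), (1, 1, true), (2, 4, false), (3, 5, false), (3, 7, true), (4, 4, true), (5, 6,
    false), (6, 7, false)],
    [([0, 0, 0, 0, 0, 0, 1, 1], 2), ([0, 0, 0, 0, 1, 1, 1, 0], 2), ([0, 0, 0, 1, 0, 1, 0, 0], 2), ([0, 2, 1, 0, 0, 0,
    0, 0], 2), ([1, 0, 0, 1, 0, 0, 0, 0], 2), ([1, 0, 1, 0, 1, 0, 0, 1], 2)]⟩

theorem tord8b_44_ok : tord8b_44.OK 8 := TT.leaf_ok (T := ttd8b_44) (by decide +kernel)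

/-- the torus -/
def ttd8b_45 : TT where
  k := 8
  rf := [false, false, false, false, true, true, true, true]
  tau := [10, 17, 25, 37, 20, 46, 47, 11, 44, 18, 0, 7, 40, 51, 61, 62, 26, 1, 9, 45, 4, 38, 39, 27, 36, 2, 16, 23,
    32, 59, 53, 54, 28, 58, 48, 55, 24, 3, 21, 22, 12, 50, 56, 63, 8, 19, 5, 6, 34, 57, 41, 13, 60, 30, 31, 35, 42,
    49, 33, 29, 52, 14, 15, 43]
  par := [0, 0, 1, 2, 3, 5, 13, 14]
  stars := [[0, 11], [1, 10, 18], [2, 17, 26], [3, 25, 37], [4, 38, 21], [5, 20, 46], [6, 47], [7, 40, 12], [8, 63,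
    44], [9, 45, 19], [13, 41, 51], [14, 52, 61], [15, 62], [16, 27], [22, 39], [23, 32, 28], [24, 55, 36], [29, 33,
    59], [30, 60, 53], [31, 54], [34, 49, 58], [35, 48], [42, 57, 50], [43, 56]]
  word := [[], [], [], [], [1], [], [], [1, 3, 0, 2], [0], [], [], [3, 1, 2, 0], [3, 1, 2, 0], [], [], [], [], [],
    [], [0], [0], [0], [0], [], [], [], [], [], [0], [2], [2], [2], [1], [1, 2], [2], [2], [], [], [1], [1], [1, 3,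
    0, 2], [1, 3, 0, 2], [1], [1], [1], [1], [], [], [3], [3, 1, 2], [3, 1, 2, 0], [], [], [3], [3], [3], [0], [3, 0,
    2], [3, 0], [3], [], [], [], [0]]
  rank := [0, 0, 0, 0, 1, 0, 1, 8, 3, 1, 0, 8, 7, 0, 0, 1, 1, 0, 1, 2, 1, 0, 1, 2, 1, 0, 1, 2, 3, 2, 1, 0, 3, 4, 3,
    2, 1, 0, 0, 1, 7, 6, 5, 4, 3, 2, 0, 1, 3, 5, 6, 0, 1, 1, 0, 2, 5, 5, 4, 2, 1, 0, 1, 4]
  just := [0, 0, 0, 0, 4, 0, 6, 7, 9, 1, 0, 7, 10, 0, 0, 12, 2, 0, 1, 5, 4, 0, 14, 13, 3, 0, 2, 13, 15, 18, 19, 0,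
    15, 17, 21, 16, 3, 0, 0, 14, 10, 22, 23, 8, 9, 5, 0, 6, 21, 20, 22, 0, 11, 19, 0, 16, 23, 20, 17, 18, 11, 0, 12,
    8]
  gA := 21
  gB := 31
  fin := 0
  sid := [0, 1, 2, 3, 4, 5, 6, 7, 8, 9, 1, 0, 7, 10, 11, 12, 13, 2, 1, 9, 5, 4, 14, 15, 16, 3, 2, 13, 15, 17, 18, 19,
    15, 17, 20, 21, 16, 3, 4, 14, 7, 10, 22, 23, 8, 9, 5, 6, 21, 20, 22, 10, 11, 18, 19, 16, 23, 22, 20, 17, 18, 11,
    12, 8]
  off := [(0, 0), (0, 0), (0, 0), (0, 0), (0, 0), (0, 0), (0, 0), (0, 0), (0, 0), (0, 0), (0, 0), (0, 0), (0, 0), (0,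
    0), (0, 0), (0, 0), (0, 0), (0, 0), (0, 0), (0, 0), (1, 0), (1, 0), (0, 0), (0, 0), (0, 0), (0, 0), (0, 0), (0,
    0), (0, 0), (0, 0), (0, 0), (0, 0), (-1, 0), (-1, 0), (0, 0), (0, 0), (0, 0), (0, 0), (0, 0), (-1, 0), (0, 0),
    (0, 0), (0, 0), (0, 0), (-1, 0), (-1, 0), (0, 0), (0, 0), (0, -1), (0, -1), (0, 0), (0, 0), (0, 0), (0, -1), (0,
    -1), (0, -1), (1, 0), (1, 0), (1, -1), (0, -1), (0, -1), (0, 0), (0, 0), (0, 0)]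

/-- glued arcs and equations -/
def tord8b_45 : TorT :=
  ⟨[(0, 2, true), (0, 4, false), (1, 1, true), (1, 2, true), (3, 5, false), (3, 7, true), (4, 4, true), (5, 6,
    false), (6, 7, false)],
    [([0, 0, 0, 0, 0, 0, 1, 1], 2), ([0, 0, 0, 0, 1, 1, 1, 0], 2), ([0, 1, 0, 1, 0, 1, 0, 0], 2), ([0, 1, 2, 0, 0, 0,
    0, 0], 2), ([1, 0, 0, 0, 1, 0, 0, 1], 2), ([1, 0, 0, 1, 0, 0, 0, 0], 2)]⟩

theorem tord8b_45_ok : tord8b_45.OK 8 := TT.leaf_ok (T := ttd8b_45) (by decide +kernel)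

/-- the torus -/
def ttd8b_46 : TT where
  k := 4
  rf := [false, false, false, false]
  tau := [10, 17, 25, 19, 8, 15, 29, 11, 4, 18, 0, 7, 28, 22, 30, 5, 26, 1, 9, 3, 24, 31, 13, 27, 20, 2, 16, 23, 12,
    6, 14, 21]
  par := [0, 0, 1, 2]
  stars := [[0, 11], [1, 10, 18], [2, 17, 26], [3, 25, 20], [4, 19, 9], [5, 8], [6, 15, 30], [7, 29, 12], [13, 28,
    23], [14, 22, 31], [16, 27], [21, 24]]
  word := [[], [], [], [3], [3], [3], [3, 0, 2], [3, 0, 2, 1], [2], [], [], [0, 3, 1, 2], [0], [0], [0, 2], [2], [],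
    [], [], [2], [2], [2], [1], [], [3], [], [], [], [1], [3, 1, 2], [3, 1], [3]]
  rank := [0, 0, 0, 1, 2, 3, 4, 5, 2, 1, 0, 5, 3, 0, 2, 3, 1, 0, 1, 1, 0, 1, 0, 2, 0, 0, 1, 2, 3, 4, 2, 1]
  just := [0, 0, 0, 3, 4, 5, 6, 7, 4, 1, 0, 7, 8, 0, 9, 5, 2, 0, 1, 3, 0, 11, 0, 10, 0, 0, 2, 10, 8, 6, 9, 11]
  gA := 13
  gB := 20
  fin := 0
  sid := [0, 1, 2, 3, 4, 5, 6, 7, 5, 4, 1, 0, 7, 8, 9, 6, 10, 2, 1, 4, 3, 11, 9, 8, 11, 3, 2, 10, 8, 7, 6, 9]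
  off := [(0, 0), (0, 0), (0, 0), (0, 0), (0, 0), (0, 0), (0, 0), (0, 0), (0, 1), (0, 1), (0, 0), (0, 0), (0, 0), (0,
    0), (0, 0), (0, 1), (0, 0), (0, 0), (0, 0), (0, 1), (0, 1), (0, 0), (-1, 0), (-1, 0), (0, -1), (0, 0), (0, 0),
    (0, 0), (-1, 0), (-1, 0), (-1, 0), (-1, -1)]

/-- glued arcs and equations -/
def tord8b_46 : TorT :=
  ⟨[(0, 2, true), (0, 4, true), (1, 1, true), (1, 2, true), (3, 3, true), (3, 7, true), (4, 4, true), (5, 6, true),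
    (5, 7, true), (6, 6, true)],
    [([0, 0, 0, 0, 0, 0, 2, 1], 2), ([0, 0, 0, 0, 1, 1, 0, 1], 2), ([0, 1, 0, 1, 1, 0, 0, 0], 2), ([0, 1, 2, 0, 0, 0,
    0, 0], 2), ([1, 0, 0, 0, 0, 1, 0, 0], 2), ([1, 0, 0, 1, 0, 0, 0, 0], 2)]⟩

theorem tord8b_46_ok : tord8b_46.OK 8 := TT.leaf_ok (T := ttd8b_46) (by decide +kernel)

/-- the torus -/
def ttd8b_47 : TT where
  k := 12
  rf := [false, false, false, false, false, false, false, false, true, true, true, true]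
  tau := [10, 9, 8, 23, 30, 32, 39, 19, 2, 1, 0, 47, 54, 56, 63, 43, 42, 41, 40, 7, 38, 24, 31, 3, 21, 37, 69, 70,
    76, 33, 4, 22, 5, 29, 77, 78, 68, 25, 20, 6, 18, 17, 16, 15, 62, 48, 55, 11, 45, 61, 85, 86, 92, 57, 12, 46, 13,
    53, 93, 94, 84, 49, 44, 14, 82, 81, 80, 79, 36, 26, 27, 75, 90, 89, 88, 71, 28, 34, 35, 67, 66, 65, 64, 95, 60,
    50, 51, 91, 74, 73, 72, 87, 52, 58, 59, 83]
  par := [0, 0, 3, 4, 5, 11, 12, 13, 26, 28, 50, 52]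
  stars := [[0, 19, 40, 11], [1, 10], [2, 9], [3, 8, 43, 16], [4, 23, 31], [5, 30, 33], [6, 32], [7, 39, 20], [12,
    47, 55], [13, 54, 57], [14, 56], [15, 63, 44], [17, 42], [18, 41], [21, 38, 25], [22, 24], [26, 37, 69], [27,
    70], [28, 71, 76], [29, 77, 34], [35, 78], [36, 79, 68], [45, 62, 49], [46, 48], [50, 61, 85], [51, 86], [52, 87,
    92], [53, 93, 58], [59, 94], [60, 95, 84], [64, 83, 88, 75], [65, 82], [66, 81], [67, 72, 91, 80], [73, 90], [74,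
    89]]
  word := [[], [], [], [], [], [], [], [0, 2, 1], [], [], [], [], [], [], [], [3], [3], [3], [3], [0, 3, 1], [0, 3,
    1], [], [], [], [], [0, 3, 1], [], [], [], [], [], [], [], [], [], [], [0, 2, 1], [0, 2, 1], [0, 2, 1], [], [2],
    [2], [2], [2], [2], [], [], [], [], [2], [], [], [], [], [], [], [], [], [], [], [3], [3], [3], [], [0, 3], [0,
    3], [0, 3], [0, 3, 1], [0, 3, 1], [], [], [], [0], [0], [0], [], [], [], [], [0, 2, 1], [2, 1], [2, 1], [2, 1],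
    [2], [2], [], [], [], [1], [1], [1], [], [], [], [], [3]]
  rank := [0, 1, 2, 0, 0, 0, 1, 10, 2, 1, 0, 0, 0, 0, 1, 7, 8, 9, 10, 10, 9, 2, 1, 0, 2, 8, 0, 1, 0, 1, 0, 1, 0, 1,
    2, 3, 7, 8, 9, 1, 10, 9, 8, 7, 6, 2, 1, 0, 2, 5, 0, 1, 0, 1, 0, 1, 0, 1, 2, 3, 4, 5, 6, 1, 3, 4, 5, 6, 7, 0, 1,
    2, 2, 1, 0, 2, 0, 2, 3, 6, 5, 4, 3, 0, 4, 0, 1, 2, 0, 1, 2, 2, 0, 2, 3, 0]
  just := [0, 1, 2, 0, 0, 0, 6, 7, 2, 1, 0, 0, 0, 0, 10, 11, 3, 12, 13, 7, 14, 15, 4, 0, 15, 16, 0, 17, 0, 5, 0, 4,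
    0, 5, 19, 20, 21, 16, 14, 6, 13, 12, 3, 11, 22, 23, 8, 0, 23, 24, 0, 25, 0, 9, 0, 8, 0, 9, 27, 28, 29, 24, 22,
    10, 30, 31, 32, 33, 21, 0, 17, 18, 34, 35, 0, 18, 0, 19, 20, 33, 32, 31, 30, 0, 29, 0, 25, 26, 0, 35, 34, 26, 0,
    27, 28, 0]
  gA := 74
  gB := 83
  fin := 0
  sid := [0, 1, 2, 3, 4, 5, 6, 7, 3, 2, 1, 0, 8, 9, 10, 11, 3, 12, 13, 0, 7, 14, 15, 4, 15, 14, 16, 17, 18, 19, 5, 4,
    6, 5, 19, 20, 21, 16, 14, 7, 0, 13, 12, 3, 11, 22, 23, 8, 23, 22, 24, 25, 26, 27, 9, 8, 10, 9, 27, 28, 29, 24,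
    22, 11, 30, 31, 32, 33, 21, 16, 17, 18, 33, 34, 35, 30, 18, 19, 20, 21, 33, 32, 31, 30, 29, 24, 25, 26, 30, 35,
    34, 33, 26, 27, 28, 29]
  off := [(0, 0), (0, 0), (0, 0), (0, 0), (0, 0), (0, 0), (0, 0), (0, 0), (0, 0), (0, 0), (0, 0), (0, 0), (0, 0), (0,
    0), (0, 0), (0, 0), (0, 0), (0, 0), (0, 0), (0, -1), (0, -1), (0, 0), (0, 0), (0, 0), (0, 0), (0, 0), (0, 0), (0,
    0), (0, 0), (0, 0), (0, 0), (0, 0), (0, 0), (0, 0), (0, 0), (0, 0), (0, 0), (0, 1), (0, 1), (0, 0), (0, 0), (0,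
    1), (0, 1), (0, 1), (0, 1), (0, 0), (0, 0), (0, 0), (0, 0), (0, 0), (0, 0), (0, 0), (0, 0), (0, 0), (0, 0), (0,
    0), (0, 0), (0, 0), (0, 0), (0, 0), (0, 0), (0, -1), (0, -1), (0, 0), (0, 0), (0, 0), (0, 0), (0, 0), (0, -1),
    (0, 0), (0, 0), (0, 0), (0, 1), (0, 0), (0, 0), (0, 0), (0, 0), (0, 0), (0, 0), (0, 0), (-1, 1), (-1, 1), (-1,
    1), (-1, 1), (0, 1), (0, 0), (0, 0), (0, 0), (-1, 0), (-1, 0), (-1, 0), (-1, 1), (0, 0), (0, 0), (0, 0), (0, 0)]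

/-- glued arcs and equations -/
def tord8b_47 : TorT :=
  ⟨[(0, 2, true), (0, 5, true), (1, 1, true), (1, 5, true), (2, 5, false), (3, 6, false), (3, 7, true), (4, 4,
    false), (4, 6, true), (6, 7, true)],
    [([0, 0, 0, 0, 1, 0, 0, 2], 2), ([0, 0, 0, 0, 2, 0, 0, 1], 2), ([0, 0, 0, 1, 0, 0, 1, 0], 2), ([0, 0, 1, 0, 0, 2,
    0, 0], 2), ([0, 1, 0, 0, 0, 1, 1, 0], 2), ([0, 1, 1, 0, 0, 0, 0, 0], 2), ([1, 0, 0, 0, 0, 0, 1, 0], 2), ([2, 0,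
    0, 2, 0, 0, 0, 0], 2)]⟩

theorem tord8b_47_ok : tord8b_47.OK 8 := TT.leaf_ok (T := ttd8b_47) (by decide +kernel)

end Pool.Agent.Lib_MP_fa6e45
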