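import Pool.Agent.Lib_MP_fa6e45.CT5

/-!
MP_fa6e45_co, stage 9: straight-side patterns with `8` sides, tables of tori (generated by a program).
-/

namespace Pool.Agent.Lib_MP_fa6e45

/-- the torus -/
def ttd8b_48 : TT where
  k := 3
  rf := [false, false, true]
  tau := [9, 16, 17, 12, 23, 8, 15, 20, 5, 0, 21, 22, 3, 18, 19, 6, 1, 2, 13, 14, 7, 10, 11, 4]
  par := [0, 0, 1]
  stars := [[0, 21, 10], [1, 9, 5, 16], [2, 17], [3, 18, 13], [4, 12, 23], [6, 8], [7, 15, 20], [11, 22], [14, 19]]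
  word := [[], [], [], [0], [2], [2], [2], [2, 1], [3], [], [1, 2], [1, 2], [1], [1], [1], [3], [], [], [0], [0], [0,
    3], [3, 0], [3, 0], [3]]
  rank := [0, 0, 1, 0, 0, 1, 2, 4, 1, 0, 2, 1, 0, 2, 3, 2, 0, 1, 2, 3, 4, 2, 1, 0]
  just := [0, 0, 2, 0, 0, 1, 5, 6, 1, 0, 7, 4, 0, 3, 8, 5, 0, 2, 3, 8, 6, 7, 4, 0]
  gA := 3
  gB := 4
  fin := 0
  sid := [0, 1, 2, 3, 4, 1, 5, 6, 5, 1, 0, 7, 4, 3, 8, 6, 1, 2, 3, 8, 6, 0, 7, 4]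
  off := [(0, 0), (0, 0), (0, 0), (0, 0), (0, 0), (0, 1), (0, 0), (0, 0), (0, -1), (0, 0), (0, 0), (0, 0), (-1, 0),
    (-1, 0), (0, 0), (0, -1), (0, 0), (0, 0), (0, 0), (1, 0), (1, -1), (1, -1), (1, -1), (0, -1)]

/-- glued arcs and equations -/
def tord8b_48 : TorT :=
  ⟨[(0, 1, false), (0, 1, true), (0, 5, true), (1, 2, false), (2, 5, false), (3, 4, true), (3, 6, false), (4, 7,
    false), (6, 7, true)],
    [([0, 0, 0, 0, 1, 0, 0, 2], 2), ([0, 0, 0, 0, 2, 0, 0, 1], 2), ([0, 0, 0, 1, 0, 0, 1, 0], 2), ([0, 0, 1, 1, 0, 1,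
    0, 0], 2), ([0, 1, 1, 0, 0, 0, 0, 0], 2), ([1, 0, 0, 0, 0, 0, 1, 0], 2), ([1, 0, 1, 0, 0, 1, 0, 0], 2), ([1, 2,
    0, 0, 0, 1, 0, 0], 2)]⟩

theorem tord8b_48_ok : tord8b_48.OK 8 := TT.leaf_ok (T := ttd8b_48) (by decide +kernel)

/-- the torus -/
def ttd8b_49 : TT where
  k := 8
  rf := [false, true, false, false, true, true, false, true]
  tau := [5, 8, 9, 20, 15, 0, 30, 31, 1, 2, 21, 22, 35, 18, 19, 4, 33, 34, 13, 14, 3, 10, 11, 36, 29, 40, 41, 52, 47,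
    24, 6, 7, 37, 16, 17, 12, 23, 32, 62, 63, 25, 26, 53, 54, 59, 50, 51, 28, 57, 58, 45, 46, 27, 42, 43, 60, 61, 48,
    49, 44, 55, 56, 38, 39]
  par := [0, 1, 3, 6, 12, 25, 27, 38]
  stars := [[0, 31, 6], [1, 5, 8], [2, 9], [3, 10, 21], [4, 20, 15], [7, 30, 24], [11, 22], [12, 36, 23], [13, 18,
    35], [14, 19], [16, 37, 33], [17, 34], [25, 29, 40], [26, 41], [27, 42, 53], [28, 52, 47], [32, 38, 63], [39, 56,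
    62], [43, 54], [44, 60, 55], [45, 50, 59], [46, 51], [48, 61, 57], [49, 58]]
  word := [[3], [], [], [], [2], [2], [], [0, 3, 1], [], [], [], [], [], [3], [3], [3], [2], [2], [2], [2], [], [],
    [], [], [0, 2, 1], [], [], [], [0, 3, 1], [0, 3, 1], [], [0, 2, 1], [3], [3], [3], [], [], [2], [], [3], [], [],
    [], [], [0, 2], [0, 2, 1], [0, 2, 1], [0, 2, 1], [0], [0], [0, 3, 1], [0, 3, 1], [], [], [], [0, 2], [2], [1],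
    [1], [3, 1], [3, 1], [3], [], [2]]
  rank := [10, 0, 1, 0, 9, 10, 0, 9, 0, 1, 2, 3, 0, 7, 8, 9, 5, 6, 7, 8, 0, 2, 3, 4, 8, 0, 1, 0, 7, 8, 0, 9, 2, 5, 6,
    0, 4, 2, 0, 1, 0, 1, 2, 3, 4, 5, 6, 7, 0, 1, 5, 6, 0, 2, 3, 1, 0, 0, 1, 4, 1, 0, 0, 1]
  just := [1, 0, 2, 0, 4, 1, 0, 5, 0, 2, 3, 6, 0, 8, 9, 4, 10, 11, 8, 9, 0, 3, 6, 7, 12, 0, 13, 0, 15, 12, 0, 5, 16,
    10, 11, 0, 7, 16, 0, 17, 0, 13, 14, 18, 19, 20, 21, 15, 0, 23, 20, 21, 0, 14, 18, 22, 0, 0, 23, 19, 22, 0, 0, 17]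
  gA := 48
  gB := 56
  fin := 0
  sid := [0, 1, 2, 3, 4, 1, 0, 5, 1, 2, 3, 6, 7, 8, 9, 4, 10, 11, 8, 9, 4, 3, 6, 7, 5, 12, 13, 14, 15, 12, 5, 0, 16,
    10, 11, 8, 7, 10, 16, 17, 12, 13, 14, 18, 19, 20, 21, 15, 22, 23, 20, 21, 15, 14, 18, 19, 17, 22, 23, 20, 19, 22,
    17, 16]
  off := [(0, 0), (0, 0), (0, 0), (0, 0), (0, 0), (0, 1), (0, 1), (0, 0), (0, 0), (0, 0), (0, 0), (0, 0), (0, 0), (0,
    0), (0, 0), (0, -1), (0, 0), (0, 0), (0, 1), (0, 1), (0, 0), (0, 0), (0, 0), (0, 0), (0, 1), (0, 0), (0, 0), (0,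
    0), (0, 0), (0, -1), (0, 0), (0, 1), (0, 0), (0, -1), (0, -1), (0, 0), (0, 0), (0, 0), (0, 1), (0, 0), (0, 0),
    (0, 0), (0, 0), (0, 0), (0, 0), (0, 0), (0, 0), (0, 1), (0, 0), (0, 0), (0, -1), (0, -1), (0, 0), (0, 0), (0, 0),
    (0, 0), (0, 1), (-1, 0), (-1, 0), (-1, -1), (-1, -1), (-1, -1), (0, 0), (0, 1)]

/-- glued arcs and equations -/
def tord8b_49 : TorT :=
  ⟨[(0, 1, false), (0, 5, true), (1, 2, false), (2, 5, false), (3, 4, true), (3, 6, false), (4, 7, false), (6, 6,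
    true), (7, 7, true)],
    [([0, 0, 0, 0, 2, 0, 0, 1], 2), ([0, 0, 0, 1, 0, 0, 1, 0], 2), ([0, 0, 1, 1, 0, 1, 0, 0], 2), ([0, 1, 1, 0, 0, 0,
    0, 0], 2), ([1, 0, 0, 0, 0, 0, 1, 1], 2), ([1, 1, 0, 0, 0, 1, 0, 0], 2)]⟩

theorem tord8b_49_ok : tord8b_49.OK 8 := TT.leaf_ok (T := ttd8b_49) (by decide +kernel)

/-- the torus -/
def ttd8b_50 : TT where
  k := 8
  rf := [false, false, true, false, true, false, true, true]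
  tau := [13, 16, 17, 27, 28, 18, 19, 14, 33, 34, 37, 38, 23, 0, 7, 20, 1, 2, 5, 6, 15, 32, 39, 12, 45, 48, 49, 3, 4,
    50, 51, 46, 21, 8, 9, 59, 60, 10, 11, 22, 57, 58, 61, 62, 55, 24, 31, 52, 25, 26, 29, 30, 47, 56, 63, 44, 53, 40,
    41, 35, 36, 42, 43, 54]
  par := [0, 0, 1, 3, 8, 24, 25, 35]
  stars := [[0, 14], [1, 13, 16], [2, 17], [3, 18, 5, 28], [4, 27, 50, 29], [6, 19], [7, 20, 15], [8, 21, 33], [9,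
    34], [10, 35, 60, 37], [11, 38], [12, 39, 23], [22, 32], [24, 46], [25, 45, 48], [26, 49], [30, 51], [31, 52,
    47], [36, 61, 42, 59], [40, 53, 57], [41, 58], [43, 62], [44, 63, 55], [54, 56]]
  word := [[], [], [], [], [2, 1], [2, 1], [2, 1], [2, 1, 3, 0], [], [], [3, 0], [3, 0], [], [], [1, 2, 0, 3], [1,
    2], [], [], [0, 3], [0, 3], [3, 0], [3, 0], [3, 0], [], [], [], [], [], [0, 3], [0, 3], [0, 3], [], [1, 2], [],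
    [], [], [1, 2], [1, 2], [1, 2], [1, 2], [0], [0], [2], [2], [], [], [], [0, 3], [], [], [2, 1], [2, 1], [2, 1],
    [2], [2], [], [3], [1], [1], [], [3, 0], [3], [3], [3]]
  rank := [0, 0, 1, 0, 7, 8, 9, 10, 0, 1, 3, 4, 1, 0, 10, 7, 0, 1, 8, 9, 7, 6, 5, 1, 0, 0, 1, 0, 7, 6, 5, 1, 6, 0, 1,
    0, 2, 3, 4, 5, 1, 0, 1, 0, 1, 0, 1, 4, 0, 1, 6, 5, 4, 3, 2, 1, 3, 1, 0, 0, 2, 1, 0, 2]
  just := [0, 0, 2, 0, 4, 3, 5, 6, 0, 8, 9, 10, 1, 0, 6, 7, 0, 2, 3, 5, 7, 12, 11, 1, 0, 0, 15, 0, 4, 16, 17, 13, 12,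
    0, 8, 0, 18, 9, 10, 11, 20, 0, 21, 0, 14, 0, 13, 19, 0, 15, 16, 17, 19, 23, 22, 14, 23, 20, 0, 0, 18, 21, 0, 22]
  gA := 41
  gB := 43
  fin := 0
  sid := [0, 1, 2, 3, 4, 3, 5, 6, 7, 8, 9, 10, 11, 1, 0, 6, 1, 2, 3, 5, 6, 7, 12, 11, 13, 14, 15, 4, 3, 4, 16, 17,
    12, 7, 8, 9, 18, 9, 10, 11, 19, 20, 18, 21, 22, 14, 13, 17, 14, 15, 4, 16, 17, 19, 23, 22, 23, 19, 20, 18, 9, 18,
    21, 22]
  off := [(0, 0), (0, 0), (0, 0), (0, 0), (0, 0), (-1, 1), (0, 0), (0, 0), (0, 0), (0, 0), (0, 0), (0, 0), (0, 0),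
    (0, 0), (0, 0), (0, 0), (0, 0), (0, 0), (0, 0), (1, -1), (1, -1), (1, -1), (0, 0), (0, 0), (0, 0), (0, 0), (0,
    0), (0, 0), (0, 0), (1, -1), (0, 0), (0, 0), (-1, 1), (0, 0), (0, 0), (0, 0), (0, 0), (-1, 1), (-1, 1), (-1, 1),
    (0, 0), (0, 0), (1, 0), (0, 0), (0, 0), (0, 0), (0, 0), (0, 0), (0, 0), (0, 0), (0, 0), (-1, 1), (-1, 1), (-1,
    1), (0, 0), (0, 0), (0, -1), (-1, 0), (-1, 0), (0, 0), (0, 0), (1, -1), (0, -1), (0, -1)]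

/-- glued arcs and equations -/
def tord8b_50 : TorT :=
  ⟨[(0, 1, false), (0, 5, true), (1, 2, false), (2, 5, false), (3, 3, true), (3, 6, false), (4, 4, true), (4, 7,
    false), (6, 7, true)],
    [([0, 0, 0, 0, 1, 0, 0, 2], 2), ([0, 0, 0, 1, 0, 0, 1, 0], 2), ([0, 0, 1, 1, 1, 1, 0, 0], 2), ([0, 1, 1, 0, 0, 0,
    0, 0], 2), ([1, 0, 0, 0, 0, 0, 1, 0], 2), ([1, 1, 0, 0, 0, 1, 0, 0], 2)]⟩

theorem tord8b_50_ok : tord8b_50.OK 8 := TT.leaf_ok (T := ttd8b_50) (by decide +kernel)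

/-- the torus -/
def ttd8b_51 : TT where
  k := 8
  rf := [false, false, false, true, false, true, true, true]
  tau := [8, 16, 23, 28, 17, 15, 14, 13, 0, 32, 39, 44, 33, 7, 6, 5, 1, 4, 29, 30, 51, 26, 27, 2, 49, 52, 21, 22, 3,
    18, 19, 50, 9, 12, 45, 46, 59, 42, 43, 10, 57, 60, 37, 38, 11, 34, 35, 58, 56, 24, 31, 20, 25, 63, 62, 61, 48,
    40, 47, 36, 41, 55, 54, 53]
  par := [0, 0, 1, 3, 9, 11, 20, 36]
  stars := [[0, 13, 33, 9], [1, 8, 5, 17], [2, 16], [3, 23, 28], [4, 29, 18], [6, 15], [7, 14], [10, 32], [11, 39,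
    44], [12, 45, 34], [19, 30], [20, 31, 51], [21, 52, 26], [22, 27], [24, 50], [25, 53, 56, 49], [35, 46], [36, 47,
    59], [37, 60, 42], [38, 43], [40, 58], [41, 61, 48, 57], [54, 63], [55, 62]]
  word := [[], [], [], [], [0], [0], [0], [0], [], [], [], [], [3, 1, 2], [1], [1], [1], [], [1], [1], [1], [], [],
    [], [], [0], [], [], [], [], [0], [0], [0], [], [3, 0, 2], [3, 0, 2], [3, 0, 2], [], [], [], [], [3, 1, 2], [],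
    [], [], [], [3, 1, 2], [3, 1, 2], [3, 1, 2], [1, 2], [1], [1], [], [], [2], [2], [2], [3, 0], [3, 0, 2], [3, 0,
    2], [], [], [3], [3], [3]]
  rank := [0, 0, 1, 0, 4, 5, 6, 7, 0, 0, 1, 0, 10, 7, 6, 5, 0, 4, 3, 2, 0, 3, 2, 1, 0, 4, 3, 2, 0, 3, 2, 1, 0, 10, 9,
    8, 0, 3, 2, 1, 6, 4, 3, 2, 0, 9, 8, 7, 5, 0, 1, 0, 4, 1, 0, 1, 5, 6, 7, 0, 4, 1, 0, 1]
  just := [0, 0, 2, 0, 4, 1, 5, 6, 0, 0, 7, 0, 9, 6, 5, 1, 0, 4, 10, 11, 0, 13, 3, 2, 0, 12, 13, 3, 0, 10, 11, 14, 0,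
    9, 16, 17, 0, 19, 8, 7, 21, 18, 19, 8, 0, 16, 17, 20, 15, 0, 14, 0, 12, 22, 0, 23, 15, 21, 20, 0, 18, 23, 0, 22]
  gA := 24
  gB := 54
  fin := 0
  sid := [0, 1, 2, 3, 4, 1, 5, 6, 1, 0, 7, 8, 9, 0, 6, 5, 2, 1, 4, 10, 11, 12, 13, 3, 14, 15, 12, 13, 3, 4, 10, 11,
    7, 0, 9, 16, 17, 18, 19, 8, 20, 21, 18, 19, 8, 9, 16, 17, 21, 15, 14, 11, 12, 15, 22, 23, 15, 21, 20, 17, 18, 21,
    23, 22]
  off := [(0, 0), (0, 0), (0, 0), (0, 0), (0, 0), (1, 0), (0, 0), (0, 0), (0, 0), (0, 0), (0, 0), (0, 0), (0, 0),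
    (-1, 0), (-1, 0), (-1, 0), (0, 0), (0, 0), (-1, 0), (0, 0), (0, 0), (0, 0), (0, 0), (0, 0), (0, 0), (0, 0), (0,
    0), (0, 0), (0, 0), (0, 0), (1, 0), (1, 0), (0, 0), (0, 0), (1, 0), (0, 0), (0, 0), (0, 0), (0, 0), (0, 0), (0,
    0), (0, 0), (0, 0), (0, 0), (0, 0), (0, 0), (-1, 0), (-1, 0), (0, 1), (-1, 0), (-1, 0), (0, 0), (0, 0), (0, 0),
    (0, 0), (0, 0), (0, -1), (1, 0), (1, 0), (0, 0), (0, 0), (0, 0), (0, -1), (0, -1)]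

/-- glued arcs and equations -/
def tord8b_51 : TorT :=
  ⟨[(0, 0, true), (0, 1, true), (1, 4, true), (2, 5, false), (2, 7, true), (3, 4, false), (3, 6, false), (5, 7,
    true), (6, 6, true)],
    [([0, 0, 0, 0, 0, 0, 1, 1], 2), ([0, 0, 0, 1, 0, 0, 1, 0], 2), ([0, 0, 0, 1, 1, 0, 0, 1], 2), ([0, 0, 1, 0, 1, 1,
    0, 0], 2), ([1, 0, 1, 0, 0, 0, 0, 0], 2), ([1, 2, 0, 0, 0, 1, 0, 0], 2)]⟩

theorem tord8b_51_ok : tord8b_51.OK 8 := TT.leaf_ok (T := ttd8b_51) (by decide +kernel)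

/-- the torus -/
def ttd8b_52 : TT where
  k := 8
  rf := [false, true, false, false, true, true, false, true]
  tau := [9, 22, 21, 20, 28, 31, 30, 29, 19, 0, 23, 16, 35, 34, 33, 18, 11, 32, 15, 8, 3, 2, 1, 10, 41, 54, 53, 52,
    4, 7, 6, 5, 17, 14, 13, 12, 60, 63, 62, 61, 51, 24, 55, 48, 59, 58, 57, 50, 43, 56, 47, 40, 27, 26, 25, 42, 49,
    46, 45, 44, 36, 39, 38, 37]
  par := [0, 0, 1, 4, 12, 24, 25, 36]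
  stars := [[0, 29, 4, 20, 9], [1, 10, 23], [2, 22], [3, 21], [5, 28, 52, 41, 24], [6, 31], [7, 30], [8, 19], [11,
    16], [12, 36, 61, 32, 17], [13, 35], [14, 34], [15, 18, 33], [25, 42, 55], [26, 54], [27, 53], [37, 56, 49, 44,
    60], [38, 63], [39, 62], [40, 51], [43, 48], [45, 59], [46, 58], [47, 50, 57]]
  word := [[], [], [], [], [], [2, 0, 3], [2, 0, 3], [2, 0, 3], [0], [], [], [], [], [], [], [0], [], [1], [1], [1],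
    [], [], [], [], [], [], [], [], [], [2, 1, 3], [2, 1, 3], [2, 1, 3], [0], [], [], [], [], [0], [0], [0], [2, 1,
    3], [], [], [], [2], [2], [2], [2, 1, 3], [], [2, 0], [2, 0, 3], [2, 0, 3], [], [], [], [], [1, 3], [3], [3],
    [3], [], [1], [1], [1]]
  rank := [0, 0, 1, 2, 0, 6, 7, 8, 5, 0, 1, 2, 0, 1, 2, 4, 2, 3, 4, 5, 2, 1, 0, 1, 0, 0, 1, 2, 0, 8, 7, 6, 3, 2, 1,
    0, 0, 0, 1, 2, 5, 0, 1, 2, 0, 1, 2, 4, 2, 3, 4, 5, 2, 1, 0, 1, 3, 2, 1, 0, 0, 2, 1, 0]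
  just := [0, 0, 2, 3, 0, 4, 5, 6, 7, 0, 1, 8, 0, 10, 11, 12, 8, 9, 12, 7, 3, 2, 0, 1, 0, 0, 14, 15, 0, 6, 5, 4, 9,
    11, 10, 0, 0, 0, 17, 18, 19, 0, 13, 20, 0, 21, 22, 23, 20, 16, 23, 19, 15, 14, 0, 13, 16, 22, 21, 0, 0, 18, 17, 0]
  gA := 37
  gB := 44
  fin := 0
  sid := [0, 1, 2, 3, 0, 4, 5, 6, 7, 0, 1, 8, 9, 10, 11, 12, 8, 9, 12, 7, 0, 3, 2, 1, 4, 13, 14, 15, 4, 0, 6, 5, 9,
    12, 11, 10, 9, 16, 17, 18, 19, 4, 13, 20, 16, 21, 22, 23, 20, 16, 23, 19, 4, 15, 14, 13, 16, 23, 22, 21, 16, 9,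
    18, 17]
  off := [(0, 0), (0, 0), (0, 0), (0, 0), (-1, 0), (0, 0), (0, 0), (0, 0), (0, 0), (0, 0), (0, 0), (0, 0), (0, 0),
    (0, 0), (0, 0), (0, 0), (0, 0), (0, 0), (-1, 0), (-1, 0), (-1, 0), (0, 0), (0, 0), (0, 0), (-1, 0), (0, 0), (0,
    0), (0, 0), (0, 0), (-1, 0), (-1, 0), (-1, 0), (1, 0), (0, 0), (0, 0), (0, 0), (0, 0), (0, 0), (0, 0), (0, 0),
    (0, 0), (-1, 0), (0, 0), (0, 0), (0, 1), (0, 0), (0, 0), (0, 0), (0, 0), (0, 1), (1, 0), (1, 0), (0, 0), (0, 0),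
    (0, 0), (0, 0), (-1, 0), (0, -1), (0, -1), (0, -1), (0, 0), (0, 0), (-1, 0), (-1, 0)]

/-- glued arcs and equations -/
def tord8b_52 : TorT :=
  ⟨[(0, 1, false), (0, 3, false), (1, 6, true), (2, 5, true), (2, 7, false), (3, 4, true), (4, 4, true), (5, 7,
    true), (6, 6, true)],
    [([0, 0, 0, 0, 0, 0, 1, 1], 2), ([0, 0, 0, 1, 0, 1, 0, 0], 2), ([0, 0, 1, 0, 0, 0, 1, 0], 2), ([0, 1, 1, 0, 0, 0,
    0, 1], 2), ([1, 0, 0, 1, 0, 0, 0, 0], 2), ([1, 1, 0, 0, 2, 1, 0, 0], 2)]⟩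

theorem tord8b_52_ok : tord8b_52.OK 8 := TT.leaf_ok (T := ttd8b_52) (by decide +kernel)

/-- the torus -/
def ttd8b_53 : TT where
  k := 8
  rf := [false, false, false, true, false, true, true, true]
  tau := [8, 22, 21, 20, 25, 15, 14, 13, 0, 38, 37, 36, 41, 7, 6, 5, 27, 52, 31, 24, 3, 2, 1, 26, 19, 4, 23, 16, 51,
    50, 49, 18, 43, 60, 47, 40, 11, 10, 9, 42, 35, 12, 39, 32, 59, 58, 57, 34, 56, 30, 29, 28, 17, 63, 62, 61, 48,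
    46, 45, 44, 33, 55, 54, 53]
  par := [0, 0, 1, 4, 9, 12, 17, 33]
  stars := [[0, 13, 42, 39, 9], [1, 8, 5, 26, 23], [2, 22], [3, 21], [4, 20, 25], [6, 15], [7, 14], [10, 38], [11,
    37], [12, 36, 41], [16, 27], [17, 28, 52], [18, 53, 56, 49, 31], [19, 24], [29, 51], [30, 50], [32, 43], [33, 44,
    60], [34, 61, 48, 57, 47], [35, 40], [45, 59], [46, 58], [54, 63], [55, 62]]
  word := [[], [], [], [], [], [0], [0], [0], [], [], [], [], [], [1], [1], [1], [1], [], [], [], [], [], [], [1],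
    [], [], [0], [0], [0], [0], [0], [], [3, 0, 2], [], [], [], [], [], [], [3, 0, 2], [], [], [3, 1, 2], [3, 1, 2],
    [3, 1, 2], [3, 1, 2], [3, 1, 2], [], [1, 2], [1], [1], [1], [], [2], [2], [2], [3, 0], [3, 0, 2], [3, 0, 2], [3,
    0, 2], [], [3], [3], [3]]
  rank := [0, 0, 1, 2, 0, 5, 6, 7, 0, 0, 1, 2, 0, 7, 6, 5, 3, 0, 4, 3, 2, 1, 0, 4, 3, 0, 4, 3, 2, 1, 0, 4, 9, 0, 4,
    3, 2, 1, 0, 10, 3, 0, 10, 9, 8, 7, 6, 4, 5, 0, 1, 2, 0, 1, 0, 1, 5, 6, 7, 8, 0, 1, 0, 1]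
  just := [0, 0, 2, 3, 0, 1, 5, 6, 0, 0, 7, 8, 0, 6, 5, 1, 11, 0, 13, 4, 3, 2, 0, 10, 4, 0, 10, 11, 14, 15, 0, 13,
    17, 0, 19, 9, 8, 7, 0, 16, 9, 0, 16, 17, 20, 21, 18, 19, 12, 0, 15, 14, 0, 22, 0, 23, 12, 18, 21, 20, 0, 23, 0,
    22]
  gA := 30
  gB := 54
  fin := 0
  sid := [0, 1, 2, 3, 4, 1, 5, 6, 1, 0, 7, 8, 9, 0, 6, 5, 10, 11, 12, 13, 4, 3, 2, 1, 13, 4, 1, 10, 11, 14, 15, 12,
    16, 17, 18, 19, 9, 8, 7, 0, 19, 9, 0, 16, 17, 20, 21, 18, 18, 12, 15, 14, 11, 12, 22, 23, 12, 18, 21, 20, 17, 18,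
    23, 22]
  off := [(0, 0), (0, 0), (0, 0), (0, 0), (0, 0), (1, 0), (0, 0), (0, 0), (0, 0), (0, 0), (0, 0), (0, 0), (0, 0),
    (-1, 0), (-1, 0), (-1, 0), (0, 0), (0, 0), (0, 0), (0, 0), (0, 0), (0, 0), (0, 0), (0, 0), (0, 0), (0, 0), (1,
    0), (1, 0), (1, 0), (0, 0), (0, 0), (0, 0), (0, 0), (0, 0), (0, 0), (0, 0), (0, 0), (0, 0), (0, 0), (0, 0), (0,
    0), (0, 0), (-1, 0), (-1, 0), (-1, 0), (0, 0), (0, 0), (0, 0), (0, 1), (-1, 0), (-1, 0), (-1, 0), (0, 0), (0, 0),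
    (0, 0), (0, 0), (0, -1), (1, 0), (1, 0), (1, 0), (0, 0), (0, 0), (0, -1), (0, -1)]

/-- glued arcs and equations -/
def tord8b_53 : TorT :=
  ⟨[(0, 0, true), (0, 3, false), (1, 4, false), (1, 6, true), (2, 5, true), (2, 7, false), (3, 4, true), (5, 7,
    true), (6, 6, true)],
    [([0, 0, 0, 0, 0, 0, 1, 1], 2), ([0, 0, 0, 1, 0, 1, 0, 0], 2), ([0, 0, 1, 0, 0, 0, 1, 0], 2), ([0, 1, 0, 0, 2, 0,
    0, 0], 2), ([1, 0, 0, 1, 0, 0, 0, 0], 2), ([1, 1, 1, 0, 0, 1, 0, 1], 2)]⟩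

theorem tord8b_53_ok : tord8b_53.OK 8 := TT.leaf_ok (T := ttd8b_53) (by decide +kernel)

end Pool.Agent.Lib_MP_fa6e45
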