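import Pool.Agent.Lib_MP_fa6e45.CT5

/-!
MP_fa6e45_co, stage 9: straight-side patterns with `8` sides, tables of tori (generated by a program).
-/

namespace Pool.Agent.Lib_MP_fa6e45

/-- the torus -/
def ttd8b_54 : TT where
  k := 8
  rf := [false, false, false, false, true, true, true, true]
  tau := [14, 17, 29, 28, 33, 23, 22, 21, 43, 52, 47, 40, 19, 18, 0, 42, 30, 1, 13, 12, 41, 7, 6, 5, 35, 60, 39, 32,
    3, 2, 16, 34, 27, 4, 31, 24, 59, 58, 48, 26, 11, 20, 15, 8, 51, 50, 56, 10, 38, 57, 45, 44, 9, 63, 62, 61, 46,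
    49, 37, 36, 25, 55, 54, 53]
  par := [0, 0, 1, 2, 4, 8, 9, 25]
  stars := [[0, 21, 42, 15], [1, 14, 18], [2, 17, 30], [3, 29], [4, 28, 33], [5, 34, 31, 16], [6, 23], [7, 22], [8,
    43], [9, 44, 52], [10, 53, 56, 47], [11, 40], [12, 41, 20], [13, 19], [24, 35], [25, 36, 60], [26, 61, 48, 39],
    [27, 32], [37, 59], [38, 49, 58], [45, 51], [46, 57, 50], [54, 63], [55, 62]]
  word := [[], [], [], [], [], [0], [0], [0], [], [], [2, 1, 3], [2, 1, 3], [], [], [], [], [], [], [], [], [2, 1,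
    3], [1], [1], [1], [1], [], [], [], [], [], [], [1], [], [], [0], [0], [0], [0], [3], [], [2, 0, 3], [2, 0, 3],
    [], [], [], [], [2, 0], [2, 0, 3], [2], [2, 0], [], [], [], [2], [2], [2], [1, 3], [1, 3], [1], [1], [], [3],
    [3], [3]]
  rank := [0, 0, 0, 1, 0, 4, 5, 6, 0, 0, 7, 8, 2, 1, 0, 1, 1, 0, 1, 2, 9, 6, 5, 4, 2, 0, 3, 2, 1, 0, 1, 3, 2, 0, 3,
    2, 1, 0, 4, 3, 8, 9, 1, 0, 1, 2, 6, 7, 4, 5, 2, 1, 0, 2, 1, 0, 6, 5, 0, 1, 0, 0, 1, 2]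
  just := [0, 0, 0, 3, 0, 5, 6, 7, 0, 0, 10, 11, 13, 1, 0, 8, 2, 0, 1, 13, 12, 7, 6, 5, 15, 0, 17, 4, 3, 0, 2, 14, 4,
    0, 14, 15, 18, 0, 16, 17, 11, 12, 8, 0, 9, 20, 21, 10, 16, 19, 20, 9, 0, 22, 23, 0, 21, 19, 0, 18, 0, 0, 23, 22]
  gA := 37
  gB := 55
  fin := 0
  sid := [0, 1, 2, 3, 4, 5, 6, 7, 8, 9, 10, 11, 12, 13, 1, 0, 5, 2, 1, 13, 12, 0, 7, 6, 14, 15, 16, 17, 4, 3, 2, 5,
    17, 4, 5, 14, 15, 18, 19, 16, 11, 12, 0, 8, 9, 20, 21, 10, 16, 19, 21, 20, 9, 10, 22, 23, 10, 21, 19, 18, 15, 16,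
    23, 22]
  off := [(0, 0), (0, 0), (0, 0), (0, 0), (0, 0), (0, 0), (0, 0), (0, 0), (0, 0), (0, 0), (0, 0), (0, 0), (0, 0), (0,
    0), (0, 0), (0, 0), (-1, 0), (0, 0), (0, 0), (0, 0), (0, 0), (-1, 0), (-1, 0), (-1, 0), (0, 0), (0, 0), (0, 0),
    (0, 0), (0, 0), (0, 0), (0, 0), (-1, 0), (0, 0), (0, 0), (0, 0), (1, 0), (1, 0), (0, 0), (0, 0), (0, 0), (1, 0),
    (1, 0), (0, 0), (0, 0), (0, 0), (0, 0), (0, 0), (1, 0), (0, 1), (0, 1), (0, 0), (0, 0), (0, 0), (0, 0), (0, 0),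
    (0, 0), (0, -1), (-1, -1), (-1, 0), (-1, 0), (0, 0), (0, 0), (0, -1), (0, -1)]

/-- glued arcs and equations -/
def tord8b_54 : TorT :=
  ⟨[(0, 3, false), (0, 6, true), (1, 1, true), (1, 4, false), (2, 5, true), (2, 7, false), (3, 4, true), (5, 7,
    true), (6, 6, true)],
    [([0, 0, 0, 0, 0, 0, 1, 1], 2), ([0, 0, 0, 1, 0, 1, 0, 0], 2), ([0, 1, 0, 0, 2, 0, 0, 0], 2), ([0, 1, 1, 0, 0, 0,
    1, 0], 2), ([1, 0, 0, 1, 0, 0, 0, 0], 2), ([1, 0, 1, 0, 0, 1, 0, 1], 2)]⟩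

theorem tord8b_54_ok : tord8b_54.OK 8 := TT.leaf_ok (T := ttd8b_54) (by decide +kernel)

/-- the torus -/
def ttd8b_55 : TT where
  k := 2
  rf := [false, false]
  tau := [6, 14, 13, 12, 8, 15, 0, 10, 4, 11, 7, 9, 3, 2, 1, 5]
  par := [0, 1]
  stars := [[0, 10, 11, 7], [1, 6, 15], [2, 14], [3, 13], [4, 12, 9], [5, 8]]
  word := [[1], [], [], [], [0], [0], [0], [2], [1], [1], [3], [0], [], [], [], [1]]
  rank := [2, 0, 1, 2, 0, 1, 2, 0, 0, 3, 0, 3, 2, 1, 0, 1]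
  just := [1, 0, 2, 3, 0, 5, 1, 0, 0, 4, 0, 4, 3, 2, 0, 5]
  gA := 4
  gB := 7
  fin := 0
  sid := [0, 1, 2, 3, 4, 5, 1, 0, 5, 4, 0, 0, 4, 3, 2, 1]
  off := [(0, 0), (0, 0), (0, 0), (0, 0), (0, 0), (0, 0), (1, 0), (1, 0), (-1, 0), (-1, 0), (0, -1), (1, -1), (0, 0),
    (0, 0), (0, 0), (0, 0)]

/-- glued arcs and equations -/
def tord8b_55 : TorT :=
  ⟨[(0, 4, true), (0, 6, true), (1, 3, true), (1, 6, true), (2, 5, true), (2, 7, true), (3, 4, true), (5, 7, true)],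
    [([0, 0, 0, 1, 0, 1, 0, 0], 2), ([0, 0, 1, 0, 0, 0, 1, 0], 2), ([0, 1, 0, 0, 0, 0, 1, 1], 2), ([0, 1, 0, 0, 2, 0,
    0, 0], 2), ([1, 0, 0, 0, 0, 1, 0, 0], 2), ([1, 0, 1, 1, 0, 0, 0, 1], 2)]⟩

theorem tord8b_55_ok : tord8b_55.OK 8 := TT.leaf_ok (T := ttd8b_55) (by decide +kernel)

/-- the torus -/
def ttd8b_56 : TT where
  k := 12
  rf := [false, false, false, false, false, false, true, true, true, true, true, true]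
  tau := [8, 16, 23, 24, 19, 18, 17, 15, 0, 32, 39, 40, 35, 34, 33, 7, 1, 6, 5, 4, 27, 26, 25, 2, 3, 22, 21, 20, 54,
    55, 52, 53, 9, 14, 13, 12, 43, 42, 41, 10, 11, 38, 37, 36, 62, 63, 60, 61, 67, 78, 77, 76, 30, 31, 28, 29, 83,
    94, 93, 92, 46, 47, 44, 45, 80, 72, 79, 48, 75, 74, 73, 87, 65, 70, 69, 68, 51, 50, 49, 66, 64, 88, 95, 56, 91,
    90, 89, 71, 81, 86, 85, 84, 59, 58, 57, 82]
  par := [0, 0, 1, 3, 9, 11, 28, 44, 48, 49, 56, 57]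
  stars := [[0, 15, 33, 9], [1, 8, 7, 17], [2, 16], [3, 23, 25], [4, 24, 54, 28, 20], [5, 19], [6, 18], [10, 32],
    [11, 39, 41], [12, 40, 62, 44, 36], [13, 35], [14, 34], [21, 27], [22, 26], [29, 55], [30, 48, 68, 76, 52], [31,
    53], [37, 43], [38, 42], [45, 63], [46, 56, 84, 92, 60], [47, 61], [49, 79, 67], [50, 78], [51, 77], [57, 95,
    83], [58, 94], [59, 93], [64, 81, 89, 87], [65, 73, 71, 80], [66, 72], [69, 75], [70, 74], [82, 88], [85, 91],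
    [86, 90]]
  word := [[], [], [], [], [2, 1], [2, 1], [2, 1], [2, 1], [], [], [], [], [3, 0], [3, 0], [3, 0], [0, 3], [], [0,
    3], [0, 3], [0, 3], [], [], [], [], [], [], [], [], [], [], [2, 1], [2, 1], [], [1, 2], [1, 2], [1, 2], [], [],
    [], [], [], [], [], [], [], [], [3, 0], [3, 0], [], [], [], [], [0, 3], [0, 3], [], [], [], [], [], [], [1, 2],
    [1, 2], [], [], [0], [], [], [], [2, 1], [2, 1], [2, 1], [2], [], [0, 3], [0, 3], [0, 3], [], [], [], [], [1],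
    [], [], [], [3, 0], [3, 0], [3, 0], [3], [], [1, 2], [1, 2], [1, 2], [], [], [], []]
  rank := [0, 0, 1, 0, 8, 9, 10, 11, 0, 0, 1, 0, 8, 9, 10, 11, 0, 10, 9, 8, 4, 3, 2, 1, 0, 2, 3, 4, 0, 1, 6, 7, 0,
    10, 9, 8, 4, 3, 2, 1, 0, 2, 3, 4, 0, 1, 6, 7, 0, 0, 1, 2, 6, 7, 0, 1, 0, 0, 1, 2, 6, 7, 0, 1, 0, 2, 1, 0, 5, 4,
    3, 0, 2, 3, 4, 5, 2, 1, 0, 1, 0, 2, 1, 0, 5, 4, 3, 0, 2, 3, 4, 5, 2, 1, 0, 1]
  just := [0, 0, 2, 0, 4, 5, 6, 1, 0, 0, 7, 0, 9, 10, 11, 1, 0, 6, 5, 4, 12, 13, 3, 2, 0, 3, 13, 12, 0, 14, 15, 16,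
    0, 11, 10, 9, 17, 18, 8, 7, 0, 8, 18, 17, 0, 19, 20, 21, 0, 0, 23, 24, 15, 16, 0, 14, 0, 0, 26, 27, 20, 21, 0,
    19, 0, 30, 22, 0, 31, 32, 29, 0, 30, 29, 32, 31, 24, 23, 0, 22, 0, 33, 25, 0, 34, 35, 28, 0, 33, 28, 35, 34, 27,
    26, 0, 25]
  gA := 64
  gB := 71
  fin := 0
  sid := [0, 1, 2, 3, 4, 5, 6, 1, 1, 0, 7, 8, 9, 10, 11, 0, 2, 1, 6, 5, 4, 12, 13, 3, 4, 3, 13, 12, 4, 14, 15, 16, 7,
    0, 11, 10, 9, 17, 18, 8, 9, 8, 18, 17, 9, 19, 20, 21, 15, 22, 23, 24, 15, 16, 4, 14, 20, 25, 26, 27, 20, 21, 9,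
    19, 28, 29, 30, 22, 15, 31, 32, 29, 30, 29, 32, 31, 15, 24, 23, 22, 29, 28, 33, 25, 20, 34, 35, 28, 33, 28, 35,
    34, 20, 27, 26, 25]
  off := [(0, 0), (0, 0), (0, 0), (0, 0), (0, 0), (0, 0), (0, 0), (-1, 1), (0, 0), (0, 0), (0, 0), (0, 0), (0, 0),
    (0, 0), (0, 0), (1, -1), (0, 0), (0, 0), (1, -1), (1, -1), (1, -1), (0, 0), (0, 0), (0, 0), (0, 0), (0, 0), (0,
    0), (0, 0), (1, -1), (0, 0), (0, 0), (0, 0), (0, 0), (0, 0), (-1, 1), (-1, 1), (-1, 1), (0, 0), (0, 0), (0, 0),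
    (0, 0), (0, 0), (0, 0), (0, 0), (-1, 1), (0, 0), (0, 0), (0, 0), (0, 0), (0, 0), (0, 0), (0, 0), (1, -1), (1,
    -1), (1, -1), (0, 0), (0, 0), (0, 0), (0, 0), (0, 0), (-1, 1), (-1, 1), (-1, 1), (0, 0), (0, 0), (0, 0), (0, 0),
    (0, 0), (0, 0), (0, 0), (0, 0), (-1, 1), (0, 0), (0, 0), (1, -1), (1, -1), (1, -1), (0, 0), (0, 0), (0, 0), (-1,
    0), (-1, 0), (0, 0), (0, 0), (0, 0), (0, 0), (0, 0), (0, -1), (0, 0), (-1, 0), (-1, 1), (-1, 1), (-1, 1), (0, 0),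
    (0, 0), (0, 0)]

/-- glued arcs and equations -/
def tord8b_56 : TorT :=
  ⟨[(0, 0, true), (0, 1, true), (0, 3, true), (1, 6, true), (2, 5, true), (2, 7, true), (3, 4, true), (4, 6, false),
    (5, 7, false), (7, 7, true)],
    [([0, 0, 0, 0, 0, 1, 0, 1], 2), ([0, 0, 0, 1, 0, 1, 0, 0], 2), ([0, 0, 1, 0, 0, 0, 1, 0], 2), ([0, 1, 0, 1, 0, 0,
    0, 1], 2), ([1, 0, 0, 0, 3, 0, 1, 0], 2), ([1, 0, 1, 0, 0, 0, 0, 0], 2), ([1, 2, 0, 0, 0, 0, 0, 1], 2)]⟩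

theorem tord8b_56_ok : tord8b_56.OK 8 := TT.leaf_ok (T := ttd8b_56) (by decide +kernel)

/-- the torus -/
def ttd8b_57 : TT where
  k := 8
  rf := [false, false, false, false, true, true, true, true]
  tau := [8, 9, 7, 16, 19, 18, 17, 2, 0, 1, 15, 24, 27, 26, 25, 10, 3, 6, 5, 4, 38, 39, 36, 37, 11, 14, 13, 12, 46,
    47, 44, 45, 51, 54, 53, 52, 22, 23, 20, 21, 59, 62, 61, 60, 30, 31, 28, 29, 56, 57, 55, 32, 35, 34, 33, 50, 48,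
    49, 63, 40, 43, 42, 41, 58]
  par := [0, 0, 3, 11, 20, 28, 32, 40]
  stars := [[0, 2, 9], [1, 8, 10], [3, 7, 17], [4, 16, 38, 20], [5, 19], [6, 18], [11, 15, 25], [12, 24, 46, 28],
    [13, 27], [14, 26], [21, 39], [22, 32, 52, 36], [23, 37], [29, 47], [30, 40, 60, 44], [31, 45], [33, 55, 51],
    [34, 54], [35, 53], [41, 63, 59], [42, 62], [43, 61], [48, 57, 50], [49, 58, 56]]
  word := [[], [1, 2], [2, 1], [], [0, 3], [0, 3], [0, 3], [0, 3], [], [3, 0], [3, 0], [], [1, 2], [1, 2], [1, 2],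
    [1, 2], [], [2, 1], [2, 1], [2, 1], [], [], [0, 3], [0, 3], [], [3, 0], [3, 0], [3, 0], [], [], [1, 2], [1, 2],
    [], [2, 1], [2, 1], [2, 1], [2, 1], [2, 1], [], [], [], [3, 0], [3, 0], [3, 0], [3, 0], [3, 0], [], [], [0], [2],
    [2, 1], [], [0, 3], [0, 3], [0, 3], [0, 3], [1], [3], [3, 0], [], [1, 2], [1, 2], [1, 2], [1, 2]]
  rank := [0, 11, 10, 0, 7, 8, 9, 10, 0, 11, 10, 0, 7, 8, 9, 10, 0, 9, 8, 7, 0, 1, 5, 6, 0, 9, 8, 7, 0, 1, 5, 6, 0,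
    2, 3, 4, 5, 6, 0, 1, 0, 2, 3, 4, 5, 6, 0, 1, 0, 0, 1, 0, 4, 3, 2, 1, 0, 0, 1, 0, 4, 3, 2, 1]
  just := [0, 1, 2, 0, 3, 4, 5, 2, 0, 1, 6, 0, 7, 8, 9, 6, 0, 5, 4, 3, 0, 10, 11, 12, 0, 9, 8, 7, 0, 13, 14, 15, 0,
    16, 17, 18, 11, 12, 0, 10, 0, 19, 20, 21, 14, 15, 0, 13, 0, 0, 22, 0, 18, 17, 16, 22, 0, 0, 23, 0, 21, 20, 19, 23]
  gA := 48
  gB := 49
  fin := 0
  sid := [0, 1, 0, 2, 3, 4, 5, 2, 1, 0, 1, 6, 7, 8, 9, 6, 3, 2, 5, 4, 3, 10, 11, 12, 7, 6, 9, 8, 7, 13, 14, 15, 11,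
    16, 17, 18, 11, 12, 3, 10, 14, 19, 20, 21, 14, 15, 7, 13, 22, 23, 22, 16, 11, 18, 17, 16, 23, 22, 23, 19, 14, 21,
    20, 19]
  off := [(0, 0), (0, 0), (-1, 1), (0, 0), (0, 0), (0, 0), (0, 0), (1, -1), (0, 0), (0, 0), (1, -1), (0, 0), (0, 0),
    (0, 0), (0, 0), (-1, 1), (0, 0), (0, 0), (-1, 1), (-1, 1), (-1, 1), (0, 0), (0, 0), (0, 0), (0, 0), (0, 0), (1,
    -1), (1, -1), (1, -1), (0, 0), (0, 0), (0, 0), (0, 0), (0, 0), (0, 0), (0, 0), (-1, 1), (-1, 1), (-1, 1), (0, 0),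
    (0, 0), (0, 0), (0, 0), (0, 0), (1, -1), (1, -1), (1, -1), (0, 0), (0, 0), (0, 0), (-1, 1), (0, 0), (0, 0), (1,
    -1), (1, -1), (1, -1), (-1, 0), (-1, 0), (0, -1), (0, 0), (0, 0), (-1, 1), (-1, 1), (-1, 1)]

/-- glued arcs and equations -/
def tord8b_57 : TorT :=
  ⟨[(0, 0, true), (0, 3, true), (1, 1, true), (1, 6, true), (2, 5, true), (2, 7, true), (3, 4, true), (4, 6, false),
    (5, 7, false)],
    [([0, 0, 0, 0, 0, 1, 0, 1], 2), ([0, 0, 0, 1, 0, 1, 0, 0], 2), ([0, 0, 1, 0, 0, 0, 1, 0], 2), ([0, 1, 0, 1, 0, 0,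
    0, 1], 2), ([1, 0, 0, 0, 2, 0, 1, 0], 2), ([1, 1, 1, 0, 0, 0, 0, 0], 2)]⟩

theorem tord8b_57_ok : tord8b_57.OK 8 := TT.leaf_ok (T := ttd8b_57) (by decide +kernel)

/-- the torus -/
def ttd8b_58 : TT where
  k := 4
  rf := [false, true, false, true]
  tau := [9, 12, 13, 19, 30, 31, 24, 23, 22, 0, 26, 27, 1, 2, 20, 21, 25, 28, 29, 3, 14, 15, 8, 7, 6, 16, 10, 11, 17,
    18, 4, 5]
  par := [0, 0, 3, 4]
  stars := [[0, 23, 9], [1, 10, 27, 12], [2, 13], [3, 14, 20], [4, 19, 30], [5, 31], [6, 24], [7, 25, 16], [8, 22],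
    [11, 28, 17, 26], [15, 21], [18, 29]]
  word := [[], [0], [0], [], [], [], [], [3, 1, 2], [1], [], [0, 2], [2], [1], [1], [1], [1], [3, 0, 2], [], [], [],
    [0], [0], [0], [3, 0, 2], [], [3, 1, 2], [3, 1], [3], [], [], [], []]
  rank := [0, 1, 0, 0, 0, 1, 2, 4, 3, 0, 2, 0, 1, 0, 1, 2, 3, 2, 1, 0, 1, 2, 3, 4, 2, 3, 2, 0, 2, 1, 0, 1]
  just := [0, 2, 0, 0, 0, 5, 6, 7, 8, 0, 1, 0, 2, 0, 3, 10, 9, 11, 4, 0, 3, 10, 8, 7, 6, 9, 1, 0, 11, 4, 0, 5]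
  gA := 2
  gB := 11
  fin := 0
  sid := [0, 1, 2, 3, 4, 5, 6, 7, 8, 0, 1, 9, 1, 2, 3, 10, 7, 9, 11, 4, 3, 10, 8, 0, 6, 7, 9, 1, 9, 11, 4, 5]
  off := [(0, 0), (0, 0), (0, 0), (0, 0), (0, 0), (0, 0), (0, 0), (0, 0), (0, 0), (0, 0), (0, 0), (0, 0), (-1, 0),
    (-1, 0), (-1, 0), (0, 0), (1, 0), (0, -1), (0, 0), (0, 0), (0, 0), (1, 0), (1, 0), (1, 0), (0, 0), (0, 0), (-1,
    -1), (-1, -1), (0, -1), (0, 0), (0, 0), (0, 0)]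

/-- glued arcs and equations -/
def tord8b_58 : TorT :=
  ⟨[(0, 1, false), (0, 6, false), (1, 4, false), (2, 2, true), (2, 5, false), (3, 3, true), (4, 6, false), (5, 7,
    false), (7, 7, true)],
    [([0, 0, 0, 0, 0, 1, 0, 1], 2), ([0, 0, 0, 1, 1, 0, 1, 0], 2), ([0, 0, 1, 0, 0, 1, 0, 0], 2), ([0, 1, 1, 1, 1, 0,
    0, 0], 2), ([1, 0, 0, 0, 0, 0, 1, 0], 2), ([1, 1, 0, 0, 0, 0, 0, 1], 2)]⟩

theorem tord8b_58_ok : tord8b_58.OK 8 := TT.leaf_ok (T := ttd8b_58) (by decide +kernel)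

/-- the torus -/
def ttd8b_59 : TT where
  k := 12
  rf := [false, false, true, false, false, true, true, false, false, true, false, false]
  tau := [8, 19, 29, 28, 35, 34, 41, 50, 0, 51, 61, 60, 67, 66, 73, 18, 57, 86, 15, 1, 30, 31, 24, 55, 22, 48, 93,
    92, 3, 2, 20, 21, 78, 40, 5, 4, 91, 90, 76, 77, 33, 6, 95, 81, 70, 71, 64, 79, 25, 94, 7, 9, 62, 63, 56, 23, 54,
    16, 85, 84, 11, 10, 52, 53, 46, 72, 13, 12, 83, 82, 44, 45, 65, 14, 87, 89, 38, 39, 32, 47, 88, 43, 69, 68, 59,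
    58, 17, 74, 80, 75, 37, 36, 27, 26, 49, 42]
  par := [0, 0, 1, 2, 4, 6, 7, 10, 12, 14, 17, 26]
  stars := [[0, 51, 9], [1, 8, 19], [2, 20, 30], [3, 29], [4, 28, 92, 36], [5, 35], [6, 34, 41], [7, 42, 95, 50],
    [10, 52, 62], [11, 61], [12, 60, 84, 68], [13, 67], [14, 66, 73], [15, 74, 87, 18], [16, 57, 55], [17, 86, 58],
    [21, 31], [22, 24], [23, 48, 25], [26, 49, 94], [27, 93], [32, 78], [33, 79, 40], [37, 91], [38, 90, 76], [39,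
    77], [43, 81, 88], [44, 70, 82], [45, 71], [46, 64], [47, 72, 65], [53, 63], [54, 56], [59, 85], [69, 83], [75,
    89, 80]]
  word := [[], [], [], [], [], [], [], [], [], [1, 2, 0, 3], [], [], [], [], [], [], [3, 0], [], [], [], [], [], [],
    [0, 3], [], [0, 3], [], [], [], [], [], [], [0], [], [], [], [], [], [0], [0], [], [], [2, 1], [2], [0], [0],
    [0], [0], [2, 1], [2, 1], [], [2, 1, 3, 0], [2, 1, 3, 0], [2, 1, 3, 0], [2, 1, 3, 0], [2, 1], [1, 2, 0, 3], [1,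
    2], [1, 2], [1, 2], [], [], [1, 2, 0, 3], [1, 2, 0, 3], [1], [], [], [], [1, 2], [1, 2], [1], [1], [], [], [],
    [1], [1], [1], [1], [1], [1], [3], [3, 0], [3, 0], [3, 0], [3, 0], [], [], [0], [0], [], [], [], [], [0, 3], [0,
    3]]
  rank := [0, 0, 0, 1, 0, 1, 0, 0, 0, 15, 0, 1, 0, 1, 0, 1, 11, 0, 1, 0, 1, 2, 3, 9, 3, 8, 0, 1, 1, 0, 1, 2, 0, 2, 1,
    0, 2, 3, 2, 1, 2, 0, 6, 0, 6, 5, 4, 3, 8, 7, 0, 15, 14, 13, 12, 9, 12, 11, 10, 9, 1, 0, 14, 13, 4, 2, 1, 0, 8, 7,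
    6, 5, 2, 0, 2, 4, 2, 1, 0, 3, 5, 0, 7, 8, 9, 10, 0, 2, 5, 4, 3, 2, 1, 0, 7, 6]
  just := [0, 0, 0, 3, 0, 5, 0, 0, 0, 8, 0, 9, 0, 11, 0, 1, 15, 0, 1, 0, 2, 16, 17, 18, 17, 19, 0, 20, 3, 0, 2, 16,
    0, 6, 5, 0, 4, 23, 25, 21, 6, 0, 26, 0, 28, 29, 30, 22, 19, 7, 0, 8, 31, 32, 14, 18, 14, 15, 33, 10, 9, 0, 31,
    32, 30, 12, 11, 0, 34, 27, 28, 29, 12, 0, 13, 24, 25, 21, 0, 22, 35, 0, 27, 34, 10, 33, 0, 13, 35, 24, 23, 4, 20,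
    0, 7, 26]
  gA := 32
  gB := 43
  fin := 0
  sid := [0, 1, 2, 3, 4, 5, 6, 7, 1, 0, 8, 9, 10, 11, 12, 13, 14, 15, 13, 1, 2, 16, 17, 18, 17, 18, 19, 20, 4, 3, 2,
    16, 21, 22, 6, 5, 4, 23, 24, 25, 22, 6, 7, 26, 27, 28, 29, 30, 18, 19, 7, 0, 8, 31, 32, 14, 32, 14, 15, 33, 10,
    9, 8, 31, 29, 30, 12, 11, 10, 34, 27, 28, 30, 12, 13, 35, 24, 25, 21, 22, 35, 26, 27, 34, 10, 33, 15, 13, 26, 35,
    24, 23, 4, 20, 19, 7]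
  off := [(0, 0), (0, 0), (0, 0), (0, 0), (0, 0), (0, 0), (0, 0), (0, 0), (0, 0), (0, 0), (0, 0), (0, 0), (0, 0), (0,
    0), (0, 0), (0, 0), (0, 0), (0, 0), (0, 0), (0, 0), (0, 0), (0, 0), (0, 0), (0, 0), (0, 0), (0, 0), (0, 0), (0,
    0), (0, 0), (0, 0), (0, 0), (0, 0), (0, 0), (0, 0), (0, 0), (0, 0), (0, 0), (0, 0), (0, 0), (0, 0), (0, 0), (0,
    0), (0, 0), (0, 0), (0, 0), (0, 0), (0, 0), (0, 0), (-1, 1), (-1, 1), (0, 0), (0, 0), (0, 0), (0, 0), (0, 0),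
    (-1, 1), (0, 0), (-1, 1), (-1, 1), (0, 0), (0, 0), (0, 0), (0, 0), (0, 0), (-1, 0), (-1, 0), (0, 0), (0, 0), (0,
    0), (0, 0), (-1, 0), (-1, 0), (-1, 0), (0, 0), (0, 0), (0, 0), (-1, 0), (-1, 0), (-1, 0), (-1, 0), (0, 0), (0,
    -1), (0, -1), (1, -1), (1, -1), (1, -1), (0, 0), (0, 0), (1, -1), (1, 0), (0, 0), (0, 0), (0, 0), (0, 0), (0, 0),
    (1, -1)]

/-- glued arcs and equations -/
def tord8b_59 : TorT :=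
  ⟨[(0, 0, true), (0, 1, false), (0, 6, false), (1, 3, false), (1, 6, false), (2, 5, true), (2, 7, false), (3, 4,
    true), (4, 6, false), (5, 7, false), (7, 7, true)],
    [([0, 0, 0, 0, 0, 1, 0, 1], 2), ([0, 0, 0, 0, 4, 0, 0, 0], 2), ([0, 0, 0, 1, 0, 1, 0, 0], 2), ([0, 0, 1, 0, 1, 0,
    1, 0], 2), ([0, 0, 2, 0, 0, 0, 0, 2], 2), ([0, 1, 1, 0, 0, 0, 1, 0], 2), ([1, 0, 0, 0, 0, 0, 1, 0], 2), ([1, 1,
    0, 0, 0, 0, 0, 1], 2), ([1, 1, 0, 1, 0, 0, 0, 0], 2)]⟩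

theorem tord8b_59_ok : tord8b_59.OK 8 := TT.leaf_ok (T := ttd8b_59) (by decide +kernel)

end Pool.Agent.Lib_MP_fa6e45
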