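import Pool.Agent.Lib_MP_fa6e45.DQ8bT0
import Pool.Agent.Lib_MP_fa6e45.DQ8bT1
import Pool.Agent.Lib_MP_fa6e45.DQ8bT2
import Pool.Agent.Lib_MP_fa6e45.DQ8bT3
import Pool.Agent.Lib_MP_fa6e45.DQ8bT4
import Pool.Agent.Lib_MP_fa6e45.DQ8bT5
import Pool.Agent.Lib_MP_fa6e45.DQ8bT6
import Pool.Agent.Lib_MP_fa6e45.DQ8bT7
import Pool.Agent.Lib_MP_fa6e45.DQ8bT8
import Pool.Agent.Lib_MP_fa6e45.DQ8bT9
import Pool.Agent.Lib_MP_fa6e45.DQ8bT10
import Pool.Agent.Lib_MP_fa6e45.DQ8bT11
import Pool.Agent.Lib_MP_fa6e45.DQ8bT12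
import Pool.Agent.Lib_MP_fa6e45.DQ8bT13
import Pool.Agent.Lib_MP_fa6e45.DQ8bT14
import Pool.Agent.Lib_MP_fa6e45.DQ8bT15

/-!
MP_fa6e45_co, stage 9: straight-side patterns with `8` sides, the list of tori (generated by a program).
-/

namespace Pool.Agent.Lib_MP_fa6e45

/-- tables -/
def ttD8b_0 : List TorT := [tord8b_0, tord8b_1, tord8b_2, tord8b_3, tord8b_4, tord8b_5]

theorem ttD8b_0_ok : ∀ T ∈ ttD8b_0, T.OK 8 := by
  intro T hT
  simp only [ttD8b_0, List.mem_cons, List.not_mem_nil, or_false] at hT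
  rcases hT with rfl | rfl | rfl | rfl | rfl | rfl
  · exact tord8b_0_ok
  · exact tord8b_1_ok
  · exact tord8b_2_ok
  · exact tord8b_3_ok
  · exact tord8b_4_ok
  · exact tord8b_5_ok

/-- tables -/
def ttD8b_1 : List TorT := [tord8b_6, tord8b_7, tord8b_8, tord8b_9, tord8b_10, tord8b_11]

theorem ttD8b_1_ok : ∀ T ∈ ttD8b_1, T.OK 8 := by
  intro T hT
  simp only [ttD8b_1, List.mem_cons, List.not_mem_nil, or_false] at hT
  rcases hT with rfl | rfl | rfl | rfl | rfl | rfl
  · exact tord8b_6_ok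
  · exact tord8b_7_ok
  · exact tord8b_8_ok
  · exact tord8b_9_ok
  · exact tord8b_10_ok
  · exact tord8b_11_ok

/-- tables -/
def ttD8b_2 : List TorT := [tord8b_12, tord8b_13, tord8b_14, tord8b_15, tord8b_16, tord8b_17]

theorem ttD8b_2_ok : ∀ T ∈ ttD8b_2, T.OK 8 := by
  intro T hT
  simp only [ttD8b_2, List.mem_cons, List.not_mem_nil, or_false] at hT
  rcases hT with rfl | rfl | rfl | rfl | rfl | rfl
  · exact tord8b_12_ok
  · exact tord8b_13_ok
  · exact tord8b_14_ok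
  · exact tord8b_15_ok
  · exact tord8b_16_ok
  · exact tord8b_17_ok

/-- tables -/
def ttD8b_3 : List TorT := [tord8b_18, tord8b_19, tord8b_20, tord8b_21, tord8b_22, tord8b_23]

theorem ttD8b_3_ok : ∀ T ∈ ttD8b_3, T.OK 8 := by
  intro T hT
  simp only [ttD8b_3, List.mem_cons, List.not_mem_nil, or_false] at hT
  rcases hT with rfl | rfl | rfl | rfl | rfl | rfl
  · exact tord8b_18_ok
  · exact tord8b_19_ok
  · exact tord8b_20_ok
  · exact tord8b_21_ok
  · exact tord8b_22_ok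
  · exact tord8b_23_ok

/-- tables -/
def ttD8b_4 : List TorT := [tord8b_24, tord8b_25, tord8b_26, tord8b_27, tord8b_28, tord8b_29]

theorem ttD8b_4_ok : ∀ T ∈ ttD8b_4, T.OK 8 := by
  intro T hT
  simp only [ttD8b_4, List.mem_cons, List.not_mem_nil, or_false] at hT
  rcases hT with rfl | rfl | rfl | rfl | rfl | rfl
  · exact tord8b_24_ok
  · exact tord8b_25_ok
  · exact tord8b_26_ok
  · exact tord8b_27_ok
  · exact tord8b_28_ok
  · exact tord8b_29_ok

/-- tables -/
def ttD8b_5 : List TorT := [tord8b_30, tord8b_31, tord8b_32, tord8b_33, tord8b_34, tord8b_35]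

theorem ttD8b_5_ok : ∀ T ∈ ttD8b_5, T.OK 8 := by
  intro T hT
  simp only [ttD8b_5, List.mem_cons, List.not_mem_nil, or_false] at hT
  rcases hT with rfl | rfl | rfl | rfl | rfl | rfl
  · exact tord8b_30_ok
  · exact tord8b_31_ok
  · exact tord8b_32_ok
  · exact tord8b_33_ok
  · exact tord8b_34_ok
  · exact tord8b_35_ok

/-- tables -/
def ttD8b_6 : List TorT := [tord8b_36, tord8b_37, tord8b_38, tord8b_39, tord8b_40, tord8b_41]

theorem ttD8b_6_ok : ∀ T ∈ ttD8b_6, T.OK 8 := by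
  intro T hT
  simp only [ttD8b_6, List.mem_cons, List.not_mem_nil, or_false] at hT
  rcases hT with rfl | rfl | rfl | rfl | rfl | rfl
  · exact tord8b_36_ok
  · exact tord8b_37_ok
  · exact tord8b_38_ok
  · exact tord8b_39_ok
  · exact tord8b_40_ok
  · exact tord8b_41_ok

/-- tables -/
def ttD8b_7 : List TorT := [tord8b_42, tord8b_43, tord8b_44, tord8b_45, tord8b_46, tord8b_47]

theorem ttD8b_7_ok : ∀ T ∈ ttD8b_7, T.OK 8 := by
  intro T hT
  simp only [ttD8b_7, List.mem_cons, List.not_mem_nil, or_false] at hT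
  rcases hT with rfl | rfl | rfl | rfl | rfl | rfl
  · exact tord8b_42_ok
  · exact tord8b_43_ok
  · exact tord8b_44_ok
  · exact tord8b_45_ok
  · exact tord8b_46_ok
  · exact tord8b_47_ok

/-- tables -/
def ttD8b_8 : List TorT := [tord8b_48, tord8b_49, tord8b_50, tord8b_51, tord8b_52, tord8b_53]

theorem ttD8b_8_ok : ∀ T ∈ ttD8b_8, T.OK 8 := by
  intro T hT
  simp only [ttD8b_8, List.mem_cons, List.not_mem_nil, or_false] at hT
  rcases hT with rfl | rfl | rfl | rfl | rfl | rfl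
  · exact tord8b_48_ok
  · exact tord8b_49_ok
  · exact tord8b_50_ok
  · exact tord8b_51_ok
  · exact tord8b_52_ok
  · exact tord8b_53_ok

/-- tables -/
def ttD8b_9 : List TorT := [tord8b_54, tord8b_55, tord8b_56, tord8b_57, tord8b_58, tord8b_59]

theorem ttD8b_9_ok : ∀ T ∈ ttD8b_9, T.OK 8 := by
  intro T hT
  simp only [ttD8b_9, List.mem_cons, List.not_mem_nil, or_false] at hT
  rcases hT with rfl | rfl | rfl | rfl | rfl | rfl
  · exact tord8b_54_ok
  · exact tord8b_55_ok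
  · exact tord8b_56_ok
  · exact tord8b_57_ok
  · exact tord8b_58_ok
  · exact tord8b_59_ok

/-- tables -/
def ttD8b_10 : List TorT := [tord8b_60, tord8b_61, tord8b_62, tord8b_63, tord8b_64, tord8b_65]

theorem ttD8b_10_ok : ∀ T ∈ ttD8b_10, T.OK 8 := by
  intro T hT
  simp only [ttD8b_10, List.mem_cons, List.not_mem_nil, or_false] at hT
  rcases hT with rfl | rfl | rfl | rfl | rfl | rfl
  · exact tord8b_60_ok
  · exact tord8b_61_ok
  · exact tord8b_62_ok
  · exact tord8b_63_ok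
  · exact tord8b_64_ok
  · exact tord8b_65_ok

/-- tables -/
def ttD8b_11 : List TorT := [tord8b_66, tord8b_67, tord8b_68, tord8b_69, tord8b_70, tord8b_71]

theorem ttD8b_11_ok : ∀ T ∈ ttD8b_11, T.OK 8 := by
  intro T hT
  simp only [ttD8b_11, List.mem_cons, List.not_mem_nil, or_false] at hT
  rcases hT with rfl | rfl | rfl | rfl | rfl | rfl
  · exact tord8b_66_ok
  · exact tord8b_67_ok
  · exact tord8b_68_ok
  · exact tord8b_69_ok
  · exact tord8b_70_ok
  · exact tord8b_71_ok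

/-- tables -/
def ttD8b_12 : List TorT := [tord8b_72, tord8b_73, tord8b_74, tord8b_75, tord8b_76, tord8b_77]

theorem ttD8b_12_ok : ∀ T ∈ ttD8b_12, T.OK 8 := by
  intro T hT
  simp only [ttD8b_12, List.mem_cons, List.not_mem_nil, or_false] at hT
  rcases hT with rfl | rfl | rfl | rfl | rfl | rfl
  · exact tord8b_72_ok
  · exact tord8b_73_ok
  · exact tord8b_74_ok
  · exact tord8b_75_ok
  · exact tord8b_76_ok
  · exact tord8b_77_ok

/-- tables -/
def ttD8b_13 : List TorT := [tord8b_78, tord8b_79, tord8b_80, tord8b_81, tord8b_82, tord8b_83]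

theorem ttD8b_13_ok : ∀ T ∈ ttD8b_13, T.OK 8 := by
  intro T hT
  simp only [ttD8b_13, List.mem_cons, List.not_mem_nil, or_false] at hT
  rcases hT with rfl | rfl | rfl | rfl | rfl | rfl
  · exact tord8b_78_ok
  · exact tord8b_79_ok
  · exact tord8b_80_ok
  · exact tord8b_81_ok
  · exact tord8b_82_ok
  · exact tord8b_83_ok

/-- tables -/
def ttD8b_14 : List TorT := [tord8b_84, tord8b_85, tord8b_86, tord8b_87, tord8b_88, tord8b_89]

theorem ttD8b_14_ok : ∀ T ∈ ttD8b_14, T.OK 8 := by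
  intro T hT
  simp only [ttD8b_14, List.mem_cons, List.not_mem_nil, or_false] at hT
  rcases hT with rfl | rfl | rfl | rfl | rfl | rfl
  · exact tord8b_84_ok
  · exact tord8b_85_ok
  · exact tord8b_86_ok
  · exact tord8b_87_ok
  · exact tord8b_88_ok
  · exact tord8b_89_ok

/-- tables -/
def ttD8b_15 : List TorT := [tord8b_90, tord8b_91]

theorem ttD8b_15_ok : ∀ T ∈ ttD8b_15, T.OK 8 := by
  intro T hT
  simp only [ttD8b_15, List.mem_cons, List.not_mem_nil, or_false] at hT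
  rcases hT with rfl | rfl
  · exact tord8b_90_ok
  · exact tord8b_91_ok

/-- all tables -/
def ttD8b : List TorT :=
  ttD8b_0 ++ (ttD8b_1 ++ (ttD8b_2 ++ (ttD8b_3 ++ (ttD8b_4 ++ (ttD8b_5 ++ (ttD8b_6 ++ (ttD8b_7 ++ (
    ttD8b_8 ++ (ttD8b_9 ++ (ttD8b_10 ++ (ttD8b_11 ++ (ttD8b_12 ++ (ttD8b_13 ++ (ttD8b_14 ++
    ttD8b_15))))))))))))))

theorem ttD8b_ok : ∀ T ∈ ttD8b, T.OK 8 := by
  intro T hT
  unfold ttD8b at hT
  rcases List.mem_append.1 hT with hT | hT
  · exact ttD8b_0_ok T hT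
  rcases List.mem_append.1 hT with hT | hT
  · exact ttD8b_1_ok T hT
  rcases List.mem_append.1 hT with hT | hT
  · exact ttD8b_2_ok T hT
  rcases List.mem_append.1 hT with hT | hT
  · exact ttD8b_3_ok T hT
  rcases List.mem_append.1 hT with hT | hT
  · exact ttD8b_4_ok T hT
  rcases List.mem_append.1 hT with hT | hT
  · exact ttD8b_5_ok T hT
  rcases List.mem_append.1 hT with hT | hT
  · exact ttD8b_6_ok T hT
  rcases List.mem_append.1 hT with hT | hT
  · exact ttD8b_7_ok T hT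
  rcases List.mem_append.1 hT with hT | hT
  · exact ttD8b_8_ok T hT
  rcases List.mem_append.1 hT with hT | hT
  · exact ttD8b_9_ok T hT
  rcases List.mem_append.1 hT with hT | hT
  · exact ttD8b_10_ok T hT
  rcases List.mem_append.1 hT with hT | hT
  · exact ttD8b_11_ok T hT
  rcases List.mem_append.1 hT with hT | hT
  · exact ttD8b_12_ok T hT
  rcases List.mem_append.1 hT with hT | hT
  · exact ttD8b_13_ok T hT
  rcases List.mem_append.1 hT with hT | hT
  · exact ttD8b_14_ok T hT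
  exact ttD8b_15_ok T hT

end Pool.Agent.Lib_MP_fa6e45
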