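import Pool.Agent.Lib_MP_fa6e45.CT5

/-!
MP_fa6e45_co, stage 9: straight-side patterns with `8` sides, tables of tori (generated by a program).
-/

namespace Pool.Agent.Lib_MP_fa6e45

/-- the torus -/
def ttd8b_0 : TT where
  k := 4
  rf := [false, false, false, false]
  tau := [10, 19, 18, 17, 25, 24, 22, 30, 21, 20, 0, 29, 28, 27, 23, 31, 26, 3, 2, 1, 9, 8, 6, 14, 5, 4, 16, 13, 12,
    11, 7, 15]
  par := [0, 0, 1, 4]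
  stars := [[0, 30, 11], [1, 10, 20], [2, 19], [3, 18], [4, 17, 26], [5, 25], [6, 24, 15, 23], [7, 22, 8, 31], [9,
    21], [12, 29], [13, 28], [14, 27, 16]]
  word := [[], [], [], [], [], [], [3, 0], [3, 0, 2], [], [], [], [0], [0], [0], [0], [2], [], [], [], [], [], [],
    [1, 2], [1], [], [], [], [1], [1], [1], [3, 1, 2], [3]]
  rank := [0, 0, 1, 2, 0, 1, 5, 6, 2, 1, 0, 2, 1, 0, 4, 0, 3, 2, 1, 0, 1, 2, 5, 4, 1, 0, 3, 0, 1, 2, 6, 0]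
  just := [0, 0, 2, 3, 0, 5, 6, 7, 8, 1, 0, 9, 10, 0, 11, 0, 4, 3, 2, 0, 1, 8, 6, 11, 5, 0, 4, 0, 10, 9, 7, 0]
  gA := 13
  gB := 15
  fin := 0
  sid := [0, 1, 2, 3, 4, 5, 6, 7, 7, 8, 1, 0, 9, 10, 11, 6, 11, 4, 3, 2, 1, 8, 7, 6, 6, 5, 4, 11, 10, 9, 0, 7]
  off := [(0, 0), (0, 0), (0, 0), (0, 0), (0, 0), (0, 0), (0, 0), (0, 0), (-1, 1), (0, 0), (0, 0), (0, 0), (0, 0),
    (0, 0), (0, 0), (0, 1), (-1, 0), (0, 0), (0, 0), (0, 0), (0, 0), (0, 0), (-1, 1), (-1, 1), (0, 0), (0, 0), (0,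
    0), (-1, 0), (-1, 0), (-1, 0), (-1, 0), (-1, 0)]

/-- glued arcs and equations -/
def tord8b_0 : TorT :=
  ⟨[(0, 2, true), (0, 5, true), (1, 3, true), (1, 4, true), (2, 2, true), (3, 5, true), (4, 4, true), (6, 6, true),
    (6, 7, true), (7, 7, true)],
    [([0, 0, 0, 0, 1, 1, 0, 0], 2), ([0, 0, 1, 1, 0, 0, 0, 0], 2), ([0, 1, 0, 0, 0, 1, 0, 0], 2), ([0, 1, 1, 0, 1, 0,
    0, 0], 2), ([1, 0, 0, 0, 0, 0, 1, 2], 2), ([1, 0, 0, 1, 0, 0, 1, 0], 2)]⟩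

theorem tord8b_0_ok : tord8b_0.OK 8 := TT.leaf_ok (T := ttd8b_0) (by decide +kernel)

/-- the torus -/
def ttd8b_1 : TT where
  k := 8
  rf := [false, false, false, false, false, false, false, false]
  tau := [13, 19, 18, 17, 9, 24, 31, 14, 37, 4, 44, 43, 42, 0, 7, 38, 45, 3, 2, 1, 41, 48, 55, 46, 5, 36, 52, 51, 50,
    32, 39, 6, 29, 59, 58, 57, 25, 8, 15, 30, 61, 20, 12, 11, 10, 16, 23, 62, 21, 60, 28, 27, 26, 56, 63, 22, 53, 35,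
    34, 33, 49, 40, 47, 54]
  par := [0, 0, 1, 5, 8, 10, 21, 33]
  stars := [[0, 14], [1, 13, 42, 20], [2, 19], [3, 18], [4, 17, 45, 10], [5, 9, 37, 25], [6, 24], [7, 31, 39, 15],
    [8, 38], [11, 44], [12, 43], [16, 46], [21, 41, 61, 49], [22, 48], [23, 55, 63, 47], [26, 36, 57, 53], [27, 52],
    [28, 51], [29, 50, 60, 33], [30, 32], [34, 59], [35, 58], [40, 62], [54, 56]]
  word := [[], [], [], [], [0], [], [], [0, 3, 1, 2], [], [1], [], [], [], [], [3, 0, 2, 1], [], [0], [], [], [], [],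
    [], [], [0], [], [0], [0, 3], [0, 3], [0, 3], [0, 3, 1, 2], [0, 3, 1, 2], [], [3, 0, 2, 1], [], [], [], [1], [],
    [], [3, 0, 2, 1], [1, 2], [], [], [], [], [1], [1], [1, 2], [], [1, 2], [2, 1], [2, 1], [2, 1], [2], [2], [],
    [3], [], [], [], [3, 0], [3, 0], [3, 0], [3]]
  rank := [0, 0, 1, 2, 3, 0, 1, 10, 0, 3, 0, 1, 2, 0, 10, 1, 0, 2, 1, 0, 3, 0, 1, 1, 0, 4, 5, 6, 7, 8, 9, 1, 8, 0, 1,
    2, 4, 0, 1, 9, 3, 3, 2, 1, 0, 0, 1, 2, 0, 4, 7, 6, 5, 1, 0, 1, 1, 2, 1, 0, 4, 3, 2, 0]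
  just := [0, 0, 2, 3, 4, 0, 6, 7, 0, 4, 0, 9, 10, 0, 7, 8, 0, 3, 2, 0, 1, 0, 13, 11, 0, 5, 15, 16, 17, 18, 19, 6,
    18, 0, 20, 21, 5, 0, 8, 19, 22, 1, 10, 9, 0, 0, 11, 14, 0, 12, 17, 16, 15, 23, 0, 13, 23, 21, 20, 0, 12, 22, 14,
    0]
  gA := 16
  gB := 54
  fin := 0
  sid := [0, 1, 2, 3, 4, 5, 6, 7, 8, 5, 4, 9, 10, 1, 0, 7, 11, 4, 3, 2, 1, 12, 13, 14, 6, 5, 15, 16, 17, 18, 19, 7,
    19, 18, 20, 21, 15, 5, 8, 7, 22, 12, 1, 10, 9, 4, 11, 14, 13, 12, 18, 17, 16, 15, 23, 14, 23, 15, 21, 20, 18, 12,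
    22, 14]
  off := [(0, 0), (0, 0), (0, 0), (0, 0), (0, 0), (0, 0), (0, 0), (0, 0), (0, 0), (-1, 0), (-1, 0), (0, 0), (0, 0),
    (0, 0), (0, 0), (0, 0), (0, 0), (0, 0), (0, 0), (0, 0), (0, 0), (0, 0), (0, 0), (0, 0), (0, 0), (0, 0), (0, 0),
    (0, 0), (0, 0), (0, 0), (0, 0), (0, 0), (0, 0), (0, 0), (0, 0), (0, 0), (-1, 0), (-1, 0), (0, 0), (0, 0), (0, 0),
    (0, 0), (0, 0), (0, 0), (0, 0), (-1, 0), (-1, 0), (-1, 0), (0, 0), (0, 0), (-1, 1), (-1, 1), (-1, 1), (-1, 1),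
    (0, 0), (0, 0), (0, -1), (-1, 0), (0, 0), (0, 0), (0, 0), (1, -1), (1, -1), (0, -1)]

/-- glued arcs and equations -/
def tord8b_1 : TorT :=
  ⟨[(0, 5, true), (1, 3, true), (1, 4, true), (2, 2, true), (2, 4, true), (3, 3, true), (6, 7, true)],
    [([0, 0, 0, 0, 0, 0, 0, 4], 2), ([0, 0, 0, 1, 1, 0, 0, 0], 2), ([0, 0, 1, 1, 0, 0, 0, 0], 2), ([0, 1, 1, 0, 1, 1,
    0, 0], 2), ([0, 2, 0, 0, 0, 2, 0, 0], 2), ([1, 0, 0, 0, 0, 0, 1, 0], 2)]⟩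

theorem tord8b_1_ok : tord8b_1.OK 8 := TT.leaf_ok (T := ttd8b_1) (by decide +kernel)

/-- the torus -/
def ttd8b_2 : TT where
  k := 6
  rf := [false, false, false, true, true, true]
  tau := [9, 16, 24, 25, 26, 27, 38, 47, 17, 0, 40, 41, 42, 43, 30, 39, 1, 8, 32, 33, 34, 35, 46, 31, 2, 3, 4, 5, 37,
    44, 14, 23, 18, 19, 20, 21, 45, 28, 6, 15, 10, 11, 12, 13, 29, 36, 22, 7]
  par := [0, 0, 1, 2, 6, 7]
  stars := [[0, 40, 10], [1, 9, 17], [2, 16, 24], [3, 25], [4, 26], [5, 27], [6, 28, 38], [7, 39, 15, 31, 23, 47],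
    [8, 32, 18], [11, 41], [12, 42], [13, 43], [14, 44, 30], [19, 33], [20, 34], [21, 35], [22, 36, 46], [29, 45, 37]]
  word := [[], [], [], [], [], [], [], [], [], [], [0, 3, 1, 2], [0, 3, 1, 2], [0, 3, 1, 2], [0, 3, 1, 2], [0, 3, 1],
    [0], [], [], [0], [0], [0], [0], [0, 2], [], [], [], [], [], [], [2], [0, 2, 1], [], [1], [1], [1], [1], [2], [],
    [], [1], [3, 0, 2, 1], [3, 0, 2, 1], [3, 0, 2, 1], [3, 0, 2, 1], [3], [3], [3, 1], []]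
  rank := [0, 0, 0, 1, 2, 3, 0, 0, 1, 0, 9, 8, 7, 6, 4, 3, 0, 1, 2, 1, 0, 1, 2, 1, 0, 1, 2, 3, 4, 5, 4, 1, 2, 1, 0,
    1, 0, 4, 0, 3, 9, 8, 7, 6, 5, 0, 2, 0]
  just := [0, 0, 0, 3, 4, 5, 0, 0, 1, 0, 9, 10, 11, 12, 7, 8, 0, 1, 13, 14, 0, 15, 16, 2, 0, 3, 4, 5, 6, 17, 7, 2,
    13, 14, 0, 15, 0, 6, 0, 8, 9, 10, 11, 12, 17, 0, 16, 0]
  gA := 20
  gB := 36
  fin := 0
  sid := [0, 1, 2, 3, 4, 5, 6, 7, 8, 1, 0, 9, 10, 11, 12, 7, 2, 1, 8, 13, 14, 15, 16, 7, 2, 3, 4, 5, 6, 17, 12, 7, 8,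
    13, 14, 15, 16, 17, 6, 7, 0, 9, 10, 11, 12, 17, 16, 7]
  off := [(0, 0), (0, 0), (0, 0), (0, 0), (0, 0), (0, 0), (0, 0), (0, 0), (0, 0), (0, 0), (0, 0), (0, 0), (0, 0), (0,
    0), (0, 0), (1, 0), (0, 0), (0, 0), (0, 0), (0, 0), (0, 0), (0, 0), (0, 0), (1, 1), (0, 0), (0, 0), (0, 0), (0,
    0), (0, 0), (0, 0), (0, 1), (1, 1), (-1, 0), (-1, 0), (-1, 0), (-1, 0), (-1, 0), (0, 0), (0, 0), (0, 0), (0, 0),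
    (0, 0), (0, 0), (0, 0), (0, 0), (0, -1), (-1, -1), (0, 0)]

/-- glued arcs and equations -/
def tord8b_2 : TorT :=
  ⟨[(0, 1, true), (0, 2, false), (1, 3, false), (2, 4, false), (3, 5, false), (4, 5, true), (6, 6, false), (7, 7,
    false)],
    [([0, 0, 0, 0, 0, 0, 0, 6], 2), ([0, 0, 0, 0, 0, 3, 0, 0], 2), ([0, 0, 0, 0, 1, 0, 2, 0], 2), ([0, 0, 0, 1, 0, 1,
    0, 0], 2), ([0, 0, 1, 0, 1, 0, 0, 0], 2), ([0, 1, 0, 1, 0, 0, 0, 0], 2), ([0, 3, 0, 0, 0, 0, 0, 0], 2), ([2, 0,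
    1, 0, 0, 0, 0, 0], 2)]⟩

theorem tord8b_2_ok : tord8b_2.OK 8 := TT.leaf_ok (T := ttd8b_2) (by decide +kernel)

/-- the torus -/
def ttd8b_3 : TT where
  k := 8
  rf := [false, false, false, true, true, true, false, true]
  tau := [9, 16, 24, 25, 26, 27, 38, 47, 49, 0, 40, 41, 42, 43, 30, 63, 1, 48, 32, 33, 34, 35, 62, 31, 2, 3, 4, 5,
    37, 44, 14, 23, 18, 19, 20, 21, 61, 28, 6, 55, 10, 11, 12, 13, 29, 60, 54, 7, 17, 8, 56, 57, 58, 59, 46, 39, 50,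
    51, 52, 53, 45, 36, 22, 15]
  par := [0, 0, 1, 2, 6, 7, 8, 15]
  stars := [[0, 40, 10], [1, 9, 49, 17], [2, 16, 24], [3, 25], [4, 26], [5, 27], [6, 28, 38], [7, 39, 55, 47], [8,
    56, 50], [11, 41], [12, 42], [13, 43], [14, 44, 30], [15, 31, 23, 63], [18, 48, 32], [19, 33], [20, 34], [21,
    35], [22, 36, 62], [29, 45, 61, 37], [46, 54, 60], [51, 57], [52, 58], [53, 59]]
  word := [[], [], [], [], [], [], [], [], [], [], [3, 1, 2, 0], [3, 1, 2, 0], [3, 1, 2, 0], [3, 1, 2, 0], [3, 1],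
    [], [], [], [0], [0], [0], [0], [0, 2], [], [], [], [], [], [], [2, 0], [0, 2], [], [1], [1], [1], [1], [2], [],
    [], [1], [1, 3, 0, 2], [1, 3, 0, 2], [1, 3, 0, 2], [1, 3, 0, 2], [1, 3], [1], [1], [], [], [], [], [], [], [],
    [0], [0], [], [], [], [], [0], [3], [3, 1], []]
  rank := [0, 0, 0, 1, 2, 3, 0, 0, 0, 0, 10, 9, 8, 7, 5, 0, 0, 1, 0, 1, 2, 3, 4, 1, 0, 1, 2, 3, 4, 6, 5, 1, 0, 1, 2,
    3, 0, 4, 0, 2, 10, 9, 8, 7, 6, 5, 3, 0, 1, 0, 1, 2, 3, 4, 3, 2, 1, 2, 3, 4, 5, 0, 4, 0]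
  just := [0, 0, 0, 3, 4, 5, 0, 0, 0, 0, 9, 10, 11, 12, 13, 0, 0, 1, 0, 15, 16, 17, 18, 2, 0, 3, 4, 5, 6, 19, 13, 2,
    0, 15, 16, 17, 0, 6, 0, 14, 9, 10, 11, 12, 19, 20, 7, 0, 1, 0, 8, 21, 22, 23, 7, 14, 8, 21, 22, 23, 20, 0, 18, 0]
  gA := 18
  gB := 36
  fin := 0
  sid := [0, 1, 2, 3, 4, 5, 6, 7, 8, 1, 0, 9, 10, 11, 12, 13, 2, 1, 14, 15, 16, 17, 18, 13, 2, 3, 4, 5, 6, 19, 12,
    13, 14, 15, 16, 17, 18, 19, 6, 7, 0, 9, 10, 11, 12, 19, 20, 7, 14, 1, 8, 21, 22, 23, 20, 7, 8, 21, 22, 23, 20,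
    19, 18, 13]
  off := [(0, 0), (0, 0), (0, 0), (0, 0), (0, 0), (0, 0), (0, 0), (0, 0), (0, 0), (0, 0), (0, 0), (0, 0), (0, 0), (0,
    0), (0, 0), (0, 0), (0, 0), (0, 0), (0, 0), (0, 0), (0, 0), (0, 0), (0, 0), (1, 1), (0, 0), (0, 0), (0, 0), (0,
    0), (0, 0), (0, 0), (1, 1), (1, 1), (-1, 0), (-1, 0), (-1, 0), (-1, 0), (-1, 0), (0, 0), (0, 0), (0, 0), (0, 0),
    (0, 0), (0, 0), (0, 0), (0, 0), (-1, -1), (0, 0), (0, 0), (0, 0), (0, 0), (0, 0), (0, 0), (0, 0), (0, 0), (1, 0),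
    (1, 0), (0, 0), (0, 0), (0, 0), (0, 0), (1, 0), (0, -1), (-1, -1), (0, 0)]

/-- glued arcs and equations -/
def tord8b_3 : TorT :=
  ⟨[(0, 1, true), (0, 2, false), (1, 3, false), (2, 4, false), (3, 5, false), (4, 5, true), (6, 6, false), (7, 7,
    false)],
    [([0, 0, 0, 0, 0, 0, 0, 4], 2), ([0, 0, 0, 0, 0, 4, 0, 0], 2), ([0, 0, 0, 0, 1, 0, 2, 0], 2), ([0, 0, 0, 1, 0, 1,
    0, 0], 2), ([0, 0, 1, 0, 1, 0, 0, 0], 2), ([0, 1, 0, 1, 0, 0, 0, 0], 2), ([0, 4, 0, 0, 0, 0, 0, 0], 2), ([2, 0,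
    1, 0, 0, 0, 0, 0], 2)]⟩

theorem tord8b_3_ok : tord8b_3.OK 8 := TT.leaf_ok (T := ttd8b_3) (by decide +kernel)

/-- the torus -/
def ttd8b_4 : TT where
  k := 8
  rf := [false, false, true, true, false, false, true, true]
  tau := [8, 22, 30, 36, 40, 47, 26, 53, 0, 54, 62, 44, 32, 39, 58, 21, 28, 51, 50, 49, 59, 15, 1, 29, 56, 46, 6, 52,
    16, 23, 2, 37, 12, 43, 42, 41, 3, 31, 57, 13, 4, 35, 34, 33, 11, 63, 25, 5, 60, 19, 18, 17, 27, 7, 9, 61, 24, 38,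
    14, 20, 48, 55, 10, 45]
  par := [0, 0, 1, 2, 3, 4, 7, 10]
  stars := [[0, 54, 9], [1, 8, 22], [2, 23, 30], [3, 31, 37], [4, 36, 41], [5, 40], [6, 47, 26], [7, 27, 53], [10,
    55, 62], [11, 63, 45], [12, 44, 33], [13, 32], [14, 39, 58], [15, 59, 21], [16, 29], [17, 52, 28], [18, 51], [19,
    50], [20, 60, 49], [24, 57, 38], [25, 46, 56], [34, 43], [35, 42], [48, 61]]
  word := [[], [], [], [], [], [], [1], [], [], [3, 1, 2, 0], [], [3], [3], [3], [3, 0, 2], [], [], [0], [0], [0],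
    [3, 0, 2], [], [], [], [0, 2], [0], [0], [0], [], [], [], [], [2], [], [], [], [], [], [0, 2], [2], [], [], [],
    [], [2], [2], [1], [], [1, 3, 0, 2], [1], [1], [1], [1], [], [1, 3, 0, 2], [1, 3, 0, 2], [3, 1], [3, 1], [3, 1,
    2], [3, 1, 2], [3, 1, 2, 0], [3, 1, 2, 0], [], [3]]
  rank := [0, 0, 0, 0, 0, 1, 2, 0, 0, 10, 0, 1, 4, 5, 6, 1, 2, 4, 5, 6, 7, 1, 0, 1, 1, 0, 2, 3, 2, 1, 0, 1, 4, 3, 2,
    1, 0, 1, 2, 5, 0, 1, 2, 3, 1, 0, 0, 1, 8, 6, 5, 4, 3, 0, 10, 9, 1, 2, 6, 7, 8, 9, 0, 0]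
  just := [0, 0, 0, 0, 0, 5, 6, 0, 0, 8, 0, 9, 10, 11, 12, 1, 14, 15, 16, 17, 13, 1, 0, 2, 20, 0, 6, 7, 14, 2, 0, 3,
    10, 21, 22, 4, 0, 3, 19, 11, 0, 4, 22, 21, 9, 0, 0, 5, 18, 17, 16, 15, 7, 0, 8, 23, 20, 19, 12, 13, 18, 23, 0, 0]
  gA := 25
  gB := 45
  fin := 0
  sid := [0, 1, 2, 3, 4, 5, 6, 7, 1, 0, 8, 9, 10, 11, 12, 13, 14, 15, 16, 17, 18, 13, 1, 2, 19, 20, 6, 7, 15, 14, 2,
    3, 11, 10, 21, 22, 4, 3, 19, 12, 5, 4, 22, 21, 10, 9, 20, 6, 23, 18, 17, 16, 15, 7, 0, 8, 20, 19, 12, 13, 18, 23,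
    8, 9]
  off := [(0, 0), (0, 0), (0, 0), (0, 0), (0, 0), (0, 0), (0, 0), (0, 0), (0, 0), (0, 0), (0, 0), (0, 0), (0, 0), (0,
    0), (0, 0), (0, 0), (0, 0), (0, 0), (0, 0), (0, 0), (0, 0), (0, 0), (0, 0), (0, 0), (0, 0), (0, 0), (1, 0), (1,
    0), (0, 0), (0, 0), (0, 0), (0, 0), (0, 1), (0, 1), (0, 0), (0, 0), (0, 0), (0, 0), (0, 0), (0, 1), (0, 0), (0,
    0), (0, 0), (0, 0), (0, 1), (0, 1), (-1, 0), (0, 0), (0, 0), (-1, 0), (-1, 0), (-1, 0), (-1, 0), (0, 0), (0, 0),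
    (0, 0), (-1, -1), (-1, -1), (-1, 0), (-1, 0), (-1, 0), (0, 0), (0, 0), (0, 0)]

/-- glued arcs and equations -/
def tord8b_4 : TorT :=
  ⟨[(0, 0, true), (0, 4, true), (1, 3, true), (1, 6, false), (2, 2, true), (2, 6, false), (3, 4, true), (5, 7,
    false), (5, 7, true)],
    [([0, 0, 0, 1, 0, 1, 0, 1], 2), ([0, 0, 1, 0, 0, 0, 1, 1], 2), ([0, 0, 1, 1, 0, 0, 0, 0], 2), ([0, 1, 0, 0, 2, 0,
    0, 0], 2), ([1, 0, 0, 0, 0, 1, 0, 0], 2), ([1, 1, 0, 0, 0, 0, 1, 0], 2)]⟩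

theorem tord8b_4_ok : tord8b_4.OK 8 := TT.leaf_ok (T := ttd8b_4) (by decide +kernel)

/-- the torus -/
def ttd8b_5 : TT where
  k := 4
  rf := [false, false, false, false]
  tau := [8, 6, 22, 28, 16, 23, 1, 15, 0, 14, 30, 20, 24, 31, 9, 7, 4, 27, 26, 25, 11, 29, 2, 5, 12, 19, 18, 17, 3,
    21, 10, 13]
  par := [0, 0, 2, 3]
  stars := [[0, 15, 9], [1, 8, 7], [2, 6, 23], [3, 22, 29], [4, 28, 17], [5, 16], [10, 14, 31], [11, 30, 21], [12,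
    20, 25], [13, 24], [18, 27], [19, 26]]
  word := [[], [2], [], [], [3], [3], [3], [3], [], [0, 3, 1], [0, 3], [0, 3], [0], [0], [0, 2, 1], [2], [2], [2],
    [2], [2], [2, 1], [], [], [2], [1], [3], [3], [3], [], [], [2, 1], [1]]
  rank := [0, 4, 0, 0, 2, 3, 4, 5, 0, 4, 3, 2, 0, 1, 4, 5, 2, 1, 0, 1, 2, 1, 0, 3, 0, 1, 0, 1, 0, 1, 3, 1]
  just := [0, 2, 0, 0, 4, 5, 2, 1, 0, 6, 7, 8, 0, 9, 6, 1, 4, 10, 0, 11, 8, 3, 0, 5, 0, 11, 0, 10, 0, 3, 7, 9]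
  gA := 12
  gB := 18
  fin := 0
  sid := [0, 1, 2, 3, 4, 5, 2, 1, 1, 0, 6, 7, 8, 9, 6, 0, 5, 4, 10, 11, 8, 7, 3, 2, 9, 8, 11, 10, 4, 3, 7, 6]
  off := [(0, 0), (0, 0), (0, 0), (0, 0), (0, 0), (0, 0), (0, -1), (0, -1), (0, 0), (0, 0), (0, 0), (0, 0), (0, 0),
    (0, 0), (0, 1), (0, 1), (0, 1), (0, 1), (0, 0), (0, 0), (-1, 1), (-1, 1), (0, 0), (0, 0), (-1, 0), (-1, 0), (0,
    -1), (0, -1), (0, 0), (0, 0), (-1, 1), (-1, 1)]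

/-- glued arcs and equations -/
def tord8b_5 : TorT :=
  ⟨[(0, 0, true), (0, 4, true), (1, 3, true), (1, 6, true), (2, 2, true), (2, 6, true), (3, 4, true), (5, 5, true),
    (5, 7, true), (7, 7, true)],
    [([0, 0, 0, 1, 0, 1, 1, 0], 2), ([0, 0, 1, 0, 0, 0, 1, 1], 2), ([0, 0, 1, 1, 0, 0, 0, 0], 2), ([0, 1, 0, 0, 2, 0,
    0, 0], 2), ([1, 0, 0, 0, 0, 1, 0, 0], 2), ([1, 1, 0, 0, 0, 0, 0, 1], 2)]⟩

theorem tord8b_5_ok : tord8b_5.OK 8 := TT.leaf_ok (T := ttd8b_5) (by decide +kernel)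

end Pool.Agent.Lib_MP_fa6e45
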