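import Pool.Agent.Lib_MP_fa6e45.CT5

/-!
MP_fa6e45_co, stage 9: straight-side patterns with `8` sides, tables of tori (generated by a program).
-/

namespace Pool.Agent.Lib_MP_fa6e45

/-- the torus -/
def ttd8b_72 : TT where
  k := 8
  rf := [false, false, true, false, true, false, true, true]
  tau := [9, 19, 20, 17, 18, 8, 15, 10, 5, 0, 7, 27, 30, 29, 28, 6, 33, 3, 4, 1, 2, 32, 39, 34, 45, 40, 47, 11, 14,
    13, 12, 46, 21, 16, 23, 51, 54, 53, 52, 22, 25, 59, 60, 57, 58, 24, 31, 26, 61, 56, 63, 35, 38, 37, 36, 62, 49,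
    43, 44, 41, 42, 48, 55, 50]
  par := [0, 0, 1, 11, 16, 24, 35, 41]
  stars := [[0, 10], [1, 9, 5, 19], [2, 20], [3, 21, 33, 17], [4, 18], [6, 8], [7, 15, 28, 11], [12, 27, 47, 31],
    [13, 30], [14, 29], [16, 34], [22, 32], [23, 35, 52, 39], [24, 46], [25, 45, 59, 41], [26, 40], [36, 55, 63, 51],
    [37, 54], [38, 53], [42, 60], [43, 61, 49, 57], [44, 58], [48, 62], [50, 56]]
  word := [[], [], [], [2, 1], [2, 1], [2, 1], [2, 1], [2, 1, 3, 0], [0, 3], [], [1, 2, 0, 3], [], [3, 0], [3, 0],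
    [3, 0], [0, 3], [], [0, 3], [0, 3], [], [], [2, 1], [2, 1], [], [], [3, 0], [3, 0], [], [1, 2], [1, 2], [1, 2],
    [], [0, 3], [], [], [], [0, 3], [0, 3], [0, 3], [0, 3], [1, 2], [], [], [3, 0], [3, 0], [], [], [1, 2], [2], [0],
    [0], [], [2, 1], [2, 1], [2, 1], [2], [1], [1, 2], [1, 2], [], [], [3], [3], [1]]
  rank := [0, 0, 1, 6, 7, 8, 9, 10, 8, 0, 10, 0, 6, 7, 8, 9, 0, 6, 7, 0, 1, 5, 4, 1, 0, 4, 5, 0, 8, 7, 6, 1, 5, 0, 1,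
    0, 1, 2, 3, 4, 4, 0, 1, 2, 3, 0, 1, 5, 1, 1, 0, 0, 3, 2, 1, 0, 1, 2, 3, 0, 1, 1, 0, 0]
  just := [0, 0, 2, 3, 4, 1, 5, 6, 1, 0, 6, 0, 7, 8, 9, 5, 0, 3, 4, 0, 2, 11, 12, 10, 0, 14, 15, 0, 9, 8, 7, 13, 11,
    0, 10, 0, 16, 17, 18, 12, 14, 0, 19, 20, 21, 0, 13, 15, 22, 23, 0, 0, 18, 17, 16, 0, 23, 20, 21, 0, 19, 22, 0, 0]
  gA := 50
  gB := 55
  fin := 0
  sid := [0, 1, 2, 3, 4, 1, 5, 6, 5, 1, 0, 6, 7, 8, 9, 6, 10, 3, 4, 1, 2, 3, 11, 12, 13, 14, 15, 7, 6, 9, 8, 7, 11,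
    3, 10, 12, 16, 17, 18, 12, 15, 14, 19, 20, 21, 14, 13, 7, 22, 20, 23, 16, 12, 18, 17, 16, 23, 20, 21, 14, 19, 20,
    22, 16]
  off := [(0, 0), (0, 0), (0, 0), (0, 0), (0, 0), (-1, 1), (0, 0), (0, 0), (1, -1), (0, 0), (0, 0), (0, 0), (0, 0),
    (0, 0), (0, 0), (1, -1), (0, 0), (1, -1), (1, -1), (0, 0), (0, 0), (0, 0), (0, 0), (0, 0), (0, 0), (0, 0), (0,
    0), (0, 0), (0, 0), (-1, 1), (-1, 1), (-1, 1), (1, -1), (1, -1), (0, 0), (0, 0), (0, 0), (0, 0), (0, 0), (1, -1),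
    (-1, 1), (-1, 1), (0, 0), (0, 0), (0, 0), (0, 0), (0, 0), (-1, 1), (0, 0), (0, 1), (0, 0), (0, 0), (0, 0), (-1,
    1), (-1, 1), (-1, 1), (-1, 0), (-1, 1), (-1, 1), (-1, 1), (0, 0), (0, 0), (0, -1), (-1, 0)]

/-- glued arcs and equations -/
def tord8b_72 : TorT :=
  ⟨[(0, 1, true), (0, 5, true), (1, 3, false), (2, 4, false), (2, 7, true), (3, 3, true), (4, 6, true), (5, 5, true),
    (6, 7, true)],
    [([0, 0, 0, 0, 0, 1, 1, 0], 2), ([0, 0, 0, 1, 1, 0, 0, 2], 2), ([0, 0, 1, 0, 1, 0, 0, 0], 2), ([0, 2, 0, 1, 0, 1,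
    0, 0], 2), ([1, 0, 0, 0, 0, 0, 1, 0], 2), ([1, 0, 1, 0, 0, 0, 0, 0], 2)]⟩

theorem tord8b_72_ok : tord8b_72.OK 8 := TT.leaf_ok (T := ttd8b_72) (by decide +kernel)

/-- the torus -/
def ttd8b_73 : TT where
  k := 4
  rf := [false, false, true, true]
  tau := [9, 19, 20, 17, 18, 8, 15, 10, 5, 0, 7, 29, 30, 27, 28, 6, 25, 3, 4, 1, 2, 24, 31, 26, 21, 16, 23, 13, 14,
    11, 12, 22]
  par := [0, 0, 1, 11]
  stars := [[0, 10], [1, 9, 5, 19], [2, 20], [3, 21, 25, 17], [4, 18], [6, 8], [7, 15, 29, 11], [12, 30], [13, 31,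
    23, 27], [14, 28], [16, 26], [22, 24]]
  word := [[], [], [], [2, 1], [2, 1], [2, 1], [2, 1], [2, 1, 3, 0], [0, 3], [], [1, 2, 0, 3], [], [], [3, 0], [3,
    0], [0, 3], [0], [0, 3], [0, 3], [], [], [2], [2], [0], [3], [1], [1], [1, 2], [1, 2], [], [], [3]]
  rank := [0, 0, 1, 2, 3, 4, 5, 6, 4, 0, 6, 0, 1, 2, 3, 5, 0, 2, 3, 0, 1, 0, 1, 1, 0, 0, 1, 2, 3, 0, 1, 1]
  just := [0, 0, 2, 3, 4, 1, 5, 6, 1, 0, 6, 0, 7, 8, 9, 5, 0, 3, 4, 0, 2, 0, 11, 10, 0, 0, 10, 8, 9, 0, 7, 11]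
  gA := 16
  gB := 21
  fin := 0
  sid := [0, 1, 2, 3, 4, 1, 5, 6, 5, 1, 0, 6, 7, 8, 9, 6, 10, 3, 4, 1, 2, 3, 11, 8, 11, 3, 10, 8, 9, 6, 7, 8]
  off := [(0, 0), (0, 0), (0, 0), (0, 0), (0, 0), (-1, 1), (0, 0), (0, 0), (1, -1), (0, 0), (0, 0), (0, 0), (0, 0),
    (0, 0), (0, 0), (1, -1), (0, 0), (1, -1), (1, -1), (0, 0), (0, 0), (0, 0), (0, 0), (0, 1), (0, -1), (0, -1), (-1,
    0), (-1, 1), (-1, 1), (0, 0), (0, 0), (0, 0)]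

/-- glued arcs and equations -/
def tord8b_73 : TorT :=
  ⟨[(0, 1, true), (0, 5, true), (1, 3, false), (2, 4, false), (2, 7, true), (3, 5, false), (4, 6, false), (6, 7,
    true)],
    [([0, 0, 0, 0, 1, 0, 1, 0], 2), ([0, 0, 0, 1, 0, 1, 0, 2], 2), ([0, 0, 1, 0, 1, 0, 0, 0], 2), ([0, 2, 0, 1, 0, 1,
    0, 0], 2), ([1, 0, 0, 0, 0, 0, 1, 0], 2), ([1, 0, 1, 0, 0, 0, 0, 0], 2)]⟩

theorem tord8b_73_ok : tord8b_73.OK 8 := TT.leaf_ok (T := ttd8b_73) (by decide +kernel)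

/-- the torus -/
def ttd8b_74 : TT where
  k := 8
  rf := [false, false, false, false, false, false, false, false]
  tau := [9, 16, 23, 27, 38, 40, 47, 10, 17, 0, 7, 53, 52, 51, 36, 18, 1, 8, 15, 35, 62, 49, 28, 2, 57, 32, 39, 3,
    22, 48, 55, 58, 25, 56, 63, 19, 14, 41, 4, 26, 5, 37, 50, 61, 60, 59, 54, 6, 29, 21, 42, 13, 12, 11, 46, 30, 33,
    24, 31, 45, 44, 43, 20, 34]
  par := [0, 0, 1, 3, 4, 5, 11, 20]
  stars := [[0, 10], [1, 9, 17], [2, 16], [3, 23, 28], [4, 27, 39], [5, 38, 41], [6, 40], [7, 47, 54, 11], [8, 18],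
    [12, 53], [13, 52], [14, 51, 42, 37], [15, 36, 19], [20, 35, 63], [21, 62, 43, 50], [22, 49, 29], [24, 58], [25,
    57, 33], [26, 32], [30, 48], [31, 55, 46, 59], [34, 56], [44, 61], [45, 60]]
  word := [[], [], [], [], [], [], [], [2, 0, 3, 1], [], [], [0, 2, 1, 3], [], [], [], [0], [], [], [], [], [0], [],
    [3, 1], [], [], [1], [], [], [], [], [3, 1], [3, 1], [1], [], [1], [1], [1], [1], [], [], [], [], [], [1], [2],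
    [2], [2], [2, 0, 3, 1], [], [0, 2], [0, 2], [0], [], [], [], [0, 2, 1, 3], [0, 2], [0], [0], [0], [3], [3], [3],
    [], [0]]
  rank := [0, 0, 1, 0, 0, 0, 1, 9, 1, 0, 9, 0, 1, 2, 3, 2, 0, 1, 2, 0, 0, 5, 2, 1, 3, 2, 1, 0, 2, 6, 7, 4, 2, 2, 1,
    0, 3, 1, 0, 1, 0, 1, 4, 0, 1, 2, 8, 1, 6, 5, 4, 2, 1, 0, 8, 7, 2, 3, 4, 2, 1, 0, 0, 1]
  just := [0, 0, 2, 0, 0, 0, 6, 7, 1, 0, 7, 0, 9, 10, 12, 8, 0, 1, 8, 0, 0, 14, 3, 2, 17, 18, 4, 0, 3, 15, 19, 16,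
    18, 21, 13, 0, 12, 5, 0, 4, 0, 5, 11, 0, 22, 23, 20, 6, 15, 14, 11, 10, 9, 0, 20, 19, 21, 17, 16, 23, 22, 0, 0,
    13]
  gA := 19
  gB := 43
  fin := 0
  sid := [0, 1, 2, 3, 4, 5, 6, 7, 8, 1, 0, 7, 9, 10, 11, 12, 2, 1, 8, 12, 13, 14, 15, 3, 16, 17, 18, 4, 3, 15, 19,
    20, 18, 17, 21, 13, 12, 11, 5, 4, 6, 5, 11, 14, 22, 23, 20, 7, 19, 15, 14, 11, 10, 9, 7, 20, 21, 17, 16, 20, 23,
    22, 14, 13]
  off := [(0, 0), (0, 0), (0, 0), (0, 0), (0, 0), (0, 0), (0, 0), (0, 0), (0, 0), (0, 0), (0, 0), (0, 0), (0, 0), (0,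
    0), (0, 0), (0, 0), (0, 0), (0, 0), (0, 0), (0, 0), (0, 0), (0, 0), (0, 0), (0, 0), (0, 0), (0, 0), (0, 0), (0,
    0), (0, 0), (0, 0), (0, 0), (0, 0), (0, 0), (0, 0), (0, 0), (-1, 0), (-1, 0), (-1, 0), (0, 0), (0, 0), (0, 0),
    (0, 0), (-1, 0), (0, 1), (0, 0), (0, 0), (1, 1), (0, 0), (1, 1), (1, 1), (1, 1), (0, 0), (0, 0), (0, 0), (0, 0),
    (1, 1), (1, 0), (1, 0), (1, 0), (1, 0), (0, -1), (0, -1), (0, 0), (0, 0)]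

/-- glued arcs and equations -/
def tord8b_74 : TorT :=
  ⟨[(0, 1, true), (0, 5, true), (1, 5, true), (2, 2, true), (2, 7, true), (3, 3, true), (3, 5, true), (4, 4, true),
    (4, 6, true), (6, 6, true), (6, 7, true)],
    [([0, 0, 0, 0, 1, 1, 0, 0], 2), ([0, 0, 0, 1, 0, 0, 1, 2], 2), ([0, 0, 0, 1, 1, 0, 0, 1], 2), ([0, 0, 1, 1, 0, 1,
    1, 0], 2), ([0, 1, 0, 0, 0, 1, 1, 0], 2), ([0, 3, 0, 0, 0, 0, 0, 0], 2), ([1, 0, 0, 0, 0, 0, 1, 0], 2), ([1, 0,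
    1, 0, 0, 0, 0, 0], 2)]⟩

theorem tord8b_74_ok : tord8b_74.OK 8 := TT.leaf_ok (T := ttd8b_74) (by decide +kernel)

/-- the torus -/
def ttd8b_75 : TT where
  k := 4
  rf := [false, false, false, false]
  tau := [9, 17, 20, 19, 18, 8, 15, 10, 5, 0, 7, 29, 28, 27, 30, 6, 25, 1, 4, 3, 2, 24, 31, 26, 21, 16, 23, 13, 12,
    11, 14, 22]
  par := [0, 0, 1, 11]
  stars := [[0, 10], [1, 9, 5, 18], [2, 17, 25, 21], [3, 20], [4, 19], [6, 8], [7, 15, 30, 11], [12, 29], [13, 28],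
    [14, 27, 23, 31], [16, 26], [22, 24]]
  word := [[], [], [0], [0], [0], [0], [0], [0, 3, 1, 2], [1], [], [3, 0, 2, 1], [], [], [], [3, 1, 2], [1], [2], [],
    [1], [1], [1], [1, 2], [1, 2], [2], [3, 0], [3], [3], [], [], [], [3, 0, 2], [3, 0]]
  rank := [0, 0, 0, 1, 2, 3, 4, 5, 3, 0, 5, 0, 1, 2, 3, 4, 0, 0, 2, 1, 0, 1, 2, 1, 1, 0, 1, 2, 1, 0, 3, 2]
  just := [0, 0, 0, 3, 4, 1, 5, 6, 1, 0, 6, 0, 7, 8, 9, 5, 0, 0, 4, 3, 0, 2, 11, 10, 2, 0, 10, 8, 7, 0, 9, 11]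
  gA := 2
  gB := 16
  fin := 0
  sid := [0, 1, 2, 3, 4, 1, 5, 6, 5, 1, 0, 6, 7, 8, 9, 6, 10, 2, 1, 4, 3, 2, 11, 9, 11, 2, 10, 9, 8, 7, 6, 9]
  off := [(0, 0), (0, 0), (0, 0), (0, 0), (0, 0), (1, 0), (0, 0), (0, 0), (-1, 0), (0, 0), (0, 0), (0, 0), (0, 0),
    (0, 0), (0, 0), (-1, 0), (0, 0), (0, 0), (0, 0), (-1, 0), (-1, 0), (-1, 0), (0, 0), (0, 1), (1, -1), (0, -1), (0,
    -1), (0, 0), (0, 0), (0, 0), (0, 0), (1, 0)]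

/-- glued arcs and equations -/
def tord8b_75 : TorT :=
  ⟨[(0, 1, true), (0, 5, true), (1, 1, true), (2, 4, true), (2, 7, true), (3, 3, true), (3, 5, true), (4, 4, true),
    (6, 6, true), (6, 7, true)],
    [([0, 0, 0, 0, 1, 1, 0, 0], 2), ([0, 0, 0, 1, 0, 0, 1, 2], 2), ([0, 0, 0, 1, 1, 0, 0, 0], 2), ([0, 2, 1, 0, 0, 1,
    0, 0], 2), ([1, 0, 0, 0, 0, 0, 1, 0], 2), ([1, 0, 1, 0, 0, 0, 0, 0], 2)]⟩

theorem tord8b_75_ok : tord8b_75.OK 8 := TT.leaf_ok (T := ttd8b_75) (by decide +kernel)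

/-- the torus -/
def ttd8b_76 : TT where
  k := 8
  rf := [false, false, false, true, false, true, true, true]
  tau := [8, 9, 7, 16, 23, 28, 17, 2, 0, 1, 15, 32, 39, 44, 33, 10, 3, 6, 29, 30, 53, 26, 27, 4, 51, 54, 21, 22, 5,
    18, 19, 52, 11, 14, 45, 46, 61, 42, 43, 12, 59, 62, 37, 38, 13, 34, 35, 60, 56, 57, 55, 24, 31, 20, 25, 50, 48,
    49, 63, 40, 47, 36, 41, 58]
  par := [0, 0, 3, 5, 11, 13, 20, 36]
  stars := [[0, 2, 9], [1, 8, 10], [3, 7, 17], [4, 16], [5, 23, 28], [6, 29, 18], [11, 15, 33], [12, 32], [13, 39,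
    44], [14, 45, 34], [19, 30], [20, 31, 53], [21, 54, 26], [22, 27], [24, 52], [25, 55, 51], [35, 46], [36, 47,
    61], [37, 62, 42], [38, 43], [40, 60], [41, 63, 59], [48, 57, 50], [49, 58, 56]]
  word := [[], [1, 2], [2, 1], [], [], [], [0, 3], [0, 3], [], [3, 0], [3, 0], [], [], [], [1, 2], [1, 2], [], [2,
    1], [2, 1], [2, 1], [], [], [], [], [0, 3], [], [], [], [], [0, 3], [0, 3], [0, 3], [], [3, 0], [3, 0], [3, 0],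
    [], [], [], [], [1, 2], [], [], [], [], [1, 2], [1, 2], [1, 2], [0], [2], [2, 1], [2, 1], [2, 1], [], [], [0, 3],
    [1], [3], [3, 0], [3, 0], [3, 0], [], [], [1, 2]]
  rank := [0, 11, 10, 0, 1, 0, 9, 10, 0, 11, 10, 0, 1, 0, 9, 10, 0, 9, 8, 7, 0, 3, 2, 1, 5, 4, 3, 2, 0, 8, 7, 6, 0,
    9, 8, 7, 0, 3, 2, 1, 5, 4, 3, 2, 0, 8, 7, 6, 0, 0, 1, 5, 6, 0, 4, 1, 0, 0, 1, 5, 6, 0, 4, 1]
  just := [0, 1, 2, 0, 3, 0, 5, 2, 0, 1, 6, 0, 7, 0, 9, 6, 0, 5, 10, 11, 0, 13, 4, 3, 15, 12, 13, 4, 0, 10, 11, 14,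
    0, 9, 16, 17, 0, 19, 8, 7, 21, 18, 19, 8, 0, 16, 17, 20, 0, 0, 22, 15, 14, 0, 12, 22, 0, 0, 23, 21, 20, 0, 18, 23]
  gA := 48
  gB := 49
  fin := 0
  sid := [0, 1, 0, 2, 3, 4, 5, 2, 1, 0, 1, 6, 7, 8, 9, 6, 3, 2, 5, 10, 11, 12, 13, 4, 14, 15, 12, 13, 4, 5, 10, 11,
    7, 6, 9, 16, 17, 18, 19, 8, 20, 21, 18, 19, 8, 9, 16, 17, 22, 23, 22, 15, 14, 11, 12, 15, 23, 22, 23, 21, 20, 17,
    18, 21]
  off := [(0, 0), (0, 0), (-1, 1), (0, 0), (0, 0), (0, 0), (0, 0), (1, -1), (0, 0), (0, 0), (1, -1), (0, 0), (0, 0),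
    (0, 0), (0, 0), (-1, 1), (0, 0), (0, 0), (-1, 1), (0, 0), (0, 0), (0, 0), (0, 0), (0, 0), (0, 0), (0, 0), (0, 0),
    (0, 0), (0, 0), (0, 0), (1, -1), (1, -1), (0, 0), (0, 0), (1, -1), (0, 0), (0, 0), (0, 0), (0, 0), (0, 0), (0,
    0), (0, 0), (0, 0), (0, 0), (0, 0), (0, 0), (-1, 1), (-1, 1), (0, 0), (0, 0), (-1, 1), (-1, 1), (-1, 1), (0, 0),
    (0, 0), (0, 0), (-1, 0), (-1, 0), (0, -1), (1, -1), (1, -1), (0, 0), (0, 0), (0, 0)]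

/-- glued arcs and equations -/
def tord8b_76 : TorT :=
  ⟨[(0, 0, true), (0, 3, true), (1, 1, true), (1, 6, true), (2, 5, false), (2, 7, true), (3, 6, false), (4, 5,
    false), (4, 7, true)],
    [([0, 0, 0, 0, 1, 1, 0, 1], 2), ([0, 0, 0, 1, 0, 0, 1, 0], 2), ([0, 0, 1, 0, 0, 1, 1, 0], 2), ([0, 1, 0, 1, 0, 0,
    0, 1], 2), ([1, 0, 0, 0, 1, 0, 0, 0], 2), ([1, 1, 1, 0, 0, 0, 0, 0], 2)]⟩

theorem tord8b_76_ok : tord8b_76.OK 8 := TT.leaf_ok (T := ttd8b_76) (by decide +kernel)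

/-- the torus -/
def ttd8b_77 : TT where
  k := 24
  rf := [false, false, false, false, false, false, false, false, false, false, false, false, false, false, false,
    false, false, false, false, false, false, false, false, false]
  tau := [9, 16, 23, 26, 25, 36, 35, 10, 41, 0, 7, 54, 53, 56, 63, 42, 1, 64, 71, 74, 73, 84, 83, 2, 37, 4, 3, 94,
    93, 96, 103, 38, 109, 116, 115, 6, 5, 24, 31, 110, 121, 8, 15, 130, 129, 140, 139, 122, 113, 80, 87, 58, 57, 12,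
    11, 114, 13, 52, 51, 146, 145, 156, 155, 14, 17, 120, 127, 166, 165, 168, 175, 18, 85, 20, 19, 178, 177, 148,
    147, 86, 49, 88, 95, 22, 21, 72, 79, 50, 81, 160, 167, 98, 97, 28, 27, 82, 29, 92, 91, 126, 125, 104, 111, 30,
    101, 124, 123, 118, 117, 32, 39, 102, 137, 48, 55, 34, 33, 108, 107, 138, 65, 40, 47, 106, 105, 100, 99, 66, 141,
    44, 43, 154, 153, 188, 187, 142, 161, 112, 119, 46, 45, 128, 135, 162, 157, 60, 59, 78, 77, 176, 183, 158, 189,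
    132, 131, 62, 61, 144, 151, 190, 89, 136, 143, 170, 169, 68, 67, 90, 69, 164, 163, 186, 185, 180, 179, 70, 149,
    76, 75, 174, 173, 184, 191, 150, 181, 172, 171, 134, 133, 152, 159, 182]
  par := [0, 0, 1, 3, 5, 8, 11, 13, 17, 19, 21, 27, 29, 32, 33, 40, 43, 45, 59, 61, 67, 69, 75, 133]
  stars := [[0, 10], [1, 9, 41, 121, 65, 17], [2, 16], [3, 23, 83, 95, 27], [4, 26], [5, 25, 37], [6, 36], [7, 35,
    115, 55, 11], [8, 42], [12, 54], [13, 53, 57], [14, 56], [15, 63, 155, 131, 43], [18, 64], [19, 71, 175, 179,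
    75], [20, 74], [21, 73, 85], [22, 84], [24, 38], [28, 94], [29, 93, 97], [30, 96], [31, 103, 111, 39], [32, 110],
    [33, 109, 117], [34, 116], [40, 122], [44, 130], [45, 129, 141], [46, 140], [47, 139, 119, 107, 123], [48, 114],
    [49, 113, 137, 161, 89, 81], [50, 80], [51, 87, 79, 147, 59], [52, 58], [60, 146], [61, 145, 157], [62, 156],
    [66, 120], [67, 127, 99, 91, 167], [68, 166], [69, 165, 169], [70, 168], [72, 86], [76, 178], [77, 177, 149],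
    [78, 148], [82, 88], [90, 160], [92, 98], [100, 126], [101, 125, 105], [102, 104], [106, 124], [108, 118], [112,
    138], [128, 142], [132, 154], [133, 153, 189], [134, 188], [135, 187, 171, 163, 143], [136, 162], [144, 158],
    [150, 176], [151, 183, 191, 159], [152, 190], [164, 170], [172, 186], [173, 185, 181], [174, 180], [182, 184]]
  word := [[], [], [], [], [], [], [], [0, 3, 1, 2], [], [], [3, 0, 2, 1], [], [], [], [], [], [], [], [], [], [],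
    [], [], [], [], [], [], [], [], [], [], [], [], [], [], [], [], [], [], [], [], [], [], [], [], [], [], [], [3,
    0, 2, 1], [3], [3], [], [], [], [], [3, 0, 2, 1], [], [], [], [], [], [], [], [], [], [], [], [], [], [], [], [],
    [], [], [], [], [], [2], [2], [], [2], [], [], [], [], [], [], [2], [], [0], [0], [], [], [], [], [], [], [], [],
    [0], [0], [], [], [], [], [0], [0], [], [], [], [], [], [0], [0, 3, 1, 2], [0, 3, 1, 2], [], [], [], [], [0], [],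
    [], [], [1], [1], [1], [1], [], [], [], [], [], [], [], [], [], [3], [1], [1], [], [], [], [], [3], [], [], [],
    [3], [3], [3], [3], [], [], [], [], [], [], [], [], [], [1], [2], [2], [], [], [], [], [1], [], [], [], [2], [2],
    [], [], [], [2], [], [], [], [], [2], [2], [2], [3], [3], [3], [], [], [], [], [3]]
  rank := [0, 0, 1, 0, 1, 0, 1, 14, 0, 0, 14, 0, 1, 0, 1, 1, 0, 0, 1, 0, 1, 0, 1, 1, 2, 1, 0, 0, 1, 0, 1, 3, 0, 0, 1,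
    1, 0, 2, 3, 1, 0, 0, 1, 0, 1, 0, 1, 1, 12, 11, 10, 3, 2, 1, 0, 13, 0, 2, 3, 0, 1, 0, 1, 1, 0, 1, 2, 0, 1, 0, 1,
    1, 2, 1, 0, 0, 1, 8, 9, 3, 11, 3, 2, 1, 0, 2, 3, 10, 3, 9, 8, 3, 2, 1, 0, 2, 0, 2, 3, 7, 6, 5, 4, 1, 5, 0, 1, 2,
    1, 0, 1, 4, 4, 12, 13, 1, 0, 1, 2, 3, 1, 0, 1, 1, 0, 6, 7, 2, 2, 1, 0, 2, 3, 0, 1, 3, 7, 4, 3, 1, 0, 2, 3, 6, 2,
    1, 0, 9, 8, 7, 6, 3, 4, 3, 2, 1, 0, 2, 3, 5, 9, 7, 6, 3, 2, 1, 0, 8, 0, 2, 3, 5, 4, 3, 2, 1, 7, 1, 0, 2, 3, 1, 0,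
    6, 1, 4, 5, 1, 0, 4, 5, 0]
  just := [0, 0, 2, 0, 4, 0, 6, 7, 0, 0, 7, 0, 9, 0, 11, 8, 0, 0, 13, 0, 15, 0, 17, 2, 5, 4, 0, 0, 19, 0, 21, 18, 0,
    0, 25, 6, 0, 5, 18, 23, 0, 0, 8, 0, 27, 0, 29, 26, 32, 33, 34, 35, 10, 9, 0, 31, 0, 10, 35, 0, 36, 0, 38, 11, 0,
    1, 39, 0, 41, 0, 43, 13, 16, 15, 0, 0, 45, 46, 47, 44, 33, 48, 3, 17, 0, 16, 44, 34, 48, 49, 40, 50, 20, 19, 0,
    3, 0, 20, 50, 51, 52, 53, 22, 21, 53, 0, 54, 55, 24, 0, 23, 22, 56, 32, 31, 25, 0, 24, 55, 30, 1, 0, 26, 54, 0,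
    52, 51, 39, 28, 27, 0, 12, 58, 0, 60, 57, 62, 56, 30, 29, 0, 28, 57, 61, 37, 36, 0, 47, 46, 64, 65, 63, 59, 58,
    12, 38, 0, 37, 63, 66, 49, 62, 61, 67, 42, 41, 0, 40, 0, 42, 67, 68, 69, 70, 14, 43, 64, 45, 0, 14, 70, 71, 0,
    65, 71, 69, 68, 60, 0, 59, 66, 0]
  gA := 105
  gB := 182
  fin := 0
  sid := [0, 1, 2, 3, 4, 5, 6, 7, 8, 1, 0, 7, 9, 10, 11, 12, 2, 1, 13, 14, 15, 16, 17, 3, 18, 5, 4, 3, 19, 20, 21,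
    22, 23, 24, 25, 7, 6, 5, 18, 22, 26, 1, 8, 12, 27, 28, 29, 30, 31, 32, 33, 34, 35, 10, 9, 7, 11, 10, 35, 34, 36,
    37, 38, 12, 13, 1, 39, 40, 41, 42, 43, 14, 44, 16, 15, 14, 45, 46, 47, 34, 33, 32, 48, 3, 17, 16, 44, 34, 48, 32,
    49, 40, 50, 20, 19, 3, 21, 20, 50, 40, 51, 52, 53, 22, 53, 52, 54, 30, 55, 24, 23, 22, 56, 32, 31, 7, 25, 24, 55,
    30, 39, 1, 26, 30, 54, 52, 51, 40, 57, 28, 27, 12, 58, 59, 60, 61, 62, 32, 56, 30, 29, 28, 57, 61, 63, 37, 36,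
    34, 47, 46, 64, 65, 66, 59, 58, 12, 38, 37, 63, 65, 49, 32, 62, 61, 67, 42, 41, 40, 43, 42, 67, 61, 68, 69, 70,
    14, 64, 46, 45, 14, 70, 69, 71, 65, 71, 69, 68, 61, 60, 59, 66, 65]
  off := [(0, 0), (0, 0), (0, 0), (0, 0), (0, 0), (0, 0), (0, 0), (0, 0), (0, 0), (0, 0), (0, 0), (0, 0), (0, 0), (0,
    0), (0, 0), (0, 0), (0, 0), (0, 0), (0, 0), (0, 0), (0, 0), (0, 0), (0, 0), (0, 0), (0, 0), (0, 0), (0, 0), (0,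
    0), (0, 0), (0, 0), (0, 0), (0, 0), (0, 0), (0, 0), (0, 0), (0, 0), (0, 0), (0, 0), (0, 0), (0, 0), (0, 0), (0,
    0), (0, 0), (0, 0), (0, 0), (0, 0), (0, 0), (0, 0), (0, 0), (0, 0), (0, 0), (0, 0), (0, 0), (0, 0), (0, 0), (0,
    0), (0, 0), (0, 0), (0, 0), (0, 0), (0, 0), (0, 0), (0, 0), (0, 0), (0, 0), (0, 0), (0, 0), (0, 0), (0, 0), (0,
    0), (0, 0), (0, 0), (0, 0), (0, 0), (0, 0), (0, 0), (0, 0), (0, 0), (0, 0), (0, 1), (0, 1), (0, 1), (0, 0), (0,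
    0), (0, 0), (0, 0), (0, 0), (0, 1), (0, 0), (0, 1), (0, 0), (1, 0), (0, 0), (0, 0), (0, 0), (0, 0), (0, 0), (0,
    0), (0, 0), (1, 0), (0, 0), (0, 0), (0, 0), (0, 0), (0, 0), (0, 0), (0, 0), (1, 0), (0, 0), (0, 0), (0, 0), (0,
    0), (0, 0), (0, 0), (0, 0), (0, 0), (0, 0), (0, 0), (0, 0), (1, 0), (0, 0), (0, 0), (0, 0), (0, 0), (-1, 0), (-1,
    0), (-1, 0), (0, 0), (0, 0), (0, 0), (0, 0), (0, 0), (0, 0), (0, 0), (0, 0), (0, 0), (0, 0), (-1, 0), (-1, 0),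
    (0, 0), (0, 0), (0, 0), (0, 0), (0, 0), (0, 0), (0, 0), (0, 0), (0, 0), (0, -1), (0, -1), (0, 0), (0, 0), (0, 0),
    (0, 0), (0, 0), (0, 0), (0, 0), (0, 0), (0, 0), (0, 0), (-1, 0), (-1, 1), (0, 1), (0, 1), (0, 0), (0, 0), (0, 0),
    (0, 0), (0, 0), (0, 0), (0, 0), (0, 1), (0, 0), (0, 0), (0, 0), (0, 0), (0, 1), (0, 0), (0, 0), (0, 0), (0, 0),
    (0, 0), (0, 0), (0, 1), (0, -1), (0, -1), (0, -1), (0, 0), (0, 0), (0, 0), (0, 0), (0, 0)]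

/-- glued arcs and equations -/
def tord8b_77 : TorT :=
  ⟨[(0, 1, true), (0, 5, true), (1, 4, true), (2, 3, true), (2, 7, true), (3, 6, true), (4, 5, true), (6, 7, true)],
    [([0, 0, 0, 0, 0, 0, 0, 4], 2), ([0, 0, 0, 0, 1, 0, 1, 0], 2), ([0, 0, 0, 3, 0, 0, 0, 2], 2), ([0, 0, 1, 0, 1, 0,
    0, 0], 2), ([0, 1, 0, 0, 0, 2, 0, 0], 2), ([0, 6, 0, 0, 0, 0, 0, 0], 2), ([1, 0, 0, 0, 0, 0, 1, 0], 2), ([1, 0,
    1, 0, 0, 0, 0, 0], 2)]⟩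

theorem tord8b_77_ok : tord8b_77.OK 8 := TT.leaf_ok (T := ttd8b_77) (by decide +kernel)

end Pool.Agent.Lib_MP_fa6e45
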