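import Pool.Agent.Lib_MP_fa6e45.DQA
import Pool.Agent.Lib_MP_fa6e45.DQ8b_0_0
import Pool.Agent.Lib_MP_fa6e45.DQ8b_0_1
import Pool.Agent.Lib_MP_fa6e45.DQ8b_0_2
import Pool.Agent.Lib_MP_fa6e45.DQ8b_0_3
import Pool.Agent.Lib_MP_fa6e45.DQ8b_0_4
import Pool.Agent.Lib_MP_fa6e45.DQ8b_0_5
import Pool.Agent.Lib_MP_fa6e45.DQ8b_0_6
import Pool.Agent.Lib_MP_fa6e45.DQ8b_0_7
import Pool.Agent.Lib_MP_fa6e45.DQ8b_0_8

/-!
MP_fa6e45_co, stage 9: straight-side patterns with `8` sides, a certificate (generated by a program).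
-/

namespace Pool.Agent.Lib_MP_fa6e45

/-- nodes -/
noncomputable def cD8b_337_n : List (QG PN) :=
  cD8b_337_n0 ++ (cD8b_337_n1 ++ (cD8b_337_n2 ++ (cD8b_337_n3 ++ (cD8b_337_n4 ++ (cD8b_337_n5 ++ (
    cD8b_337_n6 ++ (cD8b_337_n7 ++ cD8b_337_n8)))))))

theorem cD8b_337_ok :
    allI (chkG (ckP 8 ttD8b cD8b_337_w cD8b_337_s) 8 cD8b_337_w 2 cD8b_337_s cD8b_337_t (bl3 [] cD8b_337_D)) cD8b_337_n 0 = true := by
  refine allI_appQ (k := 84) cD8b_337_k0 (by decide +kernel) ?_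
  refine allI_appQ (k := 73) cD8b_337_k1 (by decide +kernel) ?_
  refine allI_appQ (k := 62) cD8b_337_k2 (by decide +kernel) ?_
  refine allI_appQ (k := 67) cD8b_337_k3 (by decide +kernel) ?_
  refine allI_appQ (k := 61) cD8b_337_k4 (by decide +kernel) ?_
  refine allI_appQ (k := 58) cD8b_337_k5 (by decide +kernel) ?_
  refine allI_appQ (k := 71) cD8b_337_k6 (by decide +kernel) ?_
  refine allI_appQ (k := 73) cD8b_337_k7 (by decide +kernel) ?_
  exact cD8b_337_k8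

theorem cD8b_337 : NodeU 8 cD8b_337_w [] :=
  nodeG_of (C := 2) (sy := cD8b_337_s) (st := cD8b_337_t) (D := cD8b_337_D) (Ns := cD8b_337_n) (by norm_num) (by norm_num)
    ttD8b_ok (by decide +kernel) (by decide +kernel) cD8b_337_ok

theorem sD8b_0 : Solved 8 [cD8b_337_w] :=
  Solved.cons cD8b_337 Solved.nil

end Pool.Agent.Lib_MP_fa6e45
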