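import Pool.Agent.Lib_MP_fa6e45.DQA
import Pool.Agent.Lib_MP_fa6e45.DQ8b_11_0
import Pool.Agent.Lib_MP_fa6e45.DQ8b_11_1
import Pool.Agent.Lib_MP_fa6e45.DQ8b_11_2
import Pool.Agent.Lib_MP_fa6e45.DQ8b_11_3
import Pool.Agent.Lib_MP_fa6e45.DQ8b_11_4
import Pool.Agent.Lib_MP_fa6e45.DQ8b_11_5
import Pool.Agent.Lib_MP_fa6e45.DQ8b_11_6
import Pool.Agent.Lib_MP_fa6e45.DQ8b_11_7
import Pool.Agent.Lib_MP_fa6e45.DQ8b_11_8
import Pool.Agent.Lib_MP_fa6e45.DQ8b_11_9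
import Pool.Agent.Lib_MP_fa6e45.DQ8b_11_10
import Pool.Agent.Lib_MP_fa6e45.DQ8b_11_11

/-!
MP_fa6e45_co, stage 9: straight-side patterns with `8` sides, a certificate (generated by a program).
-/

namespace Pool.Agent.Lib_MP_fa6e45

/-- nodes -/
noncomputable def cD8b_348_n : List (QG PN) :=
  cD8b_348_n0 ++ (cD8b_348_n1 ++ (cD8b_348_n2 ++ (cD8b_348_n3 ++ (cD8b_348_n4 ++ (cD8b_348_n5 ++ (
    cD8b_348_n6 ++ (cD8b_348_n7 ++ (cD8b_348_n8 ++ (cD8b_348_n9 ++ (cD8b_348_n10 ++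
    cD8b_348_n11))))))))))

theorem cD8b_348_ok :
    allI (chkG (ckP 8 ttD8b cD8b_348_w cD8b_348_s) 8 cD8b_348_w 2 cD8b_348_s cD8b_348_t (bl3 [] cD8b_348_D)) cD8b_348_n 0 = true := by
  refine allI_appQ (k := 84) cD8b_348_k0 (by decide +kernel) ?_
  refine allI_appQ (k := 70) cD8b_348_k1 (by decide +kernel) ?_
  refine allI_appQ (k := 80) cD8b_348_k2 (by decide +kernel) ?_
  refine allI_appQ (k := 64) cD8b_348_k3 (by decide +kernel) ?_
  refine allI_appQ (k := 72) cD8b_348_k4 (by decide +kernel) ?_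
  refine allI_appQ (k := 68) cD8b_348_k5 (by decide +kernel) ?_
  refine allI_appQ (k := 81) cD8b_348_k6 (by decide +kernel) ?_
  refine allI_appQ (k := 69) cD8b_348_k7 (by decide +kernel) ?_
  refine allI_appQ (k := 73) cD8b_348_k8 (by decide +kernel) ?_
  refine allI_appQ (k := 66) cD8b_348_k9 (by decide +kernel) ?_
  refine allI_appQ (k := 64) cD8b_348_k10 (by decide +kernel) ?_
  exact cD8b_348_k11

theorem cD8b_348 : NodeU 8 cD8b_348_w [] :=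
  nodeG_of (C := 2) (sy := cD8b_348_s) (st := cD8b_348_t) (D := cD8b_348_D) (Ns := cD8b_348_n) (by norm_num) (by norm_num)
    ttD8b_ok (by decide +kernel) (by decide +kernel) cD8b_348_ok

theorem sD8b_11 : Solved 8 [cD8b_348_w] :=
  Solved.cons cD8b_348 Solved.nil

end Pool.Agent.Lib_MP_fa6e45
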