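import Pool.Agent.Lib_MP_fa6e45.DQA
import Pool.Agent.Lib_MP_fa6e45.DQ8b_15_0
import Pool.Agent.Lib_MP_fa6e45.DQ8b_15_1

/-!
MP_fa6e45_co, stage 9: straight-side patterns with `8` sides, a certificate (generated by a program).
-/

namespace Pool.Agent.Lib_MP_fa6e45

/-- nodes -/
noncomputable def cD8b_352_n : List (QG PN) :=
  cD8b_352_n0 ++ cD8b_352_n1

theorem cD8b_352_ok :
    allI (chkG (ckP 8 ttD8b cD8b_352_w cD8b_352_s) 8 cD8b_352_w 2 cD8b_352_s cD8b_352_t (bl3 [] cD8b_352_D)) cD8b_352_n 0 = true := by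
  refine allI_appQ (k := 88) cD8b_352_k0 (by decide +kernel) ?_
  exact cD8b_352_k1

theorem cD8b_352 : NodeU 8 cD8b_352_w [] :=
  nodeG_of (C := 2) (sy := cD8b_352_s) (st := cD8b_352_t) (D := cD8b_352_D) (Ns := cD8b_352_n) (by norm_num) (by norm_num)
    ttD8b_ok (by decide +kernel) (by decide +kernel) cD8b_352_ok

theorem sD8b_15 : Solved 8 [cD8b_352_w] :=
  Solved.cons cD8b_352 Solved.nil

end Pool.Agent.Lib_MP_fa6e45
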