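import Pool.Agent.Lib_MP_fa6e45.DQ8b_7d
import Pool.Agent.Lib_MP_fa6e45.DQ8bT

/-!
MP_fa6e45_co, stage 9: straight-side patterns with `8` sides, part of a certificate (generated by a program).
-/

namespace Pool.Agent.Lib_MP_fa6e45

/-- nodes -/
noncomputable def cD8b_344_n2 : List (QG PN) :=
  [.q (.old [([z3,z0,z0,z0,z0,z0,z0,z0],z1),([z0,z0,z0,z0,z3,z0,z0,z0],z1),([z0,z0,z0,z0,z0,z0,z0,z3],z1),([z0,z0,z3,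
    z0,z0,z0,z0,z0],z2),([z0,z0,z0,z3,z0,z0,z0,z0],z2),([z0,z0,z0,z0,z0,z3,z0,z0],z2),([z0,z3,z0,z0,z0,z0,z0,z0],z4)]
    (.z (.x (.lp [(nat_lit 21839),(nat_lit 25931),(nat_lit 19855),(nat_lit 18739),(nat_lit 27171),(nat_lit 22831),
    (nat_lit 24939),(nat_lit 11423)] [(nat_lit 2666),(nat_lit 2666),(nat_lit 620),(nat_lit 620),(nat_lit 5952),
    (nat_lit 1364),(nat_lit 4216),(nat_lit 4216),k0,k0,(nat_lit 2170),(nat_lit 2170),(nat_lit 1116),(nat_lit 1116),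
    (nat_lit 7874),(nat_lit 7874)] k0 [[k0,k0,k0,(nat_lit 12276),(nat_lit 12276),(nat_lit 5332),k0,k0,k0,
    (nat_lit 5332)],[k0,k0,k0,(nat_lit 1364),k0,k0,k0,k0,k0,k0,k0,(nat_lit 9052)],[(nat_lit 1364),(nat_lit 12276)],
    [k0,k0,k0,k0,k0,k0,k0,k0,k0,(nat_lit 18352),(nat_lit 3968)],[k0,(nat_lit 5332),k0,k0,k0,(nat_lit 744)],[k0,
    (nat_lit 12276)],[k0,k0,k0,k0,k0,k0,k0,k0,k0,k0,k0,k0,(nat_lit 2232),(nat_lit 4464)],[],[k0,(nat_lit 5332),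
    (nat_lit 18352)],[k0,k0,k0,k0,k0,k0,k0,k0,(nat_lit 5208),k0,k0,(nat_lit 3720)],[(nat_lit 9052),k0,k0,k0,k0,k0,k0,
    k0,(nat_lit 3720)],[k0,k0,(nat_lit 3968)],[k0,k0,k0,k0,k0,k0,k0,(nat_lit 4464),k0,k0,k0,k0,k0,k0,k0,
    (nat_lit 4464)],[k0,k0,k0,k0,k0,k0,k0,(nat_lit 2232),k0,k0,k0,k0,k0,k0,k0,(nat_lit 2232)],[k0,k0,k0,k0,k0,k0,k0,
    k0,k0,k0,k0,k0,(nat_lit 2232),(nat_lit 4464)]] (nat_lit 59520) k8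
    [[(k14,(nat_lit 16631)),(k6,(nat_lit 20289)),(k15,(nat_lit 21095)),(k1,(nat_lit 21839)),(k9,(nat_lit 24505)),(k12,
    (nat_lit 25621))],[(k7,(nat_lit 8013)),(k2,(nat_lit 11609)),(k4,(nat_lit 13221)),(k8,(nat_lit 19173)),(k0,
    (nat_lit 21839)),(k10,(nat_lit 22335)),(k11,(nat_lit 22335)),(k3,(nat_lit 23885)),(k5,(nat_lit 24505)),(k13,
    (nat_lit 32441))],[(k10,(nat_lit 15329)),(k0,(nat_lit 23885)),(k2,(nat_lit 24567)),(k13,(nat_lit 25435)),(k3,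
    (nat_lit 25931)),(k8,(nat_lit 26551)),(k7,(nat_lit 27667)),(k11,(nat_lit 29713)),(k4,(nat_lit 32875)),(k5,
    (nat_lit 37463))],[(k0,(nat_lit 11609)),(k4,(nat_lit 20599)),(k7,(nat_lit 22335)),(k3,(nat_lit 24567)),(k5,
    (nat_lit 25187)),(k13,(nat_lit 25435)),(k2,(nat_lit 25931)),(k8,(nat_lit 26551)),(k10,(nat_lit 28349)),(k11,
    (nat_lit 42733))],[(k8,(nat_lit 7455)),(k4,(nat_lit 19855)),(k13,(nat_lit 20723)),(k7,(nat_lit 21591)),(k10,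
    (nat_lit 23637)),(k11,(nat_lit 23637)),(k5,(nat_lit 24443)),(k0,(nat_lit 24505)),(k2,(nat_lit 25187)),(k3,
    (nat_lit 37463))],[(k0,(nat_lit 13221)),(k4,(nat_lit 14523)),(k7,(nat_lit 17003)),(k10,(nat_lit 19049)),(k11,
    (nat_lit 19049)),(k5,(nat_lit 19855)),(k13,(nat_lit 20103)),(k2,(nat_lit 20599)),(k8,(nat_lit 21219)),(k3,
    (nat_lit 32875))],[(k0,(nat_lit 8013)),(k4,(nat_lit 17003)),(k7,(nat_lit 19483)),(k10,(nat_lit 20785)),(k11,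
    (nat_lit 20785)),(k5,(nat_lit 21591)),(k13,(nat_lit 21839)),(k2,(nat_lit 22335)),(k8,(nat_lit 22955)),(k3,
    (nat_lit 27667))],[(k15,(nat_lit 12849)),(k14,(nat_lit 15081)),(k12,(nat_lit 17375)),(k6,(nat_lit 18739)),(k1,
    (nat_lit 20289)),(k9,(nat_lit 22955))],[(k14,(nat_lit 19297)),(k6,(nat_lit 22955)),(k15,(nat_lit 23761)),(k1,
    (nat_lit 24505)),(k9,(nat_lit 27171)),(k12,(nat_lit 28287))],[(k5,(nat_lit 7455)),(k0,(nat_lit 19173)),(k4,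
    (nat_lit 21219)),(k7,(nat_lit 22955)),(k10,(nat_lit 25001)),(k11,(nat_lit 25001)),(k2,(nat_lit 26551)),(k3,
    (nat_lit 26551)),(k13,(nat_lit 29775)),(k8,(nat_lit 32379))],[(k11,(nat_lit 17623)),(k4,(nat_lit 19049)),(k10,
    (nat_lit 19111)),(k7,(nat_lit 20785)),(k0,(nat_lit 22335)),(k5,(nat_lit 23637)),(k13,(nat_lit 23885)),(k8,
    (nat_lit 25001)),(k3,(nat_lit 29713)),(k2,(nat_lit 42733))],[(k3,(nat_lit 15329)),(k4,(nat_lit 19049)),(k11,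
    (nat_lit 19111)),(k7,(nat_lit 20785)),(k0,(nat_lit 22335)),(k10,(nat_lit 22831)),(k5,(nat_lit 23637)),(k13,
    (nat_lit 23885)),(k8,(nat_lit 25001)),(k2,(nat_lit 28349))],[(k4,(nat_lit 20103)),(k5,(nat_lit 20723)),(k7,
    (nat_lit 21839)),(k10,(nat_lit 23885)),(k11,(nat_lit 23885)),(k13,(nat_lit 24939)),(k2,(nat_lit 25435)),(k3,
    (nat_lit 25435)),(k8,(nat_lit 29775)),(k0,(nat_lit 32441))],[(k14,(nat_lit 13717)),(k6,(nat_lit 17375)),(k15,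
    (nat_lit 18181)),(k12,(nat_lit 24939)),(k1,(nat_lit 25621)),(k9,(nat_lit 28287))],[(k14,(nat_lit 9191)),(k15,
    (nat_lit 11423)),(k6,(nat_lit 12849)),(k12,(nat_lit 18181)),(k1,(nat_lit 21095)),(k9,(nat_lit 23761))],[(k15,
    (nat_lit 9191)),(k14,(nat_lit 11423)),(k12,(nat_lit 13717)),(k6,(nat_lit 15081)),(k1,(nat_lit 16631)),(k9,
    (nat_lit 19297))]]
    [[k0,k1,k2],[k0,k1,k3],[k0,k1,k7,k6],[k0,k6,k0,k6],[k0,k12],[k0,k14,k14,k14,k6],[k1,k7,k1,k7],[k1,k7,k15,k15,k15],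
    [k1,k13],[k2,k4],[k2,k5],[k2,k10],[k2,k11],[k3,k4],[k3,k5],[k3,k10],[k3,k11],[k4,k4,k5],[k4,k5,k4],[k4,k5,k5],[k4,
    k5,k10],[k4,k5,k11],[k4,k7,k6],[k4,k8,k9,k5],[k4,k8,k14,k6],[k4,k8,k14,k15,k9],[k5,k7,k6],[k5,k7,k15,k9],[k5,k8,
    k14,k15,k9],[k6,k7,k14,k14],[k6,k7,k14,k15],[k6,k7,k15,k14],[k6,k7,k15,k15],[k6,k10,k7],[k6,k11,k7],[k8,k12],[k9,
    k13],[k10,k10,k10],[k11,k11,k11],[k14,k14,k14,k14,k14,k14],[k15,k15,k15,k15,k15,k15]]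
    ⟨[[[k0,k1,k2],[k0,k1,k3],[k0,k1,k7,k6],[k0,k6,k0,k6],[k0,k12],[k0,k14,k14,k14,k6],[k1,k2,k0],[k1,k3,k0],[k1,k7,k1,
    k7],[k1,k7,k6,k0],[k1,k7,k15,k15,k15],[k1,k13]],
    [[k2,k0,k1],[k2,k4],[k2,k5],[k2,k10],[k2,k11],[k3,k0,k1],[k3,k4],[k3,k5],[k3,k10],[k3,k11],[k4,k2],[k4,k3]],
    [[k4,k4,k5],[k4,k5,k4],[k4,k5,k5],[k4,k5,k10],[k4,k5,k11],[k4,k7,k6],[k4,k8,k9,k5],[k4,k8,k14,k6],[k4,k8,k14,k15,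
    k9],[k5,k2],[k5,k3],[k5,k4,k4]],
    [[k5,k4,k5],[k5,k4,k8,k9],[k5,k5,k4],[k5,k7,k6],[k5,k7,k15,k9],[k5,k8,k14,k15,k9],[k5,k10,k4],[k5,k11,k4],[k6,k0,
    k1,k7],[k6,k0,k6,k0],[k6,k0,k14,k14,k14],[k6,k4,k7]],
    [[k6,k4,k8,k14],[k6,k5,k7],[k6,k7,k14,k14],[k6,k7,k14,k15],[k6,k7,k15,k14],[k6,k7,k15,k15],[k6,k10,k7],[k6,k11,
    k7],[k7,k1,k7,k1],[k7,k6,k0,k1],[k7,k6,k4],[k7,k6,k5]],
    [[k7,k6,k10],[k7,k6,k11],[k7,k14,k14,k6],[k7,k14,k15,k6],[k7,k15,k9,k5],[k7,k15,k14,k6],[k7,k15,k15,k6],[k7,k15,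
    k15,k15,k1],[k8,k9,k5,k4],[k8,k12],[k8,k14,k6,k4],[k8,k14,k15,k9,k4]],
    [[k8,k14,k15,k9,k5],[k9,k4,k8,k14,k15],[k9,k5,k4,k8],[k9,k5,k7,k15],[k9,k5,k8,k14,k15],[k9,k13],[k10,k2],[k10,k3],
    [k10,k4,k5],[k10,k7,k6],[k10,k10,k10],[k11,k2]],
    [[k11,k3],[k11,k4,k5],[k11,k7,k6],[k11,k11,k11],[k12,k0],[k12,k8],[k13,k1],[k13,k9],[k14,k6,k0,k14,k14],[k14,k6,
    k4,k8],[k14,k6,k7,k14],[k14,k6,k7,k15]],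
    [[k14,k14,k6,k0,k14],[k14,k14,k6,k7],[k14,k14,k14,k6,k0],[k14,k14,k14,k14,k14,k14],[k14,k15,k6,k7],[k14,k15,k9,k4,
    k8],[k14,k15,k9,k5,k8],[k15,k1,k7,k15,k15],[k15,k6,k7,k14],[k15,k6,k7,k15],[k15,k9,k4,k8,k14],[k15,k9,k5,k7]],
    [[k15,k9,k5,k8,k14],[k15,k14,k6,k7],[k15,k15,k1,k7,k15],[k15,k15,k6,k7],[k15,k15,k15,k1,k7],[k15,k15,k15,k15,k15,
    k15]]],
    [[k6,k7,k9,k45,k88,k98,k12,k17,k56,k57,k67,k90],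
    [k0,k22,k33,k78,k83,k1,k23,k34,k79,k84,k13,k18],
    [k25,k35,k38,k42,k43,k58,k68,k70,k71,k14,k19,k24],
    [k26,k30,k36,k59,k64,k72,k80,k85,k2,k3,k5,k29],
    [k31,k39,k62,k63,k65,k66,k81,k86,k8,k44,k47,k49],
    [k54,k55,k97,k100,k107,k109,k111,k112,k74,k89,k93,k101],
    [k102,k32,k37,k40,k41,k91,k15,k20,k27,k60,k82,k16],
    [k21,k28,k61,k87,k4,k69,k11,k77,k46,k48,k50,k52],
    [k92,k94,k96,k99,k104,k106,k108,k10,k51,k53,k73,k75],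
    [k76,k95,k103,k105,k110,k113]],
    [[k12,k17,k44,k45,k88,k46,k0,k1,k56,k2,k103,k90],
    [k6,k22,k33,k78,k83,k7,k23,k34,k79,k84,k13,k18],
    [k35,k24,k36,k80,k85,k47,k37,k48,k73,k14,k19,k25],
    [k38,k74,k26,k49,k75,k76,k27,k28,k57,k3,k92,k58],
    [k93,k59,k94,k104,k95,k105,k60,k61,k8,k9,k29,k39],
    [k81,k86,k50,k51,k40,k52,k53,k10,k30,k89,k31,k32],
    [k41,k106,k68,k107,k108,k91,k15,k20,k42,k54,k82,k16],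
    [k21,k43,k55,k87,k4,k69,k11,k77,k96,k70,k97,k109],
    [k98,k62,k5,k99,k63,k71,k72,k110,k100,k111,k101,k64],
    [k102,k65,k112,k66,k67,k113]],
    [[[k95],[k95],[k95],[k93,k101,k102],[k92,k94,k96,k99],[k98],[k18],[k17],[k19],[k19],[k19],[k21]],
    [[k0],[k2,k3,k5],[k1],[k4],[],[k33],[k39],[k34],[],[k37,k40,k41],[k13],[k12]],
    [[],[],[],[],[],[k14],[k15],[k15],[k15],[k58],[k56,k57,k67],[k62,k63,k65,k66]],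
    [[k62,k63,k65,k66],[k62,k63,k65,k66],[],[k59,k64],[k59,k64],[k60],[],[],[k22],[k22],[k22],[k29,k31]],
    [[k29,k31],[k23],[k24,k26,k30],[k24,k26,k30],[k24,k26,k30],[k24,k26,k30],[],[k32],[k73,k75,k76],[k74],[k74],
    [k74]],
    [[k74],[k74],[],[],[k77],[k77],[k77],[k77],[k44,k47,k49,k54,k55],[k46,k48,k50,k52],[k45],[k45]],
    [[k45],[k86],[k84],[k84],[k84],[k87],[k68,k70,k71],[],[],[k72],[k69],[]],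
    [[k90],[],[],[k91],[k78],[k82],[k103,k105,k110,k113],[k107,k109,k111,k112],[k89],[k89],[k89],[k89]],
    [[k88],[k88],[k88],[k88],[],[],[],[k10],[],[],[k8],[k8]],
    [[k8],[k6,k7,k9],[k11],[k11],[k11],[k11]]],k114⟩ k3 k1 (nat_lit 729)
    [[k2,k0,k0,k0,k0,k0,k0,k0],[k1,k0,k0,k1,k0,k0,k0,k0],[k1,k0,k1,k1,k0,k0,k0,k0],[k1,k0,k0,k0,k1,k0,k0,k0],[k1,k0,
    k1,k0,k1,k0,k0,k0],[k1,k0,k0,k1,k0,k0,k0,k1],[k1,k0,k0,k1,k0,k0,k0,k2],[k0,k2,k0,k0,k0,k0,k0,k0],[k0,k0,k2,k0,k0,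
    k0,k0,k0],[k0,k0,k1,k1,k0,k0,k1,k0],[k0,k0,k1,k1,k1,k0,k0,k0],[k0,k0,k1,k0,k2,k0,k0,k0],[k0,k0,k1,k0,k1,k0,k1,k0],
    [k0,k0,k1,k0,k0,k1,k0,k0],[k0,k0,k0,k2,k0,k0,k0,k0],[k0,k0,k0,k2,k0,k0,k0,k1],[k0,k0,k0,k1,k1,k0,k0,k0],[k0,k0,k0,
    k1,k1,k0,k0,k1],[k0,k0,k0,k1,k0,k0,k1,k0],[k0,k0,k0,k1,k0,k0,k1,k1],[k0,k0,k0,k1,k0,k0,k1,k2],[k0,k0,k0,k0,k0,k2,
    k0,k0],[k0,k0,k0,k0,k0,k0,k2,k0],[k0,k0,k0,k0,k0,k0,k2,k1],[k0,k0,k0,k0,k0,k0,k0,k2],[k0,k0,k0,k0,k0,k0,k0,k3],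
    [k0,k0,k0,k0,k0,k0,k0,k4],[k0,k0,k0,k0,k0,k0,k0,k5]]
    [.contra [z1],.contra [y3,z1,z0,z0,z0,z1],.contra [y3,z1,z0,z0,z1,z1],.contra [y3,z1,z1],.contra [y3,z1,z1,z0,z1],
    .contra [y3,z1,z0,z1,z0,z1],.contra [y3,z1,z0,z2,z0,z1],.contra [z1],.contra [z1],.contra [y3,y1,y1,y1,z0,z0,y1,
    y1,z3],.contra [y3,z0,z1,z0,z1,z1],.contra [y3,z0,z2,z0,z1],.contra [y3,y1,z0,y1,z0,y1,y1,y1,z3],.contra [y3,z0,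
    z0,z0,z1,z0,z1],.contra [z1],.contra [y3,z0,z0,z1,z0,z2],.contra [y3,z0,z1,z0,z0,z1],.contra [y3,z0,z1,z1,z0,z1],
    .contra [y3,y1,y1,y1,y1,z0,y1,y1,z3],.contra [y3,y1,y1,z0,y1,z0,y1,y1,z3],.contra [y3,y1,y1,z1,y1,z0,y1,y1,z3],
    .contra [z1],.contra [z1],.contra [y3,y2,y2,y1,y2,y2,y2,y2,z6],.contra [z1],.contra [y1,z0,z0,z1],.contra [y3,z0,
    z0,z4],.contra [y3,z0,z0,z5]]))))]

theorem cD8b_344_k2 :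
    allI (chkG (ckP 8 ttD8b cD8b_344_w cD8b_344_s) 8 cD8b_344_w 2 cD8b_344_s cD8b_344_t (bl3 [] cD8b_344_D)) cD8b_344_n2 92 = true := by
  decide +kernel

end Pool.Agent.Lib_MP_fa6e45
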