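import Pool.Agent.Lib_MP_fa6e45.CT5

/-!
MP_fa6e45_co, stage 9: straight-side patterns with `8` sides, tables of tori (generated by a program).
-/

namespace Pool.Agent.Lib_MP_fa6e45

/-- the torus -/
def ttd8c_6 : TT where
  k := 4
  rf := [false, false, true, true]
  tau := [8, 16, 17, 18, 28, 13, 21, 31, 0, 24, 25, 26, 20, 5, 29, 23, 1, 2, 3, 27, 12, 6, 30, 15, 9, 10, 11, 19, 4,
    14, 22, 7]
  par := [0, 0, 1, 4]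
  stars := [[0, 24, 9], [1, 8, 16], [2, 17], [3, 18], [4, 19, 28], [5, 29, 14], [6, 13, 21], [7, 22, 31], [10, 25],
    [11, 26], [12, 27, 20], [15, 30, 23]]
  word := [[], [], [], [], [], [3], [3, 0], [3, 0, 2], [], [0], [0], [0], [0], [2], [2], [], [], [], [], [], [1], [1,
    2], [2], [], [1], [1], [1], [], [], [3], [3], [3, 1, 2]]
  rank := [0, 0, 1, 2, 0, 1, 5, 6, 0, 2, 1, 0, 4, 1, 0, 1, 0, 1, 2, 3, 4, 5, 2, 1, 2, 1, 0, 3, 0, 0, 2, 6]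
  just := [0, 0, 2, 3, 0, 5, 6, 7, 0, 8, 9, 0, 10, 5, 0, 1, 0, 2, 3, 4, 10, 6, 11, 1, 8, 9, 0, 4, 0, 0, 11, 7]
  gA := 11
  gB := 14
  fin := 0
  sid := [0, 1, 2, 3, 4, 5, 6, 7, 1, 0, 8, 9, 10, 6, 5, 11, 1, 2, 3, 4, 10, 6, 7, 11, 0, 8, 9, 10, 4, 5, 11, 7]
  off := [(0, 0), (0, 0), (0, 0), (0, 0), (0, 0), (0, 0), (0, 0), (0, 0), (0, 0), (0, 0), (0, 0), (0, 0), (0, 0), (0,
    1), (0, 1), (0, 0), (0, 0), (0, 0), (0, 0), (0, 0), (-1, 0), (-1, 1), (-1, 1), (0, 0), (-1, 0), (-1, 0), (-1, 0),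
    (-1, 0), (0, 0), (0, 0), (0, -1), (-1, 0)]

/-- glued arcs and equations -/
def tord8c_6 : TorT :=
  ⟨[(0, 0, true), (0, 1, false), (1, 2, false), (2, 3, false), (3, 3, true), (4, 4, false), (5, 5, true), (5, 6,
    false), (6, 6, true), (7, 7, false)],
    [([0, 0, 0, 0, 0, 0, 1, 2], 2), ([0, 0, 0, 0, 0, 2, 1, 0], 2), ([0, 0, 0, 1, 2, 0, 0, 0], 2), ([0, 0, 1, 1, 0, 0,
    0, 0], 2), ([0, 1, 1, 0, 0, 0, 0, 0], 2), ([2, 1, 0, 0, 0, 0, 0, 0], 2)]⟩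

theorem tord8c_6_ok : tord8c_6.OK 8 := TT.leaf_ok (T := ttd8c_6) (by decide +kernel)

/-- the torus -/
def ttd8c_7 : TT where
  k := 4
  rf := [false, true, false, true]
  tau := [10, 17, 27, 13, 14, 24, 25, 23, 21, 22, 0, 18, 28, 3, 4, 31, 26, 1, 11, 29, 30, 8, 9, 7, 5, 6, 16, 2, 12,
    19, 20, 15]
  par := [0, 0, 1, 2]
  stars := [[0, 23, 10], [1, 11, 18], [2, 17, 27], [3, 28, 13], [4, 14], [5, 15, 24], [6, 25], [7, 26, 16], [8, 21,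
    31], [9, 22], [12, 29, 19], [20, 30]]
  word := [[], [], [], [1], [1], [1, 2], [1, 2], [1, 2], [2, 1], [2, 1], [], [], [0], [0], [0], [2], [], [], [], [0],
    [0], [0, 3], [0, 3], [3, 0], [3, 0], [3, 0], [], [], [1], [1], [1], [3]]
  rank := [0, 0, 0, 1, 2, 3, 4, 5, 4, 5, 0, 1, 0, 1, 2, 0, 1, 0, 1, 2, 3, 4, 5, 5, 3, 4, 1, 0, 0, 2, 3, 0]
  just := [0, 0, 0, 3, 4, 5, 6, 7, 8, 9, 0, 1, 0, 3, 4, 0, 2, 0, 1, 10, 11, 8, 9, 7, 5, 6, 2, 0, 0, 10, 11, 0]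
  gA := 12
  gB := 15
  fin := 0
  sid := [0, 1, 2, 3, 4, 5, 6, 7, 8, 9, 0, 1, 10, 3, 4, 5, 7, 2, 1, 10, 11, 8, 9, 0, 5, 6, 7, 2, 3, 10, 11, 8]
  off := [(0, 0), (0, 0), (0, 0), (0, 0), (0, 0), (0, 0), (0, 0), (0, 0), (0, 0), (0, 0), (0, 0), (0, 0), (0, 0), (1,
    0), (1, 0), (1, 0), (1, -1), (0, 0), (0, 0), (0, 0), (0, 0), (1, -1), (1, -1), (1, -1), (1, -1), (1, -1), (1,
    -1), (0, 0), (0, 0), (-1, 0), (-1, 0), (0, -1)]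

/-- glued arcs and equations -/
def tord8c_7 : TorT :=
  ⟨[(0, 2, false), (0, 5, false), (1, 1, true), (1, 6, false), (2, 3, false), (3, 5, false), (4, 4, true), (4, 6,
    false), (7, 7, true)],
    [([0, 0, 0, 0, 1, 0, 1, 0], 2), ([0, 0, 0, 1, 1, 1, 0, 0], 2), ([0, 1, 0, 0, 0, 0, 1, 0], 2), ([0, 1, 1, 1, 0, 0,
    0, 0], 2), ([1, 0, 0, 0, 0, 1, 0, 1], 2), ([1, 0, 1, 0, 0, 0, 0, 1], 2)]⟩

theorem tord8c_7_ok : tord8c_7.OK 8 := TT.leaf_ok (T := ttd8c_7) (by decide +kernel)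

/-- the torus -/
def ttd8c_8 : TT where
  k := 6
  rf := [false, false, false, true, false, true]
  tau := [12, 18, 29, 30, 38, 37, 36, 47, 26, 44, 33, 19, 0, 40, 41, 23, 42, 28, 1, 11, 32, 24, 25, 15, 21, 22, 8,
    43, 17, 2, 3, 39, 20, 10, 45, 46, 6, 5, 4, 31, 13, 14, 16, 27, 9, 34, 35, 7]
  par := [0, 0, 1, 2, 4, 7]
  stars := [[0, 40, 13], [1, 12, 19], [2, 18, 29], [3, 30], [4, 31, 39], [5, 38], [6, 37], [7, 36, 47], [8, 23, 26],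
    [9, 27, 44], [10, 45, 34], [11, 33, 20], [14, 41], [15, 42, 16], [17, 43, 28], [21, 32, 24], [22, 25], [35, 46]]
  word := [[], [], [], [], [], [], [], [], [0, 3], [0], [0], [], [], [0, 3, 1, 2], [0, 3, 1, 2], [0, 3, 1], [2], [],
    [], [], [0], [0], [0], [0, 2, 1], [1], [1], [2, 1], [2], [], [], [], [], [1], [1], [], [], [], [], [], [], [3, 0,
    2, 1], [3, 0, 2, 1], [3], [3], [1], [], [], []]
  rank := [0, 0, 0, 1, 0, 1, 2, 0, 6, 5, 2, 1, 0, 9, 8, 7, 2, 1, 0, 1, 0, 3, 4, 7, 3, 4, 6, 0, 1, 0, 1, 2, 0, 2, 4,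
    3, 2, 1, 0, 2, 9, 8, 2, 0, 5, 4, 3, 0]
  just := [0, 0, 0, 3, 0, 5, 6, 0, 9, 10, 11, 1, 0, 12, 13, 8, 14, 2, 0, 1, 0, 15, 16, 8, 15, 16, 9, 0, 2, 0, 3, 4,
    0, 11, 17, 7, 6, 5, 0, 4, 12, 13, 14, 0, 10, 17, 7, 0]
  gA := 20
  gB := 27
  fin := 0
  sid := [0, 1, 2, 3, 4, 5, 6, 7, 8, 9, 10, 11, 1, 0, 12, 13, 13, 14, 2, 1, 11, 15, 16, 8, 15, 16, 8, 9, 14, 2, 3, 4,
    15, 11, 10, 17, 7, 6, 5, 4, 0, 12, 13, 14, 9, 10, 17, 7]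
  off := [(0, 0), (0, 0), (0, 0), (0, 0), (0, 0), (0, 0), (0, 0), (0, 0), (0, 0), (0, 0), (0, 0), (0, 0), (0, 0), (0,
    0), (0, 0), (0, 0), (0, 1), (0, 0), (0, 0), (0, 0), (0, 0), (0, 0), (0, 0), (0, 1), (-1, 0), (-1, 0), (-1, 1),
    (-1, 1), (0, 0), (0, 0), (0, 0), (0, 0), (-1, 0), (-1, 0), (-1, 0), (0, 0), (0, 0), (0, 0), (0, 0), (0, 0), (0,
    0), (0, 0), (0, 0), (0, -1), (-1, 0), (-1, 0), (0, 0), (0, 0)]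

/-- glued arcs and equations -/
def tord8c_8 : TorT :=
  ⟨[(0, 2, false), (0, 4, true), (0, 5, false), (1, 2, true), (1, 4, false), (1, 6, false), (2, 5, false), (3, 3,
    true), (3, 6, false), (4, 6, true), (5, 5, true), (7, 7, false), (7, 7, true)],
    [([0, 0, 0, 0, 0, 1, 1, 0], 2), ([0, 0, 0, 0, 1, 0, 0, 2], 2), ([0, 0, 0, 1, 0, 0, 1, 0], 2), ([0, 0, 2, 0, 0, 1,
    0, 0], 2), ([0, 1, 0, 0, 0, 0, 1, 0], 2), ([0, 1, 0, 1, 1, 0, 0, 0], 2), ([1, 0, 1, 0, 0, 0, 0, 1], 2), ([2, 0,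
    0, 0, 0, 1, 0, 0], 2)]⟩

theorem tord8c_8_ok : tord8c_8.OK 8 := TT.leaf_ok (T := ttd8c_8) (by decide +kernel)

/-- the torus -/
def ttd8c_9 : TT where
  k := 8
  rf := [false, false, true, false, true, false, true, true]
  tau := [8, 16, 27, 22, 14, 13, 12, 39, 0, 32, 43, 38, 6, 5, 4, 23, 1, 28, 29, 50, 25, 26, 3, 15, 49, 20, 21, 2, 17,
    18, 51, 63, 9, 44, 45, 58, 41, 42, 11, 7, 57, 36, 37, 10, 33, 34, 59, 55, 56, 24, 19, 30, 62, 61, 60, 47, 48, 40,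
    35, 46, 54, 53, 52, 31]
  par := [0, 0, 1, 2, 7, 10, 19, 31]
  stars := [[0, 32, 9], [1, 8, 16], [2, 17, 28], [3, 27, 22], [4, 23, 15], [5, 14], [6, 13], [7, 12, 39], [10, 33,
    44], [11, 43, 38], [18, 29], [19, 51, 30], [20, 25, 50], [21, 26], [24, 56, 49], [31, 52, 63], [34, 45], [35, 59,
    46], [36, 41, 58], [37, 42], [40, 48, 57], [47, 60, 55], [53, 62], [54, 61]]
  word := [[], [], [], [0], [0], [0], [0], [], [], [2, 0, 3, 1], [], [1], [1], [1], [1], [], [], [], [], [], [1],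
    [1], [1], [], [0], [0], [0], [], [], [], [], [], [0, 2, 1, 3], [0, 2, 1, 3], [0, 2, 1, 3], [0, 2, 1], [0], [0],
    [0], [], [2, 1], [1], [1], [], [2, 0, 3, 1], [2, 0, 3, 1], [2], [2], [1], [1], [], [], [], [], [], [3], [0], [0,
    3], [0, 3, 1], [3], [], [], [], []]
  rank := [0, 0, 0, 0, 2, 3, 4, 0, 0, 11, 0, 5, 4, 3, 2, 1, 0, 1, 2, 0, 2, 1, 0, 1, 3, 2, 1, 0, 1, 2, 3, 0, 11, 10,
    9, 8, 7, 6, 5, 0, 5, 7, 6, 0, 10, 9, 7, 0, 4, 3, 0, 3, 4, 5, 6, 0, 4, 5, 8, 7, 6, 5, 4, 0]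
  just := [0, 0, 0, 0, 4, 5, 6, 0, 0, 8, 0, 7, 6, 5, 4, 1, 0, 2, 10, 0, 13, 3, 0, 1, 12, 13, 3, 0, 2, 10, 11, 0, 8,
    16, 17, 18, 19, 9, 7, 0, 20, 19, 9, 0, 16, 17, 21, 0, 14, 12, 0, 11, 15, 22, 23, 0, 14, 20, 18, 21, 23, 22, 15, 0]
  gA := 3
  gB := 47
  fin := 0
  sid := [0, 1, 2, 3, 4, 5, 6, 7, 1, 0, 8, 9, 7, 6, 5, 4, 1, 2, 10, 11, 12, 13, 3, 4, 14, 12, 13, 3, 2, 10, 11, 15,
    0, 8, 16, 17, 18, 19, 9, 7, 20, 18, 19, 9, 8, 16, 17, 21, 20, 14, 12, 11, 15, 22, 23, 21, 14, 20, 18, 17, 21, 23,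
    22, 15]
  off := [(0, 0), (0, 0), (0, 0), (0, 0), (0, 0), (0, 0), (0, 0), (0, 0), (0, 0), (0, 0), (0, 0), (0, 0), (-1, 0),
    (-1, 0), (-1, 0), (-1, 0), (0, 0), (0, 0), (0, 0), (0, 0), (0, 0), (0, 0), (-1, 0), (-1, 0), (0, 0), (1, 0), (1,
    0), (0, 0), (0, 0), (0, 0), (0, 0), (0, 0), (0, 0), (0, 0), (0, 0), (0, 0), (0, 0), (0, 0), (1, 0), (0, 0), (0,
    0), (-1, 0), (-1, 0), (0, 0), (0, 0), (0, 0), (0, 0), (0, 0), (0, -1), (-1, 0), (0, 0), (0, 0), (0, 0), (0, 0),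
    (0, 0), (0, -1), (0, 0), (1, -1), (0, -1), (0, -1), (0, -1), (0, 0), (0, 0), (0, 0)]

/-- glued arcs and equations -/
def tord8c_9 : TorT :=
  ⟨[(0, 0, true), (0, 1, false), (1, 4, false), (2, 3, true), (2, 5, false), (3, 6, false), (4, 6, true), (5, 5,
    true), (7, 7, false)],
    [([0, 0, 0, 0, 0, 1, 1, 0], 2), ([0, 0, 0, 0, 1, 0, 0, 2], 2), ([0, 0, 0, 2, 0, 0, 1, 0], 2), ([0, 0, 1, 0, 0, 1,
    0, 0], 2), ([0, 1, 1, 0, 1, 0, 0, 0], 2), ([2, 1, 0, 0, 0, 0, 0, 0], 2)]⟩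

theorem tord8c_9_ok : tord8c_9.OK 8 := TT.leaf_ok (T := ttd8c_9) (by decide +kernel)

/-- the torus -/
def ttd8c_10 : TT where
  k := 4
  rf := [false, true, false, true]
  tau := [10, 11, 12, 19, 29, 24, 25, 23, 21, 22, 0, 1, 2, 20, 30, 31, 26, 27, 28, 3, 13, 8, 9, 7, 5, 6, 16, 17, 18,
    4, 14, 15]
  par := [0, 0, 3, 4]
  stars := [[0, 23, 10], [1, 11], [2, 12], [3, 13, 20], [4, 19, 29], [5, 30, 15, 24], [6, 25], [7, 26, 16], [8, 21,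
    14, 31], [9, 22], [17, 27], [18, 28]]
  word := [[], [], [], [], [], [1, 2], [1, 2], [1, 2], [2, 1], [2, 1], [], [], [], [], [0], [2], [], [], [], [], [],
    [0, 3], [0, 3], [3, 0], [3, 0], [3, 0], [], [], [], [], [1], [3]]
  rank := [0, 1, 2, 0, 0, 1, 2, 4, 4, 5, 0, 1, 2, 3, 0, 0, 3, 2, 1, 0, 3, 4, 5, 4, 1, 2, 3, 2, 1, 0, 0, 0]
  just := [0, 1, 2, 0, 0, 5, 6, 7, 8, 9, 0, 1, 2, 3, 0, 0, 10, 11, 4, 0, 3, 8, 9, 7, 5, 6, 10, 11, 4, 0, 0, 0]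
  gA := 14
  gB := 15
  fin := 0
  sid := [0, 1, 2, 3, 4, 5, 6, 7, 8, 9, 0, 1, 2, 3, 8, 5, 7, 10, 11, 4, 3, 8, 9, 0, 5, 6, 7, 10, 11, 4, 5, 8]
  off := [(0, 0), (0, 0), (0, 0), (0, 0), (0, 0), (0, 0), (0, 0), (0, 0), (0, 0), (0, 0), (0, 0), (0, 0), (0, 0), (0,
    0), (1, -1), (1, 0), (1, -1), (0, 0), (0, 0), (0, 0), (0, 0), (1, -1), (1, -1), (1, -1), (1, -1), (1, -1), (1,
    -1), (0, 0), (0, 0), (0, 0), (0, 0), (0, -1)]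

/-- glued arcs and equations -/
def tord8c_10 : TorT :=
  ⟨[(0, 2, false), (0, 5, false), (1, 3, false), (1, 6, false), (2, 4, false), (3, 3, true), (4, 5, false), (6, 6,
    true), (7, 7, true)],
    [([0, 0, 0, 1, 1, 1, 0, 0], 2), ([0, 0, 1, 0, 1, 0, 0, 0], 2), ([0, 1, 0, 0, 0, 0, 1, 0], 2), ([0, 1, 0, 1, 0, 0,
    0, 0], 2), ([1, 0, 0, 0, 0, 1, 1, 1], 2), ([1, 0, 1, 0, 0, 0, 0, 1], 2)]⟩

theorem tord8c_10_ok : tord8c_10.OK 8 := TT.leaf_ok (T := ttd8c_10) (by decide +kernel)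

/-- the torus -/
def ttd8c_11 : TT where
  k := 4
  rf := [false, false, true, true]
  tau := [8, 22, 24, 25, 26, 27, 21, 15, 0, 30, 16, 17, 18, 19, 29, 7, 10, 11, 12, 13, 28, 6, 1, 31, 2, 3, 4, 5, 20,
    14, 9, 23]
  par := [0, 0, 1, 2]
  stars := [[0, 15, 30, 9], [1, 8, 7, 22], [2, 23, 24], [3, 25], [4, 26], [5, 27], [6, 28, 21], [10, 31, 16], [11,
    17], [12, 18], [13, 19], [14, 20, 29]]
  word := [[], [], [], [], [], [], [3], [3], [], [0], [0], [0], [0], [0], [0, 2], [2], [1], [1], [1], [1], [2], [2],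
    [], [], [], [], [], [], [3], [3, 1], [1], []]
  rank := [0, 0, 0, 1, 2, 3, 4, 5, 0, 3, 2, 1, 0, 1, 2, 5, 2, 1, 0, 1, 0, 4, 0, 1, 0, 1, 2, 3, 0, 2, 3, 1]
  just := [0, 0, 0, 3, 4, 5, 6, 1, 0, 7, 8, 9, 0, 10, 11, 1, 8, 9, 0, 10, 0, 6, 0, 2, 0, 3, 4, 5, 0, 11, 7, 2]
  gA := 12
  gB := 20
  fin := 0
  sid := [0, 1, 2, 3, 4, 5, 6, 1, 1, 0, 7, 8, 9, 10, 11, 0, 7, 8, 9, 10, 11, 6, 1, 2, 2, 3, 4, 5, 6, 11, 0, 7]
  off := [(0, 0), (0, 0), (0, 0), (0, 0), (0, 0), (0, 0), (0, 0), (0, -1), (0, 0), (0, 0), (0, 0), (0, 0), (0, 0),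
    (0, 0), (0, 0), (0, 1), (-1, 0), (-1, 0), (-1, 0), (-1, 0), (-1, 0), (0, 1), (0, 0), (0, 0), (0, 0), (0, 0), (0,
    0), (0, 0), (0, 0), (-1, -1), (-1, 0), (-1, 0)]

/-- glued arcs and equations -/
def tord8c_11 : TorT :=
  ⟨[(0, 0, true), (0, 2, false), (1, 3, false), (1, 6, false), (2, 4, false), (3, 5, false), (4, 4, true), (5, 6,
    false), (7, 7, true)],
    [([0, 0, 0, 0, 1, 1, 1, 0], 2), ([0, 0, 0, 1, 0, 1, 0, 0], 2), ([0, 0, 1, 0, 1, 0, 0, 0], 2), ([0, 1, 0, 1, 0, 0,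
    0, 0], 2), ([1, 0, 1, 0, 0, 0, 0, 1], 2), ([1, 1, 0, 0, 0, 0, 1, 1], 2)]⟩

theorem tord8c_11_ok : tord8c_11.OK 8 := TT.leaf_ok (T := ttd8c_11) (by decide +kernel)

end Pool.Agent.Lib_MP_fa6e45
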