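import Pool.Agent.Lib_MP_fa6e45.CT5

/-!
MP_fa6e45_co, stage 9: straight-side patterns with `8` sides, tables of tori (generated by a program).
-/

namespace Pool.Agent.Lib_MP_fa6e45

/-- the torus -/
def ttd8c_12 : TT where
  k := 8
  rf := [false, false, false, false, true, true, true, true]
  tau := [10, 9, 8, 21, 27, 26, 25, 39, 2, 1, 0, 29, 19, 18, 17, 47, 46, 14, 13, 12, 28, 3, 40, 55, 38, 6, 5, 4, 20,
    11, 32, 63, 30, 62, 61, 60, 44, 51, 24, 7, 22, 54, 53, 52, 36, 59, 16, 15, 58, 57, 56, 37, 43, 42, 41, 23, 50,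
    49, 48, 45, 35, 34, 33, 31]
  par := [0, 0, 3, 4, 7, 15, 23, 31]
  stars := [[0, 32, 30, 11], [1, 10], [2, 9], [3, 8, 40, 22], [4, 21, 28], [5, 27], [6, 26], [7, 25, 39], [12, 29,
    20], [13, 19], [14, 18], [15, 17, 47], [16, 48, 59, 46], [23, 41, 55], [24, 56, 51, 38], [31, 33, 63], [34, 62],
    [35, 61], [36, 45, 60], [37, 52, 44], [42, 54], [43, 53], [49, 58], [50, 57]]
  word := [[], [], [], [], [], [], [], [], [], [], [], [0, 3], [0, 3], [0, 3], [0, 3], [], [2, 1], [2, 1], [2, 1],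
    [2, 1], [], [], [], [], [], [], [], [], [], [2, 1], [1, 2], [], [3, 0], [3, 0], [3, 0], [3, 0], [3], [3], [], [],
    [], [], [], [], [2], [0], [0, 3], [], [2], [2], [2], [2], [], [], [], [], [3], [3], [3], [1], [1, 2], [1, 2], [1,
    2], []]
  rank := [0, 1, 2, 0, 0, 1, 2, 0, 2, 1, 0, 7, 6, 5, 4, 0, 3, 4, 5, 6, 1, 0, 3, 0, 3, 2, 1, 0, 1, 7, 11, 0, 11, 10,
    9, 8, 7, 4, 3, 0, 3, 4, 5, 6, 7, 0, 3, 0, 2, 1, 0, 4, 6, 5, 4, 0, 0, 1, 2, 0, 8, 9, 10, 0]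
  just := [0, 1, 2, 0, 0, 5, 6, 0, 2, 1, 0, 8, 9, 10, 11, 0, 12, 11, 10, 9, 4, 0, 3, 0, 7, 6, 5, 0, 4, 8, 15, 0, 15,
    16, 17, 18, 19, 14, 7, 0, 3, 13, 20, 21, 19, 0, 12, 0, 22, 23, 0, 14, 21, 20, 13, 0, 0, 23, 22, 0, 18, 17, 16, 0]
  gA := 45
  gB := 50
  fin := 0
  sid := [0, 1, 2, 3, 4, 5, 6, 7, 3, 2, 1, 0, 8, 9, 10, 11, 12, 11, 10, 9, 8, 4, 3, 13, 14, 7, 6, 5, 4, 8, 0, 15, 0,
    15, 16, 17, 18, 19, 14, 7, 3, 13, 20, 21, 19, 18, 12, 11, 12, 22, 23, 14, 19, 21, 20, 13, 14, 23, 22, 12, 18, 17,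
    16, 15]
  off := [(0, 0), (0, 0), (0, 0), (0, 0), (0, 0), (0, 0), (0, 0), (0, 0), (0, 0), (0, 0), (0, 0), (0, 0), (0, 0), (0,
    0), (0, 0), (0, 0), (0, 0), (-1, 1), (-1, 1), (-1, 1), (-1, 1), (0, 0), (0, 0), (0, 0), (0, 0), (0, 0), (0, 0),
    (0, 0), (0, 0), (-1, 1), (-1, 1), (0, 0), (0, 0), (1, -1), (0, 0), (0, 0), (0, 0), (0, 0), (0, 0), (0, 0), (0,
    0), (0, 0), (0, 0), (0, 0), (0, 1), (0, 1), (1, -1), (0, 0), (0, 0), (0, 0), (0, 0), (0, 1), (0, 1), (0, 0), (0,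
    0), (0, 0), (0, 0), (0, -1), (0, -1), (0, -1), (-1, 1), (-1, 1), (-1, 1), (0, 0)]

/-- glued arcs and equations -/
def tord8c_12 : TorT :=
  ⟨[(0, 2, true), (0, 6, false), (1, 1, true), (1, 6, true), (2, 5, true), (3, 4, true), (3, 5, true), (4, 4, true),
    (7, 7, false)],
    [([0, 0, 0, 0, 2, 1, 0, 0], 2), ([0, 0, 0, 1, 0, 1, 0, 0], 2), ([0, 0, 1, 0, 0, 0, 1, 0], 2), ([0, 1, 0, 0, 0, 0,
    0, 2], 2), ([0, 1, 1, 0, 0, 0, 0, 0], 2), ([2, 0, 0, 1, 0, 0, 1, 0], 2)]⟩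

theorem tord8c_12_ok : tord8c_12.OK 8 := TT.leaf_ok (T := ttd8c_12) (by decide +kernel)

/-- the torus -/
def ttd8c_13 : TT where
  k := 8
  rf := [false, false, false, true, true, true, true, false]
  tau := [11, 10, 20, 19, 18, 30, 22, 39, 36, 37, 1, 0, 32, 33, 45, 55, 59, 58, 4, 3, 2, 38, 6, 31, 60, 61, 41, 40,
    56, 57, 5, 23, 12, 13, 49, 48, 8, 9, 21, 7, 27, 26, 52, 51, 50, 14, 54, 63, 35, 34, 44, 43, 42, 62, 46, 15, 28,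
    29, 17, 16, 24, 25, 53, 47]
  par := [0, 0, 2, 5, 7, 14, 15, 16]
  stars := [[0, 32, 12], [1, 11], [2, 10, 38, 21], [3, 20], [4, 19], [5, 18, 58, 30], [6, 31, 23], [7, 22, 39], [8,
    48, 36], [9, 37], [13, 33], [14, 34, 50, 45], [15, 46, 55], [16, 24, 60], [17, 59], [25, 61], [26, 42, 53, 62],
    [27, 41], [28, 56, 40], [29, 57], [35, 49], [43, 52], [44, 51], [47, 63, 54]]
  word := [[], [], [], [], [], [], [1], [], [0], [0], [], [], [2, 1, 3, 0], [2, 1, 3, 0], [], [], [], [], [], [], [],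
    [0], [0], [0], [1], [1], [3], [3], [], [], [], [1], [1, 2, 0, 3], [1, 2, 0, 3], [1], [1], [1], [1], [1], [], [2],
    [2], [2, 1, 3], [2, 1, 3], [2, 1, 3], [], [], [2], [0], [0], [2, 0, 3], [2, 0, 3], [2, 0, 3], [2], [], [], [],
    [], [], [], [0], [0], [3], [3]]
  rank := [0, 1, 0, 1, 2, 0, 1, 0, 4, 3, 1, 0, 11, 10, 0, 0, 0, 1, 2, 1, 0, 2, 1, 0, 1, 2, 6, 5, 4, 3, 0, 0, 11, 10,
    6, 5, 4, 3, 2, 0, 5, 6, 7, 8, 9, 0, 1, 0, 5, 6, 9, 8, 7, 2, 1, 0, 4, 3, 1, 0, 1, 2, 2, 0]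
  just := [0, 1, 0, 3, 4, 0, 6, 0, 9, 2, 1, 0, 10, 11, 0, 0, 0, 14, 4, 3, 0, 7, 6, 0, 13, 15, 17, 18, 19, 5, 0, 0,
    10, 11, 20, 8, 9, 2, 7, 0, 18, 17, 16, 21, 22, 0, 12, 0, 8, 20, 22, 21, 16, 23, 12, 0, 19, 5, 14, 0, 13, 15, 23,
    0]
  gA := 23
  gB := 47
  fin := 0
  sid := [0, 1, 2, 3, 4, 5, 6, 7, 8, 9, 2, 1, 0, 10, 11, 12, 13, 14, 5, 4, 3, 2, 7, 6, 13, 15, 16, 17, 18, 19, 5, 6,
    0, 10, 11, 20, 8, 9, 2, 7, 18, 17, 16, 21, 22, 11, 12, 23, 8, 20, 11, 22, 21, 16, 23, 12, 18, 19, 5, 14, 13, 15,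
    16, 23]
  off := [(0, 0), (0, 0), (0, 0), (0, 0), (0, 0), (0, 0), (0, 0), (0, 0), (0, 0), (0, 0), (0, 0), (0, 0), (0, 0), (0,
    0), (0, 0), (0, 0), (0, 0), (0, 0), (0, 0), (0, 0), (0, 0), (0, 0), (1, 0), (1, 0), (-1, 0), (0, 0), (0, 0), (0,
    0), (0, 0), (0, 0), (0, 0), (0, 0), (0, 0), (0, 0), (0, 0), (0, 0), (-1, 0), (-1, 0), (-1, 0), (0, 0), (0, 1),
    (0, 1), (0, 1), (0, 0), (0, 0), (0, 0), (0, 0), (0, 0), (0, 0), (1, 0), (1, 0), (1, 0), (1, 0), (1, 1), (0, 0),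
    (0, 0), (0, 0), (0, 0), (0, 0), (0, 0), (0, 0), (1, 0), (1, 0), (0, -1)]

/-- glued arcs and equations -/
def tord8c_13 : TorT :=
  ⟨[(0, 3, true), (0, 4, false), (1, 2, true), (1, 5, false), (2, 4, true), (3, 3, true), (5, 6, false), (6, 6,
    true), (7, 7, false)],
    [([0, 0, 0, 0, 0, 0, 1, 2], 2), ([0, 0, 0, 1, 1, 0, 0, 0], 2), ([0, 0, 2, 0, 0, 1, 1, 0], 2), ([0, 1, 0, 0, 0, 1,
    0, 0], 2), ([0, 1, 0, 1, 0, 0, 0, 0], 2), ([2, 0, 0, 0, 1, 0, 0, 0], 2)]⟩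

theorem tord8c_13_ok : tord8c_13.OK 8 := TT.leaf_ok (T := ttd8c_13) (by decide +kernel)

/-- the torus -/
def ttd8c_14 : TT where
  k := 8
  rf := [false, false, true, true, false, false, true, true]
  tau := [8, 16, 10, 25, 26, 27, 37, 31, 0, 24, 2, 17, 18, 19, 45, 23, 1, 11, 12, 13, 46, 54, 44, 15, 9, 3, 4, 5, 38,
    62, 36, 7, 49, 59, 60, 61, 30, 6, 28, 63, 57, 51, 52, 53, 22, 14, 20, 55, 56, 32, 58, 41, 42, 43, 21, 47, 48, 40,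
    50, 33, 34, 35, 29, 39]
  par := [0, 0, 1, 3, 6, 14, 21, 29]
  stars := [[0, 24, 9], [1, 8, 16], [2, 17, 11], [3, 10, 25], [4, 26], [5, 27], [6, 28, 38], [7, 37, 31], [12, 18],
    [13, 19], [14, 20, 46], [15, 45, 23], [21, 55, 47], [22, 44, 54], [29, 63, 39], [30, 36, 62], [32, 56, 49], [33,
    50, 59], [34, 60], [35, 61], [40, 48, 57], [41, 58, 51], [42, 52], [43, 53]]
  word := [[], [], [3], [], [], [], [], [1, 2, 0], [], [2], [2], [2], [2], [2], [], [], [], [3], [3], [3], [3], [],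
    [], [], [3], [], [], [], [], [], [1, 3, 0], [1, 3, 0], [1, 2], [1, 2, 0], [1, 2, 0], [1, 2, 0], [1, 2, 0], [],
    [], [], [0], [], [], [], [], [], [2], [2], [3, 0], [3, 0], [0], [], [], [], [], [3], [1, 2], [1], [1], [1, 3, 0],
    [1, 3, 0], [1, 3, 0], [], []]
  rank := [0, 0, 5, 0, 1, 2, 0, 11, 0, 6, 5, 4, 3, 2, 0, 1, 0, 4, 3, 2, 1, 0, 2, 1, 6, 0, 1, 2, 3, 0, 10, 11, 5, 7,
    8, 9, 10, 0, 3, 4, 0, 5, 4, 3, 2, 0, 1, 0, 1, 5, 6, 5, 4, 3, 0, 0, 1, 0, 6, 7, 8, 9, 0, 4]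
  just := [0, 0, 2, 0, 4, 5, 0, 7, 0, 3, 2, 8, 9, 10, 0, 1, 0, 8, 9, 10, 12, 0, 11, 1, 3, 0, 4, 5, 6, 0, 15, 7, 16,
    17, 18, 19, 15, 0, 6, 14, 0, 22, 23, 13, 11, 0, 12, 0, 20, 16, 21, 22, 23, 13, 0, 0, 20, 0, 21, 17, 18, 19, 0, 14]
  gA := 40
  gB := 47
  fin := 0
  sid := [0, 1, 2, 3, 4, 5, 6, 7, 1, 0, 3, 2, 8, 9, 10, 11, 1, 2, 8, 9, 10, 12, 13, 11, 0, 3, 4, 5, 6, 14, 15, 7, 16,
    17, 18, 19, 15, 7, 6, 14, 20, 21, 22, 23, 13, 11, 10, 12, 20, 16, 17, 21, 22, 23, 13, 12, 16, 20, 21, 17, 18, 19,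
    15, 14]
  off := [(0, 0), (0, 0), (0, 0), (0, 0), (0, 0), (0, 0), (0, 0), (0, 0), (0, 0), (0, 0), (0, 1), (0, 1), (0, 0), (0,
    0), (0, 0), (0, 0), (0, 0), (0, 0), (0, -1), (0, -1), (0, -1), (0, 0), (0, 0), (0, 0), (0, -1), (0, 0), (0, 0),
    (0, 0), (0, 0), (0, 0), (0, 0), (0, -1), (0, 0), (0, 0), (0, 0), (0, 0), (0, 1), (0, 0), (0, 0), (0, 0), (0, 0),
    (0, 0), (0, 0), (0, 0), (0, 0), (0, 0), (0, 0), (0, 1), (0, -1), (1, -1), (1, -1), (0, 0), (0, 0), (0, 0), (0,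
    0), (0, 0), (0, 0), (-1, 0), (-1, 0), (0, -1), (0, -1), (0, -1), (0, 0), (0, 0)]

/-- glued arcs and equations -/
def tord8c_14 : TorT :=
  ⟨[(0, 0, true), (0, 1, false), (1, 3, false), (2, 2, true), (2, 4, false), (3, 5, false), (4, 6, false), (5, 6,
    true), (7, 7, false)],
    [([0, 0, 0, 0, 0, 1, 0, 2], 2), ([0, 0, 0, 0, 1, 0, 2, 0], 2), ([0, 0, 0, 1, 0, 1, 0, 0], 2), ([0, 0, 1, 0, 1, 0,
    0, 0], 2), ([0, 1, 1, 1, 0, 0, 0, 0], 2), ([2, 1, 0, 0, 0, 0, 0, 0], 2)]⟩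

theorem tord8c_14_ok : tord8c_14.OK 8 := TT.leaf_ok (T := ttd8c_14) (by decide +kernel)

/-- the torus -/
def ttd8c_15 : TT where
  k := 8
  rf := [false, false, true, true, true, false, true, false]
  tau := [8, 16, 17, 29, 38, 46, 36, 31, 0, 24, 25, 21, 54, 62, 52, 23, 1, 2, 28, 27, 26, 11, 53, 15, 9, 10, 20, 19,
    18, 3, 37, 7, 48, 56, 57, 45, 6, 30, 4, 47, 49, 50, 60, 59, 58, 35, 5, 39, 32, 40, 41, 61, 14, 22, 12, 63, 33,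
    34, 44, 43, 42, 51, 13, 55]
  par := [0, 0, 1, 3, 4, 5, 12, 13]
  stars := [[0, 24, 9], [1, 8, 16], [2, 17], [3, 18, 29], [4, 30, 38], [5, 39, 47], [6, 46, 36], [7, 37, 31], [10,
    25], [11, 26, 21], [12, 22, 54], [13, 55, 63], [14, 62, 52], [15, 53, 23], [19, 28], [20, 27], [32, 49, 40], [33,
    56, 48], [34, 57], [35, 45, 58], [41, 50], [42, 51, 61], [43, 60], [44, 59]]
  word := [[], [], [], [], [], [], [0, 2, 1], [0, 2, 1], [], [2], [2], [2], [], [], [3], [], [], [], [], [], [], [3],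
    [3], [], [3], [3], [], [], [], [], [], [0, 3, 1], [0], [0], [0], [0, 3, 1], [0, 3, 1], [], [], [], [0], [0], [0,
    2], [0, 2], [0, 2], [0, 2, 1], [], [], [1], [1], [1], [2], [2], [2], [], [], [1], [1], [3, 1], [3, 1], [3, 1],
    [3], [], []]
  rank := [0, 0, 1, 0, 0, 0, 6, 7, 0, 6, 5, 3, 0, 0, 1, 1, 0, 1, 2, 3, 4, 3, 2, 1, 6, 5, 4, 3, 2, 0, 1, 7, 2, 3, 4,
    5, 6, 1, 0, 1, 1, 0, 1, 2, 3, 5, 0, 1, 2, 1, 0, 0, 1, 2, 0, 1, 3, 4, 3, 2, 1, 0, 0, 1]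
  just := [0, 0, 2, 0, 0, 0, 6, 7, 0, 8, 9, 10, 0, 0, 12, 1, 0, 2, 3, 14, 15, 10, 13, 1, 8, 9, 15, 14, 3, 0, 4, 7,
    16, 17, 18, 19, 6, 4, 0, 5, 20, 0, 21, 22, 23, 19, 0, 5, 16, 20, 0, 0, 12, 13, 0, 11, 17, 18, 23, 22, 21, 0, 0,
    11]
  gA := 41
  gB := 51
  fin := 0
  sid := [0, 1, 2, 3, 4, 5, 6, 7, 1, 0, 8, 9, 10, 11, 12, 13, 1, 2, 3, 14, 15, 9, 10, 13, 0, 8, 9, 15, 14, 3, 4, 7,
    16, 17, 18, 19, 6, 7, 4, 5, 16, 20, 21, 22, 23, 19, 6, 5, 17, 16, 20, 21, 12, 13, 10, 11, 17, 18, 19, 23, 22, 21,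
    12, 11]
  off := [(0, 0), (0, 0), (0, 0), (0, 0), (0, 0), (0, 0), (0, 0), (0, 0), (0, 0), (0, 0), (0, 0), (0, 0), (0, 0), (0,
    0), (0, 0), (0, 0), (0, 0), (0, 0), (0, 0), (0, 0), (0, 0), (0, -1), (0, -1), (0, 0), (0, -1), (0, -1), (0, -1),
    (0, 0), (0, 0), (0, 0), (0, 0), (0, -1), (0, 0), (0, 0), (0, 0), (0, 0), (0, -1), (0, -1), (0, 0), (0, 0), (0,
    0), (0, 0), (0, 0), (0, 0), (0, 0), (0, 1), (0, 0), (0, 0), (-1, 0), (-1, 0), (-1, 0), (-1, 0), (0, 1), (0, 1),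
    (0, 0), (0, 0), (-1, 0), (-1, 0), (-1, 0), (-1, -1), (-1, -1), (-1, -1), (0, 0), (0, 0)]

/-- glued arcs and equations -/
def tord8c_15 : TorT :=
  ⟨[(0, 0, true), (0, 1, false), (1, 2, false), (2, 4, true), (3, 3, true), (3, 5, false), (4, 6, false), (5, 6,
    true), (7, 7, false)],
    [([0, 0, 0, 0, 0, 1, 0, 2], 2), ([0, 0, 0, 0, 1, 0, 2, 0], 2), ([0, 0, 0, 1, 1, 0, 0, 0], 2), ([0, 0, 1, 1, 0, 1,
    0, 0], 2), ([0, 1, 1, 0, 0, 0, 0, 0], 2), ([2, 1, 0, 0, 0, 0, 0, 0], 2)]⟩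

theorem tord8c_15_ok : tord8c_15.OK 8 := TT.leaf_ok (T := ttd8c_15) (by decide +kernel)

/-- the torus -/
def ttd8c_16 : TT where
  k := 8
  rf := [false, false, true, true, false, false, true, true]
  tau := [8, 16, 17, 11, 26, 27, 37, 31, 0, 24, 25, 3, 18, 19, 45, 23, 1, 2, 12, 13, 46, 54, 44, 15, 9, 10, 4, 5, 38,
    62, 36, 7, 49, 50, 60, 61, 30, 6, 28, 63, 57, 58, 52, 53, 22, 14, 20, 55, 56, 32, 33, 59, 42, 43, 21, 47, 48, 40,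
    41, 51, 34, 35, 29, 39]
  par := [0, 0, 1, 4, 6, 14, 21, 29]
  stars := [[0, 24, 9], [1, 8, 16], [2, 17], [3, 18, 12], [4, 11, 26], [5, 27], [6, 28, 38], [7, 37, 31], [10, 25],
    [13, 19], [14, 20, 46], [15, 45, 23], [21, 55, 47], [22, 44, 54], [29, 63, 39], [30, 36, 62], [32, 56, 49], [33,
    50], [34, 51, 60], [35, 61], [40, 48, 57], [41, 58], [42, 59, 52], [43, 53]]
  word := [[], [], [], [3], [], [], [], [1, 2, 0], [], [2], [2], [2], [2], [2], [], [], [], [], [3], [3], [3], [],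
    [], [], [3], [3], [], [], [], [], [1, 3, 0], [1, 3, 0], [1, 2], [1, 2], [1, 2, 0], [1, 2, 0], [1, 2, 0], [], [],
    [], [0], [0], [], [], [], [], [2], [2], [3, 0], [3, 0], [3, 0], [0], [], [], [], [3], [1, 2], [1], [1], [1], [1,
    3, 0], [1, 3, 0], [], []]
  rank := [0, 0, 1, 4, 0, 1, 0, 9, 0, 6, 5, 4, 3, 2, 0, 1, 0, 1, 3, 2, 1, 0, 2, 1, 6, 5, 0, 1, 2, 0, 8, 9, 4, 5, 6,
    7, 8, 0, 2, 3, 0, 1, 4, 3, 2, 0, 1, 0, 1, 4, 5, 5, 4, 3, 0, 0, 1, 0, 1, 5, 6, 7, 0, 3]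
  just := [0, 0, 2, 3, 0, 5, 0, 7, 0, 8, 4, 3, 9, 10, 0, 1, 0, 2, 9, 10, 12, 0, 11, 1, 8, 4, 0, 5, 6, 0, 15, 7, 16,
    17, 18, 19, 15, 0, 6, 14, 0, 21, 23, 13, 11, 0, 12, 0, 20, 16, 17, 22, 23, 13, 0, 0, 20, 0, 21, 22, 18, 19, 0, 14]
  gA := 40
  gB := 47
  fin := 0
  sid := [0, 1, 2, 3, 4, 5, 6, 7, 1, 0, 8, 4, 3, 9, 10, 11, 1, 2, 3, 9, 10, 12, 13, 11, 0, 8, 4, 5, 6, 14, 15, 7, 16,
    17, 18, 19, 15, 7, 6, 14, 20, 21, 22, 23, 13, 11, 10, 12, 20, 16, 17, 18, 22, 23, 13, 12, 16, 20, 21, 22, 18, 19,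
    15, 14]
  off := [(0, 0), (0, 0), (0, 0), (0, 0), (0, 0), (0, 0), (0, 0), (0, 0), (0, 0), (0, 0), (0, 0), (0, 1), (0, 1), (0,
    0), (0, 0), (0, 0), (0, 0), (0, 0), (0, 0), (0, -1), (0, -1), (0, 0), (0, 0), (0, 0), (0, -1), (0, -1), (0, 0),
    (0, 0), (0, 0), (0, 0), (0, 0), (0, -1), (0, 0), (0, 0), (0, 0), (0, 0), (0, 1), (0, 0), (0, 0), (0, 0), (0, 0),
    (0, 0), (0, 0), (0, 0), (0, 0), (0, 0), (0, 0), (0, 1), (0, -1), (1, -1), (1, -1), (1, -1), (0, 0), (0, 0), (0,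
    0), (0, 0), (0, 0), (-1, 0), (-1, 0), (-1, 0), (0, -1), (0, -1), (0, 0), (0, 0)]

/-- glued arcs and equations -/
def tord8c_16 : TorT :=
  ⟨[(0, 0, true), (0, 1, false), (1, 2, false), (2, 4, false), (3, 3, true), (3, 5, false), (4, 6, false), (5, 6,
    true), (7, 7, false)],
    [([0, 0, 0, 0, 0, 1, 0, 2], 2), ([0, 0, 0, 0, 1, 0, 2, 0], 2), ([0, 0, 0, 1, 0, 1, 0, 0], 2), ([0, 0, 1, 1, 1, 0,
    0, 0], 2), ([0, 1, 1, 0, 0, 0, 0, 0], 2), ([2, 1, 0, 0, 0, 0, 0, 0], 2)]⟩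

theorem tord8c_16_ok : tord8c_16.OK 8 := TT.leaf_ok (T := ttd8c_16) (by decide +kernel)

/-- the torus -/
def ttd8c_17 : TT where
  k := 8
  rf := [false, false, true, false, true, false, true, true]
  tau := [8, 11, 10, 9, 16, 28, 27, 23, 0, 3, 2, 1, 32, 44, 43, 39, 4, 29, 30, 54, 53, 25, 26, 7, 52, 21, 22, 6, 5,
    17, 18, 55, 12, 45, 46, 62, 61, 41, 42, 15, 60, 37, 38, 14, 13, 33, 34, 63, 56, 59, 58, 57, 24, 20, 19, 31, 48,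
    51, 50, 49, 40, 36, 35, 47]
  par := [0, 0, 4, 5, 12, 13, 19, 35]
  stars := [[0, 16, 4, 9], [1, 8, 32, 12], [2, 11], [3, 10], [5, 17, 29], [6, 28], [7, 27, 23], [13, 33, 45], [14,
    44], [15, 43, 39], [18, 30], [19, 55, 31], [20, 54], [21, 25, 53], [22, 26], [24, 48, 57, 52], [34, 46], [35, 63,
    47], [36, 62], [37, 41, 61], [38, 42], [40, 56, 49, 60], [50, 59], [51, 58]]
  word := [[], [0], [0], [0], [], [], [], [2, 1, 3], [], [1], [1], [1], [], [], [], [0], [], [], [], [], [], [2, 0,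
    3], [2, 0, 3], [2, 0, 3], [2, 1, 3], [2, 1, 3], [2, 1, 3], [], [], [], [], [], [], [], [], [], [], [1], [1], [1],
    [0], [0], [0], [], [], [], [], [], [2, 1], [2], [2], [2], [2, 0, 3], [], [], [], [0, 3], [3], [3], [3], [1], [],
    [], []]
  rank := [0, 5, 6, 7, 0, 0, 1, 8, 0, 7, 6, 5, 0, 0, 1, 4, 0, 1, 2, 0, 1, 6, 7, 8, 5, 6, 7, 1, 0, 1, 2, 3, 0, 1, 2,
    0, 1, 2, 3, 4, 0, 2, 3, 1, 0, 1, 2, 3, 4, 1, 0, 1, 5, 1, 0, 3, 4, 1, 0, 1, 0, 1, 0, 3]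
  just := [0, 1, 2, 3, 0, 0, 5, 6, 0, 3, 2, 1, 0, 0, 8, 9, 0, 4, 10, 0, 12, 13, 14, 6, 15, 13, 14, 5, 0, 4, 10, 11,
    0, 7, 16, 0, 18, 19, 20, 9, 0, 19, 20, 8, 0, 7, 16, 17, 21, 22, 0, 23, 15, 12, 0, 11, 21, 23, 0, 22, 0, 18, 0, 17]
  gA := 40
  gB := 50
  fin := 0
  sid := [0, 1, 2, 3, 0, 4, 5, 6, 1, 0, 3, 2, 1, 7, 8, 9, 0, 4, 10, 11, 12, 13, 14, 6, 15, 13, 14, 6, 5, 4, 10, 11,
    1, 7, 16, 17, 18, 19, 20, 9, 21, 19, 20, 9, 8, 7, 16, 17, 15, 21, 22, 23, 15, 13, 12, 11, 21, 15, 23, 22, 21, 19,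
    18, 17]
  off := [(0, 0), (0, 0), (0, 0), (0, 0), (1, 0), (0, 0), (0, 0), (0, 0), (0, 0), (0, 0), (-1, 0), (-1, 0), (-1, 0),
    (0, 0), (0, 0), (0, 0), (1, 0), (0, 0), (0, 0), (0, 0), (0, 0), (0, 0), (0, 0), (1, 0), (0, 0), (-1, 0), (-1, 0),
    (0, 0), (0, 0), (0, 0), (0, 0), (0, 0), (-1, 0), (0, 0), (0, 0), (0, 0), (0, 0), (0, 0), (0, 0), (-1, 0), (0, 0),
    (1, 0), (1, 0), (0, 0), (0, 0), (0, 0), (0, 0), (0, 0), (0, 0), (-1, 1), (0, 0), (0, 0), (1, 0), (0, 0), (0, 0),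
    (0, 0), (0, 0), (1, -1), (0, -1), (0, -1), (-1, 0), (0, 0), (0, 0), (0, 0)]

/-- glued arcs and equations -/
def tord8c_17 : TorT :=
  ⟨[(0, 0, true), (0, 4, false), (1, 3, true), (1, 5, false), (2, 2, true), (2, 6, false), (3, 6, true), (4, 5,
    true), (7, 7, false)],
    [([0, 0, 0, 0, 1, 0, 1, 0], 2), ([0, 0, 0, 1, 0, 0, 0, 2], 2), ([0, 0, 1, 0, 0, 0, 1, 0], 2), ([0, 0, 1, 1, 0, 0,
    0, 0], 2), ([0, 1, 0, 0, 0, 2, 0, 0], 2), ([2, 1, 0, 0, 1, 0, 0, 0], 2)]⟩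

theorem tord8c_17_ok : tord8c_17.OK 8 := TT.leaf_ok (T := ttd8c_17) (by decide +kernel)

end Pool.Agent.Lib_MP_fa6e45
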