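import Pool.Agent.Lib_MP_fa6e45.CT5

/-!
MP_fa6e45_co, stage 9: straight-side patterns with `8` sides, tables of tori (generated by a program).
-/

namespace Pool.Agent.Lib_MP_fa6e45

/-- the torus -/
def ttd8c_18 : TT where
  k := 4
  rf := [false, true, false, true]
  tau := [10, 11, 12, 13, 14, 21, 8, 23, 6, 25, 0, 1, 2, 3, 4, 31, 26, 27, 28, 29, 30, 5, 24, 7, 22, 9, 16, 17, 18,
    19, 20, 15]
  par := [0, 0, 5, 9]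
  stars := [[0, 23, 25, 10], [1, 11], [2, 12], [3, 13], [4, 14], [5, 15, 24, 22], [6, 21, 31, 8], [7, 9, 26, 16],
    [17, 27], [18, 28], [19, 29], [20, 30]]
  word := [[], [], [], [], [], [], [2, 1], [2, 1, 3], [0, 3], [], [], [], [], [], [], [0], [2], [2], [2], [2], [2],
    [], [0], [2, 0, 3], [1], [], [3], [3], [3], [3], [3], [1]]
  rank := [0, 1, 2, 3, 4, 0, 3, 4, 3, 0, 0, 1, 2, 3, 4, 0, 2, 1, 0, 1, 2, 0, 5, 4, 5, 0, 2, 1, 0, 1, 2, 0]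
  just := [0, 1, 2, 3, 4, 0, 6, 7, 6, 0, 0, 1, 2, 3, 4, 0, 8, 9, 0, 10, 11, 0, 5, 7, 5, 0, 8, 9, 0, 10, 11, 0]
  gA := 15
  gB := 18
  fin := 0
  sid := [0, 1, 2, 3, 4, 5, 6, 7, 6, 7, 0, 1, 2, 3, 4, 5, 7, 8, 9, 10, 11, 6, 5, 0, 5, 0, 7, 8, 9, 10, 11, 6]
  off := [(0, 0), (0, 0), (0, 0), (0, 0), (0, 0), (0, 0), (0, 0), (0, 0), (1, -1), (1, -1), (0, 0), (0, 0), (0, 0),
    (0, 0), (0, 0), (0, 0), (1, 0), (0, 0), (0, 0), (0, 0), (0, 0), (0, 0), (0, 0), (1, 0), (-1, 0), (0, 0), (1, -1),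
    (0, -1), (0, -1), (0, -1), (0, -1), (0, -1)]

/-- glued arcs and equations -/
def tord8c_18 : TorT :=
  ⟨[(0, 2, false), (0, 6, false), (1, 1, true), (1, 3, false), (2, 4, false), (3, 5, false), (4, 6, false), (5, 5,
    true), (7, 7, true)],
    [([0, 0, 0, 0, 1, 0, 1, 0], 2), ([0, 0, 0, 1, 0, 1, 0, 0], 2), ([0, 0, 1, 0, 1, 0, 0, 0], 2), ([0, 1, 0, 1, 0, 0,
    0, 0], 2), ([1, 0, 0, 0, 0, 1, 1, 1], 2), ([1, 1, 1, 0, 0, 0, 0, 1], 2)]⟩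

theorem tord8c_18_ok : tord8c_18.OK 8 := TT.leaf_ok (T := ttd8c_18) (by decide +kernel)

/-- the torus -/
def ttd8c_19 : TT where
  k := 4
  rf := [false, false, true, true]
  tau := [11, 10, 22, 29, 30, 27, 28, 23, 20, 21, 1, 0, 16, 17, 26, 31, 12, 13, 25, 24, 8, 9, 2, 7, 19, 18, 14, 5, 6,
    3, 4, 15]
  par := [0, 0, 2, 3]
  stars := [[0, 16, 12], [1, 11], [2, 10, 22], [3, 23, 7, 29], [4, 30], [5, 31, 15, 27], [6, 28], [8, 24, 20], [9,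
    21], [13, 17], [14, 18, 26], [19, 25]]
  word := [[], [], [], [], [], [3, 0], [3, 0], [3, 0], [], [], [], [], [0, 3], [0, 3], [0], [2], [2, 1], [2, 1], [2],
    [2], [], [], [], [1, 2], [3], [3], [1], [1, 2], [1, 2], [], [], [3]]
  rank := [0, 1, 0, 0, 1, 5, 6, 7, 3, 2, 1, 0, 3, 2, 0, 4, 3, 2, 1, 0, 3, 2, 0, 7, 0, 1, 0, 5, 6, 0, 1, 4]
  just := [0, 1, 0, 0, 4, 5, 6, 3, 8, 2, 1, 0, 9, 10, 0, 7, 9, 10, 11, 0, 8, 2, 0, 3, 0, 11, 0, 5, 6, 0, 4, 7]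
  gA := 14
  gB := 19
  fin := 0
  sid := [0, 1, 2, 3, 4, 5, 6, 3, 7, 8, 2, 1, 0, 9, 10, 5, 0, 9, 10, 11, 7, 8, 2, 3, 7, 11, 10, 5, 6, 3, 4, 5]
  off := [(0, 0), (0, 0), (0, 0), (0, 0), (0, 0), (0, 0), (0, 0), (1, -1), (0, 0), (0, 0), (0, 0), (0, 0), (0, 0),
    (0, 0), (0, 0), (0, 1), (-1, 1), (-1, 1), (-1, 1), (0, 0), (0, 0), (0, 0), (0, 0), (0, 0), (0, -1), (0, -1), (-1,
    0), (-1, 1), (-1, 1), (0, 0), (0, 0), (0, 0)]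

/-- glued arcs and equations -/
def tord8c_19 : TorT :=
  ⟨[(0, 3, true), (0, 4, false), (1, 2, true), (1, 5, false), (2, 6, false), (3, 5, false), (4, 6, false), (7, 7,
    false)],
    [([0, 0, 0, 0, 1, 0, 1, 0], 2), ([0, 0, 0, 1, 0, 1, 0, 2], 2), ([0, 0, 2, 0, 0, 0, 1, 0], 2), ([0, 1, 0, 0, 0, 1,
    0, 0], 2), ([0, 1, 0, 1, 0, 0, 0, 0], 2), ([2, 0, 0, 0, 1, 0, 0, 0], 2)]⟩

theorem tord8c_19_ok : tord8c_19.OK 8 := TT.leaf_ok (T := ttd8c_19) (by decide +kernel)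

/-- the torus -/
def ttd8c_20 : TT where
  k := 8
  rf := [false, false, false, false, true, true, true, true]
  tau := [12, 11, 18, 26, 22, 21, 20, 39, 37, 38, 19, 1, 0, 32, 33, 47, 28, 27, 2, 10, 6, 5, 4, 55, 53, 54, 3, 17,
    16, 48, 49, 63, 13, 14, 59, 41, 40, 8, 9, 7, 36, 35, 58, 50, 62, 61, 60, 15, 29, 30, 43, 57, 56, 24, 25, 23, 52,
    51, 42, 34, 46, 45, 44, 31]
  par := [0, 0, 2, 3, 7, 15, 23, 31]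
  stars := [[0, 32, 13], [1, 12], [2, 11, 19], [3, 18, 27], [4, 26, 55, 23], [5, 22], [6, 21], [7, 20, 10, 39], [8,
    40, 37], [9, 38], [14, 33], [15, 34, 60, 47], [16, 48, 29], [17, 28], [24, 56, 53], [25, 54], [30, 49], [31, 50,
    44, 63], [35, 42, 59], [36, 41], [43, 51, 58], [45, 62], [46, 61], [52, 57]]
  word := [[], [], [], [], [0], [0], [0], [], [1], [1], [], [], [], [2, 0, 3, 1], [2, 0, 3, 1], [], [], [], [], [],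
    [1], [1], [1], [], [0], [0], [], [], [], [], [], [], [0, 2, 1, 3], [0, 2, 1, 3], [0, 2, 1], [0], [0], [0], [0],
    [], [1], [1], [2, 1], [2], [2], [2], [2], [], [], [], [3], [1], [1], [1], [1], [], [0], [0], [0, 3], [0, 3, 1],
    [3], [3], [3], []]
  rank := [0, 1, 0, 0, 0, 1, 2, 0, 4, 3, 2, 1, 0, 9, 8, 0, 2, 1, 0, 2, 2, 1, 0, 0, 2, 1, 0, 1, 2, 3, 4, 0, 9, 8, 7,
    6, 5, 4, 3, 0, 5, 6, 6, 5, 0, 1, 2, 0, 3, 4, 5, 4, 3, 2, 1, 0, 3, 4, 6, 7, 2, 1, 0, 0]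
  just := [0, 1, 0, 0, 0, 5, 6, 0, 9, 7, 2, 1, 0, 10, 11, 0, 13, 3, 0, 2, 6, 5, 0, 0, 15, 4, 0, 3, 13, 12, 16, 0, 10,
    11, 18, 19, 8, 9, 7, 0, 8, 19, 20, 17, 0, 21, 22, 0, 12, 16, 17, 23, 14, 15, 4, 0, 14, 23, 20, 18, 22, 21, 0, 0]
  gA := 4
  gB := 44
  fin := 0
  sid := [0, 1, 2, 3, 4, 5, 6, 7, 8, 9, 7, 2, 1, 0, 10, 11, 12, 13, 3, 2, 7, 6, 5, 4, 14, 15, 4, 3, 13, 12, 16, 17,
    0, 10, 11, 18, 19, 8, 9, 7, 8, 19, 18, 20, 17, 21, 22, 11, 12, 16, 17, 20, 23, 14, 15, 4, 14, 23, 20, 18, 11, 22,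
    21, 17]
  off := [(0, 0), (0, 0), (0, 0), (0, 0), (0, 0), (0, 0), (0, 0), (0, 0), (0, 0), (0, 0), (-1, 0), (0, 0), (0, 0),
    (0, 0), (0, 0), (0, 0), (0, 0), (0, 0), (0, 0), (0, 0), (-1, 0), (-1, 0), (-1, 0), (-1, 0), (0, 0), (0, 0), (0,
    0), (0, 0), (0, 0), (0, 0), (0, 0), (0, 0), (0, 0), (0, 0), (0, 0), (0, 0), (0, 0), (1, 0), (1, 0), (0, 0), (0,
    0), (-1, 0), (-1, 0), (0, 0), (0, 1), (0, 0), (0, 0), (0, 0), (0, 0), (0, 0), (0, 0), (0, -1), (0, 0), (-1, 0),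
    (-1, 0), (-1, 0), (0, 0), (1, 0), (1, -1), (0, -1), (0, -1), (0, -1), (0, -1), (0, 0)]

/-- glued arcs and equations -/
def tord8c_20 : TorT :=
  ⟨[(0, 4, true), (0, 5, false), (1, 3, true), (1, 6, false), (2, 2, true), (2, 3, true), (4, 6, true), (5, 5, true),
    (7, 7, false)],
    [([0, 0, 0, 0, 0, 1, 1, 0], 2), ([0, 0, 1, 0, 1, 0, 0, 2], 2), ([0, 0, 1, 2, 0, 0, 0, 0], 2), ([0, 1, 0, 0, 0, 0,
    1, 0], 2), ([0, 1, 0, 0, 1, 0, 0, 0], 2), ([2, 0, 0, 0, 0, 1, 0, 0], 2)]⟩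

theorem tord8c_20_ok : tord8c_20.OK 8 := TT.leaf_ok (T := ttd8c_20) (by decide +kernel)

/-- the torus -/
def ttd8c_21 : TT where
  k := 8
  rf := [false, false, false, true, true, false, true, true]
  tau := [12, 19, 18, 17, 20, 11, 10, 31, 29, 30, 6, 5, 0, 24, 25, 39, 44, 3, 2, 1, 4, 43, 42, 55, 13, 14, 38, 37,
    32, 8, 9, 7, 28, 59, 58, 57, 60, 27, 26, 15, 53, 54, 22, 21, 16, 48, 49, 63, 45, 46, 62, 61, 56, 40, 41, 23, 52,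
    35, 34, 33, 36, 51, 50, 47]
  par := [0, 0, 1, 7, 15, 16, 23, 33]
  stars := [[0, 24, 13], [1, 12, 5, 20], [2, 19], [3, 18], [4, 17, 44, 21], [6, 11], [7, 10, 31], [8, 32, 29], [9,
    30], [14, 25], [15, 26, 39], [16, 48, 45], [22, 43], [23, 42, 55], [27, 38], [28, 33, 60, 37], [34, 59], [35,
    58], [36, 61, 52, 57], [40, 56, 53], [41, 54], [46, 49], [47, 50, 63], [51, 62]]
  word := [[], [], [], [], [1], [1], [1], [], [0], [0], [0], [0], [], [3, 1, 2, 0], [3, 1, 2, 0], [], [], [], [], [],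
    [0], [0], [0], [], [1, 3, 0, 2], [1, 3, 0, 2], [1, 3, 0, 2], [1, 3, 0, 2], [1], [1], [1], [], [0], [], [], [],
    [3, 1, 2], [3, 1, 2, 0], [3, 1, 2, 0], [], [1], [1], [1], [1], [], [], [], [2], [], [], [2], [2], [0, 2], [0],
    [0], [], [3, 1], [], [], [], [3, 0, 2], [3], [3], [3]]
  rank := [0, 0, 1, 2, 3, 4, 5, 0, 7, 6, 5, 4, 0, 12, 11, 0, 0, 2, 1, 0, 3, 0, 1, 0, 12, 11, 10, 9, 8, 7, 6, 0, 8, 0,
    1, 2, 5, 9, 10, 0, 3, 2, 1, 0, 0, 1, 2, 0, 1, 2, 3, 4, 4, 3, 2, 0, 4, 2, 1, 0, 5, 4, 3, 0]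
  just := [0, 0, 2, 3, 4, 1, 5, 0, 8, 6, 5, 1, 0, 9, 10, 0, 0, 3, 2, 0, 4, 0, 12, 0, 9, 10, 14, 15, 7, 8, 6, 0, 7, 0,
    16, 17, 18, 15, 14, 0, 20, 13, 12, 0, 0, 11, 21, 0, 11, 21, 22, 23, 19, 20, 13, 0, 19, 17, 16, 0, 18, 23, 22, 0]
  gA := 21
  gB := 47
  fin := 0
  sid := [0, 1, 2, 3, 4, 1, 5, 6, 7, 8, 6, 5, 1, 0, 9, 10, 11, 4, 3, 2, 1, 4, 12, 13, 0, 9, 10, 14, 15, 7, 8, 6, 7,
    15, 16, 17, 18, 15, 14, 10, 19, 20, 13, 12, 4, 11, 21, 22, 11, 21, 22, 23, 18, 19, 20, 13, 19, 18, 17, 16, 15,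
    18, 23, 22]
  off := [(0, 0), (0, 0), (0, 0), (0, 0), (0, 0), (-1, 0), (0, 0), (0, 0), (0, 0), (0, 0), (1, 0), (1, 0), (0, 0),
    (0, 0), (0, 0), (0, 0), (0, 0), (0, 0), (0, 0), (0, 0), (0, 0), (1, 0), (0, 0), (0, 0), (0, 0), (0, 0), (0, 0),
    (0, 0), (0, 0), (-1, 0), (-1, 0), (0, 0), (0, 0), (1, 0), (0, 0), (0, 0), (0, 0), (0, 0), (0, 0), (0, 0), (0, 0),
    (0, 0), (-1, 0), (-1, 0), (0, 0), (0, 0), (0, 0), (0, 0), (0, 0), (0, 0), (0, 0), (0, 0), (1, 1), (1, 0), (1, 0),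
    (0, 0), (0, -1), (0, 0), (0, 0), (0, 0), (1, 0), (1, 0), (0, -1), (0, -1)]

/-- glued arcs and equations -/
def tord8c_21 : TorT :=
  ⟨[(0, 4, true), (0, 5, false), (1, 3, true), (1, 6, false), (2, 2, true), (2, 6, true), (3, 5, true), (4, 4, true),
    (7, 7, false)],
    [([0, 0, 0, 1, 0, 0, 1, 0], 2), ([0, 0, 1, 0, 0, 0, 0, 2], 2), ([0, 0, 1, 1, 0, 0, 0, 0], 2), ([0, 1, 0, 0, 0, 0,
    1, 0], 2), ([0, 1, 0, 0, 2, 1, 0, 0], 2), ([2, 0, 0, 0, 0, 1, 0, 0], 2)]⟩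

theorem tord8c_21_ok : tord8c_21.OK 8 := TT.leaf_ok (T := ttd8c_21) (by decide +kernel)

/-- the torus -/
def ttd8c_22 : TT where
  k := 4
  rf := [false, false, true, true]
  tau := [4, 12, 11, 13, 0, 16, 17, 23, 29, 30, 14, 2, 1, 3, 10, 31, 5, 6, 22, 26, 25, 27, 18, 7, 28, 20, 19, 21, 24,
    8, 9, 15]
  par := [0, 1, 5, 8]
  stars := [[0, 16, 5], [1, 4, 13], [2, 12], [3, 11, 14], [6, 17], [7, 18, 23], [8, 24, 29], [9, 30], [10, 31, 15],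
    [19, 27, 22], [20, 26], [21, 28, 25]]
  word := [[3], [], [], [2], [2], [], [], [0, 3, 1], [], [], [2], [], [], [3], [3], [3], [], [], [0, 3, 1], [0], [0],
    [0, 2], [0, 2, 1], [0, 2, 1], [2], [1], [1], [3, 1], [3], [], [], [2]]
  rank := [4, 0, 1, 3, 4, 0, 1, 3, 0, 1, 2, 1, 0, 3, 2, 1, 0, 1, 2, 1, 0, 1, 2, 3, 0, 0, 1, 1, 0, 0, 1, 1]
  just := [1, 0, 2, 3, 1, 0, 4, 5, 0, 7, 8, 2, 0, 3, 8, 6, 0, 4, 9, 10, 0, 11, 9, 5, 0, 0, 10, 11, 0, 0, 7, 6]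
  gA := 20
  gB := 24
  fin := 0
  sid := [0, 1, 2, 3, 1, 0, 4, 5, 6, 7, 8, 3, 2, 1, 3, 8, 0, 4, 5, 9, 10, 11, 9, 5, 6, 11, 10, 9, 11, 6, 7, 8]
  off := [(0, 0), (0, 0), (0, 0), (0, 0), (0, 1), (0, 1), (0, 0), (0, 0), (0, 0), (0, 0), (0, 0), (0, 0), (0, 0), (0,
    0), (0, -1), (0, -1), (0, 1), (0, 0), (0, 0), (0, 0), (0, 0), (0, 0), (0, 1), (0, 1), (0, 1), (-1, 0), (-1, 0),
    (-1, 0), (-1, -1), (0, 0), (0, 0), (0, 0)]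

/-- glued arcs and equations -/
def tord8c_22 : TorT :=
  ⟨[(0, 4, true), (0, 5, false), (1, 4, true), (1, 6, false), (2, 3, true), (2, 6, true), (3, 5, true), (7, 7,
    false)],
    [([0, 0, 0, 2, 0, 0, 1, 0], 2), ([0, 0, 1, 0, 0, 0, 0, 2], 2), ([0, 0, 1, 0, 1, 0, 0, 0], 2), ([0, 1, 0, 0, 0, 0,
    1, 0], 2), ([0, 1, 0, 0, 1, 1, 0, 0], 2), ([2, 0, 0, 0, 0, 1, 0, 0], 2)]⟩

theorem tord8c_22_ok : tord8c_22.OK 8 := TT.leaf_ok (T := ttd8c_22) (by decide +kernel)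

/-- the torus -/
def ttd8c_23 : TT where
  k := 4
  rf := [false, false, true, true]
  tau := [12, 19, 20, 17, 18, 11, 10, 31, 29, 30, 6, 5, 0, 24, 25, 23, 28, 3, 4, 1, 2, 27, 26, 15, 13, 14, 22, 21,
    16, 8, 9, 7]
  par := [0, 0, 1, 7]
  stars := [[0, 24, 13], [1, 12, 5, 19], [2, 20], [3, 21, 28, 17], [4, 18], [6, 11], [7, 10, 31], [8, 16, 29], [9,
    30], [14, 25], [15, 26, 23], [22, 27]]
  word := [[], [], [], [0], [0], [0], [0], [], [1], [1], [1], [1], [], [1, 3, 0, 2], [1, 3, 0, 2], [1, 3, 0], [1, 2],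
    [1], [1], [], [], [2], [2], [1, 2, 0], [3, 1, 2, 0], [3, 1, 2, 0], [3], [3], [3, 0], [0], [0], []]
  rank := [0, 0, 1, 2, 1, 0, 1, 0, 3, 2, 1, 0, 0, 6, 5, 4, 3, 2, 1, 0, 1, 0, 1, 4, 6, 5, 1, 0, 3, 3, 2, 0]
  just := [0, 0, 2, 4, 1, 0, 5, 0, 8, 6, 5, 0, 0, 9, 10, 7, 3, 4, 1, 0, 2, 0, 11, 7, 9, 10, 11, 0, 3, 8, 6, 0]
  gA := 5
  gB := 21
  fin := 0
  sid := [0, 1, 2, 3, 4, 1, 5, 6, 7, 8, 6, 5, 1, 0, 9, 10, 7, 3, 4, 1, 2, 3, 11, 10, 0, 9, 10, 11, 3, 7, 8, 6]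
  off := [(0, 0), (0, 0), (0, 0), (0, 0), (0, 0), (1, 0), (0, 0), (0, 0), (0, 0), (0, 0), (-1, 0), (-1, 0), (0, 0),
    (0, 0), (0, 0), (0, 0), (0, 1), (-1, 0), (-1, 0), (0, 0), (0, 0), (0, 0), (0, 0), (0, 1), (0, 0), (0, 0), (0, 0),
    (0, -1), (0, -1), (1, 0), (1, 0), (0, 0)]

/-- glued arcs and equations -/
def tord8c_23 : TorT :=
  ⟨[(0, 4, true), (0, 5, false), (1, 3, false), (1, 6, false), (2, 4, false), (2, 6, true), (3, 5, true), (7, 7,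
    false)],
    [([0, 0, 0, 1, 0, 0, 1, 0], 2), ([0, 0, 1, 0, 0, 0, 0, 2], 2), ([0, 0, 1, 0, 1, 0, 0, 0], 2), ([0, 1, 0, 0, 0, 0,
    1, 0], 2), ([0, 1, 0, 1, 1, 1, 0, 0], 2), ([2, 0, 0, 0, 0, 1, 0, 0], 2)]⟩

theorem tord8c_23_ok : tord8c_23.OK 8 := TT.leaf_ok (T := ttd8c_23) (by decide +kernel)

end Pool.Agent.Lib_MP_fa6e45
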