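import Pool.Agent.Lib_MP_fa6e45.CT5

/-!
MP_fa6e45_co, stage 9: straight-side patterns with `8` sides, tables of tori (generated by a program).
-/

namespace Pool.Agent.Lib_MP_fa6e45

/-- the torus -/
def ttd8c_24 : TT where
  k := 8
  rf := [false, false, true, true, true, true, true, true]
  tau := [10, 9, 8, 16, 24, 13, 32, 47, 2, 1, 0, 40, 48, 5, 56, 23, 3, 54, 53, 52, 59, 58, 57, 15, 4, 38, 37, 36, 43,
    42, 41, 55, 6, 46, 45, 44, 27, 26, 25, 63, 11, 30, 29, 28, 35, 34, 33, 7, 12, 62, 61, 60, 19, 18, 17, 31, 14, 22,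
    21, 20, 51, 50, 49, 39]
  par := [0, 0, 3, 4, 6, 7, 12, 14]
  stars := [[0, 40, 11], [1, 10], [2, 9], [3, 8, 16], [4, 17, 55, 24], [5, 25, 39, 56, 14], [6, 13, 49, 63, 32], [7,
    33, 47], [12, 41, 31, 48], [15, 57, 23], [18, 54], [19, 53], [20, 60, 52], [21, 59], [22, 58], [26, 38], [27,
    37], [28, 44, 36], [29, 43], [30, 42], [34, 46], [35, 45], [50, 62], [51, 61]]
  word := [[], [], [], [], [], [0, 3], [], [], [], [], [], [2, 0, 3, 1], [], [2, 1], [], [], [], [3], [3], [3], [],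
    [], [], [], [], [0, 3, 1], [0, 3, 1], [0, 3, 1], [0, 3, 1], [0, 3, 1], [0, 3, 1], [3], [], [], [], [], [0, 2, 1],
    [0, 2, 1], [0, 2, 1], [0], [0, 2, 1, 3], [0, 2, 1], [0, 2, 1], [0, 2, 1], [], [], [], [], [], [2], [2], [2], [2],
    [2], [2], [2], [], [], [], [], [3], [3], [3], [1]]
  rank := [0, 1, 2, 0, 0, 1, 0, 0, 2, 1, 0, 11, 0, 1, 0, 3, 0, 9, 8, 7, 6, 5, 4, 3, 0, 2, 3, 4, 5, 6, 7, 10, 0, 1, 2,
    3, 4, 3, 2, 0, 11, 7, 6, 5, 3, 2, 1, 0, 0, 0, 1, 2, 7, 8, 9, 10, 0, 4, 5, 6, 2, 1, 0, 0]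
  just := [0, 1, 2, 0, 0, 6, 0, 0, 2, 1, 0, 8, 0, 6, 0, 3, 0, 10, 11, 12, 13, 14, 9, 3, 0, 5, 15, 16, 17, 18, 19, 4,
    0, 7, 20, 21, 16, 15, 5, 0, 8, 19, 18, 17, 21, 20, 7, 0, 0, 0, 22, 23, 12, 11, 10, 4, 0, 9, 14, 13, 23, 22, 0, 0]
  gA := 39
  gB := 49
  fin := 0
  sid := [0, 1, 2, 3, 4, 5, 6, 7, 3, 2, 1, 0, 8, 6, 5, 9, 3, 4, 10, 11, 12, 13, 14, 9, 4, 5, 15, 16, 17, 18, 19, 8,
    6, 7, 20, 21, 17, 16, 15, 5, 0, 8, 19, 18, 17, 21, 20, 7, 8, 6, 22, 23, 12, 11, 10, 4, 5, 9, 14, 13, 12, 23, 22,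
    6]
  off := [(0, 0), (0, 0), (0, 0), (0, 0), (0, 0), (0, 0), (0, 0), (0, 0), (0, 0), (0, 0), (0, 0), (0, 0), (0, 0),
    (-1, 1), (-1, 1), (0, 0), (0, 0), (0, 0), (0, 0), (0, 0), (0, 0), (0, 0), (0, 0), (0, 0), (0, 0), (0, 0), (0, 0),
    (0, 0), (0, 0), (0, 0), (0, 0), (0, -1), (0, 0), (0, 0), (0, 0), (0, 0), (0, 1), (0, 1), (0, 1), (0, 1), (0, 0),
    (0, 0), (0, 1), (0, 1), (0, 1), (0, 0), (0, 0), (0, 0), (0, 0), (-1, 1), (0, 0), (0, 0), (0, 1), (0, 1), (0, 1),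
    (0, 1), (-1, 1), (0, 0), (0, 0), (0, 0), (0, 0), (0, -1), (0, -1), (-1, 0)]

/-- glued arcs and equations -/
def tord8c_24 : TorT :=
  ⟨[(0, 2, true), (0, 3, false), (0, 4, false), (0, 6, false), (1, 1, true), (1, 6, true), (2, 5, true), (3, 4,
    true), (5, 5, true), (7, 7, false), (7, 7, true)],
    [([0, 0, 0, 0, 3, 0, 0, 0], 2), ([0, 0, 0, 1, 0, 1, 0, 0], 2), ([0, 0, 1, 0, 0, 0, 1, 0], 2), ([0, 1, 0, 0, 0, 0,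
    0, 2], 2), ([0, 1, 1, 0, 0, 0, 0, 0], 2), ([1, 1, 0, 0, 0, 1, 1, 1], 2), ([1, 1, 0, 0, 1, 0, 0, 1], 2), ([2, 0,
    0, 1, 0, 0, 0, 0], 2)]⟩

theorem tord8c_24_ok : tord8c_24.OK 8 := TT.leaf_ok (T := ttd8c_24) (by decide +kernel)

/-- the torus -/
def ttd8c_25 : TT where
  k := 8
  rf := [false, false, true, true, false, false, true, true]
  tau := [10, 9, 8, 16, 17, 27, 37, 31, 2, 1, 0, 24, 25, 19, 45, 23, 3, 4, 26, 13, 46, 54, 44, 15, 11, 12, 18, 5, 38,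
    62, 36, 7, 51, 52, 42, 61, 30, 6, 28, 63, 59, 60, 34, 53, 22, 14, 20, 55, 58, 57, 56, 32, 33, 43, 21, 47, 50, 49,
    48, 40, 41, 35, 29, 39]
  par := [0, 0, 3, 5, 6, 14, 21, 29]
  stars := [[0, 24, 11], [1, 10], [2, 9], [3, 8, 16], [4, 17], [5, 18, 27], [6, 28, 38], [7, 37, 31], [12, 25], [13,
    26, 19], [14, 20, 46], [15, 45, 23], [21, 55, 47], [22, 44, 54], [29, 63, 39], [30, 36, 62], [32, 56, 51], [33,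
    52], [34, 53, 43], [35, 42, 61], [40, 48, 59], [41, 60], [49, 58], [50, 57]]
  word := [[], [], [], [], [], [], [], [3, 0, 2], [], [], [], [0], [0], [0], [], [], [], [], [], [1], [1], [], [],
    [], [1], [1], [], [], [], [], [3, 1, 2], [3, 1, 2], [3], [3], [3], [3, 0, 2], [3, 0, 2], [], [], [], [0, 2], [0,
    2], [2], [], [], [], [0], [0], [2], [2], [2], [2], [2], [], [], [1], [3], [3], [3], [3, 1], [3, 1], [3, 1, 2],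
    [], []]
  rank := [0, 1, 2, 0, 1, 0, 0, 9, 2, 1, 0, 4, 3, 2, 0, 3, 0, 1, 2, 2, 1, 0, 4, 3, 4, 3, 2, 0, 1, 0, 8, 9, 3, 4, 6,
    7, 8, 0, 1, 2, 2, 3, 6, 5, 4, 0, 1, 0, 1, 0, 1, 3, 4, 5, 0, 0, 1, 0, 1, 2, 3, 7, 0, 2]
  just := [0, 1, 2, 0, 4, 0, 0, 7, 2, 1, 0, 8, 9, 10, 0, 3, 0, 4, 5, 10, 12, 0, 11, 3, 8, 9, 5, 0, 6, 0, 15, 7, 16,
    17, 18, 19, 15, 0, 6, 14, 20, 21, 18, 13, 11, 0, 12, 0, 22, 0, 23, 16, 17, 13, 0, 0, 23, 0, 22, 20, 21, 19, 0, 14]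
  gA := 47
  gB := 49
  fin := 0
  sid := [0, 1, 2, 3, 4, 5, 6, 7, 3, 2, 1, 0, 8, 9, 10, 11, 3, 4, 5, 9, 10, 12, 13, 11, 0, 8, 9, 5, 6, 14, 15, 7, 16,
    17, 18, 19, 15, 7, 6, 14, 20, 21, 19, 18, 13, 11, 10, 12, 20, 22, 23, 16, 17, 18, 13, 12, 16, 23, 22, 20, 21, 19,
    15, 14]
  off := [(0, 0), (0, 0), (0, 0), (0, 0), (0, 0), (0, 0), (0, 0), (0, 0), (0, 0), (0, 0), (0, 0), (0, 0), (0, 0), (0,
    0), (0, 0), (0, 0), (0, 0), (0, 0), (0, 0), (-1, 0), (-1, 0), (0, 0), (0, 0), (0, 0), (-1, 0), (-1, 0), (-1, 0),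
    (0, 0), (0, 0), (0, 0), (0, 0), (-1, 0), (0, 0), (0, 0), (0, 0), (0, 0), (1, 0), (0, 0), (0, 0), (0, 0), (0, 0),
    (0, 0), (0, 1), (0, 1), (0, 0), (0, 0), (0, 0), (1, 0), (-1, 0), (0, 0), (0, 0), (0, 1), (0, 1), (0, 1), (0, 0),
    (0, 0), (0, 0), (0, -1), (0, -1), (-1, -1), (-1, -1), (-1, 0), (0, 0), (0, 0)]

/-- glued arcs and equations -/
def tord8c_25 : TorT :=
  ⟨[(0, 2, true), (0, 3, false), (1, 1, true), (1, 4, false), (2, 2, true), (3, 5, false), (4, 6, false), (5, 6,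
    true), (7, 7, false)],
    [([0, 0, 0, 0, 0, 1, 0, 2], 2), ([0, 0, 0, 0, 1, 0, 2, 0], 2), ([0, 0, 1, 1, 0, 1, 0, 0], 2), ([0, 1, 0, 0, 1, 0,
    0, 0], 2), ([0, 1, 1, 0, 0, 0, 0, 0], 2), ([2, 0, 0, 1, 0, 0, 0, 0], 2)]⟩

theorem tord8c_25_ok : tord8c_25.OK 8 := TT.leaf_ok (T := ttd8c_25) (by decide +kernel)

/-- the torus -/
def ttd8c_26 : TT where
  k := 8
  rf := [false, false, true, false, true, false, true, true]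
  tau := [3, 9, 10, 0, 16, 28, 27, 23, 11, 1, 2, 8, 32, 44, 43, 39, 4, 29, 30, 54, 53, 25, 26, 7, 52, 21, 22, 6, 5,
    17, 18, 55, 12, 45, 46, 62, 61, 41, 42, 15, 60, 37, 38, 14, 13, 33, 34, 63, 51, 57, 58, 48, 24, 20, 19, 31, 59,
    49, 50, 56, 40, 36, 35, 47]
  par := [0, 1, 4, 5, 12, 13, 19, 35]
  stars := [[0, 16, 4], [1, 3, 10], [2, 9, 11], [5, 17, 29], [6, 28], [7, 27, 23], [8, 32, 12], [13, 33, 45], [14,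
    44], [15, 43, 39], [18, 30], [19, 55, 31], [20, 54], [21, 25, 53], [22, 26], [24, 48, 52], [34, 46], [35, 63,
    47], [36, 62], [37, 41, 61], [38, 42], [40, 56, 60], [49, 58, 51], [50, 59, 57]]
  word := [[3], [], [2], [2], [], [], [], [0, 3, 1], [2], [], [3], [3], [], [], [], [2], [], [], [], [], [], [0, 2,
    1], [0, 2, 1], [0, 2, 1], [0, 3, 1], [0, 3, 1], [0, 3, 1], [], [], [], [], [], [], [], [], [], [], [3], [3], [3],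
    [2], [2], [2], [], [], [], [], [], [0, 3, 1], [0, 3], [0], [0, 2, 1], [0, 2, 1], [], [], [], [2], [2, 1], [1],
    [3], [3], [], [], []]
  rank := [10, 0, 9, 10, 0, 0, 1, 7, 8, 0, 9, 8, 0, 0, 1, 7, 0, 1, 2, 0, 1, 5, 6, 7, 4, 5, 6, 1, 0, 1, 2, 3, 0, 1, 2,
    0, 1, 5, 6, 7, 4, 5, 6, 1, 0, 1, 2, 3, 2, 1, 0, 2, 4, 1, 0, 3, 0, 1, 0, 0, 4, 1, 0, 3]
  just := [1, 0, 2, 1, 0, 0, 4, 5, 6, 0, 2, 6, 0, 0, 8, 9, 0, 3, 10, 0, 12, 13, 14, 5, 15, 13, 14, 4, 0, 3, 10, 11,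
    0, 7, 16, 0, 18, 19, 20, 9, 21, 19, 20, 8, 0, 7, 16, 17, 22, 23, 0, 22, 15, 12, 0, 11, 0, 23, 0, 0, 21, 18, 0, 17]
  gA := 50
  gB := 56
  fin := 0
  sid := [0, 1, 2, 1, 0, 3, 4, 5, 6, 2, 1, 2, 6, 7, 8, 9, 0, 3, 10, 11, 12, 13, 14, 5, 15, 13, 14, 5, 4, 3, 10, 11,
    6, 7, 16, 17, 18, 19, 20, 9, 21, 19, 20, 9, 8, 7, 16, 17, 15, 22, 23, 22, 15, 13, 12, 11, 21, 23, 22, 23, 21, 19,
    18, 17]
  off := [(0, 0), (0, 0), (0, 0), (0, 1), (0, 1), (0, 0), (0, 0), (0, 0), (0, 0), (0, 0), (0, 0), (0, -1), (0, -1),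
    (0, 0), (0, 0), (0, 0), (0, 1), (0, 0), (0, 0), (0, 0), (0, 0), (0, 0), (0, 0), (0, 1), (0, 0), (0, -1), (0, -1),
    (0, 0), (0, 0), (0, 0), (0, 0), (0, 0), (0, -1), (0, 0), (0, 0), (0, 0), (0, 0), (0, 0), (0, 0), (0, -1), (0, 0),
    (0, 1), (0, 1), (0, 0), (0, 0), (0, 0), (0, 0), (0, 0), (0, 0), (0, 0), (0, 0), (0, 1), (0, 1), (0, 0), (0, 0),
    (0, 0), (0, 0), (-1, 1), (-1, 1), (-1, 0), (0, -1), (0, 0), (0, 0), (0, 0)]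

/-- glued arcs and equations -/
def tord8c_26 : TorT :=
  ⟨[(0, 3, true), (0, 4, false), (1, 1, true), (1, 5, false), (2, 2, true), (2, 6, false), (3, 6, true), (4, 5,
    true), (7, 7, false)],
    [([0, 0, 0, 0, 1, 0, 1, 0], 2), ([0, 0, 0, 1, 0, 0, 0, 2], 2), ([0, 0, 1, 0, 0, 0, 1, 0], 2), ([0, 1, 0, 0, 0, 2,
    0, 0], 2), ([0, 1, 1, 1, 0, 0, 0, 0], 2), ([2, 0, 0, 0, 1, 0, 0, 0], 2)]⟩

theorem tord8c_26_ok : tord8c_26.OK 8 := TT.leaf_ok (T := ttd8c_26) (by decide +kernel)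

/-- the torus -/
def ttd8c_27 : TT where
  k := 8
  rf := [false, false, true, false, true, false, true, true]
  tau := [9, 19, 20, 21, 22, 29, 30, 23, 18, 0, 16, 33, 34, 35, 36, 39, 10, 32, 8, 1, 2, 3, 4, 7, 41, 51, 52, 53, 54,
    5, 6, 55, 17, 11, 12, 13, 14, 61, 62, 15, 50, 24, 48, 57, 58, 59, 60, 63, 42, 56, 40, 25, 26, 27, 28, 31, 49, 43,
    44, 45, 46, 37, 38, 47]
  par := [0, 0, 1, 5, 11, 24, 25, 37]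
  stars := [[0, 16, 10], [1, 9, 19], [2, 20], [3, 21], [4, 22], [5, 23, 7, 30], [6, 29, 55, 31], [8, 32, 18], [11,
    17, 33], [12, 34], [13, 35], [14, 36], [15, 37, 62, 39], [24, 48, 42], [25, 41, 51], [26, 52], [27, 53], [28,
    54], [38, 63, 47, 61], [40, 56, 50], [43, 49, 57], [44, 58], [45, 59], [46, 60]]
  word := [[], [], [], [], [], [], [2, 1], [2, 1], [], [], [1, 2], [], [], [], [], [3, 0], [3, 0], [3, 0], [], [],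
    [], [], [], [0, 3], [], [], [], [], [], [], [0, 3], [0, 3], [1, 2], [], [], [], [], [], [1, 2], [1, 2], [], [],
    [0, 3], [0], [0], [0], [0], [2], [2, 1], [2], [], [], [], [], [], [2, 1], [3], [1], [1], [1], [1], [], [3, 0],
    [3]]
  rank := [0, 0, 1, 2, 3, 0, 5, 6, 1, 0, 6, 0, 1, 2, 3, 4, 6, 5, 1, 0, 1, 2, 3, 6, 0, 0, 1, 2, 3, 0, 5, 4, 5, 0, 1,
    2, 3, 0, 2, 4, 1, 0, 3, 2, 1, 0, 1, 0, 3, 2, 1, 0, 1, 2, 3, 4, 2, 2, 1, 0, 1, 0, 2, 0]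
  just := [0, 0, 2, 3, 4, 0, 6, 5, 1, 0, 8, 0, 9, 10, 11, 12, 8, 7, 1, 0, 2, 3, 4, 5, 0, 0, 15, 16, 17, 0, 6, 13, 7,
    0, 9, 10, 11, 0, 18, 12, 14, 0, 20, 21, 22, 0, 23, 0, 20, 19, 14, 0, 15, 16, 17, 13, 19, 21, 22, 0, 23, 0, 18, 0]
  gA := 45
  gB := 47
  fin := 0
  sid := [0, 1, 2, 3, 4, 5, 6, 5, 7, 1, 0, 8, 9, 10, 11, 12, 0, 8, 7, 1, 2, 3, 4, 5, 13, 14, 15, 16, 17, 6, 5, 6, 7,
    8, 9, 10, 11, 12, 18, 12, 19, 14, 13, 20, 21, 22, 23, 18, 13, 20, 19, 14, 15, 16, 17, 6, 19, 20, 21, 22, 23, 18,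
    12, 18]
  off := [(0, 0), (0, 0), (0, 0), (0, 0), (0, 0), (0, 0), (0, 0), (-1, 1), (0, 0), (0, 0), (0, 0), (0, 0), (0, 0),
    (0, 0), (0, 0), (0, 0), (1, -1), (1, -1), (0, 0), (0, 0), (0, 0), (0, 0), (0, 0), (0, 0), (0, 0), (0, 0), (0, 0),
    (0, 0), (0, 0), (0, 0), (0, 0), (1, -1), (-1, 1), (0, 0), (0, 0), (0, 0), (0, 0), (0, 0), (0, 0), (-1, 1), (0,
    0), (0, 0), (0, 0), (0, 0), (0, 0), (0, 0), (0, 0), (1, 0), (-1, 1), (-1, 1), (0, 0), (0, 0), (0, 0), (0, 0), (0,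
    0), (0, 0), (0, -1), (-1, 0), (-1, 0), (-1, 0), (-1, 0), (0, 0), (0, 0), (1, -1)]

/-- glued arcs and equations -/
def tord8c_27 : TorT :=
  ⟨[(0, 1, true), (0, 2, false), (1, 3, false), (2, 4, false), (3, 5, false), (4, 6, false), (5, 5, true), (6, 6,
    true), (7, 7, false)],
    [([0, 0, 0, 0, 0, 1, 1, 2], 2), ([0, 0, 0, 0, 1, 0, 1, 0], 2), ([0, 0, 0, 1, 0, 1, 0, 0], 2), ([0, 0, 1, 0, 1, 0,
    0, 0], 2), ([0, 2, 0, 1, 0, 0, 0, 0], 2), ([2, 0, 1, 0, 0, 0, 0, 0], 2)]⟩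

theorem tord8c_27_ok : tord8c_27.OK 8 := TT.leaf_ok (T := ttd8c_27) (by decide +kernel)

/-- the torus -/
def ttd8c_28 : TT where
  k := 4
  rf := [false, false, true, true]
  tau := [9, 19, 20, 21, 30, 14, 28, 23, 18, 0, 16, 25, 26, 27, 5, 31, 10, 24, 8, 1, 2, 3, 29, 7, 17, 11, 12, 13, 6,
    22, 4, 15]
  par := [0, 0, 1, 4]
  stars := [[0, 16, 10], [1, 9, 19], [2, 20], [3, 21], [4, 22, 30], [5, 31, 15], [6, 14, 28], [7, 29, 23], [8, 24,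
    18], [11, 17, 25], [12, 26], [13, 27]]
  word := [[], [], [], [], [], [3], [3, 0], [3, 0], [], [], [0, 3], [0], [0], [0], [2], [2], [2, 1], [2], [], [], [],
    [], [], [1, 2], [3], [1], [1], [1], [1, 2], [], [], [3]]
  rank := [0, 0, 1, 2, 0, 1, 2, 4, 1, 0, 3, 1, 0, 1, 1, 0, 3, 2, 1, 0, 1, 2, 3, 4, 2, 1, 0, 1, 2, 3, 0, 0]
  just := [0, 0, 2, 3, 0, 5, 6, 7, 1, 0, 9, 10, 0, 11, 5, 0, 9, 8, 1, 0, 2, 3, 4, 7, 8, 10, 0, 11, 6, 4, 0, 0]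
  gA := 12
  gB := 15
  fin := 0
  sid := [0, 1, 2, 3, 4, 5, 6, 7, 8, 1, 0, 9, 10, 11, 6, 5, 0, 9, 8, 1, 2, 3, 4, 7, 8, 9, 10, 11, 6, 7, 4, 5]
  off := [(0, 0), (0, 0), (0, 0), (0, 0), (0, 0), (0, 0), (0, 0), (0, 0), (0, 0), (0, 0), (0, 0), (0, 0), (0, 0), (0,
    0), (0, 1), (0, 1), (-1, 1), (-1, 1), (0, 0), (0, 0), (0, 0), (0, 0), (0, 0), (-1, 1), (0, -1), (-1, 0), (-1, 0),
    (-1, 0), (-1, 1), (-1, 1), (0, 0), (0, 0)]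

/-- glued arcs and equations -/
def tord8c_28 : TorT :=
  ⟨[(0, 1, true), (0, 2, false), (1, 3, false), (2, 4, false), (3, 5, false), (4, 6, false), (5, 6, true), (7, 7,
    false)],
    [([0, 0, 0, 0, 0, 1, 0, 2], 2), ([0, 0, 0, 0, 1, 0, 2, 0], 2), ([0, 0, 0, 1, 0, 1, 0, 0], 2), ([0, 0, 1, 0, 1, 0,
    0, 0], 2), ([0, 2, 0, 1, 0, 0, 0, 0], 2), ([2, 0, 1, 0, 0, 0, 0, 0], 2)]⟩

theorem tord8c_28_ok : tord8c_28.OK 8 := TT.leaf_ok (T := ttd8c_28) (by decide +kernel)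

/-- the torus -/
def ttd8c_29 : TT where
  k := 6
  rf := [false, true, false, false, true, true]
  tau := [8, 18, 25, 33, 34, 35, 36, 47, 0, 19, 20, 21, 22, 38, 45, 31, 40, 26, 1, 9, 10, 11, 12, 39, 32, 2, 17, 41,
    42, 43, 44, 15, 24, 3, 4, 5, 6, 46, 13, 23, 16, 27, 28, 29, 30, 14, 37, 7]
  par := [0, 0, 1, 2, 3, 7]
  stars := [[0, 40, 16, 32, 24, 8], [1, 9, 19], [2, 18, 26], [3, 25, 33], [4, 34], [5, 35], [6, 36], [7, 37, 47],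
    [10, 20], [11, 21], [12, 22], [13, 39, 23], [14, 46, 38], [15, 31, 45], [17, 41, 27], [28, 42], [29, 43], [30,
    44]]
  word := [[], [], [], [], [], [], [], [], [], [], [], [], [], [0], [0], [0, 3], [2], [], [], [], [], [], [], [0],
    [], [], [], [2], [2], [2], [2], [2, 1], [], [], [], [], [], [], [1], [1], [3], [3], [3], [3], [3], [1], [], []]
  rank := [0, 0, 0, 0, 1, 2, 3, 0, 0, 1, 2, 3, 4, 0, 5, 6, 2, 1, 0, 1, 2, 3, 4, 5, 1, 0, 1, 1, 0, 1, 2, 6, 1, 0, 1,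
    2, 3, 4, 0, 5, 2, 1, 0, 1, 2, 5, 4, 0]
  just := [0, 0, 0, 0, 4, 5, 6, 0, 0, 1, 8, 9, 10, 0, 12, 13, 14, 2, 0, 1, 8, 9, 10, 11, 3, 0, 2, 15, 0, 16, 17, 13,
    3, 0, 4, 5, 6, 7, 0, 11, 14, 15, 0, 16, 17, 12, 7, 0]
  gA := 13
  gB := 28
  fin := 0
  sid := [0, 1, 2, 3, 4, 5, 6, 7, 0, 1, 8, 9, 10, 11, 12, 13, 0, 14, 2, 1, 8, 9, 10, 11, 0, 3, 2, 14, 15, 16, 17, 13,
    0, 3, 4, 5, 6, 7, 12, 11, 0, 14, 15, 16, 17, 13, 12, 7]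
  off := [(0, 0), (0, 0), (0, 0), (0, 0), (0, 0), (0, 0), (0, 0), (0, 0), (0, 0), (0, 0), (0, 0), (0, 0), (0, 0), (0,
    0), (0, 0), (0, 0), (0, 1), (0, 0), (0, 0), (0, 0), (0, 0), (0, 0), (0, 0), (0, 0), (-1, 1), (0, 0), (0, 0), (0,
    0), (0, 0), (0, 0), (0, 0), (-1, 1), (-1, 1), (0, 0), (0, 0), (0, 0), (0, 0), (0, 0), (-1, 0), (-1, 0), (0, 0),
    (0, -1), (0, -1), (0, -1), (0, -1), (-1, 0), (-1, 0), (0, 0)]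

/-- glued arcs and equations -/
def tord8c_29 : TorT :=
  ⟨[(0, 0, false), (1, 2, true), (1, 3, false), (2, 4, false), (3, 5, false), (4, 6, false), (5, 6, true), (7, 7,
    false)],
    [([0, 0, 0, 0, 0, 0, 3, 0], 2), ([0, 0, 0, 0, 0, 1, 0, 2], 2), ([0, 0, 0, 0, 1, 0, 1, 0], 2), ([0, 0, 0, 1, 0, 1,
    0, 0], 2), ([0, 0, 1, 0, 1, 0, 0, 0], 2), ([0, 0, 3, 0, 0, 0, 0, 0], 2), ([0, 2, 0, 1, 0, 0, 0, 0], 2), ([6, 0,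
    0, 0, 0, 0, 0, 0], 2)]⟩

theorem tord8c_29_ok : tord8c_29.OK 8 := TT.leaf_ok (T := ttd8c_29) (by decide +kernel)

end Pool.Agent.Lib_MP_fa6e45
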