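import Pool.Agent.Lib_MP_fa6e45.CT5

/-!
MP_fa6e45_co, stage 9: straight-side patterns with `8` sides, tables of tori (generated by a program).
-/

namespace Pool.Agent.Lib_MP_fa6e45

/-- the torus -/
def ttd8c_30 : TT where
  k := 8
  rf := [false, false, true, false, true, true, true, false]
  tau := [10, 21, 26, 38, 30, 29, 28, 23, 19, 20, 0, 16, 17, 41, 51, 47, 11, 12, 40, 8, 9, 1, 27, 7, 58, 37, 2, 22,
    6, 5, 4, 39, 59, 60, 48, 56, 57, 25, 3, 31, 18, 13, 50, 62, 54, 53, 52, 15, 34, 61, 42, 14, 46, 45, 44, 63, 35,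
    36, 24, 32, 33, 49, 43, 55]
  par := [0, 0, 1, 2, 3, 13, 14, 24]
  stars := [[0, 16, 11], [1, 10, 21], [2, 22, 27], [3, 26, 38], [4, 39, 31], [5, 30], [6, 29], [7, 28, 23], [8, 40,
    19], [9, 20], [12, 17], [13, 18, 41], [14, 42, 51], [15, 52, 47], [24, 32, 59], [25, 58, 37], [33, 60], [34, 49,
    61], [35, 56, 48], [36, 57], [43, 62, 50], [44, 55, 63], [45, 54], [46, 53]]
  word := [[], [], [], [], [3, 0], [3, 0], [3, 0], [3, 0], [], [], [], [0, 3], [0, 3], [], [], [2, 1], [2, 1], [2,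
    1], [2, 1], [], [], [], [], [1, 2], [], [], [], [], [1, 2], [1, 2], [1, 2], [1, 2], [3, 0], [3, 0], [3], [], [],
    [], [], [3, 0], [0, 3], [], [], [0], [0, 3], [0, 3], [0, 3], [0, 3], [2], [0], [], [], [2, 1], [2, 1], [2, 1],
    [2], [], [], [], [1, 2], [1, 2], [1], [1], [3]]
  rank := [0, 0, 0, 0, 8, 9, 10, 11, 2, 1, 0, 7, 6, 0, 0, 4, 7, 6, 5, 2, 1, 0, 1, 11, 0, 1, 0, 1, 10, 9, 8, 7, 6, 5,
    4, 3, 2, 1, 0, 7, 5, 0, 1, 0, 1, 2, 3, 4, 4, 2, 1, 0, 3, 2, 1, 0, 3, 2, 0, 6, 5, 2, 0, 0]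
  just := [0, 0, 0, 0, 4, 5, 6, 7, 9, 1, 0, 10, 11, 0, 0, 13, 10, 11, 8, 9, 1, 0, 2, 7, 0, 3, 0, 2, 6, 5, 4, 14, 16,
    17, 18, 19, 15, 3, 0, 14, 8, 0, 12, 0, 21, 22, 23, 13, 18, 20, 12, 0, 23, 22, 21, 0, 19, 15, 0, 16, 17, 20, 0, 0]
  gA := 43
  gB := 55
  fin := 0
  sid := [0, 1, 2, 3, 4, 5, 6, 7, 8, 9, 1, 0, 10, 11, 12, 13, 0, 10, 11, 8, 9, 1, 2, 7, 14, 15, 3, 2, 7, 6, 5, 4, 14,
    16, 17, 18, 19, 15, 3, 4, 8, 11, 12, 20, 21, 22, 23, 13, 18, 17, 20, 12, 13, 23, 22, 21, 18, 19, 15, 14, 16, 17,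
    20, 21]
  off := [(0, 0), (0, 0), (0, 0), (0, 0), (0, 0), (0, 0), (0, 0), (0, 0), (0, 0), (0, 0), (0, 0), (0, 0), (0, 0), (0,
    0), (0, 0), (0, 0), (-1, 1), (-1, 1), (-1, 1), (0, 0), (0, 0), (0, 0), (0, 0), (-1, 1), (0, 0), (0, 0), (0, 0),
    (0, 0), (-1, 1), (-1, 1), (-1, 1), (-1, 1), (1, -1), (0, 0), (0, 0), (0, 0), (0, 0), (0, 0), (0, 0), (0, 0), (1,
    -1), (0, 0), (0, 0), (0, 0), (0, 0), (0, 0), (0, 0), (1, -1), (0, 1), (0, 1), (0, 0), (0, 0), (0, 0), (-1, 1),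
    (-1, 1), (-1, 1), (0, 0), (0, 0), (0, 0), (0, 0), (-1, 1), (-1, 1), (-1, 0), (-1, 0)]

/-- glued arcs and equations -/
def tord8c_30 : TorT :=
  ⟨[(0, 2, true), (0, 3, false), (1, 4, false), (1, 5, false), (2, 2, true), (3, 6, false), (4, 6, true), (5, 5,
    true), (7, 7, false)],
    [([0, 0, 0, 0, 0, 1, 1, 0], 2), ([0, 0, 0, 0, 1, 0, 0, 2], 2), ([0, 0, 1, 1, 0, 0, 1, 0], 2), ([0, 1, 0, 0, 1, 0,
    0, 0], 2), ([0, 1, 1, 0, 0, 1, 0, 0], 2), ([2, 0, 0, 1, 0, 0, 0, 0], 2)]⟩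

theorem tord8c_30_ok : tord8c_30.OK 8 := TT.leaf_ok (T := ttd8c_30) (by decide +kernel)

/-- the torus -/
def ttd8c_31 : TT where
  k := 8
  rf := [false, false, false, true, true, false, true, true]
  tau := [12, 11, 5, 19, 20, 2, 10, 31, 29, 30, 6, 1, 0, 24, 25, 39, 44, 43, 21, 3, 4, 18, 42, 55, 13, 14, 38, 33,
    32, 8, 9, 7, 28, 27, 37, 59, 60, 34, 26, 15, 53, 54, 22, 17, 16, 48, 49, 63, 45, 46, 62, 57, 56, 40, 41, 23, 52,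
    51, 61, 35, 36, 58, 50, 47]
  par := [0, 0, 3, 7, 15, 16, 23, 35]
  stars := [[0, 24, 13], [1, 12], [2, 11, 6], [3, 5, 20], [4, 19, 21], [7, 10, 31], [8, 32, 29], [9, 30], [14, 25],
    [15, 26, 39], [16, 48, 45], [17, 44], [18, 43, 22], [23, 42, 55], [27, 34, 38], [28, 33], [35, 60, 37], [36, 61,
    59], [40, 56, 53], [41, 54], [46, 49], [47, 50, 63], [51, 58, 62], [52, 57]]
  word := [[], [], [0], [], [1], [1], [1], [], [0], [0], [0], [], [], [3, 1, 2, 0], [3, 1, 2, 0], [], [], [], [1],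
    [], [0], [0], [0], [], [1, 3, 0, 2], [1, 3, 0, 2], [1, 3, 0, 2], [1], [1], [1], [1], [], [0], [0], [3, 0, 2], [],
    [3, 1, 2], [3, 1, 2], [3, 1, 2, 0], [], [1], [1], [1], [], [], [], [], [1, 2], [], [], [1, 2], [2], [2], [0],
    [0], [], [3], [3], [3, 1, 2], [], [3, 0, 2], [3, 0, 2], [3, 0], [3, 0]]
  rank := [0, 1, 4, 0, 3, 4, 5, 0, 7, 6, 5, 1, 0, 12, 11, 0, 0, 1, 2, 0, 3, 2, 0, 0, 12, 11, 10, 9, 8, 7, 6, 0, 8, 9,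
    7, 0, 6, 7, 10, 0, 2, 1, 0, 1, 0, 1, 2, 3, 1, 2, 4, 1, 0, 2, 1, 0, 0, 1, 5, 0, 6, 5, 4, 3]
  just := [0, 1, 3, 0, 4, 3, 2, 0, 7, 5, 2, 1, 0, 8, 9, 0, 0, 11, 12, 0, 4, 12, 0, 0, 8, 9, 14, 15, 6, 7, 5, 0, 6,
    15, 16, 0, 17, 16, 14, 0, 19, 13, 0, 11, 0, 10, 20, 18, 10, 20, 21, 23, 0, 19, 13, 0, 0, 23, 22, 0, 17, 22, 21,
    18]
  gA := 22
  gB := 52
  fin := 0
  sid := [0, 1, 2, 3, 4, 3, 2, 5, 6, 7, 5, 2, 1, 0, 8, 9, 10, 11, 12, 4, 3, 4, 12, 13, 0, 8, 9, 14, 15, 6, 7, 5, 6,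
    15, 14, 16, 17, 16, 14, 9, 18, 19, 13, 12, 11, 10, 20, 21, 10, 20, 21, 22, 23, 18, 19, 13, 18, 23, 22, 17, 16,
    17, 22, 21]
  off := [(0, 0), (0, 0), (0, 0), (0, 0), (0, 0), (-1, 0), (-1, 0), (0, 0), (0, 0), (0, 0), (1, 0), (0, 0), (0, 0),
    (0, 0), (0, 0), (0, 0), (0, 0), (0, 0), (0, 0), (0, 0), (0, 0), (1, 0), (1, 0), (0, 0), (0, 0), (0, 0), (0, 0),
    (0, 0), (0, 0), (-1, 0), (-1, 0), (0, 0), (0, 0), (1, 0), (1, 0), (0, 0), (0, 0), (-1, 0), (0, 0), (0, 0), (0,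
    0), (0, 0), (-1, 0), (0, 0), (0, 0), (0, 0), (0, 0), (0, 0), (0, 0), (0, 0), (0, 0), (0, 0), (0, 0), (1, 0), (1,
    0), (0, 0), (1, -1), (0, -1), (0, -1), (0, 0), (0, 0), (1, 0), (1, -1), (1, -1)]

/-- glued arcs and equations -/
def tord8c_31 : TorT :=
  ⟨[(0, 4, true), (0, 5, false), (1, 3, true), (1, 6, false), (2, 5, true), (2, 6, true), (3, 3, true), (4, 4, true),
    (7, 7, false)],
    [([0, 0, 0, 1, 1, 1, 0, 0], 2), ([0, 0, 1, 0, 0, 0, 0, 2], 2), ([0, 0, 1, 1, 0, 0, 1, 0], 2), ([0, 1, 0, 0, 0, 0,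
    1, 0], 2), ([0, 1, 0, 0, 1, 0, 0, 0], 2), ([2, 0, 0, 0, 0, 1, 0, 0], 2)]⟩

theorem tord8c_31_ok : tord8c_31.OK 8 := TT.leaf_ok (T := ttd8c_31) (by decide +kernel)

/-- the torus -/
def ttd8c_32 : TT where
  k := 8
  rf := [false, false, false, true, true, false, true, true]
  tau := [8, 18, 29, 30, 14, 13, 12, 39, 0, 42, 37, 38, 6, 5, 4, 31, 27, 28, 1, 24, 25, 50, 51, 63, 19, 20, 49, 16,
    17, 2, 3, 15, 43, 44, 57, 40, 41, 10, 11, 7, 35, 36, 9, 32, 33, 58, 59, 55, 56, 26, 21, 22, 62, 61, 60, 47, 48,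
    34, 45, 46, 54, 53, 52, 23]
  par := [0, 0, 1, 2, 7, 9, 21, 23]
  stars := [[0, 32, 43, 9], [1, 8, 24, 19], [2, 18, 29], [3, 30], [4, 31, 15], [5, 14], [6, 13], [7, 12, 39], [10,
    42, 37], [11, 38], [16, 56, 49, 27], [17, 28], [20, 25], [21, 26, 50], [22, 51], [23, 52, 63], [33, 44], [34, 58,
    45], [35, 40, 48, 57], [36, 41], [46, 59], [47, 60, 55], [53, 62], [54, 61]]
  word := [[], [], [], [], [0], [0], [0], [], [], [], [1], [1], [1], [1], [1], [1], [], [], [], [1], [1], [], [], [],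
    [0], [0], [0], [], [], [], [], [0], [0, 2, 1, 3], [0, 2, 1, 3], [0, 2, 1], [0], [0], [0], [0], [], [1], [1], [],
    [2, 0, 3, 1], [2, 0, 3, 1], [2], [2], [2], [1], [1], [], [], [], [], [], [3], [0], [0, 3, 1], [3], [3], [], [],
    [], []]
  rank := [0, 0, 0, 1, 0, 1, 2, 0, 0, 0, 4, 3, 2, 1, 0, 2, 2, 1, 0, 3, 4, 0, 1, 0, 3, 4, 5, 2, 1, 0, 1, 2, 9, 8, 7,
    6, 5, 4, 3, 0, 6, 5, 0, 9, 8, 1, 0, 5, 6, 5, 0, 1, 2, 3, 4, 5, 6, 7, 1, 0, 4, 3, 2, 0]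
  just := [0, 0, 0, 3, 0, 5, 6, 0, 0, 0, 9, 7, 6, 5, 0, 4, 11, 2, 0, 1, 12, 0, 14, 0, 1, 12, 13, 11, 2, 0, 3, 4, 16,
    17, 18, 19, 8, 9, 7, 0, 19, 8, 0, 16, 17, 20, 0, 21, 10, 13, 0, 14, 15, 22, 23, 21, 10, 18, 20, 0, 23, 22, 15, 0]
  gA := 4
  gB := 46
  fin := 0
  sid := [0, 1, 2, 3, 4, 5, 6, 7, 1, 0, 8, 9, 7, 6, 5, 4, 10, 11, 2, 1, 12, 13, 14, 15, 1, 12, 13, 10, 11, 2, 3, 4,
    0, 16, 17, 18, 19, 8, 9, 7, 18, 19, 8, 0, 16, 17, 20, 21, 18, 10, 13, 14, 15, 22, 23, 21, 10, 18, 17, 20, 21, 23,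
    22, 15]
  off := [(0, 0), (0, 0), (0, 0), (0, 0), (0, 0), (0, 0), (0, 0), (0, 0), (0, 0), (0, 0), (0, 0), (0, 0), (-1, 0),
    (-1, 0), (-1, 0), (-1, 0), (0, 0), (0, 0), (0, 0), (0, 0), (0, 0), (0, 0), (0, 0), (0, 0), (1, 0), (1, 0), (1,
    0), (0, 0), (0, 0), (0, 0), (0, 0), (0, 0), (0, 0), (0, 0), (0, 0), (0, 0), (0, 0), (1, 0), (1, 0), (0, 0), (-1,
    0), (-1, 0), (0, 0), (0, 0), (0, 0), (0, 0), (0, 0), (0, 0), (-1, -1), (-1, 0), (0, 0), (0, 0), (0, 0), (0, 0),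
    (0, 0), (0, -1), (0, 0), (0, -1), (0, -1), (0, -1), (0, -1), (0, 0), (0, 0), (0, 0)]

/-- glued arcs and equations -/
def tord8c_32 : TorT :=
  ⟨[(0, 0, true), (0, 3, false), (1, 2, true), (1, 4, false), (2, 5, false), (3, 6, false), (4, 6, true), (5, 5,
    true), (7, 7, false)],
    [([0, 0, 0, 0, 0, 1, 1, 0], 2), ([0, 0, 0, 0, 1, 0, 0, 2], 2), ([0, 0, 0, 1, 0, 0, 1, 0], 2), ([0, 0, 2, 0, 0, 1,
    0, 0], 2), ([0, 1, 0, 0, 1, 0, 0, 0], 2), ([2, 1, 0, 1, 0, 0, 0, 0], 2)]⟩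

theorem tord8c_32_ok : tord8c_32.OK 8 := TT.leaf_ok (T := ttd8c_32) (by decide +kernel)

/-- the torus -/
def ttd8c_33 : TT where
  k := 8
  rf := [false, false, false, false, true, true, true, true]
  tau := [8, 20, 19, 13, 12, 11, 26, 39, 0, 28, 27, 5, 4, 3, 18, 47, 45, 46, 14, 2, 1, 40, 41, 55, 37, 38, 6, 10, 9,
    32, 33, 63, 29, 30, 62, 50, 49, 24, 25, 7, 21, 22, 54, 58, 57, 16, 17, 15, 56, 36, 35, 61, 60, 59, 42, 23, 48,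
    44, 43, 53, 52, 51, 34, 31]
  par := [0, 0, 1, 6, 7, 15, 23, 31]
  stars := [[0, 32, 29, 9], [1, 8, 40, 21], [2, 20], [3, 19, 14], [4, 13], [5, 12], [6, 11, 27], [7, 26, 39], [10,
    28], [15, 18, 47], [16, 48, 57, 45], [17, 46], [22, 41], [23, 42, 55], [24, 56, 49, 37], [25, 38], [30, 33], [31,
    34, 63], [35, 51, 62], [36, 50], [43, 59, 54], [44, 58], [52, 61], [53, 60]]
  word := [[], [], [], [0], [0], [0], [], [], [], [1], [1], [1], [1], [1], [1], [], [0], [0], [0], [], [], [], [],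
    [], [], [], [], [0], [0], [3, 0, 2], [3, 0, 2], [], [3, 1, 2], [3, 1, 2], [3, 1, 2], [3, 1], [3, 1], [], [], [],
    [], [], [], [2], [2], [1], [1], [], [0, 2], [0, 2], [0, 2], [2], [2], [2], [], [], [3, 1], [3], [3], [3], [3],
    [3], [3, 0, 2], []]
  rank := [0, 0, 1, 3, 4, 5, 0, 0, 0, 7, 6, 5, 4, 3, 2, 0, 0, 1, 2, 1, 0, 1, 2, 0, 2, 1, 0, 6, 7, 9, 8, 0, 9, 8, 7,
    4, 3, 2, 1, 0, 1, 2, 3, 0, 1, 0, 1, 0, 2, 3, 4, 6, 5, 4, 3, 0, 2, 1, 0, 4, 5, 6, 7, 0]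
  just := [0, 0, 2, 3, 4, 5, 0, 0, 0, 8, 6, 5, 4, 3, 9, 0, 0, 11, 9, 2, 0, 1, 12, 0, 15, 7, 0, 6, 8, 16, 17, 0, 16,
    17, 18, 19, 14, 15, 7, 0, 1, 12, 13, 0, 21, 0, 11, 0, 10, 14, 19, 22, 23, 20, 13, 0, 10, 21, 0, 20, 23, 22, 18, 0]
  gA := 16
  gB := 43
  fin := 0
  sid := [0, 1, 2, 3, 4, 5, 6, 7, 1, 0, 8, 6, 5, 4, 3, 9, 10, 11, 9, 3, 2, 1, 12, 13, 14, 15, 7, 6, 8, 0, 16, 17, 0,
    16, 17, 18, 19, 14, 15, 7, 1, 12, 13, 20, 21, 10, 11, 9, 10, 14, 19, 18, 22, 23, 20, 13, 14, 10, 21, 20, 23, 22,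
    18, 17]
  off := [(0, 0), (0, 0), (0, 0), (0, 0), (0, 0), (0, 0), (0, 0), (0, 0), (0, 0), (0, 0), (0, 0), (-1, 0), (-1, 0),
    (-1, 0), (-1, 0), (0, 0), (0, 0), (0, 0), (1, 0), (0, 0), (0, 0), (0, 0), (0, 0), (0, 0), (0, 0), (0, 0), (0, 0),
    (0, 0), (1, 0), (1, 0), (0, 0), (0, 0), (0, 0), (-1, 0), (-1, 0), (0, 0), (0, 0), (0, 0), (0, 0), (0, 0), (0, 0),
    (0, 0), (0, 0), (0, 0), (0, 0), (-1, 0), (-1, 0), (0, 0), (0, 0), (1, 1), (1, 1), (1, 1), (0, 0), (0, 0), (0, 0),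
    (0, 0), (0, 0), (-1, -1), (0, -1), (0, -1), (0, -1), (0, -1), (1, 0), (0, 0)]

/-- glued arcs and equations -/
def tord8c_33 : TorT :=
  ⟨[(0, 0, true), (0, 5, false), (1, 4, true), (1, 6, false), (2, 3, true), (2, 6, true), (3, 5, true), (4, 4, true),
    (7, 7, false)],
    [([0, 0, 0, 0, 1, 1, 0, 0], 2), ([0, 0, 0, 2, 0, 0, 1, 0], 2), ([0, 0, 1, 0, 0, 0, 0, 2], 2), ([0, 0, 1, 0, 1, 0,
    0, 0], 2), ([0, 1, 0, 0, 0, 0, 1, 0], 2), ([2, 1, 0, 0, 0, 1, 0, 0], 2)]⟩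

theorem tord8c_33_ok : tord8c_33.OK 8 := TT.leaf_ok (T := ttd8c_33) (by decide +kernel)

/-- the torus -/
def ttd8c_34 : TT where
  k := 8
  rf := [false, false, false, false, true, true, true, true]
  tau := [13, 12, 11, 19, 26, 21, 9, 39, 38, 6, 20, 2, 1, 0, 32, 47, 29, 28, 27, 3, 10, 5, 25, 55, 54, 22, 4, 18, 17,
    16, 48, 63, 14, 46, 60, 42, 41, 40, 8, 7, 37, 36, 35, 59, 50, 61, 33, 15, 30, 62, 44, 58, 57, 56, 24, 23, 53, 52,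
    51, 43, 34, 45, 49, 31]
  par := [0, 0, 3, 4, 7, 15, 23, 31]
  stars := [[0, 32, 14], [1, 13], [2, 12], [3, 11, 20], [4, 19, 27], [5, 26, 22], [6, 21, 10], [7, 9, 39], [8, 40,
    38], [15, 33, 47], [16, 48, 30], [17, 29], [18, 28], [23, 25, 55], [24, 56, 54], [31, 49, 63], [34, 61, 46], [35,
    43, 60], [36, 42], [37, 41], [44, 51, 59], [45, 62, 50], [52, 58], [53, 57]]
  word := [[], [], [], [], [], [1], [1], [], [0], [0], [], [], [], [], [2, 1, 3, 0], [], [], [], [], [], [], [0],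
    [0], [], [1], [1], [], [], [], [], [], [], [1, 2, 0, 3], [1, 2, 0, 3], [1, 2, 0], [1], [1], [1], [1], [], [0],
    [0], [0], [2, 0], [2], [2], [2, 1, 3, 0], [], [], [], [3], [0], [0], [0], [0], [], [1], [1], [1], [1, 3], [1, 3,
    0], [3], [], []]
  rank := [0, 1, 2, 0, 0, 1, 4, 0, 5, 4, 3, 2, 1, 0, 11, 0, 3, 2, 1, 0, 3, 1, 0, 0, 1, 0, 0, 1, 2, 3, 4, 0, 11, 10,
    9, 8, 7, 6, 5, 0, 6, 7, 8, 5, 0, 6, 10, 0, 4, 5, 0, 4, 3, 2, 1, 0, 2, 3, 4, 5, 9, 6, 5, 0]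
  just := [0, 1, 2, 0, 0, 5, 6, 0, 7, 6, 3, 2, 1, 0, 9, 0, 11, 12, 4, 0, 3, 5, 0, 0, 13, 0, 0, 4, 12, 11, 10, 0, 9,
    16, 17, 18, 19, 8, 7, 0, 8, 19, 18, 20, 0, 21, 16, 0, 10, 15, 0, 22, 23, 14, 13, 0, 14, 23, 22, 20, 17, 21, 15, 0]
  gA := 22
  gB := 44
  fin := 0
  sid := [0, 1, 2, 3, 4, 5, 6, 7, 8, 7, 6, 3, 2, 1, 0, 9, 10, 11, 12, 4, 3, 6, 5, 13, 14, 13, 5, 4, 12, 11, 10, 15,
    0, 9, 16, 17, 18, 19, 8, 7, 8, 19, 18, 17, 20, 21, 16, 9, 10, 15, 21, 20, 22, 23, 14, 13, 14, 23, 22, 20, 17, 16,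
    21, 15]
  off := [(0, 0), (0, 0), (0, 0), (0, 0), (0, 0), (0, 0), (0, 0), (0, 0), (0, 0), (1, 0), (1, 0), (0, 0), (0, 0), (0,
    0), (0, 0), (0, 0), (0, 0), (0, 0), (0, 0), (0, 0), (0, 0), (1, 0), (1, 0), (0, 0), (0, 0), (-1, 0), (0, 0), (0,
    0), (0, 0), (0, 0), (0, 0), (0, 0), (0, 0), (0, 0), (0, 0), (0, 0), (0, 0), (0, 0), (-1, 0), (0, 0), (0, 0), (1,
    0), (1, 0), (1, 0), (0, 0), (0, 0), (0, 0), (0, 0), (0, 0), (0, 0), (0, -1), (0, -1), (0, 0), (0, 0), (1, 0), (0,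
    0), (0, 0), (-1, 0), (-1, 0), (-1, -1), (0, -1), (0, -1), (0, -1), (0, 0)]

/-- glued arcs and equations -/
def tord8c_34 : TorT :=
  ⟨[(0, 5, true), (0, 6, false), (1, 4, true), (1, 6, true), (2, 3, true), (2, 4, true), (3, 3, true), (5, 5, true),
    (7, 7, false)],
    [([0, 0, 0, 2, 1, 0, 0, 0], 2), ([0, 0, 1, 0, 0, 1, 1, 0], 2), ([0, 0, 1, 0, 1, 0, 0, 0], 2), ([0, 1, 0, 0, 0, 0,
    0, 2], 2), ([0, 1, 0, 0, 0, 1, 0, 0], 2), ([2, 0, 0, 0, 0, 0, 1, 0], 2)]⟩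

theorem tord8c_34_ok : tord8c_34.OK 8 := TT.leaf_ok (T := ttd8c_34) (by decide +kernel)

/-- the torus -/
def ttd8c_35 : TT where
  k := 8
  rf := [false, false, true, true, false, true, true, false]
  tau := [8, 19, 20, 21, 30, 38, 28, 23, 0, 43, 44, 45, 54, 62, 52, 47, 42, 41, 40, 1, 2, 3, 29, 7, 48, 35, 36, 37,
    6, 22, 4, 39, 58, 57, 56, 25, 26, 27, 5, 31, 18, 17, 16, 9, 10, 11, 53, 15, 24, 59, 60, 61, 14, 46, 12, 63, 34,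
    33, 32, 49, 50, 51, 13, 55]
  par := [0, 0, 1, 4, 5, 9, 12, 13]
  stars := [[0, 16, 43, 9], [1, 8, 40, 19], [2, 20], [3, 21], [4, 22, 30], [5, 31, 39], [6, 38, 28], [7, 29, 23],
    [10, 44], [11, 45], [12, 46, 54], [13, 55, 63], [14, 62, 52], [15, 53, 47], [17, 42], [18, 41], [24, 49, 59, 32],
    [25, 35, 56, 48], [26, 36], [27, 37], [33, 58], [34, 57], [50, 60], [51, 61]]
  word := [[], [], [], [], [], [], [0, 2, 1], [0, 2, 1], [], [], [], [], [], [], [3], [3], [3], [3], [3], [], [], [],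
    [], [0, 3, 1], [0, 3], [0, 3, 1], [0, 3, 1], [0, 3, 1], [0, 3, 1], [], [], [], [0], [0], [0], [0, 2, 1], [0, 2,
    1], [0, 2, 1], [], [], [2], [2], [2], [], [], [], [], [2], [2, 1], [2], [2], [2], [2], [], [], [], [1], [1], [1],
    [3], [3], [3], [], []]
  rank := [0, 0, 1, 2, 0, 0, 6, 7, 0, 0, 1, 2, 0, 0, 2, 4, 7, 6, 5, 0, 1, 2, 3, 7, 2, 3, 4, 5, 6, 3, 0, 1, 1, 0, 1,
    3, 4, 5, 0, 1, 5, 6, 7, 0, 1, 2, 3, 4, 2, 1, 0, 1, 2, 3, 0, 1, 1, 0, 1, 1, 0, 1, 0, 1]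
  just := [0, 0, 2, 3, 0, 0, 6, 7, 0, 0, 8, 9, 0, 0, 12, 13, 14, 15, 1, 0, 2, 3, 4, 7, 16, 17, 18, 19, 6, 4, 0, 5,
    20, 0, 21, 17, 18, 19, 0, 5, 1, 15, 14, 0, 8, 9, 10, 13, 16, 22, 0, 23, 12, 10, 0, 11, 21, 0, 20, 22, 0, 23, 0,
    11]
  gA := 33
  gB := 50
  fin := 0
  sid := [0, 1, 2, 3, 4, 5, 6, 7, 1, 0, 8, 9, 10, 11, 12, 13, 0, 14, 15, 1, 2, 3, 4, 7, 16, 17, 18, 19, 6, 7, 4, 5,
    16, 20, 21, 17, 18, 19, 6, 5, 1, 15, 14, 0, 8, 9, 10, 13, 17, 16, 22, 23, 12, 13, 10, 11, 17, 21, 20, 16, 22, 23,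
    12, 11]
  off := [(0, 0), (0, 0), (0, 0), (0, 0), (0, 0), (0, 0), (0, 0), (0, 0), (0, 0), (0, 0), (0, 0), (0, 0), (0, 0), (0,
    0), (0, 0), (0, 0), (0, -1), (0, 0), (0, 0), (0, 0), (0, 0), (0, 0), (0, 0), (0, -1), (0, 0), (0, 0), (0, 0), (0,
    0), (0, -1), (0, -1), (0, 0), (0, 0), (0, 0), (0, 0), (0, 0), (0, 1), (0, 1), (0, 1), (0, 0), (0, 0), (0, 1), (0,
    1), (0, 1), (0, 0), (0, 0), (0, 0), (0, 0), (0, 1), (-1, 1), (-1, 1), (0, 0), (0, 0), (0, 1), (0, 1), (0, 0), (0,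
    0), (-1, 1), (-1, 0), (-1, 0), (-1, 0), (0, -1), (0, -1), (0, 0), (0, 0)]

/-- glued arcs and equations -/
def tord8c_35 : TorT :=
  ⟨[(0, 0, true), (0, 2, true), (1, 1, true), (1, 3, false), (2, 4, false), (3, 5, false), (4, 6, false), (5, 6,
    true), (7, 7, false)],
    [([0, 0, 0, 0, 0, 1, 0, 2], 2), ([0, 0, 0, 0, 1, 0, 2, 0], 2), ([0, 0, 0, 1, 0, 1, 0, 0], 2), ([0, 0, 1, 0, 1, 0,
    0, 0], 2), ([0, 1, 1, 0, 0, 0, 0, 0], 2), ([2, 1, 0, 1, 0, 0, 0, 0], 2)]⟩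

theorem tord8c_35_ok : tord8c_35.OK 8 := TT.leaf_ok (T := ttd8c_35) (by decide +kernel)

end Pool.Agent.Lib_MP_fa6e45
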