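import Pool.Agent.Lib_MP_fa6e45.CT5

/-!
MP_fa6e45_co, stage 9: straight-side patterns with `8` sides, tables of tori (generated by a program).
-/

namespace Pool.Agent.Lib_MP_fa6e45

/-- the torus -/
def ttd8c_36 : TT where
  k := 4
  rf := [false, false, true, true]
  tau := [11, 10, 22, 14, 13, 25, 18, 31, 28, 21, 1, 0, 24, 4, 3, 23, 27, 26, 6, 30, 29, 9, 2, 15, 12, 5, 17, 16, 8,
    20, 19, 7]
  par := [0, 0, 2, 5]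
  stars := [[0, 24, 12], [1, 11], [2, 10, 22], [3, 23, 15], [4, 14], [5, 13, 25], [6, 26, 18], [7, 19, 31], [8, 16,
    28], [9, 29, 21], [17, 27], [20, 30]]
  word := [[], [], [], [3], [3], [], [1, 2], [1, 2, 0], [0], [], [], [], [2], [2], [2], [2], [3, 0], [3, 0], [3, 0],
    [0], [0], [], [], [3], [3], [], [1, 2], [1, 2], [1], [1], [1], [1, 3, 0]]
  rank := [0, 1, 0, 1, 2, 0, 3, 5, 0, 2, 1, 0, 3, 2, 1, 0, 1, 2, 3, 4, 3, 2, 0, 0, 3, 0, 2, 1, 0, 3, 4, 5]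
  just := [0, 1, 0, 3, 4, 0, 6, 7, 0, 2, 1, 0, 5, 4, 3, 0, 8, 10, 6, 11, 9, 2, 0, 0, 5, 0, 10, 8, 0, 9, 11, 7]
  gA := 8
  gB := 15
  fin := 0
  sid := [0, 1, 2, 3, 4, 5, 6, 7, 8, 9, 2, 1, 0, 5, 4, 3, 8, 10, 6, 7, 11, 9, 2, 3, 0, 5, 6, 10, 8, 9, 11, 7]
  off := [(0, 0), (0, 0), (0, 0), (0, 0), (0, 0), (0, 0), (0, 0), (0, 0), (0, 0), (0, 0), (0, 0), (0, 0), (0, 0), (0,
    1), (0, 1), (0, 1), (0, -1), (0, 0), (1, -1), (1, -1), (0, 0), (0, 0), (0, 0), (0, 0), (0, -1), (0, 0), (0, 0),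
    (-1, 1), (-1, 0), (-1, 0), (-1, 0), (0, -1)]

/-- glued arcs and equations -/
def tord8c_36 : TorT :=
  ⟨[(0, 3, true), (0, 4, false), (1, 2, true), (1, 5, false), (2, 6, false), (3, 6, true), (4, 5, true), (7, 7,
    false)],
    [([0, 0, 0, 0, 1, 0, 1, 0], 2), ([0, 0, 0, 1, 0, 0, 0, 2], 2), ([0, 0, 2, 0, 0, 0, 1, 0], 2), ([0, 1, 0, 0, 0, 2,
    0, 0], 2), ([0, 1, 0, 1, 0, 0, 0, 0], 2), ([2, 0, 0, 0, 1, 0, 0, 0], 2)]⟩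

theorem tord8c_36_ok : tord8c_36.OK 8 := TT.leaf_ok (T := ttd8c_36) (by decide +kernel)

/-- the torus -/
def ttd8c_37 : TT where
  k := 8
  rf := [false, false, false, false, true, true, true, true]
  tau := [12, 17, 27, 21, 20, 19, 10, 39, 37, 38, 6, 18, 0, 32, 33, 47, 28, 1, 11, 5, 4, 3, 26, 55, 53, 54, 22, 2,
    16, 48, 49, 63, 13, 14, 46, 58, 40, 8, 9, 7, 36, 57, 51, 61, 60, 59, 34, 15, 29, 30, 62, 42, 56, 24, 25, 23, 52,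
    41, 35, 45, 44, 43, 50, 31]
  par := [0, 0, 1, 2, 7, 15, 23, 31]
  stars := [[0, 32, 13], [1, 12, 18], [2, 17, 28], [3, 27, 22], [4, 21], [5, 20], [6, 19, 11], [7, 10, 39], [8, 40,
    37], [9, 38], [14, 33], [15, 34, 47], [16, 48, 29], [23, 26, 55], [24, 56, 53], [25, 54], [30, 49], [31, 50, 63],
    [35, 59, 46], [36, 41, 58], [42, 52, 57], [43, 62, 51], [44, 61], [45, 60]]
  word := [[], [], [], [0], [0], [0], [0], [], [1], [1], [1], [], [], [2, 0, 3, 1], [2, 0, 3, 1], [], [], [], [],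
    [1], [1], [1], [1], [], [0], [0], [0], [], [], [], [], [], [0, 2, 1, 3], [0, 2, 1, 3], [0, 2, 1, 3], [0, 2, 1],
    [0], [0], [0], [], [1], [2, 1], [2], [2], [2], [2], [2, 0, 3, 1], [], [], [], [], [3], [1], [1], [1], [], [0],
    [0, 3], [0, 3, 1], [3], [3], [3], [], []]
  rank := [0, 0, 0, 0, 1, 2, 3, 0, 5, 4, 3, 1, 0, 10, 9, 0, 1, 0, 1, 2, 1, 0, 1, 0, 3, 2, 1, 0, 1, 2, 3, 0, 10, 9, 8,
    7, 6, 5, 4, 0, 6, 6, 5, 0, 1, 2, 8, 0, 2, 3, 4, 5, 4, 3, 2, 0, 4, 6, 7, 2, 1, 0, 4, 0]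
  just := [0, 0, 0, 0, 4, 5, 6, 0, 9, 7, 6, 1, 0, 10, 11, 0, 2, 0, 1, 5, 4, 0, 3, 0, 15, 13, 3, 0, 2, 12, 16, 0, 10,
    11, 18, 19, 8, 9, 7, 0, 8, 20, 21, 0, 22, 23, 18, 0, 12, 16, 17, 21, 14, 15, 13, 0, 14, 20, 19, 23, 22, 0, 17, 0]
  gA := 3
  gB := 43
  fin := 0
  sid := [0, 1, 2, 3, 4, 5, 6, 7, 8, 9, 7, 6, 1, 0, 10, 11, 12, 2, 1, 6, 5, 4, 3, 13, 14, 15, 13, 3, 2, 12, 16, 17,
    0, 10, 11, 18, 19, 8, 9, 7, 8, 19, 20, 21, 22, 23, 18, 11, 12, 16, 17, 21, 20, 14, 15, 13, 14, 20, 19, 18, 23,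
    22, 21, 17]
  off := [(0, 0), (0, 0), (0, 0), (0, 0), (0, 0), (0, 0), (0, 0), (0, 0), (0, 0), (0, 0), (-1, 0), (-1, 0), (0, 0),
    (0, 0), (0, 0), (0, 0), (0, 0), (0, 0), (0, 0), (-1, 0), (-1, 0), (-1, 0), (-1, 0), (0, 0), (0, 0), (0, 0), (1,
    0), (0, 0), (0, 0), (0, 0), (0, 0), (0, 0), (0, 0), (0, 0), (0, 0), (0, 0), (0, 0), (1, 0), (1, 0), (0, 0), (0,
    0), (-1, 0), (0, 0), (0, 0), (0, 0), (0, 0), (0, 0), (0, 0), (0, 0), (0, 0), (0, 0), (0, -1), (0, -1), (-1, 0),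
    (-1, 0), (0, 0), (0, 0), (1, -1), (0, -1), (0, -1), (0, -1), (0, -1), (0, -1), (0, 0)]

/-- glued arcs and equations -/
def tord8c_37 : TorT :=
  ⟨[(0, 4, true), (0, 5, false), (1, 1, true), (1, 6, false), (2, 3, true), (2, 6, true), (3, 5, true), (4, 4, true),
    (7, 7, false)],
    [([0, 0, 0, 0, 1, 1, 0, 0], 2), ([0, 0, 0, 2, 0, 0, 1, 0], 2), ([0, 0, 1, 0, 0, 0, 0, 2], 2), ([0, 1, 0, 0, 0, 0,
    1, 0], 2), ([0, 1, 1, 0, 1, 0, 0, 0], 2), ([2, 0, 0, 0, 0, 1, 0, 0], 2)]⟩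

theorem tord8c_37_ok : tord8c_37.OK 8 := TT.leaf_ok (T := ttd8c_37) (by decide +kernel)

/-- the torus -/
def ttd8c_38 : TT where
  k := 8
  rf := [false, false, true, false, true, false, true, true]
  tau := [8, 11, 10, 9, 16, 17, 28, 23, 0, 3, 2, 1, 32, 33, 44, 39, 4, 5, 29, 30, 54, 26, 27, 7, 52, 53, 21, 22, 6,
    18, 19, 55, 12, 13, 45, 46, 62, 42, 43, 15, 60, 61, 37, 38, 14, 34, 35, 63, 56, 59, 58, 57, 24, 25, 20, 31, 48,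
    51, 50, 49, 40, 41, 36, 47]
  par := [0, 0, 4, 6, 12, 14, 20, 36]
  stars := [[0, 16, 4, 9], [1, 8, 32, 12], [2, 11], [3, 10], [5, 17], [6, 18, 29], [7, 28, 23], [13, 33], [14, 34,
    45], [15, 44, 39], [19, 30], [20, 55, 31], [21, 26, 54], [22, 27], [24, 48, 57, 52], [25, 53], [35, 46], [36, 63,
    47], [37, 42, 62], [38, 43], [40, 56, 49, 60], [41, 61], [50, 59], [51, 58]]
  word := [[], [0], [0], [0], [], [], [], [2, 1, 3], [], [1], [1], [1], [], [], [], [0], [], [], [], [], [], [2, 0,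
    3], [2, 0, 3], [2, 0, 3], [2, 1, 3], [2, 1, 3], [2, 1, 3], [2, 1, 3], [], [], [], [], [], [], [], [], [], [1],
    [1], [1], [0], [0], [0], [0], [], [], [], [], [2, 1], [2], [2], [2], [2, 0, 3], [2, 0, 3], [], [], [0, 3], [3],
    [3], [3], [1], [1], [], []]
  rank := [0, 5, 6, 7, 0, 1, 0, 10, 0, 7, 6, 5, 0, 1, 0, 4, 0, 1, 2, 3, 0, 8, 9, 10, 6, 7, 8, 9, 0, 2, 3, 4, 0, 1, 2,
    3, 0, 2, 3, 4, 0, 1, 2, 3, 0, 2, 3, 4, 5, 1, 0, 1, 6, 7, 0, 4, 5, 1, 0, 1, 0, 1, 0, 4]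
  just := [0, 1, 2, 3, 0, 4, 0, 6, 0, 3, 2, 1, 0, 7, 0, 9, 0, 4, 5, 10, 0, 12, 13, 6, 14, 15, 12, 13, 0, 5, 10, 11,
    0, 7, 8, 16, 0, 18, 19, 9, 0, 21, 18, 19, 0, 8, 16, 17, 20, 22, 0, 23, 14, 15, 0, 11, 20, 23, 0, 22, 0, 21, 0, 17]
  gA := 40
  gB := 50
  fin := 0
  sid := [0, 1, 2, 3, 0, 4, 5, 6, 1, 0, 3, 2, 1, 7, 8, 9, 0, 4, 5, 10, 11, 12, 13, 6, 14, 15, 12, 13, 6, 5, 10, 11,
    1, 7, 8, 16, 17, 18, 19, 9, 20, 21, 18, 19, 9, 8, 16, 17, 14, 20, 22, 23, 14, 15, 12, 11, 20, 14, 23, 22, 20, 21,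
    18, 17]
  off := [(0, 0), (0, 0), (0, 0), (0, 0), (1, 0), (0, 0), (0, 0), (0, 0), (0, 0), (0, 0), (-1, 0), (-1, 0), (-1, 0),
    (0, 0), (0, 0), (0, 0), (1, 0), (0, 0), (0, 0), (0, 0), (0, 0), (0, 0), (0, 0), (1, 0), (0, 0), (0, 0), (-1, 0),
    (-1, 0), (0, 0), (0, 0), (0, 0), (0, 0), (-1, 0), (0, 0), (0, 0), (0, 0), (0, 0), (0, 0), (0, 0), (-1, 0), (0,
    0), (0, 0), (1, 0), (1, 0), (0, 0), (0, 0), (0, 0), (0, 0), (0, 0), (-1, 1), (0, 0), (0, 0), (1, 0), (1, 0), (0,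
    0), (0, 0), (0, 0), (1, -1), (0, -1), (0, -1), (-1, 0), (-1, 0), (0, 0), (0, 0)]

/-- glued arcs and equations -/
def tord8c_38 : TorT :=
  ⟨[(0, 0, true), (0, 4, false), (1, 3, true), (1, 5, false), (2, 2, true), (2, 5, false), (3, 6, false), (4, 6,
    true), (7, 7, false)],
    [([0, 0, 0, 0, 1, 0, 0, 2], 2), ([0, 0, 0, 1, 0, 0, 1, 0], 2), ([0, 0, 1, 0, 0, 1, 1, 0], 2), ([0, 0, 1, 1, 0, 0,
    0, 0], 2), ([0, 1, 0, 0, 0, 1, 0, 0], 2), ([2, 1, 0, 0, 1, 0, 0, 0], 2)]⟩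

theorem tord8c_38_ok : tord8c_38.OK 8 := TT.leaf_ok (T := ttd8c_38) (by decide +kernel)

/-- the torus -/
def ttd8c_39 : TT where
  k := 8
  rf := [false, false, true, false, true, false, true, true]
  tau := [10, 9, 8, 11, 16, 17, 28, 23, 2, 1, 0, 3, 32, 33, 44, 39, 4, 5, 29, 30, 54, 26, 27, 7, 52, 53, 21, 22, 6,
    18, 19, 55, 12, 13, 45, 46, 62, 42, 43, 15, 60, 61, 37, 38, 14, 34, 35, 63, 58, 57, 56, 59, 24, 25, 20, 31, 50,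
    49, 48, 51, 40, 41, 36, 47]
  par := [0, 0, 4, 6, 12, 14, 20, 36]
  stars := [[0, 16, 4, 11], [1, 10], [2, 9], [3, 8, 32, 12], [5, 17], [6, 18, 29], [7, 28, 23], [13, 33], [14, 34,
    45], [15, 44, 39], [19, 30], [20, 55, 31], [21, 26, 54], [22, 27], [24, 48, 59, 52], [25, 53], [35, 46], [36, 63,
    47], [37, 42, 62], [38, 43], [40, 56, 51, 60], [41, 61], [49, 58], [50, 57]]
  word := [[], [], [], [1, 2], [], [], [], [0, 3], [], [], [], [3, 0], [], [], [], [1, 2], [], [], [], [], [], [2,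
    1], [2, 1], [2, 1], [0, 3], [0, 3], [0, 3], [0, 3], [], [], [], [], [], [], [], [], [], [3, 0], [3, 0], [3, 0],
    [1, 2], [1, 2], [1, 2], [1, 2], [], [], [], [], [0], [0], [0], [2], [2, 1], [2, 1], [], [], [1], [1], [1], [3],
    [3, 0], [3, 0], [], []]
  rank := [0, 1, 2, 10, 0, 1, 0, 9, 2, 1, 0, 10, 0, 1, 0, 9, 0, 1, 2, 3, 0, 7, 8, 9, 5, 6, 7, 8, 0, 2, 3, 4, 0, 1, 2,
    3, 0, 7, 8, 9, 5, 6, 7, 8, 0, 2, 3, 4, 1, 0, 1, 0, 5, 6, 0, 4, 1, 0, 1, 0, 5, 6, 0, 4]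
  just := [0, 1, 2, 3, 0, 4, 0, 6, 2, 1, 0, 3, 0, 7, 0, 9, 0, 4, 5, 10, 0, 12, 13, 6, 14, 15, 12, 13, 0, 5, 10, 11,
    0, 7, 8, 16, 0, 18, 19, 9, 20, 21, 18, 19, 0, 8, 16, 17, 22, 0, 23, 0, 14, 15, 0, 11, 23, 0, 22, 0, 20, 21, 0, 17]
  gA := 49
  gB := 51
  fin := 0
  sid := [0, 1, 2, 3, 0, 4, 5, 6, 3, 2, 1, 0, 3, 7, 8, 9, 0, 4, 5, 10, 11, 12, 13, 6, 14, 15, 12, 13, 6, 5, 10, 11,
    3, 7, 8, 16, 17, 18, 19, 9, 20, 21, 18, 19, 9, 8, 16, 17, 14, 22, 23, 20, 14, 15, 12, 11, 20, 23, 22, 14, 20, 21,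
    18, 17]
  off := [(0, 0), (0, 0), (0, 0), (0, 0), (-1, 1), (0, 0), (0, 0), (0, 0), (0, 0), (0, 0), (0, 0), (0, 0), (1, -1),
    (0, 0), (0, 0), (0, 0), (-1, 1), (0, 0), (0, 0), (0, 0), (0, 0), (0, 0), (0, 0), (-1, 1), (0, 0), (0, 0), (1,
    -1), (1, -1), (0, 0), (0, 0), (0, 0), (0, 0), (1, -1), (0, 0), (0, 0), (0, 0), (0, 0), (0, 0), (0, 0), (1, -1),
    (0, 0), (0, 0), (-1, 1), (-1, 1), (0, 0), (0, 0), (0, 0), (0, 0), (0, 0), (0, 0), (0, 0), (1, 0), (-1, 1), (-1,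
    1), (0, 0), (0, 0), (0, 0), (-1, 0), (-1, 0), (-1, 0), (1, -1), (1, -1), (0, 0), (0, 0)]

/-- glued arcs and equations -/
def tord8c_39 : TorT :=
  ⟨[(0, 2, true), (0, 4, false), (1, 1, true), (1, 5, false), (2, 5, false), (3, 3, true), (3, 6, false), (4, 6,
    true), (7, 7, false)],
    [([0, 0, 0, 0, 1, 0, 0, 2], 2), ([0, 0, 0, 1, 0, 0, 1, 0], 2), ([0, 0, 1, 0, 0, 1, 1, 0], 2), ([0, 1, 0, 0, 0, 1,
    0, 0], 2), ([0, 1, 1, 0, 0, 0, 0, 0], 2), ([2, 0, 0, 1, 1, 0, 0, 0], 2)]⟩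

theorem tord8c_39_ok : tord8c_39.OK 8 := TT.leaf_ok (T := ttd8c_39) (by decide +kernel)

/-- the torus -/
def ttd8c_40 : TT where
  k := 8
  rf := [false, false, true, false, false, true, true, true]
  tau := [10, 9, 8, 16, 29, 35, 34, 47, 2, 1, 0, 40, 37, 27, 26, 23, 3, 30, 54, 53, 44, 60, 25, 15, 59, 22, 14, 13,
    36, 4, 17, 55, 51, 46, 6, 5, 28, 12, 41, 63, 11, 38, 62, 61, 20, 52, 33, 7, 58, 57, 56, 32, 45, 19, 18, 31, 50,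
    49, 48, 24, 21, 43, 42, 39]
  par := [0, 0, 3, 4, 5, 7, 18, 21]
  stars := [[0, 40, 11], [1, 10], [2, 9], [3, 8, 16], [4, 17, 30], [5, 29, 36], [6, 35], [7, 34, 47], [12, 41, 38],
    [13, 37, 28], [14, 27], [15, 26, 23], [18, 55, 31], [19, 54], [20, 45, 53], [21, 61, 44], [22, 25, 60], [24, 48,
    59], [32, 56, 51], [33, 52, 46], [39, 42, 63], [43, 62], [49, 58], [50, 57]]
  word := [[], [], [], [], [], [], [], [], [], [], [], [3, 1, 2, 0], [3], [3], [3], [], [], [], [], [], [0], [], [3],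
    [], [2], [2], [2], [2], [], [], [], [], [1], [], [], [], [], [2], [1, 2, 0], [1, 2], [1, 3, 0, 2], [1, 3, 0],
    [1], [1], [1], [1], [], [], [2], [2], [2], [0], [0], [], [], [], [3], [3], [3], [3], [], [0], [0], [3, 0]]
  rank := [0, 1, 2, 0, 0, 0, 1, 0, 2, 1, 0, 8, 7, 6, 5, 3, 0, 1, 0, 1, 0, 0, 4, 3, 3, 4, 5, 6, 1, 0, 1, 2, 3, 2, 1,
    0, 1, 7, 5, 4, 8, 5, 2, 1, 0, 2, 2, 0, 0, 1, 2, 3, 2, 1, 0, 2, 2, 1, 0, 3, 0, 1, 2, 4]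
  just := [0, 1, 2, 0, 0, 0, 6, 0, 2, 1, 0, 8, 9, 10, 11, 3, 0, 4, 0, 13, 0, 0, 16, 3, 17, 16, 11, 10, 5, 0, 4, 12,
    19, 7, 6, 0, 5, 9, 20, 18, 8, 20, 21, 15, 0, 14, 7, 0, 0, 22, 23, 19, 14, 13, 0, 12, 23, 22, 0, 17, 0, 15, 21, 18]
  gA := 20
  gB := 48
  fin := 0
  sid := [0, 1, 2, 3, 4, 5, 6, 7, 3, 2, 1, 0, 8, 9, 10, 11, 3, 4, 12, 13, 14, 15, 16, 11, 17, 16, 11, 10, 9, 5, 4,
    12, 18, 19, 7, 6, 5, 9, 8, 20, 0, 8, 20, 21, 15, 14, 19, 7, 17, 22, 23, 18, 19, 14, 13, 12, 18, 23, 22, 17, 16,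
    15, 21, 20]
  off := [(0, 0), (0, 0), (0, 0), (0, 0), (0, 0), (0, 0), (0, 0), (0, 0), (0, 0), (0, 0), (0, 0), (0, 0), (0, 0), (0,
    0), (0, 0), (0, 0), (0, 0), (0, 0), (0, 0), (0, 0), (0, 0), (0, 0), (0, 0), (0, 0), (0, 0), (0, 1), (0, 1), (0,
    1), (0, 1), (0, 0), (0, 0), (0, 0), (0, 0), (0, 0), (0, 0), (0, 0), (0, 0), (0, 1), (0, 1), (0, 0), (0, 0), (0,
    0), (0, -1), (0, 0), (-1, 0), (-1, 0), (0, 0), (0, 0), (0, 0), (0, 0), (0, 0), (1, 0), (1, 0), (0, 0), (0, 0),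
    (0, 0), (1, -1), (0, -1), (0, -1), (0, -1), (0, 0), (0, 0), (1, 0), (1, -1)]

/-- glued arcs and equations -/
def tord8c_40 : TorT :=
  ⟨[(0, 2, true), (0, 3, false), (1, 1, true), (1, 6, false), (2, 6, true), (3, 5, true), (4, 4, true), (4, 5, true),
    (7, 7, false)],
    [([0, 0, 0, 0, 1, 2, 0, 0], 2), ([0, 0, 0, 1, 0, 0, 1, 0], 2), ([0, 0, 1, 0, 0, 0, 0, 2], 2), ([0, 1, 0, 0, 1, 0,
    1, 0], 2), ([0, 1, 1, 0, 0, 0, 0, 0], 2), ([2, 0, 0, 1, 0, 0, 0, 0], 2)]⟩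

theorem tord8c_40_ok : tord8c_40.OK 8 := TT.leaf_ok (T := ttd8c_40) (by decide +kernel)

/-- the torus -/
def ttd8c_41 : TT where
  k := 8
  rf := [false, false, true, false, true, false, true, true]
  tau := [10, 9, 8, 16, 17, 13, 28, 39, 2, 1, 0, 32, 33, 5, 44, 23, 3, 4, 45, 46, 54, 42, 43, 15, 51, 52, 37, 38, 6,
    34, 35, 63, 11, 12, 29, 30, 62, 26, 27, 7, 59, 60, 21, 22, 14, 18, 19, 55, 58, 57, 56, 24, 25, 61, 20, 47, 50,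
    49, 48, 40, 41, 53, 36, 31]
  par := [0, 0, 3, 6, 7, 14, 20, 31]
  stars := [[0, 32, 11], [1, 10], [2, 9], [3, 8, 16], [4, 17], [5, 18, 45, 14], [6, 13, 34, 29], [7, 28, 39], [12,
    33], [15, 44, 23], [19, 46], [20, 55, 47], [21, 42, 61, 54], [22, 43], [24, 56, 51], [25, 52], [26, 53, 62, 37],
    [27, 38], [30, 35], [31, 36, 63], [40, 48, 59], [41, 60], [49, 58], [50, 57]]
  word := [[], [], [], [], [], [2, 1], [], [], [], [], [], [0, 3, 1, 2], [0, 3, 1, 2], [0, 3], [], [], [], [], [2,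
    1], [2, 1], [], [], [], [], [3], [3], [], [], [], [1, 2], [1, 2], [], [3, 0, 2, 1], [3, 0, 2, 1], [3, 0], [3, 0],
    [3, 0], [], [], [], [0], [0], [], [], [], [0, 3], [0, 3], [0, 3], [2], [2], [2], [2], [2], [0], [], [2, 1], [3],
    [3], [3], [1], [1], [1], [1, 2], []]
  rank := [0, 1, 2, 0, 1, 6, 0, 0, 2, 1, 0, 11, 10, 6, 0, 3, 0, 1, 5, 4, 0, 5, 4, 3, 1, 2, 2, 1, 0, 9, 8, 0, 11, 10,
    9, 8, 7, 2, 1, 0, 1, 0, 5, 4, 0, 5, 4, 3, 2, 1, 0, 1, 2, 6, 0, 3, 0, 1, 2, 1, 0, 6, 7, 0]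
  just := [0, 1, 2, 0, 4, 5, 0, 0, 2, 1, 0, 8, 6, 5, 0, 3, 0, 4, 10, 11, 0, 13, 9, 3, 14, 15, 17, 7, 0, 18, 19, 0, 8,
    6, 18, 19, 16, 17, 7, 0, 21, 0, 13, 9, 0, 10, 11, 20, 22, 23, 0, 14, 15, 12, 0, 20, 0, 23, 22, 21, 0, 12, 16, 0]
  gA := 41
  gB := 50
  fin := 0
  sid := [0, 1, 2, 3, 4, 5, 6, 7, 3, 2, 1, 0, 8, 6, 5, 9, 3, 4, 5, 10, 11, 12, 13, 9, 14, 15, 16, 17, 7, 6, 18, 19,
    0, 8, 6, 18, 19, 16, 17, 7, 20, 21, 12, 13, 9, 5, 10, 11, 20, 22, 23, 14, 15, 16, 12, 11, 14, 23, 22, 20, 21, 12,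
    16, 19]
  off := [(0, 0), (0, 0), (0, 0), (0, 0), (0, 0), (0, 0), (0, 0), (0, 0), (0, 0), (0, 0), (0, 0), (0, 0), (0, 0), (1,
    -1), (1, -1), (0, 0), (0, 0), (0, 0), (0, 0), (0, 0), (0, 0), (0, 0), (0, 0), (0, 0), (0, 0), (0, 0), (0, 0), (0,
    0), (0, 0), (0, 0), (0, 0), (0, 0), (0, 0), (0, 0), (1, -1), (1, -1), (1, -1), (0, 0), (0, 0), (0, 0), (0, 0),
    (0, 0), (0, 0), (0, 0), (0, 0), (1, -1), (1, -1), (1, -1), (-1, 1), (0, 0), (0, 0), (0, 1), (0, 1), (0, 1), (0,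
    0), (0, 0), (0, 0), (0, -1), (0, -1), (-1, 0), (-1, 0), (-1, 0), (-1, 1), (0, 0)]

/-- glued arcs and equations -/
def tord8c_41 : TorT :=
  ⟨[(0, 2, true), (0, 3, false), (1, 1, true), (1, 4, false), (2, 5, false), (3, 6, false), (4, 6, true), (5, 5,
    true), (7, 7, false)],
    [([0, 0, 0, 0, 1, 0, 0, 2], 2), ([0, 0, 0, 1, 0, 0, 1, 0], 2), ([0, 0, 1, 0, 0, 2, 1, 0], 2), ([0, 1, 0, 0, 1, 0,
    0, 0], 2), ([0, 1, 1, 0, 0, 0, 0, 0], 2), ([2, 0, 0, 1, 0, 0, 0, 0], 2)]⟩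

theorem tord8c_41_ok : tord8c_41.OK 8 := TT.leaf_ok (T := ttd8c_41) (by decide +kernel)

end Pool.Agent.Lib_MP_fa6e45
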