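import Pool.Agent.Lib_MP_fa6e45.DQ8cT0
import Pool.Agent.Lib_MP_fa6e45.DQ8cT1
import Pool.Agent.Lib_MP_fa6e45.DQ8cT2
import Pool.Agent.Lib_MP_fa6e45.DQ8cT3
import Pool.Agent.Lib_MP_fa6e45.DQ8cT4
import Pool.Agent.Lib_MP_fa6e45.DQ8cT5
import Pool.Agent.Lib_MP_fa6e45.DQ8cT6

/-!
MP_fa6e45_co, stage 9: straight-side patterns with `8` sides, the list of tori (generated by a program).
-/

namespace Pool.Agent.Lib_MP_fa6e45

/-- tables -/
def ttD8c_0 : List TorT := [tord8c_0, tord8c_1, tord8c_2, tord8c_3, tord8c_4, tord8c_5]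

theorem ttD8c_0_ok : ∀ T ∈ ttD8c_0, T.OK 8 := by
  intro T hT
  simp only [ttD8c_0, List.mem_cons, List.not_mem_nil, or_false] at hT
  rcases hT with rfl | rfl | rfl | rfl | rfl | rfl
  · exact tord8c_0_ok
  · exact tord8c_1_ok
  · exact tord8c_2_ok
  · exact tord8c_3_ok
  · exact tord8c_4_ok
  · exact tord8c_5_ok

/-- tables -/
def ttD8c_1 : List TorT := [tord8c_6, tord8c_7, tord8c_8, tord8c_9, tord8c_10, tord8c_11]

theorem ttD8c_1_ok : ∀ T ∈ ttD8c_1, T.OK 8 := by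
  intro T hT
  simp only [ttD8c_1, List.mem_cons, List.not_mem_nil, or_false] at hT
  rcases hT with rfl | rfl | rfl | rfl | rfl | rfl
  · exact tord8c_6_ok
  · exact tord8c_7_ok
  · exact tord8c_8_ok
  · exact tord8c_9_ok
  · exact tord8c_10_ok
  · exact tord8c_11_ok

/-- tables -/
def ttD8c_2 : List TorT := [tord8c_12, tord8c_13, tord8c_14, tord8c_15, tord8c_16, tord8c_17]

theorem ttD8c_2_ok : ∀ T ∈ ttD8c_2, T.OK 8 := by
  intro T hT
  simp only [ttD8c_2, List.mem_cons, List.not_mem_nil, or_false] at hT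
  rcases hT with rfl | rfl | rfl | rfl | rfl | rfl
  · exact tord8c_12_ok
  · exact tord8c_13_ok
  · exact tord8c_14_ok
  · exact tord8c_15_ok
  · exact tord8c_16_ok
  · exact tord8c_17_ok

/-- tables -/
def ttD8c_3 : List TorT := [tord8c_18, tord8c_19, tord8c_20, tord8c_21, tord8c_22, tord8c_23]

theorem ttD8c_3_ok : ∀ T ∈ ttD8c_3, T.OK 8 := by
  intro T hT
  simp only [ttD8c_3, List.mem_cons, List.not_mem_nil, or_false] at hT
  rcases hT with rfl | rfl | rfl | rfl | rfl | rfl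
  · exact tord8c_18_ok
  · exact tord8c_19_ok
  · exact tord8c_20_ok
  · exact tord8c_21_ok
  · exact tord8c_22_ok
  · exact tord8c_23_ok

/-- tables -/
def ttD8c_4 : List TorT := [tord8c_24, tord8c_25, tord8c_26, tord8c_27, tord8c_28, tord8c_29]

theorem ttD8c_4_ok : ∀ T ∈ ttD8c_4, T.OK 8 := by
  intro T hT
  simp only [ttD8c_4, List.mem_cons, List.not_mem_nil, or_false] at hT
  rcases hT with rfl | rfl | rfl | rfl | rfl | rfl
  · exact tord8c_24_ok
  · exact tord8c_25_ok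
  · exact tord8c_26_ok
  · exact tord8c_27_ok
  · exact tord8c_28_ok
  · exact tord8c_29_ok

/-- tables -/
def ttD8c_5 : List TorT := [tord8c_30, tord8c_31, tord8c_32, tord8c_33, tord8c_34, tord8c_35]

theorem ttD8c_5_ok : ∀ T ∈ ttD8c_5, T.OK 8 := by
  intro T hT
  simp only [ttD8c_5, List.mem_cons, List.not_mem_nil, or_false] at hT
  rcases hT with rfl | rfl | rfl | rfl | rfl | rfl
  · exact tord8c_30_ok
  · exact tord8c_31_ok
  · exact tord8c_32_ok
  · exact tord8c_33_ok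
  · exact tord8c_34_ok
  · exact tord8c_35_ok

/-- tables -/
def ttD8c_6 : List TorT := [tord8c_36, tord8c_37, tord8c_38, tord8c_39, tord8c_40, tord8c_41]

theorem ttD8c_6_ok : ∀ T ∈ ttD8c_6, T.OK 8 := by
  intro T hT
  simp only [ttD8c_6, List.mem_cons, List.not_mem_nil, or_false] at hT
  rcases hT with rfl | rfl | rfl | rfl | rfl | rfl
  · exact tord8c_36_ok
  · exact tord8c_37_ok
  · exact tord8c_38_ok
  · exact tord8c_39_ok
  · exact tord8c_40_ok
  · exact tord8c_41_ok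

/-- all tables -/
def ttD8c : List TorT :=
  ttD8c_0 ++ (ttD8c_1 ++ (ttD8c_2 ++ (ttD8c_3 ++ (ttD8c_4 ++ (ttD8c_5 ++ ttD8c_6)))))

theorem ttD8c_ok : ∀ T ∈ ttD8c, T.OK 8 := by
  intro T hT
  unfold ttD8c at hT
  rcases List.mem_append.1 hT with hT | hT
  · exact ttD8c_0_ok T hT
  rcases List.mem_append.1 hT with hT | hT
  · exact ttD8c_1_ok T hT
  rcases List.mem_append.1 hT with hT | hT
  · exact ttD8c_2_ok T hT
  rcases List.mem_append.1 hT with hT | hT
  · exact ttD8c_3_ok T hT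
  rcases List.mem_append.1 hT with hT | hT
  · exact ttD8c_4_ok T hT
  rcases List.mem_append.1 hT with hT | hT
  · exact ttD8c_5_ok T hT
  exact ttD8c_6_ok T hT

end Pool.Agent.Lib_MP_fa6e45
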