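import Pool.Agent.Lib_MP_fa6e45.CT5

/-!
MP_fa6e45_co, stage 9: straight-side patterns with `8` sides, tables of tori (generated by a program).
-/

namespace Pool.Agent.Lib_MP_fa6e45

/-- the torus -/
def ttd8c_0 : TT where
  k := 16
  rf := [false, true, true, false, false, true, false, false, false, true, false, true, true, true, false, true]
  tau := [8, 19, 20, 21, 22, 30, 37, 47, 0, 18, 48, 25, 26, 27, 28, 63, 66, 72, 9, 1, 2, 3, 4, 31, 49, 11, 12, 13,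
    14, 62, 5, 23, 81, 43, 44, 45, 46, 6, 61, 95, 56, 90, 80, 33, 34, 35, 36, 7, 10, 24, 65, 97, 98, 99, 100, 79, 40,
    91, 92, 93, 94, 38, 29, 15, 96, 50, 16, 73, 74, 75, 76, 111, 17, 67, 68, 69, 70, 110, 101, 55, 42, 32, 113, 105,
    106, 107, 108, 127, 114, 120, 41, 57, 58, 59, 60, 39, 64, 51, 52, 53, 54, 78, 125, 119, 112, 83, 84, 85, 86, 126,
    77, 71, 104, 82, 88, 121, 122, 123, 124, 103, 89, 115, 116, 117, 118, 102, 109, 87]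
  par := [0, 0, 1, 5, 6, 7, 10, 15, 16, 17, 32, 39, 51, 71, 82, 87]
  stars := [[0, 40, 56, 8], [1, 9, 19], [2, 20], [3, 21], [4, 22], [5, 23, 31], [6, 30, 62, 38], [7, 37, 47], [10,
    48, 72, 18], [11, 25, 49], [12, 26], [13, 27], [14, 28], [15, 63, 29], [16, 66, 50, 24], [17, 73, 67], [32, 88,
    114, 82], [33, 81, 43], [34, 44], [35, 45], [36, 46], [39, 61, 95], [41, 91, 57], [42, 80, 120, 90], [51, 65,
    97], [52, 98], [53, 99], [54, 100], [55, 101, 79], [58, 92], [59, 93], [60, 94], [64, 104, 112, 96], [68, 74],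
    [69, 75], [70, 76], [71, 77, 111], [78, 102, 126, 110], [83, 113, 105], [84, 106], [85, 107], [86, 108], [87,
    109, 127], [89, 121, 115], [103, 119, 125], [116, 122], [117, 123], [118, 124]]
  word := [[], [], [], [], [], [], [], [], [], [], [], [0], [0], [0], [0], [], [], [], [], [], [], [], [], [], [1],
    [1], [1], [1], [1], [1], [], [], [], [], [], [], [], [], [1], [], [2, 0, 3, 1], [2, 0, 3], [], [], [], [], [],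
    [], [], [0], [0], [], [], [], [], [], [0, 2, 1, 3], [0], [0], [0], [0], [0], [0], [], [1], [1], [], [], [], [],
    [], [], [], [], [], [], [], [], [], [], [], [], [], [2], [2], [2], [2], [], [], [2, 1, 3], [2, 1, 3], [1], [1],
    [1], [1], [], [0], [], [], [], [], [], [3], [0, 3], [3], [3], [3], [3], [3], [3], [], [], [2], [], [], [2, 1, 3],
    [2, 1, 3], [2, 1, 3], [2, 1, 3], [2, 1], [2, 0, 3], [2, 0, 3], [2, 0, 3], [2, 0, 3], [2, 0, 3], [2], [2], []]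
  rank := [0, 0, 1, 2, 3, 0, 0, 0, 0, 1, 0, 0, 1, 2, 3, 0, 0, 0, 1, 0, 1, 2, 3, 4, 1, 0, 1, 2, 3, 4, 0, 4, 0, 4, 3,
    2, 1, 0, 5, 0, 14, 13, 5, 4, 3, 2, 1, 0, 0, 1, 5, 0, 1, 2, 3, 2, 14, 9, 8, 7, 6, 5, 4, 0, 6, 5, 0, 1, 2, 3, 4, 0,
    0, 1, 2, 3, 4, 5, 4, 2, 5, 0, 0, 1, 0, 1, 2, 0, 1, 12, 13, 9, 8, 7, 6, 0, 6, 0, 1, 2, 3, 4, 6, 7, 2, 1, 0, 1, 2,
    3, 5, 0, 2, 0, 1, 11, 10, 9, 8, 7, 12, 11, 10, 9, 8, 6, 3, 0]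
  just := [0, 0, 2, 3, 4, 0, 0, 0, 0, 1, 0, 0, 10, 11, 12, 0, 0, 0, 1, 0, 2, 3, 4, 5, 9, 0, 10, 11, 12, 13, 0, 5, 0,
    18, 19, 20, 7, 0, 6, 0, 22, 23, 17, 18, 19, 20, 7, 0, 0, 9, 14, 0, 25, 26, 27, 8, 22, 29, 30, 31, 21, 6, 13, 0,
    24, 14, 0, 15, 33, 34, 35, 0, 0, 15, 33, 34, 35, 36, 28, 8, 17, 0, 0, 39, 0, 40, 41, 0, 16, 43, 23, 29, 30, 31,
    21, 0, 24, 0, 25, 26, 27, 28, 37, 32, 38, 39, 0, 40, 41, 42, 36, 0, 38, 0, 16, 45, 46, 47, 44, 32, 43, 45, 46,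
    47, 44, 37, 42, 0]
  gA := 11
  gB := 84
  fin := 0
  sid := [0, 1, 2, 3, 4, 5, 6, 7, 0, 1, 8, 9, 10, 11, 12, 13, 14, 15, 8, 1, 2, 3, 4, 5, 14, 9, 10, 11, 12, 13, 6, 5,
    16, 17, 18, 19, 20, 7, 6, 21, 0, 22, 23, 17, 18, 19, 20, 7, 8, 9, 14, 24, 25, 26, 27, 28, 0, 22, 29, 30, 31, 21,
    6, 13, 32, 24, 14, 15, 33, 34, 35, 36, 8, 15, 33, 34, 35, 36, 37, 28, 23, 17, 16, 38, 39, 40, 41, 42, 16, 43, 23,
    22, 29, 30, 31, 21, 32, 24, 25, 26, 27, 28, 37, 44, 32, 38, 39, 40, 41, 42, 37, 36, 32, 38, 16, 43, 45, 46, 47,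
    44, 23, 43, 45, 46, 47, 44, 37, 42]
  off := [(0, 0), (0, 0), (0, 0), (0, 0), (0, 0), (0, 0), (0, 0), (0, 0), (0, 0), (0, 0), (0, 0), (0, 0), (0, 0), (0,
    0), (0, 0), (0, 0), (0, 0), (0, 0), (0, 0), (0, 0), (0, 0), (0, 0), (0, 0), (0, 0), (0, 0), (-1, 0), (-1, 0),
    (-1, 0), (-1, 0), (-1, 0), (0, 0), (0, 0), (0, 0), (0, 0), (0, 0), (0, 0), (0, 0), (0, 0), (0, 0), (0, 0), (0,
    0), (0, 0), (0, 0), (0, 0), (0, 0), (0, 0), (0, 0), (0, 0), (0, 0), (0, 0), (1, 0), (0, 0), (0, 0), (0, 0), (0,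
    0), (0, 0), (0, 0), (0, 0), (0, 0), (0, 0), (0, 0), (1, 0), (1, 0), (0, 0), (0, 0), (-1, 0), (0, 0), (0, 0), (0,
    0), (0, 0), (0, 0), (0, 0), (0, 0), (0, 0), (0, 0), (0, 0), (0, 0), (0, 0), (0, 0), (0, 0), (0, 0), (0, 0), (0,
    0), (0, 0), (0, 0), (0, 0), (0, 0), (0, 0), (0, 0), (0, 0), (-1, 0), (-1, 0), (-1, 0), (-1, 0), (-1, 0), (0, 0),
    (1, 0), (0, 0), (0, 0), (0, 0), (0, 0), (0, 0), (0, 0), (0, 0), (0, 0), (0, -1), (0, -1), (0, -1), (0, -1), (0,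
    -1), (0, 0), (0, 0), (0, 1), (0, 0), (0, 0), (0, 0), (0, 0), (0, 0), (0, 0), (-1, 1), (0, 0), (1, 0), (1, 0), (1,
    0), (1, 0), (0, 1), (0, 1), (0, 0)]

/-- glued arcs and equations -/
def tord8c_0 : TorT :=
  ⟨[(0, 0, false), (0, 1, true), (0, 2, false), (1, 2, true), (1, 3, false), (2, 4, false), (3, 5, false), (4, 6,
    false), (5, 6, true), (7, 7, false)],
    [([0, 0, 0, 0, 0, 0, 4, 0], 2), ([0, 0, 0, 0, 0, 1, 0, 2], 2), ([0, 0, 0, 0, 1, 0, 1, 0], 2), ([0, 0, 0, 1, 0, 1,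
    0, 0], 2), ([0, 0, 1, 0, 1, 0, 0, 0], 2), ([0, 2, 0, 1, 0, 0, 0, 0], 2), ([2, 0, 2, 0, 0, 0, 0, 0], 2), ([4, 0,
    0, 0, 0, 0, 0, 0], 2)]⟩

theorem tord8c_0_ok : tord8c_0.OK 8 := TT.leaf_ok (T := ttd8c_0) (by decide +kernel)

/-- the torus -/
def ttd8c_1 : TT where
  k := 8
  rf := [false, false, true, true, false, false, true, true]
  tau := [8, 16, 30, 38, 37, 41, 26, 55, 0, 48, 62, 46, 45, 33, 58, 23, 1, 29, 52, 51, 50, 60, 59, 15, 56, 40, 6, 54,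
    53, 17, 2, 39, 57, 13, 44, 43, 42, 4, 3, 31, 25, 5, 36, 35, 34, 12, 11, 63, 9, 61, 20, 19, 18, 28, 27, 7, 24, 32,
    14, 22, 21, 49, 10, 47]
  par := [0, 0, 1, 2, 3, 5, 7, 10]
  stars := [[0, 48, 9], [1, 8, 16], [2, 17, 30], [3, 31, 39], [4, 38], [5, 37, 42], [6, 41, 26], [7, 27, 55], [10,
    49, 62], [11, 63, 47], [12, 46], [13, 45, 34], [14, 33, 58], [15, 59, 23], [18, 53, 29], [19, 52], [20, 51], [21,
    61, 50], [22, 60], [24, 57, 32], [25, 40, 56], [28, 54], [35, 44], [36, 43]]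
  word := [[], [], [], [], [], [], [1], [], [], [3, 1, 2, 0], [], [3], [3], [3], [3, 0, 2], [], [], [], [0], [0],
    [0], [3, 0, 2], [3, 0, 2], [], [0, 2], [0], [0], [0], [0], [], [], [], [0, 2], [2], [], [], [], [], [], [], [1],
    [], [], [], [], [2], [2], [2], [1, 3, 0, 2], [1, 3, 0, 2], [1], [1], [1], [1], [1], [], [3, 1], [3, 1], [3, 1,
    2], [3, 1, 2], [3, 1, 2], [3, 1, 2, 0], [], [3]]
  rank := [0, 0, 0, 0, 1, 0, 1, 0, 0, 10, 0, 1, 2, 5, 6, 1, 0, 1, 4, 5, 6, 8, 7, 1, 1, 0, 1, 2, 3, 1, 0, 1, 2, 5, 4,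
    3, 2, 1, 0, 1, 0, 0, 2, 3, 4, 2, 1, 0, 10, 9, 6, 5, 4, 3, 2, 0, 1, 2, 6, 7, 8, 9, 0, 0]
  just := [0, 0, 0, 0, 4, 0, 6, 0, 0, 8, 0, 9, 10, 11, 12, 1, 0, 2, 14, 15, 16, 18, 13, 1, 20, 0, 6, 7, 21, 2, 0, 3,
    19, 11, 22, 23, 5, 4, 0, 3, 0, 0, 5, 23, 22, 10, 9, 0, 8, 17, 16, 15, 14, 21, 7, 0, 20, 19, 12, 13, 18, 17, 0, 0]
  gA := 25
  gB := 47
  fin := 0
  sid := [0, 1, 2, 3, 4, 5, 6, 7, 1, 0, 8, 9, 10, 11, 12, 13, 1, 2, 14, 15, 16, 17, 18, 13, 19, 20, 6, 7, 21, 14, 2,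
    3, 19, 12, 11, 22, 23, 5, 4, 3, 20, 6, 5, 23, 22, 11, 10, 9, 0, 8, 17, 16, 15, 14, 21, 7, 20, 19, 12, 13, 18, 17,
    8, 9]
  off := [(0, 0), (0, 0), (0, 0), (0, 0), (0, 0), (0, 0), (0, 0), (0, 0), (0, 0), (0, 0), (0, 0), (0, 0), (0, 0), (0,
    0), (0, 0), (0, 0), (0, 0), (0, 0), (0, 0), (0, 0), (0, 0), (0, 0), (0, 0), (0, 0), (0, 0), (0, 0), (1, 0), (1,
    0), (0, 0), (0, 0), (0, 0), (0, 0), (0, 0), (0, 1), (0, 1), (0, 0), (0, 0), (0, 0), (0, 0), (0, 0), (-1, 0), (0,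
    0), (0, 0), (0, 0), (0, 0), (0, 1), (0, 1), (0, 1), (0, 0), (0, 0), (-1, 0), (-1, 0), (-1, 0), (-1, 0), (-1, 0),
    (0, 0), (-1, -1), (-1, -1), (-1, 0), (-1, 0), (-1, 0), (-1, 0), (0, 0), (0, 0)]

/-- glued arcs and equations -/
def tord8c_1 : TorT :=
  ⟨[(0, 0, true), (0, 1, false), (1, 5, true), (2, 4, true), (2, 6, false), (3, 3, true), (3, 6, true), (4, 5, true),
    (7, 7, false)],
    [([0, 0, 0, 0, 1, 0, 1, 0], 2), ([0, 0, 0, 1, 0, 0, 0, 2], 2), ([0, 0, 0, 1, 1, 0, 0, 0], 2), ([0, 0, 1, 0, 0, 2,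
    0, 0], 2), ([0, 1, 1, 0, 0, 0, 1, 0], 2), ([2, 1, 0, 0, 0, 0, 0, 0], 2)]⟩

theorem tord8c_1_ok : tord8c_1.OK 8 := TT.leaf_ok (T := ttd8c_1) (by decide +kernel)

/-- the torus -/
def ttd8c_2 : TT where
  k := 8
  rf := [false, false, true, true, false, true, true, false]
  tau := [8, 16, 29, 34, 33, 26, 19, 47, 0, 40, 53, 58, 57, 50, 43, 23, 1, 28, 27, 6, 46, 45, 44, 15, 48, 32, 5, 18,
    17, 2, 35, 63, 25, 4, 3, 30, 62, 61, 60, 55, 9, 52, 51, 14, 22, 21, 20, 7, 24, 56, 13, 42, 41, 10, 59, 39, 49,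
    12, 11, 54, 38, 37, 36, 31]
  par := [0, 0, 1, 2, 3, 7, 10, 11]
  stars := [[0, 40, 9], [1, 8, 16], [2, 17, 29], [3, 30, 35], [4, 34], [5, 33, 26], [6, 27, 19], [7, 20, 47], [10,
    41, 53], [11, 54, 59], [12, 58], [13, 57, 50], [14, 51, 43], [15, 44, 23], [18, 28], [21, 46], [22, 45], [24, 49,
    56], [25, 32, 48], [31, 63, 36], [37, 62], [38, 61], [39, 60, 55], [42, 52]]
  word := [[], [], [], [], [], [0], [0], [], [], [3, 0, 2, 1], [], [], [], [3, 1, 2], [1], [], [], [], [], [1], [1],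
    [1], [1], [], [1, 2], [1], [1], [], [], [], [], [2], [0], [], [], [], [2], [2], [2], [2], [0, 3, 1, 2], [0, 3, 1,
    2], [0, 3, 1, 2], [0], [0], [0], [0], [], [3, 0], [3, 0, 2], [3, 0, 2], [3, 0, 2, 1], [3, 0, 2, 1], [], [], [3],
    [3, 1, 2], [], [], [], [3], [3], [3], [3]]
  rank := [0, 0, 0, 0, 1, 3, 0, 0, 0, 10, 0, 0, 1, 7, 4, 1, 0, 1, 2, 0, 1, 2, 3, 1, 5, 4, 3, 2, 1, 0, 1, 2, 4, 1, 0,
    1, 1, 0, 1, 2, 10, 9, 8, 4, 3, 2, 1, 0, 5, 6, 7, 8, 9, 0, 1, 2, 6, 1, 0, 1, 1, 0, 1, 2]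
  just := [0, 0, 0, 0, 4, 6, 0, 0, 0, 8, 0, 0, 10, 11, 13, 1, 0, 2, 14, 0, 7, 15, 16, 1, 18, 5, 6, 14, 2, 0, 3, 19,
    5, 4, 0, 3, 20, 0, 21, 22, 8, 23, 12, 13, 16, 15, 7, 0, 18, 17, 11, 12, 23, 0, 9, 22, 17, 10, 0, 9, 21, 0, 20, 19]
  gA := 6
  gB := 37
  fin := 0
  sid := [0, 1, 2, 3, 4, 5, 6, 7, 1, 0, 8, 9, 10, 11, 12, 13, 1, 2, 14, 6, 7, 15, 16, 13, 17, 18, 5, 6, 14, 2, 3, 19,
    18, 5, 4, 3, 19, 20, 21, 22, 0, 8, 23, 12, 13, 16, 15, 7, 18, 17, 11, 12, 23, 8, 9, 22, 17, 11, 10, 9, 22, 21,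
    20, 19]
  off := [(0, 0), (0, 0), (0, 0), (0, 0), (0, 0), (0, 0), (0, 0), (0, 0), (0, 0), (0, 0), (0, 0), (0, 0), (0, 0), (0,
    0), (0, 0), (0, 0), (0, 0), (0, 0), (0, 0), (-1, 0), (-1, 0), (0, 0), (0, 0), (0, 0), (0, 0), (0, 0), (-1, 0),
    (-1, 0), (0, 0), (0, 0), (0, 0), (0, 0), (1, 0), (0, 0), (0, 0), (0, 0), (0, 0), (0, 0), (0, 0), (0, 0), (0, 0),
    (0, 0), (0, 0), (1, 0), (1, 0), (1, 0), (1, 0), (0, 0), (1, -1), (1, -1), (1, 0), (1, 0), (0, 0), (0, 0), (0, 0),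
    (0, -1), (0, -1), (0, 0), (0, 0), (0, 0), (0, -1), (0, -1), (0, -1), (0, -1)]

/-- glued arcs and equations -/
def tord8c_2 : TorT :=
  ⟨[(0, 0, true), (0, 1, false), (1, 4, true), (2, 3, true), (2, 5, false), (3, 6, false), (4, 6, true), (5, 5,
    true), (7, 7, false)],
    [([0, 0, 0, 0, 0, 1, 1, 0], 2), ([0, 0, 0, 0, 1, 0, 0, 2], 2), ([0, 0, 0, 2, 0, 0, 1, 0], 2), ([0, 0, 1, 0, 1, 0,
    0, 0], 2), ([0, 1, 1, 0, 0, 1, 0, 0], 2), ([2, 1, 0, 0, 0, 0, 0, 0], 2)]⟩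

theorem tord8c_2_ok : tord8c_2.OK 8 := TT.leaf_ok (T := ttd8c_2) (by decide +kernel)

/-- the torus -/
def ttd8c_3 : TT where
  k := 4
  rf := [false, false, true, true]
  tau := [8, 16, 10, 25, 26, 27, 28, 31, 0, 24, 2, 17, 18, 19, 20, 23, 1, 11, 12, 13, 14, 29, 30, 15, 9, 3, 4, 5, 6,
    21, 22, 7]
  par := [0, 0, 1, 3]
  stars := [[0, 24, 9], [1, 8, 16], [2, 17, 11], [3, 10, 25], [4, 26], [5, 27], [6, 28], [7, 29, 22, 31], [12, 18],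
    [13, 19], [14, 20], [15, 21, 30, 23]]
  word := [[], [], [1], [], [], [], [], [3, 0, 2], [], [0], [0], [0], [0], [0], [0], [], [], [1], [1], [1], [1], [1,
    2], [2], [], [1], [], [], [], [], [3, 0], [3], [3, 1, 2]]
  rank := [0, 0, 2, 0, 1, 2, 3, 4, 0, 3, 2, 1, 0, 1, 2, 1, 0, 1, 0, 1, 2, 3, 0, 1, 3, 0, 1, 2, 3, 3, 0, 4]
  just := [0, 0, 2, 0, 4, 5, 6, 7, 0, 3, 2, 8, 0, 9, 10, 1, 0, 8, 0, 9, 10, 11, 0, 1, 3, 0, 4, 5, 6, 11, 0, 7]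
  gA := 12
  gB := 22
  fin := 0
  sid := [0, 1, 2, 3, 4, 5, 6, 7, 1, 0, 3, 2, 8, 9, 10, 11, 1, 2, 8, 9, 10, 11, 7, 11, 0, 3, 4, 5, 6, 7, 11, 7]
  off := [(0, 0), (0, 0), (0, 0), (0, 0), (0, 0), (0, 0), (0, 0), (0, 0), (0, 0), (0, 0), (1, 0), (1, 0), (0, 0), (0,
    0), (0, 0), (0, 0), (0, 0), (0, 0), (-1, 0), (-1, 0), (-1, 0), (-1, 0), (-1, 1), (0, 0), (-1, 0), (0, 0), (0, 0),
    (0, 0), (0, 0), (0, 0), (0, -1), (-1, 0)]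

/-- glued arcs and equations -/
def tord8c_3 : TorT :=
  ⟨[(0, 0, true), (0, 1, false), (1, 3, false), (2, 2, true), (2, 4, false), (3, 5, false), (4, 6, false), (5, 5,
    true), (6, 6, true), (7, 7, false)],
    [([0, 0, 0, 0, 0, 1, 1, 2], 2), ([0, 0, 0, 0, 1, 0, 1, 0], 2), ([0, 0, 0, 1, 0, 1, 0, 0], 2), ([0, 0, 1, 0, 1, 0,
    0, 0], 2), ([0, 1, 1, 1, 0, 0, 0, 0], 2), ([2, 1, 0, 0, 0, 0, 0, 0], 2)]⟩

theorem tord8c_3_ok : tord8c_3.OK 8 := TT.leaf_ok (T := ttd8c_3) (by decide +kernel)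

/-- the torus -/
def ttd8c_4 : TT where
  k := 8
  rf := [false, false, true, true, false, false, true, true]
  tau := [8, 16, 21, 22, 14, 13, 12, 31, 0, 24, 29, 30, 6, 5, 4, 23, 1, 35, 36, 33, 34, 2, 3, 15, 9, 43, 44, 41, 42,
    10, 11, 7, 49, 19, 20, 17, 18, 50, 51, 63, 57, 27, 28, 25, 26, 58, 59, 55, 56, 32, 37, 38, 62, 61, 60, 47, 48,
    40, 45, 46, 54, 53, 52, 39]
  par := [0, 0, 1, 7, 17, 25, 32, 39]
  stars := [[0, 24, 9], [1, 8, 16], [2, 17, 35, 21], [3, 22], [4, 23, 15], [5, 14], [6, 13], [7, 12, 31], [10, 25,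
    43, 29], [11, 30], [18, 36], [19, 33, 50, 37], [20, 34], [26, 44], [27, 41, 58, 45], [28, 42], [32, 56, 49], [38,
    51], [39, 52, 63], [40, 48, 57], [46, 59], [47, 60, 55], [53, 62], [54, 61]]
  word := [[], [], [1], [1], [1], [1], [1], [], [], [0, 2, 1, 3], [0], [0], [0], [0], [0], [], [], [], [], [0], [0],
    [0], [0], [], [2, 0, 3, 1], [], [], [2, 1, 3], [2, 1, 3], [1], [1], [], [], [1], [1], [], [], [0], [0], [], [2,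
    0], [2, 0, 3], [2, 0, 3], [], [], [2], [2], [2, 0], [], [], [1], [1], [1], [1], [1], [1, 3], [], [1, 3], [3],
    [3], [0], [0], [0], []]
  rank := [0, 0, 4, 5, 6, 7, 8, 0, 0, 11, 10, 9, 8, 7, 6, 1, 0, 0, 1, 2, 3, 4, 5, 1, 11, 0, 1, 7, 8, 10, 9, 0, 0, 2,
    3, 0, 1, 0, 1, 0, 6, 7, 8, 0, 1, 1, 0, 5, 1, 0, 0, 1, 2, 3, 4, 5, 1, 6, 1, 0, 4, 3, 2, 0]
  just := [0, 0, 2, 3, 4, 5, 6, 0, 0, 8, 9, 7, 6, 5, 4, 1, 0, 0, 10, 11, 12, 2, 3, 1, 8, 0, 13, 14, 15, 9, 7, 0, 0,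
    11, 12, 0, 10, 0, 17, 0, 19, 14, 15, 0, 13, 20, 0, 21, 16, 0, 0, 17, 18, 22, 23, 21, 16, 19, 20, 0, 23, 22, 18, 0]
  gA := 37
  gB := 46
  fin := 0
  sid := [0, 1, 2, 3, 4, 5, 6, 7, 1, 0, 8, 9, 7, 6, 5, 4, 1, 2, 10, 11, 12, 2, 3, 4, 0, 8, 13, 14, 15, 8, 9, 7, 16,
    11, 12, 2, 10, 11, 17, 18, 19, 14, 15, 8, 13, 14, 20, 21, 19, 16, 11, 17, 18, 22, 23, 21, 16, 19, 14, 20, 21, 23,
    22, 18]
  off := [(0, 0), (0, 0), (0, 0), (0, 0), (0, 0), (0, 0), (0, 0), (0, 0), (0, 0), (0, 0), (0, 0), (0, 0), (1, 0), (1,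
    0), (1, 0), (1, 0), (0, 0), (0, 0), (0, 0), (0, 0), (0, 0), (1, 0), (1, 0), (1, 0), (0, 0), (0, 0), (0, 0), (0,
    0), (0, 0), (-1, 0), (-1, 0), (0, 0), (0, 0), (-1, 0), (-1, 0), (0, 0), (0, 0), (0, 0), (0, 0), (0, 0), (0, 0),
    (1, 0), (1, 0), (0, 0), (0, 0), (0, 0), (0, 0), (0, 0), (-1, -1), (0, 0), (-1, 0), (-1, 0), (-1, 0), (0, 0), (0,
    0), (-1, -1), (0, 0), (-1, -1), (0, -1), (0, -1), (0, -1), (1, 0), (1, 0), (0, 0)]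

/-- glued arcs and equations -/
def tord8c_4 : TorT :=
  ⟨[(0, 0, true), (0, 1, false), (1, 3, false), (2, 4, false), (2, 5, false), (3, 6, false), (4, 6, true), (5, 5,
    true), (7, 7, false)],
    [([0, 0, 0, 0, 0, 1, 1, 0], 2), ([0, 0, 0, 0, 1, 0, 0, 2], 2), ([0, 0, 0, 1, 0, 0, 1, 0], 2), ([0, 0, 1, 0, 1, 0,
    0, 0], 2), ([0, 1, 1, 1, 0, 1, 0, 0], 2), ([2, 1, 0, 0, 0, 0, 0, 0], 2)]⟩

theorem tord8c_4_ok : tord8c_4.OK 8 := TT.leaf_ok (T := ttd8c_4) (by decide +kernel)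

/-- the torus -/
def ttd8c_5 : TT where
  k := 8
  rf := [false, false, true, true, false, true, true, false]
  tau := [8, 16, 28, 33, 26, 18, 19, 47, 0, 40, 52, 57, 50, 42, 43, 23, 1, 27, 5, 6, 46, 45, 44, 15, 48, 32, 4, 17,
    2, 34, 35, 63, 25, 3, 29, 30, 62, 61, 60, 55, 9, 51, 13, 14, 22, 21, 20, 7, 24, 56, 12, 41, 10, 58, 59, 39, 49,
    11, 53, 54, 38, 37, 36, 31]
  par := [0, 0, 1, 2, 3, 7, 10, 11]
  stars := [[0, 40, 9], [1, 8, 16], [2, 17, 28], [3, 29, 34], [4, 33, 26], [5, 27, 18], [6, 19], [7, 20, 47], [10,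
    41, 52], [11, 53, 58], [12, 57, 50], [13, 51, 42], [14, 43], [15, 44, 23], [21, 46], [22, 45], [24, 49, 56], [25,
    32, 48], [30, 35], [31, 63, 36], [37, 62], [38, 61], [39, 60, 55], [54, 59]]
  word := [[], [], [], [], [0], [0], [0], [], [], [3, 0, 2, 1], [], [], [3, 1, 2], [1], [1], [], [], [], [1], [1],
    [1], [1], [1], [], [1, 2], [1], [1], [], [], [], [], [2], [0], [], [], [], [2], [2], [2], [2], [0, 3, 1, 2], [0,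
    3, 1, 2], [0], [0], [0], [0], [0], [], [3, 0], [3, 0, 2], [3, 0, 2], [3, 0, 2, 1], [], [], [], [3], [3, 1, 2],
    [], [], [], [3], [3], [3], [3]]
  rank := [0, 0, 0, 0, 2, 1, 0, 0, 0, 8, 0, 0, 6, 5, 4, 1, 0, 1, 1, 0, 1, 2, 3, 1, 4, 3, 2, 1, 0, 1, 2, 3, 3, 0, 1,
    2, 1, 0, 1, 3, 8, 7, 5, 4, 3, 2, 1, 0, 4, 5, 6, 7, 0, 1, 2, 3, 5, 0, 1, 2, 1, 0, 1, 3]
  just := [0, 0, 0, 0, 5, 6, 0, 0, 0, 8, 0, 0, 10, 12, 13, 1, 0, 2, 6, 0, 7, 14, 15, 1, 17, 4, 5, 2, 0, 3, 18, 19, 4,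
    0, 3, 18, 20, 0, 21, 22, 8, 11, 12, 13, 15, 14, 7, 0, 17, 16, 10, 11, 0, 9, 23, 22, 16, 0, 9, 23, 21, 0, 20, 19]
  gA := 6
  gB := 37
  fin := 0
  sid := [0, 1, 2, 3, 4, 5, 6, 7, 1, 0, 8, 9, 10, 11, 12, 13, 1, 2, 5, 6, 7, 14, 15, 13, 16, 17, 4, 5, 2, 3, 18, 19,
    17, 4, 3, 18, 19, 20, 21, 22, 0, 8, 11, 12, 13, 15, 14, 7, 17, 16, 10, 11, 8, 9, 23, 22, 16, 10, 9, 23, 22, 21,
    20, 19]
  off := [(0, 0), (0, 0), (0, 0), (0, 0), (0, 0), (0, 0), (0, 0), (0, 0), (0, 0), (0, 0), (0, 0), (0, 0), (0, 0), (0,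
    0), (0, 0), (0, 0), (0, 0), (0, 0), (-1, 0), (-1, 0), (-1, 0), (0, 0), (0, 0), (0, 0), (0, 0), (0, 0), (-1, 0),
    (-1, 0), (0, 0), (0, 0), (0, 0), (0, 0), (1, 0), (0, 0), (0, 0), (0, 0), (0, 0), (0, 0), (0, 0), (0, 0), (0, 0),
    (0, 0), (1, 0), (1, 0), (1, 0), (1, 0), (1, 0), (0, 0), (1, -1), (1, -1), (1, 0), (1, 0), (0, 0), (0, 0), (0, 0),
    (0, -1), (0, -1), (0, 0), (0, 0), (0, 0), (0, -1), (0, -1), (0, -1), (0, -1)]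

/-- glued arcs and equations -/
def tord8c_5 : TorT :=
  ⟨[(0, 0, true), (0, 1, false), (1, 3, true), (2, 4, false), (2, 5, false), (3, 6, false), (4, 6, true), (5, 5,
    true), (7, 7, false)],
    [([0, 0, 0, 0, 0, 1, 1, 0], 2), ([0, 0, 0, 0, 1, 0, 0, 2], 2), ([0, 0, 0, 1, 0, 0, 1, 0], 2), ([0, 0, 1, 1, 0, 1,
    0, 0], 2), ([0, 1, 1, 0, 1, 0, 0, 0], 2), ([2, 1, 0, 0, 0, 0, 0, 0], 2)]⟩

theorem tord8c_5_ok : tord8c_5.OK 8 := TT.leaf_ok (T := ttd8c_5) (by decide +kernel)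

end Pool.Agent.Lib_MP_fa6e45
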