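import Pool.Agent.Lib_MP_fa6e45.DQA
import Pool.Agent.Lib_MP_fa6e45.DQ8c_0_0
import Pool.Agent.Lib_MP_fa6e45.DQ8c_0_1
import Pool.Agent.Lib_MP_fa6e45.DQ8c_0_2
import Pool.Agent.Lib_MP_fa6e45.DQ8c_0_3
import Pool.Agent.Lib_MP_fa6e45.DQ8c_0_4
import Pool.Agent.Lib_MP_fa6e45.DQ8c_0_5
import Pool.Agent.Lib_MP_fa6e45.DQ8c_0_6
import Pool.Agent.Lib_MP_fa6e45.DQ8c_0_7
import Pool.Agent.Lib_MP_fa6e45.DQ8c_0_8
import Pool.Agent.Lib_MP_fa6e45.DQ8c_0_9
import Pool.Agent.Lib_MP_fa6e45.DQ8c_0_10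
import Pool.Agent.Lib_MP_fa6e45.DQ8c_0_11
import Pool.Agent.Lib_MP_fa6e45.DQ8c_0_12
import Pool.Agent.Lib_MP_fa6e45.DQ8c_0_13
import Pool.Agent.Lib_MP_fa6e45.DQ8c_0_14
import Pool.Agent.Lib_MP_fa6e45.DQ8c_0_15
import Pool.Agent.Lib_MP_fa6e45.DQ8c_0_16
import Pool.Agent.Lib_MP_fa6e45.DQ8c_0_17
import Pool.Agent.Lib_MP_fa6e45.DQ8c_0_18
import Pool.Agent.Lib_MP_fa6e45.DQ8c_0_19
import Pool.Agent.Lib_MP_fa6e45.DQ8c_0_20
import Pool.Agent.Lib_MP_fa6e45.DQ8c_0_21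
import Pool.Agent.Lib_MP_fa6e45.DQ8c_0_22
import Pool.Agent.Lib_MP_fa6e45.DQ8c_0_23
import Pool.Agent.Lib_MP_fa6e45.DQ8c_0_24
import Pool.Agent.Lib_MP_fa6e45.DQ8c_0_25
import Pool.Agent.Lib_MP_fa6e45.DQ8c_0_26
import Pool.Agent.Lib_MP_fa6e45.DQ8c_0_27
import Pool.Agent.Lib_MP_fa6e45.DQ8c_0_28
import Pool.Agent.Lib_MP_fa6e45.DQ8c_0_29
import Pool.Agent.Lib_MP_fa6e45.DQ8c_0_30
import Pool.Agent.Lib_MP_fa6e45.DQ8c_0_31
import Pool.Agent.Lib_MP_fa6e45.DQ8c_0_32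
import Pool.Agent.Lib_MP_fa6e45.DQ8c_0_33
import Pool.Agent.Lib_MP_fa6e45.DQ8c_0_34
import Pool.Agent.Lib_MP_fa6e45.DQ8c_0_35
import Pool.Agent.Lib_MP_fa6e45.DQ8c_0_36
import Pool.Agent.Lib_MP_fa6e45.DQ8c_0_37
import Pool.Agent.Lib_MP_fa6e45.DQ8c_0_38
import Pool.Agent.Lib_MP_fa6e45.DQ8c_0_39
import Pool.Agent.Lib_MP_fa6e45.DQ8c_0_40
import Pool.Agent.Lib_MP_fa6e45.DQ8c_0_41
import Pool.Agent.Lib_MP_fa6e45.DQ8c_0_42
import Pool.Agent.Lib_MP_fa6e45.DQ8c_0_43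
import Pool.Agent.Lib_MP_fa6e45.DQ8c_0_44
import Pool.Agent.Lib_MP_fa6e45.DQ8c_0_45
import Pool.Agent.Lib_MP_fa6e45.DQ8c_0_46
import Pool.Agent.Lib_MP_fa6e45.DQ8c_0_47
import Pool.Agent.Lib_MP_fa6e45.DQ8c_0_48
import Pool.Agent.Lib_MP_fa6e45.DQ8c_0_49
import Pool.Agent.Lib_MP_fa6e45.DQ8c_0_50

/-!
MP_fa6e45_co, stage 9: straight-side patterns with `8` sides, a certificate (generated by a program).
-/

namespace Pool.Agent.Lib_MP_fa6e45

/-- nodes -/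
noncomputable def cD8c_336_n : List (QG PN) :=
  cD8c_336_n0 ++ (cD8c_336_n1 ++ (cD8c_336_n2 ++ (cD8c_336_n3 ++ (cD8c_336_n4 ++ (cD8c_336_n5 ++ (
    cD8c_336_n6 ++ (cD8c_336_n7 ++ (cD8c_336_n8 ++ (cD8c_336_n9 ++ (cD8c_336_n10 ++ (
    cD8c_336_n11 ++ (cD8c_336_n12 ++ (cD8c_336_n13 ++ (cD8c_336_n14 ++ (cD8c_336_n15 ++ (
    cD8c_336_n16 ++ (cD8c_336_n17 ++ (cD8c_336_n18 ++ (cD8c_336_n19 ++ (cD8c_336_n20 ++ (
    cD8c_336_n21 ++ (cD8c_336_n22 ++ (cD8c_336_n23 ++ (cD8c_336_n24 ++ (cD8c_336_n25 ++ (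
    cD8c_336_n26 ++ (cD8c_336_n27 ++ (cD8c_336_n28 ++ (cD8c_336_n29 ++ (cD8c_336_n30 ++ (
    cD8c_336_n31 ++ (cD8c_336_n32 ++ (cD8c_336_n33 ++ (cD8c_336_n34 ++ (cD8c_336_n35 ++ (
    cD8c_336_n36 ++ (cD8c_336_n37 ++ (cD8c_336_n38 ++ (cD8c_336_n39 ++ (cD8c_336_n40 ++ (
    cD8c_336_n41 ++ (cD8c_336_n42 ++ (cD8c_336_n43 ++ (cD8c_336_n44 ++ (cD8c_336_n45 ++ (
    cD8c_336_n46 ++ (cD8c_336_n47 ++ (cD8c_336_n48 ++ (cD8c_336_n49 ++
    cD8c_336_n50)))))))))))))))))))))))))))))))))))))))))))))))))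

theorem cD8c_336_ok :
    allI (chkG (ckP 8 ttD8c cD8c_336_w cD8c_336_s) 8 cD8c_336_w 2 cD8c_336_s cD8c_336_t (bl3 [] cD8c_336_D)) cD8c_336_n 0 = true := by
  refine allI_appQ (k := 94) cD8c_336_k0 (by decide +kernel) ?_
  refine allI_appQ (k := 68) cD8c_336_k1 (by decide +kernel) ?_
  refine allI_appQ (k := 68) cD8c_336_k2 (by decide +kernel) ?_
  refine allI_appQ (k := 71) cD8c_336_k3 (by decide +kernel) ?_
  refine allI_appQ (k := 80) cD8c_336_k4 (by decide +kernel) ?_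
  refine allI_appQ (k := 67) cD8c_336_k5 (by decide +kernel) ?_
  refine allI_appQ (k := 71) cD8c_336_k6 (by decide +kernel) ?_
  refine allI_appQ (k := 65) cD8c_336_k7 (by decide +kernel) ?_
  refine allI_appQ (k := 78) cD8c_336_k8 (by decide +kernel) ?_
  refine allI_appQ (k := 77) cD8c_336_k9 (by decide +kernel) ?_
  refine allI_appQ (k := 74) cD8c_336_k10 (by decide +kernel) ?_
  refine allI_appQ (k := 75) cD8c_336_k11 (by decide +kernel) ?_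
  refine allI_appQ (k := 75) cD8c_336_k12 (by decide +kernel) ?_
  refine allI_appQ (k := 69) cD8c_336_k13 (by decide +kernel) ?_
  refine allI_appQ (k := 94) cD8c_336_k14 (by decide +kernel) ?_
  refine allI_appQ (k := 80) cD8c_336_k15 (by decide +kernel) ?_
  refine allI_appQ (k := 93) cD8c_336_k16 (by decide +kernel) ?_
  refine allI_appQ (k := 76) cD8c_336_k17 (by decide +kernel) ?_
  refine allI_appQ (k := 69) cD8c_336_k18 (by decide +kernel) ?_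
  refine allI_appQ (k := 78) cD8c_336_k19 (by decide +kernel) ?_
  refine allI_appQ (k := 76) cD8c_336_k20 (by decide +kernel) ?_
  refine allI_appQ (k := 74) cD8c_336_k21 (by decide +kernel) ?_
  refine allI_appQ (k := 76) cD8c_336_k22 (by decide +kernel) ?_
  refine allI_appQ (k := 89) cD8c_336_k23 (by decide +kernel) ?_
  refine allI_appQ (k := 69) cD8c_336_k24 (by decide +kernel) ?_
  refine allI_appQ (k := 79) cD8c_336_k25 (by decide +kernel) ?_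
  refine allI_appQ (k := 80) cD8c_336_k26 (by decide +kernel) ?_
  refine allI_appQ (k := 63) cD8c_336_k27 (by decide +kernel) ?_
  refine allI_appQ (k := 67) cD8c_336_k28 (by decide +kernel) ?_
  refine allI_appQ (k := 70) cD8c_336_k29 (by decide +kernel) ?_
  refine allI_appQ (k := 71) cD8c_336_k30 (by decide +kernel) ?_
  refine allI_appQ (k := 77) cD8c_336_k31 (by decide +kernel) ?_
  refine allI_appQ (k := 70) cD8c_336_k32 (by decide +kernel) ?_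
  refine allI_appQ (k := 72) cD8c_336_k33 (by decide +kernel) ?_
  refine allI_appQ (k := 67) cD8c_336_k34 (by decide +kernel) ?_
  refine allI_appQ (k := 62) cD8c_336_k35 (by decide +kernel) ?_
  refine allI_appQ (k := 82) cD8c_336_k36 (by decide +kernel) ?_
  refine allI_appQ (k := 72) cD8c_336_k37 (by decide +kernel) ?_
  refine allI_appQ (k := 75) cD8c_336_k38 (by decide +kernel) ?_
  refine allI_appQ (k := 83) cD8c_336_k39 (by decide +kernel) ?_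
  refine allI_appQ (k := 83) cD8c_336_k40 (by decide +kernel) ?_
  refine allI_appQ (k := 65) cD8c_336_k41 (by decide +kernel) ?_
  refine allI_appQ (k := 77) cD8c_336_k42 (by decide +kernel) ?_
  refine allI_appQ (k := 75) cD8c_336_k43 (by decide +kernel) ?_
  refine allI_appQ (k := 73) cD8c_336_k44 (by decide +kernel) ?_
  refine allI_appQ (k := 77) cD8c_336_k45 (by decide +kernel) ?_
  refine allI_appQ (k := 69) cD8c_336_k46 (by decide +kernel) ?_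
  refine allI_appQ (k := 69) cD8c_336_k47 (by decide +kernel) ?_
  refine allI_appQ (k := 66) cD8c_336_k48 (by decide +kernel) ?_
  refine allI_appQ (k := 63) cD8c_336_k49 (by decide +kernel) ?_
  exact cD8c_336_k50

theorem cD8c_336 : NodeU 8 cD8c_336_w [] :=
  nodeG_of (C := 2) (sy := cD8c_336_s) (st := cD8c_336_t) (D := cD8c_336_D) (Ns := cD8c_336_n) (by norm_num) (by norm_num)
    ttD8c_ok (by decide +kernel) (by decide +kernel) cD8c_336_ok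

theorem sD8c_0 : Solved 8 [cD8c_336_w] :=
  Solved.cons cD8c_336 Solved.nil

end Pool.Agent.Lib_MP_fa6e45
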