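import Pool.Agent.Lib_MP_fa6e45.CT5

/-!
MP_fa6e45_co, stage 9: straight-side patterns with `8` sides, tables of tori (generated by a program).
-/

namespace Pool.Agent.Lib_MP_fa6e45

/-- the torus -/
def ttd8k_11 : TT where
  k := 4
  rf := [false, false, false, false]
  tau := [8, 19, 25, 11, 16, 23, 29, 28, 0, 27, 17, 3, 24, 31, 21, 20, 4, 10, 26, 1, 15, 14, 30, 5, 12, 2, 18, 9, 7,
    6, 22, 13]
  par := [0, 0, 1, 2]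
  stars := [[0, 28, 9], [1, 8, 20], [2, 19, 26], [3, 25, 12], [4, 11, 17], [5, 16], [6, 23, 30], [7, 29], [10, 27,
    18], [13, 24], [14, 31, 22], [15, 21]]
  word := [[], [], [], [3], [0], [0], [0, 2], [0, 2], [], [2, 0], [2, 0], [2], [2], [2], [], [], [1], [1, 3], [], [],
    [], [], [2], [1], [3], [], [], [1, 3], [3, 1], [3, 1], [3], [3]]
  rank := [0, 0, 0, 1, 0, 1, 4, 5, 0, 3, 2, 1, 0, 1, 2, 1, 0, 2, 1, 0, 1, 2, 3, 1, 0, 0, 1, 3, 5, 4, 3, 1]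
  just := [0, 0, 0, 3, 0, 5, 6, 7, 0, 8, 4, 3, 0, 9, 11, 1, 0, 4, 2, 0, 1, 11, 10, 5, 0, 0, 2, 8, 7, 6, 10, 9]
  gA := 4
  gB := 12
  fin := 0
  sid := [0, 1, 2, 3, 4, 5, 6, 7, 1, 0, 8, 4, 3, 9, 10, 11, 5, 4, 8, 2, 1, 11, 10, 6, 9, 3, 2, 8, 0, 7, 6, 10]
  off := [(0, 0), (0, 0), (0, 0), (0, 0), (0, 0), (0, 0), (0, 0), (0, 0), (0, 0), (0, 0), (0, 0), (0, 1), (0, 1), (0,
    0), (0, 0), (0, 0), (-1, 0), (-1, 0), (-1, -1), (0, 0), (0, 0), (0, 0), (0, 0), (-1, 0), (0, -1), (0, 0), (0, 0),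
    (-1, -1), (-1, -1), (-1, -1), (-1, -1), (0, -1)]

/-- glued arcs and equations -/
def tord8k_11 : TorT :=
  ⟨[(0, 0, true), (0, 4, true), (1, 2, true), (1, 3, true), (2, 2, true), (3, 3, true), (4, 7, true), (5, 6, true),
    (5, 7, true), (6, 6, true)],
    [([0, 0, 0, 0, 0, 0, 2, 1], 2), ([0, 0, 0, 0, 0, 1, 0, 1], 2), ([0, 0, 2, 1, 0, 0, 0, 0], 2), ([0, 1, 0, 1, 1, 0,
    0, 0], 2), ([1, 0, 0, 0, 0, 1, 0, 0], 2), ([1, 1, 0, 0, 1, 0, 0, 0], 2)]⟩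

theorem tord8k_11_ok : tord8k_11.OK 8 := TT.leaf_ok (T := ttd8k_11) (by decide +kernel)

/-- the torus -/
def ttd8k_12 : TT where
  k := 8
  rf := [false, false, true, false, true, false, true, true]
  tau := [10, 9, 8, 11, 16, 17, 28, 23, 2, 1, 0, 3, 32, 33, 44, 39, 4, 5, 29, 30, 54, 26, 27, 7, 52, 53, 21, 22, 6,
    18, 19, 55, 12, 13, 45, 46, 62, 42, 43, 15, 60, 61, 37, 38, 14, 34, 35, 63, 58, 57, 56, 59, 24, 25, 20, 31, 50,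
    49, 48, 51, 40, 41, 36, 47]
  par := [0, 0, 4, 6, 12, 14, 20, 36]
  stars := [[0, 16, 4, 11], [1, 10], [2, 9], [3, 8, 32, 12], [5, 17], [6, 18, 29], [7, 28, 23], [13, 33], [14, 34,
    45], [15, 44, 39], [19, 30], [20, 55, 31], [21, 26, 54], [22, 27], [24, 48, 59, 52], [25, 53], [35, 46], [36, 63,
    47], [37, 42, 62], [38, 43], [40, 56, 51, 60], [41, 61], [49, 58], [50, 57]]
  word := [[], [], [], [1, 2], [], [], [], [0, 3], [], [], [], [3, 0], [], [], [], [1, 2], [], [], [], [], [], [2,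
    1], [2, 1], [2, 1], [0, 3], [0, 3], [0, 3], [0, 3], [], [], [], [], [], [], [], [], [], [3, 0], [3, 0], [3, 0],
    [1, 2], [1, 2], [1, 2], [1, 2], [], [], [], [], [0], [0], [0], [2], [2, 1], [2, 1], [], [], [1], [1], [1], [3],
    [3, 0], [3, 0], [], []]
  rank := [0, 1, 2, 10, 0, 1, 0, 9, 2, 1, 0, 10, 0, 1, 0, 9, 0, 1, 2, 3, 0, 7, 8, 9, 5, 6, 7, 8, 0, 2, 3, 4, 0, 1, 2,
    3, 0, 7, 8, 9, 5, 6, 7, 8, 0, 2, 3, 4, 1, 0, 1, 0, 5, 6, 0, 4, 1, 0, 1, 0, 5, 6, 0, 4]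
  just := [0, 1, 2, 3, 0, 4, 0, 6, 2, 1, 0, 3, 0, 7, 0, 9, 0, 4, 5, 10, 0, 12, 13, 6, 14, 15, 12, 13, 0, 5, 10, 11,
    0, 7, 8, 16, 0, 18, 19, 9, 20, 21, 18, 19, 0, 8, 16, 17, 22, 0, 23, 0, 14, 15, 0, 11, 23, 0, 22, 0, 20, 21, 0, 17]
  gA := 49
  gB := 51
  fin := 0
  sid := [0, 1, 2, 3, 0, 4, 5, 6, 3, 2, 1, 0, 3, 7, 8, 9, 0, 4, 5, 10, 11, 12, 13, 6, 14, 15, 12, 13, 6, 5, 10, 11,
    3, 7, 8, 16, 17, 18, 19, 9, 20, 21, 18, 19, 9, 8, 16, 17, 14, 22, 23, 20, 14, 15, 12, 11, 20, 23, 22, 14, 20, 21,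
    18, 17]
  off := [(0, 0), (0, 0), (0, 0), (0, 0), (-1, 1), (0, 0), (0, 0), (0, 0), (0, 0), (0, 0), (0, 0), (0, 0), (1, -1),
    (0, 0), (0, 0), (0, 0), (-1, 1), (0, 0), (0, 0), (0, 0), (0, 0), (0, 0), (0, 0), (-1, 1), (0, 0), (0, 0), (1,
    -1), (1, -1), (0, 0), (0, 0), (0, 0), (0, 0), (1, -1), (0, 0), (0, 0), (0, 0), (0, 0), (0, 0), (0, 0), (1, -1),
    (0, 0), (0, 0), (-1, 1), (-1, 1), (0, 0), (0, 0), (0, 0), (0, 0), (0, 0), (0, 0), (0, 0), (1, 0), (-1, 1), (-1,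
    1), (0, 0), (0, 0), (0, 0), (-1, 0), (-1, 0), (-1, 0), (1, -1), (1, -1), (0, 0), (0, 0)]

/-- glued arcs and equations -/
def tord8k_12 : TorT :=
  ⟨[(0, 2, true), (0, 4, false), (1, 1, true), (1, 5, false), (2, 5, false), (3, 3, true), (3, 6, false), (4, 6,
    true), (7, 7, false)],
    [([0, 0, 0, 0, 1, 0, 0, 2], 2), ([0, 0, 0, 1, 0, 0, 1, 0], 2), ([0, 0, 1, 0, 0, 1, 1, 0], 2), ([0, 1, 0, 0, 0, 1,
    0, 0], 2), ([0, 1, 1, 0, 0, 0, 0, 0], 2), ([2, 0, 0, 1, 1, 0, 0, 0], 2)]⟩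

theorem tord8k_12_ok : tord8k_12.OK 8 := TT.leaf_ok (T := ttd8k_12) (by decide +kernel)

/-- the torus -/
def ttd8k_13 : TT where
  k := 4
  rf := [false, true, false, true]
  tau := [4, 12, 13, 11, 0, 23, 17, 16, 31, 30, 14, 3, 1, 2, 10, 29, 7, 6, 22, 27, 25, 26, 18, 5, 28, 20, 21, 19, 24,
    15, 9, 8]
  par := [0, 1, 5, 8]
  stars := [[0, 16, 5], [1, 4, 12], [2, 13], [3, 14, 11], [6, 23, 18], [7, 17], [8, 24, 29], [9, 31], [10, 15, 30],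
    [19, 22, 27], [20, 28, 25], [21, 26]]
  word := [[3], [], [], [2], [2], [], [0, 3, 1], [0, 3, 1], [], [], [3], [3], [], [], [2], [2], [0, 2, 1], [0, 2, 1],
    [0, 2, 1], [0, 2], [0], [0], [0, 3, 1], [], [2], [1], [1], [3, 1], [3], [3], [], []]
  rank := [4, 0, 1, 3, 4, 0, 3, 4, 0, 1, 2, 3, 0, 1, 2, 1, 4, 3, 2, 1, 0, 1, 2, 0, 0, 0, 1, 1, 0, 1, 1, 0]
  just := [1, 0, 2, 3, 1, 0, 4, 5, 0, 7, 8, 3, 0, 2, 8, 6, 5, 4, 9, 10, 0, 11, 9, 0, 0, 0, 11, 10, 0, 6, 7, 0]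
  gA := 20
  gB := 24
  fin := 0
  sid := [0, 1, 2, 3, 1, 0, 4, 5, 6, 7, 8, 3, 1, 2, 3, 8, 0, 5, 4, 9, 10, 11, 9, 4, 6, 10, 11, 9, 10, 6, 8, 7]
  off := [(0, 0), (0, 0), (0, 0), (0, 0), (0, 1), (0, 1), (0, 0), (0, 0), (0, 0), (0, 0), (0, 0), (0, -1), (0, 0),
    (0, 0), (0, 0), (0, 1), (0, 1), (0, 1), (0, 1), (0, 0), (0, 0), (0, 0), (0, -1), (0, 0), (0, 0), (-1, 0), (-1,
    0), (-1, -1), (-1, -1), (0, -1), (0, 0), (0, 0)]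

/-- glued arcs and equations -/
def tord8k_13 : TorT :=
  ⟨[(0, 4, true), (0, 7, true), (1, 4, false), (1, 6, true), (2, 5, false), (2, 6, true), (3, 3, false), (5, 7,
    true)],
    [([0, 0, 0, 2, 0, 0, 1, 0], 2), ([0, 0, 1, 0, 0, 0, 1, 1], 2), ([0, 0, 1, 0, 0, 1, 0, 0], 2), ([0, 1, 0, 0, 0, 0,
    0, 1], 2), ([0, 1, 0, 0, 2, 0, 0, 0], 2), ([2, 0, 0, 0, 0, 1, 0, 0], 2)]⟩

theorem tord8k_13_ok : tord8k_13.OK 8 := TT.leaf_ok (T := ttd8k_13) (by decide +kernel)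

/-- the torus -/
def ttd8k_14 : TT where
  k := 8
  rf := [false, false, false, false, true, true, true, true]
  tau := [11, 10, 20, 19, 18, 25, 37, 47, 44, 21, 1, 0, 40, 54, 30, 63, 27, 26, 4, 3, 2, 9, 45, 39, 36, 5, 17, 16,
    32, 62, 14, 55, 28, 61, 49, 48, 24, 6, 46, 23, 12, 53, 57, 56, 8, 22, 38, 7, 35, 34, 60, 59, 58, 41, 13, 31, 43,
    42, 52, 51, 50, 33, 29, 15]
  par := [0, 0, 2, 5, 6, 7, 13, 15]
  stars := [[0, 40, 12], [1, 11], [2, 10, 21], [3, 20], [4, 19], [5, 18, 26], [6, 25, 37], [7, 38, 47], [8, 56, 44],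
    [9, 45, 22], [13, 41, 54], [14, 55, 31], [15, 30, 63], [16, 32, 28], [17, 27], [23, 46, 39], [24, 48, 36], [29,
    33, 62], [34, 50, 61], [35, 49], [42, 58, 53], [43, 57], [51, 60], [52, 59]]
  word := [[], [], [], [], [], [], [], [], [0], [], [], [], [3, 1, 2, 0], [], [3], [], [], [], [], [], [], [], [0],
    [0], [], [], [], [], [0], [2], [2], [2], [1], [1, 2], [2], [2], [], [], [], [1], [1, 3, 0, 2], [1, 3, 0, 2], [1],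
    [1], [1], [1], [], [], [3], [3], [3, 1, 2], [3, 1, 2], [3, 1, 2], [3, 1, 2, 0], [], [3], [0], [0], [3, 0, 2], [3,
    0, 2], [3, 0, 2], [3, 0], [3], []]
  rank := [0, 1, 0, 1, 2, 0, 0, 0, 7, 2, 1, 0, 11, 0, 1, 0, 4, 3, 2, 1, 0, 2, 6, 5, 1, 0, 3, 4, 0, 2, 1, 0, 0, 3, 3,
    2, 1, 0, 1, 5, 11, 10, 9, 8, 7, 6, 1, 0, 2, 3, 4, 5, 6, 10, 0, 0, 8, 9, 6, 5, 4, 3, 2, 0]
  just := [0, 1, 0, 3, 4, 0, 0, 0, 9, 2, 1, 0, 10, 0, 11, 0, 14, 5, 4, 3, 0, 2, 15, 13, 6, 0, 5, 14, 0, 12, 11, 0, 0,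
    17, 19, 16, 6, 0, 7, 13, 10, 20, 21, 8, 9, 15, 7, 0, 16, 19, 18, 22, 23, 20, 0, 0, 8, 21, 23, 22, 18, 17, 12, 0]
  gA := 28
  gB := 31
  fin := 0
  sid := [0, 1, 2, 3, 4, 5, 6, 7, 8, 9, 2, 1, 0, 10, 11, 12, 13, 14, 5, 4, 3, 2, 9, 15, 16, 6, 5, 14, 13, 17, 12, 11,
    13, 17, 18, 19, 16, 6, 7, 15, 0, 10, 20, 21, 8, 9, 15, 7, 16, 19, 18, 22, 23, 20, 10, 11, 8, 21, 20, 23, 22, 18,
    17, 12]
  off := [(0, 0), (0, 0), (0, 0), (0, 0), (0, 0), (0, 0), (0, 0), (0, 0), (0, 0), (0, 0), (0, 0), (0, 0), (0, 0), (0,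
    0), (0, 0), (0, 0), (0, 0), (0, 0), (0, 0), (0, 0), (0, 0), (0, 0), (0, 0), (0, 0), (0, 0), (0, 0), (0, 0), (0,
    0), (0, 0), (0, 0), (0, 1), (0, 1), (-1, 0), (-1, 0), (0, 0), (0, 0), (0, 0), (0, 0), (0, 0), (-1, 0), (0, 0),
    (0, 0), (0, 0), (0, 0), (-1, 0), (-1, 0), (-1, 0), (0, 0), (0, -1), (0, -1), (0, -1), (0, 0), (0, 0), (0, 0), (0,
    0), (0, 0), (0, 0), (1, 0), (1, 0), (1, 0), (1, 0), (1, -1), (0, -1), (0, 0)]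

/-- glued arcs and equations -/
def tord8k_14 : TorT :=
  ⟨[(0, 3, true), (0, 4, false), (1, 2, true), (1, 5, true), (2, 4, true), (3, 3, true), (5, 6, false), (6, 6, true),
    (7, 7, false)],
    [([0, 0, 0, 0, 0, 0, 1, 2], 2), ([0, 0, 0, 1, 1, 0, 0, 0], 2), ([0, 0, 2, 0, 0, 1, 0, 0], 2), ([0, 1, 0, 0, 0, 1,
    1, 0], 2), ([0, 1, 0, 1, 0, 0, 0, 0], 2), ([2, 0, 0, 0, 1, 0, 0, 0], 2)]⟩

theorem tord8k_14_ok : tord8k_14.OK 8 := TT.leaf_ok (T := ttd8k_14) (by decide +kernel)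

/-- the torus -/
def ttd8k_15 : TT where
  k := 8
  rf := [false, true, false, false, true, true, true, false]
  tau := [11, 22, 21, 20, 15, 8, 30, 33, 5, 31, 34, 0, 43, 42, 41, 4, 45, 55, 58, 40, 3, 2, 1, 44, 35, 62, 61, 60,
    39, 32, 6, 9, 29, 7, 10, 24, 51, 50, 49, 28, 19, 14, 13, 12, 23, 16, 54, 57, 59, 38, 37, 36, 63, 56, 46, 17, 53,
    47, 18, 48, 27, 26, 25, 52]
  par := [0, 0, 1, 6, 7, 12, 17, 18]
  stars := [[0, 34, 11], [1, 12, 44, 23], [2, 22], [3, 21], [4, 20, 41, 15], [5, 8], [6, 9, 31], [7, 30, 33], [10,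
    35, 24], [13, 43], [14, 42], [16, 45], [17, 46, 55], [18, 48, 59], [19, 58, 40], [25, 36, 52, 63], [26, 62], [27,
    61], [28, 60, 49, 39], [29, 32], [37, 51], [38, 50], [47, 57, 54], [53, 56]]
  word := [[], [], [], [], [3], [3], [], [], [2], [2], [2, 0, 3, 1], [], [], [], [], [2], [], [], [], [3], [], [],
    [], [], [0, 3, 1], [0], [0], [0], [], [], [], [3], [], [], [0, 2, 1, 3], [0, 2, 1], [0], [0], [0], [], [2], [],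
    [], [], [], [], [], [2], [], [1], [1], [1], [2], [2], [], [], [3], [3], [], [], [1], [1], [1], [3]]
  rank := [0, 0, 1, 2, 3, 4, 0, 0, 4, 5, 7, 0, 0, 1, 2, 3, 2, 0, 0, 1, 2, 1, 0, 1, 6, 5, 4, 3, 2, 1, 0, 5, 1, 0, 7,
    6, 2, 1, 0, 2, 1, 2, 1, 0, 1, 2, 3, 0, 1, 0, 1, 2, 5, 4, 3, 0, 4, 0, 0, 1, 3, 4, 5, 5]
  just := [0, 0, 2, 3, 4, 5, 0, 0, 5, 6, 8, 0, 0, 9, 10, 4, 11, 0, 0, 14, 3, 2, 0, 1, 15, 16, 17, 18, 19, 7, 0, 6, 7,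
    0, 8, 15, 20, 21, 0, 19, 14, 10, 9, 0, 1, 11, 12, 0, 13, 0, 21, 20, 23, 22, 12, 0, 22, 0, 0, 13, 18, 17, 16, 23]
  gA := 38
  gB := 47
  fin := 0
  sid := [0, 1, 2, 3, 4, 5, 6, 7, 5, 6, 8, 0, 1, 9, 10, 4, 11, 12, 13, 14, 4, 3, 2, 1, 8, 15, 16, 17, 18, 19, 7, 6,
    19, 7, 0, 8, 15, 20, 21, 18, 14, 4, 10, 9, 1, 11, 12, 22, 13, 18, 21, 20, 15, 23, 22, 12, 23, 22, 14, 13, 18, 17,
    16, 15]
  off := [(0, 0), (0, 0), (0, 0), (0, 0), (0, 0), (0, 0), (0, 0), (0, 0), (0, 1), (0, 1), (0, 0), (0, 0), (0, 0), (0,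
    0), (0, 0), (0, 1), (0, 0), (0, 0), (0, 0), (0, 0), (0, 0), (0, 0), (0, 0), (0, 0), (0, -1), (0, 0), (0, 0), (0,
    0), (0, 0), (0, 0), (0, 0), (0, 0), (0, 0), (0, 0), (0, 0), (0, 0), (0, 1), (0, 0), (0, 0), (0, 0), (0, 1), (0,
    1), (0, 0), (0, 0), (0, 0), (0, 0), (0, 0), (0, 0), (0, 0), (-1, 0), (-1, 0), (-1, 0), (-1, 1), (0, 0), (0, 0),
    (0, 0), (0, -1), (0, -1), (0, 0), (0, 0), (-1, 0), (-1, 0), (-1, 0), (-1, 0)]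

/-- glued arcs and equations -/
def tord8k_15 : TorT :=
  ⟨[(0, 3, false), (0, 5, false), (1, 6, true), (1, 7, false), (2, 2, true), (2, 5, true), (3, 4, true), (4, 7,
    false), (6, 6, true)],
    [([0, 0, 0, 1, 0, 1, 0, 0], 2), ([0, 0, 1, 0, 0, 0, 1, 0], 2), ([0, 1, 0, 0, 0, 0, 1, 1], 2), ([0, 1, 0, 0, 2, 0,
    0, 1], 2), ([1, 0, 0, 0, 0, 1, 0, 0], 2), ([1, 0, 1, 1, 0, 0, 0, 0], 2)]⟩

theorem tord8k_15_ok : tord8k_15.OK 8 := TT.leaf_ok (T := ttd8k_15) (by decide +kernel)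

/-- the torus -/
def ttd8k_16 : TT where
  k := 4
  rf := [false, false, false, false]
  tau := [8, 6, 17, 16, 23, 18, 1, 15, 0, 14, 25, 24, 31, 26, 9, 7, 3, 2, 5, 22, 28, 29, 19, 4, 11, 10, 13, 30, 20,
    21, 27, 12]
  par := [0, 0, 2, 10]
  stars := [[0, 15, 9], [1, 8, 7], [2, 6, 18], [3, 17], [4, 16], [5, 23, 19], [10, 14, 26], [11, 25], [12, 24], [13,
    31, 27], [20, 22, 29], [21, 28, 30]]
  word := [[], [0, 3], [], [], [], [2, 1], [2, 1], [2, 1], [], [1, 2], [], [], [], [3, 0], [3, 0], [0, 3], [], [],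
    [0, 3], [0, 3], [0], [2], [2, 1], [], [], [], [1, 2], [1, 2], [1], [3], [3, 0], []]
  rank := [0, 4, 0, 1, 2, 3, 4, 5, 0, 4, 0, 1, 2, 3, 4, 5, 1, 0, 3, 1, 0, 0, 1, 2, 1, 0, 3, 1, 0, 0, 1, 2]
  just := [0, 2, 0, 3, 4, 5, 2, 1, 0, 6, 0, 7, 8, 9, 6, 1, 3, 0, 5, 10, 0, 0, 10, 4, 7, 0, 9, 11, 0, 0, 11, 8]
  gA := 20
  gB := 21
  fin := 0
  sid := [0, 1, 2, 3, 4, 5, 2, 1, 1, 0, 6, 7, 8, 9, 6, 0, 4, 3, 2, 5, 10, 11, 10, 5, 8, 7, 6, 9, 11, 10, 11, 9]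
  off := [(0, 0), (0, 0), (0, 0), (0, 0), (0, 0), (0, 0), (-1, 1), (-1, 1), (0, 0), (0, 0), (0, 0), (0, 0), (0, 0),
    (0, 0), (1, -1), (1, -1), (0, 0), (0, 0), (0, 0), (1, -1), (0, 0), (0, 0), (-1, 1), (0, 0), (0, 0), (0, 0), (0,
    0), (-1, 1), (-1, 0), (-1, 0), (0, -1), (0, 0)]

/-- glued arcs and equations -/
def tord8k_16 : TorT :=
  ⟨[(0, 0, true), (0, 3, true), (1, 2, true), (1, 6, true), (2, 5, true), (3, 6, true), (4, 4, true), (4, 7, true),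
    (5, 5, true), (7, 7, true)],
    [([0, 0, 0, 0, 1, 1, 1, 0], 2), ([0, 0, 0, 1, 0, 1, 0, 1], 2), ([0, 0, 2, 0, 0, 0, 1, 0], 2), ([0, 1, 0, 1, 0, 0,
    0, 0], 2), ([1, 0, 0, 0, 1, 0, 0, 0], 2), ([1, 1, 0, 0, 0, 0, 0, 1], 2)]⟩

theorem tord8k_16_ok : tord8k_16.OK 8 := TT.leaf_ok (T := ttd8k_16) (by decide +kernel)

/-- the torus -/
def ttd8k_17 : TT where
  k := 8
  rf := [false, false, true, false, true, false, true, true]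
  tau := [10, 21, 22, 29, 28, 27, 30, 23, 19, 20, 0, 16, 17, 33, 34, 39, 11, 12, 32, 8, 9, 1, 2, 7, 42, 53, 54, 5, 4,
    3, 6, 55, 18, 13, 14, 61, 60, 59, 62, 15, 51, 52, 24, 48, 49, 57, 58, 63, 43, 44, 56, 40, 41, 25, 26, 31, 50, 45,
    46, 37, 36, 35, 38, 47]
  par := [0, 0, 1, 3, 13, 24, 25, 35]
  stars := [[0, 16, 11], [1, 10, 21], [2, 22], [3, 23, 7, 30], [4, 29], [5, 28], [6, 27, 55, 31], [8, 32, 19], [9,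
    20], [12, 17], [13, 18, 33], [14, 34], [15, 35, 62, 39], [24, 48, 43], [25, 42, 53], [26, 54], [36, 61], [37,
    60], [38, 63, 47, 59], [40, 56, 51], [41, 52], [44, 49], [45, 50, 57], [46, 58]]
  word := [[], [], [], [], [], [], [2, 1], [2, 1], [], [], [], [1, 2], [1, 2], [], [], [3, 0], [3, 0], [3, 0], [3,
    0], [], [], [], [], [0, 3], [], [], [], [], [], [], [0, 3], [0, 3], [1, 2], [], [], [], [], [], [1, 2], [1, 2],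
    [], [], [], [0, 3], [0, 3], [0], [0], [2], [2, 1], [2, 1], [2], [], [], [], [], [2, 1], [3], [1], [1], [], [],
    [], [3, 0], [3]]
  rank := [0, 0, 1, 0, 1, 2, 7, 8, 2, 1, 0, 7, 6, 0, 1, 4, 7, 6, 5, 2, 1, 0, 1, 8, 0, 0, 1, 2, 1, 0, 7, 6, 5, 0, 1,
    0, 1, 2, 3, 4, 2, 1, 0, 5, 4, 1, 0, 0, 5, 4, 3, 2, 1, 0, 1, 6, 3, 1, 0, 2, 1, 0, 3, 0]
  just := [0, 0, 2, 0, 4, 5, 6, 3, 8, 1, 0, 9, 10, 0, 11, 12, 9, 10, 7, 8, 1, 0, 2, 3, 0, 0, 15, 5, 4, 0, 6, 13, 7,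
    0, 11, 0, 16, 17, 18, 12, 20, 14, 0, 21, 22, 23, 0, 0, 21, 22, 19, 20, 14, 0, 15, 13, 19, 23, 0, 17, 16, 0, 18, 0]
  gA := 46
  gB := 47
  fin := 0
  sid := [0, 1, 2, 3, 4, 5, 6, 3, 7, 8, 1, 0, 9, 10, 11, 12, 0, 9, 10, 7, 8, 1, 2, 3, 13, 14, 15, 6, 5, 4, 3, 6, 7,
    10, 11, 12, 16, 17, 18, 12, 19, 20, 14, 13, 21, 22, 23, 18, 13, 21, 22, 19, 20, 14, 15, 6, 19, 22, 23, 18, 17,
    16, 12, 18]
  off := [(0, 0), (0, 0), (0, 0), (0, 0), (0, 0), (0, 0), (0, 0), (-1, 1), (0, 0), (0, 0), (0, 0), (0, 0), (0, 0),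
    (0, 0), (0, 0), (0, 0), (1, -1), (1, -1), (1, -1), (0, 0), (0, 0), (0, 0), (0, 0), (0, 0), (0, 0), (0, 0), (0,
    0), (0, 0), (0, 0), (0, 0), (0, 0), (1, -1), (-1, 1), (0, 0), (0, 0), (0, 0), (0, 0), (0, 0), (0, 0), (-1, 1),
    (0, 0), (0, 0), (0, 0), (0, 0), (0, 0), (0, 0), (0, 0), (1, 0), (-1, 1), (-1, 1), (-1, 1), (0, 0), (0, 0), (0,
    0), (0, 0), (0, 0), (0, -1), (-1, 0), (-1, 0), (0, 0), (0, 0), (0, 0), (0, 0), (1, -1)]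

/-- glued arcs and equations -/
def tord8k_17 : TorT :=
  ⟨[(0, 2, true), (0, 3, false), (1, 4, false), (1, 5, false), (2, 6, false), (3, 5, true), (4, 4, true), (6, 6,
    true), (7, 7, false)],
    [([0, 0, 0, 0, 1, 1, 0, 0], 2), ([0, 0, 0, 1, 0, 0, 1, 2], 2), ([0, 0, 1, 0, 0, 0, 1, 0], 2), ([0, 1, 0, 0, 1, 0,
    0, 0], 2), ([0, 1, 1, 0, 0, 1, 0, 0], 2), ([2, 0, 0, 1, 0, 0, 0, 0], 2)]⟩

theorem tord8k_17_ok : tord8k_17.OK 8 := TT.leaf_ok (T := ttd8k_17) (by decide +kernel)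

/-- the torus -/
def ttd8k_18 : TT where
  k := 8
  rf := [false, false, true, true, true, true, false, false]
  tau := [14, 13, 23, 24, 34, 35, 36, 18, 43, 49, 20, 21, 22, 1, 0, 55, 38, 37, 7, 48, 10, 11, 12, 2, 3, 33, 60, 61,
    62, 41, 40, 39, 59, 25, 4, 5, 6, 17, 16, 31, 30, 29, 63, 8, 50, 51, 52, 58, 19, 9, 44, 45, 46, 57, 56, 15, 54,
    53, 47, 32, 26, 27, 28, 42]
  par := [0, 0, 2, 3, 4, 8, 9, 26]
  stars := [[0, 19, 48, 15], [1, 14], [2, 13, 23], [3, 16, 39, 24], [4, 25, 34], [5, 35], [6, 36], [7, 37, 18], [8,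
    55, 56, 43], [9, 44, 50], [10, 49, 20], [11, 21], [12, 22], [17, 38], [26, 60, 33], [27, 61], [28, 62], [29, 42,
    63], [30, 41], [31, 32, 59, 40], [45, 51], [46, 52], [47, 58, 53], [54, 57]]
  word := [[], [], [], [], [], [], [], [3, 1], [], [], [], [], [], [], [], [1, 3], [0, 2], [0, 2], [0, 2], [], [],
    [], [], [], [], [], [], [], [], [0], [0], [0, 2], [], [], [], [], [], [3, 1], [3, 1], [3, 1], [1], [1], [1], [],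
    [], [], [], [2], [], [], [], [], [], [2], [2], [2, 0], [3], [3], [3], [], [], [], [], [0]]
  rank := [0, 1, 0, 0, 0, 1, 2, 6, 0, 0, 4, 3, 2, 1, 0, 6, 4, 5, 6, 5, 4, 3, 2, 0, 0, 1, 0, 1, 2, 1, 0, 3, 2, 1, 0,
    1, 2, 5, 4, 3, 0, 1, 3, 0, 1, 2, 3, 0, 5, 0, 1, 2, 3, 4, 5, 6, 5, 4, 0, 2, 0, 1, 2, 3]
  just := [0, 1, 0, 0, 0, 5, 6, 7, 0, 0, 11, 12, 2, 1, 0, 8, 3, 13, 7, 10, 11, 12, 2, 0, 0, 4, 0, 15, 16, 18, 0, 19,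
    14, 4, 0, 5, 6, 13, 3, 19, 0, 18, 17, 0, 9, 20, 21, 0, 10, 0, 9, 20, 21, 22, 23, 8, 23, 22, 0, 14, 0, 15, 16, 17]
  gA := 30
  gB := 47
  fin := 0
  sid := [0, 1, 2, 3, 4, 5, 6, 7, 8, 9, 10, 11, 12, 2, 1, 0, 3, 13, 7, 0, 10, 11, 12, 2, 3, 4, 14, 15, 16, 17, 18,
    19, 19, 14, 4, 5, 6, 7, 13, 3, 19, 18, 17, 8, 9, 20, 21, 22, 0, 10, 9, 20, 21, 22, 23, 8, 8, 23, 22, 19, 14, 15,
    16, 17]
  off := [(0, 0), (0, 0), (0, 0), (0, 0), (0, 0), (0, 0), (0, 0), (0, 0), (0, 0), (0, 0), (0, 0), (0, 0), (0, 0), (0,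
    0), (0, 0), (0, 0), (0, 0), (0, 0), (1, 1), (1, 1), (0, 0), (0, 0), (0, 0), (0, 0), (0, 0), (0, 0), (0, 0), (0,
    0), (0, 0), (0, 0), (0, 0), (0, 0), (-1, -1), (0, 0), (0, 0), (0, 0), (0, 0), (0, 0), (-1, -1), (-1, -1), (-1,
    0), (-1, 0), (-1, 0), (0, 0), (0, 0), (0, 0), (0, 0), (0, 0), (1, 1), (0, 0), (0, 0), (0, 0), (0, 0), (0, 0), (0,
    0), (1, 1), (1, 0), (0, -1), (0, -1), (-1, -1), (0, 0), (0, 0), (0, 0), (0, 0)]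

/-- glued arcs and equations -/
def tord8k_18 : TorT :=
  ⟨[(0, 3, false), (0, 6, true), (1, 1, true), (1, 5, true), (2, 4, false), (2, 7, false), (3, 5, false), (4, 6,
    false), (7, 7, true)],
    [([0, 0, 0, 0, 1, 0, 1, 0], 2), ([0, 0, 0, 1, 0, 1, 0, 0], 2), ([0, 0, 1, 0, 0, 1, 0, 1], 2), ([0, 1, 0, 0, 0, 0,
    1, 0], 2), ([0, 1, 1, 0, 1, 0, 0, 0], 2), ([2, 0, 0, 1, 0, 0, 0, 1], 2)]⟩

theorem tord8k_18_ok : tord8k_18.OK 8 := TT.leaf_ok (T := ttd8k_18) (by decide +kernel)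

/-- the torus -/
def ttd8k_19 : TT where
  k := 8
  rf := [false, false, false, false, true, true, true, true]
  tau := [15, 17, 30, 33, 34, 35, 22, 44, 45, 51, 52, 53, 63, 40, 18, 0, 31, 1, 14, 41, 42, 43, 6, 36, 37, 59, 60,
    61, 55, 32, 2, 16, 29, 3, 4, 5, 23, 24, 58, 48, 13, 19, 20, 21, 7, 8, 50, 56, 39, 57, 46, 9, 10, 11, 62, 28, 47,
    49, 38, 25, 26, 27, 54, 12]
  par := [0, 0, 1, 2, 3, 7, 9, 12]
  stars := [[0, 45, 8], [1, 15, 18], [2, 17, 31], [3, 30, 33], [4, 34], [5, 35], [6, 36, 23], [7, 22, 44], [9, 46,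
    51], [10, 52], [11, 53], [12, 54, 63], [13, 56, 40], [14, 41, 19], [16, 37, 24], [20, 42], [21, 43], [25, 38,
    59], [26, 60], [27, 61], [28, 62, 55], [29, 48, 32], [39, 49, 58], [47, 57, 50]]
  word := [[], [], [], [], [], [], [0], [], [3, 0, 2, 1], [], [], [], [], [1], [], [], [], [], [], [1], [1], [1],
    [1], [1], [1], [2], [2], [2], [2], [], [], [], [], [], [], [], [0], [0], [0, 2], [2], [0], [0], [0], [0], [], [0,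
    3, 1, 2], [0, 3, 1, 2], [0], [3], [3, 0, 2], [3, 0, 2, 1], [], [], [], [], [3], [1], [3, 1, 2], [3, 1], [3], [3],
    [3], [], []]
  rank := [0, 0, 0, 0, 1, 2, 0, 0, 8, 0, 1, 2, 0, 4, 1, 0, 1, 0, 1, 3, 2, 1, 0, 3, 4, 2, 1, 0, 4, 1, 0, 1, 1, 0, 1,
    2, 3, 4, 5, 5, 4, 3, 2, 1, 0, 8, 7, 5, 5, 6, 7, 0, 1, 2, 3, 4, 5, 6, 5, 2, 1, 0, 3, 0]
  just := [0, 0, 0, 0, 4, 5, 0, 0, 8, 0, 9, 10, 0, 13, 1, 0, 2, 0, 1, 15, 16, 7, 0, 6, 14, 18, 19, 0, 20, 3, 0, 2, 3,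
    0, 4, 5, 6, 14, 17, 21, 13, 15, 16, 7, 0, 8, 23, 12, 21, 22, 23, 0, 9, 10, 11, 20, 12, 22, 17, 18, 19, 0, 11, 0]
  gA := 6
  gB := 27
  fin := 0
  sid := [0, 1, 2, 3, 4, 5, 6, 7, 0, 8, 9, 10, 11, 12, 13, 1, 14, 2, 1, 13, 15, 16, 7, 6, 14, 17, 18, 19, 20, 21, 3,
    2, 21, 3, 4, 5, 6, 14, 17, 22, 12, 13, 15, 16, 7, 0, 8, 23, 21, 22, 23, 8, 9, 10, 11, 20, 12, 23, 22, 17, 18, 19,
    20, 11]
  off := [(0, 0), (0, 0), (0, 0), (0, 0), (0, 0), (0, 0), (0, 0), (0, 0), (0, 0), (0, 0), (0, 0), (0, 0), (0, 0), (0,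
    0), (0, 0), (0, 0), (0, 0), (0, 0), (0, 0), (0, 0), (0, 0), (0, 0), (-1, 0), (-1, 0), (0, 0), (0, 0), (0, 0), (0,
    0), (0, 0), (0, 0), (0, 0), (0, 0), (0, 0), (0, 0), (0, 0), (0, 0), (0, 0), (1, 0), (1, 0), (0, 0), (1, 0), (1,
    0), (1, 0), (1, 0), (0, 0), (0, 0), (0, 0), (0, 0), (0, -1), (0, -1), (0, 0), (0, 0), (0, 0), (0, 0), (0, 0), (0,
    -1), (0, 0), (-1, 0), (-1, -1), (0, -1), (0, -1), (0, -1), (0, -1), (0, 0)]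

/-- glued arcs and equations -/
def tord8k_19 : TorT :=
  ⟨[(0, 5, false), (0, 7, true), (1, 1, true), (1, 3, false), (2, 4, false), (2, 6, true), (3, 5, false), (4, 7,
    false), (6, 6, true)],
    [([0, 0, 0, 0, 1, 0, 1, 1], 2), ([0, 0, 0, 1, 0, 1, 0, 0], 2), ([0, 0, 1, 0, 1, 0, 0, 0], 2), ([0, 1, 0, 1, 0, 0,
    1, 0], 2), ([0, 1, 1, 0, 0, 0, 0, 1], 2), ([2, 0, 0, 0, 0, 1, 0, 0], 2)]⟩

theorem tord8k_19_ok : tord8k_19.OK 8 := TT.leaf_ok (T := ttd8k_19) (by decide +kernel)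

/-- the torus -/
def ttd8k_20 : TT where
  k := 2
  rf := [false, false]
  tau := [3, 12, 11, 0, 15, 14, 9, 8, 7, 6, 13, 2, 1, 10, 5, 4]
  par := [0, 1]
  stars := [[0, 8, 4], [1, 3, 11, 13], [2, 12], [5, 15], [6, 14, 10], [7, 9]]
  word := [[1, 2], [], [], [3, 0], [0], [0], [2], [2], [3], [3], [3, 0], [], [], [1, 2], [1], [1]]
  rank := [2, 0, 1, 2, 1, 0, 0, 1, 1, 0, 1, 1, 0, 1, 0, 1]
  just := [1, 0, 2, 1, 3, 0, 0, 5, 5, 0, 4, 2, 0, 4, 0, 3]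
  gA := 5
  gB := 6
  fin := 0
  sid := [0, 1, 2, 1, 0, 3, 4, 5, 0, 5, 4, 1, 2, 1, 4, 3]
  off := [(0, 0), (0, 0), (0, 0), (1, -1), (1, -1), (0, 0), (0, 0), (0, 0), (0, -1), (0, -1), (0, -1), (1, -1), (0,
    0), (0, 0), (-1, 0), (-1, 0)]

/-- glued arcs and equations -/
def tord8k_20 : TorT :=
  ⟨[(0, 3, true), (0, 7, true), (1, 4, true), (1, 6, true), (2, 3, true), (2, 5, true), (4, 7, true), (5, 6, true)],
    [([0, 0, 0, 0, 0, 1, 0, 1], 2), ([0, 0, 1, 0, 0, 0, 2, 0], 2), ([0, 0, 1, 0, 1, 0, 0, 0], 2), ([0, 1, 0, 0, 0, 0,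
    0, 1], 2), ([0, 1, 0, 2, 0, 1, 0, 0], 2), ([2, 0, 0, 0, 1, 0, 0, 0], 2)]⟩

theorem tord8k_20_ok : tord8k_20.OK 8 := TT.leaf_ok (T := ttd8k_20) (by decide +kernel)

/-- the torus -/
def ttd8k_21 : TT where
  k := 8
  rf := [false, false, true, true, false, true, true, false]
  tau := [9, 21, 22, 27, 24, 17, 18, 10, 20, 0, 7, 19, 15, 37, 38, 12, 25, 5, 6, 11, 8, 1, 2, 26, 4, 16, 23, 3, 31,
    45, 46, 28, 52, 56, 63, 51, 39, 13, 14, 36, 60, 48, 55, 59, 47, 29, 30, 44, 41, 61, 62, 35, 32, 57, 58, 42, 33,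
    53, 54, 43, 40, 49, 50, 34]
  par := [0, 0, 1, 3, 13, 29, 32, 33]
  stars := [[0, 10], [1, 9, 21], [2, 22], [3, 23, 27], [4, 28, 24], [5, 25, 17], [6, 18], [7, 19, 11], [8, 12, 20],
    [13, 15, 38], [14, 37, 39], [16, 26], [29, 46, 31], [30, 47, 45], [32, 36, 52], [33, 53, 57], [34, 56], [35, 63,
    51], [40, 60, 44], [41, 49, 61], [42, 48], [43, 59, 55], [50, 62], [54, 58]]
  word := [[], [], [], [], [0, 2, 1], [0, 2, 1], [0, 2, 1], [0, 2, 1, 3], [], [], [2, 0, 3, 1], [2], [2], [], [3],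
    [3], [], [0, 3, 1], [0, 3, 1], [3], [], [], [], [], [0, 3, 1], [], [], [], [0, 2, 1], [], [0, 3, 1], [0, 3, 1],
    [], [], [], [3], [3], [], [2], [2], [0, 2], [0], [0], [0], [0, 3, 1], [], [0, 2, 1], [0, 2, 1], [1], [2], [2],
    [2], [], [], [], [1], [], [], [], [1], [3, 1], [3], [3], []]
  rank := [0, 0, 1, 0, 7, 8, 9, 10, 1, 0, 10, 6, 5, 0, 4, 5, 3, 8, 9, 6, 1, 0, 1, 2, 7, 3, 2, 0, 6, 0, 5, 6, 0, 0, 1,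
    2, 3, 0, 4, 3, 2, 1, 0, 3, 4, 0, 5, 4, 1, 0, 1, 2, 0, 1, 2, 0, 0, 1, 2, 3, 2, 0, 1, 1]
  just := [0, 0, 2, 0, 4, 5, 6, 7, 1, 0, 7, 8, 9, 0, 10, 9, 11, 5, 6, 8, 1, 0, 2, 3, 4, 11, 3, 0, 12, 0, 13, 12, 0,
    0, 16, 17, 14, 0, 10, 14, 19, 20, 0, 21, 18, 0, 13, 18, 20, 0, 22, 17, 0, 15, 23, 0, 0, 15, 23, 21, 19, 0, 22, 16]
  gA := 42
  gB := 49
  fin := 0
  sid := [0, 1, 2, 3, 4, 5, 6, 7, 8, 1, 0, 7, 8, 9, 10, 9, 11, 5, 6, 7, 8, 1, 2, 3, 4, 5, 11, 3, 4, 12, 13, 12, 14,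
    15, 16, 17, 14, 10, 9, 10, 18, 19, 20, 21, 18, 13, 12, 13, 20, 19, 22, 17, 14, 15, 23, 21, 16, 15, 23, 21, 18,
    19, 22, 17]
  off := [(0, 0), (0, 0), (0, 0), (0, 0), (0, 0), (0, 0), (0, 0), (0, 0), (0, 0), (0, 0), (0, 0), (0, 0), (0, 1), (0,
    0), (0, 0), (0, -1), (0, 0), (0, -1), (0, -1), (0, -1), (0, 0), (0, 0), (0, 0), (0, 0), (0, -1), (0, -1), (0, 0),
    (0, 0), (0, 0), (0, 0), (0, 0), (0, -1), (0, 0), (0, 0), (0, 0), (0, 0), (0, -1), (0, 0), (0, 0), (0, 1), (0, 0),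
    (0, 0), (0, 0), (0, 0), (0, -1), (0, 0), (0, 0), (0, 1), (-1, 0), (-1, 0), (0, 0), (0, 1), (0, 0), (0, 0), (0,
    0), (-1, 0), (0, 0), (0, 0), (0, 0), (-1, 0), (-1, -1), (-1, -1), (0, -1), (0, 0)]

/-- glued arcs and equations -/
def tord8k_21 : TorT :=
  ⟨[(0, 1, true), (0, 4, false), (1, 5, false), (2, 6, false), (2, 7, true), (3, 3, false), (4, 7, true), (5, 5,
    true), (6, 6, true)],
    [([0, 0, 0, 0, 0, 1, 1, 1], 2), ([0, 0, 0, 2, 0, 0, 0, 1], 2), ([0, 0, 1, 0, 0, 0, 1, 0], 2), ([0, 2, 0, 0, 0, 1,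
    0, 0], 2), ([1, 0, 0, 0, 2, 0, 0, 0], 2), ([1, 0, 1, 0, 0, 0, 0, 0], 2)]⟩

theorem tord8k_21_ok : tord8k_21.OK 8 := TT.leaf_ok (T := ttd8k_21) (by decide +kernel)

end Pool.Agent.Lib_MP_fa6e45
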