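import Pool.Agent.Lib_MP_fa6e45.CT5

/-!
MP_fa6e45_co, stage 9: straight-side patterns with `8` sides, tables of tori (generated by a program).
-/

namespace Pool.Agent.Lib_MP_fa6e45

/-- the torus -/
def ttd8k_22 : TT where
  k := 8
  rf := [false, false, false, false, true, true, true, true]
  tau := [8, 6, 17, 16, 23, 18, 1, 15, 0, 14, 25, 24, 31, 26, 9, 7, 3, 2, 5, 37, 38, 35, 36, 4, 11, 10, 13, 45, 46,
    43, 44, 12, 51, 50, 53, 21, 22, 19, 20, 52, 59, 58, 61, 29, 30, 27, 28, 60, 56, 54, 33, 32, 39, 34, 49, 63, 48,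
    62, 41, 40, 47, 42, 57, 55]
  par := [0, 0, 2, 10, 19, 27, 32, 40]
  stars := [[0, 15, 9], [1, 8, 7], [2, 6, 18], [3, 17], [4, 16], [5, 23, 37, 19], [10, 14, 26], [11, 25], [12, 24],
    [13, 31, 45, 27], [20, 38], [21, 39, 53, 35], [22, 36], [28, 46], [29, 47, 61, 43], [30, 44], [32, 52], [33, 51],
    [34, 54, 50], [40, 60], [41, 59], [42, 62, 58], [48, 57, 63], [49, 55, 56]]
  word := [[], [0, 3], [], [], [], [2, 1], [2, 1], [2, 1], [], [1, 2], [], [], [], [3, 0], [3, 0], [0, 3], [], [],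
    [0, 3], [], [], [2, 1], [2, 1], [], [], [], [1, 2], [], [], [3, 0], [3, 0], [], [], [], [0, 3], [0, 3], [0, 3],
    [], [], [], [], [], [1, 2], [1, 2], [1, 2], [], [], [], [0], [0, 3], [], [], [], [2, 1], [2, 1], [2], [1], [1,
    2], [], [], [], [3, 0], [3, 0], [3]]
  rank := [0, 6, 0, 1, 2, 5, 6, 7, 0, 6, 0, 1, 2, 5, 6, 7, 1, 0, 5, 0, 1, 3, 4, 2, 1, 0, 5, 0, 1, 3, 4, 2, 0, 1, 2,
    3, 4, 0, 1, 1, 0, 1, 2, 3, 4, 0, 1, 1, 0, 1, 1, 0, 1, 2, 1, 0, 0, 1, 1, 0, 1, 2, 1, 0]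
  just := [0, 2, 0, 3, 4, 5, 2, 1, 0, 6, 0, 7, 8, 9, 6, 1, 3, 0, 5, 0, 10, 11, 12, 4, 7, 0, 9, 0, 13, 14, 15, 8, 0,
    17, 18, 11, 12, 0, 10, 16, 0, 20, 21, 14, 15, 0, 13, 19, 0, 23, 17, 0, 16, 18, 23, 0, 0, 22, 20, 0, 19, 21, 22, 0]
  gA := 48
  gB := 55
  fin := 0
  sid := [0, 1, 2, 3, 4, 5, 2, 1, 1, 0, 6, 7, 8, 9, 6, 0, 4, 3, 2, 5, 10, 11, 12, 5, 8, 7, 6, 9, 13, 14, 15, 9, 16,
    17, 18, 11, 12, 5, 10, 11, 19, 20, 21, 14, 15, 9, 13, 14, 22, 23, 18, 17, 16, 11, 18, 23, 23, 22, 21, 20, 19, 14,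
    21, 22]
  off := [(0, 0), (0, 0), (0, 0), (0, 0), (0, 0), (0, 0), (-1, 1), (-1, 1), (0, 0), (0, 0), (0, 0), (0, 0), (0, 0),
    (0, 0), (1, -1), (1, -1), (0, 0), (0, 0), (0, 0), (1, -1), (0, 0), (0, 0), (0, 0), (0, 0), (0, 0), (0, 0), (0,
    0), (-1, 1), (0, 0), (0, 0), (0, 0), (0, 0), (0, 0), (0, 0), (0, 0), (1, -1), (1, -1), (1, -1), (0, 0), (0, 0),
    (0, 0), (0, 0), (0, 0), (-1, 1), (-1, 1), (-1, 1), (0, 0), (0, 0), (0, 0), (0, 0), (0, 0), (0, 0), (0, 0), (0,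
    0), (-1, 1), (-1, 1), (-1, 0), (-1, 0), (0, 0), (0, 0), (0, 0), (0, 0), (1, -1), (0, -1)]

/-- glued arcs and equations -/
def tord8k_22 : TorT :=
  ⟨[(0, 0, true), (0, 3, true), (1, 2, true), (1, 6, true), (2, 5, true), (3, 5, false), (4, 6, false), (4, 7, true),
    (7, 7, true)],
    [([0, 0, 0, 0, 1, 0, 1, 0], 2), ([0, 0, 0, 1, 0, 2, 0, 1], 2), ([0, 0, 2, 0, 0, 0, 1, 0], 2), ([0, 1, 0, 1, 0, 0,
    0, 0], 2), ([1, 0, 0, 0, 1, 0, 0, 0], 2), ([1, 1, 0, 0, 0, 0, 0, 1], 2)]⟩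

theorem tord8k_22_ok : tord8k_22.OK 8 := TT.leaf_ok (T := ttd8k_22) (by decide +kernel)

/-- the torus -/
def ttd8k_23 : TT where
  k := 4
  rf := [false, true, true, false]
  tau := [10, 11, 8, 9, 16, 28, 27, 23, 2, 3, 0, 1, 24, 20, 19, 31, 4, 29, 30, 14, 13, 25, 26, 7, 12, 21, 22, 6, 5,
    17, 18, 15]
  par := [0, 0, 4, 5]
  stars := [[0, 16, 4, 10], [1, 11], [2, 12, 24, 8], [3, 9], [5, 17, 29], [6, 28], [7, 27, 23], [13, 21, 25], [14,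
    20], [15, 31, 19], [18, 30], [22, 26]]
  word := [[], [], [0, 2, 1], [0, 2, 1], [], [], [], [3], [0, 3, 1], [0, 3, 1], [], [], [0, 2], [0], [0], [0], [],
    [], [], [1], [1], [2], [2], [2], [3, 1], [3], [3], [], [], [], [], [1]]
  rank := [0, 1, 4, 5, 0, 0, 1, 2, 4, 5, 0, 1, 2, 1, 0, 3, 0, 1, 2, 0, 1, 0, 1, 2, 2, 0, 1, 1, 0, 1, 2, 3]
  just := [0, 1, 2, 3, 0, 0, 5, 6, 2, 3, 0, 1, 7, 8, 0, 9, 0, 4, 10, 0, 8, 0, 11, 6, 7, 0, 11, 5, 0, 4, 10, 9]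
  gA := 14
  gB := 21
  fin := 0
  sid := [0, 1, 2, 3, 0, 4, 5, 6, 2, 3, 0, 1, 2, 7, 8, 9, 0, 4, 10, 9, 8, 7, 11, 6, 2, 7, 11, 6, 5, 4, 10, 9]
  off := [(0, 0), (0, 0), (0, 0), (0, 0), (0, 1), (0, 0), (0, 0), (0, 0), (0, -1), (0, -1), (0, 0), (0, 0), (0, 0),
    (0, 0), (0, 0), (0, 0), (0, 1), (0, 0), (0, 0), (-1, 0), (-1, 0), (-1, 0), (0, 0), (0, 1), (-1, -1), (-1, -1),
    (0, -1), (0, 0), (0, 0), (0, 0), (0, 0), (-1, 0)]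

/-- glued arcs and equations -/
def tord8k_23 : TorT :=
  ⟨[(0, 2, false), (0, 4, false), (1, 3, false), (1, 5, false), (2, 6, false), (3, 6, true), (4, 5, true), (7, 7,
    false)],
    [([0, 0, 0, 0, 1, 0, 1, 0], 2), ([0, 0, 0, 1, 0, 0, 0, 2], 2), ([0, 0, 1, 0, 0, 0, 1, 0], 2), ([0, 1, 0, 0, 0, 2,
    0, 0], 2), ([0, 1, 0, 1, 0, 0, 0, 0], 2), ([2, 0, 1, 0, 1, 0, 0, 0], 2)]⟩

theorem tord8k_23_ok : tord8k_23.OK 8 := TT.leaf_ok (T := ttd8k_23) (by decide +kernel)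

/-- the torus -/
def ttd8k_24 : TT where
  k := 4
  rf := [false, false, true, true]
  tau := [11, 10, 22, 14, 13, 25, 18, 31, 28, 21, 1, 0, 24, 4, 3, 23, 27, 26, 6, 30, 29, 9, 2, 15, 12, 5, 17, 16, 8,
    20, 19, 7]
  par := [0, 0, 2, 5]
  stars := [[0, 24, 12], [1, 11], [2, 10, 22], [3, 23, 15], [4, 14], [5, 13, 25], [6, 26, 18], [7, 19, 31], [8, 16,
    28], [9, 29, 21], [17, 27], [20, 30]]
  word := [[], [], [], [3], [3], [], [1, 2], [1, 2, 0], [0], [], [], [], [2], [2], [2], [2], [3, 0], [3, 0], [3, 0],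
    [0], [0], [], [], [3], [3], [], [1, 2], [1, 2], [1], [1], [1], [1, 3, 0]]
  rank := [0, 1, 0, 1, 2, 0, 3, 5, 0, 2, 1, 0, 3, 2, 1, 0, 1, 2, 3, 4, 3, 2, 0, 0, 3, 0, 2, 1, 0, 3, 4, 5]
  just := [0, 1, 0, 3, 4, 0, 6, 7, 0, 2, 1, 0, 5, 4, 3, 0, 8, 10, 6, 11, 9, 2, 0, 0, 5, 0, 10, 8, 0, 9, 11, 7]
  gA := 8
  gB := 15
  fin := 0
  sid := [0, 1, 2, 3, 4, 5, 6, 7, 8, 9, 2, 1, 0, 5, 4, 3, 8, 10, 6, 7, 11, 9, 2, 3, 0, 5, 6, 10, 8, 9, 11, 7]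
  off := [(0, 0), (0, 0), (0, 0), (0, 0), (0, 0), (0, 0), (0, 0), (0, 0), (0, 0), (0, 0), (0, 0), (0, 0), (0, 0), (0,
    1), (0, 1), (0, 1), (0, -1), (0, 0), (1, -1), (1, -1), (0, 0), (0, 0), (0, 0), (0, 0), (0, -1), (0, 0), (0, 0),
    (-1, 1), (-1, 0), (-1, 0), (-1, 0), (0, -1)]

/-- glued arcs and equations -/
def tord8k_24 : TorT :=
  ⟨[(0, 3, true), (0, 4, false), (1, 2, true), (1, 5, false), (2, 6, false), (3, 6, true), (4, 5, true), (7, 7,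
    false)],
    [([0, 0, 0, 0, 1, 0, 1, 0], 2), ([0, 0, 0, 1, 0, 0, 0, 2], 2), ([0, 0, 2, 0, 0, 0, 1, 0], 2), ([0, 1, 0, 0, 0, 2,
    0, 0], 2), ([0, 1, 0, 1, 0, 0, 0, 0], 2), ([2, 0, 0, 0, 1, 0, 0, 0], 2)]⟩

theorem tord8k_24_ok : tord8k_24.OK 8 := TT.leaf_ok (T := ttd8k_24) (by decide +kernel)

/-- the torus -/
def ttd8k_25 : TT where
  k := 8
  rf := [false, false, false, false, true, true, true, true]
  tau := [10, 9, 8, 17, 12, 24, 31, 36, 2, 1, 0, 25, 4, 16, 23, 44, 13, 3, 45, 46, 55, 42, 43, 14, 5, 11, 37, 38, 63,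
    34, 35, 6, 61, 51, 29, 30, 7, 26, 27, 62, 53, 59, 21, 22, 15, 18, 19, 54, 58, 57, 56, 33, 60, 40, 47, 20, 50, 49,
    48, 41, 52, 32, 39, 28]
  par := [0, 0, 3, 5, 7, 15, 20, 28]
  stars := [[0, 37, 26, 11], [1, 10], [2, 9], [3, 8, 45, 18], [4, 17, 13], [5, 12, 25], [6, 24], [7, 31, 36], [14,
    16], [15, 23, 44], [19, 46], [20, 47, 55], [21, 48, 59, 42], [22, 43], [27, 38], [28, 39, 63], [29, 56, 51, 34],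
    [30, 35], [32, 62], [33, 52, 61], [40, 54], [41, 60, 53], [49, 58], [50, 57]]
  word := [[], [], [], [], [2, 1], [], [], [], [], [], [], [0, 3], [0, 3], [0, 3], [0, 3], [], [2, 1], [], [], [],
    [], [2, 1], [2, 1], [2, 1], [], [2, 1], [1, 2], [1, 2], [], [], [], [], [3, 0], [3], [], [], [], [3, 0], [3, 0],
    [3, 0], [], [0], [0, 3], [0, 3], [], [], [], [], [2], [2], [2], [2], [0], [], [], [], [3], [3], [3], [1], [1],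
    [1, 2], [1, 2], []]
  rank := [0, 1, 2, 0, 6, 0, 1, 0, 2, 1, 0, 7, 6, 5, 4, 0, 5, 0, 3, 4, 0, 2, 3, 4, 0, 7, 11, 10, 0, 3, 2, 1, 8, 4, 3,
    2, 0, 11, 10, 9, 6, 0, 2, 3, 0, 3, 4, 5, 1, 0, 1, 4, 7, 6, 5, 0, 1, 0, 1, 0, 7, 8, 9, 0]
  just := [0, 1, 2, 0, 4, 0, 6, 0, 2, 1, 0, 5, 4, 8, 9, 0, 8, 0, 3, 10, 0, 12, 13, 9, 0, 5, 14, 15, 0, 17, 7, 6, 19,
    16, 17, 7, 0, 14, 15, 18, 20, 0, 12, 13, 0, 3, 10, 11, 22, 0, 23, 16, 21, 20, 11, 0, 23, 0, 22, 0, 21, 19, 18, 0]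
  gA := 41
  gB := 49
  fin := 0
  sid := [0, 1, 2, 3, 4, 5, 6, 7, 3, 2, 1, 0, 5, 4, 8, 9, 8, 4, 3, 10, 11, 12, 13, 9, 6, 5, 0, 14, 15, 16, 17, 7, 18,
    19, 16, 17, 7, 0, 14, 15, 20, 21, 12, 13, 9, 3, 10, 11, 12, 22, 23, 16, 19, 21, 20, 11, 16, 23, 22, 12, 21, 19,
    18, 15]
  off := [(0, 0), (0, 0), (0, 0), (0, 0), (0, 0), (0, 0), (0, 0), (0, 0), (0, 0), (0, 0), (0, 0), (0, 0), (1, -1),
    (1, -1), (0, 0), (0, 0), (-1, 1), (0, 0), (0, 0), (0, 0), (0, 0), (0, 0), (0, 0), (-1, 1), (0, 0), (0, 0), (-1,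
    1), (0, 0), (0, 0), (0, 0), (0, 0), (0, 0), (0, 0), (0, 0), (0, 0), (0, 0), (0, 0), (0, 0), (1, -1), (1, -1), (0,
    0), (0, 0), (1, -1), (1, -1), (0, 0), (0, 0), (0, 0), (0, 0), (0, 0), (0, 0), (0, 0), (0, 1), (0, 1), (0, 0), (0,
    0), (0, 0), (0, 0), (0, -1), (0, -1), (0, -1), (-1, 0), (-1, 1), (-1, 1), (0, 0)]

/-- glued arcs and equations -/
def tord8k_25 : TorT :=
  ⟨[(0, 2, true), (0, 5, true), (1, 1, true), (1, 3, true), (2, 5, false), (3, 6, false), (4, 4, true), (4, 7,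
    false), (6, 7, true)],
    [([0, 0, 0, 0, 1, 0, 0, 2], 2), ([0, 0, 0, 1, 0, 0, 1, 0], 2), ([0, 1, 0, 0, 1, 1, 0, 0], 2), ([0, 1, 1, 0, 0, 0,
    0, 0], 2), ([1, 0, 0, 0, 0, 0, 1, 0], 2), ([1, 0, 1, 1, 0, 1, 0, 0], 2)]⟩

theorem tord8k_25_ok : tord8k_25.OK 8 := TT.leaf_ok (T := ttd8k_25) (by decide +kernel)

/-- the torus -/
def ttd8k_26 : TT where
  k := 8
  rf := [false, false, false, false, true, true, true, true]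
  tau := [10, 17, 25, 37, 20, 46, 47, 11, 44, 18, 0, 7, 40, 51, 61, 62, 26, 1, 9, 45, 4, 38, 39, 27, 36, 2, 16, 23,
    32, 59, 53, 54, 28, 58, 48, 55, 24, 3, 21, 22, 12, 50, 56, 63, 8, 19, 5, 6, 34, 57, 41, 13, 60, 30, 31, 35, 42,
    49, 33, 29, 52, 14, 15, 43]
  par := [0, 0, 1, 2, 3, 5, 13, 14]
  stars := [[0, 11], [1, 10, 18], [2, 17, 26], [3, 25, 37], [4, 38, 21], [5, 20, 46], [6, 47], [7, 40, 12], [8, 63,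
    44], [9, 45, 19], [13, 41, 51], [14, 52, 61], [15, 62], [16, 27], [22, 39], [23, 32, 28], [24, 55, 36], [29, 33,
    59], [30, 60, 53], [31, 54], [34, 49, 58], [35, 48], [42, 57, 50], [43, 56]]
  word := [[], [], [], [], [1], [], [], [1, 3, 0, 2], [0], [], [], [3, 1, 2, 0], [3, 1, 2, 0], [], [], [], [], [],
    [], [0], [0], [0], [0], [], [], [], [], [], [0], [2], [2], [2], [1], [1, 2], [2], [2], [], [], [1], [1], [1, 3,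
    0, 2], [1, 3, 0, 2], [1], [1], [1], [1], [], [], [3], [3, 1, 2], [3, 1, 2, 0], [], [], [3], [3], [3], [0], [3, 0,
    2], [3, 0], [3], [], [], [], [0]]
  rank := [0, 0, 0, 0, 1, 0, 1, 8, 3, 1, 0, 8, 7, 0, 0, 1, 1, 0, 1, 2, 1, 0, 1, 2, 1, 0, 1, 2, 3, 2, 1, 0, 3, 4, 3,
    2, 1, 0, 0, 1, 7, 6, 5, 4, 3, 2, 0, 1, 3, 5, 6, 0, 1, 1, 0, 2, 5, 5, 4, 2, 1, 0, 1, 4]
  just := [0, 0, 0, 0, 4, 0, 6, 7, 9, 1, 0, 7, 10, 0, 0, 12, 2, 0, 1, 5, 4, 0, 14, 13, 3, 0, 2, 13, 15, 18, 19, 0,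
    15, 17, 21, 16, 3, 0, 0, 14, 10, 22, 23, 8, 9, 5, 0, 6, 21, 20, 22, 0, 11, 19, 0, 16, 23, 20, 17, 18, 11, 0, 12,
    8]
  gA := 21
  gB := 31
  fin := 0
  sid := [0, 1, 2, 3, 4, 5, 6, 7, 8, 9, 1, 0, 7, 10, 11, 12, 13, 2, 1, 9, 5, 4, 14, 15, 16, 3, 2, 13, 15, 17, 18, 19,
    15, 17, 20, 21, 16, 3, 4, 14, 7, 10, 22, 23, 8, 9, 5, 6, 21, 20, 22, 10, 11, 18, 19, 16, 23, 22, 20, 17, 18, 11,
    12, 8]
  off := [(0, 0), (0, 0), (0, 0), (0, 0), (0, 0), (0, 0), (0, 0), (0, 0), (0, 0), (0, 0), (0, 0), (0, 0), (0, 0), (0,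
    0), (0, 0), (0, 0), (0, 0), (0, 0), (0, 0), (0, 0), (1, 0), (1, 0), (0, 0), (0, 0), (0, 0), (0, 0), (0, 0), (0,
    0), (0, 0), (0, 0), (0, 0), (0, 0), (-1, 0), (-1, 0), (0, 0), (0, 0), (0, 0), (0, 0), (0, 0), (-1, 0), (0, 0),
    (0, 0), (0, 0), (0, 0), (-1, 0), (-1, 0), (0, 0), (0, 0), (0, -1), (0, -1), (0, 0), (0, 0), (0, 0), (0, -1), (0,
    -1), (0, -1), (1, 0), (1, 0), (1, -1), (0, -1), (0, -1), (0, 0), (0, 0), (0, 0)]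

/-- glued arcs and equations -/
def tord8k_26 : TorT :=
  ⟨[(0, 2, true), (0, 4, false), (1, 1, true), (1, 2, true), (3, 5, false), (3, 7, true), (4, 4, true), (5, 6,
    false), (6, 7, false)],
    [([0, 0, 0, 0, 0, 0, 1, 1], 2), ([0, 0, 0, 0, 1, 1, 1, 0], 2), ([0, 1, 0, 1, 0, 1, 0, 0], 2), ([0, 1, 2, 0, 0, 0,
    0, 0], 2), ([1, 0, 0, 0, 1, 0, 0, 1], 2), ([1, 0, 0, 1, 0, 0, 0, 0], 2)]⟩

theorem tord8k_26_ok : tord8k_26.OK 8 := TT.leaf_ok (T := ttd8k_26) (by decide +kernel)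

/-- the torus -/
def ttd8k_27 : TT where
  k := 8
  rf := [false, false, false, true, true, false, true, true]
  tau := [8, 16, 28, 29, 12, 38, 42, 41, 0, 40, 36, 37, 4, 30, 18, 17, 1, 15, 14, 31, 50, 51, 61, 27, 49, 63, 62, 23,
    2, 3, 13, 19, 57, 55, 54, 47, 10, 11, 5, 43, 9, 7, 6, 39, 58, 59, 53, 35, 56, 24, 20, 21, 60, 46, 34, 33, 48, 32,
    44, 45, 52, 22, 26, 25]
  par := [0, 0, 1, 2, 5, 6, 20, 22]
  stars := [[0, 41, 9], [1, 8, 17], [2, 16, 28], [3, 29], [4, 30, 13], [5, 12, 38], [6, 39, 43], [7, 42], [10, 40,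
    36], [11, 37], [14, 31, 19], [15, 18], [20, 24, 50], [21, 51], [22, 52, 61], [23, 62, 27], [25, 56, 49], [26,
    63], [32, 58, 44], [33, 48, 57], [34, 55], [35, 47, 54], [45, 59], [46, 60, 53]]
  word := [[], [], [], [], [0], [], [], [], [], [1, 2, 0, 3], [1], [1], [1], [1], [], [], [], [], [], [1], [], [],
    [], [], [0], [], [], [], [], [], [0], [0], [2], [2, 0], [2, 0], [2, 0, 3], [0], [0], [], [], [2, 1, 3, 0], [],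
    [], [], [2], [2], [2], [2, 1, 3], [1], [1], [], [], [], [3], [1, 3], [1, 3], [0], [3], [3], [3], [], [], [], []]
  rank := [0, 0, 0, 1, 4, 0, 0, 1, 0, 8, 6, 5, 4, 3, 2, 1, 0, 1, 2, 1, 0, 1, 0, 1, 0, 3, 2, 1, 0, 1, 3, 1, 2, 5, 6,
    7, 6, 5, 0, 1, 8, 1, 0, 1, 0, 1, 3, 7, 4, 0, 0, 1, 2, 3, 6, 5, 4, 2, 0, 1, 2, 0, 2, 3]
  just := [0, 0, 0, 3, 4, 0, 0, 7, 0, 8, 9, 5, 4, 10, 11, 1, 0, 1, 11, 12, 0, 13, 0, 2, 0, 17, 15, 2, 0, 3, 10, 12,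
    18, 19, 20, 21, 9, 5, 0, 6, 8, 7, 0, 6, 0, 22, 23, 21, 16, 0, 0, 13, 14, 23, 20, 19, 16, 18, 0, 22, 14, 0, 15, 17]
  gA := 24
  gB := 44
  fin := 0
  sid := [0, 1, 2, 3, 4, 5, 6, 7, 1, 0, 8, 9, 5, 4, 10, 11, 2, 1, 11, 10, 12, 13, 14, 15, 12, 16, 17, 15, 2, 3, 4,
    10, 18, 19, 20, 21, 8, 9, 5, 6, 8, 0, 7, 6, 18, 22, 23, 21, 19, 16, 12, 13, 14, 23, 21, 20, 16, 19, 18, 22, 23,
    14, 15, 17]
  off := [(0, 0), (0, 0), (0, 0), (0, 0), (0, 0), (0, 0), (0, 0), (0, 0), (0, 0), (0, 0), (0, 0), (0, 0), (-1, 0),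
    (-1, 0), (0, 0), (0, 0), (0, 0), (0, 0), (0, 0), (0, 0), (0, 0), (0, 0), (0, 0), (0, 0), (1, 0), (0, 0), (0, 0),
    (0, 0), (0, 0), (0, 0), (0, 0), (1, 0), (0, 0), (0, 0), (0, 0), (0, 0), (1, 0), (1, 0), (0, 0), (0, 0), (0, 0),
    (0, 0), (0, 0), (0, 0), (0, 0), (0, 0), (0, 0), (-1, 0), (-1, -1), (-1, 0), (0, 0), (0, 0), (0, 0), (0, -1), (-1,
    -1), (-1, -1), (0, 0), (0, -1), (0, -1), (0, -1), (0, -1), (0, 0), (0, 0), (0, 0)]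

/-- glued arcs and equations -/
def tord8k_27 : TorT :=
  ⟨[(0, 0, true), (0, 1, true), (1, 7, true), (2, 4, false), (2, 6, true), (3, 5, false), (3, 7, false), (4, 4,
    true), (5, 6, false)],
    [([0, 0, 0, 0, 1, 1, 1, 0], 2), ([0, 0, 0, 1, 0, 0, 1, 1], 2), ([0, 0, 0, 1, 0, 1, 0, 0], 2), ([0, 0, 1, 0, 0, 0,
    0, 1], 2), ([1, 0, 1, 0, 1, 0, 0, 0], 2), ([1, 2, 0, 0, 0, 0, 0, 0], 2)]⟩

theorem tord8k_27_ok : tord8k_27.OK 8 := TT.leaf_ok (T := ttd8k_27) (by decide +kernel)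

/-- the torus -/
def ttd8k_28 : TT where
  k := 8
  rf := [false, false, true, true, true, false, false, true]
  tau := [15, 14, 23, 24, 36, 45, 29, 18, 19, 51, 50, 49, 60, 22, 1, 0, 31, 30, 7, 8, 52, 61, 13, 2, 3, 35, 34, 33,
    44, 6, 17, 16, 43, 27, 26, 25, 4, 46, 57, 56, 55, 54, 63, 32, 28, 5, 37, 58, 59, 11, 10, 9, 20, 62, 41, 40, 39,
    38, 47, 48, 12, 21, 53, 42]
  par := [0, 0, 2, 3, 4, 5, 9, 12]
  stars := [[0, 19, 8], [1, 15], [2, 14, 23], [3, 16, 24], [4, 25, 36], [5, 37, 46], [6, 45, 29], [7, 30, 18], [9,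
    20, 52], [10, 51], [11, 50], [12, 49, 60], [13, 61, 22], [17, 31], [21, 62, 53], [26, 35], [27, 34], [28, 44,
    33], [32, 43, 56], [38, 58, 47], [39, 57], [40, 59, 48], [41, 55], [42, 54, 63]]
  word := [[], [], [], [], [], [], [0, 3], [0, 3], [3, 0], [], [], [], [], [], [], [], [], [], [2, 1], [1, 2], [1,
    2], [], [], [], [], [], [], [], [2, 1], [2, 1], [], [], [2, 1], [], [], [], [], [], [2], [2], [2], [2], [0], [0,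
    3], [0, 3], [], [], [2], [], [], [], [], [3, 0], [3, 0], [3], [3], [3], [3], [3], [], [], [], [1, 2], [1]]
  rank := [0, 1, 0, 0, 0, 0, 6, 7, 8, 0, 1, 2, 0, 2, 1, 0, 1, 2, 7, 8, 7, 3, 2, 0, 0, 1, 2, 3, 5, 6, 2, 1, 4, 3, 2,
    1, 0, 1, 2, 3, 4, 5, 0, 4, 5, 0, 1, 0, 3, 2, 1, 0, 7, 6, 5, 4, 3, 2, 0, 3, 0, 3, 6, 0]
  just := [0, 1, 0, 0, 0, 0, 6, 7, 8, 0, 9, 10, 0, 2, 1, 0, 3, 13, 7, 8, 14, 12, 2, 0, 0, 4, 15, 16, 17, 6, 13, 3,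
    18, 16, 15, 4, 0, 5, 19, 20, 21, 22, 0, 18, 17, 0, 5, 0, 11, 10, 9, 0, 14, 23, 22, 21, 20, 19, 0, 11, 0, 12, 23,
    0]
  gA := 42
  gB := 47
  fin := 0
  sid := [0, 1, 2, 3, 4, 5, 6, 7, 0, 8, 9, 10, 11, 12, 2, 1, 3, 13, 7, 0, 8, 14, 12, 2, 3, 4, 15, 16, 17, 6, 7, 13,
    18, 17, 16, 15, 4, 5, 19, 20, 21, 22, 23, 18, 17, 6, 5, 19, 21, 11, 10, 9, 8, 14, 23, 22, 18, 20, 19, 21, 11, 12,
    14, 23]
  off := [(0, 0), (0, 0), (0, 0), (0, 0), (0, 0), (0, 0), (0, 0), (0, 0), (0, 0), (0, 0), (0, 0), (0, 0), (0, 0), (0,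
    0), (0, 0), (0, 0), (0, 0), (0, 0), (-1, 1), (-1, 1), (-1, 1), (0, 0), (0, 0), (0, 0), (0, 0), (0, 0), (0, 0),
    (0, 0), (0, 0), (-1, 1), (-1, 1), (0, 0), (0, 0), (0, 0), (0, 0), (0, 0), (0, 0), (0, 0), (0, 0), (0, 0), (0, 0),
    (0, 0), (0, 0), (1, -1), (1, -1), (0, 0), (0, 0), (0, 0), (0, -1), (0, 0), (0, 0), (0, 0), (0, 0), (1, -1), (0,
    -1), (0, -1), (0, -1), (0, -1), (0, -1), (0, -1), (0, 0), (0, 0), (0, 0), (-1, 0)]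

/-- glued arcs and equations -/
def tord8k_28 : TorT :=
  ⟨[(0, 3, false), (0, 7, true), (1, 3, true), (1, 6, true), (2, 2, true), (2, 7, false), (4, 4, false), (5, 5,
    true), (5, 6, false)],
    [([0, 0, 0, 0, 0, 2, 1, 0], 2), ([0, 0, 1, 0, 0, 0, 1, 1], 2), ([0, 0, 1, 1, 0, 0, 0, 0], 2), ([0, 1, 0, 0, 0, 0,
    0, 1], 2), ([0, 1, 0, 0, 2, 0, 0, 0], 2), ([2, 0, 0, 1, 0, 0, 0, 0], 2)]⟩

theorem tord8k_28_ok : tord8k_28.OK 8 := TT.leaf_ok (T := ttd8k_28) (by decide +kernel)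

/-- the torus -/
def ttd8k_29 : TT where
  k := 8
  rf := [false, true, true, false, true, false, false, true]
  tau := [12, 21, 31, 30, 29, 17, 8, 34, 6, 33, 47, 35, 0, 20, 19, 18, 28, 5, 15, 14, 13, 1, 24, 50, 22, 49, 63, 51,
    16, 4, 3, 2, 46, 9, 7, 11, 40, 60, 59, 58, 36, 61, 55, 54, 53, 57, 32, 10, 62, 25, 23, 27, 56, 44, 43, 42, 52,
    45, 39, 38, 37, 41, 48, 26]
  par := [0, 0, 1, 2, 7, 10, 23, 26]
  stars := [[0, 35, 12], [1, 13, 21], [2, 22, 24], [3, 31], [4, 30], [5, 29, 17], [6, 18, 8], [7, 9, 34], [10, 47,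
    33], [11, 36, 40], [14, 20], [15, 19], [16, 28, 51], [23, 50, 25], [26, 49, 63], [27, 56, 52], [32, 46, 58], [37,
    61, 41], [38, 60], [39, 59], [42, 62, 48], [43, 55], [44, 54], [45, 53, 57]]
  word := [[], [], [], [], [], [1], [1], [], [0], [0], [], [2, 1, 3, 0], [], [], [], [], [0], [0], [], [], [], [],
    [], [], [], [], [], [1], [1], [], [], [], [1], [1], [], [1, 2, 0, 3], [1, 2, 0, 3], [1, 2, 0], [1, 2, 0], [1, 2,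
    0], [2, 1, 3, 0], [2], [2], [2], [2], [2, 0], [0], [], [], [], [], [0], [0], [3], [3], [3], [1], [1, 3], [1, 3,
    0], [1, 3, 0], [1, 3, 0], [3], [], []]
  rank := [0, 0, 0, 1, 2, 3, 4, 0, 4, 5, 0, 11, 0, 1, 2, 3, 0, 3, 3, 2, 1, 0, 1, 0, 1, 2, 0, 1, 0, 2, 1, 0, 6, 5, 0,
    11, 10, 9, 8, 7, 10, 4, 2, 1, 0, 3, 6, 0, 3, 2, 0, 1, 2, 0, 1, 2, 2, 3, 7, 8, 9, 4, 3, 0]
  just := [0, 0, 0, 3, 4, 5, 6, 0, 6, 7, 0, 9, 0, 1, 10, 11, 0, 5, 11, 10, 1, 0, 2, 0, 2, 13, 0, 12, 0, 4, 3, 0, 8,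
    7, 0, 9, 17, 18, 19, 16, 17, 20, 21, 22, 0, 23, 8, 0, 14, 13, 0, 12, 15, 0, 22, 21, 15, 23, 16, 19, 18, 20, 14, 0]
  gA := 16
  gB := 44
  fin := 0
  sid := [0, 1, 2, 3, 4, 5, 6, 7, 6, 7, 8, 9, 0, 1, 10, 11, 12, 5, 6, 11, 10, 1, 2, 13, 2, 13, 14, 15, 12, 5, 4, 3,
    16, 8, 7, 0, 9, 17, 18, 19, 9, 17, 20, 21, 22, 23, 16, 8, 20, 14, 13, 12, 15, 23, 22, 21, 15, 23, 16, 19, 18, 17,
    20, 14]
  off := [(0, 0), (0, 0), (0, 0), (0, 0), (0, 0), (0, 0), (0, 0), (0, 0), (1, 0), (1, 0), (0, 0), (0, 0), (0, 0), (0,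
    0), (0, 0), (0, 0), (0, 0), (1, 0), (1, 0), (0, 0), (0, 0), (0, 0), (0, 0), (0, 0), (0, 0), (0, 0), (0, 0), (0,
    0), (-1, 0), (0, 0), (0, 0), (0, 0), (0, 0), (-1, 0), (0, 0), (0, 0), (0, 0), (0, 0), (0, 0), (0, 0), (0, 0), (0,
    0), (0, 0), (0, 0), (0, 0), (0, 0), (1, 0), (0, 0), (0, -1), (0, 0), (0, 0), (0, 0), (1, 0), (0, -1), (0, -1),
    (0, -1), (0, 0), (-1, -1), (0, -1), (0, -1), (0, -1), (0, -1), (0, -1), (0, 0)]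

/-- glued arcs and equations -/
def tord8k_29 : TorT :=
  ⟨[(0, 4, false), (0, 6, false), (1, 1, true), (1, 5, false), (2, 7, false), (2, 7, true), (3, 3, true), (3, 6,
    true), (4, 5, true)],
    [([0, 0, 0, 0, 1, 0, 1, 0], 2), ([0, 0, 0, 1, 0, 0, 0, 1], 2), ([0, 1, 0, 0, 0, 2, 0, 0], 2), ([0, 1, 1, 0, 0, 0,
    0, 1], 2), ([1, 0, 0, 1, 1, 0, 0, 0], 2), ([1, 0, 1, 0, 0, 0, 1, 0], 2)]⟩

theorem tord8k_29_ok : tord8k_29.OK 8 := TT.leaf_ok (T := ttd8k_29) (by decide +kernel)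

/-- the torus -/
def ttd8k_30 : TT where
  k := 4
  rf := [false, false, true, true]
  tau := [10, 23, 27, 28, 15, 14, 25, 17, 29, 22, 0, 18, 19, 24, 5, 4, 26, 7, 11, 12, 31, 30, 9, 1, 13, 6, 16, 2, 3,
    8, 21, 20]
  par := [0, 0, 1, 2]
  stars := [[0, 18, 11], [1, 10, 23], [2, 16, 27], [3, 28], [4, 29, 8], [5, 15], [6, 14, 25], [7, 26, 17], [9, 30,
    22], [12, 19], [13, 20, 24], [21, 31]]
  word := [[], [], [], [], [1], [1], [1, 2], [1, 2], [0], [], [], [2, 1], [2, 1], [2], [0], [0], [], [3, 0], [0, 3],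
    [0, 3], [0], [0], [], [], [3], [3, 0], [], [], [], [1], [1], [1]]
  rank := [0, 0, 0, 1, 2, 3, 4, 5, 0, 1, 0, 5, 4, 0, 3, 2, 1, 5, 5, 4, 3, 2, 1, 0, 0, 4, 1, 0, 1, 0, 2, 3]
  just := [0, 0, 0, 3, 4, 5, 6, 7, 0, 1, 0, 9, 10, 0, 5, 4, 2, 7, 9, 10, 11, 8, 1, 0, 0, 6, 2, 0, 3, 0, 8, 11]
  gA := 8
  gB := 13
  fin := 0
  sid := [0, 1, 2, 3, 4, 5, 6, 7, 4, 8, 1, 0, 9, 10, 6, 5, 2, 7, 0, 9, 10, 11, 8, 1, 10, 6, 7, 2, 3, 4, 8, 11]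
  off := [(0, 0), (0, 0), (0, 0), (0, 0), (0, 0), (0, 0), (0, 0), (0, 0), (1, 0), (0, 0), (0, 0), (0, 0), (0, 0), (0,
    0), (1, 0), (1, 0), (0, 0), (1, -1), (1, -1), (1, -1), (1, -1), (0, 0), (0, 0), (0, 0), (0, -1), (1, -1), (1,
    -1), (0, 0), (0, 0), (0, 0), (-1, 0), (-1, 0)]

/-- glued arcs and equations -/
def tord8k_30 : TorT :=
  ⟨[(0, 2, true), (0, 5, false), (1, 6, false), (1, 7, false), (2, 3, false), (3, 4, false), (4, 7, true), (5, 6,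
    true)],
    [([0, 0, 0, 0, 0, 1, 0, 1], 2), ([0, 0, 0, 1, 1, 0, 0, 0], 2), ([0, 1, 0, 0, 0, 0, 2, 0], 2), ([0, 1, 1, 0, 0, 0,
    0, 1], 2), ([1, 0, 0, 0, 1, 1, 0, 0], 2), ([1, 0, 1, 1, 0, 0, 0, 0], 2)]⟩

theorem tord8k_30_ok : tord8k_30.OK 8 := TT.leaf_ok (T := ttd8k_30) (by decide +kernel)

/-- the torus -/
def ttd8k_31 : TT where
  k := 8
  rf := [false, true, false, true, false, false, true, true]
  tau := [8, 19, 18, 17, 25, 26, 37, 23, 0, 20, 21, 46, 47, 54, 43, 44, 24, 3, 2, 1, 9, 10, 45, 7, 16, 4, 5, 38, 39,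
    62, 35, 36, 48, 60, 61, 30, 31, 6, 27, 28, 56, 52, 53, 14, 15, 22, 11, 12, 32, 59, 58, 57, 41, 42, 13, 63, 40,
    51, 50, 49, 33, 34, 29, 55]
  par := [0, 0, 1, 4, 6, 11, 13, 29]
  stars := [[0, 23, 45, 8], [1, 9, 20], [2, 19], [3, 18], [4, 17, 25], [5, 26], [6, 27, 38], [7, 37, 24, 16], [10,
    21], [11, 46, 22], [12, 47], [13, 55, 56, 40], [14, 43, 54], [15, 44], [28, 39], [29, 63, 48, 32], [30, 35, 62],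
    [31, 36], [33, 49, 60], [34, 61], [41, 57, 52], [42, 53], [50, 59], [51, 58]]
  word := [[], [], [], [], [], [], [], [3, 0], [], [], [], [], [], [], [0, 3], [0, 3], [], [], [], [], [], [], [],
    [1, 2], [], [], [], [], [], [], [1, 2], [1, 2], [3], [3, 0], [3, 0], [3, 0], [3, 0], [], [], [], [2], [2, 1], [2,
    1], [2, 1], [2, 1], [], [], [], [2], [0], [0], [0], [0, 3], [0, 3], [], [2], [3], [1], [1], [1], [1, 2], [1, 2],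
    [], [3]]
  rank := [0, 0, 1, 2, 0, 1, 0, 9, 0, 1, 2, 0, 1, 0, 5, 6, 3, 2, 1, 0, 1, 2, 3, 9, 3, 0, 1, 2, 3, 0, 7, 8, 4, 5, 6,
    7, 8, 0, 2, 3, 2, 3, 4, 5, 6, 3, 0, 1, 4, 1, 0, 1, 3, 4, 0, 0, 2, 1, 0, 1, 5, 6, 0, 0]
  just := [0, 0, 2, 3, 0, 5, 0, 7, 0, 1, 8, 0, 10, 0, 12, 13, 4, 3, 2, 0, 1, 8, 9, 7, 4, 0, 5, 6, 14, 0, 16, 17, 15,
    18, 19, 16, 17, 0, 6, 14, 11, 20, 21, 12, 13, 9, 0, 10, 15, 22, 0, 23, 20, 21, 0, 0, 11, 23, 0, 22, 18, 19, 0, 0]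
  gA := 50
  gB := 55
  fin := 0
  sid := [0, 1, 2, 3, 4, 5, 6, 7, 0, 1, 8, 9, 10, 11, 12, 13, 7, 4, 3, 2, 1, 8, 9, 0, 7, 4, 5, 6, 14, 15, 16, 17, 15,
    18, 19, 16, 17, 7, 6, 14, 11, 20, 21, 12, 13, 0, 9, 10, 15, 18, 22, 23, 20, 21, 12, 11, 11, 20, 23, 22, 18, 19,
    16, 15]
  off := [(0, 0), (0, 0), (0, 0), (0, 0), (0, 0), (0, 0), (0, 0), (0, 0), (0, 0), (0, 0), (0, 0), (0, 0), (0, 0), (0,
    0), (0, 0), (0, 0), (-1, 1), (0, 0), (0, 0), (0, 0), (0, 0), (0, 0), (0, 0), (-1, 1), (-1, 1), (0, 0), (0, 0),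
    (0, 0), (0, 0), (0, 0), (0, 0), (0, 0), (0, 0), (0, 0), (0, 0), (1, -1), (1, -1), (0, 0), (0, 0), (0, 0), (0, 0),
    (0, 0), (0, 0), (-1, 1), (-1, 1), (-1, 1), (0, 0), (0, 0), (0, 1), (0, 1), (0, 0), (0, 0), (1, -1), (1, -1), (0,
    0), (0, 0), (0, -1), (0, -1), (-1, 0), (-1, 0), (-1, 1), (-1, 1), (0, 0), (0, 0)]

/-- glued arcs and equations -/
def tord8k_31 : TorT :=
  ⟨[(0, 0, false), (1, 3, true), (1, 4, false), (2, 2, true), (2, 5, false), (3, 6, false), (4, 7, false), (5, 6,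
    true), (7, 7, true)],
    [([0, 0, 0, 0, 1, 0, 0, 1], 2), ([0, 0, 0, 1, 0, 0, 2, 0], 2), ([0, 0, 1, 0, 0, 1, 0, 0], 2), ([0, 0, 1, 1, 0, 0,
    0, 0], 2), ([0, 2, 0, 0, 1, 0, 0, 0], 2), ([2, 0, 0, 0, 0, 1, 0, 1], 2)]⟩

theorem tord8k_31_ok : tord8k_31.OK 8 := TT.leaf_ok (T := ttd8k_31) (by decide +kernel)

/-- the torus -/
def ttd8k_32 : TT where
  k := 8
  rf := [false, false, true, false, true, true, true, false]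
  tau := [14, 17, 28, 27, 26, 34, 30, 19, 21, 41, 53, 47, 23, 16, 0, 20, 13, 1, 29, 7, 15, 8, 40, 12, 62, 33, 4, 3,
    2, 18, 6, 35, 61, 25, 5, 31, 63, 56, 48, 60, 22, 9, 52, 51, 50, 58, 54, 11, 38, 57, 44, 43, 42, 10, 46, 59, 37,
    49, 45, 55, 39, 32, 24, 36]
  par := [0, 0, 1, 2, 5, 9, 10, 24]
  stars := [[0, 20, 15], [1, 14, 17], [2, 18, 29], [3, 28], [4, 27], [5, 26, 34], [6, 35, 31], [7, 30, 19], [8, 21],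
    [9, 22, 41], [10, 42, 53], [11, 54, 47], [12, 40, 23], [13, 16], [24, 36, 63], [25, 62, 33], [32, 61], [37, 56],
    [38, 49, 57], [39, 60, 48], [43, 52], [44, 51], [45, 58, 50], [46, 55, 59]]
  word := [[], [], [], [], [], [], [3, 0], [3, 0], [0, 3], [], [], [2, 1], [], [], [], [0, 3], [], [], [], [1, 2],
    [2, 1], [2, 1], [2, 1], [], [], [], [], [], [], [], [1, 2], [1, 2], [], [], [], [3, 0], [3, 0], [3, 0], [3], [],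
    [0, 3], [], [], [], [], [0], [0, 3], [0, 3], [2], [0], [], [], [], [], [2, 1], [2], [1, 2], [1], [1], [3], [],
    [], [], [1, 2]]
  rank := [0, 0, 0, 1, 2, 0, 10, 11, 4, 0, 0, 2, 2, 1, 0, 5, 1, 0, 1, 11, 5, 4, 3, 2, 0, 3, 2, 1, 0, 1, 10, 9, 4, 3,
    0, 9, 8, 7, 6, 5, 3, 0, 1, 2, 3, 0, 1, 2, 6, 4, 3, 2, 1, 0, 1, 0, 7, 4, 0, 0, 5, 4, 0, 8]
  just := [0, 0, 0, 3, 4, 0, 6, 7, 9, 0, 0, 11, 13, 1, 0, 8, 1, 0, 2, 7, 8, 9, 12, 13, 0, 5, 4, 3, 0, 2, 6, 14, 15,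
    5, 0, 14, 17, 18, 19, 16, 12, 0, 10, 20, 21, 0, 23, 11, 19, 22, 21, 20, 10, 0, 23, 0, 18, 22, 0, 0, 16, 15, 0, 17]
  gA := 45
  gB := 55
  fin := 0
  sid := [0, 1, 2, 3, 4, 5, 6, 7, 8, 9, 10, 11, 12, 13, 1, 0, 13, 1, 2, 7, 0, 8, 9, 12, 14, 15, 5, 4, 3, 2, 7, 6, 16,
    15, 5, 6, 14, 17, 18, 19, 12, 9, 10, 20, 21, 22, 23, 11, 19, 18, 22, 21, 20, 10, 11, 23, 17, 18, 22, 23, 19, 16,
    15, 14]
  off := [(0, 0), (0, 0), (0, 0), (0, 0), (0, 0), (0, 0), (0, 0), (0, 0), (0, 0), (0, 0), (0, 0), (0, 0), (0, 0), (0,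
    0), (0, 0), (0, 0), (0, 0), (0, 0), (0, 0), (-1, 1), (-1, 1), (-1, 1), (-1, 1), (0, 0), (0, 0), (0, 0), (0, 0),
    (0, 0), (0, 0), (0, 0), (-1, 1), (-1, 1), (0, 0), (0, 0), (0, 0), (0, 0), (1, -1), (0, 0), (0, 0), (0, 0), (1,
    -1), (0, 0), (0, 0), (0, 0), (0, 0), (0, 0), (0, 0), (1, -1), (0, 1), (0, 1), (0, 0), (0, 0), (0, 0), (0, 0), (0,
    0), (-1, 1), (-1, 1), (-1, 1), (-1, 0), (-1, 0), (0, 0), (0, 0), (0, 0), (0, 0)]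

/-- glued arcs and equations -/
def tord8k_32 : TorT :=
  ⟨[(0, 5, false), (0, 6, true), (1, 1, false), (2, 4, true), (2, 5, false), (3, 3, true), (3, 7, false), (4, 7,
    false), (6, 6, true)],
    [([0, 0, 0, 1, 0, 0, 1, 1], 2), ([0, 0, 0, 1, 1, 0, 0, 0], 2), ([0, 0, 2, 0, 0, 1, 0, 0], 2), ([0, 2, 0, 0, 0, 0,
    1, 0], 2), ([1, 0, 0, 0, 0, 1, 0, 0], 2), ([1, 0, 0, 0, 1, 0, 0, 1], 2)]⟩

theorem tord8k_32_ok : tord8k_32.OK 8 := TT.leaf_ok (T := ttd8k_32) (by decide +kernel)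

end Pool.Agent.Lib_MP_fa6e45
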