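import Pool.Agent.Lib_MP_fa6e45.CT5

/-!
MP_fa6e45_co, stage 9: straight-side patterns with `8` sides, tables of tori (generated by a program).
-/

namespace Pool.Agent.Lib_MP_fa6e45

/-- the torus -/
def ttd8k_33 : TT where
  k := 8
  rf := [false, true, false, false, false, true, true, true]
  tau := [8, 21, 28, 27, 26, 36, 30, 19, 0, 22, 23, 47, 53, 41, 17, 18, 40, 14, 15, 7, 29, 1, 9, 10, 56, 37, 4, 3, 2,
    20, 6, 35, 48, 62, 63, 31, 5, 25, 57, 58, 16, 13, 52, 51, 50, 60, 54, 11, 32, 61, 44, 43, 42, 12, 46, 59, 24, 38,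
    39, 55, 45, 49, 33, 34]
  par := [0, 0, 1, 2, 5, 11, 12, 24]
  stars := [[0, 19, 8], [1, 9, 22], [2, 21, 29], [3, 28], [4, 27], [5, 26, 37], [6, 36, 31], [7, 30, 20], [10, 23],
    [11, 40, 16], [12, 54, 47], [13, 42, 53], [14, 17, 41], [15, 18], [24, 35, 56], [25, 57, 38], [32, 59, 48], [33,
    49, 62], [34, 63], [39, 58], [43, 52], [44, 51], [45, 61, 50], [46, 55, 60]]
  word := [[], [], [], [], [], [], [3, 1, 2], [3, 1, 2], [], [], [], [], [], [1], [1], [1], [], [0], [0], [3, 0, 2],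
    [], [], [], [], [], [], [], [], [], [], [3, 0, 2], [3, 0, 2], [3], [3, 1, 2], [3, 1, 2], [3, 1, 2], [], [], [],
    [], [], [0], [0], [0], [0], [2], [], [], [2], [1, 2], [1], [1], [1], [], [], [2], [], [], [], [3], [3], [3, 0],
    [3, 0, 2], [3, 0, 2]]
  rank := [0, 0, 0, 1, 2, 0, 10, 11, 0, 1, 2, 0, 0, 3, 4, 5, 3, 4, 5, 11, 1, 0, 1, 2, 0, 3, 2, 1, 0, 1, 10, 9, 6, 7,
    8, 9, 0, 3, 4, 5, 3, 3, 2, 1, 0, 0, 1, 0, 6, 1, 0, 1, 2, 0, 1, 2, 0, 4, 5, 2, 0, 1, 7, 8]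
  just := [0, 0, 0, 3, 4, 0, 6, 7, 0, 1, 8, 0, 0, 11, 12, 13, 9, 12, 13, 7, 2, 0, 1, 8, 0, 5, 4, 3, 0, 2, 6, 14, 16,
    17, 18, 14, 0, 5, 15, 19, 9, 11, 20, 21, 0, 0, 10, 0, 16, 22, 0, 21, 20, 0, 10, 23, 0, 15, 19, 23, 0, 22, 17, 18]
  gA := 44
  gB := 45
  fin := 0
  sid := [0, 1, 2, 3, 4, 5, 6, 7, 0, 1, 8, 9, 10, 11, 12, 13, 9, 12, 13, 0, 7, 2, 1, 8, 14, 15, 5, 4, 3, 2, 7, 6, 16,
    17, 18, 14, 6, 5, 15, 19, 9, 12, 11, 20, 21, 22, 23, 10, 16, 17, 22, 21, 20, 11, 10, 23, 14, 15, 19, 16, 23, 22,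
    17, 18]
  off := [(0, 0), (0, 0), (0, 0), (0, 0), (0, 0), (0, 0), (0, 0), (0, 0), (0, 0), (0, 0), (0, 0), (0, 0), (0, 0), (0,
    0), (0, 0), (0, 0), (0, 0), (1, 0), (1, 0), (1, 0), (1, 0), (0, 0), (0, 0), (0, 0), (0, 0), (0, 0), (0, 0), (0,
    0), (0, 0), (0, 0), (1, 0), (1, 0), (0, 0), (0, 0), (0, 0), (-1, 0), (0, 0), (0, 0), (0, 0), (0, 0), (0, 0), (1,
    0), (1, 0), (0, 0), (0, 0), (0, 0), (0, 0), (0, 0), (0, 1), (0, 1), (-1, 0), (-1, 0), (-1, 0), (0, 0), (0, 0),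
    (0, 0), (0, 0), (0, 0), (0, 0), (0, 0), (0, -1), (0, -1), (1, 0), (1, 0)]

/-- glued arcs and equations -/
def tord8k_33 : TorT :=
  ⟨[(0, 0, false), (1, 5, true), (1, 6, false), (2, 4, true), (2, 7, false), (3, 3, true), (3, 7, true), (4, 5,
    true), (6, 6, true)],
    [([0, 0, 0, 0, 1, 0, 1, 1], 2), ([0, 0, 0, 1, 1, 0, 0, 0], 2), ([0, 0, 1, 0, 0, 0, 0, 1], 2), ([0, 0, 1, 0, 0, 2,
    0, 0], 2), ([0, 2, 0, 0, 0, 0, 1, 0], 2), ([2, 0, 0, 1, 0, 0, 0, 0], 2)]⟩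

theorem tord8k_33_ok : tord8k_33.OK 8 := TT.leaf_ok (T := ttd8k_33) (by decide +kernel)

/-- the torus -/
def ttd8k_34 : TT where
  k := 8
  rf := [false, true, false, true, false, false, true, true]
  tau := [13, 10, 18, 27, 22, 21, 20, 12, 38, 39, 1, 19, 7, 0, 32, 33, 29, 26, 2, 11, 6, 5, 4, 28, 46, 47, 17, 3, 23,
    16, 40, 41, 14, 15, 49, 59, 55, 48, 8, 9, 30, 31, 57, 51, 63, 56, 24, 25, 37, 34, 58, 43, 62, 61, 60, 36, 45, 42,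
    50, 35, 54, 53, 52, 44]
  par := [0, 0, 2, 3, 8, 24, 34, 35]
  stars := [[0, 13], [1, 14, 32, 10], [2, 11, 19], [3, 18, 27], [4, 28, 23], [5, 22], [6, 21], [7, 20, 12], [8, 38,
    49, 34], [9, 39], [15, 33], [16, 29], [17, 30, 40, 26], [24, 46, 57, 42], [25, 47], [31, 41], [35, 50, 59], [36,
    60, 55], [37, 48], [43, 58, 51], [44, 52, 63], [45, 56], [53, 62], [54, 61]]
  word := [[], [3], [], [], [0, 2, 1], [0, 2, 1], [0, 2, 1], [0, 2, 1, 3], [], [], [2], [2], [2, 0, 3, 1], [], [3],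
    [3], [0, 3, 1], [], [], [3], [0, 3, 1], [0, 3, 1], [0, 3, 1], [0, 3, 1], [], [], [], [], [0, 2, 1], [0, 2, 1],
    [0, 2, 1], [0, 2, 1], [2], [2], [], [], [3], [3], [], [], [0, 3, 1], [0, 3, 1], [0, 3], [0, 3], [0], [0], [], [],
    [2], [], [], [2, 1], [2], [2], [2], [2], [1], [2, 1], [], [], [3], [3], [3], [1]]
  rank := [0, 7, 0, 0, 7, 8, 9, 10, 0, 1, 7, 8, 10, 0, 6, 5, 5, 1, 0, 8, 9, 8, 7, 6, 0, 1, 1, 0, 6, 5, 4, 3, 6, 5, 0,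
    0, 3, 4, 0, 1, 4, 3, 2, 1, 0, 1, 0, 1, 4, 0, 1, 1, 0, 1, 2, 3, 1, 2, 1, 0, 2, 1, 0, 0]
  just := [0, 1, 0, 0, 4, 5, 6, 7, 0, 9, 1, 2, 7, 0, 10, 8, 12, 3, 0, 2, 6, 5, 4, 11, 0, 14, 3, 0, 11, 12, 15, 13,
    10, 8, 0, 0, 17, 18, 0, 9, 15, 13, 19, 20, 0, 21, 0, 14, 18, 0, 16, 20, 0, 22, 23, 17, 21, 19, 16, 0, 23, 22, 0,
    0]
  gA := 44
  gB := 52
  fin := 0
  sid := [0, 1, 2, 3, 4, 5, 6, 7, 8, 9, 1, 2, 7, 0, 1, 10, 11, 12, 3, 2, 7, 6, 5, 4, 13, 14, 12, 3, 4, 11, 12, 15, 1,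
    10, 8, 16, 17, 18, 8, 9, 12, 15, 13, 19, 20, 21, 13, 14, 18, 8, 16, 19, 20, 22, 23, 17, 21, 13, 19, 16, 17, 23,
    22, 20]
  off := [(0, 0), (0, 0), (0, 0), (0, 0), (0, 0), (0, 0), (0, 0), (0, 0), (0, 0), (0, 0), (0, 1), (0, 1), (0, 0), (0,
    0), (0, 0), (0, 0), (0, 0), (0, 0), (0, 0), (0, 0), (0, -1), (0, -1), (0, -1), (0, -1), (0, 0), (0, 0), (0, 0),
    (0, 0), (0, 0), (0, 1), (0, 1), (0, 0), (0, 1), (0, 1), (0, 1), (0, 0), (0, 0), (0, 0), (0, 0), (0, 0), (0, 0),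
    (0, -1), (0, -1), (0, 0), (0, 0), (0, 0), (0, 0), (0, 0), (0, 1), (0, 1), (0, 0), (-1, 1), (-1, 1), (0, 0), (0,
    0), (0, 1), (-1, 0), (-1, 0), (-1, 1), (0, 0), (0, 0), (0, -1), (0, -1), (-1, 0)]

/-- glued arcs and equations -/
def tord8k_34 : TorT :=
  ⟨[(0, 5, false), (0, 6, false), (1, 2, false), (1, 7, false), (2, 2, true), (3, 3, false), (4, 6, true), (4, 7,
    false), (5, 5, true)],
    [([0, 0, 0, 0, 0, 1, 1, 0], 2), ([0, 0, 0, 0, 2, 0, 0, 1], 2), ([0, 0, 1, 2, 0, 0, 0, 0], 2), ([0, 1, 0, 0, 0, 0,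
    0, 1], 2), ([1, 0, 0, 0, 0, 1, 0, 0], 2), ([1, 1, 1, 0, 0, 0, 1, 0], 2)]⟩

theorem tord8k_34_ok : tord8k_34.OK 8 := TT.leaf_ok (T := ttd8k_34) (by decide +kernel)

/-- the torus -/
def ttd8k_35 : TT where
  k := 8
  rf := [false, false, true, false, true, true, true, false]
  tau := [14, 17, 28, 27, 26, 34, 35, 31, 21, 41, 53, 54, 23, 16, 0, 20, 13, 1, 29, 30, 15, 8, 40, 12, 62, 33, 4, 3,
    2, 18, 19, 7, 61, 25, 5, 6, 63, 56, 48, 60, 22, 9, 52, 51, 50, 58, 59, 55, 38, 57, 44, 43, 42, 10, 11, 47, 37,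
    49, 45, 46, 39, 32, 24, 36]
  par := [0, 0, 1, 2, 5, 9, 10, 24]
  stars := [[0, 31, 20, 15], [1, 14, 17], [2, 18, 29], [3, 28], [4, 27], [5, 26, 34], [6, 35], [7, 36, 63, 24], [8,
    21], [9, 22, 41], [10, 42, 53], [11, 54], [12, 55, 40, 23], [13, 16], [19, 30], [25, 62, 33], [32, 61], [37, 56],
    [38, 49, 57], [39, 60, 47, 48], [43, 52], [44, 51], [45, 58, 50], [46, 59]]
  word := [[], [], [], [], [], [], [], [1, 2, 0], [2], [], [], [], [], [], [], [2], [], [], [], [], [3], [3], [3],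
    [], [], [], [], [], [], [], [], [1, 3, 0], [], [], [], [], [1, 2, 0], [1, 2, 0], [1, 2], [], [2], [], [], [], [],
    [0], [0], [2], [3, 0], [0], [], [], [], [], [], [3], [1, 3, 0], [1], [1], [1], [], [], [], [1, 3, 0]]
  rank := [0, 0, 0, 1, 2, 0, 1, 9, 4, 0, 0, 1, 2, 1, 0, 5, 1, 0, 1, 2, 5, 4, 3, 2, 0, 3, 2, 1, 0, 1, 2, 9, 4, 3, 0,
    1, 8, 7, 6, 5, 3, 0, 1, 2, 3, 0, 1, 0, 6, 4, 3, 2, 1, 0, 1, 0, 7, 4, 0, 1, 5, 4, 0, 8]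
  just := [0, 0, 0, 3, 4, 0, 6, 7, 9, 0, 0, 11, 13, 1, 0, 8, 1, 0, 2, 14, 8, 9, 12, 13, 0, 5, 4, 3, 0, 2, 14, 7, 15,
    5, 0, 6, 17, 18, 19, 16, 12, 0, 10, 20, 21, 0, 23, 0, 19, 22, 21, 20, 10, 0, 11, 0, 18, 22, 0, 23, 16, 15, 0, 17]
  gA := 45
  gB := 47
  fin := 0
  sid := [0, 1, 2, 3, 4, 5, 6, 7, 8, 9, 10, 11, 12, 13, 1, 0, 13, 1, 2, 14, 0, 8, 9, 12, 7, 15, 5, 4, 3, 2, 14, 0,
    16, 15, 5, 6, 7, 17, 18, 19, 12, 9, 10, 20, 21, 22, 23, 19, 19, 18, 22, 21, 20, 10, 11, 12, 17, 18, 22, 23, 19,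
    16, 15, 7]
  off := [(0, 0), (0, 0), (0, 0), (0, 0), (0, 0), (0, 0), (0, 0), (0, 0), (0, 0), (0, 0), (0, 0), (0, 0), (0, 0), (0,
    0), (0, 0), (0, 0), (0, 0), (0, 0), (0, 0), (0, 0), (0, -1), (0, -1), (0, -1), (0, 0), (0, -1), (0, 0), (0, 0),
    (0, 0), (0, 0), (0, 0), (0, 0), (0, -1), (0, 0), (0, 0), (0, 0), (0, 0), (0, 0), (0, 0), (0, 0), (0, 0), (0, 1),
    (0, 0), (0, 0), (0, 0), (0, 0), (0, 0), (0, 0), (1, 0), (1, -1), (1, -1), (0, 0), (0, 0), (0, 0), (0, 0), (0, 0),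
    (0, 0), (0, -1), (0, -1), (-1, 0), (-1, 0), (0, 0), (0, 0), (0, 0), (0, -1)]

/-- glued arcs and equations -/
def tord8k_35 : TorT :=
  ⟨[(0, 5, false), (0, 6, true), (1, 1, false), (2, 4, true), (2, 5, false), (3, 3, true), (3, 6, false), (4, 7,
    false), (7, 7, true)],
    [([0, 0, 0, 1, 0, 0, 1, 0], 2), ([0, 0, 0, 1, 1, 0, 0, 0], 2), ([0, 0, 2, 0, 0, 1, 0, 0], 2), ([0, 2, 0, 0, 0, 0,
    1, 0], 2), ([1, 0, 0, 0, 0, 1, 0, 0], 2), ([1, 0, 0, 0, 1, 0, 0, 2], 2)]⟩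

theorem tord8k_35_ok : tord8k_35.OK 8 := TT.leaf_ok (T := ttd8k_35) (by decide +kernel)

/-- the torus -/
def ttd8k_36 : TT where
  k := 8
  rf := [false, false, true, false, true, true, true, false]
  tau := [9, 19, 20, 27, 37, 38, 30, 23, 18, 0, 16, 41, 42, 52, 53, 47, 10, 40, 8, 1, 2, 28, 29, 7, 57, 35, 36, 3,
    21, 22, 6, 39, 58, 48, 56, 25, 26, 4, 5, 31, 17, 11, 12, 51, 61, 62, 54, 15, 33, 59, 60, 43, 13, 14, 46, 63, 34,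
    24, 32, 49, 50, 44, 45, 55]
  par := [0, 0, 1, 3, 4, 11, 13, 24]
  stars := [[0, 16, 10], [1, 9, 19], [2, 20], [3, 21, 28], [4, 27, 37], [5, 38], [6, 39, 31], [7, 30, 23], [8, 40,
    18], [11, 17, 41], [12, 42], [13, 43, 52], [14, 53], [15, 54, 47], [22, 29], [24, 32, 58], [25, 57, 35], [26,
    36], [33, 49, 59], [34, 56, 48], [44, 61, 51], [45, 62], [46, 55, 63], [50, 60]]
  word := [[], [], [], [], [], [], [3, 0], [3, 0], [], [], [0, 3], [], [], [], [], [2, 1], [2, 1], [2, 1], [], [],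
    [], [], [], [1, 2], [], [], [], [], [], [], [1, 2], [1, 2], [3, 0], [3], [], [], [], [], [], [3, 0], [0, 3], [],
    [], [], [0], [0], [0, 3], [0, 3], [2], [0], [0], [], [], [], [2, 1], [2], [], [], [1, 2], [1], [1], [1], [1], [3]]
  rank := [0, 0, 1, 0, 0, 1, 7, 8, 1, 0, 5, 0, 1, 0, 1, 3, 5, 4, 1, 0, 1, 2, 3, 8, 0, 2, 1, 0, 2, 3, 7, 6, 5, 4, 3,
    2, 1, 0, 1, 6, 4, 0, 1, 2, 0, 1, 2, 3, 4, 4, 3, 2, 0, 1, 2, 0, 3, 0, 5, 4, 3, 0, 1, 0]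
  just := [0, 0, 2, 0, 0, 5, 6, 7, 1, 0, 9, 0, 10, 0, 12, 13, 9, 8, 1, 0, 2, 3, 14, 7, 0, 17, 4, 0, 3, 14, 6, 15, 18,
    19, 16, 17, 4, 0, 5, 15, 8, 0, 10, 11, 0, 21, 22, 13, 19, 23, 20, 11, 0, 12, 22, 0, 16, 0, 18, 23, 20, 0, 21, 0]
  gA := 44
  gB := 55
  fin := 0
  sid := [0, 1, 2, 3, 4, 5, 6, 7, 8, 1, 0, 9, 10, 11, 12, 13, 0, 9, 8, 1, 2, 3, 14, 7, 15, 16, 17, 4, 3, 14, 7, 6,
    15, 18, 19, 16, 17, 4, 5, 6, 8, 9, 10, 11, 20, 21, 22, 13, 19, 18, 23, 20, 11, 12, 13, 22, 19, 16, 15, 18, 23,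
    20, 21, 22]
  off := [(0, 0), (0, 0), (0, 0), (0, 0), (0, 0), (0, 0), (0, 0), (0, 0), (0, 0), (0, 0), (0, 0), (0, 0), (0, 0), (0,
    0), (0, 0), (0, 0), (-1, 1), (-1, 1), (0, 0), (0, 0), (0, 0), (0, 0), (0, 0), (-1, 1), (0, 0), (0, 0), (0, 0),
    (0, 0), (0, 0), (0, 0), (-1, 1), (-1, 1), (1, -1), (0, 0), (0, 0), (0, 0), (0, 0), (0, 0), (0, 0), (0, 0), (1,
    -1), (0, 0), (0, 0), (0, 0), (0, 0), (0, 0), (0, 0), (1, -1), (0, 1), (0, 1), (0, 0), (0, 0), (0, 0), (0, 0), (0,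
    0), (-1, 1), (0, 0), (0, 0), (0, 0), (-1, 1), (-1, 0), (-1, 0), (-1, 0), (-1, 0)]

/-- glued arcs and equations -/
def tord8k_36 : TorT :=
  ⟨[(0, 1, true), (0, 2, false), (1, 3, false), (2, 4, false), (3, 3, true), (4, 5, false), (5, 6, false), (6, 6,
    true), (7, 7, false)],
    [([0, 0, 0, 0, 0, 0, 1, 2], 2), ([0, 0, 0, 0, 0, 1, 1, 0], 2), ([0, 0, 0, 1, 1, 1, 0, 0], 2), ([0, 0, 1, 0, 1, 0,
    0, 0], 2), ([0, 2, 0, 1, 0, 0, 0, 0], 2), ([2, 0, 1, 0, 0, 0, 0, 0], 2)]⟩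

theorem tord8k_36_ok : tord8k_36.OK 8 := TT.leaf_ok (T := ttd8k_36) (by decide +kernel)

/-- the torus -/
def ttd8k_37 : TT where
  k := 8
  rf := [false, false, true, false, true, false, true, true]
  tau := [8, 16, 12, 11, 10, 28, 27, 39, 0, 32, 4, 3, 2, 44, 43, 23, 1, 45, 46, 54, 53, 41, 42, 15, 49, 37, 38, 6, 5,
    33, 34, 63, 9, 29, 30, 62, 61, 25, 26, 7, 57, 21, 22, 14, 13, 17, 18, 55, 56, 24, 60, 59, 58, 20, 19, 47, 48, 40,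
    52, 51, 50, 36, 35, 31]
  par := [0, 0, 1, 5, 7, 13, 19, 31]
  stars := [[0, 32, 9], [1, 8, 16], [2, 17, 45, 13], [3, 12], [4, 11], [5, 10, 33, 29], [6, 28], [7, 27, 39], [14,
    44], [15, 43, 23], [18, 46], [19, 55, 47], [20, 54], [21, 41, 58, 53], [22, 42], [24, 56, 49], [25, 50, 61, 37],
    [26, 38], [30, 34], [31, 35, 63], [36, 62], [40, 48, 57], [51, 60], [52, 59]]
  word := [[], [], [0, 3], [0, 3], [0, 3], [], [], [], [], [2, 1, 3, 0], [2, 1], [2, 1], [2, 1], [], [], [], [], [0,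
    3], [0, 3], [], [], [], [], [], [1], [], [], [], [], [3, 0], [3, 0], [], [1, 2, 0, 3], [1, 2], [1, 2], [1, 2],
    [1, 2], [], [], [], [2], [], [], [], [], [2, 1], [2, 1], [2, 1], [0], [0], [2], [2], [2], [], [], [0, 3], [1],
    [3], [3], [3], [3], [3, 0], [3, 0], []]
  rank := [0, 0, 8, 9, 10, 0, 1, 0, 0, 11, 10, 9, 8, 0, 1, 1, 0, 7, 6, 0, 1, 3, 2, 1, 1, 3, 2, 1, 0, 7, 6, 0, 11, 7,
    6, 5, 4, 3, 2, 0, 4, 3, 2, 1, 0, 7, 6, 5, 0, 1, 2, 1, 0, 1, 0, 5, 0, 4, 0, 1, 2, 4, 5, 0]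
  just := [0, 0, 2, 3, 4, 0, 6, 0, 0, 5, 4, 3, 2, 0, 8, 1, 0, 10, 11, 0, 12, 14, 9, 1, 15, 17, 7, 6, 0, 18, 19, 0, 5,
    18, 19, 20, 16, 17, 7, 0, 13, 14, 9, 8, 0, 10, 11, 21, 0, 15, 22, 23, 0, 12, 0, 21, 0, 13, 0, 23, 22, 16, 20, 0]
  gA := 48
  gB := 52
  fin := 0
  sid := [0, 1, 2, 3, 4, 5, 6, 7, 1, 0, 5, 4, 3, 2, 8, 9, 1, 2, 10, 11, 12, 13, 14, 9, 15, 16, 17, 7, 6, 5, 18, 19,
    0, 5, 18, 19, 20, 16, 17, 7, 21, 13, 14, 9, 8, 2, 10, 11, 21, 15, 16, 22, 23, 13, 12, 11, 15, 21, 13, 23, 22, 16,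
    20, 19]
  off := [(0, 0), (0, 0), (0, 0), (0, 0), (0, 0), (0, 0), (0, 0), (0, 0), (0, 0), (0, 0), (-1, 1), (-1, 1), (-1, 1),
    (-1, 1), (0, 0), (0, 0), (0, 0), (0, 0), (0, 0), (0, 0), (0, 0), (0, 0), (0, 0), (0, 0), (0, 0), (0, 0), (0, 0),
    (0, 0), (0, 0), (0, 0), (0, 0), (0, 0), (0, 0), (-1, 1), (-1, 1), (-1, 1), (0, 0), (0, 0), (0, 0), (0, 0), (0,
    0), (0, 0), (0, 0), (0, 0), (0, 0), (-1, 1), (-1, 1), (-1, 1), (1, -1), (1, 0), (1, 0), (0, 0), (0, 0), (0, 0),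
    (0, 0), (0, 0), (0, 0), (0, -1), (0, -1), (0, -1), (0, -1), (1, -1), (1, -1), (0, 0)]

/-- glued arcs and equations -/
def tord8k_37 : TorT :=
  ⟨[(0, 0, true), (0, 1, false), (1, 5, false), (2, 4, true), (2, 6, false), (3, 3, true), (3, 6, true), (4, 5,
    true), (7, 7, false)],
    [([0, 0, 0, 0, 1, 0, 1, 0], 2), ([0, 0, 0, 1, 0, 0, 0, 2], 2), ([0, 0, 0, 1, 1, 0, 0, 0], 2), ([0, 0, 1, 0, 0, 0,
    1, 0], 2), ([0, 1, 1, 0, 0, 2, 0, 0], 2), ([2, 1, 0, 0, 0, 0, 0, 0], 2)]⟩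

theorem tord8k_37_ok : tord8k_37.OK 8 := TT.leaf_ok (T := ttd8k_37) (by decide +kernel)

/-- the torus -/
def ttd8k_38 : TT where
  k := 8
  rf := [false, false, true, false, true, false, true, true]
  tau := [9, 19, 20, 21, 30, 29, 28, 23, 18, 0, 16, 33, 34, 35, 46, 39, 10, 32, 8, 1, 2, 3, 54, 7, 41, 51, 52, 53, 6,
    5, 4, 55, 17, 11, 12, 13, 62, 61, 60, 15, 50, 24, 48, 57, 58, 59, 14, 63, 42, 56, 40, 25, 26, 27, 22, 31, 49, 43,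
    44, 45, 38, 37, 36, 47]
  par := [0, 0, 1, 4, 11, 14, 22, 36]
  stars := [[0, 16, 10], [1, 9, 19], [2, 20], [3, 21], [4, 22, 55, 31], [5, 30], [6, 29], [7, 28, 54, 23], [8, 32,
    18], [11, 17, 33], [12, 34], [13, 35], [14, 36, 63, 47], [15, 46, 60, 39], [24, 48, 42], [25, 41, 51], [26, 52],
    [27, 53], [37, 62], [38, 61], [40, 56, 50], [43, 49, 57], [44, 58], [45, 59]]
  word := [[], [], [], [], [], [], [], [2, 1, 3], [], [], [1], [], [], [], [], [0], [0], [0], [], [], [], [], [], [2,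
    0, 3], [2, 1], [2, 1, 3], [2, 1, 3], [2, 1, 3], [], [], [], [], [1], [], [], [], [], [], [], [1], [3], [0, 3],
    [0, 3], [0], [0], [0], [], [], [2, 1], [2], [2], [2, 0, 3], [2, 0, 3], [2, 0, 3], [], [], [3], [1], [1], [1], [],
    [], [], []]
  rank := [0, 0, 1, 2, 0, 1, 2, 8, 1, 0, 5, 0, 1, 2, 0, 3, 5, 4, 1, 0, 1, 2, 0, 8, 4, 5, 6, 7, 2, 1, 0, 3, 4, 0, 1,
    2, 0, 1, 2, 3, 4, 4, 1, 0, 1, 2, 0, 3, 1, 0, 4, 5, 6, 7, 0, 3, 0, 0, 1, 2, 2, 1, 0, 3]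
  just := [0, 0, 2, 3, 0, 5, 6, 7, 1, 0, 9, 0, 10, 11, 0, 13, 9, 8, 1, 0, 2, 3, 0, 7, 14, 15, 16, 17, 6, 5, 0, 4, 8,
    0, 10, 11, 0, 18, 19, 13, 20, 14, 21, 0, 22, 23, 0, 12, 21, 0, 20, 15, 16, 17, 0, 4, 0, 0, 22, 23, 19, 18, 0, 12]
  gA := 43
  gB := 49
  fin := 0
  sid := [0, 1, 2, 3, 4, 5, 6, 7, 8, 1, 0, 9, 10, 11, 12, 13, 0, 9, 8, 1, 2, 3, 4, 7, 14, 15, 16, 17, 7, 6, 5, 4, 8,
    9, 10, 11, 12, 18, 19, 13, 20, 15, 14, 21, 22, 23, 13, 12, 14, 21, 20, 15, 16, 17, 7, 4, 20, 21, 22, 23, 13, 19,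
    18, 12]
  off := [(0, 0), (0, 0), (0, 0), (0, 0), (0, 0), (0, 0), (0, 0), (0, 0), (0, 0), (0, 0), (0, 0), (0, 0), (0, 0), (0,
    0), (0, 0), (0, 0), (1, 0), (1, 0), (0, 0), (0, 0), (0, 0), (0, 0), (0, 0), (1, 0), (0, 0), (0, 0), (0, 0), (0,
    0), (0, 0), (0, 0), (0, 0), (0, 0), (-1, 0), (0, 0), (0, 0), (0, 0), (0, 0), (0, 0), (0, 0), (-1, 0), (0, 0), (1,
    -1), (1, -1), (0, 0), (0, 0), (0, 0), (0, 0), (0, 0), (0, 0), (-1, 1), (0, 1), (1, 0), (1, 0), (1, 0), (1, 0),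
    (0, 0), (0, 0), (-1, 0), (-1, 0), (-1, 0), (-1, 0), (0, 0), (0, 0), (0, 0)]

/-- glued arcs and equations -/
def tord8k_38 : TorT :=
  ⟨[(0, 1, true), (0, 2, false), (1, 3, false), (2, 4, false), (3, 5, false), (4, 6, true), (5, 5, true), (6, 6,
    true), (7, 7, false)],
    [([0, 0, 0, 0, 0, 1, 1, 0], 2), ([0, 0, 0, 0, 1, 0, 1, 2], 2), ([0, 0, 0, 1, 0, 1, 0, 0], 2), ([0, 0, 1, 0, 1, 0,
    0, 0], 2), ([0, 2, 0, 1, 0, 0, 0, 0], 2), ([2, 0, 1, 0, 0, 0, 0, 0], 2)]⟩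

theorem tord8k_38_ok : tord8k_38.OK 8 := TT.leaf_ok (T := ttd8k_38) (by decide +kernel)

/-- the torus -/
def ttd8k_39 : TT where
  k := 8
  rf := [false, false, true, false, true, false, true, true]
  tau := [9, 20, 21, 27, 28, 22, 23, 10, 19, 0, 7, 16, 33, 34, 37, 38, 11, 32, 39, 8, 1, 2, 5, 6, 41, 52, 53, 3, 4,
    54, 55, 42, 17, 12, 13, 59, 60, 14, 15, 18, 51, 24, 31, 48, 57, 58, 61, 62, 43, 56, 63, 40, 25, 26, 29, 30, 49,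
    44, 45, 35, 36, 46, 47, 50]
  par := [0, 0, 1, 3, 12, 24, 25, 35]
  stars := [[0, 10], [1, 9, 20], [2, 21], [3, 22, 5, 28], [4, 27, 54, 29], [6, 23], [7, 16, 11], [8, 39, 19], [12,
    17, 33], [13, 34], [14, 35, 60, 37], [15, 38], [18, 32], [24, 42], [25, 41, 52], [26, 53], [30, 55], [31, 48,
    43], [36, 61, 46, 59], [40, 63, 51], [44, 49, 57], [45, 58], [47, 62], [50, 56]]
  word := [[], [], [], [], [2, 1], [2, 1], [2, 1], [2, 1, 3, 0], [], [], [1, 2, 0, 3], [1, 2], [], [], [3, 0], [3,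
    0], [3, 0], [3, 0], [3, 0], [], [], [], [0, 3], [0, 3], [], [], [], [], [0, 3], [0, 3], [0, 3], [], [1, 2], [],
    [], [], [1, 2], [1, 2], [1, 2], [1, 2], [], [], [], [0, 3], [0], [0], [2], [2], [2, 1], [2], [2], [], [], [], [2,
    1], [2, 1], [3], [1], [1], [], [3, 0], [3], [3], [3]]
  rank := [0, 0, 1, 0, 7, 8, 9, 10, 1, 0, 10, 7, 0, 1, 3, 4, 7, 6, 5, 1, 0, 1, 8, 9, 0, 0, 1, 0, 7, 6, 5, 1, 6, 0, 1,
    0, 2, 3, 4, 5, 1, 0, 1, 4, 1, 0, 1, 0, 4, 3, 2, 1, 0, 1, 6, 5, 3, 1, 0, 0, 2, 1, 0, 2]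
  just := [0, 0, 2, 0, 4, 3, 5, 6, 1, 0, 6, 8, 0, 9, 10, 11, 8, 12, 7, 1, 0, 2, 3, 5, 0, 0, 15, 0, 4, 16, 17, 13, 12,
    0, 9, 0, 18, 10, 11, 7, 14, 0, 13, 20, 21, 0, 22, 0, 20, 23, 19, 14, 0, 15, 16, 17, 23, 21, 0, 0, 18, 22, 0, 19]
  gA := 45
  gB := 47
  fin := 0
  sid := [0, 1, 2, 3, 4, 3, 5, 6, 7, 1, 0, 6, 8, 9, 10, 11, 6, 8, 12, 7, 1, 2, 3, 5, 13, 14, 15, 4, 3, 4, 16, 17, 12,
    8, 9, 10, 18, 10, 11, 7, 19, 14, 13, 17, 20, 21, 18, 22, 17, 20, 23, 19, 14, 15, 4, 16, 23, 20, 21, 18, 10, 18,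
    22, 19]
  off := [(0, 0), (0, 0), (0, 0), (0, 0), (0, 0), (-1, 1), (0, 0), (0, 0), (0, 0), (0, 0), (0, 0), (0, 0), (0, 0),
    (0, 0), (0, 0), (0, 0), (1, -1), (1, -1), (0, 0), (0, 0), (0, 0), (0, 0), (0, 0), (1, -1), (0, 0), (0, 0), (0,
    0), (0, 0), (0, 0), (1, -1), (0, 0), (0, 0), (-1, 1), (0, 0), (0, 0), (0, 0), (0, 0), (-1, 1), (-1, 1), (-1, 1),
    (0, 0), (0, 0), (0, 0), (0, 0), (0, 0), (0, 0), (1, 0), (0, 0), (-1, 1), (-1, 1), (0, 0), (0, 0), (0, 0), (0, 0),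
    (0, 0), (-1, 1), (0, -1), (-1, 0), (-1, 0), (0, 0), (0, 0), (1, -1), (0, -1), (0, -1)]

/-- glued arcs and equations -/
def tord8k_39 : TorT :=
  ⟨[(0, 1, true), (0, 3, false), (1, 4, false), (2, 5, false), (2, 7, true), (3, 3, true), (4, 4, true), (5, 6,
    false), (6, 7, false)],
    [([0, 0, 0, 0, 0, 0, 1, 1], 2), ([0, 0, 0, 1, 1, 1, 1, 0], 2), ([0, 0, 1, 0, 0, 1, 0, 0], 2), ([0, 2, 0, 0, 1, 0,
    0, 0], 2), ([1, 0, 0, 1, 0, 0, 0, 1], 2), ([1, 0, 1, 0, 0, 0, 0, 0], 2)]⟩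

theorem tord8k_39_ok : tord8k_39.OK 8 := TT.leaf_ok (T := ttd8k_39) (by decide +kernel)

/-- the torus -/
def ttd8k_40 : TT where
  k := 8
  rf := [false, false, false, false, true, true, true, true]
  tau := [8, 23, 10, 30, 36, 26, 25, 24, 0, 31, 2, 22, 44, 18, 17, 16, 15, 14, 13, 45, 52, 43, 11, 1, 7, 6, 5, 37,
    60, 35, 3, 9, 63, 62, 61, 29, 4, 27, 59, 49, 55, 54, 53, 21, 12, 19, 51, 57, 56, 39, 58, 46, 20, 42, 41, 40, 48,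
    47, 50, 38, 28, 34, 33, 32]
  par := [0, 0, 1, 3, 4, 12, 20, 28]
  stars := [[0, 24, 9], [1, 8, 16], [2, 23, 11], [3, 10, 31], [4, 30, 36], [5, 37, 27], [6, 26], [7, 25], [12, 22,
    44], [13, 45, 19], [14, 18], [15, 17], [20, 46, 52], [21, 53, 43], [28, 38, 60], [29, 61, 35], [32, 56, 49], [33,
    63], [34, 62], [39, 50, 59], [40, 48, 57], [41, 55], [42, 54], [47, 58, 51]]
  word := [[], [], [1], [], [], [3, 0, 2], [3, 0, 2], [3, 0, 2], [], [0], [0], [0], [], [], [], [], [], [], [], [],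
    [], [1], [1], [], [3, 1, 2], [3, 1, 2], [3, 1, 2], [3, 1, 2], [], [], [], [1], [], [], [], [], [], [3, 0, 2], [3,
    0, 2], [3, 0], [0], [0], [0], [0], [], [], [], [2], [1, 2], [1, 2], [2], [], [], [1], [1], [1], [3, 0], [3], [3],
    [3, 1, 2], [], [], [], []]
  rank := [0, 0, 5, 0, 0, 9, 10, 11, 0, 6, 5, 4, 0, 3, 2, 1, 1, 2, 3, 4, 0, 3, 4, 0, 11, 10, 9, 8, 0, 1, 0, 6, 4, 3,
    2, 1, 0, 8, 7, 5, 0, 1, 2, 3, 0, 4, 5, 0, 1, 5, 6, 5, 0, 2, 1, 0, 1, 0, 6, 7, 0, 2, 3, 4]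
  just := [0, 0, 2, 0, 0, 5, 6, 7, 0, 3, 2, 8, 0, 10, 11, 1, 1, 11, 10, 9, 0, 13, 8, 0, 7, 6, 5, 14, 0, 4, 0, 3, 17,
    18, 15, 4, 0, 14, 19, 16, 0, 21, 22, 13, 0, 9, 12, 0, 20, 16, 23, 12, 0, 22, 21, 0, 20, 0, 23, 19, 0, 15, 18, 17]
  gA := 40
  gB := 47
  fin := 0
  sid := [0, 1, 2, 3, 4, 5, 6, 7, 1, 0, 3, 2, 8, 9, 10, 11, 1, 11, 10, 9, 12, 13, 8, 2, 0, 7, 6, 5, 14, 15, 4, 3, 16,
    17, 18, 15, 4, 5, 14, 19, 20, 21, 22, 13, 8, 9, 12, 23, 20, 16, 19, 23, 12, 13, 22, 21, 16, 20, 23, 19, 14, 15,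
    18, 17]
  off := [(0, 0), (0, 0), (0, 0), (0, 0), (0, 0), (0, 0), (0, 0), (0, 0), (0, 0), (0, 0), (1, 0), (1, 0), (0, 0), (0,
    0), (0, 0), (0, 0), (0, 0), (0, 0), (0, 0), (0, 0), (0, 0), (0, 0), (-1, 0), (0, 0), (-1, 0), (-1, 0), (-1, 0),
    (-1, 0), (0, 0), (0, 0), (0, 0), (0, 0), (0, 0), (0, 0), (0, 0), (0, 0), (0, 0), (0, 0), (1, 0), (0, 0), (0, 0),
    (0, 0), (0, 0), (1, 0), (0, 0), (0, 0), (0, 0), (0, 0), (-1, 0), (-1, 1), (-1, 1), (0, 0), (0, 0), (0, 0), (-1,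
    0), (-1, 0), (0, 0), (0, -1), (0, -1), (-1, 0), (0, 0), (0, 0), (0, 0), (0, 0)]

/-- glued arcs and equations -/
def tord8k_40 : TorT :=
  ⟨[(0, 0, true), (0, 7, true), (1, 6, true), (1, 7, true), (2, 2, true), (2, 5, true), (3, 5, false), (3, 6, true),
    (4, 4, false)],
    [([0, 0, 0, 0, 2, 0, 1, 0], 2), ([0, 0, 0, 1, 0, 2, 0, 0], 2), ([0, 0, 1, 0, 0, 0, 1, 0], 2), ([0, 0, 1, 1, 0, 0,
    0, 1], 2), ([0, 1, 0, 0, 0, 0, 0, 1], 2), ([2, 1, 0, 0, 0, 0, 0, 0], 2)]⟩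

theorem tord8k_40_ok : tord8k_40.OK 8 := TT.leaf_ok (T := ttd8k_40) (by decide +kernel)

/-- the torus -/
def ttd8k_41 : TT where
  k := 8
  rf := [false, false, false, true, true, false, true, true]
  tau := [8, 23, 28, 35, 26, 42, 41, 40, 0, 47, 52, 59, 50, 18, 17, 16, 15, 14, 13, 51, 46, 45, 44, 1, 48, 63, 4, 43,
    2, 34, 33, 32, 31, 30, 29, 3, 62, 61, 60, 49, 7, 6, 5, 27, 22, 21, 20, 9, 24, 39, 12, 19, 10, 58, 57, 56, 55, 54,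
    53, 11, 38, 37, 36, 25]
  par := [0, 0, 1, 2, 3, 5, 10, 11]
  stars := [[0, 40, 9], [1, 8, 16], [2, 23, 44, 28], [3, 29, 35], [4, 36, 63, 26], [5, 27, 43], [6, 42], [7, 41],
    [10, 47, 20, 52], [11, 53, 59], [12, 60, 39, 50], [13, 51, 19], [14, 18], [15, 17], [21, 46], [22, 45], [24, 49,
    32], [25, 56, 48], [30, 34], [31, 33], [37, 62], [38, 61], [54, 58], [55, 57]]
  word := [[], [], [], [], [0], [], [], [], [], [3, 0, 2, 1], [], [], [3, 1, 2], [], [], [], [], [], [], [3, 1, 2],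
    [1], [1], [1], [], [2], [2], [1], [1], [], [], [], [], [], [], [], [], [0, 2], [0, 2], [0, 2], [2], [], [], [],
    [0], [0], [0], [0], [0, 3, 1, 2], [3], [3], [3, 0, 2], [3, 0, 2], [], [], [], [], [], [], [], [], [3, 1], [3, 1],
    [3, 1], [3]]
  rank := [0, 0, 0, 0, 0, 0, 1, 2, 0, 8, 0, 0, 6, 3, 2, 1, 1, 2, 3, 7, 4, 3, 2, 0, 4, 0, 0, 1, 0, 1, 2, 3, 3, 2, 1,
    0, 1, 2, 3, 5, 2, 1, 0, 1, 2, 3, 4, 8, 4, 5, 6, 7, 0, 1, 2, 3, 3, 2, 1, 0, 3, 2, 1, 0]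
  just := [0, 0, 0, 0, 0, 0, 6, 7, 0, 8, 0, 0, 10, 12, 13, 1, 1, 13, 12, 11, 14, 15, 2, 0, 17, 0, 0, 5, 0, 3, 18, 19,
    19, 18, 3, 0, 4, 20, 21, 16, 7, 6, 0, 5, 2, 15, 14, 8, 17, 16, 10, 11, 0, 9, 22, 23, 23, 22, 9, 0, 21, 20, 4, 0]
  gA := 4
  gB := 25
  fin := 0
  sid := [0, 1, 2, 3, 4, 5, 6, 7, 1, 0, 8, 9, 10, 11, 12, 13, 1, 13, 12, 11, 8, 14, 15, 2, 16, 17, 4, 5, 2, 3, 18,
    19, 16, 19, 18, 3, 4, 20, 21, 10, 0, 7, 6, 5, 2, 15, 14, 8, 17, 16, 10, 11, 8, 9, 22, 23, 17, 23, 22, 9, 10, 21,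
    20, 4]
  off := [(0, 0), (0, 0), (0, 0), (0, 0), (0, 0), (0, 0), (0, 0), (0, 0), (0, 0), (0, 0), (0, 0), (0, 0), (0, 0), (0,
    0), (0, 0), (0, 0), (0, 0), (0, 0), (0, 0), (0, 0), (-1, 0), (0, 0), (0, 0), (0, 0), (0, 0), (0, 0), (-1, 0),
    (-1, 0), (0, 0), (0, 0), (0, 0), (0, 0), (0, 0), (0, 0), (0, 0), (0, 0), (0, 0), (0, 0), (0, 0), (1, 1), (0, 0),
    (0, 0), (0, 0), (0, 0), (1, 0), (1, 0), (1, 0), (0, 0), (0, -1), (0, -1), (1, 0), (1, 0), (0, 0), (0, 0), (0, 0),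
    (0, 0), (0, -1), (0, 0), (0, 0), (0, 0), (0, 0), (-1, -1), (-1, -1), (-1, -1)]

/-- glued arcs and equations -/
def tord8k_41 : TorT :=
  ⟨[(0, 0, true), (0, 7, true), (1, 6, true), (1, 7, true), (2, 4, false), (2, 5, true), (3, 3, false), (4, 6, true),
    (5, 5, true)],
    [([0, 0, 0, 0, 0, 1, 1, 0], 2), ([0, 0, 0, 2, 0, 1, 0, 0], 2), ([0, 0, 1, 0, 0, 0, 1, 0], 2), ([0, 0, 1, 0, 2, 0,
    0, 1], 2), ([0, 1, 0, 0, 0, 0, 0, 1], 2), ([2, 1, 0, 0, 0, 0, 0, 0], 2)]⟩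

theorem tord8k_41_ok : tord8k_41.OK 8 := TT.leaf_ok (T := ttd8k_41) (by decide +kernel)

/-- the torus -/
def ttd8k_42 : TT where
  k := 8
  rf := [false, false, false, false, true, true, true, true]
  tau := [12, 11, 18, 26, 37, 38, 40, 41, 54, 55, 19, 1, 0, 60, 61, 31, 28, 27, 2, 10, 45, 46, 32, 33, 62, 63, 3, 17,
    16, 52, 53, 15, 22, 23, 51, 57, 56, 4, 5, 47, 6, 7, 59, 49, 48, 20, 21, 39, 44, 43, 58, 34, 29, 30, 8, 9, 36, 35,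
    50, 42, 13, 14, 24, 25]
  par := [0, 0, 2, 3, 4, 6, 8, 13]
  stars := [[0, 42, 60, 13], [1, 12], [2, 11, 19], [3, 18, 27], [4, 26, 56, 37], [5, 38], [6, 39, 40], [7, 41], [8,
    31, 54], [9, 55], [10, 48, 45, 20], [14, 61], [15, 62, 24], [16, 34, 52, 29], [17, 28], [21, 46], [22, 47, 32],
    [23, 33], [25, 63], [30, 53], [35, 58, 51], [36, 57], [43, 50, 59], [44, 49]]
  word := [[], [], [], [], [], [], [], [], [], [], [], [], [], [], [], [3], [], [], [], [], [0], [0], [0], [0], [2],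
    [2], [], [], [], [2], [2], [2], [1], [1], [1, 2], [2], [2], [], [], [], [], [], [1, 3, 0, 2], [1], [1], [1], [1],
    [], [0], [0], [3, 0, 2], [3, 0], [3], [3], [], [], [3], [3], [3, 1, 2], [3, 1, 2, 0], [], [], [3], [3]]
  rank := [0, 1, 0, 0, 0, 1, 0, 1, 0, 1, 2, 1, 0, 0, 1, 2, 2, 1, 0, 2, 4, 3, 0, 1, 0, 1, 0, 1, 2, 4, 3, 2, 0, 1, 5,
    3, 2, 0, 1, 2, 0, 1, 7, 6, 5, 4, 3, 2, 5, 6, 6, 5, 4, 3, 0, 1, 2, 3, 6, 7, 0, 1, 0, 1]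
  just := [0, 1, 0, 0, 0, 5, 0, 7, 0, 9, 2, 1, 0, 0, 11, 12, 14, 3, 0, 2, 15, 16, 0, 17, 0, 18, 0, 3, 14, 19, 8, 12,
    0, 17, 13, 21, 4, 0, 5, 6, 0, 7, 22, 23, 10, 15, 16, 6, 10, 23, 20, 13, 19, 8, 0, 9, 4, 21, 20, 22, 0, 11, 0, 18]
  gA := 22
  gB := 24
  fin := 0
  sid := [0, 1, 2, 3, 4, 5, 6, 7, 8, 9, 10, 2, 1, 0, 11, 12, 13, 14, 3, 2, 10, 15, 16, 17, 12, 18, 4, 3, 14, 13, 19,
    8, 16, 17, 13, 20, 21, 4, 5, 6, 6, 7, 0, 22, 23, 10, 15, 16, 10, 23, 22, 20, 13, 19, 8, 9, 4, 21, 20, 22, 0, 11,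
    12, 18]
  off := [(0, 0), (0, 0), (0, 0), (0, 0), (0, 0), (0, 0), (0, 0), (0, 0), (0, 0), (0, 0), (0, 0), (0, 0), (0, 0), (0,
    0), (0, 0), (0, 0), (0, 0), (0, 0), (0, 0), (0, 0), (0, 0), (0, 0), (0, 0), (0, 0), (0, 1), (0, 0), (0, 0), (0,
    0), (0, 0), (0, 0), (0, 0), (0, 1), (-1, 0), (-1, 0), (-1, 0), (0, 0), (0, 0), (0, 0), (0, 0), (0, 0), (0, 0),
    (0, 0), (0, 0), (0, 0), (0, 0), (-1, 0), (-1, 0), (-1, 0), (0, 0), (1, 0), (1, 0), (1, -1), (0, -1), (0, -1), (0,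
    0), (0, 0), (0, -1), (0, -1), (0, -1), (0, 0), (0, 0), (0, 0), (0, 0), (0, -1)]

/-- glued arcs and equations -/
def tord8k_42 : TorT :=
  ⟨[(0, 4, true), (0, 6, false), (1, 3, true), (1, 7, false), (2, 2, true), (2, 3, true), (4, 5, false), (5, 6,
    false), (7, 7, true)],
    [([0, 0, 0, 0, 0, 1, 1, 0], 2), ([0, 0, 1, 2, 0, 0, 0, 0], 2), ([0, 1, 0, 0, 0, 0, 0, 1], 2), ([0, 1, 0, 0, 1, 0,
    0, 0], 2), ([1, 0, 0, 0, 0, 0, 1, 1], 2), ([1, 0, 1, 0, 1, 1, 0, 0], 2)]⟩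

theorem tord8k_42_ok : tord8k_42.OK 8 := TT.leaf_ok (T := ttd8k_42) (by decide +kernel)

/-- the torus -/
def ttd8k_43 : TT where
  k := 8
  rf := [false, false, true, false, true, false, true, true]
  tau := [8, 9, 18, 28, 22, 23, 16, 17, 0, 1, 34, 44, 38, 39, 32, 33, 6, 7, 2, 29, 51, 27, 4, 5, 54, 55, 50, 21, 3,
    19, 52, 53, 14, 15, 10, 45, 59, 43, 12, 13, 62, 63, 58, 37, 11, 35, 60, 61, 56, 57, 26, 20, 30, 31, 24, 25, 48,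
    49, 42, 36, 46, 47, 40, 41]
  par := [0, 0, 2, 3, 10, 11, 20, 36]
  stars := [[0, 18, 2, 9], [1, 8, 34, 10], [3, 19, 29], [4, 28, 22], [5, 23], [6, 16], [7, 17], [11, 35, 45], [12,
    44, 38], [13, 39], [14, 32], [15, 33], [20, 52, 30], [21, 27, 51], [24, 54], [25, 55], [26, 48, 57, 50], [31,
    53], [36, 60, 46], [37, 43, 59], [40, 62], [41, 63], [42, 56, 49, 58], [47, 61]]
  word := [[], [1, 2], [], [], [0, 3], [0, 3], [0, 3], [0, 3], [], [3, 0], [], [], [1, 2], [1, 2], [1, 2], [1, 2],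
    [2, 1], [2, 1], [], [], [], [2, 1], [2, 1], [2, 1], [], [], [0, 3], [0, 3], [], [], [], [], [3, 0], [3, 0], [],
    [], [], [3, 0], [3, 0], [3, 0], [], [], [1, 2], [1, 2], [], [], [], [], [0], [2], [2, 1], [], [], [], [], [],
    [1], [3], [3, 0], [], [], [], [], []]
  rank := [0, 12, 0, 0, 8, 9, 10, 11, 0, 12, 0, 0, 8, 9, 10, 11, 10, 11, 0, 1, 0, 7, 8, 9, 4, 5, 6, 7, 0, 1, 2, 3,
    10, 11, 0, 1, 0, 7, 8, 9, 4, 5, 6, 7, 0, 1, 2, 3, 0, 0, 6, 0, 2, 3, 4, 5, 0, 0, 6, 0, 2, 3, 4, 5]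
  just := [0, 1, 0, 0, 3, 4, 5, 6, 0, 1, 0, 0, 8, 9, 10, 11, 5, 6, 0, 2, 0, 13, 3, 4, 14, 15, 16, 13, 0, 2, 12, 17,
    10, 11, 0, 7, 0, 19, 8, 9, 20, 21, 22, 19, 0, 7, 18, 23, 0, 0, 16, 0, 12, 17, 14, 15, 0, 0, 22, 0, 18, 23, 20, 21]
  gA := 48
  gB := 49
  fin := 0
  sid := [0, 1, 0, 2, 3, 4, 5, 6, 1, 0, 1, 7, 8, 9, 10, 11, 5, 6, 0, 2, 12, 13, 3, 4, 14, 15, 16, 13, 3, 2, 12, 17,
    10, 11, 1, 7, 18, 19, 8, 9, 20, 21, 22, 19, 8, 7, 18, 23, 16, 22, 16, 13, 12, 17, 14, 15, 22, 16, 22, 19, 18, 23,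
    20, 21]
  off := [(0, 0), (0, 0), (-1, 1), (0, 0), (0, 0), (0, 0), (0, 0), (0, 0), (0, 0), (0, 0), (1, -1), (0, 0), (0, 0),
    (0, 0), (0, 0), (0, 0), (-1, 1), (-1, 1), (-1, 1), (0, 0), (0, 0), (0, 0), (-1, 1), (-1, 1), (0, 0), (0, 0), (0,
    0), (1, -1), (0, 0), (0, 0), (0, 0), (0, 0), (1, -1), (1, -1), (1, -1), (0, 0), (0, 0), (0, 0), (1, -1), (1, -1),
    (0, 0), (0, 0), (0, 0), (-1, 1), (0, 0), (0, 0), (0, 0), (0, 0), (0, 0), (1, 0), (-1, 1), (0, 0), (0, 0), (0, 0),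
    (0, 0), (0, 0), (0, 0), (-1, 0), (1, -1), (0, 0), (0, 0), (0, 0), (0, 0), (0, 0)]

/-- glued arcs and equations -/
def tord8k_43 : TorT :=
  ⟨[(0, 0, true), (0, 6, false), (1, 1, true), (1, 7, false), (2, 2, false), (3, 4, true), (3, 5, false), (4, 6,
    false), (5, 7, false)],
    [([0, 0, 0, 0, 0, 1, 0, 1], 2), ([0, 0, 0, 0, 2, 0, 1, 0], 2), ([0, 0, 0, 2, 0, 1, 0, 0], 2), ([0, 1, 0, 0, 0, 0,
    0, 1], 2), ([1, 0, 0, 0, 0, 0, 1, 0], 2), ([1, 1, 2, 0, 0, 0, 0, 0], 2)]⟩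

theorem tord8k_43_ok : tord8k_43.OK 8 := TT.leaf_ok (T := ttd8k_43) (by decide +kernel)

end Pool.Agent.Lib_MP_fa6e45
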