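import Pool.Agent.Lib_MP_fa6e45.CT5

/-!
MP_fa6e45_co, stage 9: straight-side patterns with `8` sides, tables of tori (generated by a program).
-/

namespace Pool.Agent.Lib_MP_fa6e45

/-- the torus -/
def ttd8k_44 : TT where
  k := 8
  rf := [false, false, true, true, false, true, true, false]
  tau := [9, 20, 21, 24, 17, 18, 11, 10, 19, 0, 7, 6, 36, 39, 38, 37, 25, 4, 5, 8, 1, 2, 27, 26, 3, 16, 23, 22, 44,
    47, 46, 45, 51, 56, 63, 62, 12, 15, 14, 13, 59, 48, 55, 54, 28, 31, 30, 29, 41, 60, 61, 32, 57, 58, 43, 42, 33,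
    52, 53, 40, 49, 50, 35, 34]
  par := [0, 0, 1, 3, 12, 28, 32, 33]
  stars := [[0, 10], [1, 9, 20], [2, 21], [3, 22, 28, 45, 24], [4, 25, 17], [5, 18], [6, 19, 8, 37, 12], [7, 11],
    [13, 36, 62, 51, 32], [14, 39], [15, 38], [16, 26], [23, 27], [29, 40, 59, 54, 44], [30, 47], [31, 46], [33, 52,
    57], [34, 56], [35, 63], [41, 49, 60], [42, 48], [43, 55], [50, 61], [53, 58]]
  word := [[], [], [], [], [1], [1], [1, 3, 0, 2], [1, 3, 0, 2], [], [], [3, 1, 2, 0], [3, 1, 2, 0], [], [3, 0, 2],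
    [3, 0, 2], [3, 0, 2], [0], [0], [0], [], [], [], [0], [0], [], [1], [1], [1], [], [0], [0], [0], [], [], [], [],
    [], [3, 1, 2], [3, 1, 2], [3, 1, 2], [1, 2], [2], [2], [2], [], [1], [1], [1], [3], [3, 1, 2], [3, 1, 2], [], [],
    [], [3], [3], [], [], [], [3, 0], [3, 0, 2], [3, 0, 2], [], []]
  rank := [0, 0, 1, 0, 6, 7, 9, 10, 1, 0, 10, 9, 0, 6, 7, 8, 5, 6, 7, 1, 0, 1, 3, 4, 0, 5, 4, 3, 0, 0, 1, 2, 0, 0, 1,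
    2, 0, 8, 7, 6, 3, 1, 0, 1, 0, 2, 1, 0, 1, 4, 5, 0, 1, 2, 1, 0, 0, 1, 2, 3, 4, 5, 2, 1]
  just := [0, 0, 2, 0, 4, 5, 6, 7, 1, 0, 7, 6, 0, 8, 9, 10, 11, 4, 5, 1, 0, 2, 3, 12, 0, 11, 12, 3, 0, 0, 14, 15, 0,
    0, 17, 18, 0, 10, 9, 8, 13, 20, 0, 21, 0, 15, 14, 0, 20, 19, 22, 0, 16, 23, 21, 0, 0, 16, 23, 13, 19, 22, 18, 17]
  gA := 29
  gB := 42
  fin := 0
  sid := [0, 1, 2, 3, 4, 5, 6, 7, 6, 1, 0, 7, 6, 8, 9, 10, 11, 4, 5, 6, 1, 2, 3, 12, 3, 4, 11, 12, 3, 13, 14, 15, 8,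
    16, 17, 18, 8, 6, 10, 9, 13, 19, 20, 21, 13, 3, 15, 14, 20, 19, 22, 8, 16, 23, 13, 21, 17, 16, 23, 13, 19, 22, 8,
    18]
  off := [(0, 0), (0, 0), (0, 0), (0, 0), (0, 0), (0, 0), (0, 0), (0, 0), (1, 0), (0, 0), (0, 0), (0, 0), (0, 0), (0,
    0), (0, 0), (0, 0), (0, 0), (1, 0), (1, 0), (1, 0), (0, 0), (0, 0), (0, 0), (0, 0), (0, 0), (0, 0), (-1, 0), (-1,
    0), (-1, 0), (0, 0), (0, 0), (0, 0), (-1, 0), (0, 0), (0, 0), (0, 0), (0, 0), (0, 0), (-1, 0), (-1, 0), (-1, 0),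
    (0, 0), (0, 0), (0, 0), (0, 0), (-1, 0), (-1, 0), (-1, 0), (0, -1), (0, -1), (0, 0), (-1, 0), (0, 0), (0, 0), (0,
    -1), (0, -1), (0, 0), (0, 0), (0, 0), (0, -1), (1, -1), (1, 0), (0, 0), (0, 0)]

/-- glued arcs and equations -/
def tord8k_44 : TorT :=
  ⟨[(0, 1, true), (0, 3, false), (1, 4, false), (2, 5, false), (2, 7, true), (3, 6, true), (4, 4, true), (5, 7,
    true), (6, 6, true)],
    [([0, 0, 0, 0, 0, 0, 1, 1], 2), ([0, 0, 0, 1, 0, 0, 0, 1], 2), ([0, 0, 1, 0, 0, 1, 0, 0], 2), ([0, 2, 0, 0, 1, 0,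
    0, 0], 2), ([1, 0, 0, 1, 1, 1, 1, 0], 2), ([1, 0, 1, 0, 0, 0, 0, 0], 2)]⟩

theorem tord8k_44_ok : tord8k_44.OK 8 := TT.leaf_ok (T := ttd8k_44) (by decide +kernel)

/-- the torus -/
def ttd8k_45 : TT where
  k := 8
  rf := [false, false, true, true, true, false, true, false]
  tau := [15, 23, 24, 25, 26, 36, 30, 17, 18, 19, 20, 43, 53, 45, 22, 0, 31, 7, 8, 9, 10, 44, 14, 1, 2, 3, 4, 35, 61,
    37, 6, 16, 58, 59, 60, 27, 5, 29, 62, 48, 50, 51, 52, 11, 21, 13, 54, 56, 39, 63, 40, 41, 42, 12, 46, 57, 47, 55,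
    32, 33, 34, 28, 38, 49]
  par := [0, 0, 1, 2, 5, 11, 12, 28]
  stars := [[0, 18, 8], [1, 15, 23], [2, 16, 24], [3, 25], [4, 26], [5, 27, 36], [6, 37, 30], [7, 31, 17], [9, 19],
    [10, 20], [11, 21, 44], [12, 43, 53], [13, 54, 46], [14, 45, 22], [28, 61, 35], [29, 38, 62], [32, 58, 48], [33,
    59], [34, 60], [39, 49, 63], [40, 56, 50], [41, 51], [42, 52], [47, 55, 57]]
  word := [[], [], [], [], [], [], [3, 0, 2], [3, 0, 2], [0], [0], [0], [], [], [1], [], [], [], [3, 1, 2], [1], [1],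
    [1], [1], [], [], [], [], [], [], [], [3, 1, 2], [3, 1, 2], [], [], [], [], [], [], [3, 0, 2], [3, 0, 2], [3, 0],
    [], [], [], [], [0], [0], [0], [2], [1, 2], [2], [], [], [], [], [1], [1, 2], [3], [3, 0], [], [], [], [], [3, 1,
    2], [3]]
  rank := [0, 0, 0, 1, 2, 0, 10, 11, 5, 4, 3, 0, 0, 1, 1, 0, 1, 11, 5, 4, 3, 2, 1, 0, 0, 1, 2, 3, 0, 9, 10, 1, 6, 5,
    4, 3, 0, 9, 8, 7, 3, 2, 1, 0, 2, 1, 0, 0, 7, 4, 3, 2, 1, 0, 0, 1, 0, 1, 6, 5, 4, 0, 8, 4]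
  just := [0, 0, 0, 3, 4, 0, 6, 7, 8, 9, 10, 0, 0, 12, 1, 0, 2, 7, 8, 9, 10, 13, 1, 0, 0, 3, 4, 5, 0, 15, 6, 2, 17,
    18, 14, 5, 0, 15, 19, 16, 21, 22, 11, 0, 13, 12, 0, 0, 16, 20, 21, 22, 11, 0, 0, 23, 0, 23, 17, 18, 14, 0, 19, 20]
  gA := 46
  gB := 47
  fin := 0
  sid := [0, 1, 2, 3, 4, 5, 6, 7, 0, 8, 9, 10, 11, 12, 13, 1, 2, 7, 0, 8, 9, 10, 13, 1, 2, 3, 4, 5, 14, 15, 6, 7, 16,
    17, 18, 14, 5, 6, 15, 19, 20, 21, 22, 11, 10, 13, 12, 23, 16, 19, 20, 21, 22, 11, 12, 23, 20, 23, 16, 17, 18, 14,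
    15, 19]
  off := [(0, 0), (0, 0), (0, 0), (0, 0), (0, 0), (0, 0), (0, 0), (0, 0), (0, 0), (0, 0), (0, 0), (0, 0), (0, 0), (0,
    0), (0, 0), (0, 0), (0, 0), (-1, 0), (-1, 0), (-1, 0), (-1, 0), (-1, 0), (0, 0), (0, 0), (0, 0), (0, 0), (0, 0),
    (0, 0), (0, 0), (0, 0), (-1, 0), (-1, 0), (0, 0), (0, 0), (0, 0), (0, 0), (0, 0), (0, 0), (1, 0), (0, 0), (0, 0),
    (0, 0), (0, 0), (0, 0), (0, 0), (1, 0), (1, 0), (0, 0), (-1, 1), (-1, 1), (0, 0), (0, 0), (0, 0), (0, 0), (0, 0),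
    (-1, 0), (0, -1), (0, -1), (0, 0), (0, 0), (0, 0), (0, 0), (0, 0), (-1, 0)]

/-- glued arcs and equations -/
def tord8k_45 : TorT :=
  ⟨[(0, 2, false), (0, 7, true), (1, 3, false), (1, 7, false), (2, 4, false), (3, 3, true), (4, 5, false), (5, 5,
    true), (6, 6, false)],
    [([0, 0, 0, 0, 0, 1, 2, 0], 2), ([0, 0, 0, 1, 1, 1, 0, 0], 2), ([0, 0, 1, 0, 1, 0, 0, 0], 2), ([0, 1, 0, 0, 0, 0,
    0, 2], 2), ([0, 1, 0, 1, 0, 0, 0, 0], 2), ([2, 0, 1, 0, 0, 0, 0, 0], 2)]⟩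

theorem tord8k_45_ok : tord8k_45.OK 8 := TT.leaf_ok (T := ttd8k_45) (by decide +kernel)

/-- the torus -/
def ttd8k_46 : TT where
  k := 8
  rf := [false, false, false, true, false, true, true, true]
  tau := [8, 23, 22, 27, 16, 15, 14, 13, 0, 39, 38, 43, 32, 7, 6, 5, 4, 28, 29, 51, 25, 26, 2, 1, 52, 20, 21, 3, 17,
    18, 50, 49, 12, 44, 45, 59, 41, 42, 10, 9, 60, 36, 37, 11, 33, 34, 58, 57, 56, 31, 30, 19, 24, 63, 62, 61, 48,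
    47, 46, 35, 40, 55, 54, 53]
  par := [0, 0, 1, 3, 9, 11, 19, 35]
  stars := [[0, 13, 32, 9], [1, 8, 5, 16], [2, 23], [3, 22, 27], [4, 28, 17], [6, 15], [7, 14], [10, 39], [11, 38,
    43], [12, 44, 33], [18, 29], [19, 30, 51], [20, 52, 25], [21, 26], [24, 53, 56, 49], [31, 50], [34, 45], [35, 46,
    59], [36, 60, 41], [37, 42], [40, 61, 48, 57], [47, 58], [54, 63], [55, 62]]
  word := [[], [], [], [], [0], [0], [0], [0], [], [], [], [], [3, 1, 2], [1], [1], [1], [1], [1], [1], [], [], [],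
    [], [], [], [], [], [], [0], [0], [0], [0], [3, 0, 2], [3, 0, 2], [3, 0, 2], [], [], [], [], [], [], [], [], [],
    [3, 1, 2], [3, 1, 2], [3, 1, 2], [3, 1, 2], [1, 2], [1], [1], [], [], [2], [2], [2], [3, 0], [3, 0, 2], [3, 0,
    2], [], [], [3], [3], [3]]
  rank := [0, 0, 1, 0, 4, 5, 6, 7, 0, 0, 1, 0, 10, 7, 6, 5, 4, 3, 2, 0, 3, 2, 1, 0, 4, 3, 2, 0, 3, 2, 1, 0, 10, 9, 8,
    0, 3, 2, 1, 0, 4, 3, 2, 0, 9, 8, 7, 6, 5, 0, 1, 0, 4, 1, 0, 1, 5, 6, 7, 0, 4, 1, 0, 1]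
  just := [0, 0, 2, 0, 4, 1, 5, 6, 0, 0, 7, 0, 9, 6, 5, 1, 4, 10, 11, 0, 13, 3, 2, 0, 12, 13, 3, 0, 10, 11, 15, 0, 9,
    16, 17, 0, 19, 8, 7, 0, 18, 19, 8, 0, 16, 17, 21, 20, 14, 0, 15, 0, 12, 22, 0, 23, 14, 20, 21, 0, 18, 23, 0, 22]
  gA := 31
  gB := 54
  fin := 0
  sid := [0, 1, 2, 3, 4, 1, 5, 6, 1, 0, 7, 8, 9, 0, 6, 5, 1, 4, 10, 11, 12, 13, 3, 2, 14, 12, 13, 3, 4, 10, 11, 15,
    0, 9, 16, 17, 18, 19, 8, 7, 20, 18, 19, 8, 9, 16, 17, 21, 20, 14, 15, 11, 12, 14, 22, 23, 14, 20, 21, 17, 18, 20,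
    23, 22]
  off := [(0, 0), (0, 0), (0, 0), (0, 0), (0, 0), (1, 0), (0, 0), (0, 0), (0, 0), (0, 0), (0, 0), (0, 0), (0, 0),
    (-1, 0), (-1, 0), (-1, 0), (0, 0), (-1, 0), (0, 0), (0, 0), (0, 0), (0, 0), (0, 0), (0, 0), (0, 0), (0, 0), (0,
    0), (0, 0), (0, 0), (1, 0), (1, 0), (0, 0), (0, 0), (1, 0), (0, 0), (0, 0), (0, 0), (0, 0), (0, 0), (0, 0), (0,
    0), (0, 0), (0, 0), (0, 0), (0, 0), (-1, 0), (-1, 0), (0, 0), (0, 1), (-1, 0), (-1, 0), (0, 0), (0, 0), (0, 0),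
    (0, 0), (0, 0), (0, -1), (1, 0), (1, 0), (0, 0), (0, 0), (0, 0), (0, -1), (0, -1)]

/-- glued arcs and equations -/
def tord8k_46 : TorT :=
  ⟨[(0, 0, true), (0, 4, true), (1, 4, false), (1, 7, true), (2, 5, false), (2, 6, true), (3, 3, false), (5, 7,
    true), (6, 6, true)],
    [([0, 0, 0, 0, 0, 0, 1, 1], 2), ([0, 0, 0, 2, 0, 0, 1, 0], 2), ([0, 0, 1, 0, 0, 0, 0, 1], 2), ([0, 0, 1, 0, 0, 1,
    0, 0], 2), ([0, 1, 0, 0, 2, 0, 0, 0], 2), ([2, 1, 0, 0, 0, 1, 0, 0], 2)]⟩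

theorem tord8k_46_ok : tord8k_46.OK 8 := TT.leaf_ok (T := ttd8k_46) (by decide +kernel)

/-- the torus -/
def ttd8k_47 : TT where
  k := 8
  rf := [false, false, false, false, true, true, true, true]
  tau := [10, 9, 8, 20, 12, 27, 26, 39, 2, 1, 0, 28, 4, 19, 18, 47, 45, 46, 14, 13, 3, 40, 41, 55, 37, 38, 6, 5, 11,
    32, 33, 63, 29, 30, 62, 61, 51, 24, 25, 7, 21, 22, 54, 53, 59, 16, 17, 15, 58, 57, 56, 36, 60, 43, 42, 23, 50,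
    49, 48, 44, 52, 35, 34, 31]
  par := [0, 0, 3, 5, 7, 15, 23, 31]
  stars := [[0, 32, 29, 11], [1, 10], [2, 9], [3, 8, 40, 21], [4, 20, 13], [5, 12, 28], [6, 27], [7, 26, 39], [14,
    19], [15, 18, 47], [16, 48, 59, 45], [17, 46], [22, 41], [23, 42, 55], [24, 56, 51, 37], [25, 38], [30, 33], [31,
    34, 63], [35, 62], [36, 52, 61], [43, 54], [44, 60, 53], [49, 58], [50, 57]]
  word := [[], [], [], [], [2, 1], [], [], [], [], [], [], [0, 3], [0, 3], [0, 3], [0, 3], [], [2, 1], [2, 1], [2,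
    1], [2, 1], [], [], [], [], [], [], [], [], [2, 1], [1, 2], [1, 2], [], [3, 0], [3, 0], [3, 0], [3, 0], [3], [],
    [], [], [], [], [], [], [0], [0, 3], [0, 3], [], [2], [2], [2], [2], [0], [], [], [], [3], [3], [3], [1], [1],
    [1, 2], [1, 2], []]
  rank := [0, 1, 2, 0, 6, 0, 1, 0, 2, 1, 0, 7, 6, 5, 4, 0, 2, 3, 4, 5, 0, 3, 4, 0, 3, 2, 1, 0, 7, 11, 10, 0, 11, 10,
    9, 8, 4, 3, 2, 0, 3, 4, 5, 6, 0, 2, 3, 0, 1, 0, 1, 4, 7, 6, 5, 0, 1, 0, 1, 0, 7, 8, 9, 0]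
  just := [0, 1, 2, 0, 4, 0, 6, 0, 2, 1, 0, 5, 4, 8, 9, 0, 10, 11, 9, 8, 0, 3, 12, 0, 15, 7, 6, 0, 5, 16, 17, 0, 16,
    17, 18, 19, 14, 15, 7, 0, 3, 12, 13, 20, 0, 10, 11, 0, 22, 0, 23, 14, 21, 20, 13, 0, 23, 0, 22, 0, 21, 19, 18, 0]
  gA := 44
  gB := 49
  fin := 0
  sid := [0, 1, 2, 3, 4, 5, 6, 7, 3, 2, 1, 0, 5, 4, 8, 9, 10, 11, 9, 8, 4, 3, 12, 13, 14, 15, 7, 6, 5, 0, 16, 17, 0,
    16, 17, 18, 19, 14, 15, 7, 3, 12, 13, 20, 21, 10, 11, 9, 10, 22, 23, 14, 19, 21, 20, 13, 14, 23, 22, 10, 21, 19,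
    18, 17]
  off := [(0, 0), (0, 0), (0, 0), (0, 0), (0, 0), (0, 0), (0, 0), (0, 0), (0, 0), (0, 0), (0, 0), (0, 0), (1, -1),
    (1, -1), (0, 0), (0, 0), (0, 0), (0, 0), (-1, 1), (-1, 1), (0, 0), (0, 0), (0, 0), (0, 0), (0, 0), (0, 0), (0,
    0), (0, 0), (0, 0), (-1, 1), (0, 0), (0, 0), (0, 0), (1, -1), (1, -1), (0, 0), (0, 0), (0, 0), (0, 0), (0, 0),
    (0, 0), (0, 0), (0, 0), (0, 0), (0, 0), (1, -1), (1, -1), (0, 0), (0, 0), (0, 0), (0, 0), (0, 1), (0, 1), (0, 0),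
    (0, 0), (0, 0), (0, 0), (0, -1), (0, -1), (0, -1), (-1, 0), (-1, 1), (-1, 1), (0, 0)]

/-- glued arcs and equations -/
def tord8k_47 : TorT :=
  ⟨[(0, 2, true), (0, 5, false), (1, 1, true), (1, 6, false), (2, 6, true), (3, 4, true), (3, 5, true), (4, 4, true),
    (7, 7, false)],
    [([0, 0, 0, 0, 2, 1, 0, 0], 2), ([0, 0, 0, 1, 0, 0, 1, 0], 2), ([0, 0, 1, 0, 0, 0, 0, 2], 2), ([0, 1, 0, 0, 0, 0,
    1, 0], 2), ([0, 1, 1, 0, 0, 0, 0, 0], 2), ([2, 0, 0, 1, 0, 1, 0, 0], 2)]⟩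

theorem tord8k_47_ok : tord8k_47.OK 8 := TT.leaf_ok (T := ttd8k_47) (by decide +kernel)

/-- the torus -/
def ttd8k_48 : TT where
  k := 8
  rf := [false, false, false, true, false, true, true, true]
  tau := [8, 15, 17, 16, 12, 29, 34, 9, 0, 7, 33, 32, 4, 45, 18, 1, 3, 2, 14, 46, 47, 53, 43, 44, 51, 50, 62, 38, 39,
    5, 35, 36, 11, 10, 6, 30, 31, 61, 27, 28, 59, 58, 54, 22, 23, 13, 19, 20, 56, 63, 25, 24, 60, 21, 42, 57, 48, 55,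
    41, 40, 52, 37, 26, 49]
  par := [0, 0, 2, 5, 6, 13, 21, 26]
  stars := [[0, 9], [1, 8], [2, 15, 18], [3, 17], [4, 16, 45, 13], [5, 12, 32, 29], [6, 30, 35], [7, 34, 10], [11,
    33], [14, 46, 19], [20, 47], [21, 40, 60, 53], [22, 54, 43], [23, 44], [24, 52, 61, 37], [25, 51], [26, 63, 50],
    [27, 38, 62], [28, 39], [31, 36], [41, 59], [42, 55, 58], [48, 57], [49, 56]]
  word := [[], [], [], [], [2, 1], [], [], [3, 0, 2, 1], [], [0, 3, 1, 2], [0, 3, 1, 2], [0, 3, 1, 2], [0, 3], [],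
    [], [], [], [], [], [], [], [], [2, 1], [2, 1], [3], [3], [], [1, 2], [1, 2], [], [], [], [3, 0, 2, 1], [3, 0, 2,
    1], [], [], [], [3, 0], [3, 0], [3, 0], [0], [0], [0, 3], [0, 3], [0, 3], [], [], [], [2], [2], [2], [2], [0],
    [], [2, 1], [2], [3], [3], [1], [1], [1], [1, 2], [], [3]]
  rank := [0, 1, 0, 1, 6, 0, 0, 11, 0, 11, 10, 9, 6, 0, 2, 1, 1, 0, 2, 3, 4, 0, 4, 5, 2, 1, 0, 7, 8, 0, 1, 2, 9, 10,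
    0, 1, 2, 6, 7, 8, 0, 1, 3, 4, 5, 0, 3, 4, 1, 0, 1, 2, 5, 0, 3, 2, 1, 2, 1, 0, 5, 6, 0, 0]
  just := [0, 1, 0, 3, 4, 0, 0, 7, 0, 7, 8, 5, 4, 0, 2, 1, 3, 0, 2, 9, 10, 0, 12, 13, 15, 16, 0, 17, 18, 0, 6, 19, 5,
    8, 0, 6, 19, 14, 17, 18, 0, 20, 21, 12, 13, 0, 9, 10, 23, 0, 16, 15, 11, 0, 21, 22, 23, 22, 20, 0, 11, 14, 0, 0]
  gA := 40
  gB := 49
  fin := 0
  sid := [0, 1, 2, 3, 4, 5, 6, 7, 1, 0, 7, 8, 5, 4, 9, 2, 4, 3, 2, 9, 10, 11, 12, 13, 14, 15, 16, 17, 18, 5, 6, 19,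
    5, 8, 7, 6, 19, 14, 17, 18, 11, 20, 21, 12, 13, 4, 9, 10, 22, 23, 16, 15, 14, 11, 12, 21, 23, 22, 21, 20, 11, 14,
    17, 16]
  off := [(0, 0), (0, 0), (0, 0), (0, 0), (0, 0), (0, 0), (0, 0), (0, 0), (0, 0), (0, 0), (0, 0), (0, 0), (1, -1),
    (1, -1), (0, 0), (0, 0), (0, 0), (0, 0), (0, 0), (0, 0), (0, 0), (0, 0), (0, 0), (0, 0), (0, 0), (0, 0), (0, 0),
    (0, 0), (0, 0), (0, 0), (0, 0), (0, 0), (1, -1), (0, 0), (0, 0), (0, 0), (0, 0), (0, 0), (1, -1), (1, -1), (0,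
    0), (0, 0), (0, 0), (1, -1), (1, -1), (1, -1), (0, 0), (0, 0), (0, 0), (0, 0), (0, 1), (0, 1), (0, 1), (0, 0),
    (0, 0), (-1, 1), (0, -1), (0, -1), (-1, 0), (-1, 0), (-1, 0), (-1, 1), (0, 0), (0, 0)]

/-- glued arcs and equations -/
def tord8k_48 : TorT :=
  ⟨[(0, 0, true), (0, 3, true), (1, 2, true), (1, 7, true), (2, 6, true), (3, 6, false), (4, 4, true), (4, 7, false),
    (5, 5, false)],
    [([0, 0, 0, 0, 1, 0, 0, 1], 2), ([0, 0, 0, 1, 0, 0, 2, 0], 2), ([0, 0, 2, 0, 0, 0, 0, 1], 2), ([0, 1, 0, 1, 0, 0,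
    0, 0], 2), ([1, 0, 0, 0, 1, 2, 0, 0], 2), ([1, 1, 0, 0, 0, 0, 0, 0], 2)]⟩

theorem tord8k_48_ok : tord8k_48.OK 8 := TT.leaf_ok (T := ttd8k_48) (by decide +kernel)

/-- the torus -/
def ttd8k_49 : TT where
  k := 4
  rf := [false, false, true, true]
  tau := [11, 19, 20, 17, 18, 10, 9, 8, 7, 6, 5, 0, 30, 31, 28, 29, 27, 3, 4, 1, 2, 26, 25, 24, 23, 22, 21, 16, 14,
    15, 12, 13]
  par := [0, 0, 1, 12]
  stars := [[0, 8, 30, 12], [1, 11, 5, 19], [2, 20], [3, 21, 27, 17], [4, 18], [6, 10], [7, 9], [13, 31], [14, 24,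
    16, 28], [15, 29], [22, 26], [23, 25]]
  word := [[], [], [], [0], [0], [0], [0], [0], [1], [1], [1], [], [], [], [3, 1, 2], [3, 1, 2], [1, 2], [1], [1],
    [], [], [2], [2], [2], [3], [3], [3], [3, 0], [3, 0, 2], [3, 0, 2], [], []]
  rank := [0, 0, 1, 0, 1, 2, 3, 4, 4, 3, 2, 0, 0, 1, 3, 4, 2, 0, 1, 0, 1, 1, 0, 1, 1, 0, 1, 2, 3, 4, 0, 1]
  just := [0, 0, 2, 0, 4, 1, 5, 6, 6, 5, 1, 0, 0, 7, 8, 9, 3, 0, 4, 0, 2, 10, 0, 11, 11, 0, 10, 3, 8, 9, 0, 7]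
  gA := 3
  gB := 22
  fin := 0
  sid := [0, 1, 2, 3, 4, 1, 5, 6, 0, 6, 5, 1, 0, 7, 8, 9, 8, 3, 4, 1, 2, 3, 10, 11, 8, 11, 10, 3, 8, 9, 0, 7]
  off := [(0, 0), (0, 0), (0, 0), (0, 0), (0, 0), (1, 0), (0, 0), (0, 0), (-1, 0), (-1, 0), (-1, 0), (0, 0), (0, 0),
    (0, 0), (0, 0), (0, 0), (0, 1), (-1, 0), (-1, 0), (0, 0), (0, 0), (0, 0), (0, 0), (0, 0), (0, 0), (0, -1), (0,
    -1), (0, -1), (1, 0), (1, 0), (0, 0), (0, 0)]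

/-- glued arcs and equations -/
def tord8k_49 : TorT :=
  ⟨[(0, 3, true), (0, 7, true), (1, 3, false), (1, 6, true), (2, 4, false), (2, 5, true), (4, 6, false), (5, 7,
    false)],
    [([0, 0, 0, 0, 0, 1, 0, 1], 2), ([0, 0, 1, 0, 0, 0, 1, 0], 2), ([0, 0, 1, 0, 1, 0, 0, 0], 2), ([0, 1, 0, 0, 0, 0,
    0, 1], 2), ([0, 1, 0, 2, 0, 1, 0, 0], 2), ([2, 0, 0, 0, 1, 0, 1, 0], 2)]⟩

theorem tord8k_49_ok : tord8k_49.OK 8 := TT.leaf_ok (T := ttd8k_49) (by decide +kernel)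

/-- the torus -/
def ttd8k_50 : TT where
  k := 4
  rf := [false, false, true, true]
  tau := [9, 19, 20, 21, 22, 31, 15, 29, 18, 0, 16, 25, 26, 27, 28, 6, 10, 24, 8, 1, 2, 3, 4, 30, 17, 11, 12, 13, 14,
    7, 23, 5]
  par := [0, 0, 1, 5]
  stars := [[0, 30, 16, 10], [1, 9, 19], [2, 20], [3, 21], [4, 22], [5, 23, 31], [6, 24, 18, 8], [7, 15, 29], [11,
    17, 25], [12, 26], [13, 27], [14, 28]]
  word := [[], [], [], [], [], [], [3], [3, 0], [], [], [0, 3], [0], [0], [0], [0], [2], [2, 1], [2], [], [], [], [],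
    [], [], [3], [1], [1], [1], [1], [1, 2], [], []]
  rank := [0, 0, 1, 2, 3, 0, 2, 3, 1, 0, 2, 1, 0, 1, 2, 2, 2, 0, 1, 0, 1, 2, 3, 4, 0, 1, 0, 1, 2, 3, 4, 0]
  just := [0, 0, 2, 3, 4, 0, 6, 7, 1, 0, 8, 9, 0, 10, 11, 6, 8, 0, 1, 0, 2, 3, 4, 5, 0, 9, 0, 10, 11, 7, 5, 0]
  gA := 12
  gB := 17
  fin := 0
  sid := [0, 1, 2, 3, 4, 5, 6, 7, 6, 1, 0, 8, 9, 10, 11, 7, 0, 8, 6, 1, 2, 3, 4, 5, 6, 8, 9, 10, 11, 7, 0, 5]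
  off := [(0, 0), (0, 0), (0, 0), (0, 0), (0, 0), (0, 0), (0, 0), (0, 0), (0, 1), (0, 0), (0, 0), (0, 0), (0, 0), (0,
    0), (0, 0), (0, 1), (-1, 1), (-1, 1), (0, 1), (0, 0), (0, 0), (0, 0), (0, 0), (0, 0), (0, 0), (-1, 0), (-1, 0),
    (-1, 0), (-1, 0), (-1, 1), (-1, 1), (0, 0)]

/-- glued arcs and equations -/
def tord8k_50 : TorT :=
  ⟨[(0, 1, true), (0, 2, false), (1, 3, false), (2, 4, false), (3, 5, false), (4, 6, false), (5, 7, false), (6, 7,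
    true)],
    [([0, 0, 0, 0, 0, 1, 0, 2], 2), ([0, 0, 0, 0, 1, 0, 1, 0], 2), ([0, 0, 0, 1, 0, 1, 0, 0], 2), ([0, 0, 1, 0, 1, 0,
    0, 0], 2), ([0, 2, 0, 1, 0, 0, 0, 0], 2), ([2, 0, 1, 0, 0, 0, 1, 0], 2)]⟩

theorem tord8k_50_ok : tord8k_50.OK 8 := TT.leaf_ok (T := ttd8k_50) (by decide +kernel)

/-- the torus -/
def ttd8k_51 : TT where
  k := 8
  rf := [false, true, false, false, true, true, false, true]
  tau := [10, 4, 18, 19, 1, 11, 8, 9, 6, 7, 0, 5, 30, 31, 28, 29, 34, 20, 2, 3, 17, 35, 32, 33, 46, 47, 40, 45, 14,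
    15, 12, 13, 22, 23, 16, 21, 54, 55, 52, 53, 26, 44, 58, 59, 41, 27, 24, 25, 62, 63, 56, 61, 38, 39, 36, 37, 50,
    60, 42, 43, 57, 51, 48, 49]
  par := [0, 0, 2, 12, 16, 24, 36, 42]
  stars := [[0, 10], [1, 11, 5], [2, 4, 19], [3, 18, 20], [6, 12, 30, 8], [7, 9], [13, 31], [14, 28, 46, 24], [15,
    29], [16, 34], [17, 35, 21], [22, 36, 54, 32], [23, 33], [25, 47], [26, 40], [27, 41, 45], [37, 55], [38, 52, 62,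
    48], [39, 53], [42, 59, 44], [43, 60, 58], [49, 63], [50, 56], [51, 57, 61]]
  word := [[], [0, 3], [], [2, 1], [2, 1], [2, 1], [2, 1, 3, 0], [2, 1, 3, 0], [1, 2, 0, 3], [1, 2, 0, 3], [], [0,
    3], [], [], [1, 2], [1, 2], [], [2, 1], [], [0, 3], [0, 3], [0, 3], [], [], [], [], [], [3, 0], [3, 0], [3, 0],
    [], [], [], [], [], [2, 1], [], [], [0, 3], [0, 3], [], [3, 0], [], [1, 2], [1, 2], [1, 2], [], [], [0], [0],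
    [0], [2], [2, 1], [2, 1], [], [], [1], [1, 2], [], [3, 0], [3, 0], [3], [1], [1]]
  rank := [0, 7, 0, 6, 7, 8, 9, 10, 9, 10, 0, 8, 0, 1, 6, 7, 0, 5, 0, 6, 5, 4, 2, 1, 0, 1, 2, 5, 6, 7, 0, 1, 2, 1, 0,
    4, 0, 1, 2, 3, 2, 4, 0, 3, 4, 5, 0, 1, 1, 0, 1, 0, 2, 3, 0, 1, 1, 2, 0, 3, 2, 0, 1, 0]
  just := [0, 2, 0, 3, 2, 1, 4, 5, 4, 5, 0, 1, 0, 6, 7, 8, 0, 10, 0, 3, 10, 11, 12, 9, 0, 13, 14, 15, 7, 8, 0, 6, 12,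
    9, 0, 11, 0, 16, 17, 18, 14, 19, 0, 20, 19, 15, 0, 13, 21, 0, 22, 0, 17, 18, 0, 16, 22, 23, 0, 20, 23, 0, 21, 0]
  gA := 49
  gB := 51
  fin := 0
  sid := [0, 1, 2, 3, 2, 1, 4, 5, 4, 5, 0, 1, 4, 6, 7, 8, 9, 10, 3, 2, 3, 10, 11, 12, 7, 13, 14, 15, 7, 8, 4, 6, 11,
    12, 9, 10, 11, 16, 17, 18, 14, 15, 19, 20, 19, 15, 7, 13, 17, 21, 22, 23, 17, 18, 11, 16, 22, 23, 20, 19, 20, 23,
    17, 21]
  off := [(0, 0), (0, 0), (0, 0), (0, 0), (-1, 1), (-1, 1), (0, 0), (0, 0), (0, 0), (0, 0), (0, 0), (0, 0), (1, -1),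
    (0, 0), (0, 0), (0, 0), (0, 0), (0, 0), (0, 0), (0, 0), (1, -1), (1, -1), (0, 0), (0, 0), (0, 0), (0, 0), (0, 0),
    (0, 0), (1, -1), (1, -1), (1, -1), (0, 0), (0, 0), (0, 0), (0, 0), (0, 0), (-1, 1), (0, 0), (0, 0), (0, 0), (0,
    0), (0, 0), (0, 0), (0, 0), (-1, 1), (-1, 1), (0, 0), (0, 0), (0, 0), (0, 0), (0, 0), (0, 0), (-1, 1), (-1, 1),
    (-1, 1), (0, 0), (-1, 0), (-1, 0), (0, 0), (0, 0), (1, -1), (0, -1), (-1, 0), (-1, 0)]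

/-- glued arcs and equations -/
def tord8k_51 : TorT :=
  ⟨[(0, 2, false), (0, 6, false), (1, 4, true), (1, 7, false), (2, 2, true), (3, 3, true), (3, 5, false), (4, 6,
    false), (5, 7, false)],
    [([0, 0, 0, 0, 0, 1, 0, 1], 2), ([0, 0, 1, 1, 1, 0, 0, 0], 2), ([0, 1, 0, 0, 0, 0, 0, 1], 2), ([0, 1, 0, 1, 0, 1,
    0, 0], 2), ([1, 0, 0, 0, 1, 0, 2, 0], 2), ([1, 0, 1, 0, 0, 0, 0, 0], 2)]⟩

theorem tord8k_51_ok : tord8k_51.OK 8 := TT.leaf_ok (T := ttd8k_51) (by decide +kernel)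

/-- the torus -/
def ttd8k_52 : TT where
  k := 8
  rf := [false, false, false, true, false, true, true, true]
  tau := [15, 14, 13, 6, 20, 21, 3, 12, 26, 27, 24, 25, 7, 2, 1, 0, 39, 38, 37, 22, 4, 5, 19, 36, 10, 11, 8, 9, 47,
    42, 41, 40, 50, 51, 48, 49, 23, 18, 17, 16, 31, 30, 29, 46, 60, 61, 43, 28, 34, 35, 32, 33, 63, 58, 57, 56, 55,
    54, 53, 62, 44, 45, 59, 52]
  par := [0, 0, 4, 8, 16, 28, 32, 44]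
  stars := [[0, 12, 26, 8], [1, 15], [2, 14], [3, 13, 7], [4, 6, 21], [5, 20, 22], [9, 27], [10, 28, 40, 24], [11,
    25], [16, 36, 50, 32], [17, 39], [18, 38], [19, 37, 23], [29, 43, 47], [30, 42], [31, 41], [33, 51], [34, 52, 56,
    48], [35, 49], [44, 61, 46], [45, 62, 60], [53, 59, 63], [54, 58], [55, 57]]
  word := [[], [], [], [0, 3, 1], [], [0, 2, 1], [0, 2, 1], [0, 2, 1], [], [], [3], [3], [0, 3, 1], [], [], [], [],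
    [], [], [0, 2, 1], [], [0, 3, 1], [0, 3, 1], [0, 3, 1], [2], [2], [], [], [], [2], [2], [2], [], [], [0, 2, 1],
    [0, 2, 1], [0, 2, 1], [], [], [], [3], [3], [3], [3], [], [2], [2], [], [0, 3, 1], [0, 3, 1], [], [], [0, 2],
    [0], [0], [0], [1], [1], [1], [2], [], [3], [3], [3, 1]]
  rank := [0, 1, 2, 8, 0, 7, 8, 9, 0, 1, 6, 7, 9, 2, 1, 0, 0, 1, 2, 6, 0, 7, 6, 5, 6, 7, 0, 1, 0, 3, 4, 5, 0, 1, 3,
    4, 5, 2, 1, 0, 5, 4, 3, 2, 0, 1, 2, 0, 3, 4, 0, 1, 2, 1, 0, 1, 1, 0, 1, 0, 0, 1, 0, 2]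
  just := [0, 1, 2, 4, 0, 5, 4, 3, 0, 6, 7, 8, 3, 2, 1, 0, 0, 10, 11, 12, 0, 5, 12, 9, 7, 8, 0, 6, 0, 13, 14, 15, 0,
    16, 17, 18, 9, 11, 10, 0, 15, 14, 13, 19, 0, 20, 19, 0, 17, 18, 0, 16, 21, 22, 0, 23, 23, 0, 22, 0, 0, 20, 0, 21]
  gA := 54
  gB := 59
  fin := 0
  sid := [0, 1, 2, 3, 4, 5, 4, 3, 0, 6, 7, 8, 0, 3, 2, 1, 9, 10, 11, 12, 5, 4, 5, 12, 7, 8, 0, 6, 7, 13, 14, 15, 9,
    16, 17, 18, 9, 12, 11, 10, 7, 15, 14, 13, 19, 20, 19, 13, 17, 18, 9, 16, 17, 21, 22, 23, 17, 23, 22, 21, 20, 19,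
    20, 21]
  off := [(0, 0), (0, 0), (0, 0), (0, 0), (0, 0), (0, 0), (0, 1), (0, 1), (0, 0), (0, 0), (0, 0), (0, 0), (0, -1),
    (0, 0), (0, 0), (0, 0), (0, 0), (0, 0), (0, 0), (0, 0), (0, 0), (0, 0), (0, -1), (0, -1), (0, 1), (0, 1), (0, 0),
    (0, 0), (0, 0), (0, 0), (0, 0), (0, 0), (0, 0), (0, 0), (0, 0), (0, 0), (0, 1), (0, 0), (0, 0), (0, 0), (0, 0),
    (0, -1), (0, -1), (0, -1), (0, 0), (0, 0), (0, 1), (0, 0), (0, -1), (0, -1), (0, 0), (0, 0), (0, 0), (0, 0), (0,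
    0), (0, 0), (-1, -1), (-1, 0), (-1, 0), (-1, 0), (0, 0), (0, 0), (0, -1), (-1, -1)]

/-- glued arcs and equations -/
def tord8k_52 : TorT :=
  ⟨[(0, 2, false), (0, 7, true), (1, 3, false), (1, 6, true), (2, 5, true), (3, 6, true), (4, 4, true), (4, 7, true),
    (5, 5, true)],
    [([0, 0, 0, 0, 1, 1, 1, 0], 2), ([0, 0, 0, 1, 0, 1, 0, 1], 2), ([0, 0, 1, 0, 0, 0, 1, 0], 2), ([0, 1, 0, 0, 0, 0,
    0, 1], 2), ([0, 1, 0, 1, 0, 0, 0, 0], 2), ([2, 0, 1, 0, 1, 0, 0, 0], 2)]⟩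

theorem tord8k_52_ok : tord8k_52.OK 8 := TT.leaf_ok (T := ttd8k_52) (by decide +kernel)

/-- the torus -/
def ttd8k_53 : TT where
  k := 4
  rf := [false, false, true, true]
  tau := [9, 19, 20, 21, 30, 14, 28, 23, 18, 0, 16, 25, 26, 27, 5, 31, 10, 24, 8, 1, 2, 3, 29, 7, 17, 11, 12, 13, 6,
    22, 4, 15]
  par := [0, 0, 1, 4]
  stars := [[0, 16, 10], [1, 9, 19], [2, 20], [3, 21], [4, 22, 30], [5, 31, 15], [6, 14, 28], [7, 29, 23], [8, 24,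
    18], [11, 17, 25], [12, 26], [13, 27]]
  word := [[], [], [], [], [], [3], [3, 0], [3, 0], [], [], [0, 3], [0], [0], [0], [2], [2], [2, 1], [2], [], [], [],
    [], [], [1, 2], [3], [1], [1], [1], [1, 2], [], [], [3]]
  rank := [0, 0, 1, 2, 0, 1, 2, 4, 1, 0, 3, 1, 0, 1, 1, 0, 3, 2, 1, 0, 1, 2, 3, 4, 2, 1, 0, 1, 2, 3, 0, 0]
  just := [0, 0, 2, 3, 0, 5, 6, 7, 1, 0, 9, 10, 0, 11, 5, 0, 9, 8, 1, 0, 2, 3, 4, 7, 8, 10, 0, 11, 6, 4, 0, 0]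
  gA := 12
  gB := 15
  fin := 0
  sid := [0, 1, 2, 3, 4, 5, 6, 7, 8, 1, 0, 9, 10, 11, 6, 5, 0, 9, 8, 1, 2, 3, 4, 7, 8, 9, 10, 11, 6, 7, 4, 5]
  off := [(0, 0), (0, 0), (0, 0), (0, 0), (0, 0), (0, 0), (0, 0), (0, 0), (0, 0), (0, 0), (0, 0), (0, 0), (0, 0), (0,
    0), (0, 1), (0, 1), (-1, 1), (-1, 1), (0, 0), (0, 0), (0, 0), (0, 0), (0, 0), (-1, 1), (0, -1), (-1, 0), (-1, 0),
    (-1, 0), (-1, 1), (-1, 1), (0, 0), (0, 0)]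

/-- glued arcs and equations -/
def tord8k_53 : TorT :=
  ⟨[(0, 1, true), (0, 2, false), (1, 3, false), (2, 4, false), (3, 5, false), (4, 6, false), (5, 6, true), (7, 7,
    false)],
    [([0, 0, 0, 0, 0, 1, 0, 2], 2), ([0, 0, 0, 0, 1, 0, 2, 0], 2), ([0, 0, 0, 1, 0, 1, 0, 0], 2), ([0, 0, 1, 0, 1, 0,
    0, 0], 2), ([0, 2, 0, 1, 0, 0, 0, 0], 2), ([2, 0, 1, 0, 0, 0, 0, 0], 2)]⟩

theorem tord8k_53_ok : tord8k_53.OK 8 := TT.leaf_ok (T := ttd8k_53) (by decide +kernel)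

/-- the torus -/
def ttd8k_54 : TT where
  k := 8
  rf := [false, false, true, false, true, false, true, true]
  tau := [8, 9, 20, 21, 22, 25, 24, 19, 0, 1, 36, 37, 38, 41, 40, 35, 54, 53, 31, 7, 2, 3, 4, 26, 6, 5, 23, 55, 50,
    51, 52, 18, 62, 61, 47, 15, 10, 11, 12, 42, 14, 13, 39, 63, 58, 59, 60, 34, 56, 57, 28, 29, 30, 17, 16, 27, 48,
    49, 44, 45, 46, 33, 32, 43]
  par := [0, 0, 2, 5, 10, 13, 16, 32]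
  stars := [[0, 20, 2, 9], [1, 8, 36, 10], [3, 21], [4, 22], [5, 23, 26], [6, 25], [7, 24, 19], [11, 37], [12, 38],
    [13, 39, 42], [14, 41], [15, 40, 35], [16, 55, 27], [17, 54], [18, 31, 53], [28, 48, 57, 50], [29, 51], [30, 52],
    [32, 63, 43], [33, 62], [34, 47, 61], [44, 56, 49, 58], [45, 59], [46, 60]]
  word := [[], [1, 2], [], [], [], [], [], [0, 3], [], [3, 0], [], [], [], [], [], [1, 2], [], [], [2, 1], [2, 1],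
    [], [], [], [], [], [], [], [], [0, 3], [0, 3], [0, 3], [0, 3], [], [], [3, 0], [3, 0], [], [], [], [], [], [],
    [], [], [1, 2], [1, 2], [1, 2], [1, 2], [0], [2], [2, 1], [2, 1], [2, 1], [], [], [], [1], [3], [3, 0], [3, 0],
    [3, 0], [], [], []]
  rank := [0, 10, 0, 1, 2, 0, 1, 9, 0, 10, 0, 1, 2, 0, 1, 9, 0, 1, 8, 9, 0, 1, 2, 3, 1, 0, 3, 4, 5, 6, 7, 8, 0, 1, 8,
    9, 0, 1, 2, 3, 1, 0, 3, 4, 5, 6, 7, 8, 0, 0, 5, 6, 7, 1, 0, 4, 0, 0, 5, 6, 7, 1, 0, 4]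
  just := [0, 1, 0, 2, 3, 0, 5, 6, 0, 1, 0, 7, 8, 0, 10, 11, 0, 13, 14, 6, 0, 2, 3, 4, 5, 0, 4, 12, 15, 16, 17, 14,
    0, 19, 20, 11, 0, 7, 8, 9, 10, 0, 9, 18, 21, 22, 23, 20, 0, 0, 15, 16, 17, 13, 0, 12, 0, 0, 21, 22, 23, 19, 0, 18]
  gA := 48
  gB := 49
  fin := 0
  sid := [0, 1, 0, 2, 3, 4, 5, 6, 1, 0, 1, 7, 8, 9, 10, 11, 12, 13, 14, 6, 0, 2, 3, 4, 6, 5, 4, 12, 15, 16, 17, 14,
    18, 19, 20, 11, 1, 7, 8, 9, 11, 10, 9, 18, 21, 22, 23, 20, 15, 21, 15, 16, 17, 14, 13, 12, 21, 15, 21, 22, 23,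
    20, 19, 18]
  off := [(0, 0), (0, 0), (-1, 1), (0, 0), (0, 0), (0, 0), (0, 0), (0, 0), (0, 0), (0, 0), (1, -1), (0, 0), (0, 0),
    (0, 0), (0, 0), (0, 0), (0, 0), (0, 0), (0, 0), (-1, 1), (-1, 1), (0, 0), (0, 0), (0, 0), (0, 0), (0, 0), (0, 0),
    (0, 0), (0, 0), (0, 0), (0, 0), (1, -1), (0, 0), (0, 0), (0, 0), (1, -1), (1, -1), (0, 0), (0, 0), (0, 0), (0,
    0), (0, 0), (0, 0), (0, 0), (0, 0), (0, 0), (0, 0), (-1, 1), (0, 0), (1, 0), (-1, 1), (-1, 1), (-1, 1), (0, 0),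
    (0, 0), (0, 0), (0, 0), (-1, 0), (1, -1), (1, -1), (1, -1), (0, 0), (0, 0), (0, 0)]

/-- glued arcs and equations -/
def tord8k_54 : TorT :=
  ⟨[(0, 0, true), (0, 6, true), (1, 1, true), (1, 5, true), (2, 4, false), (2, 7, false), (3, 5, false), (3, 7,
    false), (4, 6, false)],
    [([0, 0, 0, 0, 1, 0, 1, 0], 2), ([0, 0, 0, 1, 0, 1, 0, 0], 2), ([0, 0, 1, 0, 0, 1, 0, 1], 2), ([0, 1, 0, 0, 0, 0,
    1, 0], 2), ([1, 0, 0, 1, 0, 0, 0, 1], 2), ([1, 1, 1, 0, 1, 0, 0, 0], 2)]⟩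

theorem tord8k_54_ok : tord8k_54.OK 8 := TT.leaf_ok (T := ttd8k_54) (by decide +kernel)

end Pool.Agent.Lib_MP_fa6e45
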