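import Pool.Agent.Lib_MP_fa6e45.CT5

/-!
MP_fa6e45_co, stage 9: straight-side patterns with `8` sides, tables of tori (generated by a program).
-/

namespace Pool.Agent.Lib_MP_fa6e45

/-- the torus -/
def ttd8k_55 : TT where
  k := 8
  rf := [false, false, true, false, true, false, true, true]
  tau := [11, 16, 13, 12, 28, 31, 30, 29, 33, 22, 23, 0, 3, 2, 17, 18, 1, 14, 15, 32, 35, 34, 9, 10, 43, 48, 45, 44,
    4, 7, 6, 5, 19, 8, 21, 20, 60, 63, 62, 61, 57, 54, 55, 24, 27, 26, 49, 50, 25, 46, 47, 56, 59, 58, 41, 42, 51,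
    40, 53, 52, 36, 39, 38, 37]
  par := [0, 0, 1, 4, 8, 24, 25, 36]
  stars := [[0, 29, 4, 12], [1, 11, 16], [2, 17, 14], [3, 13], [5, 28, 44, 24], [6, 31], [7, 30], [8, 19, 33], [9,
    34, 22], [10, 23], [15, 18], [20, 36, 61, 32], [21, 35], [25, 43, 48], [26, 49, 46], [27, 45], [37, 56, 52, 60],
    [38, 63], [39, 62], [40, 51, 57], [41, 58, 54], [42, 55], [47, 50], [53, 59]]
  word := [[], [], [1, 2], [1, 2], [], [0, 3], [0, 3], [0, 3], [], [], [], [], [3, 0], [3, 0], [3, 0], [3, 0], [],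
    [1, 2], [1, 2], [1, 2], [], [], [], [], [], [], [0, 3], [0, 3], [], [2, 1], [2, 1], [2, 1], [3, 0], [], [], [],
    [], [3, 0], [3, 0], [3, 0], [2], [], [], [], [2, 1], [2, 1], [2, 1], [2, 1], [], [0, 3], [0, 3], [0], [2], [2],
    [], [], [1], [3], [3], [3], [], [1, 2], [1, 2], [1, 2]]
  rank := [0, 0, 8, 9, 0, 8, 9, 10, 0, 2, 1, 0, 9, 8, 7, 6, 0, 7, 6, 5, 4, 3, 2, 1, 0, 0, 6, 7, 0, 10, 9, 8, 5, 0, 3,
    4, 0, 2, 3, 4, 3, 2, 1, 0, 7, 6, 5, 4, 0, 5, 4, 0, 1, 0, 2, 1, 0, 3, 0, 1, 0, 4, 3, 2]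
  just := [0, 0, 2, 3, 0, 4, 5, 6, 0, 9, 1, 0, 3, 2, 10, 7, 0, 10, 7, 11, 12, 8, 9, 1, 0, 0, 14, 15, 0, 6, 5, 4, 11,
    0, 8, 12, 0, 16, 17, 18, 20, 21, 13, 0, 15, 14, 22, 19, 0, 22, 19, 0, 23, 0, 21, 13, 0, 20, 0, 23, 0, 18, 17, 16]
  gA := 51
  gB := 53
  fin := 0
  sid := [0, 1, 2, 3, 0, 4, 5, 6, 7, 8, 9, 1, 0, 3, 2, 10, 1, 2, 10, 7, 11, 12, 8, 9, 4, 13, 14, 15, 4, 0, 6, 5, 11,
    7, 8, 12, 11, 16, 17, 18, 19, 20, 21, 13, 4, 15, 14, 22, 13, 14, 22, 19, 16, 23, 20, 21, 16, 19, 20, 23, 16, 11,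
    18, 17]
  off := [(0, 0), (0, 0), (0, 0), (0, 0), (-1, 1), (0, 0), (0, 0), (0, 0), (0, 0), (0, 0), (0, 0), (0, 0), (0, 0),
    (1, -1), (1, -1), (0, 0), (0, 0), (0, 0), (-1, 1), (-1, 1), (0, 0), (0, 0), (0, 0), (0, 0), (-1, 1), (0, 0), (0,
    0), (0, 0), (0, 0), (-1, 1), (-1, 1), (-1, 1), (1, -1), (0, 0), (0, 0), (0, 0), (0, 0), (0, 0), (0, 0), (0, 0),
    (0, 0), (0, 0), (0, 0), (0, 0), (-1, 1), (-1, 1), (-1, 1), (0, 0), (0, 0), (0, 0), (1, -1), (1, -1), (0, 1), (0,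
    0), (0, 0), (0, 0), (-1, 1), (0, -1), (0, -1), (0, -1), (0, 0), (0, 0), (-1, 1), (-1, 1)]

/-- glued arcs and equations -/
def tord8k_55 : TorT :=
  ⟨[(0, 1, false), (0, 3, true), (1, 6, false), (2, 5, true), (2, 7, false), (3, 4, true), (4, 4, true), (5, 7,
    true), (6, 6, true)],
    [([0, 0, 0, 0, 0, 0, 1, 1], 2), ([0, 0, 0, 1, 0, 1, 0, 0], 2), ([0, 0, 1, 0, 0, 0, 0, 1], 2), ([0, 1, 1, 0, 0, 0,
    1, 0], 2), ([1, 0, 0, 0, 2, 1, 0, 0], 2), ([1, 1, 0, 1, 0, 0, 0, 0], 2)]⟩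

theorem tord8k_55_ok : tord8k_55.OK 8 := TT.leaf_ok (T := ttd8k_55) (by decide +kernel)

/-- the torus -/
def ttd8k_56 : TT where
  k := 8
  rf := [false, false, true, false, true, false, true, true]
  tau := [8, 15, 16, 26, 20, 38, 39, 9, 0, 7, 32, 42, 36, 22, 23, 1, 2, 27, 51, 25, 4, 37, 13, 14, 50, 19, 3, 17, 52,
    45, 61, 62, 10, 43, 59, 41, 12, 21, 5, 6, 58, 35, 11, 33, 60, 29, 53, 54, 56, 63, 24, 18, 28, 46, 47, 57, 48, 55,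
    40, 34, 44, 30, 31, 49]
  par := [0, 0, 2, 3, 5, 11, 18, 30]
  stars := [[0, 9], [1, 8], [2, 15, 16], [3, 17, 27], [4, 26, 20], [5, 21, 38], [6, 39], [7, 32, 10], [11, 33, 43],
    [12, 42, 36], [13, 37, 22], [14, 23], [18, 52, 28], [19, 25, 51], [24, 63, 50], [29, 53, 46], [30, 45, 61], [31,
    62], [34, 60, 44], [35, 41, 59], [40, 55, 58], [47, 54], [48, 57], [49, 56]]
  word := [[], [], [], [], [0], [], [], [0, 2, 1, 3], [], [2, 0, 3, 1], [2, 0, 3, 1], [], [1], [], [], [], [], [],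
    [], [1], [1], [1], [], [], [0], [0], [], [], [], [3], [], [], [0, 2, 1, 3], [0, 2, 1, 3], [0, 2, 1], [0], [0],
    [0], [], [], [2, 1], [1], [], [2, 0, 3, 1], [2], [2], [2], [2], [1], [1], [1], [], [], [3], [3], [1], [0], [0],
    [0, 3], [0, 3, 1], [3], [], [], [0]]
  rank := [0, 1, 0, 0, 2, 0, 1, 9, 0, 9, 8, 0, 4, 3, 2, 1, 0, 1, 0, 1, 2, 3, 3, 2, 0, 1, 0, 1, 2, 3, 0, 1, 8, 7, 6,
    5, 4, 3, 0, 1, 5, 5, 0, 7, 4, 3, 0, 1, 3, 2, 0, 0, 2, 0, 1, 4, 3, 4, 5, 6, 4, 0, 1, 2]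
  just := [0, 1, 0, 0, 4, 0, 6, 7, 0, 7, 8, 0, 10, 11, 2, 1, 0, 3, 0, 13, 4, 5, 11, 2, 0, 13, 0, 3, 12, 15, 0, 17, 8,
    18, 19, 9, 10, 5, 0, 6, 20, 9, 0, 18, 16, 15, 0, 21, 23, 14, 0, 0, 12, 0, 21, 22, 23, 22, 20, 19, 16, 0, 17, 14]
  gA := 24
  gB := 46
  fin := 0
  sid := [0, 1, 2, 3, 4, 5, 6, 7, 1, 0, 7, 8, 9, 10, 11, 2, 2, 3, 12, 13, 4, 5, 10, 11, 14, 13, 4, 3, 12, 15, 16, 17,
    7, 8, 18, 19, 9, 10, 5, 6, 20, 19, 9, 8, 18, 16, 15, 21, 22, 23, 14, 13, 12, 15, 21, 20, 23, 22, 20, 19, 18, 16,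
    17, 14]
  off := [(0, 0), (0, 0), (0, 0), (0, 0), (0, 0), (0, 0), (0, 0), (0, 0), (0, 0), (0, 0), (0, 0), (0, 0), (0, 0), (0,
    0), (0, 0), (0, 0), (0, 0), (0, 0), (0, 0), (0, 0), (-1, 0), (-1, 0), (0, 0), (0, 0), (0, 0), (1, 0), (0, 0), (0,
    0), (0, 0), (0, 0), (0, 0), (0, 0), (0, 0), (0, 0), (0, 0), (0, 0), (1, 0), (1, 0), (0, 0), (0, 0), (0, 0), (-1,
    0), (0, 0), (0, 0), (0, 0), (0, 1), (0, 1), (0, 0), (0, 0), (0, 0), (-1, 0), (0, 0), (0, 0), (0, 0), (0, -1), (0,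
    -1), (1, 0), (1, 0), (1, -1), (0, -1), (0, -1), (0, 0), (0, 0), (0, 0)]

/-- glued arcs and equations -/
def tord8k_56 : TorT :=
  ⟨[(0, 0, true), (0, 2, false), (1, 3, false), (1, 7, true), (2, 3, true), (4, 4, false), (5, 5, true), (5, 6,
    false), (6, 7, false)],
    [([0, 0, 0, 0, 0, 0, 1, 1], 2), ([0, 0, 0, 0, 0, 2, 1, 0], 2), ([0, 0, 1, 0, 2, 0, 0, 0], 2), ([0, 1, 0, 2, 0, 0,
    0, 0], 2), ([1, 0, 1, 0, 0, 0, 0, 1], 2), ([1, 1, 0, 0, 0, 0, 0, 0], 2)]⟩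

theorem tord8k_56_ok : tord8k_56.OK 8 := TT.leaf_ok (T := ttd8k_56) (by decide +kernel)

/-- the torus -/
def ttd8k_57 : TT where
  k := 8
  rf := [false, false, true, false, true, false, true, true]
  tau := [10, 9, 8, 16, 27, 22, 14, 39, 2, 1, 0, 32, 43, 38, 6, 23, 3, 28, 29, 52, 25, 26, 5, 15, 51, 20, 21, 4, 17,
    18, 53, 63, 11, 44, 45, 60, 41, 42, 13, 7, 59, 36, 37, 12, 33, 34, 61, 55, 58, 57, 56, 24, 19, 30, 62, 47, 50,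
    49, 48, 40, 35, 46, 54, 31]
  par := [0, 0, 3, 4, 7, 12, 19, 31]
  stars := [[0, 32, 11], [1, 10], [2, 9], [3, 8, 16], [4, 17, 28], [5, 27, 22], [6, 23, 15], [7, 14, 39], [12, 33,
    44], [13, 43, 38], [18, 29], [19, 53, 30], [20, 25, 52], [21, 26], [24, 56, 51], [31, 54, 63], [34, 45], [35, 61,
    46], [36, 41, 60], [37, 42], [40, 48, 59], [47, 62, 55], [49, 58], [50, 57]]
  word := [[], [], [], [], [], [1], [1], [], [], [], [], [2, 1, 3, 0], [], [0], [0], [], [], [], [], [], [0], [0],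
    [0], [], [1], [1], [1], [], [], [], [], [], [1, 2, 0, 3], [1, 2, 0, 3], [1, 2, 0, 3], [1, 2, 0], [1], [1], [1],
    [], [2, 0], [0], [0], [], [2, 1, 3, 0], [2, 1, 3, 0], [2], [2], [0], [0], [0], [0], [], [], [], [3], [1], [1],
    [1], [1, 3], [1, 3, 0], [3], [], []]
  rank := [0, 1, 2, 0, 0, 2, 4, 0, 2, 1, 0, 11, 0, 5, 4, 3, 0, 1, 2, 0, 0, 1, 2, 3, 1, 0, 1, 0, 1, 2, 3, 0, 11, 10,
    9, 8, 7, 6, 5, 0, 5, 7, 6, 0, 10, 9, 5, 0, 4, 3, 2, 1, 0, 3, 4, 0, 2, 3, 4, 5, 8, 5, 4, 0]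
  just := [0, 1, 2, 0, 0, 5, 6, 0, 2, 1, 0, 8, 0, 7, 6, 3, 0, 4, 10, 0, 0, 13, 5, 3, 12, 0, 13, 0, 4, 10, 11, 0, 8,
    16, 17, 18, 19, 9, 7, 0, 20, 19, 9, 0, 16, 17, 21, 0, 22, 23, 14, 12, 0, 11, 15, 0, 14, 23, 22, 20, 18, 21, 15, 0]
  gA := 20
  gB := 47
  fin := 0
  sid := [0, 1, 2, 3, 4, 5, 6, 7, 3, 2, 1, 0, 8, 9, 7, 6, 3, 4, 10, 11, 12, 13, 5, 6, 14, 12, 13, 5, 4, 10, 11, 15,
    0, 8, 16, 17, 18, 19, 9, 7, 20, 18, 19, 9, 8, 16, 17, 21, 20, 22, 23, 14, 12, 11, 15, 21, 14, 23, 22, 20, 18, 17,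
    21, 15]
  off := [(0, 0), (0, 0), (0, 0), (0, 0), (0, 0), (0, 0), (0, 0), (0, 0), (0, 0), (0, 0), (0, 0), (0, 0), (0, 0), (0,
    0), (1, 0), (1, 0), (0, 0), (0, 0), (0, 0), (0, 0), (0, 0), (0, 0), (1, 0), (1, 0), (0, 0), (-1, 0), (-1, 0), (0,
    0), (0, 0), (0, 0), (0, 0), (0, 0), (0, 0), (0, 0), (0, 0), (0, 0), (0, 0), (0, 0), (-1, 0), (0, 0), (0, 0), (1,
    0), (1, 0), (0, 0), (0, 0), (0, 0), (0, 0), (0, 0), (0, -1), (0, 0), (0, 0), (1, 0), (0, 0), (0, 0), (0, 0), (0,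
    -1), (0, 0), (-1, 0), (-1, 0), (-1, -1), (0, -1), (0, -1), (0, -1), (0, 0)]

/-- glued arcs and equations -/
def tord8k_57 : TorT :=
  ⟨[(0, 2, true), (0, 3, false), (1, 1, true), (1, 4, false), (2, 5, false), (3, 4, true), (5, 6, false), (6, 6,
    true), (7, 7, false)],
    [([0, 0, 0, 0, 0, 0, 1, 2], 2), ([0, 0, 0, 1, 0, 1, 1, 0], 2), ([0, 0, 1, 0, 0, 1, 0, 0], 2), ([0, 1, 0, 0, 2, 0,
    0, 0], 2), ([0, 1, 1, 0, 0, 0, 0, 0], 2), ([2, 0, 0, 1, 0, 0, 0, 0], 2)]⟩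

theorem tord8k_57_ok : tord8k_57.OK 8 := TT.leaf_ok (T := ttd8k_57) (by decide +kernel)

/-- the torus -/
def ttd8k_58 : TT where
  k := 8
  rf := [false, true, false, false, true, true, false, true]
  tau := [9, 22, 21, 20, 28, 31, 30, 29, 19, 0, 23, 16, 35, 34, 33, 18, 11, 32, 15, 8, 3, 2, 1, 10, 41, 54, 53, 52,
    4, 7, 6, 5, 17, 14, 13, 12, 60, 63, 62, 61, 51, 24, 55, 48, 59, 58, 57, 50, 43, 56, 47, 40, 27, 26, 25, 42, 49,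
    46, 45, 44, 36, 39, 38, 37]
  par := [0, 0, 1, 4, 12, 24, 25, 36]
  stars := [[0, 29, 4, 20, 9], [1, 10, 23], [2, 22], [3, 21], [5, 28, 52, 41, 24], [6, 31], [7, 30], [8, 19], [11,
    16], [12, 36, 61, 32, 17], [13, 35], [14, 34], [15, 18, 33], [25, 42, 55], [26, 54], [27, 53], [37, 56, 49, 44,
    60], [38, 63], [39, 62], [40, 51], [43, 48], [45, 59], [46, 58], [47, 50, 57]]
  word := [[], [], [], [], [], [2, 0, 3], [2, 0, 3], [2, 0, 3], [0], [], [], [], [], [], [], [0], [], [1], [1], [1],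
    [], [], [], [], [], [], [], [], [], [2, 1, 3], [2, 1, 3], [2, 1, 3], [0], [], [], [], [], [0], [0], [0], [2, 1,
    3], [], [], [], [2], [2], [2], [2, 1, 3], [], [2, 0], [2, 0, 3], [2, 0, 3], [], [], [], [], [1, 3], [3], [3],
    [3], [], [1], [1], [1]]
  rank := [0, 0, 1, 2, 0, 6, 7, 8, 5, 0, 1, 2, 0, 1, 2, 4, 2, 3, 4, 5, 2, 1, 0, 1, 0, 0, 1, 2, 0, 8, 7, 6, 3, 2, 1,
    0, 0, 0, 1, 2, 5, 0, 1, 2, 0, 1, 2, 4, 2, 3, 4, 5, 2, 1, 0, 1, 3, 2, 1, 0, 0, 2, 1, 0]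
  just := [0, 0, 2, 3, 0, 4, 5, 6, 7, 0, 1, 8, 0, 10, 11, 12, 8, 9, 12, 7, 3, 2, 0, 1, 0, 0, 14, 15, 0, 6, 5, 4, 9,
    11, 10, 0, 0, 0, 17, 18, 19, 0, 13, 20, 0, 21, 22, 23, 20, 16, 23, 19, 15, 14, 0, 13, 16, 22, 21, 0, 0, 18, 17, 0]
  gA := 37
  gB := 44
  fin := 0
  sid := [0, 1, 2, 3, 0, 4, 5, 6, 7, 0, 1, 8, 9, 10, 11, 12, 8, 9, 12, 7, 0, 3, 2, 1, 4, 13, 14, 15, 4, 0, 6, 5, 9,
    12, 11, 10, 9, 16, 17, 18, 19, 4, 13, 20, 16, 21, 22, 23, 20, 16, 23, 19, 4, 15, 14, 13, 16, 23, 22, 21, 16, 9,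
    18, 17]
  off := [(0, 0), (0, 0), (0, 0), (0, 0), (-1, 0), (0, 0), (0, 0), (0, 0), (0, 0), (0, 0), (0, 0), (0, 0), (0, 0),
    (0, 0), (0, 0), (0, 0), (0, 0), (0, 0), (-1, 0), (-1, 0), (-1, 0), (0, 0), (0, 0), (0, 0), (-1, 0), (0, 0), (0,
    0), (0, 0), (0, 0), (-1, 0), (-1, 0), (-1, 0), (1, 0), (0, 0), (0, 0), (0, 0), (0, 0), (0, 0), (0, 0), (0, 0),
    (0, 0), (-1, 0), (0, 0), (0, 0), (0, 1), (0, 0), (0, 0), (0, 0), (0, 0), (0, 1), (1, 0), (1, 0), (0, 0), (0, 0),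
    (0, 0), (0, 0), (-1, 0), (0, -1), (0, -1), (0, -1), (0, 0), (0, 0), (-1, 0), (-1, 0)]

/-- glued arcs and equations -/
def tord8k_58 : TorT :=
  ⟨[(0, 1, false), (0, 3, false), (1, 6, true), (2, 5, true), (2, 7, false), (3, 4, true), (4, 4, true), (5, 7,
    true), (6, 6, true)],
    [([0, 0, 0, 0, 0, 0, 1, 1], 2), ([0, 0, 0, 1, 0, 1, 0, 0], 2), ([0, 0, 1, 0, 0, 0, 1, 0], 2), ([0, 1, 1, 0, 0, 0,
    0, 1], 2), ([1, 0, 0, 1, 0, 0, 0, 0], 2), ([1, 1, 0, 0, 2, 1, 0, 0], 2)]⟩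

theorem tord8k_58_ok : tord8k_58.OK 8 := TT.leaf_ok (T := ttd8k_58) (by decide +kernel)

/-- the torus -/
def ttd8k_59 : TT where
  k := 4
  rf := [false, false, true, true]
  tau := [10, 13, 21, 22, 28, 18, 19, 11, 30, 31, 0, 7, 20, 1, 24, 25, 26, 29, 5, 6, 12, 2, 3, 27, 14, 15, 16, 23, 4,
    17, 8, 9]
  par := [0, 0, 2, 4]
  stars := [[0, 11], [1, 10, 24, 14], [2, 13, 21], [3, 22], [4, 23, 28], [5, 29, 18], [6, 19], [7, 20, 12], [8, 26,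
    17, 30], [9, 31], [15, 25], [16, 27]]
  word := [[], [0, 3], [], [], [], [1, 2], [1, 2], [1, 2, 0, 3], [0], [0], [], [2, 1, 3, 0], [2, 1], [2, 1], [2],
    [2], [], [3, 0], [3, 0], [3, 0], [0, 3], [], [], [], [3], [3], [], [], [], [1, 2], [1], [1]]
  rank := [0, 2, 0, 1, 0, 5, 6, 7, 0, 1, 0, 7, 3, 2, 1, 0, 3, 4, 5, 6, 3, 0, 1, 2, 1, 0, 3, 2, 0, 4, 0, 1]
  just := [0, 1, 0, 3, 0, 5, 6, 7, 0, 9, 0, 7, 2, 1, 10, 0, 11, 8, 5, 6, 2, 0, 3, 4, 10, 0, 11, 4, 0, 8, 0, 9]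
  gA := 8
  gB := 15
  fin := 0
  sid := [0, 1, 2, 3, 4, 5, 6, 7, 8, 9, 1, 0, 7, 2, 1, 10, 11, 8, 5, 6, 7, 2, 3, 4, 1, 10, 8, 11, 4, 5, 8, 9]
  off := [(0, 0), (0, 0), (0, 0), (0, 0), (0, 0), (0, 0), (0, 0), (0, 0), (0, 0), (0, 0), (0, 0), (0, 0), (0, 0),
    (-1, 1), (-1, 1), (0, 0), (0, 0), (0, -1), (1, -1), (1, -1), (1, -1), (0, 0), (0, 0), (0, 0), (-1, 0), (0, -1),
    (0, -1), (0, 0), (0, 0), (0, 0), (-1, 0), (-1, 0)]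

/-- glued arcs and equations -/
def tord8k_59 : TorT :=
  ⟨[(0, 2, true), (0, 6, false), (1, 5, true), (1, 7, false), (2, 5, false), (3, 6, false), (3, 7, true), (4, 4,
    false)],
    [([0, 0, 0, 0, 2, 0, 0, 1], 2), ([0, 0, 0, 1, 0, 0, 1, 0], 2), ([0, 0, 1, 0, 0, 2, 0, 0], 2), ([0, 1, 0, 0, 0, 0,
    0, 1], 2), ([1, 0, 0, 1, 0, 0, 0, 0], 2), ([1, 1, 1, 0, 0, 0, 1, 0], 2)]⟩

theorem tord8k_59_ok : tord8k_59.OK 8 := TT.leaf_ok (T := ttd8k_59) (by decide +kernel)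

/-- the torus -/
def ttd8k_60 : TT where
  k := 2
  rf := [false, false]
  tau := [2, 12, 0, 15, 14, 10, 9, 8, 7, 6, 5, 13, 1, 11, 4, 3]
  par := [0, 1]
  stars := [[0, 8, 3], [1, 2, 12, 13], [4, 15], [5, 14, 11], [6, 10], [7, 9]]
  word := [[1, 2], [], [3, 0], [0], [0], [2], [2], [2], [3], [3], [3], [3, 0], [], [1, 2], [1], [1]]
  rank := [2, 0, 2, 1, 0, 0, 1, 2, 2, 1, 0, 1, 0, 1, 0, 1]
  just := [1, 0, 1, 2, 0, 0, 4, 5, 5, 4, 0, 3, 0, 3, 0, 2]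
  gA := 4
  gB := 5
  fin := 0
  sid := [0, 1, 1, 0, 2, 3, 4, 5, 0, 5, 4, 3, 1, 1, 3, 2]
  off := [(0, 0), (0, 0), (1, -1), (1, -1), (0, 0), (0, 0), (0, 0), (0, 0), (0, -1), (0, -1), (0, -1), (0, -1), (1,
    -1), (0, 0), (-1, 0), (-1, 0)]

/-- glued arcs and equations -/
def tord8k_60 : TorT :=
  ⟨[(0, 2, true), (0, 7, true), (1, 4, true), (1, 6, true), (2, 5, true), (3, 5, true), (3, 7, true), (4, 6, true)],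
    [([0, 0, 0, 0, 1, 0, 0, 1], 2), ([0, 0, 0, 1, 0, 1, 1, 0], 2), ([0, 0, 1, 0, 0, 0, 1, 0], 2), ([0, 1, 0, 0, 0, 0,
    0, 1], 2), ([0, 1, 1, 0, 1, 1, 0, 0], 2), ([2, 0, 0, 1, 0, 0, 0, 0], 2)]⟩

theorem tord8k_60_ok : tord8k_60.OK 8 := TT.leaf_ok (T := ttd8k_60) (by decide +kernel)

/-- the torus -/
def ttd8k_61 : TT where
  k := 8
  rf := [false, false, true, false, true, false, true, true]
  tau := [12, 17, 14, 6, 28, 29, 3, 13, 19, 33, 23, 16, 0, 7, 2, 18, 11, 1, 15, 8, 32, 39, 34, 10, 44, 49, 46, 30, 4,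
    5, 27, 45, 20, 9, 22, 38, 60, 61, 35, 21, 51, 57, 55, 48, 24, 31, 26, 50, 43, 25, 47, 40, 56, 63, 58, 42, 52, 41,
    54, 62, 36, 37, 59, 53]
  par := [0, 0, 1, 4, 9, 24, 25, 36]
  stars := [[0, 13], [1, 12, 17], [2, 18, 15], [3, 14, 7], [4, 6, 29], [5, 28, 30], [8, 19], [9, 20, 33], [10, 34,
    23], [11, 16], [21, 32], [22, 35, 39], [24, 45], [25, 44, 49], [26, 50, 47], [27, 46, 31], [36, 61, 38], [37, 62,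
    60], [40, 51], [41, 52, 57], [42, 58, 55], [43, 48], [53, 56], [54, 59, 63]]
  word := [[], [], [1, 2], [2, 1], [], [0, 3], [0, 3], [0, 3, 1, 2], [3, 0], [], [], [], [], [3, 0, 2, 1], [3, 0],
    [3, 0], [], [], [1, 2], [1, 2], [1, 2], [1, 2], [], [], [], [], [0, 3], [0, 3], [], [2, 1], [2, 1], [], [3, 0],
    [], [], [1, 2], [], [3, 0], [3, 0], [3, 0], [2, 1], [2], [], [], [], [], [2, 1], [2, 1], [], [], [0, 3], [0, 3],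
    [0], [0], [2], [], [1], [3], [3], [3, 0], [], [1, 2], [1, 2], [1]]
  rank := [0, 0, 8, 9, 0, 8, 9, 10, 6, 0, 2, 1, 0, 10, 8, 7, 1, 0, 7, 6, 5, 4, 3, 2, 0, 0, 6, 7, 0, 8, 7, 1, 5, 0, 3,
    3, 0, 2, 3, 4, 4, 3, 2, 1, 0, 1, 6, 5, 1, 0, 5, 4, 1, 0, 0, 2, 1, 3, 0, 1, 0, 2, 1, 0]
  just := [0, 0, 2, 4, 0, 5, 4, 3, 7, 0, 9, 1, 0, 3, 2, 6, 1, 0, 6, 7, 10, 11, 8, 9, 0, 0, 14, 15, 0, 5, 15, 12, 10,
    0, 8, 16, 0, 17, 16, 11, 19, 20, 21, 13, 0, 12, 14, 18, 13, 0, 18, 19, 22, 0, 0, 21, 22, 20, 0, 23, 0, 17, 23, 0]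
  gA := 53
  gB := 54
  fin := 0
  sid := [0, 1, 2, 3, 4, 5, 4, 3, 6, 7, 8, 9, 1, 0, 3, 2, 9, 1, 2, 6, 7, 10, 11, 8, 12, 13, 14, 15, 5, 4, 5, 15, 10,
    7, 8, 11, 16, 17, 16, 11, 18, 19, 20, 21, 13, 12, 15, 14, 21, 13, 14, 18, 19, 22, 23, 20, 22, 19, 20, 23, 17, 16,
    17, 23]
  off := [(0, 0), (0, 0), (0, 0), (0, 0), (0, 0), (0, 0), (1, -1), (1, -1), (0, 0), (0, 0), (0, 0), (0, 0), (0, 0),
    (0, 0), (1, -1), (1, -1), (0, 0), (0, 0), (0, 0), (-1, 1), (-1, 1), (0, 0), (0, 0), (0, 0), (0, 0), (0, 0), (0,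
    0), (0, 0), (0, 0), (0, 0), (-1, 1), (-1, 1), (1, -1), (0, 0), (0, 0), (0, 0), (0, 0), (0, 0), (1, -1), (1, -1),
    (0, 0), (0, 0), (0, 0), (0, 0), (0, 0), (0, 0), (-1, 1), (-1, 1), (0, 0), (0, 0), (0, 0), (1, -1), (1, -1), (0,
    0), (0, 0), (0, 0), (-1, 0), (0, -1), (0, -1), (0, -1), (0, 0), (0, 0), (-1, 1), (-1, 0)]

/-- glued arcs and equations -/
def tord8k_61 : TorT :=
  ⟨[(0, 3, false), (0, 4, true), (1, 1, false), (2, 6, true), (2, 7, false), (3, 6, true), (4, 4, true), (5, 5,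
    true), (5, 7, true)],
    [([0, 0, 0, 0, 1, 1, 1, 0], 2), ([0, 0, 0, 1, 0, 0, 1, 1], 2), ([0, 0, 2, 0, 0, 0, 0, 1], 2), ([0, 2, 0, 0, 1, 0,
    0, 0], 2), ([1, 0, 0, 0, 0, 1, 0, 0], 2), ([1, 0, 0, 1, 0, 0, 0, 0], 2)]⟩

theorem tord8k_61_ok : tord8k_61.OK 8 := TT.leaf_ok (T := ttd8k_61) (by decide +kernel)

/-- the torus -/
def ttd8k_62 : TT where
  k := 4
  rf := [false, false, true, true]
  tau := [8, 23, 16, 17, 18, 13, 27, 30, 0, 31, 24, 25, 26, 5, 19, 22, 2, 3, 4, 14, 28, 29, 15, 1, 10, 11, 12, 6, 20,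
    21, 7, 9]
  par := [0, 0, 1, 6]
  stars := [[0, 31, 9], [1, 8, 23], [2, 16], [3, 17], [4, 18], [5, 19, 14], [6, 13, 27], [7, 28, 21, 30], [10, 24],
    [11, 25], [12, 26], [15, 20, 29, 22]]
  word := [[], [], [], [], [], [1], [], [3, 0, 2], [], [0], [0], [0], [0], [0], [0], [], [], [], [], [1], [1, 2],
    [2], [], [], [1], [1], [1], [], [3, 0], [3], [3, 1, 2], [1]]
  rank := [0, 0, 1, 2, 3, 1, 0, 6, 0, 3, 2, 1, 0, 1, 4, 1, 1, 2, 3, 4, 5, 0, 1, 0, 2, 1, 0, 0, 5, 0, 6, 3]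
  just := [0, 0, 2, 3, 4, 6, 0, 7, 0, 8, 9, 10, 0, 6, 5, 1, 2, 3, 4, 5, 11, 0, 1, 0, 9, 10, 0, 0, 11, 0, 7, 8]
  gA := 12
  gB := 21
  fin := 0
  sid := [0, 1, 2, 3, 4, 5, 6, 7, 1, 0, 8, 9, 10, 6, 5, 11, 2, 3, 4, 5, 11, 7, 11, 1, 8, 9, 10, 6, 7, 11, 7, 0]
  off := [(0, 0), (0, 0), (0, 0), (0, 0), (0, 0), (0, 0), (0, 0), (0, 0), (0, 0), (0, 0), (0, 0), (0, 0), (0, 0), (1,
    0), (1, 0), (0, 0), (0, 0), (0, 0), (0, 0), (0, 0), (-1, 0), (-1, 1), (0, 0), (0, 0), (-1, 0), (-1, 0), (-1, 0),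
    (0, 0), (0, 0), (0, -1), (-1, 0), (-1, 0)]

/-- glued arcs and equations -/
def tord8k_62 : TorT :=
  ⟨[(0, 0, true), (0, 2, false), (1, 3, false), (1, 7, false), (2, 4, false), (3, 6, false), (4, 4, true), (5, 5,
    true), (6, 7, false)],
    [([0, 0, 0, 0, 1, 1, 1, 1], 2), ([0, 0, 0, 1, 0, 1, 1, 0], 2), ([0, 0, 1, 0, 1, 0, 0, 0], 2), ([0, 1, 0, 1, 0, 0,
    0, 0], 2), ([1, 0, 1, 0, 0, 0, 0, 0], 2), ([1, 1, 0, 0, 0, 0, 0, 1], 2)]⟩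

theorem tord8k_62_ok : tord8k_62.OK 8 := TT.leaf_ok (T := ttd8k_62) (by decide +kernel)

/-- the torus -/
def ttd8k_63 : TT where
  k := 4
  rf := [false, false, true, true]
  tau := [8, 18, 28, 22, 23, 13, 24, 25, 0, 26, 20, 30, 31, 5, 16, 17, 14, 15, 1, 27, 10, 29, 3, 4, 6, 7, 9, 19, 2,
    21, 11, 12]
  par := [0, 0, 1, 2]
  stars := [[0, 26, 9], [1, 8, 18], [2, 19, 28], [3, 29, 22], [4, 23], [5, 16, 14], [6, 13, 24], [7, 25], [10, 27,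
    20], [11, 21, 30], [12, 31], [15, 17]]
  word := [[], [], [], [0], [0], [0], [0, 2], [0, 2], [], [2, 0], [2, 0], [2], [2], [1], [], [], [], [], [], [], [1,
    3], [1], [1], [1], [3, 1], [3, 1], [1, 3], [], [], [0], [3], [3]]
  rank := [0, 0, 0, 0, 1, 3, 4, 5, 0, 3, 2, 0, 1, 3, 2, 1, 2, 1, 0, 1, 2, 1, 0, 1, 4, 5, 3, 1, 0, 1, 0, 1]
  just := [0, 0, 0, 0, 4, 5, 6, 7, 0, 8, 9, 0, 10, 5, 11, 1, 11, 1, 0, 2, 9, 3, 0, 4, 6, 7, 8, 2, 0, 3, 0, 10]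
  gA := 3
  gB := 11
  fin := 0
  sid := [0, 1, 2, 3, 4, 5, 6, 7, 1, 0, 8, 9, 10, 6, 5, 11, 5, 11, 1, 2, 8, 9, 3, 4, 6, 7, 0, 8, 2, 3, 9, 10]
  off := [(0, 0), (0, 0), (0, 0), (0, 0), (0, 0), (0, 0), (0, 0), (0, 0), (0, 0), (0, 0), (0, 0), (0, 0), (0, 0),
    (-1, 0), (-1, 0), (0, 0), (-1, 0), (0, 0), (0, 0), (0, 0), (-1, -1), (-1, -1), (-1, 0), (-1, 0), (-1, -1), (-1,
    -1), (-1, -1), (-1, -1), (0, 0), (0, 0), (0, -1), (0, -1)]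

/-- glued arcs and equations -/
def tord8k_63 : TorT :=
  ⟨[(0, 0, true), (0, 6, false), (1, 2, false), (1, 7, false), (2, 4, false), (3, 3, true), (3, 6, false), (4, 7,
    false), (5, 5, true)],
    [([0, 0, 0, 0, 1, 0, 0, 1], 2), ([0, 0, 0, 1, 0, 1, 1, 0], 2), ([0, 0, 1, 1, 1, 0, 0, 0], 2), ([0, 1, 0, 0, 0, 0,
    0, 1], 2), ([1, 0, 0, 0, 0, 1, 1, 0], 2), ([1, 1, 1, 0, 0, 0, 0, 0], 2)]⟩

theorem tord8k_63_ok : tord8k_63.OK 8 := TT.leaf_ok (T := ttd8k_63) (by decide +kernel)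

/-- the torus -/
def ttd8k_64 : TT where
  k := 4
  rf := [false, false, true, true]
  tau := [8, 9, 23, 16, 26, 27, 28, 22, 0, 1, 31, 24, 18, 19, 20, 30, 3, 25, 12, 13, 14, 29, 7, 2, 11, 17, 4, 5, 6,
    21, 15, 10]
  par := [0, 0, 2, 4]
  stars := [[0, 23, 2, 9], [1, 8, 31, 10], [3, 16], [4, 17, 26], [5, 27], [6, 28], [7, 29, 22], [11, 24], [12, 25,
    18], [13, 19], [14, 20], [15, 21, 30]]
  word := [[], [0, 2, 1], [], [], [], [], [], [3], [], [0, 3, 1], [0], [0], [0], [0], [0], [0, 2], [], [], [1], [1],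
    [1], [2], [2], [], [1], [], [], [], [], [3], [3, 1], [1]]
  rank := [0, 5, 0, 1, 0, 1, 2, 3, 0, 5, 4, 3, 1, 0, 1, 2, 1, 2, 1, 0, 1, 0, 3, 0, 3, 2, 0, 1, 2, 0, 2, 4]
  just := [0, 1, 0, 2, 0, 4, 5, 6, 0, 1, 7, 8, 9, 0, 10, 11, 2, 3, 9, 0, 10, 0, 6, 0, 8, 3, 0, 4, 5, 0, 11, 7]
  gA := 13
  gB := 21
  fin := 0
  sid := [0, 1, 0, 2, 3, 4, 5, 6, 1, 0, 1, 7, 8, 9, 10, 11, 2, 3, 8, 9, 10, 11, 6, 0, 7, 8, 3, 4, 5, 6, 11, 1]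
  off := [(0, 0), (0, 0), (0, 1), (0, 0), (0, 0), (0, 0), (0, 0), (0, 0), (0, 0), (0, 0), (0, -1), (0, 0), (0, 0),
    (0, 0), (0, 0), (0, 0), (0, 0), (0, 0), (-1, 0), (-1, 0), (-1, 0), (-1, 0), (0, 1), (0, 1), (-1, 0), (-1, 0), (0,
    0), (0, 0), (0, 0), (0, 0), (-1, -1), (-1, -1)]

/-- glued arcs and equations -/
def tord8k_64 : TorT :=
  ⟨[(0, 0, true), (0, 3, false), (1, 1, true), (2, 4, false), (2, 7, false), (3, 5, false), (4, 6, false), (5, 5,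
    true), (6, 7, false)],
    [([0, 0, 0, 0, 0, 1, 1, 1], 2), ([0, 0, 0, 0, 1, 0, 1, 0], 2), ([0, 0, 0, 1, 0, 1, 0, 0], 2), ([0, 1, 1, 0, 1, 0,
    0, 0], 2), ([1, 0, 0, 1, 0, 0, 0, 0], 2), ([1, 1, 1, 0, 0, 0, 0, 1], 2)]⟩

theorem tord8k_64_ok : tord8k_64.OK 8 := TT.leaf_ok (T := ttd8k_64) (by decide +kernel)

/-- the torus -/
def ttd8k_65 : TT where
  k := 2
  rf := [false, true]
  tau := [6, 5, 8, 9, 10, 1, 0, 13, 2, 3, 4, 15, 14, 7, 12, 11]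
  par := [0, 2]
  stars := [[0, 14, 13, 7], [1, 6], [2, 5, 11, 8], [3, 9], [4, 10], [12, 15]]
  word := [[3], [3], [], [], [], [2], [2], [0], [], [], [], [2], [2], [1], [3], [3]]
  rank := [4, 3, 0, 1, 2, 3, 4, 0, 0, 1, 2, 0, 1, 0, 1, 0]
  just := [1, 2, 0, 3, 4, 2, 1, 0, 0, 3, 4, 0, 5, 0, 5, 0]
  gA := 7
  gB := 11
  fin := 0
  sid := [0, 1, 2, 3, 4, 2, 1, 0, 2, 3, 4, 2, 5, 0, 0, 5]
  off := [(0, 0), (0, 0), (0, 0), (0, 0), (0, 0), (0, 1), (0, 1), (0, 1), (0, 0), (0, 0), (0, 0), (0, 1), (0, 0),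
    (-1, 1), (-1, 0), (0, -1)]

/-- glued arcs and equations -/
def tord8k_65 : TorT :=
  ⟨[(0, 2, false), (0, 6, true), (1, 3, false), (1, 5, true), (2, 4, false), (3, 7, true), (4, 6, true), (5, 7,
    false)],
    [([0, 0, 0, 0, 1, 0, 0, 1], 2), ([0, 0, 1, 0, 1, 0, 0, 0], 2), ([0, 1, 0, 0, 0, 0, 1, 0], 2), ([0, 1, 0, 1, 0, 0,
    0, 0], 2), ([1, 0, 0, 0, 0, 1, 1, 1], 2), ([1, 0, 1, 1, 0, 1, 0, 0], 2)]⟩

theorem tord8k_65_ok : tord8k_65.OK 8 := TT.leaf_ok (T := ttd8k_65) (by decide +kernel)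

end Pool.Agent.Lib_MP_fa6e45
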