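import Pool.Agent.Lib_MP_fa6e45.CT5

/-!
MP_fa6e45_co, stage 9: straight-side patterns with `8` sides, tables of tori (generated by a program).
-/

namespace Pool.Agent.Lib_MP_fa6e45

/-- the torus -/
def ttd8k_66 : TT where
  k := 8
  rf := [false, false, true, false, true, false, true, true]
  tau := [5, 13, 12, 17, 14, 0, 30, 31, 19, 35, 23, 16, 2, 1, 4, 18, 11, 3, 15, 8, 34, 33, 36, 10, 29, 45, 44, 49,
    46, 24, 6, 7, 37, 21, 20, 9, 22, 32, 62, 63, 51, 59, 55, 48, 26, 25, 28, 50, 43, 27, 47, 40, 58, 57, 60, 42, 61,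
    53, 52, 41, 54, 56, 38, 39]
  par := [0, 1, 3, 6, 9, 25, 27, 38]
  stars := [[0, 31, 6], [1, 5, 14], [2, 13], [3, 12, 17], [4, 18, 15], [7, 30, 24], [8, 19], [9, 20, 35], [10, 36,
    23], [11, 16], [21, 34], [22, 37, 33], [25, 29, 46], [26, 45], [27, 44, 49], [28, 50, 47], [32, 38, 63], [39, 56,
    62], [40, 51], [41, 52, 59], [42, 60, 55], [43, 48], [53, 58], [54, 61, 57]]
  word := [[3], [], [], [], [2], [2], [], [0, 3, 1], [3], [], [], [], [], [], [3], [3], [], [], [2], [2], [2], [2],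
    [], [], [0, 2, 1], [], [], [], [0, 3, 1], [0, 3, 1], [], [0, 2, 1], [3], [3], [3], [], [], [2], [], [3], [0, 2,
    1], [0, 2], [], [], [], [], [0, 2, 1], [0, 2, 1], [], [], [0, 3, 1], [0, 3, 1], [0], [0], [0, 2], [], [2], [1],
    [1], [3, 1], [3, 1], [3], [], [2]]
  rank := [10, 0, 1, 0, 9, 10, 0, 9, 7, 0, 3, 2, 1, 0, 9, 8, 2, 0, 8, 7, 6, 5, 4, 3, 8, 0, 1, 0, 7, 8, 0, 9, 2, 5, 6,
    0, 4, 2, 0, 1, 5, 4, 3, 2, 1, 0, 7, 6, 2, 0, 6, 5, 1, 0, 1, 3, 0, 0, 1, 4, 1, 0, 0, 1]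
  just := [1, 0, 2, 0, 4, 1, 0, 5, 7, 0, 9, 3, 2, 0, 4, 6, 3, 0, 6, 7, 10, 11, 8, 9, 12, 0, 13, 0, 15, 12, 0, 5, 16,
    11, 10, 0, 8, 16, 0, 17, 19, 20, 21, 14, 13, 0, 15, 18, 14, 0, 18, 19, 22, 0, 23, 21, 0, 0, 22, 20, 23, 0, 0, 17]
  gA := 53
  gB := 56
  fin := 0
  sid := [0, 1, 2, 3, 4, 1, 0, 5, 6, 7, 8, 9, 3, 2, 1, 4, 9, 3, 4, 6, 7, 10, 11, 8, 5, 12, 13, 14, 15, 12, 5, 0, 16,
    11, 10, 7, 8, 11, 16, 17, 18, 19, 20, 21, 14, 13, 12, 15, 21, 14, 15, 18, 19, 22, 23, 20, 17, 23, 22, 19, 20, 23,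
    17, 16]
  off := [(0, 0), (0, 0), (0, 0), (0, 0), (0, 0), (0, 1), (0, 1), (0, 0), (0, 0), (0, 0), (0, 0), (0, 0), (0, 0), (0,
    0), (0, 0), (0, -1), (0, 0), (0, 0), (0, 0), (0, 1), (0, 1), (0, 0), (0, 0), (0, 0), (0, 1), (0, 0), (0, 0), (0,
    0), (0, 0), (0, -1), (0, 0), (0, 1), (0, 0), (0, -1), (0, -1), (0, 0), (0, 0), (0, 0), (0, 1), (0, 0), (0, 0),
    (0, 0), (0, 0), (0, 0), (0, 0), (0, 0), (0, 0), (0, 1), (0, 0), (0, 0), (0, 0), (0, -1), (0, -1), (0, 0), (0, 0),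
    (0, 0), (0, 1), (-1, 0), (-1, 0), (-1, -1), (-1, -1), (-1, -1), (0, 0), (0, 1)]

/-- glued arcs and equations -/
def tord8k_66 : TorT :=
  ⟨[(0, 3, false), (0, 5, true), (1, 3, false), (1, 5, true), (2, 4, true), (2, 7, false), (4, 6, true), (6, 6,
    true), (7, 7, true)],
    [([0, 0, 1, 0, 0, 1, 0, 0], 2), ([0, 0, 1, 0, 1, 0, 0, 1], 2), ([0, 1, 0, 0, 0, 1, 1, 0], 2), ([0, 1, 0, 1, 1, 0,
    0, 0], 2), ([1, 0, 0, 0, 0, 0, 1, 1], 2), ([1, 0, 0, 1, 0, 0, 0, 0], 2)]⟩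

theorem tord8k_66_ok : tord8k_66.OK 8 := TT.leaf_ok (T := ttd8k_66) (by decide +kernel)

/-- the torus -/
def ttd8k_67 : TT where
  k := 4
  rf := [false, true, false, true]
  tau := [10, 11, 12, 19, 14, 21, 8, 9, 6, 7, 0, 1, 2, 29, 4, 31, 26, 27, 28, 3, 30, 5, 24, 25, 22, 23, 16, 17, 18,
    13, 20, 15]
  par := [0, 0, 3, 13]
  stars := [[0, 10], [1, 11], [2, 12], [3, 13, 30, 20], [4, 19, 29, 14], [5, 15, 24, 22], [6, 21, 31, 8], [7, 9],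
    [16, 26], [17, 27], [18, 28], [23, 25]]
  word := [[], [], [], [], [2], [2, 0, 3], [2, 0, 3, 1], [2, 0, 3, 1], [0, 2, 1, 3], [0, 2, 1, 3], [], [], [], [],
    [3], [0], [2], [2], [2], [], [], [2, 1, 3], [2], [2], [3], [3], [3], [3], [3], [], [], [1]]
  rank := [0, 1, 2, 0, 3, 4, 5, 6, 5, 6, 0, 1, 2, 0, 3, 0, 0, 1, 2, 0, 3, 4, 2, 1, 2, 1, 0, 1, 2, 0, 3, 0]
  just := [0, 1, 2, 0, 4, 5, 6, 7, 6, 7, 0, 1, 2, 0, 4, 0, 0, 9, 10, 0, 3, 5, 11, 8, 11, 8, 0, 9, 10, 0, 3, 0]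
  gA := 15
  gB := 16
  fin := 0
  sid := [0, 1, 2, 3, 4, 5, 6, 7, 6, 7, 0, 1, 2, 3, 4, 5, 8, 9, 10, 4, 3, 6, 5, 11, 5, 11, 8, 9, 10, 4, 3, 6]
  off := [(0, 0), (0, 0), (0, 0), (0, 0), (0, 0), (0, 0), (0, 0), (0, 0), (0, 0), (0, 0), (0, 0), (0, 0), (0, 0), (0,
    0), (0, -1), (0, -1), (0, 0), (0, 0), (0, 0), (0, 0), (0, 0), (-1, 0), (-1, 0), (0, 0), (-1, -1), (0, -1), (0,
    -1), (0, -1), (0, -1), (0, -1), (0, 0), (-1, 0)]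

/-- glued arcs and equations -/
def tord8k_67 : TorT :=
  ⟨[(0, 2, false), (0, 6, false), (1, 3, false), (1, 7, false), (2, 4, false), (3, 3, true), (4, 6, false), (5, 5,
    true), (7, 7, true)],
    [([0, 0, 0, 1, 1, 1, 1, 0], 2), ([0, 0, 1, 0, 1, 0, 0, 0], 2), ([0, 1, 0, 0, 0, 0, 0, 1], 2), ([0, 1, 0, 1, 0, 0,
    0, 0], 2), ([1, 0, 0, 0, 0, 1, 1, 1], 2), ([1, 0, 1, 0, 0, 0, 0, 0], 2)]⟩

theorem tord8k_67_ok : tord8k_67.OK 8 := TT.leaf_ok (T := ttd8k_67) (by decide +kernel)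

end Pool.Agent.Lib_MP_fa6e45
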