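import Pool.Agent.Lib_MP_fa6e45.DQ8kT0
import Pool.Agent.Lib_MP_fa6e45.DQ8kT1
import Pool.Agent.Lib_MP_fa6e45.DQ8kT2
import Pool.Agent.Lib_MP_fa6e45.DQ8kT3
import Pool.Agent.Lib_MP_fa6e45.DQ8kT4
import Pool.Agent.Lib_MP_fa6e45.DQ8kT5
import Pool.Agent.Lib_MP_fa6e45.DQ8kT6

/-!
MP_fa6e45_co, stage 9: straight-side patterns with `8` sides, the list of tori (generated by a program).
-/

namespace Pool.Agent.Lib_MP_fa6e45

/-- tables -/
def ttD8k_0 : List TorT := [tord8k_0, tord8k_1, tord8k_2, tord8k_3, tord8k_4, tord8k_5, tord8k_6, tord8k_7, tord8k_8,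
    tord8k_9, tord8k_10]

theorem ttD8k_0_ok : ∀ T ∈ ttD8k_0, T.OK 8 := by
  intro T hT
  simp only [ttD8k_0, List.mem_cons, List.not_mem_nil, or_false] at hT
  rcases hT with rfl | rfl | rfl | rfl | rfl | rfl | rfl | rfl | rfl | rfl | rfl
  · exact tord8k_0_ok
  · exact tord8k_1_ok
  · exact tord8k_2_ok
  · exact tord8k_3_ok
  · exact tord8k_4_ok
  · exact tord8k_5_ok
  · exact tord8k_6_ok
  · exact tord8k_7_ok
  · exact tord8k_8_ok
  · exact tord8k_9_ok
  · exact tord8k_10_ok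

/-- tables -/
def ttD8k_1 : List TorT := [tord8k_11, tord8k_12, tord8k_13, tord8k_14, tord8k_15, tord8k_16, tord8k_17, tord8k_18,
    tord8k_19, tord8k_20, tord8k_21]

theorem ttD8k_1_ok : ∀ T ∈ ttD8k_1, T.OK 8 := by
  intro T hT
  simp only [ttD8k_1, List.mem_cons, List.not_mem_nil, or_false] at hT
  rcases hT with rfl | rfl | rfl | rfl | rfl | rfl | rfl | rfl | rfl | rfl | rfl
  · exact tord8k_11_ok
  · exact tord8k_12_ok
  · exact tord8k_13_ok
  · exact tord8k_14_ok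
  · exact tord8k_15_ok
  · exact tord8k_16_ok
  · exact tord8k_17_ok
  · exact tord8k_18_ok
  · exact tord8k_19_ok
  · exact tord8k_20_ok
  · exact tord8k_21_ok

/-- tables -/
def ttD8k_2 : List TorT := [tord8k_22, tord8k_23, tord8k_24, tord8k_25, tord8k_26, tord8k_27, tord8k_28, tord8k_29,
    tord8k_30, tord8k_31, tord8k_32]

theorem ttD8k_2_ok : ∀ T ∈ ttD8k_2, T.OK 8 := by
  intro T hT
  simp only [ttD8k_2, List.mem_cons, List.not_mem_nil, or_false] at hT
  rcases hT with rfl | rfl | rfl | rfl | rfl | rfl | rfl | rfl | rfl | rfl | rfl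
  · exact tord8k_22_ok
  · exact tord8k_23_ok
  · exact tord8k_24_ok
  · exact tord8k_25_ok
  · exact tord8k_26_ok
  · exact tord8k_27_ok
  · exact tord8k_28_ok
  · exact tord8k_29_ok
  · exact tord8k_30_ok
  · exact tord8k_31_ok
  · exact tord8k_32_ok

/-- tables -/
def ttD8k_3 : List TorT := [tord8k_33, tord8k_34, tord8k_35, tord8k_36, tord8k_37, tord8k_38, tord8k_39, tord8k_40,
    tord8k_41, tord8k_42, tord8k_43]

theorem ttD8k_3_ok : ∀ T ∈ ttD8k_3, T.OK 8 := by
  intro T hT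
  simp only [ttD8k_3, List.mem_cons, List.not_mem_nil, or_false] at hT
  rcases hT with rfl | rfl | rfl | rfl | rfl | rfl | rfl | rfl | rfl | rfl | rfl
  · exact tord8k_33_ok
  · exact tord8k_34_ok
  · exact tord8k_35_ok
  · exact tord8k_36_ok
  · exact tord8k_37_ok
  · exact tord8k_38_ok
  · exact tord8k_39_ok
  · exact tord8k_40_ok
  · exact tord8k_41_ok
  · exact tord8k_42_ok
  · exact tord8k_43_ok

/-- tables -/
def ttD8k_4 : List TorT := [tord8k_44, tord8k_45, tord8k_46, tord8k_47, tord8k_48, tord8k_49, tord8k_50, tord8k_51,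
    tord8k_52, tord8k_53, tord8k_54]

theorem ttD8k_4_ok : ∀ T ∈ ttD8k_4, T.OK 8 := by
  intro T hT
  simp only [ttD8k_4, List.mem_cons, List.not_mem_nil, or_false] at hT
  rcases hT with rfl | rfl | rfl | rfl | rfl | rfl | rfl | rfl | rfl | rfl | rfl
  · exact tord8k_44_ok
  · exact tord8k_45_ok
  · exact tord8k_46_ok
  · exact tord8k_47_ok
  · exact tord8k_48_ok
  · exact tord8k_49_ok
  · exact tord8k_50_ok
  · exact tord8k_51_ok
  · exact tord8k_52_ok
  · exact tord8k_53_ok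
  · exact tord8k_54_ok

/-- tables -/
def ttD8k_5 : List TorT := [tord8k_55, tord8k_56, tord8k_57, tord8k_58, tord8k_59, tord8k_60, tord8k_61, tord8k_62,
    tord8k_63, tord8k_64, tord8k_65]

theorem ttD8k_5_ok : ∀ T ∈ ttD8k_5, T.OK 8 := by
  intro T hT
  simp only [ttD8k_5, List.mem_cons, List.not_mem_nil, or_false] at hT
  rcases hT with rfl | rfl | rfl | rfl | rfl | rfl | rfl | rfl | rfl | rfl | rfl
  · exact tord8k_55_ok
  · exact tord8k_56_ok
  · exact tord8k_57_ok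
  · exact tord8k_58_ok
  · exact tord8k_59_ok
  · exact tord8k_60_ok
  · exact tord8k_61_ok
  · exact tord8k_62_ok
  · exact tord8k_63_ok
  · exact tord8k_64_ok
  · exact tord8k_65_ok

/-- tables -/
def ttD8k_6 : List TorT := [tord8k_66, tord8k_67]

theorem ttD8k_6_ok : ∀ T ∈ ttD8k_6, T.OK 8 := by
  intro T hT
  simp only [ttD8k_6, List.mem_cons, List.not_mem_nil, or_false] at hT
  rcases hT with rfl | rfl
  · exact tord8k_66_ok
  · exact tord8k_67_ok

/-- all tables -/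
def ttD8k : List TorT :=
  ttD8k_0 ++ (ttD8k_1 ++ (ttD8k_2 ++ (ttD8k_3 ++ (ttD8k_4 ++ (ttD8k_5 ++ ttD8k_6)))))

theorem ttD8k_ok : ∀ T ∈ ttD8k, T.OK 8 := by
  intro T hT
  unfold ttD8k at hT
  rcases List.mem_append.1 hT with hT | hT
  · exact ttD8k_0_ok T hT
  rcases List.mem_append.1 hT with hT | hT
  · exact ttD8k_1_ok T hT
  rcases List.mem_append.1 hT with hT | hT
  · exact ttD8k_2_ok T hT
  rcases List.mem_append.1 hT with hT | hT
  · exact ttD8k_3_ok T hT
  rcases List.mem_append.1 hT with hT | hT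
  · exact ttD8k_4_ok T hT
  rcases List.mem_append.1 hT with hT | hT
  · exact ttD8k_5_ok T hT
  exact ttD8k_6_ok T hT

end Pool.Agent.Lib_MP_fa6e45
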