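import Pool.Agent.Lib_MP_fa6e45.CT5

/-!
MP_fa6e45_co, stage 9: straight-side patterns with `8` sides, tables of tori (generated by a program).
-/

namespace Pool.Agent.Lib_MP_fa6e45

/-- the torus -/
def ttd8k_0 : TT where
  k := 12
  rf := [false, true, true, false, false, false, true, true, true, true, false, false]
  tau := [9, 10, 21, 22, 28, 39, 41, 40, 47, 0, 1, 20, 52, 59, 58, 69, 79, 78, 54, 53, 11, 2, 3, 80, 49, 50, 61, 62,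
    4, 87, 89, 88, 63, 64, 65, 92, 84, 43, 42, 5, 7, 6, 38, 37, 83, 74, 75, 8, 95, 24, 25, 60, 12, 19, 18, 77, 71,
    70, 14, 13, 51, 26, 27, 32, 33, 34, 93, 94, 76, 15, 57, 56, 81, 82, 45, 46, 68, 55, 17, 16, 23, 72, 73, 44, 36,
    91, 90, 29, 31, 30, 86, 85, 35, 66, 67, 48]
  par := [0, 0, 2, 4, 5, 6, 12, 13, 15, 16, 23, 30]
  stars := [[0, 40, 9], [1, 10], [2, 11, 21], [3, 22], [4, 23, 80, 29], [5, 28, 63, 32], [6, 39, 42], [7, 41], [8,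
    47, 76, 69], [12, 53, 20], [13, 60, 52], [14, 59], [15, 70, 58], [16, 72, 81], [17, 79], [18, 55, 78], [19, 54],
    [24, 88, 49], [25, 50], [26, 51, 61], [27, 62], [30, 87, 90], [31, 89], [33, 56, 64], [34, 65], [35, 66, 93],
    [36, 92, 85], [37, 84, 44], [38, 43], [45, 83, 74], [46, 75], [48, 95, 68, 77], [57, 71], [67, 94], [73, 82],
    [86, 91]]
  word := [[], [], [], [], [], [], [], [], [1, 2, 0, 3], [], [], [], [], [], [], [], [], [], [], [], [], [], [], [],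
    [0], [0], [0], [0], [], [], [], [], [0], [0], [0], [2], [2], [], [], [], [], [], [], [], [2], [2], [2], [2, 1, 3,
    0], [1], [1], [1], [], [], [], [], [], [], [], [], [], [], [1], [1], [1], [1], [1], [1, 2], [1, 2], [1, 2, 0],
    [], [], [], [], [], [3], [3], [1, 3, 0], [], [], [], [], [], [], [3], [3], [], [], [], [], [], [], [], [3], [3,
    0], [3, 0], [0]]
  rank := [0, 1, 0, 1, 0, 0, 0, 1, 9, 0, 1, 2, 0, 0, 1, 0, 0, 1, 4, 3, 2, 0, 1, 0, 4, 3, 2, 1, 0, 2, 0, 1, 0, 4, 5,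
    0, 5, 2, 1, 0, 1, 0, 1, 2, 6, 7, 8, 9, 5, 4, 3, 1, 0, 3, 4, 5, 3, 2, 1, 0, 1, 2, 1, 0, 4, 5, 6, 7, 8, 0, 2, 3, 1,
    2, 7, 8, 8, 5, 1, 0, 0, 1, 2, 6, 5, 4, 3, 2, 1, 0, 3, 4, 0, 6, 7, 5]
  just := [0, 1, 0, 3, 0, 0, 0, 7, 8, 0, 1, 2, 0, 0, 11, 0, 0, 14, 16, 9, 2, 0, 3, 0, 18, 19, 20, 5, 0, 4, 0, 22, 0,
    23, 24, 0, 26, 28, 6, 0, 7, 0, 6, 28, 27, 29, 30, 8, 17, 18, 19, 10, 0, 9, 16, 15, 32, 12, 11, 0, 10, 20, 5, 0,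
    23, 24, 25, 33, 31, 0, 12, 32, 13, 34, 29, 30, 31, 15, 14, 0, 0, 13, 34, 27, 26, 35, 21, 4, 22, 0, 21, 35, 0, 25,
    33, 17]
  gA := 32
  gB := 35
  fin := 0
  sid := [0, 1, 2, 3, 4, 5, 6, 7, 8, 0, 1, 2, 9, 10, 11, 12, 13, 14, 15, 16, 9, 2, 3, 4, 17, 18, 19, 20, 5, 4, 21,
    22, 5, 23, 24, 25, 26, 27, 28, 6, 0, 7, 6, 28, 27, 29, 30, 8, 31, 17, 18, 19, 10, 9, 16, 15, 23, 32, 12, 11, 10,
    19, 20, 5, 23, 24, 25, 33, 31, 8, 12, 32, 13, 34, 29, 30, 8, 31, 15, 14, 4, 13, 34, 29, 27, 26, 35, 21, 17, 22,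
    21, 35, 26, 25, 33, 31]
  off := [(0, 0), (0, 0), (0, 0), (0, 0), (0, 0), (0, 0), (0, 0), (0, 0), (0, 0), (0, 0), (0, 0), (0, 0), (0, 0), (0,
    0), (0, 0), (0, 0), (0, 0), (0, 0), (0, 0), (0, 0), (0, 0), (0, 0), (0, 0), (0, 0), (0, 0), (0, 0), (0, 0), (0,
    0), (0, 0), (0, 0), (0, 0), (0, 0), (0, 0), (0, 0), (0, 0), (0, 0), (0, 0), (0, 0), (0, 0), (0, 0), (0, 0), (0,
    0), (0, 0), (0, 0), (0, 0), (0, 0), (0, 0), (0, 0), (0, 0), (-1, 0), (-1, 0), (-1, 0), (0, 0), (0, 0), (0, 0),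
    (0, 0), (-1, 0), (0, 0), (0, 0), (0, 0), (0, 0), (-1, 0), (-1, 0), (-1, 0), (-1, 0), (-1, 0), (-1, 0), (0, 0),
    (0, 1), (0, 0), (0, 0), (0, 0), (0, 0), (0, 0), (0, -1), (0, -1), (0, -1), (0, 0), (0, 0), (0, 0), (0, 0), (0,
    0), (0, 0), (0, -1), (0, -1), (0, -1), (0, 0), (0, 0), (0, 0), (0, 0), (0, 0), (0, 0), (0, -1), (0, -1), (1, -1),
    (1, 0)]

/-- glued arcs and equations -/
def tord8k_0 : TorT :=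
  ⟨[(0, 1, false), (0, 7, false), (0, 7, true), (1, 2, false), (1, 6, true), (2, 5, false), (2, 6, true), (3, 4,
    true), (3, 5, true), (3, 6, false), (4, 4, true), (5, 7, true)],
    [([0, 0, 0, 0, 2, 1, 0, 0], 2), ([0, 0, 0, 1, 0, 0, 1, 0], 2), ([0, 0, 1, 0, 0, 0, 1, 1], 2), ([0, 0, 1, 1, 0, 1,
    0, 0], 2), ([0, 1, 0, 0, 0, 0, 0, 1], 2), ([0, 1, 1, 0, 0, 0, 0, 0], 2), ([1, 0, 0, 0, 1, 1, 0, 1], 2), ([2, 1,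
    0, 0, 0, 0, 0, 0], 2)]⟩

theorem tord8k_0_ok : tord8k_0.OK 8 := TT.leaf_ok (T := ttd8k_0) (by decide +kernel)

/-- the torus -/
def ttd8k_1 : TT where
  k := 12
  rf := [false, true, true, false, false, false, true, true, true, true, false, false]
  tau := [15, 19, 20, 26, 25, 24, 34, 40, 53, 52, 51, 37, 38, 39, 62, 0, 71, 73, 54, 1, 2, 27, 28, 29, 5, 4, 3, 21,
    22, 23, 86, 48, 95, 41, 6, 49, 50, 11, 12, 13, 7, 33, 94, 65, 66, 59, 60, 61, 31, 35, 36, 10, 9, 8, 18, 72, 69,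
    68, 67, 45, 46, 47, 14, 88, 87, 43, 44, 58, 57, 56, 74, 16, 55, 17, 70, 89, 90, 83, 84, 85, 93, 92, 91, 77, 78,
    79, 30, 64, 63, 75, 76, 82, 81, 80, 42, 32]
  par := [0, 0, 1, 3, 6, 7, 8, 14, 16, 17, 30, 32]
  stars := [[0, 40, 62, 15], [1, 8, 54, 19], [2, 20], [3, 21, 27], [4, 26], [5, 25], [6, 24, 49, 35], [7, 34, 41],
    [9, 53], [10, 52], [11, 37, 51], [12, 38], [13, 39], [14, 63, 88, 32], [16, 64, 87, 30], [17, 74, 71], [18, 55,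
    73], [22, 28], [23, 29], [31, 86, 72, 48], [33, 95, 42], [36, 50], [43, 94, 80, 65], [44, 66], [45, 67, 59], [46,
    60], [47, 61], [56, 70, 75, 89], [57, 69], [58, 68], [76, 90], [77, 83, 91], [78, 84], [79, 85], [81, 93], [82,
    92]]
  word := [[], [], [], [], [], [], [], [], [], [], [], [1], [1], [1], [], [], [], [], [], [], [], [], [], [], [], [],
    [], [], [], [], [], [0], [], [], [], [0], [0], [0], [0], [0], [], [], [], [3, 1], [3, 1], [3, 1, 2, 0], [3, 1, 2,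
    0], [3, 1, 2, 0], [1], [1], [1], [], [], [], [], [], [1, 3], [1, 3], [1, 3], [1, 3, 0, 2], [1, 3, 0, 2], [1, 3,
    0, 2], [], [1], [], [0, 2], [0, 2], [2, 0], [2, 0], [2, 0], [], [], [], [], [], [2], [2], [1], [1], [1], [0, 2],
    [0, 2], [0, 2], [0], [0], [0], [], [], [0], [3], [3], [3, 1], [3, 1], [3, 1], [], []]
  rank := [0, 0, 1, 0, 1, 2, 0, 0, 0, 1, 2, 3, 4, 5, 0, 0, 0, 0, 1, 0, 1, 2, 3, 4, 2, 1, 0, 2, 3, 4, 0, 3, 0, 1, 0,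
    0, 1, 3, 4, 5, 0, 1, 2, 10, 11, 12, 13, 14, 3, 0, 1, 2, 1, 0, 1, 2, 7, 8, 9, 12, 13, 14, 0, 6, 5, 10, 11, 9, 8,
    7, 1, 0, 2, 0, 1, 1, 0, 6, 5, 4, 9, 8, 7, 6, 5, 4, 0, 5, 6, 1, 0, 7, 8, 9, 2, 0]
  just := [0, 0, 2, 0, 4, 5, 0, 0, 0, 8, 9, 10, 11, 12, 0, 0, 0, 0, 1, 0, 2, 3, 17, 18, 5, 4, 0, 3, 17, 18, 0, 6, 0,
    7, 0, 0, 21, 10, 11, 12, 0, 7, 20, 22, 23, 24, 25, 26, 6, 0, 21, 9, 8, 0, 1, 16, 27, 28, 29, 24, 25, 26, 0, 13,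
    14, 22, 23, 29, 28, 27, 15, 0, 16, 0, 15, 30, 0, 32, 33, 19, 34, 35, 31, 32, 33, 19, 0, 14, 13, 30, 0, 31, 35,
    34, 20, 0]
  gA := 35
  gB := 76
  fin := 0
  sid := [0, 1, 2, 3, 4, 5, 6, 7, 1, 8, 9, 10, 11, 12, 13, 0, 14, 15, 16, 1, 2, 3, 17, 18, 6, 5, 4, 3, 17, 18, 14,
    19, 13, 20, 7, 6, 21, 10, 11, 12, 0, 7, 20, 22, 23, 24, 25, 26, 19, 6, 21, 10, 9, 8, 1, 16, 27, 28, 29, 24, 25,
    26, 0, 13, 14, 22, 23, 24, 29, 28, 27, 15, 19, 16, 15, 27, 30, 31, 32, 33, 22, 34, 35, 31, 32, 33, 19, 14, 13,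
    27, 30, 31, 35, 34, 22, 20]
  off := [(0, 0), (0, 0), (0, 0), (0, 0), (0, 0), (0, 0), (0, 0), (0, 0), (0, 0), (0, 0), (0, 0), (0, 0), (0, 0), (0,
    0), (0, 0), (0, 0), (0, 0), (0, 0), (0, 0), (0, 0), (0, 0), (0, 0), (0, 0), (0, 0), (0, 0), (0, 0), (0, 0), (0,
    0), (0, 0), (0, 0), (0, 0), (0, 0), (1, 0), (0, 0), (0, 0), (0, 0), (0, 0), (1, 0), (1, 0), (1, 0), (0, 0), (0,
    0), (0, 0), (0, 0), (0, 0), (0, 0), (0, 0), (0, 0), (-1, 0), (-1, 0), (-1, 0), (0, 0), (0, 0), (0, 0), (0, 0),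
    (0, 0), (0, 0), (0, 0), (0, 0), (0, 0), (0, 0), (0, 0), (0, 0), (0, 0), (0, 0), (1, 1), (1, 1), (1, 1), (1, 1),
    (1, 1), (1, 1), (0, 0), (-1, 0), (0, 0), (0, 0), (1, 1), (0, 0), (0, 0), (0, 0), (0, 0), (1, 1), (0, 0), (0, 0),
    (1, 0), (1, 0), (1, 0), (0, 0), (0, 0), (1, 0), (1, 0), (0, -1), (0, -1), (-1, -1), (-1, -1), (0, 0), (0, 0)]

/-- glued arcs and equations -/
def tord8k_1 : TorT :=
  ⟨[(0, 5, true), (0, 7, false), (0, 7, true), (1, 1, true), (1, 3, false), (1, 4, true), (2, 3, true), (2, 4,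
    false), (2, 6, true), (3, 5, false), (4, 6, false), (5, 7, false), (6, 6, true)],
    [([0, 0, 0, 0, 0, 1, 0, 1], 2), ([0, 0, 0, 0, 1, 0, 1, 0], 2), ([0, 0, 0, 2, 0, 1, 0, 0], 2), ([0, 0, 1, 0, 1, 0,
    0, 0], 2), ([0, 1, 0, 0, 0, 1, 0, 0], 2), ([0, 1, 1, 0, 0, 0, 0, 1], 2), ([1, 1, 0, 1, 0, 0, 1, 0], 2), ([2, 0,
    0, 0, 0, 0, 1, 1], 2)]⟩

theorem tord8k_1_ok : tord8k_1.OK 8 := TT.leaf_ok (T := ttd8k_1) (by decide +kernel)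

/-- the torus -/
def ttd8k_2 : TT where
  k := 12
  rf := [false, true, true, false, false, true, true, false, true, true, false, false]
  tau := [13, 14, 23, 16, 26, 36, 35, 34, 46, 45, 52, 57, 68, 0, 1, 71, 3, 27, 79, 78, 77, 65, 64, 2, 38, 37, 4, 17,
    84, 48, 49, 87, 75, 67, 7, 6, 5, 25, 24, 74, 91, 83, 55, 54, 53, 9, 8, 90, 29, 30, 63, 56, 10, 44, 43, 42, 51,
    11, 95, 94, 93, 81, 80, 50, 22, 21, 76, 33, 12, 88, 89, 15, 85, 86, 39, 32, 66, 20, 19, 18, 62, 61, 92, 41, 28,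
    72, 73, 31, 69, 70, 47, 40, 82, 60, 59, 58]
  par := [0, 0, 2, 4, 5, 8, 10, 11, 12, 18, 28, 40]
  stars := [[0, 34, 68, 13], [1, 14], [2, 15, 64, 23], [3, 16], [4, 17, 27], [5, 26, 37], [6, 36], [7, 35], [8, 47,
    90, 71], [9, 46], [10, 53, 45], [11, 57, 52], [12, 69, 88, 58], [18, 72, 85, 28], [19, 79], [20, 78], [21, 66,
    77], [22, 65], [24, 87, 74, 39], [25, 38], [29, 84, 42, 48], [30, 49], [31, 50, 63, 80], [32, 75], [33, 76, 67],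
    [40, 91], [41, 83, 92], [43, 55], [44, 54], [51, 56], [59, 95], [60, 94], [61, 93, 82], [62, 81], [70, 89], [73,
    86]]
  word := [[], [], [], [], [], [], [], [], [], [], [], [], [], [], [], [1], [], [], [], [], [], [1], [1], [], [], [],
    [], [], [], [2], [2], [2, 0, 3], [2, 0, 3], [2, 0, 3, 1], [], [], [], [], [], [2, 0, 3], [], [3], [], [], [], [],
    [], [], [3], [3], [], [], [], [], [], [], [], [], [0], [0], [0], [0, 3], [0, 3], [], [0], [0], [0], [0, 2, 1, 3],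
    [], [0], [0], [0], [], [], [2, 1, 3], [2, 1, 3], [1], [], [], [], [2, 1], [2, 1], [2], [2], [], [], [], [2, 1,
    3], [1], [1], [], [], [3], [1], [1], [1]]
  rank := [0, 1, 0, 1, 0, 0, 1, 2, 0, 1, 0, 0, 0, 0, 1, 3, 1, 2, 0, 1, 2, 5, 4, 0, 2, 1, 0, 2, 0, 5, 6, 7, 9, 10, 2,
    1, 0, 1, 2, 8, 0, 1, 4, 3, 2, 1, 0, 1, 5, 6, 2, 1, 0, 2, 3, 4, 1, 0, 0, 1, 2, 3, 4, 2, 4, 5, 6, 10, 0, 1, 2, 3,
    3, 4, 8, 9, 6, 2, 1, 0, 4, 3, 0, 1, 0, 3, 4, 7, 1, 2, 1, 0, 0, 2, 1, 0]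
  just := [0, 1, 0, 3, 0, 0, 6, 7, 0, 9, 0, 0, 0, 0, 1, 8, 3, 4, 0, 14, 15, 17, 2, 0, 19, 5, 0, 4, 0, 20, 21, 22, 23,
    24, 7, 6, 0, 5, 19, 18, 0, 26, 27, 28, 10, 9, 0, 25, 20, 21, 29, 11, 0, 10, 28, 27, 11, 0, 0, 30, 31, 32, 33, 29,
    2, 17, 16, 24, 0, 12, 34, 8, 13, 35, 18, 23, 16, 15, 14, 0, 33, 32, 0, 26, 0, 13, 35, 22, 12, 34, 25, 0, 0, 31,
    30, 0]
  gA := 58
  gB := 82
  fin := 0
  sid := [0, 1, 2, 3, 4, 5, 6, 7, 8, 9, 10, 11, 12, 0, 1, 2, 3, 4, 13, 14, 15, 16, 17, 2, 18, 19, 5, 4, 13, 20, 21,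
    22, 23, 24, 0, 7, 6, 5, 19, 18, 25, 26, 20, 27, 28, 10, 9, 8, 20, 21, 22, 29, 11, 10, 28, 27, 29, 11, 12, 30, 31,
    32, 33, 22, 2, 17, 16, 24, 0, 12, 34, 8, 13, 35, 18, 23, 24, 16, 15, 14, 22, 33, 32, 26, 20, 13, 35, 18, 12, 34,
    8, 25, 26, 32, 31, 30]
  off := [(0, 0), (0, 0), (0, 0), (0, 0), (0, 0), (0, 0), (0, 0), (0, 0), (0, 0), (0, 0), (0, 0), (0, 0), (0, 0), (0,
    0), (0, 0), (0, 0), (0, 0), (0, 0), (0, 0), (0, 0), (0, 0), (0, 0), (0, 0), (0, 0), (0, 0), (0, 0), (0, 0), (0,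
    0), (0, 0), (0, 0), (0, 0), (0, 0), (0, 0), (0, 0), (0, 0), (0, 0), (0, 0), (0, 0), (0, 0), (0, 0), (0, 0), (0,
    0), (0, -1), (0, 0), (0, 0), (0, 0), (0, 0), (0, 0), (0, -1), (0, -1), (0, -1), (0, 0), (0, 0), (0, 0), (0, 0),
    (0, 0), (0, 0), (0, 0), (0, 0), (0, 0), (0, 0), (0, 0), (0, 0), (0, -1), (1, 0), (1, 0), (1, 0), (0, 0), (0, 0),
    (0, 0), (0, 0), (1, 0), (0, 0), (0, 0), (-1, 0), (-1, 0), (-1, 0), (0, 0), (0, 0), (0, 0), (-1, 0), (-1, 1), (-1,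
    1), (0, 1), (0, 0), (0, 0), (0, 0), (-1, 0), (-1, 0), (-1, 0), (0, 0), (0, 0), (0, 0), (-1, 0), (-1, 0), (-1, 0)]

/-- glued arcs and equations -/
def tord8k_2 : TorT :=
  ⟨[(0, 3, false), (0, 5, false), (0, 6, true), (1, 3, false), (1, 5, true), (1, 6, false), (2, 4, true), (2, 7,
    false), (2, 7, true), (3, 6, true), (4, 4, true), (4, 5, true), (7, 7, true)],
    [([0, 0, 0, 0, 1, 0, 1, 0], 2), ([0, 0, 0, 1, 0, 0, 0, 1], 2), ([0, 0, 1, 0, 0, 2, 0, 0], 2), ([0, 1, 0, 0, 0, 0,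
    1, 0], 2), ([0, 1, 0, 1, 1, 0, 0, 0], 2), ([1, 0, 0, 1, 0, 0, 0, 0], 2), ([1, 0, 1, 0, 0, 0, 0, 2], 2), ([1, 0,
    1, 0, 1, 1, 0, 0], 2)]⟩

theorem tord8k_2_ok : tord8k_2.OK 8 := TT.leaf_ok (T := ttd8k_2) (by decide +kernel)

/-- the torus -/
def ttd8k_3 : TT where
  k := 8
  rf := [false, true, false, true, false, true, true, false]
  tau := [13, 14, 23, 22, 17, 8, 9, 24, 5, 6, 31, 30, 25, 0, 1, 16, 15, 4, 21, 35, 36, 18, 3, 2, 7, 12, 29, 43, 44,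
    26, 11, 10, 55, 60, 37, 19, 20, 34, 59, 58, 63, 52, 45, 27, 28, 42, 51, 50, 61, 62, 47, 46, 41, 56, 57, 32, 53,
    54, 39, 38, 33, 48, 49, 40]
  par := [0, 0, 2, 7, 19, 27, 32, 33]
  stars := [[0, 25, 13], [1, 14], [2, 15, 16], [3, 23], [4, 22, 18], [5, 17, 8], [6, 9], [7, 10, 24], [11, 31], [12,
    26, 30], [19, 21, 36], [20, 35, 37], [27, 44, 29], [28, 45, 43], [32, 58, 55], [33, 48, 61], [34, 60, 38], [39,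
    59], [40, 63, 50], [41, 53, 56], [42, 46, 52], [47, 51], [49, 62], [54, 57]]
  word := [[], [], [], [], [1], [1], [1], [], [0], [0], [0], [0], [0, 2, 1, 3], [], [], [], [], [0], [0], [], [1],
    [1], [], [], [], [2, 0, 3, 1], [2, 0, 3], [], [2, 1, 3], [2, 1, 3], [1], [1], [], [], [1], [], [0], [0], [0],
    [0], [2], [2, 1], [2, 1, 3], [], [2, 0, 3], [2, 0, 3], [2], [2], [], [], [3], [3], [0, 3], [0], [0], [], [1],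
    [1], [1], [1], [], [], [], [3]]
  rank := [0, 1, 0, 1, 4, 5, 6, 0, 5, 6, 7, 8, 9, 0, 1, 2, 2, 4, 3, 0, 2, 3, 1, 0, 0, 9, 7, 0, 6, 7, 8, 7, 0, 0, 1,
    0, 2, 1, 0, 1, 3, 4, 5, 0, 6, 5, 1, 0, 1, 2, 0, 1, 4, 3, 2, 0, 3, 2, 1, 0, 0, 1, 2, 3]
  just := [0, 1, 0, 3, 4, 5, 6, 0, 5, 6, 7, 8, 9, 0, 1, 2, 2, 4, 10, 0, 11, 10, 3, 0, 0, 9, 12, 0, 13, 12, 8, 7, 0,
    0, 16, 0, 11, 16, 0, 17, 18, 19, 20, 0, 13, 20, 21, 0, 15, 22, 0, 21, 19, 23, 14, 0, 23, 14, 17, 0, 0, 15, 22, 18]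
  gA := 38
  gB := 47
  fin := 0
  sid := [0, 1, 2, 3, 4, 5, 6, 7, 5, 6, 7, 8, 9, 0, 1, 2, 2, 5, 4, 10, 11, 10, 4, 3, 7, 0, 9, 12, 13, 12, 9, 8, 14,
    15, 16, 11, 10, 11, 16, 17, 18, 19, 20, 13, 12, 13, 20, 21, 15, 22, 18, 21, 20, 19, 23, 14, 19, 23, 14, 17, 16,
    15, 22, 18]
  off := [(0, 0), (0, 0), (0, 0), (0, 0), (0, 0), (0, 0), (0, 0), (0, 0), (1, 0), (1, 0), (1, 0), (0, 0), (0, 0), (0,
    0), (0, 0), (0, 0), (0, 0), (1, 0), (1, 0), (0, 0), (0, 0), (-1, 0), (0, 0), (0, 0), (0, 0), (0, 0), (0, 0), (0,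
    0), (0, 0), (-1, 0), (-1, 0), (-1, 0), (0, 0), (0, 0), (0, 0), (0, 0), (0, 0), (1, 0), (1, 0), (0, 0), (0, 0),
    (0, 0), (0, 0), (0, 0), (0, 0), (1, 0), (1, 0), (0, 0), (0, 0), (0, 0), (0, -1), (0, -1), (1, -1), (1, -1), (0,
    0), (0, 0), (0, -1), (-1, 0), (-1, 0), (-1, 0), (0, 0), (0, 0), (0, 0), (0, -1)]

/-- glued arcs and equations -/
def tord8k_3 : TorT :=
  ⟨[(0, 5, false), (0, 7, false), (1, 4, true), (1, 6, false), (2, 5, true), (2, 7, true), (3, 3, true), (3, 6,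
    true), (4, 4, true)],
    [([0, 0, 0, 1, 0, 0, 0, 1], 2), ([0, 0, 0, 1, 1, 1, 0, 0], 2), ([0, 0, 1, 0, 1, 0, 1, 0], 2), ([0, 1, 0, 0, 0, 0,
    1, 0], 2), ([1, 0, 1, 0, 0, 0, 0, 1], 2), ([1, 1, 0, 0, 0, 1, 0, 0], 2)]⟩

theorem tord8k_3_ok : tord8k_3.OK 8 := TT.leaf_ok (T := ttd8k_3) (by decide +kernel)

/-- the torus -/
def ttd8k_4 : TT where
  k := 8
  rf := [false, false, true, false, true, false, true, true]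
  tau := [15, 14, 13, 19, 28, 29, 20, 35, 38, 39, 16, 17, 18, 2, 1, 0, 10, 11, 12, 3, 6, 34, 33, 32, 47, 46, 45, 51,
    4, 5, 52, 59, 23, 22, 21, 7, 60, 61, 8, 9, 62, 63, 48, 49, 50, 26, 25, 24, 42, 43, 44, 27, 30, 58, 57, 56, 55,
    54, 53, 31, 36, 37, 40, 41]
  par := [0, 0, 3, 4, 7, 24, 27, 31]
  stars := [[0, 36, 61, 38, 8], [1, 15], [2, 14], [3, 13, 19], [4, 20, 6, 29], [5, 28, 52, 30], [7, 21, 35], [9, 39],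
    [10, 32, 16], [11, 17], [12, 18], [22, 34], [23, 33], [24, 60, 37, 62, 40], [25, 47], [26, 46], [27, 45, 51],
    [31, 53, 59], [41, 63], [42, 56, 48], [43, 49], [44, 50], [54, 58], [55, 57]]
  word := [[], [], [], [], [], [1], [1], [], [0], [0], [], [], [], [], [], [], [], [], [], [], [0], [0], [0], [0],
    [], [], [], [], [], [0], [0], [], [1], [1], [1], [], [2, 0], [2], [1], [1], [1], [1], [], [], [], [], [], [], [],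
    [], [], [], [1], [1], [1], [1], [0], [0], [0], [], [1, 3], [3], [0], [0]]
  rank := [0, 1, 2, 0, 0, 1, 2, 0, 7, 6, 5, 4, 3, 2, 1, 0, 5, 4, 3, 0, 2, 3, 4, 5, 0, 1, 2, 0, 0, 1, 0, 0, 5, 4, 3,
    0, 8, 0, 7, 6, 7, 6, 5, 4, 3, 2, 1, 0, 5, 4, 3, 0, 0, 1, 2, 3, 3, 2, 1, 0, 8, 0, 7, 6]
  just := [0, 1, 2, 0, 0, 5, 4, 0, 7, 8, 9, 10, 3, 2, 1, 0, 9, 10, 3, 0, 4, 6, 11, 12, 0, 14, 15, 0, 0, 5, 0, 0, 12,
    11, 6, 0, 13, 0, 7, 8, 18, 19, 20, 21, 16, 15, 14, 0, 20, 21, 16, 0, 0, 17, 22, 23, 23, 22, 17, 0, 13, 0, 18, 19]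
  gA := 30
  gB := 37
  fin := 0
  sid := [0, 1, 2, 3, 4, 5, 4, 6, 0, 7, 8, 9, 10, 3, 2, 1, 8, 9, 10, 3, 4, 6, 11, 12, 13, 14, 15, 16, 5, 4, 5, 17, 8,
    12, 11, 6, 0, 13, 0, 7, 13, 18, 19, 20, 21, 16, 15, 14, 19, 20, 21, 16, 5, 17, 22, 23, 19, 23, 22, 17, 13, 0, 13,
    18]
  off := [(0, 0), (0, 0), (0, 0), (0, 0), (0, 0), (0, 0), (-1, 0), (0, 0), (0, 0), (0, 0), (0, 0), (0, 0), (0, 0),
    (0, 0), (0, 0), (0, 0), (0, 0), (0, 0), (0, 0), (0, 0), (0, 0), (1, 0), (0, 0), (0, 0), (0, 0), (0, 0), (0, 0),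
    (0, 0), (0, 0), (0, 0), (1, 0), (0, 0), (-1, 0), (-1, 0), (-1, 0), (0, 0), (0, 0), (1, 1), (-1, 0), (-1, 0), (0,
    0), (0, 0), (0, 0), (0, 0), (0, 0), (0, 0), (0, 0), (0, 0), (0, 0), (0, 0), (0, 0), (0, 0), (0, 0), (-1, 0), (0,
    0), (0, 0), (1, 0), (1, 0), (1, 0), (0, 0), (0, 0), (-1, -1), (1, 0), (1, 0)]

/-- glued arcs and equations -/
def tord8k_4 : TorT :=
  ⟨[(0, 2, false), (0, 6, false), (0, 7, true), (1, 3, false), (1, 6, true), (1, 7, false), (2, 4, false), (2, 5,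
    true), (3, 3, false), (3, 7, false), (4, 4, true), (4, 6, false), (5, 5, true)],
    [([0, 0, 0, 0, 2, 1, 1, 0], 2), ([0, 0, 0, 1, 0, 1, 0, 1], 2), ([0, 0, 0, 2, 0, 1, 0, 0], 2), ([0, 0, 1, 0, 0, 0,
    1, 0], 2), ([0, 0, 1, 0, 1, 0, 0, 0], 2), ([0, 1, 0, 0, 0, 0, 0, 1], 2), ([0, 1, 0, 1, 0, 0, 0, 0], 2), ([2, 0,
    0, 0, 1, 1, 1, 0], 2), ([2, 0, 1, 0, 0, 0, 0, 0], 2)]⟩

theorem tord8k_4_ok : tord8k_4.OK 8 := TT.leaf_ok (T := ttd8k_4) (by decide +kernel)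

/-- the torus -/
def ttd8k_5 : TT where
  k := 6
  rf := [false, true, false, true, true, true]
  tau := [10, 19, 18, 17, 24, 34, 8, 9, 6, 7, 0, 39, 38, 45, 36, 35, 42, 3, 2, 1, 32, 26, 40, 41, 4, 33, 21, 47, 46,
    37, 44, 43, 20, 25, 5, 15, 14, 29, 12, 11, 22, 23, 16, 31, 30, 13, 28, 27]
  par := [0, 0, 1, 4, 5, 13]
  stars := [[0, 10], [1, 11, 32, 20], [2, 19], [3, 18], [4, 17, 43, 24], [5, 25, 34], [6, 35, 8], [7, 9], [12, 39],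
    [13, 46, 29, 38], [14, 37, 30, 45], [15, 36], [16, 42], [21, 33, 26], [22, 27, 40], [23, 41], [28, 47], [31, 44]]
  word := [[], [], [], [], [], [], [1, 3, 0, 2], [1, 3, 0, 2], [3, 1, 2, 0], [3, 1, 2, 0], [], [0], [0], [], [3, 1,
    2, 0], [3, 1, 2, 0], [2], [], [], [], [0], [0], [2], [2], [], [], [1], [1, 2], [1, 2], [1, 2, 0], [2], [2], [1],
    [], [], [1, 3, 0, 2], [1, 3, 0, 2], [1, 3, 0], [1], [1], [3], [3], [3], [3], [3], [], [3, 0], [3, 0]]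
  rank := [0, 0, 1, 2, 0, 0, 8, 9, 8, 9, 0, 3, 4, 0, 6, 7, 1, 2, 1, 0, 2, 0, 1, 0, 0, 1, 0, 2, 3, 5, 4, 3, 2, 1, 0,
    7, 6, 5, 4, 3, 1, 0, 1, 3, 4, 0, 3, 2]
  just := [0, 0, 2, 3, 0, 0, 6, 7, 6, 7, 0, 1, 8, 0, 10, 11, 12, 3, 2, 0, 13, 0, 15, 0, 0, 5, 0, 14, 16, 9, 17, 4,
    13, 5, 0, 11, 10, 9, 8, 1, 15, 0, 12, 4, 17, 0, 16, 14]
  gA := 21
  gB := 23
  fin := 0
  sid := [0, 1, 2, 3, 4, 5, 6, 7, 6, 7, 0, 1, 8, 9, 10, 11, 12, 4, 3, 2, 1, 13, 14, 15, 4, 5, 13, 14, 16, 9, 10, 17,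
    1, 13, 5, 6, 11, 10, 9, 8, 14, 15, 12, 4, 17, 10, 9, 16]
  off := [(0, 0), (0, 0), (0, 0), (0, 0), (0, 0), (0, 0), (0, 0), (0, 0), (0, 0), (0, 0), (0, 0), (0, 0), (0, 0), (0,
    0), (0, 0), (0, 0), (0, 0), (0, 0), (0, 0), (0, 0), (0, 0), (0, 0), (0, 0), (0, 0), (0, 0), (0, 0), (-1, 0), (-1,
    0), (0, 0), (-1, 1), (0, 1), (0, 0), (-1, 0), (-1, 0), (0, 0), (0, 0), (0, 0), (0, 0), (-1, 0), (-1, 0), (0, -1),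
    (0, -1), (0, -1), (0, -1), (0, -1), (0, 0), (0, 0), (1, -1)]

/-- glued arcs and equations -/
def tord8k_5 : TorT :=
  ⟨[(0, 2, false), (0, 4, false), (0, 6, false), (1, 1, true), (1, 3, true), (1, 7, false), (2, 2, true), (2, 5,
    false), (3, 7, true), (4, 6, true), (5, 5, true)],
    [([0, 0, 0, 0, 0, 2, 2, 0], 2), ([0, 0, 0, 0, 1, 0, 0, 1], 2), ([0, 0, 1, 1, 0, 0, 0, 0], 2), ([0, 1, 0, 0, 0, 0,
    0, 1], 2), ([0, 1, 1, 0, 0, 1, 0, 0], 2), ([1, 0, 0, 1, 0, 0, 1, 0], 2), ([1, 0, 1, 0, 0, 0, 0, 0], 2), ([1, 1,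
    0, 1, 1, 0, 0, 0], 2)]⟩

theorem tord8k_5_ok : tord8k_5.OK 8 := TT.leaf_ok (T := ttd8k_5) (by decide +kernel)

/-- the torus -/
def ttd8k_6 : TT where
  k := 6
  rf := [false, false, false, true, true, false]
  tau := [8, 16, 31, 24, 34, 20, 19, 18, 0, 40, 39, 32, 26, 44, 43, 42, 1, 41, 7, 6, 5, 35, 36, 30, 3, 33, 12, 45,
    46, 37, 23, 2, 11, 25, 4, 21, 22, 29, 47, 10, 9, 17, 15, 14, 13, 27, 28, 38]
  par := [0, 0, 1, 2, 4, 9]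
  stars := [[0, 18, 41, 9], [1, 8, 42, 17], [2, 16, 31], [3, 24], [4, 25, 34], [5, 35, 21], [6, 20], [7, 19], [10,
    40, 39], [11, 32], [12, 33, 26], [13, 27, 45], [14, 44], [15, 43], [22, 36], [23, 37, 30], [28, 46], [29, 38, 47]]
  word := [[], [], [], [], [], [1, 3], [1, 3], [1, 3], [], [], [0], [0], [0], [0, 2], [0, 2], [0, 2], [], [0, 2], [2,
    0], [2, 0], [2, 0], [2, 0], [2, 0], [], [], [], [1], [2], [2], [2, 0], [], [], [1], [], [], [1, 3], [1, 3], [1,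
    3], [1], [1], [], [3, 1], [3, 1], [3, 1], [3, 1], [3], [3], [0]]
  rank := [0, 0, 0, 1, 0, 5, 6, 7, 0, 0, 0, 1, 3, 4, 5, 6, 0, 7, 7, 6, 5, 4, 3, 1, 1, 2, 3, 1, 0, 2, 1, 0, 1, 2, 0,
    4, 3, 2, 1, 0, 0, 7, 6, 5, 4, 1, 0, 1]
  just := [0, 0, 0, 3, 0, 5, 6, 7, 0, 0, 0, 9, 10, 11, 12, 13, 0, 1, 7, 6, 5, 14, 15, 2, 3, 4, 10, 16, 0, 17, 2, 0,
    9, 4, 0, 14, 15, 17, 8, 0, 0, 1, 13, 12, 11, 16, 0, 8]
  gA := 10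
  gB := 28
  fin := 0
  sid := [0, 1, 2, 3, 4, 5, 6, 7, 1, 0, 8, 9, 10, 11, 12, 13, 2, 1, 0, 7, 6, 5, 14, 15, 3, 4, 10, 11, 16, 17, 15, 2,
    9, 10, 4, 5, 14, 15, 17, 8, 8, 0, 1, 13, 12, 11, 16, 17]
  off := [(0, 0), (0, 0), (0, 0), (0, 0), (0, 0), (0, 0), (0, 0), (0, 0), (0, 0), (0, 0), (0, 0), (0, 0), (0, 0), (0,
    0), (0, 0), (0, 0), (0, 0), (0, 0), (1, 1), (1, 1), (1, 1), (1, 1), (0, 0), (0, 0), (0, 0), (0, 0), (-1, 0), (-1,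
    0), (0, 0), (0, 0), (0, 0), (0, 0), (-1, 0), (-1, 0), (0, 0), (0, 0), (-1, -1), (-1, -1), (-1, -1), (-1, 0), (0,
    0), (0, 0), (-1, -1), (-1, -1), (-1, -1), (-1, -1), (0, -1), (0, -1)]

/-- glued arcs and equations -/
def tord8k_6 : TorT :=
  ⟨[(0, 0, true), (0, 1, true), (0, 3, false), (1, 1, true), (2, 4, false), (2, 7, false), (2, 7, true), (3, 5,
    false), (3, 6, true), (4, 5, true), (4, 6, false), (5, 5, true), (6, 7, false)],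
    [([0, 0, 0, 0, 0, 1, 1, 1], 2), ([0, 0, 0, 0, 1, 0, 1, 0], 2), ([0, 0, 0, 1, 0, 0, 0, 1], 2), ([0, 0, 0, 1, 0, 2,
    0, 0], 2), ([0, 1, 1, 0, 1, 0, 0, 0], 2), ([1, 0, 0, 1, 0, 0, 0, 0], 2), ([1, 0, 1, 0, 0, 0, 0, 1], 2), ([1, 2,
    1, 0, 0, 0, 0, 0], 2)]⟩

theorem tord8k_6_ok : tord8k_6.OK 8 := TT.leaf_ok (T := ttd8k_6) (by decide +kernel)

/-- the torus -/
def ttd8k_7 : TT where
  k := 8
  rf := [false, true, false, true, true, false, false, true]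
  tau := [10, 23, 8, 24, 25, 37, 46, 30, 2, 31, 0, 16, 17, 53, 62, 22, 11, 12, 52, 51, 50, 61, 15, 1, 3, 4, 36, 35,
    34, 45, 7, 9, 43, 44, 28, 27, 26, 5, 47, 57, 58, 55, 56, 32, 33, 29, 6, 38, 59, 60, 20, 19, 18, 13, 63, 41, 42,
    39, 40, 48, 49, 21, 14, 54]
  par := [0, 0, 1, 3, 5, 6, 13, 14]
  stars := [[0, 31, 10], [1, 11, 16], [2, 23, 8], [3, 9, 24], [4, 25], [5, 26, 37], [6, 38, 47], [7, 46, 30], [12,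
    17], [13, 53, 18], [14, 63, 54], [15, 22, 62], [19, 52], [20, 51], [21, 50, 61], [27, 36], [28, 35], [29, 45,
    34], [32, 43, 57], [33, 44], [39, 58, 40], [41, 59, 48], [42, 55, 56], [49, 60]]
  word := [[], [], [2], [], [], [], [], [0, 3, 1], [3], [3], [], [], [], [], [], [3], [], [], [], [], [], [2], [2],
    [], [], [], [], [], [], [0, 2, 1], [0, 2, 1], [2], [0, 2, 1], [0, 2, 1], [], [], [], [], [], [0, 2], [0, 2], [0],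
    [0], [0, 3, 1], [0, 3, 1], [0, 3, 1], [], [], [2], [2], [], [], [], [], [], [1], [1], [3, 1], [3, 1], [3], [3],
    [3], [], []]
  rank := [0, 0, 8, 0, 1, 0, 0, 6, 8, 9, 0, 1, 2, 0, 0, 7, 1, 2, 3, 4, 5, 6, 7, 0, 0, 1, 2, 3, 4, 5, 6, 9, 3, 4, 4,
    3, 2, 0, 1, 2, 1, 0, 2, 3, 4, 5, 0, 1, 0, 1, 5, 4, 3, 0, 1, 0, 2, 2, 1, 0, 1, 6, 0, 1]
  just := [0, 0, 2, 0, 4, 0, 0, 7, 2, 3, 0, 1, 8, 0, 0, 11, 1, 8, 9, 12, 13, 14, 11, 0, 0, 4, 5, 15, 16, 17, 7, 3,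
    18, 19, 16, 15, 5, 0, 6, 20, 21, 0, 22, 18, 19, 17, 0, 6, 0, 23, 13, 12, 9, 0, 10, 0, 22, 20, 21, 0, 23, 14, 0,
    10]
  gA := 41
  gB := 48
  fin := 0
  sid := [0, 1, 2, 3, 4, 5, 6, 7, 2, 3, 0, 1, 8, 9, 10, 11, 1, 8, 9, 12, 13, 14, 11, 2, 3, 4, 5, 15, 16, 17, 7, 0,
    18, 19, 17, 16, 15, 5, 6, 20, 20, 21, 22, 18, 19, 17, 7, 6, 21, 23, 14, 13, 12, 9, 10, 22, 22, 18, 20, 21, 23,
    14, 11, 10]
  off := [(0, 0), (0, 0), (0, 0), (0, 0), (0, 0), (0, 0), (0, 0), (0, 0), (0, -1), (0, -1), (0, 0), (0, 0), (0, 0),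
    (0, 0), (0, 0), (0, 0), (0, 0), (0, 0), (0, 0), (0, 0), (0, 0), (0, 0), (0, 1), (0, 0), (0, 0), (0, 0), (0, 0),
    (0, 0), (0, 0), (0, 0), (0, 1), (0, 1), (0, 0), (0, 0), (0, 0), (0, 0), (0, 0), (0, 0), (0, 0), (0, 0), (0, 0),
    (0, 0), (0, 0), (0, -1), (0, -1), (0, -1), (0, 0), (0, 0), (-1, 0), (0, 0), (0, 0), (0, 0), (0, 0), (0, 0), (0,
    0), (-1, 0), (-1, 0), (-1, -1), (-1, -1), (-1, -1), (0, -1), (0, -1), (0, 0), (0, 0)]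

/-- glued arcs and equations -/
def tord8k_7 : TorT :=
  ⟨[(0, 2, false), (0, 3, false), (1, 4, false), (1, 7, true), (2, 4, true), (3, 3, true), (5, 5, false), (6, 6,
    true), (6, 7, false)],
    [([0, 0, 0, 0, 0, 0, 2, 1], 2), ([0, 0, 0, 1, 1, 0, 0, 0], 2), ([0, 0, 1, 0, 0, 2, 0, 0], 2), ([0, 1, 0, 0, 1, 0,
    0, 0], 2), ([1, 0, 1, 0, 0, 0, 0, 1], 2), ([1, 1, 0, 1, 0, 0, 0, 0], 2)]⟩

theorem tord8k_7_ok : tord8k_7.OK 8 := TT.leaf_ok (T := ttd8k_7) (by decide +kernel)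

/-- the torus -/
def ttd8k_8 : TT where
  k := 8
  rf := [false, false, true, false, true, false, true, true]
  tau := [8, 11, 10, 9, 16, 28, 27, 23, 0, 3, 2, 1, 32, 44, 43, 39, 4, 29, 30, 54, 53, 25, 26, 7, 52, 21, 22, 6, 5,
    17, 18, 55, 12, 45, 46, 62, 61, 41, 42, 15, 60, 37, 38, 14, 13, 33, 34, 63, 56, 59, 58, 57, 24, 20, 19, 31, 48,
    51, 50, 49, 40, 36, 35, 47]
  par := [0, 0, 4, 5, 12, 13, 19, 35]
  stars := [[0, 16, 4, 9], [1, 8, 32, 12], [2, 11], [3, 10], [5, 17, 29], [6, 28], [7, 27, 23], [13, 33, 45], [14,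
    44], [15, 43, 39], [18, 30], [19, 55, 31], [20, 54], [21, 25, 53], [22, 26], [24, 48, 57, 52], [34, 46], [35, 63,
    47], [36, 62], [37, 41, 61], [38, 42], [40, 56, 49, 60], [50, 59], [51, 58]]
  word := [[], [0], [0], [0], [], [], [], [2, 1, 3], [], [1], [1], [1], [], [], [], [0], [], [], [], [], [], [2, 0,
    3], [2, 0, 3], [2, 0, 3], [2, 1, 3], [2, 1, 3], [2, 1, 3], [], [], [], [], [], [], [], [], [], [], [1], [1], [1],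
    [0], [0], [0], [], [], [], [], [], [2, 1], [2], [2], [2], [2, 0, 3], [], [], [], [0, 3], [3], [3], [3], [1], [],
    [], []]
  rank := [0, 5, 6, 7, 0, 0, 1, 8, 0, 7, 6, 5, 0, 0, 1, 4, 0, 1, 2, 0, 1, 6, 7, 8, 5, 6, 7, 1, 0, 1, 2, 3, 0, 1, 2,
    0, 1, 2, 3, 4, 0, 2, 3, 1, 0, 1, 2, 3, 4, 1, 0, 1, 5, 1, 0, 3, 4, 1, 0, 1, 0, 1, 0, 3]
  just := [0, 1, 2, 3, 0, 0, 5, 6, 0, 3, 2, 1, 0, 0, 8, 9, 0, 4, 10, 0, 12, 13, 14, 6, 15, 13, 14, 5, 0, 4, 10, 11,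
    0, 7, 16, 0, 18, 19, 20, 9, 0, 19, 20, 8, 0, 7, 16, 17, 21, 22, 0, 23, 15, 12, 0, 11, 21, 23, 0, 22, 0, 18, 0, 17]
  gA := 40
  gB := 50
  fin := 0
  sid := [0, 1, 2, 3, 0, 4, 5, 6, 1, 0, 3, 2, 1, 7, 8, 9, 0, 4, 10, 11, 12, 13, 14, 6, 15, 13, 14, 6, 5, 4, 10, 11,
    1, 7, 16, 17, 18, 19, 20, 9, 21, 19, 20, 9, 8, 7, 16, 17, 15, 21, 22, 23, 15, 13, 12, 11, 21, 15, 23, 22, 21, 19,
    18, 17]
  off := [(0, 0), (0, 0), (0, 0), (0, 0), (1, 0), (0, 0), (0, 0), (0, 0), (0, 0), (0, 0), (-1, 0), (-1, 0), (-1, 0),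
    (0, 0), (0, 0), (0, 0), (1, 0), (0, 0), (0, 0), (0, 0), (0, 0), (0, 0), (0, 0), (1, 0), (0, 0), (-1, 0), (-1, 0),
    (0, 0), (0, 0), (0, 0), (0, 0), (0, 0), (-1, 0), (0, 0), (0, 0), (0, 0), (0, 0), (0, 0), (0, 0), (-1, 0), (0, 0),
    (1, 0), (1, 0), (0, 0), (0, 0), (0, 0), (0, 0), (0, 0), (0, 0), (-1, 1), (0, 0), (0, 0), (1, 0), (0, 0), (0, 0),
    (0, 0), (0, 0), (1, -1), (0, -1), (0, -1), (-1, 0), (0, 0), (0, 0), (0, 0)]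

/-- glued arcs and equations -/
def tord8k_8 : TorT :=
  ⟨[(0, 0, true), (0, 4, false), (1, 3, true), (1, 5, false), (2, 2, true), (2, 6, false), (3, 6, true), (4, 5,
    true), (7, 7, false)],
    [([0, 0, 0, 0, 1, 0, 1, 0], 2), ([0, 0, 0, 1, 0, 0, 0, 2], 2), ([0, 0, 1, 0, 0, 0, 1, 0], 2), ([0, 0, 1, 1, 0, 0,
    0, 0], 2), ([0, 1, 0, 0, 0, 2, 0, 0], 2), ([2, 1, 0, 0, 1, 0, 0, 0], 2)]⟩

theorem tord8k_8_ok : tord8k_8.OK 8 := TT.leaf_ok (T := ttd8k_8) (by decide +kernel)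

/-- the torus -/
def ttd8k_9 : TT where
  k := 8
  rf := [false, true, false, true, false, false, true, true]
  tau := [8, 19, 18, 17, 25, 38, 44, 43, 0, 20, 47, 55, 54, 29, 61, 42, 24, 3, 2, 1, 9, 46, 36, 35, 16, 4, 39, 63,
    62, 13, 53, 34, 56, 52, 31, 23, 22, 45, 5, 26, 48, 60, 15, 7, 6, 37, 21, 10, 40, 59, 58, 57, 33, 30, 12, 11, 32,
    51, 50, 49, 41, 14, 28, 27]
  par := [0, 0, 1, 4, 5, 6, 11, 14]
  stars := [[0, 43, 8], [1, 9, 20], [2, 19], [3, 18], [4, 17, 25], [5, 26, 39], [6, 38, 45], [7, 44], [10, 47, 21],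
    [11, 48, 40], [12, 55], [13, 30, 54], [14, 62, 29], [15, 42, 61], [16, 35, 24], [22, 46, 37], [23, 36], [27, 56,
    32], [28, 63], [31, 34, 53], [33, 57, 52], [41, 49, 60], [50, 59], [51, 58]]
  word := [[], [], [], [], [], [], [], [], [], [], [2], [], [], [0], [], [0, 3, 1, 2], [], [], [], [], [], [2], [2],
    [2], [], [], [], [1], [1], [1], [1], [2], [1], [3, 1], [3], [3], [3], [], [], [], [3], [3, 0, 2, 1], [3, 0, 2,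
    1], [], [], [], [3], [3], [2], [0, 2, 1], [0, 2, 1], [0, 2, 1], [0, 2], [0], [], [], [0], [0, 3, 1], [0, 3, 1],
    [0, 3, 1], [0, 3, 1, 2], [], [0], [0]]
  rank := [0, 0, 1, 2, 0, 0, 0, 1, 0, 1, 7, 0, 1, 0, 0, 10, 3, 2, 1, 0, 1, 6, 5, 4, 3, 0, 1, 2, 1, 0, 2, 0, 3, 3, 0,
    4, 5, 1, 0, 1, 8, 9, 10, 1, 0, 1, 6, 7, 8, 6, 5, 4, 3, 2, 1, 0, 3, 4, 5, 6, 9, 0, 1, 2]
  just := [0, 0, 2, 3, 0, 0, 0, 7, 0, 1, 8, 0, 10, 0, 0, 13, 4, 3, 2, 0, 1, 15, 16, 14, 4, 0, 5, 18, 12, 0, 11, 0,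
    17, 19, 0, 14, 16, 6, 0, 5, 9, 21, 13, 7, 0, 6, 15, 8, 9, 22, 23, 20, 19, 11, 10, 0, 17, 20, 23, 22, 21, 0, 12,
    18]
  gA := 13
  gB := 31
  fin := 0
  sid := [0, 1, 2, 3, 4, 5, 6, 7, 0, 1, 8, 9, 10, 11, 12, 13, 14, 4, 3, 2, 1, 8, 15, 16, 14, 4, 5, 17, 18, 12, 11,
    19, 17, 20, 19, 14, 16, 15, 6, 5, 9, 21, 13, 0, 7, 6, 15, 8, 9, 21, 22, 23, 20, 19, 11, 10, 17, 20, 23, 22, 21,
    13, 12, 18]
  off := [(0, 0), (0, 0), (0, 0), (0, 0), (0, 0), (0, 0), (0, 0), (0, 0), (0, 0), (0, 0), (0, 0), (0, 0), (0, 0), (0,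
    0), (0, 0), (0, 0), (0, 0), (0, 0), (0, 0), (0, 0), (0, 0), (0, 0), (0, 0), (0, 0), (0, 0), (0, 0), (0, 0), (0,
    0), (0, 0), (-1, 0), (-1, 0), (0, 0), (0, 0), (0, 0), (0, -1), (0, -1), (0, -1), (0, -1), (0, 0), (0, 0), (0,
    -1), (0, 0), (0, 0), (0, 0), (0, 0), (0, 0), (0, -1), (0, -1), (0, 0), (0, 1), (0, 0), (0, 0), (1, 1), (1, 0),
    (0, 0), (0, 0), (1, 0), (1, 0), (0, -1), (0, -1), (0, 0), (0, 0), (0, 0), (1, 0)]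

/-- glued arcs and equations -/
def tord8k_9 : TorT :=
  ⟨[(0, 0, false), (1, 3, true), (1, 4, false), (2, 2, true), (2, 7, false), (3, 7, true), (4, 6, true), (5, 5,
    true), (5, 6, true)],
    [([0, 0, 0, 0, 0, 1, 2, 0], 2), ([0, 0, 0, 0, 1, 0, 0, 1], 2), ([0, 0, 1, 0, 0, 1, 0, 1], 2), ([0, 0, 1, 1, 0, 0,
    0, 0], 2), ([0, 2, 0, 0, 1, 0, 0, 0], 2), ([2, 0, 0, 1, 0, 0, 0, 0], 2)]⟩

theorem tord8k_9_ok : tord8k_9.OK 8 := TT.leaf_ok (T := ttd8k_9) (by decide +kernel)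

/-- the torus -/
def ttd8k_10 : TT where
  k := 8
  rf := [false, false, true, true, true, false, true, false]
  tau := [8, 22, 23, 27, 38, 44, 36, 29, 0, 30, 31, 19, 54, 60, 52, 21, 26, 25, 24, 11, 53, 15, 1, 2, 18, 17, 16, 3,
    37, 7, 9, 10, 48, 62, 63, 43, 6, 28, 4, 45, 58, 57, 56, 35, 5, 39, 49, 50, 32, 46, 47, 59, 14, 20, 12, 61, 42,
    41, 40, 51, 13, 55, 33, 34]
  par := [0, 0, 1, 3, 4, 5, 12, 13]
  stars := [[0, 30, 9], [1, 8, 22], [2, 23], [3, 16, 27], [4, 28, 38], [5, 39, 45], [6, 44, 36], [7, 37, 29], [10,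
    31], [11, 24, 19], [12, 20, 54], [13, 55, 61], [14, 60, 52], [15, 53, 21], [17, 26], [18, 25], [32, 49, 46], [33,
    62, 48], [34, 63], [35, 43, 56], [40, 51, 59], [41, 58], [42, 57], [47, 50]]
  word := [[], [], [], [], [], [], [0, 2, 1], [0, 2, 1], [], [2], [2], [2], [], [], [3], [], [], [], [], [3], [3],
    [], [], [], [], [], [], [], [], [0, 3, 1], [3], [3], [0], [0], [0], [0, 3, 1], [0, 3, 1], [], [], [], [0, 2], [0,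
    2], [0, 2], [0, 2, 1], [], [], [0], [0], [1], [1], [1], [2], [2], [2], [], [], [3, 1], [3, 1], [3, 1], [3], [],
    [], [1], [1]]
  rank := [0, 0, 1, 0, 0, 0, 6, 7, 0, 6, 5, 3, 0, 0, 1, 1, 2, 3, 4, 3, 2, 1, 0, 1, 4, 3, 2, 0, 1, 7, 6, 5, 2, 3, 4,
    5, 6, 1, 0, 1, 1, 2, 3, 5, 0, 1, 1, 0, 2, 1, 0, 0, 1, 2, 0, 1, 3, 2, 1, 0, 0, 1, 3, 4]
  just := [0, 0, 2, 0, 0, 0, 6, 7, 0, 8, 9, 10, 0, 0, 12, 1, 3, 14, 15, 10, 13, 1, 0, 2, 15, 14, 3, 0, 4, 7, 8, 9,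
    16, 17, 18, 19, 6, 4, 0, 5, 20, 21, 22, 19, 0, 5, 23, 0, 16, 23, 0, 0, 12, 13, 0, 11, 22, 21, 20, 0, 0, 11, 17,
    18]
  gA := 47
  gB := 51
  fin := 0
  sid := [0, 1, 2, 3, 4, 5, 6, 7, 1, 0, 8, 9, 10, 11, 12, 13, 3, 14, 15, 9, 10, 13, 1, 2, 9, 15, 14, 3, 4, 7, 0, 8,
    16, 17, 18, 19, 6, 7, 4, 5, 20, 21, 22, 19, 6, 5, 16, 23, 17, 16, 23, 20, 12, 13, 10, 11, 19, 22, 21, 20, 12, 11,
    17, 18]
  off := [(0, 0), (0, 0), (0, 0), (0, 0), (0, 0), (0, 0), (0, 0), (0, 0), (0, 0), (0, 0), (0, 0), (0, 0), (0, 0), (0,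
    0), (0, 0), (0, 0), (0, 0), (0, 0), (0, 0), (0, -1), (0, -1), (0, 0), (0, 0), (0, 0), (0, -1), (0, 0), (0, 0),
    (0, 0), (0, 0), (0, -1), (0, -1), (0, -1), (0, 0), (0, 0), (0, 0), (0, 0), (0, -1), (0, -1), (0, 0), (0, 0), (0,
    0), (0, 0), (0, 0), (0, 1), (0, 0), (0, 0), (0, 0), (0, 0), (-1, 0), (-1, 0), (-1, 0), (-1, 0), (0, 1), (0, 1),
    (0, 0), (0, 0), (-1, 0), (-1, -1), (-1, -1), (-1, -1), (0, 0), (0, 0), (-1, 0), (-1, 0)]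

/-- glued arcs and equations -/
def tord8k_10 : TorT :=
  ⟨[(0, 0, true), (0, 2, true), (1, 1, true), (1, 6, false), (2, 7, false), (3, 3, false), (4, 5, true), (4, 6,
    false), (5, 7, false)],
    [([0, 0, 0, 0, 0, 2, 0, 1], 2), ([0, 0, 0, 0, 2, 0, 1, 0], 2), ([0, 0, 1, 0, 0, 0, 0, 1], 2), ([0, 1, 1, 0, 0, 0,
    0, 0], 2), ([1, 0, 0, 2, 0, 0, 0, 0], 2), ([1, 1, 0, 0, 0, 0, 1, 0], 2)]⟩

theorem tord8k_10_ok : tord8k_10.OK 8 := TT.leaf_ok (T := ttd8k_10) (by decide +kernel)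

end Pool.Agent.Lib_MP_fa6e45
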