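import Pool.Agent.Lib_MP_fa6e45.DQ8k_0d
import Pool.Agent.Lib_MP_fa6e45.RD8k_0

/-!
MP_fa6e45_co, stage 9: straight-side patterns with `8` sides, part of a certificate (generated by a program).
-/

namespace Pool.Agent.Lib_MP_fa6e45

theorem cD8k_0_k0_0 : allI cD8k_0_c (rjL dJ cD8k_0_q rD8k_0_0) 0 = true := by
  decide +kernel

theorem cD8k_0_k0_1 : allI cD8k_0_c (rjL dJ cD8k_0_q rD8k_0_1) 24 = true := by
  decide +kernel

theorem cD8k_0_k0_2 : allI cD8k_0_c (rjL dJ cD8k_0_q rD8k_0_2) 48 = true := by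
  decide +kernel

theorem cD8k_0_k0_3 : allI cD8k_0_c (rjL dJ cD8k_0_q rD8k_0_3) 72 = true := by
  decide +kernel

theorem cD8k_0_k0_4 : allI cD8k_0_c (rjL dJ cD8k_0_q rD8k_0_4) 96 = true := by
  decide +kernel

theorem cD8k_0_k0_5 : allI cD8k_0_c (rjL dJ cD8k_0_q rD8k_0_5) 120 = true := by
  decide +kernel

theorem cD8k_0_k0_6 : allI cD8k_0_c (rjL dJ cD8k_0_q rD8k_0_6) 144 = true := by
  decide +kernel

theorem cD8k_0_k0_7 : allI cD8k_0_c (rjL dJ cD8k_0_q rD8k_0_7) 168 = true := by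
  decide +kernel

theorem cD8k_0_k0_8 : allI cD8k_0_c (rjL dJ cD8k_0_q rD8k_0_8) 192 = true := by
  decide +kernel

theorem cD8k_0_k0_9 : allI cD8k_0_c (rjL dJ cD8k_0_q rD8k_0_9) 216 = true := by
  decide +kernel

theorem cD8k_0_k0_10 : allI cD8k_0_c (rjL dJ cD8k_0_q rD8k_0_10) 240 = true := by
  decide +kernel

theorem cD8k_0_k0_11 : allI cD8k_0_c (rjL dJ cD8k_0_q rD8k_0_11) 264 = true := by
  decide +kernel

theorem cD8k_0_k0_12 : allI cD8k_0_c (rjL dJ cD8k_0_q rD8k_0_12) 288 = true := by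
  decide +kernel

theorem cD8k_0_k0_13 : allI cD8k_0_c (rjL dJ cD8k_0_q rD8k_0_13) 312 = true := by
  decide +kernel

theorem cD8k_0_k0_14 : allI cD8k_0_c (rjL dJ cD8k_0_q rD8k_0_14) 336 = true := by
  decide +kernel

theorem cD8k_0_k0_15 : allI cD8k_0_c (rjL dJ cD8k_0_q rD8k_0_15) 360 = true := by
  decide +kernel

theorem cD8k_0_k0_16 : allI cD8k_0_c (rjL dJ cD8k_0_q rD8k_0_16) 384 = true := by
  decide +kernel

theorem cD8k_0_k0_17 : allI cD8k_0_c (rjL dJ cD8k_0_q rD8k_0_17) 408 = true := by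
  decide +kernel

theorem cD8k_0_k0_18 : allI cD8k_0_c (rjL dJ cD8k_0_q rD8k_0_18) 432 = true := by
  decide +kernel

theorem cD8k_0_k0_19 : allI cD8k_0_c (rjL dJ cD8k_0_q rD8k_0_19) 456 = true := by
  decide +kernel

theorem cD8k_0_k0_20 : allI cD8k_0_c (rjL dJ cD8k_0_q rD8k_0_20) 480 = true := by
  decide +kernel

theorem cD8k_0_k0_21 : allI cD8k_0_c (rjL dJ cD8k_0_q rD8k_0_21) 504 = true := by
  decide +kernel

theorem cD8k_0_k0_22 : allI cD8k_0_c (rjL dJ cD8k_0_q rD8k_0_22) 528 = true := by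
  decide +kernel

theorem cD8k_0_k0_23 : allI cD8k_0_c (rjL dJ cD8k_0_q rD8k_0_23) 552 = true := by
  decide +kernel

theorem cD8k_0_k0_24 : allI cD8k_0_c (rjL dJ cD8k_0_q rD8k_0_24) 576 = true := by
  decide +kernel

theorem cD8k_0_k0_25 : allI cD8k_0_c (rjL dJ cD8k_0_q rD8k_0_25) 600 = true := by
  decide +kernel

theorem cD8k_0_k0_26 : allI cD8k_0_c (rjL dJ cD8k_0_q rD8k_0_26) 624 = true := by
  decide +kernel

theorem cD8k_0_k0_27 : allI cD8k_0_c (rjL dJ cD8k_0_q rD8k_0_27) 648 = true := by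
  decide +kernel

theorem cD8k_0_k0_28 : allI cD8k_0_c (rjL dJ cD8k_0_q rD8k_0_28) 672 = true := by
  decide +kernel

theorem cD8k_0_k0_29 : allI cD8k_0_c (rjL dJ cD8k_0_q rD8k_0_29) 696 = true := by
  decide +kernel

theorem cD8k_0_k0_30 : allI cD8k_0_c (rjL dJ cD8k_0_q rD8k_0_30) 720 = true := by
  decide +kernel

theorem cD8k_0_k0_31 : allI cD8k_0_c (rjL dJ cD8k_0_q rD8k_0_31) 744 = true := by
  decide +kernel

theorem cD8k_0_k0_32 : allI cD8k_0_c (rjL dJ cD8k_0_q rD8k_0_32) 768 = true := by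
  decide +kernel

theorem cD8k_0_k0_33 : allI cD8k_0_c (rjL dJ cD8k_0_q rD8k_0_33) 792 = true := by
  decide +kernel

theorem cD8k_0_k0_34 : allI cD8k_0_c (rjL dJ cD8k_0_q rD8k_0_34) 816 = true := by
  decide +kernel

theorem cD8k_0_k0_35 : allI cD8k_0_c (rjL dJ cD8k_0_q rD8k_0_35) 840 = true := by
  decide +kernel

theorem cD8k_0_k0_36 : allI cD8k_0_c (rjL dJ cD8k_0_q rD8k_0_36) 864 = true := by
  decide +kernel

theorem cD8k_0_k0_37 : allI cD8k_0_c (rjL dJ cD8k_0_q rD8k_0_37) 888 = true := by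
  decide +kernel

theorem cD8k_0_k0_38 : allI cD8k_0_c (rjL dJ cD8k_0_q rD8k_0_38) 912 = true := by
  decide +kernel

theorem cD8k_0_k0_39 : allI cD8k_0_c (rjL dJ cD8k_0_q rD8k_0_39) 936 = true := by
  decide +kernel

theorem cD8k_0_k0_40 : allI cD8k_0_c (rjL dJ cD8k_0_q rD8k_0_40) 960 = true := by
  decide +kernel

theorem cD8k_0_k0_41 : allI cD8k_0_c (rjL dJ cD8k_0_q rD8k_0_41) 984 = true := by
  decide +kernel

theorem cD8k_0_k0_42 : allI cD8k_0_c (rjL dJ cD8k_0_q rD8k_0_42) 1008 = true := by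
  decide +kernel

theorem cD8k_0_k0_43 : allI cD8k_0_c (rjL dJ cD8k_0_q rD8k_0_43) 1032 = true := by
  decide +kernel

theorem cD8k_0_k0_44 : allI cD8k_0_c (rjL dJ cD8k_0_q rD8k_0_44) 1056 = true := by
  decide +kernel

theorem cD8k_0_k0_45 : allI cD8k_0_c (rjL dJ cD8k_0_q rD8k_0_45) 1080 = true := by
  decide +kernel

theorem cD8k_0_k0_46 : allI cD8k_0_c (rjL dJ cD8k_0_q rD8k_0_46) 1104 = true := by
  decide +kernel

theorem cD8k_0_k0_47 : allI cD8k_0_c (rjL dJ cD8k_0_q rD8k_0_47) 1128 = true := by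
  decide +kernel

theorem cD8k_0_k0_48 : allI cD8k_0_c (rjL dJ cD8k_0_q rD8k_0_48) 1152 = true := by
  decide +kernel

theorem cD8k_0_k0_49 : allI cD8k_0_c (rjL dJ cD8k_0_q rD8k_0_49) 1176 = true := by
  decide +kernel

theorem cD8k_0_k0_50 : allI cD8k_0_c (rjL dJ cD8k_0_q rD8k_0_50) 1200 = true := by
  decide +kernel

theorem cD8k_0_k0_51 : allI cD8k_0_c (rjL dJ cD8k_0_q rD8k_0_51) 1224 = true := by
  decide +kernel

theorem cD8k_0_k0_52 : allI cD8k_0_c (rjL dJ cD8k_0_q rD8k_0_52) 1248 = true := by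
  decide +kernel

theorem cD8k_0_k0_53 : allI cD8k_0_c (rjL dJ cD8k_0_q rD8k_0_53) 1272 = true := by
  decide +kernel

theorem cD8k_0_k0_54 : allI cD8k_0_c (rjL dJ cD8k_0_q rD8k_0_54) 1296 = true := by
  decide +kernel

theorem cD8k_0_k0_55 : allI cD8k_0_c (rjL dJ cD8k_0_q rD8k_0_55) 1320 = true := by
  decide +kernel

theorem cD8k_0_k0_56 : allI cD8k_0_c (rjL dJ cD8k_0_q rD8k_0_56) 1344 = true := by
  decide +kernel

theorem cD8k_0_k0_57 : allI cD8k_0_c (rjL dJ cD8k_0_q rD8k_0_57) 1368 = true := by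
  decide +kernel

theorem cD8k_0_k0_58 : allI cD8k_0_c (rjL dJ cD8k_0_q rD8k_0_58) 1392 = true := by
  decide +kernel

theorem cD8k_0_k0_59 : allI cD8k_0_c (rjL dJ cD8k_0_q rD8k_0_59) 1416 = true := by
  decide +kernel

theorem cD8k_0_k0_60 : allI cD8k_0_c (rjL dJ cD8k_0_q rD8k_0_60) 1440 = true := by
  decide +kernel

theorem cD8k_0_k0_61 : allI cD8k_0_c (rjL dJ cD8k_0_q rD8k_0_61) 1464 = true := by
  decide +kernel

theorem cD8k_0_k0_62 : allI cD8k_0_c (rjL dJ cD8k_0_q rD8k_0_62) 1488 = true := by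
  decide +kernel

theorem cD8k_0_k0_63 : allI cD8k_0_c (rjL dJ cD8k_0_q rD8k_0_63) 1512 = true := by
  decide +kernel

theorem cD8k_0_k0_64 : allI cD8k_0_c (rjL dJ cD8k_0_q rD8k_0_64) 1536 = true := by
  decide +kernel

theorem cD8k_0_k0_65 : allI cD8k_0_c (rjL dJ cD8k_0_q rD8k_0_65) 1560 = true := by
  decide +kernel

theorem cD8k_0_k0_66 : allI cD8k_0_c (rjL dJ cD8k_0_q rD8k_0_66) 1584 = true := by
  decide +kernel

theorem cD8k_0_k0_67 : allI cD8k_0_c (rjL dJ cD8k_0_q rD8k_0_67) 1608 = true := by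
  decide +kernel

theorem cD8k_0_k0_68 : allI cD8k_0_c (rjL dJ cD8k_0_q rD8k_0_68) 1632 = true := by
  decide +kernel

theorem cD8k_0_k0_69 : allI cD8k_0_c (rjL dJ cD8k_0_q rD8k_0_69) 1656 = true := by
  decide +kernel

theorem cD8k_0_k0_70 : allI cD8k_0_c (rjL dJ cD8k_0_q rD8k_0_70) 1680 = true := by
  decide +kernel

theorem cD8k_0_k0_71 : allI cD8k_0_c (rjL dJ cD8k_0_q rD8k_0_71) 1704 = true := by
  decide +kernel

theorem cD8k_0_k0_72 : allI cD8k_0_c (rjL dJ cD8k_0_q rD8k_0_72) 1728 = true := by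
  decide +kernel

theorem cD8k_0_k0_73 : allI cD8k_0_c (rjL dJ cD8k_0_q rD8k_0_73) 1752 = true := by
  decide +kernel

theorem cD8k_0_k0_74 : allI cD8k_0_c (rjL dJ cD8k_0_q rD8k_0_74) 1776 = true := by
  decide +kernel

theorem cD8k_0_k0_75 : allI cD8k_0_c (rjL dJ cD8k_0_q rD8k_0_75) 1800 = true := by
  decide +kernel

theorem cD8k_0_k0_76 : allI cD8k_0_c (rjL dJ cD8k_0_q rD8k_0_76) 1824 = true := by
  decide +kernel

theorem cD8k_0_k0_77 : allI cD8k_0_c (rjL dJ cD8k_0_q rD8k_0_77) 1848 = true := by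
  decide +kernel

theorem cD8k_0_k0_78 : allI cD8k_0_c (rjL dJ cD8k_0_q rD8k_0_78) 1872 = true := by
  decide +kernel

/-- nodes -/
noncomputable def cD8k_0_n0 : List (QJ PN) :=
  rjL dJ cD8k_0_q rD8k_0_0 ++ (rjL dJ cD8k_0_q rD8k_0_1 ++ (rjL dJ cD8k_0_q rD8k_0_2 ++ (
    rjL dJ cD8k_0_q rD8k_0_3 ++ (rjL dJ cD8k_0_q rD8k_0_4 ++ (rjL dJ cD8k_0_q rD8k_0_5 ++ (
    rjL dJ cD8k_0_q rD8k_0_6 ++ (rjL dJ cD8k_0_q rD8k_0_7 ++ (rjL dJ cD8k_0_q rD8k_0_8 ++ (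
    rjL dJ cD8k_0_q rD8k_0_9 ++ (rjL dJ cD8k_0_q rD8k_0_10 ++ (rjL dJ cD8k_0_q rD8k_0_11 ++ (
    rjL dJ cD8k_0_q rD8k_0_12 ++ (rjL dJ cD8k_0_q rD8k_0_13 ++ (rjL dJ cD8k_0_q rD8k_0_14 ++ (
    rjL dJ cD8k_0_q rD8k_0_15 ++ (rjL dJ cD8k_0_q rD8k_0_16 ++ (rjL dJ cD8k_0_q rD8k_0_17 ++ (
    rjL dJ cD8k_0_q rD8k_0_18 ++ (rjL dJ cD8k_0_q rD8k_0_19 ++ (rjL dJ cD8k_0_q rD8k_0_20 ++ (
    rjL dJ cD8k_0_q rD8k_0_21 ++ (rjL dJ cD8k_0_q rD8k_0_22 ++ (rjL dJ cD8k_0_q rD8k_0_23 ++ (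
    rjL dJ cD8k_0_q rD8k_0_24 ++ (rjL dJ cD8k_0_q rD8k_0_25 ++ (rjL dJ cD8k_0_q rD8k_0_26 ++ (
    rjL dJ cD8k_0_q rD8k_0_27 ++ (rjL dJ cD8k_0_q rD8k_0_28 ++ (rjL dJ cD8k_0_q rD8k_0_29 ++ (
    rjL dJ cD8k_0_q rD8k_0_30 ++ (rjL dJ cD8k_0_q rD8k_0_31 ++ (rjL dJ cD8k_0_q rD8k_0_32 ++ (
    rjL dJ cD8k_0_q rD8k_0_33 ++ (rjL dJ cD8k_0_q rD8k_0_34 ++ (rjL dJ cD8k_0_q rD8k_0_35 ++ (
    rjL dJ cD8k_0_q rD8k_0_36 ++ (rjL dJ cD8k_0_q rD8k_0_37 ++ (rjL dJ cD8k_0_q rD8k_0_38 ++ (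
    rjL dJ cD8k_0_q rD8k_0_39 ++ (rjL dJ cD8k_0_q rD8k_0_40 ++ (rjL dJ cD8k_0_q rD8k_0_41 ++ (
    rjL dJ cD8k_0_q rD8k_0_42 ++ (rjL dJ cD8k_0_q rD8k_0_43 ++ (rjL dJ cD8k_0_q rD8k_0_44 ++ (
    rjL dJ cD8k_0_q rD8k_0_45 ++ (rjL dJ cD8k_0_q rD8k_0_46 ++ (rjL dJ cD8k_0_q rD8k_0_47 ++ (
    rjL dJ cD8k_0_q rD8k_0_48 ++ (rjL dJ cD8k_0_q rD8k_0_49 ++ (rjL dJ cD8k_0_q rD8k_0_50 ++ (
    rjL dJ cD8k_0_q rD8k_0_51 ++ (rjL dJ cD8k_0_q rD8k_0_52 ++ (rjL dJ cD8k_0_q rD8k_0_53 ++ (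
    rjL dJ cD8k_0_q rD8k_0_54 ++ (rjL dJ cD8k_0_q rD8k_0_55 ++ (rjL dJ cD8k_0_q rD8k_0_56 ++ (
    rjL dJ cD8k_0_q rD8k_0_57 ++ (rjL dJ cD8k_0_q rD8k_0_58 ++ (rjL dJ cD8k_0_q rD8k_0_59 ++ (
    rjL dJ cD8k_0_q rD8k_0_60 ++ (rjL dJ cD8k_0_q rD8k_0_61 ++ (rjL dJ cD8k_0_q rD8k_0_62 ++ (
    rjL dJ cD8k_0_q rD8k_0_63 ++ (rjL dJ cD8k_0_q rD8k_0_64 ++ (rjL dJ cD8k_0_q rD8k_0_65 ++ (
    rjL dJ cD8k_0_q rD8k_0_66 ++ (rjL dJ cD8k_0_q rD8k_0_67 ++ (rjL dJ cD8k_0_q rD8k_0_68 ++ (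
    rjL dJ cD8k_0_q rD8k_0_69 ++ (rjL dJ cD8k_0_q rD8k_0_70 ++ (rjL dJ cD8k_0_q rD8k_0_71 ++ (
    rjL dJ cD8k_0_q rD8k_0_72 ++ (rjL dJ cD8k_0_q rD8k_0_73 ++ (rjL dJ cD8k_0_q rD8k_0_74 ++ (
    rjL dJ cD8k_0_q rD8k_0_75 ++ (rjL dJ cD8k_0_q rD8k_0_76 ++ (rjL dJ cD8k_0_q rD8k_0_77 ++
    rjL dJ cD8k_0_q rD8k_0_78)))))))))))))))))))))))))))))))))))))))))))))))))))))))))))))))))))))))))))))

theorem cD8k_0_k0 : allI cD8k_0_c cD8k_0_n0 0 = true := by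
  refine allI_appQ (k := 24) cD8k_0_k0_0 (by decide +kernel) ?_
  refine allI_appQ (k := 24) cD8k_0_k0_1 (by decide +kernel) ?_
  refine allI_appQ (k := 24) cD8k_0_k0_2 (by decide +kernel) ?_
  refine allI_appQ (k := 24) cD8k_0_k0_3 (by decide +kernel) ?_
  refine allI_appQ (k := 24) cD8k_0_k0_4 (by decide +kernel) ?_
  refine allI_appQ (k := 24) cD8k_0_k0_5 (by decide +kernel) ?_
  refine allI_appQ (k := 24) cD8k_0_k0_6 (by decide +kernel) ?_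
  refine allI_appQ (k := 24) cD8k_0_k0_7 (by decide +kernel) ?_
  refine allI_appQ (k := 24) cD8k_0_k0_8 (by decide +kernel) ?_
  refine allI_appQ (k := 24) cD8k_0_k0_9 (by decide +kernel) ?_
  refine allI_appQ (k := 24) cD8k_0_k0_10 (by decide +kernel) ?_
  refine allI_appQ (k := 24) cD8k_0_k0_11 (by decide +kernel) ?_
  refine allI_appQ (k := 24) cD8k_0_k0_12 (by decide +kernel) ?_
  refine allI_appQ (k := 24) cD8k_0_k0_13 (by decide +kernel) ?_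
  refine allI_appQ (k := 24) cD8k_0_k0_14 (by decide +kernel) ?_
  refine allI_appQ (k := 24) cD8k_0_k0_15 (by decide +kernel) ?_
  refine allI_appQ (k := 24) cD8k_0_k0_16 (by decide +kernel) ?_
  refine allI_appQ (k := 24) cD8k_0_k0_17 (by decide +kernel) ?_
  refine allI_appQ (k := 24) cD8k_0_k0_18 (by decide +kernel) ?_
  refine allI_appQ (k := 24) cD8k_0_k0_19 (by decide +kernel) ?_
  refine allI_appQ (k := 24) cD8k_0_k0_20 (by decide +kernel) ?_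
  refine allI_appQ (k := 24) cD8k_0_k0_21 (by decide +kernel) ?_
  refine allI_appQ (k := 24) cD8k_0_k0_22 (by decide +kernel) ?_
  refine allI_appQ (k := 24) cD8k_0_k0_23 (by decide +kernel) ?_
  refine allI_appQ (k := 24) cD8k_0_k0_24 (by decide +kernel) ?_
  refine allI_appQ (k := 24) cD8k_0_k0_25 (by decide +kernel) ?_
  refine allI_appQ (k := 24) cD8k_0_k0_26 (by decide +kernel) ?_
  refine allI_appQ (k := 24) cD8k_0_k0_27 (by decide +kernel) ?_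
  refine allI_appQ (k := 24) cD8k_0_k0_28 (by decide +kernel) ?_
  refine allI_appQ (k := 24) cD8k_0_k0_29 (by decide +kernel) ?_
  refine allI_appQ (k := 24) cD8k_0_k0_30 (by decide +kernel) ?_
  refine allI_appQ (k := 24) cD8k_0_k0_31 (by decide +kernel) ?_
  refine allI_appQ (k := 24) cD8k_0_k0_32 (by decide +kernel) ?_
  refine allI_appQ (k := 24) cD8k_0_k0_33 (by decide +kernel) ?_
  refine allI_appQ (k := 24) cD8k_0_k0_34 (by decide +kernel) ?_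
  refine allI_appQ (k := 24) cD8k_0_k0_35 (by decide +kernel) ?_
  refine allI_appQ (k := 24) cD8k_0_k0_36 (by decide +kernel) ?_
  refine allI_appQ (k := 24) cD8k_0_k0_37 (by decide +kernel) ?_
  refine allI_appQ (k := 24) cD8k_0_k0_38 (by decide +kernel) ?_
  refine allI_appQ (k := 24) cD8k_0_k0_39 (by decide +kernel) ?_
  refine allI_appQ (k := 24) cD8k_0_k0_40 (by decide +kernel) ?_
  refine allI_appQ (k := 24) cD8k_0_k0_41 (by decide +kernel) ?_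
  refine allI_appQ (k := 24) cD8k_0_k0_42 (by decide +kernel) ?_
  refine allI_appQ (k := 24) cD8k_0_k0_43 (by decide +kernel) ?_
  refine allI_appQ (k := 24) cD8k_0_k0_44 (by decide +kernel) ?_
  refine allI_appQ (k := 24) cD8k_0_k0_45 (by decide +kernel) ?_
  refine allI_appQ (k := 24) cD8k_0_k0_46 (by decide +kernel) ?_
  refine allI_appQ (k := 24) cD8k_0_k0_47 (by decide +kernel) ?_
  refine allI_appQ (k := 24) cD8k_0_k0_48 (by decide +kernel) ?_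
  refine allI_appQ (k := 24) cD8k_0_k0_49 (by decide +kernel) ?_
  refine allI_appQ (k := 24) cD8k_0_k0_50 (by decide +kernel) ?_
  refine allI_appQ (k := 24) cD8k_0_k0_51 (by decide +kernel) ?_
  refine allI_appQ (k := 24) cD8k_0_k0_52 (by decide +kernel) ?_
  refine allI_appQ (k := 24) cD8k_0_k0_53 (by decide +kernel) ?_
  refine allI_appQ (k := 24) cD8k_0_k0_54 (by decide +kernel) ?_
  refine allI_appQ (k := 24) cD8k_0_k0_55 (by decide +kernel) ?_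
  refine allI_appQ (k := 24) cD8k_0_k0_56 (by decide +kernel) ?_
  refine allI_appQ (k := 24) cD8k_0_k0_57 (by decide +kernel) ?_
  refine allI_appQ (k := 24) cD8k_0_k0_58 (by decide +kernel) ?_
  refine allI_appQ (k := 24) cD8k_0_k0_59 (by decide +kernel) ?_
  refine allI_appQ (k := 24) cD8k_0_k0_60 (by decide +kernel) ?_
  refine allI_appQ (k := 24) cD8k_0_k0_61 (by decide +kernel) ?_
  refine allI_appQ (k := 24) cD8k_0_k0_62 (by decide +kernel) ?_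
  refine allI_appQ (k := 24) cD8k_0_k0_63 (by decide +kernel) ?_
  refine allI_appQ (k := 24) cD8k_0_k0_64 (by decide +kernel) ?_
  refine allI_appQ (k := 24) cD8k_0_k0_65 (by decide +kernel) ?_
  refine allI_appQ (k := 24) cD8k_0_k0_66 (by decide +kernel) ?_
  refine allI_appQ (k := 24) cD8k_0_k0_67 (by decide +kernel) ?_
  refine allI_appQ (k := 24) cD8k_0_k0_68 (by decide +kernel) ?_
  refine allI_appQ (k := 24) cD8k_0_k0_69 (by decide +kernel) ?_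
  refine allI_appQ (k := 24) cD8k_0_k0_70 (by decide +kernel) ?_
  refine allI_appQ (k := 24) cD8k_0_k0_71 (by decide +kernel) ?_
  refine allI_appQ (k := 24) cD8k_0_k0_72 (by decide +kernel) ?_
  refine allI_appQ (k := 24) cD8k_0_k0_73 (by decide +kernel) ?_
  refine allI_appQ (k := 24) cD8k_0_k0_74 (by decide +kernel) ?_
  refine allI_appQ (k := 24) cD8k_0_k0_75 (by decide +kernel) ?_
  refine allI_appQ (k := 24) cD8k_0_k0_76 (by decide +kernel) ?_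
  refine allI_appQ (k := 24) cD8k_0_k0_77 (by decide +kernel) ?_
  exact cD8k_0_k0_78

theorem cD8k_0_l0 : cD8k_0_n0.length = 1893 := by
  decide +kernel

end Pool.Agent.Lib_MP_fa6e45
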