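import Pool.Agent.Lib_MP_fa6e45.DQ8k_0d
import Pool.Agent.Lib_MP_fa6e45.RD8k_1

/-!
MP_fa6e45_co, stage 9: straight-side patterns with `8` sides, part of a certificate (generated by a program).
-/

namespace Pool.Agent.Lib_MP_fa6e45

theorem cD8k_0_k1_0 : allI cD8k_0_c (rjL dJ cD8k_0_q rD8k_1_0) 1893 = true := by
  decide +kernel

theorem cD8k_0_k1_1 : allI cD8k_0_c (rjL dJ cD8k_0_q rD8k_1_1) 1917 = true := by
  decide +kernel

theorem cD8k_0_k1_2 : allI cD8k_0_c (rjL dJ cD8k_0_q rD8k_1_2) 1941 = true := by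
  decide +kernel

theorem cD8k_0_k1_3 : allI cD8k_0_c (rjL dJ cD8k_0_q rD8k_1_3) 1965 = true := by
  decide +kernel

theorem cD8k_0_k1_4 : allI cD8k_0_c (rjL dJ cD8k_0_q rD8k_1_4) 1989 = true := by
  decide +kernel

theorem cD8k_0_k1_5 : allI cD8k_0_c (rjL dJ cD8k_0_q rD8k_1_5) 2013 = true := by
  decide +kernel

theorem cD8k_0_k1_6 : allI cD8k_0_c (rjL dJ cD8k_0_q rD8k_1_6) 2037 = true := by
  decide +kernel

theorem cD8k_0_k1_7 : allI cD8k_0_c (rjL dJ cD8k_0_q rD8k_1_7) 2061 = true := by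
  decide +kernel

theorem cD8k_0_k1_8 : allI cD8k_0_c (rjL dJ cD8k_0_q rD8k_1_8) 2085 = true := by
  decide +kernel

theorem cD8k_0_k1_9 : allI cD8k_0_c (rjL dJ cD8k_0_q rD8k_1_9) 2109 = true := by
  decide +kernel

theorem cD8k_0_k1_10 : allI cD8k_0_c (rjL dJ cD8k_0_q rD8k_1_10) 2133 = true := by
  decide +kernel

theorem cD8k_0_k1_11 : allI cD8k_0_c (rjL dJ cD8k_0_q rD8k_1_11) 2157 = true := by
  decide +kernel

theorem cD8k_0_k1_12 : allI cD8k_0_c (rjL dJ cD8k_0_q rD8k_1_12) 2181 = true := by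
  decide +kernel

theorem cD8k_0_k1_13 : allI cD8k_0_c (rjL dJ cD8k_0_q rD8k_1_13) 2205 = true := by
  decide +kernel

theorem cD8k_0_k1_14 : allI cD8k_0_c (rjL dJ cD8k_0_q rD8k_1_14) 2221 = true := by
  decide +kernel

theorem cD8k_0_k1_15 : allI cD8k_0_c (rjL dJ cD8k_0_q rD8k_1_15) 2245 = true := by
  decide +kernel

theorem cD8k_0_k1_16 : allI cD8k_0_c (rjL dJ cD8k_0_q rD8k_1_16) 2262 = true := by
  decide +kernel

theorem cD8k_0_k1_17 : allI cD8k_0_c (rjL dJ cD8k_0_q rD8k_1_17) 2286 = true := by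
  decide +kernel

theorem cD8k_0_k1_18 : allI cD8k_0_c (rjL dJ cD8k_0_q rD8k_1_18) 2310 = true := by
  decide +kernel

theorem cD8k_0_k1_19 : allI cD8k_0_c (rjL dJ cD8k_0_q rD8k_1_19) 2332 = true := by
  decide +kernel

theorem cD8k_0_k1_20 : allI cD8k_0_c (rjL dJ cD8k_0_q rD8k_1_20) 2345 = true := by
  decide +kernel

theorem cD8k_0_k1_21 : allI cD8k_0_c (rjL dJ cD8k_0_q rD8k_1_21) 2369 = true := by
  decide +kernel

theorem cD8k_0_k1_22 : allI cD8k_0_c (rjL dJ cD8k_0_q rD8k_1_22) 2392 = true := by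
  decide +kernel

theorem cD8k_0_k1_23 : allI cD8k_0_c (rjL dJ cD8k_0_q rD8k_1_23) 2411 = true := by
  decide +kernel

theorem cD8k_0_k1_24 : allI cD8k_0_c (rjL dJ cD8k_0_q rD8k_1_24) 2422 = true := by
  decide +kernel

theorem cD8k_0_k1_25 : allI cD8k_0_c (rjL dJ cD8k_0_q rD8k_1_25) 2444 = true := by
  decide +kernel

theorem cD8k_0_k1_26 : allI cD8k_0_c (rjL dJ cD8k_0_q rD8k_1_26) 2463 = true := by
  decide +kernel

theorem cD8k_0_k1_27 : allI cD8k_0_c (rjL dJ cD8k_0_q rD8k_1_27) 2475 = true := by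
  decide +kernel

theorem cD8k_0_k1_28 : allI cD8k_0_c (rjL dJ cD8k_0_q rD8k_1_28) 2489 = true := by
  decide +kernel

theorem cD8k_0_k1_29 : allI cD8k_0_c (rjL dJ cD8k_0_q rD8k_1_29) 2502 = true := by
  decide +kernel

theorem cD8k_0_k1_30 : allI cD8k_0_c (rjL dJ cD8k_0_q rD8k_1_30) 2511 = true := by
  decide +kernel

theorem cD8k_0_k1_31 : allI cD8k_0_c (rjL dJ cD8k_0_q rD8k_1_31) 2529 = true := by
  decide +kernel

theorem cD8k_0_k1_32 : allI cD8k_0_c (rjL dJ cD8k_0_q rD8k_1_32) 2543 = true := by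
  decide +kernel

theorem cD8k_0_k1_33 : allI cD8k_0_c (rjL dJ cD8k_0_q rD8k_1_33) 2557 = true := by
  decide +kernel

theorem cD8k_0_k1_34 : allI cD8k_0_c (rjL dJ cD8k_0_q rD8k_1_34) 2568 = true := by
  decide +kernel

theorem cD8k_0_k1_35 : allI cD8k_0_c (rjL dJ cD8k_0_q rD8k_1_35) 2587 = true := by
  decide +kernel

theorem cD8k_0_k1_36 : allI cD8k_0_c (rjL dJ cD8k_0_q rD8k_1_36) 2601 = true := by
  decide +kernel

theorem cD8k_0_k1_37 : allI cD8k_0_c (rjL dJ cD8k_0_q rD8k_1_37) 2616 = true := by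
  decide +kernel

theorem cD8k_0_k1_38 : allI cD8k_0_c (rjL dJ cD8k_0_q rD8k_1_38) 2635 = true := by
  decide +kernel

theorem cD8k_0_k1_39 : allI cD8k_0_c (rjL dJ cD8k_0_q rD8k_1_39) 2649 = true := by
  decide +kernel

theorem cD8k_0_k1_40 : allI cD8k_0_c (rjL dJ cD8k_0_q rD8k_1_40) 2668 = true := by
  decide +kernel

theorem cD8k_0_k1_41 : allI cD8k_0_c (rjL dJ cD8k_0_q rD8k_1_41) 2692 = true := by
  decide +kernel

theorem cD8k_0_k1_42 : allI cD8k_0_c (rjL dJ cD8k_0_q rD8k_1_42) 2715 = true := by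
  decide +kernel

theorem cD8k_0_k1_43 : allI cD8k_0_c (rjL dJ cD8k_0_q rD8k_1_43) 2739 = true := by
  decide +kernel

theorem cD8k_0_k1_44 : allI cD8k_0_c (rjL dJ cD8k_0_q rD8k_1_44) 2761 = true := by
  decide +kernel

theorem cD8k_0_k1_45 : allI cD8k_0_c (rjL dJ cD8k_0_q rD8k_1_45) 2776 = true := by
  decide +kernel

theorem cD8k_0_k1_46 : allI cD8k_0_c (rjL dJ cD8k_0_q rD8k_1_46) 2786 = true := by
  decide +kernel

/-- nodes -/
noncomputable def cD8k_0_n1 : List (QJ PN) :=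
  rjL dJ cD8k_0_q rD8k_1_0 ++ (rjL dJ cD8k_0_q rD8k_1_1 ++ (rjL dJ cD8k_0_q rD8k_1_2 ++ (
    rjL dJ cD8k_0_q rD8k_1_3 ++ (rjL dJ cD8k_0_q rD8k_1_4 ++ (rjL dJ cD8k_0_q rD8k_1_5 ++ (
    rjL dJ cD8k_0_q rD8k_1_6 ++ (rjL dJ cD8k_0_q rD8k_1_7 ++ (rjL dJ cD8k_0_q rD8k_1_8 ++ (
    rjL dJ cD8k_0_q rD8k_1_9 ++ (rjL dJ cD8k_0_q rD8k_1_10 ++ (rjL dJ cD8k_0_q rD8k_1_11 ++ (
    rjL dJ cD8k_0_q rD8k_1_12 ++ (rjL dJ cD8k_0_q rD8k_1_13 ++ (rjL dJ cD8k_0_q rD8k_1_14 ++ (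
    rjL dJ cD8k_0_q rD8k_1_15 ++ (rjL dJ cD8k_0_q rD8k_1_16 ++ (rjL dJ cD8k_0_q rD8k_1_17 ++ (
    rjL dJ cD8k_0_q rD8k_1_18 ++ (rjL dJ cD8k_0_q rD8k_1_19 ++ (rjL dJ cD8k_0_q rD8k_1_20 ++ (
    rjL dJ cD8k_0_q rD8k_1_21 ++ (rjL dJ cD8k_0_q rD8k_1_22 ++ (rjL dJ cD8k_0_q rD8k_1_23 ++ (
    rjL dJ cD8k_0_q rD8k_1_24 ++ (rjL dJ cD8k_0_q rD8k_1_25 ++ (rjL dJ cD8k_0_q rD8k_1_26 ++ (
    rjL dJ cD8k_0_q rD8k_1_27 ++ (rjL dJ cD8k_0_q rD8k_1_28 ++ (rjL dJ cD8k_0_q rD8k_1_29 ++ (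
    rjL dJ cD8k_0_q rD8k_1_30 ++ (rjL dJ cD8k_0_q rD8k_1_31 ++ (rjL dJ cD8k_0_q rD8k_1_32 ++ (
    rjL dJ cD8k_0_q rD8k_1_33 ++ (rjL dJ cD8k_0_q rD8k_1_34 ++ (rjL dJ cD8k_0_q rD8k_1_35 ++ (
    rjL dJ cD8k_0_q rD8k_1_36 ++ (rjL dJ cD8k_0_q rD8k_1_37 ++ (rjL dJ cD8k_0_q rD8k_1_38 ++ (
    rjL dJ cD8k_0_q rD8k_1_39 ++ (rjL dJ cD8k_0_q rD8k_1_40 ++ (rjL dJ cD8k_0_q rD8k_1_41 ++ (
    rjL dJ cD8k_0_q rD8k_1_42 ++ (rjL dJ cD8k_0_q rD8k_1_43 ++ (rjL dJ cD8k_0_q rD8k_1_44 ++ (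
    rjL dJ cD8k_0_q rD8k_1_45 ++
    rjL dJ cD8k_0_q rD8k_1_46)))))))))))))))))))))))))))))))))))))))))))))

theorem cD8k_0_k1 : allI cD8k_0_c cD8k_0_n1 1893 = true := by
  refine allI_appQ (k := 24) cD8k_0_k1_0 (by decide +kernel) ?_
  refine allI_appQ (k := 24) cD8k_0_k1_1 (by decide +kernel) ?_
  refine allI_appQ (k := 24) cD8k_0_k1_2 (by decide +kernel) ?_
  refine allI_appQ (k := 24) cD8k_0_k1_3 (by decide +kernel) ?_
  refine allI_appQ (k := 24) cD8k_0_k1_4 (by decide +kernel) ?_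
  refine allI_appQ (k := 24) cD8k_0_k1_5 (by decide +kernel) ?_
  refine allI_appQ (k := 24) cD8k_0_k1_6 (by decide +kernel) ?_
  refine allI_appQ (k := 24) cD8k_0_k1_7 (by decide +kernel) ?_
  refine allI_appQ (k := 24) cD8k_0_k1_8 (by decide +kernel) ?_
  refine allI_appQ (k := 24) cD8k_0_k1_9 (by decide +kernel) ?_
  refine allI_appQ (k := 24) cD8k_0_k1_10 (by decide +kernel) ?_
  refine allI_appQ (k := 24) cD8k_0_k1_11 (by decide +kernel) ?_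
  refine allI_appQ (k := 24) cD8k_0_k1_12 (by decide +kernel) ?_
  refine allI_appQ (k := 16) cD8k_0_k1_13 (by decide +kernel) ?_
  refine allI_appQ (k := 24) cD8k_0_k1_14 (by decide +kernel) ?_
  refine allI_appQ (k := 17) cD8k_0_k1_15 (by decide +kernel) ?_
  refine allI_appQ (k := 24) cD8k_0_k1_16 (by decide +kernel) ?_
  refine allI_appQ (k := 24) cD8k_0_k1_17 (by decide +kernel) ?_
  refine allI_appQ (k := 22) cD8k_0_k1_18 (by decide +kernel) ?_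
  refine allI_appQ (k := 13) cD8k_0_k1_19 (by decide +kernel) ?_
  refine allI_appQ (k := 24) cD8k_0_k1_20 (by decide +kernel) ?_
  refine allI_appQ (k := 23) cD8k_0_k1_21 (by decide +kernel) ?_
  refine allI_appQ (k := 19) cD8k_0_k1_22 (by decide +kernel) ?_
  refine allI_appQ (k := 11) cD8k_0_k1_23 (by decide +kernel) ?_
  refine allI_appQ (k := 22) cD8k_0_k1_24 (by decide +kernel) ?_
  refine allI_appQ (k := 19) cD8k_0_k1_25 (by decide +kernel) ?_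
  refine allI_appQ (k := 12) cD8k_0_k1_26 (by decide +kernel) ?_
  refine allI_appQ (k := 14) cD8k_0_k1_27 (by decide +kernel) ?_
  refine allI_appQ (k := 13) cD8k_0_k1_28 (by decide +kernel) ?_
  refine allI_appQ (k := 9) cD8k_0_k1_29 (by decide +kernel) ?_
  refine allI_appQ (k := 18) cD8k_0_k1_30 (by decide +kernel) ?_
  refine allI_appQ (k := 14) cD8k_0_k1_31 (by decide +kernel) ?_
  refine allI_appQ (k := 14) cD8k_0_k1_32 (by decide +kernel) ?_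
  refine allI_appQ (k := 11) cD8k_0_k1_33 (by decide +kernel) ?_
  refine allI_appQ (k := 19) cD8k_0_k1_34 (by decide +kernel) ?_
  refine allI_appQ (k := 14) cD8k_0_k1_35 (by decide +kernel) ?_
  refine allI_appQ (k := 15) cD8k_0_k1_36 (by decide +kernel) ?_
  refine allI_appQ (k := 19) cD8k_0_k1_37 (by decide +kernel) ?_
  refine allI_appQ (k := 14) cD8k_0_k1_38 (by decide +kernel) ?_
  refine allI_appQ (k := 19) cD8k_0_k1_39 (by decide +kernel) ?_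
  refine allI_appQ (k := 24) cD8k_0_k1_40 (by decide +kernel) ?_
  refine allI_appQ (k := 23) cD8k_0_k1_41 (by decide +kernel) ?_
  refine allI_appQ (k := 24) cD8k_0_k1_42 (by decide +kernel) ?_
  refine allI_appQ (k := 22) cD8k_0_k1_43 (by decide +kernel) ?_
  refine allI_appQ (k := 15) cD8k_0_k1_44 (by decide +kernel) ?_
  refine allI_appQ (k := 10) cD8k_0_k1_45 (by decide +kernel) ?_
  exact cD8k_0_k1_46

theorem cD8k_0_l1 : cD8k_0_n1.length = 898 := by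
  decide +kernel

end Pool.Agent.Lib_MP_fa6e45
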