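import Pool.Agent.Lib_MP_fa6e45.DQ8k_0d
import Pool.Agent.Lib_MP_fa6e45.RD8k_10

/-!
MP_fa6e45_co, stage 9: straight-side patterns with `8` sides, part of a certificate (generated by a program).
-/

namespace Pool.Agent.Lib_MP_fa6e45

theorem cD8k_0_k10_0 : allI cD8k_0_c (rjL dJ cD8k_0_q rD8k_10_0) 3568 = true := by
  decide +kernel

theorem cD8k_0_k10_1 : allI cD8k_0_c (rjL dJ cD8k_0_q rD8k_10_1) 3569 = true := by
  decide +kernel

theorem cD8k_0_k10_2 : allI cD8k_0_c (rjL dJ cD8k_0_q rD8k_10_2) 3571 = true := by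
  decide +kernel

theorem cD8k_0_k10_3 : allI cD8k_0_c (rjL dJ cD8k_0_q rD8k_10_3) 3572 = true := by
  decide +kernel

theorem cD8k_0_k10_4 : allI cD8k_0_c (rjL dJ cD8k_0_q rD8k_10_4) 3573 = true := by
  decide +kernel

theorem cD8k_0_k10_5 : allI cD8k_0_c (rjL dJ cD8k_0_q rD8k_10_5) 3575 = true := by
  decide +kernel

theorem cD8k_0_k10_6 : allI cD8k_0_c (rjL dJ cD8k_0_q rD8k_10_6) 3577 = true := by
  decide +kernel

theorem cD8k_0_k10_7 : allI cD8k_0_c (rjL dJ cD8k_0_q rD8k_10_7) 3579 = true := by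
  decide +kernel

theorem cD8k_0_k10_8 : allI cD8k_0_c (rjL dJ cD8k_0_q rD8k_10_8) 3582 = true := by
  decide +kernel

theorem cD8k_0_k10_9 : allI cD8k_0_c (rjL dJ cD8k_0_q rD8k_10_9) 3584 = true := by
  decide +kernel

theorem cD8k_0_k10_10 : allI cD8k_0_c (rjL dJ cD8k_0_q rD8k_10_10) 3586 = true := by
  decide +kernel

theorem cD8k_0_k10_11 : allI cD8k_0_c (rjL dJ cD8k_0_q rD8k_10_11) 3588 = true := by
  decide +kernel

theorem cD8k_0_k10_12 : allI cD8k_0_c (rjL dJ cD8k_0_q rD8k_10_12) 3590 = true := by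
  decide +kernel

theorem cD8k_0_k10_13 : allI cD8k_0_c (rjL dJ cD8k_0_q rD8k_10_13) 3592 = true := by
  decide +kernel

theorem cD8k_0_k10_14 : allI cD8k_0_c (rjL dJ cD8k_0_q rD8k_10_14) 3594 = true := by
  decide +kernel

theorem cD8k_0_k10_15 : allI cD8k_0_c (rjL dJ cD8k_0_q rD8k_10_15) 3596 = true := by
  decide +kernel

theorem cD8k_0_k10_16 : allI cD8k_0_c (rjL dJ cD8k_0_q rD8k_10_16) 3598 = true := by
  decide +kernel

theorem cD8k_0_k10_17 : allI cD8k_0_c (rjL dJ cD8k_0_q rD8k_10_17) 3600 = true := by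
  decide +kernel

theorem cD8k_0_k10_18 : allI cD8k_0_c (rjL dJ cD8k_0_q rD8k_10_18) 3603 = true := by
  decide +kernel

theorem cD8k_0_k10_19 : allI cD8k_0_c (rjL dJ cD8k_0_q rD8k_10_19) 3605 = true := by
  decide +kernel

theorem cD8k_0_k10_20 : allI cD8k_0_c (rjL dJ cD8k_0_q rD8k_10_20) 3608 = true := by
  decide +kernel

theorem cD8k_0_k10_21 : allI cD8k_0_c (rjL dJ cD8k_0_q rD8k_10_21) 3610 = true := by
  decide +kernel

theorem cD8k_0_k10_22 : allI cD8k_0_c (rjL dJ cD8k_0_q rD8k_10_22) 3612 = true := by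
  decide +kernel

theorem cD8k_0_k10_23 : allI cD8k_0_c (rjL dJ cD8k_0_q rD8k_10_23) 3615 = true := by
  decide +kernel

theorem cD8k_0_k10_24 : allI cD8k_0_c (rjL dJ cD8k_0_q rD8k_10_24) 3617 = true := by
  decide +kernel

theorem cD8k_0_k10_25 : allI cD8k_0_c (rjL dJ cD8k_0_q rD8k_10_25) 3619 = true := by
  decide +kernel

theorem cD8k_0_k10_26 : allI cD8k_0_c (rjL dJ cD8k_0_q rD8k_10_26) 3621 = true := by
  decide +kernel

/-- nodes -/
noncomputable def cD8k_0_n10 : List (QJ PN) :=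
  rjL dJ cD8k_0_q rD8k_10_0 ++ (rjL dJ cD8k_0_q rD8k_10_1 ++ (rjL dJ cD8k_0_q rD8k_10_2 ++ (
    rjL dJ cD8k_0_q rD8k_10_3 ++ (rjL dJ cD8k_0_q rD8k_10_4 ++ (rjL dJ cD8k_0_q rD8k_10_5 ++ (
    rjL dJ cD8k_0_q rD8k_10_6 ++ (rjL dJ cD8k_0_q rD8k_10_7 ++ (rjL dJ cD8k_0_q rD8k_10_8 ++ (
    rjL dJ cD8k_0_q rD8k_10_9 ++ (rjL dJ cD8k_0_q rD8k_10_10 ++ (rjL dJ cD8k_0_q rD8k_10_11 ++ (
    rjL dJ cD8k_0_q rD8k_10_12 ++ (rjL dJ cD8k_0_q rD8k_10_13 ++ (rjL dJ cD8k_0_q rD8k_10_14 ++ (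
    rjL dJ cD8k_0_q rD8k_10_15 ++ (rjL dJ cD8k_0_q rD8k_10_16 ++ (rjL dJ cD8k_0_q rD8k_10_17 ++ (
    rjL dJ cD8k_0_q rD8k_10_18 ++ (rjL dJ cD8k_0_q rD8k_10_19 ++ (rjL dJ cD8k_0_q rD8k_10_20 ++ (
    rjL dJ cD8k_0_q rD8k_10_21 ++ (rjL dJ cD8k_0_q rD8k_10_22 ++ (rjL dJ cD8k_0_q rD8k_10_23 ++ (
    rjL dJ cD8k_0_q rD8k_10_24 ++ (rjL dJ cD8k_0_q rD8k_10_25 ++
    rjL dJ cD8k_0_q rD8k_10_26)))))))))))))))))))))))))

theorem cD8k_0_k10 : allI cD8k_0_c cD8k_0_n10 3568 = true := by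
  refine allI_appQ (k := 1) cD8k_0_k10_0 (by decide +kernel) ?_
  refine allI_appQ (k := 2) cD8k_0_k10_1 (by decide +kernel) ?_
  refine allI_appQ (k := 1) cD8k_0_k10_2 (by decide +kernel) ?_
  refine allI_appQ (k := 1) cD8k_0_k10_3 (by decide +kernel) ?_
  refine allI_appQ (k := 2) cD8k_0_k10_4 (by decide +kernel) ?_
  refine allI_appQ (k := 2) cD8k_0_k10_5 (by decide +kernel) ?_
  refine allI_appQ (k := 2) cD8k_0_k10_6 (by decide +kernel) ?_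
  refine allI_appQ (k := 3) cD8k_0_k10_7 (by decide +kernel) ?_
  refine allI_appQ (k := 2) cD8k_0_k10_8 (by decide +kernel) ?_
  refine allI_appQ (k := 2) cD8k_0_k10_9 (by decide +kernel) ?_
  refine allI_appQ (k := 2) cD8k_0_k10_10 (by decide +kernel) ?_
  refine allI_appQ (k := 2) cD8k_0_k10_11 (by decide +kernel) ?_
  refine allI_appQ (k := 2) cD8k_0_k10_12 (by decide +kernel) ?_
  refine allI_appQ (k := 2) cD8k_0_k10_13 (by decide +kernel) ?_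
  refine allI_appQ (k := 2) cD8k_0_k10_14 (by decide +kernel) ?_
  refine allI_appQ (k := 2) cD8k_0_k10_15 (by decide +kernel) ?_
  refine allI_appQ (k := 2) cD8k_0_k10_16 (by decide +kernel) ?_
  refine allI_appQ (k := 3) cD8k_0_k10_17 (by decide +kernel) ?_
  refine allI_appQ (k := 2) cD8k_0_k10_18 (by decide +kernel) ?_
  refine allI_appQ (k := 3) cD8k_0_k10_19 (by decide +kernel) ?_
  refine allI_appQ (k := 2) cD8k_0_k10_20 (by decide +kernel) ?_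
  refine allI_appQ (k := 2) cD8k_0_k10_21 (by decide +kernel) ?_
  refine allI_appQ (k := 3) cD8k_0_k10_22 (by decide +kernel) ?_
  refine allI_appQ (k := 2) cD8k_0_k10_23 (by decide +kernel) ?_
  refine allI_appQ (k := 2) cD8k_0_k10_24 (by decide +kernel) ?_
  refine allI_appQ (k := 2) cD8k_0_k10_25 (by decide +kernel) ?_
  exact cD8k_0_k10_26

theorem cD8k_0_l10 : cD8k_0_n10.length = 54 := by
  decide +kernel

end Pool.Agent.Lib_MP_fa6e45
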