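import Pool.Agent.Lib_MP_fa6e45.DQ8k_0d
import Pool.Agent.Lib_MP_fa6e45.RD8k_13

/-!
MP_fa6e45_co, stage 9: straight-side patterns with `8` sides, part of a certificate (generated by a program).
-/

namespace Pool.Agent.Lib_MP_fa6e45

theorem cD8k_0_k13_0 : allI cD8k_0_c (rjL dJ cD8k_0_q rD8k_13_0) 3821 = true := by
  decide +kernel

theorem cD8k_0_k13_1 : allI cD8k_0_c (rjL dJ cD8k_0_q rD8k_13_1) 3823 = true := by
  decide +kernel

theorem cD8k_0_k13_2 : allI cD8k_0_c (rjL dJ cD8k_0_q rD8k_13_2) 3824 = true := by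
  decide +kernel

theorem cD8k_0_k13_3 : allI cD8k_0_c (rjL dJ cD8k_0_q rD8k_13_3) 3826 = true := by
  decide +kernel

theorem cD8k_0_k13_4 : allI cD8k_0_c (rjL dJ cD8k_0_q rD8k_13_4) 3827 = true := by
  decide +kernel

theorem cD8k_0_k13_5 : allI cD8k_0_c (rjL dJ cD8k_0_q rD8k_13_5) 3828 = true := by
  decide +kernel

theorem cD8k_0_k13_6 : allI cD8k_0_c (rjL dJ cD8k_0_q rD8k_13_6) 3830 = true := by
  decide +kernel

theorem cD8k_0_k13_7 : allI cD8k_0_c (rjL dJ cD8k_0_q rD8k_13_7) 3832 = true := by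
  decide +kernel

theorem cD8k_0_k13_8 : allI cD8k_0_c (rjL dJ cD8k_0_q rD8k_13_8) 3835 = true := by
  decide +kernel

theorem cD8k_0_k13_9 : allI cD8k_0_c (rjL dJ cD8k_0_q rD8k_13_9) 3837 = true := by
  decide +kernel

theorem cD8k_0_k13_10 : allI cD8k_0_c (rjL dJ cD8k_0_q rD8k_13_10) 3839 = true := by
  decide +kernel

theorem cD8k_0_k13_11 : allI cD8k_0_c (rjL dJ cD8k_0_q rD8k_13_11) 3842 = true := by
  decide +kernel

theorem cD8k_0_k13_12 : allI cD8k_0_c (rjL dJ cD8k_0_q rD8k_13_12) 3844 = true := by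
  decide +kernel

theorem cD8k_0_k13_13 : allI cD8k_0_c (rjL dJ cD8k_0_q rD8k_13_13) 3846 = true := by
  decide +kernel

theorem cD8k_0_k13_14 : allI cD8k_0_c (rjL dJ cD8k_0_q rD8k_13_14) 3848 = true := by
  decide +kernel

theorem cD8k_0_k13_15 : allI cD8k_0_c (rjL dJ cD8k_0_q rD8k_13_15) 3851 = true := by
  decide +kernel

theorem cD8k_0_k13_16 : allI cD8k_0_c (rjL dJ cD8k_0_q rD8k_13_16) 3853 = true := by
  decide +kernel

theorem cD8k_0_k13_17 : allI cD8k_0_c (rjL dJ cD8k_0_q rD8k_13_17) 3855 = true := by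
  decide +kernel

theorem cD8k_0_k13_18 : allI cD8k_0_c (rjL dJ cD8k_0_q rD8k_13_18) 3857 = true := by
  decide +kernel

theorem cD8k_0_k13_19 : allI cD8k_0_c (rjL dJ cD8k_0_q rD8k_13_19) 3859 = true := by
  decide +kernel

theorem cD8k_0_k13_20 : allI cD8k_0_c (rjL dJ cD8k_0_q rD8k_13_20) 3861 = true := by
  decide +kernel

theorem cD8k_0_k13_21 : allI cD8k_0_c (rjL dJ cD8k_0_q rD8k_13_21) 3862 = true := by
  decide +kernel

theorem cD8k_0_k13_22 : allI cD8k_0_c (rjL dJ cD8k_0_q rD8k_13_22) 3863 = true := by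
  decide +kernel

theorem cD8k_0_k13_23 : allI cD8k_0_c (rjL dJ cD8k_0_q rD8k_13_23) 3865 = true := by
  decide +kernel

theorem cD8k_0_k13_24 : allI cD8k_0_c (rjL dJ cD8k_0_q rD8k_13_24) 3867 = true := by
  decide +kernel

theorem cD8k_0_k13_25 : allI cD8k_0_c (rjL dJ cD8k_0_q rD8k_13_25) 3870 = true := by
  decide +kernel

theorem cD8k_0_k13_26 : allI cD8k_0_c (rjL dJ cD8k_0_q rD8k_13_26) 3872 = true := by
  decide +kernel

theorem cD8k_0_k13_27 : allI cD8k_0_c (rjL dJ cD8k_0_q rD8k_13_27) 3874 = true := by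
  decide +kernel

theorem cD8k_0_k13_28 : allI cD8k_0_c (rjL dJ cD8k_0_q rD8k_13_28) 3876 = true := by
  decide +kernel

theorem cD8k_0_k13_29 : allI cD8k_0_c (rjL dJ cD8k_0_q rD8k_13_29) 3878 = true := by
  decide +kernel

theorem cD8k_0_k13_30 : allI cD8k_0_c (rjL dJ cD8k_0_q rD8k_13_30) 3880 = true := by
  decide +kernel

theorem cD8k_0_k13_31 : allI cD8k_0_c (rjL dJ cD8k_0_q rD8k_13_31) 3882 = true := by
  decide +kernel

theorem cD8k_0_k13_32 : allI cD8k_0_c (rjL dJ cD8k_0_q rD8k_13_32) 3884 = true := by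
  decide +kernel

theorem cD8k_0_k13_33 : allI cD8k_0_c (rjL dJ cD8k_0_q rD8k_13_33) 3886 = true := by
  decide +kernel

theorem cD8k_0_k13_34 : allI cD8k_0_c (rjL dJ cD8k_0_q rD8k_13_34) 3888 = true := by
  decide +kernel

theorem cD8k_0_k13_35 : allI cD8k_0_c (rjL dJ cD8k_0_q rD8k_13_35) 3890 = true := by
  decide +kernel

theorem cD8k_0_k13_36 : allI cD8k_0_c (rjL dJ cD8k_0_q rD8k_13_36) 3892 = true := by
  decide +kernel

theorem cD8k_0_k13_37 : allI cD8k_0_c (rjL dJ cD8k_0_q rD8k_13_37) 3894 = true := by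
  decide +kernel

theorem cD8k_0_k13_38 : allI cD8k_0_c (rjL dJ cD8k_0_q rD8k_13_38) 3896 = true := by
  decide +kernel

theorem cD8k_0_k13_39 : allI cD8k_0_c (rjL dJ cD8k_0_q rD8k_13_39) 3898 = true := by
  decide +kernel

theorem cD8k_0_k13_40 : allI cD8k_0_c (rjL dJ cD8k_0_q rD8k_13_40) 3900 = true := by
  decide +kernel

theorem cD8k_0_k13_41 : allI cD8k_0_c (rjL dJ cD8k_0_q rD8k_13_41) 3903 = true := by
  decide +kernel

/-- nodes -/
noncomputable def cD8k_0_n13 : List (QJ PN) :=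
  rjL dJ cD8k_0_q rD8k_13_0 ++ (rjL dJ cD8k_0_q rD8k_13_1 ++ (rjL dJ cD8k_0_q rD8k_13_2 ++ (
    rjL dJ cD8k_0_q rD8k_13_3 ++ (rjL dJ cD8k_0_q rD8k_13_4 ++ (rjL dJ cD8k_0_q rD8k_13_5 ++ (
    rjL dJ cD8k_0_q rD8k_13_6 ++ (rjL dJ cD8k_0_q rD8k_13_7 ++ (rjL dJ cD8k_0_q rD8k_13_8 ++ (
    rjL dJ cD8k_0_q rD8k_13_9 ++ (rjL dJ cD8k_0_q rD8k_13_10 ++ (rjL dJ cD8k_0_q rD8k_13_11 ++ (
    rjL dJ cD8k_0_q rD8k_13_12 ++ (rjL dJ cD8k_0_q rD8k_13_13 ++ (rjL dJ cD8k_0_q rD8k_13_14 ++ (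
    rjL dJ cD8k_0_q rD8k_13_15 ++ (rjL dJ cD8k_0_q rD8k_13_16 ++ (rjL dJ cD8k_0_q rD8k_13_17 ++ (
    rjL dJ cD8k_0_q rD8k_13_18 ++ (rjL dJ cD8k_0_q rD8k_13_19 ++ (rjL dJ cD8k_0_q rD8k_13_20 ++ (
    rjL dJ cD8k_0_q rD8k_13_21 ++ (rjL dJ cD8k_0_q rD8k_13_22 ++ (rjL dJ cD8k_0_q rD8k_13_23 ++ (
    rjL dJ cD8k_0_q rD8k_13_24 ++ (rjL dJ cD8k_0_q rD8k_13_25 ++ (rjL dJ cD8k_0_q rD8k_13_26 ++ (
    rjL dJ cD8k_0_q rD8k_13_27 ++ (rjL dJ cD8k_0_q rD8k_13_28 ++ (rjL dJ cD8k_0_q rD8k_13_29 ++ (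
    rjL dJ cD8k_0_q rD8k_13_30 ++ (rjL dJ cD8k_0_q rD8k_13_31 ++ (rjL dJ cD8k_0_q rD8k_13_32 ++ (
    rjL dJ cD8k_0_q rD8k_13_33 ++ (rjL dJ cD8k_0_q rD8k_13_34 ++ (rjL dJ cD8k_0_q rD8k_13_35 ++ (
    rjL dJ cD8k_0_q rD8k_13_36 ++ (rjL dJ cD8k_0_q rD8k_13_37 ++ (rjL dJ cD8k_0_q rD8k_13_38 ++ (
    rjL dJ cD8k_0_q rD8k_13_39 ++ (rjL dJ cD8k_0_q rD8k_13_40 ++
    rjL dJ cD8k_0_q rD8k_13_41))))))))))))))))))))))))))))))))))))))))

theorem cD8k_0_k13 : allI cD8k_0_c cD8k_0_n13 3821 = true := by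
  refine allI_appQ (k := 2) cD8k_0_k13_0 (by decide +kernel) ?_
  refine allI_appQ (k := 1) cD8k_0_k13_1 (by decide +kernel) ?_
  refine allI_appQ (k := 2) cD8k_0_k13_2 (by decide +kernel) ?_
  refine allI_appQ (k := 1) cD8k_0_k13_3 (by decide +kernel) ?_
  refine allI_appQ (k := 1) cD8k_0_k13_4 (by decide +kernel) ?_
  refine allI_appQ (k := 2) cD8k_0_k13_5 (by decide +kernel) ?_
  refine allI_appQ (k := 2) cD8k_0_k13_6 (by decide +kernel) ?_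
  refine allI_appQ (k := 3) cD8k_0_k13_7 (by decide +kernel) ?_
  refine allI_appQ (k := 2) cD8k_0_k13_8 (by decide +kernel) ?_
  refine allI_appQ (k := 2) cD8k_0_k13_9 (by decide +kernel) ?_
  refine allI_appQ (k := 3) cD8k_0_k13_10 (by decide +kernel) ?_
  refine allI_appQ (k := 2) cD8k_0_k13_11 (by decide +kernel) ?_
  refine allI_appQ (k := 2) cD8k_0_k13_12 (by decide +kernel) ?_
  refine allI_appQ (k := 2) cD8k_0_k13_13 (by decide +kernel) ?_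
  refine allI_appQ (k := 3) cD8k_0_k13_14 (by decide +kernel) ?_
  refine allI_appQ (k := 2) cD8k_0_k13_15 (by decide +kernel) ?_
  refine allI_appQ (k := 2) cD8k_0_k13_16 (by decide +kernel) ?_
  refine allI_appQ (k := 2) cD8k_0_k13_17 (by decide +kernel) ?_
  refine allI_appQ (k := 2) cD8k_0_k13_18 (by decide +kernel) ?_
  refine allI_appQ (k := 2) cD8k_0_k13_19 (by decide +kernel) ?_
  refine allI_appQ (k := 1) cD8k_0_k13_20 (by decide +kernel) ?_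
  refine allI_appQ (k := 1) cD8k_0_k13_21 (by decide +kernel) ?_
  refine allI_appQ (k := 2) cD8k_0_k13_22 (by decide +kernel) ?_
  refine allI_appQ (k := 2) cD8k_0_k13_23 (by decide +kernel) ?_
  refine allI_appQ (k := 3) cD8k_0_k13_24 (by decide +kernel) ?_
  refine allI_appQ (k := 2) cD8k_0_k13_25 (by decide +kernel) ?_
  refine allI_appQ (k := 2) cD8k_0_k13_26 (by decide +kernel) ?_
  refine allI_appQ (k := 2) cD8k_0_k13_27 (by decide +kernel) ?_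
  refine allI_appQ (k := 2) cD8k_0_k13_28 (by decide +kernel) ?_
  refine allI_appQ (k := 2) cD8k_0_k13_29 (by decide +kernel) ?_
  refine allI_appQ (k := 2) cD8k_0_k13_30 (by decide +kernel) ?_
  refine allI_appQ (k := 2) cD8k_0_k13_31 (by decide +kernel) ?_
  refine allI_appQ (k := 2) cD8k_0_k13_32 (by decide +kernel) ?_
  refine allI_appQ (k := 2) cD8k_0_k13_33 (by decide +kernel) ?_
  refine allI_appQ (k := 2) cD8k_0_k13_34 (by decide +kernel) ?_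
  refine allI_appQ (k := 2) cD8k_0_k13_35 (by decide +kernel) ?_
  refine allI_appQ (k := 2) cD8k_0_k13_36 (by decide +kernel) ?_
  refine allI_appQ (k := 2) cD8k_0_k13_37 (by decide +kernel) ?_
  refine allI_appQ (k := 2) cD8k_0_k13_38 (by decide +kernel) ?_
  refine allI_appQ (k := 2) cD8k_0_k13_39 (by decide +kernel) ?_
  refine allI_appQ (k := 3) cD8k_0_k13_40 (by decide +kernel) ?_
  exact cD8k_0_k13_41

theorem cD8k_0_l13 : cD8k_0_n13.length = 83 := by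
  decide +kernel

end Pool.Agent.Lib_MP_fa6e45
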