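import Pool.Agent.Lib_MP_fa6e45.DQ8k_0d
import Pool.Agent.Lib_MP_fa6e45.RD8k_14

/-!
MP_fa6e45_co, stage 9: straight-side patterns with `8` sides, part of a certificate (generated by a program).
-/

namespace Pool.Agent.Lib_MP_fa6e45

theorem cD8k_0_k14_0 : allI cD8k_0_c (rjL dJ cD8k_0_q rD8k_14_0) 3904 = true := by
  decide +kernel

theorem cD8k_0_k14_1 : allI cD8k_0_c (rjL dJ cD8k_0_q rD8k_14_1) 3907 = true := by
  decide +kernel

theorem cD8k_0_k14_2 : allI cD8k_0_c (rjL dJ cD8k_0_q rD8k_14_2) 3909 = true := by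
  decide +kernel

theorem cD8k_0_k14_3 : allI cD8k_0_c (rjL dJ cD8k_0_q rD8k_14_3) 3911 = true := by
  decide +kernel

theorem cD8k_0_k14_4 : allI cD8k_0_c (rjL dJ cD8k_0_q rD8k_14_4) 3913 = true := by
  decide +kernel

theorem cD8k_0_k14_5 : allI cD8k_0_c (rjL dJ cD8k_0_q rD8k_14_5) 3916 = true := by
  decide +kernel

theorem cD8k_0_k14_6 : allI cD8k_0_c (rjL dJ cD8k_0_q rD8k_14_6) 3918 = true := by
  decide +kernel

theorem cD8k_0_k14_7 : allI cD8k_0_c (rjL dJ cD8k_0_q rD8k_14_7) 3920 = true := by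
  decide +kernel

theorem cD8k_0_k14_8 : allI cD8k_0_c (rjL dJ cD8k_0_q rD8k_14_8) 3922 = true := by
  decide +kernel

theorem cD8k_0_k14_9 : allI cD8k_0_c (rjL dJ cD8k_0_q rD8k_14_9) 3924 = true := by
  decide +kernel

theorem cD8k_0_k14_10 : allI cD8k_0_c (rjL dJ cD8k_0_q rD8k_14_10) 3926 = true := by
  decide +kernel

theorem cD8k_0_k14_11 : allI cD8k_0_c (rjL dJ cD8k_0_q rD8k_14_11) 3928 = true := by
  decide +kernel

theorem cD8k_0_k14_12 : allI cD8k_0_c (rjL dJ cD8k_0_q rD8k_14_12) 3930 = true := by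
  decide +kernel

theorem cD8k_0_k14_13 : allI cD8k_0_c (rjL dJ cD8k_0_q rD8k_14_13) 3932 = true := by
  decide +kernel

theorem cD8k_0_k14_14 : allI cD8k_0_c (rjL dJ cD8k_0_q rD8k_14_14) 3934 = true := by
  decide +kernel

theorem cD8k_0_k14_15 : allI cD8k_0_c (rjL dJ cD8k_0_q rD8k_14_15) 3936 = true := by
  decide +kernel

theorem cD8k_0_k14_16 : allI cD8k_0_c (rjL dJ cD8k_0_q rD8k_14_16) 3939 = true := by
  decide +kernel

theorem cD8k_0_k14_17 : allI cD8k_0_c (rjL dJ cD8k_0_q rD8k_14_17) 3941 = true := by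
  decide +kernel

theorem cD8k_0_k14_18 : allI cD8k_0_c (rjL dJ cD8k_0_q rD8k_14_18) 3943 = true := by
  decide +kernel

theorem cD8k_0_k14_19 : allI cD8k_0_c (rjL dJ cD8k_0_q rD8k_14_19) 3946 = true := by
  decide +kernel

theorem cD8k_0_k14_20 : allI cD8k_0_c (rjL dJ cD8k_0_q rD8k_14_20) 3948 = true := by
  decide +kernel

theorem cD8k_0_k14_21 : allI cD8k_0_c (rjL dJ cD8k_0_q rD8k_14_21) 3950 = true := by
  decide +kernel

theorem cD8k_0_k14_22 : allI cD8k_0_c (rjL dJ cD8k_0_q rD8k_14_22) 3952 = true := by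
  decide +kernel

theorem cD8k_0_k14_23 : allI cD8k_0_c (rjL dJ cD8k_0_q rD8k_14_23) 3954 = true := by
  decide +kernel

theorem cD8k_0_k14_24 : allI cD8k_0_c (rjL dJ cD8k_0_q rD8k_14_24) 3956 = true := by
  decide +kernel

theorem cD8k_0_k14_25 : allI cD8k_0_c (rjL dJ cD8k_0_q rD8k_14_25) 3958 = true := by
  decide +kernel

theorem cD8k_0_k14_26 : allI cD8k_0_c (rjL dJ cD8k_0_q rD8k_14_26) 3960 = true := by
  decide +kernel

theorem cD8k_0_k14_27 : allI cD8k_0_c (rjL dJ cD8k_0_q rD8k_14_27) 3962 = true := by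
  decide +kernel

theorem cD8k_0_k14_28 : allI cD8k_0_c (rjL dJ cD8k_0_q rD8k_14_28) 3964 = true := by
  decide +kernel

theorem cD8k_0_k14_29 : allI cD8k_0_c (rjL dJ cD8k_0_q rD8k_14_29) 3967 = true := by
  decide +kernel

/-- nodes -/
noncomputable def cD8k_0_n14 : List (QJ PN) :=
  rjL dJ cD8k_0_q rD8k_14_0 ++ (rjL dJ cD8k_0_q rD8k_14_1 ++ (rjL dJ cD8k_0_q rD8k_14_2 ++ (
    rjL dJ cD8k_0_q rD8k_14_3 ++ (rjL dJ cD8k_0_q rD8k_14_4 ++ (rjL dJ cD8k_0_q rD8k_14_5 ++ (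
    rjL dJ cD8k_0_q rD8k_14_6 ++ (rjL dJ cD8k_0_q rD8k_14_7 ++ (rjL dJ cD8k_0_q rD8k_14_8 ++ (
    rjL dJ cD8k_0_q rD8k_14_9 ++ (rjL dJ cD8k_0_q rD8k_14_10 ++ (rjL dJ cD8k_0_q rD8k_14_11 ++ (
    rjL dJ cD8k_0_q rD8k_14_12 ++ (rjL dJ cD8k_0_q rD8k_14_13 ++ (rjL dJ cD8k_0_q rD8k_14_14 ++ (
    rjL dJ cD8k_0_q rD8k_14_15 ++ (rjL dJ cD8k_0_q rD8k_14_16 ++ (rjL dJ cD8k_0_q rD8k_14_17 ++ (
    rjL dJ cD8k_0_q rD8k_14_18 ++ (rjL dJ cD8k_0_q rD8k_14_19 ++ (rjL dJ cD8k_0_q rD8k_14_20 ++ (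
    rjL dJ cD8k_0_q rD8k_14_21 ++ (rjL dJ cD8k_0_q rD8k_14_22 ++ (rjL dJ cD8k_0_q rD8k_14_23 ++ (
    rjL dJ cD8k_0_q rD8k_14_24 ++ (rjL dJ cD8k_0_q rD8k_14_25 ++ (rjL dJ cD8k_0_q rD8k_14_26 ++ (
    rjL dJ cD8k_0_q rD8k_14_27 ++ (rjL dJ cD8k_0_q rD8k_14_28 ++
    rjL dJ cD8k_0_q rD8k_14_29))))))))))))))))))))))))))))

theorem cD8k_0_k14 : allI cD8k_0_c cD8k_0_n14 3904 = true := by
  refine allI_appQ (k := 3) cD8k_0_k14_0 (by decide +kernel) ?_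
  refine allI_appQ (k := 2) cD8k_0_k14_1 (by decide +kernel) ?_
  refine allI_appQ (k := 2) cD8k_0_k14_2 (by decide +kernel) ?_
  refine allI_appQ (k := 2) cD8k_0_k14_3 (by decide +kernel) ?_
  refine allI_appQ (k := 3) cD8k_0_k14_4 (by decide +kernel) ?_
  refine allI_appQ (k := 2) cD8k_0_k14_5 (by decide +kernel) ?_
  refine allI_appQ (k := 2) cD8k_0_k14_6 (by decide +kernel) ?_
  refine allI_appQ (k := 2) cD8k_0_k14_7 (by decide +kernel) ?_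
  refine allI_appQ (k := 2) cD8k_0_k14_8 (by decide +kernel) ?_
  refine allI_appQ (k := 2) cD8k_0_k14_9 (by decide +kernel) ?_
  refine allI_appQ (k := 2) cD8k_0_k14_10 (by decide +kernel) ?_
  refine allI_appQ (k := 2) cD8k_0_k14_11 (by decide +kernel) ?_
  refine allI_appQ (k := 2) cD8k_0_k14_12 (by decide +kernel) ?_
  refine allI_appQ (k := 2) cD8k_0_k14_13 (by decide +kernel) ?_
  refine allI_appQ (k := 2) cD8k_0_k14_14 (by decide +kernel) ?_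
  refine allI_appQ (k := 3) cD8k_0_k14_15 (by decide +kernel) ?_
  refine allI_appQ (k := 2) cD8k_0_k14_16 (by decide +kernel) ?_
  refine allI_appQ (k := 2) cD8k_0_k14_17 (by decide +kernel) ?_
  refine allI_appQ (k := 3) cD8k_0_k14_18 (by decide +kernel) ?_
  refine allI_appQ (k := 2) cD8k_0_k14_19 (by decide +kernel) ?_
  refine allI_appQ (k := 2) cD8k_0_k14_20 (by decide +kernel) ?_
  refine allI_appQ (k := 2) cD8k_0_k14_21 (by decide +kernel) ?_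
  refine allI_appQ (k := 2) cD8k_0_k14_22 (by decide +kernel) ?_
  refine allI_appQ (k := 2) cD8k_0_k14_23 (by decide +kernel) ?_
  refine allI_appQ (k := 2) cD8k_0_k14_24 (by decide +kernel) ?_
  refine allI_appQ (k := 2) cD8k_0_k14_25 (by decide +kernel) ?_
  refine allI_appQ (k := 2) cD8k_0_k14_26 (by decide +kernel) ?_
  refine allI_appQ (k := 2) cD8k_0_k14_27 (by decide +kernel) ?_
  refine allI_appQ (k := 3) cD8k_0_k14_28 (by decide +kernel) ?_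
  exact cD8k_0_k14_29

theorem cD8k_0_l14 : cD8k_0_n14.length = 64 := by
  decide +kernel

end Pool.Agent.Lib_MP_fa6e45
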