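import Pool.Agent.Lib_MP_fa6e45.DQ8k_0d
import Pool.Agent.Lib_MP_fa6e45.RD8k_16

/-!
MP_fa6e45_co, stage 9: straight-side patterns with `8` sides, part of a certificate (generated by a program).
-/

namespace Pool.Agent.Lib_MP_fa6e45

theorem cD8k_0_k16_0 : allI cD8k_0_c (rjL dJ cD8k_0_q rD8k_16_0) 3969 = true := by
  decide +kernel

theorem cD8k_0_k16_1 : allI cD8k_0_c (rjL dJ cD8k_0_q rD8k_16_1) 3972 = true := by
  decide +kernel

theorem cD8k_0_k16_2 : allI cD8k_0_c (rjL dJ cD8k_0_q rD8k_16_2) 3974 = true := by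
  decide +kernel

theorem cD8k_0_k16_3 : allI cD8k_0_c (rjL dJ cD8k_0_q rD8k_16_3) 3976 = true := by
  decide +kernel

theorem cD8k_0_k16_4 : allI cD8k_0_c (rjL dJ cD8k_0_q rD8k_16_4) 3978 = true := by
  decide +kernel

theorem cD8k_0_k16_5 : allI cD8k_0_c (rjL dJ cD8k_0_q rD8k_16_5) 3980 = true := by
  decide +kernel

theorem cD8k_0_k16_6 : allI cD8k_0_c (rjL dJ cD8k_0_q rD8k_16_6) 3982 = true := by
  decide +kernel

theorem cD8k_0_k16_7 : allI cD8k_0_c (rjL dJ cD8k_0_q rD8k_16_7) 3984 = true := by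
  decide +kernel

theorem cD8k_0_k16_8 : allI cD8k_0_c (rjL dJ cD8k_0_q rD8k_16_8) 3987 = true := by
  decide +kernel

theorem cD8k_0_k16_9 : allI cD8k_0_c (rjL dJ cD8k_0_q rD8k_16_9) 3988 = true := by
  decide +kernel

theorem cD8k_0_k16_10 : allI cD8k_0_c (rjL dJ cD8k_0_q rD8k_16_10) 3990 = true := by
  decide +kernel

theorem cD8k_0_k16_11 : allI cD8k_0_c (rjL dJ cD8k_0_q rD8k_16_11) 3992 = true := by
  decide +kernel

theorem cD8k_0_k16_12 : allI cD8k_0_c (rjL dJ cD8k_0_q rD8k_16_12) 3994 = true := by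
  decide +kernel

theorem cD8k_0_k16_13 : allI cD8k_0_c (rjL dJ cD8k_0_q rD8k_16_13) 3997 = true := by
  decide +kernel

theorem cD8k_0_k16_14 : allI cD8k_0_c (rjL dJ cD8k_0_q rD8k_16_14) 3999 = true := by
  decide +kernel

theorem cD8k_0_k16_15 : allI cD8k_0_c (rjL dJ cD8k_0_q rD8k_16_15) 4001 = true := by
  decide +kernel

theorem cD8k_0_k16_16 : allI cD8k_0_c (rjL dJ cD8k_0_q rD8k_16_16) 4003 = true := by
  decide +kernel

theorem cD8k_0_k16_17 : allI cD8k_0_c (rjL dJ cD8k_0_q rD8k_16_17) 4005 = true := by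
  decide +kernel

theorem cD8k_0_k16_18 : allI cD8k_0_c (rjL dJ cD8k_0_q rD8k_16_18) 4007 = true := by
  decide +kernel

theorem cD8k_0_k16_19 : allI cD8k_0_c (rjL dJ cD8k_0_q rD8k_16_19) 4009 = true := by
  decide +kernel

theorem cD8k_0_k16_20 : allI cD8k_0_c (rjL dJ cD8k_0_q rD8k_16_20) 4011 = true := by
  decide +kernel

theorem cD8k_0_k16_21 : allI cD8k_0_c (rjL dJ cD8k_0_q rD8k_16_21) 4013 = true := by
  decide +kernel

theorem cD8k_0_k16_22 : allI cD8k_0_c (rjL dJ cD8k_0_q rD8k_16_22) 4015 = true := by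
  decide +kernel

theorem cD8k_0_k16_23 : allI cD8k_0_c (rjL dJ cD8k_0_q rD8k_16_23) 4017 = true := by
  decide +kernel

theorem cD8k_0_k16_24 : allI cD8k_0_c (rjL dJ cD8k_0_q rD8k_16_24) 4019 = true := by
  decide +kernel

theorem cD8k_0_k16_25 : allI cD8k_0_c (rjL dJ cD8k_0_q rD8k_16_25) 4022 = true := by
  decide +kernel

theorem cD8k_0_k16_26 : allI cD8k_0_c (rjL dJ cD8k_0_q rD8k_16_26) 4024 = true := by
  decide +kernel

theorem cD8k_0_k16_27 : allI cD8k_0_c (rjL dJ cD8k_0_q rD8k_16_27) 4026 = true := by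
  decide +kernel

theorem cD8k_0_k16_28 : allI cD8k_0_c (rjL dJ cD8k_0_q rD8k_16_28) 4028 = true := by
  decide +kernel

theorem cD8k_0_k16_29 : allI cD8k_0_c (rjL dJ cD8k_0_q rD8k_16_29) 4031 = true := by
  decide +kernel

theorem cD8k_0_k16_30 : allI cD8k_0_c (rjL dJ cD8k_0_q rD8k_16_30) 4033 = true := by
  decide +kernel

theorem cD8k_0_k16_31 : allI cD8k_0_c (rjL dJ cD8k_0_q rD8k_16_31) 4035 = true := by
  decide +kernel

theorem cD8k_0_k16_32 : allI cD8k_0_c (rjL dJ cD8k_0_q rD8k_16_32) 4036 = true := by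
  decide +kernel

theorem cD8k_0_k16_33 : allI cD8k_0_c (rjL dJ cD8k_0_q rD8k_16_33) 4037 = true := by
  decide +kernel

theorem cD8k_0_k16_34 : allI cD8k_0_c (rjL dJ cD8k_0_q rD8k_16_34) 4038 = true := by
  decide +kernel

theorem cD8k_0_k16_35 : allI cD8k_0_c (rjL dJ cD8k_0_q rD8k_16_35) 4039 = true := by
  decide +kernel

theorem cD8k_0_k16_36 : allI cD8k_0_c (rjL dJ cD8k_0_q rD8k_16_36) 4041 = true := by
  decide +kernel

theorem cD8k_0_k16_37 : allI cD8k_0_c (rjL dJ cD8k_0_q rD8k_16_37) 4043 = true := by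
  decide +kernel

theorem cD8k_0_k16_38 : allI cD8k_0_c (rjL dJ cD8k_0_q rD8k_16_38) 4045 = true := by
  decide +kernel

theorem cD8k_0_k16_39 : allI cD8k_0_c (rjL dJ cD8k_0_q rD8k_16_39) 4047 = true := by
  decide +kernel

theorem cD8k_0_k16_40 : allI cD8k_0_c (rjL dJ cD8k_0_q rD8k_16_40) 4049 = true := by
  decide +kernel

theorem cD8k_0_k16_41 : allI cD8k_0_c (rjL dJ cD8k_0_q rD8k_16_41) 4051 = true := by
  decide +kernel

theorem cD8k_0_k16_42 : allI cD8k_0_c (rjL dJ cD8k_0_q rD8k_16_42) 4052 = true := by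
  decide +kernel

theorem cD8k_0_k16_43 : allI cD8k_0_c (rjL dJ cD8k_0_q rD8k_16_43) 4053 = true := by
  decide +kernel

theorem cD8k_0_k16_44 : allI cD8k_0_c (rjL dJ cD8k_0_q rD8k_16_44) 4055 = true := by
  decide +kernel

theorem cD8k_0_k16_45 : allI cD8k_0_c (rjL dJ cD8k_0_q rD8k_16_45) 4057 = true := by
  decide +kernel

theorem cD8k_0_k16_46 : allI cD8k_0_c (rjL dJ cD8k_0_q rD8k_16_46) 4060 = true := by
  decide +kernel

/-- nodes -/
noncomputable def cD8k_0_n16 : List (QJ PN) :=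
  rjL dJ cD8k_0_q rD8k_16_0 ++ (rjL dJ cD8k_0_q rD8k_16_1 ++ (rjL dJ cD8k_0_q rD8k_16_2 ++ (
    rjL dJ cD8k_0_q rD8k_16_3 ++ (rjL dJ cD8k_0_q rD8k_16_4 ++ (rjL dJ cD8k_0_q rD8k_16_5 ++ (
    rjL dJ cD8k_0_q rD8k_16_6 ++ (rjL dJ cD8k_0_q rD8k_16_7 ++ (rjL dJ cD8k_0_q rD8k_16_8 ++ (
    rjL dJ cD8k_0_q rD8k_16_9 ++ (rjL dJ cD8k_0_q rD8k_16_10 ++ (rjL dJ cD8k_0_q rD8k_16_11 ++ (
    rjL dJ cD8k_0_q rD8k_16_12 ++ (rjL dJ cD8k_0_q rD8k_16_13 ++ (rjL dJ cD8k_0_q rD8k_16_14 ++ (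
    rjL dJ cD8k_0_q rD8k_16_15 ++ (rjL dJ cD8k_0_q rD8k_16_16 ++ (rjL dJ cD8k_0_q rD8k_16_17 ++ (
    rjL dJ cD8k_0_q rD8k_16_18 ++ (rjL dJ cD8k_0_q rD8k_16_19 ++ (rjL dJ cD8k_0_q rD8k_16_20 ++ (
    rjL dJ cD8k_0_q rD8k_16_21 ++ (rjL dJ cD8k_0_q rD8k_16_22 ++ (rjL dJ cD8k_0_q rD8k_16_23 ++ (
    rjL dJ cD8k_0_q rD8k_16_24 ++ (rjL dJ cD8k_0_q rD8k_16_25 ++ (rjL dJ cD8k_0_q rD8k_16_26 ++ (
    rjL dJ cD8k_0_q rD8k_16_27 ++ (rjL dJ cD8k_0_q rD8k_16_28 ++ (rjL dJ cD8k_0_q rD8k_16_29 ++ (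
    rjL dJ cD8k_0_q rD8k_16_30 ++ (rjL dJ cD8k_0_q rD8k_16_31 ++ (rjL dJ cD8k_0_q rD8k_16_32 ++ (
    rjL dJ cD8k_0_q rD8k_16_33 ++ (rjL dJ cD8k_0_q rD8k_16_34 ++ (rjL dJ cD8k_0_q rD8k_16_35 ++ (
    rjL dJ cD8k_0_q rD8k_16_36 ++ (rjL dJ cD8k_0_q rD8k_16_37 ++ (rjL dJ cD8k_0_q rD8k_16_38 ++ (
    rjL dJ cD8k_0_q rD8k_16_39 ++ (rjL dJ cD8k_0_q rD8k_16_40 ++ (rjL dJ cD8k_0_q rD8k_16_41 ++ (
    rjL dJ cD8k_0_q rD8k_16_42 ++ (rjL dJ cD8k_0_q rD8k_16_43 ++ (rjL dJ cD8k_0_q rD8k_16_44 ++ (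
    rjL dJ cD8k_0_q rD8k_16_45 ++
    rjL dJ cD8k_0_q rD8k_16_46)))))))))))))))))))))))))))))))))))))))))))))

theorem cD8k_0_k16 : allI cD8k_0_c cD8k_0_n16 3969 = true := by
  refine allI_appQ (k := 3) cD8k_0_k16_0 (by decide +kernel) ?_
  refine allI_appQ (k := 2) cD8k_0_k16_1 (by decide +kernel) ?_
  refine allI_appQ (k := 2) cD8k_0_k16_2 (by decide +kernel) ?_
  refine allI_appQ (k := 2) cD8k_0_k16_3 (by decide +kernel) ?_
  refine allI_appQ (k := 2) cD8k_0_k16_4 (by decide +kernel) ?_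
  refine allI_appQ (k := 2) cD8k_0_k16_5 (by decide +kernel) ?_
  refine allI_appQ (k := 2) cD8k_0_k16_6 (by decide +kernel) ?_
  refine allI_appQ (k := 3) cD8k_0_k16_7 (by decide +kernel) ?_
  refine allI_appQ (k := 1) cD8k_0_k16_8 (by decide +kernel) ?_
  refine allI_appQ (k := 2) cD8k_0_k16_9 (by decide +kernel) ?_
  refine allI_appQ (k := 2) cD8k_0_k16_10 (by decide +kernel) ?_
  refine allI_appQ (k := 2) cD8k_0_k16_11 (by decide +kernel) ?_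
  refine allI_appQ (k := 3) cD8k_0_k16_12 (by decide +kernel) ?_
  refine allI_appQ (k := 2) cD8k_0_k16_13 (by decide +kernel) ?_
  refine allI_appQ (k := 2) cD8k_0_k16_14 (by decide +kernel) ?_
  refine allI_appQ (k := 2) cD8k_0_k16_15 (by decide +kernel) ?_
  refine allI_appQ (k := 2) cD8k_0_k16_16 (by decide +kernel) ?_
  refine allI_appQ (k := 2) cD8k_0_k16_17 (by decide +kernel) ?_
  refine allI_appQ (k := 2) cD8k_0_k16_18 (by decide +kernel) ?_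
  refine allI_appQ (k := 2) cD8k_0_k16_19 (by decide +kernel) ?_
  refine allI_appQ (k := 2) cD8k_0_k16_20 (by decide +kernel) ?_
  refine allI_appQ (k := 2) cD8k_0_k16_21 (by decide +kernel) ?_
  refine allI_appQ (k := 2) cD8k_0_k16_22 (by decide +kernel) ?_
  refine allI_appQ (k := 2) cD8k_0_k16_23 (by decide +kernel) ?_
  refine allI_appQ (k := 3) cD8k_0_k16_24 (by decide +kernel) ?_
  refine allI_appQ (k := 2) cD8k_0_k16_25 (by decide +kernel) ?_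
  refine allI_appQ (k := 2) cD8k_0_k16_26 (by decide +kernel) ?_
  refine allI_appQ (k := 2) cD8k_0_k16_27 (by decide +kernel) ?_
  refine allI_appQ (k := 3) cD8k_0_k16_28 (by decide +kernel) ?_
  refine allI_appQ (k := 2) cD8k_0_k16_29 (by decide +kernel) ?_
  refine allI_appQ (k := 2) cD8k_0_k16_30 (by decide +kernel) ?_
  refine allI_appQ (k := 1) cD8k_0_k16_31 (by decide +kernel) ?_
  refine allI_appQ (k := 1) cD8k_0_k16_32 (by decide +kernel) ?_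
  refine allI_appQ (k := 1) cD8k_0_k16_33 (by decide +kernel) ?_
  refine allI_appQ (k := 1) cD8k_0_k16_34 (by decide +kernel) ?_
  refine allI_appQ (k := 2) cD8k_0_k16_35 (by decide +kernel) ?_
  refine allI_appQ (k := 2) cD8k_0_k16_36 (by decide +kernel) ?_
  refine allI_appQ (k := 2) cD8k_0_k16_37 (by decide +kernel) ?_
  refine allI_appQ (k := 2) cD8k_0_k16_38 (by decide +kernel) ?_
  refine allI_appQ (k := 2) cD8k_0_k16_39 (by decide +kernel) ?_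
  refine allI_appQ (k := 2) cD8k_0_k16_40 (by decide +kernel) ?_
  refine allI_appQ (k := 1) cD8k_0_k16_41 (by decide +kernel) ?_
  refine allI_appQ (k := 1) cD8k_0_k16_42 (by decide +kernel) ?_
  refine allI_appQ (k := 2) cD8k_0_k16_43 (by decide +kernel) ?_
  refine allI_appQ (k := 2) cD8k_0_k16_44 (by decide +kernel) ?_
  refine allI_appQ (k := 3) cD8k_0_k16_45 (by decide +kernel) ?_
  exact cD8k_0_k16_46

theorem cD8k_0_l16 : cD8k_0_n16.length = 93 := by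
  decide +kernel

end Pool.Agent.Lib_MP_fa6e45
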