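import Pool.Agent.Lib_MP_fa6e45.DQ8k_0d
import Pool.Agent.Lib_MP_fa6e45.RD8k_17

/-!
MP_fa6e45_co, stage 9: straight-side patterns with `8` sides, part of a certificate (generated by a program).
-/

namespace Pool.Agent.Lib_MP_fa6e45

theorem cD8k_0_k17_0 : allI cD8k_0_c (rjL dJ cD8k_0_q rD8k_17_0) 4062 = true := by
  decide +kernel

theorem cD8k_0_k17_1 : allI cD8k_0_c (rjL dJ cD8k_0_q rD8k_17_1) 4065 = true := by
  decide +kernel

theorem cD8k_0_k17_2 : allI cD8k_0_c (rjL dJ cD8k_0_q rD8k_17_2) 4067 = true := by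
  decide +kernel

theorem cD8k_0_k17_3 : allI cD8k_0_c (rjL dJ cD8k_0_q rD8k_17_3) 4069 = true := by
  decide +kernel

theorem cD8k_0_k17_4 : allI cD8k_0_c (rjL dJ cD8k_0_q rD8k_17_4) 4071 = true := by
  decide +kernel

theorem cD8k_0_k17_5 : allI cD8k_0_c (rjL dJ cD8k_0_q rD8k_17_5) 4073 = true := by
  decide +kernel

theorem cD8k_0_k17_6 : allI cD8k_0_c (rjL dJ cD8k_0_q rD8k_17_6) 4075 = true := by
  decide +kernel

theorem cD8k_0_k17_7 : allI cD8k_0_c (rjL dJ cD8k_0_q rD8k_17_7) 4078 = true := by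
  decide +kernel

theorem cD8k_0_k17_8 : allI cD8k_0_c (rjL dJ cD8k_0_q rD8k_17_8) 4080 = true := by
  decide +kernel

theorem cD8k_0_k17_9 : allI cD8k_0_c (rjL dJ cD8k_0_q rD8k_17_9) 4082 = true := by
  decide +kernel

theorem cD8k_0_k17_10 : allI cD8k_0_c (rjL dJ cD8k_0_q rD8k_17_10) 4084 = true := by
  decide +kernel

theorem cD8k_0_k17_11 : allI cD8k_0_c (rjL dJ cD8k_0_q rD8k_17_11) 4086 = true := by
  decide +kernel

theorem cD8k_0_k17_12 : allI cD8k_0_c (rjL dJ cD8k_0_q rD8k_17_12) 4088 = true := by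
  decide +kernel

theorem cD8k_0_k17_13 : allI cD8k_0_c (rjL dJ cD8k_0_q rD8k_17_13) 4090 = true := by
  decide +kernel

theorem cD8k_0_k17_14 : allI cD8k_0_c (rjL dJ cD8k_0_q rD8k_17_14) 4093 = true := by
  decide +kernel

theorem cD8k_0_k17_15 : allI cD8k_0_c (rjL dJ cD8k_0_q rD8k_17_15) 4095 = true := by
  decide +kernel

theorem cD8k_0_k17_16 : allI cD8k_0_c (rjL dJ cD8k_0_q rD8k_17_16) 4097 = true := by
  decide +kernel

theorem cD8k_0_k17_17 : allI cD8k_0_c (rjL dJ cD8k_0_q rD8k_17_17) 4099 = true := by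
  decide +kernel

theorem cD8k_0_k17_18 : allI cD8k_0_c (rjL dJ cD8k_0_q rD8k_17_18) 4101 = true := by
  decide +kernel

theorem cD8k_0_k17_19 : allI cD8k_0_c (rjL dJ cD8k_0_q rD8k_17_19) 4103 = true := by
  decide +kernel

theorem cD8k_0_k17_20 : allI cD8k_0_c (rjL dJ cD8k_0_q rD8k_17_20) 4106 = true := by
  decide +kernel

theorem cD8k_0_k17_21 : allI cD8k_0_c (rjL dJ cD8k_0_q rD8k_17_21) 4108 = true := by
  decide +kernel

theorem cD8k_0_k17_22 : allI cD8k_0_c (rjL dJ cD8k_0_q rD8k_17_22) 4110 = true := by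
  decide +kernel

theorem cD8k_0_k17_23 : allI cD8k_0_c (rjL dJ cD8k_0_q rD8k_17_23) 4113 = true := by
  decide +kernel

theorem cD8k_0_k17_24 : allI cD8k_0_c (rjL dJ cD8k_0_q rD8k_17_24) 4116 = true := by
  decide +kernel

theorem cD8k_0_k17_25 : allI cD8k_0_c (rjL dJ cD8k_0_q rD8k_17_25) 4117 = true := by
  decide +kernel

theorem cD8k_0_k17_26 : allI cD8k_0_c (rjL dJ cD8k_0_q rD8k_17_26) 4119 = true := by
  decide +kernel

theorem cD8k_0_k17_27 : allI cD8k_0_c (rjL dJ cD8k_0_q rD8k_17_27) 4121 = true := by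
  decide +kernel

theorem cD8k_0_k17_28 : allI cD8k_0_c (rjL dJ cD8k_0_q rD8k_17_28) 4123 = true := by
  decide +kernel

theorem cD8k_0_k17_29 : allI cD8k_0_c (rjL dJ cD8k_0_q rD8k_17_29) 4125 = true := by
  decide +kernel

theorem cD8k_0_k17_30 : allI cD8k_0_c (rjL dJ cD8k_0_q rD8k_17_30) 4127 = true := by
  decide +kernel

theorem cD8k_0_k17_31 : allI cD8k_0_c (rjL dJ cD8k_0_q rD8k_17_31) 4129 = true := by
  decide +kernel

theorem cD8k_0_k17_32 : allI cD8k_0_c (rjL dJ cD8k_0_q rD8k_17_32) 4131 = true := by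
  decide +kernel

theorem cD8k_0_k17_33 : allI cD8k_0_c (rjL dJ cD8k_0_q rD8k_17_33) 4133 = true := by
  decide +kernel

theorem cD8k_0_k17_34 : allI cD8k_0_c (rjL dJ cD8k_0_q rD8k_17_34) 4135 = true := by
  decide +kernel

theorem cD8k_0_k17_35 : allI cD8k_0_c (rjL dJ cD8k_0_q rD8k_17_35) 4137 = true := by
  decide +kernel

theorem cD8k_0_k17_36 : allI cD8k_0_c (rjL dJ cD8k_0_q rD8k_17_36) 4139 = true := by
  decide +kernel

theorem cD8k_0_k17_37 : allI cD8k_0_c (rjL dJ cD8k_0_q rD8k_17_37) 4142 = true := by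
  decide +kernel

theorem cD8k_0_k17_38 : allI cD8k_0_c (rjL dJ cD8k_0_q rD8k_17_38) 4144 = true := by
  decide +kernel

theorem cD8k_0_k17_39 : allI cD8k_0_c (rjL dJ cD8k_0_q rD8k_17_39) 4146 = true := by
  decide +kernel

theorem cD8k_0_k17_40 : allI cD8k_0_c (rjL dJ cD8k_0_q rD8k_17_40) 4148 = true := by
  decide +kernel

theorem cD8k_0_k17_41 : allI cD8k_0_c (rjL dJ cD8k_0_q rD8k_17_41) 4150 = true := by
  decide +kernel

theorem cD8k_0_k17_42 : allI cD8k_0_c (rjL dJ cD8k_0_q rD8k_17_42) 4152 = true := by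
  decide +kernel

theorem cD8k_0_k17_43 : allI cD8k_0_c (rjL dJ cD8k_0_q rD8k_17_43) 4154 = true := by
  decide +kernel

theorem cD8k_0_k17_44 : allI cD8k_0_c (rjL dJ cD8k_0_q rD8k_17_44) 4157 = true := by
  decide +kernel

theorem cD8k_0_k17_45 : allI cD8k_0_c (rjL dJ cD8k_0_q rD8k_17_45) 4159 = true := by
  decide +kernel

/-- nodes -/
noncomputable def cD8k_0_n17 : List (QJ PN) :=
  rjL dJ cD8k_0_q rD8k_17_0 ++ (rjL dJ cD8k_0_q rD8k_17_1 ++ (rjL dJ cD8k_0_q rD8k_17_2 ++ (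
    rjL dJ cD8k_0_q rD8k_17_3 ++ (rjL dJ cD8k_0_q rD8k_17_4 ++ (rjL dJ cD8k_0_q rD8k_17_5 ++ (
    rjL dJ cD8k_0_q rD8k_17_6 ++ (rjL dJ cD8k_0_q rD8k_17_7 ++ (rjL dJ cD8k_0_q rD8k_17_8 ++ (
    rjL dJ cD8k_0_q rD8k_17_9 ++ (rjL dJ cD8k_0_q rD8k_17_10 ++ (rjL dJ cD8k_0_q rD8k_17_11 ++ (
    rjL dJ cD8k_0_q rD8k_17_12 ++ (rjL dJ cD8k_0_q rD8k_17_13 ++ (rjL dJ cD8k_0_q rD8k_17_14 ++ (
    rjL dJ cD8k_0_q rD8k_17_15 ++ (rjL dJ cD8k_0_q rD8k_17_16 ++ (rjL dJ cD8k_0_q rD8k_17_17 ++ (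
    rjL dJ cD8k_0_q rD8k_17_18 ++ (rjL dJ cD8k_0_q rD8k_17_19 ++ (rjL dJ cD8k_0_q rD8k_17_20 ++ (
    rjL dJ cD8k_0_q rD8k_17_21 ++ (rjL dJ cD8k_0_q rD8k_17_22 ++ (rjL dJ cD8k_0_q rD8k_17_23 ++ (
    rjL dJ cD8k_0_q rD8k_17_24 ++ (rjL dJ cD8k_0_q rD8k_17_25 ++ (rjL dJ cD8k_0_q rD8k_17_26 ++ (
    rjL dJ cD8k_0_q rD8k_17_27 ++ (rjL dJ cD8k_0_q rD8k_17_28 ++ (rjL dJ cD8k_0_q rD8k_17_29 ++ (
    rjL dJ cD8k_0_q rD8k_17_30 ++ (rjL dJ cD8k_0_q rD8k_17_31 ++ (rjL dJ cD8k_0_q rD8k_17_32 ++ (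
    rjL dJ cD8k_0_q rD8k_17_33 ++ (rjL dJ cD8k_0_q rD8k_17_34 ++ (rjL dJ cD8k_0_q rD8k_17_35 ++ (
    rjL dJ cD8k_0_q rD8k_17_36 ++ (rjL dJ cD8k_0_q rD8k_17_37 ++ (rjL dJ cD8k_0_q rD8k_17_38 ++ (
    rjL dJ cD8k_0_q rD8k_17_39 ++ (rjL dJ cD8k_0_q rD8k_17_40 ++ (rjL dJ cD8k_0_q rD8k_17_41 ++ (
    rjL dJ cD8k_0_q rD8k_17_42 ++ (rjL dJ cD8k_0_q rD8k_17_43 ++ (rjL dJ cD8k_0_q rD8k_17_44 ++
    rjL dJ cD8k_0_q rD8k_17_45))))))))))))))))))))))))))))))))))))))))))))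

theorem cD8k_0_k17 : allI cD8k_0_c cD8k_0_n17 4062 = true := by
  refine allI_appQ (k := 3) cD8k_0_k17_0 (by decide +kernel) ?_
  refine allI_appQ (k := 2) cD8k_0_k17_1 (by decide +kernel) ?_
  refine allI_appQ (k := 2) cD8k_0_k17_2 (by decide +kernel) ?_
  refine allI_appQ (k := 2) cD8k_0_k17_3 (by decide +kernel) ?_
  refine allI_appQ (k := 2) cD8k_0_k17_4 (by decide +kernel) ?_
  refine allI_appQ (k := 2) cD8k_0_k17_5 (by decide +kernel) ?_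
  refine allI_appQ (k := 3) cD8k_0_k17_6 (by decide +kernel) ?_
  refine allI_appQ (k := 2) cD8k_0_k17_7 (by decide +kernel) ?_
  refine allI_appQ (k := 2) cD8k_0_k17_8 (by decide +kernel) ?_
  refine allI_appQ (k := 2) cD8k_0_k17_9 (by decide +kernel) ?_
  refine allI_appQ (k := 2) cD8k_0_k17_10 (by decide +kernel) ?_
  refine allI_appQ (k := 2) cD8k_0_k17_11 (by decide +kernel) ?_
  refine allI_appQ (k := 2) cD8k_0_k17_12 (by decide +kernel) ?_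
  refine allI_appQ (k := 3) cD8k_0_k17_13 (by decide +kernel) ?_
  refine allI_appQ (k := 2) cD8k_0_k17_14 (by decide +kernel) ?_
  refine allI_appQ (k := 2) cD8k_0_k17_15 (by decide +kernel) ?_
  refine allI_appQ (k := 2) cD8k_0_k17_16 (by decide +kernel) ?_
  refine allI_appQ (k := 2) cD8k_0_k17_17 (by decide +kernel) ?_
  refine allI_appQ (k := 2) cD8k_0_k17_18 (by decide +kernel) ?_
  refine allI_appQ (k := 3) cD8k_0_k17_19 (by decide +kernel) ?_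
  refine allI_appQ (k := 2) cD8k_0_k17_20 (by decide +kernel) ?_
  refine allI_appQ (k := 2) cD8k_0_k17_21 (by decide +kernel) ?_
  refine allI_appQ (k := 3) cD8k_0_k17_22 (by decide +kernel) ?_
  refine allI_appQ (k := 3) cD8k_0_k17_23 (by decide +kernel) ?_
  refine allI_appQ (k := 1) cD8k_0_k17_24 (by decide +kernel) ?_
  refine allI_appQ (k := 2) cD8k_0_k17_25 (by decide +kernel) ?_
  refine allI_appQ (k := 2) cD8k_0_k17_26 (by decide +kernel) ?_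
  refine allI_appQ (k := 2) cD8k_0_k17_27 (by decide +kernel) ?_
  refine allI_appQ (k := 2) cD8k_0_k17_28 (by decide +kernel) ?_
  refine allI_appQ (k := 2) cD8k_0_k17_29 (by decide +kernel) ?_
  refine allI_appQ (k := 2) cD8k_0_k17_30 (by decide +kernel) ?_
  refine allI_appQ (k := 2) cD8k_0_k17_31 (by decide +kernel) ?_
  refine allI_appQ (k := 2) cD8k_0_k17_32 (by decide +kernel) ?_
  refine allI_appQ (k := 2) cD8k_0_k17_33 (by decide +kernel) ?_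
  refine allI_appQ (k := 2) cD8k_0_k17_34 (by decide +kernel) ?_
  refine allI_appQ (k := 2) cD8k_0_k17_35 (by decide +kernel) ?_
  refine allI_appQ (k := 3) cD8k_0_k17_36 (by decide +kernel) ?_
  refine allI_appQ (k := 2) cD8k_0_k17_37 (by decide +kernel) ?_
  refine allI_appQ (k := 2) cD8k_0_k17_38 (by decide +kernel) ?_
  refine allI_appQ (k := 2) cD8k_0_k17_39 (by decide +kernel) ?_
  refine allI_appQ (k := 2) cD8k_0_k17_40 (by decide +kernel) ?_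
  refine allI_appQ (k := 2) cD8k_0_k17_41 (by decide +kernel) ?_
  refine allI_appQ (k := 2) cD8k_0_k17_42 (by decide +kernel) ?_
  refine allI_appQ (k := 3) cD8k_0_k17_43 (by decide +kernel) ?_
  refine allI_appQ (k := 2) cD8k_0_k17_44 (by decide +kernel) ?_
  exact cD8k_0_k17_45

theorem cD8k_0_l17 : cD8k_0_n17.length = 98 := by
  decide +kernel

end Pool.Agent.Lib_MP_fa6e45
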