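import Pool.Agent.Lib_MP_fa6e45.DQ8k_0d
import Pool.Agent.Lib_MP_fa6e45.RD8k_18

/-!
MP_fa6e45_co, stage 9: straight-side patterns with `8` sides, part of a certificate (generated by a program).
-/

namespace Pool.Agent.Lib_MP_fa6e45

theorem cD8k_0_k18_0 : allI cD8k_0_c (rjL dJ cD8k_0_q rD8k_18_0) 4160 = true := by
  decide +kernel

theorem cD8k_0_k18_1 : allI cD8k_0_c (rjL dJ cD8k_0_q rD8k_18_1) 4162 = true := by
  decide +kernel

theorem cD8k_0_k18_2 : allI cD8k_0_c (rjL dJ cD8k_0_q rD8k_18_2) 4164 = true := by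
  decide +kernel

theorem cD8k_0_k18_3 : allI cD8k_0_c (rjL dJ cD8k_0_q rD8k_18_3) 4166 = true := by
  decide +kernel

theorem cD8k_0_k18_4 : allI cD8k_0_c (rjL dJ cD8k_0_q rD8k_18_4) 4168 = true := by
  decide +kernel

theorem cD8k_0_k18_5 : allI cD8k_0_c (rjL dJ cD8k_0_q rD8k_18_5) 4171 = true := by
  decide +kernel

theorem cD8k_0_k18_6 : allI cD8k_0_c (rjL dJ cD8k_0_q rD8k_18_6) 4173 = true := by
  decide +kernel

theorem cD8k_0_k18_7 : allI cD8k_0_c (rjL dJ cD8k_0_q rD8k_18_7) 4175 = true := by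
  decide +kernel

theorem cD8k_0_k18_8 : allI cD8k_0_c (rjL dJ cD8k_0_q rD8k_18_8) 4177 = true := by
  decide +kernel

theorem cD8k_0_k18_9 : allI cD8k_0_c (rjL dJ cD8k_0_q rD8k_18_9) 4179 = true := by
  decide +kernel

theorem cD8k_0_k18_10 : allI cD8k_0_c (rjL dJ cD8k_0_q rD8k_18_10) 4181 = true := by
  decide +kernel

theorem cD8k_0_k18_11 : allI cD8k_0_c (rjL dJ cD8k_0_q rD8k_18_11) 4184 = true := by
  decide +kernel

theorem cD8k_0_k18_12 : allI cD8k_0_c (rjL dJ cD8k_0_q rD8k_18_12) 4186 = true := by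
  decide +kernel

theorem cD8k_0_k18_13 : allI cD8k_0_c (rjL dJ cD8k_0_q rD8k_18_13) 4188 = true := by
  decide +kernel

theorem cD8k_0_k18_14 : allI cD8k_0_c (rjL dJ cD8k_0_q rD8k_18_14) 4190 = true := by
  decide +kernel

theorem cD8k_0_k18_15 : allI cD8k_0_c (rjL dJ cD8k_0_q rD8k_18_15) 4192 = true := by
  decide +kernel

theorem cD8k_0_k18_16 : allI cD8k_0_c (rjL dJ cD8k_0_q rD8k_18_16) 4194 = true := by
  decide +kernel

theorem cD8k_0_k18_17 : allI cD8k_0_c (rjL dJ cD8k_0_q rD8k_18_17) 4196 = true := by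
  decide +kernel

theorem cD8k_0_k18_18 : allI cD8k_0_c (rjL dJ cD8k_0_q rD8k_18_18) 4198 = true := by
  decide +kernel

theorem cD8k_0_k18_19 : allI cD8k_0_c (rjL dJ cD8k_0_q rD8k_18_19) 4200 = true := by
  decide +kernel

theorem cD8k_0_k18_20 : allI cD8k_0_c (rjL dJ cD8k_0_q rD8k_18_20) 4202 = true := by
  decide +kernel

theorem cD8k_0_k18_21 : allI cD8k_0_c (rjL dJ cD8k_0_q rD8k_18_21) 4204 = true := by
  decide +kernel

theorem cD8k_0_k18_22 : allI cD8k_0_c (rjL dJ cD8k_0_q rD8k_18_22) 4207 = true := by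
  decide +kernel

theorem cD8k_0_k18_23 : allI cD8k_0_c (rjL dJ cD8k_0_q rD8k_18_23) 4209 = true := by
  decide +kernel

theorem cD8k_0_k18_24 : allI cD8k_0_c (rjL dJ cD8k_0_q rD8k_18_24) 4212 = true := by
  decide +kernel

theorem cD8k_0_k18_25 : allI cD8k_0_c (rjL dJ cD8k_0_q rD8k_18_25) 4214 = true := by
  decide +kernel

theorem cD8k_0_k18_26 : allI cD8k_0_c (rjL dJ cD8k_0_q rD8k_18_26) 4216 = true := by
  decide +kernel

theorem cD8k_0_k18_27 : allI cD8k_0_c (rjL dJ cD8k_0_q rD8k_18_27) 4218 = true := by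
  decide +kernel

theorem cD8k_0_k18_28 : allI cD8k_0_c (rjL dJ cD8k_0_q rD8k_18_28) 4220 = true := by
  decide +kernel

theorem cD8k_0_k18_29 : allI cD8k_0_c (rjL dJ cD8k_0_q rD8k_18_29) 4222 = true := by
  decide +kernel

theorem cD8k_0_k18_30 : allI cD8k_0_c (rjL dJ cD8k_0_q rD8k_18_30) 4225 = true := by
  decide +kernel

theorem cD8k_0_k18_31 : allI cD8k_0_c (rjL dJ cD8k_0_q rD8k_18_31) 4227 = true := by
  decide +kernel

theorem cD8k_0_k18_32 : allI cD8k_0_c (rjL dJ cD8k_0_q rD8k_18_32) 4229 = true := by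
  decide +kernel

theorem cD8k_0_k18_33 : allI cD8k_0_c (rjL dJ cD8k_0_q rD8k_18_33) 4231 = true := by
  decide +kernel

theorem cD8k_0_k18_34 : allI cD8k_0_c (rjL dJ cD8k_0_q rD8k_18_34) 4233 = true := by
  decide +kernel

theorem cD8k_0_k18_35 : allI cD8k_0_c (rjL dJ cD8k_0_q rD8k_18_35) 4235 = true := by
  decide +kernel

theorem cD8k_0_k18_36 : allI cD8k_0_c (rjL dJ cD8k_0_q rD8k_18_36) 4237 = true := by
  decide +kernel

theorem cD8k_0_k18_37 : allI cD8k_0_c (rjL dJ cD8k_0_q rD8k_18_37) 4239 = true := by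
  decide +kernel

theorem cD8k_0_k18_38 : allI cD8k_0_c (rjL dJ cD8k_0_q rD8k_18_38) 4241 = true := by
  decide +kernel

theorem cD8k_0_k18_39 : allI cD8k_0_c (rjL dJ cD8k_0_q rD8k_18_39) 4243 = true := by
  decide +kernel

theorem cD8k_0_k18_40 : allI cD8k_0_c (rjL dJ cD8k_0_q rD8k_18_40) 4245 = true := by
  decide +kernel

theorem cD8k_0_k18_41 : allI cD8k_0_c (rjL dJ cD8k_0_q rD8k_18_41) 4247 = true := by
  decide +kernel

theorem cD8k_0_k18_42 : allI cD8k_0_c (rjL dJ cD8k_0_q rD8k_18_42) 4249 = true := by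
  decide +kernel

theorem cD8k_0_k18_43 : allI cD8k_0_c (rjL dJ cD8k_0_q rD8k_18_43) 4251 = true := by
  decide +kernel

theorem cD8k_0_k18_44 : allI cD8k_0_c (rjL dJ cD8k_0_q rD8k_18_44) 4252 = true := by
  decide +kernel

theorem cD8k_0_k18_45 : allI cD8k_0_c (rjL dJ cD8k_0_q rD8k_18_45) 4253 = true := by
  decide +kernel

theorem cD8k_0_k18_46 : allI cD8k_0_c (rjL dJ cD8k_0_q rD8k_18_46) 4255 = true := by
  decide +kernel

theorem cD8k_0_k18_47 : allI cD8k_0_c (rjL dJ cD8k_0_q rD8k_18_47) 4257 = true := by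
  decide +kernel

/-- nodes -/
noncomputable def cD8k_0_n18 : List (QJ PN) :=
  rjL dJ cD8k_0_q rD8k_18_0 ++ (rjL dJ cD8k_0_q rD8k_18_1 ++ (rjL dJ cD8k_0_q rD8k_18_2 ++ (
    rjL dJ cD8k_0_q rD8k_18_3 ++ (rjL dJ cD8k_0_q rD8k_18_4 ++ (rjL dJ cD8k_0_q rD8k_18_5 ++ (
    rjL dJ cD8k_0_q rD8k_18_6 ++ (rjL dJ cD8k_0_q rD8k_18_7 ++ (rjL dJ cD8k_0_q rD8k_18_8 ++ (
    rjL dJ cD8k_0_q rD8k_18_9 ++ (rjL dJ cD8k_0_q rD8k_18_10 ++ (rjL dJ cD8k_0_q rD8k_18_11 ++ (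
    rjL dJ cD8k_0_q rD8k_18_12 ++ (rjL dJ cD8k_0_q rD8k_18_13 ++ (rjL dJ cD8k_0_q rD8k_18_14 ++ (
    rjL dJ cD8k_0_q rD8k_18_15 ++ (rjL dJ cD8k_0_q rD8k_18_16 ++ (rjL dJ cD8k_0_q rD8k_18_17 ++ (
    rjL dJ cD8k_0_q rD8k_18_18 ++ (rjL dJ cD8k_0_q rD8k_18_19 ++ (rjL dJ cD8k_0_q rD8k_18_20 ++ (
    rjL dJ cD8k_0_q rD8k_18_21 ++ (rjL dJ cD8k_0_q rD8k_18_22 ++ (rjL dJ cD8k_0_q rD8k_18_23 ++ (
    rjL dJ cD8k_0_q rD8k_18_24 ++ (rjL dJ cD8k_0_q rD8k_18_25 ++ (rjL dJ cD8k_0_q rD8k_18_26 ++ (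
    rjL dJ cD8k_0_q rD8k_18_27 ++ (rjL dJ cD8k_0_q rD8k_18_28 ++ (rjL dJ cD8k_0_q rD8k_18_29 ++ (
    rjL dJ cD8k_0_q rD8k_18_30 ++ (rjL dJ cD8k_0_q rD8k_18_31 ++ (rjL dJ cD8k_0_q rD8k_18_32 ++ (
    rjL dJ cD8k_0_q rD8k_18_33 ++ (rjL dJ cD8k_0_q rD8k_18_34 ++ (rjL dJ cD8k_0_q rD8k_18_35 ++ (
    rjL dJ cD8k_0_q rD8k_18_36 ++ (rjL dJ cD8k_0_q rD8k_18_37 ++ (rjL dJ cD8k_0_q rD8k_18_38 ++ (
    rjL dJ cD8k_0_q rD8k_18_39 ++ (rjL dJ cD8k_0_q rD8k_18_40 ++ (rjL dJ cD8k_0_q rD8k_18_41 ++ (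
    rjL dJ cD8k_0_q rD8k_18_42 ++ (rjL dJ cD8k_0_q rD8k_18_43 ++ (rjL dJ cD8k_0_q rD8k_18_44 ++ (
    rjL dJ cD8k_0_q rD8k_18_45 ++ (rjL dJ cD8k_0_q rD8k_18_46 ++
    rjL dJ cD8k_0_q rD8k_18_47))))))))))))))))))))))))))))))))))))))))))))))

theorem cD8k_0_k18 : allI cD8k_0_c cD8k_0_n18 4160 = true := by
  refine allI_appQ (k := 2) cD8k_0_k18_0 (by decide +kernel) ?_
  refine allI_appQ (k := 2) cD8k_0_k18_1 (by decide +kernel) ?_
  refine allI_appQ (k := 2) cD8k_0_k18_2 (by decide +kernel) ?_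
  refine allI_appQ (k := 2) cD8k_0_k18_3 (by decide +kernel) ?_
  refine allI_appQ (k := 3) cD8k_0_k18_4 (by decide +kernel) ?_
  refine allI_appQ (k := 2) cD8k_0_k18_5 (by decide +kernel) ?_
  refine allI_appQ (k := 2) cD8k_0_k18_6 (by decide +kernel) ?_
  refine allI_appQ (k := 2) cD8k_0_k18_7 (by decide +kernel) ?_
  refine allI_appQ (k := 2) cD8k_0_k18_8 (by decide +kernel) ?_
  refine allI_appQ (k := 2) cD8k_0_k18_9 (by decide +kernel) ?_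
  refine allI_appQ (k := 3) cD8k_0_k18_10 (by decide +kernel) ?_
  refine allI_appQ (k := 2) cD8k_0_k18_11 (by decide +kernel) ?_
  refine allI_appQ (k := 2) cD8k_0_k18_12 (by decide +kernel) ?_
  refine allI_appQ (k := 2) cD8k_0_k18_13 (by decide +kernel) ?_
  refine allI_appQ (k := 2) cD8k_0_k18_14 (by decide +kernel) ?_
  refine allI_appQ (k := 2) cD8k_0_k18_15 (by decide +kernel) ?_
  refine allI_appQ (k := 2) cD8k_0_k18_16 (by decide +kernel) ?_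
  refine allI_appQ (k := 2) cD8k_0_k18_17 (by decide +kernel) ?_
  refine allI_appQ (k := 2) cD8k_0_k18_18 (by decide +kernel) ?_
  refine allI_appQ (k := 2) cD8k_0_k18_19 (by decide +kernel) ?_
  refine allI_appQ (k := 2) cD8k_0_k18_20 (by decide +kernel) ?_
  refine allI_appQ (k := 3) cD8k_0_k18_21 (by decide +kernel) ?_
  refine allI_appQ (k := 2) cD8k_0_k18_22 (by decide +kernel) ?_
  refine allI_appQ (k := 3) cD8k_0_k18_23 (by decide +kernel) ?_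
  refine allI_appQ (k := 2) cD8k_0_k18_24 (by decide +kernel) ?_
  refine allI_appQ (k := 2) cD8k_0_k18_25 (by decide +kernel) ?_
  refine allI_appQ (k := 2) cD8k_0_k18_26 (by decide +kernel) ?_
  refine allI_appQ (k := 2) cD8k_0_k18_27 (by decide +kernel) ?_
  refine allI_appQ (k := 2) cD8k_0_k18_28 (by decide +kernel) ?_
  refine allI_appQ (k := 3) cD8k_0_k18_29 (by decide +kernel) ?_
  refine allI_appQ (k := 2) cD8k_0_k18_30 (by decide +kernel) ?_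
  refine allI_appQ (k := 2) cD8k_0_k18_31 (by decide +kernel) ?_
  refine allI_appQ (k := 2) cD8k_0_k18_32 (by decide +kernel) ?_
  refine allI_appQ (k := 2) cD8k_0_k18_33 (by decide +kernel) ?_
  refine allI_appQ (k := 2) cD8k_0_k18_34 (by decide +kernel) ?_
  refine allI_appQ (k := 2) cD8k_0_k18_35 (by decide +kernel) ?_
  refine allI_appQ (k := 2) cD8k_0_k18_36 (by decide +kernel) ?_
  refine allI_appQ (k := 2) cD8k_0_k18_37 (by decide +kernel) ?_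
  refine allI_appQ (k := 2) cD8k_0_k18_38 (by decide +kernel) ?_
  refine allI_appQ (k := 2) cD8k_0_k18_39 (by decide +kernel) ?_
  refine allI_appQ (k := 2) cD8k_0_k18_40 (by decide +kernel) ?_
  refine allI_appQ (k := 2) cD8k_0_k18_41 (by decide +kernel) ?_
  refine allI_appQ (k := 2) cD8k_0_k18_42 (by decide +kernel) ?_
  refine allI_appQ (k := 1) cD8k_0_k18_43 (by decide +kernel) ?_
  refine allI_appQ (k := 1) cD8k_0_k18_44 (by decide +kernel) ?_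
  refine allI_appQ (k := 2) cD8k_0_k18_45 (by decide +kernel) ?_
  refine allI_appQ (k := 2) cD8k_0_k18_46 (by decide +kernel) ?_
  exact cD8k_0_k18_47

theorem cD8k_0_l18 : cD8k_0_n18.length = 98 := by
  decide +kernel

end Pool.Agent.Lib_MP_fa6e45
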