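import Pool.Agent.Lib_MP_fa6e45.DQ8k_0d
import Pool.Agent.Lib_MP_fa6e45.RD8k_19

/-!
MP_fa6e45_co, stage 9: straight-side patterns with `8` sides, part of a certificate (generated by a program).
-/

namespace Pool.Agent.Lib_MP_fa6e45

theorem cD8k_0_k19_0 : allI cD8k_0_c (rjL dJ cD8k_0_q rD8k_19_0) 4258 = true := by
  decide +kernel

theorem cD8k_0_k19_1 : allI cD8k_0_c (rjL dJ cD8k_0_q rD8k_19_1) 4260 = true := by
  decide +kernel

theorem cD8k_0_k19_2 : allI cD8k_0_c (rjL dJ cD8k_0_q rD8k_19_2) 4262 = true := by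
  decide +kernel

theorem cD8k_0_k19_3 : allI cD8k_0_c (rjL dJ cD8k_0_q rD8k_19_3) 4265 = true := by
  decide +kernel

theorem cD8k_0_k19_4 : allI cD8k_0_c (rjL dJ cD8k_0_q rD8k_19_4) 4267 = true := by
  decide +kernel

theorem cD8k_0_k19_5 : allI cD8k_0_c (rjL dJ cD8k_0_q rD8k_19_5) 4269 = true := by
  decide +kernel

theorem cD8k_0_k19_6 : allI cD8k_0_c (rjL dJ cD8k_0_q rD8k_19_6) 4271 = true := by
  decide +kernel

theorem cD8k_0_k19_7 : allI cD8k_0_c (rjL dJ cD8k_0_q rD8k_19_7) 4273 = true := by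
  decide +kernel

theorem cD8k_0_k19_8 : allI cD8k_0_c (rjL dJ cD8k_0_q rD8k_19_8) 4275 = true := by
  decide +kernel

theorem cD8k_0_k19_9 : allI cD8k_0_c (rjL dJ cD8k_0_q rD8k_19_9) 4277 = true := by
  decide +kernel

theorem cD8k_0_k19_10 : allI cD8k_0_c (rjL dJ cD8k_0_q rD8k_19_10) 4280 = true := by
  decide +kernel

theorem cD8k_0_k19_11 : allI cD8k_0_c (rjL dJ cD8k_0_q rD8k_19_11) 4282 = true := by
  decide +kernel

theorem cD8k_0_k19_12 : allI cD8k_0_c (rjL dJ cD8k_0_q rD8k_19_12) 4284 = true := by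
  decide +kernel

theorem cD8k_0_k19_13 : allI cD8k_0_c (rjL dJ cD8k_0_q rD8k_19_13) 4286 = true := by
  decide +kernel

theorem cD8k_0_k19_14 : allI cD8k_0_c (rjL dJ cD8k_0_q rD8k_19_14) 4289 = true := by
  decide +kernel

theorem cD8k_0_k19_15 : allI cD8k_0_c (rjL dJ cD8k_0_q rD8k_19_15) 4292 = true := by
  decide +kernel

theorem cD8k_0_k19_16 : allI cD8k_0_c (rjL dJ cD8k_0_q rD8k_19_16) 4294 = true := by
  decide +kernel

theorem cD8k_0_k19_17 : allI cD8k_0_c (rjL dJ cD8k_0_q rD8k_19_17) 4296 = true := by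
  decide +kernel

theorem cD8k_0_k19_18 : allI cD8k_0_c (rjL dJ cD8k_0_q rD8k_19_18) 4298 = true := by
  decide +kernel

theorem cD8k_0_k19_19 : allI cD8k_0_c (rjL dJ cD8k_0_q rD8k_19_19) 4300 = true := by
  decide +kernel

theorem cD8k_0_k19_20 : allI cD8k_0_c (rjL dJ cD8k_0_q rD8k_19_20) 4303 = true := by
  decide +kernel

theorem cD8k_0_k19_21 : allI cD8k_0_c (rjL dJ cD8k_0_q rD8k_19_21) 4305 = true := by
  decide +kernel

theorem cD8k_0_k19_22 : allI cD8k_0_c (rjL dJ cD8k_0_q rD8k_19_22) 4307 = true := by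
  decide +kernel

theorem cD8k_0_k19_23 : allI cD8k_0_c (rjL dJ cD8k_0_q rD8k_19_23) 4309 = true := by
  decide +kernel

theorem cD8k_0_k19_24 : allI cD8k_0_c (rjL dJ cD8k_0_q rD8k_19_24) 4311 = true := by
  decide +kernel

theorem cD8k_0_k19_25 : allI cD8k_0_c (rjL dJ cD8k_0_q rD8k_19_25) 4313 = true := by
  decide +kernel

theorem cD8k_0_k19_26 : allI cD8k_0_c (rjL dJ cD8k_0_q rD8k_19_26) 4316 = true := by
  decide +kernel

theorem cD8k_0_k19_27 : allI cD8k_0_c (rjL dJ cD8k_0_q rD8k_19_27) 4318 = true := by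
  decide +kernel

theorem cD8k_0_k19_28 : allI cD8k_0_c (rjL dJ cD8k_0_q rD8k_19_28) 4319 = true := by
  decide +kernel

theorem cD8k_0_k19_29 : allI cD8k_0_c (rjL dJ cD8k_0_q rD8k_19_29) 4321 = true := by
  decide +kernel

theorem cD8k_0_k19_30 : allI cD8k_0_c (rjL dJ cD8k_0_q rD8k_19_30) 4324 = true := by
  decide +kernel

theorem cD8k_0_k19_31 : allI cD8k_0_c (rjL dJ cD8k_0_q rD8k_19_31) 4326 = true := by
  decide +kernel

theorem cD8k_0_k19_32 : allI cD8k_0_c (rjL dJ cD8k_0_q rD8k_19_32) 4328 = true := by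
  decide +kernel

theorem cD8k_0_k19_33 : allI cD8k_0_c (rjL dJ cD8k_0_q rD8k_19_33) 4330 = true := by
  decide +kernel

theorem cD8k_0_k19_34 : allI cD8k_0_c (rjL dJ cD8k_0_q rD8k_19_34) 4333 = true := by
  decide +kernel

theorem cD8k_0_k19_35 : allI cD8k_0_c (rjL dJ cD8k_0_q rD8k_19_35) 4335 = true := by
  decide +kernel

theorem cD8k_0_k19_36 : allI cD8k_0_c (rjL dJ cD8k_0_q rD8k_19_36) 4337 = true := by
  decide +kernel

theorem cD8k_0_k19_37 : allI cD8k_0_c (rjL dJ cD8k_0_q rD8k_19_37) 4339 = true := by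
  decide +kernel

theorem cD8k_0_k19_38 : allI cD8k_0_c (rjL dJ cD8k_0_q rD8k_19_38) 4341 = true := by
  decide +kernel

theorem cD8k_0_k19_39 : allI cD8k_0_c (rjL dJ cD8k_0_q rD8k_19_39) 4343 = true := by
  decide +kernel

theorem cD8k_0_k19_40 : allI cD8k_0_c (rjL dJ cD8k_0_q rD8k_19_40) 4345 = true := by
  decide +kernel

theorem cD8k_0_k19_41 : allI cD8k_0_c (rjL dJ cD8k_0_q rD8k_19_41) 4347 = true := by
  decide +kernel

theorem cD8k_0_k19_42 : allI cD8k_0_c (rjL dJ cD8k_0_q rD8k_19_42) 4348 = true := by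
  decide +kernel

theorem cD8k_0_k19_43 : allI cD8k_0_c (rjL dJ cD8k_0_q rD8k_19_43) 4349 = true := by
  decide +kernel

theorem cD8k_0_k19_44 : allI cD8k_0_c (rjL dJ cD8k_0_q rD8k_19_44) 4351 = true := by
  decide +kernel

/-- nodes -/
noncomputable def cD8k_0_n19 : List (QJ PN) :=
  rjL dJ cD8k_0_q rD8k_19_0 ++ (rjL dJ cD8k_0_q rD8k_19_1 ++ (rjL dJ cD8k_0_q rD8k_19_2 ++ (
    rjL dJ cD8k_0_q rD8k_19_3 ++ (rjL dJ cD8k_0_q rD8k_19_4 ++ (rjL dJ cD8k_0_q rD8k_19_5 ++ (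
    rjL dJ cD8k_0_q rD8k_19_6 ++ (rjL dJ cD8k_0_q rD8k_19_7 ++ (rjL dJ cD8k_0_q rD8k_19_8 ++ (
    rjL dJ cD8k_0_q rD8k_19_9 ++ (rjL dJ cD8k_0_q rD8k_19_10 ++ (rjL dJ cD8k_0_q rD8k_19_11 ++ (
    rjL dJ cD8k_0_q rD8k_19_12 ++ (rjL dJ cD8k_0_q rD8k_19_13 ++ (rjL dJ cD8k_0_q rD8k_19_14 ++ (
    rjL dJ cD8k_0_q rD8k_19_15 ++ (rjL dJ cD8k_0_q rD8k_19_16 ++ (rjL dJ cD8k_0_q rD8k_19_17 ++ (
    rjL dJ cD8k_0_q rD8k_19_18 ++ (rjL dJ cD8k_0_q rD8k_19_19 ++ (rjL dJ cD8k_0_q rD8k_19_20 ++ (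
    rjL dJ cD8k_0_q rD8k_19_21 ++ (rjL dJ cD8k_0_q rD8k_19_22 ++ (rjL dJ cD8k_0_q rD8k_19_23 ++ (
    rjL dJ cD8k_0_q rD8k_19_24 ++ (rjL dJ cD8k_0_q rD8k_19_25 ++ (rjL dJ cD8k_0_q rD8k_19_26 ++ (
    rjL dJ cD8k_0_q rD8k_19_27 ++ (rjL dJ cD8k_0_q rD8k_19_28 ++ (rjL dJ cD8k_0_q rD8k_19_29 ++ (
    rjL dJ cD8k_0_q rD8k_19_30 ++ (rjL dJ cD8k_0_q rD8k_19_31 ++ (rjL dJ cD8k_0_q rD8k_19_32 ++ (
    rjL dJ cD8k_0_q rD8k_19_33 ++ (rjL dJ cD8k_0_q rD8k_19_34 ++ (rjL dJ cD8k_0_q rD8k_19_35 ++ (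
    rjL dJ cD8k_0_q rD8k_19_36 ++ (rjL dJ cD8k_0_q rD8k_19_37 ++ (rjL dJ cD8k_0_q rD8k_19_38 ++ (
    rjL dJ cD8k_0_q rD8k_19_39 ++ (rjL dJ cD8k_0_q rD8k_19_40 ++ (rjL dJ cD8k_0_q rD8k_19_41 ++ (
    rjL dJ cD8k_0_q rD8k_19_42 ++ (rjL dJ cD8k_0_q rD8k_19_43 ++
    rjL dJ cD8k_0_q rD8k_19_44)))))))))))))))))))))))))))))))))))))))))))

theorem cD8k_0_k19 : allI cD8k_0_c cD8k_0_n19 4258 = true := by
  refine allI_appQ (k := 2) cD8k_0_k19_0 (by decide +kernel) ?_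
  refine allI_appQ (k := 2) cD8k_0_k19_1 (by decide +kernel) ?_
  refine allI_appQ (k := 3) cD8k_0_k19_2 (by decide +kernel) ?_
  refine allI_appQ (k := 2) cD8k_0_k19_3 (by decide +kernel) ?_
  refine allI_appQ (k := 2) cD8k_0_k19_4 (by decide +kernel) ?_
  refine allI_appQ (k := 2) cD8k_0_k19_5 (by decide +kernel) ?_
  refine allI_appQ (k := 2) cD8k_0_k19_6 (by decide +kernel) ?_
  refine allI_appQ (k := 2) cD8k_0_k19_7 (by decide +kernel) ?_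
  refine allI_appQ (k := 2) cD8k_0_k19_8 (by decide +kernel) ?_
  refine allI_appQ (k := 3) cD8k_0_k19_9 (by decide +kernel) ?_
  refine allI_appQ (k := 2) cD8k_0_k19_10 (by decide +kernel) ?_
  refine allI_appQ (k := 2) cD8k_0_k19_11 (by decide +kernel) ?_
  refine allI_appQ (k := 2) cD8k_0_k19_12 (by decide +kernel) ?_
  refine allI_appQ (k := 3) cD8k_0_k19_13 (by decide +kernel) ?_
  refine allI_appQ (k := 3) cD8k_0_k19_14 (by decide +kernel) ?_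
  refine allI_appQ (k := 2) cD8k_0_k19_15 (by decide +kernel) ?_
  refine allI_appQ (k := 2) cD8k_0_k19_16 (by decide +kernel) ?_
  refine allI_appQ (k := 2) cD8k_0_k19_17 (by decide +kernel) ?_
  refine allI_appQ (k := 2) cD8k_0_k19_18 (by decide +kernel) ?_
  refine allI_appQ (k := 3) cD8k_0_k19_19 (by decide +kernel) ?_
  refine allI_appQ (k := 2) cD8k_0_k19_20 (by decide +kernel) ?_
  refine allI_appQ (k := 2) cD8k_0_k19_21 (by decide +kernel) ?_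
  refine allI_appQ (k := 2) cD8k_0_k19_22 (by decide +kernel) ?_
  refine allI_appQ (k := 2) cD8k_0_k19_23 (by decide +kernel) ?_
  refine allI_appQ (k := 2) cD8k_0_k19_24 (by decide +kernel) ?_
  refine allI_appQ (k := 3) cD8k_0_k19_25 (by decide +kernel) ?_
  refine allI_appQ (k := 2) cD8k_0_k19_26 (by decide +kernel) ?_
  refine allI_appQ (k := 1) cD8k_0_k19_27 (by decide +kernel) ?_
  refine allI_appQ (k := 2) cD8k_0_k19_28 (by decide +kernel) ?_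
  refine allI_appQ (k := 3) cD8k_0_k19_29 (by decide +kernel) ?_
  refine allI_appQ (k := 2) cD8k_0_k19_30 (by decide +kernel) ?_
  refine allI_appQ (k := 2) cD8k_0_k19_31 (by decide +kernel) ?_
  refine allI_appQ (k := 2) cD8k_0_k19_32 (by decide +kernel) ?_
  refine allI_appQ (k := 3) cD8k_0_k19_33 (by decide +kernel) ?_
  refine allI_appQ (k := 2) cD8k_0_k19_34 (by decide +kernel) ?_
  refine allI_appQ (k := 2) cD8k_0_k19_35 (by decide +kernel) ?_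
  refine allI_appQ (k := 2) cD8k_0_k19_36 (by decide +kernel) ?_
  refine allI_appQ (k := 2) cD8k_0_k19_37 (by decide +kernel) ?_
  refine allI_appQ (k := 2) cD8k_0_k19_38 (by decide +kernel) ?_
  refine allI_appQ (k := 2) cD8k_0_k19_39 (by decide +kernel) ?_
  refine allI_appQ (k := 2) cD8k_0_k19_40 (by decide +kernel) ?_
  refine allI_appQ (k := 1) cD8k_0_k19_41 (by decide +kernel) ?_
  refine allI_appQ (k := 1) cD8k_0_k19_42 (by decide +kernel) ?_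
  refine allI_appQ (k := 2) cD8k_0_k19_43 (by decide +kernel) ?_
  exact cD8k_0_k19_44

theorem cD8k_0_l19 : cD8k_0_n19.length = 94 := by
  decide +kernel

end Pool.Agent.Lib_MP_fa6e45
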