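import Pool.Agent.Lib_MP_fa6e45.DQ8k_0d
import Pool.Agent.Lib_MP_fa6e45.RD8k_2

/-!
MP_fa6e45_co, stage 9: straight-side patterns with `8` sides, part of a certificate (generated by a program).
-/

namespace Pool.Agent.Lib_MP_fa6e45

theorem cD8k_0_k2_0 : allI cD8k_0_c (rjL dJ cD8k_0_q rD8k_2_0) 2791 = true := by
  decide +kernel

theorem cD8k_0_k2_1 : allI cD8k_0_c (rjL dJ cD8k_0_q rD8k_2_1) 2808 = true := by
  decide +kernel

theorem cD8k_0_k2_2 : allI cD8k_0_c (rjL dJ cD8k_0_q rD8k_2_2) 2819 = true := by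
  decide +kernel

theorem cD8k_0_k2_3 : allI cD8k_0_c (rjL dJ cD8k_0_q rD8k_2_3) 2837 = true := by
  decide +kernel

theorem cD8k_0_k2_4 : allI cD8k_0_c (rjL dJ cD8k_0_q rD8k_2_4) 2861 = true := by
  decide +kernel

theorem cD8k_0_k2_5 : allI cD8k_0_c (rjL dJ cD8k_0_q rD8k_2_5) 2881 = true := by
  decide +kernel

theorem cD8k_0_k2_6 : allI cD8k_0_c (rjL dJ cD8k_0_q rD8k_2_6) 2905 = true := by
  decide +kernel

theorem cD8k_0_k2_7 : allI cD8k_0_c (rjL dJ cD8k_0_q rD8k_2_7) 2929 = true := by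
  decide +kernel

theorem cD8k_0_k2_8 : allI cD8k_0_c (rjL dJ cD8k_0_q rD8k_2_8) 2953 = true := by
  decide +kernel

theorem cD8k_0_k2_9 : allI cD8k_0_c (rjL dJ cD8k_0_q rD8k_2_9) 2972 = true := by
  decide +kernel

theorem cD8k_0_k2_10 : allI cD8k_0_c (rjL dJ cD8k_0_q rD8k_2_10) 2988 = true := by
  decide +kernel

theorem cD8k_0_k2_11 : allI cD8k_0_c (rjL dJ cD8k_0_q rD8k_2_11) 3003 = true := by
  decide +kernel

theorem cD8k_0_k2_12 : allI cD8k_0_c (rjL dJ cD8k_0_q rD8k_2_12) 3024 = true := by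
  decide +kernel

theorem cD8k_0_k2_13 : allI cD8k_0_c (rjL dJ cD8k_0_q rD8k_2_13) 3039 = true := by
  decide +kernel

theorem cD8k_0_k2_14 : allI cD8k_0_c (rjL dJ cD8k_0_q rD8k_2_14) 3059 = true := by
  decide +kernel

theorem cD8k_0_k2_15 : allI cD8k_0_c (rjL dJ cD8k_0_q rD8k_2_15) 3074 = true := by
  decide +kernel

theorem cD8k_0_k2_16 : allI cD8k_0_c (rjL dJ cD8k_0_q rD8k_2_16) 3088 = true := by
  decide +kernel

theorem cD8k_0_k2_17 : allI cD8k_0_c (rjL dJ cD8k_0_q rD8k_2_17) 3101 = true := by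
  decide +kernel

theorem cD8k_0_k2_18 : allI cD8k_0_c (rjL dJ cD8k_0_q rD8k_2_18) 3116 = true := by
  decide +kernel

theorem cD8k_0_k2_19 : allI cD8k_0_c (rjL dJ cD8k_0_q rD8k_2_19) 3137 = true := by
  decide +kernel

theorem cD8k_0_k2_20 : allI cD8k_0_c (rjL dJ cD8k_0_q rD8k_2_20) 3155 = true := by
  decide +kernel

theorem cD8k_0_k2_21 : allI cD8k_0_c (rjL dJ cD8k_0_q rD8k_2_21) 3170 = true := by
  decide +kernel

theorem cD8k_0_k2_22 : allI cD8k_0_c (rjL dJ cD8k_0_q rD8k_2_22) 3194 = true := by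
  decide +kernel

theorem cD8k_0_k2_23 : allI cD8k_0_c (rjL dJ cD8k_0_q rD8k_2_23) 3210 = true := by
  decide +kernel

theorem cD8k_0_k2_24 : allI cD8k_0_c (rjL dJ cD8k_0_q rD8k_2_24) 3231 = true := by
  decide +kernel

theorem cD8k_0_k2_25 : allI cD8k_0_c (rjL dJ cD8k_0_q rD8k_2_25) 3255 = true := by
  decide +kernel

theorem cD8k_0_k2_26 : allI cD8k_0_c (rjL dJ cD8k_0_q rD8k_2_26) 3273 = true := by
  decide +kernel

theorem cD8k_0_k2_27 : allI cD8k_0_c (rjL dJ cD8k_0_q rD8k_2_27) 3290 = true := by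
  decide +kernel

theorem cD8k_0_k2_28 : allI cD8k_0_c (rjL dJ cD8k_0_q rD8k_2_28) 3302 = true := by
  decide +kernel

theorem cD8k_0_k2_29 : allI cD8k_0_c (rjL dJ cD8k_0_q rD8k_2_29) 3314 = true := by
  decide +kernel

theorem cD8k_0_k2_30 : allI cD8k_0_c (rjL dJ cD8k_0_q rD8k_2_30) 3326 = true := by
  decide +kernel

theorem cD8k_0_k2_31 : allI cD8k_0_c (rjL dJ cD8k_0_q rD8k_2_31) 3337 = true := by
  decide +kernel

theorem cD8k_0_k2_32 : allI cD8k_0_c (rjL dJ cD8k_0_q rD8k_2_32) 3347 = true := by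
  decide +kernel

theorem cD8k_0_k2_33 : allI cD8k_0_c (rjL dJ cD8k_0_q rD8k_2_33) 3361 = true := by
  decide +kernel

theorem cD8k_0_k2_34 : allI cD8k_0_c (rjL dJ cD8k_0_q rD8k_2_34) 3385 = true := by
  decide +kernel

theorem cD8k_0_k2_35 : allI cD8k_0_c (rjL dJ cD8k_0_q rD8k_2_35) 3400 = true := by
  decide +kernel

theorem cD8k_0_k2_36 : allI cD8k_0_c (rjL dJ cD8k_0_q rD8k_2_36) 3417 = true := by
  decide +kernel

theorem cD8k_0_k2_37 : allI cD8k_0_c (rjL dJ cD8k_0_q rD8k_2_37) 3437 = true := by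
  decide +kernel

theorem cD8k_0_k2_38 : allI cD8k_0_c (rjL dJ cD8k_0_q rD8k_2_38) 3453 = true := by
  decide +kernel

theorem cD8k_0_k2_39 : allI cD8k_0_c (rjL dJ cD8k_0_q rD8k_2_39) 3469 = true := by
  decide +kernel

theorem cD8k_0_k2_40 : allI cD8k_0_c (rjL dJ cD8k_0_q rD8k_2_40) 3485 = true := by
  decide +kernel

/-- nodes -/
noncomputable def cD8k_0_n2 : List (QJ PN) :=
  rjL dJ cD8k_0_q rD8k_2_0 ++ (rjL dJ cD8k_0_q rD8k_2_1 ++ (rjL dJ cD8k_0_q rD8k_2_2 ++ (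
    rjL dJ cD8k_0_q rD8k_2_3 ++ (rjL dJ cD8k_0_q rD8k_2_4 ++ (rjL dJ cD8k_0_q rD8k_2_5 ++ (
    rjL dJ cD8k_0_q rD8k_2_6 ++ (rjL dJ cD8k_0_q rD8k_2_7 ++ (rjL dJ cD8k_0_q rD8k_2_8 ++ (
    rjL dJ cD8k_0_q rD8k_2_9 ++ (rjL dJ cD8k_0_q rD8k_2_10 ++ (rjL dJ cD8k_0_q rD8k_2_11 ++ (
    rjL dJ cD8k_0_q rD8k_2_12 ++ (rjL dJ cD8k_0_q rD8k_2_13 ++ (rjL dJ cD8k_0_q rD8k_2_14 ++ (
    rjL dJ cD8k_0_q rD8k_2_15 ++ (rjL dJ cD8k_0_q rD8k_2_16 ++ (rjL dJ cD8k_0_q rD8k_2_17 ++ (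
    rjL dJ cD8k_0_q rD8k_2_18 ++ (rjL dJ cD8k_0_q rD8k_2_19 ++ (rjL dJ cD8k_0_q rD8k_2_20 ++ (
    rjL dJ cD8k_0_q rD8k_2_21 ++ (rjL dJ cD8k_0_q rD8k_2_22 ++ (rjL dJ cD8k_0_q rD8k_2_23 ++ (
    rjL dJ cD8k_0_q rD8k_2_24 ++ (rjL dJ cD8k_0_q rD8k_2_25 ++ (rjL dJ cD8k_0_q rD8k_2_26 ++ (
    rjL dJ cD8k_0_q rD8k_2_27 ++ (rjL dJ cD8k_0_q rD8k_2_28 ++ (rjL dJ cD8k_0_q rD8k_2_29 ++ (
    rjL dJ cD8k_0_q rD8k_2_30 ++ (rjL dJ cD8k_0_q rD8k_2_31 ++ (rjL dJ cD8k_0_q rD8k_2_32 ++ (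
    rjL dJ cD8k_0_q rD8k_2_33 ++ (rjL dJ cD8k_0_q rD8k_2_34 ++ (rjL dJ cD8k_0_q rD8k_2_35 ++ (
    rjL dJ cD8k_0_q rD8k_2_36 ++ (rjL dJ cD8k_0_q rD8k_2_37 ++ (rjL dJ cD8k_0_q rD8k_2_38 ++ (
    rjL dJ cD8k_0_q rD8k_2_39 ++ rjL dJ cD8k_0_q rD8k_2_40)))))))))))))))))))))))))))))))))))))))

theorem cD8k_0_k2 : allI cD8k_0_c cD8k_0_n2 2791 = true := by
  refine allI_appQ (k := 17) cD8k_0_k2_0 (by decide +kernel) ?_
  refine allI_appQ (k := 11) cD8k_0_k2_1 (by decide +kernel) ?_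
  refine allI_appQ (k := 18) cD8k_0_k2_2 (by decide +kernel) ?_
  refine allI_appQ (k := 24) cD8k_0_k2_3 (by decide +kernel) ?_
  refine allI_appQ (k := 20) cD8k_0_k2_4 (by decide +kernel) ?_
  refine allI_appQ (k := 24) cD8k_0_k2_5 (by decide +kernel) ?_
  refine allI_appQ (k := 24) cD8k_0_k2_6 (by decide +kernel) ?_
  refine allI_appQ (k := 24) cD8k_0_k2_7 (by decide +kernel) ?_
  refine allI_appQ (k := 19) cD8k_0_k2_8 (by decide +kernel) ?_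
  refine allI_appQ (k := 16) cD8k_0_k2_9 (by decide +kernel) ?_
  refine allI_appQ (k := 15) cD8k_0_k2_10 (by decide +kernel) ?_
  refine allI_appQ (k := 21) cD8k_0_k2_11 (by decide +kernel) ?_
  refine allI_appQ (k := 15) cD8k_0_k2_12 (by decide +kernel) ?_
  refine allI_appQ (k := 20) cD8k_0_k2_13 (by decide +kernel) ?_
  refine allI_appQ (k := 15) cD8k_0_k2_14 (by decide +kernel) ?_
  refine allI_appQ (k := 14) cD8k_0_k2_15 (by decide +kernel) ?_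
  refine allI_appQ (k := 13) cD8k_0_k2_16 (by decide +kernel) ?_
  refine allI_appQ (k := 15) cD8k_0_k2_17 (by decide +kernel) ?_
  refine allI_appQ (k := 21) cD8k_0_k2_18 (by decide +kernel) ?_
  refine allI_appQ (k := 18) cD8k_0_k2_19 (by decide +kernel) ?_
  refine allI_appQ (k := 15) cD8k_0_k2_20 (by decide +kernel) ?_
  refine allI_appQ (k := 24) cD8k_0_k2_21 (by decide +kernel) ?_
  refine allI_appQ (k := 16) cD8k_0_k2_22 (by decide +kernel) ?_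
  refine allI_appQ (k := 21) cD8k_0_k2_23 (by decide +kernel) ?_
  refine allI_appQ (k := 24) cD8k_0_k2_24 (by decide +kernel) ?_
  refine allI_appQ (k := 18) cD8k_0_k2_25 (by decide +kernel) ?_
  refine allI_appQ (k := 17) cD8k_0_k2_26 (by decide +kernel) ?_
  refine allI_appQ (k := 12) cD8k_0_k2_27 (by decide +kernel) ?_
  refine allI_appQ (k := 12) cD8k_0_k2_28 (by decide +kernel) ?_
  refine allI_appQ (k := 12) cD8k_0_k2_29 (by decide +kernel) ?_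
  refine allI_appQ (k := 11) cD8k_0_k2_30 (by decide +kernel) ?_
  refine allI_appQ (k := 10) cD8k_0_k2_31 (by decide +kernel) ?_
  refine allI_appQ (k := 14) cD8k_0_k2_32 (by decide +kernel) ?_
  refine allI_appQ (k := 24) cD8k_0_k2_33 (by decide +kernel) ?_
  refine allI_appQ (k := 15) cD8k_0_k2_34 (by decide +kernel) ?_
  refine allI_appQ (k := 17) cD8k_0_k2_35 (by decide +kernel) ?_
  refine allI_appQ (k := 20) cD8k_0_k2_36 (by decide +kernel) ?_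
  refine allI_appQ (k := 16) cD8k_0_k2_37 (by decide +kernel) ?_
  refine allI_appQ (k := 16) cD8k_0_k2_38 (by decide +kernel) ?_
  refine allI_appQ (k := 16) cD8k_0_k2_39 (by decide +kernel) ?_
  exact cD8k_0_k2_40

theorem cD8k_0_l2 : cD8k_0_n2.length = 695 := by
  decide +kernel

end Pool.Agent.Lib_MP_fa6e45
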